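import Pool.Agent.Helper6.MONO.Cert.C44

/-!
Certificate data (generated).
-/

set_option autoImplicit false
set_option linter.all false
noncomputable section
namespace Pool.Agent.Helper6.MONO


namespace Q112_0
def sI : I := I.pos (nat_lit 0) (nat_lit 91291648)
def b0_0 : Bx := Bx.mk (St.mk (I.pos (nat_lit 140247040) (nat_lit 216694784)) (I.mix (nat_lit 278528) (nat_lit 109658112)) (I.mix (nat_lit 19628032) (nat_lit 93143040)) (I.pos (nat_lit 384401408) (nat_lit 483475456)) (I.mix (nat_lit 159760384) (nat_lit 115212288)) (I.mix (nat_lit 144637952) (nat_lit 131022848)) (I.mix (nat_lit 193265664) (nat_lit 185942016)))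
  false (nat_lit 0)
def b0_1 : Bx := Bx.mk (St.mk (I.mix (nat_lit 56115200) (nat_lit 1785856)) (I.mix (nat_lit 17809408) (nat_lit 94683136)) (I.neg (nat_lit 60424192) (nat_lit 82706432)) (I.pos (nat_lit 272891904) (nat_lit 299614208)) (I.mix (nat_lit 68681728) (nat_lit 128188416)) (I.mix (nat_lit 132317184) (nat_lit 99991552)) (I.mix (nat_lit 56934400) (nat_lit 44662784)))
  true (nat_lit 0)
def b0_2 : Bx := Bx.mk (St.mk (I.pos (nat_lit 13565952) (nat_lit 56115200)) (I.neg (nat_lit 25985024) (nat_lit 94683136)) (I.neg (nat_lit 60424192) (nat_lit 82706432)) (I.pos (nat_lit 275136512) (nat_lit 299614208)) (I.mix (nat_lit 128188416) (nat_lit 57163776)) (I.mix (nat_lit 99991552) (nat_lit 123600896)) (I.mix (nat_lit 56934400) (nat_lit 44662784)))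
  false (nat_lit 0)
def b0_3 : Bx := Bx.mk (St.mk (I.mix (nat_lit 19480576) (nat_lit 3014656)) (I.mix (nat_lit 22331392) (nat_lit 21528576)) (I.neg (nat_lit 62439424) (nat_lit 68976640)) (I.pos (nat_lit 273055744) (nat_lit 284737536)) (I.mix (nat_lit 60407808) (nat_lit 52756480)) (I.mix (nat_lit 61751296) (nat_lit 58294272)) (I.mix (nat_lit 8175616) (nat_lit 11157504)))
  true (nat_lit 0)
def b0_4 : Bx := Bx.mk (St.mk (I.pos (nat_lit 201162752) (nat_lit 254164992)) (I.mix (nat_lit 35635200) (nat_lit 34816000)) (I.neg (nat_lit 65224704) (nat_lit 185499648)) (I.pos (nat_lit 460046336) (nat_lit 543424512)) (I.mix (nat_lit 150241280) (nat_lit 86228992)) (I.mix (nat_lit 131858432) (nat_lit 131940352)) (I.mix (nat_lit 228392960) (nat_lit 270598144)))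
  false (nat_lit 0)
def b0_5 : Bx := Bx.mk (St.mk (I.mix (nat_lit 2490368) (nat_lit 19283968)) (I.mix (nat_lit 17170432) (nat_lit 17399808)) (I.neg (nat_lit 62455808) (nat_lit 68976640)) (I.pos (nat_lit 273055744) (nat_lit 284737536)) (I.mix (nat_lit 49938432) (nat_lit 56131584)) (I.mix (nat_lit 55590912) (nat_lit 58195968)) (I.mix (nat_lit 8044544) (nat_lit 11010048)))
  false (nat_lit 0)
def b0_6 : Bx := Bx.mk (St.mk (I.pos (nat_lit 21970944) (nat_lit 110804992)) (I.neg (nat_lit 8044544) (nat_lit 99418112)) (I.neg (nat_lit 25214976) (nat_lit 99205120)) (I.pos (nat_lit 273432576) (nat_lit 331907072)) (I.mix (nat_lit 150290432) (nat_lit 88866816)) (I.mix (nat_lit 108445696) (nat_lit 129335296)) (I.mix (nat_lit 116948992) (nat_lit 107954176)))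
  false (nat_lit 0)
def b0_7 : Bx := Bx.mk (St.mk (I.pos (nat_lit 98975744) (nat_lit 190824448)) (I.mix (nat_lit 32784384) (nat_lit 100483072)) (I.mix (nat_lit 49610752) (nat_lit 83705856)) (I.pos (nat_lit 319782912) (nat_lit 432062464)) (I.mix (nat_lit 185270272) (nat_lit 103809024)) (I.mix (nat_lit 215973888) (nat_lit 175308800)) (I.mix (nat_lit 220938240) (nat_lit 197214208)))
  false (nat_lit 0)
def b0_8 : Bx := Bx.mk (St.mk (I.neg (nat_lit 21970944) (nat_lit 110395392)) (I.pos (nat_lit 8044544) (nat_lit 99418112)) (I.neg (nat_lit 25198592) (nat_lit 99205120)) (I.pos (nat_lit 273432576) (nat_lit 331612160)) (I.mix (nat_lit 88932352) (nat_lit 150290432)) (I.mix (nat_lit 129335296) (nat_lit 108445696)) (I.mix (nat_lit 116948992) (nat_lit 107970560)))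
  true (nat_lit 0)
def b0_9 : Bx := Bx.mk (St.mk (I.pos (nat_lit 160956416) (nat_lit 246169600)) (I.mix (nat_lit 32604160) (nat_lit 106315776)) (I.mix (nat_lit 174948352) (nat_lit 70631424)) (I.pos (nat_lit 416235520) (nat_lit 520732672)) (I.mix (nat_lit 168640512) (nat_lit 129875968)) (I.mix (nat_lit 168230912) (nat_lit 155860992)) (I.mix (nat_lit 279904256) (nat_lit 290586624)))
  false (nat_lit 0)
def b0_10 : Bx := Bx.mk (St.mk (I.pos (nat_lit 2424832) (nat_lit 42188800)) (I.mix (nat_lit 77332480) (nat_lit 17809408)) (I.neg (nat_lit 61587456) (nat_lit 80494592)) (I.pos (nat_lit 272891904) (nat_lit 293289984)) (I.mix (nat_lit 124239872) (nat_lit 68681728)) (I.mix (nat_lit 91111424) (nat_lit 132317184)) (I.mix (nat_lit 40353792) (nat_lit 31227904)))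
  false (nat_lit 0)
def b0_11 : Bx := Bx.mk (St.mk (I.pos (nat_lit 91881472) (nat_lit 110444544)) (I.neg (nat_lit 17055744) (nat_lit 43778048)) (I.neg (nat_lit 27967488) (nat_lit 51396608)) (I.pos (nat_lit 313786368) (nat_lit 331644928)) (I.mix (nat_lit 28639232) (nat_lit 24068096)) (I.mix (nat_lit 17809408) (nat_lit 22151168)) (I.mix (nat_lit 18120704) (nat_lit 17694720)))
  false (nat_lit 0)
def t0 : BTr := (BTr.n (BTr.n (BTr.n (BTr.b b0_0) (BTr.n (BTr.b b0_1) (BTr.b b0_2))) (BTr.n (BTr.b b0_3) (BTr.n (BTr.b b0_4) (BTr.b b0_5)))) (BTr.n (BTr.n (BTr.b b0_6) (BTr.n (BTr.b b0_7) (BTr.b b0_8))) (BTr.n (BTr.b b0_9) (BTr.n (BTr.b b0_10) (BTr.b b0_11)))))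
namespace T0
def l0 : Tr := Tr.L (Pth.l (Pth.l (Pth.l Pth.z)))
def l1 : Tr := Tr.L (Pth.l (Pth.l (Pth.r (Pth.l Pth.z))))
def l2 : Tr := Tr.L (Pth.l (Pth.l (Pth.r (Pth.r Pth.z))))
def l3 : Tr := Tr.L (Pth.l (Pth.r (Pth.l Pth.z)))
def l4 : Tr := Tr.L (Pth.l (Pth.r (Pth.r (Pth.l Pth.z))))
def l5 : Tr := Tr.L (Pth.l (Pth.r (Pth.r (Pth.r Pth.z))))
def l6 : Tr := Tr.L (Pth.r (Pth.l (Pth.l Pth.z)))
def l7 : Tr := Tr.L (Pth.r (Pth.l (Pth.r (Pth.l Pth.z))))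
def l8 : Tr := Tr.L (Pth.r (Pth.l (Pth.r (Pth.r Pth.z))))
def l9 : Tr := Tr.L (Pth.r (Pth.r (Pth.l Pth.z)))
def l10 : Tr := Tr.L (Pth.r (Pth.r (Pth.r (Pth.l Pth.z))))
def l11 : Tr := Tr.L (Pth.r (Pth.r (Pth.r (Pth.r Pth.z))))
end T0
def b1_0 : Bx := Bx.mk (St.mk (I.pos (nat_lit 143245312) (nat_lit 226983936)) (I.mix (nat_lit 278528) (nat_lit 85852160)) (I.mix (nat_lit 278528) (nat_lit 116228096)) (I.pos (nat_lit 249151488) (nat_lit 347193344)) (I.mix (nat_lit 164954112) (nat_lit 120160256)) (I.mix (nat_lit 145784832) (nat_lit 123584512)) (I.mix (nat_lit 220987392) (nat_lit 186777600)))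
  false (nat_lit 0)
def b1_1 : Bx := Bx.mk (St.mk (I.pos (nat_lit 75563008) (nat_lit 131022848)) (I.neg (nat_lit 1900544) (nat_lit 78135296)) (I.mix (nat_lit 66453504) (nat_lit 1703936)) (I.pos (nat_lit 172982272) (nat_lit 214614016)) (I.mix (nat_lit 100548608) (nat_lit 86114304)) (I.mix (nat_lit 80510976) (nat_lit 115425280)) (I.mix (nat_lit 73891840) (nat_lit 105054208)))
  false (nat_lit 0)
def b1_2 : Bx := Bx.mk (St.mk (I.pos (nat_lit 22642688) (nat_lit 57933824)) (I.mix (nat_lit 10584064) (nat_lit 48758784)) (I.mix (nat_lit 22593536) (nat_lit 4456448)) (I.pos (nat_lit 146145280) (nat_lit 161120256)) (I.mix (nat_lit 48857088) (nat_lit 67895296)) (I.mix (nat_lit 75890688) (nat_lit 51724288)) (I.mix (nat_lit 43532288) (nat_lit 24248320)))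
  false (nat_lit 0)
def b1_3 : Bx := Bx.mk (St.mk (I.mix (nat_lit 34324480) (nat_lit 1228800)) (I.mix (nat_lit 41074688) (nat_lit 8896512)) (I.mix (nat_lit 1835008) (nat_lit 3096576)) (I.pos (nat_lit 145293312) (nat_lit 153632768)) (I.mix (nat_lit 37617664) (nat_lit 56885248)) (I.mix (nat_lit 42303488) (nat_lit 64241664)) (I.mix (nat_lit 5832704) (nat_lit 7897088)))
  true (nat_lit 0)
def b1_4 : Bx := Bx.mk (St.mk (I.pos (nat_lit 139624448) (nat_lit 195936256)) (I.mix (nat_lit 5111808) (nat_lit 66633728)) (I.pos (nat_lit 14270464) (nat_lit 92012544)) (I.pos (nat_lit 233177088) (nat_lit 296681472)) (I.mix (nat_lit 171065344) (nat_lit 61210624)) (I.mix (nat_lit 203620352) (nat_lit 116211712)) (I.mix (nat_lit 201621504) (nat_lit 126533632)))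
  false (nat_lit 0)
def b1_5 : Bx := Bx.mk (St.mk (I.pos (nat_lit 59129856) (nat_lit 102170624)) (I.mix (nat_lit 65372160) (nat_lit 12517376)) (I.neg (nat_lit 11714560) (nat_lit 54067200)) (I.pos (nat_lit 158941184) (nat_lit 189530112)) (I.mix (nat_lit 104644608) (nat_lit 47693824)) (I.mix (nat_lit 66355200) (nat_lit 119734272)) (I.mix (nat_lit 49315840) (nat_lit 67780608)))
  false (nat_lit 0)
def b1_6 : Bx := Bx.mk (St.mk (I.mix (nat_lit 1130496) (nat_lit 34324480)) (I.mix (nat_lit 9519104) (nat_lit 41074688)) (I.mix (nat_lit 1835008) (nat_lit 3096576)) (I.pos (nat_lit 145293312) (nat_lit 153632768)) (I.mix (nat_lit 56885248) (nat_lit 37617664)) (I.mix (nat_lit 64241664) (nat_lit 42303488)) (I.mix (nat_lit 5832704) (nat_lit 7897088)))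
  false (nat_lit 0)
def b1_7 : Bx := Bx.mk (St.mk (I.neg (nat_lit 22626304) (nat_lit 62865408)) (I.mix (nat_lit 48758784) (nat_lit 10780672)) (I.mix (nat_lit 22593536) (nat_lit 4456448)) (I.pos (nat_lit 146145280) (nat_lit 162856960)) (I.mix (nat_lit 67895296) (nat_lit 48857088)) (I.mix (nat_lit 51724288) (nat_lit 75907072)) (I.mix (nat_lit 43532288) (nat_lit 24248320)))
  true (nat_lit 0)
def b1_8 : Bx := Bx.mk (St.mk (I.pos (nat_lit 168574976) (nat_lit 243482624)) (I.mix (nat_lit 26542080) (nat_lit 82296832)) (I.mix (nat_lit 80805888) (nat_lit 108625920)) (I.pos (nat_lit 292487168) (nat_lit 379092992)) (I.mix (nat_lit 146046976) (nat_lit 133595136)) (I.mix (nat_lit 175439872) (nat_lit 128679936)) (I.mix (nat_lit 280084480) (nat_lit 214679552)))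
  false (nat_lit 0)
def b1_9 : Bx := Bx.mk (St.mk (I.pos (nat_lit 135380992) (nat_lit 180142080)) (I.mix (nat_lit 46120960) (nat_lit 45842432)) (I.mix (nat_lit 36438016) (nat_lit 69763072)) (I.pos (nat_lit 224854016) (nat_lit 271515648)) (I.mix (nat_lit 165150720) (nat_lit 82051072)) (I.mix (nat_lit 211107840) (nat_lit 115687424)) (I.mix (nat_lit 208453632) (nat_lit 118013952)))
  false (nat_lit 0)
def b1_10 : Bx := Bx.mk (St.mk (I.pos (nat_lit 103759872) (nat_lit 137920512)) (I.mix (nat_lit 43122688) (nat_lit 573440)) (I.mix (nat_lit 33210368) (nat_lit 7798784)) (I.pos (nat_lit 192659456) (nat_lit 222216192)) (I.mix (nat_lit 71696384) (nat_lit 31473664)) (I.mix (nat_lit 44728320) (nat_lit 58589184)) (I.mix (nat_lit 47366144) (nat_lit 55574528)))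
  false (nat_lit 0)
def b1_11 : Bx := Bx.mk (St.mk (I.pos (nat_lit 40009728) (nat_lit 63045632)) (I.mix (nat_lit 15482880) (nat_lit 18350080)) (I.neg (nat_lit 7897088) (nat_lit 24526848)) (I.pos (nat_lit 150618112) (nat_lit 163233792)) (I.mix (nat_lit 46874624) (nat_lit 25018368)) (I.mix (nat_lit 37027840) (nat_lit 38027264)) (I.mix (nat_lit 20512768) (nat_lit 20791296)))
  false (nat_lit 0)
def b1_12 : Bx := Bx.mk (St.mk (I.pos (nat_lit 205307904) (nat_lit 252526592)) (I.mix (nat_lit 26296320) (nat_lit 18235392)) (I.neg (nat_lit 12648448) (nat_lit 86704128)) (I.pos (nat_lit 337330176) (nat_lit 404979712)) (I.mix (nat_lit 131219456) (nat_lit 43696128)) (I.mix (nat_lit 96239616) (nat_lit 102121472)) (I.mix (nat_lit 170164224) (nat_lit 194576384)))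
  false (nat_lit 0)
def b1_13 : Bx := Bx.mk (St.mk (I.pos (nat_lit 130531328) (nat_lit 154681344)) (I.neg (nat_lit 13369344) (nat_lit 42156032)) (I.neg (nat_lit 4325376) (nat_lit 33947648)) (I.pos (nat_lit 217071616) (nat_lit 241745920)) (I.mix (nat_lit 51806208) (nat_lit 50216960)) (I.mix (nat_lit 62128128) (nat_lit 52084736)) (I.mix (nat_lit 66682880) (nat_lit 50462720)))
  false (nat_lit 0)
def b1_14 : Bx := Bx.mk (St.mk (I.mix (nat_lit 11927552) (nat_lit 1130496)) (I.mix (nat_lit 8306688) (nat_lit 12845056)) (I.mix (nat_lit 1425408) (nat_lit 180224)) (I.pos (nat_lit 145063936) (nat_lit 148193280)) (I.mix (nat_lit 32243712) (nat_lit 20316160)) (I.mix (nat_lit 25804800) (nat_lit 29212672)) (I.mix (nat_lit 2146304) (nat_lit 507904)))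
  true (nat_lit 0)
def t1 : BTr := (BTr.n (BTr.n (BTr.n (BTr.b b1_0) (BTr.n (BTr.b b1_1) (BTr.b b1_2))) (BTr.n (BTr.n (BTr.b b1_3) (BTr.b b1_4)) (BTr.n (BTr.b b1_5) (BTr.b b1_6)))) (BTr.n (BTr.n (BTr.n (BTr.b b1_7) (BTr.b b1_8)) (BTr.n (BTr.b b1_9) (BTr.b b1_10))) (BTr.n (BTr.n (BTr.b b1_11) (BTr.b b1_12)) (BTr.n (BTr.b b1_13) (BTr.b b1_14)))))
namespace T1
def l0 : Tr := Tr.L (Pth.l (Pth.l (Pth.l Pth.z)))
def l1 : Tr := Tr.L (Pth.l (Pth.l (Pth.r (Pth.l Pth.z))))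
def l2 : Tr := Tr.L (Pth.l (Pth.l (Pth.r (Pth.r Pth.z))))
def l3 : Tr := Tr.L (Pth.l (Pth.r (Pth.l (Pth.l Pth.z))))
def l4 : Tr := Tr.L (Pth.l (Pth.r (Pth.l (Pth.r Pth.z))))
def l5 : Tr := Tr.L (Pth.l (Pth.r (Pth.r (Pth.l Pth.z))))
def l6 : Tr := Tr.L (Pth.l (Pth.r (Pth.r (Pth.r Pth.z))))
def l7 : Tr := Tr.L (Pth.r (Pth.l (Pth.l (Pth.l Pth.z))))
def l8 : Tr := Tr.L (Pth.r (Pth.l (Pth.l (Pth.r Pth.z))))
def l9 : Tr := Tr.L (Pth.r (Pth.l (Pth.r (Pth.l Pth.z))))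
def l10 : Tr := Tr.L (Pth.r (Pth.l (Pth.r (Pth.r Pth.z))))
def l11 : Tr := Tr.L (Pth.r (Pth.r (Pth.l (Pth.l Pth.z))))
def l12 : Tr := Tr.L (Pth.r (Pth.r (Pth.l (Pth.r Pth.z))))
def l13 : Tr := Tr.L (Pth.r (Pth.r (Pth.r (Pth.l Pth.z))))
def l14 : Tr := Tr.L (Pth.r (Pth.r (Pth.r (Pth.r Pth.z))))
end T1
def b2_0 : Bx := Bx.mk (St.mk (I.pos (nat_lit 126910464) (nat_lit 215302144)) (I.mix (nat_lit 278528) (nat_lit 105086976)) (I.mix (nat_lit 278528) (nat_lit 140787712)) (I.pos (nat_lit 366149632) (nat_lit 470073344)) (I.mix (nat_lit 206487552) (nat_lit 128565248)) (I.mix (nat_lit 168476672) (nat_lit 135888896)) (I.mix (nat_lit 198230016) (nat_lit 190365696)))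
  false (nat_lit 19130580)
def b2_1 : Bx := Bx.mk (St.mk (I.pos (nat_lit 34717696) (nat_lit 109690880)) (I.neg (nat_lit 573440) (nat_lit 104218624)) (I.mix (nat_lit 64094208) (nat_lit 27541504)) (I.pos (nat_lit 278102016) (nat_lit 327188480)) (I.mix (nat_lit 113786880) (nat_lit 104644608)) (I.mix (nat_lit 115605504) (nat_lit 126468096)) (I.mix (nat_lit 109395968) (nat_lit 106496000)))
  false (nat_lit 18730124)
def b2_2 : Bx := Bx.mk (St.mk (I.pos (nat_lit 103317504) (nat_lit 183205888)) (I.mix (nat_lit 46940160) (nat_lit 103153664)) (I.mix (nat_lit 10010624) (nat_lit 138674176)) (I.pos (nat_lit 319307776) (nat_lit 413466624)) (I.mix (nat_lit 221102080) (nat_lit 91553792)) (I.mix (nat_lit 238403584) (nat_lit 169967616)) (I.mix (nat_lit 247824384) (nat_lit 205012992)))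
  false (nat_lit 19210445)
def b2_3 : Bx := Bx.mk (St.mk (I.neg (nat_lit 34717696) (nat_lit 110313472)) (I.pos (nat_lit 573440) (nat_lit 104218624)) (I.mix (nat_lit 64094208) (nat_lit 27557888)) (I.pos (nat_lit 278102016) (nat_lit 327614464)) (I.mix (nat_lit 104644608) (nat_lit 113786880)) (I.mix (nat_lit 126484480) (nat_lit 115605504)) (I.mix (nat_lit 109412352) (nat_lit 106496000)))
  true (nat_lit 0)
def b2_4 : Bx := Bx.mk (St.mk (I.pos (nat_lit 83525632) (nat_lit 111050752)) (I.mix (nat_lit 42729472) (nat_lit 2179072)) (I.mix (nat_lit 6635520) (nat_lit 30785536)) (I.pos (nat_lit 303955968) (nat_lit 328663040)) (I.mix (nat_lit 72712192) (nat_lit 55279616)) (I.mix (nat_lit 61767680) (nat_lit 71614464)) (I.mix (nat_lit 57229312) (nat_lit 57655296)))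
  false (nat_lit 0)
def b2_5 : Bx := Bx.mk (St.mk (I.mix (nat_lit 63160320) (nat_lit 4800512)) (I.mix (nat_lit 3719168) (nat_lit 98435072)) (I.neg (nat_lit 25051136) (nat_lit 44498944)) (I.pos (nat_lit 274448384) (nat_lit 299810816)) (I.mix (nat_lit 81166336) (nat_lit 113393664)) (I.mix (nat_lit 119914496) (nat_lit 110968832)) (I.mix (nat_lit 49119232) (nat_lit 38780928)))
  true (nat_lit 0)
def b2_6 : Bx := Bx.mk (St.mk (I.pos (nat_lit 22380544) (nat_lit 63160320)) (I.neg (nat_lit 28721152) (nat_lit 98435072)) (I.neg (nat_lit 25001984) (nat_lit 44498944)) (I.pos (nat_lit 278167552) (nat_lit 299827200)) (I.mix (nat_lit 113393664) (nat_lit 81166336)) (I.mix (nat_lit 110968832) (nat_lit 119947264)) (I.mix (nat_lit 49119232) (nat_lit 38780928)))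
  false (nat_lit 0)
def b2_7 : Bx := Bx.mk (St.mk (I.pos (nat_lit 177111040) (nat_lit 262815744)) (I.mix (nat_lit 10829824) (nat_lit 54378496)) (I.mix (nat_lit 69746688) (nat_lit 48955392)) (I.pos (nat_lit 423936000) (nat_lit 550813696)) (I.mix (nat_lit 139706368) (nat_lit 75628544)) (I.mix (nat_lit 113606656) (nat_lit 110247936)) (I.mix (nat_lit 160841728) (nat_lit 175030272)))
  false (nat_lit 0)
def b2_8 : Bx := Bx.mk (St.mk (I.mix (nat_lit 4440064) (nat_lit 37437440)) (I.mix (nat_lit 38436864) (nat_lit 3784704)) (I.neg (nat_lit 25133056) (nat_lit 32735232)) (I.pos (nat_lit 274497536) (nat_lit 284950528)) (I.mix (nat_lit 45809664) (nat_lit 59080704)) (I.mix (nat_lit 60964864) (nat_lit 50987008)) (I.mix (nat_lit 14548992) (nat_lit 11911168)))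
  false (nat_lit 0)
def b2_9 : Bx := Bx.mk (St.mk (I.mix (nat_lit 8994816) (nat_lit 4489216)) (I.mix (nat_lit 3850240) (nat_lit 19447808)) (I.neg (nat_lit 29196288) (nat_lit 31342592)) (I.pos (nat_lit 274235392) (nat_lit 279592960)) (I.mix (nat_lit 13746176) (nat_lit 27295744)) (I.mix (nat_lit 20021248) (nat_lit 13090816)) (I.neg (nat_lit 278528) (nat_lit 3407872)))
  true (nat_lit 0)
def b2_10 : Bx := Bx.mk (St.mk (I.pos (nat_lit 149700608) (nat_lit 211779584)) (I.pos (nat_lit 16171008) (nat_lit 97976320)) (I.pos (nat_lit 12877824) (nat_lit 122372096)) (I.pos (nat_lit 394739712) (nat_lit 449560576)) (I.mix (nat_lit 139919360) (nat_lit 120160256)) (I.mix (nat_lit 164003840) (nat_lit 101728256)) (I.mix (nat_lit 248414208) (nat_lit 143179776)))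
  false (nat_lit 0)
def b2_11 : Bx := Bx.mk (St.mk (I.pos (nat_lit 23937024) (nat_lit 48201728)) (I.neg (nat_lit 20119552) (nat_lit 74612736)) (I.neg (nat_lit 27901952) (nat_lit 40943616)) (I.pos (nat_lit 277954560) (nat_lit 292044800)) (I.mix (nat_lit 96763904) (nat_lit 63307776)) (I.mix (nat_lit 67289088) (nat_lit 117899264)) (I.mix (nat_lit 28622848) (nat_lit 23707648)))
  false (nat_lit 0)
def t2 : BTr := (BTr.n (BTr.n (BTr.n (BTr.b b2_0) (BTr.n (BTr.b b2_1) (BTr.b b2_2))) (BTr.n (BTr.b b2_3) (BTr.n (BTr.b b2_4) (BTr.b b2_5)))) (BTr.n (BTr.n (BTr.b b2_6) (BTr.n (BTr.b b2_7) (BTr.b b2_8))) (BTr.n (BTr.b b2_9) (BTr.n (BTr.b b2_10) (BTr.b b2_11)))))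
namespace T2
def l0 : Tr := Tr.L (Pth.l (Pth.l (Pth.l Pth.z)))
def l1 : Tr := Tr.L (Pth.l (Pth.l (Pth.r (Pth.l Pth.z))))
def l2 : Tr := Tr.L (Pth.l (Pth.l (Pth.r (Pth.r Pth.z))))
def l3 : Tr := Tr.L (Pth.l (Pth.r (Pth.l Pth.z)))
def l4 : Tr := Tr.L (Pth.l (Pth.r (Pth.r (Pth.l Pth.z))))
def l5 : Tr := Tr.L (Pth.l (Pth.r (Pth.r (Pth.r Pth.z))))
def l6 : Tr := Tr.L (Pth.r (Pth.l (Pth.l Pth.z)))
def l7 : Tr := Tr.L (Pth.r (Pth.l (Pth.r (Pth.l Pth.z))))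
def l8 : Tr := Tr.L (Pth.r (Pth.l (Pth.r (Pth.r Pth.z))))
def l9 : Tr := Tr.L (Pth.r (Pth.r (Pth.l Pth.z)))
def l10 : Tr := Tr.L (Pth.r (Pth.r (Pth.r (Pth.l Pth.z))))
def l11 : Tr := Tr.L (Pth.r (Pth.r (Pth.r (Pth.r Pth.z))))
end T2
theorem bx0_0 : BoxOK sI cl4 cl4 cl5 t0 t2 b0_0 :=
  box_mk (TrL.c (I.pos (nat_lit 0) (nat_lit 0)) (xa (xb T0.l0 T0.l0) (xb T0.l0 T0.l0))
  (TrL.c (I.pos (nat_lit 0) (nat_lit 0)) T2.l1
  (TrL.c (I.pos (nat_lit 0) (nat_lit 0)) T0.l1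
  (TrL.c (I.pos (nat_lit 0) (nat_lit 0)) T2.l2
  (TrL.c (I.pos (nat_lit 0) (nat_lit 0)) T0.l2
  (TrL.c (I.pos (nat_lit 0) (nat_lit 0)) T2.l3
  TrL.n)))))) (by decide +kernel)
theorem bx0_1 : BoxOK sI cl4 cl4 cl5 t0 t2 b0_1 :=
  box_mk (TrL.c (I.pos (nat_lit 0) (nat_lit 0)) T2.l4
  (TrL.c (I.pos (nat_lit 0) (nat_lit 0)) T0.l3
  TrL.n)) (by decide +kernel)
theorem bx0_2 : BoxOK sI cl4 cl4 cl5 t0 t2 b0_2 :=
  box_mk (TrL.c (I.pos (nat_lit 0) (nat_lit 0)) T0.l4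
  (TrL.c (I.pos (nat_lit 0) (nat_lit 0)) T2.l1
  (TrL.c (I.pos (nat_lit 0) (nat_lit 0)) T0.l1
  (TrL.c (I.pos (nat_lit 0) (nat_lit 0)) T2.l2
  (TrL.c (I.pos (nat_lit 0) (nat_lit 0)) T0.l5
  (TrL.c (I.pos (nat_lit 0) (nat_lit 0)) T2.l3
  TrL.n)))))) (by decide +kernel)
theorem bx0_3 : BoxOK sI cl4 cl4 cl5 t0 t2 b0_3 :=
  box_mk (TrL.c (I.pos (nat_lit 0) (nat_lit 0)) T2.l4
  (TrL.c (I.pos (nat_lit 0) (nat_lit 0)) T0.l3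
  TrL.n)) (by decide +kernel)
theorem bx0_4 : BoxOK sI cl4 cl4 cl5 t0 t2 b0_4 :=
  box_mk (TrL.c (I.pos (nat_lit 0) (nat_lit 0)) T0.l0
  (TrL.c (I.pos (nat_lit 0) (nat_lit 0)) T2.l1
  (TrL.c (I.pos (nat_lit 0) (nat_lit 0)) T0.l8
  (TrL.c (I.pos (nat_lit 0) (nat_lit 0)) T2.l2
  (TrL.c (I.pos (nat_lit 0) (nat_lit 0)) T0.l6
  (TrL.c (I.pos (nat_lit 0) (nat_lit 0)) T2.l3
  TrL.n)))))) (by decide +kernel)
theorem bx0_5 : BoxOK sI cl4 cl4 cl5 t0 t2 b0_5 :=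
  box_mk (TrL.c (I.pos (nat_lit 0) (nat_lit 0)) T0.l4
  (TrL.c (I.pos (nat_lit 0) (nat_lit 0)) T2.l4
  (TrL.c (I.pos (nat_lit 0) (nat_lit 0)) T0.l3
  (TrL.c (I.pos (nat_lit 0) (nat_lit 0)) T2.l2
  (TrL.c (I.pos (nat_lit 0) (nat_lit 0)) T0.l5
  (TrL.c (I.pos (nat_lit 0) (nat_lit 0)) T2.l3
  TrL.n)))))) (by decide +kernel)
theorem bx0_6 : BoxOK sI cl4 cl4 cl5 t0 t2 b0_6 :=
  box_mk (TrL.c (I.pos (nat_lit 0) (nat_lit 0)) (xa (xb T0.l9 T0.l9) T0.l9)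
  (TrL.c (I.pos (nat_lit 0) (nat_lit 0)) T2.l1
  (TrL.c (I.pos (nat_lit 0) (nat_lit 0)) T0.l1
  (TrL.c (I.pos (nat_lit 0) (nat_lit 0)) T2.l2
  (TrL.c (I.pos (nat_lit 0) (nat_lit 0)) T0.l10
  (TrL.c (I.pos (nat_lit 0) (nat_lit 0)) T2.l3
  TrL.n)))))) (by decide +kernel)
theorem bx0_7 : BoxOK sI cl4 cl4 cl5 t0 t2 b0_7 :=
  box_mk (TrL.c (I.pos (nat_lit 0) (nat_lit 0)) (xa (xb T0.l9 (xb T0.l9 T0.l9)) (xb T0.l9 (xa T0.l9 T0.l9)))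
  (TrL.c (I.pos (nat_lit 0) (nat_lit 0)) T2.l1
  (TrL.c (I.pos (nat_lit 0) (nat_lit 0)) T0.l1
  (TrL.c (I.pos (nat_lit 0) (nat_lit 0)) T2.l2
  (TrL.c (I.pos (nat_lit 0) (nat_lit 0)) T0.l10
  (TrL.c (I.pos (nat_lit 0) (nat_lit 0)) T2.l3
  TrL.n)))))) (by decide +kernel)
theorem bx0_8 : BoxOK sI cl4 cl4 cl5 t0 t2 b0_8 :=
  box_mk (TrL.c (I.pos (nat_lit 0) (nat_lit 0)) T2.l1
  (TrL.c (I.pos (nat_lit 0) (nat_lit 0)) T0.l1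
  TrL.n)) (by decide +kernel)
theorem bx0_9 : BoxOK sI cl4 cl4 cl5 t0 t2 b0_9 :=
  box_mk (TrL.c (I.pos (nat_lit 0) (nat_lit 0)) (xa (xb T0.l0 (xb T0.l0 T0.l0)) (xb T0.l0 (xs T0.l0 (xb T0.l0 T0.l0))))
  (TrL.c (I.pos (nat_lit 0) (nat_lit 0)) (xb T2.l1 T2.l1)
  (TrL.c (I.pos (nat_lit 0) (nat_lit 0)) (xs T0.l1 (xb T0.l1 T0.l1))
  (TrL.c (I.pos (nat_lit 0) (nat_lit 0)) (xb (xa T2.l2 T2.l2) (xa T2.l2 T2.l2))
  (TrL.c (I.pos (nat_lit 0) (nat_lit 0)) (xs T0.l2 (xb T0.l6 T0.l2))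
  (TrL.c (I.pos (nat_lit 0) (nat_lit 0)) (xb T2.l3 T2.l3)
  TrL.n)))))) (by decide +kernel)
theorem bx0_10 : BoxOK sI cl4 cl4 cl5 t0 t2 b0_10 :=
  box_mk (TrL.c (I.pos (nat_lit 0) (nat_lit 0)) (xb T0.l4 T0.l4)
  (TrL.c (I.pos (nat_lit 0) (nat_lit 0)) T2.l1
  (TrL.c (I.pos (nat_lit 0) (nat_lit 0)) T0.l1
  (TrL.c (I.pos (nat_lit 0) (nat_lit 0)) T2.l2
  (TrL.c (I.pos (nat_lit 0) (nat_lit 0)) T0.l5
  (TrL.c (I.pos (nat_lit 0) (nat_lit 0)) T2.l3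
  TrL.n)))))) (by decide +kernel)
theorem bx0_11 : BoxOK sI cl4 cl4 cl5 t0 t2 b0_11 :=
  box_mk (TrL.c (I.pos (nat_lit 0) (nat_lit 0)) T0.l9
  (TrL.c (I.pos (nat_lit 0) (nat_lit 0)) T2.l1
  (TrL.c (I.pos (nat_lit 0) (nat_lit 0)) T0.l1
  (TrL.c (I.pos (nat_lit 0) (nat_lit 0)) T2.l2
  (TrL.c (I.pos (nat_lit 0) (nat_lit 0)) T0.l10
  (TrL.c (I.pos (nat_lit 0) (nat_lit 0)) T2.l3
  TrL.n)))))) (by decide +kernel)
theorem sv0 : StarV sI cl4 cl4 cl5 t0 t2 t0 :=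
  (bt_n (bt_n (bt_n (bt_b bx0_0) (bt_n (bt_b bx0_1) (bt_b bx0_2))) (bt_n (bt_b bx0_3) (bt_n (bt_b bx0_4) (bt_b bx0_5)))) (bt_n (bt_n (bt_b bx0_6) (bt_n (bt_b bx0_7) (bt_b bx0_8))) (bt_n (bt_b bx0_9) (bt_n (bt_b bx0_10) (bt_b bx0_11)))))
def S0 : StarD := StarD.mk cl4 cl4 cl5 0 2 t0
theorem bx1_0 : BoxOK sI cl4 cl5 cl4 t2 t0 b1_0 :=
  box_mk (TrL.c (I.pos (nat_lit 0) (nat_lit 0)) (xa (xb T2.l0 T2.l0) (xb T2.l0 T2.l0))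
  (TrL.c (I.pos (nat_lit 0) (nat_lit 0)) (xa T0.l6 T0.l6)
  (TrL.c (I.pos (nat_lit 0) (nat_lit 0)) T2.l5
  (TrL.c (I.pos (nat_lit 0) (nat_lit 0)) (xa T0.l7 T0.l7)
  (TrL.c (I.pos (nat_lit 0) (nat_lit 0)) T2.l6
  (TrL.c (I.pos (nat_lit 0) (nat_lit 0)) (xa T0.l8 T0.l8)
  TrL.n)))))) (by decide +kernel)
theorem bx1_1 : BoxOK sI cl4 cl5 cl4 t2 t0 b1_1 :=
  box_mk (TrL.c (I.pos (nat_lit 0) (nat_lit 0)) T2.l7
  (TrL.c (I.pos (nat_lit 0) (nat_lit 0)) T0.l6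
  (TrL.c (I.pos (nat_lit 0) (nat_lit 0)) T2.l5
  (TrL.c (I.pos (nat_lit 0) (nat_lit 0)) T0.l7
  (TrL.c (I.pos (nat_lit 0) (nat_lit 0)) T2.l8
  (TrL.c (I.pos (nat_lit 0) (nat_lit 0)) T0.l8
  TrL.n)))))) (by decide +kernel)
theorem bx1_2 : BoxOK sI cl4 cl5 cl4 t2 t0 b1_2 :=
  box_mk (TrL.c (I.pos (nat_lit 0) (nat_lit 0)) T2.l7
  (TrL.c (I.pos (nat_lit 0) (nat_lit 0)) T0.l6
  (TrL.c (I.pos (nat_lit 0) (nat_lit 0)) T2.l5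
  (TrL.c (I.pos (nat_lit 0) (nat_lit 0)) T0.l7
  (TrL.c (I.pos (nat_lit 0) (nat_lit 0)) T2.l8
  (TrL.c (I.pos (nat_lit 0) (nat_lit 0)) T0.l8
  TrL.n)))))) (by decide +kernel)
theorem bx1_3 : BoxOK sI cl4 cl5 cl4 t2 t0 b1_3 :=
  box_mk (TrL.c (I.pos (nat_lit 0) (nat_lit 0)) T0.l6
  (TrL.c (I.pos (nat_lit 0) (nat_lit 0)) T2.l5
  TrL.n)) (by decide +kernel)
theorem bx1_4 : BoxOK sI cl4 cl5 cl4 t2 t0 b1_4 :=
  box_mk (TrL.c (I.pos (nat_lit 0) (nat_lit 0)) (xa T2.l10 T2.l10)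
  (TrL.c (I.pos (nat_lit 0) (nat_lit 0)) T0.l6
  (TrL.c (I.pos (nat_lit 0) (nat_lit 0)) T2.l5
  (TrL.c (I.pos (nat_lit 0) (nat_lit 0)) T0.l7
  (TrL.c (I.pos (nat_lit 0) (nat_lit 0)) T2.l6
  (TrL.c (I.pos (nat_lit 0) (nat_lit 0)) T0.l8
  TrL.n)))))) (by decide +kernel)
theorem bx1_5 : BoxOK sI cl4 cl5 cl4 t2 t0 b1_5 :=
  box_mk (TrL.c (I.pos (nat_lit 0) (nat_lit 0)) T2.l7
  (TrL.c (I.pos (nat_lit 0) (nat_lit 0)) T0.l6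
  (TrL.c (I.pos (nat_lit 0) (nat_lit 0)) T2.l5
  (TrL.c (I.pos (nat_lit 0) (nat_lit 0)) T0.l7
  (TrL.c (I.pos (nat_lit 0) (nat_lit 0)) T2.l8
  (TrL.c (I.pos (nat_lit 0) (nat_lit 0)) T0.l8
  TrL.n)))))) (by decide +kernel)
theorem bx1_6 : BoxOK sI cl4 cl5 cl4 t2 t0 b1_6 :=
  box_mk (TrL.c (I.pos (nat_lit 0) (nat_lit 0)) T2.l7
  (TrL.c (I.pos (nat_lit 0) (nat_lit 0)) T0.l6
  (TrL.c (I.pos (nat_lit 0) (nat_lit 0)) T2.l5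
  (TrL.c (I.pos (nat_lit 0) (nat_lit 0)) T0.l7
  (TrL.c (I.pos (nat_lit 0) (nat_lit 0)) T2.l8
  (TrL.c (I.pos (nat_lit 0) (nat_lit 0)) T0.l8
  TrL.n)))))) (by decide +kernel)
theorem bx1_7 : BoxOK sI cl4 cl5 cl4 t2 t0 b1_7 :=
  box_mk (TrL.c (I.pos (nat_lit 0) (nat_lit 0)) T0.l6
  (TrL.c (I.pos (nat_lit 0) (nat_lit 0)) T2.l5
  TrL.n)) (by decide +kernel)
theorem bx1_8 : BoxOK sI cl4 cl5 cl4 t2 t0 b1_8 :=
  box_mk (TrL.c (I.pos (nat_lit 0) (nat_lit 0)) (xa (xb T2.l0 T2.l0) (xb T2.l0 T2.l0))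
  (TrL.c (I.pos (nat_lit 0) (nat_lit 0)) (xa T0.l6 T0.l6)
  (TrL.c (I.pos (nat_lit 0) (nat_lit 0)) T2.l5
  (TrL.c (I.pos (nat_lit 0) (nat_lit 0)) (xa T0.l7 (xb T0.l7 T0.l7))
  (TrL.c (I.pos (nat_lit 0) (nat_lit 0)) T2.l6
  (TrL.c (I.pos (nat_lit 0) (nat_lit 0)) (xa T0.l8 T0.l8)
  TrL.n)))))) (by decide +kernel)
theorem bx1_9 : BoxOK sI cl4 cl5 cl4 t2 t0 b1_9 :=
  box_mk (TrL.c (I.pos (nat_lit 0) (nat_lit 0)) (xb T2.l10 T2.l10)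
  (TrL.c (I.pos (nat_lit 0) (nat_lit 0)) T0.l6
  (TrL.c (I.pos (nat_lit 0) (nat_lit 0)) T2.l5
  (TrL.c (I.pos (nat_lit 0) (nat_lit 0)) T0.l7
  (TrL.c (I.pos (nat_lit 0) (nat_lit 0)) T2.l11
  (TrL.c (I.pos (nat_lit 0) (nat_lit 0)) T0.l8
  TrL.n)))))) (by decide +kernel)
theorem bx1_10 : BoxOK sI cl4 cl5 cl4 t2 t0 b1_10 :=
  box_mk (TrL.c (I.pos (nat_lit 0) (nat_lit 0)) T2.l7
  (TrL.c (I.pos (nat_lit 0) (nat_lit 0)) T0.l6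
  (TrL.c (I.pos (nat_lit 0) (nat_lit 0)) T2.l5
  (TrL.c (I.pos (nat_lit 0) (nat_lit 0)) T0.l7
  (TrL.c (I.pos (nat_lit 0) (nat_lit 0)) T2.l8
  (TrL.c (I.pos (nat_lit 0) (nat_lit 0)) T0.l8
  TrL.n)))))) (by decide +kernel)
theorem bx1_11 : BoxOK sI cl4 cl5 cl4 t2 t0 b1_11 :=
  box_mk (TrL.c (I.pos (nat_lit 0) (nat_lit 0)) T2.l7
  (TrL.c (I.pos (nat_lit 0) (nat_lit 0)) T0.l6
  (TrL.c (I.pos (nat_lit 0) (nat_lit 0)) T2.l5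
  (TrL.c (I.pos (nat_lit 0) (nat_lit 0)) T0.l7
  (TrL.c (I.pos (nat_lit 0) (nat_lit 0)) T2.l8
  (TrL.c (I.pos (nat_lit 0) (nat_lit 0)) T0.l8
  TrL.n)))))) (by decide +kernel)
theorem bx1_12 : BoxOK sI cl4 cl5 cl4 t2 t0 b1_12 :=
  box_mk (TrL.c (I.pos (nat_lit 0) (nat_lit 0)) T2.l0
  (TrL.c (I.pos (nat_lit 0) (nat_lit 0)) T0.l6
  (TrL.c (I.pos (nat_lit 0) (nat_lit 0)) T2.l3
  (TrL.c (I.pos (nat_lit 0) (nat_lit 0)) T0.l0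
  (TrL.c (I.pos (nat_lit 0) (nat_lit 0)) T2.l1
  (TrL.c (I.pos (nat_lit 0) (nat_lit 0)) T0.l8
  TrL.n)))))) (by decide +kernel)
theorem bx1_13 : BoxOK sI cl4 cl5 cl4 t2 t0 b1_13 :=
  box_mk (TrL.c (I.pos (nat_lit 0) (nat_lit 0)) T2.l10
  (TrL.c (I.pos (nat_lit 0) (nat_lit 0)) T0.l6
  (TrL.c (I.pos (nat_lit 0) (nat_lit 0)) T2.l5
  (TrL.c (I.pos (nat_lit 0) (nat_lit 0)) T0.l7
  (TrL.c (I.pos (nat_lit 0) (nat_lit 0)) T2.l11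
  (TrL.c (I.pos (nat_lit 0) (nat_lit 0)) T0.l8
  TrL.n)))))) (by decide +kernel)
theorem bx1_14 : BoxOK sI cl4 cl5 cl4 t2 t0 b1_14 :=
  box_mk (TrL.c (I.pos (nat_lit 0) (nat_lit 0)) T0.l11
  (TrL.c (I.pos (nat_lit 0) (nat_lit 0)) T2.l5
  TrL.n)) (by decide +kernel)
theorem sv1 : StarV sI cl4 cl5 cl4 t2 t0 t1 :=
  (bt_n (bt_n (bt_n (bt_b bx1_0) (bt_n (bt_b bx1_1) (bt_b bx1_2))) (bt_n (bt_n (bt_b bx1_3) (bt_b bx1_4)) (bt_n (bt_b bx1_5) (bt_b bx1_6)))) (bt_n (bt_n (bt_n (bt_b bx1_7) (bt_b bx1_8)) (bt_n (bt_b bx1_9) (bt_b bx1_10))) (bt_n (bt_n (bt_b bx1_11) (bt_b bx1_12)) (bt_n (bt_b bx1_13) (bt_b bx1_14)))))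
def S1 : StarD := StarD.mk cl4 cl5 cl4 2 0 t1
theorem bx2_0 : BoxOK sI cl5 cl4 cl4 t1 t1 b2_0 :=
  box_mk (TrL.c (I.pos (nat_lit 0) (nat_lit 0)) (xa T1.l0 T1.l0)
  (TrL.c (I.pos (nat_lit 0) (nat_lit 0)) T1.l1
  (TrL.c (I.pos (nat_lit 0) (nat_lit 0)) T1.l2
  (TrL.c (I.pos (nat_lit 0) (nat_lit 0)) T1.l3
  (TrL.c (I.pos (nat_lit 0) (nat_lit 0)) T1.l4
  (TrL.c (I.pos (nat_lit 0) (nat_lit 0)) T1.l5
  (TrL.c (I.pos (nat_lit 0) (nat_lit 0)) T1.l6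
  (TrL.c (I.pos (nat_lit 0) (nat_lit 0)) T1.l7
  TrL.n)))))))) (by decide +kernel)
theorem bx2_1 : BoxOK sI cl5 cl4 cl4 t1 t1 b2_1 :=
  box_mk (TrL.c (I.pos (nat_lit 0) (nat_lit 0)) (xa T1.l8 T1.l8)
  (TrL.c (I.pos (nat_lit 0) (nat_lit 0)) T1.l1
  (TrL.c (I.pos (nat_lit 0) (nat_lit 0)) T1.l2
  (TrL.c (I.pos (nat_lit 0) (nat_lit 0)) T1.l3
  (TrL.c (I.pos (nat_lit 0) (nat_lit 0)) T1.l9
  (TrL.c (I.pos (nat_lit 0) (nat_lit 0)) T1.l5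
  (TrL.c (I.pos (nat_lit 0) (nat_lit 0)) T1.l6
  (TrL.c (I.pos (nat_lit 0) (nat_lit 0)) T1.l7
  TrL.n)))))))) (by decide +kernel)
theorem bx2_2 : BoxOK sI cl5 cl4 cl4 t1 t1 b2_2 :=
  box_mk (TrL.c (I.pos (nat_lit 0) (nat_lit 0)) (xb T1.l8 (xa T1.l8 T1.l8))
  (TrL.c (I.pos (nat_lit 0) (nat_lit 0)) T1.l1
  (TrL.c (I.pos (nat_lit 0) (nat_lit 0)) T1.l2
  (TrL.c (I.pos (nat_lit 0) (nat_lit 0)) T1.l3
  (TrL.c (I.pos (nat_lit 0) (nat_lit 0)) T1.l9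
  (TrL.c (I.pos (nat_lit 0) (nat_lit 0)) T1.l5
  (TrL.c (I.pos (nat_lit 0) (nat_lit 0)) T1.l6
  (TrL.c (I.pos (nat_lit 0) (nat_lit 0)) T1.l7
  TrL.n)))))))) (by decide +kernel)
theorem bx2_3 : BoxOK sI cl5 cl4 cl4 t1 t1 b2_3 :=
  box_mk (TrL.c (I.pos (nat_lit 0) (nat_lit 0)) T1.l1
  (TrL.c (I.pos (nat_lit 0) (nat_lit 0)) T1.l2
  (TrL.c (I.pos (nat_lit 0) (nat_lit 0)) T1.l3
  TrL.n))) (by decide +kernel)
theorem bx2_4 : BoxOK sI cl5 cl4 cl4 t1 t1 b2_4 :=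
  box_mk (TrL.c (I.pos (nat_lit 0) (nat_lit 0)) T1.l8
  (TrL.c (I.pos (nat_lit 0) (nat_lit 0)) T1.l1
  (TrL.c (I.pos (nat_lit 0) (nat_lit 0)) T1.l2
  (TrL.c (I.pos (nat_lit 0) (nat_lit 0)) T1.l3
  (TrL.c (I.pos (nat_lit 0) (nat_lit 0)) T1.l9
  (TrL.c (I.pos (nat_lit 0) (nat_lit 0)) T1.l5
  (TrL.c (I.pos (nat_lit 0) (nat_lit 0)) T1.l6
  (TrL.c (I.pos (nat_lit 0) (nat_lit 0)) T1.l7
  TrL.n)))))))) (by decide +kernel)
theorem bx2_5 : BoxOK sI cl5 cl4 cl4 t1 t1 b2_5 :=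
  box_mk (TrL.c (I.pos (nat_lit 0) (nat_lit 0)) T1.l10
  (TrL.c (I.pos (nat_lit 0) (nat_lit 0)) T1.l11
  (TrL.c (I.pos (nat_lit 0) (nat_lit 0)) T1.l14
  TrL.n))) (by decide +kernel)
theorem bx2_6 : BoxOK sI cl5 cl4 cl4 t1 t1 b2_6 :=
  box_mk (TrL.c (I.pos (nat_lit 0) (nat_lit 0)) T1.l12
  (TrL.c (I.pos (nat_lit 0) (nat_lit 0)) T1.l10
  (TrL.c (I.pos (nat_lit 0) (nat_lit 0)) T1.l11
  (TrL.c (I.pos (nat_lit 0) (nat_lit 0)) T1.l14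
  (TrL.c (I.pos (nat_lit 0) (nat_lit 0)) T1.l13
  (TrL.c (I.pos (nat_lit 0) (nat_lit 0)) T1.l5
  (TrL.c (I.pos (nat_lit 0) (nat_lit 0)) T1.l6
  (TrL.c (I.pos (nat_lit 0) (nat_lit 0)) T1.l7
  TrL.n)))))))) (by decide +kernel)
theorem bx2_7 : BoxOK sI cl5 cl4 cl4 t1 t1 b2_7 :=
  box_mk (TrL.c (I.pos (nat_lit 0) (nat_lit 0)) T1.l0
  (TrL.c (I.pos (nat_lit 0) (nat_lit 0)) T1.l1
  (TrL.c (I.pos (nat_lit 0) (nat_lit 0)) T1.l2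
  (TrL.c (I.pos (nat_lit 0) (nat_lit 0)) T1.l3
  (TrL.c (I.pos (nat_lit 0) (nat_lit 0)) T1.l4
  (TrL.c (I.pos (nat_lit 0) (nat_lit 0)) T1.l5
  (TrL.c (I.pos (nat_lit 0) (nat_lit 0)) T1.l6
  (TrL.c (I.pos (nat_lit 0) (nat_lit 0)) T1.l7
  TrL.n)))))))) (by decide +kernel)
theorem bx2_8 : BoxOK sI cl5 cl4 cl4 t1 t1 b2_8 :=
  box_mk (TrL.c (I.pos (nat_lit 0) (nat_lit 0)) T1.l12
  (TrL.c (I.pos (nat_lit 0) (nat_lit 0)) T1.l10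
  (TrL.c (I.pos (nat_lit 0) (nat_lit 0)) T1.l11
  (TrL.c (I.pos (nat_lit 0) (nat_lit 0)) T1.l3
  (TrL.c (I.pos (nat_lit 0) (nat_lit 0)) T1.l13
  (TrL.c (I.pos (nat_lit 0) (nat_lit 0)) T1.l5
  (TrL.c (I.pos (nat_lit 0) (nat_lit 0)) T1.l6
  (TrL.c (I.pos (nat_lit 0) (nat_lit 0)) T1.l7
  TrL.n)))))))) (by decide +kernel)
theorem bx2_9 : BoxOK sI cl5 cl4 cl4 t1 t1 b2_9 :=
  box_mk (TrL.c (I.pos (nat_lit 0) (nat_lit 0)) T1.l10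
  (TrL.c (I.pos (nat_lit 0) (nat_lit 0)) T1.l11
  (TrL.c (I.pos (nat_lit 0) (nat_lit 0)) T1.l14
  TrL.n))) (by decide +kernel)
theorem bx2_10 : BoxOK sI cl5 cl4 cl4 t1 t1 b2_10 :=
  box_mk (TrL.c (I.pos (nat_lit 0) (nat_lit 0)) T1.l0
  (TrL.c (I.pos (nat_lit 0) (nat_lit 0)) T1.l1
  (TrL.c (I.pos (nat_lit 0) (nat_lit 0)) T1.l2
  (TrL.c (I.pos (nat_lit 0) (nat_lit 0)) T1.l3
  (TrL.c (I.pos (nat_lit 0) (nat_lit 0)) T1.l4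
  (TrL.c (I.pos (nat_lit 0) (nat_lit 0)) T1.l5
  (TrL.c (I.pos (nat_lit 0) (nat_lit 0)) T1.l6
  (TrL.c (I.pos (nat_lit 0) (nat_lit 0)) T1.l7
  TrL.n)))))))) (by decide +kernel)
theorem bx2_11 : BoxOK sI cl5 cl4 cl4 t1 t1 b2_11 :=
  box_mk (TrL.c (I.pos (nat_lit 0) (nat_lit 0)) T1.l12
  (TrL.c (I.pos (nat_lit 0) (nat_lit 0)) T1.l10
  (TrL.c (I.pos (nat_lit 0) (nat_lit 0)) T1.l11
  (TrL.c (I.pos (nat_lit 0) (nat_lit 0)) T1.l3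
  (TrL.c (I.pos (nat_lit 0) (nat_lit 0)) T1.l13
  (TrL.c (I.pos (nat_lit 0) (nat_lit 0)) T1.l5
  (TrL.c (I.pos (nat_lit 0) (nat_lit 0)) T1.l6
  (TrL.c (I.pos (nat_lit 0) (nat_lit 0)) T1.l7
  TrL.n)))))))) (by decide +kernel)
theorem sv2 : StarV sI cl5 cl4 cl4 t1 t1 t2 :=
  (bt_n (bt_n (bt_n (bt_b bx2_0) (bt_n (bt_b bx2_1) (bt_b bx2_2))) (bt_n (bt_b bx2_3) (bt_n (bt_b bx2_4) (bt_b bx2_5)))) (bt_n (bt_n (bt_b bx2_6) (bt_n (bt_b bx2_7) (bt_b bx2_8))) (bt_n (bt_b bx2_9) (bt_n (bt_b bx2_10) (bt_b bx2_11)))))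
def S2 : StarD := StarD.mk cl5 cl4 cl4 1 1 t2
def G : List StarD := [S0, S1, S2]
theorem so0 : StarOK sI G S0 :=
  star_mk (by decide) (by decide) rfl rfl rfl rfl rfl rfl (rfl : _ = t0) (rfl : _ = t2)
  (st_mk (Pth.l (Pth.l (Pth.l Pth.z))) (nat_lit 385229225) (nat_lit 393234383) (by decide +kernel))
  (st_mk (Pth.l (Pth.l (Pth.l Pth.z))) (nat_lit 424439592) (nat_lit 434322512) (by decide +kernel))
  (st_mk (Pth.l (Pth.l (Pth.l Pth.z))) (nat_lit 470277509) (nat_lit 482658605) (by decide +kernel)) sv0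
theorem so1 : StarOK sI G S1 :=
  star_mk (by decide) (by decide) rfl rfl rfl rfl rfl rfl (rfl : _ = t2) (rfl : _ = t0)
  (st_mk (Pth.l (Pth.l (Pth.l Pth.z))) (nat_lit 249967004) (nat_lit 254506908) (by decide +kernel))
  (st_mk (Pth.l (Pth.l (Pth.l Pth.z))) (nat_lit 288755864) (nat_lit 294950340) (by decide +kernel))
  (st_mk (Pth.l (Pth.l (Pth.l Pth.z))) (nat_lit 334307648) (nat_lit 342839583) (by decide +kernel)) sv1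
theorem so2 : StarOK sI G S2 :=
  star_mk (by decide) (by decide) rfl rfl rfl rfl rfl rfl (rfl : _ = t1) (rfl : _ = t1)
  (st_mk (Pth.l (Pth.l (Pth.l Pth.z))) (nat_lit 379202845) (nat_lit 384563515) (by decide +kernel))
  (st_mk (Pth.l (Pth.l (Pth.l Pth.z))) (nat_lit 417063569) (nat_lit 423619035) (by decide +kernel))
  (st_mk (Pth.l (Pth.l (Pth.l Pth.z))) (nat_lit 461134186) (nat_lit 469253007) (by decide +kernel)) sv2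
theorem ok : GroupOK (nat_lit 0) (nat_lit 91291648) G := grp_mk (allS_c so0 (allS_c so1 (allS_c so2 allS_n)))
theorem cov : GCov G cl4 cl4 cl5 := cov_mk
  ⟨0, by decide, rfl, rfl, rfl⟩ ⟨1, by decide, rfl, rfl, rfl⟩ ⟨0, by decide, rfl, rfl, rfl⟩ ⟨1, by decide, rfl, rfl, rfl⟩ ⟨2, by decide, rfl, rfl, rfl⟩ ⟨2, by decide, rfl, rfl, rfl⟩
end Q112_0

namespace Q112_1
def sI : I := I.pos (nat_lit 91226112) (nat_lit 150339584)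
def b0_0 : Bx := Bx.mk (St.mk (I.pos (nat_lit 135987200) (nat_lit 215302144)) (I.mix (nat_lit 278528) (nat_lit 103120896)) (I.mix (nat_lit 11649024) (nat_lit 85737472)) (I.pos (nat_lit 392167424) (nat_lit 492257280)) (I.mix (nat_lit 194297856) (nat_lit 123797504)) (I.mix (nat_lit 139509760) (nat_lit 127303680)) (I.mix (nat_lit 200261632) (nat_lit 191545344)))
  false (nat_lit 0)
def b0_1 : Bx := Bx.mk (St.mk (I.mix (nat_lit 54444032) (nat_lit 2965504)) (I.mix (nat_lit 17154048) (nat_lit 92078080)) (I.neg (nat_lit 59883520) (nat_lit 85753856)) (I.pos (nat_lit 272809984) (nat_lit 301203456)) (I.mix (nat_lit 81231872) (nat_lit 149176320)) (I.mix (nat_lit 127893504) (nat_lit 108576768)) (I.mix (nat_lit 69222400) (nat_lit 53805056)))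
  true (nat_lit 0)
def b0_2 : Bx := Bx.mk (St.mk (I.pos (nat_lit 6144000) (nat_lit 54444032)) (I.neg (nat_lit 26443776) (nat_lit 92078080)) (I.neg (nat_lit 59883520) (nat_lit 85753856)) (I.pos (nat_lit 275349504) (nat_lit 301203456)) (I.mix (nat_lit 149159936) (nat_lit 81248256)) (I.mix (nat_lit 108576768) (nat_lit 127746048)) (I.mix (nat_lit 69222400) (nat_lit 53805056)))
  false (nat_lit 0)
def b0_3 : Bx := Bx.mk (St.mk (I.mix (nat_lit 23969792) (nat_lit 4784128)) (I.mix (nat_lit 22642688) (nat_lit 22282240)) (I.neg (nat_lit 62423040) (nat_lit 68386816)) (I.pos (nat_lit 273317888) (nat_lit 282640384)) (I.mix (nat_lit 74121216) (nat_lit 64159744)) (I.mix (nat_lit 68009984) (nat_lit 59867136)) (I.mix (nat_lit 10354688) (nat_lit 13926400)))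
  true (nat_lit 0)
def b0_4 : Bx := Bx.mk (St.mk (I.pos (nat_lit 194445312) (nat_lit 250576896)) (I.mix (nat_lit 29229056) (nat_lit 29016064)) (I.neg (nat_lit 70418432) (nat_lit 171687936)) (I.pos (nat_lit 446365696) (nat_lit 542720000)) (I.mix (nat_lit 171343872) (nat_lit 94453760)) (I.mix (nat_lit 129122304) (nat_lit 127320064)) (I.mix (nat_lit 228753408) (nat_lit 255459328)))
  false (nat_lit 0)
def b0_5 : Bx := Bx.mk (St.mk (I.mix (nat_lit 4079616) (nat_lit 23724032)) (I.mix (nat_lit 17678336) (nat_lit 18644992)) (I.neg (nat_lit 62504960) (nat_lit 68337664)) (I.pos (nat_lit 273334272) (nat_lit 282607616)) (I.mix (nat_lit 59162624) (nat_lit 72384512)) (I.mix (nat_lit 58523648) (nat_lit 63717376)) (I.mix (nat_lit 10338304) (nat_lit 13778944)))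
  false (nat_lit 0)
def b0_6 : Bx := Bx.mk (St.mk (I.pos (nat_lit 18661376) (nat_lit 111198208)) (I.neg (nat_lit 8683520) (nat_lit 90750976)) (I.neg (nat_lit 25657344) (nat_lit 97140736)) (I.pos (nat_lit 275955712) (nat_lit 335003648)) (I.mix (nat_lit 149520384) (nat_lit 82624512)) (I.mix (nat_lit 102203392) (nat_lit 115130368)) (I.mix (nat_lit 119914496) (nat_lit 98336768)))
  false (nat_lit 0)
def b0_7 : Bx := Bx.mk (St.mk (I.pos (nat_lit 94732288) (nat_lit 185450496)) (I.mix (nat_lit 32915456) (nat_lit 91291648)) (I.mix (nat_lit 51200000) (nat_lit 77594624)) (I.pos (nat_lit 319471616) (nat_lit 438566912)) (I.mix (nat_lit 197263360) (nat_lit 109772800)) (I.mix (nat_lit 192970752) (nat_lit 161120256)) (I.mix (nat_lit 204783616) (nat_lit 188940288)))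
  false (nat_lit 0)
def b0_8 : Bx := Bx.mk (St.mk (I.neg (nat_lit 18644992) (nat_lit 110919680)) (I.pos (nat_lit 8683520) (nat_lit 90750976)) (I.neg (nat_lit 25657344) (nat_lit 97140736)) (I.pos (nat_lit 275955712) (nat_lit 334839808)) (I.mix (nat_lit 82624512) (nat_lit 149536768)) (I.mix (nat_lit 115130368) (nat_lit 102219776)) (I.mix (nat_lit 119914496) (nat_lit 98353152)))
  true (nat_lit 0)
def b0_9 : Bx := Bx.mk (St.mk (I.pos (nat_lit 160382976) (nat_lit 239828992)) (I.mix (nat_lit 25067520) (nat_lit 98172928)) (I.mix (nat_lit 158318592) (nat_lit 63012864)) (I.pos (nat_lit 415678464) (nat_lit 515702784)) (I.mix (nat_lit 168132608) (nat_lit 143212544)) (I.mix (nat_lit 156860416) (nat_lit 142819328)) (I.mix (nat_lit 280051712) (nat_lit 233652224)))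
  false (nat_lit 0)
def b0_10 : Bx := Bx.mk (St.mk (I.mix (nat_lit 229376) (nat_lit 41254912)) (I.mix (nat_lit 71876608) (nat_lit 17219584)) (I.neg (nat_lit 61800448) (nat_lit 82034688)) (I.pos (nat_lit 272809984) (nat_lit 292323328)) (I.mix (nat_lit 138084352) (nat_lit 75939840)) (I.mix (nat_lit 86360064) (nat_lit 127909888)) (I.mix (nat_lit 48168960) (nat_lit 35536896)))
  false (nat_lit 0)
def b0_11 : Bx := Bx.mk (St.mk (I.pos (nat_lit 88932352) (nat_lit 109248512)) (I.neg (nat_lit 18317312) (nat_lit 43827200)) (I.neg (nat_lit 29409280) (nat_lit 51986432)) (I.pos (nat_lit 314327040) (nat_lit 333266944)) (I.mix (nat_lit 33947648) (nat_lit 24035328)) (I.mix (nat_lit 17301504) (nat_lit 20905984)) (I.mix (nat_lit 18448384) (nat_lit 16302080)))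
  false (nat_lit 0)
def t0 : BTr := (BTr.n (BTr.n (BTr.n (BTr.b b0_0) (BTr.n (BTr.b b0_1) (BTr.b b0_2))) (BTr.n (BTr.b b0_3) (BTr.n (BTr.b b0_4) (BTr.b b0_5)))) (BTr.n (BTr.n (BTr.b b0_6) (BTr.n (BTr.b b0_7) (BTr.b b0_8))) (BTr.n (BTr.b b0_9) (BTr.n (BTr.b b0_10) (BTr.b b0_11)))))
namespace T0
def l0 : Tr := Tr.L (Pth.l (Pth.l (Pth.l Pth.z)))
def l1 : Tr := Tr.L (Pth.l (Pth.l (Pth.r (Pth.l Pth.z))))
def l2 : Tr := Tr.L (Pth.l (Pth.l (Pth.r (Pth.r Pth.z))))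
def l3 : Tr := Tr.L (Pth.l (Pth.r (Pth.l Pth.z)))
def l4 : Tr := Tr.L (Pth.l (Pth.r (Pth.r (Pth.l Pth.z))))
def l5 : Tr := Tr.L (Pth.l (Pth.r (Pth.r (Pth.r Pth.z))))
def l6 : Tr := Tr.L (Pth.r (Pth.l (Pth.l Pth.z)))
def l7 : Tr := Tr.L (Pth.r (Pth.l (Pth.r (Pth.l Pth.z))))
def l8 : Tr := Tr.L (Pth.r (Pth.l (Pth.r (Pth.r Pth.z))))
def l9 : Tr := Tr.L (Pth.r (Pth.r (Pth.l Pth.z)))
def l10 : Tr := Tr.L (Pth.r (Pth.r (Pth.r (Pth.l Pth.z))))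
def l11 : Tr := Tr.L (Pth.r (Pth.r (Pth.r (Pth.r Pth.z))))
end T0
def b1_0 : Bx := Bx.mk (St.mk (I.pos (nat_lit 152977408) (nat_lit 219447296)) (I.mix (nat_lit 278528) (nat_lit 73089024)) (I.mix (nat_lit 278528) (nat_lit 102711296)) (I.pos (nat_lit 253673472) (nat_lit 349683712)) (I.mix (nat_lit 150110208) (nat_lit 97501184)) (I.mix (nat_lit 103153664) (nat_lit 96632832)) (I.mix (nat_lit 161120256) (nat_lit 142344192)))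
  false (nat_lit 0)
def b1_1 : Bx := Bx.mk (St.mk (I.pos (nat_lit 70860800) (nat_lit 129957888)) (I.neg (nat_lit 1130496) (nat_lit 70500352)) (I.mix (nat_lit 60948480) (nat_lit 1212416)) (I.pos (nat_lit 171655168) (nat_lit 216088576)) (I.mix (nat_lit 99631104) (nat_lit 84213760)) (I.mix (nat_lit 76906496) (nat_lit 100909056)) (I.mix (nat_lit 72990720) (nat_lit 93995008)))
  false (nat_lit 0)
def b1_2 : Bx := Bx.mk (St.mk (I.pos (nat_lit 20709376) (nat_lit 58261504)) (I.mix (nat_lit 10616832) (nat_lit 48693248)) (I.mix (nat_lit 22904832) (nat_lit 4538368)) (I.pos (nat_lit 147767296) (nat_lit 163512320)) (I.mix (nat_lit 59162624) (nat_lit 80052224)) (I.mix (nat_lit 77676544) (nat_lit 55017472)) (I.mix (nat_lit 45350912) (nat_lit 25608192)))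
  false (nat_lit 0)
def b1_3 : Bx := Bx.mk (St.mk (I.neg (nat_lit 3637248) (nat_lit 34881536)) (I.mix (nat_lit 40714240) (nat_lit 8667136)) (I.mix (nat_lit 2129920) (nat_lit 3375104)) (I.pos (nat_lit 146751488) (nat_lit 155893760)) (I.mix (nat_lit 44498944) (nat_lit 64880640)) (I.mix (nat_lit 41746432) (nat_lit 63176704)) (I.mix (nat_lit 6471680) (nat_lit 9273344)))
  true (nat_lit 0)
def b1_4 : Bx := Bx.mk (St.mk (I.pos (nat_lit 138690560) (nat_lit 188366848)) (I.mix (nat_lit 3440640) (nat_lit 61210624)) (I.pos (nat_lit 15810560) (nat_lit 87900160)) (I.pos (nat_lit 233504768) (nat_lit 296468480)) (I.mix (nat_lit 170573824) (nat_lit 50282496)) (I.mix (nat_lit 179486720) (nat_lit 88686592)) (I.mix (nat_lit 180731904) (nat_lit 102744064)))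
  false (nat_lit 0)
def b1_5 : Bx := Bx.mk (St.mk (I.pos (nat_lit 57999360) (nat_lit 99696640)) (I.mix (nat_lit 64978944) (nat_lit 12877824)) (I.neg (nat_lit 11796480) (nat_lit 54444032)) (I.pos (nat_lit 159596544) (nat_lit 189923328)) (I.mix (nat_lit 117833728) (nat_lit 59047936)) (I.mix (nat_lit 67633152) (nat_lit 119963648)) (I.mix (nat_lit 49397760) (nat_lit 67043328)))
  false (nat_lit 0)
def b1_6 : Bx := Bx.mk (St.mk (I.mix (nat_lit 1523712) (nat_lit 34881536)) (I.mix (nat_lit 9502720) (nat_lit 40714240)) (I.mix (nat_lit 2129920) (nat_lit 3375104)) (I.pos (nat_lit 146751488) (nat_lit 155893760)) (I.mix (nat_lit 64880640) (nat_lit 44498944)) (I.mix (nat_lit 63176704) (nat_lit 41746432)) (I.mix (nat_lit 6471680) (nat_lit 9273344)))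
  false (nat_lit 0)
def b1_7 : Bx := Bx.mk (St.mk (I.neg (nat_lit 20692992) (nat_lit 62668800)) (I.mix (nat_lit 48693248) (nat_lit 10600448)) (I.mix (nat_lit 22904832) (nat_lit 4538368)) (I.pos (nat_lit 147767296) (nat_lit 163676160)) (I.mix (nat_lit 80052224) (nat_lit 59162624)) (I.mix (nat_lit 55017472) (nat_lit 77676544)) (I.mix (nat_lit 45350912) (nat_lit 25608192)))
  true (nat_lit 0)
def b1_8 : Bx := Bx.mk (St.mk (I.pos (nat_lit 167788544) (nat_lit 236650496)) (I.mix (nat_lit 19922944) (nat_lit 73580544)) (I.mix (nat_lit 72794112) (nat_lit 98107392)) (I.pos (nat_lit 290045952) (nat_lit 377978880)) (I.mix (nat_lit 147767296) (nat_lit 127893504)) (I.mix (nat_lit 152141824) (nat_lit 124928000)) (I.mix (nat_lit 252837888) (nat_lit 196984832)))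
  false (nat_lit 0)
def b1_9 : Bx := Bx.mk (St.mk (I.pos (nat_lit 133545984) (nat_lit 176717824)) (I.mix (nat_lit 47005696) (nat_lit 37748736)) (I.mix (nat_lit 37584896) (nat_lit 61603840)) (I.pos (nat_lit 225738752) (nat_lit 274169856)) (I.mix (nat_lit 165265408) (nat_lit 83394560)) (I.mix (nat_lit 180764672) (nat_lit 102416384)) (I.mix (nat_lit 182468608) (nat_lit 110837760)))
  false (nat_lit 0)
def b1_10 : Bx := Bx.mk (St.mk (I.pos (nat_lit 95911936) (nat_lit 136790016)) (I.mix (nat_lit 43745280) (nat_lit 1359872)) (I.mix (nat_lit 33898496) (nat_lit 7618560)) (I.pos (nat_lit 189300736) (nat_lit 223494144)) (I.mix (nat_lit 96419840) (nat_lit 41615360)) (I.mix (nat_lit 52461568) (nat_lit 71352320)) (I.mix (nat_lit 51871744) (nat_lit 62832640)))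
  false (nat_lit 0)
def b1_11 : Bx := Bx.mk (St.mk (I.pos (nat_lit 36257792) (nat_lit 63143936)) (I.mix (nat_lit 15794176) (nat_lit 19300352)) (I.neg (nat_lit 7815168) (nat_lit 24657920)) (I.pos (nat_lit 150175744) (nat_lit 164364288)) (I.mix (nat_lit 59523072) (nat_lit 33521664)) (I.mix (nat_lit 43073536) (nat_lit 43778048)) (I.mix (nat_lit 24690688) (nat_lit 23674880)))
  false (nat_lit 0)
def b1_12 : Bx := Bx.mk (St.mk (I.mix (nat_lit 20004864) (nat_lit 1572864)) (I.mix (nat_lit 13320192) (nat_lit 12877824)) (I.mix (nat_lit 1523712) (nat_lit 1015808)) (I.pos (nat_lit 146620416) (nat_lit 150028288)) (I.mix (nat_lit 39534592) (nat_lit 25837568)) (I.mix (nat_lit 27033600) (nat_lit 31883264)) (I.mix (nat_lit 2686976) (nat_lit 1703936)))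
  true (nat_lit 0)
def b1_13 : Bx := Bx.mk (St.mk (I.pos (nat_lit 202506240) (nat_lit 246710272)) (I.mix (nat_lit 21725184) (nat_lit 17563648)) (I.neg (nat_lit 10420224) (nat_lit 79626240)) (I.pos (nat_lit 334036992) (nat_lit 403406848)) (I.mix (nat_lit 142688256) (nat_lit 43614208)) (I.mix (nat_lit 91947008) (nat_lit 92372992)) (I.mix (nat_lit 165658624) (nat_lit 181993472)))
  false (nat_lit 0)
def b1_14 : Bx := Bx.mk (St.mk (I.pos (nat_lit 127270912) (nat_lit 156139520)) (I.neg (nat_lit 12337152) (nat_lit 42860544)) (I.neg (nat_lit 3850240) (nat_lit 35373056)) (I.pos (nat_lit 216924160) (nat_lit 247087104)) (I.mix (nat_lit 65568768) (nat_lit 62144512)) (I.mix (nat_lit 71417856) (nat_lit 58441728)) (I.mix (nat_lit 77545472) (nat_lit 55803904)))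
  false (nat_lit 0)
def t1 : BTr := (BTr.n (BTr.n (BTr.n (BTr.b b1_0) (BTr.n (BTr.b b1_1) (BTr.b b1_2))) (BTr.n (BTr.n (BTr.b b1_3) (BTr.b b1_4)) (BTr.n (BTr.b b1_5) (BTr.b b1_6)))) (BTr.n (BTr.n (BTr.n (BTr.b b1_7) (BTr.b b1_8)) (BTr.n (BTr.b b1_9) (BTr.b b1_10))) (BTr.n (BTr.n (BTr.b b1_11) (BTr.b b1_12)) (BTr.n (BTr.b b1_13) (BTr.b b1_14)))))
namespace T1
def l0 : Tr := Tr.L (Pth.l (Pth.l (Pth.l Pth.z)))
def l1 : Tr := Tr.L (Pth.l (Pth.l (Pth.r (Pth.l Pth.z))))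
def l2 : Tr := Tr.L (Pth.l (Pth.l (Pth.r (Pth.r Pth.z))))
def l3 : Tr := Tr.L (Pth.l (Pth.r (Pth.l (Pth.l Pth.z))))
def l4 : Tr := Tr.L (Pth.l (Pth.r (Pth.l (Pth.r Pth.z))))
def l5 : Tr := Tr.L (Pth.l (Pth.r (Pth.r (Pth.l Pth.z))))
def l6 : Tr := Tr.L (Pth.l (Pth.r (Pth.r (Pth.r Pth.z))))
def l7 : Tr := Tr.L (Pth.r (Pth.l (Pth.l (Pth.l Pth.z))))
def l8 : Tr := Tr.L (Pth.r (Pth.l (Pth.l (Pth.r Pth.z))))
def l9 : Tr := Tr.L (Pth.r (Pth.l (Pth.r (Pth.l Pth.z))))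
def l10 : Tr := Tr.L (Pth.r (Pth.l (Pth.r (Pth.r Pth.z))))
def l11 : Tr := Tr.L (Pth.r (Pth.r (Pth.l (Pth.l Pth.z))))
def l12 : Tr := Tr.L (Pth.r (Pth.r (Pth.l (Pth.r Pth.z))))
def l13 : Tr := Tr.L (Pth.r (Pth.r (Pth.r (Pth.l Pth.z))))
def l14 : Tr := Tr.L (Pth.r (Pth.r (Pth.r (Pth.r Pth.z))))
end T1
def b2_0 : Bx := Bx.mk (St.mk (I.pos (nat_lit 124239872) (nat_lit 215302144)) (I.mix (nat_lit 278528) (nat_lit 91357184)) (I.mix (nat_lit 278528) (nat_lit 128516096)) (I.pos (nat_lit 372703232) (nat_lit 475643904)) (I.mix (nat_lit 210288640) (nat_lit 107855872)) (I.mix (nat_lit 145195008) (nat_lit 121044992)) (I.mix (nat_lit 170393600) (nat_lit 175407104)))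
  false (nat_lit 25642036)
def b2_1 : Bx := Bx.mk (St.mk (I.pos (nat_lit 30801920) (nat_lit 109412352)) (I.neg (nat_lit 1753088) (nat_lit 98189312)) (I.mix (nat_lit 61800448) (nat_lit 26345472)) (I.pos (nat_lit 282705920) (nat_lit 330678272)) (I.mix (nat_lit 131710976) (nat_lit 111067136)) (I.mix (nat_lit 112656384) (nat_lit 112099328)) (I.mix (nat_lit 116572160) (nat_lit 102727680)))
  false (nat_lit 47248730)
def b2_2 : Bx := Bx.mk (St.mk (I.pos (nat_lit 100450304) (nat_lit 177831936)) (I.mix (nat_lit 46743552) (nat_lit 92045312)) (I.mix (nat_lit 11649024) (nat_lit 131104768)) (I.pos (nat_lit 321552384) (nat_lit 417824768)) (I.mix (nat_lit 227639296) (nat_lit 99155968)) (I.mix (nat_lit 211140608) (nat_lit 161939456)) (I.mix (nat_lit 224264192) (nat_lit 201687040)))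
  false (nat_lit 32741973)
def b2_3 : Bx := Bx.mk (St.mk (I.neg (nat_lit 30736384) (nat_lit 110215168)) (I.pos (nat_lit 442368) (nat_lit 98189312)) (I.mix (nat_lit 61800448) (nat_lit 27541504)) (I.pos (nat_lit 282705920) (nat_lit 331202560)) (I.mix (nat_lit 111083520) (nat_lit 131710976)) (I.mix (nat_lit 112099328) (nat_lit 112656384)) (I.mix (nat_lit 116572160) (nat_lit 102744064)))
  true (nat_lit 0)
def b2_4 : Bx := Bx.mk (St.mk (I.pos (nat_lit 77168640) (nat_lit 111132672)) (I.mix (nat_lit 42827776) (nat_lit 2490368)) (I.mix (nat_lit 7176192) (nat_lit 30457856)) (I.pos (nat_lit 303398912) (nat_lit 332578816)) (I.mix (nat_lit 94404608) (nat_lit 72384512)) (I.mix (nat_lit 67928064) (nat_lit 84443136)) (I.mix (nat_lit 63930368) (nat_lit 67862528)))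
  false (nat_lit 0)
def b2_5 : Bx := Bx.mk (St.mk (I.mix (nat_lit 61587456) (nat_lit 7208960)) (I.mix (nat_lit 4210688) (nat_lit 95191040)) (I.neg (nat_lit 25378816) (nat_lit 46579712)) (I.pos (nat_lit 276398080) (nat_lit 304709632)) (I.mix (nat_lit 89899008) (nat_lit 127352832)) (I.mix (nat_lit 116588544) (nat_lit 113393664)) (I.mix (nat_lit 57966592) (nat_lit 43040768)))
  true (nat_lit 0)
def b2_6 : Bx := Bx.mk (St.mk (I.pos (nat_lit 20037632) (nat_lit 61587456)) (I.neg (nat_lit 32440320) (nat_lit 95191040)) (I.neg (nat_lit 25542656) (nat_lit 46579712)) (I.pos (nat_lit 282198016) (nat_lit 304709632)) (I.mix (nat_lit 127352832) (nat_lit 89899008)) (I.mix (nat_lit 113393664) (nat_lit 116588544)) (I.mix (nat_lit 57966592) (nat_lit 43040768)))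
  false (nat_lit 33743157)
def b2_7 : Bx := Bx.mk (St.mk (I.pos (nat_lit 175276032) (nat_lit 261849088)) (I.mix (nat_lit 8421376) (nat_lit 49823744)) (I.mix (nat_lit 68927488) (nat_lit 38666240)) (I.pos (nat_lit 418168832) (nat_lit 559611904)) (I.mix (nat_lit 129548288) (nat_lit 79462400)) (I.mix (nat_lit 93782016) (nat_lit 90374144)) (I.mix (nat_lit 155566080) (nat_lit 154386432)))
  false (nat_lit 0)
def b2_8 : Bx := Bx.mk (St.mk (I.mix (nat_lit 7012352) (nat_lit 40566784)) (I.mix (nat_lit 39272448) (nat_lit 4259840)) (I.neg (nat_lit 25395200) (nat_lit 33374208)) (I.pos (nat_lit 276398080) (nat_lit 286982144)) (I.mix (nat_lit 58163200) (nat_lit 66158592)) (I.mix (nat_lit 58507264) (nat_lit 51838976)) (I.mix (nat_lit 16662528) (nat_lit 13549568)))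
  false (nat_lit 0)
def b2_9 : Bx := Bx.mk (St.mk (I.mix (nat_lit 9338880) (nat_lit 5586944)) (I.mix (nat_lit 2179072) (nat_lit 19529728)) (I.neg (nat_lit 29687808) (nat_lit 31686656)) (I.pos (nat_lit 276201472) (nat_lit 280444928)) (I.mix (nat_lit 13172736) (nat_lit 29016064)) (I.mix (nat_lit 18120704) (nat_lit 11534336)) (I.neg (nat_lit 704512) (nat_lit 4030464)))
  true (nat_lit 0)
def b2_10 : Bx := Bx.mk (St.mk (I.pos (nat_lit 153108480) (nat_lit 204013568)) (I.pos (nat_lit 17645568) (nat_lit 83230720)) (I.pos (nat_lit 11878400) (nat_lit 107495424)) (I.pos (nat_lit 398344192) (nat_lit 453115904)) (I.mix (nat_lit 149143552) (nat_lit 103301120)) (I.mix (nat_lit 148062208) (nat_lit 85311488)) (I.mix (nat_lit 226279424) (nat_lit 131366912)))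
  false (nat_lit 0)
def b2_11 : Bx := Bx.mk (St.mk (I.pos (nat_lit 19480576) (nat_lit 48807936)) (I.neg (nat_lit 19218432) (nat_lit 72155136)) (I.neg (nat_lit 28065792) (nat_lit 42500096)) (I.pos (nat_lit 280969216) (nat_lit 294322176)) (I.mix (nat_lit 105086976) (nat_lit 77938688)) (I.mix (nat_lit 67158016) (nat_lit 113606656)) (I.mix (nat_lit 31621120) (nat_lit 25985024)))
  false (nat_lit 0)
def t2 : BTr := (BTr.n (BTr.n (BTr.n (BTr.b b2_0) (BTr.n (BTr.b b2_1) (BTr.b b2_2))) (BTr.n (BTr.b b2_3) (BTr.n (BTr.b b2_4) (BTr.b b2_5)))) (BTr.n (BTr.n (BTr.b b2_6) (BTr.n (BTr.b b2_7) (BTr.b b2_8))) (BTr.n (BTr.b b2_9) (BTr.n (BTr.b b2_10) (BTr.b b2_11)))))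
namespace T2
def l0 : Tr := Tr.L (Pth.l (Pth.l (Pth.l Pth.z)))
def l1 : Tr := Tr.L (Pth.l (Pth.l (Pth.r (Pth.l Pth.z))))
def l2 : Tr := Tr.L (Pth.l (Pth.l (Pth.r (Pth.r Pth.z))))
def l3 : Tr := Tr.L (Pth.l (Pth.r (Pth.l Pth.z)))
def l4 : Tr := Tr.L (Pth.l (Pth.r (Pth.r (Pth.l Pth.z))))
def l5 : Tr := Tr.L (Pth.l (Pth.r (Pth.r (Pth.r Pth.z))))
def l6 : Tr := Tr.L (Pth.r (Pth.l (Pth.l Pth.z)))
def l7 : Tr := Tr.L (Pth.r (Pth.l (Pth.r (Pth.l Pth.z))))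
def l8 : Tr := Tr.L (Pth.r (Pth.l (Pth.r (Pth.r Pth.z))))
def l9 : Tr := Tr.L (Pth.r (Pth.r (Pth.l Pth.z)))
def l10 : Tr := Tr.L (Pth.r (Pth.r (Pth.r (Pth.l Pth.z))))
def l11 : Tr := Tr.L (Pth.r (Pth.r (Pth.r (Pth.r Pth.z))))
end T2
theorem bx0_0 : BoxOK sI cl4 cl4 cl5 t0 t2 b0_0 :=
  box_mk (TrL.c (I.pos (nat_lit 0) (nat_lit 0)) (xa (xb T0.l9 (xb T0.l9 (xa T0.l0 T0.l0))) (xb T0.l0 (xa (xb T0.l0 T0.l0) (xb T0.l0 T0.l0))))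
  (TrL.c (I.pos (nat_lit 0) (nat_lit 0)) (xa T2.l1 T2.l1)
  (TrL.c (I.pos (nat_lit 0) (nat_lit 0)) (xa T0.l1 T0.l1)
  (TrL.c (I.pos (nat_lit 0) (nat_lit 0)) (xb T2.l2 (xa T2.l2 T2.l2))
  (TrL.c (I.pos (nat_lit 0) (nat_lit 0)) (xa T0.l2 T0.l2)
  (TrL.c (I.pos (nat_lit 0) (nat_lit 0)) (xa T2.l3 T2.l3)
  TrL.n)))))) (by decide +kernel)
theorem bx0_1 : BoxOK sI cl4 cl4 cl5 t0 t2 b0_1 :=
  box_mk (TrL.c (I.pos (nat_lit 0) (nat_lit 0)) T2.l4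
  (TrL.c (I.pos (nat_lit 0) (nat_lit 0)) T0.l3
  TrL.n)) (by decide +kernel)
theorem bx0_2 : BoxOK sI cl4 cl4 cl5 t0 t2 b0_2 :=
  box_mk (TrL.c (I.pos (nat_lit 0) (nat_lit 0)) (xb (xa (xb T0.l4 T0.l4) T0.l9) (xa T0.l4 T0.l4))
  (TrL.c (I.pos (nat_lit 0) (nat_lit 0)) T2.l4
  (TrL.c (I.pos (nat_lit 0) (nat_lit 0)) T0.l3
  (TrL.c (I.pos (nat_lit 0) (nat_lit 0)) T2.l2
  (TrL.c (I.pos (nat_lit 0) (nat_lit 0)) T0.l5
  (TrL.c (I.pos (nat_lit 0) (nat_lit 0)) T2.l3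
  TrL.n)))))) (by decide +kernel)
theorem bx0_3 : BoxOK sI cl4 cl4 cl5 t0 t2 b0_3 :=
  box_mk (TrL.c (I.pos (nat_lit 0) (nat_lit 0)) T2.l4
  (TrL.c (I.pos (nat_lit 0) (nat_lit 0)) T0.l3
  TrL.n)) (by decide +kernel)
theorem bx0_4 : BoxOK sI cl4 cl4 cl5 t0 t2 b0_4 :=
  box_mk (TrL.c (I.pos (nat_lit 0) (nat_lit 0)) (xa T0.l0 T0.l7)
  (TrL.c (I.pos (nat_lit 0) (nat_lit 0)) (xa T2.l1 T2.l1)
  (TrL.c (I.pos (nat_lit 0) (nat_lit 0)) T0.l8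
  (TrL.c (I.pos (nat_lit 0) (nat_lit 0)) (xa T2.l2 T2.l2)
  (TrL.c (I.pos (nat_lit 0) (nat_lit 0)) T0.l6
  (TrL.c (I.pos (nat_lit 0) (nat_lit 0)) (xa T2.l3 T2.l3)
  TrL.n)))))) (by decide +kernel)
theorem bx0_5 : BoxOK sI cl4 cl4 cl5 t0 t2 b0_5 :=
  box_mk (TrL.c (I.pos (nat_lit 0) (nat_lit 0)) T0.l4
  (TrL.c (I.pos (nat_lit 0) (nat_lit 0)) T2.l4
  (TrL.c (I.pos (nat_lit 0) (nat_lit 0)) T0.l3
  (TrL.c (I.pos (nat_lit 0) (nat_lit 0)) T2.l2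
  (TrL.c (I.pos (nat_lit 0) (nat_lit 0)) T0.l5
  (TrL.c (I.pos (nat_lit 0) (nat_lit 0)) T2.l3
  TrL.n)))))) (by decide +kernel)
theorem bx0_6 : BoxOK sI cl4 cl4 cl5 t0 t2 b0_6 :=
  box_mk (TrL.c (I.pos (nat_lit 0) (nat_lit 0)) (xa (xb (xa (xb T0.l9 T0.l9) T0.l9) (xa T0.l9 T0.l9)) (xb T0.l9 T0.l9))
  (TrL.c (I.pos (nat_lit 0) (nat_lit 0)) (xa T2.l1 T2.l1)
  (TrL.c (I.pos (nat_lit 0) (nat_lit 0)) T0.l1
  (TrL.c (I.pos (nat_lit 0) (nat_lit 0)) T2.l2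
  (TrL.c (I.pos (nat_lit 0) (nat_lit 0)) T0.l10
  (TrL.c (I.pos (nat_lit 0) (nat_lit 0)) T2.l3
  TrL.n)))))) (by decide +kernel)
theorem bx0_7 : BoxOK sI cl4 cl4 cl5 t0 t2 b0_7 :=
  box_mk (TrL.c (I.pos (nat_lit 0) (nat_lit 0)) (xb (xa (xb (xa T0.l9 T0.l9) (xa T0.l9 T0.l9)) (xb (xa T0.l9 T0.l9) T0.l9)) (xa (xb (xa T0.l9 T0.l9) (xa T0.l9 T0.l9)) (xb (xa T0.l9 T0.l9) (xa T0.l9 T0.l9))))
  (TrL.c (I.pos (nat_lit 0) (nat_lit 0)) (xb (xa T2.l1 T2.l1) (xa T2.l1 T2.l1))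
  (TrL.c (I.pos (nat_lit 0) (nat_lit 0)) (xb T0.l1 (xa T0.l1 T0.l1))
  (TrL.c (I.pos (nat_lit 0) (nat_lit 0)) (xb (xa T2.l2 T2.l2) (xa T2.l2 T2.l2))
  (TrL.c (I.pos (nat_lit 0) (nat_lit 0)) (xb T0.l10 (xa T0.l10 T0.l10))
  (TrL.c (I.pos (nat_lit 0) (nat_lit 0)) (xb (xa T2.l3 T2.l3) (xa T2.l3 T2.l3))
  TrL.n)))))) (by decide +kernel)
theorem bx0_8 : BoxOK sI cl4 cl4 cl5 t0 t2 b0_8 :=
  box_mk (TrL.c (I.pos (nat_lit 0) (nat_lit 0)) (xa T2.l1 T2.l1)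
  (TrL.c (I.pos (nat_lit 0) (nat_lit 0)) T0.l1
  TrL.n)) (by decide +kernel)
theorem bx0_9 : BoxOK sI cl4 cl4 cl5 t0 t2 b0_9 :=
  box_mk (TrL.c (I.pos (nat_lit 0) (nat_lit 0)) (xb (xa (xb (xa T0.l9 T0.l0) T0.l0) (xb T0.l0 T0.l0)) (xa (xb (xa T0.l0 T0.l0) (xa T0.l0 T0.l0)) (xb T0.l0 (xa T0.l0 T0.l0))))
  (TrL.c (I.pos (nat_lit 0) (nat_lit 0)) (xb (xa T2.l1 T2.l1) (xa (xb T2.l1 T2.l1) (xb T2.l1 T2.l1)))
  (TrL.c (I.pos (nat_lit 0) (nat_lit 0)) (xb T0.l1 (xa T0.l1 T0.l1))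
  (TrL.c (I.pos (nat_lit 0) (nat_lit 0)) (xb (xa (xb T2.l2 T2.l2) (xb (xa T2.l2 T2.l2) T2.l2)) (xa T2.l2 (xb T2.l2 (xs T2.l2 T2.l2))))
  (TrL.c (I.pos (nat_lit 0) (nat_lit 0)) (xb T0.l2 (xa T0.l2 T0.l2))
  (TrL.c (I.pos (nat_lit 0) (nat_lit 0)) (xb (xa T2.l3 T2.l3) (xa (xb T2.l3 T2.l3) (xb T2.l3 T2.l3)))
  TrL.n)))))) (by decide +kernel)
theorem bx0_10 : BoxOK sI cl4 cl4 cl5 t0 t2 b0_10 :=
  box_mk (TrL.c (I.pos (nat_lit 0) (nat_lit 0)) (xb (xa (xb T0.l4 T0.l4) T0.l4) (xb T0.l4 T0.l4))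
  (TrL.c (I.pos (nat_lit 0) (nat_lit 0)) T2.l4
  (TrL.c (I.pos (nat_lit 0) (nat_lit 0)) T0.l3
  (TrL.c (I.pos (nat_lit 0) (nat_lit 0)) T2.l2
  (TrL.c (I.pos (nat_lit 0) (nat_lit 0)) T0.l5
  (TrL.c (I.pos (nat_lit 0) (nat_lit 0)) T2.l3
  TrL.n)))))) (by decide +kernel)
theorem bx0_11 : BoxOK sI cl4 cl4 cl5 t0 t2 b0_11 :=
  box_mk (TrL.c (I.pos (nat_lit 0) (nat_lit 0)) T0.l9
  (TrL.c (I.pos (nat_lit 0) (nat_lit 0)) T2.l1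
  (TrL.c (I.pos (nat_lit 0) (nat_lit 0)) T0.l1
  (TrL.c (I.pos (nat_lit 0) (nat_lit 0)) T2.l2
  (TrL.c (I.pos (nat_lit 0) (nat_lit 0)) T0.l10
  (TrL.c (I.pos (nat_lit 0) (nat_lit 0)) T2.l3
  TrL.n)))))) (by decide +kernel)
theorem sv0 : StarV sI cl4 cl4 cl5 t0 t2 t0 :=
  (bt_n (bt_n (bt_n (bt_b bx0_0) (bt_n (bt_b bx0_1) (bt_b bx0_2))) (bt_n (bt_b bx0_3) (bt_n (bt_b bx0_4) (bt_b bx0_5)))) (bt_n (bt_n (bt_b bx0_6) (bt_n (bt_b bx0_7) (bt_b bx0_8))) (bt_n (bt_b bx0_9) (bt_n (bt_b bx0_10) (bt_b bx0_11)))))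
def S0 : StarD := StarD.mk cl4 cl4 cl5 0 2 t0
theorem bx1_0 : BoxOK sI cl4 cl5 cl4 t2 t0 b1_0 :=
  box_mk (TrL.c (I.pos (nat_lit 0) (nat_lit 0)) (xa (xb T2.l0 (xa (xb T2.l0 T2.l0) (xb T2.l0 T2.l0))) (xb T2.l0 (xa (xb T2.l0 T2.l0) (xb T2.l0 T2.l0))))
  (TrL.c (I.pos (nat_lit 0) (nat_lit 0)) (xa (xb T0.l6 T0.l6) (xb T0.l6 T0.l6))
  (TrL.c (I.pos (nat_lit 0) (nat_lit 0)) T2.l5
  (TrL.c (I.pos (nat_lit 0) (nat_lit 0)) T0.l7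
  (TrL.c (I.pos (nat_lit 0) (nat_lit 0)) T2.l6
  (TrL.c (I.pos (nat_lit 0) (nat_lit 0)) (xa (xb T0.l8 T0.l8) (xb T0.l8 T0.l8))
  TrL.n)))))) (by decide +kernel)
theorem bx1_1 : BoxOK sI cl4 cl5 cl4 t2 t0 b1_1 :=
  box_mk (TrL.c (I.pos (nat_lit 0) (nat_lit 0)) (xa (xb (xa T2.l7 T2.l7) T2.l7) (xb (xa T2.l7 T2.l7) T2.l0))
  (TrL.c (I.pos (nat_lit 0) (nat_lit 0)) (xb T0.l6 T0.l6)
  (TrL.c (I.pos (nat_lit 0) (nat_lit 0)) T2.l5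
  (TrL.c (I.pos (nat_lit 0) (nat_lit 0)) T0.l7
  (TrL.c (I.pos (nat_lit 0) (nat_lit 0)) T2.l8
  (TrL.c (I.pos (nat_lit 0) (nat_lit 0)) (xb T0.l8 T0.l8)
  TrL.n)))))) (by decide +kernel)
theorem bx1_2 : BoxOK sI cl4 cl5 cl4 t2 t0 b1_2 :=
  box_mk (TrL.c (I.pos (nat_lit 0) (nat_lit 0)) (xb T2.l7 (xa T2.l7 T2.l7))
  (TrL.c (I.pos (nat_lit 0) (nat_lit 0)) T0.l6
  (TrL.c (I.pos (nat_lit 0) (nat_lit 0)) T2.l5
  (TrL.c (I.pos (nat_lit 0) (nat_lit 0)) T0.l7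
  (TrL.c (I.pos (nat_lit 0) (nat_lit 0)) T2.l8
  (TrL.c (I.pos (nat_lit 0) (nat_lit 0)) T0.l8
  TrL.n)))))) (by decide +kernel)
theorem bx1_3 : BoxOK sI cl4 cl5 cl4 t2 t0 b1_3 :=
  box_mk (TrL.c (I.pos (nat_lit 0) (nat_lit 0)) T0.l6
  (TrL.c (I.pos (nat_lit 0) (nat_lit 0)) T2.l5
  TrL.n)) (by decide +kernel)
theorem bx1_4 : BoxOK sI cl4 cl5 cl4 t2 t0 b1_4 :=
  box_mk (TrL.c (I.pos (nat_lit 0) (nat_lit 0)) (xa (xb T2.l10 (xb T2.l10 (xa T2.l10 T2.l10))) (xb (xb T2.l10 T2.l10) (xa (xb T2.l10 T2.l10) (xb T2.l10 T2.l10))))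
  (TrL.c (I.pos (nat_lit 0) (nat_lit 0)) (xb T0.l6 (xa T0.l6 T0.l6))
  (TrL.c (I.pos (nat_lit 0) (nat_lit 0)) T2.l5
  (TrL.c (I.pos (nat_lit 0) (nat_lit 0)) T0.l7
  (TrL.c (I.pos (nat_lit 0) (nat_lit 0)) T2.l11
  (TrL.c (I.pos (nat_lit 0) (nat_lit 0)) (xb T0.l8 (xa T0.l8 T0.l8))
  TrL.n)))))) (by decide +kernel)
theorem bx1_5 : BoxOK sI cl4 cl5 cl4 t2 t0 b1_5 :=
  box_mk (TrL.c (I.pos (nat_lit 0) (nat_lit 0)) (xb (xa T2.l7 T2.l7) (xa T2.l7 T2.l7))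
  (TrL.c (I.pos (nat_lit 0) (nat_lit 0)) T0.l6
  (TrL.c (I.pos (nat_lit 0) (nat_lit 0)) T2.l5
  (TrL.c (I.pos (nat_lit 0) (nat_lit 0)) T0.l7
  (TrL.c (I.pos (nat_lit 0) (nat_lit 0)) T2.l8
  (TrL.c (I.pos (nat_lit 0) (nat_lit 0)) T0.l8
  TrL.n)))))) (by decide +kernel)
theorem bx1_6 : BoxOK sI cl4 cl5 cl4 t2 t0 b1_6 :=
  box_mk (TrL.c (I.pos (nat_lit 0) (nat_lit 0)) (xb T2.l7 T2.l7)
  (TrL.c (I.pos (nat_lit 0) (nat_lit 0)) T0.l6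
  (TrL.c (I.pos (nat_lit 0) (nat_lit 0)) T2.l5
  (TrL.c (I.pos (nat_lit 0) (nat_lit 0)) T0.l7
  (TrL.c (I.pos (nat_lit 0) (nat_lit 0)) T2.l8
  (TrL.c (I.pos (nat_lit 0) (nat_lit 0)) T0.l8
  TrL.n)))))) (by decide +kernel)
theorem bx1_7 : BoxOK sI cl4 cl5 cl4 t2 t0 b1_7 :=
  box_mk (TrL.c (I.pos (nat_lit 0) (nat_lit 0)) T0.l6
  (TrL.c (I.pos (nat_lit 0) (nat_lit 0)) T2.l5
  TrL.n)) (by decide +kernel)
theorem bx1_8 : BoxOK sI cl4 cl5 cl4 t2 t0 b1_8 :=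
  box_mk (TrL.c (I.pos (nat_lit 0) (nat_lit 0)) (xa (xb (xb (xa T2.l0 T2.l0) (xa T2.l0 T2.l0)) (xb (xa T2.l0 T2.l0) (xa T2.l0 T2.l0))) (xb (xb T2.l2 T2.l0) (xa (xb T2.l0 T2.l0) (xb T2.l0 T2.l2))))
  (TrL.c (I.pos (nat_lit 0) (nat_lit 0)) (xa (xb T0.l6 (xa T0.l6 T0.l6)) (xb (xa T0.l6 T0.l6) (xa T0.l6 T0.l6)))
  (TrL.c (I.pos (nat_lit 0) (nat_lit 0)) (xa T2.l5 T2.l5)
  (TrL.c (I.pos (nat_lit 0) (nat_lit 0)) (xb (xa T0.l7 (xb T0.l7 T0.l7)) (xa T0.l7 (xb T0.l7 (xa T0.l7 T0.l7))))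
  (TrL.c (I.pos (nat_lit 0) (nat_lit 0)) (xa T2.l6 T2.l6)
  (TrL.c (I.pos (nat_lit 0) (nat_lit 0)) (xa (xb T0.l8 (xa T0.l8 T0.l8)) (xb (xa T0.l8 T0.l8) (xa T0.l8 T0.l8)))
  TrL.n)))))) (by decide +kernel)
theorem bx1_9 : BoxOK sI cl4 cl5 cl4 t2 t0 b1_9 :=
  box_mk (TrL.c (I.pos (nat_lit 0) (nat_lit 0)) (xb (xa (xb T2.l10 T2.l10) (xb T2.l10 T2.l10)) (xa (xb T2.l10 T2.l10) T2.l10))
  (TrL.c (I.pos (nat_lit 0) (nat_lit 0)) (xb T0.l6 T0.l6)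
  (TrL.c (I.pos (nat_lit 0) (nat_lit 0)) T2.l5
  (TrL.c (I.pos (nat_lit 0) (nat_lit 0)) (xb T0.l7 T0.l7)
  (TrL.c (I.pos (nat_lit 0) (nat_lit 0)) T2.l11
  (TrL.c (I.pos (nat_lit 0) (nat_lit 0)) (xb T0.l8 T0.l8)
  TrL.n)))))) (by decide +kernel)
theorem bx1_10 : BoxOK sI cl4 cl5 cl4 t2 t0 b1_10 :=
  box_mk (TrL.c (I.pos (nat_lit 0) (nat_lit 0)) (xa T2.l7 T2.l0)
  (TrL.c (I.pos (nat_lit 0) (nat_lit 0)) T0.l6
  (TrL.c (I.pos (nat_lit 0) (nat_lit 0)) T2.l5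
  (TrL.c (I.pos (nat_lit 0) (nat_lit 0)) T0.l7
  (TrL.c (I.pos (nat_lit 0) (nat_lit 0)) T2.l8
  (TrL.c (I.pos (nat_lit 0) (nat_lit 0)) T0.l8
  TrL.n)))))) (by decide +kernel)
theorem bx1_11 : BoxOK sI cl4 cl5 cl4 t2 t0 b1_11 :=
  box_mk (TrL.c (I.pos (nat_lit 0) (nat_lit 0)) T2.l7
  (TrL.c (I.pos (nat_lit 0) (nat_lit 0)) T0.l6
  (TrL.c (I.pos (nat_lit 0) (nat_lit 0)) T2.l5
  (TrL.c (I.pos (nat_lit 0) (nat_lit 0)) T0.l7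
  (TrL.c (I.pos (nat_lit 0) (nat_lit 0)) T2.l8
  (TrL.c (I.pos (nat_lit 0) (nat_lit 0)) T0.l8
  TrL.n)))))) (by decide +kernel)
theorem bx1_12 : BoxOK sI cl4 cl5 cl4 t2 t0 b1_12 :=
  box_mk (TrL.c (I.pos (nat_lit 0) (nat_lit 0)) T0.l6
  (TrL.c (I.pos (nat_lit 0) (nat_lit 0)) T2.l5
  TrL.n)) (by decide +kernel)
theorem bx1_13 : BoxOK sI cl4 cl5 cl4 t2 t0 b1_13 :=
  box_mk (TrL.c (I.pos (nat_lit 0) (nat_lit 0)) (xa T2.l0 T2.l2)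
  (TrL.c (I.pos (nat_lit 0) (nat_lit 0)) (xa T0.l6 T0.l6)
  (TrL.c (I.pos (nat_lit 0) (nat_lit 0)) T2.l3
  (TrL.c (I.pos (nat_lit 0) (nat_lit 0)) (xa T0.l7 T0.l7)
  (TrL.c (I.pos (nat_lit 0) (nat_lit 0)) T2.l1
  (TrL.c (I.pos (nat_lit 0) (nat_lit 0)) (xa T0.l8 T0.l8)
  TrL.n)))))) (by decide +kernel)
theorem bx1_14 : BoxOK sI cl4 cl5 cl4 t2 t0 b1_14 :=
  box_mk (TrL.c (I.pos (nat_lit 0) (nat_lit 0)) T2.l0
  (TrL.c (I.pos (nat_lit 0) (nat_lit 0)) T0.l6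
  (TrL.c (I.pos (nat_lit 0) (nat_lit 0)) T2.l5
  (TrL.c (I.pos (nat_lit 0) (nat_lit 0)) T0.l7
  (TrL.c (I.pos (nat_lit 0) (nat_lit 0)) T2.l11
  (TrL.c (I.pos (nat_lit 0) (nat_lit 0)) T0.l8
  TrL.n)))))) (by decide +kernel)
theorem sv1 : StarV sI cl4 cl5 cl4 t2 t0 t1 :=
  (bt_n (bt_n (bt_n (bt_b bx1_0) (bt_n (bt_b bx1_1) (bt_b bx1_2))) (bt_n (bt_n (bt_b bx1_3) (bt_b bx1_4)) (bt_n (bt_b bx1_5) (bt_b bx1_6)))) (bt_n (bt_n (bt_n (bt_b bx1_7) (bt_b bx1_8)) (bt_n (bt_b bx1_9) (bt_b bx1_10))) (bt_n (bt_n (bt_b bx1_11) (bt_b bx1_12)) (bt_n (bt_b bx1_13) (bt_b bx1_14)))))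
def S1 : StarD := StarD.mk cl4 cl5 cl4 2 0 t1
theorem bx2_0 : BoxOK sI cl5 cl4 cl4 t1 t1 b2_0 :=
  box_mk (TrL.c (I.pos (nat_lit 0) (nat_lit 0)) (xa (xb T1.l8 (xa (xb T1.l8 T1.l8) (xb T1.l0 T1.l8))) (xb (xa T1.l0 T1.l0) (xa (xb T1.l0 T1.l0) (xb T1.l0 T1.l0))))
  (TrL.c (I.pos (nat_lit 0) (nat_lit 0)) (xa T1.l1 (xb T1.l1 T1.l1))
  (TrL.c (I.pos (nat_lit 0) (nat_lit 0)) T1.l2
  (TrL.c (I.pos (nat_lit 0) (nat_lit 0)) T1.l3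
  (TrL.c (I.pos (nat_lit 0) (nat_lit 0)) (xa T1.l9 (xb T1.l4 T1.l4))
  (TrL.c (I.pos (nat_lit 0) (nat_lit 0)) T1.l5
  (TrL.c (I.pos (nat_lit 0) (nat_lit 0)) T1.l6
  (TrL.c (I.pos (nat_lit 0) (nat_lit 0)) T1.l7
  TrL.n)))))))) (by decide +kernel)
theorem bx2_1 : BoxOK sI cl5 cl4 cl4 t1 t1 b2_1 :=
  box_mk (TrL.c (I.pos (nat_lit 0) (nat_lit 0)) (xb (xa (xb (xa T1.l8 T1.l8) T1.l8) T1.l8) (xa (xa T1.l8 T1.l8) T1.l8))
  (TrL.c (I.pos (nat_lit 0) (nat_lit 0)) T1.l1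
  (TrL.c (I.pos (nat_lit 0) (nat_lit 0)) T1.l2
  (TrL.c (I.pos (nat_lit 0) (nat_lit 0)) T1.l3
  (TrL.c (I.pos (nat_lit 0) (nat_lit 0)) (xb T1.l9 T1.l9)
  (TrL.c (I.pos (nat_lit 0) (nat_lit 0)) T1.l5
  (TrL.c (I.pos (nat_lit 0) (nat_lit 0)) T1.l6
  (TrL.c (I.pos (nat_lit 0) (nat_lit 0)) T1.l7
  TrL.n)))))))) (by decide +kernel)
theorem bx2_2 : BoxOK sI cl5 cl4 cl4 t1 t1 b2_2 :=
  box_mk (TrL.c (I.pos (nat_lit 0) (nat_lit 0)) (xb (xa (xb T1.l8 T1.l8) (xb (xa T1.l8 T1.l8) T1.l8)) (xa (xb T1.l8 (xa T1.l8 T1.l8)) (xb T1.l8 (xa T1.l8 T1.l8))))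
  (TrL.c (I.pos (nat_lit 0) (nat_lit 0)) (xb T1.l1 (xa T1.l1 T1.l1))
  (TrL.c (I.pos (nat_lit 0) (nat_lit 0)) T1.l2
  (TrL.c (I.pos (nat_lit 0) (nat_lit 0)) T1.l3
  (TrL.c (I.pos (nat_lit 0) (nat_lit 0)) (xb (xa T1.l9 T1.l9) (xa T1.l9 T1.l9))
  (TrL.c (I.pos (nat_lit 0) (nat_lit 0)) T1.l5
  (TrL.c (I.pos (nat_lit 0) (nat_lit 0)) T1.l6
  (TrL.c (I.pos (nat_lit 0) (nat_lit 0)) T1.l7
  TrL.n)))))))) (by decide +kernel)
theorem bx2_3 : BoxOK sI cl5 cl4 cl4 t1 t1 b2_3 :=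
  box_mk (TrL.c (I.pos (nat_lit 0) (nat_lit 0)) T1.l10
  (TrL.c (I.pos (nat_lit 0) (nat_lit 0)) T1.l11
  (TrL.c (I.pos (nat_lit 0) (nat_lit 0)) T1.l3
  TrL.n))) (by decide +kernel)
theorem bx2_4 : BoxOK sI cl5 cl4 cl4 t1 t1 b2_4 :=
  box_mk (TrL.c (I.pos (nat_lit 0) (nat_lit 0)) T1.l8
  (TrL.c (I.pos (nat_lit 0) (nat_lit 0)) T1.l1
  (TrL.c (I.pos (nat_lit 0) (nat_lit 0)) T1.l2
  (TrL.c (I.pos (nat_lit 0) (nat_lit 0)) T1.l3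
  (TrL.c (I.pos (nat_lit 0) (nat_lit 0)) T1.l9
  (TrL.c (I.pos (nat_lit 0) (nat_lit 0)) T1.l5
  (TrL.c (I.pos (nat_lit 0) (nat_lit 0)) T1.l6
  (TrL.c (I.pos (nat_lit 0) (nat_lit 0)) T1.l7
  TrL.n)))))))) (by decide +kernel)
theorem bx2_5 : BoxOK sI cl5 cl4 cl4 t1 t1 b2_5 :=
  box_mk (TrL.c (I.pos (nat_lit 0) (nat_lit 0)) T1.l10
  (TrL.c (I.pos (nat_lit 0) (nat_lit 0)) T1.l11
  (TrL.c (I.pos (nat_lit 0) (nat_lit 0)) T1.l12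
  TrL.n))) (by decide +kernel)
theorem bx2_6 : BoxOK sI cl5 cl4 cl4 t1 t1 b2_6 :=
  box_mk (TrL.c (I.pos (nat_lit 0) (nat_lit 0)) (xb (xa T1.l13 T1.l8) T1.l13)
  (TrL.c (I.pos (nat_lit 0) (nat_lit 0)) T1.l10
  (TrL.c (I.pos (nat_lit 0) (nat_lit 0)) T1.l2
  (TrL.c (I.pos (nat_lit 0) (nat_lit 0)) T1.l12
  (TrL.c (I.pos (nat_lit 0) (nat_lit 0)) T1.l14
  (TrL.c (I.pos (nat_lit 0) (nat_lit 0)) T1.l5
  (TrL.c (I.pos (nat_lit 0) (nat_lit 0)) T1.l6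
  (TrL.c (I.pos (nat_lit 0) (nat_lit 0)) T1.l7
  TrL.n)))))))) (by decide +kernel)
theorem bx2_7 : BoxOK sI cl5 cl4 cl4 t1 t1 b2_7 :=
  box_mk (TrL.c (I.pos (nat_lit 0) (nat_lit 0)) (xa T1.l0 (xa (xb T1.l0 T1.l0) T1.l4))
  (TrL.c (I.pos (nat_lit 0) (nat_lit 0)) (xa T1.l1 T1.l1)
  (TrL.c (I.pos (nat_lit 0) (nat_lit 0)) T1.l2
  (TrL.c (I.pos (nat_lit 0) (nat_lit 0)) T1.l3
  (TrL.c (I.pos (nat_lit 0) (nat_lit 0)) (xa T1.l4 (xb T1.l4 T1.l4))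
  (TrL.c (I.pos (nat_lit 0) (nat_lit 0)) T1.l5
  (TrL.c (I.pos (nat_lit 0) (nat_lit 0)) T1.l6
  (TrL.c (I.pos (nat_lit 0) (nat_lit 0)) T1.l7
  TrL.n)))))))) (by decide +kernel)
theorem bx2_8 : BoxOK sI cl5 cl4 cl4 t1 t1 b2_8 :=
  box_mk (TrL.c (I.pos (nat_lit 0) (nat_lit 0)) (xa T1.l13 T1.l13)
  (TrL.c (I.pos (nat_lit 0) (nat_lit 0)) T1.l10
  (TrL.c (I.pos (nat_lit 0) (nat_lit 0)) T1.l11
  (TrL.c (I.pos (nat_lit 0) (nat_lit 0)) T1.l12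
  (TrL.c (I.pos (nat_lit 0) (nat_lit 0)) T1.l14
  (TrL.c (I.pos (nat_lit 0) (nat_lit 0)) T1.l5
  (TrL.c (I.pos (nat_lit 0) (nat_lit 0)) T1.l6
  (TrL.c (I.pos (nat_lit 0) (nat_lit 0)) T1.l7
  TrL.n)))))))) (by decide +kernel)
theorem bx2_9 : BoxOK sI cl5 cl4 cl4 t1 t1 b2_9 :=
  box_mk (TrL.c (I.pos (nat_lit 0) (nat_lit 0)) T1.l10
  (TrL.c (I.pos (nat_lit 0) (nat_lit 0)) T1.l11
  (TrL.c (I.pos (nat_lit 0) (nat_lit 0)) T1.l12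
  TrL.n))) (by decide +kernel)
theorem bx2_10 : BoxOK sI cl5 cl4 cl4 t1 t1 b2_10 :=
  box_mk (TrL.c (I.pos (nat_lit 0) (nat_lit 0)) (xa (xb T1.l0 T1.l8) (xb T1.l0 T1.l0))
  (TrL.c (I.pos (nat_lit 0) (nat_lit 0)) T1.l1
  (TrL.c (I.pos (nat_lit 0) (nat_lit 0)) T1.l2
  (TrL.c (I.pos (nat_lit 0) (nat_lit 0)) T1.l3
  (TrL.c (I.pos (nat_lit 0) (nat_lit 0)) T1.l4
  (TrL.c (I.pos (nat_lit 0) (nat_lit 0)) T1.l5
  (TrL.c (I.pos (nat_lit 0) (nat_lit 0)) T1.l6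
  (TrL.c (I.pos (nat_lit 0) (nat_lit 0)) T1.l7
  TrL.n)))))))) (by decide +kernel)
theorem bx2_11 : BoxOK sI cl5 cl4 cl4 t1 t1 b2_11 :=
  box_mk (TrL.c (I.pos (nat_lit 0) (nat_lit 0)) T1.l13
  (TrL.c (I.pos (nat_lit 0) (nat_lit 0)) T1.l10
  (TrL.c (I.pos (nat_lit 0) (nat_lit 0)) T1.l2
  (TrL.c (I.pos (nat_lit 0) (nat_lit 0)) T1.l12
  (TrL.c (I.pos (nat_lit 0) (nat_lit 0)) T1.l14
  (TrL.c (I.pos (nat_lit 0) (nat_lit 0)) T1.l5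
  (TrL.c (I.pos (nat_lit 0) (nat_lit 0)) T1.l6
  (TrL.c (I.pos (nat_lit 0) (nat_lit 0)) T1.l7
  TrL.n)))))))) (by decide +kernel)
theorem sv2 : StarV sI cl5 cl4 cl4 t1 t1 t2 :=
  (bt_n (bt_n (bt_n (bt_b bx2_0) (bt_n (bt_b bx2_1) (bt_b bx2_2))) (bt_n (bt_b bx2_3) (bt_n (bt_b bx2_4) (bt_b bx2_5)))) (bt_n (bt_n (bt_b bx2_6) (bt_n (bt_b bx2_7) (bt_b bx2_8))) (bt_n (bt_b bx2_9) (bt_n (bt_b bx2_10) (bt_b bx2_11)))))
def S2 : StarD := StarD.mk cl5 cl4 cl4 1 1 t2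
def G : List StarD := [S0, S1, S2]
theorem so0 : StarOK sI G S0 :=
  star_mk (by decide) (by decide) rfl rfl rfl rfl rfl rfl (rfl : _ = t0) (rfl : _ = t2)
  (st_mk (Pth.l (Pth.l (Pth.l Pth.z))) (nat_lit 393213562) (nat_lit 398788748) (by decide +kernel))
  (st_mk (Pth.l (Pth.l (Pth.l Pth.z))) (nat_lit 434299941) (nat_lit 441245596) (by decide +kernel))
  (st_mk (Pth.l (Pth.l (Pth.l Pth.z))) (nat_lit 482633703) (nat_lit 491433425) (by decide +kernel)) sv0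
theorem so1 : StarOK sI G S1 :=
  star_mk (by decide) (by decide) rfl rfl rfl rfl rfl rfl (rfl : _ = t2) (rfl : _ = t0)
  (st_mk (Pth.l (Pth.l (Pth.l Pth.z))) (nat_lit 254491961) (nat_lit 257624829) (by decide +kernel))
  (st_mk (Pth.l (Pth.l (Pth.l Pth.z))) (nat_lit 294933841) (nat_lit 299258658) (by decide +kernel))
  (st_mk (Pth.l (Pth.l (Pth.l Pth.z))) (nat_lit 342820890) (nat_lit 348866922) (by decide +kernel)) sv1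
theorem so2 : StarOK sI G S2 :=
  star_mk (by decide) (by decide) rfl rfl rfl rfl rfl rfl (rfl : _ = t1) (rfl : _ = t1)
  (st_mk (Pth.l (Pth.l (Pth.l Pth.z))) (nat_lit 384545123) (nat_lit 388192172) (by decide +kernel))
  (st_mk (Pth.l (Pth.l (Pth.l Pth.z))) (nat_lit 423599502) (nat_lit 428083494) (by decide +kernel))
  (st_mk (Pth.l (Pth.l (Pth.l Pth.z))) (nat_lit 469231987) (nat_lit 474821904) (by decide +kernel)) sv2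
theorem ok : GroupOK (nat_lit 91226112) (nat_lit 150339584) G := grp_mk (allS_c so0 (allS_c so1 (allS_c so2 allS_n)))
theorem cov : GCov G cl4 cl4 cl5 := cov_mk
  ⟨0, by decide, rfl, rfl, rfl⟩ ⟨1, by decide, rfl, rfl, rfl⟩ ⟨0, by decide, rfl, rfl, rfl⟩ ⟨1, by decide, rfl, rfl, rfl⟩ ⟨2, by decide, rfl, rfl, rfl⟩ ⟨2, by decide, rfl, rfl, rfl⟩
end Q112_1

namespace Q112_2
def sI : I := I.pos (nat_lit 150274048) (nat_lit 209387520)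
def b0_0 : Bx := Bx.mk (St.mk (I.pos (nat_lit 137232384) (nat_lit 215302144)) (I.mix (nat_lit 278528) (nat_lit 100335616)) (I.mix (nat_lit 16138240) (nat_lit 80936960)) (I.pos (nat_lit 391266304) (nat_lit 501760000)) (I.mix (nat_lit 209797120) (nat_lit 132448256)) (I.mix (nat_lit 132169728) (nat_lit 133185536)) (I.mix (nat_lit 207159296) (nat_lit 203177984)))
  false (nat_lit 42384570)
def b0_1 : Bx := Bx.mk (St.mk (I.mix (nat_lit 53952512) (nat_lit 4128768)) (I.mix (nat_lit 19365888) (nat_lit 85164032)) (I.neg (nat_lit 59981824) (nat_lit 88424448)) (I.pos (nat_lit 271302656) (nat_lit 303742976)) (I.mix (nat_lit 88866816) (nat_lit 176881664)) (I.mix (nat_lit 137854976) (nat_lit 103448576)) (I.mix (nat_lit 75874304) (nat_lit 53018624)))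
  true (nat_lit 0)
def b0_2 : Bx := Bx.mk (St.mk (I.mix (nat_lit 1622016) (nat_lit 53952512)) (I.neg (nat_lit 28311552) (nat_lit 85164032)) (I.neg (nat_lit 59981824) (nat_lit 88424448)) (I.pos (nat_lit 273809408) (nat_lit 303742976)) (I.mix (nat_lit 176881664) (nat_lit 70893568)) (I.mix (nat_lit 103448576) (nat_lit 135462912)) (I.mix (nat_lit 75874304) (nat_lit 53018624)))
  false (nat_lit 5857991)
def b0_3 : Bx := Bx.mk (St.mk (I.mix (nat_lit 27639808) (nat_lit 6684672)) (I.mix (nat_lit 19677184) (nat_lit 20611072)) (I.neg (nat_lit 61800448) (nat_lit 68403200)) (I.pos (nat_lit 272236544) (nat_lit 282460160)) (I.mix (nat_lit 83230720) (nat_lit 79167488)) (I.mix (nat_lit 72335360) (nat_lit 63193088)) (I.mix (nat_lit 12713984) (nat_lit 17743872)))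
  true (nat_lit 0)
def b0_4 : Bx := Bx.mk (St.mk (I.pos (nat_lit 186089472) (nat_lit 249446400)) (I.mix (nat_lit 27754496) (nat_lit 27000832)) (I.neg (nat_lit 72433664) (nat_lit 165642240)) (I.pos (nat_lit 435175424) (nat_lit 544669696)) (I.mix (nat_lit 180256768) (nat_lit 94404608)) (I.mix (nat_lit 137543680) (nat_lit 123191296)) (I.mix (nat_lit 226672640) (nat_lit 241975296)))
  false (nat_lit 0)
def b0_5 : Bx := Bx.mk (St.mk (I.mix (nat_lit 5947392) (nat_lit 27541504)) (I.mix (nat_lit 15581184) (nat_lit 19202048)) (I.neg (nat_lit 61997056) (nat_lit 68403200)) (I.pos (nat_lit 272318464) (nat_lit 282460160)) (I.mix (nat_lit 61407232) (nat_lit 79544320)) (I.mix (nat_lit 59899904) (nat_lit 70418432)) (I.mix (nat_lit 12419072) (nat_lit 17776640)))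
  false (nat_lit 0)
def b0_6 : Bx := Bx.mk (St.mk (I.pos (nat_lit 11534336) (nat_lit 111935488)) (I.neg (nat_lit 8355840) (nat_lit 87359488)) (I.neg (nat_lit 25542656) (nat_lit 91537408)) (I.pos (nat_lit 274759680) (nat_lit 338247680)) (I.mix (nat_lit 161218560) (nat_lit 96026624)) (I.mix (nat_lit 104300544) (nat_lit 115048448)) (I.mix (nat_lit 123273216) (nat_lit 104906752)))
  false (nat_lit 22819510)
def b0_7 : Bx := Bx.mk (St.mk (I.pos (nat_lit 90685440) (nat_lit 184451072)) (I.mix (nat_lit 33112064) (nat_lit 78397440)) (I.mix (nat_lit 51544064) (nat_lit 68812800)) (I.pos (nat_lit 318537728) (nat_lit 447152128)) (I.mix (nat_lit 213352448) (nat_lit 122683392)) (I.mix (nat_lit 190201856) (nat_lit 152272896)) (I.mix (nat_lit 200687616) (nat_lit 187809792)))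
  false (nat_lit 28398539)
def b0_8 : Bx := Bx.mk (St.mk (I.neg (nat_lit 11517952) (nat_lit 111951872)) (I.pos (nat_lit 8355840) (nat_lit 87359488)) (I.neg (nat_lit 25542656) (nat_lit 91537408)) (I.pos (nat_lit 274759680) (nat_lit 338247680)) (I.mix (nat_lit 96043008) (nat_lit 161234944)) (I.mix (nat_lit 115048448) (nat_lit 104316928)) (I.mix (nat_lit 123289600) (nat_lit 104923136)))
  true (nat_lit 0)
def b0_9 : Bx := Bx.mk (St.mk (I.pos (nat_lit 171147264) (nat_lit 238092288)) (I.mix (nat_lit 23969792) (nat_lit 43827200)) (I.neg (nat_lit 33062912) (nat_lit 154877952)) (I.pos (nat_lit 416940032) (nat_lit 515833856)) (I.mix (nat_lit 191283200) (nat_lit 90963968)) (I.mix (nat_lit 140165120) (nat_lit 130973696)) (I.mix (nat_lit 220217344) (nat_lit 233570304)))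
  false (nat_lit 6565036)
def b0_10 : Bx := Bx.mk (St.mk (I.pos (nat_lit 950272) (nat_lit 37748736)) (I.mix (nat_lit 33112064) (nat_lit 17334272)) (I.neg (nat_lit 61538304) (nat_lit 72466432)) (I.pos (nat_lit 271466496) (nat_lit 286097408)) (I.mix (nat_lit 72564736) (nat_lit 87392256)) (I.mix (nat_lit 67436544) (nat_lit 73547776)) (I.mix (nat_lit 25690112) (nat_lit 26247168)))
  false (nat_lit 0)
def b0_11 : Bx := Bx.mk (St.mk (I.pos (nat_lit 88276992) (nat_lit 109576192)) (I.neg (nat_lit 16433152) (nat_lit 43794432)) (I.neg (nat_lit 27787264) (nat_lit 52527104)) (I.pos (nat_lit 315817984) (nat_lit 336019456)) (I.mix (nat_lit 34914304) (nat_lit 26591232)) (I.mix (nat_lit 18989056) (nat_lit 20758528)) (I.mix (nat_lit 20742144) (nat_lit 15941632)))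
  false (nat_lit 0)
def b0_12 : Bx := Bx.mk (St.mk (I.pos (nat_lit 154681344) (nat_lit 225804288)) (I.pos (nat_lit 16580608) (nat_lit 90718208)) (I.mix (nat_lit 63488000) (nat_lit 54951936)) (I.pos (nat_lit 412860416) (nat_lit 515457024)) (I.mix (nat_lit 174243840) (nat_lit 154419200)) (I.mix (nat_lit 163168256) (nat_lit 143261696)) (I.mix (nat_lit 295550976) (nat_lit 203440128)))
  false (nat_lit 20012883)
def b0_13 : Bx := Bx.mk (St.mk (I.mix (nat_lit 4128768) (nat_lit 41058304)) (I.neg (nat_lit 11812864) (nat_lit 69632000)) (I.neg (nat_lit 64831488) (nat_lit 84017152)) (I.pos (nat_lit 271253504) (nat_lit 293748736)) (I.mix (nat_lit 158416896) (nat_lit 88866816)) (I.mix (nat_lit 90537984) (nat_lit 137854976)) (I.mix (nat_lit 59015168) (nat_lit 44843008)))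
  false (nat_lit 0)
def t0 : BTr := (BTr.n (BTr.n (BTr.n (BTr.b b0_0) (BTr.n (BTr.b b0_1) (BTr.b b0_2))) (BTr.n (BTr.n (BTr.b b0_3) (BTr.b b0_4)) (BTr.n (BTr.b b0_5) (BTr.b b0_6)))) (BTr.n (BTr.n (BTr.b b0_7) (BTr.n (BTr.b b0_8) (BTr.b b0_9))) (BTr.n (BTr.n (BTr.b b0_10) (BTr.b b0_11)) (BTr.n (BTr.b b0_12) (BTr.b b0_13)))))
namespace T0
def l0 : Tr := Tr.L (Pth.l (Pth.l (Pth.l Pth.z)))
def l1 : Tr := Tr.L (Pth.l (Pth.l (Pth.r (Pth.l Pth.z))))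
def l2 : Tr := Tr.L (Pth.l (Pth.l (Pth.r (Pth.r Pth.z))))
def l3 : Tr := Tr.L (Pth.l (Pth.r (Pth.l (Pth.l Pth.z))))
def l4 : Tr := Tr.L (Pth.l (Pth.r (Pth.l (Pth.r Pth.z))))
def l5 : Tr := Tr.L (Pth.l (Pth.r (Pth.r (Pth.l Pth.z))))
def l6 : Tr := Tr.L (Pth.l (Pth.r (Pth.r (Pth.r Pth.z))))
def l7 : Tr := Tr.L (Pth.r (Pth.l (Pth.l Pth.z)))
def l8 : Tr := Tr.L (Pth.r (Pth.l (Pth.r (Pth.l Pth.z))))
def l9 : Tr := Tr.L (Pth.r (Pth.l (Pth.r (Pth.r Pth.z))))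
def l10 : Tr := Tr.L (Pth.r (Pth.r (Pth.l (Pth.l Pth.z))))
def l11 : Tr := Tr.L (Pth.r (Pth.r (Pth.l (Pth.r Pth.z))))
def l12 : Tr := Tr.L (Pth.r (Pth.r (Pth.r (Pth.l Pth.z))))
def l13 : Tr := Tr.L (Pth.r (Pth.r (Pth.r (Pth.r Pth.z))))
end T0
def b1_0 : Bx := Bx.mk (St.mk (I.pos (nat_lit 142295040) (nat_lit 215302144)) (I.mix (nat_lit 278528) (nat_lit 68730880)) (I.mix (nat_lit 278528) (nat_lit 96894976)) (I.pos (nat_lit 256786432) (nat_lit 356188160)) (I.mix (nat_lit 154583040) (nat_lit 103186432)) (I.mix (nat_lit 104742912) (nat_lit 94257152)) (I.mix (nat_lit 168509440) (nat_lit 148422656)))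
  false (nat_lit 0)
def b1_1 : Bx := Bx.mk (St.mk (I.pos (nat_lit 65011712) (nat_lit 129482752)) (I.neg (nat_lit 1835008) (nat_lit 68141056)) (I.mix (nat_lit 59424768) (nat_lit 2129920)) (I.pos (nat_lit 169820160) (nat_lit 217972736)) (I.mix (nat_lit 114999296) (nat_lit 99860480)) (I.mix (nat_lit 83460096) (nat_lit 105594880)) (I.mix (nat_lit 78954496) (nat_lit 100581376)))
  false (nat_lit 0)
def b1_2 : Bx := Bx.mk (St.mk (I.pos (nat_lit 19857408) (nat_lit 59260928)) (I.mix (nat_lit 11698176) (nat_lit 49889280)) (I.mix (nat_lit 23838720) (nat_lit 3948544)) (I.pos (nat_lit 149274624) (nat_lit 166379520)) (I.mix (nat_lit 75825152) (nat_lit 93552640)) (I.mix (nat_lit 85606400) (nat_lit 61669376)) (I.mix (nat_lit 49545216) (nat_lit 28491776)))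
  false (nat_lit 0)
def b1_3 : Bx := Bx.mk (St.mk (I.neg (nat_lit 2834432) (nat_lit 33079296)) (I.mix (nat_lit 39944192) (nat_lit 9355264)) (I.mix (nat_lit 1785856) (nat_lit 3768320)) (I.pos (nat_lit 147718144) (nat_lit 157614080)) (I.mix (nat_lit 56442880) (nat_lit 73302016)) (I.mix (nat_lit 46022656) (nat_lit 67796992)) (I.mix (nat_lit 7438336) (nat_lit 10534912)))
  true (nat_lit 0)
def b1_4 : Bx := Bx.mk (St.mk (I.pos (nat_lit 129417216) (nat_lit 184107008)) (I.mix (nat_lit 3309568) (nat_lit 56901632)) (I.pos (nat_lit 17432576) (nat_lit 84803584)) (I.pos (nat_lit 227115008) (nat_lit 297353216)) (I.mix (nat_lit 180486144) (nat_lit 56999936)) (I.mix (nat_lit 173047808) (nat_lit 87752704)) (I.mix (nat_lit 174522368) (nat_lit 98795520)))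
  false (nat_lit 0)
def b1_5 : Bx := Bx.mk (St.mk (I.pos (nat_lit 55017472) (nat_lit 95191040)) (I.mix (nat_lit 63012864) (nat_lit 14581760)) (I.neg (nat_lit 11567104) (nat_lit 54804480)) (I.pos (nat_lit 158711808) (nat_lit 189972480)) (I.mix (nat_lit 128696320) (nat_lit 73891840)) (I.mix (nat_lit 70107136) (nat_lit 119029760)) (I.mix (nat_lit 51789824) (nat_lit 67174400)))
  false (nat_lit 0)
def b1_6 : Bx := Bx.mk (St.mk (I.mix (nat_lit 1933312) (nat_lit 31342592)) (I.mix (nat_lit 9617408) (nat_lit 39944192)) (I.mix (nat_lit 1769472) (nat_lit 3768320)) (I.pos (nat_lit 147652608) (nat_lit 156155904)) (I.mix (nat_lit 73302016) (nat_lit 56442880)) (I.mix (nat_lit 67796992) (nat_lit 46022656)) (I.mix (nat_lit 7438336) (nat_lit 10534912)))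
  false (nat_lit 0)
def b1_7 : Bx := Bx.mk (St.mk (I.neg (nat_lit 19857408) (nat_lit 62488576)) (I.mix (nat_lit 49889280) (nat_lit 11698176)) (I.mix (nat_lit 23838720) (nat_lit 3948544)) (I.pos (nat_lit 149274624) (nat_lit 166379520)) (I.mix (nat_lit 93552640) (nat_lit 75825152)) (I.mix (nat_lit 61669376) (nat_lit 85606400)) (I.mix (nat_lit 49545216) (nat_lit 28491776)))
  true (nat_lit 0)
def b1_8 : Bx := Bx.mk (St.mk (I.pos (nat_lit 179191808) (nat_lit 236109824)) (I.mix (nat_lit 19365888) (nat_lit 36618240)) (I.mix (nat_lit 72007680) (nat_lit 23281664)) (I.pos (nat_lit 299712512) (nat_lit 380518400)) (I.mix (nat_lit 160497664) (nat_lit 68517888)) (I.mix (nat_lit 110149632) (nat_lit 108560384)) (I.mix (nat_lit 183959552) (nat_lit 191627264)))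
  false (nat_lit 0)
def b1_9 : Bx := Bx.mk (St.mk (I.pos (nat_lit 128974848) (nat_lit 169623552)) (I.neg (nat_lit 884736) (nat_lit 46170112)) (I.mix (nat_lit 37126144) (nat_lit 11845632)) (I.pos (nat_lit 224329728) (nat_lit 266862592)) (I.mix (nat_lit 92585984) (nat_lit 95289344)) (I.mix (nat_lit 97452032) (nat_lit 84230144)) (I.mix (nat_lit 100040704) (nat_lit 82149376)))
  false (nat_lit 0)
def b1_10 : Bx := Bx.mk (St.mk (I.pos (nat_lit 163053568) (nat_lit 221249536)) (I.pos (nat_lit 9437184) (nat_lit 67862528)) (I.mix (nat_lit 6766592) (nat_lit 88752128)) (I.pos (nat_lit 284033024) (nat_lit 364396544)) (I.mix (nat_lit 161464320) (nat_lit 129024000)) (I.mix (nat_lit 149946368) (nat_lit 122159104)) (I.mix (nat_lit 259342336) (nat_lit 199131136)))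
  false (nat_lit 0)
def b1_11 : Bx := Bx.mk (St.mk (I.pos (nat_lit 129646592) (nat_lit 177995776)) (I.mix (nat_lit 23052288) (nat_lit 33423360)) (I.mix (nat_lit 4259840) (nat_lit 57458688)) (I.pos (nat_lit 224968704) (nat_lit 278888448)) (I.mix (nat_lit 182796288) (nat_lit 112099328)) (I.mix (nat_lit 187121664) (nat_lit 115195904)) (I.mix (nat_lit 186138624) (nat_lit 124338176)))
  false (nat_lit 0)
def b1_12 : Bx := Bx.mk (St.mk (I.pos (nat_lit 91095040) (nat_lit 136265728)) (I.mix (nat_lit 35700736) (nat_lit 360448)) (I.mix (nat_lit 28131328) (nat_lit 6438912)) (I.pos (nat_lit 187170816) (nat_lit 225017856)) (I.mix (nat_lit 108855296) (nat_lit 48873472)) (I.mix (nat_lit 56819712) (nat_lit 70991872)) (I.mix (nat_lit 55214080) (nat_lit 63029248)))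
  false (nat_lit 0)
def b1_13 : Bx := Bx.mk (St.mk (I.pos (nat_lit 31916032) (nat_lit 63324160)) (I.mix (nat_lit 15712256) (nat_lit 20627456)) (I.neg (nat_lit 7618560) (nat_lit 24707072)) (I.pos (nat_lit 149061632) (nat_lit 165429248)) (I.mix (nat_lit 74842112) (nat_lit 44220416)) (I.mix (nat_lit 48594944) (nat_lit 51462144)) (I.mix (nat_lit 27983872) (nat_lit 27099136)))
  false (nat_lit 0)
def b1_14 : Bx := Bx.mk (St.mk (I.mix (nat_lit 23625728) (nat_lit 2031616)) (I.mix (nat_lit 14155776) (nat_lit 12484608)) (I.mix (nat_lit 1769472) (nat_lit 1097728)) (I.pos (nat_lit 147554304) (nat_lit 151683072)) (I.mix (nat_lit 51937280) (nat_lit 32653312)) (I.mix (nat_lit 32260096) (nat_lit 34652160)) (I.mix (nat_lit 5111808) (nat_lit 3850240)))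
  true (nat_lit 0)
def b1_15 : Bx := Bx.mk (St.mk (I.pos (nat_lit 196837376) (nat_lit 215515136)) (I.pos (nat_lit 12926976) (nat_lit 26836992)) (I.mix (nat_lit 5406720) (nat_lit 10649600)) (I.pos (nat_lit 328712192) (nat_lit 345341952)) (I.neg (nat_lit 14909440) (nat_lit 53264384)) (I.mix (nat_lit 17137664) (nat_lit 6569984)) (I.mix (nat_lit 27197440) (nat_lit 8421376)))
  false (nat_lit 0)
def b1_16 : Bx := Bx.mk (St.mk (I.pos (nat_lit 141164544) (nat_lit 161562624)) (I.neg (nat_lit 1490944) (nat_lit 22380544)) (I.mix (nat_lit 8880128) (nat_lit 13729792)) (I.pos (nat_lit 236175360) (nat_lit 256262144)) (I.mix (nat_lit 63160320) (nat_lit 45449216)) (I.mix (nat_lit 55394304) (nat_lit 52264960)) (I.mix (nat_lit 54509568) (nat_lit 56393728)))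
  false (nat_lit 0)
def b1_17 : Bx := Bx.mk (St.mk (I.pos (nat_lit 194347008) (nat_lit 242761728)) (I.mix (nat_lit 20135936) (nat_lit 19398656)) (I.neg (nat_lit 8699904) (nat_lit 75694080)) (I.pos (nat_lit 323272704) (nat_lit 402046976)) (I.mix (nat_lit 152240128) (nat_lit 30294016)) (I.mix (nat_lit 81788928) (nat_lit 85671936)) (I.mix (nat_lit 144637952) (nat_lit 165593088)))
  false (nat_lit 0)
def b1_18 : Bx := Bx.mk (St.mk (I.pos (nat_lit 125943808) (nat_lit 158908416)) (I.neg (nat_lit 12320768) (nat_lit 44417024)) (I.neg (nat_lit 3522560) (nat_lit 37535744)) (I.pos (nat_lit 216891392) (nat_lit 253018112)) (I.mix (nat_lit 86179840) (nat_lit 70860800)) (I.mix (nat_lit 81772544) (nat_lit 65306624)) (I.mix (nat_lit 89161728) (nat_lit 60506112)))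
  false (nat_lit 0)
def t1 : BTr := (BTr.n (BTr.n (BTr.n (BTr.n (BTr.b b1_0) (BTr.b b1_1)) (BTr.n (BTr.b b1_2) (BTr.b b1_3))) (BTr.n (BTr.n (BTr.b b1_4) (BTr.b b1_5)) (BTr.n (BTr.b b1_6) (BTr.n (BTr.b b1_7) (BTr.b b1_8))))) (BTr.n (BTr.n (BTr.n (BTr.b b1_9) (BTr.b b1_10)) (BTr.n (BTr.b b1_11) (BTr.n (BTr.b b1_12) (BTr.b b1_13)))) (BTr.n (BTr.n (BTr.b b1_14) (BTr.b b1_15)) (BTr.n (BTr.b b1_16) (BTr.n (BTr.b b1_17) (BTr.b b1_18))))))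
namespace T1
def l0 : Tr := Tr.L (Pth.l (Pth.l (Pth.l (Pth.l Pth.z))))
def l1 : Tr := Tr.L (Pth.l (Pth.l (Pth.l (Pth.r Pth.z))))
def l2 : Tr := Tr.L (Pth.l (Pth.l (Pth.r (Pth.l Pth.z))))
def l3 : Tr := Tr.L (Pth.l (Pth.l (Pth.r (Pth.r Pth.z))))
def l4 : Tr := Tr.L (Pth.l (Pth.r (Pth.l (Pth.l Pth.z))))
def l5 : Tr := Tr.L (Pth.l (Pth.r (Pth.l (Pth.r Pth.z))))
def l6 : Tr := Tr.L (Pth.l (Pth.r (Pth.r (Pth.l Pth.z))))
def l7 : Tr := Tr.L (Pth.l (Pth.r (Pth.r (Pth.r (Pth.l Pth.z)))))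
def l8 : Tr := Tr.L (Pth.l (Pth.r (Pth.r (Pth.r (Pth.r Pth.z)))))
def l9 : Tr := Tr.L (Pth.r (Pth.l (Pth.l (Pth.l Pth.z))))
def l10 : Tr := Tr.L (Pth.r (Pth.l (Pth.l (Pth.r Pth.z))))
def l11 : Tr := Tr.L (Pth.r (Pth.l (Pth.r (Pth.l Pth.z))))
def l12 : Tr := Tr.L (Pth.r (Pth.l (Pth.r (Pth.r (Pth.l Pth.z)))))
def l13 : Tr := Tr.L (Pth.r (Pth.l (Pth.r (Pth.r (Pth.r Pth.z)))))
def l14 : Tr := Tr.L (Pth.r (Pth.r (Pth.l (Pth.l Pth.z))))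
def l15 : Tr := Tr.L (Pth.r (Pth.r (Pth.l (Pth.r Pth.z))))
def l16 : Tr := Tr.L (Pth.r (Pth.r (Pth.r (Pth.l Pth.z))))
def l17 : Tr := Tr.L (Pth.r (Pth.r (Pth.r (Pth.r (Pth.l Pth.z)))))
def l18 : Tr := Tr.L (Pth.r (Pth.r (Pth.r (Pth.r (Pth.r Pth.z)))))
end T1
def b2_0 : Bx := Bx.mk (St.mk (I.pos (nat_lit 127270912) (nat_lit 215302144)) (I.mix (nat_lit 278528) (nat_lit 86999040)) (I.mix (nat_lit 278528) (nat_lit 120012800)) (I.pos (nat_lit 381599744) (nat_lit 481492992)) (I.mix (nat_lit 218398720) (nat_lit 100958208)) (I.mix (nat_lit 132562944) (nat_lit 112345088)) (I.mix (nat_lit 178225152) (nat_lit 174751744)))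
  false (nat_lit 46460523)
def b2_1 : Bx := Bx.mk (St.mk (I.pos (nat_lit 24395776) (nat_lit 105168896)) (I.mix (nat_lit 96436224) (nat_lit 131072)) (I.mix (nat_lit 54509568) (nat_lit 27672576)) (I.pos (nat_lit 283656192) (nat_lit 333447168)) (I.mix (nat_lit 144605184) (nat_lit 127369216)) (I.mix (nat_lit 117587968) (nat_lit 120832000)) (I.mix (nat_lit 120422400) (nat_lit 111771648)))
  false (nat_lit 79114719)
def b2_2 : Bx := Bx.mk (St.mk (I.pos (nat_lit 97779712) (nat_lit 176390144)) (I.mix (nat_lit 47759360) (nat_lit 76775424)) (I.mix (nat_lit 13402112) (nat_lit 120733696)) (I.pos (nat_lit 322158592) (nat_lit 425148416)) (I.mix (nat_lit 247332864) (nat_lit 124485632)) (I.mix (nat_lit 209813504) (nat_lit 154763264)) (I.mix (nat_lit 213155840) (nat_lit 198180864)))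
  false (nat_lit 61478924)
def b2_3 : Bx := Bx.mk (St.mk (I.neg (nat_lit 24379392) (nat_lit 110968832)) (I.mix (nat_lit 131072) (nat_lit 96436224)) (I.mix (nat_lit 54509568) (nat_lit 27672576)) (I.pos (nat_lit 283639808) (nat_lit 335101952)) (I.mix (nat_lit 127385600) (nat_lit 144621568)) (I.mix (nat_lit 120832000) (nat_lit 117587968)) (I.mix (nat_lit 120422400) (nat_lit 111837184)))
  true (nat_lit 0)
def b2_4 : Bx := Bx.mk (St.mk (I.pos (nat_lit 73007104) (nat_lit 111345664)) (I.mix (nat_lit 41844736) (nat_lit 753664)) (I.mix (nat_lit 8749056) (nat_lit 28229632)) (I.pos (nat_lit 302596096) (nat_lit 335708160)) (I.mix (nat_lit 103825408) (nat_lit 88457216)) (I.mix (nat_lit 69287936) (nat_lit 86327296)) (I.mix (nat_lit 67158016) (nat_lit 69746688)))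
  false (nat_lit 0)
def b2_5 : Bx := Bx.mk (St.mk (I.mix (nat_lit 63488000) (nat_lit 9420800)) (I.mix (nat_lit 4734976) (nat_lit 88506368)) (I.neg (nat_lit 25067520) (nat_lit 48316416)) (I.pos (nat_lit 277397504) (nat_lit 309723136)) (I.mix (nat_lit 92061696) (nat_lit 145047552)) (I.mix (nat_lit 119996416) (nat_lit 111575040)) (I.mix (nat_lit 66338816) (nat_lit 43548672)))
  true (nat_lit 0)
def b2_6 : Bx := Bx.mk (St.mk (I.pos (nat_lit 13352960) (nat_lit 63488000)) (I.neg (nat_lit 31408128) (nat_lit 88506368)) (I.neg (nat_lit 25837568) (nat_lit 48316416)) (I.pos (nat_lit 282836992) (nat_lit 309739520)) (I.mix (nat_lit 145047552) (nat_lit 84180992)) (I.mix (nat_lit 111575040) (nat_lit 119996416)) (I.mix (nat_lit 66338816) (nat_lit 43548672)))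
  false (nat_lit 55538016)
def b2_7 : Bx := Bx.mk (St.mk (I.pos (nat_lit 165658624) (nat_lit 224002048)) (I.mix (nat_lit 8077312) (nat_lit 43106304)) (I.mix (nat_lit 45793280) (nat_lit 32325632)) (I.pos (nat_lit 410828800) (nat_lit 484261888)) (I.mix (nat_lit 160301056) (nat_lit 75317248)) (I.mix (nat_lit 103743488) (nat_lit 103579648)) (I.mix (nat_lit 157089792) (nat_lit 169607168)))
  false (nat_lit 0)
def b2_8 : Bx := Bx.mk (St.mk (I.pos (nat_lit 12320768) (nat_lit 44351488)) (I.mix (nat_lit 38813696) (nat_lit 2850816)) (I.neg (nat_lit 25018368) (nat_lit 33505280)) (I.pos (nat_lit 278659072) (nat_lit 290029568)) (I.mix (nat_lit 63012864) (nat_lit 83361792)) (I.mix (nat_lit 67272704) (nat_lit 58851328)) (I.mix (nat_lit 21512192) (nat_lit 17285120)))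
  false (nat_lit 0)
def b2_9 : Bx := Bx.mk (St.mk (I.pos (nat_lit 209993728) (nat_lit 256049152)) (I.mix (nat_lit 1114112) (nat_lit 52887552)) (I.mix (nat_lit 48742400) (nat_lit 41336832)) (I.pos (nat_lit 480624640) (nat_lit 554811392)) (I.mix (nat_lit 121421824) (nat_lit 88293376)) (I.mix (nat_lit 98435072) (nat_lit 93585408)) (I.mix (nat_lit 173309952) (nat_lit 167690240)))
  false (nat_lit 0)
def b2_10 : Bx := Bx.mk (St.mk (I.mix (nat_lit 6897664) (nat_lit 16105472)) (I.mix (nat_lit 29229056) (nat_lit 262144)) (I.neg (nat_lit 28131328) (nat_lit 32342016)) (I.pos (nat_lit 277364736) (nat_lit 283115520)) (I.mix (nat_lit 59015168) (nat_lit 46858240)) (I.mix (nat_lit 43352064) (nat_lit 44892160)) (I.mix (nat_lit 8929280) (nat_lit 6995968)))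
  false (nat_lit 0)
def b2_11 : Bx := Bx.mk (St.mk (I.mix (nat_lit 9437184) (nat_lit 8044544)) (I.mix (nat_lit 2719744) (nat_lit 19267584)) (I.neg (nat_lit 29966336) (nat_lit 32129024)) (I.pos (nat_lit 277233664) (nat_lit 281788416)) (I.mix (nat_lit 16449536) (nat_lit 33734656)) (I.mix (nat_lit 20234240) (nat_lit 12877824)) (I.neg (nat_lit 1015808) (nat_lit 4898816)))
  true (nat_lit 0)
def b2_12 : Bx := Bx.mk (St.mk (I.pos (nat_lit 147587072) (nat_lit 201654272)) (I.pos (nat_lit 27213824) (nat_lit 82345984)) (I.pos (nat_lit 23134208) (nat_lit 105824256)) (I.pos (nat_lit 398917632) (nat_lit 463159296)) (I.mix (nat_lit 180125696) (nat_lit 114573312)) (I.mix (nat_lit 147931136) (nat_lit 98205696)) (I.mix (nat_lit 239681536) (nat_lit 158023680)))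
  false (nat_lit 3544879)
def b2_13 : Bx := Bx.mk (St.mk (I.pos (nat_lit 13877248) (nat_lit 49430528)) (I.neg (nat_lit 19529728) (nat_lit 70877184)) (I.neg (nat_lit 28016640) (nat_lit 44597248)) (I.pos (nat_lit 282017792) (nat_lit 297877504)) (I.mix (nat_lit 118079488) (nat_lit 92061696)) (I.mix (nat_lit 81477632) (nat_lit 117293056)) (I.mix (nat_lit 37388288) (nat_lit 28524544)))
  false (nat_lit 15911775)
def b2_14 : Bx := Bx.mk (St.mk (I.pos (nat_lit 181551104) (nat_lit 232095744)) (I.mix (nat_lit 8372224) (nat_lit 44056576)) (I.mix (nat_lit 49790976) (nat_lit 34111488)) (I.pos (nat_lit 432128000) (nat_lit 500629504)) (I.mix (nat_lit 136396800) (nat_lit 101711872)) (I.mix (nat_lit 105431040) (nat_lit 95158272)) (I.mix (nat_lit 171261952) (nat_lit 165478400)))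
  false (nat_lit 0)
def b2_15 : Bx := Bx.mk (St.mk (I.pos (nat_lit 7815168) (nat_lit 34652160)) (I.mix (nat_lit 32047104) (nat_lit 3440640)) (I.neg (nat_lit 25411584) (nat_lit 31555584)) (I.pos (nat_lit 278364160) (nat_lit 286359552)) (I.mix (nat_lit 71303168) (nat_lit 66109440)) (I.mix (nat_lit 57196544) (nat_lit 56672256)) (I.mix (nat_lit 13090816) (nat_lit 12599296)))
  false (nat_lit 0)
def b2_16 : Bx := Bx.mk (St.mk (I.pos (nat_lit 221921280) (nat_lit 262111232)) (I.mix (nat_lit 6193152) (nat_lit 37060608)) (I.mix (nat_lit 70254592) (nat_lit 6471680)) (I.pos (nat_lit 498286592) (nat_lit 568131584)) (I.mix (nat_lit 99745792) (nat_lit 71991296)) (I.mix (nat_lit 78479360) (nat_lit 63766528)) (I.mix (nat_lit 165920768) (nat_lit 114409472)))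
  false (nat_lit 0)
def b2_17 : Bx := Bx.mk (St.mk (I.mix (nat_lit 9306112) (nat_lit 9420800)) (I.mix (nat_lit 18890752) (nat_lit 4734976)) (I.neg (nat_lit 29966336) (nat_lit 32129024)) (I.pos (nat_lit 277233664) (nat_lit 281788416)) (I.mix (nat_lit 47644672) (nat_lit 32571392)) (I.mix (nat_lit 27410432) (nat_lit 37830656)) (I.neg (nat_lit 344064) (nat_lit 5439488)))
  false (nat_lit 0)
def b2_18 : Bx := Bx.mk (St.mk (I.pos (nat_lit 207912960) (nat_lit 237469696)) (I.pos (nat_lit 2277376) (nat_lit 36012032)) (I.mix (nat_lit 38338560) (nat_lit 16154624)) (I.pos (nat_lit 474791936) (nat_lit 511492096)) (I.mix (nat_lit 83001344) (nat_lit 42336256)) (I.mix (nat_lit 64749568) (nat_lit 49217536)) (I.mix (nat_lit 110116864) (nat_lit 87080960)))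
  false (nat_lit 0)
def b2_19 : Bx := Bx.mk (St.mk (I.pos (nat_lit 1966080) (nat_lit 17612800)) (I.neg (nat_lit 2998272) (nat_lit 22757376)) (I.neg (nat_lit 28082176) (nat_lit 31293440)) (I.pos (nat_lit 277708800) (nat_lit 282787840)) (I.mix (nat_lit 41533440) (nat_lit 28147712)) (I.mix (nat_lit 26329088) (nat_lit 33259520)) (I.mix (nat_lit 6176768) (nat_lit 4308992)))
  false (nat_lit 0)
def b2_20 : Bx := Bx.mk (St.mk (I.pos (nat_lit 17842176) (nat_lit 38879232)) (I.neg (nat_lit 12681216) (nat_lit 39698432)) (I.neg (nat_lit 28393472) (nat_lit 34029568)) (I.pos (nat_lit 280248320) (nat_lit 289406976)) (I.mix (nat_lit 52150272) (nat_lit 43745280)) (I.mix (nat_lit 38830080) (nat_lit 47742976)) (I.mix (nat_lit 15106048) (nat_lit 9879552)))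
  false (nat_lit 0)
def t2 : BTr := (BTr.n (BTr.n (BTr.n (BTr.n (BTr.b b2_0) (BTr.b b2_1)) (BTr.n (BTr.b b2_2) (BTr.n (BTr.b b2_3) (BTr.b b2_4)))) (BTr.n (BTr.n (BTr.b b2_5) (BTr.b b2_6)) (BTr.n (BTr.b b2_7) (BTr.n (BTr.b b2_8) (BTr.b b2_9))))) (BTr.n (BTr.n (BTr.n (BTr.b b2_10) (BTr.b b2_11)) (BTr.n (BTr.b b2_12) (BTr.n (BTr.b b2_13) (BTr.b b2_14)))) (BTr.n (BTr.n (BTr.b b2_15) (BTr.n (BTr.b b2_16) (BTr.b b2_17))) (BTr.n (BTr.b b2_18) (BTr.n (BTr.b b2_19) (BTr.b b2_20))))))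
namespace T2
def l0 : Tr := Tr.L (Pth.l (Pth.l (Pth.l (Pth.l Pth.z))))
def l1 : Tr := Tr.L (Pth.l (Pth.l (Pth.l (Pth.r Pth.z))))
def l2 : Tr := Tr.L (Pth.l (Pth.l (Pth.r (Pth.l Pth.z))))
def l3 : Tr := Tr.L (Pth.l (Pth.l (Pth.r (Pth.r (Pth.l Pth.z)))))
def l4 : Tr := Tr.L (Pth.l (Pth.l (Pth.r (Pth.r (Pth.r Pth.z)))))
def l5 : Tr := Tr.L (Pth.l (Pth.r (Pth.l (Pth.l Pth.z))))
def l6 : Tr := Tr.L (Pth.l (Pth.r (Pth.l (Pth.r Pth.z))))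
def l7 : Tr := Tr.L (Pth.l (Pth.r (Pth.r (Pth.l Pth.z))))
def l8 : Tr := Tr.L (Pth.l (Pth.r (Pth.r (Pth.r (Pth.l Pth.z)))))
def l9 : Tr := Tr.L (Pth.l (Pth.r (Pth.r (Pth.r (Pth.r Pth.z)))))
def l10 : Tr := Tr.L (Pth.r (Pth.l (Pth.l (Pth.l Pth.z))))
def l11 : Tr := Tr.L (Pth.r (Pth.l (Pth.l (Pth.r Pth.z))))
def l12 : Tr := Tr.L (Pth.r (Pth.l (Pth.r (Pth.l Pth.z))))
def l13 : Tr := Tr.L (Pth.r (Pth.l (Pth.r (Pth.r (Pth.l Pth.z)))))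
def l14 : Tr := Tr.L (Pth.r (Pth.l (Pth.r (Pth.r (Pth.r Pth.z)))))
def l15 : Tr := Tr.L (Pth.r (Pth.r (Pth.l (Pth.l Pth.z))))
def l16 : Tr := Tr.L (Pth.r (Pth.r (Pth.l (Pth.r (Pth.l Pth.z)))))
def l17 : Tr := Tr.L (Pth.r (Pth.r (Pth.l (Pth.r (Pth.r Pth.z)))))
def l18 : Tr := Tr.L (Pth.r (Pth.r (Pth.r (Pth.l Pth.z))))
def l19 : Tr := Tr.L (Pth.r (Pth.r (Pth.r (Pth.r (Pth.l Pth.z)))))
def l20 : Tr := Tr.L (Pth.r (Pth.r (Pth.r (Pth.r (Pth.r Pth.z)))))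
end T2
theorem bx0_0 : BoxOK sI cl4 cl4 cl5 t0 t2 b0_0 :=
  box_mk (TrL.c (I.pos (nat_lit 0) (nat_lit 0)) (xb (xa (xb (xa T0.l12 T0.l0) (xa T0.l12 T0.l0)) (xb T0.l0 T0.l0)) (xa (xb (xa (xb T0.l0 (xa T0.l0 T0.l0)) (xb T0.l0 T0.l0)) (xa (xb (xs T0.l0 T0.l0) (xs T0.l0 T0.l0)) (xs (xb T0.l0 T0.l0) (xb T0.l0 (xa T0.l0 T0.l0))))) (xb (xa T0.l0 T0.l0) (xa (xs (xb T0.l0 T0.l0) (xb T0.l0 (xa T0.l0 T0.l0))) (xs (xb T0.l0 T0.l0) (xb T0.l0 (xa T0.l0 T0.l0)))))))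
  (TrL.c (I.pos (nat_lit 0) (nat_lit 0)) (xb T2.l1 (xa (xb T2.l1 T2.l1) (xb T2.l1 (xa T2.l1 T2.l1))))
  (TrL.c (I.pos (nat_lit 0) (nat_lit 0)) (xb T0.l1 (xa T0.l1 T0.l1))
  (TrL.c (I.pos (nat_lit 0) (nat_lit 0)) (xb (xa T2.l2 T2.l2) (xa T2.l2 (xb T2.l2 (xa T2.l2 T2.l2))))
  (TrL.c (I.pos (nat_lit 0) (nat_lit 0)) (xb (xa T0.l2 T0.l2) (xa T0.l2 T0.l2))
  (TrL.c (I.pos (nat_lit 0) (nat_lit 0)) (xb T2.l3 (xa (xb T2.l3 T2.l3) (xb T2.l3 (xa T2.l3 T2.l3))))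
  TrL.n)))))) (by decide +kernel)
theorem bx0_1 : BoxOK sI cl4 cl4 cl5 t0 t2 b0_1 :=
  box_mk (TrL.c (I.pos (nat_lit 0) (nat_lit 0)) (xb T2.l4 T2.l4)
  (TrL.c (I.pos (nat_lit 0) (nat_lit 0)) (xb T0.l3 T0.l3)
  TrL.n)) (by decide +kernel)
theorem bx0_2 : BoxOK sI cl4 cl4 cl5 t0 t2 b0_2 :=
  box_mk (TrL.c (I.pos (nat_lit 0) (nat_lit 0)) (xb (xa (xb (xa T0.l4 T0.l4) T0.l4) T0.l9) (xa (xb T0.l4 T0.l4) (xb T0.l4 T0.l4)))
  (TrL.c (I.pos (nat_lit 0) (nat_lit 0)) T2.l1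
  (TrL.c (I.pos (nat_lit 0) (nat_lit 0)) T0.l1
  (TrL.c (I.pos (nat_lit 0) (nat_lit 0)) T2.l2
  (TrL.c (I.pos (nat_lit 0) (nat_lit 0)) T0.l5
  (TrL.c (I.pos (nat_lit 0) (nat_lit 0)) T2.l3
  TrL.n)))))) (by decide +kernel)
theorem bx0_3 : BoxOK sI cl4 cl4 cl5 t0 t2 b0_3 :=
  box_mk (TrL.c (I.pos (nat_lit 0) (nat_lit 0)) T2.l4
  (TrL.c (I.pos (nat_lit 0) (nat_lit 0)) T0.l3
  TrL.n)) (by decide +kernel)
theorem bx0_4 : BoxOK sI cl4 cl4 cl5 t0 t2 b0_4 :=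
  box_mk (TrL.c (I.pos (nat_lit 0) (nat_lit 0)) (xa (xb T0.l0 T0.l0) T0.l7)
  (TrL.c (I.pos (nat_lit 0) (nat_lit 0)) (xa T2.l1 (xb T2.l1 T2.l1))
  (TrL.c (I.pos (nat_lit 0) (nat_lit 0)) (xa T0.l1 T0.l1)
  (TrL.c (I.pos (nat_lit 0) (nat_lit 0)) (xa T2.l2 (xb (xa T2.l2 T2.l2) (xa T2.l2 T2.l2)))
  (TrL.c (I.pos (nat_lit 0) (nat_lit 0)) (xa T0.l2 T0.l6)
  (TrL.c (I.pos (nat_lit 0) (nat_lit 0)) (xa T2.l3 (xb T2.l3 T2.l3))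
  TrL.n)))))) (by decide +kernel)
theorem bx0_5 : BoxOK sI cl4 cl4 cl5 t0 t2 b0_5 :=
  box_mk (TrL.c (I.pos (nat_lit 0) (nat_lit 0)) (xb T0.l4 T0.l4)
  (TrL.c (I.pos (nat_lit 0) (nat_lit 0)) T2.l4
  (TrL.c (I.pos (nat_lit 0) (nat_lit 0)) T0.l3
  (TrL.c (I.pos (nat_lit 0) (nat_lit 0)) T2.l2
  (TrL.c (I.pos (nat_lit 0) (nat_lit 0)) T0.l5
  (TrL.c (I.pos (nat_lit 0) (nat_lit 0)) T2.l3
  TrL.n)))))) (by decide +kernel)
theorem bx0_6 : BoxOK sI cl4 cl4 cl5 t0 t2 b0_6 :=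
  box_mk (TrL.c (I.pos (nat_lit 0) (nat_lit 0)) (xa (xb (xa (xb (xa T0.l9 T0.l9) T0.l9) (xb T0.l9 T0.l9)) (xa (xb T0.l9 T0.l9) (xb T0.l9 T0.l9))) (xb (xa T0.l9 (xb (xa T0.l9 T0.l9) T0.l9)) (xa (xb T0.l9 T0.l9) (xb T0.l9 T0.l9))))
  (TrL.c (I.pos (nat_lit 0) (nat_lit 0)) (xa T2.l1 T2.l1)
  (TrL.c (I.pos (nat_lit 0) (nat_lit 0)) (xa T0.l1 T0.l1)
  (TrL.c (I.pos (nat_lit 0) (nat_lit 0)) (xa T2.l2 T2.l2)
  (TrL.c (I.pos (nat_lit 0) (nat_lit 0)) (xa T0.l10 T0.l10)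
  (TrL.c (I.pos (nat_lit 0) (nat_lit 0)) (xa T2.l3 T2.l3)
  TrL.n)))))) (by decide +kernel)
theorem bx0_7 : BoxOK sI cl4 cl4 cl5 t0 t2 b0_7 :=
  box_mk (TrL.c (I.pos (nat_lit 0) (nat_lit 0)) (xb (xa (xb (xa (xb T0.l12 T0.l12) (xb T0.l12 T0.l12)) (xa (xb T0.l12 T0.l12) T0.l12)) (xb (xa (xb T0.l12 T0.l12) (xa T0.l12 T0.l12)) (xa T0.l12 T0.l12))) (xa (xb (xa (xb T0.l12 T0.l12) T0.l12) (xa (xb (xa T0.l12 T0.l12) (xa T0.l12 T0.l12)) (xb T0.l12 T0.l12))) (xb (xa T0.l12 (xb T0.l12 T0.l12)) (xa (xb T0.l12 (xa T0.l12 T0.l12)) (xb (xa T0.l12 T0.l12) (xa T0.l12 (xs T0.l12 T0.l12)))))))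
  (TrL.c (I.pos (nat_lit 0) (nat_lit 0)) (xb (xa T2.l1 T2.l1) (xa (xb T2.l1 T2.l1) (xb T2.l1 T2.l1)))
  (TrL.c (I.pos (nat_lit 0) (nat_lit 0)) (xa (xb T0.l1 T0.l1) (xb T0.l1 T0.l1))
  (TrL.c (I.pos (nat_lit 0) (nat_lit 0)) (xb (xa T2.l2 (xb T2.l2 T2.l2)) (xa T2.l2 (xb T2.l2 T2.l2)))
  (TrL.c (I.pos (nat_lit 0) (nat_lit 0)) (xb (xa T0.l13 T0.l13) (xa T0.l13 T0.l13))
  (TrL.c (I.pos (nat_lit 0) (nat_lit 0)) (xb (xa T2.l3 T2.l3) (xa (xb T2.l3 T2.l3) (xb T2.l3 T2.l3)))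
  TrL.n)))))) (by decide +kernel)
theorem bx0_8 : BoxOK sI cl4 cl4 cl5 t0 t2 b0_8 :=
  box_mk (TrL.c (I.pos (nat_lit 0) (nat_lit 0)) (xa T2.l1 T2.l1)
  (TrL.c (I.pos (nat_lit 0) (nat_lit 0)) (xa T0.l1 T0.l1)
  TrL.n)) (by decide +kernel)
theorem bx0_9 : BoxOK sI cl4 cl4 cl5 t0 t2 b0_9 :=
  box_mk (TrL.c (I.pos (nat_lit 0) (nat_lit 0)) (xa (xb (xa T0.l0 T0.l0) (xa T0.l0 T0.l0)) (xb T0.l7 (xa T0.l0 T0.l7)))
  (TrL.c (I.pos (nat_lit 0) (nat_lit 0)) (xa T2.l1 T2.l1)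
  (TrL.c (I.pos (nat_lit 0) (nat_lit 0)) (xa T0.l1 T0.l1)
  (TrL.c (I.pos (nat_lit 0) (nat_lit 0)) (xa T2.l2 (xb T2.l2 (xa T2.l2 T2.l2)))
  (TrL.c (I.pos (nat_lit 0) (nat_lit 0)) (xa T0.l2 T0.l2)
  (TrL.c (I.pos (nat_lit 0) (nat_lit 0)) (xa T2.l3 T2.l3)
  TrL.n)))))) (by decide +kernel)
theorem bx0_10 : BoxOK sI cl4 cl4 cl5 t0 t2 b0_10 :=
  box_mk (TrL.c (I.pos (nat_lit 0) (nat_lit 0)) (xb T0.l4 (xa T0.l4 T0.l4))
  (TrL.c (I.pos (nat_lit 0) (nat_lit 0)) T2.l4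
  (TrL.c (I.pos (nat_lit 0) (nat_lit 0)) T0.l3
  (TrL.c (I.pos (nat_lit 0) (nat_lit 0)) T2.l2
  (TrL.c (I.pos (nat_lit 0) (nat_lit 0)) T0.l5
  (TrL.c (I.pos (nat_lit 0) (nat_lit 0)) T2.l3
  TrL.n)))))) (by decide +kernel)
theorem bx0_11 : BoxOK sI cl4 cl4 cl5 t0 t2 b0_11 :=
  box_mk (TrL.c (I.pos (nat_lit 0) (nat_lit 0)) T0.l9
  (TrL.c (I.pos (nat_lit 0) (nat_lit 0)) T2.l1
  (TrL.c (I.pos (nat_lit 0) (nat_lit 0)) T0.l1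
  (TrL.c (I.pos (nat_lit 0) (nat_lit 0)) T2.l2
  (TrL.c (I.pos (nat_lit 0) (nat_lit 0)) T0.l10
  (TrL.c (I.pos (nat_lit 0) (nat_lit 0)) T2.l3
  TrL.n)))))) (by decide +kernel)
theorem bx0_12 : BoxOK sI cl4 cl4 cl5 t0 t2 b0_12 :=
  box_mk (TrL.c (I.pos (nat_lit 0) (nat_lit 0)) (xa (xb (xa (xb T0.l0 T0.l0) (xb T0.l0 T0.l0)) (xa (xb (xs T0.l0 T0.l0) (xs T0.l0 (xa T0.l0 T0.l0))) (xb T0.l0 (xs T0.l0 T0.l0)))) (xb (xa T0.l0 (xb T0.l0 T0.l0)) (xa (xb T0.l0 (xs T0.l0 T0.l0)) (xb (xs T0.l0 T0.l0) (xs T0.l0 (xa T0.l0 T0.l0))))))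
  (TrL.c (I.pos (nat_lit 0) (nat_lit 0)) (xa (xb T2.l1 (xa T2.l1 T2.l1)) (xb T2.l1 (xa T2.l1 T2.l1)))
  (TrL.c (I.pos (nat_lit 0) (nat_lit 0)) (xa T0.l1 (xs T0.l1 (xb T0.l1 T0.l1)))
  (TrL.c (I.pos (nat_lit 0) (nat_lit 0)) (xa (xb T2.l2 T2.l2) (xb (xa T2.l2 T2.l2) (xa T2.l2 (xs T2.l2 T2.l2))))
  (TrL.c (I.pos (nat_lit 0) (nat_lit 0)) (xa T0.l2 (xs T0.l2 (xb T0.l2 T0.l2)))
  (TrL.c (I.pos (nat_lit 0) (nat_lit 0)) (xa (xb T2.l3 (xa T2.l3 T2.l3)) (xb T2.l3 (xa T2.l3 T2.l3)))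
  TrL.n)))))) (by decide +kernel)
theorem bx0_13 : BoxOK sI cl4 cl4 cl5 t0 t2 b0_13 :=
  box_mk (TrL.c (I.pos (nat_lit 0) (nat_lit 0)) (xb (xa (xb T0.l4 T0.l4) T0.l4) (xa T0.l4 T0.l4))
  (TrL.c (I.pos (nat_lit 0) (nat_lit 0)) T2.l4
  (TrL.c (I.pos (nat_lit 0) (nat_lit 0)) T0.l1
  (TrL.c (I.pos (nat_lit 0) (nat_lit 0)) T2.l2
  (TrL.c (I.pos (nat_lit 0) (nat_lit 0)) T0.l5
  (TrL.c (I.pos (nat_lit 0) (nat_lit 0)) T2.l3
  TrL.n)))))) (by decide +kernel)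
theorem sv0 : StarV sI cl4 cl4 cl5 t0 t2 t0 :=
  (bt_n (bt_n (bt_n (bt_b bx0_0) (bt_n (bt_b bx0_1) (bt_b bx0_2))) (bt_n (bt_n (bt_b bx0_3) (bt_b bx0_4)) (bt_n (bt_b bx0_5) (bt_b bx0_6)))) (bt_n (bt_n (bt_b bx0_7) (bt_n (bt_b bx0_8) (bt_b bx0_9))) (bt_n (bt_n (bt_b bx0_10) (bt_b bx0_11)) (bt_n (bt_b bx0_12) (bt_b bx0_13)))))
def S0 : StarD := StarD.mk cl4 cl4 cl5 0 2 t0
theorem bx1_0 : BoxOK sI cl4 cl5 cl4 t2 t0 b1_0 :=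
  box_mk (TrL.c (I.pos (nat_lit 0) (nat_lit 0)) (xa (xb (xa (xb T2.l0 T2.l0) T2.l0) (xa (xb (xa T2.l0 T2.l0) (xs (xa T2.l0 T2.l0) (xa T2.l0 T2.l0))) (xb (xa T2.l0 T2.l0) (xs (xa T2.l0 T2.l0) (xa T2.l0 T2.l0))))) (xb (xa T2.l0 (xb T2.l0 T2.l0)) (xa (xb T2.l0 (xs (xa T2.l0 T2.l0) (xa T2.l0 T2.l0))) (xb (xs T2.l0 T2.l0) (xs (xa T2.l0 T2.l0) (xa T2.l0 (xb T2.l0 T2.l0)))))))
  (TrL.c (I.pos (nat_lit 0) (nat_lit 0)) (xa (xb T0.l6 (xa T0.l6 T0.l6)) (xb T0.l6 (xa T0.l6 (xb T0.l6 T0.l6))))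
  (TrL.c (I.pos (nat_lit 0) (nat_lit 0)) (xa T2.l5 T2.l5)
  (TrL.c (I.pos (nat_lit 0) (nat_lit 0)) (xa T0.l7 (xb T0.l7 T0.l7))
  (TrL.c (I.pos (nat_lit 0) (nat_lit 0)) (xa T2.l6 T2.l6)
  (TrL.c (I.pos (nat_lit 0) (nat_lit 0)) (xa (xb T0.l8 (xa T0.l8 T0.l8)) (xb T0.l8 (xa T0.l8 (xb T0.l8 T0.l8))))
  TrL.n)))))) (by decide +kernel)
theorem bx1_1 : BoxOK sI cl4 cl5 cl4 t2 t0 b1_1 :=
  box_mk (TrL.c (I.pos (nat_lit 0) (nat_lit 0)) (xa (xb (xa T2.l7 T2.l7) (xa T2.l7 T2.l7)) (xb (xa T2.l7 T2.l7) (xa T2.l7 T2.l0)))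
  (TrL.c (I.pos (nat_lit 0) (nat_lit 0)) (xa T0.l6 T0.l6)
  (TrL.c (I.pos (nat_lit 0) (nat_lit 0)) T2.l5
  (TrL.c (I.pos (nat_lit 0) (nat_lit 0)) (xa T0.l7 T0.l7)
  (TrL.c (I.pos (nat_lit 0) (nat_lit 0)) T2.l8
  (TrL.c (I.pos (nat_lit 0) (nat_lit 0)) (xa T0.l8 T0.l8)
  TrL.n)))))) (by decide +kernel)
theorem bx1_2 : BoxOK sI cl4 cl5 cl4 t2 t0 b1_2 :=
  box_mk (TrL.c (I.pos (nat_lit 0) (nat_lit 0)) (xb (xa T2.l9 T2.l9) (xa T2.l9 T2.l9))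
  (TrL.c (I.pos (nat_lit 0) (nat_lit 0)) T0.l6
  (TrL.c (I.pos (nat_lit 0) (nat_lit 0)) T2.l5
  (TrL.c (I.pos (nat_lit 0) (nat_lit 0)) T0.l7
  (TrL.c (I.pos (nat_lit 0) (nat_lit 0)) T2.l10
  (TrL.c (I.pos (nat_lit 0) (nat_lit 0)) T0.l8
  TrL.n)))))) (by decide +kernel)
theorem bx1_3 : BoxOK sI cl4 cl5 cl4 t2 t0 b1_3 :=
  box_mk (TrL.c (I.pos (nat_lit 0) (nat_lit 0)) T0.l6
  (TrL.c (I.pos (nat_lit 0) (nat_lit 0)) T2.l5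
  TrL.n)) (by decide +kernel)
theorem bx1_4 : BoxOK sI cl4 cl5 cl4 t2 t0 b1_4 :=
  box_mk (TrL.c (I.pos (nat_lit 0) (nat_lit 0)) (xa (xb (xb T2.l12 (xa T2.l12 T2.l12)) (xa (xb T2.l12 (xs T2.l12 T2.l12)) (xb T2.l12 (xs T2.l12 T2.l12)))) (xb (xb (xa T2.l12 T2.l12) (xa T2.l12 T2.l12)) (xa (xb T2.l12 (xs T2.l12 T2.l12)) (xb (xs T2.l12 T2.l12) (xs T2.l12 T2.l12)))))
  (TrL.c (I.pos (nat_lit 0) (nat_lit 0)) (xa (xb T0.l6 T0.l6) (xb T0.l6 T0.l6))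
  (TrL.c (I.pos (nat_lit 0) (nat_lit 0)) (xa T2.l5 T2.l5)
  (TrL.c (I.pos (nat_lit 0) (nat_lit 0)) (xa T0.l7 T0.l7)
  (TrL.c (I.pos (nat_lit 0) (nat_lit 0)) (xa T2.l13 T2.l6)
  (TrL.c (I.pos (nat_lit 0) (nat_lit 0)) (xa (xb T0.l8 T0.l8) (xb T0.l8 T0.l8))
  TrL.n)))))) (by decide +kernel)
theorem bx1_5 : BoxOK sI cl4 cl5 cl4 t2 t0 b1_5 :=
  box_mk (TrL.c (I.pos (nat_lit 0) (nat_lit 0)) (xb (xa (xb T2.l14 T2.l14) (xb T2.l7 T2.l14)) (xa T2.l14 T2.l14))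
  (TrL.c (I.pos (nat_lit 0) (nat_lit 0)) (xb T0.l6 T0.l6)
  (TrL.c (I.pos (nat_lit 0) (nat_lit 0)) T2.l5
  (TrL.c (I.pos (nat_lit 0) (nat_lit 0)) (xb T0.l7 T0.l7)
  (TrL.c (I.pos (nat_lit 0) (nat_lit 0)) T2.l15
  (TrL.c (I.pos (nat_lit 0) (nat_lit 0)) (xb T0.l8 T0.l8)
  TrL.n)))))) (by decide +kernel)
theorem bx1_6 : BoxOK sI cl4 cl5 cl4 t2 t0 b1_6 :=
  box_mk (TrL.c (I.pos (nat_lit 0) (nat_lit 0)) (xb T2.l16 (xa T2.l16 T2.l9))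
  (TrL.c (I.pos (nat_lit 0) (nat_lit 0)) T0.l6
  (TrL.c (I.pos (nat_lit 0) (nat_lit 0)) T2.l5
  (TrL.c (I.pos (nat_lit 0) (nat_lit 0)) T0.l7
  (TrL.c (I.pos (nat_lit 0) (nat_lit 0)) T2.l17
  (TrL.c (I.pos (nat_lit 0) (nat_lit 0)) T0.l8
  TrL.n)))))) (by decide +kernel)
theorem bx1_7 : BoxOK sI cl4 cl5 cl4 t2 t0 b1_7 :=
  box_mk (TrL.c (I.pos (nat_lit 0) (nat_lit 0)) T0.l6
  (TrL.c (I.pos (nat_lit 0) (nat_lit 0)) T2.l5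
  TrL.n)) (by decide +kernel)
theorem bx1_8 : BoxOK sI cl4 cl5 cl4 t2 t0 b1_8 :=
  box_mk (TrL.c (I.pos (nat_lit 0) (nat_lit 0)) (xa (xb (xa T2.l0 T2.l2) (xa (xb T2.l0 T2.l0) T2.l0)) (xb T2.l2 T2.l2))
  (TrL.c (I.pos (nat_lit 0) (nat_lit 0)) (xa T0.l6 (xb T0.l6 T0.l6))
  (TrL.c (I.pos (nat_lit 0) (nat_lit 0)) T2.l5
  (TrL.c (I.pos (nat_lit 0) (nat_lit 0)) (xa T0.l7 (xb T0.l7 T0.l7))
  (TrL.c (I.pos (nat_lit 0) (nat_lit 0)) T2.l1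
  (TrL.c (I.pos (nat_lit 0) (nat_lit 0)) (xa T0.l8 (xb T0.l8 T0.l8))
  TrL.n)))))) (by decide +kernel)
theorem bx1_9 : BoxOK sI cl4 cl5 cl4 t2 t0 b1_9 :=
  box_mk (TrL.c (I.pos (nat_lit 0) (nat_lit 0)) T2.l0
  (TrL.c (I.pos (nat_lit 0) (nat_lit 0)) T0.l6
  (TrL.c (I.pos (nat_lit 0) (nat_lit 0)) T2.l5
  (TrL.c (I.pos (nat_lit 0) (nat_lit 0)) T0.l7
  (TrL.c (I.pos (nat_lit 0) (nat_lit 0)) T2.l13
  (TrL.c (I.pos (nat_lit 0) (nat_lit 0)) T0.l8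
  TrL.n)))))) (by decide +kernel)
theorem bx1_10 : BoxOK sI cl4 cl5 cl4 t2 t0 b1_10 :=
  box_mk (TrL.c (I.pos (nat_lit 0) (nat_lit 0)) (xa (xb (xa (xb T2.l0 (xs T2.l0 T2.l0)) (xb T2.l0 T2.l0)) (xa (xb (xs T2.l0 T2.l0) (xs T2.l0 (xa T2.l0 T2.l0))) (xb (xs T2.l0 T2.l0) (xs T2.l0 (xa T2.l0 T2.l0))))) (xb (xa (xb T2.l0 T2.l0) (xb T2.l2 (xs T2.l0 T2.l0))) (xa (xb (xs T2.l0 T2.l0) (xs T2.l0 (xa T2.l0 T2.l0))) (xb (xs T2.l0 (xa T2.l0 T2.l0)) (xs (xa T2.l0 T2.l0) (xa T2.l0 T2.l0))))))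
  (TrL.c (I.pos (nat_lit 0) (nat_lit 0)) (xa (xb T0.l6 (xa T0.l6 T0.l6)) (xb T0.l6 (xa T0.l6 T0.l6)))
  (TrL.c (I.pos (nat_lit 0) (nat_lit 0)) (xa T2.l5 T2.l5)
  (TrL.c (I.pos (nat_lit 0) (nat_lit 0)) (xa T0.l7 (xb T0.l7 (xa T0.l7 T0.l7)))
  (TrL.c (I.pos (nat_lit 0) (nat_lit 0)) (xa T2.l6 T2.l6)
  (TrL.c (I.pos (nat_lit 0) (nat_lit 0)) (xa (xb T0.l8 (xa T0.l8 T0.l8)) (xb T0.l8 (xa T0.l8 T0.l8)))
  TrL.n)))))) (by decide +kernel)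
theorem bx1_11 : BoxOK sI cl4 cl5 cl4 t2 t0 b1_11 :=
  box_mk (TrL.c (I.pos (nat_lit 0) (nat_lit 0)) (xb (xa (xb T2.l12 T2.l12) (xb T2.l12 T2.l12)) (xa (xb T2.l12 (xa T2.l12 T2.l12)) (xb T2.l12 (xa T2.l12 T2.l12))))
  (TrL.c (I.pos (nat_lit 0) (nat_lit 0)) (xb (xa T0.l6 T0.l6) (xa T0.l6 T0.l6))
  (TrL.c (I.pos (nat_lit 0) (nat_lit 0)) T2.l5
  (TrL.c (I.pos (nat_lit 0) (nat_lit 0)) (xb T0.l7 T0.l7)
  (TrL.c (I.pos (nat_lit 0) (nat_lit 0)) T2.l13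
  (TrL.c (I.pos (nat_lit 0) (nat_lit 0)) (xb (xa T0.l8 T0.l8) (xa T0.l8 T0.l8))
  TrL.n)))))) (by decide +kernel)
theorem bx1_12 : BoxOK sI cl4 cl5 cl4 t2 t0 b1_12 :=
  box_mk (TrL.c (I.pos (nat_lit 0) (nat_lit 0)) (xa (xb T2.l7 T2.l0) T2.l0)
  (TrL.c (I.pos (nat_lit 0) (nat_lit 0)) T0.l6
  (TrL.c (I.pos (nat_lit 0) (nat_lit 0)) T2.l5
  (TrL.c (I.pos (nat_lit 0) (nat_lit 0)) T0.l7
  (TrL.c (I.pos (nat_lit 0) (nat_lit 0)) T2.l20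
  (TrL.c (I.pos (nat_lit 0) (nat_lit 0)) T0.l8
  TrL.n)))))) (by decide +kernel)
theorem bx1_13 : BoxOK sI cl4 cl5 cl4 t2 t0 b1_13 :=
  box_mk (TrL.c (I.pos (nat_lit 0) (nat_lit 0)) (xb T2.l18 T2.l9)
  (TrL.c (I.pos (nat_lit 0) (nat_lit 0)) T0.l6
  (TrL.c (I.pos (nat_lit 0) (nat_lit 0)) T2.l5
  (TrL.c (I.pos (nat_lit 0) (nat_lit 0)) T0.l7
  (TrL.c (I.pos (nat_lit 0) (nat_lit 0)) T2.l19
  (TrL.c (I.pos (nat_lit 0) (nat_lit 0)) T0.l8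
  TrL.n)))))) (by decide +kernel)
theorem bx1_14 : BoxOK sI cl4 cl5 cl4 t2 t0 b1_14 :=
  box_mk (TrL.c (I.pos (nat_lit 0) (nat_lit 0)) T0.l6
  (TrL.c (I.pos (nat_lit 0) (nat_lit 0)) T2.l5
  TrL.n)) (by decide +kernel)
theorem bx1_15 : BoxOK sI cl4 cl5 cl4 t2 t0 b1_15 :=
  box_mk (TrL.c (I.pos (nat_lit 0) (nat_lit 0)) T2.l0
  (TrL.c (I.pos (nat_lit 0) (nat_lit 0)) T0.l6
  (TrL.c (I.pos (nat_lit 0) (nat_lit 0)) T2.l5
  (TrL.c (I.pos (nat_lit 0) (nat_lit 0)) T0.l7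
  (TrL.c (I.pos (nat_lit 0) (nat_lit 0)) T2.l6
  (TrL.c (I.pos (nat_lit 0) (nat_lit 0)) T0.l8
  TrL.n)))))) (by decide +kernel)
theorem bx1_16 : BoxOK sI cl4 cl5 cl4 t2 t0 b1_16 :=
  box_mk (TrL.c (I.pos (nat_lit 0) (nat_lit 0)) T2.l12
  (TrL.c (I.pos (nat_lit 0) (nat_lit 0)) T0.l6
  (TrL.c (I.pos (nat_lit 0) (nat_lit 0)) T2.l5
  (TrL.c (I.pos (nat_lit 0) (nat_lit 0)) T0.l7
  (TrL.c (I.pos (nat_lit 0) (nat_lit 0)) T2.l13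
  (TrL.c (I.pos (nat_lit 0) (nat_lit 0)) T0.l8
  TrL.n)))))) (by decide +kernel)
theorem bx1_17 : BoxOK sI cl4 cl5 cl4 t2 t0 b1_17 :=
  box_mk (TrL.c (I.pos (nat_lit 0) (nat_lit 0)) (xa (xb T2.l2 T2.l2) T2.l2)
  (TrL.c (I.pos (nat_lit 0) (nat_lit 0)) (xa T0.l6 (xb T0.l6 T0.l6))
  (TrL.c (I.pos (nat_lit 0) (nat_lit 0)) T2.l3
  (TrL.c (I.pos (nat_lit 0) (nat_lit 0)) (xa T0.l7 T0.l7)
  (TrL.c (I.pos (nat_lit 0) (nat_lit 0)) T2.l1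
  (TrL.c (I.pos (nat_lit 0) (nat_lit 0)) (xa T0.l8 (xb T0.l8 T0.l8))
  TrL.n)))))) (by decide +kernel)
theorem bx1_18 : BoxOK sI cl4 cl5 cl4 t2 t0 b1_18 :=
  box_mk (TrL.c (I.pos (nat_lit 0) (nat_lit 0)) T2.l0
  (TrL.c (I.pos (nat_lit 0) (nat_lit 0)) T0.l6
  (TrL.c (I.pos (nat_lit 0) (nat_lit 0)) T2.l5
  (TrL.c (I.pos (nat_lit 0) (nat_lit 0)) T0.l7
  (TrL.c (I.pos (nat_lit 0) (nat_lit 0)) T2.l13
  (TrL.c (I.pos (nat_lit 0) (nat_lit 0)) T0.l8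
  TrL.n)))))) (by decide +kernel)
theorem sv1 : StarV sI cl4 cl5 cl4 t2 t0 t1 :=
  (bt_n (bt_n (bt_n (bt_n (bt_b bx1_0) (bt_b bx1_1)) (bt_n (bt_b bx1_2) (bt_b bx1_3))) (bt_n (bt_n (bt_b bx1_4) (bt_b bx1_5)) (bt_n (bt_b bx1_6) (bt_n (bt_b bx1_7) (bt_b bx1_8))))) (bt_n (bt_n (bt_n (bt_b bx1_9) (bt_b bx1_10)) (bt_n (bt_b bx1_11) (bt_n (bt_b bx1_12) (bt_b bx1_13)))) (bt_n (bt_n (bt_b bx1_14) (bt_b bx1_15)) (bt_n (bt_b bx1_16) (bt_n (bt_b bx1_17) (bt_b bx1_18))))))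
def S1 : StarD := StarD.mk cl4 cl5 cl4 2 0 t1
theorem bx2_0 : BoxOK sI cl5 cl4 cl4 t1 t1 b2_0 :=
  box_mk (TrL.c (I.pos (nat_lit 0) (nat_lit 0)) (xa (xb (xa T1.l10 (xb T1.l0 T1.l0)) (xa (xb T1.l10 (xs (xa T1.l0 T1.l0) (xa T1.l0 T1.l0))) (xb T1.l10 (xs (xa T1.l0 T1.l0) (xa T1.l0 T1.l0))))) (xb (xa (xb T1.l0 T1.l0) (xb T1.l0 T1.l0)) (xa (xb (xs T1.l0 T1.l0) (xs (xa T1.l0 T1.l0) (xa T1.l0 T1.l0))) (xb (xs T1.l0 T1.l0) (xs (xa T1.l0 T1.l0) (xa (xb T1.l0 T1.l0) (xb T1.l0 T1.l0)))))))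
  (TrL.c (I.pos (nat_lit 0) (nat_lit 0)) (xa (xb T1.l1 T1.l1) (xb T1.l1 (xa T1.l1 T1.l1)))
  (TrL.c (I.pos (nat_lit 0) (nat_lit 0)) T1.l2
  (TrL.c (I.pos (nat_lit 0) (nat_lit 0)) T1.l3
  (TrL.c (I.pos (nat_lit 0) (nat_lit 0)) (xa (xb T1.l11 T1.l4) (xb T1.l4 (xa T1.l4 T1.l4)))
  (TrL.c (I.pos (nat_lit 0) (nat_lit 0)) (xa T1.l5 T1.l5)
  (TrL.c (I.pos (nat_lit 0) (nat_lit 0)) T1.l6
  (TrL.c (I.pos (nat_lit 0) (nat_lit 0)) T1.l7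
  TrL.n)))))))) (by decide +kernel)
theorem bx2_1 : BoxOK sI cl5 cl4 cl4 t1 t1 b2_1 :=
  box_mk (TrL.c (I.pos (nat_lit 0) (nat_lit 0)) (xb (xa (xb (xa (xb (xs T1.l8 (xa (xb (xs T1.l8 T1.l8) T1.l8) T1.l8)) T1.l8) (xb (xs T1.l8 T1.l8) T1.l8)) (xa T1.l8 T1.l8)) (xb (xa T1.l8 T1.l8) T1.l8)) (xa (xb T1.l8 T1.l8) (xb T1.l8 T1.l8)))
  (TrL.c (I.pos (nat_lit 0) (nat_lit 0)) (xb T1.l1 T1.l1)
  (TrL.c (I.pos (nat_lit 0) (nat_lit 0)) T1.l2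
  (TrL.c (I.pos (nat_lit 0) (nat_lit 0)) T1.l3
  (TrL.c (I.pos (nat_lit 0) (nat_lit 0)) (xb (xa T1.l9 T1.l9) T1.l9)
  (TrL.c (I.pos (nat_lit 0) (nat_lit 0)) T1.l5
  (TrL.c (I.pos (nat_lit 0) (nat_lit 0)) T1.l6
  (TrL.c (I.pos (nat_lit 0) (nat_lit 0)) T1.l7
  TrL.n)))))))) (by decide +kernel)
theorem bx2_2 : BoxOK sI cl5 cl4 cl4 t1 t1 b2_2 :=
  box_mk (TrL.c (I.pos (nat_lit 0) (nat_lit 0)) (xb (xa (xb (xa T1.l10 T1.l10) (xa T1.l10 T1.l10)) (xb (xa T1.l10 T1.l10) (xa T1.l10 T1.l10))) (xa (xb (xa (xb T1.l10 T1.l10) (xb T1.l10 T1.l10)) (xa (xb (xs T1.l10 T1.l10) (xs T1.l10 T1.l10)) (xb T1.l10 (xs T1.l10 T1.l10)))) (xb (xa (xb T1.l10 T1.l10) (xb T1.l10 T1.l10)) (xa (xb (xs T1.l10 T1.l10) (xs T1.l10 T1.l10)) (xb (xs T1.l10 T1.l10) (xs T1.l10 (xa T1.l10 T1.l10)))))))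
  (TrL.c (I.pos (nat_lit 0) (nat_lit 0)) (xb (xa T1.l1 T1.l1) (xa T1.l1 (xb T1.l1 T1.l1)))
  (TrL.c (I.pos (nat_lit 0) (nat_lit 0)) T1.l2
  (TrL.c (I.pos (nat_lit 0) (nat_lit 0)) T1.l3
  (TrL.c (I.pos (nat_lit 0) (nat_lit 0)) (xb (xa T1.l11 T1.l11) (xa T1.l11 T1.l11))
  (TrL.c (I.pos (nat_lit 0) (nat_lit 0)) (xb T1.l5 T1.l5)
  (TrL.c (I.pos (nat_lit 0) (nat_lit 0)) T1.l6
  (TrL.c (I.pos (nat_lit 0) (nat_lit 0)) T1.l7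
  TrL.n)))))))) (by decide +kernel)
theorem bx2_3 : BoxOK sI cl5 cl4 cl4 t1 t1 b2_3 :=
  box_mk (TrL.c (I.pos (nat_lit 0) (nat_lit 0)) (xb T1.l1 T1.l12)
  (TrL.c (I.pos (nat_lit 0) (nat_lit 0)) T1.l13
  (TrL.c (I.pos (nat_lit 0) (nat_lit 0)) T1.l3
  TrL.n))) (by decide +kernel)
theorem bx2_4 : BoxOK sI cl5 cl4 cl4 t1 t1 b2_4 :=
  box_mk (TrL.c (I.pos (nat_lit 0) (nat_lit 0)) (xa T1.l8 T1.l10)
  (TrL.c (I.pos (nat_lit 0) (nat_lit 0)) T1.l1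
  (TrL.c (I.pos (nat_lit 0) (nat_lit 0)) T1.l2
  (TrL.c (I.pos (nat_lit 0) (nat_lit 0)) T1.l3
  (TrL.c (I.pos (nat_lit 0) (nat_lit 0)) T1.l16
  (TrL.c (I.pos (nat_lit 0) (nat_lit 0)) T1.l5
  (TrL.c (I.pos (nat_lit 0) (nat_lit 0)) T1.l6
  (TrL.c (I.pos (nat_lit 0) (nat_lit 0)) T1.l7
  TrL.n)))))))) (by decide +kernel)
theorem bx2_5 : BoxOK sI cl5 cl4 cl4 t1 t1 b2_5 :=
  box_mk (TrL.c (I.pos (nat_lit 0) (nat_lit 0)) (xb T1.l12 T1.l12)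
  (TrL.c (I.pos (nat_lit 0) (nat_lit 0)) T1.l13
  (TrL.c (I.pos (nat_lit 0) (nat_lit 0)) T1.l14
  TrL.n))) (by decide +kernel)
theorem bx2_6 : BoxOK sI cl5 cl4 cl4 t1 t1 b2_6 :=
  box_mk (TrL.c (I.pos (nat_lit 0) (nat_lit 0)) (xb (xa (xb T1.l17 T1.l8) T1.l8) T1.l8)
  (TrL.c (I.pos (nat_lit 0) (nat_lit 0)) T1.l1
  (TrL.c (I.pos (nat_lit 0) (nat_lit 0)) T1.l2
  (TrL.c (I.pos (nat_lit 0) (nat_lit 0)) T1.l14
  (TrL.c (I.pos (nat_lit 0) (nat_lit 0)) T1.l18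
  (TrL.c (I.pos (nat_lit 0) (nat_lit 0)) T1.l5
  (TrL.c (I.pos (nat_lit 0) (nat_lit 0)) T1.l6
  (TrL.c (I.pos (nat_lit 0) (nat_lit 0)) T1.l7
  TrL.n)))))))) (by decide +kernel)
theorem bx2_7 : BoxOK sI cl5 cl4 cl4 t1 t1 b2_7 :=
  box_mk (TrL.c (I.pos (nat_lit 0) (nat_lit 0)) (xa T1.l0 T1.l0)
  (TrL.c (I.pos (nat_lit 0) (nat_lit 0)) T1.l1
  (TrL.c (I.pos (nat_lit 0) (nat_lit 0)) T1.l2
  (TrL.c (I.pos (nat_lit 0) (nat_lit 0)) T1.l3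
  (TrL.c (I.pos (nat_lit 0) (nat_lit 0)) T1.l4
  (TrL.c (I.pos (nat_lit 0) (nat_lit 0)) T1.l5
  (TrL.c (I.pos (nat_lit 0) (nat_lit 0)) T1.l6
  (TrL.c (I.pos (nat_lit 0) (nat_lit 0)) T1.l7
  TrL.n)))))))) (by decide +kernel)
theorem bx2_8 : BoxOK sI cl5 cl4 cl4 t1 t1 b2_8 :=
  box_mk (TrL.c (I.pos (nat_lit 0) (nat_lit 0)) T1.l17
  (TrL.c (I.pos (nat_lit 0) (nat_lit 0)) T1.l12
  (TrL.c (I.pos (nat_lit 0) (nat_lit 0)) T1.l13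
  (TrL.c (I.pos (nat_lit 0) (nat_lit 0)) T1.l14
  (TrL.c (I.pos (nat_lit 0) (nat_lit 0)) T1.l18
  (TrL.c (I.pos (nat_lit 0) (nat_lit 0)) T1.l5
  (TrL.c (I.pos (nat_lit 0) (nat_lit 0)) T1.l6
  (TrL.c (I.pos (nat_lit 0) (nat_lit 0)) T1.l7
  TrL.n)))))))) (by decide +kernel)
theorem bx2_9 : BoxOK sI cl5 cl4 cl4 t1 t1 b2_9 :=
  box_mk (TrL.c (I.pos (nat_lit 0) (nat_lit 0)) (xa (xb T1.l0 T1.l0) (xb T1.l4 (xa T1.l0 T1.l4)))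
  (TrL.c (I.pos (nat_lit 0) (nat_lit 0)) (xb T1.l1 T1.l1)
  (TrL.c (I.pos (nat_lit 0) (nat_lit 0)) T1.l2
  (TrL.c (I.pos (nat_lit 0) (nat_lit 0)) T1.l7
  (TrL.c (I.pos (nat_lit 0) (nat_lit 0)) (xb T1.l4 (xa T1.l4 T1.l4))
  (TrL.c (I.pos (nat_lit 0) (nat_lit 0)) T1.l5
  (TrL.c (I.pos (nat_lit 0) (nat_lit 0)) T1.l2
  (TrL.c (I.pos (nat_lit 0) (nat_lit 0)) T1.l7
  TrL.n)))))))) (by decide +kernel)
theorem bx2_10 : BoxOK sI cl5 cl4 cl4 t1 t1 b2_10 :=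
  box_mk (TrL.c (I.pos (nat_lit 0) (nat_lit 0)) T1.l17
  (TrL.c (I.pos (nat_lit 0) (nat_lit 0)) T1.l12
  (TrL.c (I.pos (nat_lit 0) (nat_lit 0)) T1.l13
  (TrL.c (I.pos (nat_lit 0) (nat_lit 0)) T1.l14
  (TrL.c (I.pos (nat_lit 0) (nat_lit 0)) T1.l18
  (TrL.c (I.pos (nat_lit 0) (nat_lit 0)) T1.l5
  (TrL.c (I.pos (nat_lit 0) (nat_lit 0)) T1.l6
  (TrL.c (I.pos (nat_lit 0) (nat_lit 0)) T1.l7
  TrL.n)))))))) (by decide +kernel)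
theorem bx2_11 : BoxOK sI cl5 cl4 cl4 t1 t1 b2_11 :=
  box_mk (TrL.c (I.pos (nat_lit 0) (nat_lit 0)) T1.l12
  (TrL.c (I.pos (nat_lit 0) (nat_lit 0)) T1.l13
  (TrL.c (I.pos (nat_lit 0) (nat_lit 0)) T1.l14
  TrL.n))) (by decide +kernel)
theorem bx2_12 : BoxOK sI cl5 cl4 cl4 t1 t1 b2_12 :=
  box_mk (TrL.c (I.pos (nat_lit 0) (nat_lit 0)) (xa (xb (xa T1.l10 T1.l0) (xa (xb T1.l0 (xs T1.l0 T1.l0)) (xs T1.l0 T1.l0))) (xb (xa T1.l0 T1.l0) (xa (xs T1.l0 (xb T1.l0 T1.l0)) (xs T1.l0 (xb T1.l0 T1.l0)))))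
  (TrL.c (I.pos (nat_lit 0) (nat_lit 0)) (xa T1.l1 T1.l1)
  (TrL.c (I.pos (nat_lit 0) (nat_lit 0)) T1.l2
  (TrL.c (I.pos (nat_lit 0) (nat_lit 0)) T1.l3
  (TrL.c (I.pos (nat_lit 0) (nat_lit 0)) (xa T1.l4 T1.l4)
  (TrL.c (I.pos (nat_lit 0) (nat_lit 0)) T1.l5
  (TrL.c (I.pos (nat_lit 0) (nat_lit 0)) T1.l6
  (TrL.c (I.pos (nat_lit 0) (nat_lit 0)) T1.l7
  TrL.n)))))))) (by decide +kernel)
theorem bx2_13 : BoxOK sI cl5 cl4 cl4 t1 t1 b2_13 :=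
  box_mk (TrL.c (I.pos (nat_lit 0) (nat_lit 0)) (xb T1.l8 T1.l8)
  (TrL.c (I.pos (nat_lit 0) (nat_lit 0)) T1.l1
  (TrL.c (I.pos (nat_lit 0) (nat_lit 0)) T1.l2
  (TrL.c (I.pos (nat_lit 0) (nat_lit 0)) T1.l3
  (TrL.c (I.pos (nat_lit 0) (nat_lit 0)) T1.l18
  (TrL.c (I.pos (nat_lit 0) (nat_lit 0)) T1.l5
  (TrL.c (I.pos (nat_lit 0) (nat_lit 0)) T1.l6
  (TrL.c (I.pos (nat_lit 0) (nat_lit 0)) T1.l7
  TrL.n)))))))) (by decide +kernel)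
theorem bx2_14 : BoxOK sI cl5 cl4 cl4 t1 t1 b2_14 :=
  box_mk (TrL.c (I.pos (nat_lit 0) (nat_lit 0)) (xa T1.l0 (xb T1.l0 T1.l0))
  (TrL.c (I.pos (nat_lit 0) (nat_lit 0)) T1.l1
  (TrL.c (I.pos (nat_lit 0) (nat_lit 0)) T1.l2
  (TrL.c (I.pos (nat_lit 0) (nat_lit 0)) T1.l3
  (TrL.c (I.pos (nat_lit 0) (nat_lit 0)) (xb T1.l4 T1.l4)
  (TrL.c (I.pos (nat_lit 0) (nat_lit 0)) T1.l5
  (TrL.c (I.pos (nat_lit 0) (nat_lit 0)) T1.l6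
  (TrL.c (I.pos (nat_lit 0) (nat_lit 0)) T1.l7
  TrL.n)))))))) (by decide +kernel)
theorem bx2_15 : BoxOK sI cl5 cl4 cl4 t1 t1 b2_15 :=
  box_mk (TrL.c (I.pos (nat_lit 0) (nat_lit 0)) T1.l17
  (TrL.c (I.pos (nat_lit 0) (nat_lit 0)) T1.l12
  (TrL.c (I.pos (nat_lit 0) (nat_lit 0)) T1.l13
  (TrL.c (I.pos (nat_lit 0) (nat_lit 0)) T1.l14
  (TrL.c (I.pos (nat_lit 0) (nat_lit 0)) T1.l18
  (TrL.c (I.pos (nat_lit 0) (nat_lit 0)) T1.l5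
  (TrL.c (I.pos (nat_lit 0) (nat_lit 0)) T1.l6
  (TrL.c (I.pos (nat_lit 0) (nat_lit 0)) T1.l7
  TrL.n)))))))) (by decide +kernel)
theorem bx2_16 : BoxOK sI cl5 cl4 cl4 t1 t1 b2_16 :=
  box_mk (TrL.c (I.pos (nat_lit 0) (nat_lit 0)) (xa (xb T1.l0 T1.l0) T1.l4)
  (TrL.c (I.pos (nat_lit 0) (nat_lit 0)) T1.l1
  (TrL.c (I.pos (nat_lit 0) (nat_lit 0)) T1.l2
  (TrL.c (I.pos (nat_lit 0) (nat_lit 0)) T1.l7
  (TrL.c (I.pos (nat_lit 0) (nat_lit 0)) (xb T1.l4 T1.l4)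
  (TrL.c (I.pos (nat_lit 0) (nat_lit 0)) T1.l1
  (TrL.c (I.pos (nat_lit 0) (nat_lit 0)) T1.l2
  (TrL.c (I.pos (nat_lit 0) (nat_lit 0)) T1.l7
  TrL.n)))))))) (by decide +kernel)
theorem bx2_17 : BoxOK sI cl5 cl4 cl4 t1 t1 b2_17 :=
  box_mk (TrL.c (I.pos (nat_lit 0) (nat_lit 0)) T1.l17
  (TrL.c (I.pos (nat_lit 0) (nat_lit 0)) T1.l12
  (TrL.c (I.pos (nat_lit 0) (nat_lit 0)) T1.l5
  (TrL.c (I.pos (nat_lit 0) (nat_lit 0)) T1.l14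
  (TrL.c (I.pos (nat_lit 0) (nat_lit 0)) T1.l18
  (TrL.c (I.pos (nat_lit 0) (nat_lit 0)) T1.l5
  (TrL.c (I.pos (nat_lit 0) (nat_lit 0)) T1.l6
  (TrL.c (I.pos (nat_lit 0) (nat_lit 0)) T1.l7
  TrL.n)))))))) (by decide +kernel)
theorem bx2_18 : BoxOK sI cl5 cl4 cl4 t1 t1 b2_18 :=
  box_mk (TrL.c (I.pos (nat_lit 0) (nat_lit 0)) T1.l0
  (TrL.c (I.pos (nat_lit 0) (nat_lit 0)) T1.l1
  (TrL.c (I.pos (nat_lit 0) (nat_lit 0)) T1.l2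
  (TrL.c (I.pos (nat_lit 0) (nat_lit 0)) T1.l3
  (TrL.c (I.pos (nat_lit 0) (nat_lit 0)) T1.l4
  (TrL.c (I.pos (nat_lit 0) (nat_lit 0)) T1.l5
  (TrL.c (I.pos (nat_lit 0) (nat_lit 0)) T1.l2
  (TrL.c (I.pos (nat_lit 0) (nat_lit 0)) T1.l7
  TrL.n)))))))) (by decide +kernel)
theorem bx2_19 : BoxOK sI cl5 cl4 cl4 t1 t1 b2_19 :=
  box_mk (TrL.c (I.pos (nat_lit 0) (nat_lit 0)) T1.l17
  (TrL.c (I.pos (nat_lit 0) (nat_lit 0)) T1.l12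
  (TrL.c (I.pos (nat_lit 0) (nat_lit 0)) T1.l13
  (TrL.c (I.pos (nat_lit 0) (nat_lit 0)) T1.l14
  (TrL.c (I.pos (nat_lit 0) (nat_lit 0)) T1.l18
  (TrL.c (I.pos (nat_lit 0) (nat_lit 0)) T1.l5
  (TrL.c (I.pos (nat_lit 0) (nat_lit 0)) T1.l6
  (TrL.c (I.pos (nat_lit 0) (nat_lit 0)) T1.l7
  TrL.n)))))))) (by decide +kernel)
theorem bx2_20 : BoxOK sI cl5 cl4 cl4 t1 t1 b2_20 :=
  box_mk (TrL.c (I.pos (nat_lit 0) (nat_lit 0)) T1.l17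
  (TrL.c (I.pos (nat_lit 0) (nat_lit 0)) T1.l1
  (TrL.c (I.pos (nat_lit 0) (nat_lit 0)) T1.l2
  (TrL.c (I.pos (nat_lit 0) (nat_lit 0)) T1.l3
  (TrL.c (I.pos (nat_lit 0) (nat_lit 0)) T1.l18
  (TrL.c (I.pos (nat_lit 0) (nat_lit 0)) T1.l5
  (TrL.c (I.pos (nat_lit 0) (nat_lit 0)) T1.l6
  (TrL.c (I.pos (nat_lit 0) (nat_lit 0)) T1.l7
  TrL.n)))))))) (by decide +kernel)
theorem sv2 : StarV sI cl5 cl4 cl4 t1 t1 t2 :=
  (bt_n (bt_n (bt_n (bt_n (bt_b bx2_0) (bt_b bx2_1)) (bt_n (bt_b bx2_2) (bt_n (bt_b bx2_3) (bt_b bx2_4)))) (bt_n (bt_n (bt_b bx2_5) (bt_b bx2_6)) (bt_n (bt_b bx2_7) (bt_n (bt_b bx2_8) (bt_b bx2_9))))) (bt_n (bt_n (bt_n (bt_b bx2_10) (bt_b bx2_11)) (bt_n (bt_b bx2_12) (bt_n (bt_b bx2_13) (bt_b bx2_14)))) (bt_n (bt_n (bt_b bx2_15) (bt_n (bt_b bx2_16) (bt_b bx2_17))) (bt_n (bt_b bx2_18) (bt_n (bt_b bx2_19) (bt_b bx2_20))))))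
def S2 : StarD := StarD.mk cl5 cl4 cl4 1 1 t2
def G : List StarD := [S0, S1, S2]
theorem so0 : StarOK sI G S0 :=
  star_mk (by decide) (by decide) rfl rfl rfl rfl rfl rfl (rfl : _ = t0) (rfl : _ = t2)
  (st_mk (Pth.l (Pth.l (Pth.l Pth.z))) (nat_lit 398767148) (nat_lit 404688622) (by decide +kernel))
  (st_mk (Pth.l (Pth.l (Pth.l Pth.z))) (nat_lit 441222009) (nat_lit 448661014) (by decide +kernel))
  (st_mk (Pth.l (Pth.l (Pth.l Pth.z))) (nat_lit 491382998) (nat_lit 500955763) (by decide +kernel)) sv0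
theorem so1 : StarOK sI G S1 :=
  star_mk (by decide) (by decide) rfl rfl rfl rfl rfl rfl (rfl : _ = t2) (rfl : _ = t0)
  (st_mk (Pth.l (Pth.l (Pth.l (Pth.l Pth.z)))) (nat_lit 257609462) (nat_lit 260908756) (by decide +kernel))
  (st_mk (Pth.l (Pth.l (Pth.l (Pth.l Pth.z)))) (nat_lit 299241547) (nat_lit 303845074) (by decide +kernel))
  (st_mk (Pth.l (Pth.l (Pth.l (Pth.l Pth.z)))) (nat_lit 348847301) (nat_lit 355372653) (by decide +kernel)) sv1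
theorem so2 : StarOK sI G S2 :=
  star_mk (by decide) (by decide) rfl rfl rfl rfl rfl rfl (rfl : _ = t1) (rfl : _ = t1)
  (st_mk (Pth.l (Pth.l (Pth.l (Pth.l Pth.z)))) (nat_lit 388173321) (nat_lit 391966747) (by decide +kernel))
  (st_mk (Pth.l (Pth.l (Pth.l (Pth.l Pth.z)))) (nat_lit 428063387) (nat_lit 432750008) (by decide +kernel))
  (st_mk (Pth.l (Pth.l (Pth.l (Pth.l Pth.z)))) (nat_lit 474800145) (nat_lit 480677259) (by decide +kernel)) sv2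
theorem ok : GroupOK (nat_lit 150274048) (nat_lit 209387520) G := grp_mk (allS_c so0 (allS_c so1 (allS_c so2 allS_n)))
theorem cov : GCov G cl4 cl4 cl5 := cov_mk
  ⟨0, by decide, rfl, rfl, rfl⟩ ⟨1, by decide, rfl, rfl, rfl⟩ ⟨0, by decide, rfl, rfl, rfl⟩ ⟨1, by decide, rfl, rfl, rfl⟩ ⟨2, by decide, rfl, rfl, rfl⟩ ⟨2, by decide, rfl, rfl, rfl⟩
end Q112_2

namespace Q112_3
def sI : I := I.pos (nat_lit 209321984) (nat_lit 238944256)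
def b0_0 : Bx := Bx.mk (St.mk (I.pos (nat_lit 131416064) (nat_lit 215302144)) (I.mix (nat_lit 278528) (nat_lit 99385344)) (I.mix (nat_lit 15319040) (nat_lit 82067456)) (I.pos (nat_lit 395476992) (nat_lit 506822656)) (I.mix (nat_lit 240238592) (nat_lit 147210240)) (I.mix (nat_lit 145932288) (nat_lit 139968512)) (I.mix (nat_lit 238977024) (nat_lit 220626944)))
  false (nat_lit 54431987)
def b0_1 : Bx := Bx.mk (St.mk (I.mix (nat_lit 50315264) (nat_lit 8683520)) (I.mix (nat_lit 19677184) (nat_lit 85393408)) (I.neg (nat_lit 60735488) (nat_lit 89931776)) (I.pos (nat_lit 271335424) (nat_lit 301776896)) (I.mix (nat_lit 96288768) (nat_lit 188268544)) (I.mix (nat_lit 143933440) (nat_lit 111673344)) (I.mix (nat_lit 88801280) (nat_lit 64897024)))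
  true (nat_lit 0)
def b0_2 : Bx := Bx.mk (St.mk (I.mix (nat_lit 6520832) (nat_lit 50315264)) (I.neg (nat_lit 27787264) (nat_lit 85393408)) (I.neg (nat_lit 60735488) (nat_lit 89931776)) (I.pos (nat_lit 274104320) (nat_lit 302792704)) (I.mix (nat_lit 188268544) (nat_lit 85016576)) (I.mix (nat_lit 111673344) (nat_lit 143933440)) (I.mix (nat_lit 88801280) (nat_lit 64913408)))
  false (nat_lit 53672501)
def b0_3 : Bx := Bx.mk (St.mk (I.mix (nat_lit 28573696) (nat_lit 6717440)) (I.mix (nat_lit 19447808) (nat_lit 18841600)) (I.neg (nat_lit 62259200) (nat_lit 67649536)) (I.pos (nat_lit 273203200) (nat_lit 280674304)) (I.mix (nat_lit 75317248) (nat_lit 68993024)) (I.mix (nat_lit 58425344) (nat_lit 53264384)) (I.mix (nat_lit 11157504) (nat_lit 17055744)))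
  true (nat_lit 0)
def b0_4 : Bx := Bx.mk (St.mk (I.pos (nat_lit 184909824) (nat_lit 244203520)) (I.mix (nat_lit 25346048) (nat_lit 23724032)) (I.neg (nat_lit 72384512) (nat_lit 158433280)) (I.pos (nat_lit 430243840) (nat_lit 539738112)) (I.mix (nat_lit 181288960) (nat_lit 92667904)) (I.mix (nat_lit 123699200) (nat_lit 110166016)) (I.mix (nat_lit 218857472) (nat_lit 215089152)))
  false (nat_lit 0)
def b0_5 : Bx := Bx.mk (St.mk (I.mix (nat_lit 6651904) (nat_lit 29294592)) (I.mix (nat_lit 16400384) (nat_lit 19316736)) (I.neg (nat_lit 62242816) (nat_lit 67764224)) (I.pos (nat_lit 273137664) (nat_lit 280821760)) (I.mix (nat_lit 55427072) (nat_lit 87506944)) (I.mix (nat_lit 60489728) (nat_lit 69386240)) (I.mix (nat_lit 14008320) (nat_lit 18726912)))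
  false (nat_lit 0)
def b0_6 : Bx := Bx.mk (St.mk (I.pos (nat_lit 10469376) (nat_lit 112885760)) (I.neg (nat_lit 8093696) (nat_lit 88162304)) (I.neg (nat_lit 24788992) (nat_lit 98762752)) (I.pos (nat_lit 276119552) (nat_lit 340819968)) (I.mix (nat_lit 174276608) (nat_lit 109477888)) (I.mix (nat_lit 112984064) (nat_lit 125878272)) (I.mix (nat_lit 134447104) (nat_lit 112033792)))
  false (nat_lit 72630712)
def b0_7 : Bx := Bx.mk (St.mk (I.pos (nat_lit 87785472) (nat_lit 177553408)) (I.mix (nat_lit 33275904) (nat_lit 82853888)) (I.mix (nat_lit 52363264) (nat_lit 73285632)) (I.pos (nat_lit 318357504) (nat_lit 443695104)) (I.mix (nat_lit 229212160) (nat_lit 146063360)) (I.mix (nat_lit 196837376) (nat_lit 161038336)) (I.mix (nat_lit 221118464) (nat_lit 205602816)))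
  false (nat_lit 37822453)
def b0_8 : Bx := Bx.mk (St.mk (I.neg (nat_lit 10469376) (nat_lit 112427008)) (I.pos (nat_lit 8093696) (nat_lit 88162304)) (I.neg (nat_lit 24788992) (nat_lit 98762752)) (I.pos (nat_lit 276103168) (nat_lit 340492288)) (I.mix (nat_lit 109494272) (nat_lit 174276608)) (I.mix (nat_lit 125894656) (nat_lit 112984064)) (I.mix (nat_lit 134447104) (nat_lit 112050176)))
  true (nat_lit 0)
def b0_9 : Bx := Bx.mk (St.mk (I.pos (nat_lit 157270016) (nat_lit 232341504)) (I.mix (nat_lit 21528576) (nat_lit 90275840)) (I.mix (nat_lit 145424384) (nat_lit 55427072)) (I.pos (nat_lit 410566656) (nat_lit 526827520)) (I.mix (nat_lit 191889408) (nat_lit 160104448)) (I.mix (nat_lit 168378368) (nat_lit 158810112)) (I.mix (nat_lit 318652416) (nat_lit 232701952)))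
  false (nat_lit 41248034)
def b0_10 : Bx := Bx.mk (St.mk (I.mix (nat_lit 8503296) (nat_lit 40075264)) (I.mix (nat_lit 55902208) (nat_lit 15679488)) (I.neg (nat_lit 61210624) (nat_lit 83378176)) (I.pos (nat_lit 271532032) (nat_lit 289079296)) (I.mix (nat_lit 152600576) (nat_lit 96288768)) (I.mix (nat_lit 92241920) (nat_lit 126353408)) (I.mix (nat_lit 57524224) (nat_lit 39141376)))
  false (nat_lit 21181569)
def b0_11 : Bx := Bx.mk (St.mk (I.pos (nat_lit 82821120) (nat_lit 112427008)) (I.neg (nat_lit 15368192) (nat_lit 46104576)) (I.neg (nat_lit 27623424) (nat_lit 55148544)) (I.pos (nat_lit 313819136) (nat_lit 340459520)) (I.mix (nat_lit 62095360) (nat_lit 44433408)) (I.mix (nat_lit 33767424) (nat_lit 40845312)) (I.mix (nat_lit 35258368) (nat_lit 33423360)))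
  false (nat_lit 0)
def t0 : BTr := (BTr.n (BTr.n (BTr.n (BTr.b b0_0) (BTr.n (BTr.b b0_1) (BTr.b b0_2))) (BTr.n (BTr.b b0_3) (BTr.n (BTr.b b0_4) (BTr.b b0_5)))) (BTr.n (BTr.n (BTr.b b0_6) (BTr.n (BTr.b b0_7) (BTr.b b0_8))) (BTr.n (BTr.b b0_9) (BTr.n (BTr.b b0_10) (BTr.b b0_11)))))
namespace T0
def l0 : Tr := Tr.L (Pth.l (Pth.l (Pth.l Pth.z)))
def l1 : Tr := Tr.L (Pth.l (Pth.l (Pth.r (Pth.l Pth.z))))
def l2 : Tr := Tr.L (Pth.l (Pth.l (Pth.r (Pth.r Pth.z))))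
def l3 : Tr := Tr.L (Pth.l (Pth.r (Pth.l Pth.z)))
def l4 : Tr := Tr.L (Pth.l (Pth.r (Pth.r (Pth.l Pth.z))))
def l5 : Tr := Tr.L (Pth.l (Pth.r (Pth.r (Pth.r Pth.z))))
def l6 : Tr := Tr.L (Pth.r (Pth.l (Pth.l Pth.z)))
def l7 : Tr := Tr.L (Pth.r (Pth.l (Pth.r (Pth.l Pth.z))))
def l8 : Tr := Tr.L (Pth.r (Pth.l (Pth.r (Pth.r Pth.z))))
def l9 : Tr := Tr.L (Pth.r (Pth.r (Pth.l Pth.z)))
def l10 : Tr := Tr.L (Pth.r (Pth.r (Pth.r (Pth.l Pth.z))))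
def l11 : Tr := Tr.L (Pth.r (Pth.r (Pth.r (Pth.r Pth.z))))
end T0
def b1_0 : Bx := Bx.mk (St.mk (I.pos (nat_lit 137478144) (nat_lit 215302144)) (I.mix (nat_lit 278528) (nat_lit 69533696)) (I.mix (nat_lit 278528) (nat_lit 97927168)) (I.pos (nat_lit 257081344) (nat_lit 359661568)) (I.mix (nat_lit 177487872) (nat_lit 120733696)) (I.mix (nat_lit 112082944) (nat_lit 104038400)) (I.mix (nat_lit 186023936) (nat_lit 169902080)))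
  false (nat_lit 0)
def b1_1 : Bx := Bx.mk (St.mk (I.pos (nat_lit 60620800) (nat_lit 134184960)) (I.neg (nat_lit 2080768) (nat_lit 68304896)) (I.mix (nat_lit 60473344) (nat_lit 3080192)) (I.pos (nat_lit 168804352) (nat_lit 225296384)) (I.mix (nat_lit 121241600) (nat_lit 96108544)) (I.mix (nat_lit 85606400) (nat_lit 103809024)) (I.mix (nat_lit 82870272) (nat_lit 99074048)))
  false (nat_lit 0)
def b1_2 : Bx := Bx.mk (St.mk (I.pos (nat_lit 17956864) (nat_lit 62717952)) (I.mix (nat_lit 12288000) (nat_lit 48988160)) (I.mix (nat_lit 24117248) (nat_lit 4800512)) (I.pos (nat_lit 149012480) (nat_lit 167395328)) (I.mix (nat_lit 82870272) (nat_lit 95731712)) (I.mix (nat_lit 82870272) (nat_lit 63864832)) (I.mix (nat_lit 49725440) (nat_lit 29655040)))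
  false (nat_lit 0)
def b1_3 : Bx := Bx.mk (St.mk (I.mix (nat_lit 36143104) (nat_lit 2064384)) (I.mix (nat_lit 41697280) (nat_lit 9895936)) (I.mix (nat_lit 2441216) (nat_lit 3948544)) (I.pos (nat_lit 148619264) (nat_lit 159547392)) (I.mix (nat_lit 63389696) (nat_lit 79495168)) (I.mix (nat_lit 48955392) (nat_lit 68648960)) (I.mix (nat_lit 9060352) (nat_lit 12091392)))
  true (nat_lit 0)
def b1_4 : Bx := Bx.mk (St.mk (I.pos (nat_lit 125059072) (nat_lit 178208768)) (I.mix (nat_lit 7553024) (nat_lit 56901632)) (I.pos (nat_lit 13090816) (nat_lit 85655552)) (I.pos (nat_lit 224722944) (nat_lit 295583744)) (I.mix (nat_lit 176865280) (nat_lit 60096512)) (I.mix (nat_lit 166199296) (nat_lit 87080960)) (I.mix (nat_lit 169459712) (nat_lit 105136128)))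
  false (nat_lit 0)
def b1_5 : Bx := Bx.mk (St.mk (I.pos (nat_lit 54116352) (nat_lit 90357760)) (I.mix (nat_lit 56999936) (nat_lit 14565376)) (I.neg (nat_lit 11304960) (nat_lit 52674560)) (I.pos (nat_lit 159268864) (nat_lit 185597952)) (I.mix (nat_lit 132300800) (nat_lit 82526208)) (I.mix (nat_lit 69844992) (nat_lit 113508352)) (I.mix (nat_lit 53559296) (nat_lit 65781760)))
  false (nat_lit 0)
def b1_6 : Bx := Bx.mk (St.mk (I.mix (nat_lit 2064384) (nat_lit 36356096)) (I.mix (nat_lit 10452992) (nat_lit 41680896)) (I.mix (nat_lit 2441216) (nat_lit 3948544)) (I.pos (nat_lit 148619264) (nat_lit 159678464)) (I.mix (nat_lit 79495168) (nat_lit 63389696)) (I.mix (nat_lit 68648960) (nat_lit 48955392)) (I.mix (nat_lit 9060352) (nat_lit 12091392)))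
  false (nat_lit 0)
def b1_7 : Bx := Bx.mk (St.mk (I.neg (nat_lit 17956864) (nat_lit 62849024)) (I.mix (nat_lit 48988160) (nat_lit 12189696)) (I.mix (nat_lit 24117248) (nat_lit 4800512)) (I.pos (nat_lit 149012480) (nat_lit 167411712)) (I.mix (nat_lit 95731712) (nat_lit 82870272)) (I.mix (nat_lit 63864832) (nat_lit 82870272)) (I.mix (nat_lit 49725440) (nat_lit 29655040)))
  true (nat_lit 0)
def b1_8 : Bx := Bx.mk (St.mk (I.pos (nat_lit 161038336) (nat_lit 230424576)) (I.mix (nat_lit 18907136) (nat_lit 66404352)) (I.mix (nat_lit 69206016) (nat_lit 88195072)) (I.pos (nat_lit 283230208) (nat_lit 379977728)) (I.mix (nat_lit 180846592) (nat_lit 126402560)) (I.mix (nat_lit 146522112) (nat_lit 126042112)) (I.mix (nat_lit 259653632) (nat_lit 208797696)))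
  false (nat_lit 3567670)
def b1_9 : Bx := Bx.mk (St.mk (I.pos (nat_lit 125845504) (nat_lit 175931392)) (I.mix (nat_lit 47939584) (nat_lit 29048832)) (I.mix (nat_lit 39501824) (nat_lit 52379648)) (I.pos (nat_lit 222953472) (nat_lit 279805952)) (I.mix (nat_lit 175407104) (nat_lit 113754112)) (I.mix (nat_lit 173424640) (nat_lit 112705536)) (I.mix (nat_lit 171655168) (nat_lit 123977728)))
  false (nat_lit 8129642)
def b1_10 : Bx := Bx.mk (St.mk (I.pos (nat_lit 100597760) (nat_lit 134873088)) (I.mix (nat_lit 35487744) (nat_lit 1015808)) (I.mix (nat_lit 28262400) (nat_lit 7290880)) (I.pos (nat_lit 195444736) (nat_lit 226017280)) (I.mix (nat_lit 100646912) (nat_lit 55148544)) (I.mix (nat_lit 53067776) (nat_lit 68321280)) (I.mix (nat_lit 58507264) (nat_lit 64323584)))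
  false (nat_lit 0)
def b1_11 : Bx := Bx.mk (St.mk (I.pos (nat_lit 29900800) (nat_lit 63422464)) (I.mix (nat_lit 16678912) (nat_lit 13746176)) (I.neg (nat_lit 10059776) (nat_lit 25198592)) (I.pos (nat_lit 148848640) (nat_lit 166199296)) (I.mix (nat_lit 83148800) (nat_lit 46776320)) (I.mix (nat_lit 51150848) (nat_lit 55083008)) (I.mix (nat_lit 29114368) (nat_lit 29671424)))
  false (nat_lit 0)
def b1_12 : Bx := Bx.mk (St.mk (I.mix (nat_lit 25329664) (nat_lit 2260992)) (I.mix (nat_lit 14581760) (nat_lit 13156352)) (I.mix (nat_lit 2015232) (nat_lit 1097728)) (I.pos (nat_lit 148570112) (nat_lit 152420352)) (I.mix (nat_lit 63602688) (nat_lit 39583744)) (I.mix (nat_lit 40828928) (nat_lit 42319872)) (I.mix (nat_lit 6881280) (nat_lit 5079040)))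
  true (nat_lit 0)
def b1_13 : Bx := Bx.mk (St.mk (I.pos (nat_lit 190283776) (nat_lit 238944256)) (I.mix (nat_lit 20021248) (nat_lit 18235392)) (I.neg (nat_lit 7651328) (nat_lit 74809344)) (I.pos (nat_lit 316702720) (nat_lit 400736256)) (I.mix (nat_lit 154943488) (nat_lit 29999104)) (I.mix (nat_lit 81575936) (nat_lit 81166336)) (I.mix (nat_lit 143687680) (nat_lit 154812416)))
  false (nat_lit 0)
def b1_14 : Bx := Bx.mk (St.mk (I.pos (nat_lit 121700352) (nat_lit 159645696)) (I.neg (nat_lit 10076160) (nat_lit 46366720)) (I.neg (nat_lit 2555904) (nat_lit 40222720)) (I.pos (nat_lit 216088576) (nat_lit 256344064)) (I.mix (nat_lit 96927744) (nat_lit 76103680)) (I.mix (nat_lit 87457792) (nat_lit 68796416)) (I.mix (nat_lit 96321536) (nat_lit 62521344)))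
  false (nat_lit 0)
def t1 : BTr := (BTr.n (BTr.n (BTr.n (BTr.b b1_0) (BTr.n (BTr.b b1_1) (BTr.b b1_2))) (BTr.n (BTr.n (BTr.b b1_3) (BTr.b b1_4)) (BTr.n (BTr.b b1_5) (BTr.b b1_6)))) (BTr.n (BTr.n (BTr.n (BTr.b b1_7) (BTr.b b1_8)) (BTr.n (BTr.b b1_9) (BTr.b b1_10))) (BTr.n (BTr.n (BTr.b b1_11) (BTr.b b1_12)) (BTr.n (BTr.b b1_13) (BTr.b b1_14)))))
namespace T1
def l0 : Tr := Tr.L (Pth.l (Pth.l (Pth.l Pth.z)))
def l1 : Tr := Tr.L (Pth.l (Pth.l (Pth.r (Pth.l Pth.z))))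
def l2 : Tr := Tr.L (Pth.l (Pth.l (Pth.r (Pth.r Pth.z))))
def l3 : Tr := Tr.L (Pth.l (Pth.r (Pth.l (Pth.l Pth.z))))
def l4 : Tr := Tr.L (Pth.l (Pth.r (Pth.l (Pth.r Pth.z))))
def l5 : Tr := Tr.L (Pth.l (Pth.r (Pth.r (Pth.l Pth.z))))
def l6 : Tr := Tr.L (Pth.l (Pth.r (Pth.r (Pth.r Pth.z))))
def l7 : Tr := Tr.L (Pth.r (Pth.l (Pth.l (Pth.l Pth.z))))
def l8 : Tr := Tr.L (Pth.r (Pth.l (Pth.l (Pth.r Pth.z))))
def l9 : Tr := Tr.L (Pth.r (Pth.l (Pth.r (Pth.l Pth.z))))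
def l10 : Tr := Tr.L (Pth.r (Pth.l (Pth.r (Pth.r Pth.z))))
def l11 : Tr := Tr.L (Pth.r (Pth.r (Pth.l (Pth.l Pth.z))))
def l12 : Tr := Tr.L (Pth.r (Pth.r (Pth.l (Pth.r Pth.z))))
def l13 : Tr := Tr.L (Pth.r (Pth.r (Pth.r (Pth.l Pth.z))))
def l14 : Tr := Tr.L (Pth.r (Pth.r (Pth.r (Pth.r Pth.z))))
end T1
def b2_0 : Bx := Bx.mk (St.mk (I.pos (nat_lit 117948416) (nat_lit 215302144)) (I.mix (nat_lit 278528) (nat_lit 87605248)) (I.mix (nat_lit 278528) (nat_lit 121683968)) (I.pos (nat_lit 376406016) (nat_lit 484540416)) (I.mix (nat_lit 240435200) (nat_lit 123781120)) (I.mix (nat_lit 143654912) (nat_lit 120143872)) (I.mix (nat_lit 181452800) (nat_lit 182747136)))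
  false (nat_lit 58255609)
def b2_1 : Bx := Bx.mk (St.mk (I.pos (nat_lit 22446080) (nat_lit 107364352)) (I.mix (nat_lit 97992704) (nat_lit 720896)) (I.mix (nat_lit 62963712) (nat_lit 27410432)) (I.pos (nat_lit 286408704) (nat_lit 339263488)) (I.mix (nat_lit 160972800) (nat_lit 146374656)) (I.mix (nat_lit 130711552) (nat_lit 134135808)) (I.mix (nat_lit 143556608) (nat_lit 125632512)))
  false (nat_lit 138170386)
def b2_2 : Bx := Bx.mk (St.mk (I.pos (nat_lit 96387072) (nat_lit 170147840)) (I.mix (nat_lit 49430528) (nat_lit 78020608)) (I.mix (nat_lit 15597568) (nat_lit 121470976)) (I.pos (nat_lit 323682304) (nat_lit 423903232)) (I.mix (nat_lit 248627200) (nat_lit 129662976)) (I.mix (nat_lit 207388672) (nat_lit 161857536)) (I.mix (nat_lit 216186880) (nat_lit 219119616)))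
  false (nat_lit 68510406)
def b2_3 : Bx := Bx.mk (St.mk (I.neg (nat_lit 23904256) (nat_lit 110673920)) (I.mix (nat_lit 1638400) (nat_lit 97959936)) (I.mix (nat_lit 62963712) (nat_lit 28426240)) (I.pos (nat_lit 287096832) (nat_lit 339263488)) (I.mix (nat_lit 146391040) (nat_lit 160989184)) (I.mix (nat_lit 134135808) (nat_lit 130711552)) (I.mix (nat_lit 143572992) (nat_lit 125648896)))
  true (nat_lit 0)
def b2_4 : Bx := Bx.mk (St.mk (I.pos (nat_lit 70582272) (nat_lit 112197632)) (I.mix (nat_lit 41205760) (nat_lit 2195456)) (I.mix (nat_lit 8732672) (nat_lit 28884992)) (I.pos (nat_lit 303251456) (nat_lit 338444288)) (I.mix (nat_lit 116441088) (nat_lit 99565568)) (I.mix (nat_lit 74334208) (nat_lit 93601792)) (I.mix (nat_lit 73531392) (nat_lit 76840960)))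
  false (nat_lit 0)
def b2_5 : Bx := Bx.mk (St.mk (I.mix (nat_lit 60915712) (nat_lit 11337728)) (I.mix (nat_lit 5341184) (nat_lit 90816512)) (I.neg (nat_lit 24870912) (nat_lit 50266112)) (I.pos (nat_lit 278888448) (nat_lit 312213504)) (I.mix (nat_lit 111656960) (nat_lit 155713536)) (I.mix (nat_lit 122126336) (nat_lit 108937216)) (I.mix (nat_lit 73580544) (nat_lit 49250304)))
  true (nat_lit 0)
def b2_6 : Bx := Bx.mk (St.mk (I.pos (nat_lit 9289728) (nat_lit 60915712)) (I.neg (nat_lit 31948800) (nat_lit 90816512)) (I.neg (nat_lit 25509888) (nat_lit 50266112)) (I.pos (nat_lit 284475392) (nat_lit 312213504)) (I.mix (nat_lit 152485888) (nat_lit 81608704)) (I.mix (nat_lit 107413504) (nat_lit 118390784)) (I.mix (nat_lit 73842688) (nat_lit 49250304)))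
  false (nat_lit 67367239)
def b2_7 : Bx := Bx.mk (St.mk (I.pos (nat_lit 161497088) (nat_lit 260292608)) (I.mix (nat_lit 8306688) (nat_lit 50741248)) (I.mix (nat_lit 68583424) (nat_lit 42156032)) (I.pos (nat_lit 404946944) (nat_lit 574275584)) (I.mix (nat_lit 161595392) (nat_lit 95371264)) (I.mix (nat_lit 104529920) (nat_lit 96419840)) (I.mix (nat_lit 172638208) (nat_lit 167198720)))
  false (nat_lit 0)
def b2_8 : Bx := Bx.mk (St.mk (I.mix (nat_lit 11173888) (nat_lit 47022080)) (I.mix (nat_lit 39632896) (nat_lit 5341184)) (I.neg (nat_lit 24854528) (nat_lit 34258944)) (I.pos (nat_lit 278888448) (nat_lit 292077568)) (I.mix (nat_lit 72400896) (nat_lit 87146496)) (I.mix (nat_lit 65519616) (nat_lit 59719680)) (I.mix (nat_lit 23937024) (nat_lit 18939904)))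
  false (nat_lit 0)
def b2_9 : Bx := Bx.mk (St.mk (I.mix (nat_lit 10797056) (nat_lit 11141120)) (I.mix (nat_lit 5128192) (nat_lit 20742144)) (I.neg (nat_lit 30375936) (nat_lit 32309248)) (I.pos (nat_lit 278888448) (nat_lit 282083328)) (I.mix (nat_lit 29868032) (nat_lit 45350912)) (I.mix (nat_lit 31473664) (nat_lit 22577152)) (I.neg (nat_lit 671744) (nat_lit 5799936)))
  true (nat_lit 0)
def b2_10 : Bx := Bx.mk (St.mk (I.pos (nat_lit 145096704) (nat_lit 199507968)) (I.pos (nat_lit 16138240) (nat_lit 82427904)) (I.pos (nat_lit 7585792) (nat_lit 105103360)) (I.pos (nat_lit 389693440) (nat_lit 468598784)) (I.mix (nat_lit 192577536) (nat_lit 114851840)) (I.mix (nat_lit 145473536) (nat_lit 97632256)) (I.mix (nat_lit 229654528) (nat_lit 157302784)))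
  false (nat_lit 14596162)
def b2_11 : Bx := Bx.mk (St.mk (I.pos (nat_lit 10469376) (nat_lit 49676288)) (I.neg (nat_lit 18219008) (nat_lit 67780608)) (I.neg (nat_lit 27918336) (nat_lit 45629440)) (I.pos (nat_lit 283525120) (nat_lit 298565632)) (I.mix (nat_lit 116588544) (nat_lit 107118592)) (I.mix (nat_lit 77987840) (nat_lit 108363776)) (I.mix (nat_lit 39714816) (nat_lit 30490624)))
  false (nat_lit 36961194)
def t2 : BTr := (BTr.n (BTr.n (BTr.n (BTr.b b2_0) (BTr.n (BTr.b b2_1) (BTr.b b2_2))) (BTr.n (BTr.b b2_3) (BTr.n (BTr.b b2_4) (BTr.b b2_5)))) (BTr.n (BTr.n (BTr.b b2_6) (BTr.n (BTr.b b2_7) (BTr.b b2_8))) (BTr.n (BTr.b b2_9) (BTr.n (BTr.b b2_10) (BTr.b b2_11)))))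
namespace T2
def l0 : Tr := Tr.L (Pth.l (Pth.l (Pth.l Pth.z)))
def l1 : Tr := Tr.L (Pth.l (Pth.l (Pth.r (Pth.l Pth.z))))
def l2 : Tr := Tr.L (Pth.l (Pth.l (Pth.r (Pth.r Pth.z))))
def l3 : Tr := Tr.L (Pth.l (Pth.r (Pth.l Pth.z)))
def l4 : Tr := Tr.L (Pth.l (Pth.r (Pth.r (Pth.l Pth.z))))
def l5 : Tr := Tr.L (Pth.l (Pth.r (Pth.r (Pth.r Pth.z))))
def l6 : Tr := Tr.L (Pth.r (Pth.l (Pth.l Pth.z)))
def l7 : Tr := Tr.L (Pth.r (Pth.l (Pth.r (Pth.l Pth.z))))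
def l8 : Tr := Tr.L (Pth.r (Pth.l (Pth.r (Pth.r Pth.z))))
def l9 : Tr := Tr.L (Pth.r (Pth.r (Pth.l Pth.z)))
def l10 : Tr := Tr.L (Pth.r (Pth.r (Pth.r (Pth.l Pth.z))))
def l11 : Tr := Tr.L (Pth.r (Pth.r (Pth.r (Pth.r Pth.z))))
end T2
theorem bx0_0 : BoxOK sI cl4 cl4 cl5 t0 t2 b0_0 :=
  box_mk (TrL.c (I.pos (nat_lit 0) (nat_lit 0)) (xb (xa (xb (xa T0.l9 T0.l0) (xa T0.l9 T0.l0)) (xb T0.l0 (xa T0.l0 T0.l0))) (xa (xb (xa (xb T0.l9 (xa T0.l9 T0.l0)) (xb T0.l0 T0.l0)) (xa (xb (xa (xb T0.l0 T0.l0) T0.l0) (xa (xb T0.l0 (xs T0.l0 T0.l0)) (xb T0.l0 T0.l0))) (xb (xa T0.l0 T0.l0) (xa (xb T0.l0 T0.l0) (xb T0.l0 T0.l0))))) (xb (xa (xb T0.l0 T0.l0) T0.l0) (xa (xb (xa T0.l0 T0.l0) (xa (xb T0.l0 T0.l0) (xb T0.l0 T0.l0))) (xb (xa T0.l0 T0.l0) (xa (xb T0.l0 T0.l0) (xb T0.l0 T0.l0)))))))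
  (TrL.c (I.pos (nat_lit 0) (nat_lit 0)) (xb (xa T2.l1 T2.l1) (xa (xb T2.l1 (xa T2.l1 T2.l1)) (xb T2.l1 (xa T2.l1 T2.l1))))
  (TrL.c (I.pos (nat_lit 0) (nat_lit 0)) (xa T0.l1 (xb T0.l1 (xa T0.l1 (xb T0.l1 T0.l1))))
  (TrL.c (I.pos (nat_lit 0) (nat_lit 0)) (xb (xa T2.l2 (xb (xa T2.l2 T2.l2) (xa T2.l2 T2.l2))) (xa (xb T2.l2 (xa T2.l2 T2.l2)) (xb (xa T2.l2 (xb T2.l2 T2.l2)) (xa (xb T2.l2 T2.l2) (xb (xa T2.l2 T2.l2) (xa T2.l2 T2.l2))))))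
  (TrL.c (I.pos (nat_lit 0) (nat_lit 0)) (xa (xb (xb T0.l2 T0.l2) T0.l2) (xb T0.l2 (xa T0.l2 (xb T0.l2 T0.l2))))
  (TrL.c (I.pos (nat_lit 0) (nat_lit 0)) (xb (xa T2.l3 T2.l3) (xa (xb T2.l3 (xa T2.l3 T2.l3)) (xb T2.l3 (xa T2.l3 T2.l3))))
  TrL.n)))))) (by decide +kernel)
theorem bx0_1 : BoxOK sI cl4 cl4 cl5 t0 t2 b0_1 :=
  box_mk (TrL.c (I.pos (nat_lit 0) (nat_lit 0)) (xb T2.l4 T2.l4)
  (TrL.c (I.pos (nat_lit 0) (nat_lit 0)) (xb T0.l1 (xb T0.l1 T0.l1))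
  TrL.n)) (by decide +kernel)
theorem bx0_2 : BoxOK sI cl4 cl4 cl5 t0 t2 b0_2 :=
  box_mk (TrL.c (I.pos (nat_lit 0) (nat_lit 0)) (xb (xa (xb (xa (xb T0.l4 T0.l4) T0.l4) (xa (xb T0.l4 T0.l4) T0.l4)) (xb T0.l9 T0.l9)) (xa (xb (xa (xb T0.l4 T0.l4) T0.l4) (xa (xb T0.l4 T0.l9) T0.l9)) T0.l9))
  (TrL.c (I.pos (nat_lit 0) (nat_lit 0)) (xb T2.l4 T2.l1)
  (TrL.c (I.pos (nat_lit 0) (nat_lit 0)) (xb T0.l1 T0.l1)
  (TrL.c (I.pos (nat_lit 0) (nat_lit 0)) T2.l2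
  (TrL.c (I.pos (nat_lit 0) (nat_lit 0)) (xb T0.l5 T0.l10)
  (TrL.c (I.pos (nat_lit 0) (nat_lit 0)) T2.l3
  TrL.n)))))) (by decide +kernel)
theorem bx0_3 : BoxOK sI cl4 cl4 cl5 t0 t2 b0_3 :=
  box_mk (TrL.c (I.pos (nat_lit 0) (nat_lit 0)) T2.l4
  (TrL.c (I.pos (nat_lit 0) (nat_lit 0)) T0.l1
  TrL.n)) (by decide +kernel)
theorem bx0_4 : BoxOK sI cl4 cl4 cl5 t0 t2 b0_4 :=
  box_mk (TrL.c (I.pos (nat_lit 0) (nat_lit 0)) (xa T0.l0 T0.l7)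
  (TrL.c (I.pos (nat_lit 0) (nat_lit 0)) (xa T2.l1 (xb T2.l1 T2.l1))
  (TrL.c (I.pos (nat_lit 0) (nat_lit 0)) T0.l8
  (TrL.c (I.pos (nat_lit 0) (nat_lit 0)) (xa T2.l2 (xb (xa T2.l2 (xb T2.l2 T2.l2)) T2.l2))
  (TrL.c (I.pos (nat_lit 0) (nat_lit 0)) T0.l6
  (TrL.c (I.pos (nat_lit 0) (nat_lit 0)) (xa T2.l3 (xb T2.l3 T2.l3))
  TrL.n)))))) (by decide +kernel)
theorem bx0_5 : BoxOK sI cl4 cl4 cl5 t0 t2 b0_5 :=
  box_mk (TrL.c (I.pos (nat_lit 0) (nat_lit 0)) (xb T0.l4 (xa (xb T0.l4 T0.l4) T0.l4))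
  (TrL.c (I.pos (nat_lit 0) (nat_lit 0)) T2.l4
  (TrL.c (I.pos (nat_lit 0) (nat_lit 0)) T0.l1
  (TrL.c (I.pos (nat_lit 0) (nat_lit 0)) T2.l2
  (TrL.c (I.pos (nat_lit 0) (nat_lit 0)) T0.l10
  (TrL.c (I.pos (nat_lit 0) (nat_lit 0)) T2.l3
  TrL.n)))))) (by decide +kernel)
theorem bx0_6 : BoxOK sI cl4 cl4 cl5 t0 t2 b0_6 :=
  box_mk (TrL.c (I.pos (nat_lit 0) (nat_lit 0)) (xa (xb (xa (xb (xa (xb T0.l9 T0.l9) (xb T0.l9 T0.l9)) (xa T0.l9 T0.l9)) (xb (xa T0.l9 T0.l9) T0.l9)) (xa (xb T0.l9 (xa (xb T0.l9 T0.l9) T0.l9)) T0.l9)) (xb (xa (xb T0.l9 T0.l9) (xb (xa T0.l9 T0.l9) T0.l9)) (xa T0.l9 T0.l9)))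
  (TrL.c (I.pos (nat_lit 0) (nat_lit 0)) (xa (xb T2.l1 T2.l1) T2.l1)
  (TrL.c (I.pos (nat_lit 0) (nat_lit 0)) (xa (xb T0.l1 T0.l1) (xb T0.l1 T0.l1))
  (TrL.c (I.pos (nat_lit 0) (nat_lit 0)) (xa T2.l2 (xb T2.l2 T2.l2))
  (TrL.c (I.pos (nat_lit 0) (nat_lit 0)) (xa (xb T0.l10 T0.l10) (xb T0.l10 T0.l10))
  (TrL.c (I.pos (nat_lit 0) (nat_lit 0)) (xa T2.l3 T2.l3)
  TrL.n)))))) (by decide +kernel)
theorem c0_7_0 : chkTag sI cl4 cl4 cl5 t0 b0_7 (tg true true false RT.r2) (I.pos (nat_lit 0) (nat_lit 0))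
  (xb (xa (xb (xa (xb (xa (xb (xs T0.l9 (xb (xa T0.l9 T0.l9) T0.l9)) T0.l9) (xb T0.l9 T0.l9)) (xa T0.l9 T0.l9)) (xb (xa T0.l9 T0.l9) T0.l9)) (xa (xb (xa T0.l9 T0.l9) (xa (xb T0.l9 T0.l9) T0.l9)) (xb T0.l9 T0.l9))) (xb (xa (xb (xa T0.l9 T0.l9) T0.l9) (xb (xa T0.l9 T0.l7) T0.l0)) (xa (xb T0.l9 T0.l9) (xb T0.l9 T0.l9)))) (xa (xb (xa (xb (xa (xb T0.l9 T0.l9) T0.l9) (xa (xb T0.l9 (xc T0.l9 T0.l9)) T0.l9)) (xb T0.l9 T0.l9)) (xa (xb (xa (xb (xc T0.l9 T0.l9) (xa T0.l9 T0.l9)) T0.l9) (xa (xb (xa T0.l9 T0.l9) (xa T0.l9 T0.l9)) (xb T0.l9 T0.l9))) (xb (xa T0.l9 T0.l9) (xa (xb T0.l9 T0.l9) T0.l9)))) (xb (xa (xb T0.l9 T0.l9) (xb T0.l9 (xa T0.l9 T0.l9))) (xa (xb (xa T0.l9 T0.l9) (xa (xb T0.l9 T0.l9) (xb T0.l9 (xa T0.l9 T0.l9)))) (xb (xa T0.l9 T0.l9) (xa (xb T0.l9 (xa T0.l9 T0.l9)) (xb T0.l9 T0.l0))))))) = true := by decide +kernel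
theorem c0_7_1 : chkTag sI cl4 cl4 cl5 t2 b0_7 (tg true false false RT.r3) (I.pos (nat_lit 0) (nat_lit 0))
  (xb (xa T2.l1 T2.l1) (xa (xb T2.l1 T2.l1) (xb T2.l1 (xa T2.l1 T2.l1)))) = true := by decide +kernel
theorem c0_7_2 : chkTag sI cl4 cl4 cl5 t0 b0_7 (tg true true true RT.r4) (I.pos (nat_lit 0) (nat_lit 0))
  (xb (xa (xc T0.l1 T0.l1) (xc T0.l1 T0.l1)) (xa (xb T0.l1 T0.l1) (xc T0.l1 T0.l1))) = true := by decide +kernel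
theorem c0_7_3 : chkTag sI cl4 cl4 cl5 t2 b0_7 (tg false false false RT.r3) (I.pos (nat_lit 0) (nat_lit 0))
  (xb (xa (xb (xa T2.l2 T2.l2) T2.l2) (xb (xa (xc T2.l2 T2.l2) (xc T2.l2 T2.l2)) T2.l2)) (xa (xb T2.l2 (xa T2.l2 T2.l2)) (xb (xa T2.l2 T2.l2) (xa T2.l2 (xb T2.l2 T2.l2))))) = true := by decide +kernel
theorem c0_7_4 : chkTag sI cl4 cl4 cl5 t0 b0_7 (tg false true false RT.r4) (I.pos (nat_lit 0) (nat_lit 0))
  (xa (xb (xc T0.l10 T0.l10) (xc (xb T0.l10 T0.l10) (xb T0.l10 T0.l10))) (xb (xc T0.l6 (xb T0.l10 T0.l10)) (xc T0.l2 T0.l2))) = true := by decide +kernel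
theorem c0_7_5 : chkTag sI cl4 cl4 cl5 t2 b0_7 (tg false false true RT.r5) (I.pos (nat_lit 0) (nat_lit 0))
  (xb (xa T2.l3 T2.l3) (xa (xb T2.l3 T2.l3) (xb T2.l3 (xa T2.l3 T2.l3)))) = true := by decide +kernel
theorem bx0_7 : BoxOK sI cl4 cl4 cl5 t0 t2 b0_7 :=
  box_mk' [(tg true true false RT.r2), (tg true false false RT.r3), (tg true true true RT.r4), (tg false false false RT.r3), (tg false true false RT.r4), (tg false false true RT.r5)] rfl (allL_c (ex_mk c0_7_0) (allL_c (ex_mk c0_7_1) (allL_c (ex_mk c0_7_2) (allL_c (ex_mk c0_7_3) (allL_c (ex_mk c0_7_4) (allL_c (ex_mk c0_7_5) allL_n))))))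
theorem bx0_8 : BoxOK sI cl4 cl4 cl5 t0 t2 b0_8 :=
  box_mk (TrL.c (I.pos (nat_lit 0) (nat_lit 0)) (xa T2.l1 (xb T2.l4 T2.l1))
  (TrL.c (I.pos (nat_lit 0) (nat_lit 0)) (xa (xb T0.l1 T0.l1) (xc T0.l1 T0.l1))
  TrL.n)) (by decide +kernel)
theorem c0_9_0 : chkTag sI cl4 cl4 cl5 t0 b0_9 (tg true true false RT.r2) (I.pos (nat_lit 0) (nat_lit 0))
  (xb (xa (xb (xa (xb T0.l0 T0.l0) (xb T0.l0 T0.l0)) (xa (xb T0.l9 (xc T0.l9 T0.l0)) (xb T0.l0 T0.l0))) (xb (xa T0.l0 T0.l7) (xa T0.l7 (xb T0.l0 T0.l0)))) (xa (xb (xa (xb (xa T0.l9 T0.l0) (xa (xc T0.l9 T0.l0) (xc T0.l0 T0.l0))) (xb (xc T0.l0 T0.l0) (xa T0.l0 T0.l0))) (xa (xb (xa (xc T0.l9 T0.l0) (xc T0.l9 T0.l0)) (xa (xc (xb T0.l0 T0.l0) (xb T0.l0 T0.l0)) (xc (xb T0.l0 T0.l0) T0.l0))) (xb (xa (xc T0.l0 T0.l0) T0.l0) (xa (xc T0.l0 T0.l0) (xc T0.l0 T0.l0))))) (xb (xa (xb T0.l0 (xa T0.l0 T0.l0))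 (xb T0.l0 (xa T0.l0 T0.l0))) (xa (xb (xa T0.l0 T0.l0) (xa T0.l0 T0.l0)) (xb (xa T0.l0 (xc T0.l0 T0.l0)) (xa (xc T0.l0 T0.l0) (xc T0.l0 (xb T0.l0 T0.l0)))))))) = true := by decide +kernel
theorem c0_9_1 : chkTag sI cl4 cl4 cl5 t2 b0_9 (tg true false false RT.r3) (I.pos (nat_lit 0) (nat_lit 0))
  (xb (xa (xb T2.l1 T2.l1) (xb (xc T2.l1 T2.l1) (xc T2.l1 T2.l1))) (xa (xb T2.l1 (xc T2.l1 (xa T2.l1 T2.l1))) (xb (xc T2.l1 T2.l1) (xc (xa T2.l1 T2.l1) (xa T2.l1 T2.l1))))) = true := by decide +kernel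
theorem c0_9_2 : chkTag sI cl4 cl4 cl5 t0 b0_9 (tg true true true RT.r4) (I.pos (nat_lit 0) (nat_lit 0))
  (xc (xb (xa T0.l8 T0.l8) (xa T0.l1 (xb T0.l1 (xc T0.l1 T0.l1)))) (xb (xa T0.l1 (xc T0.l1 T0.l1)) (xa T0.l1 (xb T0.l1 (xc T0.l1 T0.l1))))) = true := by decide +kernel
theorem c0_9_3 : chkTag sI cl4 cl4 cl5 t2 b0_9 (tg false false false RT.r3) (I.pos (nat_lit 0) (nat_lit 0))
  (xb (xa (xb (xc T2.l2 T2.l2) (xc T2.l2 T2.l2)) (xb (xc (xa (xb T2.l2 T2.l2) (xb (xc T2.l2 T2.l2) T2.l2)) (xa T2.l2 (xb (xc T2.l2 T2.l2) T2.l2))) (xc (xa T2.l2 (xb T2.l2 T2.l2)) (xa T2.l2 (xb T2.l2 T2.l2))))) (xa (xb (xc T2.l2 T2.l2) (xc T2.l2 T2.l2)) (xb (xc (xa T2.l2 (xb (xc T2.l2 T2.l2) (xc T2.l2 T2.l2))) (xa T2.l2 (xb T2.l2 T2.l2))) (xc (xa (xb T2.l2 T2.l2) (xb (xc T2.l2 T2.l2) (xc T2.l2 T2.l2))) (xa (xb T2.l2 T2.l2) (xb (xc T2.l2 T2.l2) (xc T2.l2 T2.l2)))))))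 = true := by decide +kernel
theorem c0_9_4 : chkTag sI cl4 cl4 cl5 t0 b0_9 (tg false true false RT.r4) (I.pos (nat_lit 0) (nat_lit 0))
  (xb (xc (xa T0.l6 T0.l6) (xa T0.l6 (xc T0.l6 T0.l6))) (xc (xa T0.l2 (xb T0.l2 (xc T0.l2 T0.l2))) (xa T0.l2 (xb T0.l2 (xc T0.l2 T0.l2))))) = true := by decide +kernel
theorem c0_9_5 : chkTag sI cl4 cl4 cl5 t2 b0_9 (tg false false true RT.r5) (I.pos (nat_lit 0) (nat_lit 0))
  (xb (xa (xb T2.l3 T2.l3) (xb (xc T2.l3 T2.l3) (xc T2.l3 T2.l3))) (xa (xb T2.l3 (xc T2.l3 (xa T2.l3 T2.l3))) (xb (xc T2.l3 T2.l3) (xc (xa T2.l3 T2.l3) (xa T2.l3 T2.l3))))) = true := by decide +kernel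
theorem bx0_9 : BoxOK sI cl4 cl4 cl5 t0 t2 b0_9 :=
  box_mk' [(tg true true false RT.r2), (tg true false false RT.r3), (tg true true true RT.r4), (tg false false false RT.r3), (tg false true false RT.r4), (tg false false true RT.r5)] rfl (allL_c (ex_mk c0_9_0) (allL_c (ex_mk c0_9_1) (allL_c (ex_mk c0_9_2) (allL_c (ex_mk c0_9_3) (allL_c (ex_mk c0_9_4) (allL_c (ex_mk c0_9_5) allL_n))))))
theorem bx0_10 : BoxOK sI cl4 cl4 cl5 t0 t2 b0_10 :=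
  box_mk (TrL.c (I.pos (nat_lit 0) (nat_lit 0)) (xb (xa (xb (xa (xb T0.l4 T0.l4) T0.l4) (xa T0.l4 T0.l4)) T0.l9) (xa (xb T0.l4 (xa (xb T0.l4 T0.l4) T0.l4)) (xb T0.l4 (xa T0.l4 T0.l4))))
  (TrL.c (I.pos (nat_lit 0) (nat_lit 0)) T2.l4
  (TrL.c (I.pos (nat_lit 0) (nat_lit 0)) T0.l1
  (TrL.c (I.pos (nat_lit 0) (nat_lit 0)) (xb T2.l2 T2.l2)
  (TrL.c (I.pos (nat_lit 0) (nat_lit 0)) (xb T0.l5 T0.l10)
  (TrL.c (I.pos (nat_lit 0) (nat_lit 0)) (xb T2.l3 T2.l3)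
  TrL.n)))))) (by decide +kernel)
theorem bx0_11 : BoxOK sI cl4 cl4 cl5 t0 t2 b0_11 :=
  box_mk (TrL.c (I.pos (nat_lit 0) (nat_lit 0)) T0.l9
  (TrL.c (I.pos (nat_lit 0) (nat_lit 0)) T2.l1
  (TrL.c (I.pos (nat_lit 0) (nat_lit 0)) T0.l1
  (TrL.c (I.pos (nat_lit 0) (nat_lit 0)) T2.l2
  (TrL.c (I.pos (nat_lit 0) (nat_lit 0)) T0.l10
  (TrL.c (I.pos (nat_lit 0) (nat_lit 0)) T2.l3
  TrL.n)))))) (by decide +kernel)
theorem sv0 : StarV sI cl4 cl4 cl5 t0 t2 t0 :=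
  (bt_n (bt_n (bt_n (bt_b bx0_0) (bt_n (bt_b bx0_1) (bt_b bx0_2))) (bt_n (bt_b bx0_3) (bt_n (bt_b bx0_4) (bt_b bx0_5)))) (bt_n (bt_n (bt_b bx0_6) (bt_n (bt_b bx0_7) (bt_b bx0_8))) (bt_n (bt_b bx0_9) (bt_n (bt_b bx0_10) (bt_b bx0_11)))))
def S0 : StarD := StarD.mk cl4 cl4 cl5 0 2 t0
theorem bx1_0 : BoxOK sI cl4 cl5 cl4 t2 t0 b1_0 :=
  box_mk (TrL.c (I.pos (nat_lit 0) (nat_lit 0)) (xa (xb (xa (xb T2.l0 T2.l0) (xb T2.l0 T2.l0)) (xa (xb (xa T2.l0 T2.l0) (xa (xb T2.l0 (xa T2.l0 T2.l0)) (xb T2.l0 (xa T2.l0 T2.l0)))) (xb T2.l0 (xa (xb T2.l0 (xa T2.l0 T2.l0)) (xb T2.l0 (xs T2.l0 T2.l0)))))) (xb (xa T2.l0 (xb T2.l0 T2.l0)) (xa (xb T2.l0 (xa (xb T2.l0 T2.l0) (xb T2.l0 T2.l0))) (xb T2.l0 (xa (xb T2.l0 T2.l0) (xb T2.l0 (xs T2.l0 T2.l0)))))))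
  (TrL.c (I.pos (nat_lit 0) (nat_lit 0)) (xa (xb T0.l6 (xa T0.l6 T0.l6)) (xb T0.l6 (xa T0.l6 (xb T0.l6 T0.l6))))
  (TrL.c (I.pos (nat_lit 0) (nat_lit 0)) (xa T2.l5 (xb T2.l5 T2.l5))
  (TrL.c (I.pos (nat_lit 0) (nat_lit 0)) (xa T0.l7 (xb T0.l7 (xa T0.l7 T0.l7)))
  (TrL.c (I.pos (nat_lit 0) (nat_lit 0)) (xa (xb T2.l6 T2.l6) (xb T2.l6 (xa T2.l6 T2.l6)))
  (TrL.c (I.pos (nat_lit 0) (nat_lit 0)) (xa (xb T0.l8 (xa T0.l8 T0.l8)) (xb T0.l8 (xa T0.l8 (xb T0.l8 T0.l8))))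
  TrL.n)))))) (by decide +kernel)
theorem bx1_1 : BoxOK sI cl4 cl5 cl4 t2 t0 b1_1 :=
  box_mk (TrL.c (I.pos (nat_lit 0) (nat_lit 0)) (xa (xb (xa (xb T2.l7 T2.l7) (xb T2.l7 T2.l7)) (xa (xb T2.l7 T2.l7) (xb T2.l7 T2.l7))) (xb (xa (xb T2.l7 T2.l7) (xb T2.l7 T2.l7)) (xa T2.l7 T2.l0)))
  (TrL.c (I.pos (nat_lit 0) (nat_lit 0)) (xa (xb T0.l6 T0.l6) T0.l6)
  (TrL.c (I.pos (nat_lit 0) (nat_lit 0)) T2.l5
  (TrL.c (I.pos (nat_lit 0) (nat_lit 0)) (xa (xb (xa T0.l7 T0.l7) T0.l7) T0.l7)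
  (TrL.c (I.pos (nat_lit 0) (nat_lit 0)) (xb (xa T2.l8 T2.l8) (xa T2.l8 T2.l8))
  (TrL.c (I.pos (nat_lit 0) (nat_lit 0)) (xa (xb T0.l8 T0.l8) T0.l8)
  TrL.n)))))) (by decide +kernel)
theorem bx1_2 : BoxOK sI cl4 cl5 cl4 t2 t0 b1_2 :=
  box_mk (TrL.c (I.pos (nat_lit 0) (nat_lit 0)) (xb T2.l7 (xa (xb T2.l7 (xa T2.l7 T2.l7)) (xb T2.l7 (xa T2.l7 T2.l7))))
  (TrL.c (I.pos (nat_lit 0) (nat_lit 0)) T0.l6
  (TrL.c (I.pos (nat_lit 0) (nat_lit 0)) T2.l5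
  (TrL.c (I.pos (nat_lit 0) (nat_lit 0)) T0.l7
  (TrL.c (I.pos (nat_lit 0) (nat_lit 0)) T2.l8
  (TrL.c (I.pos (nat_lit 0) (nat_lit 0)) T0.l8
  TrL.n)))))) (by decide +kernel)
theorem bx1_3 : BoxOK sI cl4 cl5 cl4 t2 t0 b1_3 :=
  box_mk (TrL.c (I.pos (nat_lit 0) (nat_lit 0)) T0.l6
  (TrL.c (I.pos (nat_lit 0) (nat_lit 0)) T2.l5
  TrL.n)) (by decide +kernel)
theorem bx1_4 : BoxOK sI cl4 cl5 cl4 t2 t0 b1_4 :=
  box_mk (TrL.c (I.pos (nat_lit 0) (nat_lit 0)) (xb (xa (xb T2.l10 (xa T2.l10 T2.l10)) (xb (xa T2.l10 T2.l10) (xa T2.l10 T2.l10))) (xa (xb (xa T2.l10 T2.l10) (xa (xb T2.l10 T2.l10) (xb T2.l10 T2.l10))) (xb (xa T2.l10 T2.l10) (xa (xb T2.l10 T2.l10) (xb T2.l10 T2.l10)))))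
  (TrL.c (I.pos (nat_lit 0) (nat_lit 0)) (xb T0.l6 (xa T0.l6 T0.l6))
  (TrL.c (I.pos (nat_lit 0) (nat_lit 0)) T2.l5
  (TrL.c (I.pos (nat_lit 0) (nat_lit 0)) T0.l7
  (TrL.c (I.pos (nat_lit 0) (nat_lit 0)) (xb (xa T2.l11 T2.l11) (xa T2.l11 T2.l6))
  (TrL.c (I.pos (nat_lit 0) (nat_lit 0)) (xb T0.l8 (xa T0.l8 T0.l8))
  TrL.n)))))) (by decide +kernel)
theorem bx1_5 : BoxOK sI cl4 cl5 cl4 t2 t0 b1_5 :=
  box_mk (TrL.c (I.pos (nat_lit 0) (nat_lit 0)) (xb (xb T2.l7 T2.l7) (xb T2.l7 (xa T2.l7 T2.l7)))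
  (TrL.c (I.pos (nat_lit 0) (nat_lit 0)) T0.l6
  (TrL.c (I.pos (nat_lit 0) (nat_lit 0)) T2.l5
  (TrL.c (I.pos (nat_lit 0) (nat_lit 0)) T0.l7
  (TrL.c (I.pos (nat_lit 0) (nat_lit 0)) (xb T2.l8 T2.l8)
  (TrL.c (I.pos (nat_lit 0) (nat_lit 0)) T0.l8
  TrL.n)))))) (by decide +kernel)
theorem bx1_6 : BoxOK sI cl4 cl5 cl4 t2 t0 b1_6 :=
  box_mk (TrL.c (I.pos (nat_lit 0) (nat_lit 0)) (xb (xa (xb (xa T2.l7 T2.l7) T2.l7) T2.l7) (xa (xb T2.l7 (xa T2.l7 T2.l7)) T2.l7))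
  (TrL.c (I.pos (nat_lit 0) (nat_lit 0)) T0.l6
  (TrL.c (I.pos (nat_lit 0) (nat_lit 0)) T2.l5
  (TrL.c (I.pos (nat_lit 0) (nat_lit 0)) T0.l7
  (TrL.c (I.pos (nat_lit 0) (nat_lit 0)) T2.l8
  (TrL.c (I.pos (nat_lit 0) (nat_lit 0)) T0.l8
  TrL.n)))))) (by decide +kernel)
theorem bx1_7 : BoxOK sI cl4 cl5 cl4 t2 t0 b1_7 :=
  box_mk (TrL.c (I.pos (nat_lit 0) (nat_lit 0)) T0.l6
  (TrL.c (I.pos (nat_lit 0) (nat_lit 0)) T2.l5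
  TrL.n)) (by decide +kernel)
theorem c1_8_0 : chkTag sI cl4 cl5 cl4 t2 b1_8 (tg true true false RT.r2) (I.pos (nat_lit 0) (nat_lit 0))
  (xb (xa (xb (xa (xb (xa T2.l0 T2.l0) (xa T2.l0 T2.l0)) (xb T2.l0 T2.l0)) (xa (xb (xa T2.l0 T2.l0) (xa T2.l0 T2.l0)) (xb T2.l0 T2.l0))) (xb (xa (xb T2.l0 T2.l0) (xb (xb (xa (xs T2.l2 (xb T2.l2 T2.l2)) (xs T2.l2 (xb T2.l2 T2.l2))) (xa (xs T2.l2 T2.l2) T2.l2)) (xb (xa T2.l0 (xs T2.l2 T2.l2)) (xa T2.l0 T2.l2)))) (xa T2.l2 T2.l2))) (xa (xb (xa (xb (xa T2.l0 T2.l0) (xa (xc T2.l0 T2.l0) T2.l0)) (xb (xa T2.l0 T2.l0) (xa T2.l0 T2.l0))) (xa (xb (xa (xc T2.l0 T2.l0) (xc T2.l0 T2.l0)) (xa (xc T2.l0 T2.l0) (xc T2.l0 T2.l0))) (xb (xa T2.l0 T2.l0) (xa (xc T2.l0 T2.l0) (xc T2.l0 T2.l0))))) (xb (xa (xb T2.l0 T2.l0) (xb T2.l2 (xa T2.l0 T2.l0))) (xa (xb (xa T2.l0 T2.l0) (xa (xc T2.l0 T2.l0) (xc T2.l0 T2.l0))) (xb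 (xa T2.l0 (xc T2.l0 (xs T2.l0 T2.l0))) (xa (xc T2.l0 (xs T2.l0 T2.l0)) (xs T2.l0 (xc T2.l0 T2.l0)))))))) = true := by decide +kernel
theorem c1_8_1 : chkTag sI cl4 cl5 cl4 t0 b1_8 (tg true false false RT.r3) (I.pos (nat_lit 0) (nat_lit 0))
  (xa (xb (xb (xa T0.l6 T0.l6) (xa T0.l6 T0.l6)) (xb (xa T0.l6 T0.l6) (xa T0.l6 (xc T0.l6 T0.l6)))) (xb (xb (xa T0.l6 T0.l6) (xa T0.l6 T0.l6)) (xa (xb T0.l6 (xc T0.l6 T0.l6)) (xb (xc T0.l6 T0.l6) (xc T0.l6 T0.l6))))) = true := by decide +kernel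
theorem c1_8_2 : chkTag sI cl4 cl5 cl4 t2 b1_8 (tg true true true RT.r4) (I.pos (nat_lit 0) (nat_lit 0))
  (xa (xc (xb T2.l5 (xb T2.l5 T2.l5)) (xb T2.l5 T2.l5)) (xc T2.l3 (xb T2.l3 (xa T2.l5 (xc T2.l3 T2.l3))))) = true := by decide +kernel
theorem c1_8_3 : chkTag sI cl4 cl5 cl4 t0 b1_8 (tg false false false RT.r3) (I.pos (nat_lit 0) (nat_lit 0))
  (xb (xa T0.l7 (xb (xa T0.l7 (xc T0.l7 (xb T0.l7 T0.l7))) (xa T0.l7 (xc T0.l7 T0.l7)))) (xa (xb T0.l7 T0.l7) (xb (xa T0.l7 (xc T0.l7 T0.l7)) (xa (xc T0.l7 T0.l7) (xc (xb T0.l7 T0.l7) (xb T0.l7 T0.l7)))))) = true := by decide +kernel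
theorem c1_8_4 : chkTag sI cl4 cl5 cl4 t2 b1_8 (tg false true false RT.r4) (I.pos (nat_lit 0) (nat_lit 0))
  (xa (xb T2.l1 (xc (xb T2.l6 T2.l6) (xb T2.l6 T2.l6))) (xc T2.l1 (xb T2.l1 (xa T2.l1 (xc T2.l1 T2.l1))))) = true := by decide +kernel
theorem c1_8_5 : chkTag sI cl4 cl5 cl4 t0 b1_8 (tg false false true RT.r5) (I.pos (nat_lit 0) (nat_lit 0))
  (xa (xb (xb (xa T0.l8 T0.l8) (xa T0.l8 T0.l8)) (xb (xa T0.l8 T0.l8) (xa T0.l8 (xc T0.l8 T0.l8)))) (xb (xb (xa T0.l8 T0.l8) (xa T0.l8 T0.l8)) (xa (xb T0.l8 (xc T0.l8 T0.l8)) (xb (xc T0.l8 T0.l8) (xc T0.l8 T0.l8))))) = true := by decide +kernel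
theorem bx1_8 : BoxOK sI cl4 cl5 cl4 t2 t0 b1_8 :=
  box_mk' [(tg true true false RT.r2), (tg true false false RT.r3), (tg true true true RT.r4), (tg false false false RT.r3), (tg false true false RT.r4), (tg false false true RT.r5)] rfl (allL_c (ex_mk c1_8_0) (allL_c (ex_mk c1_8_1) (allL_c (ex_mk c1_8_2) (allL_c (ex_mk c1_8_3) (allL_c (ex_mk c1_8_4) (allL_c (ex_mk c1_8_5) allL_n))))))
theorem bx1_9 : BoxOK sI cl4 cl5 cl4 t2 t0 b1_9 :=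
  box_mk (TrL.c (I.pos (nat_lit 0) (nat_lit 0)) (xb (xa (xb (xa T2.l10 T2.l10) (xa T2.l10 T2.l10)) (xb (xa T2.l10 T2.l10) (xa T2.l10 T2.l10))) (xa (xb (xa T2.l10 T2.l10) (xa (xb T2.l10 T2.l10) T2.l10)) (xb T2.l10 (xa T2.l10 T2.l10))))
  (TrL.c (I.pos (nat_lit 0) (nat_lit 0)) (xb (xa T0.l6 T0.l6) (xa T0.l6 T0.l6))
  (TrL.c (I.pos (nat_lit 0) (nat_lit 0)) (xb (xa T2.l5 T2.l5) T2.l5)
  (TrL.c (I.pos (nat_lit 0) (nat_lit 0)) (xb (xa T0.l7 (xb T0.l7 T0.l7)) T0.l7)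
  (TrL.c (I.pos (nat_lit 0) (nat_lit 0)) (xb (xa T2.l11 T2.l1) (xa T2.l11 T2.l1))
  (TrL.c (I.pos (nat_lit 0) (nat_lit 0)) (xb (xa T0.l8 T0.l8) (xa T0.l8 T0.l8))
  TrL.n)))))) (by decide +kernel)
theorem bx1_10 : BoxOK sI cl4 cl5 cl4 t2 t0 b1_10 :=
  box_mk (TrL.c (I.pos (nat_lit 0) (nat_lit 0)) T2.l0
  (TrL.c (I.pos (nat_lit 0) (nat_lit 0)) T0.l6
  (TrL.c (I.pos (nat_lit 0) (nat_lit 0)) T2.l5
  (TrL.c (I.pos (nat_lit 0) (nat_lit 0)) T0.l7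
  (TrL.c (I.pos (nat_lit 0) (nat_lit 0)) T2.l8
  (TrL.c (I.pos (nat_lit 0) (nat_lit 0)) T0.l8
  TrL.n)))))) (by decide +kernel)
theorem bx1_11 : BoxOK sI cl4 cl5 cl4 t2 t0 b1_11 :=
  box_mk (TrL.c (I.pos (nat_lit 0) (nat_lit 0)) T2.l7
  (TrL.c (I.pos (nat_lit 0) (nat_lit 0)) T0.l6
  (TrL.c (I.pos (nat_lit 0) (nat_lit 0)) T2.l5
  (TrL.c (I.pos (nat_lit 0) (nat_lit 0)) T0.l7
  (TrL.c (I.pos (nat_lit 0) (nat_lit 0)) T2.l8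
  (TrL.c (I.pos (nat_lit 0) (nat_lit 0)) T0.l8
  TrL.n)))))) (by decide +kernel)
theorem bx1_12 : BoxOK sI cl4 cl5 cl4 t2 t0 b1_12 :=
  box_mk (TrL.c (I.pos (nat_lit 0) (nat_lit 0)) T0.l6
  (TrL.c (I.pos (nat_lit 0) (nat_lit 0)) T2.l5
  TrL.n)) (by decide +kernel)
theorem bx1_13 : BoxOK sI cl4 cl5 cl4 t2 t0 b1_13 :=
  box_mk (TrL.c (I.pos (nat_lit 0) (nat_lit 0)) (xa (xb T2.l2 T2.l0) T2.l2)
  (TrL.c (I.pos (nat_lit 0) (nat_lit 0)) (xa T0.l6 (xb T0.l6 T0.l6))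
  (TrL.c (I.pos (nat_lit 0) (nat_lit 0)) T2.l3
  (TrL.c (I.pos (nat_lit 0) (nat_lit 0)) (xa T0.l7 (xb T0.l0 T0.l7))
  (TrL.c (I.pos (nat_lit 0) (nat_lit 0)) T2.l1
  (TrL.c (I.pos (nat_lit 0) (nat_lit 0)) (xa T0.l8 (xb T0.l8 T0.l8))
  TrL.n)))))) (by decide +kernel)
theorem bx1_14 : BoxOK sI cl4 cl5 cl4 t2 t0 b1_14 :=
  box_mk (TrL.c (I.pos (nat_lit 0) (nat_lit 0)) T2.l0
  (TrL.c (I.pos (nat_lit 0) (nat_lit 0)) T0.l6
  (TrL.c (I.pos (nat_lit 0) (nat_lit 0)) T2.l5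
  (TrL.c (I.pos (nat_lit 0) (nat_lit 0)) T0.l7
  (TrL.c (I.pos (nat_lit 0) (nat_lit 0)) T2.l11
  (TrL.c (I.pos (nat_lit 0) (nat_lit 0)) T0.l8
  TrL.n)))))) (by decide +kernel)
theorem sv1 : StarV sI cl4 cl5 cl4 t2 t0 t1 :=
  (bt_n (bt_n (bt_n (bt_b bx1_0) (bt_n (bt_b bx1_1) (bt_b bx1_2))) (bt_n (bt_n (bt_b bx1_3) (bt_b bx1_4)) (bt_n (bt_b bx1_5) (bt_b bx1_6)))) (bt_n (bt_n (bt_n (bt_b bx1_7) (bt_b bx1_8)) (bt_n (bt_b bx1_9) (bt_b bx1_10))) (bt_n (bt_n (bt_b bx1_11) (bt_b bx1_12)) (bt_n (bt_b bx1_13) (bt_b bx1_14)))))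
def S1 : StarD := StarD.mk cl4 cl5 cl4 2 0 t1
theorem bx2_0 : BoxOK sI cl5 cl4 cl4 t1 t1 b2_0 :=
  box_mk (TrL.c (I.pos (nat_lit 0) (nat_lit 0)) (xa (xb (xa T1.l8 (xb T1.l0 T1.l0)) (xa (xb (xa T1.l8 T1.l8) (xa (xb T1.l8 T1.l0) (xb T1.l0 T1.l0))) (xb (xa T1.l0 T1.l0) (xa (xb T1.l0 T1.l0) (xb T1.l0 T1.l0))))) (xb (xa (xb T1.l0 T1.l0) (xb T1.l0 T1.l0)) (xa (xb (xa T1.l0 T1.l0) (xa (xb T1.l0 T1.l0) (xb T1.l0 (xs T1.l0 T1.l0)))) (xb (xa T1.l0 T1.l0) (xa (xb T1.l0 (xs T1.l0 T1.l0)) (xb T1.l0 (xs T1.l0 T1.l0)))))))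
  (TrL.c (I.pos (nat_lit 0) (nat_lit 0)) (xa (xb T1.l1 (xa T1.l1 T1.l1)) (xb T1.l1 (xa T1.l1 T1.l1)))
  (TrL.c (I.pos (nat_lit 0) (nat_lit 0)) (xa T1.l2 T1.l2)
  (TrL.c (I.pos (nat_lit 0) (nat_lit 0)) T1.l3
  (TrL.c (I.pos (nat_lit 0) (nat_lit 0)) (xa (xb T1.l9 (xa T1.l4 T1.l4)) (xb (xa T1.l4 (xb T1.l4 T1.l4)) (xa T1.l4 (xb T1.l4 T1.l4))))
  (TrL.c (I.pos (nat_lit 0) (nat_lit 0)) (xa (xb T1.l5 T1.l5) (xb T1.l5 T1.l5))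
  (TrL.c (I.pos (nat_lit 0) (nat_lit 0)) T1.l6
  (TrL.c (I.pos (nat_lit 0) (nat_lit 0)) (xa T1.l7 T1.l7)
  TrL.n)))))))) (by decide +kernel)
theorem bx2_1 : BoxOK sI cl5 cl4 cl4 t1 t1 b2_1 :=
  box_mk (TrL.c (I.pos (nat_lit 0) (nat_lit 0)) (xb (xa (xb (xa (xb T1.l8 T1.l8) T1.l8) (xa T1.l8 T1.l8)) (xb (xa T1.l8 T1.l8) T1.l8)) (xa (xb T1.l8 (xa (xb T1.l8 T1.l8) T1.l8)) T1.l8))
  (TrL.c (I.pos (nat_lit 0) (nat_lit 0)) (xb (xa T1.l1 T1.l1) T1.l1)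
  (TrL.c (I.pos (nat_lit 0) (nat_lit 0)) (xb T1.l2 T1.l2)
  (TrL.c (I.pos (nat_lit 0) (nat_lit 0)) T1.l3
  (TrL.c (I.pos (nat_lit 0) (nat_lit 0)) (xb (xa T1.l9 T1.l9) T1.l9)
  (TrL.c (I.pos (nat_lit 0) (nat_lit 0)) (xb T1.l5 T1.l5)
  (TrL.c (I.pos (nat_lit 0) (nat_lit 0)) T1.l6
  (TrL.c (I.pos (nat_lit 0) (nat_lit 0)) (xb T1.l7 T1.l7)
  TrL.n)))))))) (by decide +kernel)
theorem bx2_2 : BoxOK sI cl5 cl4 cl4 t1 t1 b2_2 :=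
  box_mk (TrL.c (I.pos (nat_lit 0) (nat_lit 0)) (xb (xa (xb (xa (xb (xb (xs T1.l8 (xa (xb (xc T1.l8 (xs T1.l8 (xa (xb T1.l8 T1.l8) T1.l8))) T1.l8) (xb (xs T1.l8 T1.l8) T1.l8))) (xs T1.l8 T1.l8)) T1.l8) (xb (xb (xs T1.l8 (xa T1.l8 T1.l8)) T1.l8) T1.l8)) (xa T1.l8 T1.l8)) (xb (xa (xb (xb (xs T1.l8 T1.l8) T1.l8) T1.l8) (xb (xb T1.l8 T1.l8) T1.l8)) (xa T1.l8 T1.l8))) (xa (xb (xa (xb T1.l8 (xa T1.l8 T1.l8)) (xb T1.l8 T1.l8)) (xa (xb (xa T1.l8 T1.l8) (xa (xb T1.l8 T1.l8) (xb T1.l8 T1.l8))) (xb T1.l8 (xa (xb T1.l8 T1.l8) T1.l8)))) (xb (xa T1.l8 T1.l8) (xa (xb T1.l8 (xa T1.l8 T1.l8)) (xb T1.l8 (xa T1.l8 T1.l8))))))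
  (TrL.c (I.pos (nat_lit 0) (nat_lit 0)) (xb (xa T1.l1 (xb T1.l1 T1.l1)) (xa (xb T1.l1 T1.l1) (xb T1.l1 T1.l1)))
  (TrL.c (I.pos (nat_lit 0) (nat_lit 0)) (xb T1.l2 T1.l2)
  (TrL.c (I.pos (nat_lit 0) (nat_lit 0)) T1.l3
  (TrL.c (I.pos (nat_lit 0) (nat_lit 0)) (xb (xa T1.l9 (xb T1.l9 T1.l9)) (xa T1.l9 (xb T1.l9 T1.l9)))
  (TrL.c (I.pos (nat_lit 0) (nat_lit 0)) (xb (xa T1.l5 T1.l5) (xa T1.l5 T1.l5))
  (TrL.c (I.pos (nat_lit 0) (nat_lit 0)) T1.l6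
  (TrL.c (I.pos (nat_lit 0) (nat_lit 0)) (xb T1.l7 T1.l7)
  TrL.n)))))))) (by decide +kernel)
theorem bx2_3 : BoxOK sI cl5 cl4 cl4 t1 t1 b2_3 :=
  box_mk (TrL.c (I.pos (nat_lit 0) (nat_lit 0)) (xb T1.l1 (xa T1.l1 T1.l1))
  (TrL.c (I.pos (nat_lit 0) (nat_lit 0)) (xb T1.l2 T1.l11)
  (TrL.c (I.pos (nat_lit 0) (nat_lit 0)) T1.l12
  TrL.n))) (by decide +kernel)
theorem bx2_4 : BoxOK sI cl5 cl4 cl4 t1 t1 b2_4 :=
  box_mk (TrL.c (I.pos (nat_lit 0) (nat_lit 0)) T1.l8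
  (TrL.c (I.pos (nat_lit 0) (nat_lit 0)) T1.l1
  (TrL.c (I.pos (nat_lit 0) (nat_lit 0)) T1.l2
  (TrL.c (I.pos (nat_lit 0) (nat_lit 0)) T1.l3
  (TrL.c (I.pos (nat_lit 0) (nat_lit 0)) T1.l9
  (TrL.c (I.pos (nat_lit 0) (nat_lit 0)) T1.l5
  (TrL.c (I.pos (nat_lit 0) (nat_lit 0)) T1.l6
  (TrL.c (I.pos (nat_lit 0) (nat_lit 0)) T1.l7
  TrL.n)))))))) (by decide +kernel)
theorem bx2_5 : BoxOK sI cl5 cl4 cl4 t1 t1 b2_5 :=
  box_mk (TrL.c (I.pos (nat_lit 0) (nat_lit 0)) (xb T1.l10 T1.l10)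
  (TrL.c (I.pos (nat_lit 0) (nat_lit 0)) T1.l11
  (TrL.c (I.pos (nat_lit 0) (nat_lit 0)) T1.l12
  TrL.n))) (by decide +kernel)
theorem bx2_6 : BoxOK sI cl5 cl4 cl4 t1 t1 b2_6 :=
  box_mk (TrL.c (I.pos (nat_lit 0) (nat_lit 0)) (xb (xa (xb T1.l13 T1.l13) T1.l8) T1.l8)
  (TrL.c (I.pos (nat_lit 0) (nat_lit 0)) T1.l1
  (TrL.c (I.pos (nat_lit 0) (nat_lit 0)) T1.l2
  (TrL.c (I.pos (nat_lit 0) (nat_lit 0)) T1.l12
  (TrL.c (I.pos (nat_lit 0) (nat_lit 0)) T1.l14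
  (TrL.c (I.pos (nat_lit 0) (nat_lit 0)) T1.l5
  (TrL.c (I.pos (nat_lit 0) (nat_lit 0)) T1.l6
  (TrL.c (I.pos (nat_lit 0) (nat_lit 0)) T1.l7
  TrL.n)))))))) (by decide +kernel)
theorem bx2_7 : BoxOK sI cl5 cl4 cl4 t1 t1 b2_7 :=
  box_mk (TrL.c (I.pos (nat_lit 0) (nat_lit 0)) (xa (xb T1.l0 (xa T1.l0 T1.l0)) (xa (xb T1.l0 T1.l0) (xb T1.l4 T1.l4)))
  (TrL.c (I.pos (nat_lit 0) (nat_lit 0)) (xa T1.l1 (xb T1.l1 T1.l1))
  (TrL.c (I.pos (nat_lit 0) (nat_lit 0)) (xa T1.l2 T1.l2)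
  (TrL.c (I.pos (nat_lit 0) (nat_lit 0)) T1.l3
  (TrL.c (I.pos (nat_lit 0) (nat_lit 0)) (xa (xb T1.l4 T1.l4) (xb (xa T1.l4 (xb T1.l4 T1.l4)) (xa T1.l4 (xb T1.l4 T1.l4))))
  (TrL.c (I.pos (nat_lit 0) (nat_lit 0)) (xa T1.l5 T1.l1)
  (TrL.c (I.pos (nat_lit 0) (nat_lit 0)) T1.l6
  (TrL.c (I.pos (nat_lit 0) (nat_lit 0)) (xa T1.l7 T1.l7)
  TrL.n)))))))) (by decide +kernel)
theorem bx2_8 : BoxOK sI cl5 cl4 cl4 t1 t1 b2_8 :=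
  box_mk (TrL.c (I.pos (nat_lit 0) (nat_lit 0)) (xa (xb T1.l13 (xa T1.l13 T1.l13)) (xb T1.l13 (xa T1.l13 T1.l8)))
  (TrL.c (I.pos (nat_lit 0) (nat_lit 0)) T1.l10
  (TrL.c (I.pos (nat_lit 0) (nat_lit 0)) T1.l11
  (TrL.c (I.pos (nat_lit 0) (nat_lit 0)) T1.l3
  (TrL.c (I.pos (nat_lit 0) (nat_lit 0)) T1.l14
  (TrL.c (I.pos (nat_lit 0) (nat_lit 0)) T1.l5
  (TrL.c (I.pos (nat_lit 0) (nat_lit 0)) T1.l6
  (TrL.c (I.pos (nat_lit 0) (nat_lit 0)) T1.l7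
  TrL.n)))))))) (by decide +kernel)
theorem bx2_9 : BoxOK sI cl5 cl4 cl4 t1 t1 b2_9 :=
  box_mk (TrL.c (I.pos (nat_lit 0) (nat_lit 0)) T1.l10
  (TrL.c (I.pos (nat_lit 0) (nat_lit 0)) T1.l11
  (TrL.c (I.pos (nat_lit 0) (nat_lit 0)) T1.l12
  TrL.n))) (by decide +kernel)
theorem bx2_10 : BoxOK sI cl5 cl4 cl4 t1 t1 b2_10 :=
  box_mk (TrL.c (I.pos (nat_lit 0) (nat_lit 0)) (xb (xa (xb T1.l0 T1.l0) (xb T1.l0 T1.l0)) (xa (xb T1.l8 (xa T1.l0 T1.l0)) (xb T1.l0 (xa T1.l0 T1.l0))))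
  (TrL.c (I.pos (nat_lit 0) (nat_lit 0)) (xb T1.l1 (xa T1.l1 T1.l1))
  (TrL.c (I.pos (nat_lit 0) (nat_lit 0)) T1.l2
  (TrL.c (I.pos (nat_lit 0) (nat_lit 0)) T1.l3
  (TrL.c (I.pos (nat_lit 0) (nat_lit 0)) (xb (xa T1.l4 T1.l4) T1.l4)
  (TrL.c (I.pos (nat_lit 0) (nat_lit 0)) T1.l5
  (TrL.c (I.pos (nat_lit 0) (nat_lit 0)) T1.l6
  (TrL.c (I.pos (nat_lit 0) (nat_lit 0)) T1.l7
  TrL.n)))))))) (by decide +kernel)
theorem bx2_11 : BoxOK sI cl5 cl4 cl4 t1 t1 b2_11 :=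
  box_mk (TrL.c (I.pos (nat_lit 0) (nat_lit 0)) (xb T1.l8 (xa T1.l8 T1.l8))
  (TrL.c (I.pos (nat_lit 0) (nat_lit 0)) T1.l1
  (TrL.c (I.pos (nat_lit 0) (nat_lit 0)) T1.l2
  (TrL.c (I.pos (nat_lit 0) (nat_lit 0)) T1.l3
  (TrL.c (I.pos (nat_lit 0) (nat_lit 0)) T1.l14
  (TrL.c (I.pos (nat_lit 0) (nat_lit 0)) T1.l5
  (TrL.c (I.pos (nat_lit 0) (nat_lit 0)) T1.l6
  (TrL.c (I.pos (nat_lit 0) (nat_lit 0)) T1.l7
  TrL.n)))))))) (by decide +kernel)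
theorem sv2 : StarV sI cl5 cl4 cl4 t1 t1 t2 :=
  (bt_n (bt_n (bt_n (bt_b bx2_0) (bt_n (bt_b bx2_1) (bt_b bx2_2))) (bt_n (bt_b bx2_3) (bt_n (bt_b bx2_4) (bt_b bx2_5)))) (bt_n (bt_n (bt_b bx2_6) (bt_n (bt_b bx2_7) (bt_b bx2_8))) (bt_n (bt_b bx2_9) (bt_n (bt_b bx2_10) (bt_b bx2_11)))))
def S2 : StarD := StarD.mk cl5 cl4 cl4 1 1 t2
def G : List StarD := [S0, S1, S2]
theorem so0 : StarOK sI G S0 :=
  star_mk (by decide) (by decide) rfl rfl rfl rfl rfl rfl (rfl : _ = t0) (rfl : _ = t2)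
  (st_mk (Pth.l (Pth.l (Pth.l Pth.z))) (nat_lit 404666152) (nat_lit 407784941) (by decide +kernel))
  (st_mk (Pth.l (Pth.l (Pth.l Pth.z))) (nat_lit 448636276) (nat_lit 452579665) (by decide +kernel))
  (st_mk (Pth.l (Pth.l (Pth.l Pth.z))) (nat_lit 500879595) (nat_lit 506019525) (by decide +kernel)) sv0
theorem so1 : StarOK sI G S1 :=
  star_mk (by decide) (by decide) rfl rfl rfl rfl rfl rfl (rfl : _ = t2) (rfl : _ = t0)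
  (st_mk (Pth.l (Pth.l (Pth.l Pth.z))) (nat_lit 260892929) (nat_lit 262620333) (by decide +kernel))
  (st_mk (Pth.l (Pth.l (Pth.l Pth.z))) (nat_lit 303827278) (nat_lit 306256444) (by decide +kernel))
  (st_mk (Pth.l (Pth.l (Pth.l Pth.z))) (nat_lit 355351964) (nat_lit 358832754) (by decide +kernel)) sv1
theorem so2 : StarOK sI G S2 :=
  star_mk (by decide) (by decide) rfl rfl rfl rfl rfl rfl (rfl : _ = t1) (rfl : _ = t1)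
  (st_mk (Pth.l (Pth.l (Pth.l Pth.z))) (nat_lit 391947405) (nat_lit 393914502) (by decide +kernel))
  (st_mk (Pth.l (Pth.l (Pth.l Pth.z))) (nat_lit 432729278) (nat_lit 435167329) (by decide +kernel))
  (st_mk (Pth.l (Pth.l (Pth.l Pth.z))) (nat_lit 480654689) (nat_lit 483724828) (by decide +kernel)) sv2
theorem ok : GroupOK (nat_lit 209321984) (nat_lit 238944256) G := grp_mk (allS_c so0 (allS_c so1 (allS_c so2 allS_n)))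
theorem cov : GCov G cl4 cl4 cl5 := cov_mk
  ⟨0, by decide, rfl, rfl, rfl⟩ ⟨1, by decide, rfl, rfl, rfl⟩ ⟨0, by decide, rfl, rfl, rfl⟩ ⟨1, by decide, rfl, rfl, rfl⟩ ⟨2, by decide, rfl, rfl, rfl⟩ ⟨2, by decide, rfl, rfl, rfl⟩
end Q112_3


end Pool.Agent.Helper6.MONO
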