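import Pool.Agent.Helper6.MONO.Cert.C16

/-!
Certificate data (generated).
-/

set_option autoImplicit false
set_option linter.all false
noncomputable section
namespace Pool.Agent.Helper6.MONO


namespace Q112_4
def sI : I := I.pos (nat_lit 238878720) (nat_lit 268435456)
def b0_0 : Bx := Bx.mk (St.mk (I.pos (nat_lit 127238144) (nat_lit 217759744)) (I.mix (nat_lit 3063808) (nat_lit 96370688)) (I.mix (nat_lit 23232512) (nat_lit 81477632)) (I.pos (nat_lit 387055616) (nat_lit 515719168)) (I.mix (nat_lit 262258688) (nat_lit 158138368)) (I.mix (nat_lit 130039808) (nat_lit 151879680)) (I.mix (nat_lit 249331712) (nat_lit 240877568)))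
  false (nat_lit 65635091)
def b0_1 : Bx := Bx.mk (St.mk (I.mix (nat_lit 50036736) (nat_lit 9125888)) (I.pos (nat_lit 25165824) (nat_lit 80986112)) (I.neg (nat_lit 60801024) (nat_lit 91750400)) (I.pos (nat_lit 272711680) (nat_lit 302465024)) (I.mix (nat_lit 74170368) (nat_lit 206815232)) (I.mix (nat_lit 149504000) (nat_lit 104644608)) (I.mix (nat_lit 101777408) (nat_lit 57458688)))
  true (nat_lit 0)
def b0_2 : Bx := Bx.mk (St.mk (I.mix (nat_lit 9125888) (nat_lit 50036736)) (I.neg (nat_lit 25165824) (nat_lit 80986112)) (I.neg (nat_lit 60801024) (nat_lit 91750400)) (I.pos (nat_lit 272711680) (nat_lit 302465024)) (I.mix (nat_lit 206815232) (nat_lit 74170368)) (I.mix (nat_lit 104644608) (nat_lit 149454848)) (I.mix (nat_lit 101777408) (nat_lit 57491456)))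
  false (nat_lit 19498783)
def b0_3 : Bx := Bx.mk (St.mk (I.mix (nat_lit 30539776) (nat_lit 4259840)) (I.mix (nat_lit 18481152) (nat_lit 14467072)) (I.neg (nat_lit 61603840) (nat_lit 67960832)) (I.pos (nat_lit 272416768) (nat_lit 280870912)) (I.mix (nat_lit 88014848) (nat_lit 72957952)) (I.mix (nat_lit 74285056) (nat_lit 58753024)) (I.mix (nat_lit 14237696) (nat_lit 22085632)))
  true (nat_lit 0)
def b0_4 : Bx := Bx.mk (St.mk (I.pos (nat_lit 180092928) (nat_lit 241958912)) (I.mix (nat_lit 24674304) (nat_lit 21331968)) (I.neg (nat_lit 77561856) (nat_lit 154632192)) (I.pos (nat_lit 423968768) (nat_lit 536330240)) (I.mix (nat_lit 177373184) (nat_lit 99319808)) (I.mix (nat_lit 135823360) (nat_lit 101072896)) (I.mix (nat_lit 216760320) (nat_lit 191807488)))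
  false (nat_lit 0)
def b0_5 : Bx := Bx.mk (St.mk (I.mix (nat_lit 7815168) (nat_lit 30523392)) (I.mix (nat_lit 14548992) (nat_lit 18481152)) (I.neg (nat_lit 61554688) (nat_lit 67960832)) (I.pos (nat_lit 272416768) (nat_lit 280870912)) (I.mix (nat_lit 72957952) (nat_lit 88014848)) (I.mix (nat_lit 58769408) (nat_lit 74285056)) (I.mix (nat_lit 14237696) (nat_lit 22085632)))
  false (nat_lit 0)
def b0_6 : Bx := Bx.mk (St.mk (I.mix (nat_lit 13811712) (nat_lit 6848512)) (I.mix (nat_lit 6602752) (nat_lit 14581760)) (I.neg (nat_lit 63176704) (nat_lit 66535424)) (I.pos (nat_lit 272613376) (nat_lit 277823488)) (I.mix (nat_lit 48857088) (nat_lit 44695552)) (I.mix (nat_lit 31719424) (nat_lit 40452096)) (I.mix (nat_lit 4587520) (nat_lit 7290880)))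
  true (nat_lit 0)
def b0_7 : Bx := Bx.mk (St.mk (I.pos (nat_lit 7897088) (nat_lit 71319552)) (I.neg (nat_lit 36372480) (nat_lit 87638016)) (I.neg (nat_lit 44236800) (nat_lit 93962240)) (I.pos (nat_lit 275906560) (nat_lit 321634304)) (I.mix (nat_lit 173817856) (nat_lit 103137280)) (I.mix (nat_lit 101531648) (nat_lit 114442240)) (I.mix (nat_lit 132759552) (nat_lit 101892096)))
  false (nat_lit 40005513)
def b0_8 : Bx := Bx.mk (St.mk (I.pos (nat_lit 108380160) (nat_lit 178388992)) (I.pos (nat_lit 9191424) (nat_lit 72957952)) (I.mix (nat_lit 6012928) (nat_lit 70090752)) (I.pos (nat_lit 355631104) (nat_lit 453492736)) (I.mix (nat_lit 219480064) (nat_lit 96550912)) (I.mix (nat_lit 174080000) (nat_lit 138035200)) (I.mix (nat_lit 189693952) (nat_lit 181682176)))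
  false (nat_lit 25533291)
def b0_9 : Bx := Bx.mk (St.mk (I.neg (nat_lit 7897088) (nat_lit 71319552)) (I.pos (nat_lit 36372480) (nat_lit 87654400)) (I.neg (nat_lit 44236800) (nat_lit 93978624)) (I.pos (nat_lit 275906560) (nat_lit 321650688)) (I.mix (nat_lit 103153664) (nat_lit 173834240)) (I.mix (nat_lit 114458624) (nat_lit 101548032)) (I.mix (nat_lit 132775936) (nat_lit 101908480)))
  true (nat_lit 0)
def b0_10 : Bx := Bx.mk (St.mk (I.mix (nat_lit 9994240) (nat_lit 7634944)) (I.mix (nat_lit 7127040) (nat_lit 13271040)) (I.neg (nat_lit 63389696) (nat_lit 66584576)) (I.pos (nat_lit 272547840) (nat_lit 277676032)) (I.mix (nat_lit 39583744) (nat_lit 45252608)) (I.mix (nat_lit 32227328) (nat_lit 38092800)) (I.mix (nat_lit 3293184) (nat_lit 5750784)))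
  true (nat_lit 0)
def b0_11 : Bx := Bx.mk (St.mk (I.pos (nat_lit 172490752) (nat_lit 221249536)) (I.mix (nat_lit 19939328) (nat_lit 39960576)) (I.neg (nat_lit 37142528) (nat_lit 141426688)) (I.pos (nat_lit 414859264) (nat_lit 490291200)) (I.mix (nat_lit 189988864) (nat_lit 72302592)) (I.mix (nat_lit 118751232) (nat_lit 112214016)) (I.mix (nat_lit 165576704) (nat_lit 202014720)))
  false (nat_lit 10215406)
def b0_12 : Bx := Bx.mk (St.mk (I.neg (nat_lit 6012928) (nat_lit 35504128)) (I.mix (nat_lit 15155200) (nat_lit 26689536)) (I.neg (nat_lit 61538304) (nat_lit 71041024)) (I.pos (nat_lit 272023552) (nat_lit 282558464)) (I.mix (nat_lit 94502912) (nat_lit 58130432)) (I.mix (nat_lit 67420160) (nat_lit 62275584)) (I.mix (nat_lit 23396352) (nat_lit 25542656)))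
  true (nat_lit 0)
def b0_13 : Bx := Bx.mk (St.mk (I.pos (nat_lit 6012928) (nat_lit 35504128)) (I.mix (nat_lit 28278784) (nat_lit 15155200)) (I.neg (nat_lit 61521920) (nat_lit 71319552)) (I.pos (nat_lit 272023552) (nat_lit 282558464)) (I.mix (nat_lit 58277888) (nat_lit 94568448)) (I.mix (nat_lit 62767104) (nat_lit 67600384)) (I.mix (nat_lit 23642112) (nat_lit 25772032)))
  false (nat_lit 0)
def b0_14 : Bx := Bx.mk (St.mk (I.pos (nat_lit 158416896) (nat_lit 209256448)) (I.pos (nat_lit 20021248) (nat_lit 86016000)) (I.mix (nat_lit 62439424) (nat_lit 48594944)) (I.pos (nat_lit 420495360) (nat_lit 511115264)) (I.mix (nat_lit 154042368) (nat_lit 136085504)) (I.mix (nat_lit 138854400) (nat_lit 126238720)) (I.mix (nat_lit 273334272) (nat_lit 173309952)))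
  false (nat_lit 10362921)
def b0_15 : Bx := Bx.mk (St.mk (I.pos (nat_lit 45727744) (nat_lit 81002496)) (I.neg (nat_lit 8486912) (nat_lit 48381952)) (I.neg (nat_lit 27525120) (nat_lit 58703872)) (I.pos (nat_lit 288063488) (nat_lit 315588608)) (I.mix (nat_lit 120815616) (nat_lit 47366144)) (I.mix (nat_lit 61276160) (nat_lit 68665344)) (I.mix (nat_lit 64880640) (nat_lit 55443456)))
  false (nat_lit 0)
def b0_16 : Bx := Bx.mk (St.mk (I.pos (nat_lit 121667584) (nat_lit 157515776)) (I.mix (nat_lit 32440320) (nat_lit 12304384)) (I.neg (nat_lit 5423104) (nat_lit 54149120)) (I.pos (nat_lit 349863936) (nat_lit 393494528)) (I.mix (nat_lit 90980352) (nat_lit 106659840)) (I.mix (nat_lit 86097920) (nat_lit 90308608)) (I.mix (nat_lit 98942976) (nat_lit 81100800)))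
  false (nat_lit 0)
def b0_17 : Bx := Bx.mk (St.mk (I.neg (nat_lit 45711360) (nat_lit 81002496)) (I.pos (nat_lit 8486912) (nat_lit 48381952)) (I.neg (nat_lit 27508736) (nat_lit 58703872)) (I.pos (nat_lit 288047104) (nat_lit 315588608)) (I.mix (nat_lit 47366144) (nat_lit 120799232)) (I.mix (nat_lit 68665344) (nat_lit 61276160)) (I.mix (nat_lit 64897024) (nat_lit 55492608)))
  true (nat_lit 0)
def b0_18 : Bx := Bx.mk (St.mk (I.pos (nat_lit 74924032) (nat_lit 106954752)) (I.neg (nat_lit 21348352) (nat_lit 52822016)) (I.neg (nat_lit 34832384) (nat_lit 62832640)) (I.pos (nat_lit 307380224) (nat_lit 337543168)) (I.mix (nat_lit 81051648) (nat_lit 46202880)) (I.mix (nat_lit 53149696) (nat_lit 50659328)) (I.mix (nat_lit 58114048) (nat_lit 40026112)))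
  false (nat_lit 0)
def b0_19 : Bx := Bx.mk (St.mk (I.pos (nat_lit 90587136) (nat_lit 123961344)) (I.mix (nat_lit 19480576) (nat_lit 7847936)) (I.neg (nat_lit 7667712) (nat_lit 34799616)) (I.pos (nat_lit 322568192) (nat_lit 353075200)) (I.mix (nat_lit 79642624) (nat_lit 46301184)) (I.mix (nat_lit 47087616) (nat_lit 54312960)) (I.mix (nat_lit 50102272) (nat_lit 44040192)))
  false (nat_lit 0)
def b0_20 : Bx := Bx.mk (St.mk (I.neg (nat_lit 74924032) (nat_lit 106954752)) (I.pos (nat_lit 21348352) (nat_lit 52822016)) (I.neg (nat_lit 34832384) (nat_lit 62832640)) (I.pos (nat_lit 307380224) (nat_lit 337543168)) (I.mix (nat_lit 46481408) (nat_lit 81199104)) (I.mix (nat_lit 50741248) (nat_lit 53329920)) (I.mix (nat_lit 58310656) (nat_lit 40157184)))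
  true (nat_lit 0)
def b0_21 : Bx := Bx.mk (St.mk (I.pos (nat_lit 88375296) (nat_lit 110100480)) (I.neg (nat_lit 18776064) (nat_lit 45056000)) (I.neg (nat_lit 30162944) (nat_lit 54345728)) (I.pos (nat_lit 318537728) (nat_lit 339378176)) (I.mix (nat_lit 56901632) (nat_lit 51789824)) (I.mix (nat_lit 35553280) (nat_lit 44859392)) (I.mix (nat_lit 36847616) (nat_lit 38027264)))
  false (nat_lit 0)
def b0_22 : Bx := Bx.mk (St.mk (I.pos (nat_lit 31539200) (nat_lit 73089024)) (I.neg (nat_lit 24330240) (nat_lit 75972608)) (I.neg (nat_lit 39845888) (nat_lit 78807040)) (I.pos (nat_lit 282624000) (nat_lit 318685184)) (I.mix (nat_lit 144195584) (nat_lit 93306880)) (I.mix (nat_lit 66289664) (nat_lit 113524736)) (I.mix (nat_lit 78495744) (nat_lit 104267776)))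
  false (nat_lit 0)
def b0_23 : Bx := Bx.mk (St.mk (I.pos (nat_lit 114196480) (nat_lit 168460288)) (I.mix (nat_lit 5914624) (nat_lit 36421632)) (I.mix (nat_lit 27787264) (nat_lit 29196288)) (I.pos (nat_lit 356859904) (nat_lit 412745728)) (I.mix (nat_lit 127205376) (nat_lit 119914496)) (I.mix (nat_lit 151044096) (nat_lit 103219200)) (I.mix (nat_lit 161202176) (nat_lit 98140160)))
  false (nat_lit 0)
def b0_24 : Bx := Bx.mk (St.mk (I.neg (nat_lit 31539200) (nat_lit 73089024)) (I.pos (nat_lit 24330240) (nat_lit 75972608)) (I.neg (nat_lit 39845888) (nat_lit 78807040)) (I.pos (nat_lit 282624000) (nat_lit 318685184)) (I.mix (nat_lit 93274112) (nat_lit 144146432)) (I.mix (nat_lit 113590272) (nat_lit 66355200)) (I.mix (nat_lit 78561280) (nat_lit 104235008)))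
  true (nat_lit 0)
def b0_25 : Bx := Bx.mk (St.mk (I.pos (nat_lit 58015744) (nat_lit 88653824)) (I.neg (nat_lit 9961472) (nat_lit 45875200)) (I.neg (nat_lit 28180480) (nat_lit 57180160)) (I.pos (nat_lit 295321600) (nat_lit 320667648)) (I.mix (nat_lit 85868544) (nat_lit 62947328)) (I.mix (nat_lit 54804480) (nat_lit 62701568)) (I.mix (nat_lit 58228736) (nat_lit 49201152)))
  false (nat_lit 0)
def b0_26 : Bx := Bx.mk (St.mk (I.pos (nat_lit 111263744) (nat_lit 144687104)) (I.mix (nat_lit 31211520) (nat_lit 6258688)) (I.neg (nat_lit 11304960) (nat_lit 51740672)) (I.pos (nat_lit 340934656) (nat_lit 375029760)) (I.mix (nat_lit 100843520) (nat_lit 65404928)) (I.mix (nat_lit 79052800) (nat_lit 72581120)) (I.mix (nat_lit 85311488) (nat_lit 62832640)))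
  false (nat_lit 0)
def b0_27 : Bx := Bx.mk (St.mk (I.neg (nat_lit 58015744) (nat_lit 88653824)) (I.pos (nat_lit 9961472) (nat_lit 45875200)) (I.neg (nat_lit 28180480) (nat_lit 57180160)) (I.pos (nat_lit 295305216) (nat_lit 320667648)) (I.mix (nat_lit 62898176) (nat_lit 85835776)) (I.mix (nat_lit 62701568) (nat_lit 54771712)) (I.mix (nat_lit 58228736) (nat_lit 49217536)))
  true (nat_lit 0)
def b0_28 : Bx := Bx.mk (St.mk (I.pos (nat_lit 89161728) (nat_lit 111181824)) (I.neg (nat_lit 966656) (nat_lit 27574272)) (I.neg (nat_lit 14073856) (nat_lit 38584320)) (I.pos (nat_lit 320618496) (nat_lit 339869696)) (I.mix (nat_lit 76333056) (nat_lit 31096832)) (I.mix (nat_lit 44433408) (nat_lit 33554432)) (I.mix (nat_lit 41353216) (nat_lit 26738688)))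
  false (nat_lit 0)
def b0_29 : Bx := Bx.mk (St.mk (I.neg (nat_lit 88276992) (nat_lit 110051328)) (I.pos (nat_lit 16613376) (nat_lit 45121536)) (I.neg (nat_lit 28344320) (nat_lit 54394880)) (I.pos (nat_lit 318488576) (nat_lit 339443712)) (I.mix (nat_lit 51888128) (nat_lit 57769984)) (I.mix (nat_lit 45203456) (nat_lit 35667968)) (I.mix (nat_lit 36978688) (nat_lit 38354944)))
  true (nat_lit 0)
def b0_30 : Bx := Bx.mk (St.mk (I.pos (nat_lit 76234752) (nat_lit 97845248)) (I.neg (nat_lit 21184512) (nat_lit 40943616)) (I.neg (nat_lit 34668544) (nat_lit 52461568)) (I.pos (nat_lit 308461568) (nat_lit 327729152)) (I.mix (nat_lit 56426496) (nat_lit 44662784)) (I.mix (nat_lit 32047104) (nat_lit 46514176)) (I.mix (nat_lit 36798464) (nat_lit 37109760)))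
  false (nat_lit 0)
def b0_31 : Bx := Bx.mk (St.mk (I.pos (nat_lit 102203392) (nat_lit 122683392)) (I.neg (nat_lit 1785856) (nat_lit 19562496)) (I.neg (nat_lit 17137664) (nat_lit 34865152)) (I.pos (nat_lit 331235328) (nat_lit 351764480)) (I.mix (nat_lit 72663040) (nat_lit 28475392)) (I.mix (nat_lit 48201728) (nat_lit 36044800)) (I.mix (nat_lit 49496064) (nat_lit 29065216)))
  false (nat_lit 0)
def b0_32 : Bx := Bx.mk (St.mk (I.neg (nat_lit 76218368) (nat_lit 97845248)) (I.pos (nat_lit 21168128) (nat_lit 40943616)) (I.neg (nat_lit 34668544) (nat_lit 52461568)) (I.pos (nat_lit 308445184) (nat_lit 327745536)) (I.mix (nat_lit 44662784) (nat_lit 56426496)) (I.mix (nat_lit 46514176) (nat_lit 32047104)) (I.mix (nat_lit 36814848) (nat_lit 37109760)))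
  true (nat_lit 0)
def b0_33 : Bx := Bx.mk (St.mk (I.mix (nat_lit 35110912) (nat_lit 6045696)) (I.pos (nat_lit 14024704) (nat_lit 61227008)) (I.neg (nat_lit 66322432) (nat_lit 84623360)) (I.pos (nat_lit 272252928) (nat_lit 289980416)) (I.mix (nat_lit 62996480) (nat_lit 152059904)) (I.mix (nat_lit 121896960) (nat_lit 63193088)) (I.mix (nat_lit 55558144) (nat_lit 38453248)))
  true (nat_lit 0)
def b0_34 : Bx := Bx.mk (St.mk (I.mix (nat_lit 6045696) (nat_lit 35110912)) (I.neg (nat_lit 14024704) (nat_lit 61227008)) (I.neg (nat_lit 66322432) (nat_lit 84623360)) (I.pos (nat_lit 272252928) (nat_lit 289980416)) (I.mix (nat_lit 152059904) (nat_lit 62996480)) (I.mix (nat_lit 63193088) (nat_lit 121896960)) (I.mix (nat_lit 55558144) (nat_lit 38453248)))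
  false (nat_lit 0)
def b0_35 : Bx := Bx.mk (St.mk (I.pos (nat_lit 178749440) (nat_lit 204570624)) (I.pos (nat_lit 16941056) (nat_lit 38584320)) (I.neg (nat_lit 38699008) (nat_lit 65175552)) (I.pos (nat_lit 434438144) (nat_lit 464994304)) (I.mix (nat_lit 99614720) (nat_lit 8372224)) (I.mix (nat_lit 41402368) (nat_lit 40189952)) (I.mix (nat_lit 54362112) (nat_lit 71090176)))
  false (nat_lit 0)
def b0_36 : Bx := Bx.mk (St.mk (I.neg (nat_lit 15728640) (nat_lit 29409280)) (I.pos (nat_lit 12009472) (nat_lit 27361280)) (I.neg (nat_lit 65683456) (nat_lit 71319552)) (I.pos (nat_lit 274153472) (nat_lit 282116096)) (I.mix (nat_lit 30867456) (nat_lit 22839296)) (I.mix (nat_lit 18661376) (nat_lit 23773184)) (I.mix (nat_lit 11665408) (nat_lit 6979584)))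
  true (nat_lit 0)
def b0_37 : Bx := Bx.mk (St.mk (I.pos (nat_lit 15728640) (nat_lit 29409280)) (I.neg (nat_lit 12009472) (nat_lit 27426816)) (I.neg (nat_lit 65683456) (nat_lit 71319552)) (I.pos (nat_lit 274153472) (nat_lit 282116096)) (I.mix (nat_lit 28131328) (nat_lit 36175872)) (I.mix (nat_lit 29769728) (nat_lit 22888448)) (I.mix (nat_lit 13271040) (nat_lit 8110080)))
  false (nat_lit 0)
def b0_38 : Bx := Bx.mk (St.mk (I.pos (nat_lit 46235648) (nat_lit 75268096)) (I.neg (nat_lit 21250048) (nat_lit 51134464)) (I.neg (nat_lit 36225024) (nat_lit 60407808)) (I.pos (nat_lit 290013184) (nat_lit 312803328)) (I.mix (nat_lit 87916544) (nat_lit 49872896)) (I.mix (nat_lit 40402944) (nat_lit 63307776)) (I.mix (nat_lit 46186496) (nat_lit 51871744)))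
  false (nat_lit 0)
def b0_39 : Bx := Bx.mk (St.mk (I.pos (nat_lit 126337024) (nat_lit 151863296)) (I.mix (nat_lit 8126464) (nat_lit 15581184)) (I.neg (nat_lit 2408448) (nat_lit 26509312)) (I.pos (nat_lit 360710144) (nat_lit 388333568)) (I.mix (nat_lit 75022336) (nat_lit 49037312)) (I.mix (nat_lit 61046784) (nat_lit 50659328)) (I.mix (nat_lit 64077824) (nat_lit 47071232)))
  false (nat_lit 0)
def b0_40 : Bx := Bx.mk (St.mk (I.neg (nat_lit 46219264) (nat_lit 75268096)) (I.pos (nat_lit 21250048) (nat_lit 51150848)) (I.neg (nat_lit 36225024) (nat_lit 60407808)) (I.pos (nat_lit 289996800) (nat_lit 312803328)) (I.mix (nat_lit 49872896) (nat_lit 87916544)) (I.mix (nat_lit 63307776) (nat_lit 40402944)) (I.mix (nat_lit 46186496) (nat_lit 51888128)))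
  true (nat_lit 0)
def b0_41 : Bx := Bx.mk (St.mk (I.pos (nat_lit 87425024) (nat_lit 103907328)) (I.neg (nat_lit 16777216) (nat_lit 33980416)) (I.neg (nat_lit 28540928) (nat_lit 43876352)) (I.pos (nat_lit 317816832) (nat_lit 332791808)) (I.mix (nat_lit 60456960) (nat_lit 16957440)) (I.mix (nat_lit 33357824) (nat_lit 25247744)) (I.mix (nat_lit 33505280) (nat_lit 19693568)))
  false (nat_lit 0)
def b0_42 : Bx := Bx.mk (St.mk (I.pos (nat_lit 88211456) (nat_lit 110723072)) (I.neg (nat_lit 16941056) (nat_lit 46202880)) (I.neg (nat_lit 28688384) (nat_lit 55443456)) (I.pos (nat_lit 318472192) (nat_lit 340115456)) (I.mix (nat_lit 57704448) (nat_lit 55508992)) (I.mix (nat_lit 36028416) (nat_lit 46759936)) (I.mix (nat_lit 37437440) (nat_lit 39256064)))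
  false (nat_lit 0)
def b0_43 : Bx := Bx.mk (St.mk (I.neg (nat_lit 5931008) (nat_lit 34471936)) (I.mix (nat_lit 16465920) (nat_lit 28688384)) (I.neg (nat_lit 61358080) (nat_lit 71843840)) (I.pos (nat_lit 272171008) (nat_lit 282591232)) (I.mix (nat_lit 94584832) (nat_lit 59260928)) (I.mix (nat_lit 67551232) (nat_lit 64241664)) (I.mix (nat_lit 24084480) (nat_lit 26181632)))
  true (nat_lit 0)
def b0_44 : Bx := Bx.mk (St.mk (I.pos (nat_lit 75202560) (nat_lit 106987520)) (I.neg (nat_lit 21823488) (nat_lit 53362688)) (I.neg (nat_lit 35045376) (nat_lit 63340544)) (I.pos (nat_lit 307560448) (nat_lit 337215488)) (I.mix (nat_lit 82116608) (nat_lit 47595520)) (I.mix (nat_lit 54673408) (nat_lit 51396608)) (I.mix (nat_lit 59621376) (nat_lit 40697856)))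
  false (nat_lit 0)
def t0 : BTr := (BTr.n (BTr.n (BTr.n (BTr.n (BTr.n (BTr.b b0_0) (BTr.b b0_1)) (BTr.n (BTr.b b0_2) (BTr.n (BTr.b b0_3) (BTr.b b0_4)))) (BTr.n (BTr.n (BTr.b b0_5) (BTr.n (BTr.b b0_6) (BTr.b b0_7))) (BTr.n (BTr.b b0_8) (BTr.n (BTr.b b0_9) (BTr.b b0_10))))) (BTr.n (BTr.n (BTr.n (BTr.b b0_11) (BTr.b b0_12)) (BTr.n (BTr.b b0_13) (BTr.n (BTr.b b0_14) (BTr.b b0_15)))) (BTr.n (BTr.n (BTr.b b0_16) (BTr.n (BTr.b b0_17) (BTr.b b0_18))) (BTr.n (BTr.b b0_19) (BTr.n (BTr.b b0_20) (BTr.b b0_21)))))) (BTr.n (BTr.n (BTr.n (BTr.n (BTr.b b0_22) (BTr.b b0_23)) (BTr.n (BTr.b b0_24) (BTr.n (BTr.b b0_25) (BTr.b b0_26)))) (BTr.n (BTr.n (BTr.b b0_27) (BTr.n (BTr.b b0_28) (BTr.b b0_29))) (BTr.n (BTr.b b0_30) (BTr.n (BTr.b b0_31) (BTr.b b0_32))))) (BTr.n (BTr.n (BTr.n (BTr.b b0_33) (BTr.n (BTr.b b0_34) (BTr.b b0_35))) (BTr.n (BTr.b b0_36) (BTr.n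 (BTr.b b0_37) (BTr.b b0_38)))) (BTr.n (BTr.n (BTr.b b0_39) (BTr.n (BTr.b b0_40) (BTr.b b0_41))) (BTr.n (BTr.b b0_42) (BTr.n (BTr.b b0_43) (BTr.b b0_44)))))))
namespace T0
def l0 : Tr := Tr.L (Pth.l (Pth.l (Pth.l (Pth.l (Pth.l Pth.z)))))
def l1 : Tr := Tr.L (Pth.l (Pth.l (Pth.l (Pth.l (Pth.r Pth.z)))))
def l2 : Tr := Tr.L (Pth.l (Pth.l (Pth.l (Pth.r (Pth.l Pth.z)))))
def l3 : Tr := Tr.L (Pth.l (Pth.l (Pth.l (Pth.r (Pth.r (Pth.l Pth.z))))))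
def l4 : Tr := Tr.L (Pth.l (Pth.l (Pth.l (Pth.r (Pth.r (Pth.r Pth.z))))))
def l5 : Tr := Tr.L (Pth.l (Pth.l (Pth.r (Pth.l (Pth.l Pth.z)))))
def l6 : Tr := Tr.L (Pth.l (Pth.l (Pth.r (Pth.l (Pth.r (Pth.l Pth.z))))))
def l7 : Tr := Tr.L (Pth.l (Pth.l (Pth.r (Pth.l (Pth.r (Pth.r Pth.z))))))
def l8 : Tr := Tr.L (Pth.l (Pth.l (Pth.r (Pth.r (Pth.l Pth.z)))))
def l9 : Tr := Tr.L (Pth.l (Pth.l (Pth.r (Pth.r (Pth.r (Pth.l Pth.z))))))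
def l10 : Tr := Tr.L (Pth.l (Pth.l (Pth.r (Pth.r (Pth.r (Pth.r Pth.z))))))
def l11 : Tr := Tr.L (Pth.l (Pth.r (Pth.l (Pth.l (Pth.l Pth.z)))))
def l12 : Tr := Tr.L (Pth.l (Pth.r (Pth.l (Pth.l (Pth.r Pth.z)))))
def l13 : Tr := Tr.L (Pth.l (Pth.r (Pth.l (Pth.r (Pth.l Pth.z)))))
def l14 : Tr := Tr.L (Pth.l (Pth.r (Pth.l (Pth.r (Pth.r (Pth.l Pth.z))))))
def l15 : Tr := Tr.L (Pth.l (Pth.r (Pth.l (Pth.r (Pth.r (Pth.r Pth.z))))))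
def l16 : Tr := Tr.L (Pth.l (Pth.r (Pth.r (Pth.l (Pth.l Pth.z)))))
def l17 : Tr := Tr.L (Pth.l (Pth.r (Pth.r (Pth.l (Pth.r (Pth.l Pth.z))))))
def l18 : Tr := Tr.L (Pth.l (Pth.r (Pth.r (Pth.l (Pth.r (Pth.r Pth.z))))))
def l19 : Tr := Tr.L (Pth.l (Pth.r (Pth.r (Pth.r (Pth.l Pth.z)))))
def l20 : Tr := Tr.L (Pth.l (Pth.r (Pth.r (Pth.r (Pth.r (Pth.l Pth.z))))))
def l21 : Tr := Tr.L (Pth.l (Pth.r (Pth.r (Pth.r (Pth.r (Pth.r Pth.z))))))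
def l22 : Tr := Tr.L (Pth.r (Pth.l (Pth.l (Pth.l (Pth.l Pth.z)))))
def l23 : Tr := Tr.L (Pth.r (Pth.l (Pth.l (Pth.l (Pth.r Pth.z)))))
def l24 : Tr := Tr.L (Pth.r (Pth.l (Pth.l (Pth.r (Pth.l Pth.z)))))
def l25 : Tr := Tr.L (Pth.r (Pth.l (Pth.l (Pth.r (Pth.r (Pth.l Pth.z))))))
def l26 : Tr := Tr.L (Pth.r (Pth.l (Pth.l (Pth.r (Pth.r (Pth.r Pth.z))))))
def l27 : Tr := Tr.L (Pth.r (Pth.l (Pth.r (Pth.l (Pth.l Pth.z)))))
def l28 : Tr := Tr.L (Pth.r (Pth.l (Pth.r (Pth.l (Pth.r (Pth.l Pth.z))))))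
def l29 : Tr := Tr.L (Pth.r (Pth.l (Pth.r (Pth.l (Pth.r (Pth.r Pth.z))))))
def l30 : Tr := Tr.L (Pth.r (Pth.l (Pth.r (Pth.r (Pth.l Pth.z)))))
def l31 : Tr := Tr.L (Pth.r (Pth.l (Pth.r (Pth.r (Pth.r (Pth.l Pth.z))))))
def l32 : Tr := Tr.L (Pth.r (Pth.l (Pth.r (Pth.r (Pth.r (Pth.r Pth.z))))))
def l33 : Tr := Tr.L (Pth.r (Pth.r (Pth.l (Pth.l (Pth.l Pth.z)))))
def l34 : Tr := Tr.L (Pth.r (Pth.r (Pth.l (Pth.l (Pth.r (Pth.l Pth.z))))))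
def l35 : Tr := Tr.L (Pth.r (Pth.r (Pth.l (Pth.l (Pth.r (Pth.r Pth.z))))))
def l36 : Tr := Tr.L (Pth.r (Pth.r (Pth.l (Pth.r (Pth.l Pth.z)))))
def l37 : Tr := Tr.L (Pth.r (Pth.r (Pth.l (Pth.r (Pth.r (Pth.l Pth.z))))))
def l38 : Tr := Tr.L (Pth.r (Pth.r (Pth.l (Pth.r (Pth.r (Pth.r Pth.z))))))
def l39 : Tr := Tr.L (Pth.r (Pth.r (Pth.r (Pth.l (Pth.l Pth.z)))))
def l40 : Tr := Tr.L (Pth.r (Pth.r (Pth.r (Pth.l (Pth.r (Pth.l Pth.z))))))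
def l41 : Tr := Tr.L (Pth.r (Pth.r (Pth.r (Pth.l (Pth.r (Pth.r Pth.z))))))
def l42 : Tr := Tr.L (Pth.r (Pth.r (Pth.r (Pth.r (Pth.l Pth.z)))))
def l43 : Tr := Tr.L (Pth.r (Pth.r (Pth.r (Pth.r (Pth.r (Pth.l Pth.z))))))
def l44 : Tr := Tr.L (Pth.r (Pth.r (Pth.r (Pth.r (Pth.r (Pth.r Pth.z))))))
end T0
def b1_0 : Bx := Bx.mk (St.mk (I.pos (nat_lit 136511488) (nat_lit 217497600)) (I.mix (nat_lit 2179072) (nat_lit 69468160)) (I.mix (nat_lit 3031040) (nat_lit 97222656)) (I.pos (nat_lit 257916928) (nat_lit 366297088)) (I.mix (nat_lit 182829056) (nat_lit 121061376)) (I.mix (nat_lit 106496000) (nat_lit 101744640)) (I.mix (nat_lit 180666368) (nat_lit 154566656)))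
  false (nat_lit 0)
def b1_1 : Bx := Bx.mk (St.mk (I.pos (nat_lit 61472768) (nat_lit 114081792)) (I.neg (nat_lit 28999680) (nat_lit 67223552)) (I.neg (nat_lit 25460736) (nat_lit 60653568)) (I.pos (nat_lit 170721280) (nat_lit 210616320)) (I.mix (nat_lit 114114560) (nat_lit 83132416)) (I.mix (nat_lit 65470464) (nat_lit 75317248)) (I.mix (nat_lit 65142784) (nat_lit 72105984)))
  false (nat_lit 0)
def b1_2 : Bx := Bx.mk (St.mk (I.pos (nat_lit 18890752) (nat_lit 56672256)) (I.pos (nat_lit 13893632) (nat_lit 48807936)) (I.mix (nat_lit 13860864) (nat_lit 4210688)) (I.pos (nat_lit 152813568) (nat_lit 167936000)) (I.mix (nat_lit 55705600) (nat_lit 89161728)) (I.mix (nat_lit 65945600) (nat_lit 53755904)) (I.mix (nat_lit 42401792) (nat_lit 22855680)))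
  false (nat_lit 0)
def b1_3 : Bx := Bx.mk (St.mk (I.neg (nat_lit 3391488) (nat_lit 33800192)) (I.neg (nat_lit 14696448) (nat_lit 40943616)) (I.mix (nat_lit 1916928) (nat_lit 4538368)) (I.pos (nat_lit 150831104) (nat_lit 160481280)) (I.mix (nat_lit 43941888) (nat_lit 82051072)) (I.mix (nat_lit 43597824) (nat_lit 62308352)) (I.mix (nat_lit 7716864) (nat_lit 12435456)))
  true (nat_lit 0)
def b1_4 : Bx := Bx.mk (St.mk (I.pos (nat_lit 124207104) (nat_lit 170131456)) (I.mix (nat_lit 8126464) (nat_lit 50708480)) (I.pos (nat_lit 13058048) (nat_lit 79691776)) (I.pos (nat_lit 223903744) (nat_lit 287866880)) (I.mix (nat_lit 180682752) (nat_lit 55132160)) (I.mix (nat_lit 167772160) (nat_lit 79953920)) (I.mix (nat_lit 169213952) (nat_lit 97632256)))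
  false (nat_lit 0)
def b1_5 : Bx := Bx.mk (St.mk (I.pos (nat_lit 51707904) (nat_lit 87785472)) (I.neg (nat_lit 13139968) (nat_lit 56852480)) (I.neg (nat_lit 26984448) (nat_lit 53149696)) (I.pos (nat_lit 158711808) (nat_lit 184926208)) (I.mix (nat_lit 132644864) (nat_lit 41877504)) (I.mix (nat_lit 50954240) (nat_lit 111214592)) (I.mix (nat_lit 47759360) (nat_lit 65912832)))
  false (nat_lit 0)
def b1_6 : Bx := Bx.mk (St.mk (I.pos (nat_lit 3391488) (nat_lit 33800192)) (I.pos (nat_lit 14696448) (nat_lit 40943616)) (I.mix (nat_lit 1916928) (nat_lit 4538368)) (I.pos (nat_lit 150831104) (nat_lit 160481280)) (I.mix (nat_lit 82100224) (nat_lit 43941888)) (I.mix (nat_lit 62308352) (nat_lit 43597824)) (I.mix (nat_lit 7700480) (nat_lit 12435456)))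
  false (nat_lit 0)
def b1_7 : Bx := Bx.mk (St.mk (I.neg (nat_lit 18841600) (nat_lit 56672256)) (I.neg (nat_lit 13893632) (nat_lit 48807936)) (I.mix (nat_lit 13860864) (nat_lit 4210688)) (I.pos (nat_lit 152813568) (nat_lit 167936000)) (I.mix (nat_lit 89145344) (nat_lit 55771136)) (I.mix (nat_lit 53755904) (nat_lit 65929216)) (I.mix (nat_lit 42401792) (nat_lit 22855680)))
  true (nat_lit 0)
def b1_8 : Bx := Bx.mk (St.mk (I.pos (nat_lit 173441024) (nat_lit 219348992)) (I.mix (nat_lit 17350656) (nat_lit 28966912)) (I.mix (nat_lit 67125248) (nat_lit 13811712)) (I.pos (nat_lit 293601280) (nat_lit 356237312)) (I.mix (nat_lit 192888832) (nat_lit 48332800)) (I.mix (nat_lit 102252544) (nat_lit 106315776)) (I.mix (nat_lit 171278336) (nat_lit 194953216)))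
  false (nat_lit 0)
def b1_9 : Bx := Bx.mk (St.mk (I.pos (nat_lit 92487680) (nat_lit 122322944)) (I.neg (nat_lit 1998848) (nat_lit 38846464)) (I.mix (nat_lit 29016064) (nat_lit 2392064)) (I.pos (nat_lit 188989440) (nat_lit 212549632)) (I.mix (nat_lit 123846656) (nat_lit 42024960)) (I.mix (nat_lit 56557568) (nat_lit 74399744)) (I.mix (nat_lit 59080704) (nat_lit 67682304)))
  false (nat_lit 0)
def b1_10 : Bx := Bx.mk (St.mk (I.pos (nat_lit 31145984) (nat_lit 53657600)) (I.mix (nat_lit 11452416) (nat_lit 16351232)) (I.neg (nat_lit 9895936) (nat_lit 22953984)) (I.pos (nat_lit 149782528) (nat_lit 162529280)) (I.mix (nat_lit 91439104) (nat_lit 36241408)) (I.mix (nat_lit 51265536) (nat_lit 53264384)) (I.mix (nat_lit 28540928) (nat_lit 29556736)))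
  false (nat_lit 0)
def b1_11 : Bx := Bx.mk (St.mk (I.neg (nat_lit 6946816) (nat_lit 24018944)) (I.mix (nat_lit 12451840) (nat_lit 10141696)) (I.mix (nat_lit 2097152) (nat_lit 1163264)) (I.pos (nat_lit 149209088) (nat_lit 152633344)) (I.mix (nat_lit 70303744) (nat_lit 28590080)) (I.mix (nat_lit 38469632) (nat_lit 43106304)) (I.mix (nat_lit 6946816) (nat_lit 3833856)))
  true (nat_lit 0)
def b1_12 : Bx := Bx.mk (St.mk (I.pos (nat_lit 133545984) (nat_lit 167821312)) (I.neg (nat_lit 5013504) (nat_lit 46678016)) (I.mix (nat_lit 40075264) (nat_lit 9371648)) (I.pos (nat_lit 230965248) (nat_lit 269729792)) (I.mix (nat_lit 89964544) (nat_lit 119291904)) (I.mix (nat_lit 111820800) (nat_lit 91144192)) (I.mix (nat_lit 121470976) (nat_lit 88080384)))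
  false (nat_lit 50270667)
def b1_13 : Bx := Bx.mk (St.mk (I.pos (nat_lit 64569344) (nat_lit 88719360)) (I.mix (nat_lit 17825792) (nat_lit 13336576)) (I.neg (nat_lit 11927552) (nat_lit 29245440)) (I.pos (nat_lit 164511744) (nat_lit 180764672)) (I.mix (nat_lit 47529984) (nat_lit 88408064)) (I.mix (nat_lit 61587456) (nat_lit 60243968)) (I.mix (nat_lit 38912000) (nat_lit 32931840)))
  false (nat_lit 0)
def b1_14 : Bx := Bx.mk (St.mk (I.pos (nat_lit 6946816) (nat_lit 24018944)) (I.mix (nat_lit 10141696) (nat_lit 13352960)) (I.mix (nat_lit 2097152) (nat_lit 1163264)) (I.pos (nat_lit 149209088) (nat_lit 152633344)) (I.mix (nat_lit 28606464) (nat_lit 70303744)) (I.mix (nat_lit 43106304) (nat_lit 38436864)) (I.mix (nat_lit 6946816) (nat_lit 3817472)))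
  false (nat_lit 0)
def b1_15 : Bx := Bx.mk (St.mk (I.neg (nat_lit 31145984) (nat_lit 53657600)) (I.mix (nat_lit 16351232) (nat_lit 11452416)) (I.neg (nat_lit 9895936) (nat_lit 22953984)) (I.pos (nat_lit 149782528) (nat_lit 162529280)) (I.mix (nat_lit 36667392) (nat_lit 91815936)) (I.mix (nat_lit 53690368) (nat_lit 51675136)) (I.mix (nat_lit 28786688) (nat_lit 29736960)))
  true (nat_lit 0)
def b1_16 : Bx := Bx.mk (St.mk (I.pos (nat_lit 161742848) (nat_lit 215793664)) (I.pos (nat_lit 10027008) (nat_lit 63619072)) (I.mix (nat_lit 6455296) (nat_lit 82477056)) (I.pos (nat_lit 294977536) (nat_lit 368754688)) (I.mix (nat_lit 161169408) (nat_lit 132366336)) (I.mix (nat_lit 147816448) (nat_lit 113475584)) (I.mix (nat_lit 276594688) (nat_lit 177143808)))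
  false (nat_lit 2130979)
def b1_17 : Bx := Bx.mk (St.mk (I.pos (nat_lit 82640896) (nat_lit 120045568)) (I.neg (nat_lit 18776064) (nat_lit 63651840)) (I.neg (nat_lit 15138816) (nat_lit 53166080)) (I.pos (nat_lit 184172544) (nat_lit 215285760)) (I.mix (nat_lit 105070592) (nat_lit 99778560)) (I.mix (nat_lit 74891264) (nat_lit 103153664)) (I.mix (nat_lit 69894144) (nat_lit 102891520)))
  false (nat_lit 0)
def b1_18 : Bx := Bx.mk (St.mk (I.pos (nat_lit 32096256) (nat_lit 58753024)) (I.pos (nat_lit 5505024) (nat_lit 38715392)) (I.neg (nat_lit 2998272) (nat_lit 15613952)) (I.pos (nat_lit 152027136) (nat_lit 166543360)) (I.mix (nat_lit 59457536) (nat_lit 89751552)) (I.mix (nat_lit 81477632) (nat_lit 50380800)) (I.mix (nat_lit 49922048) (nat_lit 22020096)))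
  false (nat_lit 0)
def b1_19 : Bx := Bx.mk (St.mk (I.neg (nat_lit 2293760) (nat_lit 25051136)) (I.neg (nat_lit 5341184) (nat_lit 31195136)) (I.mix (nat_lit 851968) (nat_lit 4145152)) (I.pos (nat_lit 150274048) (nat_lit 155385856)) (I.mix (nat_lit 45629440) (nat_lit 77938688)) (I.mix (nat_lit 38699008) (nat_lit 70107136)) (I.mix (nat_lit 6995968) (nat_lit 12288000)))
  true (nat_lit 0)
def b1_20 : Bx := Bx.mk (St.mk (I.pos (nat_lit 2293760) (nat_lit 25051136)) (I.pos (nat_lit 5341184) (nat_lit 31195136)) (I.mix (nat_lit 851968) (nat_lit 4145152)) (I.pos (nat_lit 150274048) (nat_lit 155385856)) (I.mix (nat_lit 77938688) (nat_lit 45629440)) (I.mix (nat_lit 70107136) (nat_lit 38699008)) (I.mix (nat_lit 6995968) (nat_lit 12288000)))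
  false (nat_lit 0)
def b1_21 : Bx := Bx.mk (St.mk (I.neg (nat_lit 32096256) (nat_lit 58753024)) (I.neg (nat_lit 5505024) (nat_lit 38715392)) (I.neg (nat_lit 2998272) (nat_lit 15613952)) (I.pos (nat_lit 152027136) (nat_lit 166543360)) (I.mix (nat_lit 89751552) (nat_lit 59457536)) (I.mix (nat_lit 50380800) (nat_lit 81494016)) (I.mix (nat_lit 49922048) (nat_lit 22069248)))
  true (nat_lit 0)
def b1_22 : Bx := Bx.mk (St.mk (I.pos (nat_lit 192937984) (nat_lit 217153536)) (I.pos (nat_lit 8863744) (nat_lit 29556736)) (I.mix (nat_lit 12926976) (nat_lit 14401536)) (I.pos (nat_lit 327483392) (nat_lit 355958784)) (I.mix (nat_lit 101810176) (nat_lit 39911424)) (I.mix (nat_lit 65896448) (nat_lit 55705600)) (I.mix (nat_lit 119209984) (nat_lit 96288768)))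
  false (nat_lit 0)
def b1_23 : Bx := Bx.mk (St.mk (I.pos (nat_lit 96583680) (nat_lit 119062528)) (I.neg (nat_lit 19972096) (nat_lit 40452096)) (I.neg (nat_lit 14565376) (nat_lit 30769152)) (I.pos (nat_lit 193118208) (nat_lit 210485248)) (I.mix (nat_lit 72400896) (nat_lit 26820608)) (I.mix (nat_lit 35241984) (nat_lit 38993920)) (I.mix (nat_lit 36061184) (nat_lit 36208640)))
  false (nat_lit 0)
def b1_24 : Bx := Bx.mk (St.mk (I.pos (nat_lit 39600128) (nat_lit 53346304)) (I.pos (nat_lit 1933312) (nat_lit 17809408)) (I.neg (nat_lit 9371648) (nat_lit 17678336)) (I.pos (nat_lit 154025984) (nat_lit 161792000)) (I.mix (nat_lit 35274752) (nat_lit 26558464)) (I.mix (nat_lit 22249472) (nat_lit 26820608)) (I.mix (nat_lit 15204352) (nat_lit 12271616)))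
  false (nat_lit 0)
def b1_25 : Bx := Bx.mk (St.mk (I.neg (nat_lit 7274496) (nat_lit 18055168)) (I.neg (nat_lit 1638400) (nat_lit 13893632)) (I.mix (nat_lit 688128) (nat_lit 1146880)) (I.pos (nat_lit 149635072) (nat_lit 152190976)) (I.mix (nat_lit 30474240) (nat_lit 26640384)) (I.mix (nat_lit 24788992) (nat_lit 22839296)) (I.mix (nat_lit 2326528) (nat_lit 3473408)))
  true (nat_lit 0)
def b1_26 : Bx := Bx.mk (St.mk (I.pos (nat_lit 136675328) (nat_lit 158777344)) (I.neg (nat_lit 2588672) (nat_lit 25788416)) (I.mix (nat_lit 12926976) (nat_lit 12910592)) (I.pos (nat_lit 234684416) (nat_lit 256835584)) (I.mix (nat_lit 78970880) (nat_lit 46022656)) (I.mix (nat_lit 63995904) (nat_lit 53936128)) (I.mix (nat_lit 64208896) (nat_lit 58769408)))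
  false (nat_lit 0)
def b1_27 : Bx := Bx.mk (St.mk (I.pos (nat_lit 64536576) (nat_lit 79527936)) (I.neg (nat_lit 1015808) (nat_lit 19628032)) (I.neg (nat_lit 19202048) (nat_lit 30261248)) (I.pos (nat_lit 164495360) (nat_lit 174735360)) (I.mix (nat_lit 47759360) (nat_lit 34062336)) (I.mix (nat_lit 35389440) (nat_lit 39305216)) (I.mix (nat_lit 24805376) (nat_lit 20971520)))
  false (nat_lit 0)
def b1_28 : Bx := Bx.mk (St.mk (I.pos (nat_lit 7274496) (nat_lit 18251776)) (I.pos (nat_lit 1638400) (nat_lit 13893632)) (I.mix (nat_lit 688128) (nat_lit 1146880)) (I.pos (nat_lit 149635072) (nat_lit 152174592)) (I.mix (nat_lit 27099136) (nat_lit 30965760)) (I.mix (nat_lit 23281664) (nat_lit 25362432)) (I.mix (nat_lit 2392064) (nat_lit 3473408)))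
  false (nat_lit 0)
def b1_29 : Bx := Bx.mk (St.mk (I.neg (nat_lit 39600128) (nat_lit 53346304)) (I.neg (nat_lit 1933312) (nat_lit 17940480)) (I.neg (nat_lit 9371648) (nat_lit 17678336)) (I.pos (nat_lit 153944064) (nat_lit 161792000)) (I.mix (nat_lit 32718848) (nat_lit 40484864)) (I.mix (nat_lit 30752768) (nat_lit 30998528)) (I.mix (nat_lit 19529728) (nat_lit 14483456)))
  true (nat_lit 0)
def b1_30 : Bx := Bx.mk (St.mk (I.pos (nat_lit 125648896) (nat_lit 169934848)) (I.mix (nat_lit 19562496) (nat_lit 23592960)) (I.mix (nat_lit 5373952) (nat_lit 49741824)) (I.pos (nat_lit 223428608) (nat_lit 272826368)) (I.mix (nat_lit 171130880) (nat_lit 79446016)) (I.mix (nat_lit 169902080) (nat_lit 77414400)) (I.mix (nat_lit 168591360) (nat_lit 85082112)))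
  false (nat_lit 0)
def b1_31 : Bx := Bx.mk (St.mk (I.pos (nat_lit 54312960) (nat_lit 86458368)) (I.neg (nat_lit 6160384) (nat_lit 41385984)) (I.neg (nat_lit 22364160) (nat_lit 45350912)) (I.pos (nat_lit 159170560) (nat_lit 179945472)) (I.mix (nat_lit 123764736) (nat_lit 55787520)) (I.mix (nat_lit 48873472) (nat_lit 115425280)) (I.mix (nat_lit 42303488) (nat_lit 64749568)))
  false (nat_lit 0)
def b1_32 : Bx := Bx.mk (St.mk (I.pos (nat_lit 94420992) (nat_lit 122322944)) (I.neg (nat_lit 6094848) (nat_lit 41238528)) (I.neg (nat_lit 1769472) (nat_lit 31555584)) (I.pos (nat_lit 189284352) (nat_lit 212549632)) (I.mix (nat_lit 118194176) (nat_lit 43319296)) (I.mix (nat_lit 58408960) (nat_lit 76677120)) (I.mix (nat_lit 60948480) (nat_lit 69713920)))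
  false (nat_lit 0)
def b1_33 : Bx := Bx.mk (St.mk (I.pos (nat_lit 31080448) (nat_lit 53690368)) (I.mix (nat_lit 11452416) (nat_lit 18890752)) (I.neg (nat_lit 8962048) (nat_lit 22970368)) (I.pos (nat_lit 149733376) (nat_lit 162562048)) (I.mix (nat_lit 92061696) (nat_lit 36765696)) (I.mix (nat_lit 51888128) (nat_lit 53854208)) (I.mix (nat_lit 28934144) (nat_lit 29884416)))
  false (nat_lit 0)
def b1_34 : Bx := Bx.mk (St.mk (I.neg (nat_lit 6963200) (nat_lit 24100864)) (I.mix (nat_lit 14860288) (nat_lit 11501568)) (I.mix (nat_lit 2244608) (nat_lit 1196032)) (I.pos (nat_lit 149192704) (nat_lit 152715264)) (I.mix (nat_lit 71385088) (nat_lit 28508160)) (I.mix (nat_lit 39436288) (nat_lit 44040192)) (I.mix (nat_lit 7028736) (nat_lit 3833856)))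
  true (nat_lit 0)
def b1_35 : Bx := Bx.mk (St.mk (I.pos (nat_lit 99762176) (nat_lit 134053888)) (I.neg (nat_lit 2408448) (nat_lit 29933568)) (I.mix (nat_lit 22020096) (nat_lit 2605056)) (I.pos (nat_lit 195297280) (nat_lit 226492416)) (I.mix (nat_lit 95862784) (nat_lit 43286528)) (I.mix (nat_lit 42336256) (nat_lit 65142784)) (I.mix (nat_lit 46792704) (nat_lit 60325888)))
  false (nat_lit 0)
def b1_36 : Bx := Bx.mk (St.mk (I.pos (nat_lit 37601280) (nat_lit 61210624)) (I.mix (nat_lit 11583488) (nat_lit 8011776)) (I.neg (nat_lit 12910592) (nat_lit 22577152)) (I.pos (nat_lit 152256512) (nat_lit 164364288)) (I.mix (nat_lit 66011136) (nat_lit 33685504)) (I.mix (nat_lit 43204608) (nat_lit 36388864)) (I.mix (nat_lit 23035904) (nat_lit 20398080)))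
  false (nat_lit 0)
def b1_37 : Bx := Bx.mk (St.mk (I.mix (nat_lit 18268160) (nat_lit 2883584)) (I.mix (nat_lit 5767168) (nat_lit 10272768)) (I.neg (nat_lit 393216) (nat_lit 1982464)) (I.pos (nat_lit 149078016) (nat_lit 151699456)) (I.mix (nat_lit 48971776) (nat_lit 28639232)) (I.mix (nat_lit 27590656) (nat_lit 36159488)) (I.mix (nat_lit 4472832) (nat_lit 819200)))
  true (nat_lit 0)
def b1_38 : Bx := Bx.mk (St.mk (I.pos (nat_lit 191463424) (nat_lit 236568576)) (I.mix (nat_lit 18677760) (nat_lit 15433728)) (I.neg (nat_lit 10158080) (nat_lit 72368128)) (I.pos (nat_lit 317505536) (nat_lit 399425536)) (I.mix (nat_lit 153272320) (nat_lit 42942464)) (I.mix (nat_lit 85475328) (nat_lit 75137024)) (I.mix (nat_lit 157220864) (nat_lit 146817024)))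
  false (nat_lit 0)
def b1_39 : Bx := Bx.mk (St.mk (I.pos (nat_lit 122748928) (nat_lit 157204480)) (I.neg (nat_lit 12713984) (nat_lit 45268992)) (I.neg (nat_lit 4079616) (nat_lit 39534592)) (I.pos (nat_lit 216203264) (nat_lit 255688704)) (I.mix (nat_lit 90292224) (nat_lit 73383936)) (I.mix (nat_lit 84803584) (nat_lit 64405504)) (I.mix (nat_lit 95633408) (nat_lit 59539456)))
  false (nat_lit 0)
def b1_40 : Bx := Bx.mk (St.mk (I.pos (nat_lit 56131584) (nat_lit 81756160)) (I.mix (nat_lit 8634368) (nat_lit 13271040)) (I.neg (nat_lit 11370496) (nat_lit 22102016)) (I.pos (nat_lit 160661504) (nat_lit 176078848)) (I.mix (nat_lit 46841856) (nat_lit 60735488)) (I.mix (nat_lit 41713664) (nat_lit 49299456)) (I.mix (nat_lit 24150016) (nat_lit 26738688)))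
  false (nat_lit 0)
def b1_41 : Bx := Bx.mk (St.mk (I.mix (nat_lit 2637824) (nat_lit 18268160)) (I.mix (nat_lit 10272768) (nat_lit 5767168)) (I.neg (nat_lit 393216) (nat_lit 1982464)) (I.pos (nat_lit 149078016) (nat_lit 151699456)) (I.mix (nat_lit 28639232) (nat_lit 48955392)) (I.mix (nat_lit 36159488) (nat_lit 27590656)) (I.mix (nat_lit 4472832) (nat_lit 770048)))
  false (nat_lit 0)
def b1_42 : Bx := Bx.mk (St.mk (I.neg (nat_lit 37601280) (nat_lit 62603264)) (I.mix (nat_lit 8011776) (nat_lit 11583488)) (I.neg (nat_lit 12910592) (nat_lit 22577152)) (I.pos (nat_lit 152240128) (nat_lit 165003264)) (I.mix (nat_lit 33685504) (nat_lit 65961984)) (I.mix (nat_lit 36388864) (nat_lit 43204608)) (I.mix (nat_lit 23035904) (nat_lit 20398080)))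
  true (nat_lit 0)
def b1_43 : Bx := Bx.mk (St.mk (I.pos (nat_lit 122126336) (nat_lit 132628480)) (I.neg (nat_lit 14467072) (nat_lit 24231936)) (I.neg (nat_lit 6586368) (nat_lit 15941632)) (I.pos (nat_lit 215318528) (nat_lit 224985088)) (I.mix (nat_lit 33554432) (nat_lit 3637248)) (I.mix (nat_lit 9977856) (nat_lit 16531456)) (I.mix (nat_lit 13533184) (nat_lit 14041088)))
  false (nat_lit 0)
def b1_44 : Bx := Bx.mk (St.mk (I.pos (nat_lit 54706176) (nat_lit 61734912)) (I.mix (nat_lit 5029888) (nat_lit 2392064)) (I.neg (nat_lit 15646720) (nat_lit 19841024)) (I.pos (nat_lit 159907840) (nat_lit 164593664)) (I.mix (nat_lit 18038784) (nat_lit 7847936)) (I.mix (nat_lit 10846208) (nat_lit 9011200)) (I.mix (nat_lit 6389760) (nat_lit 4685824)))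
  false (nat_lit 0)
def b1_45 : Bx := Bx.mk (St.mk (I.mix (nat_lit 3719168) (nat_lit 1916928)) (I.mix (nat_lit 1523712) (nat_lit 4096000)) (I.neg (nat_lit 327680) (nat_lit 1589248)) (I.pos (nat_lit 148865024) (nat_lit 150618112)) (I.mix (nat_lit 11026432) (nat_lit 10305536)) (I.mix (nat_lit 7143424) (nat_lit 9027584)) (I.neg (nat_lit 491520) (nat_lit 1851392)))
  true (nat_lit 0)
def b1_46 : Bx := Bx.mk (St.mk (I.pos (nat_lit 121978880) (nat_lit 133185536)) (I.neg (nat_lit 14368768) (nat_lit 24838144)) (I.neg (nat_lit 6504448) (nat_lit 16580608)) (I.pos (nat_lit 215203840) (nat_lit 225591296)) (I.mix (nat_lit 34684928) (nat_lit 4931584)) (I.mix (nat_lit 10846208) (nat_lit 17137664)) (I.mix (nat_lit 14483456) (nat_lit 14614528)))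
  false (nat_lit 0)
def b1_47 : Bx := Bx.mk (St.mk (I.pos (nat_lit 36175872) (nat_lit 62799872)) (I.mix (nat_lit 11485184) (nat_lit 6766592)) (I.neg (nat_lit 12681216) (nat_lit 22593536)) (I.pos (nat_lit 151502848) (nat_lit 165216256)) (I.mix (nat_lit 54214656) (nat_lit 21757952)) (I.mix (nat_lit 33095680) (nat_lit 24150016)) (I.mix (nat_lit 17793024) (nat_lit 14303232)))
  false (nat_lit 0)
def b1_48 : Bx := Bx.mk (St.mk (I.mix (nat_lit 19464192) (nat_lit 2375680)) (I.mix (nat_lit 3194880) (nat_lit 10469376)) (I.neg (nat_lit 327680) (nat_lit 1720320)) (I.pos (nat_lit 148865024) (nat_lit 151552000)) (I.mix (nat_lit 41140224) (nat_lit 21233664)) (I.mix (nat_lit 17317888) (nat_lit 29704192)) (I.mix (nat_lit 4161536) (nat_lit 409600)))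
  true (nat_lit 0)
def t1 : BTr := (BTr.n (BTr.n (BTr.n (BTr.n (BTr.n (BTr.b b1_0) (BTr.n (BTr.b b1_1) (BTr.b b1_2))) (BTr.n (BTr.b b1_3) (BTr.n (BTr.b b1_4) (BTr.b b1_5)))) (BTr.n (BTr.n (BTr.b b1_6) (BTr.n (BTr.b b1_7) (BTr.b b1_8))) (BTr.n (BTr.b b1_9) (BTr.n (BTr.b b1_10) (BTr.b b1_11))))) (BTr.n (BTr.n (BTr.n (BTr.b b1_12) (BTr.n (BTr.b b1_13) (BTr.b b1_14))) (BTr.n (BTr.b b1_15) (BTr.n (BTr.b b1_16) (BTr.b b1_17)))) (BTr.n (BTr.n (BTr.b b1_18) (BTr.n (BTr.b b1_19) (BTr.b b1_20))) (BTr.n (BTr.b b1_21) (BTr.n (BTr.b b1_22) (BTr.b b1_23)))))) (BTr.n (BTr.n (BTr.n (BTr.n (BTr.b b1_24) (BTr.n (BTr.b b1_25) (BTr.b b1_26))) (BTr.n (BTr.b b1_27) (BTr.n (BTr.b b1_28) (BTr.b b1_29)))) (BTr.n (BTr.n (BTr.b b1_30) (BTr.n (BTr.b b1_31) (BTr.b b1_32))) (BTr.n (BTr.b b1_33) (BTr.n (BTr.b b1_34) (BTr.b b1_35))))) (BTr.n (BTr.n (BTr.n (BTr.b b1_36)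 (BTr.n (BTr.b b1_37) (BTr.b b1_38))) (BTr.n (BTr.b b1_39) (BTr.n (BTr.b b1_40) (BTr.b b1_41)))) (BTr.n (BTr.n (BTr.b b1_42) (BTr.n (BTr.b b1_43) (BTr.b b1_44))) (BTr.n (BTr.n (BTr.b b1_45) (BTr.b b1_46)) (BTr.n (BTr.b b1_47) (BTr.b b1_48)))))))
namespace T1
def l0 : Tr := Tr.L (Pth.l (Pth.l (Pth.l (Pth.l (Pth.l Pth.z)))))
def l1 : Tr := Tr.L (Pth.l (Pth.l (Pth.l (Pth.l (Pth.r (Pth.l Pth.z))))))
def l2 : Tr := Tr.L (Pth.l (Pth.l (Pth.l (Pth.l (Pth.r (Pth.r Pth.z))))))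
def l3 : Tr := Tr.L (Pth.l (Pth.l (Pth.l (Pth.r (Pth.l Pth.z)))))
def l4 : Tr := Tr.L (Pth.l (Pth.l (Pth.l (Pth.r (Pth.r (Pth.l Pth.z))))))
def l5 : Tr := Tr.L (Pth.l (Pth.l (Pth.l (Pth.r (Pth.r (Pth.r Pth.z))))))
def l6 : Tr := Tr.L (Pth.l (Pth.l (Pth.r (Pth.l (Pth.l Pth.z)))))
def l7 : Tr := Tr.L (Pth.l (Pth.l (Pth.r (Pth.l (Pth.r (Pth.l Pth.z))))))
def l8 : Tr := Tr.L (Pth.l (Pth.l (Pth.r (Pth.l (Pth.r (Pth.r Pth.z))))))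
def l9 : Tr := Tr.L (Pth.l (Pth.l (Pth.r (Pth.r (Pth.l Pth.z)))))
def l10 : Tr := Tr.L (Pth.l (Pth.l (Pth.r (Pth.r (Pth.r (Pth.l Pth.z))))))
def l11 : Tr := Tr.L (Pth.l (Pth.l (Pth.r (Pth.r (Pth.r (Pth.r Pth.z))))))
def l12 : Tr := Tr.L (Pth.l (Pth.r (Pth.l (Pth.l (Pth.l Pth.z)))))
def l13 : Tr := Tr.L (Pth.l (Pth.r (Pth.l (Pth.l (Pth.r (Pth.l Pth.z))))))
def l14 : Tr := Tr.L (Pth.l (Pth.r (Pth.l (Pth.l (Pth.r (Pth.r Pth.z))))))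
def l15 : Tr := Tr.L (Pth.l (Pth.r (Pth.l (Pth.r (Pth.l Pth.z)))))
def l16 : Tr := Tr.L (Pth.l (Pth.r (Pth.l (Pth.r (Pth.r (Pth.l Pth.z))))))
def l17 : Tr := Tr.L (Pth.l (Pth.r (Pth.l (Pth.r (Pth.r (Pth.r Pth.z))))))
def l18 : Tr := Tr.L (Pth.l (Pth.r (Pth.r (Pth.l (Pth.l Pth.z)))))
def l19 : Tr := Tr.L (Pth.l (Pth.r (Pth.r (Pth.l (Pth.r (Pth.l Pth.z))))))
def l20 : Tr := Tr.L (Pth.l (Pth.r (Pth.r (Pth.l (Pth.r (Pth.r Pth.z))))))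
def l21 : Tr := Tr.L (Pth.l (Pth.r (Pth.r (Pth.r (Pth.l Pth.z)))))
def l22 : Tr := Tr.L (Pth.l (Pth.r (Pth.r (Pth.r (Pth.r (Pth.l Pth.z))))))
def l23 : Tr := Tr.L (Pth.l (Pth.r (Pth.r (Pth.r (Pth.r (Pth.r Pth.z))))))
def l24 : Tr := Tr.L (Pth.r (Pth.l (Pth.l (Pth.l (Pth.l Pth.z)))))
def l25 : Tr := Tr.L (Pth.r (Pth.l (Pth.l (Pth.l (Pth.r (Pth.l Pth.z))))))
def l26 : Tr := Tr.L (Pth.r (Pth.l (Pth.l (Pth.l (Pth.r (Pth.r Pth.z))))))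
def l27 : Tr := Tr.L (Pth.r (Pth.l (Pth.l (Pth.r (Pth.l Pth.z)))))
def l28 : Tr := Tr.L (Pth.r (Pth.l (Pth.l (Pth.r (Pth.r (Pth.l Pth.z))))))
def l29 : Tr := Tr.L (Pth.r (Pth.l (Pth.l (Pth.r (Pth.r (Pth.r Pth.z))))))
def l30 : Tr := Tr.L (Pth.r (Pth.l (Pth.r (Pth.l (Pth.l Pth.z)))))
def l31 : Tr := Tr.L (Pth.r (Pth.l (Pth.r (Pth.l (Pth.r (Pth.l Pth.z))))))
def l32 : Tr := Tr.L (Pth.r (Pth.l (Pth.r (Pth.l (Pth.r (Pth.r Pth.z))))))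
def l33 : Tr := Tr.L (Pth.r (Pth.l (Pth.r (Pth.r (Pth.l Pth.z)))))
def l34 : Tr := Tr.L (Pth.r (Pth.l (Pth.r (Pth.r (Pth.r (Pth.l Pth.z))))))
def l35 : Tr := Tr.L (Pth.r (Pth.l (Pth.r (Pth.r (Pth.r (Pth.r Pth.z))))))
def l36 : Tr := Tr.L (Pth.r (Pth.r (Pth.l (Pth.l (Pth.l Pth.z)))))
def l37 : Tr := Tr.L (Pth.r (Pth.r (Pth.l (Pth.l (Pth.r (Pth.l Pth.z))))))
def l38 : Tr := Tr.L (Pth.r (Pth.r (Pth.l (Pth.l (Pth.r (Pth.r Pth.z))))))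
def l39 : Tr := Tr.L (Pth.r (Pth.r (Pth.l (Pth.r (Pth.l Pth.z)))))
def l40 : Tr := Tr.L (Pth.r (Pth.r (Pth.l (Pth.r (Pth.r (Pth.l Pth.z))))))
def l41 : Tr := Tr.L (Pth.r (Pth.r (Pth.l (Pth.r (Pth.r (Pth.r Pth.z))))))
def l42 : Tr := Tr.L (Pth.r (Pth.r (Pth.r (Pth.l (Pth.l Pth.z)))))
def l43 : Tr := Tr.L (Pth.r (Pth.r (Pth.r (Pth.l (Pth.r (Pth.l Pth.z))))))
def l44 : Tr := Tr.L (Pth.r (Pth.r (Pth.r (Pth.l (Pth.r (Pth.r Pth.z))))))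
def l45 : Tr := Tr.L (Pth.r (Pth.r (Pth.r (Pth.r (Pth.l (Pth.l Pth.z))))))
def l46 : Tr := Tr.L (Pth.r (Pth.r (Pth.r (Pth.r (Pth.l (Pth.r Pth.z))))))
def l47 : Tr := Tr.L (Pth.r (Pth.r (Pth.r (Pth.r (Pth.r (Pth.l Pth.z))))))
def l48 : Tr := Tr.L (Pth.r (Pth.r (Pth.r (Pth.r (Pth.r (Pth.r Pth.z))))))
end T1
def b2_0 : Bx := Bx.mk (St.mk (I.pos (nat_lit 121257984) (nat_lit 218021888)) (I.mix (nat_lit 2703360) (nat_lit 85442560)) (I.mix (nat_lit 3751936) (nat_lit 121192448)) (I.pos (nat_lit 375390208) (nat_lit 490881024)) (I.mix (nat_lit 243318784) (nat_lit 108462080)) (I.mix (nat_lit 135675904) (nat_lit 106987520)) (I.mix (nat_lit 173113344) (nat_lit 176095232)))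
  false (nat_lit 63381402)
def b2_1 : Bx := Bx.mk (St.mk (I.pos (nat_lit 21954560) (nat_lit 88866816)) (I.neg (nat_lit 39878656) (nat_lit 99106816)) (I.neg (nat_lit 5275648) (nat_lit 55951360)) (I.pos (nat_lit 287670272) (nat_lit 340639744)) (I.mix (nat_lit 159711232) (nat_lit 162414592)) (I.mix (nat_lit 144244736) (nat_lit 115638272)) (I.mix (nat_lit 140394496) (nat_lit 116834304)))
  false (nat_lit 175369734)
def b2_2 : Bx := Bx.mk (St.mk (I.pos (nat_lit 92667904) (nat_lit 168460288)) (I.pos (nat_lit 4931584) (nat_lit 68190208)) (I.pos (nat_lit 44187648) (nat_lit 117391360)) (I.pos (nat_lit 329711616) (nat_lit 425869312)) (I.mix (nat_lit 262651904) (nat_lit 93749248)) (I.mix (nat_lit 213286912) (nat_lit 135905280)) (I.mix (nat_lit 224100352) (nat_lit 205635584)))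
  false (nat_lit 55690907)
def b2_3 : Bx := Bx.mk (St.mk (I.neg (nat_lit 21954560) (nat_lit 88883200)) (I.pos (nat_lit 39878656) (nat_lit 99106816)) (I.neg (nat_lit 5275648) (nat_lit 55951360)) (I.pos (nat_lit 287670272) (nat_lit 340639744)) (I.mix (nat_lit 162480128) (nat_lit 159760384)) (I.mix (nat_lit 115621888) (nat_lit 144261120)) (I.mix (nat_lit 140460032) (nat_lit 116883456)))
  true (nat_lit 0)
def b2_4 : Bx := Bx.mk (St.mk (I.pos (nat_lit 69271552) (nat_lit 106905600)) (I.mix (nat_lit 35307520) (nat_lit 1130496)) (I.mix (nat_lit 3194880) (nat_lit 27164672)) (I.pos (nat_lit 303759360) (nat_lit 335298560)) (I.mix (nat_lit 110362624) (nat_lit 87490560)) (I.mix (nat_lit 66240512) (nat_lit 93765632)) (I.mix (nat_lit 68173824) (nat_lit 75513856)))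
  false (nat_lit 0)
def b2_5 : Bx := Bx.mk (St.mk (I.pos (nat_lit 95027200) (nat_lit 138002432)) (I.neg (nat_lit 8257536) (nat_lit 47693824)) (I.mix (nat_lit 15269888) (nat_lit 21315584)) (I.pos (nat_lit 323813376) (nat_lit 366985216)) (I.mix (nat_lit 116604928) (nat_lit 94535680)) (I.mix (nat_lit 107085824) (nat_lit 79970304)) (I.mix (nat_lit 108347392) (nat_lit 66174976)))
  false (nat_lit 60384)
def b2_6 : Bx := Bx.mk (St.mk (I.neg (nat_lit 69271552) (nat_lit 110837760)) (I.mix (nat_lit 1130496) (nat_lit 35274752)) (I.mix (nat_lit 3194880) (nat_lit 27164672)) (I.pos (nat_lit 303759360) (nat_lit 339034112)) (I.mix (nat_lit 87441408) (nat_lit 110362624)) (I.mix (nat_lit 93782016) (nat_lit 66273280)) (I.mix (nat_lit 68157440) (nat_lit 75513856)))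
  true (nat_lit 0)
def b2_7 : Bx := Bx.mk (St.mk (I.pos (nat_lit 85671936) (nat_lit 109920256)) (I.neg (nat_lit 14630912) (nat_lit 35389440)) (I.mix (nat_lit 3325952) (nat_lit 13893632)) (I.pos (nat_lit 317292544) (nat_lit 337936384)) (I.mix (nat_lit 73662464) (nat_lit 41287680)) (I.mix (nat_lit 45858816) (nat_lit 38256640)) (I.mix (nat_lit 46137344) (nat_lit 29016064)))
  false (nat_lit 0)
def b2_8 : Bx := Bx.mk (St.mk (I.neg (nat_lit 6946816) (nat_lit 57163776)) (I.pos (nat_lit 32538624) (nat_lit 86196224)) (I.neg (nat_lit 26034176) (nat_lit 52133888)) (I.pos (nat_lit 285474816) (nat_lit 311328768)) (I.mix (nat_lit 87326720) (nat_lit 161054720)) (I.mix (nat_lit 112082944) (nat_lit 104120320)) (I.mix (nat_lit 76546048) (nat_lit 47218688)))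
  true (nat_lit 0)
def b2_9 : Bx := Bx.mk (St.mk (I.pos (nat_lit 6946816) (nat_lit 57163776)) (I.neg (nat_lit 32538624) (nat_lit 86196224)) (I.neg (nat_lit 26050560) (nat_lit 52133888)) (I.pos (nat_lit 285474816) (nat_lit 311328768)) (I.mix (nat_lit 161038336) (nat_lit 87326720)) (I.mix (nat_lit 104120320) (nat_lit 112082944)) (I.mix (nat_lit 76546048) (nat_lit 47218688)))
  false (nat_lit 74495331)
def b2_10 : Bx := Bx.mk (St.mk (I.pos (nat_lit 90357760) (nat_lit 110821376)) (I.neg (nat_lit 15155200) (nat_lit 35110912)) (I.mix (nat_lit 2654208) (nat_lit 14024704)) (I.pos (nat_lit 321110016) (nat_lit 338755584)) (I.mix (nat_lit 62111744) (nat_lit 43483136)) (I.mix (nat_lit 46399488) (nat_lit 39043072)) (I.mix (nat_lit 45367296) (nat_lit 30720000)))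
  false (nat_lit 0)
def b2_11 : Bx := Bx.mk (St.mk (I.pos (nat_lit 61603840) (nat_lit 96763904)) (I.neg (nat_lit 1114112) (nat_lit 43991040)) (I.mix (nat_lit 10092544) (nat_lit 25722880)) (I.pos (nat_lit 299237376) (nat_lit 327811072)) (I.mix (nat_lit 123453440) (nat_lit 66240512)) (I.mix (nat_lit 68288512) (nat_lit 86097920)) (I.mix (nat_lit 69222400) (nat_lit 70107136)))
  false (nat_lit 0)
def b2_12 : Bx := Bx.mk (St.mk (I.pos (nat_lit 110018560) (nat_lit 146571264)) (I.mix (nat_lit 46825472) (nat_lit 4702208)) (I.mix (nat_lit 13484032) (nat_lit 40124416)) (I.pos (nat_lit 339001344) (nat_lit 376913920)) (I.mix (nat_lit 88850432) (nat_lit 114278400)) (I.mix (nat_lit 105988096) (nat_lit 83017728)) (I.mix (nat_lit 107495424) (nat_lit 77676544)))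
  false (nat_lit 30287424)
def b2_13 : Bx := Bx.mk (St.mk (I.neg (nat_lit 61603840) (nat_lit 96763904)) (I.pos (nat_lit 1114112) (nat_lit 43991040)) (I.mix (nat_lit 10092544) (nat_lit 25739264)) (I.pos (nat_lit 299237376) (nat_lit 327827456)) (I.mix (nat_lit 66469888) (nat_lit 123682816)) (I.mix (nat_lit 86343680) (nat_lit 68599808)) (I.mix (nat_lit 69517312) (nat_lit 70270976)))
  true (nat_lit 0)
def b2_14 : Bx := Bx.mk (St.mk (I.pos (nat_lit 163495936) (nat_lit 212140032)) (I.mix (nat_lit 8175616) (nat_lit 34144256)) (I.mix (nat_lit 45137920) (nat_lit 16465920)) (I.pos (nat_lit 410435584) (nat_lit 468697088)) (I.mix (nat_lit 163282944) (nat_lit 54722560)) (I.mix (nat_lit 87130112) (nat_lit 86999040)) (I.mix (nat_lit 130088960) (nat_lit 143556608)))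
  false (nat_lit 0)
def b2_15 : Bx := Bx.mk (St.mk (I.neg (nat_lit 18792448) (nat_lit 44318720)) (I.mix (nat_lit 1245184) (nat_lit 35405824)) (I.neg (nat_lit 24625152) (nat_lit 33964032)) (I.pos (nat_lit 281493504) (nat_lit 291389440)) (I.mix (nat_lit 85082112) (nat_lit 59260928)) (I.mix (nat_lit 51216384) (nat_lit 63258624)) (I.mix (nat_lit 21741568) (nat_lit 16089088)))
  true (nat_lit 0)
def b2_16 : Bx := Bx.mk (St.mk (I.pos (nat_lit 18792448) (nat_lit 44318720)) (I.mix (nat_lit 35405824) (nat_lit 1245184)) (I.neg (nat_lit 24625152) (nat_lit 33980416)) (I.pos (nat_lit 281493504) (nat_lit 291389440)) (I.mix (nat_lit 59260928) (nat_lit 85082112)) (I.mix (nat_lit 63258624) (nat_lit 51216384)) (I.mix (nat_lit 21741568) (nat_lit 16089088)))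
  false (nat_lit 0)
def b2_17 : Bx := Bx.mk (St.mk (I.pos (nat_lit 205799424) (nat_lit 252674048)) (I.pos (nat_lit 4751360) (nat_lit 49479680)) (I.mix (nat_lit 35749888) (nat_lit 38027264)) (I.pos (nat_lit 476479488) (nat_lit 565329920)) (I.mix (nat_lit 112771072) (nat_lit 64405504)) (I.mix (nat_lit 76742656) (nat_lit 79364096)) (I.mix (nat_lit 134529024) (nat_lit 150306816)))
  false (nat_lit 0)
def b2_18 : Bx := Bx.mk (St.mk (I.mix (nat_lit 17924096) (nat_lit 10027008)) (I.pos (nat_lit 3997696) (nat_lit 27557888)) (I.neg (nat_lit 28426240) (nat_lit 32866304)) (I.pos (nat_lit 279429120) (nat_lit 284360704)) (I.mix (nat_lit 39632896) (nat_lit 58327040)) (I.mix (nat_lit 37388288) (nat_lit 38699008)) (I.mix (nat_lit 9584640) (nat_lit 6225920)))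
  true (nat_lit 0)
def b2_19 : Bx := Bx.mk (St.mk (I.mix (nat_lit 10027008) (nat_lit 17907712)) (I.neg (nat_lit 3997696) (nat_lit 27557888)) (I.neg (nat_lit 28426240) (nat_lit 32866304)) (I.pos (nat_lit 279429120) (nat_lit 284360704)) (I.mix (nat_lit 58327040) (nat_lit 39632896)) (I.mix (nat_lit 38699008) (nat_lit 37388288)) (I.mix (nat_lit 9584640) (nat_lit 6225920)))
  false (nat_lit 0)
def b2_20 : Bx := Bx.mk (St.mk (I.mix (nat_lit 8421376) (nat_lit 11091968)) (I.mix (nat_lit 3915776) (nat_lit 19300352)) (I.neg (nat_lit 30588928) (nat_lit 32587776)) (I.pos (nat_lit 279281664) (nat_lit 282951680)) (I.mix (nat_lit 32030720) (nat_lit 54493184)) (I.mix (nat_lit 38567936) (nat_lit 27934720)) (I.neg (nat_lit 573440) (nat_lit 6717440)))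
  true (nat_lit 0)
def b2_21 : Bx := Bx.mk (St.mk (I.pos (nat_lit 147800064) (nat_lit 196296704)) (I.pos (nat_lit 28065792) (nat_lit 78610432)) (I.pos (nat_lit 23740416) (nat_lit 97697792)) (I.pos (nat_lit 401555456) (nat_lit 468680704)) (I.mix (nat_lit 170885120) (nat_lit 114065408)) (I.mix (nat_lit 138903552) (nat_lit 82362368)) (I.mix (nat_lit 229736448) (nat_lit 119570432)))
  false (nat_lit 0)
def b2_22 : Bx := Bx.mk (St.mk (I.neg (nat_lit 10092544) (nat_lit 51478528)) (I.pos (nat_lit 19038208) (nat_lit 63668224)) (I.neg (nat_lit 27787264) (nat_lit 45613056)) (I.pos (nat_lit 284360704) (nat_lit 298745856)) (I.mix (nat_lit 97812480) (nat_lit 122683392)) (I.mix (nat_lit 113868800) (nat_lit 73957376)) (I.mix (nat_lit 41762816) (nat_lit 29851648)))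
  true (nat_lit 0)
def b2_23 : Bx := Bx.mk (St.mk (I.pos (nat_lit 10092544) (nat_lit 51478528)) (I.neg (nat_lit 19038208) (nat_lit 63668224)) (I.neg (nat_lit 27787264) (nat_lit 45613056)) (I.pos (nat_lit 284360704) (nat_lit 298745856)) (I.mix (nat_lit 122683392) (nat_lit 97812480)) (I.mix (nat_lit 73957376) (nat_lit 113868800)) (I.mix (nat_lit 41762816) (nat_lit 29851648)))
  false (nat_lit 16843788)
def b2_24 : Bx := Bx.mk (St.mk (I.pos (nat_lit 179617792) (nat_lit 225361920)) (I.mix (nat_lit 6848512) (nat_lit 37781504)) (I.mix (nat_lit 46088192) (nat_lit 23822336)) (I.pos (nat_lit 430456832) (nat_lit 500891648)) (I.mix (nat_lit 118177792) (nat_lit 80216064)) (I.mix (nat_lit 86949888) (nat_lit 75431936)) (I.mix (nat_lit 143867904) (nat_lit 134676480)))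
  false (nat_lit 0)
def b2_25 : Bx := Bx.mk (St.mk (I.neg (nat_lit 7356416) (nat_lit 34832384)) (I.mix (nat_lit 1835008) (nat_lit 28295168)) (I.neg (nat_lit 25198592) (nat_lit 31457280)) (I.pos (nat_lit 280723456) (nat_lit 287522816)) (I.mix (nat_lit 57032704) (nat_lit 63619072)) (I.mix (nat_lit 50675712) (nat_lit 47185920)) (I.mix (nat_lit 11468800) (nat_lit 13074432)))
  true (nat_lit 0)
def b2_26 : Bx := Bx.mk (St.mk (I.pos (nat_lit 7356416) (nat_lit 34832384)) (I.mix (nat_lit 28295168) (nat_lit 1835008)) (I.neg (nat_lit 25198592) (nat_lit 31457280)) (I.pos (nat_lit 280723456) (nat_lit 287522816)) (I.mix (nat_lit 63619072) (nat_lit 57032704)) (I.mix (nat_lit 47185920) (nat_lit 50675712)) (I.mix (nat_lit 11468800) (nat_lit 13074432)))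
  false (nat_lit 0)
def b2_27 : Bx := Bx.mk (St.mk (I.pos (nat_lit 223789056) (nat_lit 257359872)) (I.mix (nat_lit 3751936) (nat_lit 37453824)) (I.mix (nat_lit 68403200) (nat_lit 11124736)) (I.pos (nat_lit 503218176) (nat_lit 572768256)) (I.mix (nat_lit 90980352) (nat_lit 71778304)) (I.mix (nat_lit 74645504) (nat_lit 53936128)) (I.mix (nat_lit 162922496) (nat_lit 108675072)))
  false (nat_lit 0)
def b2_28 : Bx := Bx.mk (St.mk (I.mix (nat_lit 11091968) (nat_lit 8421376)) (I.mix (nat_lit 19382272) (nat_lit 4194304)) (I.neg (nat_lit 30588928) (nat_lit 32587776)) (I.pos (nat_lit 279281664) (nat_lit 282951680)) (I.mix (nat_lit 54509568) (nat_lit 32227328)) (I.mix (nat_lit 28213248) (nat_lit 38584320)) (I.neg (nat_lit 557056) (nat_lit 6717440)))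
  false (nat_lit 0)
def b2_29 : Bx := Bx.mk (St.mk (I.pos (nat_lit 49709056) (nat_lit 90882048)) (I.neg (nat_lit 31621120) (nat_lit 84623360)) (I.mix (nat_lit 39911424) (nat_lit 409600)) (I.pos (nat_lit 298303488) (nat_lit 337248256)) (I.mix (nat_lit 112672768) (nat_lit 127336448)) (I.mix (nat_lit 101154816) (nat_lit 112705536)) (I.mix (nat_lit 88113152) (nat_lit 110788608)))
  false (nat_lit 83559496)
def b2_30 : Bx := Bx.mk (St.mk (I.pos (nat_lit 110477312) (nat_lit 151535616)) (I.mix (nat_lit 9125888) (nat_lit 28475392)) (I.pos (nat_lit 25739264) (nat_lit 71254016)) (I.pos (nat_lit 340557824) (nat_lit 388661248)) (I.mix (nat_lit 167116800) (nat_lit 84361216)) (I.mix (nat_lit 155828224) (nat_lit 87162880)) (I.mix (nat_lit 147734528) (nat_lit 110362624)))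
  false (nat_lit 0)
def b2_31 : Bx := Bx.mk (St.mk (I.neg (nat_lit 49692672) (nat_lit 90898432)) (I.pos (nat_lit 31621120) (nat_lit 84623360)) (I.mix (nat_lit 39911424) (nat_lit 409600)) (I.pos (nat_lit 298303488) (nat_lit 337248256)) (I.mix (nat_lit 127320064) (nat_lit 112689152)) (I.mix (nat_lit 112705536) (nat_lit 101154816)) (I.mix (nat_lit 88113152) (nat_lit 110788608)))
  true (nat_lit 0)
def b2_32 : Bx := Bx.mk (St.mk (I.pos (nat_lit 61374464) (nat_lit 82837504)) (I.neg (nat_lit 22757376) (nat_lit 43155456)) (I.mix (nat_lit 9519104) (nat_lit 5767168)) (I.pos (nat_lit 301678592) (nat_lit 318849024)) (I.mix (nat_lit 75137024) (nat_lit 20414464)) (I.mix (nat_lit 29016064) (nat_lit 41336832)) (I.mix (nat_lit 31457280) (nat_lit 30539776)))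
  false (nat_lit 0)
def b2_33 : Bx := Bx.mk (St.mk (I.pos (nat_lit 122765312) (nat_lit 146980864)) (I.mix (nat_lit 19857408) (nat_lit 3637248)) (I.pos (nat_lit 13926400) (nat_lit 38977536)) (I.pos (nat_lit 350912512) (nat_lit 377290752)) (I.mix (nat_lit 50741248) (nat_lit 63569920)) (I.mix (nat_lit 52723712) (nat_lit 43646976)) (I.mix (nat_lit 53329920) (nat_lit 44761088)))
  false (nat_lit 0)
def b2_34 : Bx := Bx.mk (St.mk (I.neg (nat_lit 61358080) (nat_lit 82837504)) (I.pos (nat_lit 22757376) (nat_lit 43171840)) (I.mix (nat_lit 9519104) (nat_lit 5767168)) (I.pos (nat_lit 301678592) (nat_lit 318865408)) (I.mix (nat_lit 20414464) (nat_lit 74743808)) (I.mix (nat_lit 41336832) (nat_lit 29048832)) (I.mix (nat_lit 31506432) (nat_lit 30556160)))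
  true (nat_lit 0)
def b2_35 : Bx := Bx.mk (St.mk (I.pos (nat_lit 174440448) (nat_lit 196083712)) (I.pos (nat_lit 13746176) (nat_lit 29900800)) (I.mix (nat_lit 2883584) (nat_lit 14073856)) (I.pos (nat_lit 425787392) (nat_lit 444661760)) (I.neg (nat_lit 14614528) (nat_lit 70025216)) (I.mix (nat_lit 28590080) (nat_lit 7651328)) (I.mix (nat_lit 37814272) (nat_lit 13860864)))
  false (nat_lit 0)
def b2_36 : Bx := Bx.mk (St.mk (I.neg (nat_lit 20299776) (nat_lit 38289408)) (I.pos (nat_lit 13041664) (nat_lit 38404096)) (I.neg (nat_lit 28000256) (nat_lit 34177024)) (I.pos (nat_lit 282886144) (nat_lit 291094528)) (I.mix (nat_lit 39616512) (nat_lit 50298880)) (I.mix (nat_lit 39354368) (nat_lit 35356672)) (I.mix (nat_lit 16056320) (nat_lit 8716288)))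
  true (nat_lit 0)
def b2_37 : Bx := Bx.mk (St.mk (I.pos (nat_lit 20299776) (nat_lit 38289408)) (I.neg (nat_lit 13041664) (nat_lit 38404096)) (I.neg (nat_lit 28000256) (nat_lit 34177024)) (I.pos (nat_lit 282886144) (nat_lit 291094528)) (I.mix (nat_lit 50298880) (nat_lit 39616512)) (I.mix (nat_lit 35356672) (nat_lit 39354368)) (I.mix (nat_lit 16056320) (nat_lit 8716288)))
  false (nat_lit 0)
def b2_38 : Bx := Bx.mk (St.mk (I.pos (nat_lit 206929920) (nat_lit 237912064)) (I.pos (nat_lit 4603904) (nat_lit 29163520)) (I.mix (nat_lit 35930112) (nat_lit 4472832)) (I.pos (nat_lit 478445568) (nat_lit 526270464)) (I.mix (nat_lit 82149376) (nat_lit 59637760)) (I.mix (nat_lit 71286784) (nat_lit 47398912)) (I.mix (nat_lit 134529024) (nat_lit 80707584)))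
  false (nat_lit 0)
def b2_39 : Bx := Bx.mk (St.mk (I.neg (nat_lit 475136) (nat_lit 16728064)) (I.pos (nat_lit 3850240) (nat_lit 19709952)) (I.neg (nat_lit 28360704) (nat_lit 31195136)) (I.pos (nat_lit 279805952) (nat_lit 283885568)) (I.mix (nat_lit 28540928) (nat_lit 48791552)) (I.mix (nat_lit 38289408) (nat_lit 24379392)) (I.mix (nat_lit 6897664) (nat_lit 4587520)))
  true (nat_lit 0)
def b2_40 : Bx := Bx.mk (St.mk (I.pos (nat_lit 491520) (nat_lit 16809984)) (I.neg (nat_lit 3850240) (nat_lit 19709952)) (I.neg (nat_lit 28360704) (nat_lit 31195136)) (I.pos (nat_lit 279805952) (nat_lit 283885568)) (I.mix (nat_lit 48791552) (nat_lit 28540928)) (I.mix (nat_lit 24379392) (nat_lit 38289408)) (I.mix (nat_lit 6897664) (nat_lit 4587520)))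
  false (nat_lit 0)
def b2_41 : Bx := Bx.mk (St.mk (I.mix (nat_lit 8847360) (nat_lit 3112960)) (I.mix (nat_lit 3620864) (nat_lit 11321344)) (I.neg (nat_lit 30425088) (nat_lit 31997952)) (I.pos (nat_lit 279232512) (nat_lit 282017792)) (I.mix (nat_lit 34127872) (nat_lit 26673152)) (I.mix (nat_lit 18595840) (nat_lit 29474816)) (I.neg (nat_lit 1458176) (nat_lit 4521984)))
  true (nat_lit 0)
def b2_42 : Bx := Bx.mk (St.mk (I.mix (nat_lit 17072128) (nat_lit 11141120)) (I.pos (nat_lit 4358144) (nat_lit 28360704)) (I.neg (nat_lit 28360704) (nat_lit 32768000)) (I.pos (nat_lit 279707648) (nat_lit 284295168)) (I.mix (nat_lit 33619968) (nat_lit 60489728)) (I.mix (nat_lit 34570240) (nat_lit 41025536)) (I.mix (nat_lit 9994240) (nat_lit 5455872)))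
  true (nat_lit 0)
def b2_43 : Bx := Bx.mk (St.mk (I.pos (nat_lit 62488576) (nat_lit 97320960)) (I.mix (nat_lit 44482560) (nat_lit 360448)) (I.mix (nat_lit 10665984) (nat_lit 26902528)) (I.pos (nat_lit 298860544) (nat_lit 328155136)) (I.mix (nat_lit 126353408) (nat_lit 66928640)) (I.mix (nat_lit 71057408) (nat_lit 88866816)) (I.mix (nat_lit 71614464) (nat_lit 71991296)))
  false (nat_lit 0)
def b2_44 : Bx := Bx.mk (St.mk (I.mix (nat_lit 8404992) (nat_lit 11878400)) (I.mix (nat_lit 4440064) (nat_lit 20234240)) (I.neg (nat_lit 30408704) (nat_lit 32636928)) (I.pos (nat_lit 279199744) (nat_lit 283049984)) (I.mix (nat_lit 33013760) (nat_lit 49594368)) (I.mix (nat_lit 31129600) (nat_lit 28934144)) (I.neg (nat_lit 770048) (nat_lit 6602752)))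
  true (nat_lit 0)
def t2 : BTr := (BTr.n (BTr.n (BTr.n (BTr.n (BTr.n (BTr.b b2_0) (BTr.b b2_1)) (BTr.n (BTr.b b2_2) (BTr.n (BTr.b b2_3) (BTr.b b2_4)))) (BTr.n (BTr.n (BTr.b b2_5) (BTr.n (BTr.b b2_6) (BTr.b b2_7))) (BTr.n (BTr.b b2_8) (BTr.n (BTr.b b2_9) (BTr.b b2_10))))) (BTr.n (BTr.n (BTr.n (BTr.b b2_11) (BTr.b b2_12)) (BTr.n (BTr.b b2_13) (BTr.n (BTr.b b2_14) (BTr.b b2_15)))) (BTr.n (BTr.n (BTr.b b2_16) (BTr.n (BTr.b b2_17) (BTr.b b2_18))) (BTr.n (BTr.b b2_19) (BTr.n (BTr.b b2_20) (BTr.b b2_21)))))) (BTr.n (BTr.n (BTr.n (BTr.n (BTr.b b2_22) (BTr.b b2_23)) (BTr.n (BTr.b b2_24) (BTr.n (BTr.b b2_25) (BTr.b b2_26)))) (BTr.n (BTr.n (BTr.b b2_27) (BTr.n (BTr.b b2_28) (BTr.b b2_29))) (BTr.n (BTr.b b2_30) (BTr.n (BTr.b b2_31) (BTr.b b2_32))))) (BTr.n (BTr.n (BTr.n (BTr.b b2_33) (BTr.n (BTr.b b2_34) (BTr.b b2_35))) (BTr.n (BTr.b b2_36) (BTr.n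 (BTr.b b2_37) (BTr.b b2_38)))) (BTr.n (BTr.n (BTr.b b2_39) (BTr.n (BTr.b b2_40) (BTr.b b2_41))) (BTr.n (BTr.b b2_42) (BTr.n (BTr.b b2_43) (BTr.b b2_44)))))))
namespace T2
def l0 : Tr := Tr.L (Pth.l (Pth.l (Pth.l (Pth.l (Pth.l Pth.z)))))
def l1 : Tr := Tr.L (Pth.l (Pth.l (Pth.l (Pth.l (Pth.r Pth.z)))))
def l2 : Tr := Tr.L (Pth.l (Pth.l (Pth.l (Pth.r (Pth.l Pth.z)))))
def l3 : Tr := Tr.L (Pth.l (Pth.l (Pth.l (Pth.r (Pth.r (Pth.l Pth.z))))))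
def l4 : Tr := Tr.L (Pth.l (Pth.l (Pth.l (Pth.r (Pth.r (Pth.r Pth.z))))))
def l5 : Tr := Tr.L (Pth.l (Pth.l (Pth.r (Pth.l (Pth.l Pth.z)))))
def l6 : Tr := Tr.L (Pth.l (Pth.l (Pth.r (Pth.l (Pth.r (Pth.l Pth.z))))))
def l7 : Tr := Tr.L (Pth.l (Pth.l (Pth.r (Pth.l (Pth.r (Pth.r Pth.z))))))
def l8 : Tr := Tr.L (Pth.l (Pth.l (Pth.r (Pth.r (Pth.l Pth.z)))))
def l9 : Tr := Tr.L (Pth.l (Pth.l (Pth.r (Pth.r (Pth.r (Pth.l Pth.z))))))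
def l10 : Tr := Tr.L (Pth.l (Pth.l (Pth.r (Pth.r (Pth.r (Pth.r Pth.z))))))
def l11 : Tr := Tr.L (Pth.l (Pth.r (Pth.l (Pth.l (Pth.l Pth.z)))))
def l12 : Tr := Tr.L (Pth.l (Pth.r (Pth.l (Pth.l (Pth.r Pth.z)))))
def l13 : Tr := Tr.L (Pth.l (Pth.r (Pth.l (Pth.r (Pth.l Pth.z)))))
def l14 : Tr := Tr.L (Pth.l (Pth.r (Pth.l (Pth.r (Pth.r (Pth.l Pth.z))))))
def l15 : Tr := Tr.L (Pth.l (Pth.r (Pth.l (Pth.r (Pth.r (Pth.r Pth.z))))))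
def l16 : Tr := Tr.L (Pth.l (Pth.r (Pth.r (Pth.l (Pth.l Pth.z)))))
def l17 : Tr := Tr.L (Pth.l (Pth.r (Pth.r (Pth.l (Pth.r (Pth.l Pth.z))))))
def l18 : Tr := Tr.L (Pth.l (Pth.r (Pth.r (Pth.l (Pth.r (Pth.r Pth.z))))))
def l19 : Tr := Tr.L (Pth.l (Pth.r (Pth.r (Pth.r (Pth.l Pth.z)))))
def l20 : Tr := Tr.L (Pth.l (Pth.r (Pth.r (Pth.r (Pth.r (Pth.l Pth.z))))))
def l21 : Tr := Tr.L (Pth.l (Pth.r (Pth.r (Pth.r (Pth.r (Pth.r Pth.z))))))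
def l22 : Tr := Tr.L (Pth.r (Pth.l (Pth.l (Pth.l (Pth.l Pth.z)))))
def l23 : Tr := Tr.L (Pth.r (Pth.l (Pth.l (Pth.l (Pth.r Pth.z)))))
def l24 : Tr := Tr.L (Pth.r (Pth.l (Pth.l (Pth.r (Pth.l Pth.z)))))
def l25 : Tr := Tr.L (Pth.r (Pth.l (Pth.l (Pth.r (Pth.r (Pth.l Pth.z))))))
def l26 : Tr := Tr.L (Pth.r (Pth.l (Pth.l (Pth.r (Pth.r (Pth.r Pth.z))))))
def l27 : Tr := Tr.L (Pth.r (Pth.l (Pth.r (Pth.l (Pth.l Pth.z)))))
def l28 : Tr := Tr.L (Pth.r (Pth.l (Pth.r (Pth.l (Pth.r (Pth.l Pth.z))))))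
def l29 : Tr := Tr.L (Pth.r (Pth.l (Pth.r (Pth.l (Pth.r (Pth.r Pth.z))))))
def l30 : Tr := Tr.L (Pth.r (Pth.l (Pth.r (Pth.r (Pth.l Pth.z)))))
def l31 : Tr := Tr.L (Pth.r (Pth.l (Pth.r (Pth.r (Pth.r (Pth.l Pth.z))))))
def l32 : Tr := Tr.L (Pth.r (Pth.l (Pth.r (Pth.r (Pth.r (Pth.r Pth.z))))))
def l33 : Tr := Tr.L (Pth.r (Pth.r (Pth.l (Pth.l (Pth.l Pth.z)))))
def l34 : Tr := Tr.L (Pth.r (Pth.r (Pth.l (Pth.l (Pth.r (Pth.l Pth.z))))))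
def l35 : Tr := Tr.L (Pth.r (Pth.r (Pth.l (Pth.l (Pth.r (Pth.r Pth.z))))))
def l36 : Tr := Tr.L (Pth.r (Pth.r (Pth.l (Pth.r (Pth.l Pth.z)))))
def l37 : Tr := Tr.L (Pth.r (Pth.r (Pth.l (Pth.r (Pth.r (Pth.l Pth.z))))))
def l38 : Tr := Tr.L (Pth.r (Pth.r (Pth.l (Pth.r (Pth.r (Pth.r Pth.z))))))
def l39 : Tr := Tr.L (Pth.r (Pth.r (Pth.r (Pth.l (Pth.l Pth.z)))))
def l40 : Tr := Tr.L (Pth.r (Pth.r (Pth.r (Pth.l (Pth.r (Pth.l Pth.z))))))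
def l41 : Tr := Tr.L (Pth.r (Pth.r (Pth.r (Pth.l (Pth.r (Pth.r Pth.z))))))
def l42 : Tr := Tr.L (Pth.r (Pth.r (Pth.r (Pth.r (Pth.l Pth.z)))))
def l43 : Tr := Tr.L (Pth.r (Pth.r (Pth.r (Pth.r (Pth.r (Pth.l Pth.z))))))
def l44 : Tr := Tr.L (Pth.r (Pth.r (Pth.r (Pth.r (Pth.r (Pth.r Pth.z))))))
end T2
def rc0_0_0_l : Tr := (xa (xb (xa (xb (xa (xb T0.l0 T0.l0) T0.l0) (xa (xb T0.l0 (xa T0.l0 T0.l0)) T0.l0)) (xb T0.l0 T0.l0)) (xa (xb (xa (xb (xa T0.l0 T0.l0) (xa T0.l0 T0.l0)) T0.l0) (xa (xb (xa T0.l0 T0.l0) (xa T0.l0 T0.l0)) T0.l0)) (xb T0.l0 (xa T0.l0 T0.l0)))) (xb (xa T0.l0 T0.l0) (xa (xb T0.l0 T0.l0) (xb T0.l0 T0.l0))))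
theorem qc0_0_0_l : chkTr (tg true true false RT.r2) b0_0 t0 rc0_0_0_l
  (upd lo Co.b (rc sI cl4 cl4 cl5 b0_0 (I.pos (nat_lit 0) (nat_lit 0)))) = true := by decide +kernel
def rc0_0_0_rl : Tr := (xb (xa (xb (xa (xb (xa T0.l0 T0.l0) (xa T0.l0 T0.l0)) (xb T0.l0 T0.l0)) (xa (xb (xa T0.l0 T0.l0) (xa (xc T0.l0 T0.l0) T0.l0)) (xb T0.l0 (xa T0.l0 T0.l0)))) (xb (xa T0.l0 T0.l0) (xa (xb T0.l0 T0.l0) (xb T0.l0 T0.l0)))) (xa (xb (xa (xb (xa (xc T0.l0 T0.l0) (xc T0.l0 T0.l0)) (xa (xs T0.l0 T0.l0) (xs T0.l0 T0.l0))) (xb (xa T0.l0 T0.l0) (xa (xs T0.l0 T0.l0) T0.l0))) (xa (xb (xa (xs T0.l0 (xc T0.l0 T0.l0)) (xs T0.l0 T0.l0)) (xa (xs T0.l0 (xc T0.l0 T0.l0)) (xs T0.l0 (xc T0.l0 T0.l0)))) (xb (xa (xs T0.l0 T0.l0) (xs T0.l0 T0.l0)) (xa (xs T0.l0 T0.l0) (xs T0.l0 T0.l0))))) (xb (xa (xb (xa T0.l0 T0.l0) (xa T0.l0 T0.l0)) (xb T0.l0 T0.l0)) (xa (xb (xa T0.l0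 T0.l0) (xa (xs T0.l0 T0.l0) (xs T0.l0 T0.l0))) (xb (xa T0.l0 T0.l0) (xa (xs T0.l0 T0.l0) (xs T0.l0 (xc T0.l0 T0.l0))))))))
theorem qc0_0_0_rl : chkTr (tg true true false RT.r2) b0_0 t0 rc0_0_0_rl
  (upd lo Co.a (upd hi Co.b (rc sI cl4 cl4 cl5 b0_0 (I.pos (nat_lit 0) (nat_lit 0))))) = true := by decide +kernel
def rc0_0_0_rr : Tr := (xb (xa (xb (xa T0.l0 T0.l0) (xa T0.l0 T0.l0)) (xb T0.l0 (xa T0.l0 T0.l0))) (xa (xb (xa (xb T0.l0 T0.l0) (xb T0.l0 T0.l0)) (xa (xb (xa T0.l0 T0.l0) (xa (xs T0.l0 (xc T0.l0 T0.l0)) (xs T0.l0 (xc T0.l0 T0.l0)))) (xb (xa T0.l0 T0.l0) (xa (xs T0.l0 (xc T0.l0 T0.l0)) (xs T0.l0 (xc T0.l0 T0.l0)))))) (xb (xa (xb T0.l0 T0.l0) (xb T0.l0 T0.l0)) (xa (xb (xa T0.l0 T0.l0) (xa (xs T0.l0 (xc T0.l0 T0.l0)) (xs T0.l0 (xc T0.l0 T0.l0)))) (xb (xa T0.l0 T0.l0) (xa (xs T0.l0 (xc T0.l0 T0.l0)) (xs T0.l0 (xc T0.l0 T0.l0))))))))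
theorem qc0_0_0_rr : chkTr (tg true true false RT.r2) b0_0 t0 rc0_0_0_rr
  (upd hi Co.a (upd hi Co.b (rc sI cl4 cl4 cl5 b0_0 (I.pos (nat_lit 0) (nat_lit 0))))) = true := by decide +kernel
theorem qc0_0_0_r : chkTr (tg true true false RT.r2) b0_0 t0 (Tr.N Co.a rc0_0_0_rl rc0_0_0_rr)
  (upd hi Co.b (rc sI cl4 cl4 cl5 b0_0 (I.pos (nat_lit 0) (nat_lit 0)))) = true := tr_split qc0_0_0_rl qc0_0_0_rr
theorem qc0_0_0_ : chkTr (tg true true false RT.r2) b0_0 t0 (Tr.N Co.b rc0_0_0_l (Tr.N Co.a rc0_0_0_rl rc0_0_0_rr))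
  (rc sI cl4 cl4 cl5 b0_0 (I.pos (nat_lit 0) (nat_lit 0))) = true := tr_split qc0_0_0_l qc0_0_0_r
theorem c0_0_0 : chkTag sI cl4 cl4 cl5 t0 b0_0 (tg true true false RT.r2) (I.pos (nat_lit 0) (nat_lit 0))
  (Tr.N Co.b rc0_0_0_l (Tr.N Co.a rc0_0_0_rl rc0_0_0_rr)) = true := tag_mk (by decide +kernel) qc0_0_0_
theorem c0_0_1 : chkTag sI cl4 cl4 cl5 t2 b0_0 (tg true false false RT.r3) (I.pos (nat_lit 0) (nat_lit 0))
  (xa (xb (xb (xa T2.l1 T2.l1) (xa T2.l1 T2.l1)) (xb (xa T2.l1 T2.l1) (xa T2.l1 T2.l1))) (xb (xa (xb T2.l1 T2.l1) (xb T2.l1 T2.l1)) (xa (xb T2.l1 (xb T2.l1 T2.l1)) (xb T2.l1 (xb T2.l1 T2.l1))))) = true := by decide +kernel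
theorem c0_0_2 : chkTag sI cl4 cl4 cl5 t0 b0_0 (tg true true true RT.r4) (I.pos (nat_lit 0) (nat_lit 0))
  (xa (xb (xc (xa T0.l1 T0.l1) (xa T0.l1 T0.l1)) (xb T0.l1 (xc (xa T0.l1 T0.l1) (xa T0.l1 T0.l1)))) (xb (xc (xa T0.l1 T0.l1) (xa T0.l1 (xb T0.l1 T0.l1))) (xc (xa T0.l1 (xb T0.l1 T0.l1)) (xa T0.l1 (xb T0.l1 T0.l1))))) = true := by decide +kernel
theorem c0_0_3 : chkTag sI cl4 cl4 cl5 t2 b0_0 (tg false false false RT.r3) (I.pos (nat_lit 0) (nat_lit 0))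
  (xb (xa (xb (xa (xb T2.l2 T2.l2) T2.l2) (xa T2.l2 T2.l2)) (xa (xb (xc (xb T2.l2 T2.l2) (xa T2.l2 T2.l2)) (xb T2.l2 T2.l2)) (xb (xc (xa T2.l2 (xb T2.l2 T2.l2)) (xa T2.l2 (xb T2.l2 T2.l2))) (xa (xb T2.l2 T2.l2) (xb T2.l2 (xc T2.l2 T2.l2)))))) (xa (xb (xa T2.l2 T2.l2) (xa (xb T2.l2 (xc T2.l2 T2.l2)) T2.l2)) (xb (xa (xb T2.l2 T2.l2) (xb (xa T2.l2 (xc T2.l2 T2.l2)) (xa T2.l2 (xc T2.l2 T2.l2)))) (xa (xb T2.l2 (xc T2.l2 T2.l2)) (xb (xa T2.l2 (xc T2.l2 T2.l2)) (xa (xc T2.l2 T2.l2) (xc T2.l2 T2.l2))))))) = true := by decide +kernel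
theorem c0_0_4 : chkTag sI cl4 cl4 cl5 t0 b0_0 (tg false true false RT.r4) (I.pos (nat_lit 0) (nat_lit 0))
  (xa (xb (xc (xa T0.l2 T0.l2) (xa T0.l2 T0.l2)) (xb T0.l2 (xc (xa T0.l2 T0.l2) (xa T0.l2 T0.l2)))) (xb (xc (xa T0.l2 T0.l2) (xa T0.l2 (xb T0.l2 T0.l2))) (xc (xa T0.l2 (xb T0.l2 T0.l2)) (xa T0.l2 (xb T0.l2 T0.l2))))) = true := by decide +kernel
theorem c0_0_5 : chkTag sI cl4 cl4 cl5 t2 b0_0 (tg false false true RT.r5) (I.pos (nat_lit 0) (nat_lit 0))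
  (xa (xb (xb (xa T2.l3 T2.l3) (xa T2.l3 T2.l3)) (xb (xa T2.l3 T2.l3) (xa T2.l3 T2.l3))) (xb (xa (xb T2.l3 T2.l3) (xb T2.l3 T2.l3)) (xa (xb T2.l3 (xb T2.l3 T2.l3)) (xb T2.l3 (xb T2.l3 T2.l3))))) = true := by decide +kernel
theorem bx0_0 : BoxOK sI cl4 cl4 cl5 t0 t2 b0_0 :=
  box_mk' [(tg true true false RT.r2), (tg true false false RT.r3), (tg true true true RT.r4), (tg false false false RT.r3), (tg false true false RT.r4), (tg false false true RT.r5)] rfl (allL_c (ex_mk c0_0_0) (allL_c (ex_mk c0_0_1) (allL_c (ex_mk c0_0_2) (allL_c (ex_mk c0_0_3) (allL_c (ex_mk c0_0_4) (allL_c (ex_mk c0_0_5) allL_n))))))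
theorem bx0_1 : BoxOK sI cl4 cl4 cl5 t0 t2 b0_1 :=
  box_mk (TrL.c (I.pos (nat_lit 0) (nat_lit 0)) (xb T2.l4 T2.l4)
  (TrL.c (I.pos (nat_lit 0) (nat_lit 0)) (xb T0.l3 T0.l3)
  TrL.n)) (by decide +kernel)
theorem bx0_2 : BoxOK sI cl4 cl4 cl5 t0 t2 b0_2 :=
  box_mk (TrL.c (I.pos (nat_lit 0) (nat_lit 0)) (xb (xa (xb (xa (xb (xa T0.l4 T0.l4) (xa T0.l4 T0.l4)) (xb T0.l4 T0.l4)) (xa (xb T0.l4 T0.l4) (xb T0.l4 T0.l4))) (xb (xa T0.l4 (xb T0.l4 T0.l4)) (xa T0.l4 T0.l4))) (xa (xb (xa (xb T0.l4 T0.l4) T0.l4) (xa (xb T0.l4 T0.l4) (xb T0.l4 T0.l4))) (xb (xa T0.l4 T0.l4) (xa T0.l4 T0.l4))))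
  (TrL.c (I.pos (nat_lit 0) (nat_lit 0)) (xb T2.l4 T2.l4)
  (TrL.c (I.pos (nat_lit 0) (nat_lit 0)) (xb T0.l3 T0.l3)
  (TrL.c (I.pos (nat_lit 0) (nat_lit 0)) (xb (xa T2.l5 T2.l5) T2.l5)
  (TrL.c (I.pos (nat_lit 0) (nat_lit 0)) (xb T0.l5 T0.l5)
  (TrL.c (I.pos (nat_lit 0) (nat_lit 0)) (xb T2.l6 T2.l6)
  TrL.n)))))) (by decide +kernel)
theorem bx0_3 : BoxOK sI cl4 cl4 cl5 t0 t2 b0_3 :=
  box_mk (TrL.c (I.pos (nat_lit 0) (nat_lit 0)) T2.l10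
  (TrL.c (I.pos (nat_lit 0) (nat_lit 0)) T0.l10
  TrL.n)) (by decide +kernel)
theorem bx0_4 : BoxOK sI cl4 cl4 cl5 t0 t2 b0_4 :=
  box_mk (TrL.c (I.pos (nat_lit 0) (nat_lit 0)) (xa (xb T0.l0 T0.l0) (xb T0.l8 (xa T0.l0 T0.l8)))
  (TrL.c (I.pos (nat_lit 0) (nat_lit 0)) (xa (xb T2.l1 T2.l1) (xb T2.l1 T2.l1))
  (TrL.c (I.pos (nat_lit 0) (nat_lit 0)) (xa (xb T0.l1 T0.l1) T0.l9)
  (TrL.c (I.pos (nat_lit 0) (nat_lit 0)) (xa (xb (xa (xb T2.l2 T2.l2) (xb T2.l2 T2.l2)) T2.l2) (xb (xa (xb (xc T2.l2 T2.l2) T2.l2) (xb (xc T2.l2 T2.l2) T2.l2)) (xa T2.l2 (xb T2.l2 (xc T2.l2 T2.l2)))))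
  (TrL.c (I.pos (nat_lit 0) (nat_lit 0)) (xa (xb T0.l2 T0.l2) T0.l7)
  (TrL.c (I.pos (nat_lit 0) (nat_lit 0)) (xa (xb T2.l3 T2.l3) (xb T2.l3 T2.l3))
  TrL.n)))))) (by decide +kernel)
theorem bx0_5 : BoxOK sI cl4 cl4 cl5 t0 t2 b0_5 :=
  box_mk (TrL.c (I.pos (nat_lit 0) (nat_lit 0)) (xb T0.l4 (xa (xa (xb T0.l4 T0.l4) T0.l4) (xb T0.l4 T0.l4)))
  (TrL.c (I.pos (nat_lit 0) (nat_lit 0)) T2.l10
  (TrL.c (I.pos (nat_lit 0) (nat_lit 0)) T0.l10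
  (TrL.c (I.pos (nat_lit 0) (nat_lit 0)) T2.l5
  (TrL.c (I.pos (nat_lit 0) (nat_lit 0)) T0.l5
  (TrL.c (I.pos (nat_lit 0) (nat_lit 0)) T2.l6
  TrL.n)))))) (by decide +kernel)
theorem bx0_6 : BoxOK sI cl4 cl4 cl5 t0 t2 b0_6 :=
  box_mk (TrL.c (I.pos (nat_lit 0) (nat_lit 0)) T2.l7
  (TrL.c (I.pos (nat_lit 0) (nat_lit 0)) T0.l6
  TrL.n)) (by decide +kernel)
theorem bx0_7 : BoxOK sI cl4 cl4 cl5 t0 t2 b0_7 :=
  box_mk (TrL.c (I.pos (nat_lit 0) (nat_lit 0)) (xa (xb (xa (xb (xb T0.l11 T0.l11) (xa T0.l11 T0.l11)) (xb (xa T0.l11 T0.l11) T0.l11)) (xa (xb (xa T0.l11 T0.l11) (xa T0.l11 T0.l11)) (xb T0.l11 (xa T0.l11 T0.l11)))) (xb (xa (xb T0.l11 T0.l11) (xb T0.l11 T0.l11)) (xa (xb T0.l11 T0.l4) (xb T0.l11 T0.l11))))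
  (TrL.c (I.pos (nat_lit 0) (nat_lit 0)) (xb T2.l43 T2.l43)
  (TrL.c (I.pos (nat_lit 0) (nat_lit 0)) (xb (xa T0.l43 T0.l43) T0.l43)
  (TrL.c (I.pos (nat_lit 0) (nat_lit 0)) (xb (xa T2.l12 T2.l12) (xa T2.l12 T2.l12))
  (TrL.c (I.pos (nat_lit 0) (nat_lit 0)) (xb (xa T0.l13 T0.l13) T0.l13)
  (TrL.c (I.pos (nat_lit 0) (nat_lit 0)) (xb T2.l13 T2.l13)
  TrL.n)))))) (by decide +kernel)
theorem bx0_8 : BoxOK sI cl4 cl4 cl5 t0 t2 b0_8 :=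
  box_mk (TrL.c (I.pos (nat_lit 0) (nat_lit 0)) (xa (xb (xa (xb (xa T0.l14 T0.l14) (xa (xb T0.l14 T0.l14) T0.l14)) (xb (xa T0.l14 T0.l0) (xa T0.l14 T0.l0))) (xa (xb (xa (xb T0.l14 T0.l14) (xb T0.l14 T0.l14)) (xa (xb T0.l14 (xb T0.l14 T0.l14)) (xb T0.l14 (xa T0.l14 T0.l14)))) (xb (xa (xb T0.l14 T0.l14) T0.l0) (xa (xb T0.l14 T0.l14) (xb T0.l14 (xs T0.l14 T0.l14)))))) (xb (xa (xb T0.l0 T0.l0) (xb T0.l0 T0.l0)) (xa (xb (xa T0.l0 T0.l0) (xa T0.l0 T0.l0)) (xb T0.l0 T0.l0))))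
  (TrL.c (I.pos (nat_lit 0) (nat_lit 0)) (xa (xb T2.l29 (xa T2.l29 T2.l1)) (xb T2.l1 (xa T2.l1 T2.l1)))
  (TrL.c (I.pos (nat_lit 0) (nat_lit 0)) (xa (xb T0.l33 T0.l33) T0.l1)
  (TrL.c (I.pos (nat_lit 0) (nat_lit 0)) (xa (xb (xa T2.l30 T2.l2) T2.l2) (xb T2.l2 T2.l2))
  (TrL.c (I.pos (nat_lit 0) (nat_lit 0)) (xa (xb T0.l34 T0.l34) T0.l2)
  (TrL.c (I.pos (nat_lit 0) (nat_lit 0)) (xa (xb T2.l31 (xa T2.l31 T2.l3)) (xb T2.l3 (xa T2.l3 T2.l3)))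
  TrL.n)))))) (by decide +kernel)
theorem bx0_9 : BoxOK sI cl4 cl4 cl5 t0 t2 b0_9 :=
  box_mk (TrL.c (I.pos (nat_lit 0) (nat_lit 0)) (xb T2.l43 T2.l43)
  (TrL.c (I.pos (nat_lit 0) (nat_lit 0)) (xb T0.l43 (xa T0.l43 T0.l43))
  TrL.n)) (by decide +kernel)
theorem bx0_10 : BoxOK sI cl4 cl4 cl5 t0 t2 b0_10 :=
  box_mk (TrL.c (I.pos (nat_lit 0) (nat_lit 0)) T2.l5
  (TrL.c (I.pos (nat_lit 0) (nat_lit 0)) T0.l3
  TrL.n)) (by decide +kernel)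
theorem bx0_11 : BoxOK sI cl4 cl4 cl5 t0 t2 b0_11 :=
  box_mk (TrL.c (I.pos (nat_lit 0) (nat_lit 0)) (xb (xa T0.l0 T0.l0) (xa T0.l0 T0.l0))
  (TrL.c (I.pos (nat_lit 0) (nat_lit 0)) (xb (xa T2.l1 T2.l1) T2.l1)
  (TrL.c (I.pos (nat_lit 0) (nat_lit 0)) T0.l1
  (TrL.c (I.pos (nat_lit 0) (nat_lit 0)) (xb (xa (xb T2.l2 T2.l2) T2.l2) T2.l2)
  (TrL.c (I.pos (nat_lit 0) (nat_lit 0)) T0.l2
  (TrL.c (I.pos (nat_lit 0) (nat_lit 0)) (xb (xa T2.l3 T2.l3) T2.l3)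
  TrL.n)))))) (by decide +kernel)
theorem bx0_12 : BoxOK sI cl4 cl4 cl5 t0 t2 b0_12 :=
  box_mk (TrL.c (I.pos (nat_lit 0) (nat_lit 0)) T2.l4
  (TrL.c (I.pos (nat_lit 0) (nat_lit 0)) T0.l3
  TrL.n)) (by decide +kernel)
theorem bx0_13 : BoxOK sI cl4 cl4 cl5 t0 t2 b0_13 :=
  box_mk (TrL.c (I.pos (nat_lit 0) (nat_lit 0)) (xb T0.l4 (xa T0.l4 (xb T0.l4 T0.l4)))
  (TrL.c (I.pos (nat_lit 0) (nat_lit 0)) T2.l4
  (TrL.c (I.pos (nat_lit 0) (nat_lit 0)) T0.l6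
  (TrL.c (I.pos (nat_lit 0) (nat_lit 0)) T2.l5
  (TrL.c (I.pos (nat_lit 0) (nat_lit 0)) T0.l5
  (TrL.c (I.pos (nat_lit 0) (nat_lit 0)) T2.l6
  TrL.n)))))) (by decide +kernel)
theorem bx0_14 : BoxOK sI cl4 cl4 cl5 t0 t2 b0_14 :=
  box_mk (TrL.c (I.pos (nat_lit 0) (nat_lit 0)) (xb (xa (xb T0.l0 T0.l0) (xb T0.l0 T0.l0)) (xa (xb (xa T0.l0 T0.l0) (xa T0.l0 T0.l0)) (xb T0.l0 (xa T0.l0 T0.l0))))
  (TrL.c (I.pos (nat_lit 0) (nat_lit 0)) (xb T2.l1 (xa T2.l1 T2.l1))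
  (TrL.c (I.pos (nat_lit 0) (nat_lit 0)) (xb T0.l1 (xa T0.l1 T0.l1))
  (TrL.c (I.pos (nat_lit 0) (nat_lit 0)) (xb (xa T2.l2 T2.l2) (xa T2.l2 T2.l2))
  (TrL.c (I.pos (nat_lit 0) (nat_lit 0)) (xb T0.l2 (xa T0.l2 T0.l2))
  (TrL.c (I.pos (nat_lit 0) (nat_lit 0)) (xb T2.l3 (xa T2.l3 T2.l3))
  TrL.n)))))) (by decide +kernel)
theorem bx0_15 : BoxOK sI cl4 cl4 cl5 t0 t2 b0_15 :=
  box_mk (TrL.c (I.pos (nat_lit 0) (nat_lit 0)) (xb T0.l11 (xa T0.l11 T0.l11))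
  (TrL.c (I.pos (nat_lit 0) (nat_lit 0)) T2.l11
  (TrL.c (I.pos (nat_lit 0) (nat_lit 0)) T0.l12
  (TrL.c (I.pos (nat_lit 0) (nat_lit 0)) T2.l12
  (TrL.c (I.pos (nat_lit 0) (nat_lit 0)) T0.l13
  (TrL.c (I.pos (nat_lit 0) (nat_lit 0)) T2.l13
  TrL.n)))))) (by decide +kernel)
theorem bx0_16 : BoxOK sI cl4 cl4 cl5 t0 t2 b0_16 :=
  box_mk (TrL.c (I.pos (nat_lit 0) (nat_lit 0)) (xb (xa T0.l14 T0.l14) T0.l14)
  (TrL.c (I.pos (nat_lit 0) (nat_lit 0)) (xb T2.l29 T2.l29)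
  (TrL.c (I.pos (nat_lit 0) (nat_lit 0)) T0.l33
  (TrL.c (I.pos (nat_lit 0) (nat_lit 0)) (xb (xa T2.l30 T2.l30) T2.l30)
  (TrL.c (I.pos (nat_lit 0) (nat_lit 0)) T0.l34
  (TrL.c (I.pos (nat_lit 0) (nat_lit 0)) (xb T2.l31 T2.l31)
  TrL.n)))))) (by decide +kernel)
theorem bx0_17 : BoxOK sI cl4 cl4 cl5 t0 t2 b0_17 :=
  box_mk (TrL.c (I.pos (nat_lit 0) (nat_lit 0)) T2.l43
  (TrL.c (I.pos (nat_lit 0) (nat_lit 0)) T0.l43
  TrL.n)) (by decide +kernel)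
theorem bx0_18 : BoxOK sI cl4 cl4 cl5 t0 t2 b0_18 :=
  box_mk (TrL.c (I.pos (nat_lit 0) (nat_lit 0)) (xb T0.l11 T0.l11)
  (TrL.c (I.pos (nat_lit 0) (nat_lit 0)) T2.l11
  (TrL.c (I.pos (nat_lit 0) (nat_lit 0)) T0.l43
  (TrL.c (I.pos (nat_lit 0) (nat_lit 0)) T2.l12
  (TrL.c (I.pos (nat_lit 0) (nat_lit 0)) T0.l13
  (TrL.c (I.pos (nat_lit 0) (nat_lit 0)) T2.l13
  TrL.n)))))) (by decide +kernel)
theorem bx0_19 : BoxOK sI cl4 cl4 cl5 t0 t2 b0_19 :=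
  box_mk (TrL.c (I.pos (nat_lit 0) (nat_lit 0)) (xa (xb T0.l14 T0.l14) T0.l14)
  (TrL.c (I.pos (nat_lit 0) (nat_lit 0)) T2.l29
  (TrL.c (I.pos (nat_lit 0) (nat_lit 0)) T0.l33
  (TrL.c (I.pos (nat_lit 0) (nat_lit 0)) T2.l30
  (TrL.c (I.pos (nat_lit 0) (nat_lit 0)) T0.l34
  (TrL.c (I.pos (nat_lit 0) (nat_lit 0)) T2.l31
  TrL.n)))))) (by decide +kernel)
theorem bx0_20 : BoxOK sI cl4 cl4 cl5 t0 t2 b0_20 :=
  box_mk (TrL.c (I.pos (nat_lit 0) (nat_lit 0)) T2.l11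
  (TrL.c (I.pos (nat_lit 0) (nat_lit 0)) T0.l43
  TrL.n)) (by decide +kernel)
theorem bx0_21 : BoxOK sI cl4 cl4 cl5 t0 t2 b0_21 :=
  box_mk (TrL.c (I.pos (nat_lit 0) (nat_lit 0)) (xb T0.l11 T0.l35)
  (TrL.c (I.pos (nat_lit 0) (nat_lit 0)) T2.l32
  (TrL.c (I.pos (nat_lit 0) (nat_lit 0)) T0.l43
  (TrL.c (I.pos (nat_lit 0) (nat_lit 0)) T2.l33
  (TrL.c (I.pos (nat_lit 0) (nat_lit 0)) T0.l37
  (TrL.c (I.pos (nat_lit 0) (nat_lit 0)) T2.l34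
  TrL.n)))))) (by decide +kernel)
theorem bx0_22 : BoxOK sI cl4 cl4 cl5 t0 t2 b0_22 :=
  box_mk (TrL.c (I.pos (nat_lit 0) (nat_lit 0)) (xb (xa (xb T0.l11 T0.l11) T0.l11) (xa (xb T0.l11 T0.l11) (xb T0.l11 T0.l11)))
  (TrL.c (I.pos (nat_lit 0) (nat_lit 0)) T2.l11
  (TrL.c (I.pos (nat_lit 0) (nat_lit 0)) T0.l43
  (TrL.c (I.pos (nat_lit 0) (nat_lit 0)) (xb T2.l12 T2.l12)
  (TrL.c (I.pos (nat_lit 0) (nat_lit 0)) (xb T0.l13 T0.l13)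
  (TrL.c (I.pos (nat_lit 0) (nat_lit 0)) T2.l13
  TrL.n)))))) (by decide +kernel)
theorem bx0_23 : BoxOK sI cl4 cl4 cl5 t0 t2 b0_23 :=
  box_mk (TrL.c (I.pos (nat_lit 0) (nat_lit 0)) (xa (xb (xa (xb T0.l14 T0.l14) (xb T0.l14 T0.l14)) T0.l0) T0.l0)
  (TrL.c (I.pos (nat_lit 0) (nat_lit 0)) (xa T2.l1 T2.l1)
  (TrL.c (I.pos (nat_lit 0) (nat_lit 0)) (xa T0.l33 T0.l1)
  (TrL.c (I.pos (nat_lit 0) (nat_lit 0)) (xa (xb T2.l30 T2.l30) T2.l2)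
  (TrL.c (I.pos (nat_lit 0) (nat_lit 0)) (xa T0.l34 T0.l2)
  (TrL.c (I.pos (nat_lit 0) (nat_lit 0)) (xa T2.l3 T2.l3)
  TrL.n)))))) (by decide +kernel)
theorem bx0_24 : BoxOK sI cl4 cl4 cl5 t0 t2 b0_24 :=
  box_mk (TrL.c (I.pos (nat_lit 0) (nat_lit 0)) T2.l43
  (TrL.c (I.pos (nat_lit 0) (nat_lit 0)) T0.l43
  TrL.n)) (by decide +kernel)
theorem bx0_25 : BoxOK sI cl4 cl4 cl5 t0 t2 b0_25 :=
  box_mk (TrL.c (I.pos (nat_lit 0) (nat_lit 0)) (xb T0.l11 T0.l11)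
  (TrL.c (I.pos (nat_lit 0) (nat_lit 0)) T2.l11
  (TrL.c (I.pos (nat_lit 0) (nat_lit 0)) T0.l12
  (TrL.c (I.pos (nat_lit 0) (nat_lit 0)) T2.l12
  (TrL.c (I.pos (nat_lit 0) (nat_lit 0)) T0.l13
  (TrL.c (I.pos (nat_lit 0) (nat_lit 0)) T2.l13
  TrL.n)))))) (by decide +kernel)
theorem bx0_26 : BoxOK sI cl4 cl4 cl5 t0 t2 b0_26 :=
  box_mk (TrL.c (I.pos (nat_lit 0) (nat_lit 0)) (xb T0.l14 T0.l14)
  (TrL.c (I.pos (nat_lit 0) (nat_lit 0)) T2.l29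
  (TrL.c (I.pos (nat_lit 0) (nat_lit 0)) T0.l33
  (TrL.c (I.pos (nat_lit 0) (nat_lit 0)) T2.l30
  (TrL.c (I.pos (nat_lit 0) (nat_lit 0)) T0.l34
  (TrL.c (I.pos (nat_lit 0) (nat_lit 0)) T2.l31
  TrL.n)))))) (by decide +kernel)
theorem bx0_27 : BoxOK sI cl4 cl4 cl5 t0 t2 b0_27 :=
  box_mk (TrL.c (I.pos (nat_lit 0) (nat_lit 0)) T2.l43
  (TrL.c (I.pos (nat_lit 0) (nat_lit 0)) T0.l43
  TrL.n)) (by decide +kernel)
theorem bx0_28 : BoxOK sI cl4 cl4 cl5 t0 t2 b0_28 :=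
  box_mk (TrL.c (I.pos (nat_lit 0) (nat_lit 0)) (xb T0.l14 T0.l14)
  (TrL.c (I.pos (nat_lit 0) (nat_lit 0)) T2.l29
  (TrL.c (I.pos (nat_lit 0) (nat_lit 0)) T0.l33
  (TrL.c (I.pos (nat_lit 0) (nat_lit 0)) T2.l30
  (TrL.c (I.pos (nat_lit 0) (nat_lit 0)) T0.l34
  (TrL.c (I.pos (nat_lit 0) (nat_lit 0)) T2.l31
  TrL.n)))))) (by decide +kernel)
theorem bx0_29 : BoxOK sI cl4 cl4 cl5 t0 t2 b0_29 :=
  box_mk (TrL.c (I.pos (nat_lit 0) (nat_lit 0)) T2.l43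
  (TrL.c (I.pos (nat_lit 0) (nat_lit 0)) T0.l43
  TrL.n)) (by decide +kernel)
theorem bx0_30 : BoxOK sI cl4 cl4 cl5 t0 t2 b0_30 :=
  box_mk (TrL.c (I.pos (nat_lit 0) (nat_lit 0)) T0.l11
  (TrL.c (I.pos (nat_lit 0) (nat_lit 0)) T2.l11
  (TrL.c (I.pos (nat_lit 0) (nat_lit 0)) T0.l12
  (TrL.c (I.pos (nat_lit 0) (nat_lit 0)) T2.l12
  (TrL.c (I.pos (nat_lit 0) (nat_lit 0)) T0.l13
  (TrL.c (I.pos (nat_lit 0) (nat_lit 0)) T2.l13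
  TrL.n)))))) (by decide +kernel)
theorem bx0_31 : BoxOK sI cl4 cl4 cl5 t0 t2 b0_31 :=
  box_mk (TrL.c (I.pos (nat_lit 0) (nat_lit 0)) T0.l14
  (TrL.c (I.pos (nat_lit 0) (nat_lit 0)) T2.l29
  (TrL.c (I.pos (nat_lit 0) (nat_lit 0)) T0.l33
  (TrL.c (I.pos (nat_lit 0) (nat_lit 0)) T2.l30
  (TrL.c (I.pos (nat_lit 0) (nat_lit 0)) T0.l34
  (TrL.c (I.pos (nat_lit 0) (nat_lit 0)) T2.l31
  TrL.n)))))) (by decide +kernel)
theorem bx0_32 : BoxOK sI cl4 cl4 cl5 t0 t2 b0_32 :=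
  box_mk (TrL.c (I.pos (nat_lit 0) (nat_lit 0)) T2.l43
  (TrL.c (I.pos (nat_lit 0) (nat_lit 0)) T0.l43
  TrL.n)) (by decide +kernel)
theorem bx0_33 : BoxOK sI cl4 cl4 cl5 t0 t2 b0_33 :=
  box_mk (TrL.c (I.pos (nat_lit 0) (nat_lit 0)) T2.l4
  (TrL.c (I.pos (nat_lit 0) (nat_lit 0)) T0.l3
  TrL.n)) (by decide +kernel)
theorem bx0_34 : BoxOK sI cl4 cl4 cl5 t0 t2 b0_34 :=
  box_mk (TrL.c (I.pos (nat_lit 0) (nat_lit 0)) (xb (xa (xb T0.l4 T0.l4) T0.l4) (xa T0.l4 T0.l4))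
  (TrL.c (I.pos (nat_lit 0) (nat_lit 0)) T2.l4
  (TrL.c (I.pos (nat_lit 0) (nat_lit 0)) T0.l3
  (TrL.c (I.pos (nat_lit 0) (nat_lit 0)) T2.l5
  (TrL.c (I.pos (nat_lit 0) (nat_lit 0)) T0.l5
  (TrL.c (I.pos (nat_lit 0) (nat_lit 0)) T2.l6
  TrL.n)))))) (by decide +kernel)
theorem bx0_35 : BoxOK sI cl4 cl4 cl5 t0 t2 b0_35 :=
  box_mk (TrL.c (I.pos (nat_lit 0) (nat_lit 0)) T0.l0
  (TrL.c (I.pos (nat_lit 0) (nat_lit 0)) T2.l1
  (TrL.c (I.pos (nat_lit 0) (nat_lit 0)) T0.l1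
  (TrL.c (I.pos (nat_lit 0) (nat_lit 0)) T2.l2
  (TrL.c (I.pos (nat_lit 0) (nat_lit 0)) T0.l2
  (TrL.c (I.pos (nat_lit 0) (nat_lit 0)) T2.l3
  TrL.n)))))) (by decide +kernel)
theorem bx0_36 : BoxOK sI cl4 cl4 cl5 t0 t2 b0_36 :=
  box_mk (TrL.c (I.pos (nat_lit 0) (nat_lit 0)) T2.l4
  (TrL.c (I.pos (nat_lit 0) (nat_lit 0)) T0.l3
  TrL.n)) (by decide +kernel)
theorem bx0_37 : BoxOK sI cl4 cl4 cl5 t0 t2 b0_37 :=
  box_mk (TrL.c (I.pos (nat_lit 0) (nat_lit 0)) T0.l4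
  (TrL.c (I.pos (nat_lit 0) (nat_lit 0)) T2.l4
  (TrL.c (I.pos (nat_lit 0) (nat_lit 0)) T0.l3
  (TrL.c (I.pos (nat_lit 0) (nat_lit 0)) T2.l5
  (TrL.c (I.pos (nat_lit 0) (nat_lit 0)) T0.l5
  (TrL.c (I.pos (nat_lit 0) (nat_lit 0)) T2.l6
  TrL.n)))))) (by decide +kernel)
theorem bx0_38 : BoxOK sI cl4 cl4 cl5 t0 t2 b0_38 :=
  box_mk (TrL.c (I.pos (nat_lit 0) (nat_lit 0)) T0.l11
  (TrL.c (I.pos (nat_lit 0) (nat_lit 0)) T2.l11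
  (TrL.c (I.pos (nat_lit 0) (nat_lit 0)) T0.l12
  (TrL.c (I.pos (nat_lit 0) (nat_lit 0)) T2.l12
  (TrL.c (I.pos (nat_lit 0) (nat_lit 0)) T0.l13
  (TrL.c (I.pos (nat_lit 0) (nat_lit 0)) T2.l13
  TrL.n)))))) (by decide +kernel)
theorem bx0_39 : BoxOK sI cl4 cl4 cl5 t0 t2 b0_39 :=
  box_mk (TrL.c (I.pos (nat_lit 0) (nat_lit 0)) T0.l14
  (TrL.c (I.pos (nat_lit 0) (nat_lit 0)) T2.l29
  (TrL.c (I.pos (nat_lit 0) (nat_lit 0)) T0.l33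
  (TrL.c (I.pos (nat_lit 0) (nat_lit 0)) T2.l30
  (TrL.c (I.pos (nat_lit 0) (nat_lit 0)) T0.l34
  (TrL.c (I.pos (nat_lit 0) (nat_lit 0)) T2.l31
  TrL.n)))))) (by decide +kernel)
theorem bx0_40 : BoxOK sI cl4 cl4 cl5 t0 t2 b0_40 :=
  box_mk (TrL.c (I.pos (nat_lit 0) (nat_lit 0)) T2.l43
  (TrL.c (I.pos (nat_lit 0) (nat_lit 0)) T0.l43
  TrL.n)) (by decide +kernel)
theorem bx0_41 : BoxOK sI cl4 cl4 cl5 t0 t2 b0_41 :=
  box_mk (TrL.c (I.pos (nat_lit 0) (nat_lit 0)) T0.l11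
  (TrL.c (I.pos (nat_lit 0) (nat_lit 0)) T2.l32
  (TrL.c (I.pos (nat_lit 0) (nat_lit 0)) T0.l12
  (TrL.c (I.pos (nat_lit 0) (nat_lit 0)) T2.l33
  (TrL.c (I.pos (nat_lit 0) (nat_lit 0)) T0.l13
  (TrL.c (I.pos (nat_lit 0) (nat_lit 0)) T2.l34
  TrL.n)))))) (by decide +kernel)
theorem bx0_42 : BoxOK sI cl4 cl4 cl5 t0 t2 b0_42 :=
  box_mk (TrL.c (I.pos (nat_lit 0) (nat_lit 0)) (xb T0.l11 T0.l11)
  (TrL.c (I.pos (nat_lit 0) (nat_lit 0)) T2.l11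
  (TrL.c (I.pos (nat_lit 0) (nat_lit 0)) T0.l43
  (TrL.c (I.pos (nat_lit 0) (nat_lit 0)) T2.l12
  (TrL.c (I.pos (nat_lit 0) (nat_lit 0)) T0.l13
  (TrL.c (I.pos (nat_lit 0) (nat_lit 0)) T2.l13
  TrL.n)))))) (by decide +kernel)
theorem bx0_43 : BoxOK sI cl4 cl4 cl5 t0 t2 b0_43 :=
  box_mk (TrL.c (I.pos (nat_lit 0) (nat_lit 0)) T2.l7
  (TrL.c (I.pos (nat_lit 0) (nat_lit 0)) T0.l6
  TrL.n)) (by decide +kernel)
theorem bx0_44 : BoxOK sI cl4 cl4 cl5 t0 t2 b0_44 :=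
  box_mk (TrL.c (I.pos (nat_lit 0) (nat_lit 0)) (xb (xa T0.l11 T0.l11) T0.l11)
  (TrL.c (I.pos (nat_lit 0) (nat_lit 0)) T2.l32
  (TrL.c (I.pos (nat_lit 0) (nat_lit 0)) T0.l43
  (TrL.c (I.pos (nat_lit 0) (nat_lit 0)) T2.l33
  (TrL.c (I.pos (nat_lit 0) (nat_lit 0)) T0.l13
  (TrL.c (I.pos (nat_lit 0) (nat_lit 0)) T2.l34
  TrL.n)))))) (by decide +kernel)
theorem sv0 : StarV sI cl4 cl4 cl5 t0 t2 t0 :=
  (bt_n (bt_n (bt_n (bt_n (bt_n (bt_b bx0_0) (bt_b bx0_1)) (bt_n (bt_b bx0_2) (bt_n (bt_b bx0_3) (bt_b bx0_4)))) (bt_n (bt_n (bt_b bx0_5) (bt_n (bt_b bx0_6) (bt_b bx0_7))) (bt_n (bt_b bx0_8) (bt_n (bt_b bx0_9) (bt_b bx0_10))))) (bt_n (bt_n (bt_n (bt_b bx0_11) (bt_b bx0_12)) (bt_n (bt_b bx0_13) (bt_n (bt_b bx0_14) (bt_b bx0_15)))) (bt_n (bt_n (bt_b bx0_16) (bt_n (bt_b bx0_17) (bt_b bx0_18))) (bt_n (bt_b bx0_19) (bt_n (bt_b bx0_20) (bt_b bx0_21))))))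 (bt_n (bt_n (bt_n (bt_n (bt_b bx0_22) (bt_b bx0_23)) (bt_n (bt_b bx0_24) (bt_n (bt_b bx0_25) (bt_b bx0_26)))) (bt_n (bt_n (bt_b bx0_27) (bt_n (bt_b bx0_28) (bt_b bx0_29))) (bt_n (bt_b bx0_30) (bt_n (bt_b bx0_31) (bt_b bx0_32))))) (bt_n (bt_n (bt_n (bt_b bx0_33) (bt_n (bt_b bx0_34) (bt_b bx0_35))) (bt_n (bt_b bx0_36) (bt_n (bt_b bx0_37) (bt_b bx0_38)))) (bt_n (bt_n (bt_b bx0_39) (bt_n (bt_b bx0_40) (bt_b bx0_41))) (bt_n (bt_b bx0_42) (bt_n (bt_b bx0_43) (bt_b bx0_44)))))))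
def S0 : StarD := StarD.mk cl4 cl4 cl5 0 2 t0
def rc1_0_0_l : Tr := (xb (xa (xb (xa (xb T2.l0 T2.l0) T2.l0) (xa (xb (xa T2.l0 T2.l0) (xa T2.l0 T2.l0)) (xb T2.l0 (xa T2.l0 T2.l0)))) (xb (xa T2.l0 T2.l0) (xa (xb T2.l0 T2.l0) (xb T2.l0 T2.l0)))) (xa (xb (xa (xb (xa (xb T2.l0 T2.l0) (xb T2.l0 T2.l0)) (xa (xb (xc T2.l0 T2.l0) (xc T2.l0 T2.l0)) (xb T2.l0 T2.l0))) (xb (xa T2.l0 T2.l0) (xa (xb T2.l0 T2.l0) (xb T2.l0 T2.l0)))) (xa (xb (xa (xb (xc T2.l0 T2.l0) (xc T2.l0 T2.l0)) (xb (xc T2.l0 T2.l0) (xc T2.l0 T2.l0))) (xa (xb (xs T2.l0 (xc T2.l0 T2.l0)) (xs T2.l0 (xc T2.l0 T2.l0))) (xb (xs T2.l0 T2.l0) (xs T2.l0 (xc T2.l0 T2.l0))))) (xb (xa (xb T2.l0 (xc T2.l0 T2.l0)) (xb T2.l0 (xs T2.l0 T2.l0))) (xa (xb (xs T2.l0 T2.l0) (xs T2.l0 (xc T2.l0 T2.l0))) (xb (xs T2.l0 T2.l0) (xs T2.l0 (xc T2.l0 T2.l0))))))) (xb (xa (xb (xa T2.l0 T2.l0) (xa T2.l0 T2.l0))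 (xb T2.l0 (xa T2.l0 T2.l0))) (xa (xb (xa (xb T2.l0 T2.l0) (xb T2.l0 T2.l0)) (xa (xb (xs T2.l0 T2.l0) (xs T2.l0 (xc T2.l0 T2.l0))) (xs (xb T2.l0 T2.l0) (xb T2.l0 T2.l0)))) (xb (xa (xb T2.l0 T2.l0) (xb T2.l0 T2.l0)) (xa (xs (xb T2.l0 T2.l0) (xb T2.l0 T2.l0)) (xs T2.l0 (xb T2.l0 T2.l0))))))))
theorem qc1_0_0_l : chkTr (tg true true false RT.r2) b1_0 t2 rc1_0_0_l
  (upd lo Co.a (rc sI cl4 cl5 cl4 b1_0 (I.pos (nat_lit 0) (nat_lit 0)))) = true := by decide +kernel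
def rc1_0_0_r : Tr := (xb (xa (xb (xa T2.l0 T2.l0) (xa T2.l0 T2.l0)) (xb (xa T2.l0 (xb T2.l0 T2.l0)) (xa T2.l0 (xb T2.l0 (xa T2.l0 T2.l0))))) (xa (xb (xa (xb T2.l0 (xa T2.l0 T2.l0)) (xb T2.l0 T2.l0)) (xa (xb (xa T2.l0 T2.l0) (xa (xs T2.l0 (xb T2.l0 T2.l0)) (xs T2.l0 T2.l0))) (xb (xa T2.l0 T2.l0) (xa (xs T2.l0 T2.l0) (xs T2.l0 T2.l0))))) (xb (xa (xb T2.l0 T2.l0) (xb (xa T2.l0 T2.l0) (xa T2.l0 (xs T2.l0 T2.l0)))) (xa (xb (xa T2.l0 T2.l0) (xa (xs T2.l0 T2.l0) (xs T2.l0 T2.l0))) (xb (xa T2.l0 (xs T2.l0 (xb T2.l0 T2.l0))) (xa (xs T2.l0 T2.l0) (xs T2.l0 (xb T2.l0 T2.l0))))))))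
theorem qc1_0_0_r : chkTr (tg true true false RT.r2) b1_0 t2 rc1_0_0_r
  (upd hi Co.a (rc sI cl4 cl5 cl4 b1_0 (I.pos (nat_lit 0) (nat_lit 0)))) = true := by decide +kernel
theorem qc1_0_0_ : chkTr (tg true true false RT.r2) b1_0 t2 (Tr.N Co.a rc1_0_0_l rc1_0_0_r)
  (rc sI cl4 cl5 cl4 b1_0 (I.pos (nat_lit 0) (nat_lit 0))) = true := tr_split qc1_0_0_l qc1_0_0_r
theorem c1_0_0 : chkTag sI cl4 cl5 cl4 t2 b1_0 (tg true true false RT.r2) (I.pos (nat_lit 0) (nat_lit 0))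
  (Tr.N Co.a rc1_0_0_l rc1_0_0_r) = true := tag_mk (by decide +kernel) qc1_0_0_
theorem c1_0_1 : chkTag sI cl4 cl5 cl4 t0 b1_0 (tg true false false RT.r3) (I.pos (nat_lit 0) (nat_lit 0))
  (xa (xb (xa (xb T0.l7 T0.l7) T0.l7) (xa (xb T0.l7 (xc T0.l7 T0.l7)) (xb T0.l7 (xc T0.l7 T0.l7)))) (xb (xa T0.l7 (xb T0.l7 T0.l7)) (xa (xb T0.l7 (xc T0.l7 T0.l7)) (xb T0.l7 (xa T0.l7 T0.l7))))) = true := by decide +kernel
theorem c1_0_2 : chkTag sI cl4 cl5 cl4 t2 b1_0 (tg true true true RT.r4) (I.pos (nat_lit 0) (nat_lit 0))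
  (xa (xb (xc (xa T2.l8 T2.l8) (xa T2.l8 T2.l8)) (xc T2.l8 (xa T2.l8 T2.l8))) (xb (xc T2.l8 T2.l8) (xc (xa T2.l8 (xb T2.l8 T2.l8)) (xa T2.l8 (xb T2.l8 T2.l8))))) = true := by decide +kernel
theorem c1_0_3 : chkTag sI cl4 cl5 cl4 t0 b1_0 (tg false false false RT.r3) (I.pos (nat_lit 0) (nat_lit 0))
  (xa (xb (xa (xb (xc T0.l8 T0.l8) T0.l8) T0.l8) (xa (xb T0.l8 (xc T0.l8 T0.l8)) T0.l8)) (xb (xa T0.l8 (xb T0.l8 (xc T0.l8 T0.l8))) (xa (xb T0.l8 T0.l8) (xb (xc T0.l8 T0.l8) (xc (xa T0.l8 T0.l8) (xa T0.l8 T0.l8)))))) = true := by decide +kernel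
theorem c1_0_4 : chkTag sI cl4 cl5 cl4 t2 b1_0 (tg false true false RT.r4) (I.pos (nat_lit 0) (nat_lit 0))
  (xa (xb (xc (xa T2.l9 T2.l9) (xa T2.l9 T2.l9)) (xc T2.l9 (xa T2.l9 T2.l9))) (xb (xc T2.l9 T2.l9) (xc (xa T2.l9 (xb T2.l9 T2.l9)) (xa T2.l9 (xb T2.l9 T2.l9))))) = true := by decide +kernel
theorem c1_0_5 : chkTag sI cl4 cl5 cl4 t0 b1_0 (tg false false true RT.r5) (I.pos (nat_lit 0) (nat_lit 0))
  (xa (xb (xa (xb T0.l9 T0.l9) T0.l9) (xa (xb T0.l9 (xc T0.l9 T0.l9)) (xb T0.l9 (xc T0.l9 T0.l9)))) (xb (xa T0.l9 (xb T0.l9 T0.l9)) (xa (xb T0.l9 (xc T0.l9 T0.l9)) (xb T0.l9 (xa T0.l9 T0.l9))))) = true := by decide +kernel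
theorem bx1_0 : BoxOK sI cl4 cl5 cl4 t2 t0 b1_0 :=
  box_mk' [(tg true true false RT.r2), (tg true false false RT.r3), (tg true true true RT.r4), (tg false false false RT.r3), (tg false true false RT.r4), (tg false false true RT.r5)] rfl (allL_c (ex_mk c1_0_0) (allL_c (ex_mk c1_0_1) (allL_c (ex_mk c1_0_2) (allL_c (ex_mk c1_0_3) (allL_c (ex_mk c1_0_4) (allL_c (ex_mk c1_0_5) allL_n))))))
theorem bx1_1 : BoxOK sI cl4 cl5 cl4 t2 t0 b1_1 :=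
  box_mk (TrL.c (I.pos (nat_lit 0) (nat_lit 0)) (xa (xb (xa T2.l14 T2.l14) (xa T2.l14 T2.l14)) (xb T2.l14 T2.l14))
  (TrL.c (I.pos (nat_lit 0) (nat_lit 0)) (xa T0.l15 T0.l15)
  (TrL.c (I.pos (nat_lit 0) (nat_lit 0)) (xa T2.l15 T2.l15)
  (TrL.c (I.pos (nat_lit 0) (nat_lit 0)) (xa (xb T0.l16 T0.l16) (xb T0.l16 T0.l16))
  (TrL.c (I.pos (nat_lit 0) (nat_lit 0)) (xa T2.l16 T2.l16)
  (TrL.c (I.pos (nat_lit 0) (nat_lit 0)) (xa T0.l17 T0.l17)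
  TrL.n)))))) (by decide +kernel)
theorem bx1_2 : BoxOK sI cl4 cl5 cl4 t2 t0 b1_2 :=
  box_mk (TrL.c (I.pos (nat_lit 0) (nat_lit 0)) (xb (xa T2.l17 T2.l17) (xa (xb T2.l17 (xa T2.l17 T2.l17)) (xa T2.l17 T2.l17)))
  (TrL.c (I.pos (nat_lit 0) (nat_lit 0)) (xb T0.l18 T0.l44)
  (TrL.c (I.pos (nat_lit 0) (nat_lit 0)) T2.l18
  (TrL.c (I.pos (nat_lit 0) (nat_lit 0)) T0.l19
  (TrL.c (I.pos (nat_lit 0) (nat_lit 0)) T2.l19
  (TrL.c (I.pos (nat_lit 0) (nat_lit 0)) (xb T0.l20 T0.l20)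
  TrL.n)))))) (by decide +kernel)
theorem bx1_3 : BoxOK sI cl4 cl5 cl4 t2 t0 b1_3 :=
  box_mk (TrL.c (I.pos (nat_lit 0) (nat_lit 0)) T0.l42
  (TrL.c (I.pos (nat_lit 0) (nat_lit 0)) T2.l20
  TrL.n)) (by decide +kernel)
theorem bx1_4 : BoxOK sI cl4 cl5 cl4 t2 t0 b1_4 :=
  box_mk (TrL.c (I.pos (nat_lit 0) (nat_lit 0)) (xb (xa (xb (xa T2.l21 T2.l21) (xa (xb T2.l21 T2.l21) T2.l21)) (xb (xa T2.l21 T2.l21) (xa T2.l21 T2.l21))) (xa (xb (xa (xb T2.l21 T2.l21) T2.l21) (xa (xb T2.l21 (xa T2.l21 T2.l21)) (xb T2.l21 (xa T2.l21 T2.l21)))) (xb (xa T2.l21 (xb T2.l21 T2.l21)) (xa (xb T2.l21 (xa T2.l21 T2.l21)) (xb T2.l21 (xa T2.l21 T2.l21))))))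
  (TrL.c (I.pos (nat_lit 0) (nat_lit 0)) (xb (xa T0.l22 (xb T0.l22 T0.l22)) (xa (xb T0.l22 T0.l22) (xb T0.l22 T0.l22)))
  (TrL.c (I.pos (nat_lit 0) (nat_lit 0)) (xb (xa T2.l22 T2.l22) (xa T2.l22 T2.l22))
  (TrL.c (I.pos (nat_lit 0) (nat_lit 0)) (xb (xa (xb T0.l23 T0.l23) T0.l8) (xa T0.l8 T0.l8))
  (TrL.c (I.pos (nat_lit 0) (nat_lit 0)) (xb (xa T2.l23 T2.l23) (xa T2.l23 T2.l23))
  (TrL.c (I.pos (nat_lit 0) (nat_lit 0)) (xb (xa T0.l24 (xb T0.l24 T0.l24)) (xa (xb T0.l24 T0.l24) (xb T0.l24 T0.l24)))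
  TrL.n)))))) (by decide +kernel)
theorem bx1_5 : BoxOK sI cl4 cl5 cl4 t2 t0 b1_5 :=
  box_mk (TrL.c (I.pos (nat_lit 0) (nat_lit 0)) (xb (xa (xb T2.l24 T2.l24) (xb T2.l24 T2.l24)) (xa (xb T2.l24 T2.l24) (xb T2.l24 T2.l24)))
  (TrL.c (I.pos (nat_lit 0) (nat_lit 0)) (xb T0.l25 T0.l25)
  (TrL.c (I.pos (nat_lit 0) (nat_lit 0)) T2.l25
  (TrL.c (I.pos (nat_lit 0) (nat_lit 0)) (xb T0.l26 T0.l26)
  (TrL.c (I.pos (nat_lit 0) (nat_lit 0)) T2.l26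
  (TrL.c (I.pos (nat_lit 0) (nat_lit 0)) (xb T0.l27 T0.l27)
  TrL.n)))))) (by decide +kernel)
theorem bx1_6 : BoxOK sI cl4 cl5 cl4 t2 t0 b1_6 :=
  box_mk (TrL.c (I.pos (nat_lit 0) (nat_lit 0)) (xb (xa T2.l27 T2.l27) (xa (xb T2.l27 T2.l27) (xa T2.l27 T2.l27)))
  (TrL.c (I.pos (nat_lit 0) (nat_lit 0)) T0.l42
  (TrL.c (I.pos (nat_lit 0) (nat_lit 0)) T2.l20
  (TrL.c (I.pos (nat_lit 0) (nat_lit 0)) T0.l28
  (TrL.c (I.pos (nat_lit 0) (nat_lit 0)) T2.l28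
  (TrL.c (I.pos (nat_lit 0) (nat_lit 0)) T0.l29
  TrL.n)))))) (by decide +kernel)
theorem bx1_7 : BoxOK sI cl4 cl5 cl4 t2 t0 b1_7 :=
  box_mk (TrL.c (I.pos (nat_lit 0) (nat_lit 0)) (xb T0.l44 T0.l44)
  (TrL.c (I.pos (nat_lit 0) (nat_lit 0)) T2.l42
  TrL.n)) (by decide +kernel)
theorem bx1_8 : BoxOK sI cl4 cl5 cl4 t2 t0 b1_8 :=
  box_mk (TrL.c (I.pos (nat_lit 0) (nat_lit 0)) (xa (xb (xa (xb T2.l0 T2.l0) (xb T2.l0 T2.l0)) (xa (xb T2.l0 (xb T2.l0 T2.l0)) (xb T2.l0 (xa T2.l0 T2.l0)))) (xb (xa T2.l0 (xb T2.l2 T2.l0)) (xa (xb T2.l0 T2.l0) (xb T2.l0 T2.l0))))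
  (TrL.c (I.pos (nat_lit 0) (nat_lit 0)) (xa (xb (xa T0.l7 T0.l7) T0.l7) (xb T0.l7 T0.l7))
  (TrL.c (I.pos (nat_lit 0) (nat_lit 0)) (xa T2.l8 T2.l3)
  (TrL.c (I.pos (nat_lit 0) (nat_lit 0)) (xa T0.l8 (xb (xa T0.l8 (xb T0.l8 T0.l8)) (xa T0.l8 (xb T0.l8 T0.l8))))
  (TrL.c (I.pos (nat_lit 0) (nat_lit 0)) (xa T2.l9 T2.l1)
  (TrL.c (I.pos (nat_lit 0) (nat_lit 0)) (xa (xb (xa T0.l9 T0.l9) T0.l9) (xb T0.l9 T0.l9))
  TrL.n)))))) (by decide +kernel)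
theorem bx1_9 : BoxOK sI cl4 cl5 cl4 t2 t0 b1_9 :=
  box_mk (TrL.c (I.pos (nat_lit 0) (nat_lit 0)) (xb (xa T2.l14 T2.l0) T2.l0)
  (TrL.c (I.pos (nat_lit 0) (nat_lit 0)) (xb T0.l15 T0.l38)
  (TrL.c (I.pos (nat_lit 0) (nat_lit 0)) T2.l15
  (TrL.c (I.pos (nat_lit 0) (nat_lit 0)) T0.l16
  (TrL.c (I.pos (nat_lit 0) (nat_lit 0)) T2.l16
  (TrL.c (I.pos (nat_lit 0) (nat_lit 0)) (xb T0.l17 T0.l40)
  TrL.n)))))) (by decide +kernel)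
theorem bx1_10 : BoxOK sI cl4 cl5 cl4 t2 t0 b1_10 :=
  box_mk (TrL.c (I.pos (nat_lit 0) (nat_lit 0)) (xb (xa T2.l17 T2.l17) T2.l17)
  (TrL.c (I.pos (nat_lit 0) (nat_lit 0)) T0.l18
  (TrL.c (I.pos (nat_lit 0) (nat_lit 0)) T2.l18
  (TrL.c (I.pos (nat_lit 0) (nat_lit 0)) T0.l19
  (TrL.c (I.pos (nat_lit 0) (nat_lit 0)) T2.l19
  (TrL.c (I.pos (nat_lit 0) (nat_lit 0)) T0.l20
  TrL.n)))))) (by decide +kernel)
theorem bx1_11 : BoxOK sI cl4 cl5 cl4 t2 t0 b1_11 :=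
  box_mk (TrL.c (I.pos (nat_lit 0) (nat_lit 0)) T0.l41
  (TrL.c (I.pos (nat_lit 0) (nat_lit 0)) T2.l41
  TrL.n)) (by decide +kernel)
theorem bx1_12 : BoxOK sI cl4 cl5 cl4 t2 t0 b1_12 :=
  box_mk (TrL.c (I.pos (nat_lit 0) (nat_lit 0)) T2.l0
  (TrL.c (I.pos (nat_lit 0) (nat_lit 0)) (xb T0.l22 T0.l22)
  (TrL.c (I.pos (nat_lit 0) (nat_lit 0)) (xb T2.l22 T2.l22)
  (TrL.c (I.pos (nat_lit 0) (nat_lit 0)) (xb (xa T0.l23 T0.l0) (xa T0.l23 T0.l23))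
  (TrL.c (I.pos (nat_lit 0) (nat_lit 0)) (xb T2.l23 T2.l23)
  (TrL.c (I.pos (nat_lit 0) (nat_lit 0)) (xb T0.l24 T0.l24)
  TrL.n)))))) (by decide +kernel)
theorem bx1_13 : BoxOK sI cl4 cl5 cl4 t2 t0 b1_13 :=
  box_mk (TrL.c (I.pos (nat_lit 0) (nat_lit 0)) (xb (xa T2.l24 T2.l24) (xa T2.l24 T2.l0))
  (TrL.c (I.pos (nat_lit 0) (nat_lit 0)) T0.l25
  (TrL.c (I.pos (nat_lit 0) (nat_lit 0)) T2.l25
  (TrL.c (I.pos (nat_lit 0) (nat_lit 0)) T0.l26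
  (TrL.c (I.pos (nat_lit 0) (nat_lit 0)) T2.l26
  (TrL.c (I.pos (nat_lit 0) (nat_lit 0)) T0.l27
  TrL.n)))))) (by decide +kernel)
theorem bx1_14 : BoxOK sI cl4 cl5 cl4 t2 t0 b1_14 :=
  box_mk (TrL.c (I.pos (nat_lit 0) (nat_lit 0)) (xb (xa T2.l27 T2.l27) (xa T2.l27 T2.l27))
  (TrL.c (I.pos (nat_lit 0) (nat_lit 0)) T0.l41
  (TrL.c (I.pos (nat_lit 0) (nat_lit 0)) T2.l44
  (TrL.c (I.pos (nat_lit 0) (nat_lit 0)) T0.l28
  (TrL.c (I.pos (nat_lit 0) (nat_lit 0)) T2.l28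
  (TrL.c (I.pos (nat_lit 0) (nat_lit 0)) T0.l29
  TrL.n)))))) (by decide +kernel)
theorem bx1_15 : BoxOK sI cl4 cl5 cl4 t2 t0 b1_15 :=
  box_mk (TrL.c (I.pos (nat_lit 0) (nat_lit 0)) T0.l18
  (TrL.c (I.pos (nat_lit 0) (nat_lit 0)) T2.l39
  TrL.n)) (by decide +kernel)
theorem c1_16_0 : chkTag sI cl4 cl5 cl4 t2 b1_16 (tg true true false RT.r2) (I.pos (nat_lit 0) (nat_lit 0))
  (xa (xb (xa (xb (xa (xb T2.l0 T2.l0) (xb T2.l0 T2.l0)) (xb (xa T2.l0 T2.l0) (xa T2.l0 T2.l0))) (xb (xa T2.l0 T2.l0) (xa T2.l0 T2.l0))) (xb (xa (xb (xa T2.l0 T2.l0) (xa T2.l0 T2.l0)) (xa T2.l0 T2.l0)) (xa (xb (xa T2.l0 T2.l0) (xa (xs T2.l0 T2.l0) (xs T2.l0 T2.l0))) (xb (xa T2.l0 T2.l0) (xa T2.l0 T2.l0))))) (xb (xa (xb T2.l0 T2.l0) (xb T2.l0 (xa T2.l0 T2.l0))) (xa (xb (xa T2.l0 (xb T2.l0 T2.l0)) (xa (xb T2.l0 (xs T2.l0 T2.l0)) (xb T2.l0 (xs T2.l0 T2.l0)))) (xb (xa (xb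 T2.l0 T2.l0) (xb T2.l0 T2.l0)) (xa (xb T2.l0 (xs T2.l0 T2.l0)) (xb T2.l0 (xs T2.l0 T2.l0))))))) = true := by decide +kernel
theorem c1_16_1 : chkTag sI cl4 cl5 cl4 t0 b1_16 (tg true false false RT.r3) (I.pos (nat_lit 0) (nat_lit 0))
  (xa (xb (xa T0.l7 T0.l7) (xa (xb T0.l7 T0.l7) (xb T0.l7 T0.l7))) (xb (xa (xb T0.l7 T0.l7) (xb T0.l7 T0.l7)) (xa (xb T0.l7 T0.l7) (xb T0.l7 T0.l7)))) = true := by decide +kernel
theorem c1_16_2 : chkTag sI cl4 cl5 cl4 t2 b1_16 (tg true true true RT.r4) (I.pos (nat_lit 0) (nat_lit 0))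
  (xa (xb T2.l8 (xc T2.l8 T2.l8)) (xc (xb T2.l3 (xa T2.l8 T2.l3)) (xb T2.l3 (xa T2.l8 T2.l3)))) = true := by decide +kernel
theorem c1_16_3 : chkTag sI cl4 cl5 cl4 t0 b1_16 (tg false false false RT.r3) (I.pos (nat_lit 0) (nat_lit 0))
  (xa (xb (xa (xb T0.l8 T0.l8) (xb T0.l8 T0.l8)) T0.l8) (xb (xa (xb (xc T0.l8 T0.l8) T0.l8) (xb (xc T0.l8 T0.l8) (xc T0.l8 T0.l8))) (xa (xb T0.l8 T0.l8) (xb (xc T0.l8 T0.l8) (xc T0.l8 T0.l8))))) = true := by decide +kernel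
theorem c1_16_4 : chkTag sI cl4 cl5 cl4 t2 b1_16 (tg false true false RT.r4) (I.pos (nat_lit 0) (nat_lit 0))
  (xa (xb T2.l9 (xc T2.l9 T2.l9)) (xc (xb T2.l1 (xa T2.l9 T2.l1)) (xb T2.l1 (xa T2.l9 T2.l1)))) = true := by decide +kernel
theorem c1_16_5 : chkTag sI cl4 cl5 cl4 t0 b1_16 (tg false false true RT.r5) (I.pos (nat_lit 0) (nat_lit 0))
  (xa (xb (xa T0.l9 T0.l9) (xa (xb T0.l9 T0.l9) (xb T0.l9 T0.l9))) (xb (xa (xb T0.l9 T0.l9) (xb T0.l9 T0.l9)) (xa (xb T0.l9 T0.l9) (xb T0.l9 T0.l9)))) = true := by decide +kernel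
theorem bx1_16 : BoxOK sI cl4 cl5 cl4 t2 t0 b1_16 :=
  box_mk' [(tg true true false RT.r2), (tg true false false RT.r3), (tg true true true RT.r4), (tg false false false RT.r3), (tg false true false RT.r4), (tg false false true RT.r5)] rfl (allL_c (ex_mk c1_16_0) (allL_c (ex_mk c1_16_1) (allL_c (ex_mk c1_16_2) (allL_c (ex_mk c1_16_3) (allL_c (ex_mk c1_16_4) (allL_c (ex_mk c1_16_5) allL_n))))))
theorem bx1_17 : BoxOK sI cl4 cl5 cl4 t2 t0 b1_17 :=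
  box_mk (TrL.c (I.pos (nat_lit 0) (nat_lit 0)) (xb (xa T2.l14 T2.l14) (xa (xb T2.l14 T2.l14) T2.l0))
  (TrL.c (I.pos (nat_lit 0) (nat_lit 0)) (xb T0.l15 T0.l15)
  (TrL.c (I.pos (nat_lit 0) (nat_lit 0)) (xb T2.l15 T2.l15)
  (TrL.c (I.pos (nat_lit 0) (nat_lit 0)) (xb (xa T0.l16 T0.l16) T0.l16)
  (TrL.c (I.pos (nat_lit 0) (nat_lit 0)) (xb T2.l16 T2.l16)
  (TrL.c (I.pos (nat_lit 0) (nat_lit 0)) (xb T0.l17 T0.l17)
  TrL.n)))))) (by decide +kernel)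
theorem bx1_18 : BoxOK sI cl4 cl5 cl4 t2 t0 b1_18 :=
  box_mk (TrL.c (I.pos (nat_lit 0) (nat_lit 0)) (xb (xa T2.l17 T2.l17) (xa (xb T2.l17 T2.l17) T2.l17))
  (TrL.c (I.pos (nat_lit 0) (nat_lit 0)) T0.l44
  (TrL.c (I.pos (nat_lit 0) (nat_lit 0)) T2.l18
  (TrL.c (I.pos (nat_lit 0) (nat_lit 0)) T0.l19
  (TrL.c (I.pos (nat_lit 0) (nat_lit 0)) T2.l19
  (TrL.c (I.pos (nat_lit 0) (nat_lit 0)) T0.l20
  TrL.n)))))) (by decide +kernel)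
theorem bx1_19 : BoxOK sI cl4 cl5 cl4 t2 t0 b1_19 :=
  box_mk (TrL.c (I.pos (nat_lit 0) (nat_lit 0)) T0.l42
  (TrL.c (I.pos (nat_lit 0) (nat_lit 0)) T2.l20
  TrL.n)) (by decide +kernel)
theorem bx1_20 : BoxOK sI cl4 cl5 cl4 t2 t0 b1_20 :=
  box_mk (TrL.c (I.pos (nat_lit 0) (nat_lit 0)) (xb T2.l27 (xa T2.l27 T2.l27))
  (TrL.c (I.pos (nat_lit 0) (nat_lit 0)) T0.l42
  (TrL.c (I.pos (nat_lit 0) (nat_lit 0)) T2.l20
  (TrL.c (I.pos (nat_lit 0) (nat_lit 0)) T0.l28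
  (TrL.c (I.pos (nat_lit 0) (nat_lit 0)) T2.l28
  (TrL.c (I.pos (nat_lit 0) (nat_lit 0)) T0.l29
  TrL.n)))))) (by decide +kernel)
theorem bx1_21 : BoxOK sI cl4 cl5 cl4 t2 t0 b1_21 :=
  box_mk (TrL.c (I.pos (nat_lit 0) (nat_lit 0)) T0.l44
  (TrL.c (I.pos (nat_lit 0) (nat_lit 0)) T2.l18
  TrL.n)) (by decide +kernel)
theorem bx1_22 : BoxOK sI cl4 cl5 cl4 t2 t0 b1_22 :=
  box_mk (TrL.c (I.pos (nat_lit 0) (nat_lit 0)) T2.l2
  (TrL.c (I.pos (nat_lit 0) (nat_lit 0)) T0.l7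
  (TrL.c (I.pos (nat_lit 0) (nat_lit 0)) T2.l8
  (TrL.c (I.pos (nat_lit 0) (nat_lit 0)) T0.l8
  (TrL.c (I.pos (nat_lit 0) (nat_lit 0)) T2.l9
  (TrL.c (I.pos (nat_lit 0) (nat_lit 0)) T0.l9
  TrL.n)))))) (by decide +kernel)
theorem bx1_23 : BoxOK sI cl4 cl5 cl4 t2 t0 b1_23 :=
  box_mk (TrL.c (I.pos (nat_lit 0) (nat_lit 0)) (xa T2.l14 T2.l0)
  (TrL.c (I.pos (nat_lit 0) (nat_lit 0)) T0.l15
  (TrL.c (I.pos (nat_lit 0) (nat_lit 0)) T2.l15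
  (TrL.c (I.pos (nat_lit 0) (nat_lit 0)) T0.l16
  (TrL.c (I.pos (nat_lit 0) (nat_lit 0)) T2.l16
  (TrL.c (I.pos (nat_lit 0) (nat_lit 0)) T0.l17
  TrL.n)))))) (by decide +kernel)
theorem bx1_24 : BoxOK sI cl4 cl5 cl4 t2 t0 b1_24 :=
  box_mk (TrL.c (I.pos (nat_lit 0) (nat_lit 0)) T2.l17
  (TrL.c (I.pos (nat_lit 0) (nat_lit 0)) T0.l18
  (TrL.c (I.pos (nat_lit 0) (nat_lit 0)) T2.l18
  (TrL.c (I.pos (nat_lit 0) (nat_lit 0)) T0.l19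
  (TrL.c (I.pos (nat_lit 0) (nat_lit 0)) T2.l19
  (TrL.c (I.pos (nat_lit 0) (nat_lit 0)) T0.l20
  TrL.n)))))) (by decide +kernel)
theorem bx1_25 : BoxOK sI cl4 cl5 cl4 t2 t0 b1_25 :=
  box_mk (TrL.c (I.pos (nat_lit 0) (nat_lit 0)) T0.l21
  (TrL.c (I.pos (nat_lit 0) (nat_lit 0)) T2.l20
  TrL.n)) (by decide +kernel)
theorem bx1_26 : BoxOK sI cl4 cl5 cl4 t2 t0 b1_26 :=
  box_mk (TrL.c (I.pos (nat_lit 0) (nat_lit 0)) T2.l0
  (TrL.c (I.pos (nat_lit 0) (nat_lit 0)) T0.l22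
  (TrL.c (I.pos (nat_lit 0) (nat_lit 0)) T2.l22
  (TrL.c (I.pos (nat_lit 0) (nat_lit 0)) T0.l23
  (TrL.c (I.pos (nat_lit 0) (nat_lit 0)) T2.l23
  (TrL.c (I.pos (nat_lit 0) (nat_lit 0)) T0.l24
  TrL.n)))))) (by decide +kernel)
theorem bx1_27 : BoxOK sI cl4 cl5 cl4 t2 t0 b1_27 :=
  box_mk (TrL.c (I.pos (nat_lit 0) (nat_lit 0)) T2.l24
  (TrL.c (I.pos (nat_lit 0) (nat_lit 0)) T0.l25
  (TrL.c (I.pos (nat_lit 0) (nat_lit 0)) T2.l25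
  (TrL.c (I.pos (nat_lit 0) (nat_lit 0)) T0.l26
  (TrL.c (I.pos (nat_lit 0) (nat_lit 0)) T2.l26
  (TrL.c (I.pos (nat_lit 0) (nat_lit 0)) T0.l27
  TrL.n)))))) (by decide +kernel)
theorem bx1_28 : BoxOK sI cl4 cl5 cl4 t2 t0 b1_28 :=
  box_mk (TrL.c (I.pos (nat_lit 0) (nat_lit 0)) T2.l27
  (TrL.c (I.pos (nat_lit 0) (nat_lit 0)) T0.l42
  (TrL.c (I.pos (nat_lit 0) (nat_lit 0)) T2.l44
  (TrL.c (I.pos (nat_lit 0) (nat_lit 0)) T0.l28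
  (TrL.c (I.pos (nat_lit 0) (nat_lit 0)) T2.l28
  (TrL.c (I.pos (nat_lit 0) (nat_lit 0)) T0.l29
  TrL.n)))))) (by decide +kernel)
theorem bx1_29 : BoxOK sI cl4 cl5 cl4 t2 t0 b1_29 :=
  box_mk (TrL.c (I.pos (nat_lit 0) (nat_lit 0)) T0.l44
  (TrL.c (I.pos (nat_lit 0) (nat_lit 0)) T2.l42
  TrL.n)) (by decide +kernel)
theorem bx1_30 : BoxOK sI cl4 cl5 cl4 t2 t0 b1_30 :=
  box_mk (TrL.c (I.pos (nat_lit 0) (nat_lit 0)) (xa (xb (xa T2.l21 T2.l21) (xb (xa T2.l21 T2.l21) (xa T2.l21 T2.l21))) (xb (xb T2.l21 T2.l21) (xa T2.l21 T2.l21)))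
  (TrL.c (I.pos (nat_lit 0) (nat_lit 0)) (xa (xb T0.l22 T0.l22) (xb T0.l22 T0.l22))
  (TrL.c (I.pos (nat_lit 0) (nat_lit 0)) T2.l22
  (TrL.c (I.pos (nat_lit 0) (nat_lit 0)) (xb (xa T0.l23 T0.l23) (xa T0.l23 T0.l8))
  (TrL.c (I.pos (nat_lit 0) (nat_lit 0)) T2.l23
  (TrL.c (I.pos (nat_lit 0) (nat_lit 0)) (xa (xb T0.l24 T0.l24) (xb T0.l24 T0.l24))
  TrL.n)))))) (by decide +kernel)
theorem bx1_31 : BoxOK sI cl4 cl5 cl4 t2 t0 b1_31 :=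
  box_mk (TrL.c (I.pos (nat_lit 0) (nat_lit 0)) (xb (xa T2.l24 T2.l24) (xa T2.l24 T2.l24))
  (TrL.c (I.pos (nat_lit 0) (nat_lit 0)) T0.l25
  (TrL.c (I.pos (nat_lit 0) (nat_lit 0)) T2.l25
  (TrL.c (I.pos (nat_lit 0) (nat_lit 0)) T0.l26
  (TrL.c (I.pos (nat_lit 0) (nat_lit 0)) T2.l26
  (TrL.c (I.pos (nat_lit 0) (nat_lit 0)) T0.l27
  TrL.n)))))) (by decide +kernel)
theorem bx1_32 : BoxOK sI cl4 cl5 cl4 t2 t0 b1_32 :=
  box_mk (TrL.c (I.pos (nat_lit 0) (nat_lit 0)) (xb (xa T2.l14 T2.l0) T2.l0)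
  (TrL.c (I.pos (nat_lit 0) (nat_lit 0)) T0.l38
  (TrL.c (I.pos (nat_lit 0) (nat_lit 0)) T2.l15
  (TrL.c (I.pos (nat_lit 0) (nat_lit 0)) T0.l16
  (TrL.c (I.pos (nat_lit 0) (nat_lit 0)) T2.l16
  (TrL.c (I.pos (nat_lit 0) (nat_lit 0)) T0.l40
  TrL.n)))))) (by decide +kernel)
theorem bx1_33 : BoxOK sI cl4 cl5 cl4 t2 t0 b1_33 :=
  box_mk (TrL.c (I.pos (nat_lit 0) (nat_lit 0)) (xb (xa T2.l38 T2.l38) (xa T2.l38 T2.l17))
  (TrL.c (I.pos (nat_lit 0) (nat_lit 0)) T0.l30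
  (TrL.c (I.pos (nat_lit 0) (nat_lit 0)) T2.l39
  (TrL.c (I.pos (nat_lit 0) (nat_lit 0)) T0.l31
  (TrL.c (I.pos (nat_lit 0) (nat_lit 0)) T2.l40
  (TrL.c (I.pos (nat_lit 0) (nat_lit 0)) T0.l32
  TrL.n)))))) (by decide +kernel)
theorem bx1_34 : BoxOK sI cl4 cl5 cl4 t2 t0 b1_34 :=
  box_mk (TrL.c (I.pos (nat_lit 0) (nat_lit 0)) T0.l41
  (TrL.c (I.pos (nat_lit 0) (nat_lit 0)) T2.l41
  TrL.n)) (by decide +kernel)
theorem bx1_35 : BoxOK sI cl4 cl5 cl4 t2 t0 b1_35 :=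
  box_mk (TrL.c (I.pos (nat_lit 0) (nat_lit 0)) T2.l0
  (TrL.c (I.pos (nat_lit 0) (nat_lit 0)) T0.l38
  (TrL.c (I.pos (nat_lit 0) (nat_lit 0)) T2.l36
  (TrL.c (I.pos (nat_lit 0) (nat_lit 0)) T0.l39
  (TrL.c (I.pos (nat_lit 0) (nat_lit 0)) T2.l37
  (TrL.c (I.pos (nat_lit 0) (nat_lit 0)) T0.l40
  TrL.n)))))) (by decide +kernel)
theorem bx1_36 : BoxOK sI cl4 cl5 cl4 t2 t0 b1_36 :=
  box_mk (TrL.c (I.pos (nat_lit 0) (nat_lit 0)) (xa T2.l38 T2.l17)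
  (TrL.c (I.pos (nat_lit 0) (nat_lit 0)) T0.l18
  (TrL.c (I.pos (nat_lit 0) (nat_lit 0)) T2.l39
  (TrL.c (I.pos (nat_lit 0) (nat_lit 0)) T0.l31
  (TrL.c (I.pos (nat_lit 0) (nat_lit 0)) T2.l40
  (TrL.c (I.pos (nat_lit 0) (nat_lit 0)) T0.l20
  TrL.n)))))) (by decide +kernel)
theorem bx1_37 : BoxOK sI cl4 cl5 cl4 t2 t0 b1_37 :=
  box_mk (TrL.c (I.pos (nat_lit 0) (nat_lit 0)) T0.l41
  (TrL.c (I.pos (nat_lit 0) (nat_lit 0)) T2.l20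
  TrL.n)) (by decide +kernel)
theorem bx1_38 : BoxOK sI cl4 cl5 cl4 t2 t0 b1_38 :=
  box_mk (TrL.c (I.pos (nat_lit 0) (nat_lit 0)) (xa (xb T2.l2 T2.l0) (xb T2.l2 T2.l2))
  (TrL.c (I.pos (nat_lit 0) (nat_lit 0)) (xa (xb T0.l7 T0.l7) (xb T0.l7 T0.l7))
  (TrL.c (I.pos (nat_lit 0) (nat_lit 0)) T2.l3
  (TrL.c (I.pos (nat_lit 0) (nat_lit 0)) (xa T0.l8 (xb (xa T0.l8 T0.l8) T0.l8))
  (TrL.c (I.pos (nat_lit 0) (nat_lit 0)) T2.l1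
  (TrL.c (I.pos (nat_lit 0) (nat_lit 0)) (xa (xb T0.l9 T0.l9) (xb T0.l9 T0.l9))
  TrL.n)))))) (by decide +kernel)
theorem bx1_39 : BoxOK sI cl4 cl5 cl4 t2 t0 b1_39 :=
  box_mk (TrL.c (I.pos (nat_lit 0) (nat_lit 0)) T2.l0
  (TrL.c (I.pos (nat_lit 0) (nat_lit 0)) (xa T0.l22 T0.l22)
  (TrL.c (I.pos (nat_lit 0) (nat_lit 0)) T2.l22
  (TrL.c (I.pos (nat_lit 0) (nat_lit 0)) (xa T0.l23 T0.l23)
  (TrL.c (I.pos (nat_lit 0) (nat_lit 0)) T2.l23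
  (TrL.c (I.pos (nat_lit 0) (nat_lit 0)) (xa T0.l24 T0.l24)
  TrL.n)))))) (by decide +kernel)
theorem bx1_40 : BoxOK sI cl4 cl5 cl4 t2 t0 b1_40 :=
  box_mk (TrL.c (I.pos (nat_lit 0) (nat_lit 0)) (xa (xb T2.l24 T2.l17) T2.l24)
  (TrL.c (I.pos (nat_lit 0) (nat_lit 0)) T0.l25
  (TrL.c (I.pos (nat_lit 0) (nat_lit 0)) T2.l25
  (TrL.c (I.pos (nat_lit 0) (nat_lit 0)) T0.l26
  (TrL.c (I.pos (nat_lit 0) (nat_lit 0)) T2.l26
  (TrL.c (I.pos (nat_lit 0) (nat_lit 0)) T0.l27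
  TrL.n)))))) (by decide +kernel)
theorem bx1_41 : BoxOK sI cl4 cl5 cl4 t2 t0 b1_41 :=
  box_mk (TrL.c (I.pos (nat_lit 0) (nat_lit 0)) (xb (xa T2.l27 T2.l27) T2.l27)
  (TrL.c (I.pos (nat_lit 0) (nat_lit 0)) T0.l42
  (TrL.c (I.pos (nat_lit 0) (nat_lit 0)) T2.l44
  (TrL.c (I.pos (nat_lit 0) (nat_lit 0)) T0.l28
  (TrL.c (I.pos (nat_lit 0) (nat_lit 0)) T2.l28
  (TrL.c (I.pos (nat_lit 0) (nat_lit 0)) T0.l29
  TrL.n)))))) (by decide +kernel)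
theorem bx1_42 : BoxOK sI cl4 cl5 cl4 t2 t0 b1_42 :=
  box_mk (TrL.c (I.pos (nat_lit 0) (nat_lit 0)) T0.l44
  (TrL.c (I.pos (nat_lit 0) (nat_lit 0)) T2.l42
  TrL.n)) (by decide +kernel)
theorem bx1_43 : BoxOK sI cl4 cl5 cl4 t2 t0 b1_43 :=
  box_mk (TrL.c (I.pos (nat_lit 0) (nat_lit 0)) T2.l0
  (TrL.c (I.pos (nat_lit 0) (nat_lit 0)) T0.l38
  (TrL.c (I.pos (nat_lit 0) (nat_lit 0)) T2.l36
  (TrL.c (I.pos (nat_lit 0) (nat_lit 0)) T0.l39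
  (TrL.c (I.pos (nat_lit 0) (nat_lit 0)) T2.l37
  (TrL.c (I.pos (nat_lit 0) (nat_lit 0)) T0.l40
  TrL.n)))))) (by decide +kernel)
theorem bx1_44 : BoxOK sI cl4 cl5 cl4 t2 t0 b1_44 :=
  box_mk (TrL.c (I.pos (nat_lit 0) (nat_lit 0)) T2.l38
  (TrL.c (I.pos (nat_lit 0) (nat_lit 0)) T0.l30
  (TrL.c (I.pos (nat_lit 0) (nat_lit 0)) T2.l39
  (TrL.c (I.pos (nat_lit 0) (nat_lit 0)) T0.l31
  (TrL.c (I.pos (nat_lit 0) (nat_lit 0)) T2.l40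
  (TrL.c (I.pos (nat_lit 0) (nat_lit 0)) T0.l32
  TrL.n)))))) (by decide +kernel)
theorem bx1_45 : BoxOK sI cl4 cl5 cl4 t2 t0 b1_45 :=
  box_mk (TrL.c (I.pos (nat_lit 0) (nat_lit 0)) T0.l41
  (TrL.c (I.pos (nat_lit 0) (nat_lit 0)) T2.l41
  TrL.n)) (by decide +kernel)
theorem bx1_46 : BoxOK sI cl4 cl5 cl4 t2 t0 b1_46 :=
  box_mk (TrL.c (I.pos (nat_lit 0) (nat_lit 0)) T2.l0
  (TrL.c (I.pos (nat_lit 0) (nat_lit 0)) T0.l15
  (TrL.c (I.pos (nat_lit 0) (nat_lit 0)) T2.l15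
  (TrL.c (I.pos (nat_lit 0) (nat_lit 0)) T0.l16
  (TrL.c (I.pos (nat_lit 0) (nat_lit 0)) T2.l16
  (TrL.c (I.pos (nat_lit 0) (nat_lit 0)) T0.l17
  TrL.n)))))) (by decide +kernel)
theorem bx1_47 : BoxOK sI cl4 cl5 cl4 t2 t0 b1_47 :=
  box_mk (TrL.c (I.pos (nat_lit 0) (nat_lit 0)) (xa T2.l17 T2.l17)
  (TrL.c (I.pos (nat_lit 0) (nat_lit 0)) T0.l18
  (TrL.c (I.pos (nat_lit 0) (nat_lit 0)) T2.l18
  (TrL.c (I.pos (nat_lit 0) (nat_lit 0)) T0.l19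
  (TrL.c (I.pos (nat_lit 0) (nat_lit 0)) T2.l19
  (TrL.c (I.pos (nat_lit 0) (nat_lit 0)) T0.l20
  TrL.n)))))) (by decide +kernel)
theorem bx1_48 : BoxOK sI cl4 cl5 cl4 t2 t0 b1_48 :=
  box_mk (TrL.c (I.pos (nat_lit 0) (nat_lit 0)) T0.l41
  (TrL.c (I.pos (nat_lit 0) (nat_lit 0)) T2.l20
  TrL.n)) (by decide +kernel)
theorem sv1 : StarV sI cl4 cl5 cl4 t2 t0 t1 :=
  (bt_n (bt_n (bt_n (bt_n (bt_n (bt_b bx1_0) (bt_n (bt_b bx1_1) (bt_b bx1_2))) (bt_n (bt_b bx1_3) (bt_n (bt_b bx1_4) (bt_b bx1_5)))) (bt_n (bt_n (bt_b bx1_6) (bt_n (bt_b bx1_7) (bt_b bx1_8))) (bt_n (bt_b bx1_9) (bt_n (bt_b bx1_10) (bt_b bx1_11))))) (bt_n (bt_n (bt_n (bt_b bx1_12) (bt_n (bt_b bx1_13) (bt_b bx1_14))) (bt_n (bt_b bx1_15) (bt_n (bt_b bx1_16) (bt_b bx1_17)))) (bt_n (bt_n (bt_b bx1_18) (bt_n (bt_b bx1_19) (bt_b bx1_20))) (bt_n (bt_b bx1_21) (bt_n (bt_b bx1_22) (bt_b bx1_23))))))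 (bt_n (bt_n (bt_n (bt_n (bt_b bx1_24) (bt_n (bt_b bx1_25) (bt_b bx1_26))) (bt_n (bt_b bx1_27) (bt_n (bt_b bx1_28) (bt_b bx1_29)))) (bt_n (bt_n (bt_b bx1_30) (bt_n (bt_b bx1_31) (bt_b bx1_32))) (bt_n (bt_b bx1_33) (bt_n (bt_b bx1_34) (bt_b bx1_35))))) (bt_n (bt_n (bt_n (bt_b bx1_36) (bt_n (bt_b bx1_37) (bt_b bx1_38))) (bt_n (bt_b bx1_39) (bt_n (bt_b bx1_40) (bt_b bx1_41)))) (bt_n (bt_n (bt_b bx1_42) (bt_n (bt_b bx1_43) (bt_b bx1_44))) (bt_n (bt_n (bt_b bx1_45) (bt_b bx1_46)) (bt_n (bt_b bx1_47) (bt_b bx1_48)))))))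
def S1 : StarD := StarD.mk cl4 cl5 cl4 2 0 t1
theorem bx2_0 : BoxOK sI cl5 cl4 cl4 t1 t1 b2_0 :=
  box_mk (TrL.c (I.pos (nat_lit 0) (nat_lit 0)) (xa (xb (xa (xb T1.l16 (xa T1.l16 T1.l16)) (xb T1.l0 (xa T1.l0 T1.l0))) (xa (xb (xa (xb T1.l16 T1.l16) (xb T1.l0 T1.l0)) (xa (xb (xc T1.l16 T1.l0) (xc T1.l0 T1.l0)) (xb (xc T1.l0 T1.l0) (xc T1.l0 T1.l0)))) (xb (xa (xb T1.l0 T1.l0) (xb T1.l0 T1.l0)) (xa (xb T1.l0 (xc T1.l0 T1.l0)) (xb T1.l0 (xc T1.l0 T1.l0)))))) (xb (xa (xb T1.l0 T1.l0) (xb T1.l0 T1.l0)) (xa (xb (xa T1.l0 T1.l0) (xa (xb T1.l0 (xc T1.l0 T1.l0)) (xb T1.l0 (xc T1.l0 (xs T1.l0 T1.l0))))) (xb (xa T1.l0 T1.l0) (xa (xb T1.l0 (xc T1.l0 (xs T1.l0 T1.l0))) (xb T1.l0 (xc T1.l0 (xs T1.l0 T1.l0))))))))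
  (TrL.c (I.pos (nat_lit 0) (nat_lit 0)) (xa (xb (xa T1.l17 T1.l1) (xa (xb T1.l1 T1.l1) (xb T1.l1 T1.l1))) (xb (xa T1.l1 T1.l1) (xa (xb T1.l1 T1.l1) (xb T1.l1 T1.l1))))
  (TrL.c (I.pos (nat_lit 0) (nat_lit 0)) (xa (xb T1.l2 T1.l2) (xb T1.l2 T1.l2))
  (TrL.c (I.pos (nat_lit 0) (nat_lit 0)) T1.l3
  (TrL.c (I.pos (nat_lit 0) (nat_lit 0)) (xa (xb (xb (xa T1.l4 T1.l4) T1.l4) (xa T1.l4 T1.l4)) (xb (xa (xb T1.l4 T1.l4) (xb T1.l4 T1.l4)) (xa (xb T1.l4 T1.l4) (xb T1.l4 T1.l4))))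
  (TrL.c (I.pos (nat_lit 0) (nat_lit 0)) (xa (xb T1.l31 T1.l5) (xb (xa T1.l5 T1.l5) (xa T1.l5 T1.l5)))
  (TrL.c (I.pos (nat_lit 0) (nat_lit 0)) T1.l6
  (TrL.c (I.pos (nat_lit 0) (nat_lit 0)) (xa (xb T1.l7 T1.l7) (xb T1.l7 T1.l7))
  TrL.n)))))))) (by decide +kernel)
theorem bx2_1 : BoxOK sI cl5 cl4 cl4 t1 t1 b2_1 :=
  box_mk (TrL.c (I.pos (nat_lit 0) (nat_lit 0)) (xa (xb (xb (xa T1.l8 T1.l8) (xa T1.l8 T1.l8)) (xa (xb T1.l8 T1.l8) (xb T1.l8 T1.l8))) (xb (xa T1.l8 T1.l8) (xa T1.l8 T1.l8)))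
  (TrL.c (I.pos (nat_lit 0) (nat_lit 0)) (xb T1.l9 T1.l32)
  (TrL.c (I.pos (nat_lit 0) (nat_lit 0)) T1.l33
  (TrL.c (I.pos (nat_lit 0) (nat_lit 0)) T1.l11
  (TrL.c (I.pos (nat_lit 0) (nat_lit 0)) (xb (xa T1.l12 T1.l12) (xa T1.l12 T1.l12))
  (TrL.c (I.pos (nat_lit 0) (nat_lit 0)) (xb T1.l13 T1.l13)
  (TrL.c (I.pos (nat_lit 0) (nat_lit 0)) T1.l14
  (TrL.c (I.pos (nat_lit 0) (nat_lit 0)) T1.l15
  TrL.n)))))))) (by decide +kernel)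
theorem bx2_2 : BoxOK sI cl5 cl4 cl4 t1 t1 b2_2 :=
  box_mk (TrL.c (I.pos (nat_lit 0) (nat_lit 0)) (xa (xb (xa (xb T1.l16 T1.l16) (xb T1.l16 T1.l16)) (xa (xb (xa T1.l16 T1.l16) (xa T1.l16 T1.l16)) (xb T1.l16 (xa T1.l16 T1.l16)))) (xb (xa (xb T1.l16 T1.l16) (xb T1.l16 T1.l16)) (xa (xb (xa T1.l16 T1.l16) (xa T1.l16 T1.l16)) (xb (xa T1.l16 T1.l16) (xa T1.l16 T1.l16)))))
  (TrL.c (I.pos (nat_lit 0) (nat_lit 0)) (xa (xb T1.l17 T1.l17) (xb T1.l17 (xa T1.l17 T1.l17)))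
  (TrL.c (I.pos (nat_lit 0) (nat_lit 0)) (xa T1.l18 T1.l18)
  (TrL.c (I.pos (nat_lit 0) (nat_lit 0)) T1.l19
  (TrL.c (I.pos (nat_lit 0) (nat_lit 0)) (xa (xb T1.l30 T1.l30) (xb T1.l30 T1.l30))
  (TrL.c (I.pos (nat_lit 0) (nat_lit 0)) (xa T1.l31 T1.l31)
  (TrL.c (I.pos (nat_lit 0) (nat_lit 0)) T1.l20
  (TrL.c (I.pos (nat_lit 0) (nat_lit 0)) (xa T1.l21 T1.l21)
  TrL.n)))))))) (by decide +kernel)
theorem bx2_3 : BoxOK sI cl5 cl4 cl4 t1 t1 b2_3 :=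
  box_mk (TrL.c (I.pos (nat_lit 0) (nat_lit 0)) (xb T1.l32 T1.l9)
  (TrL.c (I.pos (nat_lit 0) (nat_lit 0)) T1.l33
  (TrL.c (I.pos (nat_lit 0) (nat_lit 0)) T1.l11
  TrL.n))) (by decide +kernel)
theorem bx2_4 : BoxOK sI cl5 cl4 cl4 t1 t1 b2_4 :=
  box_mk (TrL.c (I.pos (nat_lit 0) (nat_lit 0)) (xa (xb T1.l8 T1.l16) T1.l16)
  (TrL.c (I.pos (nat_lit 0) (nat_lit 0)) T1.l32
  (TrL.c (I.pos (nat_lit 0) (nat_lit 0)) T1.l33
  (TrL.c (I.pos (nat_lit 0) (nat_lit 0)) T1.l34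
  (TrL.c (I.pos (nat_lit 0) (nat_lit 0)) T1.l26
  (TrL.c (I.pos (nat_lit 0) (nat_lit 0)) T1.l27
  (TrL.c (I.pos (nat_lit 0) (nat_lit 0)) T1.l28
  (TrL.c (I.pos (nat_lit 0) (nat_lit 0)) T1.l29
  TrL.n)))))))) (by decide +kernel)
theorem bx2_5 : BoxOK sI cl5 cl4 cl4 t1 t1 b2_5 :=
  box_mk (TrL.c (I.pos (nat_lit 0) (nat_lit 0)) (xa (xb T1.l8 T1.l16) T1.l16)
  (TrL.c (I.pos (nat_lit 0) (nat_lit 0)) T1.l17
  (TrL.c (I.pos (nat_lit 0) (nat_lit 0)) T1.l18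
  (TrL.c (I.pos (nat_lit 0) (nat_lit 0)) T1.l19
  (TrL.c (I.pos (nat_lit 0) (nat_lit 0)) T1.l30
  (TrL.c (I.pos (nat_lit 0) (nat_lit 0)) T1.l31
  (TrL.c (I.pos (nat_lit 0) (nat_lit 0)) T1.l20
  (TrL.c (I.pos (nat_lit 0) (nat_lit 0)) T1.l21
  TrL.n)))))))) (by decide +kernel)
theorem bx2_6 : BoxOK sI cl5 cl4 cl4 t1 t1 b2_6 :=
  box_mk (TrL.c (I.pos (nat_lit 0) (nat_lit 0)) T1.l32
  (TrL.c (I.pos (nat_lit 0) (nat_lit 0)) T1.l33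
  (TrL.c (I.pos (nat_lit 0) (nat_lit 0)) T1.l34
  TrL.n))) (by decide +kernel)
theorem bx2_7 : BoxOK sI cl5 cl4 cl4 t1 t1 b2_7 :=
  box_mk (TrL.c (I.pos (nat_lit 0) (nat_lit 0)) T1.l16
  (TrL.c (I.pos (nat_lit 0) (nat_lit 0)) T1.l23
  (TrL.c (I.pos (nat_lit 0) (nat_lit 0)) T1.l24
  (TrL.c (I.pos (nat_lit 0) (nat_lit 0)) T1.l11
  (TrL.c (I.pos (nat_lit 0) (nat_lit 0)) T1.l12
  (TrL.c (I.pos (nat_lit 0) (nat_lit 0)) T1.l27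
  (TrL.c (I.pos (nat_lit 0) (nat_lit 0)) T1.l14
  (TrL.c (I.pos (nat_lit 0) (nat_lit 0)) T1.l29
  TrL.n)))))))) (by decide +kernel)
theorem bx2_8 : BoxOK sI cl5 cl4 cl4 t1 t1 b2_8 :=
  box_mk (TrL.c (I.pos (nat_lit 0) (nat_lit 0)) T1.l35
  (TrL.c (I.pos (nat_lit 0) (nat_lit 0)) T1.l36
  (TrL.c (I.pos (nat_lit 0) (nat_lit 0)) T1.l37
  TrL.n))) (by decide +kernel)
theorem bx2_9 : BoxOK sI cl5 cl4 cl4 t1 t1 b2_9 :=
  box_mk (TrL.c (I.pos (nat_lit 0) (nat_lit 0)) (xb (xa (xb (xa T1.l38 T1.l8) (xa T1.l38 T1.l38)) T1.l8) (xa (xb (xa T1.l38 T1.l38) (xa T1.l38 T1.l38)) (xb T1.l38 T1.l8)))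
  (TrL.c (I.pos (nat_lit 0) (nat_lit 0)) T1.l35
  (TrL.c (I.pos (nat_lit 0) (nat_lit 0)) T1.l36
  (TrL.c (I.pos (nat_lit 0) (nat_lit 0)) T1.l37
  (TrL.c (I.pos (nat_lit 0) (nat_lit 0)) (xb T1.l39 T1.l39)
  (TrL.c (I.pos (nat_lit 0) (nat_lit 0)) T1.l40
  (TrL.c (I.pos (nat_lit 0) (nat_lit 0)) T1.l41
  (TrL.c (I.pos (nat_lit 0) (nat_lit 0)) T1.l42
  TrL.n)))))))) (by decide +kernel)
theorem bx2_10 : BoxOK sI cl5 cl4 cl4 t1 t1 b2_10 :=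
  box_mk (TrL.c (I.pos (nat_lit 0) (nat_lit 0)) T1.l16
  (TrL.c (I.pos (nat_lit 0) (nat_lit 0)) T1.l9
  (TrL.c (I.pos (nat_lit 0) (nat_lit 0)) T1.l10
  (TrL.c (I.pos (nat_lit 0) (nat_lit 0)) T1.l11
  (TrL.c (I.pos (nat_lit 0) (nat_lit 0)) T1.l12
  (TrL.c (I.pos (nat_lit 0) (nat_lit 0)) T1.l13
  (TrL.c (I.pos (nat_lit 0) (nat_lit 0)) T1.l14
  (TrL.c (I.pos (nat_lit 0) (nat_lit 0)) T1.l15
  TrL.n)))))))) (by decide +kernel)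
theorem bx2_11 : BoxOK sI cl5 cl4 cl4 t1 t1 b2_11 :=
  box_mk (TrL.c (I.pos (nat_lit 0) (nat_lit 0)) (xb T1.l8 (xa T1.l8 T1.l16))
  (TrL.c (I.pos (nat_lit 0) (nat_lit 0)) T1.l9
  (TrL.c (I.pos (nat_lit 0) (nat_lit 0)) T1.l10
  (TrL.c (I.pos (nat_lit 0) (nat_lit 0)) T1.l11
  (TrL.c (I.pos (nat_lit 0) (nat_lit 0)) T1.l12
  (TrL.c (I.pos (nat_lit 0) (nat_lit 0)) T1.l13
  (TrL.c (I.pos (nat_lit 0) (nat_lit 0)) T1.l14
  (TrL.c (I.pos (nat_lit 0) (nat_lit 0)) T1.l15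
  TrL.n)))))))) (by decide +kernel)
theorem bx2_12 : BoxOK sI cl5 cl4 cl4 t1 t1 b2_12 :=
  box_mk (TrL.c (I.pos (nat_lit 0) (nat_lit 0)) T1.l0
  (TrL.c (I.pos (nat_lit 0) (nat_lit 0)) T1.l17
  (TrL.c (I.pos (nat_lit 0) (nat_lit 0)) T1.l18
  (TrL.c (I.pos (nat_lit 0) (nat_lit 0)) T1.l19
  (TrL.c (I.pos (nat_lit 0) (nat_lit 0)) (xb T1.l30 T1.l30)
  (TrL.c (I.pos (nat_lit 0) (nat_lit 0)) T1.l31
  (TrL.c (I.pos (nat_lit 0) (nat_lit 0)) T1.l20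
  (TrL.c (I.pos (nat_lit 0) (nat_lit 0)) T1.l21
  TrL.n)))))))) (by decide +kernel)
theorem bx2_13 : BoxOK sI cl5 cl4 cl4 t1 t1 b2_13 :=
  box_mk (TrL.c (I.pos (nat_lit 0) (nat_lit 0)) T1.l32
  (TrL.c (I.pos (nat_lit 0) (nat_lit 0)) T1.l33
  (TrL.c (I.pos (nat_lit 0) (nat_lit 0)) T1.l34
  TrL.n))) (by decide +kernel)
theorem bx2_14 : BoxOK sI cl5 cl4 cl4 t1 t1 b2_14 :=
  box_mk (TrL.c (I.pos (nat_lit 0) (nat_lit 0)) (xa T1.l0 T1.l0)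
  (TrL.c (I.pos (nat_lit 0) (nat_lit 0)) (xa T1.l1 T1.l1)
  (TrL.c (I.pos (nat_lit 0) (nat_lit 0)) T1.l2
  (TrL.c (I.pos (nat_lit 0) (nat_lit 0)) T1.l3
  (TrL.c (I.pos (nat_lit 0) (nat_lit 0)) (xa T1.l4 T1.l4)
  (TrL.c (I.pos (nat_lit 0) (nat_lit 0)) T1.l5
  (TrL.c (I.pos (nat_lit 0) (nat_lit 0)) T1.l6
  (TrL.c (I.pos (nat_lit 0) (nat_lit 0)) T1.l7
  TrL.n)))))))) (by decide +kernel)
theorem bx2_15 : BoxOK sI cl5 cl4 cl4 t1 t1 b2_15 :=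
  box_mk (TrL.c (I.pos (nat_lit 0) (nat_lit 0)) T1.l35
  (TrL.c (I.pos (nat_lit 0) (nat_lit 0)) T1.l36
  (TrL.c (I.pos (nat_lit 0) (nat_lit 0)) T1.l37
  TrL.n))) (by decide +kernel)
theorem bx2_16 : BoxOK sI cl5 cl4 cl4 t1 t1 b2_16 :=
  box_mk (TrL.c (I.pos (nat_lit 0) (nat_lit 0)) (xb T1.l38 (xa T1.l38 T1.l38))
  (TrL.c (I.pos (nat_lit 0) (nat_lit 0)) T1.l35
  (TrL.c (I.pos (nat_lit 0) (nat_lit 0)) T1.l36
  (TrL.c (I.pos (nat_lit 0) (nat_lit 0)) T1.l37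
  (TrL.c (I.pos (nat_lit 0) (nat_lit 0)) T1.l39
  (TrL.c (I.pos (nat_lit 0) (nat_lit 0)) T1.l40
  (TrL.c (I.pos (nat_lit 0) (nat_lit 0)) T1.l41
  (TrL.c (I.pos (nat_lit 0) (nat_lit 0)) T1.l42
  TrL.n)))))))) (by decide +kernel)
theorem bx2_17 : BoxOK sI cl5 cl4 cl4 t1 t1 b2_17 :=
  box_mk (TrL.c (I.pos (nat_lit 0) (nat_lit 0)) (xa (xb T1.l0 T1.l0) (xb (xa T1.l0 T1.l4) (xa T1.l0 (xb T1.l0 T1.l0))))
  (TrL.c (I.pos (nat_lit 0) (nat_lit 0)) (xa T1.l1 (xb T1.l1 T1.l1))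
  (TrL.c (I.pos (nat_lit 0) (nat_lit 0)) T1.l2
  (TrL.c (I.pos (nat_lit 0) (nat_lit 0)) T1.l3
  (TrL.c (I.pos (nat_lit 0) (nat_lit 0)) (xa T1.l4 (xb T1.l0 (xa T1.l4 T1.l4)))
  (TrL.c (I.pos (nat_lit 0) (nat_lit 0)) (xa T1.l5 T1.l1)
  (TrL.c (I.pos (nat_lit 0) (nat_lit 0)) T1.l6
  (TrL.c (I.pos (nat_lit 0) (nat_lit 0)) T1.l7
  TrL.n)))))))) (by decide +kernel)
theorem bx2_18 : BoxOK sI cl5 cl4 cl4 t1 t1 b2_18 :=
  box_mk (TrL.c (I.pos (nat_lit 0) (nat_lit 0)) T1.l35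
  (TrL.c (I.pos (nat_lit 0) (nat_lit 0)) T1.l36
  (TrL.c (I.pos (nat_lit 0) (nat_lit 0)) T1.l37
  TrL.n))) (by decide +kernel)
theorem bx2_19 : BoxOK sI cl5 cl4 cl4 t1 t1 b2_19 :=
  box_mk (TrL.c (I.pos (nat_lit 0) (nat_lit 0)) T1.l38
  (TrL.c (I.pos (nat_lit 0) (nat_lit 0)) T1.l35
  (TrL.c (I.pos (nat_lit 0) (nat_lit 0)) T1.l47
  (TrL.c (I.pos (nat_lit 0) (nat_lit 0)) T1.l48
  (TrL.c (I.pos (nat_lit 0) (nat_lit 0)) T1.l39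
  (TrL.c (I.pos (nat_lit 0) (nat_lit 0)) T1.l40
  (TrL.c (I.pos (nat_lit 0) (nat_lit 0)) T1.l41
  (TrL.c (I.pos (nat_lit 0) (nat_lit 0)) T1.l42
  TrL.n)))))))) (by decide +kernel)
theorem bx2_20 : BoxOK sI cl5 cl4 cl4 t1 t1 b2_20 :=
  box_mk (TrL.c (I.pos (nat_lit 0) (nat_lit 0)) T1.l35
  (TrL.c (I.pos (nat_lit 0) (nat_lit 0)) T1.l47
  (TrL.c (I.pos (nat_lit 0) (nat_lit 0)) T1.l37
  TrL.n))) (by decide +kernel)
theorem bx2_21 : BoxOK sI cl5 cl4 cl4 t1 t1 b2_21 :=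
  box_mk (TrL.c (I.pos (nat_lit 0) (nat_lit 0)) (xa (xb (xb T1.l0 T1.l0) (xb (xa T1.l0 T1.l0) (xa T1.l0 T1.l0))) (xb (xb T1.l0 T1.l0) (xb T1.l0 (xa T1.l0 T1.l0))))
  (TrL.c (I.pos (nat_lit 0) (nat_lit 0)) (xb T1.l1 (xa T1.l1 T1.l1))
  (TrL.c (I.pos (nat_lit 0) (nat_lit 0)) T1.l2
  (TrL.c (I.pos (nat_lit 0) (nat_lit 0)) T1.l3
  (TrL.c (I.pos (nat_lit 0) (nat_lit 0)) (xb T1.l4 (xa T1.l4 T1.l4))
  (TrL.c (I.pos (nat_lit 0) (nat_lit 0)) T1.l5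
  (TrL.c (I.pos (nat_lit 0) (nat_lit 0)) T1.l6
  (TrL.c (I.pos (nat_lit 0) (nat_lit 0)) T1.l7
  TrL.n)))))))) (by decide +kernel)
theorem bx2_22 : BoxOK sI cl5 cl4 cl4 t1 t1 b2_22 :=
  box_mk (TrL.c (I.pos (nat_lit 0) (nat_lit 0)) T1.l35
  (TrL.c (I.pos (nat_lit 0) (nat_lit 0)) T1.l36
  (TrL.c (I.pos (nat_lit 0) (nat_lit 0)) T1.l37
  TrL.n))) (by decide +kernel)
theorem bx2_23 : BoxOK sI cl5 cl4 cl4 t1 t1 b2_23 :=
  box_mk (TrL.c (I.pos (nat_lit 0) (nat_lit 0)) (xb (xa (xb T1.l38 T1.l38) T1.l38) (xa (xb T1.l38 T1.l38) T1.l38))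
  (TrL.c (I.pos (nat_lit 0) (nat_lit 0)) T1.l35
  (TrL.c (I.pos (nat_lit 0) (nat_lit 0)) T1.l36
  (TrL.c (I.pos (nat_lit 0) (nat_lit 0)) T1.l37
  (TrL.c (I.pos (nat_lit 0) (nat_lit 0)) T1.l39
  (TrL.c (I.pos (nat_lit 0) (nat_lit 0)) T1.l40
  (TrL.c (I.pos (nat_lit 0) (nat_lit 0)) T1.l41
  (TrL.c (I.pos (nat_lit 0) (nat_lit 0)) T1.l42
  TrL.n)))))))) (by decide +kernel)
theorem bx2_24 : BoxOK sI cl5 cl4 cl4 t1 t1 b2_24 :=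
  box_mk (TrL.c (I.pos (nat_lit 0) (nat_lit 0)) (xa T1.l0 (xb T1.l0 T1.l0))
  (TrL.c (I.pos (nat_lit 0) (nat_lit 0)) (xa T1.l1 T1.l1)
  (TrL.c (I.pos (nat_lit 0) (nat_lit 0)) T1.l2
  (TrL.c (I.pos (nat_lit 0) (nat_lit 0)) T1.l3
  (TrL.c (I.pos (nat_lit 0) (nat_lit 0)) (xa T1.l4 (xb T1.l0 T1.l4))
  (TrL.c (I.pos (nat_lit 0) (nat_lit 0)) (xa T1.l5 T1.l5)
  (TrL.c (I.pos (nat_lit 0) (nat_lit 0)) T1.l6
  (TrL.c (I.pos (nat_lit 0) (nat_lit 0)) T1.l7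
  TrL.n)))))))) (by decide +kernel)
theorem bx2_25 : BoxOK sI cl5 cl4 cl4 t1 t1 b2_25 :=
  box_mk (TrL.c (I.pos (nat_lit 0) (nat_lit 0)) T1.l35
  (TrL.c (I.pos (nat_lit 0) (nat_lit 0)) T1.l36
  (TrL.c (I.pos (nat_lit 0) (nat_lit 0)) T1.l37
  TrL.n))) (by decide +kernel)
theorem bx2_26 : BoxOK sI cl5 cl4 cl4 t1 t1 b2_26 :=
  box_mk (TrL.c (I.pos (nat_lit 0) (nat_lit 0)) T1.l38
  (TrL.c (I.pos (nat_lit 0) (nat_lit 0)) T1.l35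
  (TrL.c (I.pos (nat_lit 0) (nat_lit 0)) T1.l47
  (TrL.c (I.pos (nat_lit 0) (nat_lit 0)) T1.l37
  (TrL.c (I.pos (nat_lit 0) (nat_lit 0)) T1.l39
  (TrL.c (I.pos (nat_lit 0) (nat_lit 0)) T1.l40
  (TrL.c (I.pos (nat_lit 0) (nat_lit 0)) T1.l41
  (TrL.c (I.pos (nat_lit 0) (nat_lit 0)) T1.l42
  TrL.n)))))))) (by decide +kernel)
theorem bx2_27 : BoxOK sI cl5 cl4 cl4 t1 t1 b2_27 :=
  box_mk (TrL.c (I.pos (nat_lit 0) (nat_lit 0)) (xb (xa T1.l0 T1.l4) (xa T1.l0 T1.l4))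
  (TrL.c (I.pos (nat_lit 0) (nat_lit 0)) (xb T1.l1 T1.l1)
  (TrL.c (I.pos (nat_lit 0) (nat_lit 0)) T1.l2
  (TrL.c (I.pos (nat_lit 0) (nat_lit 0)) T1.l7
  (TrL.c (I.pos (nat_lit 0) (nat_lit 0)) (xb T1.l0 (xa T1.l4 T1.l0))
  (TrL.c (I.pos (nat_lit 0) (nat_lit 0)) T1.l1
  (TrL.c (I.pos (nat_lit 0) (nat_lit 0)) T1.l2
  (TrL.c (I.pos (nat_lit 0) (nat_lit 0)) T1.l7
  TrL.n)))))))) (by decide +kernel)
theorem bx2_28 : BoxOK sI cl5 cl4 cl4 t1 t1 b2_28 :=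
  box_mk (TrL.c (I.pos (nat_lit 0) (nat_lit 0)) (xb T1.l38 T1.l38)
  (TrL.c (I.pos (nat_lit 0) (nat_lit 0)) T1.l35
  (TrL.c (I.pos (nat_lit 0) (nat_lit 0)) T1.l47
  (TrL.c (I.pos (nat_lit 0) (nat_lit 0)) T1.l48
  (TrL.c (I.pos (nat_lit 0) (nat_lit 0)) T1.l39
  (TrL.c (I.pos (nat_lit 0) (nat_lit 0)) T1.l40
  (TrL.c (I.pos (nat_lit 0) (nat_lit 0)) T1.l41
  (TrL.c (I.pos (nat_lit 0) (nat_lit 0)) T1.l42
  TrL.n)))))))) (by decide +kernel)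
theorem bx2_29 : BoxOK sI cl5 cl4 cl4 t1 t1 b2_29 :=
  box_mk (TrL.c (I.pos (nat_lit 0) (nat_lit 0)) (xb (xa T1.l8 T1.l8) T1.l8)
  (TrL.c (I.pos (nat_lit 0) (nat_lit 0)) T1.l9
  (TrL.c (I.pos (nat_lit 0) (nat_lit 0)) T1.l10
  (TrL.c (I.pos (nat_lit 0) (nat_lit 0)) T1.l11
  (TrL.c (I.pos (nat_lit 0) (nat_lit 0)) T1.l12
  (TrL.c (I.pos (nat_lit 0) (nat_lit 0)) T1.l13
  (TrL.c (I.pos (nat_lit 0) (nat_lit 0)) T1.l14
  (TrL.c (I.pos (nat_lit 0) (nat_lit 0)) T1.l15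
  TrL.n)))))))) (by decide +kernel)
theorem bx2_30 : BoxOK sI cl5 cl4 cl4 t1 t1 b2_30 :=
  box_mk (TrL.c (I.pos (nat_lit 0) (nat_lit 0)) (xa T1.l16 T1.l16)
  (TrL.c (I.pos (nat_lit 0) (nat_lit 0)) T1.l17
  (TrL.c (I.pos (nat_lit 0) (nat_lit 0)) T1.l18
  (TrL.c (I.pos (nat_lit 0) (nat_lit 0)) T1.l19
  (TrL.c (I.pos (nat_lit 0) (nat_lit 0)) T1.l30
  (TrL.c (I.pos (nat_lit 0) (nat_lit 0)) T1.l31
  (TrL.c (I.pos (nat_lit 0) (nat_lit 0)) T1.l20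
  (TrL.c (I.pos (nat_lit 0) (nat_lit 0)) T1.l21
  TrL.n)))))))) (by decide +kernel)
theorem bx2_31 : BoxOK sI cl5 cl4 cl4 t1 t1 b2_31 :=
  box_mk (TrL.c (I.pos (nat_lit 0) (nat_lit 0)) T1.l9
  (TrL.c (I.pos (nat_lit 0) (nat_lit 0)) T1.l33
  (TrL.c (I.pos (nat_lit 0) (nat_lit 0)) T1.l34
  TrL.n))) (by decide +kernel)
theorem bx2_32 : BoxOK sI cl5 cl4 cl4 t1 t1 b2_32 :=
  box_mk (TrL.c (I.pos (nat_lit 0) (nat_lit 0)) T1.l8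
  (TrL.c (I.pos (nat_lit 0) (nat_lit 0)) T1.l9
  (TrL.c (I.pos (nat_lit 0) (nat_lit 0)) T1.l10
  (TrL.c (I.pos (nat_lit 0) (nat_lit 0)) T1.l11
  (TrL.c (I.pos (nat_lit 0) (nat_lit 0)) T1.l12
  (TrL.c (I.pos (nat_lit 0) (nat_lit 0)) T1.l13
  (TrL.c (I.pos (nat_lit 0) (nat_lit 0)) T1.l14
  (TrL.c (I.pos (nat_lit 0) (nat_lit 0)) T1.l15
  TrL.n)))))))) (by decide +kernel)
theorem bx2_33 : BoxOK sI cl5 cl4 cl4 t1 t1 b2_33 :=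
  box_mk (TrL.c (I.pos (nat_lit 0) (nat_lit 0)) T1.l16
  (TrL.c (I.pos (nat_lit 0) (nat_lit 0)) T1.l17
  (TrL.c (I.pos (nat_lit 0) (nat_lit 0)) T1.l18
  (TrL.c (I.pos (nat_lit 0) (nat_lit 0)) T1.l19
  (TrL.c (I.pos (nat_lit 0) (nat_lit 0)) T1.l30
  (TrL.c (I.pos (nat_lit 0) (nat_lit 0)) T1.l31
  (TrL.c (I.pos (nat_lit 0) (nat_lit 0)) T1.l20
  (TrL.c (I.pos (nat_lit 0) (nat_lit 0)) T1.l21
  TrL.n)))))))) (by decide +kernel)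
theorem bx2_34 : BoxOK sI cl5 cl4 cl4 t1 t1 b2_34 :=
  box_mk (TrL.c (I.pos (nat_lit 0) (nat_lit 0)) T1.l32
  (TrL.c (I.pos (nat_lit 0) (nat_lit 0)) T1.l33
  (TrL.c (I.pos (nat_lit 0) (nat_lit 0)) T1.l34
  TrL.n))) (by decide +kernel)
theorem bx2_35 : BoxOK sI cl5 cl4 cl4 t1 t1 b2_35 :=
  box_mk (TrL.c (I.pos (nat_lit 0) (nat_lit 0)) T1.l0
  (TrL.c (I.pos (nat_lit 0) (nat_lit 0)) T1.l1
  (TrL.c (I.pos (nat_lit 0) (nat_lit 0)) T1.l2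
  (TrL.c (I.pos (nat_lit 0) (nat_lit 0)) T1.l3
  (TrL.c (I.pos (nat_lit 0) (nat_lit 0)) T1.l4
  (TrL.c (I.pos (nat_lit 0) (nat_lit 0)) T1.l5
  (TrL.c (I.pos (nat_lit 0) (nat_lit 0)) T1.l6
  (TrL.c (I.pos (nat_lit 0) (nat_lit 0)) T1.l7
  TrL.n)))))))) (by decide +kernel)
theorem bx2_36 : BoxOK sI cl5 cl4 cl4 t1 t1 b2_36 :=
  box_mk (TrL.c (I.pos (nat_lit 0) (nat_lit 0)) T1.l35
  (TrL.c (I.pos (nat_lit 0) (nat_lit 0)) T1.l36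
  (TrL.c (I.pos (nat_lit 0) (nat_lit 0)) T1.l37
  TrL.n))) (by decide +kernel)
theorem bx2_37 : BoxOK sI cl5 cl4 cl4 t1 t1 b2_37 :=
  box_mk (TrL.c (I.pos (nat_lit 0) (nat_lit 0)) T1.l38
  (TrL.c (I.pos (nat_lit 0) (nat_lit 0)) T1.l35
  (TrL.c (I.pos (nat_lit 0) (nat_lit 0)) T1.l47
  (TrL.c (I.pos (nat_lit 0) (nat_lit 0)) T1.l48
  (TrL.c (I.pos (nat_lit 0) (nat_lit 0)) T1.l39
  (TrL.c (I.pos (nat_lit 0) (nat_lit 0)) T1.l40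
  (TrL.c (I.pos (nat_lit 0) (nat_lit 0)) T1.l41
  (TrL.c (I.pos (nat_lit 0) (nat_lit 0)) T1.l42
  TrL.n)))))))) (by decide +kernel)
theorem bx2_38 : BoxOK sI cl5 cl4 cl4 t1 t1 b2_38 :=
  box_mk (TrL.c (I.pos (nat_lit 0) (nat_lit 0)) T1.l0
  (TrL.c (I.pos (nat_lit 0) (nat_lit 0)) T1.l1
  (TrL.c (I.pos (nat_lit 0) (nat_lit 0)) T1.l2
  (TrL.c (I.pos (nat_lit 0) (nat_lit 0)) T1.l3
  (TrL.c (I.pos (nat_lit 0) (nat_lit 0)) T1.l4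
  (TrL.c (I.pos (nat_lit 0) (nat_lit 0)) T1.l5
  (TrL.c (I.pos (nat_lit 0) (nat_lit 0)) T1.l6
  (TrL.c (I.pos (nat_lit 0) (nat_lit 0)) T1.l7
  TrL.n)))))))) (by decide +kernel)
theorem bx2_39 : BoxOK sI cl5 cl4 cl4 t1 t1 b2_39 :=
  box_mk (TrL.c (I.pos (nat_lit 0) (nat_lit 0)) T1.l35
  (TrL.c (I.pos (nat_lit 0) (nat_lit 0)) T1.l36
  (TrL.c (I.pos (nat_lit 0) (nat_lit 0)) T1.l37
  TrL.n))) (by decide +kernel)
theorem bx2_40 : BoxOK sI cl5 cl4 cl4 t1 t1 b2_40 :=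
  box_mk (TrL.c (I.pos (nat_lit 0) (nat_lit 0)) T1.l38
  (TrL.c (I.pos (nat_lit 0) (nat_lit 0)) T1.l35
  (TrL.c (I.pos (nat_lit 0) (nat_lit 0)) T1.l47
  (TrL.c (I.pos (nat_lit 0) (nat_lit 0)) T1.l48
  (TrL.c (I.pos (nat_lit 0) (nat_lit 0)) T1.l39
  (TrL.c (I.pos (nat_lit 0) (nat_lit 0)) T1.l40
  (TrL.c (I.pos (nat_lit 0) (nat_lit 0)) T1.l41
  (TrL.c (I.pos (nat_lit 0) (nat_lit 0)) T1.l42
  TrL.n)))))))) (by decide +kernel)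
theorem bx2_41 : BoxOK sI cl5 cl4 cl4 t1 t1 b2_41 :=
  box_mk (TrL.c (I.pos (nat_lit 0) (nat_lit 0)) T1.l35
  (TrL.c (I.pos (nat_lit 0) (nat_lit 0)) T1.l44
  (TrL.c (I.pos (nat_lit 0) (nat_lit 0)) T1.l37
  TrL.n))) (by decide +kernel)
theorem bx2_42 : BoxOK sI cl5 cl4 cl4 t1 t1 b2_42 :=
  box_mk (TrL.c (I.pos (nat_lit 0) (nat_lit 0)) T1.l35
  (TrL.c (I.pos (nat_lit 0) (nat_lit 0)) T1.l36
  (TrL.c (I.pos (nat_lit 0) (nat_lit 0)) T1.l37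
  TrL.n))) (by decide +kernel)
theorem bx2_43 : BoxOK sI cl5 cl4 cl4 t1 t1 b2_43 :=
  box_mk (TrL.c (I.pos (nat_lit 0) (nat_lit 0)) (xb T1.l8 (xa T1.l22 T1.l16))
  (TrL.c (I.pos (nat_lit 0) (nat_lit 0)) T1.l32
  (TrL.c (I.pos (nat_lit 0) (nat_lit 0)) T1.l33
  (TrL.c (I.pos (nat_lit 0) (nat_lit 0)) T1.l11
  (TrL.c (I.pos (nat_lit 0) (nat_lit 0)) T1.l26
  (TrL.c (I.pos (nat_lit 0) (nat_lit 0)) T1.l27
  (TrL.c (I.pos (nat_lit 0) (nat_lit 0)) T1.l14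
  (TrL.c (I.pos (nat_lit 0) (nat_lit 0)) T1.l29
  TrL.n)))))))) (by decide +kernel)
theorem bx2_44 : BoxOK sI cl5 cl4 cl4 t1 t1 b2_44 :=
  box_mk (TrL.c (I.pos (nat_lit 0) (nat_lit 0)) T1.l35
  (TrL.c (I.pos (nat_lit 0) (nat_lit 0)) T1.l47
  (TrL.c (I.pos (nat_lit 0) (nat_lit 0)) T1.l37
  TrL.n))) (by decide +kernel)
theorem sv2 : StarV sI cl5 cl4 cl4 t1 t1 t2 :=
  (bt_n (bt_n (bt_n (bt_n (bt_n (bt_b bx2_0) (bt_b bx2_1)) (bt_n (bt_b bx2_2) (bt_n (bt_b bx2_3) (bt_b bx2_4)))) (bt_n (bt_n (bt_b bx2_5) (bt_n (bt_b bx2_6) (bt_b bx2_7))) (bt_n (bt_b bx2_8) (bt_n (bt_b bx2_9) (bt_b bx2_10))))) (bt_n (bt_n (bt_n (bt_b bx2_11) (bt_b bx2_12)) (bt_n (bt_b bx2_13) (bt_n (bt_b bx2_14) (bt_b bx2_15)))) (bt_n (bt_n (bt_b bx2_16) (bt_n (bt_b bx2_17) (bt_b bx2_18))) (bt_n (bt_b bx2_19) (bt_n (bt_b bx2_20) (bt_b bx2_21)))))) (bt_n (bt_n (bt_n (bt_n (bt_b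 bx2_22) (bt_b bx2_23)) (bt_n (bt_b bx2_24) (bt_n (bt_b bx2_25) (bt_b bx2_26)))) (bt_n (bt_n (bt_b bx2_27) (bt_n (bt_b bx2_28) (bt_b bx2_29))) (bt_n (bt_b bx2_30) (bt_n (bt_b bx2_31) (bt_b bx2_32))))) (bt_n (bt_n (bt_n (bt_b bx2_33) (bt_n (bt_b bx2_34) (bt_b bx2_35))) (bt_n (bt_b bx2_36) (bt_n (bt_b bx2_37) (bt_b bx2_38)))) (bt_n (bt_n (bt_b bx2_39) (bt_n (bt_b bx2_40) (bt_b bx2_41))) (bt_n (bt_b bx2_42) (bt_n (bt_b bx2_43) (bt_b bx2_44)))))))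
def S2 : StarD := StarD.mk cl5 cl4 cl4 1 1 t2
def G : List StarD := [S0, S1, S2]
theorem so0 : StarOK sI G S0 :=
  star_mk (by decide) (by decide) rfl rfl rfl rfl rfl rfl (rfl : _ = t0) (rfl : _ = t2)
  (st_mk (Pth.l (Pth.l (Pth.l (Pth.l (Pth.l Pth.z))))) (nat_lit 407761997) (nat_lit 410977681) (by decide +kernel))
  (st_mk (Pth.l (Pth.l (Pth.l (Pth.l (Pth.l Pth.z))))) (nat_lit 452554290) (nat_lit 456640777) (by decide +kernel))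
  (st_mk (Pth.l (Pth.l (Pth.l (Pth.l (Pth.l Pth.z))))) (nat_lit 505942468) (nat_lit 511301855) (by decide +kernel)) sv0
theorem so1 : StarOK sI G S1 :=
  star_mk (by decide) (by decide) rfl rfl rfl rfl rfl rfl (rfl : _ = t2) (rfl : _ = t0)
  (st_mk (Pth.l (Pth.l (Pth.l (Pth.l (Pth.l Pth.z))))) (nat_lit 262604258) (nat_lit 264376440) (by decide +kernel))
  (st_mk (Pth.l (Pth.l (Pth.l (Pth.l (Pth.l Pth.z))))) (nat_lit 306238271) (nat_lit 308746184) (by decide +kernel))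
  (st_mk (Pth.l (Pth.l (Pth.l (Pth.l (Pth.l Pth.z))))) (nat_lit 358811466) (nat_lit 362435752) (by decide +kernel)) sv1
theorem so2 : StarOK sI G S2 :=
  star_mk (by decide) (by decide) rfl rfl rfl rfl rfl rfl (rfl : _ = t1) (rfl : _ = t1)
  (st_mk (Pth.l (Pth.l (Pth.l (Pth.l (Pth.l Pth.z))))) (nat_lit 393894900) (nat_lit 395898825) (by decide +kernel))
  (st_mk (Pth.l (Pth.l (Pth.l (Pth.l (Pth.l Pth.z))))) (nat_lit 435146267) (nat_lit 437636745) (by decide +kernel))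
  (st_mk (Pth.l (Pth.l (Pth.l (Pth.l (Pth.l Pth.z))))) (nat_lit 483701823) (nat_lit 486848588) (by decide +kernel)) sv2
theorem ok : GroupOK (nat_lit 238878720) (nat_lit 268435456) G := grp_mk (allS_c so0 (allS_c so1 (allS_c so2 allS_n)))
theorem cov : GCov G cl4 cl4 cl5 := cov_mk
  ⟨0, by decide, rfl, rfl, rfl⟩ ⟨1, by decide, rfl, rfl, rfl⟩ ⟨0, by decide, rfl, rfl, rfl⟩ ⟨1, by decide, rfl, rfl, rfl⟩ ⟨2, by decide, rfl, rfl, rfl⟩ ⟨2, by decide, rfl, rfl, rfl⟩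
end Q112_4

namespace Q113_0
def sI : I := I.pos (nat_lit 0) (nat_lit 91291648)
def b0_0 : Bx := Bx.mk (St.mk (I.pos (nat_lit 138838016) (nat_lit 257720320)) (I.mix (nat_lit 41762816) (nat_lit 118210560)) (I.mix (nat_lit 225738752) (nat_lit 86163456)) (I.pos (nat_lit 377847808) (nat_lit 546668544)) (I.mix (nat_lit 176537600) (nat_lit 141836288)) (I.mix (nat_lit 176881664) (nat_lit 203603968)) (I.mix (nat_lit 317374464) (nat_lit 415514624)))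
  false (nat_lit 30650741)
def b0_1 : Bx := Bx.mk (St.mk (I.mix (nat_lit 55361536) (nat_lit 8617984)) (I.mix (nat_lit 35274752) (nat_lit 102088704)) (I.neg (nat_lit 65191936) (nat_lit 94044160)) (I.pos (nat_lit 269500416) (nat_lit 298991616)) (I.mix (nat_lit 81084416) (nat_lit 150814720)) (I.mix (nat_lit 146636800) (nat_lit 134545408)) (I.mix (nat_lit 72122368) (nat_lit 57131008)))
  true (nat_lit 0)
def b0_2 : Bx := Bx.mk (St.mk (I.mix (nat_lit 5046272) (nat_lit 55427072)) (I.mix (nat_lit 102105088) (nat_lit 23773184)) (I.neg (nat_lit 65191936) (nat_lit 94044160)) (I.pos (nat_lit 269303808) (nat_lit 298991616)) (I.mix (nat_lit 150814720) (nat_lit 81068032)) (I.mix (nat_lit 134545408) (nat_lit 146636800)) (I.mix (nat_lit 72122368) (nat_lit 57131008)))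
  false (nat_lit 24253127)
def b0_3 : Bx := Bx.mk (St.mk (I.mix (nat_lit 35078144) (nat_lit 6537216)) (I.mix (nat_lit 24625152) (nat_lit 38158336)) (I.neg (nat_lit 70156288) (nat_lit 81444864)) (I.pos (nat_lit 270254080) (nat_lit 286310400)) (I.mix (nat_lit 60211200) (nat_lit 59080704)) (I.mix (nat_lit 62111744) (nat_lit 53215232)) (I.mix (nat_lit 12910592) (nat_lit 15351808)))
  true (nat_lit 0)
def b0_4 : Bx := Bx.mk (St.mk (I.pos (nat_lit 11829248) (nat_lit 126959616)) (I.mix (nat_lit 101761024) (nat_lit 2260992)) (I.neg (nat_lit 23691264) (nat_lit 114130944)) (I.pos (nat_lit 264945664) (nat_lit 342441984)) (I.mix (nat_lit 165658624) (nat_lit 130514944)) (I.mix (nat_lit 119390208) (nat_lit 182075392)) (I.mix (nat_lit 125288448) (nat_lit 153190400)))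
  false (nat_lit 37340675)
def b0_5 : Bx := Bx.mk (St.mk (I.pos (nat_lit 82198528) (nat_lit 200687616)) (I.mix (nat_lit 46792704) (nat_lit 110411776)) (I.mix (nat_lit 71286784) (nat_lit 77545472)) (I.pos (nat_lit 301023232) (nat_lit 445628416)) (I.mix (nat_lit 192954368) (nat_lit 121716736)) (I.mix (nat_lit 250658816) (nat_lit 185221120)) (I.mix (nat_lit 235339776) (nat_lit 211288064)))
  false (nat_lit 16042534)
def b0_6 : Bx := Bx.mk (St.mk (I.neg (nat_lit 11829248) (nat_lit 126976000)) (I.mix (nat_lit 3096576) (nat_lit 101761024)) (I.neg (nat_lit 21807104) (nat_lit 114130944)) (I.pos (nat_lit 264912896) (nat_lit 342835200)) (I.mix (nat_lit 130514944) (nat_lit 165658624)) (I.mix (nat_lit 182075392) (nat_lit 119390208)) (I.mix (nat_lit 125304832) (nat_lit 153206784)))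
  true (nat_lit 0)
def t0 : BTr := (BTr.n (BTr.n (BTr.b b0_0) (BTr.n (BTr.b b0_1) (BTr.b b0_2))) (BTr.n (BTr.n (BTr.b b0_3) (BTr.b b0_4)) (BTr.n (BTr.b b0_5) (BTr.b b0_6))))
namespace T0
def l0 : Tr := Tr.L (Pth.l (Pth.l Pth.z))
def l1 : Tr := Tr.L (Pth.l (Pth.r (Pth.l Pth.z)))
def l2 : Tr := Tr.L (Pth.l (Pth.r (Pth.r Pth.z)))
def l3 : Tr := Tr.L (Pth.r (Pth.l (Pth.l Pth.z)))
def l4 : Tr := Tr.L (Pth.r (Pth.l (Pth.r Pth.z)))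
def l5 : Tr := Tr.L (Pth.r (Pth.r (Pth.l Pth.z)))
def l6 : Tr := Tr.L (Pth.r (Pth.r (Pth.r Pth.z)))
end T0
def b1_0 : Bx := Bx.mk (St.mk (I.pos (nat_lit 148258816) (nat_lit 260521984)) (I.mix (nat_lit 39534592) (nat_lit 72990720)) (I.mix (nat_lit 103858176) (nat_lit 109002752)) (I.pos (nat_lit 187695104) (nat_lit 369033216)) (I.mix (nat_lit 152289280) (nat_lit 120766464)) (I.mix (nat_lit 152141824) (nat_lit 133431296)) (I.mix (nat_lit 253755392) (nat_lit 260947968)))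
  false (nat_lit 0)
def b1_1 : Bx := Bx.mk (St.mk (I.pos (nat_lit 79790080) (nat_lit 157220864)) (I.mix (nat_lit 84885504) (nat_lit 4554752)) (I.mix (nat_lit 75710464) (nat_lit 11026432)) (I.pos (nat_lit 130170880) (nat_lit 187842560)) (I.mix (nat_lit 127746048) (nat_lit 80625664)) (I.mix (nat_lit 83640320) (nat_lit 119832576)) (I.mix (nat_lit 66699264) (nat_lit 94257152)))
  false (nat_lit 0)
def b1_2 : Bx := Bx.mk (St.mk (I.mix (nat_lit 30834688) (nat_lit 95338496)) (I.mix (nat_lit 14811136) (nat_lit 49266688)) (I.mix (nat_lit 18464768) (nat_lit 21823488)) (I.pos (nat_lit 82345984) (nat_lit 125583360)) (I.mix (nat_lit 64110592) (nat_lit 57851904)) (I.mix (nat_lit 69320704) (nat_lit 55771136)) (I.mix (nat_lit 44498944) (nat_lit 35651584)))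
  false (nat_lit 0)
def b1_3 : Bx := Bx.mk (St.mk (I.mix (nat_lit 31703040) (nat_lit 39927808)) (I.mix (nat_lit 39616512) (nat_lit 8126464)) (I.mix (nat_lit 13402112) (nat_lit 2654208)) (I.pos (nat_lit 82509824) (nat_lit 102744064)) (I.mix (nat_lit 44253184) (nat_lit 44220416)) (I.mix (nat_lit 40239104) (nat_lit 49692672)) (I.mix (nat_lit 16973824) (nat_lit 18481152)))
  false (nat_lit 0)
def b1_4 : Bx := Bx.mk (St.mk (I.pos (nat_lit 137248768) (nat_lit 211714048)) (I.mix (nat_lit 48676864) (nat_lit 81100800)) (I.mix (nat_lit 43679744) (nat_lit 112869376)) (I.pos (nat_lit 168738816) (nat_lit 257392640)) (I.mix (nat_lit 188956672) (nat_lit 91947008)) (I.mix (nat_lit 246661120) (nat_lit 163758080)) (I.mix (nat_lit 270860288) (nat_lit 161742848)))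
  false (nat_lit 0)
def b1_5 : Bx := Bx.mk (St.mk (I.pos (nat_lit 80560128) (nat_lit 126582784)) (I.mix (nat_lit 72990720) (nat_lit 15925248)) (I.mix (nat_lit 59736064) (nat_lit 884736)) (I.pos (nat_lit 116424704) (nat_lit 151748608)) (I.mix (nat_lit 122028032) (nat_lit 58064896)) (I.mix (nat_lit 89964544) (nat_lit 140918784)) (I.mix (nat_lit 64978944) (nat_lit 95404032)))
  false (nat_lit 0)
def b1_6 : Bx := Bx.mk (St.mk (I.mix (nat_lit 47988736) (nat_lit 74448896)) (I.mix (nat_lit 14336000) (nat_lit 38928384)) (I.mix (nat_lit 13303808) (nat_lit 14319616)) (I.pos (nat_lit 82542592) (nat_lit 112328704)) (I.mix (nat_lit 44204032) (nat_lit 44122112)) (I.mix (nat_lit 50315264) (nat_lit 40173568)) (I.mix (nat_lit 17186816) (nat_lit 18464768)))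
  false (nat_lit 0)
def b1_7 : Bx := Bx.mk (St.mk (I.mix (nat_lit 40501248) (nat_lit 30785536)) (I.mix (nat_lit 40681472) (nat_lit 5898240)) (I.mix (nat_lit 9469952) (nat_lit 4882432)) (I.pos (nat_lit 82821120) (nat_lit 102711296)) (I.mix (nat_lit 46727168) (nat_lit 40157184)) (I.mix (nat_lit 40435712) (nat_lit 50282496)) (I.mix (nat_lit 19709952) (nat_lit 14925824)))
  false (nat_lit 0)
def b1_8 : Bx := Bx.mk (St.mk (I.pos (nat_lit 70041600) (nat_lit 91357184)) (I.mix (nat_lit 14008320) (nat_lit 14467072)) (I.mix (nat_lit 17973248) (nat_lit 262144)) (I.pos (nat_lit 110428160) (nat_lit 124190720)) (I.mix (nat_lit 30932992) (nat_lit 18268160)) (I.mix (nat_lit 20201472) (nat_lit 21528576)) (I.mix (nat_lit 13697024) (nat_lit 14467072)))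
  false (nat_lit 0)
def b1_9 : Bx := Bx.mk (St.mk (I.mix (nat_lit 57049088) (nat_lit 53248000)) (I.mix (nat_lit 14106624) (nat_lit 14729216)) (I.mix (nat_lit 4636672) (nat_lit 4046848)) (I.pos (nat_lit 89096192) (nat_lit 103563264)) (I.mix (nat_lit 32047104) (nat_lit 21200896)) (I.mix (nat_lit 30588928) (nat_lit 30785536)) (I.mix (nat_lit 11223040) (nat_lit 11321344)))
  false (nat_lit 0)
def b1_10 : Bx := Bx.mk (St.mk (I.mix (nat_lit 55656448) (nat_lit 6848512)) (I.mix (nat_lit 12058624) (nat_lit 13058048)) (I.neg (nat_lit 3162112) (nat_lit 12238848)) (I.pos (nat_lit 90062848) (nat_lit 103530496)) (I.mix (nat_lit 32980992) (nat_lit 22937600)) (I.mix (nat_lit 30867456) (nat_lit 32964608)) (I.mix (nat_lit 13238272) (nat_lit 11403264)))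
  false (nat_lit 0)
def b1_11 : Bx := Bx.mk (St.mk (I.pos (nat_lit 130269184) (nat_lit 154009600)) (I.neg (nat_lit 2605056) (nat_lit 33406976)) (I.mix (nat_lit 26279936) (nat_lit 8306688)) (I.pos (nat_lit 161710080) (nat_lit 184238080)) (I.mix (nat_lit 40730624) (nat_lit 7176192)) (I.mix (nat_lit 17809408) (nat_lit 25214976)) (I.mix (nat_lit 20578304) (nat_lit 24379392)))
  false (nat_lit 0)
def t1 : BTr := (BTr.n (BTr.n (BTr.n (BTr.b b1_0) (BTr.n (BTr.b b1_1) (BTr.b b1_2))) (BTr.n (BTr.b b1_3) (BTr.n (BTr.b b1_4) (BTr.b b1_5)))) (BTr.n (BTr.n (BTr.b b1_6) (BTr.n (BTr.b b1_7) (BTr.b b1_8))) (BTr.n (BTr.b b1_9) (BTr.n (BTr.b b1_10) (BTr.b b1_11)))))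
namespace T1
def l0 : Tr := Tr.L (Pth.l (Pth.l (Pth.l Pth.z)))
def l1 : Tr := Tr.L (Pth.l (Pth.l (Pth.r (Pth.l Pth.z))))
def l2 : Tr := Tr.L (Pth.l (Pth.l (Pth.r (Pth.r Pth.z))))
def l3 : Tr := Tr.L (Pth.l (Pth.r (Pth.l Pth.z)))
def l4 : Tr := Tr.L (Pth.l (Pth.r (Pth.r (Pth.l Pth.z))))
def l5 : Tr := Tr.L (Pth.l (Pth.r (Pth.r (Pth.r Pth.z))))
def l6 : Tr := Tr.L (Pth.r (Pth.l (Pth.l Pth.z)))
def l7 : Tr := Tr.L (Pth.r (Pth.l (Pth.r (Pth.l Pth.z))))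
def l8 : Tr := Tr.L (Pth.r (Pth.l (Pth.r (Pth.r Pth.z))))
def l9 : Tr := Tr.L (Pth.r (Pth.r (Pth.l Pth.z)))
def l10 : Tr := Tr.L (Pth.r (Pth.r (Pth.r (Pth.l Pth.z))))
def l11 : Tr := Tr.L (Pth.r (Pth.r (Pth.r (Pth.r Pth.z))))
end T1
def b2_0 : Bx := Bx.mk (St.mk (I.pos (nat_lit 116899840) (nat_lit 289619968)) (I.mix (nat_lit 45891584) (nat_lit 99139584)) (I.mix (nat_lit 132169728) (nat_lit 149061632)) (I.pos (nat_lit 351780864) (nat_lit 601423872)) (I.mix (nat_lit 201883648) (nat_lit 145604608)) (I.mix (nat_lit 206225408) (nat_lit 147324928)) (I.mix (nat_lit 304676864) (nat_lit 211091456)))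
  false (nat_lit 67731168)
def b2_1 : Bx := Bx.mk (St.mk (I.pos (nat_lit 32587776) (nat_lit 122126336)) (I.mix (nat_lit 109281280) (nat_lit 12582912)) (I.mix (nat_lit 56573952) (nat_lit 53166080)) (I.pos (nat_lit 273727488) (nat_lit 331153408)) (I.mix (nat_lit 130007040) (nat_lit 120193024)) (I.mix (nat_lit 136986624) (nat_lit 145408000)) (I.mix (nat_lit 115998720) (nat_lit 120799232)))
  false (nat_lit 70316835)
def b2_2 : Bx := Bx.mk (St.mk (I.pos (nat_lit 101777408) (nat_lit 184090624)) (I.mix (nat_lit 50610176) (nat_lit 107773952)) (I.mix (nat_lit 6504448) (nat_lit 154157056)) (I.pos (nat_lit 312246272) (nat_lit 408027136)) (I.mix (nat_lit 232407040) (nat_lit 106872832)) (I.mix (nat_lit 242827264) (nat_lit 191168512)) (I.mix (nat_lit 257081344) (nat_lit 235110400)))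
  false (nat_lit 68417512)
def b2_3 : Bx := Bx.mk (St.mk (I.neg (nat_lit 32620544) (nat_lit 114982912)) (I.mix (nat_lit 3522560) (nat_lit 109248512)) (I.mix (nat_lit 56557568) (nat_lit 43761664)) (I.pos (nat_lit 273678336) (nat_lit 326778880)) (I.mix (nat_lit 120193024) (nat_lit 130023424)) (I.mix (nat_lit 145424384) (nat_lit 136986624)) (I.mix (nat_lit 115998720) (nat_lit 120799232)))
  true (nat_lit 0)
def b2_4 : Bx := Bx.mk (St.mk (I.pos (nat_lit 87556096) (nat_lit 112263168)) (I.mix (nat_lit 28753920) (nat_lit 1835008)) (I.pos (nat_lit 13680640) (nat_lit 42254336)) (I.pos (nat_lit 302579712) (nat_lit 326008832)) (I.mix (nat_lit 52297728) (nat_lit 14368768)) (I.mix (nat_lit 33423360) (nat_lit 34996224)) (I.mix (nat_lit 35389440) (nat_lit 29016064)))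
  false (nat_lit 0)
def b2_5 : Bx := Bx.mk (St.mk (I.mix (nat_lit 71319552) (nat_lit 18726912)) (I.mix (nat_lit 18595840) (nat_lit 104071168)) (I.neg (nat_lit 12484608) (nat_lit 34390016)) (I.pos (nat_lit 271237120) (nat_lit 300466176)) (I.mix (nat_lit 87654400) (nat_lit 118194176)) (I.mix (nat_lit 145801216) (nat_lit 116686848)) (I.mix (nat_lit 51462144) (nat_lit 41172992)))
  true (nat_lit 0)
def b2_6 : Bx := Bx.mk (St.mk (I.mix (nat_lit 18677760) (nat_lit 71729152)) (I.mix (nat_lit 104087552) (nat_lit 21790720)) (I.neg (nat_lit 12484608) (nat_lit 34390016)) (I.pos (nat_lit 271237120) (nat_lit 300335104)) (I.mix (nat_lit 118194176) (nat_lit 87654400)) (I.mix (nat_lit 116686848) (nat_lit 145817600)) (I.mix (nat_lit 51462144) (nat_lit 41172992)))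
  false (nat_lit 57066527)
def t2 : BTr := (BTr.n (BTr.n (BTr.b b2_0) (BTr.n (BTr.b b2_1) (BTr.b b2_2))) (BTr.n (BTr.n (BTr.b b2_3) (BTr.b b2_4)) (BTr.n (BTr.b b2_5) (BTr.b b2_6))))
namespace T2
def l0 : Tr := Tr.L (Pth.l (Pth.l Pth.z))
def l1 : Tr := Tr.L (Pth.l (Pth.r (Pth.l Pth.z)))
def l2 : Tr := Tr.L (Pth.l (Pth.r (Pth.r Pth.z)))
def l3 : Tr := Tr.L (Pth.r (Pth.l (Pth.l Pth.z)))
def l4 : Tr := Tr.L (Pth.r (Pth.l (Pth.r Pth.z)))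
def l5 : Tr := Tr.L (Pth.r (Pth.r (Pth.l Pth.z)))
def l6 : Tr := Tr.L (Pth.r (Pth.r (Pth.r Pth.z)))
end T2
theorem bx0_0 : BoxOK sI cl4 cl4 cl6 t0 t2 b0_0 :=
  box_mk (TrL.c (I.pos (nat_lit 0) (nat_lit 0)) (xa (xb T0.l0 (xa T0.l0 T0.l0)) (xb T0.l0 (xa T0.l0 T0.l0)))
  (TrL.c (I.pos (nat_lit 0) (nat_lit 0)) (xa T2.l1 T2.l1)
  (TrL.c (I.pos (nat_lit 0) (nat_lit 0)) T0.l1
  (TrL.c (I.pos (nat_lit 0) (nat_lit 0)) (xa T2.l2 (xb (xs T2.l2 (xa T2.l2 T2.l2)) (xs T2.l2 (xa T2.l2 (xb T2.l2 T2.l2)))))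
  (TrL.c (I.pos (nat_lit 0) (nat_lit 0)) T0.l2
  (TrL.c (I.pos (nat_lit 0) (nat_lit 0)) (xa T2.l3 T2.l3)
  TrL.n)))))) (by decide +kernel)
theorem bx0_1 : BoxOK sI cl4 cl4 cl6 t0 t2 b0_1 :=
  box_mk (TrL.c (I.pos (nat_lit 0) (nat_lit 0)) T2.l1
  (TrL.c (I.pos (nat_lit 0) (nat_lit 0)) T0.l1
  TrL.n)) (by decide +kernel)
theorem bx0_2 : BoxOK sI cl4 cl4 cl6 t0 t2 b0_2 :=
  box_mk (TrL.c (I.pos (nat_lit 0) (nat_lit 0)) (xb (xa (xs (xb (xa T0.l0 T0.l0) T0.l0) T0.l0) T0.l0) (xa (xb T0.l0 T0.l0) T0.l0))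
  (TrL.c (I.pos (nat_lit 0) (nat_lit 0)) T2.l1
  (TrL.c (I.pos (nat_lit 0) (nat_lit 0)) T0.l1
  (TrL.c (I.pos (nat_lit 0) (nat_lit 0)) T2.l2
  (TrL.c (I.pos (nat_lit 0) (nat_lit 0)) T0.l2
  (TrL.c (I.pos (nat_lit 0) (nat_lit 0)) T2.l3
  TrL.n)))))) (by decide +kernel)
theorem bx0_3 : BoxOK sI cl4 cl4 cl6 t0 t2 b0_3 :=
  box_mk (TrL.c (I.pos (nat_lit 0) (nat_lit 0)) T2.l1
  (TrL.c (I.pos (nat_lit 0) (nat_lit 0)) T0.l3
  TrL.n)) (by decide +kernel)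
theorem bx0_4 : BoxOK sI cl4 cl4 cl6 t0 t2 b0_4 :=
  box_mk (TrL.c (I.pos (nat_lit 0) (nat_lit 0)) (xa (xb (xa (xs T0.l0 T0.l0) T0.l0) T0.l0) T0.l0)
  (TrL.c (I.pos (nat_lit 0) (nat_lit 0)) T2.l1
  (TrL.c (I.pos (nat_lit 0) (nat_lit 0)) T0.l1
  (TrL.c (I.pos (nat_lit 0) (nat_lit 0)) T2.l2
  (TrL.c (I.pos (nat_lit 0) (nat_lit 0)) T0.l2
  (TrL.c (I.pos (nat_lit 0) (nat_lit 0)) T2.l3
  TrL.n)))))) (by decide +kernel)
theorem bx0_5 : BoxOK sI cl4 cl4 cl6 t0 t2 b0_5 :=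
  box_mk (TrL.c (I.pos (nat_lit 0) (nat_lit 0)) (xa (xb (xa (xb T0.l0 T0.l0) T0.l0) (xa (xb T0.l0 T0.l0) T0.l0)) (xb T0.l0 (xa T0.l0 T0.l0)))
  (TrL.c (I.pos (nat_lit 0) (nat_lit 0)) T2.l1
  (TrL.c (I.pos (nat_lit 0) (nat_lit 0)) T0.l1
  (TrL.c (I.pos (nat_lit 0) (nat_lit 0)) (xb (xa T2.l2 T2.l2) T2.l2)
  (TrL.c (I.pos (nat_lit 0) (nat_lit 0)) T0.l2
  (TrL.c (I.pos (nat_lit 0) (nat_lit 0)) T2.l3
  TrL.n)))))) (by decide +kernel)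
theorem bx0_6 : BoxOK sI cl4 cl4 cl6 t0 t2 b0_6 :=
  box_mk (TrL.c (I.pos (nat_lit 0) (nat_lit 0)) T2.l1
  (TrL.c (I.pos (nat_lit 0) (nat_lit 0)) T0.l1
  TrL.n)) (by decide +kernel)
theorem sv0 : StarV sI cl4 cl4 cl6 t0 t2 t0 :=
  (bt_n (bt_n (bt_b bx0_0) (bt_n (bt_b bx0_1) (bt_b bx0_2))) (bt_n (bt_n (bt_b bx0_3) (bt_b bx0_4)) (bt_n (bt_b bx0_5) (bt_b bx0_6))))
def S0 : StarD := StarD.mk cl4 cl4 cl6 0 2 t0
theorem bx1_0 : BoxOK sI cl4 cl6 cl4 t2 t0 b1_0 :=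
  box_mk (TrL.c (I.pos (nat_lit 0) (nat_lit 0)) (xa (xb T2.l0 (xa T2.l0 T2.l0)) (xb T2.l0 (xa T2.l0 T2.l0)))
  (TrL.c (I.pos (nat_lit 0) (nat_lit 0)) (xa T0.l4 T0.l4)
  (TrL.c (I.pos (nat_lit 0) (nat_lit 0)) T2.l5
  (TrL.c (I.pos (nat_lit 0) (nat_lit 0)) (xa T0.l5 (xb (xa T0.l5 T0.l5) (xa T0.l5 T0.l5)))
  (TrL.c (I.pos (nat_lit 0) (nat_lit 0)) T2.l6
  (TrL.c (I.pos (nat_lit 0) (nat_lit 0)) (xa T0.l6 T0.l6)
  TrL.n)))))) (by decide +kernel)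
theorem bx1_1 : BoxOK sI cl4 cl6 cl4 t2 t0 b1_1 :=
  box_mk (TrL.c (I.pos (nat_lit 0) (nat_lit 0)) T2.l0
  (TrL.c (I.pos (nat_lit 0) (nat_lit 0)) T0.l4
  (TrL.c (I.pos (nat_lit 0) (nat_lit 0)) T2.l5
  (TrL.c (I.pos (nat_lit 0) (nat_lit 0)) T0.l5
  (TrL.c (I.pos (nat_lit 0) (nat_lit 0)) T2.l6
  (TrL.c (I.pos (nat_lit 0) (nat_lit 0)) T0.l6
  TrL.n)))))) (by decide +kernel)
theorem bx1_2 : BoxOK sI cl4 cl6 cl4 t2 t0 b1_2 :=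
  box_mk (TrL.c (I.pos (nat_lit 0) (nat_lit 0)) T2.l0
  (TrL.c (I.pos (nat_lit 0) (nat_lit 0)) T0.l4
  (TrL.c (I.pos (nat_lit 0) (nat_lit 0)) T2.l5
  (TrL.c (I.pos (nat_lit 0) (nat_lit 0)) T0.l5
  (TrL.c (I.pos (nat_lit 0) (nat_lit 0)) T2.l6
  (TrL.c (I.pos (nat_lit 0) (nat_lit 0)) T0.l6
  TrL.n)))))) (by decide +kernel)
theorem bx1_3 : BoxOK sI cl4 cl6 cl4 t2 t0 b1_3 :=
  box_mk (TrL.c (I.pos (nat_lit 0) (nat_lit 0)) T2.l0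
  (TrL.c (I.pos (nat_lit 0) (nat_lit 0)) T0.l4
  (TrL.c (I.pos (nat_lit 0) (nat_lit 0)) T2.l5
  (TrL.c (I.pos (nat_lit 0) (nat_lit 0)) T0.l5
  (TrL.c (I.pos (nat_lit 0) (nat_lit 0)) T2.l6
  (TrL.c (I.pos (nat_lit 0) (nat_lit 0)) T0.l6
  TrL.n)))))) (by decide +kernel)
theorem bx1_4 : BoxOK sI cl4 cl6 cl4 t2 t0 b1_4 :=
  box_mk (TrL.c (I.pos (nat_lit 0) (nat_lit 0)) (xb (xa (xb T2.l0 T2.l0) (xb T2.l0 T2.l0)) (xa (xs T2.l0 (xb T2.l0 T2.l0)) (xs T2.l0 (xb T2.l0 T2.l0))))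
  (TrL.c (I.pos (nat_lit 0) (nat_lit 0)) T0.l4
  (TrL.c (I.pos (nat_lit 0) (nat_lit 0)) T2.l5
  (TrL.c (I.pos (nat_lit 0) (nat_lit 0)) (xb T0.l5 T0.l5)
  (TrL.c (I.pos (nat_lit 0) (nat_lit 0)) T2.l6
  (TrL.c (I.pos (nat_lit 0) (nat_lit 0)) T0.l6
  TrL.n)))))) (by decide +kernel)
theorem bx1_5 : BoxOK sI cl4 cl6 cl4 t2 t0 b1_5 :=
  box_mk (TrL.c (I.pos (nat_lit 0) (nat_lit 0)) T2.l0
  (TrL.c (I.pos (nat_lit 0) (nat_lit 0)) T0.l4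
  (TrL.c (I.pos (nat_lit 0) (nat_lit 0)) T2.l5
  (TrL.c (I.pos (nat_lit 0) (nat_lit 0)) T0.l5
  (TrL.c (I.pos (nat_lit 0) (nat_lit 0)) T2.l6
  (TrL.c (I.pos (nat_lit 0) (nat_lit 0)) T0.l6
  TrL.n)))))) (by decide +kernel)
theorem bx1_6 : BoxOK sI cl4 cl6 cl4 t2 t0 b1_6 :=
  box_mk (TrL.c (I.pos (nat_lit 0) (nat_lit 0)) (xa (xa (xb T2.l0 (xa T2.l0 T2.l0)) T2.l0) T2.l0)
  (TrL.c (I.pos (nat_lit 0) (nat_lit 0)) T0.l4
  (TrL.c (I.pos (nat_lit 0) (nat_lit 0)) T2.l5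
  (TrL.c (I.pos (nat_lit 0) (nat_lit 0)) T0.l5
  (TrL.c (I.pos (nat_lit 0) (nat_lit 0)) T2.l6
  (TrL.c (I.pos (nat_lit 0) (nat_lit 0)) T0.l6
  TrL.n)))))) (by decide +kernel)
theorem bx1_7 : BoxOK sI cl4 cl6 cl4 t2 t0 b1_7 :=
  box_mk (TrL.c (I.pos (nat_lit 0) (nat_lit 0)) (xa (xb T2.l0 T2.l0) T2.l0)
  (TrL.c (I.pos (nat_lit 0) (nat_lit 0)) T0.l5
  (TrL.c (I.pos (nat_lit 0) (nat_lit 0)) T2.l6
  (TrL.c (I.pos (nat_lit 0) (nat_lit 0)) T0.l4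
  (TrL.c (I.pos (nat_lit 0) (nat_lit 0)) T2.l6
  (TrL.c (I.pos (nat_lit 0) (nat_lit 0)) T0.l6
  TrL.n)))))) (by decide +kernel)
theorem bx1_8 : BoxOK sI cl4 cl6 cl4 t2 t0 b1_8 :=
  box_mk (TrL.c (I.pos (nat_lit 0) (nat_lit 0)) T2.l0
  (TrL.c (I.pos (nat_lit 0) (nat_lit 0)) T0.l4
  (TrL.c (I.pos (nat_lit 0) (nat_lit 0)) T2.l5
  (TrL.c (I.pos (nat_lit 0) (nat_lit 0)) T0.l5
  (TrL.c (I.pos (nat_lit 0) (nat_lit 0)) T2.l6
  (TrL.c (I.pos (nat_lit 0) (nat_lit 0)) T0.l6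
  TrL.n)))))) (by decide +kernel)
theorem bx1_9 : BoxOK sI cl4 cl6 cl4 t2 t0 b1_9 :=
  box_mk (TrL.c (I.pos (nat_lit 0) (nat_lit 0)) (xa (xa T2.l0 T2.l0) T2.l0)
  (TrL.c (I.pos (nat_lit 0) (nat_lit 0)) T0.l4
  (TrL.c (I.pos (nat_lit 0) (nat_lit 0)) T2.l6
  (TrL.c (I.pos (nat_lit 0) (nat_lit 0)) T0.l5
  (TrL.c (I.pos (nat_lit 0) (nat_lit 0)) T2.l6
  (TrL.c (I.pos (nat_lit 0) (nat_lit 0)) T0.l6
  TrL.n)))))) (by decide +kernel)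
theorem bx1_10 : BoxOK sI cl4 cl6 cl4 t2 t0 b1_10 :=
  box_mk (TrL.c (I.pos (nat_lit 0) (nat_lit 0)) T2.l0
  (TrL.c (I.pos (nat_lit 0) (nat_lit 0)) T0.l4
  (TrL.c (I.pos (nat_lit 0) (nat_lit 0)) T2.l5
  (TrL.c (I.pos (nat_lit 0) (nat_lit 0)) T0.l5
  (TrL.c (I.pos (nat_lit 0) (nat_lit 0)) T2.l6
  (TrL.c (I.pos (nat_lit 0) (nat_lit 0)) T0.l6
  TrL.n)))))) (by decide +kernel)
theorem bx1_11 : BoxOK sI cl4 cl6 cl4 t2 t0 b1_11 :=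
  box_mk (TrL.c (I.pos (nat_lit 0) (nat_lit 0)) T2.l0
  (TrL.c (I.pos (nat_lit 0) (nat_lit 0)) T0.l4
  (TrL.c (I.pos (nat_lit 0) (nat_lit 0)) T2.l5
  (TrL.c (I.pos (nat_lit 0) (nat_lit 0)) T0.l5
  (TrL.c (I.pos (nat_lit 0) (nat_lit 0)) T2.l6
  (TrL.c (I.pos (nat_lit 0) (nat_lit 0)) T0.l6
  TrL.n)))))) (by decide +kernel)
theorem sv1 : StarV sI cl4 cl6 cl4 t2 t0 t1 :=
  (bt_n (bt_n (bt_n (bt_b bx1_0) (bt_n (bt_b bx1_1) (bt_b bx1_2))) (bt_n (bt_b bx1_3) (bt_n (bt_b bx1_4) (bt_b bx1_5)))) (bt_n (bt_n (bt_b bx1_6) (bt_n (bt_b bx1_7) (bt_b bx1_8))) (bt_n (bt_b bx1_9) (bt_n (bt_b bx1_10) (bt_b bx1_11)))))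
def S1 : StarD := StarD.mk cl4 cl6 cl4 2 0 t1
theorem bx2_0 : BoxOK sI cl6 cl4 cl4 t1 t1 b2_0 :=
  box_mk (TrL.c (I.pos (nat_lit 0) (nat_lit 0)) (xa (xb (xa T1.l0 T1.l0) (xa (xs T1.l0 (xb T1.l0 T1.l0)) T1.l0)) (xa (xb T1.l0 T1.l0) (xb T1.l0 T1.l4)))
  (TrL.c (I.pos (nat_lit 0) (nat_lit 0)) T1.l1
  (TrL.c (I.pos (nat_lit 0) (nat_lit 89480386)) (xR T1.l2 T1.l2)
  (TrL.c (I.pos (nat_lit 0) (nat_lit 41530880)) T1.l3
  (TrL.c (I.pos (nat_lit 0) (nat_lit 0)) (xa T1.l4 (xb T1.l4 (xa T1.l4 (xs T1.l4 (xb T1.l4 (xa T1.l4 (xs T1.l4 (xb T1.l4 (xs T1.l4 T1.l4)))))))))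
  (TrL.c (I.pos (nat_lit 0) (nat_lit 0)) T1.l5
  (TrL.c (I.mix (nat_lit 41527258) (nat_lit 41530880)) (xR T1.l6 T1.l2)
  (TrL.c (I.mix (nat_lit 41527258) (nat_lit 4274)) T1.l7
  TrL.n)))))))) (by decide +kernel)
theorem bx2_1 : BoxOK sI cl6 cl4 cl4 t1 t1 b2_1 :=
  box_mk (TrL.c (I.pos (nat_lit 0) (nat_lit 0)) (xa T1.l0 T1.l0)
  (TrL.c (I.pos (nat_lit 0) (nat_lit 0)) T1.l1
  (TrL.c (I.pos (nat_lit 0) (nat_lit 89480386)) T1.l2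
  (TrL.c (I.pos (nat_lit 0) (nat_lit 41530880)) T1.l3
  (TrL.c (I.pos (nat_lit 0) (nat_lit 0)) T1.l4
  (TrL.c (I.pos (nat_lit 0) (nat_lit 0)) T1.l5
  (TrL.c (I.mix (nat_lit 41527258) (nat_lit 41530880)) T1.l6
  (TrL.c (I.mix (nat_lit 41527258) (nat_lit 4274)) T1.l6
  TrL.n)))))))) (by decide +kernel)
theorem bx2_2 : BoxOK sI cl6 cl4 cl4 t1 t1 b2_2 :=
  box_mk (TrL.c (I.pos (nat_lit 0) (nat_lit 0)) (xb (xa T1.l0 T1.l0) (xa (xs T1.l0 (xb T1.l0 T1.l0)) T1.l0))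
  (TrL.c (I.pos (nat_lit 0) (nat_lit 0)) T1.l1
  (TrL.c (I.pos (nat_lit 0) (nat_lit 89480386)) (xR T1.l2 T1.l2)
  (TrL.c (I.pos (nat_lit 0) (nat_lit 41530880)) T1.l3
  (TrL.c (I.pos (nat_lit 0) (nat_lit 0)) T1.l4
  (TrL.c (I.pos (nat_lit 0) (nat_lit 0)) T1.l5
  (TrL.c (I.mix (nat_lit 41527258) (nat_lit 41530880)) (xR T1.l6 T1.l2)
  (TrL.c (I.mix (nat_lit 41527258) (nat_lit 4274)) T1.l7
  TrL.n)))))))) (by decide +kernel)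
theorem bx2_3 : BoxOK sI cl6 cl4 cl4 t1 t1 b2_3 :=
  box_mk (TrL.c (I.pos (nat_lit 0) (nat_lit 0)) T1.l1
  (TrL.c (I.pos (nat_lit 0) (nat_lit 0)) T1.l2
  (TrL.c (I.mix (nat_lit 41527258) (nat_lit 41530880)) (xR T1.l9 T1.l2)
  (TrL.c (I.mix (nat_lit 41527258) (nat_lit 4274)) T1.l10
  TrL.n)))) (by decide +kernel)
theorem bx2_4 : BoxOK sI cl6 cl4 cl4 t1 t1 b2_4 :=
  box_mk (TrL.c (I.pos (nat_lit 0) (nat_lit 0)) T1.l0
  (TrL.c (I.pos (nat_lit 0) (nat_lit 0)) T1.l1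
  (TrL.c (I.pos (nat_lit 0) (nat_lit 89480386)) T1.l2
  (TrL.c (I.pos (nat_lit 0) (nat_lit 41530880)) T1.l3
  (TrL.c (I.pos (nat_lit 0) (nat_lit 0)) T1.l4
  (TrL.c (I.pos (nat_lit 0) (nat_lit 0)) T1.l5
  (TrL.c (I.mix (nat_lit 41527258) (nat_lit 41530880)) T1.l6
  (TrL.c (I.mix (nat_lit 41527258) (nat_lit 4274)) T1.l7
  TrL.n)))))))) (by decide +kernel)
theorem bx2_5 : BoxOK sI cl6 cl4 cl4 t1 t1 b2_5 :=
  box_mk (TrL.c (I.pos (nat_lit 0) (nat_lit 0)) T1.l1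
  (TrL.c (I.pos (nat_lit 0) (nat_lit 0)) T1.l2
  (TrL.c (I.mix (nat_lit 41527258) (nat_lit 41530880)) (xR T1.l9 T1.l2)
  (TrL.c (I.mix (nat_lit 41527258) (nat_lit 4274)) T1.l10
  TrL.n)))) (by decide +kernel)
theorem bx2_6 : BoxOK sI cl6 cl4 cl4 t1 t1 b2_6 :=
  box_mk (TrL.c (I.pos (nat_lit 0) (nat_lit 0)) (xb (xa (xa T1.l0 T1.l0) T1.l0) (xa T1.l0 T1.l0))
  (TrL.c (I.pos (nat_lit 0) (nat_lit 0)) T1.l1
  (TrL.c (I.pos (nat_lit 0) (nat_lit 89480386)) (xR T1.l2 T1.l2)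
  (TrL.c (I.pos (nat_lit 0) (nat_lit 41530880)) T1.l2
  (TrL.c (I.pos (nat_lit 0) (nat_lit 0)) T1.l4
  (TrL.c (I.pos (nat_lit 0) (nat_lit 0)) T1.l5
  (TrL.c (I.mix (nat_lit 41527258) (nat_lit 41530880)) (xR T1.l6 T1.l2)
  (TrL.c (I.mix (nat_lit 41527258) (nat_lit 4274)) T1.l6
  TrL.n)))))))) (by decide +kernel)
theorem sv2 : StarV sI cl6 cl4 cl4 t1 t1 t2 :=
  (bt_n (bt_n (bt_b bx2_0) (bt_n (bt_b bx2_1) (bt_b bx2_2))) (bt_n (bt_n (bt_b bx2_3) (bt_b bx2_4)) (bt_n (bt_b bx2_5) (bt_b bx2_6))))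
def S2 : StarD := StarD.mk cl6 cl4 cl4 1 1 t2
def G : List StarD := [S0, S1, S2]
theorem so0 : StarOK sI G S0 :=
  star_mk (by decide) (by decide) rfl rfl rfl rfl rfl rfl (rfl : _ = t0) (rfl : _ = t2)
  (st_mk (Pth.l (Pth.l Pth.z)) (nat_lit 383406438) (nat_lit 390586138) (by decide +kernel))
  (st_mk (Pth.l (Pth.l Pth.z)) (nat_lit 422202780) (nat_lit 431040434) (by decide +kernel))
  (st_mk (Pth.l (Pth.l Pth.z)) (nat_lit 467496115) (nat_lit 478527962) (by decide +kernel)) sv0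
theorem so1 : StarOK sI G S1 :=
  star_mk (by decide) (by decide) rfl rfl rfl rfl rfl rfl (rfl : _ = t2) (rfl : _ = t0)
  (st_mk (Pth.l (Pth.l (Pth.l Pth.z))) (nat_lit 193629797) (nat_lit 196497519) (by decide +kernel))
  (st_mk (Pth.l (Pth.l (Pth.l Pth.z))) (nat_lit 231782209) (nat_lit 235984893) (by decide +kernel))
  (st_mk (Pth.l (Pth.l (Pth.l Pth.z))) (nat_lit 276620308) (nat_lit 282775234) (by decide +kernel)) sv1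
theorem so2 : StarOK sI G S2 :=
  star_mk (by decide) (by decide) rfl rfl rfl rfl rfl rfl (rfl : _ = t1) (rfl : _ = t1)
  (st_mk (Pth.l (Pth.l Pth.z)) (nat_lit 374439370) (nat_lit 377872107) (by decide +kernel))
  (st_mk (Pth.l (Pth.l Pth.z)) (nat_lit 411270952) (nat_lit 415439187) (by decide +kernel))
  (st_mk (Pth.l (Pth.l Pth.z)) (nat_lit 454008918) (nat_lit 459128265) (by decide +kernel)) sv2
theorem ok : GroupOK (nat_lit 0) (nat_lit 91291648) G := grp_mk (allS_c so0 (allS_c so1 (allS_c so2 allS_n)))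
theorem cov : GCov G cl4 cl4 cl6 := cov_mk
  ⟨0, by decide, rfl, rfl, rfl⟩ ⟨1, by decide, rfl, rfl, rfl⟩ ⟨0, by decide, rfl, rfl, rfl⟩ ⟨1, by decide, rfl, rfl, rfl⟩ ⟨2, by decide, rfl, rfl, rfl⟩ ⟨2, by decide, rfl, rfl, rfl⟩
end Q113_0

namespace Q113_1
def sI : I := I.pos (nat_lit 91226112) (nat_lit 150339584)
def b0_0 : Bx := Bx.mk (St.mk (I.pos (nat_lit 143491072) (nat_lit 219070464)) (I.mix (nat_lit 5685248) (nat_lit 109805568)) (I.mix (nat_lit 31883264) (nat_lit 71024640)) (I.pos (nat_lit 383942656) (nat_lit 492879872)) (I.mix (nat_lit 162037760) (nat_lit 106315776)) (I.mix (nat_lit 117473280) (nat_lit 108969984)) (I.mix (nat_lit 166707200) (nat_lit 154124288)))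
  false (nat_lit 0)
def b0_1 : Bx := Bx.mk (St.mk (I.mix (nat_lit 52641792) (nat_lit 6569984)) (I.mix (nat_lit 21299200) (nat_lit 92700672)) (I.neg (nat_lit 67338240) (nat_lit 92569600)) (I.pos (nat_lit 267485184) (nat_lit 296583168)) (I.mix (nat_lit 71286784) (nat_lit 141246464)) (I.mix (nat_lit 114769920) (nat_lit 99467264)) (I.mix (nat_lit 63012864) (nat_lit 51953664)))
  true (nat_lit 0)
def b0_2 : Bx := Bx.mk (St.mk (I.pos (nat_lit 3489792) (nat_lit 51855360)) (I.neg (nat_lit 24313856) (nat_lit 92454912)) (I.neg (nat_lit 67338240) (nat_lit 92569600)) (I.pos (nat_lit 270925824) (nat_lit 296648704)) (I.mix (nat_lit 141246464) (nat_lit 70041600)) (I.mix (nat_lit 99467264) (nat_lit 116064256)) (I.mix (nat_lit 63012864) (nat_lit 51953664)))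
  false (nat_lit 0)
def b0_3 : Bx := Bx.mk (St.mk (I.mix (nat_lit 37994496) (nat_lit 7143424)) (I.mix (nat_lit 22528000) (nat_lit 41533440)) (I.neg (nat_lit 69648384) (nat_lit 81920000)) (I.pos (nat_lit 268861440) (nat_lit 283951104)) (I.mix (nat_lit 71925760) (nat_lit 62193664)) (I.mix (nat_lit 64012288) (nat_lit 63176704)) (I.mix (nat_lit 20201472) (nat_lit 24543232)))
  true (nat_lit 0)
def b0_4 : Bx := Bx.mk (St.mk (I.pos (nat_lit 200605696) (nat_lit 251576320)) (I.mix (nat_lit 27410432) (nat_lit 24723456)) (I.neg (nat_lit 88375296) (nat_lit 187187200)) (I.pos (nat_lit 446709760) (nat_lit 538181632)) (I.mix (nat_lit 145620992) (nat_lit 72761344)) (I.mix (nat_lit 99368960) (nat_lit 106299392)) (I.mix (nat_lit 189415424) (nat_lit 233390080)))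
  false (nat_lit 0)
def b0_5 : Bx := Bx.mk (St.mk (I.mix (nat_lit 4669440) (nat_lit 22380544)) (I.mix (nat_lit 17022976) (nat_lit 18071552)) (I.neg (nat_lit 70172672) (nat_lit 76513280)) (I.pos (nat_lit 269123584) (nat_lit 279527424)) (I.mix (nat_lit 42336256) (nat_lit 63750144)) (I.mix (nat_lit 46268416) (nat_lit 52854784)) (I.mix (nat_lit 6881280) (nat_lit 14401536)))
  false (nat_lit 0)
def b0_6 : Bx := Bx.mk (St.mk (I.pos (nat_lit 9879552) (nat_lit 129171456)) (I.neg (nat_lit 4079616) (nat_lit 88522752)) (I.neg (nat_lit 27181056) (nat_lit 103645184)) (I.pos (nat_lit 266829824) (nat_lit 344162304)) (I.mix (nat_lit 129024000) (nat_lit 86016000)) (I.mix (nat_lit 81068032) (nat_lit 103219200)) (I.mix (nat_lit 94371840) (nat_lit 93306880)))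
  false (nat_lit 0)
def b0_7 : Bx := Bx.mk (St.mk (I.pos (nat_lit 74891264) (nat_lit 184582144)) (I.mix (nat_lit 41975808) (nat_lit 88326144)) (I.mix (nat_lit 62472192) (nat_lit 58671104)) (I.pos (nat_lit 294289408) (nat_lit 434880512)) (I.mix (nat_lit 160268288) (nat_lit 86425600)) (I.mix (nat_lit 155500544) (nat_lit 117899264)) (I.mix (nat_lit 156024832) (nat_lit 137560064)))
  false (nat_lit 0)
def b0_8 : Bx := Bx.mk (St.mk (I.neg (nat_lit 9863168) (nat_lit 129597440)) (I.mix (nat_lit 4046848) (nat_lit 88522752)) (I.neg (nat_lit 21364736) (nat_lit 103710720)) (I.pos (nat_lit 266813440) (nat_lit 346767360)) (I.mix (nat_lit 86032384) (nat_lit 129040384)) (I.mix (nat_lit 103235584) (nat_lit 81068032)) (I.mix (nat_lit 94388224) (nat_lit 93306880)))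
  true (nat_lit 0)
def b0_9 : Bx := Bx.mk (St.mk (I.pos (nat_lit 167755776) (nat_lit 244531200)) (I.mix (nat_lit 26345472) (nat_lit 96763904)) (I.mix (nat_lit 181043200) (nat_lit 43089920)) (I.pos (nat_lit 416120832) (nat_lit 519880704)) (I.mix (nat_lit 145473536) (nat_lit 125157376)) (I.mix (nat_lit 129974272) (nat_lit 120176640)) (I.mix (nat_lit 242450432) (nat_lit 247185408)))
  false (nat_lit 0)
def b0_10 : Bx := Bx.mk (St.mk (I.mix (nat_lit 4653056) (nat_lit 40255488)) (I.mix (nat_lit 71335936) (nat_lit 18743296)) (I.neg (nat_lit 69156864) (nat_lit 88326144)) (I.pos (nat_lit 268206080) (nat_lit 288047104)) (I.mix (nat_lit 121274368) (nat_lit 71385088)) (I.mix (nat_lit 70402048) (nat_lit 107708416)) (I.mix (nat_lit 35553280) (nat_lit 32849920)))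
  false (nat_lit 0)
def t0 : BTr := (BTr.n (BTr.n (BTr.n (BTr.b b0_0) (BTr.b b0_1)) (BTr.n (BTr.b b0_2) (BTr.n (BTr.b b0_3) (BTr.b b0_4)))) (BTr.n (BTr.n (BTr.b b0_5) (BTr.n (BTr.b b0_6) (BTr.b b0_7))) (BTr.n (BTr.b b0_8) (BTr.n (BTr.b b0_9) (BTr.b b0_10)))))
namespace T0
def l0 : Tr := Tr.L (Pth.l (Pth.l (Pth.l Pth.z)))
def l1 : Tr := Tr.L (Pth.l (Pth.l (Pth.r Pth.z)))
def l2 : Tr := Tr.L (Pth.l (Pth.r (Pth.l Pth.z)))
def l3 : Tr := Tr.L (Pth.l (Pth.r (Pth.r (Pth.l Pth.z))))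
def l4 : Tr := Tr.L (Pth.l (Pth.r (Pth.r (Pth.r Pth.z))))
def l5 : Tr := Tr.L (Pth.r (Pth.l (Pth.l Pth.z)))
def l6 : Tr := Tr.L (Pth.r (Pth.l (Pth.r (Pth.l Pth.z))))
def l7 : Tr := Tr.L (Pth.r (Pth.l (Pth.r (Pth.r Pth.z))))
def l8 : Tr := Tr.L (Pth.r (Pth.r (Pth.l Pth.z)))
def l9 : Tr := Tr.L (Pth.r (Pth.r (Pth.r (Pth.l Pth.z))))
def l10 : Tr := Tr.L (Pth.r (Pth.r (Pth.r (Pth.r Pth.z))))
end T0
def b1_0 : Bx := Bx.mk (St.mk (I.pos (nat_lit 148111360) (nat_lit 224460800)) (I.mix (nat_lit 3260416) (nat_lit 61816832)) (I.mix (nat_lit 5111808) (nat_lit 95584256)) (I.pos (nat_lit 190152704) (nat_lit 295993344)) (I.mix (nat_lit 119095296) (nat_lit 73990144)) (I.mix (nat_lit 86360064) (nat_lit 71827456)) (I.mix (nat_lit 126025728) (nat_lit 108953600)))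
  false (nat_lit 0)
def b1_1 : Bx := Bx.mk (St.mk (I.pos (nat_lit 79052800) (nat_lit 145195008)) (I.neg (nat_lit 1572864) (nat_lit 67010560)) (I.mix (nat_lit 58654720) (nat_lit 2310144)) (I.pos (nat_lit 126926848) (nat_lit 174194688)) (I.mix (nat_lit 99090432) (nat_lit 62144512)) (I.mix (nat_lit 57769984) (nat_lit 83050496)) (I.mix (nat_lit 52477952) (nat_lit 74203136)))
  false (nat_lit 0)
def b1_2 : Bx := Bx.mk (St.mk (I.mix (nat_lit 49430528) (nat_lit 100237312)) (I.mix (nat_lit 10452992) (nat_lit 46563328)) (I.mix (nat_lit 15777792) (nat_lit 20381696)) (I.pos (nat_lit 75579392) (nat_lit 128188416)) (I.mix (nat_lit 59097088) (nat_lit 61194240)) (I.mix (nat_lit 56770560) (nat_lit 42270720)) (I.mix (nat_lit 39436288) (nat_lit 26591232)))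
  false (nat_lit 0)
def b1_3 : Bx := Bx.mk (St.mk (I.mix (nat_lit 35028992) (nat_lit 42565632)) (I.mix (nat_lit 36028416) (nat_lit 8028160)) (I.mix (nat_lit 12615680) (nat_lit 2621440)) (I.pos (nat_lit 84361216) (nat_lit 103153664)) (I.mix (nat_lit 36225024) (nat_lit 41811968)) (I.mix (nat_lit 28196864) (nat_lit 39387136)) (I.mix (nat_lit 12222464) (nat_lit 15384576)))
  false (nat_lit 0)
def b1_4 : Bx := Bx.mk (St.mk (I.pos (nat_lit 149962752) (nat_lit 203472896)) (I.mix (nat_lit 10289152) (nat_lit 65732608)) (I.pos (nat_lit 9666560) (nat_lit 95764480)) (I.pos (nat_lit 188563456) (nat_lit 258736128)) (I.mix (nat_lit 147750912) (nat_lit 44728320)) (I.mix (nat_lit 136691712) (nat_lit 85491712)) (I.mix (nat_lit 135708672) (nat_lit 86097920)))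
  false (nat_lit 0)
def b1_5 : Bx := Bx.mk (St.mk (I.pos (nat_lit 77316096) (nat_lit 125517824)) (I.mix (nat_lit 66977792) (nat_lit 12353536)) (I.neg (nat_lit 0) (nat_lit 56393728)) (I.pos (nat_lit 114802688) (nat_lit 153354240)) (I.mix (nat_lit 103170048) (nat_lit 43352064)) (I.mix (nat_lit 56279040) (nat_lit 86818816)) (I.mix (nat_lit 42041344) (nat_lit 57032704)))
  false (nat_lit 0)
def b1_6 : Bx := Bx.mk (St.mk (I.mix (nat_lit 44793856) (nat_lit 78168064)) (I.mix (nat_lit 11878400) (nat_lit 38387712)) (I.mix (nat_lit 10878976) (nat_lit 13991936)) (I.pos (nat_lit 86196224) (nat_lit 114606080)) (I.mix (nat_lit 52084736) (nat_lit 34816000)) (I.mix (nat_lit 44122112) (nat_lit 31768576)) (I.mix (nat_lit 15974400) (nat_lit 17072128)))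
  false (nat_lit 0)
def b1_7 : Bx := Bx.mk (St.mk (I.mix (nat_lit 45727744) (nat_lit 32849920)) (I.mix (nat_lit 36929536) (nat_lit 8306688)) (I.mix (nat_lit 10043392) (nat_lit 4849664)) (I.pos (nat_lit 84606976) (nat_lit 103186432)) (I.mix (nat_lit 44728320) (nat_lit 33259520)) (I.mix (nat_lit 27066368) (nat_lit 39911424)) (I.mix (nat_lit 16449536) (nat_lit 10108928)))
  false (nat_lit 0)
def b1_8 : Bx := Bx.mk (St.mk (I.pos (nat_lit 178552832) (nat_lit 238567424)) (I.mix (nat_lit 17252352) (nat_lit 61489152)) (I.mix (nat_lit 52051968) (nat_lit 93110272)) (I.pos (nat_lit 244465664) (nat_lit 322961408)) (I.mix (nat_lit 126042112) (nat_lit 89915392)) (I.mix (nat_lit 108429312) (nat_lit 91619328)) (I.mix (nat_lit 181862400) (nat_lit 146620416)))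
  false (nat_lit 0)
def b1_9 : Bx := Bx.mk (St.mk (I.pos (nat_lit 145113088) (nat_lit 184664064)) (I.mix (nat_lit 44728320) (nat_lit 26853376)) (I.mix (nat_lit 35782656) (nat_lit 48644096)) (I.pos (nat_lit 183992320) (nat_lit 225148928)) (I.mix (nat_lit 121864192) (nat_lit 64389120)) (I.mix (nat_lit 120438784) (nat_lit 74989568)) (I.mix (nat_lit 120487936) (nat_lit 76234752)))
  false (nat_lit 0)
def b1_10 : Bx := Bx.mk (St.mk (I.mix (nat_lit 61734912) (nat_lit 49840128)) (I.mix (nat_lit 15286272) (nat_lit 15908864)) (I.mix (nat_lit 5144576) (nat_lit 4538368)) (I.pos (nat_lit 87064576) (nat_lit 105234432)) (I.mix (nat_lit 36929536) (nat_lit 22675456)) (I.mix (nat_lit 24035328) (nat_lit 26853376)) (I.mix (nat_lit 9945088) (nat_lit 9633792)))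
  false (nat_lit 0)
def b1_11 : Bx := Bx.mk (St.mk (I.mix (nat_lit 59457536) (nat_lit 7389184)) (I.mix (nat_lit 12173312) (nat_lit 13860864)) (I.neg (nat_lit 2801664) (nat_lit 12681216)) (I.pos (nat_lit 89686016) (nat_lit 105037824)) (I.mix (nat_lit 33849344) (nat_lit 23429120)) (I.mix (nat_lit 25493504) (nat_lit 25214976)) (I.mix (nat_lit 10649600) (nat_lit 9666560)))
  false (nat_lit 0)
def b1_12 : Bx := Bx.mk (St.mk (I.pos (nat_lit 202080256) (nat_lit 255115264)) (I.mix (nat_lit 21479424) (nat_lit 22036480)) (I.mix (nat_lit 68321280) (nat_lit 14467072)) (I.pos (nat_lit 277331968) (nat_lit 363134976)) (I.mix (nat_lit 110608384) (nat_lit 27967488)) (I.mix (nat_lit 64061440) (nat_lit 67633152)) (I.mix (nat_lit 116539392) (nat_lit 134692864)))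
  false (nat_lit 0)
def b1_13 : Bx := Bx.mk (St.mk (I.pos (nat_lit 134676480) (nat_lit 166707200)) (I.neg (nat_lit 7798784) (nat_lit 39305216)) (I.mix (nat_lit 33062912) (nat_lit 1409024)) (I.pos (nat_lit 169836544) (nat_lit 202768384)) (I.mix (nat_lit 53919744) (nat_lit 45187072)) (I.mix (nat_lit 51937280) (nat_lit 44711936)) (I.mix (nat_lit 57491456) (nat_lit 43597824)))
  false (nat_lit 0)
def b1_14 : Bx := Bx.mk (St.mk (I.pos (nat_lit 121536512) (nat_lit 154058752)) (I.mix (nat_lit 38486016) (nat_lit 2588672)) (I.mix (nat_lit 30588928) (nat_lit 8699904)) (I.pos (nat_lit 158105600) (nat_lit 186122240)) (I.mix (nat_lit 73089024) (nat_lit 36126720)) (I.mix (nat_lit 38158336) (nat_lit 54132736)) (I.mix (nat_lit 39845888) (nat_lit 52002816)))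
  false (nat_lit 0)
def b1_15 : Bx := Bx.mk (St.mk (I.pos (nat_lit 71221248) (nat_lit 91209728)) (I.mix (nat_lit 14352384) (nat_lit 11272192)) (I.neg (nat_lit 1769472) (nat_lit 18268160)) (I.pos (nat_lit 111591424) (nat_lit 124829696)) (I.mix (nat_lit 40910848) (nat_lit 24494080)) (I.mix (nat_lit 27951104) (nat_lit 27033600)) (I.mix (nat_lit 18759680) (nat_lit 18153472)))
  false (nat_lit 0)
def t1 : BTr := (BTr.n (BTr.n (BTr.n (BTr.n (BTr.b b1_0) (BTr.b b1_1)) (BTr.n (BTr.b b1_2) (BTr.b b1_3))) (BTr.n (BTr.n (BTr.b b1_4) (BTr.b b1_5)) (BTr.n (BTr.b b1_6) (BTr.b b1_7)))) (BTr.n (BTr.n (BTr.n (BTr.b b1_8) (BTr.b b1_9)) (BTr.n (BTr.b b1_10) (BTr.b b1_11))) (BTr.n (BTr.n (BTr.b b1_12) (BTr.b b1_13)) (BTr.n (BTr.b b1_14) (BTr.b b1_15)))))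
namespace T1
def l0 : Tr := Tr.L (Pth.l (Pth.l (Pth.l (Pth.l Pth.z))))
def l1 : Tr := Tr.L (Pth.l (Pth.l (Pth.l (Pth.r Pth.z))))
def l2 : Tr := Tr.L (Pth.l (Pth.l (Pth.r (Pth.l Pth.z))))
def l3 : Tr := Tr.L (Pth.l (Pth.l (Pth.r (Pth.r Pth.z))))
def l4 : Tr := Tr.L (Pth.l (Pth.r (Pth.l (Pth.l Pth.z))))
def l5 : Tr := Tr.L (Pth.l (Pth.r (Pth.l (Pth.r Pth.z))))
def l6 : Tr := Tr.L (Pth.l (Pth.r (Pth.r (Pth.l Pth.z))))
def l7 : Tr := Tr.L (Pth.l (Pth.r (Pth.r (Pth.r Pth.z))))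
def l8 : Tr := Tr.L (Pth.r (Pth.l (Pth.l (Pth.l Pth.z))))
def l9 : Tr := Tr.L (Pth.r (Pth.l (Pth.l (Pth.r Pth.z))))
def l10 : Tr := Tr.L (Pth.r (Pth.l (Pth.r (Pth.l Pth.z))))
def l11 : Tr := Tr.L (Pth.r (Pth.l (Pth.r (Pth.r Pth.z))))
def l12 : Tr := Tr.L (Pth.r (Pth.r (Pth.l (Pth.l Pth.z))))
def l13 : Tr := Tr.L (Pth.r (Pth.r (Pth.l (Pth.r Pth.z))))
def l14 : Tr := Tr.L (Pth.r (Pth.r (Pth.r (Pth.l Pth.z))))
def l15 : Tr := Tr.L (Pth.r (Pth.r (Pth.r (Pth.r Pth.z))))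
end T1
def b2_0 : Bx := Bx.mk (St.mk (I.pos (nat_lit 125829120) (nat_lit 219725824)) (I.mix (nat_lit 4718592) (nat_lit 86933504)) (I.mix (nat_lit 7258112) (nat_lit 132546560)) (I.pos (nat_lit 364265472) (nat_lit 468828160)) (I.mix (nat_lit 164921344) (nat_lit 82804736)) (I.mix (nat_lit 112017408) (nat_lit 91815936)) (I.mix (nat_lit 134643712) (nat_lit 125108224)))
  false (nat_lit 7519899)
def b2_1 : Bx := Bx.mk (St.mk (I.pos (nat_lit 35700736) (nat_lit 114720768)) (I.mix (nat_lit 100106240) (nat_lit 2211840)) (I.mix (nat_lit 49528832) (nat_lit 40140800)) (I.pos (nat_lit 280215552) (nat_lit 329039872)) (I.mix (nat_lit 118063104) (nat_lit 100335616)) (I.mix (nat_lit 97927168) (nat_lit 91914240)) (I.mix (nat_lit 93634560) (nat_lit 82329600)))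
  false (nat_lit 49286906)
def b2_2 : Bx := Bx.mk (St.mk (I.pos (nat_lit 99024896) (nat_lit 175439872)) (I.mix (nat_lit 53788672) (nat_lit 87801856)) (I.mix (nat_lit 11124736) (nat_lit 135675904)) (I.pos (nat_lit 313737216) (nat_lit 405979136)) (I.mix (nat_lit 189661184) (nat_lit 87277568)) (I.mix (nat_lit 167739392) (nat_lit 129171456)) (I.mix (nat_lit 178126848) (nat_lit 167723008)))
  false (nat_lit 17650961)
def b2_3 : Bx := Bx.mk (St.mk (I.neg (nat_lit 35700736) (nat_lit 115572736)) (I.mix (nat_lit 3473408) (nat_lit 100122624)) (I.mix (nat_lit 49512448) (nat_lit 40910848)) (I.pos (nat_lit 280199168) (nat_lit 330039296)) (I.mix (nat_lit 100335616) (nat_lit 118063104)) (I.mix (nat_lit 91930624) (nat_lit 97943552)) (I.mix (nat_lit 93634560) (nat_lit 82329600)))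
  true (nat_lit 0)
def b2_4 : Bx := Bx.mk (St.mk (I.pos (nat_lit 80429056) (nat_lit 114458624)) (I.mix (nat_lit 43581440) (nat_lit 2015232)) (I.pos (nat_lit 2113536) (nat_lit 42172416)) (I.pos (nat_lit 300498944) (nat_lit 330383360)) (I.mix (nat_lit 87851008) (nat_lit 72351744)) (I.mix (nat_lit 63553536) (nat_lit 79282176)) (I.mix (nat_lit 59752448) (nat_lit 65339392)))
  false (nat_lit 0)
def b2_5 : Bx := Bx.mk (St.mk (I.mix (nat_lit 65667072) (nat_lit 24297472)) (I.mix (nat_lit 18776064) (nat_lit 92405760)) (I.neg (nat_lit 13795328) (nat_lit 34324480)) (I.pos (nat_lit 271794176) (nat_lit 301531136)) (I.mix (nat_lit 70500352) (nat_lit 104513536)) (I.mix (nat_lit 96911360) (nat_lit 86228992)) (I.mix (nat_lit 42303488) (nat_lit 31457280)))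
  true (nat_lit 0)
def b2_6 : Bx := Bx.mk (St.mk (I.pos (nat_lit 22020096) (nat_lit 64094208)) (I.neg (nat_lit 30670848) (nat_lit 92602368)) (I.neg (nat_lit 16662528) (nat_lit 34308096)) (I.pos (nat_lit 280084480) (nat_lit 301350912)) (I.mix (nat_lit 104529920) (nat_lit 69058560)) (I.mix (nat_lit 86212608) (nat_lit 91570176)) (I.mix (nat_lit 42303488) (nat_lit 31473664)))
  false (nat_lit 8701260)
def b2_7 : Bx := Bx.mk (St.mk (I.mix (nat_lit 23429120) (nat_lit 45924352)) (I.mix (nat_lit 46039040) (nat_lit 22691840)) (I.neg (nat_lit 15106048) (nat_lit 23035904)) (I.pos (nat_lit 272334848) (nat_lit 286031872)) (I.mix (nat_lit 51150848) (nat_lit 61374464)) (I.mix (nat_lit 52756480) (nat_lit 46219264)) (I.mix (nat_lit 13320192) (nat_lit 12075008)))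
  false (nat_lit 0)
def b2_8 : Bx := Bx.mk (St.mk (I.pos (nat_lit 181436416) (nat_lit 293683200)) (I.mix (nat_lit 44728320) (nat_lit 61931520)) (I.mix (nat_lit 135184384) (nat_lit 83066880)) (I.pos (nat_lit 412712960) (nat_lit 618708992)) (I.mix (nat_lit 112410624) (nat_lit 76759040)) (I.mix (nat_lit 93650944) (nat_lit 84688896)) (I.mix (nat_lit 177930240) (nat_lit 151568384)))
  false (nat_lit 0)
def b2_9 : Bx := Bx.mk (St.mk (I.pos (nat_lit 145031168) (nat_lit 202637312)) (I.pos (nat_lit 19103744) (nat_lit 88358912)) (I.pos (nat_lit 29753344) (nat_lit 129220608)) (I.pos (nat_lit 383139840) (nat_lit 441843712)) (I.mix (nat_lit 129744896) (nat_lit 99401728)) (I.mix (nat_lit 115654656) (nat_lit 83443712)) (I.mix (nat_lit 172670976) (nat_lit 116539392)))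
  false (nat_lit 0)
def b2_10 : Bx := Bx.mk (St.mk (I.pos (nat_lit 23117824) (nat_lit 52346880)) (I.neg (nat_lit 23134208) (nat_lit 79659008)) (I.neg (nat_lit 17137664) (nat_lit 32964608)) (I.pos (nat_lit 279232512) (nat_lit 294174720)) (I.mix (nat_lit 101924864) (nat_lit 64438272)) (I.mix (nat_lit 53575680) (nat_lit 97009664)) (I.mix (nat_lit 29081600) (nat_lit 18644992)))
  false (nat_lit 0)
def t2 : BTr := (BTr.n (BTr.n (BTr.n (BTr.b b2_0) (BTr.b b2_1)) (BTr.n (BTr.b b2_2) (BTr.n (BTr.b b2_3) (BTr.b b2_4)))) (BTr.n (BTr.n (BTr.b b2_5) (BTr.n (BTr.b b2_6) (BTr.b b2_7))) (BTr.n (BTr.b b2_8) (BTr.n (BTr.b b2_9) (BTr.b b2_10)))))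
namespace T2
def l0 : Tr := Tr.L (Pth.l (Pth.l (Pth.l Pth.z)))
def l1 : Tr := Tr.L (Pth.l (Pth.l (Pth.r Pth.z)))
def l2 : Tr := Tr.L (Pth.l (Pth.r (Pth.l Pth.z)))
def l3 : Tr := Tr.L (Pth.l (Pth.r (Pth.r (Pth.l Pth.z))))
def l4 : Tr := Tr.L (Pth.l (Pth.r (Pth.r (Pth.r Pth.z))))
def l5 : Tr := Tr.L (Pth.r (Pth.l (Pth.l Pth.z)))
def l6 : Tr := Tr.L (Pth.r (Pth.l (Pth.r (Pth.l Pth.z))))
def l7 : Tr := Tr.L (Pth.r (Pth.l (Pth.r (Pth.r Pth.z))))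
def l8 : Tr := Tr.L (Pth.r (Pth.r (Pth.l Pth.z)))
def l9 : Tr := Tr.L (Pth.r (Pth.r (Pth.r (Pth.l Pth.z))))
def l10 : Tr := Tr.L (Pth.r (Pth.r (Pth.r (Pth.r Pth.z))))
end T2
theorem bx0_0 : BoxOK sI cl4 cl4 cl6 t0 t2 b0_0 :=
  box_mk (TrL.c (I.pos (nat_lit 0) (nat_lit 0)) (xb (xa (xb T0.l0 T0.l0) T0.l0) (xa (xb T0.l0 (xa T0.l0 T0.l0)) (xb T0.l0 (xa T0.l0 T0.l0))))
  (TrL.c (I.pos (nat_lit 0) (nat_lit 0)) (xb T2.l1 T2.l1)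
  (TrL.c (I.pos (nat_lit 0) (nat_lit 0)) T0.l1
  (TrL.c (I.pos (nat_lit 0) (nat_lit 0)) (xb T2.l2 (xa T2.l2 (xb T2.l2 (xs T2.l2 T2.l2))))
  (TrL.c (I.pos (nat_lit 0) (nat_lit 0)) T0.l2
  (TrL.c (I.pos (nat_lit 0) (nat_lit 0)) (xb T2.l3 T2.l3)
  TrL.n)))))) (by decide +kernel)
theorem bx0_1 : BoxOK sI cl4 cl4 cl6 t0 t2 b0_1 :=
  box_mk (TrL.c (I.pos (nat_lit 0) (nat_lit 0)) T2.l4
  (TrL.c (I.pos (nat_lit 0) (nat_lit 0)) T0.l3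
  TrL.n)) (by decide +kernel)
theorem bx0_2 : BoxOK sI cl4 cl4 cl6 t0 t2 b0_2 :=
  box_mk (TrL.c (I.pos (nat_lit 0) (nat_lit 0)) (xb (xa (xb (xs (xa T0.l4 T0.l4) (xa T0.l4 T0.l4)) T0.l9) (xb (xs T0.l4 T0.l9) T0.l9)) (xa T0.l9 T0.l9))
  (TrL.c (I.pos (nat_lit 0) (nat_lit 0)) T2.l1
  (TrL.c (I.pos (nat_lit 0) (nat_lit 0)) T0.l1
  (TrL.c (I.pos (nat_lit 0) (nat_lit 0)) T2.l2
  (TrL.c (I.pos (nat_lit 0) (nat_lit 0)) T0.l10
  (TrL.c (I.pos (nat_lit 0) (nat_lit 0)) T2.l3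
  TrL.n)))))) (by decide +kernel)
theorem bx0_3 : BoxOK sI cl4 cl4 cl6 t0 t2 b0_3 :=
  box_mk (TrL.c (I.pos (nat_lit 0) (nat_lit 0)) T2.l4
  (TrL.c (I.pos (nat_lit 0) (nat_lit 0)) T0.l3
  TrL.n)) (by decide +kernel)
theorem bx0_4 : BoxOK sI cl4 cl4 cl6 t0 t2 b0_4 :=
  box_mk (TrL.c (I.pos (nat_lit 0) (nat_lit 0)) (xa T0.l0 T0.l0)
  (TrL.c (I.pos (nat_lit 0) (nat_lit 0)) T2.l1
  (TrL.c (I.pos (nat_lit 0) (nat_lit 0)) T0.l1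
  (TrL.c (I.pos (nat_lit 0) (nat_lit 0)) (xa T2.l2 T2.l2)
  (TrL.c (I.pos (nat_lit 0) (nat_lit 0)) T0.l2
  (TrL.c (I.pos (nat_lit 0) (nat_lit 0)) T2.l3
  TrL.n)))))) (by decide +kernel)
theorem bx0_5 : BoxOK sI cl4 cl4 cl6 t0 t2 b0_5 :=
  box_mk (TrL.c (I.pos (nat_lit 0) (nat_lit 0)) (xb T0.l4 (xa T0.l4 T0.l4))
  (TrL.c (I.pos (nat_lit 0) (nat_lit 0)) T2.l1
  (TrL.c (I.pos (nat_lit 0) (nat_lit 0)) T0.l1
  (TrL.c (I.pos (nat_lit 0) (nat_lit 0)) T2.l2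
  (TrL.c (I.pos (nat_lit 0) (nat_lit 0)) T0.l5
  (TrL.c (I.pos (nat_lit 0) (nat_lit 0)) T2.l3
  TrL.n)))))) (by decide +kernel)
theorem bx0_6 : BoxOK sI cl4 cl4 cl6 t0 t2 b0_6 :=
  box_mk (TrL.c (I.pos (nat_lit 0) (nat_lit 0)) (xa (xb (xa (xb (xa (xs T0.l9 T0.l9) (xs T0.l9 T0.l9)) T0.l9) (xb (xa T0.l9 T0.l9) T0.l9)) (xa (xb T0.l9 (xa T0.l9 T0.l9)) T0.l9)) (xb (xa T0.l9 T0.l9) T0.l9))
  (TrL.c (I.pos (nat_lit 0) (nat_lit 0)) T2.l1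
  (TrL.c (I.pos (nat_lit 0) (nat_lit 0)) T0.l3
  (TrL.c (I.pos (nat_lit 0) (nat_lit 0)) (xa T2.l2 (xb T2.l2 T2.l2))
  (TrL.c (I.pos (nat_lit 0) (nat_lit 0)) T0.l10
  (TrL.c (I.pos (nat_lit 0) (nat_lit 0)) T2.l3
  TrL.n)))))) (by decide +kernel)
theorem bx0_7 : BoxOK sI cl4 cl4 cl6 t0 t2 b0_7 :=
  box_mk (TrL.c (I.pos (nat_lit 0) (nat_lit 0)) (xa (xb (xb (xa (xa T0.l9 T0.l9) T0.l9) (xa (xb T0.l9 T0.l9) T0.l9)) (xb (xa (xb T0.l9 T0.l9) T0.l9) (xa (xb T0.l9 T0.l9) T0.l9))) (xb (xa T0.l9 (xb T0.l9 T0.l9)) (xa T0.l9 (xb T0.l9 T0.l9))))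
  (TrL.c (I.pos (nat_lit 0) (nat_lit 0)) (xb (xa T2.l1 T2.l1) (xa T2.l1 T2.l1))
  (TrL.c (I.pos (nat_lit 0) (nat_lit 0)) T0.l1
  (TrL.c (I.pos (nat_lit 0) (nat_lit 0)) (xb (xa T2.l2 T2.l2) (xa T2.l2 T2.l2))
  (TrL.c (I.pos (nat_lit 0) (nat_lit 0)) T0.l10
  (TrL.c (I.pos (nat_lit 0) (nat_lit 0)) (xb (xa T2.l3 T2.l3) (xa T2.l3 T2.l3))
  TrL.n)))))) (by decide +kernel)
theorem bx0_8 : BoxOK sI cl4 cl4 cl6 t0 t2 b0_8 :=
  box_mk (TrL.c (I.pos (nat_lit 0) (nat_lit 0)) T2.l1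
  (TrL.c (I.pos (nat_lit 0) (nat_lit 0)) T0.l3
  TrL.n)) (by decide +kernel)
theorem bx0_9 : BoxOK sI cl4 cl4 cl6 t0 t2 b0_9 :=
  box_mk (TrL.c (I.pos (nat_lit 0) (nat_lit 0)) (xb (xa (xb T0.l0 T0.l0) (xb T0.l0 T0.l0)) (xa (xb T0.l0 (xa T0.l0 T0.l0)) (xb T0.l0 (xa T0.l0 T0.l0))))
  (TrL.c (I.pos (nat_lit 0) (nat_lit 0)) (xb T2.l1 (xa T2.l1 T2.l1))
  (TrL.c (I.pos (nat_lit 0) (nat_lit 0)) T0.l1
  (TrL.c (I.pos (nat_lit 0) (nat_lit 0)) (xb (xa (xb T2.l2 T2.l2) (xb (xa T2.l2 (xc T2.l2 T2.l2)) (xa T2.l2 T2.l2))) (xa (xb T2.l2 T2.l2) (xb (xa T2.l2 (xs T2.l2 T2.l2)) (xs (xa T2.l2 (xc T2.l2 T2.l2)) (xa T2.l2 (xc T2.l2 T2.l2))))))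
  (TrL.c (I.pos (nat_lit 0) (nat_lit 0)) T0.l2
  (TrL.c (I.pos (nat_lit 0) (nat_lit 0)) (xb T2.l3 (xa T2.l3 T2.l3))
  TrL.n)))))) (by decide +kernel)
theorem bx0_10 : BoxOK sI cl4 cl4 cl6 t0 t2 b0_10 :=
  box_mk (TrL.c (I.pos (nat_lit 0) (nat_lit 0)) (xb (xa (xb (xs (xa T0.l4 T0.l4) T0.l4) T0.l4) T0.l4) (xa (xb T0.l4 (xa T0.l4 T0.l4)) (xb T0.l4 (xa T0.l4 T0.l9))))
  (TrL.c (I.pos (nat_lit 0) (nat_lit 0)) T2.l1
  (TrL.c (I.pos (nat_lit 0) (nat_lit 0)) T0.l1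
  (TrL.c (I.pos (nat_lit 0) (nat_lit 0)) T2.l2
  (TrL.c (I.pos (nat_lit 0) (nat_lit 0)) T0.l10
  (TrL.c (I.pos (nat_lit 0) (nat_lit 0)) T2.l3
  TrL.n)))))) (by decide +kernel)
theorem sv0 : StarV sI cl4 cl4 cl6 t0 t2 t0 :=
  (bt_n (bt_n (bt_n (bt_b bx0_0) (bt_b bx0_1)) (bt_n (bt_b bx0_2) (bt_n (bt_b bx0_3) (bt_b bx0_4)))) (bt_n (bt_n (bt_b bx0_5) (bt_n (bt_b bx0_6) (bt_b bx0_7))) (bt_n (bt_b bx0_8) (bt_n (bt_b bx0_9) (bt_b bx0_10)))))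
def S0 : StarD := StarD.mk cl4 cl4 cl6 0 2 t0
theorem bx1_0 : BoxOK sI cl4 cl6 cl4 t2 t0 b1_0 :=
  box_mk (TrL.c (I.pos (nat_lit 0) (nat_lit 0)) (xa (xb T2.l0 (xa (xb T2.l0 T2.l0) (xb T2.l0 T2.l0))) (xb T2.l0 (xa (xb T2.l0 T2.l0) (xb T2.l0 T2.l0))))
  (TrL.c (I.pos (nat_lit 0) (nat_lit 0)) (xa T0.l6 (xb T0.l6 T0.l6))
  (TrL.c (I.pos (nat_lit 0) (nat_lit 0)) T2.l5
  (TrL.c (I.pos (nat_lit 0) (nat_lit 0)) T0.l7
  (TrL.c (I.pos (nat_lit 0) (nat_lit 0)) T2.l6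
  (TrL.c (I.pos (nat_lit 0) (nat_lit 0)) (xa T0.l8 (xb T0.l8 T0.l8))
  TrL.n)))))) (by decide +kernel)
theorem bx1_1 : BoxOK sI cl4 cl6 cl4 t2 t0 b1_1 :=
  box_mk (TrL.c (I.pos (nat_lit 0) (nat_lit 0)) (xa (xb (xa T2.l8 T2.l8) T2.l8) T2.l0)
  (TrL.c (I.pos (nat_lit 0) (nat_lit 0)) T0.l6
  (TrL.c (I.pos (nat_lit 0) (nat_lit 0)) T2.l5
  (TrL.c (I.pos (nat_lit 0) (nat_lit 0)) (xa T0.l7 T0.l7)
  (TrL.c (I.pos (nat_lit 0) (nat_lit 0)) T2.l7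
  (TrL.c (I.pos (nat_lit 0) (nat_lit 0)) T0.l8
  TrL.n)))))) (by decide +kernel)
theorem bx1_2 : BoxOK sI cl4 cl6 cl4 t2 t0 b1_2 :=
  box_mk (TrL.c (I.pos (nat_lit 0) (nat_lit 0)) (xa (xa (xb (xa (xb (xa T2.l8 T2.l8) T2.l8) T2.l8) (xa (xb T2.l8 (xa T2.l8 T2.l8)) (xb T2.l8 T2.l8))) (xb T2.l8 (xa T2.l8 T2.l8))) (xa T2.l8 (xb T2.l8 (xa T2.l8 T2.l8))))
  (TrL.c (I.pos (nat_lit 0) (nat_lit 0)) (xa (xa T0.l7 T0.l6) T0.l6)
  (TrL.c (I.pos (nat_lit 0) (nat_lit 0)) T2.l5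
  (TrL.c (I.pos (nat_lit 0) (nat_lit 0)) (xa T0.l7 T0.l7)
  (TrL.c (I.pos (nat_lit 0) (nat_lit 0)) T2.l7
  (TrL.c (I.pos (nat_lit 0) (nat_lit 0)) (xa T0.l8 T0.l8)
  TrL.n)))))) (by decide +kernel)
theorem bx1_3 : BoxOK sI cl4 cl6 cl4 t2 t0 b1_3 :=
  box_mk (TrL.c (I.pos (nat_lit 0) (nat_lit 0)) T2.l8
  (TrL.c (I.pos (nat_lit 0) (nat_lit 0)) T0.l7
  (TrL.c (I.pos (nat_lit 0) (nat_lit 0)) T2.l5
  (TrL.c (I.pos (nat_lit 0) (nat_lit 0)) T0.l6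
  (TrL.c (I.pos (nat_lit 0) (nat_lit 0)) T2.l7
  (TrL.c (I.pos (nat_lit 0) (nat_lit 0)) T0.l8
  TrL.n)))))) (by decide +kernel)
theorem bx1_4 : BoxOK sI cl4 cl6 cl4 t2 t0 b1_4 :=
  box_mk (TrL.c (I.pos (nat_lit 0) (nat_lit 0)) (xb (xa (xb T2.l9 T2.l9) (xb T2.l9 T2.l9)) (xa (xb T2.l9 (xa T2.l9 T2.l9)) (xb T2.l9 (xa T2.l9 T2.l9))))
  (TrL.c (I.pos (nat_lit 0) (nat_lit 0)) (xb T0.l6 T0.l6)
  (TrL.c (I.pos (nat_lit 0) (nat_lit 0)) T2.l5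
  (TrL.c (I.pos (nat_lit 0) (nat_lit 0)) (xb T0.l7 (xa T0.l7 T0.l7))
  (TrL.c (I.pos (nat_lit 0) (nat_lit 0)) T2.l10
  (TrL.c (I.pos (nat_lit 0) (nat_lit 0)) (xb T0.l8 T0.l8)
  TrL.n)))))) (by decide +kernel)
theorem bx1_5 : BoxOK sI cl4 cl6 cl4 t2 t0 b1_5 :=
  box_mk (TrL.c (I.pos (nat_lit 0) (nat_lit 0)) (xb (xa T2.l8 T2.l0) (xa T2.l8 T2.l8))
  (TrL.c (I.pos (nat_lit 0) (nat_lit 0)) T0.l6
  (TrL.c (I.pos (nat_lit 0) (nat_lit 0)) T2.l5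
  (TrL.c (I.pos (nat_lit 0) (nat_lit 0)) T0.l7
  (TrL.c (I.pos (nat_lit 0) (nat_lit 0)) T2.l7
  (TrL.c (I.pos (nat_lit 0) (nat_lit 0)) T0.l8
  TrL.n)))))) (by decide +kernel)
theorem bx1_6 : BoxOK sI cl4 cl6 cl4 t2 t0 b1_6 :=
  box_mk (TrL.c (I.pos (nat_lit 0) (nat_lit 0)) (xa (xa T2.l8 T2.l8) (xa T2.l8 T2.l8))
  (TrL.c (I.pos (nat_lit 0) (nat_lit 0)) (xa T0.l6 T0.l6)
  (TrL.c (I.pos (nat_lit 0) (nat_lit 0)) T2.l5
  (TrL.c (I.pos (nat_lit 0) (nat_lit 0)) (xa T0.l7 T0.l7)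
  (TrL.c (I.pos (nat_lit 0) (nat_lit 0)) T2.l7
  (TrL.c (I.pos (nat_lit 0) (nat_lit 0)) T0.l8
  TrL.n)))))) (by decide +kernel)
theorem bx1_7 : BoxOK sI cl4 cl6 cl4 t2 t0 b1_7 :=
  box_mk (TrL.c (I.pos (nat_lit 0) (nat_lit 0)) (xa (xb (xa (xb T2.l8 T2.l8) T2.l8) T2.l8) T2.l8)
  (TrL.c (I.pos (nat_lit 0) (nat_lit 0)) T0.l7
  (TrL.c (I.pos (nat_lit 0) (nat_lit 0)) T2.l7
  (TrL.c (I.pos (nat_lit 0) (nat_lit 0)) T0.l6
  (TrL.c (I.pos (nat_lit 0) (nat_lit 0)) T2.l7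
  (TrL.c (I.pos (nat_lit 0) (nat_lit 0)) T0.l8
  TrL.n)))))) (by decide +kernel)
theorem bx1_8 : BoxOK sI cl4 cl6 cl4 t2 t0 b1_8 :=
  box_mk (TrL.c (I.pos (nat_lit 0) (nat_lit 0)) (xa (xb (xb T2.l0 T2.l0) (xa (xb T2.l0 T2.l0) (xb T2.l0 T2.l0))) (xb (xb T2.l2 T2.l0) (xa (xb T2.l0 T2.l0) T2.l2)))
  (TrL.c (I.pos (nat_lit 0) (nat_lit 0)) (xa (xb T0.l6 T0.l6) (xb T0.l6 T0.l6))
  (TrL.c (I.pos (nat_lit 0) (nat_lit 0)) T2.l5
  (TrL.c (I.pos (nat_lit 0) (nat_lit 0)) (xb (xa T0.l7 (xb (xa T0.l7 T0.l7) T0.l7)) (xa T0.l7 (xb T0.l7 (xa T0.l7 T0.l7))))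
  (TrL.c (I.pos (nat_lit 0) (nat_lit 0)) T2.l6
  (TrL.c (I.pos (nat_lit 0) (nat_lit 0)) (xa (xb T0.l8 T0.l8) (xb T0.l8 T0.l8))
  TrL.n)))))) (by decide +kernel)
theorem bx1_9 : BoxOK sI cl4 cl6 cl4 t2 t0 b1_9 :=
  box_mk (TrL.c (I.pos (nat_lit 0) (nat_lit 0)) (xb (xa T2.l9 T2.l9) (xa T2.l9 T2.l9))
  (TrL.c (I.pos (nat_lit 0) (nat_lit 0)) T0.l6
  (TrL.c (I.pos (nat_lit 0) (nat_lit 0)) T2.l5
  (TrL.c (I.pos (nat_lit 0) (nat_lit 0)) (xb T0.l7 T0.l7)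
  (TrL.c (I.pos (nat_lit 0) (nat_lit 0)) T2.l10
  (TrL.c (I.pos (nat_lit 0) (nat_lit 0)) T0.l8
  TrL.n)))))) (by decide +kernel)
theorem bx1_10 : BoxOK sI cl4 cl6 cl4 t2 t0 b1_10 :=
  box_mk (TrL.c (I.pos (nat_lit 0) (nat_lit 0)) (xa (xa (xb (xa (xb T2.l8 T2.l8) T2.l8) T2.l8) T2.l8) T2.l8)
  (TrL.c (I.pos (nat_lit 0) (nat_lit 0)) (xa T0.l7 T0.l6)
  (TrL.c (I.pos (nat_lit 0) (nat_lit 0)) T2.l7
  (TrL.c (I.pos (nat_lit 0) (nat_lit 0)) (xa T0.l6 T0.l7)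
  (TrL.c (I.pos (nat_lit 0) (nat_lit 0)) T2.l7
  (TrL.c (I.pos (nat_lit 0) (nat_lit 0)) T0.l8
  TrL.n)))))) (by decide +kernel)
theorem bx1_11 : BoxOK sI cl4 cl6 cl4 t2 t0 b1_11 :=
  box_mk (TrL.c (I.pos (nat_lit 0) (nat_lit 0)) (xa (xa (xb T2.l8 T2.l8) T2.l8) T2.l8)
  (TrL.c (I.pos (nat_lit 0) (nat_lit 0)) T0.l7
  (TrL.c (I.pos (nat_lit 0) (nat_lit 0)) T2.l7
  (TrL.c (I.pos (nat_lit 0) (nat_lit 0)) T0.l6
  (TrL.c (I.pos (nat_lit 0) (nat_lit 0)) T2.l7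
  (TrL.c (I.pos (nat_lit 0) (nat_lit 0)) T0.l8
  TrL.n)))))) (by decide +kernel)
theorem bx1_12 : BoxOK sI cl4 cl6 cl4 t2 t0 b1_12 :=
  box_mk (TrL.c (I.pos (nat_lit 0) (nat_lit 0)) (xa T2.l0 T2.l2)
  (TrL.c (I.pos (nat_lit 0) (nat_lit 0)) T0.l6
  (TrL.c (I.pos (nat_lit 0) (nat_lit 0)) T2.l3
  (TrL.c (I.pos (nat_lit 0) (nat_lit 0)) (xa T0.l7 T0.l0)
  (TrL.c (I.pos (nat_lit 0) (nat_lit 0)) T2.l1
  (TrL.c (I.pos (nat_lit 0) (nat_lit 0)) T0.l8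
  TrL.n)))))) (by decide +kernel)
theorem bx1_13 : BoxOK sI cl4 cl6 cl4 t2 t0 b1_13 :=
  box_mk (TrL.c (I.pos (nat_lit 0) (nat_lit 0)) T2.l0
  (TrL.c (I.pos (nat_lit 0) (nat_lit 0)) T0.l6
  (TrL.c (I.pos (nat_lit 0) (nat_lit 0)) T2.l5
  (TrL.c (I.pos (nat_lit 0) (nat_lit 0)) T0.l7
  (TrL.c (I.pos (nat_lit 0) (nat_lit 0)) T2.l10
  (TrL.c (I.pos (nat_lit 0) (nat_lit 0)) T0.l8
  TrL.n)))))) (by decide +kernel)
theorem bx1_14 : BoxOK sI cl4 cl6 cl4 t2 t0 b1_14 :=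
  box_mk (TrL.c (I.pos (nat_lit 0) (nat_lit 0)) T2.l0
  (TrL.c (I.pos (nat_lit 0) (nat_lit 0)) T0.l6
  (TrL.c (I.pos (nat_lit 0) (nat_lit 0)) T2.l5
  (TrL.c (I.pos (nat_lit 0) (nat_lit 0)) T0.l7
  (TrL.c (I.pos (nat_lit 0) (nat_lit 0)) T2.l7
  (TrL.c (I.pos (nat_lit 0) (nat_lit 0)) T0.l8
  TrL.n)))))) (by decide +kernel)
theorem bx1_15 : BoxOK sI cl4 cl6 cl4 t2 t0 b1_15 :=
  box_mk (TrL.c (I.pos (nat_lit 0) (nat_lit 0)) T2.l8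
  (TrL.c (I.pos (nat_lit 0) (nat_lit 0)) T0.l6
  (TrL.c (I.pos (nat_lit 0) (nat_lit 0)) T2.l5
  (TrL.c (I.pos (nat_lit 0) (nat_lit 0)) T0.l7
  (TrL.c (I.pos (nat_lit 0) (nat_lit 0)) T2.l7
  (TrL.c (I.pos (nat_lit 0) (nat_lit 0)) T0.l8
  TrL.n)))))) (by decide +kernel)
theorem sv1 : StarV sI cl4 cl6 cl4 t2 t0 t1 :=
  (bt_n (bt_n (bt_n (bt_n (bt_b bx1_0) (bt_b bx1_1)) (bt_n (bt_b bx1_2) (bt_b bx1_3))) (bt_n (bt_n (bt_b bx1_4) (bt_b bx1_5)) (bt_n (bt_b bx1_6) (bt_b bx1_7)))) (bt_n (bt_n (bt_n (bt_b bx1_8) (bt_b bx1_9)) (bt_n (bt_b bx1_10) (bt_b bx1_11))) (bt_n (bt_n (bt_b bx1_12) (bt_b bx1_13)) (bt_n (bt_b bx1_14) (bt_b bx1_15)))))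
def S1 : StarD := StarD.mk cl4 cl6 cl4 2 0 t1
theorem bx2_0 : BoxOK sI cl6 cl4 cl4 t1 t1 b2_0 :=
  box_mk (TrL.c (I.pos (nat_lit 0) (nat_lit 0)) (xa (xb (xa T1.l8 T1.l0) (xa (xb T1.l0 T1.l8) (xb T1.l0 T1.l8))) (xb T1.l0 (xa (xb T1.l0 T1.l0) (xb T1.l0 T1.l0))))
  (TrL.c (I.pos (nat_lit 0) (nat_lit 0)) T1.l1
  (TrL.c (I.pos (nat_lit 0) (nat_lit 89480386)) T1.l2
  (TrL.c (I.pos (nat_lit 0) (nat_lit 41530880)) T1.l3
  (TrL.c (I.pos (nat_lit 0) (nat_lit 0)) (xa T1.l4 (xb T1.l4 T1.l4))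
  (TrL.c (I.pos (nat_lit 0) (nat_lit 0)) T1.l5
  (TrL.c (I.mix (nat_lit 41527258) (nat_lit 41530880)) T1.l2
  (TrL.c (I.mix (nat_lit 41527258) (nat_lit 4274)) T1.l7
  TrL.n)))))))) (by decide +kernel)
theorem bx2_1 : BoxOK sI cl6 cl4 cl4 t1 t1 b2_1 :=
  box_mk (TrL.c (I.pos (nat_lit 0) (nat_lit 0)) (xb (xa (xb T1.l8 T1.l8) T1.l8) (xa (xb T1.l8 T1.l8) T1.l8))
  (TrL.c (I.pos (nat_lit 0) (nat_lit 0)) T1.l1
  (TrL.c (I.pos (nat_lit 0) (nat_lit 89480386)) T1.l2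
  (TrL.c (I.pos (nat_lit 0) (nat_lit 41530880)) T1.l3
  (TrL.c (I.pos (nat_lit 0) (nat_lit 0)) (xb T1.l9 T1.l9)
  (TrL.c (I.pos (nat_lit 0) (nat_lit 0)) T1.l5
  (TrL.c (I.mix (nat_lit 41527258) (nat_lit 41530880)) T1.l2
  (TrL.c (I.mix (nat_lit 41527258) (nat_lit 4274)) T1.l7
  TrL.n)))))))) (by decide +kernel)
theorem bx2_2 : BoxOK sI cl6 cl4 cl4 t1 t1 b2_2 :=
  box_mk (TrL.c (I.pos (nat_lit 0) (nat_lit 0)) (xb (xa (xb T1.l8 (xa T1.l8 T1.l8)) (xb T1.l8 T1.l8)) (xa (xb (xa T1.l8 T1.l8) (xa (xb T1.l8 T1.l8) (xb T1.l8 T1.l8))) (xb T1.l8 (xa T1.l8 T1.l8))))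
  (TrL.c (I.pos (nat_lit 0) (nat_lit 0)) (xb T1.l1 T1.l1)
  (TrL.c (I.pos (nat_lit 0) (nat_lit 89480386)) T1.l2
  (TrL.c (I.pos (nat_lit 0) (nat_lit 41530880)) T1.l3
  (TrL.c (I.pos (nat_lit 0) (nat_lit 0)) (xb (xa T1.l9 T1.l9) (xa T1.l9 T1.l4))
  (TrL.c (I.pos (nat_lit 0) (nat_lit 0)) T1.l5
  (TrL.c (I.mix (nat_lit 41527258) (nat_lit 41530880)) T1.l2
  (TrL.c (I.mix (nat_lit 41527258) (nat_lit 4274)) T1.l7
  TrL.n)))))))) (by decide +kernel)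
theorem bx2_3 : BoxOK sI cl6 cl4 cl4 t1 t1 b2_3 :=
  box_mk (TrL.c (I.pos (nat_lit 0) (nat_lit 0)) T1.l1
  (TrL.c (I.pos (nat_lit 0) (nat_lit 0)) T1.l2
  (TrL.c (I.mix (nat_lit 41527258) (nat_lit 41530880)) T1.l10
  (TrL.c (I.mix (nat_lit 41527258) (nat_lit 4274)) T1.l11
  TrL.n)))) (by decide +kernel)
theorem bx2_4 : BoxOK sI cl6 cl4 cl4 t1 t1 b2_4 :=
  box_mk (TrL.c (I.pos (nat_lit 0) (nat_lit 0)) T1.l8
  (TrL.c (I.pos (nat_lit 0) (nat_lit 0)) T1.l1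
  (TrL.c (I.pos (nat_lit 0) (nat_lit 89480386)) T1.l2
  (TrL.c (I.pos (nat_lit 0) (nat_lit 41530880)) T1.l3
  (TrL.c (I.pos (nat_lit 0) (nat_lit 0)) T1.l9
  (TrL.c (I.pos (nat_lit 0) (nat_lit 0)) T1.l5
  (TrL.c (I.mix (nat_lit 41527258) (nat_lit 41530880)) T1.l6
  (TrL.c (I.mix (nat_lit 41527258) (nat_lit 4274)) T1.l7
  TrL.n)))))))) (by decide +kernel)
theorem bx2_5 : BoxOK sI cl6 cl4 cl4 t1 t1 b2_5 :=
  box_mk (TrL.c (I.pos (nat_lit 0) (nat_lit 0)) T1.l14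
  (TrL.c (I.pos (nat_lit 0) (nat_lit 0)) T1.l15
  (TrL.c (I.mix (nat_lit 41527258) (nat_lit 41530880)) T1.l10
  (TrL.c (I.mix (nat_lit 41527258) (nat_lit 4274)) T1.l11
  TrL.n)))) (by decide +kernel)
theorem bx2_6 : BoxOK sI cl6 cl4 cl4 t1 t1 b2_6 :=
  box_mk (TrL.c (I.pos (nat_lit 0) (nat_lit 0)) (xb (xa T1.l12 T1.l12) T1.l12)
  (TrL.c (I.pos (nat_lit 0) (nat_lit 0)) T1.l1
  (TrL.c (I.pos (nat_lit 0) (nat_lit 89480386)) T1.l2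
  (TrL.c (I.pos (nat_lit 0) (nat_lit 41530880)) T1.l3
  (TrL.c (I.pos (nat_lit 0) (nat_lit 0)) T1.l13
  (TrL.c (I.pos (nat_lit 0) (nat_lit 0)) T1.l5
  (TrL.c (I.mix (nat_lit 41527258) (nat_lit 41530880)) T1.l6
  (TrL.c (I.mix (nat_lit 41527258) (nat_lit 4274)) T1.l7
  TrL.n)))))))) (by decide +kernel)
theorem bx2_7 : BoxOK sI cl6 cl4 cl4 t1 t1 b2_7 :=
  box_mk (TrL.c (I.pos (nat_lit 0) (nat_lit 0)) (xa (xb (xa T1.l12 T1.l12) (xb T1.l12 T1.l12)) (xb T1.l12 T1.l12))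
  (TrL.c (I.pos (nat_lit 0) (nat_lit 0)) T1.l14
  (TrL.c (I.pos (nat_lit 0) (nat_lit 89480386)) T1.l2
  (TrL.c (I.pos (nat_lit 0) (nat_lit 41530880)) T1.l2
  (TrL.c (I.pos (nat_lit 0) (nat_lit 0)) T1.l13
  (TrL.c (I.pos (nat_lit 0) (nat_lit 0)) T1.l5
  (TrL.c (I.mix (nat_lit 41527258) (nat_lit 41530880)) T1.l2
  (TrL.c (I.mix (nat_lit 41527258) (nat_lit 4274)) T1.l7
  TrL.n)))))))) (by decide +kernel)
theorem bx2_8 : BoxOK sI cl6 cl4 cl4 t1 t1 b2_8 :=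
  box_mk (TrL.c (I.pos (nat_lit 0) (nat_lit 0)) (xa (xb (xa T1.l0 T1.l0) (xa (xb T1.l0 T1.l0) T1.l0)) (xb (xa T1.l0 T1.l0) (xa T1.l0 (xb T1.l0 T1.l0))))
  (TrL.c (I.pos (nat_lit 0) (nat_lit 0)) T1.l1
  (TrL.c (I.pos (nat_lit 0) (nat_lit 89480386)) T1.l2
  (TrL.c (I.pos (nat_lit 0) (nat_lit 41530880)) T1.l3
  (TrL.c (I.pos (nat_lit 0) (nat_lit 0)) (xb (xa (xa T1.l4 T1.l4) (xa T1.l4 (xb T1.l4 T1.l4))) (xa T1.l4 (xa T1.l4 (xb T1.l4 T1.l4))))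
  (TrL.c (I.pos (nat_lit 0) (nat_lit 0)) T1.l5
  (TrL.c (I.mix (nat_lit 41527258) (nat_lit 41530880)) T1.l2
  (TrL.c (I.mix (nat_lit 41527258) (nat_lit 4274)) T1.l7
  TrL.n)))))))) (by decide +kernel)
theorem bx2_9 : BoxOK sI cl6 cl4 cl4 t1 t1 b2_9 :=
  box_mk (TrL.c (I.pos (nat_lit 0) (nat_lit 0)) (xa (xb T1.l0 (xa T1.l0 T1.l0)) (xb T1.l0 (xs T1.l0 T1.l0)))
  (TrL.c (I.pos (nat_lit 0) (nat_lit 0)) T1.l1
  (TrL.c (I.pos (nat_lit 0) (nat_lit 89480386)) T1.l2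
  (TrL.c (I.pos (nat_lit 0) (nat_lit 41530880)) T1.l3
  (TrL.c (I.pos (nat_lit 0) (nat_lit 0)) T1.l4
  (TrL.c (I.pos (nat_lit 0) (nat_lit 0)) T1.l5
  (TrL.c (I.mix (nat_lit 41527258) (nat_lit 41530880)) T1.l6
  (TrL.c (I.mix (nat_lit 41527258) (nat_lit 4274)) T1.l7
  TrL.n)))))))) (by decide +kernel)
theorem bx2_10 : BoxOK sI cl6 cl4 cl4 t1 t1 b2_10 :=
  box_mk (TrL.c (I.pos (nat_lit 0) (nat_lit 0)) (xb T1.l12 T1.l12)
  (TrL.c (I.pos (nat_lit 0) (nat_lit 0)) T1.l1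
  (TrL.c (I.pos (nat_lit 0) (nat_lit 89480386)) T1.l2
  (TrL.c (I.pos (nat_lit 0) (nat_lit 41530880)) T1.l3
  (TrL.c (I.pos (nat_lit 0) (nat_lit 0)) T1.l13
  (TrL.c (I.pos (nat_lit 0) (nat_lit 0)) T1.l5
  (TrL.c (I.mix (nat_lit 41527258) (nat_lit 41530880)) T1.l6
  (TrL.c (I.mix (nat_lit 41527258) (nat_lit 4274)) T1.l7
  TrL.n)))))))) (by decide +kernel)
theorem sv2 : StarV sI cl6 cl4 cl4 t1 t1 t2 :=
  (bt_n (bt_n (bt_n (bt_b bx2_0) (bt_b bx2_1)) (bt_n (bt_b bx2_2) (bt_n (bt_b bx2_3) (bt_b bx2_4)))) (bt_n (bt_n (bt_b bx2_5) (bt_n (bt_b bx2_6) (bt_b bx2_7))) (bt_n (bt_b bx2_8) (bt_n (bt_b bx2_9) (bt_b bx2_10)))))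
def S2 : StarD := StarD.mk cl6 cl4 cl4 1 1 t2
def G : List StarD := [S0, S1, S2]
theorem so0 : StarOK sI G S0 :=
  star_mk (by decide) (by decide) rfl rfl rfl rfl rfl rfl (rfl : _ = t0) (rfl : _ = t2)
  (st_mk (Pth.l (Pth.l (Pth.l Pth.z))) (nat_lit 390566175) (nat_lit 395529746) (by decide +kernel))
  (st_mk (Pth.l (Pth.l (Pth.l Pth.z))) (nat_lit 431018942) (nat_lit 437176920) (by decide +kernel))
  (st_mk (Pth.l (Pth.l (Pth.l Pth.z))) (nat_lit 478504447) (nat_lit 486266101) (by decide +kernel)) sv0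
theorem so1 : StarOK sI G S1 :=
  star_mk (by decide) (by decide) rfl rfl rfl rfl rfl rfl (rfl : _ = t2) (rfl : _ = t0)
  (st_mk (Pth.l (Pth.l (Pth.l (Pth.l Pth.z)))) (nat_lit 196485160) (nat_lit 198441500) (by decide +kernel))
  (st_mk (Pth.l (Pth.l (Pth.l (Pth.l Pth.z)))) (nat_lit 235971291) (nat_lit 238871062) (by decide +kernel))
  (st_mk (Pth.l (Pth.l (Pth.l (Pth.l Pth.z)))) (nat_lit 282759816) (nat_lit 287069335) (by decide +kernel)) sv1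
theorem so2 : StarOK sI G S2 :=
  star_mk (by decide) (by decide) rfl rfl rfl rfl rfl rfl (rfl : _ = t1) (rfl : _ = t1)
  (st_mk (Pth.l (Pth.l (Pth.l Pth.z))) (nat_lit 377855547) (nat_lit 380152604) (by decide +kernel))
  (st_mk (Pth.l (Pth.l (Pth.l Pth.z))) (nat_lit 415421905) (nat_lit 418219489) (by decide +kernel))
  (st_mk (Pth.l (Pth.l (Pth.l Pth.z))) (nat_lit 459110052) (nat_lit 462558593) (by decide +kernel)) sv2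
theorem ok : GroupOK (nat_lit 91226112) (nat_lit 150339584) G := grp_mk (allS_c so0 (allS_c so1 (allS_c so2 allS_n)))
theorem cov : GCov G cl4 cl4 cl6 := cov_mk
  ⟨0, by decide, rfl, rfl, rfl⟩ ⟨1, by decide, rfl, rfl, rfl⟩ ⟨0, by decide, rfl, rfl, rfl⟩ ⟨1, by decide, rfl, rfl, rfl⟩ ⟨2, by decide, rfl, rfl, rfl⟩ ⟨2, by decide, rfl, rfl, rfl⟩
end Q113_1

namespace Q113_2
def sI : I := I.pos (nat_lit 150274048) (nat_lit 209387520)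
def b0_0 : Bx := Bx.mk (St.mk (I.pos (nat_lit 142196736) (nat_lit 215302144)) (I.mix (nat_lit 278528) (nat_lit 100188160)) (I.mix (nat_lit 26689536) (nat_lit 63127552)) (I.pos (nat_lit 393134080) (nat_lit 495386624)) (I.mix (nat_lit 171966464) (nat_lit 102268928)) (I.mix (nat_lit 111542272) (nat_lit 103170048)) (I.mix (nat_lit 173834240) (nat_lit 167952384)))
  false (nat_lit 5147745)
def b0_1 : Bx := Bx.mk (St.mk (I.mix (nat_lit 48365568) (nat_lit 6815744)) (I.mix (nat_lit 16924672) (nat_lit 81510400)) (I.neg (nat_lit 68157440) (nat_lit 93224960)) (I.pos (nat_lit 265912320) (nat_lit 294010880)) (I.mix (nat_lit 78725120) (nat_lit 147095552)) (I.mix (nat_lit 115703808) (nat_lit 85639168)) (I.mix (nat_lit 61997056) (nat_lit 51576832)))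
  true (nat_lit 0)
def b0_2 : Bx := Bx.mk (St.mk (I.mix (nat_lit 1769472) (nat_lit 48365568)) (I.neg (nat_lit 28835840) (nat_lit 81510400)) (I.neg (nat_lit 68108288) (nat_lit 93224960)) (I.pos (nat_lit 269008896) (nat_lit 294010880)) (I.mix (nat_lit 147095552) (nat_lit 52641792)) (I.mix (nat_lit 85639168) (nat_lit 112951296)) (I.mix (nat_lit 61997056) (nat_lit 51576832)))
  false (nat_lit 0)
def b0_3 : Bx := Bx.mk (St.mk (I.mix (nat_lit 24788992) (nat_lit 6209536)) (I.mix (nat_lit 18038784) (nat_lit 17694720)) (I.neg (nat_lit 69484544) (nat_lit 76070912)) (I.pos (nat_lit 267337728) (nat_lit 277561344)) (I.mix (nat_lit 71974912) (nat_lit 58572800)) (I.mix (nat_lit 55328768) (nat_lit 53772288)) (I.mix (nat_lit 8339456) (nat_lit 17514496)))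
  true (nat_lit 0)
def b0_4 : Bx := Bx.mk (St.mk (I.pos (nat_lit 192741376) (nat_lit 251281408)) (I.mix (nat_lit 27688960) (nat_lit 24084480)) (I.neg (nat_lit 89473024) (nat_lit 182009856)) (I.pos (nat_lit 435322880) (nat_lit 537362432)) (I.mix (nat_lit 167559168) (nat_lit 76660736)) (I.mix (nat_lit 116654080) (nat_lit 113410048)) (I.mix (nat_lit 175587328) (nat_lit 227622912)))
  false (nat_lit 0)
def b0_5 : Bx := Bx.mk (St.mk (I.mix (nat_lit 5144576) (nat_lit 24592384)) (I.mix (nat_lit 14450688) (nat_lit 16924672)) (I.neg (nat_lit 69533696) (nat_lit 76070912)) (I.pos (nat_lit 267419648) (nat_lit 277561344)) (I.mix (nat_lit 49971200) (nat_lit 66732032)) (I.mix (nat_lit 49168384) (nat_lit 55508992)) (I.mix (nat_lit 7979008) (nat_lit 17530880)))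
  false (nat_lit 0)
def b0_6 : Bx := Bx.mk (St.mk (I.pos (nat_lit 7028736) (nat_lit 122634240)) (I.neg (nat_lit 6242304) (nat_lit 85753856)) (I.neg (nat_lit 29179904) (nat_lit 98762752)) (I.pos (nat_lit 267862016) (nat_lit 342884352)) (I.mix (nat_lit 148766720) (nat_lit 94191616)) (I.mix (nat_lit 89800704) (nat_lit 106250240)) (I.mix (nat_lit 103186432) (nat_lit 97075200)))
  false (nat_lit 12068216)
def b0_7 : Bx := Bx.mk (St.mk (I.pos (nat_lit 78528512) (nat_lit 190627840)) (I.mix (nat_lit 39337984) (nat_lit 78921728)) (I.mix (nat_lit 59932672) (nat_lit 54689792)) (I.pos (nat_lit 303464448) (nat_lit 451330048)) (I.mix (nat_lit 194969600) (nat_lit 99975168)) (I.mix (nat_lit 171130880) (nat_lit 133070848)) (I.mix (nat_lit 173768704) (nat_lit 160399360)))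
  false (nat_lit 2129711)
def b0_8 : Bx := Bx.mk (St.mk (I.neg (nat_lit 7077888) (nat_lit 125501440)) (I.mix (nat_lit 1490944) (nat_lit 85753856)) (I.neg (nat_lit 23232512) (nat_lit 98795520)) (I.pos (nat_lit 267862016) (nat_lit 346259456)) (I.mix (nat_lit 94191616) (nat_lit 148783104)) (I.mix (nat_lit 106266624) (nat_lit 89817088)) (I.mix (nat_lit 103202816) (nat_lit 97075200)))
  true (nat_lit 0)
def b0_9 : Bx := Bx.mk (St.mk (I.pos (nat_lit 171737088) (nat_lit 242925568)) (I.mix (nat_lit 24920064) (nat_lit 46678016)) (I.neg (nat_lit 41533440) (nat_lit 171819008)) (I.pos (nat_lit 412254208) (nat_lit 515620864)) (I.mix (nat_lit 186384384) (nat_lit 88227840)) (I.mix (nat_lit 128237568) (nat_lit 134283264)) (I.mix (nat_lit 193691648) (nat_lit 240140288)))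
  false (nat_lit 5502929)
def b0_10 : Bx := Bx.mk (St.mk (I.mix (nat_lit 573440) (nat_lit 37322752)) (I.mix (nat_lit 32718848) (nat_lit 15204352)) (I.neg (nat_lit 69025792) (nat_lit 80625664)) (I.pos (nat_lit 266420224) (nat_lit 281706496)) (I.mix (nat_lit 66338816) (nat_lit 78725120)) (I.mix (nat_lit 61865984) (nat_lit 63913984)) (I.mix (nat_lit 22069248) (nat_lit 26361856)))
  false (nat_lit 0)
def b0_11 : Bx := Bx.mk (St.mk (I.pos (nat_lit 159072256) (nat_lit 233226240)) (I.pos (nat_lit 12681216) (nat_lit 90456064)) (I.mix (nat_lit 91832320) (nat_lit 39944192)) (I.pos (nat_lit 411090944) (nat_lit 524419072)) (I.mix (nat_lit 158515200) (nat_lit 141033472)) (I.mix (nat_lit 151175168) (nat_lit 123453440)) (I.mix (nat_lit 279576576) (nat_lit 166543360)))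
  false (nat_lit 2928124)
def b0_12 : Bx := Bx.mk (St.mk (I.mix (nat_lit 6782976) (nat_lit 38764544)) (I.neg (nat_lit 7798784) (nat_lit 66191360)) (I.neg (nat_lit 71827456) (nat_lit 89227264)) (I.pos (nat_lit 265912320) (nat_lit 285540352)) (I.mix (nat_lit 131858432) (nat_lit 75202560)) (I.mix (nat_lit 67158016) (nat_lit 110772224)) (I.mix (nat_lit 42336256) (nat_lit 35160064)))
  false (nat_lit 0)
def t0 : BTr := (BTr.n (BTr.n (BTr.n (BTr.b b0_0) (BTr.n (BTr.b b0_1) (BTr.b b0_2))) (BTr.n (BTr.b b0_3) (BTr.n (BTr.b b0_4) (BTr.b b0_5)))) (BTr.n (BTr.n (BTr.b b0_6) (BTr.n (BTr.b b0_7) (BTr.b b0_8))) (BTr.n (BTr.n (BTr.b b0_9) (BTr.b b0_10)) (BTr.n (BTr.b b0_11) (BTr.b b0_12)))))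
namespace T0
def l0 : Tr := Tr.L (Pth.l (Pth.l (Pth.l Pth.z)))
def l1 : Tr := Tr.L (Pth.l (Pth.l (Pth.r (Pth.l Pth.z))))
def l2 : Tr := Tr.L (Pth.l (Pth.l (Pth.r (Pth.r Pth.z))))
def l3 : Tr := Tr.L (Pth.l (Pth.r (Pth.l Pth.z)))
def l4 : Tr := Tr.L (Pth.l (Pth.r (Pth.r (Pth.l Pth.z))))
def l5 : Tr := Tr.L (Pth.l (Pth.r (Pth.r (Pth.r Pth.z))))
def l6 : Tr := Tr.L (Pth.r (Pth.l (Pth.l Pth.z)))
def l7 : Tr := Tr.L (Pth.r (Pth.l (Pth.r (Pth.l Pth.z))))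
def l8 : Tr := Tr.L (Pth.r (Pth.l (Pth.r (Pth.r Pth.z))))
def l9 : Tr := Tr.L (Pth.r (Pth.r (Pth.l (Pth.l Pth.z))))
def l10 : Tr := Tr.L (Pth.r (Pth.r (Pth.l (Pth.r Pth.z))))
def l11 : Tr := Tr.L (Pth.r (Pth.r (Pth.r (Pth.l Pth.z))))
def l12 : Tr := Tr.L (Pth.r (Pth.r (Pth.r (Pth.r Pth.z))))
end T0
def b1_0 : Bx := Bx.mk (St.mk (I.pos (nat_lit 137707520) (nat_lit 221970432)) (I.mix (nat_lit 278528) (nat_lit 62816256)) (I.mix (nat_lit 278528) (nat_lit 97992704)) (I.pos (nat_lit 197607424) (nat_lit 297189376)) (I.mix (nat_lit 158875648) (nat_lit 104890368)) (I.mix (nat_lit 106004480) (nat_lit 98795520)) (I.mix (nat_lit 158040064) (nat_lit 139689984)))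
  false (nat_lit 0)
def b1_1 : Bx := Bx.mk (St.mk (I.pos (nat_lit 84606976) (nat_lit 142737408)) (I.neg (nat_lit 3833856) (nat_lit 60178432)) (I.neg (nat_lit 704512) (nat_lit 53428224)) (I.pos (nat_lit 128417792) (nat_lit 173228032)) (I.mix (nat_lit 93011968) (nat_lit 69632000)) (I.mix (nat_lit 58818560) (nat_lit 76267520)) (I.mix (nat_lit 53919744) (nat_lit 71155712)))
  false (nat_lit 0)
def b1_2 : Bx := Bx.mk (St.mk (I.mix (nat_lit 33652736) (nat_lit 93323264)) (I.mix (nat_lit 8355840) (nat_lit 40960000)) (I.mix (nat_lit 14499840) (nat_lit 17170432)) (I.pos (nat_lit 83394560) (nat_lit 125730816)) (I.mix (nat_lit 59670528) (nat_lit 67354624)) (I.mix (nat_lit 60669952) (nat_lit 45334528)) (I.mix (nat_lit 41156608) (nat_lit 26312704)))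
  false (nat_lit 0)
def b1_3 : Bx := Bx.mk (St.mk (I.mix (nat_lit 34799616) (nat_lit 39419904)) (I.mix (nat_lit 35078144) (nat_lit 6488064)) (I.mix (nat_lit 12140544) (nat_lit 2457600)) (I.pos (nat_lit 85065728) (nat_lit 103972864)) (I.mix (nat_lit 42123264) (nat_lit 50233344)) (I.mix (nat_lit 32276480) (nat_lit 44498944)) (I.mix (nat_lit 12894208) (nat_lit 17334272)))
  false (nat_lit 0)
def b1_4 : Bx := Bx.mk (St.mk (I.pos (nat_lit 142147584) (nat_lit 197771264)) (I.mix (nat_lit 8847360) (nat_lit 56770560)) (I.pos (nat_lit 11698176) (nat_lit 86491136)) (I.pos (nat_lit 183402496) (nat_lit 253001728)) (I.mix (nat_lit 155795456) (nat_lit 49676288)) (I.mix (nat_lit 149864448) (nat_lit 82231296)) (I.mix (nat_lit 149520384) (nat_lit 79593472)))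
  false (nat_lit 0)
def b1_5 : Bx := Bx.mk (St.mk (I.pos (nat_lit 80936960) (nat_lit 114229248)) (I.mix (nat_lit 56934400) (nat_lit 10993664)) (I.neg (nat_lit 3571712) (nat_lit 50905088)) (I.pos (nat_lit 118800384) (nat_lit 145620992)) (I.mix (nat_lit 102629376) (nat_lit 53837824)) (I.mix (nat_lit 49545216) (nat_lit 93388800)) (I.mix (nat_lit 37109760) (nat_lit 62062592)))
  false (nat_lit 0)
def b1_6 : Bx := Bx.mk (St.mk (I.mix (nat_lit 45596672) (nat_lit 67780608)) (I.mix (nat_lit 10649600) (nat_lit 32997376)) (I.mix (nat_lit 9879552) (nat_lit 11862016)) (I.pos (nat_lit 86474752) (nat_lit 108888064)) (I.mix (nat_lit 62586880) (nat_lit 44908544)) (I.mix (nat_lit 51265536) (nat_lit 36372480)) (I.mix (nat_lit 18382848) (nat_lit 17842176)))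
  false (nat_lit 0)
def b1_7 : Bx := Bx.mk (St.mk (I.mix (nat_lit 44285952) (nat_lit 32145408)) (I.mix (nat_lit 35815424) (nat_lit 6586368)) (I.mix (nat_lit 9945088) (nat_lit 3522560)) (I.pos (nat_lit 85393408) (nat_lit 103972864)) (I.mix (nat_lit 54083584) (nat_lit 40583168)) (I.mix (nat_lit 31506432) (nat_lit 45252608)) (I.mix (nat_lit 18350080) (nat_lit 10436608)))
  false (nat_lit 0)
def b1_8 : Bx := Bx.mk (St.mk (I.pos (nat_lit 184270848) (nat_lit 236437504)) (I.mix (nat_lit 18137088) (nat_lit 31408128)) (I.mix (nat_lit 52248576) (nat_lit 30736384)) (I.pos (nat_lit 253313024) (nat_lit 321650688)) (I.mix (nat_lit 155303936) (nat_lit 49512448)) (I.mix (nat_lit 85901312) (nat_lit 98992128)) (I.mix (nat_lit 145506304) (nat_lit 168443904)))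
  false (nat_lit 0)
def b1_9 : Bx := Bx.mk (St.mk (I.pos (nat_lit 143622144) (nat_lit 178503680)) (I.neg (nat_lit 3391488) (nat_lit 45449216)) (I.mix (nat_lit 36945920) (nat_lit 8486912)) (I.pos (nat_lit 183320576) (nat_lit 219119616)) (I.mix (nat_lit 81756160) (nat_lit 80871424)) (I.mix (nat_lit 85458944) (nat_lit 73596928)) (I.mix (nat_lit 84951040) (nat_lit 68009984)))
  false (nat_lit 0)
def b1_10 : Bx := Bx.mk (St.mk (I.pos (nat_lit 170639360) (nat_lit 227524608)) (I.pos (nat_lit 7733248) (nat_lit 60358656)) (I.pos (nat_lit 3932160) (nat_lit 89325568)) (I.pos (nat_lit 239108096) (nat_lit 310378496)) (I.mix (nat_lit 148094976) (nat_lit 110592000)) (I.mix (nat_lit 125239296) (nat_lit 101351424)) (I.mix (nat_lit 208830464) (nat_lit 163102720)))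
  false (nat_lit 0)
def b1_11 : Bx := Bx.mk (St.mk (I.pos (nat_lit 143998976) (nat_lit 183779328)) (I.mix (nat_lit 23166976) (nat_lit 23756800)) (I.mix (nat_lit 4784128) (nat_lit 46235648)) (I.pos (nat_lit 182599680) (nat_lit 226508800)) (I.mix (nat_lit 140738560) (nat_lit 80445440)) (I.mix (nat_lit 139952128) (nat_lit 84951040)) (I.mix (nat_lit 140492800) (nat_lit 84672512)))
  false (nat_lit 0)
def b1_12 : Bx := Bx.mk (St.mk (I.pos (nat_lit 111771648) (nat_lit 152174592)) (I.neg (nat_lit 98304) (nat_lit 39010304)) (I.mix (nat_lit 30720000) (nat_lit 5832704)) (I.pos (nat_lit 148979712) (nat_lit 184926208)) (I.mix (nat_lit 85426176) (nat_lit 40075264)) (I.mix (nat_lit 41320448) (nat_lit 54034432)) (I.mix (nat_lit 40714240) (nat_lit 49840128)))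
  false (nat_lit 0)
def b1_13 : Bx := Bx.mk (St.mk (I.pos (nat_lit 67256320) (nat_lit 90292224)) (I.mix (nat_lit 12877824) (nat_lit 12500992)) (I.neg (nat_lit 950272) (nat_lit 17121280)) (I.pos (nat_lit 109953024) (nat_lit 124731392)) (I.mix (nat_lit 46448640) (nat_lit 30851072)) (I.mix (nat_lit 31571968) (nat_lit 28033024)) (I.mix (nat_lit 21053440) (nat_lit 18857984)))
  false (nat_lit 0)
def b1_14 : Bx := Bx.mk (St.mk (I.mix (nat_lit 61259776) (nat_lit 46661632)) (I.mix (nat_lit 14663680) (nat_lit 13516800)) (I.mix (nat_lit 4685824) (nat_lit 4227072)) (I.pos (nat_lit 87064576) (nat_lit 105955328)) (I.mix (nat_lit 45334528) (nat_lit 28573696)) (I.mix (nat_lit 28622848) (nat_lit 30081024)) (I.mix (nat_lit 11190272) (nat_lit 10960896)))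
  false (nat_lit 0)
def b1_15 : Bx := Bx.mk (St.mk (I.mix (nat_lit 59277312) (nat_lit 5242880)) (I.mix (nat_lit 10747904) (nat_lit 13271040)) (I.neg (nat_lit 3473408) (nat_lit 12550144)) (I.pos (nat_lit 90324992) (nat_lit 105775104)) (I.mix (nat_lit 41680896) (nat_lit 28557312)) (I.mix (nat_lit 28147712) (nat_lit 29818880)) (I.mix (nat_lit 12730368) (nat_lit 10715136)))
  false (nat_lit 0)
def b1_16 : Bx := Bx.mk (St.mk (I.pos (nat_lit 191594496) (nat_lit 227033088)) (I.pos (nat_lit 5226496) (nat_lit 32391168)) (I.mix (nat_lit 3375104) (nat_lit 33669120)) (I.pos (nat_lit 266747904) (nat_lit 301105152)) (I.mix (nat_lit 98009088) (nat_lit 28639232)) (I.mix (nat_lit 56573952) (nat_lit 46170112)) (I.mix (nat_lit 94912512) (nat_lit 78905344)))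
  false (nat_lit 0)
def b1_17 : Bx := Bx.mk (St.mk (I.pos (nat_lit 152879104) (nat_lit 170754048)) (I.neg (nat_lit 4538368) (nat_lit 22315008)) (I.mix (nat_lit 9420800) (nat_lit 10092544)) (I.pos (nat_lit 192741376) (nat_lit 209207296)) (I.mix (nat_lit 52330496) (nat_lit 32718848)) (I.mix (nat_lit 45776896) (nat_lit 38223872)) (I.mix (nat_lit 45416448) (nat_lit 40828928)))
  false (nat_lit 0)
def b1_18 : Bx := Bx.mk (St.mk (I.pos (nat_lit 194953216) (nat_lit 250675200)) (I.mix (nat_lit 20365312) (nat_lit 15007744)) (I.neg (nat_lit 589824) (nat_lit 59162624)) (I.pos (nat_lit 271695872) (nat_lit 357810176)) (I.mix (nat_lit 135593984) (nat_lit 44630016)) (I.mix (nat_lit 78397440) (nat_lit 74072064)) (I.mix (nat_lit 136445952) (nat_lit 136495104)))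
  false (nat_lit 0)
def b1_19 : Bx := Bx.mk (St.mk (I.pos (nat_lit 136331264) (nat_lit 166133760)) (I.neg (nat_lit 13123584) (nat_lit 39010304)) (I.neg (nat_lit 5554176) (nat_lit 33210368)) (I.pos (nat_lit 171917312) (nat_lit 203931648)) (I.mix (nat_lit 66912256) (nat_lit 48873472)) (I.mix (nat_lit 58261504) (nat_lit 46071808)) (I.mix (nat_lit 65273856) (nat_lit 43843584)))
  false (nat_lit 0)
def t1 : BTr := (BTr.n (BTr.n (BTr.n (BTr.n (BTr.b b1_0) (BTr.b b1_1)) (BTr.n (BTr.b b1_2) (BTr.n (BTr.b b1_3) (BTr.b b1_4)))) (BTr.n (BTr.n (BTr.b b1_5) (BTr.b b1_6)) (BTr.n (BTr.b b1_7) (BTr.n (BTr.b b1_8) (BTr.b b1_9))))) (BTr.n (BTr.n (BTr.n (BTr.b b1_10) (BTr.b b1_11)) (BTr.n (BTr.b b1_12) (BTr.n (BTr.b b1_13) (BTr.b b1_14)))) (BTr.n (BTr.n (BTr.b b1_15) (BTr.b b1_16)) (BTr.n (BTr.b b1_17) (BTr.n (BTr.b b1_18) (BTr.b b1_19))))))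
namespace T1
def l0 : Tr := Tr.L (Pth.l (Pth.l (Pth.l (Pth.l Pth.z))))
def l1 : Tr := Tr.L (Pth.l (Pth.l (Pth.l (Pth.r Pth.z))))
def l2 : Tr := Tr.L (Pth.l (Pth.l (Pth.r (Pth.l Pth.z))))
def l3 : Tr := Tr.L (Pth.l (Pth.l (Pth.r (Pth.r (Pth.l Pth.z)))))
def l4 : Tr := Tr.L (Pth.l (Pth.l (Pth.r (Pth.r (Pth.r Pth.z)))))
def l5 : Tr := Tr.L (Pth.l (Pth.r (Pth.l (Pth.l Pth.z))))
def l6 : Tr := Tr.L (Pth.l (Pth.r (Pth.l (Pth.r Pth.z))))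
def l7 : Tr := Tr.L (Pth.l (Pth.r (Pth.r (Pth.l Pth.z))))
def l8 : Tr := Tr.L (Pth.l (Pth.r (Pth.r (Pth.r (Pth.l Pth.z)))))
def l9 : Tr := Tr.L (Pth.l (Pth.r (Pth.r (Pth.r (Pth.r Pth.z)))))
def l10 : Tr := Tr.L (Pth.r (Pth.l (Pth.l (Pth.l Pth.z))))
def l11 : Tr := Tr.L (Pth.r (Pth.l (Pth.l (Pth.r Pth.z))))
def l12 : Tr := Tr.L (Pth.r (Pth.l (Pth.r (Pth.l Pth.z))))
def l13 : Tr := Tr.L (Pth.r (Pth.l (Pth.r (Pth.r (Pth.l Pth.z)))))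
def l14 : Tr := Tr.L (Pth.r (Pth.l (Pth.r (Pth.r (Pth.r Pth.z)))))
def l15 : Tr := Tr.L (Pth.r (Pth.r (Pth.l (Pth.l Pth.z))))
def l16 : Tr := Tr.L (Pth.r (Pth.r (Pth.l (Pth.r Pth.z))))
def l17 : Tr := Tr.L (Pth.r (Pth.r (Pth.r (Pth.l Pth.z))))
def l18 : Tr := Tr.L (Pth.r (Pth.r (Pth.r (Pth.r (Pth.l Pth.z)))))
def l19 : Tr := Tr.L (Pth.r (Pth.r (Pth.r (Pth.r (Pth.r Pth.z)))))
end T1
def b2_0 : Bx := Bx.mk (St.mk (I.pos (nat_lit 121798656) (nat_lit 215302144)) (I.mix (nat_lit 278528) (nat_lit 85786624)) (I.mix (nat_lit 278528) (nat_lit 131940352)) (I.pos (nat_lit 364576768) (nat_lit 466911232)) (I.mix (nat_lit 216334336) (nat_lit 114229248)) (I.mix (nat_lit 130482176) (nat_lit 109608960)) (I.mix (nat_lit 158810112) (nat_lit 156516352)))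
  false (nat_lit 71095768)
def b2_1 : Bx := Bx.mk (St.mk (I.pos (nat_lit 30359552) (nat_lit 108363776)) (I.neg (nat_lit 2572288) (nat_lit 96288768)) (I.mix (nat_lit 43958272) (nat_lit 37961728)) (I.pos (nat_lit 283361280) (nat_lit 331939840)) (I.mix (nat_lit 128630784) (nat_lit 117374976)) (I.mix (nat_lit 106004480) (nat_lit 105889792)) (I.mix (nat_lit 102662144) (nat_lit 97042432)))
  false (nat_lit 114722606)
def b2_2 : Bx := Bx.mk (St.mk (I.pos (nat_lit 98795520) (nat_lit 175177728)) (I.mix (nat_lit 45154304) (nat_lit 77447168)) (I.pos (nat_lit 2113536) (nat_lit 131186688)) (I.pos (nat_lit 316653568) (nat_lit 412385280)) (I.mix (nat_lit 218546176) (nat_lit 107085824)) (I.mix (nat_lit 182108160) (nat_lit 135331840)) (I.mix (nat_lit 200851456) (nat_lit 169328640)))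
  false (nat_lit 58465741)
def b2_3 : Bx := Bx.mk (St.mk (I.neg (nat_lit 30408704) (nat_lit 112476160)) (I.pos (nat_lit 1671168) (nat_lit 96288768)) (I.mix (nat_lit 43974656) (nat_lit 37961728)) (I.pos (nat_lit 283344896) (nat_lit 331939840)) (I.mix (nat_lit 117391360) (nat_lit 128630784)) (I.mix (nat_lit 105889792) (nat_lit 106020864)) (I.mix (nat_lit 102662144) (nat_lit 97042432)))
  true (nat_lit 0)
def b2_4 : Bx := Bx.mk (St.mk (I.pos (nat_lit 72941568) (nat_lit 113688576)) (I.neg (nat_lit 606208) (nat_lit 39600128)) (I.pos (nat_lit 5128192) (nat_lit 38436864)) (I.pos (nat_lit 296992768) (nat_lit 331890688)) (I.mix (nat_lit 99483648) (nat_lit 73367552)) (I.mix (nat_lit 65634304) (nat_lit 74383360)) (I.mix (nat_lit 62488576) (nat_lit 62865408)))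
  false (nat_lit 0)
def b2_5 : Bx := Bx.mk (St.mk (I.mix (nat_lit 56131584) (nat_lit 17842176)) (I.mix (nat_lit 18530304) (nat_lit 86523904)) (I.neg (nat_lit 15122432) (nat_lit 36749312)) (I.pos (nat_lit 274628608) (nat_lit 303857664)) (I.mix (nat_lit 71630848) (nat_lit 128647168)) (I.mix (nat_lit 103284736) (nat_lit 90865664)) (I.mix (nat_lit 50675712) (nat_lit 31457280)))
  true (nat_lit 0)
def b2_6 : Bx := Bx.mk (St.mk (I.pos (nat_lit 15810560) (nat_lit 56131584)) (I.neg (nat_lit 32505856) (nat_lit 86704128)) (I.neg (nat_lit 21086208) (nat_lit 36749312)) (I.pos (nat_lit 280543232) (nat_lit 304300032)) (I.mix (nat_lit 128647168) (nat_lit 67862528)) (I.mix (nat_lit 90865664) (nat_lit 99450880)) (I.mix (nat_lit 50675712) (nat_lit 31457280)))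
  false (nat_lit 54373524)
def b2_7 : Bx := Bx.mk (St.mk (I.pos (nat_lit 18743296) (nat_lit 46972928)) (I.neg (nat_lit 5144576) (nat_lit 40058880)) (I.neg (nat_lit 15155200) (nat_lit 22233088)) (I.pos (nat_lit 277299200) (nat_lit 287440896)) (I.mix (nat_lit 46546944) (nat_lit 65241088)) (I.mix (nat_lit 47579136) (nat_lit 44531712)) (I.mix (nat_lit 13615104) (nat_lit 13320192)))
  false (nat_lit 0)
def b2_8 : Bx := Bx.mk (St.mk (I.pos (nat_lit 198721536) (nat_lit 286081024)) (I.mix (nat_lit 27066368) (nat_lit 57950208)) (I.mix (nat_lit 91389952) (nat_lit 73793536)) (I.pos (nat_lit 454066176) (nat_lit 605208576)) (I.mix (nat_lit 106856448) (nat_lit 83099648)) (I.mix (nat_lit 92405760) (nat_lit 86949888)) (I.mix (nat_lit 167739392) (nat_lit 150650880)))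
  false (nat_lit 0)
def b2_9 : Bx := Bx.mk (St.mk (I.mix (nat_lit 16875520) (nat_lit 24117248)) (I.mix (nat_lit 36126720) (nat_lit 12451840)) (I.neg (nat_lit 18595840) (nat_lit 23068672)) (I.pos (nat_lit 274481152) (nat_lit 281247744)) (I.mix (nat_lit 48758784) (nat_lit 35078144)) (I.mix (nat_lit 33161216) (nat_lit 34455552)) (I.mix (nat_lit 8290304) (nat_lit 6078464)))
  false (nat_lit 0)
def b2_10 : Bx := Bx.mk (St.mk (I.pos (nat_lit 217071616) (nat_lit 270581760)) (I.mix (nat_lit 36798464) (nat_lit 21348352)) (I.neg (nat_lit 753664) (nat_lit 112754688)) (I.pos (nat_lit 476119040) (nat_lit 571686912)) (I.mix (nat_lit 109166592) (nat_lit 19890176)) (I.mix (nat_lit 45711360) (nat_lit 77168640)) (I.mix (nat_lit 81051648) (nat_lit 142458880)))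
  false (nat_lit 0)
def b2_11 : Bx := Bx.mk (St.mk (I.mix (nat_lit 10321920) (nat_lit 17121280)) (I.mix (nat_lit 13369344) (nat_lit 18677760)) (I.neg (nat_lit 18792448) (nat_lit 21381120)) (I.pos (nat_lit 274595840) (nat_lit 278216704)) (I.mix (nat_lit 24412160) (nat_lit 37240832)) (I.mix (nat_lit 26066944) (nat_lit 20168704)) (I.mix (nat_lit 4128768) (nat_lit 2080768)))
  false (nat_lit 0)
def b2_12 : Bx := Bx.mk (St.mk (I.pos (nat_lit 139247616) (nat_lit 202244096)) (I.pos (nat_lit 28459008) (nat_lit 84279296)) (I.pos (nat_lit 41631744) (nat_lit 124092416)) (I.pos (nat_lit 382943232) (nat_lit 448397312)) (I.mix (nat_lit 153370624) (nat_lit 115982336)) (I.mix (nat_lit 125911040) (nat_lit 87703552)) (I.mix (nat_lit 193708032) (nat_lit 119357440)))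
  false (nat_lit 14445139)
def b2_13 : Bx := Bx.mk (St.mk (I.pos (nat_lit 18759680) (nat_lit 53297152)) (I.neg (nat_lit 23478272) (nat_lit 74334208)) (I.neg (nat_lit 17432576) (nat_lit 33865728)) (I.pos (nat_lit 281296896) (nat_lit 296943616)) (I.mix (nat_lit 110608384) (nat_lit 71630848)) (I.mix (nat_lit 59850752) (nat_lit 103284736)) (I.mix (nat_lit 32555008) (nat_lit 23511040)))
  false (nat_lit 6415500)
def b2_14 : Bx := Bx.mk (St.mk (I.pos (nat_lit 179339264) (nat_lit 224559104)) (I.mix (nat_lit 262144) (nat_lit 48119808)) (I.mix (nat_lit 11780096) (nat_lit 61358080)) (I.pos (nat_lit 420544512) (nat_lit 476577792)) (I.mix (nat_lit 113983488) (nat_lit 79822848)) (I.mix (nat_lit 78135296) (nat_lit 71155712)) (I.mix (nat_lit 116654080) (nat_lit 121421824)))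
  false (nat_lit 0)
def b2_15 : Bx := Bx.mk (St.mk (I.pos (nat_lit 15548416) (nat_lit 38813696)) (I.neg (nat_lit 4734976) (nat_lit 35323904)) (I.neg (nat_lit 15220736) (nat_lit 21495808)) (I.pos (nat_lit 277069824) (nat_lit 283918336)) (I.mix (nat_lit 57278464) (nat_lit 53936128)) (I.mix (nat_lit 44859392) (nat_lit 43925504)) (I.mix (nat_lit 10584064) (nat_lit 10731520)))
  false (nat_lit 0)
def b2_16 : Bx := Bx.mk (St.mk (I.pos (nat_lit 247119872) (nat_lit 288260096)) (I.mix (nat_lit 33030144) (nat_lit 14041088)) (I.neg (nat_lit 23805952) (nat_lit 106430464)) (I.pos (nat_lit 531333120) (nat_lit 610484224)) (I.mix (nat_lit 95944704) (nat_lit 73187328)) (I.mix (nat_lit 89636864) (nat_lit 67190784)) (I.mix (nat_lit 174817280) (nat_lit 114966528)))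
  false (nat_lit 0)
def b2_17 : Bx := Bx.mk (St.mk (I.mix (nat_lit 17842176) (nat_lit 16875520)) (I.mix (nat_lit 24772608) (nat_lit 15876096)) (I.neg (nat_lit 18907136) (nat_lit 22380544)) (I.pos (nat_lit 274497536) (nat_lit 279117824)) (I.mix (nat_lit 39469056) (nat_lit 28688384)) (I.mix (nat_lit 21938176) (nat_lit 31227904)) (I.mix (nat_lit 5406720) (nat_lit 2506752)))
  false (nat_lit 0)
def b2_18 : Bx := Bx.mk (St.mk (I.pos (nat_lit 219234304) (nat_lit 275775488)) (I.mix (nat_lit 42844160) (nat_lit 14860288)) (I.neg (nat_lit 13385728) (nat_lit 127008768)) (I.pos (nat_lit 479674368) (nat_lit 583155712)) (I.mix (nat_lit 112721920) (nat_lit 42254336)) (I.mix (nat_lit 61882368) (nat_lit 76185600)) (I.mix (nat_lit 115720192) (nat_lit 140656640)))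
  false (nat_lit 0)
def b2_19 : Bx := Bx.mk (St.mk (I.mix (nat_lit 12500992) (nat_lit 15663104)) (I.mix (nat_lit 11599872) (nat_lit 21331968)) (I.neg (nat_lit 18857984) (nat_lit 21413888)) (I.pos (nat_lit 274612224) (nat_lit 278331392)) (I.mix (nat_lit 27377664) (nat_lit 35389440)) (I.mix (nat_lit 23691264) (nat_lit 23363584)) (I.mix (nat_lit 3620864) (nat_lit 2424832)))
  false (nat_lit 0)
def b2_20 : Bx := Bx.mk (St.mk (I.pos (nat_lit 24608768) (nat_lit 44810240)) (I.neg (nat_lit 17219584) (nat_lit 43433984)) (I.neg (nat_lit 17629184) (nat_lit 23035904)) (I.pos (nat_lit 279216128) (nat_lit 287768576)) (I.mix (nat_lit 41336832) (nat_lit 41140224)) (I.mix (nat_lit 32276480) (nat_lit 37240832)) (I.mix (nat_lit 11157504) (nat_lit 8732672)))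
  false (nat_lit 0)
def b2_21 : Bx := Bx.mk (St.mk (I.pos (nat_lit 250019840) (nat_lit 287309824)) (I.neg (nat_lit 6438912) (nat_lit 44679168)) (I.neg (nat_lit 62341120) (nat_lit 134742016)) (I.pos (nat_lit 538705920) (nat_lit 608239616)) (I.mix (nat_lit 91160576) (nat_lit 38780928)) (I.mix (nat_lit 59260928) (nat_lit 58851328)) (I.mix (nat_lit 115998720) (nat_lit 101564416)))
  false (nat_lit 0)
def b2_22 : Bx := Bx.mk (St.mk (I.mix (nat_lit 17432576) (nat_lit 2113536)) (I.mix (nat_lit 2473984) (nat_lit 20398080)) (I.neg (nat_lit 19415040) (nat_lit 21676032)) (I.pos (nat_lit 274628608) (nat_lit 278724608)) (I.mix (nat_lit 24084480) (nat_lit 22118400)) (I.mix (nat_lit 15695872) (nat_lit 20414464)) (I.mix (nat_lit 3686400) (nat_lit 933888)))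
  false (nat_lit 0)
def b2_23 : Bx := Bx.mk (St.mk (I.pos (nat_lit 252493824) (nat_lit 285048832)) (I.neg (nat_lit 4292608) (nat_lit 45023232)) (I.neg (nat_lit 53411840) (nat_lit 132530176)) (I.pos (nat_lit 541573120) (nat_lit 604160000)) (I.mix (nat_lit 87556096) (nat_lit 34258944)) (I.mix (nat_lit 57868288) (nat_lit 56295424)) (I.mix (nat_lit 108658688) (nat_lit 99188736)))
  false (nat_lit 0)
def b2_24 : Bx := Bx.mk (St.mk (I.mix (nat_lit 17186816) (nat_lit 4292608)) (I.mix (nat_lit 5685248) (nat_lit 19021824)) (I.neg (nat_lit 18595840) (nat_lit 20824064)) (I.pos (nat_lit 274644992) (nat_lit 278740992)) (I.mix (nat_lit 23494656) (nat_lit 20070400)) (I.mix (nat_lit 15630336) (nat_lit 19185664)) (I.mix (nat_lit 2719744) (nat_lit 1966080)))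
  false (nat_lit 0)
def b2_25 : Bx := Bx.mk (St.mk (I.pos (nat_lit 177766400) (nat_lit 219185152)) (I.mix (nat_lit 851968) (nat_lit 41713664)) (I.mix (nat_lit 11517952) (nat_lit 47677440)) (I.pos (nat_lit 418856960) (nat_lit 466845696)) (I.mix (nat_lit 130334720) (nat_lit 56737792)) (I.mix (nat_lit 83574784) (nat_lit 68485120)) (I.mix (nat_lit 117194752) (nat_lit 108609536)))
  false (nat_lit 0)
def b2_26 : Bx := Bx.mk (St.mk (I.pos (nat_lit 201261056) (nat_lit 230342656)) (I.pos (nat_lit 14860288) (nat_lit 42041344)) (I.pos (nat_lit 8863744) (nat_lit 46792704)) (I.pos (nat_lit 454885376) (nat_lit 488374272)) (I.mix (nat_lit 60817408) (nat_lit 23281664)) (I.mix (nat_lit 37355520) (nat_lit 24002560)) (I.mix (nat_lit 55230464) (nat_lit 40534016)))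
  false (nat_lit 0)
def b2_27 : Bx := Bx.mk (St.mk (I.pos (nat_lit 11878400) (nat_lit 23953408)) (I.neg (nat_lit 13025280) (nat_lit 27672576)) (I.neg (nat_lit 18333696) (nat_lit 21512192)) (I.pos (nat_lit 276185088) (nat_lit 280838144)) (I.mix (nat_lit 23478272) (nat_lit 16187392)) (I.mix (nat_lit 13844480) (nat_lit 17481728)) (I.mix (nat_lit 4046848) (nat_lit 3047424)))
  false (nat_lit 0)
def t2 : BTr := (BTr.n (BTr.n (BTr.n (BTr.n (BTr.b b2_0) (BTr.n (BTr.b b2_1) (BTr.b b2_2))) (BTr.n (BTr.n (BTr.b b2_3) (BTr.b b2_4)) (BTr.n (BTr.b b2_5) (BTr.b b2_6)))) (BTr.n (BTr.n (BTr.b b2_7) (BTr.n (BTr.b b2_8) (BTr.b b2_9))) (BTr.n (BTr.n (BTr.b b2_10) (BTr.b b2_11)) (BTr.n (BTr.b b2_12) (BTr.b b2_13))))) (BTr.n (BTr.n (BTr.n (BTr.b b2_14) (BTr.n (BTr.b b2_15) (BTr.b b2_16))) (BTr.n (BTr.n (BTr.b b2_17) (BTr.b b2_18)) (BTr.n (BTr.b b2_19) (BTr.b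 b2_20)))) (BTr.n (BTr.n (BTr.b b2_21) (BTr.n (BTr.b b2_22) (BTr.b b2_23))) (BTr.n (BTr.n (BTr.b b2_24) (BTr.b b2_25)) (BTr.n (BTr.b b2_26) (BTr.b b2_27))))))
namespace T2
def l0 : Tr := Tr.L (Pth.l (Pth.l (Pth.l (Pth.l Pth.z))))
def l1 : Tr := Tr.L (Pth.l (Pth.l (Pth.l (Pth.r (Pth.l Pth.z)))))
def l2 : Tr := Tr.L (Pth.l (Pth.l (Pth.l (Pth.r (Pth.r Pth.z)))))
def l3 : Tr := Tr.L (Pth.l (Pth.l (Pth.r (Pth.l (Pth.l Pth.z)))))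
def l4 : Tr := Tr.L (Pth.l (Pth.l (Pth.r (Pth.l (Pth.r Pth.z)))))
def l5 : Tr := Tr.L (Pth.l (Pth.l (Pth.r (Pth.r (Pth.l Pth.z)))))
def l6 : Tr := Tr.L (Pth.l (Pth.l (Pth.r (Pth.r (Pth.r Pth.z)))))
def l7 : Tr := Tr.L (Pth.l (Pth.r (Pth.l (Pth.l Pth.z))))
def l8 : Tr := Tr.L (Pth.l (Pth.r (Pth.l (Pth.r (Pth.l Pth.z)))))
def l9 : Tr := Tr.L (Pth.l (Pth.r (Pth.l (Pth.r (Pth.r Pth.z)))))
def l10 : Tr := Tr.L (Pth.l (Pth.r (Pth.r (Pth.l (Pth.l Pth.z)))))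
def l11 : Tr := Tr.L (Pth.l (Pth.r (Pth.r (Pth.l (Pth.r Pth.z)))))
def l12 : Tr := Tr.L (Pth.l (Pth.r (Pth.r (Pth.r (Pth.l Pth.z)))))
def l13 : Tr := Tr.L (Pth.l (Pth.r (Pth.r (Pth.r (Pth.r Pth.z)))))
def l14 : Tr := Tr.L (Pth.r (Pth.l (Pth.l (Pth.l Pth.z))))
def l15 : Tr := Tr.L (Pth.r (Pth.l (Pth.l (Pth.r (Pth.l Pth.z)))))
def l16 : Tr := Tr.L (Pth.r (Pth.l (Pth.l (Pth.r (Pth.r Pth.z)))))
def l17 : Tr := Tr.L (Pth.r (Pth.l (Pth.r (Pth.l (Pth.l Pth.z)))))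
def l18 : Tr := Tr.L (Pth.r (Pth.l (Pth.r (Pth.l (Pth.r Pth.z)))))
def l19 : Tr := Tr.L (Pth.r (Pth.l (Pth.r (Pth.r (Pth.l Pth.z)))))
def l20 : Tr := Tr.L (Pth.r (Pth.l (Pth.r (Pth.r (Pth.r Pth.z)))))
def l21 : Tr := Tr.L (Pth.r (Pth.r (Pth.l (Pth.l Pth.z))))
def l22 : Tr := Tr.L (Pth.r (Pth.r (Pth.l (Pth.r (Pth.l Pth.z)))))
def l23 : Tr := Tr.L (Pth.r (Pth.r (Pth.l (Pth.r (Pth.r Pth.z)))))
def l24 : Tr := Tr.L (Pth.r (Pth.r (Pth.r (Pth.l (Pth.l Pth.z)))))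
def l25 : Tr := Tr.L (Pth.r (Pth.r (Pth.r (Pth.l (Pth.r Pth.z)))))
def l26 : Tr := Tr.L (Pth.r (Pth.r (Pth.r (Pth.r (Pth.l Pth.z)))))
def l27 : Tr := Tr.L (Pth.r (Pth.r (Pth.r (Pth.r (Pth.r Pth.z)))))
end T2
theorem bx0_0 : BoxOK sI cl4 cl4 cl6 t0 t2 b0_0 :=
  box_mk (TrL.c (I.pos (nat_lit 0) (nat_lit 0)) (xb (xa (xb T0.l11 T0.l11) (xb T0.l0 T0.l0)) (xa (xb (xa T0.l11 (xb T0.l0 T0.l0)) (xa (xb (xs T0.l0 T0.l0) (xs T0.l0 (xa T0.l0 T0.l0))) (xb (xs T0.l0 T0.l0) (xs T0.l0 T0.l0)))) (xb (xa T0.l0 T0.l0) (xa (xb T0.l0 (xs T0.l0 T0.l0)) (xs (xb T0.l0 T0.l0) (xb T0.l0 (xa T0.l0 T0.l0)))))))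
  (TrL.c (I.pos (nat_lit 0) (nat_lit 0)) (xb T2.l1 (xa T2.l1 T2.l1))
  (TrL.c (I.pos (nat_lit 0) (nat_lit 0)) (xb T0.l1 (xa T0.l1 (xs T0.l1 T0.l1)))
  (TrL.c (I.pos (nat_lit 0) (nat_lit 0)) (xb T2.l2 (xa T2.l2 (xb T2.l2 T2.l2)))
  (TrL.c (I.pos (nat_lit 0) (nat_lit 0)) (xb (xa T0.l6 T0.l2) (xa T0.l2 (xs T0.l2 T0.l2)))
  (TrL.c (I.pos (nat_lit 0) (nat_lit 0)) (xb T2.l3 (xa T2.l3 T2.l3))
  TrL.n)))))) (by decide +kernel)
theorem bx0_1 : BoxOK sI cl4 cl4 cl6 t0 t2 b0_1 :=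
  box_mk (TrL.c (I.pos (nat_lit 0) (nat_lit 0)) (xb T2.l4 T2.l4)
  (TrL.c (I.pos (nat_lit 0) (nat_lit 0)) (xb T0.l1 T0.l3)
  TrL.n)) (by decide +kernel)
theorem bx0_2 : BoxOK sI cl4 cl4 cl6 t0 t2 b0_2 :=
  box_mk (TrL.c (I.pos (nat_lit 0) (nat_lit 0)) (xb (xa T0.l4 T0.l9) (xa T0.l4 T0.l4))
  (TrL.c (I.pos (nat_lit 0) (nat_lit 0)) T2.l4
  (TrL.c (I.pos (nat_lit 0) (nat_lit 0)) T0.l1
  (TrL.c (I.pos (nat_lit 0) (nat_lit 0)) T2.l2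
  (TrL.c (I.pos (nat_lit 0) (nat_lit 0)) T0.l5
  (TrL.c (I.pos (nat_lit 0) (nat_lit 0)) T2.l3
  TrL.n)))))) (by decide +kernel)
theorem bx0_3 : BoxOK sI cl4 cl4 cl6 t0 t2 b0_3 :=
  box_mk (TrL.c (I.pos (nat_lit 0) (nat_lit 0)) T2.l4
  (TrL.c (I.pos (nat_lit 0) (nat_lit 0)) T0.l3
  TrL.n)) (by decide +kernel)
theorem bx0_4 : BoxOK sI cl4 cl4 cl6 t0 t2 b0_4 :=
  box_mk (TrL.c (I.pos (nat_lit 0) (nat_lit 0)) (xa (xb T0.l0 T0.l0) T0.l7)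
  (TrL.c (I.pos (nat_lit 0) (nat_lit 0)) (xa T2.l1 T2.l1)
  (TrL.c (I.pos (nat_lit 0) (nat_lit 0)) T0.l8
  (TrL.c (I.pos (nat_lit 0) (nat_lit 0)) (xa T2.l2 (xb T2.l2 T2.l2))
  (TrL.c (I.pos (nat_lit 0) (nat_lit 0)) T0.l6
  (TrL.c (I.pos (nat_lit 0) (nat_lit 0)) (xa T2.l3 T2.l3)
  TrL.n)))))) (by decide +kernel)
theorem bx0_5 : BoxOK sI cl4 cl4 cl6 t0 t2 b0_5 :=
  box_mk (TrL.c (I.pos (nat_lit 0) (nat_lit 0)) (xb T0.l4 T0.l4)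
  (TrL.c (I.pos (nat_lit 0) (nat_lit 0)) T2.l4
  (TrL.c (I.pos (nat_lit 0) (nat_lit 0)) T0.l1
  (TrL.c (I.pos (nat_lit 0) (nat_lit 0)) T2.l2
  (TrL.c (I.pos (nat_lit 0) (nat_lit 0)) T0.l5
  (TrL.c (I.pos (nat_lit 0) (nat_lit 0)) T2.l3
  TrL.n)))))) (by decide +kernel)
theorem bx0_6 : BoxOK sI cl4 cl4 cl6 t0 t2 b0_6 :=
  box_mk (TrL.c (I.pos (nat_lit 0) (nat_lit 0)) (xa (xb (xa (xb T0.l9 T0.l9) T0.l9) (xa (xb T0.l9 T0.l9) (xb T0.l9 T0.l9))) (xb (xa T0.l9 (xb T0.l9 T0.l9)) (xa (xb T0.l9 T0.l9) (xb T0.l9 T0.l11))))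
  (TrL.c (I.pos (nat_lit 0) (nat_lit 0)) (xa (xb T2.l1 T2.l1) T2.l1)
  (TrL.c (I.pos (nat_lit 0) (nat_lit 0)) (xa (xb T0.l1 T0.l1) T0.l1)
  (TrL.c (I.pos (nat_lit 0) (nat_lit 0)) (xa (xb T2.l2 T2.l2) (xb T2.l2 T2.l2))
  (TrL.c (I.pos (nat_lit 0) (nat_lit 0)) (xa (xb T0.l10 T0.l10) (xb T0.l10 T0.l10))
  (TrL.c (I.pos (nat_lit 0) (nat_lit 0)) (xa (xb T2.l3 T2.l3) T2.l3)
  TrL.n)))))) (by decide +kernel)
theorem bx0_7 : BoxOK sI cl4 cl4 cl6 t0 t2 b0_7 :=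
  box_mk (TrL.c (I.pos (nat_lit 0) (nat_lit 0)) (xa (xb (xb (xa (xa T0.l11 T0.l11) (xa T0.l11 T0.l11)) (xa (xb T0.l11 (xa T0.l11 T0.l11)) T0.l11)) (xa (xb (xb (xa T0.l11 T0.l11) (xa T0.l11 T0.l11)) (xb (xa (xs T0.l11 T0.l11) T0.l11) (xa (xs T0.l11 (xb T0.l11 T0.l11)) (xs T0.l11 T0.l11)))) (xb T0.l11 (xb T0.l11 (xa T0.l11 T0.l11))))) (xb (xa (xb T0.l11 T0.l11) (xb (xa T0.l11 T0.l11) T0.l11)) (xa (xb T0.l11 (xa T0.l11 T0.l11)) (xb T0.l11 (xa (xb T0.l11 (xs T0.l11 T0.l11)) (xb T0.l11 (xs T0.l11 T0.l11)))))))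
  (TrL.c (I.pos (nat_lit 0) (nat_lit 0)) (xa (xb (xb T2.l1 T2.l1) (xb T2.l1 T2.l1)) (xb T2.l1 (xa T2.l1 T2.l1)))
  (TrL.c (I.pos (nat_lit 0) (nat_lit 0)) (xa (xb T0.l1 T0.l1) (xb T0.l1 (xs T0.l1 (xa T0.l1 T0.l1))))
  (TrL.c (I.pos (nat_lit 0) (nat_lit 0)) (xb (xa (xb T2.l2 T2.l2) (xb (xa T2.l2 T2.l2) T2.l2)) (xa (xb T2.l2 T2.l2) (xa T2.l2 (xb T2.l2 T2.l2))))
  (TrL.c (I.pos (nat_lit 0) (nat_lit 0)) (xa (xb T0.l12 (xs T0.l12 T0.l12)) (xb (xs T0.l6 (xa T0.l12 T0.l6)) (xs (xa T0.l12 T0.l2) (xc (xa T0.l12 T0.l12) (xa T0.l12 T0.l2)))))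
  (TrL.c (I.pos (nat_lit 0) (nat_lit 0)) (xa (xb (xb T2.l3 T2.l3) (xb T2.l3 T2.l3)) (xb T2.l3 (xa T2.l3 T2.l3)))
  TrL.n)))))) (by decide +kernel)
theorem bx0_8 : BoxOK sI cl4 cl4 cl6 t0 t2 b0_8 :=
  box_mk (TrL.c (I.pos (nat_lit 0) (nat_lit 0)) (xa T2.l1 (xb T2.l1 T2.l4))
  (TrL.c (I.pos (nat_lit 0) (nat_lit 0)) (xa T0.l1 (xs (xb T0.l1 T0.l1) (xb T0.l1 T0.l1)))
  TrL.n)) (by decide +kernel)
theorem bx0_9 : BoxOK sI cl4 cl4 cl6 t0 t2 b0_9 :=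
  box_mk (TrL.c (I.pos (nat_lit 0) (nat_lit 0)) (xa (xb (xa T0.l11 T0.l7) (xa T0.l11 (xb T0.l0 (xa T0.l0 T0.l0)))) (xb (xa T0.l0 T0.l7) (xa (xb T0.l0 T0.l0) (xb T0.l0 T0.l0))))
  (TrL.c (I.pos (nat_lit 0) (nat_lit 0)) (xa T2.l1 T2.l1)
  (TrL.c (I.pos (nat_lit 0) (nat_lit 0)) (xa (xs T0.l1 T0.l8) (xs T0.l1 T0.l1))
  (TrL.c (I.pos (nat_lit 0) (nat_lit 0)) (xa T2.l2 (xb T2.l2 (xa T2.l2 T2.l2)))
  (TrL.c (I.pos (nat_lit 0) (nat_lit 0)) (xa (xs T0.l2 T0.l6) (xs T0.l2 (xb T0.l6 T0.l2)))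
  (TrL.c (I.pos (nat_lit 0) (nat_lit 0)) (xa T2.l3 T2.l3)
  TrL.n)))))) (by decide +kernel)
theorem bx0_10 : BoxOK sI cl4 cl4 cl6 t0 t2 b0_10 :=
  box_mk (TrL.c (I.pos (nat_lit 0) (nat_lit 0)) (xb T0.l4 (xa T0.l4 T0.l4))
  (TrL.c (I.pos (nat_lit 0) (nat_lit 0)) T2.l4
  (TrL.c (I.pos (nat_lit 0) (nat_lit 0)) T0.l1
  (TrL.c (I.pos (nat_lit 0) (nat_lit 0)) T2.l2
  (TrL.c (I.pos (nat_lit 0) (nat_lit 0)) T0.l5
  (TrL.c (I.pos (nat_lit 0) (nat_lit 0)) T2.l3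
  TrL.n)))))) (by decide +kernel)
theorem bx0_11 : BoxOK sI cl4 cl4 cl6 t0 t2 b0_11 :=
  box_mk (TrL.c (I.pos (nat_lit 0) (nat_lit 0)) (xa (xb (xa (xb T0.l11 T0.l11) (xb T0.l11 T0.l11)) (xa (xb T0.l11 (xs (xa T0.l0 T0.l0) (xb T0.l11 (xa T0.l0 T0.l0)))) (xb (xs T0.l0 (xa T0.l0 T0.l0)) (xs T0.l0 (xa (xb T0.l0 T0.l0) T0.l0))))) (xb (xa (xb T0.l0 T0.l0) (xb T0.l0 (xa T0.l0 T0.l0))) (xa (xb (xs T0.l0 T0.l0) (xs T0.l0 (xa T0.l0 T0.l0))) (xb (xs T0.l0 (xa T0.l0 T0.l0)) (xs (xa T0.l0 T0.l0) (xa (xb T0.l0 T0.l0) (xb T0.l0 T0.l0)))))))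
  (TrL.c (I.pos (nat_lit 0) (nat_lit 0)) (xa (xb T2.l1 T2.l1) (xb T2.l1 T2.l1))
  (TrL.c (I.pos (nat_lit 0) (nat_lit 0)) (xa T0.l1 (xs (xb T0.l1 T0.l1) (xb T0.l1 T0.l1)))
  (TrL.c (I.pos (nat_lit 0) (nat_lit 0)) (xa (xb T2.l2 T2.l2) (xb (xa T2.l2 T2.l2) (xa T2.l2 (xs T2.l2 T2.l2))))
  (TrL.c (I.pos (nat_lit 0) (nat_lit 0)) (xa (xb T0.l6 T0.l2) (xs (xb T0.l2 T0.l2) (xb T0.l6 T0.l2)))
  (TrL.c (I.pos (nat_lit 0) (nat_lit 0)) (xa (xb T2.l3 T2.l3) (xb T2.l3 T2.l3))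
  TrL.n)))))) (by decide +kernel)
theorem bx0_12 : BoxOK sI cl4 cl4 cl6 t0 t2 b0_12 :=
  box_mk (TrL.c (I.pos (nat_lit 0) (nat_lit 0)) (xb (xa T0.l4 T0.l4) (xa T0.l4 T0.l9))
  (TrL.c (I.pos (nat_lit 0) (nat_lit 0)) T2.l4
  (TrL.c (I.pos (nat_lit 0) (nat_lit 0)) T0.l1
  (TrL.c (I.pos (nat_lit 0) (nat_lit 0)) T2.l2
  (TrL.c (I.pos (nat_lit 0) (nat_lit 0)) T0.l5
  (TrL.c (I.pos (nat_lit 0) (nat_lit 0)) T2.l3
  TrL.n)))))) (by decide +kernel)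
theorem sv0 : StarV sI cl4 cl4 cl6 t0 t2 t0 :=
  (bt_n (bt_n (bt_n (bt_b bx0_0) (bt_n (bt_b bx0_1) (bt_b bx0_2))) (bt_n (bt_b bx0_3) (bt_n (bt_b bx0_4) (bt_b bx0_5)))) (bt_n (bt_n (bt_b bx0_6) (bt_n (bt_b bx0_7) (bt_b bx0_8))) (bt_n (bt_n (bt_b bx0_9) (bt_b bx0_10)) (bt_n (bt_b bx0_11) (bt_b bx0_12)))))
def S0 : StarD := StarD.mk cl4 cl4 cl6 0 2 t0
theorem bx1_0 : BoxOK sI cl4 cl6 cl4 t2 t0 b1_0 :=
  box_mk (TrL.c (I.pos (nat_lit 0) (nat_lit 0)) (xa (xb (xa (xb (xa T2.l0 T2.l0) (xa T2.l0 T2.l0)) (xb T2.l0 T2.l0)) (xa (xb (xa T2.l0 T2.l0) (xa (xs T2.l0 (xb T2.l0 T2.l0)) (xs T2.l0 T2.l0))) (xb (xa T2.l0 T2.l0) (xa (xs T2.l0 T2.l0) (xs T2.l0 T2.l0))))) (xb (xa T2.l0 T2.l0) (xa (xb T2.l0 (xa (xs T2.l0 T2.l0) (xs T2.l0 T2.l0))) (xb T2.l0 (xa (xs T2.l0 T2.l0) T2.l0)))))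
  (TrL.c (I.pos (nat_lit 0) (nat_lit 0)) (xa (xb T0.l6 (xa T0.l6 T0.l6)) (xb T0.l6 (xa T0.l6 (xs T0.l6 T0.l6))))
  (TrL.c (I.pos (nat_lit 0) (nat_lit 0)) (xa T2.l5 (xb T2.l5 (xa T2.l5 T2.l3)))
  (TrL.c (I.pos (nat_lit 0) (nat_lit 0)) (xa T0.l7 (xb T0.l7 (xa T0.l7 T0.l7)))
  (TrL.c (I.pos (nat_lit 0) (nat_lit 0)) (xa (xb T2.l6 T2.l6) (xb T2.l1 (xa T2.l6 T2.l1)))
  (TrL.c (I.pos (nat_lit 0) (nat_lit 0)) (xa (xb T0.l8 (xa T0.l8 T0.l8)) (xb T0.l8 (xa T0.l8 (xs T0.l8 T0.l8))))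
  TrL.n)))))) (by decide +kernel)
theorem bx1_1 : BoxOK sI cl4 cl6 cl4 t2 t0 b1_1 :=
  box_mk (TrL.c (I.pos (nat_lit 0) (nat_lit 0)) (xa (xb T2.l25 (xa T2.l25 T2.l25)) T2.l0)
  (TrL.c (I.pos (nat_lit 0) (nat_lit 0)) T0.l6
  (TrL.c (I.pos (nat_lit 0) (nat_lit 0)) T2.l5
  (TrL.c (I.pos (nat_lit 0) (nat_lit 0)) (xa T0.l7 T0.l7)
  (TrL.c (I.pos (nat_lit 0) (nat_lit 0)) (xb T2.l7 T2.l7)
  (TrL.c (I.pos (nat_lit 0) (nat_lit 0)) T0.l8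
  TrL.n)))))) (by decide +kernel)
theorem bx1_2 : BoxOK sI cl4 cl6 cl4 t2 t0 b1_2 :=
  box_mk (TrL.c (I.pos (nat_lit 0) (nat_lit 0)) (xa (xa (xb (xa T2.l8 T2.l8) (xa (xb T2.l8 T2.l8) T2.l8)) (xb T2.l8 (xa T2.l8 T2.l8))) (xa (xb T2.l8 T2.l8) (xb (xa T2.l8 T2.l8) (xa T2.l8 T2.l8))))
  (TrL.c (I.pos (nat_lit 0) (nat_lit 0)) (xa (xb T0.l6 T0.l6) T0.l6)
  (TrL.c (I.pos (nat_lit 0) (nat_lit 0)) (xa T2.l5 T2.l5)
  (TrL.c (I.pos (nat_lit 0) (nat_lit 0)) (xa T0.l7 T0.l7)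
  (TrL.c (I.pos (nat_lit 0) (nat_lit 0)) (xa T2.l9 T2.l9)
  (TrL.c (I.pos (nat_lit 0) (nat_lit 0)) (xa T0.l8 T0.l8)
  TrL.n)))))) (by decide +kernel)
theorem bx1_3 : BoxOK sI cl4 cl6 cl4 t2 t0 b1_3 :=
  box_mk (TrL.c (I.pos (nat_lit 0) (nat_lit 0)) (xa (xb (xa T2.l10 T2.l10) T2.l18) T2.l8)
  (TrL.c (I.pos (nat_lit 0) (nat_lit 0)) T0.l7
  (TrL.c (I.pos (nat_lit 0) (nat_lit 0)) T2.l17
  (TrL.c (I.pos (nat_lit 0) (nat_lit 0)) (xa T0.l6 T0.l7)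
  (TrL.c (I.pos (nat_lit 0) (nat_lit 0)) T2.l11
  (TrL.c (I.pos (nat_lit 0) (nat_lit 0)) (xa T0.l8 T0.l8)
  TrL.n)))))) (by decide +kernel)
theorem bx1_4 : BoxOK sI cl4 cl6 cl4 t2 t0 b1_4 :=
  box_mk (TrL.c (I.pos (nat_lit 0) (nat_lit 0)) (xb (xa (xb (xa T2.l12 T2.l12) (xa T2.l12 T2.l12)) (xb (xa T2.l12 T2.l12) T2.l12)) (xa (xb (xa T2.l12 T2.l12) (xa (xs T2.l12 T2.l12) T2.l12)) (xa (xb T2.l12 T2.l12) (xb T2.l12 T2.l12))))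
  (TrL.c (I.pos (nat_lit 0) (nat_lit 0)) (xa (xb T0.l6 T0.l6) (xb T0.l6 (xb T0.l6 T0.l6)))
  (TrL.c (I.pos (nat_lit 0) (nat_lit 0)) (xb T2.l5 (xa T2.l5 T2.l5))
  (TrL.c (I.pos (nat_lit 0) (nat_lit 0)) (xb T0.l7 T0.l7)
  (TrL.c (I.pos (nat_lit 0) (nat_lit 0)) (xa T2.l13 (xb T2.l13 T2.l13))
  (TrL.c (I.pos (nat_lit 0) (nat_lit 0)) (xa (xb T0.l8 T0.l8) (xb T0.l8 (xb T0.l8 T0.l8)))
  TrL.n)))))) (by decide +kernel)
theorem bx1_5 : BoxOK sI cl4 cl6 cl4 t2 t0 b1_5 :=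
  box_mk (TrL.c (I.pos (nat_lit 0) (nat_lit 0)) (xb (xb T2.l14 T2.l14) (xb T2.l14 T2.l14))
  (TrL.c (I.pos (nat_lit 0) (nat_lit 0)) T0.l6
  (TrL.c (I.pos (nat_lit 0) (nat_lit 0)) T2.l5
  (TrL.c (I.pos (nat_lit 0) (nat_lit 0)) T0.l7
  (TrL.c (I.pos (nat_lit 0) (nat_lit 0)) T2.l15
  (TrL.c (I.pos (nat_lit 0) (nat_lit 0)) T0.l8
  TrL.n)))))) (by decide +kernel)
theorem bx1_6 : BoxOK sI cl4 cl6 cl4 t2 t0 b1_6 :=
  box_mk (TrL.c (I.pos (nat_lit 0) (nat_lit 0)) (xa (xa (xb (xb T2.l16 T2.l16) (xa T2.l16 T2.l16)) T2.l8) (xa T2.l8 T2.l8))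
  (TrL.c (I.pos (nat_lit 0) (nat_lit 0)) (xa (xa T0.l7 T0.l6) T0.l6)
  (TrL.c (I.pos (nat_lit 0) (nat_lit 0)) (xa T2.l5 T2.l5)
  (TrL.c (I.pos (nat_lit 0) (nat_lit 0)) (xa T0.l7 T0.l7)
  (TrL.c (I.pos (nat_lit 0) (nat_lit 0)) (xa T2.l17 T2.l9)
  (TrL.c (I.pos (nat_lit 0) (nat_lit 0)) (xa T0.l8 T0.l8)
  TrL.n)))))) (by decide +kernel)
theorem bx1_7 : BoxOK sI cl4 cl6 cl4 t2 t0 b1_7 :=
  box_mk (TrL.c (I.pos (nat_lit 0) (nat_lit 0)) (xa (xb (xa T2.l18 T2.l18) (xa T2.l18 T2.l18)) T2.l8)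
  (TrL.c (I.pos (nat_lit 0) (nat_lit 0)) T0.l7
  (TrL.c (I.pos (nat_lit 0) (nat_lit 0)) T2.l9
  (TrL.c (I.pos (nat_lit 0) (nat_lit 0)) T0.l6
  (TrL.c (I.pos (nat_lit 0) (nat_lit 0)) T2.l19
  (TrL.c (I.pos (nat_lit 0) (nat_lit 0)) (xa T0.l8 T0.l8)
  TrL.n)))))) (by decide +kernel)
theorem bx1_8 : BoxOK sI cl4 cl6 cl4 t2 t0 b1_8 :=
  box_mk (TrL.c (I.pos (nat_lit 0) (nat_lit 0)) (xa (xb T2.l0 T2.l0) (xb T2.l2 T2.l2))
  (TrL.c (I.pos (nat_lit 0) (nat_lit 0)) (xa T0.l6 T0.l6)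
  (TrL.c (I.pos (nat_lit 0) (nat_lit 0)) T2.l3
  (TrL.c (I.pos (nat_lit 0) (nat_lit 0)) (xa T0.l7 T0.l7)
  (TrL.c (I.pos (nat_lit 0) (nat_lit 0)) T2.l1
  (TrL.c (I.pos (nat_lit 0) (nat_lit 0)) (xa T0.l8 T0.l8)
  TrL.n)))))) (by decide +kernel)
theorem bx1_9 : BoxOK sI cl4 cl6 cl4 t2 t0 b1_9 :=
  box_mk (TrL.c (I.pos (nat_lit 0) (nat_lit 0)) T2.l0
  (TrL.c (I.pos (nat_lit 0) (nat_lit 0)) T0.l6
  (TrL.c (I.pos (nat_lit 0) (nat_lit 0)) T2.l5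
  (TrL.c (I.pos (nat_lit 0) (nat_lit 0)) T0.l7
  (TrL.c (I.pos (nat_lit 0) (nat_lit 0)) T2.l13
  (TrL.c (I.pos (nat_lit 0) (nat_lit 0)) T0.l8
  TrL.n)))))) (by decide +kernel)
theorem bx1_10 : BoxOK sI cl4 cl6 cl4 t2 t0 b1_10 :=
  box_mk (TrL.c (I.pos (nat_lit 0) (nat_lit 0)) (xa (xb (xa (xb T2.l0 T2.l0) T2.l0) (xa (xb T2.l0 (xs T2.l0 T2.l0)) (xb T2.l0 T2.l0))) (xb (xa T2.l0 T2.l0) (xa (xb T2.l0 T2.l0) (xb T2.l0 T2.l0))))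
  (TrL.c (I.pos (nat_lit 0) (nat_lit 0)) (xa (xb T0.l6 (xa T0.l6 T0.l6)) (xb T0.l6 (xa T0.l6 T0.l6)))
  (TrL.c (I.pos (nat_lit 0) (nat_lit 0)) (xa T2.l5 T2.l3)
  (TrL.c (I.pos (nat_lit 0) (nat_lit 0)) (xa T0.l7 (xb T0.l7 (xa T0.l7 T0.l7)))
  (TrL.c (I.pos (nat_lit 0) (nat_lit 0)) (xa T2.l6 T2.l1)
  (TrL.c (I.pos (nat_lit 0) (nat_lit 0)) (xa (xb T0.l8 (xa T0.l8 T0.l8)) (xb T0.l8 (xa T0.l8 T0.l8)))
  TrL.n)))))) (by decide +kernel)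
theorem bx1_11 : BoxOK sI cl4 cl6 cl4 t2 t0 b1_11 :=
  box_mk (TrL.c (I.pos (nat_lit 0) (nat_lit 0)) (xb (xa T2.l12 T2.l12) (xa T2.l12 T2.l12))
  (TrL.c (I.pos (nat_lit 0) (nat_lit 0)) T0.l6
  (TrL.c (I.pos (nat_lit 0) (nat_lit 0)) T2.l5
  (TrL.c (I.pos (nat_lit 0) (nat_lit 0)) (xb T0.l7 T0.l7)
  (TrL.c (I.pos (nat_lit 0) (nat_lit 0)) T2.l13
  (TrL.c (I.pos (nat_lit 0) (nat_lit 0)) T0.l8
  TrL.n)))))) (by decide +kernel)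
theorem bx1_12 : BoxOK sI cl4 cl6 cl4 t2 t0 b1_12 :=
  box_mk (TrL.c (I.pos (nat_lit 0) (nat_lit 0)) T2.l0
  (TrL.c (I.pos (nat_lit 0) (nat_lit 0)) T0.l6
  (TrL.c (I.pos (nat_lit 0) (nat_lit 0)) T2.l5
  (TrL.c (I.pos (nat_lit 0) (nat_lit 0)) T0.l7
  (TrL.c (I.pos (nat_lit 0) (nat_lit 0)) T2.l20
  (TrL.c (I.pos (nat_lit 0) (nat_lit 0)) T0.l8
  TrL.n)))))) (by decide +kernel)
theorem bx1_13 : BoxOK sI cl4 cl6 cl4 t2 t0 b1_13 :=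
  box_mk (TrL.c (I.pos (nat_lit 0) (nat_lit 0)) T2.l8
  (TrL.c (I.pos (nat_lit 0) (nat_lit 0)) T0.l6
  (TrL.c (I.pos (nat_lit 0) (nat_lit 0)) T2.l5
  (TrL.c (I.pos (nat_lit 0) (nat_lit 0)) T0.l7
  (TrL.c (I.pos (nat_lit 0) (nat_lit 0)) T2.l9
  (TrL.c (I.pos (nat_lit 0) (nat_lit 0)) T0.l8
  TrL.n)))))) (by decide +kernel)
theorem bx1_14 : BoxOK sI cl4 cl6 cl4 t2 t0 b1_14 :=
  box_mk (TrL.c (I.pos (nat_lit 0) (nat_lit 0)) (xa (xa (xb T2.l21 T2.l21) T2.l18) T2.l8)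
  (TrL.c (I.pos (nat_lit 0) (nat_lit 0)) (xa T0.l7 T0.l6)
  (TrL.c (I.pos (nat_lit 0) (nat_lit 0)) (xa T2.l9 T2.l5)
  (TrL.c (I.pos (nat_lit 0) (nat_lit 0)) (xa T0.l6 T0.l7)
  (TrL.c (I.pos (nat_lit 0) (nat_lit 0)) (xa T2.l22 T2.l9)
  (TrL.c (I.pos (nat_lit 0) (nat_lit 0)) (xa T0.l8 T0.l8)
  TrL.n)))))) (by decide +kernel)
theorem bx1_15 : BoxOK sI cl4 cl6 cl4 t2 t0 b1_15 :=
  box_mk (TrL.c (I.pos (nat_lit 0) (nat_lit 0)) (xa (xa T2.l23 T2.l23) T2.l8)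
  (TrL.c (I.pos (nat_lit 0) (nat_lit 0)) T0.l7
  (TrL.c (I.pos (nat_lit 0) (nat_lit 0)) T2.l9
  (TrL.c (I.pos (nat_lit 0) (nat_lit 0)) T0.l6
  (TrL.c (I.pos (nat_lit 0) (nat_lit 0)) T2.l24
  (TrL.c (I.pos (nat_lit 0) (nat_lit 0)) T0.l8
  TrL.n)))))) (by decide +kernel)
theorem bx1_16 : BoxOK sI cl4 cl6 cl4 t2 t0 b1_16 :=
  box_mk (TrL.c (I.pos (nat_lit 0) (nat_lit 0)) (xa T2.l0 T2.l0)
  (TrL.c (I.pos (nat_lit 0) (nat_lit 0)) T0.l6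
  (TrL.c (I.pos (nat_lit 0) (nat_lit 0)) T2.l3
  (TrL.c (I.pos (nat_lit 0) (nat_lit 0)) T0.l7
  (TrL.c (I.pos (nat_lit 0) (nat_lit 0)) T2.l1
  (TrL.c (I.pos (nat_lit 0) (nat_lit 0)) T0.l8
  TrL.n)))))) (by decide +kernel)
theorem bx1_17 : BoxOK sI cl4 cl6 cl4 t2 t0 b1_17 :=
  box_mk (TrL.c (I.pos (nat_lit 0) (nat_lit 0)) T2.l12
  (TrL.c (I.pos (nat_lit 0) (nat_lit 0)) T0.l6
  (TrL.c (I.pos (nat_lit 0) (nat_lit 0)) T2.l5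
  (TrL.c (I.pos (nat_lit 0) (nat_lit 0)) T0.l7
  (TrL.c (I.pos (nat_lit 0) (nat_lit 0)) T2.l13
  (TrL.c (I.pos (nat_lit 0) (nat_lit 0)) T0.l8
  TrL.n)))))) (by decide +kernel)
theorem bx1_18 : BoxOK sI cl4 cl6 cl4 t2 t0 b1_18 :=
  box_mk (TrL.c (I.pos (nat_lit 0) (nat_lit 0)) (xa (xb T2.l0 T2.l0) T2.l2)
  (TrL.c (I.pos (nat_lit 0) (nat_lit 0)) (xa T0.l6 (xa T0.l6 T0.l6))
  (TrL.c (I.pos (nat_lit 0) (nat_lit 0)) T2.l3
  (TrL.c (I.pos (nat_lit 0) (nat_lit 0)) (xa T0.l7 (xb T0.l11 T0.l7))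
  (TrL.c (I.pos (nat_lit 0) (nat_lit 0)) T2.l1
  (TrL.c (I.pos (nat_lit 0) (nat_lit 0)) (xa T0.l8 (xa T0.l8 T0.l8))
  TrL.n)))))) (by decide +kernel)
theorem bx1_19 : BoxOK sI cl4 cl6 cl4 t2 t0 b1_19 :=
  box_mk (TrL.c (I.pos (nat_lit 0) (nat_lit 0)) T2.l0
  (TrL.c (I.pos (nat_lit 0) (nat_lit 0)) T0.l6
  (TrL.c (I.pos (nat_lit 0) (nat_lit 0)) T2.l5
  (TrL.c (I.pos (nat_lit 0) (nat_lit 0)) T0.l7
  (TrL.c (I.pos (nat_lit 0) (nat_lit 0)) T2.l13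
  (TrL.c (I.pos (nat_lit 0) (nat_lit 0)) T0.l8
  TrL.n)))))) (by decide +kernel)
theorem sv1 : StarV sI cl4 cl6 cl4 t2 t0 t1 :=
  (bt_n (bt_n (bt_n (bt_n (bt_b bx1_0) (bt_b bx1_1)) (bt_n (bt_b bx1_2) (bt_n (bt_b bx1_3) (bt_b bx1_4)))) (bt_n (bt_n (bt_b bx1_5) (bt_b bx1_6)) (bt_n (bt_b bx1_7) (bt_n (bt_b bx1_8) (bt_b bx1_9))))) (bt_n (bt_n (bt_n (bt_b bx1_10) (bt_b bx1_11)) (bt_n (bt_b bx1_12) (bt_n (bt_b bx1_13) (bt_b bx1_14)))) (bt_n (bt_n (bt_b bx1_15) (bt_b bx1_16)) (bt_n (bt_b bx1_17) (bt_n (bt_b bx1_18) (bt_b bx1_19))))))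
def S1 : StarD := StarD.mk cl4 cl6 cl4 2 0 t1
theorem bx2_0 : BoxOK sI cl6 cl4 cl4 t1 t1 b2_0 :=
  box_mk (TrL.c (I.pos (nat_lit 0) (nat_lit 0)) (xa (xb (xa T1.l10 T1.l10) (xa (xb T1.l10 (xs T1.l0 T1.l0)) (xb T1.l0 T1.l0))) (xb (xa T1.l0 T1.l0) (xa (xb T1.l0 T1.l0) (xb T1.l0 T1.l0))))
  (TrL.c (I.pos (nat_lit 0) (nat_lit 0)) (xa (xb T1.l1 T1.l1) (xb T1.l1 T1.l1))
  (TrL.c (I.pos (nat_lit 0) (nat_lit 89480386)) (xR T1.l2 T1.l2)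
  (TrL.c (I.pos (nat_lit 0) (nat_lit 41530880)) T1.l3
  (TrL.c (I.pos (nat_lit 0) (nat_lit 0)) (xa (xb T1.l11 T1.l4) (xb T1.l4 T1.l4))
  (TrL.c (I.pos (nat_lit 0) (nat_lit 0)) (xa T1.l5 T1.l5)
  (TrL.c (I.mix (nat_lit 41527258) (nat_lit 41530880)) (xR T1.l6 T1.l6)
  (TrL.c (I.mix (nat_lit 41527258) (nat_lit 4274)) T1.l7
  TrL.n)))))))) (by decide +kernel)
theorem bx2_1 : BoxOK sI cl6 cl4 cl4 t1 t1 b2_1 :=
  box_mk (TrL.c (I.pos (nat_lit 0) (nat_lit 0)) (xb (xa T1.l8 T1.l8) (xa (xb T1.l8 T1.l8) T1.l8))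
  (TrL.c (I.pos (nat_lit 0) (nat_lit 0)) (xb T1.l1 T1.l1)
  (TrL.c (I.pos (nat_lit 0) (nat_lit 89480386)) (xR T1.l2 T1.l2)
  (TrL.c (I.pos (nat_lit 0) (nat_lit 41530880)) T1.l14
  (TrL.c (I.pos (nat_lit 0) (nat_lit 0)) (xb T1.l9 T1.l9)
  (TrL.c (I.pos (nat_lit 0) (nat_lit 0)) T1.l5
  (TrL.c (I.mix (nat_lit 41527258) (nat_lit 41530880)) T1.l6
  (TrL.c (I.mix (nat_lit 41527258) (nat_lit 4274)) T1.l7
  TrL.n)))))))) (by decide +kernel)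
theorem bx2_2 : BoxOK sI cl6 cl4 cl4 t1 t1 b2_2 :=
  box_mk (TrL.c (I.pos (nat_lit 0) (nat_lit 0)) (xb (xa (xb T1.l10 T1.l10) (xb T1.l10 T1.l10)) (xa (xb (xa T1.l10 T1.l10) (xa (xb T1.l10 T1.l10) (xb T1.l10 T1.l10))) (xb T1.l10 (xa T1.l10 T1.l10))))
  (TrL.c (I.pos (nat_lit 0) (nat_lit 0)) (xb (xa T1.l1 T1.l1) (xa T1.l1 T1.l1))
  (TrL.c (I.pos (nat_lit 0) (nat_lit 89480386)) (xR T1.l2 T1.l2)
  (TrL.c (I.pos (nat_lit 0) (nat_lit 41530880)) T1.l3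
  (TrL.c (I.pos (nat_lit 0) (nat_lit 0)) (xb (xa T1.l11 T1.l11) (xa T1.l11 T1.l11))
  (TrL.c (I.pos (nat_lit 0) (nat_lit 0)) (xb T1.l5 T1.l5)
  (TrL.c (I.mix (nat_lit 41527258) (nat_lit 41530880)) (xR T1.l6 T1.l2)
  (TrL.c (I.mix (nat_lit 41527258) (nat_lit 4274)) T1.l7
  TrL.n)))))))) (by decide +kernel)
theorem bx2_3 : BoxOK sI cl6 cl4 cl4 t1 t1 b2_3 :=
  box_mk (TrL.c (I.pos (nat_lit 0) (nat_lit 0)) (xb T1.l12 T1.l12)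
  (TrL.c (I.pos (nat_lit 0) (nat_lit 0)) T1.l2
  (TrL.c (I.mix (nat_lit 41527258) (nat_lit 41530880)) T1.l14
  (TrL.c (I.mix (nat_lit 41527258) (nat_lit 4274)) T1.l15
  TrL.n)))) (by decide +kernel)
theorem bx2_4 : BoxOK sI cl6 cl4 cl4 t1 t1 b2_4 :=
  box_mk (TrL.c (I.pos (nat_lit 0) (nat_lit 0)) T1.l16
  (TrL.c (I.pos (nat_lit 0) (nat_lit 0)) T1.l1
  (TrL.c (I.pos (nat_lit 0) (nat_lit 89480386)) T1.l2
  (TrL.c (I.pos (nat_lit 0) (nat_lit 41530880)) T1.l3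
  (TrL.c (I.pos (nat_lit 0) (nat_lit 0)) T1.l17
  (TrL.c (I.pos (nat_lit 0) (nat_lit 0)) T1.l5
  (TrL.c (I.mix (nat_lit 41527258) (nat_lit 41530880)) T1.l6
  (TrL.c (I.mix (nat_lit 41527258) (nat_lit 4274)) T1.l7
  TrL.n)))))))) (by decide +kernel)
theorem bx2_5 : BoxOK sI cl6 cl4 cl4 t1 t1 b2_5 :=
  box_mk (TrL.c (I.pos (nat_lit 0) (nat_lit 0)) (xb T1.l12 T1.l12)
  (TrL.c (I.pos (nat_lit 0) (nat_lit 0)) T1.l13
  (TrL.c (I.mix (nat_lit 41527258) (nat_lit 41530880)) T1.l14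
  (TrL.c (I.mix (nat_lit 41527258) (nat_lit 4274)) T1.l15
  TrL.n)))) (by decide +kernel)
theorem bx2_6 : BoxOK sI cl6 cl4 cl4 t1 t1 b2_6 :=
  box_mk (TrL.c (I.pos (nat_lit 0) (nat_lit 0)) T1.l18
  (TrL.c (I.pos (nat_lit 0) (nat_lit 0)) T1.l12
  (TrL.c (I.pos (nat_lit 0) (nat_lit 89480386)) (xR T1.l2 T1.l2)
  (TrL.c (I.pos (nat_lit 0) (nat_lit 41530880)) T1.l2
  (TrL.c (I.pos (nat_lit 0) (nat_lit 0)) T1.l19
  (TrL.c (I.pos (nat_lit 0) (nat_lit 0)) T1.l5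
  (TrL.c (I.mix (nat_lit 41527258) (nat_lit 41530880)) T1.l6
  (TrL.c (I.mix (nat_lit 41527258) (nat_lit 4274)) T1.l7
  TrL.n)))))))) (by decide +kernel)
theorem bx2_7 : BoxOK sI cl6 cl4 cl4 t1 t1 b2_7 :=
  box_mk (TrL.c (I.pos (nat_lit 0) (nat_lit 0)) T1.l18
  (TrL.c (I.pos (nat_lit 0) (nat_lit 0)) T1.l12
  (TrL.c (I.pos (nat_lit 0) (nat_lit 89480386)) T1.l2
  (TrL.c (I.pos (nat_lit 0) (nat_lit 41530880)) T1.l2
  (TrL.c (I.pos (nat_lit 0) (nat_lit 0)) T1.l19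
  (TrL.c (I.pos (nat_lit 0) (nat_lit 0)) T1.l5
  (TrL.c (I.mix (nat_lit 41527258) (nat_lit 41530880)) T1.l6
  (TrL.c (I.mix (nat_lit 41527258) (nat_lit 4274)) T1.l7
  TrL.n)))))))) (by decide +kernel)
theorem bx2_8 : BoxOK sI cl6 cl4 cl4 t1 t1 b2_8 :=
  box_mk (TrL.c (I.pos (nat_lit 0) (nat_lit 0)) (xa (xb T1.l0 T1.l0) (xb T1.l0 (xa T1.l0 T1.l0)))
  (TrL.c (I.pos (nat_lit 0) (nat_lit 0)) (xa T1.l1 (xb T1.l5 T1.l1))
  (TrL.c (I.pos (nat_lit 0) (nat_lit 89480386)) (xR T1.l2 T1.l2)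
  (TrL.c (I.pos (nat_lit 0) (nat_lit 41530880)) T1.l3
  (TrL.c (I.pos (nat_lit 0) (nat_lit 0)) (xb (xa T1.l4 (xb T1.l4 T1.l4)) (xa T1.l4 (xb T1.l4 T1.l4)))
  (TrL.c (I.pos (nat_lit 0) (nat_lit 0)) (xa T1.l5 (xb T1.l1 T1.l5))
  (TrL.c (I.mix (nat_lit 41527258) (nat_lit 41530880)) (xR T1.l2 T1.l2)
  (TrL.c (I.mix (nat_lit 41527258) (nat_lit 4274)) T1.l7
  TrL.n)))))))) (by decide +kernel)
theorem bx2_9 : BoxOK sI cl6 cl4 cl4 t1 t1 b2_9 :=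
  box_mk (TrL.c (I.pos (nat_lit 0) (nat_lit 0)) T1.l18
  (TrL.c (I.pos (nat_lit 0) (nat_lit 0)) T1.l12
  (TrL.c (I.pos (nat_lit 0) (nat_lit 89480386)) T1.l2
  (TrL.c (I.pos (nat_lit 0) (nat_lit 41530880)) T1.l2
  (TrL.c (I.pos (nat_lit 0) (nat_lit 0)) T1.l19
  (TrL.c (I.pos (nat_lit 0) (nat_lit 0)) T1.l5
  (TrL.c (I.mix (nat_lit 41527258) (nat_lit 41530880)) T1.l6
  (TrL.c (I.mix (nat_lit 41527258) (nat_lit 4274)) T1.l7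
  TrL.n)))))))) (by decide +kernel)
theorem bx2_10 : BoxOK sI cl6 cl4 cl4 t1 t1 b2_10 :=
  box_mk (TrL.c (I.pos (nat_lit 0) (nat_lit 0)) T1.l0
  (TrL.c (I.pos (nat_lit 0) (nat_lit 0)) T1.l1
  (TrL.c (I.pos (nat_lit 0) (nat_lit 89480386)) (xR T1.l2 T1.l2)
  (TrL.c (I.pos (nat_lit 0) (nat_lit 41530880)) T1.l3
  (TrL.c (I.pos (nat_lit 0) (nat_lit 0)) (xb T1.l0 T1.l4)
  (TrL.c (I.pos (nat_lit 0) (nat_lit 0)) T1.l1
  (TrL.c (I.mix (nat_lit 41527258) (nat_lit 41530880)) T1.l2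
  (TrL.c (I.mix (nat_lit 41527258) (nat_lit 4274)) T1.l7
  TrL.n)))))))) (by decide +kernel)
theorem bx2_11 : BoxOK sI cl6 cl4 cl4 t1 t1 b2_11 :=
  box_mk (TrL.c (I.pos (nat_lit 0) (nat_lit 0)) T1.l18
  (TrL.c (I.pos (nat_lit 0) (nat_lit 0)) T1.l12
  (TrL.c (I.pos (nat_lit 0) (nat_lit 89480386)) T1.l2
  (TrL.c (I.pos (nat_lit 0) (nat_lit 41530880)) T1.l2
  (TrL.c (I.pos (nat_lit 0) (nat_lit 0)) T1.l19
  (TrL.c (I.pos (nat_lit 0) (nat_lit 0)) T1.l5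
  (TrL.c (I.mix (nat_lit 41527258) (nat_lit 41530880)) T1.l6
  (TrL.c (I.mix (nat_lit 41527258) (nat_lit 4274)) T1.l7
  TrL.n)))))))) (by decide +kernel)
theorem bx2_12 : BoxOK sI cl6 cl4 cl4 t1 t1 b2_12 :=
  box_mk (TrL.c (I.pos (nat_lit 0) (nat_lit 0)) (xa (xb T1.l0 (xa T1.l0 T1.l0)) (xb T1.l0 T1.l0))
  (TrL.c (I.pos (nat_lit 0) (nat_lit 0)) (xa T1.l1 T1.l1)
  (TrL.c (I.pos (nat_lit 0) (nat_lit 89480386)) (xR T1.l2 T1.l2)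
  (TrL.c (I.pos (nat_lit 0) (nat_lit 41530880)) T1.l3
  (TrL.c (I.pos (nat_lit 0) (nat_lit 0)) T1.l4
  (TrL.c (I.pos (nat_lit 0) (nat_lit 0)) T1.l5
  (TrL.c (I.mix (nat_lit 41527258) (nat_lit 41530880)) T1.l6
  (TrL.c (I.mix (nat_lit 41527258) (nat_lit 4274)) T1.l7
  TrL.n)))))))) (by decide +kernel)
theorem bx2_13 : BoxOK sI cl6 cl4 cl4 t1 t1 b2_13 :=
  box_mk (TrL.c (I.pos (nat_lit 0) (nat_lit 0)) T1.l18
  (TrL.c (I.pos (nat_lit 0) (nat_lit 0)) T1.l12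
  (TrL.c (I.pos (nat_lit 0) (nat_lit 89480386)) T1.l2
  (TrL.c (I.pos (nat_lit 0) (nat_lit 41530880)) T1.l3
  (TrL.c (I.pos (nat_lit 0) (nat_lit 0)) T1.l19
  (TrL.c (I.pos (nat_lit 0) (nat_lit 0)) T1.l5
  (TrL.c (I.mix (nat_lit 41527258) (nat_lit 41530880)) T1.l6
  (TrL.c (I.mix (nat_lit 41527258) (nat_lit 4274)) T1.l7
  TrL.n)))))))) (by decide +kernel)
theorem bx2_14 : BoxOK sI cl6 cl4 cl4 t1 t1 b2_14 :=
  box_mk (TrL.c (I.pos (nat_lit 0) (nat_lit 0)) T1.l0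
  (TrL.c (I.pos (nat_lit 0) (nat_lit 0)) T1.l1
  (TrL.c (I.pos (nat_lit 0) (nat_lit 89480386)) (xR T1.l2 T1.l2)
  (TrL.c (I.pos (nat_lit 0) (nat_lit 41530880)) T1.l3
  (TrL.c (I.pos (nat_lit 0) (nat_lit 0)) T1.l4
  (TrL.c (I.pos (nat_lit 0) (nat_lit 0)) T1.l5
  (TrL.c (I.mix (nat_lit 41527258) (nat_lit 41530880)) T1.l6
  (TrL.c (I.mix (nat_lit 41527258) (nat_lit 4274)) T1.l7
  TrL.n)))))))) (by decide +kernel)
theorem bx2_15 : BoxOK sI cl6 cl4 cl4 t1 t1 b2_15 :=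
  box_mk (TrL.c (I.pos (nat_lit 0) (nat_lit 0)) T1.l18
  (TrL.c (I.pos (nat_lit 0) (nat_lit 0)) T1.l12
  (TrL.c (I.pos (nat_lit 0) (nat_lit 89480386)) T1.l2
  (TrL.c (I.pos (nat_lit 0) (nat_lit 41530880)) T1.l2
  (TrL.c (I.pos (nat_lit 0) (nat_lit 0)) T1.l19
  (TrL.c (I.pos (nat_lit 0) (nat_lit 0)) T1.l5
  (TrL.c (I.mix (nat_lit 41527258) (nat_lit 41530880)) T1.l6
  (TrL.c (I.mix (nat_lit 41527258) (nat_lit 4274)) T1.l7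
  TrL.n)))))))) (by decide +kernel)
theorem bx2_16 : BoxOK sI cl6 cl4 cl4 t1 t1 b2_16 :=
  box_mk (TrL.c (I.pos (nat_lit 0) (nat_lit 0)) T1.l0
  (TrL.c (I.pos (nat_lit 0) (nat_lit 0)) T1.l5
  (TrL.c (I.pos (nat_lit 0) (nat_lit 89480386)) (xR T1.l2 T1.l2)
  (TrL.c (I.pos (nat_lit 0) (nat_lit 41530880)) T1.l3
  (TrL.c (I.pos (nat_lit 0) (nat_lit 0)) (xb T1.l0 T1.l4)
  (TrL.c (I.pos (nat_lit 0) (nat_lit 0)) T1.l1
  (TrL.c (I.mix (nat_lit 41527258) (nat_lit 41530880)) T1.l2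
  (TrL.c (I.mix (nat_lit 41527258) (nat_lit 4274)) T1.l3
  TrL.n)))))))) (by decide +kernel)
theorem bx2_17 : BoxOK sI cl6 cl4 cl4 t1 t1 b2_17 :=
  box_mk (TrL.c (I.pos (nat_lit 0) (nat_lit 0)) T1.l18
  (TrL.c (I.pos (nat_lit 0) (nat_lit 0)) T1.l12
  (TrL.c (I.pos (nat_lit 0) (nat_lit 89480386)) T1.l2
  (TrL.c (I.pos (nat_lit 0) (nat_lit 41530880)) T1.l2
  (TrL.c (I.pos (nat_lit 0) (nat_lit 0)) T1.l19
  (TrL.c (I.pos (nat_lit 0) (nat_lit 0)) T1.l2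
  (TrL.c (I.mix (nat_lit 41527258) (nat_lit 41530880)) T1.l14
  (TrL.c (I.mix (nat_lit 41527258) (nat_lit 4274)) T1.l6
  TrL.n)))))))) (by decide +kernel)
theorem bx2_18 : BoxOK sI cl6 cl4 cl4 t1 t1 b2_18 :=
  box_mk (TrL.c (I.pos (nat_lit 0) (nat_lit 0)) (xa T1.l0 T1.l0)
  (TrL.c (I.pos (nat_lit 0) (nat_lit 0)) T1.l1
  (TrL.c (I.pos (nat_lit 0) (nat_lit 89480386)) (xR T1.l2 T1.l2)
  (TrL.c (I.pos (nat_lit 0) (nat_lit 41530880)) T1.l3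
  (TrL.c (I.pos (nat_lit 0) (nat_lit 0)) (xb T1.l0 T1.l4)
  (TrL.c (I.pos (nat_lit 0) (nat_lit 0)) T1.l1
  (TrL.c (I.mix (nat_lit 41527258) (nat_lit 41530880)) T1.l2
  (TrL.c (I.mix (nat_lit 41527258) (nat_lit 4274)) T1.l7
  TrL.n)))))))) (by decide +kernel)
theorem bx2_19 : BoxOK sI cl6 cl4 cl4 t1 t1 b2_19 :=
  box_mk (TrL.c (I.pos (nat_lit 0) (nat_lit 0)) T1.l18
  (TrL.c (I.pos (nat_lit 0) (nat_lit 0)) T1.l12
  (TrL.c (I.pos (nat_lit 0) (nat_lit 89480386)) T1.l2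
  (TrL.c (I.pos (nat_lit 0) (nat_lit 41530880)) T1.l2
  (TrL.c (I.pos (nat_lit 0) (nat_lit 0)) T1.l19
  (TrL.c (I.pos (nat_lit 0) (nat_lit 0)) T1.l2
  (TrL.c (I.mix (nat_lit 41527258) (nat_lit 41530880)) T1.l14
  (TrL.c (I.mix (nat_lit 41527258) (nat_lit 4274)) T1.l7
  TrL.n)))))))) (by decide +kernel)
theorem bx2_20 : BoxOK sI cl6 cl4 cl4 t1 t1 b2_20 :=
  box_mk (TrL.c (I.pos (nat_lit 0) (nat_lit 0)) T1.l18
  (TrL.c (I.pos (nat_lit 0) (nat_lit 0)) T1.l1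
  (TrL.c (I.pos (nat_lit 0) (nat_lit 89480386)) T1.l2
  (TrL.c (I.pos (nat_lit 0) (nat_lit 41530880)) T1.l3
  (TrL.c (I.pos (nat_lit 0) (nat_lit 0)) T1.l19
  (TrL.c (I.pos (nat_lit 0) (nat_lit 0)) T1.l5
  (TrL.c (I.mix (nat_lit 41527258) (nat_lit 41530880)) T1.l6
  (TrL.c (I.mix (nat_lit 41527258) (nat_lit 4274)) T1.l7
  TrL.n)))))))) (by decide +kernel)
theorem bx2_21 : BoxOK sI cl6 cl4 cl4 t1 t1 b2_21 :=
  box_mk (TrL.c (I.pos (nat_lit 0) (nat_lit 0)) T1.l0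
  (TrL.c (I.pos (nat_lit 0) (nat_lit 0)) T1.l5
  (TrL.c (I.pos (nat_lit 0) (nat_lit 89480386)) (xR T1.l2 T1.l2)
  (TrL.c (I.pos (nat_lit 0) (nat_lit 41530880)) T1.l3
  (TrL.c (I.pos (nat_lit 0) (nat_lit 0)) T1.l0
  (TrL.c (I.pos (nat_lit 0) (nat_lit 0)) T1.l1
  (TrL.c (I.mix (nat_lit 41527258) (nat_lit 41530880)) T1.l2
  (TrL.c (I.mix (nat_lit 41527258) (nat_lit 4274)) T1.l3
  TrL.n)))))))) (by decide +kernel)
theorem bx2_22 : BoxOK sI cl6 cl4 cl4 t1 t1 b2_22 :=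
  box_mk (TrL.c (I.pos (nat_lit 0) (nat_lit 0)) T1.l18
  (TrL.c (I.pos (nat_lit 0) (nat_lit 0)) T1.l12
  (TrL.c (I.pos (nat_lit 0) (nat_lit 89480386)) T1.l2
  (TrL.c (I.pos (nat_lit 0) (nat_lit 41530880)) T1.l2
  (TrL.c (I.pos (nat_lit 0) (nat_lit 0)) T1.l19
  (TrL.c (I.pos (nat_lit 0) (nat_lit 0)) T1.l2
  (TrL.c (I.mix (nat_lit 41527258) (nat_lit 41530880)) T1.l14
  (TrL.c (I.mix (nat_lit 41527258) (nat_lit 4274)) T1.l6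
  TrL.n)))))))) (by decide +kernel)
theorem bx2_23 : BoxOK sI cl6 cl4 cl4 t1 t1 b2_23 :=
  box_mk (TrL.c (I.pos (nat_lit 0) (nat_lit 0)) T1.l0
  (TrL.c (I.pos (nat_lit 0) (nat_lit 0)) T1.l5
  (TrL.c (I.pos (nat_lit 0) (nat_lit 89480386)) (xR T1.l2 T1.l2)
  (TrL.c (I.pos (nat_lit 0) (nat_lit 41530880)) T1.l3
  (TrL.c (I.pos (nat_lit 0) (nat_lit 0)) T1.l0
  (TrL.c (I.pos (nat_lit 0) (nat_lit 0)) T1.l1
  (TrL.c (I.mix (nat_lit 41527258) (nat_lit 41530880)) T1.l2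
  (TrL.c (I.mix (nat_lit 41527258) (nat_lit 4274)) T1.l3
  TrL.n)))))))) (by decide +kernel)
theorem bx2_24 : BoxOK sI cl6 cl4 cl4 t1 t1 b2_24 :=
  box_mk (TrL.c (I.pos (nat_lit 0) (nat_lit 0)) T1.l18
  (TrL.c (I.pos (nat_lit 0) (nat_lit 0)) T1.l12
  (TrL.c (I.pos (nat_lit 0) (nat_lit 89480386)) T1.l2
  (TrL.c (I.pos (nat_lit 0) (nat_lit 41530880)) T1.l2
  (TrL.c (I.pos (nat_lit 0) (nat_lit 0)) T1.l19
  (TrL.c (I.pos (nat_lit 0) (nat_lit 0)) T1.l2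
  (TrL.c (I.mix (nat_lit 41527258) (nat_lit 41530880)) T1.l14
  (TrL.c (I.mix (nat_lit 41527258) (nat_lit 4274)) T1.l6
  TrL.n)))))))) (by decide +kernel)
theorem bx2_25 : BoxOK sI cl6 cl4 cl4 t1 t1 b2_25 :=
  box_mk (TrL.c (I.pos (nat_lit 0) (nat_lit 0)) T1.l0
  (TrL.c (I.pos (nat_lit 0) (nat_lit 0)) T1.l1
  (TrL.c (I.pos (nat_lit 0) (nat_lit 89480386)) (xR T1.l2 T1.l2)
  (TrL.c (I.pos (nat_lit 0) (nat_lit 41530880)) T1.l3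
  (TrL.c (I.pos (nat_lit 0) (nat_lit 0)) T1.l4
  (TrL.c (I.pos (nat_lit 0) (nat_lit 0)) T1.l5
  (TrL.c (I.mix (nat_lit 41527258) (nat_lit 41530880)) T1.l6
  (TrL.c (I.mix (nat_lit 41527258) (nat_lit 4274)) T1.l7
  TrL.n)))))))) (by decide +kernel)
theorem bx2_26 : BoxOK sI cl6 cl4 cl4 t1 t1 b2_26 :=
  box_mk (TrL.c (I.pos (nat_lit 0) (nat_lit 0)) T1.l0
  (TrL.c (I.pos (nat_lit 0) (nat_lit 0)) T1.l1
  (TrL.c (I.pos (nat_lit 0) (nat_lit 89480386)) (xR T1.l2 T1.l2)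
  (TrL.c (I.pos (nat_lit 0) (nat_lit 41530880)) T1.l3
  (TrL.c (I.pos (nat_lit 0) (nat_lit 0)) T1.l4
  (TrL.c (I.pos (nat_lit 0) (nat_lit 0)) T1.l5
  (TrL.c (I.mix (nat_lit 41527258) (nat_lit 41530880)) T1.l2
  (TrL.c (I.mix (nat_lit 41527258) (nat_lit 4274)) T1.l7
  TrL.n)))))))) (by decide +kernel)
theorem bx2_27 : BoxOK sI cl6 cl4 cl4 t1 t1 b2_27 :=
  box_mk (TrL.c (I.pos (nat_lit 0) (nat_lit 0)) T1.l18
  (TrL.c (I.pos (nat_lit 0) (nat_lit 0)) T1.l12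
  (TrL.c (I.pos (nat_lit 0) (nat_lit 89480386)) T1.l2
  (TrL.c (I.pos (nat_lit 0) (nat_lit 41530880)) T1.l2
  (TrL.c (I.pos (nat_lit 0) (nat_lit 0)) T1.l19
  (TrL.c (I.pos (nat_lit 0) (nat_lit 0)) T1.l5
  (TrL.c (I.mix (nat_lit 41527258) (nat_lit 41530880)) T1.l6
  (TrL.c (I.mix (nat_lit 41527258) (nat_lit 4274)) T1.l7
  TrL.n)))))))) (by decide +kernel)
theorem sv2 : StarV sI cl6 cl4 cl4 t1 t1 t2 :=
  (bt_n (bt_n (bt_n (bt_n (bt_b bx2_0) (bt_n (bt_b bx2_1) (bt_b bx2_2))) (bt_n (bt_n (bt_b bx2_3) (bt_b bx2_4)) (bt_n (bt_b bx2_5) (bt_b bx2_6)))) (bt_n (bt_n (bt_b bx2_7) (bt_n (bt_b bx2_8) (bt_b bx2_9))) (bt_n (bt_n (bt_b bx2_10) (bt_b bx2_11)) (bt_n (bt_b bx2_12) (bt_b bx2_13))))) (bt_n (bt_n (bt_n (bt_b bx2_14) (bt_n (bt_b bx2_15) (bt_b bx2_16))) (bt_n (bt_n (bt_b bx2_17) (bt_b bx2_18)) (bt_n (bt_b bx2_19) (bt_b bx2_20)))) (bt_n (bt_n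 (bt_b bx2_21) (bt_n (bt_b bx2_22) (bt_b bx2_23))) (bt_n (bt_n (bt_b bx2_24) (bt_b bx2_25)) (bt_n (bt_b bx2_26) (bt_b bx2_27))))))
def S2 : StarD := StarD.mk cl6 cl4 cl4 1 1 t2
def G : List StarD := [S0, S1, S2]
theorem so0 : StarOK sI G S0 :=
  star_mk (by decide) (by decide) rfl rfl rfl rfl rfl rfl (rfl : _ = t0) (rfl : _ = t2)
  (st_mk (Pth.l (Pth.l (Pth.l Pth.z))) (nat_lit 395509136) (nat_lit 400746066) (by decide +kernel))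
  (st_mk (Pth.l (Pth.l (Pth.l Pth.z))) (nat_lit 437154596) (nat_lit 443698448) (by decide +kernel))
  (st_mk (Pth.l (Pth.l (Pth.l Pth.z))) (nat_lit 486241482) (nat_lit 494563430) (by decide +kernel)) sv0
theorem so1 : StarOK sI G S1 :=
  star_mk (by decide) (by decide) rfl rfl rfl rfl rfl rfl (rfl : _ = t2) (rfl : _ = t0)
  (st_mk (Pth.l (Pth.l (Pth.l (Pth.l Pth.z)))) (nat_lit 198428901) (nat_lit 200467703) (by decide +kernel))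
  (st_mk (Pth.l (Pth.l (Pth.l (Pth.l Pth.z)))) (nat_lit 238857087) (nat_lit 241910621) (by decide +kernel))
  (st_mk (Pth.l (Pth.l (Pth.l (Pth.l Pth.z)))) (nat_lit 287053316) (nat_lit 291652789) (by decide +kernel)) sv1
theorem so2 : StarOK sI G S2 :=
  star_mk (by decide) (by decide) rfl rfl rfl rfl rfl rfl (rfl : _ = t1) (rfl : _ = t1)
  (st_mk (Pth.l (Pth.l (Pth.l (Pth.l Pth.z)))) (nat_lit 380135774) (nat_lit 382490409) (by decide +kernel))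
  (st_mk (Pth.l (Pth.l (Pth.l (Pth.l Pth.z)))) (nat_lit 418201877) (nat_lit 421077616) (by decide +kernel))
  (st_mk (Pth.l (Pth.l (Pth.l (Pth.l Pth.z)))) (nat_lit 462539969) (nat_lit 466096685) (by decide +kernel)) sv2
theorem ok : GroupOK (nat_lit 150274048) (nat_lit 209387520) G := grp_mk (allS_c so0 (allS_c so1 (allS_c so2 allS_n)))
theorem cov : GCov G cl4 cl4 cl6 := cov_mk
  ⟨0, by decide, rfl, rfl, rfl⟩ ⟨1, by decide, rfl, rfl, rfl⟩ ⟨0, by decide, rfl, rfl, rfl⟩ ⟨1, by decide, rfl, rfl, rfl⟩ ⟨2, by decide, rfl, rfl, rfl⟩ ⟨2, by decide, rfl, rfl, rfl⟩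
end Q113_2


end Pool.Agent.Helper6.MONO
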