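import Pool.Agent.Helper6.MONO.Cert.C17

/-!
Certificate data (generated).
-/

set_option autoImplicit false
set_option linter.all false
noncomputable section
namespace Pool.Agent.Helper6.MONO


namespace Q113_3
def sI : I := I.pos (nat_lit 209321984) (nat_lit 238944256)
def b0_0 : Bx := Bx.mk (St.mk (I.pos (nat_lit 139313152) (nat_lit 217317376)) (I.mix (nat_lit 2981888) (nat_lit 100220928)) (I.mix (nat_lit 28246016) (nat_lit 66797568)) (I.pos (nat_lit 396328960) (nat_lit 502775808)) (I.mix (nat_lit 214269952) (nat_lit 141246464)) (I.mix (nat_lit 136085504) (nat_lit 131284992)) (I.mix (nat_lit 219512832) (nat_lit 202735616)))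
  false (nat_lit 48764625)
def b0_1 : Bx := Bx.mk (St.mk (I.mix (nat_lit 47087616) (nat_lit 10190848)) (I.mix (nat_lit 18481152) (nat_lit 84459520)) (I.neg (nat_lit 68141056) (nat_lit 95092736)) (I.pos (nat_lit 265338880) (nat_lit 294862848)) (I.mix (nat_lit 82952192) (nat_lit 175898624)) (I.mix (nat_lit 131596288) (nat_lit 102989824)) (I.mix (nat_lit 75431936) (nat_lit 62668800)))
  true (nat_lit 0)
def b0_2 : Bx := Bx.mk (St.mk (I.mix (nat_lit 6324224) (nat_lit 47087616)) (I.neg (nat_lit 27115520) (nat_lit 84459520)) (I.neg (nat_lit 68173824) (nat_lit 95092736)) (I.pos (nat_lit 268648448) (nat_lit 294862848)) (I.mix (nat_lit 175898624) (nat_lit 82952192)) (I.mix (nat_lit 102989824) (nat_lit 131596288)) (I.mix (nat_lit 75448320) (nat_lit 62668800)))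
  false (nat_lit 27405821)
def b0_3 : Bx := Bx.mk (St.mk (I.mix (nat_lit 30162944) (nat_lit 6651904)) (I.mix (nat_lit 20070400) (nat_lit 23396352)) (I.neg (nat_lit 68681728) (nat_lit 79052800)) (I.pos (nat_lit 266010624) (nat_lit 276496384)) (I.mix (nat_lit 81084416) (nat_lit 65028096)) (I.mix (nat_lit 63193088) (nat_lit 56131584)) (I.mix (nat_lit 17989632) (nat_lit 25919488)))
  true (nat_lit 0)
def b0_4 : Bx := Bx.mk (St.mk (I.pos (nat_lit 191234048) (nat_lit 247283712)) (I.mix (nat_lit 23330816) (nat_lit 23298048)) (I.neg (nat_lit 88162304) (nat_lit 169132032)) (I.pos (nat_lit 428785664) (nat_lit 532430848)) (I.mix (nat_lit 165658624) (nat_lit 94846976)) (I.mix (nat_lit 114475008) (nat_lit 102514688)) (I.mix (nat_lit 199720960) (nat_lit 207585280)))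
  false (nat_lit 0)
def b0_5 : Bx := Bx.mk (St.mk (I.mix (nat_lit 7176192) (nat_lit 27131904)) (I.mix (nat_lit 17530880) (nat_lit 18481152)) (I.neg (nat_lit 69648384) (nat_lit 74989568)) (I.pos (nat_lit 267370496) (nat_lit 274907136)) (I.mix (nat_lit 67764224) (nat_lit 80773120)) (I.mix (nat_lit 56180736) (nat_lit 63766528)) (I.mix (nat_lit 9682944) (nat_lit 19906560)))
  false (nat_lit 0)
def b0_6 : Bx := Bx.mk (St.mk (I.pos (nat_lit 6635520) (nat_lit 124092416)) (I.neg (nat_lit 9453568) (nat_lit 83230720)) (I.neg (nat_lit 32096256) (nat_lit 103514112)) (I.pos (nat_lit 269205504) (nat_lit 344866816)) (I.mix (nat_lit 159465472) (nat_lit 82706432)) (I.mix (nat_lit 89653248) (nat_lit 109133824)) (I.mix (nat_lit 114573312) (nat_lit 97304576)))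
  false (nat_lit 30764449)
def b0_7 : Bx := Bx.mk (St.mk (I.pos (nat_lit 78938112) (nat_lit 182796288)) (I.mix (nat_lit 33964032) (nat_lit 81641472)) (I.mix (nat_lit 60309504) (nat_lit 56377344)) (I.pos (nat_lit 304431104) (nat_lit 441974784)) (I.mix (nat_lit 197410816) (nat_lit 125747200)) (I.mix (nat_lit 167739392) (nat_lit 136134656)) (I.mix (nat_lit 180322304) (nat_lit 169869312)))
  false (nat_lit 36087829)
def b0_8 : Bx := Bx.mk (St.mk (I.neg (nat_lit 6619136) (nat_lit 126304256)) (I.pos (nat_lit 262144) (nat_lit 83247104)) (I.neg (nat_lit 24576000) (nat_lit 103530496)) (I.pos (nat_lit 269205504) (nat_lit 346849280)) (I.mix (nat_lit 82706432) (nat_lit 159481856)) (I.mix (nat_lit 109150208) (nat_lit 89669632)) (I.mix (nat_lit 114638848) (nat_lit 97320960)))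
  true (nat_lit 0)
def b0_9 : Bx := Bx.mk (St.mk (I.pos (nat_lit 158859264) (nat_lit 236634112)) (I.mix (nat_lit 20004864) (nat_lit 91815936)) (I.mix (nat_lit 157499392) (nat_lit 37617664)) (I.pos (nat_lit 409862144) (nat_lit 532021248)) (I.mix (nat_lit 175800320) (nat_lit 161873920)) (I.mix (nat_lit 158531584) (nat_lit 145227776)) (I.mix (nat_lit 291373056) (nat_lit 191840256)))
  false (nat_lit 37510006)
def b0_10 : Bx := Bx.mk (St.mk (I.mix (nat_lit 10190848) (nat_lit 38699008)) (I.mix (nat_lit 65667072) (nat_lit 16515072)) (I.neg (nat_lit 68730880) (nat_lit 90636288)) (I.pos (nat_lit 265322496) (nat_lit 285442048)) (I.mix (nat_lit 152043520) (nat_lit 81166336)) (I.mix (nat_lit 79822848) (nat_lit 121470976)) (I.mix (nat_lit 53559296) (nat_lit 45367296)))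
  false (nat_lit 0)
def t0 : BTr := (BTr.n (BTr.n (BTr.n (BTr.b b0_0) (BTr.b b0_1)) (BTr.n (BTr.b b0_2) (BTr.n (BTr.b b0_3) (BTr.b b0_4)))) (BTr.n (BTr.n (BTr.b b0_5) (BTr.n (BTr.b b0_6) (BTr.b b0_7))) (BTr.n (BTr.b b0_8) (BTr.n (BTr.b b0_9) (BTr.b b0_10)))))
namespace T0
def l0 : Tr := Tr.L (Pth.l (Pth.l (Pth.l Pth.z)))
def l1 : Tr := Tr.L (Pth.l (Pth.l (Pth.r Pth.z)))
def l2 : Tr := Tr.L (Pth.l (Pth.r (Pth.l Pth.z)))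
def l3 : Tr := Tr.L (Pth.l (Pth.r (Pth.r (Pth.l Pth.z))))
def l4 : Tr := Tr.L (Pth.l (Pth.r (Pth.r (Pth.r Pth.z))))
def l5 : Tr := Tr.L (Pth.r (Pth.l (Pth.l Pth.z)))
def l6 : Tr := Tr.L (Pth.r (Pth.l (Pth.r (Pth.l Pth.z))))
def l7 : Tr := Tr.L (Pth.r (Pth.l (Pth.r (Pth.r Pth.z))))
def l8 : Tr := Tr.L (Pth.r (Pth.r (Pth.l Pth.z)))
def l9 : Tr := Tr.L (Pth.r (Pth.r (Pth.r (Pth.l Pth.z))))
def l10 : Tr := Tr.L (Pth.r (Pth.r (Pth.r (Pth.r Pth.z))))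
end T0
def b1_0 : Bx := Bx.mk (St.mk (I.pos (nat_lit 153075712) (nat_lit 217104384)) (I.mix (nat_lit 1785856) (nat_lit 57475072)) (I.mix (nat_lit 2703360) (nat_lit 89538560)) (I.pos (nat_lit 196804608) (nat_lit 297730048)) (I.mix (nat_lit 137003008) (nat_lit 86196224)) (I.mix (nat_lit 88080384) (nat_lit 79937536)) (I.mix (nat_lit 139902976) (nat_lit 124600320)))
  false (nat_lit 0)
def b1_1 : Bx := Bx.mk (St.mk (I.pos (nat_lit 87588864) (nat_lit 152403968)) (I.neg (nat_lit 2490368) (nat_lit 58867712)) (I.neg (nat_lit 344064) (nat_lit 52953088)) (I.pos (nat_lit 127008768) (nat_lit 187777024)) (I.mix (nat_lit 95928320) (nat_lit 74563584)) (I.mix (nat_lit 64913408) (nat_lit 80068608)) (I.mix (nat_lit 59555840) (nat_lit 75218944)))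
  false (nat_lit 4861953)
def b1_2 : Bx := Bx.mk (St.mk (I.mix (nat_lit 29933568) (nat_lit 93667328)) (I.mix (nat_lit 7716864) (nat_lit 35012608)) (I.mix (nat_lit 13778944) (nat_lit 15220736)) (I.pos (nat_lit 89489408) (nat_lit 126058496)) (I.mix (nat_lit 60063744) (nat_lit 62996480)) (I.mix (nat_lit 54460416) (nat_lit 43909120)) (I.mix (nat_lit 37961728) (nat_lit 25821184)))
  false (nat_lit 0)
def b1_3 : Bx := Bx.mk (St.mk (I.mix (nat_lit 29245440) (nat_lit 43122688)) (I.mix (nat_lit 32538624) (nat_lit 4521984)) (I.mix (nat_lit 11616256) (nat_lit 2195456)) (I.pos (nat_lit 88588288) (nat_lit 101220352)) (I.mix (nat_lit 41222144) (nat_lit 49184768)) (I.mix (nat_lit 32456704) (nat_lit 41975808)) (I.mix (nat_lit 12353536) (nat_lit 16973824)))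
  false (nat_lit 0)
def b1_4 : Bx := Bx.mk (St.mk (I.pos (nat_lit 140361728) (nat_lit 195543040)) (I.mix (nat_lit 10747904) (nat_lit 54263808)) (I.pos (nat_lit 10059776) (nat_lit 82460672)) (I.pos (nat_lit 181518336) (nat_lit 254935040)) (I.mix (nat_lit 154238976) (nat_lit 49545216)) (I.mix (nat_lit 142442496) (nat_lit 83083264)) (I.mix (nat_lit 139657216) (nat_lit 81018880)))
  false (nat_lit 0)
def b1_5 : Bx := Bx.mk (St.mk (I.pos (nat_lit 76742656) (nat_lit 115097600)) (I.mix (nat_lit 57524224) (nat_lit 12042240)) (I.neg (nat_lit 2899968) (nat_lit 50675712)) (I.pos (nat_lit 117145600) (nat_lit 148865024)) (I.mix (nat_lit 111198208) (nat_lit 64487424)) (I.mix (nat_lit 57442304) (nat_lit 100499456)) (I.mix (nat_lit 42336256) (nat_lit 64421888)))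
  false (nat_lit 0)
def b1_6 : Bx := Bx.mk (St.mk (I.mix (nat_lit 42319872) (nat_lit 71778304)) (I.mix (nat_lit 10715136) (nat_lit 33112064)) (I.mix (nat_lit 11894784) (nat_lit 12828672)) (I.pos (nat_lit 88522752) (nat_lit 114393088)) (I.mix (nat_lit 60276736) (nat_lit 43810816)) (I.mix (nat_lit 46972928) (nat_lit 32456704)) (I.mix (nat_lit 16957440) (nat_lit 16973824)))
  false (nat_lit 0)
def b1_7 : Bx := Bx.mk (St.mk (I.mix (nat_lit 39583744) (nat_lit 28164096)) (I.mix (nat_lit 33374208) (nat_lit 6864896)) (I.mix (nat_lit 9863168) (nat_lit 3719168)) (I.pos (nat_lit 88981504) (nat_lit 101236736)) (I.mix (nat_lit 52396032) (nat_lit 46252032)) (I.mix (nat_lit 31440896) (nat_lit 43532288)) (I.mix (nat_lit 18006016) (nat_lit 10338304)))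
  false (nat_lit 0)
def b1_8 : Bx := Bx.mk (St.mk (I.pos (nat_lit 173965312) (nat_lit 232570880)) (I.mix (nat_lit 15679488) (nat_lit 57720832)) (I.mix (nat_lit 48594944) (nat_lit 83722240)) (I.pos (nat_lit 238944256) (nat_lit 320487424)) (I.mix (nat_lit 149422080) (nat_lit 107102208)) (I.mix (nat_lit 121946112) (nat_lit 103645184)) (I.mix (nat_lit 210042880) (nat_lit 172638208)))
  false (nat_lit 875351)
def b1_9 : Bx := Bx.mk (St.mk (I.pos (nat_lit 141705216) (nat_lit 181813248)) (I.mix (nat_lit 43565056) (nat_lit 20873216)) (I.mix (nat_lit 35422208) (nat_lit 42778624)) (I.pos (nat_lit 180977664) (nat_lit 226115584)) (I.mix (nat_lit 148242432) (nat_lit 89358336)) (I.mix (nat_lit 141656064) (nat_lit 90177536)) (I.mix (nat_lit 138690560) (nat_lit 89653248)))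
  false (nat_lit 0)
def b1_10 : Bx := Bx.mk (St.mk (I.pos (nat_lit 108265472) (nat_lit 149028864)) (I.neg (nat_lit 573440) (nat_lit 31866880)) (I.mix (nat_lit 24346624) (nat_lit 5914624)) (I.pos (nat_lit 146915328) (nat_lit 183697408)) (I.mix (nat_lit 97239040) (nat_lit 32473088)) (I.mix (nat_lit 43024384) (nat_lit 61833216)) (I.mix (nat_lit 41484288) (nat_lit 55459840)))
  false (nat_lit 0)
def b1_11 : Bx := Bx.mk (St.mk (I.pos (nat_lit 61915136) (nat_lit 89276416)) (I.mix (nat_lit 12959744) (nat_lit 15286272)) (I.neg (nat_lit 163840) (nat_lit 17121280)) (I.pos (nat_lit 107839488) (nat_lit 124452864)) (I.mix (nat_lit 62537728) (nat_lit 33652736)) (I.mix (nat_lit 39059456) (nat_lit 37765120)) (I.mix (nat_lit 24461312) (nat_lit 24182784)))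
  false (nat_lit 0)
def b1_12 : Bx := Bx.mk (St.mk (I.mix (nat_lit 60653568) (nat_lit 42270720)) (I.mix (nat_lit 10240000) (nat_lit 13434880)) (I.mix (nat_lit 4325376) (nat_lit 3751936)) (I.pos (nat_lit 90701824) (nat_lit 106627072)) (I.mix (nat_lit 43139072) (nat_lit 28311552)) (I.mix (nat_lit 27852800) (nat_lit 31866880)) (I.mix (nat_lit 12484608) (nat_lit 10731520)))
  false (nat_lit 0)
def b1_13 : Bx := Bx.mk (St.mk (I.neg (nat_lit 6422528) (nat_lit 59392000)) (I.mix (nat_lit 10485760) (nat_lit 12795904)) (I.neg (nat_lit 3768320) (nat_lit 12222464)) (I.pos (nat_lit 91537408) (nat_lit 106201088)) (I.mix (nat_lit 44695552) (nat_lit 30801920)) (I.mix (nat_lit 31473664) (nat_lit 30654464)) (I.mix (nat_lit 13189120) (nat_lit 11878400)))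
  false (nat_lit 0)
def b1_14 : Bx := Bx.mk (St.mk (I.pos (nat_lit 197869568) (nat_lit 246497280)) (I.mix (nat_lit 16449536) (nat_lit 19562496)) (I.mix (nat_lit 57737216) (nat_lit 14188544)) (I.pos (nat_lit 271122432) (nat_lit 356515840)) (I.mix (nat_lit 128761856) (nat_lit 17039360)) (I.mix (nat_lit 58376192) (nat_lit 65470464)) (I.mix (nat_lit 105742336) (nat_lit 127139840)))
  false (nat_lit 0)
def b1_15 : Bx := Bx.mk (St.mk (I.pos (nat_lit 130924544) (nat_lit 161234944)) (I.neg (nat_lit 6930432) (nat_lit 36618240)) (I.mix (nat_lit 30769152) (nat_lit 131072)) (I.pos (nat_lit 169181184) (nat_lit 200671232)) (I.mix (nat_lit 56688640) (nat_lit 33193984)) (I.mix (nat_lit 31752192) (nat_lit 34947072)) (I.mix (nat_lit 37158912) (nat_lit 33210368)))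
  false (nat_lit 0)
def t1 : BTr := (BTr.n (BTr.n (BTr.n (BTr.n (BTr.b b1_0) (BTr.b b1_1)) (BTr.n (BTr.b b1_2) (BTr.b b1_3))) (BTr.n (BTr.n (BTr.b b1_4) (BTr.b b1_5)) (BTr.n (BTr.b b1_6) (BTr.b b1_7)))) (BTr.n (BTr.n (BTr.n (BTr.b b1_8) (BTr.b b1_9)) (BTr.n (BTr.b b1_10) (BTr.b b1_11))) (BTr.n (BTr.n (BTr.b b1_12) (BTr.b b1_13)) (BTr.n (BTr.b b1_14) (BTr.b b1_15)))))
namespace T1
def l0 : Tr := Tr.L (Pth.l (Pth.l (Pth.l (Pth.l Pth.z))))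
def l1 : Tr := Tr.L (Pth.l (Pth.l (Pth.l (Pth.r Pth.z))))
def l2 : Tr := Tr.L (Pth.l (Pth.l (Pth.r (Pth.l Pth.z))))
def l3 : Tr := Tr.L (Pth.l (Pth.l (Pth.r (Pth.r Pth.z))))
def l4 : Tr := Tr.L (Pth.l (Pth.r (Pth.l (Pth.l Pth.z))))
def l5 : Tr := Tr.L (Pth.l (Pth.r (Pth.l (Pth.r Pth.z))))
def l6 : Tr := Tr.L (Pth.l (Pth.r (Pth.r (Pth.l Pth.z))))
def l7 : Tr := Tr.L (Pth.l (Pth.r (Pth.r (Pth.r Pth.z))))
def l8 : Tr := Tr.L (Pth.r (Pth.l (Pth.l (Pth.l Pth.z))))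
def l9 : Tr := Tr.L (Pth.r (Pth.l (Pth.l (Pth.r Pth.z))))
def l10 : Tr := Tr.L (Pth.r (Pth.l (Pth.r (Pth.l Pth.z))))
def l11 : Tr := Tr.L (Pth.r (Pth.l (Pth.r (Pth.r Pth.z))))
def l12 : Tr := Tr.L (Pth.r (Pth.r (Pth.l (Pth.l Pth.z))))
def l13 : Tr := Tr.L (Pth.r (Pth.r (Pth.l (Pth.r Pth.z))))
def l14 : Tr := Tr.L (Pth.r (Pth.r (Pth.r (Pth.l Pth.z))))
def l15 : Tr := Tr.L (Pth.r (Pth.r (Pth.r (Pth.r Pth.z))))
end T1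
def b2_0 : Bx := Bx.mk (St.mk (I.pos (nat_lit 121225216) (nat_lit 217858048)) (I.mix (nat_lit 2506752) (nat_lit 82575360)) (I.mix (nat_lit 3801088) (nat_lit 126746624)) (I.pos (nat_lit 368001024) (nat_lit 471597056)) (I.mix (nat_lit 207503360) (nat_lit 101154816)) (I.mix (nat_lit 124534784) (nat_lit 102957056)) (I.mix (nat_lit 148897792) (nat_lit 140558336)))
  false (nat_lit 67476510)
def b2_1 : Bx := Bx.mk (St.mk (I.pos (nat_lit 29425664) (nat_lit 113557504)) (I.neg (nat_lit 32768) (nat_lit 98107392)) (I.mix (nat_lit 49348608) (nat_lit 38207488)) (I.pos (nat_lit 286474240) (nat_lit 336248832)) (I.mix (nat_lit 151093248) (nat_lit 130564096)) (I.mix (nat_lit 121028608) (nat_lit 109756416)) (I.mix (nat_lit 121700352) (nat_lit 101793792)))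
  false (nat_lit 131101387)
def b2_2 : Bx := Bx.mk (St.mk (I.pos (nat_lit 97566720) (nat_lit 167510016)) (I.mix (nat_lit 46465024) (nat_lit 75792384)) (I.mix (nat_lit 16384) (nat_lit 128385024)) (I.pos (nat_lit 317718528) (nat_lit 407945216)) (I.mix (nat_lit 227524608) (nat_lit 110755840)) (I.mix (nat_lit 188170240) (nat_lit 151715840)) (I.mix (nat_lit 197853184) (nat_lit 190627840)))
  false (nat_lit 80982624)
def b2_3 : Bx := Bx.mk (St.mk (I.neg (nat_lit 29425664) (nat_lit 113803264)) (I.mix (nat_lit 196608) (nat_lit 98107392)) (I.mix (nat_lit 49348608) (nat_lit 38535168)) (I.pos (nat_lit 286457856) (nat_lit 336248832)) (I.mix (nat_lit 130564096) (nat_lit 151093248)) (I.mix (nat_lit 109772800) (nat_lit 121028608)) (I.mix (nat_lit 121716736) (nat_lit 101810176)))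
  true (nat_lit 0)
def b2_4 : Bx := Bx.mk (St.mk (I.pos (nat_lit 70385664) (nat_lit 114638848)) (I.mix (nat_lit 39813120) (nat_lit 1048576)) (I.pos (nat_lit 4636672) (nat_lit 39256064)) (I.pos (nat_lit 297435136) (nat_lit 334233600)) (I.mix (nat_lit 104153088) (nat_lit 91504640)) (I.mix (nat_lit 66142208) (nat_lit 83968000)) (I.mix (nat_lit 64258048) (nat_lit 70090752)))
  false (nat_lit 0)
def b2_5 : Bx := Bx.mk (St.mk (I.mix (nat_lit 63537152) (nat_lit 15925248)) (I.mix (nat_lit 10469376) (nat_lit 89522176)) (I.neg (nat_lit 14761984) (nat_lit 36929536)) (I.pos (nat_lit 274415616) (nat_lit 309248000)) (I.mix (nat_lit 96272384) (nat_lit 130613248)) (I.mix (nat_lit 104169472) (nat_lit 91619328)) (I.mix (nat_lit 53297152) (nat_lit 42582016)))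
  true (nat_lit 0)
def b2_6 : Bx := Bx.mk (St.mk (I.pos (nat_lit 18399232) (nat_lit 63586304)) (I.neg (nat_lit 35323904) (nat_lit 89473024)) (I.neg (nat_lit 16678912) (nat_lit 36929536)) (I.pos (nat_lit 284491776) (nat_lit 309215232)) (I.mix (nat_lit 128827392) (nat_lit 86949888)) (I.mix (nat_lit 90980352) (nat_lit 99549184)) (I.mix (nat_lit 52609024) (nat_lit 38699008)))
  false (nat_lit 70719840)
def b2_7 : Bx := Bx.mk (St.mk (I.mix (nat_lit 18710528) (nat_lit 51167232)) (I.mix (nat_lit 44531712) (nat_lit 19873792)) (I.neg (nat_lit 15007744) (nat_lit 23298048)) (I.pos (nat_lit 274857984) (nat_lit 290275328)) (I.mix (nat_lit 66174976) (nat_lit 74498048)) (I.mix (nat_lit 53526528) (nat_lit 49381376)) (I.mix (nat_lit 16105472) (nat_lit 15466496)))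
  false (nat_lit 0)
def b2_8 : Bx := Bx.mk (St.mk (I.pos (nat_lit 179339264) (nat_lit 285294592)) (I.mix (nat_lit 40353792) (nat_lit 54132736)) (I.mix (nat_lit 125681664) (nat_lit 68943872)) (I.pos (nat_lit 414121984) (nat_lit 609632256)) (I.mix (nat_lit 133791744) (nat_lit 86458368)) (I.mix (nat_lit 83492864) (nat_lit 77971456)) (I.mix (nat_lit 155975680) (nat_lit 136052736)))
  false (nat_lit 1922481)
def b2_9 : Bx := Bx.mk (St.mk (I.pos (nat_lit 140656640) (nat_lit 196067328)) (I.pos (nat_lit 18202624) (nat_lit 81330176)) (I.pos (nat_lit 28524544) (nat_lit 118849536)) (I.pos (nat_lit 381337600) (nat_lit 447528960)) (I.mix (nat_lit 165445632) (nat_lit 105512960)) (I.mix (nat_lit 125665280) (nat_lit 82952192)) (I.mix (nat_lit 189988864) (nat_lit 120537088)))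
  false (nat_lit 9884205)
def b2_10 : Bx := Bx.mk (St.mk (I.pos (nat_lit 16760832) (nat_lit 55083008)) (I.neg (nat_lit 22265856) (nat_lit 74989568)) (I.neg (nat_lit 17596416) (nat_lit 34504704)) (I.pos (nat_lit 283066368) (nat_lit 298614784)) (I.mix (nat_lit 116686848) (nat_lit 96272384)) (I.mix (nat_lit 68845568) (nat_lit 102514688)) (I.mix (nat_lit 34914304) (nat_lit 26460160)))
  false (nat_lit 40873295)
def t2 : BTr := (BTr.n (BTr.n (BTr.n (BTr.b b2_0) (BTr.b b2_1)) (BTr.n (BTr.b b2_2) (BTr.n (BTr.b b2_3) (BTr.b b2_4)))) (BTr.n (BTr.n (BTr.b b2_5) (BTr.n (BTr.b b2_6) (BTr.b b2_7))) (BTr.n (BTr.b b2_8) (BTr.n (BTr.b b2_9) (BTr.b b2_10)))))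
namespace T2
def l0 : Tr := Tr.L (Pth.l (Pth.l (Pth.l Pth.z)))
def l1 : Tr := Tr.L (Pth.l (Pth.l (Pth.r Pth.z)))
def l2 : Tr := Tr.L (Pth.l (Pth.r (Pth.l Pth.z)))
def l3 : Tr := Tr.L (Pth.l (Pth.r (Pth.r (Pth.l Pth.z))))
def l4 : Tr := Tr.L (Pth.l (Pth.r (Pth.r (Pth.r Pth.z))))
def l5 : Tr := Tr.L (Pth.r (Pth.l (Pth.l Pth.z)))
def l6 : Tr := Tr.L (Pth.r (Pth.l (Pth.r (Pth.l Pth.z))))
def l7 : Tr := Tr.L (Pth.r (Pth.l (Pth.r (Pth.r Pth.z))))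
def l8 : Tr := Tr.L (Pth.r (Pth.r (Pth.l Pth.z)))
def l9 : Tr := Tr.L (Pth.r (Pth.r (Pth.r (Pth.l Pth.z))))
def l10 : Tr := Tr.L (Pth.r (Pth.r (Pth.r (Pth.r Pth.z))))
end T2
theorem bx0_0 : BoxOK sI cl4 cl4 cl6 t0 t2 b0_0 :=
  box_mk (TrL.c (I.pos (nat_lit 0) (nat_lit 0)) (xb (xa (xb (xa T0.l9 T0.l0) (xa T0.l0 T0.l0)) (xb T0.l0 T0.l0)) (xa (xb (xa T0.l9 T0.l0) (xa (xb T0.l0 (xa T0.l0 T0.l0)) (xb T0.l0 (xa T0.l0 T0.l0)))) (xb (xa T0.l0 T0.l0) (xa (xb T0.l0 (xa T0.l0 T0.l0)) (xb T0.l0 (xa T0.l0 T0.l0))))))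
  (TrL.c (I.pos (nat_lit 0) (nat_lit 0)) (xb (xa T2.l1 T2.l1) (xa (xb T2.l1 T2.l1) (xb T2.l1 T2.l1)))
  (TrL.c (I.pos (nat_lit 0) (nat_lit 0)) (xb T0.l1 (xa T0.l1 T0.l1))
  (TrL.c (I.pos (nat_lit 0) (nat_lit 0)) (xb (xa T2.l2 (xb T2.l2 (xa T2.l2 T2.l2))) (xa (xb T2.l2 (xa T2.l2 T2.l2)) (xb (xa T2.l2 T2.l2) (xa T2.l2 (xb T2.l2 T2.l2)))))
  (TrL.c (I.pos (nat_lit 0) (nat_lit 0)) (xb (xa T0.l10 T0.l2) (xa T0.l2 T0.l2))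
  (TrL.c (I.pos (nat_lit 0) (nat_lit 0)) (xb (xa T2.l3 T2.l3) (xa (xb T2.l3 T2.l3) (xb T2.l3 T2.l3)))
  TrL.n)))))) (by decide +kernel)
theorem bx0_1 : BoxOK sI cl4 cl4 cl6 t0 t2 b0_1 :=
  box_mk (TrL.c (I.pos (nat_lit 0) (nat_lit 0)) (xb T2.l4 T2.l4)
  (TrL.c (I.pos (nat_lit 0) (nat_lit 0)) (xb T0.l1 T0.l3)
  TrL.n)) (by decide +kernel)
theorem bx0_2 : BoxOK sI cl4 cl4 cl6 t0 t2 b0_2 :=
  box_mk (TrL.c (I.pos (nat_lit 0) (nat_lit 0)) (xb (xa (xb (xa (xb T0.l4 T0.l4) T0.l4) (xa (xb T0.l4 T0.l4) T0.l4)) (xb (xa T0.l4 T0.l9) T0.l4)) (xa (xb (xa T0.l4 T0.l4) (xa (xb T0.l4 T0.l4) T0.l9)) (xb T0.l9 T0.l9)))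
  (TrL.c (I.pos (nat_lit 0) (nat_lit 0)) T2.l4
  (TrL.c (I.pos (nat_lit 0) (nat_lit 0)) T0.l1
  (TrL.c (I.pos (nat_lit 0) (nat_lit 0)) (xb T2.l2 T2.l2)
  (TrL.c (I.pos (nat_lit 0) (nat_lit 0)) T0.l5
  (TrL.c (I.pos (nat_lit 0) (nat_lit 0)) T2.l3
  TrL.n)))))) (by decide +kernel)
theorem bx0_3 : BoxOK sI cl4 cl4 cl6 t0 t2 b0_3 :=
  box_mk (TrL.c (I.pos (nat_lit 0) (nat_lit 0)) T2.l4
  (TrL.c (I.pos (nat_lit 0) (nat_lit 0)) T0.l1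
  TrL.n)) (by decide +kernel)
theorem bx0_4 : BoxOK sI cl4 cl4 cl6 t0 t2 b0_4 :=
  box_mk (TrL.c (I.pos (nat_lit 0) (nat_lit 0)) (xa T0.l0 T0.l7)
  (TrL.c (I.pos (nat_lit 0) (nat_lit 0)) (xa T2.l1 T2.l1)
  (TrL.c (I.pos (nat_lit 0) (nat_lit 0)) T0.l8
  (TrL.c (I.pos (nat_lit 0) (nat_lit 0)) (xa T2.l2 (xb (xa T2.l2 (xb T2.l2 T2.l2)) T2.l2))
  (TrL.c (I.pos (nat_lit 0) (nat_lit 0)) T0.l6
  (TrL.c (I.pos (nat_lit 0) (nat_lit 0)) (xa T2.l3 T2.l3)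
  TrL.n)))))) (by decide +kernel)
theorem bx0_5 : BoxOK sI cl4 cl4 cl6 t0 t2 b0_5 :=
  box_mk (TrL.c (I.pos (nat_lit 0) (nat_lit 0)) (xb T0.l4 (xa (xb T0.l4 T0.l4) T0.l4))
  (TrL.c (I.pos (nat_lit 0) (nat_lit 0)) T2.l1
  (TrL.c (I.pos (nat_lit 0) (nat_lit 0)) T0.l1
  (TrL.c (I.pos (nat_lit 0) (nat_lit 0)) T2.l2
  (TrL.c (I.pos (nat_lit 0) (nat_lit 0)) T0.l5
  (TrL.c (I.pos (nat_lit 0) (nat_lit 0)) T2.l3
  TrL.n)))))) (by decide +kernel)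
theorem bx0_6 : BoxOK sI cl4 cl4 cl6 t0 t2 b0_6 :=
  box_mk (TrL.c (I.pos (nat_lit 0) (nat_lit 0)) (xa (xb (xa (xb (xa (xb T0.l9 T0.l9) T0.l9) (xa T0.l9 T0.l9)) (xb T0.l9 T0.l9)) (xa (xb T0.l9 (xa (xb T0.l9 T0.l9) T0.l9)) T0.l9)) (xb (xa T0.l9 (xb (xa T0.l9 T0.l9) T0.l9)) T0.l9))
  (TrL.c (I.pos (nat_lit 0) (nat_lit 0)) (xa (xb T2.l1 T2.l1) T2.l1)
  (TrL.c (I.pos (nat_lit 0) (nat_lit 0)) (xa T0.l1 T0.l1)
  (TrL.c (I.pos (nat_lit 0) (nat_lit 0)) (xa T2.l2 (xb T2.l2 T2.l2))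
  (TrL.c (I.pos (nat_lit 0) (nat_lit 0)) (xa T0.l10 T0.l10)
  (TrL.c (I.pos (nat_lit 0) (nat_lit 0)) (xa T2.l3 T2.l3)
  TrL.n)))))) (by decide +kernel)
theorem bx0_7 : BoxOK sI cl4 cl4 cl6 t0 t2 b0_7 :=
  box_mk (TrL.c (I.pos (nat_lit 0) (nat_lit 0)) (xb (xa (xb (xa (xb T0.l9 T0.l9) (xb T0.l9 T0.l9)) (xa (xb T0.l9 T0.l9) T0.l9)) (xb (xa (xb T0.l9 T0.l9) (xb T0.l9 T0.l9)) (xa T0.l9 T0.l9))) (xa (xb (xa (xb T0.l9 (xa T0.l9 T0.l9)) T0.l9) (xa (xb (xa T0.l9 T0.l9) (xa T0.l9 T0.l9)) (xb T0.l9 T0.l9))) (xb (xa T0.l9 T0.l9) (xa (xb T0.l9 (xa T0.l9 T0.l9)) (xb T0.l9 T0.l0)))))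
  (TrL.c (I.pos (nat_lit 0) (nat_lit 0)) (xb (xa (xb T2.l1 T2.l1) T2.l1) (xa (xb T2.l1 T2.l1) (xb T2.l1 T2.l1)))
  (TrL.c (I.pos (nat_lit 0) (nat_lit 0)) (xa (xb T0.l1 T0.l1) (xb T0.l1 T0.l1))
  (TrL.c (I.pos (nat_lit 0) (nat_lit 0)) (xb (xa (xb (xa T2.l2 T2.l2) T2.l2) (xb (xa T2.l2 (xb T2.l2 T2.l2)) T2.l2)) (xa (xb T2.l2 (xa T2.l2 T2.l2)) (xb T2.l2 T2.l2)))
  (TrL.c (I.pos (nat_lit 0) (nat_lit 0)) (xa (xb T0.l10 T0.l10) (xb T0.l10 T0.l10))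
  (TrL.c (I.pos (nat_lit 0) (nat_lit 0)) (xb (xa (xb T2.l3 T2.l3) T2.l3) (xa (xb T2.l3 T2.l3) (xb T2.l3 T2.l3)))
  TrL.n)))))) (by decide +kernel)
theorem bx0_8 : BoxOK sI cl4 cl4 cl6 t0 t2 b0_8 :=
  box_mk (TrL.c (I.pos (nat_lit 0) (nat_lit 0)) (xa T2.l1 (xb T2.l1 T2.l1))
  (TrL.c (I.pos (nat_lit 0) (nat_lit 0)) (xa T0.l1 T0.l1)
  TrL.n)) (by decide +kernel)
theorem c0_9_0 : chkTag sI cl4 cl4 cl6 t0 b0_9 (tg true true false RT.r2) (I.pos (nat_lit 0) (nat_lit 0))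
  (xb (xa (xb (xa (xb T0.l0 T0.l0) T0.l0) (xa (xb T0.l0 T0.l9) (xb T0.l0 T0.l0))) (xb (xa T0.l0 (xb T0.l0 T0.l0)) (xa T0.l0 (xb T0.l0 T0.l0)))) (xa (xb (xa (xb (xa T0.l0 T0.l0) (xa T0.l0 T0.l0)) (xb T0.l0 T0.l0)) (xa (xb (xa (xc T0.l0 T0.l0) T0.l0) (xa (xc T0.l0 T0.l0) (xc T0.l0 T0.l0))) (xb (xa T0.l0 T0.l0) (xa T0.l0 T0.l0)))) (xb (xa (xb T0.l0 T0.l0) (xb T0.l0 T0.l0)) (xa (xb T0.l0 T0.l0) (xb (xa T0.l0 T0.l0) (xa T0.l0 (xc T0.l0 T0.l0))))))) = true := by decide +kernel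
theorem c0_9_1 : chkTag sI cl4 cl4 cl6 t2 b0_9 (tg true false false RT.r3) (I.pos (nat_lit 0) (nat_lit 0))
  (xb (xa (xb T2.l1 T2.l1) (xb T2.l1 T2.l1)) (xa (xb T2.l1 (xc T2.l1 T2.l1)) (xb (xc T2.l1 T2.l1) (xc (xa T2.l1 T2.l1) (xa T2.l1 T2.l1))))) = true := by decide +kernel
theorem c0_9_2 : chkTag sI cl4 cl4 cl6 t0 b0_9 (tg true true true RT.r4) (I.pos (nat_lit 0) (nat_lit 0))
  (xc (xb (xa T0.l1 T0.l1) (xa T0.l1 T0.l1)) (xb (xa T0.l1 T0.l1) (xa T0.l1 T0.l1))) = true := by decide +kernel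
theorem c0_9_3 : chkTag sI cl4 cl4 cl6 t2 b0_9 (tg false false false RT.r3) (I.pos (nat_lit 0) (nat_lit 0))
  (xb (xa (xb (xc (xa T2.l2 T2.l2) (xa T2.l2 T2.l2)) T2.l2) (xb (xc (xa T2.l2 (xb T2.l2 T2.l2)) (xa T2.l2 (xb (xa T2.l2 T2.l2) T2.l2))) (xc (xa T2.l2 T2.l2) (xa T2.l2 T2.l2)))) (xa (xb T2.l2 (xc T2.l2 T2.l2)) (xb (xc (xa T2.l2 (xb T2.l2 T2.l2)) (xa T2.l2 (xb T2.l2 T2.l2))) (xc (xa T2.l2 (xb (xa T2.l2 T2.l2) (xa T2.l2 T2.l2))) (xa (xb T2.l2 T2.l2) (xb T2.l2 (xa T2.l2 T2.l2))))))) = true := by decide +kernel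
theorem c0_9_4 : chkTag sI cl4 cl4 cl6 t0 b0_9 (tg false true false RT.r4) (I.pos (nat_lit 0) (nat_lit 0))
  (xb (xc (xa T0.l2 T0.l2) (xa T0.l2 T0.l2)) (xc (xa T0.l2 T0.l2) (xa T0.l2 T0.l2))) = true := by decide +kernel
theorem c0_9_5 : chkTag sI cl4 cl4 cl6 t2 b0_9 (tg false false true RT.r5) (I.pos (nat_lit 0) (nat_lit 0))
  (xb (xa (xb T2.l3 T2.l3) (xb T2.l3 T2.l3)) (xa (xb T2.l3 (xc T2.l3 T2.l3)) (xb (xc T2.l3 T2.l3) (xc (xa T2.l3 T2.l3) (xa T2.l3 T2.l3))))) = true := by decide +kernel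
theorem bx0_9 : BoxOK sI cl4 cl4 cl6 t0 t2 b0_9 :=
  box_mk' [(tg true true false RT.r2), (tg true false false RT.r3), (tg true true true RT.r4), (tg false false false RT.r3), (tg false true false RT.r4), (tg false false true RT.r5)] rfl (allL_c (ex_mk c0_9_0) (allL_c (ex_mk c0_9_1) (allL_c (ex_mk c0_9_2) (allL_c (ex_mk c0_9_3) (allL_c (ex_mk c0_9_4) (allL_c (ex_mk c0_9_5) allL_n))))))
theorem bx0_10 : BoxOK sI cl4 cl4 cl6 t0 t2 b0_10 :=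
  box_mk (TrL.c (I.pos (nat_lit 0) (nat_lit 0)) (xb (xa (xb (xb (xa T0.l4 T0.l4) T0.l4) (xa T0.l4 T0.l4)) (xb T0.l4 T0.l4)) (xa (xb (xa T0.l4 T0.l4) (xa (xb T0.l4 T0.l4) (xb T0.l4 T0.l4))) (xb T0.l4 (xa T0.l4 T0.l4))))
  (TrL.c (I.pos (nat_lit 0) (nat_lit 0)) (xb T2.l1 T2.l4)
  (TrL.c (I.pos (nat_lit 0) (nat_lit 0)) T0.l1
  (TrL.c (I.pos (nat_lit 0) (nat_lit 0)) (xb T2.l2 T2.l2)
  (TrL.c (I.pos (nat_lit 0) (nat_lit 0)) T0.l5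
  (TrL.c (I.pos (nat_lit 0) (nat_lit 0)) (xb T2.l3 T2.l3)
  TrL.n)))))) (by decide +kernel)
theorem sv0 : StarV sI cl4 cl4 cl6 t0 t2 t0 :=
  (bt_n (bt_n (bt_n (bt_b bx0_0) (bt_b bx0_1)) (bt_n (bt_b bx0_2) (bt_n (bt_b bx0_3) (bt_b bx0_4)))) (bt_n (bt_n (bt_b bx0_5) (bt_n (bt_b bx0_6) (bt_b bx0_7))) (bt_n (bt_b bx0_8) (bt_n (bt_b bx0_9) (bt_b bx0_10)))))
def S0 : StarD := StarD.mk cl4 cl4 cl6 0 2 t0
theorem bx1_0 : BoxOK sI cl4 cl6 cl4 t2 t0 b1_0 :=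
  box_mk (TrL.c (I.pos (nat_lit 0) (nat_lit 0)) (xa (xb (xa T2.l0 T2.l0) (xa (xb T2.l0 (xa T2.l0 T2.l0)) (xb T2.l0 (xa T2.l0 T2.l0)))) (xb (xa T2.l0 (xb T2.l0 T2.l0)) (xa (xb T2.l0 (xa T2.l0 T2.l0)) (xb T2.l0 (xa T2.l0 T2.l0)))))
  (TrL.c (I.pos (nat_lit 0) (nat_lit 0)) (xa (xb T0.l6 (xa T0.l6 T0.l6)) (xb T0.l6 (xa T0.l6 T0.l6)))
  (TrL.c (I.pos (nat_lit 0) (nat_lit 0)) T2.l5
  (TrL.c (I.pos (nat_lit 0) (nat_lit 0)) (xa T0.l7 T0.l7)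
  (TrL.c (I.pos (nat_lit 0) (nat_lit 0)) (xa T2.l6 T2.l6)
  (TrL.c (I.pos (nat_lit 0) (nat_lit 0)) (xa (xb T0.l8 (xa T0.l8 T0.l8)) (xb T0.l8 (xa T0.l8 T0.l8)))
  TrL.n)))))) (by decide +kernel)
theorem bx1_1 : BoxOK sI cl4 cl6 cl4 t2 t0 b1_1 :=
  box_mk (TrL.c (I.pos (nat_lit 0) (nat_lit 0)) (xa (xb (xa T2.l8 T2.l0) T2.l0) T2.l0)
  (TrL.c (I.pos (nat_lit 0) (nat_lit 0)) (xa T0.l6 T0.l6)
  (TrL.c (I.pos (nat_lit 0) (nat_lit 0)) T2.l5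
  (TrL.c (I.pos (nat_lit 0) (nat_lit 0)) (xa T0.l7 T0.l7)
  (TrL.c (I.pos (nat_lit 0) (nat_lit 0)) T2.l7
  (TrL.c (I.pos (nat_lit 0) (nat_lit 0)) T0.l8
  TrL.n)))))) (by decide +kernel)
theorem bx1_2 : BoxOK sI cl4 cl6 cl4 t2 t0 b1_2 :=
  box_mk (TrL.c (I.pos (nat_lit 0) (nat_lit 0)) (xa (xa (xb (xa (xb T2.l8 T2.l8) T2.l8) (xa (xb T2.l8 (xa T2.l8 T2.l8)) T2.l8)) (xb T2.l8 T2.l8)) (xa T2.l8 (xb T2.l8 (xa T2.l8 (xb T2.l8 T2.l8)))))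
  (TrL.c (I.pos (nat_lit 0) (nat_lit 0)) (xa (xa T0.l6 T0.l6) T0.l6)
  (TrL.c (I.pos (nat_lit 0) (nat_lit 0)) (xa T2.l7 T2.l5)
  (TrL.c (I.pos (nat_lit 0) (nat_lit 0)) (xa (xa T0.l7 T0.l7) T0.l7)
  (TrL.c (I.pos (nat_lit 0) (nat_lit 0)) T2.l7
  (TrL.c (I.pos (nat_lit 0) (nat_lit 0)) T0.l8
  TrL.n)))))) (by decide +kernel)
theorem bx1_3 : BoxOK sI cl4 cl6 cl4 t2 t0 b1_3 :=
  box_mk (TrL.c (I.pos (nat_lit 0) (nat_lit 0)) (xa (xb T2.l8 T2.l8) T2.l8)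
  (TrL.c (I.pos (nat_lit 0) (nat_lit 0)) (xa T0.l7 T0.l6)
  (TrL.c (I.pos (nat_lit 0) (nat_lit 0)) T2.l7
  (TrL.c (I.pos (nat_lit 0) (nat_lit 0)) (xa T0.l6 T0.l7)
  (TrL.c (I.pos (nat_lit 0) (nat_lit 0)) T2.l7
  (TrL.c (I.pos (nat_lit 0) (nat_lit 0)) (xa T0.l8 T0.l8)
  TrL.n)))))) (by decide +kernel)
theorem bx1_4 : BoxOK sI cl4 cl6 cl4 t2 t0 b1_4 :=
  box_mk (TrL.c (I.pos (nat_lit 0) (nat_lit 0)) (xb (xa (xb (xa T2.l9 T2.l9) (xa T2.l9 T2.l9)) (xb (xa T2.l9 T2.l9) (xa T2.l9 T2.l9))) (xa (xb (xa T2.l9 T2.l9) (xa (xb T2.l9 T2.l9) (xb T2.l9 T2.l9))) (xb (xa T2.l9 (xb T2.l9 T2.l9)) (xa (xb T2.l9 T2.l9) (xb T2.l9 (xa T2.l9 T2.l9))))))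
  (TrL.c (I.pos (nat_lit 0) (nat_lit 0)) (xb (xa T0.l6 T0.l6) (xa (xb T0.l6 T0.l6) (xb T0.l6 T0.l6)))
  (TrL.c (I.pos (nat_lit 0) (nat_lit 0)) (xb T2.l5 T2.l5)
  (TrL.c (I.pos (nat_lit 0) (nat_lit 0)) (xb T0.l7 T0.l7)
  (TrL.c (I.pos (nat_lit 0) (nat_lit 0)) (xa T2.l10 T2.l10)
  (TrL.c (I.pos (nat_lit 0) (nat_lit 0)) (xb (xa T0.l8 T0.l8) (xa (xb T0.l8 T0.l8) (xb T0.l8 T0.l8)))
  TrL.n)))))) (by decide +kernel)
theorem bx1_5 : BoxOK sI cl4 cl6 cl4 t2 t0 b1_5 :=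
  box_mk (TrL.c (I.pos (nat_lit 0) (nat_lit 0)) (xb (xa (xb T2.l8 T2.l8) T2.l0) (xa (xb T2.l8 T2.l8) T2.l0))
  (TrL.c (I.pos (nat_lit 0) (nat_lit 0)) (xb T0.l6 T0.l6)
  (TrL.c (I.pos (nat_lit 0) (nat_lit 0)) T2.l5
  (TrL.c (I.pos (nat_lit 0) (nat_lit 0)) (xb (xb T0.l7 T0.l7) T0.l7)
  (TrL.c (I.pos (nat_lit 0) (nat_lit 0)) T2.l7
  (TrL.c (I.pos (nat_lit 0) (nat_lit 0)) T0.l8
  TrL.n)))))) (by decide +kernel)
theorem bx1_6 : BoxOK sI cl4 cl6 cl4 t2 t0 b1_6 :=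
  box_mk (TrL.c (I.pos (nat_lit 0) (nat_lit 0)) (xa (xa (xb T2.l8 (xa (xb T2.l8 (xa T2.l8 T2.l8)) T2.l8)) T2.l8) (xa T2.l8 T2.l8))
  (TrL.c (I.pos (nat_lit 0) (nat_lit 0)) (xa (xa T0.l7 T0.l6) T0.l6)
  (TrL.c (I.pos (nat_lit 0) (nat_lit 0)) (xa T2.l7 T2.l5)
  (TrL.c (I.pos (nat_lit 0) (nat_lit 0)) (xa (xb T0.l6 T0.l7) T0.l7)
  (TrL.c (I.pos (nat_lit 0) (nat_lit 0)) (xa T2.l7 T2.l7)
  (TrL.c (I.pos (nat_lit 0) (nat_lit 0)) (xa T0.l8 T0.l8)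
  TrL.n)))))) (by decide +kernel)
theorem bx1_7 : BoxOK sI cl4 cl6 cl4 t2 t0 b1_7 :=
  box_mk (TrL.c (I.pos (nat_lit 0) (nat_lit 0)) (xa (xb (xa T2.l8 T2.l8) T2.l8) T2.l8)
  (TrL.c (I.pos (nat_lit 0) (nat_lit 0)) (xa T0.l7 T0.l7)
  (TrL.c (I.pos (nat_lit 0) (nat_lit 0)) T2.l7
  (TrL.c (I.pos (nat_lit 0) (nat_lit 0)) (xa T0.l6 T0.l6)
  (TrL.c (I.pos (nat_lit 0) (nat_lit 0)) T2.l7
  (TrL.c (I.pos (nat_lit 0) (nat_lit 0)) (xa T0.l8 T0.l8)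
  TrL.n)))))) (by decide +kernel)
theorem bx1_8 : BoxOK sI cl4 cl6 cl4 t2 t0 b1_8 :=
  box_mk (TrL.c (I.pos (nat_lit 0) (nat_lit 0)) (xb (xa (xb (xa (xb T2.l0 T2.l0) (xb T2.l0 T2.l0)) (xa (xb T2.l0 T2.l0) (xb T2.l0 T2.l0))) (xb (xb (xa T2.l0 T2.l2) T2.l2) (xa T2.l0 T2.l2))) (xa (xb (xa (xb T2.l0 (xa T2.l0 T2.l0)) (xb T2.l0 T2.l0)) (xa (xb (xa T2.l0 T2.l0) (xa T2.l0 T2.l0)) (xb (xa T2.l0 T2.l0) (xa T2.l0 T2.l0)))) (xb (xa (xb T2.l0 T2.l0) (xb T2.l2 T2.l2)) (xa (xb (xa T2.l0 T2.l0) (xa T2.l0 (xc T2.l0 T2.l0))) (xb (xa T2.l0 T2.l2) (xa (xs T2.l0 T2.l0) (xs T2.l0 T2.l0)))))))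
  (TrL.c (I.pos (nat_lit 0) (nat_lit 0)) (xb (xa (xb T0.l6 T0.l6) (xb (xa T0.l6 T0.l6) (xa T0.l6 T0.l6))) (xa (xb (xa T0.l6 T0.l6) (xa T0.l6 T0.l6)) (xa (xb T0.l6 T0.l6) (xb T0.l6 T0.l6))))
  (TrL.c (I.pos (nat_lit 0) (nat_lit 0)) (xa (xb T2.l5 T2.l5) (xc T2.l3 T2.l3))
  (TrL.c (I.pos (nat_lit 0) (nat_lit 0)) (xb (xa T0.l7 (xb (xc (xa T0.l7 T0.l9) (xa T0.l7 T0.l7)) (xc T0.l7 T0.l7))) (xa T0.l7 (xb (xa T0.l7 (xc T0.l7 T0.l7)) (xa T0.l7 (xc T0.l7 T0.l7)))))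
  (TrL.c (I.pos (nat_lit 0) (nat_lit 0)) (xa (xc T2.l6 T2.l6) (xc T2.l1 T2.l1))
  (TrL.c (I.pos (nat_lit 0) (nat_lit 0)) (xb (xa (xb T0.l8 T0.l8) (xb (xa T0.l8 T0.l8) (xa T0.l8 T0.l8))) (xa (xb (xa T0.l8 T0.l8) (xa T0.l8 T0.l8)) (xa (xb T0.l8 T0.l8) (xb T0.l8 T0.l8))))
  TrL.n)))))) (by decide +kernel)
theorem bx1_9 : BoxOK sI cl4 cl6 cl4 t2 t0 b1_9 :=
  box_mk (TrL.c (I.pos (nat_lit 0) (nat_lit 0)) (xb (xa (xb T2.l9 T2.l9) (xb (xa T2.l9 T2.l9) T2.l9)) (xa (xb T2.l9 (xa T2.l9 T2.l9)) (xb T2.l9 T2.l9)))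
  (TrL.c (I.pos (nat_lit 0) (nat_lit 0)) (xb (xa T0.l6 T0.l6) (xa T0.l6 T0.l6))
  (TrL.c (I.pos (nat_lit 0) (nat_lit 0)) T2.l5
  (TrL.c (I.pos (nat_lit 0) (nat_lit 0)) (xb (xa T0.l7 (xb T0.l7 T0.l7)) T0.l7)
  (TrL.c (I.pos (nat_lit 0) (nat_lit 0)) T2.l10
  (TrL.c (I.pos (nat_lit 0) (nat_lit 0)) (xb (xa T0.l8 T0.l8) (xa T0.l8 T0.l8))
  TrL.n)))))) (by decide +kernel)
theorem bx1_10 : BoxOK sI cl4 cl6 cl4 t2 t0 b1_10 :=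
  box_mk (TrL.c (I.pos (nat_lit 0) (nat_lit 0)) T2.l0
  (TrL.c (I.pos (nat_lit 0) (nat_lit 0)) T0.l6
  (TrL.c (I.pos (nat_lit 0) (nat_lit 0)) T2.l5
  (TrL.c (I.pos (nat_lit 0) (nat_lit 0)) T0.l7
  (TrL.c (I.pos (nat_lit 0) (nat_lit 0)) T2.l7
  (TrL.c (I.pos (nat_lit 0) (nat_lit 0)) T0.l8
  TrL.n)))))) (by decide +kernel)
theorem bx1_11 : BoxOK sI cl4 cl6 cl4 t2 t0 b1_11 :=
  box_mk (TrL.c (I.pos (nat_lit 0) (nat_lit 0)) T2.l8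
  (TrL.c (I.pos (nat_lit 0) (nat_lit 0)) T0.l6
  (TrL.c (I.pos (nat_lit 0) (nat_lit 0)) T2.l5
  (TrL.c (I.pos (nat_lit 0) (nat_lit 0)) T0.l7
  (TrL.c (I.pos (nat_lit 0) (nat_lit 0)) T2.l7
  (TrL.c (I.pos (nat_lit 0) (nat_lit 0)) T0.l8
  TrL.n)))))) (by decide +kernel)
theorem bx1_12 : BoxOK sI cl4 cl6 cl4 t2 t0 b1_12 :=
  box_mk (TrL.c (I.pos (nat_lit 0) (nat_lit 0)) (xa (xa (xb (xa (xb T2.l8 T2.l8) T2.l8) T2.l8) T2.l8) T2.l8)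
  (TrL.c (I.pos (nat_lit 0) (nat_lit 0)) (xa T0.l7 T0.l6)
  (TrL.c (I.pos (nat_lit 0) (nat_lit 0)) T2.l7
  (TrL.c (I.pos (nat_lit 0) (nat_lit 0)) (xa T0.l6 T0.l7)
  (TrL.c (I.pos (nat_lit 0) (nat_lit 0)) T2.l7
  (TrL.c (I.pos (nat_lit 0) (nat_lit 0)) (xa T0.l8 T0.l8)
  TrL.n)))))) (by decide +kernel)
theorem bx1_13 : BoxOK sI cl4 cl6 cl4 t2 t0 b1_13 :=
  box_mk (TrL.c (I.pos (nat_lit 0) (nat_lit 0)) (xa (xb (xa (xb T2.l8 T2.l8) T2.l8) T2.l8) T2.l8)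
  (TrL.c (I.pos (nat_lit 0) (nat_lit 0)) T0.l7
  (TrL.c (I.pos (nat_lit 0) (nat_lit 0)) T2.l7
  (TrL.c (I.pos (nat_lit 0) (nat_lit 0)) T0.l6
  (TrL.c (I.pos (nat_lit 0) (nat_lit 0)) T2.l7
  (TrL.c (I.pos (nat_lit 0) (nat_lit 0)) T0.l8
  TrL.n)))))) (by decide +kernel)
theorem bx1_14 : BoxOK sI cl4 cl6 cl4 t2 t0 b1_14 :=
  box_mk (TrL.c (I.pos (nat_lit 0) (nat_lit 0)) (xa (xb T2.l2 (xa T2.l0 T2.l2)) T2.l2)
  (TrL.c (I.pos (nat_lit 0) (nat_lit 0)) (xa T0.l6 (xb T0.l6 T0.l6))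
  (TrL.c (I.pos (nat_lit 0) (nat_lit 0)) T2.l3
  (TrL.c (I.pos (nat_lit 0) (nat_lit 0)) T0.l0
  (TrL.c (I.pos (nat_lit 0) (nat_lit 0)) T2.l1
  (TrL.c (I.pos (nat_lit 0) (nat_lit 0)) (xa T0.l8 (xb T0.l8 T0.l8))
  TrL.n)))))) (by decide +kernel)
theorem bx1_15 : BoxOK sI cl4 cl6 cl4 t2 t0 b1_15 :=
  box_mk (TrL.c (I.pos (nat_lit 0) (nat_lit 0)) T2.l0
  (TrL.c (I.pos (nat_lit 0) (nat_lit 0)) T0.l6
  (TrL.c (I.pos (nat_lit 0) (nat_lit 0)) T2.l5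
  (TrL.c (I.pos (nat_lit 0) (nat_lit 0)) T0.l7
  (TrL.c (I.pos (nat_lit 0) (nat_lit 0)) T2.l10
  (TrL.c (I.pos (nat_lit 0) (nat_lit 0)) T0.l8
  TrL.n)))))) (by decide +kernel)
theorem sv1 : StarV sI cl4 cl6 cl4 t2 t0 t1 :=
  (bt_n (bt_n (bt_n (bt_n (bt_b bx1_0) (bt_b bx1_1)) (bt_n (bt_b bx1_2) (bt_b bx1_3))) (bt_n (bt_n (bt_b bx1_4) (bt_b bx1_5)) (bt_n (bt_b bx1_6) (bt_b bx1_7)))) (bt_n (bt_n (bt_n (bt_b bx1_8) (bt_b bx1_9)) (bt_n (bt_b bx1_10) (bt_b bx1_11))) (bt_n (bt_n (bt_b bx1_12) (bt_b bx1_13)) (bt_n (bt_b bx1_14) (bt_b bx1_15)))))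
def S1 : StarD := StarD.mk cl4 cl6 cl4 2 0 t1
theorem bx2_0 : BoxOK sI cl6 cl4 cl4 t1 t1 b2_0 :=
  box_mk (TrL.c (I.pos (nat_lit 0) (nat_lit 0)) (xa (xb (xa T1.l8 (xb T1.l0 T1.l8)) (xa (xb T1.l8 (xa (xb T1.l8 T1.l0) (xb T1.l0 T1.l0))) (xb (xa T1.l0 T1.l0) (xa (xb T1.l0 T1.l0) (xb T1.l0 T1.l0))))) (xb (xa (xb T1.l0 T1.l0) (xb T1.l0 T1.l0)) (xa (xb (xa T1.l0 T1.l0) (xa (xb T1.l0 T1.l0) (xb T1.l0 T1.l0))) (xb (xa T1.l0 T1.l0) (xa (xb T1.l0 T1.l0) (xb T1.l0 T1.l0))))))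
  (TrL.c (I.pos (nat_lit 0) (nat_lit 0)) (xa (xb T1.l1 T1.l1) (xb T1.l1 T1.l1))
  (TrL.c (I.pos (nat_lit 0) (nat_lit 89480386)) (xR (xR T1.l2 (xR T1.l2 T1.l2)) (xR T1.l2 (xa T1.l2 (xR T1.l2 T1.l2))))
  (TrL.c (I.pos (nat_lit 0) (nat_lit 41530880)) (xR T1.l3 (xR T1.l3 T1.l3))
  (TrL.c (I.pos (nat_lit 0) (nat_lit 0)) (xa (xb T1.l9 T1.l4) (xb (xa T1.l4 T1.l4) T1.l4))
  (TrL.c (I.pos (nat_lit 0) (nat_lit 0)) (xa T1.l5 T1.l5)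
  (TrL.c (I.mix (nat_lit 41527258) (nat_lit 41530880)) (xR (xR T1.l6 T1.l6) (xR T1.l6 (xR T1.l6 T1.l6)))
  (TrL.c (I.mix (nat_lit 41527258) (nat_lit 4274)) (xR (xR T1.l7 T1.l7) T1.l7)
  TrL.n)))))))) (by decide +kernel)
theorem bx2_1 : BoxOK sI cl6 cl4 cl4 t1 t1 b2_1 :=
  box_mk (TrL.c (I.pos (nat_lit 0) (nat_lit 0)) (xb (xa (xb (xa (xb T1.l8 T1.l8) T1.l8) T1.l8) (xb T1.l8 T1.l8)) (xa (xb T1.l8 (xa T1.l8 T1.l8)) T1.l8))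
  (TrL.c (I.pos (nat_lit 0) (nat_lit 0)) (xb T1.l1 T1.l1)
  (TrL.c (I.pos (nat_lit 0) (nat_lit 89480386)) (xR (xR T1.l6 (xR T1.l2 T1.l2)) (xR T1.l2 (xb (xR T1.l2 T1.l2) T1.l2)))
  (TrL.c (I.pos (nat_lit 0) (nat_lit 41530880)) (xR T1.l7 (xb T1.l6 T1.l3))
  (TrL.c (I.pos (nat_lit 0) (nat_lit 0)) (xb (xa T1.l9 T1.l9) (xa T1.l9 T1.l9))
  (TrL.c (I.pos (nat_lit 0) (nat_lit 0)) T1.l5
  (TrL.c (I.mix (nat_lit 41527258) (nat_lit 41530880)) (xR (xR (xb (xR T1.l6 T1.l6) T1.l6) T1.l6) (xR T1.l6 (xb (xR T1.l6 T1.l6) T1.l6)))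
  (TrL.c (I.mix (nat_lit 41527258) (nat_lit 4274)) (xR (xR T1.l7 T1.l7) T1.l7)
  TrL.n)))))))) (by decide +kernel)
theorem bx2_2 : BoxOK sI cl6 cl4 cl4 t1 t1 b2_2 :=
  box_mk (TrL.c (I.pos (nat_lit 0) (nat_lit 0)) (xb (xa (xb (xb (xa T1.l8 T1.l8) T1.l8) (xa T1.l8 T1.l8)) (xb (xa T1.l8 T1.l8) (xa T1.l8 T1.l8))) (xa (xb (xa (xb T1.l8 T1.l8) T1.l8) (xa (xb T1.l8 (xa T1.l8 T1.l8)) (xb T1.l8 T1.l8))) (xb (xa T1.l8 (xb T1.l8 T1.l8)) (xa (xb T1.l8 (xa T1.l8 T1.l8)) (xb T1.l8 (xa T1.l8 T1.l8))))))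
  (TrL.c (I.pos (nat_lit 0) (nat_lit 0)) (xb (xa T1.l1 T1.l1) (xa T1.l1 T1.l1))
  (TrL.c (I.pos (nat_lit 0) (nat_lit 89480386)) (xR (xR (xb T1.l6 T1.l2) (xb (xR T1.l2 T1.l2) T1.l2)) (xR T1.l2 (xb T1.l2 (xR T1.l2 T1.l2))))
  (TrL.c (I.pos (nat_lit 0) (nat_lit 41530880)) (xR T1.l3 (xb (xR T1.l3 T1.l3) (xR T1.l3 T1.l3)))
  (TrL.c (I.pos (nat_lit 0) (nat_lit 0)) (xb (xa T1.l9 T1.l9) (xa T1.l9 T1.l9))
  (TrL.c (I.pos (nat_lit 0) (nat_lit 0)) T1.l5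
  (TrL.c (I.mix (nat_lit 41527258) (nat_lit 41530880)) (xR (xR (xb T1.l6 (xR T1.l6 T1.l6)) T1.l6) (xR T1.l6 (xb T1.l2 (xR T1.l6 T1.l2))))
  (TrL.c (I.mix (nat_lit 41527258) (nat_lit 4274)) (xR (xb (xR T1.l7 T1.l7) (xR T1.l7 T1.l7)) T1.l7)
  TrL.n)))))))) (by decide +kernel)
theorem bx2_3 : BoxOK sI cl6 cl4 cl4 t1 t1 b2_3 :=
  box_mk (TrL.c (I.pos (nat_lit 0) (nat_lit 0)) (xb T1.l1 T1.l10)
  (TrL.c (I.pos (nat_lit 0) (nat_lit 0)) T1.l11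
  (TrL.c (I.mix (nat_lit 41527258) (nat_lit 41530880)) (xR (xR (xb (xR T1.l12 T1.l12) (xR T1.l12 T1.l12)) T1.l12) (xR T1.l7 (xb T1.l3 T1.l6)))
  (TrL.c (I.mix (nat_lit 41527258) (nat_lit 4274)) (xR (xb (xR T1.l13 T1.l13) (xR T1.l13 T1.l13)) T1.l6)
  TrL.n)))) (by decide +kernel)
theorem bx2_4 : BoxOK sI cl6 cl4 cl4 t1 t1 b2_4 :=
  box_mk (TrL.c (I.pos (nat_lit 0) (nat_lit 0)) T1.l8
  (TrL.c (I.pos (nat_lit 0) (nat_lit 0)) T1.l1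
  (TrL.c (I.pos (nat_lit 0) (nat_lit 89480386)) (xR (xR T1.l2 T1.l2) T1.l2)
  (TrL.c (I.pos (nat_lit 0) (nat_lit 41530880)) T1.l3
  (TrL.c (I.pos (nat_lit 0) (nat_lit 0)) T1.l9
  (TrL.c (I.pos (nat_lit 0) (nat_lit 0)) T1.l5
  (TrL.c (I.mix (nat_lit 41527258) (nat_lit 41530880)) T1.l6
  (TrL.c (I.mix (nat_lit 41527258) (nat_lit 4274)) (xR T1.l7 T1.l7)
  TrL.n)))))))) (by decide +kernel)
theorem bx2_5 : BoxOK sI cl6 cl4 cl4 t1 t1 b2_5 :=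
  box_mk (TrL.c (I.pos (nat_lit 0) (nat_lit 0)) (xb T1.l1 T1.l10)
  (TrL.c (I.pos (nat_lit 0) (nat_lit 0)) T1.l11
  (TrL.c (I.mix (nat_lit 41527258) (nat_lit 41530880)) (xR (xR (xb T1.l12 T1.l12) T1.l12) T1.l6)
  (TrL.c (I.mix (nat_lit 41527258) (nat_lit 4274)) (xR (xb T1.l13 T1.l13) T1.l6)
  TrL.n)))) (by decide +kernel)
theorem bx2_6 : BoxOK sI cl6 cl4 cl4 t1 t1 b2_6 :=
  box_mk (TrL.c (I.pos (nat_lit 0) (nat_lit 0)) (xb (xa T1.l14 T1.l8) T1.l8)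
  (TrL.c (I.pos (nat_lit 0) (nat_lit 0)) T1.l10
  (TrL.c (I.pos (nat_lit 0) (nat_lit 89480386)) (xR (xR T1.l2 T1.l2) (xR T1.l2 (xR T1.l2 T1.l2)))
  (TrL.c (I.pos (nat_lit 0) (nat_lit 41530880)) T1.l6
  (TrL.c (I.pos (nat_lit 0) (nat_lit 0)) T1.l9
  (TrL.c (I.pos (nat_lit 0) (nat_lit 0)) T1.l5
  (TrL.c (I.mix (nat_lit 41527258) (nat_lit 41530880)) T1.l6
  (TrL.c (I.mix (nat_lit 41527258) (nat_lit 4274)) (xR T1.l7 T1.l7)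
  TrL.n)))))))) (by decide +kernel)
theorem bx2_7 : BoxOK sI cl6 cl4 cl4 t1 t1 b2_7 :=
  box_mk (TrL.c (I.pos (nat_lit 0) (nat_lit 0)) (xb (xa (xb (xa T1.l14 T1.l14) T1.l14) T1.l14) (xa (xb T1.l14 (xa T1.l14 T1.l14)) (xa T1.l14 T1.l14)))
  (TrL.c (I.pos (nat_lit 0) (nat_lit 0)) T1.l1
  (TrL.c (I.pos (nat_lit 0) (nat_lit 89480386)) (xR T1.l6 (xR T1.l2 (xb T1.l2 T1.l2)))
  (TrL.c (I.pos (nat_lit 0) (nat_lit 41530880)) T1.l6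
  (TrL.c (I.pos (nat_lit 0) (nat_lit 0)) T1.l15
  (TrL.c (I.pos (nat_lit 0) (nat_lit 0)) T1.l5
  (TrL.c (I.mix (nat_lit 41527258) (nat_lit 41530880)) (xR (xR T1.l12 T1.l6) T1.l6)
  (TrL.c (I.mix (nat_lit 41527258) (nat_lit 4274)) (xR (xR T1.l13 T1.l7) T1.l7)
  TrL.n)))))))) (by decide +kernel)
theorem bx2_8 : BoxOK sI cl6 cl4 cl4 t1 t1 b2_8 :=
  box_mk (TrL.c (I.pos (nat_lit 0) (nat_lit 0)) (xa (xb (xa T1.l0 (xb T1.l0 T1.l0)) (xa (xb T1.l0 T1.l0) (xb T1.l0 T1.l0))) (xb (xa T1.l4 (xb T1.l4 T1.l4)) (xa (xb T1.l4 T1.l4) (xb T1.l4 (xa T1.l4 T1.l4)))))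
  (TrL.c (I.pos (nat_lit 0) (nat_lit 0)) (xa (xb T1.l1 T1.l1) (xb T1.l5 T1.l5))
  (TrL.c (I.pos (nat_lit 0) (nat_lit 89480386)) (xR (xR (xR T1.l2 T1.l2) (xR (xa T1.l2 T1.l2) (xa T1.l2 T1.l2))) (xR (xR T1.l2 (xa T1.l2 T1.l2)) (xa T1.l2 (xR T1.l2 (xb T1.l2 T1.l2)))))
  (TrL.c (I.pos (nat_lit 0) (nat_lit 41530880)) (xR T1.l7 (xR T1.l3 (xa T1.l3 T1.l3)))
  (TrL.c (I.pos (nat_lit 0) (nat_lit 0)) (xb (xa (xa T1.l4 T1.l4) (xa (xb T1.l4 T1.l4) (xb T1.l4 T1.l4))) (xa T1.l4 (xb T1.l4 (xa T1.l4 T1.l4))))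
  (TrL.c (I.pos (nat_lit 0) (nat_lit 0)) (xa T1.l5 (xb T1.l1 T1.l5))
  (TrL.c (I.mix (nat_lit 41527258) (nat_lit 41530880)) (xR (xR (xR (xb T1.l6 T1.l6) T1.l6) T1.l6) (xR T1.l6 (xR T1.l2 (xb T1.l2 T1.l2))))
  (TrL.c (I.mix (nat_lit 41527258) (nat_lit 4274)) (xR (xR (xa T1.l7 T1.l7) T1.l7) (xR T1.l7 T1.l7))
  TrL.n)))))))) (by decide +kernel)
theorem bx2_9 : BoxOK sI cl6 cl4 cl4 t1 t1 b2_9 :=
  box_mk (TrL.c (I.pos (nat_lit 0) (nat_lit 0)) (xb (xa (xb T1.l0 T1.l0) (xb T1.l0 T1.l0)) (xa (xb (xa T1.l0 T1.l0) (xa T1.l0 T1.l0)) (xb (xa T1.l0 T1.l0) (xa T1.l0 T1.l0))))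
  (TrL.c (I.pos (nat_lit 0) (nat_lit 0)) (xb T1.l1 T1.l1)
  (TrL.c (I.pos (nat_lit 0) (nat_lit 89480386)) (xR (xR T1.l2 T1.l2) T1.l2)
  (TrL.c (I.pos (nat_lit 0) (nat_lit 41530880)) (xR T1.l3 T1.l3)
  (TrL.c (I.pos (nat_lit 0) (nat_lit 0)) (xb T1.l4 T1.l4)
  (TrL.c (I.pos (nat_lit 0) (nat_lit 0)) T1.l5
  (TrL.c (I.mix (nat_lit 41527258) (nat_lit 41530880)) (xR (xR T1.l6 T1.l6) T1.l6)
  (TrL.c (I.mix (nat_lit 41527258) (nat_lit 4274)) (xR T1.l7 T1.l7)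
  TrL.n)))))))) (by decide +kernel)
theorem bx2_10 : BoxOK sI cl6 cl4 cl4 t1 t1 b2_10 :=
  box_mk (TrL.c (I.pos (nat_lit 0) (nat_lit 0)) (xb T1.l8 (xa T1.l8 T1.l8))
  (TrL.c (I.pos (nat_lit 0) (nat_lit 0)) T1.l1
  (TrL.c (I.pos (nat_lit 0) (nat_lit 89480386)) (xR (xR T1.l2 T1.l2) T1.l2)
  (TrL.c (I.pos (nat_lit 0) (nat_lit 41530880)) T1.l6
  (TrL.c (I.pos (nat_lit 0) (nat_lit 0)) T1.l9
  (TrL.c (I.pos (nat_lit 0) (nat_lit 0)) T1.l5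
  (TrL.c (I.mix (nat_lit 41527258) (nat_lit 41530880)) T1.l6
  (TrL.c (I.mix (nat_lit 41527258) (nat_lit 4274)) T1.l6
  TrL.n)))))))) (by decide +kernel)
theorem sv2 : StarV sI cl6 cl4 cl4 t1 t1 t2 :=
  (bt_n (bt_n (bt_n (bt_b bx2_0) (bt_b bx2_1)) (bt_n (bt_b bx2_2) (bt_n (bt_b bx2_3) (bt_b bx2_4)))) (bt_n (bt_n (bt_b bx2_5) (bt_n (bt_b bx2_6) (bt_b bx2_7))) (bt_n (bt_b bx2_8) (bt_n (bt_b bx2_9) (bt_b bx2_10)))))
def S2 : StarD := StarD.mk cl6 cl4 cl4 1 1 t2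
def G : List StarD := [S0, S1, S2]
theorem so0 : StarOK sI G S0 :=
  star_mk (by decide) (by decide) rfl rfl rfl rfl rfl rfl (rfl : _ = t0) (rfl : _ = t2)
  (st_mk (Pth.l (Pth.l (Pth.l Pth.z))) (nat_lit 400724745) (nat_lit 403468824) (by decide +kernel))
  (st_mk (Pth.l (Pth.l (Pth.l Pth.z))) (nat_lit 443675195) (nat_lit 447122450) (by decide +kernel))
  (st_mk (Pth.l (Pth.l (Pth.l Pth.z))) (nat_lit 494537556) (nat_lit 498952041) (by decide +kernel)) sv0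
theorem so1 : StarOK sI G S1 :=
  star_mk (by decide) (by decide) rfl rfl rfl rfl rfl rfl (rfl : _ = t2) (rfl : _ = t0)
  (st_mk (Pth.l (Pth.l (Pth.l (Pth.l Pth.z)))) (nat_lit 200454846) (nat_lit 201514929) (by decide +kernel))
  (st_mk (Pth.l (Pth.l (Pth.l (Pth.l Pth.z)))) (nat_lit 241896236) (nat_lit 243494715) (by decide +kernel))
  (st_mk (Pth.l (Pth.l (Pth.l (Pth.l Pth.z)))) (nat_lit 291636093) (nat_lit 294067897) (by decide +kernel)) sv1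
theorem so2 : StarOK sI G S2 :=
  star_mk (by decide) (by decide) rfl rfl rfl rfl rfl rfl (rfl : _ = t1) (rfl : _ = t1)
  (st_mk (Pth.l (Pth.l (Pth.l Pth.z))) (nat_lit 382473296) (nat_lit 383682996) (by decide +kernel))
  (st_mk (Pth.l (Pth.l (Pth.l Pth.z))) (nat_lit 421059656) (nat_lit 422538803) (by decide +kernel))
  (st_mk (Pth.l (Pth.l (Pth.l Pth.z))) (nat_lit 466077627) (nat_lit 467910210) (by decide +kernel)) sv2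
theorem ok : GroupOK (nat_lit 209321984) (nat_lit 238944256) G := grp_mk (allS_c so0 (allS_c so1 (allS_c so2 allS_n)))
theorem cov : GCov G cl4 cl4 cl6 := cov_mk
  ⟨0, by decide, rfl, rfl, rfl⟩ ⟨1, by decide, rfl, rfl, rfl⟩ ⟨0, by decide, rfl, rfl, rfl⟩ ⟨1, by decide, rfl, rfl, rfl⟩ ⟨2, by decide, rfl, rfl, rfl⟩ ⟨2, by decide, rfl, rfl, rfl⟩
end Q113_3

namespace Q113_4
def sI : I := I.pos (nat_lit 238878720) (nat_lit 268435456)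
def b0_0 : Bx := Bx.mk (St.mk (I.pos (nat_lit 139132928) (nat_lit 217464832)) (I.mix (nat_lit 3063808) (nat_lit 97468416)) (I.mix (nat_lit 30867456) (nat_lit 64503808)) (I.pos (nat_lit 395526144) (nat_lit 507478016)) (I.mix (nat_lit 213843968) (nat_lit 130564096)) (I.mix (nat_lit 126550016) (nat_lit 123355136)) (I.mix (nat_lit 210747392) (nat_lit 189841408)))
  false (nat_lit 42820226)
def b0_1 : Bx := Bx.mk (St.mk (I.mix (nat_lit 44711936) (nat_lit 12550144)) (I.mix (nat_lit 16760832) (nat_lit 79249408)) (I.neg (nat_lit 67895296) (nat_lit 95830016)) (I.pos (nat_lit 263733248) (nat_lit 294158336)) (I.mix (nat_lit 83312640) (nat_lit 172998656)) (I.mix (nat_lit 121602048) (nat_lit 90259456)) (I.mix (nat_lit 75186176) (nat_lit 57458688)))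
  true (nat_lit 0)
def b0_2 : Bx := Bx.mk (St.mk (I.mix (nat_lit 9879552) (nat_lit 44728320)) (I.neg (nat_lit 28393472) (nat_lit 79249408)) (I.neg (nat_lit 67878912) (nat_lit 95830016)) (I.pos (nat_lit 267010048) (nat_lit 294158336)) (I.mix (nat_lit 172998656) (nat_lit 78168064)) (I.mix (nat_lit 90259456) (nat_lit 121602048)) (I.mix (nat_lit 75186176) (nat_lit 57458688)))
  false (nat_lit 25768145)
def b0_3 : Bx := Bx.mk (St.mk (I.mix (nat_lit 27918336) (nat_lit 6193152)) (I.mix (nat_lit 17088512) (nat_lit 13729792)) (I.neg (nat_lit 68878336) (nat_lit 75350016)) (I.pos (nat_lit 266272768) (nat_lit 274399232)) (I.mix (nat_lit 79593472) (nat_lit 44089344)) (I.mix (nat_lit 57098240) (nat_lit 53264384)) (I.mix (nat_lit 12058624) (nat_lit 21577728)))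
  true (nat_lit 0)
def b0_4 : Bx := Bx.mk (St.mk (I.pos (nat_lit 188137472) (nat_lit 245841920)) (I.mix (nat_lit 22708224) (nat_lit 21135360)) (I.neg (nat_lit 91799552) (nat_lit 164937728)) (I.pos (nat_lit 423870464) (nat_lit 526516224)) (I.mix (nat_lit 163151872) (nat_lit 78544896)) (I.mix (nat_lit 107069440) (nat_lit 95567872)) (I.mix (nat_lit 166674432) (nat_lit 191545344)))
  false (nat_lit 0)
def b0_5 : Bx := Bx.mk (St.mk (I.mix (nat_lit 6193152) (nat_lit 27787264)) (I.mix (nat_lit 10059776) (nat_lit 16531456)) (I.neg (nat_lit 69107712) (nat_lit 74956800)) (I.pos (nat_lit 266321920) (nat_lit 274153472)) (I.mix (nat_lit 48381952) (nat_lit 78495744)) (I.mix (nat_lit 51888128) (nat_lit 57196544)) (I.mix (nat_lit 9404416) (nat_lit 19939328)))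
  false (nat_lit 0)
def b0_6 : Bx := Bx.mk (St.mk (I.pos (nat_lit 2899968) (nat_lit 123420672)) (I.neg (nat_lit 9355264) (nat_lit 81297408)) (I.neg (nat_lit 31686656) (nat_lit 101629952)) (I.pos (nat_lit 269254656) (nat_lit 343572480)) (I.mix (nat_lit 152731648) (nat_lit 77676544)) (I.mix (nat_lit 83542016) (nat_lit 102088704)) (I.mix (nat_lit 104480768) (nat_lit 91455488)))
  false (nat_lit 24536456)
def b0_7 : Bx := Bx.mk (St.mk (I.pos (nat_lit 78888960) (nat_lit 179798016)) (I.mix (nat_lit 34258944) (nat_lit 79101952)) (I.mix (nat_lit 57802752) (nat_lit 53870592)) (I.pos (nat_lit 302792704) (nat_lit 444301312)) (I.mix (nat_lit 194789376) (nat_lit 128663552)) (I.mix (nat_lit 157073408) (nat_lit 129466368)) (I.mix (nat_lit 178470912) (nat_lit 162906112)))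
  false (nat_lit 30304452)
def b0_8 : Bx := Bx.mk (St.mk (I.neg (nat_lit 2916352) (nat_lit 127582208)) (I.mix (nat_lit 606208) (nat_lit 81297408)) (I.neg (nat_lit 23855104) (nat_lit 101629952)) (I.pos (nat_lit 269254656) (nat_lit 348340224)) (I.mix (nat_lit 77676544) (nat_lit 152748032)) (I.mix (nat_lit 102088704) (nat_lit 83542016)) (I.mix (nat_lit 104497152) (nat_lit 91455488)))
  true (nat_lit 0)
def b0_9 : Bx := Bx.mk (St.mk (I.pos (nat_lit 162021376) (nat_lit 235192320)) (I.mix (nat_lit 19578880) (nat_lit 87490560)) (I.mix (nat_lit 155516928) (nat_lit 30670848)) (I.pos (nat_lit 405962752) (nat_lit 536199168)) (I.mix (nat_lit 170754048) (nat_lit 150863872)) (I.mix (nat_lit 146751488) (nat_lit 138608640)) (I.mix (nat_lit 280051712) (nat_lit 185270272)))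
  false (nat_lit 30656938)
def b0_10 : Bx := Bx.mk (St.mk (I.mix (nat_lit 12451840) (nat_lit 38502400)) (I.mix (nat_lit 55967744) (nat_lit 14106624)) (I.neg (nat_lit 68075520) (nat_lit 89423872)) (I.pos (nat_lit 264486912) (nat_lit 281968640)) (I.mix (nat_lit 135020544) (nat_lit 78675968)) (I.mix (nat_lit 70582272) (nat_lit 103284736)) (I.mix (nat_lit 43892736) (nat_lit 36306944)))
  false (nat_lit 0)
def t0 : BTr := (BTr.n (BTr.n (BTr.n (BTr.b b0_0) (BTr.b b0_1)) (BTr.n (BTr.b b0_2) (BTr.n (BTr.b b0_3) (BTr.b b0_4)))) (BTr.n (BTr.n (BTr.b b0_5) (BTr.n (BTr.b b0_6) (BTr.b b0_7))) (BTr.n (BTr.b b0_8) (BTr.n (BTr.b b0_9) (BTr.b b0_10)))))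
namespace T0
def l0 : Tr := Tr.L (Pth.l (Pth.l (Pth.l Pth.z)))
def l1 : Tr := Tr.L (Pth.l (Pth.l (Pth.r Pth.z)))
def l2 : Tr := Tr.L (Pth.l (Pth.r (Pth.l Pth.z)))
def l3 : Tr := Tr.L (Pth.l (Pth.r (Pth.r (Pth.l Pth.z))))
def l4 : Tr := Tr.L (Pth.l (Pth.r (Pth.r (Pth.r Pth.z))))
def l5 : Tr := Tr.L (Pth.r (Pth.l (Pth.l Pth.z)))
def l6 : Tr := Tr.L (Pth.r (Pth.l (Pth.r (Pth.l Pth.z))))
def l7 : Tr := Tr.L (Pth.r (Pth.l (Pth.r (Pth.r Pth.z))))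
def l8 : Tr := Tr.L (Pth.r (Pth.r (Pth.l Pth.z)))
def l9 : Tr := Tr.L (Pth.r (Pth.r (Pth.r (Pth.l Pth.z))))
def l10 : Tr := Tr.L (Pth.r (Pth.r (Pth.r (Pth.r Pth.z))))
end T0
def b1_0 : Bx := Bx.mk (St.mk (I.pos (nat_lit 147275776) (nat_lit 217268224)) (I.mix (nat_lit 1835008) (nat_lit 55263232)) (I.mix (nat_lit 2752512) (nat_lit 86048768)) (I.pos (nat_lit 197214208) (nat_lit 300285952)) (I.mix (nat_lit 133251072) (nat_lit 81100800)) (I.mix (nat_lit 76546048) (nat_lit 71745536)) (I.mix (nat_lit 127238144) (nat_lit 114278400)))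
  false (nat_lit 0)
def b1_1 : Bx := Bx.mk (St.mk (I.pos (nat_lit 84639744) (nat_lit 152043520)) (I.neg (nat_lit 4964352) (nat_lit 55427072)) (I.mix (nat_lit 50233344) (nat_lit 262144)) (I.pos (nat_lit 125550592) (nat_lit 188186624)) (I.mix (nat_lit 90914816) (nat_lit 67452928)) (I.mix (nat_lit 59473920) (nat_lit 71237632)) (I.mix (nat_lit 55263232) (nat_lit 66912256)))
  false (nat_lit 250848)
def b1_2 : Bx := Bx.mk (St.mk (I.mix (nat_lit 30900224) (nat_lit 93863936)) (I.mix (nat_lit 7667712) (nat_lit 33603584)) (I.mix (nat_lit 13664256) (nat_lit 15155200)) (I.pos (nat_lit 89341952) (nat_lit 126468096)) (I.mix (nat_lit 59736064) (nat_lit 60981248)) (I.mix (nat_lit 50855936) (nat_lit 40730624)) (I.mix (nat_lit 36323328) (nat_lit 23838720)))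
  false (nat_lit 0)
def b1_3 : Bx := Bx.mk (St.mk (I.mix (nat_lit 30457856) (nat_lit 46186496)) (I.mix (nat_lit 32948224) (nat_lit 4866048)) (I.mix (nat_lit 12009472) (nat_lit 2359296)) (I.pos (nat_lit 89374720) (nat_lit 101154816)) (I.mix (nat_lit 43319296) (nat_lit 50380800)) (I.mix (nat_lit 31981568) (nat_lit 41009152)) (I.mix (nat_lit 12353536) (nat_lit 16777216)))
  false (nat_lit 0)
def b1_4 : Bx := Bx.mk (St.mk (I.pos (nat_lit 137248768) (nat_lit 191791104)) (I.mix (nat_lit 12550144) (nat_lit 53280768)) (I.pos (nat_lit 8830976) (nat_lit 82182144)) (I.pos (nat_lit 179388416) (nat_lit 254099456)) (I.mix (nat_lit 151699456) (nat_lit 45629440)) (I.mix (nat_lit 133414912) (nat_lit 72384512)) (I.mix (nat_lit 133234688) (nat_lit 68386816)))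
  false (nat_lit 0)
def b1_5 : Bx := Bx.mk (St.mk (I.pos (nat_lit 77381632) (nat_lit 114425856)) (I.mix (nat_lit 54231040) (nat_lit 11337728)) (I.neg (nat_lit 2457600) (nat_lit 49135616)) (I.pos (nat_lit 116785152) (nat_lit 149127168)) (I.mix (nat_lit 99745792) (nat_lit 64864256)) (I.mix (nat_lit 51576832) (nat_lit 85786624)) (I.mix (nat_lit 38666240) (nat_lit 55148544)))
  false (nat_lit 0)
def b1_6 : Bx := Bx.mk (St.mk (I.mix (nat_lit 47448064) (nat_lit 73482240)) (I.mix (nat_lit 11173888) (nat_lit 34242560)) (I.mix (nat_lit 11010048) (nat_lit 13434880)) (I.pos (nat_lit 90521600) (nat_lit 115884032)) (I.mix (nat_lit 60653568) (nat_lit 46219264)) (I.mix (nat_lit 49135616) (nat_lit 31965184)) (I.mix (nat_lit 17940480) (nat_lit 16777216)))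
  false (nat_lit 0)
def b1_7 : Bx := Bx.mk (St.mk (I.mix (nat_lit 40566784) (nat_lit 25559040)) (I.mix (nat_lit 33193984) (nat_lit 6307840)) (I.mix (nat_lit 9830400) (nat_lit 4079616)) (I.pos (nat_lit 89997312) (nat_lit 100990976)) (I.mix (nat_lit 53788672) (nat_lit 47431680)) (I.mix (nat_lit 30949376) (nat_lit 42631168)) (I.mix (nat_lit 17858560) (nat_lit 10108928)))
  false (nat_lit 0)
def b1_8 : Bx := Bx.mk (St.mk (I.pos (nat_lit 173391872) (nat_lit 229572608)) (I.mix (nat_lit 13991936) (nat_lit 54738944)) (I.mix (nat_lit 45416448) (nat_lit 81543168)) (I.pos (nat_lit 237944832) (nat_lit 318095360)) (I.mix (nat_lit 146046976) (nat_lit 100188160)) (I.mix (nat_lit 114933760) (nat_lit 97107968)) (I.mix (nat_lit 202637312) (nat_lit 165101568)))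
  false (nat_lit 0)
def b1_9 : Bx := Bx.mk (St.mk (I.pos (nat_lit 139313152) (nat_lit 181239808)) (I.mix (nat_lit 43941888) (nat_lit 18087936)) (I.mix (nat_lit 35864576) (nat_lit 38797312)) (I.pos (nat_lit 179372032) (nat_lit 227082240)) (I.mix (nat_lit 134987776) (nat_lit 89391104)) (I.mix (nat_lit 129875968) (nat_lit 81739776)) (I.mix (nat_lit 126140416) (nat_lit 82690048)))
  false (nat_lit 0)
def b1_10 : Bx := Bx.mk (St.mk (I.pos (nat_lit 108019712) (nat_lit 149438464)) (I.neg (nat_lit 2293760) (nat_lit 32227328)) (I.mix (nat_lit 24494080) (nat_lit 5767168)) (I.pos (nat_lit 145195008) (nat_lit 184958976)) (I.mix (nat_lit 91619328) (nat_lit 25149440)) (I.mix (nat_lit 39092224) (nat_lit 53477376)) (I.mix (nat_lit 38928384) (nat_lit 48742400)))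
  false (nat_lit 0)
def b1_11 : Bx := Bx.mk (St.mk (I.pos (nat_lit 60211200) (nat_lit 90128384)) (I.mix (nat_lit 13058048) (nat_lit 15695872)) (I.neg (nat_lit 81920) (nat_lit 17154048)) (I.pos (nat_lit 107266048) (nat_lit 125304832)) (I.mix (nat_lit 66453504) (nat_lit 33980416)) (I.mix (nat_lit 38158336) (nat_lit 37847040)) (I.mix (nat_lit 23494656) (nat_lit 24051712)))
  false (nat_lit 0)
def b1_12 : Bx := Bx.mk (St.mk (I.mix (nat_lit 62128128) (nat_lit 45957120)) (I.mix (nat_lit 10158080) (nat_lit 13451264)) (I.mix (nat_lit 4538368) (nat_lit 3948544)) (I.pos (nat_lit 90456064) (nat_lit 107495424)) (I.mix (nat_lit 45613056) (nat_lit 28540928)) (I.mix (nat_lit 27738112) (nat_lit 31047680)) (I.mix (nat_lit 12468224) (nat_lit 10797056)))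
  false (nat_lit 0)
def b1_13 : Bx := Bx.mk (St.mk (I.neg (nat_lit 5603328) (nat_lit 60686336)) (I.mix (nat_lit 10534912) (nat_lit 13041664)) (I.neg (nat_lit 3686400) (nat_lit 12386304)) (I.pos (nat_lit 91570176) (nat_lit 107053056)) (I.mix (nat_lit 47267840) (nat_lit 31260672)) (I.mix (nat_lit 30457856) (nat_lit 30703616)) (I.mix (nat_lit 13434880) (nat_lit 11665408)))
  false (nat_lit 0)
def b1_14 : Bx := Bx.mk (St.mk (I.pos (nat_lit 196247552) (nat_lit 245989376)) (I.mix (nat_lit 16613376) (nat_lit 20103168)) (I.mix (nat_lit 57917440) (nat_lit 14991360)) (I.pos (nat_lit 267911168) (nat_lit 358154240)) (I.mix (nat_lit 125009920) (nat_lit 17170432)) (I.mix (nat_lit 53379072) (nat_lit 62996480)) (I.mix (nat_lit 95109120) (nat_lit 126517248)))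
  false (nat_lit 0)
def b1_15 : Bx := Bx.mk (St.mk (I.pos (nat_lit 131825664) (nat_lit 159039488)) (I.neg (nat_lit 7159808) (nat_lit 35700736)) (I.mix (nat_lit 29835264) (nat_lit 458752)) (I.pos (nat_lit 169541632) (nat_lit 197656576)) (I.mix (nat_lit 49528832) (nat_lit 30982144)) (I.mix (nat_lit 28983296) (nat_lit 30392320)) (I.mix (nat_lit 31752192) (nat_lit 28540928)))
  false (nat_lit 0)
def t1 : BTr := (BTr.n (BTr.n (BTr.n (BTr.n (BTr.b b1_0) (BTr.b b1_1)) (BTr.n (BTr.b b1_2) (BTr.b b1_3))) (BTr.n (BTr.n (BTr.b b1_4) (BTr.b b1_5)) (BTr.n (BTr.b b1_6) (BTr.b b1_7)))) (BTr.n (BTr.n (BTr.n (BTr.b b1_8) (BTr.b b1_9)) (BTr.n (BTr.b b1_10) (BTr.b b1_11))) (BTr.n (BTr.n (BTr.b b1_12) (BTr.b b1_13)) (BTr.n (BTr.b b1_14) (BTr.b b1_15)))))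
namespace T1
def l0 : Tr := Tr.L (Pth.l (Pth.l (Pth.l (Pth.l Pth.z))))
def l1 : Tr := Tr.L (Pth.l (Pth.l (Pth.l (Pth.r Pth.z))))
def l2 : Tr := Tr.L (Pth.l (Pth.l (Pth.r (Pth.l Pth.z))))
def l3 : Tr := Tr.L (Pth.l (Pth.l (Pth.r (Pth.r Pth.z))))
def l4 : Tr := Tr.L (Pth.l (Pth.r (Pth.l (Pth.l Pth.z))))
def l5 : Tr := Tr.L (Pth.l (Pth.r (Pth.l (Pth.r Pth.z))))
def l6 : Tr := Tr.L (Pth.l (Pth.r (Pth.r (Pth.l Pth.z))))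
def l7 : Tr := Tr.L (Pth.l (Pth.r (Pth.r (Pth.r Pth.z))))
def l8 : Tr := Tr.L (Pth.r (Pth.l (Pth.l (Pth.l Pth.z))))
def l9 : Tr := Tr.L (Pth.r (Pth.l (Pth.l (Pth.r Pth.z))))
def l10 : Tr := Tr.L (Pth.r (Pth.l (Pth.r (Pth.l Pth.z))))
def l11 : Tr := Tr.L (Pth.r (Pth.l (Pth.r (Pth.r Pth.z))))
def l12 : Tr := Tr.L (Pth.r (Pth.r (Pth.l (Pth.l Pth.z))))
def l13 : Tr := Tr.L (Pth.r (Pth.r (Pth.l (Pth.r Pth.z))))
def l14 : Tr := Tr.L (Pth.r (Pth.r (Pth.r (Pth.l Pth.z))))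
def l15 : Tr := Tr.L (Pth.r (Pth.r (Pth.r (Pth.r Pth.z))))
end T1
def b2_0 : Bx := Bx.mk (St.mk (I.pos (nat_lit 117604352) (nat_lit 218054656)) (I.mix (nat_lit 2555904) (nat_lit 79642624)) (I.mix (nat_lit 3866624) (nat_lit 124813312)) (I.pos (nat_lit 366985216) (nat_lit 473563136)) (I.mix (nat_lit 215105536) (nat_lit 90996736)) (I.mix (nat_lit 113983488) (nat_lit 95649792)) (I.mix (nat_lit 141393920) (nat_lit 132022272)))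
  false (nat_lit 67783612)
def b2_1 : Bx := Bx.mk (St.mk (I.pos (nat_lit 29540352) (nat_lit 114114560)) (I.neg (nat_lit 2588672) (nat_lit 96976896)) (I.mix (nat_lit 49725440) (nat_lit 37552128)) (I.pos (nat_lit 287932416) (nat_lit 337559552)) (I.mix (nat_lit 141213696) (nat_lit 130400256)) (I.mix (nat_lit 116588544) (nat_lit 103137280)) (I.mix (nat_lit 122519552) (nat_lit 98598912)))
  false (nat_lit 131785479)
def b2_2 : Bx := Bx.mk (St.mk (I.pos (nat_lit 94978048) (nat_lit 165675008)) (I.mix (nat_lit 46530560) (nat_lit 72794112)) (I.mix (nat_lit 1867776) (nat_lit 125648896)) (I.pos (nat_lit 317014016) (nat_lit 408518656)) (I.mix (nat_lit 223576064) (nat_lit 111509504)) (I.mix (nat_lit 174833664) (nat_lit 139345920)) (I.mix (nat_lit 184762368) (nat_lit 180600832)))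
  false (nat_lit 79528106)
def b2_3 : Bx := Bx.mk (St.mk (I.neg (nat_lit 29540352) (nat_lit 114130944)) (I.mix (nat_lit 409600) (nat_lit 96976896)) (I.mix (nat_lit 49725440) (nat_lit 37732352)) (I.pos (nat_lit 287916032) (nat_lit 337559552)) (I.mix (nat_lit 130416640) (nat_lit 141230080)) (I.mix (nat_lit 103153664) (nat_lit 116604928)) (I.mix (nat_lit 122535936) (nat_lit 98598912)))
  true (nat_lit 0)
def b2_4 : Bx := Bx.mk (St.mk (I.pos (nat_lit 74416128) (nat_lit 114720768)) (I.mix (nat_lit 38371328) (nat_lit 163840)) (I.pos (nat_lit 5013504) (nat_lit 38158336)) (I.pos (nat_lit 300777472) (nat_lit 335839232)) (I.mix (nat_lit 101433344) (nat_lit 88358912)) (I.mix (nat_lit 60080128) (nat_lit 77398016)) (I.mix (nat_lit 60325888) (nat_lit 64716800)))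
  false (nat_lit 0)
def b2_5 : Bx := Bx.mk (St.mk (I.mix (nat_lit 63832064) (nat_lit 17629184)) (I.mix (nat_lit 11108352) (nat_lit 87162880)) (I.neg (nat_lit 14499840) (nat_lit 37699584)) (I.pos (nat_lit 274726912) (nat_lit 310067200)) (I.mix (nat_lit 98779136) (nat_lit 133054464)) (I.mix (nat_lit 96550912) (nat_lit 90161152)) (I.mix (nat_lit 58998784) (nat_lit 37961728)))
  true (nat_lit 0)
def b2_6 : Bx := Bx.mk (St.mk (I.pos (nat_lit 16056320) (nat_lit 62849024)) (I.neg (nat_lit 35291136) (nat_lit 86212608)) (I.neg (nat_lit 16744448) (nat_lit 37781504)) (I.pos (nat_lit 284491776) (nat_lit 310607872)) (I.mix (nat_lit 133054464) (nat_lit 79511552)) (I.mix (nat_lit 90161152) (nat_lit 96550912)) (I.mix (nat_lit 58998784) (nat_lit 39845888)))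
  false (nat_lit 68487902)
def b2_7 : Bx := Bx.mk (St.mk (I.mix (nat_lit 21200896) (nat_lit 52133888)) (I.mix (nat_lit 42663936) (nat_lit 20398080)) (I.neg (nat_lit 14893056) (nat_lit 23642112)) (I.pos (nat_lit 275218432) (nat_lit 291913728)) (I.mix (nat_lit 61177856) (nat_lit 71843840)) (I.mix (nat_lit 47890432) (nat_lit 44662784)) (I.mix (nat_lit 16105472) (nat_lit 14942208)))
  false (nat_lit 0)
def b2_8 : Bx := Bx.mk (St.mk (I.pos (nat_lit 181108736) (nat_lit 288735232)) (I.mix (nat_lit 40697856) (nat_lit 54067200)) (I.mix (nat_lit 126697472) (nat_lit 68304896)) (I.pos (nat_lit 422002688) (nat_lit 620494848)) (I.mix (nat_lit 125779968) (nat_lit 74678272)) (I.mix (nat_lit 82771968) (nat_lit 74383360)) (I.mix (nat_lit 163610624) (nat_lit 125566976)))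
  false (nat_lit 7328473)
def b2_9 : Bx := Bx.mk (St.mk (I.pos (nat_lit 140623872) (nat_lit 195133440)) (I.pos (nat_lit 18087936) (nat_lit 79249408)) (I.pos (nat_lit 27492352) (nat_lit 117997568)) (I.pos (nat_lit 378650624) (nat_lit 451592192)) (I.mix (nat_lit 170442752) (nat_lit 102268928)) (I.mix (nat_lit 114933760) (nat_lit 74907648)) (I.mix (nat_lit 177373184) (nat_lit 111312896)))
  false (nat_lit 13626689)
def b2_10 : Bx := Bx.mk (St.mk (I.pos (nat_lit 13959168) (nat_lit 56311808)) (I.neg (nat_lit 23740416) (nat_lit 72368128)) (I.neg (nat_lit 17219584) (nat_lit 35323904)) (I.pos (nat_lit 283328512) (nat_lit 299237376)) (I.mix (nat_lit 115261440) (nat_lit 98779136)) (I.mix (nat_lit 65372160) (nat_lit 96337920)) (I.mix (nat_lit 35323904) (nat_lit 25837568)))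
  false (nat_lit 44181313)
def t2 : BTr := (BTr.n (BTr.n (BTr.n (BTr.b b2_0) (BTr.b b2_1)) (BTr.n (BTr.b b2_2) (BTr.n (BTr.b b2_3) (BTr.b b2_4)))) (BTr.n (BTr.n (BTr.b b2_5) (BTr.n (BTr.b b2_6) (BTr.b b2_7))) (BTr.n (BTr.b b2_8) (BTr.n (BTr.b b2_9) (BTr.b b2_10)))))
namespace T2
def l0 : Tr := Tr.L (Pth.l (Pth.l (Pth.l Pth.z)))
def l1 : Tr := Tr.L (Pth.l (Pth.l (Pth.r Pth.z)))
def l2 : Tr := Tr.L (Pth.l (Pth.r (Pth.l Pth.z)))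
def l3 : Tr := Tr.L (Pth.l (Pth.r (Pth.r (Pth.l Pth.z))))
def l4 : Tr := Tr.L (Pth.l (Pth.r (Pth.r (Pth.r Pth.z))))
def l5 : Tr := Tr.L (Pth.r (Pth.l (Pth.l Pth.z)))
def l6 : Tr := Tr.L (Pth.r (Pth.l (Pth.r (Pth.l Pth.z))))
def l7 : Tr := Tr.L (Pth.r (Pth.l (Pth.r (Pth.r Pth.z))))
def l8 : Tr := Tr.L (Pth.r (Pth.r (Pth.l Pth.z)))
def l9 : Tr := Tr.L (Pth.r (Pth.r (Pth.r (Pth.l Pth.z))))
def l10 : Tr := Tr.L (Pth.r (Pth.r (Pth.r (Pth.r Pth.z))))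
end T2
theorem c0_0_0 : chkTag sI cl4 cl4 cl6 t0 b0_0 (tg true true false RT.r2) (I.pos (nat_lit 0) (nat_lit 0))
  (xb (xa (xb (xa T0.l9 T0.l0) (xa T0.l9 (xb T0.l0 T0.l0))) (xb (xa T0.l0 T0.l0) (xa T0.l0 T0.l0))) (xa (xb (xa (xb T0.l9 (xa T0.l9 (xb T0.l0 T0.l0))) (xb T0.l0 (xa T0.l0 T0.l0))) (xa (xb (xa (xb (xa T0.l0 T0.l0) (xa T0.l0 T0.l0)) (xb T0.l0 T0.l0)) (xa (xb (xs T0.l0 (xa T0.l0 T0.l0)) (xs T0.l0 (xa T0.l0 T0.l0))) (xb (xs T0.l0 T0.l0) (xs T0.l0 T0.l0)))) (xb (xa (xb T0.l0 T0.l0) T0.l0) (xa (xb T0.l0 (xs T0.l0 T0.l0)) (xb T0.l0 (xs T0.l0 T0.l0)))))) (xb (xa (xb T0.l0 T0.l0) (xb T0.l0 T0.l0)) (xa (xb (xa T0.l0 T0.l0) (xa (xb T0.l0 (xs T0.l0 (xa T0.l0 T0.l0))) (xb T0.l0 (xs T0.l0 (xa T0.l0 T0.l0))))) (xb (xa T0.l0 T0.l0) (xa (xb T0.l0 (xs T0.l0 (xa T0.l0 T0.l0))) (xb (xs T0.l0 T0.l0) (xs (xa T0.l0 T0.l0) (xa T0.l0 T0.l0)))))))))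 = true := by decide +kernel
theorem c0_0_1 : chkTag sI cl4 cl4 cl6 t2 b0_0 (tg true false false RT.r3) (I.pos (nat_lit 0) (nat_lit 0))
  (xb (xa T2.l1 T2.l1) (xa (xb T2.l1 (xa T2.l1 T2.l1)) (xb T2.l1 (xa T2.l1 T2.l1)))) = true := by decide +kernel
theorem c0_0_2 : chkTag sI cl4 cl4 cl6 t0 b0_0 (tg true true true RT.r4) (I.pos (nat_lit 0) (nat_lit 0))
  (xb (xa T0.l1 T0.l1) (xa (xb T0.l1 T0.l1) (xc (xb T0.l1 (xa T0.l1 T0.l1)) (xb T0.l1 (xa T0.l1 T0.l1))))) = true := by decide +kernel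
theorem c0_0_3 : chkTag sI cl4 cl4 cl6 t2 b0_0 (tg false false false RT.r3) (I.pos (nat_lit 0) (nat_lit 0))
  (xb (xa (xb T2.l2 T2.l2) (xb (xa T2.l2 T2.l2) (xa T2.l2 (xb T2.l2 T2.l2)))) (xa (xb T2.l2 (xa T2.l2 T2.l2)) (xb (xa (xb T2.l2 T2.l2) (xb (xc T2.l2 T2.l2) (xc T2.l2 T2.l2))) (xa (xb T2.l2 (xc T2.l2 T2.l2)) (xb (xc T2.l2 (xa T2.l2 T2.l2)) (xc T2.l2 (xa T2.l2 T2.l2))))))) = true := by decide +kernel
theorem c0_0_4 : chkTag sI cl4 cl4 cl6 t0 b0_0 (tg false true false RT.r4) (I.pos (nat_lit 0) (nat_lit 0))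
  (xb (xa (xb T0.l2 T0.l2) T0.l2) (xa (xb T0.l2 T0.l2) (xc (xb T0.l2 (xa T0.l2 T0.l2)) (xb T0.l2 (xa T0.l2 T0.l2))))) = true := by decide +kernel
theorem c0_0_5 : chkTag sI cl4 cl4 cl6 t2 b0_0 (tg false false true RT.r5) (I.pos (nat_lit 0) (nat_lit 0))
  (xb (xa T2.l3 T2.l3) (xa (xb T2.l3 (xa T2.l3 T2.l3)) (xb T2.l3 (xa T2.l3 T2.l3)))) = true := by decide +kernel
theorem bx0_0 : BoxOK sI cl4 cl4 cl6 t0 t2 b0_0 :=
  box_mk' [(tg true true false RT.r2), (tg true false false RT.r3), (tg true true true RT.r4), (tg false false false RT.r3), (tg false true false RT.r4), (tg false false true RT.r5)] rfl (allL_c (ex_mk c0_0_0) (allL_c (ex_mk c0_0_1) (allL_c (ex_mk c0_0_2) (allL_c (ex_mk c0_0_3) (allL_c (ex_mk c0_0_4) (allL_c (ex_mk c0_0_5) allL_n))))))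
theorem bx0_1 : BoxOK sI cl4 cl4 cl6 t0 t2 b0_1 :=
  box_mk (TrL.c (I.pos (nat_lit 0) (nat_lit 0)) (xb (xb T2.l4 T2.l4) (xb T2.l4 T2.l4))
  (TrL.c (I.pos (nat_lit 0) (nat_lit 0)) (xb T0.l1 (xb T0.l1 T0.l3))
  TrL.n)) (by decide +kernel)
theorem bx0_2 : BoxOK sI cl4 cl4 cl6 t0 t2 b0_2 :=
  box_mk (TrL.c (I.pos (nat_lit 0) (nat_lit 0)) (xb (xa (xb (xa (xb T0.l4 T0.l4) (xb T0.l4 T0.l4)) (xa (xb T0.l4 T0.l4) T0.l4)) (xb T0.l9 T0.l9)) (xa (xb (xa T0.l4 T0.l4) (xa (xb T0.l4 T0.l4) T0.l9)) T0.l9))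
  (TrL.c (I.pos (nat_lit 0) (nat_lit 0)) (xb T2.l4 T2.l1)
  (TrL.c (I.pos (nat_lit 0) (nat_lit 0)) (xb T0.l1 T0.l1)
  (TrL.c (I.pos (nat_lit 0) (nat_lit 0)) T2.l2
  (TrL.c (I.pos (nat_lit 0) (nat_lit 0)) (xb T0.l5 T0.l10)
  (TrL.c (I.pos (nat_lit 0) (nat_lit 0)) (xb T2.l3 T2.l3)
  TrL.n)))))) (by decide +kernel)
theorem bx0_3 : BoxOK sI cl4 cl4 cl6 t0 t2 b0_3 :=
  box_mk (TrL.c (I.pos (nat_lit 0) (nat_lit 0)) T2.l4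
  (TrL.c (I.pos (nat_lit 0) (nat_lit 0)) T0.l1
  TrL.n)) (by decide +kernel)
theorem bx0_4 : BoxOK sI cl4 cl4 cl6 t0 t2 b0_4 :=
  box_mk (TrL.c (I.pos (nat_lit 0) (nat_lit 0)) (xa T0.l0 T0.l7)
  (TrL.c (I.pos (nat_lit 0) (nat_lit 0)) (xa T2.l1 (xb T2.l1 T2.l1))
  (TrL.c (I.pos (nat_lit 0) (nat_lit 0)) T0.l8
  (TrL.c (I.pos (nat_lit 0) (nat_lit 0)) (xa T2.l2 (xb (xa T2.l2 (xb (xc T2.l2 T2.l2) T2.l2)) T2.l2))
  (TrL.c (I.pos (nat_lit 0) (nat_lit 0)) T0.l6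
  (TrL.c (I.pos (nat_lit 0) (nat_lit 0)) (xa T2.l3 (xb T2.l3 T2.l3))
  TrL.n)))))) (by decide +kernel)
theorem bx0_5 : BoxOK sI cl4 cl4 cl6 t0 t2 b0_5 :=
  box_mk (TrL.c (I.pos (nat_lit 0) (nat_lit 0)) (xa (xb T0.l4 (xa T0.l4 T0.l4)) T0.l4)
  (TrL.c (I.pos (nat_lit 0) (nat_lit 0)) T2.l1
  (TrL.c (I.pos (nat_lit 0) (nat_lit 0)) T0.l1
  (TrL.c (I.pos (nat_lit 0) (nat_lit 0)) T2.l2
  (TrL.c (I.pos (nat_lit 0) (nat_lit 0)) T0.l10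
  (TrL.c (I.pos (nat_lit 0) (nat_lit 0)) T2.l3
  TrL.n)))))) (by decide +kernel)
theorem bx0_6 : BoxOK sI cl4 cl4 cl6 t0 t2 b0_6 :=
  box_mk (TrL.c (I.pos (nat_lit 0) (nat_lit 0)) (xa (xb (xa (xb (xa (xb (xa T0.l9 T0.l9) T0.l9) T0.l9) (xa (xb T0.l9 T0.l9) T0.l9)) (xb (xa T0.l9 T0.l9) T0.l9)) (xa (xb T0.l9 (xa (xb T0.l9 (xa T0.l9 T0.l9)) T0.l9)) T0.l9)) (xb (xa (xb T0.l9 T0.l9) (xb (xa T0.l9 (xb T0.l9 T0.l9)) T0.l9)) T0.l9))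
  (TrL.c (I.pos (nat_lit 0) (nat_lit 0)) (xa (xb (xa T2.l1 T2.l1) T2.l1) T2.l1)
  (TrL.c (I.pos (nat_lit 0) (nat_lit 0)) (xa (xb T0.l1 T0.l1) T0.l1)
  (TrL.c (I.pos (nat_lit 0) (nat_lit 0)) (xa T2.l2 (xb (xa T2.l2 T2.l2) T2.l2))
  (TrL.c (I.pos (nat_lit 0) (nat_lit 0)) (xa (xb (xa T0.l10 T0.l10) T0.l10) (xb (xa T0.l10 T0.l10) T0.l10))
  (TrL.c (I.pos (nat_lit 0) (nat_lit 0)) (xa (xb T2.l3 T2.l3) T2.l3)
  TrL.n)))))) (by decide +kernel)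
theorem c0_7_0 : chkTag sI cl4 cl4 cl6 t0 b0_7 (tg true true false RT.r2) (I.pos (nat_lit 0) (nat_lit 0))
  (xb (xa (xb (xa (xb (xa (xb T0.l9 T0.l9) (xb T0.l9 T0.l9)) (xa T0.l9 T0.l9)) (xb (xa (xb T0.l9 T0.l9) (xb T0.l9 T0.l9)) (xa T0.l9 T0.l9))) (xa (xb (xa T0.l9 T0.l9) (xa (xb T0.l9 T0.l9) T0.l9)) (xb T0.l9 T0.l9))) (xb (xa (xb (xa (xb T0.l9 T0.l9) (xb T0.l9 T0.l9)) (xa T0.l9 T0.l9)) (xb (xa (xb T0.l9 T0.l9) T0.l0) T0.l0)) (xa (xb T0.l9 T0.l9) (xb T0.l0 T0.l9)))) (xa (xb (xa (xb (xa (xb T0.l9 (xa T0.l9 T0.l9)) T0.l9) (xa (xb (xa T0.l9 T0.l9) (xa T0.l9 T0.l9)) (xb T0.l9 T0.l9))) (xb T0.l9 T0.l9)) (xa (xb (xa (xb (xa (xc T0.l9 T0.l9) T0.l9) (xa (xc T0.l9 T0.l9) T0.l9)) (xb T0.l9 T0.l9)) (xa (xb (xa (xc T0.l9 T0.l9) T0.l9) (xa (xc T0.l9 T0.l9) (xc T0.l9 T0.l9))) (xb T0.l9 (xa T0.l9 T0.l9)))) (xb (xa T0.l9 T0.l9) (xa (xb T0.l9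 T0.l9) T0.l9)))) (xb (xa (xb T0.l9 T0.l9) (xb T0.l9 T0.l0)) (xa (xb (xa T0.l9 T0.l9) (xa (xb T0.l9 T0.l9) (xb T0.l9 (xa T0.l9 T0.l9)))) (xb (xa T0.l9 T0.l9) (xa (xb T0.l9 T0.l0) T0.l0)))))) = true := by decide +kernel
theorem c0_7_1 : chkTag sI cl4 cl4 cl6 t2 b0_7 (tg true false false RT.r3) (I.pos (nat_lit 0) (nat_lit 0))
  (xb (xa (xb T2.l1 T2.l1) (xb T2.l1 T2.l1)) (xa (xb (xa T2.l1 T2.l1) (xa T2.l1 T2.l1)) (xb (xa T2.l1 T2.l1) (xa T2.l1 T2.l1)))) = true := by decide +kernel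
theorem c0_7_2 : chkTag sI cl4 cl4 cl6 t0 b0_7 (tg true true true RT.r4) (I.pos (nat_lit 0) (nat_lit 0))
  (xb (xa (xb T0.l1 T0.l1) (xc T0.l1 T0.l1)) (xa T0.l1 T0.l1)) = true := by decide +kernel
theorem c0_7_3 : chkTag sI cl4 cl4 cl6 t2 b0_7 (tg false false false RT.r3) (I.pos (nat_lit 0) (nat_lit 0))
  (xb (xa (xb (xa (xb T2.l2 T2.l2) (xb T2.l2 T2.l2)) T2.l2) (xb (xa (xb (xc T2.l2 T2.l2) T2.l2) (xb (xc T2.l2 T2.l2) T2.l2)) T2.l2)) (xa (xb T2.l2 (xa (xb T2.l2 T2.l2) T2.l2)) (xb T2.l2 (xa T2.l2 T2.l2)))) = true := by decide +kernel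
theorem c0_7_4 : chkTag sI cl4 cl4 cl6 t0 b0_7 (tg false true false RT.r4) (I.pos (nat_lit 0) (nat_lit 0))
  (xa (xb (xc (xb T0.l10 T0.l10) (xb T0.l10 T0.l10)) (xc (xb T0.l10 T0.l10) (xb T0.l10 T0.l10))) (xb (xc (xa T0.l10 T0.l6) (xa T0.l10 (xb T0.l2 T0.l2))) (xc (xb T0.l2 T0.l2) (xb T0.l2 T0.l2)))) = true := by decide +kernel
theorem c0_7_5 : chkTag sI cl4 cl4 cl6 t2 b0_7 (tg false false true RT.r5) (I.pos (nat_lit 0) (nat_lit 0))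
  (xb (xa (xb T2.l3 T2.l3) (xb T2.l3 T2.l3)) (xa (xb (xa T2.l3 T2.l3) (xa T2.l3 T2.l3)) (xb (xa T2.l3 T2.l3) (xa T2.l3 T2.l3)))) = true := by decide +kernel
theorem bx0_7 : BoxOK sI cl4 cl4 cl6 t0 t2 b0_7 :=
  box_mk' [(tg true true false RT.r2), (tg true false false RT.r3), (tg true true true RT.r4), (tg false false false RT.r3), (tg false true false RT.r4), (tg false false true RT.r5)] rfl (allL_c (ex_mk c0_7_0) (allL_c (ex_mk c0_7_1) (allL_c (ex_mk c0_7_2) (allL_c (ex_mk c0_7_3) (allL_c (ex_mk c0_7_4) (allL_c (ex_mk c0_7_5) allL_n))))))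
theorem bx0_8 : BoxOK sI cl4 cl4 cl6 t0 t2 b0_8 :=
  box_mk (TrL.c (I.pos (nat_lit 0) (nat_lit 0)) (xa T2.l1 (xb T2.l1 (xa T2.l1 T2.l4)))
  (TrL.c (I.pos (nat_lit 0) (nat_lit 0)) (xa T0.l1 (xc (xb T0.l1 T0.l1) (xb T0.l1 T0.l1)))
  TrL.n)) (by decide +kernel)
theorem c0_9_0 : chkTag sI cl4 cl4 cl6 t0 b0_9 (tg true true false RT.r2) (I.pos (nat_lit 0) (nat_lit 0))
  (xb (xa (xb (xa (xb (xc T0.l9 T0.l0) (xc T0.l9 T0.l0)) (xb T0.l0 T0.l0)) (xa (xb (xc T0.l9 T0.l0) (xc T0.l9 T0.l0)) (xb T0.l0 (xc T0.l0 T0.l0)))) (xb (xa (xb T0.l0 T0.l0) (xb (xc T0.l0 T0.l7) (xc T0.l0 T0.l7))) (xa (xb T0.l0 T0.l0) (xb (xc T0.l0 T0.l7) (xc T0.l0 (xa T0.l0 T0.l0)))))) (xa (xb (xa (xb (xc T0.l9 T0.l0) (xc T0.l9 T0.l0)) (xb (xc (xa T0.l0 T0.l0) T0.l0) (xc (xa T0.l0 T0.l0) T0.l0))) (xa (xb (xc (xa T0.l9 (xb T0.l0 T0.l0)) T0.l0) (xa (xc (xb (xs T0.l0 T0.l0)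 (xs T0.l0 (xa T0.l0 T0.l0))) (xb T0.l0 (xs T0.l0 (xa T0.l0 T0.l0)))) (xc (xb T0.l0 T0.l0) (xb T0.l0 T0.l0)))) (xb (xc (xa (xb T0.l0 T0.l0) T0.l0) T0.l0) (xa (xc (xb T0.l0 T0.l0) T0.l0) (xc T0.l0 T0.l0))))) (xb (xa (xb T0.l0 (xc T0.l0 T0.l0)) (xb (xc T0.l0 (xa T0.l0 (xb T0.l0 T0.l0))) (xa T0.l0 (xc T0.l0 (xb T0.l0 T0.l0))))) (xa (xb (xa T0.l0 T0.l0) (xa (xc T0.l0 T0.l0) (xc T0.l0 T0.l0))) (xb (xa T0.l0 (xc T0.l0 (xb T0.l0 T0.l0))) (xa (xc T0.l0 (xb T0.l0 T0.l0)) (xc (xb T0.l0 T0.l0) (xb (xs T0.l0 T0.l0) (xs T0.l0 T0.l0))))))))) = true := by decide +kernel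
theorem c0_9_1 : chkTag sI cl4 cl4 cl6 t2 b0_9 (tg true false false RT.r3) (I.pos (nat_lit 0) (nat_lit 0))
  (xb (xa (xb (xc T2.l1 T2.l1) (xc T2.l1 T2.l1)) (xb (xc (xa T2.l1 T2.l1) (xa T2.l1 T2.l1)) (xc T2.l1 (xa T2.l1 T2.l1)))) (xa (xb (xc (xa T2.l1 T2.l1) T2.l1) (xc (xa T2.l1 T2.l1) (xa T2.l1 T2.l1))) (xb (xc (xa T2.l1 T2.l1) (xa T2.l1 T2.l1)) (xc (xa T2.l1 (xb T2.l1 T2.l1)) (xa T2.l1 (xb T2.l1 T2.l1)))))) = true := by decide +kernel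
theorem c0_9_2 : chkTag sI cl4 cl4 cl6 t0 b0_9 (tg true true true RT.r4) (I.pos (nat_lit 0) (nat_lit 0))
  (xc (xb (xa T0.l1 (xc (xb T0.l1 T0.l1) (xb T0.l1 T0.l1))) (xa (xb T0.l1 (xc T0.l1 T0.l1)) (xc (xb T0.l1 (xa T0.l1 T0.l1)) (xb T0.l1 (xa T0.l1 T0.l1))))) (xb (xa T0.l1 (xc (xb T0.l1 T0.l1) (xb T0.l1 T0.l1))) (xa T0.l1 (xb (xc T0.l1 T0.l1) (xc (xa T0.l1 T0.l1) (xa T0.l1 T0.l1)))))) = true := by decide +kernel
theorem c0_9_3 : chkTag sI cl4 cl4 cl6 t2 b0_9 (tg false false false RT.r3) (I.pos (nat_lit 0) (nat_lit 0))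
  (xb (xa (xb (xc (xa T2.l2 T2.l2) (xa T2.l2 T2.l2)) (xc T2.l2 T2.l2)) (xb (xc (xa (xb T2.l2 T2.l2) (xb (xc T2.l2 T2.l2) T2.l2)) (xa (xb T2.l2 T2.l2) (xb (xc T2.l2 (xa T2.l2 T2.l2)) (xc T2.l2 T2.l2)))) (xc (xa T2.l2 (xb T2.l2 (xc T2.l2 T2.l2))) (xa T2.l2 (xb T2.l2 T2.l2))))) (xa (xb (xc T2.l2 T2.l2) (xc (xa T2.l2 T2.l2) (xa T2.l2 T2.l2))) (xb (xc (xa T2.l2 (xb (xc T2.l2 T2.l2) (xc T2.l2 T2.l2))) (xa T2.l2 (xb T2.l2 (xc T2.l2 T2.l2)))) (xc (xa (xb T2.l2 T2.l2) (xb (xc T2.l2 T2.l2) (xc (xa T2.l2 T2.l2) (xa T2.l2 T2.l2)))) (xa (xb T2.l2 (xc T2.l2 T2.l2)) (xb (xc T2.l2 T2.l2) (xc (xa T2.l2 T2.l2) (xa T2.l2 T2.l2)))))))) = true := by decide +kernel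
theorem c0_9_4 : chkTag sI cl4 cl4 cl6 t0 b0_9 (tg false true false RT.r4) (I.pos (nat_lit 0) (nat_lit 0))
  (xb (xc (xa (xb T0.l2 T0.l2) (xc (xb T0.l2 T0.l2) (xb T0.l2 T0.l2))) (xa T0.l2 (xc (xb T0.l2 T0.l2) (xb T0.l2 T0.l2)))) (xc (xa (xb T0.l2 (xc T0.l2 T0.l2)) (xb (xc T0.l2 T0.l2) (xc (xa T0.l2 T0.l2) (xa T0.l2 T0.l2)))) (xa T0.l2 (xb (xc T0.l2 T0.l2) (xc (xa T0.l2 T0.l2) (xa T0.l2 T0.l2)))))) = true := by decide +kernel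
theorem c0_9_5 : chkTag sI cl4 cl4 cl6 t2 b0_9 (tg false false true RT.r5) (I.pos (nat_lit 0) (nat_lit 0))
  (xb (xa (xb (xc T2.l3 T2.l3) (xc T2.l3 T2.l3)) (xb (xc (xa T2.l3 T2.l3) (xa T2.l3 T2.l3)) (xc T2.l3 (xa T2.l3 T2.l3)))) (xa (xb (xc (xa T2.l3 T2.l3) T2.l3) (xc (xa T2.l3 T2.l3) (xa T2.l3 T2.l3))) (xb (xc (xa T2.l3 T2.l3) (xa T2.l3 T2.l3)) (xc (xa T2.l3 (xb T2.l3 T2.l3)) (xa T2.l3 (xb T2.l3 T2.l3)))))) = true := by decide +kernel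
theorem bx0_9 : BoxOK sI cl4 cl4 cl6 t0 t2 b0_9 :=
  box_mk' [(tg true true false RT.r2), (tg true false false RT.r3), (tg true true true RT.r4), (tg false false false RT.r3), (tg false true false RT.r4), (tg false false true RT.r5)] rfl (allL_c (ex_mk c0_9_0) (allL_c (ex_mk c0_9_1) (allL_c (ex_mk c0_9_2) (allL_c (ex_mk c0_9_3) (allL_c (ex_mk c0_9_4) (allL_c (ex_mk c0_9_5) allL_n))))))
theorem bx0_10 : BoxOK sI cl4 cl4 cl6 t0 t2 b0_10 :=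
  box_mk (TrL.c (I.pos (nat_lit 0) (nat_lit 0)) (xb (xa (xb (xa (xb T0.l4 T0.l4) T0.l4) (xa (xb T0.l4 T0.l4) T0.l4)) (xb T0.l4 T0.l4)) (xa (xb T0.l4 (xa (xb T0.l4 (xa T0.l4 T0.l4)) (xb T0.l4 T0.l4))) (xb (xa T0.l4 T0.l4) (xa (xb T0.l4 T0.l4) (xb T0.l4 T0.l4)))))
  (TrL.c (I.pos (nat_lit 0) (nat_lit 0)) T2.l4
  (TrL.c (I.pos (nat_lit 0) (nat_lit 0)) T0.l1
  (TrL.c (I.pos (nat_lit 0) (nat_lit 0)) T2.l2
  (TrL.c (I.pos (nat_lit 0) (nat_lit 0)) (xb T0.l5 T0.l10)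
  (TrL.c (I.pos (nat_lit 0) (nat_lit 0)) (xb T2.l3 T2.l3)
  TrL.n)))))) (by decide +kernel)
theorem sv0 : StarV sI cl4 cl4 cl6 t0 t2 t0 :=
  (bt_n (bt_n (bt_n (bt_b bx0_0) (bt_b bx0_1)) (bt_n (bt_b bx0_2) (bt_n (bt_b bx0_3) (bt_b bx0_4)))) (bt_n (bt_n (bt_b bx0_5) (bt_n (bt_b bx0_6) (bt_b bx0_7))) (bt_n (bt_b bx0_8) (bt_n (bt_b bx0_9) (bt_b bx0_10)))))
def S0 : StarD := StarD.mk cl4 cl4 cl6 0 2 t0
theorem bx1_0 : BoxOK sI cl4 cl6 cl4 t2 t0 b1_0 :=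
  box_mk (TrL.c (I.pos (nat_lit 0) (nat_lit 0)) (xa (xb (xa (xb T2.l0 T2.l0) (xb T2.l0 T2.l0)) (xa (xb (xa T2.l0 T2.l0) (xa (xb T2.l0 (xa T2.l0 T2.l0)) (xb T2.l0 (xa T2.l0 T2.l0)))) (xb (xa T2.l0 T2.l0) (xa (xb T2.l0 (xa T2.l0 T2.l0)) (xb T2.l0 (xa T2.l0 T2.l0)))))) (xb (xa T2.l0 (xb T2.l0 T2.l0)) (xa (xb T2.l0 (xa (xb T2.l0 (xa T2.l0 T2.l0)) (xb T2.l0 (xa T2.l0 T2.l0)))) (xb T2.l0 (xa (xb T2.l0 T2.l0) (xb T2.l0 T2.l0))))))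
  (TrL.c (I.pos (nat_lit 0) (nat_lit 0)) (xa (xb T0.l6 (xa (xb T0.l6 T0.l6) T0.l6)) (xb T0.l6 (xa T0.l6 (xb T0.l6 (xc T0.l6 (xa T0.l6 T0.l6))))))
  (TrL.c (I.pos (nat_lit 0) (nat_lit 0)) (xa T2.l5 T2.l5)
  (TrL.c (I.pos (nat_lit 0) (nat_lit 0)) (xa T0.l7 (xb T0.l7 T0.l7))
  (TrL.c (I.pos (nat_lit 0) (nat_lit 0)) (xa (xb (xc T2.l6 T2.l6) (xc T2.l6 (xa T2.l6 T2.l6))) T2.l6)
  (TrL.c (I.pos (nat_lit 0) (nat_lit 0)) (xa (xb T0.l8 (xa (xb T0.l8 T0.l8) T0.l8)) (xb T0.l8 (xa T0.l8 (xb T0.l8 (xc T0.l8 (xa T0.l8 T0.l8))))))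
  TrL.n)))))) (by decide +kernel)
theorem bx1_1 : BoxOK sI cl4 cl6 cl4 t2 t0 b1_1 :=
  box_mk (TrL.c (I.pos (nat_lit 0) (nat_lit 0)) (xa (xb (xa (xb T2.l8 T2.l8) T2.l0) T2.l0) T2.l0)
  (TrL.c (I.pos (nat_lit 0) (nat_lit 0)) (xa T0.l6 T0.l6)
  (TrL.c (I.pos (nat_lit 0) (nat_lit 0)) T2.l5
  (TrL.c (I.pos (nat_lit 0) (nat_lit 0)) (xa (xb (xa T0.l7 T0.l7) T0.l7) T0.l7)
  (TrL.c (I.pos (nat_lit 0) (nat_lit 0)) (xa T2.l7 (xb T2.l7 T2.l7))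
  (TrL.c (I.pos (nat_lit 0) (nat_lit 0)) T0.l8
  TrL.n)))))) (by decide +kernel)
theorem bx1_2 : BoxOK sI cl4 cl6 cl4 t2 t0 b1_2 :=
  box_mk (TrL.c (I.pos (nat_lit 0) (nat_lit 0)) (xa (xa (xb (xa (xb T2.l8 T2.l8) T2.l8) (xa (xb T2.l8 (xa T2.l8 T2.l8)) (xb T2.l8 T2.l8))) (xb T2.l8 (xa (xb T2.l8 T2.l8) T2.l8))) (xa (xb T2.l8 T2.l8) (xb T2.l8 (xa T2.l8 (xb T2.l8 T2.l8)))))
  (TrL.c (I.pos (nat_lit 0) (nat_lit 0)) (xa (xa T0.l6 T0.l6) T0.l6)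
  (TrL.c (I.pos (nat_lit 0) (nat_lit 0)) (xa T2.l7 T2.l5)
  (TrL.c (I.pos (nat_lit 0) (nat_lit 0)) (xa (xa T0.l7 T0.l7) T0.l7)
  (TrL.c (I.pos (nat_lit 0) (nat_lit 0)) T2.l7
  (TrL.c (I.pos (nat_lit 0) (nat_lit 0)) T0.l8
  TrL.n)))))) (by decide +kernel)
theorem bx1_3 : BoxOK sI cl4 cl6 cl4 t2 t0 b1_3 :=
  box_mk (TrL.c (I.pos (nat_lit 0) (nat_lit 0)) (xa (xb (xa (xb T2.l8 T2.l8) T2.l8) T2.l8) T2.l8)
  (TrL.c (I.pos (nat_lit 0) (nat_lit 0)) (xa T0.l7 (xb T0.l6 T0.l6))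
  (TrL.c (I.pos (nat_lit 0) (nat_lit 0)) T2.l7
  (TrL.c (I.pos (nat_lit 0) (nat_lit 0)) (xa T0.l6 (xb T0.l7 T0.l7))
  (TrL.c (I.pos (nat_lit 0) (nat_lit 0)) T2.l7
  (TrL.c (I.pos (nat_lit 0) (nat_lit 0)) (xa T0.l8 T0.l8)
  TrL.n)))))) (by decide +kernel)
theorem bx1_4 : BoxOK sI cl4 cl6 cl4 t2 t0 b1_4 :=
  box_mk (TrL.c (I.pos (nat_lit 0) (nat_lit 0)) (xb (xa (xb (xa (xb T2.l9 T2.l9) T2.l9) (xa (xb T2.l9 (xa T2.l9 T2.l9)) (xb T2.l9 T2.l9))) (xb (xa T2.l9 (xb T2.l9 T2.l9)) (xa T2.l9 (xb T2.l9 T2.l9)))) (xa (xb (xa (xb (xa T2.l9 T2.l9) (xa T2.l9 T2.l9)) (xb T2.l9 T2.l9)) (xa (xb (xa T2.l9 T2.l9) (xa T2.l9 T2.l9)) (xb T2.l9 (xa T2.l9 T2.l9)))) (xb (xa (xb T2.l9 T2.l9) (xb (xa T2.l9 T2.l9) (xa T2.l9 T2.l9))) (xa (xb T2.l9 (xa T2.l9 T2.l9)) (xb (xa T2.l9 T2.l9) (xa T2.l9 (xs T2.l9 T2.l9)))))))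
  (TrL.c (I.pos (nat_lit 0) (nat_lit 0)) (xb (xa (xb T0.l6 T0.l6) (xb T0.l6 T0.l6)) (xa (xb (xa T0.l6 T0.l6) (xa T0.l6 T0.l6)) (xb T0.l6 (xa T0.l6 T0.l6))))
  (TrL.c (I.pos (nat_lit 0) (nat_lit 0)) (xb (xa T2.l5 T2.l5) (xa T2.l5 (xc T2.l5 T2.l5)))
  (TrL.c (I.pos (nat_lit 0) (nat_lit 0)) (xb (xa T0.l7 T0.l7) (xa T0.l7 T0.l7))
  (TrL.c (I.pos (nat_lit 0) (nat_lit 0)) (xb (xa T2.l10 T2.l10) (xa T2.l10 (xc T2.l10 T2.l10)))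
  (TrL.c (I.pos (nat_lit 0) (nat_lit 0)) (xb (xa (xb T0.l8 T0.l8) (xb T0.l8 T0.l8)) (xa (xb (xa T0.l8 T0.l8) (xa T0.l8 T0.l8)) (xb T0.l8 (xa T0.l8 T0.l8))))
  TrL.n)))))) (by decide +kernel)
theorem bx1_5 : BoxOK sI cl4 cl6 cl4 t2 t0 b1_5 :=
  box_mk (TrL.c (I.pos (nat_lit 0) (nat_lit 0)) (xb (xa (xb T2.l8 T2.l8) T2.l0) (xb (xa T2.l8 T2.l8) (xa (xa T2.l8 T2.l8) T2.l8)))
  (TrL.c (I.pos (nat_lit 0) (nat_lit 0)) T0.l6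
  (TrL.c (I.pos (nat_lit 0) (nat_lit 0)) T2.l5
  (TrL.c (I.pos (nat_lit 0) (nat_lit 0)) (xb (xb (xa T0.l7 T0.l7) T0.l7) T0.l7)
  (TrL.c (I.pos (nat_lit 0) (nat_lit 0)) (xb T2.l7 T2.l7)
  (TrL.c (I.pos (nat_lit 0) (nat_lit 0)) T0.l8
  TrL.n)))))) (by decide +kernel)
theorem bx1_6 : BoxOK sI cl4 cl6 cl4 t2 t0 b1_6 :=
  box_mk (TrL.c (I.pos (nat_lit 0) (nat_lit 0)) (xa (xb (xa (xa T2.l8 T2.l8) T2.l8) (xa (xa (xb T2.l8 (xa (xb T2.l8 T2.l8) T2.l8)) (xb T2.l8 T2.l8)) (xa (xb T2.l8 T2.l8) T2.l8))) (xa (xb T2.l8 T2.l8) (xb T2.l8 T2.l8)))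
  (TrL.c (I.pos (nat_lit 0) (nat_lit 0)) (xa (xb T0.l7 (xa T0.l7 T0.l6)) T0.l6)
  (TrL.c (I.pos (nat_lit 0) (nat_lit 0)) (xa T2.l7 T2.l5)
  (TrL.c (I.pos (nat_lit 0) (nat_lit 0)) (xa (xb T0.l6 (xa T0.l6 T0.l7)) T0.l7)
  (TrL.c (I.pos (nat_lit 0) (nat_lit 0)) (xa T2.l7 T2.l7)
  (TrL.c (I.pos (nat_lit 0) (nat_lit 0)) (xa (xb T0.l8 T0.l8) T0.l8)
  TrL.n)))))) (by decide +kernel)
theorem bx1_7 : BoxOK sI cl4 cl6 cl4 t2 t0 b1_7 :=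
  box_mk (TrL.c (I.pos (nat_lit 0) (nat_lit 0)) (xa (xb (xa (xb (xa T2.l8 T2.l8) T2.l8) T2.l8) (xa T2.l8 T2.l8)) T2.l8)
  (TrL.c (I.pos (nat_lit 0) (nat_lit 0)) T0.l7
  (TrL.c (I.pos (nat_lit 0) (nat_lit 0)) T2.l7
  (TrL.c (I.pos (nat_lit 0) (nat_lit 0)) (xa T0.l6 T0.l6)
  (TrL.c (I.pos (nat_lit 0) (nat_lit 0)) T2.l7
  (TrL.c (I.pos (nat_lit 0) (nat_lit 0)) (xa T0.l8 T0.l8)
  TrL.n)))))) (by decide +kernel)
theorem c1_8_0 : chkTag sI cl4 cl6 cl4 t2 b1_8 (tg true true false RT.r2) (I.pos (nat_lit 0) (nat_lit 0))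
  (xb (xa (xb (xa (xb (xa T2.l0 T2.l0) (xa T2.l0 T2.l0)) (xb (xb T2.l0 T2.l0) T2.l2)) (xa (xb (xa T2.l0 T2.l0) (xa (xc T2.l0 T2.l0) T2.l0)) (xb (xa T2.l0 T2.l0) (xa T2.l0 T2.l0)))) (xb (xa (xb T2.l0 T2.l0) (xb T2.l2 (xb T2.l2 T2.l2))) (xa T2.l2 T2.l2))) (xa (xb (xa (xb (xa (xc T2.l0 T2.l0) (xc T2.l0 T2.l0)) (xa (xc T2.l0 T2.l0) (xc T2.l0 T2.l0))) (xb (xa T2.l0 T2.l0) (xa T2.l0 (xc T2.l0 T2.l0)))) (xa (xb (xa (xc T2.l0 T2.l0) (xc T2.l0 T2.l0)) (xa (xc (xb T2.l0 T2.l0) (xb T2.l0 T2.l0)) (xc (xb T2.l0 T2.l0) (xb T2.l0 T2.l0)))) (xb (xa (xc T2.l0 T2.l0) (xc T2.l0 T2.l0)) (xa (xc (xb T2.l0 T2.l0) (xs T2.l0 T2.l0)) (xc (xb T2.l0 T2.l0) (xs T2.l0 T2.l0)))))) (xb (xa (xb T2.l2 (xa T2.l2 T2.l2)) (xb T2.l2 (xa T2.l2 T2.l2))) (xa (xb (xa (xc T2.l0 T2.l0) (xc T2.l2 T2.l0)) (xa (xc T2.l2 T2.l0) (xc T2.l2 (xs T2.l0 T2.l0)))) (xb (xa (xc T2.l2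 T2.l0) (xc T2.l2 (xs T2.l0 T2.l0))) (xa (xc T2.l2 (xs T2.l0 T2.l0)) (xc T2.l2 (xs T2.l0 T2.l0)))))))) = true := by decide +kernel
theorem c1_8_1 : chkTag sI cl4 cl6 cl4 t0 b1_8 (tg true false false RT.r3) (I.pos (nat_lit 0) (nat_lit 0))
  (xb (xa (xb (xa T0.l6 T0.l6) (xa T0.l6 T0.l6)) (xb (xa T0.l6 (xc T0.l6 T0.l6)) (xa (xc T0.l6 T0.l6) (xc T0.l6 T0.l6)))) (xa (xb (xa (xc T0.l6 T0.l6) (xc T0.l6 T0.l6)) (xc (xa T0.l6 T0.l6) (xa T0.l6 T0.l6))) (xb (xa (xc T0.l6 T0.l6) (xc T0.l6 T0.l6)) (xa (xc T0.l6 T0.l6) (xc (xb T0.l6 T0.l6) (xb T0.l6 T0.l6)))))) = true := by decide +kernel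
theorem c1_8_2 : chkTag sI cl4 cl6 cl4 t2 b1_8 (tg true true true RT.r4) (I.pos (nat_lit 0) (nat_lit 0))
  (xc (xa (xb T2.l3 (xc (xb T2.l5 T2.l5) T2.l5)) T2.l3) (xa (xb T2.l5 T2.l5) (xb T2.l3 (xa T2.l5 T2.l3)))) = true := by decide +kernel
theorem c1_8_3 : chkTag sI cl4 cl6 cl4 t0 b1_8 (tg false false false RT.r3) (I.pos (nat_lit 0) (nat_lit 0))
  (xb (xa (xb T0.l7 T0.l7) (xb (xc (xa T0.l7 T0.l7) (xa T0.l7 (xb T0.l7 T0.l7))) (xc (xa T0.l7 T0.l7) (xa T0.l7 (xb T0.l7 T0.l7))))) (xa (xb T0.l7 T0.l7) (xb (xc (xa T0.l7 T0.l7) (xa T0.l7 T0.l7)) (xc (xa T0.l7 T0.l7) (xa T0.l7 (xb T0.l7 T0.l7)))))) = true := by decide +kernel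
theorem c1_8_4 : chkTag sI cl4 cl6 cl4 t2 b1_8 (tg false true false RT.r4) (I.pos (nat_lit 0) (nat_lit 0))
  (xa (xc (xb T2.l1 (xb T2.l6 T2.l6)) (xb T2.l1 T2.l6)) (xc T2.l1 (xb T2.l1 (xa T2.l6 T2.l1)))) = true := by decide +kernel
theorem c1_8_5 : chkTag sI cl4 cl6 cl4 t0 b1_8 (tg false false true RT.r5) (I.pos (nat_lit 0) (nat_lit 0))
  (xb (xa (xb (xa T0.l8 T0.l8) (xa T0.l8 T0.l8)) (xb (xa T0.l8 (xc T0.l8 T0.l8)) (xa (xc T0.l8 T0.l8) (xc T0.l8 T0.l8)))) (xa (xb (xa (xc T0.l8 T0.l8) (xc T0.l8 T0.l8)) (xc (xa T0.l8 T0.l8) (xa T0.l8 T0.l8))) (xb (xa (xc T0.l8 T0.l8) (xc T0.l8 T0.l8)) (xa (xc T0.l8 T0.l8) (xc (xb T0.l8 T0.l8) (xb T0.l8 T0.l8)))))) = true := by decide +kernel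
theorem bx1_8 : BoxOK sI cl4 cl6 cl4 t2 t0 b1_8 :=
  box_mk' [(tg true true false RT.r2), (tg true false false RT.r3), (tg true true true RT.r4), (tg false false false RT.r3), (tg false true false RT.r4), (tg false false true RT.r5)] rfl (allL_c (ex_mk c1_8_0) (allL_c (ex_mk c1_8_1) (allL_c (ex_mk c1_8_2) (allL_c (ex_mk c1_8_3) (allL_c (ex_mk c1_8_4) (allL_c (ex_mk c1_8_5) allL_n))))))
theorem bx1_9 : BoxOK sI cl4 cl6 cl4 t2 t0 b1_9 :=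
  box_mk (TrL.c (I.pos (nat_lit 0) (nat_lit 0)) (xb (xa (xb (xa T2.l9 T2.l9) (xa T2.l9 T2.l9)) (xb (xa T2.l9 T2.l9) (xa T2.l9 T2.l9))) (xa (xb (xa T2.l9 T2.l9) (xa (xb T2.l9 T2.l9) T2.l9)) (xb (xa T2.l9 T2.l9) (xa T2.l9 T2.l9))))
  (TrL.c (I.pos (nat_lit 0) (nat_lit 0)) (xb (xa T0.l6 T0.l6) (xa T0.l6 T0.l6))
  (TrL.c (I.pos (nat_lit 0) (nat_lit 0)) (xb (xa T2.l5 T2.l5) T2.l5)
  (TrL.c (I.pos (nat_lit 0) (nat_lit 0)) (xb (xa (xb T0.l7 T0.l7) (xb (xa T0.l7 T0.l7) T0.l7)) T0.l7)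
  (TrL.c (I.pos (nat_lit 0) (nat_lit 0)) (xb (xa T2.l10 T2.l10) T2.l10)
  (TrL.c (I.pos (nat_lit 0) (nat_lit 0)) (xb (xa T0.l8 T0.l8) (xa T0.l8 T0.l8))
  TrL.n)))))) (by decide +kernel)
theorem bx1_10 : BoxOK sI cl4 cl6 cl4 t2 t0 b1_10 :=
  box_mk (TrL.c (I.pos (nat_lit 0) (nat_lit 0)) T2.l0
  (TrL.c (I.pos (nat_lit 0) (nat_lit 0)) T0.l6
  (TrL.c (I.pos (nat_lit 0) (nat_lit 0)) T2.l5
  (TrL.c (I.pos (nat_lit 0) (nat_lit 0)) T0.l7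
  (TrL.c (I.pos (nat_lit 0) (nat_lit 0)) T2.l7
  (TrL.c (I.pos (nat_lit 0) (nat_lit 0)) T0.l8
  TrL.n)))))) (by decide +kernel)
theorem bx1_11 : BoxOK sI cl4 cl6 cl4 t2 t0 b1_11 :=
  box_mk (TrL.c (I.pos (nat_lit 0) (nat_lit 0)) T2.l8
  (TrL.c (I.pos (nat_lit 0) (nat_lit 0)) T0.l6
  (TrL.c (I.pos (nat_lit 0) (nat_lit 0)) T2.l5
  (TrL.c (I.pos (nat_lit 0) (nat_lit 0)) T0.l7
  (TrL.c (I.pos (nat_lit 0) (nat_lit 0)) T2.l7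
  (TrL.c (I.pos (nat_lit 0) (nat_lit 0)) T0.l8
  TrL.n)))))) (by decide +kernel)
theorem bx1_12 : BoxOK sI cl4 cl6 cl4 t2 t0 b1_12 :=
  box_mk (TrL.c (I.pos (nat_lit 0) (nat_lit 0)) (xa (xa (xb (xa (xb (xa T2.l8 T2.l8) T2.l8) T2.l8) T2.l8) T2.l8) T2.l8)
  (TrL.c (I.pos (nat_lit 0) (nat_lit 0)) (xa T0.l7 T0.l6)
  (TrL.c (I.pos (nat_lit 0) (nat_lit 0)) T2.l7
  (TrL.c (I.pos (nat_lit 0) (nat_lit 0)) (xa T0.l6 T0.l7)
  (TrL.c (I.pos (nat_lit 0) (nat_lit 0)) T2.l7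
  (TrL.c (I.pos (nat_lit 0) (nat_lit 0)) (xa T0.l8 T0.l8)
  TrL.n)))))) (by decide +kernel)
theorem bx1_13 : BoxOK sI cl4 cl6 cl4 t2 t0 b1_13 :=
  box_mk (TrL.c (I.pos (nat_lit 0) (nat_lit 0)) (xa (xb (xa (xb (xa T2.l8 T2.l8) T2.l8) T2.l8) T2.l8) T2.l8)
  (TrL.c (I.pos (nat_lit 0) (nat_lit 0)) T0.l7
  (TrL.c (I.pos (nat_lit 0) (nat_lit 0)) T2.l7
  (TrL.c (I.pos (nat_lit 0) (nat_lit 0)) T0.l6
  (TrL.c (I.pos (nat_lit 0) (nat_lit 0)) T2.l7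
  (TrL.c (I.pos (nat_lit 0) (nat_lit 0)) T0.l8
  TrL.n)))))) (by decide +kernel)
theorem bx1_14 : BoxOK sI cl4 cl6 cl4 t2 t0 b1_14 :=
  box_mk (TrL.c (I.pos (nat_lit 0) (nat_lit 0)) (xa (xb T2.l2 (xa T2.l0 T2.l2)) T2.l2)
  (TrL.c (I.pos (nat_lit 0) (nat_lit 0)) (xa (xb T0.l6 T0.l6) (xb (xa T0.l6 T0.l6) (xa T0.l6 T0.l6)))
  (TrL.c (I.pos (nat_lit 0) (nat_lit 0)) T2.l3
  (TrL.c (I.pos (nat_lit 0) (nat_lit 0)) (xa T0.l0 (xb T0.l0 T0.l0))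
  (TrL.c (I.pos (nat_lit 0) (nat_lit 0)) T2.l1
  (TrL.c (I.pos (nat_lit 0) (nat_lit 0)) (xa (xb T0.l8 T0.l8) (xb (xa T0.l8 T0.l8) (xa T0.l8 T0.l8)))
  TrL.n)))))) (by decide +kernel)
theorem bx1_15 : BoxOK sI cl4 cl6 cl4 t2 t0 b1_15 :=
  box_mk (TrL.c (I.pos (nat_lit 0) (nat_lit 0)) T2.l0
  (TrL.c (I.pos (nat_lit 0) (nat_lit 0)) T0.l6
  (TrL.c (I.pos (nat_lit 0) (nat_lit 0)) T2.l5
  (TrL.c (I.pos (nat_lit 0) (nat_lit 0)) T0.l7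
  (TrL.c (I.pos (nat_lit 0) (nat_lit 0)) T2.l10
  (TrL.c (I.pos (nat_lit 0) (nat_lit 0)) T0.l8
  TrL.n)))))) (by decide +kernel)
theorem sv1 : StarV sI cl4 cl6 cl4 t2 t0 t1 :=
  (bt_n (bt_n (bt_n (bt_n (bt_b bx1_0) (bt_b bx1_1)) (bt_n (bt_b bx1_2) (bt_b bx1_3))) (bt_n (bt_n (bt_b bx1_4) (bt_b bx1_5)) (bt_n (bt_b bx1_6) (bt_b bx1_7)))) (bt_n (bt_n (bt_n (bt_b bx1_8) (bt_b bx1_9)) (bt_n (bt_b bx1_10) (bt_b bx1_11))) (bt_n (bt_n (bt_b bx1_12) (bt_b bx1_13)) (bt_n (bt_b bx1_14) (bt_b bx1_15)))))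
def S1 : StarD := StarD.mk cl4 cl6 cl4 2 0 t1
theorem c2_0_0 : chkTag sI cl6 cl4 cl4 t1 b2_0 (tg true true false RT.r2) (I.pos (nat_lit 0) (nat_lit 0))
  (xa (xb (xa T1.l8 (xb (xa T1.l8 T1.l8) (xa T1.l8 T1.l8))) (xa (xb (xa T1.l8 T1.l8) (xa (xb T1.l8 (xc T1.l8 (xa T1.l0 T1.l0))) (xb T1.l8 (xc T1.l8 (xa T1.l0 T1.l0))))) (xb (xa T1.l8 (xb T1.l0 T1.l8)) (xa (xb T1.l8 (xc T1.l0 (xa T1.l0 T1.l0))) (xb (xc T1.l0 T1.l0) (xc T1.l0 (xa T1.l0 T1.l0))))))) (xb (xa (xb (xa T1.l0 T1.l0) (xa T1.l0 T1.l0)) (xb T1.l0 (xa T1.l0 T1.l0))) (xa (xb (xa (xb T1.l0 T1.l0) (xb T1.l0 T1.l0)) (xa (xb T1.l0 (xc T1.l0 (xa T1.l0 T1.l0))) (xb (xc T1.l0 T1.l0) (xc T1.l0 (xa T1.l0 T1.l0))))) (xb (xa (xb T1.l0 T1.l0) (xb T1.l0 T1.l0)) (xa (xb (xc T1.l0 T1.l0) (xc T1.l0 (xa T1.l0 T1.l0))) (xb (xc T1.l0 T1.l0) (xc T1.l0 (xa T1.l0 T1.l0)))))))) = true := by decide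 +kernel
theorem c2_0_1 : chkTag sI cl6 cl4 cl4 t1 b2_0 (tg true false false RT.r3) (I.pos (nat_lit 0) (nat_lit 0))
  (xa (xb T1.l1 (xa T1.l1 T1.l1)) (xb T1.l1 (xa T1.l1 T1.l1))) = true := by decide +kernel
theorem c2_0_2 : chkTag sI cl6 cl4 cl4 t1 b2_0 (Tag.mk true true false RT.tl RT.r4) (I.pos (nat_lit 0) (nat_lit 89480386))
  (xR (xR T1.l2 (xR T1.l2 T1.l2)) (xR (xR T1.l2 T1.l2) (xa (xb T1.l2 T1.l2) (xR T1.l2 (xb T1.l2 (xa T1.l2 T1.l2)))))) = true := by decide +kernel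
theorem c2_0_3 : chkTag sI cl6 cl4 cl4 t1 b2_0 (Tag.mk true false false RT.tl RT.r5) (I.pos (nat_lit 0) (nat_lit 41530880))
  (xR T1.l3 (xR T1.l3 (xa T1.l3 T1.l3))) = true := by decide +kernel
theorem c2_0_4 : chkTag sI cl6 cl4 cl4 t1 b2_0 (tg false false false RT.r3) (I.pos (nat_lit 0) (nat_lit 0))
  (xa (xb T1.l9 T1.l4) (xb (xa T1.l4 T1.l4) (xa T1.l4 T1.l4))) = true := by decide +kernel
theorem c2_0_5 : chkTag sI cl6 cl4 cl4 t1 b2_0 (tg false true false RT.r4) (I.pos (nat_lit 0) (nat_lit 0))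
  (xa T1.l5 (xb T1.l5 T1.l5)) = true := by decide +kernel
theorem c2_0_6 : chkTag sI cl6 cl4 cl4 t1 b2_0 (Tag.mk false false false RT.tl RT.r5) (I.mix (nat_lit 41527258) (nat_lit 41530880))
  (xR (xR (xR T1.l6 T1.l2) T1.l2) (xR T1.l6 (xR T1.l6 (xb T1.l6 (xa T1.l6 T1.l6))))) = true := by decide +kernel
theorem c2_0_7 : chkTag sI cl6 cl4 cl4 t1 b2_0 (Tag.mk false true false RT.tl RT.r6) (I.mix (nat_lit 41527258) (nat_lit 4274))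
  (xR (xR (xa T1.l7 T1.l7) T1.l7) (xR T1.l7 T1.l7)) = true := by decide +kernel
theorem bx2_0 : BoxOK sI cl6 cl4 cl4 t1 t1 b2_0 :=
  box_mk' [(tg true true false RT.r2), (tg true false false RT.r3), (Tag.mk true true false RT.tl RT.r4), (Tag.mk true false false RT.tl RT.r5), (tg false false false RT.r3), (tg false true false RT.r4), (Tag.mk false false false RT.tl RT.r5), (Tag.mk false true false RT.tl RT.r6)] rfl (allL_c (ex_mk c2_0_0) (allL_c (ex_mk c2_0_1) (allL_c (ex_mk c2_0_2) (allL_c (ex_mk c2_0_3) (allL_c (ex_mk c2_0_4) (allL_c (ex_mk c2_0_5) (allL_c (ex_mk c2_0_6) (allL_c (ex_mk c2_0_7) allL_n))))))))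
theorem bx2_1 : BoxOK sI cl6 cl4 cl4 t1 t1 b2_1 :=
  box_mk (TrL.c (I.pos (nat_lit 0) (nat_lit 0)) (xb (xa (xb (xa (xb (xa (xc (xb T1.l8 T1.l8) (xb T1.l8 T1.l8)) T1.l8) T1.l8) (xb T1.l8 T1.l8)) (xa T1.l8 T1.l8)) (xb (xa T1.l8 T1.l8) T1.l8)) (xa (xb T1.l8 (xa (xb T1.l8 T1.l8) T1.l8)) (xb T1.l8 T1.l8)))
  (TrL.c (I.pos (nat_lit 0) (nat_lit 0)) (xb (xa T1.l1 T1.l10) (xa T1.l1 T1.l1))
  (TrL.c (I.pos (nat_lit 0) (nat_lit 89480386)) (xR (xR (xb (xR T1.l2 T1.l2) T1.l2) (xR T1.l2 T1.l2)) (xR (xb T1.l2 T1.l2) (xb (xa (xR T1.l2 T1.l2) (xR T1.l2 T1.l2)) T1.l2)))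
  (TrL.c (I.pos (nat_lit 0) (nat_lit 41530880)) (xR (xb T1.l2 T1.l3) (xb (xR T1.l7 T1.l6) T1.l3))
  (TrL.c (I.pos (nat_lit 0) (nat_lit 0)) (xb (xa (xb T1.l9 T1.l9) (xb T1.l9 T1.l9)) T1.l9)
  (TrL.c (I.pos (nat_lit 0) (nat_lit 0)) (xb T1.l5 T1.l5)
  (TrL.c (I.mix (nat_lit 41527258) (nat_lit 41530880)) (xR (xR (xR (xb T1.l6 T1.l6) T1.l2) T1.l2) (xR T1.l6 (xb (xR T1.l6 T1.l6) T1.l6)))
  (TrL.c (I.mix (nat_lit 41527258) (nat_lit 4274)) (xR (xR (xb T1.l7 T1.l7) (xb T1.l2 T1.l7)) (xb T1.l2 T1.l7))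
  TrL.n)))))))) (by decide +kernel)
theorem bx2_2 : BoxOK sI cl6 cl4 cl4 t1 t1 b2_2 :=
  box_mk (TrL.c (I.pos (nat_lit 0) (nat_lit 0)) (xb (xa (xb (xa (xb (xb T1.l8 T1.l8) T1.l8) (xb T1.l8 T1.l8)) (xa (xb T1.l8 T1.l8) T1.l8)) (xb (xa (xb T1.l8 T1.l8) (xb T1.l8 T1.l8)) (xa T1.l8 (xb T1.l8 T1.l8)))) (xa (xb (xa (xb T1.l8 (xc T1.l8 T1.l8)) (xb T1.l8 T1.l8)) (xa (xb (xc T1.l8 T1.l8) (xa (xc T1.l8 T1.l8) (xc T1.l8 T1.l8))) (xb (xa T1.l8 T1.l8) (xa (xc T1.l8 T1.l8) (xc T1.l8 T1.l8))))) (xb (xa (xb T1.l8 T1.l8) (xb T1.l8 T1.l8)) (xa (xb T1.l8 (xa (xc T1.l8 T1.l8) (xc T1.l8 T1.l8))) (xb (xa T1.l8 T1.l8) (xa (xc T1.l8 T1.l8) (xc T1.l8 (xb T1.l8 T1.l8))))))))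
  (TrL.c (I.pos (nat_lit 0) (nat_lit 0)) (xb (xb (xa T1.l1 T1.l1) (xa T1.l1 T1.l1)) (xa (xb T1.l1 T1.l1) (xb T1.l1 T1.l1)))
  (TrL.c (I.pos (nat_lit 0) (nat_lit 89480386)) (xR (xR T1.l2 (xb (xR T1.l2 T1.l2) T1.l2)) (xR (xb T1.l2 (xR T1.l2 T1.l2)) (xb (xR T1.l2 (xa T1.l2 T1.l2)) (xR (xa T1.l2 T1.l2) (xa T1.l2 (xb T1.l2 T1.l2))))))
  (TrL.c (I.pos (nat_lit 0) (nat_lit 41530880)) (xR T1.l3 (xb (xR T1.l3 T1.l3) (xR T1.l3 T1.l3)))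
  (TrL.c (I.pos (nat_lit 0) (nat_lit 0)) (xb (xa T1.l9 (xb T1.l9 T1.l9)) (xa T1.l9 (xb T1.l9 T1.l9)))
  (TrL.c (I.pos (nat_lit 0) (nat_lit 0)) (xb T1.l5 T1.l5)
  (TrL.c (I.mix (nat_lit 41527258) (nat_lit 41530880)) (xR (xR (xR (xb T1.l6 T1.l6) T1.l2) T1.l2) (xR T1.l6 (xb T1.l6 (xR T1.l6 T1.l6))))
  (TrL.c (I.mix (nat_lit 41527258) (nat_lit 4274)) (xR (xR (xb T1.l7 T1.l7) (xb T1.l7 T1.l7)) (xb T1.l3 T1.l7))
  TrL.n)))))))) (by decide +kernel)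
theorem bx2_3 : BoxOK sI cl6 cl4 cl4 t1 t1 b2_3 :=
  box_mk (TrL.c (I.pos (nat_lit 0) (nat_lit 0)) (xb (xa T1.l1 T1.l1) (xa T1.l10 T1.l10))
  (TrL.c (I.pos (nat_lit 0) (nat_lit 0)) T1.l11
  (TrL.c (I.mix (nat_lit 41527258) (nat_lit 41530880)) (xR (xR (xb (xR T1.l12 T1.l12) (xR T1.l12 T1.l12)) T1.l6) (xR (xb T1.l3 T1.l2) (xb T1.l3 (xR T1.l7 T1.l6))))
  (TrL.c (I.mix (nat_lit 41527258) (nat_lit 4274)) (xR (xb (xR T1.l13 T1.l13) (xR T1.l13 T1.l13)) T1.l6)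
  TrL.n)))) (by decide +kernel)
theorem bx2_4 : BoxOK sI cl6 cl4 cl4 t1 t1 b2_4 :=
  box_mk (TrL.c (I.pos (nat_lit 0) (nat_lit 0)) T1.l8
  (TrL.c (I.pos (nat_lit 0) (nat_lit 0)) T1.l1
  (TrL.c (I.pos (nat_lit 0) (nat_lit 89480386)) (xR (xR T1.l2 T1.l2) T1.l2)
  (TrL.c (I.pos (nat_lit 0) (nat_lit 41530880)) (xR T1.l3 T1.l3)
  (TrL.c (I.pos (nat_lit 0) (nat_lit 0)) T1.l9
  (TrL.c (I.pos (nat_lit 0) (nat_lit 0)) T1.l5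
  (TrL.c (I.mix (nat_lit 41527258) (nat_lit 41530880)) (xR (xR (xR T1.l6 T1.l6) T1.l6) T1.l6)
  (TrL.c (I.mix (nat_lit 41527258) (nat_lit 4274)) (xR T1.l7 T1.l7)
  TrL.n)))))))) (by decide +kernel)
theorem bx2_5 : BoxOK sI cl6 cl4 cl4 t1 t1 b2_5 :=
  box_mk (TrL.c (I.pos (nat_lit 0) (nat_lit 0)) (xb T1.l1 (xa T1.l10 T1.l10))
  (TrL.c (I.pos (nat_lit 0) (nat_lit 0)) T1.l11
  (TrL.c (I.mix (nat_lit 41527258) (nat_lit 41530880)) (xR (xR (xb T1.l12 T1.l12) T1.l12) (xR T1.l12 (xb T1.l12 T1.l2)))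
  (TrL.c (I.mix (nat_lit 41527258) (nat_lit 4274)) (xR (xb T1.l13 T1.l13) T1.l6)
  TrL.n)))) (by decide +kernel)
theorem bx2_6 : BoxOK sI cl6 cl4 cl4 t1 t1 b2_6 :=
  box_mk (TrL.c (I.pos (nat_lit 0) (nat_lit 0)) (xb (xa (xb T1.l14 T1.l8) T1.l8) T1.l8)
  (TrL.c (I.pos (nat_lit 0) (nat_lit 0)) T1.l1
  (TrL.c (I.pos (nat_lit 0) (nat_lit 89480386)) (xR (xR T1.l2 T1.l2) (xR T1.l2 (xR T1.l2 T1.l2)))
  (TrL.c (I.pos (nat_lit 0) (nat_lit 41530880)) (xR T1.l2 T1.l2)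
  (TrL.c (I.pos (nat_lit 0) (nat_lit 0)) T1.l9
  (TrL.c (I.pos (nat_lit 0) (nat_lit 0)) T1.l5
  (TrL.c (I.mix (nat_lit 41527258) (nat_lit 41530880)) (xR (xR T1.l7 T1.l6) T1.l6)
  (TrL.c (I.mix (nat_lit 41527258) (nat_lit 4274)) (xR (xR T1.l7 T1.l7) T1.l7)
  TrL.n)))))))) (by decide +kernel)
theorem bx2_7 : BoxOK sI cl6 cl4 cl4 t1 t1 b2_7 :=
  box_mk (TrL.c (I.pos (nat_lit 0) (nat_lit 0)) (xb (xa (xb (xa T1.l14 T1.l14) T1.l14) T1.l14) (xa (xb T1.l14 (xa T1.l14 T1.l14)) (xa T1.l14 T1.l14)))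
  (TrL.c (I.pos (nat_lit 0) (nat_lit 0)) T1.l1
  (TrL.c (I.pos (nat_lit 0) (nat_lit 89480386)) (xR (xR T1.l2 T1.l2) (xR T1.l2 (xb (xR T1.l2 T1.l11) T1.l2)))
  (TrL.c (I.pos (nat_lit 0) (nat_lit 41530880)) (xR T1.l2 T1.l3)
  (TrL.c (I.pos (nat_lit 0) (nat_lit 0)) (xb T1.l15 T1.l15)
  (TrL.c (I.pos (nat_lit 0) (nat_lit 0)) T1.l5
  (TrL.c (I.mix (nat_lit 41527258) (nat_lit 41530880)) (xR (xR T1.l6 T1.l6) T1.l6)
  (TrL.c (I.mix (nat_lit 41527258) (nat_lit 4274)) (xR T1.l6 T1.l7)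
  TrL.n)))))))) (by decide +kernel)
theorem c2_8_0 : chkTag sI cl6 cl4 cl4 t1 b2_8 (tg true true false RT.r2) (I.pos (nat_lit 0) (nat_lit 0))
  (xa (xb (xa (xb (xc T1.l0 T1.l0) (xc T1.l0 T1.l0)) (xb T1.l0 T1.l4)) (xa (xb (xc (xa T1.l0 T1.l0) T1.l0) (xc (xa (xb T1.l0 T1.l0) T1.l0) (xa T1.l0 T1.l0))) (xb (xc T1.l0 T1.l0) (xc (xa T1.l0 T1.l0) (xa T1.l0 T1.l0))))) (xb (xa T1.l4 (xb (xa T1.l4 T1.l4) (xa T1.l4 T1.l4))) (xa (xb T1.l4 (xa T1.l4 T1.l4)) (xb (xa T1.l4 T1.l4) (xa T1.l4 (xc T1.l4 T1.l4)))))) = true := by decide +kernel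
theorem c2_8_1 : chkTag sI cl6 cl4 cl4 t1 b2_8 (tg true false false RT.r3) (I.pos (nat_lit 0) (nat_lit 0))
  (xa (xb T1.l1 T1.l1) (xb (xa T1.l1 T1.l5) (xa T1.l5 T1.l5))) = true := by decide +kernel
theorem c2_8_2 : chkTag sI cl6 cl4 cl4 t1 b2_8 (Tag.mk true true false RT.tl RT.r4) (I.pos (nat_lit 0) (nat_lit 89480386))
  (xR (xR (xR T1.l6 (xb T1.l2 T1.l2)) (xR (xa T1.l2 T1.l2) (xa T1.l2 T1.l2))) (xR (xa T1.l2 (xR T1.l6 (xb T1.l2 T1.l6))) (xa T1.l2 (xR (xb T1.l2 (xa T1.l2 T1.l2)) (xb T1.l2 (xa T1.l2 (xR T1.l2 T1.l2))))))) = true := by decide +kernel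
theorem c2_8_3 : chkTag sI cl6 cl4 cl4 t1 b2_8 (Tag.mk true false false RT.tl RT.r5) (I.pos (nat_lit 0) (nat_lit 41530880))
  (xR (xR T1.l3 T1.l3) (xR (xa T1.l3 T1.l3) (xa T1.l3 (xb T1.l3 T1.l3)))) = true := by decide +kernel
theorem c2_8_4 : chkTag sI cl6 cl4 cl4 t1 b2_8 (tg false false false RT.r3) (I.pos (nat_lit 0) (nat_lit 0))
  (xb (xa (xb (xa T1.l4 T1.l4) T1.l4) (xb (xa (xa T1.l4 T1.l4) (xa T1.l4 (xb T1.l4 T1.l4))) (xa T1.l4 T1.l4))) (xa T1.l4 (xb (xa T1.l4 T1.l4) (xa T1.l4 (xa T1.l4 T1.l4))))) = true := by decide +kernel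
theorem c2_8_5 : chkTag sI cl6 cl4 cl4 t1 b2_8 (tg false true false RT.r4) (I.pos (nat_lit 0) (nat_lit 0))
  (xa (xb T1.l1 T1.l5) (xb (xa T1.l1 T1.l1) (xb (xa T1.l5 T1.l5) (xa T1.l5 T1.l5)))) = true := by decide +kernel
theorem c2_8_6 : chkTag sI cl6 cl4 cl4 t1 b2_8 (Tag.mk false false false RT.tl RT.r5) (I.mix (nat_lit 41527258) (nat_lit 41530880))
  (xR (xR (xR (xa T1.l2 (xb T1.l2 T1.l2)) (xa T1.l2 T1.l2)) T1.l2) (xR T1.l6 (xR T1.l6 (xb T1.l6 (xa T1.l6 (xR T1.l6 T1.l6)))))) = true := by decide +kernel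
theorem c2_8_7 : chkTag sI cl6 cl4 cl4 t1 b2_8 (Tag.mk false true false RT.tl RT.r6) (I.mix (nat_lit 41527258) (nat_lit 4274))
  (xR (xR (xa T1.l7 (xb T1.l7 T1.l7)) (xa T1.l7 (xb T1.l7 T1.l7))) (xR (xa T1.l7 (xb T1.l7 T1.l7)) (xb T1.l3 (xa T1.l7 T1.l7)))) = true := by decide +kernel
theorem bx2_8 : BoxOK sI cl6 cl4 cl4 t1 t1 b2_8 :=
  box_mk' [(tg true true false RT.r2), (tg true false false RT.r3), (Tag.mk true true false RT.tl RT.r4), (Tag.mk true false false RT.tl RT.r5), (tg false false false RT.r3), (tg false true false RT.r4), (Tag.mk false false false RT.tl RT.r5), (Tag.mk false true false RT.tl RT.r6)] rfl (allL_c (ex_mk c2_8_0) (allL_c (ex_mk c2_8_1) (allL_c (ex_mk c2_8_2) (allL_c (ex_mk c2_8_3) (allL_c (ex_mk c2_8_4) (allL_c (ex_mk c2_8_5) (allL_c (ex_mk c2_8_6) (allL_c (ex_mk c2_8_7) allL_n))))))))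
theorem bx2_9 : BoxOK sI cl6 cl4 cl4 t1 t1 b2_9 :=
  box_mk (TrL.c (I.pos (nat_lit 0) (nat_lit 0)) (xb (xa (xb (xa T1.l0 T1.l0) (xa T1.l8 T1.l0)) (xb (xa T1.l0 T1.l0) (xa T1.l0 T1.l0))) (xa (xb (xa T1.l8 (xb T1.l0 T1.l0)) (xa (xb T1.l0 (xa T1.l0 T1.l0)) (xb T1.l0 (xa T1.l0 T1.l0)))) (xb (xa (xb T1.l0 T1.l0) (xb T1.l0 T1.l0)) (xa (xb T1.l0 (xa T1.l0 T1.l0)) (xb (xa T1.l0 T1.l0) (xa T1.l0 T1.l0))))))
  (TrL.c (I.pos (nat_lit 0) (nat_lit 0)) (xb T1.l1 (xa T1.l1 T1.l1))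
  (TrL.c (I.pos (nat_lit 0) (nat_lit 89480386)) (xR (xR T1.l2 T1.l2) (xR T1.l2 T1.l2))
  (TrL.c (I.pos (nat_lit 0) (nat_lit 41530880)) (xR T1.l3 (xR T1.l3 T1.l3))
  (TrL.c (I.pos (nat_lit 0) (nat_lit 0)) (xb T1.l4 T1.l4)
  (TrL.c (I.pos (nat_lit 0) (nat_lit 0)) T1.l5
  (TrL.c (I.mix (nat_lit 41527258) (nat_lit 41530880)) (xR (xR (xR T1.l6 T1.l6) T1.l6) T1.l6)
  (TrL.c (I.mix (nat_lit 41527258) (nat_lit 4274)) (xR (xR T1.l7 T1.l7) T1.l7)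
  TrL.n)))))))) (by decide +kernel)
theorem bx2_10 : BoxOK sI cl6 cl4 cl4 t1 t1 b2_10 :=
  box_mk (TrL.c (I.pos (nat_lit 0) (nat_lit 0)) (xb (xa T1.l14 T1.l8) (xa T1.l8 T1.l8))
  (TrL.c (I.pos (nat_lit 0) (nat_lit 0)) T1.l1
  (TrL.c (I.pos (nat_lit 0) (nat_lit 89480386)) (xR (xR T1.l2 T1.l2) T1.l2)
  (TrL.c (I.pos (nat_lit 0) (nat_lit 41530880)) (xR T1.l2 T1.l3)
  (TrL.c (I.pos (nat_lit 0) (nat_lit 0)) T1.l9
  (TrL.c (I.pos (nat_lit 0) (nat_lit 0)) T1.l5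
  (TrL.c (I.mix (nat_lit 41527258) (nat_lit 41530880)) (xR (xR T1.l6 T1.l6) T1.l6)
  (TrL.c (I.mix (nat_lit 41527258) (nat_lit 4274)) (xR T1.l7 T1.l7)
  TrL.n)))))))) (by decide +kernel)
theorem sv2 : StarV sI cl6 cl4 cl4 t1 t1 t2 :=
  (bt_n (bt_n (bt_n (bt_b bx2_0) (bt_b bx2_1)) (bt_n (bt_b bx2_2) (bt_n (bt_b bx2_3) (bt_b bx2_4)))) (bt_n (bt_n (bt_b bx2_5) (bt_n (bt_b bx2_6) (bt_b bx2_7))) (bt_n (bt_b bx2_8) (bt_n (bt_b bx2_9) (bt_b bx2_10)))))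
def S2 : StarD := StarD.mk cl6 cl4 cl4 1 1 t2
def G : List StarD := [S0, S1, S2]
theorem so0 : StarOK sI G S0 :=
  star_mk (by decide) (by decide) rfl rfl rfl rfl rfl rfl (rfl : _ = t0) (rfl : _ = t2)
  (st_mk (Pth.l (Pth.l (Pth.l Pth.z))) (nat_lit 403447119) (nat_lit 406265386) (by decide +kernel))
  (st_mk (Pth.l (Pth.l (Pth.l Pth.z))) (nat_lit 447098689) (nat_lit 450654150) (by decide +kernel))
  (st_mk (Pth.l (Pth.l (Pth.l Pth.z))) (nat_lit 498901313) (nat_lit 503527349) (by decide +kernel)) sv0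
theorem so1 : StarOK sI G S1 :=
  star_mk (by decide) (by decide) rfl rfl rfl rfl rfl rfl (rfl : _ = t2) (rfl : _ = t0)
  (st_mk (Pth.l (Pth.l (Pth.l (Pth.l Pth.z)))) (nat_lit 201501935) (nat_lit 202583012) (by decide +kernel))
  (st_mk (Pth.l (Pth.l (Pth.l (Pth.l Pth.z)))) (nat_lit 243480109) (nat_lit 245119937) (by decide +kernel))
  (st_mk (Pth.l (Pth.l (Pth.l (Pth.l Pth.z)))) (nat_lit 294050829) (nat_lit 296565497) (by decide +kernel)) sv1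
theorem so2 : StarOK sI G S2 :=
  star_mk (by decide) (by decide) rfl rfl rfl rfl rfl rfl (rfl : _ = t1) (rfl : _ = t1)
  (st_mk (Pth.l (Pth.l (Pth.l Pth.z))) (nat_lit 383665736) (nat_lit 384888309) (by decide +kernel))
  (st_mk (Pth.l (Pth.l (Pth.l Pth.z))) (nat_lit 422520663) (nat_lit 424017797) (by decide +kernel))
  (st_mk (Pth.l (Pth.l (Pth.l Pth.z))) (nat_lit 467890924) (nat_lit 469749147) (by decide +kernel)) sv2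
theorem ok : GroupOK (nat_lit 238878720) (nat_lit 268435456) G := grp_mk (allS_c so0 (allS_c so1 (allS_c so2 allS_n)))
theorem cov : GCov G cl4 cl4 cl6 := cov_mk
  ⟨0, by decide, rfl, rfl, rfl⟩ ⟨1, by decide, rfl, rfl, rfl⟩ ⟨0, by decide, rfl, rfl, rfl⟩ ⟨1, by decide, rfl, rfl, rfl⟩ ⟨2, by decide, rfl, rfl, rfl⟩ ⟨2, by decide, rfl, rfl, rfl⟩
end Q113_4

namespace Q114_0
def sI : I := I.pos (nat_lit 0) (nat_lit 91291648)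
def b0_0 : Bx := Bx.mk (St.mk (I.pos (nat_lit 147701760) (nat_lit 222904320)) (I.mix (nat_lit 6586368) (nat_lit 111837184)) (I.mix (nat_lit 45531136) (nat_lit 67911680)) (I.pos (nat_lit 375242752) (nat_lit 482852864)) (I.mix (nat_lit 149110784) (nat_lit 112230400)) (I.mix (nat_lit 131973120) (nat_lit 133939200)) (I.mix (nat_lit 173932544) (nat_lit 174915584)))
  false (nat_lit 21896207)
def b0_1 : Bx := Bx.mk (St.mk (I.mix (nat_lit 54575104) (nat_lit 5750784)) (I.mix (nat_lit 22872064) (nat_lit 97648640)) (I.neg (nat_lit 69632000) (nat_lit 100515840)) (I.pos (nat_lit 266289152) (nat_lit 297074688)) (I.mix (nat_lit 70369280) (nat_lit 132530176)) (I.mix (nat_lit 123469824) (nat_lit 103989248)) (I.mix (nat_lit 55836672) (nat_lit 51281920)))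
  true (nat_lit 0)
def b0_2 : Bx := Bx.mk (St.mk (I.pos (nat_lit 10911744) (nat_lit 53641216)) (I.neg (nat_lit 22986752) (nat_lit 95059968)) (I.neg (nat_lit 69632000) (nat_lit 100515840)) (I.pos (nat_lit 268484608) (nat_lit 296943616)) (I.mix (nat_lit 132530176) (nat_lit 61751296)) (I.mix (nat_lit 103989248) (nat_lit 123764736)) (I.mix (nat_lit 55836672) (nat_lit 51281920)))
  false (nat_lit 0)
def b0_3 : Bx := Bx.mk (St.mk (I.mix (nat_lit 18857984) (nat_lit 4374528)) (I.mix (nat_lit 22675456) (nat_lit 21692416)) (I.neg (nat_lit 74022912) (nat_lit 86802432)) (I.pos (nat_lit 267386880) (nat_lit 283230208)) (I.mix (nat_lit 59326464) (nat_lit 50921472)) (I.mix (nat_lit 58736640) (nat_lit 54493184)) (I.mix (nat_lit 6815744) (nat_lit 17022976)))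
  true (nat_lit 0)
def b0_4 : Bx := Bx.mk (St.mk (I.pos (nat_lit 213532672) (nat_lit 258654208)) (I.mix (nat_lit 31211520) (nat_lit 30031872)) (I.neg (nat_lit 91062272) (nat_lit 219447296)) (I.pos (nat_lit 464568320) (nat_lit 547110912)) (I.mix (nat_lit 121995264) (nat_lit 73875456)) (I.mix (nat_lit 109002752) (nat_lit 118784000)) (I.mix (nat_lit 209371136) (nat_lit 275873792)))
  false (nat_lit 0)
def b0_5 : Bx := Bx.mk (St.mk (I.mix (nat_lit 3538944) (nat_lit 17137664)) (I.mix (nat_lit 18186240) (nat_lit 17694720)) (I.neg (nat_lit 74039296) (nat_lit 86573056)) (I.pos (nat_lit 267403264) (nat_lit 283000832)) (I.mix (nat_lit 49135616) (nat_lit 51560448)) (I.mix (nat_lit 54984704) (nat_lit 54820864)) (I.mix (nat_lit 4554752) (nat_lit 15040512)))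
  false (nat_lit 0)
def b0_6 : Bx := Bx.mk (St.mk (I.pos (nat_lit 11026432) (nat_lit 126189568)) (I.mix (nat_lit 100204544) (nat_lit 7962624)) (I.neg (nat_lit 24215552) (nat_lit 120520704)) (I.pos (nat_lit 261931008) (nat_lit 343638016)) (I.mix (nat_lit 146554880) (nat_lit 97566720)) (I.mix (nat_lit 103530496) (nat_lit 134479872)) (I.mix (nat_lit 108511232) (nat_lit 117506048)))
  false (nat_lit 11733819)
def b0_7 : Bx := Bx.mk (St.mk (I.pos (nat_lit 83247104) (nat_lit 199770112)) (I.mix (nat_lit 55558144) (nat_lit 103383040)) (I.mix (nat_lit 87769088) (nat_lit 64012288)) (I.pos (nat_lit 299466752) (nat_lit 440238080)) (I.mix (nat_lit 158105600) (nat_lit 98271232)) (I.mix (nat_lit 198967296) (nat_lit 147914752)) (I.mix (nat_lit 180273152) (nat_lit 161808384)))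
  false (nat_lit 13806129)
def b0_8 : Bx := Bx.mk (St.mk (I.neg (nat_lit 11026432) (nat_lit 126205952)) (I.mix (nat_lit 7962624) (nat_lit 100204544)) (I.neg (nat_lit 24215552) (nat_lit 120520704)) (I.pos (nat_lit 261931008) (nat_lit 343638016)) (I.mix (nat_lit 97566720) (nat_lit 146571264)) (I.mix (nat_lit 134479872) (nat_lit 103530496)) (I.mix (nat_lit 108511232) (nat_lit 117522432)))
  true (nat_lit 0)
def b0_9 : Bx := Bx.mk (St.mk (I.pos (nat_lit 169164800) (nat_lit 254345216)) (I.mix (nat_lit 35635200) (nat_lit 104398848)) (I.mix (nat_lit 220790784) (nat_lit 52412416)) (I.pos (nat_lit 411435008) (nat_lit 532135936)) (I.mix (nat_lit 157712384) (nat_lit 125534208)) (I.mix (nat_lit 148996096) (nat_lit 159350784)) (I.mix (nat_lit 262963200) (nat_lit 328515584)))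
  false (nat_lit 30801746)
def b0_10 : Bx := Bx.mk (St.mk (I.mix (nat_lit 2211840) (nat_lit 43008000)) (I.mix (nat_lit 78495744) (nat_lit 22380544)) (I.neg (nat_lit 72499200) (nat_lit 97353728)) (I.pos (nat_lit 266633216) (nat_lit 291143680)) (I.mix (nat_lit 117866496) (nat_lit 70434816)) (I.mix (nat_lit 82558976) (nat_lit 121978880)) (I.mix (nat_lit 33865728) (nat_lit 34979840)))
  false (nat_lit 0)
def t0 : BTr := (BTr.n (BTr.n (BTr.n (BTr.b b0_0) (BTr.b b0_1)) (BTr.n (BTr.b b0_2) (BTr.n (BTr.b b0_3) (BTr.b b0_4)))) (BTr.n (BTr.n (BTr.b b0_5) (BTr.n (BTr.b b0_6) (BTr.b b0_7))) (BTr.n (BTr.b b0_8) (BTr.n (BTr.b b0_9) (BTr.b b0_10)))))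
namespace T0
def l0 : Tr := Tr.L (Pth.l (Pth.l (Pth.l Pth.z)))
def l1 : Tr := Tr.L (Pth.l (Pth.l (Pth.r Pth.z)))
def l2 : Tr := Tr.L (Pth.l (Pth.r (Pth.l Pth.z)))
def l3 : Tr := Tr.L (Pth.l (Pth.r (Pth.r (Pth.l Pth.z))))
def l4 : Tr := Tr.L (Pth.l (Pth.r (Pth.r (Pth.r Pth.z))))
def l5 : Tr := Tr.L (Pth.r (Pth.l (Pth.l Pth.z)))
def l6 : Tr := Tr.L (Pth.r (Pth.l (Pth.r (Pth.l Pth.z))))
def l7 : Tr := Tr.L (Pth.r (Pth.l (Pth.r (Pth.r Pth.z))))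
def l8 : Tr := Tr.L (Pth.r (Pth.r (Pth.l Pth.z)))
def l9 : Tr := Tr.L (Pth.r (Pth.r (Pth.r (Pth.l Pth.z))))
def l10 : Tr := Tr.L (Pth.r (Pth.r (Pth.r (Pth.r Pth.z))))
end T0
def b1_0 : Bx := Bx.mk (St.mk (I.pos (nat_lit 154877952) (nat_lit 235749376)) (I.mix (nat_lit 3768320) (nat_lit 66551808)) (I.mix (nat_lit 6225920) (nat_lit 111247360)) (I.pos (nat_lit 139395072) (nat_lit 273072128)) (I.mix (nat_lit 130318336) (nat_lit 83902464)) (I.mix (nat_lit 112656384) (nat_lit 101318656)) (I.mix (nat_lit 170229760) (nat_lit 140673024)))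
  false (nat_lit 0)
def b1_1 : Bx := Bx.mk (St.mk (I.pos (nat_lit 95354880) (nat_lit 162054144)) (I.mix (nat_lit 68780032) (nat_lit 3686400)) (I.mix (nat_lit 65290240) (nat_lit 4603904)) (I.pos (nat_lit 95027200) (nat_lit 162381824)) (I.mix (nat_lit 93536256) (nat_lit 69337088)) (I.mix (nat_lit 74694656) (nat_lit 101072896)) (I.mix (nat_lit 64667648) (nat_lit 100450304)))
  false (nat_lit 0)
def b1_2 : Bx := Bx.mk (St.mk (I.mix (nat_lit 33292288) (nat_lit 120291328)) (I.mix (nat_lit 9371648) (nat_lit 37928960)) (I.mix (nat_lit 13434880) (nat_lit 25444352)) (I.pos (nat_lit 36585472) (nat_lit 116998144)) (I.mix (nat_lit 43433984) (nat_lit 48218112)) (I.mix (nat_lit 56836096) (nat_lit 40976384)) (I.mix (nat_lit 42778624) (nat_lit 28966912)))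
  false (nat_lit 0)
def b1_3 : Bx := Bx.mk (St.mk (I.mix (nat_lit 32440320) (nat_lit 82706432)) (I.mix (nat_lit 36438016) (nat_lit 8962048)) (I.mix (nat_lit 21528576) (nat_lit 6078464)) (I.pos (nat_lit 37912576) (nat_lit 91144192)) (I.mix (nat_lit 36061184) (nat_lit 39272448)) (I.mix (nat_lit 33292288) (nat_lit 47005696)) (I.mix (nat_lit 18530304) (nat_lit 26247168)))
  false (nat_lit 0)
def b1_4 : Bx := Bx.mk (St.mk (I.pos (nat_lit 158498816) (nat_lit 215187456)) (I.mix (nat_lit 19726336) (nat_lit 71614464)) (I.mix (nat_lit 2916352) (nat_lit 109559808)) (I.pos (nat_lit 146309120) (nat_lit 242139136)) (I.mix (nat_lit 154877952) (nat_lit 57573376)) (I.mix (nat_lit 172326912) (nat_lit 106184704)) (I.mix (nat_lit 193396736) (nat_lit 107675648)))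
  false (nat_lit 0)
def b1_5 : Bx := Bx.mk (St.mk (I.pos (nat_lit 93618176) (nat_lit 148586496)) (I.mix (nat_lit 66928640) (nat_lit 13484032)) (I.mix (nat_lit 62341120) (nat_lit 4833280)) (I.pos (nat_lit 79560704) (nat_lit 147439616)) (I.mix (nat_lit 97140736) (nat_lit 39059456)) (I.mix (nat_lit 55918592) (nat_lit 105152512)) (I.mix (nat_lit 43646976) (nat_lit 80412672)))
  false (nat_lit 0)
def b1_6 : Bx := Bx.mk (St.mk (I.mix (nat_lit 37060608) (nat_lit 113606656)) (I.mix (nat_lit 16252928) (nat_lit 42860544)) (I.mix (nat_lit 9814016) (nat_lit 28442624)) (I.pos (nat_lit 39124992) (nat_lit 110329856)) (I.mix (nat_lit 56000512) (nat_lit 33259520)) (I.mix (nat_lit 66289664) (nat_lit 37978112)) (I.mix (nat_lit 36519936) (nat_lit 23379968)))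
  false (nat_lit 0)
def b1_7 : Bx := Bx.mk (St.mk (I.mix (nat_lit 35110912) (nat_lit 74121216)) (I.mix (nat_lit 33685504) (nat_lit 7094272)) (I.mix (nat_lit 17055744) (nat_lit 4014080)) (I.pos (nat_lit 40796160) (nat_lit 84590592)) (I.mix (nat_lit 40992768) (nat_lit 23920640)) (I.mix (nat_lit 27246592) (nat_lit 44941312)) (I.mix (nat_lit 12910592) (nat_lit 16957440)))
  false (nat_lit 0)
def b1_8 : Bx := Bx.mk (St.mk (I.pos (nat_lit 184745984) (nat_lit 249626624)) (I.mix (nat_lit 22462464) (nat_lit 65388544)) (I.mix (nat_lit 53755904) (nat_lit 109871104)) (I.pos (nat_lit 207142912) (nat_lit 302022656)) (I.mix (nat_lit 116998144) (nat_lit 94978048)) (I.mix (nat_lit 131268608) (nat_lit 110444544)) (I.mix (nat_lit 222576640) (nat_lit 171048960)))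
  false (nat_lit 0)
def b1_9 : Bx := Bx.mk (St.mk (I.pos (nat_lit 151355392) (nat_lit 199409664)) (I.mix (nat_lit 50364416) (nat_lit 38944768)) (I.mix (nat_lit 47792128) (nat_lit 67256320)) (I.pos (nat_lit 140165120) (nat_lit 214843392)) (I.mix (nat_lit 140132352) (nat_lit 72220672)) (I.mix (nat_lit 181043200) (nat_lit 100761600)) (I.mix (nat_lit 199852032) (nat_lit 104415232)))
  false (nat_lit 0)
def b1_10 : Bx := Bx.mk (St.mk (I.pos (nat_lit 128155648) (nat_lit 167903232)) (I.mix (nat_lit 41385984) (nat_lit 5767168)) (I.mix (nat_lit 37126144) (nat_lit 12730368)) (I.pos (nat_lit 117014528) (nat_lit 172654592)) (I.mix (nat_lit 63750144) (nat_lit 32342016)) (I.mix (nat_lit 39911424) (nat_lit 53592064)) (I.mix (nat_lit 44875776) (nat_lit 55132160)))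
  false (nat_lit 0)
def b1_11 : Bx := Bx.mk (St.mk (I.pos (nat_lit 83804160) (nat_lit 113164288)) (I.mix (nat_lit 13467648) (nat_lit 12845056)) (I.mix (nat_lit 16629760) (nat_lit 5439488)) (I.pos (nat_lit 74563584) (nat_lit 114098176)) (I.mix (nat_lit 33046528) (nat_lit 20332544)) (I.mix (nat_lit 25116672) (nat_lit 26722304)) (I.mix (nat_lit 18808832) (nat_lit 21004288)))
  false (nat_lit 0)
def b1_12 : Bx := Bx.mk (St.mk (I.mix (nat_lit 47218688) (nat_lit 91586560)) (I.mix (nat_lit 17432576) (nat_lit 13156352)) (I.mix (nat_lit 9830400) (nat_lit 7421952)) (I.pos (nat_lit 41549824) (nat_lit 92848128)) (I.mix (nat_lit 33423360) (nat_lit 18644992)) (I.mix (nat_lit 26591232) (nat_lit 27869184)) (I.mix (nat_lit 14581760) (nat_lit 14991360)))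
  false (nat_lit 0)
def b1_13 : Bx := Bx.mk (St.mk (I.mix (nat_lit 46399488) (nat_lit 53952512)) (I.mix (nat_lit 9043968) (nat_lit 10027008)) (I.mix (nat_lit 7208960) (nat_lit 655360)) (I.pos (nat_lit 41517056) (nat_lit 76988416)) (I.mix (nat_lit 22265856) (nat_lit 13385728)) (I.mix (nat_lit 17055744) (nat_lit 16613376)) (I.mix (nat_lit 7045120) (nat_lit 6307840)))
  false (nat_lit 0)
def b1_14 : Bx := Bx.mk (St.mk (I.pos (nat_lit 211632128) (nat_lit 260898816)) (I.mix (nat_lit 22134784) (nat_lit 21282816)) (I.mix (nat_lit 57835520) (nat_lit 25198592)) (I.pos (nat_lit 244416512) (nat_lit 334249984)) (I.mix (nat_lit 93585408) (nat_lit 27820032)) (I.mix (nat_lit 62980096) (nat_lit 64618496)) (I.mix (nat_lit 110051328) (nat_lit 123486208)))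
  false (nat_lit 0)
def b1_15 : Bx := Bx.mk (St.mk (I.pos (nat_lit 145506304) (nat_lit 178716672)) (I.neg (nat_lit 4177920) (nat_lit 41779200)) (I.mix (nat_lit 39108608) (nat_lit 3637248)) (I.pos (nat_lit 132775936) (nat_lit 189038592)) (I.mix (nat_lit 44433408) (nat_lit 36831232)) (I.mix (nat_lit 45219840) (nat_lit 37339136)) (I.mix (nat_lit 50757632) (nat_lit 39485440)))
  false (nat_lit 0)
def t1 : BTr := (BTr.n (BTr.n (BTr.n (BTr.n (BTr.b b1_0) (BTr.b b1_1)) (BTr.n (BTr.b b1_2) (BTr.b b1_3))) (BTr.n (BTr.n (BTr.b b1_4) (BTr.b b1_5)) (BTr.n (BTr.b b1_6) (BTr.b b1_7)))) (BTr.n (BTr.n (BTr.n (BTr.b b1_8) (BTr.b b1_9)) (BTr.n (BTr.b b1_10) (BTr.b b1_11))) (BTr.n (BTr.n (BTr.b b1_12) (BTr.b b1_13)) (BTr.n (BTr.b b1_14) (BTr.b b1_15)))))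
namespace T1
def l0 : Tr := Tr.L (Pth.l (Pth.l (Pth.l (Pth.l Pth.z))))
def l1 : Tr := Tr.L (Pth.l (Pth.l (Pth.l (Pth.r Pth.z))))
def l2 : Tr := Tr.L (Pth.l (Pth.l (Pth.r (Pth.l Pth.z))))
def l3 : Tr := Tr.L (Pth.l (Pth.l (Pth.r (Pth.r Pth.z))))
def l4 : Tr := Tr.L (Pth.l (Pth.r (Pth.l (Pth.l Pth.z))))
def l5 : Tr := Tr.L (Pth.l (Pth.r (Pth.l (Pth.r Pth.z))))
def l6 : Tr := Tr.L (Pth.l (Pth.r (Pth.r (Pth.l Pth.z))))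
def l7 : Tr := Tr.L (Pth.l (Pth.r (Pth.r (Pth.r Pth.z))))
def l8 : Tr := Tr.L (Pth.r (Pth.l (Pth.l (Pth.l Pth.z))))
def l9 : Tr := Tr.L (Pth.r (Pth.l (Pth.l (Pth.r Pth.z))))
def l10 : Tr := Tr.L (Pth.r (Pth.l (Pth.r (Pth.l Pth.z))))
def l11 : Tr := Tr.L (Pth.r (Pth.l (Pth.r (Pth.r Pth.z))))
def l12 : Tr := Tr.L (Pth.r (Pth.r (Pth.l (Pth.l Pth.z))))
def l13 : Tr := Tr.L (Pth.r (Pth.r (Pth.l (Pth.r Pth.z))))
def l14 : Tr := Tr.L (Pth.r (Pth.r (Pth.r (Pth.l Pth.z))))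
def l15 : Tr := Tr.L (Pth.r (Pth.r (Pth.r (Pth.r Pth.z))))
end T1
def b2_0 : Bx := Bx.mk (St.mk (I.pos (nat_lit 121667584) (nat_lit 220381184)) (I.mix (nat_lit 5570560) (nat_lit 99254272)) (I.mix (nat_lit 9076736) (nat_lit 158138368)) (I.pos (nat_lit 349847552) (nat_lit 460193792)) (I.mix (nat_lit 182812672) (nat_lit 101941248)) (I.mix (nat_lit 150355968) (nat_lit 120127488)) (I.mix (nat_lit 159760384) (nat_lit 147259392)))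
  false (nat_lit 88812822)
def b2_1 : Bx := Bx.mk (St.mk (I.pos (nat_lit 37257216) (nat_lit 117686272)) (I.mix (nat_lit 105594880) (nat_lit 2736128)) (I.mix (nat_lit 47661056) (nat_lit 54263808)) (I.pos (nat_lit 272678912) (nat_lit 327090176)) (I.mix (nat_lit 110395392) (nat_lit 106561536)) (I.mix (nat_lit 113623040) (nat_lit 118095872)) (I.mix (nat_lit 94552064) (nat_lit 99581952)))
  false (nat_lit 52105929)
def b2_2 : Bx := Bx.mk (St.mk (I.pos (nat_lit 101416960) (nat_lit 182730752)) (I.mix (nat_lit 53198848) (nat_lit 102744064)) (I.pos (nat_lit 1982464) (nat_lit 158728192)) (I.pos (nat_lit 307527680) (nat_lit 404242432)) (I.mix (nat_lit 204226560) (nat_lit 94420992)) (I.mix (nat_lit 213909504) (nat_lit 153419776)) (I.mix (nat_lit 224673792) (nat_lit 183959552)))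
  false (nat_lit 92230761)
def b2_3 : Bx := Bx.mk (St.mk (I.neg (nat_lit 37240832) (nat_lit 117587968)) (I.mix (nat_lit 2605056) (nat_lit 105594880)) (I.mix (nat_lit 47661056) (nat_lit 54263808)) (I.pos (nat_lit 272678912) (nat_lit 327008256)) (I.mix (nat_lit 106561536) (nat_lit 110411776)) (I.mix (nat_lit 118112256) (nat_lit 113623040)) (I.mix (nat_lit 94552064) (nat_lit 99581952)))
  true (nat_lit 0)
def b2_4 : Bx := Bx.mk (St.mk (I.pos (nat_lit 86851584) (nat_lit 115687424)) (I.mix (nat_lit 44023808) (nat_lit 2998272)) (I.pos (nat_lit 8732672) (nat_lit 54247424)) (I.pos (nat_lit 297304064) (nat_lit 326549504)) (I.mix (nat_lit 67698688) (nat_lit 56213504)) (I.mix (nat_lit 57229312) (nat_lit 66945024)) (I.mix (nat_lit 54263808) (nat_lit 56246272)))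
  false (nat_lit 0)
def b2_5 : Bx := Bx.mk (St.mk (I.mix (nat_lit 71843840) (nat_lit 16236544)) (I.mix (nat_lit 23199744) (nat_lit 100761600)) (I.neg (nat_lit 4571136) (nat_lit 28131328)) (I.pos (nat_lit 268550144) (nat_lit 298106880)) (I.mix (nat_lit 65060864) (nat_lit 97239040)) (I.mix (nat_lit 112427008) (nat_lit 78364672)) (I.mix (nat_lit 33849344) (nat_lit 25935872)))
  true (nat_lit 0)
def b2_6 : Bx := Bx.mk (St.mk (I.pos (nat_lit 29540352) (nat_lit 69255168)) (I.neg (nat_lit 31899648) (nat_lit 97648640)) (I.neg (nat_lit 6176768) (nat_lit 28049408)) (I.pos (nat_lit 274677760) (nat_lit 297762816)) (I.mix (nat_lit 91979776) (nat_lit 55525376)) (I.mix (nat_lit 78348288) (nat_lit 90341376)) (I.mix (nat_lit 33849344) (nat_lit 25935872)))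
  false (nat_lit 0)
def b2_7 : Bx := Bx.mk (St.mk (I.pos (nat_lit 166297600) (nat_lit 292225024)) (I.mix (nat_lit 41484288) (nat_lit 67731456)) (I.mix (nat_lit 109608960) (nat_lit 105218048)) (I.pos (nat_lit 391200768) (nat_lit 593690624)) (I.mix (nat_lit 110919680) (nat_lit 72531968)) (I.mix (nat_lit 96256000) (nat_lit 81707008)) (I.mix (nat_lit 170754048) (nat_lit 133988352)))
  false (nat_lit 50274029)
def b2_8 : Bx := Bx.mk (St.mk (I.mix (nat_lit 14958592) (nat_lit 49266688)) (I.mix (nat_lit 51445760) (nat_lit 20414464)) (I.neg (nat_lit 5046272) (nat_lit 18104320)) (I.pos (nat_lit 269352960) (nat_lit 283901952)) (I.mix (nat_lit 45514752) (nat_lit 55017472)) (I.mix (nat_lit 54886400) (nat_lit 50872320)) (I.mix (nat_lit 12206080) (nat_lit 12517376)))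
  false (nat_lit 0)
def b2_9 : Bx := Bx.mk (St.mk (I.pos (nat_lit 141246464) (nat_lit 210911232)) (I.pos (nat_lit 14598144) (nat_lit 97157120)) (I.pos (nat_lit 34422784) (nat_lit 153698304)) (I.pos (nat_lit 371654656) (nat_lit 434159616)) (I.mix (nat_lit 147701760) (nat_lit 129236992)) (I.mix (nat_lit 165625856) (nat_lit 117866496)) (I.mix (nat_lit 225017856) (nat_lit 144572416)))
  false (nat_lit 56617246)
def b2_10 : Bx := Bx.mk (St.mk (I.pos (nat_lit 30179328) (nat_lit 58064896)) (I.neg (nat_lit 20430848) (nat_lit 84869120)) (I.neg (nat_lit 6422528) (nat_lit 26869760)) (I.pos (nat_lit 274382848) (nat_lit 291176448)) (I.mix (nat_lit 97255424) (nat_lit 65060864)) (I.mix (nat_lit 64946176) (nat_lit 112410624)) (I.mix (nat_lit 27443200) (nat_lit 25411584)))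
  false (nat_lit 0)
def t2 : BTr := (BTr.n (BTr.n (BTr.n (BTr.b b2_0) (BTr.b b2_1)) (BTr.n (BTr.b b2_2) (BTr.n (BTr.b b2_3) (BTr.b b2_4)))) (BTr.n (BTr.n (BTr.b b2_5) (BTr.n (BTr.b b2_6) (BTr.b b2_7))) (BTr.n (BTr.b b2_8) (BTr.n (BTr.b b2_9) (BTr.b b2_10)))))
namespace T2
def l0 : Tr := Tr.L (Pth.l (Pth.l (Pth.l Pth.z)))
def l1 : Tr := Tr.L (Pth.l (Pth.l (Pth.r Pth.z)))
def l2 : Tr := Tr.L (Pth.l (Pth.r (Pth.l Pth.z)))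
def l3 : Tr := Tr.L (Pth.l (Pth.r (Pth.r (Pth.l Pth.z))))
def l4 : Tr := Tr.L (Pth.l (Pth.r (Pth.r (Pth.r Pth.z))))
def l5 : Tr := Tr.L (Pth.r (Pth.l (Pth.l Pth.z)))
def l6 : Tr := Tr.L (Pth.r (Pth.l (Pth.r (Pth.l Pth.z))))
def l7 : Tr := Tr.L (Pth.r (Pth.l (Pth.r (Pth.r Pth.z))))
def l8 : Tr := Tr.L (Pth.r (Pth.r (Pth.l Pth.z)))
def l9 : Tr := Tr.L (Pth.r (Pth.r (Pth.r (Pth.l Pth.z))))
def l10 : Tr := Tr.L (Pth.r (Pth.r (Pth.r (Pth.r Pth.z))))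
end T2
theorem bx0_0 : BoxOK sI cl4 cl4 cl7 t0 t2 b0_0 :=
  box_mk (TrL.c (I.pos (nat_lit 0) (nat_lit 0)) (xb T0.l0 (xa T0.l0 T0.l0))
  (TrL.c (I.pos (nat_lit 0) (nat_lit 0)) T2.l1
  (TrL.c (I.pos (nat_lit 0) (nat_lit 0)) T0.l1
  (TrL.c (I.pos (nat_lit 0) (nat_lit 0)) T2.l2
  (TrL.c (I.pos (nat_lit 0) (nat_lit 0)) T0.l2
  (TrL.c (I.pos (nat_lit 0) (nat_lit 0)) T2.l3
  TrL.n)))))) (by decide +kernel)
theorem bx0_1 : BoxOK sI cl4 cl4 cl7 t0 t2 b0_1 :=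
  box_mk (TrL.c (I.pos (nat_lit 0) (nat_lit 0)) T2.l1
  (TrL.c (I.pos (nat_lit 0) (nat_lit 0)) T0.l1
  TrL.n)) (by decide +kernel)
theorem bx0_2 : BoxOK sI cl4 cl4 cl7 t0 t2 b0_2 :=
  box_mk (TrL.c (I.pos (nat_lit 0) (nat_lit 0)) T0.l9
  (TrL.c (I.pos (nat_lit 0) (nat_lit 0)) T2.l1
  (TrL.c (I.pos (nat_lit 0) (nat_lit 0)) T0.l1
  (TrL.c (I.pos (nat_lit 0) (nat_lit 0)) T2.l2
  (TrL.c (I.pos (nat_lit 0) (nat_lit 0)) T0.l10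
  (TrL.c (I.pos (nat_lit 0) (nat_lit 0)) T2.l3
  TrL.n)))))) (by decide +kernel)
theorem bx0_3 : BoxOK sI cl4 cl4 cl7 t0 t2 b0_3 :=
  box_mk (TrL.c (I.pos (nat_lit 0) (nat_lit 0)) T2.l4
  (TrL.c (I.pos (nat_lit 0) (nat_lit 0)) T0.l3
  TrL.n)) (by decide +kernel)
theorem bx0_4 : BoxOK sI cl4 cl4 cl7 t0 t2 b0_4 :=
  box_mk (TrL.c (I.pos (nat_lit 0) (nat_lit 0)) T0.l0
  (TrL.c (I.pos (nat_lit 0) (nat_lit 0)) T2.l1
  (TrL.c (I.pos (nat_lit 0) (nat_lit 0)) T0.l1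
  (TrL.c (I.pos (nat_lit 0) (nat_lit 0)) T2.l2
  (TrL.c (I.pos (nat_lit 0) (nat_lit 0)) T0.l2
  (TrL.c (I.pos (nat_lit 0) (nat_lit 0)) T2.l3
  TrL.n)))))) (by decide +kernel)
theorem bx0_5 : BoxOK sI cl4 cl4 cl7 t0 t2 b0_5 :=
  box_mk (TrL.c (I.pos (nat_lit 0) (nat_lit 0)) T0.l4
  (TrL.c (I.pos (nat_lit 0) (nat_lit 0)) T2.l1
  (TrL.c (I.pos (nat_lit 0) (nat_lit 0)) T0.l1
  (TrL.c (I.pos (nat_lit 0) (nat_lit 0)) T2.l2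
  (TrL.c (I.pos (nat_lit 0) (nat_lit 0)) T0.l5
  (TrL.c (I.pos (nat_lit 0) (nat_lit 0)) T2.l3
  TrL.n)))))) (by decide +kernel)
theorem bx0_6 : BoxOK sI cl4 cl4 cl7 t0 t2 b0_6 :=
  box_mk (TrL.c (I.pos (nat_lit 0) (nat_lit 0)) (xa (xb (xa (xs T0.l9 T0.l9) T0.l9) (xa T0.l9 T0.l9)) T0.l9)
  (TrL.c (I.pos (nat_lit 0) (nat_lit 0)) T2.l1
  (TrL.c (I.pos (nat_lit 0) (nat_lit 0)) T0.l1
  (TrL.c (I.pos (nat_lit 0) (nat_lit 0)) T2.l2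
  (TrL.c (I.pos (nat_lit 0) (nat_lit 0)) T0.l10
  (TrL.c (I.pos (nat_lit 0) (nat_lit 0)) T2.l3
  TrL.n)))))) (by decide +kernel)
theorem bx0_7 : BoxOK sI cl4 cl4 cl7 t0 t2 b0_7 :=
  box_mk (TrL.c (I.pos (nat_lit 0) (nat_lit 0)) (xa (xb (xa (xb T0.l9 T0.l9) T0.l9) (xa (xb T0.l9 T0.l9) T0.l9)) (xb (xa T0.l9 T0.l9) (xa T0.l9 T0.l9)))
  (TrL.c (I.pos (nat_lit 0) (nat_lit 0)) T2.l1
  (TrL.c (I.pos (nat_lit 0) (nat_lit 0)) T0.l1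
  (TrL.c (I.pos (nat_lit 0) (nat_lit 0)) (xb (xa T2.l2 T2.l2) T2.l2)
  (TrL.c (I.pos (nat_lit 0) (nat_lit 0)) T0.l10
  (TrL.c (I.pos (nat_lit 0) (nat_lit 0)) T2.l3
  TrL.n)))))) (by decide +kernel)
theorem bx0_8 : BoxOK sI cl4 cl4 cl7 t0 t2 b0_8 :=
  box_mk (TrL.c (I.pos (nat_lit 0) (nat_lit 0)) T2.l1
  (TrL.c (I.pos (nat_lit 0) (nat_lit 0)) T0.l1
  TrL.n)) (by decide +kernel)
theorem bx0_9 : BoxOK sI cl4 cl4 cl7 t0 t2 b0_9 :=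
  box_mk (TrL.c (I.pos (nat_lit 0) (nat_lit 0)) (xb (xa T0.l0 T0.l0) (xa T0.l0 T0.l0))
  (TrL.c (I.pos (nat_lit 0) (nat_lit 0)) T2.l1
  (TrL.c (I.pos (nat_lit 0) (nat_lit 0)) T0.l1
  (TrL.c (I.pos (nat_lit 0) (nat_lit 0)) (xb (xa T2.l2 (xs T2.l2 (xb T2.l2 T2.l2))) (xa T2.l2 (xs T2.l2 (xb T2.l2 T2.l2))))
  (TrL.c (I.pos (nat_lit 0) (nat_lit 0)) T0.l2
  (TrL.c (I.pos (nat_lit 0) (nat_lit 0)) T2.l3
  TrL.n)))))) (by decide +kernel)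
theorem bx0_10 : BoxOK sI cl4 cl4 cl7 t0 t2 b0_10 :=
  box_mk (TrL.c (I.pos (nat_lit 0) (nat_lit 0)) (xb (xa (xs (xb T0.l4 T0.l4) T0.l9) T0.l9) (xa (xb T0.l4 T0.l4) T0.l9))
  (TrL.c (I.pos (nat_lit 0) (nat_lit 0)) T2.l1
  (TrL.c (I.pos (nat_lit 0) (nat_lit 0)) T0.l1
  (TrL.c (I.pos (nat_lit 0) (nat_lit 0)) T2.l2
  (TrL.c (I.pos (nat_lit 0) (nat_lit 0)) T0.l5
  (TrL.c (I.pos (nat_lit 0) (nat_lit 0)) T2.l3
  TrL.n)))))) (by decide +kernel)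
theorem sv0 : StarV sI cl4 cl4 cl7 t0 t2 t0 :=
  (bt_n (bt_n (bt_n (bt_b bx0_0) (bt_b bx0_1)) (bt_n (bt_b bx0_2) (bt_n (bt_b bx0_3) (bt_b bx0_4)))) (bt_n (bt_n (bt_b bx0_5) (bt_n (bt_b bx0_6) (bt_b bx0_7))) (bt_n (bt_b bx0_8) (bt_n (bt_b bx0_9) (bt_b bx0_10)))))
def S0 : StarD := StarD.mk cl4 cl4 cl7 0 2 t0
theorem bx1_0 : BoxOK sI cl4 cl7 cl4 t2 t0 b1_0 :=
  box_mk (TrL.c (I.pos (nat_lit 0) (nat_lit 0)) (xa (xb T2.l0 (xa T2.l0 T2.l0)) (xb T2.l0 T2.l0))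
  (TrL.c (I.pos (nat_lit 0) (nat_lit 0)) T0.l6
  (TrL.c (I.pos (nat_lit 0) (nat_lit 0)) T2.l5
  (TrL.c (I.pos (nat_lit 0) (nat_lit 0)) (xa T0.l7 T0.l7)
  (TrL.c (I.pos (nat_lit 0) (nat_lit 0)) T2.l6
  (TrL.c (I.pos (nat_lit 0) (nat_lit 0)) T0.l8
  TrL.n)))))) (by decide +kernel)
theorem bx1_1 : BoxOK sI cl4 cl7 cl4 t2 t0 b1_1 :=
  box_mk (TrL.c (I.pos (nat_lit 0) (nat_lit 0)) (xa (xb T2.l7 T2.l7) T2.l0)
  (TrL.c (I.pos (nat_lit 0) (nat_lit 0)) T0.l6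
  (TrL.c (I.pos (nat_lit 0) (nat_lit 0)) T2.l5
  (TrL.c (I.pos (nat_lit 0) (nat_lit 0)) T0.l7
  (TrL.c (I.pos (nat_lit 0) (nat_lit 0)) T2.l8
  (TrL.c (I.pos (nat_lit 0) (nat_lit 0)) T0.l8
  TrL.n)))))) (by decide +kernel)
theorem bx1_2 : BoxOK sI cl4 cl7 cl4 t2 t0 b1_2 :=
  box_mk (TrL.c (I.pos (nat_lit 0) (nat_lit 0)) (xa (xa T2.l7 T2.l7) (xa T2.l7 T2.l7))
  (TrL.c (I.pos (nat_lit 0) (nat_lit 0)) T0.l6
  (TrL.c (I.pos (nat_lit 0) (nat_lit 0)) T2.l5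
  (TrL.c (I.pos (nat_lit 0) (nat_lit 0)) T0.l7
  (TrL.c (I.pos (nat_lit 0) (nat_lit 0)) T2.l8
  (TrL.c (I.pos (nat_lit 0) (nat_lit 0)) T0.l8
  TrL.n)))))) (by decide +kernel)
theorem bx1_3 : BoxOK sI cl4 cl7 cl4 t2 t0 b1_3 :=
  box_mk (TrL.c (I.pos (nat_lit 0) (nat_lit 0)) (xa (xa (xb (xa T2.l7 T2.l7) T2.l7) T2.l7) T2.l7)
  (TrL.c (I.pos (nat_lit 0) (nat_lit 0)) T0.l6
  (TrL.c (I.pos (nat_lit 0) (nat_lit 0)) T2.l5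
  (TrL.c (I.pos (nat_lit 0) (nat_lit 0)) T0.l7
  (TrL.c (I.pos (nat_lit 0) (nat_lit 0)) T2.l8
  (TrL.c (I.pos (nat_lit 0) (nat_lit 0)) T0.l8
  TrL.n)))))) (by decide +kernel)
theorem bx1_4 : BoxOK sI cl4 cl7 cl4 t2 t0 b1_4 :=
  box_mk (TrL.c (I.pos (nat_lit 0) (nat_lit 0)) (xa (xb T2.l9 T2.l9) (xb T2.l9 T2.l9))
  (TrL.c (I.pos (nat_lit 0) (nat_lit 0)) T0.l6
  (TrL.c (I.pos (nat_lit 0) (nat_lit 0)) T2.l5
  (TrL.c (I.pos (nat_lit 0) (nat_lit 0)) (xb T0.l7 T0.l7)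
  (TrL.c (I.pos (nat_lit 0) (nat_lit 0)) T2.l10
  (TrL.c (I.pos (nat_lit 0) (nat_lit 0)) T0.l8
  TrL.n)))))) (by decide +kernel)
theorem bx1_5 : BoxOK sI cl4 cl7 cl4 t2 t0 b1_5 :=
  box_mk (TrL.c (I.pos (nat_lit 0) (nat_lit 0)) (xb T2.l7 (xa T2.l7 T2.l7))
  (TrL.c (I.pos (nat_lit 0) (nat_lit 0)) T0.l6
  (TrL.c (I.pos (nat_lit 0) (nat_lit 0)) T2.l5
  (TrL.c (I.pos (nat_lit 0) (nat_lit 0)) T0.l7
  (TrL.c (I.pos (nat_lit 0) (nat_lit 0)) T2.l8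
  (TrL.c (I.pos (nat_lit 0) (nat_lit 0)) T0.l8
  TrL.n)))))) (by decide +kernel)
theorem bx1_6 : BoxOK sI cl4 cl7 cl4 t2 t0 b1_6 :=
  box_mk (TrL.c (I.pos (nat_lit 0) (nat_lit 0)) (xa (xa (xb T2.l7 (xa T2.l7 T2.l7)) T2.l7) (xa T2.l7 (xb T2.l7 T2.l7)))
  (TrL.c (I.pos (nat_lit 0) (nat_lit 0)) T0.l6
  (TrL.c (I.pos (nat_lit 0) (nat_lit 0)) T2.l5
  (TrL.c (I.pos (nat_lit 0) (nat_lit 0)) T0.l7
  (TrL.c (I.pos (nat_lit 0) (nat_lit 0)) T2.l8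
  (TrL.c (I.pos (nat_lit 0) (nat_lit 0)) T0.l8
  TrL.n)))))) (by decide +kernel)
theorem bx1_7 : BoxOK sI cl4 cl7 cl4 t2 t0 b1_7 :=
  box_mk (TrL.c (I.pos (nat_lit 0) (nat_lit 0)) (xa (xa (xb T2.l7 T2.l7) T2.l7) T2.l7)
  (TrL.c (I.pos (nat_lit 0) (nat_lit 0)) T0.l6
  (TrL.c (I.pos (nat_lit 0) (nat_lit 0)) T2.l5
  (TrL.c (I.pos (nat_lit 0) (nat_lit 0)) T0.l7
  (TrL.c (I.pos (nat_lit 0) (nat_lit 0)) T2.l8
  (TrL.c (I.pos (nat_lit 0) (nat_lit 0)) T0.l8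
  TrL.n)))))) (by decide +kernel)
theorem bx1_8 : BoxOK sI cl4 cl7 cl4 t2 t0 b1_8 :=
  box_mk (TrL.c (I.pos (nat_lit 0) (nat_lit 0)) (xa (xb T2.l0 T2.l0) (xb T2.l0 T2.l0))
  (TrL.c (I.pos (nat_lit 0) (nat_lit 0)) T0.l6
  (TrL.c (I.pos (nat_lit 0) (nat_lit 0)) T2.l3
  (TrL.c (I.pos (nat_lit 0) (nat_lit 0)) (xa T0.l7 (xb T0.l7 T0.l7))
  (TrL.c (I.pos (nat_lit 0) (nat_lit 0)) T2.l1
  (TrL.c (I.pos (nat_lit 0) (nat_lit 0)) T0.l8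
  TrL.n)))))) (by decide +kernel)
theorem bx1_9 : BoxOK sI cl4 cl7 cl4 t2 t0 b1_9 :=
  box_mk (TrL.c (I.pos (nat_lit 0) (nat_lit 0)) (xb T2.l9 (xa T2.l9 T2.l9))
  (TrL.c (I.pos (nat_lit 0) (nat_lit 0)) T0.l6
  (TrL.c (I.pos (nat_lit 0) (nat_lit 0)) T2.l5
  (TrL.c (I.pos (nat_lit 0) (nat_lit 0)) (xb T0.l7 T0.l7)
  (TrL.c (I.pos (nat_lit 0) (nat_lit 0)) T2.l10
  (TrL.c (I.pos (nat_lit 0) (nat_lit 0)) T0.l8
  TrL.n)))))) (by decide +kernel)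
theorem bx1_10 : BoxOK sI cl4 cl7 cl4 t2 t0 b1_10 :=
  box_mk (TrL.c (I.pos (nat_lit 0) (nat_lit 0)) T2.l7
  (TrL.c (I.pos (nat_lit 0) (nat_lit 0)) T0.l6
  (TrL.c (I.pos (nat_lit 0) (nat_lit 0)) T2.l5
  (TrL.c (I.pos (nat_lit 0) (nat_lit 0)) T0.l7
  (TrL.c (I.pos (nat_lit 0) (nat_lit 0)) T2.l8
  (TrL.c (I.pos (nat_lit 0) (nat_lit 0)) T0.l8
  TrL.n)))))) (by decide +kernel)
theorem bx1_11 : BoxOK sI cl4 cl7 cl4 t2 t0 b1_11 :=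
  box_mk (TrL.c (I.pos (nat_lit 0) (nat_lit 0)) T2.l7
  (TrL.c (I.pos (nat_lit 0) (nat_lit 0)) T0.l6
  (TrL.c (I.pos (nat_lit 0) (nat_lit 0)) T2.l5
  (TrL.c (I.pos (nat_lit 0) (nat_lit 0)) T0.l7
  (TrL.c (I.pos (nat_lit 0) (nat_lit 0)) T2.l8
  (TrL.c (I.pos (nat_lit 0) (nat_lit 0)) T0.l8
  TrL.n)))))) (by decide +kernel)
theorem bx1_12 : BoxOK sI cl4 cl7 cl4 t2 t0 b1_12 :=
  box_mk (TrL.c (I.pos (nat_lit 0) (nat_lit 0)) (xa (xa T2.l7 T2.l7) T2.l7)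
  (TrL.c (I.pos (nat_lit 0) (nat_lit 0)) T0.l6
  (TrL.c (I.pos (nat_lit 0) (nat_lit 0)) T2.l5
  (TrL.c (I.pos (nat_lit 0) (nat_lit 0)) T0.l7
  (TrL.c (I.pos (nat_lit 0) (nat_lit 0)) T2.l8
  (TrL.c (I.pos (nat_lit 0) (nat_lit 0)) T0.l8
  TrL.n)))))) (by decide +kernel)
theorem bx1_13 : BoxOK sI cl4 cl7 cl4 t2 t0 b1_13 :=
  box_mk (TrL.c (I.pos (nat_lit 0) (nat_lit 0)) T2.l7
  (TrL.c (I.pos (nat_lit 0) (nat_lit 0)) T0.l6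
  (TrL.c (I.pos (nat_lit 0) (nat_lit 0)) T2.l5
  (TrL.c (I.pos (nat_lit 0) (nat_lit 0)) T0.l7
  (TrL.c (I.pos (nat_lit 0) (nat_lit 0)) T2.l8
  (TrL.c (I.pos (nat_lit 0) (nat_lit 0)) T0.l8
  TrL.n)))))) (by decide +kernel)
theorem bx1_14 : BoxOK sI cl4 cl7 cl4 t2 t0 b1_14 :=
  box_mk (TrL.c (I.pos (nat_lit 0) (nat_lit 0)) T2.l0
  (TrL.c (I.pos (nat_lit 0) (nat_lit 0)) T0.l6
  (TrL.c (I.pos (nat_lit 0) (nat_lit 0)) T2.l3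
  (TrL.c (I.pos (nat_lit 0) (nat_lit 0)) T0.l0
  (TrL.c (I.pos (nat_lit 0) (nat_lit 0)) T2.l1
  (TrL.c (I.pos (nat_lit 0) (nat_lit 0)) T0.l8
  TrL.n)))))) (by decide +kernel)
theorem bx1_15 : BoxOK sI cl4 cl7 cl4 t2 t0 b1_15 :=
  box_mk (TrL.c (I.pos (nat_lit 0) (nat_lit 0)) T2.l9
  (TrL.c (I.pos (nat_lit 0) (nat_lit 0)) T0.l6
  (TrL.c (I.pos (nat_lit 0) (nat_lit 0)) T2.l5
  (TrL.c (I.pos (nat_lit 0) (nat_lit 0)) T0.l7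
  (TrL.c (I.pos (nat_lit 0) (nat_lit 0)) T2.l10
  (TrL.c (I.pos (nat_lit 0) (nat_lit 0)) T0.l8
  TrL.n)))))) (by decide +kernel)
theorem sv1 : StarV sI cl4 cl7 cl4 t2 t0 t1 :=
  (bt_n (bt_n (bt_n (bt_n (bt_b bx1_0) (bt_b bx1_1)) (bt_n (bt_b bx1_2) (bt_b bx1_3))) (bt_n (bt_n (bt_b bx1_4) (bt_b bx1_5)) (bt_n (bt_b bx1_6) (bt_b bx1_7)))) (bt_n (bt_n (bt_n (bt_b bx1_8) (bt_b bx1_9)) (bt_n (bt_b bx1_10) (bt_b bx1_11))) (bt_n (bt_n (bt_b bx1_12) (bt_b bx1_13)) (bt_n (bt_b bx1_14) (bt_b bx1_15)))))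
def S1 : StarD := StarD.mk cl4 cl7 cl4 2 0 t1
theorem bx2_0 : BoxOK sI cl7 cl4 cl4 t1 t1 b2_0 :=
  box_mk (TrL.c (I.pos (nat_lit 0) (nat_lit 0)) (xa (xb T1.l0 (xs T1.l0 T1.l0)) (xb T1.l0 T1.l0))
  (TrL.c (I.pos (nat_lit 0) (nat_lit 0)) T1.l1
  (TrL.c (I.pos (nat_lit 0) (nat_lit 111196574)) (xR T1.l2 T1.l2)
  (TrL.c (I.pos (nat_lit 0) (nat_lit 77433728)) T1.l3
  (TrL.c (I.pos (nat_lit 0) (nat_lit 0)) (xa T1.l4 (xk T1.l4 T1.l4))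
  (TrL.c (I.pos (nat_lit 0) (nat_lit 0)) T1.l5
  (TrL.c (I.mix (nat_lit 29511666) (nat_lit 77433728)) (xR T1.l6 T1.l6)
  (TrL.c (I.mix (nat_lit 29511666) (nat_lit 46070178)) T1.l7
  TrL.n)))))))) (by decide +kernel)
theorem bx2_1 : BoxOK sI cl7 cl4 cl4 t1 t1 b2_1 :=
  box_mk (TrL.c (I.pos (nat_lit 0) (nat_lit 0)) (xa (xb T1.l8 T1.l8) T1.l8)
  (TrL.c (I.pos (nat_lit 0) (nat_lit 0)) T1.l1
  (TrL.c (I.pos (nat_lit 0) (nat_lit 111196574)) T1.l2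
  (TrL.c (I.pos (nat_lit 0) (nat_lit 77433728)) T1.l3
  (TrL.c (I.pos (nat_lit 0) (nat_lit 0)) T1.l9
  (TrL.c (I.pos (nat_lit 0) (nat_lit 0)) T1.l5
  (TrL.c (I.mix (nat_lit 29511666) (nat_lit 77433728)) T1.l6
  (TrL.c (I.mix (nat_lit 29511666) (nat_lit 46070178)) T1.l3
  TrL.n)))))))) (by decide +kernel)
theorem bx2_2 : BoxOK sI cl7 cl4 cl4 t1 t1 b2_2 :=
  box_mk (TrL.c (I.pos (nat_lit 0) (nat_lit 0)) (xb (xa T1.l8 T1.l8) (xa (xs T1.l8 (xb T1.l8 T1.l8)) (xs T1.l8 (xb T1.l8 T1.l8))))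
  (TrL.c (I.pos (nat_lit 0) (nat_lit 0)) T1.l1
  (TrL.c (I.pos (nat_lit 0) (nat_lit 111196574)) (xR T1.l2 T1.l2)
  (TrL.c (I.pos (nat_lit 0) (nat_lit 77433728)) T1.l3
  (TrL.c (I.pos (nat_lit 0) (nat_lit 0)) (xb T1.l9 T1.l9)
  (TrL.c (I.pos (nat_lit 0) (nat_lit 0)) T1.l5
  (TrL.c (I.mix (nat_lit 29511666) (nat_lit 77433728)) (xR T1.l6 T1.l6)
  (TrL.c (I.mix (nat_lit 29511666) (nat_lit 46070178)) T1.l7
  TrL.n)))))))) (by decide +kernel)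
theorem bx2_3 : BoxOK sI cl7 cl4 cl4 t1 t1 b2_3 :=
  box_mk (TrL.c (I.pos (nat_lit 0) (nat_lit 0)) T1.l1
  (TrL.c (I.pos (nat_lit 0) (nat_lit 0)) T1.l2
  (TrL.c (I.mix (nat_lit 29511666) (nat_lit 77433728)) T1.l12
  (TrL.c (I.mix (nat_lit 29511666) (nat_lit 46070178)) T1.l12
  TrL.n)))) (by decide +kernel)
theorem bx2_4 : BoxOK sI cl7 cl4 cl4 t1 t1 b2_4 :=
  box_mk (TrL.c (I.pos (nat_lit 0) (nat_lit 0)) T1.l8
  (TrL.c (I.pos (nat_lit 0) (nat_lit 0)) T1.l1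
  (TrL.c (I.pos (nat_lit 0) (nat_lit 111196574)) T1.l2
  (TrL.c (I.pos (nat_lit 0) (nat_lit 77433728)) T1.l3
  (TrL.c (I.pos (nat_lit 0) (nat_lit 0)) T1.l9
  (TrL.c (I.pos (nat_lit 0) (nat_lit 0)) T1.l5
  (TrL.c (I.mix (nat_lit 29511666) (nat_lit 77433728)) T1.l6
  (TrL.c (I.mix (nat_lit 29511666) (nat_lit 46070178)) T1.l7
  TrL.n)))))))) (by decide +kernel)
theorem bx2_5 : BoxOK sI cl7 cl4 cl4 t1 t1 b2_5 :=
  box_mk (TrL.c (I.pos (nat_lit 0) (nat_lit 0)) T1.l10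
  (TrL.c (I.pos (nat_lit 0) (nat_lit 0)) T1.l11
  (TrL.c (I.mix (nat_lit 29511666) (nat_lit 77433728)) T1.l12
  (TrL.c (I.mix (nat_lit 29511666) (nat_lit 46070178)) T1.l12
  TrL.n)))) (by decide +kernel)
theorem bx2_6 : BoxOK sI cl7 cl4 cl4 t1 t1 b2_6 :=
  box_mk (TrL.c (I.pos (nat_lit 0) (nat_lit 0)) T1.l14
  (TrL.c (I.pos (nat_lit 0) (nat_lit 0)) T1.l1
  (TrL.c (I.pos (nat_lit 0) (nat_lit 111196574)) T1.l2
  (TrL.c (I.pos (nat_lit 0) (nat_lit 77433728)) T1.l3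
  (TrL.c (I.pos (nat_lit 0) (nat_lit 0)) T1.l9
  (TrL.c (I.pos (nat_lit 0) (nat_lit 0)) T1.l5
  (TrL.c (I.mix (nat_lit 29511666) (nat_lit 77433728)) T1.l6
  (TrL.c (I.mix (nat_lit 29511666) (nat_lit 46070178)) T1.l7
  TrL.n)))))))) (by decide +kernel)
theorem bx2_7 : BoxOK sI cl7 cl4 cl4 t1 t1 b2_7 :=
  box_mk (TrL.c (I.pos (nat_lit 0) (nat_lit 0)) (xa T1.l0 (xb T1.l0 T1.l0))
  (TrL.c (I.pos (nat_lit 0) (nat_lit 0)) T1.l1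
  (TrL.c (I.pos (nat_lit 0) (nat_lit 111196574)) (xR T1.l2 T1.l2)
  (TrL.c (I.pos (nat_lit 0) (nat_lit 77433728)) T1.l3
  (TrL.c (I.pos (nat_lit 0) (nat_lit 0)) (xa T1.l4 (xb (xk (xa T1.l4 T1.l4) (xa T1.l4 T1.l4)) (xk (xa T1.l4 T1.l4) (xa T1.l4 T1.l4))))
  (TrL.c (I.pos (nat_lit 0) (nat_lit 0)) T1.l5
  (TrL.c (I.mix (nat_lit 29511666) (nat_lit 77433728)) (xR T1.l6 T1.l6)
  (TrL.c (I.mix (nat_lit 29511666) (nat_lit 46070178)) T1.l7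
  TrL.n)))))))) (by decide +kernel)
theorem bx2_8 : BoxOK sI cl7 cl4 cl4 t1 t1 b2_8 :=
  box_mk (TrL.c (I.pos (nat_lit 0) (nat_lit 0)) (xa T1.l14 T1.l14)
  (TrL.c (I.pos (nat_lit 0) (nat_lit 0)) T1.l10
  (TrL.c (I.pos (nat_lit 0) (nat_lit 111196574)) T1.l2
  (TrL.c (I.pos (nat_lit 0) (nat_lit 77433728)) T1.l3
  (TrL.c (I.pos (nat_lit 0) (nat_lit 0)) T1.l15
  (TrL.c (I.pos (nat_lit 0) (nat_lit 0)) T1.l5
  (TrL.c (I.mix (nat_lit 29511666) (nat_lit 77433728)) T1.l6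
  (TrL.c (I.mix (nat_lit 29511666) (nat_lit 46070178)) T1.l7
  TrL.n)))))))) (by decide +kernel)
theorem bx2_9 : BoxOK sI cl7 cl4 cl4 t1 t1 b2_9 :=
  box_mk (TrL.c (I.pos (nat_lit 0) (nat_lit 0)) (xa T1.l0 T1.l0)
  (TrL.c (I.pos (nat_lit 0) (nat_lit 0)) T1.l1
  (TrL.c (I.pos (nat_lit 0) (nat_lit 111196574)) (xR T1.l2 T1.l2)
  (TrL.c (I.pos (nat_lit 0) (nat_lit 77433728)) T1.l3
  (TrL.c (I.pos (nat_lit 0) (nat_lit 0)) T1.l4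
  (TrL.c (I.pos (nat_lit 0) (nat_lit 0)) T1.l5
  (TrL.c (I.mix (nat_lit 29511666) (nat_lit 77433728)) (xR T1.l6 T1.l6)
  (TrL.c (I.mix (nat_lit 29511666) (nat_lit 46070178)) T1.l3
  TrL.n)))))))) (by decide +kernel)
theorem bx2_10 : BoxOK sI cl7 cl4 cl4 t1 t1 b2_10 :=
  box_mk (TrL.c (I.pos (nat_lit 0) (nat_lit 0)) T1.l14
  (TrL.c (I.pos (nat_lit 0) (nat_lit 0)) T1.l1
  (TrL.c (I.pos (nat_lit 0) (nat_lit 111196574)) T1.l2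
  (TrL.c (I.pos (nat_lit 0) (nat_lit 77433728)) T1.l3
  (TrL.c (I.pos (nat_lit 0) (nat_lit 0)) T1.l9
  (TrL.c (I.pos (nat_lit 0) (nat_lit 0)) T1.l5
  (TrL.c (I.mix (nat_lit 29511666) (nat_lit 77433728)) T1.l6
  (TrL.c (I.mix (nat_lit 29511666) (nat_lit 46070178)) T1.l7
  TrL.n)))))))) (by decide +kernel)
theorem sv2 : StarV sI cl7 cl4 cl4 t1 t1 t2 :=
  (bt_n (bt_n (bt_n (bt_b bx2_0) (bt_b bx2_1)) (bt_n (bt_b bx2_2) (bt_n (bt_b bx2_3) (bt_b bx2_4)))) (bt_n (bt_n (bt_b bx2_5) (bt_n (bt_b bx2_6) (bt_b bx2_7))) (bt_n (bt_b bx2_8) (bt_n (bt_b bx2_9) (bt_b bx2_10)))))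
def S2 : StarD := StarD.mk cl7 cl4 cl4 1 1 t2
def G : List StarD := [S0, S1, S2]
theorem so0 : StarOK sI G S0 :=
  star_mk (by decide) (by decide) rfl rfl rfl rfl rfl rfl (rfl : _ = t0) (rfl : _ = t2)
  (st_mk (Pth.l (Pth.l (Pth.l Pth.z))) (nat_lit 381805135) (nat_lit 389152440) (by decide +kernel))
  (st_mk (Pth.l (Pth.l (Pth.l Pth.z))) (nat_lit 420241950) (nat_lit 429268459) (by decide +kernel))
  (st_mk (Pth.l (Pth.l (Pth.l Pth.z))) (nat_lit 465064149) (nat_lit 476305351) (by decide +kernel)) sv0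
theorem so1 : StarOK sI G S1 :=
  star_mk (by decide) (by decide) rfl rfl rfl rfl rfl rfl (rfl : _ = t2) (rfl : _ = t0)
  (st_mk (Pth.l (Pth.l (Pth.l (Pth.l Pth.z)))) (nat_lit 144657322) (nat_lit 169379006) (by decide +kernel))
  (st_mk (Pth.l (Pth.l (Pth.l (Pth.l Pth.z)))) (nat_lit 182235527) (nat_lit 208343012) (by decide +kernel))
  (st_mk (Pth.l (Pth.l (Pth.l (Pth.l Pth.z)))) (nat_lit 226430826) (nat_lit 254532675) (by decide +kernel)) sv1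
theorem so2 : StarOK sI G S2 :=
  star_mk (by decide) (by decide) rfl rfl rfl rfl rfl rfl (rfl : _ = t1) (rfl : _ = t1)
  (st_mk (Pth.l (Pth.l (Pth.l Pth.z))) (nat_lit 369308321) (nat_lit 374985192) (by decide +kernel))
  (st_mk (Pth.l (Pth.l (Pth.l Pth.z))) (nat_lit 405232072) (nat_lit 411759407) (by decide +kernel))
  (st_mk (Pth.l (Pth.l (Pth.l Pth.z))) (nat_lit 446804730) (nat_lit 454423451) (by decide +kernel)) sv2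
theorem ok : GroupOK (nat_lit 0) (nat_lit 91291648) G := grp_mk (allS_c so0 (allS_c so1 (allS_c so2 allS_n)))
theorem cov : GCov G cl4 cl4 cl7 := cov_mk
  ⟨0, by decide, rfl, rfl, rfl⟩ ⟨1, by decide, rfl, rfl, rfl⟩ ⟨0, by decide, rfl, rfl, rfl⟩ ⟨1, by decide, rfl, rfl, rfl⟩ ⟨2, by decide, rfl, rfl, rfl⟩ ⟨2, by decide, rfl, rfl, rfl⟩
end Q114_0

namespace Q114_1
def sI : I := I.pos (nat_lit 91226112) (nat_lit 150339584)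
def b0_0 : Bx := Bx.mk (St.mk (I.pos (nat_lit 147013632) (nat_lit 218824704)) (I.mix (nat_lit 5750784) (nat_lit 103415808)) (I.mix (nat_lit 40697856) (nat_lit 63127552)) (I.pos (nat_lit 381648896) (nat_lit 490110976)) (I.mix (nat_lit 177242112) (nat_lit 119095296)) (I.mix (nat_lit 136249344) (nat_lit 131416064)) (I.mix (nat_lit 186974208) (nat_lit 191545344)))
  false (nat_lit 76074611)
def b0_1 : Bx := Bx.mk (St.mk (I.mix (nat_lit 49741824) (nat_lit 5799936)) (I.mix (nat_lit 19005440) (nat_lit 88457216)) (I.neg (nat_lit 71155712) (nat_lit 100597760)) (I.pos (nat_lit 263995392) (nat_lit 293814272)) (I.mix (nat_lit 78856192) (nat_lit 149880832)) (I.mix (nat_lit 129826816) (nat_lit 108609536)) (I.mix (nat_lit 65028096) (nat_lit 60309504)))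
  true (nat_lit 0)
def b0_2 : Bx := Bx.mk (St.mk (I.pos (nat_lit 3801088) (nat_lit 49709056)) (I.neg (nat_lit 26116096) (nat_lit 88440832)) (I.neg (nat_lit 71139328) (nat_lit 100630528)) (I.pos (nat_lit 266846208) (nat_lit 293847040)) (I.mix (nat_lit 149880832) (nat_lit 78856192)) (I.mix (nat_lit 108593152) (nat_lit 129826816)) (I.mix (nat_lit 65028096) (nat_lit 60309504)))
  false (nat_lit 32912646)
def b0_3 : Bx := Bx.mk (St.mk (I.mix (nat_lit 21315584) (nat_lit 5406720)) (I.mix (nat_lit 20529152) (nat_lit 20398080)) (I.neg (nat_lit 73531392) (nat_lit 84623360)) (I.pos (nat_lit 265388032) (nat_lit 277528576)) (I.mix (nat_lit 69599232) (nat_lit 63406080)) (I.mix (nat_lit 67010560) (nat_lit 59211776)) (I.mix (nat_lit 7028736) (nat_lit 19398656)))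
  true (nat_lit 0)
def b0_4 : Bx := Bx.mk (St.mk (I.pos (nat_lit 201867264) (nat_lit 254918656)) (I.mix (nat_lit 28688384) (nat_lit 27607040)) (I.neg (nat_lit 97271808) (nat_lit 204718080)) (I.pos (nat_lit 444104704) (nat_lit 537378816)) (I.mix (nat_lit 155500544) (nat_lit 99516416)) (I.mix (nat_lit 128663552) (nat_lit 127287296)) (I.mix (nat_lit 222937088) (nat_lit 262504448)))
  false (nat_lit 19504987)
def b0_5 : Bx := Bx.mk (St.mk (I.mix (nat_lit 4472832) (nat_lit 20971520)) (I.mix (nat_lit 16121856) (nat_lit 16547840)) (I.neg (nat_lit 73547776) (nat_lit 84819968)) (I.pos (nat_lit 265388032) (nat_lit 277708800)) (I.mix (nat_lit 57163776) (nat_lit 67502080)) (I.mix (nat_lit 57835520) (nat_lit 61964288)) (I.mix (nat_lit 7028736) (nat_lit 19267584)))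
  false (nat_lit 0)
def b0_6 : Bx := Bx.mk (St.mk (I.pos (nat_lit 10846208) (nat_lit 123551744)) (I.neg (nat_lit 6668288) (nat_lit 85934080)) (I.neg (nat_lit 35078144) (nat_lit 110821376)) (I.pos (nat_lit 264896512) (nat_lit 339312640)) (I.mix (nat_lit 147193856) (nat_lit 91324416)) (I.mix (nat_lit 98713600) (nat_lit 121208832)) (I.mix (nat_lit 109789184) (nat_lit 109543424)))
  false (nat_lit 63674615)
def b0_7 : Bx := Bx.mk (St.mk (I.pos (nat_lit 82657280) (nat_lit 191938560)) (I.mix (nat_lit 40828928) (nat_lit 93667328)) (I.mix (nat_lit 71991296) (nat_lit 56442880)) (I.pos (nat_lit 298254336) (nat_lit 439730176)) (I.mix (nat_lit 186089472) (nat_lit 122241024)) (I.mix (nat_lit 197246976) (nat_lit 169033728)) (I.mix (nat_lit 195756032) (nat_lit 187891712)))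
  false (nat_lit 69118796)
def b0_8 : Bx := Bx.mk (St.mk (I.neg (nat_lit 10846208) (nat_lit 125992960)) (I.mix (nat_lit 262144) (nat_lit 85934080)) (I.neg (nat_lit 29278208) (nat_lit 110837760)) (I.pos (nat_lit 264896512) (nat_lit 341688320)) (I.mix (nat_lit 91324416) (nat_lit 147210240)) (I.mix (nat_lit 121225216) (nat_lit 98729984)) (I.mix (nat_lit 109789184) (nat_lit 109559808)))
  true (nat_lit 0)
def b0_9 : Bx := Bx.mk (St.mk (I.pos (nat_lit 168427520) (nat_lit 247414784)) (I.mix (nat_lit 25575424) (nat_lit 100352000)) (I.mix (nat_lit 190398464) (nat_lit 39141376)) (I.pos (nat_lit 414662656) (nat_lit 518717440)) (I.mix (nat_lit 163594240) (nat_lit 159662080)) (I.mix (nat_lit 168542208) (nat_lit 154386432)) (I.mix (nat_lit 299155456) (nat_lit 263487488)))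
  false (nat_lit 78013814)
def b0_10 : Bx := Bx.mk (St.mk (I.mix (nat_lit 2850816) (nat_lit 39272448)) (I.mix (nat_lit 72384512) (nat_lit 15400960)) (I.neg (nat_lit 72450048) (nat_lit 96698368)) (I.pos (nat_lit 264404992) (nat_lit 285933568)) (I.mix (nat_lit 138985472) (nat_lit 73302016)) (I.mix (nat_lit 90750976) (nat_lit 127778816)) (I.mix (nat_lit 42123264) (nat_lit 41205760)))
  false (nat_lit 0)
def t0 : BTr := (BTr.n (BTr.n (BTr.n (BTr.b b0_0) (BTr.b b0_1)) (BTr.n (BTr.b b0_2) (BTr.n (BTr.b b0_3) (BTr.b b0_4)))) (BTr.n (BTr.n (BTr.b b0_5) (BTr.n (BTr.b b0_6) (BTr.b b0_7))) (BTr.n (BTr.b b0_8) (BTr.n (BTr.b b0_9) (BTr.b b0_10)))))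
namespace T0
def l0 : Tr := Tr.L (Pth.l (Pth.l (Pth.l Pth.z)))
def l1 : Tr := Tr.L (Pth.l (Pth.l (Pth.r Pth.z)))
def l2 : Tr := Tr.L (Pth.l (Pth.r (Pth.l Pth.z)))
def l3 : Tr := Tr.L (Pth.l (Pth.r (Pth.r (Pth.l Pth.z))))
def l4 : Tr := Tr.L (Pth.l (Pth.r (Pth.r (Pth.r Pth.z))))
def l5 : Tr := Tr.L (Pth.r (Pth.l (Pth.l Pth.z)))
def l6 : Tr := Tr.L (Pth.r (Pth.l (Pth.r (Pth.l Pth.z))))
def l7 : Tr := Tr.L (Pth.r (Pth.l (Pth.r (Pth.r Pth.z))))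
def l8 : Tr := Tr.L (Pth.r (Pth.r (Pth.l Pth.z)))
def l9 : Tr := Tr.L (Pth.r (Pth.r (Pth.r (Pth.l Pth.z))))
def l10 : Tr := Tr.L (Pth.r (Pth.r (Pth.r (Pth.r Pth.z))))
end T0
def b1_0 : Bx := Bx.mk (St.mk (I.pos (nat_lit 153501696) (nat_lit 231161856)) (I.mix (nat_lit 3112960) (nat_lit 58736640)) (I.mix (nat_lit 5177344) (nat_lit 98009088)) (I.pos (nat_lit 141737984) (nat_lit 272580608)) (I.mix (nat_lit 128106496) (nat_lit 91488256)) (I.mix (nat_lit 104464384) (nat_lit 92864512)) (I.mix (nat_lit 159236096) (nat_lit 128548864)))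
  false (nat_lit 16489487)
def b1_1 : Bx := Bx.mk (St.mk (I.pos (nat_lit 102891520) (nat_lit 166641664)) (I.neg (nat_lit 458752) (nat_lit 58228736)) (I.mix (nat_lit 55279616) (nat_lit 1622016)) (I.pos (nat_lit 97943552) (nat_lit 170180608)) (I.mix (nat_lit 87949312) (nat_lit 74383360)) (I.mix (nat_lit 74514432) (nat_lit 89374720)) (I.mix (nat_lit 69124096) (nat_lit 90013696)))
  false (nat_lit 38337238)
def b1_2 : Bx := Bx.mk (St.mk (I.mix (nat_lit 20774912) (nat_lit 118407168)) (I.mix (nat_lit 8110080) (nat_lit 29835264)) (I.mix (nat_lit 12517376) (nat_lit 18415616)) (I.pos (nat_lit 41074688) (nat_lit 116277248)) (I.mix (nat_lit 44400640) (nat_lit 51920896)) (I.mix (nat_lit 53297152) (nat_lit 41828352)) (I.mix (nat_lit 39911424) (nat_lit 29097984)))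
  false (nat_lit 0)
def b1_3 : Bx := Bx.mk (St.mk (I.mix (nat_lit 24412160) (nat_lit 79478784)) (I.mix (nat_lit 32522240) (nat_lit 3964928)) (I.mix (nat_lit 18333696) (nat_lit 3440640)) (I.pos (nat_lit 42352640) (nat_lit 87572480)) (I.mix (nat_lit 37896192) (nat_lit 41680896)) (I.mix (nat_lit 33488896) (nat_lit 43499520)) (I.mix (nat_lit 18120704) (nat_lit 24477696)))
  false (nat_lit 0)
def b1_4 : Bx := Bx.mk (St.mk (I.pos (nat_lit 155549696) (nat_lit 209469440)) (I.mix (nat_lit 16269312) (nat_lit 65011712)) (I.pos (nat_lit 2654208) (nat_lit 102481920)) (I.pos (nat_lit 146456576) (nat_lit 238387200)) (I.mix (nat_lit 166592512) (nat_lit 60686336)) (I.mix (nat_lit 167198720) (nat_lit 103038976)) (I.mix (nat_lit 180436992) (nat_lit 103202816)))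
  false (nat_lit 4565800)
def b1_5 : Bx := Bx.mk (St.mk (I.pos (nat_lit 93519872) (nat_lit 139509760)) (I.mix (nat_lit 60440576) (nat_lit 10551296)) (I.mix (nat_lit 55197696) (nat_lit 3588096)) (I.pos (nat_lit 82755584) (nat_lit 136921088)) (I.mix (nat_lit 104464384) (nat_lit 52953088)) (I.mix (nat_lit 61669376) (nat_lit 113295360)) (I.mix (nat_lit 47366144) (nat_lit 84443136)))
  false (nat_lit 7522809)
def b1_6 : Bx := Bx.mk (St.mk (I.mix (nat_lit 38813696) (nat_lit 109395968)) (I.mix (nat_lit 14139392) (nat_lit 36241408)) (I.mix (nat_lit 8306688) (nat_lit 24739840)) (I.pos (nat_lit 41517056) (nat_lit 107937792)) (I.mix (nat_lit 64471040) (nat_lit 37224448)) (I.mix (nat_lit 68026368) (nat_lit 40534016)) (I.mix (nat_lit 37191680) (nat_lit 24264704)))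
  false (nat_lit 0)
def b1_7 : Bx := Bx.mk (St.mk (I.mix (nat_lit 32768000) (nat_lit 69926912)) (I.neg (nat_lit 720896) (nat_lit 32145408)) (I.mix (nat_lit 16171008) (nat_lit 3194880)) (I.pos (nat_lit 42762240) (nat_lit 83132416)) (I.mix (nat_lit 47054848) (nat_lit 26591232)) (I.mix (nat_lit 28311552) (nat_lit 47316992)) (I.mix (nat_lit 12681216) (nat_lit 17645568)))
  false (nat_lit 0)
def b1_8 : Bx := Bx.mk (St.mk (I.pos (nat_lit 180518912) (nat_lit 242057216)) (I.mix (nat_lit 15712256) (nat_lit 59260928)) (I.mix (nat_lit 41484288) (nat_lit 96960512)) (I.pos (nat_lit 207093760) (nat_lit 295747584)) (I.mix (nat_lit 132513792) (nat_lit 117948416)) (I.mix (nat_lit 142934016) (nat_lit 122142720)) (I.mix (nat_lit 233046016) (nat_lit 187744256)))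
  false (nat_lit 47760432)
def b1_9 : Bx := Bx.mk (St.mk (I.pos (nat_lit 152174592) (nat_lit 195280896)) (I.mix (nat_lit 43761664) (nat_lit 30588928)) (I.mix (nat_lit 40058880) (nat_lit 57016320)) (I.pos (nat_lit 143310848) (nat_lit 211992576)) (I.mix (nat_lit 156123136) (nat_lit 85704704)) (I.mix (nat_lit 178749440) (nat_lit 106643456)) (I.mix (nat_lit 195035136) (nat_lit 111214592)))
  false (nat_lit 0)
def b1_10 : Bx := Bx.mk (St.mk (I.pos (nat_lit 130908160) (nat_lit 164118528)) (I.mix (nat_lit 33865728) (nat_lit 2867200)) (I.mix (nat_lit 29048832) (nat_lit 10027008)) (I.pos (nat_lit 122421248) (nat_lit 168001536)) (I.mix (nat_lit 71516160) (nat_lit 29147136)) (I.mix (nat_lit 42254336) (nat_lit 55001088)) (I.mix (nat_lit 48709632) (nat_lit 57556992)))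
  false (nat_lit 0)
def b1_11 : Bx := Bx.mk (St.mk (I.pos (nat_lit 82657280) (nat_lit 112361472)) (I.mix (nat_lit 12353536) (nat_lit 12451840)) (I.mix (nat_lit 15548416) (nat_lit 4915200)) (I.pos (nat_lit 77103104) (nat_lit 112508928)) (I.mix (nat_lit 44171264) (nat_lit 26427392)) (I.mix (nat_lit 31555584) (nat_lit 31817728)) (I.mix (nat_lit 23609344) (nat_lit 24805376)))
  false (nat_lit 0)
def b1_12 : Bx := Bx.mk (St.mk (I.mix (nat_lit 46891008) (nat_lit 90193920)) (I.mix (nat_lit 14499840) (nat_lit 9519104)) (I.mix (nat_lit 7389184) (nat_lit 3850240)) (I.pos (nat_lit 44351488) (nat_lit 90144768)) (I.mix (nat_lit 24281088) (nat_lit 14860288)) (I.mix (nat_lit 18563072) (nat_lit 19120128)) (I.mix (nat_lit 6881280) (nat_lit 6946816)))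
  false (nat_lit 0)
def b1_13 : Bx := Bx.mk (St.mk (I.neg (nat_lit 9191424) (nat_lit 41369600)) (I.mix (nat_lit 4390912) (nat_lit 8830976)) (I.neg (nat_lit 720896) (nat_lit 6406144)) (I.pos (nat_lit 44662784) (nat_lit 72089600)) (I.mix (nat_lit 23560192) (nat_lit 15286272)) (I.mix (nat_lit 18219008) (nat_lit 18644992)) (I.mix (nat_lit 5439488) (nat_lit 4833280)))
  false (nat_lit 0)
def b1_14 : Bx := Bx.mk (St.mk (I.pos (nat_lit 204947456) (nat_lit 255377408)) (I.mix (nat_lit 21774336) (nat_lit 21643264)) (I.mix (nat_lit 56442880) (nat_lit 24985600)) (I.pos (nat_lit 237862912) (nat_lit 329121792)) (I.mix (nat_lit 118079488) (nat_lit 38780928)) (I.mix (nat_lit 66748416) (nat_lit 73908224)) (I.mix (nat_lit 120930304) (nat_lit 140673024)))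
  false (nat_lit 0)
def b1_15 : Bx := Bx.mk (St.mk (I.pos (nat_lit 142409728) (nat_lit 178274304)) (I.neg (nat_lit 3932160) (nat_lit 42237952)) (I.mix (nat_lit 40288256) (nat_lit 3194880)) (I.pos (nat_lit 133464064) (nat_lit 190332928)) (I.mix (nat_lit 63963136) (nat_lit 54788096)) (I.mix (nat_lit 65617920) (nat_lit 55853056)) (I.mix (nat_lit 74498048) (nat_lit 57868288)))
  false (nat_lit 0)
def t1 : BTr := (BTr.n (BTr.n (BTr.n (BTr.n (BTr.b b1_0) (BTr.b b1_1)) (BTr.n (BTr.b b1_2) (BTr.b b1_3))) (BTr.n (BTr.n (BTr.b b1_4) (BTr.b b1_5)) (BTr.n (BTr.b b1_6) (BTr.b b1_7)))) (BTr.n (BTr.n (BTr.n (BTr.b b1_8) (BTr.b b1_9)) (BTr.n (BTr.b b1_10) (BTr.b b1_11))) (BTr.n (BTr.n (BTr.b b1_12) (BTr.b b1_13)) (BTr.n (BTr.b b1_14) (BTr.b b1_15)))))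
namespace T1
def l0 : Tr := Tr.L (Pth.l (Pth.l (Pth.l (Pth.l Pth.z))))
def l1 : Tr := Tr.L (Pth.l (Pth.l (Pth.l (Pth.r Pth.z))))
def l2 : Tr := Tr.L (Pth.l (Pth.l (Pth.r (Pth.l Pth.z))))
def l3 : Tr := Tr.L (Pth.l (Pth.l (Pth.r (Pth.r Pth.z))))
def l4 : Tr := Tr.L (Pth.l (Pth.r (Pth.l (Pth.l Pth.z))))
def l5 : Tr := Tr.L (Pth.l (Pth.r (Pth.l (Pth.r Pth.z))))
def l6 : Tr := Tr.L (Pth.l (Pth.r (Pth.r (Pth.l Pth.z))))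
def l7 : Tr := Tr.L (Pth.l (Pth.r (Pth.r (Pth.r Pth.z))))
def l8 : Tr := Tr.L (Pth.r (Pth.l (Pth.l (Pth.l Pth.z))))
def l9 : Tr := Tr.L (Pth.r (Pth.l (Pth.l (Pth.r Pth.z))))
def l10 : Tr := Tr.L (Pth.r (Pth.l (Pth.r (Pth.l Pth.z))))
def l11 : Tr := Tr.L (Pth.r (Pth.l (Pth.r (Pth.r Pth.z))))
def l12 : Tr := Tr.L (Pth.r (Pth.r (Pth.l (Pth.l Pth.z))))
def l13 : Tr := Tr.L (Pth.r (Pth.r (Pth.l (Pth.r Pth.z))))
def l14 : Tr := Tr.L (Pth.r (Pth.r (Pth.r (Pth.l Pth.z))))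
def l15 : Tr := Tr.L (Pth.r (Pth.r (Pth.r (Pth.r Pth.z))))
end T1
def b2_0 : Bx := Bx.mk (St.mk (I.pos (nat_lit 121389056) (nat_lit 219824128)) (I.mix (nat_lit 4734976) (nat_lit 88440832)) (I.mix (nat_lit 7864320) (nat_lit 144637952)) (I.pos (nat_lit 354615296) (nat_lit 462356480)) (I.mix (nat_lit 199213056) (nat_lit 104775680)) (I.mix (nat_lit 148963328) (nat_lit 122830848)) (I.mix (nat_lit 161857536) (nat_lit 159023104)))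
  false (nat_lit 122684942)
def b2_1 : Bx := Bx.mk (St.mk (I.pos (nat_lit 38174720) (nat_lit 115982336)) (I.neg (nat_lit 1638400) (nat_lit 97910784)) (I.mix (nat_lit 42942464) (nat_lit 48873472)) (I.pos (nat_lit 278560768) (nat_lit 327565312)) (I.mix (nat_lit 120766464) (nat_lit 115359744)) (I.mix (nat_lit 113934336) (nat_lit 110051328)) (I.mix (nat_lit 105070592) (nat_lit 100827136)))
  false (nat_lit 133802369)
def b2_2 : Bx := Bx.mk (St.mk (I.pos (nat_lit 100450304) (nat_lit 176406528)) (I.mix (nat_lit 46989312) (nat_lit 90521600)) (I.pos (nat_lit 4259840) (nat_lit 150290432)) (I.pos (nat_lit 309231616) (nat_lit 402636800)) (I.mix (nat_lit 231161856) (nat_lit 106561536)) (I.mix (nat_lit 218660864) (nat_lit 172687360)) (I.mix (nat_lit 231653376) (nat_lit 204996608)))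
  false (nat_lit 115837219)
def b2_3 : Bx := Bx.mk (St.mk (I.neg (nat_lit 38174720) (nat_lit 117211136)) (I.pos (nat_lit 98304) (nat_lit 97894400)) (I.mix (nat_lit 42942464) (nat_lit 49561600)) (I.pos (nat_lit 278560768) (nat_lit 328548352)) (I.mix (nat_lit 115359744) (nat_lit 120766464)) (I.mix (nat_lit 110067712) (nat_lit 113934336)) (I.mix (nat_lit 105086976) (nat_lit 100827136)))
  true (nat_lit 0)
def b2_4 : Bx := Bx.mk (St.mk (I.pos (nat_lit 83361792) (nat_lit 115720192)) (I.mix (nat_lit 42582016) (nat_lit 671744)) (I.pos (nat_lit 10240000) (nat_lit 51937280)) (I.pos (nat_lit 297336832) (nat_lit 328564736)) (I.mix (nat_lit 86097920) (nat_lit 77037568)) (I.mix (nat_lit 69304320) (nat_lit 83492864)) (I.mix (nat_lit 64225280) (nat_lit 68960256)))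
  false (nat_lit 0)
def b2_5 : Bx := Bx.mk (St.mk (I.mix (nat_lit 67289088) (nat_lit 15237120)) (I.mix (nat_lit 18513920) (nat_lit 95338496)) (I.neg (nat_lit 5242880) (nat_lit 28721152)) (I.pos (nat_lit 268976128) (nat_lit 301875200)) (I.mix (nat_lit 89554944) (nat_lit 115605504)) (I.mix (nat_lit 120274944) (nat_lit 109281280)) (I.mix (nat_lit 47841280) (nat_lit 37765120)))
  true (nat_lit 0)
def b2_6 : Bx := Bx.mk (St.mk (I.pos (nat_lit 25870336) (nat_lit 67207168)) (I.neg (nat_lit 32227328) (nat_lit 95338496)) (I.neg (nat_lit 6963200) (nat_lit 28721152)) (I.pos (nat_lit 277331968) (nat_lit 301563904)) (I.mix (nat_lit 111624192) (nat_lit 89489408)) (I.mix (nat_lit 109281280) (nat_lit 106020864)) (I.mix (nat_lit 47857664) (nat_lit 37765120)))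
  false (nat_lit 63462042)
def b2_7 : Bx := Bx.mk (St.mk (I.pos (nat_lit 177963008) (nat_lit 293044224)) (I.mix (nat_lit 38961152) (nat_lit 60669952)) (I.mix (nat_lit 106119168) (nat_lit 93536256)) (I.pos (nat_lit 402571264) (nat_lit 600539136)) (I.mix (nat_lit 111624192) (nat_lit 84393984)) (I.mix (nat_lit 106283008) (nat_lit 83509248)) (I.mix (nat_lit 191791104) (nat_lit 134217728)))
  false (nat_lit 77935513)
def b2_8 : Bx := Bx.mk (St.mk (I.mix (nat_lit 15908864) (nat_lit 52527104)) (I.mix (nat_lit 48627712) (nat_lit 18448384)) (I.neg (nat_lit 5767168) (nat_lit 17956864)) (I.pos (nat_lit 269828096) (nat_lit 286670848)) (I.mix (nat_lit 56475648) (nat_lit 63930368)) (I.mix (nat_lit 55541760) (nat_lit 50642944)) (I.mix (nat_lit 13500416) (nat_lit 14319616)))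
  false (nat_lit 0)
def b2_9 : Bx := Bx.mk (St.mk (I.pos (nat_lit 139100160) (nat_lit 204767232)) (I.pos (nat_lit 20824064) (nat_lit 89833472)) (I.pos (nat_lit 41140224) (nat_lit 143671296)) (I.pos (nat_lit 372670464) (nat_lit 435240960)) (I.mix (nat_lit 153600000) (nat_lit 132055040)) (I.mix (nat_lit 146145280) (nat_lit 111755264)) (I.mix (nat_lit 210010112) (nat_lit 141492224)))
  false (nat_lit 58893951)
def b2_10 : Bx := Bx.mk (St.mk (I.pos (nat_lit 25264128) (nat_lit 57098240)) (I.neg (nat_lit 22937600) (nat_lit 83296256)) (I.neg (nat_lit 6995968) (nat_lit 27951104)) (I.pos (nat_lit 276725760) (nat_lit 294223872)) (I.mix (nat_lit 115621888) (nat_lit 84885504)) (I.mix (nat_lit 72646656) (nat_lit 120274944)) (I.mix (nat_lit 32374784) (nat_lit 29425664)))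
  false (nat_lit 22366066)
def t2 : BTr := (BTr.n (BTr.n (BTr.n (BTr.b b2_0) (BTr.b b2_1)) (BTr.n (BTr.b b2_2) (BTr.n (BTr.b b2_3) (BTr.b b2_4)))) (BTr.n (BTr.n (BTr.b b2_5) (BTr.n (BTr.b b2_6) (BTr.b b2_7))) (BTr.n (BTr.b b2_8) (BTr.n (BTr.b b2_9) (BTr.b b2_10)))))
namespace T2
def l0 : Tr := Tr.L (Pth.l (Pth.l (Pth.l Pth.z)))
def l1 : Tr := Tr.L (Pth.l (Pth.l (Pth.r Pth.z)))
def l2 : Tr := Tr.L (Pth.l (Pth.r (Pth.l Pth.z)))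
def l3 : Tr := Tr.L (Pth.l (Pth.r (Pth.r (Pth.l Pth.z))))
def l4 : Tr := Tr.L (Pth.l (Pth.r (Pth.r (Pth.r Pth.z))))
def l5 : Tr := Tr.L (Pth.r (Pth.l (Pth.l Pth.z)))
def l6 : Tr := Tr.L (Pth.r (Pth.l (Pth.r (Pth.l Pth.z))))
def l7 : Tr := Tr.L (Pth.r (Pth.l (Pth.r (Pth.r Pth.z))))
def l8 : Tr := Tr.L (Pth.r (Pth.r (Pth.l Pth.z)))
def l9 : Tr := Tr.L (Pth.r (Pth.r (Pth.r (Pth.l Pth.z))))
def l10 : Tr := Tr.L (Pth.r (Pth.r (Pth.r (Pth.r Pth.z))))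
end T2
theorem bx0_0 : BoxOK sI cl4 cl4 cl7 t0 t2 b0_0 :=
  box_mk (TrL.c (I.pos (nat_lit 0) (nat_lit 0)) (xb (xa T0.l9 T0.l0) (xa (xb T0.l9 (xa T0.l9 T0.l0)) (xb T0.l0 (xa T0.l0 T0.l0))))
  (TrL.c (I.pos (nat_lit 0) (nat_lit 0)) (xb T2.l1 T2.l1)
  (TrL.c (I.pos (nat_lit 0) (nat_lit 0)) T0.l1
  (TrL.c (I.pos (nat_lit 0) (nat_lit 0)) (xb T2.l2 T2.l2)
  (TrL.c (I.pos (nat_lit 0) (nat_lit 0)) (xb T0.l2 T0.l2)
  (TrL.c (I.pos (nat_lit 0) (nat_lit 0)) (xb T2.l3 T2.l3)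
  TrL.n)))))) (by decide +kernel)
theorem bx0_1 : BoxOK sI cl4 cl4 cl7 t0 t2 b0_1 :=
  box_mk (TrL.c (I.pos (nat_lit 0) (nat_lit 0)) T2.l4
  (TrL.c (I.pos (nat_lit 0) (nat_lit 0)) T0.l3
  TrL.n)) (by decide +kernel)
theorem bx0_2 : BoxOK sI cl4 cl4 cl7 t0 t2 b0_2 :=
  box_mk (TrL.c (I.pos (nat_lit 0) (nat_lit 0)) (xb (xa (xs T0.l4 T0.l4) T0.l4) T0.l9)
  (TrL.c (I.pos (nat_lit 0) (nat_lit 0)) T2.l1
  (TrL.c (I.pos (nat_lit 0) (nat_lit 0)) T0.l1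
  (TrL.c (I.pos (nat_lit 0) (nat_lit 0)) T2.l2
  (TrL.c (I.pos (nat_lit 0) (nat_lit 0)) T0.l5
  (TrL.c (I.pos (nat_lit 0) (nat_lit 0)) T2.l3
  TrL.n)))))) (by decide +kernel)
theorem bx0_3 : BoxOK sI cl4 cl4 cl7 t0 t2 b0_3 :=
  box_mk (TrL.c (I.pos (nat_lit 0) (nat_lit 0)) T2.l4
  (TrL.c (I.pos (nat_lit 0) (nat_lit 0)) T0.l3
  TrL.n)) (by decide +kernel)
theorem bx0_4 : BoxOK sI cl4 cl4 cl7 t0 t2 b0_4 :=
  box_mk (TrL.c (I.pos (nat_lit 0) (nat_lit 0)) (xa T0.l0 T0.l7)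
  (TrL.c (I.pos (nat_lit 0) (nat_lit 0)) T2.l1
  (TrL.c (I.pos (nat_lit 0) (nat_lit 0)) T0.l8
  (TrL.c (I.pos (nat_lit 0) (nat_lit 0)) (xa T2.l2 T2.l2)
  (TrL.c (I.pos (nat_lit 0) (nat_lit 0)) T0.l6
  (TrL.c (I.pos (nat_lit 0) (nat_lit 0)) T2.l3
  TrL.n)))))) (by decide +kernel)
theorem bx0_5 : BoxOK sI cl4 cl4 cl7 t0 t2 b0_5 :=
  box_mk (TrL.c (I.pos (nat_lit 0) (nat_lit 0)) T0.l4
  (TrL.c (I.pos (nat_lit 0) (nat_lit 0)) T2.l1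
  (TrL.c (I.pos (nat_lit 0) (nat_lit 0)) T0.l1
  (TrL.c (I.pos (nat_lit 0) (nat_lit 0)) T2.l2
  (TrL.c (I.pos (nat_lit 0) (nat_lit 0)) T0.l5
  (TrL.c (I.pos (nat_lit 0) (nat_lit 0)) T2.l3
  TrL.n)))))) (by decide +kernel)
theorem bx0_6 : BoxOK sI cl4 cl4 cl7 t0 t2 b0_6 :=
  box_mk (TrL.c (I.pos (nat_lit 0) (nat_lit 0)) (xa (xb (xa (xb T0.l9 T0.l9) T0.l9) (xa T0.l9 T0.l9)) (xb T0.l9 T0.l9))
  (TrL.c (I.pos (nat_lit 0) (nat_lit 0)) (xa T2.l1 T2.l1)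
  (TrL.c (I.pos (nat_lit 0) (nat_lit 0)) T0.l1
  (TrL.c (I.pos (nat_lit 0) (nat_lit 0)) T2.l2
  (TrL.c (I.pos (nat_lit 0) (nat_lit 0)) (xa T0.l10 T0.l10)
  (TrL.c (I.pos (nat_lit 0) (nat_lit 0)) T2.l3
  TrL.n)))))) (by decide +kernel)
theorem bx0_7 : BoxOK sI cl4 cl4 cl7 t0 t2 b0_7 :=
  box_mk (TrL.c (I.pos (nat_lit 0) (nat_lit 0)) (xb (xa (xb (xa T0.l9 T0.l9) (xa T0.l9 T0.l9)) (xa T0.l9 (xb T0.l9 T0.l9))) (xa (xb (xa T0.l9 T0.l9) (xa T0.l9 T0.l9)) (xa T0.l9 (xb T0.l9 T0.l9))))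
  (TrL.c (I.pos (nat_lit 0) (nat_lit 0)) (xb (xa T2.l1 T2.l1) (xa T2.l1 T2.l1))
  (TrL.c (I.pos (nat_lit 0) (nat_lit 0)) (xb T0.l1 T0.l1)
  (TrL.c (I.pos (nat_lit 0) (nat_lit 0)) (xb (xa T2.l2 (xb T2.l2 T2.l2)) (xa T2.l2 T2.l2))
  (TrL.c (I.pos (nat_lit 0) (nat_lit 0)) (xa T0.l10 T0.l10)
  (TrL.c (I.pos (nat_lit 0) (nat_lit 0)) (xb (xa T2.l3 T2.l3) (xa T2.l3 T2.l3))
  TrL.n)))))) (by decide +kernel)
theorem bx0_8 : BoxOK sI cl4 cl4 cl7 t0 t2 b0_8 :=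
  box_mk (TrL.c (I.pos (nat_lit 0) (nat_lit 0)) (xa T2.l1 T2.l1)
  (TrL.c (I.pos (nat_lit 0) (nat_lit 0)) T0.l1
  TrL.n)) (by decide +kernel)
theorem bx0_9 : BoxOK sI cl4 cl4 cl7 t0 t2 b0_9 :=
  box_mk (TrL.c (I.pos (nat_lit 0) (nat_lit 0)) (xb (xa (xb (xa T0.l0 T0.l0) (xa T0.l0 T0.l0)) (xb T0.l0 T0.l0)) (xa (xb (xa T0.l0 T0.l0) (xa T0.l0 T0.l0)) (xb T0.l0 (xa T0.l0 T0.l0))))
  (TrL.c (I.pos (nat_lit 0) (nat_lit 0)) (xb (xa T2.l1 T2.l1) (xa T2.l1 (xb T2.l1 T2.l1)))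
  (TrL.c (I.pos (nat_lit 0) (nat_lit 0)) (xb T0.l1 (xa T0.l1 T0.l1))
  (TrL.c (I.pos (nat_lit 0) (nat_lit 0)) (xb (xa (xb T2.l2 T2.l2) (xb (xa T2.l2 T2.l2) T2.l2)) (xa T2.l2 (xb T2.l2 (xs T2.l2 T2.l2))))
  (TrL.c (I.pos (nat_lit 0) (nat_lit 0)) (xb T0.l2 (xa T0.l2 T0.l2))
  (TrL.c (I.pos (nat_lit 0) (nat_lit 0)) (xb (xa T2.l3 T2.l3) (xa T2.l3 (xb T2.l3 T2.l3)))
  TrL.n)))))) (by decide +kernel)
theorem bx0_10 : BoxOK sI cl4 cl4 cl7 t0 t2 b0_10 :=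
  box_mk (TrL.c (I.pos (nat_lit 0) (nat_lit 0)) (xb (xa T0.l4 T0.l4) (xb T0.l4 T0.l4))
  (TrL.c (I.pos (nat_lit 0) (nat_lit 0)) T2.l1
  (TrL.c (I.pos (nat_lit 0) (nat_lit 0)) T0.l1
  (TrL.c (I.pos (nat_lit 0) (nat_lit 0)) T2.l2
  (TrL.c (I.pos (nat_lit 0) (nat_lit 0)) T0.l5
  (TrL.c (I.pos (nat_lit 0) (nat_lit 0)) T2.l3
  TrL.n)))))) (by decide +kernel)
theorem sv0 : StarV sI cl4 cl4 cl7 t0 t2 t0 :=
  (bt_n (bt_n (bt_n (bt_b bx0_0) (bt_b bx0_1)) (bt_n (bt_b bx0_2) (bt_n (bt_b bx0_3) (bt_b bx0_4)))) (bt_n (bt_n (bt_b bx0_5) (bt_n (bt_b bx0_6) (bt_b bx0_7))) (bt_n (bt_b bx0_8) (bt_n (bt_b bx0_9) (bt_b bx0_10)))))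
def S0 : StarD := StarD.mk cl4 cl4 cl7 0 2 t0
theorem bx1_0 : BoxOK sI cl4 cl7 cl4 t2 t0 b1_0 :=
  box_mk (TrL.c (I.pos (nat_lit 0) (nat_lit 0)) (xa (xb T2.l0 (xa (xb T2.l0 T2.l0) (xb T2.l0 T2.l0))) (xb T2.l0 (xa (xb T2.l0 T2.l0) (xb T2.l0 T2.l0))))
  (TrL.c (I.pos (nat_lit 0) (nat_lit 0)) (xa T0.l6 (xb T0.l6 (xa T0.l6 (xs T0.l6 T0.l6))))
  (TrL.c (I.pos (nat_lit 0) (nat_lit 0)) T2.l5
  (TrL.c (I.pos (nat_lit 0) (nat_lit 0)) T0.l7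
  (TrL.c (I.pos (nat_lit 0) (nat_lit 0)) (xa T2.l6 T2.l6)
  (TrL.c (I.pos (nat_lit 0) (nat_lit 0)) (xa T0.l8 (xb T0.l8 (xa T0.l8 (xs T0.l8 T0.l8))))
  TrL.n)))))) (by decide +kernel)
theorem bx1_1 : BoxOK sI cl4 cl7 cl4 t2 t0 b1_1 :=
  box_mk (TrL.c (I.pos (nat_lit 0) (nat_lit 0)) (xa (xb T2.l0 (xa T2.l7 T2.l7)) T2.l0)
  (TrL.c (I.pos (nat_lit 0) (nat_lit 0)) T0.l6
  (TrL.c (I.pos (nat_lit 0) (nat_lit 0)) T2.l5
  (TrL.c (I.pos (nat_lit 0) (nat_lit 0)) (xa T0.l7 T0.l7)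
  (TrL.c (I.pos (nat_lit 0) (nat_lit 0)) T2.l8
  (TrL.c (I.pos (nat_lit 0) (nat_lit 0)) T0.l8
  TrL.n)))))) (by decide +kernel)
theorem bx1_2 : BoxOK sI cl4 cl7 cl4 t2 t0 b1_2 :=
  box_mk (TrL.c (I.pos (nat_lit 0) (nat_lit 0)) (xa (xa T2.l7 T2.l7) (xa T2.l7 (xb T2.l7 (xa T2.l7 T2.l7))))
  (TrL.c (I.pos (nat_lit 0) (nat_lit 0)) (xa T0.l6 T0.l6)
  (TrL.c (I.pos (nat_lit 0) (nat_lit 0)) T2.l5
  (TrL.c (I.pos (nat_lit 0) (nat_lit 0)) (xa T0.l7 T0.l7)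
  (TrL.c (I.pos (nat_lit 0) (nat_lit 0)) T2.l8
  (TrL.c (I.pos (nat_lit 0) (nat_lit 0)) (xa T0.l8 T0.l8)
  TrL.n)))))) (by decide +kernel)
theorem bx1_3 : BoxOK sI cl4 cl7 cl4 t2 t0 b1_3 :=
  box_mk (TrL.c (I.pos (nat_lit 0) (nat_lit 0)) (xa T2.l7 T2.l7)
  (TrL.c (I.pos (nat_lit 0) (nat_lit 0)) (xa T0.l7 T0.l6)
  (TrL.c (I.pos (nat_lit 0) (nat_lit 0)) T2.l5
  (TrL.c (I.pos (nat_lit 0) (nat_lit 0)) (xa T0.l6 T0.l7)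
  (TrL.c (I.pos (nat_lit 0) (nat_lit 0)) T2.l8
  (TrL.c (I.pos (nat_lit 0) (nat_lit 0)) (xa T0.l8 T0.l8)
  TrL.n)))))) (by decide +kernel)
theorem bx1_4 : BoxOK sI cl4 cl7 cl4 t2 t0 b1_4 :=
  box_mk (TrL.c (I.pos (nat_lit 0) (nat_lit 0)) (xb (xa (xb T2.l9 T2.l9) (xb (xa T2.l9 T2.l9) T2.l9)) (xa (xb (xa T2.l9 T2.l9) (xa T2.l9 T2.l9)) (xb (xa T2.l9 T2.l9) (xa T2.l9 T2.l9))))
  (TrL.c (I.pos (nat_lit 0) (nat_lit 0)) (xb (xa T0.l6 T0.l6) (xa (xb T0.l6 T0.l6) (xs T0.l6 T0.l6)))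
  (TrL.c (I.pos (nat_lit 0) (nat_lit 0)) T2.l5
  (TrL.c (I.pos (nat_lit 0) (nat_lit 0)) (xb T0.l7 (xa T0.l7 T0.l7))
  (TrL.c (I.pos (nat_lit 0) (nat_lit 0)) T2.l10
  (TrL.c (I.pos (nat_lit 0) (nat_lit 0)) (xb (xa T0.l8 T0.l8) (xa (xb T0.l8 T0.l8) (xs T0.l8 T0.l8)))
  TrL.n)))))) (by decide +kernel)
theorem bx1_5 : BoxOK sI cl4 cl7 cl4 t2 t0 b1_5 :=
  box_mk (TrL.c (I.pos (nat_lit 0) (nat_lit 0)) (xb (xa T2.l7 T2.l0) (xa T2.l7 T2.l7))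
  (TrL.c (I.pos (nat_lit 0) (nat_lit 0)) T0.l6
  (TrL.c (I.pos (nat_lit 0) (nat_lit 0)) T2.l5
  (TrL.c (I.pos (nat_lit 0) (nat_lit 0)) T0.l7
  (TrL.c (I.pos (nat_lit 0) (nat_lit 0)) T2.l8
  (TrL.c (I.pos (nat_lit 0) (nat_lit 0)) T0.l8
  TrL.n)))))) (by decide +kernel)
theorem bx1_6 : BoxOK sI cl4 cl7 cl4 t2 t0 b1_6 :=
  box_mk (TrL.c (I.pos (nat_lit 0) (nat_lit 0)) (xa (xa (xb T2.l7 (xa T2.l7 T2.l7)) (xb T2.l7 T2.l7)) (xa T2.l7 (xb T2.l7 (xa T2.l7 T2.l7))))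
  (TrL.c (I.pos (nat_lit 0) (nat_lit 0)) (xa (xa T0.l7 T0.l6) T0.l6)
  (TrL.c (I.pos (nat_lit 0) (nat_lit 0)) (xa T2.l5 T2.l5)
  (TrL.c (I.pos (nat_lit 0) (nat_lit 0)) (xa (xa T0.l7 T0.l7) T0.l7)
  (TrL.c (I.pos (nat_lit 0) (nat_lit 0)) (xa T2.l8 T2.l8)
  (TrL.c (I.pos (nat_lit 0) (nat_lit 0)) (xa T0.l8 T0.l8)
  TrL.n)))))) (by decide +kernel)
theorem bx1_7 : BoxOK sI cl4 cl7 cl4 t2 t0 b1_7 :=
  box_mk (TrL.c (I.pos (nat_lit 0) (nat_lit 0)) (xa (xa T2.l7 T2.l7) T2.l7)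
  (TrL.c (I.pos (nat_lit 0) (nat_lit 0)) (xa T0.l7 T0.l6)
  (TrL.c (I.pos (nat_lit 0) (nat_lit 0)) T2.l5
  (TrL.c (I.pos (nat_lit 0) (nat_lit 0)) (xa T0.l6 T0.l7)
  (TrL.c (I.pos (nat_lit 0) (nat_lit 0)) T2.l8
  (TrL.c (I.pos (nat_lit 0) (nat_lit 0)) (xa T0.l8 T0.l8)
  TrL.n)))))) (by decide +kernel)
theorem bx1_8 : BoxOK sI cl4 cl7 cl4 t2 t0 b1_8 :=
  box_mk (TrL.c (I.pos (nat_lit 0) (nat_lit 0)) (xa (xb (xb (xa T2.l0 T2.l0) (xa T2.l0 T2.l0)) (xa (xb T2.l0 T2.l0) (xb T2.l0 T2.l0))) (xb (xa (xb T2.l0 T2.l0) T2.l2) (xa (xb T2.l0 T2.l0) (xb T2.l0 T2.l2))))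
  (TrL.c (I.pos (nat_lit 0) (nat_lit 0)) (xa (xb T0.l6 (xa T0.l6 T0.l6)) (xb (xa T0.l6 T0.l6) (xa T0.l6 (xs T0.l6 T0.l6))))
  (TrL.c (I.pos (nat_lit 0) (nat_lit 0)) (xa T2.l5 T2.l3)
  (TrL.c (I.pos (nat_lit 0) (nat_lit 0)) (xa (xb T0.l7 T0.l7) (xb (xa T0.l7 T0.l7) (xa T0.l7 T0.l7)))
  (TrL.c (I.pos (nat_lit 0) (nat_lit 0)) (xa T2.l6 T2.l1)
  (TrL.c (I.pos (nat_lit 0) (nat_lit 0)) (xa (xb T0.l8 (xa T0.l8 T0.l8)) (xb (xa T0.l8 T0.l8) (xa T0.l8 (xs T0.l8 T0.l8))))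
  TrL.n)))))) (by decide +kernel)
theorem bx1_9 : BoxOK sI cl4 cl7 cl4 t2 t0 b1_9 :=
  box_mk (TrL.c (I.pos (nat_lit 0) (nat_lit 0)) (xb (xa (xb (xa T2.l9 T2.l9) (xa T2.l9 T2.l9)) (xb (xa T2.l9 T2.l9) T2.l9)) (xa (xb (xa T2.l9 T2.l9) (xa T2.l9 T2.l9)) (xb T2.l9 (xa T2.l9 T2.l9))))
  (TrL.c (I.pos (nat_lit 0) (nat_lit 0)) (xb (xa T0.l6 T0.l6) (xa T0.l6 T0.l6))
  (TrL.c (I.pos (nat_lit 0) (nat_lit 0)) T2.l5
  (TrL.c (I.pos (nat_lit 0) (nat_lit 0)) (xb (xa T0.l7 T0.l7) T0.l7)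
  (TrL.c (I.pos (nat_lit 0) (nat_lit 0)) T2.l10
  (TrL.c (I.pos (nat_lit 0) (nat_lit 0)) (xb (xa T0.l8 T0.l8) (xa T0.l8 T0.l8))
  TrL.n)))))) (by decide +kernel)
theorem bx1_10 : BoxOK sI cl4 cl7 cl4 t2 t0 b1_10 :=
  box_mk (TrL.c (I.pos (nat_lit 0) (nat_lit 0)) T2.l0
  (TrL.c (I.pos (nat_lit 0) (nat_lit 0)) T0.l6
  (TrL.c (I.pos (nat_lit 0) (nat_lit 0)) T2.l5
  (TrL.c (I.pos (nat_lit 0) (nat_lit 0)) T0.l7
  (TrL.c (I.pos (nat_lit 0) (nat_lit 0)) T2.l8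
  (TrL.c (I.pos (nat_lit 0) (nat_lit 0)) T0.l8
  TrL.n)))))) (by decide +kernel)
theorem bx1_11 : BoxOK sI cl4 cl7 cl4 t2 t0 b1_11 :=
  box_mk (TrL.c (I.pos (nat_lit 0) (nat_lit 0)) T2.l7
  (TrL.c (I.pos (nat_lit 0) (nat_lit 0)) T0.l6
  (TrL.c (I.pos (nat_lit 0) (nat_lit 0)) T2.l5
  (TrL.c (I.pos (nat_lit 0) (nat_lit 0)) T0.l7
  (TrL.c (I.pos (nat_lit 0) (nat_lit 0)) T2.l8
  (TrL.c (I.pos (nat_lit 0) (nat_lit 0)) T0.l8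
  TrL.n)))))) (by decide +kernel)
theorem bx1_12 : BoxOK sI cl4 cl7 cl4 t2 t0 b1_12 :=
  box_mk (TrL.c (I.pos (nat_lit 0) (nat_lit 0)) (xa (xa T2.l7 T2.l7) T2.l7)
  (TrL.c (I.pos (nat_lit 0) (nat_lit 0)) (xa T0.l7 T0.l6)
  (TrL.c (I.pos (nat_lit 0) (nat_lit 0)) T2.l5
  (TrL.c (I.pos (nat_lit 0) (nat_lit 0)) (xa T0.l6 T0.l7)
  (TrL.c (I.pos (nat_lit 0) (nat_lit 0)) T2.l8
  (TrL.c (I.pos (nat_lit 0) (nat_lit 0)) (xa T0.l8 T0.l8)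
  TrL.n)))))) (by decide +kernel)
theorem bx1_13 : BoxOK sI cl4 cl7 cl4 t2 t0 b1_13 :=
  box_mk (TrL.c (I.pos (nat_lit 0) (nat_lit 0)) T2.l7
  (TrL.c (I.pos (nat_lit 0) (nat_lit 0)) T0.l6
  (TrL.c (I.pos (nat_lit 0) (nat_lit 0)) T2.l5
  (TrL.c (I.pos (nat_lit 0) (nat_lit 0)) T0.l7
  (TrL.c (I.pos (nat_lit 0) (nat_lit 0)) T2.l8
  (TrL.c (I.pos (nat_lit 0) (nat_lit 0)) T0.l8
  TrL.n)))))) (by decide +kernel)
theorem bx1_14 : BoxOK sI cl4 cl7 cl4 t2 t0 b1_14 :=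
  box_mk (TrL.c (I.pos (nat_lit 0) (nat_lit 0)) (xa T2.l0 T2.l2)
  (TrL.c (I.pos (nat_lit 0) (nat_lit 0)) (xa T0.l6 (xb T0.l6 T0.l6))
  (TrL.c (I.pos (nat_lit 0) (nat_lit 0)) T2.l3
  (TrL.c (I.pos (nat_lit 0) (nat_lit 0)) (xa T0.l7 T0.l0)
  (TrL.c (I.pos (nat_lit 0) (nat_lit 0)) T2.l1
  (TrL.c (I.pos (nat_lit 0) (nat_lit 0)) (xa T0.l8 (xb T0.l8 T0.l8))
  TrL.n)))))) (by decide +kernel)
theorem bx1_15 : BoxOK sI cl4 cl7 cl4 t2 t0 b1_15 :=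
  box_mk (TrL.c (I.pos (nat_lit 0) (nat_lit 0)) T2.l0
  (TrL.c (I.pos (nat_lit 0) (nat_lit 0)) T0.l6
  (TrL.c (I.pos (nat_lit 0) (nat_lit 0)) T2.l5
  (TrL.c (I.pos (nat_lit 0) (nat_lit 0)) T0.l7
  (TrL.c (I.pos (nat_lit 0) (nat_lit 0)) T2.l10
  (TrL.c (I.pos (nat_lit 0) (nat_lit 0)) T0.l8
  TrL.n)))))) (by decide +kernel)
theorem sv1 : StarV sI cl4 cl7 cl4 t2 t0 t1 :=
  (bt_n (bt_n (bt_n (bt_n (bt_b bx1_0) (bt_b bx1_1)) (bt_n (bt_b bx1_2) (bt_b bx1_3))) (bt_n (bt_n (bt_b bx1_4) (bt_b bx1_5)) (bt_n (bt_b bx1_6) (bt_b bx1_7)))) (bt_n (bt_n (bt_n (bt_b bx1_8) (bt_b bx1_9)) (bt_n (bt_b bx1_10) (bt_b bx1_11))) (bt_n (bt_n (bt_b bx1_12) (bt_b bx1_13)) (bt_n (bt_b bx1_14) (bt_b bx1_15)))))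
def S1 : StarD := StarD.mk cl4 cl7 cl4 2 0 t1
theorem bx2_0 : BoxOK sI cl7 cl4 cl4 t1 t1 b2_0 :=
  box_mk (TrL.c (I.pos (nat_lit 0) (nat_lit 0)) (xa (xb T1.l8 (xa (xb T1.l8 T1.l8) (xb T1.l0 T1.l8))) (xb T1.l0 (xa (xb T1.l0 T1.l0) (xb T1.l0 T1.l0))))
  (TrL.c (I.pos (nat_lit 0) (nat_lit 0)) (xa (xb T1.l1 (xk T1.l1 T1.l1)) (xb T1.l1 (xk T1.l1 T1.l1)))
  (TrL.c (I.pos (nat_lit 0) (nat_lit 111196574)) (xR T1.l2 (xR T1.l2 (xR T1.l2 (xa T1.l2 T1.l2))))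
  (TrL.c (I.pos (nat_lit 0) (nat_lit 77433728)) (xR T1.l3 T1.l3)
  (TrL.c (I.pos (nat_lit 0) (nat_lit 0)) (xa T1.l9 (xb T1.l4 (xk T1.l4 T1.l4)))
  (TrL.c (I.pos (nat_lit 0) (nat_lit 0)) T1.l5
  (TrL.c (I.mix (nat_lit 29511666) (nat_lit 77433728)) (xR T1.l6 (xR T1.l6 T1.l6))
  (TrL.c (I.mix (nat_lit 29511666) (nat_lit 46070178)) (xR T1.l7 T1.l7)
  TrL.n)))))))) (by decide +kernel)
theorem bx2_1 : BoxOK sI cl7 cl4 cl4 t1 t1 b2_1 :=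
  box_mk (TrL.c (I.pos (nat_lit 0) (nat_lit 0)) (xb (xa (xb T1.l8 T1.l8) T1.l8) (xa T1.l8 T1.l8))
  (TrL.c (I.pos (nat_lit 0) (nat_lit 0)) (xb T1.l1 T1.l1)
  (TrL.c (I.pos (nat_lit 0) (nat_lit 111196574)) (xR T1.l2 (xR T1.l2 (xR T1.l2 T1.l2)))
  (TrL.c (I.pos (nat_lit 0) (nat_lit 77433728)) (xR T1.l6 (xR T1.l3 T1.l3))
  (TrL.c (I.pos (nat_lit 0) (nat_lit 0)) (xb (xa T1.l9 T1.l9) T1.l9)
  (TrL.c (I.pos (nat_lit 0) (nat_lit 0)) T1.l5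
  (TrL.c (I.mix (nat_lit 29511666) (nat_lit 77433728)) (xR T1.l6 T1.l6)
  (TrL.c (I.mix (nat_lit 29511666) (nat_lit 46070178)) T1.l6
  TrL.n)))))))) (by decide +kernel)
theorem bx2_2 : BoxOK sI cl7 cl4 cl4 t1 t1 b2_2 :=
  box_mk (TrL.c (I.pos (nat_lit 0) (nat_lit 0)) (xb (xa (xb T1.l8 T1.l8) (xb T1.l8 T1.l8)) (xa (xb T1.l8 (xa T1.l8 T1.l8)) (xb T1.l8 (xa T1.l8 T1.l8))))
  (TrL.c (I.pos (nat_lit 0) (nat_lit 0)) (xb (xa T1.l1 T1.l1) (xa T1.l1 (xk T1.l1 T1.l1)))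
  (TrL.c (I.pos (nat_lit 0) (nat_lit 111196574)) (xR T1.l2 (xR T1.l2 (xb (xR T1.l2 T1.l2) (xR T1.l2 T1.l2))))
  (TrL.c (I.pos (nat_lit 0) (nat_lit 77433728)) (xR T1.l3 (xR T1.l3 (xb T1.l3 (xR T1.l3 T1.l3))))
  (TrL.c (I.pos (nat_lit 0) (nat_lit 0)) (xb (xa T1.l9 T1.l9) (xa T1.l9 (xb T1.l9 (xk T1.l9 (xs T1.l9 T1.l9)))))
  (TrL.c (I.pos (nat_lit 0) (nat_lit 0)) T1.l5
  (TrL.c (I.mix (nat_lit 29511666) (nat_lit 77433728)) (xR T1.l6 (xR T1.l6 (xR T1.l6 T1.l6)))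
  (TrL.c (I.mix (nat_lit 29511666) (nat_lit 46070178)) (xR T1.l7 (xR T1.l7 T1.l7))
  TrL.n)))))))) (by decide +kernel)
theorem bx2_3 : BoxOK sI cl7 cl4 cl4 t1 t1 b2_3 :=
  box_mk (TrL.c (I.pos (nat_lit 0) (nat_lit 0)) (xb T1.l1 T1.l1)
  (TrL.c (I.pos (nat_lit 0) (nat_lit 0)) T1.l2
  (TrL.c (I.mix (nat_lit 29511666) (nat_lit 77433728)) (xR (xR (xR T1.l12 T1.l12) T1.l12) (xR T1.l6 (xR T1.l3 T1.l3)))
  (TrL.c (I.mix (nat_lit 29511666) (nat_lit 46070178)) (xR (xR T1.l13 T1.l6) T1.l2)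
  TrL.n)))) (by decide +kernel)
theorem bx2_4 : BoxOK sI cl7 cl4 cl4 t1 t1 b2_4 :=
  box_mk (TrL.c (I.pos (nat_lit 0) (nat_lit 0)) T1.l8
  (TrL.c (I.pos (nat_lit 0) (nat_lit 0)) T1.l1
  (TrL.c (I.pos (nat_lit 0) (nat_lit 111196574)) T1.l2
  (TrL.c (I.pos (nat_lit 0) (nat_lit 77433728)) (xR T1.l3 T1.l3)
  (TrL.c (I.pos (nat_lit 0) (nat_lit 0)) T1.l9
  (TrL.c (I.pos (nat_lit 0) (nat_lit 0)) T1.l5
  (TrL.c (I.mix (nat_lit 29511666) (nat_lit 77433728)) T1.l6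
  (TrL.c (I.mix (nat_lit 29511666) (nat_lit 46070178)) T1.l7
  TrL.n)))))))) (by decide +kernel)
theorem bx2_5 : BoxOK sI cl7 cl4 cl4 t1 t1 b2_5 :=
  box_mk (TrL.c (I.pos (nat_lit 0) (nat_lit 0)) (xb T1.l1 T1.l10)
  (TrL.c (I.pos (nat_lit 0) (nat_lit 0)) T1.l11
  (TrL.c (I.mix (nat_lit 29511666) (nat_lit 77433728)) (xR T1.l6 T1.l6)
  (TrL.c (I.mix (nat_lit 29511666) (nat_lit 46070178)) (xR T1.l6 T1.l2)
  TrL.n)))) (by decide +kernel)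
theorem bx2_6 : BoxOK sI cl7 cl4 cl4 t1 t1 b2_6 :=
  box_mk (TrL.c (I.pos (nat_lit 0) (nat_lit 0)) (xb T1.l14 T1.l8)
  (TrL.c (I.pos (nat_lit 0) (nat_lit 0)) T1.l10
  (TrL.c (I.pos (nat_lit 0) (nat_lit 111196574)) T1.l2
  (TrL.c (I.pos (nat_lit 0) (nat_lit 77433728)) T1.l6
  (TrL.c (I.pos (nat_lit 0) (nat_lit 0)) T1.l15
  (TrL.c (I.pos (nat_lit 0) (nat_lit 0)) T1.l5
  (TrL.c (I.mix (nat_lit 29511666) (nat_lit 77433728)) T1.l6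
  (TrL.c (I.mix (nat_lit 29511666) (nat_lit 46070178)) T1.l6
  TrL.n)))))))) (by decide +kernel)
theorem bx2_7 : BoxOK sI cl7 cl4 cl4 t1 t1 b2_7 :=
  box_mk (TrL.c (I.pos (nat_lit 0) (nat_lit 0)) (xa (xb T1.l0 T1.l0) (xb (xa T1.l0 T1.l0) (xa T1.l0 (xb T1.l0 T1.l0))))
  (TrL.c (I.pos (nat_lit 0) (nat_lit 0)) (xa (xb T1.l1 T1.l1) (xb T1.l5 T1.l5))
  (TrL.c (I.pos (nat_lit 0) (nat_lit 111196574)) (xR (xR T1.l6 T1.l2) (xR T1.l2 T1.l6))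
  (TrL.c (I.pos (nat_lit 0) (nat_lit 77433728)) (xR (xR T1.l3 T1.l3) (xR T1.l3 (xR T1.l3 T1.l3)))
  (TrL.c (I.pos (nat_lit 0) (nat_lit 0)) (xa (xb (xk T1.l4 T1.l4) T1.l4) (xb (xk (xa T1.l4 T1.l4) (xa T1.l4 T1.l4)) (xk (xa T1.l4 T1.l4) (xa T1.l4 T1.l4))))
  (TrL.c (I.pos (nat_lit 0) (nat_lit 0)) (xk (xa T1.l5 T1.l5) (xa T1.l5 T1.l5))
  (TrL.c (I.mix (nat_lit 29511666) (nat_lit 77433728)) (xR T1.l6 (xR T1.l6 (xR T1.l6 (xb T1.l6 T1.l6))))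
  (TrL.c (I.mix (nat_lit 29511666) (nat_lit 46070178)) (xR T1.l7 (xR T1.l7 T1.l3))
  TrL.n)))))))) (by decide +kernel)
theorem bx2_8 : BoxOK sI cl7 cl4 cl4 t1 t1 b2_8 :=
  box_mk (TrL.c (I.pos (nat_lit 0) (nat_lit 0)) (xa T1.l14 T1.l14)
  (TrL.c (I.pos (nat_lit 0) (nat_lit 0)) T1.l1
  (TrL.c (I.pos (nat_lit 0) (nat_lit 111196574)) T1.l2
  (TrL.c (I.pos (nat_lit 0) (nat_lit 77433728)) T1.l6
  (TrL.c (I.pos (nat_lit 0) (nat_lit 0)) T1.l15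
  (TrL.c (I.pos (nat_lit 0) (nat_lit 0)) T1.l5
  (TrL.c (I.mix (nat_lit 29511666) (nat_lit 77433728)) T1.l6
  (TrL.c (I.mix (nat_lit 29511666) (nat_lit 46070178)) T1.l6
  TrL.n)))))))) (by decide +kernel)
theorem bx2_9 : BoxOK sI cl7 cl4 cl4 t1 t1 b2_9 :=
  box_mk (TrL.c (I.pos (nat_lit 0) (nat_lit 0)) (xa (xb T1.l0 (xa T1.l8 T1.l8)) (xb T1.l0 (xa (xs T1.l0 T1.l0) (xs T1.l0 T1.l0))))
  (TrL.c (I.pos (nat_lit 0) (nat_lit 0)) (xa T1.l1 (xk T1.l1 T1.l1))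
  (TrL.c (I.pos (nat_lit 0) (nat_lit 111196574)) (xR T1.l2 (xR T1.l2 (xR T1.l2 T1.l2)))
  (TrL.c (I.pos (nat_lit 0) (nat_lit 77433728)) (xR T1.l3 T1.l3)
  (TrL.c (I.pos (nat_lit 0) (nat_lit 0)) (xa T1.l4 (xb T1.l4 (xk T1.l4 (xs T1.l4 T1.l4))))
  (TrL.c (I.pos (nat_lit 0) (nat_lit 0)) T1.l5
  (TrL.c (I.mix (nat_lit 29511666) (nat_lit 77433728)) (xR T1.l6 T1.l6)
  (TrL.c (I.mix (nat_lit 29511666) (nat_lit 46070178)) (xR T1.l7 T1.l7)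
  TrL.n)))))))) (by decide +kernel)
theorem bx2_10 : BoxOK sI cl7 cl4 cl4 t1 t1 b2_10 :=
  box_mk (TrL.c (I.pos (nat_lit 0) (nat_lit 0)) T1.l14
  (TrL.c (I.pos (nat_lit 0) (nat_lit 0)) T1.l1
  (TrL.c (I.pos (nat_lit 0) (nat_lit 111196574)) T1.l2
  (TrL.c (I.pos (nat_lit 0) (nat_lit 77433728)) T1.l6
  (TrL.c (I.pos (nat_lit 0) (nat_lit 0)) T1.l15
  (TrL.c (I.pos (nat_lit 0) (nat_lit 0)) T1.l5
  (TrL.c (I.mix (nat_lit 29511666) (nat_lit 77433728)) T1.l6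
  (TrL.c (I.mix (nat_lit 29511666) (nat_lit 46070178)) T1.l6
  TrL.n)))))))) (by decide +kernel)
theorem sv2 : StarV sI cl7 cl4 cl4 t1 t1 t2 :=
  (bt_n (bt_n (bt_n (bt_b bx2_0) (bt_b bx2_1)) (bt_n (bt_b bx2_2) (bt_n (bt_b bx2_3) (bt_b bx2_4)))) (bt_n (bt_n (bt_b bx2_5) (bt_n (bt_b bx2_6) (bt_b bx2_7))) (bt_n (bt_b bx2_8) (bt_n (bt_b bx2_9) (bt_b bx2_10)))))
def S2 : StarD := StarD.mk cl7 cl4 cl4 1 1 t2
def G : List StarD := [S0, S1, S2]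
theorem so0 : StarOK sI G S0 :=
  star_mk (by decide) (by decide) rfl rfl rfl rfl rfl rfl (rfl : _ = t0) (rfl : _ = t2)
  (st_mk (Pth.l (Pth.l (Pth.l Pth.z))) (nat_lit 388258964) (nat_lit 393773862) (by decide +kernel))
  (st_mk (Pth.l (Pth.l (Pth.l Pth.z))) (nat_lit 428169009) (nat_lit 434992566) (by decide +kernel))
  (st_mk (Pth.l (Pth.l (Pth.l Pth.z))) (nat_lit 474932279) (nat_lit 483504163) (by decide +kernel)) sv0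
theorem so1 : StarOK sI G S1 :=
  star_mk (by decide) (by decide) rfl rfl rfl rfl rfl rfl (rfl : _ = t2) (rfl : _ = t0)
  (st_mk (Pth.l (Pth.l (Pth.l (Pth.l Pth.z)))) (nat_lit 146389640) (nat_lit 170814592) (by decide +kernel))
  (st_mk (Pth.l (Pth.l (Pth.l (Pth.l Pth.z)))) (nat_lit 185031185) (nat_lit 210593074) (by decide +kernel))
  (st_mk (Pth.l (Pth.l (Pth.l (Pth.l Pth.z)))) (nat_lit 230850716) (nat_lit 258030494) (by decide +kernel)) sv1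
theorem so2 : StarOK sI G S2 :=
  star_mk (by decide) (by decide) rfl rfl rfl rfl rfl rfl (rfl : _ = t1) (rfl : _ = t1)
  (st_mk (Pth.l (Pth.l (Pth.l Pth.z))) (nat_lit 371088468) (nat_lit 376569699) (by decide +kernel))
  (st_mk (Pth.l (Pth.l (Pth.l Pth.z))) (nat_lit 407382513) (nat_lit 413682070) (by decide +kernel))
  (st_mk (Pth.l (Pth.l (Pth.l Pth.z))) (nat_lit 449429352) (nat_lit 456782381) (by decide +kernel)) sv2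
theorem ok : GroupOK (nat_lit 91226112) (nat_lit 150339584) G := grp_mk (allS_c so0 (allS_c so1 (allS_c so2 allS_n)))
theorem cov : GCov G cl4 cl4 cl7 := cov_mk
  ⟨0, by decide, rfl, rfl, rfl⟩ ⟨1, by decide, rfl, rfl, rfl⟩ ⟨0, by decide, rfl, rfl, rfl⟩ ⟨1, by decide, rfl, rfl, rfl⟩ ⟨2, by decide, rfl, rfl, rfl⟩ ⟨2, by decide, rfl, rfl, rfl⟩
end Q114_1


end Pool.Agent.Helper6.MONO
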