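import Pool.Agent.Helper6.MONO.Cert.C59

/-!
Certificate data (generated).
-/

set_option autoImplicit false
set_option linter.all false
noncomputable section
namespace Pool.Agent.Helper6.MONO


namespace Q114_2
def sI : I := I.pos (nat_lit 150274048) (nat_lit 209387520)
def b0_0 : Bx := Bx.mk (St.mk (I.pos (nat_lit 142065664) (nat_lit 215924736)) (I.mix (nat_lit 278528) (nat_lit 102907904)) (I.mix (nat_lit 43499520) (nat_lit 59506688)) (I.pos (nat_lit 391872512) (nat_lit 496959488)) (I.mix (nat_lit 194822144) (nat_lit 134119424)) (I.mix (nat_lit 128565248) (nat_lit 129138688)) (I.mix (nat_lit 203145216) (nat_lit 201900032)))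
  false (nat_lit 97631496)
def b0_1 : Bx := Bx.mk (St.mk (I.mix (nat_lit 49135616) (nat_lit 9158656)) (I.mix (nat_lit 18382848) (nat_lit 84017152)) (I.neg (nat_lit 70057984) (nat_lit 101711872)) (I.pos (nat_lit 260456448) (nat_lit 292651008)) (I.mix (nat_lit 91045888) (nat_lit 170770432)) (I.mix (nat_lit 136134656) (nat_lit 107806720)) (I.mix (nat_lit 72564736) (nat_lit 65634304)))
  true (nat_lit 0)
def b0_2 : Bx := Bx.mk (St.mk (I.mix (nat_lit 3850240) (nat_lit 49152000)) (I.neg (nat_lit 26771456) (nat_lit 86491136)) (I.neg (nat_lit 70057984) (nat_lit 101793792)) (I.pos (nat_lit 263208960) (nat_lit 292831232)) (I.mix (nat_lit 170786816) (nat_lit 72876032)) (I.mix (nat_lit 107806720) (nat_lit 136134656)) (I.mix (nat_lit 72581120) (nat_lit 65617920)))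
  false (nat_lit 89564390)
def b0_3 : Bx := Bx.mk (St.mk (I.mix (nat_lit 25575424) (nat_lit 5668864)) (I.mix (nat_lit 18776064) (nat_lit 22773760)) (I.neg (nat_lit 72646656) (nat_lit 84197376)) (I.pos (nat_lit 262422528) (nat_lit 275415040)) (I.mix (nat_lit 80822272) (nat_lit 61276160)) (I.mix (nat_lit 67403776) (nat_lit 63438848)) (I.mix (nat_lit 9781248) (nat_lit 23789568)))
  true (nat_lit 0)
def b0_4 : Bx := Bx.mk (St.mk (I.pos (nat_lit 194134016) (nat_lit 254869504)) (I.mix (nat_lit 27000832) (nat_lit 26492928)) (I.neg (nat_lit 94142464) (nat_lit 193150976)) (I.pos (nat_lit 428785664) (nat_lit 536084480)) (I.mix (nat_lit 170442752) (nat_lit 94830592)) (I.mix (nat_lit 126763008) (nat_lit 125992960)) (I.mix (nat_lit 192937984) (nat_lit 250593280)))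
  false (nat_lit 49493339)
def b0_5 : Bx := Bx.mk (St.mk (I.mix (nat_lit 5668864) (nat_lit 25870336)) (I.mix (nat_lit 16171008) (nat_lit 18022400)) (I.neg (nat_lit 72613888) (nat_lit 84262912)) (I.pos (nat_lit 262504448) (nat_lit 275529728)) (I.mix (nat_lit 59850752) (nat_lit 78217216)) (I.mix (nat_lit 58998784) (nat_lit 68009984)) (I.mix (nat_lit 9764864) (nat_lit 24018944)))
  false (nat_lit 0)
def b0_6 : Bx := Bx.mk (St.mk (I.pos (nat_lit 5373952) (nat_lit 126009344)) (I.neg (nat_lit 5177344) (nat_lit 83869696)) (I.neg (nat_lit 32587776) (nat_lit 106774528)) (I.pos (nat_lit 262766592) (nat_lit 343310336)) (I.mix (nat_lit 162742272) (nat_lit 96124928)) (I.mix (nat_lit 98828288) (nat_lit 124354560)) (I.mix (nat_lit 113901568) (nat_lit 110428160)))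
  false (nat_lit 92242550)
def b0_7 : Bx := Bx.mk (St.mk (I.pos (nat_lit 77856768) (nat_lit 197574656)) (I.mix (nat_lit 39174144) (nat_lit 82526208)) (I.mix (nat_lit 76972032) (nat_lit 50233344)) (I.pos (nat_lit 295682048) (nat_lit 461324288)) (I.mix (nat_lit 204701696) (nat_lit 141180928)) (I.mix (nat_lit 191053824) (nat_lit 160284672)) (I.mix (nat_lit 193544192) (nat_lit 187498496)))
  false (nat_lit 72396333)
def b0_8 : Bx := Bx.mk (St.mk (I.neg (nat_lit 5373952) (nat_lit 126009344)) (I.mix (nat_lit 229376) (nat_lit 83869696)) (I.neg (nat_lit 30048256) (nat_lit 106774528)) (I.pos (nat_lit 262750208) (nat_lit 343310336)) (I.mix (nat_lit 96124928) (nat_lit 162758656)) (I.mix (nat_lit 124370944) (nat_lit 98828288)) (I.mix (nat_lit 113917952) (nat_lit 110444544)))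
  true (nat_lit 0)
def b0_9 : Bx := Bx.mk (St.mk (I.pos (nat_lit 176422912) (nat_lit 247971840)) (I.mix (nat_lit 24739840) (nat_lit 51003392)) (I.neg (nat_lit 44597248) (nat_lit 184156160)) (I.pos (nat_lit 412975104) (nat_lit 519651328)) (I.mix (nat_lit 182173696) (nat_lit 107659264)) (I.mix (nat_lit 144162816) (nat_lit 139542528)) (I.mix (nat_lit 210223104) (nat_lit 252002304)))
  false (nat_lit 86615863)
def b0_10 : Bx := Bx.mk (St.mk (I.mix (nat_lit 2228224) (nat_lit 37896192)) (I.mix (nat_lit 39288832) (nat_lit 16596992)) (I.neg (nat_lit 71843840) (nat_lit 88965120)) (I.pos (nat_lit 261193728) (nat_lit 279920640)) (I.mix (nat_lit 78708736) (nat_lit 81412096)) (I.mix (nat_lit 68517888) (nat_lit 73744384)) (I.mix (nat_lit 22495232) (nat_lit 33619968)))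
  false (nat_lit 0)
def b0_11 : Bx := Bx.mk (St.mk (I.pos (nat_lit 158433280) (nat_lit 242778112)) (I.pos (nat_lit 10878976) (nat_lit 94257152)) (I.mix (nat_lit 107134976) (nat_lit 36274176)) (I.pos (nat_lit 407863296) (nat_lit 526680064)) (I.mix (nat_lit 183435264) (nat_lit 173342720)) (I.mix (nat_lit 177307648) (nat_lit 160235520)) (I.mix (nat_lit 313982976) (nat_lit 217284608)))
  false (nat_lit 91312301)
def b0_12 : Bx := Bx.mk (St.mk (I.mix (nat_lit 10600448) (nat_lit 40943616)) (I.neg (nat_lit 7045120) (nat_lit 64552960)) (I.neg (nat_lit 73760768) (nat_lit 98009088)) (I.pos (nat_lit 260472832) (nat_lit 285360128)) (I.mix (nat_lit 143065088) (nat_lit 91062272)) (I.mix (nat_lit 95191040) (nat_lit 125140992)) (I.mix (nat_lit 48513024) (nat_lit 49037312)))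
  false (nat_lit 42285676)
def t0 : BTr := (BTr.n (BTr.n (BTr.n (BTr.b b0_0) (BTr.n (BTr.b b0_1) (BTr.b b0_2))) (BTr.n (BTr.b b0_3) (BTr.n (BTr.b b0_4) (BTr.b b0_5)))) (BTr.n (BTr.n (BTr.b b0_6) (BTr.n (BTr.b b0_7) (BTr.b b0_8))) (BTr.n (BTr.n (BTr.b b0_9) (BTr.b b0_10)) (BTr.n (BTr.b b0_11) (BTr.b b0_12)))))
namespace T0
def l0 : Tr := Tr.L (Pth.l (Pth.l (Pth.l Pth.z)))
def l1 : Tr := Tr.L (Pth.l (Pth.l (Pth.r (Pth.l Pth.z))))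
def l2 : Tr := Tr.L (Pth.l (Pth.l (Pth.r (Pth.r Pth.z))))
def l3 : Tr := Tr.L (Pth.l (Pth.r (Pth.l Pth.z)))
def l4 : Tr := Tr.L (Pth.l (Pth.r (Pth.r (Pth.l Pth.z))))
def l5 : Tr := Tr.L (Pth.l (Pth.r (Pth.r (Pth.r Pth.z))))
def l6 : Tr := Tr.L (Pth.r (Pth.l (Pth.l Pth.z)))
def l7 : Tr := Tr.L (Pth.r (Pth.l (Pth.r (Pth.l Pth.z))))
def l8 : Tr := Tr.L (Pth.r (Pth.l (Pth.r (Pth.r Pth.z))))
def l9 : Tr := Tr.L (Pth.r (Pth.r (Pth.l (Pth.l Pth.z))))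
def l10 : Tr := Tr.L (Pth.r (Pth.r (Pth.l (Pth.r Pth.z))))
def l11 : Tr := Tr.L (Pth.r (Pth.r (Pth.r (Pth.l Pth.z))))
def l12 : Tr := Tr.L (Pth.r (Pth.r (Pth.r (Pth.r Pth.z))))
end T0
def b1_0 : Bx := Bx.mk (St.mk (I.pos (nat_lit 156467200) (nat_lit 224657408)) (I.mix (nat_lit 278528) (nat_lit 54165504)) (I.mix (nat_lit 278528) (nat_lit 90947584)) (I.pos (nat_lit 149422080) (nat_lit 267370496)) (I.mix (nat_lit 128598016) (nat_lit 68501504)) (I.mix (nat_lit 89718784) (nat_lit 77398016)) (I.mix (nat_lit 130203648) (nat_lit 106315776)))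
  false (nat_lit 10442336)
def b1_1 : Bx := Bx.mk (St.mk (I.pos (nat_lit 95813632) (nat_lit 157581312)) (I.neg (nat_lit 1097728) (nat_lit 56033280)) (I.mix (nat_lit 52101120) (nat_lit 2146304)) (I.pos (nat_lit 96370688) (nat_lit 160989184)) (I.mix (nat_lit 101990400) (nat_lit 83951616)) (I.mix (nat_lit 74711040) (nat_lit 93323264)) (I.mix (nat_lit 70811648) (nat_lit 95551488)))
  false (nat_lit 39017095)
def b1_2 : Bx := Bx.mk (St.mk (I.mix (nat_lit 13926400) (nat_lit 112558080)) (I.mix (nat_lit 7077888) (nat_lit 29835264)) (I.mix (nat_lit 11173888) (nat_lit 18874368)) (I.pos (nat_lit 44335104) (nat_lit 114475008)) (I.mix (nat_lit 56213504) (nat_lit 59129856)) (I.mix (nat_lit 56639488) (nat_lit 44744704)) (I.mix (nat_lit 42844160) (nat_lit 31178752)))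
  false (nat_lit 0)
def b1_3 : Bx := Bx.mk (St.mk (I.mix (nat_lit 21889024) (nat_lit 76120064)) (I.mix (nat_lit 31719424) (nat_lit 4669440)) (I.mix (nat_lit 18137088) (nat_lit 3801088)) (I.pos (nat_lit 43663360) (nat_lit 87162880)) (I.mix (nat_lit 45531136) (nat_lit 48119808)) (I.mix (nat_lit 36225024) (nat_lit 46596096)) (I.mix (nat_lit 19939328) (nat_lit 25935872)))
  false (nat_lit 0)
def b1_4 : Bx := Bx.mk (St.mk (I.pos (nat_lit 147701760) (nat_lit 205701120)) (I.mix (nat_lit 17219584) (nat_lit 55508992)) (I.pos (nat_lit 1523712) (nat_lit 90882048)) (I.pos (nat_lit 140214272) (nat_lit 235421696)) (I.mix (nat_lit 166166528) (nat_lit 63832064)) (I.mix (nat_lit 152600576) (nat_lit 98189312)) (I.mix (nat_lit 160940032) (nat_lit 96714752)))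
  false (nat_lit 12542644)
def b1_5 : Bx := Bx.mk (St.mk (I.pos (nat_lit 91750400) (nat_lit 138559488)) (I.mix (nat_lit 56098816) (nat_lit 12369920)) (I.mix (nat_lit 52609024) (nat_lit 1949696)) (I.pos (nat_lit 82083840) (nat_lit 141164544)) (I.mix (nat_lit 109510656) (nat_lit 64815104)) (I.mix (nat_lit 64815104) (nat_lit 108593152)) (I.mix (nat_lit 49594368) (nat_lit 79790080)))
  false (nat_lit 4860702)
def b1_6 : Bx := Bx.mk (St.mk (I.mix (nat_lit 31490048) (nat_lit 103776256)) (I.mix (nat_lit 14581760) (nat_lit 34668544)) (I.mix (nat_lit 8323072) (nat_lit 24330240)) (I.pos (nat_lit 43876352) (nat_lit 107675648)) (I.mix (nat_lit 70680576) (nat_lit 46546944)) (I.mix (nat_lit 68632576) (nat_lit 43270144)) (I.mix (nat_lit 37470208) (nat_lit 25935872)))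
  false (nat_lit 0)
def b1_7 : Bx := Bx.mk (St.mk (I.mix (nat_lit 28803072) (nat_lit 67813376)) (I.neg (nat_lit 851968) (nat_lit 34095104)) (I.mix (nat_lit 17154048) (nat_lit 3031040)) (I.pos (nat_lit 43859968) (nat_lit 83394560)) (I.mix (nat_lit 52903936) (nat_lit 32145408)) (I.mix (nat_lit 28934144) (nat_lit 49135616)) (I.mix (nat_lit 13271040) (nat_lit 18628608)))
  false (nat_lit 0)
def b1_8 : Bx := Bx.mk (St.mk (I.pos (nat_lit 189333504) (nat_lit 241303552)) (I.mix (nat_lit 15581184) (nat_lit 29573120)) (I.mix (nat_lit 41582592) (nat_lit 37273600)) (I.pos (nat_lit 213925888) (nat_lit 298123264)) (I.mix (nat_lit 143949824) (nat_lit 59260928)) (I.mix (nat_lit 96108544) (nat_lit 94617600)) (I.mix (nat_lit 166330368) (nat_lit 164560896)))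
  false (nat_lit 3134675)
def b1_9 : Bx := Bx.mk (St.mk (I.pos (nat_lit 147652608) (nat_lit 191709184)) (I.mix (nat_lit 46776320) (nat_lit 3735552)) (I.mix (nat_lit 44367872) (nat_lit 20332544)) (I.pos (nat_lit 141246464) (nat_lit 209666048)) (I.mix (nat_lit 94699520) (nat_lit 95830016)) (I.mix (nat_lit 105021440) (nat_lit 91389952)) (I.mix (nat_lit 110182400) (nat_lit 93831168)))
  false (nat_lit 45662756)
def b1_10 : Bx := Bx.mk (St.mk (I.pos (nat_lit 178159616) (nat_lit 231112704)) (I.pos (nat_lit 6094848) (nat_lit 55951360)) (I.pos (nat_lit 6324224) (nat_lit 91897856)) (I.pos (nat_lit 201441280) (nat_lit 281296896)) (I.mix (nat_lit 145244160) (nat_lit 121257984)) (I.mix (nat_lit 139673600) (nat_lit 117424128)) (I.mix (nat_lit 234536960) (nat_lit 188366848)))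
  false (nat_lit 22522707)
def b1_11 : Bx := Bx.mk (St.mk (I.pos (nat_lit 146341888) (nat_lit 196050944)) (I.mix (nat_lit 29638656) (nat_lit 24625152)) (I.mix (nat_lit 16056320) (nat_lit 48955392)) (I.pos (nat_lit 138346496) (nat_lit 214843392)) (I.mix (nat_lit 163823616) (nat_lit 103120896)) (I.mix (nat_lit 169934848) (nat_lit 110018560)) (I.mix (nat_lit 180207616) (nat_lit 113541120)))
  false (nat_lit 0)
def b1_12 : Bx := Bx.mk (St.mk (I.pos (nat_lit 120635392) (nat_lit 165986304)) (I.mix (nat_lit 40550400) (nat_lit 4472832)) (I.mix (nat_lit 35651584) (nat_lit 12173312)) (I.pos (nat_lit 114524160) (nat_lit 174489600)) (I.mix (nat_lit 80904192) (nat_lit 44531712)) (I.mix (nat_lit 44793856) (nat_lit 58671104)) (I.mix (nat_lit 51052544) (nat_lit 61997056)))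
  false (nat_lit 0)
def b1_13 : Bx := Bx.mk (St.mk (I.pos (nat_lit 77676544) (nat_lit 112934912)) (I.mix (nat_lit 13910016) (nat_lit 13959168)) (I.mix (nat_lit 17006592) (nat_lit 5357568)) (I.pos (nat_lit 73695232) (nat_lit 114704384)) (I.mix (nat_lit 56639488) (nat_lit 32309248)) (I.mix (nat_lit 37650432) (nat_lit 37273600)) (I.mix (nat_lit 26673152) (nat_lit 27033600)))
  false (nat_lit 0)
def b1_14 : Bx := Bx.mk (St.mk (I.mix (nat_lit 41828352) (nat_lit 102252544)) (I.mix (nat_lit 17973248) (nat_lit 9945088)) (I.mix (nat_lit 10354688) (nat_lit 3768320)) (I.pos (nat_lit 45531136) (nat_lit 90898432)) (I.mix (nat_lit 44662784) (nat_lit 23265280)) (I.mix (nat_lit 27230208) (nat_lit 30621696)) (I.mix (nat_lit 14761984) (nat_lit 16400384)))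
  false (nat_lit 0)
def b1_15 : Bx := Bx.mk (St.mk (I.mix (nat_lit 42008576) (nat_lit 37404672)) (I.mix (nat_lit 5144576) (nat_lit 9191424)) (I.neg (nat_lit 212992) (nat_lit 6455296)) (I.pos (nat_lit 43941888) (nat_lit 71532544)) (I.mix (nat_lit 30113792) (nat_lit 20234240)) (I.mix (nat_lit 21610496) (nat_lit 22020096)) (I.mix (nat_lit 6684672) (nat_lit 5931008)))
  false (nat_lit 0)
def b1_16 : Bx := Bx.mk (St.mk (I.pos (nat_lit 198017024) (nat_lit 252149760)) (I.mix (nat_lit 18104320) (nat_lit 15351808)) (I.mix (nat_lit 47611904) (nat_lit 12189696)) (I.pos (nat_lit 230227968) (nat_lit 324861952)) (I.mix (nat_lit 122142720) (nat_lit 29900800)) (I.mix (nat_lit 61489152) (nat_lit 68960256)) (I.mix (nat_lit 113197056) (nat_lit 133808128)))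
  false (nat_lit 0)
def b1_17 : Bx := Bx.mk (St.mk (I.pos (nat_lit 140689408) (nat_lit 178864128)) (I.neg (nat_lit 7520256) (nat_lit 43728896)) (I.neg (nat_lit 1425408) (nat_lit 42598400)) (I.pos (nat_lit 132513792) (nat_lit 192806912)) (I.mix (nat_lit 77971456) (nat_lit 55345152)) (I.mix (nat_lit 59260928) (nat_lit 61030400)) (I.mix (nat_lit 67010560) (nat_lit 63799296)))
  false (nat_lit 0)
def b1_18 : Bx := Bx.mk (St.mk (I.pos (nat_lit 195067904) (nat_lit 230490112)) (I.pos (nat_lit 5767168) (nat_lit 30081024)) (I.pos (nat_lit 5160960) (nat_lit 40828928)) (I.pos (nat_lit 227098624) (nat_lit 272793600)) (I.mix (nat_lit 75956224) (nat_lit 10076160)) (I.mix (nat_lit 36470784) (nat_lit 29278208)) (I.mix (nat_lit 57229312) (nat_lit 46219264)))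
  false (nat_lit 0)
def t1 : BTr := (BTr.n (BTr.n (BTr.n (BTr.n (BTr.b b1_0) (BTr.b b1_1)) (BTr.n (BTr.b b1_2) (BTr.b b1_3))) (BTr.n (BTr.n (BTr.b b1_4) (BTr.b b1_5)) (BTr.n (BTr.b b1_6) (BTr.n (BTr.b b1_7) (BTr.b b1_8))))) (BTr.n (BTr.n (BTr.n (BTr.b b1_9) (BTr.b b1_10)) (BTr.n (BTr.b b1_11) (BTr.n (BTr.b b1_12) (BTr.b b1_13)))) (BTr.n (BTr.n (BTr.b b1_14) (BTr.b b1_15)) (BTr.n (BTr.b b1_16) (BTr.n (BTr.b b1_17) (BTr.b b1_18))))))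
namespace T1
def l0 : Tr := Tr.L (Pth.l (Pth.l (Pth.l (Pth.l Pth.z))))
def l1 : Tr := Tr.L (Pth.l (Pth.l (Pth.l (Pth.r Pth.z))))
def l2 : Tr := Tr.L (Pth.l (Pth.l (Pth.r (Pth.l Pth.z))))
def l3 : Tr := Tr.L (Pth.l (Pth.l (Pth.r (Pth.r Pth.z))))
def l4 : Tr := Tr.L (Pth.l (Pth.r (Pth.l (Pth.l Pth.z))))
def l5 : Tr := Tr.L (Pth.l (Pth.r (Pth.l (Pth.r Pth.z))))
def l6 : Tr := Tr.L (Pth.l (Pth.r (Pth.r (Pth.l Pth.z))))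
def l7 : Tr := Tr.L (Pth.l (Pth.r (Pth.r (Pth.r (Pth.l Pth.z)))))
def l8 : Tr := Tr.L (Pth.l (Pth.r (Pth.r (Pth.r (Pth.r Pth.z)))))
def l9 : Tr := Tr.L (Pth.r (Pth.l (Pth.l (Pth.l Pth.z))))
def l10 : Tr := Tr.L (Pth.r (Pth.l (Pth.l (Pth.r Pth.z))))
def l11 : Tr := Tr.L (Pth.r (Pth.l (Pth.r (Pth.l Pth.z))))
def l12 : Tr := Tr.L (Pth.r (Pth.l (Pth.r (Pth.r (Pth.l Pth.z)))))
def l13 : Tr := Tr.L (Pth.r (Pth.l (Pth.r (Pth.r (Pth.r Pth.z)))))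
def l14 : Tr := Tr.L (Pth.r (Pth.r (Pth.l (Pth.l Pth.z))))
def l15 : Tr := Tr.L (Pth.r (Pth.r (Pth.l (Pth.r Pth.z))))
def l16 : Tr := Tr.L (Pth.r (Pth.r (Pth.r (Pth.l Pth.z))))
def l17 : Tr := Tr.L (Pth.r (Pth.r (Pth.r (Pth.r (Pth.l Pth.z)))))
def l18 : Tr := Tr.L (Pth.r (Pth.r (Pth.r (Pth.r (Pth.r Pth.z)))))
end T1
def b2_0 : Bx := Bx.mk (St.mk (I.pos (nat_lit 125566976) (nat_lit 215302144)) (I.mix (nat_lit 278528) (nat_lit 83001344)) (I.mix (nat_lit 278528) (nat_lit 133840896)) (I.pos (nat_lit 360054784) (nat_lit 459210752)) (I.mix (nat_lit 197623808) (nat_lit 104480768)) (I.mix (nat_lit 133808128) (nat_lit 120094720)) (I.mix (nat_lit 162988032) (nat_lit 153911296)))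
  false (nat_lit 91116502)
def b2_1 : Bx := Bx.mk (St.mk (I.pos (nat_lit 32735232) (nat_lit 114425856)) (I.mix (nat_lit 97255424) (nat_lit 5996544)) (I.mix (nat_lit 39043072) (nat_lit 58556416)) (I.pos (nat_lit 278921216) (nat_lit 331890688)) (I.mix (nat_lit 139837440) (nat_lit 134955008)) (I.mix (nat_lit 127303680) (nat_lit 120651776)) (I.mix (nat_lit 113704960) (nat_lit 109101056)))
  false (nat_lit 152636223)
def b2_2 : Bx := Bx.mk (St.mk (I.pos (nat_lit 99516416) (nat_lit 175095808)) (I.mix (nat_lit 47185920) (nat_lit 83279872)) (I.pos (nat_lit 1196032) (nat_lit 147685376)) (I.pos (nat_lit 308707328) (nat_lit 406355968)) (I.mix (nat_lit 249823232) (nat_lit 132153344)) (I.mix (nat_lit 220119040) (nat_lit 168738816)) (I.mix (nat_lit 233095168) (nat_lit 201949184)))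
  false (nat_lit 115071113)
def b2_3 : Bx := Bx.mk (St.mk (I.neg (nat_lit 32735232) (nat_lit 115392512)) (I.mix (nat_lit 229376) (nat_lit 97255424)) (I.mix (nat_lit 39043072) (nat_lit 50364416)) (I.pos (nat_lit 278904832) (nat_lit 332251136)) (I.mix (nat_lit 134955008) (nat_lit 139853824)) (I.mix (nat_lit 120651776) (nat_lit 127303680)) (I.mix (nat_lit 113704960) (nat_lit 109101056)))
  true (nat_lit 36882934)
def b2_4 : Bx := Bx.mk (St.mk (I.pos (nat_lit 80052224) (nat_lit 117047296)) (I.neg (nat_lit 557056) (nat_lit 44318720)) (I.pos (nat_lit 8388608) (nat_lit 49709056)) (I.pos (nat_lit 295845888) (nat_lit 331481088)) (I.mix (nat_lit 75087872) (nat_lit 90849280)) (I.mix (nat_lit 69042176) (nat_lit 86114304)) (I.mix (nat_lit 63488000) (nat_lit 71680000)))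
  false (nat_lit 0)
def b2_5 : Bx := Bx.mk (St.mk (I.mix (nat_lit 61423616) (nat_lit 19529728)) (I.mix (nat_lit 17743872) (nat_lit 90816512)) (I.neg (nat_lit 3850240) (nat_lit 30457856)) (I.pos (nat_lit 270630912) (nat_lit 305430528)) (I.mix (nat_lit 93044736) (nat_lit 125091840)) (I.mix (nat_lit 117161984) (nat_lit 101416960)) (I.mix (nat_lit 51347456) (nat_lit 37076992)))
  true (nat_lit 0)
def b2_6 : Bx := Bx.mk (St.mk (I.pos (nat_lit 22855680) (nat_lit 61423616)) (I.neg (nat_lit 35405824) (nat_lit 90816512)) (I.neg (nat_lit 11141120) (nat_lit 30457856)) (I.pos (nat_lit 279298048) (nat_lit 305430528)) (I.mix (nat_lit 125222912) (nat_lit 83542016)) (I.mix (nat_lit 101416960) (nat_lit 107200512)) (I.mix (nat_lit 51347456) (nat_lit 37076992)))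
  false (nat_lit 83908719)
def b2_7 : Bx := Bx.mk (St.mk (I.pos (nat_lit 172376064) (nat_lit 221724672)) (I.pos (nat_lit 1409024) (nat_lit 45744128)) (I.pos (nat_lit 3604480) (nat_lit 74088448)) (I.pos (nat_lit 404078592) (nat_lit 460062720)) (I.mix (nat_lit 140378112) (nat_lit 79101952)) (I.mix (nat_lit 98746368) (nat_lit 84754432)) (I.mix (nat_lit 138936320) (nat_lit 131416064)))
  false (nat_lit 49703848)
def b2_8 : Bx := Bx.mk (St.mk (I.pos (nat_lit 20578304) (nat_lit 52101120)) (I.neg (nat_lit 6094848) (nat_lit 46202880)) (I.neg (nat_lit 5226496) (nat_lit 16793600)) (I.pos (nat_lit 274464768) (nat_lit 288260096)) (I.mix (nat_lit 58490880) (nat_lit 77758464)) (I.mix (nat_lit 62160896) (nat_lit 56606720)) (I.mix (nat_lit 16695296) (nat_lit 16957440)))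
  false (nat_lit 0)
def b2_9 : Bx := Bx.mk (St.mk (I.pos (nat_lit 191021056) (nat_lit 280772608)) (I.mix (nat_lit 14909440) (nat_lit 58458112)) (I.mix (nat_lit 52559872) (nat_lit 90980352)) (I.pos (nat_lit 433913856) (nat_lit 576503808)) (I.mix (nat_lit 93569024) (nat_lit 83345408)) (I.mix (nat_lit 87113728) (nat_lit 82952192)) (I.mix (nat_lit 143671296) (nat_lit 132136960)))
  false (nat_lit 87171711)
def b2_10 : Bx := Bx.mk (St.mk (I.mix (nat_lit 10436608) (nat_lit 31686656)) (I.mix (nat_lit 41435136) (nat_lit 6799360)) (I.neg (nat_lit 9437184) (nat_lit 17825792)) (I.pos (nat_lit 271187968) (nat_lit 281690112)) (I.mix (nat_lit 43892736) (nat_lit 33619968)) (I.mix (nat_lit 32604160) (nat_lit 33783808)) (I.mix (nat_lit 8667136) (nat_lit 6946816)))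
  false (nat_lit 0)
def b2_11 : Bx := Bx.mk (St.mk (I.pos (nat_lit 226164736) (nat_lit 273694720)) (I.mix (nat_lit 32178176) (nat_lit 21643264)) (I.mix (nat_lit 85721088) (nat_lit 16302080)) (I.pos (nat_lit 484556800) (nat_lit 563281920)) (I.mix (nat_lit 99270656) (nat_lit 46170112)) (I.mix (nat_lit 56934400) (nat_lit 73760768)) (I.mix (nat_lit 94765056) (nat_lit 127647744)))
  false (nat_lit 24234865)
def b2_12 : Bx := Bx.mk (St.mk (I.mix (nat_lit 7602176) (nat_lit 25985024)) (I.mix (nat_lit 23101440) (nat_lit 15876096)) (I.neg (nat_lit 8683520) (nat_lit 15761408)) (I.pos (nat_lit 271302656) (nat_lit 278216704)) (I.mix (nat_lit 26968064) (nat_lit 37666816)) (I.mix (nat_lit 28082176) (nat_lit 23527424)) (I.mix (nat_lit 5242880) (nat_lit 4751360)))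
  false (nat_lit 0)
def b2_13 : Bx := Bx.mk (St.mk (I.pos (nat_lit 137936896) (nat_lit 201129984)) (I.pos (nat_lit 23396352) (nat_lit 83656704)) (I.pos (nat_lit 43876352) (nat_lit 133988352)) (I.pos (nat_lit 373161984) (nat_lit 436305920)) (I.mix (nat_lit 175472640) (nat_lit 120995840)) (I.mix (nat_lit 147603456) (nat_lit 99336192)) (I.mix (nat_lit 215384064) (nat_lit 143294464)))
  false (nat_lit 45594530)
def b2_14 : Bx := Bx.mk (St.mk (I.pos (nat_lit 19775488) (nat_lit 57737216)) (I.neg (nat_lit 20905984) (nat_lit 81182720)) (I.neg (nat_lit 6422528) (nat_lit 29065216)) (I.pos (nat_lit 278364160) (nat_lit 298139648)) (I.mix (nat_lit 124239872) (nat_lit 92880896)) (I.mix (nat_lit 76054528) (nat_lit 117178368)) (I.mix (nat_lit 36274176) (nat_lit 29114368)))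
  false (nat_lit 51162707)
def b2_15 : Bx := Bx.mk (St.mk (I.pos (nat_lit 173588480) (nat_lit 225280000)) (I.mix (nat_lit 589824) (nat_lit 49332224)) (I.pos (nat_lit 458752) (nat_lit 80166912)) (I.pos (nat_lit 407109632) (nat_lit 467124224)) (I.mix (nat_lit 123895808) (nat_lit 96387072)) (I.mix (nat_lit 91963392) (nat_lit 87474176)) (I.mix (nat_lit 133496832) (nat_lit 143261696)))
  false (nat_lit 52218834)
def b2_16 : Bx := Bx.mk (St.mk (I.pos (nat_lit 17907712) (nat_lit 47890432)) (I.neg (nat_lit 5111808) (nat_lit 43532288)) (I.neg (nat_lit 4898816) (nat_lit 16334848)) (I.pos (nat_lit 274350080) (nat_lit 285687808)) (I.mix (nat_lit 68239360) (nat_lit 65388544)) (I.mix (nat_lit 57196544) (nat_lit 54427648)) (I.mix (nat_lit 13549568) (nat_lit 14139392)))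
  false (nat_lit 0)
def b2_17 : Bx := Bx.mk (St.mk (I.pos (nat_lit 189186048) (nat_lit 291930112)) (I.mix (nat_lit 28442624) (nat_lit 61964288)) (I.mix (nat_lit 83099648) (nat_lit 96616448)) (I.pos (nat_lit 435879936) (nat_lit 599621632)) (I.mix (nat_lit 104415232) (nat_lit 99041280)) (I.mix (nat_lit 111788032) (nat_lit 79085568)) (I.mix (nat_lit 197885952) (nat_lit 123207680)))
  false (nat_lit 88965079)
def b2_18 : Bx := Bx.mk (St.mk (I.mix (nat_lit 15777792) (nat_lit 31293440)) (I.mix (nat_lit 38764544) (nat_lit 13320192)) (I.neg (nat_lit 9764864) (nat_lit 18235392)) (I.pos (nat_lit 271187968) (nat_lit 280805376)) (I.mix (nat_lit 49659904) (nat_lit 36339712)) (I.mix (nat_lit 28573696) (nat_lit 41304064)) (I.mix (nat_lit 8454144) (nat_lit 6225920)))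
  false (nat_lit 0)
def b2_19 : Bx := Bx.mk (St.mk (I.pos (nat_lit 236093440) (nat_lit 274251776)) (I.mix (nat_lit 37044224) (nat_lit 573440)) (I.neg (nat_lit 24985600) (nat_lit 96124928)) (I.pos (nat_lit 503119872) (nat_lit 564674560)) (I.mix (nat_lit 93421568) (nat_lit 46563328)) (I.mix (nat_lit 57884672) (nat_lit 66584576)) (I.mix (nat_lit 100696064) (nat_lit 115523584)))
  false (nat_lit 0)
def b2_20 : Bx := Bx.mk (St.mk (I.mix (nat_lit 8011776) (nat_lit 25214976)) (I.mix (nat_lit 19595264) (nat_lit 18202624)) (I.neg (nat_lit 8781824) (nat_lit 15597568)) (I.pos (nat_lit 271319040) (nat_lit 277823488)) (I.mix (nat_lit 26329088) (nat_lit 32866304)) (I.mix (nat_lit 23871488) (nat_lit 23281664)) (I.mix (nat_lit 4096000) (nat_lit 3899392)))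
  false (nat_lit 0)
def b2_21 : Bx := Bx.mk (St.mk (I.pos (nat_lit 194707456) (nat_lit 230178816)) (I.pos (nat_lit 20955136) (nat_lit 48529408)) (I.pos (nat_lit 30146560) (nat_lit 74383360)) (I.pos (nat_lit 440418304) (nat_lit 476577792)) (I.mix (nat_lit 48136192) (nat_lit 16777216)) (I.mix (nat_lit 25133056) (nat_lit 14467072)) (I.mix (nat_lit 31981568) (nat_lit 21561344)))
  false (nat_lit 0)
def b2_22 : Bx := Bx.mk (St.mk (I.pos (nat_lit 178733056) (nat_lit 285687808)) (I.mix (nat_lit 36028416) (nat_lit 56098816)) (I.mix (nat_lit 98451456) (nat_lit 92372992)) (I.pos (nat_lit 410370048) (nat_lit 588873728)) (I.mix (nat_lit 75808768) (nat_lit 43270144)) (I.mix (nat_lit 56983552) (nat_lit 50266112)) (I.mix (nat_lit 103153664) (nat_lit 84066304)))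
  false (nat_lit 38573304)
def b2_23 : Bx := Bx.mk (St.mk (I.mix (nat_lit 13123584) (nat_lit 12206080)) (I.mix (nat_lit 11812864) (nat_lit 16318464)) (I.neg (nat_lit 9289728) (nat_lit 15695872)) (I.pos (nat_lit 271319040) (nat_lit 276398080)) (I.mix (nat_lit 24166400) (nat_lit 22380544)) (I.mix (nat_lit 15892480) (nat_lit 20627456)) (I.mix (nat_lit 3637248) (nat_lit 3031040)))
  false (nat_lit 0)
def b2_24 : Bx := Bx.mk (St.mk (I.pos (nat_lit 254017536) (nat_lit 284491776)) (I.mix (nat_lit 27394048) (nat_lit 966656)) (I.neg (nat_lit 23478272) (nat_lit 82837504)) (I.pos (nat_lit 537182208) (nat_lit 585809920)) (I.mix (nat_lit 35667968) (nat_lit 11878400)) (I.mix (nat_lit 17317888) (nat_lit 15761408)) (I.mix (nat_lit 28622848) (nat_lit 23330816)))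
  false (nat_lit 0)
def b2_25 : Bx := Bx.mk (St.mk (I.neg (nat_lit 1146880) (nat_lit 12091392)) (I.mix (nat_lit 163840) (nat_lit 12025856)) (I.neg (nat_lit 9715712) (nat_lit 15220736)) (I.pos (nat_lit 271400960) (nat_lit 276283392)) (I.mix (nat_lit 9011200) (nat_lit 5898240)) (I.mix (nat_lit 4407296) (nat_lit 5718016)) (I.mix (nat_lit 1490944) (nat_lit 1277952)))
  false (nat_lit 0)
def b2_26 : Bx := Bx.mk (St.mk (I.pos (nat_lit 26148864) (nat_lit 51134464)) (I.neg (nat_lit 17317888) (nat_lit 50069504)) (I.neg (nat_lit 6897664) (nat_lit 18137088)) (I.pos (nat_lit 276348928) (nat_lit 289144832)) (I.mix (nat_lit 47677440) (nat_lit 48578560)) (I.mix (nat_lit 39010304) (nat_lit 40353792)) (I.mix (nat_lit 13680640) (nat_lit 12156928)))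
  false (nat_lit 0)
def b2_27 : Bx := Bx.mk (St.mk (I.pos (nat_lit 14336000) (nat_lit 31211520)) (I.neg (nat_lit 14434304) (nat_lit 35127296)) (I.neg (nat_lit 8732672) (nat_lit 16433152)) (I.pos (nat_lit 273383424) (nat_lit 281296896)) (I.mix (nat_lit 33390592) (nat_lit 24543232)) (I.mix (nat_lit 21872640) (nat_lit 27344896)) (I.mix (nat_lit 5849088) (nat_lit 5554176)))
  false (nat_lit 0)
def t2 : BTr := (BTr.n (BTr.n (BTr.n (BTr.n (BTr.b b2_0) (BTr.n (BTr.b b2_1) (BTr.b b2_2))) (BTr.n (BTr.n (BTr.b b2_3) (BTr.b b2_4)) (BTr.n (BTr.b b2_5) (BTr.b b2_6)))) (BTr.n (BTr.n (BTr.b b2_7) (BTr.n (BTr.b b2_8) (BTr.b b2_9))) (BTr.n (BTr.n (BTr.b b2_10) (BTr.b b2_11)) (BTr.n (BTr.b b2_12) (BTr.b b2_13))))) (BTr.n (BTr.n (BTr.n (BTr.b b2_14) (BTr.n (BTr.b b2_15) (BTr.b b2_16))) (BTr.n (BTr.n (BTr.b b2_17) (BTr.b b2_18)) (BTr.n (BTr.b b2_19)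 (BTr.b b2_20)))) (BTr.n (BTr.n (BTr.b b2_21) (BTr.n (BTr.b b2_22) (BTr.b b2_23))) (BTr.n (BTr.n (BTr.b b2_24) (BTr.b b2_25)) (BTr.n (BTr.b b2_26) (BTr.b b2_27))))))
namespace T2
def l0 : Tr := Tr.L (Pth.l (Pth.l (Pth.l (Pth.l Pth.z))))
def l1 : Tr := Tr.L (Pth.l (Pth.l (Pth.l (Pth.r (Pth.l Pth.z)))))
def l2 : Tr := Tr.L (Pth.l (Pth.l (Pth.l (Pth.r (Pth.r Pth.z)))))
def l3 : Tr := Tr.L (Pth.l (Pth.l (Pth.r (Pth.l (Pth.l Pth.z)))))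
def l4 : Tr := Tr.L (Pth.l (Pth.l (Pth.r (Pth.l (Pth.r Pth.z)))))
def l5 : Tr := Tr.L (Pth.l (Pth.l (Pth.r (Pth.r (Pth.l Pth.z)))))
def l6 : Tr := Tr.L (Pth.l (Pth.l (Pth.r (Pth.r (Pth.r Pth.z)))))
def l7 : Tr := Tr.L (Pth.l (Pth.r (Pth.l (Pth.l Pth.z))))
def l8 : Tr := Tr.L (Pth.l (Pth.r (Pth.l (Pth.r (Pth.l Pth.z)))))
def l9 : Tr := Tr.L (Pth.l (Pth.r (Pth.l (Pth.r (Pth.r Pth.z)))))
def l10 : Tr := Tr.L (Pth.l (Pth.r (Pth.r (Pth.l (Pth.l Pth.z)))))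
def l11 : Tr := Tr.L (Pth.l (Pth.r (Pth.r (Pth.l (Pth.r Pth.z)))))
def l12 : Tr := Tr.L (Pth.l (Pth.r (Pth.r (Pth.r (Pth.l Pth.z)))))
def l13 : Tr := Tr.L (Pth.l (Pth.r (Pth.r (Pth.r (Pth.r Pth.z)))))
def l14 : Tr := Tr.L (Pth.r (Pth.l (Pth.l (Pth.l Pth.z))))
def l15 : Tr := Tr.L (Pth.r (Pth.l (Pth.l (Pth.r (Pth.l Pth.z)))))
def l16 : Tr := Tr.L (Pth.r (Pth.l (Pth.l (Pth.r (Pth.r Pth.z)))))
def l17 : Tr := Tr.L (Pth.r (Pth.l (Pth.r (Pth.l (Pth.l Pth.z)))))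
def l18 : Tr := Tr.L (Pth.r (Pth.l (Pth.r (Pth.l (Pth.r Pth.z)))))
def l19 : Tr := Tr.L (Pth.r (Pth.l (Pth.r (Pth.r (Pth.l Pth.z)))))
def l20 : Tr := Tr.L (Pth.r (Pth.l (Pth.r (Pth.r (Pth.r Pth.z)))))
def l21 : Tr := Tr.L (Pth.r (Pth.r (Pth.l (Pth.l Pth.z))))
def l22 : Tr := Tr.L (Pth.r (Pth.r (Pth.l (Pth.r (Pth.l Pth.z)))))
def l23 : Tr := Tr.L (Pth.r (Pth.r (Pth.l (Pth.r (Pth.r Pth.z)))))
def l24 : Tr := Tr.L (Pth.r (Pth.r (Pth.r (Pth.l (Pth.l Pth.z)))))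
def l25 : Tr := Tr.L (Pth.r (Pth.r (Pth.r (Pth.l (Pth.r Pth.z)))))
def l26 : Tr := Tr.L (Pth.r (Pth.r (Pth.r (Pth.r (Pth.l Pth.z)))))
def l27 : Tr := Tr.L (Pth.r (Pth.r (Pth.r (Pth.r (Pth.r Pth.z)))))
end T2
theorem bx0_0 : BoxOK sI cl4 cl4 cl7 t0 t2 b0_0 :=
  box_mk (TrL.c (I.pos (nat_lit 0) (nat_lit 0)) (xb (xa T0.l11 (xb T0.l0 T0.l0)) (xa (xb (xa T0.l11 T0.l0) (xa (xb (xs T0.l0 T0.l0) (xs T0.l0 (xa T0.l0 T0.l0))) (xb T0.l0 (xs T0.l0 T0.l0)))) (xb (xa T0.l0 T0.l0) (xa (xb T0.l0 (xs T0.l0 T0.l0)) (xs (xb T0.l0 T0.l0) (xb T0.l0 (xa T0.l0 T0.l0)))))))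
  (TrL.c (I.pos (nat_lit 0) (nat_lit 0)) (xb T2.l1 (xa T2.l1 T2.l1))
  (TrL.c (I.pos (nat_lit 0) (nat_lit 0)) (xb T0.l1 T0.l1)
  (TrL.c (I.pos (nat_lit 0) (nat_lit 0)) (xb T2.l2 (xa T2.l2 (xb T2.l2 T2.l2)))
  (TrL.c (I.pos (nat_lit 0) (nat_lit 0)) (xb (xa T0.l2 T0.l2) (xa T0.l2 T0.l2))
  (TrL.c (I.pos (nat_lit 0) (nat_lit 0)) (xb T2.l3 (xa T2.l3 T2.l3))
  TrL.n)))))) (by decide +kernel)
theorem bx0_1 : BoxOK sI cl4 cl4 cl7 t0 t2 b0_1 :=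
  box_mk (TrL.c (I.pos (nat_lit 0) (nat_lit 0)) (xb T2.l4 T2.l1)
  (TrL.c (I.pos (nat_lit 0) (nat_lit 0)) (xb T0.l1 T0.l3)
  TrL.n)) (by decide +kernel)
theorem bx0_2 : BoxOK sI cl4 cl4 cl7 t0 t2 b0_2 :=
  box_mk (TrL.c (I.pos (nat_lit 0) (nat_lit 0)) (xb (xa (xb (xs T0.l4 (xa T0.l4 T0.l4)) (xa T0.l4 T0.l4)) T0.l9) (xa (xb T0.l9 T0.l9) T0.l9))
  (TrL.c (I.pos (nat_lit 0) (nat_lit 0)) T2.l1
  (TrL.c (I.pos (nat_lit 0) (nat_lit 0)) T0.l1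
  (TrL.c (I.pos (nat_lit 0) (nat_lit 0)) T2.l2
  (TrL.c (I.pos (nat_lit 0) (nat_lit 0)) T0.l5
  (TrL.c (I.pos (nat_lit 0) (nat_lit 0)) T2.l3
  TrL.n)))))) (by decide +kernel)
theorem bx0_3 : BoxOK sI cl4 cl4 cl7 t0 t2 b0_3 :=
  box_mk (TrL.c (I.pos (nat_lit 0) (nat_lit 0)) T2.l4
  (TrL.c (I.pos (nat_lit 0) (nat_lit 0)) T0.l3
  TrL.n)) (by decide +kernel)
theorem bx0_4 : BoxOK sI cl4 cl4 cl7 t0 t2 b0_4 :=
  box_mk (TrL.c (I.pos (nat_lit 0) (nat_lit 0)) (xa T0.l0 T0.l7)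
  (TrL.c (I.pos (nat_lit 0) (nat_lit 0)) (xa T2.l1 T2.l1)
  (TrL.c (I.pos (nat_lit 0) (nat_lit 0)) T0.l8
  (TrL.c (I.pos (nat_lit 0) (nat_lit 0)) (xa T2.l2 (xb (xa T2.l2 T2.l2) T2.l2))
  (TrL.c (I.pos (nat_lit 0) (nat_lit 0)) T0.l6
  (TrL.c (I.pos (nat_lit 0) (nat_lit 0)) (xa T2.l3 T2.l3)
  TrL.n)))))) (by decide +kernel)
theorem bx0_5 : BoxOK sI cl4 cl4 cl7 t0 t2 b0_5 :=
  box_mk (TrL.c (I.pos (nat_lit 0) (nat_lit 0)) (xb T0.l4 T0.l4)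
  (TrL.c (I.pos (nat_lit 0) (nat_lit 0)) T2.l4
  (TrL.c (I.pos (nat_lit 0) (nat_lit 0)) T0.l1
  (TrL.c (I.pos (nat_lit 0) (nat_lit 0)) T2.l2
  (TrL.c (I.pos (nat_lit 0) (nat_lit 0)) T0.l5
  (TrL.c (I.pos (nat_lit 0) (nat_lit 0)) T2.l3
  TrL.n)))))) (by decide +kernel)
theorem bx0_6 : BoxOK sI cl4 cl4 cl7 t0 t2 b0_6 :=
  box_mk (TrL.c (I.pos (nat_lit 0) (nat_lit 0)) (xa (xb (xa (xb (xa (xs T0.l9 T0.l9) T0.l9) T0.l9) (xb T0.l9 T0.l9)) (xa (xb T0.l9 (xa T0.l9 T0.l9)) (xb T0.l9 T0.l9))) (xb (xa T0.l9 (xb (xa T0.l9 T0.l9) T0.l9)) (xa (xb T0.l9 T0.l9) (xb T0.l9 T0.l9))))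
  (TrL.c (I.pos (nat_lit 0) (nat_lit 0)) T2.l1
  (TrL.c (I.pos (nat_lit 0) (nat_lit 0)) T0.l1
  (TrL.c (I.pos (nat_lit 0) (nat_lit 0)) (xa T2.l2 T2.l2)
  (TrL.c (I.pos (nat_lit 0) (nat_lit 0)) (xa T0.l10 T0.l10)
  (TrL.c (I.pos (nat_lit 0) (nat_lit 0)) (xa T2.l3 T2.l3)
  TrL.n)))))) (by decide +kernel)
theorem bx0_7 : BoxOK sI cl4 cl4 cl7 t0 t2 b0_7 :=
  box_mk (TrL.c (I.pos (nat_lit 0) (nat_lit 0)) (xa (xb (xb (xa (xa (xb (xs T0.l11 (xb (xs T0.l11 (xb (xa T0.l9 T0.l9) (xa T0.l9 T0.l9))) T0.l11)) T0.l11) (xb (xs T0.l11 (xb T0.l11 T0.l11)) T0.l11)) (xa T0.l11 T0.l11)) (xa (xa T0.l11 T0.l11) T0.l11)) (xa (xb (xa (xb T0.l11 T0.l11) T0.l11) (xb (xa T0.l11 T0.l11) (xa (xs T0.l11 (xb T0.l11 T0.l11)) T0.l11))) (xb T0.l11 (xa (xb T0.l11 T0.l11) T0.l11)))) (xb (xa (xb T0.l11 T0.l11) (xb (xa T0.l11 T0.l11) T0.l11)) (xa (xb T0.l11 (xa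 T0.l11 T0.l11)) (xb T0.l11 (xa (xb T0.l11 T0.l11) (xb T0.l11 (xs T0.l11 T0.l11)))))))
  (TrL.c (I.pos (nat_lit 0) (nat_lit 0)) (xa (xb (xb T2.l1 T2.l1) (xb T2.l1 T2.l1)) (xb T2.l1 (xa T2.l1 T2.l1)))
  (TrL.c (I.pos (nat_lit 0) (nat_lit 0)) (xa (xb T0.l1 T0.l1) (xb T0.l1 (xs T0.l1 T0.l1)))
  (TrL.c (I.pos (nat_lit 0) (nat_lit 0)) (xb (xa (xb T2.l2 T2.l2) (xa T2.l2 (xb (xa T2.l2 T2.l2) T2.l2))) (xa (xa T2.l2 T2.l2) (xa (xb T2.l2 (xs T2.l2 (xb T2.l2 T2.l2))) (xb T2.l2 (xs T2.l2 (xb (xc T2.l2 T2.l2) (xc (xs T2.l2 T2.l2) (xs T2.l2 T2.l2))))))))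
  (TrL.c (I.pos (nat_lit 0) (nat_lit 0)) (xa (xb T0.l12 T0.l12) (xb T0.l12 (xs T0.l2 T0.l2)))
  (TrL.c (I.pos (nat_lit 0) (nat_lit 0)) (xa (xb (xb T2.l3 T2.l3) (xb T2.l3 (xa T2.l3 T2.l3))) (xb T2.l3 (xa T2.l3 T2.l3)))
  TrL.n)))))) (by decide +kernel)
theorem bx0_8 : BoxOK sI cl4 cl4 cl7 t0 t2 b0_8 :=
  box_mk (TrL.c (I.pos (nat_lit 0) (nat_lit 0)) T2.l1
  (TrL.c (I.pos (nat_lit 0) (nat_lit 0)) (xa T0.l1 T0.l1)
  TrL.n)) (by decide +kernel)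
theorem bx0_9 : BoxOK sI cl4 cl4 cl7 t0 t2 b0_9 :=
  box_mk (TrL.c (I.pos (nat_lit 0) (nat_lit 0)) (xa (xb (xa T0.l11 T0.l0) (xa T0.l11 T0.l0)) (xb T0.l7 (xa T0.l0 T0.l0)))
  (TrL.c (I.pos (nat_lit 0) (nat_lit 0)) (xa T2.l1 (xb T2.l1 T2.l1))
  (TrL.c (I.pos (nat_lit 0) (nat_lit 0)) (xa T0.l1 T0.l8)
  (TrL.c (I.pos (nat_lit 0) (nat_lit 0)) (xa T2.l2 (xb T2.l2 T2.l2))
  (TrL.c (I.pos (nat_lit 0) (nat_lit 0)) (xa T0.l2 T0.l2)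
  (TrL.c (I.pos (nat_lit 0) (nat_lit 0)) (xa T2.l3 (xb T2.l3 T2.l3))
  TrL.n)))))) (by decide +kernel)
theorem bx0_10 : BoxOK sI cl4 cl4 cl7 t0 t2 b0_10 :=
  box_mk (TrL.c (I.pos (nat_lit 0) (nat_lit 0)) (xb T0.l4 (xa T0.l4 T0.l4))
  (TrL.c (I.pos (nat_lit 0) (nat_lit 0)) T2.l4
  (TrL.c (I.pos (nat_lit 0) (nat_lit 0)) T0.l1
  (TrL.c (I.pos (nat_lit 0) (nat_lit 0)) T2.l2
  (TrL.c (I.pos (nat_lit 0) (nat_lit 0)) T0.l5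
  (TrL.c (I.pos (nat_lit 0) (nat_lit 0)) T2.l3
  TrL.n)))))) (by decide +kernel)
theorem bx0_11 : BoxOK sI cl4 cl4 cl7 t0 t2 b0_11 :=
  box_mk (TrL.c (I.pos (nat_lit 0) (nat_lit 0)) (xa (xb (xa (xb T0.l11 T0.l11) (xb T0.l11 T0.l11)) (xa (xb T0.l11 (xs (xa T0.l11 T0.l11) (xa T0.l11 (xb T0.l11 T0.l11)))) (xb (xa T0.l11 T0.l11) (xs (xa T0.l0 T0.l0) (xa (xb T0.l0 T0.l0) (xb T0.l0 T0.l0)))))) (xb (xa (xb T0.l0 (xa T0.l0 T0.l0)) (xb T0.l0 T0.l0)) (xa (xb (xa T0.l11 T0.l0) (xs T0.l0 (xa (xb T0.l0 T0.l0) T0.l0))) (xb (xa T0.l0 (xs T0.l0 T0.l0)) (xs T0.l0 (xa T0.l0 (xb T0.l0 (xs T0.l0 T0.l0))))))))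
  (TrL.c (I.pos (nat_lit 0) (nat_lit 0)) (xa (xb T2.l1 T2.l1) (xb T2.l1 (xa T2.l1 (xb T2.l1 T2.l1))))
  (TrL.c (I.pos (nat_lit 0) (nat_lit 0)) (xa T0.l1 (xs (xb T0.l1 T0.l1) (xb T0.l1 (xc T0.l1 T0.l1))))
  (TrL.c (I.pos (nat_lit 0) (nat_lit 0)) (xa (xb T2.l2 (xs T2.l2 T2.l2)) (xb (xa T2.l2 (xb (xs T2.l2 T2.l2) T2.l2)) (xa (xs T2.l2 (xb T2.l2 T2.l2)) (xs (xb T2.l2 T2.l2) (xb T2.l2 (xc T2.l2 T2.l2))))))
  (TrL.c (I.pos (nat_lit 0) (nat_lit 0)) (xa (xb T0.l2 T0.l2) (xs T0.l2 (xb T0.l2 (xc T0.l2 T0.l2))))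
  (TrL.c (I.pos (nat_lit 0) (nat_lit 0)) (xa (xb T2.l3 T2.l3) (xb T2.l3 (xa T2.l3 (xb T2.l3 T2.l3))))
  TrL.n)))))) (by decide +kernel)
theorem bx0_12 : BoxOK sI cl4 cl4 cl7 t0 t2 b0_12 :=
  box_mk (TrL.c (I.pos (nat_lit 0) (nat_lit 0)) (xb (xa (xb (xa T0.l4 T0.l4) T0.l4) T0.l4) (xa (xb T0.l4 T0.l4) T0.l9))
  (TrL.c (I.pos (nat_lit 0) (nat_lit 0)) T2.l1
  (TrL.c (I.pos (nat_lit 0) (nat_lit 0)) T0.l1
  (TrL.c (I.pos (nat_lit 0) (nat_lit 0)) T2.l2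
  (TrL.c (I.pos (nat_lit 0) (nat_lit 0)) T0.l5
  (TrL.c (I.pos (nat_lit 0) (nat_lit 0)) T2.l3
  TrL.n)))))) (by decide +kernel)
theorem sv0 : StarV sI cl4 cl4 cl7 t0 t2 t0 :=
  (bt_n (bt_n (bt_n (bt_b bx0_0) (bt_n (bt_b bx0_1) (bt_b bx0_2))) (bt_n (bt_b bx0_3) (bt_n (bt_b bx0_4) (bt_b bx0_5)))) (bt_n (bt_n (bt_b bx0_6) (bt_n (bt_b bx0_7) (bt_b bx0_8))) (bt_n (bt_n (bt_b bx0_9) (bt_b bx0_10)) (bt_n (bt_b bx0_11) (bt_b bx0_12)))))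
def S0 : StarD := StarD.mk cl4 cl4 cl7 0 2 t0
theorem bx1_0 : BoxOK sI cl4 cl7 cl4 t2 t0 b1_0 :=
  box_mk (TrL.c (I.pos (nat_lit 0) (nat_lit 0)) (xa (xb (xa T2.l0 T2.l0) (xa (xb T2.l0 (xa (xs T2.l0 T2.l0) (xs T2.l0 T2.l0))) (xb T2.l0 (xs (xa T2.l0 T2.l0) (xa T2.l0 T2.l0))))) (xb (xa T2.l0 (xb T2.l0 T2.l2)) (xa (xb T2.l0 (xs (xa T2.l0 T2.l0) (xa T2.l0 T2.l2))) (xb (xs T2.l0 T2.l2) (xs (xa T2.l2 T2.l2) (xa T2.l2 T2.l2))))))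
  (TrL.c (I.pos (nat_lit 0) (nat_lit 0)) (xa T0.l6 (xb T0.l6 (xa T0.l6 (xs T0.l6 T0.l6))))
  (TrL.c (I.pos (nat_lit 0) (nat_lit 0)) T2.l5
  (TrL.c (I.pos (nat_lit 0) (nat_lit 0)) T0.l7
  (TrL.c (I.pos (nat_lit 0) (nat_lit 0)) (xa T2.l6 T2.l6)
  (TrL.c (I.pos (nat_lit 0) (nat_lit 0)) (xa T0.l8 (xb T0.l8 (xa T0.l8 (xs T0.l8 T0.l8))))
  TrL.n)))))) (by decide +kernel)
theorem bx1_1 : BoxOK sI cl4 cl7 cl4 t2 t0 b1_1 :=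
  box_mk (TrL.c (I.pos (nat_lit 0) (nat_lit 0)) (xa (xb (xa T2.l7 T2.l0) (xa (xb T2.l7 T2.l7) T2.l7)) T2.l0)
  (TrL.c (I.pos (nat_lit 0) (nat_lit 0)) T0.l6
  (TrL.c (I.pos (nat_lit 0) (nat_lit 0)) T2.l5
  (TrL.c (I.pos (nat_lit 0) (nat_lit 0)) T0.l7
  (TrL.c (I.pos (nat_lit 0) (nat_lit 0)) T2.l8
  (TrL.c (I.pos (nat_lit 0) (nat_lit 0)) T0.l8
  TrL.n)))))) (by decide +kernel)
theorem bx1_2 : BoxOK sI cl4 cl7 cl4 t2 t0 b1_2 :=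
  box_mk (TrL.c (I.pos (nat_lit 0) (nat_lit 0)) (xa (xa (xb T2.l9 (xa T2.l9 T2.l9)) (xb T2.l9 T2.l9)) (xa (xb T2.l9 T2.l9) (xb (xa T2.l9 T2.l15) T2.l17)))
  (TrL.c (I.pos (nat_lit 0) (nat_lit 0)) (xa T0.l6 T0.l6)
  (TrL.c (I.pos (nat_lit 0) (nat_lit 0)) T2.l5
  (TrL.c (I.pos (nat_lit 0) (nat_lit 0)) (xa T0.l7 T0.l7)
  (TrL.c (I.pos (nat_lit 0) (nat_lit 0)) (xa T2.l10 T2.l10)
  (TrL.c (I.pos (nat_lit 0) (nat_lit 0)) T0.l8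
  TrL.n)))))) (by decide +kernel)
theorem bx1_3 : BoxOK sI cl4 cl7 cl4 t2 t0 b1_3 :=
  box_mk (TrL.c (I.pos (nat_lit 0) (nat_lit 0)) (xa (xa (xb (xa T2.l11 T2.l11) T2.l17) T2.l17) T2.l17)
  (TrL.c (I.pos (nat_lit 0) (nat_lit 0)) (xa T0.l7 T0.l6)
  (TrL.c (I.pos (nat_lit 0) (nat_lit 0)) T2.l5
  (TrL.c (I.pos (nat_lit 0) (nat_lit 0)) (xa T0.l6 T0.l7)
  (TrL.c (I.pos (nat_lit 0) (nat_lit 0)) T2.l12
  (TrL.c (I.pos (nat_lit 0) (nat_lit 0)) (xa T0.l8 T0.l8)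
  TrL.n)))))) (by decide +kernel)
theorem bx1_4 : BoxOK sI cl4 cl7 cl4 t2 t0 b1_4 :=
  box_mk (TrL.c (I.pos (nat_lit 0) (nat_lit 0)) (xb (xa (xb T2.l13 (xa T2.l13 T2.l13)) (xb (xa T2.l13 (xb (xa T2.l13 (xs T2.l13 (xb (xs T2.l0 T2.l0) T2.l0))) (xa T2.l13 T2.l2))) (xa T2.l13 (xb T2.l13 T2.l13)))) (xa (xb (xa (xb T2.l13 (xs T2.l13 T2.l13)) (xb T2.l13 (xs T2.l13 T2.l13))) (xa (xs (xb T2.l13 T2.l13) (xb (xa T2.l13 T2.l13) (xa (xs T2.l13 T2.l13) T2.l13))) (xs (xb T2.l13 (xa T2.l13 T2.l13)) (xb T2.l13 (xa T2.l13 T2.l13))))) (xb (xa (xs T2.l13 T2.l13) (xs T2.l13 (xb T2.l13 T2.l13))) (xa (xs (xb T2.l13 T2.l13) (xb T2.l13 (xa T2.l13 T2.l13))) (xs (xb T2.l13 (xa T2.l13 T2.l13)) (xb (xa T2.l13 T2.l13) (xa T2.l13 T2.l13)))))))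
  (TrL.c (I.pos (nat_lit 0) (nat_lit 0)) (xb (xa T0.l6 (xb T0.l6 T0.l6)) (xa (xb T0.l6 (xa (xs T0.l6 T0.l6) T0.l6)) (xb (xa T0.l6 T0.l6) (xa T0.l6 T0.l6))))
  (TrL.c (I.pos (nat_lit 0) (nat_lit 0)) (xb T2.l5 (xa T2.l5 (xc T2.l5 T2.l5)))
  (TrL.c (I.pos (nat_lit 0) (nat_lit 0)) (xb (xa T0.l7 T0.l7) (xa T0.l7 (xb T0.l7 (xa T0.l7 T0.l7))))
  (TrL.c (I.pos (nat_lit 0) (nat_lit 0)) (xb T2.l14 (xa T2.l14 (xc T2.l14 T2.l14)))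
  (TrL.c (I.pos (nat_lit 0) (nat_lit 0)) (xb (xa T0.l8 (xb T0.l8 T0.l8)) (xa (xb T0.l8 (xa (xs T0.l8 T0.l8) T0.l8)) (xb (xa T0.l8 T0.l8) (xa T0.l8 T0.l8))))
  TrL.n)))))) (by decide +kernel)
theorem bx1_5 : BoxOK sI cl4 cl7 cl4 t2 t0 b1_5 :=
  box_mk (TrL.c (I.pos (nat_lit 0) (nat_lit 0)) (xb (xa (xb (xa T2.l15 T2.l15) T2.l7) T2.l0) (xa (xb T2.l15 (xa T2.l15 T2.l15)) (xb T2.l15 T2.l0)))
  (TrL.c (I.pos (nat_lit 0) (nat_lit 0)) T0.l6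
  (TrL.c (I.pos (nat_lit 0) (nat_lit 0)) T2.l5
  (TrL.c (I.pos (nat_lit 0) (nat_lit 0)) T0.l7
  (TrL.c (I.pos (nat_lit 0) (nat_lit 0)) T2.l16
  (TrL.c (I.pos (nat_lit 0) (nat_lit 0)) T0.l8
  TrL.n)))))) (by decide +kernel)
theorem bx1_6 : BoxOK sI cl4 cl7 cl4 t2 t0 b1_6 :=
  box_mk (TrL.c (I.pos (nat_lit 0) (nat_lit 0)) (xa (xa (xb (xa (xb T2.l17 T2.l17) T2.l17) (xa (xb T2.l17 (xa T2.l17 T2.l17)) T2.l17)) (xb T2.l17 T2.l17)) (xa (xb T2.l17 T2.l17) (xb T2.l17 (xa T2.l17 T2.l17))))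
  (TrL.c (I.pos (nat_lit 0) (nat_lit 0)) (xa (xa T0.l6 T0.l6) T0.l6)
  (TrL.c (I.pos (nat_lit 0) (nat_lit 0)) T2.l5
  (TrL.c (I.pos (nat_lit 0) (nat_lit 0)) (xa (xa T0.l7 T0.l7) T0.l7)
  (TrL.c (I.pos (nat_lit 0) (nat_lit 0)) (xa T2.l18 T2.l18)
  (TrL.c (I.pos (nat_lit 0) (nat_lit 0)) (xa T0.l8 T0.l8)
  TrL.n)))))) (by decide +kernel)
theorem bx1_7 : BoxOK sI cl4 cl7 cl4 t2 t0 b1_7 :=
  box_mk (TrL.c (I.pos (nat_lit 0) (nat_lit 0)) (xa (xa (xb (xa T2.l19 T2.l19) (xa T2.l19 T2.l19)) T2.l17) T2.l9)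
  (TrL.c (I.pos (nat_lit 0) (nat_lit 0)) (xa T0.l7 T0.l6)
  (TrL.c (I.pos (nat_lit 0) (nat_lit 0)) T2.l5
  (TrL.c (I.pos (nat_lit 0) (nat_lit 0)) (xa T0.l6 T0.l7)
  (TrL.c (I.pos (nat_lit 0) (nat_lit 0)) T2.l20
  (TrL.c (I.pos (nat_lit 0) (nat_lit 0)) (xa T0.l8 T0.l8)
  TrL.n)))))) (by decide +kernel)
theorem bx1_8 : BoxOK sI cl4 cl7 cl4 t2 t0 b1_8 :=
  box_mk (TrL.c (I.pos (nat_lit 0) (nat_lit 0)) (xa (xb T2.l0 (xa T2.l0 T2.l0)) (xb T2.l2 T2.l2))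
  (TrL.c (I.pos (nat_lit 0) (nat_lit 0)) (xa T0.l6 (xb (xa T0.l6 T0.l6) T0.l6))
  (TrL.c (I.pos (nat_lit 0) (nat_lit 0)) T2.l3
  (TrL.c (I.pos (nat_lit 0) (nat_lit 0)) (xa T0.l7 T0.l7)
  (TrL.c (I.pos (nat_lit 0) (nat_lit 0)) T2.l1
  (TrL.c (I.pos (nat_lit 0) (nat_lit 0)) (xa T0.l8 (xb (xa T0.l8 T0.l8) T0.l8))
  TrL.n)))))) (by decide +kernel)
theorem bx1_9 : BoxOK sI cl4 cl7 cl4 t2 t0 b1_9 :=
  box_mk (TrL.c (I.pos (nat_lit 0) (nat_lit 0)) (xb T2.l0 T2.l0)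
  (TrL.c (I.pos (nat_lit 0) (nat_lit 0)) T0.l6
  (TrL.c (I.pos (nat_lit 0) (nat_lit 0)) T2.l5
  (TrL.c (I.pos (nat_lit 0) (nat_lit 0)) T0.l7
  (TrL.c (I.pos (nat_lit 0) (nat_lit 0)) T2.l1
  (TrL.c (I.pos (nat_lit 0) (nat_lit 0)) T0.l8
  TrL.n)))))) (by decide +kernel)
theorem c1_10_0 : chkTag sI cl4 cl7 cl4 t2 b1_10 (tg true true false RT.r2) (I.pos (nat_lit 0) (nat_lit 0))
  (xa (xb (xa (xb (xs T2.l0 (xa T2.l0 T2.l0)) (xs T2.l0 (xa T2.l0 T2.l0))) (xb T2.l0 (xs T2.l0 T2.l0))) (xa (xb (xs T2.l0 (xa T2.l0 T2.l0)) (xs (xa T2.l0 T2.l0) (xa (xb T2.l0 T2.l0) (xb T2.l0 T2.l0)))) (xb (xs T2.l0 (xa T2.l0 T2.l0)) (xs (xa T2.l0 T2.l0) (xa (xb T2.l0 T2.l0) T2.l2))))) (xb (xa (xb (xs T2.l0 T2.l0) (xs T2.l0 (xb T2.l0 T2.l0))) (xb (xs T2.l0 (xb (xs T2.l0 (xa T2.l0 (xb (xd T2.l0 (xs T2.l0 T2.l0)) T2.l0))) (xs T2.l0 (xa T2.l0 (xb T2.l0 T2.l0)))))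 (xs (xb T2.l0 T2.l0) (xb (xs T2.l0 T2.l0) (xs T2.l0 T2.l0))))) (xa (xb (xs T2.l0 (xb (xs T2.l0 T2.l0) (xs T2.l0 T2.l2))) (xs T2.l2 (xa T2.l2 T2.l2))) (xs (xb T2.l0 T2.l2) (xb (xb (xs T2.l0 (xa T2.l0 T2.l0)) (xs T2.l0 (xa T2.l0 T2.l2))) (xb T2.l2 T2.l2)))))) = true := by decide +kernel
theorem c1_10_1 : chkTag sI cl4 cl7 cl4 t0 b1_10 (tg true false false RT.r3) (I.pos (nat_lit 0) (nat_lit 0))
  (xa (xb T0.l6 (xs T0.l6 (xa (xb T0.l6 T0.l6) (xb T0.l6 T0.l6)))) (xb (xa T0.l6 (xs T0.l6 T0.l6)) (xa (xs T0.l6 (xb T0.l6 T0.l6)) (xs T0.l6 (xb T0.l6 T0.l6))))) = true := by decide +kernel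
theorem c1_10_2 : chkTag sI cl4 cl7 cl4 t2 b1_10 (tg true true true RT.r4) (I.pos (nat_lit 0) (nat_lit 0))
  (xa (xb T2.l5 T2.l5) T2.l3) = true := by decide +kernel
theorem c1_10_3 : chkTag sI cl4 cl7 cl4 t0 b1_10 (tg false false false RT.r3) (I.pos (nat_lit 0) (nat_lit 0))
  (xa T0.l7 (xb (xa T0.l7 T0.l7) (xa T0.l7 (xb T0.l7 T0.l7)))) = true := by decide +kernel
theorem c1_10_4 : chkTag sI cl4 cl7 cl4 t2 b1_10 (tg false true false RT.r4) (I.pos (nat_lit 0) (nat_lit 0))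
  (xa T2.l6 T2.l1) = true := by decide +kernel
theorem c1_10_5 : chkTag sI cl4 cl7 cl4 t0 b1_10 (tg false false true RT.r5) (I.pos (nat_lit 0) (nat_lit 0))
  (xa (xb T0.l8 (xs T0.l8 (xa (xb T0.l8 T0.l8) (xb T0.l8 T0.l8)))) (xb (xa T0.l8 (xs T0.l8 T0.l8)) (xa (xs T0.l8 (xb T0.l8 T0.l8)) (xs T0.l8 (xb T0.l8 T0.l8))))) = true := by decide +kernel
theorem bx1_10 : BoxOK sI cl4 cl7 cl4 t2 t0 b1_10 :=
  box_mk' [(tg true true false RT.r2), (tg true false false RT.r3), (tg true true true RT.r4), (tg false false false RT.r3), (tg false true false RT.r4), (tg false false true RT.r5)] rfl (allL_c (ex_mk c1_10_0) (allL_c (ex_mk c1_10_1) (allL_c (ex_mk c1_10_2) (allL_c (ex_mk c1_10_3) (allL_c (ex_mk c1_10_4) (allL_c (ex_mk c1_10_5) allL_n))))))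
theorem bx1_11 : BoxOK sI cl4 cl7 cl4 t2 t0 b1_11 :=
  box_mk (TrL.c (I.pos (nat_lit 0) (nat_lit 0)) (xb (xa (xa (xb (xs T2.l13 (xb (xs T2.l13 (xb (xa (xs T2.l13 (xd T2.l13 (xb T2.l13 T2.l13))) (xs T2.l13 (xd T2.l13 T2.l13))) (xa T2.l13 T2.l13))) (xs T2.l13 (xb T2.l13 T2.l13)))) T2.l13) (xb (xs T2.l13 (xb (xs T2.l13 T2.l13) T2.l13)) T2.l13)) (xa (xb (xs T2.l13 (xb T2.l13 T2.l13)) T2.l13) (xb (xs T2.l13 (xb T2.l13 T2.l13)) T2.l13))) (xa (xb (xa T2.l13 T2.l13) (xa (xs T2.l13 T2.l13) T2.l13)) (xa (xb T2.l13 T2.l13) (xb T2.l13 T2.l13))))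
  (TrL.c (I.pos (nat_lit 0) (nat_lit 0)) (xa (xb T0.l6 T0.l6) (xb T0.l6 T0.l6))
  (TrL.c (I.pos (nat_lit 0) (nat_lit 0)) (xa T2.l5 T2.l3)
  (TrL.c (I.pos (nat_lit 0) (nat_lit 0)) (xa T0.l7 (xb (xa T0.l7 T0.l7) T0.l7))
  (TrL.c (I.pos (nat_lit 0) (nat_lit 0)) (xa T2.l14 T2.l1)
  (TrL.c (I.pos (nat_lit 0) (nat_lit 0)) (xa (xb T0.l8 T0.l8) (xb T0.l8 T0.l8))
  TrL.n)))))) (by decide +kernel)
theorem bx1_12 : BoxOK sI cl4 cl7 cl4 t2 t0 b1_12 :=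
  box_mk (TrL.c (I.pos (nat_lit 0) (nat_lit 0)) T2.l0
  (TrL.c (I.pos (nat_lit 0) (nat_lit 0)) T0.l6
  (TrL.c (I.pos (nat_lit 0) (nat_lit 0)) T2.l5
  (TrL.c (I.pos (nat_lit 0) (nat_lit 0)) T0.l7
  (TrL.c (I.pos (nat_lit 0) (nat_lit 0)) (xb T2.l26 T2.l26)
  (TrL.c (I.pos (nat_lit 0) (nat_lit 0)) T0.l8
  TrL.n)))))) (by decide +kernel)
theorem bx1_13 : BoxOK sI cl4 cl7 cl4 t2 t0 b1_13 :=
  box_mk (TrL.c (I.pos (nat_lit 0) (nat_lit 0)) (xa T2.l9 T2.l15)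
  (TrL.c (I.pos (nat_lit 0) (nat_lit 0)) T0.l6
  (TrL.c (I.pos (nat_lit 0) (nat_lit 0)) T2.l5
  (TrL.c (I.pos (nat_lit 0) (nat_lit 0)) T0.l7
  (TrL.c (I.pos (nat_lit 0) (nat_lit 0)) T2.l27
  (TrL.c (I.pos (nat_lit 0) (nat_lit 0)) T0.l8
  TrL.n)))))) (by decide +kernel)
theorem bx1_14 : BoxOK sI cl4 cl7 cl4 t2 t0 b1_14 :=
  box_mk (TrL.c (I.pos (nat_lit 0) (nat_lit 0)) (xa (xa (xb (xa (xa T2.l22 T2.l22) T2.l22) (xa T2.l22 T2.l22)) T2.l17) (xa T2.l9 T2.l22))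
  (TrL.c (I.pos (nat_lit 0) (nat_lit 0)) (xa T0.l7 T0.l6)
  (TrL.c (I.pos (nat_lit 0) (nat_lit 0)) T2.l5
  (TrL.c (I.pos (nat_lit 0) (nat_lit 0)) (xa T0.l6 T0.l7)
  (TrL.c (I.pos (nat_lit 0) (nat_lit 0)) (xa T2.l23 T2.l10)
  (TrL.c (I.pos (nat_lit 0) (nat_lit 0)) (xa T0.l8 T0.l8)
  TrL.n)))))) (by decide +kernel)
theorem bx1_15 : BoxOK sI cl4 cl7 cl4 t2 t0 b1_15 :=
  box_mk (TrL.c (I.pos (nat_lit 0) (nat_lit 0)) (xa (xa T2.l22 T2.l17) T2.l9)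
  (TrL.c (I.pos (nat_lit 0) (nat_lit 0)) T0.l7
  (TrL.c (I.pos (nat_lit 0) (nat_lit 0)) T2.l5
  (TrL.c (I.pos (nat_lit 0) (nat_lit 0)) T0.l7
  (TrL.c (I.pos (nat_lit 0) (nat_lit 0)) T2.l18
  (TrL.c (I.pos (nat_lit 0) (nat_lit 0)) T0.l8
  TrL.n)))))) (by decide +kernel)
theorem bx1_16 : BoxOK sI cl4 cl7 cl4 t2 t0 b1_16 :=
  box_mk (TrL.c (I.pos (nat_lit 0) (nat_lit 0)) (xa (xb (xa T2.l0 T2.l2) (xa T2.l0 T2.l2)) T2.l2)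
  (TrL.c (I.pos (nat_lit 0) (nat_lit 0)) (xa T0.l6 (xa T0.l6 (xb T0.l6 T0.l6)))
  (TrL.c (I.pos (nat_lit 0) (nat_lit 0)) T2.l3
  (TrL.c (I.pos (nat_lit 0) (nat_lit 0)) (xa T0.l7 (xb T0.l0 T0.l7))
  (TrL.c (I.pos (nat_lit 0) (nat_lit 0)) T2.l1
  (TrL.c (I.pos (nat_lit 0) (nat_lit 0)) (xa T0.l8 (xa T0.l8 (xb T0.l8 T0.l8)))
  TrL.n)))))) (by decide +kernel)
theorem bx1_17 : BoxOK sI cl4 cl7 cl4 t2 t0 b1_17 :=
  box_mk (TrL.c (I.pos (nat_lit 0) (nat_lit 0)) T2.l0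
  (TrL.c (I.pos (nat_lit 0) (nat_lit 0)) T0.l6
  (TrL.c (I.pos (nat_lit 0) (nat_lit 0)) T2.l5
  (TrL.c (I.pos (nat_lit 0) (nat_lit 0)) T0.l7
  (TrL.c (I.pos (nat_lit 0) (nat_lit 0)) T2.l14
  (TrL.c (I.pos (nat_lit 0) (nat_lit 0)) T0.l8
  TrL.n)))))) (by decide +kernel)
theorem bx1_18 : BoxOK sI cl4 cl7 cl4 t2 t0 b1_18 :=
  box_mk (TrL.c (I.pos (nat_lit 0) (nat_lit 0)) (xa T2.l0 T2.l2)
  (TrL.c (I.pos (nat_lit 0) (nat_lit 0)) T0.l6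
  (TrL.c (I.pos (nat_lit 0) (nat_lit 0)) T2.l5
  (TrL.c (I.pos (nat_lit 0) (nat_lit 0)) T0.l7
  (TrL.c (I.pos (nat_lit 0) (nat_lit 0)) T2.l6
  (TrL.c (I.pos (nat_lit 0) (nat_lit 0)) T0.l8
  TrL.n)))))) (by decide +kernel)
theorem sv1 : StarV sI cl4 cl7 cl4 t2 t0 t1 :=
  (bt_n (bt_n (bt_n (bt_n (bt_b bx1_0) (bt_b bx1_1)) (bt_n (bt_b bx1_2) (bt_b bx1_3))) (bt_n (bt_n (bt_b bx1_4) (bt_b bx1_5)) (bt_n (bt_b bx1_6) (bt_n (bt_b bx1_7) (bt_b bx1_8))))) (bt_n (bt_n (bt_n (bt_b bx1_9) (bt_b bx1_10)) (bt_n (bt_b bx1_11) (bt_n (bt_b bx1_12) (bt_b bx1_13)))) (bt_n (bt_n (bt_b bx1_14) (bt_b bx1_15)) (bt_n (bt_b bx1_16) (bt_n (bt_b bx1_17) (bt_b bx1_18))))))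
def S1 : StarD := StarD.mk cl4 cl7 cl4 2 0 t1
theorem c2_0_0 : chkTag sI cl7 cl4 cl4 t1 b2_0 (tg true true false RT.r2) (I.pos (nat_lit 0) (nat_lit 0))
  (xa (xb (xa T1.l10 (xb T1.l10 T1.l10)) (xa (xb T1.l10 (xs T1.l10 (xa T1.l10 T1.l10))) (xb (xs T1.l10 T1.l10) (xs (xa T1.l10 T1.l10) (xa T1.l10 T1.l10))))) (xb (xa (xb (xa T1.l0 T1.l0) (xa T1.l0 T1.l0)) (xb T1.l0 T1.l0)) (xa (xb (xs T1.l0 (xa T1.l0 T1.l0)) (xs (xa T1.l10 T1.l0) (xa (xb T1.l0 T1.l10) (xk (xb T1.l0 T1.l0) T1.l0)))) (xb (xs T1.l0 (xa T1.l0 T1.l0)) (xs (xa T1.l0 T1.l0) (xa (xb T1.l0 T1.l0) (xk T1.l0 T1.l0))))))) = true := by decide +kernel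
theorem c2_0_1 : chkTag sI cl7 cl4 cl4 t1 b2_0 (tg true false false RT.r3) (I.pos (nat_lit 0) (nat_lit 0))
  (xa (xb T1.l1 (xk T1.l1 T1.l1)) (xb T1.l1 (xk (xa T1.l1 T1.l1) T1.l1))) = true := by decide +kernel
theorem c2_0_2 : chkTag sI cl7 cl4 cl4 t1 b2_0 (Tag.mk true true false RT.tl RT.r4) (I.pos (nat_lit 0) (nat_lit 111196574))
  (xR (xR T1.l6 T1.l2) (xR T1.l2 (xR T1.l2 (xa T1.l2 T1.l2)))) = true := by decide +kernel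
theorem c2_0_3 : chkTag sI cl7 cl4 cl4 t1 b2_0 (Tag.mk true false false RT.tl RT.r5) (I.pos (nat_lit 0) (nat_lit 77433728))
  (xR (xR T1.l3 T1.l3) (xR T1.l3 T1.l3)) = true := by decide +kernel
theorem c2_0_4 : chkTag sI cl7 cl4 cl4 t1 b2_0 (tg false false false RT.r3) (I.pos (nat_lit 0) (nat_lit 0))
  (xa (xb T1.l4 (xb T1.l11 (xk T1.l11 T1.l11))) (xb (xk T1.l4 T1.l4) (xk (xa (xb T1.l11 (xs T1.l4 (xb T1.l11 T1.l4))) (xb (xs T1.l4 T1.l4) (xs (xk T1.l4 T1.l4) (xk (xb T1.l4 (xs T1.l4 T1.l4)) (xb T1.l4 (xs T1.l4 (xa T1.l11 T1.l4))))))) (xb (xa T1.l11 (xs T1.l4 (xb T1.l4 T1.l4))) (xs (xa T1.l4 (xk (xb T1.l4 T1.l4) (xb T1.l4 (xs T1.l4 T1.l4)))) (xa (xb T1.l11 T1.l11) (xb (xk T1.l4 (xs T1.l4 T1.l4)) (xk (xs T1.l4 (xa T1.l11 (xb T1.l4 T1.l4))) (xs (xa T1.l11 T1.l4) (xa T1.l4 (xb T1.l4 (xk T1.l11 T1.l11)))))))))))) = true := by decide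 +kernel
theorem c2_0_5 : chkTag sI cl7 cl4 cl4 t1 b2_0 (tg false true false RT.r4) (I.pos (nat_lit 0) (nat_lit 0))
  (xk T1.l5 T1.l5) = true := by decide +kernel
theorem c2_0_6 : chkTag sI cl7 cl4 cl4 t1 b2_0 (Tag.mk false false false RT.tl RT.r5) (I.mix (nat_lit 29511666) (nat_lit 77433728))
  (xR T1.l6 (xR T1.l6 T1.l6)) = true := by decide +kernel
theorem c2_0_7 : chkTag sI cl7 cl4 cl4 t1 b2_0 (Tag.mk false true false RT.tl RT.r6) (I.mix (nat_lit 29511666) (nat_lit 46070178))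
  (xR T1.l7 T1.l7) = true := by decide +kernel
theorem bx2_0 : BoxOK sI cl7 cl4 cl4 t1 t1 b2_0 :=
  box_mk' [(tg true true false RT.r2), (tg true false false RT.r3), (Tag.mk true true false RT.tl RT.r4), (Tag.mk true false false RT.tl RT.r5), (tg false false false RT.r3), (tg false true false RT.r4), (Tag.mk false false false RT.tl RT.r5), (Tag.mk false true false RT.tl RT.r6)] rfl (allL_c (ex_mk c2_0_0) (allL_c (ex_mk c2_0_1) (allL_c (ex_mk c2_0_2) (allL_c (ex_mk c2_0_3) (allL_c (ex_mk c2_0_4) (allL_c (ex_mk c2_0_5) (allL_c (ex_mk c2_0_6) (allL_c (ex_mk c2_0_7) allL_n))))))))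
theorem bx2_1 : BoxOK sI cl7 cl4 cl4 t1 t1 b2_1 :=
  box_mk (TrL.c (I.pos (nat_lit 0) (nat_lit 0)) (xb (xa (xb (xa (xb T1.l8 T1.l8) T1.l8) T1.l8) (xb (xa T1.l8 T1.l8) T1.l8)) (xa (xb T1.l8 (xa T1.l8 T1.l8)) (xb T1.l8 (xa T1.l8 T1.l10))))
  (TrL.c (I.pos (nat_lit 0) (nat_lit 0)) (xb (xa T1.l1 T1.l1) T1.l1)
  (TrL.c (I.pos (nat_lit 0) (nat_lit 111196574)) (xR (xR T1.l2 T1.l2) (xR T1.l2 (xb T1.l2 T1.l2)))
  (TrL.c (I.pos (nat_lit 0) (nat_lit 77433728)) (xR (xR T1.l3 T1.l3) (xR T1.l3 (xb T1.l3 T1.l3)))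
  (TrL.c (I.pos (nat_lit 0) (nat_lit 0)) (xb (xa T1.l9 (xk T1.l9 T1.l9)) (xa T1.l9 T1.l9))
  (TrL.c (I.pos (nat_lit 0) (nat_lit 0)) T1.l5
  (TrL.c (I.mix (nat_lit 29511666) (nat_lit 77433728)) (xR T1.l6 (xR T1.l6 (xR T1.l6 T1.l6)))
  (TrL.c (I.mix (nat_lit 29511666) (nat_lit 46070178)) T1.l6
  TrL.n)))))))) (by decide +kernel)
def rc2_2_0_l : Tr := (xa (xb (xa (xb (xs T1.l10 (xb (xa (xs T1.l10 (xk (xb (xc T1.l10 T1.l10) T1.l10) (xb (xc T1.l10 (xs T1.l10 T1.l10)) T1.l10))) (xs T1.l10 (xk (xb T1.l10 T1.l10) (xb (xc T1.l10 T1.l10) T1.l10)))) (xa (xs T1.l10 (xk T1.l10 T1.l10)) (xs T1.l10 T1.l10)))) (xs T1.l10 (xb (xa T1.l10 T1.l10) T1.l10))) (xb (xs T1.l10 (xb (xa (xs T1.l10 (xk T1.l10 (xb T1.l10 T1.l10))) (xs T1.l10 (xk T1.l10 (xb T1.l10 T1.l10)))) (xa (xs T1.l10 T1.l10) T1.l10))) (xs T1.l10 (xb (xa T1.l10 T1.l10) T1.l10)))) (xa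 (xb T1.l10 T1.l10) (xb T1.l10 T1.l10))) (xb (xa (xb (xs T1.l10 (xb (xa (xs T1.l10 (xk T1.l10 T1.l10)) (xs T1.l10 (xk T1.l8 T1.l10))) (xa T1.l10 T1.l10))) (xs T1.l10 (xb T1.l10 T1.l10))) (xb (xs T1.l10 (xb (xa (xs T1.l10 (xk T1.l10 T1.l10)) (xs (xk T1.l4 T1.l4) (xk T1.l4 T1.l4))) (xa T1.l10 T1.l10))) (xs T1.l10 (xb T1.l10 T1.l10)))) (xa (xb T1.l10 T1.l10) (xb T1.l10 T1.l10))))
theorem qc2_2_0_l : chkTr (tg true true false RT.r2) b2_2 t1 rc2_2_0_l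
  (upd lo Co.b (rc sI cl7 cl4 cl4 b2_2 (I.pos (nat_lit 0) (nat_lit 0)))) = true := by decide +kernel
def rc2_2_0_r : Tr := (xa (xb (xa (xb T1.l10 (xs T1.l10 T1.l10)) (xb T1.l10 T1.l10)) (xa (xb (xs T1.l10 (xa T1.l10 T1.l10)) (xs T1.l10 (xa (xc T1.l10 T1.l10) T1.l10))) (xb (xs T1.l10 T1.l10) (xs T1.l10 (xa T1.l10 T1.l10))))) (xb (xa (xb T1.l10 T1.l10) (xb T1.l10 T1.l10)) (xa (xs (xb T1.l10 T1.l10) (xb T1.l10 (xa T1.l10 T1.l10))) (xs (xb T1.l10 (xa T1.l10 T1.l10)) (xb T1.l10 (xa T1.l10 (xk T1.l10 T1.l10)))))))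
theorem qc2_2_0_r : chkTr (tg true true false RT.r2) b2_2 t1 rc2_2_0_r
  (upd hi Co.b (rc sI cl7 cl4 cl4 b2_2 (I.pos (nat_lit 0) (nat_lit 0)))) = true := by decide +kernel
theorem qc2_2_0_ : chkTr (tg true true false RT.r2) b2_2 t1 (Tr.N Co.b rc2_2_0_l rc2_2_0_r)
  (rc sI cl7 cl4 cl4 b2_2 (I.pos (nat_lit 0) (nat_lit 0))) = true := tr_split qc2_2_0_l qc2_2_0_r
theorem c2_2_0 : chkTag sI cl7 cl4 cl4 t1 b2_2 (tg true true false RT.r2) (I.pos (nat_lit 0) (nat_lit 0))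
  (Tr.N Co.b rc2_2_0_l rc2_2_0_r) = true := tag_mk (by decide +kernel) qc2_2_0_
theorem c2_2_1 : chkTag sI cl7 cl4 cl4 t1 b2_2 (tg true false false RT.r3) (I.pos (nat_lit 0) (nat_lit 0))
  (xb (xa T1.l1 (xk T1.l1 T1.l1)) (xa (xk T1.l1 T1.l1) (xk (xb T1.l1 T1.l1) T1.l1))) = true := by decide +kernel
theorem c2_2_2 : chkTag sI cl7 cl4 cl4 t1 b2_2 (Tag.mk true true false RT.tl RT.r4) (I.pos (nat_lit 0) (nat_lit 111196574))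
  (xR (xR T1.l6 T1.l2) (xR T1.l2 (xb (xR T1.l2 T1.l2) (xR T1.l2 (xa T1.l2 T1.l2))))) = true := by decide +kernel
theorem c2_2_3 : chkTag sI cl7 cl4 cl4 t1 b2_2 (Tag.mk true false false RT.tl RT.r5) (I.pos (nat_lit 0) (nat_lit 77433728))
  (xR (xR T1.l3 T1.l3) (xR T1.l3 (xb (xR T1.l3 T1.l3) (xk (xR T1.l3 T1.l3) T1.l3)))) = true := by decide +kernel
theorem c2_2_4 : chkTag sI cl7 cl4 cl4 t1 b2_2 (tg false false false RT.r3) (I.pos (nat_lit 0) (nat_lit 0))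
  (xb (xa T1.l11 (xk (xb T1.l11 T1.l11) T1.l11)) (xk (xa (xb T1.l11 (xb T1.l11 (xs T1.l11 T1.l11))) (xb T1.l11 (xb (xs T1.l11 (xa T1.l11 T1.l11)) (xs (xa T1.l11 T1.l11) (xa (xk T1.l11 T1.l11) (xk (xb T1.l11 (xs T1.l11 T1.l11)) (xb T1.l11 (xs T1.l11 (xa T1.l11 T1.l11))))))))) (xa (xb T1.l11 (xb T1.l11 (xs T1.l11 (xa T1.l11 T1.l11)))) (xb (xb T1.l11 T1.l11) (xb (xs T1.l11 (xa (xk T1.l11 T1.l11) (xk (xb T1.l11 T1.l11) (xb T1.l11 T1.l11)))) (xs (xa (xk T1.l11 T1.l11) (xk (xs T1.l11 T1.l11) (xs (xb T1.l11 T1.l11) (xb T1.l11 T1.l11)))) (xa (xk (xb T1.l11 T1.l11) (xb T1.l11 (xs T1.l11 T1.l11))) (xk (xb (xs T1.l4 (xa T1.l11 T1.l11)) (xs (xa T1.l11 T1.l11) (xa (xk T1.l11 T1.l11) (xk (xb T1.l11 T1.l11) (xb T1.l11 T1.l11))))) (xb (xs T1.l11 T1.l11) (xs (xa T1.l11 T1.l11) (xa (xk T1.l11 T1.l11) (xk T1.l11 T1.l11)))))))))))) = true := by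 decide +kernel
theorem c2_2_5 : chkTag sI cl7 cl4 cl4 t1 b2_2 (tg false true false RT.r4) (I.pos (nat_lit 0) (nat_lit 0))
  (xb T1.l5 T1.l5) = true := by decide +kernel
theorem c2_2_6 : chkTag sI cl7 cl4 cl4 t1 b2_2 (Tag.mk false false false RT.tl RT.r5) (I.mix (nat_lit 29511666) (nat_lit 77433728))
  (xR T1.l6 (xR T1.l6 (xb (xR T1.l6 T1.l6) (xR T1.l6 T1.l6)))) = true := by decide +kernel
theorem c2_2_7 : chkTag sI cl7 cl4 cl4 t1 b2_2 (Tag.mk false true false RT.tl RT.r6) (I.mix (nat_lit 29511666) (nat_lit 46070178))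
  (xR (xR T1.l7 T1.l7) (xR T1.l7 (xb T1.l3 T1.l7))) = true := by decide +kernel
theorem bx2_2 : BoxOK sI cl7 cl4 cl4 t1 t1 b2_2 :=
  box_mk' [(tg true true false RT.r2), (tg true false false RT.r3), (Tag.mk true true false RT.tl RT.r4), (Tag.mk true false false RT.tl RT.r5), (tg false false false RT.r3), (tg false true false RT.r4), (Tag.mk false false false RT.tl RT.r5), (Tag.mk false true false RT.tl RT.r6)] rfl (allL_c (ex_mk c2_2_0) (allL_c (ex_mk c2_2_1) (allL_c (ex_mk c2_2_2) (allL_c (ex_mk c2_2_3) (allL_c (ex_mk c2_2_4) (allL_c (ex_mk c2_2_5) (allL_c (ex_mk c2_2_6) (allL_c (ex_mk c2_2_7) allL_n))))))))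
theorem bx2_3 : BoxOK sI cl7 cl4 cl4 t1 t1 b2_3 :=
  box_mk (TrL.c (I.pos (nat_lit 0) (nat_lit 0)) (xb T1.l1 (xa T1.l1 T1.l1))
  (TrL.c (I.pos (nat_lit 0) (nat_lit 0)) T1.l13
  (TrL.c (I.mix (nat_lit 29511666) (nat_lit 77433728)) (xR (xR (xR T1.l14 T1.l14) T1.l6) (xR T1.l3 (xR T1.l14 T1.l3)))
  (TrL.c (I.mix (nat_lit 29511666) (nat_lit 46070178)) (xR (xR T1.l15 T1.l15) (xR T1.l15 T1.l2))
  TrL.n)))) (by decide +kernel)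
theorem bx2_4 : BoxOK sI cl7 cl4 cl4 t1 t1 b2_4 :=
  box_mk (TrL.c (I.pos (nat_lit 0) (nat_lit 0)) (xb T1.l8 T1.l10)
  (TrL.c (I.pos (nat_lit 0) (nat_lit 0)) T1.l1
  (TrL.c (I.pos (nat_lit 0) (nat_lit 111196574)) (xR (xR T1.l2 T1.l2) T1.l2)
  (TrL.c (I.pos (nat_lit 0) (nat_lit 77433728)) (xR T1.l3 T1.l3)
  (TrL.c (I.pos (nat_lit 0) (nat_lit 0)) T1.l9
  (TrL.c (I.pos (nat_lit 0) (nat_lit 0)) T1.l5
  (TrL.c (I.mix (nat_lit 29511666) (nat_lit 77433728)) T1.l6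
  (TrL.c (I.mix (nat_lit 29511666) (nat_lit 46070178)) T1.l7
  TrL.n)))))))) (by decide +kernel)
theorem bx2_5 : BoxOK sI cl7 cl4 cl4 t1 t1 b2_5 :=
  box_mk (TrL.c (I.pos (nat_lit 0) (nat_lit 0)) (xb T1.l12 (xa T1.l12 T1.l12))
  (TrL.c (I.pos (nat_lit 0) (nat_lit 0)) T1.l13
  (TrL.c (I.mix (nat_lit 29511666) (nat_lit 77433728)) (xR (xR T1.l14 T1.l2) T1.l6)
  (TrL.c (I.mix (nat_lit 29511666) (nat_lit 46070178)) (xR T1.l14 T1.l6)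
  TrL.n)))) (by decide +kernel)
theorem bx2_6 : BoxOK sI cl7 cl4 cl4 t1 t1 b2_6 :=
  box_mk (TrL.c (I.pos (nat_lit 0) (nat_lit 0)) (xb (xa T1.l16 T1.l16) T1.l8)
  (TrL.c (I.pos (nat_lit 0) (nat_lit 0)) T1.l1
  (TrL.c (I.pos (nat_lit 0) (nat_lit 111196574)) (xR (xR T1.l2 T1.l2) (xR T1.l2 T1.l2))
  (TrL.c (I.pos (nat_lit 0) (nat_lit 77433728)) (xR T1.l2 T1.l6)
  (TrL.c (I.pos (nat_lit 0) (nat_lit 0)) T1.l9
  (TrL.c (I.pos (nat_lit 0) (nat_lit 0)) T1.l5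
  (TrL.c (I.mix (nat_lit 29511666) (nat_lit 77433728)) T1.l6
  (TrL.c (I.mix (nat_lit 29511666) (nat_lit 46070178)) T1.l6
  TrL.n)))))))) (by decide +kernel)
theorem bx2_7 : BoxOK sI cl7 cl4 cl4 t1 t1 b2_7 :=
  box_mk (TrL.c (I.pos (nat_lit 0) (nat_lit 0)) T1.l0
  (TrL.c (I.pos (nat_lit 0) (nat_lit 0)) T1.l1
  (TrL.c (I.pos (nat_lit 0) (nat_lit 111196574)) (xR (xR T1.l6 T1.l2) T1.l2)
  (TrL.c (I.pos (nat_lit 0) (nat_lit 77433728)) (xR (xR T1.l3 T1.l3) T1.l3)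
  (TrL.c (I.pos (nat_lit 0) (nat_lit 0)) T1.l4
  (TrL.c (I.pos (nat_lit 0) (nat_lit 0)) T1.l5
  (TrL.c (I.mix (nat_lit 29511666) (nat_lit 77433728)) (xR T1.l6 T1.l6)
  (TrL.c (I.mix (nat_lit 29511666) (nat_lit 46070178)) (xR T1.l7 T1.l7)
  TrL.n)))))))) (by decide +kernel)
theorem bx2_8 : BoxOK sI cl7 cl4 cl4 t1 t1 b2_8 :=
  box_mk (TrL.c (I.pos (nat_lit 0) (nat_lit 0)) T1.l16
  (TrL.c (I.pos (nat_lit 0) (nat_lit 0)) T1.l1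
  (TrL.c (I.pos (nat_lit 0) (nat_lit 111196574)) (xR T1.l2 T1.l2)
  (TrL.c (I.pos (nat_lit 0) (nat_lit 77433728)) (xR T1.l3 T1.l3)
  (TrL.c (I.pos (nat_lit 0) (nat_lit 0)) T1.l17
  (TrL.c (I.pos (nat_lit 0) (nat_lit 0)) T1.l5
  (TrL.c (I.mix (nat_lit 29511666) (nat_lit 77433728)) T1.l6
  (TrL.c (I.mix (nat_lit 29511666) (nat_lit 46070178)) T1.l6
  TrL.n)))))))) (by decide +kernel)
theorem bx2_9 : BoxOK sI cl7 cl4 cl4 t1 t1 b2_9 :=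
  box_mk (TrL.c (I.pos (nat_lit 0) (nat_lit 0)) (xa (xb T1.l0 (xa T1.l0 T1.l0)) (xb (xa T1.l4 T1.l4) (xa (xb T1.l0 T1.l4) (xb T1.l4 T1.l4))))
  (TrL.c (I.pos (nat_lit 0) (nat_lit 0)) (xa (xb T1.l1 T1.l1) (xk T1.l5 T1.l5))
  (TrL.c (I.pos (nat_lit 0) (nat_lit 111196574)) (xR (xR T1.l6 T1.l6) (xR T1.l2 T1.l6))
  (TrL.c (I.pos (nat_lit 0) (nat_lit 77433728)) (xR (xR T1.l3 T1.l3) (xR T1.l3 (xR T1.l3 T1.l3)))
  (TrL.c (I.pos (nat_lit 0) (nat_lit 0)) (xa (xb T1.l4 T1.l4) (xb (xk T1.l4 T1.l4) (xk T1.l4 T1.l4)))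
  (TrL.c (I.pos (nat_lit 0) (nat_lit 0)) (xk T1.l5 T1.l5)
  (TrL.c (I.mix (nat_lit 29511666) (nat_lit 77433728)) (xR (xR (xR T1.l6 T1.l6) T1.l6) (xR T1.l6 (xR T1.l6 T1.l6)))
  (TrL.c (I.mix (nat_lit 29511666) (nat_lit 46070178)) (xR (xR T1.l7 T1.l7) T1.l7)
  TrL.n)))))))) (by decide +kernel)
theorem bx2_10 : BoxOK sI cl7 cl4 cl4 t1 t1 b2_10 :=
  box_mk (TrL.c (I.pos (nat_lit 0) (nat_lit 0)) T1.l16
  (TrL.c (I.pos (nat_lit 0) (nat_lit 0)) T1.l12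
  (TrL.c (I.pos (nat_lit 0) (nat_lit 111196574)) (xR T1.l2 T1.l2)
  (TrL.c (I.pos (nat_lit 0) (nat_lit 77433728)) T1.l6
  (TrL.c (I.pos (nat_lit 0) (nat_lit 0)) T1.l17
  (TrL.c (I.pos (nat_lit 0) (nat_lit 0)) T1.l5
  (TrL.c (I.mix (nat_lit 29511666) (nat_lit 77433728)) (xR T1.l6 T1.l6)
  (TrL.c (I.mix (nat_lit 29511666) (nat_lit 46070178)) (xR T1.l6 T1.l2)
  TrL.n)))))))) (by decide +kernel)
theorem bx2_11 : BoxOK sI cl7 cl4 cl4 t1 t1 b2_11 :=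
  box_mk (TrL.c (I.pos (nat_lit 0) (nat_lit 0)) (xa T1.l0 T1.l4)
  (TrL.c (I.pos (nat_lit 0) (nat_lit 0)) T1.l5
  (TrL.c (I.pos (nat_lit 0) (nat_lit 111196574)) (xR (xR T1.l6 T1.l6) T1.l6)
  (TrL.c (I.pos (nat_lit 0) (nat_lit 77433728)) (xR (xR T1.l3 T1.l3) (xR T1.l3 T1.l3))
  (TrL.c (I.pos (nat_lit 0) (nat_lit 0)) (xk T1.l4 T1.l4)
  (TrL.c (I.pos (nat_lit 0) (nat_lit 0)) T1.l5
  (TrL.c (I.mix (nat_lit 29511666) (nat_lit 77433728)) (xR (xR (xR T1.l6 T1.l6) T1.l6) (xR T1.l6 T1.l6))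
  (TrL.c (I.mix (nat_lit 29511666) (nat_lit 46070178)) (xR (xR T1.l7 T1.l7) T1.l7)
  TrL.n)))))))) (by decide +kernel)
theorem bx2_12 : BoxOK sI cl7 cl4 cl4 t1 t1 b2_12 :=
  box_mk (TrL.c (I.pos (nat_lit 0) (nat_lit 0)) T1.l16
  (TrL.c (I.pos (nat_lit 0) (nat_lit 0)) T1.l12
  (TrL.c (I.pos (nat_lit 0) (nat_lit 111196574)) (xR T1.l2 T1.l2)
  (TrL.c (I.pos (nat_lit 0) (nat_lit 77433728)) T1.l6
  (TrL.c (I.pos (nat_lit 0) (nat_lit 0)) T1.l17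
  (TrL.c (I.pos (nat_lit 0) (nat_lit 0)) T1.l5
  (TrL.c (I.mix (nat_lit 29511666) (nat_lit 77433728)) (xR T1.l14 T1.l6)
  (TrL.c (I.mix (nat_lit 29511666) (nat_lit 46070178)) (xR T1.l6 T1.l2)
  TrL.n)))))))) (by decide +kernel)
theorem bx2_13 : BoxOK sI cl7 cl4 cl4 t1 t1 b2_13 :=
  box_mk (TrL.c (I.pos (nat_lit 0) (nat_lit 0)) (xa (xb (xa (xb T1.l10 T1.l10) (xb T1.l10 T1.l10)) (xa (xs T1.l10 T1.l10) (xs T1.l10 (xb T1.l10 T1.l10)))) (xb (xa (xb T1.l0 (xs T1.l0 T1.l0)) (xb T1.l0 T1.l0)) (xa (xs T1.l10 (xb T1.l0 (xk (xa T1.l0 T1.l0) T1.l0))) (xs (xb T1.l0 T1.l0) (xb T1.l0 (xk (xa T1.l0 T1.l0) T1.l0))))))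
  (TrL.c (I.pos (nat_lit 0) (nat_lit 0)) (xa (xk T1.l1 T1.l1) (xk T1.l1 T1.l1))
  (TrL.c (I.pos (nat_lit 0) (nat_lit 111196574)) (xR (xR T1.l2 T1.l2) (xR T1.l2 (xR T1.l2 T1.l2)))
  (TrL.c (I.pos (nat_lit 0) (nat_lit 77433728)) (xR T1.l3 (xR T1.l3 T1.l3))
  (TrL.c (I.pos (nat_lit 0) (nat_lit 0)) (xk (xa (xb T1.l11 (xb T1.l11 (xs T1.l11 T1.l11))) (xb (xb T1.l11 T1.l11) (xb (xs T1.l4 (xk T1.l11 T1.l11)) (xs (xk (xa T1.l11 (xs T1.l4 T1.l4)) (xa T1.l11 (xs T1.l4 (xb T1.l11 T1.l11)))) (xk (xa T1.l11 (xb T1.l11 T1.l11)) (xa T1.l11 (xb T1.l11 (xs T1.l11 T1.l11)))))))) (xa (xb T1.l11 (xb (xs T1.l11 T1.l11) (xs (xk T1.l11 T1.l11) (xk (xa T1.l11 T1.l11) (xa T1.l11 (xb T1.l11 T1.l11)))))) (xb T1.l11 (xb (xs (xk T1.l11 T1.l11) (xk T1.l11 T1.l11)) (xs (xk (xa T1.l4 (xs T1.l4 T1.l11)) (xa T1.l11 (xs T1.l11 T1.l11))) (xk (xa T1.l11 (xb T1.l11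 (xs T1.l11 (xk T1.l11 T1.l11)))) (xa (xb T1.l11 T1.l11) (xb T1.l11 (xs T1.l11 (xa (xk T1.l11 T1.l11) (xk T1.l11 T1.l11)))))))))))
  (TrL.c (I.pos (nat_lit 0) (nat_lit 0)) T1.l5
  (TrL.c (I.mix (nat_lit 29511666) (nat_lit 77433728)) (xR T1.l6 T1.l6)
  (TrL.c (I.mix (nat_lit 29511666) (nat_lit 46070178)) (xR T1.l7 T1.l7)
  TrL.n)))))))) (by decide +kernel)
theorem bx2_14 : BoxOK sI cl7 cl4 cl4 t1 t1 b2_14 :=
  box_mk (TrL.c (I.pos (nat_lit 0) (nat_lit 0)) (xb (xa (xb T1.l16 T1.l16) T1.l16) T1.l8)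
  (TrL.c (I.pos (nat_lit 0) (nat_lit 0)) T1.l1
  (TrL.c (I.pos (nat_lit 0) (nat_lit 111196574)) (xR T1.l3 T1.l2)
  (TrL.c (I.pos (nat_lit 0) (nat_lit 77433728)) (xR T1.l3 T1.l3)
  (TrL.c (I.pos (nat_lit 0) (nat_lit 0)) (xb T1.l17 T1.l17)
  (TrL.c (I.pos (nat_lit 0) (nat_lit 0)) T1.l5
  (TrL.c (I.mix (nat_lit 29511666) (nat_lit 77433728)) T1.l6
  (TrL.c (I.mix (nat_lit 29511666) (nat_lit 46070178)) T1.l6
  TrL.n)))))))) (by decide +kernel)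
theorem bx2_15 : BoxOK sI cl7 cl4 cl4 t1 t1 b2_15 :=
  box_mk (TrL.c (I.pos (nat_lit 0) (nat_lit 0)) (xa T1.l0 T1.l0)
  (TrL.c (I.pos (nat_lit 0) (nat_lit 0)) T1.l1
  (TrL.c (I.pos (nat_lit 0) (nat_lit 111196574)) (xR (xR T1.l6 T1.l2) T1.l2)
  (TrL.c (I.pos (nat_lit 0) (nat_lit 77433728)) (xR (xR T1.l3 T1.l3) T1.l3)
  (TrL.c (I.pos (nat_lit 0) (nat_lit 0)) T1.l4
  (TrL.c (I.pos (nat_lit 0) (nat_lit 0)) T1.l5
  (TrL.c (I.mix (nat_lit 29511666) (nat_lit 77433728)) (xR T1.l6 T1.l6)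
  (TrL.c (I.mix (nat_lit 29511666) (nat_lit 46070178)) (xR T1.l7 T1.l7)
  TrL.n)))))))) (by decide +kernel)
theorem bx2_16 : BoxOK sI cl7 cl4 cl4 t1 t1 b2_16 :=
  box_mk (TrL.c (I.pos (nat_lit 0) (nat_lit 0)) T1.l16
  (TrL.c (I.pos (nat_lit 0) (nat_lit 0)) T1.l12
  (TrL.c (I.pos (nat_lit 0) (nat_lit 111196574)) (xR T1.l2 T1.l2)
  (TrL.c (I.pos (nat_lit 0) (nat_lit 77433728)) (xR T1.l3 T1.l6)
  (TrL.c (I.pos (nat_lit 0) (nat_lit 0)) T1.l17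
  (TrL.c (I.pos (nat_lit 0) (nat_lit 0)) T1.l5
  (TrL.c (I.mix (nat_lit 29511666) (nat_lit 77433728)) T1.l6
  (TrL.c (I.mix (nat_lit 29511666) (nat_lit 46070178)) T1.l6
  TrL.n)))))))) (by decide +kernel)
theorem bx2_17 : BoxOK sI cl7 cl4 cl4 t1 t1 b2_17 :=
  box_mk (TrL.c (I.pos (nat_lit 0) (nat_lit 0)) (xa (xb (xa T1.l0 T1.l0) (xa (xb T1.l0 (xa T1.l0 T1.l0)) (xb T1.l0 (xa T1.l0 (xs T1.l0 T1.l0))))) (xb (xa T1.l4 (xb T1.l4 T1.l4)) (xa (xb T1.l4 T1.l4) (xb (xa T1.l4 T1.l4) (xs T1.l4 (xa T1.l4 T1.l4))))))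
  (TrL.c (I.pos (nat_lit 0) (nat_lit 0)) (xa (xb T1.l1 (xk T1.l1 T1.l1)) (xb (xk T1.l5 T1.l5) (xk T1.l5 T1.l5)))
  (TrL.c (I.pos (nat_lit 0) (nat_lit 111196574)) (xR (xR (xR T1.l6 T1.l2) (xR T1.l2 T1.l2)) (xR T1.l6 (xR T1.l6 T1.l6)))
  (TrL.c (I.pos (nat_lit 0) (nat_lit 77433728)) (xR (xR T1.l3 (xR T1.l3 T1.l3)) (xR T1.l3 (xR T1.l3 (xa T1.l3 T1.l3))))
  (TrL.c (I.pos (nat_lit 0) (nat_lit 0)) (xa (xb (xk (xa T1.l4 T1.l4) (xa T1.l4 T1.l4)) T1.l4) (xb (xk (xa (xb T1.l4 T1.l4) (xb (xk T1.l4 T1.l4) T1.l4)) (xa (xb T1.l4 T1.l4) (xb T1.l4 T1.l4))) (xk (xa T1.l4 (xb T1.l4 (xk T1.l4 T1.l4))) (xa T1.l4 (xb T1.l4 (xk T1.l4 T1.l4))))))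
  (TrL.c (I.pos (nat_lit 0) (nat_lit 0)) (xk (xb T1.l5 (xa T1.l5 T1.l5)) (xa T1.l5 (xb T1.l5 T1.l5)))
  (TrL.c (I.mix (nat_lit 29511666) (nat_lit 77433728)) (xR (xR (xR T1.l6 T1.l6) T1.l6) (xR T1.l6 (xR T1.l6 (xk (xb T1.l6 T1.l6) T1.l6))))
  (TrL.c (I.mix (nat_lit 29511666) (nat_lit 46070178)) (xR (xR T1.l7 T1.l7) (xR T1.l7 (xR T1.l7 T1.l7)))
  TrL.n)))))))) (by decide +kernel)
theorem bx2_18 : BoxOK sI cl7 cl4 cl4 t1 t1 b2_18 :=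
  box_mk (TrL.c (I.pos (nat_lit 0) (nat_lit 0)) (xb T1.l16 T1.l16)
  (TrL.c (I.pos (nat_lit 0) (nat_lit 0)) T1.l12
  (TrL.c (I.pos (nat_lit 0) (nat_lit 111196574)) (xR T1.l2 T1.l2)
  (TrL.c (I.pos (nat_lit 0) (nat_lit 77433728)) T1.l6
  (TrL.c (I.pos (nat_lit 0) (nat_lit 0)) T1.l17
  (TrL.c (I.pos (nat_lit 0) (nat_lit 0)) T1.l5
  (TrL.c (I.mix (nat_lit 29511666) (nat_lit 77433728)) (xR (xR T1.l6 T1.l6) T1.l6)
  (TrL.c (I.mix (nat_lit 29511666) (nat_lit 46070178)) (xR T1.l6 T1.l2)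
  TrL.n)))))))) (by decide +kernel)
theorem bx2_19 : BoxOK sI cl7 cl4 cl4 t1 t1 b2_19 :=
  box_mk (TrL.c (I.pos (nat_lit 0) (nat_lit 0)) T1.l4
  (TrL.c (I.pos (nat_lit 0) (nat_lit 0)) T1.l5
  (TrL.c (I.pos (nat_lit 0) (nat_lit 111196574)) (xR (xR T1.l6 T1.l6) T1.l2)
  (TrL.c (I.pos (nat_lit 0) (nat_lit 77433728)) (xR (xR T1.l3 T1.l3) (xR T1.l3 T1.l3))
  (TrL.c (I.pos (nat_lit 0) (nat_lit 0)) (xk T1.l4 T1.l4)
  (TrL.c (I.pos (nat_lit 0) (nat_lit 0)) T1.l5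
  (TrL.c (I.mix (nat_lit 29511666) (nat_lit 77433728)) (xR (xR (xR T1.l6 T1.l6) T1.l6) (xR T1.l6 T1.l6))
  (TrL.c (I.mix (nat_lit 29511666) (nat_lit 46070178)) (xR T1.l3 T1.l3)
  TrL.n)))))))) (by decide +kernel)
theorem bx2_20 : BoxOK sI cl7 cl4 cl4 t1 t1 b2_20 :=
  box_mk (TrL.c (I.pos (nat_lit 0) (nat_lit 0)) T1.l16
  (TrL.c (I.pos (nat_lit 0) (nat_lit 0)) T1.l12
  (TrL.c (I.pos (nat_lit 0) (nat_lit 111196574)) (xR T1.l2 T1.l2)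
  (TrL.c (I.pos (nat_lit 0) (nat_lit 77433728)) T1.l6
  (TrL.c (I.pos (nat_lit 0) (nat_lit 0)) T1.l17
  (TrL.c (I.pos (nat_lit 0) (nat_lit 0)) T1.l5
  (TrL.c (I.mix (nat_lit 29511666) (nat_lit 77433728)) (xR T1.l14 T1.l6)
  (TrL.c (I.mix (nat_lit 29511666) (nat_lit 46070178)) T1.l14
  TrL.n)))))))) (by decide +kernel)
theorem bx2_21 : BoxOK sI cl7 cl4 cl4 t1 t1 b2_21 :=
  box_mk (TrL.c (I.pos (nat_lit 0) (nat_lit 0)) T1.l0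
  (TrL.c (I.pos (nat_lit 0) (nat_lit 0)) T1.l1
  (TrL.c (I.pos (nat_lit 0) (nat_lit 111196574)) (xR (xR T1.l6 T1.l2) T1.l2)
  (TrL.c (I.pos (nat_lit 0) (nat_lit 77433728)) (xR (xR T1.l3 T1.l3) T1.l3)
  (TrL.c (I.pos (nat_lit 0) (nat_lit 0)) T1.l4
  (TrL.c (I.pos (nat_lit 0) (nat_lit 0)) T1.l5
  (TrL.c (I.mix (nat_lit 29511666) (nat_lit 77433728)) (xR T1.l6 T1.l6)
  (TrL.c (I.mix (nat_lit 29511666) (nat_lit 46070178)) (xR T1.l7 T1.l7)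
  TrL.n)))))))) (by decide +kernel)
theorem bx2_22 : BoxOK sI cl7 cl4 cl4 t1 t1 b2_22 :=
  box_mk (TrL.c (I.pos (nat_lit 0) (nat_lit 0)) (xa (xb (xa T1.l0 T1.l0) (xa T1.l0 T1.l0)) (xb (xa T1.l4 (xb T1.l4 T1.l4)) (xa (xb T1.l4 (xa T1.l0 T1.l4)) (xb T1.l4 (xa T1.l4 T1.l4)))))
  (TrL.c (I.pos (nat_lit 0) (nat_lit 0)) (xa (xb T1.l1 (xk T1.l1 T1.l1)) (xb (xk T1.l5 T1.l1) (xk T1.l5 T1.l1)))
  (TrL.c (I.pos (nat_lit 0) (nat_lit 111196574)) (xR (xR (xR T1.l6 T1.l2) (xR T1.l2 T1.l2)) (xR T1.l2 T1.l6))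
  (TrL.c (I.pos (nat_lit 0) (nat_lit 77433728)) (xR (xR T1.l3 (xR T1.l3 T1.l3)) (xR T1.l3 (xR T1.l3 (xb T1.l3 T1.l3))))
  (TrL.c (I.pos (nat_lit 0) (nat_lit 0)) (xa (xb T1.l4 T1.l4) (xb (xk (xa T1.l4 T1.l4) (xa T1.l4 T1.l4)) (xk (xa T1.l4 (xb T1.l4 T1.l4)) (xa T1.l4 (xb T1.l4 T1.l4)))))
  (TrL.c (I.pos (nat_lit 0) (nat_lit 0)) (xk (xb T1.l5 T1.l5) (xa T1.l5 T1.l5))
  (TrL.c (I.mix (nat_lit 29511666) (nat_lit 77433728)) (xR (xR (xR T1.l6 T1.l6) T1.l6) (xR T1.l6 (xR T1.l6 (xb (xa T1.l6 T1.l6) T1.l6))))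
  (TrL.c (I.mix (nat_lit 29511666) (nat_lit 46070178)) (xR (xR T1.l7 T1.l7) (xR T1.l7 (xR T1.l7 T1.l7)))
  TrL.n)))))))) (by decide +kernel)
theorem bx2_23 : BoxOK sI cl7 cl4 cl4 t1 t1 b2_23 :=
  box_mk (TrL.c (I.pos (nat_lit 0) (nat_lit 0)) T1.l16
  (TrL.c (I.pos (nat_lit 0) (nat_lit 0)) T1.l12
  (TrL.c (I.pos (nat_lit 0) (nat_lit 111196574)) (xR T1.l2 T1.l2)
  (TrL.c (I.pos (nat_lit 0) (nat_lit 77433728)) T1.l6
  (TrL.c (I.pos (nat_lit 0) (nat_lit 0)) T1.l17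
  (TrL.c (I.pos (nat_lit 0) (nat_lit 0)) T1.l5
  (TrL.c (I.mix (nat_lit 29511666) (nat_lit 77433728)) (xR T1.l14 T1.l6)
  (TrL.c (I.mix (nat_lit 29511666) (nat_lit 46070178)) T1.l14
  TrL.n)))))))) (by decide +kernel)
theorem bx2_24 : BoxOK sI cl7 cl4 cl4 t1 t1 b2_24 :=
  box_mk (TrL.c (I.pos (nat_lit 0) (nat_lit 0)) T1.l4
  (TrL.c (I.pos (nat_lit 0) (nat_lit 0)) T1.l5
  (TrL.c (I.pos (nat_lit 0) (nat_lit 111196574)) (xR (xR T1.l6 T1.l6) T1.l2)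
  (TrL.c (I.pos (nat_lit 0) (nat_lit 77433728)) (xR (xR T1.l3 T1.l3) (xR T1.l3 T1.l3))
  (TrL.c (I.pos (nat_lit 0) (nat_lit 0)) (xk T1.l4 T1.l4)
  (TrL.c (I.pos (nat_lit 0) (nat_lit 0)) T1.l5
  (TrL.c (I.mix (nat_lit 29511666) (nat_lit 77433728)) (xR (xR (xR T1.l6 T1.l6) T1.l6) (xR T1.l6 T1.l6))
  (TrL.c (I.mix (nat_lit 29511666) (nat_lit 46070178)) (xR T1.l7 T1.l3)
  TrL.n)))))))) (by decide +kernel)
theorem bx2_25 : BoxOK sI cl7 cl4 cl4 t1 t1 b2_25 :=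
  box_mk (TrL.c (I.pos (nat_lit 0) (nat_lit 0)) T1.l16
  (TrL.c (I.pos (nat_lit 0) (nat_lit 0)) T1.l12
  (TrL.c (I.pos (nat_lit 0) (nat_lit 111196574)) (xR T1.l2 T1.l2)
  (TrL.c (I.pos (nat_lit 0) (nat_lit 77433728)) T1.l2
  (TrL.c (I.pos (nat_lit 0) (nat_lit 0)) T1.l17
  (TrL.c (I.pos (nat_lit 0) (nat_lit 0)) T1.l5
  (TrL.c (I.mix (nat_lit 29511666) (nat_lit 77433728)) (xR T1.l14 T1.l6)
  (TrL.c (I.mix (nat_lit 29511666) (nat_lit 46070178)) T1.l14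
  TrL.n)))))))) (by decide +kernel)
theorem bx2_26 : BoxOK sI cl7 cl4 cl4 t1 t1 b2_26 :=
  box_mk (TrL.c (I.pos (nat_lit 0) (nat_lit 0)) T1.l16
  (TrL.c (I.pos (nat_lit 0) (nat_lit 0)) T1.l1
  (TrL.c (I.pos (nat_lit 0) (nat_lit 111196574)) (xR T1.l2 T1.l2)
  (TrL.c (I.pos (nat_lit 0) (nat_lit 77433728)) (xR T1.l3 T1.l3)
  (TrL.c (I.pos (nat_lit 0) (nat_lit 0)) T1.l17
  (TrL.c (I.pos (nat_lit 0) (nat_lit 0)) T1.l5
  (TrL.c (I.mix (nat_lit 29511666) (nat_lit 77433728)) T1.l6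
  (TrL.c (I.mix (nat_lit 29511666) (nat_lit 46070178)) T1.l6
  TrL.n)))))))) (by decide +kernel)
theorem bx2_27 : BoxOK sI cl7 cl4 cl4 t1 t1 b2_27 :=
  box_mk (TrL.c (I.pos (nat_lit 0) (nat_lit 0)) T1.l16
  (TrL.c (I.pos (nat_lit 0) (nat_lit 0)) T1.l1
  (TrL.c (I.pos (nat_lit 0) (nat_lit 111196574)) (xR T1.l2 T1.l2)
  (TrL.c (I.pos (nat_lit 0) (nat_lit 77433728)) T1.l6
  (TrL.c (I.pos (nat_lit 0) (nat_lit 0)) T1.l17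
  (TrL.c (I.pos (nat_lit 0) (nat_lit 0)) T1.l5
  (TrL.c (I.mix (nat_lit 29511666) (nat_lit 77433728)) T1.l6
  (TrL.c (I.mix (nat_lit 29511666) (nat_lit 46070178)) T1.l6
  TrL.n)))))))) (by decide +kernel)
theorem sv2 : StarV sI cl7 cl4 cl4 t1 t1 t2 :=
  (bt_n (bt_n (bt_n (bt_n (bt_b bx2_0) (bt_n (bt_b bx2_1) (bt_b bx2_2))) (bt_n (bt_n (bt_b bx2_3) (bt_b bx2_4)) (bt_n (bt_b bx2_5) (bt_b bx2_6)))) (bt_n (bt_n (bt_b bx2_7) (bt_n (bt_b bx2_8) (bt_b bx2_9))) (bt_n (bt_n (bt_b bx2_10) (bt_b bx2_11)) (bt_n (bt_b bx2_12) (bt_b bx2_13))))) (bt_n (bt_n (bt_n (bt_b bx2_14) (bt_n (bt_b bx2_15) (bt_b bx2_16))) (bt_n (bt_n (bt_b bx2_17) (bt_b bx2_18)) (bt_n (bt_b bx2_19) (bt_b bx2_20)))) (bt_n (bt_n (bt_b bx2_21) (bt_n (bt_b bx2_22) (bt_b bx2_23))) (bt_n (bt_n (bt_b bx2_24) (bt_b bx2_25)) (bt_n (bt_b bx2_26) (bt_b bx2_27))))))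
def S2 : StarD := StarD.mk cl7 cl4 cl4 1 1 t2
def G : List StarD := [S0, S1, S2]
theorem so0 : StarOK sI G S0 :=
  star_mk (by decide) (by decide) rfl rfl rfl rfl rfl rfl (rfl : _ = t0) (rfl : _ = t2)
  (st_mk (Pth.l (Pth.l (Pth.l Pth.z))) (nat_lit 392686237) (nat_lit 398633179) (by decide +kernel))
  (st_mk (Pth.l (Pth.l (Pth.l Pth.z))) (nat_lit 433645466) (nat_lit 441050943) (by decide +kernel))
  (st_mk (Pth.l (Pth.l (Pth.l Pth.z))) (nat_lit 481808560) (nat_lit 491185520) (by decide +kernel)) sv0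
theorem so1 : StarOK sI G S1 :=
  star_mk (by decide) (by decide) rfl rfl rfl rfl rfl rfl (rfl : _ = t2) (rfl : _ = t0)
  (st_mk (Pth.r (Pth.l (Pth.l (Pth.l Pth.z)))) (nat_lit 147556542) (nat_lit 172302570) (by decide +kernel))
  (st_mk (Pth.l (Pth.l (Pth.l (Pth.l Pth.z)))) (nat_lit 186936797) (nat_lit 212949148) (by decide +kernel))
  (st_mk (Pth.l (Pth.l (Pth.l (Pth.l Pth.z)))) (nat_lit 233908971) (nat_lit 261741896) (by decide +kernel)) sv1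
theorem so2 : StarOK sI G S2 :=
  star_mk (by decide) (by decide) rfl rfl rfl rfl rfl rfl (rfl : _ = t1) (rfl : _ = t1)
  (st_mk (Pth.l (Pth.l (Pth.l (Pth.l Pth.z)))) (nat_lit 372259328) (nat_lit 378181808) (by decide +kernel))
  (st_mk (Pth.l (Pth.l (Pth.l (Pth.l Pth.z)))) (nat_lit 408799254) (nat_lit 415641846) (by decide +kernel))
  (st_mk (Pth.l (Pth.l (Pth.l (Pth.l Pth.z)))) (nat_lit 451161816) (nat_lit 459192102) (by decide +kernel)) sv2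
theorem ok : GroupOK (nat_lit 150274048) (nat_lit 209387520) G := grp_mk (allS_c so0 (allS_c so1 (allS_c so2 allS_n)))
theorem cov : GCov G cl4 cl4 cl7 := cov_mk
  ⟨0, by decide, rfl, rfl, rfl⟩ ⟨1, by decide, rfl, rfl, rfl⟩ ⟨0, by decide, rfl, rfl, rfl⟩ ⟨1, by decide, rfl, rfl, rfl⟩ ⟨2, by decide, rfl, rfl, rfl⟩ ⟨2, by decide, rfl, rfl, rfl⟩
end Q114_2

namespace Q114_3
def sI : I := I.pos (nat_lit 209321984) (nat_lit 238944256)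
def b0_0 : Bx := Bx.mk (St.mk (I.pos (nat_lit 145014784) (nat_lit 215302144)) (I.mix (nat_lit 278528) (nat_lit 100761600)) (I.mix (nat_lit 39698432) (nat_lit 57573376)) (I.pos (nat_lit 396509184) (nat_lit 500580352)) (I.mix (nat_lit 197165056) (nat_lit 131596288)) (I.mix (nat_lit 126222336) (nat_lit 124682240)) (I.mix (nat_lit 201670656) (nat_lit 189890560)))
  false (nat_lit 77287173)
def b0_1 : Bx := Bx.mk (St.mk (I.mix (nat_lit 43827200) (nat_lit 10043392)) (I.mix (nat_lit 16924672) (nat_lit 81068032)) (I.neg (nat_lit 71057408) (nat_lit 101548032)) (I.pos (nat_lit 260014080) (nat_lit 289619968)) (I.mix (nat_lit 79708160) (nat_lit 167673856)) (I.mix (nat_lit 123371520) (nat_lit 95338496)) (I.mix (nat_lit 68501504) (nat_lit 62423040)))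
  true (nat_lit 0)
def b0_2 : Bx := Bx.mk (St.mk (I.mix (nat_lit 6717440) (nat_lit 43827200)) (I.neg (nat_lit 27459584) (nat_lit 81068032)) (I.neg (nat_lit 71057408) (nat_lit 101548032)) (I.pos (nat_lit 262733824) (nat_lit 289619968)) (I.mix (nat_lit 167673856) (nat_lit 77086720)) (I.mix (nat_lit 95338496) (nat_lit 123371520)) (I.mix (nat_lit 68501504) (nat_lit 62423040)))
  false (nat_lit 71267129)
def b0_3 : Bx := Bx.mk (St.mk (I.mix (nat_lit 28721152) (nat_lit 4374528)) (I.mix (nat_lit 17530880) (nat_lit 13139968)) (I.neg (nat_lit 72007680) (nat_lit 85786624)) (I.pos (nat_lit 260898816) (nat_lit 273006592)) (I.mix (nat_lit 76775424) (nat_lit 52920320)) (I.mix (nat_lit 60473344) (nat_lit 55099392)) (I.mix (nat_lit 14860288) (nat_lit 27148288)))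
  true (nat_lit 0)
def b0_4 : Bx := Bx.mk (St.mk (I.pos (nat_lit 196083712) (nat_lit 248774656)) (I.mix (nat_lit 22593536) (nat_lit 20381696)) (I.neg (nat_lit 102875136) (nat_lit 179191808)) (I.pos (nat_lit 427982848) (nat_lit 523665408)) (I.mix (nat_lit 158105600) (nat_lit 80740352)) (I.mix (nat_lit 107610112) (nat_lit 102187008)) (I.mix (nat_lit 165429248) (nat_lit 206094336)))
  false (nat_lit 27847739)
def b0_5 : Bx := Bx.mk (St.mk (I.mix (nat_lit 6258688) (nat_lit 25264128)) (I.mix (nat_lit 15384576) (nat_lit 16924672)) (I.neg (nat_lit 72892416) (nat_lit 82558976)) (I.pos (nat_lit 262029312) (nat_lit 271499264)) (I.mix (nat_lit 54722560) (nat_lit 76038144)) (I.mix (nat_lit 54427648) (nat_lit 60915712)) (I.mix (nat_lit 7913472) (nat_lit 23068672)))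
  false (nat_lit 0)
def b0_6 : Bx := Bx.mk (St.mk (I.pos (nat_lit 3768320) (nat_lit 121946112)) (I.neg (nat_lit 4308992) (nat_lit 82444288)) (I.neg (nat_lit 33783808) (nat_lit 110313472)) (I.pos (nat_lit 262340608) (nat_lit 340033536)) (I.mix (nat_lit 159612928) (nat_lit 78774272)) (I.mix (nat_lit 86376448) (nat_lit 108789760)) (I.mix (nat_lit 104955904) (nat_lit 97026048)))
  false (nat_lit 73620611)
def b0_7 : Bx := Bx.mk (St.mk (I.pos (nat_lit 87064576) (nat_lit 186875904)) (I.mix (nat_lit 32505856) (nat_lit 82870272)) (I.mix (nat_lit 67600384) (nat_lit 49135616)) (I.pos (nat_lit 304267264) (nat_lit 445530112)) (I.mix (nat_lit 192299008) (nat_lit 135905280)) (I.mix (nat_lit 165183488) (nat_lit 136609792)) (I.mix (nat_lit 177946624) (nat_lit 163430400)))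
  false (nat_lit 69706662)
def b0_8 : Bx := Bx.mk (St.mk (I.neg (nat_lit 3751936) (nat_lit 121962496)) (I.pos (nat_lit 1851392) (nat_lit 82444288)) (I.neg (nat_lit 31752192) (nat_lit 110313472)) (I.pos (nat_lit 262340608) (nat_lit 340033536)) (I.mix (nat_lit 78790656) (nat_lit 159629312)) (I.mix (nat_lit 108806144) (nat_lit 86392832)) (I.mix (nat_lit 104972288) (nat_lit 97042432)))
  true (nat_lit 20678386)
def b0_9 : Bx := Bx.mk (St.mk (I.pos (nat_lit 163659776) (nat_lit 241188864)) (I.mix (nat_lit 20267008) (nat_lit 90488832)) (I.mix (nat_lit 170655744) (nat_lit 28917760)) (I.pos (nat_lit 409206784) (nat_lit 526712832)) (I.mix (nat_lit 167002112) (nat_lit 157417472)) (I.mix (nat_lit 151879680) (nat_lit 141918208)) (I.mix (nat_lit 276611072) (nat_lit 195362816)))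
  false (nat_lit 81660929)
def b0_10 : Bx := Bx.mk (St.mk (I.mix (nat_lit 9945088) (nat_lit 36896768)) (I.mix (nat_lit 63488000) (nat_lit 14286848)) (I.neg (nat_lit 71892992) (nat_lit 96796672)) (I.pos (nat_lit 259964928) (nat_lit 279691264)) (I.mix (nat_lit 132694016) (nat_lit 79708160)) (I.mix (nat_lit 75546624) (nat_lit 106905600)) (I.mix (nat_lit 41828352) (nat_lit 40157184)))
  false (nat_lit 0)
def t0 : BTr := (BTr.n (BTr.n (BTr.n (BTr.b b0_0) (BTr.b b0_1)) (BTr.n (BTr.b b0_2) (BTr.n (BTr.b b0_3) (BTr.b b0_4)))) (BTr.n (BTr.n (BTr.b b0_5) (BTr.n (BTr.b b0_6) (BTr.b b0_7))) (BTr.n (BTr.b b0_8) (BTr.n (BTr.b b0_9) (BTr.b b0_10)))))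
namespace T0
def l0 : Tr := Tr.L (Pth.l (Pth.l (Pth.l Pth.z)))
def l1 : Tr := Tr.L (Pth.l (Pth.l (Pth.r Pth.z)))
def l2 : Tr := Tr.L (Pth.l (Pth.r (Pth.l Pth.z)))
def l3 : Tr := Tr.L (Pth.l (Pth.r (Pth.r (Pth.l Pth.z))))
def l4 : Tr := Tr.L (Pth.l (Pth.r (Pth.r (Pth.r Pth.z))))
def l5 : Tr := Tr.L (Pth.r (Pth.l (Pth.l Pth.z)))
def l6 : Tr := Tr.L (Pth.r (Pth.l (Pth.r (Pth.l Pth.z))))
def l7 : Tr := Tr.L (Pth.r (Pth.l (Pth.r (Pth.r Pth.z))))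
def l8 : Tr := Tr.L (Pth.r (Pth.r (Pth.l Pth.z)))
def l9 : Tr := Tr.L (Pth.r (Pth.r (Pth.r (Pth.l Pth.z))))
def l10 : Tr := Tr.L (Pth.r (Pth.r (Pth.r (Pth.r Pth.z))))
end T0
def b1_0 : Bx := Bx.mk (St.mk (I.pos (nat_lit 160514048) (nat_lit 221790208)) (I.mix (nat_lit 278528) (nat_lit 52658176)) (I.mix (nat_lit 278528) (nat_lit 87130112)) (I.pos (nat_lit 150618112) (nat_lit 268271616)) (I.mix (nat_lit 125075456) (nat_lit 84525056)) (I.mix (nat_lit 85147648) (nat_lit 80609280)) (I.mix (nat_lit 130793472) (nat_lit 114081792)))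
  false (nat_lit 12373791)
def b1_1 : Bx := Bx.mk (St.mk (I.pos (nat_lit 95322112) (nat_lit 162119680)) (I.neg (nat_lit 1720320) (nat_lit 53395456)) (I.mix (nat_lit 50200576) (nat_lit 1359872)) (I.pos (nat_lit 95420416) (nat_lit 170115072)) (I.mix (nat_lit 88506368) (nat_lit 66256896)) (I.mix (nat_lit 61341696) (nat_lit 73039872)) (I.mix (nat_lit 57753600) (nat_lit 75497472)))
  false (nat_lit 48659277)
def b1_2 : Bx := Bx.mk (St.mk (I.mix (nat_lit 16646144) (nat_lit 110968832)) (I.mix (nat_lit 7340032) (nat_lit 29196288)) (I.mix (nat_lit 11616256) (nat_lit 17858560)) (I.pos (nat_lit 44482560) (nat_lit 113065984)) (I.mix (nat_lit 53035008) (nat_lit 55017472)) (I.mix (nat_lit 48644096) (nat_lit 39190528)) (I.mix (nat_lit 36929536) (nat_lit 26624000)))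
  false (nat_lit 0)
def b1_3 : Bx := Bx.mk (St.mk (I.mix (nat_lit 13975552) (nat_lit 74416128)) (I.mix (nat_lit 30359552) (nat_lit 4177920)) (I.mix (nat_lit 16613376) (nat_lit 2359296)) (I.pos (nat_lit 44892160) (nat_lit 86605824)) (I.mix (nat_lit 42188800) (nat_lit 44597248)) (I.mix (nat_lit 31637504) (nat_lit 40353792)) (I.mix (nat_lit 17055744) (nat_lit 22462464)))
  false (nat_lit 0)
def b1_4 : Bx := Bx.mk (St.mk (I.pos (nat_lit 147750912) (nat_lit 197558272)) (I.mix (nat_lit 15106048) (nat_lit 49020928)) (I.pos (nat_lit 3571712) (nat_lit 82116608)) (I.pos (nat_lit 142327808) (nat_lit 226852864)) (I.mix (nat_lit 145391616) (nat_lit 50184192)) (I.mix (nat_lit 129777664) (nat_lit 74121216)) (I.mix (nat_lit 139984896) (nat_lit 73596928)))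
  false (nat_lit 0)
def b1_5 : Bx := Bx.mk (St.mk (I.pos (nat_lit 91422720) (nat_lit 131497984)) (I.mix (nat_lit 52150272) (nat_lit 10813440)) (I.mix (nat_lit 49397760) (nat_lit 1572864)) (I.pos (nat_lit 82067456) (nat_lit 130334720)) (I.mix (nat_lit 101122048) (nat_lit 61440000)) (I.mix (nat_lit 54050816) (nat_lit 92815360)) (I.mix (nat_lit 41156608) (nat_lit 66977792)))
  false (nat_lit 23892176)
def b1_6 : Bx := Bx.mk (St.mk (I.mix (nat_lit 31064064) (nat_lit 102219776)) (I.mix (nat_lit 14155776) (nat_lit 32505856)) (I.mix (nat_lit 8159232) (nat_lit 22462464)) (I.pos (nat_lit 44204032) (nat_lit 106610688)) (I.mix (nat_lit 66322432) (nat_lit 47726592)) (I.mix (nat_lit 59179008) (nat_lit 36438016)) (I.mix (nat_lit 31752192) (nat_lit 22020096)))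
  false (nat_lit 0)
def b1_7 : Bx := Bx.mk (St.mk (I.mix (nat_lit 28688384) (nat_lit 67747840)) (I.mix (nat_lit 32489472) (nat_lit 4161536)) (I.mix (nat_lit 16433152) (nat_lit 2752512)) (I.pos (nat_lit 44613632) (nat_lit 83509248)) (I.mix (nat_lit 50937856) (nat_lit 27557888)) (I.mix (nat_lit 23953408) (nat_lit 42450944)) (I.mix (nat_lit 11517952) (nat_lit 15794176)))
  false (nat_lit 0)
def b1_8 : Bx := Bx.mk (St.mk (I.pos (nat_lit 180355072) (nat_lit 235536384)) (I.mix (nat_lit 14286848) (nat_lit 52035584)) (I.mix (nat_lit 38502400) (nat_lit 84738048)) (I.pos (nat_lit 203030528) (nat_lit 291012608)) (I.mix (nat_lit 140591104) (nat_lit 100728832)) (I.mix (nat_lit 113868800) (nat_lit 99680256)) (I.mix (nat_lit 192495616) (nat_lit 156188672)))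
  false (nat_lit 38112504)
def b1_9 : Bx := Bx.mk (St.mk (I.pos (nat_lit 148373504) (nat_lit 189726720)) (I.mix (nat_lit 43876352) (nat_lit 18169856)) (I.mix (nat_lit 38780928) (nat_lit 40484864)) (I.pos (nat_lit 141885440) (nat_lit 206503936)) (I.mix (nat_lit 131153920) (nat_lit 87703552)) (I.mix (nat_lit 134807552) (nat_lit 85753856)) (I.mix (nat_lit 139329536) (nat_lit 88752128)))
  false (nat_lit 13074357)
def b1_10 : Bx := Bx.mk (St.mk (I.pos (nat_lit 122699776) (nat_lit 161792000)) (I.mix (nat_lit 30867456) (nat_lit 786432)) (I.mix (nat_lit 25214976) (nat_lit 8781824)) (I.pos (nat_lit 119422976) (nat_lit 169476096)) (I.mix (nat_lit 75808768) (nat_lit 28098560)) (I.mix (nat_lit 38387712) (nat_lit 48201728)) (I.mix (nat_lit 44662784) (nat_lit 49938432)))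
  false (nat_lit 0)
def b1_11 : Bx := Bx.mk (St.mk (I.pos (nat_lit 76333056) (nat_lit 110804992)) (I.mix (nat_lit 12009472) (nat_lit 13762560)) (I.mix (nat_lit 15204352) (nat_lit 5079040)) (I.pos (nat_lit 73367552) (nat_lit 112689152)) (I.mix (nat_lit 59211776) (nat_lit 31424512)) (I.mix (nat_lit 37601280) (nat_lit 36061184)) (I.mix (nat_lit 26148864) (nat_lit 25821184)))
  false (nat_lit 0)
def b1_12 : Bx := Bx.mk (St.mk (I.mix (nat_lit 42319872) (nat_lit 75071488)) (I.mix (nat_lit 16121856) (nat_lit 8896512)) (I.mix (nat_lit 8634368) (nat_lit 3457024)) (I.pos (nat_lit 45350912) (nat_lit 86589440)) (I.mix (nat_lit 47316992) (nat_lit 24887296)) (I.mix (nat_lit 26771456) (nat_lit 31113216)) (I.mix (nat_lit 14368768) (nat_lit 16302080)))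
  false (nat_lit 0)
def b1_13 : Bx := Bx.mk (St.mk (I.mix (nat_lit 42467328) (nat_lit 25886720)) (I.mix (nat_lit 4882432) (nat_lit 9076736)) (I.neg (nat_lit 606208) (nat_lit 6193152)) (I.pos (nat_lit 44613632) (nat_lit 71565312)) (I.mix (nat_lit 31178752) (nat_lit 20938752)) (I.mix (nat_lit 21299200) (nat_lit 21151744)) (I.mix (nat_lit 6291456) (nat_lit 5701632)))
  false (nat_lit 0)
def b1_14 : Bx := Bx.mk (St.mk (I.pos (nat_lit 198475776) (nat_lit 247578624)) (I.mix (nat_lit 15630336) (nat_lit 18038784)) (I.mix (nat_lit 47218688) (nat_lit 22544384)) (I.pos (nat_lit 229785600) (nat_lit 323928064)) (I.mix (nat_lit 115261440) (nat_lit 16941056)) (I.mix (nat_lit 53755904) (nat_lit 56262656)) (I.mix (nat_lit 97812480) (nat_lit 106020864)))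
  false (nat_lit 0)
def b1_15 : Bx := Bx.mk (St.mk (I.pos (nat_lit 138903552) (nat_lit 177291264)) (I.neg (nat_lit 4276224) (nat_lit 42172416)) (I.mix (nat_lit 40894464) (nat_lit 2981888)) (I.pos (nat_lit 131678208) (nat_lit 193298432)) (I.mix (nat_lit 69550080) (nat_lit 49332224)) (I.mix (nat_lit 61325312) (nat_lit 47054848)) (I.mix (nat_lit 69615616) (nat_lit 45383680)))
  false (nat_lit 16186074)
def t1 : BTr := (BTr.n (BTr.n (BTr.n (BTr.n (BTr.b b1_0) (BTr.b b1_1)) (BTr.n (BTr.b b1_2) (BTr.b b1_3))) (BTr.n (BTr.n (BTr.b b1_4) (BTr.b b1_5)) (BTr.n (BTr.b b1_6) (BTr.b b1_7)))) (BTr.n (BTr.n (BTr.n (BTr.b b1_8) (BTr.b b1_9)) (BTr.n (BTr.b b1_10) (BTr.b b1_11))) (BTr.n (BTr.n (BTr.b b1_12) (BTr.b b1_13)) (BTr.n (BTr.b b1_14) (BTr.b b1_15)))))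
namespace T1
def l0 : Tr := Tr.L (Pth.l (Pth.l (Pth.l (Pth.l Pth.z))))
def l1 : Tr := Tr.L (Pth.l (Pth.l (Pth.l (Pth.r Pth.z))))
def l2 : Tr := Tr.L (Pth.l (Pth.l (Pth.r (Pth.l Pth.z))))
def l3 : Tr := Tr.L (Pth.l (Pth.l (Pth.r (Pth.r Pth.z))))
def l4 : Tr := Tr.L (Pth.l (Pth.r (Pth.l (Pth.l Pth.z))))
def l5 : Tr := Tr.L (Pth.l (Pth.r (Pth.l (Pth.r Pth.z))))
def l6 : Tr := Tr.L (Pth.l (Pth.r (Pth.r (Pth.l Pth.z))))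
def l7 : Tr := Tr.L (Pth.l (Pth.r (Pth.r (Pth.r Pth.z))))
def l8 : Tr := Tr.L (Pth.r (Pth.l (Pth.l (Pth.l Pth.z))))
def l9 : Tr := Tr.L (Pth.r (Pth.l (Pth.l (Pth.r Pth.z))))
def l10 : Tr := Tr.L (Pth.r (Pth.l (Pth.r (Pth.l Pth.z))))
def l11 : Tr := Tr.L (Pth.r (Pth.l (Pth.r (Pth.r Pth.z))))
def l12 : Tr := Tr.L (Pth.r (Pth.r (Pth.l (Pth.l Pth.z))))
def l13 : Tr := Tr.L (Pth.r (Pth.r (Pth.l (Pth.r Pth.z))))
def l14 : Tr := Tr.L (Pth.r (Pth.r (Pth.r (Pth.l Pth.z))))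
def l15 : Tr := Tr.L (Pth.r (Pth.r (Pth.r (Pth.r Pth.z))))
end T1
def b2_0 : Bx := Bx.mk (St.mk (I.pos (nat_lit 117276672) (nat_lit 215302144)) (I.mix (nat_lit 278528) (nat_lit 80805888)) (I.mix (nat_lit 278528) (nat_lit 134430720)) (I.pos (nat_lit 355975168) (nat_lit 460439552)) (I.mix (nat_lit 210698240) (nat_lit 94519296)) (I.mix (nat_lit 120766464) (nat_lit 103284736)) (I.mix (nat_lit 140476416) (nat_lit 129187840)))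
  false (nat_lit 116541054)
def b2_1 : Bx := Bx.mk (St.mk (I.pos (nat_lit 33767424) (nat_lit 115507200)) (I.neg (nat_lit 819200) (nat_lit 96927744)) (I.mix (nat_lit 42582016) (nat_lit 48660480)) (I.pos (nat_lit 284360704) (nat_lit 333824000)) (I.mix (nat_lit 143572992) (nat_lit 131334144)) (I.mix (nat_lit 118571008) (nat_lit 109527040)) (I.mix (nat_lit 112656384) (nat_lit 100548608)))
  false (nat_lit 195416909)
def b2_2 : Bx := Bx.mk (St.mk (I.pos (nat_lit 99287040) (nat_lit 166723584)) (I.mix (nat_lit 44990464) (nat_lit 75939840)) (I.pos (nat_lit 7536640) (nat_lit 139231232)) (I.pos (nat_lit 311279616) (nat_lit 399720448)) (I.mix (nat_lit 226426880) (nat_lit 108232704)) (I.mix (nat_lit 178077696) (nat_lit 144195584)) (I.mix (nat_lit 192757760) (nat_lit 182353920)))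
  false (nat_lit 121782710)
def b2_3 : Bx := Bx.mk (St.mk (I.neg (nat_lit 33751040) (nat_lit 115621888)) (I.pos (nat_lit 819200) (nat_lit 96927744)) (I.mix (nat_lit 42582016) (nat_lit 48660480)) (I.pos (nat_lit 284344320) (nat_lit 333824000)) (I.mix (nat_lit 131350528) (nat_lit 143523840)) (I.mix (nat_lit 109527040) (nat_lit 118571008)) (I.mix (nat_lit 112721920) (nat_lit 100564992)))
  true (nat_lit 53213718)
def b2_4 : Bx := Bx.mk (St.mk (I.pos (nat_lit 73498624) (nat_lit 116637696)) (I.neg (nat_lit 81920) (nat_lit 39010304)) (I.pos (nat_lit 11206656) (nat_lit 49332224)) (I.pos (nat_lit 292765696) (nat_lit 332201984)) (I.mix (nat_lit 98566144) (nat_lit 90587136)) (I.mix (nat_lit 65863680) (nat_lit 81805312)) (I.mix (nat_lit 62750720) (nat_lit 67731456)))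
  false (nat_lit 40282139)
def b2_5 : Bx := Bx.mk (St.mk (I.mix (nat_lit 59998208) (nat_lit 15843328)) (I.mix (nat_lit 13025280) (nat_lit 89604096)) (I.neg (nat_lit 5423104) (nat_lit 30474240)) (I.pos (nat_lit 271859712) (nat_lit 308379648)) (I.mix (nat_lit 101580800) (nat_lit 124108800)) (I.mix (nat_lit 99844096) (nat_lit 89260032)) (I.mix (nat_lit 49348608) (nat_lit 37027840)))
  true (nat_lit 0)
def b2_6 : Bx := Bx.mk (St.mk (I.pos (nat_lit 22740992) (nat_lit 59555840)) (I.neg (nat_lit 38256640) (nat_lit 89604096)) (I.neg (nat_lit 7290880) (nat_lit 30474240)) (I.pos (nat_lit 281985024) (nat_lit 308379648)) (I.mix (nat_lit 124108800) (nat_lit 69959680)) (I.mix (nat_lit 89260032) (nat_lit 96944128)) (I.mix (nat_lit 49348608) (nat_lit 37027840)))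
  false (nat_lit 99387948)
def b2_7 : Bx := Bx.mk (St.mk (I.mix (nat_lit 15843328) (nat_lit 54132736)) (I.mix (nat_lit 47300608) (nat_lit 16318464)) (I.neg (nat_lit 5423104) (nat_lit 18071552)) (I.pos (nat_lit 271859712) (nat_lit 290193408)) (I.mix (nat_lit 62996480) (nat_lit 71385088)) (I.mix (nat_lit 51003392) (nat_lit 48349184)) (I.mix (nat_lit 14958592) (nat_lit 15728640)))
  false (nat_lit 0)
def b2_8 : Bx := Bx.mk (St.mk (I.pos (nat_lit 179896320) (nat_lit 290013184)) (I.mix (nat_lit 33193984) (nat_lit 56655872)) (I.mix (nat_lit 94502912) (nat_lit 88948736)) (I.pos (nat_lit 417562624) (nat_lit 601210880)) (I.mix (nat_lit 111886336) (nat_lit 85196800)) (I.mix (nat_lit 93274112) (nat_lit 74907648)) (I.mix (nat_lit 169246720) (nat_lit 124747776)))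
  false (nat_lit 64108197)
def b2_9 : Bx := Bx.mk (St.mk (I.pos (nat_lit 140656640) (nat_lit 196493312)) (I.pos (nat_lit 17924096) (nat_lit 78790656)) (I.pos (nat_lit 37994496) (nat_lit 127336448)) (I.pos (nat_lit 370196480) (nat_lit 434946048)) (I.mix (nat_lit 169213952) (nat_lit 105119744)) (I.mix (nat_lit 125730816) (nat_lit 81133568)) (I.mix (nat_lit 173375488) (nat_lit 113000448)))
  false (nat_lit 56003337)
def b2_10 : Bx := Bx.mk (St.mk (I.pos (nat_lit 21004288) (nat_lit 59998208)) (I.neg (nat_lit 21839872) (nat_lit 74186752)) (I.neg (nat_lit 6668288) (nat_lit 28327936)) (I.pos (nat_lit 280281088) (nat_lit 297893888)) (I.mix (nat_lit 110821376) (nat_lit 101580800)) (I.mix (nat_lit 69353472) (nat_lit 99860480)) (I.mix (nat_lit 32374784) (nat_lit 28393472)))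
  false (nat_lit 99686608)
def t2 : BTr := (BTr.n (BTr.n (BTr.n (BTr.b b2_0) (BTr.b b2_1)) (BTr.n (BTr.b b2_2) (BTr.n (BTr.b b2_3) (BTr.b b2_4)))) (BTr.n (BTr.n (BTr.b b2_5) (BTr.n (BTr.b b2_6) (BTr.b b2_7))) (BTr.n (BTr.b b2_8) (BTr.n (BTr.b b2_9) (BTr.b b2_10)))))
namespace T2
def l0 : Tr := Tr.L (Pth.l (Pth.l (Pth.l Pth.z)))
def l1 : Tr := Tr.L (Pth.l (Pth.l (Pth.r Pth.z)))
def l2 : Tr := Tr.L (Pth.l (Pth.r (Pth.l Pth.z)))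
def l3 : Tr := Tr.L (Pth.l (Pth.r (Pth.r (Pth.l Pth.z))))
def l4 : Tr := Tr.L (Pth.l (Pth.r (Pth.r (Pth.r Pth.z))))
def l5 : Tr := Tr.L (Pth.r (Pth.l (Pth.l Pth.z)))
def l6 : Tr := Tr.L (Pth.r (Pth.l (Pth.r (Pth.l Pth.z))))
def l7 : Tr := Tr.L (Pth.r (Pth.l (Pth.r (Pth.r Pth.z))))
def l8 : Tr := Tr.L (Pth.r (Pth.r (Pth.l Pth.z)))
def l9 : Tr := Tr.L (Pth.r (Pth.r (Pth.r (Pth.l Pth.z))))
def l10 : Tr := Tr.L (Pth.r (Pth.r (Pth.r (Pth.r Pth.z))))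
end T2
theorem bx0_0 : BoxOK sI cl4 cl4 cl7 t0 t2 b0_0 :=
  box_mk (TrL.c (I.pos (nat_lit 0) (nat_lit 0)) (xb (xa (xb T0.l9 T0.l9) (xb T0.l0 T0.l0)) (xa (xb (xa (xb T0.l0 T0.l9) (xb T0.l0 T0.l0)) (xa (xb (xa (xb T0.l0 T0.l0) T0.l0) (xa (xb T0.l0 T0.l0) (xb T0.l0 T0.l0))) (xb T0.l0 (xa T0.l0 T0.l0)))) (xb (xa T0.l0 T0.l0) (xa (xb T0.l0 (xa T0.l0 T0.l0)) (xb T0.l0 (xa (xb T0.l0 T0.l0) (xb T0.l0 T0.l0)))))))
  (TrL.c (I.pos (nat_lit 0) (nat_lit 0)) (xb T2.l1 (xa (xb T2.l1 T2.l1) (xb T2.l1 T2.l1)))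
  (TrL.c (I.pos (nat_lit 0) (nat_lit 0)) (xb T0.l1 (xa T0.l1 (xb T0.l1 T0.l1)))
  (TrL.c (I.pos (nat_lit 0) (nat_lit 0)) (xb (xa T2.l2 (xb T2.l2 (xa T2.l2 T2.l2))) (xa (xb T2.l2 (xa T2.l2 T2.l2)) (xb (xa T2.l2 (xb T2.l2 T2.l2)) (xa (xb T2.l2 T2.l2) (xb (xc T2.l2 T2.l2) (xc T2.l2 (xs T2.l2 T2.l2)))))))
  (TrL.c (I.pos (nat_lit 0) (nat_lit 0)) (xb (xa T0.l2 T0.l2) (xa T0.l2 (xb T0.l2 T0.l2)))
  (TrL.c (I.pos (nat_lit 0) (nat_lit 0)) (xb T2.l3 (xa (xb T2.l3 T2.l3) (xb T2.l3 T2.l3)))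
  TrL.n)))))) (by decide +kernel)
theorem bx0_1 : BoxOK sI cl4 cl4 cl7 t0 t2 b0_1 :=
  box_mk (TrL.c (I.pos (nat_lit 0) (nat_lit 0)) (xb T2.l4 T2.l4)
  (TrL.c (I.pos (nat_lit 0) (nat_lit 0)) (xb T0.l1 T0.l3)
  TrL.n)) (by decide +kernel)
theorem bx0_2 : BoxOK sI cl4 cl4 cl7 t0 t2 b0_2 :=
  box_mk (TrL.c (I.pos (nat_lit 0) (nat_lit 0)) (xb (xa (xb (xa (xb T0.l4 T0.l4) T0.l4) (xa (xb T0.l4 T0.l4) T0.l4)) (xb (xa T0.l9 T0.l9) T0.l9)) (xa (xb (xa (xb T0.l4 T0.l4) T0.l9) (xa (xb T0.l4 T0.l9) T0.l9)) T0.l9))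
  (TrL.c (I.pos (nat_lit 0) (nat_lit 0)) T2.l1
  (TrL.c (I.pos (nat_lit 0) (nat_lit 0)) T0.l1
  (TrL.c (I.pos (nat_lit 0) (nat_lit 0)) (xb T2.l2 T2.l2)
  (TrL.c (I.pos (nat_lit 0) (nat_lit 0)) T0.l5
  (TrL.c (I.pos (nat_lit 0) (nat_lit 0)) T2.l3
  TrL.n)))))) (by decide +kernel)
theorem bx0_3 : BoxOK sI cl4 cl4 cl7 t0 t2 b0_3 :=
  box_mk (TrL.c (I.pos (nat_lit 0) (nat_lit 0)) T2.l4
  (TrL.c (I.pos (nat_lit 0) (nat_lit 0)) T0.l1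
  TrL.n)) (by decide +kernel)
theorem bx0_4 : BoxOK sI cl4 cl4 cl7 t0 t2 b0_4 :=
  box_mk (TrL.c (I.pos (nat_lit 0) (nat_lit 0)) (xa T0.l0 T0.l7)
  (TrL.c (I.pos (nat_lit 0) (nat_lit 0)) (xa T2.l1 T2.l1)
  (TrL.c (I.pos (nat_lit 0) (nat_lit 0)) T0.l8
  (TrL.c (I.pos (nat_lit 0) (nat_lit 0)) (xa T2.l2 (xb (xa T2.l2 (xb (xe T2.l2 T2.l2) T2.l2)) T2.l2))
  (TrL.c (I.pos (nat_lit 0) (nat_lit 0)) T0.l6
  (TrL.c (I.pos (nat_lit 0) (nat_lit 0)) (xa T2.l3 T2.l3)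
  TrL.n)))))) (by decide +kernel)
theorem bx0_5 : BoxOK sI cl4 cl4 cl7 t0 t2 b0_5 :=
  box_mk (TrL.c (I.pos (nat_lit 0) (nat_lit 0)) (xb T0.l4 (xa (xb T0.l4 (xa T0.l4 T0.l4)) T0.l4))
  (TrL.c (I.pos (nat_lit 0) (nat_lit 0)) T2.l1
  (TrL.c (I.pos (nat_lit 0) (nat_lit 0)) T0.l1
  (TrL.c (I.pos (nat_lit 0) (nat_lit 0)) T2.l2
  (TrL.c (I.pos (nat_lit 0) (nat_lit 0)) T0.l5
  (TrL.c (I.pos (nat_lit 0) (nat_lit 0)) T2.l3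
  TrL.n)))))) (by decide +kernel)
theorem bx0_6 : BoxOK sI cl4 cl4 cl7 t0 t2 b0_6 :=
  box_mk (TrL.c (I.pos (nat_lit 0) (nat_lit 0)) (xa (xb (xa (xb (xa (xb (xa T0.l9 T0.l9) T0.l9) T0.l9) (xa (xb T0.l9 T0.l9) T0.l9)) (xb T0.l9 T0.l9)) (xa (xb T0.l9 (xa (xb T0.l9 (xa T0.l9 T0.l9)) T0.l9)) T0.l9)) (xb (xa (xb T0.l9 T0.l9) (xb (xa T0.l9 T0.l9) T0.l9)) T0.l9))
  (TrL.c (I.pos (nat_lit 0) (nat_lit 0)) (xa (xb T2.l1 T2.l1) T2.l1)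
  (TrL.c (I.pos (nat_lit 0) (nat_lit 0)) (xa T0.l1 T0.l1)
  (TrL.c (I.pos (nat_lit 0) (nat_lit 0)) (xa (xb T2.l2 T2.l2) (xb (xa T2.l2 T2.l2) T2.l2))
  (TrL.c (I.pos (nat_lit 0) (nat_lit 0)) (xa (xb T0.l10 T0.l10) T0.l10)
  (TrL.c (I.pos (nat_lit 0) (nat_lit 0)) (xa (xb T2.l3 T2.l3) T2.l3)
  TrL.n)))))) (by decide +kernel)
theorem c0_7_0 : chkTag sI cl4 cl4 cl7 t0 b0_7 (tg true true false RT.r2) (I.pos (nat_lit 0) (nat_lit 0))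
  (xb (xa (xb (xa (xb (xa T0.l9 T0.l9) (xa T0.l9 T0.l9)) (xb (xa T0.l9 T0.l9) T0.l9)) (xa (xb T0.l9 (xa T0.l9 T0.l9)) (xb T0.l9 T0.l9))) (xb (xa (xb (xa T0.l9 T0.l9) T0.l9) (xb (xa T0.l9 T0.l0) T0.l9)) (xa (xb T0.l9 T0.l9) (xb T0.l9 T0.l9)))) (xa (xb (xa (xb (xa (xb T0.l9 T0.l9) T0.l9) (xa (xb T0.l9 T0.l9) T0.l9)) (xb T0.l9 T0.l9)) (xa (xb (xa (xb T0.l9 (xa T0.l9 T0.l9)) T0.l9) (xa (xb (xa T0.l9 T0.l9) (xa T0.l9 T0.l9)) (xb T0.l9 T0.l9))) (xb T0.l9 (xa T0.l9 T0.l9)))) (xb (xa T0.l9 (xb T0.l9 T0.l9)) (xa (xb T0.l9 (xa T0.l9 (xb T0.l9 T0.l9))) (xb (xa T0.l9 T0.l9) (xa (xb T0.l9 (xa T0.l9 T0.l9)) (xb T0.l9 T0.l0))))))) = true := by decide +kernel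
theorem c0_7_1 : chkTag sI cl4 cl4 cl7 t2 b0_7 (tg true false false RT.r3) (I.pos (nat_lit 0) (nat_lit 0))
  (xb (xa (xb T2.l1 T2.l1) T2.l1) (xa (xb T2.l1 T2.l1) (xb T2.l1 T2.l1))) = true := by decide +kernel
theorem c0_7_2 : chkTag sI cl4 cl4 cl7 t0 b0_7 (tg true true true RT.r4) (I.pos (nat_lit 0) (nat_lit 0))
  (xb (xa T0.l1 (xb T0.l1 T0.l1)) (xa (xb T0.l1 T0.l1) T0.l1)) = true := by decide +kernel
theorem c0_7_3 : chkTag sI cl4 cl4 cl7 t2 b0_7 (tg false false false RT.r3) (I.pos (nat_lit 0) (nat_lit 0))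
  (xb (xa (xb (xa (xb T2.l2 T2.l2) (xb (xc T2.l2 T2.l2) T2.l2)) T2.l2) (xb (xa (xb (xc T2.l2 T2.l2) T2.l2) (xb (xa (xc T2.l2 T2.l2) (xc T2.l2 T2.l2)) T2.l2)) T2.l2)) (xa (xb T2.l2 (xa (xb T2.l2 T2.l2) T2.l2)) (xb (xa T2.l2 T2.l2) (xa T2.l2 (xb T2.l2 T2.l2))))) = true := by decide +kernel
theorem c0_7_4 : chkTag sI cl4 cl4 cl7 t0 b0_7 (tg false true false RT.r4) (I.pos (nat_lit 0) (nat_lit 0))
  (xa (xb T0.l10 (xc T0.l10 (xb T0.l10 T0.l10))) (xb (xc T0.l6 T0.l6) (xc T0.l2 T0.l2))) = true := by decide +kernel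
theorem c0_7_5 : chkTag sI cl4 cl4 cl7 t2 b0_7 (tg false false true RT.r5) (I.pos (nat_lit 0) (nat_lit 0))
  (xb (xa (xb T2.l3 T2.l3) T2.l3) (xa (xb T2.l3 T2.l3) (xb T2.l3 T2.l3))) = true := by decide +kernel
theorem bx0_7 : BoxOK sI cl4 cl4 cl7 t0 t2 b0_7 :=
  box_mk' [(tg true true false RT.r2), (tg true false false RT.r3), (tg true true true RT.r4), (tg false false false RT.r3), (tg false true false RT.r4), (tg false false true RT.r5)] rfl (allL_c (ex_mk c0_7_0) (allL_c (ex_mk c0_7_1) (allL_c (ex_mk c0_7_2) (allL_c (ex_mk c0_7_3) (allL_c (ex_mk c0_7_4) (allL_c (ex_mk c0_7_5) allL_n))))))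
theorem bx0_8 : BoxOK sI cl4 cl4 cl7 t0 t2 b0_8 :=
  box_mk (TrL.c (I.pos (nat_lit 0) (nat_lit 0)) (xa T2.l1 (xb T2.l1 T2.l1))
  (TrL.c (I.pos (nat_lit 0) (nat_lit 0)) (xa T0.l1 T0.l1)
  TrL.n)) (by decide +kernel)
theorem c0_9_0 : chkTag sI cl4 cl4 cl7 t0 b0_9 (tg true true false RT.r2) (I.pos (nat_lit 0) (nat_lit 0))
  (xb (xa (xb (xa (xb (xc T0.l9 T0.l0) (xc T0.l9 T0.l0)) (xb T0.l0 T0.l0)) (xa (xb (xc T0.l9 T0.l0) (xc T0.l9 T0.l0)) (xb (xc T0.l0 T0.l0) (xc T0.l0 T0.l0)))) (xb (xa T0.l7 (xb T0.l7 T0.l7)) (xa (xb T0.l0 T0.l0) (xb T0.l7 (xc T0.l0 (xa T0.l0 T0.l0)))))) (xa (xb (xa (xb (xc T0.l9 T0.l0) (xa T0.l9 T0.l9)) (xb (xa T0.l0 T0.l0) (xa (xc T0.l0 T0.l0) T0.l0))) (xa (xb (xc T0.l9 T0.l0) (xa (xc T0.l9 (xb T0.l0 T0.l0)) (xc (xb T0.l0 T0.l0) T0.l0))) (xb (xa (xc T0.l0 T0.l0) (xc T0.l0 T0.l0)) (xa (xc (xb T0.l0 T0.l0) T0.l0)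 (xc T0.l0 T0.l0))))) (xb (xa (xb T0.l0 (xa T0.l0 T0.l0)) (xb (xa T0.l0 T0.l0) (xa T0.l0 (xc T0.l0 T0.l0)))) (xa (xb (xa T0.l0 T0.l0) (xa (xc T0.l0 T0.l0) T0.l0)) (xb (xa T0.l0 (xc T0.l0 (xb T0.l0 T0.l0))) (xa (xc T0.l0 T0.l0) (xc (xb T0.l0 T0.l0) (xb T0.l0 T0.l0)))))))) = true := by decide +kernel
theorem c0_9_1 : chkTag sI cl4 cl4 cl7 t2 b0_9 (tg true false false RT.r3) (I.pos (nat_lit 0) (nat_lit 0))
  (xb (xa T2.l1 (xb T2.l1 T2.l1)) (xa (xb T2.l1 (xc T2.l1 T2.l1)) (xb T2.l1 (xc (xa T2.l1 T2.l1) (xa T2.l1 T2.l1))))) = true := by decide +kernel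
theorem c0_9_2 : chkTag sI cl4 cl4 cl7 t0 b0_9 (tg true true true RT.r4) (I.pos (nat_lit 0) (nat_lit 0))
  (xc (xb (xa T0.l1 (xb T0.l1 T0.l1)) (xa T0.l1 (xb T0.l1 (xc T0.l1 T0.l1)))) (xb (xa T0.l1 (xb T0.l1 T0.l1)) (xa T0.l1 (xb T0.l1 (xc T0.l1 T0.l1))))) = true := by decide +kernel
theorem c0_9_3 : chkTag sI cl4 cl4 cl7 t2 b0_9 (tg false false false RT.r3) (I.pos (nat_lit 0) (nat_lit 0))
  (xb (xa (xb (xc (xa T2.l2 (xb T2.l2 T2.l2)) (xa T2.l2 (xb T2.l2 T2.l2))) (xc T2.l2 T2.l2)) (xb (xc (xa (xb (xc T2.l2 T2.l2) T2.l2) (xb (xa (xc T2.l2 T2.l2) (xc T2.l2 T2.l2)) (xa T2.l2 T2.l2))) (xa (xb T2.l2 T2.l2) (xb (xa T2.l2 (xc T2.l2 T2.l2)) (xa T2.l2 T2.l2)))) (xc (xa T2.l2 (xb T2.l2 T2.l2)) (xa T2.l2 (xb T2.l2 T2.l2))))) (xa (xb (xc T2.l2 T2.l2) (xc T2.l2 (xa T2.l2 T2.l2))) (xb (xc (xa T2.l2 (xb (xa T2.l2 T2.l2) (xa T2.l2 (xc T2.l2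 T2.l2)))) (xa T2.l2 (xb T2.l2 (xa T2.l2 T2.l2)))) (xc (xa (xb T2.l2 T2.l2) (xb (xc T2.l2 T2.l2) (xc (xa T2.l2 T2.l2) (xa T2.l2 T2.l2)))) (xa (xb T2.l2 T2.l2) (xb (xa T2.l2 (xc T2.l2 T2.l2)) (xa (xc T2.l2 T2.l2) (xc T2.l2 T2.l2)))))))) = true := by decide +kernel
theorem c0_9_4 : chkTag sI cl4 cl4 cl7 t0 b0_9 (tg false true false RT.r4) (I.pos (nat_lit 0) (nat_lit 0))
  (xb (xc (xa T0.l2 (xb T0.l2 T0.l2)) (xa T0.l2 (xb T0.l2 T0.l2))) (xc (xa T0.l2 (xb T0.l2 (xc T0.l2 T0.l2))) (xa T0.l2 (xb T0.l2 (xc T0.l2 T0.l2))))) = true := by decide +kernel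
theorem c0_9_5 : chkTag sI cl4 cl4 cl7 t2 b0_9 (tg false false true RT.r5) (I.pos (nat_lit 0) (nat_lit 0))
  (xb (xa T2.l3 (xb T2.l3 T2.l3)) (xa (xb T2.l3 (xc T2.l3 T2.l3)) (xb T2.l3 (xc (xa T2.l3 T2.l3) (xa T2.l3 T2.l3))))) = true := by decide +kernel
theorem bx0_9 : BoxOK sI cl4 cl4 cl7 t0 t2 b0_9 :=
  box_mk' [(tg true true false RT.r2), (tg true false false RT.r3), (tg true true true RT.r4), (tg false false false RT.r3), (tg false true false RT.r4), (tg false false true RT.r5)] rfl (allL_c (ex_mk c0_9_0) (allL_c (ex_mk c0_9_1) (allL_c (ex_mk c0_9_2) (allL_c (ex_mk c0_9_3) (allL_c (ex_mk c0_9_4) (allL_c (ex_mk c0_9_5) allL_n))))))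
theorem bx0_10 : BoxOK sI cl4 cl4 cl7 t0 t2 b0_10 :=
  box_mk (TrL.c (I.pos (nat_lit 0) (nat_lit 0)) (xb (xa (xb (xb (xa (xa T0.l4 T0.l4) T0.l4) (xa T0.l4 T0.l4)) (xa (xb T0.l4 T0.l4) T0.l4)) (xb T0.l4 T0.l4)) (xb (xa T0.l4 T0.l4) (xa (xa (xb T0.l4 (xa T0.l4 T0.l4)) (xb T0.l4 T0.l4)) (xb (xa T0.l4 T0.l4) (xa T0.l4 T0.l9)))))
  (TrL.c (I.pos (nat_lit 0) (nat_lit 0)) T2.l4
  (TrL.c (I.pos (nat_lit 0) (nat_lit 0)) T0.l1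
  (TrL.c (I.pos (nat_lit 0) (nat_lit 0)) (xb T2.l2 T2.l2)
  (TrL.c (I.pos (nat_lit 0) (nat_lit 0)) (xb T0.l5 T0.l10)
  (TrL.c (I.pos (nat_lit 0) (nat_lit 0)) (xb T2.l3 T2.l3)
  TrL.n)))))) (by decide +kernel)
theorem sv0 : StarV sI cl4 cl4 cl7 t0 t2 t0 :=
  (bt_n (bt_n (bt_n (bt_b bx0_0) (bt_b bx0_1)) (bt_n (bt_b bx0_2) (bt_n (bt_b bx0_3) (bt_b bx0_4)))) (bt_n (bt_n (bt_b bx0_5) (bt_n (bt_b bx0_6) (bt_b bx0_7))) (bt_n (bt_b bx0_8) (bt_n (bt_b bx0_9) (bt_b bx0_10)))))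
def S0 : StarD := StarD.mk cl4 cl4 cl7 0 2 t0
theorem bx1_0 : BoxOK sI cl4 cl7 cl4 t2 t0 b1_0 :=
  box_mk (TrL.c (I.pos (nat_lit 0) (nat_lit 0)) (xa (xb (xa (xb T2.l0 T2.l0) T2.l0) (xa (xb T2.l0 (xa (xb T2.l0 (xs T2.l0 T2.l0)) (xb T2.l0 (xs T2.l0 T2.l0)))) (xb T2.l0 (xa (xb T2.l0 (xs T2.l0 T2.l0)) (xb T2.l0 (xs T2.l0 T2.l0)))))) (xb (xa T2.l0 T2.l0) (xa (xb T2.l0 (xa (xb T2.l0 T2.l0) (xb T2.l0 T2.l0))) (xb T2.l0 (xa T2.l0 (xb T2.l0 T2.l0))))))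
  (TrL.c (I.pos (nat_lit 0) (nat_lit 0)) (xa (xb T0.l6 (xa T0.l6 T0.l6)) (xb T0.l6 (xa T0.l6 (xb T0.l6 T0.l6))))
  (TrL.c (I.pos (nat_lit 0) (nat_lit 0)) T2.l5
  (TrL.c (I.pos (nat_lit 0) (nat_lit 0)) (xa T0.l7 (xb T0.l7 T0.l7))
  (TrL.c (I.pos (nat_lit 0) (nat_lit 0)) (xa (xb T2.l6 T2.l6) T2.l6)
  (TrL.c (I.pos (nat_lit 0) (nat_lit 0)) (xa (xb T0.l8 (xa T0.l8 T0.l8)) (xb T0.l8 (xa T0.l8 (xb T0.l8 T0.l8))))
  TrL.n)))))) (by decide +kernel)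
theorem bx1_1 : BoxOK sI cl4 cl7 cl4 t2 t0 b1_1 :=
  box_mk (TrL.c (I.pos (nat_lit 0) (nat_lit 0)) (xa (xb T2.l0 (xa (xb T2.l8 T2.l8) T2.l0)) T2.l0)
  (TrL.c (I.pos (nat_lit 0) (nat_lit 0)) T0.l6
  (TrL.c (I.pos (nat_lit 0) (nat_lit 0)) T2.l5
  (TrL.c (I.pos (nat_lit 0) (nat_lit 0)) (xa (xb (xa T0.l7 T0.l7) T0.l7) T0.l7)
  (TrL.c (I.pos (nat_lit 0) (nat_lit 0)) (xa T2.l7 T2.l7)
  (TrL.c (I.pos (nat_lit 0) (nat_lit 0)) T0.l8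
  TrL.n)))))) (by decide +kernel)
theorem bx1_2 : BoxOK sI cl4 cl7 cl4 t2 t0 b1_2 :=
  box_mk (TrL.c (I.pos (nat_lit 0) (nat_lit 0)) (xa (xa (xb T2.l8 (xa T2.l8 T2.l8)) (xb T2.l8 T2.l8)) (xa T2.l8 (xb T2.l8 (xa T2.l8 (xb T2.l8 T2.l8)))))
  (TrL.c (I.pos (nat_lit 0) (nat_lit 0)) (xa T0.l6 T0.l6)
  (TrL.c (I.pos (nat_lit 0) (nat_lit 0)) T2.l5
  (TrL.c (I.pos (nat_lit 0) (nat_lit 0)) (xa (xa T0.l7 T0.l7) T0.l7)
  (TrL.c (I.pos (nat_lit 0) (nat_lit 0)) T2.l7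
  (TrL.c (I.pos (nat_lit 0) (nat_lit 0)) (xa T0.l8 T0.l8)
  TrL.n)))))) (by decide +kernel)
theorem bx1_3 : BoxOK sI cl4 cl7 cl4 t2 t0 b1_3 :=
  box_mk (TrL.c (I.pos (nat_lit 0) (nat_lit 0)) (xa T2.l8 T2.l8)
  (TrL.c (I.pos (nat_lit 0) (nat_lit 0)) (xa (xb T0.l6 T0.l6) T0.l6)
  (TrL.c (I.pos (nat_lit 0) (nat_lit 0)) T2.l5
  (TrL.c (I.pos (nat_lit 0) (nat_lit 0)) (xa T0.l6 T0.l7)
  (TrL.c (I.pos (nat_lit 0) (nat_lit 0)) T2.l7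
  (TrL.c (I.pos (nat_lit 0) (nat_lit 0)) (xa T0.l8 T0.l8)
  TrL.n)))))) (by decide +kernel)
theorem bx1_4 : BoxOK sI cl4 cl7 cl4 t2 t0 b1_4 :=
  box_mk (TrL.c (I.pos (nat_lit 0) (nat_lit 0)) (xb (xa (xb (xa (xb T2.l9 T2.l9) T2.l9) (xa (xb T2.l9 T2.l9) T2.l9)) (xb (xa T2.l9 (xb T2.l9 T2.l9)) (xa T2.l9 (xb T2.l9 T2.l9)))) (xa (xb (xa (xb T2.l9 T2.l9) T2.l9) (xa (xb (xa T2.l9 T2.l9) (xa T2.l9 T2.l9)) (xb T2.l9 (xa T2.l9 T2.l9)))) (xb (xa T2.l9 (xb (xa T2.l9 T2.l9) (xa T2.l9 T2.l9))) (xa (xb T2.l9 (xa T2.l9 T2.l9)) (xb (xa T2.l9 T2.l9) (xa T2.l9 (xs T2.l9 T2.l9)))))))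
  (TrL.c (I.pos (nat_lit 0) (nat_lit 0)) (xb (xa T0.l6 (xb T0.l6 T0.l6)) (xa (xb T0.l6 (xa T0.l6 T0.l6)) (xb T0.l6 (xa T0.l6 T0.l6))))
  (TrL.c (I.pos (nat_lit 0) (nat_lit 0)) (xb T2.l5 (xa T2.l5 T2.l5))
  (TrL.c (I.pos (nat_lit 0) (nat_lit 0)) (xb (xa T0.l7 T0.l7) (xa T0.l7 T0.l7))
  (TrL.c (I.pos (nat_lit 0) (nat_lit 0)) (xb T2.l10 (xa T2.l10 T2.l10))
  (TrL.c (I.pos (nat_lit 0) (nat_lit 0)) (xb (xa T0.l8 (xb T0.l8 T0.l8)) (xa (xb T0.l8 (xa T0.l8 T0.l8)) (xb T0.l8 (xa T0.l8 T0.l8))))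
  TrL.n)))))) (by decide +kernel)
theorem bx1_5 : BoxOK sI cl4 cl7 cl4 t2 t0 b1_5 :=
  box_mk (TrL.c (I.pos (nat_lit 0) (nat_lit 0)) (xb (xa (xb T2.l0 T2.l8) T2.l0) (xa (xb T2.l8 (xa T2.l8 T2.l8)) (xb T2.l0 T2.l0)))
  (TrL.c (I.pos (nat_lit 0) (nat_lit 0)) T0.l6
  (TrL.c (I.pos (nat_lit 0) (nat_lit 0)) T2.l5
  (TrL.c (I.pos (nat_lit 0) (nat_lit 0)) (xb (xa (xb T0.l7 T0.l7) T0.l7) T0.l7)
  (TrL.c (I.pos (nat_lit 0) (nat_lit 0)) (xb T2.l7 T2.l7)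
  (TrL.c (I.pos (nat_lit 0) (nat_lit 0)) T0.l8
  TrL.n)))))) (by decide +kernel)
theorem bx1_6 : BoxOK sI cl4 cl7 cl4 t2 t0 b1_6 :=
  box_mk (TrL.c (I.pos (nat_lit 0) (nat_lit 0)) (xa (xa (xb (xa T2.l8 T2.l8) (xa (xb (xa T2.l8 T2.l8) (xa (xb T2.l8 T2.l8) T2.l8)) (xb T2.l8 (xa T2.l8 T2.l8)))) (xb T2.l8 (xa (xb T2.l8 T2.l8) T2.l8))) (xa (xb T2.l8 T2.l8) (xb T2.l8 (xa T2.l8 (xb T2.l8 (xa T2.l8 T2.l8))))))
  (TrL.c (I.pos (nat_lit 0) (nat_lit 0)) (xa (xa (xb T0.l7 T0.l6) T0.l6) T0.l6)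
  (TrL.c (I.pos (nat_lit 0) (nat_lit 0)) (xa T2.l5 T2.l5)
  (TrL.c (I.pos (nat_lit 0) (nat_lit 0)) (xa (xa (xb T0.l6 T0.l6) T0.l7) T0.l7)
  (TrL.c (I.pos (nat_lit 0) (nat_lit 0)) (xa T2.l7 T2.l7)
  (TrL.c (I.pos (nat_lit 0) (nat_lit 0)) (xa (xb T0.l8 (xa T0.l8 T0.l8)) T0.l8)
  TrL.n)))))) (by decide +kernel)
theorem bx1_7 : BoxOK sI cl4 cl7 cl4 t2 t0 b1_7 :=
  box_mk (TrL.c (I.pos (nat_lit 0) (nat_lit 0)) (xa (xb (xa (xa (xb T2.l8 T2.l8) T2.l8) T2.l8) T2.l8) T2.l8)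
  (TrL.c (I.pos (nat_lit 0) (nat_lit 0)) (xa (xa T0.l7 T0.l6) T0.l6)
  (TrL.c (I.pos (nat_lit 0) (nat_lit 0)) (xa T2.l7 T2.l5)
  (TrL.c (I.pos (nat_lit 0) (nat_lit 0)) (xa T0.l6 (xa T0.l7 T0.l7))
  (TrL.c (I.pos (nat_lit 0) (nat_lit 0)) (xa T2.l7 T2.l7)
  (TrL.c (I.pos (nat_lit 0) (nat_lit 0)) (xa (xa T0.l8 T0.l8) T0.l8)
  TrL.n)))))) (by decide +kernel)
theorem c1_8_0 : chkTag sI cl4 cl7 cl4 t2 b1_8 (tg true true false RT.r2) (I.pos (nat_lit 0) (nat_lit 0))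
  (xb (xa (xb (xa (xb (xa T2.l0 T2.l0) (xa T2.l0 T2.l0)) (xb T2.l0 T2.l0)) (xa (xb (xa T2.l0 T2.l0) (xa T2.l0 T2.l0)) (xb T2.l0 T2.l0))) (xb (xa (xb T2.l0 T2.l0) (xb (xb (xa T2.l2 T2.l2) T2.l2) (xb T2.l2 T2.l2))) (xa (xb T2.l0 T2.l2) T2.l2))) (xa (xb (xa (xb (xa T2.l0 T2.l0) (xa (xc T2.l0 T2.l0) T2.l0)) (xb (xa T2.l0 T2.l0) (xa T2.l0 T2.l0))) (xa (xb (xa (xc T2.l0 T2.l0) (xc T2.l0 T2.l0)) (xa (xc (xs T2.l0 T2.l0) (xs T2.l0 T2.l0)) (xc (xs T2.l0 T2.l0) (xs T2.l0 T2.l0)))) (xb (xa (xc T2.l0 T2.l0) (xc T2.l0 T2.l0)) (xa (xc (xs T2.l0 T2.l0) (xs T2.l0 T2.l0)) (xc (xs T2.l0 T2.l0) (xs T2.l0 T2.l0)))))) (xb (xa (xb T2.l2 (xa T2.l2 T2.l2)) T2.l2) (xa (xb (xa (xc T2.l0 T2.l0) T2.l2) (xa (xc (xs T2.l0 T2.l0) T2.l0) (xc T2.l2 (xs T2.l0 T2.l0)))) (xb (xa T2.l2 T2.l2) (xa (xc T2.l2 (xs T2.l0 T2.l0)) (xs (xc T2.l0 T2.l0) (xc T2.l2 T2.l0))))))))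 = true := by decide +kernel
theorem c1_8_1 : chkTag sI cl4 cl7 cl4 t0 b1_8 (tg true false false RT.r3) (I.pos (nat_lit 0) (nat_lit 0))
  (xa (xb (xb (xa T0.l6 T0.l6) (xa T0.l6 T0.l6)) (xb (xa (xc T0.l6 T0.l6) (xc T0.l6 T0.l6)) (xa (xc T0.l6 T0.l6) (xc T0.l6 T0.l6)))) (xb (xa (xb T0.l6 T0.l6) (xb T0.l6 (xc T0.l6 T0.l6))) (xa (xb (xc T0.l6 T0.l6) (xc T0.l6 T0.l6)) (xb (xc T0.l6 T0.l6) (xc T0.l6 (xd T0.l6 T0.l6)))))) = true := by decide +kernel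
theorem c1_8_2 : chkTag sI cl4 cl7 cl4 t2 b1_8 (tg true true true RT.r4) (I.pos (nat_lit 0) (nat_lit 0))
  (xa (xc (xb T2.l5 T2.l5) (xb T2.l5 T2.l5)) (xc T2.l3 T2.l3)) = true := by decide +kernel
theorem c1_8_3 : chkTag sI cl4 cl7 cl4 t0 b1_8 (tg false false false RT.r3) (I.pos (nat_lit 0) (nat_lit 0))
  (xb (xa (xb T0.l7 T0.l7) (xa (xb (xc T0.l7 T0.l7) T0.l7) (xb (xc (xd T0.l7 T0.l7) (xd T0.l7 T0.l7)) (xc (xd T0.l7 T0.l7) (xd T0.l7 T0.l7))))) (xa (xb T0.l7 T0.l7) (xb (xa T0.l7 (xc (xd T0.l7 T0.l7) (xd T0.l7 T0.l7))) (xa (xc T0.l7 T0.l7) (xc (xd T0.l7 T0.l7) (xd T0.l7 T0.l7)))))) = true := by decide +kernel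
theorem c1_8_4 : chkTag sI cl4 cl7 cl4 t2 b1_8 (tg false true false RT.r4) (I.pos (nat_lit 0) (nat_lit 0))
  (xa (xc (xb T2.l1 T2.l6) (xb T2.l1 T2.l6)) (xb T2.l1 (xc T2.l1 T2.l1))) = true := by decide +kernel
theorem c1_8_5 : chkTag sI cl4 cl7 cl4 t0 b1_8 (tg false false true RT.r5) (I.pos (nat_lit 0) (nat_lit 0))
  (xa (xb (xb (xa T0.l8 T0.l8) (xa T0.l8 T0.l8)) (xb (xa (xc T0.l8 T0.l8) (xc T0.l8 T0.l8)) (xa (xc T0.l8 T0.l8) (xc T0.l8 T0.l8)))) (xb (xa (xb T0.l8 T0.l8) (xb T0.l8 (xc T0.l8 T0.l8))) (xa (xb (xc T0.l8 T0.l8) (xc T0.l8 T0.l8)) (xb (xc T0.l8 T0.l8) (xc T0.l8 (xd T0.l8 T0.l8)))))) = true := by decide +kernel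
theorem bx1_8 : BoxOK sI cl4 cl7 cl4 t2 t0 b1_8 :=
  box_mk' [(tg true true false RT.r2), (tg true false false RT.r3), (tg true true true RT.r4), (tg false false false RT.r3), (tg false true false RT.r4), (tg false false true RT.r5)] rfl (allL_c (ex_mk c1_8_0) (allL_c (ex_mk c1_8_1) (allL_c (ex_mk c1_8_2) (allL_c (ex_mk c1_8_3) (allL_c (ex_mk c1_8_4) (allL_c (ex_mk c1_8_5) allL_n))))))
theorem bx1_9 : BoxOK sI cl4 cl7 cl4 t2 t0 b1_9 :=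
  box_mk (TrL.c (I.pos (nat_lit 0) (nat_lit 0)) (xb (xa (xb (xa T2.l9 T2.l9) (xa T2.l9 T2.l9)) (xb (xa T2.l9 T2.l9) (xa T2.l9 T2.l9))) (xa (xb (xa T2.l9 T2.l9) (xa T2.l9 T2.l9)) (xb (xa T2.l9 T2.l9) (xa T2.l9 T2.l9))))
  (TrL.c (I.pos (nat_lit 0) (nat_lit 0)) (xb (xa T0.l6 (xb T0.l6 T0.l6)) (xa T0.l6 T0.l6))
  (TrL.c (I.pos (nat_lit 0) (nat_lit 0)) (xb T2.l5 T2.l5)
  (TrL.c (I.pos (nat_lit 0) (nat_lit 0)) (xb (xa (xb T0.l7 T0.l7) (xb (xa T0.l7 (xc T0.l7 T0.l7)) T0.l7)) T0.l7)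
  (TrL.c (I.pos (nat_lit 0) (nat_lit 0)) (xb T2.l10 T2.l10)
  (TrL.c (I.pos (nat_lit 0) (nat_lit 0)) (xb (xa T0.l8 (xb T0.l8 T0.l8)) (xa T0.l8 T0.l8))
  TrL.n)))))) (by decide +kernel)
theorem bx1_10 : BoxOK sI cl4 cl7 cl4 t2 t0 b1_10 :=
  box_mk (TrL.c (I.pos (nat_lit 0) (nat_lit 0)) T2.l0
  (TrL.c (I.pos (nat_lit 0) (nat_lit 0)) T0.l6
  (TrL.c (I.pos (nat_lit 0) (nat_lit 0)) T2.l5
  (TrL.c (I.pos (nat_lit 0) (nat_lit 0)) T0.l7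
  (TrL.c (I.pos (nat_lit 0) (nat_lit 0)) T2.l7
  (TrL.c (I.pos (nat_lit 0) (nat_lit 0)) T0.l8
  TrL.n)))))) (by decide +kernel)
theorem bx1_11 : BoxOK sI cl4 cl7 cl4 t2 t0 b1_11 :=
  box_mk (TrL.c (I.pos (nat_lit 0) (nat_lit 0)) T2.l8
  (TrL.c (I.pos (nat_lit 0) (nat_lit 0)) T0.l6
  (TrL.c (I.pos (nat_lit 0) (nat_lit 0)) T2.l5
  (TrL.c (I.pos (nat_lit 0) (nat_lit 0)) T0.l7
  (TrL.c (I.pos (nat_lit 0) (nat_lit 0)) T2.l7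
  (TrL.c (I.pos (nat_lit 0) (nat_lit 0)) T0.l8
  TrL.n)))))) (by decide +kernel)
theorem bx1_12 : BoxOK sI cl4 cl7 cl4 t2 t0 b1_12 :=
  box_mk (TrL.c (I.pos (nat_lit 0) (nat_lit 0)) (xa (xa (xb (xa (xb (xa T2.l8 T2.l8) T2.l8) T2.l8) T2.l8) T2.l8) T2.l8)
  (TrL.c (I.pos (nat_lit 0) (nat_lit 0)) (xa (xa T0.l7 T0.l6) T0.l6)
  (TrL.c (I.pos (nat_lit 0) (nat_lit 0)) (xa T2.l7 T2.l5)
  (TrL.c (I.pos (nat_lit 0) (nat_lit 0)) (xa T0.l6 T0.l7)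
  (TrL.c (I.pos (nat_lit 0) (nat_lit 0)) (xa T2.l7 T2.l7)
  (TrL.c (I.pos (nat_lit 0) (nat_lit 0)) (xa T0.l8 T0.l8)
  TrL.n)))))) (by decide +kernel)
theorem bx1_13 : BoxOK sI cl4 cl7 cl4 t2 t0 b1_13 :=
  box_mk (TrL.c (I.pos (nat_lit 0) (nat_lit 0)) T2.l8
  (TrL.c (I.pos (nat_lit 0) (nat_lit 0)) T0.l6
  (TrL.c (I.pos (nat_lit 0) (nat_lit 0)) T2.l5
  (TrL.c (I.pos (nat_lit 0) (nat_lit 0)) T0.l6
  (TrL.c (I.pos (nat_lit 0) (nat_lit 0)) T2.l7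
  (TrL.c (I.pos (nat_lit 0) (nat_lit 0)) T0.l8
  TrL.n)))))) (by decide +kernel)
theorem bx1_14 : BoxOK sI cl4 cl7 cl4 t2 t0 b1_14 :=
  box_mk (TrL.c (I.pos (nat_lit 0) (nat_lit 0)) (xa (xb (xa T2.l0 T2.l2) T2.l0) T2.l2)
  (TrL.c (I.pos (nat_lit 0) (nat_lit 0)) (xa T0.l6 (xb (xa T0.l6 T0.l6) (xa T0.l6 T0.l6)))
  (TrL.c (I.pos (nat_lit 0) (nat_lit 0)) T2.l3
  (TrL.c (I.pos (nat_lit 0) (nat_lit 0)) (xa T0.l7 (xb T0.l0 T0.l0))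
  (TrL.c (I.pos (nat_lit 0) (nat_lit 0)) T2.l1
  (TrL.c (I.pos (nat_lit 0) (nat_lit 0)) (xa T0.l8 (xb (xa T0.l8 T0.l8) (xa T0.l8 T0.l8)))
  TrL.n)))))) (by decide +kernel)
theorem bx1_15 : BoxOK sI cl4 cl7 cl4 t2 t0 b1_15 :=
  box_mk (TrL.c (I.pos (nat_lit 0) (nat_lit 0)) T2.l0
  (TrL.c (I.pos (nat_lit 0) (nat_lit 0)) T0.l6
  (TrL.c (I.pos (nat_lit 0) (nat_lit 0)) T2.l5
  (TrL.c (I.pos (nat_lit 0) (nat_lit 0)) T0.l7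
  (TrL.c (I.pos (nat_lit 0) (nat_lit 0)) T2.l10
  (TrL.c (I.pos (nat_lit 0) (nat_lit 0)) T0.l8
  TrL.n)))))) (by decide +kernel)
theorem sv1 : StarV sI cl4 cl7 cl4 t2 t0 t1 :=
  (bt_n (bt_n (bt_n (bt_n (bt_b bx1_0) (bt_b bx1_1)) (bt_n (bt_b bx1_2) (bt_b bx1_3))) (bt_n (bt_n (bt_b bx1_4) (bt_b bx1_5)) (bt_n (bt_b bx1_6) (bt_b bx1_7)))) (bt_n (bt_n (bt_n (bt_b bx1_8) (bt_b bx1_9)) (bt_n (bt_b bx1_10) (bt_b bx1_11))) (bt_n (bt_n (bt_b bx1_12) (bt_b bx1_13)) (bt_n (bt_b bx1_14) (bt_b bx1_15)))))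
def S1 : StarD := StarD.mk cl4 cl7 cl4 2 0 t1
theorem c2_0_0 : chkTag sI cl7 cl4 cl4 t1 b2_0 (tg true true false RT.r2) (I.pos (nat_lit 0) (nat_lit 0))
  (xa (xb (xa T1.l8 (xb (xa T1.l8 T1.l0) (xa T1.l8 T1.l8))) (xa (xb (xa T1.l8 T1.l8) (xa (xb T1.l8 (xc T1.l8 (xk T1.l0 T1.l0))) (xb T1.l8 (xk T1.l0 T1.l0)))) (xb (xa T1.l8 (xb T1.l0 T1.l0)) (xa (xb T1.l8 (xk T1.l0 T1.l0)) (xb T1.l0 (xk T1.l0 T1.l0)))))) (xb (xa (xb T1.l0 (xa T1.l0 T1.l0)) (xb T1.l0 T1.l0)) (xa (xb (xa T1.l0 T1.l0) (xa (xb T1.l0 (xk (xc T1.l0 T1.l0) T1.l0)) (xb (xk T1.l0 T1.l0) (xk (xc T1.l0 T1.l0) T1.l0)))) (xb (xa T1.l0 T1.l0) (xa (xb (xk T1.l0 T1.l0) (xk (xc T1.l0 T1.l0) T1.l0)) (xk (xb T1.l0 (xc T1.l0 T1.l0)) (xb T1.l0 T1.l0))))))) = true := by decide +kernel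
theorem c2_0_1 : chkTag sI cl7 cl4 cl4 t1 b2_0 (tg true false false RT.r3) (I.pos (nat_lit 0) (nat_lit 0))
  (xa (xb T1.l1 (xk (xa T1.l1 T1.l1) (xa T1.l1 T1.l1))) (xb (xk T1.l1 T1.l1) (xk (xa T1.l1 T1.l1) (xa T1.l1 T1.l1)))) = true := by decide +kernel
theorem c2_0_2 : chkTag sI cl7 cl4 cl4 t1 b2_0 (Tag.mk true true false RT.tl RT.r4) (I.pos (nat_lit 0) (nat_lit 111196574))
  (xR (xR T1.l6 T1.l2) (xR T1.l2 (xR (xa T1.l2 T1.l2) (xa T1.l2 (xb T1.l2 (xR T1.l2 T1.l2)))))) = true := by decide +kernel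
theorem c2_0_3 : chkTag sI cl7 cl4 cl4 t1 b2_0 (Tag.mk true false false RT.tl RT.r5) (I.pos (nat_lit 0) (nat_lit 77433728))
  (xR (xR (xR T1.l3 T1.l3) (xR T1.l3 T1.l3)) (xR T1.l3 (xR T1.l3 (xk T1.l3 T1.l3)))) = true := by decide +kernel
theorem c2_0_4 : chkTag sI cl7 cl4 cl4 t1 b2_0 (tg false false false RT.r3) (I.pos (nat_lit 0) (nat_lit 0))
  (xa (xb T1.l9 (xk (xa T1.l4 T1.l4) T1.l4)) (xb (xk (xa T1.l4 (xb T1.l4 T1.l4)) (xa T1.l4 (xb T1.l4 T1.l4))) (xk (xa T1.l4 (xb T1.l4 T1.l4)) (xa T1.l4 (xb T1.l4 T1.l4))))) = true := by decide +kernel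
theorem c2_0_5 : chkTag sI cl7 cl4 cl4 t1 b2_0 (tg false true false RT.r4) (I.pos (nat_lit 0) (nat_lit 0))
  (xk (xa T1.l5 T1.l5) (xa T1.l5 T1.l5)) = true := by decide +kernel
theorem c2_0_6 : chkTag sI cl7 cl4 cl4 t1 b2_0 (Tag.mk false false false RT.tl RT.r5) (I.mix (nat_lit 29511666) (nat_lit 77433728))
  (xR (xR (xR T1.l6 T1.l6) T1.l6) (xR T1.l6 (xR T1.l6 (xk (xa T1.l6 T1.l6) T1.l6)))) = true := by decide +kernel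
theorem c2_0_7 : chkTag sI cl7 cl4 cl4 t1 b2_0 (Tag.mk false true false RT.tl RT.r6) (I.mix (nat_lit 29511666) (nat_lit 46070178))
  (xR (xR T1.l7 T1.l7) (xR T1.l7 (xR T1.l7 T1.l7))) = true := by decide +kernel
theorem bx2_0 : BoxOK sI cl7 cl4 cl4 t1 t1 b2_0 :=
  box_mk' [(tg true true false RT.r2), (tg true false false RT.r3), (Tag.mk true true false RT.tl RT.r4), (Tag.mk true false false RT.tl RT.r5), (tg false false false RT.r3), (tg false true false RT.r4), (Tag.mk false false false RT.tl RT.r5), (Tag.mk false true false RT.tl RT.r6)] rfl (allL_c (ex_mk c2_0_0) (allL_c (ex_mk c2_0_1) (allL_c (ex_mk c2_0_2) (allL_c (ex_mk c2_0_3) (allL_c (ex_mk c2_0_4) (allL_c (ex_mk c2_0_5) (allL_c (ex_mk c2_0_6) (allL_c (ex_mk c2_0_7) allL_n))))))))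
theorem bx2_1 : BoxOK sI cl7 cl4 cl4 t1 t1 b2_1 :=
  box_mk (TrL.c (I.pos (nat_lit 0) (nat_lit 0)) (xb (xa (xb (xa T1.l8 T1.l8) T1.l8) (xb T1.l8 T1.l8)) (xa (xb T1.l8 (xa T1.l8 T1.l8)) T1.l8))
  (TrL.c (I.pos (nat_lit 0) (nat_lit 0)) (xb (xa T1.l1 T1.l1) (xa T1.l1 T1.l1))
  (TrL.c (I.pos (nat_lit 0) (nat_lit 111196574)) (xR (xR T1.l6 T1.l2) (xR T1.l2 (xb (xR T1.l2 (xa T1.l2 T1.l2)) T1.l2)))
  (TrL.c (I.pos (nat_lit 0) (nat_lit 77433728)) (xR (xR T1.l6 T1.l6) (xR T1.l6 (xb T1.l6 (xR T1.l3 T1.l12))))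
  (TrL.c (I.pos (nat_lit 0) (nat_lit 0)) (xb (xa (xk T1.l9 T1.l9) (xk (xb T1.l9 T1.l9) T1.l9)) (xa T1.l9 T1.l9))
  (TrL.c (I.pos (nat_lit 0) (nat_lit 0)) (xb T1.l5 T1.l5)
  (TrL.c (I.mix (nat_lit 29511666) (nat_lit 77433728)) (xR T1.l6 (xR T1.l6 (xR T1.l6 T1.l6)))
  (TrL.c (I.mix (nat_lit 29511666) (nat_lit 46070178)) (xR T1.l6 T1.l6)
  TrL.n)))))))) (by decide +kernel)
theorem c2_2_0 : chkTag sI cl7 cl4 cl4 t1 b2_2 (tg true true false RT.r2) (I.pos (nat_lit 0) (nat_lit 0))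
  (xb (xa (xb (xa (xb (xb T1.l8 T1.l8) T1.l8) (xb (xb T1.l8 T1.l8) T1.l8)) (xa (xb T1.l8 T1.l8) T1.l8)) (xb (xa (xb T1.l8 T1.l8) (xb T1.l8 T1.l8)) (xa T1.l8 (xb T1.l8 T1.l8)))) (xa (xb (xa (xb (xc T1.l8 T1.l8) (xc T1.l8 T1.l8)) (xb T1.l8 T1.l8)) (xa (xb (xc (xa T1.l8 T1.l8) T1.l8) (xc (xa T1.l8 T1.l8) (xa (xk T1.l8 T1.l8) (xk T1.l8 T1.l8)))) (xb (xc T1.l8 T1.l8) (xa (xc T1.l8 T1.l8) (xc T1.l8 T1.l8))))) (xb (xa T1.l8 (xb T1.l8 (xk T1.l8 T1.l8))) (xa (xb T1.l8 (xa (xc T1.l8 T1.l8) (xk T1.l8 T1.l8))) (xb (xk (xc T1.l8 T1.l8) T1.l8) (xk (xa T1.l8 T1.l8) (xc T1.l8 (xa T1.l8 T1.l8)))))))) = true := by decide +kernel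
theorem c2_2_1 : chkTag sI cl7 cl4 cl4 t1 b2_2 (tg true false false RT.r3) (I.pos (nat_lit 0) (nat_lit 0))
  (xb (xb (xa T1.l1 T1.l1) (xa T1.l1 T1.l1)) (xa (xk (xb T1.l1 T1.l1) (xb T1.l1 T1.l1)) (xk (xb T1.l1 T1.l1) (xb T1.l1 T1.l1)))) = true := by decide +kernel
theorem c2_2_2 : chkTag sI cl7 cl4 cl4 t1 b2_2 (Tag.mk true true false RT.tl RT.r4) (I.pos (nat_lit 0) (nat_lit 111196574))
  (xR (xR T1.l6 T1.l2) (xR T1.l2 (xb (xR T1.l2 (xb T1.l2 T1.l2)) (xR T1.l2 (xa T1.l2 T1.l2))))) = true := by decide +kernel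
theorem c2_2_3 : chkTag sI cl7 cl4 cl4 t1 b2_2 (Tag.mk true false false RT.tl RT.r5) (I.pos (nat_lit 0) (nat_lit 77433728))
  (xR (xR T1.l3 (xk T1.l3 T1.l3)) (xR T1.l3 (xb (xR T1.l3 T1.l3) (xk (xR T1.l3 T1.l3) T1.l3)))) = true := by decide +kernel
theorem c2_2_4 : chkTag sI cl7 cl4 cl4 t1 b2_2 (tg false false false RT.r3) (I.pos (nat_lit 0) (nat_lit 0))
  (xb (xa (xb T1.l9 T1.l9) (xk (xb T1.l9 T1.l9) (xb T1.l9 T1.l9))) (xa (xk T1.l9 (xb T1.l9 T1.l4)) (xb (xk T1.l9 T1.l9) (xk T1.l4 (xb T1.l4 T1.l4))))) = true := by decide +kernel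
theorem c2_2_5 : chkTag sI cl7 cl4 cl4 t1 b2_2 (tg false true false RT.r4) (I.pos (nat_lit 0) (nat_lit 0))
  (xb T1.l5 T1.l5) = true := by decide +kernel
theorem c2_2_6 : chkTag sI cl7 cl4 cl4 t1 b2_2 (Tag.mk false false false RT.tl RT.r5) (I.mix (nat_lit 29511666) (nat_lit 77433728))
  (xR T1.l6 (xR T1.l6 (xb (xR T1.l6 T1.l6) (xR T1.l6 T1.l6)))) = true := by decide +kernel
theorem c2_2_7 : chkTag sI cl7 cl4 cl4 t1 b2_2 (Tag.mk false true false RT.tl RT.r6) (I.mix (nat_lit 29511666) (nat_lit 46070178))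
  (xR (xR T1.l7 T1.l7) (xR T1.l7 (xb T1.l3 T1.l7))) = true := by decide +kernel
theorem bx2_2 : BoxOK sI cl7 cl4 cl4 t1 t1 b2_2 :=
  box_mk' [(tg true true false RT.r2), (tg true false false RT.r3), (Tag.mk true true false RT.tl RT.r4), (Tag.mk true false false RT.tl RT.r5), (tg false false false RT.r3), (tg false true false RT.r4), (Tag.mk false false false RT.tl RT.r5), (Tag.mk false true false RT.tl RT.r6)] rfl (allL_c (ex_mk c2_2_0) (allL_c (ex_mk c2_2_1) (allL_c (ex_mk c2_2_2) (allL_c (ex_mk c2_2_3) (allL_c (ex_mk c2_2_4) (allL_c (ex_mk c2_2_5) (allL_c (ex_mk c2_2_6) (allL_c (ex_mk c2_2_7) allL_n))))))))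
theorem bx2_3 : BoxOK sI cl7 cl4 cl4 t1 t1 b2_3 :=
  box_mk (TrL.c (I.pos (nat_lit 0) (nat_lit 0)) (xb (xa T1.l1 T1.l1) (xa T1.l1 T1.l1))
  (TrL.c (I.pos (nat_lit 0) (nat_lit 0)) T1.l11
  (TrL.c (I.mix (nat_lit 29511666) (nat_lit 77433728)) (xR (xR (xR T1.l12 T1.l12) T1.l6) (xR T1.l6 (xR T1.l12 T1.l12)))
  (TrL.c (I.mix (nat_lit 29511666) (nat_lit 46070178)) (xR (xR T1.l13 T1.l13) (xR T1.l2 T1.l2))
  TrL.n)))) (by decide +kernel)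
theorem bx2_4 : BoxOK sI cl7 cl4 cl4 t1 t1 b2_4 :=
  box_mk (TrL.c (I.pos (nat_lit 0) (nat_lit 0)) T1.l8
  (TrL.c (I.pos (nat_lit 0) (nat_lit 0)) T1.l1
  (TrL.c (I.pos (nat_lit 0) (nat_lit 111196574)) (xR (xR T1.l2 T1.l2) T1.l2)
  (TrL.c (I.pos (nat_lit 0) (nat_lit 77433728)) (xR T1.l6 T1.l3)
  (TrL.c (I.pos (nat_lit 0) (nat_lit 0)) T1.l9
  (TrL.c (I.pos (nat_lit 0) (nat_lit 0)) T1.l5
  (TrL.c (I.mix (nat_lit 29511666) (nat_lit 77433728)) T1.l6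
  (TrL.c (I.mix (nat_lit 29511666) (nat_lit 46070178)) T1.l6
  TrL.n)))))))) (by decide +kernel)
theorem bx2_5 : BoxOK sI cl7 cl4 cl4 t1 t1 b2_5 :=
  box_mk (TrL.c (I.pos (nat_lit 0) (nat_lit 0)) (xb (xa T1.l1 T1.l1) (xa T1.l10 T1.l10))
  (TrL.c (I.pos (nat_lit 0) (nat_lit 0)) T1.l11
  (TrL.c (I.mix (nat_lit 29511666) (nat_lit 77433728)) (xR (xR T1.l12 T1.l2) T1.l6)
  (TrL.c (I.mix (nat_lit 29511666) (nat_lit 46070178)) (xR T1.l12 (xR T1.l2 T1.l6))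
  TrL.n)))) (by decide +kernel)
theorem bx2_6 : BoxOK sI cl7 cl4 cl4 t1 t1 b2_6 :=
  box_mk (TrL.c (I.pos (nat_lit 0) (nat_lit 0)) (xb (xa T1.l14 T1.l8) T1.l8)
  (TrL.c (I.pos (nat_lit 0) (nat_lit 0)) T1.l10
  (TrL.c (I.pos (nat_lit 0) (nat_lit 111196574)) (xR (xR T1.l2 T1.l2) T1.l2)
  (TrL.c (I.pos (nat_lit 0) (nat_lit 77433728)) (xR T1.l6 T1.l6)
  (TrL.c (I.pos (nat_lit 0) (nat_lit 0)) (xk T1.l9 T1.l9)
  (TrL.c (I.pos (nat_lit 0) (nat_lit 0)) T1.l5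
  (TrL.c (I.mix (nat_lit 29511666) (nat_lit 77433728)) T1.l6
  (TrL.c (I.mix (nat_lit 29511666) (nat_lit 46070178)) T1.l6
  TrL.n)))))))) (by decide +kernel)
theorem bx2_7 : BoxOK sI cl7 cl4 cl4 t1 t1 b2_7 :=
  box_mk (TrL.c (I.pos (nat_lit 0) (nat_lit 0)) (xb (xa (xb (xa T1.l14 T1.l14) T1.l14) T1.l14) (xa (xb T1.l14 (xa T1.l14 T1.l14)) (xa T1.l14 T1.l14)))
  (TrL.c (I.pos (nat_lit 0) (nat_lit 0)) (xb T1.l1 T1.l1)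
  (TrL.c (I.pos (nat_lit 0) (nat_lit 111196574)) (xR T1.l6 (xR T1.l2 (xR T1.l2 T1.l2)))
  (TrL.c (I.pos (nat_lit 0) (nat_lit 77433728)) (xR T1.l2 T1.l6)
  (TrL.c (I.pos (nat_lit 0) (nat_lit 0)) (xb T1.l15 T1.l15)
  (TrL.c (I.pos (nat_lit 0) (nat_lit 0)) T1.l5
  (TrL.c (I.mix (nat_lit 29511666) (nat_lit 77433728)) (xR (xR (xR T1.l12 T1.l6) T1.l6) T1.l6)
  (TrL.c (I.mix (nat_lit 29511666) (nat_lit 46070178)) (xR (xR T1.l12 T1.l7) T1.l2)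
  TrL.n)))))))) (by decide +kernel)
theorem c2_8_0 : chkTag sI cl7 cl4 cl4 t1 b2_8 (tg true true false RT.r2) (I.pos (nat_lit 0) (nat_lit 0))
  (xa (xb (xa (xb T1.l0 T1.l0) (xb T1.l0 (xc T1.l0 T1.l0))) (xa (xb T1.l0 (xc T1.l0 T1.l0)) (xb (xa T1.l0 T1.l0) (xa T1.l0 (xc T1.l0 T1.l0))))) (xb (xa (xb T1.l4 (xa T1.l4 T1.l4)) (xb (xa T1.l4 T1.l4) (xa T1.l4 T1.l4))) (xa (xb (xa (xc T1.l0 T1.l4) T1.l4) (xa (xc T1.l0 (xb T1.l0 T1.l4)) T1.l4)) (xb (xa T1.l4 T1.l4) (xa T1.l4 (xc T1.l4 (xk T1.l4 T1.l4))))))) = true := by decide +kernel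
theorem c2_8_1 : chkTag sI cl7 cl4 cl4 t1 b2_8 (tg true false false RT.r3) (I.pos (nat_lit 0) (nat_lit 0))
  (xa (xb T1.l1 (xk T1.l1 T1.l1)) (xb (xk (xa T1.l1 T1.l5) (xa T1.l1 T1.l5)) (xk (xa T1.l1 T1.l5) (xa T1.l1 T1.l5)))) = true := by decide +kernel
theorem c2_8_2 : chkTag sI cl7 cl4 cl4 t1 b2_8 (Tag.mk true true false RT.tl RT.r4) (I.pos (nat_lit 0) (nat_lit 111196574))
  (xR (xR (xR T1.l6 T1.l2) (xR T1.l2 T1.l2)) (xR T1.l6 (xR T1.l6 (xa T1.l2 T1.l6)))) = true := by decide +kernel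
theorem c2_8_3 : chkTag sI cl7 cl4 cl4 t1 b2_8 (Tag.mk true false false RT.tl RT.r5) (I.pos (nat_lit 0) (nat_lit 77433728))
  (xR (xR (xR T1.l7 T1.l7) (xR T1.l7 T1.l3)) (xR T1.l3 (xR T1.l3 (xa T1.l3 (xk T1.l3 T1.l3))))) = true := by decide +kernel
theorem c2_8_4 : chkTag sI cl7 cl4 cl4 t1 b2_8 (tg false false false RT.r3) (I.pos (nat_lit 0) (nat_lit 0))
  (xa (xb (xk (xa (xb T1.l4 T1.l4) (xb (xk T1.l4 T1.l4) T1.l4)) (xa (xb T1.l4 T1.l4) (xb (xk T1.l4 T1.l4) T1.l4))) (xk T1.l4 T1.l4)) (xb (xk (xa (xb (xk (xa T1.l4 T1.l4) (xa T1.l4 T1.l4)) T1.l4) (xb (xk (xa T1.l4 (xb T1.l4 T1.l4)) (xa T1.l4 (xb T1.l4 T1.l4))) (xk T1.l4 T1.l4))) (xa (xb (xk (xa T1.l4 T1.l4) (xa T1.l4 T1.l4)) T1.l4) (xb (xk (xa T1.l4 (xb T1.l4 T1.l4)) (xa T1.l4 (xb T1.l4 T1.l4))) (xk T1.l4 T1.l4)))) (xk (xa (xb T1.l4 T1.l4) (xb (xk T1.l4 T1.l4) (xk (xa T1.l4 T1.l4)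 (xa T1.l4 T1.l4)))) (xa (xb T1.l4 T1.l4) (xb (xk T1.l4 T1.l4) (xk (xa T1.l4 T1.l4) (xa T1.l4 T1.l4))))))) = true := by decide +kernel
theorem c2_8_5 : chkTag sI cl7 cl4 cl4 t1 b2_8 (tg false true false RT.r4) (I.pos (nat_lit 0) (nat_lit 0))
  (xa (xk T1.l5 (xb T1.l5 T1.l5)) (xk (xb T1.l1 (xa T1.l5 T1.l5)) (xb T1.l1 T1.l5))) = true := by decide +kernel
theorem c2_8_6 : chkTag sI cl7 cl4 cl4 t1 b2_8 (Tag.mk false false false RT.tl RT.r5) (I.mix (nat_lit 29511666) (nat_lit 77433728))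
  (xR (xR (xR T1.l6 T1.l6) T1.l6) (xR T1.l6 (xR (xb T1.l6 T1.l6) (xb (xa T1.l6 (xk (xR T1.l6 T1.l6) T1.l6)) (xk (xa T1.l6 (xR T1.l6 T1.l6)) T1.l6))))) = true := by decide +kernel
theorem c2_8_7 : chkTag sI cl7 cl4 cl4 t1 b2_8 (Tag.mk false true false RT.tl RT.r6) (I.mix (nat_lit 29511666) (nat_lit 46070178))
  (xR (xR (xR T1.l7 T1.l7) T1.l7) (xR T1.l7 (xR T1.l7 T1.l7))) = true := by decide +kernel
theorem bx2_8 : BoxOK sI cl7 cl4 cl4 t1 t1 b2_8 :=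
  box_mk' [(tg true true false RT.r2), (tg true false false RT.r3), (Tag.mk true true false RT.tl RT.r4), (Tag.mk true false false RT.tl RT.r5), (tg false false false RT.r3), (tg false true false RT.r4), (Tag.mk false false false RT.tl RT.r5), (Tag.mk false true false RT.tl RT.r6)] rfl (allL_c (ex_mk c2_8_0) (allL_c (ex_mk c2_8_1) (allL_c (ex_mk c2_8_2) (allL_c (ex_mk c2_8_3) (allL_c (ex_mk c2_8_4) (allL_c (ex_mk c2_8_5) (allL_c (ex_mk c2_8_6) (allL_c (ex_mk c2_8_7) allL_n))))))))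
theorem bx2_9 : BoxOK sI cl7 cl4 cl4 t1 t1 b2_9 :=
  box_mk (TrL.c (I.pos (nat_lit 0) (nat_lit 0)) (xa (xb (xb (xa T1.l0 T1.l0) (xa T1.l0 T1.l0)) (xa (xb T1.l0 (xk T1.l0 T1.l0)) (xb T1.l0 (xk (xb T1.l0 T1.l0) T1.l0)))) (xb (xa T1.l0 T1.l0) (xa (xb T1.l0 (xk (xb T1.l0 T1.l0) T1.l0)) (xb T1.l0 (xk (xb T1.l0 T1.l0) T1.l0)))))
  (TrL.c (I.pos (nat_lit 0) (nat_lit 0)) (xk (xa (xb T1.l1 T1.l1) (xb T1.l1 T1.l1)) (xb T1.l1 (xa T1.l1 T1.l1)))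
  (TrL.c (I.pos (nat_lit 0) (nat_lit 111196574)) (xR (xR T1.l2 T1.l2) (xR T1.l2 (xR T1.l2 T1.l2)))
  (TrL.c (I.pos (nat_lit 0) (nat_lit 77433728)) (xR (xR T1.l3 T1.l3) (xR T1.l3 T1.l3))
  (TrL.c (I.pos (nat_lit 0) (nat_lit 0)) (xk (xb T1.l4 (xa T1.l4 T1.l4)) (xb T1.l4 (xb T1.l4 (xa T1.l4 T1.l4))))
  (TrL.c (I.pos (nat_lit 0) (nat_lit 0)) T1.l5
  (TrL.c (I.mix (nat_lit 29511666) (nat_lit 77433728)) (xR T1.l6 T1.l6)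
  (TrL.c (I.mix (nat_lit 29511666) (nat_lit 46070178)) (xR (xR T1.l7 T1.l7) T1.l7)
  TrL.n)))))))) (by decide +kernel)
theorem bx2_10 : BoxOK sI cl7 cl4 cl4 t1 t1 b2_10 :=
  box_mk (TrL.c (I.pos (nat_lit 0) (nat_lit 0)) (xb T1.l8 (xa T1.l8 T1.l8))
  (TrL.c (I.pos (nat_lit 0) (nat_lit 0)) T1.l1
  (TrL.c (I.pos (nat_lit 0) (nat_lit 111196574)) (xR (xR T1.l2 T1.l2) T1.l2)
  (TrL.c (I.pos (nat_lit 0) (nat_lit 77433728)) (xR T1.l2 T1.l6)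
  (TrL.c (I.pos (nat_lit 0) (nat_lit 0)) (xb T1.l9 T1.l9)
  (TrL.c (I.pos (nat_lit 0) (nat_lit 0)) T1.l5
  (TrL.c (I.mix (nat_lit 29511666) (nat_lit 77433728)) T1.l6
  (TrL.c (I.mix (nat_lit 29511666) (nat_lit 46070178)) T1.l6
  TrL.n)))))))) (by decide +kernel)
theorem sv2 : StarV sI cl7 cl4 cl4 t1 t1 t2 :=
  (bt_n (bt_n (bt_n (bt_b bx2_0) (bt_b bx2_1)) (bt_n (bt_b bx2_2) (bt_n (bt_b bx2_3) (bt_b bx2_4)))) (bt_n (bt_n (bt_b bx2_5) (bt_n (bt_b bx2_6) (bt_b bx2_7))) (bt_n (bt_b bx2_8) (bt_n (bt_b bx2_9) (bt_b bx2_10)))))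
def S2 : StarD := StarD.mk cl7 cl4 cl4 1 1 t2
def G : List StarD := [S0, S1, S2]
theorem so0 : StarOK sI G S0 :=
  star_mk (by decide) (by decide) rfl rfl rfl rfl rfl rfl (rfl : _ = t0) (rfl : _ = t2)
  (st_mk (Pth.l (Pth.l (Pth.l Pth.z))) (nat_lit 397331612) (nat_lit 401162409) (by decide +kernel))
  (st_mk (Pth.l (Pth.l (Pth.l Pth.z))) (nat_lit 439427497) (nat_lit 444221113) (by decide +kernel))
  (st_mk (Pth.l (Pth.l (Pth.l Pth.z))) (nat_lit 489124382) (nat_lit 495231865) (by decide +kernel)) sv0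
theorem so1 : StarOK sI G S1 :=
  star_mk (by decide) (by decide) rfl rfl rfl rfl rfl rfl (rfl : _ = t2) (rfl : _ = t0)
  (st_mk (Pth.r (Pth.l (Pth.l (Pth.r Pth.z)))) (nat_lit 148761943) (nat_lit 173068220) (by decide +kernel))
  (st_mk (Pth.l (Pth.l (Pth.l (Pth.l Pth.z)))) (nat_lit 188925260) (nat_lit 214171366) (by decide +kernel))
  (st_mk (Pth.l (Pth.l (Pth.l (Pth.l Pth.z)))) (nat_lit 237142318) (nat_lit 263687962) (by decide +kernel)) sv1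
theorem so2 : StarOK sI G S2 :=
  star_mk (by decide) (by decide) rfl rfl rfl rfl rfl rfl (rfl : _ = t1) (rfl : _ = t1)
  (st_mk (Pth.l (Pth.l (Pth.l Pth.z))) (nat_lit 373445244) (nat_lit 378999410) (by decide +kernel))
  (st_mk (Pth.l (Pth.l (Pth.l Pth.z))) (nat_lit 410236120) (nat_lit 416637188) (by decide +kernel))
  (st_mk (Pth.r (Pth.r (Pth.l Pth.z))) (nat_lit 451042584) (nat_lit 462297078) (by decide +kernel)) sv2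
theorem ok : GroupOK (nat_lit 209321984) (nat_lit 238944256) G := grp_mk (allS_c so0 (allS_c so1 (allS_c so2 allS_n)))
theorem cov : GCov G cl4 cl4 cl7 := cov_mk
  ⟨0, by decide, rfl, rfl, rfl⟩ ⟨1, by decide, rfl, rfl, rfl⟩ ⟨0, by decide, rfl, rfl, rfl⟩ ⟨1, by decide, rfl, rfl, rfl⟩ ⟨2, by decide, rfl, rfl, rfl⟩ ⟨2, by decide, rfl, rfl, rfl⟩
end Q114_3


end Pool.Agent.Helper6.MONO
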