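import Pool.Agent.Helper6.MONO.Cert.C25

/-!
Certificate data (generated).
-/

set_option autoImplicit false
set_option linter.all false
noncomputable section
namespace Pool.Agent.Helper6.MONO


namespace Q114_4
def sI : I := I.pos (nat_lit 238878720) (nat_lit 268435456)
def b0_0 : Bx := Bx.mk (St.mk (I.pos (nat_lit 141656064) (nat_lit 217382912)) (I.mix (nat_lit 3112960) (nat_lit 98222080)) (I.mix (nat_lit 44728320) (nat_lit 53690368)) (I.pos (nat_lit 395231232) (nat_lit 508084224)) (I.mix (nat_lit 180633600) (nat_lit 124289024)) (I.mix (nat_lit 96468992) (nat_lit 118964224)) (I.mix (nat_lit 177881088) (nat_lit 168148992)))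
  false (nat_lit 15073788)
def b0_1 : Bx := Bx.mk (St.mk (I.mix (nat_lit 42467328) (nat_lit 10813440)) (I.pos (nat_lit 27443200) (nat_lit 72990720)) (I.neg (nat_lit 71237632) (nat_lit 101924864)) (I.pos (nat_lit 260472832) (nat_lit 288161792)) (I.mix (nat_lit 44711936) (nat_lit 167051264)) (I.mix (nat_lit 108642304) (nat_lit 70467584)) (I.mix (nat_lit 66011136) (nat_lit 47022080)))
  true (nat_lit 0)
def b0_2 : Bx := Bx.mk (St.mk (I.mix (nat_lit 10813440) (nat_lit 42467328)) (I.neg (nat_lit 27443200) (nat_lit 72990720)) (I.neg (nat_lit 71237632) (nat_lit 101924864)) (I.pos (nat_lit 260472832) (nat_lit 288161792)) (I.mix (nat_lit 167051264) (nat_lit 44711936)) (I.mix (nat_lit 70467584) (nat_lit 108642304)) (I.mix (nat_lit 66011136) (nat_lit 47022080)))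
  false (nat_lit 0)
def b0_3 : Bx := Bx.mk (St.mk (I.mix (nat_lit 25395200) (nat_lit 3866624)) (I.mix (nat_lit 16367616) (nat_lit 12222464)) (I.neg (nat_lit 71876608) (nat_lit 82444288)) (I.pos (nat_lit 260145152) (nat_lit 270483456)) (I.mix (nat_lit 64471040) (nat_lit 51429376)) (I.mix (nat_lit 54788096) (nat_lit 41893888)) (I.mix (nat_lit 5750784) (nat_lit 23068672)))
  true (nat_lit 0)
def b0_4 : Bx := Bx.mk (St.mk (I.pos (nat_lit 194936832) (nat_lit 247463936)) (I.mix (nat_lit 21495808) (nat_lit 17842176)) (I.neg (nat_lit 107970560) (nat_lit 174800896)) (I.pos (nat_lit 425590784) (nat_lit 520765440)) (I.mix (nat_lit 138969088) (nat_lit 68239360)) (I.mix (nat_lit 99614720) (nat_lit 78282752)) (I.mix (nat_lit 137805824) (nat_lit 160956416)))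
  false (nat_lit 0)
def b0_5 : Bx := Bx.mk (St.mk (I.mix (nat_lit 6340608) (nat_lit 25395200)) (I.mix (nat_lit 12222464) (nat_lit 16367616)) (I.neg (nat_lit 71892992) (nat_lit 82493440)) (I.pos (nat_lit 260145152) (nat_lit 270483456)) (I.mix (nat_lit 51429376) (nat_lit 64471040)) (I.mix (nat_lit 41893888) (nat_lit 54788096)) (I.mix (nat_lit 5750784) (nat_lit 23068672)))
  false (nat_lit 0)
def b0_6 : Bx := Bx.mk (St.mk (I.mix (nat_lit 13254656) (nat_lit 5931008)) (I.mix (nat_lit 6619136) (nat_lit 12681216)) (I.neg (nat_lit 73089024) (nat_lit 81362944)) (I.pos (nat_lit 260243456) (nat_lit 268353536)) (I.mix (nat_lit 38371328) (nat_lit 33964032)) (I.mix (nat_lit 23330816) (nat_lit 28164096)) (I.pos (nat_lit 491520) (nat_lit 13942784)))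
  true (nat_lit 0)
def b0_7 : Bx := Bx.mk (St.mk (I.pos (nat_lit 1900544) (nat_lit 62914560)) (I.neg (nat_lit 36306944) (nat_lit 78381056)) (I.neg (nat_lit 58228736) (nat_lit 102498304)) (I.pos (nat_lit 262062080) (nat_lit 303235072)) (I.mix (nat_lit 136921088) (nat_lit 60489728)) (I.mix (nat_lit 67371008) (nat_lit 82198528)) (I.mix (nat_lit 82542592) (nat_lit 74711040)))
  false (nat_lit 0)
def b0_8 : Bx := Bx.mk (St.mk (I.pos (nat_lit 125190144) (nat_lit 190382080)) (I.pos (nat_lit 15122432) (nat_lit 74153984)) (I.mix (nat_lit 27197440) (nat_lit 40517632)) (I.pos (nat_lit 363249664) (nat_lit 459489280)) (I.mix (nat_lit 154075136) (nat_lit 68403200)) (I.mix (nat_lit 118800384) (nat_lit 95617024)) (I.mix (nat_lit 126500864) (nat_lit 119144448)))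
  false (nat_lit 0)
def b0_9 : Bx := Bx.mk (St.mk (I.neg (nat_lit 1900544) (nat_lit 62914560)) (I.pos (nat_lit 36306944) (nat_lit 78381056)) (I.neg (nat_lit 58212352) (nat_lit 102514688)) (I.pos (nat_lit 262062080) (nat_lit 303235072)) (I.mix (nat_lit 60506112) (nat_lit 136937472)) (I.mix (nat_lit 82198528) (nat_lit 67371008)) (I.mix (nat_lit 82558976) (nat_lit 74727424)))
  true (nat_lit 0)
def b0_10 : Bx := Bx.mk (St.mk (I.mix (nat_lit 7716864) (nat_lit 6373376)) (I.mix (nat_lit 5488640) (nat_lit 10518528)) (I.neg (nat_lit 73023488) (nat_lit 81412096)) (I.pos (nat_lit 260210688) (nat_lit 268451840)) (I.mix (nat_lit 28508160) (nat_lit 34029568)) (I.mix (nat_lit 23445504) (nat_lit 27623424)) (I.pos (nat_lit 1556480) (nat_lit 12681216)))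
  true (nat_lit 0)
def b0_11 : Bx := Bx.mk (St.mk (I.pos (nat_lit 179847168) (nat_lit 228196352)) (I.mix (nat_lit 17793024) (nat_lit 40714240)) (I.neg (nat_lit 55246848) (nat_lit 165085184)) (I.pos (nat_lit 418889728) (nat_lit 482230272)) (I.mix (nat_lit 141885440) (nat_lit 54411264)) (I.mix (nat_lit 85852160) (nat_lit 82329600)) (I.mix (nat_lit 105119744) (nat_lit 162775040)))
  false (nat_lit 0)
def b0_12 : Bx := Bx.mk (St.mk (I.neg (nat_lit 4308992) (nat_lit 30507008)) (I.mix (nat_lit 12730368) (nat_lit 31997952)) (I.neg (nat_lit 71827456) (nat_lit 86671360)) (I.pos (nat_lit 259735552) (nat_lit 273235968)) (I.mix (nat_lit 69107712) (nat_lit 45613056)) (I.mix (nat_lit 48054272) (nat_lit 45694976)) (I.mix (nat_lit 11190272) (nat_lit 25149440)))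
  true (nat_lit 0)
def b0_13 : Bx := Bx.mk (St.mk (I.pos (nat_lit 4308992) (nat_lit 30507008)) (I.mix (nat_lit 31997952) (nat_lit 12730368)) (I.neg (nat_lit 71827456) (nat_lit 86671360)) (I.pos (nat_lit 259735552) (nat_lit 273235968)) (I.mix (nat_lit 45842432) (nat_lit 69107712)) (I.mix (nat_lit 45809664) (nat_lit 48054272)) (I.mix (nat_lit 11190272) (nat_lit 25149440)))
  false (nat_lit 0)
def b0_14 : Bx := Bx.mk (St.mk (I.mix (nat_lit 29573120) (nat_lit 229376)) (I.pos (nat_lit 10878976) (nat_lit 51970048)) (I.neg (nat_lit 74907648) (nat_lit 94453760)) (I.pos (nat_lit 259964928) (nat_lit 277807104)) (I.mix (nat_lit 45236224) (nat_lit 105791488)) (I.mix (nat_lit 82968576) (nat_lit 51249152)) (I.mix (nat_lit 30965760) (nat_lit 33669120)))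
  true (nat_lit 0)
def b0_15 : Bx := Bx.mk (St.mk (I.mix (nat_lit 229376) (nat_lit 29573120)) (I.neg (nat_lit 10878976) (nat_lit 51970048)) (I.neg (nat_lit 74907648) (nat_lit 94453760)) (I.pos (nat_lit 259964928) (nat_lit 277807104)) (I.mix (nat_lit 105791488) (nat_lit 45236224)) (I.mix (nat_lit 51249152) (nat_lit 82968576)) (I.mix (nat_lit 30965760) (nat_lit 33669120)))
  false (nat_lit 0)
def b0_16 : Bx := Bx.mk (St.mk (I.pos (nat_lit 37896192) (nat_lit 75399168)) (I.neg (nat_lit 14237696) (nat_lit 50429952)) (I.neg (nat_lit 46383104) (nat_lit 80019456)) (I.pos (nat_lit 271859712) (nat_lit 302039040)) (I.mix (nat_lit 94781440) (nat_lit 29474816)) (I.mix (nat_lit 34586624) (nat_lit 54378496)) (I.mix (nat_lit 37650432) (nat_lit 44531712)))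
  false (nat_lit 0)
def b0_17 : Bx := Bx.mk (St.mk (I.pos (nat_lit 131334144) (nat_lit 169230336)) (I.mix (nat_lit 19398656) (nat_lit 20054016)) (I.neg (nat_lit 19382272) (nat_lit 66895872)) (I.pos (nat_lit 346308608) (nat_lit 397475840)) (I.mix (nat_lit 54689792) (nat_lit 82591744)) (I.mix (nat_lit 63815680) (nat_lit 61046784)) (I.mix (nat_lit 75464704) (nat_lit 50003968)))
  false (nat_lit 0)
def b0_18 : Bx := Bx.mk (St.mk (I.neg (nat_lit 37896192) (nat_lit 75399168)) (I.pos (nat_lit 14237696) (nat_lit 50429952)) (I.neg (nat_lit 46383104) (nat_lit 80035840)) (I.pos (nat_lit 271859712) (nat_lit 302039040)) (I.mix (nat_lit 29425664) (nat_lit 94732288)) (I.mix (nat_lit 54378496) (nat_lit 34586624)) (I.mix (nat_lit 37650432) (nat_lit 44548096)))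
  true (nat_lit 0)
def b0_19 : Bx := Bx.mk (St.mk (I.pos (nat_lit 58163200) (nat_lit 117833728)) (I.neg (nat_lit 14172160) (nat_lit 53919744)) (I.neg (nat_lit 40550400) (nat_lit 80740352)) (I.pos (nat_lit 283344896) (nat_lit 335904768)) (I.mix (nat_lit 62717952) (nat_lit 34308096)) (I.mix (nat_lit 30818304) (nat_lit 32014336)) (I.mix (nat_lit 30244864) (nat_lit 28950528)))
  false (nat_lit 0)
def b0_20 : Bx := Bx.mk (St.mk (I.pos (nat_lit 84885504) (nat_lit 142753792)) (I.mix (nat_lit 28557312) (nat_lit 16662528)) (I.neg (nat_lit 16252928) (nat_lit 60342272)) (I.pos (nat_lit 302678016) (nat_lit 366460928)) (I.mix (nat_lit 56033280) (nat_lit 30638080)) (I.mix (nat_lit 32063488) (nat_lit 33636352)) (I.mix (nat_lit 32014336) (nat_lit 28966912)))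
  false (nat_lit 0)
def b0_21 : Bx := Bx.mk (St.mk (I.neg (nat_lit 58163200) (nat_lit 117833728)) (I.pos (nat_lit 14172160) (nat_lit 53919744)) (I.neg (nat_lit 40550400) (nat_lit 80740352)) (I.pos (nat_lit 283328512) (nat_lit 335921152)) (I.mix (nat_lit 34275328) (nat_lit 62717952)) (I.mix (nat_lit 32014336) (nat_lit 30818304)) (I.mix (nat_lit 30244864) (nat_lit 28950528)))
  true (nat_lit 0)
def b0_22 : Bx := Bx.mk (St.mk (I.pos (nat_lit 69173248) (nat_lit 109035520)) (I.neg (nat_lit 5259264) (nat_lit 36814848)) (I.neg (nat_lit 34357248) (nat_lit 67010560)) (I.pos (nat_lit 290226176) (nat_lit 328089600)) (I.mix (nat_lit 52084736) (nat_lit 15122432)) (I.mix (nat_lit 20430848) (nat_lit 25853952)) (I.mix (nat_lit 20283392) (nat_lit 22970368)))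
  false (nat_lit 0)
def b0_23 : Bx := Bx.mk (St.mk (I.pos (nat_lit 93552640) (nat_lit 136019968)) (I.neg (nat_lit 1802240) (nat_lit 35127296)) (I.neg (nat_lit 32620544) (nat_lit 68173824)) (I.pos (nat_lit 309231616) (nat_lit 355303424)) (I.mix (nat_lit 41959424) (nat_lit 37978112)) (I.mix (nat_lit 27049984) (nat_lit 31408128)) (I.mix (nat_lit 29343744) (nat_lit 26918912)))
  false (nat_lit 0)
def b0_24 : Bx := Bx.mk (St.mk (I.neg (nat_lit 69124096) (nat_lit 110477312)) (I.pos (nat_lit 4177920) (nat_lit 36814848)) (I.neg (nat_lit 33636352) (nat_lit 67010560)) (I.pos (nat_lit 290177024) (nat_lit 330088448)) (I.mix (nat_lit 16580608) (nat_lit 50741248)) (I.mix (nat_lit 26542080) (nat_lit 22036480)) (I.mix (nat_lit 21741568) (nat_lit 23232512)))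
  true (nat_lit 0)
def b0_25 : Bx := Bx.mk (St.mk (I.pos (nat_lit 23740416) (nat_lit 65126400)) (I.neg (nat_lit 24625152) (nat_lit 74661888)) (I.neg (nat_lit 54411264) (nat_lit 97484800)) (I.pos (nat_lit 267517952) (nat_lit 302940160)) (I.mix (nat_lit 121913344) (nat_lit 66387968)) (I.mix (nat_lit 47398912) (nat_lit 86704128)) (I.mix (nat_lit 56885248) (nat_lit 80052224)))
  false (nat_lit 0)
def b0_26 : Bx := Bx.mk (St.mk (I.pos (nat_lit 126763008) (nat_lit 180404224)) (I.pos (nat_lit 704512) (nat_lit 56000512)) (I.mix (nat_lit 49643520) (nat_lit 25706496)) (I.pos (nat_lit 360710144) (nat_lit 419069952)) (I.mix (nat_lit 134856704) (nat_lit 109363200)) (I.mix (nat_lit 126238720) (nat_lit 82132992)) (I.mix (nat_lit 127877120) (nat_lit 67190784)))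
  false (nat_lit 0)
def b0_27 : Bx := Bx.mk (St.mk (I.neg (nat_lit 23724032) (nat_lit 65126400)) (I.pos (nat_lit 24625152) (nat_lit 74678272)) (I.neg (nat_lit 54411264) (nat_lit 97484800)) (I.pos (nat_lit 267517952) (nat_lit 302956544)) (I.mix (nat_lit 66453504) (nat_lit 121913344)) (I.mix (nat_lit 86704128) (nat_lit 47415296)) (I.mix (nat_lit 56901632) (nat_lit 80068608)))
  true (nat_lit 0)
def b0_28 : Bx := Bx.mk (St.mk (I.pos (nat_lit 43286528) (nat_lit 77889536)) (I.neg (nat_lit 15319040) (nat_lit 50855936)) (I.neg (nat_lit 46399488) (nat_lit 79560704)) (I.pos (nat_lit 274464768) (nat_lit 304693248)) (I.mix (nat_lit 74612736) (nat_lit 41189376)) (I.mix (nat_lit 35241984) (nat_lit 51118080)) (I.mix (nat_lit 36192256) (nat_lit 43302912)))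
  false (nat_lit 0)
def b0_29 : Bx := Bx.mk (St.mk (I.pos (nat_lit 125730816) (nat_lit 162873344)) (I.mix (nat_lit 19070976) (nat_lit 18743296)) (I.neg (nat_lit 18268160) (nat_lit 65421312)) (I.pos (nat_lit 344211456) (nat_lit 389398528)) (I.mix (nat_lit 69795840) (nat_lit 58195968)) (I.mix (nat_lit 61767680) (nat_lit 50855936)) (I.mix (nat_lit 67256320) (nat_lit 45875200)))
  false (nat_lit 0)
def b0_30 : Bx := Bx.mk (St.mk (I.neg (nat_lit 43270144) (nat_lit 77905920)) (I.pos (nat_lit 15319040) (nat_lit 50872320)) (I.neg (nat_lit 46399488) (nat_lit 79560704)) (I.pos (nat_lit 274464768) (nat_lit 304758784)) (I.mix (nat_lit 41189376) (nat_lit 74612736)) (I.mix (nat_lit 51118080) (nat_lit 35241984)) (I.mix (nat_lit 36192256) (nat_lit 43253760)))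
  true (nat_lit 0)
def b0_31 : Bx := Bx.mk (St.mk (I.pos (nat_lit 59801600) (nat_lit 121962496)) (I.neg (nat_lit 10354688) (nat_lit 54542336)) (I.neg (nat_lit 37322752) (nat_lit 81444864)) (I.pos (nat_lit 285114368) (nat_lit 340197376)) (I.mix (nat_lit 58671104) (nat_lit 43679744)) (I.mix (nat_lit 25526272) (nat_lit 40583168)) (I.mix (nat_lit 27049984) (nat_lit 37617664)))
  false (nat_lit 0)
def b0_32 : Bx := Bx.mk (St.mk (I.pos (nat_lit 81756160) (nat_lit 138493952)) (I.mix (nat_lit 32751616) (nat_lit 16908288)) (I.neg (nat_lit 14893056) (nat_lit 63668224)) (I.pos (nat_lit 300433408) (nat_lit 360660992)) (I.mix (nat_lit 63127552) (nat_lit 35504128)) (I.mix (nat_lit 43073536) (nat_lit 30408704)) (I.mix (nat_lit 39124992) (nat_lit 24870912)))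
  false (nat_lit 0)
def b0_33 : Bx := Bx.mk (St.mk (I.neg (nat_lit 59801600) (nat_lit 121962496)) (I.pos (nat_lit 6897664) (nat_lit 54542336)) (I.neg (nat_lit 35635200) (nat_lit 81444864)) (I.pos (nat_lit 285114368) (nat_lit 340197376)) (I.mix (nat_lit 43679744) (nat_lit 58671104)) (I.mix (nat_lit 40583168) (nat_lit 25526272)) (I.mix (nat_lit 27049984) (nat_lit 37617664)))
  true (nat_lit 0)
def b0_34 : Bx := Bx.mk (St.mk (I.pos (nat_lit 77070336) (nat_lit 113229824)) (I.neg (nat_lit 2162688) (nat_lit 32096256)) (I.neg (nat_lit 31948800) (nat_lit 63897600)) (I.pos (nat_lit 295813120) (nat_lit 332955648)) (I.mix (nat_lit 44580864) (nat_lit 17793024)) (I.mix (nat_lit 14974976) (nat_lit 24117248)) (I.mix (nat_lit 16498688) (nat_lit 21151744)))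
  false (nat_lit 0)
def b0_35 : Bx := Bx.mk (St.mk (I.pos (nat_lit 87425024) (nat_lit 133316608)) (I.neg (nat_lit 8994816) (nat_lit 40370176)) (I.neg (nat_lit 38649856) (nat_lit 72892416)) (I.pos (nat_lit 303136768) (nat_lit 351993856)) (I.mix (nat_lit 44646400) (nat_lit 27115520)) (I.mix (nat_lit 27279360) (nat_lit 24199168)) (I.mix (nat_lit 27557888) (nat_lit 20742144)))
  false (nat_lit 0)
def b0_36 : Bx := Bx.mk (St.mk (I.neg (nat_lit 85770240) (nat_lit 113164288)) (I.pos (nat_lit 2048000) (nat_lit 26394624)) (I.neg (nat_lit 31834112) (nat_lit 59965440)) (I.pos (nat_lit 302858240) (nat_lit 332873728)) (I.mix (nat_lit 23904256) (nat_lit 45678592)) (I.mix (nat_lit 28278784) (nat_lit 20676608)) (I.mix (nat_lit 21069824) (nat_lit 24199168)))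
  true (nat_lit 0)
def b0_37 : Bx := Bx.mk (St.mk (I.neg (nat_lit 99631104) (nat_lit 120193024)) (I.pos (nat_lit 4505600) (nat_lit 24297472)) (I.neg (nat_lit 33603584) (nat_lit 58490880)) (I.pos (nat_lit 314687488) (nat_lit 339116032)) (I.mix (nat_lit 23986176) (nat_lit 32096256)) (I.mix (nat_lit 25460736) (nat_lit 15056896)) (I.mix (nat_lit 16334848) (nat_lit 21512192)))
  true (nat_lit 0)
def b0_38 : Bx := Bx.mk (St.mk (I.neg (nat_lit 106954752) (nat_lit 119341056)) (I.pos (nat_lit 9011200) (nat_lit 20152320)) (I.neg (nat_lit 37879808) (nat_lit 55214080)) (I.pos (nat_lit 320585728) (nat_lit 338001920)) (I.mix (nat_lit 11927552) (nat_lit 20447232)) (I.mix (nat_lit 12861440) (nat_lit 8372224)) (I.mix (nat_lit 10272768) (nat_lit 10240000)))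
  true (nat_lit 0)
def b0_39 : Bx := Bx.mk (St.mk (I.pos (nat_lit 43974656) (nat_lit 62177280)) (I.neg (nat_lit 31424512) (nat_lit 47218688)) (I.neg (nat_lit 59064320) (nat_lit 76611584)) (I.pos (nat_lit 276660224) (nat_lit 294273024)) (I.mix (nat_lit 52051968) (nat_lit 12435456)) (I.mix (nat_lit 12025856) (nat_lit 33161216)) (I.mix (nat_lit 17743872) (nat_lit 28262400)))
  false (nat_lit 0)
def b0_40 : Bx := Bx.mk (St.mk (I.pos (nat_lit 145670144) (nat_lit 157630464)) (I.pos (nat_lit 8601600) (nat_lit 18890752)) (I.neg (nat_lit 23363584) (nat_lit 37617664)) (I.pos (nat_lit 370884608) (nat_lit 386629632)) (I.mix (nat_lit 18857984) (nat_lit 7880704)) (I.mix (nat_lit 15745024) (nat_lit 4046848)) (I.mix (nat_lit 19660800) (nat_lit 606208)))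
  false (nat_lit 0)
def b0_41 : Bx := Bx.mk (St.mk (I.neg (nat_lit 43974656) (nat_lit 62177280)) (I.pos (nat_lit 31424512) (nat_lit 47218688)) (I.neg (nat_lit 59064320) (nat_lit 76627968)) (I.pos (nat_lit 276660224) (nat_lit 294273024)) (I.mix (nat_lit 12435456) (nat_lit 52051968)) (I.mix (nat_lit 33161216) (nat_lit 12025856)) (I.mix (nat_lit 17743872) (nat_lit 28262400)))
  true (nat_lit 0)
def b0_42 : Bx := Bx.mk (St.mk (I.pos (nat_lit 59965440) (nat_lit 78938112)) (I.neg (nat_lit 30638080) (nat_lit 45170688)) (I.neg (nat_lit 55918592) (nat_lit 73760768)) (I.pos (nat_lit 284934144) (nat_lit 304267264)) (I.neg (nat_lit 1589248) (nat_lit 36683776)) (I.mix (nat_lit 3768320) (nat_lit 17137664)) (I.mix (nat_lit 7749632) (nat_lit 14778368)))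
  false (nat_lit 0)
def b0_43 : Bx := Bx.mk (St.mk (I.pos (nat_lit 120176640) (nat_lit 140918784)) (I.mix (nat_lit 7602176) (nat_lit 10616832)) (I.neg (nat_lit 23101440) (nat_lit 47841280)) (I.pos (nat_lit 337100800) (nat_lit 365051904)) (I.mix (nat_lit 47923200) (nat_lit 19890176)) (I.mix (nat_lit 33619968) (nat_lit 21905408)) (I.mix (nat_lit 32751616) (nat_lit 19169280)))
  false (nat_lit 0)
def b0_44 : Bx := Bx.mk (St.mk (I.neg (nat_lit 59965440) (nat_lit 78938112)) (I.pos (nat_lit 30638080) (nat_lit 45170688)) (I.neg (nat_lit 55918592) (nat_lit 73760768)) (I.pos (nat_lit 284934144) (nat_lit 304267264)) (I.pos (nat_lit 1572864) (nat_lit 36683776)) (I.mix (nat_lit 17137664) (nat_lit 3768320)) (I.mix (nat_lit 7749632) (nat_lit 14778368)))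
  true (nat_lit 0)
def b0_45 : Bx := Bx.mk (St.mk (I.pos (nat_lit 170983424) (nat_lit 225050624)) (I.pos (nat_lit 19873792) (nat_lit 85147648)) (I.mix (nat_lit 88342528) (nat_lit 18661376)) (I.pos (nat_lit 424591360) (nat_lit 503267328)) (I.mix (nat_lit 127287296) (nat_lit 108363776)) (I.mix (nat_lit 98664448) (nat_lit 91013120)) (I.mix (nat_lit 186580992) (nat_lit 115474432)))
  false (nat_lit 0)
def b0_46 : Bx := Bx.mk (St.mk (I.neg (nat_lit 5455872) (nat_lit 30507008)) (I.mix (nat_lit 14024704) (nat_lit 32702464)) (I.neg (nat_lit 71958528) (nat_lit 86851584)) (I.pos (nat_lit 259964928) (nat_lit 273285120)) (I.mix (nat_lit 60817408) (nat_lit 46415872)) (I.mix (nat_lit 42926080) (nat_lit 46759936)) (I.mix (nat_lit 11239424) (nat_lit 23707648)))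
  true (nat_lit 0)
def t0 : BTr := (BTr.n (BTr.n (BTr.n (BTr.n (BTr.n (BTr.b b0_0) (BTr.b b0_1)) (BTr.n (BTr.b b0_2) (BTr.n (BTr.b b0_3) (BTr.b b0_4)))) (BTr.n (BTr.n (BTr.b b0_5) (BTr.n (BTr.b b0_6) (BTr.b b0_7))) (BTr.n (BTr.b b0_8) (BTr.n (BTr.b b0_9) (BTr.b b0_10))))) (BTr.n (BTr.n (BTr.n (BTr.b b0_11) (BTr.n (BTr.b b0_12) (BTr.b b0_13))) (BTr.n (BTr.b b0_14) (BTr.n (BTr.b b0_15) (BTr.b b0_16)))) (BTr.n (BTr.n (BTr.b b0_17) (BTr.n (BTr.b b0_18) (BTr.b b0_19))) (BTr.n (BTr.b b0_20) (BTr.n (BTr.b b0_21) (BTr.b b0_22)))))) (BTr.n (BTr.n (BTr.n (BTr.n (BTr.b b0_23) (BTr.n (BTr.b b0_24) (BTr.b b0_25))) (BTr.n (BTr.b b0_26) (BTr.n (BTr.b b0_27) (BTr.b b0_28)))) (BTr.n (BTr.n (BTr.b b0_29) (BTr.n (BTr.b b0_30) (BTr.b b0_31))) (BTr.n (BTr.b b0_32) (BTr.n (BTr.b b0_33) (BTr.b b0_34))))) (BTr.n (BTr.n (BTr.n (BTr.b b0_35) (BTr.n (BTr.b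 b0_36) (BTr.b b0_37))) (BTr.n (BTr.b b0_38) (BTr.n (BTr.b b0_39) (BTr.b b0_40)))) (BTr.n (BTr.n (BTr.b b0_41) (BTr.n (BTr.b b0_42) (BTr.b b0_43))) (BTr.n (BTr.b b0_44) (BTr.n (BTr.b b0_45) (BTr.b b0_46)))))))
namespace T0
def l0 : Tr := Tr.L (Pth.l (Pth.l (Pth.l (Pth.l (Pth.l Pth.z)))))
def l1 : Tr := Tr.L (Pth.l (Pth.l (Pth.l (Pth.l (Pth.r Pth.z)))))
def l2 : Tr := Tr.L (Pth.l (Pth.l (Pth.l (Pth.r (Pth.l Pth.z)))))
def l3 : Tr := Tr.L (Pth.l (Pth.l (Pth.l (Pth.r (Pth.r (Pth.l Pth.z))))))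
def l4 : Tr := Tr.L (Pth.l (Pth.l (Pth.l (Pth.r (Pth.r (Pth.r Pth.z))))))
def l5 : Tr := Tr.L (Pth.l (Pth.l (Pth.r (Pth.l (Pth.l Pth.z)))))
def l6 : Tr := Tr.L (Pth.l (Pth.l (Pth.r (Pth.l (Pth.r (Pth.l Pth.z))))))
def l7 : Tr := Tr.L (Pth.l (Pth.l (Pth.r (Pth.l (Pth.r (Pth.r Pth.z))))))
def l8 : Tr := Tr.L (Pth.l (Pth.l (Pth.r (Pth.r (Pth.l Pth.z)))))
def l9 : Tr := Tr.L (Pth.l (Pth.l (Pth.r (Pth.r (Pth.r (Pth.l Pth.z))))))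
def l10 : Tr := Tr.L (Pth.l (Pth.l (Pth.r (Pth.r (Pth.r (Pth.r Pth.z))))))
def l11 : Tr := Tr.L (Pth.l (Pth.r (Pth.l (Pth.l (Pth.l Pth.z)))))
def l12 : Tr := Tr.L (Pth.l (Pth.r (Pth.l (Pth.l (Pth.r (Pth.l Pth.z))))))
def l13 : Tr := Tr.L (Pth.l (Pth.r (Pth.l (Pth.l (Pth.r (Pth.r Pth.z))))))
def l14 : Tr := Tr.L (Pth.l (Pth.r (Pth.l (Pth.r (Pth.l Pth.z)))))
def l15 : Tr := Tr.L (Pth.l (Pth.r (Pth.l (Pth.r (Pth.r (Pth.l Pth.z))))))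
def l16 : Tr := Tr.L (Pth.l (Pth.r (Pth.l (Pth.r (Pth.r (Pth.r Pth.z))))))
def l17 : Tr := Tr.L (Pth.l (Pth.r (Pth.r (Pth.l (Pth.l Pth.z)))))
def l18 : Tr := Tr.L (Pth.l (Pth.r (Pth.r (Pth.l (Pth.r (Pth.l Pth.z))))))
def l19 : Tr := Tr.L (Pth.l (Pth.r (Pth.r (Pth.l (Pth.r (Pth.r Pth.z))))))
def l20 : Tr := Tr.L (Pth.l (Pth.r (Pth.r (Pth.r (Pth.l Pth.z)))))
def l21 : Tr := Tr.L (Pth.l (Pth.r (Pth.r (Pth.r (Pth.r (Pth.l Pth.z))))))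
def l22 : Tr := Tr.L (Pth.l (Pth.r (Pth.r (Pth.r (Pth.r (Pth.r Pth.z))))))
def l23 : Tr := Tr.L (Pth.r (Pth.l (Pth.l (Pth.l (Pth.l Pth.z)))))
def l24 : Tr := Tr.L (Pth.r (Pth.l (Pth.l (Pth.l (Pth.r (Pth.l Pth.z))))))
def l25 : Tr := Tr.L (Pth.r (Pth.l (Pth.l (Pth.l (Pth.r (Pth.r Pth.z))))))
def l26 : Tr := Tr.L (Pth.r (Pth.l (Pth.l (Pth.r (Pth.l Pth.z)))))
def l27 : Tr := Tr.L (Pth.r (Pth.l (Pth.l (Pth.r (Pth.r (Pth.l Pth.z))))))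
def l28 : Tr := Tr.L (Pth.r (Pth.l (Pth.l (Pth.r (Pth.r (Pth.r Pth.z))))))
def l29 : Tr := Tr.L (Pth.r (Pth.l (Pth.r (Pth.l (Pth.l Pth.z)))))
def l30 : Tr := Tr.L (Pth.r (Pth.l (Pth.r (Pth.l (Pth.r (Pth.l Pth.z))))))
def l31 : Tr := Tr.L (Pth.r (Pth.l (Pth.r (Pth.l (Pth.r (Pth.r Pth.z))))))
def l32 : Tr := Tr.L (Pth.r (Pth.l (Pth.r (Pth.r (Pth.l Pth.z)))))
def l33 : Tr := Tr.L (Pth.r (Pth.l (Pth.r (Pth.r (Pth.r (Pth.l Pth.z))))))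
def l34 : Tr := Tr.L (Pth.r (Pth.l (Pth.r (Pth.r (Pth.r (Pth.r Pth.z))))))
def l35 : Tr := Tr.L (Pth.r (Pth.r (Pth.l (Pth.l (Pth.l Pth.z)))))
def l36 : Tr := Tr.L (Pth.r (Pth.r (Pth.l (Pth.l (Pth.r (Pth.l Pth.z))))))
def l37 : Tr := Tr.L (Pth.r (Pth.r (Pth.l (Pth.l (Pth.r (Pth.r Pth.z))))))
def l38 : Tr := Tr.L (Pth.r (Pth.r (Pth.l (Pth.r (Pth.l Pth.z)))))
def l39 : Tr := Tr.L (Pth.r (Pth.r (Pth.l (Pth.r (Pth.r (Pth.l Pth.z))))))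
def l40 : Tr := Tr.L (Pth.r (Pth.r (Pth.l (Pth.r (Pth.r (Pth.r Pth.z))))))
def l41 : Tr := Tr.L (Pth.r (Pth.r (Pth.r (Pth.l (Pth.l Pth.z)))))
def l42 : Tr := Tr.L (Pth.r (Pth.r (Pth.r (Pth.l (Pth.r (Pth.l Pth.z))))))
def l43 : Tr := Tr.L (Pth.r (Pth.r (Pth.r (Pth.l (Pth.r (Pth.r Pth.z))))))
def l44 : Tr := Tr.L (Pth.r (Pth.r (Pth.r (Pth.r (Pth.l Pth.z)))))
def l45 : Tr := Tr.L (Pth.r (Pth.r (Pth.r (Pth.r (Pth.r (Pth.l Pth.z))))))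
def l46 : Tr := Tr.L (Pth.r (Pth.r (Pth.r (Pth.r (Pth.r (Pth.r Pth.z))))))
end T0
def b1_0 : Bx := Bx.mk (St.mk (I.pos (nat_lit 156401664) (nat_lit 218988544)) (I.mix (nat_lit 1687552) (nat_lit 50544640)) (I.mix (nat_lit 2637824) (nat_lit 84197376)) (I.pos (nat_lit 147881984) (nat_lit 267190272)) (I.mix (nat_lit 110936064) (nat_lit 65454080)) (I.mix (nat_lit 68304896) (nat_lit 62373888)) (I.mix (nat_lit 107773952) (nat_lit 86425600)))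
  false (nat_lit 0)
def b1_1 : Bx := Bx.mk (St.mk (I.pos (nat_lit 94224384) (nat_lit 144834560)) (I.neg (nat_lit 14270464) (nat_lit 51675136)) (I.neg (nat_lit 19644416) (nat_lit 48644096)) (I.pos (nat_lit 97239040) (nat_lit 145784832)) (I.mix (nat_lit 76513280) (nat_lit 47169536)) (I.mix (nat_lit 41435136) (nat_lit 48365568)) (I.mix (nat_lit 34668544) (nat_lit 45481984)))
  false (nat_lit 0)
def b1_2 : Bx := Bx.mk (St.mk (I.mix (nat_lit 21200896) (nat_lit 105578496)) (I.pos (nat_lit 4161536) (nat_lit 28950528)) (I.mix (nat_lit 5406720) (nat_lit 17350656)) (I.pos (nat_lit 43335680) (nat_lit 107446272)) (I.mix (nat_lit 40255488) (nat_lit 44400640)) (I.mix (nat_lit 33652736) (nat_lit 26165248)) (I.mix (nat_lit 24412160) (nat_lit 17006592)))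
  false (nat_lit 0)
def b1_3 : Bx := Bx.mk (St.mk (I.mix (nat_lit 21610496) (nat_lit 74366976)) (I.neg (nat_lit 4177920) (nat_lit 29458432)) (I.mix (nat_lit 16236544) (nat_lit 2228224)) (I.pos (nat_lit 44613632) (nat_lit 85901312)) (I.mix (nat_lit 34439168) (nat_lit 36749312)) (I.mix (nat_lit 21774336) (nat_lit 28131328)) (I.mix (nat_lit 11730944) (nat_lit 15761408)))
  false (nat_lit 0)
def b1_4 : Bx := Bx.mk (St.mk (I.pos (nat_lit 147701760) (nat_lit 193445888)) (I.mix (nat_lit 14876672) (nat_lit 44613632)) (I.pos (nat_lit 3424256) (nat_lit 77070336)) (I.pos (nat_lit 141312000) (nat_lit 221790208)) (I.mix (nat_lit 131088384) (nat_lit 34045952)) (I.mix (nat_lit 107347968) (nat_lit 56246272)) (I.mix (nat_lit 115113984) (nat_lit 54362112)))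
  false (nat_lit 0)
def b1_5 : Bx := Bx.mk (St.mk (I.pos (nat_lit 91176960) (nat_lit 132612096)) (I.neg (nat_lit 6979584) (nat_lit 48775168)) (I.neg (nat_lit 12009472) (nat_lit 46841856)) (I.pos (nat_lit 81657856) (nat_lit 138084352)) (I.mix (nat_lit 87588864) (nat_lit 22151168)) (I.mix (nat_lit 32260096) (nat_lit 73728000)) (I.mix (nat_lit 22675456) (nat_lit 52264960)))
  false (nat_lit 0)
def b1_6 : Bx := Bx.mk (St.mk (I.mix (nat_lit 30654464) (nat_lit 102531072)) (I.pos (nat_lit 458752) (nat_lit 32161792)) (I.mix (nat_lit 6651904) (nat_lit 22544384)) (I.pos (nat_lit 43565056) (nat_lit 106676224)) (I.mix (nat_lit 57442304) (nat_lit 22151168)) (I.mix (nat_lit 45678592) (nat_lit 26066944)) (I.mix (nat_lit 24690688) (nat_lit 16400384)))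
  false (nat_lit 0)
def b1_7 : Bx := Bx.mk (St.mk (I.mix (nat_lit 29949952) (nat_lit 65716224)) (I.neg (nat_lit 3997696) (nat_lit 30572544)) (I.mix (nat_lit 16072704) (nat_lit 2850816)) (I.pos (nat_lit 44531712) (nat_lit 82509824)) (I.mix (nat_lit 46940160) (nat_lit 21659648)) (I.mix (nat_lit 16777216) (nat_lit 34897920)) (I.mix (nat_lit 8667136) (nat_lit 12943360)))
  false (nat_lit 0)
def b1_8 : Bx := Bx.mk (St.mk (I.pos (nat_lit 188776448) (nat_lit 227311616)) (I.mix (nat_lit 12140544) (nat_lit 25444352)) (I.mix (nat_lit 35504128) (nat_lit 33619968)) (I.pos (nat_lit 213286912) (nat_lit 274841600)) (I.mix (nat_lit 127401984) (nat_lit 17154048)) (I.mix (nat_lit 61259776) (nat_lit 64094208)) (I.mix (nat_lit 104022016) (nat_lit 117309440)))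
  false (nat_lit 0)
def b1_9 : Bx := Bx.mk (St.mk (I.pos (nat_lit 120799232) (nat_lit 150323200)) (I.neg (nat_lit 3522560) (nat_lit 35225600)) (I.neg (nat_lit 196608) (nat_lit 28622848)) (I.pos (nat_lit 116228096) (nat_lit 149602304)) (I.mix (nat_lit 81231872) (nat_lit 17367040)) (I.mix (nat_lit 29556736) (nat_lit 46022656)) (I.mix (nat_lit 32849920) (nat_lit 45301760)))
  false (nat_lit 0)
def b1_10 : Bx := Bx.mk (St.mk (I.mix (nat_lit 14467072) (nat_lit 106463232)) (I.mix (nat_lit 5783552) (nat_lit 11042816)) (I.mix (nat_lit 9912320) (nat_lit 3670016)) (I.pos (nat_lit 43466752) (nat_lit 107151360)) (I.mix (nat_lit 51806208) (nat_lit 14123008)) (I.mix (nat_lit 24592384) (nat_lit 25706496)) (I.mix (nat_lit 17940480) (nat_lit 19742720)))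
  false (nat_lit 0)
def b1_11 : Bx := Bx.mk (St.mk (I.mix (nat_lit 12845056) (nat_lit 74301440)) (I.mix (nat_lit 9994240) (nat_lit 3457024)) (I.mix (nat_lit 4685824) (nat_lit 2293760)) (I.pos (nat_lit 44154880) (nat_lit 85180416)) (I.mix (nat_lit 41664512) (nat_lit 11304960)) (I.mix (nat_lit 18907136) (nat_lit 22200320)) (I.mix (nat_lit 10665984) (nat_lit 11730944)))
  false (nat_lit 0)
def b1_12 : Bx := Bx.mk (St.mk (I.pos (nat_lit 153747456) (nat_lit 184254464)) (I.neg (nat_lit 4390912) (nat_lit 41500672)) (I.mix (nat_lit 37814272) (nat_lit 10698752)) (I.pos (nat_lit 150405120) (nat_lit 201687040)) (I.mix (nat_lit 65912832) (nat_lit 80855040)) (I.mix (nat_lit 76627968) (nat_lit 61210624)) (I.mix (nat_lit 84115456) (nat_lit 61652992)))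
  false (nat_lit 3666153)
def b1_13 : Bx := Bx.mk (St.mk (I.pos (nat_lit 101531648) (nat_lit 128466944)) (I.mix (nat_lit 13549568) (nat_lit 9519104)) (I.mix (nat_lit 18677760) (nat_lit 1294336)) (I.pos (nat_lit 87343104) (nat_lit 129384448)) (I.mix (nat_lit 34963456) (nat_lit 59424768)) (I.mix (nat_lit 41074688) (nat_lit 40665088)) (I.mix (nat_lit 31686656) (nat_lit 29048832)))
  false (nat_lit 0)
def b1_14 : Bx := Bx.mk (St.mk (I.mix (nat_lit 29655040) (nat_lit 93765632)) (I.mix (nat_lit 13025280) (nat_lit 6504448)) (I.mix (nat_lit 6946816) (nat_lit 6275072)) (I.pos (nat_lit 44023808) (nat_lit 97976320)) (I.mix (nat_lit 22331392) (nat_lit 42778624)) (I.mix (nat_lit 29294592) (nat_lit 25575424)) (I.mix (nat_lit 16924672) (nat_lit 14123008)))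
  false (nat_lit 0)
def b1_15 : Bx := Bx.mk (St.mk (I.mix (nat_lit 29474816) (nat_lit 57819136)) (I.mix (nat_lit 7962624) (nat_lit 2326528)) (I.neg (nat_lit 458752) (nat_lit 7487488)) (I.pos (nat_lit 44285952) (nat_lit 77447168)) (I.mix (nat_lit 14876672) (nat_lit 19464192)) (I.mix (nat_lit 10436608) (nat_lit 11862016)) (I.mix (nat_lit 4800512) (nat_lit 4276224)))
  false (nat_lit 0)
def b1_16 : Bx := Bx.mk (St.mk (I.pos (nat_lit 180928512) (nat_lit 224051200)) (I.pos (nat_lit 8896512) (nat_lit 47874048)) (I.pos (nat_lit 9060352) (nat_lit 77447168)) (I.pos (nat_lit 208453632) (nat_lit 277020672)) (I.mix (nat_lit 106446848) (nat_lit 82214912)) (I.mix (nat_lit 92012544) (nat_lit 70778880)) (I.mix (nat_lit 161906688) (nat_lit 106758144)))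
  false (nat_lit 0)
def b1_17 : Bx := Bx.mk (St.mk (I.pos (nat_lit 113065984) (nat_lit 148258816)) (I.neg (nat_lit 13910016) (nat_lit 49938432)) (I.neg (nat_lit 12730368) (nat_lit 45432832)) (I.pos (nat_lit 111656960) (nat_lit 150044672)) (I.mix (nat_lit 71614464) (nat_lit 56770560)) (I.mix (nat_lit 46268416) (nat_lit 61407232)) (I.mix (nat_lit 39010304) (nat_lit 62734336)))
  false (nat_lit 0)
def b1_18 : Bx := Bx.mk (St.mk (I.mix (nat_lit 20905984) (nat_lit 107610112)) (I.pos (nat_lit 2260992) (nat_lit 23609344)) (I.mix (nat_lit 5095424) (nat_lit 12566528)) (I.pos (nat_lit 43909120) (nat_lit 109199360)) (I.mix (nat_lit 33439744) (nat_lit 45645824)) (I.mix (nat_lit 40173568) (nat_lit 26198016)) (I.mix (nat_lit 31260672) (nat_lit 16809984)))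
  false (nat_lit 0)
def b1_19 : Bx := Bx.mk (St.mk (I.mix (nat_lit 13598720) (nat_lit 75366400)) (I.neg (nat_lit 1392640) (nat_lit 24526848)) (I.mix (nat_lit 12500992) (nat_lit 2736128)) (I.pos (nat_lit 44171264) (nat_lit 86491136)) (I.mix (nat_lit 31080448) (nat_lit 39403520)) (I.mix (nat_lit 22102016) (nat_lit 34750464)) (I.mix (nat_lit 11517952) (nat_lit 19972096)))
  false (nat_lit 0)
def b1_20 : Bx := Bx.mk (St.mk (I.pos (nat_lit 149078016) (nat_lit 186728448)) (I.mix (nat_lit 21921792) (nat_lit 13402112)) (I.mix (nat_lit 9420800) (nat_lit 37011456)) (I.pos (nat_lit 143507456) (nat_lit 202899456)) (I.mix (nat_lit 116359168) (nat_lit 47808512)) (I.mix (nat_lit 111296512) (nat_lit 46940160)) (I.mix (nat_lit 118292480) (nat_lit 50741248)))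
  false (nat_lit 0)
def b1_21 : Bx := Bx.mk (St.mk (I.pos (nat_lit 92422144) (nat_lit 126681088)) (I.neg (nat_lit 3342336) (nat_lit 26935296)) (I.neg (nat_lit 7503872) (nat_lit 29917184)) (I.pos (nat_lit 85868544) (nat_lit 128450560)) (I.mix (nat_lit 80773120) (nat_lit 32210944)) (I.mix (nat_lit 31129600) (nat_lit 74399744)) (I.mix (nat_lit 25165824) (nat_lit 52576256)))
  false (nat_lit 0)
def b1_22 : Bx := Bx.mk (St.mk (I.mix (nat_lit 31227904) (nat_lit 94257152)) (I.mix (nat_lit 3833856) (nat_lit 16433152)) (I.mix (nat_lit 4833280) (nat_lit 12877824)) (I.pos (nat_lit 43958272) (nat_lit 98795520)) (I.mix (nat_lit 53100544) (nat_lit 25952256)) (I.mix (nat_lit 47480832) (nat_lit 20889600)) (I.mix (nat_lit 25739264) (nat_lit 12713984)))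
  false (nat_lit 0)
def b1_23 : Bx := Bx.mk (St.mk (I.mix (nat_lit 30654464) (nat_lit 63176704)) (I.neg (nat_lit 3112960) (nat_lit 17285120)) (I.mix (nat_lit 11485184) (nat_lit 704512)) (I.pos (nat_lit 44498944) (nat_lit 78544896)) (I.mix (nat_lit 41598976) (nat_lit 16547840)) (I.mix (nat_lit 14024704) (nat_lit 35700736)) (I.mix (nat_lit 7372800) (nat_lit 13025280)))
  false (nat_lit 0)
def b1_24 : Bx := Bx.mk (St.mk (I.mix (nat_lit 44335104) (nat_lit 80691200)) (I.mix (nat_lit 12992512) (nat_lit 6520832)) (I.mix (nat_lit 6438912) (nat_lit 3194880)) (I.pos (nat_lit 44253184) (nat_lit 86114304)) (I.mix (nat_lit 42057728) (nat_lit 12877824)) (I.mix (nat_lit 19316736) (nat_lit 22413312)) (I.mix (nat_lit 10878976) (nat_lit 11829248)))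
  false (nat_lit 0)
def b1_25 : Bx := Bx.mk (St.mk (I.mix (nat_lit 42483712) (nat_lit 16859136)) (I.mix (nat_lit 4243456) (nat_lit 8437760)) (I.neg (nat_lit 819200) (nat_lit 6291456)) (I.pos (nat_lit 44630016) (nat_lit 71630848)) (I.mix (nat_lit 22282240) (nat_lit 13484032)) (I.mix (nat_lit 10682368) (nat_lit 11173888)) (I.mix (nat_lit 3751936) (nat_lit 2850816)))
  false (nat_lit 0)
def b1_26 : Bx := Bx.mk (St.mk (I.pos (nat_lit 196378624) (nat_lit 227393536)) (I.pos (nat_lit 5226496) (nat_lit 25706496)) (I.pos (nat_lit 2637824) (nat_lit 34111488)) (I.pos (nat_lit 229195776) (nat_lit 275300352)) (I.mix (nat_lit 79200256) (nat_lit 17825792)) (I.mix (nat_lit 42975232) (nat_lit 35258368)) (I.mix (nat_lit 74104832) (nat_lit 59064320)))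
  false (nat_lit 0)
def b1_27 : Bx := Bx.mk (St.mk (I.pos (nat_lit 121454592) (nat_lit 150274048)) (I.neg (nat_lit 11091968) (nat_lit 35389440)) (I.neg (nat_lit 8830976) (nat_lit 29392896)) (I.pos (nat_lit 114966528) (nat_lit 149831680)) (I.mix (nat_lit 58048512) (nat_lit 17285120)) (I.mix (nat_lit 20529152) (nat_lit 32931840)) (I.mix (nat_lit 21250048) (nat_lit 31703040)))
  false (nat_lit 0)
def b1_28 : Bx := Bx.mk (St.mk (I.mix (nat_lit 11108352) (nat_lit 106561536)) (I.pos (nat_lit 1867776) (nat_lit 11190272)) (I.mix (nat_lit 4521984) (nat_lit 3768320)) (I.pos (nat_lit 43679744) (nat_lit 107151360)) (I.mix (nat_lit 23625728) (nat_lit 14336000)) (I.mix (nat_lit 15663104) (nat_lit 14155776)) (I.mix (nat_lit 12009472) (nat_lit 9830400)))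
  false (nat_lit 0)
def b1_29 : Bx := Bx.mk (St.mk (I.mix (nat_lit 1064960) (nat_lit 73613312)) (I.neg (nat_lit 1884160) (nat_lit 11763712)) (I.mix (nat_lit 5881856) (nat_lit 1753088)) (I.pos (nat_lit 44449792) (nat_lit 76365824)) (I.mix (nat_lit 8585216) (nat_lit 3080192)) (I.mix (nat_lit 2031616) (nat_lit 3588096)) (I.mix (nat_lit 1032192) (nat_lit 2113536)))
  false (nat_lit 0)
def b1_30 : Bx := Bx.mk (St.mk (I.pos (nat_lit 154386432) (nat_lit 179650560)) (I.neg (nat_lit 3424256) (nat_lit 25526272)) (I.mix (nat_lit 16056320) (nat_lit 10911744)) (I.pos (nat_lit 147636224) (nat_lit 196116480)) (I.mix (nat_lit 57606144) (nat_lit 26312704)) (I.mix (nat_lit 42549248) (nat_lit 34701312)) (I.mix (nat_lit 42663936) (nat_lit 36716544)))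
  false (nat_lit 0)
def b1_31 : Bx := Bx.mk (St.mk (I.pos (nat_lit 101335040) (nat_lit 122961920)) (I.mix (nat_lit 14106624) (nat_lit 327680)) (I.neg (nat_lit 4374528) (nat_lit 19152896)) (I.pos (nat_lit 87228416) (nat_lit 124731392)) (I.mix (nat_lit 34078720) (nat_lit 23756800)) (I.mix (nat_lit 23379968) (nat_lit 25886720)) (I.mix (nat_lit 19169280) (nat_lit 18055168)))
  false (nat_lit 0)
def b1_32 : Bx := Bx.mk (St.mk (I.mix (nat_lit 15663104) (nat_lit 89866240)) (I.mix (nat_lit 6766592) (nat_lit 7143424)) (I.mix (nat_lit 3407872) (nat_lit 6832128)) (I.pos (nat_lit 44007424) (nat_lit 95895552)) (I.mix (nat_lit 21233664) (nat_lit 19382272)) (I.mix (nat_lit 17743872) (nat_lit 16973824)) (I.mix (nat_lit 9289728) (nat_lit 10223616)))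
  false (nat_lit 0)
def b1_33 : Bx := Bx.mk (St.mk (I.mix (nat_lit 30277632) (nat_lit 56426496)) (I.neg (nat_lit 1540096) (nat_lit 7684096)) (I.neg (nat_lit 344064) (nat_lit 7225344)) (I.pos (nat_lit 44498944) (nat_lit 76840960)) (I.mix (nat_lit 8749056) (nat_lit 9846784)) (I.mix (nat_lit 6127616) (nat_lit 5931008)) (I.mix (nat_lit 2850816) (nat_lit 2195456)))
  false (nat_lit 0)
def b1_34 : Bx := Bx.mk (St.mk (I.pos (nat_lit 121094144) (nat_lit 149487616)) (I.neg (nat_lit 5472256) (nat_lit 35864576)) (I.mix (nat_lit 29802496) (nat_lit 409600)) (I.pos (nat_lit 114163712) (nat_lit 150781952)) (I.mix (nat_lit 78200832) (nat_lit 16875520)) (I.mix (nat_lit 29278208) (nat_lit 46268416)) (I.mix (nat_lit 32604160) (nat_lit 45481984)))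
  false (nat_lit 0)
def b1_35 : Bx := Bx.mk (St.mk (I.pos (nat_lit 127156224) (nat_lit 161366016)) (I.neg (nat_lit 4554752) (nat_lit 30130176)) (I.neg (nat_lit 81920) (nat_lit 25526272)) (I.pos (nat_lit 121454592) (nat_lit 169328640)) (I.mix (nat_lit 63750144) (nat_lit 20070400)) (I.mix (nat_lit 25477120) (nat_lit 38961152)) (I.mix (nat_lit 29966336) (nat_lit 39256064)))
  false (nat_lit 0)
def b1_36 : Bx := Bx.mk (St.mk (I.pos (nat_lit 82690048) (nat_lit 110575616)) (I.mix (nat_lit 6307840) (nat_lit 4931584)) (I.neg (nat_lit 311296) (nat_lit 10600448)) (I.pos (nat_lit 76054528) (nat_lit 113246208)) (I.mix (nat_lit 40337408) (nat_lit 16171008)) (I.mix (nat_lit 21610496) (nat_lit 21004288)) (I.mix (nat_lit 15876096) (nat_lit 16629760)))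
  false (nat_lit 0)
def b1_37 : Bx := Bx.mk (St.mk (I.pos (nat_lit 200671232) (nat_lit 245694464)) (I.mix (nat_lit 13615104) (nat_lit 11730944)) (I.mix (nat_lit 42549248) (nat_lit 8683520)) (I.pos (nat_lit 231145472) (nat_lit 322289664)) (I.mix (nat_lit 107413504) (nat_lit 20955136)) (I.mix (nat_lit 51249152) (nat_lit 52396032)) (I.mix (nat_lit 92553216) (nat_lit 101761024)))
  false (nat_lit 0)
def b1_38 : Bx := Bx.mk (St.mk (I.pos (nat_lit 41385984) (nat_lit 111984640)) (I.mix (nat_lit 6160384) (nat_lit 4964352)) (I.neg (nat_lit 344064) (nat_lit 10764288)) (I.pos (nat_lit 53510144) (nat_lit 114327552)) (I.mix (nat_lit 39387136) (nat_lit 15646720)) (I.mix (nat_lit 20824064) (nat_lit 19382272)) (I.mix (nat_lit 15581184) (nat_lit 15532032)))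
  false (nat_lit 0)
def b1_39 : Bx := Bx.mk (St.mk (I.pos (nat_lit 140345344) (nat_lit 175849472)) (I.neg (nat_lit 8699904) (nat_lit 39256064)) (I.neg (nat_lit 2277376) (nat_lit 36012032)) (I.pos (nat_lit 132546560) (nat_lit 189415424)) (I.mix (nat_lit 63062016) (nat_lit 46317568)) (I.mix (nat_lit 54247424) (nat_lit 44744704)) (I.mix (nat_lit 62390272) (nat_lit 46612480)))
  false (nat_lit 0)
def b1_40 : Bx := Bx.mk (St.mk (I.pos (nat_lit 93814784) (nat_lit 122404864)) (I.mix (nat_lit 6078464) (nat_lit 8142848)) (I.mix (nat_lit 10895360) (nat_lit 1228800)) (I.pos (nat_lit 81657856) (nat_lit 123797504)) (I.mix (nat_lit 30998528) (nat_lit 35831808)) (I.mix (nat_lit 27344896) (nat_lit 28147712)) (I.mix (nat_lit 21676032) (nat_lit 21348352)))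
  false (nat_lit 0)
def b1_41 : Bx := Bx.mk (St.mk (I.mix (nat_lit 34471936) (nat_lit 92094464)) (I.mix (nat_lit 12238848) (nat_lit 4915200)) (I.mix (nat_lit 6684672) (nat_lit 2326528)) (I.pos (nat_lit 45056000) (nat_lit 95436800)) (I.mix (nat_lit 21168128) (nat_lit 24559616)) (I.mix (nat_lit 17743872) (nat_lit 18038784)) (I.mix (nat_lit 10371072) (nat_lit 9879552)))
  false (nat_lit 0)
def b1_42 : Bx := Bx.mk (St.mk (I.mix (nat_lit 29327360) (nat_lit 62603264)) (I.mix (nat_lit 2179072) (nat_lit 2244608)) (I.neg (nat_lit 933888) (nat_lit 5079040)) (I.pos (nat_lit 45072384) (nat_lit 77889536)) (I.pos (nat_lit 212992) (nat_lit 11190272)) (I.mix (nat_lit 1769472) (nat_lit 1753088)) (I.mix (nat_lit 1114112) (nat_lit 901120)))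
  false (nat_lit 0)
def b1_43 : Bx := Bx.mk (St.mk (I.pos (nat_lit 77905920) (nat_lit 103710720)) (I.mix (nat_lit 6324224) (nat_lit 11173888)) (I.mix (nat_lit 10125312) (nat_lit 3620864)) (I.pos (nat_lit 73613312) (nat_lit 105627648)) (I.mix (nat_lit 55050240) (nat_lit 15138816)) (I.mix (nat_lit 26525696) (nat_lit 27295744)) (I.mix (nat_lit 18464768) (nat_lit 20414464)))
  false (nat_lit 0)
def b1_44 : Bx := Bx.mk (St.mk (I.mix (nat_lit 41451520) (nat_lit 86343680)) (I.mix (nat_lit 9502720) (nat_lit 6225920)) (I.mix (nat_lit 4571136) (nat_lit 1933312)) (I.pos (nat_lit 46841856) (nat_lit 89079808)) (I.mix (nat_lit 28196864) (nat_lit 13107200)) (I.mix (nat_lit 15122432) (nat_lit 15433728)) (I.mix (nat_lit 8699904) (nat_lit 8159232)))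
  false (nat_lit 0)
def b1_45 : Bx := Bx.mk (St.mk (I.mix (nat_lit 41320448) (nat_lit 16646144)) (I.mix (nat_lit 3883008) (nat_lit 3129344)) (I.neg (nat_lit 950272) (nat_lit 4521984)) (I.pos (nat_lit 44531712) (nat_lit 70582272)) (I.mix (nat_lit 19382272) (nat_lit 13139968)) (I.mix (nat_lit 11599872) (nat_lit 13139968)) (I.mix (nat_lit 3457024) (nat_lit 2998272)))
  false (nat_lit 0)
def b1_46 : Bx := Bx.mk (St.mk (I.mix (nat_lit 1785856) (nat_lit 81854464)) (I.mix (nat_lit 9568256) (nat_lit 3801088)) (I.mix (nat_lit 5488640) (nat_lit 2162688)) (I.pos (nat_lit 43941888) (nat_lit 89571328)) (I.mix (nat_lit 21135360) (nat_lit 6995968)) (I.mix (nat_lit 9732096) (nat_lit 10567680)) (I.mix (nat_lit 5980160) (nat_lit 5734400)))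
  false (nat_lit 0)
def b1_47 : Bx := Bx.mk (St.mk (I.pos (nat_lit 130416640) (nat_lit 161644544)) (I.neg (nat_lit 5406720) (nat_lit 30785536)) (I.neg (nat_lit 327680) (nat_lit 26476544)) (I.pos (nat_lit 127500288) (nat_lit 170344448)) (I.mix (nat_lit 49971200) (nat_lit 10305536)) (I.mix (nat_lit 16564224) (nat_lit 26951680)) (I.mix (nat_lit 20545536) (nat_lit 27361280)))
  false (nat_lit 0)
def t1 : BTr := (BTr.n (BTr.n (BTr.n (BTr.n (BTr.n (BTr.b b1_0) (BTr.n (BTr.b b1_1) (BTr.b b1_2))) (BTr.n (BTr.b b1_3) (BTr.n (BTr.b b1_4) (BTr.b b1_5)))) (BTr.n (BTr.n (BTr.b b1_6) (BTr.n (BTr.b b1_7) (BTr.b b1_8))) (BTr.n (BTr.b b1_9) (BTr.n (BTr.b b1_10) (BTr.b b1_11))))) (BTr.n (BTr.n (BTr.n (BTr.b b1_12) (BTr.n (BTr.b b1_13) (BTr.b b1_14))) (BTr.n (BTr.b b1_15) (BTr.n (BTr.b b1_16) (BTr.b b1_17)))) (BTr.n (BTr.n (BTr.b b1_18) (BTr.n (BTr.b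 b1_19) (BTr.b b1_20))) (BTr.n (BTr.b b1_21) (BTr.n (BTr.b b1_22) (BTr.b b1_23)))))) (BTr.n (BTr.n (BTr.n (BTr.n (BTr.b b1_24) (BTr.n (BTr.b b1_25) (BTr.b b1_26))) (BTr.n (BTr.b b1_27) (BTr.n (BTr.b b1_28) (BTr.b b1_29)))) (BTr.n (BTr.n (BTr.b b1_30) (BTr.n (BTr.b b1_31) (BTr.b b1_32))) (BTr.n (BTr.b b1_33) (BTr.n (BTr.b b1_34) (BTr.b b1_35))))) (BTr.n (BTr.n (BTr.n (BTr.b b1_36) (BTr.n (BTr.b b1_37) (BTr.b b1_38))) (BTr.n (BTr.b b1_39) (BTr.n (BTr.b b1_40) (BTr.b b1_41)))) (BTr.n (BTr.n (BTr.b b1_42) (BTr.n (BTr.b b1_43) (BTr.b b1_44))) (BTr.n (BTr.b b1_45) (BTr.n (BTr.b b1_46) (BTr.b b1_47)))))))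
namespace T1
def l0 : Tr := Tr.L (Pth.l (Pth.l (Pth.l (Pth.l (Pth.l Pth.z)))))
def l1 : Tr := Tr.L (Pth.l (Pth.l (Pth.l (Pth.l (Pth.r (Pth.l Pth.z))))))
def l2 : Tr := Tr.L (Pth.l (Pth.l (Pth.l (Pth.l (Pth.r (Pth.r Pth.z))))))
def l3 : Tr := Tr.L (Pth.l (Pth.l (Pth.l (Pth.r (Pth.l Pth.z)))))
def l4 : Tr := Tr.L (Pth.l (Pth.l (Pth.l (Pth.r (Pth.r (Pth.l Pth.z))))))
def l5 : Tr := Tr.L (Pth.l (Pth.l (Pth.l (Pth.r (Pth.r (Pth.r Pth.z))))))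
def l6 : Tr := Tr.L (Pth.l (Pth.l (Pth.r (Pth.l (Pth.l Pth.z)))))
def l7 : Tr := Tr.L (Pth.l (Pth.l (Pth.r (Pth.l (Pth.r (Pth.l Pth.z))))))
def l8 : Tr := Tr.L (Pth.l (Pth.l (Pth.r (Pth.l (Pth.r (Pth.r Pth.z))))))
def l9 : Tr := Tr.L (Pth.l (Pth.l (Pth.r (Pth.r (Pth.l Pth.z)))))
def l10 : Tr := Tr.L (Pth.l (Pth.l (Pth.r (Pth.r (Pth.r (Pth.l Pth.z))))))
def l11 : Tr := Tr.L (Pth.l (Pth.l (Pth.r (Pth.r (Pth.r (Pth.r Pth.z))))))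
def l12 : Tr := Tr.L (Pth.l (Pth.r (Pth.l (Pth.l (Pth.l Pth.z)))))
def l13 : Tr := Tr.L (Pth.l (Pth.r (Pth.l (Pth.l (Pth.r (Pth.l Pth.z))))))
def l14 : Tr := Tr.L (Pth.l (Pth.r (Pth.l (Pth.l (Pth.r (Pth.r Pth.z))))))
def l15 : Tr := Tr.L (Pth.l (Pth.r (Pth.l (Pth.r (Pth.l Pth.z)))))
def l16 : Tr := Tr.L (Pth.l (Pth.r (Pth.l (Pth.r (Pth.r (Pth.l Pth.z))))))
def l17 : Tr := Tr.L (Pth.l (Pth.r (Pth.l (Pth.r (Pth.r (Pth.r Pth.z))))))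
def l18 : Tr := Tr.L (Pth.l (Pth.r (Pth.r (Pth.l (Pth.l Pth.z)))))
def l19 : Tr := Tr.L (Pth.l (Pth.r (Pth.r (Pth.l (Pth.r (Pth.l Pth.z))))))
def l20 : Tr := Tr.L (Pth.l (Pth.r (Pth.r (Pth.l (Pth.r (Pth.r Pth.z))))))
def l21 : Tr := Tr.L (Pth.l (Pth.r (Pth.r (Pth.r (Pth.l Pth.z)))))
def l22 : Tr := Tr.L (Pth.l (Pth.r (Pth.r (Pth.r (Pth.r (Pth.l Pth.z))))))
def l23 : Tr := Tr.L (Pth.l (Pth.r (Pth.r (Pth.r (Pth.r (Pth.r Pth.z))))))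
def l24 : Tr := Tr.L (Pth.r (Pth.l (Pth.l (Pth.l (Pth.l Pth.z)))))
def l25 : Tr := Tr.L (Pth.r (Pth.l (Pth.l (Pth.l (Pth.r (Pth.l Pth.z))))))
def l26 : Tr := Tr.L (Pth.r (Pth.l (Pth.l (Pth.l (Pth.r (Pth.r Pth.z))))))
def l27 : Tr := Tr.L (Pth.r (Pth.l (Pth.l (Pth.r (Pth.l Pth.z)))))
def l28 : Tr := Tr.L (Pth.r (Pth.l (Pth.l (Pth.r (Pth.r (Pth.l Pth.z))))))
def l29 : Tr := Tr.L (Pth.r (Pth.l (Pth.l (Pth.r (Pth.r (Pth.r Pth.z))))))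
def l30 : Tr := Tr.L (Pth.r (Pth.l (Pth.r (Pth.l (Pth.l Pth.z)))))
def l31 : Tr := Tr.L (Pth.r (Pth.l (Pth.r (Pth.l (Pth.r (Pth.l Pth.z))))))
def l32 : Tr := Tr.L (Pth.r (Pth.l (Pth.r (Pth.l (Pth.r (Pth.r Pth.z))))))
def l33 : Tr := Tr.L (Pth.r (Pth.l (Pth.r (Pth.r (Pth.l Pth.z)))))
def l34 : Tr := Tr.L (Pth.r (Pth.l (Pth.r (Pth.r (Pth.r (Pth.l Pth.z))))))
def l35 : Tr := Tr.L (Pth.r (Pth.l (Pth.r (Pth.r (Pth.r (Pth.r Pth.z))))))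
def l36 : Tr := Tr.L (Pth.r (Pth.r (Pth.l (Pth.l (Pth.l Pth.z)))))
def l37 : Tr := Tr.L (Pth.r (Pth.r (Pth.l (Pth.l (Pth.r (Pth.l Pth.z))))))
def l38 : Tr := Tr.L (Pth.r (Pth.r (Pth.l (Pth.l (Pth.r (Pth.r Pth.z))))))
def l39 : Tr := Tr.L (Pth.r (Pth.r (Pth.l (Pth.r (Pth.l Pth.z)))))
def l40 : Tr := Tr.L (Pth.r (Pth.r (Pth.l (Pth.r (Pth.r (Pth.l Pth.z))))))
def l41 : Tr := Tr.L (Pth.r (Pth.r (Pth.l (Pth.r (Pth.r (Pth.r Pth.z))))))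
def l42 : Tr := Tr.L (Pth.r (Pth.r (Pth.r (Pth.l (Pth.l Pth.z)))))
def l43 : Tr := Tr.L (Pth.r (Pth.r (Pth.r (Pth.l (Pth.r (Pth.l Pth.z))))))
def l44 : Tr := Tr.L (Pth.r (Pth.r (Pth.r (Pth.l (Pth.r (Pth.r Pth.z))))))
def l45 : Tr := Tr.L (Pth.r (Pth.r (Pth.r (Pth.r (Pth.l Pth.z)))))
def l46 : Tr := Tr.L (Pth.r (Pth.r (Pth.r (Pth.r (Pth.r (Pth.l Pth.z))))))
def l47 : Tr := Tr.L (Pth.r (Pth.r (Pth.r (Pth.r (Pth.r (Pth.r Pth.z))))))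
end T1
def b2_0 : Bx := Bx.mk (St.mk (I.pos (nat_lit 123535360) (nat_lit 217858048)) (I.mix (nat_lit 2506752) (nat_lit 78528512)) (I.mix (nat_lit 4046848) (nat_lit 129941504)) (I.pos (nat_lit 359825408) (nat_lit 464601088)) (I.mix (nat_lit 181796864) (nat_lit 66486272)) (I.mix (nat_lit 99024896) (nat_lit 73875456)) (I.mix (nat_lit 109690880) (nat_lit 97271808)))
  false (nat_lit 76893293)
def b2_1 : Bx := Bx.mk (St.mk (I.pos (nat_lit 33832960) (nat_lit 93683712)) (I.neg (nat_lit 44400640) (nat_lit 96419840)) (I.mix (nat_lit 34734080) (nat_lit 12697600)) (I.pos (nat_lit 285753344) (nat_lit 333578240)) (I.mix (nat_lit 106266624) (nat_lit 123076608)) (I.mix (nat_lit 111542272) (nat_lit 78348288)) (I.mix (nat_lit 90800128) (nat_lit 77103104)))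
  false (nat_lit 134116560)
def b2_2 : Bx := Bx.mk (St.mk (I.pos (nat_lit 98271232) (nat_lit 164708352)) (I.pos (nat_lit 9207808) (nat_lit 65093632)) (I.pos (nat_lit 62373888) (nat_lit 125779968)) (I.pos (nat_lit 314769408) (nat_lit 399507456)) (I.mix (nat_lit 208355328) (nat_lit 58802176)) (I.mix (nat_lit 150519808) (nat_lit 95289344)) (I.mix (nat_lit 156418048) (nat_lit 135643136)))
  false (nat_lit 72480688)
def b2_3 : Bx := Bx.mk (St.mk (I.neg (nat_lit 33832960) (nat_lit 93700096)) (I.pos (nat_lit 44384256) (nat_lit 96370688)) (I.mix (nat_lit 34750464) (nat_lit 12697600)) (I.pos (nat_lit 285687808) (nat_lit 333578240)) (I.mix (nat_lit 123076608) (nat_lit 106266624)) (I.mix (nat_lit 78348288) (nat_lit 111542272)) (I.mix (nat_lit 90800128) (nat_lit 77103104)))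
  true (nat_lit 0)
def b2_4 : Bx := Bx.mk (St.mk (I.pos (nat_lit 78413824) (nat_lit 112115712)) (I.neg (nat_lit 1835008) (nat_lit 34013184)) (I.pos (nat_lit 15089664) (nat_lit 46776320)) (I.pos (nat_lit 296714240) (nat_lit 329187328)) (I.mix (nat_lit 81068032) (nat_lit 67502080)) (I.mix (nat_lit 48496640) (nat_lit 72187904)) (I.mix (nat_lit 48742400) (nat_lit 56705024)))
  false (nat_lit 0)
def b2_5 : Bx := Bx.mk (St.mk (I.pos (nat_lit 100122624) (nat_lit 137838592)) (I.neg (nat_lit 9289728) (nat_lit 43220992)) (I.pos (nat_lit 7929856) (nat_lit 43450368)) (I.pos (nat_lit 314064896) (nat_lit 353959936)) (I.mix (nat_lit 76988416) (nat_lit 74956800)) (I.mix (nat_lit 78921728) (nat_lit 55934976)) (I.mix (nat_lit 73465856) (nat_lit 46694400)))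
  false (nat_lit 0)
def b2_6 : Bx := Bx.mk (St.mk (I.neg (nat_lit 78364672) (nat_lit 114966528)) (I.pos (nat_lit 1835008) (nat_lit 34013184)) (I.pos (nat_lit 15089664) (nat_lit 46776320)) (I.pos (nat_lit 296714240) (nat_lit 331694080)) (I.mix (nat_lit 67502080) (nat_lit 81068032)) (I.mix (nat_lit 72204288) (nat_lit 48496640)) (I.mix (nat_lit 48742400) (nat_lit 56705024)))
  true (nat_lit 0)
def b2_7 : Bx := Bx.mk (St.mk (I.pos (nat_lit 90292224) (nat_lit 114393088)) (I.neg (nat_lit 13582336) (nat_lit 34422784)) (I.pos (nat_lit 14729216) (nat_lit 37650432)) (I.pos (nat_lit 307183616) (nat_lit 331153408)) (I.mix (nat_lit 55476224) (nat_lit 36929536)) (I.mix (nat_lit 34095104) (nat_lit 30081024)) (I.mix (nat_lit 32358400) (nat_lit 23117824)))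
  false (nat_lit 0)
def b2_8 : Bx := Bx.mk (St.mk (I.neg (nat_lit 20791296) (nat_lit 59801600)) (I.pos (nat_lit 36880384) (nat_lit 83902464)) (I.neg (nat_lit 7192576) (nat_lit 31064064)) (I.pos (nat_lit 281870336) (nat_lit 307527680)) (I.mix (nat_lit 62062592) (nat_lit 108937216)) (I.mix (nat_lit 75694080) (nat_lit 75628544)) (I.mix (nat_lit 45432832) (nat_lit 28393472)))
  true (nat_lit 0)
def b2_9 : Bx := Bx.mk (St.mk (I.pos (nat_lit 20791296) (nat_lit 59801600)) (I.neg (nat_lit 36880384) (nat_lit 83902464)) (I.neg (nat_lit 7192576) (nat_lit 31064064)) (I.pos (nat_lit 281870336) (nat_lit 307527680)) (I.mix (nat_lit 108937216) (nat_lit 62062592)) (I.mix (nat_lit 75628544) (nat_lit 75694080)) (I.mix (nat_lit 45432832) (nat_lit 28393472)))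
  false (nat_lit 53810846)
def b2_10 : Bx := Bx.mk (St.mk (I.pos (nat_lit 96845824) (nat_lit 115015680)) (I.neg (nat_lit 15876096) (nat_lit 33341440)) (I.pos (nat_lit 16007168) (nat_lit 36372480)) (I.pos (nat_lit 312573952) (nat_lit 331661312)) (I.mix (nat_lit 43614208) (nat_lit 37355520)) (I.mix (nat_lit 34324480) (nat_lit 28901376)) (I.mix (nat_lit 32538624) (nat_lit 23199744)))
  false (nat_lit 0)
def b2_11 : Bx := Bx.mk (St.mk (I.pos (nat_lit 64241664) (nat_lit 103890944)) (I.neg (nat_lit 3260416) (nat_lit 49889280)) (I.pos (nat_lit 3129344) (nat_lit 46383104)) (I.pos (nat_lit 292683776) (nat_lit 323010560)) (I.mix (nat_lit 87736320) (nat_lit 49577984)) (I.mix (nat_lit 48939008) (nat_lit 63848448)) (I.mix (nat_lit 49922048) (nat_lit 51544064)))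
  false (nat_lit 0)
def b2_12 : Bx := Bx.mk (St.mk (I.pos (nat_lit 112443392) (nat_lit 151306240)) (I.mix (nat_lit 42565632) (nat_lit 9076736)) (I.pos (nat_lit 9502720) (nat_lit 67239936)) (I.pos (nat_lit 326254592) (nat_lit 369360896)) (I.mix (nat_lit 62111744) (nat_lit 86228992)) (I.mix (nat_lit 74825728) (nat_lit 59146240)) (I.mix (nat_lit 69304320) (nat_lit 57884672)))
  false (nat_lit 16925805)
def b2_13 : Bx := Bx.mk (St.mk (I.neg (nat_lit 64077824) (nat_lit 103890944)) (I.pos (nat_lit 3260416) (nat_lit 50020352)) (I.pos (nat_lit 3031040) (nat_lit 46383104)) (I.pos (nat_lit 292618240) (nat_lit 323010560)) (I.mix (nat_lit 49561600) (nat_lit 87736320)) (I.mix (nat_lit 63848448) (nat_lit 49102848)) (I.mix (nat_lit 49922048) (nat_lit 51593216)))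
  true (nat_lit 0)
def b2_14 : Bx := Bx.mk (St.mk (I.neg (nat_lit 24641536) (nat_lit 51068928)) (I.pos (nat_lit 9256960) (nat_lit 45645824)) (I.neg (nat_lit 5259264) (nat_lit 16613376)) (I.pos (nat_lit 276463616) (nat_lit 290832384)) (I.mix (nat_lit 63782912) (nat_lit 40730624)) (I.mix (nat_lit 37044224) (nat_lit 41959424)) (I.mix (nat_lit 11010048) (nat_lit 12599296)))
  true (nat_lit 0)
def b2_15 : Bx := Bx.mk (St.mk (I.pos (nat_lit 24641536) (nat_lit 51068928)) (I.neg (nat_lit 9256960) (nat_lit 45645824)) (I.neg (nat_lit 5259264) (nat_lit 16613376)) (I.pos (nat_lit 276463616) (nat_lit 290832384)) (I.mix (nat_lit 40730624) (nat_lit 63782912)) (I.mix (nat_lit 41959424) (nat_lit 37044224)) (I.mix (nat_lit 11010048) (nat_lit 12599296)))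
  false (nat_lit 0)
def b2_16 : Bx := Bx.mk (St.mk (I.pos (nat_lit 193921024) (nat_lit 284213248)) (I.mix (nat_lit 11583488) (nat_lit 53854208)) (I.mix (nat_lit 50987008) (nat_lit 84574208)) (I.pos (nat_lit 439189504) (nat_lit 589840384)) (I.mix (nat_lit 79167488) (nat_lit 61390848)) (I.mix (nat_lit 55410688) (nat_lit 55181312)) (I.mix (nat_lit 97222656) (nat_lit 85852160)))
  false (nat_lit 24999545)
def b2_17 : Bx := Bx.mk (St.mk (I.mix (nat_lit 29933568) (nat_lit 13615104)) (I.mix (nat_lit 6029312) (nat_lit 36765696)) (I.neg (nat_lit 9338880) (nat_lit 18006016)) (I.pos (nat_lit 271613952) (nat_lit 282509312)) (I.mix (nat_lit 24035328) (nat_lit 38158336)) (I.mix (nat_lit 22396928) (nat_lit 22937600)) (I.mix (nat_lit 7192576) (nat_lit 4898816)))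
  true (nat_lit 0)
def b2_18 : Bx := Bx.mk (St.mk (I.mix (nat_lit 13615104) (nat_lit 29933568)) (I.mix (nat_lit 36765696) (nat_lit 6029312)) (I.neg (nat_lit 9338880) (nat_lit 18006016)) (I.pos (nat_lit 271613952) (nat_lit 282509312)) (I.mix (nat_lit 38158336) (nat_lit 24035328)) (I.mix (nat_lit 22937600) (nat_lit 22396928)) (I.mix (nat_lit 7192576) (nat_lit 4898816)))
  false (nat_lit 0)
def b2_19 : Bx := Bx.mk (St.mk (I.pos (nat_lit 205078528) (nat_lit 266649600)) (I.mix (nat_lit 27148288) (nat_lit 24412160)) (I.mix (nat_lit 76595200) (nat_lit 27901952)) (I.pos (nat_lit 452116480) (nat_lit 551157760)) (I.mix (nat_lit 82870272) (nat_lit 10551296)) (I.mix (nat_lit 33636352) (nat_lit 50561024)) (I.mix (nat_lit 53231616) (nat_lit 87113728)))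
  false (nat_lit 0)
def b2_20 : Bx := Bx.mk (St.mk (I.mix (nat_lit 25985024) (nat_lit 5062656)) (I.mix (nat_lit 13582336) (nat_lit 20611072)) (I.neg (nat_lit 8732672) (nat_lit 15843328)) (I.pos (nat_lit 271826944) (nat_lit 279265280)) (I.mix (nat_lit 32391168) (nat_lit 19546112)) (I.mix (nat_lit 15679488) (nat_lit 22069248)) (I.mix (nat_lit 4636672) (nat_lit 3637248)))
  true (nat_lit 0)
def b2_21 : Bx := Bx.mk (St.mk (I.mix (nat_lit 5062656) (nat_lit 25985024)) (I.mix (nat_lit 20611072) (nat_lit 13582336)) (I.neg (nat_lit 8732672) (nat_lit 15843328)) (I.pos (nat_lit 271826944) (nat_lit 279265280)) (I.mix (nat_lit 19546112) (nat_lit 32391168)) (I.mix (nat_lit 22069248) (nat_lit 15679488)) (I.mix (nat_lit 4636672) (nat_lit 3637248)))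
  false (nat_lit 0)
def b2_22 : Bx := Bx.mk (St.mk (I.pos (nat_lit 140492800) (nat_lit 192479232)) (I.pos (nat_lit 28377088) (nat_lit 75218944)) (I.pos (nat_lit 51265536) (nat_lit 122863616)) (I.pos (nat_lit 373538816) (nat_lit 432996352)) (I.mix (nat_lit 128286720) (nat_lit 84738048)) (I.mix (nat_lit 100204544) (nat_lit 62423040)) (I.mix (nat_lit 145981440) (nat_lit 81608704)))
  false (nat_lit 38492289)
def b2_23 : Bx := Bx.mk (St.mk (I.neg (nat_lit 20316160) (nat_lit 59244544)) (I.pos (nat_lit 23117824) (nat_lit 71811072)) (I.neg (nat_lit 6651904) (nat_lit 28426240)) (I.pos (nat_lit 281001984) (nat_lit 298631168)) (I.mix (nat_lit 82771968) (nat_lit 101122048)) (I.mix (nat_lit 84934656) (nat_lit 55771136)) (I.mix (nat_lit 29523968) (nat_lit 21807104)))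
  true (nat_lit 0)
def b2_24 : Bx := Bx.mk (St.mk (I.pos (nat_lit 20316160) (nat_lit 59244544)) (I.neg (nat_lit 23117824) (nat_lit 71811072)) (I.neg (nat_lit 6651904) (nat_lit 28426240)) (I.pos (nat_lit 281001984) (nat_lit 298631168)) (I.mix (nat_lit 101122048) (nat_lit 82771968)) (I.mix (nat_lit 55771136) (nat_lit 84934656)) (I.mix (nat_lit 29523968) (nat_lit 21807104)))
  false (nat_lit 37160310)
def b2_25 : Bx := Bx.mk (St.mk (I.pos (nat_lit 186286080) (nat_lit 213532672)) (I.pos (nat_lit 14008320) (nat_lit 36356096)) (I.pos (nat_lit 26886144) (nat_lit 59736064)) (I.pos (nat_lit 424263680) (nat_lit 453263360)) (I.mix (nat_lit 52559872) (nat_lit 35536896)) (I.mix (nat_lit 44318720) (nat_lit 27017216)) (I.mix (nat_lit 61997056) (nat_lit 46170112)))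
  false (nat_lit 0)
def b2_26 : Bx := Bx.mk (St.mk (I.neg (nat_lit 18743296) (nat_lit 46350336)) (I.pos (nat_lit 9240576) (nat_lit 38551552)) (I.neg (nat_lit 5439488) (nat_lit 16302080)) (I.pos (nat_lit 275890176) (nat_lit 286457856)) (I.mix (nat_lit 46497792) (nat_lit 47480832)) (I.mix (nat_lit 36929536) (nat_lit 33669120)) (I.mix (nat_lit 8601600) (nat_lit 10567680)))
  true (nat_lit 0)
def b2_27 : Bx := Bx.mk (St.mk (I.pos (nat_lit 18694144) (nat_lit 46350336)) (I.neg (nat_lit 9240576) (nat_lit 38551552)) (I.neg (nat_lit 5439488) (nat_lit 16302080)) (I.pos (nat_lit 275890176) (nat_lit 286457856)) (I.mix (nat_lit 47480832) (nat_lit 46497792)) (I.mix (nat_lit 33669120) (nat_lit 36929536)) (I.mix (nat_lit 8601600) (nat_lit 10567680)))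
  false (nat_lit 0)
def b2_28 : Bx := Bx.mk (St.mk (I.pos (nat_lit 198164480) (nat_lit 290914304)) (I.mix (nat_lit 24117248) (nat_lit 56180736)) (I.mix (nat_lit 76627968) (nat_lit 86376448)) (I.pos (nat_lit 444891136) (nat_lit 604602368)) (I.mix (nat_lit 75005952) (nat_lit 76677120)) (I.mix (nat_lit 77938688) (nat_lit 50020352)) (I.mix (nat_lit 142163968) (nat_lit 86949888)))
  false (nat_lit 20585628)
def b2_29 : Bx := Bx.mk (St.mk (I.mix (nat_lit 26689536) (nat_lit 16154624)) (I.mix (nat_lit 10076160) (nat_lit 36929536)) (I.neg (nat_lit 9666560) (nat_lit 18432000)) (I.pos (nat_lit 271630336) (nat_lit 281755648)) (I.mix (nat_lit 27574272) (nat_lit 44859392)) (I.mix (nat_lit 30982144) (nat_lit 21069824)) (I.mix (nat_lit 7553024) (nat_lit 4653056)))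
  true (nat_lit 0)
def b2_30 : Bx := Bx.mk (St.mk (I.mix (nat_lit 16154624) (nat_lit 26689536)) (I.mix (nat_lit 36929536) (nat_lit 12926976)) (I.neg (nat_lit 9666560) (nat_lit 18432000)) (I.pos (nat_lit 271630336) (nat_lit 281755648)) (I.mix (nat_lit 44859392) (nat_lit 27574272)) (I.mix (nat_lit 21069824) (nat_lit 30982144)) (I.mix (nat_lit 7553024) (nat_lit 4653056)))
  false (nat_lit 0)
def b2_31 : Bx := Bx.mk (St.mk (I.pos (nat_lit 225083392) (nat_lit 270630912)) (I.mix (nat_lit 32276480) (nat_lit 6799360)) (I.neg (nat_lit 9486336) (nat_lit 87703552)) (I.pos (nat_lit 481918976) (nat_lit 561020928)) (I.mix (nat_lit 79298560) (nat_lit 27983872)) (I.mix (nat_lit 42237952) (nat_lit 45350912)) (I.mix (nat_lit 73924608) (nat_lit 77594624)))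
  false (nat_lit 0)
def b2_32 : Bx := Bx.mk (St.mk (I.mix (nat_lit 24166400) (nat_lit 8028160)) (I.mix (nat_lit 16072704) (nat_lit 17465344)) (I.neg (nat_lit 8634368) (nat_lit 15794176)) (I.pos (nat_lit 271859712) (nat_lit 278724608)) (I.mix (nat_lit 27852800) (nat_lit 22069248)) (I.mix (nat_lit 17874944) (nat_lit 17137664)) (I.mix (nat_lit 3522560) (nat_lit 3293184)))
  true (nat_lit 0)
def b2_33 : Bx := Bx.mk (St.mk (I.mix (nat_lit 8585216) (nat_lit 24166400)) (I.mix (nat_lit 17465344) (nat_lit 16072704)) (I.neg (nat_lit 8634368) (nat_lit 15794176)) (I.pos (nat_lit 271859712) (nat_lit 278724608)) (I.mix (nat_lit 22069248) (nat_lit 27852800)) (I.mix (nat_lit 17137664) (nat_lit 17874944)) (I.mix (nat_lit 3522560) (nat_lit 3293184)))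
  false (nat_lit 0)
def b2_34 : Bx := Bx.mk (St.mk (I.pos (nat_lit 255262720) (nat_lit 282034176)) (I.neg (nat_lit 9666560) (nat_lit 32587776)) (I.neg (nat_lit 46596096) (nat_lit 94535680)) (I.pos (nat_lit 540196864) (nat_lit 585809920)) (I.mix (nat_lit 63356928) (nat_lit 28033024)) (I.mix (nat_lit 44204032) (nat_lit 32522240)) (I.mix (nat_lit 82542592) (nat_lit 51363840)))
  false (nat_lit 0)
def b2_35 : Bx := Bx.mk (St.mk (I.mix (nat_lit 13074432) (nat_lit 9175040)) (I.mix (nat_lit 8257536) (nat_lit 15695872)) (I.neg (nat_lit 9551872) (nat_lit 15826944)) (I.pos (nat_lit 271958016) (nat_lit 277250048)) (I.mix (nat_lit 21315584) (nat_lit 17170432)) (I.mix (nat_lit 10092544) (nat_lit 17285120)) (I.mix (nat_lit 3145728) (nat_lit 1982464)))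
  false (nat_lit 0)
def b2_36 : Bx := Bx.mk (St.mk (I.pos (nat_lit 265846784) (nat_lit 282230784)) (I.neg (nat_lit 12091392) (nat_lit 23576576)) (I.neg (nat_lit 49627136) (nat_lit 76808192)) (I.pos (nat_lit 562610176) (nat_lit 586383360)) (I.mix (nat_lit 33062912) (nat_lit 12992512)) (I.mix (nat_lit 24150016) (nat_lit 17104896)) (I.mix (nat_lit 45776896) (nat_lit 26804224)))
  false (nat_lit 0)
def b2_37 : Bx := Bx.mk (St.mk (I.mix (nat_lit 12713984) (nat_lit 3342336)) (I.mix (nat_lit 4751360) (nat_lit 12664832)) (I.neg (nat_lit 9601024) (nat_lit 15400960)) (I.pos (nat_lit 271958016) (nat_lit 277184512)) (I.mix (nat_lit 13074432) (nat_lit 8880128)) (I.mix (nat_lit 6029312) (nat_lit 9420800)) (I.mix (nat_lit 1572864) (nat_lit 1228800)))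
  false (nat_lit 0)
def b2_38 : Bx := Bx.mk (St.mk (I.neg (nat_lit 30048256) (nat_lit 49152000)) (I.pos (nat_lit 22675456) (nat_lit 45793280)) (I.neg (nat_lit 8257536) (nat_lit 16728064)) (I.pos (nat_lit 279527424) (nat_lit 290553856)) (I.mix (nat_lit 34488320) (nat_lit 33652736)) (I.mix (nat_lit 27951104) (nat_lit 23707648)) (I.mix (nat_lit 8978432) (nat_lit 8404992)))
  true (nat_lit 0)
def b2_39 : Bx := Bx.mk (St.mk (I.pos (nat_lit 30048256) (nat_lit 49152000)) (I.neg (nat_lit 22675456) (nat_lit 45793280)) (I.neg (nat_lit 8257536) (nat_lit 16728064)) (I.pos (nat_lit 279527424) (nat_lit 290553856)) (I.mix (nat_lit 33652736) (nat_lit 34488320)) (I.mix (nat_lit 23707648) (nat_lit 27951104)) (I.mix (nat_lit 8978432) (nat_lit 8404992)))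
  false (nat_lit 0)
def b2_40 : Bx := Bx.mk (St.mk (I.neg (nat_lit 14532608) (nat_lit 29065216)) (I.pos (nat_lit 17006592) (nat_lit 31883264)) (I.neg (nat_lit 9633792) (nat_lit 16236544)) (I.pos (nat_lit 274808832) (nat_lit 282378240)) (I.mix (nat_lit 15351808) (nat_lit 31522816)) (I.mix (nat_lit 23281664) (nat_lit 13631488)) (I.mix (nat_lit 4931584) (nat_lit 3866624)))
  true (nat_lit 0)
def b2_41 : Bx := Bx.mk (St.mk (I.pos (nat_lit 14532608) (nat_lit 29065216)) (I.neg (nat_lit 17006592) (nat_lit 31883264)) (I.neg (nat_lit 9633792) (nat_lit 16236544)) (I.pos (nat_lit 274808832) (nat_lit 282378240)) (I.mix (nat_lit 31522816) (nat_lit 15351808)) (I.mix (nat_lit 13631488) (nat_lit 23281664)) (I.mix (nat_lit 4931584) (nat_lit 3866624)))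
  false (nat_lit 0)
def b2_42 : Bx := Bx.mk (St.mk (I.pos (nat_lit 58605568) (nat_lit 95633408)) (I.neg (nat_lit 28475392) (nat_lit 82264064)) (I.mix (nat_lit 20643840) (nat_lit 23904256)) (I.pos (nat_lit 293289984) (nat_lit 329891840)) (I.mix (nat_lit 86966272) (nat_lit 101433344)) (I.mix (nat_lit 74711040) (nat_lit 76578816)) (I.mix (nat_lit 54116352) (nat_lit 73334784)))
  false (nat_lit 72469543)
def b2_43 : Bx := Bx.mk (St.mk (I.pos (nat_lit 113885184) (nat_lit 149585920)) (I.mix (nat_lit 9617408) (nat_lit 34619392)) (I.pos (nat_lit 41811968) (nat_lit 100499456)) (I.pos (nat_lit 325713920) (nat_lit 371916800)) (I.mix (nat_lit 116326400) (nat_lit 64618496)) (I.mix (nat_lit 104038400) (nat_lit 73859072)) (I.mix (nat_lit 102023168) (nat_lit 90685440)))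
  false (nat_lit 0)
def b2_44 : Bx := Bx.mk (St.mk (I.neg (nat_lit 58589184) (nat_lit 95649792)) (I.pos (nat_lit 28475392) (nat_lit 82264064)) (I.mix (nat_lit 20643840) (nat_lit 23920640)) (I.pos (nat_lit 293289984) (nat_lit 329908224)) (I.mix (nat_lit 101384192) (nat_lit 86982656)) (I.mix (nat_lit 76578816) (nat_lit 74727424)) (I.mix (nat_lit 54132736) (nat_lit 73334784)))
  true (nat_lit 0)
def b2_45 : Bx := Bx.mk (St.mk (I.pos (nat_lit 63946752) (nat_lit 103415808)) (I.neg (nat_lit 2195456) (nat_lit 50937856)) (I.pos (nat_lit 2490368) (nat_lit 46284800)) (I.pos (nat_lit 292651008) (nat_lit 322469888)) (I.mix (nat_lit 87703552) (nat_lit 49414144)) (I.mix (nat_lit 49053696) (nat_lit 63913984)) (I.mix (nat_lit 49987584) (nat_lit 51609600)))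
  false (nat_lit 0)
def t2 : BTr := (BTr.n (BTr.n (BTr.n (BTr.n (BTr.n (BTr.b b2_0) (BTr.b b2_1)) (BTr.n (BTr.b b2_2) (BTr.n (BTr.b b2_3) (BTr.b b2_4)))) (BTr.n (BTr.n (BTr.b b2_5) (BTr.n (BTr.b b2_6) (BTr.b b2_7))) (BTr.n (BTr.b b2_8) (BTr.n (BTr.b b2_9) (BTr.b b2_10))))) (BTr.n (BTr.n (BTr.n (BTr.b b2_11) (BTr.n (BTr.b b2_12) (BTr.b b2_13))) (BTr.n (BTr.b b2_14) (BTr.n (BTr.b b2_15) (BTr.b b2_16)))) (BTr.n (BTr.n (BTr.b b2_17) (BTr.n (BTr.b b2_18) (BTr.b b2_19))) (BTr.n (BTr.b b2_20) (BTr.n (BTr.b b2_21) (BTr.b b2_22)))))) (BTr.n (BTr.n (BTr.n (BTr.n (BTr.b b2_23) (BTr.b b2_24)) (BTr.n (BTr.b b2_25) (BTr.n (BTr.b b2_26) (BTr.b b2_27)))) (BTr.n (BTr.n (BTr.b b2_28) (BTr.n (BTr.b b2_29) (BTr.b b2_30))) (BTr.n (BTr.b b2_31) (BTr.n (BTr.b b2_32) (BTr.b b2_33))))) (BTr.n (BTr.n (BTr.n (BTr.b b2_34) (BTr.n (BTr.b b2_35) (BTr.b b2_36)))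 (BTr.n (BTr.b b2_37) (BTr.n (BTr.b b2_38) (BTr.b b2_39)))) (BTr.n (BTr.n (BTr.b b2_40) (BTr.n (BTr.b b2_41) (BTr.b b2_42))) (BTr.n (BTr.b b2_43) (BTr.n (BTr.b b2_44) (BTr.b b2_45)))))))
namespace T2
def l0 : Tr := Tr.L (Pth.l (Pth.l (Pth.l (Pth.l (Pth.l Pth.z)))))
def l1 : Tr := Tr.L (Pth.l (Pth.l (Pth.l (Pth.l (Pth.r Pth.z)))))
def l2 : Tr := Tr.L (Pth.l (Pth.l (Pth.l (Pth.r (Pth.l Pth.z)))))
def l3 : Tr := Tr.L (Pth.l (Pth.l (Pth.l (Pth.r (Pth.r (Pth.l Pth.z))))))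
def l4 : Tr := Tr.L (Pth.l (Pth.l (Pth.l (Pth.r (Pth.r (Pth.r Pth.z))))))
def l5 : Tr := Tr.L (Pth.l (Pth.l (Pth.r (Pth.l (Pth.l Pth.z)))))
def l6 : Tr := Tr.L (Pth.l (Pth.l (Pth.r (Pth.l (Pth.r (Pth.l Pth.z))))))
def l7 : Tr := Tr.L (Pth.l (Pth.l (Pth.r (Pth.l (Pth.r (Pth.r Pth.z))))))
def l8 : Tr := Tr.L (Pth.l (Pth.l (Pth.r (Pth.r (Pth.l Pth.z)))))
def l9 : Tr := Tr.L (Pth.l (Pth.l (Pth.r (Pth.r (Pth.r (Pth.l Pth.z))))))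
def l10 : Tr := Tr.L (Pth.l (Pth.l (Pth.r (Pth.r (Pth.r (Pth.r Pth.z))))))
def l11 : Tr := Tr.L (Pth.l (Pth.r (Pth.l (Pth.l (Pth.l Pth.z)))))
def l12 : Tr := Tr.L (Pth.l (Pth.r (Pth.l (Pth.l (Pth.r (Pth.l Pth.z))))))
def l13 : Tr := Tr.L (Pth.l (Pth.r (Pth.l (Pth.l (Pth.r (Pth.r Pth.z))))))
def l14 : Tr := Tr.L (Pth.l (Pth.r (Pth.l (Pth.r (Pth.l Pth.z)))))
def l15 : Tr := Tr.L (Pth.l (Pth.r (Pth.l (Pth.r (Pth.r (Pth.l Pth.z))))))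
def l16 : Tr := Tr.L (Pth.l (Pth.r (Pth.l (Pth.r (Pth.r (Pth.r Pth.z))))))
def l17 : Tr := Tr.L (Pth.l (Pth.r (Pth.r (Pth.l (Pth.l Pth.z)))))
def l18 : Tr := Tr.L (Pth.l (Pth.r (Pth.r (Pth.l (Pth.r (Pth.l Pth.z))))))
def l19 : Tr := Tr.L (Pth.l (Pth.r (Pth.r (Pth.l (Pth.r (Pth.r Pth.z))))))
def l20 : Tr := Tr.L (Pth.l (Pth.r (Pth.r (Pth.r (Pth.l Pth.z)))))
def l21 : Tr := Tr.L (Pth.l (Pth.r (Pth.r (Pth.r (Pth.r (Pth.l Pth.z))))))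
def l22 : Tr := Tr.L (Pth.l (Pth.r (Pth.r (Pth.r (Pth.r (Pth.r Pth.z))))))
def l23 : Tr := Tr.L (Pth.r (Pth.l (Pth.l (Pth.l (Pth.l Pth.z)))))
def l24 : Tr := Tr.L (Pth.r (Pth.l (Pth.l (Pth.l (Pth.r Pth.z)))))
def l25 : Tr := Tr.L (Pth.r (Pth.l (Pth.l (Pth.r (Pth.l Pth.z)))))
def l26 : Tr := Tr.L (Pth.r (Pth.l (Pth.l (Pth.r (Pth.r (Pth.l Pth.z))))))
def l27 : Tr := Tr.L (Pth.r (Pth.l (Pth.l (Pth.r (Pth.r (Pth.r Pth.z))))))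
def l28 : Tr := Tr.L (Pth.r (Pth.l (Pth.r (Pth.l (Pth.l Pth.z)))))
def l29 : Tr := Tr.L (Pth.r (Pth.l (Pth.r (Pth.l (Pth.r (Pth.l Pth.z))))))
def l30 : Tr := Tr.L (Pth.r (Pth.l (Pth.r (Pth.l (Pth.r (Pth.r Pth.z))))))
def l31 : Tr := Tr.L (Pth.r (Pth.l (Pth.r (Pth.r (Pth.l Pth.z)))))
def l32 : Tr := Tr.L (Pth.r (Pth.l (Pth.r (Pth.r (Pth.r (Pth.l Pth.z))))))
def l33 : Tr := Tr.L (Pth.r (Pth.l (Pth.r (Pth.r (Pth.r (Pth.r Pth.z))))))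
def l34 : Tr := Tr.L (Pth.r (Pth.r (Pth.l (Pth.l (Pth.l Pth.z)))))
def l35 : Tr := Tr.L (Pth.r (Pth.r (Pth.l (Pth.l (Pth.r (Pth.l Pth.z))))))
def l36 : Tr := Tr.L (Pth.r (Pth.r (Pth.l (Pth.l (Pth.r (Pth.r Pth.z))))))
def l37 : Tr := Tr.L (Pth.r (Pth.r (Pth.l (Pth.r (Pth.l Pth.z)))))
def l38 : Tr := Tr.L (Pth.r (Pth.r (Pth.l (Pth.r (Pth.r (Pth.l Pth.z))))))
def l39 : Tr := Tr.L (Pth.r (Pth.r (Pth.l (Pth.r (Pth.r (Pth.r Pth.z))))))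
def l40 : Tr := Tr.L (Pth.r (Pth.r (Pth.r (Pth.l (Pth.l Pth.z)))))
def l41 : Tr := Tr.L (Pth.r (Pth.r (Pth.r (Pth.l (Pth.r (Pth.l Pth.z))))))
def l42 : Tr := Tr.L (Pth.r (Pth.r (Pth.r (Pth.l (Pth.r (Pth.r Pth.z))))))
def l43 : Tr := Tr.L (Pth.r (Pth.r (Pth.r (Pth.r (Pth.l Pth.z)))))
def l44 : Tr := Tr.L (Pth.r (Pth.r (Pth.r (Pth.r (Pth.r (Pth.l Pth.z))))))
def l45 : Tr := Tr.L (Pth.r (Pth.r (Pth.r (Pth.r (Pth.r (Pth.r Pth.z))))))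
end T2
theorem c0_0_0 : chkTag sI cl4 cl4 cl7 t0 b0_0 (tg true true false RT.r2) (I.pos (nat_lit 0) (nat_lit 0))
  (xb (xa (xb (xa (xb (xa (xb T0.l0 T0.l0) T0.l0) (xa (xb T0.l0 T0.l0) T0.l0)) (xb T0.l0 T0.l0)) (xa (xb (xa (xb T0.l0 T0.l0) T0.l0) (xa (xb T0.l0 T0.l0) T0.l0)) (xb T0.l0 T0.l0))) (xb (xa T0.l0 T0.l0) (xa (xb T0.l0 T0.l0) T0.l0))) (xa (xb (xa (xb (xa (xb T0.l0 T0.l0) T0.l0) (xa (xb T0.l0 T0.l0) T0.l0)) (xb T0.l0 T0.l0)) (xa (xb (xa (xb (xc T0.l0 T0.l0) (xa T0.l0 T0.l0)) (xb T0.l0 T0.l0)) (xa (xb (xe T0.l0 (xc T0.l0 T0.l0)) (xs (xa T0.l0 T0.l0) (xe (xa T0.l0 T0.l0) (xc T0.l0 T0.l0)))) (xb (xc T0.l0 T0.l0) (xe (xs T0.l0 (xa T0.l0 T0.l0)) T0.l0)))) (xb (xa T0.l0 T0.l0) (xa (xb T0.l0 (xs T0.l0 (xe T0.l0 T0.l0))) (xb T0.l0 (xs T0.l0 T0.l0)))))) (xb (xa (xb T0.l0 T0.l0) (xb T0.l0 T0.l0)) (xa (xb (xa T0.l0 T0.l0) (xa (xb T0.l0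 (xs T0.l0 (xe T0.l0 T0.l0))) (xb (xs T0.l0 T0.l0) (xs (xe T0.l0 T0.l0) (xe (xa T0.l0 T0.l0) (xa T0.l0 T0.l0)))))) (xb (xa T0.l0 (xb T0.l0 T0.l0)) (xa (xb (xs T0.l0 T0.l0) (xs (xe T0.l0 T0.l0) (xa T0.l0 (xe T0.l0 T0.l0)))) (xb (xs T0.l0 (xe T0.l0 T0.l0)) (xs (xe (xa T0.l0 T0.l0) (xa T0.l0 T0.l0)) (xa (xe T0.l0 T0.l0) (xe T0.l0 T0.l0)))))))))) = true := by decide +kernel
theorem c0_0_1 : chkTag sI cl4 cl4 cl7 t2 b0_0 (tg true false false RT.r3) (I.pos (nat_lit 0) (nat_lit 0))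
  (xb (xa (xb T2.l1 (xa T2.l1 T2.l1)) (xb (xa T2.l1 T2.l1) (xa T2.l1 T2.l1))) (xa (xb (xa T2.l1 T2.l1) (xa T2.l1 T2.l1)) (xb (xa T2.l1 T2.l1) (xa T2.l1 (xb T2.l1 T2.l1))))) = true := by decide +kernel
theorem c0_0_2 : chkTag sI cl4 cl4 cl7 t0 b0_0 (tg true true true RT.r4) (I.pos (nat_lit 0) (nat_lit 0))
  (xb (xa (xb T0.l1 T0.l1) (xc (xb T0.l1 T0.l1) (xb T0.l1 T0.l1))) (xa (xb T0.l1 T0.l1) (xc (xb T0.l1 (xa T0.l1 T0.l1)) (xb T0.l1 (xa T0.l1 T0.l1))))) = true := by decide +kernel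
theorem c0_0_3 : chkTag sI cl4 cl4 cl7 t2 b0_0 (tg false false false RT.r3) (I.pos (nat_lit 0) (nat_lit 0))
  (xb (xa (xb (xa (xb (xc (xa T2.l2 T2.l2) (xa T2.l2 T2.l2)) T2.l2) (xb (xc T2.l2 (xa T2.l2 T2.l2)) (xc T2.l2 T2.l2))) (xa T2.l2 (xb T2.l2 T2.l2))) (xb (xa (xb (xc (xa T2.l2 (xe T2.l2 T2.l2)) (xa T2.l2 T2.l2)) (xc (xa T2.l2 T2.l2) T2.l2)) (xb (xc (xa (xe T2.l2 T2.l2) (xe T2.l2 T2.l2)) (xa (xe T2.l2 T2.l2) (xe T2.l2 T2.l2))) (xc (xa T2.l2 (xe T2.l2 T2.l2)) (xa T2.l2 T2.l2)))) (xa (xb (xc T2.l2 T2.l2) (xc T2.l2 T2.l2)) (xb (xc (xa T2.l2 T2.l2) (xa T2.l2 T2.l2)) (xc T2.l2 (xa T2.l2 T2.l2)))))) (xa (xb (xa T2.l2 (xb T2.l2 T2.l2)) (xa (xb T2.l2 (xc (xa T2.l2 T2.l2) (xa T2.l2 T2.l2))) (xb T2.l2 (xc T2.l2 (xa T2.l2 T2.l2))))) (xb (xa (xb T2.l2 (xc T2.l2 T2.l2)) (xb (xc T2.l2 (xa T2.l2 T2.l2)) (xc (xa T2.l2 T2.l2) (xa T2.l2 (xe T2.l2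 T2.l2))))) (xa (xb (xc T2.l2 (xa T2.l2 T2.l2)) (xc (xa T2.l2 T2.l2) (xa T2.l2 (xe T2.l2 T2.l2)))) (xb (xc (xa T2.l2 (xe T2.l2 T2.l2)) (xe (xa T2.l2 (xs T2.l2 T2.l2)) (xa T2.l2 T2.l2))) (xc (xa (xe T2.l2 T2.l2) (xe T2.l2 T2.l2)) (xa (xe T2.l2 T2.l2) (xe (xs T2.l2 T2.l2) (xs T2.l2 T2.l2))))))))) = true := by decide +kernel
theorem c0_0_4 : chkTag sI cl4 cl4 cl7 t0 b0_0 (tg false true false RT.r4) (I.pos (nat_lit 0) (nat_lit 0))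
  (xb (xa (xb T0.l2 T0.l2) (xc (xb T0.l2 T0.l2) (xb T0.l2 T0.l2))) (xa (xb T0.l2 T0.l2) (xc (xb T0.l2 (xa T0.l2 T0.l2)) (xb T0.l2 (xa T0.l2 T0.l2))))) = true := by decide +kernel
theorem c0_0_5 : chkTag sI cl4 cl4 cl7 t2 b0_0 (tg false false true RT.r5) (I.pos (nat_lit 0) (nat_lit 0))
  (xb (xa (xb T2.l3 (xa T2.l3 T2.l3)) (xb (xa T2.l3 T2.l3) (xa T2.l3 T2.l3))) (xa (xb (xa T2.l3 T2.l3) (xa T2.l3 T2.l3)) (xb (xa T2.l3 T2.l3) (xa T2.l3 (xb T2.l3 T2.l3))))) = true := by decide +kernel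
theorem bx0_0 : BoxOK sI cl4 cl4 cl7 t0 t2 b0_0 :=
  box_mk' [(tg true true false RT.r2), (tg true false false RT.r3), (tg true true true RT.r4), (tg false false false RT.r3), (tg false true false RT.r4), (tg false false true RT.r5)] rfl (allL_c (ex_mk c0_0_0) (allL_c (ex_mk c0_0_1) (allL_c (ex_mk c0_0_2) (allL_c (ex_mk c0_0_3) (allL_c (ex_mk c0_0_4) (allL_c (ex_mk c0_0_5) allL_n))))))
theorem bx0_1 : BoxOK sI cl4 cl4 cl7 t0 t2 b0_1 :=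
  box_mk (TrL.c (I.pos (nat_lit 0) (nat_lit 0)) (xb T2.l4 T2.l4)
  (TrL.c (I.pos (nat_lit 0) (nat_lit 0)) (xb T0.l3 T0.l3)
  TrL.n)) (by decide +kernel)
theorem bx0_2 : BoxOK sI cl4 cl4 cl7 t0 t2 b0_2 :=
  box_mk (TrL.c (I.pos (nat_lit 0) (nat_lit 0)) (xa (xb (xb (xa (xb (xa T0.l4 T0.l4) (xa T0.l4 T0.l4)) (xb T0.l4 T0.l4)) (xa (xb (xa T0.l4 T0.l4) T0.l4) T0.l4)) (xb (xa (xb T0.l4 T0.l4) (xb T0.l4 T0.l4)) (xa (xb (xa T0.l4 T0.l4) (xa T0.l4 T0.l4)) (xa (xb T0.l4 T0.l4) (xb T0.l4 T0.l4))))) (xb (xa (xb (xb (xa T0.l4 T0.l4) T0.l4) T0.l4) (xb (xa T0.l4 T0.l4) T0.l4)) (xb (xa (xb T0.l4 T0.l4) T0.l4) (xa (xa T0.l4 T0.l4) (xa T0.l4 T0.l4)))))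
  (TrL.c (I.pos (nat_lit 0) (nat_lit 0)) (xb T2.l4 T2.l4)
  (TrL.c (I.pos (nat_lit 0) (nat_lit 0)) (xb T0.l3 T0.l3)
  (TrL.c (I.pos (nat_lit 0) (nat_lit 0)) (xb (xa T2.l5 T2.l5) (xa T2.l5 T2.l5))
  (TrL.c (I.pos (nat_lit 0) (nat_lit 0)) (xb T0.l5 T0.l5)
  (TrL.c (I.pos (nat_lit 0) (nat_lit 0)) (xb T2.l6 T2.l6)
  TrL.n)))))) (by decide +kernel)
theorem bx0_3 : BoxOK sI cl4 cl4 cl7 t0 t2 b0_3 :=
  box_mk (TrL.c (I.pos (nat_lit 0) (nat_lit 0)) T2.l7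
  (TrL.c (I.pos (nat_lit 0) (nat_lit 0)) T0.l6
  TrL.n)) (by decide +kernel)
theorem bx0_4 : BoxOK sI cl4 cl4 cl7 t0 t2 b0_4 :=
  box_mk (TrL.c (I.pos (nat_lit 0) (nat_lit 0)) (xa (xb T0.l0 T0.l0) (xb T0.l8 (xa T0.l0 T0.l8)))
  (TrL.c (I.pos (nat_lit 0) (nat_lit 0)) (xa T2.l1 (xb T2.l1 T2.l1))
  (TrL.c (I.pos (nat_lit 0) (nat_lit 0)) (xa T0.l1 T0.l9)
  (TrL.c (I.pos (nat_lit 0) (nat_lit 0)) (xa (xb (xa (xb (xe T2.l2 T2.l2) T2.l2) (xb (xe T2.l2 T2.l2) T2.l2)) T2.l2) (xb (xa (xb (xe T2.l2 T2.l2) T2.l2) (xe (xb (xc T2.l2 T2.l2) T2.l2) (xb T2.l2 T2.l2))) (xa T2.l2 (xb T2.l2 (xe (xc T2.l2 T2.l2) T2.l2)))))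
  (TrL.c (I.pos (nat_lit 0) (nat_lit 0)) (xa T0.l2 T0.l7)
  (TrL.c (I.pos (nat_lit 0) (nat_lit 0)) (xa T2.l3 (xb T2.l3 T2.l3))
  TrL.n)))))) (by decide +kernel)
theorem bx0_5 : BoxOK sI cl4 cl4 cl7 t0 t2 b0_5 :=
  box_mk (TrL.c (I.pos (nat_lit 0) (nat_lit 0)) (xb T0.l4 (xa (xb T0.l4 (xa T0.l4 T0.l4)) (xb T0.l4 T0.l4)))
  (TrL.c (I.pos (nat_lit 0) (nat_lit 0)) T2.l10
  (TrL.c (I.pos (nat_lit 0) (nat_lit 0)) T0.l10
  (TrL.c (I.pos (nat_lit 0) (nat_lit 0)) T2.l5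
  (TrL.c (I.pos (nat_lit 0) (nat_lit 0)) T0.l5
  (TrL.c (I.pos (nat_lit 0) (nat_lit 0)) T2.l6
  TrL.n)))))) (by decide +kernel)
theorem bx0_6 : BoxOK sI cl4 cl4 cl7 t0 t2 b0_6 :=
  box_mk (TrL.c (I.pos (nat_lit 0) (nat_lit 0)) T2.l7
  (TrL.c (I.pos (nat_lit 0) (nat_lit 0)) T0.l6
  TrL.n)) (by decide +kernel)
theorem bx0_7 : BoxOK sI cl4 cl4 cl7 t0 t2 b0_7 :=
  box_mk (TrL.c (I.pos (nat_lit 0) (nat_lit 0)) (xa (xb (xa (xb (xa (xb T0.l11 T0.l11) (xb T0.l11 T0.l11)) (xa (xb T0.l11 T0.l11) T0.l11)) (xb (xa T0.l11 T0.l11) T0.l11)) (xa (xb (xa T0.l11 T0.l11) (xa T0.l4 T0.l4)) (xb T0.l4 T0.l4))) (xb (xa (xb (xa T0.l11 T0.l11) T0.l11) (xb (xa T0.l11 T0.l11) T0.l11)) (xa (xb T0.l4 (xa T0.l4 T0.l11)) (xb (xa T0.l11 T0.l11) (xa T0.l11 T0.l11)))))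
  (TrL.c (I.pos (nat_lit 0) (nat_lit 0)) (xa T2.l11 T2.l11)
  (TrL.c (I.pos (nat_lit 0) (nat_lit 0)) (xb T0.l12 T0.l12)
  (TrL.c (I.pos (nat_lit 0) (nat_lit 0)) (xa (xb T2.l12 T2.l12) (xb T2.l12 T2.l12))
  (TrL.c (I.pos (nat_lit 0) (nat_lit 0)) (xb T0.l13 T0.l13)
  (TrL.c (I.pos (nat_lit 0) (nat_lit 0)) (xa T2.l13 T2.l13)
  TrL.n)))))) (by decide +kernel)
theorem bx0_8 : BoxOK sI cl4 cl4 cl7 t0 t2 b0_8 :=
  box_mk (TrL.c (I.pos (nat_lit 0) (nat_lit 0)) (xa (xb (xa (xb (xa T0.l45 T0.l45) (xa T0.l45 T0.l45)) (xb T0.l45 T0.l45)) (xa (xb (xa (xb T0.l45 T0.l45) T0.l45) (xb (xa T0.l45 T0.l45) (xa T0.l45 T0.l45))) (xb T0.l45 (xa T0.l45 T0.l0)))) (xb (xa (xb T0.l45 T0.l45) T0.l0) (xa (xb T0.l0 T0.l0) T0.l0)))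
  (TrL.c (I.pos (nat_lit 0) (nat_lit 0)) (xa (xb T2.l42 T2.l42) (xb T2.l1 T2.l1))
  (TrL.c (I.pos (nat_lit 0) (nat_lit 0)) (xa (xb T0.l14 T0.l1) T0.l1)
  (TrL.c (I.pos (nat_lit 0) (nat_lit 0)) (xa (xb (xa (xb (xe T2.l43 T2.l43) (xe T2.l2 T2.l2)) T2.l2) (xb T2.l2 T2.l2)) (xb T2.l2 T2.l2))
  (TrL.c (I.pos (nat_lit 0) (nat_lit 0)) (xa (xb T0.l15 T0.l2) T0.l2)
  (TrL.c (I.pos (nat_lit 0) (nat_lit 0)) (xa (xb T2.l44 T2.l44) (xb T2.l3 T2.l3))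
  TrL.n)))))) (by decide +kernel)
theorem bx0_9 : BoxOK sI cl4 cl4 cl7 t0 t2 b0_9 :=
  box_mk (TrL.c (I.pos (nat_lit 0) (nat_lit 0)) (xa T2.l45 T2.l45)
  (TrL.c (I.pos (nat_lit 0) (nat_lit 0)) (xb T0.l12 T0.l12)
  TrL.n)) (by decide +kernel)
theorem bx0_10 : BoxOK sI cl4 cl4 cl7 t0 t2 b0_10 :=
  box_mk (TrL.c (I.pos (nat_lit 0) (nat_lit 0)) T2.l4
  (TrL.c (I.pos (nat_lit 0) (nat_lit 0)) T0.l3
  TrL.n)) (by decide +kernel)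
theorem bx0_11 : BoxOK sI cl4 cl4 cl7 t0 t2 b0_11 :=
  box_mk (TrL.c (I.pos (nat_lit 0) (nat_lit 0)) (xb (xa T0.l0 T0.l0) (xa T0.l0 T0.l0))
  (TrL.c (I.pos (nat_lit 0) (nat_lit 0)) (xb (xa T2.l1 T2.l1) T2.l1)
  (TrL.c (I.pos (nat_lit 0) (nat_lit 0)) (xb (xa T0.l1 T0.l1) (xa T0.l1 T0.l1))
  (TrL.c (I.pos (nat_lit 0) (nat_lit 0)) (xb (xa (xb (xc (xa (xe T2.l2 T2.l2) T2.l2) T2.l2) T2.l2) (xb T2.l2 T2.l2)) (xa T2.l2 (xb T2.l2 T2.l2)))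
  (TrL.c (I.pos (nat_lit 0) (nat_lit 0)) (xb (xa T0.l2 T0.l2) (xa T0.l2 T0.l2))
  (TrL.c (I.pos (nat_lit 0) (nat_lit 0)) (xb (xa T2.l3 T2.l3) T2.l3)
  TrL.n)))))) (by decide +kernel)
theorem bx0_12 : BoxOK sI cl4 cl4 cl7 t0 t2 b0_12 :=
  box_mk (TrL.c (I.pos (nat_lit 0) (nat_lit 0)) T2.l4
  (TrL.c (I.pos (nat_lit 0) (nat_lit 0)) T0.l3
  TrL.n)) (by decide +kernel)
theorem bx0_13 : BoxOK sI cl4 cl4 cl7 t0 t2 b0_13 :=
  box_mk (TrL.c (I.pos (nat_lit 0) (nat_lit 0)) (xb (xb T0.l4 T0.l4) (xb T0.l4 (xa T0.l4 (xb T0.l4 (xa T0.l4 T0.l4)))))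
  (TrL.c (I.pos (nat_lit 0) (nat_lit 0)) T2.l4
  (TrL.c (I.pos (nat_lit 0) (nat_lit 0)) T0.l3
  (TrL.c (I.pos (nat_lit 0) (nat_lit 0)) T2.l5
  (TrL.c (I.pos (nat_lit 0) (nat_lit 0)) T0.l5
  (TrL.c (I.pos (nat_lit 0) (nat_lit 0)) T2.l6
  TrL.n)))))) (by decide +kernel)
theorem bx0_14 : BoxOK sI cl4 cl4 cl7 t0 t2 b0_14 :=
  box_mk (TrL.c (I.pos (nat_lit 0) (nat_lit 0)) T2.l4
  (TrL.c (I.pos (nat_lit 0) (nat_lit 0)) T0.l3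
  TrL.n)) (by decide +kernel)
theorem bx0_15 : BoxOK sI cl4 cl4 cl7 t0 t2 b0_15 :=
  box_mk (TrL.c (I.pos (nat_lit 0) (nat_lit 0)) (xb (xa T0.l4 T0.l4) T0.l4)
  (TrL.c (I.pos (nat_lit 0) (nat_lit 0)) T2.l4
  (TrL.c (I.pos (nat_lit 0) (nat_lit 0)) T0.l3
  (TrL.c (I.pos (nat_lit 0) (nat_lit 0)) T2.l5
  (TrL.c (I.pos (nat_lit 0) (nat_lit 0)) T0.l5
  (TrL.c (I.pos (nat_lit 0) (nat_lit 0)) T2.l6
  TrL.n)))))) (by decide +kernel)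
theorem bx0_16 : BoxOK sI cl4 cl4 cl7 t0 t2 b0_16 :=
  box_mk (TrL.c (I.pos (nat_lit 0) (nat_lit 0)) (xb T0.l11 (xa (xb T0.l11 (xa T0.l11 T0.l11)) T0.l11))
  (TrL.c (I.pos (nat_lit 0) (nat_lit 0)) T2.l11
  (TrL.c (I.pos (nat_lit 0) (nat_lit 0)) T0.l12
  (TrL.c (I.pos (nat_lit 0) (nat_lit 0)) T2.l12
  (TrL.c (I.pos (nat_lit 0) (nat_lit 0)) T0.l13
  (TrL.c (I.pos (nat_lit 0) (nat_lit 0)) T2.l13
  TrL.n)))))) (by decide +kernel)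
theorem bx0_17 : BoxOK sI cl4 cl4 cl7 t0 t2 b0_17 :=
  box_mk (TrL.c (I.pos (nat_lit 0) (nat_lit 0)) (xb (xa T0.l45 (xb T0.l45 T0.l45)) (xa T0.l45 T0.l45))
  (TrL.c (I.pos (nat_lit 0) (nat_lit 0)) (xb T2.l42 T2.l42)
  (TrL.c (I.pos (nat_lit 0) (nat_lit 0)) T0.l14
  (TrL.c (I.pos (nat_lit 0) (nat_lit 0)) (xb (xa T2.l43 (xb T2.l43 T2.l43)) T2.l43)
  (TrL.c (I.pos (nat_lit 0) (nat_lit 0)) T0.l15
  (TrL.c (I.pos (nat_lit 0) (nat_lit 0)) (xb T2.l44 T2.l44)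
  TrL.n)))))) (by decide +kernel)
theorem bx0_18 : BoxOK sI cl4 cl4 cl7 t0 t2 b0_18 :=
  box_mk (TrL.c (I.pos (nat_lit 0) (nat_lit 0)) T2.l45
  (TrL.c (I.pos (nat_lit 0) (nat_lit 0)) T0.l12
  TrL.n)) (by decide +kernel)
theorem bx0_19 : BoxOK sI cl4 cl4 cl7 t0 t2 b0_19 :=
  box_mk (TrL.c (I.pos (nat_lit 0) (nat_lit 0)) (xa (xb T0.l11 T0.l11) (xb (xa T0.l11 T0.l11) (xa T0.l11 (xb T0.l11 T0.l45))))
  (TrL.c (I.pos (nat_lit 0) (nat_lit 0)) (xa T2.l11 T2.l11)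
  (TrL.c (I.pos (nat_lit 0) (nat_lit 0)) (xa T0.l12 T0.l12)
  (TrL.c (I.pos (nat_lit 0) (nat_lit 0)) (xa T2.l12 (xb T2.l12 T2.l12))
  (TrL.c (I.pos (nat_lit 0) (nat_lit 0)) (xa T0.l13 T0.l13)
  (TrL.c (I.pos (nat_lit 0) (nat_lit 0)) (xa T2.l13 T2.l13)
  TrL.n)))))) (by decide +kernel)
theorem bx0_20 : BoxOK sI cl4 cl4 cl7 t0 t2 b0_20 :=
  box_mk (TrL.c (I.pos (nat_lit 0) (nat_lit 0)) (xa (xb (xa (xb T0.l11 T0.l45) T0.l45) (xa T0.l45 T0.l45)) T0.l45)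
  (TrL.c (I.pos (nat_lit 0) (nat_lit 0)) (xa T2.l42 T2.l42)
  (TrL.c (I.pos (nat_lit 0) (nat_lit 0)) (xa T0.l14 T0.l14)
  (TrL.c (I.pos (nat_lit 0) (nat_lit 0)) (xa (xb (xb T2.l12 T2.l43) T2.l43) T2.l43)
  (TrL.c (I.pos (nat_lit 0) (nat_lit 0)) (xa T0.l15 T0.l15)
  (TrL.c (I.pos (nat_lit 0) (nat_lit 0)) (xa T2.l44 T2.l44)
  TrL.n)))))) (by decide +kernel)
theorem bx0_21 : BoxOK sI cl4 cl4 cl7 t0 t2 b0_21 :=
  box_mk (TrL.c (I.pos (nat_lit 0) (nat_lit 0)) (xa T2.l45 T2.l45)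
  (TrL.c (I.pos (nat_lit 0) (nat_lit 0)) (xa T0.l46 T0.l46)
  TrL.n)) (by decide +kernel)
theorem bx0_22 : BoxOK sI cl4 cl4 cl7 t0 t2 b0_22 :=
  box_mk (TrL.c (I.pos (nat_lit 0) (nat_lit 0)) (xa T0.l11 (xb T0.l11 (xa T0.l11 T0.l45)))
  (TrL.c (I.pos (nat_lit 0) (nat_lit 0)) T2.l11
  (TrL.c (I.pos (nat_lit 0) (nat_lit 0)) T0.l12
  (TrL.c (I.pos (nat_lit 0) (nat_lit 0)) T2.l12
  (TrL.c (I.pos (nat_lit 0) (nat_lit 0)) T0.l13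
  (TrL.c (I.pos (nat_lit 0) (nat_lit 0)) T2.l13
  TrL.n)))))) (by decide +kernel)
theorem bx0_23 : BoxOK sI cl4 cl4 cl7 t0 t2 b0_23 :=
  box_mk (TrL.c (I.pos (nat_lit 0) (nat_lit 0)) (xa (xb (xa T0.l11 T0.l45) T0.l45) T0.l45)
  (TrL.c (I.pos (nat_lit 0) (nat_lit 0)) T2.l42
  (TrL.c (I.pos (nat_lit 0) (nat_lit 0)) T0.l14
  (TrL.c (I.pos (nat_lit 0) (nat_lit 0)) (xa (xb T2.l12 T2.l43) T2.l43)
  (TrL.c (I.pos (nat_lit 0) (nat_lit 0)) T0.l15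
  (TrL.c (I.pos (nat_lit 0) (nat_lit 0)) T2.l44
  TrL.n)))))) (by decide +kernel)
theorem bx0_24 : BoxOK sI cl4 cl4 cl7 t0 t2 b0_24 :=
  box_mk (TrL.c (I.pos (nat_lit 0) (nat_lit 0)) T2.l45
  (TrL.c (I.pos (nat_lit 0) (nat_lit 0)) T0.l46
  TrL.n)) (by decide +kernel)
theorem bx0_25 : BoxOK sI cl4 cl4 cl7 t0 t2 b0_25 :=
  box_mk (TrL.c (I.pos (nat_lit 0) (nat_lit 0)) (xb (xa (xb (xa (xb T0.l11 T0.l11) T0.l11) (xa T0.l11 T0.l11)) (xb (xa T0.l11 T0.l11) T0.l11)) (xa (xb T0.l11 (xa T0.l4 T0.l11)) (xb (xa T0.l11 T0.l11) (xa T0.l11 T0.l11))))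
  (TrL.c (I.pos (nat_lit 0) (nat_lit 0)) (xb T2.l45 T2.l11)
  (TrL.c (I.pos (nat_lit 0) (nat_lit 0)) T0.l46
  (TrL.c (I.pos (nat_lit 0) (nat_lit 0)) (xb (xa T2.l12 T2.l12) (xa T2.l12 T2.l12))
  (TrL.c (I.pos (nat_lit 0) (nat_lit 0)) T0.l13
  (TrL.c (I.pos (nat_lit 0) (nat_lit 0)) (xb T2.l13 T2.l13)
  TrL.n)))))) (by decide +kernel)
theorem bx0_26 : BoxOK sI cl4 cl4 cl7 t0 t2 b0_26 :=
  box_mk (TrL.c (I.pos (nat_lit 0) (nat_lit 0)) (xb (xa (xb (xa (xb T0.l45 T0.l45) (xb T0.l0 T0.l45)) (xa (xb T0.l45 T0.l45) T0.l0)) (xa T0.l0 T0.l0)) (xa (xb (xa (xb T0.l45 T0.l45) T0.l0) (xa (xb (xa T0.l45 T0.l45) (xa T0.l0 T0.l45)) T0.l0)) (xb T0.l0 (xa T0.l0 T0.l0))))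
  (TrL.c (I.pos (nat_lit 0) (nat_lit 0)) (xb (xa T2.l42 T2.l1) T2.l1)
  (TrL.c (I.pos (nat_lit 0) (nat_lit 0)) (xa (xb T0.l14 T0.l1) (xb T0.l1 T0.l1))
  (TrL.c (I.pos (nat_lit 0) (nat_lit 0)) (xb (xa (xb (xa T2.l43 T2.l43) (xa T2.l43 T2.l43)) (xb (xa (xc T2.l43 T2.l43) (xc T2.l43 T2.l43)) (xa T2.l2 T2.l2))) (xa (xb (xa T2.l43 T2.l2) (xa T2.l2 T2.l2)) (xa T2.l2 T2.l2)))
  (TrL.c (I.pos (nat_lit 0) (nat_lit 0)) (xa (xb T0.l15 T0.l2) (xb T0.l2 T0.l2))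
  (TrL.c (I.pos (nat_lit 0) (nat_lit 0)) (xb (xa T2.l44 T2.l3) T2.l3)
  TrL.n)))))) (by decide +kernel)
theorem bx0_27 : BoxOK sI cl4 cl4 cl7 t0 t2 b0_27 :=
  box_mk (TrL.c (I.pos (nat_lit 0) (nat_lit 0)) (xb T2.l11 T2.l45)
  (TrL.c (I.pos (nat_lit 0) (nat_lit 0)) T0.l46
  TrL.n)) (by decide +kernel)
theorem bx0_28 : BoxOK sI cl4 cl4 cl7 t0 t2 b0_28 :=
  box_mk (TrL.c (I.pos (nat_lit 0) (nat_lit 0)) (xb T0.l11 (xa T0.l11 T0.l11))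
  (TrL.c (I.pos (nat_lit 0) (nat_lit 0)) T2.l11
  (TrL.c (I.pos (nat_lit 0) (nat_lit 0)) T0.l12
  (TrL.c (I.pos (nat_lit 0) (nat_lit 0)) T2.l12
  (TrL.c (I.pos (nat_lit 0) (nat_lit 0)) T0.l13
  (TrL.c (I.pos (nat_lit 0) (nat_lit 0)) T2.l13
  TrL.n)))))) (by decide +kernel)
theorem bx0_29 : BoxOK sI cl4 cl4 cl7 t0 t2 b0_29 :=
  box_mk (TrL.c (I.pos (nat_lit 0) (nat_lit 0)) (xb (xa T0.l45 T0.l45) T0.l45)
  (TrL.c (I.pos (nat_lit 0) (nat_lit 0)) T2.l42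
  (TrL.c (I.pos (nat_lit 0) (nat_lit 0)) T0.l14
  (TrL.c (I.pos (nat_lit 0) (nat_lit 0)) (xb (xa T2.l43 T2.l43) T2.l43)
  (TrL.c (I.pos (nat_lit 0) (nat_lit 0)) T0.l15
  (TrL.c (I.pos (nat_lit 0) (nat_lit 0)) T2.l44
  TrL.n)))))) (by decide +kernel)
theorem bx0_30 : BoxOK sI cl4 cl4 cl7 t0 t2 b0_30 :=
  box_mk (TrL.c (I.pos (nat_lit 0) (nat_lit 0)) T2.l45
  (TrL.c (I.pos (nat_lit 0) (nat_lit 0)) T0.l46
  TrL.n)) (by decide +kernel)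
theorem bx0_31 : BoxOK sI cl4 cl4 cl7 t0 t2 b0_31 :=
  box_mk (TrL.c (I.pos (nat_lit 0) (nat_lit 0)) (xa (xb T0.l11 T0.l11) (xb (xa T0.l11 (xb T0.l11 T0.l11)) (xa (xb T0.l11 T0.l11) (xb T0.l45 T0.l45))))
  (TrL.c (I.pos (nat_lit 0) (nat_lit 0)) (xa T2.l11 T2.l45)
  (TrL.c (I.pos (nat_lit 0) (nat_lit 0)) (xa T0.l12 T0.l12)
  (TrL.c (I.pos (nat_lit 0) (nat_lit 0)) (xa T2.l12 (xb (xa T2.l12 T2.l12) (xb T2.l12 T2.l43)))
  (TrL.c (I.pos (nat_lit 0) (nat_lit 0)) (xa T0.l13 T0.l13)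
  (TrL.c (I.pos (nat_lit 0) (nat_lit 0)) (xa T2.l13 T2.l13)
  TrL.n)))))) (by decide +kernel)
theorem bx0_32 : BoxOK sI cl4 cl4 cl7 t0 t2 b0_32 :=
  box_mk (TrL.c (I.pos (nat_lit 0) (nat_lit 0)) (xa (xb (xa (xb T0.l11 T0.l11) (xb T0.l45 T0.l45)) (xb T0.l45 (xa T0.l45 T0.l45))) (xb T0.l45 T0.l45))
  (TrL.c (I.pos (nat_lit 0) (nat_lit 0)) (xb (xa T2.l11 T2.l42) (xa T2.l42 T2.l42))
  (TrL.c (I.pos (nat_lit 0) (nat_lit 0)) (xb T0.l14 T0.l14)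
  (TrL.c (I.pos (nat_lit 0) (nat_lit 0)) (xa (xb (xb T2.l12 T2.l12) (xb T2.l43 T2.l43)) T2.l43)
  (TrL.c (I.pos (nat_lit 0) (nat_lit 0)) (xb T0.l15 T0.l15)
  (TrL.c (I.pos (nat_lit 0) (nat_lit 0)) (xb (xa T2.l13 T2.l44) (xa T2.l44 T2.l44))
  TrL.n)))))) (by decide +kernel)
theorem bx0_33 : BoxOK sI cl4 cl4 cl7 t0 t2 b0_33 :=
  box_mk (TrL.c (I.pos (nat_lit 0) (nat_lit 0)) (xa T2.l45 T2.l45)
  (TrL.c (I.pos (nat_lit 0) (nat_lit 0)) (xa T0.l46 T0.l46)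
  TrL.n)) (by decide +kernel)
theorem bx0_34 : BoxOK sI cl4 cl4 cl7 t0 t2 b0_34 :=
  box_mk (TrL.c (I.pos (nat_lit 0) (nat_lit 0)) (xa (xb T0.l11 T0.l11) (xb (xa T0.l11 T0.l11) T0.l45))
  (TrL.c (I.pos (nat_lit 0) (nat_lit 0)) T2.l11
  (TrL.c (I.pos (nat_lit 0) (nat_lit 0)) T0.l12
  (TrL.c (I.pos (nat_lit 0) (nat_lit 0)) (xb T2.l12 T2.l12)
  (TrL.c (I.pos (nat_lit 0) (nat_lit 0)) T0.l13
  (TrL.c (I.pos (nat_lit 0) (nat_lit 0)) T2.l13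
  TrL.n)))))) (by decide +kernel)
theorem bx0_35 : BoxOK sI cl4 cl4 cl7 t0 t2 b0_35 :=
  box_mk (TrL.c (I.pos (nat_lit 0) (nat_lit 0)) (xa (xb T0.l11 (xa T0.l11 T0.l45)) (xb (xa T0.l45 T0.l45) T0.l45))
  (TrL.c (I.pos (nat_lit 0) (nat_lit 0)) T2.l42
  (TrL.c (I.pos (nat_lit 0) (nat_lit 0)) T0.l14
  (TrL.c (I.pos (nat_lit 0) (nat_lit 0)) (xa T2.l12 (xb T2.l43 T2.l43))
  (TrL.c (I.pos (nat_lit 0) (nat_lit 0)) T0.l15
  (TrL.c (I.pos (nat_lit 0) (nat_lit 0)) T2.l44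
  TrL.n)))))) (by decide +kernel)
theorem bx0_36 : BoxOK sI cl4 cl4 cl7 t0 t2 b0_36 :=
  box_mk (TrL.c (I.pos (nat_lit 0) (nat_lit 0)) T2.l45
  (TrL.c (I.pos (nat_lit 0) (nat_lit 0)) T0.l46
  TrL.n)) (by decide +kernel)
theorem bx0_37 : BoxOK sI cl4 cl4 cl7 t0 t2 b0_37 :=
  box_mk (TrL.c (I.pos (nat_lit 0) (nat_lit 0)) T2.l45
  (TrL.c (I.pos (nat_lit 0) (nat_lit 0)) T0.l46
  TrL.n)) (by decide +kernel)
theorem bx0_38 : BoxOK sI cl4 cl4 cl7 t0 t2 b0_38 :=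
  box_mk (TrL.c (I.pos (nat_lit 0) (nat_lit 0)) T2.l45
  (TrL.c (I.pos (nat_lit 0) (nat_lit 0)) T0.l46
  TrL.n)) (by decide +kernel)
theorem bx0_39 : BoxOK sI cl4 cl4 cl7 t0 t2 b0_39 :=
  box_mk (TrL.c (I.pos (nat_lit 0) (nat_lit 0)) T0.l11
  (TrL.c (I.pos (nat_lit 0) (nat_lit 0)) T2.l11
  (TrL.c (I.pos (nat_lit 0) (nat_lit 0)) T0.l12
  (TrL.c (I.pos (nat_lit 0) (nat_lit 0)) T2.l12
  (TrL.c (I.pos (nat_lit 0) (nat_lit 0)) T0.l13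
  (TrL.c (I.pos (nat_lit 0) (nat_lit 0)) T2.l13
  TrL.n)))))) (by decide +kernel)
theorem bx0_40 : BoxOK sI cl4 cl4 cl7 t0 t2 b0_40 :=
  box_mk (TrL.c (I.pos (nat_lit 0) (nat_lit 0)) T0.l45
  (TrL.c (I.pos (nat_lit 0) (nat_lit 0)) T2.l42
  (TrL.c (I.pos (nat_lit 0) (nat_lit 0)) T0.l14
  (TrL.c (I.pos (nat_lit 0) (nat_lit 0)) T2.l43
  (TrL.c (I.pos (nat_lit 0) (nat_lit 0)) T0.l15
  (TrL.c (I.pos (nat_lit 0) (nat_lit 0)) T2.l44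
  TrL.n)))))) (by decide +kernel)
theorem bx0_41 : BoxOK sI cl4 cl4 cl7 t0 t2 b0_41 :=
  box_mk (TrL.c (I.pos (nat_lit 0) (nat_lit 0)) T2.l45
  (TrL.c (I.pos (nat_lit 0) (nat_lit 0)) T0.l46
  TrL.n)) (by decide +kernel)
theorem bx0_42 : BoxOK sI cl4 cl4 cl7 t0 t2 b0_42 :=
  box_mk (TrL.c (I.pos (nat_lit 0) (nat_lit 0)) T0.l11
  (TrL.c (I.pos (nat_lit 0) (nat_lit 0)) T2.l11
  (TrL.c (I.pos (nat_lit 0) (nat_lit 0)) T0.l12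
  (TrL.c (I.pos (nat_lit 0) (nat_lit 0)) T2.l12
  (TrL.c (I.pos (nat_lit 0) (nat_lit 0)) T0.l13
  (TrL.c (I.pos (nat_lit 0) (nat_lit 0)) T2.l13
  TrL.n)))))) (by decide +kernel)
theorem bx0_43 : BoxOK sI cl4 cl4 cl7 t0 t2 b0_43 :=
  box_mk (TrL.c (I.pos (nat_lit 0) (nat_lit 0)) T0.l45
  (TrL.c (I.pos (nat_lit 0) (nat_lit 0)) T2.l42
  (TrL.c (I.pos (nat_lit 0) (nat_lit 0)) T0.l14
  (TrL.c (I.pos (nat_lit 0) (nat_lit 0)) T2.l43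
  (TrL.c (I.pos (nat_lit 0) (nat_lit 0)) T0.l15
  (TrL.c (I.pos (nat_lit 0) (nat_lit 0)) T2.l44
  TrL.n)))))) (by decide +kernel)
theorem bx0_44 : BoxOK sI cl4 cl4 cl7 t0 t2 b0_44 :=
  box_mk (TrL.c (I.pos (nat_lit 0) (nat_lit 0)) T2.l45
  (TrL.c (I.pos (nat_lit 0) (nat_lit 0)) T0.l46
  TrL.n)) (by decide +kernel)
theorem bx0_45 : BoxOK sI cl4 cl4 cl7 t0 t2 b0_45 :=
  box_mk (TrL.c (I.pos (nat_lit 0) (nat_lit 0)) (xb (xa (xb T0.l0 T0.l0) (xb T0.l0 T0.l0)) (xa (xb (xa T0.l0 T0.l0) (xa T0.l0 T0.l0)) (xb T0.l0 (xa T0.l0 T0.l0))))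
  (TrL.c (I.pos (nat_lit 0) (nat_lit 0)) (xb (xa T2.l1 (xb T2.l1 T2.l1)) (xa T2.l1 (xb T2.l1 (xa T2.l1 T2.l1))))
  (TrL.c (I.pos (nat_lit 0) (nat_lit 0)) (xb (xa T0.l1 (xc T0.l1 T0.l1)) (xa T0.l1 (xc (xb T0.l1 T0.l1) (xb T0.l1 T0.l1))))
  (TrL.c (I.pos (nat_lit 0) (nat_lit 0)) (xb (xa (xb T2.l2 T2.l2) (xb (xa T2.l2 T2.l2) (xa T2.l2 (xc T2.l2 (xe T2.l2 T2.l2))))) (xa T2.l2 (xb (xa T2.l2 (xc T2.l2 (xe T2.l2 T2.l2))) (xa T2.l2 (xc T2.l2 (xe (xb T2.l2 T2.l2) (xb T2.l2 T2.l2)))))))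
  (TrL.c (I.pos (nat_lit 0) (nat_lit 0)) (xb (xa T0.l2 (xc T0.l2 T0.l2)) (xa T0.l2 (xc (xb T0.l2 T0.l2) (xb T0.l2 T0.l2))))
  (TrL.c (I.pos (nat_lit 0) (nat_lit 0)) (xb (xa T2.l3 (xb T2.l3 T2.l3)) (xa T2.l3 (xb T2.l3 (xa T2.l3 T2.l3))))
  TrL.n)))))) (by decide +kernel)
theorem bx0_46 : BoxOK sI cl4 cl4 cl7 t0 t2 b0_46 :=
  box_mk (TrL.c (I.pos (nat_lit 0) (nat_lit 0)) T2.l7
  (TrL.c (I.pos (nat_lit 0) (nat_lit 0)) T0.l6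
  TrL.n)) (by decide +kernel)
theorem sv0 : StarV sI cl4 cl4 cl7 t0 t2 t0 :=
  (bt_n (bt_n (bt_n (bt_n (bt_n (bt_b bx0_0) (bt_b bx0_1)) (bt_n (bt_b bx0_2) (bt_n (bt_b bx0_3) (bt_b bx0_4)))) (bt_n (bt_n (bt_b bx0_5) (bt_n (bt_b bx0_6) (bt_b bx0_7))) (bt_n (bt_b bx0_8) (bt_n (bt_b bx0_9) (bt_b bx0_10))))) (bt_n (bt_n (bt_n (bt_b bx0_11) (bt_n (bt_b bx0_12) (bt_b bx0_13))) (bt_n (bt_b bx0_14) (bt_n (bt_b bx0_15) (bt_b bx0_16)))) (bt_n (bt_n (bt_b bx0_17) (bt_n (bt_b bx0_18) (bt_b bx0_19))) (bt_n (bt_b bx0_20) (bt_n (bt_b bx0_21) (bt_b bx0_22)))))) (bt_n (bt_n (bt_n (bt_n (bt_b bx0_23) (bt_n (bt_b bx0_24) (bt_b bx0_25))) (bt_n (bt_b bx0_26) (bt_n (bt_b bx0_27) (bt_b bx0_28)))) (bt_n (bt_n (bt_b bx0_29) (bt_n (bt_b bx0_30) (bt_b bx0_31))) (bt_n (bt_b bx0_32) (bt_n (bt_b bx0_33) (bt_b bx0_34))))) (bt_n (bt_n (bt_n (bt_b bx0_35) (bt_n (bt_b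 bx0_36) (bt_b bx0_37))) (bt_n (bt_b bx0_38) (bt_n (bt_b bx0_39) (bt_b bx0_40)))) (bt_n (bt_n (bt_b bx0_41) (bt_n (bt_b bx0_42) (bt_b bx0_43))) (bt_n (bt_b bx0_44) (bt_n (bt_b bx0_45) (bt_b bx0_46)))))))
def S0 : StarD := StarD.mk cl4 cl4 cl7 0 2 t0
def rc1_0_0_l : Tr := (xb (xa (xb (xa (xb T2.l0 T2.l0) T2.l0) (xa (xb T2.l0 (xc T2.l0 T2.l0)) (xb T2.l0 T2.l0))) (xb (xa T2.l0 T2.l0) (xa (xb T2.l0 T2.l0) T2.l0))) (xa (xb (xa (xb (xc (xd T2.l0 T2.l0) T2.l0) (xd (xc T2.l0 T2.l0) (xc T2.l0 T2.l0))) (xb (xc T2.l0 T2.l0) (xd T2.l0 T2.l0))) (xa (xb (xd (xc (xa T2.l0 T2.l0) T2.l0) (xc (xa T2.l0 T2.l0) T2.l0)) (xd (xa (xs T2.l0 T2.l0) (xc T2.l0 T2.l0)) (xa (xs T2.l0 T2.l0) (xc T2.l0 T2.l0)))) (xb (xd (xc T2.l0 T2.l0) (xc T2.l0 T2.l0)) (xd (xa T2.l0 T2.l0) (xa (xc T2.l0 T2.l0) (xc T2.l0 T2.l0)))))) (xb (xa (xb T2.l0 (xd T2.l0 T2.l0)) (xb T2.l0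 T2.l0)) (xa (xb (xd T2.l0 T2.l0) (xd (xa T2.l0 T2.l0) (xa (xs T2.l0 T2.l0) T2.l0))) (xb (xd T2.l0 T2.l0) (xd (xs T2.l0 (xa T2.l0 T2.l0)) (xs T2.l0 (xa T2.l0 T2.l0))))))))
theorem qc1_0_0_l : chkTr (tg true true false RT.r2) b1_0 t2 rc1_0_0_l
  (upd lo Co.a (rc sI cl4 cl7 cl4 b1_0 (I.pos (nat_lit 0) (nat_lit 0)))) = true := by decide +kernel
def rc1_0_0_r : Tr := (xb (xa (xb T2.l0 (xa T2.l0 T2.l0)) (xb (xa T2.l0 (xb T2.l0 T2.l0)) (xa T2.l0 (xb T2.l0 T2.l0)))) (xa (xb (xa (xb T2.l0 T2.l0) (xb T2.l0 T2.l0)) (xa (xb (xd T2.l0 T2.l0) (xd (xs T2.l0 T2.l0) (xs T2.l0 T2.l0))) (xb (xd T2.l0 T2.l0) (xd T2.l0 (xs T2.l0 T2.l0))))) (xb (xa (xb T2.l0 T2.l0) (xb (xd T2.l0 T2.l0) (xd T2.l0 T2.l0))) (xa (xb (xd T2.l0 T2.l0) (xd T2.l0 (xs (xa T2.l0 T2.l0) (xa T2.l0 T2.l0)))) (xb (xd T2.l0 T2.l0) (xd (xs T2.l0 T2.l0) (xs (xa T2.l0 T2.l0) (xa T2.l0 T2.l0))))))))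
theorem qc1_0_0_r : chkTr (tg true true false RT.r2) b1_0 t2 rc1_0_0_r
  (upd hi Co.a (rc sI cl4 cl7 cl4 b1_0 (I.pos (nat_lit 0) (nat_lit 0)))) = true := by decide +kernel
theorem qc1_0_0_ : chkTr (tg true true false RT.r2) b1_0 t2 (Tr.N Co.a rc1_0_0_l rc1_0_0_r)
  (rc sI cl4 cl7 cl4 b1_0 (I.pos (nat_lit 0) (nat_lit 0))) = true := tr_split qc1_0_0_l qc1_0_0_r
theorem c1_0_0 : chkTag sI cl4 cl7 cl4 t2 b1_0 (tg true true false RT.r2) (I.pos (nat_lit 0) (nat_lit 0))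
  (Tr.N Co.a rc1_0_0_l rc1_0_0_r) = true := tag_mk (by decide +kernel) qc1_0_0_
theorem c1_0_1 : chkTag sI cl4 cl7 cl4 t0 b1_0 (tg true false false RT.r3) (I.pos (nat_lit 0) (nat_lit 0))
  (xa (xb (xa (xb (xc T0.l7 T0.l7) T0.l7) T0.l7) (xa (xb (xc T0.l7 T0.l7) (xc T0.l7 (xa T0.l7 T0.l7))) (xb T0.l7 (xc T0.l7 T0.l7)))) (xb (xa T0.l7 (xb T0.l7 T0.l7)) (xa (xb T0.l7 (xc T0.l7 (xa T0.l7 T0.l7))) (xb T0.l7 (xc (xa T0.l7 (xd T0.l7 T0.l7)) (xa T0.l7 (xd T0.l7 T0.l7))))))) = true := by decide +kernel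
theorem c1_0_2 : chkTag sI cl4 cl7 cl4 t2 b1_0 (tg true true true RT.r4) (I.pos (nat_lit 0) (nat_lit 0))
  (xa (xb (xc T2.l8 T2.l8) (xc T2.l8 (xa T2.l8 T2.l8))) (xb T2.l8 (xc T2.l8 (xa T2.l8 T2.l8)))) = true := by decide +kernel
theorem c1_0_3 : chkTag sI cl4 cl7 cl4 t0 b1_0 (tg false false false RT.r3) (I.pos (nat_lit 0) (nat_lit 0))
  (xa (xb (xa (xb (xc T0.l8 T0.l8) T0.l8) T0.l8) (xa (xb T0.l8 (xc T0.l8 T0.l8)) T0.l8)) (xb (xa T0.l8 (xb T0.l8 T0.l8)) (xa (xb T0.l8 T0.l8) (xb T0.l8 (xc T0.l8 (xd T0.l8 T0.l8)))))) = true := by decide +kernel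
theorem c1_0_4 : chkTag sI cl4 cl7 cl4 t2 b1_0 (tg false true false RT.r4) (I.pos (nat_lit 0) (nat_lit 0))
  (xa (xb (xc T2.l9 T2.l9) (xc T2.l9 (xa T2.l9 T2.l9))) (xb T2.l9 (xc T2.l9 (xa T2.l9 T2.l9)))) = true := by decide +kernel
theorem c1_0_5 : chkTag sI cl4 cl7 cl4 t0 b1_0 (tg false false true RT.r5) (I.pos (nat_lit 0) (nat_lit 0))
  (xa (xb (xa (xb (xc T0.l9 T0.l9) T0.l9) T0.l9) (xa (xb (xc T0.l9 T0.l9) (xc T0.l9 (xa T0.l9 T0.l9))) (xb T0.l9 (xc T0.l9 T0.l9)))) (xb (xa T0.l9 (xb T0.l9 T0.l9)) (xa (xb T0.l9 (xc T0.l9 (xa T0.l9 T0.l9))) (xb T0.l9 (xc (xa T0.l9 (xd T0.l9 T0.l9)) (xa T0.l9 (xd T0.l9 T0.l9))))))) = true := by decide +kernel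
theorem bx1_0 : BoxOK sI cl4 cl7 cl4 t2 t0 b1_0 :=
  box_mk' [(tg true true false RT.r2), (tg true false false RT.r3), (tg true true true RT.r4), (tg false false false RT.r3), (tg false true false RT.r4), (tg false false true RT.r5)] rfl (allL_c (ex_mk c1_0_0) (allL_c (ex_mk c1_0_1) (allL_c (ex_mk c1_0_2) (allL_c (ex_mk c1_0_3) (allL_c (ex_mk c1_0_4) (allL_c (ex_mk c1_0_5) allL_n))))))
theorem bx1_1 : BoxOK sI cl4 cl7 cl4 t2 t0 b1_1 :=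
  box_mk (TrL.c (I.pos (nat_lit 0) (nat_lit 0)) (xa T2.l0 T2.l0)
  (TrL.c (I.pos (nat_lit 0) (nat_lit 0)) (xa (xb T0.l16 T0.l16) (xb T0.l16 T0.l16))
  (TrL.c (I.pos (nat_lit 0) (nat_lit 0)) (xa T2.l14 T2.l14)
  (TrL.c (I.pos (nat_lit 0) (nat_lit 0)) (xa (xb (xa (xb T0.l17 T0.l17) T0.l17) (xa T0.l17 T0.l17)) (xb (xa T0.l17 (xb T0.l17 T0.l17)) (xa T0.l17 T0.l17)))
  (TrL.c (I.pos (nat_lit 0) (nat_lit 0)) (xa T2.l15 T2.l15)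
  (TrL.c (I.pos (nat_lit 0) (nat_lit 0)) (xa (xb T0.l18 T0.l18) (xb T0.l18 T0.l18))
  TrL.n)))))) (by decide +kernel)
theorem bx1_2 : BoxOK sI cl4 cl7 cl4 t2 t0 b1_2 :=
  box_mk (TrL.c (I.pos (nat_lit 0) (nat_lit 0)) (xa (xa (xb (xa (xa (xb T2.l16 T2.l16) T2.l16) T2.l16) (xa (xb (xa T2.l16 T2.l16) (xa T2.l16 T2.l16)) (xa T2.l16 T2.l16))) (xa (xb T2.l16 T2.l16) T2.l16)) (xa (xa T2.l16 (xb T2.l16 T2.l16)) (xa (xb T2.l16 T2.l16) (xb (xa T2.l16 T2.l16) (xa T2.l16 (xb T2.l16 T2.l16))))))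
  (TrL.c (I.pos (nat_lit 0) (nat_lit 0)) (xa (xa (xb T0.l19 T0.l19) (xb T0.l19 T0.l19)) (xa (xb T0.l19 T0.l19) (xa T0.l19 T0.l19)))
  (TrL.c (I.pos (nat_lit 0) (nat_lit 0)) (xa T2.l17 (xa T2.l17 T2.l17))
  (TrL.c (I.pos (nat_lit 0) (nat_lit 0)) (xa (xa T0.l20 T0.l20) (xa (xb T0.l20 T0.l20) (xa T0.l20 T0.l20)))
  (TrL.c (I.pos (nat_lit 0) (nat_lit 0)) (xa T2.l18 (xa T2.l18 T2.l18))
  (TrL.c (I.pos (nat_lit 0) (nat_lit 0)) (xa (xa (xb T0.l21 T0.l21) (xb T0.l21 T0.l21)) (xa (xb T0.l21 T0.l21) (xa T0.l21 T0.l21)))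
  TrL.n)))))) (by decide +kernel)
theorem bx1_3 : BoxOK sI cl4 cl7 cl4 t2 t0 b1_3 :=
  box_mk (TrL.c (I.pos (nat_lit 0) (nat_lit 0)) (xa (xa (xb (xa (xb (xa T2.l19 T2.l19) (xa T2.l19 T2.l19)) (xb T2.l19 T2.l28)) (xa T2.l28 T2.l28)) (xb (xa T2.l31 T2.l16) T2.l16)) (xa (xb T2.l16 T2.l16) (xb T2.l16 T2.l16)))
  (TrL.c (I.pos (nat_lit 0) (nat_lit 0)) (xa (xa T0.l20 T0.l32) (xa T0.l31 T0.l19))
  (TrL.c (I.pos (nat_lit 0) (nat_lit 0)) (xa T2.l20 T2.l20)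
  (TrL.c (I.pos (nat_lit 0) (nat_lit 0)) (xa (xa T0.l19 T0.l23) (xa T0.l23 (xb T0.l23 T0.l23)))
  (TrL.c (I.pos (nat_lit 0) (nat_lit 0)) (xa T2.l21 T2.l21)
  (TrL.c (I.pos (nat_lit 0) (nat_lit 0)) (xa (xa T0.l24 T0.l33) (xa T0.l33 T0.l21))
  TrL.n)))))) (by decide +kernel)
theorem c1_4_0 : chkTag sI cl4 cl7 cl4 t2 b1_4 (tg true true false RT.r2) (I.pos (nat_lit 0) (nat_lit 0))
  (xb (xa (xb (xa (xb (xa T2.l22 T2.l22) (xa T2.l22 T2.l22)) (xb T2.l22 T2.l22)) (xa (xb (xa T2.l22 T2.l22) (xa T2.l22 T2.l22)) (xb T2.l22 T2.l22))) (xb (xa (xb T2.l22 T2.l22) (xb (xa T2.l22 T2.l22) (xa T2.l22 T2.l22))) (xa (xb T2.l22 T2.l22) (xb (xa T2.l22 T2.l22) (xa T2.l22 T2.l22))))) (xa (xb (xa (xb (xa T2.l22 T2.l22) (xa (xd T2.l22 T2.l22) T2.l22)) (xb (xa T2.l22 T2.l22) (xa T2.l22 T2.l22))) (xa (xb (xa (xd T2.l22 T2.l22) (xd T2.l22 T2.l22)) (xa (xd (xb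 T2.l22 T2.l22) (xb T2.l22 T2.l22)) (xd (xb T2.l22 T2.l22) (xb T2.l22 T2.l22)))) (xb (xa (xd T2.l22 T2.l22) (xd T2.l22 T2.l22)) (xa (xd (xb T2.l22 T2.l22) (xb T2.l22 T2.l22)) (xd (xb T2.l22 T2.l22) (xb T2.l22 T2.l22)))))) (xb (xa (xb T2.l22 (xa T2.l22 T2.l22)) (xb (xa T2.l22 T2.l22) (xa T2.l22 (xd T2.l22 T2.l22)))) (xa (xb (xa (xd T2.l22 T2.l22) (xd T2.l22 T2.l22)) (xa (xd (xb T2.l22 T2.l22) (xb T2.l22 T2.l22)) (xd (xb T2.l22 T2.l22) (xb T2.l22 T2.l22)))) (xb (xa (xd T2.l22 T2.l22) (xd T2.l22 T2.l22)) (xa (xd (xs T2.l22 T2.l22) (xs T2.l22 T2.l22)) (xd (xs T2.l22 T2.l22) (xs T2.l22 T2.l22)))))))) = true := by decide +kernel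
theorem c1_4_1 : chkTag sI cl4 cl7 cl4 t0 b1_4 (tg true false false RT.r3) (I.pos (nat_lit 0) (nat_lit 0))
  (xb (xa (xb (xa T0.l25 T0.l25) (xa T0.l25 T0.l25)) (xb (xa T0.l25 T0.l25) (xa T0.l25 T0.l25))) (xa (xb (xa T0.l25 T0.l25) (xa (xc T0.l25 T0.l25) (xc T0.l25 T0.l25))) (xb (xa T0.l25 (xc T0.l25 T0.l25)) (xa (xc T0.l25 T0.l25) (xc T0.l25 T0.l25))))) = true := by decide +kernel
theorem c1_4_2 : chkTag sI cl4 cl7 cl4 t2 b1_4 (tg true true true RT.r4) (I.pos (nat_lit 0) (nat_lit 0))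
  (xb (xa T2.l23 T2.l23) (xa T2.l23 (xc T2.l23 T2.l23))) = true := by decide +kernel
theorem c1_4_3 : chkTag sI cl4 cl7 cl4 t0 b1_4 (tg false false false RT.r3) (I.pos (nat_lit 0) (nat_lit 0))
  (xb (xa (xb T0.l26 T0.l26) (xb (xa T0.l26 (xc T0.l26 T0.l26)) (xa T0.l26 (xc T0.l26 T0.l26)))) (xa (xb T0.l26 (xa (xc T0.l26 T0.l26) T0.l26)) (xb (xa T0.l26 (xc T0.l26 T0.l26)) (xa T0.l26 (xc T0.l26 T0.l26))))) = true := by decide +kernel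
theorem c1_4_4 : chkTag sI cl4 cl7 cl4 t2 b1_4 (tg false true false RT.r4) (I.pos (nat_lit 0) (nat_lit 0))
  (xb (xa T2.l24 T2.l24) (xa T2.l24 (xc T2.l24 T2.l24))) = true := by decide +kernel
theorem c1_4_5 : chkTag sI cl4 cl7 cl4 t0 b1_4 (tg false false true RT.r5) (I.pos (nat_lit 0) (nat_lit 0))
  (xb (xa (xb (xa T0.l27 T0.l27) (xa T0.l27 T0.l27)) (xb (xa T0.l27 T0.l27) (xa T0.l27 T0.l27))) (xa (xb (xa T0.l27 T0.l27) (xa (xc T0.l27 T0.l27) (xc T0.l27 T0.l27))) (xb (xa T0.l27 (xc T0.l27 T0.l27)) (xa (xc T0.l27 T0.l27) (xc T0.l27 T0.l27))))) = true := by decide +kernel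
theorem bx1_4 : BoxOK sI cl4 cl7 cl4 t2 t0 b1_4 :=
  box_mk' [(tg true true false RT.r2), (tg true false false RT.r3), (tg true true true RT.r4), (tg false false false RT.r3), (tg false true false RT.r4), (tg false false true RT.r5)] rfl (allL_c (ex_mk c1_4_0) (allL_c (ex_mk c1_4_1) (allL_c (ex_mk c1_4_2) (allL_c (ex_mk c1_4_3) (allL_c (ex_mk c1_4_4) (allL_c (ex_mk c1_4_5) allL_n))))))
theorem bx1_5 : BoxOK sI cl4 cl7 cl4 t2 t0 b1_5 :=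
  box_mk (TrL.c (I.pos (nat_lit 0) (nat_lit 0)) (xb T2.l0 (xa (xb T2.l0 T2.l0) T2.l0))
  (TrL.c (I.pos (nat_lit 0) (nat_lit 0)) (xb (xa T0.l28 T0.l28) (xa T0.l28 T0.l28))
  (TrL.c (I.pos (nat_lit 0) (nat_lit 0)) (xb T2.l26 T2.l26)
  (TrL.c (I.pos (nat_lit 0) (nat_lit 0)) (xb (xa (xa (xb T0.l29 T0.l29) T0.l29) (xb (xa T0.l29 T0.l29) T0.l29)) (xa (xb T0.l29 T0.l29) (xb T0.l29 T0.l29)))
  (TrL.c (I.pos (nat_lit 0) (nat_lit 0)) (xb T2.l27 T2.l27)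
  (TrL.c (I.pos (nat_lit 0) (nat_lit 0)) (xb (xa T0.l30 T0.l30) (xa T0.l30 T0.l30))
  TrL.n)))))) (by decide +kernel)
theorem bx1_6 : BoxOK sI cl4 cl7 cl4 t2 t0 b1_6 :=
  box_mk (TrL.c (I.pos (nat_lit 0) (nat_lit 0)) (xa (xa (xb (xa (xb T2.l28 T2.l28) T2.l28) (xa (xb (xa T2.l28 T2.l28) (xa (xb T2.l28 T2.l28) (xb T2.l28 T2.l28))) (xb T2.l28 (xa T2.l28 T2.l28)))) (xb T2.l28 (xa (xb T2.l28 T2.l28) T2.l28))) (xa (xb T2.l28 T2.l28) (xb (xa T2.l28 T2.l16) (xa T2.l28 (xb (xa T2.l28 T2.l28) (xa T2.l28 T2.l28))))))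
  (TrL.c (I.pos (nat_lit 0) (nat_lit 0)) (xa (xa (xb T0.l31 (xa T0.l31 T0.l31)) (xb T0.l31 (xa T0.l31 T0.l31))) (xa (xb T0.l31 (xa T0.l31 T0.l31)) (xa T0.l31 (xb T0.l31 T0.l31))))
  (TrL.c (I.pos (nat_lit 0) (nat_lit 0)) (xa (xa T2.l29 T2.l29) (xa T2.l29 T2.l29))
  (TrL.c (I.pos (nat_lit 0) (nat_lit 0)) (xa (xa (xb T0.l32 T0.l32) (xb T0.l32 T0.l32)) (xa (xb T0.l32 T0.l32) (xb (xa T0.l32 T0.l32) T0.l32)))
  (TrL.c (I.pos (nat_lit 0) (nat_lit 0)) (xa (xa T2.l30 T2.l30) (xa T2.l30 T2.l30))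
  (TrL.c (I.pos (nat_lit 0) (nat_lit 0)) (xa (xa (xb T0.l33 (xa T0.l33 T0.l33)) (xb T0.l33 (xa T0.l33 T0.l33))) (xa (xb T0.l33 (xa T0.l33 T0.l33)) (xa T0.l33 (xb T0.l33 T0.l33))))
  TrL.n)))))) (by decide +kernel)
theorem bx1_7 : BoxOK sI cl4 cl7 cl4 t2 t0 b1_7 :=
  box_mk (TrL.c (I.pos (nat_lit 0) (nat_lit 0)) (xa (xa (xb (xa (xb (xa T2.l31 T2.l31) T2.l31) T2.l31) (xa (xb T2.l31 (xa T2.l31 T2.l28)) T2.l28)) (xb T2.l31 T2.l28)) (xa T2.l16 T2.l16))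
  (TrL.c (I.pos (nat_lit 0) (nat_lit 0)) (xa (xa T0.l20 T0.l20) (xa T0.l31 T0.l19))
  (TrL.c (I.pos (nat_lit 0) (nat_lit 0)) (xa T2.l32 T2.l32)
  (TrL.c (I.pos (nat_lit 0) (nat_lit 0)) (xa (xa T0.l19 T0.l19) (xa (xb T0.l35 T0.l23) T0.l32))
  (TrL.c (I.pos (nat_lit 0) (nat_lit 0)) (xa T2.l33 T2.l33)
  (TrL.c (I.pos (nat_lit 0) (nat_lit 0)) (xa (xa T0.l36 T0.l36) T0.l33)
  TrL.n)))))) (by decide +kernel)
theorem bx1_8 : BoxOK sI cl4 cl7 cl4 t2 t0 b1_8 :=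
  box_mk (TrL.c (I.pos (nat_lit 0) (nat_lit 0)) (xa (xb (xa (xb T2.l0 (xa T2.l0 T2.l0)) (xb T2.l0 T2.l0)) (xa (xb (xa T2.l22 T2.l0) (xa T2.l22 (xb T2.l0 T2.l0))) (xb (xa T2.l0 T2.l0) (xa (xb T2.l0 T2.l0) T2.l0)))) (xb (xa (xb (xa T2.l0 T2.l2) T2.l0) (xb T2.l2 (xa T2.l2 T2.l2))) (xa (xb (xa T2.l0 T2.l0) (xa T2.l0 T2.l0)) (xb (xa (xb T2.l2 T2.l0) T2.l2) (xa (xb T2.l0 T2.l0) (xb T2.l2 T2.l2))))))
  (TrL.c (I.pos (nat_lit 0) (nat_lit 0)) (xa (xb (xa T0.l7 T0.l7) (xa T0.l7 T0.l7)) (xb (xa T0.l7 T0.l7) (xa T0.l7 T0.l7)))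
  (TrL.c (I.pos (nat_lit 0) (nat_lit 0)) (xa T2.l8 T2.l3)
  (TrL.c (I.pos (nat_lit 0) (nat_lit 0)) (xa (xb (xa T0.l8 T0.l8) T0.l8) (xb (xa (xb T0.l8 T0.l8) (xc (xb T0.l8 T0.l8) T0.l8)) (xa T0.l8 (xc T0.l8 (xb T0.l8 T0.l8)))))
  (TrL.c (I.pos (nat_lit 0) (nat_lit 0)) (xa T2.l9 T2.l1)
  (TrL.c (I.pos (nat_lit 0) (nat_lit 0)) (xa (xb (xa T0.l9 T0.l9) (xa T0.l9 T0.l9)) (xb (xa T0.l9 T0.l9) (xa T0.l9 T0.l9)))
  TrL.n)))))) (by decide +kernel)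
theorem bx1_9 : BoxOK sI cl4 cl7 cl4 t2 t0 b1_9 :=
  box_mk (TrL.c (I.pos (nat_lit 0) (nat_lit 0)) T2.l0
  (TrL.c (I.pos (nat_lit 0) (nat_lit 0)) (xb T0.l16 (xa T0.l16 T0.l16))
  (TrL.c (I.pos (nat_lit 0) (nat_lit 0)) T2.l14
  (TrL.c (I.pos (nat_lit 0) (nat_lit 0)) (xb (xa T0.l17 T0.l17) (xa T0.l29 T0.l26))
  (TrL.c (I.pos (nat_lit 0) (nat_lit 0)) T2.l15
  (TrL.c (I.pos (nat_lit 0) (nat_lit 0)) (xb T0.l18 (xa T0.l18 T0.l18))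
  TrL.n)))))) (by decide +kernel)
theorem bx1_10 : BoxOK sI cl4 cl7 cl4 t2 t0 b1_10 :=
  box_mk (TrL.c (I.pos (nat_lit 0) (nat_lit 0)) (xa T2.l28 (xa T2.l16 (xa T2.l16 (xb T2.l16 T2.l16))))
  (TrL.c (I.pos (nat_lit 0) (nat_lit 0)) (xa (xa T0.l31 T0.l19) (xa T0.l19 T0.l19))
  (TrL.c (I.pos (nat_lit 0) (nat_lit 0)) (xa T2.l29 T2.l17)
  (TrL.c (I.pos (nat_lit 0) (nat_lit 0)) (xa (xa T0.l32 T0.l20) (xa T0.l20 T0.l20))
  (TrL.c (I.pos (nat_lit 0) (nat_lit 0)) (xa T2.l30 T2.l18)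
  (TrL.c (I.pos (nat_lit 0) (nat_lit 0)) (xa T0.l33 (xa T0.l21 T0.l21))
  TrL.n)))))) (by decide +kernel)
theorem bx1_11 : BoxOK sI cl4 cl7 cl4 t2 t0 b1_11 :=
  box_mk (TrL.c (I.pos (nat_lit 0) (nat_lit 0)) T2.l28
  (TrL.c (I.pos (nat_lit 0) (nat_lit 0)) (xa T0.l31 T0.l19)
  (TrL.c (I.pos (nat_lit 0) (nat_lit 0)) T2.l29
  (TrL.c (I.pos (nat_lit 0) (nat_lit 0)) (xa T0.l23 T0.l20)
  (TrL.c (I.pos (nat_lit 0) (nat_lit 0)) T2.l30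
  (TrL.c (I.pos (nat_lit 0) (nat_lit 0)) (xa T0.l33 T0.l21)
  TrL.n)))))) (by decide +kernel)
theorem bx1_12 : BoxOK sI cl4 cl7 cl4 t2 t0 b1_12 :=
  box_mk (TrL.c (I.pos (nat_lit 0) (nat_lit 0)) (xb (xa T2.l0 T2.l0) (xa T2.l0 T2.l0))
  (TrL.c (I.pos (nat_lit 0) (nat_lit 0)) (xb (xa T0.l25 T0.l25) (xa T0.l25 T0.l25))
  (TrL.c (I.pos (nat_lit 0) (nat_lit 0)) (xb T2.l23 T2.l23)
  (TrL.c (I.pos (nat_lit 0) (nat_lit 0)) (xb (xa (xb (xd T0.l26 T0.l26) T0.l26) (xb (xd T0.l26 T0.l26) (xd T0.l26 T0.l26))) (xa T0.l26 (xb (xd T0.l26 T0.l26) (xd T0.l26 T0.l26))))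
  (TrL.c (I.pos (nat_lit 0) (nat_lit 0)) (xb T2.l24 T2.l24)
  (TrL.c (I.pos (nat_lit 0) (nat_lit 0)) (xb (xa T0.l27 T0.l27) (xa T0.l27 T0.l27))
  TrL.n)))))) (by decide +kernel)
theorem bx1_13 : BoxOK sI cl4 cl7 cl4 t2 t0 b1_13 :=
  box_mk (TrL.c (I.pos (nat_lit 0) (nat_lit 0)) (xa T2.l0 T2.l0)
  (TrL.c (I.pos (nat_lit 0) (nat_lit 0)) (xa T0.l28 T0.l16)
  (TrL.c (I.pos (nat_lit 0) (nat_lit 0)) T2.l26
  (TrL.c (I.pos (nat_lit 0) (nat_lit 0)) (xb T0.l29 T0.l29)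
  (TrL.c (I.pos (nat_lit 0) (nat_lit 0)) T2.l27
  (TrL.c (I.pos (nat_lit 0) (nat_lit 0)) (xa T0.l30 T0.l18)
  TrL.n)))))) (by decide +kernel)
theorem bx1_14 : BoxOK sI cl4 cl7 cl4 t2 t0 b1_14 :=
  box_mk (TrL.c (I.pos (nat_lit 0) (nat_lit 0)) (xa (xa (xa (xb (xa (xb T2.l28 T2.l28) T2.l28) (xa T2.l28 T2.l28)) (xb T2.l28 T2.l28)) T2.l16) (xa (xa T2.l28 T2.l28) (xa T2.l16 (xb T2.l16 T2.l28))))
  (TrL.c (I.pos (nat_lit 0) (nat_lit 0)) (xa (xa T0.l20 T0.l31) (xa T0.l31 T0.l19))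
  (TrL.c (I.pos (nat_lit 0) (nat_lit 0)) (xa T2.l30 T2.l29)
  (TrL.c (I.pos (nat_lit 0) (nat_lit 0)) (xa (xa T0.l19 T0.l32) (xa T0.l32 T0.l32))
  (TrL.c (I.pos (nat_lit 0) (nat_lit 0)) (xa T2.l30 T2.l30)
  (TrL.c (I.pos (nat_lit 0) (nat_lit 0)) (xa (xa T0.l33 T0.l33) (xa T0.l33 T0.l21))
  TrL.n)))))) (by decide +kernel)
theorem bx1_15 : BoxOK sI cl4 cl7 cl4 t2 t0 b1_15 :=
  box_mk (TrL.c (I.pos (nat_lit 0) (nat_lit 0)) (xa T2.l28 T2.l16)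
  (TrL.c (I.pos (nat_lit 0) (nat_lit 0)) (xa T0.l32 T0.l19)
  (TrL.c (I.pos (nat_lit 0) (nat_lit 0)) (xa T2.l18 T2.l32)
  (TrL.c (I.pos (nat_lit 0) (nat_lit 0)) (xa T0.l35 T0.l20)
  (TrL.c (I.pos (nat_lit 0) (nat_lit 0)) T2.l30
  (TrL.c (I.pos (nat_lit 0) (nat_lit 0)) (xa T0.l33 T0.l21)
  TrL.n)))))) (by decide +kernel)
theorem c1_16_0 : chkTag sI cl4 cl7 cl4 t2 b1_16 (tg true true false RT.r2) (I.pos (nat_lit 0) (nat_lit 0))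
  (xa (xb (xa (xb (xa (xb T2.l0 T2.l0) (xb T2.l0 T2.l0)) (xa (xb T2.l0 T2.l0) (xb T2.l0 T2.l0))) (xb (xa (xb T2.l0 T2.l0) T2.l0) (xa (xb T2.l0 T2.l0) T2.l0))) (xa (xb (xa (xb T2.l0 T2.l0) (xb T2.l0 T2.l0)) (xa (xb (xd T2.l0 T2.l0) (xd (xs T2.l0 T2.l0) (xs T2.l0 T2.l0))) (xb (xd T2.l0 T2.l0) (xd T2.l0 (xs T2.l0 T2.l0))))) (xb (xa (xb T2.l0 T2.l0) (xb T2.l0 T2.l0)) (xa (xb (xd T2.l0 T2.l0) (xd T2.l0 T2.l0)) (xb (xd T2.l0 T2.l0) (xd T2.l0 T2.l0)))))) (xb (xa (xb (xa T2.l0 T2.l0) (xa T2.l0 (xb T2.l0 T2.l0))) (xb (xa T2.l0 (xb T2.l2 (xd T2.l0 T2.l2))) (xa (xb T2.l0 T2.l0) (xb (xd T2.l0 T2.l0) (xd T2.l0 T2.l0))))) (xa (xb (xa (xb T2.l0 (xd T2.l0 T2.l0)) (xb T2.l0 (xd T2.l0 T2.l0))) (xa (xb (xd T2.l0 T2.l0) (xd T2.l0 T2.l0)) (xb (xd T2.l0 T2.l0) (xd T2.l0 (xs T2.l0 T2.l0))))) (xb (xa (xb (xd T2.l0 T2.l0) (xd T2.l0 T2.l0)) (xb (xd T2.l0 T2.l0)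 (xd (xs T2.l0 T2.l0) T2.l0))) (xa (xb (xd T2.l0 T2.l0) (xd (xs T2.l0 T2.l0) (xs T2.l0 T2.l0))) (xb (xd (xs T2.l0 T2.l0) (xs T2.l0 T2.l0)) (xd (xs T2.l0 T2.l0) (xs T2.l0 T2.l0)))))))) = true := by decide +kernel
theorem c1_16_1 : chkTag sI cl4 cl7 cl4 t0 b1_16 (tg true false false RT.r3) (I.pos (nat_lit 0) (nat_lit 0))
  (xa (xb (xa (xb T0.l7 T0.l7) (xb T0.l7 T0.l7)) (xa (xb T0.l7 T0.l7) (xb T0.l7 (xd T0.l7 T0.l7)))) (xb (xa (xb T0.l7 T0.l7) (xb T0.l7 (xd T0.l7 T0.l7))) (xa (xb (xd T0.l7 T0.l7) (xd T0.l7 T0.l7)) (xd (xb T0.l7 T0.l7) (xb T0.l7 T0.l7))))) = true := by decide +kernel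
theorem c1_16_2 : chkTag sI cl4 cl7 cl4 t2 b1_16 (tg true true true RT.r4) (I.pos (nat_lit 0) (nat_lit 0))
  (xa (xb T2.l8 T2.l8) (xc T2.l3 (xb T2.l3 (xd T2.l8 T2.l8)))) = true := by decide +kernel
theorem c1_16_3 : chkTag sI cl4 cl7 cl4 t0 b1_16 (tg false false false RT.r3) (I.pos (nat_lit 0) (nat_lit 0))
  (xa (xb (xa (xb (xc T0.l8 T0.l8) T0.l8) (xb (xc T0.l8 T0.l8) T0.l8)) (xa T0.l8 (xb T0.l8 T0.l8))) (xb (xa (xb (xc T0.l8 T0.l8) (xc T0.l8 T0.l8)) (xd (xb (xc T0.l8 T0.l8) (xc T0.l8 T0.l8)) (xb (xc T0.l8 T0.l8) (xc T0.l8 T0.l8)))) (xa (xb (xc T0.l8 T0.l8) (xc T0.l8 T0.l8)) (xb (xd (xc T0.l8 T0.l8) (xc T0.l8 T0.l8)) (xd (xc T0.l8 T0.l8) (xc T0.l8 T0.l8)))))) = true := by decide +kernel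
theorem c1_16_4 : chkTag sI cl4 cl7 cl4 t2 b1_16 (tg false true false RT.r4) (I.pos (nat_lit 0) (nat_lit 0))
  (xa (xb T2.l9 T2.l9) (xc T2.l1 (xb T2.l1 (xd T2.l9 T2.l9)))) = true := by decide +kernel
theorem c1_16_5 : chkTag sI cl4 cl7 cl4 t0 b1_16 (tg false false true RT.r5) (I.pos (nat_lit 0) (nat_lit 0))
  (xa (xb (xa (xb T0.l9 T0.l9) (xb T0.l9 T0.l9)) (xa (xb T0.l9 T0.l9) (xb T0.l9 (xd T0.l9 T0.l9)))) (xb (xa (xb T0.l9 T0.l9) (xb T0.l9 (xd T0.l9 T0.l9))) (xa (xb (xd T0.l9 T0.l9) (xd T0.l9 T0.l9)) (xd (xb T0.l9 T0.l9) (xb T0.l9 T0.l9))))) = true := by decide +kernel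
theorem bx1_16 : BoxOK sI cl4 cl7 cl4 t2 t0 b1_16 :=
  box_mk' [(tg true true false RT.r2), (tg true false false RT.r3), (tg true true true RT.r4), (tg false false false RT.r3), (tg false true false RT.r4), (tg false false true RT.r5)] rfl (allL_c (ex_mk c1_16_0) (allL_c (ex_mk c1_16_1) (allL_c (ex_mk c1_16_2) (allL_c (ex_mk c1_16_3) (allL_c (ex_mk c1_16_4) (allL_c (ex_mk c1_16_5) allL_n))))))
theorem bx1_17 : BoxOK sI cl4 cl7 cl4 t2 t0 b1_17 :=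
  box_mk (TrL.c (I.pos (nat_lit 0) (nat_lit 0)) T2.l0
  (TrL.c (I.pos (nat_lit 0) (nat_lit 0)) (xb (xa T0.l16 T0.l16) (xa T0.l16 T0.l25))
  (TrL.c (I.pos (nat_lit 0) (nat_lit 0)) T2.l14
  (TrL.c (I.pos (nat_lit 0) (nat_lit 0)) (xb (xa (xb (xa T0.l17 T0.l17) T0.l17) (xb (xd T0.l17 T0.l17) (xa T0.l17 T0.l17))) (xa (xb T0.l17 T0.l17) (xb T0.l17 T0.l26)))
  (TrL.c (I.pos (nat_lit 0) (nat_lit 0)) T2.l15
  (TrL.c (I.pos (nat_lit 0) (nat_lit 0)) (xb (xa T0.l18 T0.l18) (xa T0.l18 T0.l27))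
  TrL.n)))))) (by decide +kernel)
theorem bx1_18 : BoxOK sI cl4 cl7 cl4 t2 t0 b1_18 :=
  box_mk (TrL.c (I.pos (nat_lit 0) (nat_lit 0)) (xa (xa (xa (xb (xa (xb T2.l16 T2.l16) T2.l16) (xa (xb T2.l16 T2.l16) T2.l16)) (xb T2.l16 T2.l16)) (xa T2.l16 T2.l16)) (xa (xa T2.l16 (xb T2.l16 T2.l16)) (xa (xb T2.l16 T2.l16) (xb (xa T2.l16 T2.l16) (xa T2.l16 T2.l16)))))
  (TrL.c (I.pos (nat_lit 0) (nat_lit 0)) (xa (xa T0.l19 T0.l19) (xa (xa T0.l19 T0.l19) (xa T0.l19 T0.l19)))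
  (TrL.c (I.pos (nat_lit 0) (nat_lit 0)) (xa T2.l17 T2.l17)
  (TrL.c (I.pos (nat_lit 0) (nat_lit 0)) (xa (xa T0.l20 T0.l20) (xa T0.l20 (xa T0.l20 T0.l20)))
  (TrL.c (I.pos (nat_lit 0) (nat_lit 0)) (xa T2.l18 T2.l18)
  (TrL.c (I.pos (nat_lit 0) (nat_lit 0)) (xa (xa T0.l21 T0.l21) (xa (xa T0.l21 T0.l21) (xa T0.l21 T0.l21)))
  TrL.n)))))) (by decide +kernel)
theorem bx1_19 : BoxOK sI cl4 cl7 cl4 t2 t0 b1_19 :=
  box_mk (TrL.c (I.pos (nat_lit 0) (nat_lit 0)) (xa (xa (xb (xa (xb T2.l19 T2.l28) T2.l28) (xa (xb T2.l28 T2.l28) T2.l16)) T2.l16) (xa T2.l16 (xb T2.l16 T2.l16)))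
  (TrL.c (I.pos (nat_lit 0) (nat_lit 0)) (xa (xa T0.l20 T0.l31) (xa T0.l19 T0.l19))
  (TrL.c (I.pos (nat_lit 0) (nat_lit 0)) (xa T2.l20 T2.l20)
  (TrL.c (I.pos (nat_lit 0) (nat_lit 0)) (xa T0.l31 (xa T0.l23 T0.l23))
  (TrL.c (I.pos (nat_lit 0) (nat_lit 0)) (xa T2.l21 T2.l21)
  (TrL.c (I.pos (nat_lit 0) (nat_lit 0)) (xa (xa T0.l33 T0.l33) (xa T0.l21 T0.l21))
  TrL.n)))))) (by decide +kernel)
theorem bx1_20 : BoxOK sI cl4 cl7 cl4 t2 t0 b1_20 :=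
  box_mk (TrL.c (I.pos (nat_lit 0) (nat_lit 0)) (xa (xb (xa (xb T2.l22 T2.l22) (xb T2.l22 T2.l22)) (xb (xa T2.l22 T2.l22) (xa (xa T2.l22 T2.l22) T2.l22))) (xb (xa (xb (xa T2.l22 T2.l22) T2.l22) (xb (xa T2.l22 T2.l22) (xa T2.l22 T2.l22))) (xa (xb T2.l22 T2.l22) (xb T2.l22 T2.l22))))
  (TrL.c (I.pos (nat_lit 0) (nat_lit 0)) (xa (xb T0.l25 T0.l25) (xb (xa T0.l25 T0.l25) (xa T0.l25 T0.l25)))
  (TrL.c (I.pos (nat_lit 0) (nat_lit 0)) T2.l23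
  (TrL.c (I.pos (nat_lit 0) (nat_lit 0)) (xa T0.l26 (xb (xa T0.l26 T0.l26) T0.l26))
  (TrL.c (I.pos (nat_lit 0) (nat_lit 0)) T2.l24
  (TrL.c (I.pos (nat_lit 0) (nat_lit 0)) (xa (xb T0.l27 T0.l27) (xb (xa T0.l27 T0.l27) (xa T0.l27 T0.l27)))
  TrL.n)))))) (by decide +kernel)
theorem bx1_21 : BoxOK sI cl4 cl7 cl4 t2 t0 b1_21 :=
  box_mk (TrL.c (I.pos (nat_lit 0) (nat_lit 0)) (xa (xb T2.l0 T2.l0) T2.l0)
  (TrL.c (I.pos (nat_lit 0) (nat_lit 0)) (xa T0.l28 T0.l28)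
  (TrL.c (I.pos (nat_lit 0) (nat_lit 0)) T2.l26
  (TrL.c (I.pos (nat_lit 0) (nat_lit 0)) (xa T0.l29 (xb T0.l29 T0.l29))
  (TrL.c (I.pos (nat_lit 0) (nat_lit 0)) T2.l27
  (TrL.c (I.pos (nat_lit 0) (nat_lit 0)) (xa T0.l30 T0.l30)
  TrL.n)))))) (by decide +kernel)
theorem bx1_22 : BoxOK sI cl4 cl7 cl4 t2 t0 b1_22 :=
  box_mk (TrL.c (I.pos (nat_lit 0) (nat_lit 0)) (xa (xa (xa (xb T2.l28 T2.l28) T2.l28) T2.l28) (xa T2.l28 (xa T2.l28 (xb T2.l28 T2.l28))))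
  (TrL.c (I.pos (nat_lit 0) (nat_lit 0)) (xa (xa T0.l31 T0.l31) (xa T0.l31 T0.l31))
  (TrL.c (I.pos (nat_lit 0) (nat_lit 0)) (xa T2.l29 T2.l29)
  (TrL.c (I.pos (nat_lit 0) (nat_lit 0)) (xa (xa T0.l32 T0.l32) (xa T0.l32 (xa T0.l32 T0.l32)))
  (TrL.c (I.pos (nat_lit 0) (nat_lit 0)) T2.l30
  (TrL.c (I.pos (nat_lit 0) (nat_lit 0)) (xa (xa T0.l33 T0.l33) (xa T0.l33 T0.l33))
  TrL.n)))))) (by decide +kernel)
theorem bx1_23 : BoxOK sI cl4 cl7 cl4 t2 t0 b1_23 :=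
  box_mk (TrL.c (I.pos (nat_lit 0) (nat_lit 0)) (xa (xa (xa (xb T2.l31 (xa T2.l31 T2.l31)) T2.l28) T2.l28) T2.l16)
  (TrL.c (I.pos (nat_lit 0) (nat_lit 0)) (xa T0.l32 T0.l31)
  (TrL.c (I.pos (nat_lit 0) (nat_lit 0)) T2.l32
  (TrL.c (I.pos (nat_lit 0) (nat_lit 0)) (xa T0.l31 (xa T0.l35 T0.l20))
  (TrL.c (I.pos (nat_lit 0) (nat_lit 0)) T2.l33
  (TrL.c (I.pos (nat_lit 0) (nat_lit 0)) (xa (xa T0.l36 T0.l36) T0.l33)
  TrL.n)))))) (by decide +kernel)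
theorem bx1_24 : BoxOK sI cl4 cl7 cl4 t2 t0 b1_24 :=
  box_mk (TrL.c (I.pos (nat_lit 0) (nat_lit 0)) (xa (xa (xa (xb (xa (xb T2.l34 T2.l34) (xb T2.l34 T2.l34)) (xa (xb T2.l34 T2.l34) (xb T2.l34 T2.l28))) (xb T2.l28 T2.l28)) T2.l28) T2.l16)
  (TrL.c (I.pos (nat_lit 0) (nat_lit 0)) (xa (xa T0.l20 T0.l31) T0.l31)
  (TrL.c (I.pos (nat_lit 0) (nat_lit 0)) (xa T2.l30 T2.l17)
  (TrL.c (I.pos (nat_lit 0) (nat_lit 0)) (xa (xa T0.l19 T0.l31) T0.l32)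
  (TrL.c (I.pos (nat_lit 0) (nat_lit 0)) (xa T2.l35 T2.l18)
  (TrL.c (I.pos (nat_lit 0) (nat_lit 0)) (xa (xa T0.l37 T0.l33) T0.l33)
  TrL.n)))))) (by decide +kernel)
theorem bx1_25 : BoxOK sI cl4 cl7 cl4 t2 t0 b1_25 :=
  box_mk (TrL.c (I.pos (nat_lit 0) (nat_lit 0)) (xa (xa (xa (xb T2.l34 (xb T2.l34 T2.l28)) (xb T2.l28 T2.l28)) T2.l28) T2.l16)
  (TrL.c (I.pos (nat_lit 0) (nat_lit 0)) (xa T0.l20 T0.l31)
  (TrL.c (I.pos (nat_lit 0) (nat_lit 0)) T2.l30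
  (TrL.c (I.pos (nat_lit 0) (nat_lit 0)) (xa T0.l19 T0.l31)
  (TrL.c (I.pos (nat_lit 0) (nat_lit 0)) T2.l30
  (TrL.c (I.pos (nat_lit 0) (nat_lit 0)) (xa T0.l33 T0.l24)
  TrL.n)))))) (by decide +kernel)
theorem bx1_26 : BoxOK sI cl4 cl7 cl4 t2 t0 b1_26 :=
  box_mk (TrL.c (I.pos (nat_lit 0) (nat_lit 0)) (xa T2.l0 (xb T2.l2 T2.l2))
  (TrL.c (I.pos (nat_lit 0) (nat_lit 0)) T0.l7
  (TrL.c (I.pos (nat_lit 0) (nat_lit 0)) T2.l8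
  (TrL.c (I.pos (nat_lit 0) (nat_lit 0)) T0.l8
  (TrL.c (I.pos (nat_lit 0) (nat_lit 0)) T2.l9
  (TrL.c (I.pos (nat_lit 0) (nat_lit 0)) T0.l9
  TrL.n)))))) (by decide +kernel)
theorem bx1_27 : BoxOK sI cl4 cl7 cl4 t2 t0 b1_27 :=
  box_mk (TrL.c (I.pos (nat_lit 0) (nat_lit 0)) T2.l0
  (TrL.c (I.pos (nat_lit 0) (nat_lit 0)) (xa T0.l16 T0.l16)
  (TrL.c (I.pos (nat_lit 0) (nat_lit 0)) T2.l14
  (TrL.c (I.pos (nat_lit 0) (nat_lit 0)) (xa T0.l17 T0.l17)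
  (TrL.c (I.pos (nat_lit 0) (nat_lit 0)) T2.l15
  (TrL.c (I.pos (nat_lit 0) (nat_lit 0)) (xa T0.l18 T0.l18)
  TrL.n)))))) (by decide +kernel)
theorem bx1_28 : BoxOK sI cl4 cl7 cl4 t2 t0 b1_28 :=
  box_mk (TrL.c (I.pos (nat_lit 0) (nat_lit 0)) (xa T2.l16 (xa T2.l16 (xa T2.l16 T2.l16)))
  (TrL.c (I.pos (nat_lit 0) (nat_lit 0)) (xa T0.l31 T0.l19)
  (TrL.c (I.pos (nat_lit 0) (nat_lit 0)) T2.l17
  (TrL.c (I.pos (nat_lit 0) (nat_lit 0)) (xa T0.l32 T0.l20)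
  (TrL.c (I.pos (nat_lit 0) (nat_lit 0)) T2.l18
  (TrL.c (I.pos (nat_lit 0) (nat_lit 0)) (xa T0.l33 T0.l21)
  TrL.n)))))) (by decide +kernel)
theorem bx1_29 : BoxOK sI cl4 cl7 cl4 t2 t0 b1_29 :=
  box_mk (TrL.c (I.pos (nat_lit 0) (nat_lit 0)) T2.l16
  (TrL.c (I.pos (nat_lit 0) (nat_lit 0)) (xa T0.l22 T0.l19)
  (TrL.c (I.pos (nat_lit 0) (nat_lit 0)) T2.l20
  (TrL.c (I.pos (nat_lit 0) (nat_lit 0)) (xa T0.l23 T0.l20)
  (TrL.c (I.pos (nat_lit 0) (nat_lit 0)) T2.l21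
  (TrL.c (I.pos (nat_lit 0) (nat_lit 0)) T0.l33
  TrL.n)))))) (by decide +kernel)
theorem bx1_30 : BoxOK sI cl4 cl7 cl4 t2 t0 b1_30 :=
  box_mk (TrL.c (I.pos (nat_lit 0) (nat_lit 0)) T2.l0
  (TrL.c (I.pos (nat_lit 0) (nat_lit 0)) T0.l25
  (TrL.c (I.pos (nat_lit 0) (nat_lit 0)) T2.l23
  (TrL.c (I.pos (nat_lit 0) (nat_lit 0)) T0.l26
  (TrL.c (I.pos (nat_lit 0) (nat_lit 0)) T2.l24
  (TrL.c (I.pos (nat_lit 0) (nat_lit 0)) T0.l27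
  TrL.n)))))) (by decide +kernel)
theorem bx1_31 : BoxOK sI cl4 cl7 cl4 t2 t0 b1_31 :=
  box_mk (TrL.c (I.pos (nat_lit 0) (nat_lit 0)) T2.l0
  (TrL.c (I.pos (nat_lit 0) (nat_lit 0)) T0.l28
  (TrL.c (I.pos (nat_lit 0) (nat_lit 0)) T2.l26
  (TrL.c (I.pos (nat_lit 0) (nat_lit 0)) T0.l29
  (TrL.c (I.pos (nat_lit 0) (nat_lit 0)) T2.l27
  (TrL.c (I.pos (nat_lit 0) (nat_lit 0)) T0.l30
  TrL.n)))))) (by decide +kernel)
theorem bx1_32 : BoxOK sI cl4 cl7 cl4 t2 t0 b1_32 :=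
  box_mk (TrL.c (I.pos (nat_lit 0) (nat_lit 0)) (xa T2.l28 T2.l16)
  (TrL.c (I.pos (nat_lit 0) (nat_lit 0)) (xa T0.l31 T0.l31)
  (TrL.c (I.pos (nat_lit 0) (nat_lit 0)) T2.l29
  (TrL.c (I.pos (nat_lit 0) (nat_lit 0)) (xa (xa T0.l32 T0.l32) T0.l32)
  (TrL.c (I.pos (nat_lit 0) (nat_lit 0)) T2.l30
  (TrL.c (I.pos (nat_lit 0) (nat_lit 0)) (xa T0.l33 T0.l33)
  TrL.n)))))) (by decide +kernel)
theorem bx1_33 : BoxOK sI cl4 cl7 cl4 t2 t0 b1_33 :=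
  box_mk (TrL.c (I.pos (nat_lit 0) (nat_lit 0)) (xa T2.l28 T2.l16)
  (TrL.c (I.pos (nat_lit 0) (nat_lit 0)) (xa T0.l34 T0.l19)
  (TrL.c (I.pos (nat_lit 0) (nat_lit 0)) T2.l32
  (TrL.c (I.pos (nat_lit 0) (nat_lit 0)) (xa T0.l35 T0.l20)
  (TrL.c (I.pos (nat_lit 0) (nat_lit 0)) T2.l33
  (TrL.c (I.pos (nat_lit 0) (nat_lit 0)) (xa T0.l33 T0.l21)
  TrL.n)))))) (by decide +kernel)
theorem bx1_34 : BoxOK sI cl4 cl7 cl4 t2 t0 b1_34 :=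
  box_mk (TrL.c (I.pos (nat_lit 0) (nat_lit 0)) T2.l0
  (TrL.c (I.pos (nat_lit 0) (nat_lit 0)) (xa T0.l28 T0.l16)
  (TrL.c (I.pos (nat_lit 0) (nat_lit 0)) T2.l14
  (TrL.c (I.pos (nat_lit 0) (nat_lit 0)) (xb (xa T0.l17 T0.l17) (xa T0.l29 T0.l26))
  (TrL.c (I.pos (nat_lit 0) (nat_lit 0)) T2.l15
  (TrL.c (I.pos (nat_lit 0) (nat_lit 0)) (xa T0.l30 T0.l18)
  TrL.n)))))) (by decide +kernel)
theorem bx1_35 : BoxOK sI cl4 cl7 cl4 t2 t0 b1_35 :=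
  box_mk (TrL.c (I.pos (nat_lit 0) (nat_lit 0)) T2.l0
  (TrL.c (I.pos (nat_lit 0) (nat_lit 0)) (xa T0.l16 T0.l25)
  (TrL.c (I.pos (nat_lit 0) (nat_lit 0)) T2.l38
  (TrL.c (I.pos (nat_lit 0) (nat_lit 0)) (xa T0.l17 T0.l26)
  (TrL.c (I.pos (nat_lit 0) (nat_lit 0)) T2.l39
  (TrL.c (I.pos (nat_lit 0) (nat_lit 0)) (xa T0.l18 T0.l27)
  TrL.n)))))) (by decide +kernel)
theorem bx1_36 : BoxOK sI cl4 cl7 cl4 t2 t0 b1_36 :=
  box_mk (TrL.c (I.pos (nat_lit 0) (nat_lit 0)) (xa T2.l16 T2.l0)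
  (TrL.c (I.pos (nat_lit 0) (nat_lit 0)) T0.l19
  (TrL.c (I.pos (nat_lit 0) (nat_lit 0)) T2.l40
  (TrL.c (I.pos (nat_lit 0) (nat_lit 0)) T0.l20
  (TrL.c (I.pos (nat_lit 0) (nat_lit 0)) T2.l41
  (TrL.c (I.pos (nat_lit 0) (nat_lit 0)) T0.l21
  TrL.n)))))) (by decide +kernel)
theorem bx1_37 : BoxOK sI cl4 cl7 cl4 t2 t0 b1_37 :=
  box_mk (TrL.c (I.pos (nat_lit 0) (nat_lit 0)) (xa (xb (xa T2.l0 T2.l2) (xa T2.l0 T2.l2)) (xb T2.l2 (xa T2.l2 T2.l2)))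
  (TrL.c (I.pos (nat_lit 0) (nat_lit 0)) (xa (xa (xb T0.l7 T0.l7) (xb T0.l7 T0.l7)) (xa (xb T0.l7 T0.l7) (xb (xd T0.l7 T0.l7) T0.l7)))
  (TrL.c (I.pos (nat_lit 0) (nat_lit 0)) (xa T2.l3 T2.l3)
  (TrL.c (I.pos (nat_lit 0) (nat_lit 0)) (xa T0.l8 (xb (xa T0.l8 (xd T0.l8 T0.l8)) (xa T0.l8 (xd (xc T0.l8 T0.l8) (xc T0.l8 T0.l8)))))
  (TrL.c (I.pos (nat_lit 0) (nat_lit 0)) (xa T2.l1 T2.l1)
  (TrL.c (I.pos (nat_lit 0) (nat_lit 0)) (xa (xa (xb T0.l9 T0.l9) (xb T0.l9 T0.l9)) (xa (xb T0.l9 T0.l9) (xb (xd T0.l9 T0.l9) T0.l9)))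
  TrL.n)))))) (by decide +kernel)
theorem bx1_38 : BoxOK sI cl4 cl7 cl4 t2 t0 b1_38 :=
  box_mk (TrL.c (I.pos (nat_lit 0) (nat_lit 0)) (xa T2.l16 (xa T2.l16 (xa T2.l16 T2.l0)))
  (TrL.c (I.pos (nat_lit 0) (nat_lit 0)) (xa T0.l19 T0.l19)
  (TrL.c (I.pos (nat_lit 0) (nat_lit 0)) T2.l17
  (TrL.c (I.pos (nat_lit 0) (nat_lit 0)) (xa T0.l20 T0.l20)
  (TrL.c (I.pos (nat_lit 0) (nat_lit 0)) T2.l18
  (TrL.c (I.pos (nat_lit 0) (nat_lit 0)) (xa T0.l21 T0.l21)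
  TrL.n)))))) (by decide +kernel)
theorem bx1_39 : BoxOK sI cl4 cl7 cl4 t2 t0 b1_39 :=
  box_mk (TrL.c (I.pos (nat_lit 0) (nat_lit 0)) T2.l0
  (TrL.c (I.pos (nat_lit 0) (nat_lit 0)) (xa (xb T0.l25 T0.l25) T0.l25)
  (TrL.c (I.pos (nat_lit 0) (nat_lit 0)) T2.l23
  (TrL.c (I.pos (nat_lit 0) (nat_lit 0)) (xa (xb (xa T0.l17 T0.l26) T0.l26) T0.l26)
  (TrL.c (I.pos (nat_lit 0) (nat_lit 0)) T2.l24
  (TrL.c (I.pos (nat_lit 0) (nat_lit 0)) (xa (xb T0.l27 T0.l27) T0.l27)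
  TrL.n)))))) (by decide +kernel)
theorem bx1_40 : BoxOK sI cl4 cl7 cl4 t2 t0 b1_40 :=
  box_mk (TrL.c (I.pos (nat_lit 0) (nat_lit 0)) (xa (xb T2.l0 T2.l16) T2.l0)
  (TrL.c (I.pos (nat_lit 0) (nat_lit 0)) T0.l28
  (TrL.c (I.pos (nat_lit 0) (nat_lit 0)) T2.l26
  (TrL.c (I.pos (nat_lit 0) (nat_lit 0)) T0.l29
  (TrL.c (I.pos (nat_lit 0) (nat_lit 0)) T2.l27
  (TrL.c (I.pos (nat_lit 0) (nat_lit 0)) T0.l30
  TrL.n)))))) (by decide +kernel)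
theorem bx1_41 : BoxOK sI cl4 cl7 cl4 t2 t0 b1_41 :=
  box_mk (TrL.c (I.pos (nat_lit 0) (nat_lit 0)) (xa (xa (xa (xb (xa (xb T2.l31 T2.l28) T2.l28) T2.l28) T2.l28) T2.l28) (xa T2.l28 T2.l16))
  (TrL.c (I.pos (nat_lit 0) (nat_lit 0)) (xa (xa T0.l20 T0.l31) T0.l31)
  (TrL.c (I.pos (nat_lit 0) (nat_lit 0)) (xa T2.l30 T2.l29)
  (TrL.c (I.pos (nat_lit 0) (nat_lit 0)) (xa (xa T0.l19 T0.l32) T0.l32)
  (TrL.c (I.pos (nat_lit 0) (nat_lit 0)) (xa T2.l30 T2.l30)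
  (TrL.c (I.pos (nat_lit 0) (nat_lit 0)) (xa (xa T0.l33 T0.l33) T0.l33)
  TrL.n)))))) (by decide +kernel)
theorem bx1_42 : BoxOK sI cl4 cl7 cl4 t2 t0 b1_42 :=
  box_mk (TrL.c (I.pos (nat_lit 0) (nat_lit 0)) T2.l28
  (TrL.c (I.pos (nat_lit 0) (nat_lit 0)) (xa T0.l31 T0.l19)
  (TrL.c (I.pos (nat_lit 0) (nat_lit 0)) T2.l29
  (TrL.c (I.pos (nat_lit 0) (nat_lit 0)) (xa T0.l35 T0.l20)
  (TrL.c (I.pos (nat_lit 0) (nat_lit 0)) T2.l30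
  (TrL.c (I.pos (nat_lit 0) (nat_lit 0)) (xa T0.l33 T0.l21)
  TrL.n)))))) (by decide +kernel)
theorem bx1_43 : BoxOK sI cl4 cl7 cl4 t2 t0 b1_43 :=
  box_mk (TrL.c (I.pos (nat_lit 0) (nat_lit 0)) (xa T2.l16 (xb T2.l16 T2.l16))
  (TrL.c (I.pos (nat_lit 0) (nat_lit 0)) T0.l19
  (TrL.c (I.pos (nat_lit 0) (nat_lit 0)) T2.l40
  (TrL.c (I.pos (nat_lit 0) (nat_lit 0)) T0.l43
  (TrL.c (I.pos (nat_lit 0) (nat_lit 0)) T2.l41
  (TrL.c (I.pos (nat_lit 0) (nat_lit 0)) T0.l21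
  TrL.n)))))) (by decide +kernel)
theorem bx1_44 : BoxOK sI cl4 cl7 cl4 t2 t0 b1_44 :=
  box_mk (TrL.c (I.pos (nat_lit 0) (nat_lit 0)) (xa (xa (xa (xb (xa T2.l34 T2.l34) (xa T2.l34 T2.l28)) T2.l28) T2.l28) T2.l16)
  (TrL.c (I.pos (nat_lit 0) (nat_lit 0)) (xa (xa T0.l20 T0.l22) T0.l19)
  (TrL.c (I.pos (nat_lit 0) (nat_lit 0)) (xa T2.l30 T2.l17)
  (TrL.c (I.pos (nat_lit 0) (nat_lit 0)) (xa (xa T0.l19 T0.l23) T0.l32)
  (TrL.c (I.pos (nat_lit 0) (nat_lit 0)) (xa T2.l35 T2.l18)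
  (TrL.c (I.pos (nat_lit 0) (nat_lit 0)) (xa (xa T0.l37 T0.l24) T0.l21)
  TrL.n)))))) (by decide +kernel)
theorem bx1_45 : BoxOK sI cl4 cl7 cl4 t2 t0 b1_45 :=
  box_mk (TrL.c (I.pos (nat_lit 0) (nat_lit 0)) (xa (xa (xa T2.l34 T2.l28) T2.l28) T2.l16)
  (TrL.c (I.pos (nat_lit 0) (nat_lit 0)) (xa T0.l20 T0.l19)
  (TrL.c (I.pos (nat_lit 0) (nat_lit 0)) T2.l18
  (TrL.c (I.pos (nat_lit 0) (nat_lit 0)) T0.l31
  (TrL.c (I.pos (nat_lit 0) (nat_lit 0)) T2.l30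
  (TrL.c (I.pos (nat_lit 0) (nat_lit 0)) (xa T0.l33 T0.l21)
  TrL.n)))))) (by decide +kernel)
theorem bx1_46 : BoxOK sI cl4 cl7 cl4 t2 t0 b1_46 :=
  box_mk (TrL.c (I.pos (nat_lit 0) (nat_lit 0)) T2.l16
  (TrL.c (I.pos (nat_lit 0) (nat_lit 0)) (xa T0.l22 T0.l19)
  (TrL.c (I.pos (nat_lit 0) (nat_lit 0)) T2.l17
  (TrL.c (I.pos (nat_lit 0) (nat_lit 0)) (xa T0.l23 T0.l20)
  (TrL.c (I.pos (nat_lit 0) (nat_lit 0)) T2.l18
  (TrL.c (I.pos (nat_lit 0) (nat_lit 0)) T0.l33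
  TrL.n)))))) (by decide +kernel)
theorem bx1_47 : BoxOK sI cl4 cl7 cl4 t2 t0 b1_47 :=
  box_mk (TrL.c (I.pos (nat_lit 0) (nat_lit 0)) T2.l0
  (TrL.c (I.pos (nat_lit 0) (nat_lit 0)) (xa T0.l16 T0.l25)
  (TrL.c (I.pos (nat_lit 0) (nat_lit 0)) T2.l14
  (TrL.c (I.pos (nat_lit 0) (nat_lit 0)) (xa (xb T0.l17 T0.l17) T0.l26)
  (TrL.c (I.pos (nat_lit 0) (nat_lit 0)) T2.l15
  (TrL.c (I.pos (nat_lit 0) (nat_lit 0)) (xa T0.l18 T0.l27)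
  TrL.n)))))) (by decide +kernel)
theorem sv1 : StarV sI cl4 cl7 cl4 t2 t0 t1 :=
  (bt_n (bt_n (bt_n (bt_n (bt_n (bt_b bx1_0) (bt_n (bt_b bx1_1) (bt_b bx1_2))) (bt_n (bt_b bx1_3) (bt_n (bt_b bx1_4) (bt_b bx1_5)))) (bt_n (bt_n (bt_b bx1_6) (bt_n (bt_b bx1_7) (bt_b bx1_8))) (bt_n (bt_b bx1_9) (bt_n (bt_b bx1_10) (bt_b bx1_11))))) (bt_n (bt_n (bt_n (bt_b bx1_12) (bt_n (bt_b bx1_13) (bt_b bx1_14))) (bt_n (bt_b bx1_15) (bt_n (bt_b bx1_16) (bt_b bx1_17)))) (bt_n (bt_n (bt_b bx1_18) (bt_n (bt_b bx1_19) (bt_b bx1_20))) (bt_n (bt_b bx1_21) (bt_n (bt_b bx1_22) (bt_b bx1_23)))))) (bt_n (bt_n (bt_n (bt_n (bt_b bx1_24) (bt_n (bt_b bx1_25) (bt_b bx1_26))) (bt_n (bt_b bx1_27) (bt_n (bt_b bx1_28) (bt_b bx1_29)))) (bt_n (bt_n (bt_b bx1_30) (bt_n (bt_b bx1_31) (bt_b bx1_32))) (bt_n (bt_b bx1_33) (bt_n (bt_b bx1_34) (bt_b bx1_35))))) (bt_n (bt_n (bt_n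 (bt_b bx1_36) (bt_n (bt_b bx1_37) (bt_b bx1_38))) (bt_n (bt_b bx1_39) (bt_n (bt_b bx1_40) (bt_b bx1_41)))) (bt_n (bt_n (bt_b bx1_42) (bt_n (bt_b bx1_43) (bt_b bx1_44))) (bt_n (bt_b bx1_45) (bt_n (bt_b bx1_46) (bt_b bx1_47)))))))
def S1 : StarD := StarD.mk cl4 cl7 cl4 2 0 t1
def rc2_0_0_l : Tr := (xb (xa (xb (xa T1.l16 T1.l16) (xa (xc T1.l16 T1.l16) (xc T1.l16 T1.l16))) (xb (xa (xc T1.l16 (xb T1.l0 T1.l0)) (xc T1.l0 T1.l0)) (xa (xc T1.l16 (xb T1.l0 T1.l0)) (xc (xb T1.l0 T1.l0) T1.l0)))) (xa (xb (xa (xb T1.l16 (xc T1.l16 (xk T1.l16 T1.l0))) (xb (xc T1.l16 T1.l16) (xc T1.l16 (xk T1.l0 T1.l0)))) (xa (xb (xc T1.l16 (xk (xa T1.l0 T1.l0) T1.l0)) (xc (xk (xa T1.l0 T1.l0) (xa T1.l0 T1.l0)) (xk (xa T1.l0 T1.l0) (xa T1.l0 T1.l0)))) (xb (xc (xk T1.l0 T1.l0) (xk T1.l0 T1.l0)) (xc (xk (xa T1.l0 T1.l0) (xa T1.l0 T1.l0)) (xk (xa T1.l0 T1.l0) (xs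 T1.l0 T1.l0)))))) (xb (xa (xb (xc T1.l0 T1.l0) (xc T1.l16 T1.l0)) (xb (xc T1.l0 T1.l0) (xc T1.l0 T1.l0))) (xa (xb (xc (xk T1.l0 T1.l0) (xk T1.l0 T1.l0)) (xc (xk T1.l0 T1.l0) (xk (xa T1.l0 T1.l0) (xs T1.l0 T1.l0)))) (xb (xc (xk T1.l0 T1.l0) (xk T1.l0 T1.l0)) (xc (xk T1.l0 T1.l0) (xk (xa T1.l0 (xs T1.l0 T1.l0)) (xs T1.l0 T1.l0))))))))
theorem qc2_0_0_l : chkTr (tg true true false RT.r2) b2_0 t1 rc2_0_0_l
  (upd lo Co.a (rc sI cl7 cl4 cl4 b2_0 (I.pos (nat_lit 0) (nat_lit 0)))) = true := by decide +kernel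
def rc2_0_0_r : Tr := (xb (xa (xb (xa (xc T1.l0 T1.l0) T1.l0) (xa (xc T1.l0 T1.l0) (xc T1.l0 T1.l0))) (xb (xa T1.l0 T1.l0) (xa (xc T1.l0 T1.l0) T1.l0))) (xa (xb (xa (xb (xc T1.l0 T1.l0) (xc T1.l0 T1.l0)) (xb T1.l0 (xc T1.l0 (xk T1.l0 T1.l0)))) (xa (xb (xc T1.l0 (xk T1.l0 T1.l0)) (xc (xk T1.l0 T1.l0) (xk (xa (xs T1.l0 T1.l0) (xs T1.l0 T1.l0)) (xs T1.l0 T1.l0)))) (xb (xc T1.l0 (xk (xa T1.l0 T1.l0) T1.l0)) (xc (xk T1.l0 T1.l0) (xk (xs (xa T1.l0 T1.l0) (xa T1.l0 T1.l0)) (xs T1.l0 T1.l0)))))) (xb (xa (xb T1.l0 (xc T1.l0 (xk T1.l0 T1.l0))) (xb T1.l0 (xk T1.l0 T1.l0))) (xa (xb (xk (xc T1.l0 (xs T1.l0 T1.l0)) T1.l0) (xc (xk T1.l0 T1.l0) (xk (xs (xa T1.l0 T1.l0) (xa T1.l0 T1.l0)) (xs T1.l0 T1.l0)))) (xb (xk (xc T1.l0 (xs T1.l0 T1.l0)) T1.l0) (xk (xc T1.l0 (xs (xa T1.l0 T1.l0) (xa T1.l0 T1.l0))) (xc T1.l0 (xs T1.l0 T1.l0))))))))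
theorem qc2_0_0_r : chkTr (tg true true false RT.r2) b2_0 t1 rc2_0_0_r
  (upd hi Co.a (rc sI cl7 cl4 cl4 b2_0 (I.pos (nat_lit 0) (nat_lit 0)))) = true := by decide +kernel
theorem qc2_0_0_ : chkTr (tg true true false RT.r2) b2_0 t1 (Tr.N Co.a rc2_0_0_l rc2_0_0_r)
  (rc sI cl7 cl4 cl4 b2_0 (I.pos (nat_lit 0) (nat_lit 0))) = true := tr_split qc2_0_0_l qc2_0_0_r
theorem c2_0_0 : chkTag sI cl7 cl4 cl4 t1 b2_0 (tg true true false RT.r2) (I.pos (nat_lit 0) (nat_lit 0))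
  (Tr.N Co.a rc2_0_0_l rc2_0_0_r) = true := tag_mk (by decide +kernel) qc2_0_0_
theorem c2_0_1 : chkTag sI cl7 cl4 cl4 t1 b2_0 (tg true false false RT.r3) (I.pos (nat_lit 0) (nat_lit 0))
  (xa (xb (xk (xa T1.l17 (xb T1.l1 T1.l1)) (xa T1.l17 T1.l1)) (xk (xa (xb T1.l1 T1.l1) (xb T1.l1 T1.l1)) (xa (xb T1.l1 T1.l1) (xb T1.l1 T1.l1)))) (xb (xk (xa T1.l1 T1.l1) (xa T1.l1 T1.l1)) (xk (xa (xb T1.l1 (xk T1.l1 T1.l1)) (xb T1.l1 (xk T1.l1 T1.l1))) (xa (xb T1.l1 T1.l1) (xb T1.l1 T1.l1))))) = true := by decide +kernel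
theorem c2_0_2 : chkTag sI cl7 cl4 cl4 t1 b2_0 (Tag.mk true true false RT.tl RT.r4) (I.pos (nat_lit 0) (nat_lit 111196574))
  (xR (xR T1.l18 T1.l18) (xR (xR T1.l2 T1.l2) (xR (xa T1.l2 T1.l2) (xa (xb T1.l2 (xR T1.l2 T1.l2)) (xb T1.l2 (xR T1.l2 (xk T1.l2 T1.l2))))))) = true := by decide +kernel
theorem c2_0_3 : chkTag sI cl7 cl4 cl4 t1 b2_0 (Tag.mk true false false RT.tl RT.r5) (I.pos (nat_lit 0) (nat_lit 77433728))
  (xR (xR (xk T1.l3 T1.l3) T1.l19) (xR (xR T1.l3 T1.l3) (xk (xR (xb T1.l3 T1.l3) (xa T1.l3 (xb T1.l3 T1.l3))) (xR T1.l3 T1.l3)))) = true := by decide +kernel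
theorem c2_0_4 : chkTag sI cl7 cl4 cl4 t1 b2_0 (tg false false false RT.r3) (I.pos (nat_lit 0) (nat_lit 0))
  (xa (xb (xk (xa T1.l20 (xb T1.l4 T1.l4)) (xa T1.l4 (xb T1.l4 T1.l4))) (xk (xa T1.l4 T1.l4) (xa T1.l4 T1.l4))) (xb (xk (xa (xb T1.l4 T1.l4) (xb (xk T1.l4 T1.l4) (xk T1.l4 T1.l4))) (xa (xb T1.l4 T1.l4) (xb (xk T1.l4 T1.l4) (xk T1.l4 T1.l4)))) (xk (xa (xb T1.l4 T1.l4) (xb (xk T1.l4 T1.l4) (xk T1.l4 T1.l4))) (xa (xb T1.l4 T1.l4) (xb (xk T1.l4 T1.l4) (xk T1.l4 T1.l4)))))) = true := by decide +kernel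
theorem c2_0_5 : chkTag sI cl7 cl4 cl4 t1 b2_0 (tg false true false RT.r4) (I.pos (nat_lit 0) (nat_lit 0))
  (xb (xk (xa T1.l5 T1.l5) (xa T1.l21 T1.l5)) (xa T1.l5 (xk T1.l5 T1.l5))) = true := by decide +kernel
theorem c2_0_6 : chkTag sI cl7 cl4 cl4 t1 b2_0 (Tag.mk false false false RT.tl RT.r5) (I.mix (nat_lit 29511666) (nat_lit 77433728))
  (xR (xR T1.l6 T1.l6) (xR T1.l6 (xR (xk T1.l6 T1.l6) (xk (xb T1.l6 (xa T1.l6 (xR T1.l6 T1.l6))) (xb (xa T1.l6 T1.l6) T1.l6))))) = true := by decide +kernel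
theorem c2_0_7 : chkTag sI cl7 cl4 cl4 t1 b2_0 (Tag.mk false true false RT.tl RT.r6) (I.mix (nat_lit 29511666) (nat_lit 46070178))
  (xR (xR T1.l7 T1.l7) (xR T1.l7 (xk (xR T1.l7 T1.l7) T1.l7))) = true := by decide +kernel
theorem bx2_0 : BoxOK sI cl7 cl4 cl4 t1 t1 b2_0 :=
  box_mk' [(tg true true false RT.r2), (tg true false false RT.r3), (Tag.mk true true false RT.tl RT.r4), (Tag.mk true false false RT.tl RT.r5), (tg false false false RT.r3), (tg false true false RT.r4), (Tag.mk false false false RT.tl RT.r5), (Tag.mk false true false RT.tl RT.r6)] rfl (allL_c (ex_mk c2_0_0) (allL_c (ex_mk c2_0_1) (allL_c (ex_mk c2_0_2) (allL_c (ex_mk c2_0_3) (allL_c (ex_mk c2_0_4) (allL_c (ex_mk c2_0_5) (allL_c (ex_mk c2_0_6) (allL_c (ex_mk c2_0_7) allL_n))))))))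
theorem bx2_1 : BoxOK sI cl7 cl4 cl4 t1 t1 b2_1 :=
  box_mk (TrL.c (I.pos (nat_lit 0) (nat_lit 0)) (xb (xa (xb (xa (xb (xk (xa (xs T1.l8 T1.l8) T1.l8) (xa (xs T1.l8 T1.l8) T1.l8)) (xk T1.l8 T1.l8)) (xk T1.l8 (xb T1.l8 T1.l8))) (xa T1.l8 T1.l8)) (xb (xa T1.l8 T1.l8) T1.l8)) (xa (xa T1.l8 T1.l8) (xa T1.l8 T1.l8)))
  (TrL.c (I.pos (nat_lit 0) (nat_lit 0)) (xk (xb T1.l9 T1.l9) (xb T1.l9 T1.l9))
  (TrL.c (I.pos (nat_lit 0) (nat_lit 111196574)) (xR (xR T1.l10 T1.l10) (xR (xR T1.l10 T1.l10) (xR (xb T1.l10 T1.l10) (xb (xa T1.l10 T1.l10) (xa T1.l10 T1.l10)))))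
  (TrL.c (I.pos (nat_lit 0) (nat_lit 77433728)) (xR (xR T1.l10 T1.l24) (xR T1.l24 (xk (xR T1.l11 T1.l24) T1.l24)))
  (TrL.c (I.pos (nat_lit 0) (nat_lit 0)) (xa (xk (xb T1.l12 T1.l12) (xb T1.l12 T1.l12)) (xk (xb T1.l12 T1.l12) (xb T1.l12 T1.l12)))
  (TrL.c (I.pos (nat_lit 0) (nat_lit 0)) T1.l13
  (TrL.c (I.mix (nat_lit 29511666) (nat_lit 77433728)) (xR T1.l14 (xR T1.l14 (xk (xR T1.l14 T1.l14) T1.l14)))
  (TrL.c (I.mix (nat_lit 29511666) (nat_lit 46070178)) T1.l14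
  TrL.n)))))))) (by decide +kernel)
theorem c2_2_0 : chkTag sI cl7 cl4 cl4 t1 b2_2 (tg true true false RT.r2) (I.pos (nat_lit 0) (nat_lit 0))
  (xa (xb (xa (xb (xk T1.l16 T1.l16) (xk T1.l16 T1.l16)) (xb T1.l16 (xk T1.l16 T1.l16))) (xa (xb (xk (xa T1.l16 T1.l16) T1.l16) (xk (xa T1.l16 T1.l16) (xa T1.l16 T1.l16))) (xb (xk (xa T1.l16 T1.l16) T1.l16) (xk (xa T1.l16 T1.l16) (xa T1.l16 T1.l16))))) (xb (xa (xb T1.l16 (xk T1.l16 T1.l16)) (xb (xk T1.l16 T1.l16) (xk (xa T1.l16 T1.l16) T1.l16))) (xa (xb (xk (xa T1.l16 T1.l16) T1.l16) (xk (xa (xb T1.l16 T1.l16) (xb T1.l16 T1.l16)) (xa T1.l16 T1.l16))) (xb (xk (xa T1.l16 T1.l16) T1.l16) (xa (xk (xb T1.l16 T1.l16) T1.l16) (xk (xb T1.l16 T1.l16) T1.l16)))))) = true := by decide +kernel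
theorem c2_2_1 : chkTag sI cl7 cl4 cl4 t1 b2_2 (tg true false false RT.r3) (I.pos (nat_lit 0) (nat_lit 0))
  (xa (xk (xb T1.l17 (xa T1.l17 T1.l17)) (xb T1.l17 T1.l17)) (xk (xb T1.l17 (xa T1.l17 T1.l17)) (xb T1.l17 (xa T1.l17 T1.l17)))) = true := by decide +kernel
theorem c2_2_2 : chkTag sI cl7 cl4 cl4 t1 b2_2 (Tag.mk true true false RT.tl RT.r4) (I.pos (nat_lit 0) (nat_lit 111196574))
  (xR (xR T1.l18 T1.l18) (xR T1.l18 (xR (xk (xR T1.l18 T1.l18) T1.l18) (xa (xb T1.l18 (xR T1.l18 T1.l18)) (xk (xb T1.l18 (xR T1.l18 T1.l18)) (xR T1.l18 T1.l18)))))) = true := by decide +kernel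
theorem c2_2_3 : chkTag sI cl7 cl4 cl4 t1 b2_2 (Tag.mk true false false RT.tl RT.r5) (I.pos (nat_lit 0) (nat_lit 77433728))
  (xR (xR T1.l19 T1.l19) (xR T1.l19 (xk (xR T1.l19 T1.l19) T1.l19))) = true := by decide +kernel
theorem c2_2_4 : chkTag sI cl7 cl4 cl4 t1 b2_2 (tg false false false RT.r3) (I.pos (nat_lit 0) (nat_lit 0))
  (xk (xb (xa T1.l20 T1.l20) (xa T1.l4 T1.l20)) (xb (xa T1.l20 T1.l20) (xa T1.l4 T1.l20))) = true := by decide +kernel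
theorem c2_2_5 : chkTag sI cl7 cl4 cl4 t1 b2_2 (tg false true false RT.r4) (I.pos (nat_lit 0) (nat_lit 0))
  (xk T1.l21 T1.l21) = true := by decide +kernel
theorem c2_2_6 : chkTag sI cl7 cl4 cl4 t1 b2_2 (Tag.mk false false false RT.tl RT.r5) (I.mix (nat_lit 29511666) (nat_lit 77433728))
  (xR T1.l6 (xR T1.l6 (xR T1.l22 (xk (xb T1.l22 T1.l22) T1.l22)))) = true := by decide +kernel
theorem c2_2_7 : chkTag sI cl7 cl4 cl4 t1 b2_2 (Tag.mk false true false RT.tl RT.r6) (I.mix (nat_lit 29511666) (nat_lit 46070178))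
  (xR (xR (xR T1.l7 T1.l23) T1.l23) (xR T1.l23 (xk (xR T1.l23 T1.l23) T1.l23))) = true := by decide +kernel
theorem bx2_2 : BoxOK sI cl7 cl4 cl4 t1 t1 b2_2 :=
  box_mk' [(tg true true false RT.r2), (tg true false false RT.r3), (Tag.mk true true false RT.tl RT.r4), (Tag.mk true false false RT.tl RT.r5), (tg false false false RT.r3), (tg false true false RT.r4), (Tag.mk false false false RT.tl RT.r5), (Tag.mk false true false RT.tl RT.r6)] rfl (allL_c (ex_mk c2_2_0) (allL_c (ex_mk c2_2_1) (allL_c (ex_mk c2_2_2) (allL_c (ex_mk c2_2_3) (allL_c (ex_mk c2_2_4) (allL_c (ex_mk c2_2_5) (allL_c (ex_mk c2_2_6) (allL_c (ex_mk c2_2_7) allL_n))))))))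
theorem bx2_3 : BoxOK sI cl7 cl4 cl4 t1 t1 b2_3 :=
  box_mk (TrL.c (I.pos (nat_lit 0) (nat_lit 0)) (xk (xb T1.l9 T1.l9) (xb T1.l9 T1.l9))
  (TrL.c (I.pos (nat_lit 0) (nat_lit 0)) T1.l43
  (TrL.c (I.mix (nat_lit 29511666) (nat_lit 77433728)) (xR (xR T1.l24 T1.l24) (xR T1.l24 (xR T1.l24 (xk T1.l24 T1.l24))))
  (TrL.c (I.mix (nat_lit 29511666) (nat_lit 46070178)) (xR T1.l24 T1.l10)
  TrL.n)))) (by decide +kernel)
theorem bx2_4 : BoxOK sI cl7 cl4 cl4 t1 t1 b2_4 :=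
  box_mk (TrL.c (I.pos (nat_lit 0) (nat_lit 0)) (xa (xb T1.l8 T1.l8) (xb T1.l0 T1.l16))
  (TrL.c (I.pos (nat_lit 0) (nat_lit 0)) (xk T1.l34 T1.l9)
  (TrL.c (I.pos (nat_lit 0) (nat_lit 111196574)) (xR T1.l6 (xR T1.l6 T1.l18))
  (TrL.c (I.pos (nat_lit 0) (nat_lit 77433728)) (xR T1.l14 T1.l19)
  (TrL.c (I.pos (nat_lit 0) (nat_lit 0)) (xk T1.l12 T1.l12)
  (TrL.c (I.pos (nat_lit 0) (nat_lit 0)) T1.l31
  (TrL.c (I.mix (nat_lit 29511666) (nat_lit 77433728)) (xR T1.l22 (xR T1.l22 (xR T1.l32 T1.l32)))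
  (TrL.c (I.mix (nat_lit 29511666) (nat_lit 46070178)) (xR T1.l14 T1.l19)
  TrL.n)))))))) (by decide +kernel)
theorem bx2_5 : BoxOK sI cl7 cl4 cl4 t1 t1 b2_5 :=
  box_mk (TrL.c (I.pos (nat_lit 0) (nat_lit 0)) (xa (xb T1.l0 T1.l16) T1.l0)
  (TrL.c (I.pos (nat_lit 0) (nat_lit 0)) (xk T1.l17 T1.l17)
  (TrL.c (I.pos (nat_lit 0) (nat_lit 111196574)) (xR (xR T1.l6 T1.l6) (xR T1.l18 (xR T1.l18 T1.l6)))
  (TrL.c (I.pos (nat_lit 0) (nat_lit 77433728)) (xR (xR T1.l19 T1.l19) T1.l19)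
  (TrL.c (I.pos (nat_lit 0) (nat_lit 0)) (xk T1.l20 T1.l20)
  (TrL.c (I.pos (nat_lit 0) (nat_lit 0)) T1.l21
  (TrL.c (I.mix (nat_lit 29511666) (nat_lit 77433728)) (xR T1.l22 (xR T1.l22 (xR T1.l22 T1.l22)))
  (TrL.c (I.mix (nat_lit 29511666) (nat_lit 46070178)) (xR T1.l14 T1.l19)
  TrL.n)))))))) (by decide +kernel)
theorem bx2_6 : BoxOK sI cl7 cl4 cl4 t1 t1 b2_6 :=
  box_mk (TrL.c (I.pos (nat_lit 0) (nat_lit 0)) (xk T1.l34 T1.l34)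
  (TrL.c (I.pos (nat_lit 0) (nat_lit 0)) T1.l18
  (TrL.c (I.mix (nat_lit 29511666) (nat_lit 77433728)) (xR (xR (xR T1.l24 T1.l24) T1.l24) (xR T1.l24 T1.l19))
  (TrL.c (I.mix (nat_lit 29511666) (nat_lit 46070178)) (xR (xR T1.l25 T1.l25) T1.l6)
  TrL.n)))) (by decide +kernel)
theorem bx2_7 : BoxOK sI cl7 cl4 cl4 t1 t1 b2_7 :=
  box_mk (TrL.c (I.pos (nat_lit 0) (nat_lit 0)) T1.l8
  (TrL.c (I.pos (nat_lit 0) (nat_lit 0)) T1.l27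
  (TrL.c (I.pos (nat_lit 0) (nat_lit 111196574)) (xR T1.l6 T1.l18)
  (TrL.c (I.pos (nat_lit 0) (nat_lit 77433728)) (xR T1.l11 T1.l19)
  (TrL.c (I.pos (nat_lit 0) (nat_lit 0)) T1.l30
  (TrL.c (I.pos (nat_lit 0) (nat_lit 0)) T1.l31
  (TrL.c (I.mix (nat_lit 29511666) (nat_lit 77433728)) (xR T1.l22 (xR T1.l32 T1.l32))
  (TrL.c (I.mix (nat_lit 29511666) (nat_lit 46070178)) (xR T1.l14 T1.l19)
  TrL.n)))))))) (by decide +kernel)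
theorem bx2_8 : BoxOK sI cl7 cl4 cl4 t1 t1 b2_8 :=
  box_mk (TrL.c (I.pos (nat_lit 0) (nat_lit 0)) (xk T1.l35 T1.l35)
  (TrL.c (I.pos (nat_lit 0) (nat_lit 0)) T1.l36
  (TrL.c (I.mix (nat_lit 29511666) (nat_lit 77433728)) (xR (xR T1.l24 T1.l10) (xR T1.l10 (xk T1.l24 T1.l24)))
  (TrL.c (I.mix (nat_lit 29511666) (nat_lit 46070178)) (xR T1.l24 T1.l10)
  TrL.n)))) (by decide +kernel)
theorem bx2_9 : BoxOK sI cl7 cl4 cl4 t1 t1 b2_9 :=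
  box_mk (TrL.c (I.pos (nat_lit 0) (nat_lit 0)) (xb (xa (xb T1.l37 T1.l37) T1.l8) (xa T1.l37 T1.l37))
  (TrL.c (I.pos (nat_lit 0) (nat_lit 0)) (xk T1.l35 T1.l35)
  (TrL.c (I.pos (nat_lit 0) (nat_lit 111196574)) (xR T1.l10 (xR T1.l10 (xR T1.l38 (xb T1.l38 T1.l10))))
  (TrL.c (I.pos (nat_lit 0) (nat_lit 77433728)) (xR T1.l10 (xR T1.l24 (xk T1.l24 T1.l11)))
  (TrL.c (I.pos (nat_lit 0) (nat_lit 0)) (xk (xb T1.l39 T1.l39) (xb T1.l39 T1.l39))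
  (TrL.c (I.pos (nat_lit 0) (nat_lit 0)) T1.l13
  (TrL.c (I.mix (nat_lit 29511666) (nat_lit 77433728)) (xR T1.l14 (xR T1.l14 (xk T1.l14 T1.l14)))
  (TrL.c (I.mix (nat_lit 29511666) (nat_lit 46070178)) T1.l14
  TrL.n)))))))) (by decide +kernel)
theorem bx2_10 : BoxOK sI cl7 cl4 cl4 t1 t1 b2_10 :=
  box_mk (TrL.c (I.pos (nat_lit 0) (nat_lit 0)) T1.l8
  (TrL.c (I.pos (nat_lit 0) (nat_lit 0)) T1.l17
  (TrL.c (I.pos (nat_lit 0) (nat_lit 111196574)) (xR T1.l10 T1.l18)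
  (TrL.c (I.pos (nat_lit 0) (nat_lit 77433728)) (xR T1.l11 T1.l19)
  (TrL.c (I.pos (nat_lit 0) (nat_lit 0)) T1.l12
  (TrL.c (I.pos (nat_lit 0) (nat_lit 0)) T1.l13
  (TrL.c (I.mix (nat_lit 29511666) (nat_lit 77433728)) (xR T1.l6 (xR T1.l14 T1.l22))
  (TrL.c (I.mix (nat_lit 29511666) (nat_lit 46070178)) (xR T1.l15 T1.l15)
  TrL.n)))))))) (by decide +kernel)
theorem bx2_11 : BoxOK sI cl7 cl4 cl4 t1 t1 b2_11 :=
  box_mk (TrL.c (I.pos (nat_lit 0) (nat_lit 0)) (xb T1.l8 (xa T1.l26 T1.l8))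
  (TrL.c (I.pos (nat_lit 0) (nat_lit 0)) (xk T1.l9 T1.l9)
  (TrL.c (I.pos (nat_lit 0) (nat_lit 111196574)) (xR T1.l10 (xR T1.l10 (xR T1.l10 (xb T1.l10 T1.l28))))
  (TrL.c (I.pos (nat_lit 0) (nat_lit 77433728)) (xR T1.l14 (xR T1.l14 T1.l19))
  (TrL.c (I.pos (nat_lit 0) (nat_lit 0)) (xk T1.l12 T1.l12)
  (TrL.c (I.pos (nat_lit 0) (nat_lit 0)) T1.l13
  (TrL.c (I.mix (nat_lit 29511666) (nat_lit 77433728)) (xR T1.l22 (xR T1.l22 (xR T1.l14 T1.l14)))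
  (TrL.c (I.mix (nat_lit 29511666) (nat_lit 46070178)) (xR T1.l15 (xR T1.l15 (xk (xR T1.l15 T1.l15) T1.l15)))
  TrL.n)))))))) (by decide +kernel)
theorem bx2_12 : BoxOK sI cl7 cl4 cl4 t1 t1 b2_12 :=
  box_mk (TrL.c (I.pos (nat_lit 0) (nat_lit 0)) (xb T1.l0 (xa T1.l16 T1.l16))
  (TrL.c (I.pos (nat_lit 0) (nat_lit 0)) (xk (xb T1.l17 T1.l17) (xb T1.l17 T1.l17))
  (TrL.c (I.pos (nat_lit 0) (nat_lit 111196574)) (xR (xR T1.l18 T1.l18) (xR T1.l18 (xR T1.l18 T1.l6)))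
  (TrL.c (I.pos (nat_lit 0) (nat_lit 77433728)) (xR (xR T1.l19 T1.l19) (xR T1.l19 (xR T1.l19 T1.l19)))
  (TrL.c (I.pos (nat_lit 0) (nat_lit 0)) (xk (xb T1.l20 T1.l20) (xb T1.l20 T1.l20))
  (TrL.c (I.pos (nat_lit 0) (nat_lit 0)) T1.l21
  (TrL.c (I.mix (nat_lit 29511666) (nat_lit 77433728)) (xR T1.l22 (xR T1.l22 (xR T1.l22 T1.l22)))
  (TrL.c (I.mix (nat_lit 29511666) (nat_lit 46070178)) (xR T1.l14 T1.l19)
  TrL.n)))))))) (by decide +kernel)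
theorem bx2_13 : BoxOK sI cl7 cl4 cl4 t1 t1 b2_13 :=
  box_mk (TrL.c (I.pos (nat_lit 0) (nat_lit 0)) (xk T1.l34 T1.l9)
  (TrL.c (I.pos (nat_lit 0) (nat_lit 0)) T1.l43
  (TrL.c (I.mix (nat_lit 29511666) (nat_lit 77433728)) (xR (xR T1.l24 T1.l24) (xR T1.l24 (xR T1.l24 T1.l19)))
  (TrL.c (I.mix (nat_lit 29511666) (nat_lit 46070178)) (xR (xR T1.l25 T1.l25) T1.l6)
  TrL.n)))) (by decide +kernel)
theorem bx2_14 : BoxOK sI cl7 cl4 cl4 t1 t1 b2_14 :=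
  box_mk (TrL.c (I.pos (nat_lit 0) (nat_lit 0)) T1.l35
  (TrL.c (I.pos (nat_lit 0) (nat_lit 0)) T1.l36
  (TrL.c (I.mix (nat_lit 29511666) (nat_lit 77433728)) (xR T1.l24 (xR T1.l11 T1.l14))
  (TrL.c (I.mix (nat_lit 29511666) (nat_lit 46070178)) T1.l24
  TrL.n)))) (by decide +kernel)
theorem bx2_15 : BoxOK sI cl7 cl4 cl4 t1 t1 b2_15 :=
  box_mk (TrL.c (I.pos (nat_lit 0) (nat_lit 0)) (xb T1.l37 T1.l37)
  (TrL.c (I.pos (nat_lit 0) (nat_lit 0)) T1.l35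
  (TrL.c (I.pos (nat_lit 0) (nat_lit 111196574)) (xR T1.l10 (xR T1.l38 T1.l38))
  (TrL.c (I.pos (nat_lit 0) (nat_lit 77433728)) (xR T1.l10 T1.l14)
  (TrL.c (I.pos (nat_lit 0) (nat_lit 0)) T1.l39
  (TrL.c (I.pos (nat_lit 0) (nat_lit 0)) T1.l40
  (TrL.c (I.mix (nat_lit 29511666) (nat_lit 77433728)) (xR T1.l41 T1.l14)
  (TrL.c (I.mix (nat_lit 29511666) (nat_lit 46070178)) T1.l14
  TrL.n)))))))) (by decide +kernel)
theorem c2_16_0 : chkTag sI cl7 cl4 cl4 t1 b2_16 (tg true true false RT.r2) (I.pos (nat_lit 0) (nat_lit 0))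
  (xa (xb (xa T1.l0 (xb T1.l0 T1.l0)) (xa (xb T1.l0 (xa T1.l0 T1.l0)) (xb (xa T1.l0 T1.l0) (xa T1.l0 T1.l0)))) (xb (xa (xb (xa T1.l0 T1.l4) (xa T1.l0 T1.l4)) (xb (xa T1.l4 T1.l4) (xa T1.l4 T1.l4))) (xa (xb (xa (xc T1.l0 T1.l0) T1.l4) (xa (xc T1.l0 T1.l4) T1.l4)) (xb (xa T1.l4 (xk T1.l4 T1.l4)) (xa T1.l4 (xk T1.l4 T1.l4)))))) = true := by decide +kernel
theorem c2_16_1 : chkTag sI cl7 cl4 cl4 t1 b2_16 (tg true false false RT.r3) (I.pos (nat_lit 0) (nat_lit 0))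
  (xa (xk (xb T1.l1 (xa T1.l1 T1.l1)) (xb (xa T1.l1 T1.l1) T1.l1)) (xk (xb T1.l5 (xa T1.l1 T1.l5)) (xb T1.l5 (xa T1.l1 T1.l5)))) = true := by decide +kernel
theorem c2_16_2 : chkTag sI cl7 cl4 cl4 t1 b2_16 (Tag.mk true true false RT.tl RT.r4) (I.pos (nat_lit 0) (nat_lit 111196574))
  (xR (xR T1.l6 T1.l2) (xR (xR T1.l2 T1.l2) (xR (xa T1.l2 T1.l2) (xa T1.l2 T1.l6)))) = true := by decide +kernel
theorem c2_16_3 : chkTag sI cl7 cl4 cl4 t1 b2_16 (Tag.mk true false false RT.tl RT.r5) (I.pos (nat_lit 0) (nat_lit 77433728))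
  (xR (xR T1.l3 (xR T1.l3 T1.l3)) (xR T1.l3 (xR T1.l3 (xk (xa T1.l3 (xb T1.l3 T1.l3)) T1.l3)))) = true := by decide +kernel
theorem c2_16_4 : chkTag sI cl7 cl4 cl4 t1 b2_16 (tg false false false RT.r3) (I.pos (nat_lit 0) (nat_lit 0))
  (xa (xb (xk T1.l4 T1.l4) (xk T1.l4 T1.l4)) (xb (xk (xa T1.l4 (xb T1.l4 (xk T1.l4 T1.l4))) (xa T1.l4 (xb T1.l4 T1.l4))) (xk (xa (xb T1.l4 T1.l4) (xb (xk T1.l4 T1.l4) (xk T1.l4 T1.l4))) (xa T1.l4 (xb T1.l4 (xk T1.l4 T1.l4)))))) = true := by decide +kernel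
theorem c2_16_5 : chkTag sI cl7 cl4 cl4 t1 b2_16 (tg false true false RT.r4) (I.pos (nat_lit 0) (nat_lit 0))
  (xk (xb (xa T1.l5 T1.l5) (xa T1.l5 (xa T1.l5 T1.l5))) (xb (xa T1.l5 T1.l5) (xa T1.l5 T1.l5))) = true := by decide +kernel
theorem c2_16_6 : chkTag sI cl7 cl4 cl4 t1 b2_16 (Tag.mk false false false RT.tl RT.r5) (I.mix (nat_lit 29511666) (nat_lit 77433728))
  (xR (xR (xR T1.l6 T1.l6) T1.l6) (xR T1.l6 (xR T1.l6 (xk (xR T1.l6 T1.l6) T1.l6)))) = true := by decide +kernel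
theorem c2_16_7 : chkTag sI cl7 cl4 cl4 t1 b2_16 (Tag.mk false true false RT.tl RT.r6) (I.mix (nat_lit 29511666) (nat_lit 46070178))
  (xR (xR (xR T1.l7 T1.l7) T1.l7) (xR T1.l7 (xR T1.l7 (xk T1.l7 T1.l7)))) = true := by decide +kernel
theorem bx2_16 : BoxOK sI cl7 cl4 cl4 t1 t1 b2_16 :=
  box_mk' [(tg true true false RT.r2), (tg true false false RT.r3), (Tag.mk true true false RT.tl RT.r4), (Tag.mk true false false RT.tl RT.r5), (tg false false false RT.r3), (tg false true false RT.r4), (Tag.mk false false false RT.tl RT.r5), (Tag.mk false true false RT.tl RT.r6)] rfl (allL_c (ex_mk c2_16_0) (allL_c (ex_mk c2_16_1) (allL_c (ex_mk c2_16_2) (allL_c (ex_mk c2_16_3) (allL_c (ex_mk c2_16_4) (allL_c (ex_mk c2_16_5) (allL_c (ex_mk c2_16_6) (allL_c (ex_mk c2_16_7) allL_n))))))))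
theorem bx2_17 : BoxOK sI cl7 cl4 cl4 t1 t1 b2_17 :=
  box_mk (TrL.c (I.pos (nat_lit 0) (nat_lit 0)) T1.l35
  (TrL.c (I.pos (nat_lit 0) (nat_lit 0)) T1.l36
  (TrL.c (I.mix (nat_lit 29511666) (nat_lit 77433728)) (xR T1.l24 T1.l14)
  (TrL.c (I.mix (nat_lit 29511666) (nat_lit 46070178)) T1.l24
  TrL.n)))) (by decide +kernel)
theorem bx2_18 : BoxOK sI cl7 cl4 cl4 t1 t1 b2_18 :=
  box_mk (TrL.c (I.pos (nat_lit 0) (nat_lit 0)) (xb (xa T1.l37 T1.l37) (xa T1.l37 T1.l37))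
  (TrL.c (I.pos (nat_lit 0) (nat_lit 0)) T1.l35
  (TrL.c (I.pos (nat_lit 0) (nat_lit 111196574)) (xR T1.l10 T1.l38)
  (TrL.c (I.pos (nat_lit 0) (nat_lit 77433728)) T1.l14
  (TrL.c (I.pos (nat_lit 0) (nat_lit 0)) (xb T1.l39 T1.l39)
  (TrL.c (I.pos (nat_lit 0) (nat_lit 0)) T1.l40
  (TrL.c (I.mix (nat_lit 29511666) (nat_lit 77433728)) (xR T1.l41 T1.l14)
  (TrL.c (I.mix (nat_lit 29511666) (nat_lit 46070178)) T1.l24
  TrL.n)))))))) (by decide +kernel)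
theorem bx2_19 : BoxOK sI cl7 cl4 cl4 t1 t1 b2_19 :=
  box_mk (TrL.c (I.pos (nat_lit 0) (nat_lit 0)) (xa (xb T1.l0 T1.l0) (xb (xa T1.l0 T1.l4) (xa (xb T1.l0 T1.l0) T1.l4)))
  (TrL.c (I.pos (nat_lit 0) (nat_lit 0)) (xk (xa T1.l5 T1.l5) (xa (xb T1.l1 T1.l1) T1.l5))
  (TrL.c (I.pos (nat_lit 0) (nat_lit 111196574)) (xR (xR T1.l2 T1.l2) (xR T1.l2 T1.l2))
  (TrL.c (I.pos (nat_lit 0) (nat_lit 77433728)) (xR (xR T1.l3 (xR T1.l3 T1.l3)) (xR T1.l3 T1.l3))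
  (TrL.c (I.pos (nat_lit 0) (nat_lit 0)) (xk (xb (xa T1.l4 (xa T1.l4 (xk T1.l4 T1.l4))) (xa T1.l4 T1.l4)) (xa (xb T1.l0 T1.l4) (xb (xa T1.l4 (xk T1.l4 T1.l4)) T1.l4)))
  (TrL.c (I.pos (nat_lit 0) (nat_lit 0)) (xk T1.l5 (xb T1.l5 T1.l5))
  (TrL.c (I.mix (nat_lit 29511666) (nat_lit 77433728)) (xR (xR T1.l6 T1.l6) (xR T1.l6 (xR T1.l6 T1.l6)))
  (TrL.c (I.mix (nat_lit 29511666) (nat_lit 46070178)) (xR (xR (xR T1.l7 T1.l7) T1.l7) T1.l3)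
  TrL.n)))))))) (by decide +kernel)
theorem bx2_20 : BoxOK sI cl7 cl4 cl4 t1 t1 b2_20 :=
  box_mk (TrL.c (I.pos (nat_lit 0) (nat_lit 0)) T1.l47
  (TrL.c (I.pos (nat_lit 0) (nat_lit 0)) T1.l36
  (TrL.c (I.mix (nat_lit 29511666) (nat_lit 77433728)) (xR T1.l24 T1.l14)
  (TrL.c (I.mix (nat_lit 29511666) (nat_lit 46070178)) T1.l24
  TrL.n)))) (by decide +kernel)
theorem bx2_21 : BoxOK sI cl7 cl4 cl4 t1 t1 b2_21 :=
  box_mk (TrL.c (I.pos (nat_lit 0) (nat_lit 0)) (xb T1.l37 (xa T1.l37 T1.l37))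
  (TrL.c (I.pos (nat_lit 0) (nat_lit 0)) T1.l47
  (TrL.c (I.pos (nat_lit 0) (nat_lit 111196574)) (xR T1.l10 T1.l38)
  (TrL.c (I.pos (nat_lit 0) (nat_lit 77433728)) T1.l14
  (TrL.c (I.pos (nat_lit 0) (nat_lit 0)) T1.l39
  (TrL.c (I.pos (nat_lit 0) (nat_lit 0)) T1.l40
  (TrL.c (I.mix (nat_lit 29511666) (nat_lit 77433728)) (xR T1.l41 T1.l14)
  (TrL.c (I.mix (nat_lit 29511666) (nat_lit 46070178)) T1.l24
  TrL.n)))))))) (by decide +kernel)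
theorem bx2_22 : BoxOK sI cl7 cl4 cl4 t1 t1 b2_22 :=
  box_mk (TrL.c (I.pos (nat_lit 0) (nat_lit 0)) (xa (xb (xa (xb T1.l0 (xk T1.l0 T1.l0)) (xb T1.l0 (xk T1.l0 T1.l0))) (xa (xb (xk (xa T1.l0 T1.l0) T1.l0) (xk (xa (xb T1.l0 T1.l0) (xb T1.l0 T1.l0)) (xa T1.l0 T1.l0))) (xb (xk (xa T1.l0 T1.l0) T1.l0) (xk (xa (xb T1.l0 T1.l0) (xb T1.l0 T1.l0)) (xa T1.l0 T1.l0))))) (xb (xa (xb T1.l0 (xk T1.l0 T1.l0)) (xb T1.l0 (xk T1.l0 T1.l0))) (xa (xb (xk (xa T1.l0 T1.l0) T1.l0) (xk (xa (xb T1.l0 T1.l0) (xs T1.l0 T1.l0)) (xa T1.l0 T1.l0))) (xb (xk (xa T1.l0 T1.l0) T1.l0) (xk (xa (xs T1.l0 T1.l0) (xs T1.l0 T1.l0)) (xa T1.l0 T1.l0))))))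
  (TrL.c (I.pos (nat_lit 0) (nat_lit 0)) (xk (xa (xb T1.l1 T1.l1) (xb T1.l1 (xk T1.l1 T1.l1))) (xa (xb T1.l1 T1.l1) (xb T1.l1 T1.l1)))
  (TrL.c (I.pos (nat_lit 0) (nat_lit 111196574)) (xR T1.l2 (xR T1.l2 (xR T1.l2 (xR T1.l2 T1.l2))))
  (TrL.c (I.pos (nat_lit 0) (nat_lit 77433728)) (xR (xR T1.l3 T1.l3) (xR T1.l3 (xR T1.l3 T1.l3)))
  (TrL.c (I.pos (nat_lit 0) (nat_lit 0)) (xk (xa T1.l4 (xb T1.l4 T1.l4)) (xa T1.l4 T1.l4))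
  (TrL.c (I.pos (nat_lit 0) (nat_lit 0)) (xk T1.l5 T1.l5)
  (TrL.c (I.mix (nat_lit 29511666) (nat_lit 77433728)) (xR T1.l6 (xR T1.l6 T1.l6))
  (TrL.c (I.mix (nat_lit 29511666) (nat_lit 46070178)) (xR T1.l7 T1.l7)
  TrL.n)))))))) (by decide +kernel)
theorem bx2_23 : BoxOK sI cl7 cl4 cl4 t1 t1 b2_23 :=
  box_mk (TrL.c (I.pos (nat_lit 0) (nat_lit 0)) (xk T1.l35 T1.l35)
  (TrL.c (I.pos (nat_lit 0) (nat_lit 0)) T1.l36
  (TrL.c (I.mix (nat_lit 29511666) (nat_lit 77433728)) (xR (xR (xR T1.l44 T1.l14) T1.l10) (xR T1.l24 (xk (xR T1.l44 T1.l24) T1.l24)))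
  (TrL.c (I.mix (nat_lit 29511666) (nat_lit 46070178)) (xR (xR T1.l24 T1.l45) T1.l10)
  TrL.n)))) (by decide +kernel)
theorem bx2_24 : BoxOK sI cl7 cl4 cl4 t1 t1 b2_24 :=
  box_mk (TrL.c (I.pos (nat_lit 0) (nat_lit 0)) (xb (xa T1.l37 T1.l8) (xa T1.l37 T1.l37))
  (TrL.c (I.pos (nat_lit 0) (nat_lit 0)) (xk T1.l35 T1.l35)
  (TrL.c (I.pos (nat_lit 0) (nat_lit 111196574)) (xR T1.l10 (xR (xR T1.l38 T1.l38) (xR T1.l38 (xb T1.l10 T1.l38))))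
  (TrL.c (I.pos (nat_lit 0) (nat_lit 77433728)) (xR T1.l10 (xR (xk T1.l24 T1.l11) (xk (xR T1.l24 T1.l24) T1.l24)))
  (TrL.c (I.pos (nat_lit 0) (nat_lit 0)) (xk (xb T1.l39 T1.l39) (xb T1.l39 T1.l39))
  (TrL.c (I.pos (nat_lit 0) (nat_lit 0)) T1.l40
  (TrL.c (I.mix (nat_lit 29511666) (nat_lit 77433728)) (xR T1.l14 (xR T1.l41 (xk T1.l14 T1.l41)))
  (TrL.c (I.mix (nat_lit 29511666) (nat_lit 46070178)) T1.l14
  TrL.n)))))))) (by decide +kernel)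
theorem bx2_25 : BoxOK sI cl7 cl4 cl4 t1 t1 b2_25 :=
  box_mk (TrL.c (I.pos (nat_lit 0) (nat_lit 0)) T1.l0
  (TrL.c (I.pos (nat_lit 0) (nat_lit 0)) T1.l1
  (TrL.c (I.pos (nat_lit 0) (nat_lit 111196574)) (xR (xR T1.l2 T1.l2) T1.l2)
  (TrL.c (I.pos (nat_lit 0) (nat_lit 77433728)) (xR (xR T1.l3 T1.l3) T1.l3)
  (TrL.c (I.pos (nat_lit 0) (nat_lit 0)) T1.l4
  (TrL.c (I.pos (nat_lit 0) (nat_lit 0)) T1.l5
  (TrL.c (I.mix (nat_lit 29511666) (nat_lit 77433728)) (xR T1.l6 T1.l6)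
  (TrL.c (I.mix (nat_lit 29511666) (nat_lit 46070178)) (xR T1.l7 T1.l7)
  TrL.n)))))))) (by decide +kernel)
theorem bx2_26 : BoxOK sI cl7 cl4 cl4 t1 t1 b2_26 :=
  box_mk (TrL.c (I.pos (nat_lit 0) (nat_lit 0)) T1.l35
  (TrL.c (I.pos (nat_lit 0) (nat_lit 0)) T1.l36
  (TrL.c (I.mix (nat_lit 29511666) (nat_lit 77433728)) (xR T1.l24 T1.l14)
  (TrL.c (I.mix (nat_lit 29511666) (nat_lit 46070178)) T1.l24
  TrL.n)))) (by decide +kernel)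
theorem bx2_27 : BoxOK sI cl7 cl4 cl4 t1 t1 b2_27 :=
  box_mk (TrL.c (I.pos (nat_lit 0) (nat_lit 0)) T1.l37
  (TrL.c (I.pos (nat_lit 0) (nat_lit 0)) T1.l35
  (TrL.c (I.pos (nat_lit 0) (nat_lit 111196574)) (xR T1.l10 (xR T1.l38 T1.l38))
  (TrL.c (I.pos (nat_lit 0) (nat_lit 77433728)) (xR T1.l10 T1.l46)
  (TrL.c (I.pos (nat_lit 0) (nat_lit 0)) T1.l39
  (TrL.c (I.pos (nat_lit 0) (nat_lit 0)) T1.l40
  (TrL.c (I.mix (nat_lit 29511666) (nat_lit 77433728)) (xR T1.l41 T1.l14)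
  (TrL.c (I.mix (nat_lit 29511666) (nat_lit 46070178)) T1.l14
  TrL.n)))))))) (by decide +kernel)
theorem c2_28_0 : chkTag sI cl7 cl4 cl4 t1 b2_28 (tg true true false RT.r2) (I.pos (nat_lit 0) (nat_lit 0))
  (xa (xb (xa (xb T1.l0 T1.l0) (xb (xc T1.l0 (xa T1.l0 T1.l0)) (xc T1.l0 (xa T1.l0 T1.l0)))) (xa (xb (xc T1.l0 T1.l0) (xc (xa T1.l0 (xb T1.l0 T1.l0)) (xa T1.l0 T1.l0))) (xb (xc T1.l0 (xa T1.l0 T1.l0)) (xc (xa (xb T1.l0 T1.l0) (xb T1.l0 T1.l0)) (xa T1.l0 (xb T1.l0 T1.l0)))))) (xb (xa (xb (xa T1.l4 T1.l4) (xa T1.l4 T1.l4)) (xb (xa T1.l4 (xk T1.l4 T1.l4)) (xa T1.l4 (xc T1.l4 (xk T1.l4 T1.l4))))) (xa (xb (xa (xc T1.l0 T1.l4) T1.l4) (xa (xc (xk T1.l0 T1.l0) (xk T1.l4 T1.l0)) (xc T1.l4 T1.l4))) (xb (xa (xc T1.l4 T1.l4) (xc T1.l4 (xk (xb T1.l4 T1.l4) T1.l4))) (xa (xc T1.l4 (xk T1.l4 T1.l4)) (xc (xk T1.l4 T1.l4) (xk (xb T1.l4 T1.l4) T1.l4)))))))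 = true := by decide +kernel
theorem c2_28_1 : chkTag sI cl7 cl4 cl4 t1 b2_28 (tg true false false RT.r3) (I.pos (nat_lit 0) (nat_lit 0))
  (xa (xb (xk T1.l5 (xa T1.l1 T1.l1)) (xk (xa T1.l1 T1.l5) (xa T1.l1 T1.l1))) (xb (xk (xa T1.l1 T1.l5) T1.l5) (xk (xa (xb T1.l1 T1.l1) (xb T1.l5 T1.l5)) (xa T1.l5 T1.l5)))) = true := by decide +kernel
theorem c2_28_2 : chkTag sI cl7 cl4 cl4 t1 b2_28 (Tag.mk true true false RT.tl RT.r4) (I.pos (nat_lit 0) (nat_lit 111196574))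
  (xR (xR T1.l6 T1.l2) (xR (xR T1.l2 T1.l6) (xR (xa T1.l6 T1.l6) (xa (xb T1.l6 T1.l6) T1.l6)))) = true := by decide +kernel
theorem c2_28_3 : chkTag sI cl7 cl4 cl4 t1 b2_28 (Tag.mk true false false RT.tl RT.r5) (I.pos (nat_lit 0) (nat_lit 77433728))
  (xR (xR T1.l7 (xR T1.l3 T1.l3)) (xR (xR T1.l3 (xk T1.l3 T1.l3)) (xR (xk (xb T1.l7 T1.l3) T1.l3) (xk (xa (xb T1.l3 T1.l3) (xb T1.l7 (xR T1.l3 T1.l3))) (xb T1.l3 T1.l3))))) = true := by decide +kernel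
theorem c2_28_4 : chkTag sI cl7 cl4 cl4 t1 b2_28 (tg false false false RT.r3) (I.pos (nat_lit 0) (nat_lit 0))
  (xa (xb (xk (xb (xa (xk T1.l0 T1.l0) (xk (xa T1.l4 T1.l4) (xa T1.l4 T1.l4))) (xa T1.l4 T1.l4)) (xa (xb (xk T1.l4 T1.l4) T1.l4) (xb (xk (xa T1.l4 T1.l4) T1.l4) T1.l4))) (xk (xa T1.l4 T1.l4) (xa T1.l4 T1.l4))) (xb (xk (xa (xb (xk (xa T1.l4 T1.l4) (xa T1.l4 T1.l4)) (xk T1.l4 T1.l4)) (xb (xk (xa (xb T1.l4 T1.l4) (xb T1.l4 T1.l4)) (xa (xb T1.l4 T1.l4) (xb T1.l4 T1.l4))) (xk (xa T1.l4 (xb T1.l4 T1.l4)) (xa T1.l4 T1.l4)))) (xa (xb (xk (xa T1.l4 T1.l4) (xa T1.l4 T1.l4)) T1.l4) (xb (xk (xa T1.l4 (xb T1.l4 T1.l4)) (xa T1.l4 T1.l4)) (xk T1.l4 T1.l4)))) (xk (xa (xb T1.l4 (xk T1.l4 T1.l4)) (xb (xk (xa T1.l4 (xb T1.l4 T1.l4)) (xa T1.l4 (xb T1.l4 T1.l4))) (xk (xa T1.l4 (xb T1.l4 T1.l4)) (xa T1.l4 (xb T1.l4 T1.l4))))) (xa (xb T1.l4 (xk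 T1.l4 T1.l4)) (xb (xk (xa T1.l4 T1.l4) T1.l4) (xk (xa T1.l4 (xb T1.l4 T1.l4)) (xa T1.l4 (xb T1.l4 T1.l4)))))))) = true := by decide +kernel
theorem c2_28_5 : chkTag sI cl7 cl4 cl4 t1 b2_28 (tg false true false RT.r4) (I.pos (nat_lit 0) (nat_lit 0))
  (xb (xk (xa (xb T1.l5 T1.l5) (xb (xa T1.l5 T1.l1) T1.l5)) (xa T1.l5 (xb T1.l5 T1.l5))) (xk (xa T1.l5 (xb T1.l5 (xa T1.l5 T1.l5))) (xa T1.l5 (xa T1.l5 T1.l5)))) = true := by decide +kernel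
theorem c2_28_6 : chkTag sI cl7 cl4 cl4 t1 b2_28 (Tag.mk false false false RT.tl RT.r5) (I.mix (nat_lit 29511666) (nat_lit 77433728))
  (xR (xR (xR (xk (xb (xR T1.l6 T1.l6) T1.l6) T1.l6) T1.l6) T1.l2) (xR (xR T1.l6 T1.l6) (xR (xk (xb T1.l2 T1.l6) T1.l6) (xb (xk (xa T1.l2 (xR T1.l6 T1.l6)) (xa T1.l6 T1.l6)) (xk (xR T1.l6 (xa T1.l6 T1.l6)) T1.l6))))) = true := by decide +kernel
theorem c2_28_7 : chkTag sI cl7 cl4 cl4 t1 b2_28 (Tag.mk false true false RT.tl RT.r6) (I.mix (nat_lit 29511666) (nat_lit 46070178))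
  (xR (xR (xR T1.l7 T1.l7) T1.l7) (xR T1.l7 (xk (xR T1.l3 (xb T1.l3 T1.l7)) T1.l7))) = true := by decide +kernel
theorem bx2_28 : BoxOK sI cl7 cl4 cl4 t1 t1 b2_28 :=
  box_mk' [(tg true true false RT.r2), (tg true false false RT.r3), (Tag.mk true true false RT.tl RT.r4), (Tag.mk true false false RT.tl RT.r5), (tg false false false RT.r3), (tg false true false RT.r4), (Tag.mk false false false RT.tl RT.r5), (Tag.mk false true false RT.tl RT.r6)] rfl (allL_c (ex_mk c2_28_0) (allL_c (ex_mk c2_28_1) (allL_c (ex_mk c2_28_2) (allL_c (ex_mk c2_28_3) (allL_c (ex_mk c2_28_4) (allL_c (ex_mk c2_28_5) (allL_c (ex_mk c2_28_6) (allL_c (ex_mk c2_28_7) allL_n))))))))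
theorem bx2_29 : BoxOK sI cl7 cl4 cl4 t1 t1 b2_29 :=
  box_mk (TrL.c (I.pos (nat_lit 0) (nat_lit 0)) T1.l35
  (TrL.c (I.pos (nat_lit 0) (nat_lit 0)) T1.l38
  (TrL.c (I.mix (nat_lit 29511666) (nat_lit 77433728)) (xR T1.l24 T1.l14)
  (TrL.c (I.mix (nat_lit 29511666) (nat_lit 46070178)) T1.l24
  TrL.n)))) (by decide +kernel)
theorem bx2_30 : BoxOK sI cl7 cl4 cl4 t1 t1 b2_30 :=
  box_mk (TrL.c (I.pos (nat_lit 0) (nat_lit 0)) (xb (xa (xb T1.l37 T1.l37) T1.l37) (xa (xb T1.l37 T1.l37) (xb T1.l37 T1.l37)))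
  (TrL.c (I.pos (nat_lit 0) (nat_lit 0)) (xb T1.l47 T1.l47)
  (TrL.c (I.pos (nat_lit 0) (nat_lit 111196574)) (xR T1.l10 (xR T1.l38 (xR T1.l38 T1.l38)))
  (TrL.c (I.pos (nat_lit 0) (nat_lit 77433728)) T1.l14
  (TrL.c (I.pos (nat_lit 0) (nat_lit 0)) (xb T1.l39 T1.l39)
  (TrL.c (I.pos (nat_lit 0) (nat_lit 0)) T1.l40
  (TrL.c (I.mix (nat_lit 29511666) (nat_lit 77433728)) (xR T1.l41 T1.l14)
  (TrL.c (I.mix (nat_lit 29511666) (nat_lit 46070178)) T1.l24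
  TrL.n)))))))) (by decide +kernel)
theorem bx2_31 : BoxOK sI cl7 cl4 cl4 t1 t1 b2_31 :=
  box_mk (TrL.c (I.pos (nat_lit 0) (nat_lit 0)) (xa (xb T1.l0 T1.l0) (xb T1.l4 T1.l4))
  (TrL.c (I.pos (nat_lit 0) (nat_lit 0)) (xk T1.l5 T1.l5)
  (TrL.c (I.pos (nat_lit 0) (nat_lit 111196574)) (xR (xR T1.l2 T1.l2) T1.l6)
  (TrL.c (I.pos (nat_lit 0) (nat_lit 77433728)) (xR (xR T1.l3 (xR T1.l3 T1.l3)) (xR T1.l3 T1.l3))
  (TrL.c (I.pos (nat_lit 0) (nat_lit 0)) (xk (xa (xb T1.l0 T1.l4) (xb (xk (xa T1.l4 T1.l4) T1.l0) T1.l4)) (xa (xb T1.l0 T1.l4) (xb (xk T1.l0 T1.l0) T1.l4)))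
  (TrL.c (I.pos (nat_lit 0) (nat_lit 0)) (xk T1.l5 T1.l5)
  (TrL.c (I.mix (nat_lit 29511666) (nat_lit 77433728)) (xR (xR T1.l6 T1.l6) (xR T1.l6 (xR T1.l6 (xk T1.l6 T1.l6))))
  (TrL.c (I.mix (nat_lit 29511666) (nat_lit 46070178)) (xR (xR (xR T1.l7 T1.l7) T1.l7) T1.l3)
  TrL.n)))))))) (by decide +kernel)
theorem bx2_32 : BoxOK sI cl7 cl4 cl4 t1 t1 b2_32 :=
  box_mk (TrL.c (I.pos (nat_lit 0) (nat_lit 0)) T1.l47
  (TrL.c (I.pos (nat_lit 0) (nat_lit 0)) T1.l36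
  (TrL.c (I.mix (nat_lit 29511666) (nat_lit 77433728)) (xR T1.l24 T1.l14)
  (TrL.c (I.mix (nat_lit 29511666) (nat_lit 46070178)) T1.l24
  TrL.n)))) (by decide +kernel)
theorem bx2_33 : BoxOK sI cl7 cl4 cl4 t1 t1 b2_33 :=
  box_mk (TrL.c (I.pos (nat_lit 0) (nat_lit 0)) (xb T1.l37 (xa T1.l37 T1.l37))
  (TrL.c (I.pos (nat_lit 0) (nat_lit 0)) T1.l47
  (TrL.c (I.pos (nat_lit 0) (nat_lit 111196574)) (xR T1.l10 T1.l38)
  (TrL.c (I.pos (nat_lit 0) (nat_lit 77433728)) T1.l14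
  (TrL.c (I.pos (nat_lit 0) (nat_lit 0)) T1.l39
  (TrL.c (I.pos (nat_lit 0) (nat_lit 0)) T1.l40
  (TrL.c (I.mix (nat_lit 29511666) (nat_lit 77433728)) (xR T1.l41 T1.l14)
  (TrL.c (I.mix (nat_lit 29511666) (nat_lit 46070178)) T1.l24
  TrL.n)))))))) (by decide +kernel)
theorem bx2_34 : BoxOK sI cl7 cl4 cl4 t1 t1 b2_34 :=
  box_mk (TrL.c (I.pos (nat_lit 0) (nat_lit 0)) T1.l4
  (TrL.c (I.pos (nat_lit 0) (nat_lit 0)) T1.l5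
  (TrL.c (I.pos (nat_lit 0) (nat_lit 111196574)) (xR (xR T1.l6 T1.l2) T1.l2)
  (TrL.c (I.pos (nat_lit 0) (nat_lit 77433728)) (xR (xR T1.l7 (xR T1.l3 T1.l3)) (xR T1.l3 T1.l3))
  (TrL.c (I.pos (nat_lit 0) (nat_lit 0)) (xk (xk T1.l0 T1.l0) (xk T1.l0 T1.l0))
  (TrL.c (I.pos (nat_lit 0) (nat_lit 0)) (xk T1.l5 T1.l5)
  (TrL.c (I.mix (nat_lit 29511666) (nat_lit 77433728)) (xR (xR T1.l6 T1.l6) (xR T1.l6 (xR T1.l6 (xk (xR T1.l6 T1.l6) T1.l6))))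
  (TrL.c (I.mix (nat_lit 29511666) (nat_lit 46070178)) (xR (xR T1.l7 T1.l7) T1.l3)
  TrL.n)))))))) (by decide +kernel)
theorem bx2_35 : BoxOK sI cl7 cl4 cl4 t1 t1 b2_35 :=
  box_mk (TrL.c (I.pos (nat_lit 0) (nat_lit 0)) (xb T1.l37 T1.l37)
  (TrL.c (I.pos (nat_lit 0) (nat_lit 0)) T1.l47
  (TrL.c (I.pos (nat_lit 0) (nat_lit 111196574)) (xR T1.l10 T1.l38)
  (TrL.c (I.pos (nat_lit 0) (nat_lit 77433728)) T1.l14
  (TrL.c (I.pos (nat_lit 0) (nat_lit 0)) T1.l39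
  (TrL.c (I.pos (nat_lit 0) (nat_lit 0)) T1.l40
  (TrL.c (I.mix (nat_lit 29511666) (nat_lit 77433728)) (xR T1.l41 T1.l14)
  (TrL.c (I.mix (nat_lit 29511666) (nat_lit 46070178)) T1.l24
  TrL.n)))))))) (by decide +kernel)
theorem bx2_36 : BoxOK sI cl7 cl4 cl4 t1 t1 b2_36 :=
  box_mk (TrL.c (I.pos (nat_lit 0) (nat_lit 0)) T1.l4
  (TrL.c (I.pos (nat_lit 0) (nat_lit 0)) T1.l5
  (TrL.c (I.pos (nat_lit 0) (nat_lit 111196574)) (xR (xR T1.l6 T1.l2) T1.l2)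
  (TrL.c (I.pos (nat_lit 0) (nat_lit 77433728)) (xR (xR T1.l3 T1.l19) (xR T1.l3 T1.l3))
  (TrL.c (I.pos (nat_lit 0) (nat_lit 0)) T1.l0
  (TrL.c (I.pos (nat_lit 0) (nat_lit 0)) T1.l5
  (TrL.c (I.mix (nat_lit 29511666) (nat_lit 77433728)) (xR (xR T1.l6 T1.l6) (xR T1.l6 (xR T1.l6 (xk T1.l6 T1.l6))))
  (TrL.c (I.mix (nat_lit 29511666) (nat_lit 46070178)) (xR (xR T1.l7 T1.l7) T1.l3)
  TrL.n)))))))) (by decide +kernel)
theorem bx2_37 : BoxOK sI cl7 cl4 cl4 t1 t1 b2_37 :=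
  box_mk (TrL.c (I.pos (nat_lit 0) (nat_lit 0)) T1.l37
  (TrL.c (I.pos (nat_lit 0) (nat_lit 0)) T1.l47
  (TrL.c (I.pos (nat_lit 0) (nat_lit 111196574)) (xR T1.l10 T1.l38)
  (TrL.c (I.pos (nat_lit 0) (nat_lit 77433728)) T1.l14
  (TrL.c (I.pos (nat_lit 0) (nat_lit 0)) T1.l39
  (TrL.c (I.pos (nat_lit 0) (nat_lit 0)) T1.l40
  (TrL.c (I.mix (nat_lit 29511666) (nat_lit 77433728)) (xR T1.l41 T1.l41)
  (TrL.c (I.mix (nat_lit 29511666) (nat_lit 46070178)) T1.l24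
  TrL.n)))))))) (by decide +kernel)
theorem bx2_38 : BoxOK sI cl7 cl4 cl4 t1 t1 b2_38 :=
  box_mk (TrL.c (I.pos (nat_lit 0) (nat_lit 0)) T1.l35
  (TrL.c (I.pos (nat_lit 0) (nat_lit 0)) T1.l36
  (TrL.c (I.mix (nat_lit 29511666) (nat_lit 77433728)) (xR T1.l24 T1.l14)
  (TrL.c (I.mix (nat_lit 29511666) (nat_lit 46070178)) T1.l24
  TrL.n)))) (by decide +kernel)
theorem bx2_39 : BoxOK sI cl7 cl4 cl4 t1 t1 b2_39 :=
  box_mk (TrL.c (I.pos (nat_lit 0) (nat_lit 0)) T1.l37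
  (TrL.c (I.pos (nat_lit 0) (nat_lit 0)) T1.l35
  (TrL.c (I.pos (nat_lit 0) (nat_lit 111196574)) (xR T1.l10 (xR T1.l38 T1.l38))
  (TrL.c (I.pos (nat_lit 0) (nat_lit 77433728)) (xR T1.l10 T1.l46)
  (TrL.c (I.pos (nat_lit 0) (nat_lit 0)) T1.l39
  (TrL.c (I.pos (nat_lit 0) (nat_lit 0)) T1.l40
  (TrL.c (I.mix (nat_lit 29511666) (nat_lit 77433728)) T1.l14
  (TrL.c (I.mix (nat_lit 29511666) (nat_lit 46070178)) T1.l14
  TrL.n)))))))) (by decide +kernel)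
theorem bx2_40 : BoxOK sI cl7 cl4 cl4 t1 t1 b2_40 :=
  box_mk (TrL.c (I.pos (nat_lit 0) (nat_lit 0)) T1.l35
  (TrL.c (I.pos (nat_lit 0) (nat_lit 0)) T1.l36
  (TrL.c (I.mix (nat_lit 29511666) (nat_lit 77433728)) (xR T1.l24 T1.l14)
  (TrL.c (I.mix (nat_lit 29511666) (nat_lit 46070178)) T1.l24
  TrL.n)))) (by decide +kernel)
theorem bx2_41 : BoxOK sI cl7 cl4 cl4 t1 t1 b2_41 :=
  box_mk (TrL.c (I.pos (nat_lit 0) (nat_lit 0)) T1.l37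
  (TrL.c (I.pos (nat_lit 0) (nat_lit 0)) T1.l47
  (TrL.c (I.pos (nat_lit 0) (nat_lit 111196574)) (xR T1.l10 T1.l38)
  (TrL.c (I.pos (nat_lit 0) (nat_lit 77433728)) T1.l14
  (TrL.c (I.pos (nat_lit 0) (nat_lit 0)) T1.l39
  (TrL.c (I.pos (nat_lit 0) (nat_lit 0)) T1.l40
  (TrL.c (I.mix (nat_lit 29511666) (nat_lit 77433728)) T1.l41
  (TrL.c (I.mix (nat_lit 29511666) (nat_lit 46070178)) T1.l14
  TrL.n)))))))) (by decide +kernel)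
theorem bx2_42 : BoxOK sI cl7 cl4 cl4 t1 t1 b2_42 :=
  box_mk (TrL.c (I.pos (nat_lit 0) (nat_lit 0)) (xb (xa T1.l8 T1.l8) (xa T1.l8 T1.l8))
  (TrL.c (I.pos (nat_lit 0) (nat_lit 0)) (xk T1.l9 T1.l9)
  (TrL.c (I.pos (nat_lit 0) (nat_lit 111196574)) (xR (xR T1.l10 T1.l10) (xR T1.l10 (xR T1.l10 T1.l10)))
  (TrL.c (I.pos (nat_lit 0) (nat_lit 77433728)) (xR (xR T1.l11 T1.l11) (xR T1.l11 T1.l24))
  (TrL.c (I.pos (nat_lit 0) (nat_lit 0)) (xb (xk T1.l12 T1.l12) (xk T1.l12 T1.l12))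
  (TrL.c (I.pos (nat_lit 0) (nat_lit 0)) T1.l13
  (TrL.c (I.mix (nat_lit 29511666) (nat_lit 77433728)) (xR (xR T1.l14 T1.l14) (xR T1.l14 T1.l14))
  (TrL.c (I.mix (nat_lit 29511666) (nat_lit 46070178)) T1.l14
  TrL.n)))))))) (by decide +kernel)
theorem bx2_43 : BoxOK sI cl7 cl4 cl4 t1 t1 b2_43 :=
  box_mk (TrL.c (I.pos (nat_lit 0) (nat_lit 0)) (xb (xa T1.l16 T1.l16) (xa T1.l16 T1.l16))
  (TrL.c (I.pos (nat_lit 0) (nat_lit 0)) (xk T1.l17 T1.l17)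
  (TrL.c (I.pos (nat_lit 0) (nat_lit 111196574)) (xR (xR T1.l18 T1.l18) (xR T1.l18 T1.l2))
  (TrL.c (I.pos (nat_lit 0) (nat_lit 77433728)) (xR T1.l19 (xR T1.l19 T1.l19))
  (TrL.c (I.pos (nat_lit 0) (nat_lit 0)) (xk T1.l20 T1.l20)
  (TrL.c (I.pos (nat_lit 0) (nat_lit 0)) T1.l21
  (TrL.c (I.mix (nat_lit 29511666) (nat_lit 77433728)) (xR T1.l22 (xR T1.l22 T1.l22))
  (TrL.c (I.mix (nat_lit 29511666) (nat_lit 46070178)) (xR T1.l23 T1.l23)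
  TrL.n)))))))) (by decide +kernel)
theorem bx2_44 : BoxOK sI cl7 cl4 cl4 t1 t1 b2_44 :=
  box_mk (TrL.c (I.pos (nat_lit 0) (nat_lit 0)) (xb T1.l34 T1.l34)
  (TrL.c (I.pos (nat_lit 0) (nat_lit 0)) T1.l43
  (TrL.c (I.mix (nat_lit 29511666) (nat_lit 77433728)) (xR T1.l24 (xR T1.l24 (xR T1.l24 T1.l24)))
  (TrL.c (I.mix (nat_lit 29511666) (nat_lit 46070178)) (xR T1.l24 T1.l10)
  TrL.n)))) (by decide +kernel)
theorem bx2_45 : BoxOK sI cl7 cl4 cl4 t1 t1 b2_45 :=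
  box_mk (TrL.c (I.pos (nat_lit 0) (nat_lit 0)) (xb T1.l8 (xa T1.l26 T1.l26))
  (TrL.c (I.pos (nat_lit 0) (nat_lit 0)) (xk T1.l27 T1.l27)
  (TrL.c (I.pos (nat_lit 0) (nat_lit 111196574)) (xR T1.l10 (xR T1.l6 (xb T1.l10 (xR T1.l28 T1.l28))))
  (TrL.c (I.pos (nat_lit 0) (nat_lit 77433728)) (xR T1.l14 (xR T1.l14 T1.l19))
  (TrL.c (I.pos (nat_lit 0) (nat_lit 0)) (xb T1.l12 T1.l30)
  (TrL.c (I.pos (nat_lit 0) (nat_lit 0)) T1.l31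
  (TrL.c (I.mix (nat_lit 29511666) (nat_lit 77433728)) (xR T1.l22 (xR T1.l32 (xR T1.l32 T1.l14)))
  (TrL.c (I.mix (nat_lit 29511666) (nat_lit 46070178)) (xR T1.l14 (xR T1.l14 (xk (xb T1.l14 T1.l15) T1.l14)))
  TrL.n)))))))) (by decide +kernel)
theorem sv2 : StarV sI cl7 cl4 cl4 t1 t1 t2 :=
  (bt_n (bt_n (bt_n (bt_n (bt_n (bt_b bx2_0) (bt_b bx2_1)) (bt_n (bt_b bx2_2) (bt_n (bt_b bx2_3) (bt_b bx2_4)))) (bt_n (bt_n (bt_b bx2_5) (bt_n (bt_b bx2_6) (bt_b bx2_7))) (bt_n (bt_b bx2_8) (bt_n (bt_b bx2_9) (bt_b bx2_10))))) (bt_n (bt_n (bt_n (bt_b bx2_11) (bt_n (bt_b bx2_12) (bt_b bx2_13))) (bt_n (bt_b bx2_14) (bt_n (bt_b bx2_15) (bt_b bx2_16)))) (bt_n (bt_n (bt_b bx2_17) (bt_n (bt_b bx2_18) (bt_b bx2_19))) (bt_n (bt_b bx2_20) (bt_n (bt_b bx2_21) (bt_b bx2_22)))))) (bt_n (bt_n (bt_n (bt_n (bt_b bx2_23) (bt_b bx2_24)) (bt_n (bt_b bx2_25) (bt_n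 (bt_b bx2_26) (bt_b bx2_27)))) (bt_n (bt_n (bt_b bx2_28) (bt_n (bt_b bx2_29) (bt_b bx2_30))) (bt_n (bt_b bx2_31) (bt_n (bt_b bx2_32) (bt_b bx2_33))))) (bt_n (bt_n (bt_n (bt_b bx2_34) (bt_n (bt_b bx2_35) (bt_b bx2_36))) (bt_n (bt_b bx2_37) (bt_n (bt_b bx2_38) (bt_b bx2_39)))) (bt_n (bt_n (bt_b bx2_40) (bt_n (bt_b bx2_41) (bt_b bx2_42))) (bt_n (bt_b bx2_43) (bt_n (bt_b bx2_44) (bt_b bx2_45)))))))
def S2 : StarD := StarD.mk cl7 cl4 cl4 1 1 t2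
def G : List StarD := [S0, S1, S2]
theorem so0 : StarOK sI G S0 :=
  star_mk (by decide) (by decide) rfl rfl rfl rfl rfl rfl (rfl : _ = t0) (rfl : _ = t2)
  (st_mk (Pth.l (Pth.l (Pth.l (Pth.l (Pth.l Pth.z))))) (nat_lit 399745381) (nat_lit 403754924) (by decide +kernel))
  (st_mk (Pth.l (Pth.l (Pth.l (Pth.l (Pth.l Pth.z))))) (nat_lit 442447011) (nat_lit 447483057) (by decide +kernel))
  (st_mk (Pth.l (Pth.l (Pth.l (Pth.l (Pth.l Pth.z))))) (nat_lit 492944745) (nat_lit 499439741) (by decide +kernel)) sv0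
theorem so1 : StarOK sI G S1 :=
  star_mk (by decide) (by decide) rfl rfl rfl rfl rfl rfl (rfl : _ = t2) (rfl : _ = t0)
  (st_mk (Pth.l (Pth.l (Pth.l (Pth.l (Pth.l Pth.z))))) (nat_lit 149380540) (nat_lit 173846695) (by decide +kernel))
  (st_mk (Pth.l (Pth.l (Pth.l (Pth.l (Pth.l Pth.z))))) (nat_lit 189953910) (nat_lit 215421184) (by decide +kernel))
  (st_mk (Pth.l (Pth.l (Pth.l (Pth.l (Pth.l Pth.z))))) (nat_lit 238832741) (nat_lit 265693344) (by decide +kernel)) sv1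
theorem so2 : StarOK sI G S2 :=
  star_mk (by decide) (by decide) rfl rfl rfl rfl rfl rfl (rfl : _ = t1) (rfl : _ = t1)
  (st_mk (Pth.l (Pth.l (Pth.l (Pth.l (Pth.l Pth.z))))) (nat_lit 374044628) (nat_lit 379822441) (by decide +kernel))
  (st_mk (Pth.l (Pth.l (Pth.l (Pth.l (Pth.l Pth.z))))) (nat_lit 410963078) (nat_lit 417640114) (by decide +kernel))
  (st_mk (Pth.l (Pth.l (Pth.l (Pth.l (Pth.l Pth.z))))) (nat_lit 451933998) (nat_lit 463533770) (by decide +kernel)) sv2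
theorem ok : GroupOK (nat_lit 238878720) (nat_lit 268435456) G := grp_mk (allS_c so0 (allS_c so1 (allS_c so2 allS_n)))
theorem cov : GCov G cl4 cl4 cl7 := cov_mk
  ⟨0, by decide, rfl, rfl, rfl⟩ ⟨1, by decide, rfl, rfl, rfl⟩ ⟨0, by decide, rfl, rfl, rfl⟩ ⟨1, by decide, rfl, rfl, rfl⟩ ⟨2, by decide, rfl, rfl, rfl⟩ ⟨2, by decide, rfl, rfl, rfl⟩
end Q114_4

namespace Q115_0
def sI : I := I.pos (nat_lit 0) (nat_lit 91291648)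
def b0_0 : Bx := Bx.mk (St.mk (I.pos (nat_lit 152502272) (nat_lit 223559680)) (I.mix (nat_lit 6504448) (nat_lit 110198784)) (I.mix (nat_lit 52396032) (nat_lit 56836096)) (I.pos (nat_lit 374276096) (nat_lit 480559104)) (I.mix (nat_lit 121864192) (nat_lit 93749248)) (I.mix (nat_lit 105463808) (nat_lit 108118016)) (I.mix (nat_lit 142196736) (nat_lit 142786560)))
  false (nat_lit 12670610)
def b0_1 : Bx := Bx.mk (St.mk (I.mix (nat_lit 52985856) (nat_lit 5619712)) (I.mix (nat_lit 21594112) (nat_lit 94633984)) (I.neg (nat_lit 74481664) (nat_lit 105250816)) (I.pos (nat_lit 264667136) (nat_lit 295419904)) (I.mix (nat_lit 63209472) (nat_lit 123387904)) (I.mix (nat_lit 109559808) (nat_lit 88489984)) (I.mix (nat_lit 48283648) (nat_lit 48496640)))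
  true (nat_lit 0)
def b0_2 : Bx := Bx.mk (St.mk (I.pos (nat_lit 10993664) (nat_lit 52035584)) (I.neg (nat_lit 24166400) (nat_lit 92045312)) (I.neg (nat_lit 74481664) (nat_lit 105250816)) (I.pos (nat_lit 266862592) (nat_lit 295288832)) (I.mix (nat_lit 123387904) (nat_lit 51019776)) (I.mix (nat_lit 88489984) (nat_lit 109559808)) (I.mix (nat_lit 48283648) (nat_lit 48496640)))
  false (nat_lit 0)
def b0_3 : Bx := Bx.mk (St.mk (I.mix (nat_lit 17825792) (nat_lit 4177920)) (I.mix (nat_lit 21118976) (nat_lit 20496384)) (I.neg (nat_lit 78659584) (nat_lit 92225536)) (I.pos (nat_lit 265699328) (nat_lit 282361856)) (I.mix (nat_lit 55558144) (nat_lit 48300032)) (I.mix (nat_lit 55083008) (nat_lit 51281920)) (I.mix (nat_lit 5095424) (nat_lit 18776064)))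
  true (nat_lit 0)
def b0_4 : Bx := Bx.mk (St.mk (I.pos (nat_lit 215154688) (nat_lit 259391488)) (I.mix (nat_lit 29786112) (nat_lit 28819456)) (I.neg (nat_lit 102645760) (nat_lit 227573760)) (I.pos (nat_lit 462897152) (nat_lit 546750464)) (I.mix (nat_lit 113065984) (nat_lit 64192512)) (I.mix (nat_lit 96223232) (nat_lit 105725952)) (I.mix (nat_lit 178765824) (nat_lit 253476864)))
  false (nat_lit 0)
def b0_5 : Bx := Bx.mk (St.mk (I.mix (nat_lit 3489792) (nat_lit 16891904)) (I.mix (nat_lit 17285120) (nat_lit 16678912)) (I.neg (nat_lit 78659584) (nat_lit 92110848)) (I.pos (nat_lit 265699328) (nat_lit 282361856)) (I.mix (nat_lit 44335104) (nat_lit 47087616)) (I.mix (nat_lit 48726016) (nat_lit 48644096)) (I.mix (nat_lit 3145728) (nat_lit 17006592)))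
  false (nat_lit 0)
def b0_6 : Bx := Bx.mk (St.mk (I.pos (nat_lit 10502144) (nat_lit 123535360)) (I.mix (nat_lit 96813056) (nat_lit 7061504)) (I.neg (nat_lit 32243712) (nat_lit 122372096)) (I.pos (nat_lit 260423680) (nat_lit 339050496)) (I.mix (nat_lit 127483904) (nat_lit 80494592)) (I.mix (nat_lit 80609280) (nat_lit 119554048)) (I.mix (nat_lit 87883776) (nat_lit 101056512)))
  false (nat_lit 0)
def b0_7 : Bx := Bx.mk (St.mk (I.pos (nat_lit 86605824) (nat_lit 200572928)) (I.mix (nat_lit 50774016) (nat_lit 100892672)) (I.mix (nat_lit 91865088) (nat_lit 52133888)) (I.pos (nat_lit 299761664) (nat_lit 440975360)) (I.mix (nat_lit 131366912) (nat_lit 86130688)) (I.mix (nat_lit 168476672) (nat_lit 123322368)) (I.mix (nat_lit 156188672) (nat_lit 135315456)))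
  false (nat_lit 5888574)
def b0_8 : Bx := Bx.mk (St.mk (I.neg (nat_lit 10485760) (nat_lit 123535360)) (I.mix (nat_lit 7061504) (nat_lit 96813056)) (I.neg (nat_lit 32243712) (nat_lit 122388480)) (I.pos (nat_lit 260423680) (nat_lit 339050496)) (I.mix (nat_lit 80494592) (nat_lit 127500288)) (I.mix (nat_lit 119570432) (nat_lit 80625664)) (I.mix (nat_lit 87900160) (nat_lit 101056512)))
  true (nat_lit 0)
def b0_9 : Bx := Bx.mk (St.mk (I.pos (nat_lit 173244416) (nat_lit 255426560)) (I.mix (nat_lit 33521664) (nat_lit 103071744)) (I.mix (nat_lit 229670912) (nat_lit 40386560)) (I.pos (nat_lit 413106176) (nat_lit 533331968)) (I.mix (nat_lit 139182080) (nat_lit 108347392)) (I.mix (nat_lit 124485632) (nat_lit 139395072)) (I.mix (nat_lit 222248960) (nat_lit 294469632)))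
  false (nat_lit 27566691)
def b0_10 : Bx := Bx.mk (St.mk (I.mix (nat_lit 2473984) (nat_lit 41730048)) (I.mix (nat_lit 76120064) (nat_lit 21184512)) (I.neg (nat_lit 77283328) (nat_lit 102023168)) (I.pos (nat_lit 264994816) (nat_lit 289816576)) (I.mix (nat_lit 107069440) (nat_lit 62373888)) (I.mix (nat_lit 70090752) (nat_lit 105021440)) (I.mix (nat_lit 28360704) (nat_lit 33472512)))
  false (nat_lit 0)
def t0 : BTr := (BTr.n (BTr.n (BTr.n (BTr.b b0_0) (BTr.b b0_1)) (BTr.n (BTr.b b0_2) (BTr.n (BTr.b b0_3) (BTr.b b0_4)))) (BTr.n (BTr.n (BTr.b b0_5) (BTr.n (BTr.b b0_6) (BTr.b b0_7))) (BTr.n (BTr.b b0_8) (BTr.n (BTr.b b0_9) (BTr.b b0_10)))))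
namespace T0
def l0 : Tr := Tr.L (Pth.l (Pth.l (Pth.l Pth.z)))
def l1 : Tr := Tr.L (Pth.l (Pth.l (Pth.r Pth.z)))
def l2 : Tr := Tr.L (Pth.l (Pth.r (Pth.l Pth.z)))
def l3 : Tr := Tr.L (Pth.l (Pth.r (Pth.r (Pth.l Pth.z))))
def l4 : Tr := Tr.L (Pth.l (Pth.r (Pth.r (Pth.r Pth.z))))
def l5 : Tr := Tr.L (Pth.r (Pth.l (Pth.l Pth.z)))
def l6 : Tr := Tr.L (Pth.r (Pth.l (Pth.r (Pth.l Pth.z))))
def l7 : Tr := Tr.L (Pth.r (Pth.l (Pth.r (Pth.r Pth.z))))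
def l8 : Tr := Tr.L (Pth.r (Pth.r (Pth.l Pth.z)))
def l9 : Tr := Tr.L (Pth.r (Pth.r (Pth.r (Pth.l Pth.z))))
def l10 : Tr := Tr.L (Pth.r (Pth.r (Pth.r (Pth.r Pth.z))))
end T0
def b1_0 : Bx := Bx.mk (St.mk (I.pos (nat_lit 156123136) (nat_lit 238616576)) (I.mix (nat_lit 3489792) (nat_lit 56999936)) (I.mix (nat_lit 6062080) (nat_lit 102432768)) (I.pos (nat_lit 110952448) (nat_lit 247939072)) (I.mix (nat_lit 97779712) (nat_lit 51937280)) (I.mix (nat_lit 82427904) (nat_lit 67698688)) (I.mix (nat_lit 120193024) (nat_lit 85688320)))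
  false (nat_lit 0)
def b1_1 : Bx := Bx.mk (St.mk (I.pos (nat_lit 109117440) (nat_lit 169443328)) (I.mix (nat_lit 63160320) (nat_lit 2834432)) (I.mix (nat_lit 61177856) (nat_lit 3129344)) (I.pos (nat_lit 80265216) (nat_lit 143228928)) (I.mix (nat_lit 82821120) (nat_lit 58654720)) (I.mix (nat_lit 64897024) (nat_lit 87818240)) (I.mix (nat_lit 55590912) (nat_lit 92028928)))
  false (nat_lit 0)
def b1_2 : Bx := Bx.mk (St.mk (I.mix (nat_lit 25886720) (nat_lit 136003584)) (I.mix (nat_lit 7946240) (nat_lit 31047680)) (I.mix (nat_lit 10174464) (nat_lit 25772032)) (I.pos (nat_lit 11763712) (nat_lit 100859904)) (I.mix (nat_lit 36683776) (nat_lit 38125568)) (I.mix (nat_lit 45940736) (nat_lit 31539200)) (I.mix (nat_lit 37863424) (nat_lit 24625152)))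
  false (nat_lit 0)
def b1_3 : Bx := Bx.mk (St.mk (I.mix (nat_lit 21905408) (nat_lit 105807872)) (I.mix (nat_lit 30720000) (nat_lit 6438912)) (I.mix (nat_lit 20054016) (nat_lit 4816896)) (I.pos (nat_lit 13631488) (nat_lit 75251712)) (I.mix (nat_lit 28721152) (nat_lit 28999680)) (I.mix (nat_lit 23822336) (nat_lit 35160064)) (I.mix (nat_lit 14925824) (nat_lit 22806528)))
  false (nat_lit 0)
def b1_4 : Bx := Bx.mk (St.mk (I.pos (nat_lit 165609472) (nat_lit 215711744)) (I.mix (nat_lit 20676608) (nat_lit 61407232)) (I.mix (nat_lit 4505600) (nat_lit 100614144)) (I.pos (nat_lit 126730240) (nat_lit 215334912)) (I.mix (nat_lit 136282112) (nat_lit 34373632)) (I.mix (nat_lit 152748032) (nat_lit 72843264)) (I.mix (nat_lit 183107584) (nat_lit 80429056)))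
  false (nat_lit 0)
def b1_5 : Bx := Bx.mk (St.mk (I.pos (nat_lit 107839488) (nat_lit 156368896)) (I.mix (nat_lit 58163200) (nat_lit 11534336)) (I.mix (nat_lit 57344000) (nat_lit 7503872)) (I.pos (nat_lit 63717376) (nat_lit 128319488)) (I.mix (nat_lit 85540864) (nat_lit 33685504)) (I.mix (nat_lit 43515904) (nat_lit 89735168)) (I.mix (nat_lit 36339712) (nat_lit 76808192)))
  false (nat_lit 0)
def b1_6 : Bx := Bx.mk (St.mk (I.mix (nat_lit 25427968) (nat_lit 128761856)) (I.mix (nat_lit 15810560) (nat_lit 38273024)) (I.mix (nat_lit 10141696) (nat_lit 30097408)) (I.pos (nat_lit 13631488) (nat_lit 94978048)) (I.mix (nat_lit 49725440) (nat_lit 26296320)) (I.mix (nat_lit 58359808) (nat_lit 30900224)) (I.mix (nat_lit 38240256) (nat_lit 20791296)))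
  false (nat_lit 0)
def b1_7 : Bx := Bx.mk (St.mk (I.mix (nat_lit 23805952) (nat_lit 95666176)) (I.mix (nat_lit 28065792) (nat_lit 4702208)) (I.mix (nat_lit 17514496) (nat_lit 2539520)) (I.pos (nat_lit 15122432) (nat_lit 69468160)) (I.mix (nat_lit 33161216) (nat_lit 15826944)) (I.mix (nat_lit 19382272) (nat_lit 37011456)) (I.mix (nat_lit 10862592) (nat_lit 19103744)))
  false (nat_lit 0)
def b1_8 : Bx := Bx.mk (St.mk (I.pos (nat_lit 190382080) (nat_lit 250052608)) (I.mix (nat_lit 19152896) (nat_lit 59064320)) (I.mix (nat_lit 41205760) (nat_lit 104398848)) (I.pos (nat_lit 186138624) (nat_lit 273711104)) (I.mix (nat_lit 98648064) (nat_lit 81149952)) (I.mix (nat_lit 112967680) (nat_lit 95076352)) (I.mix (nat_lit 179027968) (nat_lit 134627328)))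
  false (nat_lit 0)
def b1_9 : Bx := Bx.mk (St.mk (I.pos (nat_lit 158810112) (nat_lit 203620352)) (I.mix (nat_lit 47874048) (nat_lit 33882112)) (I.mix (nat_lit 46301184) (nat_lit 61636608)) (I.pos (nat_lit 121323520) (nat_lit 193036288)) (I.mix (nat_lit 120160256) (nat_lit 58212352)) (I.mix (nat_lit 154550272) (nat_lit 77922304)) (I.mix (nat_lit 184057856) (nat_lit 85622784)))
  false (nat_lit 0)
def b1_10 : Bx := Bx.mk (St.mk (I.pos (nat_lit 137461760) (nat_lit 174620672)) (I.mix (nat_lit 39092224) (nat_lit 4636672)) (I.mix (nat_lit 34930688) (nat_lit 10305536)) (I.pos (nat_lit 99844096) (nat_lit 152813568)) (I.mix (nat_lit 57360384) (nat_lit 24494080)) (I.mix (nat_lit 32030720) (nat_lit 47185920)) (I.mix (nat_lit 37830656) (nat_lit 50675712)))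
  false (nat_lit 0)
def b1_11 : Bx := Bx.mk (St.mk (I.mix (nat_lit 31735808) (nat_lit 109330432)) (I.mix (nat_lit 16171008) (nat_lit 8568832)) (I.mix (nat_lit 10092544) (nat_lit 7077888)) (I.pos (nat_lit 14434304) (nat_lit 77398016)) (I.mix (nat_lit 25001984) (nat_lit 11321344)) (I.mix (nat_lit 16465920) (nat_lit 18317312)) (I.mix (nat_lit 10551296) (nat_lit 11681792)))
  false (nat_lit 0)
def b1_12 : Bx := Bx.mk (St.mk (I.mix (nat_lit 26312704) (nat_lit 30195712)) (I.mix (nat_lit 2457600) (nat_lit 5029888)) (I.mix (nat_lit 2555904) (nat_lit 802816)) (I.pos (nat_lit 16711680) (nat_lit 41893888)) (I.mix (nat_lit 8454144) (nat_lit 3440640)) (I.mix (nat_lit 3932160) (nat_lit 4390912)) (I.mix (nat_lit 1228800) (nat_lit 1212416)))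
  false (nat_lit 0)
def b1_13 : Bx := Bx.mk (St.mk (I.pos (nat_lit 215416832) (nat_lit 260554752)) (I.mix (nat_lit 19431424) (nat_lit 18595840)) (I.mix (nat_lit 45252608) (nat_lit 28966912)) (I.pos (nat_lit 221315072) (nat_lit 303546368)) (I.mix (nat_lit 85557248) (nat_lit 17104896)) (I.mix (nat_lit 53886976) (nat_lit 54050816)) (I.mix (nat_lit 95748096) (nat_lit 99418112)))
  false (nat_lit 0)
def b1_14 : Bx := Bx.mk (St.mk (I.pos (nat_lit 153501696) (nat_lit 184647680)) (I.neg (nat_lit 4358144) (nat_lit 39632896)) (I.mix (nat_lit 37519360) (nat_lit 2277376)) (I.pos (nat_lit 114737152) (nat_lit 168853504)) (I.mix (nat_lit 40386560) (nat_lit 32194560)) (I.mix (nat_lit 39272448) (nat_lit 33226752)) (I.mix (nat_lit 45449216) (nat_lit 36061184)))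
  false (nat_lit 0)
def b1_15 : Bx := Bx.mk (St.mk (I.pos (nat_lit 101892096) (nat_lit 125730816)) (I.mix (nat_lit 10649600) (nat_lit 9011200)) (I.mix (nat_lit 12566528) (nat_lit 6160384)) (I.pos (nat_lit 60686336) (nat_lit 97124352)) (I.mix (nat_lit 28000256) (nat_lit 14745600)) (I.mix (nat_lit 20611072) (nat_lit 21037056)) (I.mix (nat_lit 17383424) (nat_lit 18382848)))
  false (nat_lit 0)
def t1 : BTr := (BTr.n (BTr.n (BTr.n (BTr.n (BTr.b b1_0) (BTr.b b1_1)) (BTr.n (BTr.b b1_2) (BTr.b b1_3))) (BTr.n (BTr.n (BTr.b b1_4) (BTr.b b1_5)) (BTr.n (BTr.b b1_6) (BTr.b b1_7)))) (BTr.n (BTr.n (BTr.n (BTr.b b1_8) (BTr.b b1_9)) (BTr.n (BTr.b b1_10) (BTr.b b1_11))) (BTr.n (BTr.n (BTr.b b1_12) (BTr.b b1_13)) (BTr.n (BTr.b b1_14) (BTr.b b1_15)))))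
namespace T1
def l0 : Tr := Tr.L (Pth.l (Pth.l (Pth.l (Pth.l Pth.z))))
def l1 : Tr := Tr.L (Pth.l (Pth.l (Pth.l (Pth.r Pth.z))))
def l2 : Tr := Tr.L (Pth.l (Pth.l (Pth.r (Pth.l Pth.z))))
def l3 : Tr := Tr.L (Pth.l (Pth.l (Pth.r (Pth.r Pth.z))))
def l4 : Tr := Tr.L (Pth.l (Pth.r (Pth.l (Pth.l Pth.z))))
def l5 : Tr := Tr.L (Pth.l (Pth.r (Pth.l (Pth.r Pth.z))))
def l6 : Tr := Tr.L (Pth.l (Pth.r (Pth.r (Pth.l Pth.z))))
def l7 : Tr := Tr.L (Pth.l (Pth.r (Pth.r (Pth.r Pth.z))))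
def l8 : Tr := Tr.L (Pth.r (Pth.l (Pth.l (Pth.l Pth.z))))
def l9 : Tr := Tr.L (Pth.r (Pth.l (Pth.l (Pth.r Pth.z))))
def l10 : Tr := Tr.L (Pth.r (Pth.l (Pth.r (Pth.l Pth.z))))
def l11 : Tr := Tr.L (Pth.r (Pth.l (Pth.r (Pth.r Pth.z))))
def l12 : Tr := Tr.L (Pth.r (Pth.r (Pth.l (Pth.l Pth.z))))
def l13 : Tr := Tr.L (Pth.r (Pth.r (Pth.l (Pth.r Pth.z))))
def l14 : Tr := Tr.L (Pth.r (Pth.r (Pth.r (Pth.l Pth.z))))
def l15 : Tr := Tr.L (Pth.r (Pth.r (Pth.r (Pth.r Pth.z))))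
end T1
def b2_0 : Bx := Bx.mk (St.mk (I.pos (nat_lit 125370368) (nat_lit 220364800)) (I.mix (nat_lit 5472256) (nat_lit 91930624)) (I.mix (nat_lit 9404416) (nat_lit 161628160)) (I.pos (nat_lit 348045312) (nat_lit 454524928)) (I.mix (nat_lit 146915328) (nat_lit 76595200)) (I.mix (nat_lit 114130944) (nat_lit 89374720)) (I.mix (nat_lit 129581056) (nat_lit 115900416)))
  false (nat_lit 75301368)
def b2_1 : Bx := Bx.mk (St.mk (I.pos (nat_lit 40763392) (nat_lit 118456320)) (I.mix (nat_lit 104398848) (nat_lit 1884160)) (I.mix (nat_lit 38649856) (nat_lit 60342272)) (I.pos (nat_lit 272629760) (nat_lit 325320704)) (I.mix (nat_lit 93814784) (nat_lit 88997888)) (I.mix (nat_lit 97910784) (nat_lit 87408640)) (I.mix (nat_lit 78757888) (nat_lit 76447744)))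
  false (nat_lit 34235619)
def b2_2 : Bx := Bx.mk (St.mk (I.pos (nat_lit 102465536) (nat_lit 181747712)) (I.mix (nat_lit 51593216) (nat_lit 101040128)) (I.pos (nat_lit 9322496) (nat_lit 164069376)) (I.pos (nat_lit 305479680) (nat_lit 399572992)) (I.mix (nat_lit 188612608) (nat_lit 79396864)) (I.mix (nat_lit 188907520) (nat_lit 130777088)) (I.mix (nat_lit 201080832) (nat_lit 157040640)))
  false (nat_lit 103455463)
def b2_3 : Bx := Bx.mk (St.mk (I.neg (nat_lit 40747008) (nat_lit 118358016)) (I.mix (nat_lit 1802240) (nat_lit 104382464)) (I.mix (nat_lit 38649856) (nat_lit 60325888)) (I.pos (nat_lit 272629760) (nat_lit 325238784)) (I.mix (nat_lit 88997888) (nat_lit 93814784)) (I.mix (nat_lit 87408640) (nat_lit 97927168)) (I.mix (nat_lit 78757888) (nat_lit 76447744)))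
  true (nat_lit 0)
def b2_4 : Bx := Bx.mk (St.mk (I.pos (nat_lit 88866816) (nat_lit 116441088)) (I.mix (nat_lit 43008000) (nat_lit 1802240)) (I.pos (nat_lit 15482880) (nat_lit 60096512)) (I.pos (nat_lit 296009728) (nat_lit 324714496)) (I.mix (nat_lit 62652416) (nat_lit 54149120)) (I.mix (nat_lit 53510144) (nat_lit 62242816)) (I.mix (nat_lit 51773440) (nat_lit 52969472)))
  false (nat_lit 0)
def b2_5 : Bx := Bx.mk (St.mk (I.mix (nat_lit 72859648) (nat_lit 14483456)) (I.mix (nat_lit 18644992) (nat_lit 98287616)) (I.mix (nat_lit 20971520) (nat_lit 1507328)) (I.pos (nat_lit 267223040) (nat_lit 296386560)) (I.mix (nat_lit 59031552) (nat_lit 81592320)) (I.mix (nat_lit 98254848) (nat_lit 79642624)) (I.mix (nat_lit 31195136) (nat_lit 25051136)))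
  true (nat_lit 0)
def b2_6 : Bx := Bx.mk (St.mk (I.pos (nat_lit 31211520) (nat_lit 70270976)) (I.neg (nat_lit 32063488) (nat_lit 95420416)) (I.neg (nat_lit 688128) (nat_lit 20840448)) (I.pos (nat_lit 273678336) (nat_lit 296026112)) (I.mix (nat_lit 77496320) (nat_lit 59326464)) (I.mix (nat_lit 79642624) (nat_lit 80478208)) (I.mix (nat_lit 31195136) (nat_lit 25051136)))
  false (nat_lit 0)
def b2_7 : Bx := Bx.mk (St.mk (I.pos (nat_lit 177782784) (nat_lit 287621120)) (I.mix (nat_lit 31916032) (nat_lit 66650112)) (I.mix (nat_lit 74366976) (nat_lit 116424704)) (I.pos (nat_lit 400048128) (nat_lit 577650688)) (I.mix (nat_lit 100696064) (nat_lit 65470464)) (I.mix (nat_lit 86343680) (nat_lit 69025792)) (I.mix (nat_lit 139591680) (nat_lit 103677952)))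
  false (nat_lit 70052184)
def b2_8 : Bx := Bx.mk (St.mk (I.mix (nat_lit 13303808) (nat_lit 51707904)) (I.mix (nat_lit 52543488) (nat_lit 16056320)) (I.mix (nat_lit 12271616) (nat_lit 1048576)) (I.pos (nat_lit 267976704) (nat_lit 282820608)) (I.mix (nat_lit 39616512) (nat_lit 50020352)) (I.mix (nat_lit 48070656) (nat_lit 45662208)) (I.mix (nat_lit 10321920) (nat_lit 11255808)))
  false (nat_lit 0)
def b2_9 : Bx := Bx.mk (St.mk (I.pos (nat_lit 145768448) (nat_lit 208502784)) (I.pos (nat_lit 17793024) (nat_lit 90062848)) (I.pos (nat_lit 45891584) (nat_lit 153141248)) (I.pos (nat_lit 368574464) (nat_lit 425000960)) (I.mix (nat_lit 122437632) (nat_lit 92602368)) (I.mix (nat_lit 137363456) (nat_lit 83591168)) (I.mix (nat_lit 188268544) (nat_lit 93257728)))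
  false (nat_lit 37246084)
def b2_10 : Bx := Bx.mk (St.mk (I.pos (nat_lit 33800192) (nat_lit 59260928)) (I.neg (nat_lit 23003136) (nat_lit 83050496)) (I.neg (nat_lit 81920) (nat_lit 20004864)) (I.pos (nat_lit 273842176) (nat_lit 289325056)) (I.mix (nat_lit 81592320) (nat_lit 58048512)) (I.mix (nat_lit 51347456) (nat_lit 98320384)) (I.mix (nat_lit 21528576) (nat_lit 23707648)))
  false (nat_lit 0)
def t2 : BTr := (BTr.n (BTr.n (BTr.n (BTr.b b2_0) (BTr.b b2_1)) (BTr.n (BTr.b b2_2) (BTr.n (BTr.b b2_3) (BTr.b b2_4)))) (BTr.n (BTr.n (BTr.b b2_5) (BTr.n (BTr.b b2_6) (BTr.b b2_7))) (BTr.n (BTr.b b2_8) (BTr.n (BTr.b b2_9) (BTr.b b2_10)))))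
namespace T2
def l0 : Tr := Tr.L (Pth.l (Pth.l (Pth.l Pth.z)))
def l1 : Tr := Tr.L (Pth.l (Pth.l (Pth.r Pth.z)))
def l2 : Tr := Tr.L (Pth.l (Pth.r (Pth.l Pth.z)))
def l3 : Tr := Tr.L (Pth.l (Pth.r (Pth.r (Pth.l Pth.z))))
def l4 : Tr := Tr.L (Pth.l (Pth.r (Pth.r (Pth.r Pth.z))))
def l5 : Tr := Tr.L (Pth.r (Pth.l (Pth.l Pth.z)))
def l6 : Tr := Tr.L (Pth.r (Pth.l (Pth.r (Pth.l Pth.z))))
def l7 : Tr := Tr.L (Pth.r (Pth.l (Pth.r (Pth.r Pth.z))))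
def l8 : Tr := Tr.L (Pth.r (Pth.r (Pth.l Pth.z)))
def l9 : Tr := Tr.L (Pth.r (Pth.r (Pth.r (Pth.l Pth.z))))
def l10 : Tr := Tr.L (Pth.r (Pth.r (Pth.r (Pth.r Pth.z))))
end T2
theorem bx0_0 : BoxOK sI cl4 cl4 cl9 t0 t2 b0_0 :=
  box_mk (TrL.c (I.pos (nat_lit 0) (nat_lit 0)) (xb T0.l0 (xa T0.l0 T0.l0))
  (TrL.c (I.pos (nat_lit 0) (nat_lit 0)) T2.l1
  (TrL.c (I.pos (nat_lit 0) (nat_lit 0)) T0.l1
  (TrL.c (I.pos (nat_lit 0) (nat_lit 0)) T2.l2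
  (TrL.c (I.pos (nat_lit 0) (nat_lit 0)) T0.l2
  (TrL.c (I.pos (nat_lit 0) (nat_lit 0)) T2.l3
  TrL.n)))))) (by decide +kernel)
theorem bx0_1 : BoxOK sI cl4 cl4 cl9 t0 t2 b0_1 :=
  box_mk (TrL.c (I.pos (nat_lit 0) (nat_lit 0)) T2.l1
  (TrL.c (I.pos (nat_lit 0) (nat_lit 0)) T0.l1
  TrL.n)) (by decide +kernel)
theorem bx0_2 : BoxOK sI cl4 cl4 cl9 t0 t2 b0_2 :=
  box_mk (TrL.c (I.pos (nat_lit 0) (nat_lit 0)) T0.l9
  (TrL.c (I.pos (nat_lit 0) (nat_lit 0)) T2.l1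
  (TrL.c (I.pos (nat_lit 0) (nat_lit 0)) T0.l1
  (TrL.c (I.pos (nat_lit 0) (nat_lit 0)) T2.l2
  (TrL.c (I.pos (nat_lit 0) (nat_lit 0)) T0.l10
  (TrL.c (I.pos (nat_lit 0) (nat_lit 0)) T2.l3
  TrL.n)))))) (by decide +kernel)
theorem bx0_3 : BoxOK sI cl4 cl4 cl9 t0 t2 b0_3 :=
  box_mk (TrL.c (I.pos (nat_lit 0) (nat_lit 0)) T2.l4
  (TrL.c (I.pos (nat_lit 0) (nat_lit 0)) T0.l3
  TrL.n)) (by decide +kernel)
theorem bx0_4 : BoxOK sI cl4 cl4 cl9 t0 t2 b0_4 :=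
  box_mk (TrL.c (I.pos (nat_lit 0) (nat_lit 0)) T0.l0
  (TrL.c (I.pos (nat_lit 0) (nat_lit 0)) T2.l1
  (TrL.c (I.pos (nat_lit 0) (nat_lit 0)) T0.l1
  (TrL.c (I.pos (nat_lit 0) (nat_lit 0)) T2.l2
  (TrL.c (I.pos (nat_lit 0) (nat_lit 0)) T0.l2
  (TrL.c (I.pos (nat_lit 0) (nat_lit 0)) T2.l3
  TrL.n)))))) (by decide +kernel)
theorem bx0_5 : BoxOK sI cl4 cl4 cl9 t0 t2 b0_5 :=
  box_mk (TrL.c (I.pos (nat_lit 0) (nat_lit 0)) T0.l4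
  (TrL.c (I.pos (nat_lit 0) (nat_lit 0)) T2.l1
  (TrL.c (I.pos (nat_lit 0) (nat_lit 0)) T0.l1
  (TrL.c (I.pos (nat_lit 0) (nat_lit 0)) T2.l2
  (TrL.c (I.pos (nat_lit 0) (nat_lit 0)) T0.l5
  (TrL.c (I.pos (nat_lit 0) (nat_lit 0)) T2.l3
  TrL.n)))))) (by decide +kernel)
theorem bx0_6 : BoxOK sI cl4 cl4 cl9 t0 t2 b0_6 :=
  box_mk (TrL.c (I.pos (nat_lit 0) (nat_lit 0)) (xa (xb (xa (xs T0.l9 T0.l9) T0.l9) (xa T0.l9 T0.l9)) (xb T0.l9 T0.l9))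
  (TrL.c (I.pos (nat_lit 0) (nat_lit 0)) T2.l1
  (TrL.c (I.pos (nat_lit 0) (nat_lit 0)) T0.l1
  (TrL.c (I.pos (nat_lit 0) (nat_lit 0)) (xa T2.l2 T2.l2)
  (TrL.c (I.pos (nat_lit 0) (nat_lit 0)) T0.l10
  (TrL.c (I.pos (nat_lit 0) (nat_lit 0)) T2.l3
  TrL.n)))))) (by decide +kernel)
theorem bx0_7 : BoxOK sI cl4 cl4 cl9 t0 t2 b0_7 :=
  box_mk (TrL.c (I.pos (nat_lit 0) (nat_lit 0)) (xa (xb (xa (xb T0.l9 T0.l9) T0.l9) (xb (xa T0.l9 T0.l9) (xa T0.l9 T0.l9))) (xb (xa T0.l9 T0.l9) (xa T0.l9 T0.l9)))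
  (TrL.c (I.pos (nat_lit 0) (nat_lit 0)) (xb T2.l1 T2.l1)
  (TrL.c (I.pos (nat_lit 0) (nat_lit 0)) T0.l1
  (TrL.c (I.pos (nat_lit 0) (nat_lit 0)) (xb (xa T2.l2 T2.l2) T2.l2)
  (TrL.c (I.pos (nat_lit 0) (nat_lit 0)) T0.l10
  (TrL.c (I.pos (nat_lit 0) (nat_lit 0)) (xb T2.l3 T2.l3)
  TrL.n)))))) (by decide +kernel)
theorem bx0_8 : BoxOK sI cl4 cl4 cl9 t0 t2 b0_8 :=
  box_mk (TrL.c (I.pos (nat_lit 0) (nat_lit 0)) T2.l1
  (TrL.c (I.pos (nat_lit 0) (nat_lit 0)) T0.l1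
  TrL.n)) (by decide +kernel)
theorem bx0_9 : BoxOK sI cl4 cl4 cl9 t0 t2 b0_9 :=
  box_mk (TrL.c (I.pos (nat_lit 0) (nat_lit 0)) (xb (xa (xb T0.l0 T0.l0) T0.l0) (xa (xb T0.l0 T0.l0) (xb T0.l0 T0.l0)))
  (TrL.c (I.pos (nat_lit 0) (nat_lit 0)) T2.l1
  (TrL.c (I.pos (nat_lit 0) (nat_lit 0)) T0.l1
  (TrL.c (I.pos (nat_lit 0) (nat_lit 0)) (xb (xa T2.l2 (xs T2.l2 (xb T2.l2 T2.l2))) (xa T2.l2 (xs T2.l2 (xb T2.l2 T2.l2))))
  (TrL.c (I.pos (nat_lit 0) (nat_lit 0)) T0.l2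
  (TrL.c (I.pos (nat_lit 0) (nat_lit 0)) T2.l3
  TrL.n)))))) (by decide +kernel)
theorem bx0_10 : BoxOK sI cl4 cl4 cl9 t0 t2 b0_10 :=
  box_mk (TrL.c (I.pos (nat_lit 0) (nat_lit 0)) (xb (xa (xs (xb T0.l4 T0.l4) T0.l9) T0.l4) (xb (xa T0.l4 T0.l4) (xa (xs T0.l4 T0.l4) T0.l9)))
  (TrL.c (I.pos (nat_lit 0) (nat_lit 0)) T2.l1
  (TrL.c (I.pos (nat_lit 0) (nat_lit 0)) T0.l1
  (TrL.c (I.pos (nat_lit 0) (nat_lit 0)) T2.l2
  (TrL.c (I.pos (nat_lit 0) (nat_lit 0)) T0.l5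
  (TrL.c (I.pos (nat_lit 0) (nat_lit 0)) T2.l3
  TrL.n)))))) (by decide +kernel)
theorem sv0 : StarV sI cl4 cl4 cl9 t0 t2 t0 :=
  (bt_n (bt_n (bt_n (bt_b bx0_0) (bt_b bx0_1)) (bt_n (bt_b bx0_2) (bt_n (bt_b bx0_3) (bt_b bx0_4)))) (bt_n (bt_n (bt_b bx0_5) (bt_n (bt_b bx0_6) (bt_b bx0_7))) (bt_n (bt_b bx0_8) (bt_n (bt_b bx0_9) (bt_b bx0_10)))))
def S0 : StarD := StarD.mk cl4 cl4 cl9 0 2 t0
theorem bx1_0 : BoxOK sI cl4 cl9 cl4 t2 t0 b1_0 :=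
  box_mk (TrL.c (I.pos (nat_lit 0) (nat_lit 0)) (xa (xa (xb T2.l0 T2.l0) T2.l0) (xa T2.l0 T2.l0))
  (TrL.c (I.pos (nat_lit 0) (nat_lit 0)) (xa T0.l6 T0.l6)
  (TrL.c (I.pos (nat_lit 0) (nat_lit 0)) T2.l5
  (TrL.c (I.pos (nat_lit 0) (nat_lit 0)) T0.l7
  (TrL.c (I.pos (nat_lit 0) (nat_lit 0)) T2.l6
  (TrL.c (I.pos (nat_lit 0) (nat_lit 0)) (xa T0.l8 T0.l8)
  TrL.n)))))) (by decide +kernel)
theorem bx1_1 : BoxOK sI cl4 cl9 cl4 t2 t0 b1_1 :=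
  box_mk (TrL.c (I.pos (nat_lit 0) (nat_lit 0)) (xa (xb T2.l7 (xa T2.l7 T2.l7)) T2.l0)
  (TrL.c (I.pos (nat_lit 0) (nat_lit 0)) T0.l6
  (TrL.c (I.pos (nat_lit 0) (nat_lit 0)) T2.l5
  (TrL.c (I.pos (nat_lit 0) (nat_lit 0)) T0.l7
  (TrL.c (I.pos (nat_lit 0) (nat_lit 0)) T2.l8
  (TrL.c (I.pos (nat_lit 0) (nat_lit 0)) T0.l8
  TrL.n)))))) (by decide +kernel)
theorem bx1_2 : BoxOK sI cl4 cl9 cl4 t2 t0 b1_2 :=
  box_mk (TrL.c (I.pos (nat_lit 0) (nat_lit 0)) (xa (xa T2.l7 T2.l7) (xa T2.l7 (xa T2.l7 T2.l7)))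
  (TrL.c (I.pos (nat_lit 0) (nat_lit 0)) (xa T0.l6 T0.l6)
  (TrL.c (I.pos (nat_lit 0) (nat_lit 0)) T2.l5
  (TrL.c (I.pos (nat_lit 0) (nat_lit 0)) T0.l7
  (TrL.c (I.pos (nat_lit 0) (nat_lit 0)) T2.l8
  (TrL.c (I.pos (nat_lit 0) (nat_lit 0)) (xa T0.l8 T0.l8)
  TrL.n)))))) (by decide +kernel)
theorem bx1_3 : BoxOK sI cl4 cl9 cl4 t2 t0 b1_3 :=
  box_mk (TrL.c (I.pos (nat_lit 0) (nat_lit 0)) (xa (xa (xb (xa T2.l7 T2.l7) T2.l7) T2.l7) T2.l7)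
  (TrL.c (I.pos (nat_lit 0) (nat_lit 0)) T0.l6
  (TrL.c (I.pos (nat_lit 0) (nat_lit 0)) T2.l5
  (TrL.c (I.pos (nat_lit 0) (nat_lit 0)) (xa T0.l7 T0.l7)
  (TrL.c (I.pos (nat_lit 0) (nat_lit 0)) T2.l8
  (TrL.c (I.pos (nat_lit 0) (nat_lit 0)) T0.l8
  TrL.n)))))) (by decide +kernel)
theorem bx1_4 : BoxOK sI cl4 cl9 cl4 t2 t0 b1_4 :=
  box_mk (TrL.c (I.pos (nat_lit 0) (nat_lit 0)) (xb (xa T2.l9 T2.l9) (xa (xs T2.l9 (xb T2.l9 T2.l9)) (xs T2.l9 (xb T2.l9 T2.l9))))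
  (TrL.c (I.pos (nat_lit 0) (nat_lit 0)) (xb T0.l6 T0.l6)
  (TrL.c (I.pos (nat_lit 0) (nat_lit 0)) T2.l5
  (TrL.c (I.pos (nat_lit 0) (nat_lit 0)) (xb (xa T0.l7 T0.l7) (xa T0.l7 T0.l7))
  (TrL.c (I.pos (nat_lit 0) (nat_lit 0)) T2.l10
  (TrL.c (I.pos (nat_lit 0) (nat_lit 0)) (xb T0.l8 T0.l8)
  TrL.n)))))) (by decide +kernel)
theorem bx1_5 : BoxOK sI cl4 cl9 cl4 t2 t0 b1_5 :=
  box_mk (TrL.c (I.pos (nat_lit 0) (nat_lit 0)) (xb (xa T2.l7 T2.l0) (xa T2.l7 T2.l7))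
  (TrL.c (I.pos (nat_lit 0) (nat_lit 0)) T0.l6
  (TrL.c (I.pos (nat_lit 0) (nat_lit 0)) T2.l5
  (TrL.c (I.pos (nat_lit 0) (nat_lit 0)) T0.l7
  (TrL.c (I.pos (nat_lit 0) (nat_lit 0)) T2.l8
  (TrL.c (I.pos (nat_lit 0) (nat_lit 0)) T0.l8
  TrL.n)))))) (by decide +kernel)
theorem bx1_6 : BoxOK sI cl4 cl9 cl4 t2 t0 b1_6 :=
  box_mk (TrL.c (I.pos (nat_lit 0) (nat_lit 0)) (xa (xa (xb T2.l7 (xa T2.l7 T2.l7)) T2.l7) (xa T2.l7 (xb T2.l7 (xa T2.l7 T2.l7))))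
  (TrL.c (I.pos (nat_lit 0) (nat_lit 0)) (xa T0.l6 T0.l6)
  (TrL.c (I.pos (nat_lit 0) (nat_lit 0)) T2.l5
  (TrL.c (I.pos (nat_lit 0) (nat_lit 0)) T0.l7
  (TrL.c (I.pos (nat_lit 0) (nat_lit 0)) T2.l8
  (TrL.c (I.pos (nat_lit 0) (nat_lit 0)) (xa T0.l8 T0.l8)
  TrL.n)))))) (by decide +kernel)
theorem bx1_7 : BoxOK sI cl4 cl9 cl4 t2 t0 b1_7 :=
  box_mk (TrL.c (I.pos (nat_lit 0) (nat_lit 0)) (xa (xa (xb T2.l7 T2.l7) T2.l7) T2.l7)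
  (TrL.c (I.pos (nat_lit 0) (nat_lit 0)) T0.l6
  (TrL.c (I.pos (nat_lit 0) (nat_lit 0)) T2.l5
  (TrL.c (I.pos (nat_lit 0) (nat_lit 0)) T0.l7
  (TrL.c (I.pos (nat_lit 0) (nat_lit 0)) T2.l8
  (TrL.c (I.pos (nat_lit 0) (nat_lit 0)) T0.l8
  TrL.n)))))) (by decide +kernel)
theorem bx1_8 : BoxOK sI cl4 cl9 cl4 t2 t0 b1_8 :=
  box_mk (TrL.c (I.pos (nat_lit 0) (nat_lit 0)) (xa (xb (xb T2.l0 T2.l0) (xs T2.l0 (xa T2.l0 T2.l0))) (xb (xs T2.l0 T2.l2) (xs T2.l0 (xa T2.l0 T2.l2))))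
  (TrL.c (I.pos (nat_lit 0) (nat_lit 0)) (xa T0.l6 T0.l6)
  (TrL.c (I.pos (nat_lit 0) (nat_lit 0)) T2.l5
  (TrL.c (I.pos (nat_lit 0) (nat_lit 0)) (xa T0.l7 (xb (xa T0.l7 (xb T0.l7 T0.l7)) (xa T0.l7 (xs T0.l7 T0.l7))))
  (TrL.c (I.pos (nat_lit 0) (nat_lit 0)) T2.l6
  (TrL.c (I.pos (nat_lit 0) (nat_lit 0)) (xa T0.l8 T0.l8)
  TrL.n)))))) (by decide +kernel)
theorem bx1_9 : BoxOK sI cl4 cl9 cl4 t2 t0 b1_9 :=
  box_mk (TrL.c (I.pos (nat_lit 0) (nat_lit 0)) (xb (xa T2.l9 T2.l9) (xa (xs T2.l9 (xb T2.l9 T2.l9)) T2.l9))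
  (TrL.c (I.pos (nat_lit 0) (nat_lit 0)) T0.l6
  (TrL.c (I.pos (nat_lit 0) (nat_lit 0)) T2.l5
  (TrL.c (I.pos (nat_lit 0) (nat_lit 0)) (xb (xa T0.l7 T0.l7) T0.l7)
  (TrL.c (I.pos (nat_lit 0) (nat_lit 0)) T2.l10
  (TrL.c (I.pos (nat_lit 0) (nat_lit 0)) T0.l8
  TrL.n)))))) (by decide +kernel)
theorem bx1_10 : BoxOK sI cl4 cl9 cl4 t2 t0 b1_10 :=
  box_mk (TrL.c (I.pos (nat_lit 0) (nat_lit 0)) T2.l0
  (TrL.c (I.pos (nat_lit 0) (nat_lit 0)) T0.l6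
  (TrL.c (I.pos (nat_lit 0) (nat_lit 0)) T2.l5
  (TrL.c (I.pos (nat_lit 0) (nat_lit 0)) T0.l7
  (TrL.c (I.pos (nat_lit 0) (nat_lit 0)) T2.l8
  (TrL.c (I.pos (nat_lit 0) (nat_lit 0)) T0.l8
  TrL.n)))))) (by decide +kernel)
theorem bx1_11 : BoxOK sI cl4 cl9 cl4 t2 t0 b1_11 :=
  box_mk (TrL.c (I.pos (nat_lit 0) (nat_lit 0)) (xa T2.l7 T2.l7)
  (TrL.c (I.pos (nat_lit 0) (nat_lit 0)) T0.l6
  (TrL.c (I.pos (nat_lit 0) (nat_lit 0)) T2.l5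
  (TrL.c (I.pos (nat_lit 0) (nat_lit 0)) T0.l7
  (TrL.c (I.pos (nat_lit 0) (nat_lit 0)) T2.l8
  (TrL.c (I.pos (nat_lit 0) (nat_lit 0)) T0.l8
  TrL.n)))))) (by decide +kernel)
theorem bx1_12 : BoxOK sI cl4 cl9 cl4 t2 t0 b1_12 :=
  box_mk (TrL.c (I.pos (nat_lit 0) (nat_lit 0)) T2.l7
  (TrL.c (I.pos (nat_lit 0) (nat_lit 0)) T0.l6
  (TrL.c (I.pos (nat_lit 0) (nat_lit 0)) T2.l5
  (TrL.c (I.pos (nat_lit 0) (nat_lit 0)) T0.l7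
  (TrL.c (I.pos (nat_lit 0) (nat_lit 0)) T2.l8
  (TrL.c (I.pos (nat_lit 0) (nat_lit 0)) T0.l8
  TrL.n)))))) (by decide +kernel)
theorem bx1_13 : BoxOK sI cl4 cl9 cl4 t2 t0 b1_13 :=
  box_mk (TrL.c (I.pos (nat_lit 0) (nat_lit 0)) (xa T2.l0 T2.l2)
  (TrL.c (I.pos (nat_lit 0) (nat_lit 0)) T0.l6
  (TrL.c (I.pos (nat_lit 0) (nat_lit 0)) T2.l3
  (TrL.c (I.pos (nat_lit 0) (nat_lit 0)) T0.l0
  (TrL.c (I.pos (nat_lit 0) (nat_lit 0)) T2.l1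
  (TrL.c (I.pos (nat_lit 0) (nat_lit 0)) T0.l8
  TrL.n)))))) (by decide +kernel)
theorem bx1_14 : BoxOK sI cl4 cl9 cl4 t2 t0 b1_14 :=
  box_mk (TrL.c (I.pos (nat_lit 0) (nat_lit 0)) T2.l9
  (TrL.c (I.pos (nat_lit 0) (nat_lit 0)) T0.l6
  (TrL.c (I.pos (nat_lit 0) (nat_lit 0)) T2.l5
  (TrL.c (I.pos (nat_lit 0) (nat_lit 0)) T0.l7
  (TrL.c (I.pos (nat_lit 0) (nat_lit 0)) T2.l10
  (TrL.c (I.pos (nat_lit 0) (nat_lit 0)) T0.l8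
  TrL.n)))))) (by decide +kernel)
theorem bx1_15 : BoxOK sI cl4 cl9 cl4 t2 t0 b1_15 :=
  box_mk (TrL.c (I.pos (nat_lit 0) (nat_lit 0)) T2.l7
  (TrL.c (I.pos (nat_lit 0) (nat_lit 0)) T0.l6
  (TrL.c (I.pos (nat_lit 0) (nat_lit 0)) T2.l5
  (TrL.c (I.pos (nat_lit 0) (nat_lit 0)) T0.l7
  (TrL.c (I.pos (nat_lit 0) (nat_lit 0)) T2.l8
  (TrL.c (I.pos (nat_lit 0) (nat_lit 0)) T0.l8
  TrL.n)))))) (by decide +kernel)
theorem sv1 : StarV sI cl4 cl9 cl4 t2 t0 t1 :=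
  (bt_n (bt_n (bt_n (bt_n (bt_b bx1_0) (bt_b bx1_1)) (bt_n (bt_b bx1_2) (bt_b bx1_3))) (bt_n (bt_n (bt_b bx1_4) (bt_b bx1_5)) (bt_n (bt_b bx1_6) (bt_b bx1_7)))) (bt_n (bt_n (bt_n (bt_b bx1_8) (bt_b bx1_9)) (bt_n (bt_b bx1_10) (bt_b bx1_11))) (bt_n (bt_n (bt_b bx1_12) (bt_b bx1_13)) (bt_n (bt_b bx1_14) (bt_b bx1_15)))))
def S1 : StarD := StarD.mk cl4 cl9 cl4 2 0 t1
theorem bx2_0 : BoxOK sI cl9 cl4 cl4 t1 t1 b2_0 :=
  box_mk (TrL.c (I.pos (nat_lit 0) (nat_lit 0)) (xa (xb T1.l8 (xs T1.l8 T1.l8)) (xb T1.l0 (xs T1.l0 (xa T1.l0 T1.l0))))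
  (TrL.c (I.pos (nat_lit 0) (nat_lit 0)) T1.l1
  (TrL.c (I.pos (nat_lit 0) (nat_lit 124588530)) (xR T1.l2 T1.l2)
  (TrL.c (I.pos (nat_lit 0) (nat_lit 96881482)) T1.l3
  (TrL.c (I.pos (nat_lit 0) (nat_lit 0)) (xa T1.l9 (xk T1.l4 T1.l4))
  (TrL.c (I.pos (nat_lit 0) (nat_lit 0)) T1.l5
  (TrL.c (I.mix (nat_lit 17240550) (nat_lit 96881482)) (xR T1.l6 T1.l6)
  (TrL.c (I.mix (nat_lit 17240550) (nat_lit 71940500)) T1.l7
  TrL.n)))))))) (by decide +kernel)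
theorem bx2_1 : BoxOK sI cl9 cl4 cl4 t1 t1 b2_1 :=
  box_mk (TrL.c (I.pos (nat_lit 0) (nat_lit 0)) (xa (xb T1.l8 T1.l8) T1.l8)
  (TrL.c (I.pos (nat_lit 0) (nat_lit 0)) T1.l1
  (TrL.c (I.pos (nat_lit 0) (nat_lit 124588530)) T1.l2
  (TrL.c (I.pos (nat_lit 0) (nat_lit 96881482)) T1.l3
  (TrL.c (I.pos (nat_lit 0) (nat_lit 0)) T1.l9
  (TrL.c (I.pos (nat_lit 0) (nat_lit 0)) T1.l5
  (TrL.c (I.mix (nat_lit 17240550) (nat_lit 96881482)) (xR T1.l6 T1.l6)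
  (TrL.c (I.mix (nat_lit 17240550) (nat_lit 71940500)) T1.l3
  TrL.n)))))))) (by decide +kernel)
theorem bx2_2 : BoxOK sI cl9 cl4 cl4 t1 t1 b2_2 :=
  box_mk (TrL.c (I.pos (nat_lit 0) (nat_lit 0)) (xb (xa (xb T1.l8 T1.l8) T1.l8) (xa (xs T1.l8 (xb T1.l8 T1.l8)) (xs T1.l8 (xb T1.l8 T1.l8))))
  (TrL.c (I.pos (nat_lit 0) (nat_lit 0)) T1.l1
  (TrL.c (I.pos (nat_lit 0) (nat_lit 124588530)) (xR T1.l2 T1.l2)
  (TrL.c (I.pos (nat_lit 0) (nat_lit 96881482)) (xR T1.l3 T1.l3)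
  (TrL.c (I.pos (nat_lit 0) (nat_lit 0)) (xb (xa T1.l9 T1.l9) (xa T1.l9 T1.l9))
  (TrL.c (I.pos (nat_lit 0) (nat_lit 0)) T1.l5
  (TrL.c (I.mix (nat_lit 17240550) (nat_lit 96881482)) (xR T1.l6 T1.l6)
  (TrL.c (I.mix (nat_lit 17240550) (nat_lit 71940500)) (xR T1.l7 T1.l7)
  TrL.n)))))))) (by decide +kernel)
theorem bx2_3 : BoxOK sI cl9 cl4 cl4 t1 t1 b2_3 :=
  box_mk (TrL.c (I.pos (nat_lit 0) (nat_lit 0)) T1.l1
  (TrL.c (I.pos (nat_lit 0) (nat_lit 0)) T1.l2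
  (TrL.c (I.mix (nat_lit 17240550) (nat_lit 96881482)) (xR T1.l11 T1.l3)
  (TrL.c (I.mix (nat_lit 17240550) (nat_lit 71940500)) T1.l11
  TrL.n)))) (by decide +kernel)
theorem bx2_4 : BoxOK sI cl9 cl4 cl4 t1 t1 b2_4 :=
  box_mk (TrL.c (I.pos (nat_lit 0) (nat_lit 0)) T1.l8
  (TrL.c (I.pos (nat_lit 0) (nat_lit 0)) T1.l1
  (TrL.c (I.pos (nat_lit 0) (nat_lit 124588530)) T1.l2
  (TrL.c (I.pos (nat_lit 0) (nat_lit 96881482)) T1.l3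
  (TrL.c (I.pos (nat_lit 0) (nat_lit 0)) T1.l9
  (TrL.c (I.pos (nat_lit 0) (nat_lit 0)) T1.l5
  (TrL.c (I.mix (nat_lit 17240550) (nat_lit 96881482)) T1.l6
  (TrL.c (I.mix (nat_lit 17240550) (nat_lit 71940500)) T1.l7
  TrL.n)))))))) (by decide +kernel)
theorem bx2_5 : BoxOK sI cl9 cl4 cl4 t1 t1 b2_5 :=
  box_mk (TrL.c (I.pos (nat_lit 0) (nat_lit 0)) T1.l10
  (TrL.c (I.pos (nat_lit 0) (nat_lit 0)) T1.l15
  (TrL.c (I.mix (nat_lit 17240550) (nat_lit 96881482)) (xR T1.l11 T1.l6)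
  (TrL.c (I.mix (nat_lit 17240550) (nat_lit 71940500)) T1.l2
  TrL.n)))) (by decide +kernel)
theorem bx2_6 : BoxOK sI cl9 cl4 cl4 t1 t1 b2_6 :=
  box_mk (TrL.c (I.pos (nat_lit 0) (nat_lit 0)) T1.l13
  (TrL.c (I.pos (nat_lit 0) (nat_lit 0)) T1.l1
  (TrL.c (I.pos (nat_lit 0) (nat_lit 124588530)) T1.l2
  (TrL.c (I.pos (nat_lit 0) (nat_lit 96881482)) T1.l3
  (TrL.c (I.pos (nat_lit 0) (nat_lit 0)) T1.l9
  (TrL.c (I.pos (nat_lit 0) (nat_lit 0)) T1.l5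
  (TrL.c (I.mix (nat_lit 17240550) (nat_lit 96881482)) T1.l6
  (TrL.c (I.mix (nat_lit 17240550) (nat_lit 71940500)) T1.l7
  TrL.n)))))))) (by decide +kernel)
theorem bx2_7 : BoxOK sI cl9 cl4 cl4 t1 t1 b2_7 :=
  box_mk (TrL.c (I.pos (nat_lit 0) (nat_lit 0)) (xa (xb T1.l0 T1.l0) (xb T1.l0 T1.l0))
  (TrL.c (I.pos (nat_lit 0) (nat_lit 0)) T1.l1
  (TrL.c (I.pos (nat_lit 0) (nat_lit 124588530)) (xR T1.l2 T1.l2)
  (TrL.c (I.pos (nat_lit 0) (nat_lit 96881482)) (xR T1.l3 T1.l3)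
  (TrL.c (I.pos (nat_lit 0) (nat_lit 0)) (xa (xb (xk T1.l4 T1.l4) T1.l4) (xk (xb (xa T1.l4 T1.l4) (xa T1.l4 T1.l4)) (xb (xa T1.l4 T1.l4) (xa T1.l4 T1.l4))))
  (TrL.c (I.pos (nat_lit 0) (nat_lit 0)) T1.l5
  (TrL.c (I.mix (nat_lit 17240550) (nat_lit 96881482)) (xR T1.l6 T1.l6)
  (TrL.c (I.mix (nat_lit 17240550) (nat_lit 71940500)) T1.l7
  TrL.n)))))))) (by decide +kernel)
theorem bx2_8 : BoxOK sI cl9 cl4 cl4 t1 t1 b2_8 :=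
  box_mk (TrL.c (I.pos (nat_lit 0) (nat_lit 0)) (xa (xb T1.l13 T1.l13) T1.l13)
  (TrL.c (I.pos (nat_lit 0) (nat_lit 0)) T1.l10
  (TrL.c (I.pos (nat_lit 0) (nat_lit 124588530)) T1.l2
  (TrL.c (I.pos (nat_lit 0) (nat_lit 96881482)) T1.l3
  (TrL.c (I.pos (nat_lit 0) (nat_lit 0)) T1.l14
  (TrL.c (I.pos (nat_lit 0) (nat_lit 0)) T1.l5
  (TrL.c (I.mix (nat_lit 17240550) (nat_lit 96881482)) T1.l6
  (TrL.c (I.mix (nat_lit 17240550) (nat_lit 71940500)) T1.l7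
  TrL.n)))))))) (by decide +kernel)
theorem bx2_9 : BoxOK sI cl9 cl4 cl4 t1 t1 b2_9 :=
  box_mk (TrL.c (I.pos (nat_lit 0) (nat_lit 0)) (xa (xs T1.l0 T1.l8) (xs T1.l0 (xb T1.l0 T1.l0)))
  (TrL.c (I.pos (nat_lit 0) (nat_lit 0)) T1.l1
  (TrL.c (I.pos (nat_lit 0) (nat_lit 124588530)) (xR T1.l2 T1.l2)
  (TrL.c (I.pos (nat_lit 0) (nat_lit 96881482)) T1.l3
  (TrL.c (I.pos (nat_lit 0) (nat_lit 0)) (xk T1.l4 T1.l4)
  (TrL.c (I.pos (nat_lit 0) (nat_lit 0)) T1.l5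
  (TrL.c (I.mix (nat_lit 17240550) (nat_lit 96881482)) (xR T1.l6 T1.l6)
  (TrL.c (I.mix (nat_lit 17240550) (nat_lit 71940500)) T1.l7
  TrL.n)))))))) (by decide +kernel)
theorem bx2_10 : BoxOK sI cl9 cl4 cl4 t1 t1 b2_10 :=
  box_mk (TrL.c (I.pos (nat_lit 0) (nat_lit 0)) T1.l8
  (TrL.c (I.pos (nat_lit 0) (nat_lit 0)) T1.l1
  (TrL.c (I.pos (nat_lit 0) (nat_lit 124588530)) T1.l2
  (TrL.c (I.pos (nat_lit 0) (nat_lit 96881482)) T1.l3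
  (TrL.c (I.pos (nat_lit 0) (nat_lit 0)) T1.l9
  (TrL.c (I.pos (nat_lit 0) (nat_lit 0)) T1.l5
  (TrL.c (I.mix (nat_lit 17240550) (nat_lit 96881482)) T1.l6
  (TrL.c (I.mix (nat_lit 17240550) (nat_lit 71940500)) T1.l7
  TrL.n)))))))) (by decide +kernel)
theorem sv2 : StarV sI cl9 cl4 cl4 t1 t1 t2 :=
  (bt_n (bt_n (bt_n (bt_b bx2_0) (bt_b bx2_1)) (bt_n (bt_b bx2_2) (bt_n (bt_b bx2_3) (bt_b bx2_4)))) (bt_n (bt_n (bt_b bx2_5) (bt_n (bt_b bx2_6) (bt_b bx2_7))) (bt_n (bt_b bx2_8) (bt_n (bt_b bx2_9) (bt_b bx2_10)))))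
def S2 : StarD := StarD.mk cl9 cl4 cl4 1 1 t2
def G : List StarD := [S0, S1, S2]
theorem so0 : StarOK sI G S0 :=
  star_mk (by decide) (by decide) rfl rfl rfl rfl rfl rfl (rfl : _ = t0) (rfl : _ = t2)
  (st_mk (Pth.l (Pth.l (Pth.l Pth.z))) (nat_lit 380773275) (nat_lit 387706381) (by decide +kernel))
  (st_mk (Pth.l (Pth.l (Pth.l Pth.z))) (nat_lit 418980459) (nat_lit 427484599) (by decide +kernel))
  (st_mk (Pth.l (Pth.l (Pth.l Pth.z))) (nat_lit 463502585) (nat_lit 474073016) (by decide +kernel)) sv0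
theorem so1 : StarOK sI G S1 :=
  star_mk (by decide) (by decide) rfl rfl rfl rfl rfl rfl (rfl : _ = t2) (rfl : _ = t0)
  (st_mk (Pth.l (Pth.l (Pth.l (Pth.l Pth.z)))) (nat_lit 118278160) (nat_lit 138591199) (by decide +kernel))
  (st_mk (Pth.l (Pth.l (Pth.l (Pth.l Pth.z)))) (nat_lit 153598790) (nat_lit 178901464) (by decide +kernel))
  (st_mk (Pth.l (Pth.l (Pth.l (Pth.l Pth.z)))) (nat_lit 197370960) (nat_lit 224480324) (by decide +kernel)) sv1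
theorem so2 : StarOK sI G S2 :=
  star_mk (by decide) (by decide) rfl rfl rfl rfl rfl rfl (rfl : _ = t1) (rfl : _ = t1)
  (st_mk (Pth.l (Pth.l (Pth.l Pth.z))) (nat_lit 366974360) (nat_lit 370671006) (by decide +kernel))
  (st_mk (Pth.l (Pth.l (Pth.l Pth.z))) (nat_lit 401772876) (nat_lit 407189847) (by decide +kernel))
  (st_mk (Pth.l (Pth.l (Pth.l Pth.z))) (nat_lit 442595255) (nat_lit 448836954) (by decide +kernel)) sv2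
theorem ok : GroupOK (nat_lit 0) (nat_lit 91291648) G := grp_mk (allS_c so0 (allS_c so1 (allS_c so2 allS_n)))
theorem cov : GCov G cl4 cl4 cl9 := cov_mk
  ⟨0, by decide, rfl, rfl, rfl⟩ ⟨1, by decide, rfl, rfl, rfl⟩ ⟨0, by decide, rfl, rfl, rfl⟩ ⟨1, by decide, rfl, rfl, rfl⟩ ⟨2, by decide, rfl, rfl, rfl⟩ ⟨2, by decide, rfl, rfl, rfl⟩
end Q115_0


end Pool.Agent.Helper6.MONO
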