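import Pool.Agent.Helper6.MONO.Cert.C06

/-!
Certificate data (generated).
-/

set_option autoImplicit false
set_option linter.all false
noncomputable section
namespace Pool.Agent.Helper6.MONO


namespace Q115_1
def sI : I := I.pos (nat_lit 91226112) (nat_lit 150339584)
def b0_0 : Bx := Bx.mk (St.mk (I.pos (nat_lit 150913024) (nat_lit 218660864)) (I.mix (nat_lit 5816320) (nat_lit 104169472)) (I.mix (nat_lit 51970048) (nat_lit 54018048)) (I.pos (nat_lit 380256256) (nat_lit 487260160)) (I.mix (nat_lit 162103296) (nat_lit 108134400)) (I.mix (nat_lit 120078336) (nat_lit 118489088)) (I.mix (nat_lit 162693120) (nat_lit 169558016)))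
  false (nat_lit 94196623)
def b0_1 : Bx := Bx.mk (St.mk (I.mix (nat_lit 48332800) (nat_lit 5718016)) (I.mix (nat_lit 18694144) (nat_lit 85491712)) (I.neg (nat_lit 75251712) (nat_lit 104448000)) (I.pos (nat_lit 261390336) (nat_lit 290045952)) (I.mix (nat_lit 66125824) (nat_lit 139182080)) (I.mix (nat_lit 116752384) (nat_lit 97714176)) (I.mix (nat_lit 57622528) (nat_lit 56967168)))
  true (nat_lit 0)
def b0_2 : Bx := Bx.mk (St.mk (I.pos (nat_lit 3538944) (nat_lit 47677440)) (I.neg (nat_lit 27820032) (nat_lit 85475328)) (I.neg (nat_lit 75268096) (nat_lit 104513536)) (I.pos (nat_lit 264912896) (nat_lit 289849344)) (I.mix (nat_lit 139182080) (nat_lit 66224128)) (I.mix (nat_lit 97681408) (nat_lit 116736000)) (I.mix (nat_lit 57638912) (nat_lit 56967168)))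
  false (nat_lit 64412491)
def b0_3 : Bx := Bx.mk (St.mk (I.mix (nat_lit 20185088) (nat_lit 5308416)) (I.mix (nat_lit 19185664) (nat_lit 19529728)) (I.neg (nat_lit 77873152) (nat_lit 89800704)) (I.pos (nat_lit 262832128) (nat_lit 275726336)) (I.mix (nat_lit 62914560) (nat_lit 57982976)) (I.mix (nat_lit 60899328) (nat_lit 52363264)) (I.mix (nat_lit 4325376) (nat_lit 20709376)))
  true (nat_lit 0)
def b0_4 : Bx := Bx.mk (St.mk (I.pos (nat_lit 211042304) (nat_lit 255328256)) (I.mix (nat_lit 26165248) (nat_lit 25411584)) (I.neg (nat_lit 106561536) (nat_lit 207536128)) (I.pos (nat_lit 450248704) (nat_lit 534822912)) (I.mix (nat_lit 130973696) (nat_lit 83197952)) (I.mix (nat_lit 111116288) (nat_lit 110247936)) (I.mix (nat_lit 192724992) (nat_lit 240140288)))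
  false (nat_lit 24415056)
def b0_5 : Bx := Bx.mk (St.mk (I.mix (nat_lit 4390912) (nat_lit 19775488)) (I.mix (nat_lit 16121856) (nat_lit 15335424)) (I.neg (nat_lit 77955072) (nat_lit 89784320)) (I.pos (nat_lit 262832128) (nat_lit 275709952)) (I.mix (nat_lit 53641216) (nat_lit 56147968)) (I.mix (nat_lit 49037312) (nat_lit 53329920)) (I.mix (nat_lit 3571712) (nat_lit 19906560)))
  false (nat_lit 0)
def b0_6 : Bx := Bx.mk (St.mk (I.pos (nat_lit 7798784) (nat_lit 122421248)) (I.neg (nat_lit 2916352) (nat_lit 84901888)) (I.neg (nat_lit 37863424) (nat_lit 115195904)) (I.pos (nat_lit 261095424) (nat_lit 335298560)) (I.mix (nat_lit 143572992) (nat_lit 79446016)) (I.mix (nat_lit 89341952) (nat_lit 119259136)) (I.mix (nat_lit 102465536) (nat_lit 101515264)))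
  false (nat_lit 69370096)
def b0_7 : Bx := Bx.mk (St.mk (I.pos (nat_lit 86196224) (nat_lit 203177984)) (I.mix (nat_lit 42958848) (nat_lit 92291072)) (I.mix (nat_lit 82362368) (nat_lit 46350336)) (I.pos (nat_lit 296599552) (nat_lit 456114176)) (I.mix (nat_lit 170950656) (nat_lit 120209408)) (I.mix (nat_lit 177012736) (nat_lit 156368896)) (I.mix (nat_lit 182157312) (nat_lit 169541632)))
  false (nat_lit 85368949)
def b0_8 : Bx := Bx.mk (St.mk (I.neg (nat_lit 7782400) (nat_lit 122421248)) (I.pos (nat_lit 2392064) (nat_lit 84901888)) (I.neg (nat_lit 37568512) (nat_lit 115195904)) (I.pos (nat_lit 261095424) (nat_lit 335298560)) (I.mix (nat_lit 79446016) (nat_lit 143589376)) (I.mix (nat_lit 119275520) (nat_lit 89358336)) (I.mix (nat_lit 102481920) (nat_lit 101531648)))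
  true (nat_lit 0)
def b0_9 : Bx := Bx.mk (St.mk (I.pos (nat_lit 167919616) (nat_lit 250494976)) (I.mix (nat_lit 25952256) (nat_lit 100564992)) (I.mix (nat_lit 203898880) (nat_lit 35782656)) (I.pos (nat_lit 410599424) (nat_lit 519766016)) (I.mix (nat_lit 153665536) (nat_lit 151617536)) (I.mix (nat_lit 154288128) (nat_lit 143753216)) (I.mix (nat_lit 270974976) (nat_lit 255852544)))
  false (nat_lit 94396896)
def b0_10 : Bx := Bx.mk (St.mk (I.mix (nat_lit 2785280) (nat_lit 40124416)) (I.mix (nat_lit 70549504) (nat_lit 16105472)) (I.neg (nat_lit 76709888) (nat_lit 101482496)) (I.pos (nat_lit 261816320) (nat_lit 284377088)) (I.mix (nat_lit 131219456) (nat_lit 64864256)) (I.mix (nat_lit 76316672) (nat_lit 116817920)) (I.mix (nat_lit 38174720) (nat_lit 41811968)))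
  false (nat_lit 32007230)
def t0 : BTr := (BTr.n (BTr.n (BTr.n (BTr.b b0_0) (BTr.b b0_1)) (BTr.n (BTr.b b0_2) (BTr.n (BTr.b b0_3) (BTr.b b0_4)))) (BTr.n (BTr.n (BTr.b b0_5) (BTr.n (BTr.b b0_6) (BTr.b b0_7))) (BTr.n (BTr.b b0_8) (BTr.n (BTr.b b0_9) (BTr.b b0_10)))))
namespace T0
def l0 : Tr := Tr.L (Pth.l (Pth.l (Pth.l Pth.z)))
def l1 : Tr := Tr.L (Pth.l (Pth.l (Pth.r Pth.z)))
def l2 : Tr := Tr.L (Pth.l (Pth.r (Pth.l Pth.z)))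
def l3 : Tr := Tr.L (Pth.l (Pth.r (Pth.r (Pth.l Pth.z))))
def l4 : Tr := Tr.L (Pth.l (Pth.r (Pth.r (Pth.r Pth.z))))
def l5 : Tr := Tr.L (Pth.r (Pth.l (Pth.l Pth.z)))
def l6 : Tr := Tr.L (Pth.r (Pth.l (Pth.r (Pth.l Pth.z))))
def l7 : Tr := Tr.L (Pth.r (Pth.l (Pth.r (Pth.r Pth.z))))
def l8 : Tr := Tr.L (Pth.r (Pth.r (Pth.l Pth.z)))
def l9 : Tr := Tr.L (Pth.r (Pth.r (Pth.r (Pth.l Pth.z))))
def l10 : Tr := Tr.L (Pth.r (Pth.r (Pth.r (Pth.r Pth.z))))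
end T0
def b1_0 : Bx := Bx.mk (St.mk (I.pos (nat_lit 156532736) (nat_lit 232898560)) (I.mix (nat_lit 3063808) (nat_lit 52559872)) (I.mix (nat_lit 5259264) (nat_lit 92323840)) (I.pos (nat_lit 112476160) (nat_lit 243056640)) (I.mix (nat_lit 111476736) (nat_lit 69451776)) (I.mix (nat_lit 90423296) (nat_lit 79855616)) (I.mix (nat_lit 130531328) (nat_lit 103104512)))
  false (nat_lit 9802204)
def b1_1 : Bx := Bx.mk (St.mk (I.pos (nat_lit 111804416) (nat_lit 166674432)) (I.mix (nat_lit 55099392) (nat_lit 1753088)) (I.mix (nat_lit 53264384) (nat_lit 1572864)) (I.pos (nat_lit 81510400) (nat_lit 140132352)) (I.mix (nat_lit 82362368) (nat_lit 66093056)) (I.mix (nat_lit 68206592) (nat_lit 81412096)) (I.mix (nat_lit 63160320) (nat_lit 87031808)))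
  false (nat_lit 46473752)
def b1_2 : Bx := Bx.mk (St.mk (I.mix (nat_lit 16334848) (nat_lit 132202496)) (I.mix (nat_lit 7356416) (nat_lit 26017792)) (I.mix (nat_lit 9601024) (nat_lit 20840448)) (I.pos (nat_lit 13516800) (nat_lit 100220928)) (I.mix (nat_lit 45056000) (nat_lit 44941312)) (I.mix (nat_lit 49643520) (nat_lit 36225024)) (I.mix (nat_lit 40665088) (nat_lit 28033024)))
  false (nat_lit 0)
def b1_3 : Bx := Bx.mk (St.mk (I.mix (nat_lit 17645568) (nat_lit 101023744)) (I.mix (nat_lit 27754496) (nat_lit 3604480)) (I.mix (nat_lit 17514496) (nat_lit 2932736)) (I.pos (nat_lit 15138816) (nat_lit 73007104)) (I.mix (nat_lit 36503552) (nat_lit 35880960)) (I.mix (nat_lit 28688384) (nat_lit 39878656)) (I.mix (nat_lit 17645568) (nat_lit 25591808)))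
  false (nat_lit 0)
def b1_4 : Bx := Bx.mk (St.mk (I.pos (nat_lit 162086912) (nat_lit 209911808)) (I.mix (nat_lit 16351232) (nat_lit 55410688)) (I.mix (nat_lit 376832) (nat_lit 93618176)) (I.pos (nat_lit 125911040) (nat_lit 209846272)) (I.mix (nat_lit 143654912) (nat_lit 54542336)) (I.mix (nat_lit 147734528) (nat_lit 81559552)) (I.mix (nat_lit 168820736) (nat_lit 84541440)))
  false (nat_lit 0)
def b1_5 : Bx := Bx.mk (St.mk (I.pos (nat_lit 107413504) (nat_lit 149897216)) (I.mix (nat_lit 51298304) (nat_lit 10452992)) (I.mix (nat_lit 49414144) (nat_lit 6553600)) (I.pos (nat_lit 63979520) (nat_lit 118784000)) (I.mix (nat_lit 91848704) (nat_lit 46235648)) (I.mix (nat_lit 53264384) (nat_lit 100515840)) (I.mix (nat_lit 43712512) (nat_lit 84115456)))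
  false (nat_lit 13344165)
def b1_6 : Bx := Bx.mk (St.mk (I.mix (nat_lit 24870912) (nat_lit 125747200)) (I.mix (nat_lit 14745600) (nat_lit 32260096)) (I.mix (nat_lit 9371648) (nat_lit 25968640)) (I.pos (nat_lit 13877248) (nat_lit 92979200)) (I.mix (nat_lit 57409536) (nat_lit 33144832)) (I.mix (nat_lit 60882944) (nat_lit 35405824)) (I.mix (nat_lit 39387136) (nat_lit 22773760)))
  false (nat_lit 0)
def b1_7 : Bx := Bx.mk (St.mk (I.mix (nat_lit 22298624) (nat_lit 94502912)) (I.mix (nat_lit 27148288) (nat_lit 573440)) (I.mix (nat_lit 17055744) (nat_lit 2310144)) (I.pos (nat_lit 15384576) (nat_lit 69140480)) (I.mix (nat_lit 40566784) (nat_lit 22200320)) (I.mix (nat_lit 23691264) (nat_lit 41467904)) (I.mix (nat_lit 12861440) (nat_lit 21118976)))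
  false (nat_lit 0)
def b1_8 : Bx := Bx.mk (St.mk (I.pos (nat_lit 186040320) (nat_lit 243875840)) (I.mix (nat_lit 15007744) (nat_lit 53755904)) (I.mix (nat_lit 33783808) (nat_lit 93634560)) (I.pos (nat_lit 184500224) (nat_lit 268632064)) (I.mix (nat_lit 123912192) (nat_lit 105758720)) (I.mix (nat_lit 128974848) (nat_lit 111394816)) (I.mix (nat_lit 220708864) (nat_lit 166756352)))
  false (nat_lit 50848689)
def b1_9 : Bx := Bx.mk (St.mk (I.pos (nat_lit 158334976) (nat_lit 199770112)) (I.mix (nat_lit 46448640) (nat_lit 23298048)) (I.mix (nat_lit 44122112) (nat_lit 47726592)) (I.pos (nat_lit 122372096) (nat_lit 189595648)) (I.mix (nat_lit 134397952) (nat_lit 78364672)) (I.mix (nat_lit 153714688) (nat_lit 96796672)) (I.mix (nat_lit 173834240) (nat_lit 104906752)))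
  false (nat_lit 0)
def b1_10 : Bx := Bx.mk (St.mk (I.pos (nat_lit 136871936) (nat_lit 172212224)) (I.mix (nat_lit 38027264) (nat_lit 4308992)) (I.mix (nat_lit 34258944) (nat_lit 8421376)) (I.pos (nat_lit 101023744) (nat_lit 151896064)) (I.mix (nat_lit 72302592) (nat_lit 32817152)) (I.mix (nat_lit 38240256) (nat_lit 55296000)) (I.mix (nat_lit 44548096) (nat_lit 59064320)))
  false (nat_lit 0)
def b1_11 : Bx := Bx.mk (St.mk (I.pos (nat_lit 95485952) (nat_lit 125861888)) (I.mix (nat_lit 10731520) (nat_lit 11616256)) (I.mix (nat_lit 12582912) (nat_lit 8126464)) (I.pos (nat_lit 57458688) (nat_lit 97583104)) (I.mix (nat_lit 35667968) (nat_lit 19415040)) (I.mix (nat_lit 24100864) (nat_lit 24576000)) (I.mix (nat_lit 20250624) (nat_lit 21348352)))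
  false (nat_lit 0)
def b1_12 : Bx := Bx.mk (St.mk (I.mix (nat_lit 31031296) (nat_lit 111820800)) (I.mix (nat_lit 15630336) (nat_lit 5849088)) (I.mix (nat_lit 9764864) (nat_lit 5521408)) (I.pos (nat_lit 15335424) (nat_lit 76087296)) (I.mix (nat_lit 30932992) (nat_lit 14123008)) (I.mix (nat_lit 18644992) (nat_lit 21905408)) (I.mix (nat_lit 11812864) (nat_lit 13713408)))
  false (nat_lit 0)
def b1_13 : Bx := Bx.mk (St.mk (I.neg (nat_lit 5275648) (nat_lit 24150016)) (I.mix (nat_lit 2146304) (nat_lit 4816896)) (I.mix (nat_lit 2490368) (nat_lit 409600)) (I.pos (nat_lit 17530880) (nat_lit 40189952)) (I.mix (nat_lit 7421952) (nat_lit 3604480)) (I.mix (nat_lit 3309568) (nat_lit 3702784)) (I.mix (nat_lit 1032192) (nat_lit 868352)))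
  false (nat_lit 0)
def b1_14 : Bx := Bx.mk (St.mk (I.pos (nat_lit 208928768) (nat_lit 254935040)) (I.mix (nat_lit 19136512) (nat_lit 18382848)) (I.mix (nat_lit 44138496) (nat_lit 28262400)) (I.pos (nat_lit 215678976) (nat_lit 297172992)) (I.mix (nat_lit 102711296) (nat_lit 24788992)) (I.mix (nat_lit 59785216) (nat_lit 60178432)) (I.mix (nat_lit 106889216) (nat_lit 111116288)))
  false (nat_lit 0)
def b1_15 : Bx := Bx.mk (St.mk (I.pos (nat_lit 150896640) (nat_lit 184942592)) (I.neg (nat_lit 4521984) (nat_lit 39600128)) (I.mix (nat_lit 37699584) (nat_lit 2359296)) (I.pos (nat_lit 112902144) (nat_lit 171474944)) (I.mix (nat_lit 46563328) (nat_lit 35061760)) (I.mix (nat_lit 40009728) (nat_lit 33554432)) (I.mix (nat_lit 45645824) (nat_lit 35995648)))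
  false (nat_lit 0)
def t1 : BTr := (BTr.n (BTr.n (BTr.n (BTr.n (BTr.b b1_0) (BTr.b b1_1)) (BTr.n (BTr.b b1_2) (BTr.b b1_3))) (BTr.n (BTr.n (BTr.b b1_4) (BTr.b b1_5)) (BTr.n (BTr.b b1_6) (BTr.b b1_7)))) (BTr.n (BTr.n (BTr.n (BTr.b b1_8) (BTr.b b1_9)) (BTr.n (BTr.b b1_10) (BTr.b b1_11))) (BTr.n (BTr.n (BTr.b b1_12) (BTr.b b1_13)) (BTr.n (BTr.b b1_14) (BTr.b b1_15)))))
namespace T1
def l0 : Tr := Tr.L (Pth.l (Pth.l (Pth.l (Pth.l Pth.z))))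
def l1 : Tr := Tr.L (Pth.l (Pth.l (Pth.l (Pth.r Pth.z))))
def l2 : Tr := Tr.L (Pth.l (Pth.l (Pth.r (Pth.l Pth.z))))
def l3 : Tr := Tr.L (Pth.l (Pth.l (Pth.r (Pth.r Pth.z))))
def l4 : Tr := Tr.L (Pth.l (Pth.r (Pth.l (Pth.l Pth.z))))
def l5 : Tr := Tr.L (Pth.l (Pth.r (Pth.l (Pth.r Pth.z))))
def l6 : Tr := Tr.L (Pth.l (Pth.r (Pth.r (Pth.l Pth.z))))
def l7 : Tr := Tr.L (Pth.l (Pth.r (Pth.r (Pth.r Pth.z))))
def l8 : Tr := Tr.L (Pth.r (Pth.l (Pth.l (Pth.l Pth.z))))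
def l9 : Tr := Tr.L (Pth.r (Pth.l (Pth.l (Pth.r Pth.z))))
def l10 : Tr := Tr.L (Pth.r (Pth.l (Pth.r (Pth.l Pth.z))))
def l11 : Tr := Tr.L (Pth.r (Pth.l (Pth.r (Pth.r Pth.z))))
def l12 : Tr := Tr.L (Pth.r (Pth.r (Pth.l (Pth.l Pth.z))))
def l13 : Tr := Tr.L (Pth.r (Pth.r (Pth.l (Pth.r Pth.z))))
def l14 : Tr := Tr.L (Pth.r (Pth.r (Pth.r (Pth.l Pth.z))))
def l15 : Tr := Tr.L (Pth.r (Pth.r (Pth.r (Pth.r Pth.z))))
end T1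
def b2_0 : Bx := Bx.mk (St.mk (I.pos (nat_lit 128253952) (nat_lit 220086272)) (I.mix (nat_lit 4866048) (nat_lit 85377024)) (I.mix (nat_lit 8437760) (nat_lit 147210240)) (I.pos (nat_lit 348848128) (nat_lit 455884800)) (I.mix (nat_lit 185827328) (nat_lit 96403456)) (I.mix (nat_lit 140951552) (nat_lit 113967104)) (I.mix (nat_lit 148520960) (nat_lit 139427840)))
  false (nat_lit 137736099)
def b2_1 : Bx := Bx.mk (St.mk (I.pos (nat_lit 41025536) (nat_lit 117702656)) (I.mix (nat_lit 97796096) (nat_lit 1392640)) (I.mix (nat_lit 36044800) (nat_lit 57835520)) (I.pos (nat_lit 277594112) (nat_lit 325976064)) (I.mix (nat_lit 110264320) (nat_lit 109625344)) (I.mix (nat_lit 107888640) (nat_lit 99909632)) (I.mix (nat_lit 93913088) (nat_lit 90701824)))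
  false (nat_lit 142964045)
def b2_2 : Bx := Bx.mk (St.mk (I.pos (nat_lit 101613568) (nat_lit 176078848)) (I.mix (nat_lit 47104000) (nat_lit 89980928)) (I.pos (nat_lit 10911744) (nat_lit 156139520)) (I.pos (nat_lit 306642944) (nat_lit 397033472)) (I.mix (nat_lit 222855168) (nat_lit 102236160)) (I.mix (nat_lit 207405056) (nat_lit 160727040)) (I.mix (nat_lit 220381184) (nat_lit 190169088)))
  false (nat_lit 137698659)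
def b2_3 : Bx := Bx.mk (St.mk (I.neg (nat_lit 40992768) (nat_lit 118226944)) (I.mix (nat_lit 16384) (nat_lit 97812480)) (I.mix (nat_lit 36012032) (nat_lit 56999936)) (I.pos (nat_lit 277561344) (nat_lit 326352896)) (I.mix (nat_lit 109641728) (nat_lit 110264320)) (I.mix (nat_lit 99926016) (nat_lit 107888640)) (I.mix (nat_lit 93913088) (nat_lit 90701824)))
  true (nat_lit 41761053)
def b2_4 : Bx := Bx.mk (St.mk (I.pos (nat_lit 85688320) (nat_lit 116801536)) (I.neg (nat_lit 311296) (nat_lit 41877504)) (I.pos (nat_lit 16777216) (nat_lit 57966592)) (I.pos (nat_lit 295190528) (nat_lit 326303744)) (I.mix (nat_lit 77004800) (nat_lit 71614464)) (I.mix (nat_lit 61161472) (nat_lit 75776000)) (I.mix (nat_lit 57655296) (nat_lit 62799872)))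
  false (nat_lit 0)
def b2_5 : Bx := Bx.mk (St.mk (I.mix (nat_lit 70369280) (nat_lit 13828096)) (I.mix (nat_lit 17006592) (nat_lit 92340224)) (I.mix (nat_lit 21561344) (nat_lit 1277952)) (I.pos (nat_lit 267206656) (nat_lit 299974656)) (I.mix (nat_lit 80805888) (nat_lit 96681984)) (I.mix (nat_lit 102678528) (nat_lit 90079232)) (I.mix (nat_lit 38420480) (nat_lit 33095680)))
  true (nat_lit 0)
def b2_6 : Bx := Bx.mk (St.mk (I.pos (nat_lit 28966912) (nat_lit 68976640)) (I.neg (nat_lit 34635776) (nat_lit 91619328)) (I.neg (nat_lit 917504) (nat_lit 21430272)) (I.pos (nat_lit 275955712) (nat_lit 299646976)) (I.mix (nat_lit 96681984) (nat_lit 76021760)) (I.mix (nat_lit 90095616) (nat_lit 93175808)) (I.mix (nat_lit 38420480) (nat_lit 33095680)))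
  false (nat_lit 45743679)
def b2_7 : Bx := Bx.mk (St.mk (I.pos (nat_lit 174342144) (nat_lit 288784384)) (I.mix (nat_lit 30310400) (nat_lit 62095360)) (I.mix (nat_lit 71401472) (nat_lit 107806720)) (I.pos (nat_lit 395395072) (nat_lit 582860800)) (I.mix (nat_lit 86802432) (nat_lit 77185024)) (I.mix (nat_lit 90783744) (nat_lit 74776576)) (I.mix (nat_lit 156303360) (nat_lit 115851264)))
  false (nat_lit 88184255)
def b2_8 : Bx := Bx.mk (St.mk (I.mix (nat_lit 12877824) (nat_lit 53346304)) (I.mix (nat_lit 51363840) (nat_lit 14680064)) (I.mix (nat_lit 12189696) (nat_lit 688128)) (I.pos (nat_lit 268042240) (nat_lit 285114368)) (I.mix (nat_lit 50413568) (nat_lit 59342848)) (I.mix (nat_lit 49692672) (nat_lit 47464448)) (I.mix (nat_lit 11452416) (nat_lit 13352960)))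
  false (nat_lit 0)
def b2_9 : Bx := Bx.mk (St.mk (I.pos (nat_lit 141606912) (nat_lit 201883648)) (I.pos (nat_lit 17645568) (nat_lit 84688896)) (I.pos (nat_lit 46841856) (nat_lit 144359424)) (I.pos (nat_lit 368001024) (nat_lit 424509440)) (I.mix (nat_lit 149749760) (nat_lit 110166016)) (I.mix (nat_lit 146325504) (nat_lit 91881472)) (I.mix (nat_lit 198131712) (nat_lit 113442816)))
  false (nat_lit 61678511)
def b2_10 : Bx := Bx.mk (St.mk (I.pos (nat_lit 30064640) (nat_lit 59916288)) (I.neg (nat_lit 23855104) (nat_lit 79118336)) (I.neg (nat_lit 49152) (nat_lit 20348928)) (I.pos (nat_lit 275922944) (nat_lit 291799040)) (I.mix (nat_lit 95977472) (nat_lit 80805888)) (I.mix (nat_lit 66551808) (nat_lit 102678528)) (I.mix (nat_lit 26279936) (nat_lit 26869760)))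
  false (nat_lit 63469767)
def t2 : BTr := (BTr.n (BTr.n (BTr.n (BTr.b b2_0) (BTr.b b2_1)) (BTr.n (BTr.b b2_2) (BTr.n (BTr.b b2_3) (BTr.b b2_4)))) (BTr.n (BTr.n (BTr.b b2_5) (BTr.n (BTr.b b2_6) (BTr.b b2_7))) (BTr.n (BTr.b b2_8) (BTr.n (BTr.b b2_9) (BTr.b b2_10)))))
namespace T2
def l0 : Tr := Tr.L (Pth.l (Pth.l (Pth.l Pth.z)))
def l1 : Tr := Tr.L (Pth.l (Pth.l (Pth.r Pth.z)))
def l2 : Tr := Tr.L (Pth.l (Pth.r (Pth.l Pth.z)))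
def l3 : Tr := Tr.L (Pth.l (Pth.r (Pth.r (Pth.l Pth.z))))
def l4 : Tr := Tr.L (Pth.l (Pth.r (Pth.r (Pth.r Pth.z))))
def l5 : Tr := Tr.L (Pth.r (Pth.l (Pth.l Pth.z)))
def l6 : Tr := Tr.L (Pth.r (Pth.l (Pth.r (Pth.l Pth.z))))
def l7 : Tr := Tr.L (Pth.r (Pth.l (Pth.r (Pth.r Pth.z))))
def l8 : Tr := Tr.L (Pth.r (Pth.r (Pth.l Pth.z)))
def l9 : Tr := Tr.L (Pth.r (Pth.r (Pth.r (Pth.l Pth.z))))
def l10 : Tr := Tr.L (Pth.r (Pth.r (Pth.r (Pth.r Pth.z))))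
end T2
theorem bx0_0 : BoxOK sI cl4 cl4 cl9 t0 t2 b0_0 :=
  box_mk (TrL.c (I.pos (nat_lit 0) (nat_lit 0)) (xb (xa T0.l9 T0.l0) (xa (xb T0.l9 (xa T0.l9 T0.l0)) (xb T0.l0 (xa T0.l0 T0.l0))))
  (TrL.c (I.pos (nat_lit 0) (nat_lit 0)) T2.l1
  (TrL.c (I.pos (nat_lit 0) (nat_lit 0)) T0.l1
  (TrL.c (I.pos (nat_lit 0) (nat_lit 0)) T2.l2
  (TrL.c (I.pos (nat_lit 0) (nat_lit 0)) (xb T0.l2 T0.l2)
  (TrL.c (I.pos (nat_lit 0) (nat_lit 0)) T2.l3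
  TrL.n)))))) (by decide +kernel)
theorem bx0_1 : BoxOK sI cl4 cl4 cl9 t0 t2 b0_1 :=
  box_mk (TrL.c (I.pos (nat_lit 0) (nat_lit 0)) T2.l4
  (TrL.c (I.pos (nat_lit 0) (nat_lit 0)) T0.l3
  TrL.n)) (by decide +kernel)
theorem bx0_2 : BoxOK sI cl4 cl4 cl9 t0 t2 b0_2 :=
  box_mk (TrL.c (I.pos (nat_lit 0) (nat_lit 0)) (xb (xa (xs T0.l4 T0.l9) T0.l9) T0.l9)
  (TrL.c (I.pos (nat_lit 0) (nat_lit 0)) T2.l1
  (TrL.c (I.pos (nat_lit 0) (nat_lit 0)) T0.l1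
  (TrL.c (I.pos (nat_lit 0) (nat_lit 0)) T2.l2
  (TrL.c (I.pos (nat_lit 0) (nat_lit 0)) T0.l10
  (TrL.c (I.pos (nat_lit 0) (nat_lit 0)) T2.l3
  TrL.n)))))) (by decide +kernel)
theorem bx0_3 : BoxOK sI cl4 cl4 cl9 t0 t2 b0_3 :=
  box_mk (TrL.c (I.pos (nat_lit 0) (nat_lit 0)) T2.l4
  (TrL.c (I.pos (nat_lit 0) (nat_lit 0)) T0.l3
  TrL.n)) (by decide +kernel)
theorem bx0_4 : BoxOK sI cl4 cl4 cl9 t0 t2 b0_4 :=
  box_mk (TrL.c (I.pos (nat_lit 0) (nat_lit 0)) T0.l7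
  (TrL.c (I.pos (nat_lit 0) (nat_lit 0)) T2.l1
  (TrL.c (I.pos (nat_lit 0) (nat_lit 0)) T0.l1
  (TrL.c (I.pos (nat_lit 0) (nat_lit 0)) T2.l2
  (TrL.c (I.pos (nat_lit 0) (nat_lit 0)) T0.l2
  (TrL.c (I.pos (nat_lit 0) (nat_lit 0)) T2.l3
  TrL.n)))))) (by decide +kernel)
theorem bx0_5 : BoxOK sI cl4 cl4 cl9 t0 t2 b0_5 :=
  box_mk (TrL.c (I.pos (nat_lit 0) (nat_lit 0)) T0.l4
  (TrL.c (I.pos (nat_lit 0) (nat_lit 0)) T2.l1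
  (TrL.c (I.pos (nat_lit 0) (nat_lit 0)) T0.l1
  (TrL.c (I.pos (nat_lit 0) (nat_lit 0)) T2.l2
  (TrL.c (I.pos (nat_lit 0) (nat_lit 0)) T0.l5
  (TrL.c (I.pos (nat_lit 0) (nat_lit 0)) T2.l3
  TrL.n)))))) (by decide +kernel)
theorem bx0_6 : BoxOK sI cl4 cl4 cl9 t0 t2 b0_6 :=
  box_mk (TrL.c (I.pos (nat_lit 0) (nat_lit 0)) (xa (xb (xa (xb T0.l9 T0.l9) T0.l9) (xa (xb T0.l9 T0.l9) T0.l9)) (xb T0.l9 T0.l9))
  (TrL.c (I.pos (nat_lit 0) (nat_lit 0)) T2.l1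
  (TrL.c (I.pos (nat_lit 0) (nat_lit 0)) (xa T0.l1 T0.l1)
  (TrL.c (I.pos (nat_lit 0) (nat_lit 0)) T2.l2
  (TrL.c (I.pos (nat_lit 0) (nat_lit 0)) (xa T0.l10 T0.l10)
  (TrL.c (I.pos (nat_lit 0) (nat_lit 0)) T2.l3
  TrL.n)))))) (by decide +kernel)
theorem bx0_7 : BoxOK sI cl4 cl4 cl9 t0 t2 b0_7 :=
  box_mk (TrL.c (I.pos (nat_lit 0) (nat_lit 0)) (xa (xb (xa (xb T0.l9 T0.l9) T0.l9) (xb (xa T0.l9 T0.l9) (xa T0.l9 T0.l9))) (xb (xa T0.l9 (xb T0.l9 T0.l9)) (xa T0.l9 (xb T0.l9 T0.l9))))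
  (TrL.c (I.pos (nat_lit 0) (nat_lit 0)) (xa (xb T2.l1 T2.l1) (xb T2.l1 T2.l1))
  (TrL.c (I.pos (nat_lit 0) (nat_lit 0)) (xb (xa T0.l1 T0.l1) (xa T0.l1 T0.l1))
  (TrL.c (I.pos (nat_lit 0) (nat_lit 0)) (xb (xa T2.l2 (xb T2.l2 T2.l2)) (xa T2.l2 T2.l2))
  (TrL.c (I.pos (nat_lit 0) (nat_lit 0)) (xa (xb T0.l10 T0.l10) (xb T0.l6 T0.l10))
  (TrL.c (I.pos (nat_lit 0) (nat_lit 0)) (xb (xa T2.l3 T2.l3) (xa T2.l3 T2.l3))
  TrL.n)))))) (by decide +kernel)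
theorem bx0_8 : BoxOK sI cl4 cl4 cl9 t0 t2 b0_8 :=
  box_mk (TrL.c (I.pos (nat_lit 0) (nat_lit 0)) T2.l1
  (TrL.c (I.pos (nat_lit 0) (nat_lit 0)) (xa T0.l1 T0.l1)
  TrL.n)) (by decide +kernel)
theorem bx0_9 : BoxOK sI cl4 cl4 cl9 t0 t2 b0_9 :=
  box_mk (TrL.c (I.pos (nat_lit 0) (nat_lit 0)) (xb (xa (xb (xa T0.l9 T0.l0) T0.l9) (xb T0.l0 T0.l0)) (xa (xb (xa T0.l9 T0.l0) (xa T0.l9 T0.l0)) (xb T0.l0 (xa T0.l0 T0.l0))))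
  (TrL.c (I.pos (nat_lit 0) (nat_lit 0)) (xb (xa T2.l1 T2.l1) (xa T2.l1 T2.l1))
  (TrL.c (I.pos (nat_lit 0) (nat_lit 0)) (xb (xa T0.l1 T0.l1) (xs (xa T0.l1 T0.l1) (xa T0.l1 T0.l1)))
  (TrL.c (I.pos (nat_lit 0) (nat_lit 0)) (xb (xa T2.l2 (xb (xa T2.l2 T2.l2) T2.l2)) (xa T2.l2 (xb T2.l2 (xs T2.l2 T2.l2))))
  (TrL.c (I.pos (nat_lit 0) (nat_lit 0)) (xb (xa T0.l2 T0.l2) (xs (xa T0.l2 T0.l2) (xa T0.l2 T0.l2)))
  (TrL.c (I.pos (nat_lit 0) (nat_lit 0)) (xb (xa T2.l3 T2.l3) (xa T2.l3 T2.l3))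
  TrL.n)))))) (by decide +kernel)
theorem bx0_10 : BoxOK sI cl4 cl4 cl9 t0 t2 b0_10 :=
  box_mk (TrL.c (I.pos (nat_lit 0) (nat_lit 0)) (xb (xa (xb T0.l4 T0.l4) T0.l9) (xb (xa T0.l4 T0.l4) (xa T0.l4 T0.l4)))
  (TrL.c (I.pos (nat_lit 0) (nat_lit 0)) T2.l1
  (TrL.c (I.pos (nat_lit 0) (nat_lit 0)) T0.l1
  (TrL.c (I.pos (nat_lit 0) (nat_lit 0)) T2.l2
  (TrL.c (I.pos (nat_lit 0) (nat_lit 0)) T0.l5
  (TrL.c (I.pos (nat_lit 0) (nat_lit 0)) T2.l3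
  TrL.n)))))) (by decide +kernel)
theorem sv0 : StarV sI cl4 cl4 cl9 t0 t2 t0 :=
  (bt_n (bt_n (bt_n (bt_b bx0_0) (bt_b bx0_1)) (bt_n (bt_b bx0_2) (bt_n (bt_b bx0_3) (bt_b bx0_4)))) (bt_n (bt_n (bt_b bx0_5) (bt_n (bt_b bx0_6) (bt_b bx0_7))) (bt_n (bt_b bx0_8) (bt_n (bt_b bx0_9) (bt_b bx0_10)))))
def S0 : StarD := StarD.mk cl4 cl4 cl9 0 2 t0
theorem bx1_0 : BoxOK sI cl4 cl9 cl4 t2 t0 b1_0 :=
  box_mk (TrL.c (I.pos (nat_lit 0) (nat_lit 0)) (xa (xb T2.l0 (xa (xb T2.l0 T2.l0) (xb T2.l0 T2.l0))) (xb (xa T2.l0 T2.l0) (xa (xb T2.l0 T2.l0) (xs T2.l0 T2.l0))))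
  (TrL.c (I.pos (nat_lit 0) (nat_lit 0)) (xa T0.l6 (xa T0.l6 (xb T0.l6 T0.l6)))
  (TrL.c (I.pos (nat_lit 0) (nat_lit 0)) T2.l5
  (TrL.c (I.pos (nat_lit 0) (nat_lit 0)) T0.l7
  (TrL.c (I.pos (nat_lit 0) (nat_lit 0)) (xa T2.l6 T2.l6)
  (TrL.c (I.pos (nat_lit 0) (nat_lit 0)) (xa T0.l8 (xa T0.l8 (xb T0.l8 T0.l8)))
  TrL.n)))))) (by decide +kernel)
theorem bx1_1 : BoxOK sI cl4 cl9 cl4 t2 t0 b1_1 :=
  box_mk (TrL.c (I.pos (nat_lit 0) (nat_lit 0)) (xa (xb T2.l0 T2.l0) T2.l0)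
  (TrL.c (I.pos (nat_lit 0) (nat_lit 0)) T0.l6
  (TrL.c (I.pos (nat_lit 0) (nat_lit 0)) T2.l5
  (TrL.c (I.pos (nat_lit 0) (nat_lit 0)) T0.l7
  (TrL.c (I.pos (nat_lit 0) (nat_lit 0)) T2.l8
  (TrL.c (I.pos (nat_lit 0) (nat_lit 0)) T0.l8
  TrL.n)))))) (by decide +kernel)
theorem bx1_2 : BoxOK sI cl4 cl9 cl4 t2 t0 b1_2 :=
  box_mk (TrL.c (I.pos (nat_lit 0) (nat_lit 0)) (xa (xa T2.l7 T2.l7) (xa T2.l7 (xa T2.l7 T2.l7)))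
  (TrL.c (I.pos (nat_lit 0) (nat_lit 0)) (xa T0.l6 T0.l6)
  (TrL.c (I.pos (nat_lit 0) (nat_lit 0)) T2.l5
  (TrL.c (I.pos (nat_lit 0) (nat_lit 0)) (xa T0.l7 T0.l7)
  (TrL.c (I.pos (nat_lit 0) (nat_lit 0)) T2.l8
  (TrL.c (I.pos (nat_lit 0) (nat_lit 0)) (xa T0.l8 T0.l8)
  TrL.n)))))) (by decide +kernel)
theorem bx1_3 : BoxOK sI cl4 cl9 cl4 t2 t0 b1_3 :=
  box_mk (TrL.c (I.pos (nat_lit 0) (nat_lit 0)) (xa T2.l7 T2.l7)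
  (TrL.c (I.pos (nat_lit 0) (nat_lit 0)) (xa T0.l6 T0.l6)
  (TrL.c (I.pos (nat_lit 0) (nat_lit 0)) T2.l5
  (TrL.c (I.pos (nat_lit 0) (nat_lit 0)) (xa T0.l7 T0.l7)
  (TrL.c (I.pos (nat_lit 0) (nat_lit 0)) T2.l8
  (TrL.c (I.pos (nat_lit 0) (nat_lit 0)) (xa T0.l8 T0.l8)
  TrL.n)))))) (by decide +kernel)
theorem bx1_4 : BoxOK sI cl4 cl9 cl4 t2 t0 b1_4 :=
  box_mk (TrL.c (I.pos (nat_lit 0) (nat_lit 0)) (xb (xa T2.l9 (xb T2.l9 T2.l9)) (xa (xb T2.l9 (xa T2.l9 T2.l9)) (xb T2.l9 (xa T2.l9 T2.l9))))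
  (TrL.c (I.pos (nat_lit 0) (nat_lit 0)) (xb (xa T0.l6 T0.l6) (xa T0.l6 T0.l6))
  (TrL.c (I.pos (nat_lit 0) (nat_lit 0)) (xb T2.l5 T2.l5)
  (TrL.c (I.pos (nat_lit 0) (nat_lit 0)) (xb T0.l7 T0.l7)
  (TrL.c (I.pos (nat_lit 0) (nat_lit 0)) (xb T2.l10 T2.l10)
  (TrL.c (I.pos (nat_lit 0) (nat_lit 0)) (xb (xa T0.l8 T0.l8) (xa T0.l8 T0.l8))
  TrL.n)))))) (by decide +kernel)
theorem bx1_5 : BoxOK sI cl4 cl9 cl4 t2 t0 b1_5 :=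
  box_mk (TrL.c (I.pos (nat_lit 0) (nat_lit 0)) (xb T2.l0 (xa T2.l7 T2.l0))
  (TrL.c (I.pos (nat_lit 0) (nat_lit 0)) T0.l6
  (TrL.c (I.pos (nat_lit 0) (nat_lit 0)) T2.l5
  (TrL.c (I.pos (nat_lit 0) (nat_lit 0)) T0.l7
  (TrL.c (I.pos (nat_lit 0) (nat_lit 0)) T2.l8
  (TrL.c (I.pos (nat_lit 0) (nat_lit 0)) T0.l8
  TrL.n)))))) (by decide +kernel)
theorem bx1_6 : BoxOK sI cl4 cl9 cl4 t2 t0 b1_6 :=
  box_mk (TrL.c (I.pos (nat_lit 0) (nat_lit 0)) (xa (xa (xb T2.l7 (xa T2.l7 T2.l7)) T2.l7) (xa T2.l7 (xb T2.l7 (xa T2.l7 T2.l7))))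
  (TrL.c (I.pos (nat_lit 0) (nat_lit 0)) (xa (xa T0.l6 T0.l6) T0.l6)
  (TrL.c (I.pos (nat_lit 0) (nat_lit 0)) T2.l5
  (TrL.c (I.pos (nat_lit 0) (nat_lit 0)) (xa T0.l7 T0.l7)
  (TrL.c (I.pos (nat_lit 0) (nat_lit 0)) T2.l8
  (TrL.c (I.pos (nat_lit 0) (nat_lit 0)) (xa (xa T0.l8 T0.l8) T0.l8)
  TrL.n)))))) (by decide +kernel)
theorem bx1_7 : BoxOK sI cl4 cl9 cl4 t2 t0 b1_7 :=
  box_mk (TrL.c (I.pos (nat_lit 0) (nat_lit 0)) (xa (xa (xa T2.l7 T2.l7) T2.l7) T2.l7)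
  (TrL.c (I.pos (nat_lit 0) (nat_lit 0)) (xa T0.l7 T0.l6)
  (TrL.c (I.pos (nat_lit 0) (nat_lit 0)) T2.l5
  (TrL.c (I.pos (nat_lit 0) (nat_lit 0)) (xa T0.l7 T0.l7)
  (TrL.c (I.pos (nat_lit 0) (nat_lit 0)) T2.l8
  (TrL.c (I.pos (nat_lit 0) (nat_lit 0)) (xa T0.l8 T0.l8)
  TrL.n)))))) (by decide +kernel)
theorem bx1_8 : BoxOK sI cl4 cl9 cl4 t2 t0 b1_8 :=
  box_mk (TrL.c (I.pos (nat_lit 0) (nat_lit 0)) (xa (xb (xb (xa T2.l0 T2.l0) (xa T2.l0 T2.l0)) (xa (xb T2.l0 T2.l0) (xb T2.l0 T2.l0))) (xb (xa (xb T2.l0 T2.l0) (xb T2.l2 T2.l2)) (xa (xb T2.l0 T2.l0) T2.l2)))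
  (TrL.c (I.pos (nat_lit 0) (nat_lit 0)) (xa (xb T0.l6 (xs T0.l6 (xa T0.l6 T0.l6))) (xb (xa T0.l6 T0.l6) (xa T0.l6 T0.l6)))
  (TrL.c (I.pos (nat_lit 0) (nat_lit 0)) (xa T2.l5 T2.l3)
  (TrL.c (I.pos (nat_lit 0) (nat_lit 0)) (xa T0.l7 (xb (xa T0.l7 T0.l7) (xa T0.l7 T0.l7)))
  (TrL.c (I.pos (nat_lit 0) (nat_lit 0)) (xa T2.l6 T2.l1)
  (TrL.c (I.pos (nat_lit 0) (nat_lit 0)) (xa (xb T0.l8 (xs T0.l8 (xa T0.l8 T0.l8))) (xb (xa T0.l8 T0.l8) (xa T0.l8 T0.l8)))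
  TrL.n)))))) (by decide +kernel)
theorem bx1_9 : BoxOK sI cl4 cl9 cl4 t2 t0 b1_9 :=
  box_mk (TrL.c (I.pos (nat_lit 0) (nat_lit 0)) (xb (xa T2.l9 (xb T2.l9 T2.l9)) (xa (xb T2.l9 T2.l9) T2.l9))
  (TrL.c (I.pos (nat_lit 0) (nat_lit 0)) (xb T0.l6 (xa T0.l6 T0.l6))
  (TrL.c (I.pos (nat_lit 0) (nat_lit 0)) T2.l5
  (TrL.c (I.pos (nat_lit 0) (nat_lit 0)) (xb (xa T0.l7 T0.l7) T0.l7)
  (TrL.c (I.pos (nat_lit 0) (nat_lit 0)) T2.l10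
  (TrL.c (I.pos (nat_lit 0) (nat_lit 0)) (xb T0.l8 (xa T0.l8 T0.l8))
  TrL.n)))))) (by decide +kernel)
theorem bx1_10 : BoxOK sI cl4 cl9 cl4 t2 t0 b1_10 :=
  box_mk (TrL.c (I.pos (nat_lit 0) (nat_lit 0)) T2.l0
  (TrL.c (I.pos (nat_lit 0) (nat_lit 0)) T0.l6
  (TrL.c (I.pos (nat_lit 0) (nat_lit 0)) T2.l5
  (TrL.c (I.pos (nat_lit 0) (nat_lit 0)) T0.l7
  (TrL.c (I.pos (nat_lit 0) (nat_lit 0)) T2.l8
  (TrL.c (I.pos (nat_lit 0) (nat_lit 0)) T0.l8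
  TrL.n)))))) (by decide +kernel)
theorem bx1_11 : BoxOK sI cl4 cl9 cl4 t2 t0 b1_11 :=
  box_mk (TrL.c (I.pos (nat_lit 0) (nat_lit 0)) T2.l7
  (TrL.c (I.pos (nat_lit 0) (nat_lit 0)) T0.l6
  (TrL.c (I.pos (nat_lit 0) (nat_lit 0)) T2.l5
  (TrL.c (I.pos (nat_lit 0) (nat_lit 0)) T0.l7
  (TrL.c (I.pos (nat_lit 0) (nat_lit 0)) T2.l8
  (TrL.c (I.pos (nat_lit 0) (nat_lit 0)) T0.l8
  TrL.n)))))) (by decide +kernel)
theorem bx1_12 : BoxOK sI cl4 cl9 cl4 t2 t0 b1_12 :=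
  box_mk (TrL.c (I.pos (nat_lit 0) (nat_lit 0)) (xa T2.l7 T2.l7)
  (TrL.c (I.pos (nat_lit 0) (nat_lit 0)) (xa T0.l6 T0.l6)
  (TrL.c (I.pos (nat_lit 0) (nat_lit 0)) T2.l5
  (TrL.c (I.pos (nat_lit 0) (nat_lit 0)) (xa T0.l7 T0.l7)
  (TrL.c (I.pos (nat_lit 0) (nat_lit 0)) T2.l8
  (TrL.c (I.pos (nat_lit 0) (nat_lit 0)) (xa T0.l8 T0.l8)
  TrL.n)))))) (by decide +kernel)
theorem bx1_13 : BoxOK sI cl4 cl9 cl4 t2 t0 b1_13 :=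
  box_mk (TrL.c (I.pos (nat_lit 0) (nat_lit 0)) T2.l7
  (TrL.c (I.pos (nat_lit 0) (nat_lit 0)) T0.l6
  (TrL.c (I.pos (nat_lit 0) (nat_lit 0)) T2.l5
  (TrL.c (I.pos (nat_lit 0) (nat_lit 0)) T0.l7
  (TrL.c (I.pos (nat_lit 0) (nat_lit 0)) T2.l8
  (TrL.c (I.pos (nat_lit 0) (nat_lit 0)) T0.l8
  TrL.n)))))) (by decide +kernel)
theorem bx1_14 : BoxOK sI cl4 cl9 cl4 t2 t0 b1_14 :=
  box_mk (TrL.c (I.pos (nat_lit 0) (nat_lit 0)) (xa T2.l0 T2.l2)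
  (TrL.c (I.pos (nat_lit 0) (nat_lit 0)) (xa T0.l6 T0.l6)
  (TrL.c (I.pos (nat_lit 0) (nat_lit 0)) T2.l3
  (TrL.c (I.pos (nat_lit 0) (nat_lit 0)) (xa T0.l7 T0.l7)
  (TrL.c (I.pos (nat_lit 0) (nat_lit 0)) T2.l1
  (TrL.c (I.pos (nat_lit 0) (nat_lit 0)) (xa T0.l8 T0.l8)
  TrL.n)))))) (by decide +kernel)
theorem bx1_15 : BoxOK sI cl4 cl9 cl4 t2 t0 b1_15 :=
  box_mk (TrL.c (I.pos (nat_lit 0) (nat_lit 0)) T2.l0
  (TrL.c (I.pos (nat_lit 0) (nat_lit 0)) T0.l6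
  (TrL.c (I.pos (nat_lit 0) (nat_lit 0)) T2.l5
  (TrL.c (I.pos (nat_lit 0) (nat_lit 0)) T0.l7
  (TrL.c (I.pos (nat_lit 0) (nat_lit 0)) T2.l10
  (TrL.c (I.pos (nat_lit 0) (nat_lit 0)) T0.l8
  TrL.n)))))) (by decide +kernel)
theorem sv1 : StarV sI cl4 cl9 cl4 t2 t0 t1 :=
  (bt_n (bt_n (bt_n (bt_n (bt_b bx1_0) (bt_b bx1_1)) (bt_n (bt_b bx1_2) (bt_b bx1_3))) (bt_n (bt_n (bt_b bx1_4) (bt_b bx1_5)) (bt_n (bt_b bx1_6) (bt_b bx1_7)))) (bt_n (bt_n (bt_n (bt_b bx1_8) (bt_b bx1_9)) (bt_n (bt_b bx1_10) (bt_b bx1_11))) (bt_n (bt_n (bt_b bx1_12) (bt_b bx1_13)) (bt_n (bt_b bx1_14) (bt_b bx1_15)))))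
def S1 : StarD := StarD.mk cl4 cl9 cl4 2 0 t1
theorem bx2_0 : BoxOK sI cl9 cl4 cl4 t1 t1 b2_0 :=
  box_mk (TrL.c (I.pos (nat_lit 0) (nat_lit 0)) (xa (xb T1.l8 (xa T1.l8 (xb T1.l8 T1.l8))) (xb (xa T1.l0 T1.l0) (xa (xb T1.l0 T1.l0) (xb T1.l0 T1.l0))))
  (TrL.c (I.pos (nat_lit 0) (nat_lit 0)) (xa T1.l1 (xb T1.l1 T1.l1))
  (TrL.c (I.pos (nat_lit 0) (nat_lit 124588530)) (xR T1.l2 (xR T1.l2 (xR T1.l2 T1.l2)))
  (TrL.c (I.pos (nat_lit 0) (nat_lit 96881482)) (xR T1.l3 (xR T1.l3 T1.l3))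
  (TrL.c (I.pos (nat_lit 0) (nat_lit 0)) (xa (xb T1.l9 T1.l4) (xb T1.l4 (xk T1.l4 T1.l4)))
  (TrL.c (I.pos (nat_lit 0) (nat_lit 0)) T1.l5
  (TrL.c (I.mix (nat_lit 17240550) (nat_lit 96881482)) (xR T1.l6 (xR T1.l6 T1.l6))
  (TrL.c (I.mix (nat_lit 17240550) (nat_lit 71940500)) (xR T1.l7 T1.l7)
  TrL.n)))))))) (by decide +kernel)
theorem bx2_1 : BoxOK sI cl9 cl4 cl4 t1 t1 b2_1 :=
  box_mk (TrL.c (I.pos (nat_lit 0) (nat_lit 0)) (xb (xa T1.l8 T1.l8) (xa T1.l8 T1.l8))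
  (TrL.c (I.pos (nat_lit 0) (nat_lit 0)) T1.l1
  (TrL.c (I.pos (nat_lit 0) (nat_lit 124588530)) (xR T1.l2 T1.l2)
  (TrL.c (I.pos (nat_lit 0) (nat_lit 96881482)) (xR T1.l3 (xR T1.l3 T1.l3))
  (TrL.c (I.pos (nat_lit 0) (nat_lit 0)) (xb T1.l9 T1.l9)
  (TrL.c (I.pos (nat_lit 0) (nat_lit 0)) T1.l5
  (TrL.c (I.mix (nat_lit 17240550) (nat_lit 96881482)) (xR T1.l6 T1.l6)
  (TrL.c (I.mix (nat_lit 17240550) (nat_lit 71940500)) T1.l6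
  TrL.n)))))))) (by decide +kernel)
theorem bx2_2 : BoxOK sI cl9 cl4 cl4 t1 t1 b2_2 :=
  box_mk (TrL.c (I.pos (nat_lit 0) (nat_lit 0)) (xb (xa (xb T1.l8 T1.l8) (xb T1.l8 T1.l8)) (xa (xb T1.l8 (xa T1.l8 T1.l8)) (xb T1.l8 (xa T1.l8 T1.l8))))
  (TrL.c (I.pos (nat_lit 0) (nat_lit 0)) (xb T1.l1 (xa T1.l1 T1.l1))
  (TrL.c (I.pos (nat_lit 0) (nat_lit 124588530)) (xR T1.l2 (xR T1.l2 (xR T1.l2 T1.l2)))
  (TrL.c (I.pos (nat_lit 0) (nat_lit 96881482)) (xR T1.l3 (xR T1.l3 T1.l3))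
  (TrL.c (I.pos (nat_lit 0) (nat_lit 0)) (xb (xa T1.l9 T1.l9) (xk (xb T1.l9 (xa T1.l9 T1.l9)) (xb T1.l9 (xa T1.l9 (xs T1.l9 T1.l9)))))
  (TrL.c (I.pos (nat_lit 0) (nat_lit 0)) T1.l5
  (TrL.c (I.mix (nat_lit 17240550) (nat_lit 96881482)) (xR T1.l6 (xR T1.l6 (xR T1.l6 T1.l6)))
  (TrL.c (I.mix (nat_lit 17240550) (nat_lit 71940500)) (xR T1.l7 (xR T1.l7 T1.l7))
  TrL.n)))))))) (by decide +kernel)
theorem bx2_3 : BoxOK sI cl9 cl4 cl4 t1 t1 b2_3 :=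
  box_mk (TrL.c (I.pos (nat_lit 0) (nat_lit 0)) T1.l1
  (TrL.c (I.pos (nat_lit 0) (nat_lit 0)) T1.l2
  (TrL.c (I.mix (nat_lit 17240550) (nat_lit 96881482)) (xR T1.l12 (xR T1.l12 T1.l12))
  (TrL.c (I.mix (nat_lit 17240550) (nat_lit 71940500)) (xR T1.l6 T1.l2)
  TrL.n)))) (by decide +kernel)
theorem bx2_4 : BoxOK sI cl9 cl4 cl4 t1 t1 b2_4 :=
  box_mk (TrL.c (I.pos (nat_lit 0) (nat_lit 0)) T1.l8
  (TrL.c (I.pos (nat_lit 0) (nat_lit 0)) T1.l1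
  (TrL.c (I.pos (nat_lit 0) (nat_lit 124588530)) (xR T1.l2 T1.l2)
  (TrL.c (I.pos (nat_lit 0) (nat_lit 96881482)) T1.l3
  (TrL.c (I.pos (nat_lit 0) (nat_lit 0)) T1.l9
  (TrL.c (I.pos (nat_lit 0) (nat_lit 0)) T1.l5
  (TrL.c (I.mix (nat_lit 17240550) (nat_lit 96881482)) T1.l6
  (TrL.c (I.mix (nat_lit 17240550) (nat_lit 71940500)) T1.l7
  TrL.n)))))))) (by decide +kernel)
theorem bx2_5 : BoxOK sI cl9 cl4 cl4 t1 t1 b2_5 :=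
  box_mk (TrL.c (I.pos (nat_lit 0) (nat_lit 0)) T1.l10
  (TrL.c (I.pos (nat_lit 0) (nat_lit 0)) T1.l11
  (TrL.c (I.mix (nat_lit 17240550) (nat_lit 96881482)) (xR T1.l12 T1.l6)
  (TrL.c (I.mix (nat_lit 17240550) (nat_lit 71940500)) T1.l12
  TrL.n)))) (by decide +kernel)
theorem bx2_6 : BoxOK sI cl9 cl4 cl4 t1 t1 b2_6 :=
  box_mk (TrL.c (I.pos (nat_lit 0) (nat_lit 0)) T1.l14
  (TrL.c (I.pos (nat_lit 0) (nat_lit 0)) T1.l1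
  (TrL.c (I.pos (nat_lit 0) (nat_lit 124588530)) T1.l2
  (TrL.c (I.pos (nat_lit 0) (nat_lit 96881482)) T1.l6
  (TrL.c (I.pos (nat_lit 0) (nat_lit 0)) T1.l9
  (TrL.c (I.pos (nat_lit 0) (nat_lit 0)) T1.l5
  (TrL.c (I.mix (nat_lit 17240550) (nat_lit 96881482)) T1.l6
  (TrL.c (I.mix (nat_lit 17240550) (nat_lit 71940500)) T1.l6
  TrL.n)))))))) (by decide +kernel)
theorem bx2_7 : BoxOK sI cl9 cl4 cl4 t1 t1 b2_7 :=
  box_mk (TrL.c (I.pos (nat_lit 0) (nat_lit 0)) (xa (xb T1.l0 T1.l0) (xb T1.l0 (xa T1.l0 T1.l0)))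
  (TrL.c (I.pos (nat_lit 0) (nat_lit 0)) (xa T1.l1 (xb T1.l5 (xk T1.l1 T1.l1)))
  (TrL.c (I.pos (nat_lit 0) (nat_lit 124588530)) (xR T1.l6 T1.l6)
  (TrL.c (I.pos (nat_lit 0) (nat_lit 96881482)) (xR T1.l3 (xR T1.l3 (xR T1.l3 T1.l3)))
  (TrL.c (I.pos (nat_lit 0) (nat_lit 0)) (xa (xb T1.l4 T1.l4) (xb (xk (xa T1.l4 T1.l4) (xa T1.l4 T1.l4)) (xk (xa T1.l4 T1.l4) (xa T1.l4 T1.l4))))
  (TrL.c (I.pos (nat_lit 0) (nat_lit 0)) (xk (xa T1.l5 T1.l5) T1.l5)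
  (TrL.c (I.mix (nat_lit 17240550) (nat_lit 96881482)) (xR T1.l6 (xR T1.l6 (xR T1.l6 T1.l6)))
  (TrL.c (I.mix (nat_lit 17240550) (nat_lit 71940500)) (xR T1.l7 T1.l3)
  TrL.n)))))))) (by decide +kernel)
theorem bx2_8 : BoxOK sI cl9 cl4 cl4 t1 t1 b2_8 :=
  box_mk (TrL.c (I.pos (nat_lit 0) (nat_lit 0)) (xa T1.l14 T1.l14)
  (TrL.c (I.pos (nat_lit 0) (nat_lit 0)) T1.l10
  (TrL.c (I.pos (nat_lit 0) (nat_lit 124588530)) T1.l2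
  (TrL.c (I.pos (nat_lit 0) (nat_lit 96881482)) T1.l6
  (TrL.c (I.pos (nat_lit 0) (nat_lit 0)) T1.l15
  (TrL.c (I.pos (nat_lit 0) (nat_lit 0)) T1.l5
  (TrL.c (I.mix (nat_lit 17240550) (nat_lit 96881482)) T1.l6
  (TrL.c (I.mix (nat_lit 17240550) (nat_lit 71940500)) T1.l6
  TrL.n)))))))) (by decide +kernel)
theorem bx2_9 : BoxOK sI cl9 cl4 cl4 t1 t1 b2_9 :=
  box_mk (TrL.c (I.pos (nat_lit 0) (nat_lit 0)) (xa (xb T1.l8 (xs T1.l0 T1.l8)) (xb T1.l0 (xs T1.l0 T1.l0)))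
  (TrL.c (I.pos (nat_lit 0) (nat_lit 0)) (xk T1.l1 T1.l1)
  (TrL.c (I.pos (nat_lit 0) (nat_lit 124588530)) (xR T1.l2 (xR T1.l2 T1.l2))
  (TrL.c (I.pos (nat_lit 0) (nat_lit 96881482)) (xR T1.l3 T1.l3)
  (TrL.c (I.pos (nat_lit 0) (nat_lit 0)) (xk (xb T1.l4 (xa T1.l4 T1.l4)) (xb T1.l4 (xa T1.l4 (xs T1.l4 T1.l4))))
  (TrL.c (I.pos (nat_lit 0) (nat_lit 0)) T1.l5
  (TrL.c (I.mix (nat_lit 17240550) (nat_lit 96881482)) (xR T1.l6 T1.l6)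
  (TrL.c (I.mix (nat_lit 17240550) (nat_lit 71940500)) T1.l7
  TrL.n)))))))) (by decide +kernel)
theorem bx2_10 : BoxOK sI cl9 cl4 cl4 t1 t1 b2_10 :=
  box_mk (TrL.c (I.pos (nat_lit 0) (nat_lit 0)) T1.l8
  (TrL.c (I.pos (nat_lit 0) (nat_lit 0)) T1.l1
  (TrL.c (I.pos (nat_lit 0) (nat_lit 124588530)) T1.l2
  (TrL.c (I.pos (nat_lit 0) (nat_lit 96881482)) T1.l6
  (TrL.c (I.pos (nat_lit 0) (nat_lit 0)) T1.l9
  (TrL.c (I.pos (nat_lit 0) (nat_lit 0)) T1.l5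
  (TrL.c (I.mix (nat_lit 17240550) (nat_lit 96881482)) T1.l6
  (TrL.c (I.mix (nat_lit 17240550) (nat_lit 71940500)) T1.l3
  TrL.n)))))))) (by decide +kernel)
theorem sv2 : StarV sI cl9 cl4 cl4 t1 t1 t2 :=
  (bt_n (bt_n (bt_n (bt_b bx2_0) (bt_b bx2_1)) (bt_n (bt_b bx2_2) (bt_n (bt_b bx2_3) (bt_b bx2_4)))) (bt_n (bt_n (bt_b bx2_5) (bt_n (bt_b bx2_6) (bt_b bx2_7))) (bt_n (bt_b bx2_8) (bt_n (bt_b bx2_9) (bt_b bx2_10)))))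
def S2 : StarD := StarD.mk cl9 cl4 cl4 1 1 t2
def G : List StarD := [S0, S1, S2]
theorem so0 : StarOK sI G S0 :=
  star_mk (by decide) (by decide) rfl rfl rfl rfl rfl rfl (rfl : _ = t0) (rfl : _ = t2)
  (st_mk (Pth.l (Pth.l (Pth.l Pth.z))) (nat_lit 386781155) (nat_lit 392008718) (by decide +kernel))
  (st_mk (Pth.l (Pth.l (Pth.l Pth.z))) (nat_lit 426348102) (nat_lit 432802029) (by decide +kernel))
  (st_mk (Pth.l (Pth.l (Pth.l Pth.z))) (nat_lit 472656810) (nat_lit 480742738) (by decide +kernel)) sv0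
theorem so1 : StarOK sI G S1 :=
  star_mk (by decide) (by decide) rfl rfl rfl rfl rfl rfl (rfl : _ = t2) (rfl : _ = t0)
  (st_mk (Pth.l (Pth.l (Pth.l (Pth.l Pth.z)))) (nat_lit 119445873) (nat_lit 139599021) (by decide +kernel))
  (st_mk (Pth.l (Pth.l (Pth.l (Pth.l Pth.z)))) (nat_lit 155660394) (nat_lit 180599473) (by decide +kernel))
  (st_mk (Pth.l (Pth.l (Pth.l (Pth.l Pth.z)))) (nat_lit 200852189) (nat_lit 227270122) (by decide +kernel)) sv1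
theorem so2 : StarOK sI G S2 :=
  star_mk (by decide) (by decide) rfl rfl rfl rfl rfl rfl (rfl : _ = t1) (rfl : _ = t1)
  (st_mk (Pth.l (Pth.l (Pth.l Pth.z))) (nat_lit 367188744) (nat_lit 372112730) (by decide +kernel))
  (st_mk (Pth.l (Pth.l (Pth.l Pth.z))) (nat_lit 402677061) (nat_lit 408282728) (by decide +kernel))
  (st_mk (Pth.l (Pth.l (Pth.l Pth.z))) (nat_lit 443694088) (nat_lit 450170543) (by decide +kernel)) sv2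
theorem ok : GroupOK (nat_lit 91226112) (nat_lit 150339584) G := grp_mk (allS_c so0 (allS_c so1 (allS_c so2 allS_n)))
theorem cov : GCov G cl4 cl4 cl9 := cov_mk
  ⟨0, by decide, rfl, rfl, rfl⟩ ⟨1, by decide, rfl, rfl, rfl⟩ ⟨0, by decide, rfl, rfl, rfl⟩ ⟨1, by decide, rfl, rfl, rfl⟩ ⟨2, by decide, rfl, rfl, rfl⟩ ⟨2, by decide, rfl, rfl, rfl⟩
end Q115_1

namespace Q115_2
def sI : I := I.pos (nat_lit 150274048) (nat_lit 209387520)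
def b0_0 : Bx := Bx.mk (St.mk (I.pos (nat_lit 147505152) (nat_lit 218906624)) (I.mix (nat_lit 278528) (nat_lit 103546880)) (I.mix (nat_lit 54902784) (nat_lit 50069504)) (I.pos (nat_lit 390070272) (nat_lit 494927872)) (I.mix (nat_lit 184614912) (nat_lit 130236416)) (I.mix (nat_lit 125763584) (nat_lit 122224640)) (I.mix (nat_lit 194281472) (nat_lit 190971904)))
  false (nat_lit 98226189)
def b0_1 : Bx := Bx.mk (St.mk (I.mix (nat_lit 47218688) (nat_lit 8863744)) (I.mix (nat_lit 16416768) (nat_lit 81494016)) (I.neg (nat_lit 74366976) (nat_lit 105299968)) (I.pos (nat_lit 257392640) (nat_lit 289259520)) (I.mix (nat_lit 91176960) (nat_lit 166739968)) (I.mix (nat_lit 132333568) (nat_lit 99500032)) (I.mix (nat_lit 66125824) (nat_lit 65355776)))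
  true (nat_lit 0)
def b0_2 : Bx := Bx.mk (St.mk (I.mix (nat_lit 3899392) (nat_lit 47218688)) (I.neg (nat_lit 26296320) (nat_lit 81494016)) (I.neg (nat_lit 74366976) (nat_lit 105152512)) (I.pos (nat_lit 259784704) (nat_lit 289259520)) (I.mix (nat_lit 166592512) (nat_lit 67485696)) (I.mix (nat_lit 99516416) (nat_lit 132972544)) (I.mix (nat_lit 66125824) (nat_lit 65355776)))
  false (nat_lit 77805286)
def b0_3 : Bx := Bx.mk (St.mk (I.mix (nat_lit 24117248) (nat_lit 7012352)) (I.mix (nat_lit 20398080) (nat_lit 21512192)) (I.neg (nat_lit 76808192) (nat_lit 88735744)) (I.pos (nat_lit 259145728) (nat_lit 272449536)) (I.mix (nat_lit 77037568) (nat_lit 74104832)) (I.mix (nat_lit 69009408) (nat_lit 62750720)) (I.mix (nat_lit 6930432) (nat_lit 25575424)))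
  true (nat_lit 0)
def b0_4 : Bx := Bx.mk (St.mk (I.pos (nat_lit 196657152) (nat_lit 255410176)) (I.mix (nat_lit 26968064) (nat_lit 25362432)) (I.neg (nat_lit 105496576) (nat_lit 203522048)) (I.pos (nat_lit 425869312) (nat_lit 531054592)) (I.mix (nat_lit 164757504) (nat_lit 99467264)) (I.mix (nat_lit 135397376) (nat_lit 125583360)) (I.mix (nat_lit 193478656) (nat_lit 254722048)))
  false (nat_lit 53581754)
def b0_5 : Bx := Bx.mk (St.mk (I.mix (nat_lit 5292032) (nat_lit 23838720)) (I.mix (nat_lit 15106048) (nat_lit 16203776)) (I.neg (nat_lit 76791808) (nat_lit 88735744)) (I.pos (nat_lit 259276800) (nat_lit 272465920)) (I.mix (nat_lit 54558720) (nat_lit 69697536)) (I.mix (nat_lit 54804480) (nat_lit 62242816)) (I.mix (nat_lit 6209536) (nat_lit 25280512)))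
  false (nat_lit 0)
def b0_6 : Bx := Bx.mk (St.mk (I.pos (nat_lit 3833856) (nat_lit 123944960)) (I.neg (nat_lit 2015232) (nat_lit 84066304)) (I.neg (nat_lit 37928960) (nat_lit 111312896)) (I.pos (nat_lit 259112960) (nat_lit 338427904)) (I.mix (nat_lit 159678464) (nat_lit 92684288)) (I.mix (nat_lit 93569024) (nat_lit 130088960)) (I.mix (nat_lit 106659840) (nat_lit 117080064)))
  false (nat_lit 91192680)
def b0_7 : Bx := Bx.mk (St.mk (I.pos (nat_lit 80756736) (nat_lit 200867840)) (I.mix (nat_lit 41058304) (nat_lit 82935808)) (I.mix (nat_lit 83640320) (nat_lit 40484864)) (I.pos (nat_lit 294469632) (nat_lit 462258176)) (I.mix (nat_lit 195280896) (nat_lit 154877952)) (I.mix (nat_lit 192217088) (nat_lit 157007872)) (I.mix (nat_lit 197820416) (nat_lit 177750016)))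
  false (nat_lit 71400927)
def b0_8 : Bx := Bx.mk (St.mk (I.neg (nat_lit 3817472) (nat_lit 123944960)) (I.pos (nat_lit 2015232) (nat_lit 84066304)) (I.neg (nat_lit 37912576) (nat_lit 111312896)) (I.pos (nat_lit 259112960) (nat_lit 338427904)) (I.mix (nat_lit 92700672) (nat_lit 159694848)) (I.mix (nat_lit 130105344) (nat_lit 93569024)) (I.mix (nat_lit 106659840) (nat_lit 117096448)))
  true (nat_lit 0)
def b0_9 : Bx := Bx.mk (St.mk (I.pos (nat_lit 180371456) (nat_lit 249331712)) (I.mix (nat_lit 24526848) (nat_lit 50479104)) (I.neg (nat_lit 54050816) (nat_lit 193265664)) (I.pos (nat_lit 412811264) (nat_lit 514818048)) (I.mix (nat_lit 175472640) (nat_lit 111247360)) (I.mix (nat_lit 139952128) (nat_lit 140050432)) (I.mix (nat_lit 201867264) (nat_lit 255262720)))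
  false (nat_lit 90127786)
def b0_10 : Bx := Bx.mk (St.mk (I.mix (nat_lit 2867200) (nat_lit 35946496)) (I.mix (nat_lit 38141952) (nat_lit 16433152)) (I.neg (nat_lit 75988992) (nat_lit 93208576)) (I.pos (nat_lit 258015232) (nat_lit 276561920)) (I.mix (nat_lit 79052800) (nat_lit 77791232)) (I.mix (nat_lit 67174400) (nat_lit 71172096)) (I.mix (nat_lit 19513344) (nat_lit 35061760)))
  false (nat_lit 0)
def b0_11 : Bx := Bx.mk (St.mk (I.pos (nat_lit 166936576) (nat_lit 245055488)) (I.pos (nat_lit 11141120) (nat_lit 95223808)) (I.mix (nat_lit 115507200) (nat_lit 27099136)) (I.pos (nat_lit 413745152) (nat_lit 525008896)) (I.mix (nat_lit 184172544) (nat_lit 170737664)) (I.mix (nat_lit 174800896) (nat_lit 158646272)) (I.mix (nat_lit 302874624) (nat_lit 224575488)))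
  false (nat_lit 97401434)
def b0_12 : Bx := Bx.mk (St.mk (I.mix (nat_lit 10862592) (nat_lit 39813120)) (I.neg (nat_lit 7241728) (nat_lit 68370432)) (I.neg (nat_lit 77676544) (nat_lit 101842944)) (I.pos (nat_lit 257327104) (nat_lit 281903104)) (I.mix (nat_lit 141787136) (nat_lit 91160576)) (I.mix (nat_lit 95698944) (nat_lit 120438784)) (I.mix (nat_lit 44449792) (nat_lit 50544640)))
  false (nat_lit 52115521)
def t0 : BTr := (BTr.n (BTr.n (BTr.n (BTr.b b0_0) (BTr.n (BTr.b b0_1) (BTr.b b0_2))) (BTr.n (BTr.b b0_3) (BTr.n (BTr.b b0_4) (BTr.b b0_5)))) (BTr.n (BTr.n (BTr.b b0_6) (BTr.n (BTr.b b0_7) (BTr.b b0_8))) (BTr.n (BTr.n (BTr.b b0_9) (BTr.b b0_10)) (BTr.n (BTr.b b0_11) (BTr.b b0_12)))))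
namespace T0
def l0 : Tr := Tr.L (Pth.l (Pth.l (Pth.l Pth.z)))
def l1 : Tr := Tr.L (Pth.l (Pth.l (Pth.r (Pth.l Pth.z))))
def l2 : Tr := Tr.L (Pth.l (Pth.l (Pth.r (Pth.r Pth.z))))
def l3 : Tr := Tr.L (Pth.l (Pth.r (Pth.l Pth.z)))
def l4 : Tr := Tr.L (Pth.l (Pth.r (Pth.r (Pth.l Pth.z))))
def l5 : Tr := Tr.L (Pth.l (Pth.r (Pth.r (Pth.r Pth.z))))
def l6 : Tr := Tr.L (Pth.r (Pth.l (Pth.l Pth.z)))
def l7 : Tr := Tr.L (Pth.r (Pth.l (Pth.r (Pth.l Pth.z))))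
def l8 : Tr := Tr.L (Pth.r (Pth.l (Pth.r (Pth.r Pth.z))))
def l9 : Tr := Tr.L (Pth.r (Pth.r (Pth.l (Pth.l Pth.z))))
def l10 : Tr := Tr.L (Pth.r (Pth.r (Pth.l (Pth.r Pth.z))))
def l11 : Tr := Tr.L (Pth.r (Pth.r (Pth.r (Pth.l Pth.z))))
def l12 : Tr := Tr.L (Pth.r (Pth.r (Pth.r (Pth.r Pth.z))))
end T0
def b1_0 : Bx := Bx.mk (St.mk (I.pos (nat_lit 160514048) (nat_lit 229113856)) (I.mix (nat_lit 278528) (nat_lit 50003968)) (I.mix (nat_lit 278528) (nat_lit 88899584)) (I.pos (nat_lit 120209408) (nat_lit 241156096)) (I.mix (nat_lit 121094144) (nat_lit 73859072)) (I.mix (nat_lit 89440256) (nat_lit 78381056)) (I.mix (nat_lit 130859008) (nat_lit 105562112)))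
  false (nat_lit 6308352)
def b1_1 : Bx := Bx.mk (St.mk (I.pos (nat_lit 108527616) (nat_lit 165249024)) (I.neg (nat_lit 1769472) (nat_lit 51773440)) (I.mix (nat_lit 49692672) (nat_lit 884736)) (I.pos (nat_lit 79904768) (nat_lit 141279232)) (I.mix (nat_lit 95567872) (nat_lit 75579392)) (I.mix (nat_lit 68648960) (nat_lit 84754432)) (I.mix (nat_lit 65961984) (nat_lit 91684864)))
  false (nat_lit 29027578)
def b1_2 : Bx := Bx.mk (St.mk (I.mix (nat_lit 8519680) (nat_lit 121536512)) (I.mix (nat_lit 5783552) (nat_lit 24150016)) (I.mix (nat_lit 7913472) (nat_lit 19398656)) (I.pos (nat_lit 18153472) (nat_lit 92045312)) (I.mix (nat_lit 49889280) (nat_lit 50577408)) (I.mix (nat_lit 49070080) (nat_lit 38567936)) (I.mix (nat_lit 40550400) (nat_lit 30425088)))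
  false (nat_lit 0)
def b1_3 : Bx := Bx.mk (St.mk (I.mix (nat_lit 13172736) (nat_lit 95387648)) (I.mix (nat_lit 27099136) (nat_lit 3670016)) (I.mix (nat_lit 17203200) (nat_lit 2899968)) (I.pos (nat_lit 17842176) (nat_lit 70664192)) (I.mix (nat_lit 46989312) (nat_lit 42516480)) (I.mix (nat_lit 32522240) (nat_lit 44351488)) (I.mix (nat_lit 19857408) (nat_lit 28295168)))
  false (nat_lit 0)
def b1_4 : Bx := Bx.mk (St.mk (I.pos (nat_lit 155598848) (nat_lit 207241216)) (I.mix (nat_lit 18677760) (nat_lit 49479680)) (I.mix (nat_lit 688128) (nat_lit 86425600)) (I.pos (nat_lit 120586240) (nat_lit 205635584)) (I.mix (nat_lit 151879680) (nat_lit 64077824)) (I.mix (nat_lit 148570112) (nat_lit 83460096)) (I.mix (nat_lit 164724736) (nat_lit 83460096)))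
  false (nat_lit 0)
def b1_5 : Bx := Bx.mk (St.mk (I.pos (nat_lit 105447424) (nat_lit 147324928)) (I.mix (nat_lit 49676288) (nat_lit 10993664)) (I.mix (nat_lit 47972352) (nat_lit 5373952)) (I.pos (nat_lit 65748992) (nat_lit 121176064)) (I.mix (nat_lit 95125504) (nat_lit 58277888)) (I.mix (nat_lit 57802752) (nat_lit 95666176)) (I.mix (nat_lit 47693824) (nat_lit 79085568)))
  false (nat_lit 0)
def b1_6 : Bx := Bx.mk (St.mk (I.mix (nat_lit 17170432) (nat_lit 117407744)) (I.mix (nat_lit 14598144) (nat_lit 28835840)) (I.mix (nat_lit 9011200) (nat_lit 23625728)) (I.pos (nat_lit 18087936) (nat_lit 89800704)) (I.mix (nat_lit 61898752) (nat_lit 41795584)) (I.mix (nat_lit 60243968) (nat_lit 39043072)) (I.mix (nat_lit 39174144) (nat_lit 25198592)))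
  false (nat_lit 0)
def b1_7 : Bx := Bx.mk (St.mk (I.mix (nat_lit 17006592) (nat_lit 103825408)) (I.neg (nat_lit 376832) (nat_lit 27787264)) (I.mix (nat_lit 16695296) (nat_lit 1327104)) (I.pos (nat_lit 18087936) (nat_lit 70664192)) (I.mix (nat_lit 41811968) (nat_lit 23592960)) (I.mix (nat_lit 19382272) (nat_lit 39534592)) (I.mix (nat_lit 10797056) (nat_lit 20709376)))
  false (nat_lit 0)
def b1_8 : Bx := Bx.mk (St.mk (I.pos (nat_lit 194134016) (nat_lit 242073600)) (I.mix (nat_lit 13926400) (nat_lit 30605312)) (I.mix (nat_lit 31719424) (nat_lit 50085888)) (I.pos (nat_lit 191299584) (nat_lit 268894208)) (I.mix (nat_lit 126304256) (nat_lit 49217536)) (I.mix (nat_lit 83394560) (nat_lit 81936384)) (I.mix (nat_lit 146259968) (nat_lit 142835712)))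
  false (nat_lit 0)
def b1_9 : Bx := Bx.mk (St.mk (I.pos (nat_lit 155615232) (nat_lit 196870144)) (I.mix (nat_lit 44990464) (nat_lit 2670592)) (I.mix (nat_lit 42156032) (nat_lit 18776064)) (I.pos (nat_lit 122093568) (nat_lit 188416000)) (I.mix (nat_lit 88965120) (nat_lit 87834624)) (I.mix (nat_lit 96108544) (nat_lit 86179840)) (I.mix (nat_lit 105201664) (nat_lit 92520448)))
  false (nat_lit 38832776)
def b1_10 : Bx := Bx.mk (St.mk (I.pos (nat_lit 183681024) (nat_lit 233799680)) (I.pos (nat_lit 5423104) (nat_lit 51494912)) (I.pos (nat_lit 9175040) (nat_lit 88440832)) (I.pos (nat_lit 179830784) (nat_lit 253575168)) (I.mix (nat_lit 142245888) (nat_lit 117555200)) (I.mix (nat_lit 134791168) (nat_lit 114638848)) (I.mix (nat_lit 218202112) (nat_lit 173948928)))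
  false (nat_lit 25327449)
def b1_11 : Bx := Bx.mk (St.mk (I.pos (nat_lit 154894336) (nat_lit 200441856)) (I.mix (nat_lit 29802496) (nat_lit 24772608)) (I.mix (nat_lit 18300928) (nat_lit 49971200)) (I.pos (nat_lit 119914496) (nat_lit 191217664)) (I.mix (nat_lit 162250752) (nat_lit 109969408)) (I.mix (nat_lit 173801472) (nat_lit 116047872)) (I.mix (nat_lit 191217664) (nat_lit 123273216)))
  false (nat_lit 53567976)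
def b1_12 : Bx := Bx.mk (St.mk (I.pos (nat_lit 127647744) (nat_lit 172244992)) (I.mix (nat_lit 39190528) (nat_lit 2768896)) (I.mix (nat_lit 35176448) (nat_lit 9814016)) (I.pos (nat_lit 95567872) (nat_lit 153190400)) (I.mix (nat_lit 85377024) (nat_lit 39370752)) (I.mix (nat_lit 40927232) (nat_lit 57032704)) (I.mix (nat_lit 49037312) (nat_lit 61587456)))
  false (nat_lit 0)
def b1_13 : Bx := Bx.mk (St.mk (I.pos (nat_lit 93519872) (nat_lit 125337600)) (I.mix (nat_lit 11616256) (nat_lit 11534336)) (I.mix (nat_lit 13434880) (nat_lit 7733248)) (I.pos (nat_lit 58114048) (nat_lit 97255424)) (I.mix (nat_lit 48578560) (nat_lit 26918912)) (I.mix (nat_lit 31162368) (nat_lit 30818304)) (I.mix (nat_lit 25133056) (nat_lit 26296320)))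
  false (nat_lit 0)
def b1_14 : Bx := Bx.mk (St.mk (I.mix (nat_lit 24477696) (nat_lit 119717888)) (I.mix (nat_lit 17268736) (nat_lit 5242880)) (I.mix (nat_lit 10993664) (nat_lit 2703360)) (I.pos (nat_lit 18284544) (nat_lit 79413248)) (I.mix (nat_lit 37978112) (nat_lit 17793024)) (I.mix (nat_lit 21381120) (nat_lit 24870912)) (I.mix (nat_lit 13631488) (nat_lit 15532032)))
  false (nat_lit 0)
def b1_15 : Bx := Bx.mk (St.mk (I.mix (nat_lit 24592384) (nat_lit 5095424)) (I.mix (nat_lit 2686976) (nat_lit 4931584)) (I.mix (nat_lit 2457600) (nat_lit 327680)) (I.pos (nat_lit 18415616) (nat_lit 39190528)) (I.mix (nat_lit 16203776) (nat_lit 9895936)) (I.mix (nat_lit 10600448) (nat_lit 11026432)) (I.mix (nat_lit 2146304) (nat_lit 1900544)))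
  false (nat_lit 0)
def b1_16 : Bx := Bx.mk (St.mk (I.pos (nat_lit 201949184) (nat_lit 253394944)) (I.mix (nat_lit 16056320) (nat_lit 14974976)) (I.mix (nat_lit 37027840) (nat_lit 21544960)) (I.pos (nat_lit 206864384) (nat_lit 293257216)) (I.mix (nat_lit 117161984) (nat_lit 28000256)) (I.mix (nat_lit 61161472) (nat_lit 62308352)) (I.mix (nat_lit 112918528) (nat_lit 117456896)))
  false (nat_lit 0)
def b1_17 : Bx := Bx.mk (St.mk (I.pos (nat_lit 149356544) (nat_lit 185368576)) (I.neg (nat_lit 6766592) (nat_lit 41910272)) (I.neg (nat_lit 999424) (nat_lit 41238528)) (I.pos (nat_lit 114262016) (nat_lit 172785664)) (I.mix (nat_lit 76873728) (nat_lit 60162048)) (I.mix (nat_lit 71761920) (nat_lit 59637760)) (I.mix (nat_lit 84443136) (nat_lit 66011136)))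
  false (nat_lit 2524836)
def b1_18 : Bx := Bx.mk (St.mk (I.pos (nat_lit 199819264) (nat_lit 232538112)) (I.pos (nat_lit 5652480) (nat_lit 26705920)) (I.pos (nat_lit 9338880) (nat_lit 42336256)) (I.pos (nat_lit 203489280) (nat_lit 245825536)) (I.mix (nat_lit 68485120) (nat_lit 6832128)) (I.mix (nat_lit 32374784) (nat_lit 25477120)) (I.mix (nat_lit 51462144) (nat_lit 40009728)))
  false (nat_lit 0)
def t1 : BTr := (BTr.n (BTr.n (BTr.n (BTr.n (BTr.b b1_0) (BTr.b b1_1)) (BTr.n (BTr.b b1_2) (BTr.b b1_3))) (BTr.n (BTr.n (BTr.b b1_4) (BTr.b b1_5)) (BTr.n (BTr.b b1_6) (BTr.n (BTr.b b1_7) (BTr.b b1_8))))) (BTr.n (BTr.n (BTr.n (BTr.b b1_9) (BTr.b b1_10)) (BTr.n (BTr.b b1_11) (BTr.n (BTr.b b1_12) (BTr.b b1_13)))) (BTr.n (BTr.n (BTr.b b1_14) (BTr.b b1_15)) (BTr.n (BTr.b b1_16) (BTr.n (BTr.b b1_17) (BTr.b b1_18))))))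
namespace T1
def l0 : Tr := Tr.L (Pth.l (Pth.l (Pth.l (Pth.l Pth.z))))
def l1 : Tr := Tr.L (Pth.l (Pth.l (Pth.l (Pth.r Pth.z))))
def l2 : Tr := Tr.L (Pth.l (Pth.l (Pth.r (Pth.l Pth.z))))
def l3 : Tr := Tr.L (Pth.l (Pth.l (Pth.r (Pth.r Pth.z))))
def l4 : Tr := Tr.L (Pth.l (Pth.r (Pth.l (Pth.l Pth.z))))
def l5 : Tr := Tr.L (Pth.l (Pth.r (Pth.l (Pth.r Pth.z))))
def l6 : Tr := Tr.L (Pth.l (Pth.r (Pth.r (Pth.l Pth.z))))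
def l7 : Tr := Tr.L (Pth.l (Pth.r (Pth.r (Pth.r (Pth.l Pth.z)))))
def l8 : Tr := Tr.L (Pth.l (Pth.r (Pth.r (Pth.r (Pth.r Pth.z)))))
def l9 : Tr := Tr.L (Pth.r (Pth.l (Pth.l (Pth.l Pth.z))))
def l10 : Tr := Tr.L (Pth.r (Pth.l (Pth.l (Pth.r Pth.z))))
def l11 : Tr := Tr.L (Pth.r (Pth.l (Pth.r (Pth.l Pth.z))))
def l12 : Tr := Tr.L (Pth.r (Pth.l (Pth.r (Pth.r (Pth.l Pth.z)))))
def l13 : Tr := Tr.L (Pth.r (Pth.l (Pth.r (Pth.r (Pth.r Pth.z)))))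
def l14 : Tr := Tr.L (Pth.r (Pth.r (Pth.l (Pth.l Pth.z))))
def l15 : Tr := Tr.L (Pth.r (Pth.r (Pth.l (Pth.r Pth.z))))
def l16 : Tr := Tr.L (Pth.r (Pth.r (Pth.r (Pth.l Pth.z))))
def l17 : Tr := Tr.L (Pth.r (Pth.r (Pth.r (Pth.r (Pth.l Pth.z)))))
def l18 : Tr := Tr.L (Pth.r (Pth.r (Pth.r (Pth.r (Pth.r Pth.z)))))
end T1
def b2_0 : Bx := Bx.mk (St.mk (I.pos (nat_lit 124764160) (nat_lit 215302144)) (I.mix (nat_lit 278528) (nat_lit 81412096)) (I.mix (nat_lit 278528) (nat_lit 138510336)) (I.pos (nat_lit 351535104) (nat_lit 451543040)) (I.mix (nat_lit 195100672) (nat_lit 102088704)) (I.mix (nat_lit 132284416) (nat_lit 116703232)) (I.mix (nat_lit 158285824) (nat_lit 142458880)))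
  false (nat_lit 91849821)
def b2_1 : Bx := Bx.mk (St.mk (I.pos (nat_lit 37371904) (nat_lit 116490240)) (I.mix (nat_lit 97320960) (nat_lit 6569984)) (I.mix (nat_lit 31653888) (nat_lit 65421312)) (I.pos (nat_lit 278593536) (nat_lit 329236480)) (I.mix (nat_lit 127188992) (nat_lit 131481600)) (I.mix (nat_lit 121913344) (nat_lit 117522432)) (I.mix (nat_lit 103202816) (nat_lit 104038400)))
  false (nat_lit 155613003)
def b2_2 : Bx := Bx.mk (St.mk (I.pos (nat_lit 98729984) (nat_lit 174456832)) (I.mix (nat_lit 46252032) (nat_lit 81526784)) (I.pos (nat_lit 8683520) (nat_lit 151748608)) (I.pos (nat_lit 303857664) (nat_lit 399212544)) (I.mix (nat_lit 242827264) (nat_lit 135692288)) (I.mix (nat_lit 217022464) (nat_lit 159744000)) (I.mix (nat_lit 229539840) (nat_lit 188235776)))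
  false (nat_lit 123079541)
def b2_3 : Bx := Bx.mk (St.mk (I.neg (nat_lit 37355520) (nat_lit 116244480)) (I.pos (nat_lit 0) (nat_lit 97320960)) (I.mix (nat_lit 31670272) (nat_lit 55738368)) (I.pos (nat_lit 278593536) (nat_lit 329433088)) (I.mix (nat_lit 131481600) (nat_lit 127188992)) (I.mix (nat_lit 117538816) (nat_lit 121913344)) (I.mix (nat_lit 103202816) (nat_lit 104054784)))
  true (nat_lit 36018866)
def b2_4 : Bx := Bx.mk (St.mk (I.pos (nat_lit 82886656) (nat_lit 117882880)) (I.neg (nat_lit 1785856) (nat_lit 43614208)) (I.pos (nat_lit 14860288) (nat_lit 55476224)) (I.pos (nat_lit 293896192) (nat_lit 328728576)) (I.mix (nat_lit 70615040) (nat_lit 88260608)) (I.mix (nat_lit 66977792) (nat_lit 81412096)) (I.mix (nat_lit 61243392) (nat_lit 67796992)))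
  false (nat_lit 3858339)
def b2_5 : Bx := Bx.mk (St.mk (I.mix (nat_lit 63471616) (nat_lit 17268736)) (I.mix (nat_lit 12107776) (nat_lit 90112000)) (I.mix (nat_lit 23003136) (nat_lit 2752512)) (I.pos (nat_lit 268500992) (nat_lit 302891008)) (I.mix (nat_lit 105775104) (nat_lit 124239872)) (I.mix (nat_lit 116834304) (nat_lit 108986368)) (I.mix (nat_lit 49397760) (nat_lit 35176448)))
  true (nat_lit 4906714)
def b2_6 : Bx := Bx.mk (St.mk (I.pos (nat_lit 25640960) (nat_lit 63471616)) (I.neg (nat_lit 37027840) (nat_lit 90112000)) (I.neg (nat_lit 4489216) (nat_lit 23003136)) (I.pos (nat_lit 278446080) (nat_lit 302891008)) (I.mix (nat_lit 124321792) (nat_lit 89997312)) (I.mix (nat_lit 108986368) (nat_lit 106971136)) (I.mix (nat_lit 49397760) (nat_lit 35258368)))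
  false (nat_lit 105744103)
def b2_7 : Bx := Bx.mk (St.mk (I.pos (nat_lit 170409984) (nat_lit 217972736)) (I.pos (nat_lit 5996544) (nat_lit 45744128)) (I.pos (nat_lit 21479424) (nat_lit 85180416)) (I.pos (nat_lit 395886592) (nat_lit 447053824)) (I.mix (nat_lit 128679936) (nat_lit 74989568)) (I.mix (nat_lit 92717056) (nat_lit 76120064)) (I.mix (nat_lit 127401984) (nat_lit 114016256)))
  false (nat_lit 49879332)
def b2_8 : Bx := Bx.mk (St.mk (I.pos (nat_lit 25264128) (nat_lit 54378496)) (I.neg (nat_lit 10878976) (nat_lit 47464448)) (I.mix (nat_lit 10092544) (nat_lit 1310720)) (I.pos (nat_lit 273711104) (nat_lit 286654464)) (I.mix (nat_lit 53329920) (nat_lit 71860224)) (I.mix (nat_lit 56295424) (nat_lit 53641216)) (I.mix (nat_lit 14303232) (nat_lit 15908864)))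
  false (nat_lit 0)
def b2_9 : Bx := Bx.mk (St.mk (I.pos (nat_lit 186155008) (nat_lit 279691264)) (I.mix (nat_lit 10354688) (nat_lit 56803328)) (I.mix (nat_lit 32849920) (nat_lit 99041280)) (I.pos (nat_lit 421101568) (nat_lit 565280768)) (I.mix (nat_lit 80396288) (nat_lit 73859072)) (I.mix (nat_lit 74874880) (nat_lit 72286208)) (I.mix (nat_lit 120471552) (nat_lit 113508352)))
  false (nat_lit 94103442)
def b2_10 : Bx := Bx.mk (St.mk (I.mix (nat_lit 7716864) (nat_lit 36454400)) (I.mix (nat_lit 44892160) (nat_lit 4702208)) (I.neg (nat_lit 3538944) (nat_lit 11616256)) (I.pos (nat_lit 269303808) (nat_lit 280936448)) (I.mix (nat_lit 37191680) (nat_lit 30359552)) (I.mix (nat_lit 28999680) (nat_lit 29769728)) (I.mix (nat_lit 7700480) (nat_lit 6389760)))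
  false (nat_lit 0)
def b2_11 : Bx := Bx.mk (St.mk (I.pos (nat_lit 224444416) (nat_lit 273907712)) (I.mix (nat_lit 26279936) (nat_lit 25165824)) (I.mix (nat_lit 60915712) (nat_lit 38060032)) (I.pos (nat_lit 475070464) (nat_lit 552992768)) (I.mix (nat_lit 83853312) (nat_lit 55083008)) (I.mix (nat_lit 60719104) (nat_lit 68567040)) (I.mix (nat_lit 97959936) (nat_lit 115867648)))
  false (nat_lit 41450013)
def b2_12 : Bx := Bx.mk (St.mk (I.mix (nat_lit 4947968) (nat_lit 29982720)) (I.mix (nat_lit 27426816) (nat_lit 12107776)) (I.neg (nat_lit 2392064) (nat_lit 9568256)) (I.pos (nat_lit 269385728) (nat_lit 277118976)) (I.mix (nat_lit 26624000) (nat_lit 33423360)) (I.mix (nat_lit 26804224) (nat_lit 23756800)) (I.mix (nat_lit 4751360) (nat_lit 4784128)))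
  false (nat_lit 0)
def b2_13 : Bx := Bx.mk (St.mk (I.pos (nat_lit 140017664) (nat_lit 198721536)) (I.pos (nat_lit 24133632) (nat_lit 80838656)) (I.pos (nat_lit 54198272) (nat_lit 137134080)) (I.pos (nat_lit 365019136) (nat_lit 423788544)) (I.mix (nat_lit 182403072) (nat_lit 125337600)) (I.mix (nat_lit 153010176) (nat_lit 100990976)) (I.mix (nat_lit 215089152) (nat_lit 147554304)))
  false (nat_lit 78361361)
def b2_14 : Bx := Bx.mk (St.mk (I.pos (nat_lit 25133056) (nat_lit 62816256)) (I.neg (nat_lit 22937600) (nat_lit 79380480)) (I.mix (nat_lit 21807104) (nat_lit 196608)) (I.pos (nat_lit 277889024) (nat_lit 295714816)) (I.mix (nat_lit 111804416) (nat_lit 105775104)) (I.mix (nat_lit 88145920) (nat_lit 116834304)) (I.mix (nat_lit 30687232) (nat_lit 31703040)))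
  false (nat_lit 85086171)
def b2_15 : Bx := Bx.mk (St.mk (I.pos (nat_lit 171900928) (nat_lit 221167616)) (I.pos (nat_lit 9879552) (nat_lit 50085888)) (I.pos (nat_lit 30195712) (nat_lit 91848704)) (I.pos (nat_lit 398032896) (nat_lit 453378048)) (I.mix (nat_lit 101482496) (nat_lit 84066304)) (I.mix (nat_lit 82837504) (nat_lit 78381056)) (I.mix (nat_lit 115490816) (nat_lit 122814464)))
  false (nat_lit 43194523)
def b2_16 : Bx := Bx.mk (St.mk (I.pos (nat_lit 22446080) (nat_lit 49577984)) (I.neg (nat_lit 10076160) (nat_lit 45072384)) (I.mix (nat_lit 10256384) (nat_lit 1163264)) (I.pos (nat_lit 273547264) (nat_lit 283869184)) (I.mix (nat_lit 59867136) (nat_lit 59883520)) (I.mix (nat_lit 51625984) (nat_lit 48824320)) (I.mix (nat_lit 12500992) (nat_lit 13123584)))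
  false (nat_lit 0)
def b2_17 : Bx := Bx.mk (St.mk (I.pos (nat_lit 188628992) (nat_lit 286654464)) (I.mix (nat_lit 20234240) (nat_lit 59179008)) (I.mix (nat_lit 52379648) (nat_lit 101761024)) (I.pos (nat_lit 422559744) (nat_lit 579108864)) (I.mix (nat_lit 87916544) (nat_lit 86736896)) (I.mix (nat_lit 92667904) (nat_lit 68534272)) (I.mix (nat_lit 157040640) (nat_lit 104464384)))
  false (nat_lit 108047028)
def b2_18 : Bx := Bx.mk (St.mk (I.mix (nat_lit 10813440) (nat_lit 36454400)) (I.mix (nat_lit 42778624) (nat_lit 9256960)) (I.neg (nat_lit 3424256) (nat_lit 12124160)) (I.pos (nat_lit 269303808) (nat_lit 280117248)) (I.mix (nat_lit 43073536) (nat_lit 33800192)) (I.mix (nat_lit 26296320) (nat_lit 36536320)) (I.mix (nat_lit 7471104) (nat_lit 6553600)))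
  false (nat_lit 0)
def b2_19 : Bx := Bx.mk (St.mk (I.pos (nat_lit 238387200) (nat_lit 274087936)) (I.mix (nat_lit 28835840) (nat_lit 9043968)) (I.mix (nat_lit 66240512) (nat_lit 4308992)) (I.pos (nat_lit 498221056) (nat_lit 553861120)) (I.mix (nat_lit 72728576) (nat_lit 47316992)) (I.mix (nat_lit 49709056) (nat_lit 55148544)) (I.mix (nat_lit 79347712) (nat_lit 92110848)))
  false (nat_lit 0)
def b2_20 : Bx := Bx.mk (St.mk (I.mix (nat_lit 4800512) (nat_lit 35225600)) (I.mix (nat_lit 33046528) (nat_lit 12517376)) (I.neg (nat_lit 2457600) (nat_lit 9322496)) (I.pos (nat_lit 269385728) (nat_lit 278724608)) (I.mix (nat_lit 22069248) (nat_lit 25690112)) (I.mix (nat_lit 19447808) (nat_lit 17891328)) (I.mix (nat_lit 3735552) (nat_lit 3719168)))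
  false (nat_lit 0)
def b2_21 : Bx := Bx.mk (St.mk (I.pos (nat_lit 29310976) (nat_lit 54149120)) (I.neg (nat_lit 19120128) (nat_lit 51937280)) (I.neg (nat_lit 524288) (nat_lit 11419648)) (I.pos (nat_lit 275480576) (nat_lit 287703040)) (I.mix (nat_lit 45318144) (nat_lit 47169536)) (I.mix (nat_lit 36044800) (nat_lit 41418752)) (I.mix (nat_lit 11534336) (nat_lit 11976704)))
  false (nat_lit 0)
def b2_22 : Bx := Bx.mk (St.mk (I.pos (nat_lit 243859456) (nat_lit 279576576)) (I.mix (nat_lit 25788416) (nat_lit 10076160)) (I.mix (nat_lit 63897600) (nat_lit 5586944)) (I.pos (nat_lit 508116992) (nat_lit 566591488)) (I.mix (nat_lit 54788096) (nat_lit 36945920)) (I.mix (nat_lit 45350912) (nat_lit 36782080)) (I.mix (nat_lit 76759040) (nat_lit 60293120)))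
  false (nat_lit 0)
def b2_23 : Bx := Bx.mk (St.mk (I.mix (nat_lit 7749632) (nat_lit 39550976)) (I.mix (nat_lit 39469056) (nat_lit 11452416)) (I.neg (nat_lit 2981888) (nat_lit 9650176)) (I.pos (nat_lit 269402112) (nat_lit 280723456)) (I.mix (nat_lit 20922368) (nat_lit 19644416)) (I.mix (nat_lit 14401536) (nat_lit 17580032)) (I.mix (nat_lit 3358720) (nat_lit 3457024)))
  false (nat_lit 0)
def b2_24 : Bx := Bx.mk (St.mk (I.pos (nat_lit 19464192) (nat_lit 34668544)) (I.neg (nat_lit 19005440) (nat_lit 37683200)) (I.neg (nat_lit 2801664) (nat_lit 10485760)) (I.pos (nat_lit 272498688) (nat_lit 280018944)) (I.mix (nat_lit 28180480) (nat_lit 21348352)) (I.mix (nat_lit 18743296) (nat_lit 23281664)) (I.mix (nat_lit 5390336) (nat_lit 5111808)))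
  false (nat_lit 0)
def t2 : BTr := (BTr.n (BTr.n (BTr.n (BTr.n (BTr.b b2_0) (BTr.n (BTr.b b2_1) (BTr.b b2_2))) (BTr.n (BTr.b b2_3) (BTr.n (BTr.b b2_4) (BTr.b b2_5)))) (BTr.n (BTr.n (BTr.b b2_6) (BTr.n (BTr.b b2_7) (BTr.b b2_8))) (BTr.n (BTr.b b2_9) (BTr.n (BTr.b b2_10) (BTr.b b2_11))))) (BTr.n (BTr.n (BTr.n (BTr.b b2_12) (BTr.n (BTr.b b2_13) (BTr.b b2_14))) (BTr.n (BTr.b b2_15) (BTr.n (BTr.b b2_16) (BTr.b b2_17)))) (BTr.n (BTr.n (BTr.b b2_18) (BTr.n (BTr.b b2_19) (BTr.b b2_20))) (BTr.n (BTr.n (BTr.b b2_21) (BTr.b b2_22)) (BTr.n (BTr.b b2_23) (BTr.b b2_24))))))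
namespace T2
def l0 : Tr := Tr.L (Pth.l (Pth.l (Pth.l (Pth.l Pth.z))))
def l1 : Tr := Tr.L (Pth.l (Pth.l (Pth.l (Pth.r (Pth.l Pth.z)))))
def l2 : Tr := Tr.L (Pth.l (Pth.l (Pth.l (Pth.r (Pth.r Pth.z)))))
def l3 : Tr := Tr.L (Pth.l (Pth.l (Pth.r (Pth.l Pth.z))))
def l4 : Tr := Tr.L (Pth.l (Pth.l (Pth.r (Pth.r (Pth.l Pth.z)))))
def l5 : Tr := Tr.L (Pth.l (Pth.l (Pth.r (Pth.r (Pth.r Pth.z)))))
def l6 : Tr := Tr.L (Pth.l (Pth.r (Pth.l (Pth.l Pth.z))))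
def l7 : Tr := Tr.L (Pth.l (Pth.r (Pth.l (Pth.r (Pth.l Pth.z)))))
def l8 : Tr := Tr.L (Pth.l (Pth.r (Pth.l (Pth.r (Pth.r Pth.z)))))
def l9 : Tr := Tr.L (Pth.l (Pth.r (Pth.r (Pth.l Pth.z))))
def l10 : Tr := Tr.L (Pth.l (Pth.r (Pth.r (Pth.r (Pth.l Pth.z)))))
def l11 : Tr := Tr.L (Pth.l (Pth.r (Pth.r (Pth.r (Pth.r Pth.z)))))
def l12 : Tr := Tr.L (Pth.r (Pth.l (Pth.l (Pth.l Pth.z))))
def l13 : Tr := Tr.L (Pth.r (Pth.l (Pth.l (Pth.r (Pth.l Pth.z)))))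
def l14 : Tr := Tr.L (Pth.r (Pth.l (Pth.l (Pth.r (Pth.r Pth.z)))))
def l15 : Tr := Tr.L (Pth.r (Pth.l (Pth.r (Pth.l Pth.z))))
def l16 : Tr := Tr.L (Pth.r (Pth.l (Pth.r (Pth.r (Pth.l Pth.z)))))
def l17 : Tr := Tr.L (Pth.r (Pth.l (Pth.r (Pth.r (Pth.r Pth.z)))))
def l18 : Tr := Tr.L (Pth.r (Pth.r (Pth.l (Pth.l Pth.z))))
def l19 : Tr := Tr.L (Pth.r (Pth.r (Pth.l (Pth.r (Pth.l Pth.z)))))
def l20 : Tr := Tr.L (Pth.r (Pth.r (Pth.l (Pth.r (Pth.r Pth.z)))))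
def l21 : Tr := Tr.L (Pth.r (Pth.r (Pth.r (Pth.l (Pth.l Pth.z)))))
def l22 : Tr := Tr.L (Pth.r (Pth.r (Pth.r (Pth.l (Pth.r Pth.z)))))
def l23 : Tr := Tr.L (Pth.r (Pth.r (Pth.r (Pth.r (Pth.l Pth.z)))))
def l24 : Tr := Tr.L (Pth.r (Pth.r (Pth.r (Pth.r (Pth.r Pth.z)))))
end T2
theorem bx0_0 : BoxOK sI cl4 cl4 cl9 t0 t2 b0_0 :=
  box_mk (TrL.c (I.pos (nat_lit 0) (nat_lit 0)) (xb (xa T0.l11 T0.l0) (xa (xb (xa T0.l11 T0.l0) (xa (xb T0.l11 (xs T0.l0 T0.l0)) (xb T0.l0 T0.l0))) (xb T0.l0 (xa (xb T0.l0 (xs T0.l0 T0.l0)) (xb T0.l0 (xs T0.l0 T0.l0))))))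
  (TrL.c (I.pos (nat_lit 0) (nat_lit 0)) (xb T2.l1 (xa T2.l1 T2.l1))
  (TrL.c (I.pos (nat_lit 0) (nat_lit 0)) T0.l1
  (TrL.c (I.pos (nat_lit 0) (nat_lit 0)) (xb T2.l2 (xa T2.l2 (xb T2.l2 T2.l2)))
  (TrL.c (I.pos (nat_lit 0) (nat_lit 0)) (xb (xa T0.l2 T0.l2) (xa T0.l2 T0.l2))
  (TrL.c (I.pos (nat_lit 0) (nat_lit 0)) (xb T2.l3 (xa T2.l3 T2.l3))
  TrL.n)))))) (by decide +kernel)
theorem bx0_1 : BoxOK sI cl4 cl4 cl9 t0 t2 b0_1 :=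
  box_mk (TrL.c (I.pos (nat_lit 0) (nat_lit 0)) (xb T2.l4 T2.l1)
  (TrL.c (I.pos (nat_lit 0) (nat_lit 0)) T0.l3
  TrL.n)) (by decide +kernel)
theorem bx0_2 : BoxOK sI cl4 cl4 cl9 t0 t2 b0_2 :=
  box_mk (TrL.c (I.pos (nat_lit 0) (nat_lit 0)) (xb (xa (xb (xs T0.l4 T0.l4) T0.l4) T0.l9) (xa T0.l4 T0.l9))
  (TrL.c (I.pos (nat_lit 0) (nat_lit 0)) T2.l1
  (TrL.c (I.pos (nat_lit 0) (nat_lit 0)) T0.l1
  (TrL.c (I.pos (nat_lit 0) (nat_lit 0)) T2.l2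
  (TrL.c (I.pos (nat_lit 0) (nat_lit 0)) T0.l10
  (TrL.c (I.pos (nat_lit 0) (nat_lit 0)) T2.l3
  TrL.n)))))) (by decide +kernel)
theorem bx0_3 : BoxOK sI cl4 cl4 cl9 t0 t2 b0_3 :=
  box_mk (TrL.c (I.pos (nat_lit 0) (nat_lit 0)) T2.l4
  (TrL.c (I.pos (nat_lit 0) (nat_lit 0)) T0.l3
  TrL.n)) (by decide +kernel)
theorem bx0_4 : BoxOK sI cl4 cl4 cl9 t0 t2 b0_4 :=
  box_mk (TrL.c (I.pos (nat_lit 0) (nat_lit 0)) (xa T0.l0 T0.l7)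
  (TrL.c (I.pos (nat_lit 0) (nat_lit 0)) (xa T2.l1 T2.l1)
  (TrL.c (I.pos (nat_lit 0) (nat_lit 0)) T0.l1
  (TrL.c (I.pos (nat_lit 0) (nat_lit 0)) (xa T2.l2 (xb T2.l2 T2.l2))
  (TrL.c (I.pos (nat_lit 0) (nat_lit 0)) T0.l2
  (TrL.c (I.pos (nat_lit 0) (nat_lit 0)) (xa T2.l3 T2.l3)
  TrL.n)))))) (by decide +kernel)
theorem bx0_5 : BoxOK sI cl4 cl4 cl9 t0 t2 b0_5 :=
  box_mk (TrL.c (I.pos (nat_lit 0) (nat_lit 0)) T0.l4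
  (TrL.c (I.pos (nat_lit 0) (nat_lit 0)) T2.l1
  (TrL.c (I.pos (nat_lit 0) (nat_lit 0)) T0.l1
  (TrL.c (I.pos (nat_lit 0) (nat_lit 0)) T2.l2
  (TrL.c (I.pos (nat_lit 0) (nat_lit 0)) T0.l5
  (TrL.c (I.pos (nat_lit 0) (nat_lit 0)) T2.l3
  TrL.n)))))) (by decide +kernel)
theorem bx0_6 : BoxOK sI cl4 cl4 cl9 t0 t2 b0_6 :=
  box_mk (TrL.c (I.pos (nat_lit 0) (nat_lit 0)) (xa (xb (xa (xb (xa (xs T0.l9 T0.l9) T0.l9) T0.l9) (xb T0.l9 T0.l9)) (xa (xb T0.l9 (xa T0.l9 T0.l9)) (xb T0.l9 T0.l9))) (xb (xa T0.l9 (xb (xa T0.l9 T0.l9) T0.l9)) (xa (xb T0.l9 T0.l9) (xb T0.l9 T0.l9))))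
  (TrL.c (I.pos (nat_lit 0) (nat_lit 0)) T2.l1
  (TrL.c (I.pos (nat_lit 0) (nat_lit 0)) (xa T0.l1 T0.l1)
  (TrL.c (I.pos (nat_lit 0) (nat_lit 0)) (xa T2.l2 T2.l2)
  (TrL.c (I.pos (nat_lit 0) (nat_lit 0)) (xa T0.l10 T0.l10)
  (TrL.c (I.pos (nat_lit 0) (nat_lit 0)) (xa (xb T2.l3 T2.l3) T2.l3)
  TrL.n)))))) (by decide +kernel)
def rc0_7_0_l : Tr := (xb (xb (xa (xa (xb (xs (xb (xs T0.l11 (xe T0.l11 T0.l11)) T0.l11) (xb (xs (xe (xb T0.l9 T0.l9) T0.l9) (xb (xe (xa (xs (xb T0.l9 T0.l9) (xb (xe (xa (xs T0.l9 (xb (xe T0.l9 T0.l9) T0.l9)) T0.l9) (xa (xs T0.l9 (xb T0.l9 T0.l9)) T0.l9)) (xe (xa T0.l9 T0.l9) T0.l9))) (xs T0.l9 (xb T0.l9 T0.l9))) (xa (xs T0.l9 (xb (xe (xa (xs T0.l9 T0.l9) T0.l9) (xa T0.l9 T0.l9)) (xe T0.l9 T0.l9))) (xs T0.l9 T0.l9))) (xe (xa (xs T0.l9 (xb T0.l9 T0.l9)) T0.l9) (xa (xs T0.l9 T0.l9) T0.l9)))) (xs (xb (xe T0.l11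 T0.l9) T0.l11) (xb (xe T0.l9 T0.l9) (xe (xa T0.l9 T0.l9) T0.l9))))) (xs T0.l11 (xb (xs T0.l11 (xb (xe T0.l11 T0.l11) T0.l11)) T0.l11))) (xb (xs T0.l11 (xb (xs T0.l9 (xb (xe T0.l9 T0.l9) T0.l9)) (xs T0.l11 (xb T0.l9 T0.l9)))) (xs T0.l11 T0.l11))) (xa (xb (xs T0.l11 (xb T0.l9 T0.l9)) T0.l11) (xb (xs T0.l11 (xb T0.l9 T0.l11)) T0.l11))) (xa (xb T0.l11 T0.l11) T0.l11)) (xa (xb (xa (xb T0.l11 T0.l11) T0.l11) (xb (xa T0.l11 T0.l11) (xa (xs T0.l11 T0.l11) T0.l11))) (xb T0.l11 (xa (xb T0.l11 T0.l11) T0.l11))))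
theorem qc0_7_0_l : chkTr (tg true true false RT.r2) b0_7 t0 rc0_7_0_l
  (upd lo Co.a (rc sI cl4 cl4 cl9 b0_7 (I.pos (nat_lit 0) (nat_lit 0)))) = true := by decide +kernel
def rc0_7_0_r : Tr := (xb (xa (xb (xb T0.l11 T0.l11) T0.l11) (xb (xa T0.l11 T0.l7) (xa T0.l11 T0.l11))) (xa (xb T0.l11 (xa T0.l11 T0.l11)) (xb (xa T0.l11 T0.l11) (xa T0.l11 (xb T0.l11 T0.l11)))))
theorem qc0_7_0_r : chkTr (tg true true false RT.r2) b0_7 t0 rc0_7_0_r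
  (upd hi Co.a (rc sI cl4 cl4 cl9 b0_7 (I.pos (nat_lit 0) (nat_lit 0)))) = true := by decide +kernel
theorem qc0_7_0_ : chkTr (tg true true false RT.r2) b0_7 t0 (Tr.N Co.a rc0_7_0_l rc0_7_0_r)
  (rc sI cl4 cl4 cl9 b0_7 (I.pos (nat_lit 0) (nat_lit 0))) = true := tr_split qc0_7_0_l qc0_7_0_r
theorem c0_7_0 : chkTag sI cl4 cl4 cl9 t0 b0_7 (tg true true false RT.r2) (I.pos (nat_lit 0) (nat_lit 0))
  (Tr.N Co.a rc0_7_0_l rc0_7_0_r) = true := tag_mk (by decide +kernel) qc0_7_0_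
theorem c0_7_1 : chkTag sI cl4 cl4 cl9 t2 b0_7 (tg true false false RT.r3) (I.pos (nat_lit 0) (nat_lit 0))
  (xa (xb T2.l1 (xb T2.l1 T2.l1)) (xb (xa T2.l1 T2.l1) (xa T2.l1 T2.l1))) = true := by decide +kernel
theorem c0_7_2 : chkTag sI cl4 cl4 cl9 t0 b0_7 (tg true true true RT.r4) (I.pos (nat_lit 0) (nat_lit 0))
  (xa (xb T0.l1 T0.l1) (xb T0.l1 (xs T0.l1 T0.l1))) = true := by decide +kernel
theorem c0_7_3 : chkTag sI cl4 cl4 cl9 t2 b0_7 (tg false false false RT.r3) (I.pos (nat_lit 0) (nat_lit 0))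
  (xb (xa (xb T2.l2 T2.l2) (xa T2.l2 (xb T2.l2 T2.l2))) (xa (xb T2.l2 T2.l2) (xa (xb T2.l2 (xs T2.l2 (xb T2.l2 (xc T2.l2 T2.l2)))) (xb (xs T2.l2 T2.l2) (xs (xb (xc T2.l2 T2.l2) (xs T2.l2 (xc T2.l2 T2.l2))) (xb (xc (xa T2.l2 (xs T2.l2 T2.l2)) (xs T2.l2 (xa T2.l2 T2.l2))) (xc (xs (xa T2.l2 (xe T2.l2 T2.l2)) (xa T2.l2 (xe T2.l2 (xb T2.l2 T2.l2)))) (xs (xa T2.l2 (xe T2.l2 T2.l2)) (xa T2.l2 (xe (xb T2.l2 T2.l2) T2.l2)))))))))) = true := by decide +kernel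
theorem c0_7_4 : chkTag sI cl4 cl4 cl9 t0 b0_7 (tg false true false RT.r4) (I.pos (nat_lit 0) (nat_lit 0))
  (xa (xb T0.l12 T0.l12) (xb T0.l12 (xs T0.l2 T0.l2))) = true := by decide +kernel
theorem c0_7_5 : chkTag sI cl4 cl4 cl9 t2 b0_7 (tg false false true RT.r5) (I.pos (nat_lit 0) (nat_lit 0))
  (xa (xb T2.l3 (xb T2.l3 T2.l3)) (xb (xa T2.l3 T2.l3) (xa T2.l3 T2.l3))) = true := by decide +kernel
theorem bx0_7 : BoxOK sI cl4 cl4 cl9 t0 t2 b0_7 :=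
  box_mk' [(tg true true false RT.r2), (tg true false false RT.r3), (tg true true true RT.r4), (tg false false false RT.r3), (tg false true false RT.r4), (tg false false true RT.r5)] rfl (allL_c (ex_mk c0_7_0) (allL_c (ex_mk c0_7_1) (allL_c (ex_mk c0_7_2) (allL_c (ex_mk c0_7_3) (allL_c (ex_mk c0_7_4) (allL_c (ex_mk c0_7_5) allL_n))))))
theorem bx0_8 : BoxOK sI cl4 cl4 cl9 t0 t2 b0_8 :=
  box_mk (TrL.c (I.pos (nat_lit 0) (nat_lit 0)) T2.l1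
  (TrL.c (I.pos (nat_lit 0) (nat_lit 0)) (xa T0.l1 T0.l1)
  TrL.n)) (by decide +kernel)
theorem bx0_9 : BoxOK sI cl4 cl4 cl9 t0 t2 b0_9 :=
  box_mk (TrL.c (I.pos (nat_lit 0) (nat_lit 0)) (xa (xb (xa T0.l0 T0.l0) (xa T0.l0 T0.l0)) (xb T0.l7 (xa T0.l0 T0.l0)))
  (TrL.c (I.pos (nat_lit 0) (nat_lit 0)) (xa T2.l1 (xb T2.l1 T2.l1))
  (TrL.c (I.pos (nat_lit 0) (nat_lit 0)) T0.l1
  (TrL.c (I.pos (nat_lit 0) (nat_lit 0)) (xa T2.l2 (xb T2.l2 T2.l2))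
  (TrL.c (I.pos (nat_lit 0) (nat_lit 0)) T0.l6
  (TrL.c (I.pos (nat_lit 0) (nat_lit 0)) (xa T2.l3 (xb T2.l3 T2.l3))
  TrL.n)))))) (by decide +kernel)
theorem bx0_10 : BoxOK sI cl4 cl4 cl9 t0 t2 b0_10 :=
  box_mk (TrL.c (I.pos (nat_lit 0) (nat_lit 0)) (xb T0.l4 (xa T0.l4 T0.l4))
  (TrL.c (I.pos (nat_lit 0) (nat_lit 0)) T2.l1
  (TrL.c (I.pos (nat_lit 0) (nat_lit 0)) T0.l1
  (TrL.c (I.pos (nat_lit 0) (nat_lit 0)) T2.l2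
  (TrL.c (I.pos (nat_lit 0) (nat_lit 0)) T0.l5
  (TrL.c (I.pos (nat_lit 0) (nat_lit 0)) T2.l3
  TrL.n)))))) (by decide +kernel)
theorem bx0_11 : BoxOK sI cl4 cl4 cl9 t0 t2 b0_11 :=
  box_mk (TrL.c (I.pos (nat_lit 0) (nat_lit 0)) (xa (xb (xa T0.l11 (xb T0.l7 T0.l11)) (xa (xb T0.l11 (xs T0.l11 (xb T0.l11 (xa T0.l11 T0.l11)))) (xb (xa T0.l11 T0.l0) (xs T0.l0 (xb T0.l0 (xa (xc T0.l0 T0.l0) T0.l0)))))) (xb (xa (xb T0.l0 T0.l0) (xb T0.l0 T0.l0)) (xa (xb (xs T0.l0 T0.l0) (xs T0.l0 (xa T0.l0 T0.l0))) (xb (xs T0.l0 T0.l0) (xs T0.l0 (xa T0.l0 (xb T0.l0 T0.l0)))))))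
  (TrL.c (I.pos (nat_lit 0) (nat_lit 0)) (xa (xb T2.l1 T2.l1) (xb (xa T2.l1 T2.l1) (xa T2.l1 T2.l1)))
  (TrL.c (I.pos (nat_lit 0) (nat_lit 0)) (xa (xb T0.l1 T0.l1) (xs (xb T0.l1 T0.l1) (xb T0.l1 (xc T0.l1 T0.l1))))
  (TrL.c (I.pos (nat_lit 0) (nat_lit 0)) (xa (xb T2.l2 (xs T2.l2 (xb T2.l2 T2.l2))) (xb (xa T2.l2 (xb (xs T2.l2 T2.l2) T2.l2)) (xs (xa T2.l2 (xb T2.l2 T2.l2)) (xa (xb T2.l2 (xc T2.l2 T2.l2)) (xb T2.l2 (xc T2.l2 T2.l2))))))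
  (TrL.c (I.pos (nat_lit 0) (nat_lit 0)) (xa (xb T0.l2 T0.l2) (xs (xb T0.l2 T0.l2) (xb T0.l2 T0.l2)))
  (TrL.c (I.pos (nat_lit 0) (nat_lit 0)) (xa (xb T2.l3 T2.l3) (xb (xa T2.l3 T2.l3) (xa T2.l3 T2.l3)))
  TrL.n)))))) (by decide +kernel)
theorem bx0_12 : BoxOK sI cl4 cl4 cl9 t0 t2 b0_12 :=
  box_mk (TrL.c (I.pos (nat_lit 0) (nat_lit 0)) (xb (xa (xb (xa T0.l4 T0.l4) T0.l4) T0.l4) (xa T0.l4 T0.l4))
  (TrL.c (I.pos (nat_lit 0) (nat_lit 0)) T2.l1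
  (TrL.c (I.pos (nat_lit 0) (nat_lit 0)) T0.l1
  (TrL.c (I.pos (nat_lit 0) (nat_lit 0)) T2.l2
  (TrL.c (I.pos (nat_lit 0) (nat_lit 0)) T0.l10
  (TrL.c (I.pos (nat_lit 0) (nat_lit 0)) T2.l3
  TrL.n)))))) (by decide +kernel)
theorem sv0 : StarV sI cl4 cl4 cl9 t0 t2 t0 :=
  (bt_n (bt_n (bt_n (bt_b bx0_0) (bt_n (bt_b bx0_1) (bt_b bx0_2))) (bt_n (bt_b bx0_3) (bt_n (bt_b bx0_4) (bt_b bx0_5)))) (bt_n (bt_n (bt_b bx0_6) (bt_n (bt_b bx0_7) (bt_b bx0_8))) (bt_n (bt_n (bt_b bx0_9) (bt_b bx0_10)) (bt_n (bt_b bx0_11) (bt_b bx0_12)))))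
def S0 : StarD := StarD.mk cl4 cl4 cl9 0 2 t0
theorem bx1_0 : BoxOK sI cl4 cl9 cl4 t2 t0 b1_0 :=
  box_mk (TrL.c (I.pos (nat_lit 0) (nat_lit 0)) (xa (xb (xa T2.l0 T2.l0) (xa (xb T2.l0 (xa (xs T2.l0 T2.l0) (xs T2.l0 T2.l0))) (xb T2.l0 (xa (xs T2.l0 T2.l0) (xs T2.l0 T2.l0))))) (xb (xa T2.l0 (xb T2.l0 T2.l2)) (xa (xb T2.l0 (xa (xs T2.l0 T2.l0) (xs T2.l0 T2.l2))) (xb T2.l2 (xs T2.l2 (xa T2.l2 T2.l2))))))
  (TrL.c (I.pos (nat_lit 0) (nat_lit 0)) (xa T0.l6 (xb T0.l6 (xa T0.l6 (xs T0.l6 T0.l6))))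
  (TrL.c (I.pos (nat_lit 0) (nat_lit 0)) T2.l5
  (TrL.c (I.pos (nat_lit 0) (nat_lit 0)) T0.l7
  (TrL.c (I.pos (nat_lit 0) (nat_lit 0)) (xa T2.l6 T2.l6)
  (TrL.c (I.pos (nat_lit 0) (nat_lit 0)) (xa T0.l8 (xb T0.l8 (xa T0.l8 (xs T0.l8 T0.l8))))
  TrL.n)))))) (by decide +kernel)
theorem bx1_1 : BoxOK sI cl4 cl9 cl4 t2 t0 b1_1 :=
  box_mk (TrL.c (I.pos (nat_lit 0) (nat_lit 0)) (xa (xb T2.l0 (xa (xb T2.l7 T2.l7) T2.l7)) T2.l0)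
  (TrL.c (I.pos (nat_lit 0) (nat_lit 0)) T0.l6
  (TrL.c (I.pos (nat_lit 0) (nat_lit 0)) T2.l5
  (TrL.c (I.pos (nat_lit 0) (nat_lit 0)) T0.l7
  (TrL.c (I.pos (nat_lit 0) (nat_lit 0)) T2.l8
  (TrL.c (I.pos (nat_lit 0) (nat_lit 0)) T0.l8
  TrL.n)))))) (by decide +kernel)
theorem bx1_2 : BoxOK sI cl4 cl9 cl4 t2 t0 b1_2 :=
  box_mk (TrL.c (I.pos (nat_lit 0) (nat_lit 0)) (xa (xa (xb T2.l9 (xa T2.l9 T2.l9)) T2.l17) (xa (xb T2.l17 T2.l17) (xa (xb T2.l17 T2.l17) (xb T2.l15 T2.l17))))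
  (TrL.c (I.pos (nat_lit 0) (nat_lit 0)) (xa T0.l6 T0.l6)
  (TrL.c (I.pos (nat_lit 0) (nat_lit 0)) T2.l5
  (TrL.c (I.pos (nat_lit 0) (nat_lit 0)) T0.l7
  (TrL.c (I.pos (nat_lit 0) (nat_lit 0)) (xa T2.l10 (xa T2.l10 T2.l10))
  (TrL.c (I.pos (nat_lit 0) (nat_lit 0)) (xa T0.l8 T0.l8)
  TrL.n)))))) (by decide +kernel)
theorem bx1_3 : BoxOK sI cl4 cl9 cl4 t2 t0 b1_3 :=
  box_mk (TrL.c (I.pos (nat_lit 0) (nat_lit 0)) (xa (xa (xb T2.l11 T2.l17) T2.l11) (xa T2.l17 T2.l17))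
  (TrL.c (I.pos (nat_lit 0) (nat_lit 0)) (xa T0.l6 T0.l6)
  (TrL.c (I.pos (nat_lit 0) (nat_lit 0)) T2.l5
  (TrL.c (I.pos (nat_lit 0) (nat_lit 0)) (xa T0.l7 T0.l7)
  (TrL.c (I.pos (nat_lit 0) (nat_lit 0)) T2.l12
  (TrL.c (I.pos (nat_lit 0) (nat_lit 0)) (xa T0.l8 T0.l8)
  TrL.n)))))) (by decide +kernel)
theorem bx1_4 : BoxOK sI cl4 cl9 cl4 t2 t0 b1_4 :=
  box_mk (TrL.c (I.pos (nat_lit 0) (nat_lit 0)) (xb (xa (xb T2.l13 (xa T2.l13 T2.l13)) (xb (xa T2.l13 (xb (xs T2.l13 (xb T2.l13 T2.l13)) T2.l13)) (xa T2.l13 (xb T2.l13 (xs T2.l13 T2.l13))))) (xa (xb (xa (xb T2.l13 T2.l13) T2.l13) (xa (xs (xb T2.l13 T2.l13) (xb T2.l13 (xa T2.l13 T2.l13))) (xs (xb T2.l13 T2.l13) (xb T2.l13 (xa T2.l13 T2.l13))))) (xb (xa T2.l13 (xs T2.l13 (xb T2.l13 (xa T2.l13 T2.l13)))) (xa (xs (xb T2.l13 T2.l13) (xb T2.l13 (xa T2.l13 T2.l13))) (xs (xb T2.l13 (xa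 T2.l13 T2.l13)) (xb (xa T2.l13 T2.l13) (xa T2.l13 T2.l0)))))))
  (TrL.c (I.pos (nat_lit 0) (nat_lit 0)) (xb (xa T0.l6 T0.l6) (xa (xb T0.l6 (xa T0.l6 T0.l6)) (xb T0.l6 (xs T0.l6 T0.l6))))
  (TrL.c (I.pos (nat_lit 0) (nat_lit 0)) T2.l5
  (TrL.c (I.pos (nat_lit 0) (nat_lit 0)) (xb T0.l7 (xa T0.l7 (xb T0.l7 T0.l7)))
  (TrL.c (I.pos (nat_lit 0) (nat_lit 0)) (xb T2.l14 (xa T2.l14 T2.l14))
  (TrL.c (I.pos (nat_lit 0) (nat_lit 0)) (xb (xa T0.l8 T0.l8) (xa (xb T0.l8 (xa T0.l8 T0.l8)) (xb T0.l8 (xs T0.l8 T0.l8))))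
  TrL.n)))))) (by decide +kernel)
theorem bx1_5 : BoxOK sI cl4 cl9 cl4 t2 t0 b1_5 :=
  box_mk (TrL.c (I.pos (nat_lit 0) (nat_lit 0)) (xb (xa T2.l7 T2.l0) (xa (xb T2.l15 T2.l15) T2.l0))
  (TrL.c (I.pos (nat_lit 0) (nat_lit 0)) T0.l6
  (TrL.c (I.pos (nat_lit 0) (nat_lit 0)) T2.l5
  (TrL.c (I.pos (nat_lit 0) (nat_lit 0)) T0.l7
  (TrL.c (I.pos (nat_lit 0) (nat_lit 0)) T2.l16
  (TrL.c (I.pos (nat_lit 0) (nat_lit 0)) T0.l8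
  TrL.n)))))) (by decide +kernel)
theorem bx1_6 : BoxOK sI cl4 cl9 cl4 t2 t0 b1_6 :=
  box_mk (TrL.c (I.pos (nat_lit 0) (nat_lit 0)) (xa (xa (xb T2.l17 (xa (xb T2.l17 T2.l17) T2.l17)) (xb T2.l17 T2.l17)) (xa (xb T2.l17 T2.l17) (xb (xa T2.l17 (xb T2.l17 T2.l17)) (xa T2.l17 (xb T2.l17 (xa T2.l17 T2.l17))))))
  (TrL.c (I.pos (nat_lit 0) (nat_lit 0)) (xa T0.l6 T0.l6)
  (TrL.c (I.pos (nat_lit 0) (nat_lit 0)) T2.l5
  (TrL.c (I.pos (nat_lit 0) (nat_lit 0)) (xa T0.l7 T0.l7)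
  (TrL.c (I.pos (nat_lit 0) (nat_lit 0)) (xa T2.l18 T2.l18)
  (TrL.c (I.pos (nat_lit 0) (nat_lit 0)) (xa T0.l8 T0.l8)
  TrL.n)))))) (by decide +kernel)
theorem bx1_7 : BoxOK sI cl4 cl9 cl4 t2 t0 b1_7 :=
  box_mk (TrL.c (I.pos (nat_lit 0) (nat_lit 0)) (xa (xa (xb T2.l19 (xa T2.l19 T2.l19)) T2.l11) T2.l17)
  (TrL.c (I.pos (nat_lit 0) (nat_lit 0)) (xa T0.l6 T0.l6)
  (TrL.c (I.pos (nat_lit 0) (nat_lit 0)) (xa T2.l5 T2.l5)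
  (TrL.c (I.pos (nat_lit 0) (nat_lit 0)) (xa T0.l7 T0.l7)
  (TrL.c (I.pos (nat_lit 0) (nat_lit 0)) (xa T2.l20 T2.l20)
  (TrL.c (I.pos (nat_lit 0) (nat_lit 0)) (xa T0.l8 T0.l8)
  TrL.n)))))) (by decide +kernel)
theorem bx1_8 : BoxOK sI cl4 cl9 cl4 t2 t0 b1_8 :=
  box_mk (TrL.c (I.pos (nat_lit 0) (nat_lit 0)) (xa (xb T2.l0 T2.l0) (xb T2.l2 T2.l2))
  (TrL.c (I.pos (nat_lit 0) (nat_lit 0)) (xa T0.l6 (xb T0.l6 T0.l6))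
  (TrL.c (I.pos (nat_lit 0) (nat_lit 0)) T2.l3
  (TrL.c (I.pos (nat_lit 0) (nat_lit 0)) (xa T0.l7 T0.l7)
  (TrL.c (I.pos (nat_lit 0) (nat_lit 0)) T2.l1
  (TrL.c (I.pos (nat_lit 0) (nat_lit 0)) (xa T0.l8 (xb T0.l8 T0.l8))
  TrL.n)))))) (by decide +kernel)
theorem bx1_9 : BoxOK sI cl4 cl9 cl4 t2 t0 b1_9 :=
  box_mk (TrL.c (I.pos (nat_lit 0) (nat_lit 0)) (xb T2.l0 T2.l0)
  (TrL.c (I.pos (nat_lit 0) (nat_lit 0)) T0.l6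
  (TrL.c (I.pos (nat_lit 0) (nat_lit 0)) T2.l5
  (TrL.c (I.pos (nat_lit 0) (nat_lit 0)) T0.l7
  (TrL.c (I.pos (nat_lit 0) (nat_lit 0)) T2.l14
  (TrL.c (I.pos (nat_lit 0) (nat_lit 0)) T0.l8
  TrL.n)))))) (by decide +kernel)
theorem bx1_10 : BoxOK sI cl4 cl9 cl4 t2 t0 b1_10 :=
  box_mk (TrL.c (I.pos (nat_lit 0) (nat_lit 0)) (xa (xb (xa (xb (xs T2.l0 T2.l0) (xs T2.l0 T2.l0)) (xb T2.l0 (xs T2.l0 T2.l0))) (xa (xb (xs T2.l0 T2.l0) (xs (xa T2.l0 T2.l0) (xa T2.l0 T2.l0))) (xs (xb T2.l0 (xa T2.l0 T2.l0)) (xb (xa T2.l0 T2.l0) (xa (xb T2.l0 T2.l0) (xb T2.l0 T2.l0)))))) (xb (xa (xb (xs T2.l0 T2.l0) (xs T2.l0 (xb T2.l0 T2.l0))) (xb (xs T2.l0 (xb T2.l0 T2.l0)) (xs (xb T2.l0 T2.l0) (xb T2.l0 (xs T2.l0 T2.l0))))) (xa (xs (xb T2.l0 T2.l2) (xb (xb T2.l0 (xs T2.l0 T2.l0)) (xb (xs T2.l0 (xa T2.l0 T2.l0)) (xs T2.l2 (xa T2.l0 T2.l2))))) (xs (xb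 T2.l0 (xs T2.l2 (xb T2.l0 T2.l2))) (xb (xb (xs T2.l0 T2.l0) (xs T2.l0 (xa T2.l0 T2.l0))) (xb (xs T2.l0 (xa T2.l0 (xb T2.l0 T2.l0))) (xs (xa T2.l2 T2.l2) (xa (xs T2.l2 T2.l2) (xs T2.l2 T2.l2)))))))))
  (TrL.c (I.pos (nat_lit 0) (nat_lit 0)) (xa (xb (xa T0.l6 T0.l6) (xs T0.l6 (xa T0.l6 T0.l6))) (xb (xa T0.l6 (xs T0.l6 T0.l6)) (xs (xa T0.l6 T0.l6) (xa T0.l6 T0.l6))))
  (TrL.c (I.pos (nat_lit 0) (nat_lit 0)) (xa T2.l5 T2.l3)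
  (TrL.c (I.pos (nat_lit 0) (nat_lit 0)) (xa T0.l7 (xb (xa T0.l7 T0.l7) (xa T0.l7 (xb T0.l7 T0.l7))))
  (TrL.c (I.pos (nat_lit 0) (nat_lit 0)) (xa T2.l6 T2.l1)
  (TrL.c (I.pos (nat_lit 0) (nat_lit 0)) (xa (xb (xa T0.l8 T0.l8) (xs T0.l8 (xa T0.l8 T0.l8))) (xb (xa T0.l8 (xs T0.l8 T0.l8)) (xs (xa T0.l8 T0.l8) (xa T0.l8 T0.l8))))
  TrL.n)))))) (by decide +kernel)
theorem bx1_11 : BoxOK sI cl4 cl9 cl4 t2 t0 b1_11 :=
  box_mk (TrL.c (I.pos (nat_lit 0) (nat_lit 0)) (xb (xa (xb (xa (xs T2.l13 (xb (xs T2.l13 (xb T2.l13 T2.l13)) T2.l13)) T2.l13) (xa T2.l13 T2.l13)) (xb (xa T2.l13 T2.l13) (xa T2.l13 T2.l13))) (xa (xb (xa T2.l13 T2.l13) (xa (xs T2.l13 T2.l13) T2.l13)) (xb (xa T2.l13 T2.l13) (xa T2.l13 T2.l13))))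
  (TrL.c (I.pos (nat_lit 0) (nat_lit 0)) (xb (xa T0.l6 T0.l6) (xa T0.l6 (xa T0.l6 T0.l6)))
  (TrL.c (I.pos (nat_lit 0) (nat_lit 0)) T2.l5
  (TrL.c (I.pos (nat_lit 0) (nat_lit 0)) (xb (xa T0.l7 (xb T0.l7 T0.l7)) (xa T0.l7 T0.l7))
  (TrL.c (I.pos (nat_lit 0) (nat_lit 0)) T2.l14
  (TrL.c (I.pos (nat_lit 0) (nat_lit 0)) (xb (xa T0.l8 T0.l8) (xa T0.l8 (xa T0.l8 T0.l8)))
  TrL.n)))))) (by decide +kernel)
theorem bx1_12 : BoxOK sI cl4 cl9 cl4 t2 t0 b1_12 :=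
  box_mk (TrL.c (I.pos (nat_lit 0) (nat_lit 0)) T2.l0
  (TrL.c (I.pos (nat_lit 0) (nat_lit 0)) T0.l6
  (TrL.c (I.pos (nat_lit 0) (nat_lit 0)) T2.l5
  (TrL.c (I.pos (nat_lit 0) (nat_lit 0)) T0.l7
  (TrL.c (I.pos (nat_lit 0) (nat_lit 0)) T2.l21
  (TrL.c (I.pos (nat_lit 0) (nat_lit 0)) T0.l8
  TrL.n)))))) (by decide +kernel)
theorem bx1_13 : BoxOK sI cl4 cl9 cl4 t2 t0 b1_13 :=
  box_mk (TrL.c (I.pos (nat_lit 0) (nat_lit 0)) (xa T2.l9 T2.l15)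
  (TrL.c (I.pos (nat_lit 0) (nat_lit 0)) T0.l6
  (TrL.c (I.pos (nat_lit 0) (nat_lit 0)) T2.l5
  (TrL.c (I.pos (nat_lit 0) (nat_lit 0)) T0.l7
  (TrL.c (I.pos (nat_lit 0) (nat_lit 0)) T2.l24
  (TrL.c (I.pos (nat_lit 0) (nat_lit 0)) T0.l8
  TrL.n)))))) (by decide +kernel)
theorem bx1_14 : BoxOK sI cl4 cl9 cl4 t2 t0 b1_14 :=
  box_mk (TrL.c (I.pos (nat_lit 0) (nat_lit 0)) (xa (xa (xa (xb T2.l22 T2.l22) T2.l11) T2.l9) (xa T2.l9 (xa T2.l9 T2.l9)))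
  (TrL.c (I.pos (nat_lit 0) (nat_lit 0)) (xa T0.l6 T0.l6)
  (TrL.c (I.pos (nat_lit 0) (nat_lit 0)) (xa T2.l5 T2.l5)
  (TrL.c (I.pos (nat_lit 0) (nat_lit 0)) (xa T0.l7 T0.l7)
  (TrL.c (I.pos (nat_lit 0) (nat_lit 0)) (xa T2.l23 T2.l23)
  (TrL.c (I.pos (nat_lit 0) (nat_lit 0)) (xa T0.l8 T0.l8)
  TrL.n)))))) (by decide +kernel)
theorem bx1_15 : BoxOK sI cl4 cl9 cl4 t2 t0 b1_15 :=
  box_mk (TrL.c (I.pos (nat_lit 0) (nat_lit 0)) T2.l17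
  (TrL.c (I.pos (nat_lit 0) (nat_lit 0)) T0.l6
  (TrL.c (I.pos (nat_lit 0) (nat_lit 0)) T2.l5
  (TrL.c (I.pos (nat_lit 0) (nat_lit 0)) T0.l7
  (TrL.c (I.pos (nat_lit 0) (nat_lit 0)) T2.l18
  (TrL.c (I.pos (nat_lit 0) (nat_lit 0)) T0.l8
  TrL.n)))))) (by decide +kernel)
theorem bx1_16 : BoxOK sI cl4 cl9 cl4 t2 t0 b1_16 :=
  box_mk (TrL.c (I.pos (nat_lit 0) (nat_lit 0)) (xa (xb (xa T2.l0 T2.l2) T2.l0) T2.l2)
  (TrL.c (I.pos (nat_lit 0) (nat_lit 0)) (xa T0.l6 (xa T0.l6 (xb T0.l6 T0.l6)))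
  (TrL.c (I.pos (nat_lit 0) (nat_lit 0)) T2.l3
  (TrL.c (I.pos (nat_lit 0) (nat_lit 0)) (xa T0.l7 (xb T0.l0 T0.l7))
  (TrL.c (I.pos (nat_lit 0) (nat_lit 0)) T2.l1
  (TrL.c (I.pos (nat_lit 0) (nat_lit 0)) (xa T0.l8 (xa T0.l8 (xb T0.l8 T0.l8)))
  TrL.n)))))) (by decide +kernel)
theorem bx1_17 : BoxOK sI cl4 cl9 cl4 t2 t0 b1_17 :=
  box_mk (TrL.c (I.pos (nat_lit 0) (nat_lit 0)) T2.l0
  (TrL.c (I.pos (nat_lit 0) (nat_lit 0)) T0.l6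
  (TrL.c (I.pos (nat_lit 0) (nat_lit 0)) T2.l5
  (TrL.c (I.pos (nat_lit 0) (nat_lit 0)) T0.l7
  (TrL.c (I.pos (nat_lit 0) (nat_lit 0)) T2.l14
  (TrL.c (I.pos (nat_lit 0) (nat_lit 0)) T0.l8
  TrL.n)))))) (by decide +kernel)
theorem bx1_18 : BoxOK sI cl4 cl9 cl4 t2 t0 b1_18 :=
  box_mk (TrL.c (I.pos (nat_lit 0) (nat_lit 0)) (xa T2.l0 T2.l2)
  (TrL.c (I.pos (nat_lit 0) (nat_lit 0)) T0.l6
  (TrL.c (I.pos (nat_lit 0) (nat_lit 0)) T2.l5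
  (TrL.c (I.pos (nat_lit 0) (nat_lit 0)) T0.l7
  (TrL.c (I.pos (nat_lit 0) (nat_lit 0)) T2.l6
  (TrL.c (I.pos (nat_lit 0) (nat_lit 0)) T0.l8
  TrL.n)))))) (by decide +kernel)
theorem sv1 : StarV sI cl4 cl9 cl4 t2 t0 t1 :=
  (bt_n (bt_n (bt_n (bt_n (bt_b bx1_0) (bt_b bx1_1)) (bt_n (bt_b bx1_2) (bt_b bx1_3))) (bt_n (bt_n (bt_b bx1_4) (bt_b bx1_5)) (bt_n (bt_b bx1_6) (bt_n (bt_b bx1_7) (bt_b bx1_8))))) (bt_n (bt_n (bt_n (bt_b bx1_9) (bt_b bx1_10)) (bt_n (bt_b bx1_11) (bt_n (bt_b bx1_12) (bt_b bx1_13)))) (bt_n (bt_n (bt_b bx1_14) (bt_b bx1_15)) (bt_n (bt_b bx1_16) (bt_n (bt_b bx1_17) (bt_b bx1_18))))))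
def S1 : StarD := StarD.mk cl4 cl9 cl4 2 0 t1
theorem c2_0_0 : chkTag sI cl9 cl4 cl4 t1 b2_0 (tg true true false RT.r2) (I.pos (nat_lit 0) (nat_lit 0))
  (xa (xb (xa T1.l10 (xb T1.l0 T1.l10)) (xa (xb T1.l10 (xs T1.l10 (xa T1.l10 T1.l10))) (xb (xs T1.l0 T1.l10) (xs (xa T1.l0 T1.l0) (xa T1.l10 T1.l10))))) (xb (xa (xb T1.l0 T1.l0) T1.l0) (xa (xb (xs T1.l0 T1.l0) (xs T1.l0 (xa T1.l0 T1.l0))) (xb T1.l0 (xs T1.l0 (xa T1.l0 T1.l0)))))) = true := by decide +kernel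
theorem c2_0_1 : chkTag sI cl9 cl4 cl4 t1 b2_0 (tg true false false RT.r3) (I.pos (nat_lit 0) (nat_lit 0))
  (xa (xb T1.l1 (xk T1.l1 T1.l1)) (xk (xb T1.l1 T1.l1) T1.l1)) = true := by decide +kernel
theorem c2_0_2 : chkTag sI cl9 cl4 cl4 t1 b2_0 (Tag.mk true true false RT.tl RT.r4) (I.pos (nat_lit 0) (nat_lit 124588530))
  (xR (xR T1.l6 T1.l2) (xR T1.l2 (xR T1.l2 (xa T1.l2 T1.l6)))) = true := by decide +kernel
theorem c2_0_3 : chkTag sI cl9 cl4 cl4 t1 b2_0 (Tag.mk true false false RT.tl RT.r5) (I.pos (nat_lit 0) (nat_lit 96881482))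
  (xR (xR T1.l3 T1.l3) (xR T1.l3 T1.l3)) = true := by decide +kernel
def rc2_0_4_l : Tr := (xb T1.l4 (xb (xk T1.l4 T1.l4) (xk (xs T1.l4 (xa T1.l4 (xb T1.l4 T1.l4))) (xs (xa T1.l4 T1.l4) (xa T1.l4 (xb T1.l4 (xk T1.l4 T1.l4)))))))
theorem qc2_0_4_l : chkTr (tg false false false RT.r3) b2_0 t1 rc2_0_4_l
  (upd lo Co.a (rc sI cl9 cl4 cl4 b2_0 (I.pos (nat_lit 0) (nat_lit 0)))) = true := by decide +kernel
def rc2_0_4_rl : Tr := (xk (xb T1.l4 T1.l4) (xb T1.l4 (xa T1.l4 T1.l4)))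
theorem qc2_0_4_rl : chkTr (tg false false false RT.r3) b2_0 t1 rc2_0_4_rl
  (upd lo Co.b (upd hi Co.a (rc sI cl9 cl4 cl4 b2_0 (I.pos (nat_lit 0) (nat_lit 0))))) = true := by decide +kernel
def rc2_0_4_rrl : Tr := (xb (xa T1.l4 (xs T1.l4 (xb T1.l4 (xk T1.l4 T1.l4)))) (xs (xa (xb T1.l4 T1.l4) (xk (xb T1.l4 (xs T1.l4 T1.l4)) (xb T1.l4 (xs T1.l4 (xa T1.l4 T1.l4))))) (xa (xb T1.l4 (xk T1.l4 (xs T1.l4 T1.l4))) (xb (xk (xa T1.l4 T1.l4) (xa T1.l4 (xs T1.l4 T1.l4))) (xk (xs (xa T1.l4 T1.l4) (xa T1.l4 (xk T1.l4 T1.l4))) (xs (xa T1.l4 (xk T1.l4 T1.l4)) (xa (xb T1.l4 T1.l4) (xb T1.l4 (xk T1.l4 T1.l4)))))))))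
theorem qc2_0_4_rrl : chkTr (tg false false false RT.r3) b2_0 t1 rc2_0_4_rrl
  (upd lo Co.k (upd hi Co.b (upd hi Co.a (rc sI cl9 cl4 cl4 b2_0 (I.pos (nat_lit 0) (nat_lit 0)))))) = true := by decide +kernel
def rc2_0_4_rrr : Tr := (xb (xa (xs T1.l4 (xb T1.l4 T1.l4)) (xs (xb T1.l4 T1.l4) (xb T1.l4 (xk T1.l4 (xa T1.l4 T1.l4))))) (xs (xa (xb T1.l4 (xk T1.l4 T1.l4)) (xk (xb T1.l4 (xs T1.l4 (xa T1.l4 T1.l4))) (xb (xs T1.l4 T1.l4) (xs (xa T1.l4 T1.l4) (xa T1.l4 (xb T1.l4 (xk T1.l4 T1.l4))))))) (xa (xb (xk T1.l4 T1.l4) (xk (xs T1.l4 (xa T1.l4 T1.l4)) (xs (xa T1.l0 (xb T1.l4 T1.l4)) (xa T1.l4 (xb T1.l4 T1.l4))))) (xb (xk (xa T1.l4 (xs T1.l4 (xb T1.l4 T1.l4))) (xa (xs T1.l4 T1.l4) (xs T1.l4 (xb T1.l4 (xk T1.l4 T1.l4))))) (xk (xs (xa T1.l4 (xb T1.l4 (xk T1.l4 T1.l4))) (xa (xb T1.l4 (xk T1.l4 T1.l4)) (xb (xk T1.l4 T1.l4) (xk (xs T1.l4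 T1.l4) (xs T1.l4 (xa T1.l4 T1.l4)))))) (xs (xa (xb T1.l4 T1.l4) (xb (xk T1.l4 T1.l4) (xk (xs T1.l4 T1.l4) (xs T1.l4 T1.l4)))) (xa (xb T1.l4 (xk T1.l4 (xa T1.l4 T1.l4))) (xb (xk (xa T1.l4 T1.l4) (xa T1.l4 T1.l4)) (xk (xa T1.l4 (xs T1.l4 T1.l4)) (xa (xs T1.l4 T1.l4) (xs T1.l4 (xc T1.l4 T1.l4))))))))))))
theorem qc2_0_4_rrr : chkTr (tg false false false RT.r3) b2_0 t1 rc2_0_4_rrr
  (upd hi Co.k (upd hi Co.b (upd hi Co.a (rc sI cl9 cl4 cl4 b2_0 (I.pos (nat_lit 0) (nat_lit 0)))))) = true := by decide +kernel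
theorem qc2_0_4_rr : chkTr (tg false false false RT.r3) b2_0 t1 (Tr.N Co.k rc2_0_4_rrl rc2_0_4_rrr)
  (upd hi Co.b (upd hi Co.a (rc sI cl9 cl4 cl4 b2_0 (I.pos (nat_lit 0) (nat_lit 0))))) = true := tr_split qc2_0_4_rrl qc2_0_4_rrr
theorem qc2_0_4_r : chkTr (tg false false false RT.r3) b2_0 t1 (Tr.N Co.b rc2_0_4_rl (Tr.N Co.k rc2_0_4_rrl rc2_0_4_rrr))
  (upd hi Co.a (rc sI cl9 cl4 cl4 b2_0 (I.pos (nat_lit 0) (nat_lit 0)))) = true := tr_split qc2_0_4_rl qc2_0_4_rr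
theorem qc2_0_4_ : chkTr (tg false false false RT.r3) b2_0 t1 (Tr.N Co.a rc2_0_4_l (Tr.N Co.b rc2_0_4_rl (Tr.N Co.k rc2_0_4_rrl rc2_0_4_rrr)))
  (rc sI cl9 cl4 cl4 b2_0 (I.pos (nat_lit 0) (nat_lit 0))) = true := tr_split qc2_0_4_l qc2_0_4_r
theorem c2_0_4 : chkTag sI cl9 cl4 cl4 t1 b2_0 (tg false false false RT.r3) (I.pos (nat_lit 0) (nat_lit 0))
  (Tr.N Co.a rc2_0_4_l (Tr.N Co.b rc2_0_4_rl (Tr.N Co.k rc2_0_4_rrl rc2_0_4_rrr))) = true := tag_mk (by decide +kernel) qc2_0_4_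
theorem c2_0_5 : chkTag sI cl9 cl4 cl4 t1 b2_0 (tg false true false RT.r4) (I.pos (nat_lit 0) (nat_lit 0))
  (xk T1.l5 T1.l5) = true := by decide +kernel
theorem c2_0_6 : chkTag sI cl9 cl4 cl4 t1 b2_0 (Tag.mk false false false RT.tl RT.r5) (I.mix (nat_lit 17240550) (nat_lit 96881482))
  (xR (xR T1.l6 T1.l6) (xR T1.l6 (xR T1.l6 T1.l6))) = true := by decide +kernel
theorem c2_0_7 : chkTag sI cl9 cl4 cl4 t1 b2_0 (Tag.mk false true false RT.tl RT.r6) (I.mix (nat_lit 17240550) (nat_lit 71940500))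
  (xR T1.l7 T1.l3) = true := by decide +kernel
theorem bx2_0 : BoxOK sI cl9 cl4 cl4 t1 t1 b2_0 :=
  box_mk' [(tg true true false RT.r2), (tg true false false RT.r3), (Tag.mk true true false RT.tl RT.r4), (Tag.mk true false false RT.tl RT.r5), (tg false false false RT.r3), (tg false true false RT.r4), (Tag.mk false false false RT.tl RT.r5), (Tag.mk false true false RT.tl RT.r6)] rfl (allL_c (ex_mk c2_0_0) (allL_c (ex_mk c2_0_1) (allL_c (ex_mk c2_0_2) (allL_c (ex_mk c2_0_3) (allL_c (ex_mk c2_0_4) (allL_c (ex_mk c2_0_5) (allL_c (ex_mk c2_0_6) (allL_c (ex_mk c2_0_7) allL_n))))))))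
theorem bx2_1 : BoxOK sI cl9 cl4 cl4 t1 t1 b2_1 :=
  box_mk (TrL.c (I.pos (nat_lit 0) (nat_lit 0)) (xb (xa (xb (xa T1.l8 T1.l8) T1.l8) (xb (xa T1.l8 T1.l8) T1.l8)) (xa (xb T1.l8 T1.l8) (xb T1.l8 T1.l8)))
  (TrL.c (I.pos (nat_lit 0) (nat_lit 0)) (xb (xa T1.l1 T1.l1) T1.l1)
  (TrL.c (I.pos (nat_lit 0) (nat_lit 124588530)) (xR (xR T1.l2 T1.l2) (xR T1.l2 (xR T1.l2 (xb T1.l2 T1.l2))))
  (TrL.c (I.pos (nat_lit 0) (nat_lit 96881482)) (xR (xR T1.l3 T1.l3) (xR T1.l3 (xR T1.l3 T1.l3)))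
  (TrL.c (I.pos (nat_lit 0) (nat_lit 0)) (xb (xa T1.l9 T1.l9) (xa T1.l9 T1.l9))
  (TrL.c (I.pos (nat_lit 0) (nat_lit 0)) T1.l5
  (TrL.c (I.mix (nat_lit 17240550) (nat_lit 96881482)) (xR (xR T1.l6 T1.l6) (xR T1.l6 T1.l6))
  (TrL.c (I.mix (nat_lit 17240550) (nat_lit 71940500)) (xR T1.l6 T1.l6)
  TrL.n)))))))) (by decide +kernel)
def rc2_2_0_llll : Tr := (xb (xs (xb T1.l10 T1.l10) (xb (xa (xs (xk T1.l10 (xb T1.l10 T1.l10)) (xk (xb (xc (xa T1.l10 T1.l10) (xa (xs T1.l10 (xk T1.l10 T1.l10)) (xs T1.l10 T1.l10))) (xc T1.l10 (xa T1.l10 T1.l10))) (xb (xc (xa (xs T1.l10 T1.l10) (xs T1.l10 T1.l10)) (xa (xs T1.l10 (xk T1.l10 (xb T1.l10 T1.l10))) (xs T1.l10 (xk T1.l10 T1.l10)))) (xc T1.l10 (xa (xs T1.l10 T1.l10) T1.l10))))) (xs (xk T1.l10 T1.l10) (xk (xb (xc T1.l10 (xa T1.l10 T1.l10)) (xc T1.l10 T1.l10)) (xb (xc (xa T1.l10 T1.l10) (xa (xs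 T1.l10 (xk T1.l10 T1.l10)) (xs T1.l10 (xk T1.l10 T1.l8)))) (xc T1.l10 (xa T1.l10 T1.l10)))))) (xa (xs T1.l10 (xk (xb T1.l10 T1.l10) (xb (xc T1.l10 T1.l10) T1.l10))) (xs T1.l10 (xk T1.l10 (xb (xc T1.l10 T1.l10) T1.l10)))))) (xs T1.l10 (xb (xa (xs T1.l10 (xk T1.l10 T1.l10)) (xs T1.l10 T1.l10)) (xa T1.l10 T1.l10))))
theorem qc2_2_0_llll : chkTr (tg true true false RT.r2) b2_2 t1 rc2_2_0_llll
  (upd lo Co.a (upd lo Co.b (upd lo Co.a (upd lo Co.b (rc sI cl9 cl4 cl4 b2_2 (I.pos (nat_lit 0) (nat_lit 0))))))) = true := by decide +kernel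
def rc2_2_0_lllr : Tr := (xb (xs (xb T1.l10 T1.l10) (xb (xa (xs (xk T1.l10 T1.l10) (xk (xb (xc T1.l10 (xa T1.l10 T1.l10)) T1.l10) (xb (xc (xa T1.l10 T1.l10) (xa (xs T1.l10 T1.l10) (xs T1.l8 T1.l8))) (xc T1.l10 (xa T1.l10 T1.l10))))) (xs (xk T1.l10 T1.l10) (xk (xb (xc T1.l10 T1.l10) T1.l10) (xb (xc T1.l10 (xa T1.l8 T1.l8)) (xc T1.l10 T1.l10))))) (xa (xs T1.l10 (xk T1.l10 (xb T1.l10 T1.l10))) (xs T1.l10 (xk T1.l10 (xb T1.l10 T1.l10)))))) (xs T1.l10 (xb (xa (xs T1.l10 T1.l10) (xs T1.l10 T1.l10)) (xa T1.l10 T1.l10))))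
theorem qc2_2_0_lllr : chkTr (tg true true false RT.r2) b2_2 t1 rc2_2_0_lllr
  (upd hi Co.a (upd lo Co.b (upd lo Co.a (upd lo Co.b (rc sI cl9 cl4 cl4 b2_2 (I.pos (nat_lit 0) (nat_lit 0))))))) = true := by decide +kernel
theorem qc2_2_0_lll : chkTr (tg true true false RT.r2) b2_2 t1 (Tr.N Co.a rc2_2_0_llll rc2_2_0_lllr)
  (upd lo Co.b (upd lo Co.a (upd lo Co.b (rc sI cl9 cl4 cl4 b2_2 (I.pos (nat_lit 0) (nat_lit 0)))))) = true := tr_split qc2_2_0_llll qc2_2_0_lllr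
def rc2_2_0_llr : Tr := (xa (xb (xs T1.l10 (xb T1.l10 T1.l10)) T1.l10) (xb (xs T1.l10 T1.l10) T1.l10))
theorem qc2_2_0_llr : chkTr (tg true true false RT.r2) b2_2 t1 rc2_2_0_llr
  (upd hi Co.b (upd lo Co.a (upd lo Co.b (rc sI cl9 cl4 cl4 b2_2 (I.pos (nat_lit 0) (nat_lit 0)))))) = true := by decide +kernel
theorem qc2_2_0_ll : chkTr (tg true true false RT.r2) b2_2 t1 (Tr.N Co.b (Tr.N Co.a rc2_2_0_llll rc2_2_0_lllr) rc2_2_0_llr)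
  (upd lo Co.a (upd lo Co.b (rc sI cl9 cl4 cl4 b2_2 (I.pos (nat_lit 0) (nat_lit 0))))) = true := tr_split qc2_2_0_lll qc2_2_0_llr
def rc2_2_0_lr : Tr := (xb (xa (xb (xs (xb T1.l10 T1.l10) (xb (xa (xs T1.l10 (xk (xb (xc T1.l10 T1.l8) T1.l10) (xb (xc T1.l8 T1.l8) (xc T1.l8 T1.l8)))) (xs T1.l10 (xk (xb T1.l10 T1.l10) (xb (xc T1.l10 (xa T1.l10 T1.l10)) T1.l10)))) (xa (xs T1.l10 (xk T1.l10 T1.l10)) (xs T1.l10 (xk T1.l10 T1.l10))))) (xs T1.l10 (xb (xa T1.l10 T1.l10) T1.l10))) (xb (xs T1.l10 (xb (xa (xs T1.l10 (xk (xb T1.l10 T1.l8) (xc T1.l10 (xb T1.l10 T1.l10)))) (xs T1.l10 (xk (xc T1.l4 T1.l4) (xc T1.l10 (xb T1.l4 T1.l4))))) (xa (xs T1.l10 (xk T1.l10 T1.l10)) (xs T1.l10 (xk T1.l10 T1.l10))))) (xs T1.l10 (xb (xa T1.l10 T1.l10) T1.l10)))) (xa (xb (xs T1.l10 T1.l10) T1.l10) (xb (xs T1.l10 T1.l10) T1.l10)))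
theorem qc2_2_0_lr : chkTr (tg true true false RT.r2) b2_2 t1 rc2_2_0_lr
  (upd hi Co.a (upd lo Co.b (rc sI cl9 cl4 cl4 b2_2 (I.pos (nat_lit 0) (nat_lit 0))))) = true := by decide +kernel
theorem qc2_2_0_l : chkTr (tg true true false RT.r2) b2_2 t1 (Tr.N Co.a (Tr.N Co.b (Tr.N Co.a rc2_2_0_llll rc2_2_0_lllr) rc2_2_0_llr) rc2_2_0_lr)
  (upd lo Co.b (rc sI cl9 cl4 cl4 b2_2 (I.pos (nat_lit 0) (nat_lit 0)))) = true := tr_split qc2_2_0_ll qc2_2_0_lr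
def rc2_2_0_r : Tr := (xa (xb (xa (xb T1.l10 T1.l10) (xb T1.l10 T1.l10)) (xa (xb (xs T1.l10 T1.l10) (xs T1.l10 (xa T1.l10 T1.l10))) (xb T1.l10 (xs T1.l10 (xa T1.l10 T1.l10))))) (xb (xa (xb T1.l10 T1.l10) (xb T1.l10 T1.l10)) (xa (xs (xb T1.l10 T1.l10) (xb T1.l10 (xa T1.l10 T1.l10))) (xs (xb T1.l10 T1.l10) (xb T1.l10 (xa T1.l10 T1.l10))))))
theorem qc2_2_0_r : chkTr (tg true true false RT.r2) b2_2 t1 rc2_2_0_r
  (upd hi Co.b (rc sI cl9 cl4 cl4 b2_2 (I.pos (nat_lit 0) (nat_lit 0)))) = true := by decide +kernel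
theorem qc2_2_0_ : chkTr (tg true true false RT.r2) b2_2 t1 (Tr.N Co.b (Tr.N Co.a (Tr.N Co.b (Tr.N Co.a rc2_2_0_llll rc2_2_0_lllr) rc2_2_0_llr) rc2_2_0_lr) rc2_2_0_r)
  (rc sI cl9 cl4 cl4 b2_2 (I.pos (nat_lit 0) (nat_lit 0))) = true := tr_split qc2_2_0_l qc2_2_0_r
theorem c2_2_0 : chkTag sI cl9 cl4 cl4 t1 b2_2 (tg true true false RT.r2) (I.pos (nat_lit 0) (nat_lit 0))
  (Tr.N Co.b (Tr.N Co.a (Tr.N Co.b (Tr.N Co.a rc2_2_0_llll rc2_2_0_lllr) rc2_2_0_llr) rc2_2_0_lr) rc2_2_0_r) = true := tag_mk (by decide +kernel) qc2_2_0_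
theorem c2_2_1 : chkTag sI cl9 cl4 cl4 t1 b2_2 (tg true false false RT.r3) (I.pos (nat_lit 0) (nat_lit 0))
  (xb (xa T1.l1 T1.l1) (xa (xk T1.l1 T1.l1) (xk T1.l1 T1.l1))) = true := by decide +kernel
theorem c2_2_2 : chkTag sI cl9 cl4 cl4 t1 b2_2 (Tag.mk true true false RT.tl RT.r4) (I.pos (nat_lit 0) (nat_lit 124588530))
  (xR (xR T1.l6 T1.l2) (xR T1.l2 (xb (xR T1.l2 T1.l2) (xR T1.l2 (xa T1.l2 T1.l2))))) = true := by decide +kernel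
theorem c2_2_3 : chkTag sI cl9 cl4 cl4 t1 b2_2 (Tag.mk true false false RT.tl RT.r5) (I.pos (nat_lit 0) (nat_lit 96881482))
  (xR (xR T1.l3 T1.l3) (xR T1.l3 (xR T1.l3 T1.l3))) = true := by decide +kernel
def rc2_2_4_l : Tr := (xa (xb T1.l11 (xb T1.l11 (xk T1.l11 T1.l11))) (xb (xk T1.l11 T1.l11) (xk (xb T1.l11 (xa T1.l4 (xs T1.l11 (xk T1.l4 T1.l4)))) (xb T1.l11 (xa T1.l4 (xs T1.l4 T1.l4))))))
theorem qc2_2_4_l : chkTr (tg false false false RT.r3) b2_2 t1 rc2_2_4_l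
  (upd lo Co.b (rc sI cl9 cl4 cl4 b2_2 (I.pos (nat_lit 0) (nat_lit 0)))) = true := by decide +kernel
def rc2_2_4_rl : Tr := (xb (xk T1.l4 T1.l4) (xk (xb T1.l4 (xs T1.l4 (xa T1.l4 (xk T1.l4 T1.l4)))) (xb (xs T1.l4 T1.l4) (xs (xa T1.l4 T1.l4) (xa T1.l4 (xk (xb T1.l4 T1.l4) (xb T1.l4 (xs T1.l4 T1.l4))))))))
theorem qc2_2_4_rl : chkTr (tg false false false RT.r3) b2_2 t1 rc2_2_4_rl
  (upd lo Co.a (upd hi Co.b (rc sI cl9 cl4 cl4 b2_2 (I.pos (nat_lit 0) (nat_lit 0))))) = true := by decide +kernel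
def rc2_2_4_rrl : Tr := (xk (xb (xa T1.l4 T1.l4) (xs T1.l4 T1.l4)) (xb (xa T1.l4 T1.l4) (xs T1.l4 (xa T1.l4 T1.l4))))
theorem qc2_2_4_rrl : chkTr (tg false false false RT.r3) b2_2 t1 rc2_2_4_rrl
  (upd lo Co.b (upd hi Co.a (upd hi Co.b (rc sI cl9 cl4 cl4 b2_2 (I.pos (nat_lit 0) (nat_lit 0)))))) = true := by decide +kernel
def rc2_2_4_rrr : Tr := (xk (xb (xs T1.l4 (xa T1.l4 (xk T1.l4 (xb T1.l4 T1.l4)))) (xs (xa T1.l4 (xk T1.l4 (xs T1.l4 T1.l4))) (xa (xk (xb T1.l4 T1.l4) (xb T1.l4 (xs T1.l4 T1.l4))) (xk (xb (xs T1.l4 T1.l4) (xs T1.l4 (xa T1.l4 (xk T1.l4 T1.l4)))) (xb (xs T1.l4 (xa T1.l4 T1.l4)) (xs (xa T1.l4 T1.l4) (xa T1.l4 (xk T1.l4 (xb T1.l4 T1.l4))))))))) (xb (xs (xa T1.l4 T1.l4) (xa (xk T1.l4 T1.l4) (xk (xb T1.l4 (xs T1.l4 T1.l4)) (xb T1.l4 (xs T1.l4 T1.l4))))) (xs (xa (xk T1.l4 T1.l4) (xk (xs T1.l4 (xb T1.l4 T1.l4)) (xs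 T1.l4 (xb T1.l4 (xa T1.l4 T1.l4))))) (xa (xk (xb T1.l4 (xs T1.l4 (xa T1.l4 T1.l4))) (xb (xs T1.l4 T1.l4) (xs T1.l4 (xa T1.l4 (xk T1.l4 T1.l4))))) (xk (xb (xs T1.l4 (xa T1.l4 T1.l4)) (xs (xa T1.l4 (xk T1.l4 T1.l4)) (xa (xk T1.l4 T1.l4) (xk (xb T1.l4 T1.l4) (xb T1.l4 (xs T1.l4 T1.l4)))))) (xb (xs (xa T1.l4 T1.l4) (xa T1.l4 (xk T1.l4 (xb T1.l4 T1.l4)))) (xs (xa T1.l4 (xk T1.l4 (xs T1.l4 T1.l4))) (xa (xk (xb T1.l4 T1.l4) (xb T1.l4 (xs T1.l4 T1.l4))) (xk (xb T1.l4 (xs T1.l4 (xa T1.l4 T1.l4))) (xs (xb T1.l4 T1.l4) (xb T1.l4 (xa T1.l4 (xc T1.l4 T1.l4)))))))))))))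
theorem qc2_2_4_rrr : chkTr (tg false false false RT.r3) b2_2 t1 rc2_2_4_rrr
  (upd hi Co.b (upd hi Co.a (upd hi Co.b (rc sI cl9 cl4 cl4 b2_2 (I.pos (nat_lit 0) (nat_lit 0)))))) = true := by decide +kernel
theorem qc2_2_4_rr : chkTr (tg false false false RT.r3) b2_2 t1 (Tr.N Co.b rc2_2_4_rrl rc2_2_4_rrr)
  (upd hi Co.a (upd hi Co.b (rc sI cl9 cl4 cl4 b2_2 (I.pos (nat_lit 0) (nat_lit 0))))) = true := tr_split qc2_2_4_rrl qc2_2_4_rrr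
theorem qc2_2_4_r : chkTr (tg false false false RT.r3) b2_2 t1 (Tr.N Co.a rc2_2_4_rl (Tr.N Co.b rc2_2_4_rrl rc2_2_4_rrr))
  (upd hi Co.b (rc sI cl9 cl4 cl4 b2_2 (I.pos (nat_lit 0) (nat_lit 0)))) = true := tr_split qc2_2_4_rl qc2_2_4_rr
theorem qc2_2_4_ : chkTr (tg false false false RT.r3) b2_2 t1 (Tr.N Co.b rc2_2_4_l (Tr.N Co.a rc2_2_4_rl (Tr.N Co.b rc2_2_4_rrl rc2_2_4_rrr)))
  (rc sI cl9 cl4 cl4 b2_2 (I.pos (nat_lit 0) (nat_lit 0))) = true := tr_split qc2_2_4_l qc2_2_4_r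
theorem c2_2_4 : chkTag sI cl9 cl4 cl4 t1 b2_2 (tg false false false RT.r3) (I.pos (nat_lit 0) (nat_lit 0))
  (Tr.N Co.b rc2_2_4_l (Tr.N Co.a rc2_2_4_rl (Tr.N Co.b rc2_2_4_rrl rc2_2_4_rrr))) = true := tag_mk (by decide +kernel) qc2_2_4_
theorem c2_2_5 : chkTag sI cl9 cl4 cl4 t1 b2_2 (tg false true false RT.r4) (I.pos (nat_lit 0) (nat_lit 0))
  (xb T1.l5 T1.l5) = true := by decide +kernel
theorem c2_2_6 : chkTag sI cl9 cl4 cl4 t1 b2_2 (Tag.mk false false false RT.tl RT.r5) (I.mix (nat_lit 17240550) (nat_lit 96881482))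
  (xR (xR T1.l6 T1.l6) (xR T1.l6 (xb (xR T1.l6 T1.l6) (xR T1.l6 T1.l6)))) = true := by decide +kernel
theorem c2_2_7 : chkTag sI cl9 cl4 cl4 t1 b2_2 (Tag.mk false true false RT.tl RT.r6) (I.mix (nat_lit 17240550) (nat_lit 71940500))
  (xR (xR T1.l7 T1.l7) (xR T1.l3 (xb T1.l3 T1.l3))) = true := by decide +kernel
theorem bx2_2 : BoxOK sI cl9 cl4 cl4 t1 t1 b2_2 :=
  box_mk' [(tg true true false RT.r2), (tg true false false RT.r3), (Tag.mk true true false RT.tl RT.r4), (Tag.mk true false false RT.tl RT.r5), (tg false false false RT.r3), (tg false true false RT.r4), (Tag.mk false false false RT.tl RT.r5), (Tag.mk false true false RT.tl RT.r6)] rfl (allL_c (ex_mk c2_2_0) (allL_c (ex_mk c2_2_1) (allL_c (ex_mk c2_2_2) (allL_c (ex_mk c2_2_3) (allL_c (ex_mk c2_2_4) (allL_c (ex_mk c2_2_5) (allL_c (ex_mk c2_2_6) (allL_c (ex_mk c2_2_7)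 allL_n))))))))
theorem bx2_3 : BoxOK sI cl9 cl4 cl4 t1 t1 b2_3 :=
  box_mk (TrL.c (I.pos (nat_lit 0) (nat_lit 0)) (xb T1.l1 T1.l12)
  (TrL.c (I.pos (nat_lit 0) (nat_lit 0)) T1.l13
  (TrL.c (I.mix (nat_lit 17240550) (nat_lit 96881482)) (xR (xR T1.l14 T1.l14) (xR T1.l14 (xR T1.l14 T1.l3)))
  (TrL.c (I.mix (nat_lit 17240550) (nat_lit 71940500)) (xR (xR T1.l15 T1.l2) T1.l2)
  TrL.n)))) (by decide +kernel)
theorem bx2_4 : BoxOK sI cl9 cl4 cl4 t1 t1 b2_4 :=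
  box_mk (TrL.c (I.pos (nat_lit 0) (nat_lit 0)) T1.l8
  (TrL.c (I.pos (nat_lit 0) (nat_lit 0)) T1.l1
  (TrL.c (I.pos (nat_lit 0) (nat_lit 124588530)) (xR (xR T1.l2 T1.l2) (xR T1.l2 T1.l2))
  (TrL.c (I.pos (nat_lit 0) (nat_lit 96881482)) (xR T1.l3 T1.l3)
  (TrL.c (I.pos (nat_lit 0) (nat_lit 0)) T1.l9
  (TrL.c (I.pos (nat_lit 0) (nat_lit 0)) T1.l5
  (TrL.c (I.mix (nat_lit 17240550) (nat_lit 96881482)) (xR T1.l6 T1.l6)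
  (TrL.c (I.mix (nat_lit 17240550) (nat_lit 71940500)) T1.l7
  TrL.n)))))))) (by decide +kernel)
theorem bx2_5 : BoxOK sI cl9 cl4 cl4 t1 t1 b2_5 :=
  box_mk (TrL.c (I.pos (nat_lit 0) (nat_lit 0)) (xb T1.l12 T1.l12)
  (TrL.c (I.pos (nat_lit 0) (nat_lit 0)) T1.l13
  (TrL.c (I.mix (nat_lit 17240550) (nat_lit 96881482)) (xR (xR T1.l14 T1.l14) T1.l6)
  (TrL.c (I.mix (nat_lit 17240550) (nat_lit 71940500)) (xR T1.l14 T1.l6)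
  TrL.n)))) (by decide +kernel)
theorem bx2_6 : BoxOK sI cl9 cl4 cl4 t1 t1 b2_6 :=
  box_mk (TrL.c (I.pos (nat_lit 0) (nat_lit 0)) (xb T1.l16 T1.l8)
  (TrL.c (I.pos (nat_lit 0) (nat_lit 0)) T1.l1
  (TrL.c (I.pos (nat_lit 0) (nat_lit 124588530)) (xR T1.l3 (xR T1.l2 T1.l2))
  (TrL.c (I.pos (nat_lit 0) (nat_lit 96881482)) (xR T1.l3 T1.l6)
  (TrL.c (I.pos (nat_lit 0) (nat_lit 0)) T1.l17
  (TrL.c (I.pos (nat_lit 0) (nat_lit 0)) T1.l5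
  (TrL.c (I.mix (nat_lit 17240550) (nat_lit 96881482)) (xR T1.l6 T1.l6)
  (TrL.c (I.mix (nat_lit 17240550) (nat_lit 71940500)) T1.l6
  TrL.n)))))))) (by decide +kernel)
theorem bx2_7 : BoxOK sI cl9 cl4 cl4 t1 t1 b2_7 :=
  box_mk (TrL.c (I.pos (nat_lit 0) (nat_lit 0)) T1.l0
  (TrL.c (I.pos (nat_lit 0) (nat_lit 0)) T1.l1
  (TrL.c (I.pos (nat_lit 0) (nat_lit 124588530)) (xR (xR T1.l6 T1.l2) T1.l2)
  (TrL.c (I.pos (nat_lit 0) (nat_lit 96881482)) (xR (xR T1.l3 T1.l3) T1.l3)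
  (TrL.c (I.pos (nat_lit 0) (nat_lit 0)) T1.l4
  (TrL.c (I.pos (nat_lit 0) (nat_lit 0)) T1.l5
  (TrL.c (I.mix (nat_lit 17240550) (nat_lit 96881482)) (xR T1.l6 T1.l6)
  (TrL.c (I.mix (nat_lit 17240550) (nat_lit 71940500)) T1.l7
  TrL.n)))))))) (by decide +kernel)
theorem bx2_8 : BoxOK sI cl9 cl4 cl4 t1 t1 b2_8 :=
  box_mk (TrL.c (I.pos (nat_lit 0) (nat_lit 0)) T1.l16
  (TrL.c (I.pos (nat_lit 0) (nat_lit 0)) T1.l1
  (TrL.c (I.pos (nat_lit 0) (nat_lit 124588530)) (xR T1.l2 (xR T1.l2 (xR T1.l2 T1.l2)))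
  (TrL.c (I.pos (nat_lit 0) (nat_lit 96881482)) (xR T1.l3 T1.l6)
  (TrL.c (I.pos (nat_lit 0) (nat_lit 0)) T1.l17
  (TrL.c (I.pos (nat_lit 0) (nat_lit 0)) T1.l5
  (TrL.c (I.mix (nat_lit 17240550) (nat_lit 96881482)) (xR T1.l6 T1.l6)
  (TrL.c (I.mix (nat_lit 17240550) (nat_lit 71940500)) T1.l14
  TrL.n)))))))) (by decide +kernel)
theorem bx2_9 : BoxOK sI cl9 cl4 cl4 t1 t1 b2_9 :=
  box_mk (TrL.c (I.pos (nat_lit 0) (nat_lit 0)) (xa (xb T1.l0 T1.l0) (xb (xa T1.l0 T1.l4) (xa T1.l0 (xb T1.l4 T1.l4))))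
  (TrL.c (I.pos (nat_lit 0) (nat_lit 0)) (xa T1.l1 (xk T1.l5 T1.l1))
  (TrL.c (I.pos (nat_lit 0) (nat_lit 124588530)) (xR (xR (xR T1.l6 T1.l2) T1.l2) (xR T1.l2 (xR T1.l2 T1.l6)))
  (TrL.c (I.pos (nat_lit 0) (nat_lit 96881482)) (xR (xR T1.l3 T1.l3) (xR T1.l3 (xR T1.l3 T1.l3)))
  (TrL.c (I.pos (nat_lit 0) (nat_lit 0)) (xa T1.l4 (xk (xb T1.l4 T1.l4) (xb T1.l4 T1.l4)))
  (TrL.c (I.pos (nat_lit 0) (nat_lit 0)) (xk T1.l5 T1.l5)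
  (TrL.c (I.mix (nat_lit 17240550) (nat_lit 96881482)) (xR T1.l6 (xR T1.l6 (xR T1.l6 (xR T1.l6 T1.l6))))
  (TrL.c (I.mix (nat_lit 17240550) (nat_lit 71940500)) (xR T1.l7 T1.l7)
  TrL.n)))))))) (by decide +kernel)
theorem bx2_10 : BoxOK sI cl9 cl4 cl4 t1 t1 b2_10 :=
  box_mk (TrL.c (I.pos (nat_lit 0) (nat_lit 0)) T1.l16
  (TrL.c (I.pos (nat_lit 0) (nat_lit 0)) T1.l12
  (TrL.c (I.pos (nat_lit 0) (nat_lit 124588530)) (xR T1.l2 (xR T1.l2 (xR T1.l2 T1.l13)))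
  (TrL.c (I.pos (nat_lit 0) (nat_lit 96881482)) (xR T1.l3 T1.l6)
  (TrL.c (I.pos (nat_lit 0) (nat_lit 0)) T1.l17
  (TrL.c (I.pos (nat_lit 0) (nat_lit 0)) T1.l5
  (TrL.c (I.mix (nat_lit 17240550) (nat_lit 96881482)) (xR T1.l14 T1.l6)
  (TrL.c (I.mix (nat_lit 17240550) (nat_lit 71940500)) T1.l14
  TrL.n)))))))) (by decide +kernel)
theorem bx2_11 : BoxOK sI cl9 cl4 cl4 t1 t1 b2_11 :=
  box_mk (TrL.c (I.pos (nat_lit 0) (nat_lit 0)) (xa T1.l0 (xb T1.l0 T1.l0))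
  (TrL.c (I.pos (nat_lit 0) (nat_lit 0)) (xk T1.l1 T1.l1)
  (TrL.c (I.pos (nat_lit 0) (nat_lit 124588530)) (xR (xR (xR T1.l6 T1.l2) T1.l2) (xR T1.l2 T1.l2))
  (TrL.c (I.pos (nat_lit 0) (nat_lit 96881482)) (xR (xR T1.l3 T1.l3) T1.l3)
  (TrL.c (I.pos (nat_lit 0) (nat_lit 0)) (xk T1.l4 T1.l4)
  (TrL.c (I.pos (nat_lit 0) (nat_lit 0)) T1.l5
  (TrL.c (I.mix (nat_lit 17240550) (nat_lit 96881482)) (xR T1.l6 (xR T1.l6 (xR T1.l6 T1.l6)))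
  (TrL.c (I.mix (nat_lit 17240550) (nat_lit 71940500)) (xR T1.l7 T1.l7)
  TrL.n)))))))) (by decide +kernel)
theorem bx2_12 : BoxOK sI cl9 cl4 cl4 t1 t1 b2_12 :=
  box_mk (TrL.c (I.pos (nat_lit 0) (nat_lit 0)) T1.l16
  (TrL.c (I.pos (nat_lit 0) (nat_lit 0)) T1.l12
  (TrL.c (I.pos (nat_lit 0) (nat_lit 124588530)) (xR T1.l2 (xR T1.l2 (xR T1.l2 T1.l13)))
  (TrL.c (I.pos (nat_lit 0) (nat_lit 96881482)) T1.l6
  (TrL.c (I.pos (nat_lit 0) (nat_lit 0)) T1.l17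
  (TrL.c (I.pos (nat_lit 0) (nat_lit 0)) T1.l5
  (TrL.c (I.mix (nat_lit 17240550) (nat_lit 96881482)) (xR T1.l14 T1.l6)
  (TrL.c (I.mix (nat_lit 17240550) (nat_lit 71940500)) T1.l14
  TrL.n)))))))) (by decide +kernel)
theorem bx2_13 : BoxOK sI cl9 cl4 cl4 t1 t1 b2_13 :=
  box_mk (TrL.c (I.pos (nat_lit 0) (nat_lit 0)) (xa (xb (xa T1.l10 T1.l10) (xa (xs T1.l10 T1.l10) (xs T1.l10 T1.l10))) (xb (xa (xb T1.l0 T1.l0) T1.l0) (xa (xs T1.l0 (xb T1.l0 T1.l0)) (xs T1.l0 (xb T1.l0 T1.l0)))))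
  (TrL.c (I.pos (nat_lit 0) (nat_lit 0)) (xk (xa T1.l1 T1.l1) T1.l1)
  (TrL.c (I.pos (nat_lit 0) (nat_lit 124588530)) (xR (xR T1.l2 T1.l2) (xR T1.l2 (xR T1.l2 T1.l2)))
  (TrL.c (I.pos (nat_lit 0) (nat_lit 96881482)) (xR (xR T1.l3 T1.l3) T1.l3)
  (TrL.c (I.pos (nat_lit 0) (nat_lit 0)) (xk (xb T1.l4 (xa (xb T1.l4 (xs T1.l4 T1.l4)) (xs (xb T1.l4 T1.l4) (xb T1.l4 (xk (xa T1.l4 T1.l4) (xa T1.l4 T1.l4)))))) (xb (xa T1.l4 T1.l4) (xa (xb T1.l4 (xs T1.l4 (xa T1.l4 T1.l4))) (xs (xb T1.l4 (xa T1.l4 (xk T1.l4 T1.l4))) (xb (xa T1.l4 T1.l4) (xa (xk (xs T1.l4 T1.l4) (xs T1.l4 T1.l4)) (xk (xs T1.l4 T1.l4) (xs (xb T1.l0 T1.l0) (xb T1.l4 T1.l4)))))))))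
  (TrL.c (I.pos (nat_lit 0) (nat_lit 0)) T1.l5
  (TrL.c (I.mix (nat_lit 17240550) (nat_lit 96881482)) (xR (xR T1.l6 T1.l6) T1.l6)
  (TrL.c (I.mix (nat_lit 17240550) (nat_lit 71940500)) (xR T1.l7 T1.l3)
  TrL.n)))))))) (by decide +kernel)
theorem bx2_14 : BoxOK sI cl9 cl4 cl4 t1 t1 b2_14 :=
  box_mk (TrL.c (I.pos (nat_lit 0) (nat_lit 0)) (xb T1.l8 T1.l8)
  (TrL.c (I.pos (nat_lit 0) (nat_lit 0)) T1.l1
  (TrL.c (I.pos (nat_lit 0) (nat_lit 124588530)) (xR T1.l3 (xR T1.l2 (xR T1.l2 T1.l2)))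
  (TrL.c (I.pos (nat_lit 0) (nat_lit 96881482)) (xR T1.l3 T1.l6)
  (TrL.c (I.pos (nat_lit 0) (nat_lit 0)) (xb T1.l17 T1.l17)
  (TrL.c (I.pos (nat_lit 0) (nat_lit 0)) T1.l5
  (TrL.c (I.mix (nat_lit 17240550) (nat_lit 96881482)) (xR T1.l6 T1.l6)
  (TrL.c (I.mix (nat_lit 17240550) (nat_lit 71940500)) (xR T1.l6 T1.l2)
  TrL.n)))))))) (by decide +kernel)
theorem bx2_15 : BoxOK sI cl9 cl4 cl4 t1 t1 b2_15 :=
  box_mk (TrL.c (I.pos (nat_lit 0) (nat_lit 0)) T1.l0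
  (TrL.c (I.pos (nat_lit 0) (nat_lit 0)) T1.l1
  (TrL.c (I.pos (nat_lit 0) (nat_lit 124588530)) (xR (xR T1.l6 T1.l2) T1.l2)
  (TrL.c (I.pos (nat_lit 0) (nat_lit 96881482)) (xR (xR T1.l3 T1.l3) T1.l3)
  (TrL.c (I.pos (nat_lit 0) (nat_lit 0)) T1.l4
  (TrL.c (I.pos (nat_lit 0) (nat_lit 0)) T1.l5
  (TrL.c (I.mix (nat_lit 17240550) (nat_lit 96881482)) (xR T1.l6 T1.l6)
  (TrL.c (I.mix (nat_lit 17240550) (nat_lit 71940500)) (xR T1.l7 T1.l7)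
  TrL.n)))))))) (by decide +kernel)
theorem bx2_16 : BoxOK sI cl9 cl4 cl4 t1 t1 b2_16 :=
  box_mk (TrL.c (I.pos (nat_lit 0) (nat_lit 0)) T1.l16
  (TrL.c (I.pos (nat_lit 0) (nat_lit 0)) T1.l1
  (TrL.c (I.pos (nat_lit 0) (nat_lit 124588530)) (xR T1.l2 (xR T1.l2 (xR T1.l2 T1.l2)))
  (TrL.c (I.pos (nat_lit 0) (nat_lit 96881482)) (xR T1.l3 T1.l6)
  (TrL.c (I.pos (nat_lit 0) (nat_lit 0)) T1.l17
  (TrL.c (I.pos (nat_lit 0) (nat_lit 0)) T1.l5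
  (TrL.c (I.mix (nat_lit 17240550) (nat_lit 96881482)) (xR T1.l6 T1.l6)
  (TrL.c (I.mix (nat_lit 17240550) (nat_lit 71940500)) T1.l14
  TrL.n)))))))) (by decide +kernel)
theorem bx2_17 : BoxOK sI cl9 cl4 cl4 t1 t1 b2_17 :=
  box_mk (TrL.c (I.pos (nat_lit 0) (nat_lit 0)) (xa (xb T1.l0 (xa T1.l0 T1.l0)) (xb (xa T1.l0 T1.l4) (xa (xb T1.l0 T1.l0) (xb T1.l4 (xs T1.l0 T1.l4)))))
  (TrL.c (I.pos (nat_lit 0) (nat_lit 0)) (xa (xb T1.l1 T1.l1) (xk (xb T1.l1 T1.l5) (xb T1.l1 T1.l1)))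
  (TrL.c (I.pos (nat_lit 0) (nat_lit 124588530)) (xR (xR (xR T1.l6 T1.l2) T1.l2) (xR T1.l2 (xR T1.l2 T1.l6)))
  (TrL.c (I.pos (nat_lit 0) (nat_lit 96881482)) (xR (xR T1.l3 T1.l3) (xR T1.l3 (xR T1.l3 (xk T1.l3 T1.l3))))
  (TrL.c (I.pos (nat_lit 0) (nat_lit 0)) (xa (xb T1.l4 T1.l4) (xb (xk (xa T1.l4 T1.l4) (xa T1.l4 T1.l4)) (xk (xa T1.l4 (xb T1.l4 T1.l4)) (xa T1.l4 T1.l4))))
  (TrL.c (I.pos (nat_lit 0) (nat_lit 0)) (xk (xa T1.l5 T1.l5) T1.l5)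
  (TrL.c (I.mix (nat_lit 17240550) (nat_lit 96881482)) (xR T1.l6 (xR T1.l6 (xR T1.l6 (xk (xR T1.l6 T1.l6) T1.l6))))
  (TrL.c (I.mix (nat_lit 17240550) (nat_lit 71940500)) (xR T1.l7 T1.l3)
  TrL.n)))))))) (by decide +kernel)
theorem bx2_18 : BoxOK sI cl9 cl4 cl4 t1 t1 b2_18 :=
  box_mk (TrL.c (I.pos (nat_lit 0) (nat_lit 0)) (xb T1.l16 T1.l16)
  (TrL.c (I.pos (nat_lit 0) (nat_lit 0)) T1.l12
  (TrL.c (I.pos (nat_lit 0) (nat_lit 124588530)) (xR T1.l2 (xR T1.l2 (xR T1.l2 T1.l13)))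
  (TrL.c (I.pos (nat_lit 0) (nat_lit 96881482)) (xR T1.l3 T1.l6)
  (TrL.c (I.pos (nat_lit 0) (nat_lit 0)) T1.l17
  (TrL.c (I.pos (nat_lit 0) (nat_lit 0)) T1.l5
  (TrL.c (I.mix (nat_lit 17240550) (nat_lit 96881482)) (xR T1.l14 T1.l6)
  (TrL.c (I.mix (nat_lit 17240550) (nat_lit 71940500)) T1.l14
  TrL.n)))))))) (by decide +kernel)
theorem bx2_19 : BoxOK sI cl9 cl4 cl4 t1 t1 b2_19 :=
  box_mk (TrL.c (I.pos (nat_lit 0) (nat_lit 0)) T1.l0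
  (TrL.c (I.pos (nat_lit 0) (nat_lit 0)) T1.l1
  (TrL.c (I.pos (nat_lit 0) (nat_lit 124588530)) (xR (xR (xR T1.l6 T1.l2) T1.l2) T1.l2)
  (TrL.c (I.pos (nat_lit 0) (nat_lit 96881482)) (xR (xR T1.l3 T1.l3) T1.l3)
  (TrL.c (I.pos (nat_lit 0) (nat_lit 0)) (xk T1.l4 T1.l4)
  (TrL.c (I.pos (nat_lit 0) (nat_lit 0)) T1.l5
  (TrL.c (I.mix (nat_lit 17240550) (nat_lit 96881482)) (xR T1.l6 (xR T1.l6 (xR T1.l6 T1.l6)))
  (TrL.c (I.mix (nat_lit 17240550) (nat_lit 71940500)) (xR T1.l7 T1.l7)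
  TrL.n)))))))) (by decide +kernel)
theorem bx2_20 : BoxOK sI cl9 cl4 cl4 t1 t1 b2_20 :=
  box_mk (TrL.c (I.pos (nat_lit 0) (nat_lit 0)) T1.l16
  (TrL.c (I.pos (nat_lit 0) (nat_lit 0)) T1.l12
  (TrL.c (I.pos (nat_lit 0) (nat_lit 124588530)) (xR T1.l2 (xR T1.l2 (xR T1.l2 T1.l13)))
  (TrL.c (I.pos (nat_lit 0) (nat_lit 96881482)) (xR T1.l3 T1.l6)
  (TrL.c (I.pos (nat_lit 0) (nat_lit 0)) T1.l17
  (TrL.c (I.pos (nat_lit 0) (nat_lit 0)) T1.l5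
  (TrL.c (I.mix (nat_lit 17240550) (nat_lit 96881482)) (xR T1.l14 T1.l6)
  (TrL.c (I.mix (nat_lit 17240550) (nat_lit 71940500)) T1.l14
  TrL.n)))))))) (by decide +kernel)
theorem bx2_21 : BoxOK sI cl9 cl4 cl4 t1 t1 b2_21 :=
  box_mk (TrL.c (I.pos (nat_lit 0) (nat_lit 0)) T1.l16
  (TrL.c (I.pos (nat_lit 0) (nat_lit 0)) T1.l1
  (TrL.c (I.pos (nat_lit 0) (nat_lit 124588530)) (xR T1.l2 (xR T1.l2 T1.l2))
  (TrL.c (I.pos (nat_lit 0) (nat_lit 96881482)) (xR T1.l3 T1.l6)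
  (TrL.c (I.pos (nat_lit 0) (nat_lit 0)) T1.l17
  (TrL.c (I.pos (nat_lit 0) (nat_lit 0)) T1.l5
  (TrL.c (I.mix (nat_lit 17240550) (nat_lit 96881482)) (xR T1.l6 T1.l6)
  (TrL.c (I.mix (nat_lit 17240550) (nat_lit 71940500)) T1.l6
  TrL.n)))))))) (by decide +kernel)
theorem bx2_22 : BoxOK sI cl9 cl4 cl4 t1 t1 b2_22 :=
  box_mk (TrL.c (I.pos (nat_lit 0) (nat_lit 0)) (xa T1.l0 T1.l0)
  (TrL.c (I.pos (nat_lit 0) (nat_lit 0)) T1.l1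
  (TrL.c (I.pos (nat_lit 0) (nat_lit 124588530)) (xR (xR (xR T1.l6 T1.l2) T1.l2) T1.l2)
  (TrL.c (I.pos (nat_lit 0) (nat_lit 96881482)) (xR (xR T1.l3 T1.l3) T1.l3)
  (TrL.c (I.pos (nat_lit 0) (nat_lit 0)) (xk T1.l4 T1.l4)
  (TrL.c (I.pos (nat_lit 0) (nat_lit 0)) T1.l5
  (TrL.c (I.mix (nat_lit 17240550) (nat_lit 96881482)) (xR T1.l6 (xR T1.l6 (xR T1.l6 T1.l6)))
  (TrL.c (I.mix (nat_lit 17240550) (nat_lit 71940500)) (xR T1.l7 T1.l7)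
  TrL.n)))))))) (by decide +kernel)
theorem bx2_23 : BoxOK sI cl9 cl4 cl4 t1 t1 b2_23 :=
  box_mk (TrL.c (I.pos (nat_lit 0) (nat_lit 0)) (xb T1.l16 T1.l16)
  (TrL.c (I.pos (nat_lit 0) (nat_lit 0)) T1.l12
  (TrL.c (I.pos (nat_lit 0) (nat_lit 124588530)) (xR T1.l2 (xR T1.l2 (xR T1.l2 T1.l13)))
  (TrL.c (I.pos (nat_lit 0) (nat_lit 96881482)) (xR T1.l3 T1.l6)
  (TrL.c (I.pos (nat_lit 0) (nat_lit 0)) T1.l17
  (TrL.c (I.pos (nat_lit 0) (nat_lit 0)) T1.l5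
  (TrL.c (I.mix (nat_lit 17240550) (nat_lit 96881482)) (xR T1.l14 T1.l6)
  (TrL.c (I.mix (nat_lit 17240550) (nat_lit 71940500)) T1.l14
  TrL.n)))))))) (by decide +kernel)
theorem bx2_24 : BoxOK sI cl9 cl4 cl4 t1 t1 b2_24 :=
  box_mk (TrL.c (I.pos (nat_lit 0) (nat_lit 0)) T1.l16
  (TrL.c (I.pos (nat_lit 0) (nat_lit 0)) T1.l1
  (TrL.c (I.pos (nat_lit 0) (nat_lit 124588530)) (xR T1.l2 (xR T1.l2 (xR T1.l2 T1.l2)))
  (TrL.c (I.pos (nat_lit 0) (nat_lit 96881482)) (xR T1.l3 T1.l6)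
  (TrL.c (I.pos (nat_lit 0) (nat_lit 0)) T1.l17
  (TrL.c (I.pos (nat_lit 0) (nat_lit 0)) T1.l5
  (TrL.c (I.mix (nat_lit 17240550) (nat_lit 96881482)) T1.l14
  (TrL.c (I.mix (nat_lit 17240550) (nat_lit 71940500)) T1.l14
  TrL.n)))))))) (by decide +kernel)
theorem sv2 : StarV sI cl9 cl4 cl4 t1 t1 t2 :=
  (bt_n (bt_n (bt_n (bt_n (bt_b bx2_0) (bt_n (bt_b bx2_1) (bt_b bx2_2))) (bt_n (bt_b bx2_3) (bt_n (bt_b bx2_4) (bt_b bx2_5)))) (bt_n (bt_n (bt_b bx2_6) (bt_n (bt_b bx2_7) (bt_b bx2_8))) (bt_n (bt_b bx2_9) (bt_n (bt_b bx2_10) (bt_b bx2_11))))) (bt_n (bt_n (bt_n (bt_b bx2_12) (bt_n (bt_b bx2_13) (bt_b bx2_14))) (bt_n (bt_b bx2_15) (bt_n (bt_b bx2_16) (bt_b bx2_17)))) (bt_n (bt_n (bt_b bx2_18) (bt_n (bt_b bx2_19) (bt_b bx2_20))) (bt_n (bt_n (bt_b bx2_21) (bt_b bx2_22)) (bt_n (bt_b bx2_23) (bt_b bx2_24))))))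
def S2 : StarD := StarD.mk cl9 cl4 cl4 1 1 t2
def G : List StarD := [S0, S1, S2]
theorem so0 : StarOK sI G S0 :=
  star_mk (by decide) (by decide) rfl rfl rfl rfl rfl rfl (rfl : _ = t0) (rfl : _ = t2)
  (st_mk (Pth.l (Pth.l (Pth.l Pth.z))) (nat_lit 390885954) (nat_lit 396516879) (by decide +kernel))
  (st_mk (Pth.l (Pth.l (Pth.l Pth.z))) (nat_lit 431414632) (nat_lit 438407300) (by decide +kernel))
  (st_mk (Pth.l (Pth.l (Pth.l Pth.z))) (nat_lit 479001473) (nat_lit 487825544) (by decide +kernel)) sv0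
theorem so1 : StarOK sI G S1 :=
  star_mk (by decide) (by decide) rfl rfl rfl rfl rfl rfl (rfl : _ = t2) (rfl : _ = t0)
  (st_mk (Pth.l (Pth.l (Pth.l (Pth.l Pth.z)))) (nat_lit 120227136) (nat_lit 140637806) (by decide +kernel))
  (st_mk (Pth.l (Pth.l (Pth.l (Pth.l Pth.z)))) (nat_lit 157056107) (nat_lit 182367307) (by decide +kernel))
  (st_mk (Pth.l (Pth.l (Pth.l (Pth.l Pth.z)))) (nat_lit 203244559) (nat_lit 230212777) (by decide +kernel)) sv1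
theorem so2 : StarOK sI G S2 :=
  star_mk (by decide) (by decide) rfl rfl rfl rfl rfl rfl (rfl : _ = t1) (rfl : _ = t1)
  (st_mk (Pth.l (Pth.l (Pth.l (Pth.l Pth.z)))) (nat_lit 367678313) (nat_lit 373026569) (by decide +kernel))
  (st_mk (Pth.l (Pth.l (Pth.l (Pth.l Pth.z)))) (nat_lit 403266683) (nat_lit 409387576) (by decide +kernel))
  (st_mk (Pth.l (Pth.l (Pth.l (Pth.l Pth.z)))) (nat_lit 444411195) (nat_lit 451520325) (by decide +kernel)) sv2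
theorem ok : GroupOK (nat_lit 150274048) (nat_lit 209387520) G := grp_mk (allS_c so0 (allS_c so1 (allS_c so2 allS_n)))
theorem cov : GCov G cl4 cl4 cl9 := cov_mk
  ⟨0, by decide, rfl, rfl, rfl⟩ ⟨1, by decide, rfl, rfl, rfl⟩ ⟨0, by decide, rfl, rfl, rfl⟩ ⟨1, by decide, rfl, rfl, rfl⟩ ⟨2, by decide, rfl, rfl, rfl⟩ ⟨2, by decide, rfl, rfl, rfl⟩
end Q115_2

namespace Q115_3
def sI : I := I.pos (nat_lit 209321984) (nat_lit 238944256)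
def b0_0 : Bx := Bx.mk (St.mk (I.pos (nat_lit 150798336) (nat_lit 217104384)) (I.mix (nat_lit 3047424) (nat_lit 99631104)) (I.mix (nat_lit 48988160) (nat_lit 46612480)) (I.pos (nat_lit 391446528) (nat_lit 497631232)) (I.mix (nat_lit 165920768) (nat_lit 112836608)) (I.mix (nat_lit 108052480) (nat_lit 105725952)) (I.mix (nat_lit 169771008) (nat_lit 155025408)))
  false (nat_lit 61992889)
def b0_1 : Bx := Bx.mk (St.mk (I.mix (nat_lit 41418752) (nat_lit 9912320)) (I.mix (nat_lit 15368192) (nat_lit 77889536)) (I.neg (nat_lit 75071488) (nat_lit 104562688)) (I.pos (nat_lit 256000000) (nat_lit 285556736)) (I.mix (nat_lit 67305472) (nat_lit 152911872)) (I.mix (nat_lit 107462656) (nat_lit 78675968)) (I.mix (nat_lit 59654144) (nat_lit 58114048)))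
  true (nat_lit 0)
def b0_2 : Bx := Bx.mk (St.mk (I.mix (nat_lit 6209536) (nat_lit 41418752)) (I.neg (nat_lit 27607040) (nat_lit 77889536)) (I.neg (nat_lit 75038720) (nat_lit 104562688)) (I.pos (nat_lit 259211264) (nat_lit 285556736)) (I.mix (nat_lit 152911872) (nat_lit 61210624)) (I.mix (nat_lit 78675968) (nat_lit 107462656)) (I.mix (nat_lit 59654144) (nat_lit 58114048)))
  false (nat_lit 33470234)
def b0_3 : Bx := Bx.mk (St.mk (I.mix (nat_lit 23658496) (nat_lit 4833280)) (I.mix (nat_lit 16072704) (nat_lit 12500992)) (I.neg (nat_lit 76562432) (nat_lit 89112576)) (I.pos (nat_lit 257605632) (nat_lit 268189696)) (I.mix (nat_lit 66879488) (nat_lit 45350912)) (I.mix (nat_lit 52035584) (nat_lit 47595520)) (I.mix (nat_lit 4014080) (nat_lit 23822336)))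
  true (nat_lit 0)
def b0_4 : Bx := Bx.mk (St.mk (I.pos (nat_lit 199950336) (nat_lit 250626048)) (I.mix (nat_lit 20922368) (nat_lit 19447808)) (I.neg (nat_lit 113213440) (nat_lit 184467456)) (I.pos (nat_lit 426721280) (nat_lit 518094848)) (I.mix (nat_lit 139280384) (nat_lit 71286784)) (I.mix (nat_lit 91684864) (nat_lit 88817664)) (I.mix (nat_lit 137003008) (nat_lit 186580992)))
  false (nat_lit 19164898)
def b0_5 : Bx := Bx.mk (St.mk (I.mix (nat_lit 6160384) (nat_lit 23461888)) (I.mix (nat_lit 14565376) (nat_lit 15368192)) (I.neg (nat_lit 76644352) (nat_lit 86999040)) (I.pos (nat_lit 258113536) (nat_lit 267943936)) (I.mix (nat_lit 52772864) (nat_lit 65454080)) (I.mix (nat_lit 46022656) (nat_lit 52363264)) (I.mix (nat_lit 3932160) (nat_lit 23904256)))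
  false (nat_lit 0)
def b0_6 : Bx := Bx.mk (St.mk (I.pos (nat_lit 2801664) (nat_lit 118505472)) (I.neg (nat_lit 9928704) (nat_lit 79773696)) (I.neg (nat_lit 43909120) (nat_lit 112410624)) (I.pos (nat_lit 258064384) (nat_lit 332677120)) (I.mix (nat_lit 139493376) (nat_lit 67944448)) (I.mix (nat_lit 69107712) (nat_lit 97452032)) (I.mix (nat_lit 83460096) (nat_lit 85442560)))
  false (nat_lit 36089168)
def b0_7 : Bx := Bx.mk (St.mk (I.pos (nat_lit 87179264) (nat_lit 189562880)) (I.mix (nat_lit 35028992) (nat_lit 81182720)) (I.mix (nat_lit 74104832) (nat_lit 37715968)) (I.pos (nat_lit 298942464) (nat_lit 444137472)) (I.mix (nat_lit 162496512) (nat_lit 122929152)) (I.mix (nat_lit 135135232) (nat_lit 108118016)) (I.mix (nat_lit 142589952) (nat_lit 129122304)))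
  false (nat_lit 53103679)
def b0_8 : Bx := Bx.mk (St.mk (I.neg (nat_lit 2801664) (nat_lit 118505472)) (I.pos (nat_lit 4931584) (nat_lit 79773696)) (I.neg (nat_lit 40009728) (nat_lit 112427008)) (I.pos (nat_lit 258048000) (nat_lit 332709888)) (I.mix (nat_lit 67960832) (nat_lit 139509760)) (I.mix (nat_lit 97452032) (nat_lit 69107712)) (I.mix (nat_lit 83460096) (nat_lit 85458944)))
  true (nat_lit 0)
def b0_9 : Bx := Bx.mk (St.mk (I.pos (nat_lit 166002688) (nat_lit 241909760)) (I.mix (nat_lit 19415040) (nat_lit 89702400)) (I.mix (nat_lit 178110464) (nat_lit 18792448)) (I.pos (nat_lit 410697728) (nat_lit 524517376)) (I.mix (nat_lit 147865600) (nat_lit 138887168)) (I.mix (nat_lit 129482752) (nat_lit 119455744)) (I.mix (nat_lit 232620032) (nat_lit 183222272)))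
  false (nat_lit 65192182)
def b0_10 : Bx := Bx.mk (St.mk (I.mix (nat_lit 9912320) (nat_lit 34570240)) (I.mix (nat_lit 56590336) (nat_lit 13090816)) (I.neg (nat_lit 75694080) (nat_lit 99090432)) (I.pos (nat_lit 256393216) (nat_lit 274874368)) (I.mix (nat_lit 119029760) (nat_lit 67305472)) (I.mix (nat_lit 63733760) (nat_lit 94044160)) (I.mix (nat_lit 32079872) (nat_lit 39911424)))
  false (nat_lit 0)
def t0 : BTr := (BTr.n (BTr.n (BTr.n (BTr.b b0_0) (BTr.b b0_1)) (BTr.n (BTr.b b0_2) (BTr.n (BTr.b b0_3) (BTr.b b0_4)))) (BTr.n (BTr.n (BTr.b b0_5) (BTr.n (BTr.b b0_6) (BTr.b b0_7))) (BTr.n (BTr.b b0_8) (BTr.n (BTr.b b0_9) (BTr.b b0_10)))))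
namespace T0
def l0 : Tr := Tr.L (Pth.l (Pth.l (Pth.l Pth.z)))
def l1 : Tr := Tr.L (Pth.l (Pth.l (Pth.r Pth.z)))
def l2 : Tr := Tr.L (Pth.l (Pth.r (Pth.l Pth.z)))
def l3 : Tr := Tr.L (Pth.l (Pth.r (Pth.r (Pth.l Pth.z))))
def l4 : Tr := Tr.L (Pth.l (Pth.r (Pth.r (Pth.r Pth.z))))
def l5 : Tr := Tr.L (Pth.r (Pth.l (Pth.l Pth.z)))
def l6 : Tr := Tr.L (Pth.r (Pth.l (Pth.r (Pth.l Pth.z))))
def l7 : Tr := Tr.L (Pth.r (Pth.l (Pth.r (Pth.r Pth.z))))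
def l8 : Tr := Tr.L (Pth.r (Pth.r (Pth.l Pth.z)))
def l9 : Tr := Tr.L (Pth.r (Pth.r (Pth.r (Pth.l Pth.z))))
def l10 : Tr := Tr.L (Pth.r (Pth.r (Pth.r (Pth.r Pth.z))))
end T0
def b1_0 : Bx := Bx.mk (St.mk (I.pos (nat_lit 158760960) (nat_lit 224460800)) (I.mix (nat_lit 1540096) (nat_lit 47333376)) (I.mix (nat_lit 2523136) (nat_lit 84508672)) (I.pos (nat_lit 117702656) (nat_lit 238829568)) (I.mix (nat_lit 107036672) (nat_lit 63619072)) (I.mix (nat_lit 69615616) (nat_lit 68009984)) (I.mix (nat_lit 107216896) (nat_lit 91652096)))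
  false (nat_lit 0)
def b1_1 : Bx := Bx.mk (St.mk (I.pos (nat_lit 106889216) (nat_lit 170098688)) (I.neg (nat_lit 1998848) (nat_lit 49741824)) (I.neg (nat_lit 65536) (nat_lit 47792128)) (I.pos (nat_lit 79806464) (nat_lit 140836864)) (I.mix (nat_lit 81395712) (nat_lit 56999936)) (I.mix (nat_lit 53526528) (nat_lit 64176128)) (I.mix (nat_lit 49692672) (nat_lit 66420736)))
  false (nat_lit 21233576)
def b1_2 : Bx := Bx.mk (St.mk (I.mix (nat_lit 12009472) (nat_lit 127107072)) (I.mix (nat_lit 6094848) (nat_lit 24117248)) (I.mix (nat_lit 8470528) (nat_lit 19218432)) (I.pos (nat_lit 16089088) (nat_lit 97615872)) (I.mix (nat_lit 42074112) (nat_lit 41795584)) (I.mix (nat_lit 37666816) (nat_lit 29933568)) (I.mix (nat_lit 30375936) (nat_lit 22970368)))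
  false (nat_lit 0)
def b1_3 : Bx := Bx.mk (St.mk (I.mix (nat_lit 11124736) (nat_lit 96632832)) (I.mix (nat_lit 25788416) (nat_lit 2916352)) (I.mix (nat_lit 15941632) (nat_lit 2228224)) (I.pos (nat_lit 16793600) (nat_lit 70795264)) (I.mix (nat_lit 37994496) (nat_lit 34193408)) (I.mix (nat_lit 24592384) (nat_lit 31293440)) (I.mix (nat_lit 14729216) (nat_lit 19628032)))
  false (nat_lit 0)
def b1_4 : Bx := Bx.mk (St.mk (I.pos (nat_lit 155254784) (nat_lit 199360512)) (I.mix (nat_lit 15990784) (nat_lit 40730624)) (I.pos (nat_lit 1622016) (nat_lit 73924608)) (I.pos (nat_lit 123076608) (nat_lit 197623808)) (I.mix (nat_lit 124469248) (nat_lit 37797888)) (I.mix (nat_lit 107479040) (nat_lit 59228160)) (I.mix (nat_lit 122306560) (nat_lit 60375040)))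
  false (nat_lit 0)
def b1_5 : Bx := Bx.mk (St.mk (I.pos (nat_lit 103366656) (nat_lit 144113664)) (I.mix (nat_lit 44908544) (nat_lit 9633792)) (I.mix (nat_lit 44023808) (nat_lit 4800512)) (I.pos (nat_lit 65912832) (nat_lit 112787456)) (I.mix (nat_lit 91947008) (nat_lit 53788672)) (I.mix (nat_lit 44515328) (nat_lit 81788928)) (I.mix (nat_lit 36618240) (nat_lit 66338816)))
  false (nat_lit 5496354)
def b1_6 : Bx := Bx.mk (St.mk (I.mix (nat_lit 22233088) (nat_lit 118636544)) (I.mix (nat_lit 13860864) (nat_lit 27197440)) (I.mix (nat_lit 8536064) (nat_lit 22396928)) (I.pos (nat_lit 16384000) (nat_lit 90193920)) (I.mix (nat_lit 56475648) (nat_lit 39403520)) (I.mix (nat_lit 46579712) (nat_lit 28884992)) (I.mix (nat_lit 29245440) (nat_lit 18055168)))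
  false (nat_lit 0)
def b1_7 : Bx := Bx.mk (St.mk (I.mix (nat_lit 19152896) (nat_lit 89243648)) (I.neg (nat_lit 819200) (nat_lit 26705920)) (I.mix (nat_lit 16515072) (nat_lit 1572864)) (I.pos (nat_lit 17235968) (nat_lit 66879488)) (I.mix (nat_lit 41222144) (nat_lit 16449536)) (I.mix (nat_lit 18776064) (nat_lit 32571392)) (I.mix (nat_lit 9764864) (nat_lit 16269312)))
  false (nat_lit 0)
def b1_8 : Bx := Bx.mk (St.mk (I.pos (nat_lit 184713216) (nat_lit 236224512)) (I.mix (nat_lit 12664832) (nat_lit 47022080)) (I.mix (nat_lit 28491776) (nat_lit 81215488)) (I.pos (nat_lit 180944896) (nat_lit 260980736)) (I.mix (nat_lit 115572736) (nat_lit 77905920)) (I.mix (nat_lit 91897856) (nat_lit 80379904)) (I.mix (nat_lit 154222592) (nat_lit 122896384)))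
  false (nat_lit 31991997)
def b1_9 : Bx := Bx.mk (St.mk (I.pos (nat_lit 154140672) (nat_lit 193445888)) (I.mix (nat_lit 41336832) (nat_lit 14532608)) (I.mix (nat_lit 37371904) (nat_lit 35831808)) (I.pos (nat_lit 121847808) (nat_lit 182927360)) (I.mix (nat_lit 116555776) (nat_lit 75841536)) (I.mix (nat_lit 108429312) (nat_lit 67796992)) (I.mix (nat_lit 119816192) (nat_lit 73728000)))
  false (nat_lit 4708616)
def b1_10 : Bx := Bx.mk (St.mk (I.pos (nat_lit 131465216) (nat_lit 169213952)) (I.mix (nat_lit 34816000) (nat_lit 2048000)) (I.mix (nat_lit 32178176) (nat_lit 6602752)) (I.pos (nat_lit 100794368) (nat_lit 149061632)) (I.mix (nat_lit 64684032) (nat_lit 27934720)) (I.mix (nat_lit 30162944) (nat_lit 40009728)) (I.mix (nat_lit 36192256) (nat_lit 44187648)))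
  false (nat_lit 0)
def b1_11 : Bx := Bx.mk (St.mk (I.pos (nat_lit 92274688) (nat_lit 124190720)) (I.mix (nat_lit 9797632) (nat_lit 11304960)) (I.mix (nat_lit 11517952) (nat_lit 7372800)) (I.pos (nat_lit 57638912) (nat_lit 95600640)) (I.mix (nat_lit 48070656) (nat_lit 22216704)) (I.mix (nat_lit 29147136) (nat_lit 26476544)) (I.mix (nat_lit 23117824) (nat_lit 21217280)))
  false (nat_lit 0)
def b1_12 : Bx := Bx.mk (St.mk (I.mix (nat_lit 28229632) (nat_lit 106725376)) (I.mix (nat_lit 15007744) (nat_lit 4718592)) (I.mix (nat_lit 8896512) (nat_lit 2277376)) (I.pos (nat_lit 17432576) (nat_lit 73744384)) (I.mix (nat_lit 38322176) (nat_lit 17367040)) (I.mix (nat_lit 18841600) (nat_lit 24002560)) (I.mix (nat_lit 11714560) (nat_lit 14680064)))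
  false (nat_lit 0)
def b1_13 : Bx := Bx.mk (St.mk (I.neg (nat_lit 4096000) (nat_lit 24788992)) (I.mix (nat_lit 3964928) (nat_lit 4800512)) (I.mix (nat_lit 2457600) (nat_lit 344064)) (I.pos (nat_lit 18284544) (nat_lit 39829504)) (I.mix (nat_lit 10928128) (nat_lit 6045696)) (I.mix (nat_lit 5914624) (nat_lit 5701632)) (I.mix (nat_lit 1294336) (nat_lit 1212416)))
  false (nat_lit 0)
def b1_14 : Bx := Bx.mk (St.mk (I.pos (nat_lit 201687040) (nat_lit 248201216)) (I.mix (nat_lit 14417920) (nat_lit 15728640)) (I.mix (nat_lit 36503552) (nat_lit 25460736)) (I.pos (nat_lit 205832192) (nat_lit 291094528)) (I.mix (nat_lit 100925440) (nat_lit 17891328)) (I.mix (nat_lit 42287104) (nat_lit 47005696)) (I.mix (nat_lit 77381632) (nat_lit 88965120)))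
  false (nat_lit 0)
def b1_15 : Bx := Bx.mk (St.mk (I.pos (nat_lit 146751488) (nat_lit 178208768)) (I.neg (nat_lit 4554752) (nat_lit 36978688)) (I.mix (nat_lit 35471360) (nat_lit 1671168)) (I.pos (nat_lit 113082368) (nat_lit 163790848)) (I.mix (nat_lit 48775168) (nat_lit 30425088)) (I.mix (nat_lit 29999104) (nat_lit 32145408)) (I.mix (nat_lit 33783808) (nat_lit 32915456)))
  false (nat_lit 0)
def t1 : BTr := (BTr.n (BTr.n (BTr.n (BTr.n (BTr.b b1_0) (BTr.b b1_1)) (BTr.n (BTr.b b1_2) (BTr.b b1_3))) (BTr.n (BTr.n (BTr.b b1_4) (BTr.b b1_5)) (BTr.n (BTr.b b1_6) (BTr.b b1_7)))) (BTr.n (BTr.n (BTr.n (BTr.b b1_8) (BTr.b b1_9)) (BTr.n (BTr.b b1_10) (BTr.b b1_11))) (BTr.n (BTr.n (BTr.b b1_12) (BTr.b b1_13)) (BTr.n (BTr.b b1_14) (BTr.b b1_15)))))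
namespace T1
def l0 : Tr := Tr.L (Pth.l (Pth.l (Pth.l (Pth.l Pth.z))))
def l1 : Tr := Tr.L (Pth.l (Pth.l (Pth.l (Pth.r Pth.z))))
def l2 : Tr := Tr.L (Pth.l (Pth.l (Pth.r (Pth.l Pth.z))))
def l3 : Tr := Tr.L (Pth.l (Pth.l (Pth.r (Pth.r Pth.z))))
def l4 : Tr := Tr.L (Pth.l (Pth.r (Pth.l (Pth.l Pth.z))))
def l5 : Tr := Tr.L (Pth.l (Pth.r (Pth.l (Pth.r Pth.z))))
def l6 : Tr := Tr.L (Pth.l (Pth.r (Pth.r (Pth.l Pth.z))))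
def l7 : Tr := Tr.L (Pth.l (Pth.r (Pth.r (Pth.r Pth.z))))
def l8 : Tr := Tr.L (Pth.r (Pth.l (Pth.l (Pth.l Pth.z))))
def l9 : Tr := Tr.L (Pth.r (Pth.l (Pth.l (Pth.r Pth.z))))
def l10 : Tr := Tr.L (Pth.r (Pth.l (Pth.r (Pth.l Pth.z))))
def l11 : Tr := Tr.L (Pth.r (Pth.l (Pth.r (Pth.r Pth.z))))
def l12 : Tr := Tr.L (Pth.r (Pth.r (Pth.l (Pth.l Pth.z))))
def l13 : Tr := Tr.L (Pth.r (Pth.r (Pth.l (Pth.r Pth.z))))
def l14 : Tr := Tr.L (Pth.r (Pth.r (Pth.r (Pth.l Pth.z))))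
def l15 : Tr := Tr.L (Pth.r (Pth.r (Pth.r (Pth.r Pth.z))))
end T1
def b2_0 : Bx := Bx.mk (St.mk (I.pos (nat_lit 121503744) (nat_lit 217907200)) (I.mix (nat_lit 2441216) (nat_lit 78479360)) (I.mix (nat_lit 4177920) (nat_lit 136904704)) (I.pos (nat_lit 348979200) (nat_lit 455196672)) (I.mix (nat_lit 173015040) (nat_lit 76398592)) (I.mix (nat_lit 104775680) (nat_lit 86736896)) (I.mix (nat_lit 115064832) (nat_lit 99336192)))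
  false (nat_lit 114694523)
def b2_1 : Bx := Bx.mk (St.mk (I.pos (nat_lit 38502400) (nat_lit 116244480)) (I.neg (nat_lit 3522560) (nat_lit 96272384)) (I.mix (nat_lit 34701312) (nat_lit 53854208)) (I.pos (nat_lit 282394624) (nat_lit 330973184)) (I.mix (nat_lit 122060800) (nat_lit 115310592)) (I.mix (nat_lit 105807872) (nat_lit 90767360)) (I.mix (nat_lit 94453760) (nat_lit 83050496)))
  false (nat_lit 162528631)
def b2_2 : Bx := Bx.mk (St.mk (I.pos (nat_lit 100876288) (nat_lit 165036032)) (I.mix (nat_lit 43122688) (nat_lit 72859648)) (I.pos (nat_lit 14565376) (nat_lit 138985472)) (I.pos (nat_lit 306954240) (nat_lit 390152192)) (I.mix (nat_lit 197066752) (nat_lit 95207424)) (I.mix (nat_lit 150208512) (nat_lit 119390208)) (I.mix (nat_lit 165707776) (nat_lit 146833408)))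
  false (nat_lit 130456360)
def b2_3 : Bx := Bx.mk (St.mk (I.neg (nat_lit 38502400) (nat_lit 116768768)) (I.pos (nat_lit 2048000) (nat_lit 96272384)) (I.mix (nat_lit 34701312) (nat_lit 54411264)) (I.pos (nat_lit 282378240) (nat_lit 330973184)) (I.mix (nat_lit 115310592) (nat_lit 122011648)) (I.mix (nat_lit 90767360) (nat_lit 105807872)) (I.mix (nat_lit 94453760) (nat_lit 83066880)))
  true (nat_lit 35800468)
def b2_4 : Bx := Bx.mk (St.mk (I.pos (nat_lit 76627968) (nat_lit 117653504)) (I.neg (nat_lit 1294336) (nat_lit 37683200)) (I.pos (nat_lit 18464768) (nat_lit 55148544)) (I.pos (nat_lit 290586624) (nat_lit 328974336)) (I.mix (nat_lit 86523904) (nat_lit 81494016)) (I.mix (nat_lit 57819136) (nat_lit 71778304)) (I.mix (nat_lit 55263232) (nat_lit 59162624)))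
  false (nat_lit 29247626)
def b2_5 : Bx := Bx.mk (St.mk (I.mix (nat_lit 69156864) (nat_lit 12632064)) (I.mix (nat_lit 12173312) (nat_lit 88473600)) (I.mix (nat_lit 22953984) (nat_lit 1097728)) (I.pos (nat_lit 268107776) (nat_lit 306069504)) (I.mix (nat_lit 89423872) (nat_lit 103497728)) (I.mix (nat_lit 82690048) (nat_lit 72581120)) (I.mix (nat_lit 39141376) (nat_lit 29130752)))
  true (nat_lit 0)
def b2_6 : Bx := Bx.mk (St.mk (I.pos (nat_lit 25329664) (nat_lit 69271552)) (I.neg (nat_lit 37404672) (nat_lit 88457216)) (I.neg (nat_lit 1343488) (nat_lit 22953984)) (I.pos (nat_lit 280035328) (nat_lit 306069504)) (I.mix (nat_lit 103497728) (nat_lit 72220672)) (I.mix (nat_lit 72581120) (nat_lit 78004224)) (I.mix (nat_lit 39141376) (nat_lit 29130752)))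
  false (nat_lit 85219614)
def b2_7 : Bx := Bx.mk (St.mk (I.mix (nat_lit 12566528) (nat_lit 56819712)) (I.mix (nat_lit 49463296) (nat_lit 12255232)) (I.mix (nat_lit 12156928) (nat_lit 999424)) (I.pos (nat_lit 268566528) (nat_lit 288751616)) (I.mix (nat_lit 58785792) (nat_lit 66142208)) (I.mix (nat_lit 45891584) (nat_lit 44646400)) (I.mix (nat_lit 11534336) (nat_lit 14401536)))
  false (nat_lit 0)
def b2_8 : Bx := Bx.mk (St.mk (I.pos (nat_lit 176586752) (nat_lit 289243136)) (I.mix (nat_lit 26492928) (nat_lit 55148544)) (I.mix (nat_lit 64897024) (nat_lit 95649792)) (I.pos (nat_lit 401522688) (nat_lit 586858496)) (I.mix (nat_lit 94863360) (nat_lit 76808192)) (I.mix (nat_lit 77660160) (nat_lit 67239936)) (I.mix (nat_lit 133480448) (nat_lit 106545152)))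
  false (nat_lit 80233463)
def b2_9 : Bx := Bx.mk (St.mk (I.pos (nat_lit 141950976) (nat_lit 194215936)) (I.pos (nat_lit 18694144) (nat_lit 74072064)) (I.pos (nat_lit 47874048) (nat_lit 128925696)) (I.pos (nat_lit 363790336) (nat_lit 421199872)) (I.mix (nat_lit 152436736) (nat_lit 85147648)) (I.mix (nat_lit 108937216) (nat_lit 66093056)) (I.mix (nat_lit 148389888) (nat_lit 87703552)))
  false (nat_lit 71488226)
def b2_10 : Bx := Bx.mk (St.mk (I.pos (nat_lit 26574848) (nat_lit 61898752)) (I.neg (nat_lit 25264128) (nat_lit 71647232)) (I.neg (nat_lit 360448) (nat_lit 20348928)) (I.pos (nat_lit 279281664) (nat_lit 295075840)) (I.mix (nat_lit 91373568) (nat_lit 89407488)) (I.mix (nat_lit 58245120) (nat_lit 82690048)) (I.mix (nat_lit 25329664) (nat_lit 24707072)))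
  false (nat_lit 72106907)
def t2 : BTr := (BTr.n (BTr.n (BTr.n (BTr.b b2_0) (BTr.b b2_1)) (BTr.n (BTr.b b2_2) (BTr.n (BTr.b b2_3) (BTr.b b2_4)))) (BTr.n (BTr.n (BTr.b b2_5) (BTr.n (BTr.b b2_6) (BTr.b b2_7))) (BTr.n (BTr.b b2_8) (BTr.n (BTr.b b2_9) (BTr.b b2_10)))))
namespace T2
def l0 : Tr := Tr.L (Pth.l (Pth.l (Pth.l Pth.z)))
def l1 : Tr := Tr.L (Pth.l (Pth.l (Pth.r Pth.z)))
def l2 : Tr := Tr.L (Pth.l (Pth.r (Pth.l Pth.z)))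
def l3 : Tr := Tr.L (Pth.l (Pth.r (Pth.r (Pth.l Pth.z))))
def l4 : Tr := Tr.L (Pth.l (Pth.r (Pth.r (Pth.r Pth.z))))
def l5 : Tr := Tr.L (Pth.r (Pth.l (Pth.l Pth.z)))
def l6 : Tr := Tr.L (Pth.r (Pth.l (Pth.r (Pth.l Pth.z))))
def l7 : Tr := Tr.L (Pth.r (Pth.l (Pth.r (Pth.r Pth.z))))
def l8 : Tr := Tr.L (Pth.r (Pth.r (Pth.l Pth.z)))
def l9 : Tr := Tr.L (Pth.r (Pth.r (Pth.r (Pth.l Pth.z))))
def l10 : Tr := Tr.L (Pth.r (Pth.r (Pth.r (Pth.r Pth.z))))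
end T2
theorem bx0_0 : BoxOK sI cl4 cl4 cl9 t0 t2 b0_0 :=
  box_mk (TrL.c (I.pos (nat_lit 0) (nat_lit 0)) (xb (xa (xb T0.l9 T0.l9) (xb T0.l0 T0.l0)) (xa (xb (xa (xb T0.l0 T0.l9) (xb T0.l0 T0.l0)) (xa (xb (xa T0.l9 T0.l0) (xa (xb T0.l0 T0.l0) (xb T0.l0 T0.l0))) (xb T0.l0 (xa T0.l0 T0.l0)))) (xb (xa T0.l0 T0.l0) (xa (xb T0.l0 (xa T0.l0 T0.l0)) (xb T0.l0 (xa (xb T0.l0 T0.l0) (xb T0.l0 T0.l0)))))))
  (TrL.c (I.pos (nat_lit 0) (nat_lit 0)) (xb T2.l1 (xa (xb T2.l1 T2.l1) T2.l1))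
  (TrL.c (I.pos (nat_lit 0) (nat_lit 0)) (xb T0.l1 (xa T0.l1 (xb T0.l1 T0.l1)))
  (TrL.c (I.pos (nat_lit 0) (nat_lit 0)) (xb (xa T2.l2 (xb T2.l2 (xa T2.l2 T2.l2))) (xa (xb T2.l2 (xa T2.l2 T2.l2)) (xb (xa T2.l2 (xb T2.l2 (xe T2.l2 T2.l2))) (xa (xb T2.l2 (xc T2.l2 T2.l2)) (xb (xe T2.l2 T2.l2) (xe (xc T2.l2 T2.l2) (xc T2.l2 T2.l2)))))))
  (TrL.c (I.pos (nat_lit 0) (nat_lit 0)) (xb (xa T0.l2 T0.l2) (xa T0.l2 (xb T0.l2 T0.l2)))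
  (TrL.c (I.pos (nat_lit 0) (nat_lit 0)) (xb T2.l3 (xa (xb T2.l3 T2.l3) T2.l3))
  TrL.n)))))) (by decide +kernel)
theorem bx0_1 : BoxOK sI cl4 cl4 cl9 t0 t2 b0_1 :=
  box_mk (TrL.c (I.pos (nat_lit 0) (nat_lit 0)) (xb T2.l4 T2.l4)
  (TrL.c (I.pos (nat_lit 0) (nat_lit 0)) (xb T0.l1 T0.l3)
  TrL.n)) (by decide +kernel)
theorem bx0_2 : BoxOK sI cl4 cl4 cl9 t0 t2 b0_2 :=
  box_mk (TrL.c (I.pos (nat_lit 0) (nat_lit 0)) (xb (xa (xb (xa (xb T0.l4 T0.l4) T0.l4) (xa (xb T0.l4 T0.l4) T0.l4)) (xb T0.l9 T0.l9)) (xa (xb (xa (xb T0.l4 T0.l4) T0.l9) (xa (xb T0.l9 T0.l9) T0.l9)) T0.l9))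
  (TrL.c (I.pos (nat_lit 0) (nat_lit 0)) T2.l4
  (TrL.c (I.pos (nat_lit 0) (nat_lit 0)) T0.l1
  (TrL.c (I.pos (nat_lit 0) (nat_lit 0)) (xb T2.l2 T2.l2)
  (TrL.c (I.pos (nat_lit 0) (nat_lit 0)) T0.l5
  (TrL.c (I.pos (nat_lit 0) (nat_lit 0)) T2.l3
  TrL.n)))))) (by decide +kernel)
theorem bx0_3 : BoxOK sI cl4 cl4 cl9 t0 t2 b0_3 :=
  box_mk (TrL.c (I.pos (nat_lit 0) (nat_lit 0)) T2.l4
  (TrL.c (I.pos (nat_lit 0) (nat_lit 0)) T0.l1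
  TrL.n)) (by decide +kernel)
theorem bx0_4 : BoxOK sI cl4 cl4 cl9 t0 t2 b0_4 :=
  box_mk (TrL.c (I.pos (nat_lit 0) (nat_lit 0)) (xa T0.l0 T0.l7)
  (TrL.c (I.pos (nat_lit 0) (nat_lit 0)) (xa T2.l1 T2.l1)
  (TrL.c (I.pos (nat_lit 0) (nat_lit 0)) T0.l8
  (TrL.c (I.pos (nat_lit 0) (nat_lit 0)) (xa T2.l2 (xb (xa T2.l2 (xe (xb T2.l2 T2.l2) T2.l2)) T2.l2))
  (TrL.c (I.pos (nat_lit 0) (nat_lit 0)) T0.l6
  (TrL.c (I.pos (nat_lit 0) (nat_lit 0)) (xa T2.l3 T2.l3)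
  TrL.n)))))) (by decide +kernel)
theorem bx0_5 : BoxOK sI cl4 cl4 cl9 t0 t2 b0_5 :=
  box_mk (TrL.c (I.pos (nat_lit 0) (nat_lit 0)) (xb T0.l4 (xa (xb T0.l4 (xa T0.l4 T0.l4)) T0.l4))
  (TrL.c (I.pos (nat_lit 0) (nat_lit 0)) T2.l1
  (TrL.c (I.pos (nat_lit 0) (nat_lit 0)) T0.l1
  (TrL.c (I.pos (nat_lit 0) (nat_lit 0)) T2.l2
  (TrL.c (I.pos (nat_lit 0) (nat_lit 0)) T0.l5
  (TrL.c (I.pos (nat_lit 0) (nat_lit 0)) T2.l3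
  TrL.n)))))) (by decide +kernel)
theorem bx0_6 : BoxOK sI cl4 cl4 cl9 t0 t2 b0_6 :=
  box_mk (TrL.c (I.pos (nat_lit 0) (nat_lit 0)) (xa (xb (xa (xb (xa (xb (xa T0.l9 T0.l9) T0.l9) T0.l9) (xa (xb T0.l9 T0.l9) T0.l9)) (xb T0.l9 T0.l9)) (xa (xb T0.l9 (xa (xb T0.l9 (xa T0.l9 T0.l9)) T0.l9)) T0.l9)) (xb (xa T0.l9 (xb (xa T0.l9 T0.l9) T0.l9)) T0.l9))
  (TrL.c (I.pos (nat_lit 0) (nat_lit 0)) (xa (xb T2.l1 T2.l1) T2.l1)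
  (TrL.c (I.pos (nat_lit 0) (nat_lit 0)) (xa (xb T0.l1 T0.l1) T0.l1)
  (TrL.c (I.pos (nat_lit 0) (nat_lit 0)) (xa (xb T2.l2 T2.l2) (xb (xa T2.l2 T2.l2) T2.l2))
  (TrL.c (I.pos (nat_lit 0) (nat_lit 0)) (xa (xb T0.l10 T0.l10) T0.l10)
  (TrL.c (I.pos (nat_lit 0) (nat_lit 0)) (xa (xb T2.l3 T2.l3) T2.l3)
  TrL.n)))))) (by decide +kernel)
theorem bx0_7 : BoxOK sI cl4 cl4 cl9 t0 t2 b0_7 :=
  box_mk (TrL.c (I.pos (nat_lit 0) (nat_lit 0)) (xb (xa (xb (xa (xb (xa T0.l9 T0.l9) (xa T0.l9 T0.l9)) (xb (xa T0.l9 T0.l9) T0.l9)) (xa (xb T0.l9 (xa T0.l9 T0.l9)) (xb T0.l9 T0.l9))) (xb (xa (xb (xa T0.l9 T0.l9) T0.l9) (xb (xa T0.l9 T0.l9) T0.l9)) (xa (xb T0.l9 T0.l9) (xb T0.l9 T0.l9)))) (xa (xb (xa (xb (xa T0.l9 T0.l9) (xa (xb T0.l9 T0.l9) T0.l9)) (xb T0.l9 T0.l9)) (xa (xb (xa (xb T0.l9 T0.l9) T0.l9) (xa (xb T0.l9 (xa T0.l9 T0.l9)) (xb T0.l9 T0.l9)))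 (xb T0.l9 (xa T0.l9 T0.l9)))) (xb (xa T0.l9 (xb T0.l9 T0.l9)) (xa (xb T0.l9 (xa T0.l9 T0.l9)) (xb (xa T0.l9 T0.l9) (xa (xb T0.l9 (xa T0.l9 T0.l9)) T0.l0))))))
  (TrL.c (I.pos (nat_lit 0) (nat_lit 0)) (xb (xa (xb T2.l1 T2.l1) T2.l1) (xa (xb T2.l1 T2.l1) (xb T2.l1 T2.l1)))
  (TrL.c (I.pos (nat_lit 0) (nat_lit 0)) (xb (xa T0.l1 T0.l1) (xa T0.l1 T0.l1))
  (TrL.c (I.pos (nat_lit 0) (nat_lit 0)) (xb (xa (xb (xa (xb T2.l2 T2.l2) (xb (xa T2.l2 T2.l2) T2.l2)) T2.l2) (xb (xa (xb (xa T2.l2 T2.l2) T2.l2) (xb (xa T2.l2 T2.l2) T2.l2)) T2.l2)) (xa (xb T2.l2 (xa (xb T2.l2 T2.l2) T2.l2)) (xb (xa T2.l2 T2.l2) (xa T2.l2 (xb T2.l2 T2.l2)))))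
  (TrL.c (I.pos (nat_lit 0) (nat_lit 0)) (xa (xb T0.l10 (xb T0.l10 T0.l10)) (xb T0.l6 (xc (xb T0.l2 T0.l2) (xb T0.l2 T0.l2))))
  (TrL.c (I.pos (nat_lit 0) (nat_lit 0)) (xb (xa (xb T2.l3 T2.l3) T2.l3) (xa (xb T2.l3 T2.l3) (xb T2.l3 T2.l3)))
  TrL.n)))))) (by decide +kernel)
theorem bx0_8 : BoxOK sI cl4 cl4 cl9 t0 t2 b0_8 :=
  box_mk (TrL.c (I.pos (nat_lit 0) (nat_lit 0)) (xa T2.l1 (xb T2.l1 T2.l4))
  (TrL.c (I.pos (nat_lit 0) (nat_lit 0)) (xa T0.l1 (xb T0.l1 T0.l1))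
  TrL.n)) (by decide +kernel)
theorem c0_9_0 : chkTag sI cl4 cl4 cl9 t0 b0_9 (tg true true false RT.r2) (I.pos (nat_lit 0) (nat_lit 0))
  (xb (xa (xb (xa (xb (xc T0.l9 T0.l0) (xc T0.l9 T0.l0)) (xb (xc T0.l0 T0.l0) (xc T0.l0 T0.l0))) (xa (xb T0.l9 T0.l9) (xb (xc T0.l9 T0.l0) (xc T0.l9 T0.l0)))) (xb (xa (xb T0.l0 T0.l0) (xb (xc T0.l0 T0.l7) T0.l7)) (xa (xb T0.l0 T0.l0) (xb T0.l7 (xc T0.l0 T0.l0))))) (xa (xb (xa (xb T0.l9 T0.l9) (xb (xc T0.l9 T0.l0) (xa T0.l9 T0.l0))) (xa (xb (xc T0.l9 T0.l9) (xa (xc T0.l9 (xb T0.l0 T0.l9)) (xc (xb T0.l0 T0.l0) (xb T0.l0 T0.l0)))) (xb (xa T0.l9 T0.l0) (xa (xc (xb T0.l0 T0.l0) T0.l0) (xc T0.l0 T0.l0))))) (xb (xa (xb T0.l0 (xc T0.l0 T0.l0)) (xb (xc T0.l0 T0.l0) (xa T0.l0 T0.l0))) (xa (xb (xc T0.l0 T0.l0) (xa T0.l0 T0.l0)) (xb (xa T0.l0 (xc T0.l0 T0.l0)) (xa (xc T0.l0 T0.l0) (xc T0.l0 (xb T0.l0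 T0.l0)))))))) = true := by decide +kernel
theorem c0_9_1 : chkTag sI cl4 cl4 cl9 t2 b0_9 (tg true false false RT.r3) (I.pos (nat_lit 0) (nat_lit 0))
  (xb (xa (xb T2.l1 T2.l1) (xb T2.l1 T2.l1)) (xa (xb T2.l1 T2.l1) (xb T2.l1 (xc T2.l1 T2.l1)))) = true := by decide +kernel
theorem c0_9_2 : chkTag sI cl4 cl4 cl9 t0 b0_9 (tg true true true RT.r4) (I.pos (nat_lit 0) (nat_lit 0))
  (xc (xb (xa T0.l1 (xb T0.l1 T0.l1)) (xa T0.l1 (xb T0.l1 T0.l1))) (xb (xa T0.l1 (xb T0.l1 T0.l1)) (xa T0.l1 (xb T0.l1 T0.l1)))) = true := by decide +kernel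
theorem c0_9_3 : chkTag sI cl4 cl4 cl9 t2 b0_9 (tg false false false RT.r3) (I.pos (nat_lit 0) (nat_lit 0))
  (xb (xa (xb (xc (xa T2.l2 (xb T2.l2 T2.l2)) (xa T2.l2 T2.l2)) (xc T2.l2 T2.l2)) (xb (xc (xa (xb (xc T2.l2 T2.l2) T2.l2) (xb (xe (xc T2.l2 T2.l2) (xa T2.l2 T2.l2)) (xe T2.l2 T2.l2))) (xa (xb (xc T2.l2 T2.l2) T2.l2) (xb (xe (xa T2.l2 (xc T2.l2 T2.l2)) (xa T2.l2 (xc T2.l2 T2.l2))) (xe (xa T2.l2 T2.l2) T2.l2)))) (xc (xa T2.l2 (xb (xe T2.l2 T2.l2) T2.l2)) (xa T2.l2 (xb T2.l2 T2.l2))))) (xa (xb (xc T2.l2 (xa T2.l2 T2.l2)) (xc (xa T2.l2 T2.l2) (xa T2.l2 (xb T2.l2 T2.l2)))) (xb (xc (xa (xb T2.l2 T2.l2) (xb (xe T2.l2 T2.l2) (xe (xa T2.l2 T2.l2) T2.l2))) (xa (xb T2.l2 T2.l2) (xb (xe T2.l2 T2.l2) (xe (xa T2.l2 T2.l2) T2.l2)))) (xc (xa (xb T2.l2 (xe T2.l2 T2.l2)) (xb (xe (xc T2.l2 T2.l2) (xa T2.l2 T2.l2)) (xe (xc (xa T2.l2 T2.l2)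 (xa T2.l2 T2.l2)) (xc T2.l2 T2.l2)))) (xa (xb (xe T2.l2 T2.l2) (xe T2.l2 T2.l2)) (xb (xe (xa T2.l2 (xc T2.l2 T2.l2)) (xa T2.l2 T2.l2)) (xe (xa (xc T2.l2 T2.l2) (xc T2.l2 T2.l2)) (xa T2.l2 (xc T2.l2 T2.l2))))))))) = true := by decide +kernel
theorem c0_9_4 : chkTag sI cl4 cl4 cl9 t0 b0_9 (tg false true false RT.r4) (I.pos (nat_lit 0) (nat_lit 0))
  (xb (xc (xa T0.l2 (xb T0.l2 T0.l2)) (xa T0.l2 (xb T0.l2 T0.l2))) (xc (xa T0.l2 (xb T0.l2 T0.l2)) (xa T0.l2 (xb T0.l2 T0.l2)))) = true := by decide +kernel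
theorem c0_9_5 : chkTag sI cl4 cl4 cl9 t2 b0_9 (tg false false true RT.r5) (I.pos (nat_lit 0) (nat_lit 0))
  (xb (xa (xb T2.l3 T2.l3) (xb T2.l3 T2.l3)) (xa (xb T2.l3 T2.l3) (xb T2.l3 (xc T2.l3 T2.l3)))) = true := by decide +kernel
theorem bx0_9 : BoxOK sI cl4 cl4 cl9 t0 t2 b0_9 :=
  box_mk' [(tg true true false RT.r2), (tg true false false RT.r3), (tg true true true RT.r4), (tg false false false RT.r3), (tg false true false RT.r4), (tg false false true RT.r5)] rfl (allL_c (ex_mk c0_9_0) (allL_c (ex_mk c0_9_1) (allL_c (ex_mk c0_9_2) (allL_c (ex_mk c0_9_3) (allL_c (ex_mk c0_9_4) (allL_c (ex_mk c0_9_5) allL_n))))))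
theorem bx0_10 : BoxOK sI cl4 cl4 cl9 t0 t2 b0_10 :=
  box_mk (TrL.c (I.pos (nat_lit 0) (nat_lit 0)) (xb (xa (xb (xa (xb (xa T0.l4 T0.l4) T0.l4) T0.l4) (xa (xb T0.l4 T0.l4) T0.l4)) (xb T0.l4 T0.l4)) (xa (xb T0.l4 (xa (xb T0.l4 T0.l4) (xb T0.l4 T0.l4))) (xb T0.l4 (xa (xb T0.l4 T0.l4) (xb T0.l4 T0.l4)))))
  (TrL.c (I.pos (nat_lit 0) (nat_lit 0)) T2.l4
  (TrL.c (I.pos (nat_lit 0) (nat_lit 0)) T0.l1
  (TrL.c (I.pos (nat_lit 0) (nat_lit 0)) T2.l2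
  (TrL.c (I.pos (nat_lit 0) (nat_lit 0)) T0.l5
  (TrL.c (I.pos (nat_lit 0) (nat_lit 0)) (xb T2.l3 T2.l3)
  TrL.n)))))) (by decide +kernel)
theorem sv0 : StarV sI cl4 cl4 cl9 t0 t2 t0 :=
  (bt_n (bt_n (bt_n (bt_b bx0_0) (bt_b bx0_1)) (bt_n (bt_b bx0_2) (bt_n (bt_b bx0_3) (bt_b bx0_4)))) (bt_n (bt_n (bt_b bx0_5) (bt_n (bt_b bx0_6) (bt_b bx0_7))) (bt_n (bt_b bx0_8) (bt_n (bt_b bx0_9) (bt_b bx0_10)))))
def S0 : StarD := StarD.mk cl4 cl4 cl9 0 2 t0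
theorem bx1_0 : BoxOK sI cl4 cl9 cl4 t2 t0 b1_0 :=
  box_mk (TrL.c (I.pos (nat_lit 0) (nat_lit 0)) (xa (xb (xa (xb T2.l0 T2.l0) (xb T2.l0 T2.l0)) (xa (xb (xa T2.l0 T2.l0) (xa (xb T2.l0 (xd T2.l0 T2.l0)) (xb T2.l0 (xd T2.l0 T2.l0)))) (xb T2.l0 (xa (xb T2.l0 (xd T2.l0 T2.l0)) (xb T2.l0 (xd T2.l0 T2.l0)))))) (xb (xa T2.l0 (xb T2.l0 T2.l0)) (xa (xb T2.l0 (xa (xb T2.l0 T2.l0) (xb T2.l0 T2.l0))) (xb (xa T2.l0 T2.l0) (xa (xb T2.l0 (xd T2.l0 T2.l0)) (xb T2.l0 (xd T2.l0 (xs T2.l0 T2.l0))))))))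
  (TrL.c (I.pos (nat_lit 0) (nat_lit 0)) (xa (xb T0.l6 (xa T0.l6 T0.l6)) (xb T0.l6 (xa T0.l6 (xb T0.l6 T0.l6))))
  (TrL.c (I.pos (nat_lit 0) (nat_lit 0)) (xa T2.l5 T2.l5)
  (TrL.c (I.pos (nat_lit 0) (nat_lit 0)) (xa T0.l7 (xb T0.l7 (xa T0.l7 T0.l7)))
  (TrL.c (I.pos (nat_lit 0) (nat_lit 0)) (xa (xb T2.l6 T2.l6) T2.l6)
  (TrL.c (I.pos (nat_lit 0) (nat_lit 0)) (xa (xb T0.l8 (xa T0.l8 T0.l8)) (xb T0.l8 (xa T0.l8 (xb T0.l8 T0.l8))))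
  TrL.n)))))) (by decide +kernel)
theorem bx1_1 : BoxOK sI cl4 cl9 cl4 t2 t0 b1_1 :=
  box_mk (TrL.c (I.pos (nat_lit 0) (nat_lit 0)) (xa (xb T2.l0 (xa T2.l0 T2.l0)) (xb T2.l0 T2.l0))
  (TrL.c (I.pos (nat_lit 0) (nat_lit 0)) (xa T0.l6 T0.l6)
  (TrL.c (I.pos (nat_lit 0) (nat_lit 0)) T2.l5
  (TrL.c (I.pos (nat_lit 0) (nat_lit 0)) (xa (xb (xa T0.l7 T0.l7) T0.l7) T0.l7)
  (TrL.c (I.pos (nat_lit 0) (nat_lit 0)) (xa T2.l7 T2.l7)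
  (TrL.c (I.pos (nat_lit 0) (nat_lit 0)) T0.l8
  TrL.n)))))) (by decide +kernel)
theorem bx1_2 : BoxOK sI cl4 cl9 cl4 t2 t0 b1_2 :=
  box_mk (TrL.c (I.pos (nat_lit 0) (nat_lit 0)) (xa (xa T2.l8 T2.l8) (xa (xb T2.l8 (xa T2.l8 T2.l8)) (xa (xb T2.l8 (xa T2.l8 T2.l8)) (xb T2.l8 (xa T2.l8 T2.l0)))))
  (TrL.c (I.pos (nat_lit 0) (nat_lit 0)) (xa (xa T0.l6 T0.l6) T0.l6)
  (TrL.c (I.pos (nat_lit 0) (nat_lit 0)) T2.l5
  (TrL.c (I.pos (nat_lit 0) (nat_lit 0)) (xa T0.l7 T0.l7)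
  (TrL.c (I.pos (nat_lit 0) (nat_lit 0)) T2.l7
  (TrL.c (I.pos (nat_lit 0) (nat_lit 0)) (xa T0.l8 T0.l8)
  TrL.n)))))) (by decide +kernel)
theorem bx1_3 : BoxOK sI cl4 cl9 cl4 t2 t0 b1_3 :=
  box_mk (TrL.c (I.pos (nat_lit 0) (nat_lit 0)) (xa T2.l8 T2.l8)
  (TrL.c (I.pos (nat_lit 0) (nat_lit 0)) (xa (xa T0.l7 T0.l6) T0.l6)
  (TrL.c (I.pos (nat_lit 0) (nat_lit 0)) T2.l5
  (TrL.c (I.pos (nat_lit 0) (nat_lit 0)) (xa (xa T0.l6 T0.l7) T0.l7)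
  (TrL.c (I.pos (nat_lit 0) (nat_lit 0)) T2.l7
  (TrL.c (I.pos (nat_lit 0) (nat_lit 0)) (xa (xa T0.l8 T0.l8) T0.l8)
  TrL.n)))))) (by decide +kernel)
theorem bx1_4 : BoxOK sI cl4 cl9 cl4 t2 t0 b1_4 :=
  box_mk (TrL.c (I.pos (nat_lit 0) (nat_lit 0)) (xb (xa (xb (xa T2.l9 T2.l9) (xa T2.l9 T2.l9)) (xb (xa T2.l9 (xb T2.l9 T2.l9)) (xa T2.l9 (xb T2.l9 T2.l9)))) (xa (xb (xa (xb T2.l9 T2.l9) T2.l9) (xa (xb T2.l9 (xa T2.l9 T2.l9)) (xb T2.l9 (xa T2.l9 T2.l9)))) (xb (xa T2.l9 (xb T2.l9 (xa T2.l9 T2.l9))) (xa (xb T2.l9 (xa T2.l9 T2.l9)) (xb (xa T2.l9 T2.l9) (xa T2.l9 T2.l9))))))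
  (TrL.c (I.pos (nat_lit 0) (nat_lit 0)) (xb (xa T0.l6 (xb T0.l6 T0.l6)) (xa (xb T0.l6 T0.l6) (xb T0.l6 T0.l6)))
  (TrL.c (I.pos (nat_lit 0) (nat_lit 0)) (xb T2.l5 (xa T2.l5 T2.l5))
  (TrL.c (I.pos (nat_lit 0) (nat_lit 0)) (xb (xa T0.l7 T0.l7) (xa T0.l7 (xb T0.l7 T0.l7)))
  (TrL.c (I.pos (nat_lit 0) (nat_lit 0)) (xb T2.l10 (xa T2.l10 T2.l10))
  (TrL.c (I.pos (nat_lit 0) (nat_lit 0)) (xb (xa T0.l8 (xb T0.l8 T0.l8)) (xa (xb T0.l8 T0.l8) (xb T0.l8 T0.l8)))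
  TrL.n)))))) (by decide +kernel)
theorem bx1_5 : BoxOK sI cl4 cl9 cl4 t2 t0 b1_5 :=
  box_mk (TrL.c (I.pos (nat_lit 0) (nat_lit 0)) (xb (xa T2.l0 T2.l0) (xa (xb (xa T2.l8 T2.l8) (xa T2.l8 T2.l8)) (xb T2.l0 (xa T2.l8 T2.l0))))
  (TrL.c (I.pos (nat_lit 0) (nat_lit 0)) T0.l6
  (TrL.c (I.pos (nat_lit 0) (nat_lit 0)) T2.l5
  (TrL.c (I.pos (nat_lit 0) (nat_lit 0)) (xb (xa T0.l7 T0.l7) T0.l7)
  (TrL.c (I.pos (nat_lit 0) (nat_lit 0)) T2.l7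
  (TrL.c (I.pos (nat_lit 0) (nat_lit 0)) T0.l8
  TrL.n)))))) (by decide +kernel)
theorem bx1_6 : BoxOK sI cl4 cl9 cl4 t2 t0 b1_6 :=
  box_mk (TrL.c (I.pos (nat_lit 0) (nat_lit 0)) (xa (xa (xb (xa T2.l8 T2.l8) (xa (xb T2.l8 (xa T2.l8 T2.l8)) (xb T2.l8 T2.l8))) (xb T2.l8 (xa T2.l8 T2.l8))) (xa (xb T2.l8 (xa T2.l8 T2.l8)) (xb (xa T2.l8 T2.l8) (xa (xb T2.l8 (xa T2.l8 T2.l8)) (xb T2.l8 (xa T2.l8 T2.l0))))))
  (TrL.c (I.pos (nat_lit 0) (nat_lit 0)) (xa (xa (xb T0.l7 T0.l6) T0.l6) T0.l6)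
  (TrL.c (I.pos (nat_lit 0) (nat_lit 0)) (xa T2.l5 T2.l5)
  (TrL.c (I.pos (nat_lit 0) (nat_lit 0)) (xa (xa (xb T0.l7 T0.l7) T0.l7) T0.l7)
  (TrL.c (I.pos (nat_lit 0) (nat_lit 0)) (xa T2.l7 T2.l7)
  (TrL.c (I.pos (nat_lit 0) (nat_lit 0)) (xa (xa (xb T0.l8 T0.l8) T0.l8) T0.l8)
  TrL.n)))))) (by decide +kernel)
theorem bx1_7 : BoxOK sI cl4 cl9 cl4 t2 t0 b1_7 :=
  box_mk (TrL.c (I.pos (nat_lit 0) (nat_lit 0)) (xa (xa (xb (xa (xb T2.l8 T2.l8) T2.l8) T2.l8) T2.l8) T2.l8)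
  (TrL.c (I.pos (nat_lit 0) (nat_lit 0)) (xa (xa T0.l7 T0.l6) T0.l6)
  (TrL.c (I.pos (nat_lit 0) (nat_lit 0)) (xa T2.l5 T2.l5)
  (TrL.c (I.pos (nat_lit 0) (nat_lit 0)) (xa (xa T0.l6 T0.l7) T0.l7)
  (TrL.c (I.pos (nat_lit 0) (nat_lit 0)) (xa T2.l7 T2.l7)
  (TrL.c (I.pos (nat_lit 0) (nat_lit 0)) (xa (xa T0.l8 T0.l8) T0.l8)
  TrL.n)))))) (by decide +kernel)
theorem c1_8_0 : chkTag sI cl4 cl9 cl4 t2 b1_8 (tg true true false RT.r2) (I.pos (nat_lit 0) (nat_lit 0))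
  (xb (xa (xb (xa (xb (xa T2.l9 T2.l0) (xa T2.l0 T2.l0)) (xb (xa T2.l0 T2.l0) T2.l0)) (xa (xb (xa T2.l0 T2.l0) (xa T2.l0 T2.l0)) (xb T2.l0 T2.l0))) (xb (xa (xb T2.l0 T2.l0) T2.l2) (xa (xb T2.l0 T2.l2) T2.l2))) (xa (xb (xa (xb (xa T2.l0 T2.l0) (xa T2.l0 T2.l0)) (xb (xa T2.l0 T2.l0) (xa T2.l0 T2.l0))) (xa (xb (xa (xc T2.l0 T2.l0) T2.l0) (xa (xd T2.l0 T2.l0) (xc T2.l0 (xd T2.l0 T2.l0)))) (xb (xa (xc T2.l0 T2.l0) (xc T2.l0 T2.l0)) (xa (xc T2.l0 (xd T2.l0 T2.l0)) (xc T2.l0 T2.l0))))) (xb (xa (xb (xa T2.l0 T2.l0) (xa T2.l0 T2.l2)) (xa T2.l2 T2.l2)) (xa (xb (xa (xc T2.l0 T2.l0) (xd T2.l0 T2.l0)) (xa (xd (xs T2.l0 T2.l0) (xs T2.l0 T2.l0)) (xd (xs T2.l0 T2.l0) (xs T2.l0 T2.l0)))) (xb (xa T2.l2 T2.l2) (xa (xd (xs T2.l0 T2.l0) (xs T2.l0 T2.l2)) (xs (xd T2.l0 T2.l0) (xd T2.l2 T2.l2)))))))) = true := by decide +kernel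
theorem c1_8_1 : chkTag sI cl4 cl9 cl4 t0 b1_8 (tg true false false RT.r3) (I.pos (nat_lit 0) (nat_lit 0))
  (xa (xb (xb (xa T0.l6 T0.l6) (xa T0.l6 T0.l6)) (xb (xa T0.l6 T0.l6) (xa (xc T0.l6 T0.l6) (xc T0.l6 T0.l6)))) (xb (xa (xb T0.l6 T0.l6) (xb T0.l6 T0.l6)) (xa (xb (xc T0.l6 T0.l6) (xc T0.l6 T0.l6)) (xb (xc T0.l6 T0.l6) (xc T0.l6 T0.l6))))) = true := by decide +kernel
theorem c1_8_2 : chkTag sI cl4 cl9 cl4 t2 b1_8 (tg true true true RT.r4) (I.pos (nat_lit 0) (nat_lit 0))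
  (xa (xc T2.l5 (xb T2.l5 T2.l5)) T2.l3) = true := by decide +kernel
theorem c1_8_3 : chkTag sI cl4 cl9 cl4 t0 b1_8 (tg false false false RT.r3) (I.pos (nat_lit 0) (nat_lit 0))
  (xb (xa (xb (xc T0.l7 T0.l7) (xc T0.l7 T0.l7)) (xa (xc (xb (xd T0.l7 T0.l7) T0.l7) (xb T0.l7 T0.l7)) (xc (xb (xd T0.l9 T0.l9) (xd T0.l7 T0.l7)) (xb (xd T0.l7 T0.l7) (xd T0.l7 T0.l7))))) (xa (xb (xc T0.l7 T0.l7) (xc T0.l7 T0.l7)) (xb (xc (xa T0.l7 (xd T0.l7 T0.l7)) (xa T0.l7 (xd T0.l7 T0.l7))) (xa (xc T0.l7 T0.l7) (xc (xd T0.l7 T0.l7) (xd T0.l7 T0.l7)))))) = true := by decide +kernel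
theorem c1_8_4 : chkTag sI cl4 cl9 cl4 t2 b1_8 (tg false true false RT.r4) (I.pos (nat_lit 0) (nat_lit 0))
  (xa (xc (xb T2.l6 T2.l6) (xb T2.l6 T2.l6)) T2.l1) = true := by decide +kernel
theorem c1_8_5 : chkTag sI cl4 cl9 cl4 t0 b1_8 (tg false false true RT.r5) (I.pos (nat_lit 0) (nat_lit 0))
  (xa (xb (xb (xa T0.l8 T0.l8) (xa T0.l8 T0.l8)) (xb (xa T0.l8 T0.l8) (xa (xc T0.l8 T0.l8) (xc T0.l8 T0.l8)))) (xb (xa (xb T0.l8 T0.l8) (xb T0.l8 T0.l8)) (xa (xb (xc T0.l8 T0.l8) (xc T0.l8 T0.l8)) (xb (xc T0.l8 T0.l8) (xc T0.l8 T0.l8))))) = true := by decide +kernel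
theorem bx1_8 : BoxOK sI cl4 cl9 cl4 t2 t0 b1_8 :=
  box_mk' [(tg true true false RT.r2), (tg true false false RT.r3), (tg true true true RT.r4), (tg false false false RT.r3), (tg false true false RT.r4), (tg false false true RT.r5)] rfl (allL_c (ex_mk c1_8_0) (allL_c (ex_mk c1_8_1) (allL_c (ex_mk c1_8_2) (allL_c (ex_mk c1_8_3) (allL_c (ex_mk c1_8_4) (allL_c (ex_mk c1_8_5) allL_n))))))
theorem bx1_9 : BoxOK sI cl4 cl9 cl4 t2 t0 b1_9 :=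
  box_mk (TrL.c (I.pos (nat_lit 0) (nat_lit 0)) (xb (xa (xb (xa T2.l9 T2.l9) (xa T2.l9 T2.l9)) (xb (xa T2.l9 T2.l9) (xa T2.l9 T2.l9))) (xa (xb (xa T2.l9 T2.l9) (xa T2.l9 T2.l9)) (xb (xa T2.l9 T2.l9) (xa T2.l9 T2.l9))))
  (TrL.c (I.pos (nat_lit 0) (nat_lit 0)) (xb (xa T0.l6 T0.l6) (xa T0.l6 T0.l6))
  (TrL.c (I.pos (nat_lit 0) (nat_lit 0)) (xb T2.l5 T2.l5)
  (TrL.c (I.pos (nat_lit 0) (nat_lit 0)) (xb (xa (xb T0.l7 T0.l7) (xb (xa T0.l7 (xc T0.l7 T0.l7)) T0.l7)) T0.l7)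
  (TrL.c (I.pos (nat_lit 0) (nat_lit 0)) (xb T2.l10 T2.l10)
  (TrL.c (I.pos (nat_lit 0) (nat_lit 0)) (xb (xa T0.l8 T0.l8) (xa T0.l8 T0.l8))
  TrL.n)))))) (by decide +kernel)
theorem bx1_10 : BoxOK sI cl4 cl9 cl4 t2 t0 b1_10 :=
  box_mk (TrL.c (I.pos (nat_lit 0) (nat_lit 0)) T2.l0
  (TrL.c (I.pos (nat_lit 0) (nat_lit 0)) T0.l6
  (TrL.c (I.pos (nat_lit 0) (nat_lit 0)) T2.l5
  (TrL.c (I.pos (nat_lit 0) (nat_lit 0)) T0.l7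
  (TrL.c (I.pos (nat_lit 0) (nat_lit 0)) T2.l7
  (TrL.c (I.pos (nat_lit 0) (nat_lit 0)) T0.l8
  TrL.n)))))) (by decide +kernel)
theorem bx1_11 : BoxOK sI cl4 cl9 cl4 t2 t0 b1_11 :=
  box_mk (TrL.c (I.pos (nat_lit 0) (nat_lit 0)) T2.l8
  (TrL.c (I.pos (nat_lit 0) (nat_lit 0)) T0.l6
  (TrL.c (I.pos (nat_lit 0) (nat_lit 0)) T2.l5
  (TrL.c (I.pos (nat_lit 0) (nat_lit 0)) T0.l7
  (TrL.c (I.pos (nat_lit 0) (nat_lit 0)) T2.l7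
  (TrL.c (I.pos (nat_lit 0) (nat_lit 0)) T0.l8
  TrL.n)))))) (by decide +kernel)
theorem bx1_12 : BoxOK sI cl4 cl9 cl4 t2 t0 b1_12 :=
  box_mk (TrL.c (I.pos (nat_lit 0) (nat_lit 0)) (xa (xa (xa (xb T2.l8 T2.l8) T2.l8) T2.l8) T2.l8)
  (TrL.c (I.pos (nat_lit 0) (nat_lit 0)) (xa (xa T0.l7 T0.l6) T0.l6)
  (TrL.c (I.pos (nat_lit 0) (nat_lit 0)) (xa T2.l5 T2.l5)
  (TrL.c (I.pos (nat_lit 0) (nat_lit 0)) (xa (xa T0.l6 T0.l7) T0.l7)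
  (TrL.c (I.pos (nat_lit 0) (nat_lit 0)) (xa T2.l7 T2.l7)
  (TrL.c (I.pos (nat_lit 0) (nat_lit 0)) (xa (xa T0.l8 T0.l8) T0.l8)
  TrL.n)))))) (by decide +kernel)
theorem bx1_13 : BoxOK sI cl4 cl9 cl4 t2 t0 b1_13 :=
  box_mk (TrL.c (I.pos (nat_lit 0) (nat_lit 0)) T2.l8
  (TrL.c (I.pos (nat_lit 0) (nat_lit 0)) T0.l6
  (TrL.c (I.pos (nat_lit 0) (nat_lit 0)) T2.l5
  (TrL.c (I.pos (nat_lit 0) (nat_lit 0)) T0.l7
  (TrL.c (I.pos (nat_lit 0) (nat_lit 0)) T2.l7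
  (TrL.c (I.pos (nat_lit 0) (nat_lit 0)) T0.l8
  TrL.n)))))) (by decide +kernel)
theorem bx1_14 : BoxOK sI cl4 cl9 cl4 t2 t0 b1_14 :=
  box_mk (TrL.c (I.pos (nat_lit 0) (nat_lit 0)) (xa (xb T2.l0 T2.l0) (xb T2.l2 T2.l2))
  (TrL.c (I.pos (nat_lit 0) (nat_lit 0)) (xa T0.l6 (xb (xa T0.l6 T0.l6) (xa T0.l6 T0.l6)))
  (TrL.c (I.pos (nat_lit 0) (nat_lit 0)) T2.l3
  (TrL.c (I.pos (nat_lit 0) (nat_lit 0)) (xa T0.l7 (xb T0.l0 T0.l0))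
  (TrL.c (I.pos (nat_lit 0) (nat_lit 0)) T2.l1
  (TrL.c (I.pos (nat_lit 0) (nat_lit 0)) (xa T0.l8 (xb (xa T0.l8 T0.l8) (xa T0.l8 T0.l8)))
  TrL.n)))))) (by decide +kernel)
theorem bx1_15 : BoxOK sI cl4 cl9 cl4 t2 t0 b1_15 :=
  box_mk (TrL.c (I.pos (nat_lit 0) (nat_lit 0)) T2.l0
  (TrL.c (I.pos (nat_lit 0) (nat_lit 0)) T0.l6
  (TrL.c (I.pos (nat_lit 0) (nat_lit 0)) T2.l5
  (TrL.c (I.pos (nat_lit 0) (nat_lit 0)) T0.l7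
  (TrL.c (I.pos (nat_lit 0) (nat_lit 0)) T2.l10
  (TrL.c (I.pos (nat_lit 0) (nat_lit 0)) T0.l8
  TrL.n)))))) (by decide +kernel)
theorem sv1 : StarV sI cl4 cl9 cl4 t2 t0 t1 :=
  (bt_n (bt_n (bt_n (bt_n (bt_b bx1_0) (bt_b bx1_1)) (bt_n (bt_b bx1_2) (bt_b bx1_3))) (bt_n (bt_n (bt_b bx1_4) (bt_b bx1_5)) (bt_n (bt_b bx1_6) (bt_b bx1_7)))) (bt_n (bt_n (bt_n (bt_b bx1_8) (bt_b bx1_9)) (bt_n (bt_b bx1_10) (bt_b bx1_11))) (bt_n (bt_n (bt_b bx1_12) (bt_b bx1_13)) (bt_n (bt_b bx1_14) (bt_b bx1_15)))))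
def S1 : StarD := StarD.mk cl4 cl9 cl4 2 0 t1
theorem bx2_0 : BoxOK sI cl9 cl4 cl4 t1 t1 b2_0 :=
  box_mk (TrL.c (I.pos (nat_lit 0) (nat_lit 0)) (xa (xb (xa T1.l8 (xb (xa T1.l8 T1.l0) (xa T1.l8 T1.l0))) (xa (xb T1.l8 (xa (xb T1.l8 (xc T1.l8 T1.l0)) (xb T1.l8 (xc T1.l0 T1.l0)))) (xb (xa T1.l8 (xc T1.l0 T1.l0)) (xa (xb T1.l8 (xc T1.l0 T1.l0)) (xc T1.l8 (xb T1.l0 T1.l0)))))) (xb (xa (xb T1.l0 (xa T1.l0 T1.l0)) (xb T1.l0 T1.l0)) (xa (xb (xa (xc T1.l0 T1.l0) T1.l0) (xa (xc T1.l0 (xb T1.l0 (xk T1.l0 T1.l0))) (xc T1.l0 (xb T1.l0 (xk T1.l0 T1.l0))))) (xb (xa T1.l0 T1.l0) (xa (xk (xb T1.l0 T1.l0) T1.l0) (xk (xb T1.l0 T1.l0) T1.l0))))))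
  (TrL.c (I.pos (nat_lit 0) (nat_lit 0)) (xa (xb T1.l1 (xk (xa T1.l1 T1.l1) T1.l1)) (xb T1.l1 (xk (xa T1.l1 T1.l1) T1.l1)))
  (TrL.c (I.pos (nat_lit 0) (nat_lit 124588530)) (xR T1.l6 (xR T1.l2 (xR T1.l2 (xa T1.l2 (xR T1.l2 T1.l2)))))
  (TrL.c (I.pos (nat_lit 0) (nat_lit 96881482)) (xR (xR T1.l3 T1.l3) (xR T1.l3 (xR T1.l3 (xk T1.l3 T1.l3))))
  (TrL.c (I.pos (nat_lit 0) (nat_lit 0)) (xa (xb (xk T1.l9 T1.l9) (xk T1.l4 T1.l4)) (xb (xk (xa T1.l4 (xb T1.l4 T1.l4)) (xa T1.l4 (xb T1.l4 T1.l4))) (xk (xa T1.l4 (xb T1.l4 T1.l4)) (xa T1.l4 (xb T1.l4 T1.l4)))))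
  (TrL.c (I.pos (nat_lit 0) (nat_lit 0)) (xk (xa T1.l5 T1.l5) T1.l5)
  (TrL.c (I.mix (nat_lit 17240550) (nat_lit 96881482)) (xR T1.l6 (xR T1.l6 (xR T1.l6 (xk (xR T1.l6 T1.l6) T1.l6))))
  (TrL.c (I.mix (nat_lit 17240550) (nat_lit 71940500)) (xR T1.l7 (xR T1.l7 (xR T1.l7 T1.l7)))
  TrL.n)))))))) (by decide +kernel)
theorem bx2_1 : BoxOK sI cl9 cl4 cl4 t1 t1 b2_1 :=
  box_mk (TrL.c (I.pos (nat_lit 0) (nat_lit 0)) (xb (xa (xb (xa (xb T1.l8 T1.l8) T1.l8) T1.l8) (xb T1.l8 T1.l8)) (xa (xb T1.l8 (xa T1.l8 T1.l8)) (xb T1.l8 T1.l8)))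
  (TrL.c (I.pos (nat_lit 0) (nat_lit 0)) (xb (xa T1.l1 T1.l1) T1.l1)
  (TrL.c (I.pos (nat_lit 0) (nat_lit 124588530)) (xR T1.l2 (xR T1.l2 (xR T1.l2 (xb (xa T1.l2 T1.l2) T1.l2))))
  (TrL.c (I.pos (nat_lit 0) (nat_lit 96881482)) (xR T1.l6 (xR T1.l6 (xR T1.l3 T1.l3)))
  (TrL.c (I.pos (nat_lit 0) (nat_lit 0)) (xb (xa (xk T1.l9 T1.l9) (xk T1.l9 T1.l9)) (xa T1.l9 T1.l9))
  (TrL.c (I.pos (nat_lit 0) (nat_lit 0)) T1.l5
  (TrL.c (I.mix (nat_lit 17240550) (nat_lit 96881482)) (xR T1.l6 (xR T1.l6 (xR T1.l6 T1.l6)))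
  (TrL.c (I.mix (nat_lit 17240550) (nat_lit 71940500)) T1.l6
  TrL.n)))))))) (by decide +kernel)
theorem bx2_2 : BoxOK sI cl9 cl4 cl4 t1 t1 b2_2 :=
  box_mk (TrL.c (I.pos (nat_lit 0) (nat_lit 0)) (xb (xa (xb (xa T1.l8 T1.l8) (xa (xb T1.l8 T1.l8) T1.l8)) (xb (xa T1.l8 T1.l8) (xa T1.l8 T1.l8))) (xa (xb (xa (xb T1.l8 (xc T1.l8 T1.l8)) (xb T1.l8 T1.l8)) (xa (xb (xc T1.l8 T1.l8) (xk (xc T1.l8 T1.l8) (xc T1.l8 T1.l8))) (xb (xc T1.l8 T1.l8) (xk (xc T1.l8 T1.l8) (xc T1.l8 T1.l8))))) (xb (xa (xb T1.l8 T1.l8) (xb T1.l8 T1.l8)) (xa (xb T1.l8 (xk (xc T1.l8 T1.l8) T1.l8)) (xb T1.l8 (xk (xc T1.l8 T1.l8) T1.l8))))))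
  (TrL.c (I.pos (nat_lit 0) (nat_lit 0)) (xb (xb (xk T1.l1 T1.l1) (xa T1.l1 T1.l1)) (xa (xk T1.l1 T1.l1) (xk T1.l1 T1.l1)))
  (TrL.c (I.pos (nat_lit 0) (nat_lit 124588530)) (xR T1.l6 (xR T1.l2 (xb (xR T1.l2 T1.l2) (xR T1.l2 (xa T1.l2 T1.l2)))))
  (TrL.c (I.pos (nat_lit 0) (nat_lit 96881482)) (xR T1.l6 (xR T1.l3 (xb (xR T1.l3 T1.l3) (xR T1.l3 T1.l3))))
  (TrL.c (I.pos (nat_lit 0) (nat_lit 0)) (xb (xk (xa T1.l9 (xb T1.l9 T1.l9)) (xa T1.l9 (xb T1.l9 T1.l9))) (xk (xb T1.l9 T1.l9) (xb T1.l9 T1.l9)))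
  (TrL.c (I.pos (nat_lit 0) (nat_lit 0)) (xb T1.l5 T1.l5)
  (TrL.c (I.mix (nat_lit 17240550) (nat_lit 96881482)) (xR T1.l6 (xR T1.l6 (xb (xR T1.l6 T1.l6) (xR T1.l6 T1.l6))))
  (TrL.c (I.mix (nat_lit 17240550) (nat_lit 71940500)) (xR T1.l6 (xR T1.l3 (xb T1.l3 T1.l7)))
  TrL.n)))))))) (by decide +kernel)
theorem bx2_3 : BoxOK sI cl9 cl4 cl4 t1 t1 b2_3 :=
  box_mk (TrL.c (I.pos (nat_lit 0) (nat_lit 0)) (xb (xa T1.l1 T1.l1) (xa T1.l1 T1.l1))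
  (TrL.c (I.pos (nat_lit 0) (nat_lit 0)) T1.l11
  (TrL.c (I.mix (nat_lit 17240550) (nat_lit 96881482)) (xR T1.l12 (xR T1.l12 (xR T1.l12 T1.l12)))
  (TrL.c (I.mix (nat_lit 17240550) (nat_lit 71940500)) (xR (xR T1.l12 T1.l2) T1.l2)
  TrL.n)))) (by decide +kernel)
theorem bx2_4 : BoxOK sI cl9 cl4 cl4 t1 t1 b2_4 :=
  box_mk (TrL.c (I.pos (nat_lit 0) (nat_lit 0)) T1.l8
  (TrL.c (I.pos (nat_lit 0) (nat_lit 0)) T1.l1
  (TrL.c (I.pos (nat_lit 0) (nat_lit 124588530)) (xR T1.l2 T1.l2)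
  (TrL.c (I.pos (nat_lit 0) (nat_lit 96881482)) (xR T1.l3 T1.l3)
  (TrL.c (I.pos (nat_lit 0) (nat_lit 0)) T1.l9
  (TrL.c (I.pos (nat_lit 0) (nat_lit 0)) T1.l5
  (TrL.c (I.mix (nat_lit 17240550) (nat_lit 96881482)) T1.l6
  (TrL.c (I.mix (nat_lit 17240550) (nat_lit 71940500)) T1.l6
  TrL.n)))))))) (by decide +kernel)
theorem bx2_5 : BoxOK sI cl9 cl4 cl4 t1 t1 b2_5 :=
  box_mk (TrL.c (I.pos (nat_lit 0) (nat_lit 0)) (xb (xa T1.l10 T1.l10) (xa T1.l10 T1.l10))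
  (TrL.c (I.pos (nat_lit 0) (nat_lit 0)) T1.l11
  (TrL.c (I.mix (nat_lit 17240550) (nat_lit 96881482)) (xR (xR T1.l12 T1.l12) T1.l6)
  (TrL.c (I.mix (nat_lit 17240550) (nat_lit 71940500)) (xR T1.l12 T1.l2)
  TrL.n)))) (by decide +kernel)
theorem bx2_6 : BoxOK sI cl9 cl4 cl4 t1 t1 b2_6 :=
  box_mk (TrL.c (I.pos (nat_lit 0) (nat_lit 0)) (xb (xa T1.l14 T1.l8) T1.l8)
  (TrL.c (I.pos (nat_lit 0) (nat_lit 0)) T1.l10
  (TrL.c (I.pos (nat_lit 0) (nat_lit 124588530)) (xR T1.l2 T1.l2)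
  (TrL.c (I.pos (nat_lit 0) (nat_lit 96881482)) T1.l6
  (TrL.c (I.pos (nat_lit 0) (nat_lit 0)) (xk T1.l9 T1.l9)
  (TrL.c (I.pos (nat_lit 0) (nat_lit 0)) T1.l5
  (TrL.c (I.mix (nat_lit 17240550) (nat_lit 96881482)) T1.l6
  (TrL.c (I.mix (nat_lit 17240550) (nat_lit 71940500)) T1.l6
  TrL.n)))))))) (by decide +kernel)
theorem bx2_7 : BoxOK sI cl9 cl4 cl4 t1 t1 b2_7 :=
  box_mk (TrL.c (I.pos (nat_lit 0) (nat_lit 0)) (xb (xa (xb T1.l14 T1.l14) T1.l14) (xa (xb T1.l14 T1.l14) (xa T1.l14 T1.l14)))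
  (TrL.c (I.pos (nat_lit 0) (nat_lit 0)) T1.l10
  (TrL.c (I.pos (nat_lit 0) (nat_lit 124588530)) (xR T1.l2 (xR T1.l2 T1.l2))
  (TrL.c (I.pos (nat_lit 0) (nat_lit 96881482)) T1.l6
  (TrL.c (I.pos (nat_lit 0) (nat_lit 0)) (xb T1.l15 T1.l15)
  (TrL.c (I.pos (nat_lit 0) (nat_lit 0)) T1.l5
  (TrL.c (I.mix (nat_lit 17240550) (nat_lit 96881482)) (xR T1.l6 T1.l6)
  (TrL.c (I.mix (nat_lit 17240550) (nat_lit 71940500)) T1.l6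
  TrL.n)))))))) (by decide +kernel)
theorem c2_8_0 : chkTag sI cl9 cl4 cl4 t1 b2_8 (tg true true false RT.r2) (I.pos (nat_lit 0) (nat_lit 0))
  (xa (xb (xa T1.l0 T1.l0) (xa (xb T1.l0 (xa T1.l0 T1.l0)) (xb T1.l0 (xa T1.l0 T1.l0)))) (xb (xa (xb T1.l0 T1.l0) (xb T1.l4 (xa T1.l0 T1.l0))) (xa (xb T1.l0 (xa T1.l0 T1.l0)) (xb (xa T1.l0 T1.l4) (xa T1.l0 T1.l4))))) = true := by decide +kernel
theorem c2_8_1 : chkTag sI cl9 cl4 cl4 t1 b2_8 (tg true false false RT.r3) (I.pos (nat_lit 0) (nat_lit 0))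
  (xa (xb T1.l1 (xk T1.l1 T1.l1)) (xk (xb T1.l5 (xa T1.l1 T1.l5)) (xb T1.l5 (xa T1.l1 T1.l5)))) = true := by decide +kernel
theorem c2_8_2 : chkTag sI cl9 cl4 cl4 t1 b2_8 (Tag.mk true true false RT.tl RT.r4) (I.pos (nat_lit 0) (nat_lit 124588530))
  (xR T1.l6 (xR T1.l2 (xR T1.l2 T1.l6))) = true := by decide +kernel
theorem c2_8_3 : chkTag sI cl9 cl4 cl4 t1 b2_8 (Tag.mk true false false RT.tl RT.r5) (I.pos (nat_lit 0) (nat_lit 96881482))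
  (xR (xR T1.l6 T1.l3) (xR T1.l3 (xR T1.l3 (xa T1.l3 (xk T1.l3 T1.l3))))) = true := by decide +kernel
theorem c2_8_4 : chkTag sI cl9 cl4 cl4 t1 b2_8 (tg false false false RT.r3) (I.pos (nat_lit 0) (nat_lit 0))
  (xa (xb (xk (xa (xb T1.l4 T1.l4) (xb (xk T1.l4 T1.l4) T1.l4)) (xa (xb T1.l4 T1.l4) (xb (xk T1.l4 T1.l4) T1.l4))) (xk (xa T1.l4 T1.l4) T1.l4)) (xb (xk (xa (xb (xk (xa T1.l4 T1.l4) T1.l4) T1.l4) (xb (xk (xa T1.l4 T1.l4) (xa T1.l4 T1.l4)) (xk T1.l4 T1.l4))) (xa (xb (xk T1.l4 T1.l4) T1.l4) (xb (xk (xa T1.l4 T1.l4) (xa T1.l4 T1.l4)) (xk T1.l4 T1.l4)))) (xk (xa (xb T1.l4 T1.l4) (xb (xk T1.l4 T1.l4) (xk (xa T1.l4 T1.l4) (xa T1.l4 T1.l4)))) (xa (xb T1.l4 T1.l4) (xb (xk T1.l4 T1.l4) (xk (xa T1.l4 T1.l4) (xa T1.l4 T1.l4))))))) = true := by decide +kernel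
theorem c2_8_5 : chkTag sI cl9 cl4 cl4 t1 b2_8 (tg false true false RT.r4) (I.pos (nat_lit 0) (nat_lit 0))
  (xk (xa T1.l5 (xb T1.l1 T1.l5)) (xa T1.l5 (xb T1.l5 T1.l5))) = true := by decide +kernel
theorem c2_8_6 : chkTag sI cl9 cl4 cl4 t1 b2_8 (Tag.mk false false false RT.tl RT.r5) (I.mix (nat_lit 17240550) (nat_lit 96881482))
  (xR T1.l6 (xR T1.l6 (xR T1.l6 (xb (xa T1.l6 (xR T1.l6 T1.l6)) (xk (xR T1.l6 T1.l6) T1.l6))))) = true := by decide +kernel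
theorem c2_8_7 : chkTag sI cl9 cl4 cl4 t1 b2_8 (Tag.mk false true false RT.tl RT.r6) (I.mix (nat_lit 17240550) (nat_lit 71940500))
  (xR T1.l7 (xR T1.l7 (xR T1.l7 T1.l7))) = true := by decide +kernel
theorem bx2_8 : BoxOK sI cl9 cl4 cl4 t1 t1 b2_8 :=
  box_mk' [(tg true true false RT.r2), (tg true false false RT.r3), (Tag.mk true true false RT.tl RT.r4), (Tag.mk true false false RT.tl RT.r5), (tg false false false RT.r3), (tg false true false RT.r4), (Tag.mk false false false RT.tl RT.r5), (Tag.mk false true false RT.tl RT.r6)] rfl (allL_c (ex_mk c2_8_0) (allL_c (ex_mk c2_8_1) (allL_c (ex_mk c2_8_2) (allL_c (ex_mk c2_8_3) (allL_c (ex_mk c2_8_4) (allL_c (ex_mk c2_8_5) (allL_c (ex_mk c2_8_6) (allL_c (ex_mk c2_8_7) allL_n))))))))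
theorem bx2_9 : BoxOK sI cl9 cl4 cl4 t1 t1 b2_9 :=
  box_mk (TrL.c (I.pos (nat_lit 0) (nat_lit 0)) (xa (xb (xb T1.l8 (xa T1.l0 T1.l0)) (xa (xb T1.l0 (xk T1.l0 T1.l0)) (xb T1.l0 (xk T1.l0 T1.l0)))) (xb (xa T1.l0 T1.l0) (xa (xb T1.l0 (xk T1.l0 T1.l0)) (xb T1.l0 (xk T1.l0 T1.l0)))))
  (TrL.c (I.pos (nat_lit 0) (nat_lit 0)) (xk (xb T1.l1 (xa T1.l1 T1.l1)) T1.l1)
  (TrL.c (I.pos (nat_lit 0) (nat_lit 124588530)) (xR T1.l2 (xR T1.l2 T1.l2))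
  (TrL.c (I.pos (nat_lit 0) (nat_lit 96881482)) (xR T1.l3 (xR T1.l3 T1.l3))
  (TrL.c (I.pos (nat_lit 0) (nat_lit 0)) (xk (xb T1.l4 T1.l4) (xb T1.l4 T1.l4))
  (TrL.c (I.pos (nat_lit 0) (nat_lit 0)) T1.l5
  (TrL.c (I.mix (nat_lit 17240550) (nat_lit 96881482)) (xR T1.l6 T1.l6)
  (TrL.c (I.mix (nat_lit 17240550) (nat_lit 71940500)) (xR T1.l7 T1.l7)
  TrL.n)))))))) (by decide +kernel)
theorem bx2_10 : BoxOK sI cl9 cl4 cl4 t1 t1 b2_10 :=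
  box_mk (TrL.c (I.pos (nat_lit 0) (nat_lit 0)) (xb T1.l8 T1.l14)
  (TrL.c (I.pos (nat_lit 0) (nat_lit 0)) T1.l1
  (TrL.c (I.pos (nat_lit 0) (nat_lit 124588530)) (xR T1.l2 T1.l2)
  (TrL.c (I.pos (nat_lit 0) (nat_lit 96881482)) T1.l6
  (TrL.c (I.pos (nat_lit 0) (nat_lit 0)) T1.l9
  (TrL.c (I.pos (nat_lit 0) (nat_lit 0)) T1.l5
  (TrL.c (I.mix (nat_lit 17240550) (nat_lit 96881482)) T1.l6
  (TrL.c (I.mix (nat_lit 17240550) (nat_lit 71940500)) T1.l6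
  TrL.n)))))))) (by decide +kernel)
theorem sv2 : StarV sI cl9 cl4 cl4 t1 t1 t2 :=
  (bt_n (bt_n (bt_n (bt_b bx2_0) (bt_b bx2_1)) (bt_n (bt_b bx2_2) (bt_n (bt_b bx2_3) (bt_b bx2_4)))) (bt_n (bt_n (bt_b bx2_5) (bt_n (bt_b bx2_6) (bt_b bx2_7))) (bt_n (bt_b bx2_8) (bt_n (bt_b bx2_9) (bt_b bx2_10)))))
def S2 : StarD := StarD.mk cl9 cl4 cl4 1 1 t2
def G : List StarD := [S0, S1, S2]
theorem so0 : StarOK sI G S0 :=
  star_mk (by decide) (by decide) rfl rfl rfl rfl rfl rfl (rfl : _ = t0) (rfl : _ = t2)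
  (st_mk (Pth.l (Pth.l (Pth.l Pth.z))) (nat_lit 395177923) (nat_lit 398856796) (by decide +kernel))
  (st_mk (Pth.l (Pth.l (Pth.l Pth.z))) (nat_lit 436742152) (nat_lit 441330753) (by decide +kernel))
  (st_mk (Pth.l (Pth.l (Pth.l Pth.z))) (nat_lit 485719339) (nat_lit 491541902) (by decide +kernel)) sv0
theorem so1 : StarOK sI G S1 :=
  star_mk (by decide) (by decide) rfl rfl rfl rfl rfl rfl (rfl : _ = t2) (rfl : _ = t0)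
  (st_mk (Pth.l (Pth.l (Pth.l (Pth.l Pth.z)))) (nat_lit 119150552) (nat_lit 143049025) (by decide +kernel))
  (st_mk (Pth.l (Pth.l (Pth.l (Pth.l Pth.z)))) (nat_lit 158504025) (nat_lit 183280178) (by decide +kernel))
  (st_mk (Pth.l (Pth.l (Pth.l (Pth.l Pth.z)))) (nat_lit 205758713) (nat_lit 231748310) (by decide +kernel)) sv1
theorem so2 : StarOK sI G S2 :=
  star_mk (by decide) (by decide) rfl rfl rfl rfl rfl rfl (rfl : _ = t1) (rfl : _ = t1)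
  (st_mk (Pth.l (Pth.l (Pth.l Pth.z))) (nat_lit 368170511) (nat_lit 373487423) (by decide +kernel))
  (st_mk (Pth.l (Pth.l (Pth.l Pth.z))) (nat_lit 403859785) (nat_lit 409945184) (by decide +kernel))
  (st_mk (Pth.l (Pth.l (Pth.l Pth.z))) (nat_lit 445132980) (nat_lit 452202162) (by decide +kernel)) sv2
theorem ok : GroupOK (nat_lit 209321984) (nat_lit 238944256) G := grp_mk (allS_c so0 (allS_c so1 (allS_c so2 allS_n)))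
theorem cov : GCov G cl4 cl4 cl9 := cov_mk
  ⟨0, by decide, rfl, rfl, rfl⟩ ⟨1, by decide, rfl, rfl, rfl⟩ ⟨0, by decide, rfl, rfl, rfl⟩ ⟨1, by decide, rfl, rfl, rfl⟩ ⟨2, by decide, rfl, rfl, rfl⟩ ⟨2, by decide, rfl, rfl, rfl⟩
end Q115_3


end Pool.Agent.Helper6.MONO
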