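import Pool.Agent.Helper6.MONO.Cert.C52

/-!
Certificate data (generated).
-/

set_option autoImplicit false
set_option linter.all false
noncomputable section
namespace Pool.Agent.Helper6.MONO


namespace Q115_4
def sI : I := I.pos (nat_lit 238878720) (nat_lit 268435456)
def b0_0 : Bx := Bx.mk (St.mk (I.pos (nat_lit 146898944) (nat_lit 217202688)) (I.mix (nat_lit 3096576) (nat_lit 98369536)) (I.mix (nat_lit 50200576) (nat_lit 46071808)) (I.pos (nat_lit 393478144) (nat_lit 505757696)) (I.mix (nat_lit 177373184) (nat_lit 116621312)) (I.mix (nat_lit 114360320) (nat_lit 111837184)) (I.mix (nat_lit 186335232) (nat_lit 169132032)))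
  false (nat_lit 102236729)
def b0_1 : Bx := Bx.mk (St.mk (I.mix (nat_lit 40271872) (nat_lit 12632064)) (I.mix (nat_lit 15826944) (nat_lit 75661312)) (I.neg (nat_lit 74498048) (nat_lit 104660992)) (I.pos (nat_lit 253902848) (nat_lit 284164096)) (I.mix (nat_lit 74006528) (nat_lit 160497664)) (I.mix (nat_lit 110608384) (nat_lit 80592896)) (I.mix (nat_lit 61620224) (nat_lit 59031552)))
  true (nat_lit 0)
def b0_2 : Bx := Bx.mk (St.mk (I.mix (nat_lit 10518528) (nat_lit 40288256)) (I.neg (nat_lit 27869184) (nat_lit 75661312)) (I.neg (nat_lit 74498048) (nat_lit 104677376)) (I.pos (nat_lit 256475136) (nat_lit 284164096)) (I.mix (nat_lit 160497664) (nat_lit 68042752)) (I.mix (nat_lit 80592896) (nat_lit 110608384)) (I.mix (nat_lit 61620224) (nat_lit 59031552)))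
  false (nat_lit 85324184)
def b0_3 : Bx := Bx.mk (St.mk (I.mix (nat_lit 24985600) (nat_lit 5783552)) (I.mix (nat_lit 16203776) (nat_lit 12435456)) (I.neg (nat_lit 75710464) (nat_lit 88948736)) (I.pos (nat_lit 255442944) (nat_lit 266911744)) (I.mix (nat_lit 72040448) (nat_lit 50397184)) (I.mix (nat_lit 54378496) (nat_lit 50102272)) (I.mix (nat_lit 4833280) (nat_lit 25706496)))
  true (nat_lit 0)
def b0_4 : Bx := Bx.mk (St.mk (I.pos (nat_lit 199950336) (nat_lit 249724928)) (I.mix (nat_lit 20692992) (nat_lit 19365888)) (I.neg (nat_lit 112082944) (nat_lit 181026816)) (I.pos (nat_lit 423215104) (nat_lit 514408448)) (I.mix (nat_lit 144310272) (nat_lit 73859072)) (I.mix (nat_lit 95092736) (nat_lit 88506368)) (I.mix (nat_lit 133021696) (nat_lit 184156160)))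
  false (nat_lit 65165294)
def b0_5 : Bx := Bx.mk (St.mk (I.mix (nat_lit 5537792) (nat_lit 24870912)) (I.mix (nat_lit 10125312) (nat_lit 15826944)) (I.neg (nat_lit 75874304) (nat_lit 86392832)) (I.pos (nat_lit 256131072) (nat_lit 266420224)) (I.mix (nat_lit 51200000) (nat_lit 70909952)) (I.mix (nat_lit 48562176) (nat_lit 54575104)) (I.mix (nat_lit 4767744) (nat_lit 25755648)))
  false (nat_lit 0)
def b0_6 : Bx := Bx.mk (St.mk (I.mix (nat_lit 81920) (nat_lit 119095296)) (I.neg (nat_lit 9273344) (nat_lit 77824000)) (I.neg (nat_lit 43057152) (nat_lit 110477312)) (I.pos (nat_lit 257114112) (nat_lit 333185024)) (I.mix (nat_lit 144375808) (nat_lit 66109440)) (I.mix (nat_lit 67239936) (nat_lit 95125504)) (I.mix (nat_lit 82755584) (nat_lit 84557824)))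
  false (nat_lit 82101601)
def b0_7 : Bx := Bx.mk (St.mk (I.pos (nat_lit 86065152) (nat_lit 189366272)) (I.mix (nat_lit 33456128) (nat_lit 79265792)) (I.mix (nat_lit 73646080) (nat_lit 36159488)) (I.pos (nat_lit 296534016) (nat_lit 447152128)) (I.mix (nat_lit 169820160) (nat_lit 133660672)) (I.mix (nat_lit 139116544) (nat_lit 111165440)) (I.mix (nat_lit 152092672) (nat_lit 130531328)))
  false (nat_lit 94997064)
def b0_8 : Bx := Bx.mk (St.mk (I.mix (nat_lit 118947840) (nat_lit 98304)) (I.pos (nat_lit 4325376) (nat_lit 77824000)) (I.neg (nat_lit 39403520) (nat_lit 110477312)) (I.pos (nat_lit 257114112) (nat_lit 332906496)) (I.mix (nat_lit 66125824) (nat_lit 144392192)) (I.mix (nat_lit 95141888) (nat_lit 67256320)) (I.mix (nat_lit 82771968) (nat_lit 84574208)))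
  true (nat_lit 53495298)
def b0_9 : Bx := Bx.mk (St.mk (I.pos (nat_lit 167460864) (nat_lit 241287168)) (I.mix (nat_lit 18169856) (nat_lit 88129536)) (I.mix (nat_lit 174407680) (nat_lit 13697024)) (I.pos (nat_lit 406192128) (nat_lit 529235968)) (I.mix (nat_lit 158515200) (nat_lit 148815872)) (I.mix (nat_lit 136593408) (nat_lit 127811584)) (I.mix (nat_lit 245448704) (nat_lit 170934272)))
  false (nat_lit 109194698)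
def b0_10 : Bx := Bx.mk (St.mk (I.mix (nat_lit 12517376) (nat_lit 35602432)) (I.mix (nat_lit 56246272) (nat_lit 13238272)) (I.neg (nat_lit 74776576) (nat_lit 99467264)) (I.pos (nat_lit 254558208) (nat_lit 273940480)) (I.mix (nat_lit 123650048) (nat_lit 70074368)) (I.mix (nat_lit 65536000) (nat_lit 94306304)) (I.mix (nat_lit 33996800) (nat_lit 39944192)))
  false (nat_lit 45754709)
def t0 : BTr := (BTr.n (BTr.n (BTr.n (BTr.b b0_0) (BTr.b b0_1)) (BTr.n (BTr.b b0_2) (BTr.n (BTr.b b0_3) (BTr.b b0_4)))) (BTr.n (BTr.n (BTr.b b0_5) (BTr.n (BTr.b b0_6) (BTr.b b0_7))) (BTr.n (BTr.b b0_8) (BTr.n (BTr.b b0_9) (BTr.b b0_10)))))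
namespace T0
def l0 : Tr := Tr.L (Pth.l (Pth.l (Pth.l Pth.z)))
def l1 : Tr := Tr.L (Pth.l (Pth.l (Pth.r Pth.z)))
def l2 : Tr := Tr.L (Pth.l (Pth.r (Pth.l Pth.z)))
def l3 : Tr := Tr.L (Pth.l (Pth.r (Pth.r (Pth.l Pth.z))))
def l4 : Tr := Tr.L (Pth.l (Pth.r (Pth.r (Pth.r Pth.z))))
def l5 : Tr := Tr.L (Pth.r (Pth.l (Pth.l Pth.z)))
def l6 : Tr := Tr.L (Pth.r (Pth.l (Pth.r (Pth.l Pth.z))))
def l7 : Tr := Tr.L (Pth.r (Pth.l (Pth.r (Pth.r Pth.z))))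
def l8 : Tr := Tr.L (Pth.r (Pth.r (Pth.l Pth.z)))
def l9 : Tr := Tr.L (Pth.r (Pth.r (Pth.r (Pth.l Pth.z))))
def l10 : Tr := Tr.L (Pth.r (Pth.r (Pth.r (Pth.r Pth.z))))
end T0
def b1_0 : Bx := Bx.mk (St.mk (I.pos (nat_lit 154304512) (nat_lit 224886784)) (I.mix (nat_lit 1556480) (nat_lit 45809664)) (I.mix (nat_lit 2555904) (nat_lit 82116608)) (I.pos (nat_lit 118013952) (nat_lit 242450432)) (I.mix (nat_lit 115179520) (nat_lit 64520192)) (I.mix (nat_lit 69926912) (nat_lit 64864256)) (I.mix (nat_lit 107839488) (nat_lit 95125504)))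
  false (nat_lit 17397254)
def b1_1 : Bx := Bx.mk (St.mk (I.pos (nat_lit 106594304) (nat_lit 169918464)) (I.neg (nat_lit 1589248) (nat_lit 47120384)) (I.mix (nat_lit 45465600) (nat_lit 131072)) (I.pos (nat_lit 79396864) (nat_lit 141000704)) (I.mix (nat_lit 81166336) (nat_lit 56475648)) (I.mix (nat_lit 52936704) (nat_lit 60997632)) (I.mix (nat_lit 49004544) (nat_lit 62226432)))
  false (nat_lit 43780678)
def b1_2 : Bx := Bx.mk (St.mk (I.mix (nat_lit 12435456) (nat_lit 123518976)) (I.mix (nat_lit 5914624) (nat_lit 24854528)) (I.mix (nat_lit 7438336) (nat_lit 19759104)) (I.pos (nat_lit 16007168) (nat_lit 92946432)) (I.mix (nat_lit 53428224) (nat_lit 47661056)) (I.mix (nat_lit 41009152) (nat_lit 33472512)) (I.mix (nat_lit 32784384) (nat_lit 25329664)))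
  false (nat_lit 0)
def b1_3 : Bx := Bx.mk (St.mk (I.mix (nat_lit 11780096) (nat_lit 96944128)) (I.mix (nat_lit 26558464) (nat_lit 3440640)) (I.mix (nat_lit 17137664) (nat_lit 2555904)) (I.pos (nat_lit 16711680) (nat_lit 71286784)) (I.mix (nat_lit 40534016) (nat_lit 37289984)) (I.mix (nat_lit 26034176) (nat_lit 32833536)) (I.mix (nat_lit 15532032) (nat_lit 20463616)))
  false (nat_lit 0)
def b1_4 : Bx := Bx.mk (St.mk (I.pos (nat_lit 155549696) (nat_lit 198049792)) (I.mix (nat_lit 16891904) (nat_lit 38010880)) (I.pos (nat_lit 573440) (nat_lit 70008832)) (I.pos (nat_lit 123060224) (nat_lit 195100672)) (I.mix (nat_lit 127893504) (nat_lit 42303488)) (I.mix (nat_lit 103579648) (nat_lit 61194240)) (I.mix (nat_lit 117751808) (nat_lit 62242816)))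
  false (nat_lit 0)
def b1_5 : Bx := Bx.mk (St.mk (I.pos (nat_lit 104333312) (nat_lit 141983744)) (I.mix (nat_lit 43532288) (nat_lit 10043392)) (I.mix (nat_lit 43188224) (nat_lit 5210112)) (I.pos (nat_lit 64503808) (nat_lit 113508352)) (I.mix (nat_lit 90963968) (nat_lit 60391424)) (I.mix (nat_lit 48447488) (nat_lit 78659584)) (I.mix (nat_lit 39616512) (nat_lit 63700992)))
  false (nat_lit 37689814)
def b1_6 : Bx := Bx.mk (St.mk (I.mix (nat_lit 21053440) (nat_lit 118964224)) (I.mix (nat_lit 14139392) (nat_lit 28606464)) (I.mix (nat_lit 8716288) (nat_lit 23363584)) (I.pos (nat_lit 16007168) (nat_lit 90947584)) (I.mix (nat_lit 66338816) (nat_lit 44089344)) (I.mix (nat_lit 54001664) (nat_lit 32374784)) (I.mix (nat_lit 33521664) (nat_lit 20267008)))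
  false (nat_lit 0)
def b1_7 : Bx := Bx.mk (St.mk (I.mix (nat_lit 19857408) (nat_lit 89489408)) (I.neg (nat_lit 245760) (nat_lit 27131904)) (I.mix (nat_lit 16777216) (nat_lit 1835008)) (I.pos (nat_lit 16859136) (nat_lit 67305472)) (I.mix (nat_lit 46481408) (nat_lit 26394624)) (I.mix (nat_lit 21348352) (nat_lit 36077568)) (I.mix (nat_lit 11599872) (nat_lit 17858560)))
  false (nat_lit 0)
def b1_8 : Bx := Bx.mk (St.mk (I.pos (nat_lit 184549376) (nat_lit 234635264)) (I.mix (nat_lit 12304384) (nat_lit 45088768)) (I.mix (nat_lit 28426240) (nat_lit 77922304)) (I.pos (nat_lit 179814400) (nat_lit 260669440)) (I.mix (nat_lit 126681088) (nat_lit 78757888)) (I.mix (nat_lit 89604096) (nat_lit 79298560)) (I.mix (nat_lit 153927680) (nat_lit 125812736)))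
  false (nat_lit 68312646)
def b1_9 : Bx := Bx.mk (St.mk (I.pos (nat_lit 155975680) (nat_lit 193511424)) (I.mix (nat_lit 41975808) (nat_lit 13123584)) (I.mix (nat_lit 38354944) (nat_lit 33980416)) (I.pos (nat_lit 122552320) (nat_lit 183812096)) (I.mix (nat_lit 114573312) (nat_lit 78430208)) (I.mix (nat_lit 112836608) (nat_lit 71860224)) (I.mix (nat_lit 121208832) (nat_lit 77398016)))
  false (nat_lit 32300340)
def b1_10 : Bx := Bx.mk (St.mk (I.pos (nat_lit 124338176) (nat_lit 168787968)) (I.neg (nat_lit 131072) (nat_lit 32784384)) (I.mix (nat_lit 29245440) (nat_lit 6176768)) (I.pos (nat_lit 92356608) (nat_lit 149307392)) (I.mix (nat_lit 82608128) (nat_lit 31555584)) (I.mix (nat_lit 33423360) (nat_lit 50642944)) (I.mix (nat_lit 39026688) (nat_lit 51970048)))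
  false (nat_lit 1689013)
def b1_11 : Bx := Bx.mk (St.mk (I.pos (nat_lit 90783744) (nat_lit 124518400)) (I.mix (nat_lit 9650176) (nat_lit 11485184)) (I.mix (nat_lit 11354112) (nat_lit 7749632)) (I.pos (nat_lit 56623104) (nat_lit 96763904)) (I.mix (nat_lit 53526528) (nat_lit 24870912)) (I.mix (nat_lit 31604736) (nat_lit 28655616)) (I.mix (nat_lit 24838144) (nat_lit 22872064)))
  false (nat_lit 0)
def b1_12 : Bx := Bx.mk (St.mk (I.mix (nat_lit 28868608) (nat_lit 107298816)) (I.mix (nat_lit 15253504) (nat_lit 4947968)) (I.mix (nat_lit 8994816) (nat_lit 2424832)) (I.pos (nat_lit 16973824) (nat_lit 74989568)) (I.mix (nat_lit 43581440) (nat_lit 19595264)) (I.mix (nat_lit 20414464) (nat_lit 26427392)) (I.mix (nat_lit 12615680) (nat_lit 16089088)))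
  false (nat_lit 0)
def b1_13 : Bx := Bx.mk (St.mk (I.neg (nat_lit 5668864) (nat_lit 25493504)) (I.mix (nat_lit 2605056) (nat_lit 5013504)) (I.mix (nat_lit 2490368) (nat_lit 344064)) (I.pos (nat_lit 18120704) (nat_lit 39944192)) (I.mix (nat_lit 14450688) (nat_lit 7487488)) (I.mix (nat_lit 7618560) (nat_lit 7389184)) (I.mix (nat_lit 1622016) (nat_lit 1458176)))
  false (nat_lit 0)
def b1_14 : Bx := Bx.mk (St.mk (I.pos (nat_lit 203489280) (nat_lit 246448128)) (I.mix (nat_lit 13828096) (nat_lit 16007168)) (I.mix (nat_lit 36061184) (nat_lit 25952256)) (I.pos (nat_lit 207011840) (nat_lit 290947072)) (I.mix (nat_lit 99352576) (nat_lit 10715136)) (I.mix (nat_lit 41517056) (nat_lit 42516480)) (I.mix (nat_lit 75907072) (nat_lit 78692352)))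
  false (nat_lit 0)
def b1_15 : Bx := Bx.mk (St.mk (I.pos (nat_lit 148291584) (nat_lit 178438144)) (I.neg (nat_lit 5767168) (nat_lit 34275328)) (I.mix (nat_lit 32456704) (nat_lit 1900544)) (I.pos (nat_lit 113721344) (nat_lit 165052416)) (I.mix (nat_lit 45940736) (nat_lit 30244864)) (I.mix (nat_lit 28704768) (nat_lit 29769728)) (I.mix (nat_lit 32653312) (nat_lit 31473664)))
  false (nat_lit 0)
def t1 : BTr := (BTr.n (BTr.n (BTr.n (BTr.n (BTr.b b1_0) (BTr.b b1_1)) (BTr.n (BTr.b b1_2) (BTr.b b1_3))) (BTr.n (BTr.n (BTr.b b1_4) (BTr.b b1_5)) (BTr.n (BTr.b b1_6) (BTr.b b1_7)))) (BTr.n (BTr.n (BTr.n (BTr.b b1_8) (BTr.b b1_9)) (BTr.n (BTr.b b1_10) (BTr.b b1_11))) (BTr.n (BTr.n (BTr.b b1_12) (BTr.b b1_13)) (BTr.n (BTr.b b1_14) (BTr.b b1_15)))))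
namespace T1
def l0 : Tr := Tr.L (Pth.l (Pth.l (Pth.l (Pth.l Pth.z))))
def l1 : Tr := Tr.L (Pth.l (Pth.l (Pth.l (Pth.r Pth.z))))
def l2 : Tr := Tr.L (Pth.l (Pth.l (Pth.r (Pth.l Pth.z))))
def l3 : Tr := Tr.L (Pth.l (Pth.l (Pth.r (Pth.r Pth.z))))
def l4 : Tr := Tr.L (Pth.l (Pth.r (Pth.l (Pth.l Pth.z))))
def l5 : Tr := Tr.L (Pth.l (Pth.r (Pth.l (Pth.r Pth.z))))
def l6 : Tr := Tr.L (Pth.l (Pth.r (Pth.r (Pth.l Pth.z))))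
def l7 : Tr := Tr.L (Pth.l (Pth.r (Pth.r (Pth.r Pth.z))))
def l8 : Tr := Tr.L (Pth.r (Pth.l (Pth.l (Pth.l Pth.z))))
def l9 : Tr := Tr.L (Pth.r (Pth.l (Pth.l (Pth.r Pth.z))))
def l10 : Tr := Tr.L (Pth.r (Pth.l (Pth.r (Pth.l Pth.z))))
def l11 : Tr := Tr.L (Pth.r (Pth.l (Pth.r (Pth.r Pth.z))))
def l12 : Tr := Tr.L (Pth.r (Pth.r (Pth.l (Pth.l Pth.z))))
def l13 : Tr := Tr.L (Pth.r (Pth.r (Pth.l (Pth.r Pth.z))))
def l14 : Tr := Tr.L (Pth.r (Pth.r (Pth.r (Pth.l Pth.z))))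
def l15 : Tr := Tr.L (Pth.r (Pth.r (Pth.r (Pth.r Pth.z))))
end T1
def b2_0 : Bx := Bx.mk (St.mk (I.pos (nat_lit 116277248) (nat_lit 218087424)) (I.mix (nat_lit 2473984) (nat_lit 77021184)) (I.mix (nat_lit 4210688) (nat_lit 135315456)) (I.pos (nat_lit 346046464) (nat_lit 455999488)) (I.mix (nat_lit 189497344) (nat_lit 88932352)) (I.mix (nat_lit 110706688) (nat_lit 93454336)) (I.mix (nat_lit 116948992) (nat_lit 99926016)))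
  false (nat_lit 132237636)
def b2_1 : Bx := Bx.mk (St.mk (I.pos (nat_lit 36225024) (nat_lit 113557504)) (I.neg (nat_lit 3129344) (nat_lit 95469568)) (I.mix (nat_lit 34717696) (nat_lit 52264960)) (I.pos (nat_lit 284672000) (nat_lit 332480512)) (I.mix (nat_lit 127877120) (nat_lit 126320640)) (I.mix (nat_lit 110575616) (nat_lit 92815360)) (I.mix (nat_lit 101826560) (nat_lit 86147072)))
  false (nat_lit 239832455)
def b2_2 : Bx := Bx.mk (St.mk (I.pos (nat_lit 98680832) (nat_lit 163168256)) (I.mix (nat_lit 43925504) (nat_lit 70402048)) (I.pos (nat_lit 13484032) (nat_lit 136134656)) (I.pos (nat_lit 306003968) (nat_lit 389480448)) (I.mix (nat_lit 202948608) (nat_lit 101384192)) (I.mix (nat_lit 149061632) (nat_lit 120569856)) (I.mix (nat_lit 165724160) (nat_lit 152174592)))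
  false (nat_lit 164091442)
def b2_3 : Bx := Bx.mk (St.mk (I.neg (nat_lit 36225024) (nat_lit 117899264)) (I.pos (nat_lit 1490944) (nat_lit 95518720)) (I.mix (nat_lit 34734080) (nat_lit 53821440)) (I.pos (nat_lit 284672000) (nat_lit 332414976)) (I.mix (nat_lit 126337024) (nat_lit 127893504)) (I.mix (nat_lit 92815360) (nat_lit 110575616)) (I.mix (nat_lit 101826560) (nat_lit 86212608)))
  true (nat_lit 49278257)
def b2_4 : Bx := Bx.mk (St.mk (I.pos (nat_lit 80101376) (nat_lit 118505472)) (I.neg (nat_lit 1540096) (nat_lit 36732928)) (I.pos (nat_lit 18726912) (nat_lit 54214656)) (I.pos (nat_lit 293109760) (nat_lit 330547200)) (I.mix (nat_lit 90357760) (nat_lit 86671360)) (I.mix (nat_lit 57622528) (nat_lit 73613312)) (I.mix (nat_lit 56131584) (nat_lit 60538880)))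
  false (nat_lit 82417478)
def b2_5 : Bx := Bx.mk (St.mk (I.mix (nat_lit 64847872) (nat_lit 13729792)) (I.mix (nat_lit 12517376) (nat_lit 84688896)) (I.mix (nat_lit 23658496) (nat_lit 1425408)) (I.pos (nat_lit 268156928) (nat_lit 305233920)) (I.mix (nat_lit 99614720) (nat_lit 110592000)) (I.mix (nat_lit 84115456) (nat_lit 73105408)) (I.mix (nat_lit 41582592) (nat_lit 29392896)))
  true (nat_lit 0)
def b2_6 : Bx := Bx.mk (St.mk (I.pos (nat_lit 23166976) (nat_lit 63717376)) (I.neg (nat_lit 36225024) (nat_lit 84836352)) (I.neg (nat_lit 966656) (nat_lit 23658496)) (I.pos (nat_lit 280199168) (nat_lit 305119232)) (I.mix (nat_lit 108822528) (nat_lit 56164352)) (I.mix (nat_lit 71876608) (nat_lit 78856192)) (I.mix (nat_lit 41369600) (nat_lit 30326784)))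
  false (nat_lit 118321400)
def b2_7 : Bx := Bx.mk (St.mk (I.mix (nat_lit 13729792) (nat_lit 57851904)) (I.mix (nat_lit 48447488) (nat_lit 12500992)) (I.mix (nat_lit 12402688) (nat_lit 1048576)) (I.pos (nat_lit 268566528) (nat_lit 289964032)) (I.mix (nat_lit 59719680) (nat_lit 68812800)) (I.mix (nat_lit 46792704) (nat_lit 44482560)) (I.mix (nat_lit 11780096) (nat_lit 14958592)))
  false (nat_lit 0)
def b2_8 : Bx := Bx.mk (St.mk (I.pos (nat_lit 174555136) (nat_lit 290553856)) (I.mix (nat_lit 26968064) (nat_lit 56213504)) (I.mix (nat_lit 64552960) (nat_lit 96894976)) (I.pos (nat_lit 398639104) (nat_lit 590692352)) (I.mix (nat_lit 101859328) (nat_lit 89833472)) (I.mix (nat_lit 89751552) (nat_lit 66863104)) (I.mix (nat_lit 153812992) (nat_lit 106856448)))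
  false (nat_lit 89801410)
def b2_9 : Bx := Bx.mk (St.mk (I.pos (nat_lit 137986048) (nat_lit 191823872)) (I.pos (nat_lit 17809408) (nat_lit 72876032)) (I.pos (nat_lit 47595520) (nat_lit 126828544)) (I.pos (nat_lit 360071168) (nat_lit 419823616)) (I.mix (nat_lit 165560320) (nat_lit 89915392)) (I.mix (nat_lit 113639424) (nat_lit 69255168)) (I.mix (nat_lit 150110208) (nat_lit 88784896)))
  false (nat_lit 82032494)
def b2_10 : Bx := Bx.mk (St.mk (I.pos (nat_lit 25837568) (nat_lit 63766528)) (I.neg (nat_lit 26378240) (nat_lit 71041024)) (I.mix (nat_lit 20594688) (nat_lit 32768)) (I.pos (nat_lit 279822336) (nat_lit 296648704)) (I.mix (nat_lit 97255424) (nat_lit 97435648)) (I.mix (nat_lit 60375040) (nat_lit 84115456)) (I.mix (nat_lit 27033600) (nat_lit 25608192)))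
  false (nat_lit 131667570)
def t2 : BTr := (BTr.n (BTr.n (BTr.n (BTr.b b2_0) (BTr.b b2_1)) (BTr.n (BTr.b b2_2) (BTr.n (BTr.b b2_3) (BTr.b b2_4)))) (BTr.n (BTr.n (BTr.b b2_5) (BTr.n (BTr.b b2_6) (BTr.b b2_7))) (BTr.n (BTr.b b2_8) (BTr.n (BTr.b b2_9) (BTr.b b2_10)))))
namespace T2
def l0 : Tr := Tr.L (Pth.l (Pth.l (Pth.l Pth.z)))
def l1 : Tr := Tr.L (Pth.l (Pth.l (Pth.r Pth.z)))
def l2 : Tr := Tr.L (Pth.l (Pth.r (Pth.l Pth.z)))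
def l3 : Tr := Tr.L (Pth.l (Pth.r (Pth.r (Pth.l Pth.z))))
def l4 : Tr := Tr.L (Pth.l (Pth.r (Pth.r (Pth.r Pth.z))))
def l5 : Tr := Tr.L (Pth.r (Pth.l (Pth.l Pth.z)))
def l6 : Tr := Tr.L (Pth.r (Pth.l (Pth.r (Pth.l Pth.z))))
def l7 : Tr := Tr.L (Pth.r (Pth.l (Pth.r (Pth.r Pth.z))))
def l8 : Tr := Tr.L (Pth.r (Pth.r (Pth.l Pth.z)))
def l9 : Tr := Tr.L (Pth.r (Pth.r (Pth.r (Pth.l Pth.z))))
def l10 : Tr := Tr.L (Pth.r (Pth.r (Pth.r (Pth.r Pth.z))))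
end T2
theorem c0_0_0 : chkTag sI cl4 cl4 cl9 t0 b0_0 (tg true true false RT.r2) (I.pos (nat_lit 0) (nat_lit 0))
  (xb (xa (xb (xa T0.l9 T0.l0) (xa T0.l9 T0.l9)) (xb T0.l0 (xa T0.l0 T0.l0))) (xa (xb (xa (xb T0.l9 (xa T0.l9 T0.l9)) (xb T0.l9 (xa (xb T0.l0 T0.l0) T0.l0))) (xa (xb (xa (xb T0.l9 (xe (xc T0.l9 T0.l0) (xc T0.l9 T0.l0))) (xb (xe T0.l0 T0.l9) (xe (xc T0.l0 T0.l0) (xc T0.l0 T0.l0)))) (xa (xb (xe (xs T0.l0 (xc T0.l0 T0.l0)) (xs T0.l0 (xc T0.l9 T0.l0))) (xe (xs T0.l0 (xc T0.l9 T0.l0)) (xs (xc T0.l0 T0.l0) (xc T0.l9 T0.l0)))) (xb (xe (xc T0.l0 T0.l0) (xs T0.l0 T0.l0)) (xe (xs T0.l0 T0.l0) (xs T0.l0 (xc T0.l0 T0.l0)))))) (xb (xa (xb T0.l0 (xe T0.l0 T0.l0)) (xb T0.l0 T0.l0)) (xa (xb (xe T0.l0 T0.l0) (xe (xs T0.l0 T0.l0) (xs T0.l0 T0.l0))) (xb T0.l0 (xe T0.l0 T0.l0)))))) (xb (xa (xb T0.l0 T0.l0) (xb T0.l0 T0.l0)) (xa (xb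 (xa T0.l0 T0.l0) (xa (xb T0.l0 (xe T0.l0 T0.l0)) (xb T0.l0 (xe (xs T0.l0 T0.l0) (xs T0.l0 T0.l0))))) (xb (xa T0.l0 T0.l0) (xa (xb T0.l0 (xe (xs T0.l0 T0.l0) (xs T0.l0 T0.l0))) (xb (xe T0.l0 T0.l0) (xe (xs T0.l0 (xc T0.l0 T0.l0)) (xs T0.l0 (xc T0.l0 T0.l0)))))))))) = true := by decide +kernel
theorem c0_0_1 : chkTag sI cl4 cl4 cl9 t2 b0_0 (tg true false false RT.r3) (I.pos (nat_lit 0) (nat_lit 0))
  (xb (xa T2.l1 T2.l1) (xa (xb T2.l1 T2.l1) (xb T2.l1 (xa T2.l1 T2.l1)))) = true := by decide +kernel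
theorem c0_0_2 : chkTag sI cl4 cl4 cl9 t0 b0_0 (tg true true true RT.r4) (I.pos (nat_lit 0) (nat_lit 0))
  (xb T0.l1 (xa T0.l1 (xc T0.l1 (xb T0.l1 T0.l1)))) = true := by decide +kernel
theorem c0_0_3 : chkTag sI cl4 cl4 cl9 t2 b0_0 (tg false false false RT.r3) (I.pos (nat_lit 0) (nat_lit 0))
  (xb (xa (xb T2.l2 T2.l2) (xb (xa T2.l2 (xb T2.l2 T2.l2)) (xa (xb T2.l2 T2.l2) (xb (xc T2.l2 T2.l2) (xc T2.l2 T2.l2))))) (xa (xb (xa T2.l2 (xb T2.l2 T2.l2)) (xa (xb T2.l2 (xc T2.l2 (xe T2.l2 T2.l2))) (xb T2.l2 (xc T2.l2 T2.l2)))) (xb (xa (xb T2.l2 (xc T2.l2 T2.l2)) (xb (xc T2.l2 (xe T2.l2 T2.l2)) (xc (xe T2.l2 T2.l2) (xe T2.l2 T2.l2)))) (xa (xb (xc T2.l2 (xe T2.l2 T2.l2)) (xc (xe T2.l2 T2.l2) (xe T2.l2 T2.l2))) (xb (xc (xe T2.l2 T2.l2) (xe (xa T2.l2 T2.l2) (xa T2.l2 T2.l2))) (xc (xe (xa T2.l2 T2.l2) (xa T2.l2 T2.l2)) (xe (xs (xa T2.l2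 T2.l2) (xa T2.l2 T2.l2)) (xs T2.l2 (xa T2.l2 T2.l2))))))))) = true := by decide +kernel
theorem c0_0_4 : chkTag sI cl4 cl4 cl9 t0 b0_0 (tg false true false RT.r4) (I.pos (nat_lit 0) (nat_lit 0))
  (xb (xa (xb T0.l2 T0.l2) T0.l2) (xa T0.l2 (xc T0.l2 (xb T0.l2 T0.l2)))) = true := by decide +kernel
theorem c0_0_5 : chkTag sI cl4 cl4 cl9 t2 b0_0 (tg false false true RT.r5) (I.pos (nat_lit 0) (nat_lit 0))
  (xb (xa T2.l3 T2.l3) (xa (xb T2.l3 T2.l3) (xb T2.l3 (xa T2.l3 T2.l3)))) = true := by decide +kernel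
theorem bx0_0 : BoxOK sI cl4 cl4 cl9 t0 t2 b0_0 :=
  box_mk' [(tg true true false RT.r2), (tg true false false RT.r3), (tg true true true RT.r4), (tg false false false RT.r3), (tg false true false RT.r4), (tg false false true RT.r5)] rfl (allL_c (ex_mk c0_0_0) (allL_c (ex_mk c0_0_1) (allL_c (ex_mk c0_0_2) (allL_c (ex_mk c0_0_3) (allL_c (ex_mk c0_0_4) (allL_c (ex_mk c0_0_5) allL_n))))))
theorem bx0_1 : BoxOK sI cl4 cl4 cl9 t0 t2 b0_1 :=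
  box_mk (TrL.c (I.pos (nat_lit 0) (nat_lit 0)) (xb (xb T2.l4 T2.l4) (xb T2.l4 T2.l4))
  (TrL.c (I.pos (nat_lit 0) (nat_lit 0)) (xb T0.l1 T0.l3)
  TrL.n)) (by decide +kernel)
theorem bx0_2 : BoxOK sI cl4 cl4 cl9 t0 t2 b0_2 :=
  box_mk (TrL.c (I.pos (nat_lit 0) (nat_lit 0)) (xb (xa (xb (xa (xb (xa T0.l4 T0.l4) (xa T0.l4 T0.l4)) (xb (xa T0.l4 T0.l4) T0.l4)) (xa (xb (xa T0.l4 T0.l4) T0.l4) T0.l4)) (xb (xa (xb T0.l9 T0.l4) T0.l9) (xa T0.l4 T0.l4))) (xa (xb (xa (xb T0.l4 T0.l4) T0.l9) (xa (xb (xa T0.l4 T0.l4) (xa T0.l4 T0.l4)) T0.l9)) (xb T0.l9 T0.l9)))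
  (TrL.c (I.pos (nat_lit 0) (nat_lit 0)) (xb T2.l4 T2.l1)
  (TrL.c (I.pos (nat_lit 0) (nat_lit 0)) T0.l1
  (TrL.c (I.pos (nat_lit 0) (nat_lit 0)) (xb T2.l2 T2.l2)
  (TrL.c (I.pos (nat_lit 0) (nat_lit 0)) T0.l5
  (TrL.c (I.pos (nat_lit 0) (nat_lit 0)) (xb T2.l3 T2.l3)
  TrL.n)))))) (by decide +kernel)
theorem bx0_3 : BoxOK sI cl4 cl4 cl9 t0 t2 b0_3 :=
  box_mk (TrL.c (I.pos (nat_lit 0) (nat_lit 0)) T2.l4
  (TrL.c (I.pos (nat_lit 0) (nat_lit 0)) T0.l1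
  TrL.n)) (by decide +kernel)
theorem bx0_4 : BoxOK sI cl4 cl4 cl9 t0 t2 b0_4 :=
  box_mk (TrL.c (I.pos (nat_lit 0) (nat_lit 0)) (xa T0.l0 T0.l7)
  (TrL.c (I.pos (nat_lit 0) (nat_lit 0)) (xa T2.l1 T2.l1)
  (TrL.c (I.pos (nat_lit 0) (nat_lit 0)) T0.l8
  (TrL.c (I.pos (nat_lit 0) (nat_lit 0)) (xa T2.l2 (xb (xa T2.l2 (xe (xb (xc (xa T2.l2 T2.l2) T2.l2) T2.l2) (xb (xc T2.l2 T2.l2) T2.l2))) T2.l2))
  (TrL.c (I.pos (nat_lit 0) (nat_lit 0)) T0.l6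
  (TrL.c (I.pos (nat_lit 0) (nat_lit 0)) (xa T2.l3 T2.l3)
  TrL.n)))))) (by decide +kernel)
theorem bx0_5 : BoxOK sI cl4 cl4 cl9 t0 t2 b0_5 :=
  box_mk (TrL.c (I.pos (nat_lit 0) (nat_lit 0)) (xa (xb T0.l4 (xa (xb T0.l4 T0.l4) T0.l4)) T0.l4)
  (TrL.c (I.pos (nat_lit 0) (nat_lit 0)) T2.l2
  (TrL.c (I.pos (nat_lit 0) (nat_lit 0)) T0.l1
  (TrL.c (I.pos (nat_lit 0) (nat_lit 0)) T2.l2
  (TrL.c (I.pos (nat_lit 0) (nat_lit 0)) T0.l10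
  (TrL.c (I.pos (nat_lit 0) (nat_lit 0)) T2.l3
  TrL.n)))))) (by decide +kernel)
theorem bx0_6 : BoxOK sI cl4 cl4 cl9 t0 t2 b0_6 :=
  box_mk (TrL.c (I.pos (nat_lit 0) (nat_lit 0)) (xa (xb (xa (xb (xa (xb (xa (xs T0.l4 T0.l9) T0.l9) (xa T0.l9 T0.l9)) (xb T0.l9 T0.l9)) (xa (xb T0.l9 T0.l9) T0.l9)) (xb T0.l9 T0.l9)) (xa (xb (xa (xb T0.l9 T0.l9) T0.l9) (xa (xb T0.l9 (xa T0.l9 T0.l9)) T0.l9)) T0.l9)) (xb (xa T0.l9 (xb (xa T0.l9 (xb T0.l9 T0.l9)) T0.l9)) T0.l9))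
  (TrL.c (I.pos (nat_lit 0) (nat_lit 0)) (xa (xb (xa T2.l4 T2.l1) T2.l1) (xb (xa T2.l1 T2.l1) T2.l1))
  (TrL.c (I.pos (nat_lit 0) (nat_lit 0)) (xa T0.l1 T0.l1)
  (TrL.c (I.pos (nat_lit 0) (nat_lit 0)) (xa (xb T2.l2 T2.l2) (xb (xa T2.l2 T2.l2) T2.l2))
  (TrL.c (I.pos (nat_lit 0) (nat_lit 0)) (xa (xb T0.l10 T0.l10) T0.l10)
  (TrL.c (I.pos (nat_lit 0) (nat_lit 0)) (xa (xb (xa T2.l3 T2.l3) T2.l3) (xb (xa T2.l3 T2.l3) T2.l3))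
  TrL.n)))))) (by decide +kernel)
theorem c0_7_0 : chkTag sI cl4 cl4 cl9 t0 b0_7 (tg true true false RT.r2) (I.pos (nat_lit 0) (nat_lit 0))
  (xb (xa (xb (xa (xb (xa (xb T0.l9 T0.l9) (xb T0.l9 T0.l9)) (xa T0.l9 T0.l9)) (xb (xa (xb T0.l9 T0.l9) (xb T0.l9 T0.l9)) (xa T0.l9 T0.l9))) (xa (xb (xa T0.l9 T0.l9) (xa T0.l9 T0.l9)) (xb T0.l9 T0.l9))) (xb (xa (xb (xa (xb T0.l9 T0.l9) (xb T0.l9 T0.l9)) (xa T0.l9 T0.l9)) (xb (xa (xb T0.l9 T0.l9) T0.l0) T0.l0)) (xa (xb T0.l9 T0.l9) (xb T0.l0 T0.l9)))) (xa (xb (xa (xb (xa (xb T0.l9 T0.l9) T0.l9) (xa (xb T0.l9 (xa T0.l9 T0.l9)) T0.l9)) (xb T0.l9 T0.l9)) (xa (xb (xa (xb (xa T0.l9 T0.l9) (xa (xc T0.l9 T0.l9) T0.l9)) (xb T0.l9 T0.l9)) (xa (xb (xa (xc T0.l9 T0.l9) T0.l9) (xa (xc T0.l9 T0.l9) (xc T0.l9 T0.l9))) (xb T0.l9 (xa T0.l9 T0.l9)))) (xb (xa T0.l9 T0.l9) (xa (xb T0.l9 T0.l9) T0.l9)))) (xb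 (xa (xb T0.l9 T0.l9) (xb T0.l9 T0.l9)) (xa (xb T0.l9 (xa T0.l9 (xb T0.l9 (xa T0.l9 T0.l9)))) (xb (xa T0.l9 T0.l0) (xa (xb T0.l9 (xa T0.l9 T0.l0)) T0.l0)))))) = true := by decide +kernel
theorem c0_7_1 : chkTag sI cl4 cl4 cl9 t2 b0_7 (tg true false false RT.r3) (I.pos (nat_lit 0) (nat_lit 0))
  (xb (xa (xb T2.l1 T2.l1) (xb T2.l1 T2.l1)) (xa (xb (xa T2.l1 T2.l1) (xa T2.l1 T2.l1)) (xb T2.l1 (xa T2.l1 T2.l1)))) = true := by decide +kernel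
theorem c0_7_2 : chkTag sI cl4 cl4 cl9 t0 b0_7 (tg true true true RT.r4) (I.pos (nat_lit 0) (nat_lit 0))
  (xa (xb (xb T0.l1 T0.l1) (xb T0.l1 T0.l1)) (xb (xb T0.l1 T0.l1) T0.l1)) = true := by decide +kernel
theorem c0_7_3 : chkTag sI cl4 cl4 cl9 t2 b0_7 (tg false false false RT.r3) (I.pos (nat_lit 0) (nat_lit 0))
  (xb (xa (xb (xa (xb (xc T2.l2 (xa T2.l2 T2.l2)) T2.l2) (xb (xc (xa T2.l2 T2.l2) (xa T2.l2 T2.l2)) T2.l2)) T2.l2) (xb (xa (xb (xa (xc T2.l2 T2.l2) (xc T2.l2 T2.l2)) T2.l2) (xb (xa (xc T2.l2 T2.l2) (xc T2.l2 T2.l2)) T2.l2)) (xa T2.l2 T2.l2))) (xa (xb T2.l2 (xa (xb T2.l2 (xc T2.l2 (xa T2.l2 T2.l2))) T2.l2)) (xb (xa T2.l2 (xb T2.l2 T2.l2)) (xa T2.l2 (xb (xa T2.l2 T2.l2) (xa T2.l2 (xc T2.l2 T2.l2))))))) = true := by decide +kernel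
theorem c0_7_4 : chkTag sI cl4 cl4 cl9 t0 b0_7 (tg false true false RT.r4) (I.pos (nat_lit 0) (nat_lit 0))
  (xa (xb (xc (xb T0.l10 T0.l10) (xb T0.l10 T0.l10)) (xc (xb T0.l10 T0.l10) (xb T0.l10 T0.l10))) (xb (xc (xa T0.l10 (xb T0.l2 T0.l2)) (xa T0.l10 (xb T0.l2 T0.l2))) (xc (xb T0.l2 T0.l2) (xb T0.l2 T0.l2)))) = true := by decide +kernel
theorem c0_7_5 : chkTag sI cl4 cl4 cl9 t2 b0_7 (tg false false true RT.r5) (I.pos (nat_lit 0) (nat_lit 0))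
  (xb (xa (xb T2.l3 T2.l3) (xb T2.l3 T2.l3)) (xa (xb (xa T2.l3 T2.l3) (xa T2.l3 T2.l3)) (xb T2.l3 (xa T2.l3 T2.l3)))) = true := by decide +kernel
theorem bx0_7 : BoxOK sI cl4 cl4 cl9 t0 t2 b0_7 :=
  box_mk' [(tg true true false RT.r2), (tg true false false RT.r3), (tg true true true RT.r4), (tg false false false RT.r3), (tg false true false RT.r4), (tg false false true RT.r5)] rfl (allL_c (ex_mk c0_7_0) (allL_c (ex_mk c0_7_1) (allL_c (ex_mk c0_7_2) (allL_c (ex_mk c0_7_3) (allL_c (ex_mk c0_7_4) (allL_c (ex_mk c0_7_5) allL_n))))))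
theorem bx0_8 : BoxOK sI cl4 cl4 cl9 t0 t2 b0_8 :=
  box_mk (TrL.c (I.pos (nat_lit 0) (nat_lit 0)) (xa (xb T2.l1 (xa T2.l1 T2.l1)) (xb T2.l1 (xa T2.l1 T2.l4)))
  (TrL.c (I.pos (nat_lit 0) (nat_lit 0)) (xa T0.l1 T0.l1)
  TrL.n)) (by decide +kernel)
def rc0_9_0_l : Tr := (xa (xb (xa (xb (xc T0.l9 T0.l0) (xc T0.l9 T0.l0)) (xb (xc (xa T0.l0 T0.l0) T0.l0) (xc (xa T0.l0 T0.l0) T0.l0))) (xa (xb (xc T0.l9 T0.l0) (xc T0.l9 T0.l0)) (xb (xc (xa T0.l9 T0.l0) T0.l0) (xc (xa T0.l9 T0.l0) T0.l0)))) (xb (xa (xb T0.l0 T0.l0) (xb (xc T0.l0 (xa T0.l0 T0.l0)) (xc T0.l0 T0.l0))) (xa (xb T0.l0 (xc T0.l0 T0.l0)) (xb (xc T0.l0 T0.l0) (xc T0.l0 T0.l0)))))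
theorem qc0_9_0_l : chkTr (tg true true false RT.r2) b0_9 t0 rc0_9_0_l
  (upd lo Co.b (rc sI cl4 cl4 cl9 b0_9 (I.pos (nat_lit 0) (nat_lit 0)))) = true := by decide +kernel
def rc0_9_0_r : Tr := (xa (xb (xa (xb (xc T0.l9 T0.l9) (xc T0.l9 (xa T0.l0 T0.l0))) (xb (xc T0.l9 T0.l0) (xc (xa T0.l9 T0.l0) T0.l0))) (xa (xb (xc (xa T0.l9 T0.l9) (xa T0.l9 T0.l0)) (xc (xa (xb T0.l9 (xe (xs T0.l0 (xc T0.l0 T0.l0)) T0.l9)) (xb (xe T0.l0 T0.l0) (xe (xs T0.l0 T0.l0) (xc T0.l0 T0.l0)))) (xa (xb T0.l0 (xe T0.l0 T0.l0)) (xb T0.l0 T0.l0)))) (xb (xc (xa (xb T0.l0 T0.l0) (xb T0.l0 T0.l0)) T0.l0) (xc (xa (xb (xe T0.l0 T0.l0) (xe T0.l0 T0.l0)) (xb T0.l0 T0.l0)) (xa T0.l0 T0.l0))))) (xb (xa (xb (xc T0.l0 T0.l0) (xc (xa T0.l0 T0.l0) T0.l0)) (xb (xc T0.l0 (xa T0.l0 T0.l0)) (xc T0.l0 (xa T0.l0 T0.l0)))) (xa (xb (xc (xa T0.l0 T0.l0) (xa T0.l0 T0.l0)) (xc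 (xa (xb T0.l0 T0.l0) T0.l0) (xa T0.l0 (xb T0.l0 T0.l0)))) (xb (xc T0.l0 (xa (xb T0.l0 T0.l0) (xb T0.l0 (xe T0.l0 T0.l0)))) (xa (xc T0.l0 (xb T0.l0 (xe (xs T0.l0 T0.l0) T0.l0))) (xc (xb T0.l0 (xe T0.l0 T0.l0)) (xb (xe (xs T0.l0 T0.l0) T0.l0) (xe (xs T0.l0 (xa T0.l0 T0.l0)) (xs T0.l0 T0.l0)))))))))
theorem qc0_9_0_r : chkTr (tg true true false RT.r2) b0_9 t0 rc0_9_0_r
  (upd hi Co.b (rc sI cl4 cl4 cl9 b0_9 (I.pos (nat_lit 0) (nat_lit 0)))) = true := by decide +kernel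
theorem qc0_9_0_ : chkTr (tg true true false RT.r2) b0_9 t0 (Tr.N Co.b rc0_9_0_l rc0_9_0_r)
  (rc sI cl4 cl4 cl9 b0_9 (I.pos (nat_lit 0) (nat_lit 0))) = true := tr_split qc0_9_0_l qc0_9_0_r
theorem c0_9_0 : chkTag sI cl4 cl4 cl9 t0 b0_9 (tg true true false RT.r2) (I.pos (nat_lit 0) (nat_lit 0))
  (Tr.N Co.b rc0_9_0_l rc0_9_0_r) = true := tag_mk (by decide +kernel) qc0_9_0_
theorem c0_9_1 : chkTag sI cl4 cl4 cl9 t2 b0_9 (tg true false false RT.r3) (I.pos (nat_lit 0) (nat_lit 0))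
  (xb (xa (xb (xc T2.l1 T2.l1) (xc T2.l1 T2.l1)) (xb (xc T2.l1 T2.l1) (xc T2.l1 T2.l1))) (xa (xb (xc T2.l1 T2.l1) (xc (xa T2.l1 T2.l1) (xa T2.l1 T2.l1))) (xb (xc (xa T2.l1 T2.l1) T2.l1) (xc (xa T2.l1 T2.l1) (xa T2.l1 T2.l1))))) = true := by decide +kernel
theorem c0_9_2 : chkTag sI cl4 cl4 cl9 t0 b0_9 (tg true true true RT.r4) (I.pos (nat_lit 0) (nat_lit 0))
  (xc (xb (xa T0.l1 (xc (xb T0.l1 T0.l1) (xb T0.l1 T0.l1))) (xa (xb T0.l1 (xc T0.l1 T0.l1)) (xc (xb T0.l1 (xa T0.l1 T0.l1)) (xb T0.l1 (xa T0.l1 T0.l1))))) (xb (xa T0.l1 (xb (xc T0.l1 T0.l1) (xc T0.l1 T0.l1))) (xa T0.l1 (xb (xc T0.l1 T0.l1) (xc (xa T0.l1 T0.l1) (xa T0.l1 T0.l1)))))) = true := by decide +kernel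
def rc0_9_3_l : Tr := (xa (xb (xc (xa (xb (xc T2.l2 T2.l2) T2.l2) (xb (xc (xe T2.l2 T2.l2) T2.l2) (xc T2.l2 T2.l2))) (xa (xb T2.l2 T2.l2) (xb (xc T2.l2 T2.l2) T2.l2))) (xc (xa T2.l2 (xb T2.l2 T2.l2)) (xa T2.l2 T2.l2))) (xb (xc (xa (xb (xc (xe (xa T2.l2 T2.l2) T2.l2) (xe T2.l2 T2.l2)) (xc (xe T2.l2 T2.l2) T2.l2)) (xb (xe (xc (xa T2.l2 (xs T2.l2 T2.l2)) (xa T2.l2 (xs T2.l2 T2.l2))) (xc (xa T2.l2 T2.l2) (xa T2.l2 T2.l2))) (xe (xc (xa T2.l2 T2.l2) T2.l2) (xc T2.l2 T2.l2)))) (xa (xb (xc (xe T2.l2 T2.l2) (xe T2.l2 T2.l2)) (xc T2.l2 T2.l2)) (xb (xc (xe (xa T2.l2 T2.l2) (xa T2.l2 T2.l2)) (xe (xa T2.l2 (xb T2.l2 T2.l2)) (xa T2.l2 T2.l2))) (xe (xc T2.l2 T2.l2) (xc T2.l2 T2.l2))))) (xc (xa (xb (xc T2.l2 T2.l2) (xc T2.l2 T2.l2)) (xb (xe (xc T2.l2 T2.l2) T2.l2) (xc (xe T2.l2 T2.l2) (xe T2.l2 T2.l2)))) (xa (xb T2.l2 T2.l2) (xb (xe T2.l2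 T2.l2) (xe T2.l2 T2.l2))))))
theorem qc0_9_3_l : chkTr (tg false false false RT.r3) b0_9 t2 rc0_9_3_l
  (upd lo Co.b (rc sI cl4 cl4 cl9 b0_9 (I.pos (nat_lit 0) (nat_lit 0)))) = true := by decide +kernel
def rc0_9_3_rl : Tr := (xb (xc (xa T2.l2 (xb T2.l2 T2.l2)) (xa T2.l2 (xb T2.l2 T2.l2))) (xc (xa T2.l2 (xb T2.l2 (xc T2.l2 T2.l2))) (xa (xb T2.l2 T2.l2) (xb (xc T2.l2 T2.l2) (xc T2.l2 (xe T2.l2 T2.l2))))))
theorem qc0_9_3_rl : chkTr (tg false false false RT.r3) b0_9 t2 rc0_9_3_rl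
  (upd lo Co.a (upd hi Co.b (rc sI cl4 cl4 cl9 b0_9 (I.pos (nat_lit 0) (nat_lit 0))))) = true := by decide +kernel
def rc0_9_3_rr : Tr := (xb (xc (xa (xb (xc T2.l2 T2.l2) (xc T2.l2 T2.l2)) (xb (xc (xe T2.l2 T2.l2) (xe T2.l2 T2.l2)) (xe (xc (xa T2.l2 T2.l2) (xa T2.l2 T2.l2)) (xc (xa T2.l2 T2.l2) T2.l2)))) (xa (xb (xc T2.l2 T2.l2) (xc T2.l2 (xe T2.l2 T2.l2))) (xb (xe (xc T2.l2 T2.l2) (xc T2.l2 T2.l2)) (xe (xc T2.l2 (xa T2.l2 T2.l2)) (xc T2.l2 (xa T2.l2 T2.l2)))))) (xc (xa (xb (xc (xe T2.l2 T2.l2) T2.l2) (xe (xc T2.l2 T2.l2) (xc T2.l2 T2.l2))) (xb (xe (xc (xa T2.l2 (xs T2.l2 T2.l2)) (xa T2.l2 (xs T2.l2 T2.l2))) (xc (xa T2.l2 (xs T2.l2 T2.l2)) (xa T2.l2 T2.l2))) (xe (xc (xa (xs T2.l2 T2.l2) (xs T2.l2 T2.l2)) (xa T2.l2 (xs T2.l2 T2.l2))) (xc (xa T2.l2 (xs T2.l2 T2.l2)) (xa T2.l2 (xs T2.l2 T2.l2)))))) (xa (xb (xe (xc T2.l2 T2.l2)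 (xc T2.l2 T2.l2)) (xe (xc T2.l2 (xa T2.l2 T2.l2)) (xc T2.l2 (xa T2.l2 T2.l2)))) (xb (xe (xc (xa T2.l2 T2.l2) (xa T2.l2 (xs T2.l2 T2.l2))) (xc (xa T2.l2 T2.l2) (xa T2.l2 (xs T2.l2 T2.l2)))) (xe (xc (xa T2.l2 (xs T2.l2 T2.l2)) (xa (xs T2.l2 T2.l2) (xs T2.l2 T2.l2))) (xc (xa T2.l2 (xs T2.l2 T2.l2)) (xa T2.l2 (xs T2.l2 T2.l2))))))))
theorem qc0_9_3_rr : chkTr (tg false false false RT.r3) b0_9 t2 rc0_9_3_rr
  (upd hi Co.a (upd hi Co.b (rc sI cl4 cl4 cl9 b0_9 (I.pos (nat_lit 0) (nat_lit 0))))) = true := by decide +kernel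
theorem qc0_9_3_r : chkTr (tg false false false RT.r3) b0_9 t2 (Tr.N Co.a rc0_9_3_rl rc0_9_3_rr)
  (upd hi Co.b (rc sI cl4 cl4 cl9 b0_9 (I.pos (nat_lit 0) (nat_lit 0)))) = true := tr_split qc0_9_3_rl qc0_9_3_rr
theorem qc0_9_3_ : chkTr (tg false false false RT.r3) b0_9 t2 (Tr.N Co.b rc0_9_3_l (Tr.N Co.a rc0_9_3_rl rc0_9_3_rr))
  (rc sI cl4 cl4 cl9 b0_9 (I.pos (nat_lit 0) (nat_lit 0))) = true := tr_split qc0_9_3_l qc0_9_3_r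
theorem c0_9_3 : chkTag sI cl4 cl4 cl9 t2 b0_9 (tg false false false RT.r3) (I.pos (nat_lit 0) (nat_lit 0))
  (Tr.N Co.b rc0_9_3_l (Tr.N Co.a rc0_9_3_rl rc0_9_3_rr)) = true := tag_mk (by decide +kernel) qc0_9_3_
theorem c0_9_4 : chkTag sI cl4 cl4 cl9 t0 b0_9 (tg false true false RT.r4) (I.pos (nat_lit 0) (nat_lit 0))
  (xb (xc (xa (xb T0.l2 T0.l2) (xc (xb T0.l2 T0.l2) (xb T0.l2 T0.l2))) (xa T0.l2 (xb (xc T0.l2 T0.l2) (xc T0.l2 T0.l2)))) (xc (xa (xb T0.l2 (xc T0.l2 T0.l2)) (xb (xc T0.l2 T0.l2) (xc (xa T0.l2 T0.l2) (xa T0.l2 T0.l2)))) (xa T0.l2 (xb (xc T0.l2 T0.l2) (xc (xa T0.l2 T0.l2) (xa T0.l2 T0.l2)))))) = true := by decide +kernel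
theorem c0_9_5 : chkTag sI cl4 cl4 cl9 t2 b0_9 (tg false false true RT.r5) (I.pos (nat_lit 0) (nat_lit 0))
  (xb (xa (xb (xc T2.l3 T2.l3) (xc T2.l3 T2.l3)) (xb (xc T2.l3 T2.l3) (xc T2.l3 T2.l3))) (xa (xb (xc T2.l3 T2.l3) (xc (xa T2.l3 T2.l3) (xa T2.l3 T2.l3))) (xb (xc (xa T2.l3 T2.l3) T2.l3) (xc (xa T2.l3 T2.l3) (xa T2.l3 T2.l3))))) = true := by decide +kernel
theorem bx0_9 : BoxOK sI cl4 cl4 cl9 t0 t2 b0_9 :=
  box_mk' [(tg true true false RT.r2), (tg true false false RT.r3), (tg true true true RT.r4), (tg false false false RT.r3), (tg false true false RT.r4), (tg false false true RT.r5)] rfl (allL_c (ex_mk c0_9_0) (allL_c (ex_mk c0_9_1) (allL_c (ex_mk c0_9_2) (allL_c (ex_mk c0_9_3) (allL_c (ex_mk c0_9_4) (allL_c (ex_mk c0_9_5) allL_n))))))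
theorem bx0_10 : BoxOK sI cl4 cl4 cl9 t0 t2 b0_10 :=
  box_mk (TrL.c (I.pos (nat_lit 0) (nat_lit 0)) (xb (xa (xb (xa (xb (xa (xb T0.l4 T0.l4) T0.l4) (xa (xb T0.l4 T0.l4) T0.l4)) T0.l4) (xa (xb (xa T0.l4 T0.l4) T0.l4) T0.l4)) (xb T0.l4 T0.l4)) (xa (xb (xa (xb T0.l4 T0.l4) T0.l4) (xa (xb T0.l4 (xa (xb T0.l4 T0.l4) T0.l4)) (xb T0.l4 (xa T0.l4 T0.l4)))) (xb (xa T0.l4 T0.l4) (xa (xb T0.l4 (xa T0.l4 T0.l4)) (xb T0.l4 (xa T0.l4 T0.l9))))))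
  (TrL.c (I.pos (nat_lit 0) (nat_lit 0)) (xb T2.l1 T2.l4)
  (TrL.c (I.pos (nat_lit 0) (nat_lit 0)) T0.l1
  (TrL.c (I.pos (nat_lit 0) (nat_lit 0)) T2.l2
  (TrL.c (I.pos (nat_lit 0) (nat_lit 0)) (xb T0.l5 T0.l10)
  (TrL.c (I.pos (nat_lit 0) (nat_lit 0)) (xb T2.l3 T2.l3)
  TrL.n)))))) (by decide +kernel)
theorem sv0 : StarV sI cl4 cl4 cl9 t0 t2 t0 :=
  (bt_n (bt_n (bt_n (bt_b bx0_0) (bt_b bx0_1)) (bt_n (bt_b bx0_2) (bt_n (bt_b bx0_3) (bt_b bx0_4)))) (bt_n (bt_n (bt_b bx0_5) (bt_n (bt_b bx0_6) (bt_b bx0_7))) (bt_n (bt_b bx0_8) (bt_n (bt_b bx0_9) (bt_b bx0_10)))))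
def S0 : StarD := StarD.mk cl4 cl4 cl9 0 2 t0
theorem bx1_0 : BoxOK sI cl4 cl9 cl4 t2 t0 b1_0 :=
  box_mk (TrL.c (I.pos (nat_lit 0) (nat_lit 0)) (xa (xb (xa (xb T2.l0 (xa T2.l0 T2.l0)) (xb T2.l0 T2.l0)) (xa (xb (xa T2.l0 T2.l0) (xa (xb (xa T2.l0 T2.l0) (xa (xd T2.l0 T2.l0) (xd T2.l0 T2.l0))) (xb T2.l0 (xa (xd T2.l0 T2.l0) (xd T2.l0 T2.l0))))) (xb (xa T2.l0 T2.l0) (xa (xb T2.l0 (xa (xd T2.l0 T2.l0) (xd T2.l0 T2.l0))) (xb T2.l0 (xa (xd T2.l0 T2.l0) T2.l0)))))) (xb (xa T2.l0 (xb T2.l0 T2.l0)) (xa (xb (xa T2.l0 T2.l0) (xa (xb T2.l0 (xd (xa T2.l0 T2.l0) T2.l0)) (xb T2.l0 (xd T2.l0 T2.l0)))) (xb (xa T2.l0 T2.l0) (xa (xb T2.l0 (xd T2.l0 (xa T2.l0 T2.l0))) (xb T2.l0 (xd T2.l0 (xa T2.l0 T2.l0))))))))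
  (TrL.c (I.pos (nat_lit 0) (nat_lit 0)) (xa (xb (xa T0.l6 T0.l6) (xa (xb T0.l6 (xc T0.l6 T0.l6)) (xb T0.l6 (xc T0.l6 T0.l6)))) (xb (xa T0.l6 T0.l6) (xa (xb T0.l6 (xc T0.l6 T0.l6)) (xb T0.l6 (xa T0.l6 T0.l6)))))
  (TrL.c (I.pos (nat_lit 0) (nat_lit 0)) (xa T2.l5 (xb T2.l5 (xa T2.l5 T2.l3)))
  (TrL.c (I.pos (nat_lit 0) (nat_lit 0)) (xa T0.l7 (xb T0.l7 (xa T0.l7 (xb T0.l7 T0.l7))))
  (TrL.c (I.pos (nat_lit 0) (nat_lit 0)) (xa (xb (xc T2.l6 T2.l6) (xc T2.l6 (xa T2.l6 T2.l6))) (xb T2.l1 (xa T2.l6 T2.l1)))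
  (TrL.c (I.pos (nat_lit 0) (nat_lit 0)) (xa (xb (xa T0.l8 T0.l8) (xa (xb T0.l8 (xc T0.l8 T0.l8)) (xb T0.l8 (xc T0.l8 T0.l8)))) (xb (xa T0.l8 T0.l8) (xa (xb T0.l8 (xc T0.l8 T0.l8)) (xb T0.l8 (xa T0.l8 T0.l8)))))
  TrL.n)))))) (by decide +kernel)
theorem bx1_1 : BoxOK sI cl4 cl9 cl4 t2 t0 b1_1 :=
  box_mk (TrL.c (I.pos (nat_lit 0) (nat_lit 0)) (xa (xb T2.l0 T2.l0) (xb T2.l0 T2.l0))
  (TrL.c (I.pos (nat_lit 0) (nat_lit 0)) (xa T0.l6 T0.l6)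
  (TrL.c (I.pos (nat_lit 0) (nat_lit 0)) T2.l5
  (TrL.c (I.pos (nat_lit 0) (nat_lit 0)) (xa (xb (xa T0.l7 T0.l7) T0.l7) T0.l7)
  (TrL.c (I.pos (nat_lit 0) (nat_lit 0)) (xa T2.l7 (xb T2.l7 T2.l7))
  (TrL.c (I.pos (nat_lit 0) (nat_lit 0)) T0.l8
  TrL.n)))))) (by decide +kernel)
theorem bx1_2 : BoxOK sI cl4 cl9 cl4 t2 t0 b1_2 :=
  box_mk (TrL.c (I.pos (nat_lit 0) (nat_lit 0)) (xa (xa (xb T2.l8 (xa (xb T2.l8 T2.l8) T2.l8)) (xb T2.l8 T2.l8)) (xa (xb T2.l8 T2.l8) (xa (xb T2.l8 T2.l8) (xb T2.l8 (xa T2.l8 T2.l0)))))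
  (TrL.c (I.pos (nat_lit 0) (nat_lit 0)) (xa (xa T0.l6 T0.l6) T0.l6)
  (TrL.c (I.pos (nat_lit 0) (nat_lit 0)) T2.l5
  (TrL.c (I.pos (nat_lit 0) (nat_lit 0)) (xa T0.l7 T0.l7)
  (TrL.c (I.pos (nat_lit 0) (nat_lit 0)) T2.l7
  (TrL.c (I.pos (nat_lit 0) (nat_lit 0)) (xa T0.l8 T0.l8)
  TrL.n)))))) (by decide +kernel)
theorem bx1_3 : BoxOK sI cl4 cl9 cl4 t2 t0 b1_3 :=
  box_mk (TrL.c (I.pos (nat_lit 0) (nat_lit 0)) (xa T2.l8 (xa T2.l8 T2.l8))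
  (TrL.c (I.pos (nat_lit 0) (nat_lit 0)) (xa (xa T0.l7 T0.l6) T0.l6)
  (TrL.c (I.pos (nat_lit 0) (nat_lit 0)) T2.l5
  (TrL.c (I.pos (nat_lit 0) (nat_lit 0)) (xa (xa T0.l6 T0.l7) (xa T0.l7 T0.l7))
  (TrL.c (I.pos (nat_lit 0) (nat_lit 0)) T2.l7
  (TrL.c (I.pos (nat_lit 0) (nat_lit 0)) (xa (xa T0.l8 T0.l8) T0.l8)
  TrL.n)))))) (by decide +kernel)
theorem bx1_4 : BoxOK sI cl4 cl9 cl4 t2 t0 b1_4 :=
  box_mk (TrL.c (I.pos (nat_lit 0) (nat_lit 0)) (xb (xa (xb (xa T2.l9 T2.l9) (xa T2.l9 T2.l9)) (xb (xa T2.l9 (xb T2.l9 T2.l9)) (xa T2.l9 (xb T2.l9 T2.l9)))) (xa (xb (xa (xb T2.l9 T2.l9) (xb T2.l9 T2.l9)) (xa (xb (xa T2.l9 T2.l9) (xa T2.l9 T2.l9)) (xb T2.l9 (xa T2.l9 T2.l9)))) (xb (xa T2.l9 (xb T2.l9 T2.l9)) (xa (xb T2.l9 (xa T2.l9 T2.l9)) (xb T2.l9 (xa T2.l9 T2.l9))))))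
  (TrL.c (I.pos (nat_lit 0) (nat_lit 0)) (xb (xa (xb T0.l6 T0.l6) (xb T0.l6 T0.l6)) (xa (xb (xa T0.l6 T0.l6) (xa (xc T0.l6 T0.l6) (xc T0.l6 T0.l6))) (xb (xa T0.l6 T0.l6) (xa T0.l6 T0.l6))))
  (TrL.c (I.pos (nat_lit 0) (nat_lit 0)) (xb T2.l5 (xa T2.l5 T2.l5))
  (TrL.c (I.pos (nat_lit 0) (nat_lit 0)) (xb (xa T0.l7 T0.l7) (xa T0.l7 T0.l7))
  (TrL.c (I.pos (nat_lit 0) (nat_lit 0)) (xb T2.l10 (xa T2.l10 T2.l10))
  (TrL.c (I.pos (nat_lit 0) (nat_lit 0)) (xb (xa (xb T0.l8 T0.l8) (xb T0.l8 T0.l8)) (xa (xb (xa T0.l8 T0.l8) (xa (xc T0.l8 T0.l8) (xc T0.l8 T0.l8))) (xb (xa T0.l8 T0.l8) (xa T0.l8 T0.l8))))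
  TrL.n)))))) (by decide +kernel)
theorem bx1_5 : BoxOK sI cl4 cl9 cl4 t2 t0 b1_5 :=
  box_mk (TrL.c (I.pos (nat_lit 0) (nat_lit 0)) (xb (xa (xb T2.l0 T2.l0) T2.l0) (xa (xb (xa T2.l8 T2.l0) (xa (xb T2.l8 T2.l8) T2.l8)) (xb T2.l0 (xa (xb T2.l8 T2.l8) T2.l0))))
  (TrL.c (I.pos (nat_lit 0) (nat_lit 0)) (xb T0.l6 T0.l6)
  (TrL.c (I.pos (nat_lit 0) (nat_lit 0)) T2.l5
  (TrL.c (I.pos (nat_lit 0) (nat_lit 0)) (xb (xa T0.l7 T0.l7) T0.l7)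
  (TrL.c (I.pos (nat_lit 0) (nat_lit 0)) (xb T2.l7 T2.l7)
  (TrL.c (I.pos (nat_lit 0) (nat_lit 0)) (xb T0.l8 T0.l8)
  TrL.n)))))) (by decide +kernel)
theorem bx1_6 : BoxOK sI cl4 cl9 cl4 t2 t0 b1_6 :=
  box_mk (TrL.c (I.pos (nat_lit 0) (nat_lit 0)) (xa (xa (xb (xa T2.l8 T2.l8) (xa (xb (xa T2.l8 T2.l8) (xa (xb T2.l8 T2.l8) (xb T2.l8 T2.l8))) (xb T2.l8 (xa T2.l8 T2.l8)))) (xb T2.l8 (xa (xb T2.l8 T2.l8) T2.l8))) (xa (xb T2.l8 (xa T2.l8 T2.l8)) (xb (xa T2.l8 T2.l8) (xa (xb T2.l8 (xa T2.l8 T2.l8)) (xb T2.l8 (xa (xb T2.l8 T2.l8) (xb T2.l8 T2.l0)))))))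
  (TrL.c (I.pos (nat_lit 0) (nat_lit 0)) (xa (xa (xb T0.l7 T0.l6) T0.l6) T0.l6)
  (TrL.c (I.pos (nat_lit 0) (nat_lit 0)) (xa T2.l5 T2.l5)
  (TrL.c (I.pos (nat_lit 0) (nat_lit 0)) (xa (xa (xb (xa T0.l6 T0.l7) (xa T0.l7 T0.l7)) T0.l7) T0.l7)
  (TrL.c (I.pos (nat_lit 0) (nat_lit 0)) (xa T2.l7 T2.l7)
  (TrL.c (I.pos (nat_lit 0) (nat_lit 0)) (xa (xa (xb T0.l8 (xa T0.l8 T0.l8)) T0.l8) T0.l8)
  TrL.n)))))) (by decide +kernel)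
theorem bx1_7 : BoxOK sI cl4 cl9 cl4 t2 t0 b1_7 :=
  box_mk (TrL.c (I.pos (nat_lit 0) (nat_lit 0)) (xa (xa (xb (xa (xb (xa T2.l8 T2.l8) T2.l8) T2.l8) T2.l8) T2.l8) T2.l8)
  (TrL.c (I.pos (nat_lit 0) (nat_lit 0)) (xa (xa T0.l7 T0.l6) T0.l6)
  (TrL.c (I.pos (nat_lit 0) (nat_lit 0)) (xa T2.l5 T2.l5)
  (TrL.c (I.pos (nat_lit 0) (nat_lit 0)) (xa (xa T0.l6 (xb T0.l7 T0.l7)) (xa T0.l7 T0.l7))
  (TrL.c (I.pos (nat_lit 0) (nat_lit 0)) (xa T2.l7 T2.l7)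
  (TrL.c (I.pos (nat_lit 0) (nat_lit 0)) (xa (xa T0.l8 T0.l8) T0.l8)
  TrL.n)))))) (by decide +kernel)
theorem c1_8_0 : chkTag sI cl4 cl9 cl4 t2 b1_8 (tg true true false RT.r2) (I.pos (nat_lit 0) (nat_lit 0))
  (xb (xa (xb (xa (xb (xa T2.l9 T2.l9) (xa T2.l9 T2.l0)) (xb (xa T2.l0 T2.l0) (xa T2.l0 T2.l0))) (xa (xb (xa T2.l0 T2.l0) (xa T2.l0 T2.l0)) (xb T2.l0 T2.l0))) (xb (xa (xb T2.l0 T2.l0) (xb T2.l2 (xb T2.l2 T2.l2))) (xa (xb T2.l0 T2.l0) T2.l2))) (xa (xb (xa (xb (xa T2.l0 T2.l0) (xa T2.l0 T2.l0)) (xb T2.l0 (xa T2.l0 T2.l0))) (xa (xb (xa (xc T2.l0 T2.l0) (xc T2.l0 T2.l0)) (xa (xd T2.l0 (xc T2.l0 T2.l0)) (xc T2.l0 T2.l0))) (xb (xa T2.l0 (xc T2.l0 T2.l0)) (xa (xc T2.l0 T2.l0) (xc T2.l0 T2.l0))))) (xb (xa (xb (xa T2.l0 T2.l0) (xa T2.l0 T2.l2)) (xb T2.l2 (xa T2.l2 T2.l2))) (xa (xb (xa (xc T2.l0 T2.l0) (xd T2.l0 T2.l0)) (xa (xd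 T2.l0 (xc T2.l0 T2.l0)) (xd (xc T2.l0 T2.l0) (xc T2.l0 T2.l0)))) (xb (xa (xd T2.l0 T2.l0) (xd T2.l0 T2.l2)) (xa (xd (xc T2.l0 T2.l0) (xc T2.l0 T2.l0)) (xd (xs T2.l0 (xc T2.l0 T2.l0)) (xs T2.l0 (xc T2.l0 T2.l0))))))))) = true := by decide +kernel
theorem c1_8_1 : chkTag sI cl4 cl9 cl4 t0 b1_8 (tg true false false RT.r3) (I.pos (nat_lit 0) (nat_lit 0))
  (xa (xb (xb (xa (xc T0.l6 T0.l6) (xc T0.l6 T0.l6)) (xa (xc T0.l6 T0.l6) (xc T0.l6 T0.l6))) (xa (xb (xc T0.l6 T0.l6) (xc (xd T0.l6 T0.l6) (xd T0.l6 T0.l6))) (xb (xc T0.l6 T0.l6) (xc (xd T0.l6 T0.l6) (xd T0.l6 T0.l6))))) (xb (xa (xb (xc T0.l6 T0.l6) (xc T0.l6 T0.l6)) (xb (xc T0.l6 T0.l6) (xc T0.l6 (xd T0.l6 T0.l6)))) (xa (xb (xc T0.l6 (xd T0.l6 T0.l6)) (xc (xd T0.l6 T0.l6) (xd T0.l6 T0.l6))) (xb (xc (xd T0.l6 T0.l6) (xd T0.l6 T0.l6)) (xc (xd T0.l6 T0.l6) (xd T0.l6 T0.l6)))))) =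 true := by decide +kernel
theorem c1_8_2 : chkTag sI cl4 cl9 cl4 t2 b1_8 (tg true true true RT.r4) (I.pos (nat_lit 0) (nat_lit 0))
  (xa (xc (xb T2.l3 (xc (xa T2.l5 T2.l3) T2.l5)) (xb T2.l5 (xd T2.l5 T2.l5))) (xc T2.l3 T2.l3)) = true := by decide +kernel
theorem c1_8_3 : chkTag sI cl4 cl9 cl4 t0 b1_8 (tg false false false RT.r3) (I.pos (nat_lit 0) (nat_lit 0))
  (xb (xa (xc (xb T0.l7 T0.l7) (xb T0.l7 T0.l7)) (xa (xc (xb (xd T0.l7 T0.l7) T0.l7) (xb T0.l7 T0.l7)) (xc (xb (xd (xc T0.l7 T0.l7) (xc T0.l7 T0.l7)) (xd T0.l7 T0.l7)) (xb (xd (xb (xc T0.l7 T0.l7) T0.l7) (xb T0.l7 T0.l7)) (xd (xb T0.l7 T0.l7) (xc T0.l7 T0.l7)))))) (xa (xc (xb T0.l7 T0.l7) (xb T0.l7 T0.l7)) (xc (xb (xa T0.l7 (xd T0.l7 T0.l7)) (xa T0.l7 (xd (xb T0.l7 T0.l7) (xb T0.l7 T0.l7)))) (xb (xa T0.l7 (xd (xb T0.l7 T0.l7) (xb T0.l7 T0.l7))) (xa (xd T0.l7 T0.l7) (xd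 (xb T0.l7 T0.l7) (xb T0.l7 T0.l7))))))) = true := by decide +kernel
theorem c1_8_4 : chkTag sI cl4 cl9 cl4 t2 b1_8 (tg false true false RT.r4) (I.pos (nat_lit 0) (nat_lit 0))
  (xa (xc (xb T2.l1 (xc (xb T2.l1 T2.l6) (xb T2.l1 T2.l6))) (xb T2.l1 (xd (xa T2.l6 T2.l6) (xa T2.l6 T2.l6)))) (xb T2.l1 (xc T2.l1 T2.l1))) = true := by decide +kernel
theorem c1_8_5 : chkTag sI cl4 cl9 cl4 t0 b1_8 (tg false false true RT.r5) (I.pos (nat_lit 0) (nat_lit 0))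
  (xa (xb (xb (xa (xc T0.l8 T0.l8) (xc T0.l8 T0.l8)) (xa (xc T0.l8 T0.l8) (xc T0.l8 T0.l8))) (xb (xa (xc T0.l8 T0.l8) (xc T0.l8 T0.l8)) (xa (xc (xd T0.l8 T0.l8) (xd T0.l8 T0.l8)) (xc (xd T0.l8 T0.l8) (xd T0.l8 T0.l8))))) (xb (xa (xb (xc T0.l8 T0.l8) (xc T0.l8 T0.l8)) (xb (xc T0.l8 T0.l8) (xc T0.l8 (xd T0.l8 T0.l8)))) (xa (xb (xc T0.l8 (xd T0.l8 T0.l8)) (xc (xd T0.l8 T0.l8) (xd T0.l8 T0.l8))) (xb (xc (xd T0.l8 T0.l8) (xd T0.l8 T0.l8)) (xc (xd T0.l8 T0.l8) (xd T0.l8 T0.l8)))))) = true := by decide +kernel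
theorem bx1_8 : BoxOK sI cl4 cl9 cl4 t2 t0 b1_8 :=
  box_mk' [(tg true true false RT.r2), (tg true false false RT.r3), (tg true true true RT.r4), (tg false false false RT.r3), (tg false true false RT.r4), (tg false false true RT.r5)] rfl (allL_c (ex_mk c1_8_0) (allL_c (ex_mk c1_8_1) (allL_c (ex_mk c1_8_2) (allL_c (ex_mk c1_8_3) (allL_c (ex_mk c1_8_4) (allL_c (ex_mk c1_8_5) allL_n))))))
theorem bx1_9 : BoxOK sI cl4 cl9 cl4 t2 t0 b1_9 :=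
  box_mk (TrL.c (I.pos (nat_lit 0) (nat_lit 0)) (xb (xa (xb (xa T2.l9 T2.l9) (xa T2.l9 T2.l9)) (xb (xa T2.l9 T2.l9) (xa T2.l9 T2.l9))) (xa (xb (xa (xb T2.l9 T2.l9) T2.l9) (xa (xb T2.l9 T2.l9) T2.l9)) (xb (xa T2.l9 T2.l9) (xa T2.l9 T2.l9))))
  (TrL.c (I.pos (nat_lit 0) (nat_lit 0)) (xb (xa (xb T0.l6 T0.l6) (xb (xa T0.l6 T0.l6) (xa T0.l6 T0.l6))) (xa (xb T0.l6 T0.l6) (xb T0.l6 T0.l6)))
  (TrL.c (I.pos (nat_lit 0) (nat_lit 0)) (xb (xa T2.l5 T2.l5) T2.l5)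
  (TrL.c (I.pos (nat_lit 0) (nat_lit 0)) (xb (xa (xb (xa T0.l7 T0.l7) T0.l7) (xb (xa (xc (xd T0.l7 T0.l7) T0.l7) (xc (xd T0.l7 T0.l7) (xd T0.l7 T0.l7))) T0.l7)) T0.l7)
  (TrL.c (I.pos (nat_lit 0) (nat_lit 0)) (xb (xc (xa T2.l10 T2.l10) (xa T2.l10 T2.l10)) (xc T2.l10 T2.l10))
  (TrL.c (I.pos (nat_lit 0) (nat_lit 0)) (xb (xa (xb T0.l8 T0.l8) (xb (xa T0.l8 T0.l8) (xa T0.l8 T0.l8))) (xa (xb T0.l8 T0.l8) (xb T0.l8 T0.l8)))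
  TrL.n)))))) (by decide +kernel)
theorem bx1_10 : BoxOK sI cl4 cl9 cl4 t2 t0 b1_10 :=
  box_mk (TrL.c (I.pos (nat_lit 0) (nat_lit 0)) T2.l0
  (TrL.c (I.pos (nat_lit 0) (nat_lit 0)) T0.l6
  (TrL.c (I.pos (nat_lit 0) (nat_lit 0)) T2.l5
  (TrL.c (I.pos (nat_lit 0) (nat_lit 0)) T0.l7
  (TrL.c (I.pos (nat_lit 0) (nat_lit 0)) (xa T2.l7 T2.l10)
  (TrL.c (I.pos (nat_lit 0) (nat_lit 0)) T0.l8
  TrL.n)))))) (by decide +kernel)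
theorem bx1_11 : BoxOK sI cl4 cl9 cl4 t2 t0 b1_11 :=
  box_mk (TrL.c (I.pos (nat_lit 0) (nat_lit 0)) T2.l8
  (TrL.c (I.pos (nat_lit 0) (nat_lit 0)) T0.l6
  (TrL.c (I.pos (nat_lit 0) (nat_lit 0)) T2.l5
  (TrL.c (I.pos (nat_lit 0) (nat_lit 0)) T0.l7
  (TrL.c (I.pos (nat_lit 0) (nat_lit 0)) T2.l7
  (TrL.c (I.pos (nat_lit 0) (nat_lit 0)) T0.l8
  TrL.n)))))) (by decide +kernel)
theorem bx1_12 : BoxOK sI cl4 cl9 cl4 t2 t0 b1_12 :=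
  box_mk (TrL.c (I.pos (nat_lit 0) (nat_lit 0)) (xa (xa (xa (xb (xa (xb T2.l8 T2.l8) T2.l8) T2.l8) T2.l8) T2.l8) T2.l8)
  (TrL.c (I.pos (nat_lit 0) (nat_lit 0)) (xa (xa T0.l7 T0.l6) T0.l6)
  (TrL.c (I.pos (nat_lit 0) (nat_lit 0)) (xa T2.l5 T2.l5)
  (TrL.c (I.pos (nat_lit 0) (nat_lit 0)) (xa (xa T0.l6 T0.l7) T0.l7)
  (TrL.c (I.pos (nat_lit 0) (nat_lit 0)) (xa T2.l7 T2.l7)
  (TrL.c (I.pos (nat_lit 0) (nat_lit 0)) (xa (xa T0.l8 T0.l8) T0.l8)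
  TrL.n)))))) (by decide +kernel)
theorem bx1_13 : BoxOK sI cl4 cl9 cl4 t2 t0 b1_13 :=
  box_mk (TrL.c (I.pos (nat_lit 0) (nat_lit 0)) T2.l8
  (TrL.c (I.pos (nat_lit 0) (nat_lit 0)) T0.l6
  (TrL.c (I.pos (nat_lit 0) (nat_lit 0)) T2.l5
  (TrL.c (I.pos (nat_lit 0) (nat_lit 0)) T0.l7
  (TrL.c (I.pos (nat_lit 0) (nat_lit 0)) T2.l7
  (TrL.c (I.pos (nat_lit 0) (nat_lit 0)) T0.l8
  TrL.n)))))) (by decide +kernel)
theorem bx1_14 : BoxOK sI cl4 cl9 cl4 t2 t0 b1_14 :=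
  box_mk (TrL.c (I.pos (nat_lit 0) (nat_lit 0)) (xa (xb (xa T2.l0 T2.l0) T2.l0) (xb T2.l2 T2.l2))
  (TrL.c (I.pos (nat_lit 0) (nat_lit 0)) (xa (xb T0.l6 T0.l6) (xb (xa T0.l6 (xd T0.l6 T0.l6)) (xa T0.l6 T0.l6)))
  (TrL.c (I.pos (nat_lit 0) (nat_lit 0)) T2.l3
  (TrL.c (I.pos (nat_lit 0) (nat_lit 0)) (xa T0.l0 T0.l0)
  (TrL.c (I.pos (nat_lit 0) (nat_lit 0)) T2.l1
  (TrL.c (I.pos (nat_lit 0) (nat_lit 0)) (xa (xb T0.l8 T0.l8) (xb (xa T0.l8 (xd T0.l8 T0.l8)) (xa T0.l8 T0.l8)))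
  TrL.n)))))) (by decide +kernel)
theorem bx1_15 : BoxOK sI cl4 cl9 cl4 t2 t0 b1_15 :=
  box_mk (TrL.c (I.pos (nat_lit 0) (nat_lit 0)) T2.l0
  (TrL.c (I.pos (nat_lit 0) (nat_lit 0)) T0.l6
  (TrL.c (I.pos (nat_lit 0) (nat_lit 0)) T2.l5
  (TrL.c (I.pos (nat_lit 0) (nat_lit 0)) T0.l7
  (TrL.c (I.pos (nat_lit 0) (nat_lit 0)) T2.l10
  (TrL.c (I.pos (nat_lit 0) (nat_lit 0)) T0.l8
  TrL.n)))))) (by decide +kernel)
theorem sv1 : StarV sI cl4 cl9 cl4 t2 t0 t1 :=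
  (bt_n (bt_n (bt_n (bt_n (bt_b bx1_0) (bt_b bx1_1)) (bt_n (bt_b bx1_2) (bt_b bx1_3))) (bt_n (bt_n (bt_b bx1_4) (bt_b bx1_5)) (bt_n (bt_b bx1_6) (bt_b bx1_7)))) (bt_n (bt_n (bt_n (bt_b bx1_8) (bt_b bx1_9)) (bt_n (bt_b bx1_10) (bt_b bx1_11))) (bt_n (bt_n (bt_b bx1_12) (bt_b bx1_13)) (bt_n (bt_b bx1_14) (bt_b bx1_15)))))
def S1 : StarD := StarD.mk cl4 cl9 cl4 2 0 t1
theorem c2_0_0 : chkTag sI cl9 cl4 cl4 t1 b2_0 (tg true true false RT.r2) (I.pos (nat_lit 0) (nat_lit 0))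
  (xa (xb (xa (xb T1.l8 T1.l8) (xb (xa T1.l8 (xc T1.l8 T1.l0)) (xa T1.l8 (xc T1.l8 (xb T1.l0 T1.l0))))) (xa (xb (xa T1.l8 T1.l8) (xa (xb (xc T1.l8 (xk T1.l8 T1.l8)) (xc (xk T1.l8 T1.l8) (xk (xa T1.l0 T1.l0) (xa T1.l0 T1.l0)))) (xc (xb T1.l8 (xk T1.l8 T1.l8)) (xb (xk T1.l0 T1.l0) (xk (xa T1.l0 T1.l0) (xa T1.l0 T1.l0)))))) (xb (xa (xc T1.l8 T1.l8) (xc T1.l8 (xb T1.l0 T1.l0))) (xa (xc (xb T1.l8 (xk T1.l8 T1.l0)) (xb (xk T1.l0 T1.l0) (xk (xa T1.l0 T1.l0) T1.l0))) (xc (xb T1.l0 (xk T1.l0 T1.l0)) (xb (xk T1.l0 T1.l0) (xk T1.l0 T1.l0))))))) (xb (xa (xb (xa (xc T1.l0 T1.l0) T1.l0) (xa (xc T1.l0 T1.l0) (xc T1.l0 T1.l0))) (xb (xa T1.l0 T1.l0) (xa T1.l0 T1.l0))) (xa (xb (xa (xc (xb T1.l0 T1.l0) (xb T1.l0 T1.l0)) (xc T1.l0 T1.l0)) (xa (xc (xb T1.l0 (xk T1.l0 T1.l0)) (xb T1.l0 (xk T1.l0 T1.l0))) (xc (xb T1.l0 (xk T1.l0 T1.l0)) (xk (xb T1.l0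 T1.l0) (xb T1.l0 T1.l0))))) (xb (xa (xc T1.l0 T1.l0) (xc T1.l0 T1.l0)) (xa (xc (xb T1.l0 (xk T1.l0 T1.l0)) (xk (xb T1.l0 T1.l0) T1.l0)) (xk (xc T1.l0 (xb T1.l0 T1.l0)) (xc T1.l0 T1.l0))))))) = true := by decide +kernel
theorem c2_0_1 : chkTag sI cl9 cl4 cl4 t1 b2_0 (tg true false false RT.r3) (I.pos (nat_lit 0) (nat_lit 0))
  (xa (xb (xk T1.l1 T1.l1) (xk (xa (xb T1.l1 T1.l1) (xb T1.l1 T1.l1)) (xa T1.l1 T1.l1))) (xb (xk T1.l1 T1.l1) (xk (xa (xb T1.l1 T1.l1) (xb T1.l1 T1.l1)) (xa T1.l1 T1.l1)))) = true := by decide +kernel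
theorem c2_0_2 : chkTag sI cl9 cl4 cl4 t1 b2_0 (Tag.mk true true false RT.tl RT.r4) (I.pos (nat_lit 0) (nat_lit 124588530))
  (xR T1.l6 (xR T1.l2 (xR T1.l2 (xa T1.l2 T1.l2)))) = true := by decide +kernel
theorem c2_0_3 : chkTag sI cl9 cl4 cl4 t1 b2_0 (Tag.mk true false false RT.tl RT.r5) (I.pos (nat_lit 0) (nat_lit 96881482))
  (xR T1.l7 (xR T1.l3 (xR T1.l3 T1.l3))) = true := by decide +kernel
theorem c2_0_4 : chkTag sI cl9 cl4 cl4 t1 b2_0 (tg false false false RT.r3) (I.pos (nat_lit 0) (nat_lit 0))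
  (xa (xb (xk T1.l9 T1.l9) (xk (xa T1.l4 T1.l4) (xa T1.l9 T1.l4))) (xb (xk (xa (xb T1.l4 T1.l4) (xb (xk T1.l4 T1.l4) (xk T1.l4 T1.l4))) (xa (xb T1.l4 T1.l4) (xb (xk T1.l4 T1.l4) (xk T1.l4 T1.l4)))) (xk (xa (xb T1.l4 T1.l4) (xb (xk T1.l4 T1.l4) (xk T1.l4 T1.l4))) (xa (xb T1.l4 T1.l4) (xb (xk T1.l4 T1.l4) (xk T1.l4 T1.l4)))))) = true := by decide +kernel
theorem c2_0_5 : chkTag sI cl9 cl4 cl4 t1 b2_0 (tg false true false RT.r4) (I.pos (nat_lit 0) (nat_lit 0))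
  (xa T1.l5 (xb T1.l5 T1.l5)) = true := by decide +kernel
theorem c2_0_6 : chkTag sI cl9 cl4 cl4 t1 b2_0 (Tag.mk false false false RT.tl RT.r5) (I.mix (nat_lit 17240550) (nat_lit 96881482))
  (xR T1.l6 (xR T1.l6 (xR T1.l6 T1.l6))) = true := by decide +kernel
theorem c2_0_7 : chkTag sI cl9 cl4 cl4 t1 b2_0 (Tag.mk false true false RT.tl RT.r6) (I.mix (nat_lit 17240550) (nat_lit 71940500))
  (xR T1.l7 (xR T1.l7 T1.l7)) = true := by decide +kernel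
theorem bx2_0 : BoxOK sI cl9 cl4 cl4 t1 t1 b2_0 :=
  box_mk' [(tg true true false RT.r2), (tg true false false RT.r3), (Tag.mk true true false RT.tl RT.r4), (Tag.mk true false false RT.tl RT.r5), (tg false false false RT.r3), (tg false true false RT.r4), (Tag.mk false false false RT.tl RT.r5), (Tag.mk false true false RT.tl RT.r6)] rfl (allL_c (ex_mk c2_0_0) (allL_c (ex_mk c2_0_1) (allL_c (ex_mk c2_0_2) (allL_c (ex_mk c2_0_3) (allL_c (ex_mk c2_0_4) (allL_c (ex_mk c2_0_5) (allL_c (ex_mk c2_0_6) (allL_c (ex_mk c2_0_7) allL_n))))))))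
theorem bx2_1 : BoxOK sI cl9 cl4 cl4 t1 t1 b2_1 :=
  box_mk (TrL.c (I.pos (nat_lit 0) (nat_lit 0)) (xb (xa (xb (xa T1.l8 T1.l8) T1.l8) (xb T1.l8 T1.l8)) (xa (xb T1.l8 (xa (xb T1.l8 T1.l8) T1.l8)) (xb T1.l8 T1.l8)))
  (TrL.c (I.pos (nat_lit 0) (nat_lit 0)) (xb (xa T1.l1 T1.l10) (xa T1.l1 T1.l1))
  (TrL.c (I.pos (nat_lit 0) (nat_lit 124588530)) (xR T1.l2 (xR T1.l2 (xR T1.l2 T1.l2)))
  (TrL.c (I.pos (nat_lit 0) (nat_lit 96881482)) (xR T1.l3 (xR T1.l3 (xR T1.l3 T1.l12)))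
  (TrL.c (I.pos (nat_lit 0) (nat_lit 0)) (xb (xa (xk (xb T1.l9 T1.l9) T1.l9) (xk (xb (xa T1.l9 T1.l9) T1.l9) (xb T1.l9 T1.l9))) (xa (xk T1.l9 T1.l9) T1.l9))
  (TrL.c (I.pos (nat_lit 0) (nat_lit 0)) T1.l5
  (TrL.c (I.mix (nat_lit 17240550) (nat_lit 96881482)) (xR T1.l6 (xR T1.l6 (xR T1.l6 T1.l6)))
  (TrL.c (I.mix (nat_lit 17240550) (nat_lit 71940500)) T1.l6
  TrL.n)))))))) (by decide +kernel)
theorem c2_2_0 : chkTag sI cl9 cl4 cl4 t1 b2_2 (tg true true false RT.r2) (I.pos (nat_lit 0) (nat_lit 0))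
  (xb (xa (xb (xa (xb (xb T1.l8 T1.l8) T1.l8) (xb T1.l8 T1.l8)) (xa (xb T1.l8 (xc T1.l8 T1.l8)) (xb T1.l8 T1.l8))) (xb (xa (xb T1.l8 T1.l8) (xb T1.l8 T1.l8)) (xa T1.l8 (xb T1.l8 T1.l8)))) (xa (xb (xa (xb (xc T1.l8 T1.l8) (xc (xk T1.l8 T1.l8) (xk T1.l8 T1.l8))) (xb T1.l8 (xc T1.l8 T1.l8))) (xa (xb (xc (xk (xa T1.l8 T1.l8) T1.l8) (xk T1.l8 T1.l8)) (xc (xk (xa T1.l8 T1.l8) (xa T1.l8 T1.l8)) (xk (xa T1.l8 T1.l8) (xa T1.l8 T1.l8)))) (xb (xc (xk T1.l8 T1.l8) (xk T1.l8 T1.l8)) (xc (xk (xa T1.l8 T1.l8) (xa T1.l8 T1.l8)) (xk (xa T1.l8 T1.l8) (xa T1.l8 T1.l8)))))) (xb (xa (xb T1.l8 T1.l8) (xb T1.l8 (xk T1.l8 T1.l8))) (xa (xb (xc T1.l8 T1.l8) (xk (xc T1.l8 (xa T1.l8 T1.l8)) (xc T1.l8 (xa T1.l8 T1.l8)))) (xb (xk (xc T1.l8 T1.l8) T1.l8) (xk (xa (xc T1.l8 T1.l8) (xc T1.l8 T1.l8)) (xc T1.l8 (xa T1.l8 T1.l8)))))))) = true := by decide +kernel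
theorem c2_2_1 : chkTag sI cl9 cl4 cl4 t1 b2_2 (tg true false false RT.r3) (I.pos (nat_lit 0) (nat_lit 0))
  (xb (xb (xk (xa T1.l1 T1.l1) T1.l1) (xk (xa T1.l1 T1.l1) (xa T1.l1 T1.l1))) (xa (xk (xb T1.l1 T1.l1) (xb T1.l1 T1.l1)) (xk (xb T1.l1 (xa T1.l1 T1.l1)) (xb T1.l1 T1.l1)))) = true := by decide +kernel
theorem c2_2_2 : chkTag sI cl9 cl4 cl4 t1 b2_2 (Tag.mk true true false RT.tl RT.r4) (I.pos (nat_lit 0) (nat_lit 124588530))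
  (xR T1.l6 (xR T1.l2 (xb T1.l2 (xR T1.l2 T1.l2)))) = true := by decide +kernel
theorem c2_2_3 : chkTag sI cl9 cl4 cl4 t1 b2_2 (Tag.mk true false false RT.tl RT.r5) (I.pos (nat_lit 0) (nat_lit 96881482))
  (xR T1.l3 (xR T1.l3 (xb T1.l3 (xR T1.l3 T1.l3)))) = true := by decide +kernel
theorem c2_2_4 : chkTag sI cl9 cl4 cl4 t1 b2_2 (tg false false false RT.r3) (I.pos (nat_lit 0) (nat_lit 0))
  (xb (xa (xb (xk T1.l9 T1.l9) T1.l9) (xk (xb T1.l9 T1.l9) (xb T1.l9 T1.l9))) (xk (xb T1.l9 (xa T1.l4 T1.l9)) (xa T1.l9 (xb T1.l9 T1.l9)))) = true := by decide +kernel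
theorem c2_2_5 : chkTag sI cl9 cl4 cl4 t1 b2_2 (tg false true false RT.r4) (I.pos (nat_lit 0) (nat_lit 0))
  (xb T1.l5 T1.l5) = true := by decide +kernel
theorem c2_2_6 : chkTag sI cl9 cl4 cl4 t1 b2_2 (Tag.mk false false false RT.tl RT.r5) (I.mix (nat_lit 17240550) (nat_lit 96881482))
  (xR T1.l6 (xR T1.l6 (xR T1.l6 T1.l6))) = true := by decide +kernel
theorem c2_2_7 : chkTag sI cl9 cl4 cl4 t1 b2_2 (Tag.mk false true false RT.tl RT.r6) (I.mix (nat_lit 17240550) (nat_lit 71940500))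
  (xR T1.l7 (xR T1.l7 T1.l7)) = true := by decide +kernel
theorem bx2_2 : BoxOK sI cl9 cl4 cl4 t1 t1 b2_2 :=
  box_mk' [(tg true true false RT.r2), (tg true false false RT.r3), (Tag.mk true true false RT.tl RT.r4), (Tag.mk true false false RT.tl RT.r5), (tg false false false RT.r3), (tg false true false RT.r4), (Tag.mk false false false RT.tl RT.r5), (Tag.mk false true false RT.tl RT.r6)] rfl (allL_c (ex_mk c2_2_0) (allL_c (ex_mk c2_2_1) (allL_c (ex_mk c2_2_2) (allL_c (ex_mk c2_2_3) (allL_c (ex_mk c2_2_4) (allL_c (ex_mk c2_2_5) (allL_c (ex_mk c2_2_6) (allL_c (ex_mk c2_2_7) allL_n))))))))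
theorem bx2_3 : BoxOK sI cl9 cl4 cl4 t1 t1 b2_3 :=
  box_mk (TrL.c (I.pos (nat_lit 0) (nat_lit 0)) (xb (xa T1.l1 T1.l1) (xa T1.l10 T1.l10))
  (TrL.c (I.pos (nat_lit 0) (nat_lit 0)) T1.l11
  (TrL.c (I.mix (nat_lit 17240550) (nat_lit 96881482)) (xR T1.l12 (xR T1.l12 (xR T1.l12 T1.l12)))
  (TrL.c (I.mix (nat_lit 17240550) (nat_lit 71940500)) (xR (xR T1.l12 T1.l2) T1.l2)
  TrL.n)))) (by decide +kernel)
theorem bx2_4 : BoxOK sI cl9 cl4 cl4 t1 t1 b2_4 :=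
  box_mk (TrL.c (I.pos (nat_lit 0) (nat_lit 0)) T1.l8
  (TrL.c (I.pos (nat_lit 0) (nat_lit 0)) T1.l1
  (TrL.c (I.pos (nat_lit 0) (nat_lit 124588530)) (xR T1.l2 T1.l2)
  (TrL.c (I.pos (nat_lit 0) (nat_lit 96881482)) (xR T1.l3 T1.l3)
  (TrL.c (I.pos (nat_lit 0) (nat_lit 0)) T1.l9
  (TrL.c (I.pos (nat_lit 0) (nat_lit 0)) T1.l5
  (TrL.c (I.mix (nat_lit 17240550) (nat_lit 96881482)) T1.l6
  (TrL.c (I.mix (nat_lit 17240550) (nat_lit 71940500)) T1.l7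
  TrL.n)))))))) (by decide +kernel)
theorem bx2_5 : BoxOK sI cl9 cl4 cl4 t1 t1 b2_5 :=
  box_mk (TrL.c (I.pos (nat_lit 0) (nat_lit 0)) (xb (xa T1.l10 T1.l10) (xa T1.l10 T1.l10))
  (TrL.c (I.pos (nat_lit 0) (nat_lit 0)) T1.l11
  (TrL.c (I.mix (nat_lit 17240550) (nat_lit 96881482)) (xR (xR T1.l12 T1.l12) T1.l6)
  (TrL.c (I.mix (nat_lit 17240550) (nat_lit 71940500)) T1.l12
  TrL.n)))) (by decide +kernel)
theorem bx2_6 : BoxOK sI cl9 cl4 cl4 t1 t1 b2_6 :=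
  box_mk (TrL.c (I.pos (nat_lit 0) (nat_lit 0)) (xb (xa T1.l14 T1.l8) T1.l8)
  (TrL.c (I.pos (nat_lit 0) (nat_lit 0)) T1.l10
  (TrL.c (I.pos (nat_lit 0) (nat_lit 124588530)) (xR T1.l2 (xR T1.l2 (xR T1.l2 T1.l2)))
  (TrL.c (I.pos (nat_lit 0) (nat_lit 96881482)) T1.l6
  (TrL.c (I.pos (nat_lit 0) (nat_lit 0)) (xb (xk T1.l9 T1.l9) T1.l9)
  (TrL.c (I.pos (nat_lit 0) (nat_lit 0)) T1.l5
  (TrL.c (I.mix (nat_lit 17240550) (nat_lit 96881482)) T1.l6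
  (TrL.c (I.mix (nat_lit 17240550) (nat_lit 71940500)) T1.l6
  TrL.n)))))))) (by decide +kernel)
theorem bx2_7 : BoxOK sI cl9 cl4 cl4 t1 t1 b2_7 :=
  box_mk (TrL.c (I.pos (nat_lit 0) (nat_lit 0)) (xb (xa (xb (xa T1.l14 T1.l14) T1.l14) T1.l14) (xa (xa (xb T1.l14 T1.l14) (xb T1.l14 T1.l14)) (xa T1.l14 T1.l14)))
  (TrL.c (I.pos (nat_lit 0) (nat_lit 0)) (xk T1.l10 T1.l1)
  (TrL.c (I.pos (nat_lit 0) (nat_lit 124588530)) (xR T1.l2 (xR T1.l2 (xR T1.l2 T1.l11)))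
  (TrL.c (I.pos (nat_lit 0) (nat_lit 96881482)) T1.l6
  (TrL.c (I.pos (nat_lit 0) (nat_lit 0)) (xa (xb T1.l15 T1.l15) (xb T1.l15 T1.l15))
  (TrL.c (I.pos (nat_lit 0) (nat_lit 0)) T1.l5
  (TrL.c (I.mix (nat_lit 17240550) (nat_lit 96881482)) (xR T1.l6 T1.l6)
  (TrL.c (I.mix (nat_lit 17240550) (nat_lit 71940500)) T1.l12
  TrL.n)))))))) (by decide +kernel)
theorem c2_8_0 : chkTag sI cl9 cl4 cl4 t1 b2_8 (tg true true false RT.r2) (I.pos (nat_lit 0) (nat_lit 0))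
  (xa (xb (xa (xb T1.l0 T1.l0) (xb T1.l0 T1.l0)) (xa (xb (xa T1.l0 T1.l0) (xa (xc T1.l0 T1.l0) (xc T1.l0 T1.l0))) (xb (xa T1.l0 T1.l0) (xa (xc T1.l0 T1.l0) (xc T1.l0 T1.l0))))) (xb (xa (xb T1.l0 T1.l0) (xb (xa T1.l0 T1.l0) (xa T1.l0 T1.l0))) (xa (xb (xa T1.l0 T1.l0) (xa (xc T1.l0 T1.l0) (xc T1.l0 T1.l0))) (xb (xa T1.l0 (xc T1.l0 T1.l0)) (xa (xc T1.l0 T1.l0) (xc T1.l0 (xk T1.l0 T1.l0))))))) = true := by decide +kernel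
theorem c2_8_1 : chkTag sI cl9 cl4 cl4 t1 b2_8 (tg true false false RT.r3) (I.pos (nat_lit 0) (nat_lit 0))
  (xa (xb (xk T1.l1 T1.l1) (xk (xa T1.l1 T1.l1) T1.l1)) (xb (xk (xa T1.l1 T1.l5) (xa T1.l1 T1.l5)) (xk (xa T1.l1 (xb T1.l5 T1.l5)) (xa T1.l1 T1.l5)))) = true := by decide +kernel
theorem c2_8_2 : chkTag sI cl9 cl4 cl4 t1 b2_8 (Tag.mk true true false RT.tl RT.r4) (I.pos (nat_lit 0) (nat_lit 124588530))
  (xR T1.l6 (xR T1.l2 T1.l6)) = true := by decide +kernel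
theorem c2_8_3 : chkTag sI cl9 cl4 cl4 t1 b2_8 (Tag.mk true false false RT.tl RT.r5) (I.pos (nat_lit 0) (nat_lit 96881482))
  (xR (xR T1.l6 T1.l3) (xR T1.l3 (xR T1.l3 (xa T1.l3 T1.l7)))) = true := by decide +kernel
theorem c2_8_4 : chkTag sI cl9 cl4 cl4 t1 b2_8 (tg false false false RT.r3) (I.pos (nat_lit 0) (nat_lit 0))
  (xa (xb (xk (xa (xb (xk T1.l4 T1.l4) T1.l4) (xb (xk (xa T1.l4 T1.l4) (xa T1.l4 T1.l4)) T1.l4)) (xa (xb (xk T1.l4 T1.l4) T1.l4) (xb (xk (xa T1.l4 T1.l4) (xa T1.l4 T1.l4)) T1.l4))) (xk (xa T1.l4 T1.l4) (xa T1.l4 T1.l4))) (xb (xk (xa (xb (xk (xa T1.l4 (xb T1.l4 T1.l4)) (xa T1.l4 (xb T1.l4 T1.l4))) (xk T1.l4 T1.l4)) (xb (xk (xa (xb T1.l4 T1.l4) (xb (xk T1.l4 T1.l4) T1.l4)) (xa (xb T1.l4 T1.l4) (xb (xc T1.l4 T1.l4) T1.l4))) (xk (xa T1.l4 (xb T1.l4 T1.l4)) (xa T1.l4 T1.l4)))) (xa (xb (xk (xa T1.l4 T1.l4) (xa T1.l4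 T1.l4)) (xk T1.l4 T1.l4)) (xb (xk (xa (xb T1.l4 T1.l4) (xb T1.l4 T1.l4)) (xa (xb T1.l4 T1.l4) (xb (xc T1.l4 T1.l4) T1.l4))) (xk (xa T1.l4 T1.l4) (xa T1.l4 T1.l4))))) (xk (xa (xb (xk T1.l4 T1.l4) (xk T1.l4 T1.l4)) (xb (xk (xa T1.l4 (xb T1.l4 T1.l4)) (xa T1.l4 (xb T1.l4 T1.l4))) (xk (xa T1.l4 (xb T1.l4 T1.l4)) (xa T1.l4 (xb T1.l4 T1.l4))))) (xa (xb T1.l4 (xk T1.l4 T1.l4)) (xb (xk (xa T1.l4 T1.l4) (xa T1.l4 T1.l4)) (xk (xa T1.l4 (xb T1.l4 T1.l4)) (xa T1.l4 (xb T1.l4 T1.l4)))))))) = true := by decide +kernel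
theorem c2_8_5 : chkTag sI cl9 cl4 cl4 t1 b2_8 (tg false true false RT.r4) (I.pos (nat_lit 0) (nat_lit 0))
  (xa (xb (xk T1.l5 T1.l5) T1.l5) (xk (xb (xa T1.l5 T1.l5) (xa T1.l5 T1.l5)) (xb (xa T1.l5 T1.l5) (xa T1.l5 T1.l5)))) = true := by decide +kernel
theorem c2_8_6 : chkTag sI cl9 cl4 cl4 t1 b2_8 (Tag.mk false false false RT.tl RT.r5) (I.mix (nat_lit 17240550) (nat_lit 96881482))
  (xR T1.l6 (xR T1.l6 (xR T1.l6 (xb (xa T1.l6 T1.l6) (xk T1.l6 T1.l6))))) = true := by decide +kernel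
theorem c2_8_7 : chkTag sI cl9 cl4 cl4 t1 b2_8 (Tag.mk false true false RT.tl RT.r6) (I.mix (nat_lit 17240550) (nat_lit 71940500))
  (xR T1.l7 (xR T1.l7 (xR T1.l7 T1.l7))) = true := by decide +kernel
theorem bx2_8 : BoxOK sI cl9 cl4 cl4 t1 t1 b2_8 :=
  box_mk' [(tg true true false RT.r2), (tg true false false RT.r3), (Tag.mk true true false RT.tl RT.r4), (Tag.mk true false false RT.tl RT.r5), (tg false false false RT.r3), (tg false true false RT.r4), (Tag.mk false false false RT.tl RT.r5), (Tag.mk false true false RT.tl RT.r6)] rfl (allL_c (ex_mk c2_8_0) (allL_c (ex_mk c2_8_1) (allL_c (ex_mk c2_8_2) (allL_c (ex_mk c2_8_3) (allL_c (ex_mk c2_8_4) (allL_c (ex_mk c2_8_5) (allL_c (ex_mk c2_8_6) (allL_c (ex_mk c2_8_7) allL_n))))))))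
theorem bx2_9 : BoxOK sI cl9 cl4 cl4 t1 t1 b2_9 :=
  box_mk (TrL.c (I.pos (nat_lit 0) (nat_lit 0)) (xa (xb (xb (xa T1.l8 T1.l0) (xa T1.l8 T1.l8)) (xa (xb T1.l8 (xk (xb T1.l0 T1.l0) (xb T1.l0 T1.l0))) (xb (xk T1.l0 T1.l0) (xk (xb T1.l0 T1.l0) (xb T1.l0 T1.l0))))) (xb (xa (xb T1.l0 T1.l0) (xb T1.l0 T1.l0)) (xa (xb (xk T1.l0 T1.l0) (xk (xb T1.l0 T1.l0) (xb T1.l0 T1.l0))) (xb (xk T1.l0 T1.l0) (xk (xb T1.l0 T1.l0) T1.l0)))))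
  (TrL.c (I.pos (nat_lit 0) (nat_lit 0)) (xk (xa (xb T1.l1 T1.l1) (xb T1.l1 T1.l1)) (xa T1.l1 T1.l1))
  (TrL.c (I.pos (nat_lit 0) (nat_lit 124588530)) (xR T1.l2 (xR T1.l2 T1.l2))
  (TrL.c (I.pos (nat_lit 0) (nat_lit 96881482)) (xR T1.l3 T1.l3)
  (TrL.c (I.pos (nat_lit 0) (nat_lit 0)) (xk (xb (xa T1.l4 T1.l4) (xa T1.l4 T1.l4)) (xb T1.l4 (xa T1.l4 T1.l4)))
  (TrL.c (I.pos (nat_lit 0) (nat_lit 0)) T1.l5
  (TrL.c (I.mix (nat_lit 17240550) (nat_lit 96881482)) (xR T1.l6 T1.l6)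
  (TrL.c (I.mix (nat_lit 17240550) (nat_lit 71940500)) T1.l7
  TrL.n)))))))) (by decide +kernel)
theorem bx2_10 : BoxOK sI cl9 cl4 cl4 t1 t1 b2_10 :=
  box_mk (TrL.c (I.pos (nat_lit 0) (nat_lit 0)) (xb T1.l8 (xa T1.l8 T1.l8))
  (TrL.c (I.pos (nat_lit 0) (nat_lit 0)) T1.l1
  (TrL.c (I.pos (nat_lit 0) (nat_lit 124588530)) (xR T1.l2 (xR T1.l2 T1.l2))
  (TrL.c (I.pos (nat_lit 0) (nat_lit 96881482)) T1.l6
  (TrL.c (I.pos (nat_lit 0) (nat_lit 0)) (xk T1.l9 T1.l9)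
  (TrL.c (I.pos (nat_lit 0) (nat_lit 0)) T1.l5
  (TrL.c (I.mix (nat_lit 17240550) (nat_lit 96881482)) T1.l6
  (TrL.c (I.mix (nat_lit 17240550) (nat_lit 71940500)) T1.l6
  TrL.n)))))))) (by decide +kernel)
theorem sv2 : StarV sI cl9 cl4 cl4 t1 t1 t2 :=
  (bt_n (bt_n (bt_n (bt_b bx2_0) (bt_b bx2_1)) (bt_n (bt_b bx2_2) (bt_n (bt_b bx2_3) (bt_b bx2_4)))) (bt_n (bt_n (bt_b bx2_5) (bt_n (bt_b bx2_6) (bt_b bx2_7))) (bt_n (bt_b bx2_8) (bt_n (bt_b bx2_9) (bt_b bx2_10)))))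
def S2 : StarD := StarD.mk cl9 cl4 cl4 1 1 t2
def G : List StarD := [S0, S1, S2]
theorem so0 : StarOK sI G S0 :=
  star_mk (by decide) (by decide) rfl rfl rfl rfl rfl rfl (rfl : _ = t0) (rfl : _ = t2)
  (st_mk (Pth.l (Pth.l (Pth.l Pth.z))) (nat_lit 397401803) (nat_lit 401250496) (by decide +kernel))
  (st_mk (Pth.l (Pth.l (Pth.l Pth.z))) (nat_lit 439515155) (nat_lit 444331736) (by decide +kernel))
  (st_mk (Pth.l (Pth.l (Pth.l Pth.z))) (nat_lit 489235752) (nat_lit 495373408) (by decide +kernel)) sv0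
theorem so1 : StarOK sI G S1 :=
  star_mk (by decide) (by decide) rfl rfl rfl rfl rfl rfl (rfl : _ = t2) (rfl : _ = t0)
  (st_mk (Pth.l (Pth.l (Pth.l (Pth.l Pth.z)))) (nat_lit 119560537) (nat_lit 143588456) (by decide +kernel))
  (st_mk (Pth.l (Pth.l (Pth.l (Pth.l Pth.z)))) (nat_lit 159249579) (nat_lit 184210642) (by decide +kernel))
  (st_mk (Pth.l (Pth.l (Pth.l (Pth.l Pth.z)))) (nat_lit 207066733) (nat_lit 233325140) (by decide +kernel)) sv1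
theorem so2 : StarOK sI G S2 :=
  star_mk (by decide) (by decide) rfl rfl rfl rfl rfl rfl (rfl : _ = t1) (rfl : _ = t1)
  (st_mk (Pth.l (Pth.l (Pth.l Pth.z))) (nat_lit 368417878) (nat_lit 373949563) (by decide +kernel))
  (st_mk (Pth.l (Pth.l (Pth.l Pth.z))) (nat_lit 404157984) (nat_lit 410504639) (by decide +kernel))
  (st_mk (Pth.l (Pth.l (Pth.l Pth.z))) (nat_lit 445496048) (nat_lit 452886673) (by decide +kernel)) sv2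
theorem ok : GroupOK (nat_lit 238878720) (nat_lit 268435456) G := grp_mk (allS_c so0 (allS_c so1 (allS_c so2 allS_n)))
theorem cov : GCov G cl4 cl4 cl9 := cov_mk
  ⟨0, by decide, rfl, rfl, rfl⟩ ⟨1, by decide, rfl, rfl, rfl⟩ ⟨0, by decide, rfl, rfl, rfl⟩ ⟨1, by decide, rfl, rfl, rfl⟩ ⟨2, by decide, rfl, rfl, rfl⟩ ⟨2, by decide, rfl, rfl, rfl⟩
end Q115_4

namespace Q116_0
def sI : I := I.pos (nat_lit 0) (nat_lit 91291648)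
def b0_0 : Bx := Bx.mk (St.mk (I.pos (nat_lit 156221440) (nat_lit 223920128)) (I.mix (nat_lit 6422528) (nat_lit 108920832)) (I.mix (nat_lit 57524224) (nat_lit 47726592)) (I.pos (nat_lit 373587968) (nat_lit 478855168)) (I.mix (nat_lit 111345664) (nat_lit 87097344)) (I.mix (nat_lit 96141312) (nat_lit 96206848)) (I.mix (nat_lit 129892352) (nat_lit 123207680)))
  false (nat_lit 2918586)
def b0_1 : Bx := Bx.mk (St.mk (I.mix (nat_lit 51429376) (nat_lit 5095424)) (I.mix (nat_lit 20643840) (nat_lit 92258304)) (I.neg (nat_lit 78462976) (nat_lit 108756992)) (I.pos (nat_lit 263438336) (nat_lit 294174720)) (I.mix (nat_lit 60588032) (nat_lit 118194176)) (I.mix (nat_lit 101711872) (nat_lit 79822848)) (I.mix (nat_lit 43483136) (nat_lit 47382528)))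
  true (nat_lit 0)
def b0_2 : Bx := Bx.mk (St.mk (I.pos (nat_lit 11206656) (nat_lit 50528256)) (I.neg (nat_lit 25083904) (nat_lit 89669632)) (I.neg (nat_lit 78462976) (nat_lit 108756992)) (I.pos (nat_lit 265650176) (nat_lit 294043648)) (I.mix (nat_lit 118194176) (nat_lit 44679168)) (I.mix (nat_lit 79822848) (nat_lit 101711872)) (I.mix (nat_lit 43483136) (nat_lit 47382528)))
  false (nat_lit 0)
def b0_3 : Bx := Bx.mk (St.mk (I.mix (nat_lit 16924672) (nat_lit 3899392)) (I.mix (nat_lit 19841024) (nat_lit 19546112)) (I.neg (nat_lit 82116608) (nat_lit 96387072)) (I.pos (nat_lit 264372224) (nat_lit 281821184)) (I.mix (nat_lit 52920320) (nat_lit 45711360)) (I.mix (nat_lit 51806208) (nat_lit 48807936)) (I.mix (nat_lit 3702784) (nat_lit 20381696)))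
  true (nat_lit 0)
def b0_4 : Bx := Bx.mk (St.mk (I.pos (nat_lit 217645056) (nat_lit 259784704)) (I.mix (nat_lit 28590080) (nat_lit 27262976)) (I.neg (nat_lit 112541696) (nat_lit 232587264)) (I.pos (nat_lit 463863808) (nat_lit 546095104)) (I.mix (nat_lit 96714752) (nat_lit 61194240)) (I.mix (nat_lit 90374144) (nat_lit 99467264)) (I.mix (nat_lit 163758080) (nat_lit 244613120)))
  false (nat_lit 0)
def b0_5 : Bx := Bx.mk (St.mk (I.mix (nat_lit 3211264) (nat_lit 16056320)) (I.mix (nat_lit 16089088) (nat_lit 15679488)) (I.neg (nat_lit 82132992) (nat_lit 96288768)) (I.pos (nat_lit 264372224) (nat_lit 281755648)) (I.mix (nat_lit 41369600) (nat_lit 44957696)) (I.mix (nat_lit 45875200) (nat_lit 45301760)) (I.mix (nat_lit 1900544) (nat_lit 18694144)))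
  false (nat_lit 0)
def b0_6 : Bx := Bx.mk (St.mk (I.pos (nat_lit 10911744) (nat_lit 119455744)) (I.mix (nat_lit 96026624) (nat_lit 5586944)) (I.neg (nat_lit 37699584) (nat_lit 126353408)) (I.pos (nat_lit 258998272) (nat_lit 335036416)) (I.mix (nat_lit 113262592) (nat_lit 74170368)) (I.mix (nat_lit 66207744) (nat_lit 107495424)) (I.mix (nat_lit 73056256) (nat_lit 97189888)))
  false (nat_lit 0)
def b0_7 : Bx := Bx.mk (St.mk (I.pos (nat_lit 91078656) (nat_lit 202768384)) (I.mix (nat_lit 47726592) (nat_lit 99106816)) (I.mix (nat_lit 95174656) (nat_lit 42532864)) (I.pos (nat_lit 302858240) (nat_lit 441319424)) (I.mix (nat_lit 119029760) (nat_lit 83427328)) (I.mix (nat_lit 151060480) (nat_lit 109871104)) (I.mix (nat_lit 140460032) (nat_lit 119078912)))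
  false (nat_lit 0)
def b0_8 : Bx := Bx.mk (St.mk (I.neg (nat_lit 10895360) (nat_lit 119455744)) (I.mix (nat_lit 5586944) (nat_lit 96026624)) (I.neg (nat_lit 37699584) (nat_lit 126353408)) (I.pos (nat_lit 258981888) (nat_lit 335036416)) (I.mix (nat_lit 74170368) (nat_lit 113262592)) (I.mix (nat_lit 107495424) (nat_lit 66224128)) (I.mix (nat_lit 73056256) (nat_lit 97255424)))
  true (nat_lit 0)
def b0_9 : Bx := Bx.mk (St.mk (I.pos (nat_lit 175669248) (nat_lit 255836160)) (I.mix (nat_lit 32047104) (nat_lit 101515264)) (I.mix (nat_lit 234045440) (nat_lit 31703040)) (I.pos (nat_lit 414793728) (nat_lit 532414464)) (I.mix (nat_lit 129810432) (nat_lit 100417536)) (I.mix (nat_lit 110673920) (nat_lit 128925696)) (I.mix (nat_lit 200261632) (nat_lit 278872064)))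
  false (nat_lit 18282033)
def b0_10 : Bx := Bx.mk (St.mk (I.mix (nat_lit 2113536) (nat_lit 40812544)) (I.mix (nat_lit 74842112) (nat_lit 19660800)) (I.neg (nat_lit 80904192) (nat_lit 105742336)) (I.pos (nat_lit 263733248) (nat_lit 289046528)) (I.mix (nat_lit 101482496) (nat_lit 59850752)) (I.mix (nat_lit 63848448) (nat_lit 96272384)) (I.mix (nat_lit 24838144) (nat_lit 33767424)))
  false (nat_lit 0)
def t0 : BTr := (BTr.n (BTr.n (BTr.n (BTr.b b0_0) (BTr.b b0_1)) (BTr.n (BTr.b b0_2) (BTr.n (BTr.b b0_3) (BTr.b b0_4)))) (BTr.n (BTr.n (BTr.b b0_5) (BTr.n (BTr.b b0_6) (BTr.b b0_7))) (BTr.n (BTr.b b0_8) (BTr.n (BTr.b b0_9) (BTr.b b0_10)))))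
namespace T0
def l0 : Tr := Tr.L (Pth.l (Pth.l (Pth.l Pth.z)))
def l1 : Tr := Tr.L (Pth.l (Pth.l (Pth.r Pth.z)))
def l2 : Tr := Tr.L (Pth.l (Pth.r (Pth.l Pth.z)))
def l3 : Tr := Tr.L (Pth.l (Pth.r (Pth.r (Pth.l Pth.z))))
def l4 : Tr := Tr.L (Pth.l (Pth.r (Pth.r (Pth.r Pth.z))))
def l5 : Tr := Tr.L (Pth.r (Pth.l (Pth.l Pth.z)))
def l6 : Tr := Tr.L (Pth.r (Pth.l (Pth.r (Pth.l Pth.z))))
def l7 : Tr := Tr.L (Pth.r (Pth.l (Pth.r (Pth.r Pth.z))))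
def l8 : Tr := Tr.L (Pth.r (Pth.r (Pth.l Pth.z)))
def l9 : Tr := Tr.L (Pth.r (Pth.r (Pth.r (Pth.l Pth.z))))
def l10 : Tr := Tr.L (Pth.r (Pth.r (Pth.r (Pth.r Pth.z))))
end T0
def b1_0 : Bx := Bx.mk (St.mk (I.pos (nat_lit 155992064) (nat_lit 241106944)) (I.mix (nat_lit 3244032) (nat_lit 52592640)) (I.mix (nat_lit 5865472) (nat_lit 98893824)) (I.pos (nat_lit 90587136) (nat_lit 231342080)) (I.mix (nat_lit 91914240) (nat_lit 49315840)) (I.mix (nat_lit 77611008) (nat_lit 61784064)) (I.mix (nat_lit 117604352) (nat_lit 83066880)))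
  false (nat_lit 0)
def b1_1 : Bx := Bx.mk (St.mk (I.pos (nat_lit 118996992) (nat_lit 174850048)) (I.mix (nat_lit 59244544) (nat_lit 2146304)) (I.mix (nat_lit 58163200) (nat_lit 2097152)) (I.pos (nat_lit 70811648) (nat_lit 129597440)) (I.mix (nat_lit 73564160) (nat_lit 49528832)) (I.mix (nat_lit 56016896) (nat_lit 70189056)) (I.mix (nat_lit 50659328) (nat_lit 74776576)))
  false (nat_lit 0)
def b1_2 : Bx := Bx.mk (St.mk (I.mix (nat_lit 20152320) (nat_lit 143163392)) (I.mix (nat_lit 6537216) (nat_lit 25591808)) (I.mix (nat_lit 7618560) (nat_lit 24346624)) (I.mix (nat_lit 5636096) (nat_lit 89866240)) (I.mix (nat_lit 31850496) (nat_lit 30146560)) (I.mix (nat_lit 37470208) (nat_lit 26492928)) (I.mix (nat_lit 33669120) (nat_lit 21725184)))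
  false (nat_lit 0)
def b1_3 : Bx := Bx.mk (St.mk (I.mix (nat_lit 14516224) (nat_lit 117604352)) (I.mix (nat_lit 27885568) (nat_lit 6651904)) (I.mix (nat_lit 19808256) (nat_lit 4210688)) (I.mix (nat_lit 4243456) (nat_lit 65273856)) (I.mix (nat_lit 26443776) (nat_lit 25231360)) (I.mix (nat_lit 22331392) (nat_lit 30556160)) (I.mix (nat_lit 14286848) (nat_lit 22511616)))
  false (nat_lit 0)
def b1_4 : Bx := Bx.mk (St.mk (I.pos (nat_lit 170704896) (nat_lit 217890816)) (I.mix (nat_lit 21364736) (nat_lit 55148544)) (I.mix (nat_lit 5636096) (nat_lit 94437376)) (I.pos (nat_lit 113164288) (nat_lit 196608000)) (I.mix (nat_lit 122847232) (nat_lit 31490048)) (I.mix (nat_lit 137805824) (nat_lit 59195392)) (I.mix (nat_lit 172490752) (nat_lit 66125824)))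
  false (nat_lit 0)
def b1_5 : Bx := Bx.mk (St.mk (I.pos (nat_lit 118669312) (nat_lit 161873920)) (I.mix (nat_lit 52543488) (nat_lit 10108928)) (I.mix (nat_lit 53952512) (nat_lit 9224192)) (I.pos (nat_lit 53706752) (nat_lit 115589120)) (I.mix (nat_lit 76906496) (nat_lit 30130176)) (I.mix (nat_lit 38043648) (nat_lit 80150528)) (I.mix (nat_lit 34390016) (nat_lit 74399744)))
  false (nat_lit 0)
def b1_6 : Bx := Bx.mk (St.mk (I.mix (nat_lit 17383424) (nat_lit 140132352)) (I.mix (nat_lit 15302656) (nat_lit 35323904)) (I.mix (nat_lit 10534912) (nat_lit 30425088)) (I.mix (nat_lit 5390336) (nat_lit 85360640)) (I.mix (nat_lit 46858240) (nat_lit 24035328)) (I.mix (nat_lit 52707328) (nat_lit 27623424)) (I.mix (nat_lit 39583744) (nat_lit 20119552)))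
  false (nat_lit 0)
def b1_7 : Bx := Bx.mk (St.mk (I.mix (nat_lit 15384576) (nat_lit 110919680)) (I.mix (nat_lit 24461312) (nat_lit 1933312)) (I.mix (nat_lit 17235968) (nat_lit 1982464)) (I.mix (nat_lit 3997696) (nat_lit 60768256)) (I.mix (nat_lit 29114368) (nat_lit 13598720)) (I.mix (nat_lit 16498688) (nat_lit 32473088)) (I.mix (nat_lit 10502144) (nat_lit 20480000)))
  false (nat_lit 0)
def b1_8 : Bx := Bx.mk (St.mk (I.pos (nat_lit 194543616) (nat_lit 250281984)) (I.mix (nat_lit 16547840) (nat_lit 53723136)) (I.mix (nat_lit 32210944) (nat_lit 99500032)) (I.pos (nat_lit 171753472) (nat_lit 253280256)) (I.mix (nat_lit 89931776) (nat_lit 70664192)) (I.mix (nat_lit 100909056) (nat_lit 84361216)) (I.mix (nat_lit 160514048) (nat_lit 118128640)))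
  false (nat_lit 0)
def b1_9 : Bx := Bx.mk (St.mk (I.pos (nat_lit 164478976) (nat_lit 206274560)) (I.mix (nat_lit 45662208) (nat_lit 30261248)) (I.mix (nat_lit 44646400) (nat_lit 56934400)) (I.pos (nat_lit 108560384) (nat_lit 176685056)) (I.mix (nat_lit 102744064) (nat_lit 53116928)) (I.mix (nat_lit 123092992) (nat_lit 68812800)) (I.mix (nat_lit 148946944) (nat_lit 75923456)))
  false (nat_lit 0)
def b1_10 : Bx := Bx.mk (St.mk (I.pos (nat_lit 143474688) (nat_lit 178831360)) (I.mix (nat_lit 37601280) (nat_lit 3309568)) (I.mix (nat_lit 33636352) (nat_lit 7372800)) (I.pos (nat_lit 87703552) (nat_lit 137773056)) (I.mix (nat_lit 51675136) (nat_lit 19185664)) (I.mix (nat_lit 26198016) (nat_lit 40796160)) (I.mix (nat_lit 31850496) (nat_lit 44843008)))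
  false (nat_lit 0)
def b1_11 : Bx := Bx.mk (St.mk (I.pos (nat_lit 109772800) (nat_lit 134922240)) (I.mix (nat_lit 9076736) (nat_lit 9289728)) (I.mix (nat_lit 10076160) (nat_lit 8732672)) (I.pos (nat_lit 48660480) (nat_lit 85950464)) (I.mix (nat_lit 23396352) (nat_lit 11091968)) (I.mix (nat_lit 15695872) (nat_lit 16318464)) (I.mix (nat_lit 14516224) (nat_lit 15351808)))
  false (nat_lit 0)
def b1_12 : Bx := Bx.mk (St.mk (I.mix (nat_lit 20152320) (nat_lit 118603776)) (I.mix (nat_lit 15269888) (nat_lit 7553024)) (I.mix (nat_lit 10059776) (nat_lit 6078464)) (I.mix (nat_lit 4341760) (nat_lit 66879488)) (I.mix (nat_lit 22429696) (nat_lit 9535488)) (I.mix (nat_lit 13778944) (nat_lit 15777792)) (I.mix (nat_lit 10190848) (nat_lit 11452416)))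
  false (nat_lit 0)
def b1_13 : Bx := Bx.mk (St.mk (I.mix (nat_lit 15138816) (nat_lit 44417024)) (I.mix (nat_lit 1179648) (nat_lit 3031040)) (I.mix (nat_lit 1146880) (nat_lit 1310720)) (I.mix (nat_lit 1982464) (nat_lit 25133056)) (I.mix (nat_lit 3833856) (nat_lit 1638400)) (I.mix (nat_lit 1654784) (nat_lit 1671168)) (I.mix (nat_lit 917504) (nat_lit 901120)))
  false (nat_lit 0)
def b1_14 : Bx := Bx.mk (St.mk (I.pos (nat_lit 218267648) (nat_lit 259031040)) (I.mix (nat_lit 16711680) (nat_lit 16842752)) (I.mix (nat_lit 34930688) (nat_lit 30703616)) (I.pos (nat_lit 205045760) (nat_lit 278118400)) (I.mix (nat_lit 75497472) (nat_lit 13271040)) (I.mix (nat_lit 42500096) (nat_lit 43810816)) (I.mix (nat_lit 76103680) (nat_lit 80822272)))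
  false (nat_lit 0)
def b1_15 : Bx := Bx.mk (St.mk (I.pos (nat_lit 160169984) (nat_lit 189071360)) (I.neg (nat_lit 4718592) (nat_lit 37978112)) (I.mix (nat_lit 36126720) (nat_lit 1376256)) (I.pos (nat_lit 103186432) (nat_lit 154763264)) (I.mix (nat_lit 37421056) (nat_lit 28557312)) (I.mix (nat_lit 34635776) (nat_lit 30474240)) (I.mix (nat_lit 40812544) (nat_lit 34783232)))
  false (nat_lit 0)
def t1 : BTr := (BTr.n (BTr.n (BTr.n (BTr.n (BTr.b b1_0) (BTr.b b1_1)) (BTr.n (BTr.b b1_2) (BTr.b b1_3))) (BTr.n (BTr.n (BTr.b b1_4) (BTr.b b1_5)) (BTr.n (BTr.b b1_6) (BTr.b b1_7)))) (BTr.n (BTr.n (BTr.n (BTr.b b1_8) (BTr.b b1_9)) (BTr.n (BTr.b b1_10) (BTr.b b1_11))) (BTr.n (BTr.n (BTr.b b1_12) (BTr.b b1_13)) (BTr.n (BTr.b b1_14) (BTr.b b1_15)))))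
namespace T1
def l0 : Tr := Tr.L (Pth.l (Pth.l (Pth.l (Pth.l Pth.z))))
def l1 : Tr := Tr.L (Pth.l (Pth.l (Pth.l (Pth.r Pth.z))))
def l2 : Tr := Tr.L (Pth.l (Pth.l (Pth.r (Pth.l Pth.z))))
def l3 : Tr := Tr.L (Pth.l (Pth.l (Pth.r (Pth.r Pth.z))))
def l4 : Tr := Tr.L (Pth.l (Pth.r (Pth.l (Pth.l Pth.z))))
def l5 : Tr := Tr.L (Pth.l (Pth.r (Pth.l (Pth.r Pth.z))))
def l6 : Tr := Tr.L (Pth.l (Pth.r (Pth.r (Pth.l Pth.z))))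
def l7 : Tr := Tr.L (Pth.l (Pth.r (Pth.r (Pth.r Pth.z))))
def l8 : Tr := Tr.L (Pth.r (Pth.l (Pth.l (Pth.l Pth.z))))
def l9 : Tr := Tr.L (Pth.r (Pth.l (Pth.l (Pth.r Pth.z))))
def l10 : Tr := Tr.L (Pth.r (Pth.l (Pth.r (Pth.l Pth.z))))
def l11 : Tr := Tr.L (Pth.r (Pth.l (Pth.r (Pth.r Pth.z))))
def l12 : Tr := Tr.L (Pth.r (Pth.r (Pth.l (Pth.l Pth.z))))
def l13 : Tr := Tr.L (Pth.r (Pth.r (Pth.l (Pth.r Pth.z))))
def l14 : Tr := Tr.L (Pth.r (Pth.r (Pth.r (Pth.l Pth.z))))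
def l15 : Tr := Tr.L (Pth.r (Pth.r (Pth.r (Pth.r Pth.z))))
end T1
def b2_0 : Bx := Bx.mk (St.mk (I.pos (nat_lit 122847232) (nat_lit 220495872)) (I.mix (nat_lit 5357568) (nat_lit 90112000)) (I.mix (nat_lit 9584640) (nat_lit 164741120)) (I.pos (nat_lit 340590592) (nat_lit 450576384)) (I.mix (nat_lit 137265152) (nat_lit 72990720)) (I.mix (nat_lit 105480192) (nat_lit 81379328)) (I.mix (nat_lit 118734848) (nat_lit 99188736)))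
  false (nat_lit 88552896)
def b2_1 : Bx := Bx.mk (St.mk (I.pos (nat_lit 43778048) (nat_lit 118554624)) (I.mix (nat_lit 102989824) (nat_lit 1179648)) (I.mix (nat_lit 31899648) (nat_lit 64913408)) (I.pos (nat_lit 272678912) (nat_lit 323633152)) (I.mix (nat_lit 80805888) (nat_lit 85049344)) (I.mix (nat_lit 84508672) (nat_lit 81739776)) (I.mix (nat_lit 68026368) (nat_lit 71352320)))
  false (nat_lit 29775772)
def b2_2 : Bx := Bx.mk (St.mk (I.pos (nat_lit 103350272) (nat_lit 180273152)) (I.mix (nat_lit 49577984) (nat_lit 97812480)) (I.pos (nat_lit 14991360) (nat_lit 166313984)) (I.pos (nat_lit 304087040) (nat_lit 395476992)) (I.mix (nat_lit 179142656) (nat_lit 76611584)) (I.mix (nat_lit 174587904) (nat_lit 118161408)) (I.mix (nat_lit 188088320) (nat_lit 141606912)))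
  false (nat_lit 101360762)
def b2_3 : Bx := Bx.mk (St.mk (I.neg (nat_lit 43778048) (nat_lit 118702080)) (I.mix (nat_lit 1179648) (nat_lit 102989824)) (I.mix (nat_lit 31899648) (nat_lit 64913408)) (I.pos (nat_lit 272678912) (nat_lit 323747840)) (I.mix (nat_lit 85049344) (nat_lit 80805888)) (I.mix (nat_lit 81739776) (nat_lit 84525056)) (I.mix (nat_lit 68026368) (nat_lit 71352320)))
  true (nat_lit 0)
def b2_4 : Bx := Bx.mk (St.mk (I.pos (nat_lit 90505216) (nat_lit 116850688)) (I.mix (nat_lit 42106880) (nat_lit 786432)) (I.pos (nat_lit 20692992) (nat_lit 64454656)) (I.pos (nat_lit 295059456) (nat_lit 323158016)) (I.mix (nat_lit 59162624) (nat_lit 51838976)) (I.mix (nat_lit 50561024) (nat_lit 58195968)) (I.mix (nat_lit 49954816) (nat_lit 49840128)))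
  false (nat_lit 0)
def b2_5 : Bx := Bx.mk (St.mk (I.mix (nat_lit 73613312) (nat_lit 10190848)) (I.mix (nat_lit 15695872) (nat_lit 96124928)) (I.mix (nat_lit 15450112) (nat_lit 6488064)) (I.pos (nat_lit 266551296) (nat_lit 295043072)) (I.mix (nat_lit 54280192) (nat_lit 72220672)) (I.mix (nat_lit 88604672) (nat_lit 70483968)) (I.mix (nat_lit 27082752) (nat_lit 22478848)))
  true (nat_lit 0)
def b2_6 : Bx := Bx.mk (St.mk (I.pos (nat_lit 32702464) (nat_lit 71188480)) (I.neg (nat_lit 32129024) (nat_lit 93405184)) (I.mix (nat_lit 15286272) (nat_lit 3768320)) (I.pos (nat_lit 272809984) (nat_lit 294699008)) (I.mix (nat_lit 69091328) (nat_lit 54083584)) (I.mix (nat_lit 70483968) (nat_lit 71778304)) (I.mix (nat_lit 27082752) (nat_lit 22478848)))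
  false (nat_lit 0)
def b2_7 : Bx := Bx.mk (St.mk (I.mix (nat_lit 9060352) (nat_lit 53690368)) (I.mix (nat_lit 52641792) (nat_lit 13221888)) (I.mix (nat_lit 7716864) (nat_lit 6045696)) (I.pos (nat_lit 267288576) (nat_lit 281853952)) (I.mix (nat_lit 35340288) (nat_lit 46628864)) (I.mix (nat_lit 39649280) (nat_lit 40878080)) (I.mix (nat_lit 8486912) (nat_lit 10977280)))
  false (nat_lit 0)
def b2_8 : Bx := Bx.mk (St.mk (I.pos (nat_lit 176766976) (nat_lit 284884992)) (I.mix (nat_lit 26148864) (nat_lit 67158016)) (I.mix (nat_lit 53280768) (nat_lit 125730816)) (I.pos (nat_lit 395771904) (nat_lit 568033280)) (I.mix (nat_lit 90472448) (nat_lit 62128128)) (I.mix (nat_lit 75005952) (nat_lit 52838400)) (I.mix (nat_lit 121241600) (nat_lit 79134720)))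
  false (nat_lit 80620038)
def b2_9 : Bx := Bx.mk (St.mk (I.pos (nat_lit 143736832) (nat_lit 207421440)) (I.pos (nat_lit 19267584) (nat_lit 87408640)) (I.pos (nat_lit 54591488) (nat_lit 155516928)) (I.pos (nat_lit 363773952) (nat_lit 419758080)) (I.mix (nat_lit 114753536) (nat_lit 82132992)) (I.mix (nat_lit 117194752) (nat_lit 72417280)) (I.mix (nat_lit 162267136) (nat_lit 82247680)))
  false (nat_lit 45107411)
def b2_10 : Bx := Bx.mk (St.mk (I.pos (nat_lit 36814848) (nat_lit 60620800)) (I.neg (nat_lit 25067520) (nat_lit 80740352)) (I.mix (nat_lit 14336000) (nat_lit 4980736)) (I.pos (nat_lit 273547264) (nat_lit 287981568)) (I.mix (nat_lit 72220672) (nat_lit 54280192)) (I.mix (nat_lit 46497792) (nat_lit 88604672)) (I.mix (nat_lit 18464768) (nat_lit 20545536)))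
  false (nat_lit 0)
def t2 : BTr := (BTr.n (BTr.n (BTr.n (BTr.b b2_0) (BTr.b b2_1)) (BTr.n (BTr.b b2_2) (BTr.n (BTr.b b2_3) (BTr.b b2_4)))) (BTr.n (BTr.n (BTr.b b2_5) (BTr.n (BTr.b b2_6) (BTr.b b2_7))) (BTr.n (BTr.b b2_8) (BTr.n (BTr.b b2_9) (BTr.b b2_10)))))
namespace T2
def l0 : Tr := Tr.L (Pth.l (Pth.l (Pth.l Pth.z)))
def l1 : Tr := Tr.L (Pth.l (Pth.l (Pth.r Pth.z)))
def l2 : Tr := Tr.L (Pth.l (Pth.r (Pth.l Pth.z)))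
def l3 : Tr := Tr.L (Pth.l (Pth.r (Pth.r (Pth.l Pth.z))))
def l4 : Tr := Tr.L (Pth.l (Pth.r (Pth.r (Pth.r Pth.z))))
def l5 : Tr := Tr.L (Pth.r (Pth.l (Pth.l Pth.z)))
def l6 : Tr := Tr.L (Pth.r (Pth.l (Pth.r (Pth.l Pth.z))))
def l7 : Tr := Tr.L (Pth.r (Pth.l (Pth.r (Pth.r Pth.z))))
def l8 : Tr := Tr.L (Pth.r (Pth.r (Pth.l Pth.z)))
def l9 : Tr := Tr.L (Pth.r (Pth.r (Pth.r (Pth.l Pth.z))))
def l10 : Tr := Tr.L (Pth.r (Pth.r (Pth.r (Pth.r Pth.z))))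
end T2
theorem bx0_0 : BoxOK sI cl4 cl4 cl13 t0 t2 b0_0 :=
  box_mk (TrL.c (I.pos (nat_lit 0) (nat_lit 0)) (xb (xa T0.l9 T0.l0) (xa T0.l0 T0.l0))
  (TrL.c (I.pos (nat_lit 0) (nat_lit 0)) T2.l1
  (TrL.c (I.pos (nat_lit 0) (nat_lit 0)) T0.l1
  (TrL.c (I.pos (nat_lit 0) (nat_lit 0)) T2.l2
  (TrL.c (I.pos (nat_lit 0) (nat_lit 0)) T0.l2
  (TrL.c (I.pos (nat_lit 0) (nat_lit 0)) T2.l3
  TrL.n)))))) (by decide +kernel)
theorem bx0_1 : BoxOK sI cl4 cl4 cl13 t0 t2 b0_1 :=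
  box_mk (TrL.c (I.pos (nat_lit 0) (nat_lit 0)) T2.l1
  (TrL.c (I.pos (nat_lit 0) (nat_lit 0)) T0.l1
  TrL.n)) (by decide +kernel)
theorem bx0_2 : BoxOK sI cl4 cl4 cl13 t0 t2 b0_2 :=
  box_mk (TrL.c (I.pos (nat_lit 0) (nat_lit 0)) (xs T0.l9 T0.l9)
  (TrL.c (I.pos (nat_lit 0) (nat_lit 0)) T2.l1
  (TrL.c (I.pos (nat_lit 0) (nat_lit 0)) T0.l1
  (TrL.c (I.pos (nat_lit 0) (nat_lit 0)) T2.l2
  (TrL.c (I.pos (nat_lit 0) (nat_lit 0)) T0.l10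
  (TrL.c (I.pos (nat_lit 0) (nat_lit 0)) T2.l3
  TrL.n)))))) (by decide +kernel)
theorem bx0_3 : BoxOK sI cl4 cl4 cl13 t0 t2 b0_3 :=
  box_mk (TrL.c (I.pos (nat_lit 0) (nat_lit 0)) T2.l4
  (TrL.c (I.pos (nat_lit 0) (nat_lit 0)) T0.l3
  TrL.n)) (by decide +kernel)
theorem bx0_4 : BoxOK sI cl4 cl4 cl13 t0 t2 b0_4 :=
  box_mk (TrL.c (I.pos (nat_lit 0) (nat_lit 0)) T0.l0
  (TrL.c (I.pos (nat_lit 0) (nat_lit 0)) T2.l1
  (TrL.c (I.pos (nat_lit 0) (nat_lit 0)) T0.l1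
  (TrL.c (I.pos (nat_lit 0) (nat_lit 0)) T2.l2
  (TrL.c (I.pos (nat_lit 0) (nat_lit 0)) T0.l2
  (TrL.c (I.pos (nat_lit 0) (nat_lit 0)) T2.l3
  TrL.n)))))) (by decide +kernel)
theorem bx0_5 : BoxOK sI cl4 cl4 cl13 t0 t2 b0_5 :=
  box_mk (TrL.c (I.pos (nat_lit 0) (nat_lit 0)) T0.l4
  (TrL.c (I.pos (nat_lit 0) (nat_lit 0)) T2.l1
  (TrL.c (I.pos (nat_lit 0) (nat_lit 0)) T0.l1
  (TrL.c (I.pos (nat_lit 0) (nat_lit 0)) T2.l2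
  (TrL.c (I.pos (nat_lit 0) (nat_lit 0)) T0.l5
  (TrL.c (I.pos (nat_lit 0) (nat_lit 0)) T2.l3
  TrL.n)))))) (by decide +kernel)
theorem bx0_6 : BoxOK sI cl4 cl4 cl13 t0 t2 b0_6 :=
  box_mk (TrL.c (I.pos (nat_lit 0) (nat_lit 0)) (xa (xb (xa (xs T0.l9 T0.l9) T0.l9) (xa T0.l9 T0.l9)) (xb T0.l9 T0.l9))
  (TrL.c (I.pos (nat_lit 0) (nat_lit 0)) T2.l1
  (TrL.c (I.pos (nat_lit 0) (nat_lit 0)) T0.l1
  (TrL.c (I.pos (nat_lit 0) (nat_lit 0)) (xa T2.l2 T2.l2)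
  (TrL.c (I.pos (nat_lit 0) (nat_lit 0)) T0.l10
  (TrL.c (I.pos (nat_lit 0) (nat_lit 0)) T2.l3
  TrL.n)))))) (by decide +kernel)
theorem bx0_7 : BoxOK sI cl4 cl4 cl13 t0 t2 b0_7 :=
  box_mk (TrL.c (I.pos (nat_lit 0) (nat_lit 0)) (xa (xb (xa (xb T0.l9 T0.l9) T0.l9) (xb (xa T0.l9 T0.l9) (xa T0.l9 T0.l9))) (xb (xa T0.l9 T0.l9) (xa T0.l9 T0.l9)))
  (TrL.c (I.pos (nat_lit 0) (nat_lit 0)) (xb T2.l1 T2.l1)
  (TrL.c (I.pos (nat_lit 0) (nat_lit 0)) T0.l1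
  (TrL.c (I.pos (nat_lit 0) (nat_lit 0)) (xb T2.l2 T2.l2)
  (TrL.c (I.pos (nat_lit 0) (nat_lit 0)) T0.l10
  (TrL.c (I.pos (nat_lit 0) (nat_lit 0)) (xb T2.l3 T2.l3)
  TrL.n)))))) (by decide +kernel)
theorem bx0_8 : BoxOK sI cl4 cl4 cl13 t0 t2 b0_8 :=
  box_mk (TrL.c (I.pos (nat_lit 0) (nat_lit 0)) T2.l1
  (TrL.c (I.pos (nat_lit 0) (nat_lit 0)) T0.l1
  TrL.n)) (by decide +kernel)
theorem bx0_9 : BoxOK sI cl4 cl4 cl13 t0 t2 b0_9 :=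
  box_mk (TrL.c (I.pos (nat_lit 0) (nat_lit 0)) (xb (xa (xb T0.l0 T0.l0) T0.l0) (xa (xb T0.l0 (xa T0.l9 T0.l0)) (xb T0.l0 T0.l0)))
  (TrL.c (I.pos (nat_lit 0) (nat_lit 0)) (xb T2.l1 T2.l1)
  (TrL.c (I.pos (nat_lit 0) (nat_lit 0)) T0.l1
  (TrL.c (I.pos (nat_lit 0) (nat_lit 0)) (xb (xa T2.l2 (xs T2.l2 (xb T2.l2 T2.l2))) (xa T2.l2 (xs T2.l2 (xb T2.l2 T2.l2))))
  (TrL.c (I.pos (nat_lit 0) (nat_lit 0)) T0.l2
  (TrL.c (I.pos (nat_lit 0) (nat_lit 0)) (xb T2.l3 T2.l3)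
  TrL.n)))))) (by decide +kernel)
theorem bx0_10 : BoxOK sI cl4 cl4 cl13 t0 t2 b0_10 :=
  box_mk (TrL.c (I.pos (nat_lit 0) (nat_lit 0)) (xb (xs (xa (xb T0.l4 T0.l4) T0.l4) T0.l9) (xb (xa T0.l4 T0.l4) (xa (xs T0.l4 T0.l4) T0.l9)))
  (TrL.c (I.pos (nat_lit 0) (nat_lit 0)) T2.l1
  (TrL.c (I.pos (nat_lit 0) (nat_lit 0)) T0.l1
  (TrL.c (I.pos (nat_lit 0) (nat_lit 0)) T2.l2
  (TrL.c (I.pos (nat_lit 0) (nat_lit 0)) T0.l5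
  (TrL.c (I.pos (nat_lit 0) (nat_lit 0)) T2.l3
  TrL.n)))))) (by decide +kernel)
theorem sv0 : StarV sI cl4 cl4 cl13 t0 t2 t0 :=
  (bt_n (bt_n (bt_n (bt_b bx0_0) (bt_b bx0_1)) (bt_n (bt_b bx0_2) (bt_n (bt_b bx0_3) (bt_b bx0_4)))) (bt_n (bt_n (bt_b bx0_5) (bt_n (bt_b bx0_6) (bt_b bx0_7))) (bt_n (bt_b bx0_8) (bt_n (bt_b bx0_9) (bt_b bx0_10)))))
def S0 : StarD := StarD.mk cl4 cl4 cl13 0 2 t0
theorem bx1_0 : BoxOK sI cl4 cl13 cl4 t2 t0 b1_0 :=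
  box_mk (TrL.c (I.pos (nat_lit 0) (nat_lit 0)) (xa (xa (xb T2.l0 T2.l0) (xb T2.l0 T2.l0)) (xa T2.l0 T2.l0))
  (TrL.c (I.pos (nat_lit 0) (nat_lit 0)) (xa T0.l6 T0.l6)
  (TrL.c (I.pos (nat_lit 0) (nat_lit 0)) T2.l5
  (TrL.c (I.pos (nat_lit 0) (nat_lit 0)) (xa T0.l7 T0.l7)
  (TrL.c (I.pos (nat_lit 0) (nat_lit 0)) T2.l6
  (TrL.c (I.pos (nat_lit 0) (nat_lit 0)) (xa T0.l8 T0.l8)
  TrL.n)))))) (by decide +kernel)
theorem bx1_1 : BoxOK sI cl4 cl13 cl4 t2 t0 b1_1 :=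
  box_mk (TrL.c (I.pos (nat_lit 0) (nat_lit 0)) (xa T2.l0 T2.l0)
  (TrL.c (I.pos (nat_lit 0) (nat_lit 0)) T0.l6
  (TrL.c (I.pos (nat_lit 0) (nat_lit 0)) T2.l5
  (TrL.c (I.pos (nat_lit 0) (nat_lit 0)) T0.l7
  (TrL.c (I.pos (nat_lit 0) (nat_lit 0)) T2.l7
  (TrL.c (I.pos (nat_lit 0) (nat_lit 0)) T0.l8
  TrL.n)))))) (by decide +kernel)
theorem bx1_2 : BoxOK sI cl4 cl13 cl4 t2 t0 b1_2 :=
  box_mk (TrL.c (I.pos (nat_lit 0) (nat_lit 0)) (xa (xa T2.l8 T2.l8) (xa T2.l8 T2.l8))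
  (TrL.c (I.pos (nat_lit 0) (nat_lit 0)) (xa T0.l6 T0.l6)
  (TrL.c (I.pos (nat_lit 0) (nat_lit 0)) T2.l5
  (TrL.c (I.pos (nat_lit 0) (nat_lit 0)) (xa T0.l7 T0.l7)
  (TrL.c (I.pos (nat_lit 0) (nat_lit 0)) T2.l7
  (TrL.c (I.pos (nat_lit 0) (nat_lit 0)) (xa T0.l8 T0.l8)
  TrL.n)))))) (by decide +kernel)
theorem bx1_3 : BoxOK sI cl4 cl13 cl4 t2 t0 b1_3 :=
  box_mk (TrL.c (I.pos (nat_lit 0) (nat_lit 0)) (xa (xa (xa (xb T2.l8 T2.l8) T2.l8) T2.l8) T2.l8)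
  (TrL.c (I.pos (nat_lit 0) (nat_lit 0)) T0.l6
  (TrL.c (I.pos (nat_lit 0) (nat_lit 0)) T2.l5
  (TrL.c (I.pos (nat_lit 0) (nat_lit 0)) (xa T0.l7 T0.l7)
  (TrL.c (I.pos (nat_lit 0) (nat_lit 0)) T2.l7
  (TrL.c (I.pos (nat_lit 0) (nat_lit 0)) T0.l8
  TrL.n)))))) (by decide +kernel)
theorem bx1_4 : BoxOK sI cl4 cl13 cl4 t2 t0 b1_4 :=
  box_mk (TrL.c (I.pos (nat_lit 0) (nat_lit 0)) (xb (xa (xb T2.l9 T2.l9) (xs T2.l9 (xb T2.l9 T2.l9))) (xa (xs T2.l9 (xb T2.l9 T2.l9)) (xs T2.l9 (xb T2.l9 T2.l9))))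
  (TrL.c (I.pos (nat_lit 0) (nat_lit 0)) (xb T0.l6 T0.l6)
  (TrL.c (I.pos (nat_lit 0) (nat_lit 0)) T2.l5
  (TrL.c (I.pos (nat_lit 0) (nat_lit 0)) (xb (xa T0.l7 (xb T0.l7 T0.l7)) (xa T0.l7 (xb T0.l7 T0.l7)))
  (TrL.c (I.pos (nat_lit 0) (nat_lit 0)) T2.l10
  (TrL.c (I.pos (nat_lit 0) (nat_lit 0)) (xb T0.l8 T0.l8)
  TrL.n)))))) (by decide +kernel)
theorem bx1_5 : BoxOK sI cl4 cl13 cl4 t2 t0 b1_5 :=
  box_mk (TrL.c (I.pos (nat_lit 0) (nat_lit 0)) (xb (xa T2.l8 T2.l0) (xa T2.l0 T2.l8))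
  (TrL.c (I.pos (nat_lit 0) (nat_lit 0)) T0.l6
  (TrL.c (I.pos (nat_lit 0) (nat_lit 0)) T2.l5
  (TrL.c (I.pos (nat_lit 0) (nat_lit 0)) T0.l7
  (TrL.c (I.pos (nat_lit 0) (nat_lit 0)) T2.l7
  (TrL.c (I.pos (nat_lit 0) (nat_lit 0)) T0.l8
  TrL.n)))))) (by decide +kernel)
theorem bx1_6 : BoxOK sI cl4 cl13 cl4 t2 t0 b1_6 :=
  box_mk (TrL.c (I.pos (nat_lit 0) (nat_lit 0)) (xa (xa (xb (xa T2.l8 T2.l8) (xa T2.l8 T2.l8)) T2.l8) (xa T2.l8 (xb T2.l8 (xa T2.l8 T2.l8))))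
  (TrL.c (I.pos (nat_lit 0) (nat_lit 0)) (xa T0.l6 T0.l6)
  (TrL.c (I.pos (nat_lit 0) (nat_lit 0)) T2.l5
  (TrL.c (I.pos (nat_lit 0) (nat_lit 0)) (xa T0.l7 T0.l7)
  (TrL.c (I.pos (nat_lit 0) (nat_lit 0)) T2.l7
  (TrL.c (I.pos (nat_lit 0) (nat_lit 0)) (xa T0.l8 T0.l8)
  TrL.n)))))) (by decide +kernel)
theorem bx1_7 : BoxOK sI cl4 cl13 cl4 t2 t0 b1_7 :=
  box_mk (TrL.c (I.pos (nat_lit 0) (nat_lit 0)) (xa T2.l8 T2.l8)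
  (TrL.c (I.pos (nat_lit 0) (nat_lit 0)) T0.l6
  (TrL.c (I.pos (nat_lit 0) (nat_lit 0)) T2.l5
  (TrL.c (I.pos (nat_lit 0) (nat_lit 0)) (xa T0.l7 T0.l7)
  (TrL.c (I.pos (nat_lit 0) (nat_lit 0)) T2.l7
  (TrL.c (I.pos (nat_lit 0) (nat_lit 0)) T0.l8
  TrL.n)))))) (by decide +kernel)
theorem bx1_8 : BoxOK sI cl4 cl13 cl4 t2 t0 b1_8 :=
  box_mk (TrL.c (I.pos (nat_lit 0) (nat_lit 0)) (xa (xb (xs T2.l0 (xa T2.l0 T2.l0)) (xs T2.l0 (xa T2.l0 T2.l0))) (xb (xs T2.l0 T2.l2) (xs T2.l0 (xa T2.l0 T2.l2))))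
  (TrL.c (I.pos (nat_lit 0) (nat_lit 0)) (xa (xs T0.l6 (xb T0.l6 T0.l6)) (xs T0.l6 (xb T0.l6 T0.l6)))
  (TrL.c (I.pos (nat_lit 0) (nat_lit 0)) T2.l5
  (TrL.c (I.pos (nat_lit 0) (nat_lit 0)) (xa T0.l7 (xb (xa T0.l7 (xb T0.l7 T0.l7)) (xa T0.l7 (xs T0.l7 T0.l7))))
  (TrL.c (I.pos (nat_lit 0) (nat_lit 0)) T2.l6
  (TrL.c (I.pos (nat_lit 0) (nat_lit 0)) (xa (xs T0.l8 (xb T0.l8 T0.l8)) (xs T0.l8 (xb T0.l8 T0.l8)))
  TrL.n)))))) (by decide +kernel)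
theorem bx1_9 : BoxOK sI cl4 cl13 cl4 t2 t0 b1_9 :=
  box_mk (TrL.c (I.pos (nat_lit 0) (nat_lit 0)) (xb (xa T2.l9 T2.l9) (xa (xs T2.l9 T2.l9) T2.l9))
  (TrL.c (I.pos (nat_lit 0) (nat_lit 0)) T0.l6
  (TrL.c (I.pos (nat_lit 0) (nat_lit 0)) T2.l5
  (TrL.c (I.pos (nat_lit 0) (nat_lit 0)) (xb T0.l7 T0.l7)
  (TrL.c (I.pos (nat_lit 0) (nat_lit 0)) T2.l10
  (TrL.c (I.pos (nat_lit 0) (nat_lit 0)) T0.l8
  TrL.n)))))) (by decide +kernel)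
theorem bx1_10 : BoxOK sI cl4 cl13 cl4 t2 t0 b1_10 :=
  box_mk (TrL.c (I.pos (nat_lit 0) (nat_lit 0)) T2.l0
  (TrL.c (I.pos (nat_lit 0) (nat_lit 0)) T0.l6
  (TrL.c (I.pos (nat_lit 0) (nat_lit 0)) T2.l5
  (TrL.c (I.pos (nat_lit 0) (nat_lit 0)) T0.l7
  (TrL.c (I.pos (nat_lit 0) (nat_lit 0)) T2.l7
  (TrL.c (I.pos (nat_lit 0) (nat_lit 0)) T0.l8
  TrL.n)))))) (by decide +kernel)
theorem bx1_11 : BoxOK sI cl4 cl13 cl4 t2 t0 b1_11 :=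
  box_mk (TrL.c (I.pos (nat_lit 0) (nat_lit 0)) T2.l8
  (TrL.c (I.pos (nat_lit 0) (nat_lit 0)) T0.l6
  (TrL.c (I.pos (nat_lit 0) (nat_lit 0)) T2.l5
  (TrL.c (I.pos (nat_lit 0) (nat_lit 0)) T0.l7
  (TrL.c (I.pos (nat_lit 0) (nat_lit 0)) T2.l7
  (TrL.c (I.pos (nat_lit 0) (nat_lit 0)) T0.l8
  TrL.n)))))) (by decide +kernel)
theorem bx1_12 : BoxOK sI cl4 cl13 cl4 t2 t0 b1_12 :=
  box_mk (TrL.c (I.pos (nat_lit 0) (nat_lit 0)) (xa T2.l8 T2.l8)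
  (TrL.c (I.pos (nat_lit 0) (nat_lit 0)) T0.l6
  (TrL.c (I.pos (nat_lit 0) (nat_lit 0)) T2.l5
  (TrL.c (I.pos (nat_lit 0) (nat_lit 0)) T0.l7
  (TrL.c (I.pos (nat_lit 0) (nat_lit 0)) T2.l7
  (TrL.c (I.pos (nat_lit 0) (nat_lit 0)) T0.l8
  TrL.n)))))) (by decide +kernel)
theorem bx1_13 : BoxOK sI cl4 cl13 cl4 t2 t0 b1_13 :=
  box_mk (TrL.c (I.pos (nat_lit 0) (nat_lit 0)) T2.l8
  (TrL.c (I.pos (nat_lit 0) (nat_lit 0)) T0.l6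
  (TrL.c (I.pos (nat_lit 0) (nat_lit 0)) T2.l5
  (TrL.c (I.pos (nat_lit 0) (nat_lit 0)) T0.l7
  (TrL.c (I.pos (nat_lit 0) (nat_lit 0)) T2.l7
  (TrL.c (I.pos (nat_lit 0) (nat_lit 0)) T0.l8
  TrL.n)))))) (by decide +kernel)
theorem bx1_14 : BoxOK sI cl4 cl13 cl4 t2 t0 b1_14 :=
  box_mk (TrL.c (I.pos (nat_lit 0) (nat_lit 0)) T2.l0
  (TrL.c (I.pos (nat_lit 0) (nat_lit 0)) T0.l6
  (TrL.c (I.pos (nat_lit 0) (nat_lit 0)) T2.l3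
  (TrL.c (I.pos (nat_lit 0) (nat_lit 0)) T0.l0
  (TrL.c (I.pos (nat_lit 0) (nat_lit 0)) T2.l1
  (TrL.c (I.pos (nat_lit 0) (nat_lit 0)) T0.l8
  TrL.n)))))) (by decide +kernel)
theorem bx1_15 : BoxOK sI cl4 cl13 cl4 t2 t0 b1_15 :=
  box_mk (TrL.c (I.pos (nat_lit 0) (nat_lit 0)) T2.l9
  (TrL.c (I.pos (nat_lit 0) (nat_lit 0)) T0.l6
  (TrL.c (I.pos (nat_lit 0) (nat_lit 0)) T2.l5
  (TrL.c (I.pos (nat_lit 0) (nat_lit 0)) T0.l7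
  (TrL.c (I.pos (nat_lit 0) (nat_lit 0)) T2.l10
  (TrL.c (I.pos (nat_lit 0) (nat_lit 0)) T0.l8
  TrL.n)))))) (by decide +kernel)
theorem sv1 : StarV sI cl4 cl13 cl4 t2 t0 t1 :=
  (bt_n (bt_n (bt_n (bt_n (bt_b bx1_0) (bt_b bx1_1)) (bt_n (bt_b bx1_2) (bt_b bx1_3))) (bt_n (bt_n (bt_b bx1_4) (bt_b bx1_5)) (bt_n (bt_b bx1_6) (bt_b bx1_7)))) (bt_n (bt_n (bt_n (bt_b bx1_8) (bt_b bx1_9)) (bt_n (bt_b bx1_10) (bt_b bx1_11))) (bt_n (bt_n (bt_b bx1_12) (bt_b bx1_13)) (bt_n (bt_b bx1_14) (bt_b bx1_15)))))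
def S1 : StarD := StarD.mk cl4 cl13 cl4 2 0 t1
theorem bx2_0 : BoxOK sI cl13 cl4 cl4 t1 t1 b2_0 :=
  box_mk (TrL.c (I.pos (nat_lit 0) (nat_lit 0)) (xa (xb T1.l0 (xs T1.l0 T1.l8)) (xa (xb T1.l0 T1.l0) (xb T1.l0 T1.l0)))
  (TrL.c (I.pos (nat_lit 0) (nat_lit 0)) T1.l1
  (TrL.c (I.pos (nat_lit 0) (nat_lit 134217730)) (xR T1.l2 T1.l2)
  (TrL.c (I.pos (nat_lit 0) (nat_lit 110514882)) (xR T1.l3 T1.l3)
  (TrL.c (I.pos (nat_lit 0) (nat_lit 0)) (xa T1.l9 (xk T1.l4 T1.l4))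
  (TrL.c (I.pos (nat_lit 0) (nat_lit 0)) T1.l5
  (TrL.c (I.mix (nat_lit 8088324) (nat_lit 110514882)) (xR T1.l6 T1.l6)
  (TrL.c (I.mix (nat_lit 8088324) (nat_lit 89478486)) T1.l7
  TrL.n)))))))) (by decide +kernel)
theorem bx2_1 : BoxOK sI cl13 cl4 cl4 t1 t1 b2_1 :=
  box_mk (TrL.c (I.pos (nat_lit 0) (nat_lit 0)) (xa (xb T1.l8 T1.l8) T1.l8)
  (TrL.c (I.pos (nat_lit 0) (nat_lit 0)) T1.l1
  (TrL.c (I.pos (nat_lit 0) (nat_lit 134217730)) T1.l2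
  (TrL.c (I.pos (nat_lit 0) (nat_lit 110514882)) T1.l3
  (TrL.c (I.pos (nat_lit 0) (nat_lit 0)) T1.l9
  (TrL.c (I.pos (nat_lit 0) (nat_lit 0)) T1.l5
  (TrL.c (I.mix (nat_lit 8088324) (nat_lit 110514882)) T1.l6
  (TrL.c (I.mix (nat_lit 8088324) (nat_lit 89478486)) T1.l3
  TrL.n)))))))) (by decide +kernel)
theorem bx2_2 : BoxOK sI cl13 cl4 cl4 t1 t1 b2_2 :=
  box_mk (TrL.c (I.pos (nat_lit 0) (nat_lit 0)) (xb (xa (xb T1.l8 T1.l8) T1.l8) (xa (xs T1.l8 (xb T1.l8 T1.l8)) (xs T1.l8 (xb T1.l8 T1.l8))))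
  (TrL.c (I.pos (nat_lit 0) (nat_lit 0)) (xb T1.l1 T1.l1)
  (TrL.c (I.pos (nat_lit 0) (nat_lit 134217730)) (xR T1.l2 (xR T1.l2 T1.l2))
  (TrL.c (I.pos (nat_lit 0) (nat_lit 110514882)) (xR T1.l3 T1.l3)
  (TrL.c (I.pos (nat_lit 0) (nat_lit 0)) (xb (xa T1.l9 (xk T1.l9 T1.l9)) (xa T1.l9 (xk T1.l4 T1.l4)))
  (TrL.c (I.pos (nat_lit 0) (nat_lit 0)) T1.l5
  (TrL.c (I.mix (nat_lit 8088324) (nat_lit 110514882)) (xR T1.l6 T1.l6)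
  (TrL.c (I.mix (nat_lit 8088324) (nat_lit 89478486)) (xR T1.l7 T1.l7)
  TrL.n)))))))) (by decide +kernel)
theorem bx2_3 : BoxOK sI cl13 cl4 cl4 t1 t1 b2_3 :=
  box_mk (TrL.c (I.pos (nat_lit 0) (nat_lit 0)) T1.l1
  (TrL.c (I.pos (nat_lit 0) (nat_lit 0)) T1.l2
  (TrL.c (I.mix (nat_lit 8088324) (nat_lit 110514882)) (xR T1.l12 T1.l3)
  (TrL.c (I.mix (nat_lit 8088324) (nat_lit 89478486)) T1.l2
  TrL.n)))) (by decide +kernel)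
theorem bx2_4 : BoxOK sI cl13 cl4 cl4 t1 t1 b2_4 :=
  box_mk (TrL.c (I.pos (nat_lit 0) (nat_lit 0)) T1.l8
  (TrL.c (I.pos (nat_lit 0) (nat_lit 0)) T1.l1
  (TrL.c (I.pos (nat_lit 0) (nat_lit 134217730)) T1.l2
  (TrL.c (I.pos (nat_lit 0) (nat_lit 110514882)) T1.l3
  (TrL.c (I.pos (nat_lit 0) (nat_lit 0)) T1.l9
  (TrL.c (I.pos (nat_lit 0) (nat_lit 0)) T1.l5
  (TrL.c (I.mix (nat_lit 8088324) (nat_lit 110514882)) T1.l6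
  (TrL.c (I.mix (nat_lit 8088324) (nat_lit 89478486)) T1.l7
  TrL.n)))))))) (by decide +kernel)
theorem bx2_5 : BoxOK sI cl13 cl4 cl4 t1 t1 b2_5 :=
  box_mk (TrL.c (I.pos (nat_lit 0) (nat_lit 0)) T1.l10
  (TrL.c (I.pos (nat_lit 0) (nat_lit 0)) T1.l6
  (TrL.c (I.mix (nat_lit 8088324) (nat_lit 110514882)) (xR T1.l12 T1.l6)
  (TrL.c (I.mix (nat_lit 8088324) (nat_lit 89478486)) T1.l2
  TrL.n)))) (by decide +kernel)
theorem bx2_6 : BoxOK sI cl13 cl4 cl4 t1 t1 b2_6 :=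
  box_mk (TrL.c (I.pos (nat_lit 0) (nat_lit 0)) (xb T1.l14 T1.l14)
  (TrL.c (I.pos (nat_lit 0) (nat_lit 0)) T1.l1
  (TrL.c (I.pos (nat_lit 0) (nat_lit 134217730)) T1.l2
  (TrL.c (I.pos (nat_lit 0) (nat_lit 110514882)) T1.l3
  (TrL.c (I.pos (nat_lit 0) (nat_lit 0)) T1.l9
  (TrL.c (I.pos (nat_lit 0) (nat_lit 0)) T1.l5
  (TrL.c (I.mix (nat_lit 8088324) (nat_lit 110514882)) T1.l6
  (TrL.c (I.mix (nat_lit 8088324) (nat_lit 89478486)) T1.l2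
  TrL.n)))))))) (by decide +kernel)
theorem bx2_7 : BoxOK sI cl13 cl4 cl4 t1 t1 b2_7 :=
  box_mk (TrL.c (I.pos (nat_lit 0) (nat_lit 0)) (xa (xb T1.l14 T1.l14) T1.l14)
  (TrL.c (I.pos (nat_lit 0) (nat_lit 0)) T1.l10
  (TrL.c (I.pos (nat_lit 0) (nat_lit 134217730)) T1.l2
  (TrL.c (I.pos (nat_lit 0) (nat_lit 110514882)) T1.l3
  (TrL.c (I.pos (nat_lit 0) (nat_lit 0)) T1.l15
  (TrL.c (I.pos (nat_lit 0) (nat_lit 0)) T1.l5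
  (TrL.c (I.mix (nat_lit 8088324) (nat_lit 110514882)) T1.l6
  (TrL.c (I.mix (nat_lit 8088324) (nat_lit 89478486)) T1.l2
  TrL.n)))))))) (by decide +kernel)
theorem bx2_8 : BoxOK sI cl13 cl4 cl4 t1 t1 b2_8 :=
  box_mk (TrL.c (I.pos (nat_lit 0) (nat_lit 0)) (xa T1.l0 T1.l0)
  (TrL.c (I.pos (nat_lit 0) (nat_lit 0)) T1.l1
  (TrL.c (I.pos (nat_lit 0) (nat_lit 134217730)) (xR T1.l2 T1.l6)
  (TrL.c (I.pos (nat_lit 0) (nat_lit 110514882)) (xR T1.l3 T1.l3)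
  (TrL.c (I.pos (nat_lit 0) (nat_lit 0)) (xa (xb (xk T1.l4 T1.l4) T1.l4) (xk (xb (xa T1.l4 T1.l4) (xa T1.l4 T1.l4)) (xb (xa T1.l4 T1.l4) (xa T1.l4 T1.l4))))
  (TrL.c (I.pos (nat_lit 0) (nat_lit 0)) (xa T1.l5 T1.l5)
  (TrL.c (I.mix (nat_lit 8088324) (nat_lit 110514882)) (xR T1.l6 (xR T1.l6 T1.l6))
  (TrL.c (I.mix (nat_lit 8088324) (nat_lit 89478486)) (xR T1.l7 T1.l7)
  TrL.n)))))))) (by decide +kernel)
theorem bx2_9 : BoxOK sI cl13 cl4 cl4 t1 t1 b2_9 :=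
  box_mk (TrL.c (I.pos (nat_lit 0) (nat_lit 0)) (xa (xs T1.l0 T1.l0) T1.l0)
  (TrL.c (I.pos (nat_lit 0) (nat_lit 0)) T1.l1
  (TrL.c (I.pos (nat_lit 0) (nat_lit 134217730)) (xR T1.l2 T1.l2)
  (TrL.c (I.pos (nat_lit 0) (nat_lit 110514882)) (xR T1.l3 T1.l3)
  (TrL.c (I.pos (nat_lit 0) (nat_lit 0)) (xk T1.l4 T1.l4)
  (TrL.c (I.pos (nat_lit 0) (nat_lit 0)) T1.l5
  (TrL.c (I.mix (nat_lit 8088324) (nat_lit 110514882)) T1.l6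
  (TrL.c (I.mix (nat_lit 8088324) (nat_lit 89478486)) T1.l7
  TrL.n)))))))) (by decide +kernel)
theorem bx2_10 : BoxOK sI cl13 cl4 cl4 t1 t1 b2_10 :=
  box_mk (TrL.c (I.pos (nat_lit 0) (nat_lit 0)) T1.l14
  (TrL.c (I.pos (nat_lit 0) (nat_lit 0)) T1.l1
  (TrL.c (I.pos (nat_lit 0) (nat_lit 134217730)) T1.l2
  (TrL.c (I.pos (nat_lit 0) (nat_lit 110514882)) T1.l3
  (TrL.c (I.pos (nat_lit 0) (nat_lit 0)) T1.l9
  (TrL.c (I.pos (nat_lit 0) (nat_lit 0)) T1.l5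
  (TrL.c (I.mix (nat_lit 8088324) (nat_lit 110514882)) T1.l6
  (TrL.c (I.mix (nat_lit 8088324) (nat_lit 89478486)) T1.l2
  TrL.n)))))))) (by decide +kernel)
theorem sv2 : StarV sI cl13 cl4 cl4 t1 t1 t2 :=
  (bt_n (bt_n (bt_n (bt_b bx2_0) (bt_b bx2_1)) (bt_n (bt_b bx2_2) (bt_n (bt_b bx2_3) (bt_b bx2_4)))) (bt_n (bt_n (bt_b bx2_5) (bt_n (bt_b bx2_6) (bt_b bx2_7))) (bt_n (bt_b bx2_8) (bt_n (bt_b bx2_9) (bt_b bx2_10)))))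
def S2 : StarD := StarD.mk cl13 cl4 cl4 1 1 t2
def G : List StarD := [S0, S1, S2]
theorem so0 : StarOK sI G S0 :=
  star_mk (by decide) (by decide) rfl rfl rfl rfl rfl rfl (rfl : _ = t0) (rfl : _ = t2)
  (st_mk (Pth.l (Pth.l (Pth.l Pth.z))) (nat_lit 380007949) (nat_lit 386640437) (by decide +kernel))
  (st_mk (Pth.l (Pth.l (Pth.l Pth.z))) (nat_lit 418045837) (nat_lit 426171796) (by decide +kernel))
  (st_mk (Pth.l (Pth.l (Pth.l Pth.z))) (nat_lit 462347152) (nat_lit 472433431) (by decide +kernel)) sv0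
theorem so1 : StarOK sI G S1 :=
  star_mk (by decide) (by decide) rfl rfl rfl rfl rfl rfl (rfl : _ = t2) (rfl : _ = t0)
  (st_mk (Pth.l (Pth.l (Pth.l (Pth.l Pth.z)))) (nat_lit 98109462) (nat_lit 118023231) (by decide +kernel))
  (st_mk (Pth.l (Pth.l (Pth.l (Pth.l Pth.z)))) (nat_lit 135023596) (nat_lit 156058119) (by decide +kernel))
  (st_mk (Pth.l (Pth.l (Pth.l (Pth.l Pth.z)))) (nat_lit 178476919) (nat_lit 201183094) (by decide +kernel)) sv1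
theorem so2 : StarOK sI G S2 :=
  star_mk (by decide) (by decide) rfl rfl rfl rfl rfl rfl (rfl : _ = t1) (rfl : _ = t1)
  (st_mk (Pth.l (Pth.l (Pth.l Pth.z))) (nat_lit 364798899) (nat_lit 367846160) (by decide +kernel))
  (st_mk (Pth.l (Pth.l (Pth.l Pth.z))) (nat_lit 399695508) (nat_lit 403248082) (by decide +kernel))
  (st_mk (Pth.l (Pth.l (Pth.l Pth.z))) (nat_lit 439960827) (nat_lit 444155113) (by decide +kernel)) sv2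
theorem ok : GroupOK (nat_lit 0) (nat_lit 91291648) G := grp_mk (allS_c so0 (allS_c so1 (allS_c so2 allS_n)))
theorem cov : GCov G cl4 cl4 cl13 := cov_mk
  ⟨0, by decide, rfl, rfl, rfl⟩ ⟨1, by decide, rfl, rfl, rfl⟩ ⟨0, by decide, rfl, rfl, rfl⟩ ⟨1, by decide, rfl, rfl, rfl⟩ ⟨2, by decide, rfl, rfl, rfl⟩ ⟨2, by decide, rfl, rfl, rfl⟩
end Q116_0

namespace Q116_1
def sI : I := I.pos (nat_lit 91226112) (nat_lit 150339584)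
def b0_0 : Bx := Bx.mk (St.mk (I.pos (nat_lit 154796032) (nat_lit 219938816)) (I.mix (nat_lit 3260416) (nat_lit 103071744)) (I.mix (nat_lit 56033280) (nat_lit 45662208)) (I.pos (nat_lit 382058496) (nat_lit 482361344)) (I.mix (nat_lit 147734528) (nat_lit 112099328)) (I.mix (nat_lit 114573312) (nat_lit 113999872)) (I.mix (nat_lit 162922496) (nat_lit 154189824)))
  false (nat_lit 107333949)
def b0_1 : Bx := Bx.mk (St.mk (I.mix (nat_lit 46579712) (nat_lit 4947968)) (I.mix (nat_lit 18186240) (nat_lit 88752128)) (I.neg (nat_lit 78249984) (nat_lit 107986944)) (I.pos (nat_lit 259866624) (nat_lit 288948224)) (I.mix (nat_lit 66355200) (nat_lit 138182656)) (I.mix (nat_lit 114835456) (nat_lit 91504640)) (I.mix (nat_lit 51822592) (nat_lit 58408960)))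
  true (nat_lit 0)
def b0_2 : Bx := Bx.mk (St.mk (I.pos (nat_lit 3555328) (nat_lit 46333952)) (I.neg (nat_lit 23035904) (nat_lit 87539712)) (I.neg (nat_lit 78249984) (nat_lit 108003328)) (I.pos (nat_lit 262176768) (nat_lit 288882688)) (I.mix (nat_lit 138084352) (nat_lit 62586880)) (I.mix (nat_lit 91504640) (nat_lit 114835456)) (I.mix (nat_lit 51822592) (nat_lit 58408960)))
  false (nat_lit 89797388)
def b0_3 : Bx := Bx.mk (St.mk (I.mix (nat_lit 19988480) (nat_lit 4964352)) (I.mix (nat_lit 19070976) (nat_lit 18743296)) (I.neg (nat_lit 81346560) (nat_lit 93421568)) (I.pos (nat_lit 261111808) (nat_lit 274022400)) (I.mix (nat_lit 62160896) (nat_lit 56475648)) (I.mix (nat_lit 58720256) (nat_lit 52068352)) (I.mix (nat_lit 3112960) (nat_lit 22708224)))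
  true (nat_lit 0)
def b0_4 : Bx := Bx.mk (St.mk (I.pos (nat_lit 207110144) (nat_lit 258129920)) (I.mix (nat_lit 27377664) (nat_lit 26624000)) (I.neg (nat_lit 113278976) (nat_lit 215384064)) (I.pos (nat_lit 442236928) (nat_lit 535478272)) (I.mix (nat_lit 145244160) (nat_lit 89767936)) (I.mix (nat_lit 113606656) (nat_lit 116211712)) (I.mix (nat_lit 188809216) (nat_lit 248250368)))
  false (nat_lit 58736939)
def b0_5 : Bx := Bx.mk (St.mk (I.mix (nat_lit 4456448) (nat_lit 19628032)) (I.mix (nat_lit 15728640) (nat_lit 15400960)) (I.neg (nat_lit 81362944) (nat_lit 93421568)) (I.pos (nat_lit 261111808) (nat_lit 274022400)) (I.mix (nat_lit 50839552) (nat_lit 52936704)) (I.mix (nat_lit 47415296) (nat_lit 51380224)) (I.mix (nat_lit 2162688) (nat_lit 21757952)))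
  false (nat_lit 0)
def b0_6 : Bx := Bx.mk (St.mk (I.pos (nat_lit 5865472) (nat_lit 117374976)) (I.neg (nat_lit 3293184) (nat_lit 85983232)) (I.neg (nat_lit 42434560) (nat_lit 119947264)) (I.pos (nat_lit 257720320) (nat_lit 331857920)) (I.mix (nat_lit 135741440) (nat_lit 75464704)) (I.mix (nat_lit 84115456) (nat_lit 120717312)) (I.mix (nat_lit 90374144) (nat_lit 104300544)))
  false (nat_lit 87952998)
def b0_7 : Bx := Bx.mk (St.mk (I.pos (nat_lit 90750976) (nat_lit 199573504)) (I.mix (nat_lit 40468480) (nat_lit 92962816)) (I.mix (nat_lit 86458368) (nat_lit 38371328)) (I.pos (nat_lit 301875200) (nat_lit 443301888)) (I.mix (nat_lit 157876224) (nat_lit 124272640)) (I.mix (nat_lit 169492480) (nat_lit 145506304)) (I.mix (nat_lit 175276032) (nat_lit 155959296)))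
  false (nat_lit 97089336)
def b0_8 : Bx := Bx.mk (St.mk (I.neg (nat_lit 5865472) (nat_lit 117374976)) (I.pos (nat_lit 3293184) (nat_lit 85983232)) (I.neg (nat_lit 42434560) (nat_lit 119963648)) (I.pos (nat_lit 257654784) (nat_lit 331857920)) (I.mix (nat_lit 75464704) (nat_lit 135741440)) (I.mix (nat_lit 120668160) (nat_lit 84115456)) (I.mix (nat_lit 90374144) (nat_lit 104300544)))
  true (nat_lit 0)
def b0_9 : Bx := Bx.mk (St.mk (I.pos (nat_lit 172015616) (nat_lit 252559360)) (I.mix (nat_lit 29163520) (nat_lit 99713024)) (I.mix (nat_lit 216104960) (nat_lit 23773184)) (I.pos (nat_lit 413794304) (nat_lit 519864320)) (I.mix (nat_lit 151486464) (nat_lit 142639104)) (I.mix (nat_lit 143654912) (nat_lit 134774784)) (I.mix (nat_lit 251510784) (nat_lit 259522560)))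
  false (nat_lit 114849068)
def b0_10 : Bx := Bx.mk (St.mk (I.mix (nat_lit 3276800) (nat_lit 38109184)) (I.mix (nat_lit 71139328) (nat_lit 17661952)) (I.neg (nat_lit 80297984) (nat_lit 104644608)) (I.pos (nat_lit 260145152) (nat_lit 282230784)) (I.mix (nat_lit 124207104) (nat_lit 65830912)) (I.mix (nat_lit 78839808) (nat_lit 108953600)) (I.mix (nat_lit 32587776) (nat_lit 41402368)))
  false (nat_lit 13158619)
def t0 : BTr := (BTr.n (BTr.n (BTr.n (BTr.b b0_0) (BTr.b b0_1)) (BTr.n (BTr.b b0_2) (BTr.n (BTr.b b0_3) (BTr.b b0_4)))) (BTr.n (BTr.n (BTr.b b0_5) (BTr.n (BTr.b b0_6) (BTr.b b0_7))) (BTr.n (BTr.b b0_8) (BTr.n (BTr.b b0_9) (BTr.b b0_10)))))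
namespace T0
def l0 : Tr := Tr.L (Pth.l (Pth.l (Pth.l Pth.z)))
def l1 : Tr := Tr.L (Pth.l (Pth.l (Pth.r Pth.z)))
def l2 : Tr := Tr.L (Pth.l (Pth.r (Pth.l Pth.z)))
def l3 : Tr := Tr.L (Pth.l (Pth.r (Pth.r (Pth.l Pth.z))))
def l4 : Tr := Tr.L (Pth.l (Pth.r (Pth.r (Pth.r Pth.z))))
def l5 : Tr := Tr.L (Pth.r (Pth.l (Pth.l Pth.z)))
def l6 : Tr := Tr.L (Pth.r (Pth.l (Pth.r (Pth.l Pth.z))))
def l7 : Tr := Tr.L (Pth.r (Pth.l (Pth.r (Pth.r Pth.z))))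
def l8 : Tr := Tr.L (Pth.r (Pth.r (Pth.l Pth.z)))
def l9 : Tr := Tr.L (Pth.r (Pth.r (Pth.r (Pth.l Pth.z))))
def l10 : Tr := Tr.L (Pth.r (Pth.r (Pth.r (Pth.r Pth.z))))
end T0
def b1_0 : Bx := Bx.mk (St.mk (I.pos (nat_lit 158351360) (nat_lit 235175936)) (I.mix (nat_lit 1671168) (nat_lit 47906816)) (I.mix (nat_lit 2850816) (nat_lit 88588288)) (I.pos (nat_lit 95272960) (nat_lit 224673792)) (I.mix (nat_lit 96878592) (nat_lit 57950208)) (I.mix (nat_lit 79396864) (nat_lit 70205440)) (I.mix (nat_lit 121274368) (nat_lit 92553216)))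
  false (nat_lit 22420389)
def b1_1 : Bx := Bx.mk (St.mk (I.pos (nat_lit 118390784) (nat_lit 172589056)) (I.mix (nat_lit 53936128) (nat_lit 2015232)) (I.mix (nat_lit 53182464) (nat_lit 638976)) (I.pos (nat_lit 71073792) (nat_lit 127369216)) (I.mix (nat_lit 75579392) (nat_lit 60047360)) (I.mix (nat_lit 63225856) (nat_lit 73531392)) (I.mix (nat_lit 57999360) (nat_lit 80527360)))
  false (nat_lit 68040607)
def b1_2 : Bx := Bx.mk (St.mk (I.mix (nat_lit 8519680) (nat_lit 137609216)) (I.mix (nat_lit 5750784) (nat_lit 22691840)) (I.mix (nat_lit 6782976) (nat_lit 21512192)) (I.mix (nat_lit 3080192) (nat_lit 86638592)) (I.mix (nat_lit 40452096) (nat_lit 38944768)) (I.mix (nat_lit 43253760) (nat_lit 31637504)) (I.mix (nat_lit 38830080) (nat_lit 27115520)))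
  false (nat_lit 0)
def b1_3 : Bx := Bx.mk (St.mk (I.mix (nat_lit 8470528) (nat_lit 112312320)) (I.mix (nat_lit 25772032) (nat_lit 3096576)) (I.mix (nat_lit 17907712) (nat_lit 2277376)) (I.mix (nat_lit 2359296) (nat_lit 62144512)) (I.mix (nat_lit 33046528) (nat_lit 30015488)) (I.mix (nat_lit 24281088) (nat_lit 34619392)) (I.mix (nat_lit 17137664) (nat_lit 25378816)))
  false (nat_lit 0)
def b1_4 : Bx := Bx.mk (St.mk (I.pos (nat_lit 166674432) (nat_lit 214581248)) (I.mix (nat_lit 19038208) (nat_lit 49938432)) (I.mix (nat_lit 1753088) (nat_lit 87310336)) (I.pos (nat_lit 110919680) (nat_lit 193101824)) (I.mix (nat_lit 137297920) (nat_lit 50528256)) (I.mix (nat_lit 148029440) (nat_lit 72761344)) (I.mix (nat_lit 177209344) (nat_lit 75137024)))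
  false (nat_lit 0)
def b1_5 : Bx := Bx.mk (St.mk (I.pos (nat_lit 118276096) (nat_lit 156762112)) (I.mix (nat_lit 46923776) (nat_lit 8945664)) (I.mix (nat_lit 46792704) (nat_lit 7766016)) (I.pos (nat_lit 55115776) (nat_lit 106446848)) (I.mix (nat_lit 83640320) (nat_lit 41697280)) (I.mix (nat_lit 47349760) (nat_lit 92340224)) (I.mix (nat_lit 42303488) (nat_lit 84492288)))
  false (nat_lit 29916393)
def b1_6 : Bx := Bx.mk (St.mk (I.mix (nat_lit 12959744) (nat_lit 134070272)) (I.mix (nat_lit 14057472) (nat_lit 29605888)) (I.mix (nat_lit 9568256) (nat_lit 26673152)) (I.mix (nat_lit 2949120) (nat_lit 82165760)) (I.mix (nat_lit 53231616) (nat_lit 30851072)) (I.mix (nat_lit 56885248) (nat_lit 32342016)) (I.mix (nat_lit 42696704) (nat_lit 23330816)))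
  false (nat_lit 0)
def b1_7 : Bx := Bx.mk (St.mk (I.mix (nat_lit 11993088) (nat_lit 106512384)) (I.mix (nat_lit 23445504) (nat_lit 1245184)) (I.mix (nat_lit 16547840) (nat_lit 1343488)) (I.mix (nat_lit 2260992) (nat_lit 58540032)) (I.mix (nat_lit 35635200) (nat_lit 19398656)) (I.mix (nat_lit 20447232) (nat_lit 36831232)) (I.mix (nat_lit 12746752) (nat_lit 23003136)))
  false (nat_lit 0)
def b1_8 : Bx := Bx.mk (St.mk (I.pos (nat_lit 189857792) (nat_lit 244957184)) (I.mix (nat_lit 14385152) (nat_lit 50413568)) (I.mix (nat_lit 27181056) (nat_lit 92241920)) (I.pos (nat_lit 169328640) (nat_lit 247349248)) (I.mix (nat_lit 112148480) (nat_lit 96714752)) (I.mix (nat_lit 118865920) (nat_lit 102924288)) (I.mix (nat_lit 193740800) (nat_lit 150093824)))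
  false (nat_lit 77942914)
def b1_9 : Bx := Bx.mk (St.mk (I.pos (nat_lit 160661504) (nat_lit 204881920)) (I.mix (nat_lit 45367296) (nat_lit 25051136)) (I.mix (nat_lit 44072960) (nat_lit 50102272)) (I.pos (nat_lit 107167744) (nat_lit 174964736)) (I.mix (nat_lit 131465216) (nat_lit 76873728)) (I.mix (nat_lit 149291008) (nat_lit 92897280)) (I.mix (nat_lit 178569216) (nat_lit 101154816)))
  false (nat_lit 9362358)
def b1_10 : Bx := Bx.mk (St.mk (I.pos (nat_lit 137265152) (nat_lit 177520640)) (I.mix (nat_lit 38010880) (nat_lit 3637248)) (I.mix (nat_lit 33931264) (nat_lit 6635520)) (I.pos (nat_lit 84918272) (nat_lit 136003584)) (I.mix (nat_lit 70385664) (nat_lit 27426816)) (I.mix (nat_lit 32964608) (nat_lit 50348032)) (I.mix (nat_lit 40304640) (nat_lit 54132736)))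
  false (nat_lit 10595785)
def b1_11 : Bx := Bx.mk (St.mk (I.pos (nat_lit 108527616) (nat_lit 134070272)) (I.mix (nat_lit 8798208) (nat_lit 8847360)) (I.mix (nat_lit 9715712) (nat_lit 8208384)) (I.pos (nat_lit 48758784) (nat_lit 84918272)) (I.mix (nat_lit 32473088) (nat_lit 16285696)) (I.mix (nat_lit 21856256) (nat_lit 21839872)) (I.mix (nat_lit 20267008) (nat_lit 20512768)))
  false (nat_lit 0)
def b1_12 : Bx := Bx.mk (St.mk (I.mix (nat_lit 15187968) (nat_lit 112541696)) (I.mix (nat_lit 14319616) (nat_lit 2883584)) (I.mix (nat_lit 9338880) (nat_lit 2097152)) (I.mix (nat_lit 2359296) (nat_lit 62177280)) (I.mix (nat_lit 26722304) (nat_lit 11059200)) (I.mix (nat_lit 14532608) (nat_lit 18055168)) (I.mix (nat_lit 10878976) (nat_lit 13139968)))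
  false (nat_lit 0)
def b1_13 : Bx := Bx.mk (St.mk (I.mix (nat_lit 12140544) (nat_lit 17678336)) (I.mix (nat_lit 1163264) (nat_lit 2375680)) (I.mix (nat_lit 983040) (nat_lit 802816)) (I.mix (nat_lit 1114112) (nat_lit 19054592)) (I.mix (nat_lit 4358144) (nat_lit 1736704)) (I.mix (nat_lit 1933312) (nat_lit 2113536)) (I.mix (nat_lit 688128) (nat_lit 671744)))
  false (nat_lit 0)
def b1_14 : Bx := Bx.mk (St.mk (I.pos (nat_lit 210944000) (nat_lit 255983616)) (I.mix (nat_lit 17104896) (nat_lit 18874368)) (I.mix (nat_lit 33832960) (nat_lit 32342016)) (I.pos (nat_lit 197312512) (nat_lit 272744448)) (I.mix (nat_lit 94584832) (nat_lit 21708800)) (I.mix (nat_lit 54460416) (nat_lit 54018048)) (I.mix (nat_lit 98942976) (nat_lit 98926592)))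
  false (nat_lit 1641766)
def b1_15 : Bx := Bx.mk (St.mk (I.pos (nat_lit 157138944) (nat_lit 185106432)) (I.neg (nat_lit 4571136) (nat_lit 35241984)) (I.mix (nat_lit 33325056) (nat_lit 688128)) (I.pos (nat_lit 102580224) (nat_lit 150814720)) (I.mix (nat_lit 39616512) (nat_lit 22560768)) (I.mix (nat_lit 23953408) (nat_lit 28246016)) (I.mix (nat_lit 27459584) (nat_lit 31195136)))
  false (nat_lit 0)
def t1 : BTr := (BTr.n (BTr.n (BTr.n (BTr.n (BTr.b b1_0) (BTr.b b1_1)) (BTr.n (BTr.b b1_2) (BTr.b b1_3))) (BTr.n (BTr.n (BTr.b b1_4) (BTr.b b1_5)) (BTr.n (BTr.b b1_6) (BTr.b b1_7)))) (BTr.n (BTr.n (BTr.n (BTr.b b1_8) (BTr.b b1_9)) (BTr.n (BTr.b b1_10) (BTr.b b1_11))) (BTr.n (BTr.n (BTr.b b1_12) (BTr.b b1_13)) (BTr.n (BTr.b b1_14) (BTr.b b1_15)))))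
namespace T1
def l0 : Tr := Tr.L (Pth.l (Pth.l (Pth.l (Pth.l Pth.z))))
def l1 : Tr := Tr.L (Pth.l (Pth.l (Pth.l (Pth.r Pth.z))))
def l2 : Tr := Tr.L (Pth.l (Pth.l (Pth.r (Pth.l Pth.z))))
def l3 : Tr := Tr.L (Pth.l (Pth.l (Pth.r (Pth.r Pth.z))))
def l4 : Tr := Tr.L (Pth.l (Pth.r (Pth.l (Pth.l Pth.z))))
def l5 : Tr := Tr.L (Pth.l (Pth.r (Pth.l (Pth.r Pth.z))))
def l6 : Tr := Tr.L (Pth.l (Pth.r (Pth.r (Pth.l Pth.z))))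
def l7 : Tr := Tr.L (Pth.l (Pth.r (Pth.r (Pth.r Pth.z))))
def l8 : Tr := Tr.L (Pth.r (Pth.l (Pth.l (Pth.l Pth.z))))
def l9 : Tr := Tr.L (Pth.r (Pth.l (Pth.l (Pth.r Pth.z))))
def l10 : Tr := Tr.L (Pth.r (Pth.l (Pth.r (Pth.l Pth.z))))
def l11 : Tr := Tr.L (Pth.r (Pth.l (Pth.r (Pth.r Pth.z))))
def l12 : Tr := Tr.L (Pth.r (Pth.r (Pth.l (Pth.l Pth.z))))
def l13 : Tr := Tr.L (Pth.r (Pth.r (Pth.l (Pth.r Pth.z))))
def l14 : Tr := Tr.L (Pth.r (Pth.r (Pth.r (Pth.l Pth.z))))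
def l15 : Tr := Tr.L (Pth.r (Pth.r (Pth.r (Pth.r Pth.z))))
end T1
def b2_0 : Bx := Bx.mk (St.mk (I.pos (nat_lit 128499712) (nat_lit 217628672)) (I.mix (nat_lit 2686976) (nat_lit 83214336)) (I.mix (nat_lit 4653056) (nat_lit 150421504)) (I.pos (nat_lit 349847552) (nat_lit 448020480)) (I.mix (nat_lit 176439296) (nat_lit 86212608)) (I.mix (nat_lit 132661248) (nat_lit 106872832)) (I.mix (nat_lit 138313728) (nat_lit 125534208)))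
  false (nat_lit 162417733)
def b2_1 : Bx := Bx.mk (St.mk (I.pos (nat_lit 43024384) (nat_lit 117489664)) (I.neg (nat_lit 1376256) (nat_lit 98140160)) (I.mix (nat_lit 30720000) (nat_lit 62472192)) (I.pos (nat_lit 276414464) (nat_lit 323895296)) (I.mix (nat_lit 101269504) (nat_lit 103628800)) (I.mix (nat_lit 98975744) (nat_lit 92749824)) (I.mix (nat_lit 83361792) (nat_lit 83623936)))
  false (nat_lit 165228200)
def b2_2 : Bx := Bx.mk (St.mk (I.pos (nat_lit 103514112) (nat_lit 175865856)) (I.mix (nat_lit 45744128) (nat_lit 90406912)) (I.pos (nat_lit 17907712) (nat_lit 160563200)) (I.pos (nat_lit 305954816) (nat_lit 392921088)) (I.mix (nat_lit 214941696) (nat_lit 99057664)) (I.mix (nat_lit 199688192) (nat_lit 149651456)) (I.mix (nat_lit 213680128) (nat_lit 176455680)))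
  false (nat_lit 161205916)
def b2_3 : Bx := Bx.mk (St.mk (I.neg (nat_lit 43008000) (nat_lit 118128640)) (I.pos (nat_lit 475136) (nat_lit 98172928)) (I.mix (nat_lit 30785536) (nat_lit 62504960)) (I.pos (nat_lit 276398080) (nat_lit 324435968)) (I.mix (nat_lit 103628800) (nat_lit 101269504)) (I.mix (nat_lit 92749824) (nat_lit 98975744)) (I.mix (nat_lit 83378176) (nat_lit 83623936)))
  true (nat_lit 76617933)
def b2_4 : Bx := Bx.mk (St.mk (I.pos (nat_lit 83247104) (nat_lit 117669888)) (I.mix (nat_lit 41123840) (nat_lit 163840)) (I.pos (nat_lit 21233664) (nat_lit 63684608)) (I.pos (nat_lit 290947072) (nat_lit 324812800)) (I.mix (nat_lit 75743232) (nat_lit 71188480)) (I.mix (nat_lit 62750720) (nat_lit 73154560)) (I.mix (nat_lit 59408384) (nat_lit 60882944)))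
  false (nat_lit 36651137)
def b2_5 : Bx := Bx.mk (St.mk (I.mix (nat_lit 72286208) (nat_lit 9060352)) (I.mix (nat_lit 12156928) (nat_lit 94027776)) (I.mix (nat_lit 16482304) (nat_lit 6537216)) (I.pos (nat_lit 267124736) (nat_lit 298827776)) (I.mix (nat_lit 82591744) (nat_lit 95649792)) (I.mix (nat_lit 101269504) (nat_lit 94044160)) (I.mix (nat_lit 36913152) (nat_lit 31424512)))
  true (nat_lit 0)
def b2_6 : Bx := Bx.mk (St.mk (I.pos (nat_lit 30605312) (nat_lit 71139328)) (I.neg (nat_lit 33554432) (nat_lit 92700672)) (I.mix (nat_lit 16400384) (nat_lit 3686400)) (I.pos (nat_lit 275415040) (nat_lit 298582016)) (I.mix (nat_lit 95649792) (nat_lit 81035264)) (I.mix (nat_lit 94044160) (nat_lit 92078080)) (I.mix (nat_lit 36913152) (nat_lit 31424512)))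
  false (nat_lit 55440225)
def b2_7 : Bx := Bx.mk (St.mk (I.pos (nat_lit 162889728) (nat_lit 285229056)) (I.mix (nat_lit 22233088) (nat_lit 62996480)) (I.mix (nat_lit 45596672) (nat_lit 117637120)) (I.pos (nat_lit 379502592) (nat_lit 568197120)) (I.mix (nat_lit 103661568) (nat_lit 74530816)) (I.mix (nat_lit 82722816) (nat_lit 65388544)) (I.mix (nat_lit 134496256) (nat_lit 98238464)))
  false (nat_lit 118284474)
def b2_8 : Bx := Bx.mk (St.mk (I.mix (nat_lit 8568832) (nat_lit 55230464)) (I.mix (nat_lit 51953664) (nat_lit 10944512)) (I.mix (nat_lit 7585792) (nat_lit 6275072)) (I.pos (nat_lit 267567104) (nat_lit 283869184)) (I.mix (nat_lit 45694976) (nat_lit 58572800)) (I.mix (nat_lit 45694976) (nat_lit 45039616)) (I.mix (nat_lit 10911744) (nat_lit 13369344)))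
  false (nat_lit 0)
def b2_9 : Bx := Bx.mk (St.mk (I.pos (nat_lit 140607488) (nat_lit 200982528)) (I.pos (nat_lit 17727488) (nat_lit 81625088)) (I.pos (nat_lit 52543488) (nat_lit 147013632)) (I.pos (nat_lit 361349120) (nat_lit 417398784)) (I.mix (nat_lit 140673024) (nat_lit 105775104)) (I.mix (nat_lit 137920512) (nat_lit 84541440)) (I.mix (nat_lit 184614912) (nat_lit 107560960)))
  false (nat_lit 83953913)
def b2_10 : Bx := Bx.mk (St.mk (I.pos (nat_lit 32931840) (nat_lit 62734336)) (I.neg (nat_lit 24363008) (nat_lit 79593472)) (I.mix (nat_lit 15187968) (nat_lit 5537792)) (I.pos (nat_lit 275644416) (nat_lit 291094528)) (I.mix (nat_lit 89538560) (nat_lit 82591744)) (I.mix (nat_lit 65798144) (nat_lit 101269504)) (I.mix (nat_lit 23101440) (nat_lit 28065792)))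
  false (nat_lit 97761281)
def t2 : BTr := (BTr.n (BTr.n (BTr.n (BTr.b b2_0) (BTr.b b2_1)) (BTr.n (BTr.b b2_2) (BTr.n (BTr.b b2_3) (BTr.b b2_4)))) (BTr.n (BTr.n (BTr.b b2_5) (BTr.n (BTr.b b2_6) (BTr.b b2_7))) (BTr.n (BTr.b b2_8) (BTr.n (BTr.b b2_9) (BTr.b b2_10)))))
namespace T2
def l0 : Tr := Tr.L (Pth.l (Pth.l (Pth.l Pth.z)))
def l1 : Tr := Tr.L (Pth.l (Pth.l (Pth.r Pth.z)))
def l2 : Tr := Tr.L (Pth.l (Pth.r (Pth.l Pth.z)))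
def l3 : Tr := Tr.L (Pth.l (Pth.r (Pth.r (Pth.l Pth.z))))
def l4 : Tr := Tr.L (Pth.l (Pth.r (Pth.r (Pth.r Pth.z))))
def l5 : Tr := Tr.L (Pth.r (Pth.l (Pth.l Pth.z)))
def l6 : Tr := Tr.L (Pth.r (Pth.l (Pth.r (Pth.l Pth.z))))
def l7 : Tr := Tr.L (Pth.r (Pth.l (Pth.r (Pth.r Pth.z))))
def l8 : Tr := Tr.L (Pth.r (Pth.r (Pth.l Pth.z)))
def l9 : Tr := Tr.L (Pth.r (Pth.r (Pth.r (Pth.l Pth.z))))
def l10 : Tr := Tr.L (Pth.r (Pth.r (Pth.r (Pth.r Pth.z))))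
end T2
theorem bx0_0 : BoxOK sI cl4 cl4 cl13 t0 t2 b0_0 :=
  box_mk (TrL.c (I.pos (nat_lit 0) (nat_lit 0)) (xb (xa T0.l9 T0.l0) (xa (xb T0.l0 (xa T0.l0 T0.l0)) (xb T0.l0 (xa T0.l0 T0.l0))))
  (TrL.c (I.pos (nat_lit 0) (nat_lit 0)) T2.l1
  (TrL.c (I.pos (nat_lit 0) (nat_lit 0)) T0.l1
  (TrL.c (I.pos (nat_lit 0) (nat_lit 0)) T2.l2
  (TrL.c (I.pos (nat_lit 0) (nat_lit 0)) T0.l2
  (TrL.c (I.pos (nat_lit 0) (nat_lit 0)) T2.l3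
  TrL.n)))))) (by decide +kernel)
theorem bx0_1 : BoxOK sI cl4 cl4 cl13 t0 t2 b0_1 :=
  box_mk (TrL.c (I.pos (nat_lit 0) (nat_lit 0)) T2.l4
  (TrL.c (I.pos (nat_lit 0) (nat_lit 0)) T0.l3
  TrL.n)) (by decide +kernel)
theorem bx0_2 : BoxOK sI cl4 cl4 cl13 t0 t2 b0_2 :=
  box_mk (TrL.c (I.pos (nat_lit 0) (nat_lit 0)) (xb (xa T0.l9 T0.l4) T0.l9)
  (TrL.c (I.pos (nat_lit 0) (nat_lit 0)) T2.l1
  (TrL.c (I.pos (nat_lit 0) (nat_lit 0)) T0.l1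
  (TrL.c (I.pos (nat_lit 0) (nat_lit 0)) T2.l2
  (TrL.c (I.pos (nat_lit 0) (nat_lit 0)) T0.l10
  (TrL.c (I.pos (nat_lit 0) (nat_lit 0)) T2.l3
  TrL.n)))))) (by decide +kernel)
theorem bx0_3 : BoxOK sI cl4 cl4 cl13 t0 t2 b0_3 :=
  box_mk (TrL.c (I.pos (nat_lit 0) (nat_lit 0)) T2.l4
  (TrL.c (I.pos (nat_lit 0) (nat_lit 0)) T0.l3
  TrL.n)) (by decide +kernel)
theorem bx0_4 : BoxOK sI cl4 cl4 cl13 t0 t2 b0_4 :=
  box_mk (TrL.c (I.pos (nat_lit 0) (nat_lit 0)) (xa T0.l0 T0.l7)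
  (TrL.c (I.pos (nat_lit 0) (nat_lit 0)) T2.l1
  (TrL.c (I.pos (nat_lit 0) (nat_lit 0)) T0.l8
  (TrL.c (I.pos (nat_lit 0) (nat_lit 0)) (xa T2.l2 T2.l2)
  (TrL.c (I.pos (nat_lit 0) (nat_lit 0)) T0.l6
  (TrL.c (I.pos (nat_lit 0) (nat_lit 0)) T2.l3
  TrL.n)))))) (by decide +kernel)
theorem bx0_5 : BoxOK sI cl4 cl4 cl13 t0 t2 b0_5 :=
  box_mk (TrL.c (I.pos (nat_lit 0) (nat_lit 0)) T0.l4
  (TrL.c (I.pos (nat_lit 0) (nat_lit 0)) T2.l1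
  (TrL.c (I.pos (nat_lit 0) (nat_lit 0)) T0.l1
  (TrL.c (I.pos (nat_lit 0) (nat_lit 0)) T2.l2
  (TrL.c (I.pos (nat_lit 0) (nat_lit 0)) T0.l5
  (TrL.c (I.pos (nat_lit 0) (nat_lit 0)) T2.l3
  TrL.n)))))) (by decide +kernel)
theorem bx0_6 : BoxOK sI cl4 cl4 cl13 t0 t2 b0_6 :=
  box_mk (TrL.c (I.pos (nat_lit 0) (nat_lit 0)) (xa (xb (xa (xb T0.l9 T0.l9) T0.l9) (xa T0.l9 T0.l9)) T0.l9)
  (TrL.c (I.pos (nat_lit 0) (nat_lit 0)) T2.l1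
  (TrL.c (I.pos (nat_lit 0) (nat_lit 0)) T0.l1
  (TrL.c (I.pos (nat_lit 0) (nat_lit 0)) T2.l2
  (TrL.c (I.pos (nat_lit 0) (nat_lit 0)) T0.l10
  (TrL.c (I.pos (nat_lit 0) (nat_lit 0)) T2.l3
  TrL.n)))))) (by decide +kernel)
theorem bx0_7 : BoxOK sI cl4 cl4 cl13 t0 t2 b0_7 :=
  box_mk (TrL.c (I.pos (nat_lit 0) (nat_lit 0)) (xb (xa (xb (xa T0.l9 T0.l9) (xa T0.l9 T0.l9)) (xb (xa T0.l9 T0.l9) T0.l9)) (xa (xb (xa T0.l9 T0.l9) (xa T0.l9 T0.l9)) (xa T0.l9 (xb T0.l9 T0.l9))))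
  (TrL.c (I.pos (nat_lit 0) (nat_lit 0)) (xb (xa T2.l1 T2.l1) (xa T2.l1 T2.l1))
  (TrL.c (I.pos (nat_lit 0) (nat_lit 0)) (xb (xa T0.l1 T0.l1) T0.l1)
  (TrL.c (I.pos (nat_lit 0) (nat_lit 0)) (xb (xa T2.l2 (xb T2.l2 T2.l2)) (xa T2.l2 T2.l2))
  (TrL.c (I.pos (nat_lit 0) (nat_lit 0)) (xb (xa T0.l10 T0.l10) (xa T0.l10 T0.l2))
  (TrL.c (I.pos (nat_lit 0) (nat_lit 0)) (xb (xa T2.l3 T2.l3) (xa T2.l3 T2.l3))
  TrL.n)))))) (by decide +kernel)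
theorem bx0_8 : BoxOK sI cl4 cl4 cl13 t0 t2 b0_8 :=
  box_mk (TrL.c (I.pos (nat_lit 0) (nat_lit 0)) T2.l1
  (TrL.c (I.pos (nat_lit 0) (nat_lit 0)) T0.l1
  TrL.n)) (by decide +kernel)
theorem bx0_9 : BoxOK sI cl4 cl4 cl13 t0 t2 b0_9 :=
  box_mk (TrL.c (I.pos (nat_lit 0) (nat_lit 0)) (xb (xa (xb (xa T0.l9 T0.l0) (xa T0.l9 T0.l0)) (xb T0.l0 T0.l0)) (xa (xb (xa T0.l9 T0.l0) (xa T0.l9 T0.l0)) (xb (xa T0.l0 T0.l0) (xa T0.l0 T0.l0))))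
  (TrL.c (I.pos (nat_lit 0) (nat_lit 0)) (xb (xa T2.l1 T2.l1) (xa T2.l1 (xb T2.l1 T2.l1)))
  (TrL.c (I.pos (nat_lit 0) (nat_lit 0)) (xb (xa T0.l1 T0.l1) (xs T0.l1 (xa T0.l1 T0.l8)))
  (TrL.c (I.pos (nat_lit 0) (nat_lit 0)) (xb (xa T2.l2 (xb (xa T2.l2 T2.l2) T2.l2)) (xa T2.l2 (xb T2.l2 (xs T2.l2 T2.l2))))
  (TrL.c (I.pos (nat_lit 0) (nat_lit 0)) (xb (xa T0.l2 T0.l2) (xs T0.l2 (xa T0.l2 T0.l6)))
  (TrL.c (I.pos (nat_lit 0) (nat_lit 0)) (xb (xa T2.l3 T2.l3) (xa T2.l3 (xb T2.l3 T2.l3)))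
  TrL.n)))))) (by decide +kernel)
theorem bx0_10 : BoxOK sI cl4 cl4 cl13 t0 t2 b0_10 :=
  box_mk (TrL.c (I.pos (nat_lit 0) (nat_lit 0)) (xb (xb T0.l4 T0.l4) (xb T0.l4 (xa T0.l4 T0.l4)))
  (TrL.c (I.pos (nat_lit 0) (nat_lit 0)) T2.l1
  (TrL.c (I.pos (nat_lit 0) (nat_lit 0)) T0.l1
  (TrL.c (I.pos (nat_lit 0) (nat_lit 0)) T2.l2
  (TrL.c (I.pos (nat_lit 0) (nat_lit 0)) T0.l5
  (TrL.c (I.pos (nat_lit 0) (nat_lit 0)) T2.l3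
  TrL.n)))))) (by decide +kernel)
theorem sv0 : StarV sI cl4 cl4 cl13 t0 t2 t0 :=
  (bt_n (bt_n (bt_n (bt_b bx0_0) (bt_b bx0_1)) (bt_n (bt_b bx0_2) (bt_n (bt_b bx0_3) (bt_b bx0_4)))) (bt_n (bt_n (bt_b bx0_5) (bt_n (bt_b bx0_6) (bt_b bx0_7))) (bt_n (bt_b bx0_8) (bt_n (bt_b bx0_9) (bt_b bx0_10)))))
def S0 : StarD := StarD.mk cl4 cl4 cl13 0 2 t0
theorem bx1_0 : BoxOK sI cl4 cl13 cl4 t2 t0 b1_0 :=
  box_mk (TrL.c (I.pos (nat_lit 0) (nat_lit 0)) (xa (xa (xb T2.l0 (xb T2.l0 T2.l0)) (xb T2.l0 (xb T2.l0 T2.l0))) (xa (xb T2.l0 (xs T2.l0 T2.l0)) (xb T2.l0 (xs T2.l0 T2.l0))))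
  (TrL.c (I.pos (nat_lit 0) (nat_lit 0)) (xa T0.l6 (xa T0.l6 T0.l6))
  (TrL.c (I.pos (nat_lit 0) (nat_lit 0)) T2.l5
  (TrL.c (I.pos (nat_lit 0) (nat_lit 0)) T0.l7
  (TrL.c (I.pos (nat_lit 0) (nat_lit 0)) T2.l6
  (TrL.c (I.pos (nat_lit 0) (nat_lit 0)) (xa T0.l8 (xa T0.l8 T0.l8))
  TrL.n)))))) (by decide +kernel)
theorem bx1_1 : BoxOK sI cl4 cl13 cl4 t2 t0 b1_1 :=
  box_mk (TrL.c (I.pos (nat_lit 0) (nat_lit 0)) (xa (xb T2.l0 T2.l0) T2.l0)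
  (TrL.c (I.pos (nat_lit 0) (nat_lit 0)) T0.l6
  (TrL.c (I.pos (nat_lit 0) (nat_lit 0)) T2.l5
  (TrL.c (I.pos (nat_lit 0) (nat_lit 0)) T0.l7
  (TrL.c (I.pos (nat_lit 0) (nat_lit 0)) T2.l8
  (TrL.c (I.pos (nat_lit 0) (nat_lit 0)) T0.l8
  TrL.n)))))) (by decide +kernel)
theorem bx1_2 : BoxOK sI cl4 cl13 cl4 t2 t0 b1_2 :=
  box_mk (TrL.c (I.pos (nat_lit 0) (nat_lit 0)) (xa (xa T2.l7 T2.l7) (xa T2.l7 (xa T2.l7 T2.l7)))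
  (TrL.c (I.pos (nat_lit 0) (nat_lit 0)) (xa T0.l6 T0.l6)
  (TrL.c (I.pos (nat_lit 0) (nat_lit 0)) T2.l5
  (TrL.c (I.pos (nat_lit 0) (nat_lit 0)) (xa T0.l7 T0.l7)
  (TrL.c (I.pos (nat_lit 0) (nat_lit 0)) T2.l8
  (TrL.c (I.pos (nat_lit 0) (nat_lit 0)) (xa T0.l8 T0.l8)
  TrL.n)))))) (by decide +kernel)
theorem bx1_3 : BoxOK sI cl4 cl13 cl4 t2 t0 b1_3 :=
  box_mk (TrL.c (I.pos (nat_lit 0) (nat_lit 0)) (xa (xa T2.l7 T2.l7) T2.l7)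
  (TrL.c (I.pos (nat_lit 0) (nat_lit 0)) (xa T0.l6 T0.l6)
  (TrL.c (I.pos (nat_lit 0) (nat_lit 0)) T2.l5
  (TrL.c (I.pos (nat_lit 0) (nat_lit 0)) (xa T0.l7 T0.l7)
  (TrL.c (I.pos (nat_lit 0) (nat_lit 0)) T2.l8
  (TrL.c (I.pos (nat_lit 0) (nat_lit 0)) (xa T0.l8 T0.l8)
  TrL.n)))))) (by decide +kernel)
theorem bx1_4 : BoxOK sI cl4 cl13 cl4 t2 t0 b1_4 :=
  box_mk (TrL.c (I.pos (nat_lit 0) (nat_lit 0)) (xb (xa (xb T2.l9 T2.l9) (xb T2.l9 T2.l9)) (xa (xb T2.l9 (xa T2.l9 T2.l9)) (xb (xa T2.l9 T2.l9) (xa T2.l9 T2.l9))))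
  (TrL.c (I.pos (nat_lit 0) (nat_lit 0)) (xb (xa T0.l6 T0.l6) (xa T0.l6 T0.l6))
  (TrL.c (I.pos (nat_lit 0) (nat_lit 0)) T2.l5
  (TrL.c (I.pos (nat_lit 0) (nat_lit 0)) (xb (xa T0.l7 T0.l7) (xa T0.l7 T0.l7))
  (TrL.c (I.pos (nat_lit 0) (nat_lit 0)) T2.l10
  (TrL.c (I.pos (nat_lit 0) (nat_lit 0)) (xb (xa T0.l8 T0.l8) (xa T0.l8 T0.l8))
  TrL.n)))))) (by decide +kernel)
theorem bx1_5 : BoxOK sI cl4 cl13 cl4 t2 t0 b1_5 :=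
  box_mk (TrL.c (I.pos (nat_lit 0) (nat_lit 0)) (xb T2.l0 (xa (xb T2.l7 T2.l0) T2.l7))
  (TrL.c (I.pos (nat_lit 0) (nat_lit 0)) T0.l6
  (TrL.c (I.pos (nat_lit 0) (nat_lit 0)) T2.l5
  (TrL.c (I.pos (nat_lit 0) (nat_lit 0)) T0.l7
  (TrL.c (I.pos (nat_lit 0) (nat_lit 0)) T2.l8
  (TrL.c (I.pos (nat_lit 0) (nat_lit 0)) T0.l8
  TrL.n)))))) (by decide +kernel)
theorem bx1_6 : BoxOK sI cl4 cl13 cl4 t2 t0 b1_6 :=
  box_mk (TrL.c (I.pos (nat_lit 0) (nat_lit 0)) (xa (xa (xb T2.l7 (xa T2.l7 T2.l7)) T2.l7) (xa T2.l7 (xb T2.l7 (xa T2.l7 T2.l7))))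
  (TrL.c (I.pos (nat_lit 0) (nat_lit 0)) (xa T0.l6 T0.l6)
  (TrL.c (I.pos (nat_lit 0) (nat_lit 0)) T2.l5
  (TrL.c (I.pos (nat_lit 0) (nat_lit 0)) (xa T0.l7 T0.l7)
  (TrL.c (I.pos (nat_lit 0) (nat_lit 0)) T2.l8
  (TrL.c (I.pos (nat_lit 0) (nat_lit 0)) (xa T0.l8 T0.l8)
  TrL.n)))))) (by decide +kernel)
theorem bx1_7 : BoxOK sI cl4 cl13 cl4 t2 t0 b1_7 :=
  box_mk (TrL.c (I.pos (nat_lit 0) (nat_lit 0)) (xa (xa (xa T2.l7 T2.l7) T2.l7) T2.l7)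
  (TrL.c (I.pos (nat_lit 0) (nat_lit 0)) (xa T0.l6 T0.l6)
  (TrL.c (I.pos (nat_lit 0) (nat_lit 0)) T2.l5
  (TrL.c (I.pos (nat_lit 0) (nat_lit 0)) (xa T0.l7 T0.l7)
  (TrL.c (I.pos (nat_lit 0) (nat_lit 0)) T2.l8
  (TrL.c (I.pos (nat_lit 0) (nat_lit 0)) (xa T0.l8 T0.l8)
  TrL.n)))))) (by decide +kernel)
theorem bx1_8 : BoxOK sI cl4 cl13 cl4 t2 t0 b1_8 :=
  box_mk (TrL.c (I.pos (nat_lit 0) (nat_lit 0)) (xa (xb (xb (xa T2.l0 T2.l0) (xa T2.l0 T2.l0)) (xa (xb T2.l0 T2.l0) (xb T2.l0 T2.l0))) (xb (xa (xb T2.l0 T2.l0) T2.l2) (xa (xb T2.l0 T2.l0) T2.l2)))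
  (TrL.c (I.pos (nat_lit 0) (nat_lit 0)) (xa (xb T0.l6 (xs T0.l6 T0.l6)) (xb (xa T0.l6 T0.l6) (xs T0.l6 (xa T0.l6 T0.l6))))
  (TrL.c (I.pos (nat_lit 0) (nat_lit 0)) T2.l5
  (TrL.c (I.pos (nat_lit 0) (nat_lit 0)) (xa T0.l7 (xb (xa T0.l7 T0.l7) (xa T0.l7 T0.l7)))
  (TrL.c (I.pos (nat_lit 0) (nat_lit 0)) T2.l6
  (TrL.c (I.pos (nat_lit 0) (nat_lit 0)) (xa (xb T0.l8 (xs T0.l8 T0.l8)) (xb (xa T0.l8 T0.l8) (xs T0.l8 (xa T0.l8 T0.l8))))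
  TrL.n)))))) (by decide +kernel)
theorem bx1_9 : BoxOK sI cl4 cl13 cl4 t2 t0 b1_9 :=
  box_mk (TrL.c (I.pos (nat_lit 0) (nat_lit 0)) (xb (xa (xb (xa T2.l9 T2.l9) (xa T2.l9 T2.l9)) (xb (xa T2.l9 T2.l9) (xa T2.l9 T2.l9))) (xa (xb (xa T2.l9 T2.l9) (xa T2.l9 T2.l9)) (xb T2.l9 (xa T2.l9 T2.l9))))
  (TrL.c (I.pos (nat_lit 0) (nat_lit 0)) (xb (xa T0.l6 T0.l6) (xa T0.l6 T0.l6))
  (TrL.c (I.pos (nat_lit 0) (nat_lit 0)) T2.l5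
  (TrL.c (I.pos (nat_lit 0) (nat_lit 0)) (xb (xa T0.l7 T0.l7) T0.l7)
  (TrL.c (I.pos (nat_lit 0) (nat_lit 0)) T2.l10
  (TrL.c (I.pos (nat_lit 0) (nat_lit 0)) (xb (xa T0.l8 T0.l8) (xa T0.l8 T0.l8))
  TrL.n)))))) (by decide +kernel)
theorem bx1_10 : BoxOK sI cl4 cl13 cl4 t2 t0 b1_10 :=
  box_mk (TrL.c (I.pos (nat_lit 0) (nat_lit 0)) T2.l0
  (TrL.c (I.pos (nat_lit 0) (nat_lit 0)) T0.l6
  (TrL.c (I.pos (nat_lit 0) (nat_lit 0)) T2.l5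
  (TrL.c (I.pos (nat_lit 0) (nat_lit 0)) T0.l7
  (TrL.c (I.pos (nat_lit 0) (nat_lit 0)) T2.l8
  (TrL.c (I.pos (nat_lit 0) (nat_lit 0)) T0.l8
  TrL.n)))))) (by decide +kernel)
theorem bx1_11 : BoxOK sI cl4 cl13 cl4 t2 t0 b1_11 :=
  box_mk (TrL.c (I.pos (nat_lit 0) (nat_lit 0)) T2.l7
  (TrL.c (I.pos (nat_lit 0) (nat_lit 0)) T0.l6
  (TrL.c (I.pos (nat_lit 0) (nat_lit 0)) T2.l5
  (TrL.c (I.pos (nat_lit 0) (nat_lit 0)) T0.l7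
  (TrL.c (I.pos (nat_lit 0) (nat_lit 0)) T2.l8
  (TrL.c (I.pos (nat_lit 0) (nat_lit 0)) T0.l8
  TrL.n)))))) (by decide +kernel)
theorem bx1_12 : BoxOK sI cl4 cl13 cl4 t2 t0 b1_12 :=
  box_mk (TrL.c (I.pos (nat_lit 0) (nat_lit 0)) (xa T2.l7 T2.l7)
  (TrL.c (I.pos (nat_lit 0) (nat_lit 0)) (xa T0.l6 T0.l6)
  (TrL.c (I.pos (nat_lit 0) (nat_lit 0)) T2.l5
  (TrL.c (I.pos (nat_lit 0) (nat_lit 0)) (xa T0.l7 T0.l7)
  (TrL.c (I.pos (nat_lit 0) (nat_lit 0)) T2.l8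
  (TrL.c (I.pos (nat_lit 0) (nat_lit 0)) (xa T0.l8 T0.l8)
  TrL.n)))))) (by decide +kernel)
theorem bx1_13 : BoxOK sI cl4 cl13 cl4 t2 t0 b1_13 :=
  box_mk (TrL.c (I.pos (nat_lit 0) (nat_lit 0)) T2.l7
  (TrL.c (I.pos (nat_lit 0) (nat_lit 0)) T0.l6
  (TrL.c (I.pos (nat_lit 0) (nat_lit 0)) T2.l5
  (TrL.c (I.pos (nat_lit 0) (nat_lit 0)) T0.l7
  (TrL.c (I.pos (nat_lit 0) (nat_lit 0)) T2.l8
  (TrL.c (I.pos (nat_lit 0) (nat_lit 0)) T0.l8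
  TrL.n)))))) (by decide +kernel)
theorem bx1_14 : BoxOK sI cl4 cl13 cl4 t2 t0 b1_14 :=
  box_mk (TrL.c (I.pos (nat_lit 0) (nat_lit 0)) (xa (xb T2.l0 T2.l0) T2.l2)
  (TrL.c (I.pos (nat_lit 0) (nat_lit 0)) (xa T0.l6 T0.l6)
  (TrL.c (I.pos (nat_lit 0) (nat_lit 0)) T2.l3
  (TrL.c (I.pos (nat_lit 0) (nat_lit 0)) T0.l0
  (TrL.c (I.pos (nat_lit 0) (nat_lit 0)) T2.l1
  (TrL.c (I.pos (nat_lit 0) (nat_lit 0)) (xa T0.l8 T0.l8)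
  TrL.n)))))) (by decide +kernel)
theorem bx1_15 : BoxOK sI cl4 cl13 cl4 t2 t0 b1_15 :=
  box_mk (TrL.c (I.pos (nat_lit 0) (nat_lit 0)) T2.l0
  (TrL.c (I.pos (nat_lit 0) (nat_lit 0)) T0.l6
  (TrL.c (I.pos (nat_lit 0) (nat_lit 0)) T2.l5
  (TrL.c (I.pos (nat_lit 0) (nat_lit 0)) T0.l7
  (TrL.c (I.pos (nat_lit 0) (nat_lit 0)) T2.l10
  (TrL.c (I.pos (nat_lit 0) (nat_lit 0)) T0.l8
  TrL.n)))))) (by decide +kernel)
theorem sv1 : StarV sI cl4 cl13 cl4 t2 t0 t1 :=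
  (bt_n (bt_n (bt_n (bt_n (bt_b bx1_0) (bt_b bx1_1)) (bt_n (bt_b bx1_2) (bt_b bx1_3))) (bt_n (bt_n (bt_b bx1_4) (bt_b bx1_5)) (bt_n (bt_b bx1_6) (bt_b bx1_7)))) (bt_n (bt_n (bt_n (bt_b bx1_8) (bt_b bx1_9)) (bt_n (bt_b bx1_10) (bt_b bx1_11))) (bt_n (bt_n (bt_b bx1_12) (bt_b bx1_13)) (bt_n (bt_b bx1_14) (bt_b bx1_15)))))
def S1 : StarD := StarD.mk cl4 cl13 cl4 2 0 t1
theorem bx2_0 : BoxOK sI cl13 cl4 cl4 t1 t1 b2_0 :=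
  box_mk (TrL.c (I.pos (nat_lit 0) (nat_lit 0)) (xa (xb T1.l8 (xa T1.l8 T1.l8)) (xb (xa T1.l0 T1.l0) (xa (xs T1.l0 T1.l0) (xs T1.l0 T1.l0))))
  (TrL.c (I.pos (nat_lit 0) (nat_lit 0)) (xa T1.l1 T1.l1)
  (TrL.c (I.pos (nat_lit 0) (nat_lit 134217730)) (xR T1.l6 (xR T1.l2 (xR T1.l2 T1.l2)))
  (TrL.c (I.pos (nat_lit 0) (nat_lit 110514882)) (xR T1.l3 (xR T1.l3 T1.l3))
  (TrL.c (I.pos (nat_lit 0) (nat_lit 0)) (xa T1.l4 (xb T1.l4 T1.l4))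
  (TrL.c (I.pos (nat_lit 0) (nat_lit 0)) T1.l5
  (TrL.c (I.mix (nat_lit 8088324) (nat_lit 110514882)) (xR T1.l6 (xR T1.l6 T1.l6))
  (TrL.c (I.mix (nat_lit 8088324) (nat_lit 89478486)) (xR T1.l7 T1.l7)
  TrL.n)))))))) (by decide +kernel)
theorem bx2_1 : BoxOK sI cl13 cl4 cl4 t1 t1 b2_1 :=
  box_mk (TrL.c (I.pos (nat_lit 0) (nat_lit 0)) (xb (xa T1.l8 T1.l8) (xa T1.l8 T1.l8))
  (TrL.c (I.pos (nat_lit 0) (nat_lit 0)) T1.l1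
  (TrL.c (I.pos (nat_lit 0) (nat_lit 134217730)) (xR T1.l2 T1.l2)
  (TrL.c (I.pos (nat_lit 0) (nat_lit 110514882)) (xR T1.l3 (xR T1.l3 T1.l6))
  (TrL.c (I.pos (nat_lit 0) (nat_lit 0)) T1.l9
  (TrL.c (I.pos (nat_lit 0) (nat_lit 0)) T1.l5
  (TrL.c (I.mix (nat_lit 8088324) (nat_lit 110514882)) (xR T1.l6 T1.l6)
  (TrL.c (I.mix (nat_lit 8088324) (nat_lit 89478486)) T1.l6
  TrL.n)))))))) (by decide +kernel)
theorem bx2_2 : BoxOK sI cl13 cl4 cl4 t1 t1 b2_2 :=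
  box_mk (TrL.c (I.pos (nat_lit 0) (nat_lit 0)) (xb (xa (xb T1.l8 T1.l8) (xb T1.l8 T1.l8)) (xa (xb T1.l8 (xa T1.l8 T1.l8)) (xb T1.l8 (xa T1.l8 T1.l8))))
  (TrL.c (I.pos (nat_lit 0) (nat_lit 0)) (xb (xa T1.l1 T1.l1) (xa T1.l1 (xk T1.l1 T1.l1)))
  (TrL.c (I.pos (nat_lit 0) (nat_lit 134217730)) (xR T1.l2 (xR T1.l2 (xR T1.l2 (xb T1.l2 T1.l2))))
  (TrL.c (I.pos (nat_lit 0) (nat_lit 110514882)) (xR T1.l3 (xR T1.l3 (xR T1.l3 T1.l3)))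
  (TrL.c (I.pos (nat_lit 0) (nat_lit 0)) (xb (xa T1.l9 T1.l9) (xa T1.l9 (xb T1.l9 (xk T1.l4 T1.l4))))
  (TrL.c (I.pos (nat_lit 0) (nat_lit 0)) T1.l5
  (TrL.c (I.mix (nat_lit 8088324) (nat_lit 110514882)) (xR T1.l6 (xR T1.l6 (xR T1.l6 T1.l6)))
  (TrL.c (I.mix (nat_lit 8088324) (nat_lit 89478486)) (xR T1.l7 (xR T1.l7 (xR T1.l7 T1.l7)))
  TrL.n)))))))) (by decide +kernel)
theorem bx2_3 : BoxOK sI cl13 cl4 cl4 t1 t1 b2_3 :=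
  box_mk (TrL.c (I.pos (nat_lit 0) (nat_lit 0)) T1.l1
  (TrL.c (I.pos (nat_lit 0) (nat_lit 0)) T1.l2
  (TrL.c (I.mix (nat_lit 8088324) (nat_lit 110514882)) (xR T1.l12 (xR T1.l12 (xR T1.l12 T1.l3)))
  (TrL.c (I.mix (nat_lit 8088324) (nat_lit 89478486)) (xR T1.l6 T1.l2)
  TrL.n)))) (by decide +kernel)
theorem bx2_4 : BoxOK sI cl13 cl4 cl4 t1 t1 b2_4 :=
  box_mk (TrL.c (I.pos (nat_lit 0) (nat_lit 0)) T1.l8
  (TrL.c (I.pos (nat_lit 0) (nat_lit 0)) T1.l1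
  (TrL.c (I.pos (nat_lit 0) (nat_lit 134217730)) (xR T1.l2 T1.l2)
  (TrL.c (I.pos (nat_lit 0) (nat_lit 110514882)) (xR T1.l3 T1.l3)
  (TrL.c (I.pos (nat_lit 0) (nat_lit 0)) T1.l9
  (TrL.c (I.pos (nat_lit 0) (nat_lit 0)) T1.l5
  (TrL.c (I.mix (nat_lit 8088324) (nat_lit 110514882)) T1.l6
  (TrL.c (I.mix (nat_lit 8088324) (nat_lit 89478486)) T1.l7
  TrL.n)))))))) (by decide +kernel)
theorem bx2_5 : BoxOK sI cl13 cl4 cl4 t1 t1 b2_5 :=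
  box_mk (TrL.c (I.pos (nat_lit 0) (nat_lit 0)) (xb T1.l10 T1.l10)
  (TrL.c (I.pos (nat_lit 0) (nat_lit 0)) T1.l11
  (TrL.c (I.mix (nat_lit 8088324) (nat_lit 110514882)) (xR T1.l6 T1.l6)
  (TrL.c (I.mix (nat_lit 8088324) (nat_lit 89478486)) (xR T1.l6 T1.l2)
  TrL.n)))) (by decide +kernel)
theorem bx2_6 : BoxOK sI cl13 cl4 cl4 t1 t1 b2_6 :=
  box_mk (TrL.c (I.pos (nat_lit 0) (nat_lit 0)) (xb T1.l14 T1.l14)
  (TrL.c (I.pos (nat_lit 0) (nat_lit 0)) T1.l1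
  (TrL.c (I.pos (nat_lit 0) (nat_lit 134217730)) (xR T1.l2 T1.l2)
  (TrL.c (I.pos (nat_lit 0) (nat_lit 110514882)) T1.l6
  (TrL.c (I.pos (nat_lit 0) (nat_lit 0)) T1.l9
  (TrL.c (I.pos (nat_lit 0) (nat_lit 0)) T1.l5
  (TrL.c (I.mix (nat_lit 8088324) (nat_lit 110514882)) T1.l6
  (TrL.c (I.mix (nat_lit 8088324) (nat_lit 89478486)) T1.l2
  TrL.n)))))))) (by decide +kernel)
theorem bx2_7 : BoxOK sI cl13 cl4 cl4 t1 t1 b2_7 :=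
  box_mk (TrL.c (I.pos (nat_lit 0) (nat_lit 0)) (xa (xb T1.l0 (xa T1.l0 T1.l0)) (xa (xb T1.l0 T1.l0) (xb T1.l0 T1.l0)))
  (TrL.c (I.pos (nat_lit 0) (nat_lit 0)) (xa T1.l1 (xk T1.l1 T1.l1))
  (TrL.c (I.pos (nat_lit 0) (nat_lit 134217730)) (xR T1.l6 T1.l6)
  (TrL.c (I.pos (nat_lit 0) (nat_lit 110514882)) (xR T1.l6 (xR T1.l3 (xR T1.l3 T1.l3)))
  (TrL.c (I.pos (nat_lit 0) (nat_lit 0)) (xa (xb T1.l4 T1.l4) (xb (xk (xa T1.l4 T1.l4) (xa T1.l4 T1.l4)) (xk (xa T1.l4 T1.l4) (xa T1.l4 T1.l4))))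
  (TrL.c (I.pos (nat_lit 0) (nat_lit 0)) (xk T1.l5 T1.l5)
  (TrL.c (I.mix (nat_lit 8088324) (nat_lit 110514882)) (xR T1.l6 (xR T1.l6 (xR T1.l6 T1.l6)))
  (TrL.c (I.mix (nat_lit 8088324) (nat_lit 89478486)) (xR T1.l7 (xR T1.l7 T1.l7))
  TrL.n)))))))) (by decide +kernel)
theorem bx2_8 : BoxOK sI cl13 cl4 cl4 t1 t1 b2_8 :=
  box_mk (TrL.c (I.pos (nat_lit 0) (nat_lit 0)) (xa T1.l14 T1.l14)
  (TrL.c (I.pos (nat_lit 0) (nat_lit 0)) T1.l10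
  (TrL.c (I.pos (nat_lit 0) (nat_lit 134217730)) (xR T1.l2 T1.l2)
  (TrL.c (I.pos (nat_lit 0) (nat_lit 110514882)) T1.l6
  (TrL.c (I.pos (nat_lit 0) (nat_lit 0)) T1.l15
  (TrL.c (I.pos (nat_lit 0) (nat_lit 0)) T1.l5
  (TrL.c (I.mix (nat_lit 8088324) (nat_lit 110514882)) T1.l6
  (TrL.c (I.mix (nat_lit 8088324) (nat_lit 89478486)) T1.l6
  TrL.n)))))))) (by decide +kernel)
theorem bx2_9 : BoxOK sI cl13 cl4 cl4 t1 t1 b2_9 :=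
  box_mk (TrL.c (I.pos (nat_lit 0) (nat_lit 0)) (xa (xb T1.l8 (xs T1.l0 T1.l8)) (xb T1.l0 (xs T1.l0 (xa T1.l0 T1.l0))))
  (TrL.c (I.pos (nat_lit 0) (nat_lit 0)) (xk T1.l1 T1.l1)
  (TrL.c (I.pos (nat_lit 0) (nat_lit 134217730)) (xR T1.l2 T1.l2)
  (TrL.c (I.pos (nat_lit 0) (nat_lit 110514882)) (xR T1.l3 T1.l3)
  (TrL.c (I.pos (nat_lit 0) (nat_lit 0)) (xk T1.l4 (xb T1.l4 T1.l4))
  (TrL.c (I.pos (nat_lit 0) (nat_lit 0)) T1.l5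
  (TrL.c (I.mix (nat_lit 8088324) (nat_lit 110514882)) (xR T1.l6 T1.l6)
  (TrL.c (I.mix (nat_lit 8088324) (nat_lit 89478486)) T1.l7
  TrL.n)))))))) (by decide +kernel)
theorem bx2_10 : BoxOK sI cl13 cl4 cl4 t1 t1 b2_10 :=
  box_mk (TrL.c (I.pos (nat_lit 0) (nat_lit 0)) T1.l8
  (TrL.c (I.pos (nat_lit 0) (nat_lit 0)) T1.l1
  (TrL.c (I.pos (nat_lit 0) (nat_lit 134217730)) (xR T1.l2 T1.l2)
  (TrL.c (I.pos (nat_lit 0) (nat_lit 110514882)) T1.l6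
  (TrL.c (I.pos (nat_lit 0) (nat_lit 0)) T1.l9
  (TrL.c (I.pos (nat_lit 0) (nat_lit 0)) T1.l5
  (TrL.c (I.mix (nat_lit 8088324) (nat_lit 110514882)) T1.l6
  (TrL.c (I.mix (nat_lit 8088324) (nat_lit 89478486)) T1.l2
  TrL.n)))))))) (by decide +kernel)
theorem sv2 : StarV sI cl13 cl4 cl4 t1 t1 t2 :=
  (bt_n (bt_n (bt_n (bt_b bx2_0) (bt_b bx2_1)) (bt_n (bt_b bx2_2) (bt_n (bt_b bx2_3) (bt_b bx2_4)))) (bt_n (bt_n (bt_b bx2_5) (bt_n (bt_b bx2_6) (bt_b bx2_7))) (bt_n (bt_b bx2_8) (bt_n (bt_b bx2_9) (bt_b bx2_10)))))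
def S2 : StarD := StarD.mk cl13 cl4 cl4 1 1 t2
def G : List StarD := [S0, S1, S2]
theorem so0 : StarOK sI G S0 :=
  star_mk (by decide) (by decide) rfl rfl rfl rfl rfl rfl (rfl : _ = t0) (rfl : _ = t2)
  (st_mk (Pth.l (Pth.l (Pth.l Pth.z))) (nat_lit 385689501) (nat_lit 390711277) (by decide +kernel))
  (st_mk (Pth.l (Pth.l (Pth.l Pth.z))) (nat_lit 425005229) (nat_lit 431195259) (by decide +kernel))
  (st_mk (Pth.l (Pth.l (Pth.l Pth.z))) (nat_lit 470982083) (nat_lit 478722408) (by decide +kernel)) sv0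
theorem so1 : StarOK sI G S1 :=
  star_mk (by decide) (by decide) rfl rfl rfl rfl rfl rfl (rfl : _ = t2) (rfl : _ = t0)
  (st_mk (Pth.l (Pth.l (Pth.l (Pth.l Pth.z)))) (nat_lit 98934773) (nat_lit 118767957) (by decide +kernel))
  (st_mk (Pth.l (Pth.l (Pth.l (Pth.l Pth.z)))) (nat_lit 136619437) (nat_lit 157404226) (by decide +kernel))
  (st_mk (Pth.l (Pth.l (Pth.l (Pth.l Pth.z)))) (nat_lit 181343336) (nat_lit 203509487) (by decide +kernel)) sv1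
theorem so2 : StarOK sI G S2 :=
  star_mk (by decide) (by decide) rfl rfl rfl rfl rfl rfl (rfl : _ = t1) (rfl : _ = t1)
  (st_mk (Pth.l (Pth.l (Pth.l Pth.z))) (nat_lit 364798899) (nat_lit 368263608) (by decide +kernel))
  (st_mk (Pth.l (Pth.l (Pth.l Pth.z))) (nat_lit 399695508) (nat_lit 403750592) (by decide +kernel))
  (st_mk (Pth.l (Pth.l (Pth.l Pth.z))) (nat_lit 439960827) (nat_lit 444765920) (by decide +kernel)) sv2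
theorem ok : GroupOK (nat_lit 91226112) (nat_lit 150339584) G := grp_mk (allS_c so0 (allS_c so1 (allS_c so2 allS_n)))
theorem cov : GCov G cl4 cl4 cl13 := cov_mk
  ⟨0, by decide, rfl, rfl, rfl⟩ ⟨1, by decide, rfl, rfl, rfl⟩ ⟨0, by decide, rfl, rfl, rfl⟩ ⟨1, by decide, rfl, rfl, rfl⟩ ⟨2, by decide, rfl, rfl, rfl⟩ ⟨2, by decide, rfl, rfl, rfl⟩
end Q116_1

namespace Q116_2
def sI : I := I.pos (nat_lit 150274048) (nat_lit 209387520)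
def b0_0 : Bx := Bx.mk (St.mk (I.pos (nat_lit 153468928) (nat_lit 220479488)) (I.mix (nat_lit 278528) (nat_lit 101564416)) (I.mix (nat_lit 56115200) (nat_lit 39124992)) (I.pos (nat_lit 388743168) (nat_lit 491585536)) (I.mix (nat_lit 155385856) (nat_lit 118456320)) (I.mix (nat_lit 104808448) (nat_lit 107036672)) (I.mix (nat_lit 165789696) (nat_lit 159989760)))
  false (nat_lit 100774749)
def b0_1 : Bx := Bx.mk (St.mk (I.mix (nat_lit 44515328) (nat_lit 7012352)) (I.mix (nat_lit 15171584) (nat_lit 79609856)) (I.neg (nat_lit 78446592) (nat_lit 107200512)) (I.pos (nat_lit 255344640) (nat_lit 285507584)) (I.mix (nat_lit 73416704) (nat_lit 146538496)) (I.mix (nat_lit 113508352) (nat_lit 80871424)) (I.mix (nat_lit 51838976) (nat_lit 56131584)))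
  true (nat_lit 0)
def b0_2 : Bx := Bx.mk (St.mk (I.mix (nat_lit 2981888) (nat_lit 44515328)) (I.neg (nat_lit 27459584) (nat_lit 79609856)) (I.neg (nat_lit 78446592) (nat_lit 107462656)) (I.pos (nat_lit 257769472) (nat_lit 285507584)) (I.mix (nat_lit 146538496) (nat_lit 47923200)) (I.mix (nat_lit 80871424) (nat_lit 111509504)) (I.mix (nat_lit 51838976) (nat_lit 56131584)))
  false (nat_lit 56167785)
def b0_3 : Bx := Bx.mk (St.mk (I.mix (nat_lit 22347776) (nat_lit 6144000)) (I.mix (nat_lit 18038784) (nat_lit 18415616)) (I.neg (nat_lit 79904768) (nat_lit 92045312)) (I.pos (nat_lit 256655360) (nat_lit 270073856)) (I.mix (nat_lit 67321856) (nat_lit 63897600)) (I.mix (nat_lit 58703872) (nat_lit 53329920)) (I.mix (nat_lit 3407872) (nat_lit 25690112)))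
  true (nat_lit 0)
def b0_4 : Bx := Bx.mk (St.mk (I.pos (nat_lit 201211904) (nat_lit 255623168)) (I.mix (nat_lit 24592384) (nat_lit 23330816)) (I.neg (nat_lit 116588544) (nat_lit 207519744)) (I.pos (nat_lit 427638784) (nat_lit 526794752)) (I.mix (nat_lit 146898944) (nat_lit 83771392)) (I.mix (nat_lit 114163712) (nat_lit 115130368)) (I.mix (nat_lit 155172864) (nat_lit 236126208)))
  false (nat_lit 53912096)
def b0_5 : Bx := Bx.mk (St.mk (I.mix (nat_lit 4636672) (nat_lit 22167552)) (I.mix (nat_lit 12435456) (nat_lit 14958592)) (I.neg (nat_lit 79953920) (nat_lit 92045312)) (I.pos (nat_lit 256737280) (nat_lit 270057472)) (I.mix (nat_lit 42270720) (nat_lit 55967744)) (I.mix (nat_lit 40435712) (nat_lit 47071232)) (I.mix (nat_lit 2244608) (nat_lit 24526848)))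
  false (nat_lit 0)
def b0_6 : Bx := Bx.mk (St.mk (I.pos (nat_lit 2850816) (nat_lit 115261440)) (I.neg (nat_lit 5013504) (nat_lit 80838656)) (I.neg (nat_lit 44367872) (nat_lit 113295360)) (I.pos (nat_lit 256000000) (nat_lit 328515584)) (I.mix (nat_lit 141262848) (nat_lit 80396288)) (I.mix (nat_lit 79888384) (nat_lit 111165440)) (I.mix (nat_lit 85983232) (nat_lit 100155392)))
  false (nat_lit 75070021)
def b0_7 : Bx := Bx.mk (St.mk (I.pos (nat_lit 91684864) (nat_lit 199458816)) (I.mix (nat_lit 37109760) (nat_lit 81330176)) (I.mix (nat_lit 83607552) (nat_lit 31244288)) (I.pos (nat_lit 301629440) (nat_lit 455016448)) (I.mix (nat_lit 165675008) (nat_lit 134103040)) (I.mix (nat_lit 166281216) (nat_lit 133398528)) (I.mix (nat_lit 167460864) (nat_lit 144769024)))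
  false (nat_lit 89653579)
def b0_8 : Bx := Bx.mk (St.mk (I.neg (nat_lit 2834432) (nat_lit 115212288)) (I.pos (nat_lit 5013504) (nat_lit 80904192)) (I.neg (nat_lit 44367872) (nat_lit 113295360)) (I.pos (nat_lit 256000000) (nat_lit 328466432)) (I.mix (nat_lit 80412672) (nat_lit 141279232)) (I.mix (nat_lit 111181824) (nat_lit 79904768)) (I.mix (nat_lit 85999616) (nat_lit 100171776)))
  true (nat_lit 0)
def b0_9 : Bx := Bx.mk (St.mk (I.pos (nat_lit 186269696) (nat_lit 249659392)) (I.mix (nat_lit 22904832) (nat_lit 46268416)) (I.neg (nat_lit 68141056) (nat_lit 198148096)) (I.pos (nat_lit 416235520) (nat_lit 511131648)) (I.mix (nat_lit 157597696) (nat_lit 93224960)) (I.mix (nat_lit 120520704) (nat_lit 123011072)) (I.mix (nat_lit 164659200) (nat_lit 234749952)))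
  false (nat_lit 93274674)
def b0_10 : Bx := Bx.mk (St.mk (I.mix (nat_lit 1818624) (nat_lit 32030720)) (I.mix (nat_lit 31801344) (nat_lit 15171584)) (I.neg (nat_lit 79314944) (nat_lit 95715328)) (I.pos (nat_lit 255803392) (nat_lit 273022976)) (I.mix (nat_lit 67190784) (nat_lit 68861952)) (I.mix (nat_lit 57114624) (nat_lit 60440576)) (I.mix (nat_lit 13778944) (nat_lit 33472512)))
  false (nat_lit 0)
def b0_11 : Bx := Bx.mk (St.mk (I.pos (nat_lit 167608320) (nat_lit 242712576)) (I.pos (nat_lit 15548416) (nat_lit 92880896)) (I.mix (nat_lit 110510080) (nat_lit 14434304)) (I.pos (nat_lit 411910144) (nat_lit 516866048)) (I.mix (nat_lit 157876224) (nat_lit 150585344)) (I.mix (nat_lit 144965632) (nat_lit 132153344)) (I.mix (nat_lit 251084800) (nat_lit 183336960)))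
  false (nat_lit 97522240)
def b0_12 : Bx := Bx.mk (St.mk (I.mix (nat_lit 7012352) (nat_lit 37273600)) (I.neg (nat_lit 10289152) (nat_lit 65568768)) (I.neg (nat_lit 81215488) (nat_lit 104890368)) (I.pos (nat_lit 255328256) (nat_lit 279642112)) (I.mix (nat_lit 137379840) (nat_lit 73416704)) (I.mix (nat_lit 73990144) (nat_lit 113508352)) (I.mix (nat_lit 39567360) (nat_lit 49020928)))
  false (nat_lit 23181176)
def t0 : BTr := (BTr.n (BTr.n (BTr.n (BTr.b b0_0) (BTr.n (BTr.b b0_1) (BTr.b b0_2))) (BTr.n (BTr.b b0_3) (BTr.n (BTr.b b0_4) (BTr.b b0_5)))) (BTr.n (BTr.n (BTr.b b0_6) (BTr.n (BTr.b b0_7) (BTr.b b0_8))) (BTr.n (BTr.n (BTr.b b0_9) (BTr.b b0_10)) (BTr.n (BTr.b b0_11) (BTr.b b0_12)))))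
namespace T0
def l0 : Tr := Tr.L (Pth.l (Pth.l (Pth.l Pth.z)))
def l1 : Tr := Tr.L (Pth.l (Pth.l (Pth.r (Pth.l Pth.z))))
def l2 : Tr := Tr.L (Pth.l (Pth.l (Pth.r (Pth.r Pth.z))))
def l3 : Tr := Tr.L (Pth.l (Pth.r (Pth.l Pth.z)))
def l4 : Tr := Tr.L (Pth.l (Pth.r (Pth.r (Pth.l Pth.z))))
def l5 : Tr := Tr.L (Pth.l (Pth.r (Pth.r (Pth.r Pth.z))))
def l6 : Tr := Tr.L (Pth.r (Pth.l (Pth.l Pth.z)))
def l7 : Tr := Tr.L (Pth.r (Pth.l (Pth.r (Pth.l Pth.z))))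
def l8 : Tr := Tr.L (Pth.r (Pth.l (Pth.r (Pth.r Pth.z))))
def l9 : Tr := Tr.L (Pth.r (Pth.r (Pth.l (Pth.l Pth.z))))
def l10 : Tr := Tr.L (Pth.r (Pth.r (Pth.l (Pth.r Pth.z))))
def l11 : Tr := Tr.L (Pth.r (Pth.r (Pth.r (Pth.l Pth.z))))
def l12 : Tr := Tr.L (Pth.r (Pth.r (Pth.r (Pth.r Pth.z))))
end T0
def b1_0 : Bx := Bx.mk (St.mk (I.pos (nat_lit 160514048) (nat_lit 230998016)) (I.mix (nat_lit 278528) (nat_lit 45760512)) (I.mix (nat_lit 278528) (nat_lit 85393408)) (I.pos (nat_lit 99467264) (nat_lit 221462528)) (I.mix (nat_lit 105529344) (nat_lit 61423616)) (I.mix (nat_lit 79413248) (nat_lit 69009408)) (I.mix (nat_lit 116932608) (nat_lit 92454912)))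
  false (nat_lit 15907423)
def b1_1 : Bx := Bx.mk (St.mk (I.pos (nat_lit 116391936) (nat_lit 170344448)) (I.neg (nat_lit 131072) (nat_lit 48480256)) (I.neg (nat_lit 475136) (nat_lit 47235072)) (I.pos (nat_lit 70156288) (nat_lit 125583360)) (I.mix (nat_lit 80576512) (nat_lit 61161472)) (I.mix (nat_lit 56672256) (nat_lit 69894144)) (I.mix (nat_lit 53231616) (nat_lit 78184448)))
  false (nat_lit 57917118)
def b1_2 : Bx := Bx.mk (St.mk (I.mix (nat_lit 4472832) (nat_lit 133234688)) (I.mix (nat_lit 4947968) (nat_lit 20725760)) (I.mix (nat_lit 5701632) (nat_lit 19595264)) (I.mix (nat_lit 557056) (nat_lit 84049920)) (I.mix (nat_lit 41041920) (nat_lit 41664512)) (I.mix (nat_lit 41156608) (nat_lit 31277056)) (I.mix (nat_lit 36503552) (nat_lit 26836992)))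
  false (nat_lit 0)
def b1_3 : Bx := Bx.mk (St.mk (I.mix (nat_lit 5210112) (nat_lit 109002752)) (I.mix (nat_lit 24592384) (nat_lit 2801664)) (I.mix (nat_lit 16990208) (nat_lit 1900544)) (I.mix (nat_lit 557056) (nat_lit 60456960)) (I.mix (nat_lit 39256064) (nat_lit 34209792)) (I.mix (nat_lit 25378816) (nat_lit 36274176)) (I.mix (nat_lit 17793024) (nat_lit 26460160)))
  false (nat_lit 0)
def b1_4 : Bx := Bx.mk (St.mk (I.pos (nat_lit 162201600) (nat_lit 208437248)) (I.mix (nat_lit 18776064) (nat_lit 43139072)) (I.mix (nat_lit 1654784) (nat_lit 79183872)) (I.pos (nat_lit 108052480) (nat_lit 189595648)) (I.mix (nat_lit 139640832) (nat_lit 52117504)) (I.mix (nat_lit 136527872) (nat_lit 65093632)) (I.mix (nat_lit 158629888) (nat_lit 65388544)))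
  false (nat_lit 0)
def b1_5 : Bx := Bx.mk (St.mk (I.pos (nat_lit 114294784) (nat_lit 153911296)) (I.mix (nat_lit 44449792) (nat_lit 8470528)) (I.mix (nat_lit 44646400) (nat_lit 7061504)) (I.pos (nat_lit 54870016) (nat_lit 107446272)) (I.mix (nat_lit 90619904) (nat_lit 51019776)) (I.mix (nat_lit 48955392) (nat_lit 91635712)) (I.mix (nat_lit 43237376) (nat_lit 82821120)))
  false (nat_lit 25882917)
def b1_6 : Bx := Bx.mk (St.mk (I.mix (nat_lit 8880128) (nat_lit 128778240)) (I.mix (nat_lit 13680640) (nat_lit 27131904)) (I.mix (nat_lit 9207808) (nat_lit 25214976)) (I.mix (nat_lit 557056) (nat_lit 79446016)) (I.mix (nat_lit 58359808) (nat_lit 37601280)) (I.mix (nat_lit 57131008) (nat_lit 33734656)) (I.mix (nat_lit 42401792) (nat_lit 24117248)))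
  false (nat_lit 0)
def b1_7 : Bx := Bx.mk (St.mk (I.mix (nat_lit 8650752) (nat_lit 102236160)) (I.mix (nat_lit 21987328) (nat_lit 557056)) (I.mix (nat_lit 15597568) (nat_lit 835584)) (I.mix (nat_lit 557056) (nat_lit 56492032)) (I.mix (nat_lit 38633472) (nat_lit 23199744)) (I.mix (nat_lit 20971520) (nat_lit 36798464)) (I.mix (nat_lit 12943360) (nat_lit 22921216)))
  false (nat_lit 0)
def b1_8 : Bx := Bx.mk (St.mk (I.pos (nat_lit 198230016) (nat_lit 242450432)) (I.mix (nat_lit 12058624) (nat_lit 24346624)) (I.mix (nat_lit 23494656) (nat_lit 42926080)) (I.pos (nat_lit 178683904) (nat_lit 244219904)) (I.mix (nat_lit 111427584) (nat_lit 37715968)) (I.mix (nat_lit 71221248) (nat_lit 67813376)) (I.mix (nat_lit 123731968) (nat_lit 116834304)))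
  false (nat_lit 2857227)
def b1_9 : Bx := Bx.mk (St.mk (I.pos (nat_lit 161054720) (nat_lit 197705728)) (I.neg (nat_lit 425984) (nat_lit 42008576)) (I.mix (nat_lit 40173568) (nat_lit 11272192)) (I.pos (nat_lit 109363200) (nat_lit 169836544)) (I.mix (nat_lit 75661312) (nat_lit 72695808)) (I.mix (nat_lit 77774848) (nat_lit 70942720)) (I.mix (nat_lit 88014848) (nat_lit 77463552)))
  false (nat_lit 62613154)
def b1_10 : Bx := Bx.mk (St.mk (I.pos (nat_lit 189153280) (nat_lit 235864064)) (I.pos (nat_lit 5799936) (nat_lit 45891584)) (I.pos (nat_lit 12877824) (nat_lit 84164608)) (I.pos (nat_lit 165855232) (nat_lit 232587264)) (I.mix (nat_lit 118095872) (nat_lit 93896704)) (I.mix (nat_lit 109690880) (nat_lit 92831744)) (I.mix (nat_lit 187498496) (nat_lit 135938048)))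
  false (nat_lit 43223886)
def b1_11 : Bx := Bx.mk (St.mk (I.pos (nat_lit 160481280) (nat_lit 202637312)) (I.mix (nat_lit 28459008) (nat_lit 17661952)) (I.mix (nat_lit 17809408) (nat_lit 40157184)) (I.pos (nat_lit 107577344) (nat_lit 173342720)) (I.mix (nat_lit 129466368) (nat_lit 87769088)) (I.mix (nat_lit 144752640) (nat_lit 92372992)) (I.mix (nat_lit 165036032) (nat_lit 100122624)))
  false (nat_lit 12880396)
def b1_12 : Bx := Bx.mk (St.mk (I.pos (nat_lit 135528448) (nat_lit 175865856)) (I.mix (nat_lit 36864000) (nat_lit 2506752)) (I.mix (nat_lit 33112064) (nat_lit 4997120)) (I.pos (nat_lit 84361216) (nat_lit 134463488)) (I.mix (nat_lit 74334208) (nat_lit 27328512)) (I.mix (nat_lit 33882112) (nat_lit 48529408)) (I.mix (nat_lit 39518208) (nat_lit 52658176)))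
  false (nat_lit 2341797)
def b1_13 : Bx := Bx.mk (St.mk (I.pos (nat_lit 105938944) (nat_lit 133316608)) (I.mix (nat_lit 8306688) (nat_lit 9256960)) (I.mix (nat_lit 9158656) (nat_lit 8339456)) (I.pos (nat_lit 48431104) (nat_lit 84000768)) (I.mix (nat_lit 36159488) (nat_lit 18743296)) (I.mix (nat_lit 21217280) (nat_lit 22839296)) (I.mix (nat_lit 19529728) (nat_lit 21413888)))
  false (nat_lit 0)
def b1_14 : Bx := Bx.mk (St.mk (I.mix (nat_lit 12009472) (nat_lit 109084672)) (I.mix (nat_lit 14090240) (nat_lit 2965504)) (I.mix (nat_lit 9125888) (nat_lit 1933312)) (I.mix (nat_lit 557056) (nat_lit 60506112)) (I.mix (nat_lit 32669696) (nat_lit 14057472)) (I.mix (nat_lit 17268736) (nat_lit 20430848)) (I.mix (nat_lit 12779520) (nat_lit 14745600)))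
  false (nat_lit 0)
def b1_15 : Bx := Bx.mk (St.mk (I.mix (nat_lit 11616256) (nat_lit 16859136)) (I.mix (nat_lit 1064960) (nat_lit 2326528)) (I.mix (nat_lit 950272) (nat_lit 770048)) (I.mix (nat_lit 557056) (nat_lit 18530304)) (I.mix (nat_lit 4456448) (nat_lit 2129920)) (I.mix (nat_lit 2031616) (nat_lit 2097152)) (I.mix (nat_lit 704512) (nat_lit 688128)))
  false (nat_lit 0)
def b1_16 : Bx := Bx.mk (St.mk (I.pos (nat_lit 200278016) (nat_lit 235798528)) (I.pos (nat_lit 3506176) (nat_lit 25804800)) (I.pos (nat_lit 8241152) (nat_lit 45137920)) (I.pos (nat_lit 184451072) (nat_lit 228982784)) (I.mix (nat_lit 85458944) (nat_lit 23461888)) (I.mix (nat_lit 50266112) (nat_lit 39567360)) (I.mix (nat_lit 85295104) (nat_lit 65765376)))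
  false (nat_lit 0)
def b1_17 : Bx := Bx.mk (St.mk (I.pos (nat_lit 206635008) (nat_lit 251838464)) (I.mix (nat_lit 14188544) (nat_lit 12468224)) (I.mix (nat_lit 28459008) (nat_lit 20283392)) (I.pos (nat_lit 193200128) (nat_lit 268042240)) (I.mix (nat_lit 93618176) (nat_lit 17317888)) (I.mix (nat_lit 42860544) (nat_lit 44908544)) (I.mix (nat_lit 79314944) (nat_lit 83296256)))
  false (nat_lit 0)
def b1_18 : Bx := Bx.mk (St.mk (I.pos (nat_lit 155811840) (nat_lit 188792832)) (I.neg (nat_lit 7487488) (nat_lit 38223872)) (I.neg (nat_lit 2555904) (nat_lit 37142528)) (I.pos (nat_lit 102596608) (nat_lit 156925952)) (I.mix (nat_lit 62799872) (nat_lit 45137920)) (I.mix (nat_lit 52051968) (nat_lit 48660480)) (I.mix (nat_lit 61784064) (nat_lit 55230464)))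
  false (nat_lit 24448254)
def b1_19 : Bx := Bx.mk (St.mk (I.pos (nat_lit 168787968) (nat_lit 192741376)) (I.neg (nat_lit 1785856) (nat_lit 26951680)) (I.mix (nat_lit 18530304) (nat_lit 11632640)) (I.pos (nat_lit 115720192) (nat_lit 160759808)) (I.mix (nat_lit 53428224) (nat_lit 35995648)) (I.mix (nat_lit 46825472) (nat_lit 41975808)) (I.mix (nat_lit 51445760) (nat_lit 47513600)))
  false (nat_lit 0)
def t1 : BTr := (BTr.n (BTr.n (BTr.n (BTr.n (BTr.b b1_0) (BTr.b b1_1)) (BTr.n (BTr.b b1_2) (BTr.n (BTr.b b1_3) (BTr.b b1_4)))) (BTr.n (BTr.n (BTr.b b1_5) (BTr.b b1_6)) (BTr.n (BTr.b b1_7) (BTr.n (BTr.b b1_8) (BTr.b b1_9))))) (BTr.n (BTr.n (BTr.n (BTr.b b1_10) (BTr.b b1_11)) (BTr.n (BTr.b b1_12) (BTr.n (BTr.b b1_13) (BTr.b b1_14)))) (BTr.n (BTr.n (BTr.b b1_15) (BTr.b b1_16)) (BTr.n (BTr.b b1_17) (BTr.n (BTr.b b1_18) (BTr.b b1_19))))))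
namespace T1
def l0 : Tr := Tr.L (Pth.l (Pth.l (Pth.l (Pth.l Pth.z))))
def l1 : Tr := Tr.L (Pth.l (Pth.l (Pth.l (Pth.r Pth.z))))
def l2 : Tr := Tr.L (Pth.l (Pth.l (Pth.r (Pth.l Pth.z))))
def l3 : Tr := Tr.L (Pth.l (Pth.l (Pth.r (Pth.r (Pth.l Pth.z)))))
def l4 : Tr := Tr.L (Pth.l (Pth.l (Pth.r (Pth.r (Pth.r Pth.z)))))
def l5 : Tr := Tr.L (Pth.l (Pth.r (Pth.l (Pth.l Pth.z))))
def l6 : Tr := Tr.L (Pth.l (Pth.r (Pth.l (Pth.r Pth.z))))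
def l7 : Tr := Tr.L (Pth.l (Pth.r (Pth.r (Pth.l Pth.z))))
def l8 : Tr := Tr.L (Pth.l (Pth.r (Pth.r (Pth.r (Pth.l Pth.z)))))
def l9 : Tr := Tr.L (Pth.l (Pth.r (Pth.r (Pth.r (Pth.r Pth.z)))))
def l10 : Tr := Tr.L (Pth.r (Pth.l (Pth.l (Pth.l Pth.z))))
def l11 : Tr := Tr.L (Pth.r (Pth.l (Pth.l (Pth.r Pth.z))))
def l12 : Tr := Tr.L (Pth.r (Pth.l (Pth.r (Pth.l Pth.z))))
def l13 : Tr := Tr.L (Pth.r (Pth.l (Pth.r (Pth.r (Pth.l Pth.z)))))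
def l14 : Tr := Tr.L (Pth.r (Pth.l (Pth.r (Pth.r (Pth.r Pth.z)))))
def l15 : Tr := Tr.L (Pth.r (Pth.r (Pth.l (Pth.l Pth.z))))
def l16 : Tr := Tr.L (Pth.r (Pth.r (Pth.l (Pth.r Pth.z))))
def l17 : Tr := Tr.L (Pth.r (Pth.r (Pth.r (Pth.l Pth.z))))
def l18 : Tr := Tr.L (Pth.r (Pth.r (Pth.r (Pth.r (Pth.l Pth.z)))))
def l19 : Tr := Tr.L (Pth.r (Pth.r (Pth.r (Pth.r (Pth.r Pth.z)))))
end T1
def b2_0 : Bx := Bx.mk (St.mk (I.pos (nat_lit 126058496) (nat_lit 215302144)) (I.mix (nat_lit 278528) (nat_lit 79298560)) (I.mix (nat_lit 278528) (nat_lit 141770752)) (I.pos (nat_lit 346587136) (nat_lit 445939712)) (I.mix (nat_lit 168165376) (nat_lit 77578240)) (I.mix (nat_lit 113311744) (nat_lit 94765056)) (I.mix (nat_lit 129728512) (nat_lit 109084672)))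
  false (nat_lit 139053033)
def b2_1 : Bx := Bx.mk (St.mk (I.pos (nat_lit 40452096) (nat_lit 113901568)) (I.neg (nat_lit 3178496) (nat_lit 95191040)) (I.mix (nat_lit 23822336) (nat_lit 61341696)) (I.pos (nat_lit 278544384) (nat_lit 325484544)) (I.mix (nat_lit 108871680) (nat_lit 119193600)) (I.mix (nat_lit 104005632) (nat_lit 101416960)) (I.mix (nat_lit 84721664) (nat_lit 88915968)))
  false (nat_lit 132599617)
def b2_2 : Bx := Bx.mk (St.mk (I.pos (nat_lit 102367232) (nat_lit 172490752)) (I.mix (nat_lit 42811392) (nat_lit 77201408)) (I.pos (nat_lit 20971520) (nat_lit 151388160)) (I.pos (nat_lit 302596096) (nat_lit 391839744)) (I.mix (nat_lit 222330880) (nat_lit 113360896)) (I.mix (nat_lit 187252736) (nat_lit 136642560)) (I.mix (nat_lit 198754304) (nat_lit 157646848)))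
  false (nat_lit 140690699)
def b2_3 : Bx := Bx.mk (St.mk (I.neg (nat_lit 40452096) (nat_lit 116555776)) (I.pos (nat_lit 2588672) (nat_lit 95191040)) (I.mix (nat_lit 23822336) (nat_lit 61341696)) (I.pos (nat_lit 278528000) (nat_lit 325484544)) (I.mix (nat_lit 119193600) (nat_lit 108855296)) (I.mix (nat_lit 101416960) (nat_lit 104038400)) (I.mix (nat_lit 84738048) (nat_lit 88932352)))
  true (nat_lit 39621469)
def b2_4 : Bx := Bx.mk (St.mk (I.pos (nat_lit 79921152) (nat_lit 118784000)) (I.neg (nat_lit 1097728) (nat_lit 40517632)) (I.pos (nat_lit 21839872) (nat_lit 62603264)) (I.pos (nat_lit 288784384) (nat_lit 326680576)) (I.mix (nat_lit 88506368) (nat_lit 76791808)) (I.mix (nat_lit 68026368) (nat_lit 74203136)) (I.mix (nat_lit 63307776) (nat_lit 61259776)))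
  false (nat_lit 0)
def b2_5 : Bx := Bx.mk (St.mk (I.mix (nat_lit 65224704) (nat_lit 8224768)) (I.mix (nat_lit 9109504) (nat_lit 87752704)) (I.mix (nat_lit 17072128) (nat_lit 6225920)) (I.pos (nat_lit 267976704) (nat_lit 301137920)) (I.mix (nat_lit 90750976) (nat_lit 99057664)) (I.mix (nat_lit 100925440) (nat_lit 81199104)) (I.mix (nat_lit 36814848) (nat_lit 27983872)))
  true (nat_lit 0)
def b2_6 : Bx := Bx.mk (St.mk (I.pos (nat_lit 28884992) (nat_lit 65224704)) (I.neg (nat_lit 37109760) (nat_lit 87752704)) (I.mix (nat_lit 17039360) (nat_lit 557056)) (I.pos (nat_lit 277282816) (nat_lit 301137920)) (I.mix (nat_lit 99057664) (nat_lit 68960256)) (I.mix (nat_lit 81199104) (nat_lit 84574208)) (I.mix (nat_lit 36814848) (nat_lit 27983872)))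
  false (nat_lit 59297428)
def b2_7 : Bx := Bx.mk (St.mk (I.pos (nat_lit 161497088) (nat_lit 215793664)) (I.pos (nat_lit 9011200) (nat_lit 45039616)) (I.pos (nat_lit 33701888) (nat_lit 93831168)) (I.pos (nat_lit 378519552) (nat_lit 438566912)) (I.mix (nat_lit 107675648) (nat_lit 63537152)) (I.mix (nat_lit 80691200) (nat_lit 62177280)) (I.mix (nat_lit 108298240) (nat_lit 90914816)))
  false (nat_lit 42149882)
def b2_8 : Bx := Bx.mk (St.mk (I.pos (nat_lit 28459008) (nat_lit 56147968)) (I.neg (nat_lit 13598720) (nat_lit 48644096)) (I.mix (nat_lit 4718592) (nat_lit 6225920)) (I.pos (nat_lit 272941056) (nat_lit 285278208)) (I.mix (nat_lit 44679168) (nat_lit 64733184)) (I.mix (nat_lit 46628864) (nat_lit 45973504)) (I.mix (nat_lit 11403264) (nat_lit 14270464)))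
  false (nat_lit 0)
def b2_9 : Bx := Bx.mk (St.mk (I.pos (nat_lit 185778176) (nat_lit 279805952)) (I.mix (nat_lit 6995968) (nat_lit 57229312)) (I.mix (nat_lit 18513920) (nat_lit 108052480)) (I.pos (nat_lit 413024256) (nat_lit 558137344)) (I.mix (nat_lit 77283328) (nat_lit 61800448)) (I.mix (nat_lit 60211200) (nat_lit 56770560)) (I.mix (nat_lit 95879168) (nat_lit 86720512)))
  false (nat_lit 106203889)
def b2_10 : Bx := Bx.mk (St.mk (I.mix (nat_lit 5783552) (nat_lit 35831808)) (I.mix (nat_lit 42369024) (nat_lit 3031040)) (I.mix (nat_lit 6914048) (nat_lit 966656)) (I.pos (nat_lit 267763712) (nat_lit 278822912)) (I.mix (nat_lit 31064064) (nat_lit 25755648)) (I.mix (nat_lit 23986176) (nat_lit 24936448)) (I.mix (nat_lit 6635520) (nat_lit 5652480)))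
  false (nat_lit 0)
def b2_11 : Bx := Bx.mk (St.mk (I.pos (nat_lit 240910336) (nat_lit 273022976)) (I.mix (nat_lit 19742720) (nat_lit 14712832)) (I.mix (nat_lit 38518784) (nat_lit 27033600)) (I.pos (nat_lit 495435776) (nat_lit 544145408)) (I.mix (nat_lit 65945600) (nat_lit 47726592)) (I.mix (nat_lit 50266112) (nat_lit 52887552)) (I.mix (nat_lit 78462976) (nat_lit 86589440)))
  false (nat_lit 1171393)
def b2_12 : Bx := Bx.mk (St.mk (I.mix (nat_lit 2326528) (nat_lit 33243136)) (I.mix (nat_lit 30179328) (nat_lit 8978432)) (I.mix (nat_lit 4849664) (nat_lit 2260992)) (I.pos (nat_lit 267812864) (nat_lit 276185088)) (I.mix (nat_lit 21282816) (nat_lit 28377088)) (I.mix (nat_lit 21413888) (nat_lit 18989056)) (I.mix (nat_lit 3981312) (nat_lit 4603904)))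
  false (nat_lit 0)
def b2_13 : Bx := Bx.mk (St.mk (I.pos (nat_lit 139640832) (nat_lit 197197824)) (I.pos (nat_lit 26017792) (nat_lit 77676544)) (I.pos (nat_lit 63307776) (nat_lit 139493376)) (I.pos (nat_lit 358121472) (nat_lit 415334400)) (I.mix (nat_lit 157614080) (nat_lit 103792640)) (I.mix (nat_lit 135102464) (nat_lit 77561856)) (I.mix (nat_lit 185925632) (nat_lit 109264896)))
  false (nat_lit 68515902)
def b2_14 : Bx := Bx.mk (St.mk (I.pos (nat_lit 29835264) (nat_lit 63242240)) (I.neg (nat_lit 26394624) (nat_lit 76087296)) (I.mix (nat_lit 15564800) (nat_lit 5488640)) (I.pos (nat_lit 277217280) (nat_lit 293453824)) (I.mix (nat_lit 96370688) (nat_lit 90750976)) (I.mix (nat_lit 70107136) (nat_lit 100925440)) (I.mix (nat_lit 24526848) (nat_lit 26886144)))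
  false (nat_lit 66099872)
def b2_15 : Bx := Bx.mk (St.mk (I.pos (nat_lit 173326336) (nat_lit 217858048)) (I.pos (nat_lit 16842752) (nat_lit 52789248)) (I.pos (nat_lit 45547520) (nat_lit 104742912)) (I.pos (nat_lit 397115392) (nat_lit 442580992)) (I.mix (nat_lit 93732864) (nat_lit 78495744)) (I.mix (nat_lit 75300864) (nat_lit 73678848)) (I.mix (nat_lit 102629376) (nat_lit 110034944)))
  false (nat_lit 55686869)
def b2_16 : Bx := Bx.mk (St.mk (I.pos (nat_lit 26198016) (nat_lit 50331648)) (I.neg (nat_lit 14778368) (nat_lit 45547520)) (I.mix (nat_lit 5521408) (nat_lit 5783552)) (I.pos (nat_lit 272809984) (nat_lit 282378240)) (I.mix (nat_lit 55869440) (nat_lit 54657024)) (I.mix (nat_lit 48021504) (nat_lit 45203456)) (I.mix (nat_lit 12615680) (nat_lit 12369920)))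
  false (nat_lit 0)
def b2_17 : Bx := Bx.mk (St.mk (I.pos (nat_lit 185466880) (nat_lit 284786688)) (I.mix (nat_lit 14565376) (nat_lit 60571648)) (I.mix (nat_lit 31916032) (nat_lit 112492544)) (I.pos (nat_lit 412581888) (nat_lit 568754176)) (I.mix (nat_lit 85590016) (nat_lit 83312640)) (I.mix (nat_lit 86540288) (nat_lit 61636608)) (I.mix (nat_lit 141066240) (nat_lit 92946432)))
  false (nat_lit 127994533)
def b2_18 : Bx := Bx.mk (St.mk (I.mix (nat_lit 8224768) (nat_lit 36421632)) (I.mix (nat_lit 42893312) (nat_lit 6471680)) (I.mix (nat_lit 7569408) (nat_lit 1392640)) (I.pos (nat_lit 267763712) (nat_lit 278396928)) (I.mix (nat_lit 39976960) (nat_lit 32587776)) (I.mix (nat_lit 23674880) (nat_lit 35078144)) (I.mix (nat_lit 6995968) (nat_lit 6946816)))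
  false (nat_lit 0)
def b2_19 : Bx := Bx.mk (St.mk (I.pos (nat_lit 244219904) (nat_lit 273842176)) (I.mix (nat_lit 19857408) (nat_lit 11190272)) (I.mix (nat_lit 39632896) (nat_lit 20463616)) (I.pos (nat_lit 500793344) (nat_lit 546160640)) (I.mix (nat_lit 53706752) (nat_lit 44253184)) (I.mix (nat_lit 44744704) (nat_lit 44711936)) (I.mix (nat_lit 71516160) (nat_lit 73547776)))
  false (nat_lit 0)
def b2_20 : Bx := Bx.mk (St.mk (I.mix (nat_lit 3063808) (nat_lit 30932992)) (I.mix (nat_lit 27852800) (nat_lit 9109504)) (I.mix (nat_lit 4800512) (nat_lit 2129920)) (I.pos (nat_lit 267812864) (nat_lit 275415040)) (I.mix (nat_lit 20070400) (nat_lit 22708224)) (I.mix (nat_lit 18038784) (nat_lit 17580032)) (I.mix (nat_lit 3342336) (nat_lit 3817472)))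
  false (nat_lit 0)
def b2_21 : Bx := Bx.mk (St.mk (I.pos (nat_lit 32882688) (nat_lit 55148544)) (I.neg (nat_lit 21872640) (nat_lit 50855936)) (I.mix (nat_lit 5406720) (nat_lit 4472832)) (I.pos (nat_lit 274726912) (nat_lit 285818880)) (I.mix (nat_lit 38207488) (nat_lit 41369600)) (I.mix (nat_lit 28737536) (nat_lit 35782656)) (I.mix (nat_lit 8716288) (nat_lit 10551296)))
  false (nat_lit 0)
def b2_22 : Bx := Bx.mk (St.mk (I.pos (nat_lit 23920640) (nat_lit 36536320)) (I.neg (nat_lit 23166976) (nat_lit 38764544)) (I.mix (nat_lit 5734400) (nat_lit 1359872)) (I.pos (nat_lit 271990784) (nat_lit 278691840)) (I.mix (nat_lit 21086208) (nat_lit 15974400)) (I.mix (nat_lit 13975552) (nat_lit 16826368)) (I.mix (nat_lit 4308992) (nat_lit 3915776)))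
  false (nat_lit 0)
def b2_23 : Bx := Bx.mk (St.mk (I.pos (nat_lit 248102912) (nat_lit 276414464)) (I.mix (nat_lit 16252928) (nat_lit 12353536)) (I.mix (nat_lit 36028416) (nat_lit 22560768)) (I.pos (nat_lit 507346944) (nat_lit 551649280)) (I.mix (nat_lit 37502976) (nat_lit 34439168)) (I.mix (nat_lit 37044224) (nat_lit 26902528)) (I.mix (nat_lit 60227584) (nat_lit 42942464)))
  false (nat_lit 0)
def b2_24 : Bx := Bx.mk (St.mk (I.mix (nat_lit 4194304) (nat_lit 31064064)) (I.mix (nat_lit 30375936) (nat_lit 8011776)) (I.mix (nat_lit 4833280) (nat_lit 1507328)) (I.pos (nat_lit 267812864) (nat_lit 276119552)) (I.mix (nat_lit 16105472) (nat_lit 15597568)) (I.mix (nat_lit 10911744) (nat_lit 14680064)) (I.mix (nat_lit 2490368) (nat_lit 2981888)))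
  false (nat_lit 0)
def t2 : BTr := (BTr.n (BTr.n (BTr.n (BTr.n (BTr.b b2_0) (BTr.n (BTr.b b2_1) (BTr.b b2_2))) (BTr.n (BTr.b b2_3) (BTr.n (BTr.b b2_4) (BTr.b b2_5)))) (BTr.n (BTr.n (BTr.b b2_6) (BTr.n (BTr.b b2_7) (BTr.b b2_8))) (BTr.n (BTr.b b2_9) (BTr.n (BTr.b b2_10) (BTr.b b2_11))))) (BTr.n (BTr.n (BTr.n (BTr.b b2_12) (BTr.n (BTr.b b2_13) (BTr.b b2_14))) (BTr.n (BTr.b b2_15) (BTr.n (BTr.b b2_16) (BTr.b b2_17)))) (BTr.n (BTr.n (BTr.b b2_18) (BTr.n (BTr.b b2_19) (BTr.b b2_20))) (BTr.n (BTr.n (BTr.b b2_21) (BTr.b b2_22)) (BTr.n (BTr.b b2_23) (BTr.b b2_24))))))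
namespace T2
def l0 : Tr := Tr.L (Pth.l (Pth.l (Pth.l (Pth.l Pth.z))))
def l1 : Tr := Tr.L (Pth.l (Pth.l (Pth.l (Pth.r (Pth.l Pth.z)))))
def l2 : Tr := Tr.L (Pth.l (Pth.l (Pth.l (Pth.r (Pth.r Pth.z)))))
def l3 : Tr := Tr.L (Pth.l (Pth.l (Pth.r (Pth.l Pth.z))))
def l4 : Tr := Tr.L (Pth.l (Pth.l (Pth.r (Pth.r (Pth.l Pth.z)))))
def l5 : Tr := Tr.L (Pth.l (Pth.l (Pth.r (Pth.r (Pth.r Pth.z)))))
def l6 : Tr := Tr.L (Pth.l (Pth.r (Pth.l (Pth.l Pth.z))))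
def l7 : Tr := Tr.L (Pth.l (Pth.r (Pth.l (Pth.r (Pth.l Pth.z)))))
def l8 : Tr := Tr.L (Pth.l (Pth.r (Pth.l (Pth.r (Pth.r Pth.z)))))
def l9 : Tr := Tr.L (Pth.l (Pth.r (Pth.r (Pth.l Pth.z))))
def l10 : Tr := Tr.L (Pth.l (Pth.r (Pth.r (Pth.r (Pth.l Pth.z)))))
def l11 : Tr := Tr.L (Pth.l (Pth.r (Pth.r (Pth.r (Pth.r Pth.z)))))
def l12 : Tr := Tr.L (Pth.r (Pth.l (Pth.l (Pth.l Pth.z))))
def l13 : Tr := Tr.L (Pth.r (Pth.l (Pth.l (Pth.r (Pth.l Pth.z)))))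
def l14 : Tr := Tr.L (Pth.r (Pth.l (Pth.l (Pth.r (Pth.r Pth.z)))))
def l15 : Tr := Tr.L (Pth.r (Pth.l (Pth.r (Pth.l Pth.z))))
def l16 : Tr := Tr.L (Pth.r (Pth.l (Pth.r (Pth.r (Pth.l Pth.z)))))
def l17 : Tr := Tr.L (Pth.r (Pth.l (Pth.r (Pth.r (Pth.r Pth.z)))))
def l18 : Tr := Tr.L (Pth.r (Pth.r (Pth.l (Pth.l Pth.z))))
def l19 : Tr := Tr.L (Pth.r (Pth.r (Pth.l (Pth.r (Pth.l Pth.z)))))
def l20 : Tr := Tr.L (Pth.r (Pth.r (Pth.l (Pth.r (Pth.r Pth.z)))))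
def l21 : Tr := Tr.L (Pth.r (Pth.r (Pth.r (Pth.l (Pth.l Pth.z)))))
def l22 : Tr := Tr.L (Pth.r (Pth.r (Pth.r (Pth.l (Pth.r Pth.z)))))
def l23 : Tr := Tr.L (Pth.r (Pth.r (Pth.r (Pth.r (Pth.l Pth.z)))))
def l24 : Tr := Tr.L (Pth.r (Pth.r (Pth.r (Pth.r (Pth.r Pth.z)))))
end T2
theorem bx0_0 : BoxOK sI cl4 cl4 cl13 t0 t2 b0_0 :=
  box_mk (TrL.c (I.pos (nat_lit 0) (nat_lit 0)) (xb (xa T0.l11 T0.l0) (xa (xb (xa T0.l0 T0.l0) (xa (xb T0.l0 (xs T0.l0 T0.l0)) T0.l0)) (xb T0.l0 (xa (xb T0.l0 (xs T0.l0 T0.l0)) (xb T0.l0 (xs T0.l0 T0.l0))))))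
  (TrL.c (I.pos (nat_lit 0) (nat_lit 0)) (xb T2.l1 (xa T2.l1 T2.l1))
  (TrL.c (I.pos (nat_lit 0) (nat_lit 0)) (xb T0.l1 (xs T0.l1 T0.l1))
  (TrL.c (I.pos (nat_lit 0) (nat_lit 0)) (xb T2.l2 (xa T2.l2 T2.l2))
  (TrL.c (I.pos (nat_lit 0) (nat_lit 0)) (xb T0.l6 (xa T0.l2 T0.l2))
  (TrL.c (I.pos (nat_lit 0) (nat_lit 0)) (xb T2.l3 (xa T2.l3 T2.l3))
  TrL.n)))))) (by decide +kernel)
theorem bx0_1 : BoxOK sI cl4 cl4 cl13 t0 t2 b0_1 :=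
  box_mk (TrL.c (I.pos (nat_lit 0) (nat_lit 0)) (xb (xb T2.l4 T2.l4) T2.l4)
  (TrL.c (I.pos (nat_lit 0) (nat_lit 0)) T0.l3
  TrL.n)) (by decide +kernel)
theorem bx0_2 : BoxOK sI cl4 cl4 cl13 t0 t2 b0_2 :=
  box_mk (TrL.c (I.pos (nat_lit 0) (nat_lit 0)) (xb (xa (xb T0.l4 T0.l4) T0.l9) (xa (xb T0.l4 T0.l4) T0.l4))
  (TrL.c (I.pos (nat_lit 0) (nat_lit 0)) T2.l4
  (TrL.c (I.pos (nat_lit 0) (nat_lit 0)) T0.l1
  (TrL.c (I.pos (nat_lit 0) (nat_lit 0)) T2.l2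
  (TrL.c (I.pos (nat_lit 0) (nat_lit 0)) T0.l10
  (TrL.c (I.pos (nat_lit 0) (nat_lit 0)) T2.l3
  TrL.n)))))) (by decide +kernel)
theorem bx0_3 : BoxOK sI cl4 cl4 cl13 t0 t2 b0_3 :=
  box_mk (TrL.c (I.pos (nat_lit 0) (nat_lit 0)) T2.l4
  (TrL.c (I.pos (nat_lit 0) (nat_lit 0)) T0.l3
  TrL.n)) (by decide +kernel)
theorem bx0_4 : BoxOK sI cl4 cl4 cl13 t0 t2 b0_4 :=
  box_mk (TrL.c (I.pos (nat_lit 0) (nat_lit 0)) (xa (xb T0.l0 T0.l0) T0.l7)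
  (TrL.c (I.pos (nat_lit 0) (nat_lit 0)) T2.l1
  (TrL.c (I.pos (nat_lit 0) (nat_lit 0)) T0.l8
  (TrL.c (I.pos (nat_lit 0) (nat_lit 0)) (xa T2.l2 (xb T2.l2 T2.l2))
  (TrL.c (I.pos (nat_lit 0) (nat_lit 0)) T0.l6
  (TrL.c (I.pos (nat_lit 0) (nat_lit 0)) T2.l3
  TrL.n)))))) (by decide +kernel)
theorem bx0_5 : BoxOK sI cl4 cl4 cl13 t0 t2 b0_5 :=
  box_mk (TrL.c (I.pos (nat_lit 0) (nat_lit 0)) T0.l4
  (TrL.c (I.pos (nat_lit 0) (nat_lit 0)) T2.l4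
  (TrL.c (I.pos (nat_lit 0) (nat_lit 0)) T0.l1
  (TrL.c (I.pos (nat_lit 0) (nat_lit 0)) T2.l2
  (TrL.c (I.pos (nat_lit 0) (nat_lit 0)) T0.l5
  (TrL.c (I.pos (nat_lit 0) (nat_lit 0)) T2.l3
  TrL.n)))))) (by decide +kernel)
theorem bx0_6 : BoxOK sI cl4 cl4 cl13 t0 t2 b0_6 :=
  box_mk (TrL.c (I.pos (nat_lit 0) (nat_lit 0)) (xa (xb (xa (xb (xa (xs T0.l9 T0.l9) T0.l9) T0.l9) (xb T0.l9 T0.l9)) (xa (xb T0.l9 (xa T0.l9 T0.l9)) (xb T0.l9 (xa T0.l9 T0.l9)))) (xb (xa T0.l9 (xb (xa T0.l9 T0.l9) T0.l9)) (xa (xb T0.l9 T0.l9) (xb T0.l9 T0.l9))))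
  (TrL.c (I.pos (nat_lit 0) (nat_lit 0)) (xa T2.l1 T2.l1)
  (TrL.c (I.pos (nat_lit 0) (nat_lit 0)) (xa T0.l1 T0.l1)
  (TrL.c (I.pos (nat_lit 0) (nat_lit 0)) (xa (xb T2.l2 T2.l2) T2.l2)
  (TrL.c (I.pos (nat_lit 0) (nat_lit 0)) (xa (xb T0.l10 T0.l10) T0.l10)
  (TrL.c (I.pos (nat_lit 0) (nat_lit 0)) (xa T2.l3 T2.l3)
  TrL.n)))))) (by decide +kernel)
theorem bx0_7 : BoxOK sI cl4 cl4 cl13 t0 t2 b0_7 :=
  box_mk (TrL.c (I.pos (nat_lit 0) (nat_lit 0)) (xb (xa (xb (xa (xb (xa T0.l11 T0.l11) T0.l11) (xa T0.l11 T0.l11)) (xa (xb T0.l11 T0.l11) T0.l11)) (xb (xa (xa T0.l11 T0.l11) (xa T0.l11 T0.l11)) (xa T0.l11 T0.l11))) (xa (xb (xa (xb T0.l11 (xa T0.l11 T0.l11)) T0.l11) (xa (xb (xa T0.l11 T0.l11) (xa (xs T0.l11 T0.l11) T0.l11)) (xb T0.l11 T0.l11))) (xb (xa T0.l11 T0.l11) (xa (xb T0.l11 T0.l11) (xa T0.l11 (xb T0.l11 T0.l11))))))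
  (TrL.c (I.pos (nat_lit 0) (nat_lit 0)) (xb (xa T2.l1 (xb T2.l1 T2.l1)) (xa (xb T2.l1 T2.l1) T2.l1))
  (TrL.c (I.pos (nat_lit 0) (nat_lit 0)) (xa (xb T0.l1 T0.l1) (xb T0.l8 (xs T0.l1 T0.l1)))
  (TrL.c (I.pos (nat_lit 0) (nat_lit 0)) (xb (xa (xb (xa T2.l2 T2.l2) T2.l2) (xb (xa T2.l2 T2.l2) T2.l2)) (xa (xb T2.l2 T2.l2) (xb T2.l2 T2.l2)))
  (TrL.c (I.pos (nat_lit 0) (nat_lit 0)) (xb (xa T0.l12 T0.l6) (xa T0.l12 (xs T0.l12 T0.l12)))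
  (TrL.c (I.pos (nat_lit 0) (nat_lit 0)) (xb (xa T2.l3 (xb T2.l3 T2.l3)) (xa (xb T2.l3 T2.l3) T2.l3))
  TrL.n)))))) (by decide +kernel)
theorem bx0_8 : BoxOK sI cl4 cl4 cl13 t0 t2 b0_8 :=
  box_mk (TrL.c (I.pos (nat_lit 0) (nat_lit 0)) (xa T2.l1 T2.l1)
  (TrL.c (I.pos (nat_lit 0) (nat_lit 0)) (xa T0.l1 T0.l1)
  TrL.n)) (by decide +kernel)
theorem bx0_9 : BoxOK sI cl4 cl4 cl13 t0 t2 b0_9 :=
  box_mk (TrL.c (I.pos (nat_lit 0) (nat_lit 0)) (xa (xb (xb (xa T0.l0 T0.l0) T0.l0) (xa T0.l11 T0.l0)) (xb T0.l7 (xa T0.l0 (xb T0.l0 T0.l0))))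
  (TrL.c (I.pos (nat_lit 0) (nat_lit 0)) (xb T2.l1 T2.l1)
  (TrL.c (I.pos (nat_lit 0) (nat_lit 0)) T0.l8
  (TrL.c (I.pos (nat_lit 0) (nat_lit 0)) (xb (xa T2.l2 T2.l2) T2.l2)
  (TrL.c (I.pos (nat_lit 0) (nat_lit 0)) T0.l6
  (TrL.c (I.pos (nat_lit 0) (nat_lit 0)) (xb T2.l3 T2.l3)
  TrL.n)))))) (by decide +kernel)
theorem bx0_10 : BoxOK sI cl4 cl4 cl13 t0 t2 b0_10 :=
  box_mk (TrL.c (I.pos (nat_lit 0) (nat_lit 0)) (xb T0.l4 (xa T0.l4 T0.l4))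
  (TrL.c (I.pos (nat_lit 0) (nat_lit 0)) T2.l4
  (TrL.c (I.pos (nat_lit 0) (nat_lit 0)) T0.l1
  (TrL.c (I.pos (nat_lit 0) (nat_lit 0)) T2.l2
  (TrL.c (I.pos (nat_lit 0) (nat_lit 0)) T0.l5
  (TrL.c (I.pos (nat_lit 0) (nat_lit 0)) T2.l3
  TrL.n)))))) (by decide +kernel)
theorem bx0_11 : BoxOK sI cl4 cl4 cl13 t0 t2 b0_11 :=
  box_mk (TrL.c (I.pos (nat_lit 0) (nat_lit 0)) (xa (xb (xa T0.l11 T0.l11) (xa (xb T0.l11 (xs T0.l11 (xa T0.l11 T0.l11))) (xb T0.l11 (xa (xs T0.l0 (xb T0.l0 T0.l0)) T0.l0)))) (xb (xa (xb T0.l0 T0.l0) (xb T0.l0 T0.l0)) (xa (xb T0.l0 (xs T0.l0 T0.l0)) (xb (xs T0.l0 T0.l0) (xs T0.l0 (xa T0.l0 (xb T0.l0 T0.l0)))))))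
  (TrL.c (I.pos (nat_lit 0) (nat_lit 0)) (xa (xb T2.l1 T2.l1) (xb T2.l1 (xa T2.l1 T2.l1)))
  (TrL.c (I.pos (nat_lit 0) (nat_lit 0)) (xs (xa T0.l1 T0.l1) (xa T0.l1 (xb T0.l1 (xc T0.l1 T0.l1))))
  (TrL.c (I.pos (nat_lit 0) (nat_lit 0)) (xa (xb T2.l2 T2.l2) (xb (xa T2.l2 (xb T2.l2 T2.l2)) (xs (xa T2.l2 T2.l2) (xa T2.l2 (xb T2.l2 T2.l2)))))
  (TrL.c (I.pos (nat_lit 0) (nat_lit 0)) (xs (xa T0.l2 T0.l2) (xa T0.l2 (xb T0.l2 (xc T0.l2 T0.l2))))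
  (TrL.c (I.pos (nat_lit 0) (nat_lit 0)) (xa (xb T2.l3 T2.l3) (xb T2.l3 (xa T2.l3 T2.l3)))
  TrL.n)))))) (by decide +kernel)
theorem bx0_12 : BoxOK sI cl4 cl4 cl13 t0 t2 b0_12 :=
  box_mk (TrL.c (I.pos (nat_lit 0) (nat_lit 0)) (xb (xa (xb T0.l4 T0.l4) T0.l4) (xa (xb T0.l4 T0.l4) T0.l9))
  (TrL.c (I.pos (nat_lit 0) (nat_lit 0)) T2.l1
  (TrL.c (I.pos (nat_lit 0) (nat_lit 0)) T0.l1
  (TrL.c (I.pos (nat_lit 0) (nat_lit 0)) T2.l2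
  (TrL.c (I.pos (nat_lit 0) (nat_lit 0)) T0.l10
  (TrL.c (I.pos (nat_lit 0) (nat_lit 0)) T2.l3
  TrL.n)))))) (by decide +kernel)
theorem sv0 : StarV sI cl4 cl4 cl13 t0 t2 t0 :=
  (bt_n (bt_n (bt_n (bt_b bx0_0) (bt_n (bt_b bx0_1) (bt_b bx0_2))) (bt_n (bt_b bx0_3) (bt_n (bt_b bx0_4) (bt_b bx0_5)))) (bt_n (bt_n (bt_b bx0_6) (bt_n (bt_b bx0_7) (bt_b bx0_8))) (bt_n (bt_n (bt_b bx0_9) (bt_b bx0_10)) (bt_n (bt_b bx0_11) (bt_b bx0_12)))))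
def S0 : StarD := StarD.mk cl4 cl4 cl13 0 2 t0
theorem bx1_0 : BoxOK sI cl4 cl13 cl4 t2 t0 b1_0 :=
  box_mk (TrL.c (I.pos (nat_lit 0) (nat_lit 0)) (xa (xb (xa (xb T2.l0 (xa T2.l0 T2.l0)) (xb T2.l0 T2.l0)) (xa (xb (xa (xs T2.l0 T2.l0) T2.l0) (xa (xs T2.l0 T2.l0) (xs T2.l0 T2.l0))) (xb (xa T2.l0 T2.l0) (xa (xs T2.l0 T2.l0) (xs T2.l0 T2.l0))))) (xb (xa T2.l0 (xb T2.l2 (xa T2.l0 T2.l2))) (xa (xb T2.l0 (xa (xs T2.l0 T2.l0) (xs T2.l0 T2.l0))) (xb (xa T2.l0 T2.l2) (xs (xa T2.l2 T2.l2) (xa T2.l2 T2.l2))))))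
  (TrL.c (I.pos (nat_lit 0) (nat_lit 0)) (xa T0.l6 (xa T0.l6 (xb T0.l6 (xs T0.l6 T0.l6))))
  (TrL.c (I.pos (nat_lit 0) (nat_lit 0)) (xa T2.l5 T2.l5)
  (TrL.c (I.pos (nat_lit 0) (nat_lit 0)) (xa T0.l7 T0.l7)
  (TrL.c (I.pos (nat_lit 0) (nat_lit 0)) (xa T2.l6 T2.l6)
  (TrL.c (I.pos (nat_lit 0) (nat_lit 0)) (xa T0.l8 (xa T0.l8 (xb T0.l8 (xs T0.l8 T0.l8))))
  TrL.n)))))) (by decide +kernel)
theorem bx1_1 : BoxOK sI cl4 cl13 cl4 t2 t0 b1_1 :=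
  box_mk (TrL.c (I.pos (nat_lit 0) (nat_lit 0)) (xa (xb T2.l0 (xa (xb T2.l7 T2.l7) T2.l0)) T2.l0)
  (TrL.c (I.pos (nat_lit 0) (nat_lit 0)) T0.l6
  (TrL.c (I.pos (nat_lit 0) (nat_lit 0)) T2.l5
  (TrL.c (I.pos (nat_lit 0) (nat_lit 0)) (xa T0.l7 T0.l7)
  (TrL.c (I.pos (nat_lit 0) (nat_lit 0)) (xb T2.l8 T2.l8)
  (TrL.c (I.pos (nat_lit 0) (nat_lit 0)) T0.l8
  TrL.n)))))) (by decide +kernel)
theorem bx1_2 : BoxOK sI cl4 cl13 cl4 t2 t0 b1_2 :=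
  box_mk (TrL.c (I.pos (nat_lit 0) (nat_lit 0)) (xa (xa (xa T2.l17 T2.l9) T2.l17) (xa T2.l17 (xa T2.l17 (xb T2.l15 T2.l17))))
  (TrL.c (I.pos (nat_lit 0) (nat_lit 0)) (xa T0.l6 T0.l6)
  (TrL.c (I.pos (nat_lit 0) (nat_lit 0)) T2.l5
  (TrL.c (I.pos (nat_lit 0) (nat_lit 0)) (xa T0.l7 T0.l7)
  (TrL.c (I.pos (nat_lit 0) (nat_lit 0)) (xa T2.l10 T2.l10)
  (TrL.c (I.pos (nat_lit 0) (nat_lit 0)) (xa T0.l8 T0.l8)
  TrL.n)))))) (by decide +kernel)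
theorem bx1_3 : BoxOK sI cl4 cl13 cl4 t2 t0 b1_3 :=
  box_mk (TrL.c (I.pos (nat_lit 0) (nat_lit 0)) (xa (xa (xb T2.l11 T2.l17) T2.l9) (xa T2.l9 T2.l17))
  (TrL.c (I.pos (nat_lit 0) (nat_lit 0)) (xa T0.l6 T0.l6)
  (TrL.c (I.pos (nat_lit 0) (nat_lit 0)) T2.l5
  (TrL.c (I.pos (nat_lit 0) (nat_lit 0)) (xa T0.l7 T0.l7)
  (TrL.c (I.pos (nat_lit 0) (nat_lit 0)) (xa T2.l12 T2.l12)
  (TrL.c (I.pos (nat_lit 0) (nat_lit 0)) (xa T0.l8 T0.l8)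
  TrL.n)))))) (by decide +kernel)
theorem bx1_4 : BoxOK sI cl4 cl13 cl4 t2 t0 b1_4 :=
  box_mk (TrL.c (I.pos (nat_lit 0) (nat_lit 0)) (xb (xa (xb T2.l13 (xa T2.l13 T2.l13)) (xb (xa T2.l13 (xb T2.l13 T2.l13)) (xa T2.l13 (xb T2.l13 T2.l13)))) (xa (xb (xa (xb T2.l13 T2.l13) T2.l13) (xa (xs T2.l13 (xb T2.l13 (xa T2.l13 T2.l13))) (xs T2.l13 (xb T2.l13 (xa T2.l13 T2.l13))))) (xb (xa T2.l13 (xs T2.l13 (xb T2.l13 T2.l13))) (xa (xs T2.l13 (xb T2.l13 T2.l13)) (xs (xb T2.l13 (xa T2.l13 T2.l13)) (xb T2.l13 (xa T2.l13 T2.l13)))))))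
  (TrL.c (I.pos (nat_lit 0) (nat_lit 0)) (xb (xa (xb T0.l6 T0.l6) (xb T0.l6 T0.l6)) (xa (xb T0.l6 (xs T0.l6 T0.l6)) (xb (xa T0.l6 T0.l6) (xs T0.l6 T0.l6))))
  (TrL.c (I.pos (nat_lit 0) (nat_lit 0)) (xb T2.l5 (xa T2.l5 T2.l5))
  (TrL.c (I.pos (nat_lit 0) (nat_lit 0)) (xb (xa T0.l7 T0.l7) (xa T0.l7 (xb T0.l7 T0.l7)))
  (TrL.c (I.pos (nat_lit 0) (nat_lit 0)) (xb T2.l14 (xa T2.l14 T2.l14))
  (TrL.c (I.pos (nat_lit 0) (nat_lit 0)) (xb (xa (xb T0.l8 T0.l8) (xb T0.l8 T0.l8)) (xa (xb T0.l8 (xs T0.l8 T0.l8)) (xb T0.l8 (xs T0.l8 T0.l8))))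
  TrL.n)))))) (by decide +kernel)
theorem bx1_5 : BoxOK sI cl4 cl13 cl4 t2 t0 b1_5 :=
  box_mk (TrL.c (I.pos (nat_lit 0) (nat_lit 0)) (xb (xa T2.l0 T2.l0) (xa (xb (xa T2.l15 T2.l15) (xa T2.l15 T2.l15)) (xb T2.l0 T2.l0)))
  (TrL.c (I.pos (nat_lit 0) (nat_lit 0)) T0.l6
  (TrL.c (I.pos (nat_lit 0) (nat_lit 0)) T2.l5
  (TrL.c (I.pos (nat_lit 0) (nat_lit 0)) T0.l7
  (TrL.c (I.pos (nat_lit 0) (nat_lit 0)) (xb T2.l16 T2.l16)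
  (TrL.c (I.pos (nat_lit 0) (nat_lit 0)) T0.l8
  TrL.n)))))) (by decide +kernel)
theorem bx1_6 : BoxOK sI cl4 cl13 cl4 t2 t0 b1_6 :=
  box_mk (TrL.c (I.pos (nat_lit 0) (nat_lit 0)) (xa (xa (xb (xa (xb T2.l17 T2.l17) T2.l17) (xa (xb T2.l17 T2.l17) T2.l17)) (xb T2.l17 T2.l17)) (xa (xb T2.l17 T2.l17) (xb (xa T2.l17 (xb T2.l17 T2.l17)) (xa T2.l17 (xb T2.l17 (xa T2.l17 T2.l17))))))
  (TrL.c (I.pos (nat_lit 0) (nat_lit 0)) (xa (xa T0.l6 T0.l6) T0.l6)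
  (TrL.c (I.pos (nat_lit 0) (nat_lit 0)) (xa T2.l5 T2.l5)
  (TrL.c (I.pos (nat_lit 0) (nat_lit 0)) (xa (xa T0.l7 T0.l7) T0.l7)
  (TrL.c (I.pos (nat_lit 0) (nat_lit 0)) (xa T2.l18 (xa T2.l18 T2.l18))
  (TrL.c (I.pos (nat_lit 0) (nat_lit 0)) (xa (xa T0.l8 T0.l8) T0.l8)
  TrL.n)))))) (by decide +kernel)
theorem bx1_7 : BoxOK sI cl4 cl13 cl4 t2 t0 b1_7 :=
  box_mk (TrL.c (I.pos (nat_lit 0) (nat_lit 0)) (xa (xa (xa (xb T2.l19 T2.l19) T2.l19) T2.l9) T2.l9)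
  (TrL.c (I.pos (nat_lit 0) (nat_lit 0)) (xa T0.l6 T0.l6)
  (TrL.c (I.pos (nat_lit 0) (nat_lit 0)) T2.l5
  (TrL.c (I.pos (nat_lit 0) (nat_lit 0)) (xa T0.l7 T0.l7)
  (TrL.c (I.pos (nat_lit 0) (nat_lit 0)) T2.l20
  (TrL.c (I.pos (nat_lit 0) (nat_lit 0)) (xa T0.l8 T0.l8)
  TrL.n)))))) (by decide +kernel)
theorem bx1_8 : BoxOK sI cl4 cl13 cl4 t2 t0 b1_8 :=
  box_mk (TrL.c (I.pos (nat_lit 0) (nat_lit 0)) (xa (xb T2.l0 (xa T2.l0 T2.l0)) (xb T2.l2 T2.l2))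
  (TrL.c (I.pos (nat_lit 0) (nat_lit 0)) (xa T0.l6 (xb T0.l6 T0.l6))
  (TrL.c (I.pos (nat_lit 0) (nat_lit 0)) T2.l3
  (TrL.c (I.pos (nat_lit 0) (nat_lit 0)) (xa T0.l7 T0.l7)
  (TrL.c (I.pos (nat_lit 0) (nat_lit 0)) T2.l1
  (TrL.c (I.pos (nat_lit 0) (nat_lit 0)) (xa T0.l8 (xb T0.l8 T0.l8))
  TrL.n)))))) (by decide +kernel)
theorem bx1_9 : BoxOK sI cl4 cl13 cl4 t2 t0 b1_9 :=
  box_mk (TrL.c (I.pos (nat_lit 0) (nat_lit 0)) (xb T2.l0 T2.l0)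
  (TrL.c (I.pos (nat_lit 0) (nat_lit 0)) T0.l6
  (TrL.c (I.pos (nat_lit 0) (nat_lit 0)) T2.l5
  (TrL.c (I.pos (nat_lit 0) (nat_lit 0)) T0.l7
  (TrL.c (I.pos (nat_lit 0) (nat_lit 0)) T2.l14
  (TrL.c (I.pos (nat_lit 0) (nat_lit 0)) T0.l8
  TrL.n)))))) (by decide +kernel)
theorem bx1_10 : BoxOK sI cl4 cl13 cl4 t2 t0 b1_10 :=
  box_mk (TrL.c (I.pos (nat_lit 0) (nat_lit 0)) (xa (xb (xa (xb (xs T2.l0 (xa T2.l0 T2.l0)) (xs T2.l0 T2.l0)) (xb (xs T2.l0 T2.l0) (xs T2.l0 T2.l0))) (xa (xs (xb T2.l0 T2.l0) (xb (xa T2.l0 T2.l0) (xa (xb T2.l0 T2.l0) T2.l0))) (xs (xb T2.l0 (xa T2.l0 T2.l0)) (xb (xa T2.l0 T2.l0) (xa (xs T2.l0 T2.l0) T2.l2))))) (xb (xa (xb (xs T2.l2 T2.l2) T2.l2) (xb (xs T2.l2 (xb T2.l2 T2.l2)) (xs T2.l2 (xb (xs T2.l2 T2.l2) T2.l2)))) (xa (xs (xb T2.l0 T2.l2) (xb T2.l2 (xa T2.l2 T2.l2))) (xs (xb T2.l0 T2.l2) (xb T2.l2 T2.l2)))))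
  (TrL.c (I.pos (nat_lit 0) (nat_lit 0)) (xa (xb T0.l6 (xs T0.l6 (xa T0.l6 T0.l6))) (xb (xa T0.l6 (xs T0.l6 T0.l6)) (xs T0.l6 (xa T0.l6 (xd T0.l6 T0.l6)))))
  (TrL.c (I.pos (nat_lit 0) (nat_lit 0)) (xa (xb T2.l5 T2.l5) T2.l3)
  (TrL.c (I.pos (nat_lit 0) (nat_lit 0)) (xa T0.l7 (xb (xa T0.l7 T0.l7) (xa T0.l7 (xd T0.l7 T0.l7))))
  (TrL.c (I.pos (nat_lit 0) (nat_lit 0)) (xa (xb T2.l6 T2.l6) T2.l1)
  (TrL.c (I.pos (nat_lit 0) (nat_lit 0)) (xa (xb T0.l8 (xs T0.l8 (xa T0.l8 T0.l8))) (xb (xa T0.l8 (xs T0.l8 T0.l8)) (xs T0.l8 (xa T0.l8 (xd T0.l8 T0.l8)))))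
  TrL.n)))))) (by decide +kernel)
theorem bx1_11 : BoxOK sI cl4 cl13 cl4 t2 t0 b1_11 :=
  box_mk (TrL.c (I.pos (nat_lit 0) (nat_lit 0)) (xb (xa (xa (xb T2.l13 T2.l13) (xb T2.l13 T2.l13)) (xa (xb T2.l13 T2.l13) (xb (xs T2.l13 T2.l13) T2.l13))) (xa (xb T2.l13 (xa (xs T2.l13 T2.l13) T2.l13)) (xa (xb T2.l13 T2.l13) (xb T2.l13 T2.l13))))
  (TrL.c (I.pos (nat_lit 0) (nat_lit 0)) (xa (xb T0.l6 T0.l6) (xb T0.l6 T0.l6))
  (TrL.c (I.pos (nat_lit 0) (nat_lit 0)) (xa T2.l5 T2.l5)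
  (TrL.c (I.pos (nat_lit 0) (nat_lit 0)) (xa T0.l7 (xb (xa T0.l7 T0.l7) T0.l7))
  (TrL.c (I.pos (nat_lit 0) (nat_lit 0)) (xa T2.l14 T2.l14)
  (TrL.c (I.pos (nat_lit 0) (nat_lit 0)) (xa (xb T0.l8 T0.l8) (xb T0.l8 T0.l8))
  TrL.n)))))) (by decide +kernel)
theorem bx1_12 : BoxOK sI cl4 cl13 cl4 t2 t0 b1_12 :=
  box_mk (TrL.c (I.pos (nat_lit 0) (nat_lit 0)) T2.l0
  (TrL.c (I.pos (nat_lit 0) (nat_lit 0)) T0.l6
  (TrL.c (I.pos (nat_lit 0) (nat_lit 0)) T2.l5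
  (TrL.c (I.pos (nat_lit 0) (nat_lit 0)) T0.l7
  (TrL.c (I.pos (nat_lit 0) (nat_lit 0)) (xb T2.l21 T2.l21)
  (TrL.c (I.pos (nat_lit 0) (nat_lit 0)) T0.l8
  TrL.n)))))) (by decide +kernel)
theorem bx1_13 : BoxOK sI cl4 cl13 cl4 t2 t0 b1_13 :=
  box_mk (TrL.c (I.pos (nat_lit 0) (nat_lit 0)) (xa T2.l9 T2.l0)
  (TrL.c (I.pos (nat_lit 0) (nat_lit 0)) T0.l6
  (TrL.c (I.pos (nat_lit 0) (nat_lit 0)) T2.l5
  (TrL.c (I.pos (nat_lit 0) (nat_lit 0)) T0.l7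
  (TrL.c (I.pos (nat_lit 0) (nat_lit 0)) T2.l22
  (TrL.c (I.pos (nat_lit 0) (nat_lit 0)) T0.l8
  TrL.n)))))) (by decide +kernel)
theorem bx1_14 : BoxOK sI cl4 cl13 cl4 t2 t0 b1_14 :=
  box_mk (TrL.c (I.pos (nat_lit 0) (nat_lit 0)) (xa (xa (xa T2.l23 T2.l23) T2.l9) T2.l9)
  (TrL.c (I.pos (nat_lit 0) (nat_lit 0)) (xa T0.l6 T0.l6)
  (TrL.c (I.pos (nat_lit 0) (nat_lit 0)) T2.l5
  (TrL.c (I.pos (nat_lit 0) (nat_lit 0)) (xa T0.l7 T0.l7)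
  (TrL.c (I.pos (nat_lit 0) (nat_lit 0)) T2.l24
  (TrL.c (I.pos (nat_lit 0) (nat_lit 0)) (xa T0.l8 T0.l8)
  TrL.n)))))) (by decide +kernel)
theorem bx1_15 : BoxOK sI cl4 cl13 cl4 t2 t0 b1_15 :=
  box_mk (TrL.c (I.pos (nat_lit 0) (nat_lit 0)) T2.l17
  (TrL.c (I.pos (nat_lit 0) (nat_lit 0)) T0.l6
  (TrL.c (I.pos (nat_lit 0) (nat_lit 0)) T2.l5
  (TrL.c (I.pos (nat_lit 0) (nat_lit 0)) T0.l7
  (TrL.c (I.pos (nat_lit 0) (nat_lit 0)) T2.l18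
  (TrL.c (I.pos (nat_lit 0) (nat_lit 0)) T0.l8
  TrL.n)))))) (by decide +kernel)
theorem bx1_16 : BoxOK sI cl4 cl13 cl4 t2 t0 b1_16 :=
  box_mk (TrL.c (I.pos (nat_lit 0) (nat_lit 0)) (xa T2.l0 (xb T2.l2 T2.l2))
  (TrL.c (I.pos (nat_lit 0) (nat_lit 0)) T0.l6
  (TrL.c (I.pos (nat_lit 0) (nat_lit 0)) T2.l5
  (TrL.c (I.pos (nat_lit 0) (nat_lit 0)) T0.l7
  (TrL.c (I.pos (nat_lit 0) (nat_lit 0)) T2.l6
  (TrL.c (I.pos (nat_lit 0) (nat_lit 0)) T0.l8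
  TrL.n)))))) (by decide +kernel)
theorem bx1_17 : BoxOK sI cl4 cl13 cl4 t2 t0 b1_17 :=
  box_mk (TrL.c (I.pos (nat_lit 0) (nat_lit 0)) (xa (xb (xa T2.l0 T2.l0) T2.l0) T2.l2)
  (TrL.c (I.pos (nat_lit 0) (nat_lit 0)) (xa T0.l6 (xa T0.l6 T0.l6))
  (TrL.c (I.pos (nat_lit 0) (nat_lit 0)) T2.l3
  (TrL.c (I.pos (nat_lit 0) (nat_lit 0)) (xa T0.l7 T0.l0)
  (TrL.c (I.pos (nat_lit 0) (nat_lit 0)) T2.l1
  (TrL.c (I.pos (nat_lit 0) (nat_lit 0)) (xa T0.l8 (xa T0.l8 T0.l8))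
  TrL.n)))))) (by decide +kernel)
theorem bx1_18 : BoxOK sI cl4 cl13 cl4 t2 t0 b1_18 :=
  box_mk (TrL.c (I.pos (nat_lit 0) (nat_lit 0)) T2.l0
  (TrL.c (I.pos (nat_lit 0) (nat_lit 0)) T0.l6
  (TrL.c (I.pos (nat_lit 0) (nat_lit 0)) T2.l5
  (TrL.c (I.pos (nat_lit 0) (nat_lit 0)) T0.l7
  (TrL.c (I.pos (nat_lit 0) (nat_lit 0)) T2.l14
  (TrL.c (I.pos (nat_lit 0) (nat_lit 0)) T0.l8
  TrL.n)))))) (by decide +kernel)
theorem bx1_19 : BoxOK sI cl4 cl13 cl4 t2 t0 b1_19 :=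
  box_mk (TrL.c (I.pos (nat_lit 0) (nat_lit 0)) T2.l0
  (TrL.c (I.pos (nat_lit 0) (nat_lit 0)) T0.l6
  (TrL.c (I.pos (nat_lit 0) (nat_lit 0)) T2.l5
  (TrL.c (I.pos (nat_lit 0) (nat_lit 0)) T0.l7
  (TrL.c (I.pos (nat_lit 0) (nat_lit 0)) T2.l14
  (TrL.c (I.pos (nat_lit 0) (nat_lit 0)) T0.l8
  TrL.n)))))) (by decide +kernel)
theorem sv1 : StarV sI cl4 cl13 cl4 t2 t0 t1 :=
  (bt_n (bt_n (bt_n (bt_n (bt_b bx1_0) (bt_b bx1_1)) (bt_n (bt_b bx1_2) (bt_n (bt_b bx1_3) (bt_b bx1_4)))) (bt_n (bt_n (bt_b bx1_5) (bt_b bx1_6)) (bt_n (bt_b bx1_7) (bt_n (bt_b bx1_8) (bt_b bx1_9))))) (bt_n (bt_n (bt_n (bt_b bx1_10) (bt_b bx1_11)) (bt_n (bt_b bx1_12) (bt_n (bt_b bx1_13) (bt_b bx1_14)))) (bt_n (bt_n (bt_b bx1_15) (bt_b bx1_16)) (bt_n (bt_b bx1_17) (bt_n (bt_b bx1_18) (bt_b bx1_19))))))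
def S1 : StarD := StarD.mk cl4 cl13 cl4 2 0 t1
theorem bx2_0 : BoxOK sI cl13 cl4 cl4 t1 t1 b2_0 :=
  box_mk (TrL.c (I.pos (nat_lit 0) (nat_lit 0)) (xa (xb (xa T1.l10 (xb T1.l0 T1.l0)) (xa (xb T1.l10 (xs (xa T1.l0 T1.l0) (xa T1.l10 T1.l0))) (xb (xs T1.l0 T1.l0) (xs T1.l0 (xa T1.l0 T1.l0))))) (xb (xa T1.l0 T1.l0) (xa (xb T1.l0 (xs T1.l0 (xa T1.l0 T1.l0))) (xb T1.l0 (xs T1.l0 T1.l0)))))
  (TrL.c (I.pos (nat_lit 0) (nat_lit 0)) (xa (xk T1.l1 T1.l1) (xk (xb T1.l1 T1.l1) T1.l1))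
  (TrL.c (I.pos (nat_lit 0) (nat_lit 134217730)) (xR (xR T1.l6 T1.l2) (xR T1.l2 (xR T1.l2 (xa T1.l2 T1.l6))))
  (TrL.c (I.pos (nat_lit 0) (nat_lit 110514882)) (xR T1.l6 (xR T1.l3 (xR T1.l3 T1.l3)))
  (TrL.c (I.pos (nat_lit 0) (nat_lit 0)) (xa (xb T1.l4 T1.l4) (xb (xk T1.l4 T1.l4) (xk (xb T1.l4 T1.l4) (xb T1.l4 (xa T1.l4 T1.l4)))))
  (TrL.c (I.pos (nat_lit 0) (nat_lit 0)) T1.l5
  (TrL.c (I.mix (nat_lit 8088324) (nat_lit 110514882)) (xR (xR T1.l6 T1.l6) (xR T1.l6 T1.l6))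
  (TrL.c (I.mix (nat_lit 8088324) (nat_lit 89478486)) (xR T1.l7 T1.l7)
  TrL.n)))))))) (by decide +kernel)
theorem bx2_1 : BoxOK sI cl13 cl4 cl4 t1 t1 b2_1 :=
  box_mk (TrL.c (I.pos (nat_lit 0) (nat_lit 0)) (xb (xa (xb (xa T1.l8 T1.l8) T1.l8) (xb T1.l8 T1.l8)) (xa (xb T1.l8 T1.l8) (xb T1.l8 T1.l8)))
  (TrL.c (I.pos (nat_lit 0) (nat_lit 0)) (xb T1.l1 T1.l1)
  (TrL.c (I.pos (nat_lit 0) (nat_lit 134217730)) (xR T1.l6 (xR T1.l2 (xR T1.l2 T1.l2)))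
  (TrL.c (I.pos (nat_lit 0) (nat_lit 110514882)) (xR T1.l6 (xR T1.l3 (xR T1.l3 T1.l3)))
  (TrL.c (I.pos (nat_lit 0) (nat_lit 0)) (xb (xa T1.l9 (xk T1.l9 T1.l9)) T1.l9)
  (TrL.c (I.pos (nat_lit 0) (nat_lit 0)) T1.l5
  (TrL.c (I.mix (nat_lit 8088324) (nat_lit 110514882)) (xR T1.l6 (xR T1.l6 T1.l6))
  (TrL.c (I.mix (nat_lit 8088324) (nat_lit 89478486)) (xR T1.l6 T1.l6)
  TrL.n)))))))) (by decide +kernel)
theorem bx2_2 : BoxOK sI cl13 cl4 cl4 t1 t1 b2_2 :=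
  box_mk (TrL.c (I.pos (nat_lit 0) (nat_lit 0)) (xb (xa (xb (xa (xb (xs T1.l10 T1.l10) T1.l10) (xb (xs T1.l10 T1.l10) T1.l10)) (xa T1.l10 T1.l10)) (xb (xa (xb (xs T1.l10 T1.l10) T1.l10) (xb (xs T1.l10 T1.l10) T1.l10)) (xa T1.l10 T1.l10))) (xa (xb (xa (xb T1.l10 T1.l10) T1.l10) (xa (xs (xb T1.l10 T1.l10) (xb T1.l10 (xk T1.l10 T1.l10))) (xs T1.l10 (xb T1.l10 T1.l10)))) (xb (xa T1.l10 (xb T1.l10 T1.l10)) (xa (xs T1.l10 (xb T1.l10 T1.l10)) (xs T1.l10 (xb T1.l10 T1.l10))))))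
  (TrL.c (I.pos (nat_lit 0) (nat_lit 0)) (xb (xa T1.l1 T1.l1) (xa (xk T1.l1 T1.l1) (xk T1.l1 T1.l1)))
  (TrL.c (I.pos (nat_lit 0) (nat_lit 134217730)) (xR T1.l6 (xR T1.l2 (xR T1.l2 (xb T1.l2 (xR T1.l2 T1.l2)))))
  (TrL.c (I.pos (nat_lit 0) (nat_lit 110514882)) (xR T1.l6 (xR T1.l3 (xR T1.l3 T1.l3)))
  (TrL.c (I.pos (nat_lit 0) (nat_lit 0)) (xb (xa T1.l11 (xk T1.l11 T1.l11)) (xk (xa (xb T1.l11 (xb T1.l4 T1.l4)) (xb T1.l11 (xb (xs T1.l4 T1.l4) (xs T1.l11 (xa T1.l4 T1.l4))))) (xb (xa T1.l4 T1.l11) (xa (xb T1.l4 T1.l4) (xb (xs T1.l4 T1.l4) (xs (xa T1.l4 T1.l4) (xa (xk T1.l4 T1.l4) (xk T1.l4 T1.l4))))))))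
  (TrL.c (I.pos (nat_lit 0) (nat_lit 0)) (xb T1.l5 T1.l5)
  (TrL.c (I.mix (nat_lit 8088324) (nat_lit 110514882)) (xR T1.l6 (xR T1.l6 (xR T1.l6 T1.l6)))
  (TrL.c (I.mix (nat_lit 8088324) (nat_lit 89478486)) (xR T1.l7 (xR T1.l7 (xR T1.l7 T1.l7)))
  TrL.n)))))))) (by decide +kernel)
theorem bx2_3 : BoxOK sI cl13 cl4 cl4 t1 t1 b2_3 :=
  box_mk (TrL.c (I.pos (nat_lit 0) (nat_lit 0)) (xb T1.l12 T1.l12)
  (TrL.c (I.pos (nat_lit 0) (nat_lit 0)) T1.l2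
  (TrL.c (I.mix (nat_lit 8088324) (nat_lit 110514882)) (xR (xR T1.l14 T1.l14) (xR T1.l14 (xR T1.l14 T1.l14)))
  (TrL.c (I.mix (nat_lit 8088324) (nat_lit 89478486)) (xR (xR T1.l14 T1.l2) T1.l2)
  TrL.n)))) (by decide +kernel)
theorem bx2_4 : BoxOK sI cl13 cl4 cl4 t1 t1 b2_4 :=
  box_mk (TrL.c (I.pos (nat_lit 0) (nat_lit 0)) (xa T1.l16 T1.l16)
  (TrL.c (I.pos (nat_lit 0) (nat_lit 0)) T1.l1
  (TrL.c (I.pos (nat_lit 0) (nat_lit 134217730)) (xR T1.l6 T1.l2)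
  (TrL.c (I.pos (nat_lit 0) (nat_lit 110514882)) (xR T1.l3 (xR T1.l3 T1.l3))
  (TrL.c (I.pos (nat_lit 0) (nat_lit 0)) T1.l9
  (TrL.c (I.pos (nat_lit 0) (nat_lit 0)) T1.l5
  (TrL.c (I.mix (nat_lit 8088324) (nat_lit 110514882)) (xR T1.l6 T1.l6)
  (TrL.c (I.mix (nat_lit 8088324) (nat_lit 89478486)) T1.l7
  TrL.n)))))))) (by decide +kernel)
theorem bx2_5 : BoxOK sI cl13 cl4 cl4 t1 t1 b2_5 :=
  box_mk (TrL.c (I.pos (nat_lit 0) (nat_lit 0)) (xb T1.l12 T1.l12)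
  (TrL.c (I.pos (nat_lit 0) (nat_lit 0)) T1.l13
  (TrL.c (I.mix (nat_lit 8088324) (nat_lit 110514882)) (xR (xR T1.l14 T1.l14) T1.l6)
  (TrL.c (I.mix (nat_lit 8088324) (nat_lit 89478486)) (xR T1.l14 T1.l2)
  TrL.n)))) (by decide +kernel)
theorem bx2_6 : BoxOK sI cl13 cl4 cl4 t1 t1 b2_6 :=
  box_mk (TrL.c (I.pos (nat_lit 0) (nat_lit 0)) (xb (xa T1.l17 T1.l17) T1.l8)
  (TrL.c (I.pos (nat_lit 0) (nat_lit 0)) T1.l1
  (TrL.c (I.pos (nat_lit 0) (nat_lit 134217730)) (xR T1.l6 (xR T1.l2 T1.l2))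
  (TrL.c (I.pos (nat_lit 0) (nat_lit 110514882)) (xR T1.l3 T1.l6)
  (TrL.c (I.pos (nat_lit 0) (nat_lit 0)) (xk T1.l18 T1.l18)
  (TrL.c (I.pos (nat_lit 0) (nat_lit 0)) T1.l5
  (TrL.c (I.mix (nat_lit 8088324) (nat_lit 110514882)) (xR T1.l6 T1.l6)
  (TrL.c (I.mix (nat_lit 8088324) (nat_lit 89478486)) T1.l6
  TrL.n)))))))) (by decide +kernel)
theorem bx2_7 : BoxOK sI cl13 cl4 cl4 t1 t1 b2_7 :=
  box_mk (TrL.c (I.pos (nat_lit 0) (nat_lit 0)) T1.l0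
  (TrL.c (I.pos (nat_lit 0) (nat_lit 0)) T1.l1
  (TrL.c (I.pos (nat_lit 0) (nat_lit 134217730)) (xR (xR T1.l6 T1.l2) T1.l2)
  (TrL.c (I.pos (nat_lit 0) (nat_lit 110514882)) (xR T1.l6 (xR T1.l3 T1.l3))
  (TrL.c (I.pos (nat_lit 0) (nat_lit 0)) T1.l4
  (TrL.c (I.pos (nat_lit 0) (nat_lit 0)) T1.l5
  (TrL.c (I.mix (nat_lit 8088324) (nat_lit 110514882)) (xR T1.l6 T1.l6)
  (TrL.c (I.mix (nat_lit 8088324) (nat_lit 89478486)) (xR T1.l7 T1.l7)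
  TrL.n)))))))) (by decide +kernel)
theorem bx2_8 : BoxOK sI cl13 cl4 cl4 t1 t1 b2_8 :=
  box_mk (TrL.c (I.pos (nat_lit 0) (nat_lit 0)) T1.l17
  (TrL.c (I.pos (nat_lit 0) (nat_lit 0)) T1.l12
  (TrL.c (I.pos (nat_lit 0) (nat_lit 134217730)) (xR T1.l2 (xR T1.l2 T1.l2))
  (TrL.c (I.pos (nat_lit 0) (nat_lit 110514882)) (xR T1.l3 T1.l6)
  (TrL.c (I.pos (nat_lit 0) (nat_lit 0)) T1.l18
  (TrL.c (I.pos (nat_lit 0) (nat_lit 0)) T1.l5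
  (TrL.c (I.mix (nat_lit 8088324) (nat_lit 110514882)) (xR T1.l6 T1.l6)
  (TrL.c (I.mix (nat_lit 8088324) (nat_lit 89478486)) T1.l6
  TrL.n)))))))) (by decide +kernel)
theorem bx2_9 : BoxOK sI cl13 cl4 cl4 t1 t1 b2_9 :=
  box_mk (TrL.c (I.pos (nat_lit 0) (nat_lit 0)) (xa (xb T1.l0 T1.l0) (xb (xa T1.l0 T1.l0) (xa T1.l0 T1.l0)))
  (TrL.c (I.pos (nat_lit 0) (nat_lit 0)) (xa T1.l1 (xk (xb T1.l1 T1.l1) T1.l1))
  (TrL.c (I.pos (nat_lit 0) (nat_lit 134217730)) (xR (xR T1.l6 T1.l2) (xR T1.l2 (xR T1.l2 T1.l6)))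
  (TrL.c (I.pos (nat_lit 0) (nat_lit 110514882)) (xR T1.l14 (xR T1.l3 (xR T1.l3 T1.l3)))
  (TrL.c (I.pos (nat_lit 0) (nat_lit 0)) (xa T1.l4 (xk (xb T1.l4 T1.l4) (xb T1.l4 T1.l4)))
  (TrL.c (I.pos (nat_lit 0) (nat_lit 0)) (xk T1.l5 T1.l5)
  (TrL.c (I.mix (nat_lit 8088324) (nat_lit 110514882)) (xR (xR T1.l6 T1.l6) (xR T1.l6 (xR T1.l6 T1.l6)))
  (TrL.c (I.mix (nat_lit 8088324) (nat_lit 89478486)) (xR T1.l7 T1.l3)
  TrL.n)))))))) (by decide +kernel)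
theorem bx2_10 : BoxOK sI cl13 cl4 cl4 t1 t1 b2_10 :=
  box_mk (TrL.c (I.pos (nat_lit 0) (nat_lit 0)) T1.l17
  (TrL.c (I.pos (nat_lit 0) (nat_lit 0)) T1.l12
  (TrL.c (I.pos (nat_lit 0) (nat_lit 134217730)) (xR T1.l2 (xR T1.l2 (xR T1.l2 T1.l2)))
  (TrL.c (I.pos (nat_lit 0) (nat_lit 110514882)) T1.l6
  (TrL.c (I.pos (nat_lit 0) (nat_lit 0)) T1.l18
  (TrL.c (I.pos (nat_lit 0) (nat_lit 0)) T1.l5
  (TrL.c (I.mix (nat_lit 8088324) (nat_lit 110514882)) (xR T1.l14 T1.l6)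
  (TrL.c (I.mix (nat_lit 8088324) (nat_lit 89478486)) T1.l14
  TrL.n)))))))) (by decide +kernel)
theorem bx2_11 : BoxOK sI cl13 cl4 cl4 t1 t1 b2_11 :=
  box_mk (TrL.c (I.pos (nat_lit 0) (nat_lit 0)) T1.l0
  (TrL.c (I.pos (nat_lit 0) (nat_lit 0)) T1.l1
  (TrL.c (I.pos (nat_lit 0) (nat_lit 134217730)) (xR (xR T1.l6 T1.l2) T1.l2)
  (TrL.c (I.pos (nat_lit 0) (nat_lit 110514882)) (xR T1.l14 (xR T1.l3 T1.l3))
  (TrL.c (I.pos (nat_lit 0) (nat_lit 0)) (xk T1.l4 T1.l4)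
  (TrL.c (I.pos (nat_lit 0) (nat_lit 0)) T1.l5
  (TrL.c (I.mix (nat_lit 8088324) (nat_lit 110514882)) (xR (xR T1.l6 T1.l6) (xR T1.l6 T1.l6))
  (TrL.c (I.mix (nat_lit 8088324) (nat_lit 89478486)) (xR T1.l7 T1.l3)
  TrL.n)))))))) (by decide +kernel)
theorem bx2_12 : BoxOK sI cl13 cl4 cl4 t1 t1 b2_12 :=
  box_mk (TrL.c (I.pos (nat_lit 0) (nat_lit 0)) T1.l17
  (TrL.c (I.pos (nat_lit 0) (nat_lit 0)) T1.l12
  (TrL.c (I.pos (nat_lit 0) (nat_lit 134217730)) (xR T1.l2 (xR T1.l2 (xR T1.l2 T1.l2)))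
  (TrL.c (I.pos (nat_lit 0) (nat_lit 110514882)) T1.l6
  (TrL.c (I.pos (nat_lit 0) (nat_lit 0)) T1.l18
  (TrL.c (I.pos (nat_lit 0) (nat_lit 0)) T1.l5
  (TrL.c (I.mix (nat_lit 8088324) (nat_lit 110514882)) (xR T1.l14 T1.l6)
  (TrL.c (I.mix (nat_lit 8088324) (nat_lit 89478486)) T1.l14
  TrL.n)))))))) (by decide +kernel)
theorem bx2_13 : BoxOK sI cl13 cl4 cl4 t1 t1 b2_13 :=
  box_mk (TrL.c (I.pos (nat_lit 0) (nat_lit 0)) (xa (xb (xa T1.l10 (xb T1.l0 T1.l0)) (xa (xs T1.l0 T1.l10) (xs T1.l0 T1.l10))) (xb (xa T1.l0 T1.l0) (xs (xa T1.l0 T1.l0) (xa (xb T1.l0 T1.l0) T1.l0))))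
  (TrL.c (I.pos (nat_lit 0) (nat_lit 0)) (xk (xa T1.l1 T1.l1) T1.l1)
  (TrL.c (I.pos (nat_lit 0) (nat_lit 134217730)) (xR T1.l6 (xR T1.l2 (xR T1.l2 T1.l2)))
  (TrL.c (I.pos (nat_lit 0) (nat_lit 110514882)) (xR T1.l6 (xR T1.l3 T1.l3))
  (TrL.c (I.pos (nat_lit 0) (nat_lit 0)) (xk (xb T1.l4 (xa T1.l4 (xs T1.l4 (xb T1.l4 (xk T1.l4 T1.l4))))) (xb T1.l4 (xa (xs T1.l4 T1.l4) (xs (xb T1.l4 (xa T1.l4 T1.l4)) (xb T1.l4 (xa T1.l4 (xk T1.l4 (xs T1.l4 T1.l4))))))))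
  (TrL.c (I.pos (nat_lit 0) (nat_lit 0)) T1.l5
  (TrL.c (I.mix (nat_lit 8088324) (nat_lit 110514882)) (xR T1.l6 T1.l6)
  (TrL.c (I.mix (nat_lit 8088324) (nat_lit 89478486)) (xR T1.l7 T1.l7)
  TrL.n)))))))) (by decide +kernel)
theorem bx2_14 : BoxOK sI cl13 cl4 cl4 t1 t1 b2_14 :=
  box_mk (TrL.c (I.pos (nat_lit 0) (nat_lit 0)) T1.l8
  (TrL.c (I.pos (nat_lit 0) (nat_lit 0)) T1.l1
  (TrL.c (I.pos (nat_lit 0) (nat_lit 134217730)) (xR T1.l3 (xR T1.l2 T1.l2))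
  (TrL.c (I.pos (nat_lit 0) (nat_lit 110514882)) (xR T1.l3 T1.l6)
  (TrL.c (I.pos (nat_lit 0) (nat_lit 0)) (xk T1.l18 T1.l18)
  (TrL.c (I.pos (nat_lit 0) (nat_lit 0)) T1.l5
  (TrL.c (I.mix (nat_lit 8088324) (nat_lit 110514882)) (xR T1.l6 T1.l6)
  (TrL.c (I.mix (nat_lit 8088324) (nat_lit 89478486)) T1.l6
  TrL.n)))))))) (by decide +kernel)
theorem bx2_15 : BoxOK sI cl13 cl4 cl4 t1 t1 b2_15 :=
  box_mk (TrL.c (I.pos (nat_lit 0) (nat_lit 0)) (xa T1.l0 T1.l0)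
  (TrL.c (I.pos (nat_lit 0) (nat_lit 0)) T1.l1
  (TrL.c (I.pos (nat_lit 0) (nat_lit 134217730)) (xR (xR T1.l6 T1.l2) T1.l2)
  (TrL.c (I.pos (nat_lit 0) (nat_lit 110514882)) (xR T1.l6 (xR T1.l3 T1.l3))
  (TrL.c (I.pos (nat_lit 0) (nat_lit 0)) T1.l4
  (TrL.c (I.pos (nat_lit 0) (nat_lit 0)) T1.l5
  (TrL.c (I.mix (nat_lit 8088324) (nat_lit 110514882)) (xR T1.l6 T1.l6)
  (TrL.c (I.mix (nat_lit 8088324) (nat_lit 89478486)) (xR T1.l7 T1.l7)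
  TrL.n)))))))) (by decide +kernel)
theorem bx2_16 : BoxOK sI cl13 cl4 cl4 t1 t1 b2_16 :=
  box_mk (TrL.c (I.pos (nat_lit 0) (nat_lit 0)) T1.l17
  (TrL.c (I.pos (nat_lit 0) (nat_lit 0)) T1.l12
  (TrL.c (I.pos (nat_lit 0) (nat_lit 134217730)) (xR T1.l2 (xR T1.l2 T1.l2))
  (TrL.c (I.pos (nat_lit 0) (nat_lit 110514882)) T1.l6
  (TrL.c (I.pos (nat_lit 0) (nat_lit 0)) T1.l18
  (TrL.c (I.pos (nat_lit 0) (nat_lit 0)) T1.l5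
  (TrL.c (I.mix (nat_lit 8088324) (nat_lit 110514882)) (xR T1.l6 T1.l6)
  (TrL.c (I.mix (nat_lit 8088324) (nat_lit 89478486)) T1.l6
  TrL.n)))))))) (by decide +kernel)
theorem bx2_17 : BoxOK sI cl13 cl4 cl4 t1 t1 b2_17 :=
  box_mk (TrL.c (I.pos (nat_lit 0) (nat_lit 0)) (xa (xb T1.l0 (xa T1.l0 T1.l0)) (xb (xa T1.l0 T1.l0) (xa T1.l0 (xb T1.l0 T1.l0))))
  (TrL.c (I.pos (nat_lit 0) (nat_lit 0)) (xa (xb T1.l1 T1.l1) (xk (xb T1.l1 T1.l1) (xb T1.l1 T1.l1)))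
  (TrL.c (I.pos (nat_lit 0) (nat_lit 134217730)) (xR (xR T1.l6 T1.l2) (xR T1.l2 (xR T1.l2 T1.l6)))
  (TrL.c (I.pos (nat_lit 0) (nat_lit 110514882)) (xR T1.l14 (xR T1.l3 (xR T1.l3 (xR T1.l3 T1.l3))))
  (TrL.c (I.pos (nat_lit 0) (nat_lit 0)) (xa (xb (xk T1.l4 T1.l4) T1.l4) (xb (xk (xa T1.l4 (xb T1.l4 T1.l4)) (xa T1.l4 T1.l4)) (xk (xa T1.l4 T1.l4) (xa T1.l4 T1.l4))))
  (TrL.c (I.pos (nat_lit 0) (nat_lit 0)) (xk (xa T1.l5 T1.l5) T1.l5)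
  (TrL.c (I.mix (nat_lit 8088324) (nat_lit 110514882)) (xR (xR T1.l6 T1.l6) (xR T1.l6 (xR T1.l6 (xR T1.l6 T1.l6))))
  (TrL.c (I.mix (nat_lit 8088324) (nat_lit 89478486)) (xR T1.l7 T1.l3)
  TrL.n)))))))) (by decide +kernel)
theorem bx2_18 : BoxOK sI cl13 cl4 cl4 t1 t1 b2_18 :=
  box_mk (TrL.c (I.pos (nat_lit 0) (nat_lit 0)) (xb T1.l17 T1.l17)
  (TrL.c (I.pos (nat_lit 0) (nat_lit 0)) T1.l12
  (TrL.c (I.pos (nat_lit 0) (nat_lit 134217730)) (xR T1.l2 (xR T1.l2 (xR T1.l2 T1.l2)))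
  (TrL.c (I.pos (nat_lit 0) (nat_lit 110514882)) T1.l6
  (TrL.c (I.pos (nat_lit 0) (nat_lit 0)) T1.l18
  (TrL.c (I.pos (nat_lit 0) (nat_lit 0)) T1.l5
  (TrL.c (I.mix (nat_lit 8088324) (nat_lit 110514882)) (xR T1.l14 T1.l6)
  (TrL.c (I.mix (nat_lit 8088324) (nat_lit 89478486)) T1.l14
  TrL.n)))))))) (by decide +kernel)
theorem bx2_19 : BoxOK sI cl13 cl4 cl4 t1 t1 b2_19 :=
  box_mk (TrL.c (I.pos (nat_lit 0) (nat_lit 0)) T1.l0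
  (TrL.c (I.pos (nat_lit 0) (nat_lit 0)) T1.l1
  (TrL.c (I.pos (nat_lit 0) (nat_lit 134217730)) (xR (xR T1.l6 T1.l2) T1.l2)
  (TrL.c (I.pos (nat_lit 0) (nat_lit 110514882)) (xR T1.l14 (xR T1.l3 T1.l3))
  (TrL.c (I.pos (nat_lit 0) (nat_lit 0)) (xk T1.l4 T1.l4)
  (TrL.c (I.pos (nat_lit 0) (nat_lit 0)) T1.l5
  (TrL.c (I.mix (nat_lit 8088324) (nat_lit 110514882)) (xR (xR T1.l6 T1.l6) (xR T1.l6 T1.l6))
  (TrL.c (I.mix (nat_lit 8088324) (nat_lit 89478486)) (xR T1.l7 T1.l3)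
  TrL.n)))))))) (by decide +kernel)
theorem bx2_20 : BoxOK sI cl13 cl4 cl4 t1 t1 b2_20 :=
  box_mk (TrL.c (I.pos (nat_lit 0) (nat_lit 0)) T1.l17
  (TrL.c (I.pos (nat_lit 0) (nat_lit 0)) T1.l12
  (TrL.c (I.pos (nat_lit 0) (nat_lit 134217730)) (xR T1.l2 (xR T1.l2 (xR T1.l2 T1.l2)))
  (TrL.c (I.pos (nat_lit 0) (nat_lit 110514882)) T1.l6
  (TrL.c (I.pos (nat_lit 0) (nat_lit 0)) T1.l18
  (TrL.c (I.pos (nat_lit 0) (nat_lit 0)) T1.l5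
  (TrL.c (I.mix (nat_lit 8088324) (nat_lit 110514882)) (xR T1.l14 T1.l6)
  (TrL.c (I.mix (nat_lit 8088324) (nat_lit 89478486)) T1.l14
  TrL.n)))))))) (by decide +kernel)
theorem bx2_21 : BoxOK sI cl13 cl4 cl4 t1 t1 b2_21 :=
  box_mk (TrL.c (I.pos (nat_lit 0) (nat_lit 0)) T1.l17
  (TrL.c (I.pos (nat_lit 0) (nat_lit 0)) T1.l1
  (TrL.c (I.pos (nat_lit 0) (nat_lit 134217730)) (xR T1.l2 (xR T1.l2 T1.l2))
  (TrL.c (I.pos (nat_lit 0) (nat_lit 110514882)) (xR T1.l3 T1.l6)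
  (TrL.c (I.pos (nat_lit 0) (nat_lit 0)) T1.l18
  (TrL.c (I.pos (nat_lit 0) (nat_lit 0)) T1.l5
  (TrL.c (I.mix (nat_lit 8088324) (nat_lit 110514882)) (xR T1.l6 T1.l6)
  (TrL.c (I.mix (nat_lit 8088324) (nat_lit 89478486)) T1.l6
  TrL.n)))))))) (by decide +kernel)
theorem bx2_22 : BoxOK sI cl13 cl4 cl4 t1 t1 b2_22 :=
  box_mk (TrL.c (I.pos (nat_lit 0) (nat_lit 0)) T1.l17
  (TrL.c (I.pos (nat_lit 0) (nat_lit 0)) T1.l12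
  (TrL.c (I.pos (nat_lit 0) (nat_lit 134217730)) (xR T1.l2 (xR T1.l2 T1.l2))
  (TrL.c (I.pos (nat_lit 0) (nat_lit 110514882)) T1.l6
  (TrL.c (I.pos (nat_lit 0) (nat_lit 0)) T1.l18
  (TrL.c (I.pos (nat_lit 0) (nat_lit 0)) T1.l5
  (TrL.c (I.mix (nat_lit 8088324) (nat_lit 110514882)) (xR T1.l6 T1.l6)
  (TrL.c (I.mix (nat_lit 8088324) (nat_lit 89478486)) T1.l6
  TrL.n)))))))) (by decide +kernel)
theorem bx2_23 : BoxOK sI cl13 cl4 cl4 t1 t1 b2_23 :=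
  box_mk (TrL.c (I.pos (nat_lit 0) (nat_lit 0)) T1.l0
  (TrL.c (I.pos (nat_lit 0) (nat_lit 0)) T1.l1
  (TrL.c (I.pos (nat_lit 0) (nat_lit 134217730)) (xR (xR T1.l6 T1.l2) T1.l2)
  (TrL.c (I.pos (nat_lit 0) (nat_lit 110514882)) (xR T1.l14 (xR T1.l3 T1.l3))
  (TrL.c (I.pos (nat_lit 0) (nat_lit 0)) T1.l0
  (TrL.c (I.pos (nat_lit 0) (nat_lit 0)) T1.l5
  (TrL.c (I.mix (nat_lit 8088324) (nat_lit 110514882)) (xR (xR T1.l6 T1.l6) (xR T1.l6 T1.l6))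
  (TrL.c (I.mix (nat_lit 8088324) (nat_lit 89478486)) (xR T1.l7 T1.l3)
  TrL.n)))))))) (by decide +kernel)
theorem bx2_24 : BoxOK sI cl13 cl4 cl4 t1 t1 b2_24 :=
  box_mk (TrL.c (I.pos (nat_lit 0) (nat_lit 0)) T1.l17
  (TrL.c (I.pos (nat_lit 0) (nat_lit 0)) T1.l12
  (TrL.c (I.pos (nat_lit 0) (nat_lit 134217730)) (xR T1.l2 (xR T1.l2 (xR T1.l2 T1.l2)))
  (TrL.c (I.pos (nat_lit 0) (nat_lit 110514882)) T1.l6
  (TrL.c (I.pos (nat_lit 0) (nat_lit 0)) T1.l18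
  (TrL.c (I.pos (nat_lit 0) (nat_lit 0)) T1.l5
  (TrL.c (I.mix (nat_lit 8088324) (nat_lit 110514882)) (xR T1.l14 T1.l6)
  (TrL.c (I.mix (nat_lit 8088324) (nat_lit 89478486)) T1.l14
  TrL.n)))))))) (by decide +kernel)
theorem sv2 : StarV sI cl13 cl4 cl4 t1 t1 t2 :=
  (bt_n (bt_n (bt_n (bt_n (bt_b bx2_0) (bt_n (bt_b bx2_1) (bt_b bx2_2))) (bt_n (bt_b bx2_3) (bt_n (bt_b bx2_4) (bt_b bx2_5)))) (bt_n (bt_n (bt_b bx2_6) (bt_n (bt_b bx2_7) (bt_b bx2_8))) (bt_n (bt_b bx2_9) (bt_n (bt_b bx2_10) (bt_b bx2_11))))) (bt_n (bt_n (bt_n (bt_b bx2_12) (bt_n (bt_b bx2_13) (bt_b bx2_14))) (bt_n (bt_b bx2_15) (bt_n (bt_b bx2_16) (bt_b bx2_17)))) (bt_n (bt_n (bt_b bx2_18) (bt_n (bt_b bx2_19) (bt_b bx2_20))) (bt_n (bt_n (bt_b bx2_21) (bt_b bx2_22)) (bt_n (bt_b bx2_23) (bt_b bx2_24))))))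
def S2 : StarD := StarD.mk cl13 cl4 cl4 1 1 t2
def G : List StarD := [S0, S1, S2]
theorem so0 : StarOK sI G S0 :=
  star_mk (by decide) (by decide) rfl rfl rfl rfl rfl rfl (rfl : _ = t0) (rfl : _ = t2)
  (st_mk (Pth.l (Pth.l (Pth.l Pth.z))) (nat_lit 389559934) (nat_lit 394966167) (by decide +kernel))
  (st_mk (Pth.l (Pth.l (Pth.l Pth.z))) (nat_lit 429774935) (nat_lit 436475233) (by decide +kernel))
  (st_mk (Pth.l (Pth.l (Pth.l Pth.z))) (nat_lit 476943541) (nat_lit 485377958) (by decide +kernel)) sv0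
theorem so1 : StarOK sI G S1 :=
  star_mk (by decide) (by decide) rfl rfl rfl rfl rfl rfl (rfl : _ = t2) (rfl : _ = t0)
  (st_mk (Pth.l (Pth.l (Pth.l (Pth.l Pth.z)))) (nat_lit 99484175) (nat_lit 119532426) (by decide +kernel))
  (st_mk (Pth.l (Pth.l (Pth.l (Pth.l Pth.z)))) (nat_lit 137694376) (nat_lit 158799811) (by decide +kernel))
  (st_mk (Pth.l (Pth.l (Pth.l (Pth.l Pth.z)))) (nat_lit 181424197) (nat_lit 207831786) (by decide +kernel)) sv1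
theorem so2 : StarOK sI G S2 :=
  star_mk (by decide) (by decide) rfl rfl rfl rfl rfl rfl (rfl : _ = t1) (rfl : _ = t1)
  (st_mk (Pth.l (Pth.l (Pth.l (Pth.l Pth.z)))) (nat_lit 364798899) (nat_lit 368682966) (by decide +kernel))
  (st_mk (Pth.l (Pth.l (Pth.l (Pth.l Pth.z)))) (nat_lit 399695508) (nat_lit 404255629) (by decide +kernel))
  (st_mk (Pth.l (Pth.l (Pth.l (Pth.l Pth.z)))) (nat_lit 439960827) (nat_lit 445380120) (by decide +kernel)) sv2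
theorem ok : GroupOK (nat_lit 150274048) (nat_lit 209387520) G := grp_mk (allS_c so0 (allS_c so1 (allS_c so2 allS_n)))
theorem cov : GCov G cl4 cl4 cl13 := cov_mk
  ⟨0, by decide, rfl, rfl, rfl⟩ ⟨1, by decide, rfl, rfl, rfl⟩ ⟨0, by decide, rfl, rfl, rfl⟩ ⟨1, by decide, rfl, rfl, rfl⟩ ⟨2, by decide, rfl, rfl, rfl⟩ ⟨2, by decide, rfl, rfl, rfl⟩
end Q116_2


end Pool.Agent.Helper6.MONO
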