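import Pool.Agent.Helper6.MONO.Cert.C48

/-!
Certificate data (generated).
-/

set_option autoImplicit false
set_option linter.all false
noncomputable section
namespace Pool.Agent.Helper6.MONO


namespace Q116_3
def sI : I := I.pos (nat_lit 209321984) (nat_lit 238944256)
def b0_0 : Bx := Bx.mk (St.mk (I.pos (nat_lit 148455424) (nat_lit 220971008)) (I.mix (nat_lit 2998272) (nat_lit 105660416)) (I.mix (nat_lit 61014016) (nat_lit 38993920)) (I.pos (nat_lit 389857280) (nat_lit 502956032)) (I.mix (nat_lit 161808384) (nat_lit 133890048)) (I.mix (nat_lit 104693760) (nat_lit 130105344)) (I.mix (nat_lit 175718400) (nat_lit 171606016)))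
  false (nat_lit 96044247)
def b0_1 : Bx := Bx.mk (St.mk (I.mix (nat_lit 40927232) (nat_lit 9388032)) (I.pos (nat_lit 24821760) (nat_lit 75546624)) (I.neg (nat_lit 78692352) (nat_lit 107151360)) (I.pos (nat_lit 255508480) (nat_lit 280625152)) (I.mix (nat_lit 46940160) (nat_lit 159760384)) (I.mix (nat_lit 108134400) (nat_lit 74874880)) (I.mix (nat_lit 53510144) (nat_lit 57458688)))
  true (nat_lit 0)
def b0_2 : Bx := Bx.mk (St.mk (I.mix (nat_lit 9388032) (nat_lit 40927232)) (I.neg (nat_lit 24821760) (nat_lit 75546624)) (I.neg (nat_lit 78692352) (nat_lit 107151360)) (I.pos (nat_lit 255508480) (nat_lit 280625152)) (I.mix (nat_lit 159760384) (nat_lit 46940160)) (I.mix (nat_lit 74874880) (nat_lit 108134400)) (I.mix (nat_lit 53510144) (nat_lit 57458688)))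
  false (nat_lit 27189720)
def b0_3 : Bx := Bx.mk (St.mk (I.mix (nat_lit 22478848) (nat_lit 4096000)) (I.mix (nat_lit 15204352) (nat_lit 11436032)) (I.neg (nat_lit 79659008) (nat_lit 90030080)) (I.pos (nat_lit 255328256) (nat_lit 265076736)) (I.mix (nat_lit 60276736) (nat_lit 47824896)) (I.mix (nat_lit 52559872) (nat_lit 41648128)) (I.mix (nat_lit 1163264) (nat_lit 25444352)))
  true (nat_lit 0)
def b0_4 : Bx := Bx.mk (St.mk (I.pos (nat_lit 202522624) (nat_lit 251445248)) (I.mix (nat_lit 22134784) (nat_lit 18169856)) (I.neg (nat_lit 122503168) (nat_lit 194478080)) (I.pos (nat_lit 425132032) (nat_lit 515571712)) (I.mix (nat_lit 135315456) (nat_lit 71417856)) (I.mix (nat_lit 100761600) (nat_lit 86851584)) (I.mix (nat_lit 133185536) (nat_lit 183402496)))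
  false (nat_lit 28427963)
def b0_5 : Bx := Bx.mk (St.mk (I.mix (nat_lit 5029888) (nat_lit 22478848)) (I.mix (nat_lit 11436032) (nat_lit 15204352)) (I.neg (nat_lit 79659008) (nat_lit 90030080)) (I.pos (nat_lit 255328256) (nat_lit 265076736)) (I.mix (nat_lit 47824896) (nat_lit 60276736)) (I.mix (nat_lit 41648128) (nat_lit 52559872)) (I.mix (nat_lit 1163264) (nat_lit 25444352)))
  false (nat_lit 0)
def b0_6 : Bx := Bx.mk (St.mk (I.mix (nat_lit 6225920) (nat_lit 4866048)) (I.mix (nat_lit 4292608) (nat_lit 8814592)) (I.neg (nat_lit 80347136) (nat_lit 89341952)) (I.pos (nat_lit 255229952) (nat_lit 263782400)) (I.mix (nat_lit 24264704) (nat_lit 28688384)) (I.mix (nat_lit 21381120) (nat_lit 24788992)) (I.pos (nat_lit 5750784) (nat_lit 16678912)))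
  true (nat_lit 0)
def b0_7 : Bx := Bx.mk (St.mk (I.mix (nat_lit 999424) (nat_lit 64471040)) (I.neg (nat_lit 29523968) (nat_lit 80658432)) (I.neg (nat_lit 63078400) (nat_lit 114556928)) (I.pos (nat_lit 252608512) (nat_lit 297074688)) (I.mix (nat_lit 155123712) (nat_lit 77447168)) (I.mix (nat_lit 82427904) (nat_lit 103645184)) (I.mix (nat_lit 89620480) (nat_lit 96665600)))
  false (nat_lit 56403337)
def b0_8 : Bx := Bx.mk (St.mk (I.pos (nat_lit 133726208) (nat_lit 199393280)) (I.pos (nat_lit 13664256) (nat_lit 78692352)) (I.mix (nat_lit 43220992) (nat_lit 29376512)) (I.pos (nat_lit 361480192) (nat_lit 458522624)) (I.mix (nat_lit 168263680) (nat_lit 93503488)) (I.mix (nat_lit 144211968) (nat_lit 123961344)) (I.mix (nat_lit 144687104) (nat_lit 135954432)))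
  false (nat_lit 81483267)
def b0_9 : Bx := Bx.mk (St.mk (I.mix (nat_lit 64471040) (nat_lit 999424)) (I.pos (nat_lit 29523968) (nat_lit 80658432)) (I.neg (nat_lit 63078400) (nat_lit 114573312)) (I.pos (nat_lit 252608512) (nat_lit 297091072)) (I.mix (nat_lit 77463552) (nat_lit 155123712)) (I.mix (nat_lit 103645184) (nat_lit 82427904)) (I.mix (nat_lit 89636864) (nat_lit 96665600)))
  true (nat_lit 0)
def b0_10 : Bx := Bx.mk (St.mk (I.mix (nat_lit 6275072) (nat_lit 5029888)) (I.mix (nat_lit 4521984) (nat_lit 8814592)) (I.neg (nat_lit 80297984) (nat_lit 89374720)) (I.pos (nat_lit 255213568) (nat_lit 263831552)) (I.mix (nat_lit 24461312) (nat_lit 28704768)) (I.mix (nat_lit 21397504) (nat_lit 24838144)) (I.pos (nat_lit 5750784) (nat_lit 16695296)))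
  true (nat_lit 0)
def b0_11 : Bx := Bx.mk (St.mk (I.pos (nat_lit 187940864) (nat_lit 239501312)) (I.mix (nat_lit 20791296) (nat_lit 44908544)) (I.neg (nat_lit 70238208) (nat_lit 188514304)) (I.pos (nat_lit 418267136) (nat_lit 487096320)) (I.mix (nat_lit 151601152) (nat_lit 78987264)) (I.mix (nat_lit 107724800) (nat_lit 106020864)) (I.mix (nat_lit 130056192) (nat_lit 206667776)))
  false (nat_lit 64089029)
def b0_12 : Bx := Bx.mk (St.mk (I.neg (nat_lit 1703936) (nat_lit 29556736)) (I.mix (nat_lit 14434304) (nat_lit 30556160)) (I.neg (nat_lit 79298560) (nat_lit 93552640)) (I.pos (nat_lit 254885888) (nat_lit 267485184)) (I.mix (nat_lit 69992448) (nat_lit 51658752)) (I.mix (nat_lit 55312384) (nat_lit 51412992)) (I.mix (nat_lit 7716864) (nat_lit 30523392)))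
  true (nat_lit 0)
def b0_13 : Bx := Bx.mk (St.mk (I.pos (nat_lit 1703936) (nat_lit 29556736)) (I.mix (nat_lit 30556160) (nat_lit 14434304)) (I.neg (nat_lit 79298560) (nat_lit 93552640)) (I.pos (nat_lit 254885888) (nat_lit 267485184)) (I.mix (nat_lit 51658752) (nat_lit 70074368)) (I.mix (nat_lit 51478528) (nat_lit 55312384)) (I.mix (nat_lit 7716864) (nat_lit 30523392)))
  false (nat_lit 0)
def b0_14 : Bx := Bx.mk (St.mk (I.pos (nat_lit 28164096) (nat_lit 75595776)) (I.neg (nat_lit 11419648) (nat_lit 54738944)) (I.neg (nat_lit 54673408) (nat_lit 95387648)) (I.pos (nat_lit 259620864) (nat_lit 297844736)) (I.mix (nat_lit 114163712) (nat_lit 52051968)) (I.mix (nat_lit 43941888) (nat_lit 78594048)) (I.mix (nat_lit 46104576) (nat_lit 68665344)))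
  false (nat_lit 0)
def b0_15 : Bx := Bx.mk (St.mk (I.pos (nat_lit 135528448) (nat_lit 180699136)) (I.mix (nat_lit 18153472) (nat_lit 30720000)) (I.neg (nat_lit 24526848) (nat_lit 82296832)) (I.pos (nat_lit 344948736) (nat_lit 403865600)) (I.mix (nat_lit 78397440) (nat_lit 103776256)) (I.mix (nat_lit 91996160) (nat_lit 79183872)) (I.mix (nat_lit 98713600) (nat_lit 65404928)))
  false (nat_lit 0)
def b0_16 : Bx := Bx.mk (St.mk (I.neg (nat_lit 28164096) (nat_lit 75595776)) (I.pos (nat_lit 11403264) (nat_lit 54738944)) (I.neg (nat_lit 54673408) (nat_lit 95387648)) (I.pos (nat_lit 259620864) (nat_lit 297844736)) (I.mix (nat_lit 52051968) (nat_lit 114163712)) (I.mix (nat_lit 78594048) (nat_lit 43991040)) (I.mix (nat_lit 46071808) (nat_lit 68665344)))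
  true (nat_lit 0)
def b0_17 : Bx := Bx.mk (St.mk (I.pos (nat_lit 49119232) (nat_lit 113573888)) (I.neg (nat_lit 11026432) (nat_lit 60719104)) (I.neg (nat_lit 47104000) (nat_lit 97615872)) (I.pos (nat_lit 271302656) (nat_lit 325877760)) (I.mix (nat_lit 62963712) (nat_lit 33390592)) (I.mix (nat_lit 29376512) (nat_lit 33423360)) (I.mix (nat_lit 25001984) (nat_lit 35274752)))
  false (nat_lit 0)
def b0_18 : Bx := Bx.mk (St.mk (I.pos (nat_lit 91160576) (nat_lit 154583040)) (I.mix (nat_lit 30965760) (nat_lit 23953408)) (I.neg (nat_lit 22167552) (nat_lit 75513856)) (I.pos (nat_lit 301580288) (nat_lit 370999296)) (I.mix (nat_lit 57147392) (nat_lit 36585472)) (I.mix (nat_lit 37027840) (nat_lit 36356096)) (I.mix (nat_lit 33521664) (nat_lit 36569088)))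
  false (nat_lit 0)
def b0_19 : Bx := Bx.mk (St.mk (I.neg (nat_lit 49119232) (nat_lit 113573888)) (I.pos (nat_lit 11026432) (nat_lit 60719104)) (I.neg (nat_lit 47104000) (nat_lit 97615872)) (I.pos (nat_lit 271302656) (nat_lit 325877760)) (I.mix (nat_lit 33357824) (nat_lit 62963712)) (I.mix (nat_lit 33423360) (nat_lit 29360128)) (I.mix (nat_lit 25034752) (nat_lit 35274752)))
  true (nat_lit 0)
def b0_20 : Bx := Bx.mk (St.mk (I.pos (nat_lit 55033856) (nat_lit 109019136)) (I.neg (nat_lit 4046848) (nat_lit 48873472)) (I.neg (nat_lit 43532288) (nat_lit 88850432)) (I.pos (nat_lit 274153472) (nat_lit 322404352)) (I.mix (nat_lit 63160320) (nat_lit 23887872)) (I.mix (nat_lit 23068672) (nat_lit 34242560)) (I.mix (nat_lit 20660224) (nat_lit 34439168)))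
  false (nat_lit 0)
def b0_21 : Bx := Bx.mk (St.mk (I.pos (nat_lit 95469568) (nat_lit 149946368)) (I.mix (nat_lit 37978112) (nat_lit 10600448)) (I.neg (nat_lit 33882112) (nat_lit 84459520)) (I.pos (nat_lit 302972928) (nat_lit 364199936)) (I.mix (nat_lit 46120960) (nat_lit 42631168)) (I.mix (nat_lit 32112640) (nat_lit 31195136)) (I.mix (nat_lit 32079872) (nat_lit 30932992)))
  false (nat_lit 0)
def b0_22 : Bx := Bx.mk (St.mk (I.neg (nat_lit 55033856) (nat_lit 109035520)) (I.pos (nat_lit 4046848) (nat_lit 48873472)) (I.neg (nat_lit 43532288) (nat_lit 88850432)) (I.pos (nat_lit 274153472) (nat_lit 322404352)) (I.mix (nat_lit 23887872) (nat_lit 63160320)) (I.mix (nat_lit 34242560) (nat_lit 23085056)) (I.mix (nat_lit 20660224) (nat_lit 34439168)))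
  true (nat_lit 0)
def b0_23 : Bx := Bx.mk (St.mk (I.pos (nat_lit 17612800) (nat_lit 64405504)) (I.neg (nat_lit 17399808) (nat_lit 75284480)) (I.neg (nat_lit 59981824) (nat_lit 108478464)) (I.pos (nat_lit 256245760) (nat_lit 295845888)) (I.mix (nat_lit 131792896) (nat_lit 80412672)) (I.mix (nat_lit 59621376) (nat_lit 110804992)) (I.mix (nat_lit 67485696) (nat_lit 101842944)))
  false (nat_lit 25416679)
def b0_24 : Bx := Bx.mk (St.mk (I.pos (nat_lit 136019968) (nat_lit 190758912)) (I.mix (nat_lit 131072) (nat_lit 60522496)) (I.mix (nat_lit 68714496) (nat_lit 11419648)) (I.pos (nat_lit 362545152) (nat_lit 423362560)) (I.mix (nat_lit 137134080) (nat_lit 131891200)) (I.mix (nat_lit 151093248) (nat_lit 105873408)) (I.mix (nat_lit 155910144) (nat_lit 86327296)))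
  false (nat_lit 0)
def b0_25 : Bx := Bx.mk (St.mk (I.neg (nat_lit 17612800) (nat_lit 64405504)) (I.pos (nat_lit 17399808) (nat_lit 75284480)) (I.neg (nat_lit 59981824) (nat_lit 108478464)) (I.pos (nat_lit 256245760) (nat_lit 295862272)) (I.mix (nat_lit 80429056) (nat_lit 131792896)) (I.mix (nat_lit 110854144) (nat_lit 59686912)) (I.mix (nat_lit 67485696) (nat_lit 101859328)))
  true (nat_lit 0)
def b0_26 : Bx := Bx.mk (St.mk (I.pos (nat_lit 33193984) (nat_lit 75595776)) (I.neg (nat_lit 11239424) (nat_lit 53837824)) (I.neg (nat_lit 53968896) (nat_lit 95240192)) (I.pos (nat_lit 261832704) (nat_lit 299335680)) (I.mix (nat_lit 90701824) (nat_lit 58966016)) (I.mix (nat_lit 50167808) (nat_lit 65208320)) (I.mix (nat_lit 46792704) (nat_lit 60948480)))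
  false (nat_lit 0)
def b0_27 : Bx := Bx.mk (St.mk (I.pos (nat_lit 135970816) (nat_lit 173932544)) (I.mix (nat_lit 15499264) (nat_lit 25657344)) (I.neg (nat_lit 27426816) (nat_lit 78217216)) (I.pos (nat_lit 345538560) (nat_lit 394526720)) (I.mix (nat_lit 88145920) (nat_lit 78888960)) (I.mix (nat_lit 82427904) (nat_lit 77217792)) (I.mix (nat_lit 80248832) (nat_lit 71385088)))
  false (nat_lit 0)
def b0_28 : Bx := Bx.mk (St.mk (I.neg (nat_lit 33193984) (nat_lit 75595776)) (I.pos (nat_lit 11239424) (nat_lit 53837824)) (I.neg (nat_lit 53968896) (nat_lit 95240192)) (I.pos (nat_lit 261832704) (nat_lit 299335680)) (I.mix (nat_lit 58982400) (nat_lit 90701824)) (I.mix (nat_lit 65208320) (nat_lit 50167808)) (I.mix (nat_lit 46809088) (nat_lit 60997632)))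
  true (nat_lit 0)
def b0_29 : Bx := Bx.mk (St.mk (I.pos (nat_lit 49020928) (nat_lit 116850688)) (I.neg (nat_lit 6602752) (nat_lit 60391424)) (I.neg (nat_lit 44810240) (nat_lit 95797248)) (I.pos (nat_lit 271843328) (nat_lit 328630272)) (I.mix (nat_lit 69959680) (nat_lit 47988736)) (I.mix (nat_lit 29163520) (nat_lit 52707328)) (I.mix (nat_lit 27721728) (nat_lit 51200000)))
  false (nat_lit 0)
def b0_30 : Bx := Bx.mk (St.mk (I.pos (nat_lit 89096192) (nat_lit 152633344)) (I.mix (nat_lit 35389440) (nat_lit 25624576)) (I.neg (nat_lit 20135936) (nat_lit 80789504)) (I.pos (nat_lit 299139072) (nat_lit 370507776)) (I.mix (nat_lit 66617344) (nat_lit 42811392)) (I.mix (nat_lit 56492032) (nat_lit 34521088)) (I.mix (nat_lit 50511872) (nat_lit 33062912)))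
  false (nat_lit 0)
def b0_31 : Bx := Bx.mk (St.mk (I.neg (nat_lit 49004544) (nat_lit 116850688)) (I.pos (nat_lit 6602752) (nat_lit 60391424)) (I.neg (nat_lit 44810240) (nat_lit 95797248)) (I.pos (nat_lit 271843328) (nat_lit 328630272)) (I.mix (nat_lit 48005120) (nat_lit 69959680)) (I.mix (nat_lit 52740096) (nat_lit 29163520)) (I.mix (nat_lit 27738112) (nat_lit 51150848)))
  true (nat_lit 0)
def b0_32 : Bx := Bx.mk (St.mk (I.pos (nat_lit 78987264) (nat_lit 110231552)) (I.neg (nat_lit 4014080) (nat_lit 35913728)) (I.neg (nat_lit 43417600) (nat_lit 80003072)) (I.pos (nat_lit 290521088) (nat_lit 323338240)) (I.mix (nat_lit 44220416) (nat_lit 26935296)) (I.mix (nat_lit 20692992) (nat_lit 30425088)) (I.mix (nat_lit 18448384) (nat_lit 31096832)))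
  false (nat_lit 0)
def b0_33 : Bx := Bx.mk (St.mk (I.pos (nat_lit 94224384) (nat_lit 147210240)) (I.mix (nat_lit 38076416) (nat_lit 8798208)) (I.neg (nat_lit 35012608) (nat_lit 84017152)) (I.pos (nat_lit 301907968) (nat_lit 360251392)) (I.mix (nat_lit 49102848) (nat_lit 25739264)) (I.mix (nat_lit 27820032) (nat_lit 27574272)) (I.mix (nat_lit 24363008) (nat_lit 29458432)))
  false (nat_lit 0)
def b0_34 : Bx := Bx.mk (St.mk (I.neg (nat_lit 78987264) (nat_lit 110247936)) (I.pos (nat_lit 4014080) (nat_lit 35930112)) (I.neg (nat_lit 43417600) (nat_lit 80003072)) (I.pos (nat_lit 290504704) (nat_lit 323338240)) (I.mix (nat_lit 26935296) (nat_lit 44220416)) (I.mix (nat_lit 30425088) (nat_lit 20692992)) (I.mix (nat_lit 18448384) (nat_lit 31096832)))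
  true (nat_lit 0)
def b0_35 : Bx := Bx.mk (St.mk (I.pos (nat_lit 30949376) (nat_lit 64765952)) (I.neg (nat_lit 22790144) (nat_lit 55361536)) (I.neg (nat_lit 62242816) (nat_lit 94011392)) (I.pos (nat_lit 262520832) (nat_lit 292519936)) (I.mix (nat_lit 73842688) (nat_lit 24084480)) (I.mix (nat_lit 21151744) (nat_lit 46350336)) (I.mix (nat_lit 23986176) (nat_lit 43483136)))
  false (nat_lit 0)
def b0_36 : Bx := Bx.mk (St.mk (I.pos (nat_lit 143425536) (nat_lit 177291264)) (I.pos (nat_lit 376832) (nat_lit 32882688)) (I.neg (nat_lit 23085056) (nat_lit 64028672)) (I.pos (nat_lit 360595456) (nat_lit 401883136)) (I.mix (nat_lit 55033856) (nat_lit 52035584)) (I.mix (nat_lit 52199424) (nat_lit 39813120)) (I.mix (nat_lit 55230464) (nat_lit 34865152)))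
  false (nat_lit 0)
def b0_37 : Bx := Bx.mk (St.mk (I.neg (nat_lit 30949376) (nat_lit 64765952)) (I.pos (nat_lit 22790144) (nat_lit 55361536)) (I.neg (nat_lit 62242816) (nat_lit 94011392)) (I.pos (nat_lit 262520832) (nat_lit 292519936)) (I.mix (nat_lit 24084480) (nat_lit 73842688)) (I.mix (nat_lit 46366720) (nat_lit 21151744)) (I.mix (nat_lit 24002560) (nat_lit 43499520)))
  true (nat_lit 0)
def b0_38 : Bx := Bx.mk (St.mk (I.pos (nat_lit 54149120) (nat_lit 71794688)) (I.neg (nat_lit 32849920) (nat_lit 47890432)) (I.neg (nat_lit 66633728) (nat_lit 84934656)) (I.pos (nat_lit 275464192) (nat_lit 293863424)) (I.neg (nat_lit 4276224) (nat_lit 34111488)) (I.mix (nat_lit 1851392) (nat_lit 14925824)) (I.mix (nat_lit 2424832) (nat_lit 17285120)))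
  false (nat_lit 0)
def b0_39 : Bx := Bx.mk (St.mk (I.pos (nat_lit 137904128) (nat_lit 149995520)) (I.pos (nat_lit 5292032) (nat_lit 16433152)) (I.neg (nat_lit 32489472) (nat_lit 49987584)) (I.pos (nat_lit 350863360) (nat_lit 368508928)) (I.mix (nat_lit 15302656) (nat_lit 6356992)) (I.mix (nat_lit 11206656) (nat_lit 4931584)) (I.mix (nat_lit 11485184) (nat_lit 5455872)))
  false (nat_lit 0)
def b0_40 : Bx := Bx.mk (St.mk (I.neg (nat_lit 54149120) (nat_lit 71811072)) (I.pos (nat_lit 32833536) (nat_lit 47890432)) (I.neg (nat_lit 66633728) (nat_lit 84934656)) (I.pos (nat_lit 275447808) (nat_lit 293879808)) (I.pos (nat_lit 4276224) (nat_lit 34111488)) (I.mix (nat_lit 14925824) (nat_lit 1851392)) (I.mix (nat_lit 2424832) (nat_lit 17285120)))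
  true (nat_lit 0)
def b0_41 : Bx := Bx.mk (St.mk (I.pos (nat_lit 169656320) (nat_lit 232816640)) (I.pos (nat_lit 15548416) (nat_lit 95518720)) (I.mix (nat_lit 109756416) (nat_lit 13287424)) (I.pos (nat_lit 421855232) (nat_lit 497270784)) (I.mix (nat_lit 147210240) (nat_lit 134430720)) (I.mix (nat_lit 120406016) (nat_lit 107708416)) (I.mix (nat_lit 209649664) (nat_lit 142983168)))
  false (nat_lit 79625676)
def b0_42 : Bx := Bx.mk (St.mk (I.mix (nat_lit 29245440) (nat_lit 5947392)) (I.pos (nat_lit 9650176) (nat_lit 64225280)) (I.neg (nat_lit 81838080) (nat_lit 103350272)) (I.pos (nat_lit 255213568) (nat_lit 273924096)) (I.mix (nat_lit 53166080) (nat_lit 136921088)) (I.mix (nat_lit 105185280) (nat_lit 61980672)) (I.mix (nat_lit 34701312) (nat_lit 45252608)))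
  true (nat_lit 0)
def b0_43 : Bx := Bx.mk (St.mk (I.mix (nat_lit 5947392) (nat_lit 29245440)) (I.neg (nat_lit 9650176) (nat_lit 64225280)) (I.neg (nat_lit 81838080) (nat_lit 103350272)) (I.pos (nat_lit 255213568) (nat_lit 273924096)) (I.mix (nat_lit 136921088) (nat_lit 53166080)) (I.mix (nat_lit 61980672) (nat_lit 105185280)) (I.mix (nat_lit 34701312) (nat_lit 45252608)))
  false (nat_lit 0)
def b0_44 : Bx := Bx.mk (St.mk (I.neg (nat_lit 1654784) (nat_lit 27246592)) (I.mix (nat_lit 14450688) (nat_lit 26836992)) (I.neg (nat_lit 79265792) (nat_lit 93323264)) (I.pos (nat_lit 254935040) (nat_lit 267141120)) (I.mix (nat_lit 70041600) (nat_lit 49889280)) (I.mix (nat_lit 55312384) (nat_lit 51478528)) (I.mix (nat_lit 7733248) (nat_lit 30556160)))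
  true (nat_lit 0)
def t0 : BTr := (BTr.n (BTr.n (BTr.n (BTr.n (BTr.n (BTr.b b0_0) (BTr.b b0_1)) (BTr.n (BTr.b b0_2) (BTr.n (BTr.b b0_3) (BTr.b b0_4)))) (BTr.n (BTr.n (BTr.b b0_5) (BTr.n (BTr.b b0_6) (BTr.b b0_7))) (BTr.n (BTr.b b0_8) (BTr.n (BTr.b b0_9) (BTr.b b0_10))))) (BTr.n (BTr.n (BTr.n (BTr.b b0_11) (BTr.b b0_12)) (BTr.n (BTr.b b0_13) (BTr.n (BTr.b b0_14) (BTr.b b0_15)))) (BTr.n (BTr.n (BTr.b b0_16) (BTr.n (BTr.b b0_17) (BTr.b b0_18))) (BTr.n (BTr.b b0_19) (BTr.n (BTr.b b0_20) (BTr.b b0_21)))))) (BTr.n (BTr.n (BTr.n (BTr.n (BTr.b b0_22) (BTr.b b0_23)) (BTr.n (BTr.b b0_24) (BTr.n (BTr.b b0_25) (BTr.b b0_26)))) (BTr.n (BTr.n (BTr.b b0_27) (BTr.n (BTr.b b0_28) (BTr.b b0_29))) (BTr.n (BTr.b b0_30) (BTr.n (BTr.b b0_31) (BTr.b b0_32))))) (BTr.n (BTr.n (BTr.n (BTr.b b0_33) (BTr.n (BTr.b b0_34) (BTr.b b0_35))) (BTr.n (BTr.b b0_36) (BTr.n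 (BTr.b b0_37) (BTr.b b0_38)))) (BTr.n (BTr.n (BTr.b b0_39) (BTr.n (BTr.b b0_40) (BTr.b b0_41))) (BTr.n (BTr.b b0_42) (BTr.n (BTr.b b0_43) (BTr.b b0_44)))))))
namespace T0
def l0 : Tr := Tr.L (Pth.l (Pth.l (Pth.l (Pth.l (Pth.l Pth.z)))))
def l1 : Tr := Tr.L (Pth.l (Pth.l (Pth.l (Pth.l (Pth.r Pth.z)))))
def l2 : Tr := Tr.L (Pth.l (Pth.l (Pth.l (Pth.r (Pth.l Pth.z)))))
def l3 : Tr := Tr.L (Pth.l (Pth.l (Pth.l (Pth.r (Pth.r (Pth.l Pth.z))))))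
def l4 : Tr := Tr.L (Pth.l (Pth.l (Pth.l (Pth.r (Pth.r (Pth.r Pth.z))))))
def l5 : Tr := Tr.L (Pth.l (Pth.l (Pth.r (Pth.l (Pth.l Pth.z)))))
def l6 : Tr := Tr.L (Pth.l (Pth.l (Pth.r (Pth.l (Pth.r (Pth.l Pth.z))))))
def l7 : Tr := Tr.L (Pth.l (Pth.l (Pth.r (Pth.l (Pth.r (Pth.r Pth.z))))))
def l8 : Tr := Tr.L (Pth.l (Pth.l (Pth.r (Pth.r (Pth.l Pth.z)))))
def l9 : Tr := Tr.L (Pth.l (Pth.l (Pth.r (Pth.r (Pth.r (Pth.l Pth.z))))))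
def l10 : Tr := Tr.L (Pth.l (Pth.l (Pth.r (Pth.r (Pth.r (Pth.r Pth.z))))))
def l11 : Tr := Tr.L (Pth.l (Pth.r (Pth.l (Pth.l (Pth.l Pth.z)))))
def l12 : Tr := Tr.L (Pth.l (Pth.r (Pth.l (Pth.l (Pth.r Pth.z)))))
def l13 : Tr := Tr.L (Pth.l (Pth.r (Pth.l (Pth.r (Pth.l Pth.z)))))
def l14 : Tr := Tr.L (Pth.l (Pth.r (Pth.l (Pth.r (Pth.r (Pth.l Pth.z))))))
def l15 : Tr := Tr.L (Pth.l (Pth.r (Pth.l (Pth.r (Pth.r (Pth.r Pth.z))))))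
def l16 : Tr := Tr.L (Pth.l (Pth.r (Pth.r (Pth.l (Pth.l Pth.z)))))
def l17 : Tr := Tr.L (Pth.l (Pth.r (Pth.r (Pth.l (Pth.r (Pth.l Pth.z))))))
def l18 : Tr := Tr.L (Pth.l (Pth.r (Pth.r (Pth.l (Pth.r (Pth.r Pth.z))))))
def l19 : Tr := Tr.L (Pth.l (Pth.r (Pth.r (Pth.r (Pth.l Pth.z)))))
def l20 : Tr := Tr.L (Pth.l (Pth.r (Pth.r (Pth.r (Pth.r (Pth.l Pth.z))))))
def l21 : Tr := Tr.L (Pth.l (Pth.r (Pth.r (Pth.r (Pth.r (Pth.r Pth.z))))))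
def l22 : Tr := Tr.L (Pth.r (Pth.l (Pth.l (Pth.l (Pth.l Pth.z)))))
def l23 : Tr := Tr.L (Pth.r (Pth.l (Pth.l (Pth.l (Pth.r Pth.z)))))
def l24 : Tr := Tr.L (Pth.r (Pth.l (Pth.l (Pth.r (Pth.l Pth.z)))))
def l25 : Tr := Tr.L (Pth.r (Pth.l (Pth.l (Pth.r (Pth.r (Pth.l Pth.z))))))
def l26 : Tr := Tr.L (Pth.r (Pth.l (Pth.l (Pth.r (Pth.r (Pth.r Pth.z))))))
def l27 : Tr := Tr.L (Pth.r (Pth.l (Pth.r (Pth.l (Pth.l Pth.z)))))
def l28 : Tr := Tr.L (Pth.r (Pth.l (Pth.r (Pth.l (Pth.r (Pth.l Pth.z))))))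
def l29 : Tr := Tr.L (Pth.r (Pth.l (Pth.r (Pth.l (Pth.r (Pth.r Pth.z))))))
def l30 : Tr := Tr.L (Pth.r (Pth.l (Pth.r (Pth.r (Pth.l Pth.z)))))
def l31 : Tr := Tr.L (Pth.r (Pth.l (Pth.r (Pth.r (Pth.r (Pth.l Pth.z))))))
def l32 : Tr := Tr.L (Pth.r (Pth.l (Pth.r (Pth.r (Pth.r (Pth.r Pth.z))))))
def l33 : Tr := Tr.L (Pth.r (Pth.r (Pth.l (Pth.l (Pth.l Pth.z)))))
def l34 : Tr := Tr.L (Pth.r (Pth.r (Pth.l (Pth.l (Pth.r (Pth.l Pth.z))))))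
def l35 : Tr := Tr.L (Pth.r (Pth.r (Pth.l (Pth.l (Pth.r (Pth.r Pth.z))))))
def l36 : Tr := Tr.L (Pth.r (Pth.r (Pth.l (Pth.r (Pth.l Pth.z)))))
def l37 : Tr := Tr.L (Pth.r (Pth.r (Pth.l (Pth.r (Pth.r (Pth.l Pth.z))))))
def l38 : Tr := Tr.L (Pth.r (Pth.r (Pth.l (Pth.r (Pth.r (Pth.r Pth.z))))))
def l39 : Tr := Tr.L (Pth.r (Pth.r (Pth.r (Pth.l (Pth.l Pth.z)))))
def l40 : Tr := Tr.L (Pth.r (Pth.r (Pth.r (Pth.l (Pth.r (Pth.l Pth.z))))))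
def l41 : Tr := Tr.L (Pth.r (Pth.r (Pth.r (Pth.l (Pth.r (Pth.r Pth.z))))))
def l42 : Tr := Tr.L (Pth.r (Pth.r (Pth.r (Pth.r (Pth.l Pth.z)))))
def l43 : Tr := Tr.L (Pth.r (Pth.r (Pth.r (Pth.r (Pth.r (Pth.l Pth.z))))))
def l44 : Tr := Tr.L (Pth.r (Pth.r (Pth.r (Pth.r (Pth.r (Pth.r Pth.z))))))
end T0
def b1_0 : Bx := Bx.mk (St.mk (I.pos (nat_lit 158679040) (nat_lit 230850560)) (I.mix (nat_lit 1425408) (nat_lit 45580288)) (I.mix (nat_lit 2441216) (nat_lit 84656128)) (I.pos (nat_lit 96665600) (nat_lit 224903168)) (I.mix (nat_lit 119422976) (nat_lit 83247104)) (I.mix (nat_lit 89784320) (nat_lit 83771392)) (I.mix (nat_lit 138133504) (nat_lit 113278976)))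
  false (nat_lit 43883628)
def b1_1 : Bx := Bx.mk (St.mk (I.pos (nat_lit 109608960) (nat_lit 165150720)) (I.neg (nat_lit 4734976) (nat_lit 50987008)) (I.neg (nat_lit 13647872) (nat_lit 50380800)) (I.pos (nat_lit 67452928) (nat_lit 118669312)) (I.mix (nat_lit 92962816) (nat_lit 61620224)) (I.mix (nat_lit 60686336) (nat_lit 65896448)) (I.mix (nat_lit 52822016) (nat_lit 66535424)))
  false (nat_lit 53108138)
def b1_2 : Bx := Bx.mk (St.mk (I.mix (nat_lit 8060928) (nat_lit 130875392)) (I.mix (nat_lit 1114112) (nat_lit 23101440)) (I.mix (nat_lit 1392640) (nat_lit 21659648)) (I.mix (nat_lit 2834432) (nat_lit 79216640)) (I.mix (nat_lit 41304064) (nat_lit 39075840)) (I.mix (nat_lit 33619968) (nat_lit 27688960)) (I.mix (nat_lit 29523968) (nat_lit 23232512)))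
  false (nat_lit 0)
def b1_3 : Bx := Bx.mk (St.mk (I.mix (nat_lit 7454720) (nat_lit 109150208)) (I.mix (nat_lit 25165824) (nat_lit 1261568)) (I.mix (nat_lit 17383424) (nat_lit 1277952)) (I.mix (nat_lit 2277376) (nat_lit 59555840)) (I.mix (nat_lit 37093376) (nat_lit 32440320)) (I.mix (nat_lit 23724032) (nat_lit 29343744)) (I.mix (nat_lit 15499264) (nat_lit 20578304)))
  false (nat_lit 0)
def b1_4 : Bx := Bx.mk (St.mk (I.pos (nat_lit 158875648) (nat_lit 203292672)) (I.mix (nat_lit 20692992) (nat_lit 38715392)) (I.mix (nat_lit 4177920) (nat_lit 72892416)) (I.pos (nat_lit 105381888) (nat_lit 181813248)) (I.mix (nat_lit 130039808) (nat_lit 55705600)) (I.mix (nat_lit 125501440) (nat_lit 66895872)) (I.mix (nat_lit 143523840) (nat_lit 68141056)))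
  false (nat_lit 0)
def b1_5 : Bx := Bx.mk (St.mk (I.pos (nat_lit 110706688) (nat_lit 154058752)) (I.neg (nat_lit 2981888) (nat_lit 46350336)) (I.neg (nat_lit 4440064) (nat_lit 48381952)) (I.pos (nat_lit 53460992) (nat_lit 108576768)) (I.mix (nat_lit 100073472) (nat_lit 43188224)) (I.mix (nat_lit 38060032) (nat_lit 91783168)) (I.mix (nat_lit 31997952) (nat_lit 81149952)))
  false (nat_lit 13391719)
def b1_6 : Bx := Bx.mk (St.mk (I.mix (nat_lit 12713984) (nat_lit 129417216)) (I.mix (nat_lit 5455872) (nat_lit 28950528)) (I.mix (nat_lit 1720320) (nat_lit 26443776)) (I.mix (nat_lit 2867200) (nat_lit 79888384)) (I.mix (nat_lit 61882368) (nat_lit 27066368)) (I.mix (nat_lit 53690368) (nat_lit 28524544)) (I.mix (nat_lit 39092224) (nat_lit 18333696)))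
  false (nat_lit 0)
def b1_7 : Bx := Bx.mk (St.mk (I.mix (nat_lit 11894784) (nat_lit 103333888)) (I.mix (nat_lit 23609344) (nat_lit 1163264)) (I.mix (nat_lit 16498688) (nat_lit 1261568)) (I.mix (nat_lit 2211840) (nat_lit 57081856)) (I.mix (nat_lit 41713664) (nat_lit 16351232)) (I.mix (nat_lit 17235968) (nat_lit 34684928)) (I.mix (nat_lit 9945088) (nat_lit 21102592)))
  false (nat_lit 0)
def b1_8 : Bx := Bx.mk (St.mk (I.pos (nat_lit 194854912) (nat_lit 236273664)) (I.mix (nat_lit 12402688) (nat_lit 24559616)) (I.mix (nat_lit 22429696) (nat_lit 41877504)) (I.pos (nat_lit 178241536) (nat_lit 230047744)) (I.mix (nat_lit 113393664) (nat_lit 27049984)) (I.mix (nat_lit 64208896) (nat_lit 58621952)) (I.mix (nat_lit 111427584) (nat_lit 102825984)))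
  false (nat_lit 0)
def b1_9 : Bx := Bx.mk (St.mk (I.pos (nat_lit 136577024) (nat_lit 167231488)) (I.neg (nat_lit 720896) (nat_lit 33882112)) (I.neg (nat_lit 573440) (nat_lit 29523968)) (I.pos (nat_lit 84885504) (nat_lit 120717312)) (I.mix (nat_lit 76169216) (nat_lit 20267008)) (I.mix (nat_lit 28557312) (nat_lit 47300608)) (I.mix (nat_lit 34422784) (nat_lit 50593792)))
  false (nat_lit 0)
def b1_10 : Bx := Bx.mk (St.mk (I.pos (nat_lit 34734080) (nat_lit 130514944)) (I.mix (nat_lit 4440064) (nat_lit 7667712)) (I.mix (nat_lit 5111808) (nat_lit 6553600)) (I.pos (nat_lit 3538944) (nat_lit 79282176)) (I.mix (nat_lit 40337408) (nat_lit 13123584)) (I.mix (nat_lit 21463040) (nat_lit 21020672)) (I.mix (nat_lit 19398656) (nat_lit 19202048)))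
  false (nat_lit 0)
def b1_11 : Bx := Bx.mk (St.mk (I.pos (nat_lit 34652160) (nat_lit 108724224)) (I.mix (nat_lit 10502144) (nat_lit 3047424)) (I.mix (nat_lit 6471680) (nat_lit 2179072)) (I.pos (nat_lit 10059776) (nat_lit 59719680)) (I.mix (nat_lit 31916032) (nat_lit 12075008)) (I.mix (nat_lit 15302656) (nat_lit 18563072)) (I.mix (nat_lit 11436032) (nat_lit 13303808)))
  false (nat_lit 0)
def b1_12 : Bx := Bx.mk (St.mk (I.pos (nat_lit 159924224) (nat_lit 195969024)) (I.neg (nat_lit 3407872) (nat_lit 43565056)) (I.mix (nat_lit 43040768) (nat_lit 8962048)) (I.pos (nat_lit 110297088) (nat_lit 168443904)) (I.mix (nat_lit 88178688) (nat_lit 84639744)) (I.mix (nat_lit 85262336) (nat_lit 76054528)) (I.mix (nat_lit 97779712) (nat_lit 80363520)))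
  false (nat_lit 73676678)
def b1_13 : Bx := Bx.mk (St.mk (I.pos (nat_lit 124436480) (nat_lit 146522112)) (I.mix (nat_lit 10928128) (nat_lit 7225344)) (I.mix (nat_lit 12533760) (nat_lit 6553600)) (I.pos (nat_lit 59342848) (nat_lit 99205120)) (I.mix (nat_lit 30523392) (nat_lit 45760512)) (I.mix (nat_lit 35160064) (nat_lit 35831808)) (I.mix (nat_lit 31965184) (nat_lit 32309248)))
  false (nat_lit 0)
def b1_14 : Bx := Bx.mk (St.mk (I.mix (nat_lit 12468224) (nat_lit 122765312)) (I.mix (nat_lit 13139968) (nat_lit 5636096)) (I.mix (nat_lit 8863744) (nat_lit 6078464)) (I.mix (nat_lit 2686976) (nat_lit 73007104)) (I.mix (nat_lit 25542656) (nat_lit 36274176)) (I.mix (nat_lit 28098560) (nat_lit 25100288)) (I.mix (nat_lit 20447232) (nat_lit 18202624)))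
  false (nat_lit 0)
def b1_15 : Bx := Bx.mk (St.mk (I.pos (nat_lit 26329088) (nat_lit 98172928)) (I.mix (nat_lit 3178496) (nat_lit 3244032)) (I.mix (nat_lit 2801664) (nat_lit 2064384)) (I.pos (nat_lit 1261568) (nat_lit 53362688)) (I.mix (nat_lit 9617408) (nat_lit 18137088)) (I.mix (nat_lit 10256384) (nat_lit 10141696)) (I.mix (nat_lit 6373376) (nat_lit 6193152)))
  false (nat_lit 0)
def b1_16 : Bx := Bx.mk (St.mk (I.pos (nat_lit 185630720) (nat_lit 233373696)) (I.pos (nat_lit 6914048) (nat_lit 43941888)) (I.pos (nat_lit 15040512) (nat_lit 79888384)) (I.pos (nat_lit 168214528) (nat_lit 230899712)) (I.mix (nat_lit 107937792) (nat_lit 92192768)) (I.mix (nat_lit 101400576) (nat_lit 83410944)) (I.mix (nat_lit 170524672) (nat_lit 110100480)))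
  false (nat_lit 46732608)
def b1_17 : Bx := Bx.mk (St.mk (I.pos (nat_lit 123813888) (nat_lit 166658048)) (I.neg (nat_lit 7618560) (nat_lit 50200576)) (I.neg (nat_lit 10272768) (nat_lit 49250304)) (I.pos (nat_lit 78888960) (nat_lit 120733696)) (I.mix (nat_lit 78577664) (nat_lit 63782912)) (I.mix (nat_lit 55984128) (nat_lit 69058560)) (I.mix (nat_lit 46940160) (nat_lit 73957376)))
  false (nat_lit 54779126)
def b1_18 : Bx := Bx.mk (St.mk (I.pos (nat_lit 79233024) (nat_lit 130187264)) (I.pos (nat_lit 2424832) (nat_lit 19120128)) (I.pos (nat_lit 1130496) (nat_lit 17678336)) (I.pos (nat_lit 25788416) (nat_lit 79626240)) (I.mix (nat_lit 34865152) (nat_lit 40501248)) (I.mix (nat_lit 38158336) (nat_lit 24756224)) (I.mix (nat_lit 34013184) (nat_lit 20545536)))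
  false (nat_lit 0)
def b1_19 : Bx := Bx.mk (St.mk (I.pos (nat_lit 64897024) (nat_lit 107905024)) (I.neg (nat_lit 1523712) (nat_lit 20742144)) (I.neg (nat_lit 540672) (nat_lit 14450688)) (I.pos (nat_lit 17563648) (nat_lit 60030976)) (I.mix (nat_lit 28672000) (nat_lit 31227904)) (I.mix (nat_lit 19808256) (nat_lit 29868032)) (I.mix (nat_lit 13025280) (nat_lit 21708800)))
  false (nat_lit 0)
def b1_20 : Bx := Bx.mk (St.mk (I.pos (nat_lit 159825920) (nat_lit 198459392)) (I.mix (nat_lit 25182208) (nat_lit 13697024)) (I.mix (nat_lit 14090240) (nat_lit 36601856)) (I.pos (nat_lit 106266624) (nat_lit 168755200)) (I.mix (nat_lit 109510656) (nat_lit 60014592)) (I.mix (nat_lit 116441088) (nat_lit 61505536)) (I.mix (nat_lit 134840320) (nat_lit 67436544)))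
  false (nat_lit 7651828)
def b1_21 : Bx := Bx.mk (St.mk (I.mix (nat_lit 12271616) (nat_lit 123142144)) (I.mix (nat_lit 6782976) (nat_lit 14303232)) (I.mix (nat_lit 2539520) (nat_lit 13762560)) (I.mix (nat_lit 2473984) (nat_lit 73351168)) (I.mix (nat_lit 46235648) (nat_lit 25247744)) (I.mix (nat_lit 42303488) (nat_lit 21790720)) (I.mix (nat_lit 31031296) (nat_lit 15974400)))
  false (nat_lit 0)
def b1_22 : Bx := Bx.mk (St.mk (I.mix (nat_lit 14680064) (nat_lit 110182400)) (I.mix (nat_lit 11927552) (nat_lit 3178496)) (I.mix (nat_lit 7372800) (nat_lit 2244608)) (I.mix (nat_lit 2310144) (nat_lit 60112896)) (I.mix (nat_lit 32686080) (nat_lit 12468224)) (I.mix (nat_lit 15794176) (nat_lit 19070976)) (I.mix (nat_lit 11796480) (nat_lit 13697024)))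
  false (nat_lit 0)
def b1_23 : Bx := Bx.mk (St.mk (I.mix (nat_lit 12992512) (nat_lit 54525952)) (I.mix (nat_lit 1032192) (nat_lit 2162688)) (I.mix (nat_lit 868352) (nat_lit 589824)) (I.mix (nat_lit 1359872) (nat_lit 27672576)) (I.mix (nat_lit 4947968) (nat_lit 1867776)) (I.mix (nat_lit 1654784) (nat_lit 1949696)) (I.mix (nat_lit 704512) (nat_lit 704512)))
  false (nat_lit 0)
def b1_24 : Bx := Bx.mk (St.mk (I.pos (nat_lit 200966144) (nat_lit 231702528)) (I.pos (nat_lit 5341184) (nat_lit 23724032)) (I.pos (nat_lit 11223040) (nat_lit 42008576)) (I.pos (nat_lit 184614912) (nat_lit 224296960)) (I.mix (nat_lit 77955072) (nat_lit 16515072)) (I.mix (nat_lit 40091648) (nat_lit 34897920)) (I.mix (nat_lit 68042752) (nat_lit 58572800)))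
  false (nat_lit 0)
def b1_25 : Bx := Bx.mk (St.mk (I.pos (nat_lit 139476992) (nat_lit 164052992)) (I.neg (nat_lit 11091968) (nat_lit 33112064)) (I.neg (nat_lit 10321920) (nat_lit 29081600)) (I.pos (nat_lit 86638592) (nat_lit 117571584)) (I.mix (nat_lit 45498368) (nat_lit 7454720)) (I.mix (nat_lit 14385152) (nat_lit 23363584)) (I.mix (nat_lit 16351232) (nat_lit 24166400)))
  false (nat_lit 0)
def b1_26 : Bx := Bx.mk (St.mk (I.pos (nat_lit 109215744) (nat_lit 127795200)) (I.pos (nat_lit 1802240) (nat_lit 8208384)) (I.pos (nat_lit 901120) (nat_lit 7110656)) (I.pos (nat_lit 49102848) (nat_lit 77905920)) (I.mix (nat_lit 14647296) (nat_lit 2998272)) (I.mix (nat_lit 6553600) (nat_lit 6111232)) (I.mix (nat_lit 5947392) (nat_lit 5226496)))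
  false (nat_lit 0)
def b1_27 : Bx := Bx.mk (St.mk (I.pos (nat_lit 90357760) (nat_lit 107085824)) (I.neg (nat_lit 2195456) (nat_lit 12271616)) (I.neg (nat_lit 802816) (nat_lit 7913472)) (I.pos (nat_lit 33751040) (nat_lit 59244544)) (I.mix (nat_lit 13910016) (nat_lit 3440640)) (I.mix (nat_lit 4177920) (nat_lit 6864896)) (I.mix (nat_lit 2916352) (nat_lit 4898816)))
  false (nat_lit 0)
def b1_28 : Bx := Bx.mk (St.mk (I.pos (nat_lit 169361408) (nat_lit 189759488)) (I.neg (nat_lit 3325952) (nat_lit 24576000)) (I.mix (nat_lit 15466496) (nat_lit 9764864)) (I.pos (nat_lit 116572160) (nat_lit 158367744)) (I.mix (nat_lit 50135040) (nat_lit 28246016)) (I.mix (nat_lit 38060032) (nat_lit 36732928)) (I.mix (nat_lit 41074688) (nat_lit 41713664)))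
  false (nat_lit 0)
def b1_29 : Bx := Bx.mk (St.mk (I.pos (nat_lit 125517824) (nat_lit 141721600)) (I.neg (nat_lit 1720320) (nat_lit 10895360)) (I.neg (nat_lit 2195456) (nat_lit 12713984)) (I.pos (nat_lit 59817984) (nat_lit 95387648)) (I.mix (nat_lit 25559040) (nat_lit 15400960)) (I.mix (nat_lit 18399232) (nat_lit 19628032)) (I.mix (nat_lit 17268736) (nat_lit 17399808)))
  false (nat_lit 0)
def b1_30 : Bx := Bx.mk (St.mk (I.pos (nat_lit 33701888) (nat_lit 119390208)) (I.mix (nat_lit 6848512) (nat_lit 5898240)) (I.mix (nat_lit 2965504) (nat_lit 6275072)) (I.pos (nat_lit 2539520) (nat_lit 71286784)) (I.mix (nat_lit 17727488) (nat_lit 14778368)) (I.mix (nat_lit 14450688) (nat_lit 14319616)) (I.mix (nat_lit 10092544) (nat_lit 10600448)))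
  false (nat_lit 0)
def b1_31 : Bx := Bx.mk (St.mk (I.pos (nat_lit 116817920) (nat_lit 145817600)) (I.neg (nat_lit 2277376) (nat_lit 22364160)) (I.neg (nat_lit 2719744) (nat_lit 24936448)) (I.pos (nat_lit 55689216) (nat_lit 99270656)) (I.mix (nat_lit 71811072) (nat_lit 30474240)) (I.mix (nat_lit 29638656) (nat_lit 70402048)) (I.mix (nat_lit 27328512) (nat_lit 63733760)))
  false (nat_lit 0)
def b1_32 : Bx := Bx.mk (St.mk (I.pos (nat_lit 136577024) (nat_lit 167231488)) (I.neg (nat_lit 688128) (nat_lit 33357824)) (I.neg (nat_lit 524288) (nat_lit 29343744)) (I.pos (nat_lit 84934656) (nat_lit 120733696)) (I.mix (nat_lit 76136448) (nat_lit 20283392)) (I.mix (nat_lit 28508160) (nat_lit 47300608)) (I.mix (nat_lit 34357248) (nat_lit 50593792)))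
  false (nat_lit 0)
def b1_33 : Bx := Bx.mk (St.mk (I.pos (nat_lit 108429312) (nat_lit 128040960)) (I.mix (nat_lit 3538944) (nat_lit 7995392)) (I.mix (nat_lit 4243456) (nat_lit 7503872)) (I.pos (nat_lit 49283072) (nat_lit 76906496)) (I.mix (nat_lit 25591808) (nat_lit 671744)) (I.mix (nat_lit 9388032) (nat_lit 9715712)) (I.mix (nat_lit 8142848) (nat_lit 8634368)))
  false (nat_lit 0)
def b1_34 : Bx := Bx.mk (St.mk (I.pos (nat_lit 141148160) (nat_lit 173981696)) (I.neg (nat_lit 1998848) (nat_lit 28508160)) (I.neg (nat_lit 327680) (nat_lit 24412160)) (I.pos (nat_lit 88358912) (nat_lit 133955584)) (I.mix (nat_lit 60080128) (nat_lit 19578880)) (I.mix (nat_lit 23773184) (nat_lit 39616512)) (I.mix (nat_lit 30228480) (nat_lit 43630592)))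
  false (nat_lit 0)
def b1_35 : Bx := Bx.mk (St.mk (I.pos (nat_lit 108888064) (nat_lit 132874240)) (I.mix (nat_lit 4620288) (nat_lit 3653632)) (I.mix (nat_lit 5439488) (nat_lit 3440640)) (I.pos (nat_lit 49954816) (nat_lit 84344832)) (I.mix (nat_lit 31080448) (nat_lit 11501568)) (I.mix (nat_lit 17399808) (nat_lit 14991360)) (I.mix (nat_lit 16203776) (nat_lit 14123008)))
  false (nat_lit 0)
def b1_36 : Bx := Bx.mk (St.mk (I.mix (nat_lit 14008320) (nat_lit 113262592)) (I.mix (nat_lit 9273344) (nat_lit 3063808)) (I.mix (nat_lit 5455872) (nat_lit 2457600)) (I.pos (nat_lit 6029312) (nat_lit 63995904)) (I.mix (nat_lit 24969216) (nat_lit 12025856)) (I.mix (nat_lit 11534336) (nat_lit 15826944)) (I.mix (nat_lit 8781824) (nat_lit 11550720)))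
  false (nat_lit 0)
def b1_37 : Bx := Bx.mk (St.mk (I.pos (nat_lit 199884800) (nat_lit 248872960)) (I.mix (nat_lit 14008320) (nat_lit 11943936)) (I.mix (nat_lit 27639808) (nat_lit 20332544)) (I.pos (nat_lit 186368000) (nat_lit 266780672)) (I.mix (nat_lit 108707840) (nat_lit 29655040)) (I.mix (nat_lit 58097664) (nat_lit 52969472)) (I.mix (nat_lit 104038400) (nat_lit 98172928)))
  false (nat_lit 162360)
def b1_38 : Bx := Bx.mk (St.mk (I.pos (nat_lit 66519040) (nat_lit 134250496)) (I.mix (nat_lit 4734976) (nat_lit 3735552)) (I.mix (nat_lit 5570560) (nat_lit 3506176)) (I.pos (nat_lit 17235968) (nat_lit 85491712)) (I.mix (nat_lit 32145408) (nat_lit 12976128)) (I.mix (nat_lit 18186240) (nat_lit 16678912)) (I.mix (nat_lit 16875520) (nat_lit 15925248)))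
  false (nat_lit 0)
def b1_39 : Bx := Bx.mk (St.mk (I.pos (nat_lit 153796608) (nat_lit 190414848)) (I.neg (nat_lit 7225344) (nat_lit 39960576)) (I.neg (nat_lit 2670592) (nat_lit 39436288)) (I.pos (nat_lit 101531648) (nat_lit 160497664)) (I.mix (nat_lit 76103680) (nat_lit 53919744)) (I.mix (nat_lit 62013440) (nat_lit 53477376)) (I.mix (nat_lit 73121792) (nat_lit 56573952)))
  false (nat_lit 45143992)
def b1_40 : Bx := Bx.mk (St.mk (I.pos (nat_lit 118554624) (nat_lit 143245312)) (I.mix (nat_lit 4898816) (nat_lit 6619136)) (I.mix (nat_lit 5881856) (nat_lit 6324224)) (I.pos (nat_lit 55214080) (nat_lit 95879168)) (I.mix (nat_lit 27475968) (nat_lit 31555584)) (I.mix (nat_lit 23658496) (nat_lit 27361280)) (I.mix (nat_lit 22085632) (nat_lit 25575424)))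
  false (nat_lit 0)
def b1_41 : Bx := Bx.mk (St.mk (I.pos (nat_lit 79101952) (nat_lit 118226944)) (I.mix (nat_lit 12402688) (nat_lit 737280)) (I.mix (nat_lit 8454144) (nat_lit 1703936)) (I.pos (nat_lit 24166400) (nat_lit 70057984)) (I.mix (nat_lit 19841024) (nat_lit 21889024)) (I.mix (nat_lit 17842176) (nat_lit 13910016)) (I.mix (nat_lit 13238272) (nat_lit 9945088)))
  false (nat_lit 0)
def b1_42 : Bx := Bx.mk (St.mk (I.pos (nat_lit 64126976) (nat_lit 95092736)) (I.mix (nat_lit 2375680) (nat_lit 2834432)) (I.mix (nat_lit 2392064) (nat_lit 1867776)) (I.pos (nat_lit 14516224) (nat_lit 51609600)) (I.mix (nat_lit 5603328) (nat_lit 9420800)) (I.mix (nat_lit 4308992) (nat_lit 5718016)) (I.mix (nat_lit 2752512) (nat_lit 3719168)))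
  false (nat_lit 0)
def b1_43 : Bx := Bx.mk (St.mk (I.pos (nat_lit 41828352) (nat_lit 108593152)) (I.mix (nat_lit 7880704) (nat_lit 1769472)) (I.mix (nat_lit 4161536) (nat_lit 1343488)) (I.pos (nat_lit 6160384) (nat_lit 60833792)) (I.mix (nat_lit 15237120) (nat_lit 2228224)) (I.mix (nat_lit 3457024) (nat_lit 7045120)) (I.mix (nat_lit 2818048) (nat_lit 5062656)))
  false (nat_lit 0)
def b1_44 : Bx := Bx.mk (St.mk (I.pos (nat_lit 153714688) (nat_lit 170360832)) (I.neg (nat_lit 10354688) (nat_lit 26001408)) (I.neg (nat_lit 5128192) (nat_lit 20889600)) (I.pos (nat_lit 105971712) (nat_lit 129875968)) (I.neg (nat_lit 3227648) (nat_lit 23887872)) (I.mix (nat_lit 2064384) (nat_lit 9371648)) (I.mix (nat_lit 2375680) (nat_lit 8306688)))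
  false (nat_lit 0)
def b1_45 : Bx := Bx.mk (St.mk (I.mix (nat_lit 13139968) (nat_lit 80199680)) (I.mix (nat_lit 2244608) (nat_lit 2031616)) (I.mix (nat_lit 2113536) (nat_lit 1392640)) (I.mix (nat_lit 1523712) (nat_lit 40845312)) (I.mix (nat_lit 5390336) (nat_lit 2015232)) (I.mix (nat_lit 1687552) (nat_lit 1884160)) (I.mix (nat_lit 1130496) (nat_lit 1196032)))
  false (nat_lit 0)
def b1_46 : Bx := Bx.mk (St.mk (I.pos (nat_lit 62570496) (nat_lit 95240192)) (I.neg (nat_lit 1163264) (nat_lit 11911168)) (I.neg (nat_lit 638976) (nat_lit 9043968)) (I.pos (nat_lit 15351808) (nat_lit 51888128)) (I.mix (nat_lit 26705920) (nat_lit 9568256)) (I.mix (nat_lit 7176192) (nat_lit 23609344)) (I.mix (nat_lit 4128768) (nat_lit 14548992)))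
  false (nat_lit 0)
def t1 : BTr := (BTr.n (BTr.n (BTr.n (BTr.n (BTr.n (BTr.b b1_0) (BTr.b b1_1)) (BTr.n (BTr.b b1_2) (BTr.n (BTr.b b1_3) (BTr.b b1_4)))) (BTr.n (BTr.n (BTr.b b1_5) (BTr.n (BTr.b b1_6) (BTr.b b1_7))) (BTr.n (BTr.b b1_8) (BTr.n (BTr.b b1_9) (BTr.b b1_10))))) (BTr.n (BTr.n (BTr.n (BTr.b b1_11) (BTr.n (BTr.b b1_12) (BTr.b b1_13))) (BTr.n (BTr.b b1_14) (BTr.n (BTr.b b1_15) (BTr.b b1_16)))) (BTr.n (BTr.n (BTr.b b1_17) (BTr.n (BTr.b b1_18) (BTr.b b1_19))) (BTr.n (BTr.b b1_20) (BTr.n (BTr.b b1_21) (BTr.b b1_22)))))) (BTr.n (BTr.n (BTr.n (BTr.n (BTr.b b1_23) (BTr.n (BTr.b b1_24) (BTr.b b1_25))) (BTr.n (BTr.b b1_26) (BTr.n (BTr.b b1_27) (BTr.b b1_28)))) (BTr.n (BTr.n (BTr.b b1_29) (BTr.n (BTr.b b1_30) (BTr.b b1_31))) (BTr.n (BTr.b b1_32) (BTr.n (BTr.b b1_33) (BTr.b b1_34))))) (BTr.n (BTr.n (BTr.n (BTr.b b1_35) (BTr.n (BTr.b b1_36)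 (BTr.b b1_37))) (BTr.n (BTr.b b1_38) (BTr.n (BTr.b b1_39) (BTr.b b1_40)))) (BTr.n (BTr.n (BTr.b b1_41) (BTr.n (BTr.b b1_42) (BTr.b b1_43))) (BTr.n (BTr.b b1_44) (BTr.n (BTr.b b1_45) (BTr.b b1_46)))))))
namespace T1
def l0 : Tr := Tr.L (Pth.l (Pth.l (Pth.l (Pth.l (Pth.l Pth.z)))))
def l1 : Tr := Tr.L (Pth.l (Pth.l (Pth.l (Pth.l (Pth.r Pth.z)))))
def l2 : Tr := Tr.L (Pth.l (Pth.l (Pth.l (Pth.r (Pth.l Pth.z)))))
def l3 : Tr := Tr.L (Pth.l (Pth.l (Pth.l (Pth.r (Pth.r (Pth.l Pth.z))))))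
def l4 : Tr := Tr.L (Pth.l (Pth.l (Pth.l (Pth.r (Pth.r (Pth.r Pth.z))))))
def l5 : Tr := Tr.L (Pth.l (Pth.l (Pth.r (Pth.l (Pth.l Pth.z)))))
def l6 : Tr := Tr.L (Pth.l (Pth.l (Pth.r (Pth.l (Pth.r (Pth.l Pth.z))))))
def l7 : Tr := Tr.L (Pth.l (Pth.l (Pth.r (Pth.l (Pth.r (Pth.r Pth.z))))))
def l8 : Tr := Tr.L (Pth.l (Pth.l (Pth.r (Pth.r (Pth.l Pth.z)))))
def l9 : Tr := Tr.L (Pth.l (Pth.l (Pth.r (Pth.r (Pth.r (Pth.l Pth.z))))))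
def l10 : Tr := Tr.L (Pth.l (Pth.l (Pth.r (Pth.r (Pth.r (Pth.r Pth.z))))))
def l11 : Tr := Tr.L (Pth.l (Pth.r (Pth.l (Pth.l (Pth.l Pth.z)))))
def l12 : Tr := Tr.L (Pth.l (Pth.r (Pth.l (Pth.l (Pth.r (Pth.l Pth.z))))))
def l13 : Tr := Tr.L (Pth.l (Pth.r (Pth.l (Pth.l (Pth.r (Pth.r Pth.z))))))
def l14 : Tr := Tr.L (Pth.l (Pth.r (Pth.l (Pth.r (Pth.l Pth.z)))))
def l15 : Tr := Tr.L (Pth.l (Pth.r (Pth.l (Pth.r (Pth.r (Pth.l Pth.z))))))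
def l16 : Tr := Tr.L (Pth.l (Pth.r (Pth.l (Pth.r (Pth.r (Pth.r Pth.z))))))
def l17 : Tr := Tr.L (Pth.l (Pth.r (Pth.r (Pth.l (Pth.l Pth.z)))))
def l18 : Tr := Tr.L (Pth.l (Pth.r (Pth.r (Pth.l (Pth.r (Pth.l Pth.z))))))
def l19 : Tr := Tr.L (Pth.l (Pth.r (Pth.r (Pth.l (Pth.r (Pth.r Pth.z))))))
def l20 : Tr := Tr.L (Pth.l (Pth.r (Pth.r (Pth.r (Pth.l Pth.z)))))
def l21 : Tr := Tr.L (Pth.l (Pth.r (Pth.r (Pth.r (Pth.r (Pth.l Pth.z))))))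
def l22 : Tr := Tr.L (Pth.l (Pth.r (Pth.r (Pth.r (Pth.r (Pth.r Pth.z))))))
def l23 : Tr := Tr.L (Pth.r (Pth.l (Pth.l (Pth.l (Pth.l Pth.z)))))
def l24 : Tr := Tr.L (Pth.r (Pth.l (Pth.l (Pth.l (Pth.r (Pth.l Pth.z))))))
def l25 : Tr := Tr.L (Pth.r (Pth.l (Pth.l (Pth.l (Pth.r (Pth.r Pth.z))))))
def l26 : Tr := Tr.L (Pth.r (Pth.l (Pth.l (Pth.r (Pth.l Pth.z)))))
def l27 : Tr := Tr.L (Pth.r (Pth.l (Pth.l (Pth.r (Pth.r (Pth.l Pth.z))))))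
def l28 : Tr := Tr.L (Pth.r (Pth.l (Pth.l (Pth.r (Pth.r (Pth.r Pth.z))))))
def l29 : Tr := Tr.L (Pth.r (Pth.l (Pth.r (Pth.l (Pth.l Pth.z)))))
def l30 : Tr := Tr.L (Pth.r (Pth.l (Pth.r (Pth.l (Pth.r (Pth.l Pth.z))))))
def l31 : Tr := Tr.L (Pth.r (Pth.l (Pth.r (Pth.l (Pth.r (Pth.r Pth.z))))))
def l32 : Tr := Tr.L (Pth.r (Pth.l (Pth.r (Pth.r (Pth.l Pth.z)))))
def l33 : Tr := Tr.L (Pth.r (Pth.l (Pth.r (Pth.r (Pth.r (Pth.l Pth.z))))))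
def l34 : Tr := Tr.L (Pth.r (Pth.l (Pth.r (Pth.r (Pth.r (Pth.r Pth.z))))))
def l35 : Tr := Tr.L (Pth.r (Pth.r (Pth.l (Pth.l (Pth.l Pth.z)))))
def l36 : Tr := Tr.L (Pth.r (Pth.r (Pth.l (Pth.l (Pth.r (Pth.l Pth.z))))))
def l37 : Tr := Tr.L (Pth.r (Pth.r (Pth.l (Pth.l (Pth.r (Pth.r Pth.z))))))
def l38 : Tr := Tr.L (Pth.r (Pth.r (Pth.l (Pth.r (Pth.l Pth.z)))))
def l39 : Tr := Tr.L (Pth.r (Pth.r (Pth.l (Pth.r (Pth.r (Pth.l Pth.z))))))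
def l40 : Tr := Tr.L (Pth.r (Pth.r (Pth.l (Pth.r (Pth.r (Pth.r Pth.z))))))
def l41 : Tr := Tr.L (Pth.r (Pth.r (Pth.r (Pth.l (Pth.l Pth.z)))))
def l42 : Tr := Tr.L (Pth.r (Pth.r (Pth.r (Pth.l (Pth.r (Pth.l Pth.z))))))
def l43 : Tr := Tr.L (Pth.r (Pth.r (Pth.r (Pth.l (Pth.r (Pth.r Pth.z))))))
def l44 : Tr := Tr.L (Pth.r (Pth.r (Pth.r (Pth.r (Pth.l Pth.z)))))
def l45 : Tr := Tr.L (Pth.r (Pth.r (Pth.r (Pth.r (Pth.r (Pth.l Pth.z))))))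
def l46 : Tr := Tr.L (Pth.r (Pth.r (Pth.r (Pth.r (Pth.r (Pth.r Pth.z))))))
end T1
def b2_0 : Bx := Bx.mk (St.mk (I.pos (nat_lit 118325248) (nat_lit 217726976)) (I.mix (nat_lit 2392064) (nat_lit 80150528)) (I.mix (nat_lit 4227072) (nat_lit 142589952)) (I.pos (nat_lit 337657856) (nat_lit 449118208)) (I.mix (nat_lit 192937984) (nat_lit 97533952)) (I.mix (nat_lit 123092992) (nat_lit 103563264)) (I.mix (nat_lit 133021696) (nat_lit 122404864)))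
  false (nat_lit 132847097)
def b2_1 : Bx := Bx.mk (St.mk (I.pos (nat_lit 40845312) (nat_lit 99172352)) (I.neg (nat_lit 42909696) (nat_lit 97435648)) (I.mix (nat_lit 24150016) (nat_lit 24379392)) (I.pos (nat_lit 281395200) (nat_lit 327090176)) (I.mix (nat_lit 108920832) (nat_lit 126091264)) (I.mix (nat_lit 112885760) (nat_lit 87228416)) (I.mix (nat_lit 82722816) (nat_lit 76103680)))
  false (nat_lit 133905591)
def b2_2 : Bx := Bx.mk (St.mk (I.pos (nat_lit 101105664) (nat_lit 165511168)) (I.pos (nat_lit 10076160) (nat_lit 67829760)) (I.pos (nat_lit 71434240) (nat_lit 141754368)) (I.pos (nat_lit 304726016) (nat_lit 384876544)) (I.mix (nat_lit 215482368) (nat_lit 63717376)) (I.mix (nat_lit 162004992) (nat_lit 106921984)) (I.mix (nat_lit 164790272) (nat_lit 130498560)))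
  false (nat_lit 141084684)
def b2_3 : Bx := Bx.mk (St.mk (I.neg (nat_lit 40828928) (nat_lit 99188736)) (I.pos (nat_lit 42909696) (nat_lit 97435648)) (I.mix (nat_lit 24150016) (nat_lit 24379392)) (I.pos (nat_lit 281378816) (nat_lit 327122944)) (I.mix (nat_lit 126042112) (nat_lit 108969984)) (I.mix (nat_lit 87179264) (nat_lit 112918528)) (I.mix (nat_lit 82739200) (nat_lit 76169216)))
  true (nat_lit 59063507)
def b2_4 : Bx := Bx.mk (St.mk (I.pos (nat_lit 83460096) (nat_lit 115359744)) (I.neg (nat_lit 2195456) (nat_lit 33734656)) (I.pos (nat_lit 26558464) (nat_lit 59719680)) (I.pos (nat_lit 291749888) (nat_lit 323698688)) (I.mix (nat_lit 76955648) (nat_lit 67813376)) (I.mix (nat_lit 51167232) (nat_lit 72007680)) (I.mix (nat_lit 49954816) (nat_lit 56442880)))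
  false (nat_lit 0)
def b2_5 : Bx := Bx.mk (St.mk (I.pos (nat_lit 104087552) (nat_lit 139345920)) (I.neg (nat_lit 9125888) (nat_lit 43155456)) (I.pos (nat_lit 20529152) (nat_lit 56000512)) (I.pos (nat_lit 308363264) (nat_lit 345145344)) (I.mix (nat_lit 76726272) (nat_lit 80412672)) (I.mix (nat_lit 79855616) (nat_lit 59670528)) (I.mix (nat_lit 70533120) (nat_lit 49676288)))
  false (nat_lit 68662955)
def b2_6 : Bx := Bx.mk (St.mk (I.neg (nat_lit 83443712) (nat_lit 116539392)) (I.pos (nat_lit 2195456) (nat_lit 33734656)) (I.pos (nat_lit 26558464) (nat_lit 59736064)) (I.pos (nat_lit 291749888) (nat_lit 324599808)) (I.mix (nat_lit 67796992) (nat_lit 76955648)) (I.mix (nat_lit 72007680) (nat_lit 51167232)) (I.mix (nat_lit 49971200) (nat_lit 56393728)))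
  true (nat_lit 0)
def b2_7 : Bx := Bx.mk (St.mk (I.pos (nat_lit 100990976) (nat_lit 116310016)) (I.neg (nat_lit 16449536) (nat_lit 31571968)) (I.pos (nat_lit 28295168) (nat_lit 48136192)) (I.pos (nat_lit 306970624) (nat_lit 324419584)) (I.mix (nat_lit 34914304) (nat_lit 34062336)) (I.mix (nat_lit 30261248) (nat_lit 26591232)) (I.mix (nat_lit 28868608) (nat_lit 20987904)))
  false (nat_lit 0)
def b2_8 : Bx := Bx.mk (St.mk (I.neg (nat_lit 26935296) (nat_lit 75628544)) (I.pos (nat_lit 36536320) (nat_lit 87818240)) (I.mix (nat_lit 17776640) (nat_lit 4292608)) (I.pos (nat_lit 278200320) (nat_lit 306675712)) (I.mix (nat_lit 75743232) (nat_lit 111984640)) (I.mix (nat_lit 86261760) (nat_lit 85475328)) (I.mix (nat_lit 39337984) (nat_lit 26787840)))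
  true (nat_lit 0)
def b2_9 : Bx := Bx.mk (St.mk (I.pos (nat_lit 26935296) (nat_lit 75628544)) (I.neg (nat_lit 36536320) (nat_lit 87818240)) (I.mix (nat_lit 17776640) (nat_lit 4292608)) (I.pos (nat_lit 278200320) (nat_lit 306675712)) (I.mix (nat_lit 111984640) (nat_lit 75743232)) (I.mix (nat_lit 85475328) (nat_lit 86261760)) (I.mix (nat_lit 39354368) (nat_lit 26804224)))
  false (nat_lit 105811581)
def b2_10 : Bx := Bx.mk (St.mk (I.pos (nat_lit 92078080) (nat_lit 116539392)) (I.neg (nat_lit 14958592) (nat_lit 31588352)) (I.pos (nat_lit 28540928) (nat_lit 48365568)) (I.pos (nat_lit 299483136) (nat_lit 324599808)) (I.mix (nat_lit 35373056) (nat_lit 34603008)) (I.mix (nat_lit 30867456) (nat_lit 33898496)) (I.mix (nat_lit 29392896) (nat_lit 24952832)))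
  false (nat_lit 0)
def b2_11 : Bx := Bx.mk (St.mk (I.pos (nat_lit 69386240) (nat_lit 109707264)) (I.neg (nat_lit 2719744) (nat_lit 51871744)) (I.pos (nat_lit 13762560) (nat_lit 59686912)) (I.pos (nat_lit 285868032) (nat_lit 320077824)) (I.mix (nat_lit 92667904) (nat_lit 69615616)) (I.mix (nat_lit 63635456) (nat_lit 77234176)) (I.mix (nat_lit 60604416) (nat_lit 60473344)))
  false (nat_lit 23855287)
def b2_12 : Bx := Bx.mk (St.mk (I.pos (nat_lit 111230976) (nat_lit 152551424)) (I.mix (nat_lit 43417600) (nat_lit 12156928)) (I.pos (nat_lit 20824064) (nat_lit 83329024)) (I.pos (nat_lit 314392576) (nat_lit 358580224)) (I.mix (nat_lit 80183296) (nat_lit 101072896)) (I.mix (nat_lit 89784320) (nat_lit 76922880)) (I.mix (nat_lit 79970304) (nat_lit 70287360)))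
  false (nat_lit 102720367)
def b2_13 : Bx := Bx.mk (St.mk (I.neg (nat_lit 69369856) (nat_lit 109772800)) (I.pos (nat_lit 2719744) (nat_lit 51888128)) (I.pos (nat_lit 13762560) (nat_lit 59686912)) (I.pos (nat_lit 285868032) (nat_lit 320143360)) (I.mix (nat_lit 69664768) (nat_lit 92684288)) (I.mix (nat_lit 77299712) (nat_lit 63651840)) (I.mix (nat_lit 60604416) (nat_lit 60506112)))
  true (nat_lit 0)
def b2_14 : Bx := Bx.mk (St.mk (I.neg (nat_lit 27967488) (nat_lit 57180160)) (I.pos (nat_lit 11272192) (nat_lit 46989312)) (I.mix (nat_lit 4702208) (nat_lit 6766592)) (I.pos (nat_lit 273186816) (nat_lit 285753344)) (I.mix (nat_lit 72007680) (nat_lit 47972352)) (I.mix (nat_lit 51527680) (nat_lit 46989312)) (I.mix (nat_lit 10141696) (nat_lit 15630336)))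
  true (nat_lit 0)
def b2_15 : Bx := Bx.mk (St.mk (I.pos (nat_lit 27967488) (nat_lit 57180160)) (I.neg (nat_lit 11272192) (nat_lit 46989312)) (I.mix (nat_lit 4702208) (nat_lit 6766592)) (I.pos (nat_lit 273186816) (nat_lit 285753344)) (I.mix (nat_lit 47939584) (nat_lit 72007680)) (I.mix (nat_lit 46989312) (nat_lit 51527680)) (I.mix (nat_lit 10141696) (nat_lit 15630336)))
  false (nat_lit 0)
def b2_16 : Bx := Bx.mk (St.mk (I.pos (nat_lit 182779904) (nat_lit 283738112)) (I.mix (nat_lit 5816320) (nat_lit 58441728)) (I.mix (nat_lit 18399232) (nat_lit 109723648)) (I.pos (nat_lit 411484160) (nat_lit 567181312)) (I.mix (nat_lit 80035840) (nat_lit 67125248)) (I.mix (nat_lit 55083008) (nat_lit 56639488)) (I.mix (nat_lit 90144768) (nat_lit 85245952)))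
  false (nat_lit 110573909)
def b2_17 : Bx := Bx.mk (St.mk (I.mix (nat_lit 36765696) (nat_lit 7798784)) (I.mix (nat_lit 3031040) (nat_lit 42418176)) (I.mix (nat_lit 7127040) (nat_lit 1130496)) (I.pos (nat_lit 267436032) (nat_lit 279511040)) (I.mix (nat_lit 22511616) (nat_lit 33554432)) (I.mix (nat_lit 22937600) (nat_lit 22429696)) (I.mix (nat_lit 6701056) (nat_lit 4505600)))
  true (nat_lit 0)
def b2_18 : Bx := Bx.mk (St.mk (I.mix (nat_lit 7798784) (nat_lit 36765696)) (I.mix (nat_lit 42418176) (nat_lit 3031040)) (I.mix (nat_lit 7127040) (nat_lit 1130496)) (I.pos (nat_lit 267436032) (nat_lit 279511040)) (I.mix (nat_lit 33554432) (nat_lit 22511616)) (I.mix (nat_lit 22429696) (nat_lit 22937600)) (I.mix (nat_lit 6701056) (nat_lit 4505600)))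
  false (nat_lit 0)
def b2_19 : Bx := Bx.mk (St.mk (I.pos (nat_lit 200376320) (nat_lit 273121280)) (I.mix (nat_lit 20561920) (nat_lit 34521088)) (I.mix (nat_lit 40370176) (nat_lit 69484544)) (I.pos (nat_lit 425508864) (nat_lit 545652736)) (I.mix (nat_lit 63651840) (nat_lit 35684352)) (I.mix (nat_lit 42123264) (nat_lit 44056576)) (I.mix (nat_lit 65404928) (nat_lit 73400320)))
  false (nat_lit 33678902)
def b2_20 : Bx := Bx.mk (St.mk (I.mix (nat_lit 34127872) (nat_lit 2703360)) (I.mix (nat_lit 9846784) (nat_lit 30097408)) (I.mix (nat_lit 4866048) (nat_lit 2228224)) (I.pos (nat_lit 267567104) (nat_lit 276447232)) (I.mix (nat_lit 29769728) (nat_lit 19857408)) (I.mix (nat_lit 18399232) (nat_lit 19169280)) (I.mix (nat_lit 3178496) (nat_lit 4456448)))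
  true (nat_lit 0)
def b2_21 : Bx := Bx.mk (St.mk (I.mix (nat_lit 2703360) (nat_lit 34127872)) (I.mix (nat_lit 30097408) (nat_lit 9846784)) (I.mix (nat_lit 4866048) (nat_lit 2228224)) (I.pos (nat_lit 267567104) (nat_lit 276447232)) (I.mix (nat_lit 19857408) (nat_lit 29769728)) (I.mix (nat_lit 19169280) (nat_lit 18399232)) (I.mix (nat_lit 3178496) (nat_lit 4456448)))
  false (nat_lit 0)
def b2_22 : Bx := Bx.mk (St.mk (I.pos (nat_lit 136314880) (nat_lit 196476928)) (I.pos (nat_lit 25346048) (nat_lit 76120064)) (I.pos (nat_lit 62586880) (nat_lit 136675328)) (I.pos (nat_lit 357498880) (nat_lit 415940608)) (I.mix (nat_lit 151453696) (nat_lit 107593728)) (I.mix (nat_lit 125485056) (nat_lit 83099648)) (I.mix (nat_lit 166952960) (nat_lit 95813632)))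
  false (nat_lit 87442518)
def b2_23 : Bx := Bx.mk (St.mk (I.neg (nat_lit 28819456) (nat_lit 64782336)) (I.pos (nat_lit 25460736) (nat_lit 73891840)) (I.mix (nat_lit 15106048) (nat_lit 6029312)) (I.pos (nat_lit 278511616) (nat_lit 293683200)) (I.mix (nat_lit 89538560) (nat_lit 97239040)) (I.mix (nat_lit 94863360) (nat_lit 62111744)) (I.mix (nat_lit 25313280) (nat_lit 25329664)))
  true (nat_lit 0)
def b2_24 : Bx := Bx.mk (St.mk (I.pos (nat_lit 28819456) (nat_lit 64798720)) (I.neg (nat_lit 25460736) (nat_lit 73891840)) (I.mix (nat_lit 15106048) (nat_lit 6029312)) (I.pos (nat_lit 278511616) (nat_lit 293683200)) (I.mix (nat_lit 97239040) (nat_lit 89538560)) (I.mix (nat_lit 62111744) (nat_lit 94863360)) (I.mix (nat_lit 25313280) (nat_lit 25329664)))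
  false (nat_lit 66821329)
def b2_25 : Bx := Bx.mk (St.mk (I.pos (nat_lit 178667520) (nat_lit 216694784)) (I.pos (nat_lit 13467648) (nat_lit 42876928)) (I.pos (nat_lit 45072384) (nat_lit 87605248)) (I.pos (nat_lit 401801216) (nat_lit 439484416)) (I.mix (nat_lit 80035840) (nat_lit 71663616)) (I.mix (nat_lit 65519616) (nat_lit 49971200)) (I.mix (nat_lit 86933504) (nat_lit 72417280)))
  false (nat_lit 32053757)
def b2_26 : Bx := Bx.mk (St.mk (I.neg (nat_lit 27557888) (nat_lit 52396032)) (I.pos (nat_lit 13336576) (nat_lit 42549248)) (I.mix (nat_lit 5505024) (nat_lit 6422528)) (I.pos (nat_lit 273301504) (nat_lit 283328512)) (I.mix (nat_lit 54689792) (nat_lit 57032704)) (I.mix (nat_lit 45383680) (nat_lit 45875200)) (I.mix (nat_lit 11714560) (nat_lit 12075008)))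
  true (nat_lit 0)
def b2_27 : Bx := Bx.mk (St.mk (I.pos (nat_lit 27557888) (nat_lit 52396032)) (I.neg (nat_lit 13336576) (nat_lit 42549248)) (I.mix (nat_lit 5505024) (nat_lit 6422528)) (I.pos (nat_lit 273301504) (nat_lit 283328512)) (I.mix (nat_lit 57032704) (nat_lit 54689792)) (I.mix (nat_lit 45875200) (nat_lit 45383680)) (I.mix (nat_lit 11714560) (nat_lit 12075008)))
  false (nat_lit 0)
def b2_28 : Bx := Bx.mk (St.mk (I.pos (nat_lit 183828480) (nat_lit 288931840)) (I.mix (nat_lit 15613952) (nat_lit 61865984)) (I.mix (nat_lit 34865152) (nat_lit 114917376)) (I.pos (nat_lit 412270592) (nat_lit 578387968)) (I.mix (nat_lit 79593472) (nat_lit 89276416)) (I.mix (nat_lit 84869120) (nat_lit 53248000)) (I.mix (nat_lit 142344192) (nat_lit 77316096)))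
  false (nat_lit 113513473)
def b2_29 : Bx := Bx.mk (St.mk (I.mix (nat_lit 34963456) (nat_lit 10338304)) (I.mix (nat_lit 7847936) (nat_lit 43663360)) (I.mix (nat_lit 7733248) (nat_lit 1490944)) (I.pos (nat_lit 267452416) (nat_lit 278970368)) (I.mix (nat_lit 26656768) (nat_lit 43089920)) (I.mix (nat_lit 35422208) (nat_lit 19415040)) (I.mix (nat_lit 6668288) (nat_lit 5816320)))
  true (nat_lit 0)
def b2_30 : Bx := Bx.mk (St.mk (I.mix (nat_lit 10338304) (nat_lit 34963456)) (I.mix (nat_lit 43663360) (nat_lit 7847936)) (I.mix (nat_lit 7733248) (nat_lit 1490944)) (I.pos (nat_lit 267452416) (nat_lit 278970368)) (I.mix (nat_lit 43089920) (nat_lit 26656768)) (I.mix (nat_lit 19415040) (nat_lit 35422208)) (I.mix (nat_lit 6668288) (nat_lit 5816320)))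
  false (nat_lit 0)
def b2_31 : Bx := Bx.mk (St.mk (I.pos (nat_lit 243974144) (nat_lit 275283968)) (I.mix (nat_lit 22134784) (nat_lit 7225344)) (I.mix (nat_lit 44040192) (nat_lit 13516800)) (I.pos (nat_lit 498204672) (nat_lit 550191104)) (I.mix (nat_lit 51118080) (nat_lit 44400640)) (I.mix (nat_lit 41779200) (nat_lit 38109184)) (I.mix (nat_lit 67747840) (nat_lit 61440000)))
  false (nat_lit 33334147)
def b2_32 : Bx := Bx.mk (St.mk (I.mix (nat_lit 32161792) (nat_lit 3768320)) (I.mix (nat_lit 10420224) (nat_lit 28344320)) (I.mix (nat_lit 4849664) (nat_lit 2293760)) (I.pos (nat_lit 267583488) (nat_lit 275808256)) (I.mix (nat_lit 22380544) (nat_lit 22249472)) (I.mix (nat_lit 17596416) (nat_lit 15777792)) (I.mix (nat_lit 3178496) (nat_lit 3604480)))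
  true (nat_lit 0)
def b2_33 : Bx := Bx.mk (St.mk (I.mix (nat_lit 3768320) (nat_lit 32161792)) (I.mix (nat_lit 28344320) (nat_lit 10420224)) (I.mix (nat_lit 4849664) (nat_lit 2293760)) (I.pos (nat_lit 267583488) (nat_lit 275808256)) (I.mix (nat_lit 22233088) (nat_lit 22380544)) (I.mix (nat_lit 15777792) (nat_lit 17596416)) (I.mix (nat_lit 3178496) (nat_lit 3604480)))
  false (nat_lit 0)
def b2_34 : Bx := Bx.mk (St.mk (I.pos (nat_lit 257081344) (nat_lit 277725184)) (I.mix (nat_lit 16334848) (nat_lit 3276800)) (I.mix (nat_lit 36978688) (nat_lit 4456448)) (I.pos (nat_lit 523550720) (nat_lit 555040768)) (I.mix (nat_lit 35684352) (nat_lit 33161216)) (I.mix (nat_lit 34668544) (nat_lit 24903680)) (I.mix (nat_lit 57671680) (nat_lit 39354368)))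
  false (nat_lit 0)
def b2_35 : Bx := Bx.mk (St.mk (I.mix (nat_lit 31244288) (nat_lit 4997120)) (I.mix (nat_lit 8110080) (nat_lit 30785536)) (I.mix (nat_lit 4833280) (nat_lit 1540096)) (I.pos (nat_lit 267583488) (nat_lit 276299776)) (I.mix (nat_lit 14827520) (nat_lit 16875520)) (I.mix (nat_lit 14286848) (nat_lit 10141696)) (I.mix (nat_lit 2342912) (nat_lit 2637824)))
  true (nat_lit 0)
def b2_36 : Bx := Bx.mk (St.mk (I.mix (nat_lit 4997120) (nat_lit 31244288)) (I.mix (nat_lit 30785536) (nat_lit 8110080)) (I.mix (nat_lit 4833280) (nat_lit 1540096)) (I.pos (nat_lit 267583488) (nat_lit 276299776)) (I.mix (nat_lit 16875520) (nat_lit 14827520)) (I.mix (nat_lit 10141696) (nat_lit 14286848)) (I.mix (nat_lit 2342912) (nat_lit 2637824)))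
  false (nat_lit 0)
def b2_37 : Bx := Bx.mk (St.mk (I.neg (nat_lit 35553280) (nat_lit 53673984)) (I.pos (nat_lit 26099712) (nat_lit 48791552)) (I.mix (nat_lit 4718592) (nat_lit 3883008)) (I.pos (nat_lit 276545536) (nat_lit 286343168)) (I.mix (nat_lit 33619968) (nat_lit 30113792)) (I.mix (nat_lit 27131904) (nat_lit 22872064)) (I.mix (nat_lit 6799360) (nat_lit 8290304)))
  true (nat_lit 0)
def b2_38 : Bx := Bx.mk (St.mk (I.pos (nat_lit 35553280) (nat_lit 53673984)) (I.neg (nat_lit 26099712) (nat_lit 48791552)) (I.mix (nat_lit 4718592) (nat_lit 3883008)) (I.pos (nat_lit 276545536) (nat_lit 286343168)) (I.mix (nat_lit 30113792) (nat_lit 33619968)) (I.mix (nat_lit 22872064) (nat_lit 27131904)) (I.mix (nat_lit 6799360) (nat_lit 8290304)))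
  false (nat_lit 0)
def b2_39 : Bx := Bx.mk (St.mk (I.neg (nat_lit 26378240) (nat_lit 35700736)) (I.pos (nat_lit 25903104) (nat_lit 37126144)) (I.mix (nat_lit 5210112) (nat_lit 1081344)) (I.pos (nat_lit 272924672) (nat_lit 279347200)) (I.mix (nat_lit 5308416) (nat_lit 9109504)) (I.mix (nat_lit 6488064) (nat_lit 3637248)) (I.mix (nat_lit 1802240) (nat_lit 1638400)))
  true (nat_lit 0)
def b2_40 : Bx := Bx.mk (St.mk (I.pos (nat_lit 26394624) (nat_lit 35700736)) (I.neg (nat_lit 25903104) (nat_lit 37126144)) (I.mix (nat_lit 5210112) (nat_lit 1081344)) (I.pos (nat_lit 272924672) (nat_lit 279347200)) (I.mix (nat_lit 9109504) (nat_lit 5308416)) (I.mix (nat_lit 3637248) (nat_lit 6488064)) (I.mix (nat_lit 1802240) (nat_lit 1638400)))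
  false (nat_lit 0)
def b2_41 : Bx := Bx.mk (St.mk (I.pos (nat_lit 57163776) (nat_lit 101875712)) (I.neg (nat_lit 29229056) (nat_lit 88965120)) (I.mix (nat_lit 10600448) (nat_lit 36978688)) (I.pos (nat_lit 286998528) (nat_lit 325320704)) (I.mix (nat_lit 102334464) (nat_lit 115621888)) (I.mix (nat_lit 86278144) (nat_lit 88735744)) (I.mix (nat_lit 63389696) (nat_lit 81182720)))
  false (nat_lit 121066679)
def b2_42 : Bx := Bx.mk (St.mk (I.pos (nat_lit 112050176) (nat_lit 154189824)) (I.mix (nat_lit 11223040) (nat_lit 47316992)) (I.pos (nat_lit 49086464) (nat_lit 120782848)) (I.pos (nat_lit 312950784) (nat_lit 364134400)) (I.mix (nat_lit 155910144) (nat_lit 80871424)) (I.mix (nat_lit 136216576) (nat_lit 96354304)) (I.mix (nat_lit 133595136) (nat_lit 103940096)))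
  false (nat_lit 94122518)
def b2_43 : Bx := Bx.mk (St.mk (I.neg (nat_lit 57163776) (nat_lit 101875712)) (I.pos (nat_lit 29229056) (nat_lit 88965120)) (I.mix (nat_lit 10600448) (nat_lit 36978688)) (I.pos (nat_lit 287014912) (nat_lit 325320704)) (I.mix (nat_lit 115621888) (nat_lit 102350848)) (I.mix (nat_lit 88784896) (nat_lit 86228992)) (I.mix (nat_lit 63389696) (nat_lit 81182720)))
  true (nat_lit 26955990)
def b2_44 : Bx := Bx.mk (St.mk (I.pos (nat_lit 74629120) (nat_lit 109772800)) (I.neg (nat_lit 2703360) (nat_lit 46383104)) (I.pos (nat_lit 15679488) (nat_lit 59703296)) (I.pos (nat_lit 287424512) (nat_lit 320143360)) (I.mix (nat_lit 92717056) (nat_lit 69615616)) (I.mix (nat_lit 63635456) (nat_lit 77250560)) (I.mix (nat_lit 60637184) (nat_lit 60473344)))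
  false (nat_lit 10680713)
def t2 : BTr := (BTr.n (BTr.n (BTr.n (BTr.n (BTr.n (BTr.b b2_0) (BTr.b b2_1)) (BTr.n (BTr.b b2_2) (BTr.n (BTr.b b2_3) (BTr.b b2_4)))) (BTr.n (BTr.n (BTr.b b2_5) (BTr.n (BTr.b b2_6) (BTr.b b2_7))) (BTr.n (BTr.b b2_8) (BTr.n (BTr.b b2_9) (BTr.b b2_10))))) (BTr.n (BTr.n (BTr.n (BTr.b b2_11) (BTr.b b2_12)) (BTr.n (BTr.b b2_13) (BTr.n (BTr.b b2_14) (BTr.b b2_15)))) (BTr.n (BTr.n (BTr.b b2_16) (BTr.n (BTr.b b2_17) (BTr.b b2_18))) (BTr.n (BTr.b b2_19) (BTr.n (BTr.b b2_20) (BTr.b b2_21)))))) (BTr.n (BTr.n (BTr.n (BTr.n (BTr.b b2_22) (BTr.b b2_23)) (BTr.n (BTr.b b2_24) (BTr.n (BTr.b b2_25) (BTr.b b2_26)))) (BTr.n (BTr.n (BTr.b b2_27) (BTr.n (BTr.b b2_28) (BTr.b b2_29))) (BTr.n (BTr.b b2_30) (BTr.n (BTr.b b2_31) (BTr.b b2_32))))) (BTr.n (BTr.n (BTr.n (BTr.b b2_33) (BTr.n (BTr.b b2_34) (BTr.b b2_35))) (BTr.n (BTr.b b2_36)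 (BTr.n (BTr.b b2_37) (BTr.b b2_38)))) (BTr.n (BTr.n (BTr.b b2_39) (BTr.n (BTr.b b2_40) (BTr.b b2_41))) (BTr.n (BTr.b b2_42) (BTr.n (BTr.b b2_43) (BTr.b b2_44)))))))
namespace T2
def l0 : Tr := Tr.L (Pth.l (Pth.l (Pth.l (Pth.l (Pth.l Pth.z)))))
def l1 : Tr := Tr.L (Pth.l (Pth.l (Pth.l (Pth.l (Pth.r Pth.z)))))
def l2 : Tr := Tr.L (Pth.l (Pth.l (Pth.l (Pth.r (Pth.l Pth.z)))))
def l3 : Tr := Tr.L (Pth.l (Pth.l (Pth.l (Pth.r (Pth.r (Pth.l Pth.z))))))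
def l4 : Tr := Tr.L (Pth.l (Pth.l (Pth.l (Pth.r (Pth.r (Pth.r Pth.z))))))
def l5 : Tr := Tr.L (Pth.l (Pth.l (Pth.r (Pth.l (Pth.l Pth.z)))))
def l6 : Tr := Tr.L (Pth.l (Pth.l (Pth.r (Pth.l (Pth.r (Pth.l Pth.z))))))
def l7 : Tr := Tr.L (Pth.l (Pth.l (Pth.r (Pth.l (Pth.r (Pth.r Pth.z))))))
def l8 : Tr := Tr.L (Pth.l (Pth.l (Pth.r (Pth.r (Pth.l Pth.z)))))
def l9 : Tr := Tr.L (Pth.l (Pth.l (Pth.r (Pth.r (Pth.r (Pth.l Pth.z))))))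
def l10 : Tr := Tr.L (Pth.l (Pth.l (Pth.r (Pth.r (Pth.r (Pth.r Pth.z))))))
def l11 : Tr := Tr.L (Pth.l (Pth.r (Pth.l (Pth.l (Pth.l Pth.z)))))
def l12 : Tr := Tr.L (Pth.l (Pth.r (Pth.l (Pth.l (Pth.r Pth.z)))))
def l13 : Tr := Tr.L (Pth.l (Pth.r (Pth.l (Pth.r (Pth.l Pth.z)))))
def l14 : Tr := Tr.L (Pth.l (Pth.r (Pth.l (Pth.r (Pth.r (Pth.l Pth.z))))))
def l15 : Tr := Tr.L (Pth.l (Pth.r (Pth.l (Pth.r (Pth.r (Pth.r Pth.z))))))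
def l16 : Tr := Tr.L (Pth.l (Pth.r (Pth.r (Pth.l (Pth.l Pth.z)))))
def l17 : Tr := Tr.L (Pth.l (Pth.r (Pth.r (Pth.l (Pth.r (Pth.l Pth.z))))))
def l18 : Tr := Tr.L (Pth.l (Pth.r (Pth.r (Pth.l (Pth.r (Pth.r Pth.z))))))
def l19 : Tr := Tr.L (Pth.l (Pth.r (Pth.r (Pth.r (Pth.l Pth.z)))))
def l20 : Tr := Tr.L (Pth.l (Pth.r (Pth.r (Pth.r (Pth.r (Pth.l Pth.z))))))
def l21 : Tr := Tr.L (Pth.l (Pth.r (Pth.r (Pth.r (Pth.r (Pth.r Pth.z))))))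
def l22 : Tr := Tr.L (Pth.r (Pth.l (Pth.l (Pth.l (Pth.l Pth.z)))))
def l23 : Tr := Tr.L (Pth.r (Pth.l (Pth.l (Pth.l (Pth.r Pth.z)))))
def l24 : Tr := Tr.L (Pth.r (Pth.l (Pth.l (Pth.r (Pth.l Pth.z)))))
def l25 : Tr := Tr.L (Pth.r (Pth.l (Pth.l (Pth.r (Pth.r (Pth.l Pth.z))))))
def l26 : Tr := Tr.L (Pth.r (Pth.l (Pth.l (Pth.r (Pth.r (Pth.r Pth.z))))))
def l27 : Tr := Tr.L (Pth.r (Pth.l (Pth.r (Pth.l (Pth.l Pth.z)))))
def l28 : Tr := Tr.L (Pth.r (Pth.l (Pth.r (Pth.l (Pth.r (Pth.l Pth.z))))))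
def l29 : Tr := Tr.L (Pth.r (Pth.l (Pth.r (Pth.l (Pth.r (Pth.r Pth.z))))))
def l30 : Tr := Tr.L (Pth.r (Pth.l (Pth.r (Pth.r (Pth.l Pth.z)))))
def l31 : Tr := Tr.L (Pth.r (Pth.l (Pth.r (Pth.r (Pth.r (Pth.l Pth.z))))))
def l32 : Tr := Tr.L (Pth.r (Pth.l (Pth.r (Pth.r (Pth.r (Pth.r Pth.z))))))
def l33 : Tr := Tr.L (Pth.r (Pth.r (Pth.l (Pth.l (Pth.l Pth.z)))))
def l34 : Tr := Tr.L (Pth.r (Pth.r (Pth.l (Pth.l (Pth.r (Pth.l Pth.z))))))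
def l35 : Tr := Tr.L (Pth.r (Pth.r (Pth.l (Pth.l (Pth.r (Pth.r Pth.z))))))
def l36 : Tr := Tr.L (Pth.r (Pth.r (Pth.l (Pth.r (Pth.l Pth.z)))))
def l37 : Tr := Tr.L (Pth.r (Pth.r (Pth.l (Pth.r (Pth.r (Pth.l Pth.z))))))
def l38 : Tr := Tr.L (Pth.r (Pth.r (Pth.l (Pth.r (Pth.r (Pth.r Pth.z))))))
def l39 : Tr := Tr.L (Pth.r (Pth.r (Pth.r (Pth.l (Pth.l Pth.z)))))
def l40 : Tr := Tr.L (Pth.r (Pth.r (Pth.r (Pth.l (Pth.r (Pth.l Pth.z))))))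
def l41 : Tr := Tr.L (Pth.r (Pth.r (Pth.r (Pth.l (Pth.r (Pth.r Pth.z))))))
def l42 : Tr := Tr.L (Pth.r (Pth.r (Pth.r (Pth.r (Pth.l Pth.z)))))
def l43 : Tr := Tr.L (Pth.r (Pth.r (Pth.r (Pth.r (Pth.r (Pth.l Pth.z))))))
def l44 : Tr := Tr.L (Pth.r (Pth.r (Pth.r (Pth.r (Pth.r (Pth.r Pth.z))))))
end T2
theorem bx0_0 : BoxOK sI cl4 cl4 cl13 t0 t2 b0_0 :=
  box_mk (TrL.c (I.pos (nat_lit 0) (nat_lit 0)) (xb (xa (xb (xa T0.l0 T0.l0) (xa T0.l0 T0.l0)) (xb T0.l0 T0.l0)) (xa (xb (xa (xb T0.l0 T0.l0) T0.l0) (xa (xb T0.l0 T0.l0) (xb T0.l0 T0.l0))) (xb (xa T0.l0 T0.l0) (xa (xb T0.l0 T0.l0) (xb T0.l0 T0.l0)))))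
  (TrL.c (I.pos (nat_lit 0) (nat_lit 0)) (xb (xa T2.l1 T2.l1) (xa T2.l1 T2.l1))
  (TrL.c (I.pos (nat_lit 0) (nat_lit 0)) (xb T0.l1 (xa T0.l1 T0.l1))
  (TrL.c (I.pos (nat_lit 0) (nat_lit 0)) (xb (xa (xb (xa T2.l2 T2.l2) T2.l2) (xb (xa T2.l2 (xb T2.l2 T2.l2)) (xa T2.l2 T2.l2))) (xa (xb T2.l2 (xa T2.l2 T2.l2)) (xb (xa T2.l2 T2.l2) (xa T2.l2 (xb T2.l2 T2.l2)))))
  (TrL.c (I.pos (nat_lit 0) (nat_lit 0)) (xb T0.l2 (xa T0.l2 T0.l2))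
  (TrL.c (I.pos (nat_lit 0) (nat_lit 0)) (xb (xa T2.l3 T2.l3) (xa T2.l3 T2.l3))
  TrL.n)))))) (by decide +kernel)
theorem bx0_1 : BoxOK sI cl4 cl4 cl13 t0 t2 b0_1 :=
  box_mk (TrL.c (I.pos (nat_lit 0) (nat_lit 0)) T2.l4
  (TrL.c (I.pos (nat_lit 0) (nat_lit 0)) T0.l3
  TrL.n)) (by decide +kernel)
theorem bx0_2 : BoxOK sI cl4 cl4 cl13 t0 t2 b0_2 :=
  box_mk (TrL.c (I.pos (nat_lit 0) (nat_lit 0)) (xb (xa (xb (xa T0.l4 T0.l4) (xa T0.l4 T0.l4)) T0.l11) (xa (xb (xa T0.l4 T0.l4) (xa T0.l4 T0.l4)) (xb (xa T0.l4 T0.l4) (xa T0.l4 T0.l4))))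
  (TrL.c (I.pos (nat_lit 0) (nat_lit 0)) T2.l4
  (TrL.c (I.pos (nat_lit 0) (nat_lit 0)) T0.l3
  (TrL.c (I.pos (nat_lit 0) (nat_lit 0)) T2.l5
  (TrL.c (I.pos (nat_lit 0) (nat_lit 0)) T0.l5
  (TrL.c (I.pos (nat_lit 0) (nat_lit 0)) T2.l6
  TrL.n)))))) (by decide +kernel)
theorem bx0_3 : BoxOK sI cl4 cl4 cl13 t0 t2 b0_3 :=
  box_mk (TrL.c (I.pos (nat_lit 0) (nat_lit 0)) T2.l10
  (TrL.c (I.pos (nat_lit 0) (nat_lit 0)) T0.l6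
  TrL.n)) (by decide +kernel)
theorem bx0_4 : BoxOK sI cl4 cl4 cl13 t0 t2 b0_4 :=
  box_mk (TrL.c (I.pos (nat_lit 0) (nat_lit 0)) T0.l8
  (TrL.c (I.pos (nat_lit 0) (nat_lit 0)) T2.l1
  (TrL.c (I.pos (nat_lit 0) (nat_lit 0)) T0.l9
  (TrL.c (I.pos (nat_lit 0) (nat_lit 0)) (xa (xb T2.l2 T2.l2) (xb (xa T2.l2 T2.l2) T2.l2))
  (TrL.c (I.pos (nat_lit 0) (nat_lit 0)) T0.l7
  (TrL.c (I.pos (nat_lit 0) (nat_lit 0)) T2.l3
  TrL.n)))))) (by decide +kernel)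
theorem bx0_5 : BoxOK sI cl4 cl4 cl13 t0 t2 b0_5 :=
  box_mk (TrL.c (I.pos (nat_lit 0) (nat_lit 0)) (xb T0.l4 (xa T0.l4 T0.l4))
  (TrL.c (I.pos (nat_lit 0) (nat_lit 0)) T2.l10
  (TrL.c (I.pos (nat_lit 0) (nat_lit 0)) T0.l10
  (TrL.c (I.pos (nat_lit 0) (nat_lit 0)) T2.l5
  (TrL.c (I.pos (nat_lit 0) (nat_lit 0)) T0.l5
  (TrL.c (I.pos (nat_lit 0) (nat_lit 0)) T2.l6
  TrL.n)))))) (by decide +kernel)
theorem bx0_6 : BoxOK sI cl4 cl4 cl13 t0 t2 b0_6 :=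
  box_mk (TrL.c (I.pos (nat_lit 0) (nat_lit 0)) T2.l7
  (TrL.c (I.pos (nat_lit 0) (nat_lit 0)) T0.l6
  TrL.n)) (by decide +kernel)
theorem bx0_7 : BoxOK sI cl4 cl4 cl13 t0 t2 b0_7 :=
  box_mk (TrL.c (I.pos (nat_lit 0) (nat_lit 0)) (xa (xb (xa (xb T0.l11 T0.l11) (xb T0.l11 T0.l11)) (xa (xb T0.l11 T0.l11) (xb T0.l11 T0.l11))) (xb (xa T0.l11 (xb T0.l11 T0.l11)) (xa (xb T0.l11 T0.l11) (xb T0.l11 T0.l11))))
  (TrL.c (I.pos (nat_lit 0) (nat_lit 0)) T2.l44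
  (TrL.c (I.pos (nat_lit 0) (nat_lit 0)) T0.l44
  (TrL.c (I.pos (nat_lit 0) (nat_lit 0)) T2.l12
  (TrL.c (I.pos (nat_lit 0) (nat_lit 0)) T0.l13
  (TrL.c (I.pos (nat_lit 0) (nat_lit 0)) T2.l13
  TrL.n)))))) (by decide +kernel)
theorem bx0_8 : BoxOK sI cl4 cl4 cl13 t0 t2 b0_8 :=
  box_mk (TrL.c (I.pos (nat_lit 0) (nat_lit 0)) (xa (xb (xa T0.l41 T0.l41) (xb T0.l41 (xa T0.l41 T0.l41))) (xb (xa T0.l41 T0.l41) (xa T0.l41 T0.l41)))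
  (TrL.c (I.pos (nat_lit 0) (nat_lit 0)) (xa T2.l41 T2.l41)
  (TrL.c (I.pos (nat_lit 0) (nat_lit 0)) T0.l42
  (TrL.c (I.pos (nat_lit 0) (nat_lit 0)) (xa (xb T2.l42 T2.l2) (xb (xb T2.l2 T2.l2) T2.l2))
  (TrL.c (I.pos (nat_lit 0) (nat_lit 0)) T0.l43
  (TrL.c (I.pos (nat_lit 0) (nat_lit 0)) (xa T2.l43 T2.l43)
  TrL.n)))))) (by decide +kernel)
theorem bx0_9 : BoxOK sI cl4 cl4 cl13 t0 t2 b0_9 :=
  box_mk (TrL.c (I.pos (nat_lit 0) (nat_lit 0)) T2.l44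
  (TrL.c (I.pos (nat_lit 0) (nat_lit 0)) T0.l44
  TrL.n)) (by decide +kernel)
theorem bx0_10 : BoxOK sI cl4 cl4 cl13 t0 t2 b0_10 :=
  box_mk (TrL.c (I.pos (nat_lit 0) (nat_lit 0)) T2.l4
  (TrL.c (I.pos (nat_lit 0) (nat_lit 0)) T0.l3
  TrL.n)) (by decide +kernel)
theorem bx0_11 : BoxOK sI cl4 cl4 cl13 t0 t2 b0_11 :=
  box_mk (TrL.c (I.pos (nat_lit 0) (nat_lit 0)) (xb (xa T0.l0 T0.l0) (xa T0.l0 T0.l0))
  (TrL.c (I.pos (nat_lit 0) (nat_lit 0)) T2.l1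
  (TrL.c (I.pos (nat_lit 0) (nat_lit 0)) T0.l9
  (TrL.c (I.pos (nat_lit 0) (nat_lit 0)) (xb (xa (xb (xa T2.l2 T2.l2) T2.l2) (xb (xa T2.l2 T2.l2) T2.l2)) (xa T2.l2 (xb T2.l2 T2.l2)))
  (TrL.c (I.pos (nat_lit 0) (nat_lit 0)) T0.l7
  (TrL.c (I.pos (nat_lit 0) (nat_lit 0)) T2.l3
  TrL.n)))))) (by decide +kernel)
theorem bx0_12 : BoxOK sI cl4 cl4 cl13 t0 t2 b0_12 :=
  box_mk (TrL.c (I.pos (nat_lit 0) (nat_lit 0)) T2.l4
  (TrL.c (I.pos (nat_lit 0) (nat_lit 0)) T0.l3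
  TrL.n)) (by decide +kernel)
theorem bx0_13 : BoxOK sI cl4 cl4 cl13 t0 t2 b0_13 :=
  box_mk (TrL.c (I.pos (nat_lit 0) (nat_lit 0)) (xb T0.l4 (xb T0.l4 (xa T0.l4 T0.l4)))
  (TrL.c (I.pos (nat_lit 0) (nat_lit 0)) T2.l4
  (TrL.c (I.pos (nat_lit 0) (nat_lit 0)) T0.l3
  (TrL.c (I.pos (nat_lit 0) (nat_lit 0)) T2.l5
  (TrL.c (I.pos (nat_lit 0) (nat_lit 0)) T0.l5
  (TrL.c (I.pos (nat_lit 0) (nat_lit 0)) T2.l6
  TrL.n)))))) (by decide +kernel)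
theorem bx0_14 : BoxOK sI cl4 cl4 cl13 t0 t2 b0_14 :=
  box_mk (TrL.c (I.pos (nat_lit 0) (nat_lit 0)) (xa (xb T0.l11 (xa T0.l11 T0.l11)) T0.l11)
  (TrL.c (I.pos (nat_lit 0) (nat_lit 0)) T2.l11
  (TrL.c (I.pos (nat_lit 0) (nat_lit 0)) T0.l12
  (TrL.c (I.pos (nat_lit 0) (nat_lit 0)) T2.l12
  (TrL.c (I.pos (nat_lit 0) (nat_lit 0)) T0.l13
  (TrL.c (I.pos (nat_lit 0) (nat_lit 0)) T2.l13
  TrL.n)))))) (by decide +kernel)
theorem bx0_15 : BoxOK sI cl4 cl4 cl13 t0 t2 b0_15 :=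
  box_mk (TrL.c (I.pos (nat_lit 0) (nat_lit 0)) (xb (xa T0.l41 T0.l41) T0.l41)
  (TrL.c (I.pos (nat_lit 0) (nat_lit 0)) T2.l41
  (TrL.c (I.pos (nat_lit 0) (nat_lit 0)) T0.l42
  (TrL.c (I.pos (nat_lit 0) (nat_lit 0)) (xb T2.l42 T2.l42)
  (TrL.c (I.pos (nat_lit 0) (nat_lit 0)) T0.l43
  (TrL.c (I.pos (nat_lit 0) (nat_lit 0)) T2.l43
  TrL.n)))))) (by decide +kernel)
theorem bx0_16 : BoxOK sI cl4 cl4 cl13 t0 t2 b0_16 :=
  box_mk (TrL.c (I.pos (nat_lit 0) (nat_lit 0)) T2.l44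
  (TrL.c (I.pos (nat_lit 0) (nat_lit 0)) T0.l44
  TrL.n)) (by decide +kernel)
theorem bx0_17 : BoxOK sI cl4 cl4 cl13 t0 t2 b0_17 :=
  box_mk (TrL.c (I.pos (nat_lit 0) (nat_lit 0)) (xa T0.l11 (xb (xa T0.l11 T0.l11) (xa T0.l11 T0.l41)))
  (TrL.c (I.pos (nat_lit 0) (nat_lit 0)) T2.l11
  (TrL.c (I.pos (nat_lit 0) (nat_lit 0)) T0.l12
  (TrL.c (I.pos (nat_lit 0) (nat_lit 0)) (xa T2.l12 T2.l12)
  (TrL.c (I.pos (nat_lit 0) (nat_lit 0)) T0.l13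
  (TrL.c (I.pos (nat_lit 0) (nat_lit 0)) T2.l13
  TrL.n)))))) (by decide +kernel)
theorem bx0_18 : BoxOK sI cl4 cl4 cl13 t0 t2 b0_18 :=
  box_mk (TrL.c (I.pos (nat_lit 0) (nat_lit 0)) (xa (xb T0.l41 T0.l41) T0.l41)
  (TrL.c (I.pos (nat_lit 0) (nat_lit 0)) T2.l41
  (TrL.c (I.pos (nat_lit 0) (nat_lit 0)) T0.l42
  (TrL.c (I.pos (nat_lit 0) (nat_lit 0)) T2.l42
  (TrL.c (I.pos (nat_lit 0) (nat_lit 0)) T0.l43
  (TrL.c (I.pos (nat_lit 0) (nat_lit 0)) T2.l43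
  TrL.n)))))) (by decide +kernel)
theorem bx0_19 : BoxOK sI cl4 cl4 cl13 t0 t2 b0_19 :=
  box_mk (TrL.c (I.pos (nat_lit 0) (nat_lit 0)) T2.l11
  (TrL.c (I.pos (nat_lit 0) (nat_lit 0)) T0.l12
  TrL.n)) (by decide +kernel)
theorem bx0_20 : BoxOK sI cl4 cl4 cl13 t0 t2 b0_20 :=
  box_mk (TrL.c (I.pos (nat_lit 0) (nat_lit 0)) (xa T0.l11 (xb T0.l11 T0.l11))
  (TrL.c (I.pos (nat_lit 0) (nat_lit 0)) T2.l11
  (TrL.c (I.pos (nat_lit 0) (nat_lit 0)) T0.l12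
  (TrL.c (I.pos (nat_lit 0) (nat_lit 0)) T2.l12
  (TrL.c (I.pos (nat_lit 0) (nat_lit 0)) T0.l13
  (TrL.c (I.pos (nat_lit 0) (nat_lit 0)) T2.l13
  TrL.n)))))) (by decide +kernel)
theorem bx0_21 : BoxOK sI cl4 cl4 cl13 t0 t2 b0_21 :=
  box_mk (TrL.c (I.pos (nat_lit 0) (nat_lit 0)) (xa (xb T0.l41 T0.l41) (xb T0.l41 T0.l41))
  (TrL.c (I.pos (nat_lit 0) (nat_lit 0)) T2.l41
  (TrL.c (I.pos (nat_lit 0) (nat_lit 0)) T0.l42
  (TrL.c (I.pos (nat_lit 0) (nat_lit 0)) (xb T2.l42 T2.l42)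
  (TrL.c (I.pos (nat_lit 0) (nat_lit 0)) T0.l43
  (TrL.c (I.pos (nat_lit 0) (nat_lit 0)) T2.l43
  TrL.n)))))) (by decide +kernel)
theorem bx0_22 : BoxOK sI cl4 cl4 cl13 t0 t2 b0_22 :=
  box_mk (TrL.c (I.pos (nat_lit 0) (nat_lit 0)) T2.l11
  (TrL.c (I.pos (nat_lit 0) (nat_lit 0)) T0.l12
  TrL.n)) (by decide +kernel)
theorem bx0_23 : BoxOK sI cl4 cl4 cl13 t0 t2 b0_23 :=
  box_mk (TrL.c (I.pos (nat_lit 0) (nat_lit 0)) (xb (xa (xb T0.l11 T0.l11) T0.l11) (xa (xb T0.l11 (xa T0.l11 T0.l11)) (xb T0.l11 T0.l11)))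
  (TrL.c (I.pos (nat_lit 0) (nat_lit 0)) T2.l11
  (TrL.c (I.pos (nat_lit 0) (nat_lit 0)) T0.l12
  (TrL.c (I.pos (nat_lit 0) (nat_lit 0)) T2.l12
  (TrL.c (I.pos (nat_lit 0) (nat_lit 0)) T0.l13
  (TrL.c (I.pos (nat_lit 0) (nat_lit 0)) T2.l13
  TrL.n)))))) (by decide +kernel)
theorem bx0_24 : BoxOK sI cl4 cl4 cl13 t0 t2 b0_24 :=
  box_mk (TrL.c (I.pos (nat_lit 0) (nat_lit 0)) (xb (xa T0.l41 T0.l41) (xa (xb T0.l41 T0.l41) T0.l41))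
  (TrL.c (I.pos (nat_lit 0) (nat_lit 0)) T2.l41
  (TrL.c (I.pos (nat_lit 0) (nat_lit 0)) T0.l42
  (TrL.c (I.pos (nat_lit 0) (nat_lit 0)) (xb (xa T2.l42 T2.l42) (xa T2.l42 T2.l42))
  (TrL.c (I.pos (nat_lit 0) (nat_lit 0)) T0.l43
  (TrL.c (I.pos (nat_lit 0) (nat_lit 0)) T2.l43
  TrL.n)))))) (by decide +kernel)
theorem bx0_25 : BoxOK sI cl4 cl4 cl13 t0 t2 b0_25 :=
  box_mk (TrL.c (I.pos (nat_lit 0) (nat_lit 0)) T2.l44
  (TrL.c (I.pos (nat_lit 0) (nat_lit 0)) T0.l12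
  TrL.n)) (by decide +kernel)
theorem bx0_26 : BoxOK sI cl4 cl4 cl13 t0 t2 b0_26 :=
  box_mk (TrL.c (I.pos (nat_lit 0) (nat_lit 0)) (xb T0.l11 (xa (xb T0.l11 T0.l11) T0.l11))
  (TrL.c (I.pos (nat_lit 0) (nat_lit 0)) T2.l11
  (TrL.c (I.pos (nat_lit 0) (nat_lit 0)) T0.l12
  (TrL.c (I.pos (nat_lit 0) (nat_lit 0)) T2.l12
  (TrL.c (I.pos (nat_lit 0) (nat_lit 0)) T0.l13
  (TrL.c (I.pos (nat_lit 0) (nat_lit 0)) T2.l13
  TrL.n)))))) (by decide +kernel)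
theorem bx0_27 : BoxOK sI cl4 cl4 cl13 t0 t2 b0_27 :=
  box_mk (TrL.c (I.pos (nat_lit 0) (nat_lit 0)) T0.l41
  (TrL.c (I.pos (nat_lit 0) (nat_lit 0)) T2.l41
  (TrL.c (I.pos (nat_lit 0) (nat_lit 0)) T0.l42
  (TrL.c (I.pos (nat_lit 0) (nat_lit 0)) T2.l42
  (TrL.c (I.pos (nat_lit 0) (nat_lit 0)) T0.l43
  (TrL.c (I.pos (nat_lit 0) (nat_lit 0)) T2.l43
  TrL.n)))))) (by decide +kernel)
theorem bx0_28 : BoxOK sI cl4 cl4 cl13 t0 t2 b0_28 :=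
  box_mk (TrL.c (I.pos (nat_lit 0) (nat_lit 0)) T2.l44
  (TrL.c (I.pos (nat_lit 0) (nat_lit 0)) T0.l44
  TrL.n)) (by decide +kernel)
theorem bx0_29 : BoxOK sI cl4 cl4 cl13 t0 t2 b0_29 :=
  box_mk (TrL.c (I.pos (nat_lit 0) (nat_lit 0)) (xa (xb T0.l11 (xa T0.l11 T0.l11)) (xb (xa T0.l11 T0.l11) (xa T0.l11 T0.l41)))
  (TrL.c (I.pos (nat_lit 0) (nat_lit 0)) T2.l11
  (TrL.c (I.pos (nat_lit 0) (nat_lit 0)) T0.l12
  (TrL.c (I.pos (nat_lit 0) (nat_lit 0)) (xa T2.l12 T2.l12)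
  (TrL.c (I.pos (nat_lit 0) (nat_lit 0)) T0.l13
  (TrL.c (I.pos (nat_lit 0) (nat_lit 0)) T2.l13
  TrL.n)))))) (by decide +kernel)
theorem bx0_30 : BoxOK sI cl4 cl4 cl13 t0 t2 b0_30 :=
  box_mk (TrL.c (I.pos (nat_lit 0) (nat_lit 0)) (xb (xa (xb T0.l41 T0.l41) (xb T0.l41 T0.l41)) (xa (xb T0.l41 T0.l41) T0.l41))
  (TrL.c (I.pos (nat_lit 0) (nat_lit 0)) T2.l41
  (TrL.c (I.pos (nat_lit 0) (nat_lit 0)) T0.l42
  (TrL.c (I.pos (nat_lit 0) (nat_lit 0)) (xb (xa T2.l42 T2.l42) (xa T2.l42 T2.l42))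
  (TrL.c (I.pos (nat_lit 0) (nat_lit 0)) T0.l43
  (TrL.c (I.pos (nat_lit 0) (nat_lit 0)) T2.l43
  TrL.n)))))) (by decide +kernel)
theorem bx0_31 : BoxOK sI cl4 cl4 cl13 t0 t2 b0_31 :=
  box_mk (TrL.c (I.pos (nat_lit 0) (nat_lit 0)) T2.l11
  (TrL.c (I.pos (nat_lit 0) (nat_lit 0)) T0.l12
  TrL.n)) (by decide +kernel)
theorem bx0_32 : BoxOK sI cl4 cl4 cl13 t0 t2 b0_32 :=
  box_mk (TrL.c (I.pos (nat_lit 0) (nat_lit 0)) (xb T0.l11 T0.l11)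
  (TrL.c (I.pos (nat_lit 0) (nat_lit 0)) T2.l11
  (TrL.c (I.pos (nat_lit 0) (nat_lit 0)) T0.l12
  (TrL.c (I.pos (nat_lit 0) (nat_lit 0)) T2.l12
  (TrL.c (I.pos (nat_lit 0) (nat_lit 0)) T0.l13
  (TrL.c (I.pos (nat_lit 0) (nat_lit 0)) T2.l13
  TrL.n)))))) (by decide +kernel)
theorem bx0_33 : BoxOK sI cl4 cl4 cl13 t0 t2 b0_33 :=
  box_mk (TrL.c (I.pos (nat_lit 0) (nat_lit 0)) (xa (xb T0.l41 T0.l41) T0.l41)
  (TrL.c (I.pos (nat_lit 0) (nat_lit 0)) T2.l41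
  (TrL.c (I.pos (nat_lit 0) (nat_lit 0)) T0.l42
  (TrL.c (I.pos (nat_lit 0) (nat_lit 0)) T2.l42
  (TrL.c (I.pos (nat_lit 0) (nat_lit 0)) T0.l43
  (TrL.c (I.pos (nat_lit 0) (nat_lit 0)) T2.l43
  TrL.n)))))) (by decide +kernel)
theorem bx0_34 : BoxOK sI cl4 cl4 cl13 t0 t2 b0_34 :=
  box_mk (TrL.c (I.pos (nat_lit 0) (nat_lit 0)) T2.l11
  (TrL.c (I.pos (nat_lit 0) (nat_lit 0)) T0.l12
  TrL.n)) (by decide +kernel)
theorem bx0_35 : BoxOK sI cl4 cl4 cl13 t0 t2 b0_35 :=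
  box_mk (TrL.c (I.pos (nat_lit 0) (nat_lit 0)) T0.l11
  (TrL.c (I.pos (nat_lit 0) (nat_lit 0)) T2.l11
  (TrL.c (I.pos (nat_lit 0) (nat_lit 0)) T0.l12
  (TrL.c (I.pos (nat_lit 0) (nat_lit 0)) T2.l12
  (TrL.c (I.pos (nat_lit 0) (nat_lit 0)) T0.l13
  (TrL.c (I.pos (nat_lit 0) (nat_lit 0)) T2.l13
  TrL.n)))))) (by decide +kernel)
theorem bx0_36 : BoxOK sI cl4 cl4 cl13 t0 t2 b0_36 :=
  box_mk (TrL.c (I.pos (nat_lit 0) (nat_lit 0)) T0.l41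
  (TrL.c (I.pos (nat_lit 0) (nat_lit 0)) T2.l41
  (TrL.c (I.pos (nat_lit 0) (nat_lit 0)) T0.l42
  (TrL.c (I.pos (nat_lit 0) (nat_lit 0)) T2.l42
  (TrL.c (I.pos (nat_lit 0) (nat_lit 0)) T0.l43
  (TrL.c (I.pos (nat_lit 0) (nat_lit 0)) T2.l43
  TrL.n)))))) (by decide +kernel)
theorem bx0_37 : BoxOK sI cl4 cl4 cl13 t0 t2 b0_37 :=
  box_mk (TrL.c (I.pos (nat_lit 0) (nat_lit 0)) T2.l44
  (TrL.c (I.pos (nat_lit 0) (nat_lit 0)) T0.l44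
  TrL.n)) (by decide +kernel)
theorem bx0_38 : BoxOK sI cl4 cl4 cl13 t0 t2 b0_38 :=
  box_mk (TrL.c (I.pos (nat_lit 0) (nat_lit 0)) T0.l11
  (TrL.c (I.pos (nat_lit 0) (nat_lit 0)) T2.l11
  (TrL.c (I.pos (nat_lit 0) (nat_lit 0)) T0.l12
  (TrL.c (I.pos (nat_lit 0) (nat_lit 0)) T2.l12
  (TrL.c (I.pos (nat_lit 0) (nat_lit 0)) T0.l13
  (TrL.c (I.pos (nat_lit 0) (nat_lit 0)) T2.l13
  TrL.n)))))) (by decide +kernel)
theorem bx0_39 : BoxOK sI cl4 cl4 cl13 t0 t2 b0_39 :=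
  box_mk (TrL.c (I.pos (nat_lit 0) (nat_lit 0)) T0.l41
  (TrL.c (I.pos (nat_lit 0) (nat_lit 0)) T2.l41
  (TrL.c (I.pos (nat_lit 0) (nat_lit 0)) T0.l42
  (TrL.c (I.pos (nat_lit 0) (nat_lit 0)) T2.l42
  (TrL.c (I.pos (nat_lit 0) (nat_lit 0)) T0.l43
  (TrL.c (I.pos (nat_lit 0) (nat_lit 0)) T2.l43
  TrL.n)))))) (by decide +kernel)
theorem bx0_40 : BoxOK sI cl4 cl4 cl13 t0 t2 b0_40 :=
  box_mk (TrL.c (I.pos (nat_lit 0) (nat_lit 0)) T2.l44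
  (TrL.c (I.pos (nat_lit 0) (nat_lit 0)) T0.l44
  TrL.n)) (by decide +kernel)
theorem bx0_41 : BoxOK sI cl4 cl4 cl13 t0 t2 b0_41 :=
  box_mk (TrL.c (I.pos (nat_lit 0) (nat_lit 0)) (xb (xa (xb T0.l41 T0.l41) (xb T0.l0 T0.l0)) (xa (xb (xa T0.l0 T0.l0) (xa T0.l0 T0.l0)) (xb T0.l0 (xa T0.l0 T0.l0))))
  (TrL.c (I.pos (nat_lit 0) (nat_lit 0)) (xb T2.l1 T2.l1)
  (TrL.c (I.pos (nat_lit 0) (nat_lit 0)) (xb T0.l1 T0.l1)
  (TrL.c (I.pos (nat_lit 0) (nat_lit 0)) (xb (xa (xb (xa T2.l2 T2.l2) T2.l2) (xb (xa T2.l2 T2.l2) (xa T2.l2 T2.l2))) (xa (xb T2.l2 T2.l2) (xb (xa T2.l2 (xc T2.l2 T2.l2)) (xa T2.l2 (xc T2.l2 T2.l2)))))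
  (TrL.c (I.pos (nat_lit 0) (nat_lit 0)) (xb T0.l2 T0.l2)
  (TrL.c (I.pos (nat_lit 0) (nat_lit 0)) (xb T2.l3 T2.l3)
  TrL.n)))))) (by decide +kernel)
theorem bx0_42 : BoxOK sI cl4 cl4 cl13 t0 t2 b0_42 :=
  box_mk (TrL.c (I.pos (nat_lit 0) (nat_lit 0)) T2.l4
  (TrL.c (I.pos (nat_lit 0) (nat_lit 0)) T0.l3
  TrL.n)) (by decide +kernel)
theorem bx0_43 : BoxOK sI cl4 cl4 cl13 t0 t2 b0_43 :=
  box_mk (TrL.c (I.pos (nat_lit 0) (nat_lit 0)) (xb (xa (xb T0.l4 T0.l4) T0.l4) (xa (xb T0.l4 T0.l4) (xb T0.l4 T0.l4)))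
  (TrL.c (I.pos (nat_lit 0) (nat_lit 0)) T2.l4
  (TrL.c (I.pos (nat_lit 0) (nat_lit 0)) T0.l3
  (TrL.c (I.pos (nat_lit 0) (nat_lit 0)) T2.l5
  (TrL.c (I.pos (nat_lit 0) (nat_lit 0)) T0.l5
  (TrL.c (I.pos (nat_lit 0) (nat_lit 0)) T2.l6
  TrL.n)))))) (by decide +kernel)
theorem bx0_44 : BoxOK sI cl4 cl4 cl13 t0 t2 b0_44 :=
  box_mk (TrL.c (I.pos (nat_lit 0) (nat_lit 0)) T2.l4
  (TrL.c (I.pos (nat_lit 0) (nat_lit 0)) T0.l3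
  TrL.n)) (by decide +kernel)
theorem sv0 : StarV sI cl4 cl4 cl13 t0 t2 t0 :=
  (bt_n (bt_n (bt_n (bt_n (bt_n (bt_b bx0_0) (bt_b bx0_1)) (bt_n (bt_b bx0_2) (bt_n (bt_b bx0_3) (bt_b bx0_4)))) (bt_n (bt_n (bt_b bx0_5) (bt_n (bt_b bx0_6) (bt_b bx0_7))) (bt_n (bt_b bx0_8) (bt_n (bt_b bx0_9) (bt_b bx0_10))))) (bt_n (bt_n (bt_n (bt_b bx0_11) (bt_b bx0_12)) (bt_n (bt_b bx0_13) (bt_n (bt_b bx0_14) (bt_b bx0_15)))) (bt_n (bt_n (bt_b bx0_16) (bt_n (bt_b bx0_17) (bt_b bx0_18))) (bt_n (bt_b bx0_19) (bt_n (bt_b bx0_20) (bt_b bx0_21)))))) (bt_n (bt_n (bt_n (bt_n (bt_b bx0_22) (bt_b bx0_23)) (bt_n (bt_b bx0_24) (bt_n (bt_b bx0_25) (bt_b bx0_26)))) (bt_n (bt_n (bt_b bx0_27) (bt_n (bt_b bx0_28) (bt_b bx0_29))) (bt_n (bt_b bx0_30) (bt_n (bt_b bx0_31) (bt_b bx0_32))))) (bt_n (bt_n (bt_n (bt_b bx0_33) (bt_n (bt_b bx0_34) (bt_b bx0_35))) (bt_n (bt_b bx0_36)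 (bt_n (bt_b bx0_37) (bt_b bx0_38)))) (bt_n (bt_n (bt_b bx0_39) (bt_n (bt_b bx0_40) (bt_b bx0_41))) (bt_n (bt_b bx0_42) (bt_n (bt_b bx0_43) (bt_b bx0_44)))))))
def S0 : StarD := StarD.mk cl4 cl4 cl13 0 2 t0
theorem bx1_0 : BoxOK sI cl4 cl13 cl4 t2 t0 b1_0 :=
  box_mk (TrL.c (I.pos (nat_lit 0) (nat_lit 0)) (xa (xb (xa (xb T2.l0 T2.l0) (xb T2.l0 T2.l0)) (xa (xb (xa T2.l0 T2.l0) (xa T2.l0 T2.l0)) (xb T2.l0 (xa T2.l0 T2.l0)))) (xb (xa T2.l0 (xb T2.l0 T2.l0)) (xa (xb T2.l0 (xa T2.l0 T2.l0)) (xb (xa T2.l0 T2.l0) (xa T2.l0 (xb T2.l0 T2.l0))))))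
  (TrL.c (I.pos (nat_lit 0) (nat_lit 0)) (xa (xb T0.l7 (xa T0.l7 T0.l7)) (xa (xb T0.l7 T0.l7) (xb T0.l7 T0.l7)))
  (TrL.c (I.pos (nat_lit 0) (nat_lit 0)) (xa T2.l8 T2.l8)
  (TrL.c (I.pos (nat_lit 0) (nat_lit 0)) (xa (xb (xa T0.l8 T0.l8) (xa T0.l8 T0.l8)) (xb (xa T0.l8 (xb T0.l8 T0.l8)) (xa T0.l8 (xb T0.l8 T0.l8))))
  (TrL.c (I.pos (nat_lit 0) (nat_lit 0)) (xa T2.l9 T2.l9)
  (TrL.c (I.pos (nat_lit 0) (nat_lit 0)) (xa (xb T0.l9 (xa T0.l9 T0.l9)) (xa (xb T0.l9 T0.l9) (xb T0.l9 T0.l9)))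
  TrL.n)))))) (by decide +kernel)
theorem bx1_1 : BoxOK sI cl4 cl13 cl4 t2 t0 b1_1 :=
  box_mk (TrL.c (I.pos (nat_lit 0) (nat_lit 0)) (xa (xb T2.l0 (xa T2.l0 T2.l0)) (xb T2.l0 T2.l0))
  (TrL.c (I.pos (nat_lit 0) (nat_lit 0)) (xa T0.l14 T0.l14)
  (TrL.c (I.pos (nat_lit 0) (nat_lit 0)) T2.l14
  (TrL.c (I.pos (nat_lit 0) (nat_lit 0)) (xa (xb T0.l15 T0.l15) (xb (xa T0.l15 T0.l15) T0.l15))
  (TrL.c (I.pos (nat_lit 0) (nat_lit 0)) T2.l15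
  (TrL.c (I.pos (nat_lit 0) (nat_lit 0)) (xa T0.l16 T0.l16)
  TrL.n)))))) (by decide +kernel)
theorem bx1_2 : BoxOK sI cl4 cl13 cl4 t2 t0 b1_2 :=
  box_mk (TrL.c (I.pos (nat_lit 0) (nat_lit 0)) (xa (xa (xa (xb T2.l16 T2.l16) T2.l16) (xa T2.l16 T2.l16)) (xa (xa T2.l16 T2.l16) (xa (xb T2.l16 T2.l16) (xb T2.l16 T2.l16))))
  (TrL.c (I.pos (nat_lit 0) (nat_lit 0)) (xa (xa T0.l17 T0.l17) (xa T0.l29 T0.l29))
  (TrL.c (I.pos (nat_lit 0) (nat_lit 0)) (xa T2.l17 T2.l17)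
  (TrL.c (I.pos (nat_lit 0) (nat_lit 0)) (xa T0.l18 (xa T0.l18 T0.l18))
  (TrL.c (I.pos (nat_lit 0) (nat_lit 0)) (xa T2.l18 T2.l18)
  (TrL.c (I.pos (nat_lit 0) (nat_lit 0)) (xa (xa T0.l19 T0.l19) (xa T0.l31 T0.l31))
  TrL.n)))))) (by decide +kernel)
theorem bx1_3 : BoxOK sI cl4 cl13 cl4 t2 t0 b1_3 :=
  box_mk (TrL.c (I.pos (nat_lit 0) (nat_lit 0)) (xa (xa (xb (xa T2.l19 T2.l19) T2.l28) T2.l28) (xa T2.l16 (xa T2.l16 T2.l16)))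
  (TrL.c (I.pos (nat_lit 0) (nat_lit 0)) (xa T0.l20 T0.l29)
  (TrL.c (I.pos (nat_lit 0) (nat_lit 0)) T2.l20
  (TrL.c (I.pos (nat_lit 0) (nat_lit 0)) (xa T0.l21 (xa T0.l21 T0.l30))
  (TrL.c (I.pos (nat_lit 0) (nat_lit 0)) T2.l21
  (TrL.c (I.pos (nat_lit 0) (nat_lit 0)) (xa T0.l22 T0.l31)
  TrL.n)))))) (by decide +kernel)
theorem bx1_4 : BoxOK sI cl4 cl13 cl4 t2 t0 b1_4 :=
  box_mk (TrL.c (I.pos (nat_lit 0) (nat_lit 0)) (xb (xa (xb (xa (xb T2.l22 (xb (xs T2.l22 (xa T2.l22 T2.l22)) T2.l22)) (xb T2.l22 T2.l22)) (xa T2.l22 T2.l22)) (xb (xa (xb T2.l22 T2.l22) (xb T2.l22 T2.l22)) (xa T2.l22 T2.l22))) (xa (xb (xa T2.l22 T2.l22) (xa T2.l22 T2.l22)) (xb (xa T2.l22 T2.l22) (xa T2.l22 T2.l22))))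
  (TrL.c (I.pos (nat_lit 0) (nat_lit 0)) (xb (xa T0.l23 T0.l23) (xa T0.l23 T0.l23))
  (TrL.c (I.pos (nat_lit 0) (nat_lit 0)) T2.l23
  (TrL.c (I.pos (nat_lit 0) (nat_lit 0)) (xb (xa T0.l24 (xb T0.l24 T0.l24)) (xa T0.l24 (xb T0.l24 T0.l24)))
  (TrL.c (I.pos (nat_lit 0) (nat_lit 0)) T2.l24
  (TrL.c (I.pos (nat_lit 0) (nat_lit 0)) (xb (xa T0.l25 T0.l25) (xa T0.l25 T0.l25))
  TrL.n)))))) (by decide +kernel)
theorem bx1_5 : BoxOK sI cl4 cl13 cl4 t2 t0 b1_5 :=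
  box_mk (TrL.c (I.pos (nat_lit 0) (nat_lit 0)) (xa (xb T2.l0 T2.l0) (xb T2.l0 T2.l0))
  (TrL.c (I.pos (nat_lit 0) (nat_lit 0)) (xb T0.l26 T0.l26)
  (TrL.c (I.pos (nat_lit 0) (nat_lit 0)) T2.l26
  (TrL.c (I.pos (nat_lit 0) (nat_lit 0)) (xa (xb T0.l27 T0.l27) (xb T0.l27 T0.l27))
  (TrL.c (I.pos (nat_lit 0) (nat_lit 0)) T2.l27
  (TrL.c (I.pos (nat_lit 0) (nat_lit 0)) (xb T0.l28 T0.l28)
  TrL.n)))))) (by decide +kernel)
theorem bx1_6 : BoxOK sI cl4 cl13 cl4 t2 t0 b1_6 :=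
  box_mk (TrL.c (I.pos (nat_lit 0) (nat_lit 0)) (xa (xa (xb (xa T2.l28 T2.l28) (xa (xb T2.l28 T2.l28) T2.l28)) (xb T2.l28 (xa T2.l28 T2.l28))) (xa (xb T2.l28 T2.l28) (xb (xa T2.l28 T2.l28) (xa T2.l28 (xb T2.l28 T2.l28)))))
  (TrL.c (I.pos (nat_lit 0) (nat_lit 0)) (xa (xa T0.l29 T0.l29) (xa T0.l29 T0.l29))
  (TrL.c (I.pos (nat_lit 0) (nat_lit 0)) (xa T2.l29 T2.l29)
  (TrL.c (I.pos (nat_lit 0) (nat_lit 0)) (xa (xa T0.l30 T0.l30) (xa T0.l30 T0.l30))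
  (TrL.c (I.pos (nat_lit 0) (nat_lit 0)) (xa T2.l30 T2.l30)
  (TrL.c (I.pos (nat_lit 0) (nat_lit 0)) (xa (xa T0.l31 T0.l31) (xa T0.l31 T0.l31))
  TrL.n)))))) (by decide +kernel)
theorem bx1_7 : BoxOK sI cl4 cl13 cl4 t2 t0 b1_7 :=
  box_mk (TrL.c (I.pos (nat_lit 0) (nat_lit 0)) (xa (xa (xb (xa T2.l31 T2.l31) (xa T2.l31 T2.l28)) T2.l28) T2.l16)
  (TrL.c (I.pos (nat_lit 0) (nat_lit 0)) (xa T0.l32 T0.l29)
  (TrL.c (I.pos (nat_lit 0) (nat_lit 0)) T2.l32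
  (TrL.c (I.pos (nat_lit 0) (nat_lit 0)) (xa T0.l33 T0.l30)
  (TrL.c (I.pos (nat_lit 0) (nat_lit 0)) T2.l33
  (TrL.c (I.pos (nat_lit 0) (nat_lit 0)) (xa T0.l34 T0.l31)
  TrL.n)))))) (by decide +kernel)
theorem bx1_8 : BoxOK sI cl4 cl13 cl4 t2 t0 b1_8 :=
  box_mk (TrL.c (I.pos (nat_lit 0) (nat_lit 0)) (xa T2.l0 (xb (xa T2.l0 T2.l0) (xa T2.l0 (xb T2.l0 T2.l0))))
  (TrL.c (I.pos (nat_lit 0) (nat_lit 0)) (xa T0.l7 T0.l7)
  (TrL.c (I.pos (nat_lit 0) (nat_lit 0)) T2.l8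
  (TrL.c (I.pos (nat_lit 0) (nat_lit 0)) (xa T0.l8 T0.l8)
  (TrL.c (I.pos (nat_lit 0) (nat_lit 0)) T2.l9
  (TrL.c (I.pos (nat_lit 0) (nat_lit 0)) (xa T0.l9 T0.l9)
  TrL.n)))))) (by decide +kernel)
theorem bx1_9 : BoxOK sI cl4 cl13 cl4 t2 t0 b1_9 :=
  box_mk (TrL.c (I.pos (nat_lit 0) (nat_lit 0)) T2.l0
  (TrL.c (I.pos (nat_lit 0) (nat_lit 0)) T0.l14
  (TrL.c (I.pos (nat_lit 0) (nat_lit 0)) T2.l14
  (TrL.c (I.pos (nat_lit 0) (nat_lit 0)) (xb T0.l15 T0.l15)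
  (TrL.c (I.pos (nat_lit 0) (nat_lit 0)) T2.l15
  (TrL.c (I.pos (nat_lit 0) (nat_lit 0)) T0.l16
  TrL.n)))))) (by decide +kernel)
theorem bx1_10 : BoxOK sI cl4 cl13 cl4 t2 t0 b1_10 :=
  box_mk (TrL.c (I.pos (nat_lit 0) (nat_lit 0)) (xa T2.l16 (xa T2.l16 T2.l16))
  (TrL.c (I.pos (nat_lit 0) (nat_lit 0)) (xa T0.l17 T0.l17)
  (TrL.c (I.pos (nat_lit 0) (nat_lit 0)) T2.l17
  (TrL.c (I.pos (nat_lit 0) (nat_lit 0)) (xa T0.l18 T0.l18)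
  (TrL.c (I.pos (nat_lit 0) (nat_lit 0)) T2.l18
  (TrL.c (I.pos (nat_lit 0) (nat_lit 0)) (xa T0.l19 T0.l19)
  TrL.n)))))) (by decide +kernel)
theorem bx1_11 : BoxOK sI cl4 cl13 cl4 t2 t0 b1_11 :=
  box_mk (TrL.c (I.pos (nat_lit 0) (nat_lit 0)) T2.l16
  (TrL.c (I.pos (nat_lit 0) (nat_lit 0)) T0.l17
  (TrL.c (I.pos (nat_lit 0) (nat_lit 0)) T2.l20
  (TrL.c (I.pos (nat_lit 0) (nat_lit 0)) T0.l18
  (TrL.c (I.pos (nat_lit 0) (nat_lit 0)) T2.l21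
  (TrL.c (I.pos (nat_lit 0) (nat_lit 0)) T0.l19
  TrL.n)))))) (by decide +kernel)
theorem bx1_12 : BoxOK sI cl4 cl13 cl4 t2 t0 b1_12 :=
  box_mk (TrL.c (I.pos (nat_lit 0) (nat_lit 0)) (xb (xa T2.l0 T2.l0) (xa T2.l0 T2.l0))
  (TrL.c (I.pos (nat_lit 0) (nat_lit 0)) (xb T0.l23 T0.l23)
  (TrL.c (I.pos (nat_lit 0) (nat_lit 0)) T2.l23
  (TrL.c (I.pos (nat_lit 0) (nat_lit 0)) (xa (xb T0.l24 T0.l24) (xb T0.l24 T0.l24))
  (TrL.c (I.pos (nat_lit 0) (nat_lit 0)) T2.l24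
  (TrL.c (I.pos (nat_lit 0) (nat_lit 0)) (xb T0.l25 T0.l25)
  TrL.n)))))) (by decide +kernel)
theorem bx1_13 : BoxOK sI cl4 cl13 cl4 t2 t0 b1_13 :=
  box_mk (TrL.c (I.pos (nat_lit 0) (nat_lit 0)) T2.l0
  (TrL.c (I.pos (nat_lit 0) (nat_lit 0)) T0.l26
  (TrL.c (I.pos (nat_lit 0) (nat_lit 0)) T2.l26
  (TrL.c (I.pos (nat_lit 0) (nat_lit 0)) T0.l15
  (TrL.c (I.pos (nat_lit 0) (nat_lit 0)) T2.l27
  (TrL.c (I.pos (nat_lit 0) (nat_lit 0)) T0.l28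
  TrL.n)))))) (by decide +kernel)
theorem bx1_14 : BoxOK sI cl4 cl13 cl4 t2 t0 b1_14 :=
  box_mk (TrL.c (I.pos (nat_lit 0) (nat_lit 0)) (xa (xa (xa (xb T2.l28 T2.l28) T2.l28) T2.l28) (xa T2.l28 (xa T2.l28 T2.l28)))
  (TrL.c (I.pos (nat_lit 0) (nat_lit 0)) (xa T0.l29 T0.l29)
  (TrL.c (I.pos (nat_lit 0) (nat_lit 0)) (xa T2.l29 T2.l29)
  (TrL.c (I.pos (nat_lit 0) (nat_lit 0)) (xa T0.l30 (xa T0.l30 T0.l30))
  (TrL.c (I.pos (nat_lit 0) (nat_lit 0)) (xa T2.l30 T2.l30)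
  (TrL.c (I.pos (nat_lit 0) (nat_lit 0)) (xa T0.l31 T0.l31)
  TrL.n)))))) (by decide +kernel)
theorem bx1_15 : BoxOK sI cl4 cl13 cl4 t2 t0 b1_15 :=
  box_mk (TrL.c (I.pos (nat_lit 0) (nat_lit 0)) T2.l16
  (TrL.c (I.pos (nat_lit 0) (nat_lit 0)) T0.l17
  (TrL.c (I.pos (nat_lit 0) (nat_lit 0)) T2.l32
  (TrL.c (I.pos (nat_lit 0) (nat_lit 0)) T0.l18
  (TrL.c (I.pos (nat_lit 0) (nat_lit 0)) T2.l33
  (TrL.c (I.pos (nat_lit 0) (nat_lit 0)) T0.l19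
  TrL.n)))))) (by decide +kernel)
theorem bx1_16 : BoxOK sI cl4 cl13 cl4 t2 t0 b1_16 :=
  box_mk (TrL.c (I.pos (nat_lit 0) (nat_lit 0)) (xa (xb (xa T2.l0 T2.l0) (xa (xb T2.l0 T2.l0) (xb T2.l0 T2.l0))) (xb (xa T2.l0 (xb T2.l0 T2.l0)) (xa (xb T2.l0 T2.l0) (xb T2.l0 (xa T2.l0 T2.l0)))))
  (TrL.c (I.pos (nat_lit 0) (nat_lit 0)) (xa T0.l7 (xb T0.l7 T0.l7))
  (TrL.c (I.pos (nat_lit 0) (nat_lit 0)) (xa T2.l8 T2.l3)
  (TrL.c (I.pos (nat_lit 0) (nat_lit 0)) (xa (xb T0.l8 T0.l8) (xb (xa T0.l8 T0.l8) (xa T0.l8 T0.l8)))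
  (TrL.c (I.pos (nat_lit 0) (nat_lit 0)) (xa T2.l9 T2.l1)
  (TrL.c (I.pos (nat_lit 0) (nat_lit 0)) (xa T0.l9 (xb T0.l9 T0.l9))
  TrL.n)))))) (by decide +kernel)
theorem bx1_17 : BoxOK sI cl4 cl13 cl4 t2 t0 b1_17 :=
  box_mk (TrL.c (I.pos (nat_lit 0) (nat_lit 0)) (xb T2.l0 T2.l0)
  (TrL.c (I.pos (nat_lit 0) (nat_lit 0)) (xa T0.l14 T0.l14)
  (TrL.c (I.pos (nat_lit 0) (nat_lit 0)) T2.l14
  (TrL.c (I.pos (nat_lit 0) (nat_lit 0)) (xb (xa T0.l15 T0.l15) (xa T0.l15 T0.l15))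
  (TrL.c (I.pos (nat_lit 0) (nat_lit 0)) T2.l15
  (TrL.c (I.pos (nat_lit 0) (nat_lit 0)) (xa T0.l16 T0.l16)
  TrL.n)))))) (by decide +kernel)
theorem bx1_18 : BoxOK sI cl4 cl13 cl4 t2 t0 b1_18 :=
  box_mk (TrL.c (I.pos (nat_lit 0) (nat_lit 0)) (xa T2.l16 (xa T2.l16 T2.l0))
  (TrL.c (I.pos (nat_lit 0) (nat_lit 0)) T0.l29
  (TrL.c (I.pos (nat_lit 0) (nat_lit 0)) T2.l17
  (TrL.c (I.pos (nat_lit 0) (nat_lit 0)) T0.l18
  (TrL.c (I.pos (nat_lit 0) (nat_lit 0)) T2.l18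
  (TrL.c (I.pos (nat_lit 0) (nat_lit 0)) T0.l31
  TrL.n)))))) (by decide +kernel)
theorem bx1_19 : BoxOK sI cl4 cl13 cl4 t2 t0 b1_19 :=
  box_mk (TrL.c (I.pos (nat_lit 0) (nat_lit 0)) T2.l16
  (TrL.c (I.pos (nat_lit 0) (nat_lit 0)) T0.l20
  (TrL.c (I.pos (nat_lit 0) (nat_lit 0)) T2.l20
  (TrL.c (I.pos (nat_lit 0) (nat_lit 0)) T0.l21
  (TrL.c (I.pos (nat_lit 0) (nat_lit 0)) T2.l21
  (TrL.c (I.pos (nat_lit 0) (nat_lit 0)) T0.l22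
  TrL.n)))))) (by decide +kernel)
theorem bx1_20 : BoxOK sI cl4 cl13 cl4 t2 t0 b1_20 :=
  box_mk (TrL.c (I.pos (nat_lit 0) (nat_lit 0)) (xb (xa T2.l22 T2.l22) (xa T2.l22 T2.l22))
  (TrL.c (I.pos (nat_lit 0) (nat_lit 0)) (xa T0.l23 T0.l23)
  (TrL.c (I.pos (nat_lit 0) (nat_lit 0)) T2.l23
  (TrL.c (I.pos (nat_lit 0) (nat_lit 0)) T0.l24
  (TrL.c (I.pos (nat_lit 0) (nat_lit 0)) T2.l24
  (TrL.c (I.pos (nat_lit 0) (nat_lit 0)) (xa T0.l25 T0.l25)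
  TrL.n)))))) (by decide +kernel)
theorem bx1_21 : BoxOK sI cl4 cl13 cl4 t2 t0 b1_21 :=
  box_mk (TrL.c (I.pos (nat_lit 0) (nat_lit 0)) (xa T2.l28 (xa T2.l28 (xa T2.l28 T2.l28)))
  (TrL.c (I.pos (nat_lit 0) (nat_lit 0)) (xa T0.l29 T0.l29)
  (TrL.c (I.pos (nat_lit 0) (nat_lit 0)) T2.l29
  (TrL.c (I.pos (nat_lit 0) (nat_lit 0)) (xa T0.l30 T0.l30)
  (TrL.c (I.pos (nat_lit 0) (nat_lit 0)) T2.l30
  (TrL.c (I.pos (nat_lit 0) (nat_lit 0)) (xa T0.l31 T0.l31)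
  TrL.n)))))) (by decide +kernel)
theorem bx1_22 : BoxOK sI cl4 cl13 cl4 t2 t0 b1_22 :=
  box_mk (TrL.c (I.pos (nat_lit 0) (nat_lit 0)) (xa (xa (xa T2.l34 T2.l19) T2.l16) T2.l16)
  (TrL.c (I.pos (nat_lit 0) (nat_lit 0)) (xa T0.l29 T0.l17)
  (TrL.c (I.pos (nat_lit 0) (nat_lit 0)) T2.l35
  (TrL.c (I.pos (nat_lit 0) (nat_lit 0)) (xa T0.l30 T0.l18)
  (TrL.c (I.pos (nat_lit 0) (nat_lit 0)) T2.l36
  (TrL.c (I.pos (nat_lit 0) (nat_lit 0)) (xa T0.l31 T0.l19)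
  TrL.n)))))) (by decide +kernel)
theorem bx1_23 : BoxOK sI cl4 cl13 cl4 t2 t0 b1_23 :=
  box_mk (TrL.c (I.pos (nat_lit 0) (nat_lit 0)) T2.l28
  (TrL.c (I.pos (nat_lit 0) (nat_lit 0)) T0.l17
  (TrL.c (I.pos (nat_lit 0) (nat_lit 0)) T2.l29
  (TrL.c (I.pos (nat_lit 0) (nat_lit 0)) T0.l18
  (TrL.c (I.pos (nat_lit 0) (nat_lit 0)) T2.l30
  (TrL.c (I.pos (nat_lit 0) (nat_lit 0)) T0.l19
  TrL.n)))))) (by decide +kernel)
theorem bx1_24 : BoxOK sI cl4 cl13 cl4 t2 t0 b1_24 :=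
  box_mk (TrL.c (I.pos (nat_lit 0) (nat_lit 0)) (xa T2.l0 T2.l0)
  (TrL.c (I.pos (nat_lit 0) (nat_lit 0)) T0.l7
  (TrL.c (I.pos (nat_lit 0) (nat_lit 0)) T2.l8
  (TrL.c (I.pos (nat_lit 0) (nat_lit 0)) T0.l8
  (TrL.c (I.pos (nat_lit 0) (nat_lit 0)) T2.l9
  (TrL.c (I.pos (nat_lit 0) (nat_lit 0)) T0.l9
  TrL.n)))))) (by decide +kernel)
theorem bx1_25 : BoxOK sI cl4 cl13 cl4 t2 t0 b1_25 :=
  box_mk (TrL.c (I.pos (nat_lit 0) (nat_lit 0)) T2.l0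
  (TrL.c (I.pos (nat_lit 0) (nat_lit 0)) T0.l14
  (TrL.c (I.pos (nat_lit 0) (nat_lit 0)) T2.l14
  (TrL.c (I.pos (nat_lit 0) (nat_lit 0)) T0.l15
  (TrL.c (I.pos (nat_lit 0) (nat_lit 0)) T2.l15
  (TrL.c (I.pos (nat_lit 0) (nat_lit 0)) T0.l16
  TrL.n)))))) (by decide +kernel)
theorem bx1_26 : BoxOK sI cl4 cl13 cl4 t2 t0 b1_26 :=
  box_mk (TrL.c (I.pos (nat_lit 0) (nat_lit 0)) T2.l16
  (TrL.c (I.pos (nat_lit 0) (nat_lit 0)) T0.l17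
  (TrL.c (I.pos (nat_lit 0) (nat_lit 0)) T2.l17
  (TrL.c (I.pos (nat_lit 0) (nat_lit 0)) T0.l18
  (TrL.c (I.pos (nat_lit 0) (nat_lit 0)) T2.l18
  (TrL.c (I.pos (nat_lit 0) (nat_lit 0)) T0.l19
  TrL.n)))))) (by decide +kernel)
theorem bx1_27 : BoxOK sI cl4 cl13 cl4 t2 t0 b1_27 :=
  box_mk (TrL.c (I.pos (nat_lit 0) (nat_lit 0)) T2.l16
  (TrL.c (I.pos (nat_lit 0) (nat_lit 0)) T0.l20
  (TrL.c (I.pos (nat_lit 0) (nat_lit 0)) T2.l20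
  (TrL.c (I.pos (nat_lit 0) (nat_lit 0)) T0.l21
  (TrL.c (I.pos (nat_lit 0) (nat_lit 0)) T2.l21
  (TrL.c (I.pos (nat_lit 0) (nat_lit 0)) T0.l22
  TrL.n)))))) (by decide +kernel)
theorem bx1_28 : BoxOK sI cl4 cl13 cl4 t2 t0 b1_28 :=
  box_mk (TrL.c (I.pos (nat_lit 0) (nat_lit 0)) T2.l22
  (TrL.c (I.pos (nat_lit 0) (nat_lit 0)) T0.l23
  (TrL.c (I.pos (nat_lit 0) (nat_lit 0)) T2.l23
  (TrL.c (I.pos (nat_lit 0) (nat_lit 0)) T0.l24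
  (TrL.c (I.pos (nat_lit 0) (nat_lit 0)) T2.l24
  (TrL.c (I.pos (nat_lit 0) (nat_lit 0)) T0.l25
  TrL.n)))))) (by decide +kernel)
theorem bx1_29 : BoxOK sI cl4 cl13 cl4 t2 t0 b1_29 :=
  box_mk (TrL.c (I.pos (nat_lit 0) (nat_lit 0)) T2.l0
  (TrL.c (I.pos (nat_lit 0) (nat_lit 0)) T0.l26
  (TrL.c (I.pos (nat_lit 0) (nat_lit 0)) T2.l26
  (TrL.c (I.pos (nat_lit 0) (nat_lit 0)) T0.l27
  (TrL.c (I.pos (nat_lit 0) (nat_lit 0)) T2.l27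
  (TrL.c (I.pos (nat_lit 0) (nat_lit 0)) T0.l28
  TrL.n)))))) (by decide +kernel)
theorem bx1_30 : BoxOK sI cl4 cl13 cl4 t2 t0 b1_30 :=
  box_mk (TrL.c (I.pos (nat_lit 0) (nat_lit 0)) (xa T2.l28 T2.l28)
  (TrL.c (I.pos (nat_lit 0) (nat_lit 0)) T0.l29
  (TrL.c (I.pos (nat_lit 0) (nat_lit 0)) T2.l29
  (TrL.c (I.pos (nat_lit 0) (nat_lit 0)) T0.l30
  (TrL.c (I.pos (nat_lit 0) (nat_lit 0)) T2.l30
  (TrL.c (I.pos (nat_lit 0) (nat_lit 0)) T0.l31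
  TrL.n)))))) (by decide +kernel)
theorem bx1_31 : BoxOK sI cl4 cl13 cl4 t2 t0 b1_31 :=
  box_mk (TrL.c (I.pos (nat_lit 0) (nat_lit 0)) T2.l0
  (TrL.c (I.pos (nat_lit 0) (nat_lit 0)) T0.l26
  (TrL.c (I.pos (nat_lit 0) (nat_lit 0)) T2.l26
  (TrL.c (I.pos (nat_lit 0) (nat_lit 0)) T0.l27
  (TrL.c (I.pos (nat_lit 0) (nat_lit 0)) T2.l27
  (TrL.c (I.pos (nat_lit 0) (nat_lit 0)) T0.l28
  TrL.n)))))) (by decide +kernel)
theorem bx1_32 : BoxOK sI cl4 cl13 cl4 t2 t0 b1_32 :=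
  box_mk (TrL.c (I.pos (nat_lit 0) (nat_lit 0)) T2.l0
  (TrL.c (I.pos (nat_lit 0) (nat_lit 0)) T0.l14
  (TrL.c (I.pos (nat_lit 0) (nat_lit 0)) T2.l14
  (TrL.c (I.pos (nat_lit 0) (nat_lit 0)) (xb T0.l15 T0.l15)
  (TrL.c (I.pos (nat_lit 0) (nat_lit 0)) T2.l15
  (TrL.c (I.pos (nat_lit 0) (nat_lit 0)) T0.l16
  TrL.n)))))) (by decide +kernel)
theorem bx1_33 : BoxOK sI cl4 cl13 cl4 t2 t0 b1_33 :=
  box_mk (TrL.c (I.pos (nat_lit 0) (nat_lit 0)) T2.l16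
  (TrL.c (I.pos (nat_lit 0) (nat_lit 0)) T0.l14
  (TrL.c (I.pos (nat_lit 0) (nat_lit 0)) T2.l17
  (TrL.c (I.pos (nat_lit 0) (nat_lit 0)) T0.l18
  (TrL.c (I.pos (nat_lit 0) (nat_lit 0)) T2.l18
  (TrL.c (I.pos (nat_lit 0) (nat_lit 0)) T0.l16
  TrL.n)))))) (by decide +kernel)
theorem bx1_34 : BoxOK sI cl4 cl13 cl4 t2 t0 b1_34 :=
  box_mk (TrL.c (I.pos (nat_lit 0) (nat_lit 0)) T2.l0
  (TrL.c (I.pos (nat_lit 0) (nat_lit 0)) T0.l35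
  (TrL.c (I.pos (nat_lit 0) (nat_lit 0)) T2.l37
  (TrL.c (I.pos (nat_lit 0) (nat_lit 0)) T0.l36
  (TrL.c (I.pos (nat_lit 0) (nat_lit 0)) T2.l38
  (TrL.c (I.pos (nat_lit 0) (nat_lit 0)) T0.l37
  TrL.n)))))) (by decide +kernel)
theorem bx1_35 : BoxOK sI cl4 cl13 cl4 t2 t0 b1_35 :=
  box_mk (TrL.c (I.pos (nat_lit 0) (nat_lit 0)) T2.l0
  (TrL.c (I.pos (nat_lit 0) (nat_lit 0)) T0.l14
  (TrL.c (I.pos (nat_lit 0) (nat_lit 0)) T2.l17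
  (TrL.c (I.pos (nat_lit 0) (nat_lit 0)) T0.l18
  (TrL.c (I.pos (nat_lit 0) (nat_lit 0)) T2.l18
  (TrL.c (I.pos (nat_lit 0) (nat_lit 0)) T0.l16
  TrL.n)))))) (by decide +kernel)
theorem bx1_36 : BoxOK sI cl4 cl13 cl4 t2 t0 b1_36 :=
  box_mk (TrL.c (I.pos (nat_lit 0) (nat_lit 0)) (xa T2.l28 T2.l16)
  (TrL.c (I.pos (nat_lit 0) (nat_lit 0)) (xa T0.l29 T0.l17)
  (TrL.c (I.pos (nat_lit 0) (nat_lit 0)) T2.l29
  (TrL.c (I.pos (nat_lit 0) (nat_lit 0)) (xa T0.l30 T0.l18)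
  (TrL.c (I.pos (nat_lit 0) (nat_lit 0)) T2.l30
  (TrL.c (I.pos (nat_lit 0) (nat_lit 0)) (xa T0.l31 T0.l19)
  TrL.n)))))) (by decide +kernel)
theorem bx1_37 : BoxOK sI cl4 cl13 cl4 t2 t0 b1_37 :=
  box_mk (TrL.c (I.pos (nat_lit 0) (nat_lit 0)) (xa T2.l0 (xa T2.l2 T2.l2))
  (TrL.c (I.pos (nat_lit 0) (nat_lit 0)) (xa T0.l7 T0.l7)
  (TrL.c (I.pos (nat_lit 0) (nat_lit 0)) T2.l8
  (TrL.c (I.pos (nat_lit 0) (nat_lit 0)) (xa (xa T0.l8 T0.l8) (xa T0.l8 T0.l8))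
  (TrL.c (I.pos (nat_lit 0) (nat_lit 0)) T2.l9
  (TrL.c (I.pos (nat_lit 0) (nat_lit 0)) (xa T0.l9 T0.l9)
  TrL.n)))))) (by decide +kernel)
theorem bx1_38 : BoxOK sI cl4 cl13 cl4 t2 t0 b1_38 :=
  box_mk (TrL.c (I.pos (nat_lit 0) (nat_lit 0)) (xa T2.l16 (xa T2.l16 T2.l0))
  (TrL.c (I.pos (nat_lit 0) (nat_lit 0)) T0.l17
  (TrL.c (I.pos (nat_lit 0) (nat_lit 0)) T2.l17
  (TrL.c (I.pos (nat_lit 0) (nat_lit 0)) T0.l18
  (TrL.c (I.pos (nat_lit 0) (nat_lit 0)) T2.l18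
  (TrL.c (I.pos (nat_lit 0) (nat_lit 0)) T0.l19
  TrL.n)))))) (by decide +kernel)
theorem bx1_39 : BoxOK sI cl4 cl13 cl4 t2 t0 b1_39 :=
  box_mk (TrL.c (I.pos (nat_lit 0) (nat_lit 0)) T2.l0
  (TrL.c (I.pos (nat_lit 0) (nat_lit 0)) T0.l23
  (TrL.c (I.pos (nat_lit 0) (nat_lit 0)) T2.l23
  (TrL.c (I.pos (nat_lit 0) (nat_lit 0)) (xa T0.l24 T0.l24)
  (TrL.c (I.pos (nat_lit 0) (nat_lit 0)) T2.l24
  (TrL.c (I.pos (nat_lit 0) (nat_lit 0)) T0.l25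
  TrL.n)))))) (by decide +kernel)
theorem bx1_40 : BoxOK sI cl4 cl13 cl4 t2 t0 b1_40 :=
  box_mk (TrL.c (I.pos (nat_lit 0) (nat_lit 0)) T2.l0
  (TrL.c (I.pos (nat_lit 0) (nat_lit 0)) T0.l26
  (TrL.c (I.pos (nat_lit 0) (nat_lit 0)) T2.l26
  (TrL.c (I.pos (nat_lit 0) (nat_lit 0)) T0.l15
  (TrL.c (I.pos (nat_lit 0) (nat_lit 0)) T2.l27
  (TrL.c (I.pos (nat_lit 0) (nat_lit 0)) T0.l28
  TrL.n)))))) (by decide +kernel)
theorem bx1_41 : BoxOK sI cl4 cl13 cl4 t2 t0 b1_41 :=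
  box_mk (TrL.c (I.pos (nat_lit 0) (nat_lit 0)) T2.l28
  (TrL.c (I.pos (nat_lit 0) (nat_lit 0)) T0.l29
  (TrL.c (I.pos (nat_lit 0) (nat_lit 0)) T2.l29
  (TrL.c (I.pos (nat_lit 0) (nat_lit 0)) T0.l30
  (TrL.c (I.pos (nat_lit 0) (nat_lit 0)) T2.l30
  (TrL.c (I.pos (nat_lit 0) (nat_lit 0)) T0.l31
  TrL.n)))))) (by decide +kernel)
theorem bx1_42 : BoxOK sI cl4 cl13 cl4 t2 t0 b1_42 :=
  box_mk (TrL.c (I.pos (nat_lit 0) (nat_lit 0)) T2.l16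
  (TrL.c (I.pos (nat_lit 0) (nat_lit 0)) T0.l17
  (TrL.c (I.pos (nat_lit 0) (nat_lit 0)) T2.l32
  (TrL.c (I.pos (nat_lit 0) (nat_lit 0)) T0.l33
  (TrL.c (I.pos (nat_lit 0) (nat_lit 0)) T2.l33
  (TrL.c (I.pos (nat_lit 0) (nat_lit 0)) T0.l19
  TrL.n)))))) (by decide +kernel)
theorem bx1_43 : BoxOK sI cl4 cl13 cl4 t2 t0 b1_43 :=
  box_mk (TrL.c (I.pos (nat_lit 0) (nat_lit 0)) T2.l16
  (TrL.c (I.pos (nat_lit 0) (nat_lit 0)) T0.l17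
  (TrL.c (I.pos (nat_lit 0) (nat_lit 0)) T2.l20
  (TrL.c (I.pos (nat_lit 0) (nat_lit 0)) T0.l18
  (TrL.c (I.pos (nat_lit 0) (nat_lit 0)) T2.l21
  (TrL.c (I.pos (nat_lit 0) (nat_lit 0)) T0.l19
  TrL.n)))))) (by decide +kernel)
theorem bx1_44 : BoxOK sI cl4 cl13 cl4 t2 t0 b1_44 :=
  box_mk (TrL.c (I.pos (nat_lit 0) (nat_lit 0)) T2.l0
  (TrL.c (I.pos (nat_lit 0) (nat_lit 0)) T0.l14
  (TrL.c (I.pos (nat_lit 0) (nat_lit 0)) T2.l14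
  (TrL.c (I.pos (nat_lit 0) (nat_lit 0)) T0.l15
  (TrL.c (I.pos (nat_lit 0) (nat_lit 0)) T2.l15
  (TrL.c (I.pos (nat_lit 0) (nat_lit 0)) T0.l16
  TrL.n)))))) (by decide +kernel)
theorem bx1_45 : BoxOK sI cl4 cl13 cl4 t2 t0 b1_45 :=
  box_mk (TrL.c (I.pos (nat_lit 0) (nat_lit 0)) T2.l28
  (TrL.c (I.pos (nat_lit 0) (nat_lit 0)) T0.l29
  (TrL.c (I.pos (nat_lit 0) (nat_lit 0)) T2.l29
  (TrL.c (I.pos (nat_lit 0) (nat_lit 0)) T0.l30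
  (TrL.c (I.pos (nat_lit 0) (nat_lit 0)) T2.l30
  (TrL.c (I.pos (nat_lit 0) (nat_lit 0)) T0.l31
  TrL.n)))))) (by decide +kernel)
theorem bx1_46 : BoxOK sI cl4 cl13 cl4 t2 t0 b1_46 :=
  box_mk (TrL.c (I.pos (nat_lit 0) (nat_lit 0)) T2.l16
  (TrL.c (I.pos (nat_lit 0) (nat_lit 0)) T0.l17
  (TrL.c (I.pos (nat_lit 0) (nat_lit 0)) T2.l32
  (TrL.c (I.pos (nat_lit 0) (nat_lit 0)) T0.l33
  (TrL.c (I.pos (nat_lit 0) (nat_lit 0)) T2.l33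
  (TrL.c (I.pos (nat_lit 0) (nat_lit 0)) T0.l19
  TrL.n)))))) (by decide +kernel)
theorem sv1 : StarV sI cl4 cl13 cl4 t2 t0 t1 :=
  (bt_n (bt_n (bt_n (bt_n (bt_n (bt_b bx1_0) (bt_b bx1_1)) (bt_n (bt_b bx1_2) (bt_n (bt_b bx1_3) (bt_b bx1_4)))) (bt_n (bt_n (bt_b bx1_5) (bt_n (bt_b bx1_6) (bt_b bx1_7))) (bt_n (bt_b bx1_8) (bt_n (bt_b bx1_9) (bt_b bx1_10))))) (bt_n (bt_n (bt_n (bt_b bx1_11) (bt_n (bt_b bx1_12) (bt_b bx1_13))) (bt_n (bt_b bx1_14) (bt_n (bt_b bx1_15) (bt_b bx1_16)))) (bt_n (bt_n (bt_b bx1_17) (bt_n (bt_b bx1_18) (bt_b bx1_19))) (bt_n (bt_b bx1_20) (bt_n (bt_b bx1_21) (bt_b bx1_22)))))) (bt_n (bt_n (bt_n (bt_n (bt_b bx1_23) (bt_n (bt_b bx1_24) (bt_b bx1_25))) (bt_n (bt_b bx1_26) (bt_n (bt_b bx1_27) (bt_b bx1_28)))) (bt_n (bt_n (bt_b bx1_29) (bt_n (bt_b bx1_30) (bt_b bx1_31))) (bt_n (bt_b bx1_32) (bt_n (bt_b bx1_33) (bt_b bx1_34)))))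 (bt_n (bt_n (bt_n (bt_b bx1_35) (bt_n (bt_b bx1_36) (bt_b bx1_37))) (bt_n (bt_b bx1_38) (bt_n (bt_b bx1_39) (bt_b bx1_40)))) (bt_n (bt_n (bt_b bx1_41) (bt_n (bt_b bx1_42) (bt_b bx1_43))) (bt_n (bt_b bx1_44) (bt_n (bt_b bx1_45) (bt_b bx1_46)))))))
def S1 : StarD := StarD.mk cl4 cl13 cl4 2 0 t1
theorem bx2_0 : BoxOK sI cl13 cl4 cl4 t1 t1 b2_0 :=
  box_mk (TrL.c (I.pos (nat_lit 0) (nat_lit 0)) (xa (xb (xa (xb T1.l0 T1.l0) (xb T1.l0 T1.l0)) (xa (xb (xa T1.l0 T1.l0) (xa T1.l0 T1.l0)) (xb T1.l0 (xa T1.l0 T1.l0)))) (xb (xa T1.l0 T1.l0) (xa (xb T1.l0 (xa T1.l0 T1.l0)) (xb T1.l0 (xa T1.l0 T1.l0)))))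
  (TrL.c (I.pos (nat_lit 0) (nat_lit 0)) (xa (xb T1.l1 T1.l1) (xb T1.l1 T1.l1))
  (TrL.c (I.pos (nat_lit 0) (nat_lit 134217730)) (xR T1.l6 (xR T1.l2 (xR T1.l2 (xa T1.l2 T1.l2))))
  (TrL.c (I.pos (nat_lit 0) (nat_lit 110514882)) (xR T1.l7 (xR T1.l3 (xR T1.l3 T1.l3)))
  (TrL.c (I.pos (nat_lit 0) (nat_lit 0)) (xa (xb T1.l4 (xk (xa T1.l4 T1.l4) (xa T1.l4 (xb T1.l4 T1.l4)))) (xb (xk T1.l4 (xa T1.l4 T1.l4)) (xk (xb (xa T1.l4 T1.l4) (xa (xk T1.l4 T1.l4) (xk (xa T1.l4 (xb T1.l4 T1.l4)) (xa T1.l4 (xb T1.l4 T1.l4))))) (xb (xa T1.l4 (xk T1.l4 T1.l4)) (xa (xk (xb T1.l4 T1.l4) (xa T1.l4 T1.l4)) (xk (xa (xb T1.l4 T1.l4) (xb T1.l4 (xk T1.l4 T1.l4))) (xb (xa T1.l4 T1.l4) (xa T1.l4 (xk (xs T1.l4 T1.l4) (xc T1.l4 T1.l4))))))))))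
  (TrL.c (I.pos (nat_lit 0) (nat_lit 0)) (xb T1.l5 T1.l5)
  (TrL.c (I.mix (nat_lit 8088324) (nat_lit 110514882)) (xR T1.l6 (xR T1.l6 (xR T1.l6 T1.l6)))
  (TrL.c (I.mix (nat_lit 8088324) (nat_lit 89478486)) (xR T1.l7 (xR T1.l7 T1.l7))
  TrL.n)))))))) (by decide +kernel)
theorem bx2_1 : BoxOK sI cl13 cl4 cl4 t1 t1 b2_1 :=
  box_mk (TrL.c (I.pos (nat_lit 0) (nat_lit 0)) (xb (xa (xb (xa (xb (xk (xa (xs T1.l8 T1.l8) T1.l8) (xs T1.l8 (xa (xc T1.l8 T1.l8) T1.l8))) (xk T1.l8 T1.l8)) (xk (xb T1.l8 T1.l8) (xb (xa T1.l8 T1.l8) T1.l8))) (xa T1.l8 T1.l8)) (xb (xa (xk T1.l8 T1.l8) T1.l8) T1.l8)) (xa T1.l8 T1.l8))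
  (TrL.c (I.pos (nat_lit 0) (nat_lit 0)) T1.l9
  (TrL.c (I.pos (nat_lit 0) (nat_lit 134217730)) (xR T1.l6 (xR T1.l10 (xR T1.l10 T1.l10)))
  (TrL.c (I.pos (nat_lit 0) (nat_lit 110514882)) (xR T1.l6 (xR T1.l11 T1.l22))
  (TrL.c (I.pos (nat_lit 0) (nat_lit 0)) T1.l12
  (TrL.c (I.pos (nat_lit 0) (nat_lit 0)) T1.l13
  (TrL.c (I.mix (nat_lit 8088324) (nat_lit 110514882)) (xR T1.l14 (xR T1.l14 T1.l14))
  (TrL.c (I.mix (nat_lit 8088324) (nat_lit 89478486)) T1.l14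
  TrL.n)))))))) (by decide +kernel)
theorem bx2_2 : BoxOK sI cl13 cl4 cl4 t1 t1 b2_2 :=
  box_mk (TrL.c (I.pos (nat_lit 0) (nat_lit 0)) (xa (xb T1.l16 (xa T1.l16 T1.l16)) (xb T1.l16 (xa T1.l16 T1.l16)))
  (TrL.c (I.pos (nat_lit 0) (nat_lit 0)) (xk T1.l17 T1.l17)
  (TrL.c (I.pos (nat_lit 0) (nat_lit 134217730)) (xR T1.l2 (xR T1.l2 (xR T1.l18 T1.l18)))
  (TrL.c (I.pos (nat_lit 0) (nat_lit 110514882)) (xR T1.l3 (xR T1.l3 (xR T1.l19 T1.l19)))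
  (TrL.c (I.pos (nat_lit 0) (nat_lit 0)) (xb T1.l20 (xk T1.l20 (xa T1.l20 T1.l20)))
  (TrL.c (I.pos (nat_lit 0) (nat_lit 0)) T1.l31
  (TrL.c (I.mix (nat_lit 8088324) (nat_lit 110514882)) (xR T1.l21 (xR T1.l21 (xR T1.l21 T1.l6)))
  (TrL.c (I.mix (nat_lit 8088324) (nat_lit 89478486)) (xR T1.l7 (xR T1.l3 T1.l7))
  TrL.n)))))))) (by decide +kernel)
theorem bx2_3 : BoxOK sI cl13 cl4 cl4 t1 t1 b2_3 :=
  box_mk (TrL.c (I.pos (nat_lit 0) (nat_lit 0)) T1.l32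
  (TrL.c (I.pos (nat_lit 0) (nat_lit 0)) T1.l10
  (TrL.c (I.mix (nat_lit 8088324) (nat_lit 110514882)) (xR T1.l22 (xR T1.l22 T1.l22))
  (TrL.c (I.mix (nat_lit 8088324) (nat_lit 89478486)) (xR T1.l6 T1.l14)
  TrL.n)))) (by decide +kernel)
theorem bx2_4 : BoxOK sI cl13 cl4 cl4 t1 t1 b2_4 :=
  box_mk (TrL.c (I.pos (nat_lit 0) (nat_lit 0)) T1.l24
  (TrL.c (I.pos (nat_lit 0) (nat_lit 0)) T1.l9
  (TrL.c (I.pos (nat_lit 0) (nat_lit 134217730)) (xR T1.l2 (xR T1.l2 T1.l2))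
  (TrL.c (I.pos (nat_lit 0) (nat_lit 110514882)) (xR T1.l3 (xR T1.l3 T1.l3))
  (TrL.c (I.pos (nat_lit 0) (nat_lit 0)) T1.l28
  (TrL.c (I.pos (nat_lit 0) (nat_lit 0)) T1.l29
  (TrL.c (I.mix (nat_lit 8088324) (nat_lit 110514882)) (xR T1.l6 (xR T1.l30 T1.l30))
  (TrL.c (I.mix (nat_lit 8088324) (nat_lit 89478486)) T1.l7
  TrL.n)))))))) (by decide +kernel)
theorem bx2_5 : BoxOK sI cl13 cl4 cl4 t1 t1 b2_5 :=
  box_mk (TrL.c (I.pos (nat_lit 0) (nat_lit 0)) T1.l0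
  (TrL.c (I.pos (nat_lit 0) (nat_lit 0)) T1.l17
  (TrL.c (I.pos (nat_lit 0) (nat_lit 134217730)) (xR T1.l2 (xR T1.l2 T1.l2))
  (TrL.c (I.pos (nat_lit 0) (nat_lit 110514882)) (xR T1.l3 (xR T1.l3 T1.l3))
  (TrL.c (I.pos (nat_lit 0) (nat_lit 0)) T1.l20
  (TrL.c (I.pos (nat_lit 0) (nat_lit 0)) T1.l31
  (TrL.c (I.mix (nat_lit 8088324) (nat_lit 110514882)) (xR T1.l21 (xR T1.l21 T1.l21))
  (TrL.c (I.mix (nat_lit 8088324) (nat_lit 89478486)) T1.l7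
  TrL.n)))))))) (by decide +kernel)
theorem bx2_6 : BoxOK sI cl13 cl4 cl4 t1 t1 b2_6 :=
  box_mk (TrL.c (I.pos (nat_lit 0) (nat_lit 0)) T1.l9
  (TrL.c (I.pos (nat_lit 0) (nat_lit 0)) T1.l2
  (TrL.c (I.mix (nat_lit 8088324) (nat_lit 110514882)) (xR T1.l22 (xR T1.l22 T1.l3))
  (TrL.c (I.mix (nat_lit 8088324) (nat_lit 89478486)) (xR T1.l6 T1.l2)
  TrL.n)))) (by decide +kernel)
theorem bx2_7 : BoxOK sI cl13 cl4 cl4 t1 t1 b2_7 :=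
  box_mk (TrL.c (I.pos (nat_lit 0) (nat_lit 0)) T1.l24
  (TrL.c (I.pos (nat_lit 0) (nat_lit 0)) T1.l25
  (TrL.c (I.pos (nat_lit 0) (nat_lit 134217730)) (xR T1.l2 (xR T1.l2 T1.l2))
  (TrL.c (I.pos (nat_lit 0) (nat_lit 110514882)) (xR T1.l3 T1.l14)
  (TrL.c (I.pos (nat_lit 0) (nat_lit 0)) T1.l28
  (TrL.c (I.pos (nat_lit 0) (nat_lit 0)) T1.l29
  (TrL.c (I.mix (nat_lit 8088324) (nat_lit 110514882)) (xR T1.l6 (xR T1.l30 T1.l30))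
  (TrL.c (I.mix (nat_lit 8088324) (nat_lit 89478486)) T1.l7
  TrL.n)))))))) (by decide +kernel)
theorem bx2_8 : BoxOK sI cl13 cl4 cl4 t1 t1 b2_8 :=
  box_mk (TrL.c (I.pos (nat_lit 0) (nat_lit 0)) T1.l34
  (TrL.c (I.pos (nat_lit 0) (nat_lit 0)) T1.l38
  (TrL.c (I.mix (nat_lit 8088324) (nat_lit 110514882)) (xR T1.l22 (xR T1.l36 T1.l14))
  (TrL.c (I.mix (nat_lit 8088324) (nat_lit 89478486)) (xR T1.l6 T1.l14)
  TrL.n)))) (by decide +kernel)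
theorem bx2_9 : BoxOK sI cl13 cl4 cl4 t1 t1 b2_9 :=
  box_mk (TrL.c (I.pos (nat_lit 0) (nat_lit 0)) T1.l37
  (TrL.c (I.pos (nat_lit 0) (nat_lit 0)) T1.l34
  (TrL.c (I.pos (nat_lit 0) (nat_lit 134217730)) (xR T1.l6 (xR T1.l10 (xR T1.l38 T1.l38)))
  (TrL.c (I.pos (nat_lit 0) (nat_lit 110514882)) (xR T1.l6 (xR T1.l11 T1.l14))
  (TrL.c (I.pos (nat_lit 0) (nat_lit 0)) T1.l39
  (TrL.c (I.pos (nat_lit 0) (nat_lit 0)) T1.l40
  (TrL.c (I.mix (nat_lit 8088324) (nat_lit 110514882)) (xR T1.l6 T1.l14)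
  (TrL.c (I.mix (nat_lit 8088324) (nat_lit 89478486)) T1.l14
  TrL.n)))))))) (by decide +kernel)
theorem bx2_10 : BoxOK sI cl13 cl4 cl4 t1 t1 b2_10 :=
  box_mk (TrL.c (I.pos (nat_lit 0) (nat_lit 0)) T1.l8
  (TrL.c (I.pos (nat_lit 0) (nat_lit 0)) T1.l9
  (TrL.c (I.pos (nat_lit 0) (nat_lit 134217730)) (xR T1.l2 (xR T1.l10 T1.l2))
  (TrL.c (I.pos (nat_lit 0) (nat_lit 110514882)) (xR T1.l3 T1.l14)
  (TrL.c (I.pos (nat_lit 0) (nat_lit 0)) T1.l12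
  (TrL.c (I.pos (nat_lit 0) (nat_lit 0)) T1.l13
  (TrL.c (I.mix (nat_lit 8088324) (nat_lit 110514882)) (xR T1.l14 (xR T1.l14 T1.l14))
  (TrL.c (I.mix (nat_lit 8088324) (nat_lit 89478486)) T1.l7
  TrL.n)))))))) (by decide +kernel)
theorem bx2_11 : BoxOK sI cl13 cl4 cl4 t1 t1 b2_11 :=
  box_mk (TrL.c (I.pos (nat_lit 0) (nat_lit 0)) T1.l8
  (TrL.c (I.pos (nat_lit 0) (nat_lit 0)) T1.l9
  (TrL.c (I.pos (nat_lit 0) (nat_lit 134217730)) (xR T1.l2 (xR T1.l10 T1.l2))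
  (TrL.c (I.pos (nat_lit 0) (nat_lit 110514882)) (xR T1.l3 (xR T1.l11 T1.l14))
  (TrL.c (I.pos (nat_lit 0) (nat_lit 0)) T1.l12
  (TrL.c (I.pos (nat_lit 0) (nat_lit 0)) T1.l13
  (TrL.c (I.mix (nat_lit 8088324) (nat_lit 110514882)) (xR T1.l14 (xR T1.l14 T1.l14))
  (TrL.c (I.mix (nat_lit 8088324) (nat_lit 89478486)) T1.l7
  TrL.n)))))))) (by decide +kernel)
theorem bx2_12 : BoxOK sI cl13 cl4 cl4 t1 t1 b2_12 :=
  box_mk (TrL.c (I.pos (nat_lit 0) (nat_lit 0)) (xb T1.l0 T1.l16)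
  (TrL.c (I.pos (nat_lit 0) (nat_lit 0)) T1.l17
  (TrL.c (I.pos (nat_lit 0) (nat_lit 134217730)) (xR T1.l2 (xR T1.l2 T1.l2))
  (TrL.c (I.pos (nat_lit 0) (nat_lit 110514882)) (xR T1.l3 (xR T1.l3 T1.l3))
  (TrL.c (I.pos (nat_lit 0) (nat_lit 0)) T1.l20
  (TrL.c (I.pos (nat_lit 0) (nat_lit 0)) T1.l31
  (TrL.c (I.mix (nat_lit 8088324) (nat_lit 110514882)) (xR T1.l21 (xR T1.l21 T1.l21))
  (TrL.c (I.mix (nat_lit 8088324) (nat_lit 89478486)) T1.l14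
  TrL.n)))))))) (by decide +kernel)
theorem bx2_13 : BoxOK sI cl13 cl4 cl4 t1 t1 b2_13 :=
  box_mk (TrL.c (I.pos (nat_lit 0) (nat_lit 0)) T1.l9
  (TrL.c (I.pos (nat_lit 0) (nat_lit 0)) T1.l2
  (TrL.c (I.mix (nat_lit 8088324) (nat_lit 110514882)) (xR T1.l22 (xR T1.l22 T1.l14))
  (TrL.c (I.mix (nat_lit 8088324) (nat_lit 89478486)) (xR T1.l6 T1.l2)
  TrL.n)))) (by decide +kernel)
theorem bx2_14 : BoxOK sI cl13 cl4 cl4 t1 t1 b2_14 :=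
  box_mk (TrL.c (I.pos (nat_lit 0) (nat_lit 0)) T1.l34
  (TrL.c (I.pos (nat_lit 0) (nat_lit 0)) T1.l35
  (TrL.c (I.mix (nat_lit 8088324) (nat_lit 110514882)) (xR T1.l6 T1.l14)
  (TrL.c (I.mix (nat_lit 8088324) (nat_lit 89478486)) T1.l22
  TrL.n)))) (by decide +kernel)
theorem bx2_15 : BoxOK sI cl13 cl4 cl4 t1 t1 b2_15 :=
  box_mk (TrL.c (I.pos (nat_lit 0) (nat_lit 0)) T1.l37
  (TrL.c (I.pos (nat_lit 0) (nat_lit 0)) T1.l34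
  (TrL.c (I.pos (nat_lit 0) (nat_lit 134217730)) (xR T1.l2 (xR T1.l6 T1.l38))
  (TrL.c (I.pos (nat_lit 0) (nat_lit 110514882)) T1.l14
  (TrL.c (I.pos (nat_lit 0) (nat_lit 0)) T1.l39
  (TrL.c (I.pos (nat_lit 0) (nat_lit 0)) T1.l40
  (TrL.c (I.mix (nat_lit 8088324) (nat_lit 110514882)) T1.l14
  (TrL.c (I.mix (nat_lit 8088324) (nat_lit 89478486)) T1.l7
  TrL.n)))))))) (by decide +kernel)
theorem bx2_16 : BoxOK sI cl13 cl4 cl4 t1 t1 b2_16 :=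
  box_mk (TrL.c (I.pos (nat_lit 0) (nat_lit 0)) (xa (xb T1.l0 T1.l0) (xb (xa T1.l0 T1.l0) (xa T1.l0 T1.l0)))
  (TrL.c (I.pos (nat_lit 0) (nat_lit 0)) (xa T1.l1 (xk T1.l1 T1.l1))
  (TrL.c (I.pos (nat_lit 0) (nat_lit 134217730)) (xR (xR T1.l2 T1.l2) (xR T1.l2 T1.l6))
  (TrL.c (I.pos (nat_lit 0) (nat_lit 110514882)) (xR T1.l14 (xR (xR T1.l3 T1.l3) (xR T1.l3 T1.l3)))
  (TrL.c (I.pos (nat_lit 0) (nat_lit 0)) (xa (xb (xk T1.l4 T1.l4) T1.l4) (xb (xk (xa T1.l4 T1.l4) (xa T1.l4 T1.l4)) (xk (xa T1.l4 T1.l4) (xa T1.l4 T1.l4))))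
  (TrL.c (I.pos (nat_lit 0) (nat_lit 0)) T1.l5
  (TrL.c (I.mix (nat_lit 8088324) (nat_lit 110514882)) (xR T1.l6 (xR T1.l6 (xR T1.l6 T1.l6)))
  (TrL.c (I.mix (nat_lit 8088324) (nat_lit 89478486)) (xR T1.l7 (xR T1.l7 T1.l7))
  TrL.n)))))))) (by decide +kernel)
theorem bx2_17 : BoxOK sI cl13 cl4 cl4 t1 t1 b2_17 :=
  box_mk (TrL.c (I.pos (nat_lit 0) (nat_lit 0)) T1.l34
  (TrL.c (I.pos (nat_lit 0) (nat_lit 0)) T1.l35
  (TrL.c (I.mix (nat_lit 8088324) (nat_lit 110514882)) (xR T1.l6 T1.l14)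
  (TrL.c (I.mix (nat_lit 8088324) (nat_lit 89478486)) T1.l22
  TrL.n)))) (by decide +kernel)
theorem bx2_18 : BoxOK sI cl13 cl4 cl4 t1 t1 b2_18 :=
  box_mk (TrL.c (I.pos (nat_lit 0) (nat_lit 0)) T1.l37
  (TrL.c (I.pos (nat_lit 0) (nat_lit 0)) T1.l34
  (TrL.c (I.pos (nat_lit 0) (nat_lit 134217730)) (xR T1.l6 (xR T1.l10 T1.l38))
  (TrL.c (I.pos (nat_lit 0) (nat_lit 110514882)) T1.l14
  (TrL.c (I.pos (nat_lit 0) (nat_lit 0)) T1.l39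
  (TrL.c (I.pos (nat_lit 0) (nat_lit 0)) T1.l40
  (TrL.c (I.mix (nat_lit 8088324) (nat_lit 110514882)) (xR T1.l6 T1.l14)
  (TrL.c (I.mix (nat_lit 8088324) (nat_lit 89478486)) T1.l14
  TrL.n)))))))) (by decide +kernel)
theorem bx2_19 : BoxOK sI cl13 cl4 cl4 t1 t1 b2_19 :=
  box_mk (TrL.c (I.pos (nat_lit 0) (nat_lit 0)) (xa T1.l0 (xb T1.l0 T1.l0))
  (TrL.c (I.pos (nat_lit 0) (nat_lit 0)) (xa T1.l1 T1.l1)
  (TrL.c (I.pos (nat_lit 0) (nat_lit 134217730)) (xR T1.l6 (xR T1.l2 T1.l2))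
  (TrL.c (I.pos (nat_lit 0) (nat_lit 110514882)) (xR T1.l14 (xR T1.l3 (xR T1.l3 T1.l3)))
  (TrL.c (I.pos (nat_lit 0) (nat_lit 0)) (xa (xk T1.l4 T1.l4) (xk (xb T1.l0 T1.l4) (xb T1.l0 T1.l4)))
  (TrL.c (I.pos (nat_lit 0) (nat_lit 0)) T1.l5
  (TrL.c (I.mix (nat_lit 8088324) (nat_lit 110514882)) (xR T1.l6 (xR T1.l6 T1.l6))
  (TrL.c (I.mix (nat_lit 8088324) (nat_lit 89478486)) (xR T1.l7 T1.l3)
  TrL.n)))))))) (by decide +kernel)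
theorem bx2_20 : BoxOK sI cl13 cl4 cl4 t1 t1 b2_20 :=
  box_mk (TrL.c (I.pos (nat_lit 0) (nat_lit 0)) T1.l34
  (TrL.c (I.pos (nat_lit 0) (nat_lit 0)) T1.l38
  (TrL.c (I.mix (nat_lit 8088324) (nat_lit 110514882)) (xR T1.l6 T1.l14)
  (TrL.c (I.mix (nat_lit 8088324) (nat_lit 89478486)) T1.l22
  TrL.n)))) (by decide +kernel)
theorem bx2_21 : BoxOK sI cl13 cl4 cl4 t1 t1 b2_21 :=
  box_mk (TrL.c (I.pos (nat_lit 0) (nat_lit 0)) T1.l37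
  (TrL.c (I.pos (nat_lit 0) (nat_lit 0)) T1.l34
  (TrL.c (I.pos (nat_lit 0) (nat_lit 134217730)) (xR T1.l2 (xR T1.l10 T1.l38))
  (TrL.c (I.pos (nat_lit 0) (nat_lit 110514882)) T1.l14
  (TrL.c (I.pos (nat_lit 0) (nat_lit 0)) T1.l39
  (TrL.c (I.pos (nat_lit 0) (nat_lit 0)) T1.l40
  (TrL.c (I.mix (nat_lit 8088324) (nat_lit 110514882)) (xR T1.l6 T1.l14)
  (TrL.c (I.mix (nat_lit 8088324) (nat_lit 89478486)) T1.l14
  TrL.n)))))))) (by decide +kernel)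
theorem bx2_22 : BoxOK sI cl13 cl4 cl4 t1 t1 b2_22 :=
  box_mk (TrL.c (I.pos (nat_lit 0) (nat_lit 0)) (xa (xb (xb T1.l0 T1.l0) (xa T1.l0 T1.l0)) (xb (xb T1.l0 T1.l0) (xa T1.l0 T1.l0)))
  (TrL.c (I.pos (nat_lit 0) (nat_lit 0)) (xk T1.l1 T1.l1)
  (TrL.c (I.pos (nat_lit 0) (nat_lit 134217730)) (xR T1.l6 (xR T1.l2 (xR T1.l2 T1.l2)))
  (TrL.c (I.pos (nat_lit 0) (nat_lit 110514882)) (xR T1.l3 (xR T1.l3 T1.l3))
  (TrL.c (I.pos (nat_lit 0) (nat_lit 0)) (xk (xb T1.l4 (xa T1.l4 (xb T1.l4 T1.l4))) (xa (xb T1.l4 T1.l4) (xb T1.l20 (xb T1.l4 (xa T1.l4 T1.l4)))))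
  (TrL.c (I.pos (nat_lit 0) (nat_lit 0)) T1.l5
  (TrL.c (I.mix (nat_lit 8088324) (nat_lit 110514882)) (xR T1.l6 (xR T1.l6 T1.l6))
  (TrL.c (I.mix (nat_lit 8088324) (nat_lit 89478486)) (xR T1.l7 T1.l7)
  TrL.n)))))))) (by decide +kernel)
theorem bx2_23 : BoxOK sI cl13 cl4 cl4 t1 t1 b2_23 :=
  box_mk (TrL.c (I.pos (nat_lit 0) (nat_lit 0)) T1.l34
  (TrL.c (I.pos (nat_lit 0) (nat_lit 0)) T1.l10
  (TrL.c (I.mix (nat_lit 8088324) (nat_lit 110514882)) (xR T1.l6 T1.l14)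
  (TrL.c (I.mix (nat_lit 8088324) (nat_lit 89478486)) (xR T1.l6 T1.l14)
  TrL.n)))) (by decide +kernel)
theorem bx2_24 : BoxOK sI cl13 cl4 cl4 t1 t1 b2_24 :=
  box_mk (TrL.c (I.pos (nat_lit 0) (nat_lit 0)) T1.l37
  (TrL.c (I.pos (nat_lit 0) (nat_lit 0)) T1.l34
  (TrL.c (I.pos (nat_lit 0) (nat_lit 134217730)) (xR T1.l6 (xR T1.l10 (xR T1.l38 T1.l38)))
  (TrL.c (I.pos (nat_lit 0) (nat_lit 110514882)) T1.l14
  (TrL.c (I.pos (nat_lit 0) (nat_lit 0)) T1.l39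
  (TrL.c (I.pos (nat_lit 0) (nat_lit 0)) T1.l40
  (TrL.c (I.mix (nat_lit 8088324) (nat_lit 110514882)) T1.l14
  (TrL.c (I.mix (nat_lit 8088324) (nat_lit 89478486)) T1.l14
  TrL.n)))))))) (by decide +kernel)
theorem bx2_25 : BoxOK sI cl13 cl4 cl4 t1 t1 b2_25 :=
  box_mk (TrL.c (I.pos (nat_lit 0) (nat_lit 0)) T1.l0
  (TrL.c (I.pos (nat_lit 0) (nat_lit 0)) T1.l1
  (TrL.c (I.pos (nat_lit 0) (nat_lit 134217730)) (xR T1.l6 (xR T1.l2 T1.l2))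
  (TrL.c (I.pos (nat_lit 0) (nat_lit 110514882)) (xR T1.l7 (xR T1.l3 T1.l3))
  (TrL.c (I.pos (nat_lit 0) (nat_lit 0)) T1.l4
  (TrL.c (I.pos (nat_lit 0) (nat_lit 0)) T1.l5
  (TrL.c (I.mix (nat_lit 8088324) (nat_lit 110514882)) (xR T1.l6 (xR T1.l6 T1.l6))
  (TrL.c (I.mix (nat_lit 8088324) (nat_lit 89478486)) T1.l7
  TrL.n)))))))) (by decide +kernel)
theorem bx2_26 : BoxOK sI cl13 cl4 cl4 t1 t1 b2_26 :=
  box_mk (TrL.c (I.pos (nat_lit 0) (nat_lit 0)) T1.l34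
  (TrL.c (I.pos (nat_lit 0) (nat_lit 0)) T1.l35
  (TrL.c (I.mix (nat_lit 8088324) (nat_lit 110514882)) (xR T1.l6 T1.l14)
  (TrL.c (I.mix (nat_lit 8088324) (nat_lit 89478486)) T1.l22
  TrL.n)))) (by decide +kernel)
theorem bx2_27 : BoxOK sI cl13 cl4 cl4 t1 t1 b2_27 :=
  box_mk (TrL.c (I.pos (nat_lit 0) (nat_lit 0)) T1.l37
  (TrL.c (I.pos (nat_lit 0) (nat_lit 0)) T1.l34
  (TrL.c (I.pos (nat_lit 0) (nat_lit 134217730)) (xR T1.l2 (xR T1.l2 T1.l38))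
  (TrL.c (I.pos (nat_lit 0) (nat_lit 110514882)) T1.l14
  (TrL.c (I.pos (nat_lit 0) (nat_lit 0)) T1.l39
  (TrL.c (I.pos (nat_lit 0) (nat_lit 0)) T1.l40
  (TrL.c (I.mix (nat_lit 8088324) (nat_lit 110514882)) T1.l14
  (TrL.c (I.mix (nat_lit 8088324) (nat_lit 89478486)) T1.l7
  TrL.n)))))))) (by decide +kernel)
theorem bx2_28 : BoxOK sI cl13 cl4 cl4 t1 t1 b2_28 :=
  box_mk (TrL.c (I.pos (nat_lit 0) (nat_lit 0)) (xa (xb T1.l0 (xa T1.l0 T1.l0)) (xb (xa T1.l0 T1.l0) (xa T1.l0 (xb T1.l0 T1.l0))))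
  (TrL.c (I.pos (nat_lit 0) (nat_lit 0)) (xa (xb T1.l1 T1.l1) (xb T1.l5 (xk T1.l1 T1.l1)))
  (TrL.c (I.pos (nat_lit 0) (nat_lit 134217730)) (xR (xR T1.l2 T1.l2) (xR T1.l2 T1.l6))
  (TrL.c (I.pos (nat_lit 0) (nat_lit 110514882)) (xR T1.l14 (xR (xR T1.l3 T1.l3) (xR T1.l3 T1.l3)))
  (TrL.c (I.pos (nat_lit 0) (nat_lit 0)) (xa (xb (xk T1.l4 T1.l4) T1.l4) (xb (xk (xa T1.l4 (xb T1.l4 T1.l4)) (xa T1.l4 (xb T1.l4 T1.l4))) (xk (xa T1.l4 (xb T1.l4 T1.l4)) (xa T1.l4 (xb T1.l4 T1.l4)))))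
  (TrL.c (I.pos (nat_lit 0) (nat_lit 0)) (xk T1.l5 T1.l5)
  (TrL.c (I.mix (nat_lit 8088324) (nat_lit 110514882)) (xR T1.l6 (xR T1.l6 (xR T1.l6 T1.l6)))
  (TrL.c (I.mix (nat_lit 8088324) (nat_lit 89478486)) (xR T1.l7 (xR T1.l7 T1.l7))
  TrL.n)))))))) (by decide +kernel)
theorem bx2_29 : BoxOK sI cl13 cl4 cl4 t1 t1 b2_29 :=
  box_mk (TrL.c (I.pos (nat_lit 0) (nat_lit 0)) T1.l34
  (TrL.c (I.pos (nat_lit 0) (nat_lit 0)) T1.l38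
  (TrL.c (I.mix (nat_lit 8088324) (nat_lit 110514882)) (xR T1.l6 T1.l14)
  (TrL.c (I.mix (nat_lit 8088324) (nat_lit 89478486)) T1.l22
  TrL.n)))) (by decide +kernel)
theorem bx2_30 : BoxOK sI cl13 cl4 cl4 t1 t1 b2_30 :=
  box_mk (TrL.c (I.pos (nat_lit 0) (nat_lit 0)) (xb T1.l37 T1.l37)
  (TrL.c (I.pos (nat_lit 0) (nat_lit 0)) T1.l34
  (TrL.c (I.pos (nat_lit 0) (nat_lit 134217730)) (xR T1.l6 (xR T1.l10 (xR T1.l38 T1.l38)))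
  (TrL.c (I.pos (nat_lit 0) (nat_lit 110514882)) T1.l14
  (TrL.c (I.pos (nat_lit 0) (nat_lit 0)) T1.l39
  (TrL.c (I.pos (nat_lit 0) (nat_lit 0)) T1.l40
  (TrL.c (I.mix (nat_lit 8088324) (nat_lit 110514882)) (xR T1.l6 T1.l14)
  (TrL.c (I.mix (nat_lit 8088324) (nat_lit 89478486)) T1.l14
  TrL.n)))))))) (by decide +kernel)
theorem bx2_31 : BoxOK sI cl13 cl4 cl4 t1 t1 b2_31 :=
  box_mk (TrL.c (I.pos (nat_lit 0) (nat_lit 0)) T1.l0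
  (TrL.c (I.pos (nat_lit 0) (nat_lit 0)) T1.l1
  (TrL.c (I.pos (nat_lit 0) (nat_lit 134217730)) (xR T1.l6 (xR T1.l2 T1.l2))
  (TrL.c (I.pos (nat_lit 0) (nat_lit 110514882)) (xR T1.l14 (xR T1.l3 T1.l3))
  (TrL.c (I.pos (nat_lit 0) (nat_lit 0)) T1.l0
  (TrL.c (I.pos (nat_lit 0) (nat_lit 0)) T1.l5
  (TrL.c (I.mix (nat_lit 8088324) (nat_lit 110514882)) (xR T1.l6 (xR T1.l6 T1.l6))
  (TrL.c (I.mix (nat_lit 8088324) (nat_lit 89478486)) (xR T1.l7 T1.l3)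
  TrL.n)))))))) (by decide +kernel)
theorem bx2_32 : BoxOK sI cl13 cl4 cl4 t1 t1 b2_32 :=
  box_mk (TrL.c (I.pos (nat_lit 0) (nat_lit 0)) T1.l34
  (TrL.c (I.pos (nat_lit 0) (nat_lit 0)) T1.l35
  (TrL.c (I.mix (nat_lit 8088324) (nat_lit 110514882)) (xR T1.l6 T1.l14)
  (TrL.c (I.mix (nat_lit 8088324) (nat_lit 89478486)) T1.l6
  TrL.n)))) (by decide +kernel)
theorem bx2_33 : BoxOK sI cl13 cl4 cl4 t1 t1 b2_33 :=
  box_mk (TrL.c (I.pos (nat_lit 0) (nat_lit 0)) T1.l37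
  (TrL.c (I.pos (nat_lit 0) (nat_lit 0)) T1.l34
  (TrL.c (I.pos (nat_lit 0) (nat_lit 134217730)) (xR T1.l2 (xR T1.l10 T1.l38))
  (TrL.c (I.pos (nat_lit 0) (nat_lit 110514882)) T1.l14
  (TrL.c (I.pos (nat_lit 0) (nat_lit 0)) T1.l39
  (TrL.c (I.pos (nat_lit 0) (nat_lit 0)) T1.l40
  (TrL.c (I.mix (nat_lit 8088324) (nat_lit 110514882)) (xR T1.l6 T1.l14)
  (TrL.c (I.mix (nat_lit 8088324) (nat_lit 89478486)) T1.l14
  TrL.n)))))))) (by decide +kernel)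
theorem bx2_34 : BoxOK sI cl13 cl4 cl4 t1 t1 b2_34 :=
  box_mk (TrL.c (I.pos (nat_lit 0) (nat_lit 0)) T1.l0
  (TrL.c (I.pos (nat_lit 0) (nat_lit 0)) T1.l1
  (TrL.c (I.pos (nat_lit 0) (nat_lit 134217730)) (xR T1.l6 T1.l2)
  (TrL.c (I.pos (nat_lit 0) (nat_lit 110514882)) (xR T1.l14 (xR T1.l3 T1.l3))
  (TrL.c (I.pos (nat_lit 0) (nat_lit 0)) T1.l0
  (TrL.c (I.pos (nat_lit 0) (nat_lit 0)) T1.l5
  (TrL.c (I.mix (nat_lit 8088324) (nat_lit 110514882)) (xR T1.l6 (xR T1.l6 T1.l6))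
  (TrL.c (I.mix (nat_lit 8088324) (nat_lit 89478486)) (xR T1.l7 T1.l3)
  TrL.n)))))))) (by decide +kernel)
theorem bx2_35 : BoxOK sI cl13 cl4 cl4 t1 t1 b2_35 :=
  box_mk (TrL.c (I.pos (nat_lit 0) (nat_lit 0)) T1.l34
  (TrL.c (I.pos (nat_lit 0) (nat_lit 0)) T1.l35
  (TrL.c (I.mix (nat_lit 8088324) (nat_lit 110514882)) (xR T1.l6 T1.l14)
  (TrL.c (I.mix (nat_lit 8088324) (nat_lit 89478486)) T1.l22
  TrL.n)))) (by decide +kernel)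
theorem bx2_36 : BoxOK sI cl13 cl4 cl4 t1 t1 b2_36 :=
  box_mk (TrL.c (I.pos (nat_lit 0) (nat_lit 0)) T1.l37
  (TrL.c (I.pos (nat_lit 0) (nat_lit 0)) T1.l34
  (TrL.c (I.pos (nat_lit 0) (nat_lit 134217730)) (xR T1.l6 (xR T1.l10 T1.l38))
  (TrL.c (I.pos (nat_lit 0) (nat_lit 110514882)) T1.l14
  (TrL.c (I.pos (nat_lit 0) (nat_lit 0)) T1.l39
  (TrL.c (I.pos (nat_lit 0) (nat_lit 0)) T1.l40
  (TrL.c (I.mix (nat_lit 8088324) (nat_lit 110514882)) (xR T1.l6 T1.l14)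
  (TrL.c (I.mix (nat_lit 8088324) (nat_lit 89478486)) T1.l14
  TrL.n)))))))) (by decide +kernel)
theorem bx2_37 : BoxOK sI cl13 cl4 cl4 t1 t1 b2_37 :=
  box_mk (TrL.c (I.pos (nat_lit 0) (nat_lit 0)) T1.l34
  (TrL.c (I.pos (nat_lit 0) (nat_lit 0)) T1.l35
  (TrL.c (I.mix (nat_lit 8088324) (nat_lit 110514882)) (xR T1.l6 T1.l36)
  (TrL.c (I.mix (nat_lit 8088324) (nat_lit 89478486)) T1.l22
  TrL.n)))) (by decide +kernel)
theorem bx2_38 : BoxOK sI cl13 cl4 cl4 t1 t1 b2_38 :=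
  box_mk (TrL.c (I.pos (nat_lit 0) (nat_lit 0)) T1.l37
  (TrL.c (I.pos (nat_lit 0) (nat_lit 0)) T1.l34
  (TrL.c (I.pos (nat_lit 0) (nat_lit 134217730)) (xR T1.l2 (xR T1.l2 T1.l38))
  (TrL.c (I.pos (nat_lit 0) (nat_lit 110514882)) T1.l14
  (TrL.c (I.pos (nat_lit 0) (nat_lit 0)) T1.l39
  (TrL.c (I.pos (nat_lit 0) (nat_lit 0)) T1.l40
  (TrL.c (I.mix (nat_lit 8088324) (nat_lit 110514882)) T1.l14
  (TrL.c (I.mix (nat_lit 8088324) (nat_lit 89478486)) T1.l7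
  TrL.n)))))))) (by decide +kernel)
theorem bx2_39 : BoxOK sI cl13 cl4 cl4 t1 t1 b2_39 :=
  box_mk (TrL.c (I.pos (nat_lit 0) (nat_lit 0)) T1.l34
  (TrL.c (I.pos (nat_lit 0) (nat_lit 0)) T1.l35
  (TrL.c (I.mix (nat_lit 8088324) (nat_lit 110514882)) (xR T1.l6 T1.l36)
  (TrL.c (I.mix (nat_lit 8088324) (nat_lit 89478486)) T1.l22
  TrL.n)))) (by decide +kernel)
theorem bx2_40 : BoxOK sI cl13 cl4 cl4 t1 t1 b2_40 :=
  box_mk (TrL.c (I.pos (nat_lit 0) (nat_lit 0)) T1.l37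
  (TrL.c (I.pos (nat_lit 0) (nat_lit 0)) T1.l34
  (TrL.c (I.pos (nat_lit 0) (nat_lit 134217730)) (xR T1.l2 (xR T1.l2 T1.l38))
  (TrL.c (I.pos (nat_lit 0) (nat_lit 110514882)) T1.l14
  (TrL.c (I.pos (nat_lit 0) (nat_lit 0)) T1.l39
  (TrL.c (I.pos (nat_lit 0) (nat_lit 0)) T1.l40
  (TrL.c (I.mix (nat_lit 8088324) (nat_lit 110514882)) T1.l14
  (TrL.c (I.mix (nat_lit 8088324) (nat_lit 89478486)) T1.l6
  TrL.n)))))))) (by decide +kernel)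
theorem bx2_41 : BoxOK sI cl13 cl4 cl4 t1 t1 b2_41 :=
  box_mk (TrL.c (I.pos (nat_lit 0) (nat_lit 0)) (xb T1.l8 T1.l8)
  (TrL.c (I.pos (nat_lit 0) (nat_lit 0)) T1.l9
  (TrL.c (I.pos (nat_lit 0) (nat_lit 134217730)) (xR T1.l2 (xR T1.l10 (xR T1.l10 T1.l10)))
  (TrL.c (I.pos (nat_lit 0) (nat_lit 110514882)) (xR T1.l3 (xR T1.l11 T1.l22))
  (TrL.c (I.pos (nat_lit 0) (nat_lit 0)) T1.l12
  (TrL.c (I.pos (nat_lit 0) (nat_lit 0)) T1.l13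
  (TrL.c (I.mix (nat_lit 8088324) (nat_lit 110514882)) (xR T1.l14 (xR T1.l14 T1.l14))
  (TrL.c (I.mix (nat_lit 8088324) (nat_lit 89478486)) T1.l14
  TrL.n)))))))) (by decide +kernel)
theorem bx2_42 : BoxOK sI cl13 cl4 cl4 t1 t1 b2_42 :=
  box_mk (TrL.c (I.pos (nat_lit 0) (nat_lit 0)) (xb T1.l16 (xa T1.l16 T1.l16))
  (TrL.c (I.pos (nat_lit 0) (nat_lit 0)) T1.l17
  (TrL.c (I.pos (nat_lit 0) (nat_lit 134217730)) (xR T1.l2 (xR T1.l2 T1.l2))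
  (TrL.c (I.pos (nat_lit 0) (nat_lit 110514882)) (xR T1.l3 (xR T1.l3 T1.l3))
  (TrL.c (I.pos (nat_lit 0) (nat_lit 0)) T1.l20
  (TrL.c (I.pos (nat_lit 0) (nat_lit 0)) T1.l31
  (TrL.c (I.mix (nat_lit 8088324) (nat_lit 110514882)) (xR T1.l21 (xR T1.l21 T1.l21))
  (TrL.c (I.mix (nat_lit 8088324) (nat_lit 89478486)) (xR T1.l7 T1.l3)
  TrL.n)))))))) (by decide +kernel)
theorem bx2_43 : BoxOK sI cl13 cl4 cl4 t1 t1 b2_43 :=
  box_mk (TrL.c (I.pos (nat_lit 0) (nat_lit 0)) T1.l32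
  (TrL.c (I.pos (nat_lit 0) (nat_lit 0)) T1.l10
  (TrL.c (I.mix (nat_lit 8088324) (nat_lit 110514882)) (xR T1.l22 (xR T1.l22 T1.l22))
  (TrL.c (I.mix (nat_lit 8088324) (nat_lit 89478486)) (xR T1.l6 T1.l6)
  TrL.n)))) (by decide +kernel)
theorem bx2_44 : BoxOK sI cl13 cl4 cl4 t1 t1 b2_44 :=
  box_mk (TrL.c (I.pos (nat_lit 0) (nat_lit 0)) T1.l8
  (TrL.c (I.pos (nat_lit 0) (nat_lit 0)) T1.l9
  (TrL.c (I.pos (nat_lit 0) (nat_lit 134217730)) (xR T1.l2 (xR T1.l2 T1.l2))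
  (TrL.c (I.pos (nat_lit 0) (nat_lit 110514882)) (xR T1.l3 (xR T1.l3 T1.l3))
  (TrL.c (I.pos (nat_lit 0) (nat_lit 0)) T1.l12
  (TrL.c (I.pos (nat_lit 0) (nat_lit 0)) T1.l13
  (TrL.c (I.mix (nat_lit 8088324) (nat_lit 110514882)) (xR T1.l6 (xR T1.l30 T1.l14))
  (TrL.c (I.mix (nat_lit 8088324) (nat_lit 89478486)) T1.l7
  TrL.n)))))))) (by decide +kernel)
theorem sv2 : StarV sI cl13 cl4 cl4 t1 t1 t2 :=
  (bt_n (bt_n (bt_n (bt_n (bt_n (bt_b bx2_0) (bt_b bx2_1)) (bt_n (bt_b bx2_2) (bt_n (bt_b bx2_3) (bt_b bx2_4)))) (bt_n (bt_n (bt_b bx2_5) (bt_n (bt_b bx2_6) (bt_b bx2_7))) (bt_n (bt_b bx2_8) (bt_n (bt_b bx2_9) (bt_b bx2_10))))) (bt_n (bt_n (bt_n (bt_b bx2_11) (bt_b bx2_12)) (bt_n (bt_b bx2_13) (bt_n (bt_b bx2_14) (bt_b bx2_15)))) (bt_n (bt_n (bt_b bx2_16) (bt_n (bt_b bx2_17) (bt_b bx2_18))) (bt_n (bt_b bx2_19) (bt_n (bt_b bx2_20) (bt_b bx2_21))))))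 (bt_n (bt_n (bt_n (bt_n (bt_b bx2_22) (bt_b bx2_23)) (bt_n (bt_b bx2_24) (bt_n (bt_b bx2_25) (bt_b bx2_26)))) (bt_n (bt_n (bt_b bx2_27) (bt_n (bt_b bx2_28) (bt_b bx2_29))) (bt_n (bt_b bx2_30) (bt_n (bt_b bx2_31) (bt_b bx2_32))))) (bt_n (bt_n (bt_n (bt_b bx2_33) (bt_n (bt_b bx2_34) (bt_b bx2_35))) (bt_n (bt_b bx2_36) (bt_n (bt_b bx2_37) (bt_b bx2_38)))) (bt_n (bt_n (bt_b bx2_39) (bt_n (bt_b bx2_40) (bt_b bx2_41))) (bt_n (bt_b bx2_42) (bt_n (bt_b bx2_43) (bt_b bx2_44)))))))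
def S2 : StarD := StarD.mk cl13 cl4 cl4 1 1 t2
def G : List StarD := [S0, S1, S2]
theorem so0 : StarOK sI G S0 :=
  star_mk (by decide) (by decide) rfl rfl rfl rfl rfl rfl (rfl : _ = t0) (rfl : _ = t2)
  (st_mk (Pth.l (Pth.l (Pth.l (Pth.l (Pth.l Pth.z))))) (nat_lit 393596578) (nat_lit 397170182) (by decide +kernel))
  (st_mk (Pth.l (Pth.l (Pth.l (Pth.l (Pth.l Pth.z))))) (nat_lit 434775608) (nat_lit 439222537) (by decide +kernel))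
  (st_mk (Pth.l (Pth.l (Pth.l (Pth.l (Pth.l Pth.z))))) (nat_lit 483233873) (nat_lit 488860319) (by decide +kernel)) sv0
theorem so1 : StarOK sI G S1 :=
  star_mk (by decide) (by decide) rfl rfl rfl rfl rfl rfl (rfl : _ = t2) (rfl : _ = t0)
  (st_mk (Pth.l (Pth.l (Pth.l (Pth.l (Pth.l Pth.z))))) (nat_lit 100046132) (nat_lit 119922815) (by decide +kernel))
  (st_mk (Pth.l (Pth.l (Pth.l (Pth.l (Pth.l Pth.z))))) (nat_lit 138804754) (nat_lit 159518063) (by decide +kernel))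
  (st_mk (Pth.l (Pth.l (Pth.l (Pth.l (Pth.l Pth.z))))) (nat_lit 183474807) (nat_lit 209102260) (by decide +kernel)) sv1
theorem so2 : StarOK sI G S2 :=
  star_mk (by decide) (by decide) rfl rfl rfl rfl rfl rfl (rfl : _ = t1) (rfl : _ = t1)
  (st_mk (Pth.l (Pth.l (Pth.l (Pth.l (Pth.l Pth.z))))) (nat_lit 364798899) (nat_lit 368893600) (by decide +kernel))
  (st_mk (Pth.l (Pth.l (Pth.l (Pth.l (Pth.l Pth.z))))) (nat_lit 399695508) (nat_lit 404509384) (by decide +kernel))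
  (st_mk (Pth.l (Pth.l (Pth.l (Pth.l (Pth.l Pth.z))))) (nat_lit 439960827) (nat_lit 445688846) (by decide +kernel)) sv2
theorem ok : GroupOK (nat_lit 209321984) (nat_lit 238944256) G := grp_mk (allS_c so0 (allS_c so1 (allS_c so2 allS_n)))
theorem cov : GCov G cl4 cl4 cl13 := cov_mk
  ⟨0, by decide, rfl, rfl, rfl⟩ ⟨1, by decide, rfl, rfl, rfl⟩ ⟨0, by decide, rfl, rfl, rfl⟩ ⟨1, by decide, rfl, rfl, rfl⟩ ⟨2, by decide, rfl, rfl, rfl⟩ ⟨2, by decide, rfl, rfl, rfl⟩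
end Q116_3

namespace Q116_4
def sI : I := I.pos (nat_lit 238878720) (nat_lit 268435456)
def b0_0 : Bx := Bx.mk (St.mk (I.pos (nat_lit 149045248) (nat_lit 220512256)) (I.mix (nat_lit 3293184) (nat_lit 103710720)) (I.mix (nat_lit 59604992) (nat_lit 40747008)) (I.pos (nat_lit 391577600) (nat_lit 508542976)) (I.mix (nat_lit 179060736) (nat_lit 142721024)) (I.mix (nat_lit 121061376) (nat_lit 133955584)) (I.mix (nat_lit 196984832) (nat_lit 177717248)))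
  false (nat_lit 112606247)
def b0_1 : Bx := Bx.mk (St.mk (I.mix (nat_lit 41549824) (nat_lit 13975552)) (I.mix (nat_lit 18153472) (nat_lit 77873152)) (I.neg (nat_lit 76562432) (nat_lit 108560384)) (I.pos (nat_lit 249839616) (nat_lit 282116096)) (I.mix (nat_lit 73596928) (nat_lit 173047808)) (I.mix (nat_lit 117800960) (nat_lit 83689472)) (I.mix (nat_lit 61931520) (nat_lit 66142208)))
  true (nat_lit 60022522)
def b0_2 : Bx := Bx.mk (St.mk (I.mix (nat_lit 12517376) (nat_lit 41500672)) (I.neg (nat_lit 24952832) (nat_lit 76611584)) (I.neg (nat_lit 76496896) (nat_lit 108560384)) (I.pos (nat_lit 252280832) (nat_lit 282034176)) (I.mix (nat_lit 173047808) (nat_lit 68419584)) (I.mix (nat_lit 83689472) (nat_lit 117800960)) (I.mix (nat_lit 61931520) (nat_lit 66142208)))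
  false (nat_lit 78731237)
def b0_3 : Bx := Bx.mk (St.mk (I.mix (nat_lit 27869184) (nat_lit 6717440)) (I.mix (nat_lit 16646144) (nat_lit 20283392)) (I.neg (nat_lit 78135296) (nat_lit 92422144)) (I.pos (nat_lit 251904000) (nat_lit 264716288)) (I.mix (nat_lit 71204864) (nat_lit 52871168)) (I.mix (nat_lit 56066048) (nat_lit 50266112)) (I.mix (nat_lit 3686400) (nat_lit 28377088)))
  true (nat_lit 0)
def b0_4 : Bx := Bx.mk (St.mk (I.pos (nat_lit 200015872) (nat_lit 251887616)) (I.mix (nat_lit 21397504) (nat_lit 16957440)) (I.neg (nat_lit 122732544) (nat_lit 187973632)) (I.pos (nat_lit 417366016) (nat_lit 512655360)) (I.mix (nat_lit 142917632) (nat_lit 73809920)) (I.mix (nat_lit 101810176) (nat_lit 89931776)) (I.mix (nat_lit 128679936) (nat_lit 187760640)))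
  false (nat_lit 65572422)
def b0_5 : Bx := Bx.mk (St.mk (I.mix (nat_lit 7536640) (nat_lit 25165824)) (I.mix (nat_lit 15417344) (nat_lit 16302080)) (I.neg (nat_lit 78430208) (nat_lit 90112000)) (I.pos (nat_lit 252723200) (nat_lit 264028160)) (I.mix (nat_lit 55689216) (nat_lit 71057408)) (I.mix (nat_lit 49545216) (nat_lit 57638912)) (I.mix (nat_lit 3522560) (nat_lit 28459008)))
  false (nat_lit 29333373)
def b0_6 : Bx := Bx.mk (St.mk (I.pos (nat_lit 2834432) (nat_lit 119078912)) (I.neg (nat_lit 5226496) (nat_lit 76972032)) (I.neg (nat_lit 43827200) (nat_lit 112590848)) (I.pos (nat_lit 253657088) (nat_lit 327647232)) (I.mix (nat_lit 135577600) (nat_lit 60784640)) (I.mix (nat_lit 63225856) (nat_lit 92454912)) (I.mix (nat_lit 74153984) (nat_lit 81772544)))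
  false (nat_lit 74496359)
def b0_7 : Bx := Bx.mk (St.mk (I.pos (nat_lit 87130112) (nat_lit 193478656)) (I.mix (nat_lit 37437440) (nat_lit 82526208)) (I.mix (nat_lit 82051072) (nat_lit 30932992)) (I.pos (nat_lit 292356096) (nat_lit 451084288)) (I.mix (nat_lit 162906112) (nat_lit 138166272)) (I.mix (nat_lit 134103040) (nat_lit 106856448)) (I.mix (nat_lit 147636224) (nat_lit 125796352)))
  false (nat_lit 96145627)
def b0_8 : Bx := Bx.mk (St.mk (I.neg (nat_lit 2834432) (nat_lit 119078912)) (I.pos (nat_lit 5226496) (nat_lit 76972032)) (I.neg (nat_lit 43827200) (nat_lit 112590848)) (I.pos (nat_lit 253640704) (nat_lit 327663616)) (I.mix (nat_lit 60784640) (nat_lit 135593984)) (I.mix (nat_lit 92405760) (nat_lit 63225856)) (I.mix (nat_lit 74186752) (nat_lit 81788928)))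
  true (nat_lit 74497379)
def b0_9 : Bx := Bx.mk (St.mk (I.pos (nat_lit 166428672) (nat_lit 245153792)) (I.mix (nat_lit 18300928) (nat_lit 90963968)) (I.mix (nat_lit 179290112) (nat_lit 9142272)) (I.pos (nat_lit 404078592) (nat_lit 529629184)) (I.mix (nat_lit 158121984) (nat_lit 155811840)) (I.mix (nat_lit 137478144) (nat_lit 128778240)) (I.mix (nat_lit 237240320) (nat_lit 160694272)))
  false (nat_lit 111806409)
def b0_10 : Bx := Bx.mk (St.mk (I.mix (nat_lit 13778944) (nat_lit 35160064)) (I.mix (nat_lit 58605568) (nat_lit 13025280)) (I.neg (nat_lit 77414400) (nat_lit 102776832)) (I.pos (nat_lit 250134528) (nat_lit 272105472)) (I.mix (nat_lit 125222912) (nat_lit 73023488)) (I.mix (nat_lit 68501504) (nat_lit 95551488)) (I.mix (nat_lit 33275904) (nat_lit 46186496)))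
  false (nat_lit 67887129)
def t0 : BTr := (BTr.n (BTr.n (BTr.n (BTr.b b0_0) (BTr.b b0_1)) (BTr.n (BTr.b b0_2) (BTr.n (BTr.b b0_3) (BTr.b b0_4)))) (BTr.n (BTr.n (BTr.b b0_5) (BTr.n (BTr.b b0_6) (BTr.b b0_7))) (BTr.n (BTr.b b0_8) (BTr.n (BTr.b b0_9) (BTr.b b0_10)))))
namespace T0
def l0 : Tr := Tr.L (Pth.l (Pth.l (Pth.l Pth.z)))
def l1 : Tr := Tr.L (Pth.l (Pth.l (Pth.r Pth.z)))
def l2 : Tr := Tr.L (Pth.l (Pth.r (Pth.l Pth.z)))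
def l3 : Tr := Tr.L (Pth.l (Pth.r (Pth.r (Pth.l Pth.z))))
def l4 : Tr := Tr.L (Pth.l (Pth.r (Pth.r (Pth.r Pth.z))))
def l5 : Tr := Tr.L (Pth.r (Pth.l (Pth.l Pth.z)))
def l6 : Tr := Tr.L (Pth.r (Pth.l (Pth.r (Pth.l Pth.z))))
def l7 : Tr := Tr.L (Pth.r (Pth.l (Pth.r (Pth.r Pth.z))))
def l8 : Tr := Tr.L (Pth.r (Pth.r (Pth.l Pth.z)))
def l9 : Tr := Tr.L (Pth.r (Pth.r (Pth.r (Pth.l Pth.z))))
def l10 : Tr := Tr.L (Pth.r (Pth.r (Pth.r (Pth.r Pth.z))))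
end T0
def b1_0 : Bx := Bx.mk (St.mk (I.pos (nat_lit 158580736) (nat_lit 227737600)) (I.mix (nat_lit 1540096) (nat_lit 43778048)) (I.mix (nat_lit 2621440) (nat_lit 80805888)) (I.pos (nat_lit 96780288) (nat_lit 222543872)) (I.mix (nat_lit 99221504) (nat_lit 56999936)) (I.mix (nat_lit 61390848) (nat_lit 58621952)) (I.mix (nat_lit 94437376) (nat_lit 79151104)))
  false (nat_lit 19008473)
def b1_1 : Bx := Bx.mk (St.mk (I.pos (nat_lit 115408896) (nat_lit 169213952)) (I.neg (nat_lit 2424832) (nat_lit 45318144)) (I.neg (nat_lit 147456) (nat_lit 43679744)) (I.pos (nat_lit 67158016) (nat_lit 122748928)) (I.mix (nat_lit 76136448) (nat_lit 52346880)) (I.mix (nat_lit 50151424) (nat_lit 57163776)) (I.mix (nat_lit 46137344) (nat_lit 60293120)))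
  false (nat_lit 54901101)
def b1_2 : Bx := Bx.mk (St.mk (I.mix (nat_lit 8617984) (nat_lit 136216576)) (I.mix (nat_lit 5488640) (nat_lit 21348352)) (I.mix (nat_lit 6668288) (nat_lit 20316160)) (I.mix (nat_lit 3031040) (nat_lit 85196800)) (I.mix (nat_lit 44089344) (nat_lit 41828352)) (I.mix (nat_lit 36929536) (nat_lit 29933568)) (I.mix (nat_lit 32440320) (nat_lit 25329664)))
  false (nat_lit 0)
def b1_3 : Bx := Bx.mk (St.mk (I.mix (nat_lit 7847936) (nat_lit 111788032)) (I.mix (nat_lit 23363584) (nat_lit 2834432)) (I.mix (nat_lit 15695872) (nat_lit 1933312)) (I.mix (nat_lit 2359296) (nat_lit 62111744)) (I.mix (nat_lit 32440320) (nat_lit 30556160)) (I.mix (nat_lit 21954560) (nat_lit 27475968)) (I.mix (nat_lit 15286272) (nat_lit 19759104)))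
  false (nat_lit 0)
def b1_4 : Bx := Bx.mk (St.mk (I.pos (nat_lit 161202176) (nat_lit 200392704)) (I.mix (nat_lit 17514496) (nat_lit 33210368)) (I.mix (nat_lit 1867776) (nat_lit 64208896)) (I.pos (nat_lit 108347392) (nat_lit 177176576)) (I.mix (nat_lit 111919104) (nat_lit 35143680)) (I.mix (nat_lit 96944128) (nat_lit 49364992)) (I.mix (nat_lit 113934336) (nat_lit 50757632)))
  false (nat_lit 0)
def b1_5 : Bx := Bx.mk (St.mk (I.pos (nat_lit 111509504) (nat_lit 151044096)) (I.mix (nat_lit 40206336) (nat_lit 10092544)) (I.mix (nat_lit 41025536) (nat_lit 8749056)) (I.pos (nat_lit 53133312) (nat_lit 104022016)) (I.mix (nat_lit 83410944) (nat_lit 55558144)) (I.mix (nat_lit 43024384) (nat_lit 68075520)) (I.mix (nat_lit 38223872) (nat_lit 60342272)))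
  false (nat_lit 46972836)
def b1_6 : Bx := Bx.mk (St.mk (I.mix (nat_lit 12845056) (nat_lit 131383296)) (I.mix (nat_lit 14663680) (nat_lit 25133056)) (I.mix (nat_lit 9830400) (nat_lit 24150016)) (I.mix (nat_lit 2932736) (nat_lit 81657856)) (I.mix (nat_lit 51855360) (nat_lit 37502976)) (I.mix (nat_lit 41517056) (nat_lit 26722304)) (I.mix (nat_lit 30408704) (nat_lit 19283968)))
  false (nat_lit 0)
def b1_7 : Bx := Bx.mk (St.mk (I.mix (nat_lit 12353536) (nat_lit 110329856)) (I.mix (nat_lit 23134208) (nat_lit 2064384)) (I.mix (nat_lit 16416768) (nat_lit 1310720)) (I.mix (nat_lit 2260992) (nat_lit 58834944)) (I.mix (nat_lit 39845888) (nat_lit 21970944)) (I.mix (nat_lit 17940480) (nat_lit 30965760)) (I.mix (nat_lit 11042816) (nat_lit 18694144)))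
  false (nat_lit 0)
def b1_8 : Bx := Bx.mk (St.mk (I.pos (nat_lit 187940864) (nat_lit 237699072)) (I.mix (nat_lit 12402688) (nat_lit 42860544)) (I.mix (nat_lit 24395776) (nat_lit 77627392)) (I.pos (nat_lit 162693120) (nat_lit 241483776)) (I.mix (nat_lit 119259136) (nat_lit 75317248)) (I.mix (nat_lit 85786624) (nat_lit 75972608)) (I.mix (nat_lit 146718720) (nat_lit 115720192)))
  false (nat_lit 65106647)
def b1_9 : Bx := Bx.mk (St.mk (I.pos (nat_lit 160448512) (nat_lit 197853184)) (I.mix (nat_lit 41582592) (nat_lit 12255232)) (I.mix (nat_lit 39059456) (nat_lit 32636928)) (I.pos (nat_lit 105725952) (nat_lit 171147264)) (I.mix (nat_lit 107544576) (nat_lit 79003648)) (I.mix (nat_lit 108953600) (nat_lit 69910528)) (I.mix (nat_lit 121028608) (nat_lit 77119488)))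
  false (nat_lit 19214834)
def b1_10 : Bx := Bx.mk (St.mk (I.pos (nat_lit 135430144) (nat_lit 175177728)) (I.mix (nat_lit 32587776) (nat_lit 868352)) (I.mix (nat_lit 28459008) (nat_lit 6193152)) (I.pos (nat_lit 84738048) (nat_lit 135856128)) (I.mix (nat_lit 69287936) (nat_lit 28164096)) (I.mix (nat_lit 29687808) (nat_lit 44695552)) (I.mix (nat_lit 36585472) (nat_lit 48955392)))
  false (nat_lit 17629780)
def b1_11 : Bx := Bx.mk (St.mk (I.pos (nat_lit 102416384) (nat_lit 134234112)) (I.mix (nat_lit 9142272) (nat_lit 10076160)) (I.mix (nat_lit 9961472) (nat_lit 9011200)) (I.pos (nat_lit 46104576) (nat_lit 85442560)) (I.mix (nat_lit 44367872) (nat_lit 20807680)) (I.mix (nat_lit 24231936) (nat_lit 23396352)) (I.mix (nat_lit 21397504) (nat_lit 21626880)))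
  false (nat_lit 0)
def b1_12 : Bx := Bx.mk (St.mk (I.mix (nat_lit 15843328) (nat_lit 121274368)) (I.mix (nat_lit 14204928) (nat_lit 2572288)) (I.mix (nat_lit 8896512) (nat_lit 1212416)) (I.mix (nat_lit 2473984) (nat_lit 65847296)) (I.mix (nat_lit 15876096) (nat_lit 4571136)) (I.mix (nat_lit 4423680) (nat_lit 6160384)) (I.mix (nat_lit 2981888) (nat_lit 4145152)))
  false (nat_lit 0)
def b1_13 : Bx := Bx.mk (St.mk (I.mix (nat_lit 12337152) (nat_lit 5144576)) (I.mix (nat_lit 1310720) (nat_lit 2408448)) (I.mix (nat_lit 983040) (nat_lit 638976)) (I.mix (nat_lit 1081344) (nat_lit 18333696)) (I.mix (nat_lit 7798784) (nat_lit 4227072)) (I.mix (nat_lit 4440064) (nat_lit 4227072)) (I.mix (nat_lit 671744) (nat_lit 638976)))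
  false (nat_lit 0)
def b1_14 : Bx := Bx.mk (St.mk (I.pos (nat_lit 203915264) (nat_lit 248053760)) (I.mix (nat_lit 13762560) (nat_lit 14794752)) (I.mix (nat_lit 30097408) (nat_lit 28262400)) (I.pos (nat_lit 186990592) (nat_lit 268500992)) (I.mix (nat_lit 99237888) (nat_lit 9306112)) (I.mix (nat_lit 38273024) (nat_lit 44875776)) (I.mix (nat_lit 71204864) (nat_lit 83394560)))
  false (nat_lit 18840738)
def b1_15 : Bx := Bx.mk (St.mk (I.pos (nat_lit 152272896) (nat_lit 183746560)) (I.neg (nat_lit 3702784) (nat_lit 34111488)) (I.mix (nat_lit 32571392) (nat_lit 1228800)) (I.pos (nat_lit 99827712) (nat_lit 151748608)) (I.mix (nat_lit 45498368) (nat_lit 28770304)) (I.mix (nat_lit 26558464) (nat_lit 28327936)) (I.mix (nat_lit 30326784) (nat_lit 30507008)))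
  false (nat_lit 13807279)
def t1 : BTr := (BTr.n (BTr.n (BTr.n (BTr.n (BTr.b b1_0) (BTr.b b1_1)) (BTr.n (BTr.b b1_2) (BTr.b b1_3))) (BTr.n (BTr.n (BTr.b b1_4) (BTr.b b1_5)) (BTr.n (BTr.b b1_6) (BTr.b b1_7)))) (BTr.n (BTr.n (BTr.n (BTr.b b1_8) (BTr.b b1_9)) (BTr.n (BTr.b b1_10) (BTr.b b1_11))) (BTr.n (BTr.n (BTr.b b1_12) (BTr.b b1_13)) (BTr.n (BTr.b b1_14) (BTr.b b1_15)))))
namespace T1
def l0 : Tr := Tr.L (Pth.l (Pth.l (Pth.l (Pth.l Pth.z))))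
def l1 : Tr := Tr.L (Pth.l (Pth.l (Pth.l (Pth.r Pth.z))))
def l2 : Tr := Tr.L (Pth.l (Pth.l (Pth.r (Pth.l Pth.z))))
def l3 : Tr := Tr.L (Pth.l (Pth.l (Pth.r (Pth.r Pth.z))))
def l4 : Tr := Tr.L (Pth.l (Pth.r (Pth.l (Pth.l Pth.z))))
def l5 : Tr := Tr.L (Pth.l (Pth.r (Pth.l (Pth.r Pth.z))))
def l6 : Tr := Tr.L (Pth.l (Pth.r (Pth.r (Pth.l Pth.z))))
def l7 : Tr := Tr.L (Pth.l (Pth.r (Pth.r (Pth.r Pth.z))))
def l8 : Tr := Tr.L (Pth.r (Pth.l (Pth.l (Pth.l Pth.z))))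
def l9 : Tr := Tr.L (Pth.r (Pth.l (Pth.l (Pth.r Pth.z))))
def l10 : Tr := Tr.L (Pth.r (Pth.l (Pth.r (Pth.l Pth.z))))
def l11 : Tr := Tr.L (Pth.r (Pth.l (Pth.r (Pth.r Pth.z))))
def l12 : Tr := Tr.L (Pth.r (Pth.r (Pth.l (Pth.l Pth.z))))
def l13 : Tr := Tr.L (Pth.r (Pth.r (Pth.l (Pth.r Pth.z))))
def l14 : Tr := Tr.L (Pth.r (Pth.r (Pth.r (Pth.l Pth.z))))
def l15 : Tr := Tr.L (Pth.r (Pth.r (Pth.r (Pth.r Pth.z))))
end T1
def b2_0 : Bx := Bx.mk (St.mk (I.pos (nat_lit 118259712) (nat_lit 218103808)) (I.mix (nat_lit 2523136) (nat_lit 77332480)) (I.mix (nat_lit 4358144) (nat_lit 140181504)) (I.pos (nat_lit 340033536) (nat_lit 449626112)) (I.mix (nat_lit 173031424) (nat_lit 73924608)) (I.mix (nat_lit 98156544) (nat_lit 82673664)) (I.mix (nat_lit 115032064) (nat_lit 88522752)))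
  false (nat_lit 148712087)
def b2_1 : Bx := Bx.mk (St.mk (I.pos (nat_lit 38076416) (nat_lit 121339904)) (I.neg (nat_lit 2523136) (nat_lit 97271808)) (I.mix (nat_lit 30556160) (nat_lit 59293696)) (I.pos (nat_lit 282214400) (nat_lit 331431936)) (I.mix (nat_lit 121454592) (nat_lit 130334720)) (I.mix (nat_lit 115425280) (nat_lit 90308608)) (I.mix (nat_lit 97042432) (nat_lit 83165184)))
  false (nat_lit 255346363)
def b2_2 : Bx := Bx.mk (St.mk (I.pos (nat_lit 97386496) (nat_lit 164069376)) (I.mix (nat_lit 45826048) (nat_lit 72105984)) (I.pos (nat_lit 17055744) (nat_lit 141705216)) (I.pos (nat_lit 300367872) (nat_lit 384237568)) (I.mix (nat_lit 201195520) (nat_lit 101580800)) (I.mix (nat_lit 149454848) (nat_lit 119619584)) (I.mix (nat_lit 164937728) (nat_lit 146685952)))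
  false (nat_lit 163467988)
def b2_3 : Bx := Bx.mk (St.mk (I.neg (nat_lit 38076416) (nat_lit 120963072)) (I.mix (nat_lit 557056) (nat_lit 97353728)) (I.mix (nat_lit 30605312) (nat_lit 61063168)) (I.pos (nat_lit 282214400) (nat_lit 331431936)) (I.mix (nat_lit 130334720) (nat_lit 121454592)) (I.mix (nat_lit 90308608) (nat_lit 115441664)) (I.mix (nat_lit 97042432) (nat_lit 83165184)))
  true (nat_lit 122126925)
def b2_4 : Bx := Bx.mk (St.mk (I.pos (nat_lit 80510976) (nat_lit 120897536)) (I.neg (nat_lit 901120) (nat_lit 37502976)) (I.pos (nat_lit 22609920) (nat_lit 59817984)) (I.pos (nat_lit 289341440) (nat_lit 329285632)) (I.mix (nat_lit 89980928) (nat_lit 91947008)) (I.mix (nat_lit 58818560) (nat_lit 76611584)) (I.mix (nat_lit 57114624) (nat_lit 62914560)))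
  false (nat_lit 101779651)
def b2_5 : Bx := Bx.mk (St.mk (I.mix (nat_lit 69926912) (nat_lit 12238848)) (I.mix (nat_lit 11583488) (nat_lit 91340800)) (I.mix (nat_lit 18546688) (nat_lit 7061504)) (I.pos (nat_lit 266141696) (nat_lit 307986432)) (I.mix (nat_lit 103071744) (nat_lit 107036672)) (I.mix (nat_lit 79233024) (nat_lit 72613888)) (I.mix (nat_lit 38322176) (nat_lit 30113792)))
  true (nat_lit 35690733)
def b2_6 : Bx := Bx.mk (St.mk (I.pos (nat_lit 25198592) (nat_lit 72826880)) (I.neg (nat_lit 35520512) (nat_lit 89997312)) (I.mix (nat_lit 18464768) (nat_lit 4374528)) (I.pos (nat_lit 278511616) (nat_lit 307511296)) (I.mix (nat_lit 107036672) (nat_lit 79839232)) (I.mix (nat_lit 72613888) (nat_lit 79233024)) (I.mix (nat_lit 38322176) (nat_lit 30670848)))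
  false (nat_lit 151546500)
def b2_7 : Bx := Bx.mk (St.mk (I.mix (nat_lit 12255232) (nat_lit 59834368)) (I.mix (nat_lit 52117504) (nat_lit 10452992)) (I.mix (nat_lit 8159232) (nat_lit 6750208)) (I.pos (nat_lit 266665984) (nat_lit 288538624)) (I.mix (nat_lit 55754752) (nat_lit 67289088)) (I.mix (nat_lit 43761664) (nat_lit 42926080)) (I.mix (nat_lit 11403264) (nat_lit 14729216)))
  false (nat_lit 23597071)
def b2_8 : Bx := Bx.mk (St.mk (I.pos (nat_lit 169754624) (nat_lit 289210368)) (I.mix (nat_lit 21790720) (nat_lit 57966592)) (I.mix (nat_lit 43057152) (nat_lit 107577344)) (I.pos (nat_lit 391135232) (nat_lit 577863680)) (I.mix (nat_lit 98516992) (nat_lit 77889536)) (I.mix (nat_lit 69976064) (nat_lit 61276160)) (I.mix (nat_lit 112771072) (nat_lit 92569600)))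
  false (nat_lit 117468638)
def b2_9 : Bx := Bx.mk (St.mk (I.pos (nat_lit 140558336) (nat_lit 190251008)) (I.pos (nat_lit 17301504) (nat_lit 70451200)) (I.pos (nat_lit 53411840) (nat_lit 128253952)) (I.pos (nat_lit 354484224) (nat_lit 409518080)) (I.mix (nat_lit 154189824) (nat_lit 74317824)) (I.mix (nat_lit 107773952) (nat_lit 58556416)) (I.mix (nat_lit 139722752) (nat_lit 82362368)))
  false (nat_lit 71638678)
def b2_10 : Bx := Bx.mk (St.mk (I.pos (nat_lit 29310976) (nat_lit 67010560)) (I.neg (nat_lit 25935872) (nat_lit 71008256)) (I.mix (nat_lit 15040512) (nat_lit 6471680)) (I.pos (nat_lit 278364160) (nat_lit 294797312)) (I.mix (nat_lit 83329024) (nat_lit 103120896)) (I.mix (nat_lit 62357504) (nat_lit 78561280)) (I.mix (nat_lit 22020096) (nat_lit 27639808)))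
  false (nat_lit 141404806)
def t2 : BTr := (BTr.n (BTr.n (BTr.n (BTr.b b2_0) (BTr.b b2_1)) (BTr.n (BTr.b b2_2) (BTr.n (BTr.b b2_3) (BTr.b b2_4)))) (BTr.n (BTr.n (BTr.b b2_5) (BTr.n (BTr.b b2_6) (BTr.b b2_7))) (BTr.n (BTr.b b2_8) (BTr.n (BTr.b b2_9) (BTr.b b2_10)))))
namespace T2
def l0 : Tr := Tr.L (Pth.l (Pth.l (Pth.l Pth.z)))
def l1 : Tr := Tr.L (Pth.l (Pth.l (Pth.r Pth.z)))
def l2 : Tr := Tr.L (Pth.l (Pth.r (Pth.l Pth.z)))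
def l3 : Tr := Tr.L (Pth.l (Pth.r (Pth.r (Pth.l Pth.z))))
def l4 : Tr := Tr.L (Pth.l (Pth.r (Pth.r (Pth.r Pth.z))))
def l5 : Tr := Tr.L (Pth.r (Pth.l (Pth.l Pth.z)))
def l6 : Tr := Tr.L (Pth.r (Pth.l (Pth.r (Pth.l Pth.z))))
def l7 : Tr := Tr.L (Pth.r (Pth.l (Pth.r (Pth.r Pth.z))))
def l8 : Tr := Tr.L (Pth.r (Pth.r (Pth.l Pth.z)))
def l9 : Tr := Tr.L (Pth.r (Pth.r (Pth.r (Pth.l Pth.z))))
def l10 : Tr := Tr.L (Pth.r (Pth.r (Pth.r (Pth.r Pth.z))))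
end T2
theorem c0_0_0 : chkTag sI cl4 cl4 cl13 t0 b0_0 (tg true true false RT.r2) (I.pos (nat_lit 0) (nat_lit 0))
  (xb (xa (xb (xa (xb T0.l0 T0.l0) T0.l0) (xa T0.l9 T0.l0)) (xb T0.l0 (xa T0.l0 T0.l0))) (xa (xb (xa (xb T0.l0 (xa T0.l0 T0.l0)) (xb T0.l0 T0.l0)) (xa (xb (xa (xb T0.l0 T0.l0) T0.l0) (xa (xb T0.l0 T0.l0) (xb T0.l0 T0.l0))) (xb T0.l0 (xa T0.l0 T0.l0)))) (xb (xa T0.l0 T0.l0) (xa (xb T0.l0 (xa T0.l0 T0.l0)) (xb T0.l0 (xa T0.l0 (xb T0.l0 T0.l0))))))) = true := by decide +kernel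
theorem c0_0_1 : chkTag sI cl4 cl4 cl13 t2 b0_0 (tg true false false RT.r3) (I.pos (nat_lit 0) (nat_lit 0))
  (xb (xa T2.l1 T2.l1) (xa (xb T2.l1 (xa T2.l1 T2.l1)) (xb T2.l1 (xa T2.l1 T2.l1)))) = true := by decide +kernel
theorem c0_0_2 : chkTag sI cl4 cl4 cl13 t0 b0_0 (tg true true true RT.r4) (I.pos (nat_lit 0) (nat_lit 0))
  (xb T0.l1 (xa T0.l1 (xb T0.l1 T0.l1))) = true := by decide +kernel
theorem c0_0_3 : chkTag sI cl4 cl4 cl13 t2 b0_0 (tg false false false RT.r3) (I.pos (nat_lit 0) (nat_lit 0))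
  (xb (xa (xb T2.l2 (xa T2.l2 T2.l2)) (xb (xa T2.l2 (xb T2.l2 T2.l2)) (xa (xb T2.l2 T2.l2) (xb (xc T2.l2 T2.l2) (xe T2.l2 T2.l2))))) (xa (xb (xa T2.l2 (xb T2.l2 T2.l2)) (xa (xb T2.l2 (xc T2.l2 T2.l2)) (xb (xc T2.l2 T2.l2) (xc T2.l2 (xe T2.l2 T2.l2))))) (xb (xa (xb (xc T2.l2 T2.l2) (xc T2.l2 (xe T2.l2 T2.l2))) (xb (xe (xc T2.l2 T2.l2) (xc T2.l2 T2.l2)) (xe (xc T2.l2 (xa T2.l2 T2.l2)) (xc T2.l2 (xa T2.l2 T2.l2))))) (xa (xb (xe (xc T2.l2 T2.l2) (xc T2.l2 T2.l2)) (xe (xc (xs T2.l2 T2.l2) (xs T2.l2 T2.l2)) (xc T2.l2 (xs T2.l2 T2.l2)))) (xb (xe (xc (xa T2.l2 T2.l2) (xa T2.l2 (xs T2.l2 T2.l2))) (xc (xa T2.l2 T2.l2) (xa T2.l2 T2.l2))) (xe (xc (xs T2.l2 (xa T2.l2 T2.l2)) (xs (xa T2.l2 T2.l2) (xa T2.l2 T2.l2))) (xc (xs T2.l2 T2.l2) (xs (xa T2.l2 T2.l2) (xa T2.l2 T2.l2))))))))) = true := by decide +kernel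
theorem c0_0_4 : chkTag sI cl4 cl4 cl13 t0 b0_0 (tg false true false RT.r4) (I.pos (nat_lit 0) (nat_lit 0))
  (xb (xa T0.l2 T0.l2) (xa T0.l2 (xb T0.l2 T0.l2))) = true := by decide +kernel
theorem c0_0_5 : chkTag sI cl4 cl4 cl13 t2 b0_0 (tg false false true RT.r5) (I.pos (nat_lit 0) (nat_lit 0))
  (xb (xa T2.l3 T2.l3) (xa (xb T2.l3 (xa T2.l3 T2.l3)) (xb T2.l3 (xa T2.l3 T2.l3)))) = true := by decide +kernel
theorem bx0_0 : BoxOK sI cl4 cl4 cl13 t0 t2 b0_0 :=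
  box_mk' [(tg true true false RT.r2), (tg true false false RT.r3), (tg true true true RT.r4), (tg false false false RT.r3), (tg false true false RT.r4), (tg false false true RT.r5)] rfl (allL_c (ex_mk c0_0_0) (allL_c (ex_mk c0_0_1) (allL_c (ex_mk c0_0_2) (allL_c (ex_mk c0_0_3) (allL_c (ex_mk c0_0_4) (allL_c (ex_mk c0_0_5) allL_n))))))
theorem bx0_1 : BoxOK sI cl4 cl4 cl13 t0 t2 b0_1 :=
  box_mk (TrL.c (I.pos (nat_lit 0) (nat_lit 0)) (xb T2.l1 (xb T2.l4 (xa T2.l4 T2.l4)))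
  (TrL.c (I.pos (nat_lit 0) (nat_lit 0)) (xb T0.l1 T0.l1)
  TrL.n)) (by decide +kernel)
theorem bx0_2 : BoxOK sI cl4 cl4 cl13 t0 t2 b0_2 :=
  box_mk (TrL.c (I.pos (nat_lit 0) (nat_lit 0)) (xb (xa (xb (xa (xb (xa (xs T0.l4 T0.l4) T0.l4) (xa T0.l4 T0.l4)) (xb (xa T0.l4 T0.l4) T0.l4)) (xa (xb (xa T0.l4 T0.l4) (xa T0.l4 T0.l4)) (xb T0.l4 T0.l4))) (xb (xa (xb (xa T0.l4 T0.l4) T0.l4) (xb (xa T0.l4 T0.l9) T0.l4)) (xa T0.l4 T0.l4))) (xa (xb (xa (xb T0.l4 T0.l4) (xb T0.l4 T0.l4)) (xa (xb (xa T0.l4 T0.l4) (xa T0.l4 T0.l4)) (xb T0.l9 T0.l9))) (xb (xa (xb T0.l4 T0.l4) T0.l9) T0.l9)))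
  (TrL.c (I.pos (nat_lit 0) (nat_lit 0)) (xb T2.l4 T2.l1)
  (TrL.c (I.pos (nat_lit 0) (nat_lit 0)) T0.l1
  (TrL.c (I.pos (nat_lit 0) (nat_lit 0)) T2.l2
  (TrL.c (I.pos (nat_lit 0) (nat_lit 0)) T0.l5
  (TrL.c (I.pos (nat_lit 0) (nat_lit 0)) T2.l3
  TrL.n)))))) (by decide +kernel)
theorem bx0_3 : BoxOK sI cl4 cl4 cl13 t0 t2 b0_3 :=
  box_mk (TrL.c (I.pos (nat_lit 0) (nat_lit 0)) T2.l4
  (TrL.c (I.pos (nat_lit 0) (nat_lit 0)) T0.l3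
  TrL.n)) (by decide +kernel)
theorem bx0_4 : BoxOK sI cl4 cl4 cl13 t0 t2 b0_4 :=
  box_mk (TrL.c (I.pos (nat_lit 0) (nat_lit 0)) (xa T0.l0 T0.l7)
  (TrL.c (I.pos (nat_lit 0) (nat_lit 0)) (xa T2.l1 T2.l1)
  (TrL.c (I.pos (nat_lit 0) (nat_lit 0)) T0.l1
  (TrL.c (I.pos (nat_lit 0) (nat_lit 0)) (xa T2.l2 (xb (xa T2.l2 (xe T2.l2 T2.l2)) T2.l2))
  (TrL.c (I.pos (nat_lit 0) (nat_lit 0)) T0.l2
  (TrL.c (I.pos (nat_lit 0) (nat_lit 0)) (xa T2.l3 T2.l3)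
  TrL.n)))))) (by decide +kernel)
theorem bx0_5 : BoxOK sI cl4 cl4 cl13 t0 t2 b0_5 :=
  box_mk (TrL.c (I.pos (nat_lit 0) (nat_lit 0)) (xb T0.l4 (xa (xb T0.l4 (xa T0.l4 T0.l4)) (xb T0.l4 T0.l4)))
  (TrL.c (I.pos (nat_lit 0) (nat_lit 0)) T2.l1
  (TrL.c (I.pos (nat_lit 0) (nat_lit 0)) T0.l1
  (TrL.c (I.pos (nat_lit 0) (nat_lit 0)) T2.l2
  (TrL.c (I.pos (nat_lit 0) (nat_lit 0)) T0.l5
  (TrL.c (I.pos (nat_lit 0) (nat_lit 0)) T2.l3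
  TrL.n)))))) (by decide +kernel)
theorem bx0_6 : BoxOK sI cl4 cl4 cl13 t0 t2 b0_6 :=
  box_mk (TrL.c (I.pos (nat_lit 0) (nat_lit 0)) (xa (xb (xa (xb (xa (xb (xa T0.l4 T0.l4) T0.l4) (xb (xa T0.l9 T0.l9) T0.l9)) (xa (xb T0.l4 T0.l9) T0.l9)) (xb (xa T0.l9 T0.l9) T0.l9)) (xa (xb (xa T0.l9 T0.l9) (xa T0.l9 T0.l9)) T0.l9)) (xb (xa T0.l9 (xb (xa T0.l9 T0.l9) T0.l9)) T0.l9))
  (TrL.c (I.pos (nat_lit 0) (nat_lit 0)) (xa (xb T2.l1 T2.l1) (xb T2.l1 T2.l1))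
  (TrL.c (I.pos (nat_lit 0) (nat_lit 0)) T0.l1
  (TrL.c (I.pos (nat_lit 0) (nat_lit 0)) (xa T2.l2 (xb T2.l2 T2.l2))
  (TrL.c (I.pos (nat_lit 0) (nat_lit 0)) (xa (xb T0.l10 T0.l10) T0.l10)
  (TrL.c (I.pos (nat_lit 0) (nat_lit 0)) (xa T2.l3 (xb T2.l3 T2.l3))
  TrL.n)))))) (by decide +kernel)
theorem c0_7_0 : chkTag sI cl4 cl4 cl13 t0 b0_7 (tg true true false RT.r2) (I.pos (nat_lit 0) (nat_lit 0))
  (xb (xa (xb (xa (xb (xa (xb T0.l9 T0.l9) (xb T0.l9 T0.l9)) (xa T0.l9 T0.l9)) (xb (xa (xb T0.l9 T0.l9) (xb T0.l9 T0.l9)) (xa T0.l9 T0.l9))) (xa (xb (xa T0.l9 T0.l9) (xa T0.l9 T0.l9)) (xb T0.l9 T0.l9))) (xb (xa (xb (xa (xb T0.l9 T0.l9) (xb T0.l9 T0.l9)) (xa T0.l9 T0.l9)) (xb (xa (xb T0.l9 T0.l9) T0.l0) T0.l0)) (xa (xb T0.l9 T0.l9) T0.l0))) (xa (xb (xa (xb (xa T0.l9 T0.l9) (xa (xb T0.l9 T0.l9) T0.l9)) (xb T0.l9 T0.l9)) (xa (xb (xa (xb T0.l9 T0.l9)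 T0.l9) (xa (xb (xa T0.l9 T0.l9) (xa T0.l9 T0.l9)) (xb T0.l9 T0.l9))) (xb T0.l9 (xa T0.l9 T0.l9)))) (xb (xa (xb T0.l9 T0.l9) T0.l0) (xa (xb T0.l9 (xa T0.l9 T0.l9)) T0.l0)))) = true := by decide +kernel
theorem c0_7_1 : chkTag sI cl4 cl4 cl13 t2 b0_7 (tg true false false RT.r3) (I.pos (nat_lit 0) (nat_lit 0))
  (xb (xa (xb T2.l1 T2.l1) (xb T2.l1 T2.l1)) (xa (xb (xa T2.l1 T2.l1) (xa T2.l1 T2.l1)) (xb T2.l1 (xa T2.l1 T2.l1)))) = true := by decide +kernel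
theorem c0_7_2 : chkTag sI cl4 cl4 cl13 t0 b0_7 (tg true true true RT.r4) (I.pos (nat_lit 0) (nat_lit 0))
  (xb (xa (xb T0.l1 T0.l1) (xb T0.l1 T0.l1)) (xa T0.l1 T0.l1)) = true := by decide +kernel
theorem c0_7_3 : chkTag sI cl4 cl4 cl13 t2 b0_7 (tg false false false RT.r3) (I.pos (nat_lit 0) (nat_lit 0))
  (xb (xa (xb (xa (xb (xc (xa T2.l2 T2.l2) (xa T2.l2 T2.l2)) T2.l2) (xb (xc (xa T2.l2 T2.l2) (xa T2.l2 T2.l2)) T2.l2)) T2.l2) (xb (xa (xb (xa (xc T2.l2 T2.l2) (xc T2.l2 T2.l2)) T2.l2) (xb (xa (xc T2.l2 T2.l2) (xc T2.l2 T2.l2)) T2.l2)) (xa T2.l2 T2.l2))) (xa (xb T2.l2 (xa (xb T2.l2 (xc T2.l2 T2.l2)) T2.l2)) (xb (xa T2.l2 T2.l2) (xa T2.l2 (xb T2.l2 (xa T2.l2 T2.l2)))))) = true := by decide +kernel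
theorem c0_7_4 : chkTag sI cl4 cl4 cl13 t0 b0_7 (tg false true false RT.r4) (I.pos (nat_lit 0) (nat_lit 0))
  (xa (xb (xb T0.l10 T0.l10) (xb T0.l10 T0.l10)) (xb (xc (xb T0.l10 T0.l10) (xb T0.l10 T0.l10)) T0.l2)) = true := by decide +kernel
theorem c0_7_5 : chkTag sI cl4 cl4 cl13 t2 b0_7 (tg false false true RT.r5) (I.pos (nat_lit 0) (nat_lit 0))
  (xb (xa (xb T2.l3 T2.l3) (xb T2.l3 T2.l3)) (xa (xb (xa T2.l3 T2.l3) (xa T2.l3 T2.l3)) (xb T2.l3 (xa T2.l3 T2.l3)))) = true := by decide +kernel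
theorem bx0_7 : BoxOK sI cl4 cl4 cl13 t0 t2 b0_7 :=
  box_mk' [(tg true true false RT.r2), (tg true false false RT.r3), (tg true true true RT.r4), (tg false false false RT.r3), (tg false true false RT.r4), (tg false false true RT.r5)] rfl (allL_c (ex_mk c0_7_0) (allL_c (ex_mk c0_7_1) (allL_c (ex_mk c0_7_2) (allL_c (ex_mk c0_7_3) (allL_c (ex_mk c0_7_4) (allL_c (ex_mk c0_7_5) allL_n))))))
theorem bx0_8 : BoxOK sI cl4 cl4 cl13 t0 t2 b0_8 :=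
  box_mk (TrL.c (I.pos (nat_lit 0) (nat_lit 0)) (xa (xb T2.l1 T2.l1) (xb T2.l1 T2.l1))
  (TrL.c (I.pos (nat_lit 0) (nat_lit 0)) T0.l1
  TrL.n)) (by decide +kernel)
theorem c0_9_0 : chkTag sI cl4 cl4 cl13 t0 b0_9 (tg true true false RT.r2) (I.pos (nat_lit 0) (nat_lit 0))
  (xb (xa (xb (xa (xb (xc T0.l9 T0.l0) (xc T0.l9 T0.l0)) (xb T0.l0 T0.l0)) (xa (xb (xc T0.l9 T0.l0) (xc T0.l9 T0.l0)) (xb T0.l0 T0.l0))) (xb (xa (xb T0.l0 T0.l0) (xb (xc T0.l0 (xa T0.l0 T0.l0)) T0.l0)) (xa (xb T0.l0 T0.l0) (xb T0.l0 T0.l0)))) (xa (xb (xa (xb (xc T0.l9 T0.l0) (xc (xa T0.l9 T0.l0) T0.l0)) (xb (xc T0.l0 T0.l0) (xa T0.l0 T0.l0))) (xa (xb (xa (xc (xb T0.l0 T0.l0) T0.l0) (xc T0.l0 T0.l0)) (xa (xc (xb T0.l0 T0.l0) T0.l0) (xc T0.l0 T0.l0))) (xb (xa T0.l0 T0.l0) (xa T0.l0 T0.l0)))) (xb (xa (xb T0.l0 T0.l0) (xb (xc T0.l0 T0.l0) (xc T0.l0 (xa T0.l0 T0.l0)))) (xa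 (xb (xa T0.l0 T0.l0) (xa T0.l0 (xc T0.l0 T0.l0))) (xb (xa (xc T0.l0 T0.l0) (xc T0.l0 T0.l0)) (xa (xc T0.l0 (xb T0.l0 T0.l0)) (xc T0.l0 (xb T0.l0 (xe T0.l0 T0.l0))))))))) = true := by decide +kernel
theorem c0_9_1 : chkTag sI cl4 cl4 cl13 t2 b0_9 (tg true false false RT.r3) (I.pos (nat_lit 0) (nat_lit 0))
  (xb (xa (xb (xc T2.l1 T2.l1) (xc T2.l1 T2.l1)) (xb (xc (xa T2.l1 T2.l1) (xa T2.l1 T2.l1)) (xc T2.l1 T2.l1))) (xa (xb (xc (xa T2.l1 T2.l1) T2.l1) (xc (xa T2.l1 T2.l1) (xa T2.l1 T2.l1))) (xb (xc (xa T2.l1 T2.l1) T2.l1) (xc (xa T2.l1 T2.l1) (xa T2.l1 T2.l1))))) = true := by decide +kernel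
theorem c0_9_2 : chkTag sI cl4 cl4 cl13 t0 b0_9 (tg true true true RT.r4) (I.pos (nat_lit 0) (nat_lit 0))
  (xc (xb (xa T0.l1 (xb T0.l1 T0.l1)) (xa T0.l1 (xb T0.l1 T0.l1))) (xb (xa T0.l1 (xb T0.l1 T0.l1)) (xa T0.l1 (xb T0.l1 T0.l1)))) = true := by decide +kernel
def rc0_9_3_l : Tr := (xa (xb (xc (xa (xb (xe T2.l2 T2.l2) T2.l2) (xb (xe (xc T2.l2 T2.l2) T2.l2) (xe T2.l2 T2.l2))) (xa (xb T2.l2 T2.l2) (xb (xe T2.l2 T2.l2) T2.l2))) (xc (xa T2.l2 (xb T2.l2 T2.l2)) (xa T2.l2 (xb T2.l2 T2.l2)))) (xb (xc (xa (xb (xe (xc (xa T2.l2 T2.l2) (xa T2.l2 T2.l2)) (xc T2.l2 T2.l2)) (xe (xc T2.l2 T2.l2) T2.l2)) (xb (xe (xa (xc (xs T2.l2 T2.l2) T2.l2) (xc (xs T2.l2 T2.l2) (xs T2.l2 T2.l2))) (xa (xc T2.l2 T2.l2) (xc (xs T2.l2 T2.l2) T2.l2))) (xe (xc (xa T2.l2 T2.l2) T2.l2) (xa T2.l2 T2.l2)))) (xa (xb (xe (xa T2.l2 (xc T2.l2 T2.l2)) (xa T2.l2 T2.l2)) (xe T2.l2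 T2.l2)) (xb (xe (xa (xc T2.l2 T2.l2) (xc T2.l2 (xb T2.l2 T2.l2))) (xa (xc T2.l2 T2.l2) (xc T2.l2 T2.l2))) (xe (xa T2.l2 (xc T2.l2 T2.l2)) (xa T2.l2 T2.l2))))) (xc (xa (xb (xe T2.l2 T2.l2) (xe T2.l2 T2.l2)) (xb (xe (xa T2.l2 T2.l2) T2.l2) (xe (xa T2.l2 T2.l2) (xa T2.l2 T2.l2)))) (xa (xb (xe T2.l2 T2.l2) T2.l2) (xb (xe T2.l2 T2.l2) (xe T2.l2 T2.l2))))))
theorem qc0_9_3_l : chkTr (tg false false false RT.r3) b0_9 t2 rc0_9_3_l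
  (upd lo Co.b (rc sI cl4 cl4 cl13 b0_9 (I.pos (nat_lit 0) (nat_lit 0)))) = true := by decide +kernel
def rc0_9_3_rl : Tr := (xb (xc (xa T2.l2 T2.l2) (xa T2.l2 (xb T2.l2 T2.l2))) (xc (xa T2.l2 (xb T2.l2 (xe T2.l2 T2.l2))) (xa (xb T2.l2 T2.l2) (xb T2.l2 (xe T2.l2 T2.l2)))))
theorem qc0_9_3_rl : chkTr (tg false false false RT.r3) b0_9 t2 rc0_9_3_rl
  (upd lo Co.a (upd hi Co.b (rc sI cl4 cl4 cl13 b0_9 (I.pos (nat_lit 0) (nat_lit 0))))) = true := by decide +kernel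
def rc0_9_3_rr : Tr := (xb (xc (xa (xb (xe T2.l2 T2.l2) (xe T2.l2 T2.l2)) (xb (xe (xc T2.l2 T2.l2) (xc T2.l2 T2.l2)) (xe (xc (xa T2.l2 T2.l2) (xa T2.l2 T2.l2)) (xc (xa T2.l2 T2.l2) T2.l2)))) (xa (xb (xe T2.l2 T2.l2) (xe T2.l2 T2.l2)) (xb (xe (xa T2.l2 T2.l2) (xa T2.l2 T2.l2)) (xe (xa T2.l2 (xc T2.l2 T2.l2)) (xa T2.l2 (xc T2.l2 T2.l2)))))) (xc (xa (xb (xe (xc T2.l2 T2.l2) (xc T2.l2 T2.l2)) (xe (xc T2.l2 T2.l2) (xc T2.l2 T2.l2))) (xb (xe (xc (xa T2.l2 (xs T2.l2 T2.l2)) (xa T2.l2 (xs T2.l2 T2.l2))) (xc (xa T2.l2 (xs T2.l2 T2.l2)) (xa T2.l2 T2.l2))) (xe (xc (xa (xs T2.l2 T2.l2) (xs T2.l2 T2.l2)) (xa T2.l2 (xs T2.l2 T2.l2))) (xc (xa T2.l2 (xs T2.l2 T2.l2)) (xa T2.l2 (xs T2.l2 T2.l2)))))) (xa (xb (xe (xa T2.l2 T2.l2) (xa T2.l2 T2.l2)) (xe (xc T2.l2 (xa T2.l2 T2.l2)) (xa T2.l2 (xc T2.l2 T2.l2)))) (xb (xe (xa (xc T2.l2 T2.l2) (xc T2.l2 (xs T2.l2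 T2.l2))) (xa (xc T2.l2 T2.l2) (xc T2.l2 T2.l2))) (xe (xa (xc (xs T2.l2 T2.l2) (xs T2.l2 T2.l2)) (xc (xs T2.l2 T2.l2) (xs T2.l2 (xb T2.l2 T2.l2)))) (xa (xc T2.l2 T2.l2) (xc (xs T2.l2 T2.l2) (xs T2.l2 T2.l2))))))))
theorem qc0_9_3_rr : chkTr (tg false false false RT.r3) b0_9 t2 rc0_9_3_rr
  (upd hi Co.a (upd hi Co.b (rc sI cl4 cl4 cl13 b0_9 (I.pos (nat_lit 0) (nat_lit 0))))) = true := by decide +kernel
theorem qc0_9_3_r : chkTr (tg false false false RT.r3) b0_9 t2 (Tr.N Co.a rc0_9_3_rl rc0_9_3_rr)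
  (upd hi Co.b (rc sI cl4 cl4 cl13 b0_9 (I.pos (nat_lit 0) (nat_lit 0)))) = true := tr_split qc0_9_3_rl qc0_9_3_rr
theorem qc0_9_3_ : chkTr (tg false false false RT.r3) b0_9 t2 (Tr.N Co.b rc0_9_3_l (Tr.N Co.a rc0_9_3_rl rc0_9_3_rr))
  (rc sI cl4 cl4 cl13 b0_9 (I.pos (nat_lit 0) (nat_lit 0))) = true := tr_split qc0_9_3_l qc0_9_3_r
theorem c0_9_3 : chkTag sI cl4 cl4 cl13 t2 b0_9 (tg false false false RT.r3) (I.pos (nat_lit 0) (nat_lit 0))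
  (Tr.N Co.b rc0_9_3_l (Tr.N Co.a rc0_9_3_rl rc0_9_3_rr)) = true := tag_mk (by decide +kernel) qc0_9_3_
theorem c0_9_4 : chkTag sI cl4 cl4 cl13 t0 b0_9 (tg false true false RT.r4) (I.pos (nat_lit 0) (nat_lit 0))
  (xb (xc (xa T0.l2 (xb T0.l2 T0.l2)) (xa T0.l2 (xb T0.l2 T0.l2))) (xc (xa T0.l2 (xb T0.l2 T0.l2)) (xa T0.l2 (xb T0.l2 T0.l2)))) = true := by decide +kernel
theorem c0_9_5 : chkTag sI cl4 cl4 cl13 t2 b0_9 (tg false false true RT.r5) (I.pos (nat_lit 0) (nat_lit 0))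
  (xb (xa (xb (xc T2.l3 T2.l3) (xc T2.l3 T2.l3)) (xb (xc (xa T2.l3 T2.l3) (xa T2.l3 T2.l3)) (xc T2.l3 T2.l3))) (xa (xb (xc (xa T2.l3 T2.l3) T2.l3) (xc (xa T2.l3 T2.l3) (xa T2.l3 T2.l3))) (xb (xc (xa T2.l3 T2.l3) T2.l3) (xc (xa T2.l3 T2.l3) (xa T2.l3 T2.l3))))) = true := by decide +kernel
theorem bx0_9 : BoxOK sI cl4 cl4 cl13 t0 t2 b0_9 :=
  box_mk' [(tg true true false RT.r2), (tg true false false RT.r3), (tg true true true RT.r4), (tg false false false RT.r3), (tg false true false RT.r4), (tg false false true RT.r5)] rfl (allL_c (ex_mk c0_9_0) (allL_c (ex_mk c0_9_1) (allL_c (ex_mk c0_9_2) (allL_c (ex_mk c0_9_3) (allL_c (ex_mk c0_9_4) (allL_c (ex_mk c0_9_5) allL_n))))))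
theorem bx0_10 : BoxOK sI cl4 cl4 cl13 t0 t2 b0_10 :=
  box_mk (TrL.c (I.pos (nat_lit 0) (nat_lit 0)) (xb (xa (xb (xa (xb (xa (xb T0.l4 T0.l4) T0.l4) (xa T0.l4 T0.l4)) T0.l4) (xa (xb (xa T0.l4 T0.l4) T0.l4) T0.l4)) (xb T0.l4 (xa T0.l4 T0.l9))) (xa (xb (xa (xb T0.l4 T0.l4) T0.l4) (xa (xb T0.l4 (xa T0.l4 T0.l4)) (xb T0.l4 (xa T0.l4 T0.l4)))) (xb T0.l9 (xa (xb T0.l4 (xa T0.l4 T0.l9)) T0.l9))))
  (TrL.c (I.pos (nat_lit 0) (nat_lit 0)) (xb T2.l1 T2.l1)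
  (TrL.c (I.pos (nat_lit 0) (nat_lit 0)) T0.l1
  (TrL.c (I.pos (nat_lit 0) (nat_lit 0)) T2.l2
  (TrL.c (I.pos (nat_lit 0) (nat_lit 0)) (xb T0.l5 T0.l5)
  (TrL.c (I.pos (nat_lit 0) (nat_lit 0)) T2.l3
  TrL.n)))))) (by decide +kernel)
theorem sv0 : StarV sI cl4 cl4 cl13 t0 t2 t0 :=
  (bt_n (bt_n (bt_n (bt_b bx0_0) (bt_b bx0_1)) (bt_n (bt_b bx0_2) (bt_n (bt_b bx0_3) (bt_b bx0_4)))) (bt_n (bt_n (bt_b bx0_5) (bt_n (bt_b bx0_6) (bt_b bx0_7))) (bt_n (bt_b bx0_8) (bt_n (bt_b bx0_9) (bt_b bx0_10)))))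
def S0 : StarD := StarD.mk cl4 cl4 cl13 0 2 t0
theorem bx1_0 : BoxOK sI cl4 cl13 cl4 t2 t0 b1_0 :=
  box_mk (TrL.c (I.pos (nat_lit 0) (nat_lit 0)) (xa (xb (xa (xb T2.l0 (xa T2.l0 T2.l0)) (xb T2.l0 T2.l0)) (xa (xb (xa (xb T2.l0 T2.l0) T2.l0) (xa (xb T2.l0 (xa T2.l0 T2.l0)) (xb T2.l0 (xd T2.l0 T2.l0)))) (xb (xa T2.l0 T2.l0) (xa (xb T2.l0 (xd T2.l0 T2.l0)) (xb T2.l0 (xd T2.l0 T2.l0)))))) (xb (xa (xb T2.l0 T2.l0) (xb (xa T2.l0 T2.l0) (xa T2.l0 T2.l0))) (xa (xb T2.l0 (xa (xb T2.l0 T2.l0) (xb T2.l0 T2.l0))) (xb (xa T2.l0 T2.l2) (xa (xb T2.l0 (xd T2.l0 T2.l0)) (xb T2.l0 (xd T2.l0 T2.l0)))))))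
  (TrL.c (I.pos (nat_lit 0) (nat_lit 0)) (xa (xb (xa T0.l6 T0.l6) (xa (xb T0.l6 T0.l6) (xb T0.l6 T0.l6))) (xb (xa T0.l6 T0.l6) (xa (xb T0.l6 T0.l6) (xb T0.l6 (xa T0.l6 T0.l6)))))
  (TrL.c (I.pos (nat_lit 0) (nat_lit 0)) T2.l5
  (TrL.c (I.pos (nat_lit 0) (nat_lit 0)) (xa T0.l7 (xb T0.l7 (xa T0.l7 T0.l7)))
  (TrL.c (I.pos (nat_lit 0) (nat_lit 0)) (xa T2.l6 T2.l6)
  (TrL.c (I.pos (nat_lit 0) (nat_lit 0)) (xa (xb (xa T0.l8 T0.l8) (xa (xb T0.l8 T0.l8) (xb T0.l8 T0.l8))) (xb (xa T0.l8 T0.l8) (xa (xb T0.l8 T0.l8) (xb T0.l8 (xa T0.l8 T0.l8)))))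
  TrL.n)))))) (by decide +kernel)
theorem bx1_1 : BoxOK sI cl4 cl13 cl4 t2 t0 b1_1 :=
  box_mk (TrL.c (I.pos (nat_lit 0) (nat_lit 0)) (xa (xb T2.l0 T2.l0) (xb T2.l0 T2.l0))
  (TrL.c (I.pos (nat_lit 0) (nat_lit 0)) T0.l6
  (TrL.c (I.pos (nat_lit 0) (nat_lit 0)) T2.l5
  (TrL.c (I.pos (nat_lit 0) (nat_lit 0)) (xa T0.l7 T0.l7)
  (TrL.c (I.pos (nat_lit 0) (nat_lit 0)) (xa T2.l7 T2.l7)
  (TrL.c (I.pos (nat_lit 0) (nat_lit 0)) T0.l8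
  TrL.n)))))) (by decide +kernel)
theorem bx1_2 : BoxOK sI cl4 cl13 cl4 t2 t0 b1_2 :=
  box_mk (TrL.c (I.pos (nat_lit 0) (nat_lit 0)) (xa (xa (xa (xb T2.l8 (xa T2.l8 T2.l8)) T2.l8) (xa T2.l8 T2.l8)) (xa (xa T2.l8 T2.l8) (xa T2.l8 (xb T2.l8 T2.l0))))
  (TrL.c (I.pos (nat_lit 0) (nat_lit 0)) (xa T0.l6 T0.l6)
  (TrL.c (I.pos (nat_lit 0) (nat_lit 0)) T2.l5
  (TrL.c (I.pos (nat_lit 0) (nat_lit 0)) (xa T0.l7 T0.l7)
  (TrL.c (I.pos (nat_lit 0) (nat_lit 0)) T2.l7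
  (TrL.c (I.pos (nat_lit 0) (nat_lit 0)) (xa T0.l8 T0.l8)
  TrL.n)))))) (by decide +kernel)
theorem bx1_3 : BoxOK sI cl4 cl13 cl4 t2 t0 b1_3 :=
  box_mk (TrL.c (I.pos (nat_lit 0) (nat_lit 0)) (xa T2.l8 T2.l8)
  (TrL.c (I.pos (nat_lit 0) (nat_lit 0)) (xa (xa T0.l6 T0.l6) T0.l6)
  (TrL.c (I.pos (nat_lit 0) (nat_lit 0)) T2.l5
  (TrL.c (I.pos (nat_lit 0) (nat_lit 0)) (xa (xa T0.l7 T0.l7) T0.l7)
  (TrL.c (I.pos (nat_lit 0) (nat_lit 0)) T2.l7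
  (TrL.c (I.pos (nat_lit 0) (nat_lit 0)) (xa (xa T0.l8 T0.l8) T0.l8)
  TrL.n)))))) (by decide +kernel)
theorem bx1_4 : BoxOK sI cl4 cl13 cl4 t2 t0 b1_4 :=
  box_mk (TrL.c (I.pos (nat_lit 0) (nat_lit 0)) (xb (xa (xb (xa T2.l9 T2.l9) (xa T2.l9 T2.l9)) (xb (xa T2.l9 (xb (xa T2.l9 T2.l9) (xa T2.l9 T2.l9))) (xa T2.l9 (xb (xa T2.l9 T2.l9) (xa T2.l9 T2.l9))))) (xa (xb (xa (xb T2.l9 (xa T2.l9 T2.l9)) (xb T2.l9 T2.l9)) (xa (xb (xa T2.l9 T2.l9) (xa (xd T2.l9 T2.l9) (xd T2.l9 T2.l9))) (xb T2.l9 (xa T2.l9 T2.l9)))) (xb (xa T2.l9 (xb (xa T2.l9 T2.l9) (xa T2.l9 T2.l9))) (xa (xb T2.l9 (xa T2.l9 T2.l9)) (xb (xa T2.l9 T2.l0) (xa T2.l9 T2.l0))))))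
  (TrL.c (I.pos (nat_lit 0) (nat_lit 0)) (xb (xa (xb T0.l6 T0.l6) (xb T0.l6 T0.l6)) (xa (xb T0.l6 (xa T0.l6 T0.l6)) (xb T0.l6 (xa T0.l6 T0.l6))))
  (TrL.c (I.pos (nat_lit 0) (nat_lit 0)) T2.l5
  (TrL.c (I.pos (nat_lit 0) (nat_lit 0)) (xb T0.l7 T0.l7)
  (TrL.c (I.pos (nat_lit 0) (nat_lit 0)) (xb T2.l10 T2.l6)
  (TrL.c (I.pos (nat_lit 0) (nat_lit 0)) (xb (xa (xb T0.l8 T0.l8) (xb T0.l8 T0.l8)) (xa (xb T0.l8 (xa T0.l8 T0.l8)) (xb T0.l8 (xa T0.l8 T0.l8))))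
  TrL.n)))))) (by decide +kernel)
theorem bx1_5 : BoxOK sI cl4 cl13 cl4 t2 t0 b1_5 :=
  box_mk (TrL.c (I.pos (nat_lit 0) (nat_lit 0)) (xb (xa T2.l0 T2.l0) (xa (xb T2.l0 (xa (xb T2.l8 T2.l8) T2.l8)) (xb T2.l0 (xa T2.l0 T2.l0))))
  (TrL.c (I.pos (nat_lit 0) (nat_lit 0)) (xb T0.l6 T0.l6)
  (TrL.c (I.pos (nat_lit 0) (nat_lit 0)) T2.l5
  (TrL.c (I.pos (nat_lit 0) (nat_lit 0)) T0.l7
  (TrL.c (I.pos (nat_lit 0) (nat_lit 0)) T2.l7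
  (TrL.c (I.pos (nat_lit 0) (nat_lit 0)) (xb T0.l8 T0.l8)
  TrL.n)))))) (by decide +kernel)
theorem bx1_6 : BoxOK sI cl4 cl13 cl4 t2 t0 b1_6 :=
  box_mk (TrL.c (I.pos (nat_lit 0) (nat_lit 0)) (xa (xa (xb (xa T2.l8 T2.l8) (xa (xb (xa T2.l8 T2.l8) (xa (xb T2.l8 T2.l8) T2.l8)) (xb T2.l8 (xa T2.l8 T2.l8)))) (xb T2.l8 (xa T2.l8 T2.l8))) (xa (xb T2.l8 (xa T2.l8 T2.l8)) (xb (xa T2.l8 T2.l8) (xa (xb T2.l8 (xa T2.l8 T2.l8)) (xb T2.l8 (xa T2.l8 T2.l0))))))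
  (TrL.c (I.pos (nat_lit 0) (nat_lit 0)) (xa (xa (xb T0.l6 T0.l6) T0.l6) T0.l6)
  (TrL.c (I.pos (nat_lit 0) (nat_lit 0)) T2.l5
  (TrL.c (I.pos (nat_lit 0) (nat_lit 0)) (xa (xa T0.l7 T0.l7) T0.l7)
  (TrL.c (I.pos (nat_lit 0) (nat_lit 0)) T2.l7
  (TrL.c (I.pos (nat_lit 0) (nat_lit 0)) (xa (xa (xb T0.l8 T0.l8) T0.l8) T0.l8)
  TrL.n)))))) (by decide +kernel)
theorem bx1_7 : BoxOK sI cl4 cl13 cl4 t2 t0 b1_7 :=
  box_mk (TrL.c (I.pos (nat_lit 0) (nat_lit 0)) (xa (xa (xb (xa (xb (xa T2.l8 T2.l8) T2.l8) T2.l8) T2.l8) T2.l8) T2.l8)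
  (TrL.c (I.pos (nat_lit 0) (nat_lit 0)) (xa (xa T0.l6 T0.l6) T0.l6)
  (TrL.c (I.pos (nat_lit 0) (nat_lit 0)) T2.l5
  (TrL.c (I.pos (nat_lit 0) (nat_lit 0)) (xa (xa T0.l7 T0.l7) T0.l7)
  (TrL.c (I.pos (nat_lit 0) (nat_lit 0)) (xa T2.l7 T2.l7)
  (TrL.c (I.pos (nat_lit 0) (nat_lit 0)) (xa (xa T0.l8 T0.l8) T0.l8)
  TrL.n)))))) (by decide +kernel)
def rc1_8_0_l : Tr := (xa (xb (xa (xb (xa T2.l0 T2.l0) (xa T2.l0 T2.l0)) (xb (xa T2.l0 T2.l0) (xa T2.l0 T2.l0))) (xa (xb (xa (xc T2.l0 T2.l0) T2.l0) (xa (xc (xd T2.l0 T2.l0) T2.l0) (xc T2.l0 T2.l0))) (xb (xa T2.l0 T2.l0) (xa (xc T2.l0 T2.l0) (xc T2.l0 T2.l0))))) (xb (xa (xb (xb T2.l2 T2.l2) (xb T2.l2 T2.l2)) (xb (xb (xa T2.l0 T2.l2) T2.l2) (xb (xa T2.l0 T2.l2) T2.l2))) (xa (xb T2.l2 T2.l2) T2.l2)))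
theorem qc1_8_0_l : chkTr (tg true true false RT.r2) b1_8 t2 rc1_8_0_l
  (upd lo Co.b (rc sI cl4 cl13 cl4 b1_8 (I.pos (nat_lit 0) (nat_lit 0)))) = true := by decide +kernel
def rc1_8_0_r : Tr := (xa (xb (xa (xb (xa (xc (xd T2.l0 T2.l0) T2.l0) (xc (xd T2.l0 T2.l0) T2.l0)) (xa (xc (xd T2.l0 T2.l0) T2.l0) (xd (xc T2.l0 T2.l0) (xc T2.l0 T2.l0)))) (xb (xa (xc T2.l0 T2.l0) (xc (xd T2.l0 T2.l0) T2.l0)) (xa (xc (xd T2.l0 T2.l0) T2.l0) (xc (xd T2.l0 T2.l0) T2.l0)))) (xa (xb (xa (xd (xc T2.l0 T2.l0) (xc (xs T2.l0 T2.l0) T2.l0)) (xd (xc T2.l0 T2.l0) (xc T2.l0 T2.l0))) (xa (xd (xc (xs T2.l0 T2.l0) (xs T2.l0 T2.l0)) (xc (xs T2.l0 T2.l0) (xs T2.l0 T2.l0))) (xd (xc (xs T2.l0 T2.l0) (xs T2.l0 T2.l0)) (xc (xs T2.l0 T2.l0) (xs T2.l0 T2.l0))))) (xb (xa (xd (xc T2.l0 T2.l0) (xc T2.l0 T2.l0)) (xd (xc (xs T2.l0 T2.l0) T2.l0) (xc (xs T2.l0 T2.l0) T2.l0)))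 (xa (xd (xc (xs T2.l0 T2.l0) (xs T2.l0 T2.l0)) (xc (xs T2.l0 T2.l0) (xs T2.l0 T2.l0))) (xd (xc (xs T2.l0 T2.l2) T2.l0) (xc (xs T2.l0 T2.l2) (xs T2.l0 T2.l0))))))) (xb (xa (xb T2.l2 T2.l2) T2.l2) (xa (xb (xa T2.l2 T2.l2) (xa (xd (xc T2.l2 (xs T2.l0 T2.l0)) (xc T2.l2 (xs T2.l0 T2.l0))) (xd T2.l2 T2.l2))) (xb T2.l2 (xa (xd T2.l2 T2.l2) T2.l2)))))
theorem qc1_8_0_r : chkTr (tg true true false RT.r2) b1_8 t2 rc1_8_0_r
  (upd hi Co.b (rc sI cl4 cl13 cl4 b1_8 (I.pos (nat_lit 0) (nat_lit 0)))) = true := by decide +kernel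
theorem qc1_8_0_ : chkTr (tg true true false RT.r2) b1_8 t2 (Tr.N Co.b rc1_8_0_l rc1_8_0_r)
  (rc sI cl4 cl13 cl4 b1_8 (I.pos (nat_lit 0) (nat_lit 0))) = true := tr_split qc1_8_0_l qc1_8_0_r
theorem c1_8_0 : chkTag sI cl4 cl13 cl4 t2 b1_8 (tg true true false RT.r2) (I.pos (nat_lit 0) (nat_lit 0))
  (Tr.N Co.b rc1_8_0_l rc1_8_0_r) = true := tag_mk (by decide +kernel) qc1_8_0_
theorem c1_8_1 : chkTag sI cl4 cl13 cl4 t0 b1_8 (tg true false false RT.r3) (I.pos (nat_lit 0) (nat_lit 0))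
  (xa (xb (xa (xb (xc T0.l6 T0.l6) (xc T0.l6 T0.l6)) (xb (xc T0.l6 T0.l6) (xc T0.l6 (xd T0.l6 T0.l6)))) (xa (xb (xc (xd T0.l6 T0.l6) (xd T0.l6 T0.l6)) (xc (xd T0.l6 T0.l6) (xd T0.l6 T0.l6))) (xb (xc (xd T0.l6 T0.l6) (xd T0.l6 T0.l6)) (xc (xd T0.l6 T0.l6) (xd T0.l6 T0.l6))))) (xb (xa (xb (xc T0.l6 (xd T0.l6 T0.l6)) (xc T0.l6 (xd T0.l6 T0.l6))) (xb (xc (xd T0.l6 T0.l6) (xd T0.l6 T0.l6)) (xc (xd T0.l6 T0.l6) (xd T0.l6 T0.l6)))) (xa (xb (xc (xd T0.l6 T0.l6) (xd T0.l6 T0.l6)) (xc (xd T0.l6 T0.l6) (xd T0.l6 (xa T0.l6 T0.l6)))) (xb (xc (xd T0.l6 T0.l6) (xd (xa T0.l6 T0.l6) (xa T0.l6 T0.l6))) (xc (xd (xa T0.l6 T0.l6) (xa T0.l6 T0.l6)) (xd (xa T0.l6 T0.l6) (xa T0.l6 T0.l6))))))) = true := by decide +kernel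
theorem c1_8_2 : chkTag sI cl4 cl13 cl4 t2 b1_8 (tg true true true RT.r4) (I.pos (nat_lit 0) (nat_lit 0))
  (xc (xa T2.l5 T2.l3) (xa (xb T2.l5 T2.l5) T2.l3)) = true := by decide +kernel
theorem c1_8_3 : chkTag sI cl4 cl13 cl4 t0 b1_8 (tg false false false RT.r3) (I.pos (nat_lit 0) (nat_lit 0))
  (xb (xa (xc (xb (xa T0.l7 T0.l7) T0.l7) (xb T0.l7 T0.l7)) (xa (xc (xb (xd T0.l7 T0.l7) (xd T0.l7 T0.l7)) (xb T0.l7 T0.l7)) (xc (xb T0.l9 (xd (xc T0.l7 T0.l7) (xa T0.l7 T0.l7))) (xb (xd (xa T0.l7 (xb T0.l7 T0.l7)) (xa T0.l7 T0.l7)) (xd (xa T0.l7 (xc T0.l7 T0.l7)) T0.l7))))) (xa (xc (xb T0.l7 T0.l7) (xb T0.l7 T0.l7)) (xc (xa (xb (xd T0.l7 T0.l7) (xd T0.l7 T0.l7)) (xb (xd (xa T0.l7 T0.l7) (xa T0.l7 T0.l7)) (xd (xa T0.l7 T0.l7) (xa T0.l7 T0.l7)))) (xa (xb T0.l7 (xd T0.l7 T0.l7)) (xb (xd (xa T0.l7 T0.l7) T0.l7) (xd (xa T0.l7 T0.l7) (xa T0.l7 T0.l7)))))))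 = true := by decide +kernel
theorem c1_8_4 : chkTag sI cl4 cl13 cl4 t2 b1_8 (tg false true false RT.r4) (I.pos (nat_lit 0) (nat_lit 0))
  (xa (xc (xb T2.l6 T2.l6) (xb T2.l6 T2.l6)) (xc T2.l1 T2.l1)) = true := by decide +kernel
theorem c1_8_5 : chkTag sI cl4 cl13 cl4 t0 b1_8 (tg false false true RT.r5) (I.pos (nat_lit 0) (nat_lit 0))
  (xa (xb (xa (xb (xc T0.l8 T0.l8) (xc T0.l8 T0.l8)) (xb (xc T0.l8 T0.l8) (xc T0.l8 (xd T0.l8 T0.l8)))) (xa (xb (xc (xd T0.l8 T0.l8) (xd T0.l8 T0.l8)) (xc (xd T0.l8 T0.l8) (xd T0.l8 T0.l8))) (xb (xc (xd T0.l8 T0.l8) (xd T0.l8 T0.l8)) (xc (xd T0.l8 T0.l8) (xd T0.l8 T0.l8))))) (xb (xa (xb (xc T0.l8 (xd T0.l8 T0.l8)) (xc T0.l8 (xd T0.l8 T0.l8))) (xb (xc (xd T0.l8 T0.l8) (xd T0.l8 T0.l8)) (xc (xd T0.l8 T0.l8) (xd T0.l8 T0.l8)))) (xa (xb (xc (xd T0.l8 T0.l8) (xd T0.l8 T0.l8)) (xc (xd T0.l8 T0.l8) (xd T0.l8 (xa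 T0.l8 T0.l8)))) (xb (xc (xd T0.l8 T0.l8) (xd (xa T0.l8 T0.l8) (xa T0.l8 T0.l8))) (xc (xd (xa T0.l8 T0.l8) (xa T0.l8 T0.l8)) (xd (xa T0.l8 T0.l8) (xa T0.l8 T0.l8))))))) = true := by decide +kernel
theorem bx1_8 : BoxOK sI cl4 cl13 cl4 t2 t0 b1_8 :=
  box_mk' [(tg true true false RT.r2), (tg true false false RT.r3), (tg true true true RT.r4), (tg false false false RT.r3), (tg false true false RT.r4), (tg false false true RT.r5)] rfl (allL_c (ex_mk c1_8_0) (allL_c (ex_mk c1_8_1) (allL_c (ex_mk c1_8_2) (allL_c (ex_mk c1_8_3) (allL_c (ex_mk c1_8_4) (allL_c (ex_mk c1_8_5) allL_n))))))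
theorem bx1_9 : BoxOK sI cl4 cl13 cl4 t2 t0 b1_9 :=
  box_mk (TrL.c (I.pos (nat_lit 0) (nat_lit 0)) (xb (xa (xb (xa (xb T2.l9 T2.l9) (xb T2.l9 T2.l9)) (xa (xb T2.l9 T2.l9) (xb T2.l9 T2.l9))) (xb (xa (xb (xd T2.l9 T2.l9) T2.l9) (xb (xd T2.l9 T2.l9) (xd T2.l9 T2.l9))) (xa (xb T2.l9 T2.l9) (xb T2.l9 T2.l9)))) (xa (xb (xa (xb T2.l9 T2.l9) (xb T2.l9 T2.l9)) (xa (xb T2.l9 (xa T2.l9 T2.l9)) (xb T2.l9 T2.l9))) (xb (xa (xb T2.l9 T2.l9) (xb T2.l9 T2.l9)) (xa (xb T2.l9 T2.l9) (xb T2.l9 T2.l9)))))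
  (TrL.c (I.pos (nat_lit 0) (nat_lit 0)) (xb (xa (xb (xa T0.l6 T0.l6) (xa T0.l6 T0.l6)) (xb (xa T0.l6 T0.l6) (xa T0.l6 T0.l6))) (xa (xb T0.l6 (xa T0.l6 T0.l6)) (xb (xa T0.l6 T0.l6) (xa T0.l6 T0.l6))))
  (TrL.c (I.pos (nat_lit 0) (nat_lit 0)) (xb T2.l5 T2.l5)
  (TrL.c (I.pos (nat_lit 0) (nat_lit 0)) (xb (xa (xb (xa T0.l7 T0.l7) T0.l7) (xb (xa (xc (xd T0.l7 T0.l7) T0.l7) (xd (xc T0.l7 T0.l7) (xc T0.l7 T0.l7))) (xa T0.l7 T0.l7))) (xa T0.l7 T0.l7))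
  (TrL.c (I.pos (nat_lit 0) (nat_lit 0)) (xb T2.l10 T2.l10)
  (TrL.c (I.pos (nat_lit 0) (nat_lit 0)) (xb (xa (xb (xa T0.l8 T0.l8) (xa T0.l8 T0.l8)) (xb (xa T0.l8 T0.l8) (xa T0.l8 T0.l8))) (xa (xb T0.l8 (xa T0.l8 T0.l8)) (xb (xa T0.l8 T0.l8) (xa T0.l8 T0.l8))))
  TrL.n)))))) (by decide +kernel)
theorem bx1_10 : BoxOK sI cl4 cl13 cl4 t2 t0 b1_10 :=
  box_mk (TrL.c (I.pos (nat_lit 0) (nat_lit 0)) T2.l0
  (TrL.c (I.pos (nat_lit 0) (nat_lit 0)) T0.l6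
  (TrL.c (I.pos (nat_lit 0) (nat_lit 0)) T2.l5
  (TrL.c (I.pos (nat_lit 0) (nat_lit 0)) T0.l7
  (TrL.c (I.pos (nat_lit 0) (nat_lit 0)) T2.l7
  (TrL.c (I.pos (nat_lit 0) (nat_lit 0)) T0.l8
  TrL.n)))))) (by decide +kernel)
theorem bx1_11 : BoxOK sI cl4 cl13 cl4 t2 t0 b1_11 :=
  box_mk (TrL.c (I.pos (nat_lit 0) (nat_lit 0)) T2.l8
  (TrL.c (I.pos (nat_lit 0) (nat_lit 0)) T0.l6
  (TrL.c (I.pos (nat_lit 0) (nat_lit 0)) T2.l5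
  (TrL.c (I.pos (nat_lit 0) (nat_lit 0)) T0.l7
  (TrL.c (I.pos (nat_lit 0) (nat_lit 0)) T2.l7
  (TrL.c (I.pos (nat_lit 0) (nat_lit 0)) T0.l8
  TrL.n)))))) (by decide +kernel)
theorem bx1_12 : BoxOK sI cl4 cl13 cl4 t2 t0 b1_12 :=
  box_mk (TrL.c (I.pos (nat_lit 0) (nat_lit 0)) (xa T2.l8 T2.l8)
  (TrL.c (I.pos (nat_lit 0) (nat_lit 0)) (xa T0.l6 T0.l6)
  (TrL.c (I.pos (nat_lit 0) (nat_lit 0)) T2.l5
  (TrL.c (I.pos (nat_lit 0) (nat_lit 0)) (xa T0.l7 T0.l7)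
  (TrL.c (I.pos (nat_lit 0) (nat_lit 0)) T2.l7
  (TrL.c (I.pos (nat_lit 0) (nat_lit 0)) (xa T0.l8 T0.l8)
  TrL.n)))))) (by decide +kernel)
theorem bx1_13 : BoxOK sI cl4 cl13 cl4 t2 t0 b1_13 :=
  box_mk (TrL.c (I.pos (nat_lit 0) (nat_lit 0)) T2.l8
  (TrL.c (I.pos (nat_lit 0) (nat_lit 0)) T0.l6
  (TrL.c (I.pos (nat_lit 0) (nat_lit 0)) T2.l5
  (TrL.c (I.pos (nat_lit 0) (nat_lit 0)) T0.l7
  (TrL.c (I.pos (nat_lit 0) (nat_lit 0)) T2.l7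
  (TrL.c (I.pos (nat_lit 0) (nat_lit 0)) T0.l8
  TrL.n)))))) (by decide +kernel)
theorem bx1_14 : BoxOK sI cl4 cl13 cl4 t2 t0 b1_14 :=
  box_mk (TrL.c (I.pos (nat_lit 0) (nat_lit 0)) (xa (xb T2.l0 T2.l0) T2.l2)
  (TrL.c (I.pos (nat_lit 0) (nat_lit 0)) (xa (xb T0.l6 T0.l6) (xb (xa T0.l6 T0.l2) (xa T0.l6 T0.l2)))
  (TrL.c (I.pos (nat_lit 0) (nat_lit 0)) T2.l3
  (TrL.c (I.pos (nat_lit 0) (nat_lit 0)) (xa T0.l7 T0.l0)
  (TrL.c (I.pos (nat_lit 0) (nat_lit 0)) T2.l1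
  (TrL.c (I.pos (nat_lit 0) (nat_lit 0)) (xa (xb T0.l8 T0.l8) (xb (xa T0.l8 (xd T0.l1 T0.l1)) (xa T0.l8 T0.l1)))
  TrL.n)))))) (by decide +kernel)
theorem bx1_15 : BoxOK sI cl4 cl13 cl4 t2 t0 b1_15 :=
  box_mk (TrL.c (I.pos (nat_lit 0) (nat_lit 0)) T2.l0
  (TrL.c (I.pos (nat_lit 0) (nat_lit 0)) T0.l6
  (TrL.c (I.pos (nat_lit 0) (nat_lit 0)) T2.l5
  (TrL.c (I.pos (nat_lit 0) (nat_lit 0)) T0.l7
  (TrL.c (I.pos (nat_lit 0) (nat_lit 0)) T2.l10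
  (TrL.c (I.pos (nat_lit 0) (nat_lit 0)) T0.l8
  TrL.n)))))) (by decide +kernel)
theorem sv1 : StarV sI cl4 cl13 cl4 t2 t0 t1 :=
  (bt_n (bt_n (bt_n (bt_n (bt_b bx1_0) (bt_b bx1_1)) (bt_n (bt_b bx1_2) (bt_b bx1_3))) (bt_n (bt_n (bt_b bx1_4) (bt_b bx1_5)) (bt_n (bt_b bx1_6) (bt_b bx1_7)))) (bt_n (bt_n (bt_n (bt_b bx1_8) (bt_b bx1_9)) (bt_n (bt_b bx1_10) (bt_b bx1_11))) (bt_n (bt_n (bt_b bx1_12) (bt_b bx1_13)) (bt_n (bt_b bx1_14) (bt_b bx1_15)))))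
def S1 : StarD := StarD.mk cl4 cl13 cl4 2 0 t1
theorem c2_0_0 : chkTag sI cl13 cl4 cl4 t1 b2_0 (tg true true false RT.r2) (I.pos (nat_lit 0) (nat_lit 0))
  (xa (xb (xa (xb T1.l8 T1.l8) (xb (xa T1.l8 (xc T1.l8 T1.l0)) (xa T1.l8 (xc T1.l8 (xk T1.l0 T1.l0))))) (xa (xb (xa T1.l8 T1.l8) (xa (xc (xb T1.l8 T1.l8) (xb T1.l8 (xk (xa T1.l0 T1.l0) (xa T1.l0 T1.l0)))) (xc (xb T1.l8 T1.l8) (xb (xk T1.l0 T1.l0) (xk (xa T1.l0 T1.l0) (xa T1.l0 T1.l0)))))) (xb (xa T1.l8 (xc T1.l8 (xb T1.l0 T1.l0))) (xa (xc (xb T1.l8 T1.l8) (xb (xk T1.l0 T1.l0) (xk (xa T1.l0 T1.l0) T1.l0))) (xc (xb T1.l8 T1.l8) (xb (xk T1.l0 T1.l0) (xk (xs T1.l0 T1.l0) T1.l0))))))) (xb (xa (xb (xa (xc T1.l0 T1.l0) T1.l0) (xa (xc T1.l0 T1.l0) (xc T1.l0 T1.l0))) (xb (xa T1.l0 T1.l0) (xa T1.l0 T1.l0))) (xa (xb (xa (xc (xb T1.l0 T1.l0) (xb T1.l0 T1.l0)) (xc T1.l0 (xk T1.l0 T1.l0))) (xa (xc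 (xb T1.l0 (xk T1.l0 T1.l0)) (xb (xk T1.l0 T1.l0) (xk (xs T1.l0 T1.l0) T1.l0))) (xc (xb T1.l0 (xk T1.l0 T1.l0)) (xb (xk T1.l0 T1.l0) (xk (xs T1.l0 T1.l0) T1.l0))))) (xb (xa (xc T1.l0 (xk T1.l0 T1.l0)) (xc T1.l0 (xk T1.l0 T1.l0))) (xa (xc (xb T1.l0 (xk T1.l0 T1.l0)) (xk (xb T1.l0 (xs T1.l0 T1.l0)) (xb T1.l0 T1.l0))) (xc (xk (xb T1.l0 T1.l0) T1.l0) (xk (xb T1.l0 (xs T1.l0 T1.l0)) (xb T1.l0 T1.l0)))))))) = true := by decide +kernel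
theorem c2_0_1 : chkTag sI cl13 cl4 cl4 t1 b2_0 (tg true false false RT.r3) (I.pos (nat_lit 0) (nat_lit 0))
  (xa (xb T1.l1 (xk (xa T1.l1 T1.l1) (xa T1.l1 T1.l1))) (xb (xk T1.l1 T1.l1) (xk (xa T1.l1 T1.l1) (xa T1.l1 T1.l1)))) = true := by decide +kernel
theorem c2_0_2 : chkTag sI cl13 cl4 cl4 t1 b2_0 (Tag.mk true true false RT.tl RT.r4) (I.pos (nat_lit 0) (nat_lit 134217730))
  (xR T1.l6 (xR T1.l2 (xR T1.l2 (xa T1.l2 T1.l6)))) = true := by decide +kernel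
theorem c2_0_3 : chkTag sI cl13 cl4 cl4 t1 b2_0 (Tag.mk true false false RT.tl RT.r5) (I.pos (nat_lit 0) (nat_lit 110514882))
  (xR T1.l6 (xR T1.l3 (xR T1.l3 (xa T1.l3 (xk T1.l3 T1.l3))))) = true := by decide +kernel
theorem c2_0_4 : chkTag sI cl13 cl4 cl4 t1 b2_0 (tg false false false RT.r3) (I.pos (nat_lit 0) (nat_lit 0))
  (xa (xb (xk T1.l9 T1.l9) (xk (xa T1.l4 T1.l4) (xa T1.l4 T1.l4))) (xb (xk (xa (xb T1.l4 T1.l4) (xb (xk T1.l4 T1.l4) T1.l4)) (xa (xb T1.l4 T1.l4) (xb T1.l4 T1.l4))) (xk (xa (xb T1.l4 T1.l4) (xb (xk T1.l4 T1.l4) (xk T1.l4 T1.l4))) (xa T1.l4 (xb T1.l4 T1.l4))))) = true := by decide +kernel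
theorem c2_0_5 : chkTag sI cl13 cl4 cl4 t1 b2_0 (tg false true false RT.r4) (I.pos (nat_lit 0) (nat_lit 0))
  (xb (xa T1.l5 T1.l5) (xa T1.l5 (xk T1.l5 T1.l5))) = true := by decide +kernel
theorem c2_0_6 : chkTag sI cl13 cl4 cl4 t1 b2_0 (Tag.mk false false false RT.tl RT.r5) (I.mix (nat_lit 8088324) (nat_lit 110514882))
  (xR T1.l6 (xR T1.l6 (xR T1.l6 (xb (xR T1.l6 T1.l6) (xk (xR T1.l6 T1.l6) T1.l6))))) = true := by decide +kernel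
theorem c2_0_7 : chkTag sI cl13 cl4 cl4 t1 b2_0 (Tag.mk false true false RT.tl RT.r6) (I.mix (nat_lit 8088324) (nat_lit 89478486))
  (xR T1.l7 (xR T1.l7 (xR T1.l7 T1.l7))) = true := by decide +kernel
theorem bx2_0 : BoxOK sI cl13 cl4 cl4 t1 t1 b2_0 :=
  box_mk' [(tg true true false RT.r2), (tg true false false RT.r3), (Tag.mk true true false RT.tl RT.r4), (Tag.mk true false false RT.tl RT.r5), (tg false false false RT.r3), (tg false true false RT.r4), (Tag.mk false false false RT.tl RT.r5), (Tag.mk false true false RT.tl RT.r6)] rfl (allL_c (ex_mk c2_0_0) (allL_c (ex_mk c2_0_1) (allL_c (ex_mk c2_0_2) (allL_c (ex_mk c2_0_3) (allL_c (ex_mk c2_0_4) (allL_c (ex_mk c2_0_5) (allL_c (ex_mk c2_0_6) (allL_c (ex_mk c2_0_7) allL_n))))))))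
theorem bx2_1 : BoxOK sI cl13 cl4 cl4 t1 t1 b2_1 :=
  box_mk (TrL.c (I.pos (nat_lit 0) (nat_lit 0)) (xb (xa (xb (xa T1.l8 T1.l8) T1.l8) (xb T1.l8 T1.l8)) (xa (xb T1.l8 (xa T1.l8 T1.l8)) (xb T1.l8 T1.l8)))
  (TrL.c (I.pos (nat_lit 0) (nat_lit 0)) (xb (xa (xk T1.l1 T1.l1) (xk T1.l1 T1.l1)) (xa (xk T1.l1 T1.l1) (xk T1.l1 T1.l1)))
  (TrL.c (I.pos (nat_lit 0) (nat_lit 134217730)) (xR T1.l2 (xR T1.l2 (xR T1.l2 (xb (xR T1.l2 T1.l11) T1.l2))))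
  (TrL.c (I.pos (nat_lit 0) (nat_lit 110514882)) (xR T1.l3 (xR T1.l6 T1.l6))
  (TrL.c (I.pos (nat_lit 0) (nat_lit 0)) (xb (xa (xk T1.l9 T1.l9) (xk (xb (xa T1.l9 T1.l9) T1.l9) (xb T1.l9 T1.l9))) (xa (xk T1.l9 T1.l9) (xk T1.l9 T1.l9)))
  (TrL.c (I.pos (nat_lit 0) (nat_lit 0)) (xb T1.l5 T1.l5)
  (TrL.c (I.mix (nat_lit 8088324) (nat_lit 110514882)) (xR T1.l6 (xR T1.l6 (xR T1.l6 (xb (xk (xR T1.l6 T1.l6) T1.l6) T1.l6))))
  (TrL.c (I.mix (nat_lit 8088324) (nat_lit 89478486)) T1.l6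
  TrL.n)))))))) (by decide +kernel)
theorem c2_2_0 : chkTag sI cl13 cl4 cl4 t1 b2_2 (tg true true false RT.r2) (I.pos (nat_lit 0) (nat_lit 0))
  (xb (xa (xb (xa (xb (xb (xk T1.l8 T1.l8) T1.l8) T1.l8) (xb (xb (xk T1.l8 T1.l8) T1.l8) T1.l8)) (xa (xb T1.l8 (xc T1.l8 T1.l8)) (xb T1.l8 T1.l8))) (xb (xa (xb (xb T1.l8 T1.l8) T1.l8) (xb (xb T1.l8 T1.l8) T1.l8)) (xa T1.l8 (xb T1.l8 T1.l8)))) (xa (xb (xa (xb (xc T1.l8 T1.l8) (xc (xk T1.l8 T1.l8) (xk T1.l8 T1.l8))) (xb T1.l8 (xc T1.l8 T1.l8))) (xa (xb (xc (xk (xa T1.l8 T1.l8) T1.l8) (xk T1.l8 T1.l8)) (xc (xk (xa T1.l8 T1.l8) (xa T1.l8 T1.l8)) (xk (xa (xb T1.l8 T1.l8) T1.l8) (xa T1.l8 T1.l8)))) (xb (xc (xk T1.l8 T1.l8) (xk T1.l8 T1.l8)) (xc (xk (xa T1.l8 T1.l8) (xa T1.l8 T1.l8)) (xk (xa T1.l8 T1.l8) (xa T1.l8 T1.l8)))))) (xb (xa (xb T1.l8 T1.l8) (xb T1.l8 (xk T1.l8 T1.l8))) (xa (xb (xc T1.l8 (xk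 T1.l8 T1.l8)) (xk (xc T1.l8 (xa T1.l8 T1.l8)) (xc T1.l8 (xa T1.l8 T1.l8)))) (xb (xk (xc T1.l8 T1.l8) T1.l8) (xk (xc T1.l8 (xa T1.l8 T1.l8)) (xc T1.l8 (xa T1.l8 T1.l8)))))))) = true := by decide +kernel
theorem c2_2_1 : chkTag sI cl13 cl4 cl4 t1 b2_2 (tg true false false RT.r3) (I.pos (nat_lit 0) (nat_lit 0))
  (xb (xb (xk (xa T1.l1 T1.l1) T1.l1) (xa (xk T1.l1 T1.l1) (xk T1.l1 T1.l1))) (xa (xk (xb T1.l1 (xa T1.l1 T1.l1)) (xb T1.l1 T1.l1)) (xk (xb T1.l1 (xa T1.l1 T1.l1)) (xb T1.l1 (xa T1.l1 T1.l1))))) = true := by decide +kernel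
theorem c2_2_2 : chkTag sI cl13 cl4 cl4 t1 b2_2 (Tag.mk true true false RT.tl RT.r4) (I.pos (nat_lit 0) (nat_lit 134217730))
  (xR T1.l6 (xR T1.l2 (xb (xR T1.l2 T1.l2) (xR T1.l2 (xR T1.l2 (xb T1.l2 T1.l2)))))) = true := by decide +kernel
theorem c2_2_3 : chkTag sI cl13 cl4 cl4 t1 b2_2 (Tag.mk true false false RT.tl RT.r5) (I.pos (nat_lit 0) (nat_lit 110514882))
  (xR T1.l3 (xR T1.l3 (xR T1.l3 (xb (xk (xR T1.l3 T1.l3) T1.l3) (xk (xR T1.l3 T1.l3) T1.l3))))) = true := by decide +kernel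
theorem c2_2_4 : chkTag sI cl13 cl4 cl4 t1 b2_2 (tg false false false RT.r3) (I.pos (nat_lit 0) (nat_lit 0))
  (xb (xa (xb (xk T1.l9 T1.l9) T1.l9) (xk (xb T1.l9 T1.l9) (xb T1.l9 T1.l9))) (xk (xa T1.l9 (xb T1.l9 (xb T1.l9 T1.l4))) (xb T1.l9 (xa T1.l9 (xb T1.l9 T1.l4))))) = true := by decide +kernel
theorem c2_2_5 : chkTag sI cl13 cl4 cl4 t1 b2_2 (tg false true false RT.r4) (I.pos (nat_lit 0) (nat_lit 0))
  (xb T1.l5 (xk T1.l5 T1.l5)) = true := by decide +kernel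
theorem c2_2_6 : chkTag sI cl13 cl4 cl4 t1 b2_2 (Tag.mk false false false RT.tl RT.r5) (I.mix (nat_lit 8088324) (nat_lit 110514882))
  (xR T1.l6 (xR T1.l6 (xb (xR T1.l6 (xk (xR T1.l6 T1.l6) T1.l6)) (xR T1.l6 (xk (xR T1.l6 T1.l6) T1.l6))))) = true := by decide +kernel
theorem c2_2_7 : chkTag sI cl13 cl4 cl4 t1 b2_2 (Tag.mk false true false RT.tl RT.r6) (I.mix (nat_lit 8088324) (nat_lit 89478486))
  (xR T1.l7 (xR T1.l7 (xb (xR T1.l7 T1.l7) T1.l7))) = true := by decide +kernel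
theorem bx2_2 : BoxOK sI cl13 cl4 cl4 t1 t1 b2_2 :=
  box_mk' [(tg true true false RT.r2), (tg true false false RT.r3), (Tag.mk true true false RT.tl RT.r4), (Tag.mk true false false RT.tl RT.r5), (tg false false false RT.r3), (tg false true false RT.r4), (Tag.mk false false false RT.tl RT.r5), (Tag.mk false true false RT.tl RT.r6)] rfl (allL_c (ex_mk c2_2_0) (allL_c (ex_mk c2_2_1) (allL_c (ex_mk c2_2_2) (allL_c (ex_mk c2_2_3) (allL_c (ex_mk c2_2_4) (allL_c (ex_mk c2_2_5) (allL_c (ex_mk c2_2_6) (allL_c (ex_mk c2_2_7) allL_n))))))))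
theorem bx2_3 : BoxOK sI cl13 cl4 cl4 t1 t1 b2_3 :=
  box_mk (TrL.c (I.pos (nat_lit 0) (nat_lit 0)) (xb (xa (xk T1.l1 T1.l10) (xk T1.l1 T1.l1)) (xa (xk T1.l1 T1.l1) (xk T1.l1 T1.l1)))
  (TrL.c (I.pos (nat_lit 0) (nat_lit 0)) (xb T1.l2 T1.l11)
  (TrL.c (I.mix (nat_lit 8088324) (nat_lit 110514882)) (xR (xR T1.l6 T1.l2) (xR T1.l6 (xR T1.l6 T1.l6)))
  (TrL.c (I.mix (nat_lit 8088324) (nat_lit 89478486)) (xR (xR T1.l6 T1.l2) T1.l2)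
  TrL.n)))) (by decide +kernel)
theorem bx2_4 : BoxOK sI cl13 cl4 cl4 t1 t1 b2_4 :=
  box_mk (TrL.c (I.pos (nat_lit 0) (nat_lit 0)) T1.l8
  (TrL.c (I.pos (nat_lit 0) (nat_lit 0)) T1.l1
  (TrL.c (I.pos (nat_lit 0) (nat_lit 134217730)) (xR T1.l2 T1.l2)
  (TrL.c (I.pos (nat_lit 0) (nat_lit 110514882)) (xR T1.l3 T1.l3)
  (TrL.c (I.pos (nat_lit 0) (nat_lit 0)) T1.l9
  (TrL.c (I.pos (nat_lit 0) (nat_lit 0)) T1.l5
  (TrL.c (I.mix (nat_lit 8088324) (nat_lit 110514882)) T1.l6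
  (TrL.c (I.mix (nat_lit 8088324) (nat_lit 89478486)) T1.l7
  TrL.n)))))))) (by decide +kernel)
theorem bx2_5 : BoxOK sI cl13 cl4 cl4 t1 t1 b2_5 :=
  box_mk (TrL.c (I.pos (nat_lit 0) (nat_lit 0)) (xb (xa T1.l10 T1.l10) (xa T1.l10 T1.l10))
  (TrL.c (I.pos (nat_lit 0) (nat_lit 0)) (xb T1.l11 T1.l11)
  (TrL.c (I.mix (nat_lit 8088324) (nat_lit 110514882)) (xR (xR T1.l12 T1.l2) T1.l6)
  (TrL.c (I.mix (nat_lit 8088324) (nat_lit 89478486)) (xR T1.l6 T1.l2)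
  TrL.n)))) (by decide +kernel)
theorem bx2_6 : BoxOK sI cl13 cl4 cl4 t1 t1 b2_6 :=
  box_mk (TrL.c (I.pos (nat_lit 0) (nat_lit 0)) (xb (xa T1.l14 T1.l8) T1.l8)
  (TrL.c (I.pos (nat_lit 0) (nat_lit 0)) T1.l10
  (TrL.c (I.pos (nat_lit 0) (nat_lit 134217730)) (xR T1.l2 T1.l2)
  (TrL.c (I.pos (nat_lit 0) (nat_lit 110514882)) (xR T1.l3 T1.l6)
  (TrL.c (I.pos (nat_lit 0) (nat_lit 0)) (xb (xk T1.l9 T1.l9) T1.l9)
  (TrL.c (I.pos (nat_lit 0) (nat_lit 0)) T1.l5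
  (TrL.c (I.mix (nat_lit 8088324) (nat_lit 110514882)) T1.l6
  (TrL.c (I.mix (nat_lit 8088324) (nat_lit 89478486)) T1.l2
  TrL.n)))))))) (by decide +kernel)
theorem bx2_7 : BoxOK sI cl13 cl4 cl4 t1 t1 b2_7 :=
  box_mk (TrL.c (I.pos (nat_lit 0) (nat_lit 0)) (xb (xa (xb T1.l14 T1.l14) T1.l14) (xa (xb T1.l14 T1.l14) (xa T1.l14 T1.l14)))
  (TrL.c (I.pos (nat_lit 0) (nat_lit 0)) (xk T1.l10 T1.l10)
  (TrL.c (I.pos (nat_lit 0) (nat_lit 134217730)) (xR T1.l2 (xR T1.l2 (xR T1.l2 (xb T1.l2 T1.l2))))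
  (TrL.c (I.pos (nat_lit 0) (nat_lit 110514882)) T1.l6
  (TrL.c (I.pos (nat_lit 0) (nat_lit 0)) (xa (xb T1.l15 T1.l15) (xb T1.l9 T1.l15))
  (TrL.c (I.pos (nat_lit 0) (nat_lit 0)) T1.l5
  (TrL.c (I.mix (nat_lit 8088324) (nat_lit 110514882)) (xR T1.l6 T1.l6)
  (TrL.c (I.mix (nat_lit 8088324) (nat_lit 89478486)) T1.l6
  TrL.n)))))))) (by decide +kernel)
theorem c2_8_0 : chkTag sI cl13 cl4 cl4 t1 b2_8 (tg true true false RT.r2) (I.pos (nat_lit 0) (nat_lit 0))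
  (xa (xb (xa (xb T1.l0 T1.l0) (xb T1.l0 T1.l0)) (xa (xb (xa T1.l0 T1.l0) (xa (xc T1.l0 T1.l0) (xc T1.l0 T1.l0))) (xb (xa T1.l0 T1.l0) (xa (xc T1.l0 T1.l0) (xc T1.l0 T1.l0))))) (xb (xa (xb T1.l0 T1.l0) (xb T1.l0 (xa T1.l0 T1.l0))) (xa (xb (xa T1.l0 T1.l0) (xa (xc T1.l0 T1.l0) (xc T1.l0 T1.l0))) (xb (xa T1.l0 T1.l0) (xa (xc T1.l0 T1.l0) (xc T1.l0 T1.l0)))))) = true := by decide +kernel
theorem c2_8_1 : chkTag sI cl13 cl4 cl4 t1 b2_8 (tg true false false RT.r3) (I.pos (nat_lit 0) (nat_lit 0))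
  (xa (xb T1.l1 (xk (xa T1.l1 T1.l1) T1.l1)) (xk (xb (xa T1.l1 T1.l5) (xa T1.l1 (xb T1.l1 T1.l1))) (xb T1.l1 (xa T1.l1 T1.l1)))) = true := by decide +kernel
theorem c2_8_2 : chkTag sI cl13 cl4 cl4 t1 b2_8 (Tag.mk true true false RT.tl RT.r4) (I.pos (nat_lit 0) (nat_lit 134217730))
  (xR (xR T1.l2 T1.l2) (xR T1.l2 T1.l6)) = true := by decide +kernel
theorem c2_8_3 : chkTag sI cl13 cl4 cl4 t1 b2_8 (Tag.mk true false false RT.tl RT.r5) (I.pos (nat_lit 0) (nat_lit 110514882))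
  (xR T1.l6 (xR T1.l3 (xR T1.l3 (xa T1.l3 (xk (xR T1.l3 T1.l3) T1.l3))))) = true := by decide +kernel
theorem c2_8_4 : chkTag sI cl13 cl4 cl4 t1 b2_8 (tg false false false RT.r3) (I.pos (nat_lit 0) (nat_lit 0))
  (xa (xb (xk (xa (xb (xk T1.l4 T1.l4) T1.l4) (xb (xk (xa T1.l4 T1.l4) T1.l4) T1.l4)) (xa (xb T1.l4 T1.l4) (xb (xk T1.l4 T1.l4) T1.l4))) (xk (xa T1.l4 T1.l4) (xa T1.l4 T1.l4))) (xb (xk (xa (xb (xk (xa T1.l4 T1.l4) (xa T1.l4 T1.l4)) (xk T1.l4 T1.l4)) (xb (xk (xa (xb T1.l4 T1.l4) (xb T1.l4 T1.l4)) (xa T1.l4 (xb T1.l4 T1.l4))) (xk (xa T1.l4 (xb T1.l4 T1.l4)) (xa T1.l4 T1.l4)))) (xa (xb (xk (xa T1.l4 T1.l4) (xa T1.l4 T1.l4)) T1.l4) (xb (xa (xk T1.l4 T1.l4) (xk T1.l4 T1.l4)) (xk T1.l4 T1.l4)))) (xa (xk (xb T1.l4 (xk T1.l4 T1.l4)) (xb T1.l4 T1.l4)) (xk (xb (xk (xa T1.l4 (xb T1.l4 T1.l4)) (xa T1.l4 T1.l4)) (xk (xa T1.l4 (xb T1.l4 T1.l4))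 (xa T1.l4 (xb T1.l4 T1.l4)))) (xb (xk (xa T1.l4 T1.l4) (xa T1.l4 T1.l4)) (xk (xa T1.l4 (xb T1.l4 T1.l4)) (xa T1.l4 T1.l4))))))) = true := by decide +kernel
theorem c2_8_5 : chkTag sI cl13 cl4 cl4 t1 b2_8 (tg false true false RT.r4) (I.pos (nat_lit 0) (nat_lit 0))
  (xa (xb (xk T1.l5 T1.l5) T1.l5) (xk (xb T1.l5 (xa T1.l5 T1.l5)) (xb T1.l5 T1.l5))) = true := by decide +kernel
theorem c2_8_6 : chkTag sI cl13 cl4 cl4 t1 b2_8 (Tag.mk false false false RT.tl RT.r5) (I.mix (nat_lit 8088324) (nat_lit 110514882))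
  (xR T1.l6 (xR T1.l6 (xR T1.l6 (xb (xa T1.l6 T1.l6) (xk (xa T1.l6 (xR T1.l6 T1.l6)) T1.l6))))) = true := by decide +kernel
theorem c2_8_7 : chkTag sI cl13 cl4 cl4 t1 b2_8 (Tag.mk false true false RT.tl RT.r6) (I.mix (nat_lit 8088324) (nat_lit 89478486))
  (xR T1.l7 (xR T1.l7 (xR T1.l7 (xb T1.l7 T1.l7)))) = true := by decide +kernel
theorem bx2_8 : BoxOK sI cl13 cl4 cl4 t1 t1 b2_8 :=
  box_mk' [(tg true true false RT.r2), (tg true false false RT.r3), (Tag.mk true true false RT.tl RT.r4), (Tag.mk true false false RT.tl RT.r5), (tg false false false RT.r3), (tg false true false RT.r4), (Tag.mk false false false RT.tl RT.r5), (Tag.mk false true false RT.tl RT.r6)] rfl (allL_c (ex_mk c2_8_0) (allL_c (ex_mk c2_8_1) (allL_c (ex_mk c2_8_2) (allL_c (ex_mk c2_8_3) (allL_c (ex_mk c2_8_4) (allL_c (ex_mk c2_8_5) (allL_c (ex_mk c2_8_6) (allL_c (ex_mk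 c2_8_7) allL_n))))))))
theorem bx2_9 : BoxOK sI cl13 cl4 cl4 t1 t1 b2_9 :=
  box_mk (TrL.c (I.pos (nat_lit 0) (nat_lit 0)) (xb (xa (xb (xa T1.l8 T1.l8) (xa T1.l8 T1.l8)) (xb (xa T1.l0 T1.l0) (xa T1.l0 T1.l0))) (xa (xb (xa T1.l8 T1.l8) (xa (xk T1.l8 T1.l8) (xk T1.l8 T1.l8))) (xb (xa (xk T1.l0 T1.l0) (xk T1.l0 T1.l0)) (xa (xk (xb T1.l0 T1.l0) T1.l0) (xk (xb T1.l0 T1.l0) T1.l0)))))
  (TrL.c (I.pos (nat_lit 0) (nat_lit 0)) (xk (xb T1.l1 (xa T1.l1 T1.l1)) T1.l1)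
  (TrL.c (I.pos (nat_lit 0) (nat_lit 134217730)) (xR T1.l2 (xR T1.l2 T1.l2))
  (TrL.c (I.pos (nat_lit 0) (nat_lit 110514882)) (xR T1.l3 (xR T1.l3 T1.l3))
  (TrL.c (I.pos (nat_lit 0) (nat_lit 0)) (xk (xb (xa T1.l4 T1.l4) (xa T1.l4 T1.l4)) (xb T1.l4 (xa T1.l4 (xb T1.l4 T1.l4))))
  (TrL.c (I.pos (nat_lit 0) (nat_lit 0)) T1.l5
  (TrL.c (I.mix (nat_lit 8088324) (nat_lit 110514882)) (xR T1.l6 (xR T1.l6 T1.l6))
  (TrL.c (I.mix (nat_lit 8088324) (nat_lit 89478486)) T1.l7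
  TrL.n)))))))) (by decide +kernel)
theorem bx2_10 : BoxOK sI cl13 cl4 cl4 t1 t1 b2_10 :=
  box_mk (TrL.c (I.pos (nat_lit 0) (nat_lit 0)) (xb T1.l8 T1.l8)
  (TrL.c (I.pos (nat_lit 0) (nat_lit 0)) T1.l10
  (TrL.c (I.pos (nat_lit 0) (nat_lit 134217730)) (xR T1.l2 T1.l2)
  (TrL.c (I.pos (nat_lit 0) (nat_lit 110514882)) T1.l6
  (TrL.c (I.pos (nat_lit 0) (nat_lit 0)) (xk T1.l9 T1.l9)
  (TrL.c (I.pos (nat_lit 0) (nat_lit 0)) T1.l5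
  (TrL.c (I.mix (nat_lit 8088324) (nat_lit 110514882)) T1.l6
  (TrL.c (I.mix (nat_lit 8088324) (nat_lit 89478486)) T1.l2
  TrL.n)))))))) (by decide +kernel)
theorem sv2 : StarV sI cl13 cl4 cl4 t1 t1 t2 :=
  (bt_n (bt_n (bt_n (bt_b bx2_0) (bt_b bx2_1)) (bt_n (bt_b bx2_2) (bt_n (bt_b bx2_3) (bt_b bx2_4)))) (bt_n (bt_n (bt_b bx2_5) (bt_n (bt_b bx2_6) (bt_b bx2_7))) (bt_n (bt_b bx2_8) (bt_n (bt_b bx2_9) (bt_b bx2_10)))))
def S2 : StarD := StarD.mk cl13 cl4 cl4 1 1 t2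
def G : List StarD := [S0, S1, S2]
theorem so0 : StarOK sI G S0 :=
  star_mk (by decide) (by decide) rfl rfl rfl rfl rfl rfl (rfl : _ = t0) (rfl : _ = t2)
  (st_mk (Pth.l (Pth.l (Pth.l Pth.z))) (nat_lit 395683918) (nat_lit 399421639) (by decide +kernel))
  (st_mk (Pth.l (Pth.l (Pth.l Pth.z))) (nat_lit 437372320) (nat_lit 442037944) (by decide +kernel))
  (st_mk (Pth.l (Pth.l (Pth.l Pth.z))) (nat_lit 486517236) (nat_lit 492443274) (by decide +kernel)) sv0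
theorem so1 : StarOK sI G S1 :=
  star_mk (by decide) (by decide) rfl rfl rfl rfl rfl rfl (rfl : _ = t2) (rfl : _ = t0)
  (st_mk (Pth.l (Pth.l (Pth.l (Pth.l Pth.z)))) (nat_lit 100332311) (nat_lit 120317655) (by decide +kernel))
  (st_mk (Pth.l (Pth.l (Pth.l (Pth.l Pth.z)))) (nat_lit 139374575) (nat_lit 160248448) (by decide +kernel))
  (st_mk (Pth.l (Pth.l (Pth.l (Pth.l Pth.z)))) (nat_lit 184537883) (nat_lit 210403635) (by decide +kernel)) sv1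
theorem so2 : StarOK sI G S2 :=
  star_mk (by decide) (by decide) rfl rfl rfl rfl rfl rfl (rfl : _ = t1) (rfl : _ = t1)
  (st_mk (Pth.l (Pth.l (Pth.l Pth.z))) (nat_lit 364798899) (nat_lit 369104251) (by decide +kernel))
  (st_mk (Pth.l (Pth.l (Pth.l Pth.z))) (nat_lit 399695508) (nat_lit 404763217) (by decide +kernel))
  (st_mk (Pth.l (Pth.l (Pth.l Pth.z))) (nat_lit 439960827) (nat_lit 445997748) (by decide +kernel)) sv2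
theorem ok : GroupOK (nat_lit 238878720) (nat_lit 268435456) G := grp_mk (allS_c so0 (allS_c so1 (allS_c so2 allS_n)))
theorem cov : GCov G cl4 cl4 cl13 := cov_mk
  ⟨0, by decide, rfl, rfl, rfl⟩ ⟨1, by decide, rfl, rfl, rfl⟩ ⟨0, by decide, rfl, rfl, rfl⟩ ⟨1, by decide, rfl, rfl, rfl⟩ ⟨2, by decide, rfl, rfl, rfl⟩ ⟨2, by decide, rfl, rfl, rfl⟩
end Q116_4

namespace Q122_0
def sI : I := I.pos (nat_lit 0) (nat_lit 91291648)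
def b0_0 : Bx := Bx.mk (St.mk (I.pos (nat_lit 151764992) (nat_lit 260636672)) (I.mix (nat_lit 40763392) (nat_lit 93913088)) (I.mix (nat_lit 154124288) (nat_lit 98844672)) (I.pos (nat_lit 237600768) (nat_lit 420216832)) (I.mix (nat_lit 156385280) (nat_lit 129351680)) (I.mix (nat_lit 158859264) (nat_lit 140328960)) (I.mix (nat_lit 261701632) (nat_lit 270041088)))
  false (nat_lit 0)
def b0_1 : Bx := Bx.mk (St.mk (I.pos (nat_lit 21118976) (nat_lit 67223552)) (I.mix (nat_lit 19759104) (nat_lit 59031552)) (I.neg (nat_lit 737280) (nat_lit 37339136)) (I.pos (nat_lit 143409152) (nat_lit 163905536)) (I.mix (nat_lit 49610752) (nat_lit 70090752)) (I.mix (nat_lit 74629120) (nat_lit 58441728)) (I.mix (nat_lit 43106304) (nat_lit 28049408)))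
  false (nat_lit 0)
def b0_2 : Bx := Bx.mk (St.mk (I.pos (nat_lit 55492608) (nat_lit 104202240)) (I.mix (nat_lit 78725120) (nat_lit 21331968)) (I.neg (nat_lit 16990208) (nat_lit 74514432)) (I.pos (nat_lit 154845184) (nat_lit 189415424)) (I.mix (nat_lit 123912192) (nat_lit 49086464)) (I.mix (nat_lit 85065728) (nat_lit 128745472)) (I.mix (nat_lit 61227008) (nat_lit 81592320)))
  false (nat_lit 0)
def b0_3 : Bx := Bx.mk (St.mk (I.neg (nat_lit 21135360) (nat_lit 66912256)) (I.mix (nat_lit 59031552) (nat_lit 19464192)) (I.neg (nat_lit 753664) (nat_lit 37093376)) (I.pos (nat_lit 143409152) (nat_lit 163774464)) (I.mix (nat_lit 70090752) (nat_lit 49610752)) (I.mix (nat_lit 58458112) (nat_lit 74629120)) (I.mix (nat_lit 43106304) (nat_lit 28049408)))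
  true (nat_lit 0)
def b0_4 : Bx := Bx.mk (St.mk (I.pos (nat_lit 46137344) (nat_lit 65667072)) (I.mix (nat_lit 18317312) (nat_lit 15122432)) (I.neg (nat_lit 19251200) (nat_lit 36831232)) (I.pos (nat_lit 151011328) (nat_lit 163528704)) (I.mix (nat_lit 37240832) (nat_lit 23347200)) (I.mix (nat_lit 24756224) (nat_lit 24936448)) (I.mix (nat_lit 14401536) (nat_lit 15450112)))
  false (nat_lit 0)
def b0_5 : Bx := Bx.mk (St.mk (I.pos (nat_lit 64077824) (nat_lit 145801216)) (I.neg (nat_lit 3424256) (nat_lit 83623936)) (I.neg (nat_lit 13811712) (nat_lit 85295104)) (I.pos (nat_lit 163069952) (nat_lit 228409344)) (I.mix (nat_lit 138264576) (nat_lit 89817088)) (I.mix (nat_lit 79724544) (nat_lit 125730816)) (I.mix (nat_lit 73957376) (nat_lit 115752960)))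
  false (nat_lit 0)
def b0_6 : Bx := Bx.mk (St.mk (I.mix (nat_lit 42090496) (nat_lit 5931008)) (I.mix (nat_lit 49922048) (nat_lit 7536640)) (I.neg (nat_lit 6701056) (nat_lit 12288000)) (I.pos (nat_lit 143966208) (nat_lit 154386432)) (I.mix (nat_lit 46301184) (nat_lit 54837248)) (I.mix (nat_lit 50315264) (nat_lit 70238208)) (I.mix (nat_lit 12763136) (nat_lit 8994816)))
  true (nat_lit 0)
def b0_7 : Bx := Bx.mk (St.mk (I.mix (nat_lit 7421952) (nat_lit 42172416)) (I.mix (nat_lit 7536640) (nat_lit 49922048)) (I.neg (nat_lit 6684672) (nat_lit 12288000)) (I.pos (nat_lit 143917056) (nat_lit 154386432)) (I.mix (nat_lit 54837248) (nat_lit 46301184)) (I.mix (nat_lit 70238208) (nat_lit 50315264)) (I.mix (nat_lit 12763136) (nat_lit 8994816)))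
  false (nat_lit 0)
def b0_8 : Bx := Bx.mk (St.mk (I.pos (nat_lit 121667584) (nat_lit 204095488)) (I.mix (nat_lit 42254336) (nat_lit 83787776)) (I.mix (nat_lit 51019776) (nat_lit 93339648)) (I.pos (nat_lit 202555392) (nat_lit 309968896)) (I.mix (nat_lit 186007552) (nat_lit 91455488)) (I.mix (nat_lit 244187136) (nat_lit 165478400)) (I.mix (nat_lit 247562240) (nat_lit 176128000)))
  false (nat_lit 0)
def b0_9 : Bx := Bx.mk (St.mk (I.pos (nat_lit 123502592) (nat_lit 140656640)) (I.neg (nat_lit 16498688) (nat_lit 41910272)) (I.neg (nat_lit 21970944) (nat_lit 47677440)) (I.pos (nat_lit 207273984) (nat_lit 223739904)) (I.mix (nat_lit 31719424) (nat_lit 21233664)) (I.mix (nat_lit 18137088) (nat_lit 19988480)) (I.mix (nat_lit 19333120) (nat_lit 19562496)))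
  false (nat_lit 0)
def b0_10 : Bx := Bx.mk (St.mk (I.mix (nat_lit 5881856) (nat_lit 2555904)) (I.mix (nat_lit 12140544) (nat_lit 2244608)) (I.neg (nat_lit 9027584) (nat_lit 10502144)) (I.pos (nat_lit 144179200) (nat_lit 146653184)) (I.mix (nat_lit 9502720) (nat_lit 16547840)) (I.mix (nat_lit 8699904) (nat_lit 10174464)) (I.mix (nat_lit 933888) (nat_lit 688128)))
  true (nat_lit 0)
def t0 : BTr := (BTr.n (BTr.n (BTr.n (BTr.b b0_0) (BTr.b b0_1)) (BTr.n (BTr.b b0_2) (BTr.n (BTr.b b0_3) (BTr.b b0_4)))) (BTr.n (BTr.n (BTr.b b0_5) (BTr.n (BTr.b b0_6) (BTr.b b0_7))) (BTr.n (BTr.b b0_8) (BTr.n (BTr.b b0_9) (BTr.b b0_10)))))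
namespace T0
def l0 : Tr := Tr.L (Pth.l (Pth.l (Pth.l Pth.z)))
def l1 : Tr := Tr.L (Pth.l (Pth.l (Pth.r Pth.z)))
def l2 : Tr := Tr.L (Pth.l (Pth.r (Pth.l Pth.z)))
def l3 : Tr := Tr.L (Pth.l (Pth.r (Pth.r (Pth.l Pth.z))))
def l4 : Tr := Tr.L (Pth.l (Pth.r (Pth.r (Pth.r Pth.z))))
def l5 : Tr := Tr.L (Pth.r (Pth.l (Pth.l Pth.z)))
def l6 : Tr := Tr.L (Pth.r (Pth.l (Pth.r (Pth.l Pth.z))))
def l7 : Tr := Tr.L (Pth.r (Pth.l (Pth.r (Pth.r Pth.z))))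
def l8 : Tr := Tr.L (Pth.r (Pth.r (Pth.l Pth.z)))
def l9 : Tr := Tr.L (Pth.r (Pth.r (Pth.r (Pth.l Pth.z))))
def l10 : Tr := Tr.L (Pth.r (Pth.r (Pth.r (Pth.r Pth.z))))
end T0
def b1_0 : Bx := Bx.mk (St.mk (I.pos (nat_lit 130940928) (nat_lit 273842176)) (I.mix (nat_lit 15974400) (nat_lit 111673344)) (I.mix (nat_lit 118833152) (nat_lit 117424128)) (I.pos (nat_lit 365494272) (nat_lit 566837248)) (I.mix (nat_lit 181583872) (nat_lit 143704064)) (I.mix (nat_lit 186171392) (nat_lit 151519232)) (I.mix (nat_lit 289308672) (nat_lit 205586432)))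
  false (nat_lit 70352849)
def b1_1 : Bx := Bx.mk (St.mk (I.pos (nat_lit 20578304) (nat_lit 118816768)) (I.neg (nat_lit 4063232) (nat_lit 110051328)) (I.neg (nat_lit 1474560) (nat_lit 90554368)) (I.pos (nat_lit 268058624) (nat_lit 331579392)) (I.mix (nat_lit 157122560) (nat_lit 104366080)) (I.mix (nat_lit 127352832) (nat_lit 146538496)) (I.mix (nat_lit 122765312) (nat_lit 121487360)))
  false (nat_lit 33631766)
def b1_2 : Bx := Bx.mk (St.mk (I.mix (nat_lit 64143360) (nat_lit 10141696)) (I.mix (nat_lit 9617408) (nat_lit 103825408)) (I.neg (nat_lit 38780928) (nat_lit 63651840)) (I.pos (nat_lit 269221888) (nat_lit 298385408)) (I.mix (nat_lit 80297984) (nat_lit 125353984)) (I.mix (nat_lit 138821632) (nat_lit 113639424)) (I.mix (nat_lit 55279616) (nat_lit 44285952)))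
  true (nat_lit 0)
def b1_3 : Bx := Bx.mk (St.mk (I.pos (nat_lit 95322112) (nat_lit 192512000)) (I.mix (nat_lit 39731200) (nat_lit 113311744)) (I.mix (nat_lit 30621696) (nat_lit 120733696)) (I.pos (nat_lit 309772288) (nat_lit 423788544)) (I.mix (nat_lit 214106112) (nat_lit 107626496)) (I.mix (nat_lit 235323392) (nat_lit 182566912)) (I.mix (nat_lit 241582080) (nat_lit 211075072)))
  false (nat_lit 40364820)
def b1_4 : Bx := Bx.mk (St.mk (I.mix (nat_lit 10141696) (nat_lit 64159744)) (I.mix (nat_lit 103825408) (nat_lit 9617408)) (I.neg (nat_lit 38780928) (nat_lit 63651840)) (I.pos (nat_lit 269221888) (nat_lit 298385408)) (I.mix (nat_lit 125485056) (nat_lit 79609856)) (I.mix (nat_lit 112574464) (nat_lit 138821632)) (I.mix (nat_lit 55263232) (nat_lit 44285952)))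
  false (nat_lit 21769015)
def b1_5 : Bx := Bx.mk (St.mk (I.neg (nat_lit 20578304) (nat_lit 118816768)) (I.pos (nat_lit 4063232) (nat_lit 110034944)) (I.neg (nat_lit 1474560) (nat_lit 90554368)) (I.pos (nat_lit 268058624) (nat_lit 331579392)) (I.mix (nat_lit 104366080) (nat_lit 157138944)) (I.mix (nat_lit 146538496) (nat_lit 127352832)) (I.mix (nat_lit 122765312) (nat_lit 121487360)))
  true (nat_lit 0)
def b1_6 : Bx := Bx.mk (St.mk (I.pos (nat_lit 92635136) (nat_lit 114933760)) (I.neg (nat_lit 16220160) (nat_lit 49102848)) (I.neg (nat_lit 5980160) (nat_lit 32980992)) (I.pos (nat_lit 309526528) (nat_lit 329433088)) (I.mix (nat_lit 28229632) (nat_lit 30162944)) (I.mix (nat_lit 20774912) (nat_lit 24363008)) (I.mix (nat_lit 18989056) (nat_lit 19480576)))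
  false (nat_lit 0)
def b1_7 : Bx := Bx.mk (St.mk (I.mix (nat_lit 10240000) (nat_lit 6586368)) (I.mix (nat_lit 5013504) (nat_lit 22659072)) (I.neg (nat_lit 46350336) (nat_lit 49659904)) (I.pos (nat_lit 270991360) (nat_lit 278609920)) (I.mix (nat_lit 14204928) (nat_lit 30965760)) (I.mix (nat_lit 22970368) (nat_lit 14270464)) (I.mix (nat_lit 3293184) (nat_lit 2015232)))
  true (nat_lit 0)
def t1 : BTr := (BTr.n (BTr.n (BTr.n (BTr.b b1_0) (BTr.b b1_1)) (BTr.n (BTr.b b1_2) (BTr.b b1_3))) (BTr.n (BTr.n (BTr.b b1_4) (BTr.b b1_5)) (BTr.n (BTr.b b1_6) (BTr.b b1_7))))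
namespace T1
def l0 : Tr := Tr.L (Pth.l (Pth.l (Pth.l Pth.z)))
def l1 : Tr := Tr.L (Pth.l (Pth.l (Pth.r Pth.z)))
def l2 : Tr := Tr.L (Pth.l (Pth.r (Pth.l Pth.z)))
def l3 : Tr := Tr.L (Pth.l (Pth.r (Pth.r Pth.z)))
def l4 : Tr := Tr.L (Pth.r (Pth.l (Pth.l Pth.z)))
def l5 : Tr := Tr.L (Pth.r (Pth.l (Pth.r Pth.z)))
def l6 : Tr := Tr.L (Pth.r (Pth.r (Pth.l Pth.z)))
def l7 : Tr := Tr.L (Pth.r (Pth.r (Pth.r Pth.z)))
end T1
def b2_0 : Bx := Bx.mk (St.mk (I.pos (nat_lit 143278080) (nat_lit 271351808)) (I.mix (nat_lit 16941056) (nat_lit 78381056)) (I.mix (nat_lit 34914304) (nat_lit 125435904)) (I.pos (nat_lit 233668608) (nat_lit 433324032)) (I.mix (nat_lit 170475520) (nat_lit 140951552)) (I.mix (nat_lit 193626112) (nat_lit 125059072)) (I.mix (nat_lit 294649856) (nat_lit 175570944)))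
  false (nat_lit 11307299)
def b2_1 : Bx := Bx.mk (St.mk (I.pos (nat_lit 74317824) (nat_lit 142983168)) (I.neg (nat_lit 278528) (nat_lit 87556096)) (I.mix (nat_lit 62963712) (nat_lit 25329664)) (I.pos (nat_lit 171180032) (nat_lit 223379456)) (I.mix (nat_lit 113180672) (nat_lit 82575360)) (I.mix (nat_lit 84525056) (nat_lit 104185856)) (I.mix (nat_lit 76431360) (nat_lit 94175232)))
  false (nat_lit 0)
def b2_2 : Bx := Bx.mk (St.mk (I.neg (nat_lit 507904) (nat_lit 35258368)) (I.mix (nat_lit 50348032) (nat_lit 11730944)) (I.pos (nat_lit 7405568) (nat_lit 13615104)) (I.pos (nat_lit 142852096) (nat_lit 151961600)) (I.mix (nat_lit 37388288) (nat_lit 57966592)) (I.mix (nat_lit 47874048) (nat_lit 61767680)) (I.mix (nat_lit 8962048) (nat_lit 10059776)))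
  true (nat_lit 0)
def b2_3 : Bx := Bx.mk (St.mk (I.pos (nat_lit 127156224) (nat_lit 197230592)) (I.mix (nat_lit 52281344) (nat_lit 85278720)) (I.mix (nat_lit 28753920) (nat_lit 131842048)) (I.pos (nat_lit 209960960) (nat_lit 294715392)) (I.mix (nat_lit 216907776) (nat_lit 84639744)) (I.mix (nat_lit 255574016) (nat_lit 149651456)) (I.mix (nat_lit 267354112) (nat_lit 160743424)))
  false (nat_lit 14795091)
def b2_4 : Bx := Bx.mk (St.mk (I.mix (nat_lit 4194304) (nat_lit 35520512)) (I.mix (nat_lit 15859712) (nat_lit 50577408)) (I.pos (nat_lit 7405568) (nat_lit 13615104)) (I.pos (nat_lit 142852096) (nat_lit 151961600)) (I.mix (nat_lit 57966592) (nat_lit 37388288)) (I.mix (nat_lit 61767680) (nat_lit 47874048)) (I.mix (nat_lit 8962048) (nat_lit 10059776)))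
  false (nat_lit 0)
def b2_5 : Bx := Bx.mk (St.mk (I.pos (nat_lit 13615104) (nat_lit 69058560)) (I.mix (nat_lit 7585792) (nat_lit 55771136)) (I.mix (nat_lit 9814016) (nat_lit 19742720)) (I.pos (nat_lit 141213696) (nat_lit 163119104)) (I.mix (nat_lit 62734336) (nat_lit 61505536)) (I.mix (nat_lit 79298560) (nat_lit 56819712)) (I.mix (nat_lit 41336832) (nat_lit 32669696)))
  false (nat_lit 0)
def b2_6 : Bx := Bx.mk (St.mk (I.pos (nat_lit 53182464) (nat_lit 112410624)) (I.mix (nat_lit 81117184) (nat_lit 9175040)) (I.neg (nat_lit 1114112) (nat_lit 49741824)) (I.pos (nat_lit 153862144) (nat_lit 193921024)) (I.mix (nat_lit 104300544) (nat_lit 53641216)) (I.mix (nat_lit 90587136) (nat_lit 120979456)) (I.mix (nat_lit 60555264) (nat_lit 69369856)))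
  false (nat_lit 0)
def b2_7 : Bx := Bx.mk (St.mk (I.neg (nat_lit 13533184) (nat_lit 70467584)) (I.mix (nat_lit 55771136) (nat_lit 7585792)) (I.mix (nat_lit 9732096) (nat_lit 19726336)) (I.pos (nat_lit 141197312) (nat_lit 163512320)) (I.mix (nat_lit 61505536) (nat_lit 62734336)) (I.mix (nat_lit 56819712) (nat_lit 79314944)) (I.mix (nat_lit 41336832) (nat_lit 32669696)))
  true (nat_lit 0)
def b2_8 : Bx := Bx.mk (St.mk (I.pos (nat_lit 55410688) (nat_lit 65191936)) (I.mix (nat_lit 2408448) (nat_lit 14254080)) (I.mix (nat_lit 7979008) (nat_lit 163840)) (I.pos (nat_lit 155779072) (nat_lit 161529856)) (I.mix (nat_lit 11599872) (nat_lit 18104320)) (I.mix (nat_lit 12369920) (nat_lit 10240000)) (I.mix (nat_lit 7077888) (nat_lit 4653056)))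
  false (nat_lit 0)
def b2_9 : Bx := Bx.mk (St.mk (I.pos (nat_lit 117473280) (nat_lit 142311424)) (I.neg (nat_lit 507904) (nat_lit 38256640)) (I.mix (nat_lit 12140544) (nat_lit 24018944)) (I.pos (nat_lit 200474624) (nat_lit 222183424)) (I.mix (nat_lit 63766528) (nat_lit 39600128)) (I.mix (nat_lit 48578560) (nat_lit 58032128)) (I.mix (nat_lit 51478528) (nat_lit 53755904)))
  false (nat_lit 0)
def b2_10 : Bx := Bx.mk (St.mk (I.mix (nat_lit 11960320) (nat_lit 2015232)) (I.mix (nat_lit 9551872) (nat_lit 13254656)) (I.pos (nat_lit 8241152) (nat_lit 10240000)) (I.pos (nat_lit 143097856) (nat_lit 146423808)) (I.mix (nat_lit 32309248) (nat_lit 23085056)) (I.mix (nat_lit 28262400) (nat_lit 29851648)) (I.mix (nat_lit 1982464) (nat_lit 1310720)))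
  true (nat_lit 0)
def t2 : BTr := (BTr.n (BTr.n (BTr.n (BTr.b b2_0) (BTr.b b2_1)) (BTr.n (BTr.b b2_2) (BTr.n (BTr.b b2_3) (BTr.b b2_4)))) (BTr.n (BTr.n (BTr.b b2_5) (BTr.n (BTr.b b2_6) (BTr.b b2_7))) (BTr.n (BTr.b b2_8) (BTr.n (BTr.b b2_9) (BTr.b b2_10)))))
namespace T2
def l0 : Tr := Tr.L (Pth.l (Pth.l (Pth.l Pth.z)))
def l1 : Tr := Tr.L (Pth.l (Pth.l (Pth.r Pth.z)))
def l2 : Tr := Tr.L (Pth.l (Pth.r (Pth.l Pth.z)))
def l3 : Tr := Tr.L (Pth.l (Pth.r (Pth.r (Pth.l Pth.z))))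
def l4 : Tr := Tr.L (Pth.l (Pth.r (Pth.r (Pth.r Pth.z))))
def l5 : Tr := Tr.L (Pth.r (Pth.l (Pth.l Pth.z)))
def l6 : Tr := Tr.L (Pth.r (Pth.l (Pth.r (Pth.l Pth.z))))
def l7 : Tr := Tr.L (Pth.r (Pth.l (Pth.r (Pth.r Pth.z))))
def l8 : Tr := Tr.L (Pth.r (Pth.r (Pth.l Pth.z)))
def l9 : Tr := Tr.L (Pth.r (Pth.r (Pth.r (Pth.l Pth.z))))
def l10 : Tr := Tr.L (Pth.r (Pth.r (Pth.r (Pth.r Pth.z))))
end T2
theorem bx0_0 : BoxOK sI cl4 cl5 cl5 t1 t1 b0_0 :=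
  box_mk (TrL.c (I.pos (nat_lit 0) (nat_lit 0)) (xa (xb T1.l0 T1.l0) (xb T1.l0 (xa T1.l0 T1.l3)))
  (TrL.c (I.pos (nat_lit 0) (nat_lit 0)) T1.l1
  (TrL.c (I.pos (nat_lit 0) (nat_lit 0)) T1.l2
  (TrL.c (I.pos (nat_lit 0) (nat_lit 0)) (xa T1.l3 (xb T1.l3 T1.l3))
  (TrL.c (I.pos (nat_lit 0) (nat_lit 0)) T1.l4
  (TrL.c (I.pos (nat_lit 0) (nat_lit 0)) T1.l5
  TrL.n)))))) (by decide +kernel)
theorem bx0_1 : BoxOK sI cl4 cl5 cl5 t1 t1 b0_1 :=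
  box_mk (TrL.c (I.pos (nat_lit 0) (nat_lit 0)) T1.l0
  (TrL.c (I.pos (nat_lit 0) (nat_lit 0)) T1.l1
  (TrL.c (I.pos (nat_lit 0) (nat_lit 0)) T1.l2
  (TrL.c (I.pos (nat_lit 0) (nat_lit 0)) T1.l3
  (TrL.c (I.pos (nat_lit 0) (nat_lit 0)) T1.l4
  (TrL.c (I.pos (nat_lit 0) (nat_lit 0)) T1.l5
  TrL.n)))))) (by decide +kernel)
theorem bx0_2 : BoxOK sI cl4 cl5 cl5 t1 t1 b0_2 :=
  box_mk (TrL.c (I.pos (nat_lit 0) (nat_lit 0)) (xb T1.l0 T1.l0)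
  (TrL.c (I.pos (nat_lit 0) (nat_lit 0)) T1.l1
  (TrL.c (I.pos (nat_lit 0) (nat_lit 0)) T1.l2
  (TrL.c (I.pos (nat_lit 0) (nat_lit 0)) T1.l3
  (TrL.c (I.pos (nat_lit 0) (nat_lit 0)) T1.l4
  (TrL.c (I.pos (nat_lit 0) (nat_lit 0)) T1.l5
  TrL.n)))))) (by decide +kernel)
theorem bx0_3 : BoxOK sI cl4 cl5 cl5 t1 t1 b0_3 :=
  box_mk (TrL.c (I.pos (nat_lit 0) (nat_lit 0)) T1.l1
  (TrL.c (I.pos (nat_lit 0) (nat_lit 0)) T1.l2
  TrL.n)) (by decide +kernel)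
theorem bx0_4 : BoxOK sI cl4 cl5 cl5 t1 t1 b0_4 :=
  box_mk (TrL.c (I.pos (nat_lit 0) (nat_lit 0)) T1.l0
  (TrL.c (I.pos (nat_lit 0) (nat_lit 0)) T1.l1
  (TrL.c (I.pos (nat_lit 0) (nat_lit 0)) T1.l2
  (TrL.c (I.pos (nat_lit 0) (nat_lit 0)) T1.l3
  (TrL.c (I.pos (nat_lit 0) (nat_lit 0)) T1.l4
  (TrL.c (I.pos (nat_lit 0) (nat_lit 0)) T1.l5
  TrL.n)))))) (by decide +kernel)
theorem bx0_5 : BoxOK sI cl4 cl5 cl5 t1 t1 b0_5 :=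
  box_mk (TrL.c (I.pos (nat_lit 0) (nat_lit 0)) (xa T1.l0 T1.l0)
  (TrL.c (I.pos (nat_lit 0) (nat_lit 0)) T1.l1
  (TrL.c (I.pos (nat_lit 0) (nat_lit 0)) T1.l2
  (TrL.c (I.pos (nat_lit 0) (nat_lit 0)) T1.l3
  (TrL.c (I.pos (nat_lit 0) (nat_lit 0)) T1.l4
  (TrL.c (I.pos (nat_lit 0) (nat_lit 0)) T1.l5
  TrL.n)))))) (by decide +kernel)
theorem bx0_6 : BoxOK sI cl4 cl5 cl5 t1 t1 b0_6 :=
  box_mk (TrL.c (I.pos (nat_lit 0) (nat_lit 0)) T1.l1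
  (TrL.c (I.pos (nat_lit 0) (nat_lit 0)) T1.l2
  TrL.n)) (by decide +kernel)
theorem bx0_7 : BoxOK sI cl4 cl5 cl5 t1 t1 b0_7 :=
  box_mk (TrL.c (I.pos (nat_lit 0) (nat_lit 0)) T1.l0
  (TrL.c (I.pos (nat_lit 0) (nat_lit 0)) T1.l1
  (TrL.c (I.pos (nat_lit 0) (nat_lit 0)) T1.l2
  (TrL.c (I.pos (nat_lit 0) (nat_lit 0)) T1.l3
  (TrL.c (I.pos (nat_lit 0) (nat_lit 0)) T1.l4
  (TrL.c (I.pos (nat_lit 0) (nat_lit 0)) T1.l5
  TrL.n)))))) (by decide +kernel)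
theorem bx0_8 : BoxOK sI cl4 cl5 cl5 t1 t1 b0_8 :=
  box_mk (TrL.c (I.pos (nat_lit 0) (nat_lit 0)) (xb (xa T1.l0 T1.l0) (xa T1.l0 T1.l0))
  (TrL.c (I.pos (nat_lit 0) (nat_lit 0)) T1.l1
  (TrL.c (I.pos (nat_lit 0) (nat_lit 0)) T1.l2
  (TrL.c (I.pos (nat_lit 0) (nat_lit 0)) T1.l3
  (TrL.c (I.pos (nat_lit 0) (nat_lit 0)) T1.l4
  (TrL.c (I.pos (nat_lit 0) (nat_lit 0)) T1.l5
  TrL.n)))))) (by decide +kernel)
theorem bx0_9 : BoxOK sI cl4 cl5 cl5 t1 t1 b0_9 :=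
  box_mk (TrL.c (I.pos (nat_lit 0) (nat_lit 0)) T1.l0
  (TrL.c (I.pos (nat_lit 0) (nat_lit 0)) T1.l1
  (TrL.c (I.pos (nat_lit 0) (nat_lit 0)) T1.l2
  (TrL.c (I.pos (nat_lit 0) (nat_lit 0)) T1.l3
  (TrL.c (I.pos (nat_lit 0) (nat_lit 0)) T1.l4
  (TrL.c (I.pos (nat_lit 0) (nat_lit 0)) T1.l5
  TrL.n)))))) (by decide +kernel)
theorem bx0_10 : BoxOK sI cl4 cl5 cl5 t1 t1 b0_10 :=
  box_mk (TrL.c (I.pos (nat_lit 0) (nat_lit 0)) T1.l6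
  (TrL.c (I.pos (nat_lit 0) (nat_lit 0)) T1.l7
  TrL.n)) (by decide +kernel)
theorem sv0 : StarV sI cl4 cl5 cl5 t1 t1 t0 :=
  (bt_n (bt_n (bt_n (bt_b bx0_0) (bt_b bx0_1)) (bt_n (bt_b bx0_2) (bt_n (bt_b bx0_3) (bt_b bx0_4)))) (bt_n (bt_n (bt_b bx0_5) (bt_n (bt_b bx0_6) (bt_b bx0_7))) (bt_n (bt_b bx0_8) (bt_n (bt_b bx0_9) (bt_b bx0_10)))))
def S0 : StarD := StarD.mk cl4 cl5 cl5 1 1 t0
theorem bx1_0 : BoxOK sI cl5 cl4 cl5 t0 t2 b1_0 :=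
  box_mk (TrL.c (I.pos (nat_lit 0) (nat_lit 0)) (xa (xb T0.l0 T0.l0) (xb T0.l0 (xa T0.l0 T0.l0)))
  (TrL.c (I.pos (nat_lit 0) (nat_lit 0)) T2.l1
  (TrL.c (I.pos (nat_lit 0) (nat_lit 0)) T0.l1
  (TrL.c (I.pos (nat_lit 0) (nat_lit 0)) T2.l2
  (TrL.c (I.pos (nat_lit 0) (nat_lit 0)) (xa T2.l3 (xb T2.l3 T2.l3))
  (TrL.c (I.pos (nat_lit 0) (nat_lit 0)) T0.l2
  (TrL.c (I.pos (nat_lit 0) (nat_lit 0)) T2.l4
  (TrL.c (I.pos (nat_lit 0) (nat_lit 0)) T0.l3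
  TrL.n)))))))) (by decide +kernel)
theorem bx1_1 : BoxOK sI cl5 cl4 cl5 t0 t2 b1_1 :=
  box_mk (TrL.c (I.pos (nat_lit 0) (nat_lit 0)) (xa (xb T0.l0 T0.l0) T0.l0)
  (TrL.c (I.pos (nat_lit 0) (nat_lit 0)) T2.l1
  (TrL.c (I.pos (nat_lit 0) (nat_lit 0)) T0.l1
  (TrL.c (I.pos (nat_lit 0) (nat_lit 0)) T2.l2
  (TrL.c (I.pos (nat_lit 0) (nat_lit 0)) T2.l3
  (TrL.c (I.pos (nat_lit 0) (nat_lit 0)) T0.l2
  (TrL.c (I.pos (nat_lit 0) (nat_lit 0)) T2.l4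
  (TrL.c (I.pos (nat_lit 0) (nat_lit 0)) T0.l3
  TrL.n)))))))) (by decide +kernel)
theorem bx1_2 : BoxOK sI cl5 cl4 cl5 t0 t2 b1_2 :=
  box_mk (TrL.c (I.pos (nat_lit 0) (nat_lit 0)) T2.l1
  (TrL.c (I.pos (nat_lit 0) (nat_lit 0)) T0.l1
  (TrL.c (I.pos (nat_lit 0) (nat_lit 0)) T2.l10
  TrL.n))) (by decide +kernel)
theorem bx1_3 : BoxOK sI cl5 cl4 cl5 t0 t2 b1_3 :=
  box_mk (TrL.c (I.pos (nat_lit 0) (nat_lit 0)) (xb (xa T0.l0 T0.l0) (xa T0.l0 T0.l0))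
  (TrL.c (I.pos (nat_lit 0) (nat_lit 0)) T2.l1
  (TrL.c (I.pos (nat_lit 0) (nat_lit 0)) T0.l1
  (TrL.c (I.pos (nat_lit 0) (nat_lit 0)) T2.l2
  (TrL.c (I.pos (nat_lit 0) (nat_lit 0)) T2.l3
  (TrL.c (I.pos (nat_lit 0) (nat_lit 0)) T0.l2
  (TrL.c (I.pos (nat_lit 0) (nat_lit 0)) T2.l4
  (TrL.c (I.pos (nat_lit 0) (nat_lit 0)) T0.l3
  TrL.n)))))))) (by decide +kernel)
theorem bx1_4 : BoxOK sI cl5 cl4 cl5 t0 t2 b1_4 :=
  box_mk (TrL.c (I.pos (nat_lit 0) (nat_lit 0)) (xb (xa T0.l0 T0.l0) T0.l0)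
  (TrL.c (I.pos (nat_lit 0) (nat_lit 0)) T2.l1
  (TrL.c (I.pos (nat_lit 0) (nat_lit 0)) T0.l1
  (TrL.c (I.pos (nat_lit 0) (nat_lit 0)) T2.l10
  (TrL.c (I.pos (nat_lit 0) (nat_lit 0)) T2.l3
  (TrL.c (I.pos (nat_lit 0) (nat_lit 0)) T0.l2
  (TrL.c (I.pos (nat_lit 0) (nat_lit 0)) T2.l4
  (TrL.c (I.pos (nat_lit 0) (nat_lit 0)) T0.l3
  TrL.n)))))))) (by decide +kernel)
theorem bx1_5 : BoxOK sI cl5 cl4 cl5 t0 t2 b1_5 :=
  box_mk (TrL.c (I.pos (nat_lit 0) (nat_lit 0)) T2.l1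
  (TrL.c (I.pos (nat_lit 0) (nat_lit 0)) T0.l1
  (TrL.c (I.pos (nat_lit 0) (nat_lit 0)) T2.l2
  TrL.n))) (by decide +kernel)
theorem bx1_6 : BoxOK sI cl5 cl4 cl5 t0 t2 b1_6 :=
  box_mk (TrL.c (I.pos (nat_lit 0) (nat_lit 0)) T0.l0
  (TrL.c (I.pos (nat_lit 0) (nat_lit 0)) T2.l1
  (TrL.c (I.pos (nat_lit 0) (nat_lit 0)) T0.l1
  (TrL.c (I.pos (nat_lit 0) (nat_lit 0)) T2.l2
  (TrL.c (I.pos (nat_lit 0) (nat_lit 0)) T2.l3
  (TrL.c (I.pos (nat_lit 0) (nat_lit 0)) T0.l2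
  (TrL.c (I.pos (nat_lit 0) (nat_lit 0)) T2.l4
  (TrL.c (I.pos (nat_lit 0) (nat_lit 0)) T0.l3
  TrL.n)))))))) (by decide +kernel)
theorem bx1_7 : BoxOK sI cl5 cl4 cl5 t0 t2 b1_7 :=
  box_mk (TrL.c (I.pos (nat_lit 0) (nat_lit 0)) T2.l9
  (TrL.c (I.pos (nat_lit 0) (nat_lit 0)) T0.l4
  (TrL.c (I.pos (nat_lit 0) (nat_lit 0)) T2.l10
  TrL.n))) (by decide +kernel)
theorem sv1 : StarV sI cl5 cl4 cl5 t0 t2 t1 :=
  (bt_n (bt_n (bt_n (bt_b bx1_0) (bt_b bx1_1)) (bt_n (bt_b bx1_2) (bt_b bx1_3))) (bt_n (bt_n (bt_b bx1_4) (bt_b bx1_5)) (bt_n (bt_b bx1_6) (bt_b bx1_7))))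
def S1 : StarD := StarD.mk cl5 cl4 cl5 0 2 t1
theorem bx2_0 : BoxOK sI cl5 cl5 cl4 t2 t0 b2_0 :=
  box_mk (TrL.c (I.pos (nat_lit 0) (nat_lit 0)) (xa (xa (xb T2.l0 T2.l0) (xb T2.l0 T2.l0)) (xa (xb T2.l0 T2.l0) (xb T2.l3 T2.l0)))
  (TrL.c (I.pos (nat_lit 0) (nat_lit 0)) T0.l5
  (TrL.c (I.pos (nat_lit 0) (nat_lit 0)) T2.l5
  (TrL.c (I.pos (nat_lit 0) (nat_lit 0)) T0.l6
  (TrL.c (I.pos (nat_lit 0) (nat_lit 0)) (xa T0.l8 T0.l8)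
  (TrL.c (I.pos (nat_lit 0) (nat_lit 0)) T2.l6
  (TrL.c (I.pos (nat_lit 0) (nat_lit 0)) T0.l7
  (TrL.c (I.pos (nat_lit 0) (nat_lit 0)) T2.l7
  TrL.n)))))))) (by decide +kernel)
theorem bx2_1 : BoxOK sI cl5 cl5 cl4 t2 t0 b2_1 :=
  box_mk (TrL.c (I.pos (nat_lit 0) (nat_lit 0)) T2.l0
  (TrL.c (I.pos (nat_lit 0) (nat_lit 0)) T0.l5
  (TrL.c (I.pos (nat_lit 0) (nat_lit 0)) T2.l5
  (TrL.c (I.pos (nat_lit 0) (nat_lit 0)) T0.l6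
  (TrL.c (I.pos (nat_lit 0) (nat_lit 0)) T0.l8
  (TrL.c (I.pos (nat_lit 0) (nat_lit 0)) T2.l6
  (TrL.c (I.pos (nat_lit 0) (nat_lit 0)) T0.l7
  (TrL.c (I.pos (nat_lit 0) (nat_lit 0)) T2.l7
  TrL.n)))))))) (by decide +kernel)
theorem bx2_2 : BoxOK sI cl5 cl5 cl4 t2 t0 b2_2 :=
  box_mk (TrL.c (I.pos (nat_lit 0) (nat_lit 0)) T0.l5
  (TrL.c (I.pos (nat_lit 0) (nat_lit 0)) T2.l5
  (TrL.c (I.pos (nat_lit 0) (nat_lit 0)) T0.l6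
  TrL.n))) (by decide +kernel)
theorem bx2_3 : BoxOK sI cl5 cl5 cl4 t2 t0 b2_3 :=
  box_mk (TrL.c (I.pos (nat_lit 0) (nat_lit 0)) (xb T2.l0 (xa T2.l0 T2.l0))
  (TrL.c (I.pos (nat_lit 0) (nat_lit 0)) T0.l5
  (TrL.c (I.pos (nat_lit 0) (nat_lit 0)) T2.l5
  (TrL.c (I.pos (nat_lit 0) (nat_lit 0)) T0.l6
  (TrL.c (I.pos (nat_lit 0) (nat_lit 0)) T0.l8
  (TrL.c (I.pos (nat_lit 0) (nat_lit 0)) T2.l6
  (TrL.c (I.pos (nat_lit 0) (nat_lit 0)) T0.l7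
  (TrL.c (I.pos (nat_lit 0) (nat_lit 0)) T2.l7
  TrL.n)))))))) (by decide +kernel)
theorem bx2_4 : BoxOK sI cl5 cl5 cl4 t2 t0 b2_4 :=
  box_mk (TrL.c (I.pos (nat_lit 0) (nat_lit 0)) T2.l0
  (TrL.c (I.pos (nat_lit 0) (nat_lit 0)) T0.l5
  (TrL.c (I.pos (nat_lit 0) (nat_lit 0)) T2.l5
  (TrL.c (I.pos (nat_lit 0) (nat_lit 0)) T0.l6
  (TrL.c (I.pos (nat_lit 0) (nat_lit 0)) T0.l8
  (TrL.c (I.pos (nat_lit 0) (nat_lit 0)) T2.l6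
  (TrL.c (I.pos (nat_lit 0) (nat_lit 0)) T0.l7
  (TrL.c (I.pos (nat_lit 0) (nat_lit 0)) T2.l7
  TrL.n)))))))) (by decide +kernel)
theorem bx2_5 : BoxOK sI cl5 cl5 cl4 t2 t0 b2_5 :=
  box_mk (TrL.c (I.pos (nat_lit 0) (nat_lit 0)) T2.l0
  (TrL.c (I.pos (nat_lit 0) (nat_lit 0)) T0.l5
  (TrL.c (I.pos (nat_lit 0) (nat_lit 0)) T2.l5
  (TrL.c (I.pos (nat_lit 0) (nat_lit 0)) T0.l6
  (TrL.c (I.pos (nat_lit 0) (nat_lit 0)) T0.l8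
  (TrL.c (I.pos (nat_lit 0) (nat_lit 0)) T2.l6
  (TrL.c (I.pos (nat_lit 0) (nat_lit 0)) T0.l7
  (TrL.c (I.pos (nat_lit 0) (nat_lit 0)) T2.l7
  TrL.n)))))))) (by decide +kernel)
theorem bx2_6 : BoxOK sI cl5 cl5 cl4 t2 t0 b2_6 :=
  box_mk (TrL.c (I.pos (nat_lit 0) (nat_lit 0)) T2.l0
  (TrL.c (I.pos (nat_lit 0) (nat_lit 0)) T0.l5
  (TrL.c (I.pos (nat_lit 0) (nat_lit 0)) T2.l5
  (TrL.c (I.pos (nat_lit 0) (nat_lit 0)) T0.l6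
  (TrL.c (I.pos (nat_lit 0) (nat_lit 0)) T0.l8
  (TrL.c (I.pos (nat_lit 0) (nat_lit 0)) T2.l6
  (TrL.c (I.pos (nat_lit 0) (nat_lit 0)) T0.l7
  (TrL.c (I.pos (nat_lit 0) (nat_lit 0)) T2.l7
  TrL.n)))))))) (by decide +kernel)
theorem bx2_7 : BoxOK sI cl5 cl5 cl4 t2 t0 b2_7 :=
  box_mk (TrL.c (I.pos (nat_lit 0) (nat_lit 0)) T0.l5
  (TrL.c (I.pos (nat_lit 0) (nat_lit 0)) T2.l5
  (TrL.c (I.pos (nat_lit 0) (nat_lit 0)) T0.l6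
  TrL.n))) (by decide +kernel)
theorem bx2_8 : BoxOK sI cl5 cl5 cl4 t2 t0 b2_8 :=
  box_mk (TrL.c (I.pos (nat_lit 0) (nat_lit 0)) T2.l0
  (TrL.c (I.pos (nat_lit 0) (nat_lit 0)) T0.l5
  (TrL.c (I.pos (nat_lit 0) (nat_lit 0)) T2.l5
  (TrL.c (I.pos (nat_lit 0) (nat_lit 0)) T0.l6
  (TrL.c (I.pos (nat_lit 0) (nat_lit 0)) T0.l8
  (TrL.c (I.pos (nat_lit 0) (nat_lit 0)) T2.l6
  (TrL.c (I.pos (nat_lit 0) (nat_lit 0)) T0.l7
  (TrL.c (I.pos (nat_lit 0) (nat_lit 0)) T2.l7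
  TrL.n)))))))) (by decide +kernel)
theorem bx2_9 : BoxOK sI cl5 cl5 cl4 t2 t0 b2_9 :=
  box_mk (TrL.c (I.pos (nat_lit 0) (nat_lit 0)) T2.l0
  (TrL.c (I.pos (nat_lit 0) (nat_lit 0)) T0.l5
  (TrL.c (I.pos (nat_lit 0) (nat_lit 0)) T2.l5
  (TrL.c (I.pos (nat_lit 0) (nat_lit 0)) T0.l6
  (TrL.c (I.pos (nat_lit 0) (nat_lit 0)) T0.l8
  (TrL.c (I.pos (nat_lit 0) (nat_lit 0)) T2.l6
  (TrL.c (I.pos (nat_lit 0) (nat_lit 0)) T0.l7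
  (TrL.c (I.pos (nat_lit 0) (nat_lit 0)) T2.l7
  TrL.n)))))))) (by decide +kernel)
theorem bx2_10 : BoxOK sI cl5 cl5 cl4 t2 t0 b2_10 :=
  box_mk (TrL.c (I.pos (nat_lit 0) (nat_lit 0)) T0.l9
  (TrL.c (I.pos (nat_lit 0) (nat_lit 0)) T2.l8
  (TrL.c (I.pos (nat_lit 0) (nat_lit 0)) T0.l10
  TrL.n))) (by decide +kernel)
theorem sv2 : StarV sI cl5 cl5 cl4 t2 t0 t2 :=
  (bt_n (bt_n (bt_n (bt_b bx2_0) (bt_b bx2_1)) (bt_n (bt_b bx2_2) (bt_n (bt_b bx2_3) (bt_b bx2_4)))) (bt_n (bt_n (bt_b bx2_5) (bt_n (bt_b bx2_6) (bt_b bx2_7))) (bt_n (bt_b bx2_8) (bt_n (bt_b bx2_9) (bt_b bx2_10)))))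
def S2 : StarD := StarD.mk cl5 cl5 cl4 2 0 t2
def G : List StarD := [S0, S1, S2]
theorem so0 : StarOK sI G S0 :=
  star_mk (by decide) (by decide) rfl rfl rfl rfl rfl rfl (rfl : _ = t1) (rfl : _ = t1)
  (st_mk (Pth.l (Pth.l (Pth.l Pth.z))) (nat_lit 248169705) (nat_lit 251929332) (by decide +kernel))
  (st_mk (Pth.l (Pth.l (Pth.l Pth.z))) (nat_lit 286325027) (nat_lit 291420700) (by decide +kernel))
  (st_mk (Pth.l (Pth.l (Pth.l Pth.z))) (nat_lit 330996828) (nat_lit 337957830) (by decide +kernel)) sv0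
theorem so1 : StarOK sI G S1 :=
  star_mk (by decide) (by decide) rfl rfl rfl rfl rfl rfl (rfl : _ = t0) (rfl : _ = t2)
  (st_mk (Pth.l (Pth.l (Pth.l Pth.z))) (nat_lit 377056402) (nat_lit 381531298) (by decide +kernel))
  (st_mk (Pth.l (Pth.l (Pth.l Pth.z))) (nat_lit 414449394) (nat_lit 419904050) (by decide +kernel))
  (st_mk (Pth.l (Pth.l (Pth.l Pth.z))) (nat_lit 457912774) (nat_lit 464642458) (by decide +kernel)) sv1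
theorem so2 : StarOK sI G S2 :=
  star_mk (by decide) (by decide) rfl rfl rfl rfl rfl rfl (rfl : _ = t2) (rfl : _ = t0)
  (st_mk (Pth.l (Pth.l (Pth.l Pth.z))) (nat_lit 245155437) (nat_lit 247676666) (by decide +kernel))
  (st_mk (Pth.l (Pth.l (Pth.l Pth.z))) (nat_lit 282275973) (nat_lit 285656691) (by decide +kernel))
  (st_mk (Pth.l (Pth.l (Pth.l Pth.z))) (nat_lit 325527383) (nat_lit 330086401) (by decide +kernel)) sv2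
theorem ok : GroupOK (nat_lit 0) (nat_lit 91291648) G := grp_mk (allS_c so0 (allS_c so1 (allS_c so2 allS_n)))
theorem cov : GCov G cl4 cl5 cl5 := cov_mk
  ⟨0, by decide, rfl, rfl, rfl⟩ ⟨0, by decide, rfl, rfl, rfl⟩ ⟨1, by decide, rfl, rfl, rfl⟩ ⟨2, by decide, rfl, rfl, rfl⟩ ⟨1, by decide, rfl, rfl, rfl⟩ ⟨2, by decide, rfl, rfl, rfl⟩
end Q122_0

namespace Q122_1
def sI : I := I.pos (nat_lit 91226112) (nat_lit 150339584)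
def b0_0 : Bx := Bx.mk (St.mk (I.pos (nat_lit 144506880) (nat_lit 251510784)) (I.mix (nat_lit 30785536) (nat_lit 82165760)) (I.mix (nat_lit 125845504) (nat_lit 96288768)) (I.pos (nat_lit 246644736) (nat_lit 404897792)) (I.mix (nat_lit 175194112) (nat_lit 137150464)) (I.mix (nat_lit 157696000) (nat_lit 129318912)) (I.mix (nat_lit 264519680) (nat_lit 237813760)))
  false (nat_lit 10647625)
def b0_1 : Bx := Bx.mk (St.mk (I.pos (nat_lit 22822912) (nat_lit 63930368)) (I.mix (nat_lit 15335424) (nat_lit 57704448)) (I.neg (nat_lit 3309568) (nat_lit 35127296)) (I.pos (nat_lit 145244160) (nat_lit 164528128)) (I.mix (nat_lit 57704448) (nat_lit 85934080)) (I.mix (nat_lit 78921728) (nat_lit 62111744)) (I.mix (nat_lit 45039616) (nat_lit 28114944)))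
  false (nat_lit 0)
def b0_2 : Bx := Bx.mk (St.mk (I.pos (nat_lit 54149120) (nat_lit 98549760)) (I.mix (nat_lit 72859648) (nat_lit 16547840)) (I.neg (nat_lit 19808256) (nat_lit 71761920)) (I.pos (nat_lit 154910720) (nat_lit 185974784)) (I.mix (nat_lit 145997824) (nat_lit 56918016)) (I.mix (nat_lit 82362368) (nat_lit 139657216)) (I.mix (nat_lit 60915712) (nat_lit 86818816)))
  false (nat_lit 0)
def b0_3 : Bx := Bx.mk (St.mk (I.neg (nat_lit 22806528) (nat_lit 64471040)) (I.mix (nat_lit 57704448) (nat_lit 15319040)) (I.neg (nat_lit 3309568) (nat_lit 35110912)) (I.pos (nat_lit 145244160) (nat_lit 164528128)) (I.mix (nat_lit 85934080) (nat_lit 57769984)) (I.mix (nat_lit 62111744) (nat_lit 78921728)) (I.mix (nat_lit 45039616) (nat_lit 28114944)))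
  true (nat_lit 0)
def b0_4 : Bx := Bx.mk (St.mk (I.pos (nat_lit 36569088) (nat_lit 64241664)) (I.mix (nat_lit 15073280) (nat_lit 19775488)) (I.neg (nat_lit 17022976) (nat_lit 34979840)) (I.pos (nat_lit 147652608) (nat_lit 162365440)) (I.mix (nat_lit 58720256) (nat_lit 39780352)) (I.mix (nat_lit 46219264) (nat_lit 48889856)) (I.mix (nat_lit 25690112) (nat_lit 27590656)))
  false (nat_lit 0)
def b0_5 : Bx := Bx.mk (St.mk (I.pos (nat_lit 59228160) (nat_lit 141049856)) (I.neg (nat_lit 2146304) (nat_lit 76562432)) (I.neg (nat_lit 15745024) (nat_lit 78921728)) (I.pos (nat_lit 163266560) (nat_lit 225640448)) (I.mix (nat_lit 128614400) (nat_lit 88965120)) (I.mix (nat_lit 71188480) (nat_lit 122454016)) (I.mix (nat_lit 66879488) (nat_lit 110067712)))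
  false (nat_lit 0)
def b0_6 : Bx := Bx.mk (St.mk (I.mix (nat_lit 38961152) (nat_lit 5341184)) (I.mix (nat_lit 45187072) (nat_lit 4718592)) (I.neg (nat_lit 6995968) (nat_lit 12206080)) (I.pos (nat_lit 144916480) (nat_lit 154877952)) (I.mix (nat_lit 50069504) (nat_lit 57212928)) (I.mix (nat_lit 48070656) (nat_lit 65191936)) (I.mix (nat_lit 12484608) (nat_lit 10010624)))
  true (nat_lit 0)
def b0_7 : Bx := Bx.mk (St.mk (I.mix (nat_lit 4947968) (nat_lit 38977536)) (I.mix (nat_lit 4718592) (nat_lit 45187072)) (I.neg (nat_lit 6995968) (nat_lit 12189696)) (I.pos (nat_lit 144883712) (nat_lit 154877952)) (I.mix (nat_lit 57212928) (nat_lit 50069504)) (I.mix (nat_lit 65191936) (nat_lit 48070656)) (I.mix (nat_lit 12484608) (nat_lit 10010624)))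
  false (nat_lit 0)
def b0_8 : Bx := Bx.mk (St.mk (I.pos (nat_lit 125632512) (nat_lit 198852608)) (I.mix (nat_lit 41107456) (nat_lit 71139328)) (I.mix (nat_lit 49512448) (nat_lit 81641472)) (I.pos (nat_lit 209797120) (nat_lit 305299456)) (I.mix (nat_lit 178896896) (nat_lit 96239616)) (I.mix (nat_lit 199081984) (nat_lit 138428416)) (I.mix (nat_lit 205045760) (nat_lit 147963904)))
  false (nat_lit 0)
def b0_9 : Bx := Bx.mk (St.mk (I.pos (nat_lit 125370368) (nat_lit 138395648)) (I.neg (nat_lit 19677184) (nat_lit 38027264)) (I.neg (nat_lit 24510464) (nat_lit 43794432)) (I.pos (nat_lit 210010112) (nat_lit 223035392)) (I.mix (nat_lit 20021248) (nat_lit 11501568)) (I.mix (nat_lit 10272768) (nat_lit 10289152)) (I.mix (nat_lit 11780096) (nat_lit 9879552)))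
  false (nat_lit 0)
def b0_10 : Bx := Bx.mk (St.mk (I.mix (nat_lit 5341184) (nat_lit 3178496)) (I.mix (nat_lit 10567680) (nat_lit 983040)) (I.neg (nat_lit 9109504) (nat_lit 10469376)) (I.pos (nat_lit 144932864) (nat_lit 146964480)) (I.mix (nat_lit 7225344) (nat_lit 14843904)) (I.mix (nat_lit 5521408) (nat_lit 7143424)) (I.mix (nat_lit 933888) (nat_lit 638976)))
  true (nat_lit 0)
def t0 : BTr := (BTr.n (BTr.n (BTr.n (BTr.b b0_0) (BTr.b b0_1)) (BTr.n (BTr.b b0_2) (BTr.n (BTr.b b0_3) (BTr.b b0_4)))) (BTr.n (BTr.n (BTr.b b0_5) (BTr.n (BTr.b b0_6) (BTr.b b0_7))) (BTr.n (BTr.b b0_8) (BTr.n (BTr.b b0_9) (BTr.b b0_10)))))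
namespace T0
def l0 : Tr := Tr.L (Pth.l (Pth.l (Pth.l Pth.z)))
def l1 : Tr := Tr.L (Pth.l (Pth.l (Pth.r Pth.z)))
def l2 : Tr := Tr.L (Pth.l (Pth.r (Pth.l Pth.z)))
def l3 : Tr := Tr.L (Pth.l (Pth.r (Pth.r (Pth.l Pth.z))))
def l4 : Tr := Tr.L (Pth.l (Pth.r (Pth.r (Pth.r Pth.z))))
def l5 : Tr := Tr.L (Pth.r (Pth.l (Pth.l Pth.z)))
def l6 : Tr := Tr.L (Pth.r (Pth.l (Pth.r (Pth.l Pth.z))))
def l7 : Tr := Tr.L (Pth.r (Pth.l (Pth.r (Pth.r Pth.z))))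
def l8 : Tr := Tr.L (Pth.r (Pth.r (Pth.l Pth.z)))
def l9 : Tr := Tr.L (Pth.r (Pth.r (Pth.r (Pth.l Pth.z))))
def l10 : Tr := Tr.L (Pth.r (Pth.r (Pth.r (Pth.r Pth.z))))
end T0
def b1_0 : Bx := Bx.mk (St.mk (I.pos (nat_lit 125616128) (nat_lit 266731520)) (I.mix (nat_lit 11157504) (nat_lit 102580224)) (I.mix (nat_lit 104955904) (nat_lit 112295936)) (I.pos (nat_lit 372211712) (nat_lit 562315264)) (I.mix (nat_lit 218939392) (nat_lit 139689984)) (I.mix (nat_lit 163643392) (nat_lit 141033472)) (I.mix (nat_lit 251052032) (nat_lit 194428928)))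
  false (nat_lit 63335130)
def b1_1 : Bx := Bx.mk (St.mk (I.pos (nat_lit 18890752) (nat_lit 114966528)) (I.neg (nat_lit 6553600) (nat_lit 99893248)) (I.neg (nat_lit 5406720) (nat_lit 83279872)) (I.pos (nat_lit 272367616) (nat_lit 330809344)) (I.mix (nat_lit 151896064) (nat_lit 113688576)) (I.mix (nat_lit 116932608) (nat_lit 140558336)) (I.mix (nat_lit 121847808) (nat_lit 115130368)))
  false (nat_lit 61585042)
def b1_2 : Bx := Bx.mk (St.mk (I.mix (nat_lit 61079552) (nat_lit 7766016)) (I.mix (nat_lit 5455872) (nat_lit 99483648)) (I.neg (nat_lit 40337408) (nat_lit 66174976)) (I.pos (nat_lit 270843904) (nat_lit 300204032)) (I.mix (nat_lit 96174080) (nat_lit 149209088)) (I.mix (nat_lit 137953280) (nat_lit 118407168)) (I.mix (nat_lit 65273856) (nat_lit 53837824)))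
  true (nat_lit 0)
def b1_3 : Bx := Bx.mk (St.mk (I.pos (nat_lit 96436224) (nat_lit 185696256)) (I.mix (nat_lit 35045376) (nat_lit 98680832)) (I.mix (nat_lit 26181632) (nat_lit 110788608)) (I.pos (nat_lit 313851904) (nat_lit 425066496)) (I.mix (nat_lit 225345536) (nat_lit 116981760)) (I.mix (nat_lit 225099776) (nat_lit 168689664)) (I.mix (nat_lit 239452160) (nat_lit 206159872)))
  false (nat_lit 49004911)
def b1_4 : Bx := Bx.mk (St.mk (I.mix (nat_lit 9175040) (nat_lit 61079552)) (I.mix (nat_lit 99483648) (nat_lit 5455872)) (I.neg (nat_lit 40337408) (nat_lit 66174976)) (I.pos (nat_lit 270843904) (nat_lit 300204032)) (I.mix (nat_lit 149209088) (nat_lit 96174080)) (I.mix (nat_lit 118407168) (nat_lit 137953280)) (I.mix (nat_lit 65290240) (nat_lit 53837824)))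
  false (nat_lit 59502130)
def b1_5 : Bx := Bx.mk (St.mk (I.neg (nat_lit 18890752) (nat_lit 116097024)) (I.pos (nat_lit 6553600) (nat_lit 99893248)) (I.neg (nat_lit 5406720) (nat_lit 83345408)) (I.pos (nat_lit 272367616) (nat_lit 332103680)) (I.mix (nat_lit 113688576) (nat_lit 151912448)) (I.mix (nat_lit 140558336) (nat_lit 116932608)) (I.mix (nat_lit 121847808) (nat_lit 115130368)))
  true (nat_lit 0)
def b1_6 : Bx := Bx.mk (St.mk (I.pos (nat_lit 92848128) (nat_lit 114688000)) (I.neg (nat_lit 17891328) (nat_lit 45318144)) (I.neg (nat_lit 7553024) (nat_lit 30097408)) (I.pos (nat_lit 312819712) (nat_lit 331792384)) (I.mix (nat_lit 39976960) (nat_lit 38174720)) (I.mix (nat_lit 32489472) (nat_lit 35651584)) (I.mix (nat_lit 29736960) (nat_lit 29114368)))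
  false (nat_lit 0)
def b1_7 : Bx := Bx.mk (St.mk (I.mix (nat_lit 9109504) (nat_lit 8404992)) (I.mix (nat_lit 4177920) (nat_lit 20463616)) (I.neg (nat_lit 46809088) (nat_lit 49364992)) (I.pos (nat_lit 271630336) (nat_lit 276824064)) (I.mix (nat_lit 23150592) (nat_lit 40304640)) (I.mix (nat_lit 32522240) (nat_lit 24543232)) (I.mix (nat_lit 3538944) (nat_lit 1916928)))
  true (nat_lit 0)
def t1 : BTr := (BTr.n (BTr.n (BTr.n (BTr.b b1_0) (BTr.b b1_1)) (BTr.n (BTr.b b1_2) (BTr.b b1_3))) (BTr.n (BTr.n (BTr.b b1_4) (BTr.b b1_5)) (BTr.n (BTr.b b1_6) (BTr.b b1_7))))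
namespace T1
def l0 : Tr := Tr.L (Pth.l (Pth.l (Pth.l Pth.z)))
def l1 : Tr := Tr.L (Pth.l (Pth.l (Pth.r Pth.z)))
def l2 : Tr := Tr.L (Pth.l (Pth.r (Pth.l Pth.z)))
def l3 : Tr := Tr.L (Pth.l (Pth.r (Pth.r Pth.z)))
def l4 : Tr := Tr.L (Pth.r (Pth.l (Pth.l Pth.z)))
def l5 : Tr := Tr.L (Pth.r (Pth.l (Pth.r Pth.z)))
def l6 : Tr := Tr.L (Pth.r (Pth.r (Pth.l Pth.z)))
def l7 : Tr := Tr.L (Pth.r (Pth.r (Pth.r Pth.z)))
end T1
def b2_0 : Bx := Bx.mk (St.mk (I.pos (nat_lit 137428992) (nat_lit 262750208)) (I.mix (nat_lit 13352960) (nat_lit 71057408)) (I.mix (nat_lit 28000256) (nat_lit 118964224)) (I.pos (nat_lit 241647616) (nat_lit 426033152)) (I.mix (nat_lit 176947200) (nat_lit 133644288)) (I.mix (nat_lit 161054720) (nat_lit 113082368)) (I.mix (nat_lit 254099456) (nat_lit 159432704)))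
  false (nat_lit 13387446)
def b2_1 : Bx := Bx.mk (St.mk (I.pos (nat_lit 66207744) (nat_lit 140869632)) (I.neg (nat_lit 1064960) (nat_lit 86065152)) (I.mix (nat_lit 62341120) (nat_lit 22691840)) (I.pos (nat_lit 171704320) (nat_lit 223100928)) (I.mix (nat_lit 136019968) (nat_lit 104185856)) (I.mix (nat_lit 93192192) (nat_lit 114343936)) (I.mix (nat_lit 82493440) (nat_lit 100515840)))
  false (nat_lit 31067403)
def b2_2 : Bx := Bx.mk (St.mk (I.mix (nat_lit 32489472) (nat_lit 1818624)) (I.mix (nat_lit 47218688) (nat_lit 12861440)) (I.pos (nat_lit 7700480) (nat_lit 13713408)) (I.pos (nat_lit 144277504) (nat_lit 153092096)) (I.mix (nat_lit 42860544) (nat_lit 69238784)) (I.mix (nat_lit 48136192) (nat_lit 62799872)) (I.mix (nat_lit 9977856) (nat_lit 11550720)))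
  true (nat_lit 0)
def b2_3 : Bx := Bx.mk (St.mk (I.pos (nat_lit 128450560) (nat_lit 188121088)) (I.mix (nat_lit 47136768) (nat_lit 71729152)) (I.mix (nat_lit 22691840) (nat_lit 118194176)) (I.pos (nat_lit 215252992) (nat_lit 286752768)) (I.mix (nat_lit 207978496) (nat_lit 94879744)) (I.mix (nat_lit 220889088) (nat_lit 128516096)) (I.mix (nat_lit 233291776) (nat_lit 140525568)))
  false (nat_lit 16707191)
def b2_4 : Bx := Bx.mk (St.mk (I.mix (nat_lit 2916352) (nat_lit 32489472)) (I.mix (nat_lit 12566528) (nat_lit 47218688)) (I.pos (nat_lit 7700480) (nat_lit 13713408)) (I.pos (nat_lit 144261120) (nat_lit 153092096)) (I.mix (nat_lit 69238784) (nat_lit 42860544)) (I.mix (nat_lit 62799872) (nat_lit 48136192)) (I.mix (nat_lit 9977856) (nat_lit 11550720)))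
  false (nat_lit 0)
def b2_5 : Bx := Bx.mk (St.mk (I.pos (nat_lit 112705536) (nat_lit 140607488)) (I.neg (nat_lit 1310720) (nat_lit 36978688)) (I.mix (nat_lit 10911744) (nat_lit 22364160)) (I.pos (nat_lit 198426624) (nat_lit 222183424)) (I.mix (nat_lit 69730304) (nat_lit 42516480)) (I.mix (nat_lit 42450944) (nat_lit 55459840)) (I.mix (nat_lit 44679168) (nat_lit 49774592)))
  false (nat_lit 0)
def b2_6 : Bx := Bx.mk (St.mk (I.mix (nat_lit 20971520) (nat_lit 2359296)) (I.mix (nat_lit 14647296) (nat_lit 11878400)) (I.pos (nat_lit 8323072) (nat_lit 10403840)) (I.pos (nat_lit 144343040) (nat_lit 147619840)) (I.mix (nat_lit 44449792) (nat_lit 30130176)) (I.mix (nat_lit 35979264) (nat_lit 36159488)) (I.mix (nat_lit 4718592) (nat_lit 4341760)))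
  true (nat_lit 0)
def b2_7 : Bx := Bx.mk (St.mk (I.pos (nat_lit 15351808) (nat_lit 67977216)) (I.mix (nat_lit 4554752) (nat_lit 53559296)) (I.mix (nat_lit 8994816) (nat_lit 17940480)) (I.pos (nat_lit 143491072) (nat_lit 163397632)) (I.mix (nat_lit 67928064) (nat_lit 65044480)) (I.mix (nat_lit 74792960) (nat_lit 57049088)) (I.mix (nat_lit 39501824) (nat_lit 31916032)))
  false (nat_lit 0)
def b2_8 : Bx := Bx.mk (St.mk (I.pos (nat_lit 55492608) (nat_lit 106463232)) (I.mix (nat_lit 73449472) (nat_lit 5324800)) (I.neg (nat_lit 3440640) (nat_lit 46743552)) (I.pos (nat_lit 156286976) (nat_lit 191725568)) (I.mix (nat_lit 117096448) (nat_lit 61456384)) (I.mix (nat_lit 81707008) (nat_lit 115539968)) (I.mix (nat_lit 57524224) (nat_lit 67715072)))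
  false (nat_lit 0)
def b2_9 : Bx := Bx.mk (St.mk (I.neg (nat_lit 15351808) (nat_lit 67551232)) (I.mix (nat_lit 53559296) (nat_lit 4554752)) (I.mix (nat_lit 8798208) (nat_lit 17940480)) (I.pos (nat_lit 143491072) (nat_lit 163217408)) (I.mix (nat_lit 65044480) (nat_lit 67928064)) (I.mix (nat_lit 57049088) (nat_lit 74792960)) (I.mix (nat_lit 39501824) (nat_lit 31981568)))
  true (nat_lit 0)
def b2_10 : Bx := Bx.mk (St.mk (I.pos (nat_lit 55836672) (nat_lit 65552384)) (I.mix (nat_lit 1064960) (nat_lit 12468224)) (I.neg (nat_lit 753664) (nat_lit 7274496)) (I.pos (nat_lit 156860416) (nat_lit 162463744)) (I.mix (nat_lit 9338880) (nat_lit 15859712)) (I.mix (nat_lit 8781824) (nat_lit 6455296)) (I.mix (nat_lit 5505024) (nat_lit 2736128)))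
  false (nat_lit 0)
def t2 : BTr := (BTr.n (BTr.n (BTr.n (BTr.b b2_0) (BTr.b b2_1)) (BTr.n (BTr.b b2_2) (BTr.n (BTr.b b2_3) (BTr.b b2_4)))) (BTr.n (BTr.n (BTr.b b2_5) (BTr.n (BTr.b b2_6) (BTr.b b2_7))) (BTr.n (BTr.b b2_8) (BTr.n (BTr.b b2_9) (BTr.b b2_10)))))
namespace T2
def l0 : Tr := Tr.L (Pth.l (Pth.l (Pth.l Pth.z)))
def l1 : Tr := Tr.L (Pth.l (Pth.l (Pth.r Pth.z)))
def l2 : Tr := Tr.L (Pth.l (Pth.r (Pth.l Pth.z)))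
def l3 : Tr := Tr.L (Pth.l (Pth.r (Pth.r (Pth.l Pth.z))))
def l4 : Tr := Tr.L (Pth.l (Pth.r (Pth.r (Pth.r Pth.z))))
def l5 : Tr := Tr.L (Pth.r (Pth.l (Pth.l Pth.z)))
def l6 : Tr := Tr.L (Pth.r (Pth.l (Pth.r (Pth.l Pth.z))))
def l7 : Tr := Tr.L (Pth.r (Pth.l (Pth.r (Pth.r Pth.z))))
def l8 : Tr := Tr.L (Pth.r (Pth.r (Pth.l Pth.z)))
def l9 : Tr := Tr.L (Pth.r (Pth.r (Pth.r (Pth.l Pth.z))))
def l10 : Tr := Tr.L (Pth.r (Pth.r (Pth.r (Pth.r Pth.z))))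
end T2
theorem bx0_0 : BoxOK sI cl4 cl5 cl5 t1 t1 b0_0 :=
  box_mk (TrL.c (I.pos (nat_lit 0) (nat_lit 0)) (xa (xb (xa T1.l0 T1.l0) (xa (xb T1.l0 T1.l0) (xb T1.l0 T1.l0))) (xb (xa T1.l0 T1.l3) (xa T1.l0 T1.l0)))
  (TrL.c (I.pos (nat_lit 0) (nat_lit 0)) (xa (xb T1.l1 T1.l1) (xb T1.l1 T1.l1))
  (TrL.c (I.pos (nat_lit 0) (nat_lit 0)) T1.l2
  (TrL.c (I.pos (nat_lit 0) (nat_lit 0)) (xa (xb T1.l3 T1.l3) (xb (xa T1.l3 (xb T1.l3 T1.l3)) (xa T1.l3 (xb T1.l3 T1.l3))))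
  (TrL.c (I.pos (nat_lit 0) (nat_lit 0)) T1.l4
  (TrL.c (I.pos (nat_lit 0) (nat_lit 0)) (xa (xb T1.l5 T1.l5) (xb T1.l5 T1.l5))
  TrL.n)))))) (by decide +kernel)
theorem bx0_1 : BoxOK sI cl4 cl5 cl5 t1 t1 b0_1 :=
  box_mk (TrL.c (I.pos (nat_lit 0) (nat_lit 0)) T1.l0
  (TrL.c (I.pos (nat_lit 0) (nat_lit 0)) T1.l1
  (TrL.c (I.pos (nat_lit 0) (nat_lit 0)) T1.l2
  (TrL.c (I.pos (nat_lit 0) (nat_lit 0)) T1.l3
  (TrL.c (I.pos (nat_lit 0) (nat_lit 0)) T1.l4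
  (TrL.c (I.pos (nat_lit 0) (nat_lit 0)) T1.l5
  TrL.n)))))) (by decide +kernel)
theorem bx0_2 : BoxOK sI cl4 cl5 cl5 t1 t1 b0_2 :=
  box_mk (TrL.c (I.pos (nat_lit 0) (nat_lit 0)) (xb (xa T1.l0 T1.l0) T1.l0)
  (TrL.c (I.pos (nat_lit 0) (nat_lit 0)) T1.l1
  (TrL.c (I.pos (nat_lit 0) (nat_lit 0)) T1.l2
  (TrL.c (I.pos (nat_lit 0) (nat_lit 0)) T1.l3
  (TrL.c (I.pos (nat_lit 0) (nat_lit 0)) T1.l4
  (TrL.c (I.pos (nat_lit 0) (nat_lit 0)) T1.l5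
  TrL.n)))))) (by decide +kernel)
theorem bx0_3 : BoxOK sI cl4 cl5 cl5 t1 t1 b0_3 :=
  box_mk (TrL.c (I.pos (nat_lit 0) (nat_lit 0)) T1.l1
  (TrL.c (I.pos (nat_lit 0) (nat_lit 0)) T1.l2
  TrL.n)) (by decide +kernel)
theorem bx0_4 : BoxOK sI cl4 cl5 cl5 t1 t1 b0_4 :=
  box_mk (TrL.c (I.pos (nat_lit 0) (nat_lit 0)) T1.l0
  (TrL.c (I.pos (nat_lit 0) (nat_lit 0)) T1.l1
  (TrL.c (I.pos (nat_lit 0) (nat_lit 0)) T1.l2
  (TrL.c (I.pos (nat_lit 0) (nat_lit 0)) T1.l3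
  (TrL.c (I.pos (nat_lit 0) (nat_lit 0)) T1.l4
  (TrL.c (I.pos (nat_lit 0) (nat_lit 0)) T1.l5
  TrL.n)))))) (by decide +kernel)
theorem bx0_5 : BoxOK sI cl4 cl5 cl5 t1 t1 b0_5 :=
  box_mk (TrL.c (I.pos (nat_lit 0) (nat_lit 0)) (xa (xb (xa T1.l0 T1.l0) T1.l0) T1.l0)
  (TrL.c (I.pos (nat_lit 0) (nat_lit 0)) T1.l1
  (TrL.c (I.pos (nat_lit 0) (nat_lit 0)) T1.l2
  (TrL.c (I.pos (nat_lit 0) (nat_lit 0)) T1.l3
  (TrL.c (I.pos (nat_lit 0) (nat_lit 0)) T1.l4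
  (TrL.c (I.pos (nat_lit 0) (nat_lit 0)) T1.l5
  TrL.n)))))) (by decide +kernel)
theorem bx0_6 : BoxOK sI cl4 cl5 cl5 t1 t1 b0_6 :=
  box_mk (TrL.c (I.pos (nat_lit 0) (nat_lit 0)) T1.l6
  (TrL.c (I.pos (nat_lit 0) (nat_lit 0)) T1.l7
  TrL.n)) (by decide +kernel)
theorem bx0_7 : BoxOK sI cl4 cl5 cl5 t1 t1 b0_7 :=
  box_mk (TrL.c (I.pos (nat_lit 0) (nat_lit 0)) (xb (xa T1.l0 T1.l0) (xa T1.l0 T1.l0))
  (TrL.c (I.pos (nat_lit 0) (nat_lit 0)) T1.l6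
  (TrL.c (I.pos (nat_lit 0) (nat_lit 0)) T1.l7
  (TrL.c (I.pos (nat_lit 0) (nat_lit 0)) T1.l3
  (TrL.c (I.pos (nat_lit 0) (nat_lit 0)) T1.l4
  (TrL.c (I.pos (nat_lit 0) (nat_lit 0)) T1.l5
  TrL.n)))))) (by decide +kernel)
theorem bx0_8 : BoxOK sI cl4 cl5 cl5 t1 t1 b0_8 :=
  box_mk (TrL.c (I.pos (nat_lit 0) (nat_lit 0)) (xb (xa (xb T1.l0 T1.l0) T1.l0) (xa (xb T1.l0 T1.l0) (xb T1.l0 T1.l0)))
  (TrL.c (I.pos (nat_lit 0) (nat_lit 0)) T1.l1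
  (TrL.c (I.pos (nat_lit 0) (nat_lit 0)) T1.l2
  (TrL.c (I.pos (nat_lit 0) (nat_lit 0)) (xb T1.l3 T1.l3)
  (TrL.c (I.pos (nat_lit 0) (nat_lit 0)) T1.l4
  (TrL.c (I.pos (nat_lit 0) (nat_lit 0)) T1.l5
  TrL.n)))))) (by decide +kernel)
theorem bx0_9 : BoxOK sI cl4 cl5 cl5 t1 t1 b0_9 :=
  box_mk (TrL.c (I.pos (nat_lit 0) (nat_lit 0)) T1.l0
  (TrL.c (I.pos (nat_lit 0) (nat_lit 0)) T1.l1
  (TrL.c (I.pos (nat_lit 0) (nat_lit 0)) T1.l2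
  (TrL.c (I.pos (nat_lit 0) (nat_lit 0)) T1.l3
  (TrL.c (I.pos (nat_lit 0) (nat_lit 0)) T1.l4
  (TrL.c (I.pos (nat_lit 0) (nat_lit 0)) T1.l5
  TrL.n)))))) (by decide +kernel)
theorem bx0_10 : BoxOK sI cl4 cl5 cl5 t1 t1 b0_10 :=
  box_mk (TrL.c (I.pos (nat_lit 0) (nat_lit 0)) T1.l6
  (TrL.c (I.pos (nat_lit 0) (nat_lit 0)) T1.l7
  TrL.n)) (by decide +kernel)
theorem sv0 : StarV sI cl4 cl5 cl5 t1 t1 t0 :=
  (bt_n (bt_n (bt_n (bt_b bx0_0) (bt_b bx0_1)) (bt_n (bt_b bx0_2) (bt_n (bt_b bx0_3) (bt_b bx0_4)))) (bt_n (bt_n (bt_b bx0_5) (bt_n (bt_b bx0_6) (bt_b bx0_7))) (bt_n (bt_b bx0_8) (bt_n (bt_b bx0_9) (bt_b bx0_10)))))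
def S0 : StarD := StarD.mk cl4 cl5 cl5 1 1 t0
theorem bx1_0 : BoxOK sI cl5 cl4 cl5 t0 t2 b1_0 :=
  box_mk (TrL.c (I.pos (nat_lit 0) (nat_lit 0)) (xa (xb T0.l0 (xa T0.l0 (xb T0.l0 T0.l0))) (xb (xa T0.l0 T0.l0) (xa T0.l0 T0.l0)))
  (TrL.c (I.pos (nat_lit 0) (nat_lit 0)) T2.l1
  (TrL.c (I.pos (nat_lit 0) (nat_lit 0)) T0.l1
  (TrL.c (I.pos (nat_lit 0) (nat_lit 0)) T2.l2
  (TrL.c (I.pos (nat_lit 0) (nat_lit 0)) (xa T2.l3 (xb (xa T2.l3 T2.l3) (xa (xb T2.l3 (xs T2.l3 T2.l3)) (xb T2.l3 (xs T2.l3 (xa T2.l3 (xb T2.l3 (xs T2.l3 T2.l3))))))))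
  (TrL.c (I.pos (nat_lit 0) (nat_lit 0)) T0.l2
  (TrL.c (I.pos (nat_lit 0) (nat_lit 0)) T2.l4
  (TrL.c (I.pos (nat_lit 0) (nat_lit 0)) T0.l3
  TrL.n)))))))) (by decide +kernel)
theorem bx1_1 : BoxOK sI cl5 cl4 cl5 t0 t2 b1_1 :=
  box_mk (TrL.c (I.pos (nat_lit 0) (nat_lit 0)) (xa (xb (xa (xb T0.l0 T0.l0) T0.l0) T0.l0) T0.l0)
  (TrL.c (I.pos (nat_lit 0) (nat_lit 0)) T2.l1
  (TrL.c (I.pos (nat_lit 0) (nat_lit 0)) T0.l4
  (TrL.c (I.pos (nat_lit 0) (nat_lit 0)) T2.l2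
  (TrL.c (I.pos (nat_lit 0) (nat_lit 0)) T2.l3
  (TrL.c (I.pos (nat_lit 0) (nat_lit 0)) T0.l2
  (TrL.c (I.pos (nat_lit 0) (nat_lit 0)) T2.l4
  (TrL.c (I.pos (nat_lit 0) (nat_lit 0)) T0.l3
  TrL.n)))))))) (by decide +kernel)
theorem bx1_2 : BoxOK sI cl5 cl4 cl5 t0 t2 b1_2 :=
  box_mk (TrL.c (I.pos (nat_lit 0) (nat_lit 0)) T2.l1
  (TrL.c (I.pos (nat_lit 0) (nat_lit 0)) T0.l4
  (TrL.c (I.pos (nat_lit 0) (nat_lit 0)) T2.l2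
  TrL.n))) (by decide +kernel)
theorem bx1_3 : BoxOK sI cl5 cl4 cl5 t0 t2 b1_3 :=
  box_mk (TrL.c (I.pos (nat_lit 0) (nat_lit 0)) (xb (xa T0.l0 T0.l0) (xa (xb T0.l0 T0.l0) (xb T0.l0 T0.l0)))
  (TrL.c (I.pos (nat_lit 0) (nat_lit 0)) T2.l1
  (TrL.c (I.pos (nat_lit 0) (nat_lit 0)) T0.l1
  (TrL.c (I.pos (nat_lit 0) (nat_lit 0)) T2.l2
  (TrL.c (I.pos (nat_lit 0) (nat_lit 0)) (xb T2.l3 (xb T2.l3 T2.l3))
  (TrL.c (I.pos (nat_lit 0) (nat_lit 0)) T0.l2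
  (TrL.c (I.pos (nat_lit 0) (nat_lit 0)) T2.l4
  (TrL.c (I.pos (nat_lit 0) (nat_lit 0)) T0.l3
  TrL.n)))))))) (by decide +kernel)
theorem bx1_4 : BoxOK sI cl5 cl4 cl5 t0 t2 b1_4 :=
  box_mk (TrL.c (I.pos (nat_lit 0) (nat_lit 0)) (xb (xa (xb (xa (xs T0.l0 T0.l0) T0.l0) T0.l0) T0.l0) (xa (xb T0.l0 T0.l0) T0.l0))
  (TrL.c (I.pos (nat_lit 0) (nat_lit 0)) T2.l1
  (TrL.c (I.pos (nat_lit 0) (nat_lit 0)) T0.l1
  (TrL.c (I.pos (nat_lit 0) (nat_lit 0)) T2.l2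
  (TrL.c (I.pos (nat_lit 0) (nat_lit 0)) T2.l3
  (TrL.c (I.pos (nat_lit 0) (nat_lit 0)) T0.l2
  (TrL.c (I.pos (nat_lit 0) (nat_lit 0)) T2.l4
  (TrL.c (I.pos (nat_lit 0) (nat_lit 0)) T0.l3
  TrL.n)))))))) (by decide +kernel)
theorem bx1_5 : BoxOK sI cl5 cl4 cl5 t0 t2 b1_5 :=
  box_mk (TrL.c (I.pos (nat_lit 0) (nat_lit 0)) T2.l1
  (TrL.c (I.pos (nat_lit 0) (nat_lit 0)) T0.l4
  (TrL.c (I.pos (nat_lit 0) (nat_lit 0)) T2.l6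
  TrL.n))) (by decide +kernel)
theorem bx1_6 : BoxOK sI cl5 cl4 cl5 t0 t2 b1_6 :=
  box_mk (TrL.c (I.pos (nat_lit 0) (nat_lit 0)) T0.l0
  (TrL.c (I.pos (nat_lit 0) (nat_lit 0)) T2.l1
  (TrL.c (I.pos (nat_lit 0) (nat_lit 0)) T0.l1
  (TrL.c (I.pos (nat_lit 0) (nat_lit 0)) T2.l2
  (TrL.c (I.pos (nat_lit 0) (nat_lit 0)) T2.l3
  (TrL.c (I.pos (nat_lit 0) (nat_lit 0)) T0.l2
  (TrL.c (I.pos (nat_lit 0) (nat_lit 0)) T2.l4
  (TrL.c (I.pos (nat_lit 0) (nat_lit 0)) T0.l3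
  TrL.n)))))))) (by decide +kernel)
theorem bx1_7 : BoxOK sI cl5 cl4 cl5 t0 t2 b1_7 :=
  box_mk (TrL.c (I.pos (nat_lit 0) (nat_lit 0)) T2.l5
  (TrL.c (I.pos (nat_lit 0) (nat_lit 0)) T0.l4
  (TrL.c (I.pos (nat_lit 0) (nat_lit 0)) T2.l6
  TrL.n))) (by decide +kernel)
theorem sv1 : StarV sI cl5 cl4 cl5 t0 t2 t1 :=
  (bt_n (bt_n (bt_n (bt_b bx1_0) (bt_b bx1_1)) (bt_n (bt_b bx1_2) (bt_b bx1_3))) (bt_n (bt_n (bt_b bx1_4) (bt_b bx1_5)) (bt_n (bt_b bx1_6) (bt_b bx1_7))))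
def S1 : StarD := StarD.mk cl5 cl4 cl5 0 2 t1
theorem bx2_0 : BoxOK sI cl5 cl5 cl4 t2 t0 b2_0 :=
  box_mk (TrL.c (I.pos (nat_lit 0) (nat_lit 0)) (xa (xa (xb T2.l0 (xb T2.l0 T2.l0)) (xb T2.l0 (xb T2.l0 T2.l0))) (xa (xb (xb T2.l0 T2.l0) T2.l0) (xb (xb T2.l0 T2.l0) T2.l0)))
  (TrL.c (I.pos (nat_lit 0) (nat_lit 0)) (xa T0.l5 T0.l5)
  (TrL.c (I.pos (nat_lit 0) (nat_lit 0)) T2.l7
  (TrL.c (I.pos (nat_lit 0) (nat_lit 0)) T0.l6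
  (TrL.c (I.pos (nat_lit 0) (nat_lit 0)) (xa T0.l8 (xb T0.l8 (xa T0.l8 (xb T0.l8 T0.l8))))
  (TrL.c (I.pos (nat_lit 0) (nat_lit 0)) T2.l8
  (TrL.c (I.pos (nat_lit 0) (nat_lit 0)) T0.l7
  (TrL.c (I.pos (nat_lit 0) (nat_lit 0)) T2.l9
  TrL.n)))))))) (by decide +kernel)
theorem bx2_1 : BoxOK sI cl5 cl5 cl4 t2 t0 b2_1 :=
  box_mk (TrL.c (I.pos (nat_lit 0) (nat_lit 0)) (xa (xb T2.l0 T2.l0) T2.l0)
  (TrL.c (I.pos (nat_lit 0) (nat_lit 0)) T0.l5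
  (TrL.c (I.pos (nat_lit 0) (nat_lit 0)) T2.l7
  (TrL.c (I.pos (nat_lit 0) (nat_lit 0)) T0.l6
  (TrL.c (I.pos (nat_lit 0) (nat_lit 0)) T0.l8
  (TrL.c (I.pos (nat_lit 0) (nat_lit 0)) T2.l8
  (TrL.c (I.pos (nat_lit 0) (nat_lit 0)) T0.l7
  (TrL.c (I.pos (nat_lit 0) (nat_lit 0)) T2.l9
  TrL.n)))))))) (by decide +kernel)
theorem bx2_2 : BoxOK sI cl5 cl5 cl4 t2 t0 b2_2 :=
  box_mk (TrL.c (I.pos (nat_lit 0) (nat_lit 0)) T0.l5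
  (TrL.c (I.pos (nat_lit 0) (nat_lit 0)) T2.l7
  (TrL.c (I.pos (nat_lit 0) (nat_lit 0)) T0.l6
  TrL.n))) (by decide +kernel)
theorem bx2_3 : BoxOK sI cl5 cl5 cl4 t2 t0 b2_3 :=
  box_mk (TrL.c (I.pos (nat_lit 0) (nat_lit 0)) (xb (xa (xb T2.l0 T2.l0) (xb T2.l0 T2.l0)) (xa (xb T2.l0 T2.l0) (xb T2.l0 T2.l0)))
  (TrL.c (I.pos (nat_lit 0) (nat_lit 0)) T0.l5
  (TrL.c (I.pos (nat_lit 0) (nat_lit 0)) T2.l7
  (TrL.c (I.pos (nat_lit 0) (nat_lit 0)) T0.l6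
  (TrL.c (I.pos (nat_lit 0) (nat_lit 0)) (xb T0.l8 T0.l8)
  (TrL.c (I.pos (nat_lit 0) (nat_lit 0)) T2.l8
  (TrL.c (I.pos (nat_lit 0) (nat_lit 0)) T0.l7
  (TrL.c (I.pos (nat_lit 0) (nat_lit 0)) T2.l9
  TrL.n)))))))) (by decide +kernel)
theorem bx2_4 : BoxOK sI cl5 cl5 cl4 t2 t0 b2_4 :=
  box_mk (TrL.c (I.pos (nat_lit 0) (nat_lit 0)) (xb T2.l0 T2.l0)
  (TrL.c (I.pos (nat_lit 0) (nat_lit 0)) T0.l5
  (TrL.c (I.pos (nat_lit 0) (nat_lit 0)) T2.l7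
  (TrL.c (I.pos (nat_lit 0) (nat_lit 0)) T0.l6
  (TrL.c (I.pos (nat_lit 0) (nat_lit 0)) T0.l8
  (TrL.c (I.pos (nat_lit 0) (nat_lit 0)) T2.l8
  (TrL.c (I.pos (nat_lit 0) (nat_lit 0)) T0.l7
  (TrL.c (I.pos (nat_lit 0) (nat_lit 0)) T2.l9
  TrL.n)))))))) (by decide +kernel)
theorem bx2_5 : BoxOK sI cl5 cl5 cl4 t2 t0 b2_5 :=
  box_mk (TrL.c (I.pos (nat_lit 0) (nat_lit 0)) T2.l0
  (TrL.c (I.pos (nat_lit 0) (nat_lit 0)) T0.l5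
  (TrL.c (I.pos (nat_lit 0) (nat_lit 0)) T2.l7
  (TrL.c (I.pos (nat_lit 0) (nat_lit 0)) T0.l6
  (TrL.c (I.pos (nat_lit 0) (nat_lit 0)) T0.l8
  (TrL.c (I.pos (nat_lit 0) (nat_lit 0)) T2.l8
  (TrL.c (I.pos (nat_lit 0) (nat_lit 0)) T0.l7
  (TrL.c (I.pos (nat_lit 0) (nat_lit 0)) T2.l9
  TrL.n)))))))) (by decide +kernel)
theorem bx2_6 : BoxOK sI cl5 cl5 cl4 t2 t0 b2_6 :=
  box_mk (TrL.c (I.pos (nat_lit 0) (nat_lit 0)) T0.l5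
  (TrL.c (I.pos (nat_lit 0) (nat_lit 0)) T2.l7
  (TrL.c (I.pos (nat_lit 0) (nat_lit 0)) T0.l6
  TrL.n))) (by decide +kernel)
theorem bx2_7 : BoxOK sI cl5 cl5 cl4 t2 t0 b2_7 :=
  box_mk (TrL.c (I.pos (nat_lit 0) (nat_lit 0)) T2.l0
  (TrL.c (I.pos (nat_lit 0) (nat_lit 0)) T0.l5
  (TrL.c (I.pos (nat_lit 0) (nat_lit 0)) T2.l7
  (TrL.c (I.pos (nat_lit 0) (nat_lit 0)) T0.l6
  (TrL.c (I.pos (nat_lit 0) (nat_lit 0)) T0.l8
  (TrL.c (I.pos (nat_lit 0) (nat_lit 0)) T2.l8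
  (TrL.c (I.pos (nat_lit 0) (nat_lit 0)) T0.l7
  (TrL.c (I.pos (nat_lit 0) (nat_lit 0)) T2.l9
  TrL.n)))))))) (by decide +kernel)
theorem bx2_8 : BoxOK sI cl5 cl5 cl4 t2 t0 b2_8 :=
  box_mk (TrL.c (I.pos (nat_lit 0) (nat_lit 0)) (xb T2.l0 T2.l0)
  (TrL.c (I.pos (nat_lit 0) (nat_lit 0)) T0.l5
  (TrL.c (I.pos (nat_lit 0) (nat_lit 0)) T2.l7
  (TrL.c (I.pos (nat_lit 0) (nat_lit 0)) T0.l6
  (TrL.c (I.pos (nat_lit 0) (nat_lit 0)) T0.l8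
  (TrL.c (I.pos (nat_lit 0) (nat_lit 0)) T2.l8
  (TrL.c (I.pos (nat_lit 0) (nat_lit 0)) T0.l7
  (TrL.c (I.pos (nat_lit 0) (nat_lit 0)) T2.l9
  TrL.n)))))))) (by decide +kernel)
theorem bx2_9 : BoxOK sI cl5 cl5 cl4 t2 t0 b2_9 :=
  box_mk (TrL.c (I.pos (nat_lit 0) (nat_lit 0)) T0.l5
  (TrL.c (I.pos (nat_lit 0) (nat_lit 0)) T2.l7
  (TrL.c (I.pos (nat_lit 0) (nat_lit 0)) T0.l6
  TrL.n))) (by decide +kernel)
theorem bx2_10 : BoxOK sI cl5 cl5 cl4 t2 t0 b2_10 :=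
  box_mk (TrL.c (I.pos (nat_lit 0) (nat_lit 0)) T2.l0
  (TrL.c (I.pos (nat_lit 0) (nat_lit 0)) T0.l5
  (TrL.c (I.pos (nat_lit 0) (nat_lit 0)) T2.l7
  (TrL.c (I.pos (nat_lit 0) (nat_lit 0)) T0.l6
  (TrL.c (I.pos (nat_lit 0) (nat_lit 0)) T0.l8
  (TrL.c (I.pos (nat_lit 0) (nat_lit 0)) T2.l8
  (TrL.c (I.pos (nat_lit 0) (nat_lit 0)) T0.l7
  (TrL.c (I.pos (nat_lit 0) (nat_lit 0)) T2.l9
  TrL.n)))))))) (by decide +kernel)
theorem sv2 : StarV sI cl5 cl5 cl4 t2 t0 t2 :=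
  (bt_n (bt_n (bt_n (bt_b bx2_0) (bt_b bx2_1)) (bt_n (bt_b bx2_2) (bt_n (bt_b bx2_3) (bt_b bx2_4)))) (bt_n (bt_n (bt_b bx2_5) (bt_n (bt_b bx2_6) (bt_b bx2_7))) (bt_n (bt_b bx2_8) (bt_n (bt_b bx2_9) (bt_b bx2_10)))))
def S2 : StarD := StarD.mk cl5 cl5 cl4 2 0 t2
def G : List StarD := [S0, S1, S2]
theorem so0 : StarOK sI G S0 :=
  star_mk (by decide) (by decide) rfl rfl rfl rfl rfl rfl (rfl : _ = t1) (rfl : _ = t1)
  (st_mk (Pth.l (Pth.l (Pth.l Pth.z))) (nat_lit 251915201) (nat_lit 254482457) (by decide +kernel))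
  (st_mk (Pth.l (Pth.l (Pth.l Pth.z))) (nat_lit 291405338) (nat_lit 294916724) (by decide +kernel))
  (st_mk (Pth.l (Pth.l (Pth.l Pth.z))) (nat_lit 337940752) (nat_lit 342792856) (by decide +kernel)) sv0
theorem so1 : StarOK sI G S1 :=
  star_mk (by decide) (by decide) rfl rfl rfl rfl rfl rfl (rfl : _ = t0) (rfl : _ = t2)
  (st_mk (Pth.l (Pth.l (Pth.l Pth.z))) (nat_lit 381513847) (nat_lit 384534888) (by decide +kernel))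
  (st_mk (Pth.l (Pth.l (Pth.l Pth.z))) (nat_lit 419885678) (nat_lit 423583896) (by decide +kernel))
  (st_mk (Pth.l (Pth.l (Pth.l Pth.z))) (nat_lit 464622891) (nat_lit 469209299) (by decide +kernel)) sv1
theorem so2 : StarOK sI G S2 :=
  star_mk (by decide) (by decide) rfl rfl rfl rfl rfl rfl (rfl : _ = t2) (rfl : _ = t0)
  (st_mk (Pth.l (Pth.l (Pth.l Pth.z))) (nat_lit 247663669) (nat_lit 249357472) (by decide +kernel))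
  (st_mk (Pth.l (Pth.l (Pth.l Pth.z))) (nat_lit 285642879) (nat_lit 287926274) (by decide +kernel))
  (st_mk (Pth.l (Pth.l (Pth.l Pth.z))) (nat_lit 330071479) (nat_lit 333171470) (by decide +kernel)) sv2
theorem ok : GroupOK (nat_lit 91226112) (nat_lit 150339584) G := grp_mk (allS_c so0 (allS_c so1 (allS_c so2 allS_n)))
theorem cov : GCov G cl4 cl5 cl5 := cov_mk
  ⟨0, by decide, rfl, rfl, rfl⟩ ⟨0, by decide, rfl, rfl, rfl⟩ ⟨1, by decide, rfl, rfl, rfl⟩ ⟨2, by decide, rfl, rfl, rfl⟩ ⟨1, by decide, rfl, rfl, rfl⟩ ⟨2, by decide, rfl, rfl, rfl⟩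
end Q122_1


end Pool.Agent.Helper6.MONO
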