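import Pool.Agent.Helper6.MONO.Cert.C42

/-!
Certificate data (generated).
-/

set_option autoImplicit false
set_option linter.all false
noncomputable section
namespace Pool.Agent.Helper6.MONO


namespace Q122_2
def sI : I := I.pos (nat_lit 150274048) (nat_lit 209387520)
def b0_0 : Bx := Bx.mk (St.mk (I.pos (nat_lit 142934016) (nat_lit 224952320)) (I.mix (nat_lit 6668288) (nat_lit 79298560)) (I.mix (nat_lit 7487488) (nat_lit 88866816)) (I.pos (nat_lit 244187136) (nat_lit 365166592)) (I.mix (nat_lit 192692224) (nat_lit 138559488)) (I.mix (nat_lit 123371520) (nat_lit 122470400)) (I.mix (nat_lit 203440128) (nat_lit 197885952)))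
  false (nat_lit 21713406)
def b0_1 : Bx := Bx.mk (St.mk (I.pos (nat_lit 17924096) (nat_lit 63782912)) (I.mix (nat_lit 13680640) (nat_lit 51134464)) (I.neg (nat_lit 2457600) (nat_lit 34668544)) (I.pos (nat_lit 145637376) (nat_lit 165560320)) (I.mix (nat_lit 71090176) (nat_lit 96190464)) (I.mix (nat_lit 81166336) (nat_lit 64356352)) (I.mix (nat_lit 46399488) (nat_lit 28147712)))
  false (nat_lit 0)
def b0_2 : Bx := Bx.mk (St.mk (I.pos (nat_lit 50577408) (nat_lit 98058240)) (I.mix (nat_lit 66797568) (nat_lit 16924672)) (I.neg (nat_lit 18284544) (nat_lit 67600384)) (I.pos (nat_lit 151928832) (nat_lit 186810368)) (I.mix (nat_lit 146456576) (nat_lit 71057408)) (I.mix (nat_lit 75481088) (nat_lit 127500288)) (I.mix (nat_lit 57147392) (nat_lit 75546624)))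
  false (nat_lit 0)
def b0_3 : Bx := Bx.mk (St.mk (I.neg (nat_lit 17317888) (nat_lit 70123520)) (I.mix (nat_lit 51216384) (nat_lit 14663680)) (I.neg (nat_lit 2457600) (nat_lit 34619392)) (I.pos (nat_lit 145637376) (nat_lit 165560320)) (I.mix (nat_lit 96206848) (nat_lit 71090176)) (I.mix (nat_lit 64356352) (nat_lit 81166336)) (I.mix (nat_lit 46399488) (nat_lit 28213248)))
  true (nat_lit 0)
def b0_4 : Bx := Bx.mk (St.mk (I.pos (nat_lit 168001536) (nat_lit 241188864)) (I.mix (nat_lit 20725760) (nat_lit 75776000)) (I.mix (nat_lit 97697792) (nat_lit 75104256)) (I.pos (nat_lit 292290560) (nat_lit 384516096)) (I.mix (nat_lit 164511744) (nat_lit 138346496)) (I.mix (nat_lit 143704064) (nat_lit 124895232)) (I.mix (nat_lit 253378560) (nat_lit 206372864)))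
  false (nat_lit 8441356)
def b0_5 : Bx := Bx.mk (St.mk (I.pos (nat_lit 38748160) (nat_lit 69074944)) (I.mix (nat_lit 17170432) (nat_lit 15204352)) (I.neg (nat_lit 19300352) (nat_lit 36208640)) (I.pos (nat_lit 147947520) (nat_lit 164921344)) (I.mix (nat_lit 68255744) (nat_lit 49954816)) (I.mix (nat_lit 50216960) (nat_lit 47202304)) (I.mix (nat_lit 26886144) (nat_lit 26640384)))
  false (nat_lit 0)
def b0_6 : Bx := Bx.mk (St.mk (I.pos (nat_lit 197656576) (nat_lit 251084800)) (I.mix (nat_lit 22839296) (nat_lit 18661376)) (I.neg (nat_lit 27557888) (nat_lit 106921984)) (I.pos (nat_lit 319520768) (nat_lit 409337856)) (I.mix (nat_lit 162381824) (nat_lit 51265536)) (I.mix (nat_lit 96632832) (nat_lit 105824256)) (I.mix (nat_lit 162365440) (nat_lit 204718080)))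
  false (nat_lit 0)
def b0_7 : Bx := Bx.mk (St.mk (I.pos (nat_lit 50905088) (nat_lit 147030016)) (I.neg (nat_lit 1490944) (nat_lit 73302016)) (I.neg (nat_lit 14024704) (nat_lit 75464704)) (I.pos (nat_lit 159793152) (nat_lit 232062976)) (I.mix (nat_lit 119373824) (nat_lit 86245376)) (I.mix (nat_lit 64094208) (nat_lit 102940672)) (I.mix (nat_lit 59359232) (nat_lit 94175232)))
  false (nat_lit 0)
def b0_8 : Bx := Bx.mk (St.mk (I.mix (nat_lit 44367872) (nat_lit 10272768)) (I.mix (nat_lit 45481984) (nat_lit 8421376)) (I.neg (nat_lit 6602752) (nat_lit 13090816)) (I.pos (nat_lit 144474112) (nat_lit 157958144)) (I.mix (nat_lit 49709056) (nat_lit 57851904)) (I.mix (nat_lit 39288832) (nat_lit 57458688)) (I.mix (nat_lit 9568256) (nat_lit 9715712)))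
  true (nat_lit 0)
def b0_9 : Bx := Bx.mk (St.mk (I.mix (nat_lit 11665408) (nat_lit 44498944)) (I.mix (nat_lit 8421376) (nat_lit 45481984)) (I.neg (nat_lit 6602752) (nat_lit 13090816)) (I.pos (nat_lit 144474112) (nat_lit 157958144)) (I.mix (nat_lit 57851904) (nat_lit 49709056)) (I.mix (nat_lit 57458688) (nat_lit 39288832)) (I.mix (nat_lit 9568256) (nat_lit 9715712)))
  false (nat_lit 0)
def b0_10 : Bx := Bx.mk (St.mk (I.pos (nat_lit 118571008) (nat_lit 179912704)) (I.mix (nat_lit 38043648) (nat_lit 7815168)) (I.mix (nat_lit 46153728) (nat_lit 5881856)) (I.pos (nat_lit 202391552) (nat_lit 274284544)) (I.mix (nat_lit 94863360) (nat_lit 94208000)) (I.mix (nat_lit 95109120) (nat_lit 88571904)) (I.mix (nat_lit 97648640) (nat_lit 83165184)))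
  false (nat_lit 0)
def b0_11 : Bx := Bx.mk (St.mk (I.pos (nat_lit 119717888) (nat_lit 139608064)) (I.neg (nat_lit 15974400) (nat_lit 39878656)) (I.neg (nat_lit 20709376) (nat_lit 45924352)) (I.pos (nat_lit 205504512) (nat_lit 225574912)) (I.mix (nat_lit 33472512) (nat_lit 18022400)) (I.mix (nat_lit 15204352) (nat_lit 17661952)) (I.mix (nat_lit 17317888) (nat_lit 17727488)))
  false (nat_lit 0)
def b0_12 : Bx := Bx.mk (St.mk (I.mix (nat_lit 7438336) (nat_lit 5160960)) (I.mix (nat_lit 11714560) (nat_lit 2670592)) (I.neg (nat_lit 9043968) (nat_lit 10600448)) (I.pos (nat_lit 145227776) (nat_lit 147570688)) (I.mix (nat_lit 13271040) (nat_lit 20267008)) (I.mix (nat_lit 8699904) (nat_lit 11026432)) (I.mix (nat_lit 1097728) (nat_lit 737280)))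
  true (nat_lit 0)
def b0_13 : Bx := Bx.mk (St.mk (I.pos (nat_lit 137379840) (nat_lit 183533568)) (I.mix (nat_lit 14827520) (nat_lit 34275328)) (I.mix (nat_lit 18448384) (nat_lit 40091648)) (I.pos (nat_lit 234881024) (nat_lit 281198592)) (I.mix (nat_lit 144375808) (nat_lit 89505792)) (I.mix (nat_lit 152682496) (nat_lit 85360640)) (I.mix (nat_lit 152354816) (nat_lit 84967424)))
  false (nat_lit 0)
def b0_14 : Bx := Bx.mk (St.mk (I.pos (nat_lit 140623872) (nat_lit 192086016)) (I.mix (nat_lit 6864896) (nat_lit 64307200)) (I.mix (nat_lit 4456448) (nat_lit 73613312)) (I.pos (nat_lit 238075904) (nat_lit 308772864)) (I.mix (nat_lit 158007296) (nat_lit 60653568)) (I.mix (nat_lit 145342464) (nat_lit 93929472)) (I.mix (nat_lit 140591104) (nat_lit 102170624)))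
  false (nat_lit 0)
def t0 : BTr := (BTr.n (BTr.n (BTr.n (BTr.b b0_0) (BTr.n (BTr.b b0_1) (BTr.b b0_2))) (BTr.n (BTr.n (BTr.b b0_3) (BTr.b b0_4)) (BTr.n (BTr.b b0_5) (BTr.b b0_6)))) (BTr.n (BTr.n (BTr.n (BTr.b b0_7) (BTr.b b0_8)) (BTr.n (BTr.b b0_9) (BTr.b b0_10))) (BTr.n (BTr.n (BTr.b b0_11) (BTr.b b0_12)) (BTr.n (BTr.b b0_13) (BTr.b b0_14)))))
namespace T0
def l0 : Tr := Tr.L (Pth.l (Pth.l (Pth.l Pth.z)))
def l1 : Tr := Tr.L (Pth.l (Pth.l (Pth.r (Pth.l Pth.z))))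
def l2 : Tr := Tr.L (Pth.l (Pth.l (Pth.r (Pth.r Pth.z))))
def l3 : Tr := Tr.L (Pth.l (Pth.r (Pth.l (Pth.l Pth.z))))
def l4 : Tr := Tr.L (Pth.l (Pth.r (Pth.l (Pth.r Pth.z))))
def l5 : Tr := Tr.L (Pth.l (Pth.r (Pth.r (Pth.l Pth.z))))
def l6 : Tr := Tr.L (Pth.l (Pth.r (Pth.r (Pth.r Pth.z))))
def l7 : Tr := Tr.L (Pth.r (Pth.l (Pth.l (Pth.l Pth.z))))
def l8 : Tr := Tr.L (Pth.r (Pth.l (Pth.l (Pth.r Pth.z))))
def l9 : Tr := Tr.L (Pth.r (Pth.l (Pth.r (Pth.l Pth.z))))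
def l10 : Tr := Tr.L (Pth.r (Pth.l (Pth.r (Pth.r Pth.z))))
def l11 : Tr := Tr.L (Pth.r (Pth.r (Pth.l (Pth.l Pth.z))))
def l12 : Tr := Tr.L (Pth.r (Pth.r (Pth.l (Pth.r Pth.z))))
def l13 : Tr := Tr.L (Pth.r (Pth.r (Pth.r (Pth.l Pth.z))))
def l14 : Tr := Tr.L (Pth.r (Pth.r (Pth.r (Pth.r Pth.z))))
end T0
def b1_0 : Bx := Bx.mk (St.mk (I.pos (nat_lit 125157376) (nat_lit 222822400)) (I.mix (nat_lit 8552448) (nat_lit 99074048)) (I.mix (nat_lit 9388032) (nat_lit 106577920)) (I.pos (nat_lit 374652928) (nat_lit 483835904)) (I.mix (nat_lit 233586688) (nat_lit 154107904)) (I.mix (nat_lit 150142976) (nat_lit 140492800)) (I.mix (nat_lit 198737920) (nat_lit 202686464)))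
  false (nat_lit 74232698)
def b1_1 : Bx := Bx.mk (St.mk (I.pos (nat_lit 16154624) (nat_lit 127172608)) (I.neg (nat_lit 7487488) (nat_lit 96813056)) (I.neg (nat_lit 917504) (nat_lit 81215488)) (I.pos (nat_lit 273285120) (nat_lit 341852160)) (I.mix (nat_lit 170311680) (nat_lit 120291328)) (I.mix (nat_lit 118882304) (nat_lit 123518976)) (I.mix (nat_lit 128647168) (nat_lit 101744640)))
  false (nat_lit 96261610)
def b1_2 : Bx := Bx.mk (St.mk (I.mix (nat_lit 65011712) (nat_lit 18710528)) (I.mix (nat_lit 14647296) (nat_lit 95846400)) (I.neg (nat_lit 41238528) (nat_lit 66797568)) (I.pos (nat_lit 267157504) (nat_lit 304103424)) (I.mix (nat_lit 103006208) (nat_lit 163741696)) (I.mix (nat_lit 132775936) (nat_lit 119734272)) (I.mix (nat_lit 71188480) (nat_lit 57311232)))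
  true (nat_lit 0)
def b1_3 : Bx := Bx.mk (St.mk (I.pos (nat_lit 85901312) (nat_lit 183435264)) (I.mix (nat_lit 39780352) (nat_lit 86982656)) (I.mix (nat_lit 30965760) (nat_lit 102252544)) (I.pos (nat_lit 304578560) (nat_lit 430997504)) (I.mix (nat_lit 224739328) (nat_lit 112574464)) (I.mix (nat_lit 192495616) (nat_lit 153468928)) (I.mix (nat_lit 205160448) (nat_lit 198115328)))
  false (nat_lit 50646474)
def b1_4 : Bx := Bx.mk (St.mk (I.pos (nat_lit 4800512) (nat_lit 62324736)) (I.neg (nat_lit 25100288) (nat_lit 95485952)) (I.neg (nat_lit 40747008) (nat_lit 66797568)) (I.pos (nat_lit 274055168) (nat_lit 303480832)) (I.mix (nat_lit 163741696) (nat_lit 102989824)) (I.mix (nat_lit 119734272) (nat_lit 132775936)) (I.mix (nat_lit 71188480) (nat_lit 57311232)))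
  false (nat_lit 82237142)
def b1_5 : Bx := Bx.mk (St.mk (I.neg (nat_lit 16285696) (nat_lit 125861888)) (I.pos (nat_lit 7487488) (nat_lit 96813056)) (I.neg (nat_lit 917504) (nat_lit 81215488)) (I.pos (nat_lit 273268736) (nat_lit 341180416)) (I.mix (nat_lit 120291328) (nat_lit 170311680)) (I.mix (nat_lit 123535360) (nat_lit 118882304)) (I.mix (nat_lit 128663552) (nat_lit 101744640)))
  true (nat_lit 0)
def b1_6 : Bx := Bx.mk (St.mk (I.pos (nat_lit 166903808) (nat_lit 273661952)) (I.mix (nat_lit 11943936) (nat_lit 53231616)) (I.mix (nat_lit 124190720) (nat_lit 23183360)) (I.pos (nat_lit 401440768) (nat_lit 581681152)) (I.mix (nat_lit 142426112) (nat_lit 112574464)) (I.mix (nat_lit 108249088) (nat_lit 99647488)) (I.mix (nat_lit 187744256) (nat_lit 168968192)))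
  false (nat_lit 0)
def b1_7 : Bx := Bx.mk (St.mk (I.mix (nat_lit 18448384) (nat_lit 46383104)) (I.mix (nat_lit 43401216) (nat_lit 11927552)) (I.neg (nat_lit 42254336) (nat_lit 51970048)) (I.pos (nat_lit 270204928) (nat_lit 285704192)) (I.mix (nat_lit 77185024) (nat_lit 74252288)) (I.mix (nat_lit 62226432) (nat_lit 61898752)) (I.mix (nat_lit 21037056) (nat_lit 18546688)))
  false (nat_lit 0)
def b1_8 : Bx := Bx.mk (St.mk (I.pos (nat_lit 91914240) (nat_lit 118390784)) (I.neg (nat_lit 15892480) (nat_lit 46497792)) (I.neg (nat_lit 5226496) (nat_lit 31555584)) (I.pos (nat_lit 313982976) (nat_lit 336969728)) (I.mix (nat_lit 30720000) (nat_lit 29196288)) (I.mix (nat_lit 19218432) (nat_lit 18923520)) (I.mix (nat_lit 18874368) (nat_lit 15171584)))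
  false (nat_lit 0)
def b1_9 : Bx := Bx.mk (St.mk (I.mix (nat_lit 11714560) (nat_lit 12107776)) (I.mix (nat_lit 6373376) (nat_lit 22577152)) (I.neg (nat_lit 46628864) (nat_lit 49922048)) (I.pos (nat_lit 270811136) (nat_lit 277463040)) (I.mix (nat_lit 16728064) (nat_lit 33865728)) (I.mix (nat_lit 16596992) (nat_lit 13549568)) (I.mix (nat_lit 3964928) (nat_lit 1933312)))
  true (nat_lit 0)
def b1_10 : Bx := Bx.mk (St.mk (I.pos (nat_lit 152190976) (nat_lit 209059840)) (I.pos (nat_lit 22167552) (nat_lit 92258304)) (I.mix (nat_lit 15728640) (nat_lit 86294528)) (I.pos (nat_lit 405651456) (nat_lit 468221952)) (I.mix (nat_lit 130367488) (nat_lit 108625920)) (I.mix (nat_lit 107905024) (nat_lit 79183872)) (I.mix (nat_lit 172982272) (nat_lit 107446272)))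
  false (nat_lit 0)
def b1_11 : Bx := Bx.mk (St.mk (I.pos (nat_lit 10338304) (nat_lit 44728320)) (I.neg (nat_lit 17154048) (nat_lit 71139328)) (I.neg (nat_lit 44924928) (nat_lit 62373888)) (I.pos (nat_lit 273694720) (nat_lit 291389440)) (I.mix (nat_lit 85524480) (nat_lit 38879232)) (I.mix (nat_lit 33275904) (nat_lit 60866560)) (I.mix (nat_lit 25411584) (nat_lit 13746176)))
  false (nat_lit 0)
def t1 : BTr := (BTr.n (BTr.n (BTr.n (BTr.b b1_0) (BTr.n (BTr.b b1_1) (BTr.b b1_2))) (BTr.n (BTr.b b1_3) (BTr.n (BTr.b b1_4) (BTr.b b1_5)))) (BTr.n (BTr.n (BTr.b b1_6) (BTr.n (BTr.b b1_7) (BTr.b b1_8))) (BTr.n (BTr.b b1_9) (BTr.n (BTr.b b1_10) (BTr.b b1_11)))))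
namespace T1
def l0 : Tr := Tr.L (Pth.l (Pth.l (Pth.l Pth.z)))
def l1 : Tr := Tr.L (Pth.l (Pth.l (Pth.r (Pth.l Pth.z))))
def l2 : Tr := Tr.L (Pth.l (Pth.l (Pth.r (Pth.r Pth.z))))
def l3 : Tr := Tr.L (Pth.l (Pth.r (Pth.l Pth.z)))
def l4 : Tr := Tr.L (Pth.l (Pth.r (Pth.r (Pth.l Pth.z))))
def l5 : Tr := Tr.L (Pth.l (Pth.r (Pth.r (Pth.r Pth.z))))
def l6 : Tr := Tr.L (Pth.r (Pth.l (Pth.l Pth.z)))
def l7 : Tr := Tr.L (Pth.r (Pth.l (Pth.r (Pth.l Pth.z))))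
def l8 : Tr := Tr.L (Pth.r (Pth.l (Pth.r (Pth.r Pth.z))))
def l9 : Tr := Tr.L (Pth.r (Pth.r (Pth.l Pth.z)))
def l10 : Tr := Tr.L (Pth.r (Pth.r (Pth.r (Pth.l Pth.z))))
def l11 : Tr := Tr.L (Pth.r (Pth.r (Pth.r (Pth.r Pth.z))))
end T1
def b2_0 : Bx := Bx.mk (St.mk (I.pos (nat_lit 142147584) (nat_lit 221757440)) (I.mix (nat_lit 5734400) (nat_lit 68190208)) (I.mix (nat_lit 9830400) (nat_lit 112918528)) (I.pos (nat_lit 239714304) (nat_lit 346013696)) (I.mix (nat_lit 163938304) (nat_lit 101105664)) (I.mix (nat_lit 110772224) (nat_lit 100417536)) (I.mix (nat_lit 147439616) (nat_lit 136560640)))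
  false (nat_lit 0)
def b2_1 : Bx := Bx.mk (St.mk (I.pos (nat_lit 63176704) (nat_lit 136134656)) (I.neg (nat_lit 1327104) (nat_lit 79101952)) (I.mix (nat_lit 54247424) (nat_lit 19955712)) (I.pos (nat_lit 170754048) (nat_lit 219250688)) (I.mix (nat_lit 129794048) (nat_lit 107446272)) (I.mix (nat_lit 88653824) (nat_lit 105414656)) (I.mix (nat_lit 78184448) (nat_lit 94666752)))
  false (nat_lit 26913931)
def b2_2 : Bx := Bx.mk (St.mk (I.mix (nat_lit 37306368) (nat_lit 1490944)) (I.mix (nat_lit 45056000) (nat_lit 14188544)) (I.pos (nat_lit 6684672) (nat_lit 14286848)) (I.pos (nat_lit 143966208) (nat_lit 156106752)) (I.mix (nat_lit 51150848) (nat_lit 76496896)) (I.mix (nat_lit 48578560) (nat_lit 60735488)) (I.mix (nat_lit 7389184) (nat_lit 12976128)))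
  true (nat_lit 0)
def b2_3 : Bx := Bx.mk (St.mk (I.pos (nat_lit 129155072) (nat_lit 185253888)) (I.mix (nat_lit 8126464) (nat_lit 63471616)) (I.pos (nat_lit 26263552) (nat_lit 107397120)) (I.pos (nat_lit 217038848) (nat_lit 287342592)) (I.mix (nat_lit 194789376) (nat_lit 77021184)) (I.mix (nat_lit 185221120) (nat_lit 108953600)) (I.mix (nat_lit 185876480) (nat_lit 122421248)))
  false (nat_lit 0)
def b2_4 : Bx := Bx.mk (St.mk (I.mix (nat_lit 8192000) (nat_lit 37945344)) (I.mix (nat_lit 14188544) (nat_lit 45056000)) (I.pos (nat_lit 6684672) (nat_lit 14286848)) (I.pos (nat_lit 143966208) (nat_lit 156106752)) (I.mix (nat_lit 76496896) (nat_lit 51150848)) (I.mix (nat_lit 60735488) (nat_lit 48578560)) (I.mix (nat_lit 7389184) (nat_lit 12976128)))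
  false (nat_lit 0)
def b2_5 : Bx := Bx.mk (St.mk (I.pos (nat_lit 128679936) (nat_lit 178733056)) (I.mix (nat_lit 44662784) (nat_lit 24051712)) (I.mix (nat_lit 18268160) (nat_lit 62734336)) (I.pos (nat_lit 215203840) (nat_lit 271450112)) (I.mix (nat_lit 153272320) (nat_lit 99745792)) (I.mix (nat_lit 152322048) (nat_lit 98828288)) (I.mix (nat_lit 149389312) (nat_lit 105676800)))
  false (nat_lit 14069241)
def b2_6 : Bx := Bx.mk (St.mk (I.pos (nat_lit 104382464) (nat_lit 144031744)) (I.mix (nat_lit 41697280) (nat_lit 966656)) (I.mix (nat_lit 14237696) (nat_lit 24657920)) (I.pos (nat_lit 194772992) (nat_lit 227033088)) (I.mix (nat_lit 101105664) (nat_lit 72581120)) (I.mix (nat_lit 63340544) (nat_lit 79314944)) (I.mix (nat_lit 63995904) (nat_lit 70844416)))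
  false (nat_lit 0)
def b2_7 : Bx := Bx.mk (St.mk (I.mix (nat_lit 17203200) (nat_lit 6619136)) (I.mix (nat_lit 11206656) (nat_lit 14696448)) (I.pos (nat_lit 8224768) (nat_lit 9961472)) (I.pos (nat_lit 144834560) (nat_lit 147914752)) (I.mix (nat_lit 46891008) (nat_lit 37093376)) (I.mix (nat_lit 30998528) (nat_lit 36192256)) (I.mix (nat_lit 3293184) (nat_lit 2113536)))
  true (nat_lit 0)
def b2_8 : Bx := Bx.mk (St.mk (I.pos (nat_lit 126255104) (nat_lit 164265984)) (I.neg (nat_lit 9420800) (nat_lit 44564480)) (I.mix (nat_lit 19857408) (nat_lit 16171008)) (I.pos (nat_lit 213139456) (nat_lit 251035648)) (I.mix (nat_lit 83886080) (nat_lit 82493440)) (I.mix (nat_lit 85000192) (nat_lit 68468736)) (I.mix (nat_lit 85721088) (nat_lit 68124672)))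
  false (nat_lit 0)
def b2_9 : Bx := Bx.mk (St.mk (I.pos (nat_lit 10354688) (nat_lit 73498624)) (I.mix (nat_lit 7700480) (nat_lit 49692672)) (I.mix (nat_lit 10829824) (nat_lit 17809408)) (I.pos (nat_lit 143917056) (nat_lit 166281216)) (I.mix (nat_lit 58507264) (nat_lit 65175552)) (I.mix (nat_lit 64192512) (nat_lit 47693824)) (I.mix (nat_lit 35815424) (nat_lit 24920064)))
  false (nat_lit 0)
def b2_10 : Bx := Bx.mk (St.mk (I.pos (nat_lit 48381952) (nat_lit 105873408)) (I.mix (nat_lit 69648384) (nat_lit 10403840)) (I.mix (nat_lit 44695552) (nat_lit 344064)) (I.pos (nat_lit 152403968) (nat_lit 194625536)) (I.mix (nat_lit 108855296) (nat_lit 59768832)) (I.mix (nat_lit 57769984) (nat_lit 96878592)) (I.mix (nat_lit 44040192) (nat_lit 53559296)))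
  false (nat_lit 0)
def b2_11 : Bx := Bx.mk (St.mk (I.neg (nat_lit 10240000) (nat_lit 74645504)) (I.mix (nat_lit 49692672) (nat_lit 7700480)) (I.mix (nat_lit 10829824) (nat_lit 17809408)) (I.pos (nat_lit 143900672) (nat_lit 166526976)) (I.mix (nat_lit 65175552) (nat_lit 58507264)) (I.mix (nat_lit 47710208) (nat_lit 64192512)) (I.mix (nat_lit 35815424) (nat_lit 24920064)))
  true (nat_lit 0)
def b2_12 : Bx := Bx.mk (St.mk (I.pos (nat_lit 175734784) (nat_lit 266813440)) (I.mix (nat_lit 11468800) (nat_lit 43089920)) (I.mix (nat_lit 33308672) (nat_lit 67649536)) (I.pos (nat_lit 286244864) (nat_lit 440025088)) (I.mix (nat_lit 138706944) (nat_lit 65323008)) (I.mix (nat_lit 92176384) (nat_lit 82657280)) (I.mix (nat_lit 150421504) (nat_lit 138018816)))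
  false (nat_lit 0)
def b2_13 : Bx := Bx.mk (St.mk (I.pos (nat_lit 53248000) (nat_lit 67649536)) (I.mix (nat_lit 3096576) (nat_lit 14057472)) (I.neg (nat_lit 212992) (nat_lit 8388608)) (I.pos (nat_lit 156286976) (nat_lit 164200448)) (I.mix (nat_lit 16793600) (nat_lit 22167552)) (I.mix (nat_lit 13664256) (nat_lit 10502144)) (I.mix (nat_lit 8093696) (nat_lit 4718592)))
  false (nat_lit 0)
def b2_14 : Bx := Bx.mk (St.mk (I.pos (nat_lit 164429824) (nat_lit 218005504)) (I.pos (nat_lit 9830400) (nat_lit 64372736)) (I.pos (nat_lit 20840448) (nat_lit 105922560)) (I.pos (nat_lit 276414464) (nat_lit 339279872)) (I.mix (nat_lit 141361152) (nat_lit 117145600)) (I.mix (nat_lit 131858432) (nat_lit 93995008)) (I.mix (nat_lit 210075648) (nat_lit 135086080)))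
  false (nat_lit 0)
def t2 : BTr := (BTr.n (BTr.n (BTr.n (BTr.b b2_0) (BTr.n (BTr.b b2_1) (BTr.b b2_2))) (BTr.n (BTr.n (BTr.b b2_3) (BTr.b b2_4)) (BTr.n (BTr.b b2_5) (BTr.b b2_6)))) (BTr.n (BTr.n (BTr.n (BTr.b b2_7) (BTr.b b2_8)) (BTr.n (BTr.b b2_9) (BTr.b b2_10))) (BTr.n (BTr.n (BTr.b b2_11) (BTr.b b2_12)) (BTr.n (BTr.b b2_13) (BTr.b b2_14)))))
namespace T2
def l0 : Tr := Tr.L (Pth.l (Pth.l (Pth.l Pth.z)))
def l1 : Tr := Tr.L (Pth.l (Pth.l (Pth.r (Pth.l Pth.z))))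
def l2 : Tr := Tr.L (Pth.l (Pth.l (Pth.r (Pth.r Pth.z))))
def l3 : Tr := Tr.L (Pth.l (Pth.r (Pth.l (Pth.l Pth.z))))
def l4 : Tr := Tr.L (Pth.l (Pth.r (Pth.l (Pth.r Pth.z))))
def l5 : Tr := Tr.L (Pth.l (Pth.r (Pth.r (Pth.l Pth.z))))
def l6 : Tr := Tr.L (Pth.l (Pth.r (Pth.r (Pth.r Pth.z))))
def l7 : Tr := Tr.L (Pth.r (Pth.l (Pth.l (Pth.l Pth.z))))
def l8 : Tr := Tr.L (Pth.r (Pth.l (Pth.l (Pth.r Pth.z))))
def l9 : Tr := Tr.L (Pth.r (Pth.l (Pth.r (Pth.l Pth.z))))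
def l10 : Tr := Tr.L (Pth.r (Pth.l (Pth.r (Pth.r Pth.z))))
def l11 : Tr := Tr.L (Pth.r (Pth.r (Pth.l (Pth.l Pth.z))))
def l12 : Tr := Tr.L (Pth.r (Pth.r (Pth.l (Pth.r Pth.z))))
def l13 : Tr := Tr.L (Pth.r (Pth.r (Pth.r (Pth.l Pth.z))))
def l14 : Tr := Tr.L (Pth.r (Pth.r (Pth.r (Pth.r Pth.z))))
end T2
theorem bx0_0 : BoxOK sI cl4 cl5 cl5 t1 t1 b0_0 :=
  box_mk (TrL.c (I.pos (nat_lit 0) (nat_lit 0)) (xa (xb (xa T1.l0 T1.l0) (xa (xb T1.l0 T1.l0) (xb T1.l0 T1.l0))) (xb T1.l0 (xa (xb T1.l0 T1.l0) (xb T1.l0 T1.l0))))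
  (TrL.c (I.pos (nat_lit 0) (nat_lit 0)) (xa (xb T1.l1 T1.l1) (xb T1.l1 T1.l1))
  (TrL.c (I.pos (nat_lit 0) (nat_lit 0)) T1.l2
  (TrL.c (I.pos (nat_lit 0) (nat_lit 0)) (xa T1.l3 (xb T1.l3 (xa T1.l3 (xb T1.l3 T1.l3))))
  (TrL.c (I.pos (nat_lit 0) (nat_lit 0)) T1.l4
  (TrL.c (I.pos (nat_lit 0) (nat_lit 0)) (xa (xb T1.l5 T1.l5) (xb T1.l5 T1.l5))
  TrL.n)))))) (by decide +kernel)
theorem bx0_1 : BoxOK sI cl4 cl5 cl5 t1 t1 b0_1 :=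
  box_mk (TrL.c (I.pos (nat_lit 0) (nat_lit 0)) (xb T1.l6 (xa T1.l6 (xb T1.l6 T1.l6)))
  (TrL.c (I.pos (nat_lit 0) (nat_lit 0)) T1.l1
  (TrL.c (I.pos (nat_lit 0) (nat_lit 0)) T1.l2
  (TrL.c (I.pos (nat_lit 0) (nat_lit 0)) T1.l3
  (TrL.c (I.pos (nat_lit 0) (nat_lit 0)) T1.l7
  (TrL.c (I.pos (nat_lit 0) (nat_lit 0)) T1.l5
  TrL.n)))))) (by decide +kernel)
theorem bx0_2 : BoxOK sI cl4 cl5 cl5 t1 t1 b0_2 :=
  box_mk (TrL.c (I.pos (nat_lit 0) (nat_lit 0)) (xb (xa (xb T1.l6 T1.l6) T1.l6) (xa (xb T1.l6 T1.l6) (xb T1.l6 T1.l6)))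
  (TrL.c (I.pos (nat_lit 0) (nat_lit 0)) T1.l1
  (TrL.c (I.pos (nat_lit 0) (nat_lit 0)) T1.l2
  (TrL.c (I.pos (nat_lit 0) (nat_lit 0)) T1.l3
  (TrL.c (I.pos (nat_lit 0) (nat_lit 0)) T1.l7
  (TrL.c (I.pos (nat_lit 0) (nat_lit 0)) T1.l5
  TrL.n)))))) (by decide +kernel)
theorem bx0_3 : BoxOK sI cl4 cl5 cl5 t1 t1 b0_3 :=
  box_mk (TrL.c (I.pos (nat_lit 0) (nat_lit 0)) T1.l1
  (TrL.c (I.pos (nat_lit 0) (nat_lit 0)) T1.l2
  TrL.n)) (by decide +kernel)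
theorem bx0_4 : BoxOK sI cl4 cl5 cl5 t1 t1 b0_4 :=
  box_mk (TrL.c (I.pos (nat_lit 0) (nat_lit 0)) (xb (xa (xb T1.l0 T1.l0) (xb T1.l0 T1.l0)) (xa (xb (xa T1.l0 T1.l0) (xa T1.l0 T1.l0)) (xb (xa T1.l0 T1.l0) (xa T1.l0 T1.l0))))
  (TrL.c (I.pos (nat_lit 0) (nat_lit 0)) (xb (xa T1.l1 T1.l1) (xa T1.l1 T1.l1))
  (TrL.c (I.pos (nat_lit 0) (nat_lit 0)) T1.l2
  (TrL.c (I.pos (nat_lit 0) (nat_lit 0)) (xb (xa (xb (xa T1.l3 T1.l3) T1.l3) (xb (xa (xc T1.l3 T1.l3) (xc T1.l3 T1.l3)) (xa T1.l3 (xc T1.l3 T1.l3)))) (xa T1.l3 (xb (xa T1.l3 (xc T1.l3 T1.l3)) (xa T1.l3 (xc T1.l3 T1.l3)))))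
  (TrL.c (I.pos (nat_lit 0) (nat_lit 0)) T1.l4
  (TrL.c (I.pos (nat_lit 0) (nat_lit 0)) (xb (xa T1.l5 T1.l5) (xa T1.l5 T1.l5))
  TrL.n)))))) (by decide +kernel)
theorem bx0_5 : BoxOK sI cl4 cl5 cl5 t1 t1 b0_5 :=
  box_mk (TrL.c (I.pos (nat_lit 0) (nat_lit 0)) T1.l6
  (TrL.c (I.pos (nat_lit 0) (nat_lit 0)) T1.l1
  (TrL.c (I.pos (nat_lit 0) (nat_lit 0)) T1.l2
  (TrL.c (I.pos (nat_lit 0) (nat_lit 0)) T1.l3
  (TrL.c (I.pos (nat_lit 0) (nat_lit 0)) T1.l7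
  (TrL.c (I.pos (nat_lit 0) (nat_lit 0)) T1.l5
  TrL.n)))))) (by decide +kernel)
theorem bx0_6 : BoxOK sI cl4 cl5 cl5 t1 t1 b0_6 :=
  box_mk (TrL.c (I.pos (nat_lit 0) (nat_lit 0)) (xa T1.l0 T1.l3)
  (TrL.c (I.pos (nat_lit 0) (nat_lit 0)) T1.l1
  (TrL.c (I.pos (nat_lit 0) (nat_lit 0)) T1.l2
  (TrL.c (I.pos (nat_lit 0) (nat_lit 0)) (xa T1.l3 T1.l3)
  (TrL.c (I.pos (nat_lit 0) (nat_lit 0)) T1.l4
  (TrL.c (I.pos (nat_lit 0) (nat_lit 0)) T1.l5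
  TrL.n)))))) (by decide +kernel)
theorem bx0_7 : BoxOK sI cl4 cl5 cl5 t1 t1 b0_7 :=
  box_mk (TrL.c (I.pos (nat_lit 0) (nat_lit 0)) (xa (xb (xa (xb T1.l6 T1.l6) (xb T1.l6 T1.l6)) (xa T1.l6 T1.l6)) (xb (xa T1.l6 T1.l6) (xa T1.l6 T1.l6)))
  (TrL.c (I.pos (nat_lit 0) (nat_lit 0)) (xa T1.l1 T1.l1)
  (TrL.c (I.pos (nat_lit 0) (nat_lit 0)) T1.l2
  (TrL.c (I.pos (nat_lit 0) (nat_lit 0)) T1.l3
  (TrL.c (I.pos (nat_lit 0) (nat_lit 0)) T1.l7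
  (TrL.c (I.pos (nat_lit 0) (nat_lit 0)) (xa T1.l5 T1.l5)
  TrL.n)))))) (by decide +kernel)
theorem bx0_8 : BoxOK sI cl4 cl5 cl5 t1 t1 b0_8 :=
  box_mk (TrL.c (I.pos (nat_lit 0) (nat_lit 0)) T1.l1
  (TrL.c (I.pos (nat_lit 0) (nat_lit 0)) T1.l2
  TrL.n)) (by decide +kernel)
theorem bx0_9 : BoxOK sI cl4 cl5 cl5 t1 t1 b0_9 :=
  box_mk (TrL.c (I.pos (nat_lit 0) (nat_lit 0)) (xb (xa T1.l6 T1.l6) (xa T1.l6 T1.l6))
  (TrL.c (I.pos (nat_lit 0) (nat_lit 0)) T1.l1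
  (TrL.c (I.pos (nat_lit 0) (nat_lit 0)) T1.l2
  (TrL.c (I.pos (nat_lit 0) (nat_lit 0)) T1.l3
  (TrL.c (I.pos (nat_lit 0) (nat_lit 0)) T1.l7
  (TrL.c (I.pos (nat_lit 0) (nat_lit 0)) T1.l5
  TrL.n)))))) (by decide +kernel)
theorem bx0_10 : BoxOK sI cl4 cl5 cl5 t1 t1 b0_10 :=
  box_mk (TrL.c (I.pos (nat_lit 0) (nat_lit 0)) (xa (xb T1.l6 T1.l0) T1.l0)
  (TrL.c (I.pos (nat_lit 0) (nat_lit 0)) T1.l1
  (TrL.c (I.pos (nat_lit 0) (nat_lit 0)) T1.l2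
  (TrL.c (I.pos (nat_lit 0) (nat_lit 0)) T1.l3
  (TrL.c (I.pos (nat_lit 0) (nat_lit 0)) T1.l1
  (TrL.c (I.pos (nat_lit 0) (nat_lit 0)) T1.l5
  TrL.n)))))) (by decide +kernel)
theorem bx0_11 : BoxOK sI cl4 cl5 cl5 t1 t1 b0_11 :=
  box_mk (TrL.c (I.pos (nat_lit 0) (nat_lit 0)) T1.l6
  (TrL.c (I.pos (nat_lit 0) (nat_lit 0)) T1.l1
  (TrL.c (I.pos (nat_lit 0) (nat_lit 0)) T1.l2
  (TrL.c (I.pos (nat_lit 0) (nat_lit 0)) T1.l3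
  (TrL.c (I.pos (nat_lit 0) (nat_lit 0)) T1.l7
  (TrL.c (I.pos (nat_lit 0) (nat_lit 0)) T1.l5
  TrL.n)))))) (by decide +kernel)
theorem bx0_12 : BoxOK sI cl4 cl5 cl5 t1 t1 b0_12 :=
  box_mk (TrL.c (I.pos (nat_lit 0) (nat_lit 0)) T1.l8
  (TrL.c (I.pos (nat_lit 0) (nat_lit 0)) T1.l9
  TrL.n)) (by decide +kernel)
theorem bx0_13 : BoxOK sI cl4 cl5 cl5 t1 t1 b0_13 :=
  box_mk (TrL.c (I.pos (nat_lit 0) (nat_lit 0)) (xb T1.l0 T1.l0)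
  (TrL.c (I.pos (nat_lit 0) (nat_lit 0)) T1.l1
  (TrL.c (I.pos (nat_lit 0) (nat_lit 0)) T1.l2
  (TrL.c (I.pos (nat_lit 0) (nat_lit 0)) T1.l3
  (TrL.c (I.pos (nat_lit 0) (nat_lit 0)) T1.l4
  (TrL.c (I.pos (nat_lit 0) (nat_lit 0)) T1.l5
  TrL.n)))))) (by decide +kernel)
theorem bx0_14 : BoxOK sI cl4 cl5 cl5 t1 t1 b0_14 :=
  box_mk (TrL.c (I.pos (nat_lit 0) (nat_lit 0)) (xb (xa T1.l0 T1.l0) (xa (xb T1.l0 T1.l0) T1.l0))
  (TrL.c (I.pos (nat_lit 0) (nat_lit 0)) T1.l1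
  (TrL.c (I.pos (nat_lit 0) (nat_lit 0)) T1.l2
  (TrL.c (I.pos (nat_lit 0) (nat_lit 0)) T1.l3
  (TrL.c (I.pos (nat_lit 0) (nat_lit 0)) T1.l4
  (TrL.c (I.pos (nat_lit 0) (nat_lit 0)) T1.l5
  TrL.n)))))) (by decide +kernel)
theorem sv0 : StarV sI cl4 cl5 cl5 t1 t1 t0 :=
  (bt_n (bt_n (bt_n (bt_b bx0_0) (bt_n (bt_b bx0_1) (bt_b bx0_2))) (bt_n (bt_n (bt_b bx0_3) (bt_b bx0_4)) (bt_n (bt_b bx0_5) (bt_b bx0_6)))) (bt_n (bt_n (bt_n (bt_b bx0_7) (bt_b bx0_8)) (bt_n (bt_b bx0_9) (bt_b bx0_10))) (bt_n (bt_n (bt_b bx0_11) (bt_b bx0_12)) (bt_n (bt_b bx0_13) (bt_b bx0_14)))))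
def S0 : StarD := StarD.mk cl4 cl5 cl5 1 1 t0
theorem bx1_0 : BoxOK sI cl5 cl4 cl5 t0 t2 b1_0 :=
  box_mk (TrL.c (I.pos (nat_lit 0) (nat_lit 0)) (xa (xb (xa T0.l0 T0.l0) (xa (xb T0.l0 T0.l0) (xb T0.l0 T0.l0))) (xb T0.l0 (xa (xb T0.l0 T0.l0) (xb T0.l0 T0.l0))))
  (TrL.c (I.pos (nat_lit 0) (nat_lit 0)) (xa T2.l1 T2.l1)
  (TrL.c (I.pos (nat_lit 0) (nat_lit 0)) T0.l1
  (TrL.c (I.pos (nat_lit 0) (nat_lit 0)) T2.l2
  (TrL.c (I.pos (nat_lit 0) (nat_lit 0)) (xb (xa T2.l3 (xb T2.l3 T2.l3)) (xa T2.l3 (xb T2.l3 T2.l3)))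
  (TrL.c (I.pos (nat_lit 0) (nat_lit 0)) T0.l2
  (TrL.c (I.pos (nat_lit 0) (nat_lit 0)) T2.l4
  (TrL.c (I.pos (nat_lit 0) (nat_lit 0)) T0.l3
  TrL.n)))))))) (by decide +kernel)
theorem bx1_1 : BoxOK sI cl5 cl4 cl5 t0 t2 b1_1 :=
  box_mk (TrL.c (I.pos (nat_lit 0) (nat_lit 0)) (xa (xb (xa (xb (xa T0.l4 T0.l4) T0.l4) (xb T0.l4 T0.l4)) (xa (xb T0.l4 T0.l4) T0.l4)) (xb (xa T0.l4 T0.l4) T0.l4))
  (TrL.c (I.pos (nat_lit 0) (nat_lit 0)) T2.l1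
  (TrL.c (I.pos (nat_lit 0) (nat_lit 0)) T0.l1
  (TrL.c (I.pos (nat_lit 0) (nat_lit 0)) T2.l2
  (TrL.c (I.pos (nat_lit 0) (nat_lit 0)) (xa T2.l5 (xb T2.l5 T2.l5))
  (TrL.c (I.pos (nat_lit 0) (nat_lit 0)) T0.l2
  (TrL.c (I.pos (nat_lit 0) (nat_lit 0)) T2.l4
  (TrL.c (I.pos (nat_lit 0) (nat_lit 0)) T0.l3
  TrL.n)))))))) (by decide +kernel)
theorem bx1_2 : BoxOK sI cl5 cl4 cl5 t0 t2 b1_2 :=
  box_mk (TrL.c (I.pos (nat_lit 0) (nat_lit 0)) T2.l6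
  (TrL.c (I.pos (nat_lit 0) (nat_lit 0)) T0.l5
  (TrL.c (I.pos (nat_lit 0) (nat_lit 0)) T2.l7
  TrL.n))) (by decide +kernel)
theorem bx1_3 : BoxOK sI cl5 cl4 cl5 t0 t2 b1_3 :=
  box_mk (TrL.c (I.pos (nat_lit 0) (nat_lit 0)) (xb (xa (xb T0.l4 T0.l4) (xb T0.l4 T0.l4)) (xa (xb (xa T0.l4 T0.l4) (xa (xb T0.l4 T0.l4) T0.l4)) (xb T0.l4 (xa T0.l4 T0.l4))))
  (TrL.c (I.pos (nat_lit 0) (nat_lit 0)) (xb T2.l1 T2.l1)
  (TrL.c (I.pos (nat_lit 0) (nat_lit 0)) T0.l1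
  (TrL.c (I.pos (nat_lit 0) (nat_lit 0)) T2.l2
  (TrL.c (I.pos (nat_lit 0) (nat_lit 0)) (xb (xa T2.l5 (xb T2.l5 T2.l5)) (xa T2.l5 T2.l3))
  (TrL.c (I.pos (nat_lit 0) (nat_lit 0)) T0.l2
  (TrL.c (I.pos (nat_lit 0) (nat_lit 0)) T2.l4
  (TrL.c (I.pos (nat_lit 0) (nat_lit 0)) T0.l3
  TrL.n)))))))) (by decide +kernel)
theorem bx1_4 : BoxOK sI cl5 cl4 cl5 t0 t2 b1_4 :=
  box_mk (TrL.c (I.pos (nat_lit 0) (nat_lit 0)) (xb (xa (xb T0.l6 T0.l6) T0.l4) (xa T0.l4 T0.l4))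
  (TrL.c (I.pos (nat_lit 0) (nat_lit 0)) T2.l1
  (TrL.c (I.pos (nat_lit 0) (nat_lit 0)) T0.l1
  (TrL.c (I.pos (nat_lit 0) (nat_lit 0)) T2.l2
  (TrL.c (I.pos (nat_lit 0) (nat_lit 0)) T2.l8
  (TrL.c (I.pos (nat_lit 0) (nat_lit 0)) T0.l2
  (TrL.c (I.pos (nat_lit 0) (nat_lit 0)) T2.l4
  (TrL.c (I.pos (nat_lit 0) (nat_lit 0)) T0.l3
  TrL.n)))))))) (by decide +kernel)
theorem bx1_5 : BoxOK sI cl5 cl4 cl5 t0 t2 b1_5 :=
  box_mk (TrL.c (I.pos (nat_lit 0) (nat_lit 0)) T2.l1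
  (TrL.c (I.pos (nat_lit 0) (nat_lit 0)) T0.l1
  (TrL.c (I.pos (nat_lit 0) (nat_lit 0)) T2.l2
  TrL.n))) (by decide +kernel)
theorem bx1_6 : BoxOK sI cl5 cl4 cl5 t0 t2 b1_6 :=
  box_mk (TrL.c (I.pos (nat_lit 0) (nat_lit 0)) (xa T0.l0 (xa T0.l0 (xb T0.l0 T0.l0)))
  (TrL.c (I.pos (nat_lit 0) (nat_lit 0)) T2.l1
  (TrL.c (I.pos (nat_lit 0) (nat_lit 0)) T0.l1
  (TrL.c (I.pos (nat_lit 0) (nat_lit 0)) T2.l11
  (TrL.c (I.pos (nat_lit 0) (nat_lit 0)) (xa T2.l3 (xb (xa T2.l3 T2.l3) (xa T2.l3 T2.l3)))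
  (TrL.c (I.pos (nat_lit 0) (nat_lit 0)) T0.l2
  (TrL.c (I.pos (nat_lit 0) (nat_lit 0)) T2.l9
  (TrL.c (I.pos (nat_lit 0) (nat_lit 0)) T0.l3
  TrL.n)))))))) (by decide +kernel)
theorem bx1_7 : BoxOK sI cl5 cl4 cl5 t0 t2 b1_7 :=
  box_mk (TrL.c (I.pos (nat_lit 0) (nat_lit 0)) (xa (xb (xa T0.l6 T0.l6) (xa T0.l6 T0.l6)) (xb T0.l6 (xa T0.l6 T0.l4)))
  (TrL.c (I.pos (nat_lit 0) (nat_lit 0)) T2.l6
  (TrL.c (I.pos (nat_lit 0) (nat_lit 0)) T0.l5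
  (TrL.c (I.pos (nat_lit 0) (nat_lit 0)) T2.l7
  (TrL.c (I.pos (nat_lit 0) (nat_lit 0)) T2.l8
  (TrL.c (I.pos (nat_lit 0) (nat_lit 0)) T0.l2
  (TrL.c (I.pos (nat_lit 0) (nat_lit 0)) T2.l4
  (TrL.c (I.pos (nat_lit 0) (nat_lit 0)) T0.l3
  TrL.n)))))))) (by decide +kernel)
theorem bx1_8 : BoxOK sI cl5 cl4 cl5 t0 t2 b1_8 :=
  box_mk (TrL.c (I.pos (nat_lit 0) (nat_lit 0)) T0.l4
  (TrL.c (I.pos (nat_lit 0) (nat_lit 0)) T2.l1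
  (TrL.c (I.pos (nat_lit 0) (nat_lit 0)) T0.l1
  (TrL.c (I.pos (nat_lit 0) (nat_lit 0)) T2.l2
  (TrL.c (I.pos (nat_lit 0) (nat_lit 0)) T2.l5
  (TrL.c (I.pos (nat_lit 0) (nat_lit 0)) T0.l2
  (TrL.c (I.pos (nat_lit 0) (nat_lit 0)) T2.l4
  (TrL.c (I.pos (nat_lit 0) (nat_lit 0)) T0.l3
  TrL.n)))))))) (by decide +kernel)
theorem bx1_9 : BoxOK sI cl5 cl4 cl5 t0 t2 b1_9 :=
  box_mk (TrL.c (I.pos (nat_lit 0) (nat_lit 0)) T2.l6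
  (TrL.c (I.pos (nat_lit 0) (nat_lit 0)) T0.l5
  (TrL.c (I.pos (nat_lit 0) (nat_lit 0)) T2.l7
  TrL.n))) (by decide +kernel)
theorem bx1_10 : BoxOK sI cl5 cl4 cl5 t0 t2 b1_10 :=
  box_mk (TrL.c (I.pos (nat_lit 0) (nat_lit 0)) (xb T0.l0 (xa T0.l0 T0.l0))
  (TrL.c (I.pos (nat_lit 0) (nat_lit 0)) T2.l1
  (TrL.c (I.pos (nat_lit 0) (nat_lit 0)) T0.l1
  (TrL.c (I.pos (nat_lit 0) (nat_lit 0)) T2.l2
  (TrL.c (I.pos (nat_lit 0) (nat_lit 0)) T2.l3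
  (TrL.c (I.pos (nat_lit 0) (nat_lit 0)) T0.l2
  (TrL.c (I.pos (nat_lit 0) (nat_lit 0)) T2.l4
  (TrL.c (I.pos (nat_lit 0) (nat_lit 0)) T0.l3
  TrL.n)))))))) (by decide +kernel)
theorem bx1_11 : BoxOK sI cl5 cl4 cl5 t0 t2 b1_11 :=
  box_mk (TrL.c (I.pos (nat_lit 0) (nat_lit 0)) T0.l6
  (TrL.c (I.pos (nat_lit 0) (nat_lit 0)) T2.l1
  (TrL.c (I.pos (nat_lit 0) (nat_lit 0)) T0.l1
  (TrL.c (I.pos (nat_lit 0) (nat_lit 0)) T2.l2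
  (TrL.c (I.pos (nat_lit 0) (nat_lit 0)) T2.l8
  (TrL.c (I.pos (nat_lit 0) (nat_lit 0)) T0.l2
  (TrL.c (I.pos (nat_lit 0) (nat_lit 0)) T2.l4
  (TrL.c (I.pos (nat_lit 0) (nat_lit 0)) T0.l3
  TrL.n)))))))) (by decide +kernel)
theorem sv1 : StarV sI cl5 cl4 cl5 t0 t2 t1 :=
  (bt_n (bt_n (bt_n (bt_b bx1_0) (bt_n (bt_b bx1_1) (bt_b bx1_2))) (bt_n (bt_b bx1_3) (bt_n (bt_b bx1_4) (bt_b bx1_5)))) (bt_n (bt_n (bt_b bx1_6) (bt_n (bt_b bx1_7) (bt_b bx1_8))) (bt_n (bt_b bx1_9) (bt_n (bt_b bx1_10) (bt_b bx1_11)))))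
def S1 : StarD := StarD.mk cl5 cl4 cl5 0 2 t1
theorem bx2_0 : BoxOK sI cl5 cl5 cl4 t2 t0 b2_0 :=
  box_mk (TrL.c (I.pos (nat_lit 0) (nat_lit 0)) (xa (xb (xa (xb T2.l0 T2.l0) T2.l0) (xa (xb T2.l0 T2.l0) (xb T2.l0 T2.l0))) (xb (xa T2.l0 T2.l0) (xa (xb T2.l0 T2.l0) (xb T2.l0 T2.l0))))
  (TrL.c (I.pos (nat_lit 0) (nat_lit 0)) (xa T0.l7 T0.l7)
  (TrL.c (I.pos (nat_lit 0) (nat_lit 0)) T2.l9
  (TrL.c (I.pos (nat_lit 0) (nat_lit 0)) T0.l8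
  (TrL.c (I.pos (nat_lit 0) (nat_lit 0)) (xa (xb T0.l14 T0.l14) (xb T0.l14 T0.l14))
  (TrL.c (I.pos (nat_lit 0) (nat_lit 0)) T2.l10
  (TrL.c (I.pos (nat_lit 0) (nat_lit 0)) T0.l9
  (TrL.c (I.pos (nat_lit 0) (nat_lit 0)) T2.l11
  TrL.n)))))))) (by decide +kernel)
theorem bx2_1 : BoxOK sI cl5 cl5 cl4 t2 t0 b2_1 :=
  box_mk (TrL.c (I.pos (nat_lit 0) (nat_lit 0)) (xb (xa (xb T2.l12 T2.l12) T2.l0) (xa (xa T2.l12 T2.l12) (xa T2.l12 T2.l12)))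
  (TrL.c (I.pos (nat_lit 0) (nat_lit 0)) T0.l7
  (TrL.c (I.pos (nat_lit 0) (nat_lit 0)) T2.l9
  (TrL.c (I.pos (nat_lit 0) (nat_lit 0)) T0.l8
  (TrL.c (I.pos (nat_lit 0) (nat_lit 0)) (xa T0.l10 T0.l10)
  (TrL.c (I.pos (nat_lit 0) (nat_lit 0)) T2.l10
  (TrL.c (I.pos (nat_lit 0) (nat_lit 0)) T0.l9
  (TrL.c (I.pos (nat_lit 0) (nat_lit 0)) T2.l11
  TrL.n)))))))) (by decide +kernel)
theorem bx2_2 : BoxOK sI cl5 cl5 cl4 t2 t0 b2_2 :=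
  box_mk (TrL.c (I.pos (nat_lit 0) (nat_lit 0)) T0.l7
  (TrL.c (I.pos (nat_lit 0) (nat_lit 0)) T2.l9
  (TrL.c (I.pos (nat_lit 0) (nat_lit 0)) T0.l8
  TrL.n))) (by decide +kernel)
theorem bx2_3 : BoxOK sI cl5 cl5 cl4 t2 t0 b2_3 :=
  box_mk (TrL.c (I.pos (nat_lit 0) (nat_lit 0)) (xb (xa (xb T2.l14 T2.l14) (xb T2.l14 T2.l14)) (xa (xb T2.l14 (xa T2.l14 T2.l14)) (xa (xb T2.l14 T2.l14) (xb T2.l14 T2.l14))))
  (TrL.c (I.pos (nat_lit 0) (nat_lit 0)) T0.l7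
  (TrL.c (I.pos (nat_lit 0) (nat_lit 0)) T2.l9
  (TrL.c (I.pos (nat_lit 0) (nat_lit 0)) T0.l8
  (TrL.c (I.pos (nat_lit 0) (nat_lit 0)) (xb T0.l13 T0.l13)
  (TrL.c (I.pos (nat_lit 0) (nat_lit 0)) T2.l10
  (TrL.c (I.pos (nat_lit 0) (nat_lit 0)) T0.l9
  (TrL.c (I.pos (nat_lit 0) (nat_lit 0)) T2.l11
  TrL.n)))))))) (by decide +kernel)
theorem bx2_4 : BoxOK sI cl5 cl5 cl4 t2 t0 b2_4 :=
  box_mk (TrL.c (I.pos (nat_lit 0) (nat_lit 0)) (xb T2.l12 (xa T2.l12 T2.l12))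
  (TrL.c (I.pos (nat_lit 0) (nat_lit 0)) T0.l7
  (TrL.c (I.pos (nat_lit 0) (nat_lit 0)) T2.l9
  (TrL.c (I.pos (nat_lit 0) (nat_lit 0)) T0.l8
  (TrL.c (I.pos (nat_lit 0) (nat_lit 0)) T0.l10
  (TrL.c (I.pos (nat_lit 0) (nat_lit 0)) T2.l10
  (TrL.c (I.pos (nat_lit 0) (nat_lit 0)) T0.l9
  (TrL.c (I.pos (nat_lit 0) (nat_lit 0)) T2.l11
  TrL.n)))))))) (by decide +kernel)
theorem bx2_5 : BoxOK sI cl5 cl5 cl4 t2 t0 b2_5 :=
  box_mk (TrL.c (I.pos (nat_lit 0) (nat_lit 0)) (xb (xa T2.l14 T2.l14) (xa T2.l14 T2.l14))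
  (TrL.c (I.pos (nat_lit 0) (nat_lit 0)) T0.l7
  (TrL.c (I.pos (nat_lit 0) (nat_lit 0)) T2.l9
  (TrL.c (I.pos (nat_lit 0) (nat_lit 0)) T0.l8
  (TrL.c (I.pos (nat_lit 0) (nat_lit 0)) (xb T0.l13 T0.l13)
  (TrL.c (I.pos (nat_lit 0) (nat_lit 0)) T2.l10
  (TrL.c (I.pos (nat_lit 0) (nat_lit 0)) T0.l9
  (TrL.c (I.pos (nat_lit 0) (nat_lit 0)) T2.l11
  TrL.n)))))))) (by decide +kernel)
theorem bx2_6 : BoxOK sI cl5 cl5 cl4 t2 t0 b2_6 :=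
  box_mk (TrL.c (I.pos (nat_lit 0) (nat_lit 0)) T2.l12
  (TrL.c (I.pos (nat_lit 0) (nat_lit 0)) T0.l7
  (TrL.c (I.pos (nat_lit 0) (nat_lit 0)) T2.l9
  (TrL.c (I.pos (nat_lit 0) (nat_lit 0)) T0.l8
  (TrL.c (I.pos (nat_lit 0) (nat_lit 0)) T0.l10
  (TrL.c (I.pos (nat_lit 0) (nat_lit 0)) T2.l10
  (TrL.c (I.pos (nat_lit 0) (nat_lit 0)) T0.l9
  (TrL.c (I.pos (nat_lit 0) (nat_lit 0)) T2.l11
  TrL.n)))))))) (by decide +kernel)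
theorem bx2_7 : BoxOK sI cl5 cl5 cl4 t2 t0 b2_7 :=
  box_mk (TrL.c (I.pos (nat_lit 0) (nat_lit 0)) T0.l7
  (TrL.c (I.pos (nat_lit 0) (nat_lit 0)) T2.l9
  (TrL.c (I.pos (nat_lit 0) (nat_lit 0)) T0.l8
  TrL.n))) (by decide +kernel)
theorem bx2_8 : BoxOK sI cl5 cl5 cl4 t2 t0 b2_8 :=
  box_mk (TrL.c (I.pos (nat_lit 0) (nat_lit 0)) T2.l14
  (TrL.c (I.pos (nat_lit 0) (nat_lit 0)) T0.l7
  (TrL.c (I.pos (nat_lit 0) (nat_lit 0)) T2.l9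
  (TrL.c (I.pos (nat_lit 0) (nat_lit 0)) T0.l8
  (TrL.c (I.pos (nat_lit 0) (nat_lit 0)) T0.l13
  (TrL.c (I.pos (nat_lit 0) (nat_lit 0)) T2.l10
  (TrL.c (I.pos (nat_lit 0) (nat_lit 0)) T0.l9
  (TrL.c (I.pos (nat_lit 0) (nat_lit 0)) T2.l11
  TrL.n)))))))) (by decide +kernel)
theorem bx2_9 : BoxOK sI cl5 cl5 cl4 t2 t0 b2_9 :=
  box_mk (TrL.c (I.pos (nat_lit 0) (nat_lit 0)) (xa (xb T2.l12 T2.l12) (xb T2.l12 (xa T2.l12 T2.l12)))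
  (TrL.c (I.pos (nat_lit 0) (nat_lit 0)) T0.l7
  (TrL.c (I.pos (nat_lit 0) (nat_lit 0)) T2.l9
  (TrL.c (I.pos (nat_lit 0) (nat_lit 0)) T0.l8
  (TrL.c (I.pos (nat_lit 0) (nat_lit 0)) T0.l10
  (TrL.c (I.pos (nat_lit 0) (nat_lit 0)) T2.l10
  (TrL.c (I.pos (nat_lit 0) (nat_lit 0)) T0.l9
  (TrL.c (I.pos (nat_lit 0) (nat_lit 0)) T2.l11
  TrL.n)))))))) (by decide +kernel)
theorem bx2_10 : BoxOK sI cl5 cl5 cl4 t2 t0 b2_10 :=
  box_mk (TrL.c (I.pos (nat_lit 0) (nat_lit 0)) (xb (xa (xb T2.l12 T2.l12) T2.l12) (xa T2.l12 T2.l12))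
  (TrL.c (I.pos (nat_lit 0) (nat_lit 0)) T0.l7
  (TrL.c (I.pos (nat_lit 0) (nat_lit 0)) T2.l9
  (TrL.c (I.pos (nat_lit 0) (nat_lit 0)) T0.l8
  (TrL.c (I.pos (nat_lit 0) (nat_lit 0)) T0.l10
  (TrL.c (I.pos (nat_lit 0) (nat_lit 0)) T2.l10
  (TrL.c (I.pos (nat_lit 0) (nat_lit 0)) T0.l9
  (TrL.c (I.pos (nat_lit 0) (nat_lit 0)) T2.l11
  TrL.n)))))))) (by decide +kernel)
theorem bx2_11 : BoxOK sI cl5 cl5 cl4 t2 t0 b2_11 :=
  box_mk (TrL.c (I.pos (nat_lit 0) (nat_lit 0)) T0.l7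
  (TrL.c (I.pos (nat_lit 0) (nat_lit 0)) T2.l9
  (TrL.c (I.pos (nat_lit 0) (nat_lit 0)) T0.l8
  TrL.n))) (by decide +kernel)
theorem bx2_12 : BoxOK sI cl5 cl5 cl4 t2 t0 b2_12 :=
  box_mk (TrL.c (I.pos (nat_lit 0) (nat_lit 0)) (xa (xb T2.l0 T2.l0) (xa (xb T2.l0 T2.l0) (xb T2.l3 T2.l3)))
  (TrL.c (I.pos (nat_lit 0) (nat_lit 0)) T0.l7
  (TrL.c (I.pos (nat_lit 0) (nat_lit 0)) T2.l9
  (TrL.c (I.pos (nat_lit 0) (nat_lit 0)) T0.l3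
  (TrL.c (I.pos (nat_lit 0) (nat_lit 0)) (xa T0.l14 (xb (xa T0.l14 T0.l14) (xa T0.l14 T0.l14)))
  (TrL.c (I.pos (nat_lit 0) (nat_lit 0)) T2.l10
  (TrL.c (I.pos (nat_lit 0) (nat_lit 0)) T0.l1
  (TrL.c (I.pos (nat_lit 0) (nat_lit 0)) T2.l11
  TrL.n)))))))) (by decide +kernel)
theorem bx2_13 : BoxOK sI cl5 cl5 cl4 t2 t0 b2_13 :=
  box_mk (TrL.c (I.pos (nat_lit 0) (nat_lit 0)) T2.l12
  (TrL.c (I.pos (nat_lit 0) (nat_lit 0)) T0.l7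
  (TrL.c (I.pos (nat_lit 0) (nat_lit 0)) T2.l9
  (TrL.c (I.pos (nat_lit 0) (nat_lit 0)) T0.l8
  (TrL.c (I.pos (nat_lit 0) (nat_lit 0)) T0.l10
  (TrL.c (I.pos (nat_lit 0) (nat_lit 0)) T2.l10
  (TrL.c (I.pos (nat_lit 0) (nat_lit 0)) T0.l9
  (TrL.c (I.pos (nat_lit 0) (nat_lit 0)) T2.l11
  TrL.n)))))))) (by decide +kernel)
theorem bx2_14 : BoxOK sI cl5 cl5 cl4 t2 t0 b2_14 :=
  box_mk (TrL.c (I.pos (nat_lit 0) (nat_lit 0)) (xa (xb T2.l0 (xa T2.l0 T2.l0)) (xb T2.l0 (xa T2.l0 T2.l0)))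
  (TrL.c (I.pos (nat_lit 0) (nat_lit 0)) T0.l7
  (TrL.c (I.pos (nat_lit 0) (nat_lit 0)) T2.l9
  (TrL.c (I.pos (nat_lit 0) (nat_lit 0)) T0.l8
  (TrL.c (I.pos (nat_lit 0) (nat_lit 0)) (xa T0.l14 T0.l14)
  (TrL.c (I.pos (nat_lit 0) (nat_lit 0)) T2.l10
  (TrL.c (I.pos (nat_lit 0) (nat_lit 0)) T0.l9
  (TrL.c (I.pos (nat_lit 0) (nat_lit 0)) T2.l11
  TrL.n)))))))) (by decide +kernel)
theorem sv2 : StarV sI cl5 cl5 cl4 t2 t0 t2 :=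
  (bt_n (bt_n (bt_n (bt_b bx2_0) (bt_n (bt_b bx2_1) (bt_b bx2_2))) (bt_n (bt_n (bt_b bx2_3) (bt_b bx2_4)) (bt_n (bt_b bx2_5) (bt_b bx2_6)))) (bt_n (bt_n (bt_n (bt_b bx2_7) (bt_b bx2_8)) (bt_n (bt_b bx2_9) (bt_b bx2_10))) (bt_n (bt_n (bt_b bx2_11) (bt_b bx2_12)) (bt_n (bt_b bx2_13) (bt_b bx2_14)))))
def S2 : StarD := StarD.mk cl5 cl5 cl4 2 0 t2
def G : List StarD := [S0, S1, S2]
theorem so0 : StarOK sI G S0 :=
  star_mk (by decide) (by decide) rfl rfl rfl rfl rfl rfl (rfl : _ = t1) (rfl : _ = t1)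
  (st_mk (Pth.l (Pth.l (Pth.l Pth.z))) (nat_lit 254468019) (nat_lit 257146385) (by decide +kernel))
  (st_mk (Pth.l (Pth.l (Pth.l Pth.z))) (nat_lit 294900926) (nat_lit 298594697) (by decide +kernel))
  (st_mk (Pth.l (Pth.l (Pth.l Pth.z))) (nat_lit 342775138) (nat_lit 347932910) (by decide +kernel)) sv0
theorem so1 : StarOK sI G S1 :=
  star_mk (by decide) (by decide) rfl rfl rfl rfl rfl rfl (rfl : _ = t0) (rfl : _ = t2)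
  (st_mk (Pth.l (Pth.l (Pth.l Pth.z))) (nat_lit 384517092) (nat_lit 387638175) (by decide +kernel))
  (st_mk (Pth.l (Pth.l (Pth.l Pth.z))) (nat_lit 423565096) (nat_lit 427400542) (by decide +kernel))
  (st_mk (Pth.l (Pth.l (Pth.l Pth.z))) (nat_lit 469189189) (nat_lit 473967953) (by decide +kernel)) sv1
theorem so2 : StarOK sI G S2 :=
  star_mk (by decide) (by decide) rfl rfl rfl rfl rfl rfl (rfl : _ = t2) (rfl : _ = t0)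
  (st_mk (Pth.l (Pth.l (Pth.l Pth.z))) (nat_lit 249344284) (nat_lit 251086015) (by decide +kernel))
  (st_mk (Pth.l (Pth.l (Pth.l Pth.z))) (nat_lit 287912204) (nat_lit 290271923) (by decide +kernel))
  (st_mk (Pth.l (Pth.l (Pth.l Pth.z))) (nat_lit 333156187) (nat_lit 336379345) (by decide +kernel)) sv2
theorem ok : GroupOK (nat_lit 150274048) (nat_lit 209387520) G := grp_mk (allS_c so0 (allS_c so1 (allS_c so2 allS_n)))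
theorem cov : GCov G cl4 cl5 cl5 := cov_mk
  ⟨0, by decide, rfl, rfl, rfl⟩ ⟨0, by decide, rfl, rfl, rfl⟩ ⟨1, by decide, rfl, rfl, rfl⟩ ⟨2, by decide, rfl, rfl, rfl⟩ ⟨1, by decide, rfl, rfl, rfl⟩ ⟨2, by decide, rfl, rfl, rfl⟩
end Q122_2

namespace Q122_3
def sI : I := I.pos (nat_lit 209321984) (nat_lit 268435456)
def b0_0 : Bx := Bx.mk (St.mk (I.pos (nat_lit 145637376) (nat_lit 216793088)) (I.mix (nat_lit 278528) (nat_lit 73515008)) (I.mix (nat_lit 278528) (nat_lit 80887808)) (I.pos (nat_lit 256311296) (nat_lit 363544576)) (I.mix (nat_lit 168771584) (nat_lit 112443392)) (I.mix (nat_lit 91996160) (nat_lit 92078080)) (I.mix (nat_lit 164347904) (nat_lit 152846336)))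
  false (nat_lit 12412467)
def b0_1 : Bx := Bx.mk (St.mk (I.pos (nat_lit 23019520) (nat_lit 64389120)) (I.mix (nat_lit 11010048) (nat_lit 49774592)) (I.neg (nat_lit 6225920) (nat_lit 33718272)) (I.pos (nat_lit 144883712) (nat_lit 167559168)) (I.mix (nat_lit 72466432) (nat_lit 99270656)) (I.mix (nat_lit 76267520) (nat_lit 55640064)) (I.mix (nat_lit 44204032) (nat_lit 24805376)))
  false (nat_lit 0)
def b0_2 : Bx := Bx.mk (St.mk (I.pos (nat_lit 46907392) (nat_lit 91062272)) (I.mix (nat_lit 58949632) (nat_lit 13598720)) (I.neg (nat_lit 21626880) (nat_lit 63635456)) (I.pos (nat_lit 150192128) (nat_lit 182501376)) (I.mix (nat_lit 136675328) (nat_lit 71712768)) (I.mix (nat_lit 53477376) (nat_lit 108822528)) (I.mix (nat_lit 42991616) (nat_lit 64897024)))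
  false (nat_lit 0)
def b0_3 : Bx := Bx.mk (St.mk (I.neg (nat_lit 23003136) (nat_lit 64339968)) (I.mix (nat_lit 49774592) (nat_lit 11108352)) (I.neg (nat_lit 6225920) (nat_lit 33718272)) (I.pos (nat_lit 144867328) (nat_lit 167559168)) (I.mix (nat_lit 99270656) (nat_lit 72466432)) (I.mix (nat_lit 55640064) (nat_lit 76267520)) (I.mix (nat_lit 44204032) (nat_lit 24805376)))
  true (nat_lit 0)
def b0_4 : Bx := Bx.mk (St.mk (I.pos (nat_lit 177569792) (nat_lit 237273088)) (I.mix (nat_lit 17121280) (nat_lit 32997376)) (I.neg (nat_lit 2473984) (nat_lit 89915392)) (I.pos (nat_lit 292683776) (nat_lit 378077184)) (I.mix (nat_lit 161873920) (nat_lit 65470464)) (I.mix (nat_lit 104054784) (nat_lit 91291648)) (I.mix (nat_lit 169181184) (nat_lit 165494784)))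
  false (nat_lit 0)
def b0_5 : Bx := Bx.mk (St.mk (I.pos (nat_lit 33292288) (nat_lit 65142784)) (I.mix (nat_lit 14811136) (nat_lit 18464768)) (I.neg (nat_lit 17252352) (nat_lit 34963456)) (I.pos (nat_lit 146653184) (nat_lit 163299328)) (I.mix (nat_lit 66256896) (nat_lit 46563328)) (I.mix (nat_lit 45285376) (nat_lit 38125568)) (I.mix (nat_lit 24002560) (nat_lit 22364160)))
  false (nat_lit 0)
def b0_6 : Bx := Bx.mk (St.mk (I.pos (nat_lit 167542784) (nat_lit 229638144)) (I.pos (nat_lit 12533760) (nat_lit 67796992)) (I.mix (nat_lit 25378816) (nat_lit 65503232)) (I.pos (nat_lit 292077568) (nat_lit 382730240)) (I.mix (nat_lit 143605760) (nat_lit 128876544)) (I.mix (nat_lit 125878272) (nat_lit 109412352)) (I.mix (nat_lit 225492992) (nat_lit 165658624)))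
  false (nat_lit 2761129)
def b0_7 : Bx := Bx.mk (St.mk (I.pos (nat_lit 193249280) (nat_lit 245514240)) (I.mix (nat_lit 20054016) (nat_lit 17629184)) (I.neg (nat_lit 32997376) (nat_lit 97386496)) (I.pos (nat_lit 312180736) (nat_lit 399769600)) (I.mix (nat_lit 157646848) (nat_lit 53231616)) (I.mix (nat_lit 86982656) (nat_lit 84099072)) (I.mix (nat_lit 140574720) (nat_lit 158564352)))
  false (nat_lit 0)
def b0_8 : Bx := Bx.mk (St.mk (I.pos (nat_lit 57278464) (nat_lit 140541952)) (I.neg (nat_lit 5636096) (nat_lit 62373888)) (I.neg (nat_lit 17530880) (nat_lit 66191360)) (I.pos (nat_lit 161087488) (nat_lit 228245504)) (I.mix (nat_lit 111181824) (nat_lit 66895872)) (I.mix (nat_lit 51068928) (nat_lit 83673088)) (I.mix (nat_lit 49332224) (nat_lit 78462976)))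
  false (nat_lit 0)
def b0_9 : Bx := Bx.mk (St.mk (I.mix (nat_lit 39682048) (nat_lit 6242304)) (I.mix (nat_lit 38305792) (nat_lit 3047424)) (I.neg (nat_lit 6651904) (nat_lit 12681216)) (I.pos (nat_lit 145981440) (nat_lit 158269440)) (I.mix (nat_lit 50479104) (nat_lit 56639488)) (I.mix (nat_lit 36012032) (nat_lit 53346304)) (I.mix (nat_lit 10092544) (nat_lit 9519104)))
  true (nat_lit 0)
def b0_10 : Bx := Bx.mk (St.mk (I.pos (nat_lit 135938048) (nat_lit 188792832)) (I.mix (nat_lit 1032192) (nat_lit 57360384)) (I.pos (nat_lit 2408448) (nat_lit 66125824)) (I.pos (nat_lit 236306432) (nat_lit 306282496)) (I.mix (nat_lit 153305088) (nat_lit 59916288)) (I.mix (nat_lit 130269184) (nat_lit 80986112)) (I.mix (nat_lit 124796928) (nat_lit 85639168)))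
  false (nat_lit 0)
def b0_11 : Bx := Bx.mk (St.mk (I.mix (nat_lit 5881856) (nat_lit 39682048)) (I.mix (nat_lit 3047424) (nat_lit 38305792)) (I.neg (nat_lit 6651904) (nat_lit 12681216)) (I.pos (nat_lit 145981440) (nat_lit 158269440)) (I.mix (nat_lit 56639488) (nat_lit 50479104)) (I.mix (nat_lit 53346304) (nat_lit 36012032)) (I.mix (nat_lit 10092544) (nat_lit 9519104)))
  false (nat_lit 0)
def b0_12 : Bx := Bx.mk (St.mk (I.pos (nat_lit 138739712) (nat_lit 180682752)) (I.mix (nat_lit 34734080) (nat_lit 5570560)) (I.mix (nat_lit 42860544) (nat_lit 16384)) (I.pos (nat_lit 230932480) (nat_lit 277676032)) (I.mix (nat_lit 91373568) (nat_lit 94076928)) (I.mix (nat_lit 83443712) (nat_lit 79511552)) (I.mix (nat_lit 86065152) (nat_lit 73515008)))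
  false (nat_lit 0)
def b0_13 : Bx := Bx.mk (St.mk (I.pos (nat_lit 115507200) (nat_lit 140165120)) (I.neg (nat_lit 16138240) (nat_lit 39305216)) (I.neg (nat_lit 22118400) (nat_lit 45826048)) (I.pos (nat_lit 204062720) (nat_lit 227770368)) (I.mix (nat_lit 53018624) (nat_lit 32718848)) (I.mix (nat_lit 24133632) (nat_lit 32096256)) (I.mix (nat_lit 25640960) (nat_lit 31965184)))
  false (nat_lit 0)
def b0_14 : Bx := Bx.mk (St.mk (I.mix (nat_lit 6078464) (nat_lit 5586944)) (I.mix (nat_lit 10158080) (nat_lit 2523136)) (I.neg (nat_lit 9142272) (nat_lit 10551296)) (I.pos (nat_lit 145801216) (nat_lit 147914752)) (I.mix (nat_lit 11894784) (nat_lit 19808256)) (I.mix (nat_lit 7880704) (nat_lit 10436608)) (I.mix (nat_lit 1064960) (nat_lit 688128)))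
  true (nat_lit 0)
def b0_15 : Bx := Bx.mk (St.mk (I.pos (nat_lit 134971392) (nat_lit 184221696)) (I.mix (nat_lit 11157504) (nat_lit 28164096)) (I.mix (nat_lit 16105472) (nat_lit 33964032)) (I.pos (nat_lit 233766912) (nat_lit 285097984)) (I.mix (nat_lit 136708096) (nat_lit 93995008)) (I.mix (nat_lit 138412032) (nat_lit 81608704)) (I.mix (nat_lit 139853824) (nat_lit 83099648)))
  false (nat_lit 0)
def b0_16 : Bx := Bx.mk (St.mk (I.pos (nat_lit 119193600) (nat_lit 141623296)) (I.neg (nat_lit 5849088) (nat_lit 27394048)) (I.neg (nat_lit 10371072) (nat_lit 32489472)) (I.pos (nat_lit 207568896) (nat_lit 229720064)) (I.mix (nat_lit 64192512) (nat_lit 23396352)) (I.mix (nat_lit 33685504) (nat_lit 28606464)) (I.mix (nat_lit 35078144) (nat_lit 28934144)))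
  false (nat_lit 0)
def b0_17 : Bx := Bx.mk (St.mk (I.pos (nat_lit 121356288) (nat_lit 148455424)) (I.mix (nat_lit 24068096) (nat_lit 1720320)) (I.neg (nat_lit 2916352) (nat_lit 29278208)) (I.pos (nat_lit 211091456) (nat_lit 237617152)) (I.mix (nat_lit 64897024) (nat_lit 28459008)) (I.mix (nat_lit 34226176) (nat_lit 37191680)) (I.mix (nat_lit 35078144) (nat_lit 35078144)))
  false (nat_lit 0)
def b0_18 : Bx := Bx.mk (St.mk (I.pos (nat_lit 134529024) (nat_lit 168673280)) (I.neg (nat_lit 1097728) (nat_lit 33734656)) (I.neg (nat_lit 6864896) (nat_lit 42778624)) (I.pos (nat_lit 225869824) (nat_lit 261734400)) (I.mix (nat_lit 89522176) (nat_lit 61784064)) (I.mix (nat_lit 62963712) (nat_lit 60391424)) (I.mix (nat_lit 66568192) (nat_lit 55377920)))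
  false (nat_lit 0)
def b0_19 : Bx := Bx.mk (St.mk (I.pos (nat_lit 139378688) (nat_lit 146587648)) (I.neg (nat_lit 7667712) (nat_lit 13893632)) (I.neg (nat_lit 11993088) (nat_lit 18726912)) (I.pos (nat_lit 228687872) (nat_lit 235945984)) (I.neg (nat_lit 2457600) (nat_lit 19251200)) (I.mix (nat_lit 4145152) (nat_lit 6782976)) (I.mix (nat_lit 5537792) (nat_lit 5373952)))
  false (nat_lit 0)
def b0_20 : Bx := Bx.mk (St.mk (I.pos (nat_lit 149815296) (nat_lit 171278336)) (I.mix (nat_lit 14532608) (nat_lit 5177344)) (I.mix (nat_lit 18857984) (nat_lit 2506752)) (I.pos (nat_lit 245514240) (nat_lit 267550720)) (I.mix (nat_lit 59162624) (nat_lit 40075264)) (I.mix (nat_lit 47775744) (nat_lit 43155456)) (I.mix (nat_lit 48300032) (nat_lit 43515904)))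
  false (nat_lit 0)
def t0 : BTr := (BTr.n (BTr.n (BTr.n (BTr.n (BTr.b b0_0) (BTr.b b0_1)) (BTr.n (BTr.b b0_2) (BTr.n (BTr.b b0_3) (BTr.b b0_4)))) (BTr.n (BTr.n (BTr.b b0_5) (BTr.b b0_6)) (BTr.n (BTr.b b0_7) (BTr.n (BTr.b b0_8) (BTr.b b0_9))))) (BTr.n (BTr.n (BTr.n (BTr.b b0_10) (BTr.b b0_11)) (BTr.n (BTr.b b0_12) (BTr.n (BTr.b b0_13) (BTr.b b0_14)))) (BTr.n (BTr.n (BTr.b b0_15) (BTr.n (BTr.b b0_16) (BTr.b b0_17))) (BTr.n (BTr.b b0_18) (BTr.n (BTr.b b0_19) (BTr.b b0_20))))))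
namespace T0
def l0 : Tr := Tr.L (Pth.l (Pth.l (Pth.l (Pth.l Pth.z))))
def l1 : Tr := Tr.L (Pth.l (Pth.l (Pth.l (Pth.r Pth.z))))
def l2 : Tr := Tr.L (Pth.l (Pth.l (Pth.r (Pth.l Pth.z))))
def l3 : Tr := Tr.L (Pth.l (Pth.l (Pth.r (Pth.r (Pth.l Pth.z)))))
def l4 : Tr := Tr.L (Pth.l (Pth.l (Pth.r (Pth.r (Pth.r Pth.z)))))
def l5 : Tr := Tr.L (Pth.l (Pth.r (Pth.l (Pth.l Pth.z))))
def l6 : Tr := Tr.L (Pth.l (Pth.r (Pth.l (Pth.r Pth.z))))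
def l7 : Tr := Tr.L (Pth.l (Pth.r (Pth.r (Pth.l Pth.z))))
def l8 : Tr := Tr.L (Pth.l (Pth.r (Pth.r (Pth.r (Pth.l Pth.z)))))
def l9 : Tr := Tr.L (Pth.l (Pth.r (Pth.r (Pth.r (Pth.r Pth.z)))))
def l10 : Tr := Tr.L (Pth.r (Pth.l (Pth.l (Pth.l Pth.z))))
def l11 : Tr := Tr.L (Pth.r (Pth.l (Pth.l (Pth.r Pth.z))))
def l12 : Tr := Tr.L (Pth.r (Pth.l (Pth.r (Pth.l Pth.z))))
def l13 : Tr := Tr.L (Pth.r (Pth.l (Pth.r (Pth.r (Pth.l Pth.z)))))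
def l14 : Tr := Tr.L (Pth.r (Pth.l (Pth.r (Pth.r (Pth.r Pth.z)))))
def l15 : Tr := Tr.L (Pth.r (Pth.r (Pth.l (Pth.l Pth.z))))
def l16 : Tr := Tr.L (Pth.r (Pth.r (Pth.l (Pth.r (Pth.l Pth.z)))))
def l17 : Tr := Tr.L (Pth.r (Pth.r (Pth.l (Pth.r (Pth.r Pth.z)))))
def l18 : Tr := Tr.L (Pth.r (Pth.r (Pth.r (Pth.l Pth.z))))
def l19 : Tr := Tr.L (Pth.r (Pth.r (Pth.r (Pth.r (Pth.l Pth.z)))))
def l20 : Tr := Tr.L (Pth.r (Pth.r (Pth.r (Pth.r (Pth.r Pth.z)))))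
end T0
def b1_0 : Bx := Bx.mk (St.mk (I.pos (nat_lit 128860160) (nat_lit 215302144)) (I.mix (nat_lit 278528) (nat_lit 91275264)) (I.mix (nat_lit 278528) (nat_lit 98287616)) (I.pos (nat_lit 386793472) (nat_lit 479756288)) (I.mix (nat_lit 223330304) (nat_lit 120635392)) (I.mix (nat_lit 114393088) (nat_lit 108068864)) (I.mix (nat_lit 153911296) (nat_lit 169295872)))
  false (nat_lit 56489948)
def b1_1 : Bx := Bx.mk (St.mk (I.pos (nat_lit 15876096) (nat_lit 116572160)) (I.neg (nat_lit 11468800) (nat_lit 90210304)) (I.neg (nat_lit 7405568) (nat_lit 72253440)) (I.pos (nat_lit 277315584) (nat_lit 337969152)) (I.mix (nat_lit 159203328) (nat_lit 100319232)) (I.mix (nat_lit 101416960) (nat_lit 95895552)) (I.mix (nat_lit 113868800) (nat_lit 83083264)))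
  false (nat_lit 80119751)
def b1_2 : Bx := Bx.mk (St.mk (I.mix (nat_lit 58097664) (nat_lit 13025280)) (I.mix (nat_lit 4816896) (nat_lit 86622208)) (I.neg (nat_lit 42680320) (nat_lit 67944448)) (I.pos (nat_lit 270696448) (nat_lit 304447488)) (I.mix (nat_lit 74842112) (nat_lit 156745728)) (I.mix (nat_lit 109576192) (nat_lit 101924864)) (I.mix (nat_lit 71090176) (nat_lit 46858240)))
  true (nat_lit 0)
def b1_3 : Bx := Bx.mk (St.mk (I.pos (nat_lit 91324416) (nat_lit 180666368)) (I.mix (nat_lit 31162368) (nat_lit 74416128)) (I.mix (nat_lit 23478272) (nat_lit 92848128)) (I.pos (nat_lit 315752448) (nat_lit 434651136)) (I.mix (nat_lit 217677824) (nat_lit 94142464)) (I.mix (nat_lit 162201600) (nat_lit 134791168)) (I.mix (nat_lit 176177152) (nat_lit 178044928)))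
  false (nat_lit 63841595)
def b1_4 : Bx := Bx.mk (St.mk (I.pos (nat_lit 2375680) (nat_lit 58097664)) (I.neg (nat_lit 29179904) (nat_lit 86622208)) (I.neg (nat_lit 43171840) (nat_lit 67944448)) (I.pos (nat_lit 274808832) (nat_lit 304447488)) (I.mix (nat_lit 156745728) (nat_lit 74842112)) (I.mix (nat_lit 101924864) (nat_lit 109576192)) (I.mix (nat_lit 71090176) (nat_lit 46858240)))
  false (nat_lit 67472514)
def b1_5 : Bx := Bx.mk (St.mk (I.neg (nat_lit 15876096) (nat_lit 116588544)) (I.pos (nat_lit 11468800) (nat_lit 90210304)) (I.neg (nat_lit 7421952) (nat_lit 72253440)) (I.pos (nat_lit 277250048) (nat_lit 338329600)) (I.mix (nat_lit 100319232) (nat_lit 159203328)) (I.mix (nat_lit 95895552) (nat_lit 101416960)) (I.mix (nat_lit 113885184) (nat_lit 83148800)))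
  true (nat_lit 0)
def b1_6 : Bx := Bx.mk (St.mk (I.pos (nat_lit 210862080) (nat_lit 260816896)) (I.mix (nat_lit 16384) (nat_lit 52527104)) (I.mix (nat_lit 81068032) (nat_lit 2949120)) (I.pos (nat_lit 474742784) (nat_lit 560087040)) (I.mix (nat_lit 128204800) (nat_lit 94552064)) (I.mix (nat_lit 89063424) (nat_lit 87506944)) (I.mix (nat_lit 157974528) (nat_lit 154779648)))
  false (nat_lit 0)
def b1_7 : Bx := Bx.mk (St.mk (I.mix (nat_lit 10305536) (nat_lit 15941632)) (I.mix (nat_lit 29032448) (nat_lit 49152)) (I.neg (nat_lit 45236224) (nat_lit 50233344)) (I.pos (nat_lit 270958592) (nat_lit 278265856)) (I.mix (nat_lit 63176704) (nat_lit 47316992)) (I.mix (nat_lit 41697280) (nat_lit 41926656)) (I.mix (nat_lit 9240576) (nat_lit 9289728)))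
  false (nat_lit 0)
def b1_8 : Bx := Bx.mk (St.mk (I.pos (nat_lit 185008128) (nat_lit 239714304)) (I.mix (nat_lit 7880704) (nat_lit 42319872)) (I.neg (nat_lit 3686400) (nat_lit 80740352)) (I.pos (nat_lit 428441600) (nat_lit 510492672)) (I.mix (nat_lit 134135808) (nat_lit 112001024)) (I.mix (nat_lit 96829440) (nat_lit 88293376)) (I.mix (nat_lit 164315136) (nat_lit 151371776)))
  false (nat_lit 0)
def b1_9 : Bx := Bx.mk (St.mk (I.pos (nat_lit 2785280) (nat_lit 33046528)) (I.mix (nat_lit 30441472) (nat_lit 3833856)) (I.neg (nat_lit 42745856) (nat_lit 49676288)) (I.pos (nat_lit 271695872) (nat_lit 280838144)) (I.mix (nat_lit 77119488) (nat_lit 62111744)) (I.mix (nat_lit 51937280) (nat_lit 53936128)) (I.mix (nat_lit 13516800) (nat_lit 15335424)))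
  false (nat_lit 0)
def b1_10 : Bx := Bx.mk (St.mk (I.pos (nat_lit 166739968) (nat_lit 224133120)) (I.pos (nat_lit 114688) (nat_lit 48234496)) (I.mix (nat_lit 63799296) (nat_lit 14254080)) (I.pos (nat_lit 407126016) (nat_lit 480804864)) (I.mix (nat_lit 126976000) (nat_lit 70483968)) (I.mix (nat_lit 76021760) (nat_lit 69140480)) (I.mix (nat_lit 109051904) (nat_lit 113475584)))
  false (nat_lit 0)
def b1_11 : Bx := Bx.mk (St.mk (I.pos (nat_lit 9207808) (nat_lit 43810816)) (I.mix (nat_lit 40189952) (nat_lit 983040)) (I.neg (nat_lit 42647552) (nat_lit 51757056)) (I.pos (nat_lit 271826944) (nat_lit 285851648)) (I.mix (nat_lit 63012864) (nat_lit 63242240)) (I.mix (nat_lit 49905664) (nat_lit 47988736)) (I.mix (nat_lit 19513344) (nat_lit 17186816)))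
  false (nat_lit 0)
def b1_12 : Bx := Bx.mk (St.mk (I.pos (nat_lit 88719360) (nat_lit 116817920)) (I.neg (nat_lit 17858560) (nat_lit 44711936)) (I.neg (nat_lit 7716864) (nat_lit 30261248)) (I.pos (nat_lit 314261504) (nat_lit 338493440)) (I.mix (nat_lit 50659328) (nat_lit 43401216)) (I.mix (nat_lit 31817728) (nat_lit 34766848)) (I.mix (nat_lit 29933568) (nat_lit 28229632)))
  false (nat_lit 0)
def b1_13 : Bx := Bx.mk (St.mk (I.mix (nat_lit 9224192) (nat_lit 11976704)) (I.mix (nat_lit 3571712) (nat_lit 19562496)) (I.neg (nat_lit 46907392) (nat_lit 49889280)) (I.pos (nat_lit 270909440) (nat_lit 276807680)) (I.mix (nat_lit 12926976) (nat_lit 32096256)) (I.mix (nat_lit 15155200) (nat_lit 10960896)) (I.mix (nat_lit 3964928) (nat_lit 1654784)))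
  true (nat_lit 0)
def b1_14 : Bx := Bx.mk (St.mk (I.pos (nat_lit 152059904) (nat_lit 206225408)) (I.pos (nat_lit 22577152) (nat_lit 85114880)) (I.mix (nat_lit 11468800) (nat_lit 78725120)) (I.pos (nat_lit 408371200) (nat_lit 475496448)) (I.mix (nat_lit 153976832) (nat_lit 107200512)) (I.mix (nat_lit 110592000) (nat_lit 81510400)) (I.mix (nat_lit 180486144) (nat_lit 116703232)))
  false (nat_lit 0)
def b1_15 : Bx := Bx.mk (St.mk (I.pos (nat_lit 4407296) (nat_lit 45334528)) (I.neg (nat_lit 22511616) (nat_lit 69599232)) (I.neg (nat_lit 46448640) (nat_lit 63242240)) (I.pos (nat_lit 274513920) (nat_lit 292634624)) (I.mix (nat_lit 125550592) (nat_lit 68894720)) (I.mix (nat_lit 59686912) (nat_lit 99352576)) (I.mix (nat_lit 39583744) (nat_lit 27721728)))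
  false (nat_lit 1667593)
def b1_16 : Bx := Bx.mk (St.mk (I.pos (nat_lit 224247808) (nat_lit 268500992)) (I.mix (nat_lit 5701632) (nat_lit 36601856)) (I.neg (nat_lit 25362432) (nat_lit 106430464)) (I.pos (nat_lit 493142016) (nat_lit 572784640)) (I.mix (nat_lit 87932928) (nat_lit 72712192)) (I.mix (nat_lit 70205440) (nat_lit 56524800)) (I.mix (nat_lit 137854976) (nat_lit 96419840)))
  false (nat_lit 0)
def b1_17 : Bx := Bx.mk (St.mk (I.mix (nat_lit 12746752) (nat_lit 9601024)) (I.mix (nat_lit 19611648) (nat_lit 4718592)) (I.neg (nat_lit 46907392) (nat_lit 49889280)) (I.pos (nat_lit 270909440) (nat_lit 276807680)) (I.mix (nat_lit 44908544) (nat_lit 27443200)) (I.mix (nat_lit 22036480) (nat_lit 29999104)) (I.mix (nat_lit 4685824) (nat_lit 2310144)))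
  false (nat_lit 0)
def b1_18 : Bx := Bx.mk (St.mk (I.mix (nat_lit 458752) (nat_lit 16613376)) (I.neg (nat_lit 3424256) (nat_lit 22069248)) (I.neg (nat_lit 45072384) (nat_lit 49315840)) (I.pos (nat_lit 271220736) (nat_lit 277807104)) (I.mix (nat_lit 39190528) (nat_lit 28082176)) (I.mix (nat_lit 22544384) (nat_lit 29638656)) (I.mix (nat_lit 5275648) (nat_lit 6127616)))
  false (nat_lit 0)
def b1_19 : Bx := Bx.mk (St.mk (I.pos (nat_lit 210059264) (nat_lit 241303552)) (I.pos (nat_lit 3129344) (nat_lit 32210944)) (I.neg (nat_lit 27738112) (nat_lit 69648384)) (I.pos (nat_lit 469729280) (nat_lit 511606784)) (I.mix (nat_lit 85262336) (nat_lit 42418176)) (I.mix (nat_lit 59457536) (nat_lit 44793856)) (I.mix (nat_lit 94420992) (nat_lit 78970880)))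
  false (nat_lit 0)
def t1 : BTr := (BTr.n (BTr.n (BTr.n (BTr.n (BTr.b b1_0) (BTr.b b1_1)) (BTr.n (BTr.b b1_2) (BTr.n (BTr.b b1_3) (BTr.b b1_4)))) (BTr.n (BTr.n (BTr.b b1_5) (BTr.b b1_6)) (BTr.n (BTr.b b1_7) (BTr.n (BTr.b b1_8) (BTr.b b1_9))))) (BTr.n (BTr.n (BTr.n (BTr.b b1_10) (BTr.b b1_11)) (BTr.n (BTr.b b1_12) (BTr.n (BTr.b b1_13) (BTr.b b1_14)))) (BTr.n (BTr.n (BTr.b b1_15) (BTr.b b1_16)) (BTr.n (BTr.b b1_17) (BTr.n (BTr.b b1_18) (BTr.b b1_19))))))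
namespace T1
def l0 : Tr := Tr.L (Pth.l (Pth.l (Pth.l (Pth.l Pth.z))))
def l1 : Tr := Tr.L (Pth.l (Pth.l (Pth.l (Pth.r Pth.z))))
def l2 : Tr := Tr.L (Pth.l (Pth.l (Pth.r (Pth.l Pth.z))))
def l3 : Tr := Tr.L (Pth.l (Pth.l (Pth.r (Pth.r (Pth.l Pth.z)))))
def l4 : Tr := Tr.L (Pth.l (Pth.l (Pth.r (Pth.r (Pth.r Pth.z)))))
def l5 : Tr := Tr.L (Pth.l (Pth.r (Pth.l (Pth.l Pth.z))))
def l6 : Tr := Tr.L (Pth.l (Pth.r (Pth.l (Pth.r Pth.z))))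
def l7 : Tr := Tr.L (Pth.l (Pth.r (Pth.r (Pth.l Pth.z))))
def l8 : Tr := Tr.L (Pth.l (Pth.r (Pth.r (Pth.r (Pth.l Pth.z)))))
def l9 : Tr := Tr.L (Pth.l (Pth.r (Pth.r (Pth.r (Pth.r Pth.z)))))
def l10 : Tr := Tr.L (Pth.r (Pth.l (Pth.l (Pth.l Pth.z))))
def l11 : Tr := Tr.L (Pth.r (Pth.l (Pth.l (Pth.r Pth.z))))
def l12 : Tr := Tr.L (Pth.r (Pth.l (Pth.r (Pth.l Pth.z))))
def l13 : Tr := Tr.L (Pth.r (Pth.l (Pth.r (Pth.r (Pth.l Pth.z)))))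
def l14 : Tr := Tr.L (Pth.r (Pth.l (Pth.r (Pth.r (Pth.r Pth.z)))))
def l15 : Tr := Tr.L (Pth.r (Pth.r (Pth.l (Pth.l Pth.z))))
def l16 : Tr := Tr.L (Pth.r (Pth.r (Pth.l (Pth.r Pth.z))))
def l17 : Tr := Tr.L (Pth.r (Pth.r (Pth.r (Pth.l Pth.z))))
def l18 : Tr := Tr.L (Pth.r (Pth.r (Pth.r (Pth.r (Pth.l Pth.z)))))
def l19 : Tr := Tr.L (Pth.r (Pth.r (Pth.r (Pth.r (Pth.r Pth.z)))))
end T1
def b2_0 : Bx := Bx.mk (St.mk (I.pos (nat_lit 142999552) (nat_lit 215302144)) (I.mix (nat_lit 278528) (nat_lit 62210048)) (I.mix (nat_lit 278528) (nat_lit 103645184)) (I.pos (nat_lit 244531200) (nat_lit 340541440)) (I.mix (nat_lit 156827648) (nat_lit 83574784)) (I.mix (nat_lit 97075200) (nat_lit 79626240)) (I.mix (nat_lit 125550592) (nat_lit 108462080)))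
  false (nat_lit 0)
def b2_1 : Bx := Bx.mk (St.mk (I.pos (nat_lit 67108864) (nat_lit 133808128)) (I.neg (nat_lit 4997120) (nat_lit 71368704)) (I.mix (nat_lit 48644096) (nat_lit 17121280)) (I.pos (nat_lit 172703744) (nat_lit 218972160)) (I.mix (nat_lit 107069440) (nat_lit 97533952)) (I.mix (nat_lit 73859072) (nat_lit 85868544)) (I.mix (nat_lit 64520192) (nat_lit 81510400)))
  false (nat_lit 19727802)
def b2_2 : Bx := Bx.mk (St.mk (I.mix (nat_lit 32522240) (nat_lit 835584)) (I.mix (nat_lit 40419328) (nat_lit 8585216)) (I.pos (nat_lit 7766016) (nat_lit 14319616)) (I.pos (nat_lit 145670144) (nat_lit 156598272)) (I.mix (nat_lit 51527680) (nat_lit 77889536)) (I.mix (nat_lit 40075264) (nat_lit 56410112)) (I.mix (nat_lit 7618560) (nat_lit 13402112)))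
  true (nat_lit 0)
def b2_3 : Bx := Bx.mk (St.mk (I.pos (nat_lit 124092416) (nat_lit 177864704)) (I.mix (nat_lit 6045696) (nat_lit 53968896)) (I.pos (nat_lit 29229056) (nat_lit 96681984)) (I.pos (nat_lit 213729280) (nat_lit 281608192)) (I.mix (nat_lit 184451072) (nat_lit 64487424)) (I.mix (nat_lit 163151872) (nat_lit 86573056)) (I.mix (nat_lit 158072832) (nat_lit 95109120)))
  false (nat_lit 0)
def b2_4 : Bx := Bx.mk (St.mk (I.mix (nat_lit 2506752) (nat_lit 32522240)) (I.mix (nat_lit 9715712) (nat_lit 40419328)) (I.pos (nat_lit 7766016) (nat_lit 14319616)) (I.pos (nat_lit 145670144) (nat_lit 156598272)) (I.mix (nat_lit 77889536) (nat_lit 51527680)) (I.mix (nat_lit 56410112) (nat_lit 40075264)) (I.mix (nat_lit 7618560) (nat_lit 13402112)))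
  false (nat_lit 0)
def b2_5 : Bx := Bx.mk (St.mk (I.pos (nat_lit 134234112) (nat_lit 178044928)) (I.mix (nat_lit 43319296) (nat_lit 245760)) (I.mix (nat_lit 16826368) (nat_lit 30343168)) (I.pos (nat_lit 223739904) (nat_lit 269860864)) (I.mix (nat_lit 81805312) (nat_lit 98811904)) (I.mix (nat_lit 92127232) (nat_lit 72318976)) (I.mix (nat_lit 89128960) (nat_lit 73089024)))
  false (nat_lit 10528227)
def b2_6 : Bx := Bx.mk (St.mk (I.pos (nat_lit 106283008) (nat_lit 139608064)) (I.neg (nat_lit 2965504) (nat_lit 35028992)) (I.mix (nat_lit 10780672) (nat_lit 20021248)) (I.pos (nat_lit 194658304) (nat_lit 224886784)) (I.mix (nat_lit 85557248) (nat_lit 57802752)) (I.mix (nat_lit 42729472) (nat_lit 61931520)) (I.mix (nat_lit 44793856) (nat_lit 57163776)))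
  false (nat_lit 0)
def b2_7 : Bx := Bx.mk (St.mk (I.mix (nat_lit 19021824) (nat_lit 3571712)) (I.mix (nat_lit 8454144) (nat_lit 11780096)) (I.pos (nat_lit 8110080) (nat_lit 10829824)) (I.pos (nat_lit 145620992) (nat_lit 149078016)) (I.mix (nat_lit 45318144) (nat_lit 35028992)) (I.mix (nat_lit 24657920) (nat_lit 33226752)) (I.mix (nat_lit 3964928) (nat_lit 3342336)))
  true (nat_lit 0)
def b2_8 : Bx := Bx.mk (St.mk (I.pos (nat_lit 128548864) (nat_lit 163381248)) (I.neg (nat_lit 13385728) (nat_lit 43302912)) (I.mix (nat_lit 18743296) (nat_lit 11911168)) (I.pos (nat_lit 216383488) (nat_lit 252477440)) (I.mix (nat_lit 86097920) (nat_lit 78233600)) (I.mix (nat_lit 79822848) (nat_lit 58310656)) (I.mix (nat_lit 81051648) (nat_lit 55050240)))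
  false (nat_lit 0)
def b2_9 : Bx := Bx.mk (St.mk (I.pos (nat_lit 14368768) (nat_lit 68648960)) (I.mix (nat_lit 2785280) (nat_lit 45334528)) (I.mix (nat_lit 8421376) (nat_lit 14696448)) (I.pos (nat_lit 147816448) (nat_lit 165396480)) (I.mix (nat_lit 59277312) (nat_lit 64503808)) (I.mix (nat_lit 60112896) (nat_lit 42467328)) (I.mix (nat_lit 33751040) (nat_lit 23609344)))
  false (nat_lit 0)
def b2_10 : Bx := Bx.mk (St.mk (I.pos (nat_lit 53379072) (nat_lit 97648640)) (I.mix (nat_lit 61751296) (nat_lit 3096576)) (I.neg (nat_lit 4292608) (nat_lit 41648128)) (I.pos (nat_lit 156827648) (nat_lit 192643072)) (I.mix (nat_lit 105594880) (nat_lit 59572224)) (I.mix (nat_lit 50282496) (nat_lit 88276992)) (I.mix (nat_lit 39616512) (nat_lit 48693248)))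
  false (nat_lit 0)
def b2_11 : Bx := Bx.mk (St.mk (I.neg (nat_lit 14352384) (nat_lit 68255744)) (I.mix (nat_lit 45301760) (nat_lit 2785280)) (I.mix (nat_lit 8323072) (nat_lit 14696448)) (I.pos (nat_lit 147816448) (nat_lit 165232640)) (I.mix (nat_lit 64487424) (nat_lit 59293696)) (I.mix (nat_lit 42467328) (nat_lit 60112896)) (I.mix (nat_lit 33751040) (nat_lit 23625728)))
  true (nat_lit 0)
def b2_12 : Bx := Bx.mk (St.mk (I.pos (nat_lit 174260224) (nat_lit 228065280)) (I.mix (nat_lit 8192000) (nat_lit 32669696)) (I.mix (nat_lit 15630336) (nat_lit 51019776)) (I.pos (nat_lit 286375936) (nat_lit 354680832)) (I.mix (nat_lit 134168576) (nat_lit 56197120)) (I.mix (nat_lit 78512128) (nat_lit 68304896)) (I.mix (nat_lit 122863616) (nat_lit 114753536)))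
  false (nat_lit 0)
def b2_13 : Bx := Bx.mk (St.mk (I.pos (nat_lit 54575104) (nat_lit 67911680)) (I.mix (nat_lit 1785856) (nat_lit 12271616)) (I.neg (nat_lit 1163264) (nat_lit 7962624)) (I.pos (nat_lit 157564928) (nat_lit 165036032)) (I.mix (nat_lit 15679488) (nat_lit 21544960)) (I.mix (nat_lit 13025280) (nat_lit 9535488)) (I.mix (nat_lit 7995392) (nat_lit 4063232)))
  false (nat_lit 0)
def b2_14 : Bx := Bx.mk (St.mk (I.pos (nat_lit 164544512) (nat_lit 214040576)) (I.pos (nat_lit 11845632) (nat_lit 59932672)) (I.pos (nat_lit 23969792) (nat_lit 98500608)) (I.pos (nat_lit 276955136) (nat_lit 337559552)) (I.mix (nat_lit 143261696) (nat_lit 104251392)) (I.mix (nat_lit 115654656) (nat_lit 78069760)) (I.mix (nat_lit 192839680) (nat_lit 112869376)))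
  false (nat_lit 0)
def b2_15 : Bx := Bx.mk (St.mk (I.pos (nat_lit 224706560) (nat_lit 262225920)) (I.mix (nat_lit 4571136) (nat_lit 34013184)) (I.mix (nat_lit 24608768) (nat_lit 43483136)) (I.pos (nat_lit 369344512) (nat_lit 432013312)) (I.mix (nat_lit 85245952) (nat_lit 67616768)) (I.mix (nat_lit 65077248) (nat_lit 54919168)) (I.mix (nat_lit 125173760) (nat_lit 97501184)))
  false (nat_lit 0)
def b2_16 : Bx := Bx.mk (St.mk (I.pos (nat_lit 211910656) (nat_lit 257458176)) (I.pos (nat_lit 835584) (nat_lit 39927808)) (I.mix (nat_lit 7897088) (nat_lit 62799872)) (I.pos (nat_lit 348160000) (nat_lit 422150144)) (I.mix (nat_lit 91209728) (nat_lit 59916288)) (I.mix (nat_lit 65142784) (nat_lit 60260352)) (I.mix (nat_lit 109166592) (nat_lit 108658688)))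
  false (nat_lit 0)
def b2_17 : Bx := Bx.mk (St.mk (I.pos (nat_lit 195608576) (nat_lit 233930752)) (I.mix (nat_lit 8912896) (nat_lit 28246016)) (I.mix (nat_lit 18890752) (nat_lit 43188224)) (I.pos (nat_lit 318160896) (nat_lit 366854144)) (I.mix (nat_lit 108347392) (nat_lit 59228160)) (I.mix (nat_lit 68403200) (nat_lit 56508416)) (I.mix (nat_lit 112132096) (nat_lit 100450304)))
  false (nat_lit 0)
def b2_18 : Bx := Bx.mk (St.mk (I.pos (nat_lit 217808896) (nat_lit 232341504)) (I.pos (nat_lit 12681216) (nat_lit 22970368)) (I.pos (nat_lit 17793024) (nat_lit 32751616)) (I.pos (nat_lit 352845824) (nat_lit 368902144)) (I.neg (nat_lit 10174464) (nat_lit 39354368)) (I.mix (nat_lit 11190272) (nat_lit 5783552)) (I.mix (nat_lit 13942784) (nat_lit 12222464)))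
  false (nat_lit 0)
def b2_19 : Bx := Bx.mk (St.mk (I.pos (nat_lit 126287872) (nat_lit 176537600)) (I.mix (nat_lit 19709952) (nat_lit 30720000)) (I.pos (nat_lit 14548992) (nat_lit 70811648)) (I.pos (nat_lit 214351872) (nat_lit 270467072)) (I.mix (nat_lit 181829632) (nat_lit 97632256)) (I.mix (nat_lit 161120256) (nat_lit 91717632)) (I.mix (nat_lit 154648576) (nat_lit 94961664)))
  false (nat_lit 15885589)
def t2 : BTr := (BTr.n (BTr.n (BTr.n (BTr.n (BTr.b b2_0) (BTr.b b2_1)) (BTr.n (BTr.b b2_2) (BTr.n (BTr.b b2_3) (BTr.b b2_4)))) (BTr.n (BTr.n (BTr.b b2_5) (BTr.b b2_6)) (BTr.n (BTr.b b2_7) (BTr.n (BTr.b b2_8) (BTr.b b2_9))))) (BTr.n (BTr.n (BTr.n (BTr.b b2_10) (BTr.b b2_11)) (BTr.n (BTr.b b2_12) (BTr.n (BTr.b b2_13) (BTr.b b2_14)))) (BTr.n (BTr.n (BTr.b b2_15) (BTr.b b2_16)) (BTr.n (BTr.b b2_17) (BTr.n (BTr.b b2_18) (BTr.b b2_19))))))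
namespace T2
def l0 : Tr := Tr.L (Pth.l (Pth.l (Pth.l (Pth.l Pth.z))))
def l1 : Tr := Tr.L (Pth.l (Pth.l (Pth.l (Pth.r Pth.z))))
def l2 : Tr := Tr.L (Pth.l (Pth.l (Pth.r (Pth.l Pth.z))))
def l3 : Tr := Tr.L (Pth.l (Pth.l (Pth.r (Pth.r (Pth.l Pth.z)))))
def l4 : Tr := Tr.L (Pth.l (Pth.l (Pth.r (Pth.r (Pth.r Pth.z)))))
def l5 : Tr := Tr.L (Pth.l (Pth.r (Pth.l (Pth.l Pth.z))))
def l6 : Tr := Tr.L (Pth.l (Pth.r (Pth.l (Pth.r Pth.z))))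
def l7 : Tr := Tr.L (Pth.l (Pth.r (Pth.r (Pth.l Pth.z))))
def l8 : Tr := Tr.L (Pth.l (Pth.r (Pth.r (Pth.r (Pth.l Pth.z)))))
def l9 : Tr := Tr.L (Pth.l (Pth.r (Pth.r (Pth.r (Pth.r Pth.z)))))
def l10 : Tr := Tr.L (Pth.r (Pth.l (Pth.l (Pth.l Pth.z))))
def l11 : Tr := Tr.L (Pth.r (Pth.l (Pth.l (Pth.r Pth.z))))
def l12 : Tr := Tr.L (Pth.r (Pth.l (Pth.r (Pth.l Pth.z))))
def l13 : Tr := Tr.L (Pth.r (Pth.l (Pth.r (Pth.r (Pth.l Pth.z)))))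
def l14 : Tr := Tr.L (Pth.r (Pth.l (Pth.r (Pth.r (Pth.r Pth.z)))))
def l15 : Tr := Tr.L (Pth.r (Pth.r (Pth.l (Pth.l Pth.z))))
def l16 : Tr := Tr.L (Pth.r (Pth.r (Pth.l (Pth.r Pth.z))))
def l17 : Tr := Tr.L (Pth.r (Pth.r (Pth.r (Pth.l Pth.z))))
def l18 : Tr := Tr.L (Pth.r (Pth.r (Pth.r (Pth.r (Pth.l Pth.z)))))
def l19 : Tr := Tr.L (Pth.r (Pth.r (Pth.r (Pth.r (Pth.r Pth.z)))))
end T2
theorem bx0_0 : BoxOK sI cl4 cl5 cl5 t1 t1 b0_0 :=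
  box_mk (TrL.c (I.pos (nat_lit 0) (nat_lit 0)) (xa (xb (xb (xa T1.l0 T1.l0) (xa (xb T1.l0 T1.l0) T1.l0)) (xb (xa (xb T1.l0 (xa T1.l0 T1.l0)) (xb T1.l0 T1.l0)) (xa (xb (xa T1.l0 T1.l0) (xa (xs T1.l0 T1.l0) (xs T1.l0 T1.l0))) (xb (xa T1.l0 T1.l0) (xa (xs T1.l0 T1.l0) (xs T1.l0 T1.l0)))))) (xb (xa T1.l0 (xb T1.l0 T1.l0)) (xa (xb T1.l0 (xb (xa T1.l0 T1.l0) (xs (xa T1.l0 T1.l0) (xa T1.l0 T1.l0)))) (xb T1.l0 (xa (xs T1.l0 (xb T1.l0 T1.l0)) (xs T1.l0 (xb T1.l0 T1.l0)))))))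
  (TrL.c (I.pos (nat_lit 0) (nat_lit 0)) (xa (xb T1.l1 (xb T1.l1 (xa T1.l1 T1.l1))) (xb T1.l1 (xa (xb T1.l1 T1.l1) (xb T1.l1 T1.l1))))
  (TrL.c (I.pos (nat_lit 0) (nat_lit 0)) (xa T1.l2 (xb T1.l2 T1.l2))
  (TrL.c (I.pos (nat_lit 0) (nat_lit 0)) (xb (xa T1.l3 (xa T1.l3 T1.l3)) (xa T1.l3 (xa T1.l3 (xb T1.l3 T1.l3))))
  (TrL.c (I.pos (nat_lit 0) (nat_lit 0)) (xa T1.l4 (xb T1.l4 T1.l4))
  (TrL.c (I.pos (nat_lit 0) (nat_lit 0)) (xa (xb T1.l5 (xb T1.l5 (xa T1.l5 T1.l5))) (xb T1.l5 (xa (xb T1.l5 T1.l5) (xb T1.l5 T1.l5))))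
  TrL.n)))))) (by decide +kernel)
theorem bx0_1 : BoxOK sI cl4 cl5 cl5 t1 t1 b0_1 :=
  box_mk (TrL.c (I.pos (nat_lit 0) (nat_lit 0)) (xb (xa T1.l6 T1.l6) (xa (xb T1.l6 T1.l6) (xb T1.l6 T1.l6)))
  (TrL.c (I.pos (nat_lit 0) (nat_lit 0)) T1.l1
  (TrL.c (I.pos (nat_lit 0) (nat_lit 0)) T1.l2
  (TrL.c (I.pos (nat_lit 0) (nat_lit 0)) T1.l3
  (TrL.c (I.pos (nat_lit 0) (nat_lit 0)) T1.l7
  (TrL.c (I.pos (nat_lit 0) (nat_lit 0)) T1.l5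
  TrL.n)))))) (by decide +kernel)
theorem bx0_2 : BoxOK sI cl4 cl5 cl5 t1 t1 b0_2 :=
  box_mk (TrL.c (I.pos (nat_lit 0) (nat_lit 0)) (xb (xa (xb T1.l8 T1.l8) (xb T1.l8 T1.l8)) (xa (xb T1.l8 T1.l8) (xb T1.l8 T1.l8)))
  (TrL.c (I.pos (nat_lit 0) (nat_lit 0)) (xb T1.l1 T1.l1)
  (TrL.c (I.pos (nat_lit 0) (nat_lit 0)) T1.l2
  (TrL.c (I.pos (nat_lit 0) (nat_lit 0)) T1.l3
  (TrL.c (I.pos (nat_lit 0) (nat_lit 0)) T1.l9
  (TrL.c (I.pos (nat_lit 0) (nat_lit 0)) (xb T1.l5 T1.l5)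
  TrL.n)))))) (by decide +kernel)
theorem bx0_3 : BoxOK sI cl4 cl5 cl5 t1 t1 b0_3 :=
  box_mk (TrL.c (I.pos (nat_lit 0) (nat_lit 0)) T1.l1
  (TrL.c (I.pos (nat_lit 0) (nat_lit 0)) T1.l2
  TrL.n)) (by decide +kernel)
theorem bx0_4 : BoxOK sI cl4 cl5 cl5 t1 t1 b0_4 :=
  box_mk (TrL.c (I.pos (nat_lit 0) (nat_lit 0)) (xa (xb (xa T1.l0 T1.l0) (xa (xb T1.l0 T1.l0) T1.l0)) (xb (xa T1.l3 T1.l3) (xa T1.l0 (xb T1.l3 T1.l3))))
  (TrL.c (I.pos (nat_lit 0) (nat_lit 0)) (xa (xb T1.l1 T1.l1) (xb T1.l1 T1.l1))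
  (TrL.c (I.pos (nat_lit 0) (nat_lit 0)) T1.l2
  (TrL.c (I.pos (nat_lit 0) (nat_lit 0)) (xa T1.l3 (xb (xa T1.l3 T1.l3) (xa T1.l3 T1.l3)))
  (TrL.c (I.pos (nat_lit 0) (nat_lit 0)) T1.l4
  (TrL.c (I.pos (nat_lit 0) (nat_lit 0)) (xa (xb T1.l5 T1.l5) (xb T1.l5 T1.l5))
  TrL.n)))))) (by decide +kernel)
theorem bx0_5 : BoxOK sI cl4 cl5 cl5 t1 t1 b0_5 :=
  box_mk (TrL.c (I.pos (nat_lit 0) (nat_lit 0)) (xb T1.l19 T1.l6)
  (TrL.c (I.pos (nat_lit 0) (nat_lit 0)) T1.l1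
  (TrL.c (I.pos (nat_lit 0) (nat_lit 0)) T1.l2
  (TrL.c (I.pos (nat_lit 0) (nat_lit 0)) T1.l3
  (TrL.c (I.pos (nat_lit 0) (nat_lit 0)) T1.l18
  (TrL.c (I.pos (nat_lit 0) (nat_lit 0)) T1.l5
  TrL.n)))))) (by decide +kernel)
theorem bx0_6 : BoxOK sI cl4 cl5 cl5 t1 t1 b0_6 :=
  box_mk (TrL.c (I.pos (nat_lit 0) (nat_lit 0)) (xa (xb (xa (xb T1.l0 (xa T1.l0 T1.l0)) (xb T1.l0 T1.l0)) (xa (xb (xa T1.l0 T1.l0) (xs T1.l0 (xa T1.l0 T1.l0))) (xb (xs T1.l0 T1.l0) (xs T1.l0 (xa T1.l0 T1.l0))))) (xb (xa (xb T1.l0 T1.l0) (xb T1.l0 (xs T1.l0 T1.l0))) (xa (xb (xs T1.l0 T1.l0) (xs T1.l0 T1.l0)) (xb (xs T1.l0 (xa T1.l0 T1.l0)) (xs T1.l0 (xa T1.l0 T1.l0))))))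
  (TrL.c (I.pos (nat_lit 0) (nat_lit 0)) (xa (xb T1.l1 (xa T1.l1 T1.l1)) (xb (xa T1.l1 T1.l1) (xa T1.l1 T1.l1)))
  (TrL.c (I.pos (nat_lit 0) (nat_lit 0)) (xa T1.l2 T1.l2)
  (TrL.c (I.pos (nat_lit 0) (nat_lit 0)) (xa (xb T1.l3 T1.l3) (xb (xa T1.l3 T1.l3) (xa T1.l3 (xb T1.l3 T1.l3))))
  (TrL.c (I.pos (nat_lit 0) (nat_lit 0)) (xa T1.l4 T1.l4)
  (TrL.c (I.pos (nat_lit 0) (nat_lit 0)) (xa (xb T1.l5 (xa T1.l5 T1.l5)) (xb (xa T1.l5 T1.l5) (xa T1.l5 T1.l5)))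
  TrL.n)))))) (by decide +kernel)
theorem bx0_7 : BoxOK sI cl4 cl5 cl5 t1 t1 b0_7 :=
  box_mk (TrL.c (I.pos (nat_lit 0) (nat_lit 0)) (xa (xb T1.l3 T1.l0) (xb T1.l3 T1.l3))
  (TrL.c (I.pos (nat_lit 0) (nat_lit 0)) (xa T1.l1 (xb T1.l1 T1.l1))
  (TrL.c (I.pos (nat_lit 0) (nat_lit 0)) T1.l2
  (TrL.c (I.pos (nat_lit 0) (nat_lit 0)) (xa T1.l3 (xb T1.l3 T1.l3))
  (TrL.c (I.pos (nat_lit 0) (nat_lit 0)) T1.l4
  (TrL.c (I.pos (nat_lit 0) (nat_lit 0)) (xa T1.l5 (xb T1.l5 T1.l5))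
  TrL.n)))))) (by decide +kernel)
theorem bx0_8 : BoxOK sI cl4 cl5 cl5 t1 t1 b0_8 :=
  box_mk (TrL.c (I.pos (nat_lit 0) (nat_lit 0)) (xa (xb (xa (xb T1.l8 T1.l8) (xb T1.l10 T1.l10)) T1.l8) (xb (xa (xb T1.l10 T1.l10) (xb T1.l10 T1.l10)) (xa T1.l10 T1.l10)))
  (TrL.c (I.pos (nat_lit 0) (nat_lit 0)) (xa T1.l1 T1.l1)
  (TrL.c (I.pos (nat_lit 0) (nat_lit 0)) T1.l2
  (TrL.c (I.pos (nat_lit 0) (nat_lit 0)) (xa T1.l3 T1.l3)
  (TrL.c (I.pos (nat_lit 0) (nat_lit 0)) (xa T1.l11 T1.l11)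
  (TrL.c (I.pos (nat_lit 0) (nat_lit 0)) (xa T1.l5 T1.l5)
  TrL.n)))))) (by decide +kernel)
theorem bx0_9 : BoxOK sI cl4 cl5 cl5 t1 t1 b0_9 :=
  box_mk (TrL.c (I.pos (nat_lit 0) (nat_lit 0)) T1.l12
  (TrL.c (I.pos (nat_lit 0) (nat_lit 0)) T1.l2
  TrL.n)) (by decide +kernel)
theorem bx0_10 : BoxOK sI cl4 cl5 cl5 t1 t1 b0_10 :=
  box_mk (TrL.c (I.pos (nat_lit 0) (nat_lit 0)) (xb (xa (xb T1.l14 T1.l14) (xb (xa T1.l14 T1.l14) (xa T1.l14 T1.l14))) (xa (xb (xa T1.l14 T1.l14) (xa (xb T1.l14 T1.l14) (xb T1.l14 T1.l14))) (xb (xa T1.l14 (xb T1.l14 T1.l14)) (xa (xs T1.l14 T1.l14) (xs T1.l14 T1.l14)))))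
  (TrL.c (I.pos (nat_lit 0) (nat_lit 0)) (xb T1.l1 (xa T1.l1 T1.l1))
  (TrL.c (I.pos (nat_lit 0) (nat_lit 0)) T1.l2
  (TrL.c (I.pos (nat_lit 0) (nat_lit 0)) (xb T1.l3 T1.l3)
  (TrL.c (I.pos (nat_lit 0) (nat_lit 0)) T1.l15
  (TrL.c (I.pos (nat_lit 0) (nat_lit 0)) (xb T1.l5 (xa T1.l5 T1.l5))
  TrL.n)))))) (by decide +kernel)
theorem bx0_11 : BoxOK sI cl4 cl5 cl5 t1 t1 b0_11 :=
  box_mk (TrL.c (I.pos (nat_lit 0) (nat_lit 0)) (xb (xa T1.l16 T1.l16) (xa T1.l16 T1.l6))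
  (TrL.c (I.pos (nat_lit 0) (nat_lit 0)) T1.l12
  (TrL.c (I.pos (nat_lit 0) (nat_lit 0)) T1.l2
  (TrL.c (I.pos (nat_lit 0) (nat_lit 0)) T1.l3
  (TrL.c (I.pos (nat_lit 0) (nat_lit 0)) T1.l17
  (TrL.c (I.pos (nat_lit 0) (nat_lit 0)) T1.l5
  TrL.n)))))) (by decide +kernel)
theorem bx0_12 : BoxOK sI cl4 cl5 cl5 t1 t1 b0_12 :=
  box_mk (TrL.c (I.pos (nat_lit 0) (nat_lit 0)) (xb (xa T1.l14 T1.l0) T1.l14)
  (TrL.c (I.pos (nat_lit 0) (nat_lit 0)) T1.l1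
  (TrL.c (I.pos (nat_lit 0) (nat_lit 0)) T1.l2
  (TrL.c (I.pos (nat_lit 0) (nat_lit 0)) T1.l3
  (TrL.c (I.pos (nat_lit 0) (nat_lit 0)) T1.l15
  (TrL.c (I.pos (nat_lit 0) (nat_lit 0)) T1.l5
  TrL.n)))))) (by decide +kernel)
theorem bx0_13 : BoxOK sI cl4 cl5 cl5 t1 t1 b0_13 :=
  box_mk (TrL.c (I.pos (nat_lit 0) (nat_lit 0)) T1.l10
  (TrL.c (I.pos (nat_lit 0) (nat_lit 0)) T1.l1
  (TrL.c (I.pos (nat_lit 0) (nat_lit 0)) T1.l2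
  (TrL.c (I.pos (nat_lit 0) (nat_lit 0)) T1.l3
  (TrL.c (I.pos (nat_lit 0) (nat_lit 0)) T1.l11
  (TrL.c (I.pos (nat_lit 0) (nat_lit 0)) T1.l5
  TrL.n)))))) (by decide +kernel)
theorem bx0_14 : BoxOK sI cl4 cl5 cl5 t1 t1 b0_14 :=
  box_mk (TrL.c (I.pos (nat_lit 0) (nat_lit 0)) T1.l12
  (TrL.c (I.pos (nat_lit 0) (nat_lit 0)) T1.l13
  TrL.n)) (by decide +kernel)
theorem bx0_15 : BoxOK sI cl4 cl5 cl5 t1 t1 b0_15 :=
  box_mk (TrL.c (I.pos (nat_lit 0) (nat_lit 0)) (xa (xb T1.l14 (xa T1.l14 T1.l14)) (xb (xa T1.l14 T1.l14) (xa T1.l14 T1.l14)))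
  (TrL.c (I.pos (nat_lit 0) (nat_lit 0)) T1.l1
  (TrL.c (I.pos (nat_lit 0) (nat_lit 0)) T1.l2
  (TrL.c (I.pos (nat_lit 0) (nat_lit 0)) (xa T1.l3 T1.l3)
  (TrL.c (I.pos (nat_lit 0) (nat_lit 0)) T1.l15
  (TrL.c (I.pos (nat_lit 0) (nat_lit 0)) T1.l5
  TrL.n)))))) (by decide +kernel)
theorem bx0_16 : BoxOK sI cl4 cl5 cl5 t1 t1 b0_16 :=
  box_mk (TrL.c (I.pos (nat_lit 0) (nat_lit 0)) T1.l14
  (TrL.c (I.pos (nat_lit 0) (nat_lit 0)) T1.l1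
  (TrL.c (I.pos (nat_lit 0) (nat_lit 0)) T1.l2
  (TrL.c (I.pos (nat_lit 0) (nat_lit 0)) T1.l3
  (TrL.c (I.pos (nat_lit 0) (nat_lit 0)) T1.l15
  (TrL.c (I.pos (nat_lit 0) (nat_lit 0)) T1.l5
  TrL.n)))))) (by decide +kernel)
theorem bx0_17 : BoxOK sI cl4 cl5 cl5 t1 t1 b0_17 :=
  box_mk (TrL.c (I.pos (nat_lit 0) (nat_lit 0)) T1.l14
  (TrL.c (I.pos (nat_lit 0) (nat_lit 0)) T1.l1
  (TrL.c (I.pos (nat_lit 0) (nat_lit 0)) T1.l2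
  (TrL.c (I.pos (nat_lit 0) (nat_lit 0)) T1.l3
  (TrL.c (I.pos (nat_lit 0) (nat_lit 0)) T1.l15
  (TrL.c (I.pos (nat_lit 0) (nat_lit 0)) T1.l5
  TrL.n)))))) (by decide +kernel)
theorem bx0_18 : BoxOK sI cl4 cl5 cl5 t1 t1 b0_18 :=
  box_mk (TrL.c (I.pos (nat_lit 0) (nat_lit 0)) (xa T1.l14 T1.l0)
  (TrL.c (I.pos (nat_lit 0) (nat_lit 0)) T1.l1
  (TrL.c (I.pos (nat_lit 0) (nat_lit 0)) T1.l2
  (TrL.c (I.pos (nat_lit 0) (nat_lit 0)) T1.l3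
  (TrL.c (I.pos (nat_lit 0) (nat_lit 0)) T1.l15
  (TrL.c (I.pos (nat_lit 0) (nat_lit 0)) T1.l5
  TrL.n)))))) (by decide +kernel)
theorem bx0_19 : BoxOK sI cl4 cl5 cl5 t1 t1 b0_19 :=
  box_mk (TrL.c (I.pos (nat_lit 0) (nat_lit 0)) T1.l14
  (TrL.c (I.pos (nat_lit 0) (nat_lit 0)) T1.l1
  (TrL.c (I.pos (nat_lit 0) (nat_lit 0)) T1.l2
  (TrL.c (I.pos (nat_lit 0) (nat_lit 0)) T1.l3
  (TrL.c (I.pos (nat_lit 0) (nat_lit 0)) T1.l15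
  (TrL.c (I.pos (nat_lit 0) (nat_lit 0)) T1.l5
  TrL.n)))))) (by decide +kernel)
theorem bx0_20 : BoxOK sI cl4 cl5 cl5 t1 t1 b0_20 :=
  box_mk (TrL.c (I.pos (nat_lit 0) (nat_lit 0)) T1.l14
  (TrL.c (I.pos (nat_lit 0) (nat_lit 0)) T1.l1
  (TrL.c (I.pos (nat_lit 0) (nat_lit 0)) T1.l2
  (TrL.c (I.pos (nat_lit 0) (nat_lit 0)) T1.l3
  (TrL.c (I.pos (nat_lit 0) (nat_lit 0)) T1.l15
  (TrL.c (I.pos (nat_lit 0) (nat_lit 0)) T1.l5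
  TrL.n)))))) (by decide +kernel)
theorem sv0 : StarV sI cl4 cl5 cl5 t1 t1 t0 :=
  (bt_n (bt_n (bt_n (bt_n (bt_b bx0_0) (bt_b bx0_1)) (bt_n (bt_b bx0_2) (bt_n (bt_b bx0_3) (bt_b bx0_4)))) (bt_n (bt_n (bt_b bx0_5) (bt_b bx0_6)) (bt_n (bt_b bx0_7) (bt_n (bt_b bx0_8) (bt_b bx0_9))))) (bt_n (bt_n (bt_n (bt_b bx0_10) (bt_b bx0_11)) (bt_n (bt_b bx0_12) (bt_n (bt_b bx0_13) (bt_b bx0_14)))) (bt_n (bt_n (bt_b bx0_15) (bt_n (bt_b bx0_16) (bt_b bx0_17))) (bt_n (bt_b bx0_18) (bt_n (bt_b bx0_19) (bt_b bx0_20))))))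
def S0 : StarD := StarD.mk cl4 cl5 cl5 1 1 t0
theorem bx1_0 : BoxOK sI cl5 cl4 cl5 t0 t2 b1_0 :=
  box_mk (TrL.c (I.pos (nat_lit 0) (nat_lit 0)) (xa (xb (xb (xa T0.l0 T0.l0) (xa (xb T0.l0 T0.l0) T0.l0)) (xb (xa (xb T0.l0 (xa T0.l0 T0.l0)) (xb T0.l0 T0.l0)) (xa (xb (xa T0.l0 T0.l0) (xs T0.l0 (xa T0.l0 T0.l0))) (xb (xa T0.l0 T0.l0) (xs T0.l0 (xa T0.l0 T0.l0)))))) (xb (xa (xb T0.l0 T0.l0) (xb T0.l0 T0.l0)) (xb (xa (xb T0.l0 T0.l0) (xb T0.l0 T0.l0)) (xa (xs (xb T0.l0 T0.l0) (xb T0.l0 (xa T0.l0 T0.l0))) (xs (xa T0.l0 T0.l0) (xb (xa T0.l0 T0.l0) (xa T0.l0 T0.l0)))))))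
  (TrL.c (I.pos (nat_lit 0) (nat_lit 0)) (xa (xb T2.l1 (xb T2.l1 T2.l1)) (xb T2.l1 (xb T2.l1 T2.l1)))
  (TrL.c (I.pos (nat_lit 0) (nat_lit 0)) T0.l1
  (TrL.c (I.pos (nat_lit 0) (nat_lit 0)) T2.l2
  (TrL.c (I.pos (nat_lit 0) (nat_lit 0)) (xb (xa T2.l3 T2.l3) (xa T2.l3 (xb T2.l3 T2.l3)))
  (TrL.c (I.pos (nat_lit 0) (nat_lit 0)) (xb T0.l2 T0.l2)
  (TrL.c (I.pos (nat_lit 0) (nat_lit 0)) T2.l4
  (TrL.c (I.pos (nat_lit 0) (nat_lit 0)) T0.l3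
  TrL.n)))))))) (by decide +kernel)
theorem bx1_1 : BoxOK sI cl5 cl4 cl5 t0 t2 b1_1 :=
  box_mk (TrL.c (I.pos (nat_lit 0) (nat_lit 0)) (xa (xb (xb (xa (xa T0.l4 T0.l4) T0.l4) (xa T0.l4 T0.l4)) (xa (xb T0.l4 T0.l4) (xb T0.l4 T0.l4))) (xb (xa T0.l4 (xb T0.l4 T0.l4)) (xa (xb T0.l4 T0.l4) (xb T0.l4 T0.l4))))
  (TrL.c (I.pos (nat_lit 0) (nat_lit 0)) (xa T2.l1 T2.l1)
  (TrL.c (I.pos (nat_lit 0) (nat_lit 0)) T0.l1
  (TrL.c (I.pos (nat_lit 0) (nat_lit 0)) T2.l2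
  (TrL.c (I.pos (nat_lit 0) (nat_lit 0)) (xa (xb T2.l5 T2.l5) (xb T2.l5 T2.l5))
  (TrL.c (I.pos (nat_lit 0) (nat_lit 0)) T0.l2
  (TrL.c (I.pos (nat_lit 0) (nat_lit 0)) T2.l4
  (TrL.c (I.pos (nat_lit 0) (nat_lit 0)) T0.l3
  TrL.n)))))))) (by decide +kernel)
theorem bx1_2 : BoxOK sI cl5 cl4 cl5 t0 t2 b1_2 :=
  box_mk (TrL.c (I.pos (nat_lit 0) (nat_lit 0)) (xb T2.l6 T2.l6)
  (TrL.c (I.pos (nat_lit 0) (nat_lit 0)) T0.l5
  (TrL.c (I.pos (nat_lit 0) (nat_lit 0)) T2.l7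
  TrL.n))) (by decide +kernel)
theorem bx1_3 : BoxOK sI cl5 cl4 cl5 t0 t2 b1_3 :=
  box_mk (TrL.c (I.pos (nat_lit 0) (nat_lit 0)) (xb (xa (xb (xa T0.l6 T0.l6) (xa T0.l6 T0.l6)) (xb (xa T0.l6 T0.l6) (xa T0.l6 T0.l6))) (xa (xb (xa (xb T0.l6 T0.l6) T0.l6) (xa (xb T0.l6 (xa T0.l6 T0.l6)) (xb T0.l6 (xa T0.l6 T0.l6)))) (xb (xa (xb T0.l6 T0.l6) (xb T0.l6 T0.l6)) (xa (xb (xa T0.l6 T0.l6) (xa T0.l6 T0.l6)) (xb (xa T0.l6 T0.l6) (xa T0.l6 (xs T0.l6 T0.l6)))))))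
  (TrL.c (I.pos (nat_lit 0) (nat_lit 0)) (xb (xa T2.l1 T2.l1) (xa T2.l1 T2.l1))
  (TrL.c (I.pos (nat_lit 0) (nat_lit 0)) T0.l1
  (TrL.c (I.pos (nat_lit 0) (nat_lit 0)) T2.l2
  (TrL.c (I.pos (nat_lit 0) (nat_lit 0)) (xb (xa T2.l19 T2.l19) (xa T2.l19 T2.l19))
  (TrL.c (I.pos (nat_lit 0) (nat_lit 0)) (xb T0.l2 T0.l2)
  (TrL.c (I.pos (nat_lit 0) (nat_lit 0)) T2.l4
  (TrL.c (I.pos (nat_lit 0) (nat_lit 0)) T0.l3
  TrL.n)))))))) (by decide +kernel)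
theorem bx1_4 : BoxOK sI cl5 cl4 cl5 t0 t2 b1_4 :=
  box_mk (TrL.c (I.pos (nat_lit 0) (nat_lit 0)) (xb (xa (xb T0.l7 T0.l7) T0.l4) (xa (xb T0.l4 T0.l4) T0.l4))
  (TrL.c (I.pos (nat_lit 0) (nat_lit 0)) T2.l6
  (TrL.c (I.pos (nat_lit 0) (nat_lit 0)) T0.l5
  (TrL.c (I.pos (nat_lit 0) (nat_lit 0)) T2.l7
  (TrL.c (I.pos (nat_lit 0) (nat_lit 0)) T2.l8
  (TrL.c (I.pos (nat_lit 0) (nat_lit 0)) T0.l2
  (TrL.c (I.pos (nat_lit 0) (nat_lit 0)) T2.l4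
  (TrL.c (I.pos (nat_lit 0) (nat_lit 0)) T0.l3
  TrL.n)))))))) (by decide +kernel)
theorem bx1_5 : BoxOK sI cl5 cl4 cl5 t0 t2 b1_5 :=
  box_mk (TrL.c (I.pos (nat_lit 0) (nat_lit 0)) (xa T2.l1 T2.l1)
  (TrL.c (I.pos (nat_lit 0) (nat_lit 0)) T0.l1
  (TrL.c (I.pos (nat_lit 0) (nat_lit 0)) T2.l2
  TrL.n))) (by decide +kernel)
theorem bx1_6 : BoxOK sI cl5 cl4 cl5 t0 t2 b1_6 :=
  box_mk (TrL.c (I.pos (nat_lit 0) (nat_lit 0)) (xa (xb T0.l0 T0.l0) (xb T0.l10 (xa T0.l0 (xb T0.l0 T0.l0))))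
  (TrL.c (I.pos (nat_lit 0) (nat_lit 0)) (xb T2.l1 T2.l1)
  (TrL.c (I.pos (nat_lit 0) (nat_lit 0)) T0.l1
  (TrL.c (I.pos (nat_lit 0) (nat_lit 0)) T2.l11
  (TrL.c (I.pos (nat_lit 0) (nat_lit 0)) (xb (xa T2.l3 T2.l3) (xa T2.l3 T2.l3))
  (TrL.c (I.pos (nat_lit 0) (nat_lit 0)) T0.l2
  (TrL.c (I.pos (nat_lit 0) (nat_lit 0)) T2.l9
  (TrL.c (I.pos (nat_lit 0) (nat_lit 0)) T0.l3
  TrL.n)))))))) (by decide +kernel)
theorem bx1_7 : BoxOK sI cl5 cl4 cl5 t0 t2 b1_7 :=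
  box_mk (TrL.c (I.pos (nat_lit 0) (nat_lit 0)) T0.l7
  (TrL.c (I.pos (nat_lit 0) (nat_lit 0)) T2.l6
  (TrL.c (I.pos (nat_lit 0) (nat_lit 0)) T0.l1
  (TrL.c (I.pos (nat_lit 0) (nat_lit 0)) T2.l7
  (TrL.c (I.pos (nat_lit 0) (nat_lit 0)) T2.l8
  (TrL.c (I.pos (nat_lit 0) (nat_lit 0)) T0.l2
  (TrL.c (I.pos (nat_lit 0) (nat_lit 0)) T2.l4
  (TrL.c (I.pos (nat_lit 0) (nat_lit 0)) T0.l3
  TrL.n)))))))) (by decide +kernel)
theorem bx1_8 : BoxOK sI cl5 cl4 cl5 t0 t2 b1_8 :=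
  box_mk (TrL.c (I.pos (nat_lit 0) (nat_lit 0)) (xa T0.l0 (xb T0.l0 T0.l0))
  (TrL.c (I.pos (nat_lit 0) (nat_lit 0)) T2.l1
  (TrL.c (I.pos (nat_lit 0) (nat_lit 0)) T0.l1
  (TrL.c (I.pos (nat_lit 0) (nat_lit 0)) T2.l2
  (TrL.c (I.pos (nat_lit 0) (nat_lit 0)) (xa T2.l3 T2.l3)
  (TrL.c (I.pos (nat_lit 0) (nat_lit 0)) T0.l2
  (TrL.c (I.pos (nat_lit 0) (nat_lit 0)) T2.l4
  (TrL.c (I.pos (nat_lit 0) (nat_lit 0)) T0.l3
  TrL.n)))))))) (by decide +kernel)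
theorem bx1_9 : BoxOK sI cl5 cl4 cl5 t0 t2 b1_9 :=
  box_mk (TrL.c (I.pos (nat_lit 0) (nat_lit 0)) T0.l7
  (TrL.c (I.pos (nat_lit 0) (nat_lit 0)) T2.l6
  (TrL.c (I.pos (nat_lit 0) (nat_lit 0)) T0.l1
  (TrL.c (I.pos (nat_lit 0) (nat_lit 0)) T2.l2
  (TrL.c (I.pos (nat_lit 0) (nat_lit 0)) T2.l8
  (TrL.c (I.pos (nat_lit 0) (nat_lit 0)) T0.l2
  (TrL.c (I.pos (nat_lit 0) (nat_lit 0)) T2.l4
  (TrL.c (I.pos (nat_lit 0) (nat_lit 0)) T0.l3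
  TrL.n)))))))) (by decide +kernel)
theorem bx1_10 : BoxOK sI cl5 cl4 cl5 t0 t2 b1_10 :=
  box_mk (TrL.c (I.pos (nat_lit 0) (nat_lit 0)) (xa T0.l0 T0.l0)
  (TrL.c (I.pos (nat_lit 0) (nat_lit 0)) T2.l1
  (TrL.c (I.pos (nat_lit 0) (nat_lit 0)) T0.l1
  (TrL.c (I.pos (nat_lit 0) (nat_lit 0)) T2.l2
  (TrL.c (I.pos (nat_lit 0) (nat_lit 0)) T2.l3
  (TrL.c (I.pos (nat_lit 0) (nat_lit 0)) T0.l2
  (TrL.c (I.pos (nat_lit 0) (nat_lit 0)) T2.l4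
  (TrL.c (I.pos (nat_lit 0) (nat_lit 0)) T0.l3
  TrL.n)))))))) (by decide +kernel)
theorem bx1_11 : BoxOK sI cl5 cl4 cl5 t0 t2 b1_11 :=
  box_mk (TrL.c (I.pos (nat_lit 0) (nat_lit 0)) (xb T0.l7 T0.l7)
  (TrL.c (I.pos (nat_lit 0) (nat_lit 0)) T2.l6
  (TrL.c (I.pos (nat_lit 0) (nat_lit 0)) T0.l1
  (TrL.c (I.pos (nat_lit 0) (nat_lit 0)) T2.l2
  (TrL.c (I.pos (nat_lit 0) (nat_lit 0)) T2.l8
  (TrL.c (I.pos (nat_lit 0) (nat_lit 0)) T0.l2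
  (TrL.c (I.pos (nat_lit 0) (nat_lit 0)) T2.l4
  (TrL.c (I.pos (nat_lit 0) (nat_lit 0)) T0.l3
  TrL.n)))))))) (by decide +kernel)
theorem bx1_12 : BoxOK sI cl5 cl4 cl5 t0 t2 b1_12 :=
  box_mk (TrL.c (I.pos (nat_lit 0) (nat_lit 0)) T0.l4
  (TrL.c (I.pos (nat_lit 0) (nat_lit 0)) T2.l1
  (TrL.c (I.pos (nat_lit 0) (nat_lit 0)) T0.l1
  (TrL.c (I.pos (nat_lit 0) (nat_lit 0)) T2.l2
  (TrL.c (I.pos (nat_lit 0) (nat_lit 0)) T2.l5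
  (TrL.c (I.pos (nat_lit 0) (nat_lit 0)) T0.l2
  (TrL.c (I.pos (nat_lit 0) (nat_lit 0)) T2.l4
  (TrL.c (I.pos (nat_lit 0) (nat_lit 0)) T0.l3
  TrL.n)))))))) (by decide +kernel)
theorem bx1_13 : BoxOK sI cl5 cl4 cl5 t0 t2 b1_13 :=
  box_mk (TrL.c (I.pos (nat_lit 0) (nat_lit 0)) T2.l6
  (TrL.c (I.pos (nat_lit 0) (nat_lit 0)) T0.l5
  (TrL.c (I.pos (nat_lit 0) (nat_lit 0)) T2.l7
  TrL.n))) (by decide +kernel)
theorem bx1_14 : BoxOK sI cl5 cl4 cl5 t0 t2 b1_14 :=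
  box_mk (TrL.c (I.pos (nat_lit 0) (nat_lit 0)) (xb (xa T0.l0 T0.l0) (xa (xb T0.l0 (xa T0.l0 T0.l0)) (xb T0.l0 (xa T0.l0 T0.l0))))
  (TrL.c (I.pos (nat_lit 0) (nat_lit 0)) (xb T2.l1 T2.l1)
  (TrL.c (I.pos (nat_lit 0) (nat_lit 0)) T0.l1
  (TrL.c (I.pos (nat_lit 0) (nat_lit 0)) T2.l2
  (TrL.c (I.pos (nat_lit 0) (nat_lit 0)) (xb T2.l3 T2.l3)
  (TrL.c (I.pos (nat_lit 0) (nat_lit 0)) T0.l2
  (TrL.c (I.pos (nat_lit 0) (nat_lit 0)) T2.l4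
  (TrL.c (I.pos (nat_lit 0) (nat_lit 0)) T0.l3
  TrL.n)))))))) (by decide +kernel)
theorem bx1_15 : BoxOK sI cl5 cl4 cl5 t0 t2 b1_15 :=
  box_mk (TrL.c (I.pos (nat_lit 0) (nat_lit 0)) (xb T0.l7 (xa T0.l7 T0.l7))
  (TrL.c (I.pos (nat_lit 0) (nat_lit 0)) T2.l1
  (TrL.c (I.pos (nat_lit 0) (nat_lit 0)) T0.l1
  (TrL.c (I.pos (nat_lit 0) (nat_lit 0)) T2.l2
  (TrL.c (I.pos (nat_lit 0) (nat_lit 0)) T2.l8
  (TrL.c (I.pos (nat_lit 0) (nat_lit 0)) T0.l2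
  (TrL.c (I.pos (nat_lit 0) (nat_lit 0)) T2.l4
  (TrL.c (I.pos (nat_lit 0) (nat_lit 0)) T0.l3
  TrL.n)))))))) (by decide +kernel)
theorem bx1_16 : BoxOK sI cl5 cl4 cl5 t0 t2 b1_16 :=
  box_mk (TrL.c (I.pos (nat_lit 0) (nat_lit 0)) (xa (xb T0.l0 T0.l0) T0.l10)
  (TrL.c (I.pos (nat_lit 0) (nat_lit 0)) T2.l1
  (TrL.c (I.pos (nat_lit 0) (nat_lit 0)) T0.l1
  (TrL.c (I.pos (nat_lit 0) (nat_lit 0)) T2.l2
  (TrL.c (I.pos (nat_lit 0) (nat_lit 0)) (xb T2.l0 (xa T2.l3 T2.l3))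
  (TrL.c (I.pos (nat_lit 0) (nat_lit 0)) T0.l2
  (TrL.c (I.pos (nat_lit 0) (nat_lit 0)) T2.l4
  (TrL.c (I.pos (nat_lit 0) (nat_lit 0)) T0.l3
  TrL.n)))))))) (by decide +kernel)
theorem bx1_17 : BoxOK sI cl5 cl4 cl5 t0 t2 b1_17 :=
  box_mk (TrL.c (I.pos (nat_lit 0) (nat_lit 0)) T0.l7
  (TrL.c (I.pos (nat_lit 0) (nat_lit 0)) T2.l6
  (TrL.c (I.pos (nat_lit 0) (nat_lit 0)) T0.l1
  (TrL.c (I.pos (nat_lit 0) (nat_lit 0)) T2.l7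
  (TrL.c (I.pos (nat_lit 0) (nat_lit 0)) T2.l8
  (TrL.c (I.pos (nat_lit 0) (nat_lit 0)) T0.l2
  (TrL.c (I.pos (nat_lit 0) (nat_lit 0)) T2.l4
  (TrL.c (I.pos (nat_lit 0) (nat_lit 0)) T0.l3
  TrL.n)))))))) (by decide +kernel)
theorem bx1_18 : BoxOK sI cl5 cl4 cl5 t0 t2 b1_18 :=
  box_mk (TrL.c (I.pos (nat_lit 0) (nat_lit 0)) T0.l7
  (TrL.c (I.pos (nat_lit 0) (nat_lit 0)) T2.l6
  (TrL.c (I.pos (nat_lit 0) (nat_lit 0)) T0.l1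
  (TrL.c (I.pos (nat_lit 0) (nat_lit 0)) T2.l2
  (TrL.c (I.pos (nat_lit 0) (nat_lit 0)) T2.l8
  (TrL.c (I.pos (nat_lit 0) (nat_lit 0)) T0.l2
  (TrL.c (I.pos (nat_lit 0) (nat_lit 0)) T2.l4
  (TrL.c (I.pos (nat_lit 0) (nat_lit 0)) T0.l3
  TrL.n)))))))) (by decide +kernel)
theorem bx1_19 : BoxOK sI cl5 cl4 cl5 t0 t2 b1_19 :=
  box_mk (TrL.c (I.pos (nat_lit 0) (nat_lit 0)) T0.l0
  (TrL.c (I.pos (nat_lit 0) (nat_lit 0)) T2.l1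
  (TrL.c (I.pos (nat_lit 0) (nat_lit 0)) T0.l1
  (TrL.c (I.pos (nat_lit 0) (nat_lit 0)) T2.l2
  (TrL.c (I.pos (nat_lit 0) (nat_lit 0)) T2.l3
  (TrL.c (I.pos (nat_lit 0) (nat_lit 0)) T0.l2
  (TrL.c (I.pos (nat_lit 0) (nat_lit 0)) T2.l4
  (TrL.c (I.pos (nat_lit 0) (nat_lit 0)) T0.l3
  TrL.n)))))))) (by decide +kernel)
theorem sv1 : StarV sI cl5 cl4 cl5 t0 t2 t1 :=
  (bt_n (bt_n (bt_n (bt_n (bt_b bx1_0) (bt_b bx1_1)) (bt_n (bt_b bx1_2) (bt_n (bt_b bx1_3) (bt_b bx1_4)))) (bt_n (bt_n (bt_b bx1_5) (bt_b bx1_6)) (bt_n (bt_b bx1_7) (bt_n (bt_b bx1_8) (bt_b bx1_9))))) (bt_n (bt_n (bt_n (bt_b bx1_10) (bt_b bx1_11)) (bt_n (bt_b bx1_12) (bt_n (bt_b bx1_13) (bt_b bx1_14)))) (bt_n (bt_n (bt_b bx1_15) (bt_b bx1_16)) (bt_n (bt_b bx1_17) (bt_n (bt_b bx1_18) (bt_b bx1_19))))))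
def S1 : StarD := StarD.mk cl5 cl4 cl5 0 2 t1
theorem bx2_0 : BoxOK sI cl5 cl5 cl4 t2 t0 b2_0 :=
  box_mk (TrL.c (I.pos (nat_lit 0) (nat_lit 0)) (xa (xb (xa (xb T2.l14 T2.l14) (xb T2.l0 T2.l0)) (xa (xb (xa T2.l14 T2.l0) (xs (xa T2.l0 T2.l0) (xa T2.l0 T2.l0))) (xb (xa T2.l0 T2.l0) (xa (xs T2.l0 T2.l0) (xs T2.l0 T2.l0))))) (xb (xa (xb T2.l0 T2.l0) T2.l0) (xa (xb T2.l0 (xs (xa T2.l0 T2.l0) (xa T2.l0 T2.l0))) (xb T2.l0 (xs (xa T2.l0 T2.l0) (xa (xb T2.l0 T2.l0) (xb T2.l0 T2.l0)))))))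
  (TrL.c (I.pos (nat_lit 0) (nat_lit 0)) (xa (xb T0.l8 T0.l8) (xb T0.l8 (xa T0.l8 T0.l8)))
  (TrL.c (I.pos (nat_lit 0) (nat_lit 0)) T2.l9
  (TrL.c (I.pos (nat_lit 0) (nat_lit 0)) T0.l9
  (TrL.c (I.pos (nat_lit 0) (nat_lit 0)) (xa T0.l10 (xb T0.l10 T0.l10))
  (TrL.c (I.pos (nat_lit 0) (nat_lit 0)) (xa T2.l10 T2.l10)
  (TrL.c (I.pos (nat_lit 0) (nat_lit 0)) T0.l11
  (TrL.c (I.pos (nat_lit 0) (nat_lit 0)) T2.l11
  TrL.n)))))))) (by decide +kernel)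
theorem bx2_1 : BoxOK sI cl5 cl5 cl4 t2 t0 b2_1 :=
  box_mk (TrL.c (I.pos (nat_lit 0) (nat_lit 0)) (xb (xa (xb T2.l12 T2.l12) (xb T2.l12 T2.l12)) (xa (xb T2.l12 T2.l12) (xa T2.l12 T2.l0)))
  (TrL.c (I.pos (nat_lit 0) (nat_lit 0)) (xb T0.l8 T0.l8)
  (TrL.c (I.pos (nat_lit 0) (nat_lit 0)) T2.l9
  (TrL.c (I.pos (nat_lit 0) (nat_lit 0)) T0.l9
  (TrL.c (I.pos (nat_lit 0) (nat_lit 0)) (xa T0.l12 T0.l12)
  (TrL.c (I.pos (nat_lit 0) (nat_lit 0)) T2.l10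
  (TrL.c (I.pos (nat_lit 0) (nat_lit 0)) T0.l11
  (TrL.c (I.pos (nat_lit 0) (nat_lit 0)) T2.l11
  TrL.n)))))))) (by decide +kernel)
theorem bx2_2 : BoxOK sI cl5 cl5 cl4 t2 t0 b2_2 :=
  box_mk (TrL.c (I.pos (nat_lit 0) (nat_lit 0)) T0.l8
  (TrL.c (I.pos (nat_lit 0) (nat_lit 0)) T2.l9
  (TrL.c (I.pos (nat_lit 0) (nat_lit 0)) T0.l9
  TrL.n))) (by decide +kernel)
theorem bx2_3 : BoxOK sI cl5 cl5 cl4 t2 t0 b2_3 :=
  box_mk (TrL.c (I.pos (nat_lit 0) (nat_lit 0)) (xb (xa (xb T2.l14 (xa T2.l14 T2.l14)) (xb (xa T2.l14 T2.l14) (xa T2.l14 T2.l14))) (xa (xb (xa T2.l14 T2.l14) (xa (xs T2.l14 T2.l14) (xs T2.l14 T2.l14))) (xb (xa T2.l14 (xs T2.l14 T2.l14)) (xa (xs T2.l14 T2.l14) (xs T2.l14 T2.l14)))))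
  (TrL.c (I.pos (nat_lit 0) (nat_lit 0)) (xb T0.l8 (xa T0.l8 T0.l8))
  (TrL.c (I.pos (nat_lit 0) (nat_lit 0)) T2.l9
  (TrL.c (I.pos (nat_lit 0) (nat_lit 0)) T0.l9
  (TrL.c (I.pos (nat_lit 0) (nat_lit 0)) (xb T0.l15 T0.l15)
  (TrL.c (I.pos (nat_lit 0) (nat_lit 0)) T2.l10
  (TrL.c (I.pos (nat_lit 0) (nat_lit 0)) T0.l11
  (TrL.c (I.pos (nat_lit 0) (nat_lit 0)) T2.l11
  TrL.n)))))))) (by decide +kernel)
theorem bx2_4 : BoxOK sI cl5 cl5 cl4 t2 t0 b2_4 :=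
  box_mk (TrL.c (I.pos (nat_lit 0) (nat_lit 0)) (xb T2.l15 T2.l15)
  (TrL.c (I.pos (nat_lit 0) (nat_lit 0)) T0.l8
  (TrL.c (I.pos (nat_lit 0) (nat_lit 0)) T2.l9
  (TrL.c (I.pos (nat_lit 0) (nat_lit 0)) T0.l9
  (TrL.c (I.pos (nat_lit 0) (nat_lit 0)) T0.l16
  (TrL.c (I.pos (nat_lit 0) (nat_lit 0)) T2.l10
  (TrL.c (I.pos (nat_lit 0) (nat_lit 0)) T0.l11
  (TrL.c (I.pos (nat_lit 0) (nat_lit 0)) T2.l11
  TrL.n)))))))) (by decide +kernel)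
theorem bx2_5 : BoxOK sI cl5 cl5 cl4 t2 t0 b2_5 :=
  box_mk (TrL.c (I.pos (nat_lit 0) (nat_lit 0)) (xa T2.l0 T2.l0)
  (TrL.c (I.pos (nat_lit 0) (nat_lit 0)) T0.l8
  (TrL.c (I.pos (nat_lit 0) (nat_lit 0)) T2.l9
  (TrL.c (I.pos (nat_lit 0) (nat_lit 0)) T0.l9
  (TrL.c (I.pos (nat_lit 0) (nat_lit 0)) T0.l15
  (TrL.c (I.pos (nat_lit 0) (nat_lit 0)) T2.l10
  (TrL.c (I.pos (nat_lit 0) (nat_lit 0)) T0.l11
  (TrL.c (I.pos (nat_lit 0) (nat_lit 0)) T2.l11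
  TrL.n)))))))) (by decide +kernel)
theorem bx2_6 : BoxOK sI cl5 cl5 cl4 t2 t0 b2_6 :=
  box_mk (TrL.c (I.pos (nat_lit 0) (nat_lit 0)) (xa T2.l12 T2.l0)
  (TrL.c (I.pos (nat_lit 0) (nat_lit 0)) T0.l8
  (TrL.c (I.pos (nat_lit 0) (nat_lit 0)) T2.l9
  (TrL.c (I.pos (nat_lit 0) (nat_lit 0)) T0.l9
  (TrL.c (I.pos (nat_lit 0) (nat_lit 0)) T0.l20
  (TrL.c (I.pos (nat_lit 0) (nat_lit 0)) T2.l10
  (TrL.c (I.pos (nat_lit 0) (nat_lit 0)) T0.l11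
  (TrL.c (I.pos (nat_lit 0) (nat_lit 0)) T2.l11
  TrL.n)))))))) (by decide +kernel)
theorem bx2_7 : BoxOK sI cl5 cl5 cl4 t2 t0 b2_7 :=
  box_mk (TrL.c (I.pos (nat_lit 0) (nat_lit 0)) T0.l8
  (TrL.c (I.pos (nat_lit 0) (nat_lit 0)) T2.l9
  (TrL.c (I.pos (nat_lit 0) (nat_lit 0)) T0.l9
  TrL.n))) (by decide +kernel)
theorem bx2_8 : BoxOK sI cl5 cl5 cl4 t2 t0 b2_8 :=
  box_mk (TrL.c (I.pos (nat_lit 0) (nat_lit 0)) T2.l0
  (TrL.c (I.pos (nat_lit 0) (nat_lit 0)) T0.l8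
  (TrL.c (I.pos (nat_lit 0) (nat_lit 0)) T2.l9
  (TrL.c (I.pos (nat_lit 0) (nat_lit 0)) T0.l9
  (TrL.c (I.pos (nat_lit 0) (nat_lit 0)) T0.l15
  (TrL.c (I.pos (nat_lit 0) (nat_lit 0)) T2.l10
  (TrL.c (I.pos (nat_lit 0) (nat_lit 0)) T0.l11
  (TrL.c (I.pos (nat_lit 0) (nat_lit 0)) T2.l11
  TrL.n)))))))) (by decide +kernel)
theorem bx2_9 : BoxOK sI cl5 cl5 cl4 t2 t0 b2_9 :=
  box_mk (TrL.c (I.pos (nat_lit 0) (nat_lit 0)) (xa (xb T2.l16 T2.l16) (xb T2.l16 (xa T2.l16 T2.l16)))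
  (TrL.c (I.pos (nat_lit 0) (nat_lit 0)) T0.l8
  (TrL.c (I.pos (nat_lit 0) (nat_lit 0)) T2.l9
  (TrL.c (I.pos (nat_lit 0) (nat_lit 0)) T0.l9
  (TrL.c (I.pos (nat_lit 0) (nat_lit 0)) T0.l17
  (TrL.c (I.pos (nat_lit 0) (nat_lit 0)) T2.l10
  (TrL.c (I.pos (nat_lit 0) (nat_lit 0)) T0.l11
  (TrL.c (I.pos (nat_lit 0) (nat_lit 0)) T2.l11
  TrL.n)))))))) (by decide +kernel)
theorem bx2_10 : BoxOK sI cl5 cl5 cl4 t2 t0 b2_10 :=
  box_mk (TrL.c (I.pos (nat_lit 0) (nat_lit 0)) (xb (xa T2.l17 T2.l12) (xa T2.l17 T2.l17))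
  (TrL.c (I.pos (nat_lit 0) (nat_lit 0)) T0.l8
  (TrL.c (I.pos (nat_lit 0) (nat_lit 0)) T2.l9
  (TrL.c (I.pos (nat_lit 0) (nat_lit 0)) T0.l9
  (TrL.c (I.pos (nat_lit 0) (nat_lit 0)) T0.l18
  (TrL.c (I.pos (nat_lit 0) (nat_lit 0)) T2.l10
  (TrL.c (I.pos (nat_lit 0) (nat_lit 0)) T0.l11
  (TrL.c (I.pos (nat_lit 0) (nat_lit 0)) T2.l11
  TrL.n)))))))) (by decide +kernel)
theorem bx2_11 : BoxOK sI cl5 cl5 cl4 t2 t0 b2_11 :=
  box_mk (TrL.c (I.pos (nat_lit 0) (nat_lit 0)) T0.l8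
  (TrL.c (I.pos (nat_lit 0) (nat_lit 0)) T2.l9
  (TrL.c (I.pos (nat_lit 0) (nat_lit 0)) T0.l9
  TrL.n))) (by decide +kernel)
theorem bx2_12 : BoxOK sI cl5 cl5 cl4 t2 t0 b2_12 :=
  box_mk (TrL.c (I.pos (nat_lit 0) (nat_lit 0)) (xa T2.l0 (xb T2.l0 (xa T2.l0 T2.l0)))
  (TrL.c (I.pos (nat_lit 0) (nat_lit 0)) T0.l8
  (TrL.c (I.pos (nat_lit 0) (nat_lit 0)) T2.l9
  (TrL.c (I.pos (nat_lit 0) (nat_lit 0)) T0.l9
  (TrL.c (I.pos (nat_lit 0) (nat_lit 0)) T0.l10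
  (TrL.c (I.pos (nat_lit 0) (nat_lit 0)) T2.l10
  (TrL.c (I.pos (nat_lit 0) (nat_lit 0)) T0.l11
  (TrL.c (I.pos (nat_lit 0) (nat_lit 0)) T2.l11
  TrL.n)))))))) (by decide +kernel)
theorem bx2_13 : BoxOK sI cl5 cl5 cl4 t2 t0 b2_13 :=
  box_mk (TrL.c (I.pos (nat_lit 0) (nat_lit 0)) T2.l16
  (TrL.c (I.pos (nat_lit 0) (nat_lit 0)) T0.l8
  (TrL.c (I.pos (nat_lit 0) (nat_lit 0)) T2.l9
  (TrL.c (I.pos (nat_lit 0) (nat_lit 0)) T0.l9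
  (TrL.c (I.pos (nat_lit 0) (nat_lit 0)) T0.l17
  (TrL.c (I.pos (nat_lit 0) (nat_lit 0)) T2.l10
  (TrL.c (I.pos (nat_lit 0) (nat_lit 0)) T0.l11
  (TrL.c (I.pos (nat_lit 0) (nat_lit 0)) T2.l11
  TrL.n)))))))) (by decide +kernel)
theorem bx2_14 : BoxOK sI cl5 cl5 cl4 t2 t0 b2_14 :=
  box_mk (TrL.c (I.pos (nat_lit 0) (nat_lit 0)) (xa (xb (xa (xb T2.l0 T2.l0) (xb T2.l0 T2.l0)) (xa (xb (xs T2.l0 T2.l0) (xs T2.l0 T2.l0)) (xb T2.l0 (xs T2.l0 T2.l0)))) (xb (xa (xb T2.l0 T2.l0) T2.l0) (xa (xb T2.l0 (xs T2.l0 T2.l0)) (xb (xs T2.l0 T2.l0) (xs T2.l0 T2.l0)))))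
  (TrL.c (I.pos (nat_lit 0) (nat_lit 0)) (xa T0.l8 (xb T0.l8 T0.l8))
  (TrL.c (I.pos (nat_lit 0) (nat_lit 0)) T2.l9
  (TrL.c (I.pos (nat_lit 0) (nat_lit 0)) T0.l9
  (TrL.c (I.pos (nat_lit 0) (nat_lit 0)) (xb T0.l10 T0.l10)
  (TrL.c (I.pos (nat_lit 0) (nat_lit 0)) T2.l10
  (TrL.c (I.pos (nat_lit 0) (nat_lit 0)) T0.l11
  (TrL.c (I.pos (nat_lit 0) (nat_lit 0)) T2.l11
  TrL.n)))))))) (by decide +kernel)
theorem bx2_15 : BoxOK sI cl5 cl5 cl4 t2 t0 b2_15 :=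
  box_mk (TrL.c (I.pos (nat_lit 0) (nat_lit 0)) (xa (xb (xa T2.l0 T2.l3) (xa T2.l0 T2.l3)) (xb T2.l3 T2.l3))
  (TrL.c (I.pos (nat_lit 0) (nat_lit 0)) (xb T0.l8 T0.l8)
  (TrL.c (I.pos (nat_lit 0) (nat_lit 0)) T2.l9
  (TrL.c (I.pos (nat_lit 0) (nat_lit 0)) T0.l3
  (TrL.c (I.pos (nat_lit 0) (nat_lit 0)) (xb T0.l10 (xa T0.l10 T0.l10))
  (TrL.c (I.pos (nat_lit 0) (nat_lit 0)) T2.l1
  (TrL.c (I.pos (nat_lit 0) (nat_lit 0)) T0.l1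
  (TrL.c (I.pos (nat_lit 0) (nat_lit 0)) T2.l11
  TrL.n)))))))) (by decide +kernel)
theorem bx2_16 : BoxOK sI cl5 cl5 cl4 t2 t0 b2_16 :=
  box_mk (TrL.c (I.pos (nat_lit 0) (nat_lit 0)) (xa (xb (xa T2.l0 T2.l0) (xa T2.l0 (xb T2.l0 T2.l0))) (xb (xa T2.l3 T2.l3) (xa (xs T2.l0 T2.l3) T2.l3)))
  (TrL.c (I.pos (nat_lit 0) (nat_lit 0)) (xa T0.l8 T0.l8)
  (TrL.c (I.pos (nat_lit 0) (nat_lit 0)) T2.l9
  (TrL.c (I.pos (nat_lit 0) (nat_lit 0)) T0.l3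
  (TrL.c (I.pos (nat_lit 0) (nat_lit 0)) (xa T0.l10 (xb T0.l10 T0.l10))
  (TrL.c (I.pos (nat_lit 0) (nat_lit 0)) T2.l1
  (TrL.c (I.pos (nat_lit 0) (nat_lit 0)) T0.l1
  (TrL.c (I.pos (nat_lit 0) (nat_lit 0)) T2.l11
  TrL.n)))))))) (by decide +kernel)
theorem bx2_17 : BoxOK sI cl5 cl5 cl4 t2 t0 b2_17 :=
  box_mk (TrL.c (I.pos (nat_lit 0) (nat_lit 0)) (xa T2.l0 (xb T2.l0 (xa T2.l0 T2.l0)))
  (TrL.c (I.pos (nat_lit 0) (nat_lit 0)) T0.l8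
  (TrL.c (I.pos (nat_lit 0) (nat_lit 0)) T2.l9
  (TrL.c (I.pos (nat_lit 0) (nat_lit 0)) T0.l9
  (TrL.c (I.pos (nat_lit 0) (nat_lit 0)) T0.l10
  (TrL.c (I.pos (nat_lit 0) (nat_lit 0)) T2.l10
  (TrL.c (I.pos (nat_lit 0) (nat_lit 0)) T0.l11
  (TrL.c (I.pos (nat_lit 0) (nat_lit 0)) T2.l11
  TrL.n)))))))) (by decide +kernel)
theorem bx2_18 : BoxOK sI cl5 cl5 cl4 t2 t0 b2_18 :=
  box_mk (TrL.c (I.pos (nat_lit 0) (nat_lit 0)) T2.l0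
  (TrL.c (I.pos (nat_lit 0) (nat_lit 0)) T0.l8
  (TrL.c (I.pos (nat_lit 0) (nat_lit 0)) T2.l9
  (TrL.c (I.pos (nat_lit 0) (nat_lit 0)) T0.l9
  (TrL.c (I.pos (nat_lit 0) (nat_lit 0)) T0.l10
  (TrL.c (I.pos (nat_lit 0) (nat_lit 0)) T2.l10
  (TrL.c (I.pos (nat_lit 0) (nat_lit 0)) T0.l11
  (TrL.c (I.pos (nat_lit 0) (nat_lit 0)) T2.l11
  TrL.n)))))))) (by decide +kernel)
theorem bx2_19 : BoxOK sI cl5 cl5 cl4 t2 t0 b2_19 :=
  box_mk (TrL.c (I.pos (nat_lit 0) (nat_lit 0)) (xb (xa (xb T2.l14 T2.l14) (xa T2.l14 T2.l14)) (xa (xa T2.l14 T2.l14) (xa (xb T2.l14 T2.l14) (xb T2.l14 T2.l14))))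
  (TrL.c (I.pos (nat_lit 0) (nat_lit 0)) (xb T0.l8 T0.l8)
  (TrL.c (I.pos (nat_lit 0) (nat_lit 0)) T2.l9
  (TrL.c (I.pos (nat_lit 0) (nat_lit 0)) T0.l9
  (TrL.c (I.pos (nat_lit 0) (nat_lit 0)) T0.l15
  (TrL.c (I.pos (nat_lit 0) (nat_lit 0)) T2.l10
  (TrL.c (I.pos (nat_lit 0) (nat_lit 0)) T0.l11
  (TrL.c (I.pos (nat_lit 0) (nat_lit 0)) T2.l11
  TrL.n)))))))) (by decide +kernel)
theorem sv2 : StarV sI cl5 cl5 cl4 t2 t0 t2 :=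
  (bt_n (bt_n (bt_n (bt_n (bt_b bx2_0) (bt_b bx2_1)) (bt_n (bt_b bx2_2) (bt_n (bt_b bx2_3) (bt_b bx2_4)))) (bt_n (bt_n (bt_b bx2_5) (bt_b bx2_6)) (bt_n (bt_b bx2_7) (bt_n (bt_b bx2_8) (bt_b bx2_9))))) (bt_n (bt_n (bt_n (bt_b bx2_10) (bt_b bx2_11)) (bt_n (bt_b bx2_12) (bt_n (bt_b bx2_13) (bt_b bx2_14)))) (bt_n (bt_n (bt_b bx2_15) (bt_b bx2_16)) (bt_n (bt_b bx2_17) (bt_n (bt_b bx2_18) (bt_b bx2_19))))))
def S2 : StarD := StarD.mk cl5 cl5 cl4 2 0 t2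
def G : List StarD := [S0, S1, S2]
theorem so0 : StarOK sI G S0 :=
  star_mk (by decide) (by decide) rfl rfl rfl rfl rfl rfl (rfl : _ = t1) (rfl : _ = t1)
  (st_mk (Pth.l (Pth.l (Pth.l (Pth.l Pth.z)))) (nat_lit 257131616) (nat_lit 259930648) (by decide +kernel))
  (st_mk (Pth.l (Pth.l (Pth.l (Pth.l Pth.z)))) (nat_lit 298578420) (nat_lit 302473604) (by decide +kernel))
  (st_mk (Pth.l (Pth.l (Pth.l (Pth.l Pth.z)))) (nat_lit 347914475) (nat_lit 353417144) (by decide +kernel)) sv0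
theorem so1 : StarOK sI G S1 :=
  star_mk (by decide) (by decide) rfl rfl rfl rfl rfl rfl (rfl : _ = t0) (rfl : _ = t2)
  (st_mk (Pth.l (Pth.l (Pth.l (Pth.l Pth.z)))) (nat_lit 387620012) (nat_lit 390847630) (by decide +kernel))
  (st_mk (Pth.l (Pth.l (Pth.l (Pth.l Pth.z)))) (nat_lit 427381285) (nat_lit 431363988) (by decide +kernel))
  (st_mk (Pth.l (Pth.l (Pth.l (Pth.l Pth.z)))) (nat_lit 473947260) (nat_lit 478934362) (by decide +kernel)) sv1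
theorem so2 : StarOK sI G S2 :=
  star_mk (by decide) (by decide) rfl rfl rfl rfl rfl rfl (rfl : _ = t2) (rfl : _ = t0)
  (st_mk (Pth.l (Pth.l (Pth.l (Pth.l Pth.z)))) (nat_lit 251072628) (nat_lit 252864931) (by decide +kernel))
  (st_mk (Pth.l (Pth.l (Pth.l (Pth.l Pth.z)))) (nat_lit 290257579) (nat_lit 292698627) (by decide +kernel))
  (st_mk (Pth.l (Pth.l (Pth.l (Pth.l Pth.z)))) (nat_lit 336363675) (nat_lit 339719673) (by decide +kernel)) sv2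
theorem ok : GroupOK (nat_lit 209321984) (nat_lit 268435456) G := grp_mk (allS_c so0 (allS_c so1 (allS_c so2 allS_n)))
theorem cov : GCov G cl4 cl5 cl5 := cov_mk
  ⟨0, by decide, rfl, rfl, rfl⟩ ⟨0, by decide, rfl, rfl, rfl⟩ ⟨1, by decide, rfl, rfl, rfl⟩ ⟨2, by decide, rfl, rfl, rfl⟩ ⟨1, by decide, rfl, rfl, rfl⟩ ⟨2, by decide, rfl, rfl, rfl⟩
end Q122_3

namespace Q123_0
def sI : I := I.pos (nat_lit 0) (nat_lit 91291648)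
def b0_0 : Bx := Bx.mk (St.mk (I.pos (nat_lit 154796032) (nat_lit 262209536)) (I.mix (nat_lit 39731200) (nat_lit 80265216)) (I.mix (nat_lit 157696000) (nat_lit 86409216)) (I.pos (nat_lit 236814336) (nat_lit 418643968)) (I.mix (nat_lit 110100480) (nat_lit 87506944)) (I.mix (nat_lit 116031488) (nat_lit 100220928)) (I.mix (nat_lit 200835072) (nat_lit 204324864)))
  false (nat_lit 0)
def b0_1 : Bx := Bx.mk (St.mk (I.pos (nat_lit 24805376) (nat_lit 67534848)) (I.mix (nat_lit 18808832) (nat_lit 55115776)) (I.neg (nat_lit 6717440) (nat_lit 42369024)) (I.pos (nat_lit 143884288) (nat_lit 163528704)) (I.mix (nat_lit 41943040) (nat_lit 57524224)) (I.mix (nat_lit 58867712) (nat_lit 38633472)) (I.mix (nat_lit 34291712) (nat_lit 23150592)))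
  false (nat_lit 0)
def b0_2 : Bx := Bx.mk (St.mk (I.pos (nat_lit 56541184) (nat_lit 99991552)) (I.mix (nat_lit 71073792) (nat_lit 18808832)) (I.neg (nat_lit 22691840) (nat_lit 76398592)) (I.pos (nat_lit 154206208) (nat_lit 186040320)) (I.mix (nat_lit 100794368) (nat_lit 41828352)) (I.mix (nat_lit 54673408) (nat_lit 95043584)) (I.mix (nat_lit 42008576) (nat_lit 63324160)))
  false (nat_lit 0)
def b0_3 : Bx := Bx.mk (St.mk (I.neg (nat_lit 24887296) (nat_lit 66273280)) (I.mix (nat_lit 55017472) (nat_lit 17137664)) (I.neg (nat_lit 6782976) (nat_lit 41500672)) (I.pos (nat_lit 143900672) (nat_lit 163069952)) (I.mix (nat_lit 57524224) (nat_lit 41992192)) (I.mix (nat_lit 38633472) (nat_lit 58867712)) (I.mix (nat_lit 34291712) (nat_lit 23150592)))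
  true (nat_lit 0)
def b0_4 : Bx := Bx.mk (St.mk (I.pos (nat_lit 47136768) (nat_lit 65404928)) (I.mix (nat_lit 16777216) (nat_lit 14450688)) (I.neg (nat_lit 24330240) (nat_lit 41402368)) (I.pos (nat_lit 150405120) (nat_lit 162906112)) (I.mix (nat_lit 33226752) (nat_lit 21200896)) (I.mix (nat_lit 25444352) (nat_lit 24084480)) (I.mix (nat_lit 14204928) (nat_lit 16056320)))
  false (nat_lit 0)
def b0_5 : Bx := Bx.mk (St.mk (I.pos (nat_lit 63668224) (nat_lit 155566080)) (I.neg (nat_lit 1622016) (nat_lit 81821696)) (I.neg (nat_lit 15155200) (nat_lit 89079808)) (I.pos (nat_lit 161923072) (nat_lit 238600192)) (I.mix (nat_lit 106725376) (nat_lit 71254016)) (I.mix (nat_lit 61980672) (nat_lit 107659264)) (I.mix (nat_lit 57655296) (nat_lit 96567296)))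
  false (nat_lit 0)
def b0_6 : Bx := Bx.mk (St.mk (I.mix (nat_lit 44302336) (nat_lit 12042240)) (I.mix (nat_lit 51642368) (nat_lit 13352960)) (I.neg (nat_lit 11272192) (nat_lit 17563648)) (I.pos (nat_lit 143212544) (nat_lit 154222592)) (I.mix (nat_lit 37273600) (nat_lit 46563328)) (I.mix (nat_lit 32309248) (nat_lit 55656448)) (I.mix (nat_lit 10518528) (nat_lit 7831552)))
  true (nat_lit 0)
def b0_7 : Bx := Bx.mk (St.mk (I.mix (nat_lit 12042240) (nat_lit 44302336)) (I.mix (nat_lit 15728640) (nat_lit 51773440)) (I.neg (nat_lit 11272192) (nat_lit 17563648)) (I.pos (nat_lit 143212544) (nat_lit 154222592)) (I.mix (nat_lit 46563328) (nat_lit 37273600)) (I.mix (nat_lit 55656448) (nat_lit 32309248)) (I.mix (nat_lit 10518528) (nat_lit 7831552)))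
  false (nat_lit 0)
def b0_8 : Bx := Bx.mk (St.mk (I.pos (nat_lit 119062528) (nat_lit 207175680)) (I.mix (nat_lit 41320448) (nat_lit 78495744)) (I.mix (nat_lit 56164352) (nat_lit 76906496)) (I.pos (nat_lit 200966144) (nat_lit 312279040)) (I.mix (nat_lit 132841472) (nat_lit 72531968)) (I.mix (nat_lit 169345024) (nat_lit 93405184)) (I.mix (nat_lit 167378944) (nat_lit 96583680)))
  false (nat_lit 0)
def t0 : BTr := (BTr.n (BTr.n (BTr.n (BTr.b b0_0) (BTr.b b0_1)) (BTr.n (BTr.b b0_2) (BTr.b b0_3))) (BTr.n (BTr.n (BTr.b b0_4) (BTr.b b0_5)) (BTr.n (BTr.b b0_6) (BTr.n (BTr.b b0_7) (BTr.b b0_8)))))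
namespace T0
def l0 : Tr := Tr.L (Pth.l (Pth.l (Pth.l Pth.z)))
def l1 : Tr := Tr.L (Pth.l (Pth.l (Pth.r Pth.z)))
def l2 : Tr := Tr.L (Pth.l (Pth.r (Pth.l Pth.z)))
def l3 : Tr := Tr.L (Pth.l (Pth.r (Pth.r Pth.z)))
def l4 : Tr := Tr.L (Pth.r (Pth.l (Pth.l Pth.z)))
def l5 : Tr := Tr.L (Pth.r (Pth.l (Pth.r Pth.z)))
def l6 : Tr := Tr.L (Pth.r (Pth.r (Pth.l Pth.z)))
def l7 : Tr := Tr.L (Pth.r (Pth.r (Pth.r (Pth.l Pth.z))))
def l8 : Tr := Tr.L (Pth.r (Pth.r (Pth.r (Pth.r Pth.z))))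
end T0
def b1_0 : Bx := Bx.mk (St.mk (I.pos (nat_lit 154517504) (nat_lit 267108352)) (I.mix (nat_lit 43565056) (nat_lit 68550656)) (I.mix (nat_lit 142131200) (nat_lit 91701248)) (I.pos (nat_lit 181239808) (nat_lit 377061376)) (I.mix (nat_lit 118931456) (nat_lit 80723968)) (I.mix (nat_lit 103759872) (nat_lit 100564992)) (I.mix (nat_lit 155566080) (nat_lit 212647936)))
  false (nat_lit 0)
def b1_1 : Bx := Bx.mk (St.mk (I.mix (nat_lit 40861696) (nat_lit 102170624)) (I.mix (nat_lit 18497536) (nat_lit 49364992)) (I.mix (nat_lit 29032448) (nat_lit 13025280)) (I.pos (nat_lit 76611584) (nat_lit 127025152)) (I.mix (nat_lit 49053696) (nat_lit 52314112)) (I.mix (nat_lit 54001664) (nat_lit 44892160)) (I.mix (nat_lit 33292288) (nat_lit 25935872)))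
  false (nat_lit 0)
def b1_2 : Bx := Bx.mk (St.mk (I.pos (nat_lit 78282752) (nat_lit 126582784)) (I.mix (nat_lit 69156864) (nat_lit 19873792)) (I.neg (nat_lit 4390912) (nat_lit 66977792)) (I.pos (nat_lit 113754112) (nat_lit 152338432)) (I.mix (nat_lit 106086400) (nat_lit 41041920)) (I.mix (nat_lit 66568192) (nat_lit 110624768)) (I.mix (nat_lit 48611328) (nat_lit 78856192)))
  false (nat_lit 0)
def b1_3 : Bx := Bx.mk (St.mk (I.mix (nat_lit 50413568) (nat_lit 33849344)) (I.mix (nat_lit 41680896) (nat_lit 14630912)) (I.neg (nat_lit 753664) (nat_lit 18284544)) (I.pos (nat_lit 82296832) (nat_lit 102449152)) (I.mix (nat_lit 38469632) (nat_lit 28033024)) (I.mix (nat_lit 28082176) (nat_lit 36323328)) (I.mix (nat_lit 14090240) (nat_lit 10731520)))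
  false (nat_lit 0)
def b1_4 : Bx := Bx.mk (St.mk (I.mix (nat_lit 58458112) (nat_lit 9093120)) (I.mix (nat_lit 13287424) (nat_lit 13697024)) (I.neg (nat_lit 8404992) (nat_lit 19038208)) (I.pos (nat_lit 88047616) (nat_lit 103645184)) (I.mix (nat_lit 23298048) (nat_lit 20447232)) (I.mix (nat_lit 20398080) (nat_lit 21413888)) (I.mix (nat_lit 8880128) (nat_lit 8044544)))
  false (nat_lit 0)
def b1_5 : Bx := Bx.mk (St.mk (I.pos (nat_lit 81608704) (nat_lit 160595968)) (I.mix (nat_lit 76038144) (nat_lit 4096000)) (I.neg (nat_lit 11124736) (nat_lit 76546048)) (I.pos (nat_lit 124796928) (nat_lit 190201856)) (I.mix (nat_lit 106233856) (nat_lit 54476800)) (I.mix (nat_lit 56688640) (nat_lit 90652672)) (I.mix (nat_lit 40927232) (nat_lit 74268672)))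
  false (nat_lit 0)
def b1_6 : Bx := Bx.mk (St.mk (I.mix (nat_lit 39256064) (nat_lit 46792704)) (I.mix (nat_lit 39665664) (nat_lit 4554752)) (I.neg (nat_lit 3014656) (nat_lit 20938752)) (I.pos (nat_lit 81461248) (nat_lit 102957056)) (I.mix (nat_lit 37126144) (nat_lit 32669696)) (I.mix (nat_lit 28540928) (nat_lit 40648704)) (I.mix (nat_lit 13844480) (nat_lit 15269888)))
  false (nat_lit 0)
def b1_7 : Bx := Bx.mk (St.mk (I.pos (nat_lit 136232960) (nat_lit 215285760)) (I.mix (nat_lit 39256064) (nat_lit 79216640)) (I.mix (nat_lit 45776896) (nat_lit 94208000)) (I.pos (nat_lit 163512320) (nat_lit 267599872)) (I.mix (nat_lit 156155904) (nat_lit 56754176)) (I.mix (nat_lit 179912704) (nat_lit 110264320)) (I.mix (nat_lit 182304768) (nat_lit 111968256)))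
  false (nat_lit 0)
def b1_8 : Bx := Bx.mk (St.mk (I.mix (nat_lit 53116928) (nat_lit 73433088)) (I.mix (nat_lit 11239424) (nat_lit 39092224)) (I.mix (nat_lit 20774912) (nat_lit 4161536)) (I.pos (nat_lit 81166336) (nat_lit 108478464)) (I.mix (nat_lit 41172992) (nat_lit 32391168)) (I.mix (nat_lit 51789824) (nat_lit 25165824)) (I.mix (nat_lit 20217856) (nat_lit 20660224)))
  false (nat_lit 0)
def b1_9 : Bx := Bx.mk (St.mk (I.pos (nat_lit 140804096) (nat_lit 153026560)) (I.neg (nat_lit 17055744) (nat_lit 33882112)) (I.neg (nat_lit 20611072) (nat_lit 38371328)) (I.pos (nat_lit 170491904) (nat_lit 181977088)) (I.mix (nat_lit 20987904) (nat_lit 8945664)) (I.mix (nat_lit 6914048) (nat_lit 9453568)) (I.mix (nat_lit 7208960) (nat_lit 9355264)))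
  false (nat_lit 0)
def b1_10 : Bx := Bx.mk (St.mk (I.mix (nat_lit 57032704) (nat_lit 49758208)) (I.mix (nat_lit 18038784) (nat_lit 6504448)) (I.neg (nat_lit 1228800) (nat_lit 12828672)) (I.pos (nat_lit 87162880) (nat_lit 101646336)) (I.mix (nat_lit 13778944) (nat_lit 15679488)) (I.mix (nat_lit 11812864) (nat_lit 13074432)) (I.mix (nat_lit 5586944) (nat_lit 5177344)))
  false (nat_lit 0)
def b1_11 : Bx := Bx.mk (St.mk (I.pos (nat_lit 75300864) (nat_lit 92323840)) (I.mix (nat_lit 14073856) (nat_lit 12288000)) (I.neg (nat_lit 8437760) (nat_lit 26361856)) (I.pos (nat_lit 112197632) (nat_lit 124207104)) (I.mix (nat_lit 25657344) (nat_lit 15007744)) (I.mix (nat_lit 14401536) (nat_lit 14417920)) (I.mix (nat_lit 10223616) (nat_lit 11255808)))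
  false (nat_lit 0)
def t1 : BTr := (BTr.n (BTr.n (BTr.n (BTr.b b1_0) (BTr.n (BTr.b b1_1) (BTr.b b1_2))) (BTr.n (BTr.b b1_3) (BTr.n (BTr.b b1_4) (BTr.b b1_5)))) (BTr.n (BTr.n (BTr.b b1_6) (BTr.n (BTr.b b1_7) (BTr.b b1_8))) (BTr.n (BTr.b b1_9) (BTr.n (BTr.b b1_10) (BTr.b b1_11)))))
namespace T1
def l0 : Tr := Tr.L (Pth.l (Pth.l (Pth.l Pth.z)))
def l1 : Tr := Tr.L (Pth.l (Pth.l (Pth.r (Pth.l Pth.z))))
def l2 : Tr := Tr.L (Pth.l (Pth.l (Pth.r (Pth.r Pth.z))))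
def l3 : Tr := Tr.L (Pth.l (Pth.r (Pth.l Pth.z)))
def l4 : Tr := Tr.L (Pth.l (Pth.r (Pth.r (Pth.l Pth.z))))
def l5 : Tr := Tr.L (Pth.l (Pth.r (Pth.r (Pth.r Pth.z))))
def l6 : Tr := Tr.L (Pth.r (Pth.l (Pth.l Pth.z)))
def l7 : Tr := Tr.L (Pth.r (Pth.l (Pth.r (Pth.l Pth.z))))
def l8 : Tr := Tr.L (Pth.r (Pth.l (Pth.r (Pth.r Pth.z))))
def l9 : Tr := Tr.L (Pth.r (Pth.r (Pth.l Pth.z)))
def l10 : Tr := Tr.L (Pth.r (Pth.r (Pth.r (Pth.l Pth.z))))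
def l11 : Tr := Tr.L (Pth.r (Pth.r (Pth.r (Pth.r Pth.z))))
end T1
def b2_0 : Bx := Bx.mk (St.mk (I.pos (nat_lit 142917632) (nat_lit 273252352)) (I.mix (nat_lit 15089664) (nat_lit 99172352)) (I.mix (nat_lit 148422656) (nat_lit 99057664)) (I.pos (nat_lit 364412928) (nat_lit 567132160)) (I.mix (nat_lit 133169152) (nat_lit 94158848)) (I.mix (nat_lit 122404864) (nat_lit 99237888)) (I.mix (nat_lit 194838528) (nat_lit 176635904)))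
  false (nat_lit 0)
def b2_1 : Bx := Bx.mk (St.mk (I.mix (nat_lit 62898176) (nat_lit 11812864)) (I.mix (nat_lit 13484032) (nat_lit 96534528)) (I.neg (nat_lit 47611904) (nat_lit 72105984)) (I.pos (nat_lit 267714560) (nat_lit 296566784)) (I.mix (nat_lit 56033280) (nat_lit 100646912)) (I.mix (nat_lit 98418688) (nat_lit 78249984)) (I.mix (nat_lit 43433984) (nat_lit 36372480)))
  true (nat_lit 0)
def b2_2 : Bx := Bx.mk (St.mk (I.mix (nat_lit 11649024) (nat_lit 62898176)) (I.mix (nat_lit 96485376) (nat_lit 12697600)) (I.neg (nat_lit 47611904) (nat_lit 72105984)) (I.pos (nat_lit 267714560) (nat_lit 296566784)) (I.mix (nat_lit 100646912) (nat_lit 56033280)) (I.mix (nat_lit 78249984) (nat_lit 98418688)) (I.mix (nat_lit 43433984) (nat_lit 36372480)))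
  false (nat_lit 0)
def b2_3 : Bx := Bx.mk (St.mk (I.pos (nat_lit 20430848) (nat_lit 137461760)) (I.mix (nat_lit 98680832) (nat_lit 3506176)) (I.neg (nat_lit 262144) (nat_lit 90243072)) (I.pos (nat_lit 266829824) (nat_lit 343162880)) (I.mix (nat_lit 120045568) (nat_lit 89391104)) (I.mix (nat_lit 81985536) (nat_lit 108986368)) (I.mix (nat_lit 83361792) (nat_lit 92635136)))
  false (nat_lit 0)
def b2_4 : Bx := Bx.mk (St.mk (I.pos (nat_lit 83984384) (nat_lit 196952064)) (I.mix (nat_lit 45842432) (nat_lit 105496576)) (I.mix (nat_lit 42352640) (nat_lit 98467840)) (I.pos (nat_lit 304660480) (nat_lit 431456256)) (I.mix (nat_lit 155942912) (nat_lit 75939840)) (I.mix (nat_lit 181583872) (nat_lit 121782272)) (I.mix (nat_lit 174522368) (nat_lit 146243584)))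
  false (nat_lit 0)
def b2_5 : Bx := Bx.mk (St.mk (I.neg (nat_lit 20430848) (nat_lit 137461760)) (I.mix (nat_lit 6127616) (nat_lit 98598912)) (I.mix (nat_lit 90275840) (nat_lit 3473408)) (I.pos (nat_lit 266829824) (nat_lit 343162880)) (I.mix (nat_lit 89407488) (nat_lit 120045568)) (I.mix (nat_lit 108986368) (nat_lit 81985536)) (I.mix (nat_lit 83361792) (nat_lit 92651520)))
  true (nat_lit 0)
def b2_6 : Bx := Bx.mk (St.mk (I.mix (nat_lit 10878976) (nat_lit 7831552)) (I.mix (nat_lit 7585792) (nat_lit 23035904)) (I.neg (nat_lit 54771712) (nat_lit 58638336)) (I.pos (nat_lit 269271040) (nat_lit 277938176)) (I.mix (nat_lit 17170432) (nat_lit 31653888)) (I.mix (nat_lit 24936448) (nat_lit 14925824)) (I.mix (nat_lit 2506752) (nat_lit 3391488)))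
  true (nat_lit 0)
def t2 : BTr := (BTr.n (BTr.n (BTr.b b2_0) (BTr.n (BTr.b b2_1) (BTr.b b2_2))) (BTr.n (BTr.n (BTr.b b2_3) (BTr.b b2_4)) (BTr.n (BTr.b b2_5) (BTr.b b2_6))))
namespace T2
def l0 : Tr := Tr.L (Pth.l (Pth.l Pth.z))
def l1 : Tr := Tr.L (Pth.l (Pth.r (Pth.l Pth.z)))
def l2 : Tr := Tr.L (Pth.l (Pth.r (Pth.r Pth.z)))
def l3 : Tr := Tr.L (Pth.r (Pth.l (Pth.l Pth.z)))
def l4 : Tr := Tr.L (Pth.r (Pth.l (Pth.r Pth.z)))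
def l5 : Tr := Tr.L (Pth.r (Pth.r (Pth.l Pth.z)))
def l6 : Tr := Tr.L (Pth.r (Pth.r (Pth.r Pth.z)))
end T2
def b3_0 : Bx := Bx.mk (St.mk (I.pos (nat_lit 154238976) (nat_lit 272089088)) (I.mix (nat_lit 17072128) (nat_lit 61931520)) (I.mix (nat_lit 25837568) (nat_lit 111198208)) (I.pos (nat_lit 179027968) (nat_lit 379043840)) (I.mix (nat_lit 103284736) (nat_lit 78528512)) (I.mix (nat_lit 117555200) (nat_lit 73924608)) (I.mix (nat_lit 198098944) (nat_lit 101793792)))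
  false (nat_lit 0)
def b3_1 : Bx := Bx.mk (St.mk (I.pos (nat_lit 90767360) (nat_lit 155336704)) (I.neg (nat_lit 1703936) (nat_lit 75399168)) (I.mix (nat_lit 56246272) (nat_lit 15138816)) (I.pos (nat_lit 130187264) (nat_lit 180600832)) (I.mix (nat_lit 96485376) (nat_lit 53952512)) (I.mix (nat_lit 53510144) (nat_lit 83181568)) (I.mix (nat_lit 44007424) (nat_lit 60145664)))
  false (nat_lit 0)
def b3_2 : Bx := Bx.mk (St.mk (I.mix (nat_lit 34324480) (nat_lit 44138496)) (I.mix (nat_lit 41140224) (nat_lit 7585792)) (I.mix (nat_lit 6537216) (nat_lit 9158656)) (I.pos (nat_lit 82329600) (nat_lit 101990400)) (I.mix (nat_lit 30883840) (nat_lit 34750464)) (I.mix (nat_lit 28196864) (nat_lit 34062336)) (I.mix (nat_lit 10813440) (nat_lit 12435456)))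
  false (nat_lit 0)
def b3_3 : Bx := Bx.mk (St.mk (I.pos (nat_lit 137756672) (nat_lit 209371136)) (I.mix (nat_lit 48709632) (nat_lit 78856192)) (I.mix (nat_lit 31784960) (nat_lit 126238720)) (I.pos (nat_lit 166920192) (nat_lit 256081920)) (I.mix (nat_lit 160628736) (nat_lit 63242240)) (I.mix (nat_lit 194183168) (nat_lit 117702656)) (I.mix (nat_lit 216891392) (nat_lit 118734848)))
  false (nat_lit 0)
def b3_4 : Bx := Bx.mk (St.mk (I.mix (nat_lit 54558720) (nat_lit 82018304)) (I.mix (nat_lit 18153472) (nat_lit 49790976)) (I.mix (nat_lit 8437760) (nat_lit 24051712)) (I.pos (nat_lit 80953344) (nat_lit 112099328)) (I.mix (nat_lit 53624832) (nat_lit 39075840)) (I.mix (nat_lit 52133888) (nat_lit 39714816)) (I.mix (nat_lit 20955136) (nat_lit 19726336)))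
  false (nat_lit 0)
def b3_5 : Bx := Bx.mk (St.mk (I.mix (nat_lit 62619648) (nat_lit 53379072)) (I.mix (nat_lit 16236544) (nat_lit 16236544)) (I.pos (nat_lit 1703936) (nat_lit 11141120)) (I.pos (nat_lit 85491712) (nat_lit 103333888)) (I.mix (nat_lit 24969216) (nat_lit 17121280)) (I.mix (nat_lit 20660224) (nat_lit 20529152)) (I.mix (nat_lit 8634368) (nat_lit 8683520)))
  false (nat_lit 0)
def b3_6 : Bx := Bx.mk (St.mk (I.mix (nat_lit 48201728) (nat_lit 101040128)) (I.mix (nat_lit 7405568) (nat_lit 48283648)) (I.mix (nat_lit 4767744) (nat_lit 31129600)) (I.pos (nat_lit 74268672) (nat_lit 126730240)) (I.mix (nat_lit 56606720) (nat_lit 44646400)) (I.mix (nat_lit 55640064) (nat_lit 41467904)) (I.mix (nat_lit 36732928) (nat_lit 29753344)))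
  false (nat_lit 0)
def b3_7 : Bx := Bx.mk (St.mk (I.pos (nat_lit 79806464) (nat_lit 132169728)) (I.mix (nat_lit 70615040) (nat_lit 8962048)) (I.mix (nat_lit 48988160) (nat_lit 5505024)) (I.pos (nat_lit 114343936) (nat_lit 156286976)) (I.mix (nat_lit 89489408) (nat_lit 38043648)) (I.mix (nat_lit 61636608) (nat_lit 92110848)) (I.mix (nat_lit 43827200) (nat_lit 60211200)))
  false (nat_lit 0)
def b3_8 : Bx := Bx.mk (St.mk (I.mix (nat_lit 50020352) (nat_lit 38158336)) (I.mix (nat_lit 39092224) (nat_lit 3653632)) (I.mix (nat_lit 2949120) (nat_lit 12582912)) (I.pos (nat_lit 81707008) (nat_lit 102465536)) (I.mix (nat_lit 32915456) (nat_lit 32555008)) (I.mix (nat_lit 27262976) (nat_lit 39288832)) (I.mix (nat_lit 14270464) (nat_lit 11911168)))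
  false (nat_lit 0)
def b3_9 : Bx := Bx.mk (St.mk (I.pos (nat_lit 83656704) (nat_lit 90128384)) (I.mix (nat_lit 1703936) (nat_lit 8142848)) (I.mix (nat_lit 2015232) (nat_lit 4800512)) (I.pos (nat_lit 117391360) (nat_lit 122044416)) (I.mix (nat_lit 6684672) (nat_lit 8224768)) (I.mix (nat_lit 4554752) (nat_lit 3473408)) (I.mix (nat_lit 3440640) (nat_lit 2244608)))
  false (nat_lit 0)
def b3_10 : Bx := Bx.mk (St.mk (I.mix (nat_lit 52772864) (nat_lit 5259264)) (I.mix (nat_lit 2146304) (nat_lit 14893056)) (I.mix (nat_lit 5619712) (nat_lit 491520)) (I.pos (nat_lit 88948736) (nat_lit 101056512)) (I.mix (nat_lit 8568832) (nat_lit 14385152)) (I.mix (nat_lit 9568256) (nat_lit 7651328)) (I.mix (nat_lit 3145728) (nat_lit 3489792)))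
  false (nat_lit 0)
def b3_11 : Bx := Bx.mk (St.mk (I.pos (nat_lit 131481600) (nat_lit 158515200)) (I.mix (nat_lit 40681472) (nat_lit 229376)) (I.mix (nat_lit 19070976) (nat_lit 23724032)) (I.pos (nat_lit 161873920) (nat_lit 185581568)) (I.mix (nat_lit 54018048) (nat_lit 35880960)) (I.mix (nat_lit 39747584) (nat_lit 46170112)) (I.mix (nat_lit 43630592) (nat_lit 43761664)))
  false (nat_lit 0)
def t3 : BTr := (BTr.n (BTr.n (BTr.n (BTr.b b3_0) (BTr.n (BTr.b b3_1) (BTr.b b3_2))) (BTr.n (BTr.b b3_3) (BTr.n (BTr.b b3_4) (BTr.b b3_5)))) (BTr.n (BTr.n (BTr.b b3_6) (BTr.n (BTr.b b3_7) (BTr.b b3_8))) (BTr.n (BTr.b b3_9) (BTr.n (BTr.b b3_10) (BTr.b b3_11)))))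
namespace T3
def l0 : Tr := Tr.L (Pth.l (Pth.l (Pth.l Pth.z)))
def l1 : Tr := Tr.L (Pth.l (Pth.l (Pth.r (Pth.l Pth.z))))
def l2 : Tr := Tr.L (Pth.l (Pth.l (Pth.r (Pth.r Pth.z))))
def l3 : Tr := Tr.L (Pth.l (Pth.r (Pth.l Pth.z)))
def l4 : Tr := Tr.L (Pth.l (Pth.r (Pth.r (Pth.l Pth.z))))
def l5 : Tr := Tr.L (Pth.l (Pth.r (Pth.r (Pth.r Pth.z))))
def l6 : Tr := Tr.L (Pth.r (Pth.l (Pth.l Pth.z)))
def l7 : Tr := Tr.L (Pth.r (Pth.l (Pth.r (Pth.l Pth.z))))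
def l8 : Tr := Tr.L (Pth.r (Pth.l (Pth.r (Pth.r Pth.z))))
def l9 : Tr := Tr.L (Pth.r (Pth.r (Pth.l Pth.z)))
def l10 : Tr := Tr.L (Pth.r (Pth.r (Pth.r (Pth.l Pth.z))))
def l11 : Tr := Tr.L (Pth.r (Pth.r (Pth.r (Pth.r Pth.z))))
end T3
def b4_0 : Bx := Bx.mk (St.mk (I.pos (nat_lit 130138112) (nat_lit 297762816)) (I.mix (nat_lit 55099392) (nat_lit 97042432)) (I.mix (nat_lit 193724416) (nat_lit 120635392)) (I.pos (nat_lit 358989824) (nat_lit 607420416)) (I.mix (nat_lit 145915904) (nat_lit 107511808)) (I.mix (nat_lit 136019968) (nat_lit 100712448)) (I.mix (nat_lit 213254144) (nat_lit 146767872)))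
  false (nat_lit 33241579)
def b4_1 : Bx := Bx.mk (St.mk (I.pos (nat_lit 29999104) (nat_lit 121602048)) (I.neg (nat_lit 9093120) (nat_lit 98664448)) (I.mix (nat_lit 67878912) (nat_lit 10829824)) (I.pos (nat_lit 271810560) (nat_lit 331218944)) (I.mix (nat_lit 105775104) (nat_lit 73482240)) (I.mix (nat_lit 78053376) (nat_lit 99057664)) (I.mix (nat_lit 77070336) (nat_lit 78430208)))
  false (nat_lit 0)
def b4_2 : Bx := Bx.mk (St.mk (I.pos (nat_lit 95191040) (nat_lit 189169664)) (I.mix (nat_lit 36683776) (nat_lit 100646912)) (I.mix (nat_lit 12730368) (nat_lit 121421824)) (I.pos (nat_lit 307183616) (nat_lit 414056448)) (I.mix (nat_lit 156860416) (nat_lit 71024640)) (I.mix (nat_lit 155189248) (nat_lit 117555200)) (I.mix (nat_lit 163758080) (nat_lit 143966208)))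
  false (nat_lit 0)
def b4_3 : Bx := Bx.mk (St.mk (I.neg (nat_lit 29999104) (nat_lit 121339904)) (I.pos (nat_lit 9076736) (nat_lit 98680832)) (I.mix (nat_lit 67895296) (nat_lit 10092544)) (I.pos (nat_lit 271810560) (nat_lit 331022336)) (I.mix (nat_lit 73482240) (nat_lit 105775104)) (I.mix (nat_lit 99057664) (nat_lit 78053376)) (I.mix (nat_lit 77086720) (nat_lit 78430208)))
  true (nat_lit 0)
def b4_4 : Bx := Bx.mk (St.mk (I.mix (nat_lit 71041024) (nat_lit 26001408)) (I.mix (nat_lit 29196288) (nat_lit 99581952)) (I.neg (nat_lit 28311552) (nat_lit 52576256)) (I.pos (nat_lit 267730944) (nat_lit 296632320)) (I.mix (nat_lit 60506112) (nat_lit 99942400)) (I.mix (nat_lit 112574464) (nat_lit 81264640)) (I.mix (nat_lit 43040768) (nat_lit 31997952)))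
  true (nat_lit 0)
def b4_5 : Bx := Bx.mk (St.mk (I.mix (nat_lit 26001408) (nat_lit 71041024)) (I.mix (nat_lit 99581952) (nat_lit 29196288)) (I.neg (nat_lit 28311552) (nat_lit 52576256)) (I.pos (nat_lit 267730944) (nat_lit 296648704)) (I.mix (nat_lit 99942400) (nat_lit 60506112)) (I.mix (nat_lit 81264640) (nat_lit 112574464)) (I.mix (nat_lit 43040768) (nat_lit 31997952)))
  false (nat_lit 0)
def b4_6 : Bx := Bx.mk (St.mk (I.pos (nat_lit 94355456) (nat_lit 117030912)) (I.neg (nat_lit 14516224) (nat_lit 47333376)) (I.mix (nat_lit 20054016) (nat_lit 6766592)) (I.pos (nat_lit 308051968) (nat_lit 327860224)) (I.mix (nat_lit 26247168) (nat_lit 28655616)) (I.mix (nat_lit 18300928) (nat_lit 23855104)) (I.mix (nat_lit 15695872) (nat_lit 19496960)))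
  false (nat_lit 0)
def t4 : BTr := (BTr.n (BTr.n (BTr.b b4_0) (BTr.n (BTr.b b4_1) (BTr.b b4_2))) (BTr.n (BTr.n (BTr.b b4_3) (BTr.b b4_4)) (BTr.n (BTr.b b4_5) (BTr.b b4_6))))
namespace T4
def l0 : Tr := Tr.L (Pth.l (Pth.l Pth.z))
def l1 : Tr := Tr.L (Pth.l (Pth.r (Pth.l Pth.z)))
def l2 : Tr := Tr.L (Pth.l (Pth.r (Pth.r Pth.z)))
def l3 : Tr := Tr.L (Pth.r (Pth.l (Pth.l Pth.z)))
def l4 : Tr := Tr.L (Pth.r (Pth.l (Pth.r Pth.z)))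
def l5 : Tr := Tr.L (Pth.r (Pth.r (Pth.l Pth.z)))
def l6 : Tr := Tr.L (Pth.r (Pth.r (Pth.r Pth.z)))
end T4
def b5_0 : Bx := Bx.mk (St.mk (I.pos (nat_lit 146456576) (nat_lit 293289984)) (I.mix (nat_lit 42729472) (nat_lit 72318976)) (I.mix (nat_lit 88391680) (nat_lit 131547136)) (I.pos (nat_lit 228999168) (nat_lit 473006080)) (I.mix (nat_lit 123224064) (nat_lit 86425600)) (I.mix (nat_lit 129548288) (nat_lit 96223232)) (I.mix (nat_lit 201768960) (nat_lit 128319488)))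
  false (nat_lit 6621913)
def b5_1 : Bx := Bx.mk (St.mk (I.pos (nat_lit 80461824) (nat_lit 147554304)) (I.mix (nat_lit 81854464) (nat_lit 1064960)) (I.mix (nat_lit 50544640) (nat_lit 34258944)) (I.pos (nat_lit 174096384) (nat_lit 225099776)) (I.mix (nat_lit 80576512) (nat_lit 64421888)) (I.mix (nat_lit 59899904) (nat_lit 81887232)) (I.mix (nat_lit 50495488) (nat_lit 71483392)))
  false (nat_lit 0)
def b5_2 : Bx := Bx.mk (St.mk (I.neg (nat_lit 393216) (nat_lit 32505856)) (I.mix (nat_lit 47742976) (nat_lit 11370496)) (I.pos (nat_lit 12058624) (nat_lit 18333696)) (I.pos (nat_lit 141852672) (nat_lit 150093824)) (I.mix (nat_lit 31588352) (nat_lit 46628864)) (I.mix (nat_lit 31653888) (nat_lit 47415296)) (I.mix (nat_lit 7028736) (nat_lit 8650752)))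
  true (nat_lit 0)
def b5_3 : Bx := Bx.mk (St.mk (I.pos (nat_lit 131088384) (nat_lit 194625536)) (I.mix (nat_lit 49364992) (nat_lit 78282752)) (I.mix (nat_lit 17661952) (nat_lit 131907584)) (I.pos (nat_lit 210518016) (nat_lit 287784960)) (I.mix (nat_lit 169508864) (nat_lit 57081856)) (I.mix (nat_lit 182779904) (nat_lit 91471872)) (I.mix (nat_lit 197427200) (nat_lit 102154240)))
  false (nat_lit 0)
def b5_4 : Bx := Bx.mk (St.mk (I.mix (nat_lit 3686400) (nat_lit 32735232)) (I.mix (nat_lit 14548992) (nat_lit 47923200)) (I.pos (nat_lit 12042240) (nat_lit 18333696)) (I.pos (nat_lit 141787136) (nat_lit 150093824)) (I.mix (nat_lit 46628864) (nat_lit 31588352)) (I.mix (nat_lit 47415296) (nat_lit 31653888)) (I.mix (nat_lit 7028736) (nat_lit 8650752)))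
  false (nat_lit 0)
def b5_5 : Bx := Bx.mk (St.mk (I.pos (nat_lit 119930880) (nat_lit 144179200)) (I.neg (nat_lit 1687552) (nat_lit 39174144)) (I.mix (nat_lit 6094848) (nat_lit 30670848)) (I.pos (nat_lit 199819264) (nat_lit 222380032)) (I.mix (nat_lit 41385984) (nat_lit 25034752)) (I.mix (nat_lit 23724032) (nat_lit 30769152)) (I.mix (nat_lit 27410432) (nat_lit 27181056)))
  false (nat_lit 0)
def b5_6 : Bx := Bx.mk (St.mk (I.mix (nat_lit 12009472) (nat_lit 2752512)) (I.mix (nat_lit 10993664) (nat_lit 14041088)) (I.pos (nat_lit 13139968) (nat_lit 15007744)) (I.pos (nat_lit 142082048) (nat_lit 145309696)) (I.mix (nat_lit 26853376) (nat_lit 18956288)) (I.mix (nat_lit 20332544) (nat_lit 22478848)) (I.mix (nat_lit 1900544) (nat_lit 1343488)))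
  true (nat_lit 0)
def b5_7 : Bx := Bx.mk (St.mk (I.pos (nat_lit 11386880) (nat_lit 76398592)) (I.mix (nat_lit 14942208) (nat_lit 57589760)) (I.mix (nat_lit 8372224) (nat_lit 25870336)) (I.pos (nat_lit 139411456) (nat_lit 165789696)) (I.mix (nat_lit 46317568) (nat_lit 50479104)) (I.mix (nat_lit 62652416) (nat_lit 38797312)) (I.mix (nat_lit 32604160) (nat_lit 22544384)))
  false (nat_lit 0)
def b5_8 : Bx := Bx.mk (St.mk (I.pos (nat_lit 47464448) (nat_lit 115245056)) (I.mix (nat_lit 83066880) (nat_lit 17203200)) (I.mix (nat_lit 44711936) (nat_lit 7192576)) (I.pos (nat_lit 151027712) (nat_lit 194314240)) (I.mix (nat_lit 79708160) (nat_lit 42352640)) (I.mix (nat_lit 55754752) (nat_lit 94912512)) (I.mix (nat_lit 38322176) (nat_lit 53149696)))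
  false (nat_lit 0)
def b5_9 : Bx := Bx.mk (St.mk (I.neg (nat_lit 11370496) (nat_lit 76398592)) (I.mix (nat_lit 57753600) (nat_lit 17678336)) (I.mix (nat_lit 9469952) (nat_lit 25935872)) (I.pos (nat_lit 139411456) (nat_lit 165789696)) (I.mix (nat_lit 50479104) (nat_lit 46317568)) (I.mix (nat_lit 38813696) (nat_lit 62652416)) (I.mix (nat_lit 32604160) (nat_lit 22544384)))
  true (nat_lit 0)
def t5 : BTr := (BTr.n (BTr.n (BTr.n (BTr.b b5_0) (BTr.b b5_1)) (BTr.n (BTr.b b5_2) (BTr.n (BTr.b b5_3) (BTr.b b5_4)))) (BTr.n (BTr.n (BTr.b b5_5) (BTr.b b5_6)) (BTr.n (BTr.b b5_7) (BTr.n (BTr.b b5_8) (BTr.b b5_9)))))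
namespace T5
def l0 : Tr := Tr.L (Pth.l (Pth.l (Pth.l Pth.z)))
def l1 : Tr := Tr.L (Pth.l (Pth.l (Pth.r Pth.z)))
def l2 : Tr := Tr.L (Pth.l (Pth.r (Pth.l Pth.z)))
def l3 : Tr := Tr.L (Pth.l (Pth.r (Pth.r (Pth.l Pth.z))))
def l4 : Tr := Tr.L (Pth.l (Pth.r (Pth.r (Pth.r Pth.z))))
def l5 : Tr := Tr.L (Pth.r (Pth.l (Pth.l Pth.z)))
def l6 : Tr := Tr.L (Pth.r (Pth.l (Pth.r Pth.z)))
def l7 : Tr := Tr.L (Pth.r (Pth.r (Pth.l Pth.z)))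
def l8 : Tr := Tr.L (Pth.r (Pth.r (Pth.r (Pth.l Pth.z))))
def l9 : Tr := Tr.L (Pth.r (Pth.r (Pth.r (Pth.r Pth.z))))
end T5
theorem bx0_0 : BoxOK sI cl4 cl5 cl6 t2 t4 b0_0 :=
  box_mk (TrL.c (I.pos (nat_lit 0) (nat_lit 0)) (xa (xb T2.l0 (xa T2.l0 T2.l0)) (xb T2.l4 (xa T2.l0 T2.l4)))
  (TrL.c (I.pos (nat_lit 0) (nat_lit 0)) (xa T4.l1 T4.l1)
  (TrL.c (I.pos (nat_lit 0) (nat_lit 0)) T2.l1
  (TrL.c (I.pos (nat_lit 0) (nat_lit 0)) (xa T4.l2 (xb (xa T4.l2 (xb T4.l2 T4.l2)) (xa T4.l2 (xs T4.l2 (xb T4.l2 T4.l2)))))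
  (TrL.c (I.pos (nat_lit 0) (nat_lit 0)) T2.l2
  (TrL.c (I.pos (nat_lit 0) (nat_lit 0)) (xa T4.l3 T4.l3)
  TrL.n)))))) (by decide +kernel)
theorem bx0_1 : BoxOK sI cl4 cl5 cl6 t2 t4 b0_1 :=
  box_mk (TrL.c (I.pos (nat_lit 0) (nat_lit 0)) T2.l0
  (TrL.c (I.pos (nat_lit 0) (nat_lit 0)) T4.l1
  (TrL.c (I.pos (nat_lit 0) (nat_lit 0)) T2.l1
  (TrL.c (I.pos (nat_lit 0) (nat_lit 0)) T4.l2
  (TrL.c (I.pos (nat_lit 0) (nat_lit 0)) T2.l2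
  (TrL.c (I.pos (nat_lit 0) (nat_lit 0)) T4.l3
  TrL.n)))))) (by decide +kernel)
theorem bx0_2 : BoxOK sI cl4 cl5 cl6 t2 t4 b0_2 :=
  box_mk (TrL.c (I.pos (nat_lit 0) (nat_lit 0)) T2.l0
  (TrL.c (I.pos (nat_lit 0) (nat_lit 0)) T4.l1
  (TrL.c (I.pos (nat_lit 0) (nat_lit 0)) T2.l1
  (TrL.c (I.pos (nat_lit 0) (nat_lit 0)) T4.l2
  (TrL.c (I.pos (nat_lit 0) (nat_lit 0)) T2.l2
  (TrL.c (I.pos (nat_lit 0) (nat_lit 0)) T4.l3
  TrL.n)))))) (by decide +kernel)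
theorem bx0_3 : BoxOK sI cl4 cl5 cl6 t2 t4 b0_3 :=
  box_mk (TrL.c (I.pos (nat_lit 0) (nat_lit 0)) T4.l1
  (TrL.c (I.pos (nat_lit 0) (nat_lit 0)) T2.l1
  TrL.n)) (by decide +kernel)
theorem bx0_4 : BoxOK sI cl4 cl5 cl6 t2 t4 b0_4 :=
  box_mk (TrL.c (I.pos (nat_lit 0) (nat_lit 0)) T2.l0
  (TrL.c (I.pos (nat_lit 0) (nat_lit 0)) T4.l1
  (TrL.c (I.pos (nat_lit 0) (nat_lit 0)) T2.l1
  (TrL.c (I.pos (nat_lit 0) (nat_lit 0)) T4.l2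
  (TrL.c (I.pos (nat_lit 0) (nat_lit 0)) T2.l2
  (TrL.c (I.pos (nat_lit 0) (nat_lit 0)) T4.l3
  TrL.n)))))) (by decide +kernel)
theorem bx0_5 : BoxOK sI cl4 cl5 cl6 t2 t4 b0_5 :=
  box_mk (TrL.c (I.pos (nat_lit 0) (nat_lit 0)) (xa (xb T2.l0 T2.l0) T2.l0)
  (TrL.c (I.pos (nat_lit 0) (nat_lit 0)) T4.l1
  (TrL.c (I.pos (nat_lit 0) (nat_lit 0)) T2.l1
  (TrL.c (I.pos (nat_lit 0) (nat_lit 0)) T4.l2
  (TrL.c (I.pos (nat_lit 0) (nat_lit 0)) T2.l2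
  (TrL.c (I.pos (nat_lit 0) (nat_lit 0)) T4.l3
  TrL.n)))))) (by decide +kernel)
theorem bx0_6 : BoxOK sI cl4 cl5 cl6 t2 t4 b0_6 :=
  box_mk (TrL.c (I.pos (nat_lit 0) (nat_lit 0)) T4.l1
  (TrL.c (I.pos (nat_lit 0) (nat_lit 0)) T2.l1
  TrL.n)) (by decide +kernel)
theorem bx0_7 : BoxOK sI cl4 cl5 cl6 t2 t4 b0_7 :=
  box_mk (TrL.c (I.pos (nat_lit 0) (nat_lit 0)) (xb T2.l0 T2.l0)
  (TrL.c (I.pos (nat_lit 0) (nat_lit 0)) T4.l1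
  (TrL.c (I.pos (nat_lit 0) (nat_lit 0)) T2.l1
  (TrL.c (I.pos (nat_lit 0) (nat_lit 0)) T4.l2
  (TrL.c (I.pos (nat_lit 0) (nat_lit 0)) T2.l2
  (TrL.c (I.pos (nat_lit 0) (nat_lit 0)) T4.l3
  TrL.n)))))) (by decide +kernel)
theorem bx0_8 : BoxOK sI cl4 cl5 cl6 t2 t4 b0_8 :=
  box_mk (TrL.c (I.pos (nat_lit 0) (nat_lit 0)) (xb (xa (xa T2.l0 T2.l0) T2.l0) (xa (xa T2.l0 T2.l0) T2.l0))
  (TrL.c (I.pos (nat_lit 0) (nat_lit 0)) T4.l1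
  (TrL.c (I.pos (nat_lit 0) (nat_lit 0)) T2.l1
  (TrL.c (I.pos (nat_lit 0) (nat_lit 0)) (xb (xa T4.l2 T4.l2) (xa T4.l2 T4.l2))
  (TrL.c (I.pos (nat_lit 0) (nat_lit 0)) T2.l2
  (TrL.c (I.pos (nat_lit 0) (nat_lit 0)) T4.l3
  TrL.n)))))) (by decide +kernel)
theorem sv0 : StarV sI cl4 cl5 cl6 t2 t4 t0 :=
  (bt_n (bt_n (bt_n (bt_b bx0_0) (bt_b bx0_1)) (bt_n (bt_b bx0_2) (bt_b bx0_3))) (bt_n (bt_n (bt_b bx0_4) (bt_b bx0_5)) (bt_n (bt_b bx0_6) (bt_n (bt_b bx0_7) (bt_b bx0_8)))))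
def S0 : StarD := StarD.mk cl4 cl5 cl6 2 4 t0
theorem bx1_0 : BoxOK sI cl4 cl6 cl5 t4 t2 b1_0 :=
  box_mk (TrL.c (I.pos (nat_lit 0) (nat_lit 0)) (xa (xb T4.l0 (xa (xb T4.l0 T4.l0) T4.l0)) (xb (xa T4.l0 T4.l0) (xa T4.l0 T4.l0)))
  (TrL.c (I.pos (nat_lit 0) (nat_lit 0)) (xa T2.l3 T2.l3)
  (TrL.c (I.pos (nat_lit 0) (nat_lit 0)) T4.l4
  (TrL.c (I.pos (nat_lit 0) (nat_lit 0)) (xa T2.l4 (xb (xa T2.l4 (xb T2.l4 T2.l4)) (xa T2.l4 (xs T2.l4 (xb T2.l4 T2.l4)))))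
  (TrL.c (I.pos (nat_lit 0) (nat_lit 0)) T4.l5
  (TrL.c (I.pos (nat_lit 0) (nat_lit 0)) (xa T2.l5 T2.l5)
  TrL.n)))))) (by decide +kernel)
theorem bx1_1 : BoxOK sI cl4 cl6 cl5 t4 t2 b1_1 :=
  box_mk (TrL.c (I.pos (nat_lit 0) (nat_lit 0)) (xa (xa (xb (xa (xb T4.l0 T4.l0) T4.l0) T4.l0) T4.l0) T4.l0)
  (TrL.c (I.pos (nat_lit 0) (nat_lit 0)) T2.l3
  (TrL.c (I.pos (nat_lit 0) (nat_lit 0)) T4.l4
  (TrL.c (I.pos (nat_lit 0) (nat_lit 0)) T2.l4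
  (TrL.c (I.pos (nat_lit 0) (nat_lit 0)) T4.l5
  (TrL.c (I.pos (nat_lit 0) (nat_lit 0)) T2.l5
  TrL.n)))))) (by decide +kernel)
theorem bx1_2 : BoxOK sI cl4 cl6 cl5 t4 t2 b1_2 :=
  box_mk (TrL.c (I.pos (nat_lit 0) (nat_lit 0)) T4.l0
  (TrL.c (I.pos (nat_lit 0) (nat_lit 0)) T2.l3
  (TrL.c (I.pos (nat_lit 0) (nat_lit 0)) T4.l4
  (TrL.c (I.pos (nat_lit 0) (nat_lit 0)) T2.l4
  (TrL.c (I.pos (nat_lit 0) (nat_lit 0)) T4.l5
  (TrL.c (I.pos (nat_lit 0) (nat_lit 0)) T2.l5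
  TrL.n)))))) (by decide +kernel)
theorem bx1_3 : BoxOK sI cl4 cl6 cl5 t4 t2 b1_3 :=
  box_mk (TrL.c (I.pos (nat_lit 0) (nat_lit 0)) T4.l0
  (TrL.c (I.pos (nat_lit 0) (nat_lit 0)) T2.l3
  (TrL.c (I.pos (nat_lit 0) (nat_lit 0)) T4.l4
  (TrL.c (I.pos (nat_lit 0) (nat_lit 0)) T2.l3
  (TrL.c (I.pos (nat_lit 0) (nat_lit 0)) T4.l5
  (TrL.c (I.pos (nat_lit 0) (nat_lit 0)) T2.l5
  TrL.n)))))) (by decide +kernel)
theorem bx1_4 : BoxOK sI cl4 cl6 cl5 t4 t2 b1_4 :=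
  box_mk (TrL.c (I.pos (nat_lit 0) (nat_lit 0)) T4.l0
  (TrL.c (I.pos (nat_lit 0) (nat_lit 0)) T2.l3
  (TrL.c (I.pos (nat_lit 0) (nat_lit 0)) T4.l4
  (TrL.c (I.pos (nat_lit 0) (nat_lit 0)) T2.l4
  (TrL.c (I.pos (nat_lit 0) (nat_lit 0)) T4.l5
  (TrL.c (I.pos (nat_lit 0) (nat_lit 0)) T2.l5
  TrL.n)))))) (by decide +kernel)
theorem bx1_5 : BoxOK sI cl4 cl6 cl5 t4 t2 b1_5 :=
  box_mk (TrL.c (I.pos (nat_lit 0) (nat_lit 0)) T4.l0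
  (TrL.c (I.pos (nat_lit 0) (nat_lit 0)) T2.l3
  (TrL.c (I.pos (nat_lit 0) (nat_lit 0)) T4.l4
  (TrL.c (I.pos (nat_lit 0) (nat_lit 0)) T2.l4
  (TrL.c (I.pos (nat_lit 0) (nat_lit 0)) T4.l5
  (TrL.c (I.pos (nat_lit 0) (nat_lit 0)) T2.l5
  TrL.n)))))) (by decide +kernel)
theorem bx1_6 : BoxOK sI cl4 cl6 cl5 t4 t2 b1_6 :=
  box_mk (TrL.c (I.pos (nat_lit 0) (nat_lit 0)) T4.l0
  (TrL.c (I.pos (nat_lit 0) (nat_lit 0)) T2.l3
  (TrL.c (I.pos (nat_lit 0) (nat_lit 0)) T4.l4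
  (TrL.c (I.pos (nat_lit 0) (nat_lit 0)) T2.l3
  (TrL.c (I.pos (nat_lit 0) (nat_lit 0)) T4.l5
  (TrL.c (I.pos (nat_lit 0) (nat_lit 0)) T2.l5
  TrL.n)))))) (by decide +kernel)
theorem bx1_7 : BoxOK sI cl4 cl6 cl5 t4 t2 b1_7 :=
  box_mk (TrL.c (I.pos (nat_lit 0) (nat_lit 0)) (xb (xa (xb T4.l0 T4.l0) T4.l0) (xa (xb T4.l0 (xs T4.l0 T4.l0)) (xa T4.l0 T4.l0)))
  (TrL.c (I.pos (nat_lit 0) (nat_lit 0)) (xb T2.l3 T2.l3)
  (TrL.c (I.pos (nat_lit 0) (nat_lit 0)) T4.l4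
  (TrL.c (I.pos (nat_lit 0) (nat_lit 0)) (xb T2.l4 (xa T2.l4 T2.l4))
  (TrL.c (I.pos (nat_lit 0) (nat_lit 0)) T4.l5
  (TrL.c (I.pos (nat_lit 0) (nat_lit 0)) (xb T2.l5 T2.l5)
  TrL.n)))))) (by decide +kernel)
theorem bx1_8 : BoxOK sI cl4 cl6 cl5 t4 t2 b1_8 :=
  box_mk (TrL.c (I.pos (nat_lit 0) (nat_lit 0)) T4.l0
  (TrL.c (I.pos (nat_lit 0) (nat_lit 0)) T2.l3
  (TrL.c (I.pos (nat_lit 0) (nat_lit 0)) T4.l4
  (TrL.c (I.pos (nat_lit 0) (nat_lit 0)) T2.l4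
  (TrL.c (I.pos (nat_lit 0) (nat_lit 0)) T4.l5
  (TrL.c (I.pos (nat_lit 0) (nat_lit 0)) T2.l5
  TrL.n)))))) (by decide +kernel)
theorem bx1_9 : BoxOK sI cl4 cl6 cl5 t4 t2 b1_9 :=
  box_mk (TrL.c (I.pos (nat_lit 0) (nat_lit 0)) T4.l0
  (TrL.c (I.pos (nat_lit 0) (nat_lit 0)) T2.l3
  (TrL.c (I.pos (nat_lit 0) (nat_lit 0)) T4.l4
  (TrL.c (I.pos (nat_lit 0) (nat_lit 0)) T2.l4
  (TrL.c (I.pos (nat_lit 0) (nat_lit 0)) T4.l5
  (TrL.c (I.pos (nat_lit 0) (nat_lit 0)) T2.l5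
  TrL.n)))))) (by decide +kernel)
theorem bx1_10 : BoxOK sI cl4 cl6 cl5 t4 t2 b1_10 :=
  box_mk (TrL.c (I.pos (nat_lit 0) (nat_lit 0)) T4.l0
  (TrL.c (I.pos (nat_lit 0) (nat_lit 0)) T2.l3
  (TrL.c (I.pos (nat_lit 0) (nat_lit 0)) T4.l4
  (TrL.c (I.pos (nat_lit 0) (nat_lit 0)) T2.l4
  (TrL.c (I.pos (nat_lit 0) (nat_lit 0)) T4.l5
  (TrL.c (I.pos (nat_lit 0) (nat_lit 0)) T2.l5
  TrL.n)))))) (by decide +kernel)
theorem bx1_11 : BoxOK sI cl4 cl6 cl5 t4 t2 b1_11 :=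
  box_mk (TrL.c (I.pos (nat_lit 0) (nat_lit 0)) T4.l0
  (TrL.c (I.pos (nat_lit 0) (nat_lit 0)) T2.l3
  (TrL.c (I.pos (nat_lit 0) (nat_lit 0)) T4.l4
  (TrL.c (I.pos (nat_lit 0) (nat_lit 0)) T2.l4
  (TrL.c (I.pos (nat_lit 0) (nat_lit 0)) T4.l5
  (TrL.c (I.pos (nat_lit 0) (nat_lit 0)) T2.l5
  TrL.n)))))) (by decide +kernel)
theorem sv1 : StarV sI cl4 cl6 cl5 t4 t2 t1 :=
  (bt_n (bt_n (bt_n (bt_b bx1_0) (bt_n (bt_b bx1_1) (bt_b bx1_2))) (bt_n (bt_b bx1_3) (bt_n (bt_b bx1_4) (bt_b bx1_5)))) (bt_n (bt_n (bt_b bx1_6) (bt_n (bt_b bx1_7) (bt_b bx1_8))) (bt_n (bt_b bx1_9) (bt_n (bt_b bx1_10) (bt_b bx1_11)))))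
def S1 : StarD := StarD.mk cl4 cl6 cl5 4 2 t1
theorem bx2_0 : BoxOK sI cl5 cl4 cl6 t0 t5 b2_0 :=
  box_mk (TrL.c (I.pos (nat_lit 0) (nat_lit 0)) (xa (xb T0.l0 (xa T0.l0 T0.l0)) (xb T0.l0 (xa T0.l0 T0.l0)))
  (TrL.c (I.pos (nat_lit 0) (nat_lit 0)) T5.l1
  (TrL.c (I.pos (nat_lit 0) (nat_lit 0)) T0.l1
  (TrL.c (I.pos (nat_lit 0) (nat_lit 0)) T5.l2
  (TrL.c (I.pos (nat_lit 0) (nat_lit 0)) (xa T5.l3 (xb (xa T5.l3 T5.l3) (xa T5.l3 T5.l3)))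
  (TrL.c (I.pos (nat_lit 0) (nat_lit 0)) T0.l2
  (TrL.c (I.pos (nat_lit 0) (nat_lit 0)) T5.l4
  (TrL.c (I.pos (nat_lit 0) (nat_lit 0)) T0.l3
  TrL.n)))))))) (by decide +kernel)
theorem bx2_1 : BoxOK sI cl5 cl4 cl6 t0 t5 b2_1 :=
  box_mk (TrL.c (I.pos (nat_lit 0) (nat_lit 0)) T5.l1
  (TrL.c (I.pos (nat_lit 0) (nat_lit 0)) T0.l1
  (TrL.c (I.pos (nat_lit 0) (nat_lit 0)) T5.l6
  TrL.n))) (by decide +kernel)
theorem bx2_2 : BoxOK sI cl5 cl4 cl6 t0 t5 b2_2 :=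
  box_mk (TrL.c (I.pos (nat_lit 0) (nat_lit 0)) (xb (xa (xs T0.l0 (xb (xa T0.l0 T0.l0) T0.l0)) T0.l0) T0.l0)
  (TrL.c (I.pos (nat_lit 0) (nat_lit 0)) T5.l1
  (TrL.c (I.pos (nat_lit 0) (nat_lit 0)) T0.l1
  (TrL.c (I.pos (nat_lit 0) (nat_lit 0)) T5.l6
  (TrL.c (I.pos (nat_lit 0) (nat_lit 0)) T5.l3
  (TrL.c (I.pos (nat_lit 0) (nat_lit 0)) T0.l2
  (TrL.c (I.pos (nat_lit 0) (nat_lit 0)) T5.l4
  (TrL.c (I.pos (nat_lit 0) (nat_lit 0)) T0.l3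
  TrL.n)))))))) (by decide +kernel)
theorem bx2_3 : BoxOK sI cl5 cl4 cl6 t0 t5 b2_3 :=
  box_mk (TrL.c (I.pos (nat_lit 0) (nat_lit 0)) (xa (xb (xa (xs T0.l0 (xb T0.l0 T0.l0)) T0.l0) T0.l0) T0.l0)
  (TrL.c (I.pos (nat_lit 0) (nat_lit 0)) T5.l1
  (TrL.c (I.pos (nat_lit 0) (nat_lit 0)) T0.l1
  (TrL.c (I.pos (nat_lit 0) (nat_lit 0)) T5.l2
  (TrL.c (I.pos (nat_lit 0) (nat_lit 0)) (xa T5.l3 T5.l0)
  (TrL.c (I.pos (nat_lit 0) (nat_lit 0)) T0.l2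
  (TrL.c (I.pos (nat_lit 0) (nat_lit 0)) T5.l4
  (TrL.c (I.pos (nat_lit 0) (nat_lit 0)) T0.l3
  TrL.n)))))))) (by decide +kernel)
theorem bx2_4 : BoxOK sI cl5 cl4 cl6 t0 t5 b2_4 :=
  box_mk (TrL.c (I.pos (nat_lit 0) (nat_lit 0)) (xa (xb (xa T0.l0 T0.l0) (xa (xb T0.l0 T0.l0) T0.l0)) (xb T0.l0 (xa T0.l0 T0.l0)))
  (TrL.c (I.pos (nat_lit 0) (nat_lit 0)) T5.l1
  (TrL.c (I.pos (nat_lit 0) (nat_lit 0)) T0.l1
  (TrL.c (I.pos (nat_lit 0) (nat_lit 0)) T5.l2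
  (TrL.c (I.pos (nat_lit 0) (nat_lit 0)) (xb (xa T5.l3 T5.l3) T5.l3)
  (TrL.c (I.pos (nat_lit 0) (nat_lit 0)) T0.l2
  (TrL.c (I.pos (nat_lit 0) (nat_lit 0)) T5.l4
  (TrL.c (I.pos (nat_lit 0) (nat_lit 0)) T0.l3
  TrL.n)))))))) (by decide +kernel)
theorem bx2_5 : BoxOK sI cl5 cl4 cl6 t0 t5 b2_5 :=
  box_mk (TrL.c (I.pos (nat_lit 0) (nat_lit 0)) T5.l1
  (TrL.c (I.pos (nat_lit 0) (nat_lit 0)) T0.l1
  (TrL.c (I.pos (nat_lit 0) (nat_lit 0)) T5.l2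
  TrL.n))) (by decide +kernel)
theorem bx2_6 : BoxOK sI cl5 cl4 cl6 t0 t5 b2_6 :=
  box_mk (TrL.c (I.pos (nat_lit 0) (nat_lit 0)) T5.l5
  (TrL.c (I.pos (nat_lit 0) (nat_lit 0)) T0.l4
  (TrL.c (I.pos (nat_lit 0) (nat_lit 0)) T5.l6
  TrL.n))) (by decide +kernel)
theorem sv2 : StarV sI cl5 cl4 cl6 t0 t5 t2 :=
  (bt_n (bt_n (bt_b bx2_0) (bt_n (bt_b bx2_1) (bt_b bx2_2))) (bt_n (bt_n (bt_b bx2_3) (bt_b bx2_4)) (bt_n (bt_b bx2_5) (bt_b bx2_6))))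
def S2 : StarD := StarD.mk cl5 cl4 cl6 0 5 t2
theorem bx3_0 : BoxOK sI cl5 cl6 cl4 t5 t0 b3_0 :=
  box_mk (TrL.c (I.pos (nat_lit 0) (nat_lit 0)) (xa (xa T5.l0 T5.l0) (xa (xb T5.l0 T5.l0) (xb T5.l0 T5.l0)))
  (TrL.c (I.pos (nat_lit 0) (nat_lit 0)) T0.l5
  (TrL.c (I.pos (nat_lit 0) (nat_lit 0)) T5.l7
  (TrL.c (I.pos (nat_lit 0) (nat_lit 0)) T0.l6
  (TrL.c (I.pos (nat_lit 0) (nat_lit 0)) (xa T0.l8 (xb T0.l8 T0.l8))
  (TrL.c (I.pos (nat_lit 0) (nat_lit 0)) T5.l8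
  (TrL.c (I.pos (nat_lit 0) (nat_lit 0)) T0.l7
  (TrL.c (I.pos (nat_lit 0) (nat_lit 0)) T5.l9
  TrL.n)))))))) (by decide +kernel)
theorem bx3_1 : BoxOK sI cl5 cl6 cl4 t5 t0 b3_1 :=
  box_mk (TrL.c (I.pos (nat_lit 0) (nat_lit 0)) T5.l0
  (TrL.c (I.pos (nat_lit 0) (nat_lit 0)) T0.l5
  (TrL.c (I.pos (nat_lit 0) (nat_lit 0)) T5.l7
  (TrL.c (I.pos (nat_lit 0) (nat_lit 0)) T0.l6
  (TrL.c (I.pos (nat_lit 0) (nat_lit 0)) T0.l8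
  (TrL.c (I.pos (nat_lit 0) (nat_lit 0)) T5.l8
  (TrL.c (I.pos (nat_lit 0) (nat_lit 0)) T0.l7
  (TrL.c (I.pos (nat_lit 0) (nat_lit 0)) T5.l9
  TrL.n)))))))) (by decide +kernel)
theorem bx3_2 : BoxOK sI cl5 cl6 cl4 t5 t0 b3_2 :=
  box_mk (TrL.c (I.pos (nat_lit 0) (nat_lit 0)) T5.l0
  (TrL.c (I.pos (nat_lit 0) (nat_lit 0)) T0.l5
  (TrL.c (I.pos (nat_lit 0) (nat_lit 0)) T5.l7
  (TrL.c (I.pos (nat_lit 0) (nat_lit 0)) T0.l6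
  (TrL.c (I.pos (nat_lit 0) (nat_lit 0)) T0.l5
  (TrL.c (I.pos (nat_lit 0) (nat_lit 0)) T5.l8
  (TrL.c (I.pos (nat_lit 0) (nat_lit 0)) T0.l7
  (TrL.c (I.pos (nat_lit 0) (nat_lit 0)) T5.l9
  TrL.n)))))))) (by decide +kernel)
theorem bx3_3 : BoxOK sI cl5 cl6 cl4 t5 t0 b3_3 :=
  box_mk (TrL.c (I.pos (nat_lit 0) (nat_lit 0)) (xb (xa (xb T5.l0 T5.l0) (xb T5.l0 T5.l0)) (xa (xs T5.l0 (xb T5.l0 (xa T5.l0 T5.l0))) (xs T5.l0 (xb T5.l0 T5.l0))))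
  (TrL.c (I.pos (nat_lit 0) (nat_lit 0)) T0.l5
  (TrL.c (I.pos (nat_lit 0) (nat_lit 0)) T5.l7
  (TrL.c (I.pos (nat_lit 0) (nat_lit 0)) T0.l6
  (TrL.c (I.pos (nat_lit 0) (nat_lit 0)) (xb T0.l8 T0.l8)
  (TrL.c (I.pos (nat_lit 0) (nat_lit 0)) T5.l8
  (TrL.c (I.pos (nat_lit 0) (nat_lit 0)) T0.l7
  (TrL.c (I.pos (nat_lit 0) (nat_lit 0)) T5.l9
  TrL.n)))))))) (by decide +kernel)
theorem bx3_4 : BoxOK sI cl5 cl6 cl4 t5 t0 b3_4 :=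
  box_mk (TrL.c (I.pos (nat_lit 0) (nat_lit 0)) (xa T5.l0 T5.l0)
  (TrL.c (I.pos (nat_lit 0) (nat_lit 0)) (xa T0.l5 T0.l5)
  (TrL.c (I.pos (nat_lit 0) (nat_lit 0)) T5.l7
  (TrL.c (I.pos (nat_lit 0) (nat_lit 0)) T0.l6
  (TrL.c (I.pos (nat_lit 0) (nat_lit 0)) (xa T0.l5 T0.l8)
  (TrL.c (I.pos (nat_lit 0) (nat_lit 0)) T5.l8
  (TrL.c (I.pos (nat_lit 0) (nat_lit 0)) T0.l7
  (TrL.c (I.pos (nat_lit 0) (nat_lit 0)) T5.l9
  TrL.n)))))))) (by decide +kernel)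
theorem bx3_5 : BoxOK sI cl5 cl6 cl4 t5 t0 b3_5 :=
  box_mk (TrL.c (I.pos (nat_lit 0) (nat_lit 0)) T5.l0
  (TrL.c (I.pos (nat_lit 0) (nat_lit 0)) T0.l5
  (TrL.c (I.pos (nat_lit 0) (nat_lit 0)) T5.l7
  (TrL.c (I.pos (nat_lit 0) (nat_lit 0)) T0.l6
  (TrL.c (I.pos (nat_lit 0) (nat_lit 0)) T0.l5
  (TrL.c (I.pos (nat_lit 0) (nat_lit 0)) T5.l8
  (TrL.c (I.pos (nat_lit 0) (nat_lit 0)) T0.l7
  (TrL.c (I.pos (nat_lit 0) (nat_lit 0)) T5.l9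
  TrL.n)))))))) (by decide +kernel)
theorem bx3_6 : BoxOK sI cl5 cl6 cl4 t5 t0 b3_6 :=
  box_mk (TrL.c (I.pos (nat_lit 0) (nat_lit 0)) (xa T5.l0 T5.l0)
  (TrL.c (I.pos (nat_lit 0) (nat_lit 0)) (xa T0.l5 T0.l5)
  (TrL.c (I.pos (nat_lit 0) (nat_lit 0)) T5.l7
  (TrL.c (I.pos (nat_lit 0) (nat_lit 0)) T0.l6
  (TrL.c (I.pos (nat_lit 0) (nat_lit 0)) (xa T0.l8 T0.l8)
  (TrL.c (I.pos (nat_lit 0) (nat_lit 0)) T5.l8
  (TrL.c (I.pos (nat_lit 0) (nat_lit 0)) T0.l7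
  (TrL.c (I.pos (nat_lit 0) (nat_lit 0)) T5.l9
  TrL.n)))))))) (by decide +kernel)
theorem bx3_7 : BoxOK sI cl5 cl6 cl4 t5 t0 b3_7 :=
  box_mk (TrL.c (I.pos (nat_lit 0) (nat_lit 0)) T5.l0
  (TrL.c (I.pos (nat_lit 0) (nat_lit 0)) T0.l5
  (TrL.c (I.pos (nat_lit 0) (nat_lit 0)) T5.l7
  (TrL.c (I.pos (nat_lit 0) (nat_lit 0)) T0.l6
  (TrL.c (I.pos (nat_lit 0) (nat_lit 0)) T0.l8
  (TrL.c (I.pos (nat_lit 0) (nat_lit 0)) T5.l8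
  (TrL.c (I.pos (nat_lit 0) (nat_lit 0)) T0.l7
  (TrL.c (I.pos (nat_lit 0) (nat_lit 0)) T5.l9
  TrL.n)))))))) (by decide +kernel)
theorem bx3_8 : BoxOK sI cl5 cl6 cl4 t5 t0 b3_8 :=
  box_mk (TrL.c (I.pos (nat_lit 0) (nat_lit 0)) T5.l0
  (TrL.c (I.pos (nat_lit 0) (nat_lit 0)) T0.l8
  (TrL.c (I.pos (nat_lit 0) (nat_lit 0)) T5.l7
  (TrL.c (I.pos (nat_lit 0) (nat_lit 0)) T0.l6
  (TrL.c (I.pos (nat_lit 0) (nat_lit 0)) T0.l5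
  (TrL.c (I.pos (nat_lit 0) (nat_lit 0)) T5.l8
  (TrL.c (I.pos (nat_lit 0) (nat_lit 0)) T0.l7
  (TrL.c (I.pos (nat_lit 0) (nat_lit 0)) T5.l9
  TrL.n)))))))) (by decide +kernel)
theorem bx3_9 : BoxOK sI cl5 cl6 cl4 t5 t0 b3_9 :=
  box_mk (TrL.c (I.pos (nat_lit 0) (nat_lit 0)) T5.l0
  (TrL.c (I.pos (nat_lit 0) (nat_lit 0)) T0.l5
  (TrL.c (I.pos (nat_lit 0) (nat_lit 0)) T5.l7
  (TrL.c (I.pos (nat_lit 0) (nat_lit 0)) T0.l6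
  (TrL.c (I.pos (nat_lit 0) (nat_lit 0)) T0.l8
  (TrL.c (I.pos (nat_lit 0) (nat_lit 0)) T5.l8
  (TrL.c (I.pos (nat_lit 0) (nat_lit 0)) T0.l7
  (TrL.c (I.pos (nat_lit 0) (nat_lit 0)) T5.l9
  TrL.n)))))))) (by decide +kernel)
theorem bx3_10 : BoxOK sI cl5 cl6 cl4 t5 t0 b3_10 :=
  box_mk (TrL.c (I.pos (nat_lit 0) (nat_lit 0)) T5.l0
  (TrL.c (I.pos (nat_lit 0) (nat_lit 0)) T0.l5
  (TrL.c (I.pos (nat_lit 0) (nat_lit 0)) T5.l7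
  (TrL.c (I.pos (nat_lit 0) (nat_lit 0)) T0.l6
  (TrL.c (I.pos (nat_lit 0) (nat_lit 0)) T0.l8
  (TrL.c (I.pos (nat_lit 0) (nat_lit 0)) T5.l8
  (TrL.c (I.pos (nat_lit 0) (nat_lit 0)) T0.l7
  (TrL.c (I.pos (nat_lit 0) (nat_lit 0)) T5.l9
  TrL.n)))))))) (by decide +kernel)
theorem bx3_11 : BoxOK sI cl5 cl6 cl4 t5 t0 b3_11 :=
  box_mk (TrL.c (I.pos (nat_lit 0) (nat_lit 0)) T5.l0
  (TrL.c (I.pos (nat_lit 0) (nat_lit 0)) T0.l5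
  (TrL.c (I.pos (nat_lit 0) (nat_lit 0)) T5.l7
  (TrL.c (I.pos (nat_lit 0) (nat_lit 0)) T0.l6
  (TrL.c (I.pos (nat_lit 0) (nat_lit 0)) T0.l8
  (TrL.c (I.pos (nat_lit 0) (nat_lit 0)) T5.l8
  (TrL.c (I.pos (nat_lit 0) (nat_lit 0)) T0.l7
  (TrL.c (I.pos (nat_lit 0) (nat_lit 0)) T5.l9
  TrL.n)))))))) (by decide +kernel)
theorem sv3 : StarV sI cl5 cl6 cl4 t5 t0 t3 :=
  (bt_n (bt_n (bt_n (bt_b bx3_0) (bt_n (bt_b bx3_1) (bt_b bx3_2))) (bt_n (bt_b bx3_3) (bt_n (bt_b bx3_4) (bt_b bx3_5)))) (bt_n (bt_n (bt_b bx3_6) (bt_n (bt_b bx3_7) (bt_b bx3_8))) (bt_n (bt_b bx3_9) (bt_n (bt_b bx3_10) (bt_b bx3_11)))))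
def S3 : StarD := StarD.mk cl5 cl6 cl4 5 0 t3
theorem bx4_0 : BoxOK sI cl6 cl4 cl5 t1 t3 b4_0 :=
  box_mk (TrL.c (I.pos (nat_lit 0) (nat_lit 0)) (xa (xb (xa T1.l0 T1.l0) (xa (xb T1.l0 T1.l0) (xs T1.l0 T1.l0))) (xb (xa T1.l0 T1.l0) (xa (xs T1.l0 T1.l0) T1.l0)))
  (TrL.c (I.pos (nat_lit 0) (nat_lit 0)) T3.l1
  (TrL.c (I.pos (nat_lit 0) (nat_lit 89480386)) T1.l1
  (TrL.c (I.pos (nat_lit 0) (nat_lit 41530880)) T3.l2
  (TrL.c (I.pos (nat_lit 0) (nat_lit 0)) (xa (xb T3.l3 T3.l3) (xb (xa T3.l3 T3.l3) (xa T3.l3 (xs T3.l3 (xb T3.l3 T3.l3)))))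
  (TrL.c (I.pos (nat_lit 0) (nat_lit 0)) T1.l2
  (TrL.c (I.mix (nat_lit 41527258) (nat_lit 41530880)) T3.l4
  (TrL.c (I.mix (nat_lit 41527258) (nat_lit 4274)) T1.l3
  TrL.n)))))))) (by decide +kernel)
theorem bx4_1 : BoxOK sI cl6 cl4 cl5 t1 t3 b4_1 :=
  box_mk (TrL.c (I.pos (nat_lit 0) (nat_lit 0)) T1.l0
  (TrL.c (I.pos (nat_lit 0) (nat_lit 0)) T3.l1
  (TrL.c (I.pos (nat_lit 0) (nat_lit 89480386)) T1.l1
  (TrL.c (I.pos (nat_lit 0) (nat_lit 41530880)) T3.l2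
  (TrL.c (I.pos (nat_lit 0) (nat_lit 0)) T3.l3
  (TrL.c (I.pos (nat_lit 0) (nat_lit 0)) T1.l2
  (TrL.c (I.mix (nat_lit 41527258) (nat_lit 41530880)) T3.l4
  (TrL.c (I.mix (nat_lit 41527258) (nat_lit 4274)) T1.l3
  TrL.n)))))))) (by decide +kernel)
theorem bx4_2 : BoxOK sI cl6 cl4 cl5 t1 t3 b4_2 :=
  box_mk (TrL.c (I.pos (nat_lit 0) (nat_lit 0)) (xa (xb (xb T1.l0 T1.l0) (xb T1.l0 T1.l0)) (xb T1.l0 (xs T1.l0 (xa T1.l0 T1.l0))))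
  (TrL.c (I.pos (nat_lit 0) (nat_lit 0)) T3.l1
  (TrL.c (I.pos (nat_lit 0) (nat_lit 89480386)) T1.l1
  (TrL.c (I.pos (nat_lit 0) (nat_lit 41530880)) T3.l2
  (TrL.c (I.pos (nat_lit 0) (nat_lit 0)) T3.l3
  (TrL.c (I.pos (nat_lit 0) (nat_lit 0)) T1.l2
  (TrL.c (I.mix (nat_lit 41527258) (nat_lit 41530880)) T3.l4
  (TrL.c (I.mix (nat_lit 41527258) (nat_lit 4274)) T1.l3
  TrL.n)))))))) (by decide +kernel)
theorem bx4_3 : BoxOK sI cl6 cl4 cl5 t1 t3 b4_3 :=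
  box_mk (TrL.c (I.pos (nat_lit 0) (nat_lit 0)) T3.l1
  (TrL.c (I.pos (nat_lit 0) (nat_lit 0)) T1.l1
  (TrL.c (I.mix (nat_lit 41527258) (nat_lit 41530880)) T3.l5
  (TrL.c (I.mix (nat_lit 41527258) (nat_lit 4274)) T1.l4
  TrL.n)))) (by decide +kernel)
theorem bx4_4 : BoxOK sI cl6 cl4 cl5 t1 t3 b4_4 :=
  box_mk (TrL.c (I.pos (nat_lit 0) (nat_lit 0)) T3.l11
  (TrL.c (I.pos (nat_lit 0) (nat_lit 0)) T1.l1
  (TrL.c (I.mix (nat_lit 41527258) (nat_lit 41530880)) T3.l4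
  (TrL.c (I.mix (nat_lit 41527258) (nat_lit 4274)) T1.l4
  TrL.n)))) (by decide +kernel)
theorem bx4_5 : BoxOK sI cl6 cl4 cl5 t1 t3 b4_5 :=
  box_mk (TrL.c (I.pos (nat_lit 0) (nat_lit 0)) (xb (xa (xa (xb (xs T1.l0 T1.l0) T1.l0) T1.l0) T1.l0) (xa T1.l0 T1.l0))
  (TrL.c (I.pos (nat_lit 0) (nat_lit 0)) T3.l11
  (TrL.c (I.pos (nat_lit 0) (nat_lit 89480386)) T1.l1
  (TrL.c (I.pos (nat_lit 0) (nat_lit 41530880)) T3.l4
  (TrL.c (I.pos (nat_lit 0) (nat_lit 0)) T3.l3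
  (TrL.c (I.pos (nat_lit 0) (nat_lit 0)) T1.l2
  (TrL.c (I.mix (nat_lit 41527258) (nat_lit 41530880)) T3.l4
  (TrL.c (I.mix (nat_lit 41527258) (nat_lit 4274)) T1.l3
  TrL.n)))))))) (by decide +kernel)
theorem bx4_6 : BoxOK sI cl6 cl4 cl5 t1 t3 b4_6 :=
  box_mk (TrL.c (I.pos (nat_lit 0) (nat_lit 0)) T1.l0
  (TrL.c (I.pos (nat_lit 0) (nat_lit 0)) T3.l1
  (TrL.c (I.pos (nat_lit 0) (nat_lit 89480386)) T1.l1
  (TrL.c (I.pos (nat_lit 0) (nat_lit 41530880)) T3.l2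
  (TrL.c (I.pos (nat_lit 0) (nat_lit 0)) T3.l3
  (TrL.c (I.pos (nat_lit 0) (nat_lit 0)) T1.l2
  (TrL.c (I.mix (nat_lit 41527258) (nat_lit 41530880)) T3.l4
  (TrL.c (I.mix (nat_lit 41527258) (nat_lit 4274)) T1.l3
  TrL.n)))))))) (by decide +kernel)
theorem sv4 : StarV sI cl6 cl4 cl5 t1 t3 t4 :=
  (bt_n (bt_n (bt_b bx4_0) (bt_n (bt_b bx4_1) (bt_b bx4_2))) (bt_n (bt_n (bt_b bx4_3) (bt_b bx4_4)) (bt_n (bt_b bx4_5) (bt_b bx4_6))))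
def S4 : StarD := StarD.mk cl6 cl4 cl5 1 3 t4
theorem bx5_0 : BoxOK sI cl6 cl5 cl4 t3 t1 b5_0 :=
  box_mk (TrL.c (I.pos (nat_lit 0) (nat_lit 0)) (xa (xa (xb T3.l0 (xs T3.l0 (xb T3.l0 T3.l0))) (xb T3.l0 (xs T3.l0 (xb T3.l0 T3.l0)))) (xa (xb T3.l3 (xs T3.l0 T3.l3)) T3.l3))
  (TrL.c (I.pos (nat_lit 0) (nat_lit 0)) T1.l5
  (TrL.c (I.pos (nat_lit 0) (nat_lit 89480386)) T3.l6
  (TrL.c (I.pos (nat_lit 0) (nat_lit 41530880)) T1.l6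
  (TrL.c (I.pos (nat_lit 0) (nat_lit 0)) (xa (xb T1.l7 T1.l7) (xb (xa T1.l7 T1.l7) (xa T1.l7 T1.l7)))
  (TrL.c (I.pos (nat_lit 0) (nat_lit 0)) T3.l7
  (TrL.c (I.mix (nat_lit 41527258) (nat_lit 41530880)) T1.l1
  (TrL.c (I.mix (nat_lit 41527258) (nat_lit 4274)) T3.l8
  TrL.n)))))))) (by decide +kernel)
theorem bx5_1 : BoxOK sI cl6 cl5 cl4 t3 t1 b5_1 :=
  box_mk (TrL.c (I.pos (nat_lit 0) (nat_lit 0)) T3.l0
  (TrL.c (I.pos (nat_lit 0) (nat_lit 0)) T1.l5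
  (TrL.c (I.pos (nat_lit 0) (nat_lit 89480386)) T3.l6
  (TrL.c (I.pos (nat_lit 0) (nat_lit 41530880)) T1.l6
  (TrL.c (I.pos (nat_lit 0) (nat_lit 0)) T1.l7
  (TrL.c (I.pos (nat_lit 0) (nat_lit 0)) T3.l7
  (TrL.c (I.mix (nat_lit 41527258) (nat_lit 41530880)) T1.l8
  (TrL.c (I.mix (nat_lit 41527258) (nat_lit 4274)) T3.l8
  TrL.n)))))))) (by decide +kernel)
theorem bx5_2 : BoxOK sI cl6 cl5 cl4 t3 t1 b5_2 :=
  box_mk (TrL.c (I.pos (nat_lit 0) (nat_lit 0)) T1.l5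
  (TrL.c (I.pos (nat_lit 0) (nat_lit 0)) T3.l6
  (TrL.c (I.mix (nat_lit 41527258) (nat_lit 41530880)) T1.l10
  (TrL.c (I.mix (nat_lit 41527258) (nat_lit 4274)) T3.l10
  TrL.n)))) (by decide +kernel)
theorem bx5_3 : BoxOK sI cl6 cl5 cl4 t3 t1 b5_3 :=
  box_mk (TrL.c (I.pos (nat_lit 0) (nat_lit 0)) (xb (xa T3.l0 T3.l0) (xa (xs T3.l0 (xb T3.l0 T3.l0)) (xs T3.l0 (xb T3.l0 T3.l0))))
  (TrL.c (I.pos (nat_lit 0) (nat_lit 0)) T1.l5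
  (TrL.c (I.pos (nat_lit 0) (nat_lit 89480386)) T3.l6
  (TrL.c (I.pos (nat_lit 0) (nat_lit 41530880)) T1.l6
  (TrL.c (I.pos (nat_lit 0) (nat_lit 0)) (xb T1.l7 T1.l7)
  (TrL.c (I.pos (nat_lit 0) (nat_lit 0)) T3.l7
  (TrL.c (I.mix (nat_lit 41527258) (nat_lit 41530880)) T1.l1
  (TrL.c (I.mix (nat_lit 41527258) (nat_lit 4274)) T3.l8
  TrL.n)))))))) (by decide +kernel)
theorem bx5_4 : BoxOK sI cl6 cl5 cl4 t3 t1 b5_4 :=
  box_mk (TrL.c (I.pos (nat_lit 0) (nat_lit 0)) T3.l0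
  (TrL.c (I.pos (nat_lit 0) (nat_lit 0)) T1.l5
  (TrL.c (I.pos (nat_lit 0) (nat_lit 89480386)) T3.l6
  (TrL.c (I.pos (nat_lit 0) (nat_lit 41530880)) T1.l6
  (TrL.c (I.pos (nat_lit 0) (nat_lit 0)) T1.l7
  (TrL.c (I.pos (nat_lit 0) (nat_lit 0)) T3.l7
  (TrL.c (I.mix (nat_lit 41527258) (nat_lit 41530880)) T1.l8
  (TrL.c (I.mix (nat_lit 41527258) (nat_lit 4274)) T3.l8
  TrL.n)))))))) (by decide +kernel)
theorem bx5_5 : BoxOK sI cl6 cl5 cl4 t3 t1 b5_5 :=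
  box_mk (TrL.c (I.pos (nat_lit 0) (nat_lit 0)) T3.l0
  (TrL.c (I.pos (nat_lit 0) (nat_lit 0)) T1.l5
  (TrL.c (I.pos (nat_lit 0) (nat_lit 89480386)) T3.l6
  (TrL.c (I.pos (nat_lit 0) (nat_lit 41530880)) T1.l6
  (TrL.c (I.pos (nat_lit 0) (nat_lit 0)) T1.l7
  (TrL.c (I.pos (nat_lit 0) (nat_lit 0)) T3.l7
  (TrL.c (I.mix (nat_lit 41527258) (nat_lit 41530880)) T1.l8
  (TrL.c (I.mix (nat_lit 41527258) (nat_lit 4274)) T3.l8
  TrL.n)))))))) (by decide +kernel)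
theorem bx5_6 : BoxOK sI cl6 cl5 cl4 t3 t1 b5_6 :=
  box_mk (TrL.c (I.pos (nat_lit 0) (nat_lit 0)) T1.l5
  (TrL.c (I.pos (nat_lit 0) (nat_lit 0)) T3.l6
  (TrL.c (I.mix (nat_lit 41527258) (nat_lit 41530880)) T1.l10
  (TrL.c (I.mix (nat_lit 41527258) (nat_lit 4274)) T3.l10
  TrL.n)))) (by decide +kernel)
theorem bx5_7 : BoxOK sI cl6 cl5 cl4 t3 t1 b5_7 :=
  box_mk (TrL.c (I.pos (nat_lit 0) (nat_lit 0)) T3.l0
  (TrL.c (I.pos (nat_lit 0) (nat_lit 0)) T1.l5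
  (TrL.c (I.pos (nat_lit 0) (nat_lit 89480386)) T3.l6
  (TrL.c (I.pos (nat_lit 0) (nat_lit 41530880)) T1.l6
  (TrL.c (I.pos (nat_lit 0) (nat_lit 0)) T1.l7
  (TrL.c (I.pos (nat_lit 0) (nat_lit 0)) T3.l7
  (TrL.c (I.mix (nat_lit 41527258) (nat_lit 41530880)) T1.l8
  (TrL.c (I.mix (nat_lit 41527258) (nat_lit 4274)) T3.l8
  TrL.n)))))))) (by decide +kernel)
theorem bx5_8 : BoxOK sI cl6 cl5 cl4 t3 t1 b5_8 :=
  box_mk (TrL.c (I.pos (nat_lit 0) (nat_lit 0)) (xb T3.l0 T3.l0)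
  (TrL.c (I.pos (nat_lit 0) (nat_lit 0)) T1.l5
  (TrL.c (I.pos (nat_lit 0) (nat_lit 89480386)) T3.l6
  (TrL.c (I.pos (nat_lit 0) (nat_lit 41530880)) T1.l1
  (TrL.c (I.pos (nat_lit 0) (nat_lit 0)) T1.l7
  (TrL.c (I.pos (nat_lit 0) (nat_lit 0)) T3.l7
  (TrL.c (I.mix (nat_lit 41527258) (nat_lit 41530880)) T1.l8
  (TrL.c (I.mix (nat_lit 41527258) (nat_lit 4274)) T3.l4
  TrL.n)))))))) (by decide +kernel)
theorem bx5_9 : BoxOK sI cl6 cl5 cl4 t3 t1 b5_9 :=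
  box_mk (TrL.c (I.pos (nat_lit 0) (nat_lit 0)) T1.l5
  (TrL.c (I.pos (nat_lit 0) (nat_lit 0)) T3.l6
  (TrL.c (I.mix (nat_lit 41527258) (nat_lit 41530880)) T1.l10
  (TrL.c (I.mix (nat_lit 41527258) (nat_lit 4274)) T3.l4
  TrL.n)))) (by decide +kernel)
theorem sv5 : StarV sI cl6 cl5 cl4 t3 t1 t5 :=
  (bt_n (bt_n (bt_n (bt_b bx5_0) (bt_b bx5_1)) (bt_n (bt_b bx5_2) (bt_n (bt_b bx5_3) (bt_b bx5_4)))) (bt_n (bt_n (bt_b bx5_5) (bt_b bx5_6)) (bt_n (bt_b bx5_7) (bt_n (bt_b bx5_8) (bt_b bx5_9)))))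
def S5 : StarD := StarD.mk cl6 cl5 cl4 3 1 t5
def G : List StarD := [S0, S1, S2, S3, S4, S5]
theorem so0 : StarOK sI G S0 :=
  star_mk (by decide) (by decide) rfl rfl rfl rfl rfl rfl (rfl : _ = t2) (rfl : _ = t4)
  (st_mk (Pth.l (Pth.l (Pth.l Pth.z))) (nat_lit 247344655) (nat_lit 250756749) (by decide +kernel))
  (st_mk (Pth.l (Pth.l (Pth.l Pth.z))) (nat_lit 285213344) (nat_lit 289824182) (by decide +kernel))
  (st_mk (Pth.l (Pth.l (Pth.l Pth.z))) (nat_lit 329489630) (nat_lit 335765462) (by decide +kernel)) sv0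
theorem so1 : StarOK sI G S1 :=
  star_mk (by decide) (by decide) rfl rfl rfl rfl rfl rfl (rfl : _ = t4) (rfl : _ = t2)
  (st_mk (Pth.l (Pth.l (Pth.l Pth.z))) (nat_lit 192515616) (nat_lit 194919451) (by decide +kernel))
  (st_mk (Pth.l (Pth.l (Pth.l Pth.z))) (nat_lit 230162972) (nat_lit 233662559) (by decide +kernel))
  (st_mk (Pth.l (Pth.l (Pth.l Pth.z))) (nat_lit 274274808) (nat_lit 279358518) (by decide +kernel)) sv1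
theorem so2 : StarOK sI G S2 :=
  star_mk (by decide) (by decide) rfl rfl rfl rfl rfl rfl (rfl : _ = t0) (rfl : _ = t5)
  (st_mk (Pth.l (Pth.l Pth.z)) (nat_lit 376066481) (nat_lit 380142318) (by decide +kernel))
  (st_mk (Pth.l (Pth.l Pth.z)) (nat_lit 413245980) (nat_lit 418206932) (by decide +kernel))
  (st_mk (Pth.l (Pth.l Pth.z)) (nat_lit 456433062) (nat_lit 462543074) (by decide +kernel)) sv2
theorem so3 : StarOK sI G S3 :=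
  star_mk (by decide) (by decide) rfl rfl rfl rfl rfl rfl (rfl : _ = t5) (rfl : _ = t0)
  (st_mk (Pth.l (Pth.l (Pth.l Pth.z))) (nat_lit 190529408) (nat_lit 192142924) (by decide +kernel))
  (st_mk (Pth.l (Pth.l (Pth.l Pth.z))) (nat_lit 227296753) (nat_lit 229618882) (by decide +kernel))
  (st_mk (Pth.l (Pth.l (Pth.l Pth.z))) (nat_lit 270158507) (nat_lit 273485718) (by decide +kernel)) sv3
theorem so4 : StarOK sI G S4 :=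
  star_mk (by decide) (by decide) rfl rfl rfl rfl rfl rfl (rfl : _ = t1) (rfl : _ = t3)
  (st_mk (Pth.l (Pth.l Pth.z)) (nat_lit 373084944) (nat_lit 375993872) (by decide +kernel))
  (st_mk (Pth.l (Pth.l Pth.z)) (nat_lit 409629717) (nat_lit 413154931) (by decide +kernel))
  (st_mk (Pth.l (Pth.l Pth.z)) (nat_lit 451998510) (nat_lit 456318167) (by decide +kernel)) sv4
theorem so5 : StarOK sI G S5 :=
  star_mk (by decide) (by decide) rfl rfl rfl rfl rfl rfl (rfl : _ = t3) (rfl : _ = t1)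
  (st_mk (Pth.l (Pth.l (Pth.l Pth.z))) (nat_lit 242864035) (nat_lit 244499065) (by decide +kernel))
  (st_mk (Pth.l (Pth.l (Pth.l Pth.z))) (nat_lit 279220197) (nat_lit 281395179) (by decide +kernel))
  (st_mk (Pth.l (Pth.l (Pth.l Pth.z))) (nat_lit 321435333) (nat_lit 324341212) (by decide +kernel)) sv5
theorem ok : GroupOK (nat_lit 0) (nat_lit 91291648) G := grp_mk (allS_c so0 (allS_c so1 (allS_c so2 (allS_c so3 (allS_c so4 (allS_c so5 allS_n))))))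
theorem cov : GCov G cl4 cl5 cl6 := cov_mk
  ⟨0, by decide, rfl, rfl, rfl⟩ ⟨1, by decide, rfl, rfl, rfl⟩ ⟨2, by decide, rfl, rfl, rfl⟩ ⟨3, by decide, rfl, rfl, rfl⟩ ⟨4, by decide, rfl, rfl, rfl⟩ ⟨5, by decide, rfl, rfl, rfl⟩
end Q123_0

namespace Q123_1
def sI : I := I.pos (nat_lit 91226112) (nat_lit 150339584)
def b0_0 : Bx := Bx.mk (St.mk (I.pos (nat_lit 155992064) (nat_lit 254263296)) (I.mix (nat_lit 28557312) (nat_lit 76300288)) (I.mix (nat_lit 133234688) (nat_lit 78807040)) (I.pos (nat_lit 245383168) (nat_lit 406470656)) (I.mix (nat_lit 127188992) (nat_lit 105070592)) (I.mix (nat_lit 115408896) (nat_lit 98107392)) (I.mix (nat_lit 204636160) (nat_lit 187531264)))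
  false (nat_lit 0)
def b0_1 : Bx := Bx.mk (St.mk (I.pos (nat_lit 25018368) (nat_lit 61636608)) (I.mix (nat_lit 11337728) (nat_lit 53575680)) (I.neg (nat_lit 8552448) (nat_lit 38174720)) (I.pos (nat_lit 144932864) (nat_lit 162316288)) (I.mix (nat_lit 46317568) (nat_lit 71974912)) (I.mix (nat_lit 64929792) (nat_lit 43597824)) (I.mix (nat_lit 37240832) (nat_lit 21692416)))
  false (nat_lit 0)
def b0_2 : Bx := Bx.mk (St.mk (I.pos (nat_lit 55951360) (nat_lit 94683136)) (I.mix (nat_lit 64618496) (nat_lit 14548992)) (I.neg (nat_lit 25116672) (nat_lit 72564736)) (I.pos (nat_lit 153190400) (nat_lit 181452800)) (I.mix (nat_lit 103071744) (nat_lit 45039616)) (I.mix (nat_lit 48824320) (nat_lit 93028352)) (I.mix (nat_lit 37437440) (nat_lit 58556416)))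
  false (nat_lit 0)
def b0_3 : Bx := Bx.mk (St.mk (I.neg (nat_lit 25018368) (nat_lit 64880640)) (I.mix (nat_lit 53575680) (nat_lit 13631488)) (I.neg (nat_lit 8552448) (nat_lit 39387136)) (I.pos (nat_lit 144916480) (nat_lit 162316288)) (I.mix (nat_lit 71974912) (nat_lit 46317568)) (I.mix (nat_lit 43597824) (nat_lit 64929792)) (I.mix (nat_lit 37257216) (nat_lit 21757952)))
  true (nat_lit 0)
def b0_4 : Bx := Bx.mk (St.mk (I.pos (nat_lit 37699584) (nat_lit 64356352)) (I.mix (nat_lit 13631488) (nat_lit 21331968)) (I.neg (nat_lit 21184512) (nat_lit 39387136)) (I.pos (nat_lit 146636800) (nat_lit 161202176)) (I.mix (nat_lit 46530560) (nat_lit 33013760)) (I.mix (nat_lit 34373632) (nat_lit 36831232)) (I.mix (nat_lit 19234816) (nat_lit 21872640)))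
  false (nat_lit 0)
def b0_5 : Bx := Bx.mk (St.mk (I.pos (nat_lit 64290816) (nat_lit 149651456)) (I.neg (nat_lit 2408448) (nat_lit 65716224)) (I.neg (nat_lit 14811136) (nat_lit 74989568)) (I.pos (nat_lit 161742848) (nat_lit 234078208)) (I.mix (nat_lit 102612992) (nat_lit 57835520)) (I.mix (nat_lit 51888128) (nat_lit 85917696)) (I.mix (nat_lit 48545792) (nat_lit 77987840)))
  false (nat_lit 0)
def b0_6 : Bx := Bx.mk (St.mk (I.mix (nat_lit 40796160) (nat_lit 9748480)) (I.mix (nat_lit 44449792) (nat_lit 10027008)) (I.neg (nat_lit 11960320) (nat_lit 17301504)) (I.pos (nat_lit 143884288) (nat_lit 154140672)) (I.mix (nat_lit 43155456) (nat_lit 48709632)) (I.mix (nat_lit 38879232) (nat_lit 53182464)) (I.mix (nat_lit 11239424) (nat_lit 9633792)))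
  true (nat_lit 0)
def b0_7 : Bx := Bx.mk (St.mk (I.mix (nat_lit 10436608) (nat_lit 40796160)) (I.mix (nat_lit 12189696) (nat_lit 44449792)) (I.neg (nat_lit 11960320) (nat_lit 17301504)) (I.pos (nat_lit 143884288) (nat_lit 154140672)) (I.mix (nat_lit 48709632) (nat_lit 43155456)) (I.mix (nat_lit 53182464) (nat_lit 38879232)) (I.mix (nat_lit 11239424) (nat_lit 9633792)))
  false (nat_lit 0)
def b0_8 : Bx := Bx.mk (St.mk (I.pos (nat_lit 122273792) (nat_lit 200425472)) (I.mix (nat_lit 40976384) (nat_lit 70598656)) (I.mix (nat_lit 55640064) (nat_lit 70336512)) (I.pos (nat_lit 206077952) (nat_lit 307773440)) (I.mix (nat_lit 154206208) (nat_lit 74645504)) (I.mix (nat_lit 164741120) (nat_lit 103120896)) (I.mix (nat_lit 165576704) (nat_lit 114065408)))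
  false (nat_lit 0)
def t0 : BTr := (BTr.n (BTr.n (BTr.n (BTr.b b0_0) (BTr.b b0_1)) (BTr.n (BTr.b b0_2) (BTr.b b0_3))) (BTr.n (BTr.n (BTr.b b0_4) (BTr.b b0_5)) (BTr.n (BTr.b b0_6) (BTr.n (BTr.b b0_7) (BTr.b b0_8)))))
namespace T0
def l0 : Tr := Tr.L (Pth.l (Pth.l (Pth.l Pth.z)))
def l1 : Tr := Tr.L (Pth.l (Pth.l (Pth.r Pth.z)))
def l2 : Tr := Tr.L (Pth.l (Pth.r (Pth.l Pth.z)))
def l3 : Tr := Tr.L (Pth.l (Pth.r (Pth.r Pth.z)))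
def l4 : Tr := Tr.L (Pth.r (Pth.l (Pth.l Pth.z)))
def l5 : Tr := Tr.L (Pth.r (Pth.l (Pth.r Pth.z)))
def l6 : Tr := Tr.L (Pth.r (Pth.r (Pth.l Pth.z)))
def l7 : Tr := Tr.L (Pth.r (Pth.r (Pth.r (Pth.l Pth.z))))
def l8 : Tr := Tr.L (Pth.r (Pth.r (Pth.r (Pth.r Pth.z))))
end T0
def b1_0 : Bx := Bx.mk (St.mk (I.pos (nat_lit 154583040) (nat_lit 257589248)) (I.mix (nat_lit 29605888) (nat_lit 68763648)) (I.mix (nat_lit 104284160) (nat_lit 87064576)) (I.pos (nat_lit 189251584) (nat_lit 360660992)) (I.mix (nat_lit 129974272) (nat_lit 96649216)) (I.mix (nat_lit 110542848) (nat_lit 91717632)) (I.mix (nat_lit 182534144) (nat_lit 175685632)))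
  false (nat_lit 0)
def b1_1 : Bx := Bx.mk (St.mk (I.mix (nat_lit 28835840) (nat_lit 94355456)) (I.mix (nat_lit 12828672) (nat_lit 45023232)) (I.mix (nat_lit 25411584) (nat_lit 9846784)) (I.pos (nat_lit 83394560) (nat_lit 124518400)) (I.mix (nat_lit 53460992) (nat_lit 54378496)) (I.mix (nat_lit 49053696) (nat_lit 42614784)) (I.mix (nat_lit 34078720) (nat_lit 24379392)))
  false (nat_lit 0)
def b1_2 : Bx := Bx.mk (St.mk (I.pos (nat_lit 81608704) (nat_lit 119881728)) (I.mix (nat_lit 59703296) (nat_lit 13713408)) (I.neg (nat_lit 8126464) (nat_lit 61095936)) (I.pos (nat_lit 116129792) (nat_lit 146636800)) (I.mix (nat_lit 101810176) (nat_lit 37437440)) (I.mix (nat_lit 55869440) (nat_lit 92143616)) (I.mix (nat_lit 41500672) (nat_lit 66371584)))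
  false (nat_lit 0)
def b1_3 : Bx := Bx.mk (St.mk (I.mix (nat_lit 45793280) (nat_lit 28311552)) (I.mix (nat_lit 37502976) (nat_lit 9994240)) (I.neg (nat_lit 2326528) (nat_lit 16875520)) (I.pos (nat_lit 83886080) (nat_lit 101793792)) (I.mix (nat_lit 43876352) (nat_lit 33112064)) (I.mix (nat_lit 30343168) (nat_lit 38567936)) (I.mix (nat_lit 15728640) (nat_lit 11124736)))
  false (nat_lit 0)
def b1_4 : Bx := Bx.mk (St.mk (I.mix (nat_lit 56967168) (nat_lit 3997696)) (I.mix (nat_lit 10354688) (nat_lit 12025856)) (I.neg (nat_lit 9535488) (nat_lit 18579456)) (I.pos (nat_lit 89325568) (nat_lit 103366656)) (I.mix (nat_lit 27656192) (nat_lit 22003712)) (I.mix (nat_lit 21233664) (nat_lit 22167552)) (I.mix (nat_lit 9404416) (nat_lit 8667136)))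
  false (nat_lit 0)
def b1_5 : Bx := Bx.mk (St.mk (I.pos (nat_lit 74399744) (nat_lit 89374720)) (I.mix (nat_lit 10567680) (nat_lit 8126464)) (I.neg (nat_lit 10862592) (nat_lit 23674880)) (I.pos (nat_lit 111820800) (nat_lit 122322944)) (I.mix (nat_lit 27230208) (nat_lit 9043968)) (I.mix (nat_lit 14336000) (nat_lit 14598144)) (I.mix (nat_lit 9125888) (nat_lit 11255808)))
  false (nat_lit 0)
def b1_6 : Bx := Bx.mk (St.mk (I.pos (nat_lit 86081536) (nat_lit 153862144)) (I.neg (nat_lit 6553600) (nat_lit 59801600)) (I.neg (nat_lit 15122432) (nat_lit 62455808)) (I.pos (nat_lit 125878272) (nat_lit 184287232)) (I.mix (nat_lit 89260032) (nat_lit 50872320)) (I.mix (nat_lit 46727168) (nat_lit 68403200)) (I.mix (nat_lit 40124416) (nat_lit 60932096)))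
  false (nat_lit 0)
def b1_7 : Bx := Bx.mk (St.mk (I.mix (nat_lit 35799040) (nat_lit 44646400)) (I.mix (nat_lit 37011456) (nat_lit 3751936)) (I.neg (nat_lit 4030464) (nat_lit 19824640)) (I.pos (nat_lit 82722816) (nat_lit 102236160)) (I.mix (nat_lit 47316992) (nat_lit 38797312)) (I.mix (nat_lit 33619968) (nat_lit 41910272)) (I.mix (nat_lit 16285696) (nat_lit 16400384)))
  false (nat_lit 0)
def b1_8 : Bx := Bx.mk (St.mk (I.pos (nat_lit 139444224) (nat_lit 208437248)) (I.mix (nat_lit 34488320) (nat_lit 67846144)) (I.mix (nat_lit 40239104) (nat_lit 82427904)) (I.pos (nat_lit 169607168) (nat_lit 263618560)) (I.mix (nat_lit 160317440) (nat_lit 65634304)) (I.mix (nat_lit 169213952) (nat_lit 110329856)) (I.mix (nat_lit 171147264) (nat_lit 112902144)))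
  false (nat_lit 0)
def b1_9 : Bx := Bx.mk (St.mk (I.mix (nat_lit 47104000) (nat_lit 75038720)) (I.mix (nat_lit 7421952) (nat_lit 38633472)) (I.mix (nat_lit 19824640) (nat_lit 6324224)) (I.pos (nat_lit 82722816) (nat_lit 112721920)) (I.mix (nat_lit 45629440) (nat_lit 47316992)) (I.mix (nat_lit 49512448) (nat_lit 33619968)) (I.mix (nat_lit 19660800) (nat_lit 20463616)))
  false (nat_lit 0)
def b1_10 : Bx := Bx.mk (St.mk (I.pos (nat_lit 135774208) (nat_lit 152584192)) (I.neg (nat_lit 16875520) (nat_lit 36831232)) (I.neg (nat_lit 20267008) (nat_lit 41992192)) (I.pos (nat_lit 166182912) (nat_lit 182976512)) (I.mix (nat_lit 24068096) (nat_lit 13484032)) (I.mix (nat_lit 12271616) (nat_lit 14761984)) (I.mix (nat_lit 13418496) (nat_lit 15073280)))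
  false (nat_lit 0)
def b1_11 : Bx := Bx.mk (St.mk (I.mix (nat_lit 51773440) (nat_lit 46268416)) (I.mix (nat_lit 15368192) (nat_lit 5111808)) (I.neg (nat_lit 2457600) (nat_lit 11534336)) (I.pos (nat_lit 88375296) (nat_lit 101187584)) (I.mix (nat_lit 15581184) (nat_lit 18759680)) (I.mix (nat_lit 12894208) (nat_lit 13844480)) (I.mix (nat_lit 5865472) (nat_lit 5619712)))
  false (nat_lit 0)
def t1 : BTr := (BTr.n (BTr.n (BTr.n (BTr.b b1_0) (BTr.n (BTr.b b1_1) (BTr.b b1_2))) (BTr.n (BTr.b b1_3) (BTr.n (BTr.b b1_4) (BTr.b b1_5)))) (BTr.n (BTr.n (BTr.b b1_6) (BTr.n (BTr.b b1_7) (BTr.b b1_8))) (BTr.n (BTr.b b1_9) (BTr.n (BTr.b b1_10) (BTr.b b1_11)))))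
namespace T1
def l0 : Tr := Tr.L (Pth.l (Pth.l (Pth.l Pth.z)))
def l1 : Tr := Tr.L (Pth.l (Pth.l (Pth.r (Pth.l Pth.z))))
def l2 : Tr := Tr.L (Pth.l (Pth.l (Pth.r (Pth.r Pth.z))))
def l3 : Tr := Tr.L (Pth.l (Pth.r (Pth.l Pth.z)))
def l4 : Tr := Tr.L (Pth.l (Pth.r (Pth.r (Pth.l Pth.z))))
def l5 : Tr := Tr.L (Pth.l (Pth.r (Pth.r (Pth.r Pth.z))))
def l6 : Tr := Tr.L (Pth.r (Pth.l (Pth.l Pth.z)))
def l7 : Tr := Tr.L (Pth.r (Pth.l (Pth.r (Pth.l Pth.z))))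
def l8 : Tr := Tr.L (Pth.r (Pth.l (Pth.r (Pth.r Pth.z))))
def l9 : Tr := Tr.L (Pth.r (Pth.r (Pth.l Pth.z)))
def l10 : Tr := Tr.L (Pth.r (Pth.r (Pth.r (Pth.l Pth.z))))
def l11 : Tr := Tr.L (Pth.r (Pth.r (Pth.r (Pth.r Pth.z))))
end T1
def b2_0 : Bx := Bx.mk (St.mk (I.pos (nat_lit 147701760) (nat_lit 270778368)) (I.mix (nat_lit 11091968) (nat_lit 91045888)) (I.mix (nat_lit 134365184) (nat_lit 86474752)) (I.pos (nat_lit 373932032) (nat_lit 564477952)) (I.mix (nat_lit 125599744) (nat_lit 109412352)) (I.mix (nat_lit 125190144) (nat_lit 96108544)) (I.mix (nat_lit 205127680) (nat_lit 132808704)))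
  false (nat_lit 0)
def b2_1 : Bx := Bx.mk (St.mk (I.mix (nat_lit 56836096) (nat_lit 9764864)) (I.mix (nat_lit 7897088) (nat_lit 90947584)) (I.neg (nat_lit 49545216) (nat_lit 73531392)) (I.pos (nat_lit 268730368) (nat_lit 295960576)) (I.mix (nat_lit 61702144) (nat_lit 114245632)) (I.mix (nat_lit 100777984) (nat_lit 80166912)) (I.mix (nat_lit 49397760) (nat_lit 39174144)))
  true (nat_lit 0)
def b2_2 : Bx := Bx.mk (St.mk (I.mix (nat_lit 9764864) (nat_lit 56836096)) (I.mix (nat_lit 90947584) (nat_lit 7897088)) (I.neg (nat_lit 49545216) (nat_lit 73531392)) (I.pos (nat_lit 268730368) (nat_lit 295960576)) (I.mix (nat_lit 114245632) (nat_lit 61702144)) (I.mix (nat_lit 80166912) (nat_lit 100777984)) (I.mix (nat_lit 49397760) (nat_lit 39174144)))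
  false (nat_lit 0)
def b2_3 : Bx := Bx.mk (St.mk (I.pos (nat_lit 20955136) (nat_lit 122060800)) (I.neg (nat_lit 966656) (nat_lit 92209152)) (I.neg (nat_lit 4751360) (nat_lit 87179264)) (I.pos (nat_lit 271876096) (nat_lit 335757312)) (I.mix (nat_lit 120733696) (nat_lit 85082112)) (I.mix (nat_lit 78053376) (nat_lit 102268928)) (I.mix (nat_lit 87719936) (nat_lit 89227264)))
  false (nat_lit 0)
def b2_4 : Bx := Bx.mk (St.mk (I.pos (nat_lit 90390528) (nat_lit 190889984)) (I.mix (nat_lit 45056000) (nat_lit 98877440)) (I.mix (nat_lit 42008576) (nat_lit 95371264)) (I.pos (nat_lit 307724288) (nat_lit 430473216)) (I.mix (nat_lit 181977088) (nat_lit 88883200)) (I.mix (nat_lit 174243840) (nat_lit 127434752)) (I.mix (nat_lit 177389568) (nat_lit 156139520)))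
  false (nat_lit 0)
def b2_5 : Bx := Bx.mk (St.mk (I.neg (nat_lit 20955136) (nat_lit 126959616)) (I.mix (nat_lit 950272) (nat_lit 92209152)) (I.neg (nat_lit 1916928) (nat_lit 87179264)) (I.pos (nat_lit 271876096) (nat_lit 339443712)) (I.mix (nat_lit 85098496) (nat_lit 120733696)) (I.mix (nat_lit 102285312) (nat_lit 78053376)) (I.mix (nat_lit 87736320) (nat_lit 89243648)))
  true (nat_lit 0)
def b2_6 : Bx := Bx.mk (St.mk (I.mix (nat_lit 12582912) (nat_lit 7782400)) (I.mix (nat_lit 4423680) (nat_lit 23740416)) (I.neg (nat_lit 54018048) (nat_lit 58163200)) (I.pos (nat_lit 269156352) (nat_lit 275660800)) (I.mix (nat_lit 10141696) (nat_lit 24608768)) (I.mix (nat_lit 12009472) (nat_lit 8798208)) (I.mix (nat_lit 2228224) (nat_lit 4423680)))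
  true (nat_lit 0)
def t2 : BTr := (BTr.n (BTr.n (BTr.b b2_0) (BTr.n (BTr.b b2_1) (BTr.b b2_2))) (BTr.n (BTr.n (BTr.b b2_3) (BTr.b b2_4)) (BTr.n (BTr.b b2_5) (BTr.b b2_6))))
namespace T2
def l0 : Tr := Tr.L (Pth.l (Pth.l Pth.z))
def l1 : Tr := Tr.L (Pth.l (Pth.r (Pth.l Pth.z)))
def l2 : Tr := Tr.L (Pth.l (Pth.r (Pth.r Pth.z)))
def l3 : Tr := Tr.L (Pth.r (Pth.l (Pth.l Pth.z)))
def l4 : Tr := Tr.L (Pth.r (Pth.l (Pth.r Pth.z)))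
def l5 : Tr := Tr.L (Pth.r (Pth.r (Pth.l Pth.z)))
def l6 : Tr := Tr.L (Pth.r (Pth.r (Pth.r Pth.z)))
end T2
def b3_0 : Bx := Bx.mk (St.mk (I.pos (nat_lit 142835712) (nat_lit 264470528)) (I.mix (nat_lit 11550720) (nat_lit 61636608)) (I.mix (nat_lit 14286848) (nat_lit 111362048)) (I.pos (nat_lit 186138624) (nat_lit 369639424)) (I.mix (nat_lit 146145280) (nat_lit 98172928)) (I.mix (nat_lit 122388480) (nat_lit 90734592)) (I.mix (nat_lit 189186048) (nat_lit 124469248)))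
  false (nat_lit 0)
def b3_1 : Bx := Bx.mk (St.mk (I.pos (nat_lit 94060544) (nat_lit 156270592)) (I.neg (nat_lit 2064384) (nat_lit 64012288)) (I.mix (nat_lit 47513600) (nat_lit 18792448)) (I.pos (nat_lit 134152192) (nat_lit 184844288)) (I.mix (nat_lit 82608128) (nat_lit 59736064)) (I.mix (nat_lit 52789248) (nat_lit 64552960)) (I.mix (nat_lit 46809088) (nat_lit 59015168)))
  false (nat_lit 0)
def b3_2 : Bx := Bx.mk (St.mk (I.mix (nat_lit 29507584) (nat_lit 45776896)) (I.mix (nat_lit 37289984) (nat_lit 8699904)) (I.mix (nat_lit 5144576) (nat_lit 9519104)) (I.pos (nat_lit 84213760) (nat_lit 101400576)) (I.mix (nat_lit 36143104) (nat_lit 40747008)) (I.mix (nat_lit 30490624) (nat_lit 35799040)) (I.mix (nat_lit 11419648) (nat_lit 13959168)))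
  false (nat_lit 0)
def b3_3 : Bx := Bx.mk (St.mk (I.pos (nat_lit 139296768) (nat_lit 202194944)) (I.mix (nat_lit 43958272) (nat_lit 64471040)) (I.mix (nat_lit 24477696) (nat_lit 107184128)) (I.pos (nat_lit 172408832) (nat_lit 247463936)) (I.mix (nat_lit 165576704) (nat_lit 64045056)) (I.mix (nat_lit 166182912) (nat_lit 102285312)) (I.mix (nat_lit 172195840) (nat_lit 100794368)))
  false (nat_lit 1647541)
def b3_4 : Bx := Bx.mk (St.mk (I.mix (nat_lit 47251456) (nat_lit 70877184)) (I.mix (nat_lit 13238272) (nat_lit 40288256)) (I.mix (nat_lit 5226496) (nat_lit 21954560)) (I.pos (nat_lit 84213760) (nat_lit 110444544)) (I.mix (nat_lit 54001664) (nat_lit 36077568)) (I.mix (nat_lit 48513024) (nat_lit 32079872)) (I.mix (nat_lit 17743872) (nat_lit 18956288)))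
  false (nat_lit 0)
def b3_5 : Bx := Bx.mk (St.mk (I.mix (nat_lit 58572800) (nat_lit 45826048)) (I.mix (nat_lit 14188544) (nat_lit 13123584)) (I.pos (nat_lit 2523136) (nat_lit 10584064)) (I.pos (nat_lit 86556672) (nat_lit 103448576)) (I.mix (nat_lit 30113792) (nat_lit 22003712)) (I.mix (nat_lit 21528576) (nat_lit 21856256)) (I.mix (nat_lit 9093120) (nat_lit 9060352)))
  false (nat_lit 0)
def b3_6 : Bx := Bx.mk (St.mk (I.pos (nat_lit 128729088) (nat_lit 155697152)) (I.neg (nat_lit 2244608) (nat_lit 36339712)) (I.mix (nat_lit 14712832) (nat_lit 18644992)) (I.pos (nat_lit 160481280) (nat_lit 183271424)) (I.mix (nat_lit 56311808) (nat_lit 33488896)) (I.mix (nat_lit 31735808) (nat_lit 41385984)) (I.mix (nat_lit 34553856) (nat_lit 37568512)))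
  false (nat_lit 0)
def b3_7 : Bx := Bx.mk (St.mk (I.mix (nat_lit 34603008) (nat_lit 94945280)) (I.mix (nat_lit 3538944) (nat_lit 43515904)) (I.mix (nat_lit 2801664) (nat_lit 27885568)) (I.pos (nat_lit 80576512) (nat_lit 124502016)) (I.mix (nat_lit 66109440) (nat_lit 49283072)) (I.mix (nat_lit 56295424) (nat_lit 43368448)) (I.mix (nat_lit 33243136) (nat_lit 30179328)))
  false (nat_lit 0)
def b3_8 : Bx := Bx.mk (St.mk (I.pos (nat_lit 82542592) (nat_lit 127188992)) (I.mix (nat_lit 63750144) (nat_lit 4079616)) (I.mix (nat_lit 44548096) (nat_lit 2326528)) (I.pos (nat_lit 117080064) (nat_lit 153567232)) (I.mix (nat_lit 96436224) (nat_lit 41123840)) (I.mix (nat_lit 60997632) (nat_lit 91668480)) (I.mix (nat_lit 45088768) (nat_lit 61407232)))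
  false (nat_lit 0)
def b3_9 : Bx := Bx.mk (St.mk (I.mix (nat_lit 44957696) (nat_lit 33865728)) (I.mix (nat_lit 36700160) (nat_lit 1228800)) (I.mix (nat_lit 2441216) (nat_lit 11485184)) (I.pos (nat_lit 83329024) (nat_lit 101859328)) (I.mix (nat_lit 38912000) (nat_lit 41500672)) (I.mix (nat_lit 31916032) (nat_lit 38240256)) (I.mix (nat_lit 14712832) (nat_lit 13828096)))
  false (nat_lit 0)
def b3_10 : Bx := Bx.mk (St.mk (I.pos (nat_lit 82804736) (nat_lit 90914816)) (I.mix (nat_lit 1654784) (nat_lit 9043968)) (I.mix (nat_lit 1949696) (nat_lit 5226496)) (I.pos (nat_lit 117506048) (nat_lit 123011072)) (I.mix (nat_lit 8912896) (nat_lit 11190272)) (I.mix (nat_lit 6684672) (nat_lit 5144576)) (I.mix (nat_lit 4882432) (nat_lit 3178496)))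
  false (nat_lit 0)
def b3_11 : Bx := Bx.mk (St.mk (I.mix (nat_lit 50298880) (nat_lit 3391488)) (I.mix (nat_lit 1753088) (nat_lit 12304384)) (I.mix (nat_lit 4603904) (nat_lit 131072)) (I.pos (nat_lit 89980928) (nat_lit 100777984)) (I.mix (nat_lit 11141120) (nat_lit 18137088)) (I.mix (nat_lit 13123584) (nat_lit 10862592)) (I.mix (nat_lit 4145152) (nat_lit 4489216)))
  false (nat_lit 0)
def t3 : BTr := (BTr.n (BTr.n (BTr.n (BTr.b b3_0) (BTr.n (BTr.b b3_1) (BTr.b b3_2))) (BTr.n (BTr.b b3_3) (BTr.n (BTr.b b3_4) (BTr.b b3_5)))) (BTr.n (BTr.n (BTr.b b3_6) (BTr.n (BTr.b b3_7) (BTr.b b3_8))) (BTr.n (BTr.b b3_9) (BTr.n (BTr.b b3_10) (BTr.b b3_11)))))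
namespace T3
def l0 : Tr := Tr.L (Pth.l (Pth.l (Pth.l Pth.z)))
def l1 : Tr := Tr.L (Pth.l (Pth.l (Pth.r (Pth.l Pth.z))))
def l2 : Tr := Tr.L (Pth.l (Pth.l (Pth.r (Pth.r Pth.z))))
def l3 : Tr := Tr.L (Pth.l (Pth.r (Pth.l Pth.z)))
def l4 : Tr := Tr.L (Pth.l (Pth.r (Pth.r (Pth.l Pth.z))))
def l5 : Tr := Tr.L (Pth.l (Pth.r (Pth.r (Pth.r Pth.z))))
def l6 : Tr := Tr.L (Pth.r (Pth.l (Pth.l Pth.z)))
def l7 : Tr := Tr.L (Pth.r (Pth.l (Pth.r (Pth.l Pth.z))))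
def l8 : Tr := Tr.L (Pth.r (Pth.l (Pth.r (Pth.r Pth.z))))
def l9 : Tr := Tr.L (Pth.r (Pth.r (Pth.l Pth.z)))
def l10 : Tr := Tr.L (Pth.r (Pth.r (Pth.r (Pth.l Pth.z))))
def l11 : Tr := Tr.L (Pth.r (Pth.r (Pth.r (Pth.r Pth.z))))
end T3
def b4_0 : Bx := Bx.mk (St.mk (I.pos (nat_lit 145965056) (nat_lit 289013760)) (I.mix (nat_lit 43433984) (nat_lit 89866240)) (I.mix (nat_lit 164954112) (nat_lit 105938944)) (I.pos (nat_lit 368705536) (nat_lit 599556096)) (I.mix (nat_lit 140902400) (nat_lit 116424704)) (I.mix (nat_lit 133201920) (nat_lit 97533952)) (I.mix (nat_lit 203702272) (nat_lit 140165120)))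
  false (nat_lit 43722664)
def b4_1 : Bx := Bx.mk (St.mk (I.pos (nat_lit 29556736) (nat_lit 118423552)) (I.neg (nat_lit 13582336) (nat_lit 93126656)) (I.mix (nat_lit 66273280) (nat_lit 7176192)) (I.pos (nat_lit 275415040) (nat_lit 330514432)) (I.mix (nat_lit 108920832) (nat_lit 80691200)) (I.mix (nat_lit 80166912) (nat_lit 90587136)) (I.mix (nat_lit 84525056) (nat_lit 78413824)))
  false (nat_lit 16079061)
def b4_2 : Bx := Bx.mk (St.mk (I.pos (nat_lit 97107968) (nat_lit 183320576)) (I.mix (nat_lit 31506432) (nat_lit 94158848)) (I.mix (nat_lit 7225344) (nat_lit 117850112)) (I.pos (nat_lit 310968320) (nat_lit 415498240)) (I.mix (nat_lit 185155584) (nat_lit 87851008)) (I.mix (nat_lit 165838848) (nat_lit 125665280)) (I.mix (nat_lit 177438720) (nat_lit 158302208)))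
  false (nat_lit 20432475)
def b4_3 : Bx := Bx.mk (St.mk (I.neg (nat_lit 29540352) (nat_lit 118423552)) (I.pos (nat_lit 13582336) (nat_lit 93126656)) (I.mix (nat_lit 66273280) (nat_lit 7176192)) (I.pos (nat_lit 275415040) (nat_lit 330514432)) (I.mix (nat_lit 80691200) (nat_lit 108920832)) (I.mix (nat_lit 90587136) (nat_lit 80166912)) (I.mix (nat_lit 84525056) (nat_lit 78413824)))
  true (nat_lit 0)
def b4_4 : Bx := Bx.mk (St.mk (I.mix (nat_lit 63733760) (nat_lit 16531456)) (I.mix (nat_lit 14811136) (nat_lit 94289920)) (I.neg (nat_lit 31588352) (nat_lit 54067200)) (I.pos (nat_lit 269893632) (nat_lit 298336256)) (I.mix (nat_lit 63062016) (nat_lit 110395392)) (I.mix (nat_lit 108986368) (nat_lit 78741504)) (I.mix (nat_lit 48300032) (nat_lit 32915456)))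
  true (nat_lit 0)
def b4_5 : Bx := Bx.mk (St.mk (I.mix (nat_lit 16531456) (nat_lit 63733760)) (I.mix (nat_lit 94289920) (nat_lit 21725184)) (I.neg (nat_lit 31588352) (nat_lit 54067200)) (I.pos (nat_lit 269893632) (nat_lit 298336256)) (I.mix (nat_lit 110395392) (nat_lit 63062016)) (I.mix (nat_lit 78741504) (nat_lit 109002752)) (I.mix (nat_lit 48300032) (nat_lit 32915456)))
  false (nat_lit 22933514)
def b4_6 : Bx := Bx.mk (St.mk (I.pos (nat_lit 97173504) (nat_lit 115589120)) (I.neg (nat_lit 18186240) (nat_lit 42795008)) (I.mix (nat_lit 16662528) (nat_lit 4161536)) (I.pos (nat_lit 312934400) (nat_lit 328728576)) (I.mix (nat_lit 16465920) (nat_lit 18530304)) (I.mix (nat_lit 10387456) (nat_lit 9551872)) (I.mix (nat_lit 9568256) (nat_lit 7438336)))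
  false (nat_lit 0)
def t4 : BTr := (BTr.n (BTr.n (BTr.b b4_0) (BTr.n (BTr.b b4_1) (BTr.b b4_2))) (BTr.n (BTr.n (BTr.b b4_3) (BTr.b b4_4)) (BTr.n (BTr.b b4_5) (BTr.b b4_6))))
namespace T4
def l0 : Tr := Tr.L (Pth.l (Pth.l Pth.z))
def l1 : Tr := Tr.L (Pth.l (Pth.r (Pth.l Pth.z)))
def l2 : Tr := Tr.L (Pth.l (Pth.r (Pth.r Pth.z)))
def l3 : Tr := Tr.L (Pth.r (Pth.l (Pth.l Pth.z)))
def l4 : Tr := Tr.L (Pth.r (Pth.l (Pth.r Pth.z)))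
def l5 : Tr := Tr.L (Pth.r (Pth.r (Pth.l Pth.z)))
def l6 : Tr := Tr.L (Pth.r (Pth.r (Pth.r Pth.z)))
end T4
def b5_0 : Bx := Bx.mk (St.mk (I.pos (nat_lit 138428416) (nat_lit 285868032)) (I.mix (nat_lit 36110336) (nat_lit 68829184)) (I.mix (nat_lit 74334208) (nat_lit 123879424)) (I.pos (nat_lit 237289472) (nat_lit 464011264)) (I.mix (nat_lit 151502848) (nat_lit 109608960)) (I.mix (nat_lit 132202496) (nat_lit 98222080)) (I.mix (nat_lit 203128832) (nat_lit 126386176)))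
  false (nat_lit 30375677)
def b5_1 : Bx := Bx.mk (St.mk (I.pos (nat_lit 80642048) (nat_lit 140640256)) (I.neg (nat_lit 5931008) (nat_lit 73498624)) (I.mix (nat_lit 45121536) (nat_lit 24920064)) (I.pos (nat_lit 176455680) (nat_lit 220102656)) (I.mix (nat_lit 80330752) (nat_lit 69746688)) (I.mix (nat_lit 59293696) (nat_lit 75268096)) (I.mix (nat_lit 51855360) (nat_lit 68583424)))
  false (nat_lit 0)
def b5_2 : Bx := Bx.mk (St.mk (I.mix (nat_lit 31490048) (nat_lit 1294336)) (I.mix (nat_lit 45252608) (nat_lit 10338304)) (I.pos (nat_lit 12337152) (nat_lit 18563072)) (I.pos (nat_lit 142901248) (nat_lit 151502848)) (I.mix (nat_lit 33996800) (nat_lit 56377344)) (I.mix (nat_lit 34848768) (nat_lit 49823744)) (I.mix (nat_lit 8208384) (nat_lit 9519104)))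
  true (nat_lit 0)
def b5_3 : Bx := Bx.mk (St.mk (I.pos (nat_lit 131547136) (nat_lit 187744256)) (I.mix (nat_lit 43712512) (nat_lit 68943872)) (I.mix (nat_lit 11403264) (nat_lit 121831424)) (I.pos (nat_lit 213794816) (nat_lit 281460736)) (I.mix (nat_lit 170508288) (nat_lit 73629696)) (I.mix (nat_lit 162365440) (nat_lit 92962816)) (I.mix (nat_lit 171147264) (nat_lit 99385344)))
  false (nat_lit 0)
def b5_4 : Bx := Bx.mk (St.mk (I.mix (nat_lit 2736128) (nat_lit 31522816)) (I.mix (nat_lit 11730944) (nat_lit 45285376)) (I.pos (nat_lit 12337152) (nat_lit 18546688)) (I.pos (nat_lit 142901248) (nat_lit 151502848)) (I.mix (nat_lit 56377344) (nat_lit 34095104)) (I.mix (nat_lit 49823744) (nat_lit 34848768)) (I.mix (nat_lit 8208384) (nat_lit 9519104)))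
  false (nat_lit 0)
def b5_5 : Bx := Bx.mk (St.mk (I.pos (nat_lit 103514112) (nat_lit 142688256)) (I.neg (nat_lit 3932160) (nat_lit 47792128)) (I.mix (nat_lit 13352960) (nat_lit 28196864)) (I.pos (nat_lit 189841408) (nat_lit 221904896)) (I.mix (nat_lit 71303168) (nat_lit 42991616)) (I.mix (nat_lit 45973504) (nat_lit 53592064)) (I.mix (nat_lit 44728320) (nat_lit 44711936)))
  false (nat_lit 0)
def b5_6 : Bx := Bx.mk (St.mk (I.mix (nat_lit 20283392) (nat_lit 2244608)) (I.mix (nat_lit 16302080) (nat_lit 11288576)) (I.pos (nat_lit 13074432) (nat_lit 15548416)) (I.pos (nat_lit 142950400) (nat_lit 146309120)) (I.mix (nat_lit 34291712) (nat_lit 24068096)) (I.mix (nat_lit 25821184) (nat_lit 25542656)) (I.mix (nat_lit 3571712) (nat_lit 3751936)))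
  true (nat_lit 0)
def b5_7 : Bx := Bx.mk (St.mk (I.pos (nat_lit 14008320) (nat_lit 73334784)) (I.mix (nat_lit 10338304) (nat_lit 51249152)) (I.mix (nat_lit 6062080) (nat_lit 22888448)) (I.pos (nat_lit 141705216) (nat_lit 164937728)) (I.mix (nat_lit 58408960) (nat_lit 53772288)) (I.mix (nat_lit 60309504) (nat_lit 46071808)) (I.mix (nat_lit 31703040) (nat_lit 26607616)))
  false (nat_lit 0)
def b5_8 : Bx := Bx.mk (St.mk (I.pos (nat_lit 50446336) (nat_lit 106987520)) (I.mix (nat_lit 70975488) (nat_lit 11468800)) (I.mix (nat_lit 39059456) (nat_lit 4784128)) (I.pos (nat_lit 153075712) (nat_lit 191479808)) (I.mix (nat_lit 91684864) (nat_lit 49119232)) (I.mix (nat_lit 57475072) (nat_lit 89669632)) (I.mix (nat_lit 41795584) (nat_lit 49872896)))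
  false (nat_lit 0)
def b5_9 : Bx := Bx.mk (St.mk (I.neg (nat_lit 14008320) (nat_lit 73809920)) (I.mix (nat_lit 51249152) (nat_lit 13549568)) (I.mix (nat_lit 7585792) (nat_lit 22888448)) (I.pos (nat_lit 141705216) (nat_lit 164937728)) (I.mix (nat_lit 53772288) (nat_lit 58408960)) (I.mix (nat_lit 46071808) (nat_lit 60309504)) (I.mix (nat_lit 31703040) (nat_lit 26607616)))
  true (nat_lit 0)
def t5 : BTr := (BTr.n (BTr.n (BTr.n (BTr.b b5_0) (BTr.b b5_1)) (BTr.n (BTr.b b5_2) (BTr.n (BTr.b b5_3) (BTr.b b5_4)))) (BTr.n (BTr.n (BTr.b b5_5) (BTr.b b5_6)) (BTr.n (BTr.b b5_7) (BTr.n (BTr.b b5_8) (BTr.b b5_9)))))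
namespace T5
def l0 : Tr := Tr.L (Pth.l (Pth.l (Pth.l Pth.z)))
def l1 : Tr := Tr.L (Pth.l (Pth.l (Pth.r Pth.z)))
def l2 : Tr := Tr.L (Pth.l (Pth.r (Pth.l Pth.z)))
def l3 : Tr := Tr.L (Pth.l (Pth.r (Pth.r (Pth.l Pth.z))))
def l4 : Tr := Tr.L (Pth.l (Pth.r (Pth.r (Pth.r Pth.z))))
def l5 : Tr := Tr.L (Pth.r (Pth.l (Pth.l Pth.z)))
def l6 : Tr := Tr.L (Pth.r (Pth.l (Pth.r Pth.z)))
def l7 : Tr := Tr.L (Pth.r (Pth.r (Pth.l Pth.z)))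
def l8 : Tr := Tr.L (Pth.r (Pth.r (Pth.r (Pth.l Pth.z))))
def l9 : Tr := Tr.L (Pth.r (Pth.r (Pth.r (Pth.r Pth.z))))
end T5
theorem bx0_0 : BoxOK sI cl4 cl5 cl6 t2 t4 b0_0 :=
  box_mk (TrL.c (I.pos (nat_lit 0) (nat_lit 0)) (xa (xb (xa (xb T2.l0 T2.l0) (xb (xa T2.l0 T2.l0) (xa T2.l0 T2.l0))) (xa (xb T2.l0 (xa (xb T2.l0 T2.l0) T2.l0)) (xb (xa T2.l0 T2.l0) (xa (xb T2.l0 T2.l0) (xs T2.l0 (xb T2.l0 T2.l0)))))) (xb (xa T2.l4 T2.l4) (xa (xb T2.l4 (xa (xs T2.l0 T2.l4) T2.l4)) (xb T2.l4 T2.l4))))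
  (TrL.c (I.pos (nat_lit 0) (nat_lit 0)) (xa (xb T4.l1 (xa T4.l1 T4.l1)) (xb (xa T4.l1 T4.l1) (xa T4.l1 T4.l1)))
  (TrL.c (I.pos (nat_lit 0) (nat_lit 0)) (xa T2.l1 (xb T2.l1 (xc T2.l1 T2.l5)))
  (TrL.c (I.pos (nat_lit 0) (nat_lit 0)) (xa (xb T4.l2 T4.l2) (xb (xa T4.l2 (xb T4.l2 T4.l2)) (xa T4.l2 (xb T4.l2 T4.l2))))
  (TrL.c (I.pos (nat_lit 0) (nat_lit 0)) (xa T2.l2 (xb T2.l2 (xc T2.l2 T2.l3)))
  (TrL.c (I.pos (nat_lit 0) (nat_lit 0)) (xa (xb T4.l3 (xa T4.l3 T4.l3)) (xb (xa T4.l3 T4.l3) (xa T4.l3 T4.l3)))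
  TrL.n)))))) (by decide +kernel)
theorem bx0_1 : BoxOK sI cl4 cl5 cl6 t2 t4 b0_1 :=
  box_mk (TrL.c (I.pos (nat_lit 0) (nat_lit 0)) T2.l0
  (TrL.c (I.pos (nat_lit 0) (nat_lit 0)) T4.l1
  (TrL.c (I.pos (nat_lit 0) (nat_lit 0)) T2.l1
  (TrL.c (I.pos (nat_lit 0) (nat_lit 0)) T4.l2
  (TrL.c (I.pos (nat_lit 0) (nat_lit 0)) T2.l2
  (TrL.c (I.pos (nat_lit 0) (nat_lit 0)) T4.l3
  TrL.n)))))) (by decide +kernel)
theorem bx0_2 : BoxOK sI cl4 cl5 cl6 t2 t4 b0_2 :=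
  box_mk (TrL.c (I.pos (nat_lit 0) (nat_lit 0)) (xb T2.l0 T2.l0)
  (TrL.c (I.pos (nat_lit 0) (nat_lit 0)) T4.l1
  (TrL.c (I.pos (nat_lit 0) (nat_lit 0)) T2.l1
  (TrL.c (I.pos (nat_lit 0) (nat_lit 0)) T4.l2
  (TrL.c (I.pos (nat_lit 0) (nat_lit 0)) T2.l2
  (TrL.c (I.pos (nat_lit 0) (nat_lit 0)) T4.l3
  TrL.n)))))) (by decide +kernel)
theorem bx0_3 : BoxOK sI cl4 cl5 cl6 t2 t4 b0_3 :=
  box_mk (TrL.c (I.pos (nat_lit 0) (nat_lit 0)) T4.l1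
  (TrL.c (I.pos (nat_lit 0) (nat_lit 0)) T2.l1
  TrL.n)) (by decide +kernel)
theorem bx0_4 : BoxOK sI cl4 cl5 cl6 t2 t4 b0_4 :=
  box_mk (TrL.c (I.pos (nat_lit 0) (nat_lit 0)) T2.l0
  (TrL.c (I.pos (nat_lit 0) (nat_lit 0)) T4.l1
  (TrL.c (I.pos (nat_lit 0) (nat_lit 0)) T2.l1
  (TrL.c (I.pos (nat_lit 0) (nat_lit 0)) T4.l2
  (TrL.c (I.pos (nat_lit 0) (nat_lit 0)) T2.l2
  (TrL.c (I.pos (nat_lit 0) (nat_lit 0)) T4.l3
  TrL.n)))))) (by decide +kernel)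
theorem bx0_5 : BoxOK sI cl4 cl5 cl6 t2 t4 b0_5 :=
  box_mk (TrL.c (I.pos (nat_lit 0) (nat_lit 0)) (xa (xb T2.l0 T2.l0) T2.l0)
  (TrL.c (I.pos (nat_lit 0) (nat_lit 0)) (xa T4.l1 T4.l1)
  (TrL.c (I.pos (nat_lit 0) (nat_lit 0)) T2.l1
  (TrL.c (I.pos (nat_lit 0) (nat_lit 0)) T4.l2
  (TrL.c (I.pos (nat_lit 0) (nat_lit 0)) T2.l2
  (TrL.c (I.pos (nat_lit 0) (nat_lit 0)) (xa T4.l3 T4.l3)
  TrL.n)))))) (by decide +kernel)
theorem bx0_6 : BoxOK sI cl4 cl5 cl6 t2 t4 b0_6 :=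
  box_mk (TrL.c (I.pos (nat_lit 0) (nat_lit 0)) T4.l1
  (TrL.c (I.pos (nat_lit 0) (nat_lit 0)) T2.l1
  TrL.n)) (by decide +kernel)
theorem bx0_7 : BoxOK sI cl4 cl5 cl6 t2 t4 b0_7 :=
  box_mk (TrL.c (I.pos (nat_lit 0) (nat_lit 0)) (xb (xa T2.l0 T2.l0) (xa T2.l0 T2.l0))
  (TrL.c (I.pos (nat_lit 0) (nat_lit 0)) T4.l1
  (TrL.c (I.pos (nat_lit 0) (nat_lit 0)) T2.l1
  (TrL.c (I.pos (nat_lit 0) (nat_lit 0)) T4.l2
  (TrL.c (I.pos (nat_lit 0) (nat_lit 0)) T2.l2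
  (TrL.c (I.pos (nat_lit 0) (nat_lit 0)) T4.l3
  TrL.n)))))) (by decide +kernel)
theorem bx0_8 : BoxOK sI cl4 cl5 cl6 t2 t4 b0_8 :=
  box_mk (TrL.c (I.pos (nat_lit 0) (nat_lit 0)) (xb (xa (xb (xa T2.l0 T2.l0) (xa T2.l0 T2.l0)) (xb T2.l0 T2.l0)) (xa (xb (xa T2.l0 T2.l0) (xa T2.l0 T2.l0)) (xb T2.l0 (xa T2.l0 T2.l0))))
  (TrL.c (I.pos (nat_lit 0) (nat_lit 0)) (xb (xa T4.l1 T4.l1) (xa T4.l1 T4.l1))
  (TrL.c (I.pos (nat_lit 0) (nat_lit 0)) (xb T2.l1 (xa T2.l1 T2.l1))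
  (TrL.c (I.pos (nat_lit 0) (nat_lit 0)) (xb (xa T4.l2 T4.l2) (xa T4.l2 T4.l2))
  (TrL.c (I.pos (nat_lit 0) (nat_lit 0)) (xb T2.l2 (xa T2.l2 T2.l2))
  (TrL.c (I.pos (nat_lit 0) (nat_lit 0)) (xb (xa T4.l3 T4.l3) (xa T4.l3 T4.l3))
  TrL.n)))))) (by decide +kernel)
theorem sv0 : StarV sI cl4 cl5 cl6 t2 t4 t0 :=
  (bt_n (bt_n (bt_n (bt_b bx0_0) (bt_b bx0_1)) (bt_n (bt_b bx0_2) (bt_b bx0_3))) (bt_n (bt_n (bt_b bx0_4) (bt_b bx0_5)) (bt_n (bt_b bx0_6) (bt_n (bt_b bx0_7) (bt_b bx0_8)))))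
def S0 : StarD := StarD.mk cl4 cl5 cl6 2 4 t0
theorem bx1_0 : BoxOK sI cl4 cl6 cl5 t4 t2 b1_0 :=
  box_mk (TrL.c (I.pos (nat_lit 0) (nat_lit 0)) (xa (xb (xa (xb T4.l0 T4.l0) (xb T4.l0 T4.l0)) (xa (xb T4.l0 (xa (xb T4.l0 T4.l0) T4.l0)) (xb T4.l0 (xa T4.l0 (xs T4.l0 T4.l0))))) (xb (xa (xb T4.l2 (xa T4.l0 T4.l0)) T4.l2) (xa (xb (xa T4.l0 T4.l2) (xa (xs T4.l0 T4.l0) T4.l2)) (xb T4.l2 (xa T4.l2 T4.l2)))))
  (TrL.c (I.pos (nat_lit 0) (nat_lit 0)) (xa (xb T2.l3 (xa T2.l3 T2.l3)) (xb (xa T2.l3 T2.l3) (xa T2.l3 (xb T2.l3 T2.l3))))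
  (TrL.c (I.pos (nat_lit 0) (nat_lit 0)) (xa (xb T4.l4 T4.l4) (xc (xb T4.l3 T4.l3) (xb T4.l3 (xa T4.l4 T4.l4))))
  (TrL.c (I.pos (nat_lit 0) (nat_lit 0)) (xa (xb T2.l4 T2.l4) (xb (xa T2.l4 (xb T2.l4 T2.l4)) (xa T2.l4 (xb T2.l4 T2.l4))))
  (TrL.c (I.pos (nat_lit 0) (nat_lit 0)) (xa (xb T4.l5 T4.l5) (xc (xb T4.l1 T4.l1) (xb T4.l1 (xa T4.l5 T4.l5))))
  (TrL.c (I.pos (nat_lit 0) (nat_lit 0)) (xa (xb T2.l5 (xa T2.l5 T2.l5)) (xb (xa T2.l5 T2.l5) (xa T2.l5 (xb T2.l5 T2.l5))))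
  TrL.n)))))) (by decide +kernel)
theorem bx1_1 : BoxOK sI cl4 cl6 cl5 t4 t2 b1_1 :=
  box_mk (TrL.c (I.pos (nat_lit 0) (nat_lit 0)) (xa (xb T4.l0 T4.l0) T4.l0)
  (TrL.c (I.pos (nat_lit 0) (nat_lit 0)) (xa T2.l3 T2.l3)
  (TrL.c (I.pos (nat_lit 0) (nat_lit 0)) T4.l4
  (TrL.c (I.pos (nat_lit 0) (nat_lit 0)) (xa T2.l4 T2.l4)
  (TrL.c (I.pos (nat_lit 0) (nat_lit 0)) T4.l5
  (TrL.c (I.pos (nat_lit 0) (nat_lit 0)) T2.l5
  TrL.n)))))) (by decide +kernel)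
theorem bx1_2 : BoxOK sI cl4 cl6 cl5 t4 t2 b1_2 :=
  box_mk (TrL.c (I.pos (nat_lit 0) (nat_lit 0)) T4.l0
  (TrL.c (I.pos (nat_lit 0) (nat_lit 0)) T2.l3
  (TrL.c (I.pos (nat_lit 0) (nat_lit 0)) T4.l4
  (TrL.c (I.pos (nat_lit 0) (nat_lit 0)) T2.l4
  (TrL.c (I.pos (nat_lit 0) (nat_lit 0)) T4.l5
  (TrL.c (I.pos (nat_lit 0) (nat_lit 0)) T2.l5
  TrL.n)))))) (by decide +kernel)
theorem bx1_3 : BoxOK sI cl4 cl6 cl5 t4 t2 b1_3 :=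
  box_mk (TrL.c (I.pos (nat_lit 0) (nat_lit 0)) (xa (xb (xa T4.l0 T4.l0) T4.l0) T4.l0)
  (TrL.c (I.pos (nat_lit 0) (nat_lit 0)) T2.l4
  (TrL.c (I.pos (nat_lit 0) (nat_lit 0)) T4.l5
  (TrL.c (I.pos (nat_lit 0) (nat_lit 0)) T2.l3
  (TrL.c (I.pos (nat_lit 0) (nat_lit 0)) T4.l5
  (TrL.c (I.pos (nat_lit 0) (nat_lit 0)) T2.l5
  TrL.n)))))) (by decide +kernel)
theorem bx1_4 : BoxOK sI cl4 cl6 cl5 t4 t2 b1_4 :=
  box_mk (TrL.c (I.pos (nat_lit 0) (nat_lit 0)) T4.l0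
  (TrL.c (I.pos (nat_lit 0) (nat_lit 0)) T2.l4
  (TrL.c (I.pos (nat_lit 0) (nat_lit 0)) T4.l5
  (TrL.c (I.pos (nat_lit 0) (nat_lit 0)) T2.l3
  (TrL.c (I.pos (nat_lit 0) (nat_lit 0)) T4.l5
  (TrL.c (I.pos (nat_lit 0) (nat_lit 0)) T2.l5
  TrL.n)))))) (by decide +kernel)
theorem bx1_5 : BoxOK sI cl4 cl6 cl5 t4 t2 b1_5 :=
  box_mk (TrL.c (I.pos (nat_lit 0) (nat_lit 0)) T4.l0
  (TrL.c (I.pos (nat_lit 0) (nat_lit 0)) T2.l3
  (TrL.c (I.pos (nat_lit 0) (nat_lit 0)) T4.l4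
  (TrL.c (I.pos (nat_lit 0) (nat_lit 0)) T2.l4
  (TrL.c (I.pos (nat_lit 0) (nat_lit 0)) T4.l5
  (TrL.c (I.pos (nat_lit 0) (nat_lit 0)) T2.l5
  TrL.n)))))) (by decide +kernel)
theorem bx1_6 : BoxOK sI cl4 cl6 cl5 t4 t2 b1_6 :=
  box_mk (TrL.c (I.pos (nat_lit 0) (nat_lit 0)) T4.l0
  (TrL.c (I.pos (nat_lit 0) (nat_lit 0)) T2.l3
  (TrL.c (I.pos (nat_lit 0) (nat_lit 0)) T4.l4
  (TrL.c (I.pos (nat_lit 0) (nat_lit 0)) T2.l4
  (TrL.c (I.pos (nat_lit 0) (nat_lit 0)) T4.l5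
  (TrL.c (I.pos (nat_lit 0) (nat_lit 0)) T2.l5
  TrL.n)))))) (by decide +kernel)
theorem bx1_7 : BoxOK sI cl4 cl6 cl5 t4 t2 b1_7 :=
  box_mk (TrL.c (I.pos (nat_lit 0) (nat_lit 0)) (xa (xb T4.l0 T4.l0) T4.l0)
  (TrL.c (I.pos (nat_lit 0) (nat_lit 0)) T2.l3
  (TrL.c (I.pos (nat_lit 0) (nat_lit 0)) T4.l5
  (TrL.c (I.pos (nat_lit 0) (nat_lit 0)) T2.l4
  (TrL.c (I.pos (nat_lit 0) (nat_lit 0)) T4.l5
  (TrL.c (I.pos (nat_lit 0) (nat_lit 0)) T2.l5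
  TrL.n)))))) (by decide +kernel)
theorem bx1_8 : BoxOK sI cl4 cl6 cl5 t4 t2 b1_8 :=
  box_mk (TrL.c (I.pos (nat_lit 0) (nat_lit 0)) (xb (xa (xb T4.l0 (xa T4.l0 T4.l0)) (xb T4.l0 T4.l0)) (xa (xb (xa T4.l0 T4.l0) (xa T4.l0 T4.l0)) (xb T4.l0 (xa T4.l0 T4.l0))))
  (TrL.c (I.pos (nat_lit 0) (nat_lit 0)) (xb (xa T2.l3 T2.l3) (xa T2.l3 T2.l3))
  (TrL.c (I.pos (nat_lit 0) (nat_lit 0)) (xb T4.l4 T4.l4)
  (TrL.c (I.pos (nat_lit 0) (nat_lit 0)) (xb (xa T2.l4 T2.l4) (xa T2.l4 T2.l4))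
  (TrL.c (I.pos (nat_lit 0) (nat_lit 0)) (xb T4.l5 T4.l5)
  (TrL.c (I.pos (nat_lit 0) (nat_lit 0)) (xb (xa T2.l5 T2.l5) (xa T2.l5 T2.l5))
  TrL.n)))))) (by decide +kernel)
theorem bx1_9 : BoxOK sI cl4 cl6 cl5 t4 t2 b1_9 :=
  box_mk (TrL.c (I.pos (nat_lit 0) (nat_lit 0)) (xa (xa (xb T4.l0 (xa T4.l0 T4.l0)) T4.l0) T4.l0)
  (TrL.c (I.pos (nat_lit 0) (nat_lit 0)) (xa T2.l4 T2.l3)
  (TrL.c (I.pos (nat_lit 0) (nat_lit 0)) (xa T4.l5 T4.l4)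
  (TrL.c (I.pos (nat_lit 0) (nat_lit 0)) (xa T2.l3 T2.l4)
  (TrL.c (I.pos (nat_lit 0) (nat_lit 0)) (xa T4.l5 T4.l5)
  (TrL.c (I.pos (nat_lit 0) (nat_lit 0)) (xa T2.l5 T2.l5)
  TrL.n)))))) (by decide +kernel)
theorem bx1_10 : BoxOK sI cl4 cl6 cl5 t4 t2 b1_10 :=
  box_mk (TrL.c (I.pos (nat_lit 0) (nat_lit 0)) T4.l0
  (TrL.c (I.pos (nat_lit 0) (nat_lit 0)) T2.l3
  (TrL.c (I.pos (nat_lit 0) (nat_lit 0)) T4.l4
  (TrL.c (I.pos (nat_lit 0) (nat_lit 0)) T2.l4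
  (TrL.c (I.pos (nat_lit 0) (nat_lit 0)) T4.l5
  (TrL.c (I.pos (nat_lit 0) (nat_lit 0)) T2.l5
  TrL.n)))))) (by decide +kernel)
theorem bx1_11 : BoxOK sI cl4 cl6 cl5 t4 t2 b1_11 :=
  box_mk (TrL.c (I.pos (nat_lit 0) (nat_lit 0)) T4.l0
  (TrL.c (I.pos (nat_lit 0) (nat_lit 0)) T2.l3
  (TrL.c (I.pos (nat_lit 0) (nat_lit 0)) T4.l5
  (TrL.c (I.pos (nat_lit 0) (nat_lit 0)) T2.l3
  (TrL.c (I.pos (nat_lit 0) (nat_lit 0)) T4.l5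
  (TrL.c (I.pos (nat_lit 0) (nat_lit 0)) T2.l5
  TrL.n)))))) (by decide +kernel)
theorem sv1 : StarV sI cl4 cl6 cl5 t4 t2 t1 :=
  (bt_n (bt_n (bt_n (bt_b bx1_0) (bt_n (bt_b bx1_1) (bt_b bx1_2))) (bt_n (bt_b bx1_3) (bt_n (bt_b bx1_4) (bt_b bx1_5)))) (bt_n (bt_n (bt_b bx1_6) (bt_n (bt_b bx1_7) (bt_b bx1_8))) (bt_n (bt_b bx1_9) (bt_n (bt_b bx1_10) (bt_b bx1_11)))))
def S1 : StarD := StarD.mk cl4 cl6 cl5 4 2 t1
theorem bx2_0 : BoxOK sI cl5 cl4 cl6 t0 t5 b2_0 :=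
  box_mk (TrL.c (I.pos (nat_lit 0) (nat_lit 0)) (xa (xb T0.l0 (xa T0.l0 (xb T0.l0 T0.l0))) (xb (xa T0.l0 T0.l0) (xa (xb T0.l0 T0.l0) (xb T0.l0 T0.l0))))
  (TrL.c (I.pos (nat_lit 0) (nat_lit 0)) (xa T5.l1 (xb T5.l1 T5.l1))
  (TrL.c (I.pos (nat_lit 0) (nat_lit 0)) T0.l1
  (TrL.c (I.pos (nat_lit 0) (nat_lit 0)) T5.l2
  (TrL.c (I.pos (nat_lit 0) (nat_lit 0)) (xa T5.l3 (xb (xa T5.l3 T5.l3) (xa T5.l3 T5.l3)))
  (TrL.c (I.pos (nat_lit 0) (nat_lit 0)) (xa T0.l2 (xb T0.l5 T0.l2))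
  (TrL.c (I.pos (nat_lit 0) (nat_lit 0)) T5.l4
  (TrL.c (I.pos (nat_lit 0) (nat_lit 0)) T0.l3
  TrL.n)))))))) (by decide +kernel)
theorem bx2_1 : BoxOK sI cl5 cl4 cl6 t0 t5 b2_1 :=
  box_mk (TrL.c (I.pos (nat_lit 0) (nat_lit 0)) T5.l5
  (TrL.c (I.pos (nat_lit 0) (nat_lit 0)) T0.l4
  (TrL.c (I.pos (nat_lit 0) (nat_lit 0)) T5.l6
  TrL.n))) (by decide +kernel)
theorem bx2_2 : BoxOK sI cl5 cl4 cl6 t0 t5 b2_2 :=
  box_mk (TrL.c (I.pos (nat_lit 0) (nat_lit 0)) (xb (xa (xb T0.l0 T0.l0) T0.l0) (xa T0.l0 T0.l0))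
  (TrL.c (I.pos (nat_lit 0) (nat_lit 0)) T5.l5
  (TrL.c (I.pos (nat_lit 0) (nat_lit 0)) T0.l4
  (TrL.c (I.pos (nat_lit 0) (nat_lit 0)) T5.l6
  (TrL.c (I.pos (nat_lit 0) (nat_lit 0)) T5.l3
  (TrL.c (I.pos (nat_lit 0) (nat_lit 0)) T0.l2
  (TrL.c (I.pos (nat_lit 0) (nat_lit 0)) T5.l4
  (TrL.c (I.pos (nat_lit 0) (nat_lit 0)) T0.l3
  TrL.n)))))))) (by decide +kernel)
theorem bx2_3 : BoxOK sI cl5 cl4 cl6 t0 t5 b2_3 :=
  box_mk (TrL.c (I.pos (nat_lit 0) (nat_lit 0)) (xa (xb (xa T0.l0 T0.l0) T0.l0) T0.l0)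
  (TrL.c (I.pos (nat_lit 0) (nat_lit 0)) T5.l1
  (TrL.c (I.pos (nat_lit 0) (nat_lit 0)) T0.l4
  (TrL.c (I.pos (nat_lit 0) (nat_lit 0)) T5.l6
  (TrL.c (I.pos (nat_lit 0) (nat_lit 0)) (xa T5.l3 T5.l3)
  (TrL.c (I.pos (nat_lit 0) (nat_lit 0)) T0.l2
  (TrL.c (I.pos (nat_lit 0) (nat_lit 0)) T5.l4
  (TrL.c (I.pos (nat_lit 0) (nat_lit 0)) T0.l3
  TrL.n)))))))) (by decide +kernel)
theorem bx2_4 : BoxOK sI cl5 cl4 cl6 t0 t5 b2_4 :=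
  box_mk (TrL.c (I.pos (nat_lit 0) (nat_lit 0)) (xb (xa (xb T0.l0 T0.l0) T0.l0) (xa (xb (xa T0.l0 T0.l0) (xa T0.l0 T0.l0)) (xb T0.l0 (xa T0.l0 T0.l0))))
  (TrL.c (I.pos (nat_lit 0) (nat_lit 0)) (xb T5.l1 (xa T5.l1 T5.l1))
  (TrL.c (I.pos (nat_lit 0) (nat_lit 0)) T0.l1
  (TrL.c (I.pos (nat_lit 0) (nat_lit 0)) T5.l2
  (TrL.c (I.pos (nat_lit 0) (nat_lit 0)) (xb (xa T5.l3 T5.l3) (xa T5.l3 T5.l3))
  (TrL.c (I.pos (nat_lit 0) (nat_lit 0)) (xb T0.l2 T0.l2)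
  (TrL.c (I.pos (nat_lit 0) (nat_lit 0)) T5.l4
  (TrL.c (I.pos (nat_lit 0) (nat_lit 0)) T0.l3
  TrL.n)))))))) (by decide +kernel)
theorem bx2_5 : BoxOK sI cl5 cl4 cl6 t0 t5 b2_5 :=
  box_mk (TrL.c (I.pos (nat_lit 0) (nat_lit 0)) T5.l5
  (TrL.c (I.pos (nat_lit 0) (nat_lit 0)) T0.l4
  (TrL.c (I.pos (nat_lit 0) (nat_lit 0)) T5.l6
  TrL.n))) (by decide +kernel)
theorem bx2_6 : BoxOK sI cl5 cl4 cl6 t0 t5 b2_6 :=
  box_mk (TrL.c (I.pos (nat_lit 0) (nat_lit 0)) T5.l5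
  (TrL.c (I.pos (nat_lit 0) (nat_lit 0)) T0.l4
  (TrL.c (I.pos (nat_lit 0) (nat_lit 0)) T5.l6
  TrL.n))) (by decide +kernel)
theorem sv2 : StarV sI cl5 cl4 cl6 t0 t5 t2 :=
  (bt_n (bt_n (bt_b bx2_0) (bt_n (bt_b bx2_1) (bt_b bx2_2))) (bt_n (bt_n (bt_b bx2_3) (bt_b bx2_4)) (bt_n (bt_b bx2_5) (bt_b bx2_6))))
def S2 : StarD := StarD.mk cl5 cl4 cl6 0 5 t2
theorem bx3_0 : BoxOK sI cl5 cl6 cl4 t5 t0 b3_0 :=
  box_mk (TrL.c (I.pos (nat_lit 0) (nat_lit 0)) (xa (xa (xb T5.l0 T5.l0) (xb T5.l0 T5.l0)) (xa (xb T5.l0 T5.l0) (xb T5.l0 T5.l0)))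
  (TrL.c (I.pos (nat_lit 0) (nat_lit 0)) (xa (xb T0.l5 T0.l5) (xa T0.l5 T0.l5))
  (TrL.c (I.pos (nat_lit 0) (nat_lit 0)) T5.l7
  (TrL.c (I.pos (nat_lit 0) (nat_lit 0)) T0.l6
  (TrL.c (I.pos (nat_lit 0) (nat_lit 0)) (xa T0.l8 (xb (xa T0.l8 T0.l8) (xa T0.l8 T0.l8)))
  (TrL.c (I.pos (nat_lit 0) (nat_lit 0)) (xa T5.l8 (xb T5.l8 T5.l8))
  (TrL.c (I.pos (nat_lit 0) (nat_lit 0)) T0.l7
  (TrL.c (I.pos (nat_lit 0) (nat_lit 0)) T5.l9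
  TrL.n)))))))) (by decide +kernel)
theorem bx3_1 : BoxOK sI cl5 cl6 cl4 t5 t0 b3_1 :=
  box_mk (TrL.c (I.pos (nat_lit 0) (nat_lit 0)) T5.l0
  (TrL.c (I.pos (nat_lit 0) (nat_lit 0)) T0.l5
  (TrL.c (I.pos (nat_lit 0) (nat_lit 0)) T5.l7
  (TrL.c (I.pos (nat_lit 0) (nat_lit 0)) T0.l6
  (TrL.c (I.pos (nat_lit 0) (nat_lit 0)) T0.l8
  (TrL.c (I.pos (nat_lit 0) (nat_lit 0)) T5.l8
  (TrL.c (I.pos (nat_lit 0) (nat_lit 0)) T0.l7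
  (TrL.c (I.pos (nat_lit 0) (nat_lit 0)) T5.l9
  TrL.n)))))))) (by decide +kernel)
theorem bx3_2 : BoxOK sI cl5 cl6 cl4 t5 t0 b3_2 :=
  box_mk (TrL.c (I.pos (nat_lit 0) (nat_lit 0)) T5.l0
  (TrL.c (I.pos (nat_lit 0) (nat_lit 0)) T0.l5
  (TrL.c (I.pos (nat_lit 0) (nat_lit 0)) T5.l8
  (TrL.c (I.pos (nat_lit 0) (nat_lit 0)) T0.l6
  (TrL.c (I.pos (nat_lit 0) (nat_lit 0)) T0.l5
  (TrL.c (I.pos (nat_lit 0) (nat_lit 0)) T5.l8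
  (TrL.c (I.pos (nat_lit 0) (nat_lit 0)) T0.l7
  (TrL.c (I.pos (nat_lit 0) (nat_lit 0)) T5.l9
  TrL.n)))))))) (by decide +kernel)
theorem bx3_3 : BoxOK sI cl5 cl6 cl4 t5 t0 b3_3 :=
  box_mk (TrL.c (I.pos (nat_lit 0) (nat_lit 0)) (xb (xa T5.l0 T5.l0) (xa (xb T5.l0 T5.l0) (xb T5.l0 T5.l0)))
  (TrL.c (I.pos (nat_lit 0) (nat_lit 0)) (xb T0.l5 (xa T0.l5 T0.l5))
  (TrL.c (I.pos (nat_lit 0) (nat_lit 0)) T5.l7
  (TrL.c (I.pos (nat_lit 0) (nat_lit 0)) T0.l6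
  (TrL.c (I.pos (nat_lit 0) (nat_lit 0)) (xb (xa T0.l8 T0.l8) T0.l8)
  (TrL.c (I.pos (nat_lit 0) (nat_lit 0)) T5.l8
  (TrL.c (I.pos (nat_lit 0) (nat_lit 0)) T0.l7
  (TrL.c (I.pos (nat_lit 0) (nat_lit 0)) T5.l9
  TrL.n)))))))) (by decide +kernel)
theorem bx3_4 : BoxOK sI cl5 cl6 cl4 t5 t0 b3_4 :=
  box_mk (TrL.c (I.pos (nat_lit 0) (nat_lit 0)) (xa (xa (xb T5.l0 T5.l0) T5.l0) T5.l0)
  (TrL.c (I.pos (nat_lit 0) (nat_lit 0)) (xa T0.l8 T0.l5)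
  (TrL.c (I.pos (nat_lit 0) (nat_lit 0)) T5.l7
  (TrL.c (I.pos (nat_lit 0) (nat_lit 0)) T0.l6
  (TrL.c (I.pos (nat_lit 0) (nat_lit 0)) (xa T0.l5 T0.l8)
  (TrL.c (I.pos (nat_lit 0) (nat_lit 0)) T5.l8
  (TrL.c (I.pos (nat_lit 0) (nat_lit 0)) T0.l7
  (TrL.c (I.pos (nat_lit 0) (nat_lit 0)) T5.l9
  TrL.n)))))))) (by decide +kernel)
theorem bx3_5 : BoxOK sI cl5 cl6 cl4 t5 t0 b3_5 :=
  box_mk (TrL.c (I.pos (nat_lit 0) (nat_lit 0)) (xa T5.l0 T5.l0)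
  (TrL.c (I.pos (nat_lit 0) (nat_lit 0)) T0.l5
  (TrL.c (I.pos (nat_lit 0) (nat_lit 0)) T5.l8
  (TrL.c (I.pos (nat_lit 0) (nat_lit 0)) T0.l7
  (TrL.c (I.pos (nat_lit 0) (nat_lit 0)) T0.l5
  (TrL.c (I.pos (nat_lit 0) (nat_lit 0)) T5.l7
  (TrL.c (I.pos (nat_lit 0) (nat_lit 0)) T0.l7
  (TrL.c (I.pos (nat_lit 0) (nat_lit 0)) T5.l9
  TrL.n)))))))) (by decide +kernel)
theorem bx3_6 : BoxOK sI cl5 cl6 cl4 t5 t0 b3_6 :=
  box_mk (TrL.c (I.pos (nat_lit 0) (nat_lit 0)) T5.l0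
  (TrL.c (I.pos (nat_lit 0) (nat_lit 0)) T0.l5
  (TrL.c (I.pos (nat_lit 0) (nat_lit 0)) T5.l7
  (TrL.c (I.pos (nat_lit 0) (nat_lit 0)) T0.l6
  (TrL.c (I.pos (nat_lit 0) (nat_lit 0)) T0.l8
  (TrL.c (I.pos (nat_lit 0) (nat_lit 0)) T5.l8
  (TrL.c (I.pos (nat_lit 0) (nat_lit 0)) T0.l7
  (TrL.c (I.pos (nat_lit 0) (nat_lit 0)) T5.l9
  TrL.n)))))))) (by decide +kernel)
theorem bx3_7 : BoxOK sI cl5 cl6 cl4 t5 t0 b3_7 :=
  box_mk (TrL.c (I.pos (nat_lit 0) (nat_lit 0)) (xa (xa T5.l0 T5.l0) T5.l0)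
  (TrL.c (I.pos (nat_lit 0) (nat_lit 0)) T0.l5
  (TrL.c (I.pos (nat_lit 0) (nat_lit 0)) T5.l7
  (TrL.c (I.pos (nat_lit 0) (nat_lit 0)) T0.l6
  (TrL.c (I.pos (nat_lit 0) (nat_lit 0)) (xa T0.l5 T0.l8)
  (TrL.c (I.pos (nat_lit 0) (nat_lit 0)) T5.l8
  (TrL.c (I.pos (nat_lit 0) (nat_lit 0)) T0.l7
  (TrL.c (I.pos (nat_lit 0) (nat_lit 0)) T5.l9
  TrL.n)))))))) (by decide +kernel)
theorem bx3_8 : BoxOK sI cl5 cl6 cl4 t5 t0 b3_8 :=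
  box_mk (TrL.c (I.pos (nat_lit 0) (nat_lit 0)) T5.l0
  (TrL.c (I.pos (nat_lit 0) (nat_lit 0)) T0.l5
  (TrL.c (I.pos (nat_lit 0) (nat_lit 0)) T5.l7
  (TrL.c (I.pos (nat_lit 0) (nat_lit 0)) T0.l6
  (TrL.c (I.pos (nat_lit 0) (nat_lit 0)) T0.l8
  (TrL.c (I.pos (nat_lit 0) (nat_lit 0)) T5.l8
  (TrL.c (I.pos (nat_lit 0) (nat_lit 0)) T0.l7
  (TrL.c (I.pos (nat_lit 0) (nat_lit 0)) T5.l9
  TrL.n)))))))) (by decide +kernel)
theorem bx3_9 : BoxOK sI cl5 cl6 cl4 t5 t0 b3_9 :=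
  box_mk (TrL.c (I.pos (nat_lit 0) (nat_lit 0)) (xa (xa T5.l0 T5.l0) T5.l0)
  (TrL.c (I.pos (nat_lit 0) (nat_lit 0)) T0.l5
  (TrL.c (I.pos (nat_lit 0) (nat_lit 0)) T5.l8
  (TrL.c (I.pos (nat_lit 0) (nat_lit 0)) T0.l7
  (TrL.c (I.pos (nat_lit 0) (nat_lit 0)) T0.l5
  (TrL.c (I.pos (nat_lit 0) (nat_lit 0)) T5.l7
  (TrL.c (I.pos (nat_lit 0) (nat_lit 0)) T0.l7
  (TrL.c (I.pos (nat_lit 0) (nat_lit 0)) T5.l9
  TrL.n)))))))) (by decide +kernel)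
theorem bx3_10 : BoxOK sI cl5 cl6 cl4 t5 t0 b3_10 :=
  box_mk (TrL.c (I.pos (nat_lit 0) (nat_lit 0)) T5.l0
  (TrL.c (I.pos (nat_lit 0) (nat_lit 0)) T0.l5
  (TrL.c (I.pos (nat_lit 0) (nat_lit 0)) T5.l7
  (TrL.c (I.pos (nat_lit 0) (nat_lit 0)) T0.l6
  (TrL.c (I.pos (nat_lit 0) (nat_lit 0)) T0.l8
  (TrL.c (I.pos (nat_lit 0) (nat_lit 0)) T5.l8
  (TrL.c (I.pos (nat_lit 0) (nat_lit 0)) T0.l7
  (TrL.c (I.pos (nat_lit 0) (nat_lit 0)) T5.l9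
  TrL.n)))))))) (by decide +kernel)
theorem bx3_11 : BoxOK sI cl5 cl6 cl4 t5 t0 b3_11 :=
  box_mk (TrL.c (I.pos (nat_lit 0) (nat_lit 0)) T5.l0
  (TrL.c (I.pos (nat_lit 0) (nat_lit 0)) T0.l5
  (TrL.c (I.pos (nat_lit 0) (nat_lit 0)) T5.l7
  (TrL.c (I.pos (nat_lit 0) (nat_lit 0)) T0.l6
  (TrL.c (I.pos (nat_lit 0) (nat_lit 0)) T0.l5
  (TrL.c (I.pos (nat_lit 0) (nat_lit 0)) T5.l8
  (TrL.c (I.pos (nat_lit 0) (nat_lit 0)) T0.l7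
  (TrL.c (I.pos (nat_lit 0) (nat_lit 0)) T5.l9
  TrL.n)))))))) (by decide +kernel)
theorem sv3 : StarV sI cl5 cl6 cl4 t5 t0 t3 :=
  (bt_n (bt_n (bt_n (bt_b bx3_0) (bt_n (bt_b bx3_1) (bt_b bx3_2))) (bt_n (bt_b bx3_3) (bt_n (bt_b bx3_4) (bt_b bx3_5)))) (bt_n (bt_n (bt_b bx3_6) (bt_n (bt_b bx3_7) (bt_b bx3_8))) (bt_n (bt_b bx3_9) (bt_n (bt_b bx3_10) (bt_b bx3_11)))))
def S3 : StarD := StarD.mk cl5 cl6 cl4 5 0 t3
theorem bx4_0 : BoxOK sI cl6 cl4 cl5 t1 t3 b4_0 :=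
  box_mk (TrL.c (I.pos (nat_lit 0) (nat_lit 0)) (xa (xb (xa T1.l0 T1.l0) (xa (xb T1.l0 T1.l0) (xb T1.l0 T1.l0))) (xb (xa T1.l0 T1.l0) (xa (xb T1.l0 T1.l0) (xb T1.l0 T1.l0))))
  (TrL.c (I.pos (nat_lit 0) (nat_lit 0)) (xa (xb T3.l1 T3.l1) (xb T3.l8 T3.l1))
  (TrL.c (I.pos (nat_lit 0) (nat_lit 89480386)) (xR T1.l1 T1.l1)
  (TrL.c (I.pos (nat_lit 0) (nat_lit 41530880)) T3.l2
  (TrL.c (I.pos (nat_lit 0) (nat_lit 0)) (xa (xb (xa T3.l3 T3.l3) T3.l3) (xb (xa T3.l3 (xb T3.l3 T3.l3)) (xa T3.l3 (xb T3.l3 T3.l3))))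
  (TrL.c (I.pos (nat_lit 0) (nat_lit 0)) (xa T1.l2 (xb T1.l2 T1.l2))
  (TrL.c (I.mix (nat_lit 41527258) (nat_lit 41530880)) (xR T3.l4 T3.l7)
  (TrL.c (I.mix (nat_lit 41527258) (nat_lit 4274)) T1.l3
  TrL.n)))))))) (by decide +kernel)
theorem bx4_1 : BoxOK sI cl6 cl4 cl5 t1 t3 b4_1 :=
  box_mk (TrL.c (I.pos (nat_lit 0) (nat_lit 0)) (xa T1.l0 T1.l0)
  (TrL.c (I.pos (nat_lit 0) (nat_lit 0)) T3.l1
  (TrL.c (I.pos (nat_lit 0) (nat_lit 89480386)) (xR T1.l1 T1.l1)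
  (TrL.c (I.pos (nat_lit 0) (nat_lit 41530880)) T3.l2
  (TrL.c (I.pos (nat_lit 0) (nat_lit 0)) T3.l3
  (TrL.c (I.pos (nat_lit 0) (nat_lit 0)) T1.l2
  (TrL.c (I.mix (nat_lit 41527258) (nat_lit 41530880)) T3.l4
  (TrL.c (I.mix (nat_lit 41527258) (nat_lit 4274)) T1.l3
  TrL.n)))))))) (by decide +kernel)
theorem bx4_2 : BoxOK sI cl6 cl4 cl5 t1 t3 b4_2 :=
  box_mk (TrL.c (I.pos (nat_lit 0) (nat_lit 0)) (xb (xa T1.l0 T1.l0) (xa (xb T1.l0 T1.l0) (xb T1.l0 T1.l0)))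
  (TrL.c (I.pos (nat_lit 0) (nat_lit 0)) (xb T3.l1 T3.l1)
  (TrL.c (I.pos (nat_lit 0) (nat_lit 89480386)) (xR T1.l1 T1.l1)
  (TrL.c (I.pos (nat_lit 0) (nat_lit 41530880)) T3.l2
  (TrL.c (I.pos (nat_lit 0) (nat_lit 0)) (xb T3.l3 T3.l3)
  (TrL.c (I.pos (nat_lit 0) (nat_lit 0)) T1.l2
  (TrL.c (I.mix (nat_lit 41527258) (nat_lit 41530880)) T3.l4
  (TrL.c (I.mix (nat_lit 41527258) (nat_lit 4274)) T1.l3
  TrL.n)))))))) (by decide +kernel)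
theorem bx4_3 : BoxOK sI cl6 cl4 cl5 t1 t3 b4_3 :=
  box_mk (TrL.c (I.pos (nat_lit 0) (nat_lit 0)) T3.l1
  (TrL.c (I.pos (nat_lit 0) (nat_lit 0)) T1.l1
  (TrL.c (I.mix (nat_lit 41527258) (nat_lit 41530880)) T3.l5
  (TrL.c (I.mix (nat_lit 41527258) (nat_lit 4274)) T1.l4
  TrL.n)))) (by decide +kernel)
theorem bx4_4 : BoxOK sI cl6 cl4 cl5 t1 t3 b4_4 :=
  box_mk (TrL.c (I.pos (nat_lit 0) (nat_lit 0)) T3.l1
  (TrL.c (I.pos (nat_lit 0) (nat_lit 0)) T1.l1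
  (TrL.c (I.mix (nat_lit 41527258) (nat_lit 41530880)) T3.l5
  (TrL.c (I.mix (nat_lit 41527258) (nat_lit 4274)) T1.l4
  TrL.n)))) (by decide +kernel)
theorem bx4_5 : BoxOK sI cl6 cl4 cl5 t1 t3 b4_5 :=
  box_mk (TrL.c (I.pos (nat_lit 0) (nat_lit 0)) (xb (xa (xb T1.l0 T1.l0) T1.l0) (xa T1.l0 T1.l0))
  (TrL.c (I.pos (nat_lit 0) (nat_lit 0)) T3.l1
  (TrL.c (I.pos (nat_lit 0) (nat_lit 89480386)) (xR T1.l1 T1.l1)
  (TrL.c (I.pos (nat_lit 0) (nat_lit 41530880)) T3.l4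
  (TrL.c (I.pos (nat_lit 0) (nat_lit 0)) T3.l3
  (TrL.c (I.pos (nat_lit 0) (nat_lit 0)) T1.l2
  (TrL.c (I.mix (nat_lit 41527258) (nat_lit 41530880)) T3.l4
  (TrL.c (I.mix (nat_lit 41527258) (nat_lit 4274)) T1.l3
  TrL.n)))))))) (by decide +kernel)
theorem bx4_6 : BoxOK sI cl6 cl4 cl5 t1 t3 b4_6 :=
  box_mk (TrL.c (I.pos (nat_lit 0) (nat_lit 0)) T1.l0
  (TrL.c (I.pos (nat_lit 0) (nat_lit 0)) T3.l1
  (TrL.c (I.pos (nat_lit 0) (nat_lit 89480386)) T1.l1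
  (TrL.c (I.pos (nat_lit 0) (nat_lit 41530880)) T3.l2
  (TrL.c (I.pos (nat_lit 0) (nat_lit 0)) T3.l3
  (TrL.c (I.pos (nat_lit 0) (nat_lit 0)) T1.l2
  (TrL.c (I.mix (nat_lit 41527258) (nat_lit 41530880)) T3.l4
  (TrL.c (I.mix (nat_lit 41527258) (nat_lit 4274)) T1.l3
  TrL.n)))))))) (by decide +kernel)
theorem sv4 : StarV sI cl6 cl4 cl5 t1 t3 t4 :=
  (bt_n (bt_n (bt_b bx4_0) (bt_n (bt_b bx4_1) (bt_b bx4_2))) (bt_n (bt_n (bt_b bx4_3) (bt_b bx4_4)) (bt_n (bt_b bx4_5) (bt_b bx4_6))))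
def S4 : StarD := StarD.mk cl6 cl4 cl5 1 3 t4
theorem bx5_0 : BoxOK sI cl6 cl5 cl4 t3 t1 b5_0 :=
  box_mk (TrL.c (I.pos (nat_lit 0) (nat_lit 0)) (xa (xb (xa T3.l0 T3.l0) (xa (xb T3.l0 T3.l0) (xb T3.l0 T3.l0))) (xa (xb T3.l0 T3.l0) (xb T3.l0 T3.l0)))
  (TrL.c (I.pos (nat_lit 0) (nat_lit 0)) (xa (xb T1.l6 T1.l6) (xb T1.l6 (xa T1.l6 T1.l6)))
  (TrL.c (I.pos (nat_lit 0) (nat_lit 89480386)) (xR T3.l7 T3.l7)
  (TrL.c (I.pos (nat_lit 0) (nat_lit 41530880)) T1.l7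
  (TrL.c (I.pos (nat_lit 0) (nat_lit 0)) (xa (xb (xa T1.l8 T1.l8) T1.l8) (xb (xa T1.l8 (xb T1.l8 T1.l8)) (xa T1.l8 (xb T1.l8 T1.l8))))
  (TrL.c (I.pos (nat_lit 0) (nat_lit 0)) (xa T3.l8 (xb T3.l8 T3.l8))
  (TrL.c (I.mix (nat_lit 41527258) (nat_lit 41530880)) (xR T1.l9 T1.l1)
  (TrL.c (I.mix (nat_lit 41527258) (nat_lit 4274)) T3.l9
  TrL.n)))))))) (by decide +kernel)
theorem bx5_1 : BoxOK sI cl6 cl5 cl4 t3 t1 b5_1 :=
  box_mk (TrL.c (I.pos (nat_lit 0) (nat_lit 0)) T3.l0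
  (TrL.c (I.pos (nat_lit 0) (nat_lit 0)) T1.l6
  (TrL.c (I.pos (nat_lit 0) (nat_lit 89480386)) T3.l7
  (TrL.c (I.pos (nat_lit 0) (nat_lit 41530880)) T1.l7
  (TrL.c (I.pos (nat_lit 0) (nat_lit 0)) T1.l8
  (TrL.c (I.pos (nat_lit 0) (nat_lit 0)) T3.l8
  (TrL.c (I.mix (nat_lit 41527258) (nat_lit 41530880)) T1.l9
  (TrL.c (I.mix (nat_lit 41527258) (nat_lit 4274)) T3.l9
  TrL.n)))))))) (by decide +kernel)
theorem bx5_2 : BoxOK sI cl6 cl5 cl4 t3 t1 b5_2 :=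
  box_mk (TrL.c (I.pos (nat_lit 0) (nat_lit 0)) T1.l6
  (TrL.c (I.pos (nat_lit 0) (nat_lit 0)) T3.l7
  (TrL.c (I.mix (nat_lit 41527258) (nat_lit 41530880)) T1.l11
  (TrL.c (I.mix (nat_lit 41527258) (nat_lit 4274)) T3.l4
  TrL.n)))) (by decide +kernel)
theorem bx5_3 : BoxOK sI cl6 cl5 cl4 t3 t1 b5_3 :=
  box_mk (TrL.c (I.pos (nat_lit 0) (nat_lit 0)) (xb (xa T3.l0 T3.l0) (xa T3.l0 T3.l0))
  (TrL.c (I.pos (nat_lit 0) (nat_lit 0)) (xb T1.l6 T1.l6)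
  (TrL.c (I.pos (nat_lit 0) (nat_lit 89480386)) (xR T3.l7 T3.l7)
  (TrL.c (I.pos (nat_lit 0) (nat_lit 41530880)) T1.l7
  (TrL.c (I.pos (nat_lit 0) (nat_lit 0)) (xb T1.l8 T1.l8)
  (TrL.c (I.pos (nat_lit 0) (nat_lit 0)) T3.l8
  (TrL.c (I.mix (nat_lit 41527258) (nat_lit 41530880)) T1.l9
  (TrL.c (I.mix (nat_lit 41527258) (nat_lit 4274)) T3.l9
  TrL.n)))))))) (by decide +kernel)
theorem bx5_4 : BoxOK sI cl6 cl5 cl4 t3 t1 b5_4 :=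
  box_mk (TrL.c (I.pos (nat_lit 0) (nat_lit 0)) T3.l0
  (TrL.c (I.pos (nat_lit 0) (nat_lit 0)) T1.l6
  (TrL.c (I.pos (nat_lit 0) (nat_lit 89480386)) T3.l7
  (TrL.c (I.pos (nat_lit 0) (nat_lit 41530880)) T1.l7
  (TrL.c (I.pos (nat_lit 0) (nat_lit 0)) T1.l8
  (TrL.c (I.pos (nat_lit 0) (nat_lit 0)) T3.l8
  (TrL.c (I.mix (nat_lit 41527258) (nat_lit 41530880)) T1.l9
  (TrL.c (I.mix (nat_lit 41527258) (nat_lit 4274)) T3.l4
  TrL.n)))))))) (by decide +kernel)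
theorem bx5_5 : BoxOK sI cl6 cl5 cl4 t3 t1 b5_5 :=
  box_mk (TrL.c (I.pos (nat_lit 0) (nat_lit 0)) T3.l0
  (TrL.c (I.pos (nat_lit 0) (nat_lit 0)) T1.l6
  (TrL.c (I.pos (nat_lit 0) (nat_lit 89480386)) T3.l7
  (TrL.c (I.pos (nat_lit 0) (nat_lit 41530880)) T1.l7
  (TrL.c (I.pos (nat_lit 0) (nat_lit 0)) T1.l8
  (TrL.c (I.pos (nat_lit 0) (nat_lit 0)) T3.l8
  (TrL.c (I.mix (nat_lit 41527258) (nat_lit 41530880)) T1.l9
  (TrL.c (I.mix (nat_lit 41527258) (nat_lit 4274)) T3.l9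
  TrL.n)))))))) (by decide +kernel)
theorem bx5_6 : BoxOK sI cl6 cl5 cl4 t3 t1 b5_6 :=
  box_mk (TrL.c (I.pos (nat_lit 0) (nat_lit 0)) T1.l6
  (TrL.c (I.pos (nat_lit 0) (nat_lit 0)) T3.l7
  (TrL.c (I.mix (nat_lit 41527258) (nat_lit 41530880)) T1.l11
  (TrL.c (I.mix (nat_lit 41527258) (nat_lit 4274)) T3.l11
  TrL.n)))) (by decide +kernel)
theorem bx5_7 : BoxOK sI cl6 cl5 cl4 t3 t1 b5_7 :=
  box_mk (TrL.c (I.pos (nat_lit 0) (nat_lit 0)) T3.l0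
  (TrL.c (I.pos (nat_lit 0) (nat_lit 0)) T1.l6
  (TrL.c (I.pos (nat_lit 0) (nat_lit 89480386)) T3.l7
  (TrL.c (I.pos (nat_lit 0) (nat_lit 41530880)) T1.l7
  (TrL.c (I.pos (nat_lit 0) (nat_lit 0)) T1.l8
  (TrL.c (I.pos (nat_lit 0) (nat_lit 0)) T3.l8
  (TrL.c (I.mix (nat_lit 41527258) (nat_lit 41530880)) T1.l9
  (TrL.c (I.mix (nat_lit 41527258) (nat_lit 4274)) T3.l9
  TrL.n)))))))) (by decide +kernel)
theorem bx5_8 : BoxOK sI cl6 cl5 cl4 t3 t1 b5_8 :=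
  box_mk (TrL.c (I.pos (nat_lit 0) (nat_lit 0)) (xb T3.l0 T3.l0)
  (TrL.c (I.pos (nat_lit 0) (nat_lit 0)) T1.l6
  (TrL.c (I.pos (nat_lit 0) (nat_lit 89480386)) T3.l7
  (TrL.c (I.pos (nat_lit 0) (nat_lit 41530880)) T1.l7
  (TrL.c (I.pos (nat_lit 0) (nat_lit 0)) T1.l8
  (TrL.c (I.pos (nat_lit 0) (nat_lit 0)) T3.l8
  (TrL.c (I.mix (nat_lit 41527258) (nat_lit 41530880)) T1.l9
  (TrL.c (I.mix (nat_lit 41527258) (nat_lit 4274)) T3.l4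
  TrL.n)))))))) (by decide +kernel)
theorem bx5_9 : BoxOK sI cl6 cl5 cl4 t3 t1 b5_9 :=
  box_mk (TrL.c (I.pos (nat_lit 0) (nat_lit 0)) T1.l6
  (TrL.c (I.pos (nat_lit 0) (nat_lit 0)) T3.l7
  (TrL.c (I.mix (nat_lit 41527258) (nat_lit 41530880)) T1.l11
  (TrL.c (I.mix (nat_lit 41527258) (nat_lit 4274)) T3.l11
  TrL.n)))) (by decide +kernel)
theorem sv5 : StarV sI cl6 cl5 cl4 t3 t1 t5 :=
  (bt_n (bt_n (bt_n (bt_b bx5_0) (bt_b bx5_1)) (bt_n (bt_b bx5_2) (bt_n (bt_b bx5_3) (bt_b bx5_4)))) (bt_n (bt_n (bt_b bx5_5) (bt_b bx5_6)) (bt_n (bt_b bx5_7) (bt_n (bt_b bx5_8) (bt_b bx5_9)))))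
def S5 : StarD := StarD.mk cl6 cl5 cl4 3 1 t5
def G : List StarD := [S0, S1, S2, S3, S4, S5]
theorem so0 : StarOK sI G S0 :=
  star_mk (by decide) (by decide) rfl rfl rfl rfl rfl rfl (rfl : _ = t2) (rfl : _ = t4)
  (st_mk (Pth.l (Pth.l (Pth.l Pth.z))) (nat_lit 250742977) (nat_lit 253062133) (by decide +kernel))
  (st_mk (Pth.l (Pth.l (Pth.l Pth.z))) (nat_lit 289809315) (nat_lit 292968451) (by decide +kernel))
  (st_mk (Pth.l (Pth.l (Pth.l Pth.z))) (nat_lit 335749077) (nat_lit 340092479) (by decide +kernel)) sv0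
theorem so1 : StarOK sI G S1 :=
  star_mk (by decide) (by decide) rfl rfl rfl rfl rfl rfl (rfl : _ = t4) (rfl : _ = t2)
  (st_mk (Pth.l (Pth.l (Pth.l Pth.z))) (nat_lit 194907578) (nat_lit 196534644) (by decide +kernel))
  (st_mk (Pth.l (Pth.l (Pth.l Pth.z))) (nat_lit 233649680) (nat_lit 236039745) (by decide +kernel))
  (st_mk (Pth.l (Pth.l (Pth.l Pth.z))) (nat_lit 279344191) (nat_lit 282856341) (by decide +kernel)) sv1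
theorem so2 : StarOK sI G S2 :=
  star_mk (by decide) (by decide) rfl rfl rfl rfl rfl rfl (rfl : _ = t0) (rfl : _ = t5)
  (st_mk (Pth.l (Pth.l Pth.z)) (nat_lit 380125286) (nat_lit 382867486) (by decide +kernel))
  (st_mk (Pth.l (Pth.l Pth.z)) (nat_lit 418189074) (nat_lit 421539386) (by decide +kernel))
  (st_mk (Pth.l (Pth.l Pth.z)) (nat_lit 462524147) (nat_lit 466669454) (by decide +kernel)) sv2
theorem so3 : StarOK sI G S3 :=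
  star_mk (by decide) (by decide) rfl rfl rfl rfl rfl rfl (rfl : _ = t5) (rfl : _ = t0)
  (st_mk (Pth.l (Pth.l (Pth.l Pth.z))) (nat_lit 192131778) (nat_lit 193209966) (by decide +kernel))
  (st_mk (Pth.l (Pth.l (Pth.l Pth.z))) (nat_lit 229607066) (nat_lit 231166691) (by decide +kernel))
  (st_mk (Pth.l (Pth.l (Pth.l Pth.z))) (nat_lit 273472958) (nat_lit 275722600) (by decide +kernel)) sv3
theorem so4 : StarOK sI G S4 :=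
  star_mk (by decide) (by decide) rfl rfl rfl rfl rfl rfl (rfl : _ = t1) (rfl : _ = t3)
  (st_mk (Pth.l (Pth.l Pth.z)) (nat_lit 375977886) (nat_lit 377916002) (by decide +kernel))
  (st_mk (Pth.l (Pth.l Pth.z)) (nat_lit 413138346) (nat_lit 415492631) (by decide +kernel))
  (st_mk (Pth.l (Pth.l Pth.z)) (nat_lit 456300814) (nat_lit 459194100) (by decide +kernel)) sv4
theorem so5 : StarOK sI G S5 :=
  star_mk (by decide) (by decide) rfl rfl rfl rfl rfl rfl (rfl : _ = t3) (rfl : _ = t1)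
  (st_mk (Pth.l (Pth.l (Pth.l Pth.z))) (nat_lit 244486909) (nat_lit 245573396) (by decide +kernel))
  (st_mk (Pth.l (Pth.l (Pth.l Pth.z))) (nat_lit 281382493) (nat_lit 282831801) (by decide +kernel))
  (st_mk (Pth.l (Pth.l (Pth.l Pth.z))) (nat_lit 324327814) (nat_lit 326271264) (by decide +kernel)) sv5
theorem ok : GroupOK (nat_lit 91226112) (nat_lit 150339584) G := grp_mk (allS_c so0 (allS_c so1 (allS_c so2 (allS_c so3 (allS_c so4 (allS_c so5 allS_n))))))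
theorem cov : GCov G cl4 cl5 cl6 := cov_mk
  ⟨0, by decide, rfl, rfl, rfl⟩ ⟨1, by decide, rfl, rfl, rfl⟩ ⟨2, by decide, rfl, rfl, rfl⟩ ⟨3, by decide, rfl, rfl, rfl⟩ ⟨4, by decide, rfl, rfl, rfl⟩ ⟨5, by decide, rfl, rfl, rfl⟩
end Q123_1

namespace Q123_2
def sI : I := I.pos (nat_lit 150274048) (nat_lit 209387520)
def b0_0 : Bx := Bx.mk (St.mk (I.pos (nat_lit 144736256) (nat_lit 227033088)) (I.mix (nat_lit 6799360) (nat_lit 78807040)) (I.mix (nat_lit 7110656) (nat_lit 77119488)) (I.pos (nat_lit 242401280) (nat_lit 367034368)) (I.mix (nat_lit 152780800) (nat_lit 111902720)) (I.mix (nat_lit 96485376) (nat_lit 96911360)) (I.mix (nat_lit 167165952) (nat_lit 152354816)))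
  false (nat_lit 0)
def b0_1 : Bx := Bx.mk (St.mk (I.pos (nat_lit 22446080) (nat_lit 65503232)) (I.mix (nat_lit 13451264) (nat_lit 48939008)) (I.neg (nat_lit 7716864) (nat_lit 39714816)) (I.pos (nat_lit 143769600) (nat_lit 164544512)) (I.mix (nat_lit 62603264) (nat_lit 84541440)) (I.mix (nat_lit 68075520) (nat_lit 50003968)) (I.mix (nat_lit 38862848) (nat_lit 25640960)))
  false (nat_lit 0)
def b0_2 : Bx := Bx.mk (St.mk (I.pos (nat_lit 49741824) (nat_lit 96944128)) (I.mix (nat_lit 64241664) (nat_lit 17629184)) (I.neg (nat_lit 21987328) (nat_lit 71680000)) (I.pos (nat_lit 149078016) (nat_lit 183287808)) (I.mix (nat_lit 128286720) (nat_lit 62095360)) (I.mix (nat_lit 59195392) (nat_lit 108593152)) (I.mix (nat_lit 42876928) (nat_lit 66158592)))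
  false (nat_lit 0)
def b0_3 : Bx := Bx.mk (St.mk (I.neg (nat_lit 21987328) (nat_lit 69189632)) (I.mix (nat_lit 48889856) (nat_lit 15073280)) (I.neg (nat_lit 7716864) (nat_lit 39600128)) (I.pos (nat_lit 143769600) (nat_lit 164544512)) (I.mix (nat_lit 84541440) (nat_lit 62357504)) (I.mix (nat_lit 50003968) (nat_lit 68075520)) (I.mix (nat_lit 38862848) (nat_lit 25591808)))
  true (nat_lit 0)
def b0_4 : Bx := Bx.mk (St.mk (I.pos (nat_lit 29310976) (nat_lit 68042752)) (I.mix (nat_lit 16285696) (nat_lit 27983872)) (I.neg (nat_lit 18563072) (nat_lit 41058304)) (I.pos (nat_lit 142802944) (nat_lit 163168256)) (I.mix (nat_lit 62750720) (nat_lit 47726592)) (I.mix (nat_lit 46333952) (nat_lit 43991040)) (I.mix (nat_lit 24903680) (nat_lit 25739264)))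
  false (nat_lit 0)
def b0_5 : Bx := Bx.mk (St.mk (I.pos (nat_lit 200261632) (nat_lit 253689856)) (I.mix (nat_lit 21528576) (nat_lit 21233664)) (I.neg (nat_lit 38830080) (nat_lit 115900416)) (I.pos (nat_lit 315981824) (nat_lit 408371200)) (I.mix (nat_lit 144080896) (nat_lit 37699584)) (I.mix (nat_lit 82952192) (nat_lit 92946432)) (I.mix (nat_lit 127107072) (nat_lit 183615488)))
  false (nat_lit 0)
def b0_6 : Bx := Bx.mk (St.mk (I.pos (nat_lit 172195840) (nat_lit 245284864)) (I.mix (nat_lit 20267008) (nat_lit 74989568)) (I.mix (nat_lit 109428736) (nat_lit 63209472)) (I.pos (nat_lit 296337408) (nat_lit 390791168)) (I.mix (nat_lit 146997248) (nat_lit 124502016)) (I.mix (nat_lit 123437056) (nat_lit 112295936)) (I.mix (nat_lit 216367104) (nat_lit 186728448)))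
  false (nat_lit 0)
def b0_7 : Bx := Bx.mk (St.mk (I.pos (nat_lit 52412416) (nat_lit 155353088)) (I.neg (nat_lit 1114112) (nat_lit 68403200)) (I.neg (nat_lit 15581184) (nat_lit 77611008)) (I.pos (nat_lit 155385856) (nat_lit 238944256)) (I.mix (nat_lit 108150784) (nat_lit 75120640)) (I.mix (nat_lit 59506688) (nat_lit 93437952)) (I.mix (nat_lit 51200000) (nat_lit 83918848)))
  false (nat_lit 0)
def b0_8 : Bx := Bx.mk (St.mk (I.mix (nat_lit 47087616) (nat_lit 15286272)) (I.mix (nat_lit 44253184) (nat_lit 15286272)) (I.neg (nat_lit 11010048) (nat_lit 18219008)) (I.pos (nat_lit 142884864) (nat_lit 156827648)) (I.mix (nat_lit 46628864) (nat_lit 51593216)) (I.mix (nat_lit 32112640) (nat_lit 49512448)) (I.mix (nat_lit 10125312) (nat_lit 9158656)))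
  true (nat_lit 0)
def b0_9 : Bx := Bx.mk (St.mk (I.pos (nat_lit 143474688) (nat_lit 199704576)) (I.mix (nat_lit 3932160) (nat_lit 64290816)) (I.mix (nat_lit 11616256) (nat_lit 62341120)) (I.pos (nat_lit 239468544) (nat_lit 312377344)) (I.mix (nat_lit 139526144) (nat_lit 51707904)) (I.mix (nat_lit 126353408) (nat_lit 75972608)) (I.mix (nat_lit 122028032) (nat_lit 82067456)))
  false (nat_lit 0)
def b0_10 : Bx := Bx.mk (St.mk (I.mix (nat_lit 15286272) (nat_lit 47087616)) (I.mix (nat_lit 16547840) (nat_lit 44367872)) (I.neg (nat_lit 11010048) (nat_lit 18219008)) (I.pos (nat_lit 142884864) (nat_lit 156827648)) (I.mix (nat_lit 51593216) (nat_lit 46628864)) (I.mix (nat_lit 49512448) (nat_lit 32112640)) (I.mix (nat_lit 10125312) (nat_lit 9158656)))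
  false (nat_lit 0)
def b0_11 : Bx := Bx.mk (St.mk (I.pos (nat_lit 106577920) (nat_lit 184451072)) (I.mix (nat_lit 40501248) (nat_lit 11649024)) (I.neg (nat_lit 606208) (nat_lit 54624256)) (I.pos (nat_lit 193363968) (nat_lit 278134784)) (I.mix (nat_lit 83623936) (nat_lit 84115456)) (I.mix (nat_lit 82804736) (nat_lit 79069184)) (I.mix (nat_lit 84525056) (nat_lit 72974336)))
  false (nat_lit 0)
def b0_12 : Bx := Bx.mk (St.mk (I.pos (nat_lit 142508032) (nat_lit 187826176)) (I.mix (nat_lit 11091968) (nat_lit 41107456)) (I.mix (nat_lit 23379968) (nat_lit 37863424)) (I.pos (nat_lit 240599040) (nat_lit 285229056)) (I.mix (nat_lit 135708672) (nat_lit 83771392)) (I.mix (nat_lit 138035200) (nat_lit 74317824)) (I.mix (nat_lit 135413760) (nat_lit 74088448)))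
  false (nat_lit 0)
def t0 : BTr := (BTr.n (BTr.n (BTr.n (BTr.b b0_0) (BTr.n (BTr.b b0_1) (BTr.b b0_2))) (BTr.n (BTr.b b0_3) (BTr.n (BTr.b b0_4) (BTr.b b0_5)))) (BTr.n (BTr.n (BTr.b b0_6) (BTr.n (BTr.b b0_7) (BTr.b b0_8))) (BTr.n (BTr.n (BTr.b b0_9) (BTr.b b0_10)) (BTr.n (BTr.b b0_11) (BTr.b b0_12)))))
namespace T0
def l0 : Tr := Tr.L (Pth.l (Pth.l (Pth.l Pth.z)))
def l1 : Tr := Tr.L (Pth.l (Pth.l (Pth.r (Pth.l Pth.z))))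
def l2 : Tr := Tr.L (Pth.l (Pth.l (Pth.r (Pth.r Pth.z))))
def l3 : Tr := Tr.L (Pth.l (Pth.r (Pth.l Pth.z)))
def l4 : Tr := Tr.L (Pth.l (Pth.r (Pth.r (Pth.l Pth.z))))
def l5 : Tr := Tr.L (Pth.l (Pth.r (Pth.r (Pth.r Pth.z))))
def l6 : Tr := Tr.L (Pth.r (Pth.l (Pth.l Pth.z)))
def l7 : Tr := Tr.L (Pth.r (Pth.l (Pth.r (Pth.l Pth.z))))
def l8 : Tr := Tr.L (Pth.r (Pth.l (Pth.r (Pth.r Pth.z))))
def l9 : Tr := Tr.L (Pth.r (Pth.r (Pth.l (Pth.l Pth.z))))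
def l10 : Tr := Tr.L (Pth.r (Pth.r (Pth.l (Pth.r Pth.z))))
def l11 : Tr := Tr.L (Pth.r (Pth.r (Pth.r (Pth.l Pth.z))))
def l12 : Tr := Tr.L (Pth.r (Pth.r (Pth.r (Pth.r Pth.z))))
end T0
def b1_0 : Bx := Bx.mk (St.mk (I.pos (nat_lit 144998400) (nat_lit 229031936)) (I.mix (nat_lit 5619712) (nat_lit 67665920)) (I.mix (nat_lit 7159808) (nat_lit 83656704)) (I.pos (nat_lit 186138624) (nat_lit 310312960)) (I.mix (nat_lit 143982592) (nat_lit 102924288)) (I.mix (nat_lit 96976896) (nat_lit 87179264)) (I.mix (nat_lit 155746304) (nat_lit 141443072)))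
  false (nat_lit 0)
def b1_1 : Bx := Bx.mk (St.mk (I.mix (nat_lit 46694400) (nat_lit 105185280)) (I.mix (nat_lit 11747328) (nat_lit 47480832)) (I.mix (nat_lit 25198592) (nat_lit 9994240)) (I.pos (nat_lit 75595776) (nat_lit 128811008)) (I.mix (nat_lit 62570496) (nat_lit 75612160)) (I.mix (nat_lit 60899328) (nat_lit 47923200)) (I.mix (nat_lit 40976384) (nat_lit 26083328)))
  false (nat_lit 0)
def b1_2 : Bx := Bx.mk (St.mk (I.pos (nat_lit 76480512) (nat_lit 123895808)) (I.mix (nat_lit 65896448) (nat_lit 13369344)) (I.neg (nat_lit 7585792) (nat_lit 64978944)) (I.pos (nat_lit 112492544) (nat_lit 149553152)) (I.mix (nat_lit 123240448) (nat_lit 50806784)) (I.mix (nat_lit 62455808) (nat_lit 97370112)) (I.mix (nat_lit 44007424) (nat_lit 65748992)))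
  false (nat_lit 0)
def b1_3 : Bx := Bx.mk (St.mk (I.mix (nat_lit 47710208) (nat_lit 32817152)) (I.mix (nat_lit 36683776) (nat_lit 9158656)) (I.neg (nat_lit 1179648) (nat_lit 17072128)) (I.pos (nat_lit 83656704) (nat_lit 102957056)) (I.mix (nat_lit 54329344) (nat_lit 37076992)) (I.mix (nat_lit 29917184) (nat_lit 43368448)) (I.mix (nat_lit 17661952) (nat_lit 10813440)))
  false (nat_lit 0)
def b1_4 : Bx := Bx.mk (St.mk (I.pos (nat_lit 178274304) (nat_lit 241582080)) (I.mix (nat_lit 16695296) (nat_lit 63733760)) (I.mix (nat_lit 73302016) (nat_lit 74989568)) (I.pos (nat_lit 246988800) (nat_lit 327254016)) (I.mix (nat_lit 133808128) (nat_lit 116457472)) (I.mix (nat_lit 121634816) (nat_lit 101728256)) (I.mix (nat_lit 208224256) (nat_lit 160071680)))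
  false (nat_lit 0)
def b1_5 : Bx := Bx.mk (St.mk (I.mix (nat_lit 63700992) (nat_lit 10584064)) (I.mix (nat_lit 12206080) (nat_lit 15548416)) (I.neg (nat_lit 8667136) (nat_lit 20054016)) (I.pos (nat_lit 87801856) (nat_lit 105316352)) (I.mix (nat_lit 38322176) (nat_lit 31670272)) (I.mix (nat_lit 29933568) (nat_lit 28590080)) (I.mix (nat_lit 12075008) (nat_lit 12156928)))
  false (nat_lit 0)
def b1_6 : Bx := Bx.mk (St.mk (I.pos (nat_lit 62177280) (nat_lit 96419840)) (I.mix (nat_lit 14467072) (nat_lit 16826368)) (I.neg (nat_lit 5390336) (nat_lit 26624000)) (I.pos (nat_lit 105267200) (nat_lit 127156224)) (I.mix (nat_lit 51625984) (nat_lit 37044224)) (I.mix (nat_lit 35454976) (nat_lit 33423360)) (I.mix (nat_lit 23166976) (nat_lit 23199744)))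
  false (nat_lit 0)
def b1_7 : Bx := Bx.mk (St.mk (I.pos (nat_lit 204636160) (nat_lit 257622016)) (I.mix (nat_lit 19513344) (nat_lit 23707648)) (I.neg (nat_lit 3571712) (nat_lit 85704704)) (I.pos (nat_lit 276496384) (nat_lit 364937216)) (I.mix (nat_lit 132694016) (nat_lit 33226752)) (I.mix (nat_lit 71090176) (nat_lit 80592896)) (I.mix (nat_lit 120127488) (nat_lit 156663808)))
  false (nat_lit 0)
def b1_8 : Bx := Bx.mk (St.mk (I.pos (nat_lit 64094208) (nat_lit 158515200)) (I.neg (nat_lit 770048) (nat_lit 62767104)) (I.neg (nat_lit 13139968) (nat_lit 64421888)) (I.pos (nat_lit 117506048) (nat_lit 189562880)) (I.mix (nat_lit 109002752) (nat_lit 60063744)) (I.mix (nat_lit 52625408) (nat_lit 75055104)) (I.mix (nat_lit 39763968) (nat_lit 68501504)))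
  false (nat_lit 0)
def b1_9 : Bx := Bx.mk (St.mk (I.mix (nat_lit 42024960) (nat_lit 52396032)) (I.mix (nat_lit 36536320) (nat_lit 5931008)) (I.neg (nat_lit 2981888) (nat_lit 20365312)) (I.pos (nat_lit 81870848) (nat_lit 103776256)) (I.mix (nat_lit 50135040) (nat_lit 38748160)) (I.mix (nat_lit 28606464) (nat_lit 38813696)) (I.mix (nat_lit 15237120) (nat_lit 15515648)))
  false (nat_lit 0)
def b1_10 : Bx := Bx.mk (St.mk (I.pos (nat_lit 151912448) (nat_lit 209027072)) (I.mix (nat_lit 5849088) (nat_lit 65781760)) (I.pos (nat_lit 1409024) (nat_lit 79740928)) (I.pos (nat_lit 194723840) (nat_lit 270991360)) (I.mix (nat_lit 150224896) (nat_lit 66437120)) (I.mix (nat_lit 131055616) (nat_lit 91635712)) (I.mix (nat_lit 124321792) (nat_lit 91275264)))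
  false (nat_lit 0)
def b1_11 : Bx := Bx.mk (St.mk (I.mix (nat_lit 58884096) (nat_lit 93552640)) (I.mix (nat_lit 6225920) (nat_lit 35110912)) (I.mix (nat_lit 20267008) (nat_lit 7274496)) (I.pos (nat_lit 83951616) (nat_lit 113213440)) (I.mix (nat_lit 27394048) (nat_lit 33226752)) (I.mix (nat_lit 21938176) (nat_lit 15253504)) (I.mix (nat_lit 8732672) (nat_lit 9371648)))
  false (nat_lit 0)
def b1_12 : Bx := Bx.mk (St.mk (I.pos (nat_lit 132988928) (nat_lit 189693952)) (I.mix (nat_lit 37552128) (nat_lit 6275072)) (I.mix (nat_lit 44351488) (nat_lit 5586944)) (I.pos (nat_lit 161742848) (nat_lit 232554496)) (I.mix (nat_lit 78741504) (nat_lit 76693504)) (I.mix (nat_lit 79052800) (nat_lit 70533120)) (I.mix (nat_lit 80068608) (nat_lit 66732032)))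
  false (nat_lit 0)
def b1_13 : Bx := Bx.mk (St.mk (I.pos (nat_lit 136577024) (nat_lit 152420352)) (I.neg (nat_lit 15597568) (nat_lit 37142528)) (I.neg (nat_lit 18644992) (nat_lit 42680320)) (I.pos (nat_lit 167362560) (nat_lit 183615488)) (I.mix (nat_lit 28262400) (nat_lit 15794176)) (I.mix (nat_lit 14057472) (nat_lit 16629760)) (I.mix (nat_lit 15433728) (nat_lit 16809984)))
  false (nat_lit 0)
def b1_14 : Bx := Bx.mk (St.mk (I.mix (nat_lit 61079552) (nat_lit 64012288)) (I.mix (nat_lit 17104896) (nat_lit 6864896)) (I.neg (nat_lit 1802240) (nat_lit 12255232)) (I.pos (nat_lit 87687168) (nat_lit 102825984)) (I.mix (nat_lit 19595264) (nat_lit 20447232)) (I.mix (nat_lit 13451264) (nat_lit 13647872)) (I.mix (nat_lit 6242304) (nat_lit 5619712)))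
  false (nat_lit 0)
def b1_15 : Bx := Bx.mk (St.mk (I.pos (nat_lit 150552576) (nat_lit 190496768)) (I.mix (nat_lit 16433152) (nat_lit 27262976)) (I.mix (nat_lit 13991936) (nat_lit 36421632)) (I.pos (nat_lit 191987712) (nat_lit 231899136)) (I.mix (nat_lit 120750080) (nat_lit 73973760)) (I.mix (nat_lit 126926848) (nat_lit 73826304)) (I.mix (nat_lit 126959616) (nat_lit 71696384)))
  false (nat_lit 0)
def t1 : BTr := (BTr.n (BTr.n (BTr.n (BTr.n (BTr.b b1_0) (BTr.b b1_1)) (BTr.n (BTr.b b1_2) (BTr.b b1_3))) (BTr.n (BTr.n (BTr.b b1_4) (BTr.b b1_5)) (BTr.n (BTr.b b1_6) (BTr.b b1_7)))) (BTr.n (BTr.n (BTr.n (BTr.b b1_8) (BTr.b b1_9)) (BTr.n (BTr.b b1_10) (BTr.b b1_11))) (BTr.n (BTr.n (BTr.b b1_12) (BTr.b b1_13)) (BTr.n (BTr.b b1_14) (BTr.b b1_15)))))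
namespace T1
def l0 : Tr := Tr.L (Pth.l (Pth.l (Pth.l (Pth.l Pth.z))))
def l1 : Tr := Tr.L (Pth.l (Pth.l (Pth.l (Pth.r Pth.z))))
def l2 : Tr := Tr.L (Pth.l (Pth.l (Pth.r (Pth.l Pth.z))))
def l3 : Tr := Tr.L (Pth.l (Pth.l (Pth.r (Pth.r Pth.z))))
def l4 : Tr := Tr.L (Pth.l (Pth.r (Pth.l (Pth.l Pth.z))))
def l5 : Tr := Tr.L (Pth.l (Pth.r (Pth.l (Pth.r Pth.z))))
def l6 : Tr := Tr.L (Pth.l (Pth.r (Pth.r (Pth.l Pth.z))))
def l7 : Tr := Tr.L (Pth.l (Pth.r (Pth.r (Pth.r Pth.z))))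
def l8 : Tr := Tr.L (Pth.r (Pth.l (Pth.l (Pth.l Pth.z))))
def l9 : Tr := Tr.L (Pth.r (Pth.l (Pth.l (Pth.r Pth.z))))
def l10 : Tr := Tr.L (Pth.r (Pth.l (Pth.r (Pth.l Pth.z))))
def l11 : Tr := Tr.L (Pth.r (Pth.l (Pth.r (Pth.r Pth.z))))
def l12 : Tr := Tr.L (Pth.r (Pth.r (Pth.l (Pth.l Pth.z))))
def l13 : Tr := Tr.L (Pth.r (Pth.r (Pth.l (Pth.r Pth.z))))
def l14 : Tr := Tr.L (Pth.r (Pth.r (Pth.r (Pth.l Pth.z))))
def l15 : Tr := Tr.L (Pth.r (Pth.r (Pth.r (Pth.r Pth.z))))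
end T1
def b2_0 : Bx := Bx.mk (St.mk (I.pos (nat_lit 130646016) (nat_lit 222363648)) (I.mix (nat_lit 8699904) (nat_lit 99221504)) (I.mix (nat_lit 8175616) (nat_lit 92831744)) (I.pos (nat_lit 373112832) (nat_lit 480690176)) (I.mix (nat_lit 199262208) (nat_lit 119701504)) (I.mix (nat_lit 128958464) (nat_lit 113868800)) (I.mix (nat_lit 155287552) (nat_lit 163364864)))
  false (nat_lit 33629359)
def b2_1 : Bx := Bx.mk (St.mk (I.mix (nat_lit 59768832) (nat_lit 18219008)) (I.mix (nat_lit 16187392) (nat_lit 92504064)) (I.neg (nat_lit 49807360) (nat_lit 74530816)) (I.pos (nat_lit 264142848) (nat_lit 298385408)) (I.mix (nat_lit 84033536) (nat_lit 150093824)) (I.mix (nat_lit 115687424) (nat_lit 102088704)) (I.mix (nat_lit 62898176) (nat_lit 51347456)))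
  true (nat_lit 0)
def b2_2 : Bx := Bx.mk (St.mk (I.pos (nat_lit 3112960) (nat_lit 57606144)) (I.neg (nat_lit 24690688) (nat_lit 92258304)) (I.neg (nat_lit 50708480) (nat_lit 74481664)) (I.pos (nat_lit 270204928) (nat_lit 297844736)) (I.mix (nat_lit 150093824) (nat_lit 84033536)) (I.mix (nat_lit 102088704) (nat_lit 115687424)) (I.mix (nat_lit 62898176) (nat_lit 51347456)))
  false (nat_lit 46077234)
def b2_3 : Bx := Bx.mk (St.mk (I.pos (nat_lit 11780096) (nat_lit 138313728)) (I.mix (nat_lit 92618752) (nat_lit 1212416)) (I.neg (nat_lit 1196032) (nat_lit 86179840)) (I.pos (nat_lit 267452416) (nat_lit 345849856)) (I.mix (nat_lit 150667264) (nat_lit 97402880)) (I.mix (nat_lit 94879744) (nat_lit 103481344)) (I.mix (nat_lit 106528768) (nat_lit 86982656)))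
  false (nat_lit 46734053)
def b2_4 : Bx := Bx.mk (St.mk (I.pos (nat_lit 79036416) (nat_lit 187711488)) (I.mix (nat_lit 40239104) (nat_lit 85147648)) (I.mix (nat_lit 40370176) (nat_lit 84246528)) (I.pos (nat_lit 293765120) (nat_lit 435257344)) (I.mix (nat_lit 185581568) (nat_lit 100253696)) (I.mix (nat_lit 155893760) (nat_lit 136314880)) (I.mix (nat_lit 169934848) (nat_lit 165478400)))
  false (nat_lit 16583203)
def b2_5 : Bx := Bx.mk (St.mk (I.neg (nat_lit 11763712) (nat_lit 138313728)) (I.mix (nat_lit 4882432) (nat_lit 92618752)) (I.mix (nat_lit 86130688) (nat_lit 2359296)) (I.pos (nat_lit 267452416) (nat_lit 347242496)) (I.mix (nat_lit 97402880) (nat_lit 150683648)) (I.mix (nat_lit 103497728) (nat_lit 94879744)) (I.mix (nat_lit 106528768) (nat_lit 86999040)))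
  true (nat_lit 0)
def b2_6 : Bx := Bx.mk (St.mk (I.pos (nat_lit 170016768) (nat_lit 275759104)) (I.mix (nat_lit 15400960) (nat_lit 55296000)) (I.mix (nat_lit 149471232) (nat_lit 14123008)) (I.pos (nat_lit 402079744) (nat_lit 576077824)) (I.mix (nat_lit 127254528) (nat_lit 100564992)) (I.mix (nat_lit 92536832) (nat_lit 88178688)) (I.mix (nat_lit 159744000) (nat_lit 152190976)))
  false (nat_lit 0)
def b2_7 : Bx := Bx.mk (St.mk (I.mix (nat_lit 17514496) (nat_lit 45760512)) (I.mix (nat_lit 46776320) (nat_lit 14565376)) (I.neg (nat_lit 50987008) (nat_lit 61325312)) (I.pos (nat_lit 266665984) (nat_lit 283213824)) (I.mix (nat_lit 69337088) (nat_lit 64634880)) (I.mix (nat_lit 55001088) (nat_lit 51986432)) (I.mix (nat_lit 18366464) (nat_lit 18792448)))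
  false (nat_lit 0)
def b2_8 : Bx := Bx.mk (St.mk (I.mix (nat_lit 13156352) (nat_lit 13025280)) (I.mix (nat_lit 9306112) (nat_lit 22134784)) (I.neg (nat_lit 54657024) (nat_lit 58343424)) (I.pos (nat_lit 267304960) (nat_lit 274513920)) (I.mix (nat_lit 18382848) (nat_lit 32653312)) (I.mix (nat_lit 17563648) (nat_lit 12255232)) (I.mix (nat_lit 2621440) (nat_lit 3817472)))
  true (nat_lit 0)
def b2_9 : Bx := Bx.mk (St.mk (I.pos (nat_lit 156319744) (nat_lit 221872128)) (I.pos (nat_lit 20725760) (nat_lit 92946432)) (I.mix (nat_lit 28786688) (nat_lit 72859648)) (I.pos (nat_lit 406028288) (nat_lit 471891968)) (I.mix (nat_lit 136167424) (nat_lit 101679104)) (I.mix (nat_lit 108511232) (nat_lit 75350016)) (I.mix (nat_lit 177471488) (nat_lit 110264320)))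
  false (nat_lit 0)
def b2_10 : Bx := Bx.mk (St.mk (I.pos (nat_lit 8323072) (nat_lit 44630016)) (I.neg (nat_lit 13008896) (nat_lit 73826304)) (I.neg (nat_lit 52264960) (nat_lit 71745536)) (I.pos (nat_lit 269172736) (nat_lit 287883264)) (I.mix (nat_lit 94355456) (nat_lit 38780928)) (I.mix (nat_lit 30818304) (nat_lit 63307776)) (I.mix (nat_lit 24395776) (nat_lit 14925824)))
  false (nat_lit 0)
def t2 : BTr := (BTr.n (BTr.n (BTr.n (BTr.b b2_0) (BTr.b b2_1)) (BTr.n (BTr.b b2_2) (BTr.n (BTr.b b2_3) (BTr.b b2_4)))) (BTr.n (BTr.n (BTr.b b2_5) (BTr.n (BTr.b b2_6) (BTr.b b2_7))) (BTr.n (BTr.b b2_8) (BTr.n (BTr.b b2_9) (BTr.b b2_10)))))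
namespace T2
def l0 : Tr := Tr.L (Pth.l (Pth.l (Pth.l Pth.z)))
def l1 : Tr := Tr.L (Pth.l (Pth.l (Pth.r Pth.z)))
def l2 : Tr := Tr.L (Pth.l (Pth.r (Pth.l Pth.z)))
def l3 : Tr := Tr.L (Pth.l (Pth.r (Pth.r (Pth.l Pth.z))))
def l4 : Tr := Tr.L (Pth.l (Pth.r (Pth.r (Pth.r Pth.z))))
def l5 : Tr := Tr.L (Pth.r (Pth.l (Pth.l Pth.z)))
def l6 : Tr := Tr.L (Pth.r (Pth.l (Pth.r (Pth.l Pth.z))))
def l7 : Tr := Tr.L (Pth.r (Pth.l (Pth.r (Pth.r Pth.z))))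
def l8 : Tr := Tr.L (Pth.r (Pth.r (Pth.l Pth.z)))
def l9 : Tr := Tr.L (Pth.r (Pth.r (Pth.r (Pth.l Pth.z))))
def l10 : Tr := Tr.L (Pth.r (Pth.r (Pth.r (Pth.r Pth.z))))
end T2
def b3_0 : Bx := Bx.mk (St.mk (I.pos (nat_lit 136019968) (nat_lit 221216768)) (I.mix (nat_lit 4866048) (nat_lit 57016320)) (I.mix (nat_lit 9175040) (nat_lit 103432192)) (I.pos (nat_lit 183795712) (nat_lit 287440896)) (I.mix (nat_lit 131137536) (nat_lit 73383936)) (I.mix (nat_lit 94502912) (nat_lit 79036416)) (I.mix (nat_lit 121208832) (nat_lit 105381888)))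
  false (nat_lit 0)
def b3_1 : Bx := Bx.mk (St.mk (I.pos (nat_lit 76120064) (nat_lit 149766144)) (I.neg (nat_lit 3686400) (nat_lit 68993024)) (I.mix (nat_lit 49856512) (nat_lit 14073856)) (I.pos (nat_lit 128548864) (nat_lit 176816128)) (I.mix (nat_lit 110641152) (nat_lit 86228992)) (I.mix (nat_lit 67305472) (nat_lit 91226112)) (I.mix (nat_lit 56066048) (nat_lit 79577088)))
  false (nat_lit 0)
def b3_2 : Bx := Bx.mk (St.mk (I.mix (nat_lit 35291136) (nat_lit 48119808)) (I.mix (nat_lit 36175872) (nat_lit 9355264)) (I.mix (nat_lit 5767168) (nat_lit 9715712)) (I.pos (nat_lit 84279296) (nat_lit 102580224)) (I.mix (nat_lit 37912576) (nat_lit 49938432)) (I.mix (nat_lit 29982720) (nat_lit 40189952)) (I.mix (nat_lit 11190272) (nat_lit 15663104)))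
  false (nat_lit 0)
def b3_3 : Bx := Bx.mk (St.mk (I.pos (nat_lit 144031744) (nat_lit 202457088)) (I.mix (nat_lit 10649600) (nat_lit 59129856)) (I.pos (nat_lit 21676032) (nat_lit 100401152)) (I.pos (nat_lit 177553408) (nat_lit 249348096)) (I.mix (nat_lit 160088064) (nat_lit 62341120)) (I.mix (nat_lit 149913600) (nat_lit 93388800)) (I.mix (nat_lit 151224320) (nat_lit 84721664)))
  false (nat_lit 0)
def b3_4 : Bx := Bx.mk (St.mk (I.mix (nat_lit 51003392) (nat_lit 80068608)) (I.mix (nat_lit 13336576) (nat_lit 45170688)) (I.mix (nat_lit 7143424) (nat_lit 22151168)) (I.pos (nat_lit 82640896) (nat_lit 113917952)) (I.mix (nat_lit 70205440) (nat_lit 49922048)) (I.mix (nat_lit 54657024) (nat_lit 42156032)) (I.mix (nat_lit 20512768) (nat_lit 21676032)))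
  false (nat_lit 0)
def b3_5 : Bx := Bx.mk (St.mk (I.pos (nat_lit 144080896) (nat_lit 185909248)) (I.mix (nat_lit 43892736) (nat_lit 20283392)) (I.mix (nat_lit 19431424) (nat_lit 52854784)) (I.pos (nat_lit 176226304) (nat_lit 222314496)) (I.mix (nat_lit 120356864) (nat_lit 82034688)) (I.mix (nat_lit 130727936) (nat_lit 77856768)) (I.mix (nat_lit 128057344) (nat_lit 74465280)))
  false (nat_lit 0)
def b3_6 : Bx := Bx.mk (St.mk (I.mix (nat_lit 69468160) (nat_lit 68616192)) (I.mix (nat_lit 16105472) (nat_lit 15319040)) (I.pos (nat_lit 1458176) (nat_lit 11862016)) (I.pos (nat_lit 85868544) (nat_lit 105922560)) (I.mix (nat_lit 41598976) (nat_lit 31391744)) (I.mix (nat_lit 27885568) (nat_lit 30998528)) (I.mix (nat_lit 12533760) (nat_lit 12288000)))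
  false (nat_lit 0)
def b3_7 : Bx := Bx.mk (St.mk (I.pos (nat_lit 109789184) (nat_lit 158515200)) (I.neg (nat_lit 1327104) (nat_lit 42172416)) (I.mix (nat_lit 19955712) (nat_lit 19726336)) (I.pos (nat_lit 147865600) (nat_lit 189153280)) (I.mix (nat_lit 86720512) (nat_lit 50380800)) (I.mix (nat_lit 42762240) (nat_lit 61325312)) (I.mix (nat_lit 43991040) (nat_lit 53002240)))
  false (nat_lit 0)
def b3_8 : Bx := Bx.mk (St.mk (I.pos (nat_lit 136822784) (nat_lit 168263680)) (I.neg (nat_lit 7618560) (nat_lit 38305792)) (I.mix (nat_lit 18251776) (nat_lit 15384576)) (I.pos (nat_lit 171147264) (nat_lit 202473472)) (I.mix (nat_lit 47923200) (nat_lit 33079296)) (I.mix (nat_lit 30343168) (nat_lit 29818880)) (I.mix (nat_lit 32735232) (nat_lit 28688384)))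
  false (nat_lit 0)
def b3_9 : Bx := Bx.mk (St.mk (I.mix (nat_lit 58621952) (nat_lit 105693184)) (I.mix (nat_lit 6406144) (nat_lit 46202880)) (I.mix (nat_lit 4587520) (nat_lit 30949376)) (I.pos (nat_lit 72761344) (nat_lit 129105920)) (I.mix (nat_lit 66764800) (nat_lit 54870016)) (I.mix (nat_lit 53936128) (nat_lit 40927232)) (I.mix (nat_lit 36601856) (nat_lit 27262976)))
  false (nat_lit 0)
def b3_10 : Bx := Bx.mk (St.mk (I.pos (nat_lit 75923456) (nat_lit 131694592)) (I.mix (nat_lit 70139904) (nat_lit 8323072)) (I.mix (nat_lit 47988736) (nat_lit 5177344)) (I.pos (nat_lit 111935488) (nat_lit 158498816)) (I.mix (nat_lit 109133824) (nat_lit 45760512)) (I.mix (nat_lit 61227008) (nat_lit 86671360)) (I.mix (nat_lit 43876352) (nat_lit 54607872)))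
  false (nat_lit 0)
def b3_11 : Bx := Bx.mk (St.mk (I.mix (nat_lit 53690368) (nat_lit 37634048)) (I.mix (nat_lit 36487168) (nat_lit 5488640)) (I.mix (nat_lit 3948544) (nat_lit 12042240)) (I.pos (nat_lit 83296256) (nat_lit 103251968)) (I.mix (nat_lit 38912000) (nat_lit 43565056)) (I.mix (nat_lit 26787840) (nat_lit 36814848)) (I.mix (nat_lit 14352384) (nat_lit 12664832)))
  false (nat_lit 0)
def b3_12 : Bx := Bx.mk (St.mk (I.pos (nat_lit 179552256) (nat_lit 266616832)) (I.mix (nat_lit 12124160) (nat_lit 37945344)) (I.mix (nat_lit 17383424) (nat_lit 72761344)) (I.pos (nat_lit 234815488) (nat_lit 379142144)) (I.mix (nat_lit 120389632) (nat_lit 49774592)) (I.mix (nat_lit 73580544) (nat_lit 60768256)) (I.mix (nat_lit 121864192) (nat_lit 100483072)))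
  false (nat_lit 0)
def b3_13 : Bx := Bx.mk (St.mk (I.pos (nat_lit 82051072) (nat_lit 91127808)) (I.mix (nat_lit 3080192) (nat_lit 8749056)) (I.mix (nat_lit 2981888) (nat_lit 5062656)) (I.pos (nat_lit 117309440) (nat_lit 123666432)) (I.mix (nat_lit 11599872) (nat_lit 11583488)) (I.mix (nat_lit 6209536) (nat_lit 6340608)) (I.mix (nat_lit 4669440) (nat_lit 4096000)))
  false (nat_lit 0)
def b3_14 : Bx := Bx.mk (St.mk (I.mix (nat_lit 56066048) (nat_lit 14516224)) (I.mix (nat_lit 3391488) (nat_lit 14286848)) (I.mix (nat_lit 5406720) (nat_lit 622592)) (I.pos (nat_lit 89030656) (nat_lit 102383616)) (I.mix (nat_lit 9715712) (nat_lit 16220160)) (I.mix (nat_lit 9027584) (nat_lit 7143424)) (I.mix (nat_lit 2981888) (nat_lit 3145728)))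
  false (nat_lit 0)
def b3_15 : Bx := Bx.mk (St.mk (I.pos (nat_lit 170082304) (nat_lit 222887936)) (I.pos (nat_lit 8159232) (nat_lit 54984704)) (I.pos (nat_lit 22708224) (nat_lit 100073472)) (I.pos (nat_lit 231342080) (nat_lit 286801920)) (I.mix (nat_lit 117145600) (nat_lit 88834048)) (I.mix (nat_lit 103497728) (nat_lit 76513280)) (I.mix (nat_lit 164364288) (nat_lit 98123776)))
  false (nat_lit 0)
def t3 : BTr := (BTr.n (BTr.n (BTr.n (BTr.n (BTr.b b3_0) (BTr.b b3_1)) (BTr.n (BTr.b b3_2) (BTr.b b3_3))) (BTr.n (BTr.n (BTr.b b3_4) (BTr.b b3_5)) (BTr.n (BTr.b b3_6) (BTr.b b3_7)))) (BTr.n (BTr.n (BTr.n (BTr.b b3_8) (BTr.b b3_9)) (BTr.n (BTr.b b3_10) (BTr.b b3_11))) (BTr.n (BTr.n (BTr.b b3_12) (BTr.b b3_13)) (BTr.n (BTr.b b3_14) (BTr.b b3_15)))))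
namespace T3
def l0 : Tr := Tr.L (Pth.l (Pth.l (Pth.l (Pth.l Pth.z))))
def l1 : Tr := Tr.L (Pth.l (Pth.l (Pth.l (Pth.r Pth.z))))
def l2 : Tr := Tr.L (Pth.l (Pth.l (Pth.r (Pth.l Pth.z))))
def l3 : Tr := Tr.L (Pth.l (Pth.l (Pth.r (Pth.r Pth.z))))
def l4 : Tr := Tr.L (Pth.l (Pth.r (Pth.l (Pth.l Pth.z))))
def l5 : Tr := Tr.L (Pth.l (Pth.r (Pth.l (Pth.r Pth.z))))
def l6 : Tr := Tr.L (Pth.l (Pth.r (Pth.r (Pth.l Pth.z))))
def l7 : Tr := Tr.L (Pth.l (Pth.r (Pth.r (Pth.r Pth.z))))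
def l8 : Tr := Tr.L (Pth.r (Pth.l (Pth.l (Pth.l Pth.z))))
def l9 : Tr := Tr.L (Pth.r (Pth.l (Pth.l (Pth.r Pth.z))))
def l10 : Tr := Tr.L (Pth.r (Pth.l (Pth.r (Pth.l Pth.z))))
def l11 : Tr := Tr.L (Pth.r (Pth.l (Pth.r (Pth.r Pth.z))))
def l12 : Tr := Tr.L (Pth.r (Pth.r (Pth.l (Pth.l Pth.z))))
def l13 : Tr := Tr.L (Pth.r (Pth.r (Pth.l (Pth.r Pth.z))))
def l14 : Tr := Tr.L (Pth.r (Pth.r (Pth.r (Pth.l Pth.z))))
def l15 : Tr := Tr.L (Pth.r (Pth.r (Pth.r (Pth.r Pth.z))))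
end T3
def b4_0 : Bx := Bx.mk (St.mk (I.pos (nat_lit 125796352) (nat_lit 222756864)) (I.mix (nat_lit 8192000) (nat_lit 93749248)) (I.mix (nat_lit 10190848) (nat_lit 113541120)) (I.pos (nat_lit 368541696) (nat_lit 471498752)) (I.mix (nat_lit 203046912) (nat_lit 116899840)) (I.mix (nat_lit 129417216) (nat_lit 108789760)) (I.mix (nat_lit 152322048) (nat_lit 151175168)))
  false (nat_lit 69101045)
def b4_1 : Bx := Bx.mk (St.mk (I.pos (nat_lit 22708224) (nat_lit 122191872)) (I.neg (nat_lit 7503872) (nat_lit 95059968)) (I.mix (nat_lit 68321280) (nat_lit 13549568)) (I.pos (nat_lit 274186240) (nat_lit 335708160)) (I.mix (nat_lit 149045248) (nat_lit 101711872)) (I.mix (nat_lit 102989824) (nat_lit 106168320)) (I.mix (nat_lit 106283008) (nat_lit 83230720)))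
  false (nat_lit 74286620)
def b4_2 : Bx := Bx.mk (St.mk (I.pos (nat_lit 88244224) (nat_lit 181157888)) (I.mix (nat_lit 39288832) (nat_lit 85196800)) (I.mix (nat_lit 18317312) (nat_lit 111722496)) (I.pos (nat_lit 302874624) (nat_lit 420249600)) (I.mix (nat_lit 207142912) (nat_lit 93470720)) (I.mix (nat_lit 169885696) (nat_lit 132792320)) (I.mix (nat_lit 179339264) (nat_lit 172589056)))
  false (nat_lit 51707020)
def b4_3 : Bx := Bx.mk (St.mk (I.neg (nat_lit 22249472) (nat_lit 126976000)) (I.pos (nat_lit 7323648) (nat_lit 95059968)) (I.mix (nat_lit 68337664) (nat_lit 12992512)) (I.pos (nat_lit 274202624) (nat_lit 338444288)) (I.mix (nat_lit 101711872) (nat_lit 149061632)) (I.mix (nat_lit 106184704) (nat_lit 102989824)) (I.mix (nat_lit 106299392) (nat_lit 83230720)))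
  true (nat_lit 0)
def b4_4 : Bx := Bx.mk (St.mk (I.mix (nat_lit 69926912) (nat_lit 27361280)) (I.mix (nat_lit 30441472) (nat_lit 92241920)) (I.neg (nat_lit 31965184) (nat_lit 54673408)) (I.pos (nat_lit 265388032) (nat_lit 304627712)) (I.mix (nat_lit 86179840) (nat_lit 132628480)) (I.mix (nat_lit 105660416) (nat_lit 99221504)) (I.mix (nat_lit 55214080) (nat_lit 43614208)))
  true (nat_lit 0)
def b4_5 : Bx := Bx.mk (St.mk (I.pos (nat_lit 9617408) (nat_lit 66338816)) (I.neg (nat_lit 26640384) (nat_lit 91701248)) (I.neg (nat_lit 32800768) (nat_lit 54689792)) (I.pos (nat_lit 274120704) (nat_lit 303824896)) (I.mix (nat_lit 132628480) (nat_lit 86261760)) (I.mix (nat_lit 99221504) (nat_lit 105660416)) (I.mix (nat_lit 55214080) (nat_lit 43614208)))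
  false (nat_lit 65773048)
def b4_6 : Bx := Bx.mk (St.mk (I.pos (nat_lit 172310528) (nat_lit 295190528)) (I.mix (nat_lit 45596672) (nat_lit 64569344)) (I.mix (nat_lit 172195840) (nat_lit 49479680)) (I.pos (nat_lit 399310848) (nat_lit 614416384)) (I.mix (nat_lit 114507776) (nat_lit 91848704)) (I.mix (nat_lit 101744640) (nat_lit 91996160)) (I.mix (nat_lit 187760640) (nat_lit 172343296)))
  false (nat_lit 18282188)
def b4_7 : Bx := Bx.mk (St.mk (I.mix (nat_lit 23642112) (nat_lit 52264960)) (I.mix (nat_lit 48250880) (nat_lit 25247744)) (I.neg (nat_lit 33013760) (nat_lit 41467904)) (I.pos (nat_lit 268828672) (nat_lit 285868032)) (I.mix (nat_lit 66256896) (nat_lit 59441152)) (I.mix (nat_lit 45924352) (nat_lit 54067200)) (I.mix (nat_lit 14450688) (nat_lit 14532608)))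
  false (nat_lit 0)
def b4_8 : Bx := Bx.mk (St.mk (I.pos (nat_lit 142868480) (nat_lit 208830464)) (I.pos (nat_lit 29835264) (nat_lit 95076352)) (I.pos (nat_lit 22429696) (nat_lit 110936064)) (I.pos (nat_lit 391315456) (nat_lit 457834496)) (I.mix (nat_lit 161415168) (nat_lit 121487360)) (I.mix (nat_lit 116244480) (nat_lit 95141888)) (I.mix (nat_lit 174653440) (nat_lit 136822784)))
  false (nat_lit 32698135)
def b4_9 : Bx := Bx.mk (St.mk (I.pos (nat_lit 14303232) (nat_lit 49283072)) (I.neg (nat_lit 20594688) (nat_lit 75595776)) (I.neg (nat_lit 35028992) (nat_lit 52051968)) (I.pos (nat_lit 274235392) (nat_lit 292519936)) (I.mix (nat_lit 91734016) (nat_lit 38551552)) (I.mix (nat_lit 30244864) (nat_lit 62930944)) (I.mix (nat_lit 25247744) (nat_lit 13467648)))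
  false (nat_lit 0)
def b4_10 : Bx := Bx.mk (St.mk (I.pos (nat_lit 87654400) (nat_lit 121323520)) (I.neg (nat_lit 13123584) (nat_lit 47480832)) (I.mix (nat_lit 20283392) (nat_lit 8241152)) (I.pos (nat_lit 308510720) (nat_lit 335446016)) (I.mix (nat_lit 39845888) (nat_lit 34865152)) (I.mix (nat_lit 21512192) (nat_lit 22839296)) (I.mix (nat_lit 18579456) (nat_lit 17711104)))
  false (nat_lit 0)
def t4 : BTr := (BTr.n (BTr.n (BTr.n (BTr.b b4_0) (BTr.b b4_1)) (BTr.n (BTr.b b4_2) (BTr.n (BTr.b b4_3) (BTr.b b4_4)))) (BTr.n (BTr.n (BTr.b b4_5) (BTr.n (BTr.b b4_6) (BTr.b b4_7))) (BTr.n (BTr.b b4_8) (BTr.n (BTr.b b4_9) (BTr.b b4_10)))))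
namespace T4
def l0 : Tr := Tr.L (Pth.l (Pth.l (Pth.l Pth.z)))
def l1 : Tr := Tr.L (Pth.l (Pth.l (Pth.r Pth.z)))
def l2 : Tr := Tr.L (Pth.l (Pth.r (Pth.l Pth.z)))
def l3 : Tr := Tr.L (Pth.l (Pth.r (Pth.r (Pth.l Pth.z))))
def l4 : Tr := Tr.L (Pth.l (Pth.r (Pth.r (Pth.r Pth.z))))
def l5 : Tr := Tr.L (Pth.r (Pth.l (Pth.l Pth.z)))
def l6 : Tr := Tr.L (Pth.r (Pth.l (Pth.r (Pth.l Pth.z))))
def l7 : Tr := Tr.L (Pth.r (Pth.l (Pth.r (Pth.r Pth.z))))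
def l8 : Tr := Tr.L (Pth.r (Pth.r (Pth.l Pth.z)))
def l9 : Tr := Tr.L (Pth.r (Pth.r (Pth.r (Pth.l Pth.z))))
def l10 : Tr := Tr.L (Pth.r (Pth.r (Pth.r (Pth.r Pth.z))))
end T4
def b5_0 : Bx := Bx.mk (St.mk (I.pos (nat_lit 142491648) (nat_lit 221036544)) (I.mix (nat_lit 5488640) (nat_lit 65159168)) (I.mix (nat_lit 10321920) (nat_lit 116391936)) (I.pos (nat_lit 236371968) (nat_lit 337444864)) (I.mix (nat_lit 138788864) (nat_lit 84377600)) (I.mix (nat_lit 93667328) (nat_lit 85393408)) (I.mix (nat_lit 127533056) (nat_lit 110460928)))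
  false (nat_lit 1836657)
def b5_1 : Bx := Bx.mk (St.mk (I.pos (nat_lit 68665344) (nat_lit 150634496)) (I.neg (nat_lit 3031040) (nat_lit 78675968)) (I.mix (nat_lit 45203456) (nat_lit 27377664)) (I.pos (nat_lit 172163072) (nat_lit 230424576)) (I.mix (nat_lit 114311168) (nat_lit 94797824)) (I.mix (nat_lit 77365248) (nat_lit 83591168)) (I.mix (nat_lit 65191936) (nat_lit 74285056)))
  false (nat_lit 33136325)
def b5_2 : Bx := Bx.mk (St.mk (I.mix (nat_lit 34406400) (nat_lit 2162688)) (I.mix (nat_lit 45187072) (nat_lit 14008320)) (I.pos (nat_lit 11370496) (nat_lit 18989056)) (I.pos (nat_lit 142409728) (nat_lit 153436160)) (I.mix (nat_lit 43958272) (nat_lit 67895296)) (I.mix (nat_lit 37289984) (nat_lit 49692672)) (I.mix (nat_lit 8257536) (nat_lit 11386880)))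
  true (nat_lit 0)
def b5_3 : Bx := Bx.mk (St.mk (I.pos (nat_lit 130678784) (nat_lit 186433536)) (I.mix (nat_lit 6717440) (nat_lit 62275584)) (I.pos (nat_lit 34734080) (nat_lit 112918528)) (I.pos (nat_lit 213319680) (nat_lit 282083328)) (I.mix (nat_lit 170049536) (nat_lit 61423616)) (I.mix (nat_lit 158007296) (nat_lit 85573632)) (I.mix (nat_lit 160645120) (nat_lit 90521600)))
  false (nat_lit 60947)
def b5_4 : Bx := Bx.mk (St.mk (I.mix (nat_lit 6701056) (nat_lit 34816000)) (I.mix (nat_lit 15237120) (nat_lit 45301760)) (I.pos (nat_lit 11452416) (nat_lit 18972672)) (I.pos (nat_lit 142327808) (nat_lit 153452544)) (I.mix (nat_lit 67895296) (nat_lit 43958272)) (I.mix (nat_lit 49692672) (nat_lit 37289984)) (I.mix (nat_lit 8257536) (nat_lit 11386880)))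
  false (nat_lit 0)
def b5_5 : Bx := Bx.mk (St.mk (I.pos (nat_lit 110133248) (nat_lit 146358272)) (I.neg (nat_lit 1720320) (nat_lit 40583168)) (I.mix (nat_lit 5554176) (nat_lit 31277056)) (I.pos (nat_lit 194969600) (nat_lit 225853440)) (I.mix (nat_lit 84557824) (nat_lit 66125824)) (I.mix (nat_lit 53280768) (nat_lit 68550656)) (I.mix (nat_lit 54493184) (nat_lit 60276736)))
  false (nat_lit 0)
def b5_6 : Bx := Bx.mk (St.mk (I.mix (nat_lit 27082752) (nat_lit 6553600)) (I.mix (nat_lit 21594112) (nat_lit 14123008)) (I.pos (nat_lit 12812288) (nat_lit 16482304)) (I.pos (nat_lit 143032320) (nat_lit 148111360)) (I.mix (nat_lit 41025536) (nat_lit 33177600)) (I.mix (nat_lit 26198016) (nat_lit 31703040)) (I.mix (nat_lit 3588096) (nat_lit 4276224)))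
  true (nat_lit 0)
def b5_7 : Bx := Bx.mk (St.mk (I.pos (nat_lit 128532480) (nat_lit 163315712)) (I.neg (nat_lit 8765440) (nat_lit 41893888)) (I.mix (nat_lit 8142848) (nat_lit 24739840)) (I.pos (nat_lit 211910656) (nat_lit 246087680)) (I.mix (nat_lit 56377344) (nat_lit 59998208)) (I.mix (nat_lit 55541760) (nat_lit 40337408)) (I.mix (nat_lit 52740096) (nat_lit 40370176)))
  false (nat_lit 0)
def b5_8 : Bx := Bx.mk (St.mk (I.pos (nat_lit 130039808) (nat_lit 181436416)) (I.mix (nat_lit 43089920) (nat_lit 28229632)) (I.mix (nat_lit 8749056) (nat_lit 76414976)) (I.pos (nat_lit 211566592) (nat_lit 267812864)) (I.mix (nat_lit 135479296) (nat_lit 90439680)) (I.mix (nat_lit 125042688) (nat_lit 87851008)) (I.mix (nat_lit 122961920) (nat_lit 91897856)))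
  false (nat_lit 15069471)
def b5_9 : Bx := Bx.mk (St.mk (I.pos (nat_lit 8863744) (nat_lit 78921728)) (I.mix (nat_lit 17530880) (nat_lit 47988736)) (I.mix (nat_lit 9535488) (nat_lit 22380544)) (I.pos (nat_lit 141541376) (nat_lit 168558592)) (I.mix (nat_lit 52871168) (nat_lit 57589760)) (I.mix (nat_lit 54837248) (nat_lit 38305792)) (I.mix (nat_lit 30244864) (nat_lit 21233664)))
  false (nat_lit 0)
def b5_10 : Bx := Bx.mk (St.mk (I.pos (nat_lit 44138496) (nat_lit 108544000)) (I.mix (nat_lit 71368704) (nat_lit 18530304)) (I.mix (nat_lit 39501824) (nat_lit 8224768)) (I.pos (nat_lit 150192128) (nat_lit 196755456)) (I.mix (nat_lit 89538560) (nat_lit 52477952)) (I.mix (nat_lit 45416448) (nat_lit 83558400)) (I.mix (nat_lit 33652736) (nat_lit 45727744)))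
  false (nat_lit 0)
def b5_11 : Bx := Bx.mk (St.mk (I.neg (nat_lit 8863744) (nat_lit 78921728)) (I.mix (nat_lit 48087040) (nat_lit 18513920)) (I.mix (nat_lit 10076160) (nat_lit 22429696)) (I.pos (nat_lit 141541376) (nat_lit 168558592)) (I.mix (nat_lit 57606144) (nat_lit 52871168)) (I.mix (nat_lit 38305792) (nat_lit 54837248)) (I.mix (nat_lit 30244864) (nat_lit 21250048)))
  true (nat_lit 0)
def b5_12 : Bx := Bx.mk (St.mk (I.pos (nat_lit 179879936) (nat_lit 295501824)) (I.mix (nat_lit 40026112) (nat_lit 48840704)) (I.mix (nat_lit 85114880) (nat_lit 93913088)) (I.pos (nat_lit 274661376) (nat_lit 489816064)) (I.mix (nat_lit 113344512) (nat_lit 78888960)) (I.mix (nat_lit 85098496) (nat_lit 73826304)) (I.mix (nat_lit 156549120) (nat_lit 123060224)))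
  false (nat_lit 8699457)
def b5_13 : Bx := Bx.mk (St.mk (I.pos (nat_lit 158400512) (nat_lit 216154112)) (I.pos (nat_lit 11288576) (nat_lit 63520768)) (I.pos (nat_lit 32882688) (nat_lit 117817344)) (I.pos (nat_lit 266043392) (nat_lit 325763072)) (I.mix (nat_lit 125861888) (nat_lit 100106240)) (I.mix (nat_lit 107872256) (nat_lit 85196800)) (I.mix (nat_lit 168050688) (nat_lit 111165440)))
  false (nat_lit 0)
def t5 : BTr := (BTr.n (BTr.n (BTr.n (BTr.b b5_0) (BTr.n (BTr.b b5_1) (BTr.b b5_2))) (BTr.n (BTr.n (BTr.b b5_3) (BTr.b b5_4)) (BTr.n (BTr.b b5_5) (BTr.b b5_6)))) (BTr.n (BTr.n (BTr.b b5_7) (BTr.n (BTr.b b5_8) (BTr.b b5_9))) (BTr.n (BTr.n (BTr.b b5_10) (BTr.b b5_11)) (BTr.n (BTr.b b5_12) (BTr.b b5_13)))))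
namespace T5
def l0 : Tr := Tr.L (Pth.l (Pth.l (Pth.l Pth.z)))
def l1 : Tr := Tr.L (Pth.l (Pth.l (Pth.r (Pth.l Pth.z))))
def l2 : Tr := Tr.L (Pth.l (Pth.l (Pth.r (Pth.r Pth.z))))
def l3 : Tr := Tr.L (Pth.l (Pth.r (Pth.l (Pth.l Pth.z))))
def l4 : Tr := Tr.L (Pth.l (Pth.r (Pth.l (Pth.r Pth.z))))
def l5 : Tr := Tr.L (Pth.l (Pth.r (Pth.r (Pth.l Pth.z))))
def l6 : Tr := Tr.L (Pth.l (Pth.r (Pth.r (Pth.r Pth.z))))
def l7 : Tr := Tr.L (Pth.r (Pth.l (Pth.l Pth.z)))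
def l8 : Tr := Tr.L (Pth.r (Pth.l (Pth.r (Pth.l Pth.z))))
def l9 : Tr := Tr.L (Pth.r (Pth.l (Pth.r (Pth.r Pth.z))))
def l10 : Tr := Tr.L (Pth.r (Pth.r (Pth.l (Pth.l Pth.z))))
def l11 : Tr := Tr.L (Pth.r (Pth.r (Pth.l (Pth.r Pth.z))))
def l12 : Tr := Tr.L (Pth.r (Pth.r (Pth.r (Pth.l Pth.z))))
def l13 : Tr := Tr.L (Pth.r (Pth.r (Pth.r (Pth.r Pth.z))))
end T5
theorem bx0_0 : BoxOK sI cl4 cl5 cl6 t2 t4 b0_0 :=
  box_mk (TrL.c (I.pos (nat_lit 0) (nat_lit 0)) (xa (xb (xa T2.l0 T2.l0) (xa (xb T2.l0 T2.l0) (xb T2.l0 T2.l0))) (xb T2.l0 (xa (xb T2.l0 T2.l0) (xb T2.l0 T2.l0))))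
  (TrL.c (I.pos (nat_lit 0) (nat_lit 0)) (xa T4.l1 T4.l1)
  (TrL.c (I.pos (nat_lit 0) (nat_lit 0)) T2.l1
  (TrL.c (I.pos (nat_lit 0) (nat_lit 0)) (xa T4.l2 (xb T4.l2 T4.l2))
  (TrL.c (I.pos (nat_lit 0) (nat_lit 0)) T2.l2
  (TrL.c (I.pos (nat_lit 0) (nat_lit 0)) (xa T4.l3 T4.l3)
  TrL.n)))))) (by decide +kernel)
theorem bx0_1 : BoxOK sI cl4 cl5 cl6 t2 t4 b0_1 :=
  box_mk (TrL.c (I.pos (nat_lit 0) (nat_lit 0)) (xb T2.l6 (xa T2.l6 T2.l6))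
  (TrL.c (I.pos (nat_lit 0) (nat_lit 0)) T4.l1
  (TrL.c (I.pos (nat_lit 0) (nat_lit 0)) T2.l1
  (TrL.c (I.pos (nat_lit 0) (nat_lit 0)) T4.l2
  (TrL.c (I.pos (nat_lit 0) (nat_lit 0)) T2.l7
  (TrL.c (I.pos (nat_lit 0) (nat_lit 0)) T4.l3
  TrL.n)))))) (by decide +kernel)
theorem bx0_2 : BoxOK sI cl4 cl5 cl6 t2 t4 b0_2 :=
  box_mk (TrL.c (I.pos (nat_lit 0) (nat_lit 0)) (xb (xa (xb T2.l6 T2.l6) T2.l6) (xa (xb T2.l6 T2.l6) (xb T2.l6 T2.l6)))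
  (TrL.c (I.pos (nat_lit 0) (nat_lit 0)) T4.l1
  (TrL.c (I.pos (nat_lit 0) (nat_lit 0)) T2.l1
  (TrL.c (I.pos (nat_lit 0) (nat_lit 0)) T4.l2
  (TrL.c (I.pos (nat_lit 0) (nat_lit 0)) T2.l7
  (TrL.c (I.pos (nat_lit 0) (nat_lit 0)) T4.l3
  TrL.n)))))) (by decide +kernel)
theorem bx0_3 : BoxOK sI cl4 cl5 cl6 t2 t4 b0_3 :=
  box_mk (TrL.c (I.pos (nat_lit 0) (nat_lit 0)) T4.l1
  (TrL.c (I.pos (nat_lit 0) (nat_lit 0)) T2.l1
  TrL.n)) (by decide +kernel)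
theorem bx0_4 : BoxOK sI cl4 cl5 cl6 t2 t4 b0_4 :=
  box_mk (TrL.c (I.pos (nat_lit 0) (nat_lit 0)) T2.l6
  (TrL.c (I.pos (nat_lit 0) (nat_lit 0)) T4.l1
  (TrL.c (I.pos (nat_lit 0) (nat_lit 0)) T2.l1
  (TrL.c (I.pos (nat_lit 0) (nat_lit 0)) T4.l2
  (TrL.c (I.pos (nat_lit 0) (nat_lit 0)) T2.l7
  (TrL.c (I.pos (nat_lit 0) (nat_lit 0)) T4.l3
  TrL.n)))))) (by decide +kernel)
theorem bx0_5 : BoxOK sI cl4 cl5 cl6 t2 t4 b0_5 :=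
  box_mk (TrL.c (I.pos (nat_lit 0) (nat_lit 0)) (xa T2.l0 T2.l0)
  (TrL.c (I.pos (nat_lit 0) (nat_lit 0)) T4.l1
  (TrL.c (I.pos (nat_lit 0) (nat_lit 0)) T2.l1
  (TrL.c (I.pos (nat_lit 0) (nat_lit 0)) (xa T4.l2 T4.l2)
  (TrL.c (I.pos (nat_lit 0) (nat_lit 0)) T2.l2
  (TrL.c (I.pos (nat_lit 0) (nat_lit 0)) T4.l3
  TrL.n)))))) (by decide +kernel)
theorem bx0_6 : BoxOK sI cl4 cl5 cl6 t2 t4 b0_6 :=
  box_mk (TrL.c (I.pos (nat_lit 0) (nat_lit 0)) (xb (xa (xb T2.l0 T2.l0) (xb T2.l0 T2.l0)) (xa (xb T2.l0 (xa T2.l0 T2.l0)) (xb T2.l0 (xa T2.l0 T2.l0))))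
  (TrL.c (I.pos (nat_lit 0) (nat_lit 0)) (xb T4.l1 (xa T4.l1 T4.l1))
  (TrL.c (I.pos (nat_lit 0) (nat_lit 0)) T2.l1
  (TrL.c (I.pos (nat_lit 0) (nat_lit 0)) (xb (xa (xb (xa T4.l2 T4.l2) T4.l2) (xb (xa (xc T4.l2 T4.l2) (xc T4.l2 T4.l2)) (xa T4.l2 (xc T4.l2 T4.l2)))) (xa T4.l2 (xb (xa T4.l2 (xc T4.l2 T4.l2)) (xa T4.l2 (xc T4.l2 T4.l2)))))
  (TrL.c (I.pos (nat_lit 0) (nat_lit 0)) T2.l2
  (TrL.c (I.pos (nat_lit 0) (nat_lit 0)) (xb T4.l3 (xa T4.l3 T4.l3))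
  TrL.n)))))) (by decide +kernel)
theorem bx0_7 : BoxOK sI cl4 cl5 cl6 t2 t4 b0_7 :=
  box_mk (TrL.c (I.pos (nat_lit 0) (nat_lit 0)) (xa (xb (xa (xb T2.l6 T2.l6) T2.l6) (xa T2.l6 T2.l6)) (xb (xa T2.l6 T2.l6) (xa T2.l6 T2.l6)))
  (TrL.c (I.pos (nat_lit 0) (nat_lit 0)) T4.l1
  (TrL.c (I.pos (nat_lit 0) (nat_lit 0)) T2.l1
  (TrL.c (I.pos (nat_lit 0) (nat_lit 0)) (xa T4.l2 T4.l2)
  (TrL.c (I.pos (nat_lit 0) (nat_lit 0)) T2.l7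
  (TrL.c (I.pos (nat_lit 0) (nat_lit 0)) T4.l3
  TrL.n)))))) (by decide +kernel)
theorem bx0_8 : BoxOK sI cl4 cl5 cl6 t2 t4 b0_8 :=
  box_mk (TrL.c (I.pos (nat_lit 0) (nat_lit 0)) T4.l1
  (TrL.c (I.pos (nat_lit 0) (nat_lit 0)) T2.l1
  TrL.n)) (by decide +kernel)
theorem bx0_9 : BoxOK sI cl4 cl5 cl6 t2 t4 b0_9 :=
  box_mk (TrL.c (I.pos (nat_lit 0) (nat_lit 0)) (xb (xa T2.l9 T2.l9) (xa (xb T2.l9 T2.l9) (xb T2.l9 T2.l9)))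
  (TrL.c (I.pos (nat_lit 0) (nat_lit 0)) T4.l1
  (TrL.c (I.pos (nat_lit 0) (nat_lit 0)) T2.l1
  (TrL.c (I.pos (nat_lit 0) (nat_lit 0)) T4.l2
  (TrL.c (I.pos (nat_lit 0) (nat_lit 0)) T2.l2
  (TrL.c (I.pos (nat_lit 0) (nat_lit 0)) T4.l3
  TrL.n)))))) (by decide +kernel)
theorem bx0_10 : BoxOK sI cl4 cl5 cl6 t2 t4 b0_10 :=
  box_mk (TrL.c (I.pos (nat_lit 0) (nat_lit 0)) (xb (xa (xb T2.l6 T2.l6) T2.l6) (xa T2.l6 T2.l6))
  (TrL.c (I.pos (nat_lit 0) (nat_lit 0)) T4.l1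
  (TrL.c (I.pos (nat_lit 0) (nat_lit 0)) T2.l1
  (TrL.c (I.pos (nat_lit 0) (nat_lit 0)) T4.l2
  (TrL.c (I.pos (nat_lit 0) (nat_lit 0)) T2.l7
  (TrL.c (I.pos (nat_lit 0) (nat_lit 0)) T4.l3
  TrL.n)))))) (by decide +kernel)
theorem bx0_11 : BoxOK sI cl4 cl5 cl6 t2 t4 b0_11 :=
  box_mk (TrL.c (I.pos (nat_lit 0) (nat_lit 0)) (xa (xb T2.l6 T2.l9) (xb T2.l9 T2.l9))
  (TrL.c (I.pos (nat_lit 0) (nat_lit 0)) T4.l1
  (TrL.c (I.pos (nat_lit 0) (nat_lit 0)) T2.l1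
  (TrL.c (I.pos (nat_lit 0) (nat_lit 0)) T4.l2
  (TrL.c (I.pos (nat_lit 0) (nat_lit 0)) T2.l3
  (TrL.c (I.pos (nat_lit 0) (nat_lit 0)) T4.l3
  TrL.n)))))) (by decide +kernel)
theorem bx0_12 : BoxOK sI cl4 cl5 cl6 t2 t4 b0_12 :=
  box_mk (TrL.c (I.pos (nat_lit 0) (nat_lit 0)) (xb T2.l9 (xa T2.l9 T2.l9))
  (TrL.c (I.pos (nat_lit 0) (nat_lit 0)) T4.l1
  (TrL.c (I.pos (nat_lit 0) (nat_lit 0)) T2.l1
  (TrL.c (I.pos (nat_lit 0) (nat_lit 0)) T4.l2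
  (TrL.c (I.pos (nat_lit 0) (nat_lit 0)) T2.l2
  (TrL.c (I.pos (nat_lit 0) (nat_lit 0)) T4.l3
  TrL.n)))))) (by decide +kernel)
theorem sv0 : StarV sI cl4 cl5 cl6 t2 t4 t0 :=
  (bt_n (bt_n (bt_n (bt_b bx0_0) (bt_n (bt_b bx0_1) (bt_b bx0_2))) (bt_n (bt_b bx0_3) (bt_n (bt_b bx0_4) (bt_b bx0_5)))) (bt_n (bt_n (bt_b bx0_6) (bt_n (bt_b bx0_7) (bt_b bx0_8))) (bt_n (bt_n (bt_b bx0_9) (bt_b bx0_10)) (bt_n (bt_b bx0_11) (bt_b bx0_12)))))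
def S0 : StarD := StarD.mk cl4 cl5 cl6 2 4 t0
theorem bx1_0 : BoxOK sI cl4 cl6 cl5 t4 t2 b1_0 :=
  box_mk (TrL.c (I.pos (nat_lit 0) (nat_lit 0)) (xa (xb (xa T4.l0 T4.l0) (xa (xb T4.l0 T4.l0) (xb T4.l0 T4.l0))) (xb T4.l0 (xa (xb T4.l0 T4.l0) (xb T4.l0 T4.l0))))
  (TrL.c (I.pos (nat_lit 0) (nat_lit 0)) (xa T2.l3 (xb T2.l3 T2.l3))
  (TrL.c (I.pos (nat_lit 0) (nat_lit 0)) T4.l4
  (TrL.c (I.pos (nat_lit 0) (nat_lit 0)) (xa T2.l4 (xb T2.l4 (xa T2.l4 T2.l4)))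
  (TrL.c (I.pos (nat_lit 0) (nat_lit 0)) T4.l5
  (TrL.c (I.pos (nat_lit 0) (nat_lit 0)) (xa T2.l5 (xb T2.l5 T2.l5))
  TrL.n)))))) (by decide +kernel)
theorem bx1_1 : BoxOK sI cl4 cl6 cl5 t4 t2 b1_1 :=
  box_mk (TrL.c (I.pos (nat_lit 0) (nat_lit 0)) (xa (xa (xb (xa (xb (xa T4.l6 T4.l6) T4.l6) T4.l6) (xa (xb (xa T4.l6 T4.l6) (xa T4.l6 T4.l6)) (xb T4.l6 (xa T4.l6 T4.l6)))) (xb T4.l6 (xa (xb T4.l6 T4.l6) T4.l6))) (xa (xb T4.l6 T4.l6) (xb T4.l6 (xa T4.l6 T4.l6))))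
  (TrL.c (I.pos (nat_lit 0) (nat_lit 0)) (xa T2.l3 T2.l3)
  (TrL.c (I.pos (nat_lit 0) (nat_lit 0)) T4.l4
  (TrL.c (I.pos (nat_lit 0) (nat_lit 0)) (xa T2.l4 T2.l4)
  (TrL.c (I.pos (nat_lit 0) (nat_lit 0)) T4.l7
  (TrL.c (I.pos (nat_lit 0) (nat_lit 0)) (xa T2.l5 T2.l5)
  TrL.n)))))) (by decide +kernel)
theorem bx1_2 : BoxOK sI cl4 cl6 cl5 t4 t2 b1_2 :=
  box_mk (TrL.c (I.pos (nat_lit 0) (nat_lit 0)) (xb (xa (xb T4.l6 T4.l6) T4.l6) (xa (xb T4.l6 T4.l6) T4.l6))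
  (TrL.c (I.pos (nat_lit 0) (nat_lit 0)) T2.l3
  (TrL.c (I.pos (nat_lit 0) (nat_lit 0)) T4.l4
  (TrL.c (I.pos (nat_lit 0) (nat_lit 0)) T2.l4
  (TrL.c (I.pos (nat_lit 0) (nat_lit 0)) T4.l7
  (TrL.c (I.pos (nat_lit 0) (nat_lit 0)) T2.l5
  TrL.n)))))) (by decide +kernel)
theorem bx1_3 : BoxOK sI cl4 cl6 cl5 t4 t2 b1_3 :=
  box_mk (TrL.c (I.pos (nat_lit 0) (nat_lit 0)) (xa (xb (xa T4.l6 T4.l6) T4.l6) T4.l6)
  (TrL.c (I.pos (nat_lit 0) (nat_lit 0)) T2.l4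
  (TrL.c (I.pos (nat_lit 0) (nat_lit 0)) T4.l4
  (TrL.c (I.pos (nat_lit 0) (nat_lit 0)) T2.l3
  (TrL.c (I.pos (nat_lit 0) (nat_lit 0)) T4.l7
  (TrL.c (I.pos (nat_lit 0) (nat_lit 0)) T2.l5
  TrL.n)))))) (by decide +kernel)
theorem bx1_4 : BoxOK sI cl4 cl6 cl5 t4 t2 b1_4 :=
  box_mk (TrL.c (I.pos (nat_lit 0) (nat_lit 0)) (xb (xa (xb T4.l0 T4.l0) (xb T4.l0 T4.l0)) (xa (xb T4.l0 (xa T4.l0 T4.l0)) (xb T4.l0 (xa T4.l0 T4.l0))))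
  (TrL.c (I.pos (nat_lit 0) (nat_lit 0)) (xa (xb T2.l3 T2.l3) (xb T2.l3 T2.l3))
  (TrL.c (I.pos (nat_lit 0) (nat_lit 0)) T4.l4
  (TrL.c (I.pos (nat_lit 0) (nat_lit 0)) (xb (xa (xb T2.l4 T2.l4) (xb (xa T2.l4 T2.l4) T2.l4)) (xa T2.l4 (xb (xa T2.l4 T2.l4) (xa T2.l4 (xc T2.l4 T2.l4)))))
  (TrL.c (I.pos (nat_lit 0) (nat_lit 0)) T4.l5
  (TrL.c (I.pos (nat_lit 0) (nat_lit 0)) (xa (xb T2.l5 T2.l5) (xb T2.l5 T2.l5))
  TrL.n)))))) (by decide +kernel)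
theorem bx1_5 : BoxOK sI cl4 cl6 cl5 t4 t2 b1_5 :=
  box_mk (TrL.c (I.pos (nat_lit 0) (nat_lit 0)) (xa (xb (xa T4.l6 T4.l6) T4.l6) T4.l6)
  (TrL.c (I.pos (nat_lit 0) (nat_lit 0)) T2.l3
  (TrL.c (I.pos (nat_lit 0) (nat_lit 0)) T4.l4
  (TrL.c (I.pos (nat_lit 0) (nat_lit 0)) T2.l3
  (TrL.c (I.pos (nat_lit 0) (nat_lit 0)) T4.l7
  (TrL.c (I.pos (nat_lit 0) (nat_lit 0)) T2.l5
  TrL.n)))))) (by decide +kernel)
theorem bx1_6 : BoxOK sI cl4 cl6 cl5 t4 t2 b1_6 :=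
  box_mk (TrL.c (I.pos (nat_lit 0) (nat_lit 0)) T4.l6
  (TrL.c (I.pos (nat_lit 0) (nat_lit 0)) T2.l3
  (TrL.c (I.pos (nat_lit 0) (nat_lit 0)) T4.l4
  (TrL.c (I.pos (nat_lit 0) (nat_lit 0)) T2.l4
  (TrL.c (I.pos (nat_lit 0) (nat_lit 0)) T4.l7
  (TrL.c (I.pos (nat_lit 0) (nat_lit 0)) T2.l5
  TrL.n)))))) (by decide +kernel)
theorem bx1_7 : BoxOK sI cl4 cl6 cl5 t4 t2 b1_7 :=
  box_mk (TrL.c (I.pos (nat_lit 0) (nat_lit 0)) (xa T4.l0 T4.l2)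
  (TrL.c (I.pos (nat_lit 0) (nat_lit 0)) T2.l3
  (TrL.c (I.pos (nat_lit 0) (nat_lit 0)) T4.l4
  (TrL.c (I.pos (nat_lit 0) (nat_lit 0)) (xa T2.l4 (xb T2.l0 T2.l4))
  (TrL.c (I.pos (nat_lit 0) (nat_lit 0)) T4.l5
  (TrL.c (I.pos (nat_lit 0) (nat_lit 0)) T2.l5
  TrL.n)))))) (by decide +kernel)
theorem bx1_8 : BoxOK sI cl4 cl6 cl5 t4 t2 b1_8 :=
  box_mk (TrL.c (I.pos (nat_lit 0) (nat_lit 0)) (xa (xb (xa T4.l6 T4.l6) T4.l6) (xb (xa T4.l6 T4.l0) T4.l0))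
  (TrL.c (I.pos (nat_lit 0) (nat_lit 0)) T2.l3
  (TrL.c (I.pos (nat_lit 0) (nat_lit 0)) T4.l4
  (TrL.c (I.pos (nat_lit 0) (nat_lit 0)) T2.l4
  (TrL.c (I.pos (nat_lit 0) (nat_lit 0)) T4.l7
  (TrL.c (I.pos (nat_lit 0) (nat_lit 0)) T2.l5
  TrL.n)))))) (by decide +kernel)
theorem bx1_9 : BoxOK sI cl4 cl6 cl5 t4 t2 b1_9 :=
  box_mk (TrL.c (I.pos (nat_lit 0) (nat_lit 0)) (xa (xb T4.l6 T4.l6) T4.l6)
  (TrL.c (I.pos (nat_lit 0) (nat_lit 0)) T2.l4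
  (TrL.c (I.pos (nat_lit 0) (nat_lit 0)) T4.l4
  (TrL.c (I.pos (nat_lit 0) (nat_lit 0)) T2.l3
  (TrL.c (I.pos (nat_lit 0) (nat_lit 0)) T4.l7
  (TrL.c (I.pos (nat_lit 0) (nat_lit 0)) T2.l5
  TrL.n)))))) (by decide +kernel)
theorem bx1_10 : BoxOK sI cl4 cl6 cl5 t4 t2 b1_10 :=
  box_mk (TrL.c (I.pos (nat_lit 0) (nat_lit 0)) (xb (xa (xb T4.l8 T4.l8) (xb T4.l8 T4.l8)) (xa (xb T4.l8 T4.l8) (xb T4.l8 T4.l8)))
  (TrL.c (I.pos (nat_lit 0) (nat_lit 0)) (xb T2.l3 T2.l3)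
  (TrL.c (I.pos (nat_lit 0) (nat_lit 0)) T4.l4
  (TrL.c (I.pos (nat_lit 0) (nat_lit 0)) (xb T2.l4 (xa T2.l4 T2.l4))
  (TrL.c (I.pos (nat_lit 0) (nat_lit 0)) T4.l5
  (TrL.c (I.pos (nat_lit 0) (nat_lit 0)) (xb T2.l5 T2.l5)
  TrL.n)))))) (by decide +kernel)
theorem bx1_11 : BoxOK sI cl4 cl6 cl5 t4 t2 b1_11 :=
  box_mk (TrL.c (I.pos (nat_lit 0) (nat_lit 0)) (xa (xa (xb T4.l6 (xa T4.l6 T4.l6)) T4.l6) (xa T4.l6 T4.l6))
  (TrL.c (I.pos (nat_lit 0) (nat_lit 0)) (xa T2.l3 T2.l3)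
  (TrL.c (I.pos (nat_lit 0) (nat_lit 0)) T4.l4
  (TrL.c (I.pos (nat_lit 0) (nat_lit 0)) (xa T2.l3 T2.l4)
  (TrL.c (I.pos (nat_lit 0) (nat_lit 0)) T4.l7
  (TrL.c (I.pos (nat_lit 0) (nat_lit 0)) (xa T2.l5 T2.l5)
  TrL.n)))))) (by decide +kernel)
theorem bx1_12 : BoxOK sI cl4 cl6 cl5 t4 t2 b1_12 :=
  box_mk (TrL.c (I.pos (nat_lit 0) (nat_lit 0)) T4.l0
  (TrL.c (I.pos (nat_lit 0) (nat_lit 0)) T2.l3
  (TrL.c (I.pos (nat_lit 0) (nat_lit 0)) T4.l4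
  (TrL.c (I.pos (nat_lit 0) (nat_lit 0)) T2.l4
  (TrL.c (I.pos (nat_lit 0) (nat_lit 0)) T4.l1
  (TrL.c (I.pos (nat_lit 0) (nat_lit 0)) T2.l5
  TrL.n)))))) (by decide +kernel)
theorem bx1_13 : BoxOK sI cl4 cl6 cl5 t4 t2 b1_13 :=
  box_mk (TrL.c (I.pos (nat_lit 0) (nat_lit 0)) T4.l6
  (TrL.c (I.pos (nat_lit 0) (nat_lit 0)) T2.l3
  (TrL.c (I.pos (nat_lit 0) (nat_lit 0)) T4.l4
  (TrL.c (I.pos (nat_lit 0) (nat_lit 0)) T2.l4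
  (TrL.c (I.pos (nat_lit 0) (nat_lit 0)) T4.l7
  (TrL.c (I.pos (nat_lit 0) (nat_lit 0)) T2.l5
  TrL.n)))))) (by decide +kernel)
theorem bx1_14 : BoxOK sI cl4 cl6 cl5 t4 t2 b1_14 :=
  box_mk (TrL.c (I.pos (nat_lit 0) (nat_lit 0)) (xa (xa (xa (xb T4.l6 T4.l6) T4.l6) T4.l6) T4.l6)
  (TrL.c (I.pos (nat_lit 0) (nat_lit 0)) T2.l3
  (TrL.c (I.pos (nat_lit 0) (nat_lit 0)) T4.l4
  (TrL.c (I.pos (nat_lit 0) (nat_lit 0)) T2.l3
  (TrL.c (I.pos (nat_lit 0) (nat_lit 0)) T4.l7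
  (TrL.c (I.pos (nat_lit 0) (nat_lit 0)) T2.l5
  TrL.n)))))) (by decide +kernel)
theorem bx1_15 : BoxOK sI cl4 cl6 cl5 t4 t2 b1_15 :=
  box_mk (TrL.c (I.pos (nat_lit 0) (nat_lit 0)) (xb T4.l8 T4.l8)
  (TrL.c (I.pos (nat_lit 0) (nat_lit 0)) T2.l3
  (TrL.c (I.pos (nat_lit 0) (nat_lit 0)) T4.l4
  (TrL.c (I.pos (nat_lit 0) (nat_lit 0)) T2.l4
  (TrL.c (I.pos (nat_lit 0) (nat_lit 0)) T4.l5
  (TrL.c (I.pos (nat_lit 0) (nat_lit 0)) T2.l5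
  TrL.n)))))) (by decide +kernel)
theorem sv1 : StarV sI cl4 cl6 cl5 t4 t2 t1 :=
  (bt_n (bt_n (bt_n (bt_n (bt_b bx1_0) (bt_b bx1_1)) (bt_n (bt_b bx1_2) (bt_b bx1_3))) (bt_n (bt_n (bt_b bx1_4) (bt_b bx1_5)) (bt_n (bt_b bx1_6) (bt_b bx1_7)))) (bt_n (bt_n (bt_n (bt_b bx1_8) (bt_b bx1_9)) (bt_n (bt_b bx1_10) (bt_b bx1_11))) (bt_n (bt_n (bt_b bx1_12) (bt_b bx1_13)) (bt_n (bt_b bx1_14) (bt_b bx1_15)))))
def S1 : StarD := StarD.mk cl4 cl6 cl5 4 2 t1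
theorem bx2_0 : BoxOK sI cl5 cl4 cl6 t0 t5 b2_0 :=
  box_mk (TrL.c (I.pos (nat_lit 0) (nat_lit 0)) (xa (xb T0.l6 (xb (xa T0.l0 T0.l0) (xa T0.l0 T0.l0))) (xb T0.l0 (xa (xb T0.l0 T0.l0) (xb T0.l0 T0.l0))))
  (TrL.c (I.pos (nat_lit 0) (nat_lit 0)) T5.l1
  (TrL.c (I.pos (nat_lit 0) (nat_lit 0)) T0.l1
  (TrL.c (I.pos (nat_lit 0) (nat_lit 0)) T5.l2
  (TrL.c (I.pos (nat_lit 0) (nat_lit 0)) (xb (xa T5.l3 (xb T5.l3 T5.l3)) (xa T5.l3 (xb T5.l3 T5.l3)))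
  (TrL.c (I.pos (nat_lit 0) (nat_lit 0)) T0.l2
  (TrL.c (I.pos (nat_lit 0) (nat_lit 0)) T5.l4
  (TrL.c (I.pos (nat_lit 0) (nat_lit 0)) T0.l3
  TrL.n)))))))) (by decide +kernel)
theorem bx2_1 : BoxOK sI cl5 cl4 cl6 t0 t5 b2_1 :=
  box_mk (TrL.c (I.pos (nat_lit 0) (nat_lit 0)) T5.l5
  (TrL.c (I.pos (nat_lit 0) (nat_lit 0)) T0.l4
  (TrL.c (I.pos (nat_lit 0) (nat_lit 0)) T5.l6
  TrL.n))) (by decide +kernel)
theorem bx2_2 : BoxOK sI cl5 cl4 cl6 t0 t5 b2_2 :=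
  box_mk (TrL.c (I.pos (nat_lit 0) (nat_lit 0)) (xb (xa (xb T0.l5 T0.l6) T0.l6) (xa T0.l6 T0.l6))
  (TrL.c (I.pos (nat_lit 0) (nat_lit 0)) T5.l1
  (TrL.c (I.pos (nat_lit 0) (nat_lit 0)) T0.l1
  (TrL.c (I.pos (nat_lit 0) (nat_lit 0)) T5.l2
  (TrL.c (I.pos (nat_lit 0) (nat_lit 0)) T5.l8
  (TrL.c (I.pos (nat_lit 0) (nat_lit 0)) T0.l2
  (TrL.c (I.pos (nat_lit 0) (nat_lit 0)) T5.l4
  (TrL.c (I.pos (nat_lit 0) (nat_lit 0)) T0.l3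
  TrL.n)))))))) (by decide +kernel)
theorem bx2_3 : BoxOK sI cl5 cl4 cl6 t0 t5 b2_3 :=
  box_mk (TrL.c (I.pos (nat_lit 0) (nat_lit 0)) (xa (xb (xa (xb (xa T0.l6 T0.l6) T0.l6) (xb T0.l6 T0.l6)) (xa (xb T0.l6 (xa T0.l6 T0.l6)) T0.l6)) (xb (xa T0.l6 T0.l6) T0.l6))
  (TrL.c (I.pos (nat_lit 0) (nat_lit 0)) (xa T5.l1 T5.l1)
  (TrL.c (I.pos (nat_lit 0) (nat_lit 0)) T0.l1
  (TrL.c (I.pos (nat_lit 0) (nat_lit 0)) T5.l2
  (TrL.c (I.pos (nat_lit 0) (nat_lit 0)) (xa T5.l8 (xb T5.l8 T5.l8))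
  (TrL.c (I.pos (nat_lit 0) (nat_lit 0)) T0.l2
  (TrL.c (I.pos (nat_lit 0) (nat_lit 0)) T5.l4
  (TrL.c (I.pos (nat_lit 0) (nat_lit 0)) T0.l3
  TrL.n)))))))) (by decide +kernel)
theorem bx2_4 : BoxOK sI cl5 cl4 cl6 t0 t5 b2_4 :=
  box_mk (TrL.c (I.pos (nat_lit 0) (nat_lit 0)) (xb (xa (xb T0.l6 T0.l6) (xb T0.l6 T0.l6)) (xa (xb (xa T0.l6 T0.l6) (xa T0.l6 T0.l6)) (xa (xb T0.l6 T0.l6) (xb T0.l6 T0.l6))))
  (TrL.c (I.pos (nat_lit 0) (nat_lit 0)) (xb T5.l1 T5.l1)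
  (TrL.c (I.pos (nat_lit 0) (nat_lit 0)) T0.l1
  (TrL.c (I.pos (nat_lit 0) (nat_lit 0)) T5.l2
  (TrL.c (I.pos (nat_lit 0) (nat_lit 0)) (xb (xa T5.l8 (xb T5.l8 T5.l8)) (xa T5.l8 T5.l3))
  (TrL.c (I.pos (nat_lit 0) (nat_lit 0)) T0.l2
  (TrL.c (I.pos (nat_lit 0) (nat_lit 0)) T5.l4
  (TrL.c (I.pos (nat_lit 0) (nat_lit 0)) T0.l3
  TrL.n)))))))) (by decide +kernel)
theorem bx2_5 : BoxOK sI cl5 cl4 cl6 t0 t5 b2_5 :=
  box_mk (TrL.c (I.pos (nat_lit 0) (nat_lit 0)) (xa T5.l1 T5.l1)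
  (TrL.c (I.pos (nat_lit 0) (nat_lit 0)) T0.l4
  (TrL.c (I.pos (nat_lit 0) (nat_lit 0)) T5.l2
  TrL.n))) (by decide +kernel)
theorem bx2_6 : BoxOK sI cl5 cl4 cl6 t0 t5 b2_6 :=
  box_mk (TrL.c (I.pos (nat_lit 0) (nat_lit 0)) (xa (xb T0.l0 T0.l0) (xb T0.l0 (xa T0.l0 T0.l0)))
  (TrL.c (I.pos (nat_lit 0) (nat_lit 0)) T5.l1
  (TrL.c (I.pos (nat_lit 0) (nat_lit 0)) T0.l1
  (TrL.c (I.pos (nat_lit 0) (nat_lit 0)) T5.l11
  (TrL.c (I.pos (nat_lit 0) (nat_lit 0)) (xa (xb T5.l3 T5.l3) (xb (xa T5.l3 T5.l3) (xa T5.l3 T5.l3)))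
  (TrL.c (I.pos (nat_lit 0) (nat_lit 0)) T0.l2
  (TrL.c (I.pos (nat_lit 0) (nat_lit 0)) T5.l9
  (TrL.c (I.pos (nat_lit 0) (nat_lit 0)) T0.l3
  TrL.n)))))))) (by decide +kernel)
theorem bx2_7 : BoxOK sI cl5 cl4 cl6 t0 t5 b2_7 :=
  box_mk (TrL.c (I.pos (nat_lit 0) (nat_lit 0)) (xb (xa (xb T0.l5 T0.l5) T0.l5) (xa (xb T0.l5 (xa T0.l5 T0.l5)) (xb T0.l5 T0.l5)))
  (TrL.c (I.pos (nat_lit 0) (nat_lit 0)) T5.l1
  (TrL.c (I.pos (nat_lit 0) (nat_lit 0)) T0.l4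
  (TrL.c (I.pos (nat_lit 0) (nat_lit 0)) T5.l6
  (TrL.c (I.pos (nat_lit 0) (nat_lit 0)) T5.l7
  (TrL.c (I.pos (nat_lit 0) (nat_lit 0)) T0.l2
  (TrL.c (I.pos (nat_lit 0) (nat_lit 0)) T5.l4
  (TrL.c (I.pos (nat_lit 0) (nat_lit 0)) T0.l3
  TrL.n)))))))) (by decide +kernel)
theorem bx2_8 : BoxOK sI cl5 cl4 cl6 t0 t5 b2_8 :=
  box_mk (TrL.c (I.pos (nat_lit 0) (nat_lit 0)) T5.l5
  (TrL.c (I.pos (nat_lit 0) (nat_lit 0)) T0.l4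
  (TrL.c (I.pos (nat_lit 0) (nat_lit 0)) T5.l6
  TrL.n))) (by decide +kernel)
theorem bx2_9 : BoxOK sI cl5 cl4 cl6 t0 t5 b2_9 :=
  box_mk (TrL.c (I.pos (nat_lit 0) (nat_lit 0)) (xa (xb T0.l0 T0.l0) (xb T0.l0 T0.l0))
  (TrL.c (I.pos (nat_lit 0) (nat_lit 0)) T5.l1
  (TrL.c (I.pos (nat_lit 0) (nat_lit 0)) T0.l1
  (TrL.c (I.pos (nat_lit 0) (nat_lit 0)) T5.l2
  (TrL.c (I.pos (nat_lit 0) (nat_lit 0)) T5.l3
  (TrL.c (I.pos (nat_lit 0) (nat_lit 0)) T0.l2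
  (TrL.c (I.pos (nat_lit 0) (nat_lit 0)) T5.l4
  (TrL.c (I.pos (nat_lit 0) (nat_lit 0)) T0.l3
  TrL.n)))))))) (by decide +kernel)
theorem bx2_10 : BoxOK sI cl5 cl4 cl6 t0 t5 b2_10 :=
  box_mk (TrL.c (I.pos (nat_lit 0) (nat_lit 0)) (xb T0.l5 T0.l5)
  (TrL.c (I.pos (nat_lit 0) (nat_lit 0)) T5.l1
  (TrL.c (I.pos (nat_lit 0) (nat_lit 0)) T0.l1
  (TrL.c (I.pos (nat_lit 0) (nat_lit 0)) T5.l2
  (TrL.c (I.pos (nat_lit 0) (nat_lit 0)) T5.l7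
  (TrL.c (I.pos (nat_lit 0) (nat_lit 0)) T0.l2
  (TrL.c (I.pos (nat_lit 0) (nat_lit 0)) T5.l4
  (TrL.c (I.pos (nat_lit 0) (nat_lit 0)) T0.l3
  TrL.n)))))))) (by decide +kernel)
theorem sv2 : StarV sI cl5 cl4 cl6 t0 t5 t2 :=
  (bt_n (bt_n (bt_n (bt_b bx2_0) (bt_b bx2_1)) (bt_n (bt_b bx2_2) (bt_n (bt_b bx2_3) (bt_b bx2_4)))) (bt_n (bt_n (bt_b bx2_5) (bt_n (bt_b bx2_6) (bt_b bx2_7))) (bt_n (bt_b bx2_8) (bt_n (bt_b bx2_9) (bt_b bx2_10)))))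
def S2 : StarD := StarD.mk cl5 cl4 cl6 0 5 t2
theorem bx3_0 : BoxOK sI cl5 cl6 cl4 t5 t0 b3_0 :=
  box_mk (TrL.c (I.pos (nat_lit 0) (nat_lit 0)) (xa (xb (xa (xb T5.l0 T5.l0) T5.l0) (xa (xb T5.l0 T5.l0) (xb T5.l0 T5.l0))) (xb (xa T5.l0 T5.l0) (xa (xb T5.l0 T5.l0) (xb T5.l0 T5.l0))))
  (TrL.c (I.pos (nat_lit 0) (nat_lit 0)) (xa T0.l7 T0.l7)
  (TrL.c (I.pos (nat_lit 0) (nat_lit 0)) T5.l9
  (TrL.c (I.pos (nat_lit 0) (nat_lit 0)) T0.l8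
  (TrL.c (I.pos (nat_lit 0) (nat_lit 0)) (xa T0.l9 (xb T0.l9 T0.l9))
  (TrL.c (I.pos (nat_lit 0) (nat_lit 0)) T5.l10
  (TrL.c (I.pos (nat_lit 0) (nat_lit 0)) T0.l10
  (TrL.c (I.pos (nat_lit 0) (nat_lit 0)) T5.l11
  TrL.n)))))))) (by decide +kernel)
theorem bx3_1 : BoxOK sI cl5 cl6 cl4 t5 t0 b3_1 :=
  box_mk (TrL.c (I.pos (nat_lit 0) (nat_lit 0)) (xa (xb (xa T5.l12 T5.l12) T5.l12) (xb T5.l0 (xa T5.l12 T5.l12)))
  (TrL.c (I.pos (nat_lit 0) (nat_lit 0)) T0.l7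
  (TrL.c (I.pos (nat_lit 0) (nat_lit 0)) T5.l9
  (TrL.c (I.pos (nat_lit 0) (nat_lit 0)) T0.l8
  (TrL.c (I.pos (nat_lit 0) (nat_lit 0)) (xa T0.l11 T0.l11)
  (TrL.c (I.pos (nat_lit 0) (nat_lit 0)) T5.l10
  (TrL.c (I.pos (nat_lit 0) (nat_lit 0)) T0.l10
  (TrL.c (I.pos (nat_lit 0) (nat_lit 0)) T5.l11
  TrL.n)))))))) (by decide +kernel)
theorem bx3_2 : BoxOK sI cl5 cl6 cl4 t5 t0 b3_2 :=
  box_mk (TrL.c (I.pos (nat_lit 0) (nat_lit 0)) (xa T5.l12 T5.l12)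
  (TrL.c (I.pos (nat_lit 0) (nat_lit 0)) T0.l7
  (TrL.c (I.pos (nat_lit 0) (nat_lit 0)) T5.l9
  (TrL.c (I.pos (nat_lit 0) (nat_lit 0)) T0.l8
  (TrL.c (I.pos (nat_lit 0) (nat_lit 0)) T0.l7
  (TrL.c (I.pos (nat_lit 0) (nat_lit 0)) T5.l10
  (TrL.c (I.pos (nat_lit 0) (nat_lit 0)) T0.l10
  (TrL.c (I.pos (nat_lit 0) (nat_lit 0)) T5.l11
  TrL.n)))))))) (by decide +kernel)
theorem bx3_3 : BoxOK sI cl5 cl6 cl4 t5 t0 b3_3 :=
  box_mk (TrL.c (I.pos (nat_lit 0) (nat_lit 0)) (xb (xa (xb T5.l13 T5.l13) (xb T5.l13 T5.l13)) (xa (xb (xa T5.l13 T5.l13) (xa T5.l13 T5.l13)) (xa (xb T5.l13 T5.l13) (xb T5.l13 T5.l13))))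
  (TrL.c (I.pos (nat_lit 0) (nat_lit 0)) T0.l7
  (TrL.c (I.pos (nat_lit 0) (nat_lit 0)) T5.l9
  (TrL.c (I.pos (nat_lit 0) (nat_lit 0)) T0.l8
  (TrL.c (I.pos (nat_lit 0) (nat_lit 0)) (xb T0.l12 T0.l12)
  (TrL.c (I.pos (nat_lit 0) (nat_lit 0)) T5.l10
  (TrL.c (I.pos (nat_lit 0) (nat_lit 0)) T0.l10
  (TrL.c (I.pos (nat_lit 0) (nat_lit 0)) T5.l11
  TrL.n)))))))) (by decide +kernel)
theorem bx3_4 : BoxOK sI cl5 cl6 cl4 t5 t0 b3_4 :=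
  box_mk (TrL.c (I.pos (nat_lit 0) (nat_lit 0)) (xa (xb (xa T5.l12 T5.l12) (xa (xa (xb T5.l12 T5.l12) T5.l12) T5.l12)) (xa T5.l12 T5.l12))
  (TrL.c (I.pos (nat_lit 0) (nat_lit 0)) (xa T0.l7 T0.l7)
  (TrL.c (I.pos (nat_lit 0) (nat_lit 0)) T5.l9
  (TrL.c (I.pos (nat_lit 0) (nat_lit 0)) T0.l8
  (TrL.c (I.pos (nat_lit 0) (nat_lit 0)) (xa T0.l11 T0.l11)
  (TrL.c (I.pos (nat_lit 0) (nat_lit 0)) T5.l10
  (TrL.c (I.pos (nat_lit 0) (nat_lit 0)) T0.l10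
  (TrL.c (I.pos (nat_lit 0) (nat_lit 0)) T5.l11
  TrL.n)))))))) (by decide +kernel)
theorem bx3_5 : BoxOK sI cl5 cl6 cl4 t5 t0 b3_5 :=
  box_mk (TrL.c (I.pos (nat_lit 0) (nat_lit 0)) (xb (xa T5.l13 T5.l13) (xa T5.l13 T5.l13))
  (TrL.c (I.pos (nat_lit 0) (nat_lit 0)) T0.l7
  (TrL.c (I.pos (nat_lit 0) (nat_lit 0)) T5.l9
  (TrL.c (I.pos (nat_lit 0) (nat_lit 0)) T0.l8
  (TrL.c (I.pos (nat_lit 0) (nat_lit 0)) (xb T0.l12 T0.l12)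
  (TrL.c (I.pos (nat_lit 0) (nat_lit 0)) T5.l10
  (TrL.c (I.pos (nat_lit 0) (nat_lit 0)) T0.l10
  (TrL.c (I.pos (nat_lit 0) (nat_lit 0)) T5.l11
  TrL.n)))))))) (by decide +kernel)
theorem bx3_6 : BoxOK sI cl5 cl6 cl4 t5 t0 b3_6 :=
  box_mk (TrL.c (I.pos (nat_lit 0) (nat_lit 0)) (xa (xa (xb (xa T5.l12 T5.l12) T5.l12) T5.l12) T5.l12)
  (TrL.c (I.pos (nat_lit 0) (nat_lit 0)) (xa T0.l11 T0.l7)
  (TrL.c (I.pos (nat_lit 0) (nat_lit 0)) T5.l9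
  (TrL.c (I.pos (nat_lit 0) (nat_lit 0)) T0.l8
  (TrL.c (I.pos (nat_lit 0) (nat_lit 0)) (xa T0.l11 T0.l11)
  (TrL.c (I.pos (nat_lit 0) (nat_lit 0)) T5.l10
  (TrL.c (I.pos (nat_lit 0) (nat_lit 0)) T0.l10
  (TrL.c (I.pos (nat_lit 0) (nat_lit 0)) T5.l11
  TrL.n)))))))) (by decide +kernel)
theorem bx3_7 : BoxOK sI cl5 cl6 cl4 t5 t0 b3_7 :=
  box_mk (TrL.c (I.pos (nat_lit 0) (nat_lit 0)) (xa T5.l12 T5.l0)
  (TrL.c (I.pos (nat_lit 0) (nat_lit 0)) T0.l7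
  (TrL.c (I.pos (nat_lit 0) (nat_lit 0)) T5.l9
  (TrL.c (I.pos (nat_lit 0) (nat_lit 0)) T0.l8
  (TrL.c (I.pos (nat_lit 0) (nat_lit 0)) T0.l11
  (TrL.c (I.pos (nat_lit 0) (nat_lit 0)) T5.l10
  (TrL.c (I.pos (nat_lit 0) (nat_lit 0)) T0.l10
  (TrL.c (I.pos (nat_lit 0) (nat_lit 0)) T5.l11
  TrL.n)))))))) (by decide +kernel)
theorem bx3_8 : BoxOK sI cl5 cl6 cl4 t5 t0 b3_8 :=
  box_mk (TrL.c (I.pos (nat_lit 0) (nat_lit 0)) T5.l13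
  (TrL.c (I.pos (nat_lit 0) (nat_lit 0)) T0.l7
  (TrL.c (I.pos (nat_lit 0) (nat_lit 0)) T5.l9
  (TrL.c (I.pos (nat_lit 0) (nat_lit 0)) T0.l8
  (TrL.c (I.pos (nat_lit 0) (nat_lit 0)) T0.l12
  (TrL.c (I.pos (nat_lit 0) (nat_lit 0)) T5.l10
  (TrL.c (I.pos (nat_lit 0) (nat_lit 0)) T0.l10
  (TrL.c (I.pos (nat_lit 0) (nat_lit 0)) T5.l11
  TrL.n)))))))) (by decide +kernel)
theorem bx3_9 : BoxOK sI cl5 cl6 cl4 t5 t0 b3_9 :=
  box_mk (TrL.c (I.pos (nat_lit 0) (nat_lit 0)) (xa (xa (xb (xa T5.l12 T5.l12) (xa (xb T5.l12 T5.l12) T5.l12)) (xb T5.l12 T5.l12)) (xa T5.l12 (xb T5.l12 (xa T5.l12 (xb T5.l12 T5.l12)))))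
  (TrL.c (I.pos (nat_lit 0) (nat_lit 0)) (xa (xa T0.l11 T0.l7) T0.l7)
  (TrL.c (I.pos (nat_lit 0) (nat_lit 0)) T5.l9
  (TrL.c (I.pos (nat_lit 0) (nat_lit 0)) T0.l8
  (TrL.c (I.pos (nat_lit 0) (nat_lit 0)) (xa T0.l11 T0.l11)
  (TrL.c (I.pos (nat_lit 0) (nat_lit 0)) T5.l10
  (TrL.c (I.pos (nat_lit 0) (nat_lit 0)) T0.l10
  (TrL.c (I.pos (nat_lit 0) (nat_lit 0)) T5.l11
  TrL.n)))))))) (by decide +kernel)
theorem bx3_10 : BoxOK sI cl5 cl6 cl4 t5 t0 b3_10 :=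
  box_mk (TrL.c (I.pos (nat_lit 0) (nat_lit 0)) (xb (xa T5.l12 T5.l12) (xa T5.l12 T5.l12))
  (TrL.c (I.pos (nat_lit 0) (nat_lit 0)) T0.l7
  (TrL.c (I.pos (nat_lit 0) (nat_lit 0)) T5.l9
  (TrL.c (I.pos (nat_lit 0) (nat_lit 0)) T0.l8
  (TrL.c (I.pos (nat_lit 0) (nat_lit 0)) (xb T0.l11 T0.l11)
  (TrL.c (I.pos (nat_lit 0) (nat_lit 0)) T5.l10
  (TrL.c (I.pos (nat_lit 0) (nat_lit 0)) T0.l10
  (TrL.c (I.pos (nat_lit 0) (nat_lit 0)) T5.l11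
  TrL.n)))))))) (by decide +kernel)
theorem bx3_11 : BoxOK sI cl5 cl6 cl4 t5 t0 b3_11 :=
  box_mk (TrL.c (I.pos (nat_lit 0) (nat_lit 0)) (xa (xb T5.l12 T5.l12) T5.l12)
  (TrL.c (I.pos (nat_lit 0) (nat_lit 0)) T0.l11
  (TrL.c (I.pos (nat_lit 0) (nat_lit 0)) T5.l9
  (TrL.c (I.pos (nat_lit 0) (nat_lit 0)) T0.l8
  (TrL.c (I.pos (nat_lit 0) (nat_lit 0)) T0.l7
  (TrL.c (I.pos (nat_lit 0) (nat_lit 0)) T5.l10
  (TrL.c (I.pos (nat_lit 0) (nat_lit 0)) T0.l10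
  (TrL.c (I.pos (nat_lit 0) (nat_lit 0)) T5.l11
  TrL.n)))))))) (by decide +kernel)
theorem bx3_12 : BoxOK sI cl5 cl6 cl4 t5 t0 b3_12 :=
  box_mk (TrL.c (I.pos (nat_lit 0) (nat_lit 0)) (xa (xb T5.l0 T5.l0) (xa (xb T5.l0 T5.l0) (xb T5.l3 T5.l3)))
  (TrL.c (I.pos (nat_lit 0) (nat_lit 0)) T0.l7
  (TrL.c (I.pos (nat_lit 0) (nat_lit 0)) T5.l9
  (TrL.c (I.pos (nat_lit 0) (nat_lit 0)) T0.l8
  (TrL.c (I.pos (nat_lit 0) (nat_lit 0)) (xa T0.l9 (xb T0.l9 T0.l9))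
  (TrL.c (I.pos (nat_lit 0) (nat_lit 0)) T5.l10
  (TrL.c (I.pos (nat_lit 0) (nat_lit 0)) T0.l10
  (TrL.c (I.pos (nat_lit 0) (nat_lit 0)) T5.l11
  TrL.n)))))))) (by decide +kernel)
theorem bx3_13 : BoxOK sI cl5 cl6 cl4 t5 t0 b3_13 :=
  box_mk (TrL.c (I.pos (nat_lit 0) (nat_lit 0)) T5.l12
  (TrL.c (I.pos (nat_lit 0) (nat_lit 0)) T0.l7
  (TrL.c (I.pos (nat_lit 0) (nat_lit 0)) T5.l9
  (TrL.c (I.pos (nat_lit 0) (nat_lit 0)) T0.l8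
  (TrL.c (I.pos (nat_lit 0) (nat_lit 0)) T0.l11
  (TrL.c (I.pos (nat_lit 0) (nat_lit 0)) T5.l10
  (TrL.c (I.pos (nat_lit 0) (nat_lit 0)) T0.l10
  (TrL.c (I.pos (nat_lit 0) (nat_lit 0)) T5.l11
  TrL.n)))))))) (by decide +kernel)
theorem bx3_14 : BoxOK sI cl5 cl6 cl4 t5 t0 b3_14 :=
  box_mk (TrL.c (I.pos (nat_lit 0) (nat_lit 0)) T5.l12
  (TrL.c (I.pos (nat_lit 0) (nat_lit 0)) T0.l7
  (TrL.c (I.pos (nat_lit 0) (nat_lit 0)) T5.l9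
  (TrL.c (I.pos (nat_lit 0) (nat_lit 0)) T0.l8
  (TrL.c (I.pos (nat_lit 0) (nat_lit 0)) T0.l11
  (TrL.c (I.pos (nat_lit 0) (nat_lit 0)) T5.l10
  (TrL.c (I.pos (nat_lit 0) (nat_lit 0)) T0.l10
  (TrL.c (I.pos (nat_lit 0) (nat_lit 0)) T5.l11
  TrL.n)))))))) (by decide +kernel)
theorem bx3_15 : BoxOK sI cl5 cl6 cl4 t5 t0 b3_15 :=
  box_mk (TrL.c (I.pos (nat_lit 0) (nat_lit 0)) (xa (xb T5.l0 (xa T5.l0 T5.l0)) (xb T5.l0 (xa T5.l0 T5.l0)))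
  (TrL.c (I.pos (nat_lit 0) (nat_lit 0)) T0.l7
  (TrL.c (I.pos (nat_lit 0) (nat_lit 0)) T5.l9
  (TrL.c (I.pos (nat_lit 0) (nat_lit 0)) T0.l8
  (TrL.c (I.pos (nat_lit 0) (nat_lit 0)) (xa T0.l9 T0.l9)
  (TrL.c (I.pos (nat_lit 0) (nat_lit 0)) T5.l10
  (TrL.c (I.pos (nat_lit 0) (nat_lit 0)) T0.l10
  (TrL.c (I.pos (nat_lit 0) (nat_lit 0)) T5.l11
  TrL.n)))))))) (by decide +kernel)
theorem sv3 : StarV sI cl5 cl6 cl4 t5 t0 t3 :=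
  (bt_n (bt_n (bt_n (bt_n (bt_b bx3_0) (bt_b bx3_1)) (bt_n (bt_b bx3_2) (bt_b bx3_3))) (bt_n (bt_n (bt_b bx3_4) (bt_b bx3_5)) (bt_n (bt_b bx3_6) (bt_b bx3_7)))) (bt_n (bt_n (bt_n (bt_b bx3_8) (bt_b bx3_9)) (bt_n (bt_b bx3_10) (bt_b bx3_11))) (bt_n (bt_n (bt_b bx3_12) (bt_b bx3_13)) (bt_n (bt_b bx3_14) (bt_b bx3_15)))))
def S3 : StarD := StarD.mk cl5 cl6 cl4 5 0 t3
theorem bx4_0 : BoxOK sI cl6 cl4 cl5 t1 t3 b4_0 :=
  box_mk (TrL.c (I.pos (nat_lit 0) (nat_lit 0)) (xa (xb (xa T1.l4 T1.l0) (xa (xb T1.l0 T1.l0) (xb T1.l0 T1.l0))) (xb T1.l0 (xa (xb T1.l0 T1.l0) (xb T1.l0 T1.l0))))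
  (TrL.c (I.pos (nat_lit 0) (nat_lit 0)) T3.l1
  (TrL.c (I.pos (nat_lit 0) (nat_lit 89480386)) T1.l1
  (TrL.c (I.pos (nat_lit 0) (nat_lit 41530880)) T3.l2
  (TrL.c (I.pos (nat_lit 0) (nat_lit 0)) (xb (xa T3.l3 T3.l3) (xa T3.l3 T3.l3))
  (TrL.c (I.pos (nat_lit 0) (nat_lit 0)) T1.l2
  (TrL.c (I.mix (nat_lit 41527258) (nat_lit 41530880)) T3.l4
  (TrL.c (I.mix (nat_lit 41527258) (nat_lit 4274)) T1.l3
  TrL.n)))))))) (by decide +kernel)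
theorem bx4_1 : BoxOK sI cl6 cl4 cl5 t1 t3 b4_1 :=
  box_mk (TrL.c (I.pos (nat_lit 0) (nat_lit 0)) (xa (xb (xa (xb T1.l4 T1.l4) T1.l4) (xa (xb T1.l4 T1.l4) T1.l4)) (xb T1.l4 T1.l4))
  (TrL.c (I.pos (nat_lit 0) (nat_lit 0)) T3.l1
  (TrL.c (I.pos (nat_lit 0) (nat_lit 89480386)) T1.l1
  (TrL.c (I.pos (nat_lit 0) (nat_lit 41530880)) T3.l2
  (TrL.c (I.pos (nat_lit 0) (nat_lit 0)) (xa T3.l5 T3.l5)
  (TrL.c (I.pos (nat_lit 0) (nat_lit 0)) T1.l2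
  (TrL.c (I.mix (nat_lit 41527258) (nat_lit 41530880)) T3.l4
  (TrL.c (I.mix (nat_lit 41527258) (nat_lit 4274)) T1.l3
  TrL.n)))))))) (by decide +kernel)
theorem bx4_2 : BoxOK sI cl6 cl4 cl5 t1 t3 b4_2 :=
  box_mk (TrL.c (I.pos (nat_lit 0) (nat_lit 0)) (xb (xa (xb T1.l4 T1.l4) (xb T1.l4 T1.l4)) (xa (xb T1.l4 (xa T1.l4 T1.l4)) (xb T1.l4 (xa T1.l4 T1.l4))))
  (TrL.c (I.pos (nat_lit 0) (nat_lit 0)) T3.l1
  (TrL.c (I.pos (nat_lit 0) (nat_lit 89480386)) T1.l1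
  (TrL.c (I.pos (nat_lit 0) (nat_lit 41530880)) T3.l2
  (TrL.c (I.pos (nat_lit 0) (nat_lit 0)) (xb (xa T3.l5 T3.l5) (xa T3.l5 T3.l3))
  (TrL.c (I.pos (nat_lit 0) (nat_lit 0)) T1.l2
  (TrL.c (I.mix (nat_lit 41527258) (nat_lit 41530880)) T3.l4
  (TrL.c (I.mix (nat_lit 41527258) (nat_lit 4274)) T1.l3
  TrL.n)))))))) (by decide +kernel)
theorem bx4_3 : BoxOK sI cl6 cl4 cl5 t1 t3 b4_3 :=
  box_mk (TrL.c (I.pos (nat_lit 0) (nat_lit 0)) T3.l7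
  (TrL.c (I.pos (nat_lit 0) (nat_lit 0)) T1.l6
  (TrL.c (I.mix (nat_lit 41527258) (nat_lit 41530880)) T3.l6
  (TrL.c (I.mix (nat_lit 41527258) (nat_lit 4274)) T1.l5
  TrL.n)))) (by decide +kernel)
theorem bx4_4 : BoxOK sI cl6 cl4 cl5 t1 t3 b4_4 :=
  box_mk (TrL.c (I.pos (nat_lit 0) (nat_lit 0)) (xb T3.l7 T3.l7)
  (TrL.c (I.pos (nat_lit 0) (nat_lit 0)) T1.l6
  (TrL.c (I.mix (nat_lit 41527258) (nat_lit 41530880)) T3.l6
  (TrL.c (I.mix (nat_lit 41527258) (nat_lit 4274)) T1.l5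
  TrL.n)))) (by decide +kernel)
theorem bx4_5 : BoxOK sI cl6 cl4 cl5 t1 t3 b4_5 :=
  box_mk (TrL.c (I.pos (nat_lit 0) (nat_lit 0)) (xb (xa T1.l7 T1.l4) (xa T1.l4 T1.l4))
  (TrL.c (I.pos (nat_lit 0) (nat_lit 0)) T3.l1
  (TrL.c (I.pos (nat_lit 0) (nat_lit 89480386)) T1.l1
  (TrL.c (I.pos (nat_lit 0) (nat_lit 41530880)) T3.l2
  (TrL.c (I.pos (nat_lit 0) (nat_lit 0)) T3.l5
  (TrL.c (I.pos (nat_lit 0) (nat_lit 0)) T1.l2
  (TrL.c (I.mix (nat_lit 41527258) (nat_lit 41530880)) T3.l4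
  (TrL.c (I.mix (nat_lit 41527258) (nat_lit 4274)) T1.l3
  TrL.n)))))))) (by decide +kernel)
theorem bx4_6 : BoxOK sI cl6 cl4 cl5 t1 t3 b4_6 :=
  box_mk (TrL.c (I.pos (nat_lit 0) (nat_lit 0)) (xa (xb T1.l0 (xa T1.l0 T1.l0)) (xb (xa T1.l0 T1.l0) (xa T1.l0 (xb T1.l0 T1.l0))))
  (TrL.c (I.pos (nat_lit 0) (nat_lit 0)) T3.l1
  (TrL.c (I.pos (nat_lit 0) (nat_lit 89480386)) T1.l1
  (TrL.c (I.pos (nat_lit 0) (nat_lit 41530880)) T3.l2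
  (TrL.c (I.pos (nat_lit 0) (nat_lit 0)) (xb (xa (xa T3.l3 T3.l3) (xa T3.l3 (xb T3.l3 T3.l3))) (xa T3.l3 (xa T3.l3 (xb T3.l3 T3.l3))))
  (TrL.c (I.pos (nat_lit 0) (nat_lit 0)) T1.l2
  (TrL.c (I.mix (nat_lit 41527258) (nat_lit 41530880)) T3.l4
  (TrL.c (I.mix (nat_lit 41527258) (nat_lit 4274)) T1.l3
  TrL.n)))))))) (by decide +kernel)
theorem bx4_7 : BoxOK sI cl6 cl4 cl5 t1 t3 b4_7 :=
  box_mk (TrL.c (I.pos (nat_lit 0) (nat_lit 0)) (xb (xa (xb (xa T1.l7 T1.l7) T1.l7) T1.l7) (xa (xb T1.l7 T1.l7) (xb T1.l7 T1.l7)))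
  (TrL.c (I.pos (nat_lit 0) (nat_lit 0)) T3.l7
  (TrL.c (I.pos (nat_lit 0) (nat_lit 89480386)) T1.l1
  (TrL.c (I.pos (nat_lit 0) (nat_lit 41530880)) T3.l2
  (TrL.c (I.pos (nat_lit 0) (nat_lit 0)) T3.l8
  (TrL.c (I.pos (nat_lit 0) (nat_lit 0)) T1.l2
  (TrL.c (I.mix (nat_lit 41527258) (nat_lit 41530880)) T3.l4
  (TrL.c (I.mix (nat_lit 41527258) (nat_lit 4274)) T1.l3
  TrL.n)))))))) (by decide +kernel)
theorem bx4_8 : BoxOK sI cl6 cl4 cl5 t1 t3 b4_8 :=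
  box_mk (TrL.c (I.pos (nat_lit 0) (nat_lit 0)) (xa (xb T1.l0 (xa T1.l0 T1.l0)) (xb T1.l0 (xa T1.l0 T1.l0)))
  (TrL.c (I.pos (nat_lit 0) (nat_lit 0)) T3.l1
  (TrL.c (I.pos (nat_lit 0) (nat_lit 89480386)) T1.l1
  (TrL.c (I.pos (nat_lit 0) (nat_lit 41530880)) T3.l2
  (TrL.c (I.pos (nat_lit 0) (nat_lit 0)) (xa T3.l3 T3.l3)
  (TrL.c (I.pos (nat_lit 0) (nat_lit 0)) T1.l2
  (TrL.c (I.mix (nat_lit 41527258) (nat_lit 41530880)) T3.l4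
  (TrL.c (I.mix (nat_lit 41527258) (nat_lit 4274)) T1.l3
  TrL.n)))))))) (by decide +kernel)
theorem bx4_9 : BoxOK sI cl6 cl4 cl5 t1 t3 b4_9 :=
  box_mk (TrL.c (I.pos (nat_lit 0) (nat_lit 0)) T1.l7
  (TrL.c (I.pos (nat_lit 0) (nat_lit 0)) T3.l1
  (TrL.c (I.pos (nat_lit 0) (nat_lit 89480386)) T1.l1
  (TrL.c (I.pos (nat_lit 0) (nat_lit 41530880)) T3.l2
  (TrL.c (I.pos (nat_lit 0) (nat_lit 0)) T3.l8
  (TrL.c (I.pos (nat_lit 0) (nat_lit 0)) T1.l2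
  (TrL.c (I.mix (nat_lit 41527258) (nat_lit 41530880)) T3.l4
  (TrL.c (I.mix (nat_lit 41527258) (nat_lit 4274)) T1.l3
  TrL.n)))))))) (by decide +kernel)
theorem bx4_10 : BoxOK sI cl6 cl4 cl5 t1 t3 b4_10 :=
  box_mk (TrL.c (I.pos (nat_lit 0) (nat_lit 0)) T1.l4
  (TrL.c (I.pos (nat_lit 0) (nat_lit 0)) T3.l1
  (TrL.c (I.pos (nat_lit 0) (nat_lit 89480386)) T1.l1
  (TrL.c (I.pos (nat_lit 0) (nat_lit 41530880)) T3.l2
  (TrL.c (I.pos (nat_lit 0) (nat_lit 0)) T3.l5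
  (TrL.c (I.pos (nat_lit 0) (nat_lit 0)) T1.l2
  (TrL.c (I.mix (nat_lit 41527258) (nat_lit 41530880)) T3.l4
  (TrL.c (I.mix (nat_lit 41527258) (nat_lit 4274)) T1.l3
  TrL.n)))))))) (by decide +kernel)
theorem sv4 : StarV sI cl6 cl4 cl5 t1 t3 t4 :=
  (bt_n (bt_n (bt_n (bt_b bx4_0) (bt_b bx4_1)) (bt_n (bt_b bx4_2) (bt_n (bt_b bx4_3) (bt_b bx4_4)))) (bt_n (bt_n (bt_b bx4_5) (bt_n (bt_b bx4_6) (bt_b bx4_7))) (bt_n (bt_b bx4_8) (bt_n (bt_b bx4_9) (bt_b bx4_10)))))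
def S4 : StarD := StarD.mk cl6 cl4 cl5 1 3 t4
theorem bx5_0 : BoxOK sI cl6 cl5 cl4 t3 t1 b5_0 :=
  box_mk (TrL.c (I.pos (nat_lit 0) (nat_lit 0)) (xa (xb (xa T3.l15 T3.l0) (xa (xb T3.l0 T3.l0) (xb T3.l0 T3.l0))) (xb T3.l0 (xa (xb T3.l0 T3.l0) (xb T3.l0 T3.l0))))
  (TrL.c (I.pos (nat_lit 0) (nat_lit 0)) T1.l8
  (TrL.c (I.pos (nat_lit 0) (nat_lit 89480386)) T3.l9
  (TrL.c (I.pos (nat_lit 0) (nat_lit 41530880)) T1.l9
  (TrL.c (I.pos (nat_lit 0) (nat_lit 0)) (xa T1.l10 T1.l10)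
  (TrL.c (I.pos (nat_lit 0) (nat_lit 0)) T3.l10
  (TrL.c (I.mix (nat_lit 41527258) (nat_lit 41530880)) T1.l1
  (TrL.c (I.mix (nat_lit 41527258) (nat_lit 4274)) T3.l11
  TrL.n)))))))) (by decide +kernel)
theorem bx5_1 : BoxOK sI cl6 cl5 cl4 t3 t1 b5_1 :=
  box_mk (TrL.c (I.pos (nat_lit 0) (nat_lit 0)) (xa (xb (xa T3.l12 T3.l12) (xa T3.l12 T3.l12)) (xb T3.l12 (xa T3.l12 T3.l12)))
  (TrL.c (I.pos (nat_lit 0) (nat_lit 0)) T1.l8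
  (TrL.c (I.pos (nat_lit 0) (nat_lit 89480386)) T3.l9
  (TrL.c (I.pos (nat_lit 0) (nat_lit 41530880)) T1.l9
  (TrL.c (I.pos (nat_lit 0) (nat_lit 0)) (xa T1.l12 T1.l12)
  (TrL.c (I.pos (nat_lit 0) (nat_lit 0)) T3.l10
  (TrL.c (I.mix (nat_lit 41527258) (nat_lit 41530880)) T1.l1
  (TrL.c (I.mix (nat_lit 41527258) (nat_lit 4274)) T3.l11
  TrL.n)))))))) (by decide +kernel)
theorem bx5_2 : BoxOK sI cl6 cl5 cl4 t3 t1 b5_2 :=
  box_mk (TrL.c (I.pos (nat_lit 0) (nat_lit 0)) T1.l8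
  (TrL.c (I.pos (nat_lit 0) (nat_lit 0)) T3.l9
  (TrL.c (I.mix (nat_lit 41527258) (nat_lit 41530880)) T1.l14
  (TrL.c (I.mix (nat_lit 41527258) (nat_lit 4274)) T3.l4
  TrL.n)))) (by decide +kernel)
theorem bx5_3 : BoxOK sI cl6 cl5 cl4 t3 t1 b5_3 :=
  box_mk (TrL.c (I.pos (nat_lit 0) (nat_lit 0)) (xb (xa (xb T3.l15 T3.l15) T3.l15) (xa (xb T3.l15 (xa T3.l15 T3.l15)) (xa T3.l15 T3.l15)))
  (TrL.c (I.pos (nat_lit 0) (nat_lit 0)) T1.l8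
  (TrL.c (I.pos (nat_lit 0) (nat_lit 89480386)) T3.l9
  (TrL.c (I.pos (nat_lit 0) (nat_lit 41530880)) T1.l9
  (TrL.c (I.pos (nat_lit 0) (nat_lit 0)) T1.l15
  (TrL.c (I.pos (nat_lit 0) (nat_lit 0)) T3.l10
  (TrL.c (I.mix (nat_lit 41527258) (nat_lit 41530880)) T1.l1
  (TrL.c (I.mix (nat_lit 41527258) (nat_lit 4274)) T3.l11
  TrL.n)))))))) (by decide +kernel)
theorem bx5_4 : BoxOK sI cl6 cl5 cl4 t3 t1 b5_4 :=
  box_mk (TrL.c (I.pos (nat_lit 0) (nat_lit 0)) (xb T3.l12 (xa T3.l12 T3.l12))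
  (TrL.c (I.pos (nat_lit 0) (nat_lit 0)) T1.l8
  (TrL.c (I.pos (nat_lit 0) (nat_lit 89480386)) T3.l9
  (TrL.c (I.pos (nat_lit 0) (nat_lit 41530880)) T1.l9
  (TrL.c (I.pos (nat_lit 0) (nat_lit 0)) T1.l12
  (TrL.c (I.pos (nat_lit 0) (nat_lit 0)) T3.l10
  (TrL.c (I.mix (nat_lit 41527258) (nat_lit 41530880)) T1.l11
  (TrL.c (I.mix (nat_lit 41527258) (nat_lit 4274)) T3.l11
  TrL.n)))))))) (by decide +kernel)
theorem bx5_5 : BoxOK sI cl6 cl5 cl4 t3 t1 b5_5 :=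
  box_mk (TrL.c (I.pos (nat_lit 0) (nat_lit 0)) T3.l12
  (TrL.c (I.pos (nat_lit 0) (nat_lit 0)) T1.l8
  (TrL.c (I.pos (nat_lit 0) (nat_lit 89480386)) T3.l9
  (TrL.c (I.pos (nat_lit 0) (nat_lit 41530880)) T1.l9
  (TrL.c (I.pos (nat_lit 0) (nat_lit 0)) T1.l12
  (TrL.c (I.pos (nat_lit 0) (nat_lit 0)) T3.l10
  (TrL.c (I.mix (nat_lit 41527258) (nat_lit 41530880)) T1.l1
  (TrL.c (I.mix (nat_lit 41527258) (nat_lit 4274)) T3.l11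
  TrL.n)))))))) (by decide +kernel)
theorem bx5_6 : BoxOK sI cl6 cl5 cl4 t3 t1 b5_6 :=
  box_mk (TrL.c (I.pos (nat_lit 0) (nat_lit 0)) T1.l8
  (TrL.c (I.pos (nat_lit 0) (nat_lit 0)) T3.l9
  (TrL.c (I.mix (nat_lit 41527258) (nat_lit 41530880)) T1.l14
  (TrL.c (I.mix (nat_lit 41527258) (nat_lit 4274)) T3.l14
  TrL.n)))) (by decide +kernel)
theorem bx5_7 : BoxOK sI cl6 cl5 cl4 t3 t1 b5_7 :=
  box_mk (TrL.c (I.pos (nat_lit 0) (nat_lit 0)) T3.l15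
  (TrL.c (I.pos (nat_lit 0) (nat_lit 0)) T1.l8
  (TrL.c (I.pos (nat_lit 0) (nat_lit 89480386)) T3.l9
  (TrL.c (I.pos (nat_lit 0) (nat_lit 41530880)) T1.l9
  (TrL.c (I.pos (nat_lit 0) (nat_lit 0)) T1.l15
  (TrL.c (I.pos (nat_lit 0) (nat_lit 0)) T3.l10
  (TrL.c (I.mix (nat_lit 41527258) (nat_lit 41530880)) T1.l11
  (TrL.c (I.mix (nat_lit 41527258) (nat_lit 4274)) T3.l11
  TrL.n)))))))) (by decide +kernel)
theorem bx5_8 : BoxOK sI cl6 cl5 cl4 t3 t1 b5_8 :=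
  box_mk (TrL.c (I.pos (nat_lit 0) (nat_lit 0)) (xb (xa T3.l15 T3.l15) (xa T3.l15 T3.l15))
  (TrL.c (I.pos (nat_lit 0) (nat_lit 0)) T1.l8
  (TrL.c (I.pos (nat_lit 0) (nat_lit 89480386)) T3.l9
  (TrL.c (I.pos (nat_lit 0) (nat_lit 41530880)) T1.l9
  (TrL.c (I.pos (nat_lit 0) (nat_lit 0)) T1.l15
  (TrL.c (I.pos (nat_lit 0) (nat_lit 0)) T3.l10
  (TrL.c (I.mix (nat_lit 41527258) (nat_lit 41530880)) T1.l1
  (TrL.c (I.mix (nat_lit 41527258) (nat_lit 4274)) T3.l11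
  TrL.n)))))))) (by decide +kernel)
theorem bx5_9 : BoxOK sI cl6 cl5 cl4 t3 t1 b5_9 :=
  box_mk (TrL.c (I.pos (nat_lit 0) (nat_lit 0)) (xa (xb T3.l12 T3.l12) (xb T3.l12 (xa T3.l12 T3.l12)))
  (TrL.c (I.pos (nat_lit 0) (nat_lit 0)) T1.l8
  (TrL.c (I.pos (nat_lit 0) (nat_lit 89480386)) T3.l9
  (TrL.c (I.pos (nat_lit 0) (nat_lit 41530880)) T1.l9
  (TrL.c (I.pos (nat_lit 0) (nat_lit 0)) T1.l12
  (TrL.c (I.pos (nat_lit 0) (nat_lit 0)) T3.l10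
  (TrL.c (I.mix (nat_lit 41527258) (nat_lit 41530880)) T1.l11
  (TrL.c (I.mix (nat_lit 41527258) (nat_lit 4274)) T3.l11
  TrL.n)))))))) (by decide +kernel)
theorem bx5_10 : BoxOK sI cl6 cl5 cl4 t3 t1 b5_10 :=
  box_mk (TrL.c (I.pos (nat_lit 0) (nat_lit 0)) (xb (xa (xb T3.l12 T3.l12) T3.l12) (xa (xb T3.l12 T3.l12) (xb T3.l12 T3.l12)))
  (TrL.c (I.pos (nat_lit 0) (nat_lit 0)) T1.l8
  (TrL.c (I.pos (nat_lit 0) (nat_lit 89480386)) T3.l9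
  (TrL.c (I.pos (nat_lit 0) (nat_lit 41530880)) T1.l9
  (TrL.c (I.pos (nat_lit 0) (nat_lit 0)) (xb T1.l12 T1.l12)
  (TrL.c (I.pos (nat_lit 0) (nat_lit 0)) T3.l10
  (TrL.c (I.mix (nat_lit 41527258) (nat_lit 41530880)) T1.l1
  (TrL.c (I.mix (nat_lit 41527258) (nat_lit 4274)) T3.l11
  TrL.n)))))))) (by decide +kernel)
theorem bx5_11 : BoxOK sI cl6 cl5 cl4 t3 t1 b5_11 :=
  box_mk (TrL.c (I.pos (nat_lit 0) (nat_lit 0)) T1.l8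
  (TrL.c (I.pos (nat_lit 0) (nat_lit 0)) T3.l9
  (TrL.c (I.mix (nat_lit 41527258) (nat_lit 41530880)) T1.l14
  (TrL.c (I.mix (nat_lit 41527258) (nat_lit 4274)) T3.l4
  TrL.n)))) (by decide +kernel)
theorem bx5_12 : BoxOK sI cl6 cl5 cl4 t3 t1 b5_12 :=
  box_mk (TrL.c (I.pos (nat_lit 0) (nat_lit 0)) (xa (xb (xa T3.l0 T3.l0) (xa (xb T3.l0 T3.l0) (xb T3.l0 T3.l0))) (xb (xa T3.l0 T3.l0) (xa (xb T3.l0 T3.l0) (xb T3.l0 T3.l0))))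
  (TrL.c (I.pos (nat_lit 0) (nat_lit 0)) (xa T1.l8 T1.l8)
  (TrL.c (I.pos (nat_lit 0) (nat_lit 89480386)) (xR T3.l9 T3.l9)
  (TrL.c (I.pos (nat_lit 0) (nat_lit 41530880)) T1.l9
  (TrL.c (I.pos (nat_lit 0) (nat_lit 0)) (xa (xb T1.l10 T1.l10) (xb (xa T1.l10 (xb T1.l10 T1.l10)) (xa T1.l10 (xb T1.l10 T1.l10))))
  (TrL.c (I.pos (nat_lit 0) (nat_lit 0)) T3.l10
  (TrL.c (I.mix (nat_lit 41527258) (nat_lit 41530880)) T1.l1
  (TrL.c (I.mix (nat_lit 41527258) (nat_lit 4274)) T3.l11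
  TrL.n)))))))) (by decide +kernel)
theorem bx5_13 : BoxOK sI cl6 cl5 cl4 t3 t1 b5_13 :=
  box_mk (TrL.c (I.pos (nat_lit 0) (nat_lit 0)) (xa (xb T3.l0 (xa T3.l0 T3.l0)) (xb T3.l0 (xa T3.l0 T3.l0)))
  (TrL.c (I.pos (nat_lit 0) (nat_lit 0)) T1.l8
  (TrL.c (I.pos (nat_lit 0) (nat_lit 89480386)) T3.l9
  (TrL.c (I.pos (nat_lit 0) (nat_lit 41530880)) T1.l9
  (TrL.c (I.pos (nat_lit 0) (nat_lit 0)) T1.l10
  (TrL.c (I.pos (nat_lit 0) (nat_lit 0)) T3.l10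
  (TrL.c (I.mix (nat_lit 41527258) (nat_lit 41530880)) T1.l1
  (TrL.c (I.mix (nat_lit 41527258) (nat_lit 4274)) T3.l11
  TrL.n)))))))) (by decide +kernel)
theorem sv5 : StarV sI cl6 cl5 cl4 t3 t1 t5 :=
  (bt_n (bt_n (bt_n (bt_b bx5_0) (bt_n (bt_b bx5_1) (bt_b bx5_2))) (bt_n (bt_n (bt_b bx5_3) (bt_b bx5_4)) (bt_n (bt_b bx5_5) (bt_b bx5_6)))) (bt_n (bt_n (bt_b bx5_7) (bt_n (bt_b bx5_8) (bt_b bx5_9))) (bt_n (bt_n (bt_b bx5_10) (bt_b bx5_11)) (bt_n (bt_b bx5_12) (bt_b bx5_13)))))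
def S5 : StarD := StarD.mk cl6 cl5 cl4 3 1 t5
def G : List StarD := [S0, S1, S2, S3, S4, S5]
theorem so0 : StarOK sI G S0 :=
  star_mk (by decide) (by decide) rfl rfl rfl rfl rfl rfl (rfl : _ = t2) (rfl : _ = t4)
  (st_mk (Pth.l (Pth.l (Pth.l Pth.z))) (nat_lit 253048098) (nat_lit 255457694) (by decide +kernel))
  (st_mk (Pth.l (Pth.l (Pth.l Pth.z))) (nat_lit 292953215) (nat_lit 296259527) (by decide +kernel))
  (st_mk (Pth.l (Pth.l (Pth.l Pth.z))) (nat_lit 340075560) (nat_lit 344662929) (by decide +kernel)) sv0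
theorem so1 : StarOK sI G S1 :=
  star_mk (by decide) (by decide) rfl rfl rfl rfl rfl rfl (rfl : _ = t4) (rfl : _ = t2)
  (st_mk (Pth.l (Pth.l (Pth.l (Pth.l Pth.z)))) (nat_lit 196522589) (nat_lit 198206428) (by decide +kernel))
  (st_mk (Pth.l (Pth.l (Pth.l (Pth.l Pth.z)))) (nat_lit 236026592) (nat_lit 238520528) (by decide +kernel))
  (st_mk (Pth.l (Pth.l (Pth.l (Pth.l Pth.z)))) (nat_lit 282841586) (nat_lit 286544866) (by decide +kernel)) sv1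
theorem so2 : StarOK sI G S2 :=
  star_mk (by decide) (by decide) rfl rfl rfl rfl rfl rfl (rfl : _ = t0) (rfl : _ = t5)
  (st_mk (Pth.l (Pth.l (Pth.l Pth.z))) (nat_lit 382850155) (nat_lit 385674629) (by decide +kernel))
  (st_mk (Pth.l (Pth.l (Pth.l Pth.z))) (nat_lit 421521159) (nat_lit 424983874) (by decide +kernel))
  (st_mk (Pth.l (Pth.l (Pth.l Pth.z))) (nat_lit 466650063) (nat_lit 470952162) (by decide +kernel)) sv2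
theorem so3 : StarOK sI G S3 :=
  star_mk (by decide) (by decide) rfl rfl rfl rfl rfl rfl (rfl : _ = t5) (rfl : _ = t0)
  (st_mk (Pth.l (Pth.l (Pth.l (Pth.l Pth.z)))) (nat_lit 193198704) (nat_lit 194301601) (by decide +kernel))
  (st_mk (Pth.l (Pth.l (Pth.l (Pth.l Pth.z)))) (nat_lit 231154708) (nat_lit 232758153) (by decide +kernel))
  (st_mk (Pth.l (Pth.l (Pth.l (Pth.l Pth.z)))) (nat_lit 275709594) (nat_lit 278036784) (by decide +kernel)) sv3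
theorem so4 : StarOK sI G S4 :=
  star_mk (by decide) (by decide) rfl rfl rfl rfl rfl rfl (rfl : _ = t1) (rfl : _ = t3)
  (st_mk (Pth.l (Pth.l (Pth.l Pth.z))) (nat_lit 377899802) (nat_lit 379878794) (by decide +kernel))
  (st_mk (Pth.l (Pth.l (Pth.l Pth.z))) (nat_lit 415475788) (nat_lit 417885269) (by decide +kernel))
  (st_mk (Pth.l (Pth.l (Pth.l Pth.z))) (nat_lit 459176428) (nat_lit 462145643) (by decide +kernel)) sv4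
theorem so5 : StarOK sI G S5 :=
  star_mk (by decide) (by decide) rfl rfl rfl rfl rfl rfl (rfl : _ = t3) (rfl : _ = t1)
  (st_mk (Pth.l (Pth.l (Pth.l Pth.z))) (nat_lit 245561120) (nat_lit 246667167) (by decide +kernel))
  (st_mk (Pth.l (Pth.l (Pth.l Pth.z))) (nat_lit 282818957) (nat_lit 284298772) (by decide +kernel))
  (st_mk (Pth.l (Pth.l (Pth.l Pth.z))) (nat_lit 326257655) (nat_lit 328249112) (by decide +kernel)) sv5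
theorem ok : GroupOK (nat_lit 150274048) (nat_lit 209387520) G := grp_mk (allS_c so0 (allS_c so1 (allS_c so2 (allS_c so3 (allS_c so4 (allS_c so5 allS_n))))))
theorem cov : GCov G cl4 cl5 cl6 := cov_mk
  ⟨0, by decide, rfl, rfl, rfl⟩ ⟨1, by decide, rfl, rfl, rfl⟩ ⟨2, by decide, rfl, rfl, rfl⟩ ⟨3, by decide, rfl, rfl, rfl⟩ ⟨4, by decide, rfl, rfl, rfl⟩ ⟨5, by decide, rfl, rfl, rfl⟩
end Q123_2


end Pool.Agent.Helper6.MONO
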