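import Pool.Agent.Helper6.MONO.Cert.C58

/-!
Certificate data (generated).
-/

set_option autoImplicit false
set_option linter.all false
noncomputable section
namespace Pool.Agent.Helper6.MONO


namespace Q123_3
def sI : I := I.pos (nat_lit 209321984) (nat_lit 268435456)
def b0_0 : Bx := Bx.mk (St.mk (I.pos (nat_lit 149471232) (nat_lit 219086848)) (I.mix (nat_lit 2326528) (nat_lit 74792960)) (I.mix (nat_lit 2260992) (nat_lit 72040448)) (I.pos (nat_lit 251478016) (nat_lit 366231552)) (I.mix (nat_lit 151420928) (nat_lit 101220352)) (I.mix (nat_lit 80297984) (nat_lit 87785472)) (I.mix (nat_lit 145833984) (nat_lit 141819904)))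
  false (nat_lit 0)
def b0_1 : Bx := Bx.mk (St.mk (I.pos (nat_lit 24510464) (nat_lit 66011136)) (I.mix (nat_lit 10665984) (nat_lit 48529408)) (I.neg (nat_lit 10764288) (nat_lit 38912000)) (I.pos (nat_lit 142835712) (nat_lit 165675008)) (I.mix (nat_lit 63078400) (nat_lit 93077504)) (I.mix (nat_lit 66568192) (nat_lit 49528832)) (I.mix (nat_lit 38387712) (nat_lit 22888448)))
  false (nat_lit 0)
def b0_2 : Bx := Bx.mk (St.mk (I.pos (nat_lit 47038464) (nat_lit 90456064)) (I.mix (nat_lit 57720832) (nat_lit 13107200)) (I.neg (nat_lit 26132480) (nat_lit 67174400)) (I.pos (nat_lit 146702336) (nat_lit 178651136)) (I.mix (nat_lit 126664704) (nat_lit 63356928)) (I.mix (nat_lit 49102848) (nat_lit 97730560)) (I.mix (nat_lit 35930112) (nat_lit 60358656)))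
  false (nat_lit 0)
def b0_3 : Bx := Bx.mk (St.mk (I.neg (nat_lit 24510464) (nat_lit 66011136)) (I.mix (nat_lit 48529408) (nat_lit 10698752)) (I.neg (nat_lit 10764288) (nat_lit 38912000)) (I.pos (nat_lit 142835712) (nat_lit 165675008)) (I.mix (nat_lit 93077504) (nat_lit 64339968)) (I.mix (nat_lit 49594368) (nat_lit 66568192)) (I.mix (nat_lit 38387712) (nat_lit 23412736)))
  true (nat_lit 0)
def b0_4 : Bx := Bx.mk (St.mk (I.pos (nat_lit 30867456) (nat_lit 65683456)) (I.mix (nat_lit 14270464) (nat_lit 23298048)) (I.neg (nat_lit 20250624) (nat_lit 39763968)) (I.pos (nat_lit 142573568) (nat_lit 161923072)) (I.mix (nat_lit 65323008) (nat_lit 47513600)) (I.mix (nat_lit 44269568) (nat_lit 39682048)) (I.mix (nat_lit 23642112) (nat_lit 23707648)))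
  false (nat_lit 0)
def b0_5 : Bx := Bx.mk (St.mk (I.pos (nat_lit 194936832) (nat_lit 249528320)) (I.mix (nat_lit 19038208) (nat_lit 17252352)) (I.neg (nat_lit 44777472) (nat_lit 106872832)) (I.pos (nat_lit 309936128) (nat_lit 400883712)) (I.mix (nat_lit 143360000) (nat_lit 60096512)) (I.mix (nat_lit 90701824) (nat_lit 78086144)) (I.mix (nat_lit 141295616) (nat_lit 149946368)))
  false (nat_lit 0)
def b0_6 : Bx := Bx.mk (St.mk (I.pos (nat_lit 181223424) (nat_lit 242925568)) (I.mix (nat_lit 16695296) (nat_lit 36077568)) (I.neg (nat_lit 7028736) (nat_lit 101122048)) (I.pos (nat_lit 293765120) (nat_lit 383025152)) (I.mix (nat_lit 146997248) (nat_lit 66043904)) (I.mix (nat_lit 96993280) (nat_lit 84819968)) (I.mix (nat_lit 153419776) (nat_lit 155107328)))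
  false (nat_lit 0)
def b0_7 : Bx := Bx.mk (St.mk (I.pos (nat_lit 170803200) (nat_lit 236650496)) (I.pos (nat_lit 9355264) (nat_lit 69287936)) (I.mix (nat_lit 42729472) (nat_lit 55853056)) (I.pos (nat_lit 292438016) (nat_lit 390086656)) (I.mix (nat_lit 134316032) (nat_lit 120979456)) (I.mix (nat_lit 115064832) (nat_lit 97419264)) (I.mix (nat_lit 207699968) (nat_lit 140574720)))
  false (nat_lit 0)
def b0_8 : Bx := Bx.mk (St.mk (I.pos (nat_lit 56033280) (nat_lit 150716416)) (I.neg (nat_lit 4964352) (nat_lit 59965440)) (I.neg (nat_lit 18169856) (nat_lit 70270976)) (I.pos (nat_lit 156647424) (nat_lit 235978752)) (I.mix (nat_lit 108036096) (nat_lit 55754752)) (I.mix (nat_lit 42352640) (nat_lit 70320128)) (I.mix (nat_lit 40828928) (nat_lit 66027520)))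
  false (nat_lit 0)
def b0_9 : Bx := Bx.mk (St.mk (I.mix (nat_lit 37765120) (nat_lit 11747328)) (I.mix (nat_lit 36995072) (nat_lit 9748480)) (I.neg (nat_lit 11730944) (nat_lit 17776640)) (I.pos (nat_lit 143900672) (nat_lit 154255360)) (I.mix (nat_lit 46317568) (nat_lit 49184768)) (I.mix (nat_lit 33570816) (nat_lit 47431680)) (I.mix (nat_lit 9994240) (nat_lit 8732672)))
  true (nat_lit 0)
def b0_10 : Bx := Bx.mk (St.mk (I.pos (nat_lit 144375808) (nat_lit 189071360)) (I.pos (nat_lit 3194880) (nat_lit 59260928)) (I.mix (nat_lit 2523136) (nat_lit 57638912)) (I.pos (nat_lit 244727808) (nat_lit 308576256)) (I.mix (nat_lit 134103040) (nat_lit 50528256)) (I.mix (nat_lit 112820224) (nat_lit 75464704)) (I.mix (nat_lit 108822528) (nat_lit 81920000)))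
  false (nat_lit 0)
def b0_11 : Bx := Bx.mk (St.mk (I.mix (nat_lit 11894784) (nat_lit 37847040)) (I.mix (nat_lit 12042240) (nat_lit 37060608)) (I.neg (nat_lit 11730944) (nat_lit 17776640)) (I.pos (nat_lit 143900672) (nat_lit 154255360)) (I.mix (nat_lit 49184768) (nat_lit 46317568)) (I.mix (nat_lit 47431680) (nat_lit 33570816)) (I.mix (nat_lit 9994240) (nat_lit 8732672)))
  false (nat_lit 0)
def b0_12 : Bx := Bx.mk (St.mk (I.pos (nat_lit 146407424) (nat_lit 186515456)) (I.mix (nat_lit 27574272) (nat_lit 11304960)) (I.neg (nat_lit 3325952) (nat_lit 44564480)) (I.pos (nat_lit 236666880) (nat_lit 282673152)) (I.mix (nat_lit 75612160) (nat_lit 80510976)) (I.mix (nat_lit 69828608) (nat_lit 66600960)) (I.mix (nat_lit 72679424) (nat_lit 59736064)))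
  false (nat_lit 0)
def b0_13 : Bx := Bx.mk (St.mk (I.pos (nat_lit 119586816) (nat_lit 149618688)) (I.neg (nat_lit 11272192) (nat_lit 36077568)) (I.neg (nat_lit 23363584) (nat_lit 50085888)) (I.pos (nat_lit 203358208) (nat_lit 235012096)) (I.mix (nat_lit 35553280) (nat_lit 22298624)) (I.mix (nat_lit 16990208) (nat_lit 20103168)) (I.mix (nat_lit 18055168) (nat_lit 19480576)))
  false (nat_lit 0)
def b0_14 : Bx := Bx.mk (St.mk (I.pos (nat_lit 140214272) (nat_lit 189235200)) (I.mix (nat_lit 8159232) (nat_lit 34848768)) (I.mix (nat_lit 22560768) (nat_lit 31506432)) (I.pos (nat_lit 239960064) (nat_lit 288833536)) (I.mix (nat_lit 126451712) (nat_lit 81592320)) (I.mix (nat_lit 124403712) (nat_lit 75005952)) (I.mix (nat_lit 123600896) (nat_lit 72105984)))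
  false (nat_lit 0)
def b0_15 : Bx := Bx.mk (St.mk (I.pos (nat_lit 114180096) (nat_lit 151830528)) (I.mix (nat_lit 35078144) (nat_lit 245760)) (I.neg (nat_lit 11255808) (nat_lit 47988736)) (I.pos (nat_lit 197902336) (nat_lit 238567424)) (I.mix (nat_lit 58621952) (nat_lit 24018944)) (I.mix (nat_lit 33177600) (nat_lit 26591232)) (I.mix (nat_lit 33013760) (nat_lit 25591808)))
  false (nat_lit 0)
def b0_16 : Bx := Bx.mk (St.mk (I.pos (nat_lit 155205632) (nat_lit 177569792)) (I.mix (nat_lit 10665984) (nat_lit 9633792)) (I.neg (nat_lit 2359296) (nat_lit 24444928)) (I.pos (nat_lit 249659392) (nat_lit 272875520)) (I.mix (nat_lit 51134464) (nat_lit 34717696)) (I.mix (nat_lit 41959424) (nat_lit 34291712)) (I.mix (nat_lit 42647552) (nat_lit 32653312)))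
  false (nat_lit 0)
def b0_17 : Bx := Bx.mk (St.mk (I.pos (nat_lit 116424704) (nat_lit 156516352)) (I.mix (nat_lit 30785536) (nat_lit 4325376)) (I.neg (nat_lit 6635520) (nat_lit 43630592)) (I.pos (nat_lit 201523200) (nat_lit 244367360)) (I.mix (nat_lit 54034432) (nat_lit 24395776)) (I.mix (nat_lit 30343168) (nat_lit 29638656)) (I.mix (nat_lit 29868032) (nat_lit 27934720)))
  false (nat_lit 0)
def b0_18 : Bx := Bx.mk (St.mk (I.pos (nat_lit 142344192) (nat_lit 176177152)) (I.mix (nat_lit 28819456) (nat_lit 4915200)) (I.neg (nat_lit 8732672) (nat_lit 46350336)) (I.pos (nat_lit 231686144) (nat_lit 268075008)) (I.mix (nat_lit 67665920) (nat_lit 55771136)) (I.mix (nat_lit 54853632) (nat_lit 49709056)) (I.mix (nat_lit 57720832) (nat_lit 44679168)))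
  false (nat_lit 0)
def t0 : BTr := (BTr.n (BTr.n (BTr.n (BTr.n (BTr.b b0_0) (BTr.b b0_1)) (BTr.n (BTr.b b0_2) (BTr.b b0_3))) (BTr.n (BTr.n (BTr.b b0_4) (BTr.b b0_5)) (BTr.n (BTr.b b0_6) (BTr.n (BTr.b b0_7) (BTr.b b0_8))))) (BTr.n (BTr.n (BTr.n (BTr.b b0_9) (BTr.b b0_10)) (BTr.n (BTr.b b0_11) (BTr.n (BTr.b b0_12) (BTr.b b0_13)))) (BTr.n (BTr.n (BTr.b b0_14) (BTr.b b0_15)) (BTr.n (BTr.b b0_16) (BTr.n (BTr.b b0_17) (BTr.b b0_18))))))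
namespace T0
def l0 : Tr := Tr.L (Pth.l (Pth.l (Pth.l (Pth.l Pth.z))))
def l1 : Tr := Tr.L (Pth.l (Pth.l (Pth.l (Pth.r Pth.z))))
def l2 : Tr := Tr.L (Pth.l (Pth.l (Pth.r (Pth.l Pth.z))))
def l3 : Tr := Tr.L (Pth.l (Pth.l (Pth.r (Pth.r Pth.z))))
def l4 : Tr := Tr.L (Pth.l (Pth.r (Pth.l (Pth.l Pth.z))))
def l5 : Tr := Tr.L (Pth.l (Pth.r (Pth.l (Pth.r Pth.z))))
def l6 : Tr := Tr.L (Pth.l (Pth.r (Pth.r (Pth.l Pth.z))))
def l7 : Tr := Tr.L (Pth.l (Pth.r (Pth.r (Pth.r (Pth.l Pth.z)))))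
def l8 : Tr := Tr.L (Pth.l (Pth.r (Pth.r (Pth.r (Pth.r Pth.z)))))
def l9 : Tr := Tr.L (Pth.r (Pth.l (Pth.l (Pth.l Pth.z))))
def l10 : Tr := Tr.L (Pth.r (Pth.l (Pth.l (Pth.r Pth.z))))
def l11 : Tr := Tr.L (Pth.r (Pth.l (Pth.r (Pth.l Pth.z))))
def l12 : Tr := Tr.L (Pth.r (Pth.l (Pth.r (Pth.r (Pth.l Pth.z)))))
def l13 : Tr := Tr.L (Pth.r (Pth.l (Pth.r (Pth.r (Pth.r Pth.z)))))
def l14 : Tr := Tr.L (Pth.r (Pth.r (Pth.l (Pth.l Pth.z))))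
def l15 : Tr := Tr.L (Pth.r (Pth.r (Pth.l (Pth.r Pth.z))))
def l16 : Tr := Tr.L (Pth.r (Pth.r (Pth.r (Pth.l Pth.z))))
def l17 : Tr := Tr.L (Pth.r (Pth.r (Pth.r (Pth.r (Pth.l Pth.z)))))
def l18 : Tr := Tr.L (Pth.r (Pth.r (Pth.r (Pth.r (Pth.r Pth.z)))))
end T0
def b1_0 : Bx := Bx.mk (St.mk (I.pos (nat_lit 154320896) (nat_lit 221446144)) (I.mix (nat_lit 1966080) (nat_lit 62488576)) (I.mix (nat_lit 2441216) (nat_lit 77037568)) (I.pos (nat_lit 194347008) (nat_lit 305348608)) (I.mix (nat_lit 137297920) (nat_lit 91815936)) (I.mix (nat_lit 78938112) (nat_lit 77135872)) (I.mix (nat_lit 129236992) (nat_lit 120979456)))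
  false (nat_lit 0)
def b1_1 : Bx := Bx.mk (St.mk (I.mix (nat_lit 27197440) (nat_lit 90750976)) (I.mix (nat_lit 7520256) (nat_lit 35553280)) (I.mix (nat_lit 21331968) (nat_lit 6225920)) (I.pos (nat_lit 86999040) (nat_lit 123420672)) (I.mix (nat_lit 48463872) (nat_lit 62472192)) (I.mix (nat_lit 47972352) (nat_lit 34095104)) (I.mix (nat_lit 33243136) (nat_lit 19087360)))
  false (nat_lit 0)
def b1_2 : Bx := Bx.mk (St.mk (I.pos (nat_lit 73596928) (nat_lit 115736576)) (I.mix (nat_lit 51757056) (nat_lit 10649600)) (I.neg (nat_lit 10846208) (nat_lit 55508992)) (I.pos (nat_lit 111689728) (nat_lit 144195584)) (I.mix (nat_lit 112508928) (nat_lit 55410688)) (I.mix (nat_lit 42434560) (nat_lit 93224960)) (I.mix (nat_lit 30392320) (nat_lit 62062592)))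
  false (nat_lit 0)
def b1_3 : Bx := Bx.mk (St.mk (I.mix (nat_lit 43122688) (nat_lit 25755648)) (I.mix (nat_lit 32030720) (nat_lit 6635520)) (I.neg (nat_lit 3325952) (nat_lit 16039936)) (I.pos (nat_lit 87441408) (nat_lit 100646912)) (I.mix (nat_lit 52936704) (nat_lit 39092224)) (I.mix (nat_lit 25149440) (nat_lit 38944768)) (I.mix (nat_lit 16072704) (nat_lit 8814592)))
  false (nat_lit 0)
def b1_4 : Bx := Bx.mk (St.mk (I.pos (nat_lit 184729600) (nat_lit 239517696)) (I.mix (nat_lit 14614528) (nat_lit 28377088)) (I.mix (nat_lit 66961408) (nat_lit 8437760)) (I.pos (nat_lit 248233984) (nat_lit 322387968)) (I.mix (nat_lit 136069120) (nat_lit 52838400)) (I.mix (nat_lit 85475328) (nat_lit 74776576)) (I.mix (nat_lit 136921088) (nat_lit 133578752)))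
  false (nat_lit 0)
def b1_5 : Bx := Bx.mk (St.mk (I.pos (nat_lit 177700864) (nat_lit 233373696)) (I.pos (nat_lit 11124736) (nat_lit 59457536)) (I.mix (nat_lit 10993664) (nat_lit 67813376)) (I.pos (nat_lit 245563392) (nat_lit 325763072)) (I.mix (nat_lit 123682816) (nat_lit 113426432)) (I.mix (nat_lit 111280128) (nat_lit 93339648)) (I.mix (nat_lit 193150976) (nat_lit 145145856)))
  false (nat_lit 0)
def b1_6 : Bx := Bx.mk (St.mk (I.mix (nat_lit 59801600) (nat_lit 5324800)) (I.mix (nat_lit 9535488) (nat_lit 12271616)) (I.neg (nat_lit 9994240) (nat_lit 18841600)) (I.pos (nat_lit 89276416) (nat_lit 104710144)) (I.mix (nat_lit 35864576) (nat_lit 28131328)) (I.mix (nat_lit 25231360) (nat_lit 23904256)) (I.mix (nat_lit 10698752) (nat_lit 10534912)))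
  false (nat_lit 0)
def b1_7 : Bx := Bx.mk (St.mk (I.pos (nat_lit 62488576) (nat_lit 91488256)) (I.mix (nat_lit 12353536) (nat_lit 14761984)) (I.neg (nat_lit 6930432) (nat_lit 25034752)) (I.pos (nat_lit 105676800) (nat_lit 124207104)) (I.mix (nat_lit 53706752) (nat_lit 34635776)) (I.mix (nat_lit 32915456) (nat_lit 30081024)) (I.mix (nat_lit 21102592) (nat_lit 20185088)))
  false (nat_lit 0)
def b1_8 : Bx := Bx.mk (St.mk (I.pos (nat_lit 200507392) (nat_lit 252379136)) (I.mix (nat_lit 16744448) (nat_lit 14893056)) (I.neg (nat_lit 18907136) (nat_lit 76496896)) (I.pos (nat_lit 269369344) (nat_lit 356794368)) (I.mix (nat_lit 131645440) (nat_lit 29097984)) (I.mix (nat_lit 64929792) (nat_lit 65830912)) (I.mix (nat_lit 104546304) (nat_lit 126074880)))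
  false (nat_lit 0)
def b1_9 : Bx := Bx.mk (St.mk (I.pos (nat_lit 83886080) (nat_lit 154451968)) (I.neg (nat_lit 5488640) (nat_lit 53444608)) (I.neg (nat_lit 15040512) (nat_lit 56655872)) (I.pos (nat_lit 124829696) (nat_lit 186695680)) (I.mix (nat_lit 90652672) (nat_lit 57802752)) (I.mix (nat_lit 42172416) (nat_lit 67059712)) (I.mix (nat_lit 31490048) (nat_lit 61046784)))
  false (nat_lit 0)
def b1_10 : Bx := Bx.mk (St.mk (I.mix (nat_lit 23937024) (nat_lit 46612480)) (I.mix (nat_lit 31817728) (nat_lit 2146304)) (I.neg (nat_lit 4243456) (nat_lit 17727488)) (I.pos (nat_lit 86114304) (nat_lit 100106240)) (I.mix (nat_lit 40828928) (nat_lit 36995072)) (I.mix (nat_lit 22134784) (nat_lit 35012608)) (I.mix (nat_lit 10813440) (nat_lit 13795328)))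
  false (nat_lit 0)
def b1_11 : Bx := Bx.mk (St.mk (I.pos (nat_lit 148881408) (nat_lit 202686464)) (I.mix (nat_lit 4767744) (nat_lit 55361536)) (I.pos (nat_lit 3031040) (nat_lit 69353472)) (I.pos (nat_lit 193249280) (nat_lit 264880128)) (I.mix (nat_lit 132530176) (nat_lit 44335104)) (I.mix (nat_lit 114622464) (nat_lit 65634304)) (I.mix (nat_lit 108871680) (nat_lit 63045632)))
  false (nat_lit 0)
def b1_12 : Bx := Bx.mk (St.mk (I.mix (nat_lit 47824896) (nat_lit 65536000)) (I.mix (nat_lit 4620288) (nat_lit 31817728)) (I.mix (nat_lit 17727488) (nat_lit 2146304)) (I.pos (nat_lit 86114304) (nat_lit 109199360)) (I.mix (nat_lit 36995072) (nat_lit 40828928)) (I.mix (nat_lit 35012608) (nat_lit 22134784)) (I.mix (nat_lit 10813440) (nat_lit 13795328)))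
  false (nat_lit 0)
def b1_13 : Bx := Bx.mk (St.mk (I.pos (nat_lit 152453120) (nat_lit 188186624)) (I.mix (nat_lit 35962880) (nat_lit 1916928)) (I.mix (nat_lit 41074688) (nat_lit 507904)) (I.pos (nat_lit 191823872) (nat_lit 229933056)) (I.mix (nat_lit 75759616) (nat_lit 77774848)) (I.mix (nat_lit 73023488) (nat_lit 67141632)) (I.mix (nat_lit 73023488) (nat_lit 60407808)))
  false (nat_lit 0)
def b1_14 : Bx := Bx.mk (St.mk (I.pos (nat_lit 130859008) (nat_lit 153157632)) (I.neg (nat_lit 15286272) (nat_lit 36225024)) (I.neg (nat_lit 19546112) (nat_lit 41697280)) (I.pos (nat_lit 163840000) (nat_lit 185466880)) (I.mix (nat_lit 43302912) (nat_lit 23707648)) (I.mix (nat_lit 17727488) (nat_lit 24428544)) (I.mix (nat_lit 18759680) (nat_lit 25346048)))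
  false (nat_lit 0)
def b1_15 : Bx := Bx.mk (St.mk (I.mix (nat_lit 52084736) (nat_lit 47366144)) (I.mix (nat_lit 10698752) (nat_lit 5144576)) (I.neg (nat_lit 2785280) (nat_lit 9814016)) (I.pos (nat_lit 90374144) (nat_lit 101777408)) (I.mix (nat_lit 15433728) (nat_lit 20692992)) (I.mix (nat_lit 11567104) (nat_lit 12746752)) (I.mix (nat_lit 4718592) (nat_lit 4030464)))
  false (nat_lit 0)
def b1_16 : Bx := Bx.mk (St.mk (I.pos (nat_lit 148324352) (nat_lit 189759488)) (I.mix (nat_lit 13221888) (nat_lit 21889024)) (I.mix (nat_lit 12992512) (nat_lit 30457856)) (I.pos (nat_lit 190562304) (nat_lit 234094592)) (I.mix (nat_lit 122372096) (nat_lit 70877184)) (I.mix (nat_lit 119652352) (nat_lit 65208320)) (I.mix (nat_lit 118390784) (nat_lit 63619072)))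
  false (nat_lit 0)
def b1_17 : Bx := Bx.mk (St.mk (I.pos (nat_lit 134004736) (nat_lit 154124288)) (I.neg (nat_lit 7290880) (nat_lit 26411008)) (I.neg (nat_lit 9601024) (nat_lit 29818880)) (I.pos (nat_lit 166920192) (nat_lit 186744832)) (I.mix (nat_lit 54984704) (nat_lit 16646144)) (I.mix (nat_lit 26542080) (nat_lit 23592960)) (I.mix (nat_lit 28590080) (nat_lit 24821760)))
  false (nat_lit 0)
def b1_18 : Bx := Bx.mk (St.mk (I.pos (nat_lit 159825920) (nat_lit 180469760)) (I.mix (nat_lit 17416192) (nat_lit 1474560)) (I.mix (nat_lit 18415616) (nat_lit 2555904)) (I.pos (nat_lit 201031680) (nat_lit 221659136)) (I.mix (nat_lit 54624256) (nat_lit 35864576)) (I.mix (nat_lit 44302336) (nat_lit 38354944)) (I.mix (nat_lit 44351488) (nat_lit 38567936)))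
  false (nat_lit 0)
def b1_19 : Bx := Bx.mk (St.mk (I.pos (nat_lit 134479872) (nat_lit 162709504)) (I.mix (nat_lit 26951680) (nat_lit 409600)) (I.neg (nat_lit 1687552) (nat_lit 30572544)) (I.pos (nat_lit 169558016) (nat_lit 197525504)) (I.mix (nat_lit 59031552) (nat_lit 25903104)) (I.mix (nat_lit 29818880) (nat_lit 33275904)) (I.mix (nat_lit 29999104) (nat_lit 31965184)))
  false (nat_lit 0)
def b1_20 : Bx := Bx.mk (St.mk (I.pos (nat_lit 147046400) (nat_lit 177602560)) (I.neg (nat_lit 1015808) (nat_lit 34275328)) (I.neg (nat_lit 3129344) (nat_lit 40419328)) (I.pos (nat_lit 183222272) (nat_lit 216121344)) (I.mix (nat_lit 65748992) (nat_lit 47595520)) (I.mix (nat_lit 50135040) (nat_lit 46940160)) (I.mix (nat_lit 52707328) (nat_lit 43106304)))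
  false (nat_lit 0)
def b1_21 : Bx := Bx.mk (St.mk (I.pos (nat_lit 198934528) (nat_lit 220839936)) (I.pos (nat_lit 11190272) (nat_lit 26296320)) (I.mix (nat_lit 9797632) (nat_lit 6635520)) (I.pos (nat_lit 271056896) (nat_lit 290635776)) (I.neg (nat_lit 11796480) (nat_lit 57212928)) (I.mix (nat_lit 17121280) (nat_lit 11223040)) (I.mix (nat_lit 22773760) (nat_lit 22183936)))
  false (nat_lit 0)
def t1 : BTr := (BTr.n (BTr.n (BTr.n (BTr.n (BTr.b b1_0) (BTr.b b1_1)) (BTr.n (BTr.b b1_2) (BTr.n (BTr.b b1_3) (BTr.b b1_4)))) (BTr.n (BTr.n (BTr.b b1_5) (BTr.n (BTr.b b1_6) (BTr.b b1_7))) (BTr.n (BTr.b b1_8) (BTr.n (BTr.b b1_9) (BTr.b b1_10))))) (BTr.n (BTr.n (BTr.n (BTr.b b1_11) (BTr.b b1_12)) (BTr.n (BTr.b b1_13) (BTr.n (BTr.b b1_14) (BTr.b b1_15)))) (BTr.n (BTr.n (BTr.b b1_16) (BTr.n (BTr.b b1_17) (BTr.b b1_18))) (BTr.n (BTr.b b1_19) (BTr.n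 (BTr.b b1_20) (BTr.b b1_21))))))
namespace T1
def l0 : Tr := Tr.L (Pth.l (Pth.l (Pth.l (Pth.l Pth.z))))
def l1 : Tr := Tr.L (Pth.l (Pth.l (Pth.l (Pth.r Pth.z))))
def l2 : Tr := Tr.L (Pth.l (Pth.l (Pth.r (Pth.l Pth.z))))
def l3 : Tr := Tr.L (Pth.l (Pth.l (Pth.r (Pth.r (Pth.l Pth.z)))))
def l4 : Tr := Tr.L (Pth.l (Pth.l (Pth.r (Pth.r (Pth.r Pth.z)))))
def l5 : Tr := Tr.L (Pth.l (Pth.r (Pth.l (Pth.l Pth.z))))
def l6 : Tr := Tr.L (Pth.l (Pth.r (Pth.l (Pth.r (Pth.l Pth.z)))))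
def l7 : Tr := Tr.L (Pth.l (Pth.r (Pth.l (Pth.r (Pth.r Pth.z)))))
def l8 : Tr := Tr.L (Pth.l (Pth.r (Pth.r (Pth.l Pth.z))))
def l9 : Tr := Tr.L (Pth.l (Pth.r (Pth.r (Pth.r (Pth.l Pth.z)))))
def l10 : Tr := Tr.L (Pth.l (Pth.r (Pth.r (Pth.r (Pth.r Pth.z)))))
def l11 : Tr := Tr.L (Pth.r (Pth.l (Pth.l (Pth.l Pth.z))))
def l12 : Tr := Tr.L (Pth.r (Pth.l (Pth.l (Pth.r Pth.z))))
def l13 : Tr := Tr.L (Pth.r (Pth.l (Pth.r (Pth.l Pth.z))))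
def l14 : Tr := Tr.L (Pth.r (Pth.l (Pth.r (Pth.r (Pth.l Pth.z)))))
def l15 : Tr := Tr.L (Pth.r (Pth.l (Pth.r (Pth.r (Pth.r Pth.z)))))
def l16 : Tr := Tr.L (Pth.r (Pth.r (Pth.l (Pth.l Pth.z))))
def l17 : Tr := Tr.L (Pth.r (Pth.r (Pth.l (Pth.r (Pth.l Pth.z)))))
def l18 : Tr := Tr.L (Pth.r (Pth.r (Pth.l (Pth.r (Pth.r Pth.z)))))
def l19 : Tr := Tr.L (Pth.r (Pth.r (Pth.r (Pth.l Pth.z))))
def l20 : Tr := Tr.L (Pth.r (Pth.r (Pth.r (Pth.r (Pth.l Pth.z)))))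
def l21 : Tr := Tr.L (Pth.r (Pth.r (Pth.r (Pth.r (Pth.r Pth.z)))))
end T1
def b2_0 : Bx := Bx.mk (St.mk (I.pos (nat_lit 134430720) (nat_lit 217563136)) (I.mix (nat_lit 2883584) (nat_lit 93831168)) (I.mix (nat_lit 2670592) (nat_lit 85377024)) (I.pos (nat_lit 381272064) (nat_lit 479690752)) (I.mix (nat_lit 198508544) (nat_lit 111886336)) (I.mix (nat_lit 104628224) (nat_lit 102400000)) (I.mix (nat_lit 140279808) (nat_lit 151191552)))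
  false (nat_lit 41034614)
def b2_1 : Bx := Bx.mk (St.mk (I.mix (nat_lit 54083584) (nat_lit 14499840)) (I.mix (nat_lit 9371648) (nat_lit 85622784)) (I.neg (nat_lit 50561024) (nat_lit 75284480)) (I.pos (nat_lit 265764864) (nat_lit 298450944)) (I.mix (nat_lit 63913984) (nat_lit 149274624)) (I.mix (nat_lit 102350848) (nat_lit 88801280)) (I.mix (nat_lit 63307776) (nat_lit 45629440)))
  true (nat_lit 0)
def b2_2 : Bx := Bx.mk (St.mk (I.pos (nat_lit 1048576) (nat_lit 54083584)) (I.neg (nat_lit 29081600) (nat_lit 85622784)) (I.neg (nat_lit 51445760) (nat_lit 75284480)) (I.pos (nat_lit 270073856) (nat_lit 298336256)) (I.mix (nat_lit 149274624) (nat_lit 63913984)) (I.mix (nat_lit 88801280) (nat_lit 102350848)) (I.mix (nat_lit 63307776) (nat_lit 45629440)))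
  false (nat_lit 41672206)
def b2_3 : Bx := Bx.mk (St.mk (I.pos (nat_lit 11616256) (nat_lit 124436480)) (I.neg (nat_lit 4472832) (nat_lit 85950464)) (I.neg (nat_lit 8142848) (nat_lit 79003648)) (I.pos (nat_lit 271302656) (nat_lit 339673088)) (I.mix (nat_lit 147881984) (nat_lit 83656704)) (I.mix (nat_lit 84738048) (nat_lit 84918272)) (I.mix (nat_lit 98369536) (nat_lit 75169792)))
  false (nat_lit 45883046)
def b2_4 : Bx := Bx.mk (St.mk (I.pos (nat_lit 85426176) (nat_lit 185581568)) (I.mix (nat_lit 41287680) (nat_lit 76759040)) (I.mix (nat_lit 39469056) (nat_lit 80297984)) (I.pos (nat_lit 305037312) (nat_lit 439992320)) (I.mix (nat_lit 196476928) (nat_lit 83329024)) (I.mix (nat_lit 146178048) (nat_lit 119472128)) (I.mix (nat_lit 154468352) (nat_lit 156385280)))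
  false (nat_lit 20477643)
def b2_5 : Bx := Bx.mk (St.mk (I.neg (nat_lit 11599872) (nat_lit 129253376)) (I.pos (nat_lit 507904) (nat_lit 85950464)) (I.neg (nat_lit 3293184) (nat_lit 79003648)) (I.pos (nat_lit 271302656) (nat_lit 344358912)) (I.mix (nat_lit 83722240) (nat_lit 147898368)) (I.mix (nat_lit 84934656) (nat_lit 84738048)) (I.mix (nat_lit 98369536) (nat_lit 75186176)))
  true (nat_lit 0)
def b2_6 : Bx := Bx.mk (St.mk (I.pos (nat_lit 214319104) (nat_lit 263831552)) (I.pos (nat_lit 770048) (nat_lit 52117504)) (I.neg (nat_lit 16236544) (nat_lit 96321536)) (I.pos (nat_lit 472449024) (nat_lit 554876928)) (I.mix (nat_lit 114360320) (nat_lit 88260608)) (I.mix (nat_lit 78626816) (nat_lit 78823424)) (I.mix (nat_lit 137838592) (nat_lit 141852672)))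
  false (nat_lit 0)
def b2_7 : Bx := Bx.mk (St.mk (I.mix (nat_lit 9846784) (nat_lit 15220736)) (I.neg (nat_lit 442368) (nat_lit 27852800)) (I.neg (nat_lit 53182464) (nat_lit 58523648)) (I.pos (nat_lit 266452992) (nat_lit 274464768)) (I.mix (nat_lit 57966592) (nat_lit 40894464)) (I.mix (nat_lit 37191680) (nat_lit 36929536)) (I.mix (nat_lit 7323648) (nat_lit 10174464)))
  false (nat_lit 0)
def b2_8 : Bx := Bx.mk (St.mk (I.pos (nat_lit 190349312) (nat_lit 242499584)) (I.mix (nat_lit 5947392) (nat_lit 41566208)) (I.neg (nat_lit 20742144) (nat_lit 93569024)) (I.pos (nat_lit 429309952) (nat_lit 508821504)) (I.mix (nat_lit 121552896) (nat_lit 103563264)) (I.mix (nat_lit 89194496) (nat_lit 79462400)) (I.mix (nat_lit 150241280) (nat_lit 137871360)))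
  false (nat_lit 0)
def b2_9 : Bx := Bx.mk (St.mk (I.pos (nat_lit 2228224) (nat_lit 30818304)) (I.mix (nat_lit 29212672) (nat_lit 2768896)) (I.neg (nat_lit 51036160) (nat_lit 58114048)) (I.pos (nat_lit 267010048) (nat_lit 276561920)) (I.mix (nat_lit 69828608) (nat_lit 54951936)) (I.mix (nat_lit 45203456) (nat_lit 48955392)) (I.mix (nat_lit 11026432) (nat_lit 15613952)))
  false (nat_lit 0)
def b2_10 : Bx := Bx.mk (St.mk (I.pos (nat_lit 168591360) (nat_lit 225067008)) (I.pos (nat_lit 3358720) (nat_lit 51888128)) (I.mix (nat_lit 70664192) (nat_lit 4407296)) (I.pos (nat_lit 406323200) (nat_lit 474333184)) (I.mix (nat_lit 112640000) (nat_lit 67813376)) (I.mix (nat_lit 69484544) (nat_lit 59850752)) (I.mix (nat_lit 99123200) (nat_lit 99041280)))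
  false (nat_lit 0)
def b2_11 : Bx := Bx.mk (St.mk (I.pos (nat_lit 7487488) (nat_lit 42762240)) (I.mix (nat_lit 42188800) (nat_lit 262144)) (I.neg (nat_lit 50954240) (nat_lit 61030400)) (I.pos (nat_lit 266977280) (nat_lit 282116096)) (I.mix (nat_lit 60227584) (nat_lit 53100544)) (I.mix (nat_lit 42500096) (nat_lit 45203456)) (I.mix (nat_lit 17170432) (nat_lit 18038784)))
  false (nat_lit 0)
def b2_12 : Bx := Bx.mk (St.mk (I.pos (nat_lit 213237760) (nat_lit 246038528)) (I.pos (nat_lit 2359296) (nat_lit 33439744)) (I.neg (nat_lit 41795584) (nat_lit 88883200)) (I.pos (nat_lit 466944000) (nat_lit 513310720)) (I.mix (nat_lit 82968576) (nat_lit 50053120)) (I.mix (nat_lit 60342272) (nat_lit 47693824)) (I.mix (nat_lit 93257728) (nat_lit 83804160)))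
  false (nat_lit 0)
def b2_13 : Bx := Bx.mk (St.mk (I.mix (nat_lit 2310144) (nat_lit 15761408)) (I.neg (nat_lit 2588672) (nat_lit 22331392)) (I.neg (nat_lit 53067776) (nat_lit 57720832)) (I.pos (nat_lit 266715136) (nat_lit 273973248)) (I.mix (nat_lit 41680896) (nat_lit 26574848)) (I.mix (nat_lit 22347776) (nat_lit 29507584)) (I.mix (nat_lit 4177920) (nat_lit 7979008)))
  false (nat_lit 0)
def b2_14 : Bx := Bx.mk (St.mk (I.mix (nat_lit 10207232) (nat_lit 13189120)) (I.mix (nat_lit 7110656) (nat_lit 17793024)) (I.neg (nat_lit 54722560) (nat_lit 58015744)) (I.pos (nat_lit 266452992) (nat_lit 272891904)) (I.mix (nat_lit 15958016) (nat_lit 33882112)) (I.mix (nat_lit 19447808) (nat_lit 12271616)) (I.mix (nat_lit 2441216) (nat_lit 3735552)))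
  true (nat_lit 0)
def b2_15 : Bx := Bx.mk (St.mk (I.pos (nat_lit 160595968) (nat_lit 214335488)) (I.pos (nat_lit 20742144) (nat_lit 85245952)) (I.mix (nat_lit 30670848) (nat_lit 60030976)) (I.pos (nat_lit 411385856) (nat_lit 475168768)) (I.mix (nat_lit 135626752) (nat_lit 95141888)) (I.mix (nat_lit 97288192) (nat_lit 73728000)) (I.mix (nat_lit 155648000) (nat_lit 102334464)))
  false (nat_lit 1549164)
def b2_16 : Bx := Bx.mk (St.mk (I.pos (nat_lit 5439488) (nat_lit 40550400)) (I.neg (nat_lit 17874944) (nat_lit 65208320)) (I.neg (nat_lit 53510144) (nat_lit 70057984)) (I.pos (nat_lit 269434880) (nat_lit 286474240)) (I.mix (nat_lit 95911936) (nat_lit 55050240)) (I.mix (nat_lit 50659328) (nat_lit 78479360)) (I.mix (nat_lit 28803072) (nat_lit 25477120)))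
  false (nat_lit 0)
def b2_17 : Bx := Bx.mk (St.mk (I.pos (nat_lit 224428032) (nat_lit 271990784)) (I.mix (nat_lit 11829248) (nat_lit 37306368)) (I.neg (nat_lit 44908544) (nat_lit 135757824)) (I.pos (nat_lit 481378304) (nat_lit 570834944)) (I.mix (nat_lit 91537408) (nat_lit 71122944)) (I.mix (nat_lit 67616768) (nat_lit 53886976)) (I.mix (nat_lit 125042688) (nat_lit 103432192)))
  false (nat_lit 0)
def b2_18 : Bx := Bx.mk (St.mk (I.mix (nat_lit 13254656) (nat_lit 11255808)) (I.mix (nat_lit 18366464) (nat_lit 8044544)) (I.neg (nat_lit 54722560) (nat_lit 58015744)) (I.pos (nat_lit 266452992) (nat_lit 272891904)) (I.mix (nat_lit 41304064) (nat_lit 29523968)) (I.mix (nat_lit 20856832) (nat_lit 26705920)) (I.mix (nat_lit 2752512) (nat_lit 4161536)))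
  false (nat_lit 0)
def t2 : BTr := (BTr.n (BTr.n (BTr.n (BTr.n (BTr.b b2_0) (BTr.b b2_1)) (BTr.n (BTr.b b2_2) (BTr.b b2_3))) (BTr.n (BTr.n (BTr.b b2_4) (BTr.b b2_5)) (BTr.n (BTr.b b2_6) (BTr.n (BTr.b b2_7) (BTr.b b2_8))))) (BTr.n (BTr.n (BTr.n (BTr.b b2_9) (BTr.b b2_10)) (BTr.n (BTr.b b2_11) (BTr.n (BTr.b b2_12) (BTr.b b2_13)))) (BTr.n (BTr.n (BTr.b b2_14) (BTr.b b2_15)) (BTr.n (BTr.b b2_16) (BTr.n (BTr.b b2_17) (BTr.b b2_18))))))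
namespace T2
def l0 : Tr := Tr.L (Pth.l (Pth.l (Pth.l (Pth.l Pth.z))))
def l1 : Tr := Tr.L (Pth.l (Pth.l (Pth.l (Pth.r Pth.z))))
def l2 : Tr := Tr.L (Pth.l (Pth.l (Pth.r (Pth.l Pth.z))))
def l3 : Tr := Tr.L (Pth.l (Pth.l (Pth.r (Pth.r Pth.z))))
def l4 : Tr := Tr.L (Pth.l (Pth.r (Pth.l (Pth.l Pth.z))))
def l5 : Tr := Tr.L (Pth.l (Pth.r (Pth.l (Pth.r Pth.z))))
def l6 : Tr := Tr.L (Pth.l (Pth.r (Pth.r (Pth.l Pth.z))))
def l7 : Tr := Tr.L (Pth.l (Pth.r (Pth.r (Pth.r (Pth.l Pth.z)))))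
def l8 : Tr := Tr.L (Pth.l (Pth.r (Pth.r (Pth.r (Pth.r Pth.z)))))
def l9 : Tr := Tr.L (Pth.r (Pth.l (Pth.l (Pth.l Pth.z))))
def l10 : Tr := Tr.L (Pth.r (Pth.l (Pth.l (Pth.r Pth.z))))
def l11 : Tr := Tr.L (Pth.r (Pth.l (Pth.r (Pth.l Pth.z))))
def l12 : Tr := Tr.L (Pth.r (Pth.l (Pth.r (Pth.r (Pth.l Pth.z)))))
def l13 : Tr := Tr.L (Pth.r (Pth.l (Pth.r (Pth.r (Pth.r Pth.z)))))
def l14 : Tr := Tr.L (Pth.r (Pth.r (Pth.l (Pth.l Pth.z))))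
def l15 : Tr := Tr.L (Pth.r (Pth.r (Pth.l (Pth.r Pth.z))))
def l16 : Tr := Tr.L (Pth.r (Pth.r (Pth.r (Pth.l Pth.z))))
def l17 : Tr := Tr.L (Pth.r (Pth.r (Pth.r (Pth.r (Pth.l Pth.z)))))
def l18 : Tr := Tr.L (Pth.r (Pth.r (Pth.r (Pth.r (Pth.r Pth.z)))))
end T2
def b3_0 : Bx := Bx.mk (St.mk (I.pos (nat_lit 158892032) (nat_lit 216924160)) (I.mix (nat_lit 1720320) (nat_lit 53444608)) (I.mix (nat_lit 2981888) (nat_lit 98189312)) (I.pos (nat_lit 190840832) (nat_lit 283869184)) (I.mix (nat_lit 126353408) (nat_lit 64454656)) (I.mix (nat_lit 80084992) (nat_lit 62455808)) (I.mix (nat_lit 108298240) (nat_lit 75939840)))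
  false (nat_lit 0)
def b3_1 : Bx := Bx.mk (St.mk (I.pos (nat_lit 88784896) (nat_lit 155189248)) (I.neg (nat_lit 6750208) (nat_lit 60162048)) (I.mix (nat_lit 43319296) (nat_lit 10321920)) (I.pos (nat_lit 130973696) (nat_lit 185958400)) (I.mix (nat_lit 88080384) (nat_lit 73580544)) (I.mix (nat_lit 54525952) (nat_lit 66846720)) (I.mix (nat_lit 46678016) (nat_lit 62963712)))
  false (nat_lit 0)
def b3_2 : Bx := Bx.mk (St.mk (I.mix (nat_lit 27017216) (nat_lit 42287104)) (I.mix (nat_lit 31916032) (nat_lit 4784128)) (I.mix (nat_lit 3883008) (nat_lit 8552448)) (I.pos (nat_lit 87523328) (nat_lit 100532224)) (I.mix (nat_lit 37224448) (nat_lit 48005120)) (I.mix (nat_lit 25296896) (nat_lit 35749888)) (I.mix (nat_lit 8110080) (nat_lit 14401536)))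
  false (nat_lit 0)
def b3_3 : Bx := Bx.mk (St.mk (I.pos (nat_lit 139804672) (nat_lit 196755456)) (I.mix (nat_lit 8110080) (nat_lit 49692672)) (I.pos (nat_lit 25133056) (nat_lit 90636288)) (I.pos (nat_lit 174260224) (nat_lit 242892800)) (I.mix (nat_lit 154828800) (nat_lit 48070656)) (I.mix (nat_lit 136380416) (nat_lit 65224704)) (I.mix (nat_lit 133709824) (nat_lit 56115200)))
  false (nat_lit 0)
def b3_4 : Bx := Bx.mk (St.mk (I.mix (nat_lit 43532288) (nat_lit 69746688)) (I.mix (nat_lit 10403840) (nat_lit 33275904)) (I.mix (nat_lit 4210688) (nat_lit 19890176)) (I.pos (nat_lit 87523328) (nat_lit 111640576)) (I.mix (nat_lit 62062592) (nat_lit 37519360)) (I.mix (nat_lit 45006848) (nat_lit 25296896)) (I.mix (nat_lit 16744448) (nat_lit 14401536)))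
  false (nat_lit 0)
def b3_5 : Bx := Bx.mk (St.mk (I.pos (nat_lit 144785408) (nat_lit 187498496)) (I.neg (nat_lit 1409024) (nat_lit 40239104)) (I.mix (nat_lit 17448960) (nat_lit 26705920)) (I.pos (nat_lit 183205888) (nat_lit 223248384)) (I.mix (nat_lit 81149952) (nat_lit 89489408)) (I.mix (nat_lit 81084416) (nat_lit 67764224)) (I.mix (nat_lit 74383360) (nat_lit 66060288)))
  false (nat_lit 0)
def b3_6 : Bx := Bx.mk (St.mk (I.mix (nat_lit 61800448) (nat_lit 47300608)) (I.mix (nat_lit 12337152) (nat_lit 12386304)) (I.pos (nat_lit 2523136) (nat_lit 10747904)) (I.pos (nat_lit 88932352) (nat_lit 105627648)) (I.mix (nat_lit 37470208) (nat_lit 26492928)) (I.mix (nat_lit 22888448) (nat_lit 25952256)) (I.mix (nat_lit 9928704) (nat_lit 9289728)))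
  false (nat_lit 0)
def b3_7 : Bx := Bx.mk (St.mk (I.pos (nat_lit 121896960) (nat_lit 154812416)) (I.neg (nat_lit 3620864) (nat_lit 32718848)) (I.mix (nat_lit 12615680) (nat_lit 16613376)) (I.pos (nat_lit 154435584) (nat_lit 185384960)) (I.mix (nat_lit 70746112) (nat_lit 34799616)) (I.mix (nat_lit 32276480) (nat_lit 48234496)) (I.mix (nat_lit 34865152) (nat_lit 43794432)))
  false (nat_lit 0)
def b3_8 : Bx := Bx.mk (St.mk (I.pos (nat_lit 139264000) (nat_lit 171589632)) (I.neg (nat_lit 14893056) (nat_lit 38780928)) (I.mix (nat_lit 18219008) (nat_lit 7192576)) (I.pos (nat_lit 172441600) (nat_lit 206831616)) (I.mix (nat_lit 65994752) (nat_lit 58900480)) (I.mix (nat_lit 59588608) (nat_lit 43778048)) (I.mix (nat_lit 62078976) (nat_lit 41877504)))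
  false (nat_lit 0)
def b3_9 : Bx := Bx.mk (St.mk (I.mix (nat_lit 23773184) (nat_lit 95780864)) (I.mix (nat_lit 3178496) (nat_lit 32129024)) (I.mix (nat_lit 2834432) (nat_lit 21381120)) (I.pos (nat_lit 86835200) (nat_lit 126009344)) (I.mix (nat_lit 49610752) (nat_lit 46366720)) (I.mix (nat_lit 43597824) (nat_lit 27852800)) (I.mix (nat_lit 29081600) (nat_lit 18284544)))
  false (nat_lit 0)
def b3_10 : Bx := Bx.mk (St.mk (I.pos (nat_lit 79970304) (nat_lit 121667584)) (I.mix (nat_lit 58228736) (nat_lit 4276224)) (I.mix (nat_lit 41123840) (nat_lit 2277376)) (I.pos (nat_lit 116310016) (nat_lit 151945216)) (I.mix (nat_lit 86540288) (nat_lit 45350912)) (I.mix (nat_lit 37093376) (nat_lit 69140480)) (I.mix (nat_lit 28213248) (nat_lit 44908544)))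
  false (nat_lit 0)
def b3_11 : Bx := Bx.mk (St.mk (I.mix (nat_lit 46891008) (nat_lit 22052864)) (I.mix (nat_lit 31113216) (nat_lit 2310144)) (I.mix (nat_lit 2539520) (nat_lit 9879552)) (I.pos (nat_lit 86802432) (nat_lit 99958784)) (I.mix (nat_lit 36945920) (nat_lit 34750464)) (I.mix (nat_lit 21823488) (nat_lit 33357824)) (I.mix (nat_lit 12959744) (nat_lit 8962048)))
  false (nat_lit 0)
def b3_12 : Bx := Bx.mk (St.mk (I.pos (nat_lit 183091200) (nat_lit 230850560)) (I.mix (nat_lit 6488064) (nat_lit 27525120)) (I.mix (nat_lit 4112384) (nat_lit 52969472)) (I.pos (nat_lit 240484352) (nat_lit 301023232)) (I.mix (nat_lit 112050176) (nat_lit 43892736)) (I.mix (nat_lit 64880640) (nat_lit 54165504)) (I.mix (nat_lit 103546880) (nat_lit 90865664)))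
  false (nat_lit 0)
def b3_13 : Bx := Bx.mk (St.mk (I.pos (nat_lit 81313792) (nat_lit 92323840)) (I.mix (nat_lit 2064384) (nat_lit 9322496)) (I.mix (nat_lit 2326528) (nat_lit 5259264)) (I.pos (nat_lit 117456896) (nat_lit 124846080)) (I.mix (nat_lit 14417920) (nat_lit 16646144)) (I.mix (nat_lit 10895360) (nat_lit 8159232)) (I.mix (nat_lit 7847936) (nat_lit 5079040)))
  false (nat_lit 0)
def b3_14 : Bx := Bx.mk (St.mk (I.mix (nat_lit 50593792) (nat_lit 4571136)) (I.mix (nat_lit 2162688) (nat_lit 11878400)) (I.mix (nat_lit 4653056) (nat_lit 212992)) (I.pos (nat_lit 90439680) (nat_lit 101449728)) (I.mix (nat_lit 13680640) (nat_lit 20594688)) (I.mix (nat_lit 12845056) (nat_lit 10665984)) (I.mix (nat_lit 4161536) (nat_lit 4259840)))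
  false (nat_lit 0)
def b3_15 : Bx := Bx.mk (St.mk (I.pos (nat_lit 173490176) (nat_lit 220971008)) (I.pos (nat_lit 10715136) (nat_lit 52166656)) (I.pos (nat_lit 27738112) (nat_lit 93077504)) (I.pos (nat_lit 228343808) (nat_lit 286162944)) (I.mix (nat_lit 116637696) (nat_lit 93945856)) (I.mix (nat_lit 98779136) (nat_lit 71467008)) (I.mix (nat_lit 158613504) (nat_lit 92897280)))
  false (nat_lit 0)
def b3_16 : Bx := Bx.mk (St.mk (I.pos (nat_lit 228474880) (nat_lit 262193152)) (I.mix (nat_lit 4014080) (nat_lit 29343744)) (I.mix (nat_lit 9158656) (nat_lit 52412416)) (I.pos (nat_lit 316571648) (nat_lit 373276672)) (I.mix (nat_lit 73121792) (nat_lit 56655872)) (I.mix (nat_lit 55197696) (nat_lit 45793280)) (I.mix (nat_lit 103088128) (nat_lit 82280448)))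
  false (nat_lit 0)
def b3_17 : Bx := Bx.mk (St.mk (I.pos (nat_lit 211582976) (nat_lit 258637824)) (I.mix (nat_lit 3424256) (nat_lit 35307520)) (I.mix (nat_lit 3342336) (nat_lit 68173824)) (I.pos (nat_lit 288161792) (nat_lit 364265472)) (I.mix (nat_lit 82984960) (nat_lit 50806784)) (I.mix (nat_lit 56672256) (nat_lit 52199424)) (I.mix (nat_lit 93503488) (nat_lit 92995584)))
  false (nat_lit 0)
def b3_18 : Bx := Bx.mk (St.mk (I.pos (nat_lit 199720960) (nat_lit 240943104)) (I.mix (nat_lit 9879552) (nat_lit 27607040)) (I.mix (nat_lit 11386880) (nat_lit 54607872)) (I.pos (nat_lit 268140544) (nat_lit 322387968)) (I.mix (nat_lit 94830592) (nat_lit 52740096)) (I.mix (nat_lit 60555264) (nat_lit 48562176)) (I.mix (nat_lit 99287040) (nat_lit 85458944)))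
  false (nat_lit 0)
def b3_19 : Bx := Bx.mk (St.mk (I.pos (nat_lit 141492224) (nat_lit 183992320)) (I.mix (nat_lit 21200896) (nat_lit 21495808)) (I.pos (nat_lit 10092544) (nat_lit 56836096)) (I.pos (nat_lit 174309376) (nat_lit 221003776)) (I.mix (nat_lit 144539648) (nat_lit 77250560)) (I.mix (nat_lit 128974848) (nat_lit 69697536)) (I.mix (nat_lit 125009920) (nat_lit 63242240)))
  false (nat_lit 0)
def b3_20 : Bx := Bx.mk (St.mk (I.pos (nat_lit 185090048) (nat_lit 219791360)) (I.pos (nat_lit 10371072) (nat_lit 28999680)) (I.pos (nat_lit 26673152) (nat_lit 55541760)) (I.pos (nat_lit 244940800) (nat_lit 281444352)) (I.mix (nat_lit 90177536) (nat_lit 27770880)) (I.mix (nat_lit 47693824) (nat_lit 32423936)) (I.mix (nat_lit 76873728) (nat_lit 52756480)))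
  false (nat_lit 0)
def b3_21 : Bx := Bx.mk (St.mk (I.pos (nat_lit 159727616) (nat_lit 174899200)) (I.neg (nat_lit 5324800) (nat_lit 17989632)) (I.pos (nat_lit 8945664) (nat_lit 22904832)) (I.pos (nat_lit 196100096) (nat_lit 210763776)) (I.mix (nat_lit 19562496) (nat_lit 17383424)) (I.mix (nat_lit 13123584) (nat_lit 11354112)) (I.mix (nat_lit 10371072) (nat_lit 13615104)))
  false (nat_lit 0)
def t3 : BTr := (BTr.n (BTr.n (BTr.n (BTr.n (BTr.b b3_0) (BTr.b b3_1)) (BTr.n (BTr.b b3_2) (BTr.n (BTr.b b3_3) (BTr.b b3_4)))) (BTr.n (BTr.n (BTr.b b3_5) (BTr.n (BTr.b b3_6) (BTr.b b3_7))) (BTr.n (BTr.b b3_8) (BTr.n (BTr.b b3_9) (BTr.b b3_10))))) (BTr.n (BTr.n (BTr.n (BTr.b b3_11) (BTr.b b3_12)) (BTr.n (BTr.b b3_13) (BTr.n (BTr.b b3_14) (BTr.b b3_15)))) (BTr.n (BTr.n (BTr.b b3_16) (BTr.n (BTr.b b3_17) (BTr.b b3_18))) (BTr.n (BTr.b b3_19) (BTr.n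 (BTr.b b3_20) (BTr.b b3_21))))))
namespace T3
def l0 : Tr := Tr.L (Pth.l (Pth.l (Pth.l (Pth.l Pth.z))))
def l1 : Tr := Tr.L (Pth.l (Pth.l (Pth.l (Pth.r Pth.z))))
def l2 : Tr := Tr.L (Pth.l (Pth.l (Pth.r (Pth.l Pth.z))))
def l3 : Tr := Tr.L (Pth.l (Pth.l (Pth.r (Pth.r (Pth.l Pth.z)))))
def l4 : Tr := Tr.L (Pth.l (Pth.l (Pth.r (Pth.r (Pth.r Pth.z)))))
def l5 : Tr := Tr.L (Pth.l (Pth.r (Pth.l (Pth.l Pth.z))))
def l6 : Tr := Tr.L (Pth.l (Pth.r (Pth.l (Pth.r (Pth.l Pth.z)))))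
def l7 : Tr := Tr.L (Pth.l (Pth.r (Pth.l (Pth.r (Pth.r Pth.z)))))
def l8 : Tr := Tr.L (Pth.l (Pth.r (Pth.r (Pth.l Pth.z))))
def l9 : Tr := Tr.L (Pth.l (Pth.r (Pth.r (Pth.r (Pth.l Pth.z)))))
def l10 : Tr := Tr.L (Pth.l (Pth.r (Pth.r (Pth.r (Pth.r Pth.z)))))
def l11 : Tr := Tr.L (Pth.r (Pth.l (Pth.l (Pth.l Pth.z))))
def l12 : Tr := Tr.L (Pth.r (Pth.l (Pth.l (Pth.r Pth.z))))
def l13 : Tr := Tr.L (Pth.r (Pth.l (Pth.r (Pth.l Pth.z))))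
def l14 : Tr := Tr.L (Pth.r (Pth.l (Pth.r (Pth.r (Pth.l Pth.z)))))
def l15 : Tr := Tr.L (Pth.r (Pth.l (Pth.r (Pth.r (Pth.r Pth.z)))))
def l16 : Tr := Tr.L (Pth.r (Pth.r (Pth.l (Pth.l Pth.z))))
def l17 : Tr := Tr.L (Pth.r (Pth.r (Pth.l (Pth.r (Pth.l Pth.z)))))
def l18 : Tr := Tr.L (Pth.r (Pth.r (Pth.l (Pth.r (Pth.r Pth.z)))))
def l19 : Tr := Tr.L (Pth.r (Pth.r (Pth.r (Pth.l Pth.z))))
def l20 : Tr := Tr.L (Pth.r (Pth.r (Pth.r (Pth.r (Pth.l Pth.z)))))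
def l21 : Tr := Tr.L (Pth.r (Pth.r (Pth.r (Pth.r (Pth.r Pth.z)))))
end T3
def b4_0 : Bx := Bx.mk (St.mk (I.pos (nat_lit 128958464) (nat_lit 217661440)) (I.mix (nat_lit 2719744) (nat_lit 87130112)) (I.mix (nat_lit 3260416) (nat_lit 106266624)) (I.pos (nat_lit 376455168) (nat_lit 468582400)) (I.mix (nat_lit 203096064) (nat_lit 99598336)) (I.mix (nat_lit 101318656) (nat_lit 92078080)) (I.mix (nat_lit 130383872) (nat_lit 140443648)))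
  false (nat_lit 66584096)
def b4_1 : Bx := Bx.mk (St.mk (I.pos (nat_lit 20496384) (nat_lit 121307136)) (I.neg (nat_lit 13926400) (nat_lit 90505216)) (I.mix (nat_lit 61784064) (nat_lit 7356416)) (I.pos (nat_lit 277626880) (nat_lit 337297408)) (I.mix (nat_lit 141049856) (nat_lit 97042432)) (I.mix (nat_lit 91291648) (nat_lit 83951616)) (I.mix (nat_lit 98369536) (nat_lit 70500352)))
  false (nat_lit 76479000)
def b4_2 : Bx := Bx.mk (St.mk (I.pos (nat_lit 91586560) (nat_lit 178487296)) (I.mix (nat_lit 32391168) (nat_lit 75464704)) (I.mix (nat_lit 8388608) (nat_lit 105218048)) (I.pos (nat_lit 309837824) (nat_lit 422592512)) (I.mix (nat_lit 207880192) (nat_lit 79495168)) (I.mix (nat_lit 152551424) (nat_lit 121503744)) (I.mix (nat_lit 164265984) (nat_lit 159531008)))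
  false (nat_lit 57298659)
def b4_3 : Bx := Bx.mk (St.mk (I.neg (nat_lit 20496384) (nat_lit 121307136)) (I.pos (nat_lit 13926400) (nat_lit 90505216)) (I.mix (nat_lit 61784064) (nat_lit 7356416)) (I.pos (nat_lit 277626880) (nat_lit 337313792)) (I.mix (nat_lit 97058816) (nat_lit 141000704)) (I.mix (nat_lit 83968000) (nat_lit 91308032)) (I.mix (nat_lit 98369536) (nat_lit 70500352)))
  true (nat_lit 0)
def b4_4 : Bx := Bx.mk (St.mk (I.mix (nat_lit 57802752) (nat_lit 19398656)) (I.mix (nat_lit 16646144) (nat_lit 85983232)) (I.neg (nat_lit 32866304) (nat_lit 55787520)) (I.pos (nat_lit 269123584) (nat_lit 301629440)) (I.mix (nat_lit 66879488) (nat_lit 134791168)) (I.mix (nat_lit 92389376) (nat_lit 90275840)) (I.mix (nat_lit 59392000) (nat_lit 36798464)))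
  true (nat_lit 0)
def b4_5 : Bx := Bx.mk (St.mk (I.pos (nat_lit 9650176) (nat_lit 57868288)) (I.neg (nat_lit 33144832) (nat_lit 85983232)) (I.neg (nat_lit 34766848) (nat_lit 55787520)) (I.pos (nat_lit 275824640) (nat_lit 301629440)) (I.mix (nat_lit 134791168) (nat_lit 66879488)) (I.mix (nat_lit 90275840) (nat_lit 92389376)) (I.mix (nat_lit 59392000) (nat_lit 36798464)))
  false (nat_lit 65067832)
def b4_6 : Bx := Bx.mk (St.mk (I.pos (nat_lit 205832192) (nat_lit 284147712)) (I.mix (nat_lit 22642688) (nat_lit 55312384)) (I.mix (nat_lit 118308864) (nat_lit 30474240)) (I.pos (nat_lit 462651392) (nat_lit 591593472)) (I.mix (nat_lit 104431616) (nat_lit 77283328)) (I.mix (nat_lit 78725120) (nat_lit 73170944)) (I.mix (nat_lit 135954432) (nat_lit 128794624)))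
  false (nat_lit 0)
def b4_7 : Bx := Bx.mk (St.mk (I.mix (nat_lit 16023552) (nat_lit 21331968)) (I.mix (nat_lit 32538624) (nat_lit 10534912)) (I.neg (nat_lit 36061184) (nat_lit 40992768)) (I.pos (nat_lit 269729792) (nat_lit 277266432)) (I.mix (nat_lit 46252032) (nat_lit 32800768)) (I.mix (nat_lit 27181056) (nat_lit 28131328)) (I.mix (nat_lit 7520256) (nat_lit 6684672)))
  false (nat_lit 0)
def b4_8 : Bx := Bx.mk (St.mk (I.pos (nat_lit 183566336) (nat_lit 232898560)) (I.pos (nat_lit 1818624) (nat_lit 48152576)) (I.mix (nat_lit 40992768) (nat_lit 26951680)) (I.pos (nat_lit 421773312) (nat_lit 487669760)) (I.mix (nat_lit 106053632) (nat_lit 97517568)) (I.mix (nat_lit 78577664) (nat_lit 72368128)) (I.mix (nat_lit 121454592) (nat_lit 116293632)))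
  false (nat_lit 0)
def b4_9 : Bx := Bx.mk (St.mk (I.pos (nat_lit 9666560) (nat_lit 37289984)) (I.neg (nat_lit 4587520) (nat_lit 35454976)) (I.neg (nat_lit 33308672) (nat_lit 40288256)) (I.pos (nat_lit 271876096) (nat_lit 280576000)) (I.mix (nat_lit 67764224) (nat_lit 51642368)) (I.mix (nat_lit 43925504) (nat_lit 44875776)) (I.mix (nat_lit 12386304) (nat_lit 12795904)))
  false (nat_lit 0)
def b4_10 : Bx := Bx.mk (St.mk (I.pos (nat_lit 225787904) (nat_lit 273891328)) (I.mix (nat_lit 37093376) (nat_lit 7749632)) (I.neg (nat_lit 56705024) (nat_lit 150290432)) (I.pos (nat_lit 479002624) (nat_lit 569393152)) (I.mix (nat_lit 107479040) (nat_lit 40779776)) (I.mix (nat_lit 54591488) (nat_lit 68141056)) (I.mix (nat_lit 95256576) (nat_lit 131416064)))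
  false (nat_lit 0)
def b4_11 : Bx := Bx.mk (St.mk (I.mix (nat_lit 12156928) (nat_lit 15138816)) (I.mix (nat_lit 9912320) (nat_lit 19136512)) (I.neg (nat_lit 36503552) (nat_lit 39387136)) (I.pos (nat_lit 270041088) (nat_lit 274694144)) (I.mix (nat_lit 27557888) (nat_lit 35160064)) (I.mix (nat_lit 21757952) (nat_lit 20840448)) (I.mix (nat_lit 3325952) (nat_lit 3375104)))
  false (nat_lit 0)
def b4_12 : Bx := Bx.mk (St.mk (I.pos (nat_lit 238649344) (nat_lit 282673152)) (I.mix (nat_lit 42844160) (nat_lit 11911168)) (I.neg (nat_lit 54165504) (nat_lit 165937152)) (I.pos (nat_lit 503824384) (nat_lit 587677696)) (I.mix (nat_lit 91684864) (nat_lit 38666240)) (I.mix (nat_lit 48955392) (nat_lit 53362688)) (I.mix (nat_lit 82362368) (nat_lit 98566144)))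
  false (nat_lit 0)
def b4_13 : Bx := Bx.mk (St.mk (I.mix (nat_lit 16629760) (nat_lit 5521408)) (I.mix (nat_lit 5324800) (nat_lit 18432000)) (I.neg (nat_lit 36356096) (nat_lit 38862848)) (I.pos (nat_lit 270155776) (nat_lit 275038208)) (I.mix (nat_lit 21463040) (nat_lit 22134784)) (I.mix (nat_lit 13991936) (nat_lit 16465920)) (I.mix (nat_lit 2621440) (nat_lit 2883584)))
  false (nat_lit 0)
def b4_14 : Bx := Bx.mk (St.mk (I.pos (nat_lit 173342720) (nat_lit 218628096)) (I.pos (nat_lit 3670016) (nat_lit 37650432)) (I.mix (nat_lit 35012608) (nat_lit 13713408)) (I.pos (nat_lit 410943488) (nat_lit 460783616)) (I.mix (nat_lit 110837760) (nat_lit 48807936)) (I.mix (nat_lit 64487424) (nat_lit 56410112)) (I.mix (nat_lit 90308608) (nat_lit 93487104)))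
  false (nat_lit 0)
def b4_15 : Bx := Bx.mk (St.mk (I.pos (nat_lit 14352384) (nat_lit 46972928)) (I.neg (nat_lit 6373376) (nat_lit 43417600)) (I.neg (nat_lit 33472512) (nat_lit 41172992)) (I.pos (nat_lit 272515072) (nat_lit 285196288)) (I.mix (nat_lit 53231616) (nat_lit 56819712)) (I.mix (nat_lit 42647552) (nat_lit 40222720)) (I.mix (nat_lit 14745600) (nat_lit 13500416)))
  false (nat_lit 0)
def b4_16 : Bx := Bx.mk (St.mk (I.pos (nat_lit 219332608) (nat_lit 259932160)) (I.mix (nat_lit 26345472) (nat_lit 17776640)) (I.neg (nat_lit 36814848) (nat_lit 124682240)) (I.pos (nat_lit 470827008) (nat_lit 539951104)) (I.mix (nat_lit 84148224) (nat_lit 13516800)) (I.mix (nat_lit 30736384) (nat_lit 47415296)) (I.mix (nat_lit 44023808) (nat_lit 88539136)))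
  false (nat_lit 0)
def b4_17 : Bx := Bx.mk (St.mk (I.mix (nat_lit 7340032) (nat_lit 19054592)) (I.mix (nat_lit 14139392) (nat_lit 14106624)) (I.neg (nat_lit 36519936) (nat_lit 39354368)) (I.pos (nat_lit 270008320) (nat_lit 274808832)) (I.mix (nat_lit 23052288) (nat_lit 32751616)) (I.mix (nat_lit 20414464) (nat_lit 16711680)) (I.mix (nat_lit 3653632) (nat_lit 3047424)))
  false (nat_lit 0)
def b4_18 : Bx := Bx.mk (St.mk (I.pos (nat_lit 146391040) (nat_lit 202719232)) (I.pos (nat_lit 33374208) (nat_lit 84131840)) (I.pos (nat_lit 24887296) (nat_lit 97075200)) (I.pos (nat_lit 395558912) (nat_lit 458719232)) (I.mix (nat_lit 139526144) (nat_lit 94863360)) (I.mix (nat_lit 99827712) (nat_lit 69517312)) (I.mix (nat_lit 152797184) (nat_lit 98664448)))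
  false (nat_lit 8617468)
def b4_19 : Bx := Bx.mk (St.mk (I.pos (nat_lit 11157504) (nat_lit 48136192)) (I.neg (nat_lit 25903104) (nat_lit 72105984)) (I.neg (nat_lit 36175872) (nat_lit 52822016)) (I.pos (nat_lit 275857408) (nat_lit 292880384)) (I.mix (nat_lit 105594880) (nat_lit 59375616)) (I.mix (nat_lit 47595520) (nat_lit 82149376)) (I.mix (nat_lit 29720576) (nat_lit 20824064)))
  false (nat_lit 0)
def b4_20 : Bx := Bx.mk (St.mk (I.pos (nat_lit 246939648) (nat_lit 289505280)) (I.mix (nat_lit 33062912) (nat_lit 14680064)) (I.neg (nat_lit 54181888) (nat_lit 144244736)) (I.pos (nat_lit 518635520) (nat_lit 604012544)) (I.mix (nat_lit 92110848) (nat_lit 55181312)) (I.mix (nat_lit 61833216) (nat_lit 58032128)) (I.mix (nat_lit 114425856) (nat_lit 100892672)))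
  false (nat_lit 0)
def b4_21 : Bx := Bx.mk (St.mk (I.mix (nat_lit 18874368) (nat_lit 15597568)) (I.mix (nat_lit 23445504) (nat_lit 14893056)) (I.neg (nat_lit 36454400) (nat_lit 40108032)) (I.pos (nat_lit 269811712) (nat_lit 275529728)) (I.mix (nat_lit 31817728) (nat_lit 24428544)) (I.mix (nat_lit 16891904) (nat_lit 20480000)) (I.mix (nat_lit 4390912) (nat_lit 3162112)))
  false (nat_lit 0)
def b4_22 : Bx := Bx.mk (St.mk (I.pos (nat_lit 252477440) (nat_lit 274677760)) (I.neg (nat_lit 9584640) (nat_lit 32587776)) (I.neg (nat_lit 100024320) (nat_lit 146604032)) (I.pos (nat_lit 527007744) (nat_lit 570261504)) (I.neg (nat_lit 1753088) (nat_lit 62177280)) (I.mix (nat_lit 13271040) (nat_lit 31604736)) (I.mix (nat_lit 19447808) (nat_lit 61128704)))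
  false (nat_lit 0)
def b4_23 : Bx := Bx.mk (St.mk (I.mix (nat_lit 14303232) (nat_lit 14811136)) (I.mix (nat_lit 14434304) (nat_lit 16678912)) (I.neg (nat_lit 37060608) (nat_lit 39452672)) (I.pos (nat_lit 270057472) (nat_lit 274546688)) (I.mix (nat_lit 13549568) (nat_lit 17448960)) (I.mix (nat_lit 10059776) (nat_lit 8077312)) (I.mix (nat_lit 2228224) (nat_lit 1245184)))
  false (nat_lit 0)
def b4_24 : Bx := Bx.mk (St.mk (I.pos (nat_lit 92766208) (nat_lit 119062528)) (I.neg (nat_lit 15958016) (nat_lit 42729472)) (I.mix (nat_lit 16564224) (nat_lit 5472256)) (I.pos (nat_lit 313049088) (nat_lit 336166912)) (I.mix (nat_lit 30556160) (nat_lit 28377088)) (I.mix (nat_lit 17268736) (nat_lit 17448960)) (I.mix (nat_lit 15663104) (nat_lit 13795328)))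
  false (nat_lit 0)
def b4_25 : Bx := Bx.mk (St.mk (I.pos (nat_lit 6864896) (nat_lit 22118400)) (I.neg (nat_lit 11403264) (nat_lit 27754496)) (I.neg (nat_lit 35946496) (nat_lit 39878656)) (I.pos (nat_lit 271335424) (nat_lit 277315584)) (I.mix (nat_lit 33931264) (nat_lit 20496384)) (I.mix (nat_lit 17809408) (nat_lit 23560192)) (I.mix (nat_lit 4964352) (nat_lit 5160960)))
  false (nat_lit 0)
def b4_26 : Bx := Bx.mk (St.mk (I.pos (nat_lit 205766656) (nat_lit 233291776)) (I.pos (nat_lit 13467648) (nat_lit 38993920)) (I.mix (nat_lit 25985024) (nat_lit 4915200)) (I.pos (nat_lit 458702848) (nat_lit 489029632)) (I.mix (nat_lit 64339968) (nat_lit 31883264)) (I.mix (nat_lit 43499520) (nat_lit 29769728)) (I.mix (nat_lit 66813952) (nat_lit 51281920)))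
  false (nat_lit 0)
def t4 : BTr := (BTr.n (BTr.n (BTr.n (BTr.n (BTr.b b4_0) (BTr.n (BTr.b b4_1) (BTr.b b4_2))) (BTr.n (BTr.b b4_3) (BTr.n (BTr.b b4_4) (BTr.b b4_5)))) (BTr.n (BTr.n (BTr.b b4_6) (BTr.n (BTr.b b4_7) (BTr.b b4_8))) (BTr.n (BTr.n (BTr.b b4_9) (BTr.b b4_10)) (BTr.n (BTr.b b4_11) (BTr.b b4_12))))) (BTr.n (BTr.n (BTr.n (BTr.b b4_13) (BTr.n (BTr.b b4_14) (BTr.b b4_15))) (BTr.n (BTr.n (BTr.b b4_16) (BTr.b b4_17)) (BTr.n (BTr.b b4_18) (BTr.b b4_19)))) (BTr.n (BTr.n (BTr.b b4_20) (BTr.n (BTr.b b4_21) (BTr.b b4_22))) (BTr.n (BTr.n (BTr.b b4_23) (BTr.b b4_24)) (BTr.n (BTr.b b4_25) (BTr.b b4_26))))))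
namespace T4
def l0 : Tr := Tr.L (Pth.l (Pth.l (Pth.l (Pth.l Pth.z))))
def l1 : Tr := Tr.L (Pth.l (Pth.l (Pth.l (Pth.r (Pth.l Pth.z)))))
def l2 : Tr := Tr.L (Pth.l (Pth.l (Pth.l (Pth.r (Pth.r Pth.z)))))
def l3 : Tr := Tr.L (Pth.l (Pth.l (Pth.r (Pth.l Pth.z))))
def l4 : Tr := Tr.L (Pth.l (Pth.l (Pth.r (Pth.r (Pth.l Pth.z)))))
def l5 : Tr := Tr.L (Pth.l (Pth.l (Pth.r (Pth.r (Pth.r Pth.z)))))
def l6 : Tr := Tr.L (Pth.l (Pth.r (Pth.l (Pth.l Pth.z))))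
def l7 : Tr := Tr.L (Pth.l (Pth.r (Pth.l (Pth.r (Pth.l Pth.z)))))
def l8 : Tr := Tr.L (Pth.l (Pth.r (Pth.l (Pth.r (Pth.r Pth.z)))))
def l9 : Tr := Tr.L (Pth.l (Pth.r (Pth.r (Pth.l (Pth.l Pth.z)))))
def l10 : Tr := Tr.L (Pth.l (Pth.r (Pth.r (Pth.l (Pth.r Pth.z)))))
def l11 : Tr := Tr.L (Pth.l (Pth.r (Pth.r (Pth.r (Pth.l Pth.z)))))
def l12 : Tr := Tr.L (Pth.l (Pth.r (Pth.r (Pth.r (Pth.r Pth.z)))))
def l13 : Tr := Tr.L (Pth.r (Pth.l (Pth.l (Pth.l Pth.z))))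
def l14 : Tr := Tr.L (Pth.r (Pth.l (Pth.l (Pth.r (Pth.l Pth.z)))))
def l15 : Tr := Tr.L (Pth.r (Pth.l (Pth.l (Pth.r (Pth.r Pth.z)))))
def l16 : Tr := Tr.L (Pth.r (Pth.l (Pth.r (Pth.l (Pth.l Pth.z)))))
def l17 : Tr := Tr.L (Pth.r (Pth.l (Pth.r (Pth.l (Pth.r Pth.z)))))
def l18 : Tr := Tr.L (Pth.r (Pth.l (Pth.r (Pth.r (Pth.l Pth.z)))))
def l19 : Tr := Tr.L (Pth.r (Pth.l (Pth.r (Pth.r (Pth.r Pth.z)))))
def l20 : Tr := Tr.L (Pth.r (Pth.r (Pth.l (Pth.l Pth.z))))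
def l21 : Tr := Tr.L (Pth.r (Pth.r (Pth.l (Pth.r (Pth.l Pth.z)))))
def l22 : Tr := Tr.L (Pth.r (Pth.r (Pth.l (Pth.r (Pth.r Pth.z)))))
def l23 : Tr := Tr.L (Pth.r (Pth.r (Pth.r (Pth.l (Pth.l Pth.z)))))
def l24 : Tr := Tr.L (Pth.r (Pth.r (Pth.r (Pth.l (Pth.r Pth.z)))))
def l25 : Tr := Tr.L (Pth.r (Pth.r (Pth.r (Pth.r (Pth.l Pth.z)))))
def l26 : Tr := Tr.L (Pth.r (Pth.r (Pth.r (Pth.r (Pth.r Pth.z)))))
end T4
def b5_0 : Bx := Bx.mk (St.mk (I.pos (nat_lit 146079744) (nat_lit 217202688)) (I.mix (nat_lit 1916928) (nat_lit 59834368)) (I.mix (nat_lit 3342336) (nat_lit 109576192)) (I.pos (nat_lit 243302400) (nat_lit 333643776)) (I.mix (nat_lit 142606336) (nat_lit 62701568)) (I.mix (nat_lit 87146496) (nat_lit 63913984)) (I.mix (nat_lit 107724800) (nat_lit 77103104)))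
  false (nat_lit 0)
def b5_1 : Bx := Bx.mk (St.mk (I.pos (nat_lit 71434240) (nat_lit 138002432)) (I.neg (nat_lit 5881856) (nat_lit 71811072)) (I.mix (nat_lit 41074688) (nat_lit 23625728)) (I.pos (nat_lit 174292992) (nat_lit 220364800)) (I.mix (nat_lit 99057664) (nat_lit 90718208)) (I.mix (nat_lit 65634304) (nat_lit 76152832)) (I.mix (nat_lit 56868864) (nat_lit 71892992)))
  false (nat_lit 27393206)
def b5_2 : Bx := Bx.mk (St.mk (I.mix (nat_lit 31621120) (nat_lit 3031040)) (I.mix (nat_lit 40140800) (nat_lit 8437760)) (I.pos (nat_lit 12386304) (nat_lit 19283968)) (I.pos (nat_lit 143392768) (nat_lit 154042368)) (I.mix (nat_lit 44466176) (nat_lit 73318400)) (I.mix (nat_lit 35700736) (nat_lit 50855936)) (I.mix (nat_lit 7094272) (nat_lit 12713984)))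
  true (nat_lit 0)
def b5_3 : Bx := Bx.mk (St.mk (I.pos (nat_lit 126107648) (nat_lit 180027392)) (I.mix (nat_lit 4964352) (nat_lit 54181888)) (I.pos (nat_lit 36831232) (nat_lit 103497728)) (I.pos (nat_lit 209682432) (nat_lit 276267008)) (I.mix (nat_lit 172081152) (nat_lit 58408960)) (I.mix (nat_lit 146341888) (nat_lit 77283328)) (I.mix (nat_lit 144621568) (nat_lit 83034112)))
  false (nat_lit 3894404)
def b5_4 : Bx := Bx.mk (St.mk (I.mix (nat_lit 3555328) (nat_lit 31637504)) (I.mix (nat_lit 9617408) (nat_lit 40173568)) (I.pos (nat_lit 12402688) (nat_lit 19283968)) (I.pos (nat_lit 143392768) (nat_lit 154042368)) (I.mix (nat_lit 73318400) (nat_lit 44957696)) (I.mix (nat_lit 50855936) (nat_lit 35700736)) (I.mix (nat_lit 7094272) (nat_lit 12713984)))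
  false (nat_lit 0)
def b5_5 : Bx := Bx.mk (St.mk (I.pos (nat_lit 106037248) (nat_lit 142934016)) (I.neg (nat_lit 3850240) (nat_lit 38600704)) (I.mix (nat_lit 4390912) (nat_lit 26853376)) (I.pos (nat_lit 192659456) (nat_lit 224559104)) (I.mix (nat_lit 86032384) (nat_lit 57524224)) (I.mix (nat_lit 44105728) (nat_lit 60882944)) (I.mix (nat_lit 43384832) (nat_lit 51380224)))
  false (nat_lit 0)
def b5_6 : Bx := Bx.mk (St.mk (I.mix (nat_lit 25051136) (nat_lit 3833856)) (I.mix (nat_lit 17055744) (nat_lit 11419648)) (I.pos (nat_lit 12976128) (nat_lit 16089088)) (I.pos (nat_lit 143572992) (nat_lit 148258816)) (I.mix (nat_lit 45219840) (nat_lit 33406976)) (I.mix (nat_lit 25329664) (nat_lit 31145984)) (I.mix (nat_lit 5128192) (nat_lit 4997120)))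
  true (nat_lit 0)
def b5_7 : Bx := Bx.mk (St.mk (I.pos (nat_lit 130154496) (nat_lit 164331520)) (I.neg (nat_lit 13320192) (nat_lit 41353216)) (I.mix (nat_lit 7897088) (nat_lit 19890176)) (I.pos (nat_lit 213958656) (nat_lit 248954880)) (I.mix (nat_lit 72712192) (nat_lit 72351744)) (I.mix (nat_lit 69255168) (nat_lit 50446336)) (I.mix (nat_lit 67223552) (nat_lit 48840704)))
  false (nat_lit 0)
def b5_8 : Bx := Bx.mk (St.mk (I.pos (nat_lit 135299072) (nat_lit 180666368)) (I.mix (nat_lit 41385984) (nat_lit 3555328)) (I.mix (nat_lit 5767168) (nat_lit 42893312)) (I.pos (nat_lit 219594752) (nat_lit 267534336)) (I.mix (nat_lit 77807616) (nat_lit 91144192)) (I.mix (nat_lit 82182144) (nat_lit 66371584)) (I.mix (nat_lit 76595200) (nat_lit 67256320)))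
  false (nat_lit 24091575)
def b5_9 : Bx := Bx.mk (St.mk (I.pos (nat_lit 11960320) (nat_lit 75038720)) (I.mix (nat_lit 13500416) (nat_lit 43483136)) (I.mix (nat_lit 7634944) (nat_lit 20070400)) (I.pos (nat_lit 145096704) (nat_lit 166494208)) (I.mix (nat_lit 53280768) (nat_lit 55738368)) (I.mix (nat_lit 52838400) (nat_lit 38584320)) (I.mix (nat_lit 28884992) (nat_lit 22528000)))
  false (nat_lit 0)
def b5_10 : Bx := Bx.mk (St.mk (I.pos (nat_lit 48431104) (nat_lit 101351424)) (I.mix (nat_lit 63324160) (nat_lit 11763712)) (I.mix (nat_lit 35897344) (nat_lit 5029888)) (I.pos (nat_lit 153354240) (nat_lit 193298432)) (I.mix (nat_lit 89423872) (nat_lit 48726016)) (I.mix (nat_lit 46366720) (nat_lit 77774848)) (I.mix (nat_lit 35356672) (nat_lit 42827776)))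
  false (nat_lit 0)
def b5_11 : Bx := Bx.mk (St.mk (I.neg (nat_lit 11960320) (nat_lit 75055104)) (I.mix (nat_lit 43499520) (nat_lit 13697024)) (I.mix (nat_lit 7716864) (nat_lit 20070400)) (I.pos (nat_lit 145096704) (nat_lit 166494208)) (I.mix (nat_lit 55705600) (nat_lit 53297152)) (I.mix (nat_lit 38617088) (nat_lit 52838400)) (I.mix (nat_lit 28950528) (nat_lit 22528000)))
  true (nat_lit 0)
def b5_12 : Bx := Bx.mk (St.mk (I.pos (nat_lit 126631936) (nat_lit 180944896)) (I.mix (nat_lit 22183936) (nat_lit 25804800)) (I.pos (nat_lit 18726912) (nat_lit 72089600)) (I.pos (nat_lit 209321984) (nat_lit 269844480)) (I.mix (nat_lit 147537920) (nat_lit 90963968)) (I.mix (nat_lit 131072000) (nat_lit 80625664)) (I.mix (nat_lit 124174336) (nat_lit 83197952)))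
  false (nat_lit 16656237)
def b5_13 : Bx := Bx.mk (St.mk (I.pos (nat_lit 190627840) (nat_lit 225165312)) (I.mix (nat_lit 1228800) (nat_lit 29048832)) (I.pos (nat_lit 8798208) (nat_lit 56786944)) (I.pos (nat_lit 301875200) (nat_lit 341016576)) (I.mix (nat_lit 109707264) (nat_lit 45547520)) (I.mix (nat_lit 64847872) (nat_lit 50282496)) (I.mix (nat_lit 98975744) (nat_lit 82231296)))
  false (nat_lit 0)
def b5_14 : Bx := Bx.mk (St.mk (I.pos (nat_lit 222576640) (nat_lit 265977856)) (I.mix (nat_lit 23609344) (nat_lit 17186816)) (I.mix (nat_lit 48316416) (nat_lit 30097408)) (I.pos (nat_lit 352698368) (nat_lit 427851776)) (I.mix (nat_lit 83312640) (nat_lit 26001408)) (I.mix (nat_lit 33177600) (nat_lit 50937856)) (I.mix (nat_lit 60850176) (nat_lit 90931200)))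
  false (nat_lit 0)
def b5_15 : Bx := Bx.mk (St.mk (I.pos (nat_lit 160022528) (nat_lit 211599360)) (I.pos (nat_lit 19431424) (nat_lit 58834944)) (I.pos (nat_lit 44711936) (nat_lit 106594304)) (I.pos (nat_lit 265109504) (nat_lit 321699840)) (I.mix (nat_lit 126550016) (nat_lit 90521600)) (I.mix (nat_lit 99385344) (nat_lit 66682880)) (I.mix (nat_lit 156893184) (nat_lit 82296832)))
  false (nat_lit 0)
def b5_16 : Bx := Bx.mk (St.mk (I.pos (nat_lit 215990272) (nat_lit 284950528)) (I.mix (nat_lit 25739264) (nat_lit 39321600)) (I.mix (nat_lit 51642368) (nat_lit 72794112)) (I.pos (nat_lit 343293952) (nat_lit 468500480)) (I.mix (nat_lit 79806464) (nat_lit 64487424)) (I.mix (nat_lit 71106560) (nat_lit 50085888)) (I.mix (nat_lit 131563520) (nat_lit 80134144)))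
  false (nat_lit 0)
def b5_17 : Bx := Bx.mk (St.mk (I.pos (nat_lit 249905152) (nat_lit 281935872)) (I.neg (nat_lit 4259840) (nat_lit 35454976)) (I.neg (nat_lit 16498688) (nat_lit 74743808)) (I.pos (nat_lit 408043520) (nat_lit 464781312)) (I.mix (nat_lit 75792384) (nat_lit 29687808)) (I.mix (nat_lit 40124416) (nat_lit 45842432)) (I.mix (nat_lit 76005376) (nat_lit 75857920)))
  false (nat_lit 0)
def b5_18 : Bx := Bx.mk (St.mk (I.pos (nat_lit 205783040) (nat_lit 276168704)) (I.mix (nat_lit 14565376) (nat_lit 40337408)) (I.mix (nat_lit 27131904) (nat_lit 77250560)) (I.pos (nat_lit 328220672) (nat_lit 448774144)) (I.mix (nat_lit 79855616) (nat_lit 59244544)) (I.mix (nat_lit 62947328) (nat_lit 55820288)) (I.mix (nat_lit 108445696) (nat_lit 90882048)))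
  false (nat_lit 0)
def b5_19 : Bx := Bx.mk (St.mk (I.pos (nat_lit 185090048) (nat_lit 230752256)) (I.mix (nat_lit 2719744) (nat_lit 31850496)) (I.pos (nat_lit 6111232) (nat_lit 64389120)) (I.pos (nat_lit 294404096) (nat_lit 351371264)) (I.mix (nat_lit 95617024) (nat_lit 53477376)) (I.mix (nat_lit 59097088) (nat_lit 44990464)) (I.mix (nat_lit 90488832) (nat_lit 76677120)))
  false (nat_lit 0)
def b5_20 : Bx := Bx.mk (St.mk (I.pos (nat_lit 233226240) (nat_lit 271958016)) (I.mix (nat_lit 32702464) (nat_lit 10567680)) (I.mix (nat_lit 67731456) (nat_lit 15728640)) (I.pos (nat_lit 369819648) (nat_lit 442531840)) (I.mix (nat_lit 86081536) (nat_lit 22757376)) (I.mix (nat_lit 34045952) (nat_lit 51052544)) (I.mix (nat_lit 61734912) (nat_lit 89194496)))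
  false (nat_lit 0)
def b5_21 : Bx := Bx.mk (St.mk (I.pos (nat_lit 253100032) (nat_lit 277315584)) (I.neg (nat_lit 2605056) (nat_lit 25509888)) (I.neg (nat_lit 10485760) (nat_lit 52150272)) (I.pos (nat_lit 411893760) (nat_lit 454377472)) (I.mix (nat_lit 47726592) (nat_lit 7307264)) (I.mix (nat_lit 18448384) (nat_lit 23052288)) (I.mix (nat_lit 32129024) (nat_lit 38666240)))
  false (nat_lit 0)
def t5 : BTr := (BTr.n (BTr.n (BTr.n (BTr.n (BTr.b b5_0) (BTr.b b5_1)) (BTr.n (BTr.b b5_2) (BTr.n (BTr.b b5_3) (BTr.b b5_4)))) (BTr.n (BTr.n (BTr.b b5_5) (BTr.n (BTr.b b5_6) (BTr.b b5_7))) (BTr.n (BTr.b b5_8) (BTr.n (BTr.b b5_9) (BTr.b b5_10))))) (BTr.n (BTr.n (BTr.n (BTr.b b5_11) (BTr.b b5_12)) (BTr.n (BTr.b b5_13) (BTr.n (BTr.b b5_14) (BTr.b b5_15)))) (BTr.n (BTr.n (BTr.b b5_16) (BTr.n (BTr.b b5_17) (BTr.b b5_18))) (BTr.n (BTr.b b5_19) (BTr.n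 (BTr.b b5_20) (BTr.b b5_21))))))
namespace T5
def l0 : Tr := Tr.L (Pth.l (Pth.l (Pth.l (Pth.l Pth.z))))
def l1 : Tr := Tr.L (Pth.l (Pth.l (Pth.l (Pth.r Pth.z))))
def l2 : Tr := Tr.L (Pth.l (Pth.l (Pth.r (Pth.l Pth.z))))
def l3 : Tr := Tr.L (Pth.l (Pth.l (Pth.r (Pth.r (Pth.l Pth.z)))))
def l4 : Tr := Tr.L (Pth.l (Pth.l (Pth.r (Pth.r (Pth.r Pth.z)))))
def l5 : Tr := Tr.L (Pth.l (Pth.r (Pth.l (Pth.l Pth.z))))
def l6 : Tr := Tr.L (Pth.l (Pth.r (Pth.l (Pth.r (Pth.l Pth.z)))))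
def l7 : Tr := Tr.L (Pth.l (Pth.r (Pth.l (Pth.r (Pth.r Pth.z)))))
def l8 : Tr := Tr.L (Pth.l (Pth.r (Pth.r (Pth.l Pth.z))))
def l9 : Tr := Tr.L (Pth.l (Pth.r (Pth.r (Pth.r (Pth.l Pth.z)))))
def l10 : Tr := Tr.L (Pth.l (Pth.r (Pth.r (Pth.r (Pth.r Pth.z)))))
def l11 : Tr := Tr.L (Pth.r (Pth.l (Pth.l (Pth.l Pth.z))))
def l12 : Tr := Tr.L (Pth.r (Pth.l (Pth.l (Pth.r Pth.z))))
def l13 : Tr := Tr.L (Pth.r (Pth.l (Pth.r (Pth.l Pth.z))))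
def l14 : Tr := Tr.L (Pth.r (Pth.l (Pth.r (Pth.r (Pth.l Pth.z)))))
def l15 : Tr := Tr.L (Pth.r (Pth.l (Pth.r (Pth.r (Pth.r Pth.z)))))
def l16 : Tr := Tr.L (Pth.r (Pth.r (Pth.l (Pth.l Pth.z))))
def l17 : Tr := Tr.L (Pth.r (Pth.r (Pth.l (Pth.r (Pth.l Pth.z)))))
def l18 : Tr := Tr.L (Pth.r (Pth.r (Pth.l (Pth.r (Pth.r Pth.z)))))
def l19 : Tr := Tr.L (Pth.r (Pth.r (Pth.r (Pth.l Pth.z))))
def l20 : Tr := Tr.L (Pth.r (Pth.r (Pth.r (Pth.r (Pth.l Pth.z)))))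
def l21 : Tr := Tr.L (Pth.r (Pth.r (Pth.r (Pth.r (Pth.r Pth.z)))))
end T5
theorem bx0_0 : BoxOK sI cl4 cl5 cl6 t2 t4 b0_0 :=
  box_mk (TrL.c (I.pos (nat_lit 0) (nat_lit 0)) (xb (xa (xb T2.l0 (xa T2.l0 T2.l0)) (xb T2.l0 T2.l0)) (xa (xb (xa (xb T2.l0 T2.l0) T2.l0) (xa (xb (xa T2.l0 T2.l0) (xa T2.l0 T2.l0)) (xb T2.l0 (xa T2.l0 T2.l0)))) (xb (xa T2.l0 T2.l0) (xa (xb T2.l0 (xs T2.l0 (xa T2.l0 T2.l0))) (xb T2.l0 (xs T2.l0 (xa T2.l0 T2.l0)))))))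
  (TrL.c (I.pos (nat_lit 0) (nat_lit 0)) (xb (xa T4.l1 T4.l1) (xa (xb T4.l1 T4.l1) (xb T4.l1 (xa T4.l1 T4.l1))))
  (TrL.c (I.pos (nat_lit 0) (nat_lit 0)) (xa T2.l1 T2.l1)
  (TrL.c (I.pos (nat_lit 0) (nat_lit 0)) (xb (xa T4.l2 T4.l2) (xa T4.l2 (xb T4.l2 T4.l2)))
  (TrL.c (I.pos (nat_lit 0) (nat_lit 0)) (xa T2.l2 T2.l2)
  (TrL.c (I.pos (nat_lit 0) (nat_lit 0)) (xb (xa T4.l3 T4.l3) (xa (xb T4.l3 T4.l3) (xb T4.l3 (xa T4.l3 T4.l3))))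
  TrL.n)))))) (by decide +kernel)
theorem bx0_1 : BoxOK sI cl4 cl5 cl6 t2 t4 b0_1 :=
  box_mk (TrL.c (I.pos (nat_lit 0) (nat_lit 0)) (xb (xa T2.l6 T2.l6) (xa (xb T2.l6 T2.l6) (xb T2.l6 T2.l6)))
  (TrL.c (I.pos (nat_lit 0) (nat_lit 0)) T4.l1
  (TrL.c (I.pos (nat_lit 0) (nat_lit 0)) T2.l1
  (TrL.c (I.pos (nat_lit 0) (nat_lit 0)) T4.l2
  (TrL.c (I.pos (nat_lit 0) (nat_lit 0)) T2.l7
  (TrL.c (I.pos (nat_lit 0) (nat_lit 0)) T4.l3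
  TrL.n)))))) (by decide +kernel)
theorem bx0_2 : BoxOK sI cl4 cl5 cl6 t2 t4 b0_2 :=
  box_mk (TrL.c (I.pos (nat_lit 0) (nat_lit 0)) (xb (xa (xb T2.l8 T2.l8) (xb T2.l8 T2.l8)) (xa (xb T2.l8 T2.l8) (xb T2.l8 T2.l8)))
  (TrL.c (I.pos (nat_lit 0) (nat_lit 0)) (xb T4.l1 T4.l1)
  (TrL.c (I.pos (nat_lit 0) (nat_lit 0)) T2.l1
  (TrL.c (I.pos (nat_lit 0) (nat_lit 0)) T4.l2
  (TrL.c (I.pos (nat_lit 0) (nat_lit 0)) T2.l9
  (TrL.c (I.pos (nat_lit 0) (nat_lit 0)) (xb T4.l3 T4.l3)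
  TrL.n)))))) (by decide +kernel)
theorem bx0_3 : BoxOK sI cl4 cl5 cl6 t2 t4 b0_3 :=
  box_mk (TrL.c (I.pos (nat_lit 0) (nat_lit 0)) T4.l1
  (TrL.c (I.pos (nat_lit 0) (nat_lit 0)) T2.l1
  TrL.n)) (by decide +kernel)
theorem bx0_4 : BoxOK sI cl4 cl5 cl6 t2 t4 b0_4 :=
  box_mk (TrL.c (I.pos (nat_lit 0) (nat_lit 0)) (xb T2.l12 T2.l6)
  (TrL.c (I.pos (nat_lit 0) (nat_lit 0)) T4.l1
  (TrL.c (I.pos (nat_lit 0) (nat_lit 0)) T2.l1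
  (TrL.c (I.pos (nat_lit 0) (nat_lit 0)) T4.l2
  (TrL.c (I.pos (nat_lit 0) (nat_lit 0)) T2.l13
  (TrL.c (I.pos (nat_lit 0) (nat_lit 0)) T4.l3
  TrL.n)))))) (by decide +kernel)
theorem bx0_5 : BoxOK sI cl4 cl5 cl6 t2 t4 b0_5 :=
  box_mk (TrL.c (I.pos (nat_lit 0) (nat_lit 0)) (xa (xb T2.l0 T2.l0) (xb T2.l4 T2.l4))
  (TrL.c (I.pos (nat_lit 0) (nat_lit 0)) (xa T4.l1 T4.l1)
  (TrL.c (I.pos (nat_lit 0) (nat_lit 0)) T2.l1
  (TrL.c (I.pos (nat_lit 0) (nat_lit 0)) (xa T4.l2 (xb T4.l2 T4.l2))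
  (TrL.c (I.pos (nat_lit 0) (nat_lit 0)) T2.l2
  (TrL.c (I.pos (nat_lit 0) (nat_lit 0)) (xa T4.l3 T4.l3)
  TrL.n)))))) (by decide +kernel)
theorem bx0_6 : BoxOK sI cl4 cl5 cl6 t2 t4 b0_6 :=
  box_mk (TrL.c (I.pos (nat_lit 0) (nat_lit 0)) (xa (xb (xa T2.l0 T2.l0) (xa T2.l0 T2.l0)) (xb (xa T2.l0 T2.l4) (xa T2.l0 (xb T2.l0 T2.l0))))
  (TrL.c (I.pos (nat_lit 0) (nat_lit 0)) (xa (xb T4.l1 T4.l1) (xb T4.l1 T4.l1))
  (TrL.c (I.pos (nat_lit 0) (nat_lit 0)) T2.l1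
  (TrL.c (I.pos (nat_lit 0) (nat_lit 0)) (xa (xb T4.l2 T4.l2) (xb (xa T4.l2 T4.l2) (xa T4.l2 T4.l2)))
  (TrL.c (I.pos (nat_lit 0) (nat_lit 0)) T2.l2
  (TrL.c (I.pos (nat_lit 0) (nat_lit 0)) (xa (xb T4.l3 T4.l3) (xb T4.l3 T4.l3))
  TrL.n)))))) (by decide +kernel)
theorem bx0_7 : BoxOK sI cl4 cl5 cl6 t2 t4 b0_7 :=
  box_mk (TrL.c (I.pos (nat_lit 0) (nat_lit 0)) (xa (xb (xa (xb T2.l0 T2.l0) (xb T2.l0 T2.l0)) (xa (xb (xa T2.l0 T2.l0) (xa (xs T2.l0 T2.l0) T2.l0)) (xb (xa T2.l0 T2.l0) (xs T2.l0 (xa T2.l0 T2.l0))))) (xb (xa (xb T2.l0 T2.l0) (xb T2.l0 (xa T2.l0 T2.l0))) (xa (xb T2.l0 (xs T2.l0 T2.l0)) (xb (xs T2.l0 (xa T2.l0 T2.l0)) (xs (xa T2.l0 T2.l0) (xa T2.l0 T2.l0))))))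
  (TrL.c (I.pos (nat_lit 0) (nat_lit 0)) (xa (xb T4.l1 (xa T4.l1 T4.l1)) (xb (xa T4.l1 T4.l1) (xa T4.l1 T4.l1)))
  (TrL.c (I.pos (nat_lit 0) (nat_lit 0)) (xa T2.l1 T2.l1)
  (TrL.c (I.pos (nat_lit 0) (nat_lit 0)) (xa (xb (xa T4.l2 T4.l2) T4.l2) (xb (xa T4.l2 T4.l2) (xa T4.l2 (xb T4.l2 T4.l2))))
  (TrL.c (I.pos (nat_lit 0) (nat_lit 0)) (xa T2.l2 T2.l2)
  (TrL.c (I.pos (nat_lit 0) (nat_lit 0)) (xa (xb T4.l3 (xa T4.l3 T4.l3)) (xb (xa T4.l3 T4.l3) (xa T4.l3 T4.l3)))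
  TrL.n)))))) (by decide +kernel)
theorem bx0_8 : BoxOK sI cl4 cl5 cl6 t2 t4 b0_8 :=
  box_mk (TrL.c (I.pos (nat_lit 0) (nat_lit 0)) (xa (xb (xa (xb T2.l8 T2.l8) (xb T2.l10 T2.l10)) (xa T2.l8 T2.l8)) (xb (xa (xb T2.l10 T2.l10) (xb T2.l10 T2.l10)) (xa T2.l10 T2.l10)))
  (TrL.c (I.pos (nat_lit 0) (nat_lit 0)) (xa T4.l1 T4.l1)
  (TrL.c (I.pos (nat_lit 0) (nat_lit 0)) T2.l1
  (TrL.c (I.pos (nat_lit 0) (nat_lit 0)) (xa T4.l2 T4.l2)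
  (TrL.c (I.pos (nat_lit 0) (nat_lit 0)) (xa T2.l11 T2.l11)
  (TrL.c (I.pos (nat_lit 0) (nat_lit 0)) (xa T4.l3 T4.l3)
  TrL.n)))))) (by decide +kernel)
theorem bx0_9 : BoxOK sI cl4 cl5 cl6 t2 t4 b0_9 :=
  box_mk (TrL.c (I.pos (nat_lit 0) (nat_lit 0)) T4.l1
  (TrL.c (I.pos (nat_lit 0) (nat_lit 0)) T2.l1
  TrL.n)) (by decide +kernel)
theorem bx0_10 : BoxOK sI cl4 cl5 cl6 t2 t4 b0_10 :=
  box_mk (TrL.c (I.pos (nat_lit 0) (nat_lit 0)) (xb (xa T2.l15 (xb T2.l0 T2.l0)) (xa (xb T2.l15 (xa T2.l15 T2.l15)) (xb (xa T2.l15 T2.l15) (xa T2.l15 T2.l0))))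
  (TrL.c (I.pos (nat_lit 0) (nat_lit 0)) (xb T4.l1 T4.l1)
  (TrL.c (I.pos (nat_lit 0) (nat_lit 0)) T2.l1
  (TrL.c (I.pos (nat_lit 0) (nat_lit 0)) T4.l2
  (TrL.c (I.pos (nat_lit 0) (nat_lit 0)) T2.l2
  (TrL.c (I.pos (nat_lit 0) (nat_lit 0)) (xb T4.l3 T4.l3)
  TrL.n)))))) (by decide +kernel)
theorem bx0_11 : BoxOK sI cl4 cl5 cl6 t2 t4 b0_11 :=
  box_mk (TrL.c (I.pos (nat_lit 0) (nat_lit 0)) (xb (xa T2.l17 T2.l17) (xa T2.l17 T2.l17))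
  (TrL.c (I.pos (nat_lit 0) (nat_lit 0)) T4.l1
  (TrL.c (I.pos (nat_lit 0) (nat_lit 0)) T2.l1
  (TrL.c (I.pos (nat_lit 0) (nat_lit 0)) T4.l2
  (TrL.c (I.pos (nat_lit 0) (nat_lit 0)) T2.l18
  (TrL.c (I.pos (nat_lit 0) (nat_lit 0)) T4.l3
  TrL.n)))))) (by decide +kernel)
theorem bx0_12 : BoxOK sI cl4 cl5 cl6 t2 t4 b0_12 :=
  box_mk (TrL.c (I.pos (nat_lit 0) (nat_lit 0)) (xb (xa T2.l15 T2.l0) T2.l0)
  (TrL.c (I.pos (nat_lit 0) (nat_lit 0)) T4.l1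
  (TrL.c (I.pos (nat_lit 0) (nat_lit 0)) T2.l1
  (TrL.c (I.pos (nat_lit 0) (nat_lit 0)) T4.l2
  (TrL.c (I.pos (nat_lit 0) (nat_lit 0)) T2.l3
  (TrL.c (I.pos (nat_lit 0) (nat_lit 0)) T4.l3
  TrL.n)))))) (by decide +kernel)
theorem bx0_13 : BoxOK sI cl4 cl5 cl6 t2 t4 b0_13 :=
  box_mk (TrL.c (I.pos (nat_lit 0) (nat_lit 0)) T2.l10
  (TrL.c (I.pos (nat_lit 0) (nat_lit 0)) T4.l1
  (TrL.c (I.pos (nat_lit 0) (nat_lit 0)) T2.l1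
  (TrL.c (I.pos (nat_lit 0) (nat_lit 0)) T4.l2
  (TrL.c (I.pos (nat_lit 0) (nat_lit 0)) T2.l16
  (TrL.c (I.pos (nat_lit 0) (nat_lit 0)) T4.l3
  TrL.n)))))) (by decide +kernel)
theorem bx0_14 : BoxOK sI cl4 cl5 cl6 t2 t4 b0_14 :=
  box_mk (TrL.c (I.pos (nat_lit 0) (nat_lit 0)) (xa (xb T2.l15 (xa T2.l15 T2.l15)) (xb (xa T2.l15 T2.l0) (xa T2.l15 T2.l15)))
  (TrL.c (I.pos (nat_lit 0) (nat_lit 0)) T4.l1
  (TrL.c (I.pos (nat_lit 0) (nat_lit 0)) T2.l1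
  (TrL.c (I.pos (nat_lit 0) (nat_lit 0)) (xa T4.l2 T4.l2)
  (TrL.c (I.pos (nat_lit 0) (nat_lit 0)) T2.l16
  (TrL.c (I.pos (nat_lit 0) (nat_lit 0)) T4.l3
  TrL.n)))))) (by decide +kernel)
theorem bx0_15 : BoxOK sI cl4 cl5 cl6 t2 t4 b0_15 :=
  box_mk (TrL.c (I.pos (nat_lit 0) (nat_lit 0)) (xa T2.l10 T2.l15)
  (TrL.c (I.pos (nat_lit 0) (nat_lit 0)) T4.l1
  (TrL.c (I.pos (nat_lit 0) (nat_lit 0)) T2.l1
  (TrL.c (I.pos (nat_lit 0) (nat_lit 0)) T4.l2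
  (TrL.c (I.pos (nat_lit 0) (nat_lit 0)) T2.l16
  (TrL.c (I.pos (nat_lit 0) (nat_lit 0)) T4.l3
  TrL.n)))))) (by decide +kernel)
theorem bx0_16 : BoxOK sI cl4 cl5 cl6 t2 t4 b0_16 :=
  box_mk (TrL.c (I.pos (nat_lit 0) (nat_lit 0)) T2.l15
  (TrL.c (I.pos (nat_lit 0) (nat_lit 0)) T4.l1
  (TrL.c (I.pos (nat_lit 0) (nat_lit 0)) T2.l1
  (TrL.c (I.pos (nat_lit 0) (nat_lit 0)) T4.l2
  (TrL.c (I.pos (nat_lit 0) (nat_lit 0)) T2.l16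
  (TrL.c (I.pos (nat_lit 0) (nat_lit 0)) T4.l3
  TrL.n)))))) (by decide +kernel)
theorem bx0_17 : BoxOK sI cl4 cl5 cl6 t2 t4 b0_17 :=
  box_mk (TrL.c (I.pos (nat_lit 0) (nat_lit 0)) (xa T2.l15 T2.l15)
  (TrL.c (I.pos (nat_lit 0) (nat_lit 0)) T4.l1
  (TrL.c (I.pos (nat_lit 0) (nat_lit 0)) T2.l1
  (TrL.c (I.pos (nat_lit 0) (nat_lit 0)) T4.l2
  (TrL.c (I.pos (nat_lit 0) (nat_lit 0)) T2.l16
  (TrL.c (I.pos (nat_lit 0) (nat_lit 0)) T4.l3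
  TrL.n)))))) (by decide +kernel)
theorem bx0_18 : BoxOK sI cl4 cl5 cl6 t2 t4 b0_18 :=
  box_mk (TrL.c (I.pos (nat_lit 0) (nat_lit 0)) (xb (xa T2.l15 T2.l15) T2.l15)
  (TrL.c (I.pos (nat_lit 0) (nat_lit 0)) T4.l1
  (TrL.c (I.pos (nat_lit 0) (nat_lit 0)) T2.l1
  (TrL.c (I.pos (nat_lit 0) (nat_lit 0)) T4.l2
  (TrL.c (I.pos (nat_lit 0) (nat_lit 0)) T2.l16
  (TrL.c (I.pos (nat_lit 0) (nat_lit 0)) T4.l3
  TrL.n)))))) (by decide +kernel)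
theorem sv0 : StarV sI cl4 cl5 cl6 t2 t4 t0 :=
  (bt_n (bt_n (bt_n (bt_n (bt_b bx0_0) (bt_b bx0_1)) (bt_n (bt_b bx0_2) (bt_b bx0_3))) (bt_n (bt_n (bt_b bx0_4) (bt_b bx0_5)) (bt_n (bt_b bx0_6) (bt_n (bt_b bx0_7) (bt_b bx0_8))))) (bt_n (bt_n (bt_n (bt_b bx0_9) (bt_b bx0_10)) (bt_n (bt_b bx0_11) (bt_n (bt_b bx0_12) (bt_b bx0_13)))) (bt_n (bt_n (bt_b bx0_14) (bt_b bx0_15)) (bt_n (bt_b bx0_16) (bt_n (bt_b bx0_17) (bt_b bx0_18))))))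
def S0 : StarD := StarD.mk cl4 cl5 cl6 2 4 t0
theorem bx1_0 : BoxOK sI cl4 cl6 cl5 t4 t2 b1_0 :=
  box_mk (TrL.c (I.pos (nat_lit 0) (nat_lit 0)) (xa (xb (xa (xb T4.l0 T4.l0) T4.l0) (xa (xb (xa T4.l0 T4.l0) (xa (xb T4.l0 T4.l0) (xb T4.l0 T4.l0))) (xb T4.l0 (xa (xb T4.l0 T4.l0) (xb T4.l0 (xs T4.l0 T4.l0)))))) (xb (xa T4.l0 (xb T4.l0 T4.l0)) (xa (xb T4.l0 (xa (xs T4.l0 T4.l0) (xs T4.l0 T4.l0))) (xb T4.l0 (xa (xs T4.l0 T4.l0) (xs T4.l0 T4.l0))))))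
  (TrL.c (I.pos (nat_lit 0) (nat_lit 0)) (xa (xb T2.l3 (xa T2.l3 T2.l3)) (xb T2.l3 (xa T2.l3 (xb T2.l3 T2.l3))))
  (TrL.c (I.pos (nat_lit 0) (nat_lit 0)) (xa T4.l4 T4.l4)
  (TrL.c (I.pos (nat_lit 0) (nat_lit 0)) (xa T2.l4 (xb T2.l4 (xa T2.l4 T2.l4)))
  (TrL.c (I.pos (nat_lit 0) (nat_lit 0)) (xa T4.l5 T4.l5)
  (TrL.c (I.pos (nat_lit 0) (nat_lit 0)) (xa (xb T2.l5 (xa T2.l5 T2.l5)) (xb T2.l5 (xa T2.l5 (xb T2.l5 T2.l5))))
  TrL.n)))))) (by decide +kernel)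
theorem bx1_1 : BoxOK sI cl4 cl6 cl5 t4 t2 b1_1 :=
  box_mk (TrL.c (I.pos (nat_lit 0) (nat_lit 0)) (xa (xb (xa T4.l6 T4.l6) (xa (xa T4.l6 T4.l6) T4.l6)) (xa T4.l6 (xb T4.l6 (xa T4.l6 T4.l6))))
  (TrL.c (I.pos (nat_lit 0) (nat_lit 0)) (xa T2.l3 T2.l3)
  (TrL.c (I.pos (nat_lit 0) (nat_lit 0)) T4.l4
  (TrL.c (I.pos (nat_lit 0) (nat_lit 0)) (xa T2.l4 T2.l4)
  (TrL.c (I.pos (nat_lit 0) (nat_lit 0)) (xa T4.l7 T4.l7)
  (TrL.c (I.pos (nat_lit 0) (nat_lit 0)) T2.l5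
  TrL.n)))))) (by decide +kernel)
theorem bx1_2 : BoxOK sI cl4 cl6 cl5 t4 t2 b1_2 :=
  box_mk (TrL.c (I.pos (nat_lit 0) (nat_lit 0)) (xb (xa (xb T4.l8 T4.l8) (xb T4.l8 T4.l8)) (xa T4.l8 T4.l8))
  (TrL.c (I.pos (nat_lit 0) (nat_lit 0)) T2.l3
  (TrL.c (I.pos (nat_lit 0) (nat_lit 0)) T4.l4
  (TrL.c (I.pos (nat_lit 0) (nat_lit 0)) T2.l4
  (TrL.c (I.pos (nat_lit 0) (nat_lit 0)) T4.l9
  (TrL.c (I.pos (nat_lit 0) (nat_lit 0)) T2.l5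
  TrL.n)))))) (by decide +kernel)
theorem bx1_3 : BoxOK sI cl4 cl6 cl5 t4 t2 b1_3 :=
  box_mk (TrL.c (I.pos (nat_lit 0) (nat_lit 0)) (xa (xb (xa T4.l10 T4.l10) (xa T4.l10 T4.l6)) T4.l6)
  (TrL.c (I.pos (nat_lit 0) (nat_lit 0)) T2.l4
  (TrL.c (I.pos (nat_lit 0) (nat_lit 0)) T4.l7
  (TrL.c (I.pos (nat_lit 0) (nat_lit 0)) T2.l3
  (TrL.c (I.pos (nat_lit 0) (nat_lit 0)) T4.l11
  (TrL.c (I.pos (nat_lit 0) (nat_lit 0)) T2.l5
  TrL.n)))))) (by decide +kernel)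
theorem bx1_4 : BoxOK sI cl4 cl6 cl5 t4 t2 b1_4 :=
  box_mk (TrL.c (I.pos (nat_lit 0) (nat_lit 0)) (xa (xb (xa T4.l0 T4.l0) (xa T4.l0 T4.l0)) (xb (xa T4.l2 T4.l2) (xa T4.l0 T4.l2)))
  (TrL.c (I.pos (nat_lit 0) (nat_lit 0)) (xa T2.l3 (xb T2.l3 T2.l3))
  (TrL.c (I.pos (nat_lit 0) (nat_lit 0)) T4.l4
  (TrL.c (I.pos (nat_lit 0) (nat_lit 0)) (xa T2.l4 (xb T2.l4 T2.l4))
  (TrL.c (I.pos (nat_lit 0) (nat_lit 0)) T4.l5
  (TrL.c (I.pos (nat_lit 0) (nat_lit 0)) (xa T2.l5 (xb T2.l5 T2.l5))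
  TrL.n)))))) (by decide +kernel)
theorem bx1_5 : BoxOK sI cl4 cl6 cl5 t4 t2 b1_5 :=
  box_mk (TrL.c (I.pos (nat_lit 0) (nat_lit 0)) (xa (xb (xa (xb T4.l0 (xa T4.l0 T4.l0)) (xb T4.l0 T4.l0)) (xa (xb (xs T4.l0 T4.l0) (xs T4.l0 (xa T4.l0 T4.l0))) (xb (xs T4.l0 T4.l0) (xs T4.l0 (xa T4.l0 T4.l0))))) (xb (xa (xb T4.l0 T4.l0) (xb T4.l0 (xs T4.l0 T4.l0))) (xa (xb (xs T4.l0 T4.l0) (xs T4.l0 (xa T4.l0 T4.l0))) (xb (xs T4.l0 (xa T4.l0 T4.l0)) (xs (xa T4.l0 T4.l0) (xa T4.l0 T4.l0))))))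
  (TrL.c (I.pos (nat_lit 0) (nat_lit 0)) (xa (xb T2.l3 (xa T2.l3 T2.l3)) (xb (xa T2.l3 T2.l3) (xa T2.l3 T2.l3)))
  (TrL.c (I.pos (nat_lit 0) (nat_lit 0)) (xa T4.l4 T4.l4)
  (TrL.c (I.pos (nat_lit 0) (nat_lit 0)) (xa (xb T2.l4 T2.l4) (xb (xa T2.l4 T2.l4) (xa T2.l4 T2.l4)))
  (TrL.c (I.pos (nat_lit 0) (nat_lit 0)) (xa T4.l5 T4.l5)
  (TrL.c (I.pos (nat_lit 0) (nat_lit 0)) (xa (xb T2.l5 (xa T2.l5 T2.l5)) (xb (xa T2.l5 T2.l5) (xa T2.l5 T2.l5)))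
  TrL.n)))))) (by decide +kernel)
theorem bx1_6 : BoxOK sI cl4 cl6 cl5 t4 t2 b1_6 :=
  box_mk (TrL.c (I.pos (nat_lit 0) (nat_lit 0)) (xa (xa T4.l12 T4.l12) T4.l12)
  (TrL.c (I.pos (nat_lit 0) (nat_lit 0)) T2.l4
  (TrL.c (I.pos (nat_lit 0) (nat_lit 0)) T4.l7
  (TrL.c (I.pos (nat_lit 0) (nat_lit 0)) T2.l3
  (TrL.c (I.pos (nat_lit 0) (nat_lit 0)) T4.l13
  (TrL.c (I.pos (nat_lit 0) (nat_lit 0)) T2.l5
  TrL.n)))))) (by decide +kernel)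
theorem bx1_7 : BoxOK sI cl4 cl6 cl5 t4 t2 b1_7 :=
  box_mk (TrL.c (I.pos (nat_lit 0) (nat_lit 0)) (xb T4.l26 T4.l6)
  (TrL.c (I.pos (nat_lit 0) (nat_lit 0)) T2.l3
  (TrL.c (I.pos (nat_lit 0) (nat_lit 0)) T4.l4
  (TrL.c (I.pos (nat_lit 0) (nat_lit 0)) T2.l4
  (TrL.c (I.pos (nat_lit 0) (nat_lit 0)) T4.l25
  (TrL.c (I.pos (nat_lit 0) (nat_lit 0)) T2.l5
  TrL.n)))))) (by decide +kernel)
theorem bx1_8 : BoxOK sI cl4 cl6 cl5 t4 t2 b1_8 :=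
  box_mk (TrL.c (I.pos (nat_lit 0) (nat_lit 0)) (xa (xb T4.l2 T4.l0) (xb T4.l2 T4.l2))
  (TrL.c (I.pos (nat_lit 0) (nat_lit 0)) (xa T2.l3 (xb T2.l3 T2.l3))
  (TrL.c (I.pos (nat_lit 0) (nat_lit 0)) T4.l3
  (TrL.c (I.pos (nat_lit 0) (nat_lit 0)) (xa T2.l4 (xb T2.l4 T2.l4))
  (TrL.c (I.pos (nat_lit 0) (nat_lit 0)) T4.l1
  (TrL.c (I.pos (nat_lit 0) (nat_lit 0)) (xa T2.l5 (xb T2.l5 T2.l5))
  TrL.n)))))) (by decide +kernel)
theorem bx1_9 : BoxOK sI cl4 cl6 cl5 t4 t2 b1_9 :=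
  box_mk (TrL.c (I.pos (nat_lit 0) (nat_lit 0)) (xa (xb (xa T4.l14 T4.l14) T4.l8) (xb (xa T4.l14 T4.l0) T4.l0))
  (TrL.c (I.pos (nat_lit 0) (nat_lit 0)) T2.l3
  (TrL.c (I.pos (nat_lit 0) (nat_lit 0)) T4.l4
  (TrL.c (I.pos (nat_lit 0) (nat_lit 0)) (xa T2.l4 T2.l4)
  (TrL.c (I.pos (nat_lit 0) (nat_lit 0)) T4.l15
  (TrL.c (I.pos (nat_lit 0) (nat_lit 0)) T2.l5
  TrL.n)))))) (by decide +kernel)
theorem bx1_10 : BoxOK sI cl4 cl6 cl5 t4 t2 b1_10 :=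
  box_mk (TrL.c (I.pos (nat_lit 0) (nat_lit 0)) (xa (xb (xa T4.l10 T4.l6) T4.l6) T4.l6)
  (TrL.c (I.pos (nat_lit 0) (nat_lit 0)) T2.l3
  (TrL.c (I.pos (nat_lit 0) (nat_lit 0)) T4.l4
  (TrL.c (I.pos (nat_lit 0) (nat_lit 0)) T2.l4
  (TrL.c (I.pos (nat_lit 0) (nat_lit 0)) T4.l17
  (TrL.c (I.pos (nat_lit 0) (nat_lit 0)) T2.l5
  TrL.n)))))) (by decide +kernel)
theorem bx1_11 : BoxOK sI cl4 cl6 cl5 t4 t2 b1_11 :=
  box_mk (TrL.c (I.pos (nat_lit 0) (nat_lit 0)) (xb (xa (xb T4.l18 (xa T4.l18 T4.l18)) (xb (xa T4.l18 T4.l2) (xa T4.l18 T4.l18))) (xa (xb (xa T4.l18 T4.l18) (xa (xb T4.l18 T4.l18) (xb T4.l18 (xs T4.l18 T4.l18)))) (xb (xa T4.l18 (xb T4.l18 T4.l18)) (xa (xs T4.l18 (xb T4.l18 T4.l18)) (xs T4.l18 (xb T4.l18 T4.l18))))))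
  (TrL.c (I.pos (nat_lit 0) (nat_lit 0)) (xb (xa T2.l3 T2.l3) (xa T2.l3 T2.l3))
  (TrL.c (I.pos (nat_lit 0) (nat_lit 0)) T4.l4
  (TrL.c (I.pos (nat_lit 0) (nat_lit 0)) (xb T2.l4 T2.l4)
  (TrL.c (I.pos (nat_lit 0) (nat_lit 0)) (xa T4.l19 T4.l5)
  (TrL.c (I.pos (nat_lit 0) (nat_lit 0)) (xb (xa T2.l5 T2.l5) (xa T2.l5 T2.l5))
  TrL.n)))))) (by decide +kernel)
theorem bx1_12 : BoxOK sI cl4 cl6 cl5 t4 t2 b1_12 :=
  box_mk (TrL.c (I.pos (nat_lit 0) (nat_lit 0)) (xa (xa (xb T4.l20 (xa T4.l20 T4.l20)) T4.l6) T4.l6)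
  (TrL.c (I.pos (nat_lit 0) (nat_lit 0)) (xa T2.l4 T2.l3)
  (TrL.c (I.pos (nat_lit 0) (nat_lit 0)) (xa T4.l4 T4.l4)
  (TrL.c (I.pos (nat_lit 0) (nat_lit 0)) (xa T2.l3 T2.l4)
  (TrL.c (I.pos (nat_lit 0) (nat_lit 0)) (xa T4.l21 T4.l7)
  (TrL.c (I.pos (nat_lit 0) (nat_lit 0)) (xa T2.l5 T2.l5)
  TrL.n)))))) (by decide +kernel)
theorem bx1_13 : BoxOK sI cl4 cl6 cl5 t4 t2 b1_13 :=
  box_mk (TrL.c (I.pos (nat_lit 0) (nat_lit 0)) T4.l0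
  (TrL.c (I.pos (nat_lit 0) (nat_lit 0)) T2.l3
  (TrL.c (I.pos (nat_lit 0) (nat_lit 0)) T4.l4
  (TrL.c (I.pos (nat_lit 0) (nat_lit 0)) (xb T2.l4 T2.l4)
  (TrL.c (I.pos (nat_lit 0) (nat_lit 0)) T4.l1
  (TrL.c (I.pos (nat_lit 0) (nat_lit 0)) T2.l5
  TrL.n)))))) (by decide +kernel)
theorem bx1_14 : BoxOK sI cl4 cl6 cl5 t4 t2 b1_14 :=
  box_mk (TrL.c (I.pos (nat_lit 0) (nat_lit 0)) T4.l0
  (TrL.c (I.pos (nat_lit 0) (nat_lit 0)) T2.l3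
  (TrL.c (I.pos (nat_lit 0) (nat_lit 0)) T4.l4
  (TrL.c (I.pos (nat_lit 0) (nat_lit 0)) T2.l4
  (TrL.c (I.pos (nat_lit 0) (nat_lit 0)) T4.l15
  (TrL.c (I.pos (nat_lit 0) (nat_lit 0)) T2.l5
  TrL.n)))))) (by decide +kernel)
theorem bx1_15 : BoxOK sI cl4 cl6 cl5 t4 t2 b1_15 :=
  box_mk (TrL.c (I.pos (nat_lit 0) (nat_lit 0)) (xa (xa T4.l12 T4.l6) T4.l6)
  (TrL.c (I.pos (nat_lit 0) (nat_lit 0)) T2.l4
  (TrL.c (I.pos (nat_lit 0) (nat_lit 0)) T4.l4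
  (TrL.c (I.pos (nat_lit 0) (nat_lit 0)) T2.l3
  (TrL.c (I.pos (nat_lit 0) (nat_lit 0)) T4.l23
  (TrL.c (I.pos (nat_lit 0) (nat_lit 0)) T2.l5
  TrL.n)))))) (by decide +kernel)
theorem bx1_16 : BoxOK sI cl4 cl6 cl5 t4 t2 b1_16 :=
  box_mk (TrL.c (I.pos (nat_lit 0) (nat_lit 0)) (xa (xb T4.l18 T4.l18) (xb T4.l18 T4.l18))
  (TrL.c (I.pos (nat_lit 0) (nat_lit 0)) T2.l3
  (TrL.c (I.pos (nat_lit 0) (nat_lit 0)) T4.l4
  (TrL.c (I.pos (nat_lit 0) (nat_lit 0)) (xa T2.l4 T2.l4)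
  (TrL.c (I.pos (nat_lit 0) (nat_lit 0)) T4.l19
  (TrL.c (I.pos (nat_lit 0) (nat_lit 0)) T2.l5
  TrL.n)))))) (by decide +kernel)
theorem bx1_17 : BoxOK sI cl4 cl6 cl5 t4 t2 b1_17 :=
  box_mk (TrL.c (I.pos (nat_lit 0) (nat_lit 0)) T4.l0
  (TrL.c (I.pos (nat_lit 0) (nat_lit 0)) T2.l3
  (TrL.c (I.pos (nat_lit 0) (nat_lit 0)) T4.l4
  (TrL.c (I.pos (nat_lit 0) (nat_lit 0)) T2.l4
  (TrL.c (I.pos (nat_lit 0) (nat_lit 0)) T4.l19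
  (TrL.c (I.pos (nat_lit 0) (nat_lit 0)) T2.l5
  TrL.n)))))) (by decide +kernel)
theorem bx1_18 : BoxOK sI cl4 cl6 cl5 t4 t2 b1_18 :=
  box_mk (TrL.c (I.pos (nat_lit 0) (nat_lit 0)) T4.l0
  (TrL.c (I.pos (nat_lit 0) (nat_lit 0)) T2.l3
  (TrL.c (I.pos (nat_lit 0) (nat_lit 0)) T4.l4
  (TrL.c (I.pos (nat_lit 0) (nat_lit 0)) T2.l4
  (TrL.c (I.pos (nat_lit 0) (nat_lit 0)) T4.l19
  (TrL.c (I.pos (nat_lit 0) (nat_lit 0)) T2.l5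
  TrL.n)))))) (by decide +kernel)
theorem bx1_19 : BoxOK sI cl4 cl6 cl5 t4 t2 b1_19 :=
  box_mk (TrL.c (I.pos (nat_lit 0) (nat_lit 0)) T4.l0
  (TrL.c (I.pos (nat_lit 0) (nat_lit 0)) T2.l3
  (TrL.c (I.pos (nat_lit 0) (nat_lit 0)) T4.l4
  (TrL.c (I.pos (nat_lit 0) (nat_lit 0)) T2.l4
  (TrL.c (I.pos (nat_lit 0) (nat_lit 0)) T4.l19
  (TrL.c (I.pos (nat_lit 0) (nat_lit 0)) T2.l5
  TrL.n)))))) (by decide +kernel)
theorem bx1_20 : BoxOK sI cl4 cl6 cl5 t4 t2 b1_20 :=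
  box_mk (TrL.c (I.pos (nat_lit 0) (nat_lit 0)) T4.l0
  (TrL.c (I.pos (nat_lit 0) (nat_lit 0)) T2.l3
  (TrL.c (I.pos (nat_lit 0) (nat_lit 0)) T4.l4
  (TrL.c (I.pos (nat_lit 0) (nat_lit 0)) T2.l4
  (TrL.c (I.pos (nat_lit 0) (nat_lit 0)) T4.l19
  (TrL.c (I.pos (nat_lit 0) (nat_lit 0)) T2.l5
  TrL.n)))))) (by decide +kernel)
theorem bx1_21 : BoxOK sI cl4 cl6 cl5 t4 t2 b1_21 :=
  box_mk (TrL.c (I.pos (nat_lit 0) (nat_lit 0)) T4.l0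
  (TrL.c (I.pos (nat_lit 0) (nat_lit 0)) T2.l3
  (TrL.c (I.pos (nat_lit 0) (nat_lit 0)) T4.l4
  (TrL.c (I.pos (nat_lit 0) (nat_lit 0)) T2.l4
  (TrL.c (I.pos (nat_lit 0) (nat_lit 0)) T4.l5
  (TrL.c (I.pos (nat_lit 0) (nat_lit 0)) T2.l5
  TrL.n)))))) (by decide +kernel)
theorem sv1 : StarV sI cl4 cl6 cl5 t4 t2 t1 :=
  (bt_n (bt_n (bt_n (bt_n (bt_b bx1_0) (bt_b bx1_1)) (bt_n (bt_b bx1_2) (bt_n (bt_b bx1_3) (bt_b bx1_4)))) (bt_n (bt_n (bt_b bx1_5) (bt_n (bt_b bx1_6) (bt_b bx1_7))) (bt_n (bt_b bx1_8) (bt_n (bt_b bx1_9) (bt_b bx1_10))))) (bt_n (bt_n (bt_n (bt_b bx1_11) (bt_b bx1_12)) (bt_n (bt_b bx1_13) (bt_n (bt_b bx1_14) (bt_b bx1_15)))) (bt_n (bt_n (bt_b bx1_16) (bt_n (bt_b bx1_17) (bt_b bx1_18))) (bt_n (bt_b bx1_19) (bt_n (bt_b bx1_20) (bt_b bx1_21))))))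
def S1 : StarD := StarD.mk cl4 cl6 cl5 4 2 t1
theorem bx2_0 : BoxOK sI cl5 cl4 cl6 t0 t5 b2_0 :=
  box_mk (TrL.c (I.pos (nat_lit 0) (nat_lit 0)) (xb (xa (xb T0.l7 (xa T0.l7 T0.l0)) (xb T0.l0 (xa T0.l0 T0.l0))) (xa (xb (xa (xb T0.l0 T0.l7) (xb T0.l0 T0.l0)) (xa (xb (xa T0.l7 T0.l0) (xs T0.l0 T0.l0)) (xb T0.l0 (xs T0.l0 T0.l0)))) (xb (xa T0.l0 T0.l0) (xa (xb T0.l0 (xs T0.l0 T0.l0)) (xs (xb T0.l0 T0.l0) (xb T0.l0 (xa T0.l0 T0.l0)))))))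
  (TrL.c (I.pos (nat_lit 0) (nat_lit 0)) (xb T5.l1 (xa T5.l1 T5.l1))
  (TrL.c (I.pos (nat_lit 0) (nat_lit 0)) T0.l1
  (TrL.c (I.pos (nat_lit 0) (nat_lit 0)) T5.l2
  (TrL.c (I.pos (nat_lit 0) (nat_lit 0)) (xb (xa T5.l12 T5.l3) (xa T5.l3 (xb T5.l3 T5.l3)))
  (TrL.c (I.pos (nat_lit 0) (nat_lit 0)) (xb T0.l2 T0.l2)
  (TrL.c (I.pos (nat_lit 0) (nat_lit 0)) T5.l4
  (TrL.c (I.pos (nat_lit 0) (nat_lit 0)) T0.l3
  TrL.n)))))))) (by decide +kernel)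
theorem bx2_1 : BoxOK sI cl5 cl4 cl6 t0 t5 b2_1 :=
  box_mk (TrL.c (I.pos (nat_lit 0) (nat_lit 0)) (xb T5.l5 T5.l5)
  (TrL.c (I.pos (nat_lit 0) (nat_lit 0)) T0.l4
  (TrL.c (I.pos (nat_lit 0) (nat_lit 0)) T5.l6
  TrL.n))) (by decide +kernel)
theorem bx2_2 : BoxOK sI cl5 cl4 cl6 t0 t5 b2_2 :=
  box_mk (TrL.c (I.pos (nat_lit 0) (nat_lit 0)) (xb (xa (xb T0.l5 T0.l5) T0.l6) (xa T0.l5 T0.l6))
  (TrL.c (I.pos (nat_lit 0) (nat_lit 0)) T5.l5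
  (TrL.c (I.pos (nat_lit 0) (nat_lit 0)) T0.l1
  (TrL.c (I.pos (nat_lit 0) (nat_lit 0)) T5.l6
  (TrL.c (I.pos (nat_lit 0) (nat_lit 0)) T5.l7
  (TrL.c (I.pos (nat_lit 0) (nat_lit 0)) T0.l2
  (TrL.c (I.pos (nat_lit 0) (nat_lit 0)) T5.l4
  (TrL.c (I.pos (nat_lit 0) (nat_lit 0)) T0.l3
  TrL.n)))))))) (by decide +kernel)
theorem bx2_3 : BoxOK sI cl5 cl4 cl6 t0 t5 b2_3 :=
  box_mk (TrL.c (I.pos (nat_lit 0) (nat_lit 0)) (xa (xb (xa (xb (xa T0.l6 T0.l6) T0.l6) (xb T0.l6 T0.l6)) (xa (xb T0.l6 T0.l6) (xb T0.l6 T0.l6))) (xb (xa T0.l6 (xb T0.l6 T0.l6)) (xa (xb T0.l6 T0.l6) (xb T0.l6 T0.l7))))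
  (TrL.c (I.pos (nat_lit 0) (nat_lit 0)) (xa T5.l1 T5.l1)
  (TrL.c (I.pos (nat_lit 0) (nat_lit 0)) T0.l4
  (TrL.c (I.pos (nat_lit 0) (nat_lit 0)) T5.l6
  (TrL.c (I.pos (nat_lit 0) (nat_lit 0)) (xa (xb T5.l8 T5.l8) (xb T5.l8 T5.l8))
  (TrL.c (I.pos (nat_lit 0) (nat_lit 0)) T0.l2
  (TrL.c (I.pos (nat_lit 0) (nat_lit 0)) T5.l4
  (TrL.c (I.pos (nat_lit 0) (nat_lit 0)) T0.l3
  TrL.n)))))))) (by decide +kernel)
theorem bx2_4 : BoxOK sI cl5 cl4 cl6 t0 t5 b2_4 :=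
  box_mk (TrL.c (I.pos (nat_lit 0) (nat_lit 0)) (xb (xa (xb (xa T0.l7 T0.l7) (xa T0.l7 T0.l7)) (xb (xa T0.l7 T0.l7) (xa T0.l7 T0.l7))) (xa (xb (xa (xb T0.l7 T0.l7) T0.l7) (xa (xb T0.l7 (xa T0.l7 T0.l7)) (xb T0.l7 (xa T0.l7 T0.l7)))) (xb (xa T0.l7 T0.l7) (xa (xb T0.l7 (xa T0.l7 T0.l7)) (xb T0.l7 (xa T0.l7 T0.l7))))))
  (TrL.c (I.pos (nat_lit 0) (nat_lit 0)) (xb (xa T5.l1 T5.l1) (xa T5.l1 T5.l1))
  (TrL.c (I.pos (nat_lit 0) (nat_lit 0)) (xb T0.l1 T0.l1)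
  (TrL.c (I.pos (nat_lit 0) (nat_lit 0)) T5.l2
  (TrL.c (I.pos (nat_lit 0) (nat_lit 0)) (xb (xa T5.l12 (xb T5.l12 T5.l12)) (xa T5.l12 (xb T5.l3 T5.l3)))
  (TrL.c (I.pos (nat_lit 0) (nat_lit 0)) (xb T0.l2 T0.l2)
  (TrL.c (I.pos (nat_lit 0) (nat_lit 0)) T5.l4
  (TrL.c (I.pos (nat_lit 0) (nat_lit 0)) (xb T0.l3 T0.l3)
  TrL.n)))))))) (by decide +kernel)
theorem bx2_5 : BoxOK sI cl5 cl4 cl6 t0 t5 b2_5 :=
  box_mk (TrL.c (I.pos (nat_lit 0) (nat_lit 0)) (xa T5.l1 T5.l5)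
  (TrL.c (I.pos (nat_lit 0) (nat_lit 0)) T0.l4
  (TrL.c (I.pos (nat_lit 0) (nat_lit 0)) T5.l6
  TrL.n))) (by decide +kernel)
theorem bx2_6 : BoxOK sI cl5 cl4 cl6 t0 t5 b2_6 :=
  box_mk (TrL.c (I.pos (nat_lit 0) (nat_lit 0)) (xa T0.l0 (xb T0.l0 (xa T0.l0 T0.l0)))
  (TrL.c (I.pos (nat_lit 0) (nat_lit 0)) T5.l1
  (TrL.c (I.pos (nat_lit 0) (nat_lit 0)) T0.l1
  (TrL.c (I.pos (nat_lit 0) (nat_lit 0)) T5.l2
  (TrL.c (I.pos (nat_lit 0) (nat_lit 0)) (xb T5.l3 T5.l3)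
  (TrL.c (I.pos (nat_lit 0) (nat_lit 0)) T0.l2
  (TrL.c (I.pos (nat_lit 0) (nat_lit 0)) T5.l4
  (TrL.c (I.pos (nat_lit 0) (nat_lit 0)) T0.l3
  TrL.n)))))))) (by decide +kernel)
theorem bx2_7 : BoxOK sI cl5 cl4 cl6 t0 t5 b2_7 :=
  box_mk (TrL.c (I.pos (nat_lit 0) (nat_lit 0)) T0.l5
  (TrL.c (I.pos (nat_lit 0) (nat_lit 0)) T5.l5
  (TrL.c (I.pos (nat_lit 0) (nat_lit 0)) T0.l1
  (TrL.c (I.pos (nat_lit 0) (nat_lit 0)) T5.l2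
  (TrL.c (I.pos (nat_lit 0) (nat_lit 0)) T5.l7
  (TrL.c (I.pos (nat_lit 0) (nat_lit 0)) T0.l2
  (TrL.c (I.pos (nat_lit 0) (nat_lit 0)) T5.l4
  (TrL.c (I.pos (nat_lit 0) (nat_lit 0)) T0.l3
  TrL.n)))))))) (by decide +kernel)
theorem bx2_8 : BoxOK sI cl5 cl4 cl6 t0 t5 b2_8 :=
  box_mk (TrL.c (I.pos (nat_lit 0) (nat_lit 0)) (xa T0.l0 T0.l0)
  (TrL.c (I.pos (nat_lit 0) (nat_lit 0)) T5.l1
  (TrL.c (I.pos (nat_lit 0) (nat_lit 0)) T0.l1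
  (TrL.c (I.pos (nat_lit 0) (nat_lit 0)) T5.l2
  (TrL.c (I.pos (nat_lit 0) (nat_lit 0)) (xa T5.l3 T5.l3)
  (TrL.c (I.pos (nat_lit 0) (nat_lit 0)) T0.l2
  (TrL.c (I.pos (nat_lit 0) (nat_lit 0)) T5.l4
  (TrL.c (I.pos (nat_lit 0) (nat_lit 0)) T0.l3
  TrL.n)))))))) (by decide +kernel)
theorem bx2_9 : BoxOK sI cl5 cl4 cl6 t0 t5 b2_9 :=
  box_mk (TrL.c (I.pos (nat_lit 0) (nat_lit 0)) T0.l5
  (TrL.c (I.pos (nat_lit 0) (nat_lit 0)) T5.l1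
  (TrL.c (I.pos (nat_lit 0) (nat_lit 0)) T0.l1
  (TrL.c (I.pos (nat_lit 0) (nat_lit 0)) T5.l2
  (TrL.c (I.pos (nat_lit 0) (nat_lit 0)) T5.l7
  (TrL.c (I.pos (nat_lit 0) (nat_lit 0)) T0.l2
  (TrL.c (I.pos (nat_lit 0) (nat_lit 0)) T5.l4
  (TrL.c (I.pos (nat_lit 0) (nat_lit 0)) T0.l3
  TrL.n)))))))) (by decide +kernel)
theorem bx2_10 : BoxOK sI cl5 cl4 cl6 t0 t5 b2_10 :=
  box_mk (TrL.c (I.pos (nat_lit 0) (nat_lit 0)) T0.l0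
  (TrL.c (I.pos (nat_lit 0) (nat_lit 0)) T5.l1
  (TrL.c (I.pos (nat_lit 0) (nat_lit 0)) T0.l1
  (TrL.c (I.pos (nat_lit 0) (nat_lit 0)) T5.l2
  (TrL.c (I.pos (nat_lit 0) (nat_lit 0)) T5.l3
  (TrL.c (I.pos (nat_lit 0) (nat_lit 0)) T0.l2
  (TrL.c (I.pos (nat_lit 0) (nat_lit 0)) T5.l4
  (TrL.c (I.pos (nat_lit 0) (nat_lit 0)) T0.l3
  TrL.n)))))))) (by decide +kernel)
theorem bx2_11 : BoxOK sI cl5 cl4 cl6 t0 t5 b2_11 :=
  box_mk (TrL.c (I.pos (nat_lit 0) (nat_lit 0)) (xb T0.l5 T0.l5)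
  (TrL.c (I.pos (nat_lit 0) (nat_lit 0)) T5.l1
  (TrL.c (I.pos (nat_lit 0) (nat_lit 0)) T0.l1
  (TrL.c (I.pos (nat_lit 0) (nat_lit 0)) T5.l2
  (TrL.c (I.pos (nat_lit 0) (nat_lit 0)) T5.l7
  (TrL.c (I.pos (nat_lit 0) (nat_lit 0)) T0.l2
  (TrL.c (I.pos (nat_lit 0) (nat_lit 0)) T5.l4
  (TrL.c (I.pos (nat_lit 0) (nat_lit 0)) T0.l3
  TrL.n)))))))) (by decide +kernel)
theorem bx2_12 : BoxOK sI cl5 cl4 cl6 t0 t5 b2_12 :=
  box_mk (TrL.c (I.pos (nat_lit 0) (nat_lit 0)) T0.l0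
  (TrL.c (I.pos (nat_lit 0) (nat_lit 0)) T5.l1
  (TrL.c (I.pos (nat_lit 0) (nat_lit 0)) T0.l1
  (TrL.c (I.pos (nat_lit 0) (nat_lit 0)) T5.l2
  (TrL.c (I.pos (nat_lit 0) (nat_lit 0)) T5.l3
  (TrL.c (I.pos (nat_lit 0) (nat_lit 0)) T0.l2
  (TrL.c (I.pos (nat_lit 0) (nat_lit 0)) T5.l4
  (TrL.c (I.pos (nat_lit 0) (nat_lit 0)) T0.l3
  TrL.n)))))))) (by decide +kernel)
theorem bx2_13 : BoxOK sI cl5 cl4 cl6 t0 t5 b2_13 :=
  box_mk (TrL.c (I.pos (nat_lit 0) (nat_lit 0)) T0.l5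
  (TrL.c (I.pos (nat_lit 0) (nat_lit 0)) T5.l1
  (TrL.c (I.pos (nat_lit 0) (nat_lit 0)) T0.l1
  (TrL.c (I.pos (nat_lit 0) (nat_lit 0)) T5.l2
  (TrL.c (I.pos (nat_lit 0) (nat_lit 0)) T5.l7
  (TrL.c (I.pos (nat_lit 0) (nat_lit 0)) T0.l2
  (TrL.c (I.pos (nat_lit 0) (nat_lit 0)) T5.l4
  (TrL.c (I.pos (nat_lit 0) (nat_lit 0)) T0.l3
  TrL.n)))))))) (by decide +kernel)
theorem bx2_14 : BoxOK sI cl5 cl4 cl6 t0 t5 b2_14 :=
  box_mk (TrL.c (I.pos (nat_lit 0) (nat_lit 0)) T5.l5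
  (TrL.c (I.pos (nat_lit 0) (nat_lit 0)) T0.l4
  (TrL.c (I.pos (nat_lit 0) (nat_lit 0)) T5.l6
  TrL.n))) (by decide +kernel)
theorem bx2_15 : BoxOK sI cl5 cl4 cl6 t0 t5 b2_15 :=
  box_mk (TrL.c (I.pos (nat_lit 0) (nat_lit 0)) (xb (xa T0.l0 T0.l0) (xa (xb T0.l0 T0.l0) (xb T0.l0 T0.l0)))
  (TrL.c (I.pos (nat_lit 0) (nat_lit 0)) T5.l1
  (TrL.c (I.pos (nat_lit 0) (nat_lit 0)) T0.l1
  (TrL.c (I.pos (nat_lit 0) (nat_lit 0)) T5.l2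
  (TrL.c (I.pos (nat_lit 0) (nat_lit 0)) T5.l3
  (TrL.c (I.pos (nat_lit 0) (nat_lit 0)) T0.l2
  (TrL.c (I.pos (nat_lit 0) (nat_lit 0)) T5.l4
  (TrL.c (I.pos (nat_lit 0) (nat_lit 0)) T0.l3
  TrL.n)))))))) (by decide +kernel)
theorem bx2_16 : BoxOK sI cl5 cl4 cl6 t0 t5 b2_16 :=
  box_mk (TrL.c (I.pos (nat_lit 0) (nat_lit 0)) (xb T0.l5 T0.l5)
  (TrL.c (I.pos (nat_lit 0) (nat_lit 0)) T5.l1
  (TrL.c (I.pos (nat_lit 0) (nat_lit 0)) T0.l1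
  (TrL.c (I.pos (nat_lit 0) (nat_lit 0)) T5.l2
  (TrL.c (I.pos (nat_lit 0) (nat_lit 0)) T5.l7
  (TrL.c (I.pos (nat_lit 0) (nat_lit 0)) T0.l2
  (TrL.c (I.pos (nat_lit 0) (nat_lit 0)) T5.l4
  (TrL.c (I.pos (nat_lit 0) (nat_lit 0)) T0.l3
  TrL.n)))))))) (by decide +kernel)
theorem bx2_17 : BoxOK sI cl5 cl4 cl6 t0 t5 b2_17 :=
  box_mk (TrL.c (I.pos (nat_lit 0) (nat_lit 0)) (xa T0.l0 (xb T0.l10 T0.l10))
  (TrL.c (I.pos (nat_lit 0) (nat_lit 0)) T5.l1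
  (TrL.c (I.pos (nat_lit 0) (nat_lit 0)) T0.l1
  (TrL.c (I.pos (nat_lit 0) (nat_lit 0)) T5.l11
  (TrL.c (I.pos (nat_lit 0) (nat_lit 0)) (xb (xa T5.l3 T5.l3) (xa T5.l3 T5.l3))
  (TrL.c (I.pos (nat_lit 0) (nat_lit 0)) T0.l2
  (TrL.c (I.pos (nat_lit 0) (nat_lit 0)) T5.l9
  (TrL.c (I.pos (nat_lit 0) (nat_lit 0)) T0.l3
  TrL.n)))))))) (by decide +kernel)
theorem bx2_18 : BoxOK sI cl5 cl4 cl6 t0 t5 b2_18 :=
  box_mk (TrL.c (I.pos (nat_lit 0) (nat_lit 0)) T0.l5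
  (TrL.c (I.pos (nat_lit 0) (nat_lit 0)) T5.l5
  (TrL.c (I.pos (nat_lit 0) (nat_lit 0)) T0.l1
  (TrL.c (I.pos (nat_lit 0) (nat_lit 0)) T5.l2
  (TrL.c (I.pos (nat_lit 0) (nat_lit 0)) T5.l7
  (TrL.c (I.pos (nat_lit 0) (nat_lit 0)) T0.l2
  (TrL.c (I.pos (nat_lit 0) (nat_lit 0)) T5.l4
  (TrL.c (I.pos (nat_lit 0) (nat_lit 0)) T0.l3
  TrL.n)))))))) (by decide +kernel)
theorem sv2 : StarV sI cl5 cl4 cl6 t0 t5 t2 :=
  (bt_n (bt_n (bt_n (bt_n (bt_b bx2_0) (bt_b bx2_1)) (bt_n (bt_b bx2_2) (bt_b bx2_3))) (bt_n (bt_n (bt_b bx2_4) (bt_b bx2_5)) (bt_n (bt_b bx2_6) (bt_n (bt_b bx2_7) (bt_b bx2_8))))) (bt_n (bt_n (bt_n (bt_b bx2_9) (bt_b bx2_10)) (bt_n (bt_b bx2_11) (bt_n (bt_b bx2_12) (bt_b bx2_13)))) (bt_n (bt_n (bt_b bx2_14) (bt_b bx2_15)) (bt_n (bt_b bx2_16) (bt_n (bt_b bx2_17) (bt_b bx2_18))))))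
def S2 : StarD := StarD.mk cl5 cl4 cl6 0 5 t2
theorem bx3_0 : BoxOK sI cl5 cl6 cl4 t5 t0 b3_0 :=
  box_mk (TrL.c (I.pos (nat_lit 0) (nat_lit 0)) (xa (xb (xa T5.l15 (xb T5.l0 T5.l0)) (xa (xb T5.l15 (xs T5.l0 (xa T5.l0 T5.l0))) (xb T5.l15 (xs T5.l0 (xa T5.l0 T5.l0))))) (xb (xa (xb T5.l0 T5.l0) T5.l0) (xa (xb T5.l0 (xs T5.l0 (xa T5.l0 T5.l0))) (xb T5.l0 (xs T5.l0 (xa T5.l0 T5.l0))))))
  (TrL.c (I.pos (nat_lit 0) (nat_lit 0)) (xa (xb T0.l8 T0.l8) (xb T0.l8 T0.l8))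
  (TrL.c (I.pos (nat_lit 0) (nat_lit 0)) T5.l9
  (TrL.c (I.pos (nat_lit 0) (nat_lit 0)) T0.l9
  (TrL.c (I.pos (nat_lit 0) (nat_lit 0)) (xa T0.l10 (xb T0.l10 T0.l10))
  (TrL.c (I.pos (nat_lit 0) (nat_lit 0)) T5.l10
  (TrL.c (I.pos (nat_lit 0) (nat_lit 0)) T0.l11
  (TrL.c (I.pos (nat_lit 0) (nat_lit 0)) T5.l11
  TrL.n)))))))) (by decide +kernel)
theorem bx3_1 : BoxOK sI cl5 cl6 cl4 t5 t0 b3_1 :=
  box_mk (TrL.c (I.pos (nat_lit 0) (nat_lit 0)) (xa (xb (xa T5.l13 T5.l0) (xa T5.l13 T5.l13)) (xb T5.l0 T5.l0))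
  (TrL.c (I.pos (nat_lit 0) (nat_lit 0)) T0.l8
  (TrL.c (I.pos (nat_lit 0) (nat_lit 0)) T5.l9
  (TrL.c (I.pos (nat_lit 0) (nat_lit 0)) T0.l9
  (TrL.c (I.pos (nat_lit 0) (nat_lit 0)) (xa T0.l12 T0.l12)
  (TrL.c (I.pos (nat_lit 0) (nat_lit 0)) T5.l10
  (TrL.c (I.pos (nat_lit 0) (nat_lit 0)) T0.l11
  (TrL.c (I.pos (nat_lit 0) (nat_lit 0)) T5.l11
  TrL.n)))))))) (by decide +kernel)
theorem bx3_2 : BoxOK sI cl5 cl6 cl4 t5 t0 b3_2 :=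
  box_mk (TrL.c (I.pos (nat_lit 0) (nat_lit 0)) (xa (xb T5.l14 T5.l14) (xb T5.l14 T5.l16))
  (TrL.c (I.pos (nat_lit 0) (nat_lit 0)) T0.l8
  (TrL.c (I.pos (nat_lit 0) (nat_lit 0)) T5.l9
  (TrL.c (I.pos (nat_lit 0) (nat_lit 0)) T0.l9
  (TrL.c (I.pos (nat_lit 0) (nat_lit 0)) T0.l8
  (TrL.c (I.pos (nat_lit 0) (nat_lit 0)) T5.l10
  (TrL.c (I.pos (nat_lit 0) (nat_lit 0)) T0.l11
  (TrL.c (I.pos (nat_lit 0) (nat_lit 0)) T5.l11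
  TrL.n)))))))) (by decide +kernel)
theorem bx3_3 : BoxOK sI cl5 cl6 cl4 t5 t0 b3_3 :=
  box_mk (TrL.c (I.pos (nat_lit 0) (nat_lit 0)) (xa (xb (xb (xa T5.l15 T5.l15) (xa T5.l15 T5.l15)) (xa (xb T5.l15 (xs T5.l15 T5.l15)) (xb T5.l15 (xs T5.l15 T5.l15)))) (xb (xb (xa T5.l15 T5.l15) (xa T5.l15 T5.l15)) (xa (xb T5.l15 (xs T5.l15 T5.l15)) (xb (xs T5.l15 T5.l15) (xs T5.l15 (xa T5.l15 T5.l15))))))
  (TrL.c (I.pos (nat_lit 0) (nat_lit 0)) (xa (xb T0.l8 T0.l8) (xb T0.l8 T0.l8))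
  (TrL.c (I.pos (nat_lit 0) (nat_lit 0)) T5.l9
  (TrL.c (I.pos (nat_lit 0) (nat_lit 0)) T0.l9
  (TrL.c (I.pos (nat_lit 0) (nat_lit 0)) (xb T0.l14 T0.l14)
  (TrL.c (I.pos (nat_lit 0) (nat_lit 0)) T5.l10
  (TrL.c (I.pos (nat_lit 0) (nat_lit 0)) T0.l11
  (TrL.c (I.pos (nat_lit 0) (nat_lit 0)) T5.l11
  TrL.n)))))))) (by decide +kernel)
theorem bx3_4 : BoxOK sI cl5 cl6 cl4 t5 t0 b3_4 :=
  box_mk (TrL.c (I.pos (nat_lit 0) (nat_lit 0)) (xa (xb (xa T5.l16 T5.l16) (xa T5.l16 T5.l16)) (xa (xb T5.l16 T5.l16) (xb T5.l16 T5.l16)))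
  (TrL.c (I.pos (nat_lit 0) (nat_lit 0)) (xa T0.l8 T0.l8)
  (TrL.c (I.pos (nat_lit 0) (nat_lit 0)) T5.l9
  (TrL.c (I.pos (nat_lit 0) (nat_lit 0)) T0.l9
  (TrL.c (I.pos (nat_lit 0) (nat_lit 0)) (xa T0.l8 T0.l15)
  (TrL.c (I.pos (nat_lit 0) (nat_lit 0)) T5.l10
  (TrL.c (I.pos (nat_lit 0) (nat_lit 0)) T0.l11
  (TrL.c (I.pos (nat_lit 0) (nat_lit 0)) T5.l11
  TrL.n)))))))) (by decide +kernel)
theorem bx3_5 : BoxOK sI cl5 cl6 cl4 t5 t0 b3_5 :=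
  box_mk (TrL.c (I.pos (nat_lit 0) (nat_lit 0)) (xa (xb T5.l0 T5.l0) (xb T5.l0 T5.l0))
  (TrL.c (I.pos (nat_lit 0) (nat_lit 0)) T0.l8
  (TrL.c (I.pos (nat_lit 0) (nat_lit 0)) T5.l9
  (TrL.c (I.pos (nat_lit 0) (nat_lit 0)) T0.l9
  (TrL.c (I.pos (nat_lit 0) (nat_lit 0)) T0.l14
  (TrL.c (I.pos (nat_lit 0) (nat_lit 0)) T5.l10
  (TrL.c (I.pos (nat_lit 0) (nat_lit 0)) T0.l11
  (TrL.c (I.pos (nat_lit 0) (nat_lit 0)) T5.l11
  TrL.n)))))))) (by decide +kernel)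
theorem bx3_6 : BoxOK sI cl5 cl6 cl4 t5 t0 b3_6 :=
  box_mk (TrL.c (I.pos (nat_lit 0) (nat_lit 0)) (xa (xa T5.l17 T5.l16) T5.l16)
  (TrL.c (I.pos (nat_lit 0) (nat_lit 0)) (xa T0.l15 T0.l8)
  (TrL.c (I.pos (nat_lit 0) (nat_lit 0)) T5.l9
  (TrL.c (I.pos (nat_lit 0) (nat_lit 0)) T0.l11
  (TrL.c (I.pos (nat_lit 0) (nat_lit 0)) (xa T0.l8 T0.l8)
  (TrL.c (I.pos (nat_lit 0) (nat_lit 0)) T5.l9
  (TrL.c (I.pos (nat_lit 0) (nat_lit 0)) T0.l11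
  (TrL.c (I.pos (nat_lit 0) (nat_lit 0)) T5.l11
  TrL.n)))))))) (by decide +kernel)
theorem bx3_7 : BoxOK sI cl5 cl6 cl4 t5 t0 b3_7 :=
  box_mk (TrL.c (I.pos (nat_lit 0) (nat_lit 0)) T5.l0
  (TrL.c (I.pos (nat_lit 0) (nat_lit 0)) T0.l8
  (TrL.c (I.pos (nat_lit 0) (nat_lit 0)) T5.l9
  (TrL.c (I.pos (nat_lit 0) (nat_lit 0)) T0.l9
  (TrL.c (I.pos (nat_lit 0) (nat_lit 0)) T0.l16
  (TrL.c (I.pos (nat_lit 0) (nat_lit 0)) T5.l10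
  (TrL.c (I.pos (nat_lit 0) (nat_lit 0)) T0.l11
  (TrL.c (I.pos (nat_lit 0) (nat_lit 0)) T5.l11
  TrL.n)))))))) (by decide +kernel)
theorem bx3_8 : BoxOK sI cl5 cl6 cl4 t5 t0 b3_8 :=
  box_mk (TrL.c (I.pos (nat_lit 0) (nat_lit 0)) T5.l0
  (TrL.c (I.pos (nat_lit 0) (nat_lit 0)) T0.l8
  (TrL.c (I.pos (nat_lit 0) (nat_lit 0)) T5.l9
  (TrL.c (I.pos (nat_lit 0) (nat_lit 0)) T0.l9
  (TrL.c (I.pos (nat_lit 0) (nat_lit 0)) T0.l14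
  (TrL.c (I.pos (nat_lit 0) (nat_lit 0)) T5.l10
  (TrL.c (I.pos (nat_lit 0) (nat_lit 0)) T0.l11
  (TrL.c (I.pos (nat_lit 0) (nat_lit 0)) T5.l11
  TrL.n)))))))) (by decide +kernel)
theorem bx3_9 : BoxOK sI cl5 cl6 cl4 t5 t0 b3_9 :=
  box_mk (TrL.c (I.pos (nat_lit 0) (nat_lit 0)) (xa (xa T5.l18 T5.l18) (xa (xb T5.l18 T5.l18) (xb T5.l18 (xa T5.l18 T5.l18))))
  (TrL.c (I.pos (nat_lit 0) (nat_lit 0)) T0.l8
  (TrL.c (I.pos (nat_lit 0) (nat_lit 0)) T5.l9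
  (TrL.c (I.pos (nat_lit 0) (nat_lit 0)) T0.l9
  (TrL.c (I.pos (nat_lit 0) (nat_lit 0)) (xa T0.l17 T0.l17)
  (TrL.c (I.pos (nat_lit 0) (nat_lit 0)) T5.l10
  (TrL.c (I.pos (nat_lit 0) (nat_lit 0)) T0.l11
  (TrL.c (I.pos (nat_lit 0) (nat_lit 0)) T5.l11
  TrL.n)))))))) (by decide +kernel)
theorem bx3_10 : BoxOK sI cl5 cl6 cl4 t5 t0 b3_10 :=
  box_mk (TrL.c (I.pos (nat_lit 0) (nat_lit 0)) (xb (xa T5.l19 T5.l19) (xa T5.l19 T5.l19))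
  (TrL.c (I.pos (nat_lit 0) (nat_lit 0)) T0.l8
  (TrL.c (I.pos (nat_lit 0) (nat_lit 0)) T5.l9
  (TrL.c (I.pos (nat_lit 0) (nat_lit 0)) T0.l9
  (TrL.c (I.pos (nat_lit 0) (nat_lit 0)) (xb T0.l18 T0.l18)
  (TrL.c (I.pos (nat_lit 0) (nat_lit 0)) T5.l10
  (TrL.c (I.pos (nat_lit 0) (nat_lit 0)) T0.l11
  (TrL.c (I.pos (nat_lit 0) (nat_lit 0)) T5.l11
  TrL.n)))))))) (by decide +kernel)
theorem bx3_11 : BoxOK sI cl5 cl6 cl4 t5 t0 b3_11 :=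
  box_mk (TrL.c (I.pos (nat_lit 0) (nat_lit 0)) (xa (xb T5.l20 T5.l20) T5.l16)
  (TrL.c (I.pos (nat_lit 0) (nat_lit 0)) T0.l15
  (TrL.c (I.pos (nat_lit 0) (nat_lit 0)) T5.l9
  (TrL.c (I.pos (nat_lit 0) (nat_lit 0)) T0.l11
  (TrL.c (I.pos (nat_lit 0) (nat_lit 0)) T0.l8
  (TrL.c (I.pos (nat_lit 0) (nat_lit 0)) T5.l9
  (TrL.c (I.pos (nat_lit 0) (nat_lit 0)) T0.l11
  (TrL.c (I.pos (nat_lit 0) (nat_lit 0)) T5.l11
  TrL.n)))))))) (by decide +kernel)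
theorem bx3_12 : BoxOK sI cl5 cl6 cl4 t5 t0 b3_12 :=
  box_mk (TrL.c (I.pos (nat_lit 0) (nat_lit 0)) (xa T5.l0 (xb (xa T5.l0 T5.l0) (xa T5.l0 T5.l0)))
  (TrL.c (I.pos (nat_lit 0) (nat_lit 0)) T0.l8
  (TrL.c (I.pos (nat_lit 0) (nat_lit 0)) T5.l9
  (TrL.c (I.pos (nat_lit 0) (nat_lit 0)) T0.l9
  (TrL.c (I.pos (nat_lit 0) (nat_lit 0)) T0.l10
  (TrL.c (I.pos (nat_lit 0) (nat_lit 0)) T5.l10
  (TrL.c (I.pos (nat_lit 0) (nat_lit 0)) T0.l11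
  (TrL.c (I.pos (nat_lit 0) (nat_lit 0)) T5.l11
  TrL.n)))))))) (by decide +kernel)
theorem bx3_13 : BoxOK sI cl5 cl6 cl4 t5 t0 b3_13 :=
  box_mk (TrL.c (I.pos (nat_lit 0) (nat_lit 0)) T5.l18
  (TrL.c (I.pos (nat_lit 0) (nat_lit 0)) T0.l8
  (TrL.c (I.pos (nat_lit 0) (nat_lit 0)) T5.l9
  (TrL.c (I.pos (nat_lit 0) (nat_lit 0)) T0.l9
  (TrL.c (I.pos (nat_lit 0) (nat_lit 0)) T0.l17
  (TrL.c (I.pos (nat_lit 0) (nat_lit 0)) T5.l10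
  (TrL.c (I.pos (nat_lit 0) (nat_lit 0)) T0.l11
  (TrL.c (I.pos (nat_lit 0) (nat_lit 0)) T5.l11
  TrL.n)))))))) (by decide +kernel)
theorem bx3_14 : BoxOK sI cl5 cl6 cl4 t5 t0 b3_14 :=
  box_mk (TrL.c (I.pos (nat_lit 0) (nat_lit 0)) (xa T5.l21 T5.l16)
  (TrL.c (I.pos (nat_lit 0) (nat_lit 0)) T0.l8
  (TrL.c (I.pos (nat_lit 0) (nat_lit 0)) T5.l9
  (TrL.c (I.pos (nat_lit 0) (nat_lit 0)) T0.l9
  (TrL.c (I.pos (nat_lit 0) (nat_lit 0)) T0.l8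
  (TrL.c (I.pos (nat_lit 0) (nat_lit 0)) T5.l10
  (TrL.c (I.pos (nat_lit 0) (nat_lit 0)) T0.l11
  (TrL.c (I.pos (nat_lit 0) (nat_lit 0)) T5.l11
  TrL.n)))))))) (by decide +kernel)
theorem bx3_15 : BoxOK sI cl5 cl6 cl4 t5 t0 b3_15 :=
  box_mk (TrL.c (I.pos (nat_lit 0) (nat_lit 0)) (xa (xb (xa (xb T5.l0 T5.l0) (xb T5.l0 T5.l0)) (xa (xb T5.l0 (xs T5.l0 T5.l0)) (xb T5.l0 (xs T5.l0 T5.l0)))) (xb (xa (xb T5.l0 T5.l0) (xb T5.l0 T5.l0)) (xa (xb (xs T5.l0 T5.l0) (xs T5.l0 T5.l0)) (xs (xb T5.l0 T5.l0) (xb T5.l0 T5.l0)))))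
  (TrL.c (I.pos (nat_lit 0) (nat_lit 0)) (xa T0.l8 T0.l8)
  (TrL.c (I.pos (nat_lit 0) (nat_lit 0)) T5.l9
  (TrL.c (I.pos (nat_lit 0) (nat_lit 0)) T0.l9
  (TrL.c (I.pos (nat_lit 0) (nat_lit 0)) (xa T0.l10 T0.l10)
  (TrL.c (I.pos (nat_lit 0) (nat_lit 0)) T5.l10
  (TrL.c (I.pos (nat_lit 0) (nat_lit 0)) T0.l11
  (TrL.c (I.pos (nat_lit 0) (nat_lit 0)) T5.l11
  TrL.n)))))))) (by decide +kernel)
theorem bx3_16 : BoxOK sI cl5 cl6 cl4 t5 t0 b3_16 :=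
  box_mk (TrL.c (I.pos (nat_lit 0) (nat_lit 0)) (xa (xb T5.l3 (xa T5.l3 T5.l3)) T5.l3)
  (TrL.c (I.pos (nat_lit 0) (nat_lit 0)) (xa T0.l8 T0.l8)
  (TrL.c (I.pos (nat_lit 0) (nat_lit 0)) T5.l9
  (TrL.c (I.pos (nat_lit 0) (nat_lit 0)) T0.l3
  (TrL.c (I.pos (nat_lit 0) (nat_lit 0)) (xa T0.l10 T0.l10)
  (TrL.c (I.pos (nat_lit 0) (nat_lit 0)) T5.l1
  (TrL.c (I.pos (nat_lit 0) (nat_lit 0)) T0.l1
  (TrL.c (I.pos (nat_lit 0) (nat_lit 0)) T5.l11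
  TrL.n)))))))) (by decide +kernel)
theorem bx3_17 : BoxOK sI cl5 cl6 cl4 t5 t0 b3_17 :=
  box_mk (TrL.c (I.pos (nat_lit 0) (nat_lit 0)) (xa (xb (xa T5.l0 (xb T5.l0 T5.l0)) (xa T5.l0 (xb T5.l0 (xs T5.l0 T5.l0)))) (xb T5.l3 (xa T5.l3 T5.l3)))
  (TrL.c (I.pos (nat_lit 0) (nat_lit 0)) (xa T0.l8 T0.l8)
  (TrL.c (I.pos (nat_lit 0) (nat_lit 0)) T5.l9
  (TrL.c (I.pos (nat_lit 0) (nat_lit 0)) T0.l3
  (TrL.c (I.pos (nat_lit 0) (nat_lit 0)) (xa T0.l10 (xb T0.l10 T0.l10))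
  (TrL.c (I.pos (nat_lit 0) (nat_lit 0)) T5.l1
  (TrL.c (I.pos (nat_lit 0) (nat_lit 0)) T0.l1
  (TrL.c (I.pos (nat_lit 0) (nat_lit 0)) T5.l11
  TrL.n)))))))) (by decide +kernel)
theorem bx3_18 : BoxOK sI cl5 cl6 cl4 t5 t0 b3_18 :=
  box_mk (TrL.c (I.pos (nat_lit 0) (nat_lit 0)) (xa (xb T5.l0 T5.l0) (xb (xa T5.l0 T5.l3) (xa T5.l0 T5.l3)))
  (TrL.c (I.pos (nat_lit 0) (nat_lit 0)) T0.l8
  (TrL.c (I.pos (nat_lit 0) (nat_lit 0)) T5.l9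
  (TrL.c (I.pos (nat_lit 0) (nat_lit 0)) T0.l3
  (TrL.c (I.pos (nat_lit 0) (nat_lit 0)) (xa T0.l10 T0.l10)
  (TrL.c (I.pos (nat_lit 0) (nat_lit 0)) T5.l10
  (TrL.c (I.pos (nat_lit 0) (nat_lit 0)) T0.l1
  (TrL.c (I.pos (nat_lit 0) (nat_lit 0)) T5.l11
  TrL.n)))))))) (by decide +kernel)
theorem bx3_19 : BoxOK sI cl5 cl6 cl4 t5 t0 b3_19 :=
  box_mk (TrL.c (I.pos (nat_lit 0) (nat_lit 0)) (xb (xa T5.l15 (xa T5.l15 T5.l15)) (xa T5.l15 (xa T5.l15 T5.l15)))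
  (TrL.c (I.pos (nat_lit 0) (nat_lit 0)) (xb T0.l8 T0.l8)
  (TrL.c (I.pos (nat_lit 0) (nat_lit 0)) T5.l9
  (TrL.c (I.pos (nat_lit 0) (nat_lit 0)) T0.l9
  (TrL.c (I.pos (nat_lit 0) (nat_lit 0)) T0.l14
  (TrL.c (I.pos (nat_lit 0) (nat_lit 0)) T5.l10
  (TrL.c (I.pos (nat_lit 0) (nat_lit 0)) T0.l11
  (TrL.c (I.pos (nat_lit 0) (nat_lit 0)) T5.l11
  TrL.n)))))))) (by decide +kernel)
theorem bx3_20 : BoxOK sI cl5 cl6 cl4 t5 t0 b3_20 :=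
  box_mk (TrL.c (I.pos (nat_lit 0) (nat_lit 0)) (xa T5.l0 T5.l0)
  (TrL.c (I.pos (nat_lit 0) (nat_lit 0)) T0.l8
  (TrL.c (I.pos (nat_lit 0) (nat_lit 0)) T5.l9
  (TrL.c (I.pos (nat_lit 0) (nat_lit 0)) T0.l9
  (TrL.c (I.pos (nat_lit 0) (nat_lit 0)) T0.l10
  (TrL.c (I.pos (nat_lit 0) (nat_lit 0)) T5.l10
  (TrL.c (I.pos (nat_lit 0) (nat_lit 0)) T0.l11
  (TrL.c (I.pos (nat_lit 0) (nat_lit 0)) T5.l11
  TrL.n)))))))) (by decide +kernel)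
theorem bx3_21 : BoxOK sI cl5 cl6 cl4 t5 t0 b3_21 :=
  box_mk (TrL.c (I.pos (nat_lit 0) (nat_lit 0)) T5.l15
  (TrL.c (I.pos (nat_lit 0) (nat_lit 0)) T0.l8
  (TrL.c (I.pos (nat_lit 0) (nat_lit 0)) T5.l9
  (TrL.c (I.pos (nat_lit 0) (nat_lit 0)) T0.l9
  (TrL.c (I.pos (nat_lit 0) (nat_lit 0)) T0.l14
  (TrL.c (I.pos (nat_lit 0) (nat_lit 0)) T5.l10
  (TrL.c (I.pos (nat_lit 0) (nat_lit 0)) T0.l11
  (TrL.c (I.pos (nat_lit 0) (nat_lit 0)) T5.l11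
  TrL.n)))))))) (by decide +kernel)
theorem sv3 : StarV sI cl5 cl6 cl4 t5 t0 t3 :=
  (bt_n (bt_n (bt_n (bt_n (bt_b bx3_0) (bt_b bx3_1)) (bt_n (bt_b bx3_2) (bt_n (bt_b bx3_3) (bt_b bx3_4)))) (bt_n (bt_n (bt_b bx3_5) (bt_n (bt_b bx3_6) (bt_b bx3_7))) (bt_n (bt_b bx3_8) (bt_n (bt_b bx3_9) (bt_b bx3_10))))) (bt_n (bt_n (bt_n (bt_b bx3_11) (bt_b bx3_12)) (bt_n (bt_b bx3_13) (bt_n (bt_b bx3_14) (bt_b bx3_15)))) (bt_n (bt_n (bt_b bx3_16) (bt_n (bt_b bx3_17) (bt_b bx3_18))) (bt_n (bt_b bx3_19) (bt_n (bt_b bx3_20) (bt_b bx3_21))))))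
def S3 : StarD := StarD.mk cl5 cl6 cl4 5 0 t3
theorem bx4_0 : BoxOK sI cl6 cl4 cl5 t1 t3 b4_0 :=
  box_mk (TrL.c (I.pos (nat_lit 0) (nat_lit 0)) (xa (xb (xb (xa T1.l5 T1.l0) (xa T1.l5 T1.l0)) (xa (xb (xb T1.l5 T1.l5) (xb (xa T1.l0 T1.l0) (xs T1.l0 T1.l0))) (xb (xb T1.l0 T1.l0) (xa (xb T1.l0 T1.l0) (xs T1.l0 T1.l0))))) (xb (xa T1.l0 T1.l0) (xa (xb T1.l0 (xa (xs T1.l0 T1.l0) (xs T1.l0 T1.l0))) (xb T1.l0 (xs (xa T1.l0 T1.l0) (xa T1.l0 T1.l0))))))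
  (TrL.c (I.pos (nat_lit 0) (nat_lit 0)) (xa (xb T3.l1 T3.l1) (xb T3.l1 T3.l1))
  (TrL.c (I.pos (nat_lit 0) (nat_lit 89480386)) (xR (xR T1.l1 T1.l1) (xR T1.l1 (xb T1.l1 (xR T1.l1 T1.l1))))
  (TrL.c (I.pos (nat_lit 0) (nat_lit 41530880)) (xR T3.l2 (xR T3.l2 T3.l2))
  (TrL.c (I.pos (nat_lit 0) (nat_lit 0)) (xb (xa T3.l19 T3.l3) (xa T3.l3 T3.l3))
  (TrL.c (I.pos (nat_lit 0) (nat_lit 0)) T1.l2
  (TrL.c (I.mix (nat_lit 41527258) (nat_lit 41530880)) (xR (xR (xR T3.l4 T3.l4) T3.l4) (xR T3.l4 (xR T3.l4 T3.l4)))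
  (TrL.c (I.mix (nat_lit 41527258) (nat_lit 4274)) (xR (xR T1.l3 T1.l3) T1.l3)
  TrL.n)))))))) (by decide +kernel)
theorem bx4_1 : BoxOK sI cl6 cl4 cl5 t1 t3 b4_1 :=
  box_mk (TrL.c (I.pos (nat_lit 0) (nat_lit 0)) (xa (xb (xa (xb (xa (xb T1.l4 T1.l4) T1.l4) T1.l4) (xb T1.l4 T1.l4)) (xa T1.l4 T1.l4)) (xb (xa T1.l4 T1.l4) (xa T1.l4 T1.l4)))
  (TrL.c (I.pos (nat_lit 0) (nat_lit 0)) (xa T3.l1 T3.l1)
  (TrL.c (I.pos (nat_lit 0) (nat_lit 89480386)) (xR (xR T1.l1 (xR T1.l1 T1.l1)) (xR T1.l1 (xb (xa (xR T1.l1 T1.l1) T1.l1) T1.l1)))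
  (TrL.c (I.pos (nat_lit 0) (nat_lit 41530880)) (xR (xR T3.l4 T3.l2) (xR T3.l2 T3.l2))
  (TrL.c (I.pos (nat_lit 0) (nat_lit 0)) (xa T3.l5 T3.l5)
  (TrL.c (I.pos (nat_lit 0) (nat_lit 0)) T1.l2
  (TrL.c (I.mix (nat_lit 41527258) (nat_lit 41530880)) (xR (xR (xR T3.l4 T3.l4) T3.l4) (xR T3.l4 (xR T3.l4 T3.l4)))
  (TrL.c (I.mix (nat_lit 41527258) (nat_lit 4274)) (xR (xR T1.l3 T1.l3) T1.l3)
  TrL.n)))))))) (by decide +kernel)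
theorem bx4_2 : BoxOK sI cl6 cl4 cl5 t1 t3 b4_2 :=
  box_mk (TrL.c (I.pos (nat_lit 0) (nat_lit 0)) (xb (xa (xb (xa T1.l5 T1.l5) (xa T1.l5 T1.l5)) (xb (xa T1.l5 T1.l5) (xa T1.l5 T1.l5))) (xa (xb (xa T1.l5 T1.l5) (xa (xb T1.l5 T1.l5) (xb T1.l5 (xa T1.l5 T1.l5)))) (xb (xa T1.l5 (xb T1.l5 T1.l5)) (xa (xb T1.l5 (xs T1.l5 T1.l5)) (xb T1.l5 (xa T1.l5 T1.l5))))))
  (TrL.c (I.pos (nat_lit 0) (nat_lit 0)) (xb (xa T3.l1 T3.l1) (xa T3.l1 T3.l1))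
  (TrL.c (I.pos (nat_lit 0) (nat_lit 89480386)) (xR (xR T1.l1 T1.l1) (xR T1.l1 (xb T1.l1 (xR T1.l1 T1.l1))))
  (TrL.c (I.pos (nat_lit 0) (nat_lit 41530880)) (xR T3.l2 (xb T3.l2 (xR T3.l2 T3.l2)))
  (TrL.c (I.pos (nat_lit 0) (nat_lit 0)) (xb (xa T3.l19 T3.l19) (xa T3.l19 T3.l19))
  (TrL.c (I.pos (nat_lit 0) (nat_lit 0)) T1.l2
  (TrL.c (I.mix (nat_lit 41527258) (nat_lit 41530880)) (xR (xR (xb T3.l4 (xR T3.l4 T3.l4)) T3.l4) (xR T3.l4 (xb T3.l4 (xR T3.l4 T3.l4))))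
  (TrL.c (I.mix (nat_lit 41527258) (nat_lit 4274)) (xR (xb (xR T1.l3 T1.l3) (xR T1.l3 T1.l3)) T1.l3)
  TrL.n)))))))) (by decide +kernel)
theorem bx4_3 : BoxOK sI cl6 cl4 cl5 t1 t3 b4_3 :=
  box_mk (TrL.c (I.pos (nat_lit 0) (nat_lit 0)) (xa T3.l1 T3.l1)
  (TrL.c (I.pos (nat_lit 0) (nat_lit 0)) T1.l7
  (TrL.c (I.mix (nat_lit 41527258) (nat_lit 41530880)) (xR (xR (xR T3.l6 T3.l6) T3.l6) (xR (xR T3.l6 T3.l6) (xR T3.l2 T3.l2)))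
  (TrL.c (I.mix (nat_lit 41527258) (nat_lit 4274)) (xR (xb (xa T1.l6 T1.l6) (xa T1.l6 T1.l6)) T1.l6)
  TrL.n)))) (by decide +kernel)
theorem bx4_4 : BoxOK sI cl6 cl4 cl5 t1 t3 b4_4 :=
  box_mk (TrL.c (I.pos (nat_lit 0) (nat_lit 0)) (xb T3.l1 T3.l7)
  (TrL.c (I.pos (nat_lit 0) (nat_lit 0)) T1.l7
  (TrL.c (I.mix (nat_lit 41527258) (nat_lit 41530880)) (xR (xR (xb T3.l6 T3.l6) T3.l6) (xR T3.l6 T3.l6))
  (TrL.c (I.mix (nat_lit 41527258) (nat_lit 4274)) (xR (xb T1.l6 (xR T1.l6 T1.l6)) T1.l6)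
  TrL.n)))) (by decide +kernel)
theorem bx4_5 : BoxOK sI cl6 cl4 cl5 t1 t3 b4_5 :=
  box_mk (TrL.c (I.pos (nat_lit 0) (nat_lit 0)) (xb (xa T1.l8 T1.l4) T1.l4)
  (TrL.c (I.pos (nat_lit 0) (nat_lit 0)) T3.l7
  (TrL.c (I.pos (nat_lit 0) (nat_lit 89480386)) (xR (xR T1.l1 T1.l1) (xR T1.l1 (xR T1.l1 T1.l1)))
  (TrL.c (I.pos (nat_lit 0) (nat_lit 41530880)) T3.l4
  (TrL.c (I.pos (nat_lit 0) (nat_lit 0)) T3.l8
  (TrL.c (I.pos (nat_lit 0) (nat_lit 0)) T1.l2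
  (TrL.c (I.mix (nat_lit 41527258) (nat_lit 41530880)) T3.l4
  (TrL.c (I.mix (nat_lit 41527258) (nat_lit 4274)) T1.l12
  TrL.n)))))))) (by decide +kernel)
theorem bx4_6 : BoxOK sI cl6 cl4 cl5 t1 t3 b4_6 :=
  box_mk (TrL.c (I.pos (nat_lit 0) (nat_lit 0)) (xa (xb T1.l0 (xa T1.l0 T1.l0)) (xb (xa T1.l11 (xb T1.l11 T1.l11)) (xa T1.l11 (xb T1.l11 (xs T1.l11 T1.l11)))))
  (TrL.c (I.pos (nat_lit 0) (nat_lit 0)) (xb (xa T3.l1 T3.l1) (xa T3.l1 T3.l10))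
  (TrL.c (I.pos (nat_lit 0) (nat_lit 89480386)) (xR (xR T1.l1 (xR T1.l1 T1.l1)) (xR T1.l1 (xR T1.l1 (xb T1.l1 T1.l1))))
  (TrL.c (I.pos (nat_lit 0) (nat_lit 41530880)) (xR T3.l2 (xR T3.l2 T3.l2))
  (TrL.c (I.pos (nat_lit 0) (nat_lit 0)) (xb (xa T3.l3 (xb T3.l3 T3.l3)) (xa T3.l3 (xb T3.l3 T3.l3)))
  (TrL.c (I.pos (nat_lit 0) (nat_lit 0)) (xb T1.l2 T1.l2)
  (TrL.c (I.mix (nat_lit 41527258) (nat_lit 41530880)) (xR (xR (xR T3.l4 T3.l4) T3.l4) (xR T3.l4 (xR T3.l4 T3.l4)))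
  (TrL.c (I.mix (nat_lit 41527258) (nat_lit 4274)) (xR (xR T1.l3 T1.l3) T1.l3)
  TrL.n)))))))) (by decide +kernel)
theorem bx4_7 : BoxOK sI cl6 cl4 cl5 t1 t3 b4_7 :=
  box_mk (TrL.c (I.pos (nat_lit 0) (nat_lit 0)) (xb T1.l8 T1.l8)
  (TrL.c (I.pos (nat_lit 0) (nat_lit 0)) T3.l1
  (TrL.c (I.pos (nat_lit 0) (nat_lit 89480386)) (xR T1.l1 (xR T1.l1 T1.l1))
  (TrL.c (I.pos (nat_lit 0) (nat_lit 41530880)) T3.l4
  (TrL.c (I.pos (nat_lit 0) (nat_lit 0)) T3.l8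
  (TrL.c (I.pos (nat_lit 0) (nat_lit 0)) T1.l2
  (TrL.c (I.mix (nat_lit 41527258) (nat_lit 41530880)) (xR T3.l6 T3.l4)
  (TrL.c (I.mix (nat_lit 41527258) (nat_lit 4274)) T1.l12
  TrL.n)))))))) (by decide +kernel)
theorem bx4_8 : BoxOK sI cl6 cl4 cl5 t1 t3 b4_8 :=
  box_mk (TrL.c (I.pos (nat_lit 0) (nat_lit 0)) (xa T1.l0 T1.l0)
  (TrL.c (I.pos (nat_lit 0) (nat_lit 0)) T3.l1
  (TrL.c (I.pos (nat_lit 0) (nat_lit 89480386)) (xR (xR T1.l1 T1.l1) T1.l1)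
  (TrL.c (I.pos (nat_lit 0) (nat_lit 41530880)) (xR T3.l2 T3.l2)
  (TrL.c (I.pos (nat_lit 0) (nat_lit 0)) T3.l3
  (TrL.c (I.pos (nat_lit 0) (nat_lit 0)) T1.l2
  (TrL.c (I.mix (nat_lit 41527258) (nat_lit 41530880)) (xR (xR T3.l4 T3.l4) T3.l4)
  (TrL.c (I.mix (nat_lit 41527258) (nat_lit 4274)) (xR T1.l3 T1.l3)
  TrL.n)))))))) (by decide +kernel)
theorem bx4_9 : BoxOK sI cl6 cl4 cl5 t1 t3 b4_9 :=
  box_mk (TrL.c (I.pos (nat_lit 0) (nat_lit 0)) T1.l8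
  (TrL.c (I.pos (nat_lit 0) (nat_lit 0)) T3.l1
  (TrL.c (I.pos (nat_lit 0) (nat_lit 89480386)) (xR T1.l1 T1.l1)
  (TrL.c (I.pos (nat_lit 0) (nat_lit 41530880)) T3.l2
  (TrL.c (I.pos (nat_lit 0) (nat_lit 0)) T3.l8
  (TrL.c (I.pos (nat_lit 0) (nat_lit 0)) T1.l2
  (TrL.c (I.mix (nat_lit 41527258) (nat_lit 41530880)) T3.l4
  (TrL.c (I.mix (nat_lit 41527258) (nat_lit 4274)) T1.l3
  TrL.n)))))))) (by decide +kernel)
theorem bx4_10 : BoxOK sI cl6 cl4 cl5 t1 t3 b4_10 :=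
  box_mk (TrL.c (I.pos (nat_lit 0) (nat_lit 0)) (xa T1.l0 T1.l11)
  (TrL.c (I.pos (nat_lit 0) (nat_lit 0)) T3.l1
  (TrL.c (I.pos (nat_lit 0) (nat_lit 89480386)) (xR (xR T1.l1 T1.l12) (xR T1.l1 T1.l1))
  (TrL.c (I.pos (nat_lit 0) (nat_lit 41530880)) (xR T3.l2 T3.l2)
  (TrL.c (I.pos (nat_lit 0) (nat_lit 0)) (xb T3.l3 T3.l3)
  (TrL.c (I.pos (nat_lit 0) (nat_lit 0)) T1.l2
  (TrL.c (I.mix (nat_lit 41527258) (nat_lit 41530880)) (xR (xR T3.l4 T3.l4) T3.l4)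
  (TrL.c (I.mix (nat_lit 41527258) (nat_lit 4274)) (xR (xR T1.l3 T1.l3) T1.l3)
  TrL.n)))))))) (by decide +kernel)
theorem bx4_11 : BoxOK sI cl6 cl4 cl5 t1 t3 b4_11 :=
  box_mk (TrL.c (I.pos (nat_lit 0) (nat_lit 0)) T1.l8
  (TrL.c (I.pos (nat_lit 0) (nat_lit 0)) T3.l1
  (TrL.c (I.pos (nat_lit 0) (nat_lit 89480386)) (xR T1.l1 (xR T1.l1 T1.l1))
  (TrL.c (I.pos (nat_lit 0) (nat_lit 41530880)) T3.l4
  (TrL.c (I.pos (nat_lit 0) (nat_lit 0)) T3.l8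
  (TrL.c (I.pos (nat_lit 0) (nat_lit 0)) T1.l2
  (TrL.c (I.mix (nat_lit 41527258) (nat_lit 41530880)) T3.l6
  (TrL.c (I.mix (nat_lit 41527258) (nat_lit 4274)) T1.l6
  TrL.n)))))))) (by decide +kernel)
theorem bx4_12 : BoxOK sI cl6 cl4 cl5 t1 t3 b4_12 :=
  box_mk (TrL.c (I.pos (nat_lit 0) (nat_lit 0)) (xb (xa T1.l0 T1.l11) (xa T1.l0 T1.l11))
  (TrL.c (I.pos (nat_lit 0) (nat_lit 0)) T3.l10
  (TrL.c (I.pos (nat_lit 0) (nat_lit 89480386)) (xR (xR T1.l1 T1.l12) (xR T1.l1 T1.l1))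
  (TrL.c (I.pos (nat_lit 0) (nat_lit 41530880)) (xR T3.l11 (xR T3.l2 T3.l2))
  (TrL.c (I.pos (nat_lit 0) (nat_lit 0)) (xb (xa T3.l3 T3.l3) T3.l3)
  (TrL.c (I.pos (nat_lit 0) (nat_lit 0)) T1.l2
  (TrL.c (I.mix (nat_lit 41527258) (nat_lit 41530880)) (xR (xR (xR T3.l4 T3.l4) T3.l4) (xR T3.l4 T3.l9))
  (TrL.c (I.mix (nat_lit 41527258) (nat_lit 4274)) (xR (xR T1.l3 T1.l3) T1.l10)
  TrL.n)))))))) (by decide +kernel)
theorem bx4_13 : BoxOK sI cl6 cl4 cl5 t1 t3 b4_13 :=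
  box_mk (TrL.c (I.pos (nat_lit 0) (nat_lit 0)) T1.l8
  (TrL.c (I.pos (nat_lit 0) (nat_lit 0)) T3.l1
  (TrL.c (I.pos (nat_lit 0) (nat_lit 89480386)) (xR T1.l1 (xR T1.l1 T1.l1))
  (TrL.c (I.pos (nat_lit 0) (nat_lit 41530880)) T3.l4
  (TrL.c (I.pos (nat_lit 0) (nat_lit 0)) T3.l8
  (TrL.c (I.pos (nat_lit 0) (nat_lit 0)) T1.l2
  (TrL.c (I.mix (nat_lit 41527258) (nat_lit 41530880)) T3.l6
  (TrL.c (I.mix (nat_lit 41527258) (nat_lit 4274)) T1.l6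
  TrL.n)))))))) (by decide +kernel)
theorem bx4_14 : BoxOK sI cl6 cl4 cl5 t1 t3 b4_14 :=
  box_mk (TrL.c (I.pos (nat_lit 0) (nat_lit 0)) T1.l0
  (TrL.c (I.pos (nat_lit 0) (nat_lit 0)) T3.l1
  (TrL.c (I.pos (nat_lit 0) (nat_lit 89480386)) (xR (xR T1.l1 T1.l1) T1.l1)
  (TrL.c (I.pos (nat_lit 0) (nat_lit 41530880)) (xR T3.l2 T3.l2)
  (TrL.c (I.pos (nat_lit 0) (nat_lit 0)) T3.l3
  (TrL.c (I.pos (nat_lit 0) (nat_lit 0)) T1.l2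
  (TrL.c (I.mix (nat_lit 41527258) (nat_lit 41530880)) (xR (xR T3.l4 T3.l4) T3.l4)
  (TrL.c (I.mix (nat_lit 41527258) (nat_lit 4274)) (xR T1.l3 T1.l3)
  TrL.n)))))))) (by decide +kernel)
theorem bx4_15 : BoxOK sI cl6 cl4 cl5 t1 t3 b4_15 :=
  box_mk (TrL.c (I.pos (nat_lit 0) (nat_lit 0)) T1.l8
  (TrL.c (I.pos (nat_lit 0) (nat_lit 0)) T3.l1
  (TrL.c (I.pos (nat_lit 0) (nat_lit 89480386)) (xR T1.l1 T1.l1)
  (TrL.c (I.pos (nat_lit 0) (nat_lit 41530880)) T3.l2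
  (TrL.c (I.pos (nat_lit 0) (nat_lit 0)) T3.l8
  (TrL.c (I.pos (nat_lit 0) (nat_lit 0)) T1.l2
  (TrL.c (I.mix (nat_lit 41527258) (nat_lit 41530880)) T3.l4
  (TrL.c (I.mix (nat_lit 41527258) (nat_lit 4274)) T1.l3
  TrL.n)))))))) (by decide +kernel)
theorem bx4_16 : BoxOK sI cl6 cl4 cl5 t1 t3 b4_16 :=
  box_mk (TrL.c (I.pos (nat_lit 0) (nat_lit 0)) T1.l11
  (TrL.c (I.pos (nat_lit 0) (nat_lit 0)) T3.l1
  (TrL.c (I.pos (nat_lit 0) (nat_lit 89480386)) (xR (xR T1.l1 T1.l1) (xR T1.l1 T1.l1))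
  (TrL.c (I.pos (nat_lit 0) (nat_lit 41530880)) (xR T3.l2 T3.l2)
  (TrL.c (I.pos (nat_lit 0) (nat_lit 0)) T3.l3
  (TrL.c (I.pos (nat_lit 0) (nat_lit 0)) T1.l2
  (TrL.c (I.mix (nat_lit 41527258) (nat_lit 41530880)) (xR (xR T3.l4 T3.l4) T3.l4)
  (TrL.c (I.mix (nat_lit 41527258) (nat_lit 4274)) (xR T1.l3 T1.l3)
  TrL.n)))))))) (by decide +kernel)
theorem bx4_17 : BoxOK sI cl6 cl4 cl5 t1 t3 b4_17 :=
  box_mk (TrL.c (I.pos (nat_lit 0) (nat_lit 0)) T1.l8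
  (TrL.c (I.pos (nat_lit 0) (nat_lit 0)) T3.l1
  (TrL.c (I.pos (nat_lit 0) (nat_lit 89480386)) (xR T1.l1 T1.l1)
  (TrL.c (I.pos (nat_lit 0) (nat_lit 41530880)) T3.l4
  (TrL.c (I.pos (nat_lit 0) (nat_lit 0)) T3.l8
  (TrL.c (I.pos (nat_lit 0) (nat_lit 0)) T1.l2
  (TrL.c (I.mix (nat_lit 41527258) (nat_lit 41530880)) T3.l6
  (TrL.c (I.mix (nat_lit 41527258) (nat_lit 4274)) T1.l12
  TrL.n)))))))) (by decide +kernel)
theorem bx4_18 : BoxOK sI cl6 cl4 cl5 t1 t3 b4_18 :=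
  box_mk (TrL.c (I.pos (nat_lit 0) (nat_lit 0)) (xa (xb T1.l0 (xa T1.l0 T1.l0)) (xb T1.l0 (xa T1.l0 T1.l0)))
  (TrL.c (I.pos (nat_lit 0) (nat_lit 0)) (xb T3.l1 T3.l1)
  (TrL.c (I.pos (nat_lit 0) (nat_lit 89480386)) (xR (xR T1.l1 T1.l1) (xR T1.l1 T1.l1))
  (TrL.c (I.pos (nat_lit 0) (nat_lit 41530880)) (xR T3.l2 T3.l2)
  (TrL.c (I.pos (nat_lit 0) (nat_lit 0)) T3.l3
  (TrL.c (I.pos (nat_lit 0) (nat_lit 0)) T1.l2
  (TrL.c (I.mix (nat_lit 41527258) (nat_lit 41530880)) (xR T3.l4 T3.l4)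
  (TrL.c (I.mix (nat_lit 41527258) (nat_lit 4274)) (xR T1.l3 T1.l3)
  TrL.n)))))))) (by decide +kernel)
theorem bx4_19 : BoxOK sI cl6 cl4 cl5 t1 t3 b4_19 :=
  box_mk (TrL.c (I.pos (nat_lit 0) (nat_lit 0)) (xb T1.l8 T1.l4)
  (TrL.c (I.pos (nat_lit 0) (nat_lit 0)) T3.l1
  (TrL.c (I.pos (nat_lit 0) (nat_lit 89480386)) (xR (xR T1.l1 T1.l1) T1.l1)
  (TrL.c (I.pos (nat_lit 0) (nat_lit 41530880)) T3.l4
  (TrL.c (I.pos (nat_lit 0) (nat_lit 0)) T3.l8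
  (TrL.c (I.pos (nat_lit 0) (nat_lit 0)) T1.l2
  (TrL.c (I.mix (nat_lit 41527258) (nat_lit 41530880)) T3.l4
  (TrL.c (I.mix (nat_lit 41527258) (nat_lit 4274)) T1.l12
  TrL.n)))))))) (by decide +kernel)
theorem bx4_20 : BoxOK sI cl6 cl4 cl5 t1 t3 b4_20 :=
  box_mk (TrL.c (I.pos (nat_lit 0) (nat_lit 0)) (xa T1.l11 (xb T1.l11 T1.l11))
  (TrL.c (I.pos (nat_lit 0) (nat_lit 0)) T3.l10
  (TrL.c (I.pos (nat_lit 0) (nat_lit 89480386)) (xR (xR T1.l1 T1.l12) (xR T1.l1 T1.l1))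
  (TrL.c (I.pos (nat_lit 0) (nat_lit 41530880)) (xR T3.l11 T3.l2)
  (TrL.c (I.pos (nat_lit 0) (nat_lit 0)) (xb T3.l3 T3.l3)
  (TrL.c (I.pos (nat_lit 0) (nat_lit 0)) T1.l2
  (TrL.c (I.mix (nat_lit 41527258) (nat_lit 41530880)) (xR (xR T3.l4 T3.l4) (xR T3.l4 T3.l9))
  (TrL.c (I.mix (nat_lit 41527258) (nat_lit 4274)) (xR (xR T1.l3 T1.l3) T1.l10)
  TrL.n)))))))) (by decide +kernel)
theorem bx4_21 : BoxOK sI cl6 cl4 cl5 t1 t3 b4_21 :=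
  box_mk (TrL.c (I.pos (nat_lit 0) (nat_lit 0)) T1.l8
  (TrL.c (I.pos (nat_lit 0) (nat_lit 0)) T3.l1
  (TrL.c (I.pos (nat_lit 0) (nat_lit 89480386)) (xR T1.l1 (xR T1.l1 T1.l1))
  (TrL.c (I.pos (nat_lit 0) (nat_lit 41530880)) T3.l4
  (TrL.c (I.pos (nat_lit 0) (nat_lit 0)) T3.l8
  (TrL.c (I.pos (nat_lit 0) (nat_lit 0)) T1.l2
  (TrL.c (I.mix (nat_lit 41527258) (nat_lit 41530880)) T3.l6
  (TrL.c (I.mix (nat_lit 41527258) (nat_lit 4274)) T1.l12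
  TrL.n)))))))) (by decide +kernel)
theorem bx4_22 : BoxOK sI cl6 cl4 cl5 t1 t3 b4_22 :=
  box_mk (TrL.c (I.pos (nat_lit 0) (nat_lit 0)) T1.l0
  (TrL.c (I.pos (nat_lit 0) (nat_lit 0)) T3.l1
  (TrL.c (I.pos (nat_lit 0) (nat_lit 89480386)) (xR (xR T1.l1 T1.l1) (xR T1.l1 T1.l1))
  (TrL.c (I.pos (nat_lit 0) (nat_lit 41530880)) (xR T3.l2 T3.l2)
  (TrL.c (I.pos (nat_lit 0) (nat_lit 0)) T3.l3
  (TrL.c (I.pos (nat_lit 0) (nat_lit 0)) T1.l2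
  (TrL.c (I.mix (nat_lit 41527258) (nat_lit 41530880)) (xR (xR T3.l4 T3.l4) T3.l4)
  (TrL.c (I.mix (nat_lit 41527258) (nat_lit 4274)) (xR T1.l3 T1.l3)
  TrL.n)))))))) (by decide +kernel)
theorem bx4_23 : BoxOK sI cl6 cl4 cl5 t1 t3 b4_23 :=
  box_mk (TrL.c (I.pos (nat_lit 0) (nat_lit 0)) T1.l8
  (TrL.c (I.pos (nat_lit 0) (nat_lit 0)) T3.l1
  (TrL.c (I.pos (nat_lit 0) (nat_lit 89480386)) (xR T1.l1 (xR T1.l1 T1.l1))
  (TrL.c (I.pos (nat_lit 0) (nat_lit 41530880)) T3.l4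
  (TrL.c (I.pos (nat_lit 0) (nat_lit 0)) T3.l8
  (TrL.c (I.pos (nat_lit 0) (nat_lit 0)) T1.l2
  (TrL.c (I.mix (nat_lit 41527258) (nat_lit 41530880)) T3.l6
  (TrL.c (I.mix (nat_lit 41527258) (nat_lit 4274)) T1.l12
  TrL.n)))))))) (by decide +kernel)
theorem bx4_24 : BoxOK sI cl6 cl4 cl5 t1 t3 b4_24 :=
  box_mk (TrL.c (I.pos (nat_lit 0) (nat_lit 0)) T1.l4
  (TrL.c (I.pos (nat_lit 0) (nat_lit 0)) T3.l1
  (TrL.c (I.pos (nat_lit 0) (nat_lit 89480386)) (xR T1.l12 T1.l1)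
  (TrL.c (I.pos (nat_lit 0) (nat_lit 41530880)) T3.l2
  (TrL.c (I.pos (nat_lit 0) (nat_lit 0)) T3.l5
  (TrL.c (I.pos (nat_lit 0) (nat_lit 0)) T1.l2
  (TrL.c (I.mix (nat_lit 41527258) (nat_lit 41530880)) (xR T3.l4 T3.l4)
  (TrL.c (I.mix (nat_lit 41527258) (nat_lit 4274)) (xR T1.l3 T1.l3)
  TrL.n)))))))) (by decide +kernel)
theorem bx4_25 : BoxOK sI cl6 cl4 cl5 t1 t3 b4_25 :=
  box_mk (TrL.c (I.pos (nat_lit 0) (nat_lit 0)) T1.l8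
  (TrL.c (I.pos (nat_lit 0) (nat_lit 0)) T3.l1
  (TrL.c (I.pos (nat_lit 0) (nat_lit 89480386)) (xR T1.l1 T1.l1)
  (TrL.c (I.pos (nat_lit 0) (nat_lit 41530880)) T3.l2
  (TrL.c (I.pos (nat_lit 0) (nat_lit 0)) T3.l8
  (TrL.c (I.pos (nat_lit 0) (nat_lit 0)) T1.l2
  (TrL.c (I.mix (nat_lit 41527258) (nat_lit 41530880)) T3.l4
  (TrL.c (I.mix (nat_lit 41527258) (nat_lit 4274)) T1.l3
  TrL.n)))))))) (by decide +kernel)
theorem bx4_26 : BoxOK sI cl6 cl4 cl5 t1 t3 b4_26 :=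
  box_mk (TrL.c (I.pos (nat_lit 0) (nat_lit 0)) T1.l0
  (TrL.c (I.pos (nat_lit 0) (nat_lit 0)) T3.l1
  (TrL.c (I.pos (nat_lit 0) (nat_lit 89480386)) (xR T1.l12 T1.l1)
  (TrL.c (I.pos (nat_lit 0) (nat_lit 41530880)) (xR T3.l2 T3.l2)
  (TrL.c (I.pos (nat_lit 0) (nat_lit 0)) T3.l3
  (TrL.c (I.pos (nat_lit 0) (nat_lit 0)) T1.l2
  (TrL.c (I.mix (nat_lit 41527258) (nat_lit 41530880)) (xR (xR T3.l4 T3.l4) T3.l4)
  (TrL.c (I.mix (nat_lit 41527258) (nat_lit 4274)) (xR T1.l3 T1.l3)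
  TrL.n)))))))) (by decide +kernel)
theorem sv4 : StarV sI cl6 cl4 cl5 t1 t3 t4 :=
  (bt_n (bt_n (bt_n (bt_n (bt_b bx4_0) (bt_n (bt_b bx4_1) (bt_b bx4_2))) (bt_n (bt_b bx4_3) (bt_n (bt_b bx4_4) (bt_b bx4_5)))) (bt_n (bt_n (bt_b bx4_6) (bt_n (bt_b bx4_7) (bt_b bx4_8))) (bt_n (bt_n (bt_b bx4_9) (bt_b bx4_10)) (bt_n (bt_b bx4_11) (bt_b bx4_12))))) (bt_n (bt_n (bt_n (bt_b bx4_13) (bt_n (bt_b bx4_14) (bt_b bx4_15))) (bt_n (bt_n (bt_b bx4_16) (bt_b bx4_17)) (bt_n (bt_b bx4_18) (bt_b bx4_19)))) (bt_n (bt_n (bt_b bx4_20) (bt_n (bt_b bx4_21) (bt_b bx4_22))) (bt_n (bt_n (bt_b bx4_23) (bt_b bx4_24)) (bt_n (bt_b bx4_25) (bt_b bx4_26))))))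
def S4 : StarD := StarD.mk cl6 cl4 cl5 1 3 t4
theorem bx5_0 : BoxOK sI cl6 cl5 cl4 t3 t1 b5_0 :=
  box_mk (TrL.c (I.pos (nat_lit 0) (nat_lit 0)) (xa (xb (xa T3.l15 (xb T3.l0 T3.l0)) (xa (xb T3.l15 (xs T3.l0 (xa T3.l0 T3.l0))) (xb (xa T3.l0 T3.l0) (xs T3.l0 (xa T3.l0 T3.l0))))) (xb (xa (xb T3.l0 T3.l0) (xb T3.l0 T3.l0)) (xa (xb T3.l0 (xs T3.l0 (xa T3.l0 T3.l0))) (xb (xs T3.l0 T3.l0) (xs T3.l0 (xa T3.l0 T3.l0))))))
  (TrL.c (I.pos (nat_lit 0) (nat_lit 0)) (xa (xb T1.l9 T1.l9) (xb T1.l9 T1.l9))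
  (TrL.c (I.pos (nat_lit 0) (nat_lit 89480386)) (xR (xR T3.l9 T3.l9) (xR T3.l9 (xR T3.l9 (xa T3.l9 T3.l9))))
  (TrL.c (I.pos (nat_lit 0) (nat_lit 41530880)) (xR T1.l10 T1.l10)
  (TrL.c (I.pos (nat_lit 0) (nat_lit 0)) (xa T1.l11 T1.l11)
  (TrL.c (I.pos (nat_lit 0) (nat_lit 0)) T3.l10
  (TrL.c (I.mix (nat_lit 41527258) (nat_lit 41530880)) (xR (xR T1.l12 T1.l12) T1.l1)
  (TrL.c (I.mix (nat_lit 41527258) (nat_lit 4274)) (xR (xR T3.l11 T3.l11) T3.l11)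
  TrL.n)))))))) (by decide +kernel)
theorem bx5_1 : BoxOK sI cl6 cl5 cl4 t3 t1 b5_1 :=
  box_mk (TrL.c (I.pos (nat_lit 0) (nat_lit 0)) (xa (xb (xb T3.l12 T3.l12) (xb T3.l12 T3.l12)) (xb (xb T3.l0 T3.l12) (xa T3.l12 T3.l12)))
  (TrL.c (I.pos (nat_lit 0) (nat_lit 0)) (xb T1.l9 T1.l9)
  (TrL.c (I.pos (nat_lit 0) (nat_lit 89480386)) (xR (xR T3.l9 T3.l9) (xR T3.l9 T3.l9))
  (TrL.c (I.pos (nat_lit 0) (nat_lit 41530880)) (xR T1.l10 T1.l10)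
  (TrL.c (I.pos (nat_lit 0) (nat_lit 0)) (xb T1.l13 T1.l13)
  (TrL.c (I.pos (nat_lit 0) (nat_lit 0)) T3.l10
  (TrL.c (I.mix (nat_lit 41527258) (nat_lit 41530880)) (xR (xR T1.l12 T1.l12) T1.l1)
  (TrL.c (I.mix (nat_lit 41527258) (nat_lit 4274)) (xR T3.l11 T3.l11)
  TrL.n)))))))) (by decide +kernel)
theorem bx5_2 : BoxOK sI cl6 cl5 cl4 t3 t1 b5_2 :=
  box_mk (TrL.c (I.pos (nat_lit 0) (nat_lit 0)) T1.l9
  (TrL.c (I.pos (nat_lit 0) (nat_lit 0)) T3.l9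
  (TrL.c (I.mix (nat_lit 41527258) (nat_lit 41530880)) (xR (xR T1.l15 T1.l15) T1.l10)
  (TrL.c (I.mix (nat_lit 41527258) (nat_lit 4274)) (xR T3.l14 T3.l14)
  TrL.n)))) (by decide +kernel)
theorem bx5_3 : BoxOK sI cl6 cl5 cl4 t3 t1 b5_3 :=
  box_mk (TrL.c (I.pos (nat_lit 0) (nat_lit 0)) (xb (xa (xb T3.l15 (xa T3.l15 T3.l15)) (xb T3.l15 (xa T3.l15 T3.l15))) (xa (xb (xa T3.l15 T3.l15) (xa T3.l15 (xs T3.l15 T3.l15))) (xa (xb T3.l15 (xs T3.l15 T3.l15)) (xb T3.l15 (xs T3.l15 T3.l15)))))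
  (TrL.c (I.pos (nat_lit 0) (nat_lit 0)) (xb T1.l9 T1.l9)
  (TrL.c (I.pos (nat_lit 0) (nat_lit 89480386)) (xR (xR T3.l9 T3.l9) (xR T3.l9 (xR T3.l9 T3.l9)))
  (TrL.c (I.pos (nat_lit 0) (nat_lit 41530880)) (xR T1.l10 (xR T1.l10 T1.l10))
  (TrL.c (I.pos (nat_lit 0) (nat_lit 0)) T1.l16
  (TrL.c (I.pos (nat_lit 0) (nat_lit 0)) T3.l10
  (TrL.c (I.mix (nat_lit 41527258) (nat_lit 41530880)) (xR (xR (xR T1.l12 T1.l12) T1.l12) T1.l1)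
  (TrL.c (I.mix (nat_lit 41527258) (nat_lit 4274)) (xR (xR T3.l11 T3.l11) T3.l11)
  TrL.n)))))))) (by decide +kernel)
theorem bx5_4 : BoxOK sI cl6 cl5 cl4 t3 t1 b5_4 :=
  box_mk (TrL.c (I.pos (nat_lit 0) (nat_lit 0)) (xb T3.l16 T3.l16)
  (TrL.c (I.pos (nat_lit 0) (nat_lit 0)) T1.l9
  (TrL.c (I.pos (nat_lit 0) (nat_lit 89480386)) T3.l9
  (TrL.c (I.pos (nat_lit 0) (nat_lit 41530880)) T1.l10
  (TrL.c (I.pos (nat_lit 0) (nat_lit 0)) T1.l17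
  (TrL.c (I.pos (nat_lit 0) (nat_lit 0)) T3.l10
  (TrL.c (I.mix (nat_lit 41527258) (nat_lit 41530880)) (xR T1.l12 T1.l1)
  (TrL.c (I.mix (nat_lit 41527258) (nat_lit 4274)) T3.l11
  TrL.n)))))))) (by decide +kernel)
theorem bx5_5 : BoxOK sI cl6 cl5 cl4 t3 t1 b5_5 :=
  box_mk (TrL.c (I.pos (nat_lit 0) (nat_lit 0)) (xa T3.l12 T3.l20)
  (TrL.c (I.pos (nat_lit 0) (nat_lit 0)) T1.l9
  (TrL.c (I.pos (nat_lit 0) (nat_lit 89480386)) (xR (xR T3.l9 T3.l9) T3.l9)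
  (TrL.c (I.pos (nat_lit 0) (nat_lit 41530880)) T1.l10
  (TrL.c (I.pos (nat_lit 0) (nat_lit 0)) T1.l18
  (TrL.c (I.pos (nat_lit 0) (nat_lit 0)) T3.l10
  (TrL.c (I.mix (nat_lit 41527258) (nat_lit 41530880)) T1.l12
  (TrL.c (I.mix (nat_lit 41527258) (nat_lit 4274)) T3.l11
  TrL.n)))))))) (by decide +kernel)
theorem bx5_6 : BoxOK sI cl6 cl5 cl4 t3 t1 b5_6 :=
  box_mk (TrL.c (I.pos (nat_lit 0) (nat_lit 0)) T1.l14
  (TrL.c (I.pos (nat_lit 0) (nat_lit 0)) T3.l9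
  (TrL.c (I.mix (nat_lit 41527258) (nat_lit 41530880)) (xR T1.l15 T1.l1)
  (TrL.c (I.mix (nat_lit 41527258) (nat_lit 4274)) T3.l14
  TrL.n)))) (by decide +kernel)
theorem bx5_7 : BoxOK sI cl6 cl5 cl4 t3 t1 b5_7 :=
  box_mk (TrL.c (I.pos (nat_lit 0) (nat_lit 0)) T3.l0
  (TrL.c (I.pos (nat_lit 0) (nat_lit 0)) T1.l9
  (TrL.c (I.pos (nat_lit 0) (nat_lit 89480386)) (xR (xR T3.l9 T3.l9) T3.l9)
  (TrL.c (I.pos (nat_lit 0) (nat_lit 41530880)) (xR T1.l10 T1.l10)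
  (TrL.c (I.pos (nat_lit 0) (nat_lit 0)) T1.l16
  (TrL.c (I.pos (nat_lit 0) (nat_lit 0)) T3.l10
  (TrL.c (I.mix (nat_lit 41527258) (nat_lit 41530880)) (xR (xR T1.l12 T1.l12) T1.l12)
  (TrL.c (I.mix (nat_lit 41527258) (nat_lit 4274)) (xR T3.l11 T3.l11)
  TrL.n)))))))) (by decide +kernel)
theorem bx5_8 : BoxOK sI cl6 cl5 cl4 t3 t1 b5_8 :=
  box_mk (TrL.c (I.pos (nat_lit 0) (nat_lit 0)) (xa (xb T3.l0 T3.l15) T3.l0)
  (TrL.c (I.pos (nat_lit 0) (nat_lit 0)) T1.l9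
  (TrL.c (I.pos (nat_lit 0) (nat_lit 89480386)) (xR (xR T3.l9 T3.l9) (xR T3.l9 T3.l9))
  (TrL.c (I.pos (nat_lit 0) (nat_lit 41530880)) (xR T1.l10 T1.l10)
  (TrL.c (I.pos (nat_lit 0) (nat_lit 0)) T1.l16
  (TrL.c (I.pos (nat_lit 0) (nat_lit 0)) T3.l10
  (TrL.c (I.mix (nat_lit 41527258) (nat_lit 41530880)) (xR (xR T1.l12 T1.l12) T1.l12)
  (TrL.c (I.mix (nat_lit 41527258) (nat_lit 4274)) (xR T3.l11 T3.l11)
  TrL.n)))))))) (by decide +kernel)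
theorem bx5_9 : BoxOK sI cl6 cl5 cl4 t3 t1 b5_9 :=
  box_mk (TrL.c (I.pos (nat_lit 0) (nat_lit 0)) (xa (xb T3.l17 T3.l17) (xb T3.l17 (xa T3.l17 T3.l17)))
  (TrL.c (I.pos (nat_lit 0) (nat_lit 0)) T1.l9
  (TrL.c (I.pos (nat_lit 0) (nat_lit 89480386)) (xR T3.l9 T3.l9)
  (TrL.c (I.pos (nat_lit 0) (nat_lit 41530880)) T1.l10
  (TrL.c (I.pos (nat_lit 0) (nat_lit 0)) T1.l19
  (TrL.c (I.pos (nat_lit 0) (nat_lit 0)) T3.l10
  (TrL.c (I.mix (nat_lit 41527258) (nat_lit 41530880)) (xR T1.l12 T1.l12)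
  (TrL.c (I.mix (nat_lit 41527258) (nat_lit 4274)) T3.l11
  TrL.n)))))))) (by decide +kernel)
theorem bx5_10 : BoxOK sI cl6 cl5 cl4 t3 t1 b5_10 :=
  box_mk (TrL.c (I.pos (nat_lit 0) (nat_lit 0)) (xb (xa T3.l18 T3.l12) (xa T3.l18 T3.l18))
  (TrL.c (I.pos (nat_lit 0) (nat_lit 0)) T1.l9
  (TrL.c (I.pos (nat_lit 0) (nat_lit 89480386)) (xR (xR T3.l9 T3.l9) T3.l9)
  (TrL.c (I.pos (nat_lit 0) (nat_lit 41530880)) (xR T1.l3 T1.l10)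
  (TrL.c (I.pos (nat_lit 0) (nat_lit 0)) (xb T1.l20 T1.l20)
  (TrL.c (I.pos (nat_lit 0) (nat_lit 0)) T3.l10
  (TrL.c (I.mix (nat_lit 41527258) (nat_lit 41530880)) (xR T1.l12 T1.l1)
  (TrL.c (I.mix (nat_lit 41527258) (nat_lit 4274)) T3.l11
  TrL.n)))))))) (by decide +kernel)
theorem bx5_11 : BoxOK sI cl6 cl5 cl4 t3 t1 b5_11 :=
  box_mk (TrL.c (I.pos (nat_lit 0) (nat_lit 0)) T1.l9
  (TrL.c (I.pos (nat_lit 0) (nat_lit 0)) T3.l9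
  (TrL.c (I.mix (nat_lit 41527258) (nat_lit 41530880)) (xR (xR T1.l15 T1.l15) T1.l10)
  (TrL.c (I.mix (nat_lit 41527258) (nat_lit 4274)) (xR T3.l14 T3.l14)
  TrL.n)))) (by decide +kernel)
theorem bx5_12 : BoxOK sI cl6 cl5 cl4 t3 t1 b5_12 :=
  box_mk (TrL.c (I.pos (nat_lit 0) (nat_lit 0)) (xa (xb (xa T3.l15 T3.l15) (xa T3.l15 T3.l15)) (xb (xa T3.l15 T3.l15) (xa T3.l15 T3.l15)))
  (TrL.c (I.pos (nat_lit 0) (nat_lit 0)) T1.l9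
  (TrL.c (I.pos (nat_lit 0) (nat_lit 89480386)) (xR (xR T3.l9 T3.l9) (xR T3.l9 T3.l9))
  (TrL.c (I.pos (nat_lit 0) (nat_lit 41530880)) (xR T1.l10 T1.l10)
  (TrL.c (I.pos (nat_lit 0) (nat_lit 0)) T1.l16
  (TrL.c (I.pos (nat_lit 0) (nat_lit 0)) T3.l10
  (TrL.c (I.mix (nat_lit 41527258) (nat_lit 41530880)) (xR (xR T1.l12 T1.l12) T1.l1)
  (TrL.c (I.mix (nat_lit 41527258) (nat_lit 4274)) (xR T3.l11 T3.l11)
  TrL.n)))))))) (by decide +kernel)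
theorem bx5_13 : BoxOK sI cl6 cl5 cl4 t3 t1 b5_13 :=
  box_mk (TrL.c (I.pos (nat_lit 0) (nat_lit 0)) (xa T3.l0 (xb T3.l0 T3.l0))
  (TrL.c (I.pos (nat_lit 0) (nat_lit 0)) T1.l9
  (TrL.c (I.pos (nat_lit 0) (nat_lit 89480386)) (xR (xR T3.l9 T3.l9) (xR T3.l9 T3.l9))
  (TrL.c (I.pos (nat_lit 0) (nat_lit 41530880)) (xR T1.l3 T1.l10)
  (TrL.c (I.pos (nat_lit 0) (nat_lit 0)) T1.l11
  (TrL.c (I.pos (nat_lit 0) (nat_lit 0)) T3.l10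
  (TrL.c (I.mix (nat_lit 41527258) (nat_lit 41530880)) (xR (xR T1.l12 T1.l12) T1.l1)
  (TrL.c (I.mix (nat_lit 41527258) (nat_lit 4274)) (xR T3.l11 T3.l2)
  TrL.n)))))))) (by decide +kernel)
theorem bx5_14 : BoxOK sI cl6 cl5 cl4 t3 t1 b5_14 :=
  box_mk (TrL.c (I.pos (nat_lit 0) (nat_lit 0)) (xa T3.l3 T3.l3)
  (TrL.c (I.pos (nat_lit 0) (nat_lit 0)) T1.l2
  (TrL.c (I.pos (nat_lit 0) (nat_lit 89480386)) (xR (xR T3.l4 (xR T3.l9 T3.l9)) (xR T3.l9 T3.l9))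
  (TrL.c (I.pos (nat_lit 0) (nat_lit 41530880)) (xR T1.l3 (xR T1.l10 T1.l10))
  (TrL.c (I.pos (nat_lit 0) (nat_lit 0)) T1.l11
  (TrL.c (I.pos (nat_lit 0) (nat_lit 0)) T3.l10
  (TrL.c (I.mix (nat_lit 41527258) (nat_lit 41530880)) (xR (xR (xR T1.l12 T1.l12) T1.l12) T1.l1)
  (TrL.c (I.mix (nat_lit 41527258) (nat_lit 4274)) (xR T3.l11 T3.l2)
  TrL.n)))))))) (by decide +kernel)
theorem bx5_15 : BoxOK sI cl6 cl5 cl4 t3 t1 b5_15 :=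
  box_mk (TrL.c (I.pos (nat_lit 0) (nat_lit 0)) (xa (xb (xa T3.l0 T3.l0) (xa (xs T3.l0 T3.l0) (xs T3.l0 T3.l0))) (xb (xa T3.l0 T3.l0) (xa (xs T3.l0 T3.l0) (xs T3.l0 (xb T3.l0 T3.l0)))))
  (TrL.c (I.pos (nat_lit 0) (nat_lit 0)) (xa T1.l9 T1.l9)
  (TrL.c (I.pos (nat_lit 0) (nat_lit 89480386)) (xR (xR T3.l9 T3.l9) (xR T3.l9 (xR T3.l9 T3.l9)))
  (TrL.c (I.pos (nat_lit 0) (nat_lit 41530880)) (xR T1.l10 (xR T1.l10 T1.l10))
  (TrL.c (I.pos (nat_lit 0) (nat_lit 0)) T1.l11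
  (TrL.c (I.pos (nat_lit 0) (nat_lit 0)) T3.l10
  (TrL.c (I.mix (nat_lit 41527258) (nat_lit 41530880)) (xR (xR (xR T1.l12 T1.l12) T1.l12) T1.l1)
  (TrL.c (I.mix (nat_lit 41527258) (nat_lit 4274)) (xR T3.l11 T3.l11)
  TrL.n)))))))) (by decide +kernel)
theorem bx5_16 : BoxOK sI cl6 cl5 cl4 t3 t1 b5_16 :=
  box_mk (TrL.c (I.pos (nat_lit 0) (nat_lit 0)) (xa (xb (xa T3.l3 T3.l3) (xa (xb T3.l3 T3.l3) T3.l3)) (xb (xa T3.l3 (xb T3.l3 T3.l3)) (xa T3.l3 (xb T3.l3 (xs T3.l3 T3.l3)))))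
  (TrL.c (I.pos (nat_lit 0) (nat_lit 0)) (xa (xb T1.l9 T1.l9) (xb T1.l2 T1.l2))
  (TrL.c (I.pos (nat_lit 0) (nat_lit 89480386)) (xR (xR T3.l4 (xR T3.l9 T3.l9)) (xR (xR T3.l9 T3.l4) (xR T3.l4 (xa T3.l9 T3.l9))))
  (TrL.c (I.pos (nat_lit 0) (nat_lit 41530880)) (xR T1.l3 (xR T1.l10 T1.l10))
  (TrL.c (I.pos (nat_lit 0) (nat_lit 0)) (xb (xa T1.l11 (xb T1.l11 T1.l11)) (xa T1.l11 (xb T1.l11 T1.l11)))
  (TrL.c (I.pos (nat_lit 0) (nat_lit 0)) (xb T3.l1 T3.l10)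
  (TrL.c (I.mix (nat_lit 41527258) (nat_lit 41530880)) (xR (xR (xR T1.l12 T1.l12) T1.l12) (xR T1.l12 T1.l1))
  (TrL.c (I.mix (nat_lit 41527258) (nat_lit 4274)) (xR (xR T3.l11 T3.l11) (xR T3.l11 T3.l2))
  TrL.n)))))))) (by decide +kernel)
theorem bx5_17 : BoxOK sI cl6 cl5 cl4 t3 t1 b5_17 :=
  box_mk (TrL.c (I.pos (nat_lit 0) (nat_lit 0)) (xa T3.l3 T3.l3)
  (TrL.c (I.pos (nat_lit 0) (nat_lit 0)) T1.l2
  (TrL.c (I.pos (nat_lit 0) (nat_lit 89480386)) (xR (xR T3.l4 (xR T3.l9 T3.l9)) (xR (xR T3.l9 T3.l9) T3.l9))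
  (TrL.c (I.pos (nat_lit 0) (nat_lit 41530880)) (xR T1.l3 (xR T1.l10 T1.l10))
  (TrL.c (I.pos (nat_lit 0) (nat_lit 0)) T1.l0
  (TrL.c (I.pos (nat_lit 0) (nat_lit 0)) T3.l1
  (TrL.c (I.mix (nat_lit 41527258) (nat_lit 41530880)) (xR (xR (xR T1.l12 T1.l12) T1.l12) T1.l1)
  (TrL.c (I.mix (nat_lit 41527258) (nat_lit 4274)) (xR T3.l11 T3.l2)
  TrL.n)))))))) (by decide +kernel)
theorem bx5_18 : BoxOK sI cl6 cl5 cl4 t3 t1 b5_18 :=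
  box_mk (TrL.c (I.pos (nat_lit 0) (nat_lit 0)) (xa (xb (xa (xb T3.l0 T3.l0) T3.l3) (xa (xb T3.l0 T3.l0) T3.l3)) (xb (xa T3.l3 T3.l3) (xa T3.l3 (xb T3.l3 T3.l3))))
  (TrL.c (I.pos (nat_lit 0) (nat_lit 0)) (xa T1.l9 T1.l2)
  (TrL.c (I.pos (nat_lit 0) (nat_lit 89480386)) (xR (xR T3.l4 (xR T3.l9 T3.l9)) (xR (xR T3.l9 T3.l9) (xR T3.l4 (xa T3.l9 T3.l9))))
  (TrL.c (I.pos (nat_lit 0) (nat_lit 41530880)) (xR T1.l3 (xR T1.l10 T1.l10))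
  (TrL.c (I.pos (nat_lit 0) (nat_lit 0)) (xb (xa T1.l11 T1.l11) (xa T1.l11 T1.l11))
  (TrL.c (I.pos (nat_lit 0) (nat_lit 0)) T3.l10
  (TrL.c (I.mix (nat_lit 41527258) (nat_lit 41530880)) (xR (xR (xR T1.l12 T1.l12) T1.l12) T1.l1)
  (TrL.c (I.mix (nat_lit 41527258) (nat_lit 4274)) (xR (xR T3.l11 T3.l11) T3.l2)
  TrL.n)))))))) (by decide +kernel)
theorem bx5_19 : BoxOK sI cl6 cl5 cl4 t3 t1 b5_19 :=
  box_mk (TrL.c (I.pos (nat_lit 0) (nat_lit 0)) (xa T3.l0 (xb T3.l3 (xa T3.l0 T3.l0)))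
  (TrL.c (I.pos (nat_lit 0) (nat_lit 0)) T1.l9
  (TrL.c (I.pos (nat_lit 0) (nat_lit 89480386)) (xR (xR T3.l9 T3.l9) (xR T3.l9 T3.l9))
  (TrL.c (I.pos (nat_lit 0) (nat_lit 41530880)) (xR T1.l3 T1.l10)
  (TrL.c (I.pos (nat_lit 0) (nat_lit 0)) T1.l11
  (TrL.c (I.pos (nat_lit 0) (nat_lit 0)) T3.l10
  (TrL.c (I.mix (nat_lit 41527258) (nat_lit 41530880)) (xR (xR T1.l12 T1.l12) T1.l1)
  (TrL.c (I.mix (nat_lit 41527258) (nat_lit 4274)) (xR T3.l11 T3.l2)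
  TrL.n)))))))) (by decide +kernel)
theorem bx5_20 : BoxOK sI cl6 cl5 cl4 t3 t1 b5_20 :=
  box_mk (TrL.c (I.pos (nat_lit 0) (nat_lit 0)) (xa T3.l3 T3.l3)
  (TrL.c (I.pos (nat_lit 0) (nat_lit 0)) T1.l2
  (TrL.c (I.pos (nat_lit 0) (nat_lit 89480386)) (xR (xR T3.l4 (xR T3.l9 T3.l9)) (xR (xR T3.l9 T3.l9) T3.l9))
  (TrL.c (I.pos (nat_lit 0) (nat_lit 41530880)) (xR T1.l3 (xR T1.l10 T1.l10))
  (TrL.c (I.pos (nat_lit 0) (nat_lit 0)) (xb T1.l0 T1.l11)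
  (TrL.c (I.pos (nat_lit 0) (nat_lit 0)) T3.l1
  (TrL.c (I.mix (nat_lit 41527258) (nat_lit 41530880)) (xR (xR (xR T1.l12 T1.l12) T1.l12) T1.l1)
  (TrL.c (I.mix (nat_lit 41527258) (nat_lit 4274)) (xR T3.l11 T3.l2)
  TrL.n)))))))) (by decide +kernel)
theorem bx5_21 : BoxOK sI cl6 cl5 cl4 t3 t1 b5_21 :=
  box_mk (TrL.c (I.pos (nat_lit 0) (nat_lit 0)) T3.l3
  (TrL.c (I.pos (nat_lit 0) (nat_lit 0)) T1.l2
  (TrL.c (I.pos (nat_lit 0) (nat_lit 89480386)) (xR (xR T3.l4 T3.l9) (xR T3.l9 T3.l9))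
  (TrL.c (I.pos (nat_lit 0) (nat_lit 41530880)) (xR T1.l3 T1.l10)
  (TrL.c (I.pos (nat_lit 0) (nat_lit 0)) T1.l11
  (TrL.c (I.pos (nat_lit 0) (nat_lit 0)) T3.l1
  (TrL.c (I.mix (nat_lit 41527258) (nat_lit 41530880)) (xR (xR T1.l12 T1.l12) T1.l1)
  (TrL.c (I.mix (nat_lit 41527258) (nat_lit 4274)) (xR T3.l11 T3.l2)
  TrL.n)))))))) (by decide +kernel)
theorem sv5 : StarV sI cl6 cl5 cl4 t3 t1 t5 :=
  (bt_n (bt_n (bt_n (bt_n (bt_b bx5_0) (bt_b bx5_1)) (bt_n (bt_b bx5_2) (bt_n (bt_b bx5_3) (bt_b bx5_4)))) (bt_n (bt_n (bt_b bx5_5) (bt_n (bt_b bx5_6) (bt_b bx5_7))) (bt_n (bt_b bx5_8) (bt_n (bt_b bx5_9) (bt_b bx5_10))))) (bt_n (bt_n (bt_n (bt_b bx5_11) (bt_b bx5_12)) (bt_n (bt_b bx5_13) (bt_n (bt_b bx5_14) (bt_b bx5_15)))) (bt_n (bt_n (bt_b bx5_16) (bt_n (bt_b bx5_17) (bt_b bx5_18))) (bt_n (bt_b bx5_19) (bt_n (bt_b bx5_20) (bt_b bx5_21))))))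
def S5 : StarD := StarD.mk cl6 cl5 cl4 3 1 t5
def G : List StarD := [S0, S1, S2, S3, S4, S5]
theorem so0 : StarOK sI G S0 :=
  star_mk (by decide) (by decide) rfl rfl rfl rfl rfl rfl (rfl : _ = t2) (rfl : _ = t4)
  (st_mk (Pth.l (Pth.l (Pth.l (Pth.l Pth.z)))) (nat_lit 255443379) (nat_lit 257950386) (by decide +kernel))
  (st_mk (Pth.l (Pth.l (Pth.l (Pth.l Pth.z)))) (nat_lit 296243892) (nat_lit 299711056) (by decide +kernel))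
  (st_mk (Pth.l (Pth.l (Pth.l (Pth.l Pth.z)))) (nat_lit 344645421) (nat_lit 349504424) (by decide +kernel)) sv0
theorem so1 : StarOK sI G S1 :=
  star_mk (by decide) (by decide) rfl rfl rfl rfl rfl rfl (rfl : _ = t4) (rfl : _ = t2)
  (st_mk (Pth.l (Pth.l (Pth.l (Pth.l Pth.z)))) (nat_lit 198194181) (nat_lit 199938693) (by decide +kernel))
  (st_mk (Pth.l (Pth.l (Pth.l (Pth.l Pth.z)))) (nat_lit 238507078) (nat_lit 241113858) (by decide +kernel))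
  (st_mk (Pth.l (Pth.l (Pth.l (Pth.l Pth.z)))) (nat_lit 286529640) (nat_lit 290445006) (by decide +kernel)) sv1
theorem so2 : StarOK sI G S2 :=
  star_mk (by decide) (by decide) rfl rfl rfl rfl rfl rfl (rfl : _ = t0) (rfl : _ = t5)
  (st_mk (Pth.l (Pth.l (Pth.l (Pth.l Pth.z)))) (nat_lit 385656982) (nat_lit 388568551) (by decide +kernel))
  (st_mk (Pth.l (Pth.l (Pth.l (Pth.l Pth.z)))) (nat_lit 424965256) (nat_lit 428547767) (by decide +kernel))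
  (st_mk (Pth.l (Pth.l (Pth.l (Pth.l Pth.z)))) (nat_lit 470932274) (nat_lit 475402851) (by decide +kernel)) sv2
theorem so3 : StarOK sI G S3 :=
  star_mk (by decide) (by decide) rfl rfl rfl rfl rfl rfl (rfl : _ = t5) (rfl : _ = t0)
  (st_mk (Pth.l (Pth.l (Pth.l (Pth.l Pth.z)))) (nat_lit 194290220) (nat_lit 195418925) (by decide +kernel))
  (st_mk (Pth.l (Pth.l (Pth.l (Pth.l Pth.z)))) (nat_lit 232745995) (nat_lit 234395659) (by decide +kernel))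
  (st_mk (Pth.l (Pth.l (Pth.l (Pth.l Pth.z)))) (nat_lit 278023516) (nat_lit 280433504) (by decide +kernel)) sv3
theorem so4 : StarOK sI G S4 :=
  star_mk (by decide) (by decide) rfl rfl rfl rfl rfl rfl (rfl : _ = t1) (rfl : _ = t3)
  (st_mk (Pth.l (Pth.l (Pth.l (Pth.l Pth.z)))) (nat_lit 379862372) (nat_lit 381883903) (by decide +kernel))
  (st_mk (Pth.l (Pth.l (Pth.l (Pth.l Pth.z)))) (nat_lit 417868155) (nat_lit 420335336) (by decide +kernel))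
  (st_mk (Pth.l (Pth.l (Pth.l (Pth.l Pth.z)))) (nat_lit 462127636) (nat_lit 465176648) (by decide +kernel)) sv4
theorem so5 : StarOK sI G S5 :=
  star_mk (by decide) (by decide) rfl rfl rfl rfl rfl rfl (rfl : _ = t3) (rfl : _ = t1)
  (st_mk (Pth.l (Pth.l (Pth.l (Pth.l Pth.z)))) (nat_lit 246654768) (nat_lit 247781054) (by decide +kernel))
  (st_mk (Pth.l (Pth.l (Pth.l (Pth.l Pth.z)))) (nat_lit 284285765) (nat_lit 285797327) (by decide +kernel))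
  (st_mk (Pth.l (Pth.l (Pth.l (Pth.l Pth.z)))) (nat_lit 328235282) (nat_lit 330277046) (by decide +kernel)) sv5
theorem ok : GroupOK (nat_lit 209321984) (nat_lit 268435456) G := grp_mk (allS_c so0 (allS_c so1 (allS_c so2 (allS_c so3 (allS_c so4 (allS_c so5 allS_n))))))
theorem cov : GCov G cl4 cl5 cl6 := cov_mk
  ⟨0, by decide, rfl, rfl, rfl⟩ ⟨1, by decide, rfl, rfl, rfl⟩ ⟨2, by decide, rfl, rfl, rfl⟩ ⟨3, by decide, rfl, rfl, rfl⟩ ⟨4, by decide, rfl, rfl, rfl⟩ ⟨5, by decide, rfl, rfl, rfl⟩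
end Q123_3

namespace Q124_0
def sI : I := I.pos (nat_lit 0) (nat_lit 91291648)
def b0_0 : Bx := Bx.mk (St.mk (I.pos (nat_lit 154714112) (nat_lit 263569408)) (I.mix (nat_lit 34537472) (nat_lit 79380480)) (I.mix (nat_lit 163577856) (nat_lit 78430208)) (I.pos (nat_lit 236093440) (nat_lit 417841152)) (I.mix (nat_lit 119177216) (nat_lit 94388224)) (I.mix (nat_lit 136626176) (nat_lit 118849536)) (I.mix (nat_lit 223526912) (nat_lit 228524032)))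
  false (nat_lit 0)
def b0_1 : Bx := Bx.mk (St.mk (I.pos (nat_lit 26443776) (nat_lit 66306048)) (I.mix (nat_lit 16072704) (nat_lit 52674560)) (I.neg (nat_lit 9863168) (nat_lit 46104576)) (I.pos (nat_lit 144113664) (nat_lit 162791424)) (I.mix (nat_lit 39550976) (nat_lit 60538880)) (I.mix (nat_lit 66863104) (nat_lit 40075264)) (I.mix (nat_lit 37355520) (nat_lit 24690688)))
  false (nat_lit 0)
def b0_2 : Bx := Bx.mk (St.mk (I.pos (nat_lit 56934400) (nat_lit 98566144)) (I.mix (nat_lit 68780032) (nat_lit 17137664)) (I.neg (nat_lit 26066944) (nat_lit 80232448)) (I.pos (nat_lit 153419776) (nat_lit 184270848)) (I.mix (nat_lit 95207424) (nat_lit 40861696)) (I.mix (nat_lit 54722560) (nat_lit 103596032)) (I.mix (nat_lit 41205760) (nat_lit 65421312)))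
  false (nat_lit 0)
def b0_3 : Bx := Bx.mk (St.mk (I.neg (nat_lit 26427392) (nat_lit 66027520)) (I.mix (nat_lit 52690944) (nat_lit 15581184)) (I.neg (nat_lit 9879552) (nat_lit 45891584)) (I.pos (nat_lit 144113664) (nat_lit 162660352)) (I.mix (nat_lit 60538880) (nat_lit 39632896)) (I.mix (nat_lit 40288256) (nat_lit 66863104)) (I.mix (nat_lit 37355520) (nat_lit 24821760)))
  true (nat_lit 0)
def b0_4 : Bx := Bx.mk (St.mk (I.pos (nat_lit 40747008) (nat_lit 64339968)) (I.mix (nat_lit 12894208) (nat_lit 21659648)) (I.neg (nat_lit 23363584) (nat_lit 44531712)) (I.pos (nat_lit 146948096) (nat_lit 162103296)) (I.mix (nat_lit 40517632) (nat_lit 28278784)) (I.mix (nat_lit 32473088) (nat_lit 41697280)) (I.mix (nat_lit 18382848) (nat_lit 25509888)))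
  false (nat_lit 0)
def b0_5 : Bx := Bx.mk (St.mk (I.pos (nat_lit 66895872) (nat_lit 148160512)) (I.neg (nat_lit 131072) (nat_lit 72269824)) (I.neg (nat_lit 18644992) (nat_lit 86491136)) (I.pos (nat_lit 162660352) (nat_lit 231653376)) (I.mix (nat_lit 96616448) (nat_lit 70926336)) (I.mix (nat_lit 64618496) (nat_lit 102678528)) (I.mix (nat_lit 56803328) (nat_lit 90669056)))
  false (nat_lit 0)
def b0_6 : Bx := Bx.mk (St.mk (I.mix (nat_lit 43712512) (nat_lit 9175040)) (I.mix (nat_lit 47136768) (nat_lit 13434880)) (I.neg (nat_lit 14057472) (nat_lit 22626304)) (I.pos (nat_lit 142196736) (nat_lit 154173440)) (I.mix (nat_lit 40943616) (nat_lit 47480832)) (I.mix (nat_lit 41156608) (nat_lit 61259776)) (I.mix (nat_lit 11436032) (nat_lit 10452992)))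
  true (nat_lit 0)
def b0_7 : Bx := Bx.mk (St.mk (I.mix (nat_lit 9158656) (nat_lit 43712512)) (I.mix (nat_lit 13434880) (nat_lit 47136768)) (I.neg (nat_lit 14041088) (nat_lit 22626304)) (I.pos (nat_lit 142196736) (nat_lit 154173440)) (I.mix (nat_lit 47480832) (nat_lit 40943616)) (I.mix (nat_lit 61259776) (nat_lit 41156608)) (I.mix (nat_lit 11436032) (nat_lit 10452992)))
  false (nat_lit 0)
def b0_8 : Bx := Bx.mk (St.mk (I.pos (nat_lit 119422976) (nat_lit 208322560)) (I.mix (nat_lit 45596672) (nat_lit 81870848)) (I.mix (nat_lit 68747264) (nat_lit 75874304)) (I.pos (nat_lit 199000064) (nat_lit 314867712)) (I.mix (nat_lit 154779648) (nat_lit 75186176)) (I.mix (nat_lit 188579840) (nat_lit 116785152)) (I.mix (nat_lit 185860096) (nat_lit 124518400)))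
  false (nat_lit 0)
def t0 : BTr := (BTr.n (BTr.n (BTr.n (BTr.b b0_0) (BTr.b b0_1)) (BTr.n (BTr.b b0_2) (BTr.b b0_3))) (BTr.n (BTr.n (BTr.b b0_4) (BTr.b b0_5)) (BTr.n (BTr.b b0_6) (BTr.n (BTr.b b0_7) (BTr.b b0_8)))))
namespace T0
def l0 : Tr := Tr.L (Pth.l (Pth.l (Pth.l Pth.z)))
def l1 : Tr := Tr.L (Pth.l (Pth.l (Pth.r Pth.z)))
def l2 : Tr := Tr.L (Pth.l (Pth.r (Pth.l Pth.z)))
def l3 : Tr := Tr.L (Pth.l (Pth.r (Pth.r Pth.z)))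
def l4 : Tr := Tr.L (Pth.r (Pth.l (Pth.l Pth.z)))
def l5 : Tr := Tr.L (Pth.r (Pth.l (Pth.r Pth.z)))
def l6 : Tr := Tr.L (Pth.r (Pth.r (Pth.l Pth.z)))
def l7 : Tr := Tr.L (Pth.r (Pth.r (Pth.r (Pth.l Pth.z))))
def l8 : Tr := Tr.L (Pth.r (Pth.r (Pth.r (Pth.r Pth.z))))
end T0
def b1_0 : Bx := Bx.mk (St.mk (I.pos (nat_lit 154632192) (nat_lit 264994816)) (I.mix (nat_lit 33832960) (nat_lit 66355200)) (I.mix (nat_lit 103956480) (nat_lit 90324992)) (I.pos (nat_lit 134971392) (nat_lit 338722816)) (I.mix (nat_lit 117194752) (nat_lit 86032384)) (I.mix (nat_lit 111280128) (nat_lit 106643456)) (I.mix (nat_lit 181485568) (nat_lit 200179712)))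
  false (nat_lit 0)
def b1_1 : Bx := Bx.mk (St.mk (I.mix (nat_lit 24788992) (nat_lit 119357440)) (I.mix (nat_lit 12926976) (nat_lit 38273024)) (I.mix (nat_lit 23609344) (nat_lit 16875520)) (I.pos (nat_lit 39813120) (nat_lit 115671040)) (I.mix (nat_lit 42270720) (nat_lit 38944768)) (I.mix (nat_lit 41058304) (nat_lit 32014336)) (I.mix (nat_lit 31850496) (nat_lit 23265280)))
  false (nat_lit 0)
def b1_2 : Bx := Bx.mk (St.mk (I.pos (nat_lit 94420992) (nat_lit 142868480)) (I.mix (nat_lit 66437120) (nat_lit 15450112)) (I.mix (nat_lit 71270400) (nat_lit 622592)) (I.pos (nat_lit 79757312) (nat_lit 141180928)) (I.mix (nat_lit 110215168) (nat_lit 40763392)) (I.mix (nat_lit 72204288) (nat_lit 122765312)) (I.mix (nat_lit 54624256) (nat_lit 96780288)))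
  false (nat_lit 0)
def b1_3 : Bx := Bx.mk (St.mk (I.mix (nat_lit 34177024) (nat_lit 70893568)) (I.mix (nat_lit 33243136) (nat_lit 5275648)) (I.mix (nat_lit 22216704) (nat_lit 180224)) (I.pos (nat_lit 41271296) (nat_lit 82296832)) (I.mix (nat_lit 39354368) (nat_lit 19955712)) (I.mix (nat_lit 26542080) (nat_lit 38699008)) (I.mix (nat_lit 12058624) (nat_lit 16236544)))
  false (nat_lit 0)
def b1_4 : Bx := Bx.mk (St.mk (I.mix (nat_lit 43433984) (nat_lit 52166656)) (I.mix (nat_lit 7241728) (nat_lit 8388608)) (I.neg (nat_lit 3096576) (nat_lit 11550720)) (I.pos (nat_lit 43401216) (nat_lit 74383360)) (I.mix (nat_lit 13172736) (nat_lit 9650176)) (I.mix (nat_lit 9256960) (nat_lit 9977856)) (I.mix (nat_lit 3309568) (nat_lit 3063808)))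
  false (nat_lit 0)
def b1_5 : Bx := Bx.mk (St.mk (I.pos (nat_lit 88702976) (nat_lit 112771072)) (I.mix (nat_lit 11501568) (nat_lit 10092544)) (I.neg (nat_lit 2588672) (nat_lit 22544384)) (I.pos (nat_lit 76693504) (nat_lit 113344512)) (I.mix (nat_lit 30441472) (nat_lit 21774336)) (I.mix (nat_lit 25264128) (nat_lit 28442624)) (I.mix (nat_lit 19709952) (nat_lit 23396352)))
  false (nat_lit 0)
def b1_6 : Bx := Bx.mk (St.mk (I.pos (nat_lit 100335616) (nat_lit 168411136)) (I.neg (nat_lit 2392064) (nat_lit 62767104)) (I.neg (nat_lit 9388032) (nat_lit 68239360)) (I.pos (nat_lit 96370688) (nat_lit 173932544)) (I.mix (nat_lit 87310336) (nat_lit 50495488)) (I.mix (nat_lit 56983552) (nat_lit 76414976)) (I.mix (nat_lit 49938432) (nat_lit 71974912)))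
  false (nat_lit 0)
def b1_7 : Bx := Bx.mk (St.mk (I.mix (nat_lit 25968640) (nat_lit 84623360)) (I.mix (nat_lit 36667392) (nat_lit 3588096)) (I.neg (nat_lit 131072) (nat_lit 26836992)) (I.pos (nat_lit 41189376) (nat_lit 90669056)) (I.mix (nat_lit 45154304) (nat_lit 32980992)) (I.mix (nat_lit 33751040) (nat_lit 44007424)) (I.mix (nat_lit 19415040) (nat_lit 23298048)))
  false (nat_lit 0)
def b1_8 : Bx := Bx.mk (St.mk (I.pos (nat_lit 146178048) (nat_lit 219201536)) (I.mix (nat_lit 39419904) (nat_lit 76906496)) (I.mix (nat_lit 48758784) (nat_lit 101515264)) (I.pos (nat_lit 129171456) (nat_lit 246235136)) (I.mix (nat_lit 177405952) (nat_lit 67977216)) (I.mix (nat_lit 224215040) (nat_lit 128991232)) (I.mix (nat_lit 253968384) (nat_lit 142852096)))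
  false (nat_lit 0)
def b1_9 : Bx := Bx.mk (St.mk (I.mix (nat_lit 39059456) (nat_lit 112803840)) (I.mix (nat_lit 9469952) (nat_lit 40599552)) (I.mix (nat_lit 13189120) (nat_lit 20234240)) (I.pos (nat_lit 39747584) (nat_lit 108937216)) (I.mix (nat_lit 58064896) (nat_lit 36503552)) (I.mix (nat_lit 65699840) (nat_lit 49135616)) (I.mix (nat_lit 35586048) (nat_lit 27787264)))
  false (nat_lit 0)
def b1_10 : Bx := Bx.mk (St.mk (I.pos (nat_lit 146784256) (nat_lit 165232640)) (I.neg (nat_lit 13434880) (nat_lit 35930112)) (I.neg (nat_lit 14745600) (nat_lit 43188224)) (I.pos (nat_lit 131694592) (nat_lit 169967616)) (I.mix (nat_lit 22560768) (nat_lit 9338880)) (I.mix (nat_lit 7929856) (nat_lit 11026432)) (I.mix (nat_lit 8110080) (nat_lit 11468800)))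
  false (nat_lit 0)
def b1_11 : Bx := Bx.mk (St.mk (I.mix (nat_lit 42123264) (nat_lit 92848128)) (I.mix (nat_lit 13336576) (nat_lit 4063232)) (I.neg (nat_lit 147456) (nat_lit 13647872)) (I.pos (nat_lit 42385408) (nat_lit 91947008)) (I.mix (nat_lit 8716288) (nat_lit 10862592)) (I.mix (nat_lit 8486912) (nat_lit 9502720)) (I.mix (nat_lit 3194880) (nat_lit 3866624)))
  false (nat_lit 0)
def t1 : BTr := (BTr.n (BTr.n (BTr.n (BTr.b b1_0) (BTr.n (BTr.b b1_1) (BTr.b b1_2))) (BTr.n (BTr.b b1_3) (BTr.n (BTr.b b1_4) (BTr.b b1_5)))) (BTr.n (BTr.n (BTr.b b1_6) (BTr.n (BTr.b b1_7) (BTr.b b1_8))) (BTr.n (BTr.b b1_9) (BTr.n (BTr.b b1_10) (BTr.b b1_11)))))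
namespace T1
def l0 : Tr := Tr.L (Pth.l (Pth.l (Pth.l Pth.z)))
def l1 : Tr := Tr.L (Pth.l (Pth.l (Pth.r (Pth.l Pth.z))))
def l2 : Tr := Tr.L (Pth.l (Pth.l (Pth.r (Pth.r Pth.z))))
def l3 : Tr := Tr.L (Pth.l (Pth.r (Pth.l Pth.z)))
def l4 : Tr := Tr.L (Pth.l (Pth.r (Pth.r (Pth.l Pth.z))))
def l5 : Tr := Tr.L (Pth.l (Pth.r (Pth.r (Pth.r Pth.z))))
def l6 : Tr := Tr.L (Pth.r (Pth.l (Pth.l Pth.z)))
def l7 : Tr := Tr.L (Pth.r (Pth.l (Pth.r (Pth.l Pth.z))))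
def l8 : Tr := Tr.L (Pth.r (Pth.l (Pth.r (Pth.r Pth.z))))
def l9 : Tr := Tr.L (Pth.r (Pth.r (Pth.l Pth.z)))
def l10 : Tr := Tr.L (Pth.r (Pth.r (Pth.r (Pth.l Pth.z))))
def l11 : Tr := Tr.L (Pth.r (Pth.r (Pth.r (Pth.r Pth.z))))
end T1
def b2_0 : Bx := Bx.mk (St.mk (I.pos (nat_lit 151175168) (nat_lit 274644992)) (I.mix (nat_lit 13582336) (nat_lit 97075200)) (I.mix (nat_lit 158744576) (nat_lit 89358336)) (I.pos (nat_lit 363610112) (nat_lit 564690944)) (I.mix (nat_lit 107577344) (nat_lit 104972288)) (I.mix (nat_lit 137904128) (nat_lit 100696064)) (I.mix (nat_lit 218316800) (nat_lit 167821312)))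
  false (nat_lit 18945638)
def b2_1 : Bx := Bx.mk (St.mk (I.mix (nat_lit 58425344) (nat_lit 3014656)) (I.mix (nat_lit 4243456) (nat_lit 91521024)) (I.neg (nat_lit 53690368) (nat_lit 79708160)) (I.pos (nat_lit 266747904) (nat_lit 291471360)) (I.mix (nat_lit 53035008) (nat_lit 101941248)) (I.mix (nat_lit 111788032) (nat_lit 72531968)) (I.mix (nat_lit 40484864) (nat_lit 35045376)))
  true (nat_lit 0)
def b2_2 : Bx := Bx.mk (St.mk (I.mix (nat_lit 10043392) (nat_lit 58785792)) (I.mix (nat_lit 91521024) (nat_lit 10682368)) (I.neg (nat_lit 53690368) (nat_lit 79708160)) (I.pos (nat_lit 266747904) (nat_lit 291471360)) (I.mix (nat_lit 101941248) (nat_lit 53035008)) (I.mix (nat_lit 72531968) (nat_lit 111788032)) (I.mix (nat_lit 40484864) (nat_lit 35061760)))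
  false (nat_lit 0)
def b2_3 : Bx := Bx.mk (St.mk (I.pos (nat_lit 22478848) (nat_lit 124370944)) (I.mix (nat_lit 93356032) (nat_lit 524288)) (I.neg (nat_lit 9404416) (nat_lit 95911936)) (I.pos (nat_lit 266059776) (nat_lit 335446016)) (I.mix (nat_lit 105267200) (nat_lit 92749824)) (I.mix (nat_lit 81920000) (nat_lit 128352256)) (I.mix (nat_lit 85114880) (nat_lit 109772800)))
  false (nat_lit 0)
def b2_4 : Bx := Bx.mk (St.mk (I.pos (nat_lit 90603520) (nat_lit 198262784)) (I.mix (nat_lit 46792704) (nat_lit 106135552)) (I.mix (nat_lit 55246848) (nat_lit 92258304)) (I.pos (nat_lit 300302336) (nat_lit 433864704)) (I.mix (nat_lit 166723584) (nat_lit 89341952)) (I.mix (nat_lit 226033664) (nat_lit 131186688)) (I.mix (nat_lit 218513408) (nat_lit 151109632)))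
  false (nat_lit 27137196)
def b2_5 : Bx := Bx.mk (St.mk (I.neg (nat_lit 22478848) (nat_lit 126042112)) (I.mix (nat_lit 524288) (nat_lit 93356032)) (I.neg (nat_lit 7929856) (nat_lit 95911936)) (I.pos (nat_lit 266059776) (nat_lit 336527360)) (I.mix (nat_lit 92749824) (nat_lit 105332736)) (I.mix (nat_lit 128368640) (nat_lit 81936384)) (I.mix (nat_lit 85114880) (nat_lit 109723648)))
  true (nat_lit 0)
def b2_6 : Bx := Bx.mk (St.mk (I.mix (nat_lit 10371072) (nat_lit 6864896)) (I.mix (nat_lit 6717440) (nat_lit 21610496)) (I.neg (nat_lit 59047936) (nat_lit 67371008)) (I.pos (nat_lit 267468800) (nat_lit 277561344)) (I.mix (nat_lit 20480000) (nat_lit 34160640)) (I.mix (nat_lit 31129600) (nat_lit 22233088)) (I.mix (nat_lit 2162688) (nat_lit 5472256)))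
  true (nat_lit 0)
def t2 : BTr := (BTr.n (BTr.n (BTr.b b2_0) (BTr.n (BTr.b b2_1) (BTr.b b2_2))) (BTr.n (BTr.n (BTr.b b2_3) (BTr.b b2_4)) (BTr.n (BTr.b b2_5) (BTr.b b2_6))))
namespace T2
def l0 : Tr := Tr.L (Pth.l (Pth.l Pth.z))
def l1 : Tr := Tr.L (Pth.l (Pth.r (Pth.l Pth.z)))
def l2 : Tr := Tr.L (Pth.l (Pth.r (Pth.r Pth.z)))
def l3 : Tr := Tr.L (Pth.r (Pth.l (Pth.l Pth.z)))
def l4 : Tr := Tr.L (Pth.r (Pth.l (Pth.r Pth.z)))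
def l5 : Tr := Tr.L (Pth.r (Pth.r (Pth.l Pth.z)))
def l6 : Tr := Tr.L (Pth.r (Pth.r (Pth.r Pth.z)))
end T2
def b3_0 : Bx := Bx.mk (St.mk (I.pos (nat_lit 154337280) (nat_lit 270188544)) (I.mix (nat_lit 13959168) (nat_lit 67043328)) (I.mix (nat_lit 10993664) (nat_lit 128565248)) (I.pos (nat_lit 133218304) (nat_lit 346439680)) (I.mix (nat_lit 137527296) (nat_lit 95109120)) (I.mix (nat_lit 136413184) (nat_lit 102760448)) (I.mix (nat_lit 205455360) (nat_lit 136593408)))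
  false (nat_lit 48770914)
def b3_1 : Bx := Bx.mk (St.mk (I.pos (nat_lit 106299392) (nat_lit 170115072)) (I.mix (nat_lit 65257472) (nat_lit 1048576)) (I.mix (nat_lit 52838400) (nat_lit 22544384)) (I.pos (nat_lit 102531072) (nat_lit 173309952)) (I.mix (nat_lit 78364672) (nat_lit 53329920)) (I.mix (nat_lit 55361536) (nat_lit 67174400)) (I.mix (nat_lit 50462720) (nat_lit 65241088)))
  false (nat_lit 4631951)
def b3_2 : Bx := Bx.mk (St.mk (I.mix (nat_lit 23609344) (nat_lit 84803584)) (I.mix (nat_lit 36241408) (nat_lit 7110656)) (I.mix (nat_lit 14188544) (nat_lit 12369920)) (I.pos (nat_lit 41058304) (nat_lit 90406912)) (I.mix (nat_lit 35717120) (nat_lit 31948800)) (I.mix (nat_lit 29376512) (nat_lit 34422784)) (I.mix (nat_lit 15859712) (nat_lit 19120128)))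
  false (nat_lit 0)
def b3_3 : Bx := Bx.mk (St.mk (I.pos (nat_lit 148029440) (nat_lit 213729280)) (I.mix (nat_lit 47955968) (nat_lit 75071488)) (I.mix (nat_lit 35946496) (nat_lit 127877120)) (I.pos (nat_lit 132726784) (nat_lit 234782720)) (I.mix (nat_lit 162201600) (nat_lit 66322432)) (I.mix (nat_lit 200867840) (nat_lit 119832576)) (I.mix (nat_lit 245334016) (nat_lit 128778240)))
  false (nat_lit 42939995)
def b3_4 : Bx := Bx.mk (St.mk (I.mix (nat_lit 38846464) (nat_lit 109182976)) (I.mix (nat_lit 17219584) (nat_lit 40812544)) (I.mix (nat_lit 4112384) (nat_lit 34258944)) (I.pos (nat_lit 40353792) (nat_lit 105906176)) (I.mix (nat_lit 60112896) (nat_lit 30736384)) (I.mix (nat_lit 64405504) (nat_lit 44924928)) (I.mix (nat_lit 37404672) (nat_lit 27148288)))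
  false (nat_lit 0)
def b3_5 : Bx := Bx.mk (St.mk (I.mix (nat_lit 45760512) (nat_lit 90800128)) (I.mix (nat_lit 13434880) (nat_lit 9093120)) (I.mix (nat_lit 1376256) (nat_lit 9093120)) (I.pos (nat_lit 42450944) (nat_lit 90030080)) (I.mix (nat_lit 17186816) (nat_lit 10190848)) (I.mix (nat_lit 15171584) (nat_lit 13402112)) (I.mix (nat_lit 3932160) (nat_lit 4276224)))
  false (nat_lit 0)
def b3_6 : Bx := Bx.mk (St.mk (I.pos (nat_lit 137625600) (nat_lit 168804352)) (I.mix (nat_lit 39763968) (nat_lit 835584)) (I.mix (nat_lit 23019520) (nat_lit 21004288)) (I.pos (nat_lit 123109376) (nat_lit 172228608)) (I.mix (nat_lit 47513600) (nat_lit 26968064)) (I.mix (nat_lit 28016640) (nat_lit 37994496)) (I.mix (nat_lit 31719424) (nat_lit 36159488)))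
  false (nat_lit 0)
def b3_7 : Bx := Bx.mk (St.mk (I.mix (nat_lit 23248896) (nat_lit 119848960)) (I.mix (nat_lit 4538368) (nat_lit 37093376)) (I.mix (nat_lit 1458176) (nat_lit 32325632)) (I.pos (nat_lit 39469056) (nat_lit 115867648)) (I.mix (nat_lit 53772288) (nat_lit 37584896)) (I.mix (nat_lit 52166656) (nat_lit 39157760)) (I.mix (nat_lit 34701312) (nat_lit 28065792)))
  false (nat_lit 0)
def b3_8 : Bx := Bx.mk (St.mk (I.pos (nat_lit 95928320) (nat_lit 145571840)) (I.mix (nat_lit 65142784) (nat_lit 6520832)) (I.mix (nat_lit 49135616) (nat_lit 8421376)) (I.pos (nat_lit 80150528) (nat_lit 141230080)) (I.mix (nat_lit 97222656) (nat_lit 39747584)) (I.mix (nat_lit 70074368) (nat_lit 109985792)) (I.mix (nat_lit 52576256) (nat_lit 78839808)))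
  false (nat_lit 0)
def b3_9 : Bx := Bx.mk (St.mk (I.mix (nat_lit 36798464) (nat_lit 74547200)) (I.mix (nat_lit 33669120) (nat_lit 2637824)) (I.mix (nat_lit 11304960) (nat_lit 8503296)) (I.pos (nat_lit 41156608) (nat_lit 84049920)) (I.mix (nat_lit 37568512) (nat_lit 24166400)) (I.mix (nat_lit 29933568) (nat_lit 39305216)) (I.mix (nat_lit 12468224) (nat_lit 15056896)))
  false (nat_lit 0)
def b3_10 : Bx := Bx.mk (St.mk (I.pos (nat_lit 96714752) (nat_lit 112099328)) (I.mix (nat_lit 1146880) (nat_lit 7520256)) (I.pos (nat_lit 131072) (nat_lit 9256960)) (I.pos (nat_lit 81035264) (nat_lit 112476160)) (I.mix (nat_lit 6471680) (nat_lit 7618560)) (I.mix (nat_lit 4456448) (nat_lit 3588096)) (I.mix (nat_lit 3653632) (nat_lit 2719744)))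
  false (nat_lit 0)
def b3_11 : Bx := Bx.mk (St.mk (I.neg (nat_lit 7684096) (nat_lit 36225024)) (I.mix (nat_lit 1245184) (nat_lit 8765440)) (I.mix (nat_lit 1327104) (nat_lit 2605056)) (I.pos (nat_lit 44171264) (nat_lit 69894144)) (I.mix (nat_lit 5275648) (nat_lit 8175616)) (I.mix (nat_lit 5914624) (nat_lit 4882432)) (I.mix (nat_lit 1540096) (nat_lit 1703936)))
  false (nat_lit 0)
def t3 : BTr := (BTr.n (BTr.n (BTr.n (BTr.b b3_0) (BTr.n (BTr.b b3_1) (BTr.b b3_2))) (BTr.n (BTr.b b3_3) (BTr.n (BTr.b b3_4) (BTr.b b3_5)))) (BTr.n (BTr.n (BTr.b b3_6) (BTr.n (BTr.b b3_7) (BTr.b b3_8))) (BTr.n (BTr.b b3_9) (BTr.n (BTr.b b3_10) (BTr.b b3_11)))))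
namespace T3
def l0 : Tr := Tr.L (Pth.l (Pth.l (Pth.l Pth.z)))
def l1 : Tr := Tr.L (Pth.l (Pth.l (Pth.r (Pth.l Pth.z))))
def l2 : Tr := Tr.L (Pth.l (Pth.l (Pth.r (Pth.r Pth.z))))
def l3 : Tr := Tr.L (Pth.l (Pth.r (Pth.l Pth.z)))
def l4 : Tr := Tr.L (Pth.l (Pth.r (Pth.r (Pth.l Pth.z))))
def l5 : Tr := Tr.L (Pth.l (Pth.r (Pth.r (Pth.r Pth.z))))
def l6 : Tr := Tr.L (Pth.r (Pth.l (Pth.l Pth.z)))
def l7 : Tr := Tr.L (Pth.r (Pth.l (Pth.r (Pth.l Pth.z))))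
def l8 : Tr := Tr.L (Pth.r (Pth.l (Pth.r (Pth.r Pth.z))))
def l9 : Tr := Tr.L (Pth.r (Pth.r (Pth.l Pth.z)))
def l10 : Tr := Tr.L (Pth.r (Pth.r (Pth.r (Pth.l Pth.z))))
def l11 : Tr := Tr.L (Pth.r (Pth.r (Pth.r (Pth.r Pth.z))))
end T3
def b4_0 : Bx := Bx.mk (St.mk (I.pos (nat_lit 147259392) (nat_lit 292487168)) (I.mix (nat_lit 40140800) (nat_lit 94994432)) (I.mix (nat_lit 142983168) (nat_lit 125255680)) (I.pos (nat_lit 356073472) (nat_lit 590299136)) (I.mix (nat_lit 130646016) (nat_lit 121274368)) (I.mix (nat_lit 168984576) (nat_lit 107036672)) (I.mix (nat_lit 249380864) (nat_lit 152174592)))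
  false (nat_lit 112412776)
def b4_1 : Bx := Bx.mk (St.mk (I.pos (nat_lit 35897344) (nat_lit 112214016)) (I.neg (nat_lit 12926976) (nat_lit 96911360)) (I.mix (nat_lit 61440000) (nat_lit 15745024)) (I.pos (nat_lit 272007168) (nat_lit 321798144)) (I.mix (nat_lit 90226688) (nat_lit 81068032)) (I.mix (nat_lit 81248256) (nat_lit 100270080)) (I.mix (nat_lit 78069760) (nat_lit 82182144)))
  false (nat_lit 0)
def b4_2 : Bx := Bx.mk (St.mk (I.pos (nat_lit 97632256) (nat_lit 188137472)) (I.mix (nat_lit 35618816) (nat_lit 101122048)) (I.mix (nat_lit 4423680) (nat_lit 134332416)) (I.pos (nat_lit 304627712) (nat_lit 410583040)) (I.mix (nat_lit 166461440) (nat_lit 75726848)) (I.mix (nat_lit 181780480) (nat_lit 134971392)) (I.mix (nat_lit 182403072) (nat_lit 162299904)))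
  false (nat_lit 96929252)
def b4_3 : Bx := Bx.mk (St.mk (I.neg (nat_lit 35880960) (nat_lit 121176064)) (I.pos (nat_lit 12713984) (nat_lit 96911360)) (I.mix (nat_lit 61456384) (nat_lit 20086784)) (I.pos (nat_lit 271695872) (nat_lit 328843264)) (I.mix (nat_lit 81068032) (nat_lit 90226688)) (I.mix (nat_lit 100286464) (nat_lit 81264640)) (I.mix (nat_lit 78069760) (nat_lit 82247680)))
  true (nat_lit 0)
def b4_4 : Bx := Bx.mk (St.mk (I.mix (nat_lit 68763648) (nat_lit 14499840)) (I.mix (nat_lit 18038784) (nat_lit 97517568)) (I.neg (nat_lit 21790720) (nat_lit 46022656)) (I.pos (nat_lit 266960896) (nat_lit 295583744)) (I.mix (nat_lit 61243392) (nat_lit 108773376)) (I.mix (nat_lit 133758976) (nat_lit 81100800)) (I.mix (nat_lit 41205760) (nat_lit 33177600)))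
  true (nat_lit 0)
def b4_5 : Bx := Bx.mk (St.mk (I.mix (nat_lit 14712832) (nat_lit 68780032)) (I.mix (nat_lit 97533952) (nat_lit 21168128)) (I.neg (nat_lit 21790720) (nat_lit 46022656)) (I.pos (nat_lit 266960896) (nat_lit 295583744)) (I.mix (nat_lit 108773376) (nat_lit 61243392)) (I.mix (nat_lit 81100800) (nat_lit 133758976)) (I.mix (nat_lit 41205760) (nat_lit 33177600)))
  false (nat_lit 13530894)
def b4_6 : Bx := Bx.mk (St.mk (I.pos (nat_lit 89128960) (nat_lit 118177792)) (I.neg (nat_lit 15007744) (nat_lit 52084736)) (I.mix (nat_lit 19333120) (nat_lit 18038784)) (I.pos (nat_lit 300941312) (nat_lit 327155712)) (I.mix (nat_lit 28672000) (nat_lit 33144832)) (I.mix (nat_lit 26525696) (nat_lit 30605312)) (I.mix (nat_lit 21626880) (nat_lit 26279936)))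
  false (nat_lit 0)
def t4 : BTr := (BTr.n (BTr.n (BTr.b b4_0) (BTr.n (BTr.b b4_1) (BTr.b b4_2))) (BTr.n (BTr.n (BTr.b b4_3) (BTr.b b4_4)) (BTr.n (BTr.b b4_5) (BTr.b b4_6))))
namespace T4
def l0 : Tr := Tr.L (Pth.l (Pth.l Pth.z))
def l1 : Tr := Tr.L (Pth.l (Pth.r (Pth.l Pth.z)))
def l2 : Tr := Tr.L (Pth.l (Pth.r (Pth.r Pth.z)))
def l3 : Tr := Tr.L (Pth.r (Pth.l (Pth.l Pth.z)))
def l4 : Tr := Tr.L (Pth.r (Pth.l (Pth.r Pth.z)))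
def l5 : Tr := Tr.L (Pth.r (Pth.r (Pth.l Pth.z)))
def l6 : Tr := Tr.L (Pth.r (Pth.r (Pth.r Pth.z)))
end T4
def b5_0 : Bx := Bx.mk (St.mk (I.pos (nat_lit 142393344) (nat_lit 289521664)) (I.mix (nat_lit 34652160) (nat_lit 75530240)) (I.mix (nat_lit 58540032) (nat_lit 143196160)) (I.pos (nat_lit 227737600) (nat_lit 456359936)) (I.mix (nat_lit 151076864) (nat_lit 113967104)) (I.mix (nat_lit 159105024) (nat_lit 118849536)) (I.mix (nat_lit 226803712) (nat_lit 142131200)))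
  false (nat_lit 80262227)
def b5_1 : Bx := Bx.mk (St.mk (I.pos (nat_lit 86392832) (nat_lit 147308544)) (I.neg (nat_lit 1867776) (nat_lit 75022336)) (I.mix (nat_lit 41533440) (nat_lit 38371328)) (I.pos (nat_lit 175046656) (nat_lit 223559680)) (I.mix (nat_lit 70598656) (nat_lit 64290816)) (I.mix (nat_lit 58671104) (nat_lit 78413824)) (I.mix (nat_lit 51036160) (nat_lit 72007680)))
  false (nat_lit 14399216)
def b5_2 : Bx := Bx.mk (St.mk (I.mix (nat_lit 32210944) (nat_lit 3751936)) (I.mix (nat_lit 47366144) (nat_lit 13811712)) (I.pos (nat_lit 14565376) (nat_lit 23101440)) (I.pos (nat_lit 140656640) (nat_lit 149684224)) (I.mix (nat_lit 30310400) (nat_lit 49545216)) (I.mix (nat_lit 33292288) (nat_lit 54558720)) (I.mix (nat_lit 7602176) (nat_lit 8994816)))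
  true (nat_lit 0)
def b5_3 : Bx := Bx.mk (St.mk (I.pos (nat_lit 132694016) (nat_lit 195821568)) (I.mix (nat_lit 47513600) (nat_lit 77725696)) (I.mix (nat_lit 10895360) (nat_lit 139542528)) (I.pos (nat_lit 209649664) (nat_lit 286162944)) (I.mix (nat_lit 155238400) (nat_lit 74661888)) (I.mix (nat_lit 171704320) (nat_lit 92880896)) (I.mix (nat_lit 184467456) (nat_lit 93356032)))
  false (nat_lit 49694066)
def b5_4 : Bx := Bx.mk (St.mk (I.mix (nat_lit 3407872) (nat_lit 32178176)) (I.mix (nat_lit 13385728) (nat_lit 47349760)) (I.pos (nat_lit 14565376) (nat_lit 23101440)) (I.pos (nat_lit 140623872) (nat_lit 149684224)) (I.mix (nat_lit 49545216) (nat_lit 30310400)) (I.mix (nat_lit 54558720) (nat_lit 33292288)) (I.mix (nat_lit 7602176) (nat_lit 8994816)))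
  false (nat_lit 0)
def b5_5 : Bx := Bx.mk (St.mk (I.pos (nat_lit 123125760) (nat_lit 143802368)) (I.neg (nat_lit 5210112) (nat_lit 35586048)) (I.pos (nat_lit 1703936) (nat_lit 33832960)) (I.pos (nat_lit 200785920) (nat_lit 220364800)) (I.mix (nat_lit 37289984) (nat_lit 23429120)) (I.mix (nat_lit 22593536) (nat_lit 29507584)) (I.mix (nat_lit 25460736) (nat_lit 25231360)))
  false (nat_lit 0)
def b5_6 : Bx := Bx.mk (St.mk (I.mix (nat_lit 10158080) (nat_lit 1359872)) (I.mix (nat_lit 8126464) (nat_lit 10436608)) (I.pos (nat_lit 15515648) (nat_lit 19906560)) (I.pos (nat_lit 140738560) (nat_lit 145031168)) (I.mix (nat_lit 20578304) (nat_lit 13434880)) (I.mix (nat_lit 13582336) (nat_lit 15040512)) (I.mix (nat_lit 2080768) (nat_lit 1343488)))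
  true (nat_lit 0)
def b5_7 : Bx := Bx.mk (St.mk (I.pos (nat_lit 14024704) (nat_lit 73105408)) (I.mix (nat_lit 14172160) (nat_lit 52510720)) (I.mix (nat_lit 4259840) (nat_lit 28524544)) (I.pos (nat_lit 139804672) (nat_lit 163528704)) (I.mix (nat_lit 52723712) (nat_lit 51118080)) (I.mix (nat_lit 68255744) (nat_lit 46825472)) (I.mix (nat_lit 35405824) (nat_lit 27033600)))
  false (nat_lit 0)
def b5_8 : Bx := Bx.mk (St.mk (I.pos (nat_lit 52117504) (nat_lit 112459776)) (I.mix (nat_lit 75464704) (nat_lit 15941632)) (I.mix (nat_lit 36880384) (nat_lit 12812288)) (I.pos (nat_lit 151896064) (nat_lit 192184320)) (I.mix (nat_lit 85147648) (nat_lit 45334528)) (I.mix (nat_lit 64700416) (nat_lit 100696064)) (I.mix (nat_lit 44367872) (nat_lit 56377344)))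
  false (nat_lit 193610)
def b5_9 : Bx := Bx.mk (St.mk (I.neg (nat_lit 14024704) (nat_lit 73105408)) (I.mix (nat_lit 52510720) (nat_lit 14172160)) (I.mix (nat_lit 4259840) (nat_lit 28524544)) (I.pos (nat_lit 139804672) (nat_lit 163528704)) (I.mix (nat_lit 51118080) (nat_lit 52723712)) (I.mix (nat_lit 46825472) (nat_lit 68255744)) (I.mix (nat_lit 35405824) (nat_lit 27033600)))
  true (nat_lit 0)
def t5 : BTr := (BTr.n (BTr.n (BTr.n (BTr.b b5_0) (BTr.b b5_1)) (BTr.n (BTr.b b5_2) (BTr.n (BTr.b b5_3) (BTr.b b5_4)))) (BTr.n (BTr.n (BTr.b b5_5) (BTr.b b5_6)) (BTr.n (BTr.b b5_7) (BTr.n (BTr.b b5_8) (BTr.b b5_9)))))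
namespace T5
def l0 : Tr := Tr.L (Pth.l (Pth.l (Pth.l Pth.z)))
def l1 : Tr := Tr.L (Pth.l (Pth.l (Pth.r Pth.z)))
def l2 : Tr := Tr.L (Pth.l (Pth.r (Pth.l Pth.z)))
def l3 : Tr := Tr.L (Pth.l (Pth.r (Pth.r (Pth.l Pth.z))))
def l4 : Tr := Tr.L (Pth.l (Pth.r (Pth.r (Pth.r Pth.z))))
def l5 : Tr := Tr.L (Pth.r (Pth.l (Pth.l Pth.z)))
def l6 : Tr := Tr.L (Pth.r (Pth.l (Pth.r Pth.z)))
def l7 : Tr := Tr.L (Pth.r (Pth.r (Pth.l Pth.z)))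
def l8 : Tr := Tr.L (Pth.r (Pth.r (Pth.r (Pth.l Pth.z))))
def l9 : Tr := Tr.L (Pth.r (Pth.r (Pth.r (Pth.r Pth.z))))
end T5
theorem bx0_0 : BoxOK sI cl4 cl5 cl7 t2 t4 b0_0 :=
  box_mk (TrL.c (I.pos (nat_lit 0) (nat_lit 0)) (xa (xb (xa T2.l0 (xb T2.l0 T2.l0)) (xa (xb T2.l0 (xs T2.l0 T2.l0)) (xb T2.l0 (xs T2.l0 T2.l0)))) (xb T2.l4 (xa (xs T2.l0 T2.l4) T2.l4)))
  (TrL.c (I.pos (nat_lit 0) (nat_lit 0)) (xa T4.l1 (xb T4.l1 T4.l1))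
  (TrL.c (I.pos (nat_lit 0) (nat_lit 0)) (xs T2.l5 (xa T2.l1 T2.l5))
  (TrL.c (I.pos (nat_lit 0) (nat_lit 0)) (xa T4.l2 (xb (xa T4.l2 T4.l2) (xs (xa T4.l2 T4.l2) (xa T4.l2 (xb T4.l2 T4.l2)))))
  (TrL.c (I.pos (nat_lit 0) (nat_lit 0)) (xs T2.l3 (xa T2.l2 T2.l3))
  (TrL.c (I.pos (nat_lit 0) (nat_lit 0)) (xa T4.l3 (xb T4.l3 T4.l3))
  TrL.n)))))) (by decide +kernel)
theorem bx0_1 : BoxOK sI cl4 cl5 cl7 t2 t4 b0_1 :=
  box_mk (TrL.c (I.pos (nat_lit 0) (nat_lit 0)) T2.l0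
  (TrL.c (I.pos (nat_lit 0) (nat_lit 0)) T4.l1
  (TrL.c (I.pos (nat_lit 0) (nat_lit 0)) T2.l1
  (TrL.c (I.pos (nat_lit 0) (nat_lit 0)) T4.l2
  (TrL.c (I.pos (nat_lit 0) (nat_lit 0)) T2.l2
  (TrL.c (I.pos (nat_lit 0) (nat_lit 0)) T4.l3
  TrL.n)))))) (by decide +kernel)
theorem bx0_2 : BoxOK sI cl4 cl5 cl7 t2 t4 b0_2 :=
  box_mk (TrL.c (I.pos (nat_lit 0) (nat_lit 0)) T2.l0
  (TrL.c (I.pos (nat_lit 0) (nat_lit 0)) T4.l1
  (TrL.c (I.pos (nat_lit 0) (nat_lit 0)) T2.l1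
  (TrL.c (I.pos (nat_lit 0) (nat_lit 0)) T4.l2
  (TrL.c (I.pos (nat_lit 0) (nat_lit 0)) T2.l2
  (TrL.c (I.pos (nat_lit 0) (nat_lit 0)) T4.l3
  TrL.n)))))) (by decide +kernel)
theorem bx0_3 : BoxOK sI cl4 cl5 cl7 t2 t4 b0_3 :=
  box_mk (TrL.c (I.pos (nat_lit 0) (nat_lit 0)) T4.l1
  (TrL.c (I.pos (nat_lit 0) (nat_lit 0)) T2.l1
  TrL.n)) (by decide +kernel)
theorem bx0_4 : BoxOK sI cl4 cl5 cl7 t2 t4 b0_4 :=
  box_mk (TrL.c (I.pos (nat_lit 0) (nat_lit 0)) T2.l0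
  (TrL.c (I.pos (nat_lit 0) (nat_lit 0)) T4.l1
  (TrL.c (I.pos (nat_lit 0) (nat_lit 0)) T2.l1
  (TrL.c (I.pos (nat_lit 0) (nat_lit 0)) T4.l2
  (TrL.c (I.pos (nat_lit 0) (nat_lit 0)) T2.l2
  (TrL.c (I.pos (nat_lit 0) (nat_lit 0)) T4.l3
  TrL.n)))))) (by decide +kernel)
theorem bx0_5 : BoxOK sI cl4 cl5 cl7 t2 t4 b0_5 :=
  box_mk (TrL.c (I.pos (nat_lit 0) (nat_lit 0)) (xa T2.l0 T2.l0)
  (TrL.c (I.pos (nat_lit 0) (nat_lit 0)) T4.l1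
  (TrL.c (I.pos (nat_lit 0) (nat_lit 0)) T2.l1
  (TrL.c (I.pos (nat_lit 0) (nat_lit 0)) T4.l2
  (TrL.c (I.pos (nat_lit 0) (nat_lit 0)) T2.l2
  (TrL.c (I.pos (nat_lit 0) (nat_lit 0)) T4.l3
  TrL.n)))))) (by decide +kernel)
theorem bx0_6 : BoxOK sI cl4 cl5 cl7 t2 t4 b0_6 :=
  box_mk (TrL.c (I.pos (nat_lit 0) (nat_lit 0)) T4.l6
  (TrL.c (I.pos (nat_lit 0) (nat_lit 0)) T2.l6
  TrL.n)) (by decide +kernel)
theorem bx0_7 : BoxOK sI cl4 cl5 cl7 t2 t4 b0_7 :=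
  box_mk (TrL.c (I.pos (nat_lit 0) (nat_lit 0)) (xb T2.l0 T2.l0)
  (TrL.c (I.pos (nat_lit 0) (nat_lit 0)) T4.l6
  (TrL.c (I.pos (nat_lit 0) (nat_lit 0)) T2.l6
  (TrL.c (I.pos (nat_lit 0) (nat_lit 0)) T4.l2
  (TrL.c (I.pos (nat_lit 0) (nat_lit 0)) T2.l2
  (TrL.c (I.pos (nat_lit 0) (nat_lit 0)) T4.l3
  TrL.n)))))) (by decide +kernel)
theorem bx0_8 : BoxOK sI cl4 cl5 cl7 t2 t4 b0_8 :=
  box_mk (TrL.c (I.pos (nat_lit 0) (nat_lit 0)) (xb (xa (xb T2.l0 T2.l0) (xa T2.l0 T2.l0)) (xa (xb T2.l0 (xa T2.l0 T2.l0)) (xa T2.l0 T2.l0)))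
  (TrL.c (I.pos (nat_lit 0) (nat_lit 0)) (xb T4.l1 T4.l1)
  (TrL.c (I.pos (nat_lit 0) (nat_lit 0)) (xb T2.l1 T2.l1)
  (TrL.c (I.pos (nat_lit 0) (nat_lit 0)) (xb (xa T4.l2 T4.l2) (xa T4.l2 T4.l2))
  (TrL.c (I.pos (nat_lit 0) (nat_lit 0)) (xb T2.l2 T2.l2)
  (TrL.c (I.pos (nat_lit 0) (nat_lit 0)) (xb T4.l3 T4.l3)
  TrL.n)))))) (by decide +kernel)
theorem sv0 : StarV sI cl4 cl5 cl7 t2 t4 t0 :=
  (bt_n (bt_n (bt_n (bt_b bx0_0) (bt_b bx0_1)) (bt_n (bt_b bx0_2) (bt_b bx0_3))) (bt_n (bt_n (bt_b bx0_4) (bt_b bx0_5)) (bt_n (bt_b bx0_6) (bt_n (bt_b bx0_7) (bt_b bx0_8)))))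
def S0 : StarD := StarD.mk cl4 cl5 cl7 2 4 t0
theorem bx1_0 : BoxOK sI cl4 cl7 cl5 t4 t2 b1_0 :=
  box_mk (TrL.c (I.pos (nat_lit 0) (nat_lit 0)) (xa (xb (xa T4.l0 T4.l0) (xa (xb T4.l0 (xs T4.l0 T4.l0)) (xs T4.l0 T4.l0))) (xb (xa (xb T4.l0 T4.l0) T4.l2) (xa (xs T4.l0 (xb T4.l0 T4.l0)) (xs T4.l2 T4.l2))))
  (TrL.c (I.pos (nat_lit 0) (nat_lit 0)) (xa (xb T2.l3 T2.l3) (xb (xa T2.l3 T2.l3) (xa T2.l3 T2.l3)))
  (TrL.c (I.pos (nat_lit 0) (nat_lit 0)) (xa T4.l4 (xb T4.l4 T4.l4))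
  (TrL.c (I.pos (nat_lit 0) (nat_lit 0)) (xa T2.l4 (xb (xa T2.l4 (xb T2.l4 T2.l4)) (xa T2.l4 (xs T2.l4 (xb T2.l4 T2.l4)))))
  (TrL.c (I.pos (nat_lit 0) (nat_lit 0)) (xa T4.l5 (xb T4.l5 T4.l5))
  (TrL.c (I.pos (nat_lit 0) (nat_lit 0)) (xa (xb T2.l5 T2.l5) (xb (xa T2.l5 T2.l5) (xa T2.l5 T2.l5)))
  TrL.n)))))) (by decide +kernel)
theorem bx1_1 : BoxOK sI cl4 cl7 cl5 t4 t2 b1_1 :=
  box_mk (TrL.c (I.pos (nat_lit 0) (nat_lit 0)) T4.l0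
  (TrL.c (I.pos (nat_lit 0) (nat_lit 0)) T2.l3
  (TrL.c (I.pos (nat_lit 0) (nat_lit 0)) T4.l4
  (TrL.c (I.pos (nat_lit 0) (nat_lit 0)) T2.l4
  (TrL.c (I.pos (nat_lit 0) (nat_lit 0)) T4.l5
  (TrL.c (I.pos (nat_lit 0) (nat_lit 0)) T2.l5
  TrL.n)))))) (by decide +kernel)
theorem bx1_2 : BoxOK sI cl4 cl7 cl5 t4 t2 b1_2 :=
  box_mk (TrL.c (I.pos (nat_lit 0) (nat_lit 0)) T4.l0
  (TrL.c (I.pos (nat_lit 0) (nat_lit 0)) T2.l3
  (TrL.c (I.pos (nat_lit 0) (nat_lit 0)) T4.l4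
  (TrL.c (I.pos (nat_lit 0) (nat_lit 0)) T2.l4
  (TrL.c (I.pos (nat_lit 0) (nat_lit 0)) T4.l5
  (TrL.c (I.pos (nat_lit 0) (nat_lit 0)) T2.l5
  TrL.n)))))) (by decide +kernel)
theorem bx1_3 : BoxOK sI cl4 cl7 cl5 t4 t2 b1_3 :=
  box_mk (TrL.c (I.pos (nat_lit 0) (nat_lit 0)) (xa T4.l0 T4.l0)
  (TrL.c (I.pos (nat_lit 0) (nat_lit 0)) T2.l3
  (TrL.c (I.pos (nat_lit 0) (nat_lit 0)) T4.l4
  (TrL.c (I.pos (nat_lit 0) (nat_lit 0)) T2.l4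
  (TrL.c (I.pos (nat_lit 0) (nat_lit 0)) T4.l5
  (TrL.c (I.pos (nat_lit 0) (nat_lit 0)) T2.l5
  TrL.n)))))) (by decide +kernel)
theorem bx1_4 : BoxOK sI cl4 cl7 cl5 t4 t2 b1_4 :=
  box_mk (TrL.c (I.pos (nat_lit 0) (nat_lit 0)) T4.l0
  (TrL.c (I.pos (nat_lit 0) (nat_lit 0)) T2.l3
  (TrL.c (I.pos (nat_lit 0) (nat_lit 0)) T4.l4
  (TrL.c (I.pos (nat_lit 0) (nat_lit 0)) T2.l4
  (TrL.c (I.pos (nat_lit 0) (nat_lit 0)) T4.l5
  (TrL.c (I.pos (nat_lit 0) (nat_lit 0)) T2.l5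
  TrL.n)))))) (by decide +kernel)
theorem bx1_5 : BoxOK sI cl4 cl7 cl5 t4 t2 b1_5 :=
  box_mk (TrL.c (I.pos (nat_lit 0) (nat_lit 0)) T4.l0
  (TrL.c (I.pos (nat_lit 0) (nat_lit 0)) T2.l3
  (TrL.c (I.pos (nat_lit 0) (nat_lit 0)) T4.l4
  (TrL.c (I.pos (nat_lit 0) (nat_lit 0)) T2.l4
  (TrL.c (I.pos (nat_lit 0) (nat_lit 0)) T4.l5
  (TrL.c (I.pos (nat_lit 0) (nat_lit 0)) T2.l5
  TrL.n)))))) (by decide +kernel)
theorem bx1_6 : BoxOK sI cl4 cl7 cl5 t4 t2 b1_6 :=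
  box_mk (TrL.c (I.pos (nat_lit 0) (nat_lit 0)) T4.l0
  (TrL.c (I.pos (nat_lit 0) (nat_lit 0)) T2.l3
  (TrL.c (I.pos (nat_lit 0) (nat_lit 0)) T4.l4
  (TrL.c (I.pos (nat_lit 0) (nat_lit 0)) T2.l4
  (TrL.c (I.pos (nat_lit 0) (nat_lit 0)) T4.l5
  (TrL.c (I.pos (nat_lit 0) (nat_lit 0)) T2.l5
  TrL.n)))))) (by decide +kernel)
theorem bx1_7 : BoxOK sI cl4 cl7 cl5 t4 t2 b1_7 :=
  box_mk (TrL.c (I.pos (nat_lit 0) (nat_lit 0)) T4.l0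
  (TrL.c (I.pos (nat_lit 0) (nat_lit 0)) T2.l3
  (TrL.c (I.pos (nat_lit 0) (nat_lit 0)) T4.l4
  (TrL.c (I.pos (nat_lit 0) (nat_lit 0)) T2.l4
  (TrL.c (I.pos (nat_lit 0) (nat_lit 0)) T4.l5
  (TrL.c (I.pos (nat_lit 0) (nat_lit 0)) T2.l5
  TrL.n)))))) (by decide +kernel)
theorem bx1_8 : BoxOK sI cl4 cl7 cl5 t4 t2 b1_8 :=
  box_mk (TrL.c (I.pos (nat_lit 0) (nat_lit 0)) (xb (xa (xb T4.l0 T4.l0) (xb T4.l0 T4.l0)) (xa (xs T4.l0 (xb T4.l0 (xa T4.l0 T4.l0))) (xs (xa T4.l0 T4.l0) (xa T4.l0 T4.l0))))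
  (TrL.c (I.pos (nat_lit 0) (nat_lit 0)) (xb (xa T2.l3 T2.l3) (xa T2.l3 T2.l3))
  (TrL.c (I.pos (nat_lit 0) (nat_lit 0)) (xb T4.l4 T4.l4)
  (TrL.c (I.pos (nat_lit 0) (nat_lit 0)) (xb (xa T2.l4 T2.l4) (xa T2.l4 T2.l4))
  (TrL.c (I.pos (nat_lit 0) (nat_lit 0)) (xb T4.l5 T4.l5)
  (TrL.c (I.pos (nat_lit 0) (nat_lit 0)) (xb (xa T2.l5 T2.l5) (xa T2.l5 T2.l5))
  TrL.n)))))) (by decide +kernel)
theorem bx1_9 : BoxOK sI cl4 cl7 cl5 t4 t2 b1_9 :=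
  box_mk (TrL.c (I.pos (nat_lit 0) (nat_lit 0)) (xa (xa T4.l0 T4.l0) T4.l0)
  (TrL.c (I.pos (nat_lit 0) (nat_lit 0)) (xa T2.l3 T2.l3)
  (TrL.c (I.pos (nat_lit 0) (nat_lit 0)) T4.l4
  (TrL.c (I.pos (nat_lit 0) (nat_lit 0)) (xa T2.l4 T2.l4)
  (TrL.c (I.pos (nat_lit 0) (nat_lit 0)) T4.l5
  (TrL.c (I.pos (nat_lit 0) (nat_lit 0)) (xa T2.l5 T2.l5)
  TrL.n)))))) (by decide +kernel)
theorem bx1_10 : BoxOK sI cl4 cl7 cl5 t4 t2 b1_10 :=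
  box_mk (TrL.c (I.pos (nat_lit 0) (nat_lit 0)) T4.l0
  (TrL.c (I.pos (nat_lit 0) (nat_lit 0)) T2.l3
  (TrL.c (I.pos (nat_lit 0) (nat_lit 0)) T4.l4
  (TrL.c (I.pos (nat_lit 0) (nat_lit 0)) T2.l4
  (TrL.c (I.pos (nat_lit 0) (nat_lit 0)) T4.l5
  (TrL.c (I.pos (nat_lit 0) (nat_lit 0)) T2.l5
  TrL.n)))))) (by decide +kernel)
theorem bx1_11 : BoxOK sI cl4 cl7 cl5 t4 t2 b1_11 :=
  box_mk (TrL.c (I.pos (nat_lit 0) (nat_lit 0)) T4.l0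
  (TrL.c (I.pos (nat_lit 0) (nat_lit 0)) T2.l3
  (TrL.c (I.pos (nat_lit 0) (nat_lit 0)) T4.l4
  (TrL.c (I.pos (nat_lit 0) (nat_lit 0)) T2.l4
  (TrL.c (I.pos (nat_lit 0) (nat_lit 0)) T4.l5
  (TrL.c (I.pos (nat_lit 0) (nat_lit 0)) T2.l5
  TrL.n)))))) (by decide +kernel)
theorem sv1 : StarV sI cl4 cl7 cl5 t4 t2 t1 :=
  (bt_n (bt_n (bt_n (bt_b bx1_0) (bt_n (bt_b bx1_1) (bt_b bx1_2))) (bt_n (bt_b bx1_3) (bt_n (bt_b bx1_4) (bt_b bx1_5)))) (bt_n (bt_n (bt_b bx1_6) (bt_n (bt_b bx1_7) (bt_b bx1_8))) (bt_n (bt_b bx1_9) (bt_n (bt_b bx1_10) (bt_b bx1_11)))))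
def S1 : StarD := StarD.mk cl4 cl7 cl5 4 2 t1
theorem bx2_0 : BoxOK sI cl5 cl4 cl7 t0 t5 b2_0 :=
  box_mk (TrL.c (I.pos (nat_lit 0) (nat_lit 0)) (xa (xb T0.l0 (xa T0.l0 T0.l0)) (xb T0.l0 (xa T0.l0 T0.l0)))
  (TrL.c (I.pos (nat_lit 0) (nat_lit 0)) (xa T5.l1 T5.l1)
  (TrL.c (I.pos (nat_lit 0) (nat_lit 0)) T0.l1
  (TrL.c (I.pos (nat_lit 0) (nat_lit 0)) T5.l2
  (TrL.c (I.pos (nat_lit 0) (nat_lit 0)) (xa T5.l3 (xb T5.l0 (xs T5.l3 T5.l3)))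
  (TrL.c (I.pos (nat_lit 0) (nat_lit 0)) (xa T0.l2 T0.l2)
  (TrL.c (I.pos (nat_lit 0) (nat_lit 0)) T5.l4
  (TrL.c (I.pos (nat_lit 0) (nat_lit 0)) T0.l3
  TrL.n)))))))) (by decide +kernel)
theorem bx2_1 : BoxOK sI cl5 cl4 cl7 t0 t5 b2_1 :=
  box_mk (TrL.c (I.pos (nat_lit 0) (nat_lit 0)) T5.l1
  (TrL.c (I.pos (nat_lit 0) (nat_lit 0)) T0.l4
  (TrL.c (I.pos (nat_lit 0) (nat_lit 0)) T5.l2
  TrL.n))) (by decide +kernel)
theorem bx2_2 : BoxOK sI cl5 cl4 cl7 t0 t5 b2_2 :=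
  box_mk (TrL.c (I.pos (nat_lit 0) (nat_lit 0)) (xb T0.l0 T0.l0)
  (TrL.c (I.pos (nat_lit 0) (nat_lit 0)) T5.l1
  (TrL.c (I.pos (nat_lit 0) (nat_lit 0)) T0.l1
  (TrL.c (I.pos (nat_lit 0) (nat_lit 0)) T5.l2
  (TrL.c (I.pos (nat_lit 0) (nat_lit 0)) T5.l3
  (TrL.c (I.pos (nat_lit 0) (nat_lit 0)) T0.l2
  (TrL.c (I.pos (nat_lit 0) (nat_lit 0)) T5.l4
  (TrL.c (I.pos (nat_lit 0) (nat_lit 0)) T0.l3
  TrL.n)))))))) (by decide +kernel)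
theorem bx2_3 : BoxOK sI cl5 cl4 cl7 t0 t5 b2_3 :=
  box_mk (TrL.c (I.pos (nat_lit 0) (nat_lit 0)) (xa (xb T0.l0 T0.l0) T0.l0)
  (TrL.c (I.pos (nat_lit 0) (nat_lit 0)) T5.l1
  (TrL.c (I.pos (nat_lit 0) (nat_lit 0)) T0.l4
  (TrL.c (I.pos (nat_lit 0) (nat_lit 0)) T5.l2
  (TrL.c (I.pos (nat_lit 0) (nat_lit 0)) T5.l3
  (TrL.c (I.pos (nat_lit 0) (nat_lit 0)) T0.l2
  (TrL.c (I.pos (nat_lit 0) (nat_lit 0)) T5.l4
  (TrL.c (I.pos (nat_lit 0) (nat_lit 0)) T0.l3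
  TrL.n)))))))) (by decide +kernel)
theorem bx2_4 : BoxOK sI cl5 cl4 cl7 t0 t5 b2_4 :=
  box_mk (TrL.c (I.pos (nat_lit 0) (nat_lit 0)) (xb (xa T0.l0 T0.l0) (xa (xb T0.l0 (xa T0.l0 T0.l0)) (xa T0.l0 T0.l0)))
  (TrL.c (I.pos (nat_lit 0) (nat_lit 0)) (xb T5.l1 T5.l1)
  (TrL.c (I.pos (nat_lit 0) (nat_lit 0)) T0.l1
  (TrL.c (I.pos (nat_lit 0) (nat_lit 0)) T5.l2
  (TrL.c (I.pos (nat_lit 0) (nat_lit 0)) (xb T5.l3 (xa T5.l3 T5.l3))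
  (TrL.c (I.pos (nat_lit 0) (nat_lit 0)) T0.l2
  (TrL.c (I.pos (nat_lit 0) (nat_lit 0)) T5.l4
  (TrL.c (I.pos (nat_lit 0) (nat_lit 0)) T0.l3
  TrL.n)))))))) (by decide +kernel)
theorem bx2_5 : BoxOK sI cl5 cl4 cl7 t0 t5 b2_5 :=
  box_mk (TrL.c (I.pos (nat_lit 0) (nat_lit 0)) T5.l1
  (TrL.c (I.pos (nat_lit 0) (nat_lit 0)) T0.l4
  (TrL.c (I.pos (nat_lit 0) (nat_lit 0)) T5.l2
  TrL.n))) (by decide +kernel)
theorem bx2_6 : BoxOK sI cl5 cl4 cl7 t0 t5 b2_6 :=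
  box_mk (TrL.c (I.pos (nat_lit 0) (nat_lit 0)) T5.l5
  (TrL.c (I.pos (nat_lit 0) (nat_lit 0)) T0.l4
  (TrL.c (I.pos (nat_lit 0) (nat_lit 0)) T5.l6
  TrL.n))) (by decide +kernel)
theorem sv2 : StarV sI cl5 cl4 cl7 t0 t5 t2 :=
  (bt_n (bt_n (bt_b bx2_0) (bt_n (bt_b bx2_1) (bt_b bx2_2))) (bt_n (bt_n (bt_b bx2_3) (bt_b bx2_4)) (bt_n (bt_b bx2_5) (bt_b bx2_6))))
def S2 : StarD := StarD.mk cl5 cl4 cl7 0 5 t2
theorem bx3_0 : BoxOK sI cl5 cl7 cl4 t5 t0 b3_0 :=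
  box_mk (TrL.c (I.pos (nat_lit 0) (nat_lit 0)) (xa (xa T5.l0 T5.l0) (xa (xb T5.l0 T5.l0) (xb T5.l0 (xs T5.l0 T5.l0))))
  (TrL.c (I.pos (nat_lit 0) (nat_lit 0)) (xa T0.l5 (xa T0.l5 T0.l5))
  (TrL.c (I.pos (nat_lit 0) (nat_lit 0)) T5.l7
  (TrL.c (I.pos (nat_lit 0) (nat_lit 0)) T0.l6
  (TrL.c (I.pos (nat_lit 0) (nat_lit 0)) (xa T0.l8 (xa T0.l8 (xb T0.l8 T0.l8)))
  (TrL.c (I.pos (nat_lit 0) (nat_lit 0)) (xa T5.l8 T5.l8)
  (TrL.c (I.pos (nat_lit 0) (nat_lit 0)) T0.l7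
  (TrL.c (I.pos (nat_lit 0) (nat_lit 0)) T5.l9
  TrL.n)))))))) (by decide +kernel)
theorem bx3_1 : BoxOK sI cl5 cl7 cl4 t5 t0 b3_1 :=
  box_mk (TrL.c (I.pos (nat_lit 0) (nat_lit 0)) T5.l0
  (TrL.c (I.pos (nat_lit 0) (nat_lit 0)) T0.l5
  (TrL.c (I.pos (nat_lit 0) (nat_lit 0)) T5.l7
  (TrL.c (I.pos (nat_lit 0) (nat_lit 0)) T0.l6
  (TrL.c (I.pos (nat_lit 0) (nat_lit 0)) T0.l8
  (TrL.c (I.pos (nat_lit 0) (nat_lit 0)) T5.l8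
  (TrL.c (I.pos (nat_lit 0) (nat_lit 0)) T0.l7
  (TrL.c (I.pos (nat_lit 0) (nat_lit 0)) T5.l9
  TrL.n)))))))) (by decide +kernel)
theorem bx3_2 : BoxOK sI cl5 cl7 cl4 t5 t0 b3_2 :=
  box_mk (TrL.c (I.pos (nat_lit 0) (nat_lit 0)) T5.l0
  (TrL.c (I.pos (nat_lit 0) (nat_lit 0)) T0.l5
  (TrL.c (I.pos (nat_lit 0) (nat_lit 0)) T5.l7
  (TrL.c (I.pos (nat_lit 0) (nat_lit 0)) T0.l6
  (TrL.c (I.pos (nat_lit 0) (nat_lit 0)) T0.l8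
  (TrL.c (I.pos (nat_lit 0) (nat_lit 0)) T5.l8
  (TrL.c (I.pos (nat_lit 0) (nat_lit 0)) T0.l7
  (TrL.c (I.pos (nat_lit 0) (nat_lit 0)) T5.l9
  TrL.n)))))))) (by decide +kernel)
theorem bx3_3 : BoxOK sI cl5 cl7 cl4 t5 t0 b3_3 :=
  box_mk (TrL.c (I.pos (nat_lit 0) (nat_lit 0)) (xb (xa T5.l0 T5.l0) (xa (xs T5.l0 T5.l0) T5.l0))
  (TrL.c (I.pos (nat_lit 0) (nat_lit 0)) (xb T0.l5 T0.l5)
  (TrL.c (I.pos (nat_lit 0) (nat_lit 0)) T5.l7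
  (TrL.c (I.pos (nat_lit 0) (nat_lit 0)) T0.l6
  (TrL.c (I.pos (nat_lit 0) (nat_lit 0)) (xb (xa T0.l8 T0.l8) T0.l8)
  (TrL.c (I.pos (nat_lit 0) (nat_lit 0)) T5.l8
  (TrL.c (I.pos (nat_lit 0) (nat_lit 0)) T0.l7
  (TrL.c (I.pos (nat_lit 0) (nat_lit 0)) T5.l9
  TrL.n)))))))) (by decide +kernel)
theorem bx3_4 : BoxOK sI cl5 cl7 cl4 t5 t0 b3_4 :=
  box_mk (TrL.c (I.pos (nat_lit 0) (nat_lit 0)) (xa T5.l0 T5.l0)
  (TrL.c (I.pos (nat_lit 0) (nat_lit 0)) (xa T0.l8 T0.l5)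
  (TrL.c (I.pos (nat_lit 0) (nat_lit 0)) T5.l7
  (TrL.c (I.pos (nat_lit 0) (nat_lit 0)) T0.l6
  (TrL.c (I.pos (nat_lit 0) (nat_lit 0)) (xa T0.l8 T0.l8)
  (TrL.c (I.pos (nat_lit 0) (nat_lit 0)) T5.l8
  (TrL.c (I.pos (nat_lit 0) (nat_lit 0)) T0.l7
  (TrL.c (I.pos (nat_lit 0) (nat_lit 0)) T5.l9
  TrL.n)))))))) (by decide +kernel)
theorem bx3_5 : BoxOK sI cl5 cl7 cl4 t5 t0 b3_5 :=
  box_mk (TrL.c (I.pos (nat_lit 0) (nat_lit 0)) T5.l0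
  (TrL.c (I.pos (nat_lit 0) (nat_lit 0)) T0.l5
  (TrL.c (I.pos (nat_lit 0) (nat_lit 0)) T5.l7
  (TrL.c (I.pos (nat_lit 0) (nat_lit 0)) T0.l6
  (TrL.c (I.pos (nat_lit 0) (nat_lit 0)) T0.l8
  (TrL.c (I.pos (nat_lit 0) (nat_lit 0)) T5.l8
  (TrL.c (I.pos (nat_lit 0) (nat_lit 0)) T0.l7
  (TrL.c (I.pos (nat_lit 0) (nat_lit 0)) T5.l9
  TrL.n)))))))) (by decide +kernel)
theorem bx3_6 : BoxOK sI cl5 cl7 cl4 t5 t0 b3_6 :=
  box_mk (TrL.c (I.pos (nat_lit 0) (nat_lit 0)) T5.l0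
  (TrL.c (I.pos (nat_lit 0) (nat_lit 0)) T0.l5
  (TrL.c (I.pos (nat_lit 0) (nat_lit 0)) T5.l7
  (TrL.c (I.pos (nat_lit 0) (nat_lit 0)) T0.l6
  (TrL.c (I.pos (nat_lit 0) (nat_lit 0)) T0.l8
  (TrL.c (I.pos (nat_lit 0) (nat_lit 0)) T5.l8
  (TrL.c (I.pos (nat_lit 0) (nat_lit 0)) T0.l7
  (TrL.c (I.pos (nat_lit 0) (nat_lit 0)) T5.l9
  TrL.n)))))))) (by decide +kernel)
theorem bx3_7 : BoxOK sI cl5 cl7 cl4 t5 t0 b3_7 :=
  box_mk (TrL.c (I.pos (nat_lit 0) (nat_lit 0)) (xa T5.l0 T5.l0)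
  (TrL.c (I.pos (nat_lit 0) (nat_lit 0)) T0.l5
  (TrL.c (I.pos (nat_lit 0) (nat_lit 0)) T5.l7
  (TrL.c (I.pos (nat_lit 0) (nat_lit 0)) T0.l6
  (TrL.c (I.pos (nat_lit 0) (nat_lit 0)) T0.l8
  (TrL.c (I.pos (nat_lit 0) (nat_lit 0)) T5.l8
  (TrL.c (I.pos (nat_lit 0) (nat_lit 0)) T0.l7
  (TrL.c (I.pos (nat_lit 0) (nat_lit 0)) T5.l9
  TrL.n)))))))) (by decide +kernel)
theorem bx3_8 : BoxOK sI cl5 cl7 cl4 t5 t0 b3_8 :=
  box_mk (TrL.c (I.pos (nat_lit 0) (nat_lit 0)) T5.l0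
  (TrL.c (I.pos (nat_lit 0) (nat_lit 0)) T0.l5
  (TrL.c (I.pos (nat_lit 0) (nat_lit 0)) T5.l7
  (TrL.c (I.pos (nat_lit 0) (nat_lit 0)) T0.l6
  (TrL.c (I.pos (nat_lit 0) (nat_lit 0)) T0.l8
  (TrL.c (I.pos (nat_lit 0) (nat_lit 0)) T5.l8
  (TrL.c (I.pos (nat_lit 0) (nat_lit 0)) T0.l7
  (TrL.c (I.pos (nat_lit 0) (nat_lit 0)) T5.l9
  TrL.n)))))))) (by decide +kernel)
theorem bx3_9 : BoxOK sI cl5 cl7 cl4 t5 t0 b3_9 :=
  box_mk (TrL.c (I.pos (nat_lit 0) (nat_lit 0)) (xa T5.l0 T5.l0)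
  (TrL.c (I.pos (nat_lit 0) (nat_lit 0)) T0.l5
  (TrL.c (I.pos (nat_lit 0) (nat_lit 0)) T5.l7
  (TrL.c (I.pos (nat_lit 0) (nat_lit 0)) T0.l6
  (TrL.c (I.pos (nat_lit 0) (nat_lit 0)) T0.l8
  (TrL.c (I.pos (nat_lit 0) (nat_lit 0)) T5.l8
  (TrL.c (I.pos (nat_lit 0) (nat_lit 0)) T0.l7
  (TrL.c (I.pos (nat_lit 0) (nat_lit 0)) T5.l9
  TrL.n)))))))) (by decide +kernel)
theorem bx3_10 : BoxOK sI cl5 cl7 cl4 t5 t0 b3_10 :=
  box_mk (TrL.c (I.pos (nat_lit 0) (nat_lit 0)) T5.l0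
  (TrL.c (I.pos (nat_lit 0) (nat_lit 0)) T0.l5
  (TrL.c (I.pos (nat_lit 0) (nat_lit 0)) T5.l7
  (TrL.c (I.pos (nat_lit 0) (nat_lit 0)) T0.l6
  (TrL.c (I.pos (nat_lit 0) (nat_lit 0)) T0.l8
  (TrL.c (I.pos (nat_lit 0) (nat_lit 0)) T5.l8
  (TrL.c (I.pos (nat_lit 0) (nat_lit 0)) T0.l7
  (TrL.c (I.pos (nat_lit 0) (nat_lit 0)) T5.l9
  TrL.n)))))))) (by decide +kernel)
theorem bx3_11 : BoxOK sI cl5 cl7 cl4 t5 t0 b3_11 :=
  box_mk (TrL.c (I.pos (nat_lit 0) (nat_lit 0)) T5.l0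
  (TrL.c (I.pos (nat_lit 0) (nat_lit 0)) T0.l5
  (TrL.c (I.pos (nat_lit 0) (nat_lit 0)) T5.l7
  (TrL.c (I.pos (nat_lit 0) (nat_lit 0)) T0.l6
  (TrL.c (I.pos (nat_lit 0) (nat_lit 0)) T0.l8
  (TrL.c (I.pos (nat_lit 0) (nat_lit 0)) T5.l8
  (TrL.c (I.pos (nat_lit 0) (nat_lit 0)) T0.l7
  (TrL.c (I.pos (nat_lit 0) (nat_lit 0)) T5.l9
  TrL.n)))))))) (by decide +kernel)
theorem sv3 : StarV sI cl5 cl7 cl4 t5 t0 t3 :=
  (bt_n (bt_n (bt_n (bt_b bx3_0) (bt_n (bt_b bx3_1) (bt_b bx3_2))) (bt_n (bt_b bx3_3) (bt_n (bt_b bx3_4) (bt_b bx3_5)))) (bt_n (bt_n (bt_b bx3_6) (bt_n (bt_b bx3_7) (bt_b bx3_8))) (bt_n (bt_b bx3_9) (bt_n (bt_b bx3_10) (bt_b bx3_11)))))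
def S3 : StarD := StarD.mk cl5 cl7 cl4 5 0 t3
theorem bx4_0 : BoxOK sI cl7 cl4 cl5 t1 t3 b4_0 :=
  box_mk (TrL.c (I.pos (nat_lit 0) (nat_lit 0)) (xa (xb T1.l0 (xa T1.l0 T1.l0)) (xb T1.l0 (xa T1.l0 T1.l8)))
  (TrL.c (I.pos (nat_lit 0) (nat_lit 0)) (xa (xb T3.l1 T3.l1) (xb T3.l1 T3.l1))
  (TrL.c (I.pos (nat_lit 0) (nat_lit 111196574)) (xR T1.l1 (xR T1.l1 T1.l9))
  (TrL.c (I.pos (nat_lit 0) (nat_lit 77433728)) (xR T3.l2 T3.l2)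
  (TrL.c (I.pos (nat_lit 0) (nat_lit 0)) (xa (xb (xa T3.l3 T3.l3) T3.l3) (xb (xa (xk T3.l3 T3.l3) (xk (xb T3.l3 T3.l3) (xb T3.l3 T3.l3))) (xk (xa T3.l3 (xs (xa T3.l3 T3.l3) (xb T3.l3 (xs T3.l3 (xb T3.l3 T3.l3))))) (xa (xs T3.l3 T3.l3) (xs (xa T3.l3 T3.l3) (xb T3.l3 (xs T3.l3 (xb T3.l3 (xk T3.l3 (xa T3.l3 T3.l3))))))))))
  (TrL.c (I.pos (nat_lit 0) (nat_lit 0)) (xa T1.l2 T1.l2)
  (TrL.c (I.mix (nat_lit 29511666) (nat_lit 77433728)) (xR T3.l4 (xR T3.l4 T3.l4))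
  (TrL.c (I.mix (nat_lit 29511666) (nat_lit 46070178)) (xR T1.l3 T1.l7)
  TrL.n)))))))) (by decide +kernel)
theorem bx4_1 : BoxOK sI cl7 cl4 cl5 t1 t3 b4_1 :=
  box_mk (TrL.c (I.pos (nat_lit 0) (nat_lit 0)) T1.l0
  (TrL.c (I.pos (nat_lit 0) (nat_lit 0)) T3.l1
  (TrL.c (I.pos (nat_lit 0) (nat_lit 111196574)) T1.l1
  (TrL.c (I.pos (nat_lit 0) (nat_lit 77433728)) T3.l2
  (TrL.c (I.pos (nat_lit 0) (nat_lit 0)) T3.l3
  (TrL.c (I.pos (nat_lit 0) (nat_lit 0)) T1.l2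
  (TrL.c (I.mix (nat_lit 29511666) (nat_lit 77433728)) T3.l4
  (TrL.c (I.mix (nat_lit 29511666) (nat_lit 46070178)) T1.l3
  TrL.n)))))))) (by decide +kernel)
theorem bx4_2 : BoxOK sI cl7 cl4 cl5 t1 t3 b4_2 :=
  box_mk (TrL.c (I.pos (nat_lit 0) (nat_lit 0)) (xa (xb T1.l0 T1.l0) (xb T1.l0 T1.l0))
  (TrL.c (I.pos (nat_lit 0) (nat_lit 0)) (xb T3.l1 T3.l1)
  (TrL.c (I.pos (nat_lit 0) (nat_lit 111196574)) (xR T1.l1 (xR T1.l1 T1.l1))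
  (TrL.c (I.pos (nat_lit 0) (nat_lit 77433728)) (xR T3.l2 T3.l2)
  (TrL.c (I.pos (nat_lit 0) (nat_lit 0)) (xb T3.l3 T3.l3)
  (TrL.c (I.pos (nat_lit 0) (nat_lit 0)) T1.l2
  (TrL.c (I.mix (nat_lit 29511666) (nat_lit 77433728)) T3.l4
  (TrL.c (I.mix (nat_lit 29511666) (nat_lit 46070178)) T1.l3
  TrL.n)))))))) (by decide +kernel)
theorem bx4_3 : BoxOK sI cl7 cl4 cl5 t1 t3 b4_3 :=
  box_mk (TrL.c (I.pos (nat_lit 0) (nat_lit 0)) T3.l1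
  (TrL.c (I.pos (nat_lit 0) (nat_lit 0)) T1.l1
  (TrL.c (I.mix (nat_lit 29511666) (nat_lit 77433728)) (xR T3.l5 T3.l2)
  (TrL.c (I.mix (nat_lit 29511666) (nat_lit 46070178)) (xR T1.l9 T1.l1)
  TrL.n)))) (by decide +kernel)
theorem bx4_4 : BoxOK sI cl7 cl4 cl5 t1 t3 b4_4 :=
  box_mk (TrL.c (I.pos (nat_lit 0) (nat_lit 0)) T3.l1
  (TrL.c (I.pos (nat_lit 0) (nat_lit 0)) T1.l5
  (TrL.c (I.mix (nat_lit 29511666) (nat_lit 77433728)) (xR T3.l4 T3.l4)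
  (TrL.c (I.mix (nat_lit 29511666) (nat_lit 46070178)) T1.l9
  TrL.n)))) (by decide +kernel)
theorem bx4_5 : BoxOK sI cl7 cl4 cl5 t1 t3 b4_5 :=
  box_mk (TrL.c (I.pos (nat_lit 0) (nat_lit 0)) (xb T1.l0 T1.l0)
  (TrL.c (I.pos (nat_lit 0) (nat_lit 0)) T3.l1
  (TrL.c (I.pos (nat_lit 0) (nat_lit 111196574)) (xR T1.l1 (xR T1.l1 T1.l1))
  (TrL.c (I.pos (nat_lit 0) (nat_lit 77433728)) T3.l4
  (TrL.c (I.pos (nat_lit 0) (nat_lit 0)) T3.l3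
  (TrL.c (I.pos (nat_lit 0) (nat_lit 0)) T1.l2
  (TrL.c (I.mix (nat_lit 29511666) (nat_lit 77433728)) T3.l4
  (TrL.c (I.mix (nat_lit 29511666) (nat_lit 46070178)) T1.l9
  TrL.n)))))))) (by decide +kernel)
theorem bx4_6 : BoxOK sI cl7 cl4 cl5 t1 t3 b4_6 :=
  box_mk (TrL.c (I.pos (nat_lit 0) (nat_lit 0)) T1.l0
  (TrL.c (I.pos (nat_lit 0) (nat_lit 0)) T3.l1
  (TrL.c (I.pos (nat_lit 0) (nat_lit 111196574)) T1.l1
  (TrL.c (I.pos (nat_lit 0) (nat_lit 77433728)) T3.l2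
  (TrL.c (I.pos (nat_lit 0) (nat_lit 0)) T3.l3
  (TrL.c (I.pos (nat_lit 0) (nat_lit 0)) T1.l2
  (TrL.c (I.mix (nat_lit 29511666) (nat_lit 77433728)) T3.l4
  (TrL.c (I.mix (nat_lit 29511666) (nat_lit 46070178)) T1.l3
  TrL.n)))))))) (by decide +kernel)
theorem sv4 : StarV sI cl7 cl4 cl5 t1 t3 t4 :=
  (bt_n (bt_n (bt_b bx4_0) (bt_n (bt_b bx4_1) (bt_b bx4_2))) (bt_n (bt_n (bt_b bx4_3) (bt_b bx4_4)) (bt_n (bt_b bx4_5) (bt_b bx4_6))))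
def S4 : StarD := StarD.mk cl7 cl4 cl5 1 3 t4
theorem bx5_0 : BoxOK sI cl7 cl5 cl4 t3 t1 b5_0 :=
  box_mk (TrL.c (I.pos (nat_lit 0) (nat_lit 0)) (xa (xa (xb T3.l0 T3.l0) (xb T3.l0 T3.l0)) (xa (xb T3.l0 T3.l0) (xb T3.l3 T3.l0)))
  (TrL.c (I.pos (nat_lit 0) (nat_lit 0)) (xa (xb T1.l6 T1.l6) (xa T1.l6 (xb T1.l6 T1.l6)))
  (TrL.c (I.pos (nat_lit 0) (nat_lit 111196574)) (xR T3.l4 (xR T3.l7 T3.l7))
  (TrL.c (I.pos (nat_lit 0) (nat_lit 77433728)) (xR T1.l7 T1.l7)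
  (TrL.c (I.pos (nat_lit 0) (nat_lit 0)) (xa (xb (xa T1.l8 T1.l8) T1.l8) (xb (xa (xk T1.l8 T1.l8) (xk (xb T1.l8 T1.l8) (xb T1.l8 T1.l8))) (xk (xa T1.l8 (xa T1.l8 (xs T1.l8 (xb T1.l8 T1.l8)))) (xa T1.l8 (xa (xs T1.l8 T1.l8) (xs T1.l8 (xb T1.l8 (xs T1.l8 (xb T1.l8 T1.l8)))))))))
  (TrL.c (I.pos (nat_lit 0) (nat_lit 0)) (xk (xa T3.l8 T3.l8) (xa T3.l8 T3.l8))
  (TrL.c (I.mix (nat_lit 29511666) (nat_lit 77433728)) (xR (xR T1.l9 T1.l9) (xR T1.l9 T1.l9))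
  (TrL.c (I.mix (nat_lit 29511666) (nat_lit 46070178)) (xR T3.l9 T3.l9)
  TrL.n)))))))) (by decide +kernel)
theorem bx5_1 : BoxOK sI cl7 cl5 cl4 t3 t1 b5_1 :=
  box_mk (TrL.c (I.pos (nat_lit 0) (nat_lit 0)) T3.l0
  (TrL.c (I.pos (nat_lit 0) (nat_lit 0)) T1.l6
  (TrL.c (I.pos (nat_lit 0) (nat_lit 111196574)) T3.l7
  (TrL.c (I.pos (nat_lit 0) (nat_lit 77433728)) (xR T1.l7 T1.l7)
  (TrL.c (I.pos (nat_lit 0) (nat_lit 0)) T1.l8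
  (TrL.c (I.pos (nat_lit 0) (nat_lit 0)) T3.l8
  (TrL.c (I.mix (nat_lit 29511666) (nat_lit 77433728)) (xR T1.l9 T1.l9)
  (TrL.c (I.mix (nat_lit 29511666) (nat_lit 46070178)) T3.l9
  TrL.n)))))))) (by decide +kernel)
theorem bx5_2 : BoxOK sI cl7 cl5 cl4 t3 t1 b5_2 :=
  box_mk (TrL.c (I.pos (nat_lit 0) (nat_lit 0)) T1.l6
  (TrL.c (I.pos (nat_lit 0) (nat_lit 0)) T3.l7
  (TrL.c (I.mix (nat_lit 29511666) (nat_lit 77433728)) (xR T1.l11 T1.l7)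
  (TrL.c (I.mix (nat_lit 29511666) (nat_lit 46070178)) T3.l4
  TrL.n)))) (by decide +kernel)
theorem bx5_3 : BoxOK sI cl7 cl5 cl4 t3 t1 b5_3 :=
  box_mk (TrL.c (I.pos (nat_lit 0) (nat_lit 0)) (xb T3.l0 T3.l0)
  (TrL.c (I.pos (nat_lit 0) (nat_lit 0)) (xb T1.l6 T1.l6)
  (TrL.c (I.pos (nat_lit 0) (nat_lit 111196574)) (xR T3.l7 (xR T3.l7 T3.l7))
  (TrL.c (I.pos (nat_lit 0) (nat_lit 77433728)) (xR T1.l7 T1.l7)
  (TrL.c (I.pos (nat_lit 0) (nat_lit 0)) (xb T1.l8 T1.l8)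
  (TrL.c (I.pos (nat_lit 0) (nat_lit 0)) T3.l8
  (TrL.c (I.mix (nat_lit 29511666) (nat_lit 77433728)) (xR T1.l9 T1.l9)
  (TrL.c (I.mix (nat_lit 29511666) (nat_lit 46070178)) T3.l9
  TrL.n)))))))) (by decide +kernel)
theorem bx5_4 : BoxOK sI cl7 cl5 cl4 t3 t1 b5_4 :=
  box_mk (TrL.c (I.pos (nat_lit 0) (nat_lit 0)) T3.l0
  (TrL.c (I.pos (nat_lit 0) (nat_lit 0)) T1.l6
  (TrL.c (I.pos (nat_lit 0) (nat_lit 111196574)) T3.l7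
  (TrL.c (I.pos (nat_lit 0) (nat_lit 77433728)) T1.l7
  (TrL.c (I.pos (nat_lit 0) (nat_lit 0)) T1.l8
  (TrL.c (I.pos (nat_lit 0) (nat_lit 0)) T3.l8
  (TrL.c (I.mix (nat_lit 29511666) (nat_lit 77433728)) T1.l9
  (TrL.c (I.mix (nat_lit 29511666) (nat_lit 46070178)) T3.l9
  TrL.n)))))))) (by decide +kernel)
theorem bx5_5 : BoxOK sI cl7 cl5 cl4 t3 t1 b5_5 :=
  box_mk (TrL.c (I.pos (nat_lit 0) (nat_lit 0)) T3.l0
  (TrL.c (I.pos (nat_lit 0) (nat_lit 0)) T1.l6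
  (TrL.c (I.pos (nat_lit 0) (nat_lit 111196574)) T3.l7
  (TrL.c (I.pos (nat_lit 0) (nat_lit 77433728)) T1.l7
  (TrL.c (I.pos (nat_lit 0) (nat_lit 0)) T1.l8
  (TrL.c (I.pos (nat_lit 0) (nat_lit 0)) T3.l8
  (TrL.c (I.mix (nat_lit 29511666) (nat_lit 77433728)) (xR T1.l9 T1.l9)
  (TrL.c (I.mix (nat_lit 29511666) (nat_lit 46070178)) T3.l9
  TrL.n)))))))) (by decide +kernel)
theorem bx5_6 : BoxOK sI cl7 cl5 cl4 t3 t1 b5_6 :=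
  box_mk (TrL.c (I.pos (nat_lit 0) (nat_lit 0)) T1.l10
  (TrL.c (I.pos (nat_lit 0) (nat_lit 0)) T3.l7
  (TrL.c (I.mix (nat_lit 29511666) (nat_lit 77433728)) T1.l11
  (TrL.c (I.mix (nat_lit 29511666) (nat_lit 46070178)) T3.l4
  TrL.n)))) (by decide +kernel)
theorem bx5_7 : BoxOK sI cl7 cl5 cl4 t3 t1 b5_7 :=
  box_mk (TrL.c (I.pos (nat_lit 0) (nat_lit 0)) T3.l0
  (TrL.c (I.pos (nat_lit 0) (nat_lit 0)) T1.l6
  (TrL.c (I.pos (nat_lit 0) (nat_lit 111196574)) T3.l7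
  (TrL.c (I.pos (nat_lit 0) (nat_lit 77433728)) T1.l7
  (TrL.c (I.pos (nat_lit 0) (nat_lit 0)) T1.l8
  (TrL.c (I.pos (nat_lit 0) (nat_lit 0)) T3.l8
  (TrL.c (I.mix (nat_lit 29511666) (nat_lit 77433728)) T1.l9
  (TrL.c (I.mix (nat_lit 29511666) (nat_lit 46070178)) T3.l9
  TrL.n)))))))) (by decide +kernel)
theorem bx5_8 : BoxOK sI cl7 cl5 cl4 t3 t1 b5_8 :=
  box_mk (TrL.c (I.pos (nat_lit 0) (nat_lit 0)) T3.l0
  (TrL.c (I.pos (nat_lit 0) (nat_lit 0)) T1.l6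
  (TrL.c (I.pos (nat_lit 0) (nat_lit 111196574)) T3.l7
  (TrL.c (I.pos (nat_lit 0) (nat_lit 77433728)) (xR T1.l7 T1.l7)
  (TrL.c (I.pos (nat_lit 0) (nat_lit 0)) T1.l8
  (TrL.c (I.pos (nat_lit 0) (nat_lit 0)) T3.l8
  (TrL.c (I.mix (nat_lit 29511666) (nat_lit 77433728)) (xR T1.l9 T1.l1)
  (TrL.c (I.mix (nat_lit 29511666) (nat_lit 46070178)) T3.l9
  TrL.n)))))))) (by decide +kernel)
theorem bx5_9 : BoxOK sI cl7 cl5 cl4 t3 t1 b5_9 :=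
  box_mk (TrL.c (I.pos (nat_lit 0) (nat_lit 0)) T1.l6
  (TrL.c (I.pos (nat_lit 0) (nat_lit 0)) T3.l7
  (TrL.c (I.mix (nat_lit 29511666) (nat_lit 77433728)) (xR T1.l11 T1.l7)
  (TrL.c (I.mix (nat_lit 29511666) (nat_lit 46070178)) T3.l4
  TrL.n)))) (by decide +kernel)
theorem sv5 : StarV sI cl7 cl5 cl4 t3 t1 t5 :=
  (bt_n (bt_n (bt_n (bt_b bx5_0) (bt_b bx5_1)) (bt_n (bt_b bx5_2) (bt_n (bt_b bx5_3) (bt_b bx5_4)))) (bt_n (bt_n (bt_b bx5_5) (bt_b bx5_6)) (bt_n (bt_b bx5_7) (bt_n (bt_b bx5_8) (bt_b bx5_9)))))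
def S5 : StarD := StarD.mk cl7 cl5 cl4 3 1 t5
def G : List StarD := [S0, S1, S2, S3, S4, S5]
theorem so0 : StarOK sI G S0 :=
  star_mk (by decide) (by decide) rfl rfl rfl rfl rfl rfl (rfl : _ = t2) (rfl : _ = t4)
  (st_mk (Pth.l (Pth.l (Pth.l Pth.z))) (nat_lit 246611244) (nat_lit 250114305) (by decide +kernel))
  (st_mk (Pth.l (Pth.l (Pth.l Pth.z))) (nat_lit 284227305) (nat_lit 288951834) (by decide +kernel))
  (st_mk (Pth.l (Pth.l (Pth.l Pth.z))) (nat_lit 328156324) (nat_lit 334571538) (by decide +kernel)) sv0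
theorem so1 : StarOK sI G S1 :=
  star_mk (by decide) (by decide) rfl rfl rfl rfl rfl rfl (rfl : _ = t4) (rfl : _ = t2)
  (st_mk (Pth.l (Pth.l (Pth.l Pth.z))) (nat_lit 143993826) (nat_lit 168227004) (by decide +kernel))
  (st_mk (Pth.l (Pth.l (Pth.l Pth.z))) (nat_lit 181174844) (nat_lit 206553076) (by decide +kernel))
  (st_mk (Pth.l (Pth.l (Pth.l Pth.z))) (nat_lit 224773520) (nat_lit 251780786) (by decide +kernel)) sv1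
theorem so2 : StarOK sI G S2 :=
  star_mk (by decide) (by decide) rfl rfl rfl rfl rfl rfl (rfl : _ = t0) (rfl : _ = t5)
  (st_mk (Pth.l (Pth.l Pth.z)) (nat_lit 375184100) (nat_lit 379378796) (by decide +kernel))
  (st_mk (Pth.l (Pth.l Pth.z)) (nat_lit 412174464) (nat_lit 417275241) (by decide +kernel))
  (st_mk (Pth.l (Pth.l Pth.z)) (nat_lit 455117222) (nat_lit 461392335) (by decide +kernel)) sv2
theorem so3 : StarOK sI G S3 :=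
  star_mk (by decide) (by decide) rfl rfl rfl rfl rfl rfl (rfl : _ = t5) (rfl : _ = t0)
  (st_mk (Pth.l (Pth.l (Pth.l Pth.z))) (nat_lit 142740023) (nat_lit 166122972) (by decide +kernel))
  (st_mk (Pth.l (Pth.l (Pth.l Pth.z))) (nat_lit 179185064) (nat_lit 203318105) (by decide +kernel))
  (st_mk (Pth.l (Pth.l (Pth.l Pth.z))) (nat_lit 221692017) (nat_lit 246871834) (by decide +kernel)) sv3
theorem so4 : StarOK sI G S4 :=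
  star_mk (by decide) (by decide) rfl rfl rfl rfl rfl rfl (rfl : _ = t1) (rfl : _ = t3)
  (st_mk (Pth.l (Pth.l Pth.z)) (nat_lit 368613078) (nat_lit 373692853) (by decide +kernel))
  (st_mk (Pth.l (Pth.l Pth.z)) (nat_lit 404393352) (nat_lit 410193836) (by decide +kernel))
  (st_mk (Pth.l (Pth.l Pth.z)) (nat_lit 445782697) (nat_lit 452506344) (by decide +kernel)) sv4
theorem so5 : StarOK sI G S5 :=
  star_mk (by decide) (by decide) rfl rfl rfl rfl rfl rfl (rfl : _ = t3) (rfl : _ = t1)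
  (st_mk (Pth.l (Pth.l (Pth.l Pth.z))) (nat_lit 240508101) (nat_lit 242999261) (by decide +kernel))
  (st_mk (Pth.l (Pth.l (Pth.l Pth.z))) (nat_lit 276183044) (nat_lit 279308973) (by decide +kernel))
  (st_mk (Pth.l (Pth.l (Pth.l Pth.z))) (nat_lit 316946659) (nat_lit 321998346) (by decide +kernel)) sv5
theorem ok : GroupOK (nat_lit 0) (nat_lit 91291648) G := grp_mk (allS_c so0 (allS_c so1 (allS_c so2 (allS_c so3 (allS_c so4 (allS_c so5 allS_n))))))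
theorem cov : GCov G cl4 cl5 cl7 := cov_mk
  ⟨0, by decide, rfl, rfl, rfl⟩ ⟨1, by decide, rfl, rfl, rfl⟩ ⟨2, by decide, rfl, rfl, rfl⟩ ⟨3, by decide, rfl, rfl, rfl⟩ ⟨4, by decide, rfl, rfl, rfl⟩ ⟨5, by decide, rfl, rfl, rfl⟩
end Q124_0

namespace Q124_1
def sI : I := I.pos (nat_lit 91226112) (nat_lit 150339584)
def b0_0 : Bx := Bx.mk (St.mk (I.pos (nat_lit 156844032) (nat_lit 230637568)) (I.mix (nat_lit 2768896) (nat_lit 85573632)) (I.mix (nat_lit 10108928) (nat_lit 72040448)) (I.pos (nat_lit 245678080) (nat_lit 359661568)) (I.mix (nat_lit 125452288) (nat_lit 93519872)) (I.mix (nat_lit 87621632) (nat_lit 87654400)) (I.mix (nat_lit 141099008) (nat_lit 131252224)))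
  false (nat_lit 16786437)
def b0_1 : Bx := Bx.mk (St.mk (I.pos (nat_lit 26345472) (nat_lit 65110016)) (I.mix (nat_lit 12402688) (nat_lit 47202304)) (I.neg (nat_lit 11894784) (nat_lit 44466176)) (I.pos (nat_lit 144539648) (nat_lit 162267136)) (I.mix (nat_lit 51314688) (nat_lit 72908800)) (I.mix (nat_lit 65159168) (nat_lit 44417024)) (I.mix (nat_lit 36323328) (nat_lit 25673728)))
  false (nat_lit 0)
def b0_2 : Bx := Bx.mk (St.mk (I.pos (nat_lit 54624256) (nat_lit 95617024)) (I.mix (nat_lit 62455808) (nat_lit 14712832)) (I.neg (nat_lit 27770880) (nat_lit 75268096)) (I.pos (nat_lit 150142976) (nat_lit 180912128)) (I.mix (nat_lit 104005632) (nat_lit 51593216)) (I.mix (nat_lit 54820864) (nat_lit 98533376)) (I.mix (nat_lit 37273600) (nat_lit 61521920)))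
  false (nat_lit 0)
def b0_3 : Bx := Bx.mk (St.mk (I.neg (nat_lit 26345472) (nat_lit 65110016)) (I.mix (nat_lit 47202304) (nat_lit 12435456)) (I.neg (nat_lit 11894784) (nat_lit 44482560)) (I.pos (nat_lit 144539648) (nat_lit 162267136)) (I.mix (nat_lit 72908800) (nat_lit 51314688)) (I.mix (nat_lit 44417024) (nat_lit 65159168)) (I.mix (nat_lit 36323328) (nat_lit 25673728)))
  true (nat_lit 0)
def b0_4 : Bx := Bx.mk (St.mk (I.pos (nat_lit 46350336) (nat_lit 63700992)) (I.mix (nat_lit 12828672) (nat_lit 11010048)) (I.neg (nat_lit 28114944) (nat_lit 44056576)) (I.pos (nat_lit 148193280) (nat_lit 160432128)) (I.mix (nat_lit 43696128) (nat_lit 29851648)) (I.mix (nat_lit 34832384) (nat_lit 32538624)) (I.mix (nat_lit 17825792) (nat_lit 21348352)))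
  false (nat_lit 0)
def b0_5 : Bx := Bx.mk (St.mk (I.pos (nat_lit 210862080) (nat_lit 255639552)) (I.mix (nat_lit 21889024) (nat_lit 20348928)) (I.neg (nat_lit 48267264) (nat_lit 128172032)) (I.pos (nat_lit 329711616) (nat_lit 405667840)) (I.mix (nat_lit 118259712) (nat_lit 34013184)) (I.mix (nat_lit 78708736) (nat_lit 85475328)) (I.mix (nat_lit 124452864) (nat_lit 175243264)))
  false (nat_lit 0)
def b0_6 : Bx := Bx.mk (St.mk (I.pos (nat_lit 180092928) (nat_lit 250986496)) (I.mix (nat_lit 24510464) (nat_lit 84328448)) (I.mix (nat_lit 129794048) (nat_lit 64929792)) (I.pos (nat_lit 298500096) (nat_lit 392232960)) (I.mix (nat_lit 135184384) (nat_lit 113213440)) (I.mix (nat_lit 119898112) (nat_lit 108003328)) (I.mix (nat_lit 204308480) (nat_lit 206471168)))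
  false (nat_lit 23662806)
def b0_7 : Bx := Bx.mk (St.mk (I.pos (nat_lit 59490304) (nat_lit 150618112)) (I.mix (nat_lit 72531968) (nat_lit 917504)) (I.neg (nat_lit 17514496) (nat_lit 86294528)) (I.pos (nat_lit 156844032) (nat_lit 233095168)) (I.mix (nat_lit 101826560) (nat_lit 72925184)) (I.mix (nat_lit 58900480) (nat_lit 98992128)) (I.mix (nat_lit 47300608) (nat_lit 88948736)))
  false (nat_lit 0)
def b0_8 : Bx := Bx.mk (St.mk (I.mix (nat_lit 43646976) (nat_lit 9388032)) (I.mix (nat_lit 41746432) (nat_lit 12075008)) (I.neg (nat_lit 13762560) (nat_lit 22839296)) (I.pos (nat_lit 142131200) (nat_lit 154763264)) (I.mix (nat_lit 46104576) (nat_lit 48758784)) (I.mix (nat_lit 31342592) (nat_lit 54460416)) (I.mix (nat_lit 10092544) (nat_lit 9617408)))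
  true (nat_lit 0)
def b0_9 : Bx := Bx.mk (St.mk (I.pos (nat_lit 151797760) (nat_lit 206667776)) (I.mix (nat_lit 802816) (nat_lit 67043328)) (I.mix (nat_lit 16416768) (nat_lit 58556416)) (I.pos (nat_lit 246054912) (nat_lit 313278464)) (I.mix (nat_lit 125419520) (nat_lit 46972928)) (I.mix (nat_lit 129581056) (nat_lit 79626240)) (I.mix (nat_lit 120471552) (nat_lit 80969728)))
  false (nat_lit 0)
def b0_10 : Bx := Bx.mk (St.mk (I.mix (nat_lit 9388032) (nat_lit 43646976)) (I.mix (nat_lit 12075008) (nat_lit 41746432)) (I.neg (nat_lit 13762560) (nat_lit 22839296)) (I.pos (nat_lit 142131200) (nat_lit 154763264)) (I.mix (nat_lit 48758784) (nat_lit 46104576)) (I.mix (nat_lit 54460416) (nat_lit 31342592)) (I.mix (nat_lit 10092544) (nat_lit 9617408)))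
  false (nat_lit 0)
def b0_11 : Bx := Bx.mk (St.mk (I.pos (nat_lit 115556352) (nat_lit 189251584)) (I.mix (nat_lit 45809664) (nat_lit 18251776)) (I.mix (nat_lit 69107712) (nat_lit 1130496)) (I.pos (nat_lit 198754304) (nat_lit 280018944)) (I.mix (nat_lit 74350592) (nat_lit 72564736)) (I.mix (nat_lit 77053952) (nat_lit 72663040)) (I.mix (nat_lit 77496320) (nat_lit 65355776)))
  false (nat_lit 0)
def b0_12 : Bx := Bx.mk (St.mk (I.pos (nat_lit 150405120) (nat_lit 193986560)) (I.mix (nat_lit 12795904) (nat_lit 48988160)) (I.mix (nat_lit 34439168) (nat_lit 39960576)) (I.pos (nat_lit 246956032) (nat_lit 288358400)) (I.mix (nat_lit 126697472) (nat_lit 93913088)) (I.mix (nat_lit 151797760) (nat_lit 89030656)) (I.mix (nat_lit 150192128) (nat_lit 78741504)))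
  false (nat_lit 0)
def t0 : BTr := (BTr.n (BTr.n (BTr.n (BTr.b b0_0) (BTr.n (BTr.b b0_1) (BTr.b b0_2))) (BTr.n (BTr.b b0_3) (BTr.n (BTr.b b0_4) (BTr.b b0_5)))) (BTr.n (BTr.n (BTr.b b0_6) (BTr.n (BTr.b b0_7) (BTr.b b0_8))) (BTr.n (BTr.n (BTr.b b0_9) (BTr.b b0_10)) (BTr.n (BTr.b b0_11) (BTr.b b0_12)))))
namespace T0
def l0 : Tr := Tr.L (Pth.l (Pth.l (Pth.l Pth.z)))
def l1 : Tr := Tr.L (Pth.l (Pth.l (Pth.r (Pth.l Pth.z))))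
def l2 : Tr := Tr.L (Pth.l (Pth.l (Pth.r (Pth.r Pth.z))))
def l3 : Tr := Tr.L (Pth.l (Pth.r (Pth.l Pth.z)))
def l4 : Tr := Tr.L (Pth.l (Pth.r (Pth.r (Pth.l Pth.z))))
def l5 : Tr := Tr.L (Pth.l (Pth.r (Pth.r (Pth.r Pth.z))))
def l6 : Tr := Tr.L (Pth.r (Pth.l (Pth.l Pth.z)))
def l7 : Tr := Tr.L (Pth.r (Pth.l (Pth.r (Pth.l Pth.z))))
def l8 : Tr := Tr.L (Pth.r (Pth.l (Pth.r (Pth.r Pth.z))))
def l9 : Tr := Tr.L (Pth.r (Pth.r (Pth.l (Pth.l Pth.z))))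
def l10 : Tr := Tr.L (Pth.r (Pth.r (Pth.l (Pth.r Pth.z))))
def l11 : Tr := Tr.L (Pth.r (Pth.r (Pth.r (Pth.l Pth.z))))
def l12 : Tr := Tr.L (Pth.r (Pth.r (Pth.r (Pth.r Pth.z))))
end T0
def b1_0 : Bx := Bx.mk (St.mk (I.pos (nat_lit 156647424) (nat_lit 236224512)) (I.mix (nat_lit 2146304) (nat_lit 64618496)) (I.mix (nat_lit 2850816) (nat_lit 88571904)) (I.pos (nat_lit 143441920) (nat_lit 281329664)) (I.mix (nat_lit 124223488) (nat_lit 75972608)) (I.mix (nat_lit 88489984) (nat_lit 77168640)) (I.mix (nat_lit 127418368) (nat_lit 107102208)))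
  false (nat_lit 0)
def b1_1 : Bx := Bx.mk (St.mk (I.mix (nat_lit 27754496) (nat_lit 116899840)) (I.mix (nat_lit 8912896) (nat_lit 38174720)) (I.mix (nat_lit 20234240) (nat_lit 16924672)) (I.pos (nat_lit 38748160) (nat_lit 115113984)) (I.mix (nat_lit 43925504) (nat_lit 52690944)) (I.mix (nat_lit 49496064) (nat_lit 35799040)) (I.mix (nat_lit 37896192) (nat_lit 23773184)))
  false (nat_lit 0)
def b1_2 : Bx := Bx.mk (St.mk (I.pos (nat_lit 93749248) (nat_lit 143081472)) (I.mix (nat_lit 63012864) (nat_lit 11714560)) (I.neg (nat_lit 2736128) (nat_lit 68026368)) (I.pos (nat_lit 80347136) (nat_lit 141148160)) (I.mix (nat_lit 107888640) (nat_lit 43237376)) (I.mix (nat_lit 52854784) (nat_lit 97976320)) (I.mix (nat_lit 37437440) (nat_lit 74973184)))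
  false (nat_lit 0)
def b1_3 : Bx := Bx.mk (St.mk (I.mix (nat_lit 35733504) (nat_lit 69763072)) (I.mix (nat_lit 32325632) (nat_lit 5898240)) (I.neg (nat_lit 425984) (nat_lit 21905408)) (I.pos (nat_lit 41467904) (nat_lit 82690048)) (I.mix (nat_lit 45613056) (nat_lit 23363584)) (I.mix (nat_lit 24346624) (nat_lit 42041344)) (I.mix (nat_lit 12959744) (nat_lit 17039360)))
  false (nat_lit 0)
def b1_4 : Bx := Bx.mk (St.mk (I.pos (nat_lit 183992320) (nat_lit 248741888)) (I.mix (nat_lit 20545536) (nat_lit 65880064)) (I.mix (nat_lit 69894144) (nat_lit 88932352)) (I.pos (nat_lit 211697664) (nat_lit 303087616)) (I.mix (nat_lit 121356288) (nat_lit 100810752)) (I.mix (nat_lit 116129792) (nat_lit 94961664)) (I.mix (nat_lit 187105280) (nat_lit 154583040)))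
  false (nat_lit 0)
def b1_5 : Bx := Bx.mk (St.mk (I.mix (nat_lit 45072384) (nat_lit 51806208)) (I.mix (nat_lit 8339456) (nat_lit 9682944)) (I.neg (nat_lit 2392064) (nat_lit 12025856)) (I.pos (nat_lit 41975808) (nat_lit 76234752)) (I.mix (nat_lit 26001408) (nat_lit 18022400)) (I.mix (nat_lit 20725760) (nat_lit 19333120)) (I.mix (nat_lit 8650752) (nat_lit 7847936)))
  false (nat_lit 0)
def b1_6 : Bx := Bx.mk (St.mk (I.pos (nat_lit 86097920) (nat_lit 112640000)) (I.mix (nat_lit 12156928) (nat_lit 10371072)) (I.neg (nat_lit 2818048) (nat_lit 23019520)) (I.pos (nat_lit 75956224) (nat_lit 113262592)) (I.mix (nat_lit 39108608) (nat_lit 24707072)) (I.mix (nat_lit 27475968) (nat_lit 27901952)) (I.mix (nat_lit 20709376) (nat_lit 22478848)))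
  false (nat_lit 0)
def b1_7 : Bx := Bx.mk (St.mk (I.pos (nat_lit 209518592) (nat_lit 258162688)) (I.mix (nat_lit 19005440) (nat_lit 20873216)) (I.mix (nat_lit 74203136) (nat_lit 1409024)) (I.pos (nat_lit 239550464) (nat_lit 330989568)) (I.mix (nat_lit 105562112) (nat_lit 32702464)) (I.mix (nat_lit 62390272) (nat_lit 67895296)) (I.mix (nat_lit 106479616) (nat_lit 130383872)))
  false (nat_lit 0)
def b1_8 : Bx := Bx.mk (St.mk (I.pos (nat_lit 85049344) (nat_lit 167034880)) (I.mix (nat_lit 65175552) (nat_lit 5455872)) (I.neg (nat_lit 8798208) (nat_lit 69058560)) (I.pos (nat_lit 89210880) (nat_lit 172556288)) (I.mix (nat_lit 100958208) (nat_lit 53264384)) (I.mix (nat_lit 56295424) (nat_lit 76939264)) (I.mix (nat_lit 44285952) (nat_lit 72171520)))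
  false (nat_lit 0)
def b1_9 : Bx := Bx.mk (St.mk (I.mix (nat_lit 28835840) (nat_lit 83066880)) (I.mix (nat_lit 34553856) (nat_lit 5423104)) (I.neg (nat_lit 475136) (nat_lit 25657344)) (I.pos (nat_lit 38797312) (nat_lit 89997312)) (I.mix (nat_lit 41402368) (nat_lit 31129600)) (I.mix (nat_lit 27148288) (nat_lit 35078144)) (I.mix (nat_lit 15597568) (nat_lit 19791872)))
  false (nat_lit 0)
def b1_10 : Bx := Bx.mk (St.mk (I.pos (nat_lit 160284672) (nat_lit 214679552)) (I.mix (nat_lit 15777792) (nat_lit 64602112)) (I.mix (nat_lit 9994240) (nat_lit 86786048)) (I.pos (nat_lit 151076864) (nat_lit 245628928)) (I.mix (nat_lit 142835712) (nat_lit 48644096)) (I.mix (nat_lit 144834560) (nat_lit 84262912)) (I.mix (nat_lit 154484736) (nat_lit 87441408)))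
  false (nat_lit 0)
def b1_11 : Bx := Bx.mk (St.mk (I.mix (nat_lit 36225024) (nat_lit 113967104)) (I.mix (nat_lit 11206656) (nat_lit 40468480)) (I.mix (nat_lit 14254080) (nat_lit 20021248)) (I.pos (nat_lit 40386560) (nat_lit 110559232)) (I.mix (nat_lit 52248576) (nat_lit 33652736)) (I.mix (nat_lit 48103424) (nat_lit 34897920)) (I.mix (nat_lit 26116096) (nat_lit 19988480)))
  false (nat_lit 0)
def b1_12 : Bx := Bx.mk (St.mk (I.pos (nat_lit 145063936) (nat_lit 197689344)) (I.mix (nat_lit 38633472) (nat_lit 8568832)) (I.mix (nat_lit 47742976) (nat_lit 11272192)) (I.pos (nat_lit 131022848) (nat_lit 213532672)) (I.mix (nat_lit 71106560) (nat_lit 65519616)) (I.mix (nat_lit 74366976) (nat_lit 72318976)) (I.mix (nat_lit 78069760) (nat_lit 73089024)))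
  false (nat_lit 0)
def b1_13 : Bx := Bx.mk (St.mk (I.pos (nat_lit 144244736) (nat_lit 164052992)) (I.neg (nat_lit 13680640) (nat_lit 35651584)) (I.neg (nat_lit 15319040) (nat_lit 43008000)) (I.pos (nat_lit 130613248) (nat_lit 169230336)) (I.mix (nat_lit 26509312) (nat_lit 10698752)) (I.mix (nat_lit 9027584) (nat_lit 13402112)) (I.mix (nat_lit 9175040) (nat_lit 14139392)))
  false (nat_lit 0)
def b1_14 : Bx := Bx.mk (St.mk (I.mix (nat_lit 39731200) (nat_lit 87457792)) (I.mix (nat_lit 13238272) (nat_lit 3620864)) (I.neg (nat_lit 425984) (nat_lit 13565952)) (I.pos (nat_lit 43237376) (nat_lit 91308032)) (I.mix (nat_lit 12435456) (nat_lit 13205504)) (I.mix (nat_lit 8798208) (nat_lit 10829824)) (I.mix (nat_lit 5292032) (nat_lit 6488064)))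
  false (nat_lit 0)
def b1_15 : Bx := Bx.mk (St.mk (I.pos (nat_lit 160301056) (nat_lit 200867840)) (I.mix (nat_lit 24494080) (nat_lit 32440320)) (I.mix (nat_lit 23674880) (nat_lit 46219264)) (I.pos (nat_lit 151633920) (nat_lit 219250688)) (I.mix (nat_lit 112541696) (nat_lit 67551232)) (I.mix (nat_lit 131072000) (nat_lit 73744384)) (I.mix (nat_lit 141967360) (nat_lit 75710464)))
  false (nat_lit 0)
def t1 : BTr := (BTr.n (BTr.n (BTr.n (BTr.n (BTr.b b1_0) (BTr.b b1_1)) (BTr.n (BTr.b b1_2) (BTr.b b1_3))) (BTr.n (BTr.n (BTr.b b1_4) (BTr.b b1_5)) (BTr.n (BTr.b b1_6) (BTr.b b1_7)))) (BTr.n (BTr.n (BTr.n (BTr.b b1_8) (BTr.b b1_9)) (BTr.n (BTr.b b1_10) (BTr.b b1_11))) (BTr.n (BTr.n (BTr.b b1_12) (BTr.b b1_13)) (BTr.n (BTr.b b1_14) (BTr.b b1_15)))))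
namespace T1
def l0 : Tr := Tr.L (Pth.l (Pth.l (Pth.l (Pth.l Pth.z))))
def l1 : Tr := Tr.L (Pth.l (Pth.l (Pth.l (Pth.r Pth.z))))
def l2 : Tr := Tr.L (Pth.l (Pth.l (Pth.r (Pth.l Pth.z))))
def l3 : Tr := Tr.L (Pth.l (Pth.l (Pth.r (Pth.r Pth.z))))
def l4 : Tr := Tr.L (Pth.l (Pth.r (Pth.l (Pth.l Pth.z))))
def l5 : Tr := Tr.L (Pth.l (Pth.r (Pth.l (Pth.r Pth.z))))
def l6 : Tr := Tr.L (Pth.l (Pth.r (Pth.r (Pth.l Pth.z))))
def l7 : Tr := Tr.L (Pth.l (Pth.r (Pth.r (Pth.r Pth.z))))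
def l8 : Tr := Tr.L (Pth.r (Pth.l (Pth.l (Pth.l Pth.z))))
def l9 : Tr := Tr.L (Pth.r (Pth.l (Pth.l (Pth.r Pth.z))))
def l10 : Tr := Tr.L (Pth.r (Pth.l (Pth.r (Pth.l Pth.z))))
def l11 : Tr := Tr.L (Pth.r (Pth.l (Pth.r (Pth.r Pth.z))))
def l12 : Tr := Tr.L (Pth.r (Pth.r (Pth.l (Pth.l Pth.z))))
def l13 : Tr := Tr.L (Pth.r (Pth.r (Pth.l (Pth.r Pth.z))))
def l14 : Tr := Tr.L (Pth.r (Pth.r (Pth.r (Pth.l Pth.z))))
def l15 : Tr := Tr.L (Pth.r (Pth.r (Pth.r (Pth.r Pth.z))))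
end T1
def b2_0 : Bx := Bx.mk (St.mk (I.pos (nat_lit 139935744) (nat_lit 217481216)) (I.mix (nat_lit 3391488) (nat_lit 107003904)) (I.mix (nat_lit 6275072) (nat_lit 90947584)) (I.pos (nat_lit 375455744) (nat_lit 468729856)) (I.mix (nat_lit 164380672) (nat_lit 103628800)) (I.mix (nat_lit 115752960) (nat_lit 106676224)) (I.mix (nat_lit 142393344) (nat_lit 144474112)))
  false (nat_lit 4948160)
def b2_1 : Bx := Bx.mk (St.mk (I.mix (nat_lit 54935552) (nat_lit 4538368)) (I.mix (nat_lit 4194304) (nat_lit 93487104)) (I.neg (nat_lit 54755328) (nat_lit 81297408)) (I.pos (nat_lit 265715712) (nat_lit 293437440)) (I.mix (nat_lit 63750144) (nat_lit 126812160)) (I.mix (nat_lit 103923712) (nat_lit 87113728)) (I.mix (nat_lit 51511296) (nat_lit 43663360)))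
  true (nat_lit 0)
def b2_2 : Bx := Bx.mk (St.mk (I.pos (nat_lit 10338304) (nat_lit 54493184)) (I.neg (nat_lit 28934144) (nat_lit 92520448)) (I.neg (nat_lit 54755328) (nat_lit 81297408)) (I.pos (nat_lit 269189120) (nat_lit 293339136)) (I.mix (nat_lit 126812160) (nat_lit 63750144)) (I.mix (nat_lit 87113728) (nat_lit 103923712)) (I.mix (nat_lit 51511296) (nat_lit 43663360)))
  false (nat_lit 18617386)
def b2_3 : Bx := Bx.mk (St.mk (I.pos (nat_lit 13172736) (nat_lit 126533632)) (I.mix (nat_lit 99008512) (nat_lit 2850816)) (I.neg (nat_lit 8060928) (nat_lit 100270080)) (I.pos (nat_lit 262586368) (nat_lit 340115456)) (I.mix (nat_lit 143654912) (nat_lit 88358912)) (I.mix (nat_lit 89882624) (nat_lit 107806720)) (I.mix (nat_lit 94994432) (nat_lit 91897856)))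
  false (nat_lit 43115460)
def b2_4 : Bx := Bx.mk (St.mk (I.pos (nat_lit 85688320) (nat_lit 191873024)) (I.mix (nat_lit 49840128) (nat_lit 96714752)) (I.mix (nat_lit 59097088) (nat_lit 86048768)) (I.pos (nat_lit 300810240) (nat_lit 429817856)) (I.mix (nat_lit 173490176) (nat_lit 91701248)) (I.mix (nat_lit 164872192) (nat_lit 129744896)) (I.mix (nat_lit 169181184) (nat_lit 151142400)))
  false (nat_lit 0)
def b2_5 : Bx := Bx.mk (St.mk (I.neg (nat_lit 13156352) (nat_lit 126550016)) (I.mix (nat_lit 2850816) (nat_lit 99008512)) (I.neg (nat_lit 8060928) (nat_lit 100286464)) (I.pos (nat_lit 262586368) (nat_lit 340115456)) (I.mix (nat_lit 88375296) (nat_lit 143654912)) (I.mix (nat_lit 107806720) (nat_lit 89899008)) (I.mix (nat_lit 95010816) (nat_lit 91914240)))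
  true (nat_lit 0)
def b2_6 : Bx := Bx.mk (St.mk (I.pos (nat_lit 177750016) (nat_lit 271499264)) (I.mix (nat_lit 10108928) (nat_lit 58703872)) (I.mix (nat_lit 151011328) (nat_lit 819200)) (I.pos (nat_lit 411533312) (nat_lit 561971200)) (I.mix (nat_lit 109527040) (nat_lit 76169216)) (I.mix (nat_lit 80805888) (nat_lit 89587712)) (I.mix (nat_lit 134234112) (nat_lit 162430976)))
  false (nat_lit 0)
def b2_7 : Bx := Bx.mk (St.mk (I.mix (nat_lit 10108928) (nat_lit 40484864)) (I.mix (nat_lit 43040768) (nat_lit 7454720)) (I.neg (nat_lit 55558144) (nat_lit 69124096)) (I.pos (nat_lit 266207232) (nat_lit 280297472)) (I.mix (nat_lit 54886400) (nat_lit 54378496)) (I.mix (nat_lit 53985280) (nat_lit 47366144)) (I.mix (nat_lit 15056896) (nat_lit 17793024)))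
  false (nat_lit 0)
def b2_8 : Bx := Bx.mk (St.mk (I.mix (nat_lit 10731520) (nat_lit 8978432)) (I.mix (nat_lit 6815744) (nat_lit 20299776)) (I.neg (nat_lit 59129856) (nat_lit 66535424)) (I.pos (nat_lit 266240000) (nat_lit 273956864)) (I.mix (nat_lit 23855104) (nat_lit 35454976)) (I.mix (nat_lit 29294592) (nat_lit 20758528)) (I.mix (nat_lit 1966080) (nat_lit 5931008)))
  true (nat_lit 0)
def b2_9 : Bx := Bx.mk (St.mk (I.pos (nat_lit 163119104) (nat_lit 224034816)) (I.pos (nat_lit 21331968) (nat_lit 93634560)) (I.mix (nat_lit 40599552) (nat_lit 66191360)) (I.pos (nat_lit 408125440) (nat_lit 466960384)) (I.mix (nat_lit 118276096) (nat_lit 84819968)) (I.mix (nat_lit 101335040) (nat_lit 76103680)) (I.mix (nat_lit 164757504) (nat_lit 116408320)))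
  false (nat_lit 0)
def b2_10 : Bx := Bx.mk (St.mk (I.pos (nat_lit 13877248) (nat_lit 43352064)) (I.neg (nat_lit 14729216) (nat_lit 56279040)) (I.neg (nat_lit 57409536) (nat_lit 71696384)) (I.pos (nat_lit 268156928) (nat_lit 283131904)) (I.mix (nat_lit 56688640) (nat_lit 44679168)) (I.mix (nat_lit 47218688) (nat_lit 47431680)) (I.mix (nat_lit 16990208) (nat_lit 17956864)))
  false (nat_lit 0)
def t2 : BTr := (BTr.n (BTr.n (BTr.n (BTr.b b2_0) (BTr.b b2_1)) (BTr.n (BTr.b b2_2) (BTr.n (BTr.b b2_3) (BTr.b b2_4)))) (BTr.n (BTr.n (BTr.b b2_5) (BTr.n (BTr.b b2_6) (BTr.b b2_7))) (BTr.n (BTr.b b2_8) (BTr.n (BTr.b b2_9) (BTr.b b2_10)))))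
namespace T2
def l0 : Tr := Tr.L (Pth.l (Pth.l (Pth.l Pth.z)))
def l1 : Tr := Tr.L (Pth.l (Pth.l (Pth.r Pth.z)))
def l2 : Tr := Tr.L (Pth.l (Pth.r (Pth.l Pth.z)))
def l3 : Tr := Tr.L (Pth.l (Pth.r (Pth.r (Pth.l Pth.z))))
def l4 : Tr := Tr.L (Pth.l (Pth.r (Pth.r (Pth.r Pth.z))))
def l5 : Tr := Tr.L (Pth.r (Pth.l (Pth.l Pth.z)))
def l6 : Tr := Tr.L (Pth.r (Pth.l (Pth.r (Pth.l Pth.z))))
def l7 : Tr := Tr.L (Pth.r (Pth.l (Pth.r (Pth.r Pth.z))))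
def l8 : Tr := Tr.L (Pth.r (Pth.r (Pth.l Pth.z)))
def l9 : Tr := Tr.L (Pth.r (Pth.r (Pth.r (Pth.l Pth.z))))
def l10 : Tr := Tr.L (Pth.r (Pth.r (Pth.r (Pth.r Pth.z))))
end T2
def b3_0 : Bx := Bx.mk (St.mk (I.pos (nat_lit 149651456) (nat_lit 232734720)) (I.mix (nat_lit 1916928) (nat_lit 56737792)) (I.mix (nat_lit 3522560) (nat_lit 111476736)) (I.pos (nat_lit 142180352) (nat_lit 263471104)) (I.mix (nat_lit 121339904) (nat_lit 70352896)) (I.mix (nat_lit 97370112) (nat_lit 77332480)) (I.mix (nat_lit 131416064) (nat_lit 100663296)))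
  false (nat_lit 0)
def b3_1 : Bx := Bx.mk (St.mk (I.pos (nat_lit 93093888) (nat_lit 163938304)) (I.mix (nat_lit 67223552) (nat_lit 409600)) (I.mix (nat_lit 55066624) (nat_lit 14598144)) (I.pos (nat_lit 96976896) (nat_lit 162889728)) (I.mix (nat_lit 92585984) (nat_lit 70680576)) (I.mix (nat_lit 66273280) (nat_lit 85458944)) (I.mix (nat_lit 55902208) (nat_lit 82345984)))
  false (nat_lit 0)
def b3_2 : Bx := Bx.mk (St.mk (I.mix (nat_lit 24363008) (nat_lit 80920576)) (I.mix (nat_lit 34816000) (nat_lit 7389184)) (I.mix (nat_lit 13910016) (nat_lit 11550720)) (I.pos (nat_lit 40091648) (nat_lit 89604096)) (I.mix (nat_lit 33374208) (nat_lit 40796160)) (I.mix (nat_lit 27688960) (nat_lit 38731776)) (I.mix (nat_lit 13549568) (nat_lit 21626880)))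
  false (nat_lit 0)
def b3_3 : Bx := Bx.mk (St.mk (I.pos (nat_lit 155353088) (nat_lit 209928192)) (I.mix (nat_lit 17334272) (nat_lit 63471616)) (I.pos (nat_lit 9895936) (nat_lit 112885760)) (I.pos (nat_lit 140099584) (nat_lit 231587840)) (I.mix (nat_lit 160415744) (nat_lit 52609024)) (I.mix (nat_lit 160645120) (nat_lit 88702976)) (I.mix (nat_lit 178536448) (nat_lit 84328448)))
  false (nat_lit 0)
def b3_4 : Bx := Bx.mk (St.mk (I.mix (nat_lit 34127872) (nat_lit 109002752)) (I.mix (nat_lit 14204928) (nat_lit 41730048)) (I.mix (nat_lit 3473408) (nat_lit 34816000)) (I.pos (nat_lit 40714240) (nat_lit 107724800)) (I.mix (nat_lit 63176704) (nat_lit 34013184)) (I.mix (nat_lit 63225856) (nat_lit 34619392)) (I.mix (nat_lit 34996224) (nat_lit 21676032)))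
  false (nat_lit 0)
def b3_5 : Bx := Bx.mk (St.mk (I.pos (nat_lit 151699456) (nat_lit 196706304)) (I.mix (nat_lit 47235072) (nat_lit 32210944)) (I.mix (nat_lit 30621696) (nat_lit 71892992)) (I.pos (nat_lit 138903552) (nat_lit 209960960)) (I.mix (nat_lit 137887744) (nat_lit 77758464)) (I.mix (nat_lit 152666112) (nat_lit 78331904)) (I.mix (nat_lit 168493056) (nat_lit 77791232)))
  false (nat_lit 0)
def b3_6 : Bx := Bx.mk (St.mk (I.mix (nat_lit 44908544) (nat_lit 89194496)) (I.mix (nat_lit 14270464) (nat_lit 9338880)) (I.mix (nat_lit 1589248) (nat_lit 12795904)) (I.pos (nat_lit 42549248) (nat_lit 91652096)) (I.mix (nat_lit 28311552) (nat_lit 20889600)) (I.mix (nat_lit 20398080) (nat_lit 21987328)) (I.mix (nat_lit 11386880) (nat_lit 11649024)))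
  false (nat_lit 0)
def b3_7 : Bx := Bx.mk (St.mk (I.pos (nat_lit 124223488) (nat_lit 169918464)) (I.mix (nat_lit 42516480) (nat_lit 2473984)) (I.mix (nat_lit 25296896) (nat_lit 22167552)) (I.pos (nat_lit 115277824) (nat_lit 172621824)) (I.mix (nat_lit 72646656) (nat_lit 42057728)) (I.mix (nat_lit 40550400) (nat_lit 57933824)) (I.mix (nat_lit 45187072) (nat_lit 55181312)))
  false (nat_lit 0)
def b3_8 : Bx := Bx.mk (St.mk (I.pos (nat_lit 146554880) (nat_lit 175652864)) (I.neg (nat_lit 5767168) (nat_lit 37306368)) (I.mix (nat_lit 21594112) (nat_lit 15433728)) (I.pos (nat_lit 134168576) (nat_lit 183828480)) (I.mix (nat_lit 39469056) (nat_lit 28426240)) (I.mix (nat_lit 27410432) (nat_lit 27590656)) (I.mix (nat_lit 27934720) (nat_lit 27705344)))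
  false (nat_lit 0)
def b3_9 : Bx := Bx.mk (St.mk (I.mix (nat_lit 32538624) (nat_lit 117391360)) (I.mix (nat_lit 4358144) (nat_lit 35635200)) (I.mix (nat_lit 1277952) (nat_lit 31719424)) (I.pos (nat_lit 37945344) (nat_lit 115032064)) (I.mix (nat_lit 51658752) (nat_lit 39387136)) (I.mix (nat_lit 43237376) (nat_lit 33865728)) (I.mix (nat_lit 32342016) (nat_lit 25214976)))
  false (nat_lit 0)
def b3_10 : Bx := Bx.mk (St.mk (I.pos (nat_lit 95682560) (nat_lit 149913600)) (I.mix (nat_lit 65585152) (nat_lit 5488640)) (I.mix (nat_lit 51118080) (nat_lit 7569408)) (I.pos (nat_lit 80936960) (nat_lit 148307968)) (I.mix (nat_lit 95256576) (nat_lit 39747584)) (I.mix (nat_lit 50708480) (nat_lit 86097920)) (I.mix (nat_lit 37126144) (nat_lit 59916288)))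
  false (nat_lit 0)
def b3_11 : Bx := Bx.mk (St.mk (I.mix (nat_lit 35323904) (nat_lit 73433088)) (I.mix (nat_lit 31834112) (nat_lit 1720320)) (I.mix (nat_lit 10698752) (nat_lit 8585216)) (I.pos (nat_lit 41566208) (nat_lit 84197376)) (I.mix (nat_lit 35209216) (nat_lit 26673152)) (I.mix (nat_lit 24543232) (nat_lit 32866304)) (I.mix (nat_lit 9994240) (nat_lit 12304384)))
  false (nat_lit 0)
def b3_12 : Bx := Bx.mk (St.mk (I.pos (nat_lit 191086592) (nat_lit 264814592)) (I.mix (nat_lit 11681792) (nat_lit 35061760)) (I.mix (nat_lit 7847936) (nat_lit 76529664)) (I.pos (nat_lit 209551360) (nat_lit 340656128)) (I.mix (nat_lit 102793216) (nat_lit 39993344)) (I.mix (nat_lit 71483392) (nat_lit 57851904)) (I.mix (nat_lit 116670464) (nat_lit 91324416)))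
  false (nat_lit 0)
def b3_13 : Bx := Bx.mk (St.mk (I.pos (nat_lit 95846400) (nat_lit 112197632)) (I.mix (nat_lit 1490944) (nat_lit 8290304)) (I.pos (nat_lit 131072) (nat_lit 9764864)) (I.pos (nat_lit 81444864) (nat_lit 112656384)) (I.mix (nat_lit 12124160) (nat_lit 12566528)) (I.mix (nat_lit 9748480) (nat_lit 8241152)) (I.mix (nat_lit 7929856) (nat_lit 6356992)))
  false (nat_lit 0)
def b3_14 : Bx := Bx.mk (St.mk (I.mix (nat_lit 39092224) (nat_lit 50659328)) (I.mix (nat_lit 1032192) (nat_lit 9388032)) (I.mix (nat_lit 1425408) (nat_lit 5586944)) (I.pos (nat_lit 43302912) (nat_lit 74465280)) (I.mix (nat_lit 9977856) (nat_lit 11976704)) (I.mix (nat_lit 9142272) (nat_lit 8028160)) (I.mix (nat_lit 3686400) (nat_lit 3276800)))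
  false (nat_lit 0)
def b3_15 : Bx := Bx.mk (St.mk (I.pos (nat_lit 180568064) (nat_lit 231718912)) (I.pos (nat_lit 6324224) (nat_lit 54312960)) (I.pos (nat_lit 23756800) (nat_lit 105791488)) (I.pos (nat_lit 198754304) (nat_lit 261259264)) (I.mix (nat_lit 109903872) (nat_lit 78135296)) (I.mix (nat_lit 100040704) (nat_lit 73433088)) (I.mix (nat_lit 159514624) (nat_lit 93356032)))
  false (nat_lit 0)
def t3 : BTr := (BTr.n (BTr.n (BTr.n (BTr.n (BTr.b b3_0) (BTr.b b3_1)) (BTr.n (BTr.b b3_2) (BTr.b b3_3))) (BTr.n (BTr.n (BTr.b b3_4) (BTr.b b3_5)) (BTr.n (BTr.b b3_6) (BTr.b b3_7)))) (BTr.n (BTr.n (BTr.n (BTr.b b3_8) (BTr.b b3_9)) (BTr.n (BTr.b b3_10) (BTr.b b3_11))) (BTr.n (BTr.n (BTr.b b3_12) (BTr.b b3_13)) (BTr.n (BTr.b b3_14) (BTr.b b3_15)))))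
namespace T3
def l0 : Tr := Tr.L (Pth.l (Pth.l (Pth.l (Pth.l Pth.z))))
def l1 : Tr := Tr.L (Pth.l (Pth.l (Pth.l (Pth.r Pth.z))))
def l2 : Tr := Tr.L (Pth.l (Pth.l (Pth.r (Pth.l Pth.z))))
def l3 : Tr := Tr.L (Pth.l (Pth.l (Pth.r (Pth.r Pth.z))))
def l4 : Tr := Tr.L (Pth.l (Pth.r (Pth.l (Pth.l Pth.z))))
def l5 : Tr := Tr.L (Pth.l (Pth.r (Pth.l (Pth.r Pth.z))))
def l6 : Tr := Tr.L (Pth.l (Pth.r (Pth.r (Pth.l Pth.z))))
def l7 : Tr := Tr.L (Pth.l (Pth.r (Pth.r (Pth.r Pth.z))))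
def l8 : Tr := Tr.L (Pth.r (Pth.l (Pth.l (Pth.l Pth.z))))
def l9 : Tr := Tr.L (Pth.r (Pth.l (Pth.l (Pth.r Pth.z))))
def l10 : Tr := Tr.L (Pth.r (Pth.l (Pth.r (Pth.l Pth.z))))
def l11 : Tr := Tr.L (Pth.r (Pth.l (Pth.r (Pth.r Pth.z))))
def l12 : Tr := Tr.L (Pth.r (Pth.r (Pth.l (Pth.l Pth.z))))
def l13 : Tr := Tr.L (Pth.r (Pth.r (Pth.l (Pth.r Pth.z))))
def l14 : Tr := Tr.L (Pth.r (Pth.r (Pth.r (Pth.l Pth.z))))
def l15 : Tr := Tr.L (Pth.r (Pth.r (Pth.r (Pth.r Pth.z))))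
end T3
def b4_0 : Bx := Bx.mk (St.mk (I.pos (nat_lit 126861312) (nat_lit 217858048)) (I.mix (nat_lit 3112960) (nat_lit 97779712)) (I.mix (nat_lit 4030464) (nat_lit 129236992)) (I.pos (nat_lit 360628224) (nat_lit 457244672)) (I.mix (nat_lit 179847168) (nat_lit 100368384)) (I.mix (nat_lit 125009920) (nat_lit 102793216)) (I.mix (nat_lit 145309696) (nat_lit 136134656)))
  false (nat_lit 93105111)
def b4_1 : Bx := Bx.mk (St.mk (I.pos (nat_lit 25952256) (nat_lit 112263168)) (I.neg (nat_lit 9469952) (nat_lit 101646336)) (I.mix (nat_lit 64815104) (nat_lit 15155200)) (I.pos (nat_lit 270761984) (nat_lit 324157440)) (I.mix (nat_lit 132038656) (nat_lit 92110848)) (I.mix (nat_lit 99434496) (nat_lit 100646912)) (I.mix (nat_lit 91340800) (nat_lit 77348864)))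
  false (nat_lit 53564635)
def b4_2 : Bx := Bx.mk (St.mk (I.pos (nat_lit 97189888) (nat_lit 183812096)) (I.mix (nat_lit 32882688) (nat_lit 94765056)) (I.mix (nat_lit 2998272) (nat_lit 130170880)) (I.pos (nat_lit 307003392) (nat_lit 410304512)) (I.mix (nat_lit 197296128) (nat_lit 81788928)) (I.mix (nat_lit 179372032) (nat_lit 131121152)) (I.mix (nat_lit 187875328) (nat_lit 162070528)))
  false (nat_lit 98696790)
def b4_3 : Bx := Bx.mk (St.mk (I.neg (nat_lit 25706496) (nat_lit 120897536)) (I.pos (nat_lit 9469952) (nat_lit 101646336)) (I.mix (nat_lit 64913408) (nat_lit 18743296)) (I.pos (nat_lit 270565376) (nat_lit 330579968)) (I.mix (nat_lit 92110848) (nat_lit 132038656)) (I.mix (nat_lit 100663296) (nat_lit 99500032)) (I.mix (nat_lit 91340800) (nat_lit 77414400)))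
  true (nat_lit 0)
def b4_4 : Bx := Bx.mk (St.mk (I.mix (nat_lit 64782336) (nat_lit 17563648)) (I.mix (nat_lit 20021248) (nat_lit 96370688)) (I.neg (nat_lit 22986752) (nat_lit 48119808)) (I.pos (nat_lit 267272192) (nat_lit 297746432)) (I.mix (nat_lit 71122944) (nat_lit 110198784)) (I.mix (nat_lit 100581376) (nat_lit 87588864)) (I.mix (nat_lit 44974080) (nat_lit 34799616)))
  true (nat_lit 0)
def b4_5 : Bx := Bx.mk (St.mk (I.pos (nat_lit 20086784) (nat_lit 63684608)) (I.neg (nat_lit 31916032) (nat_lit 94863360)) (I.neg (nat_lit 24346624) (nat_lit 48087040)) (I.pos (nat_lit 273580032) (nat_lit 297549824)) (I.mix (nat_lit 110198784) (nat_lit 71122944)) (I.mix (nat_lit 87523328) (nat_lit 95256576)) (I.mix (nat_lit 44974080) (nat_lit 34799616)))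
  false (nat_lit 32436022)
def b4_6 : Bx := Bx.mk (St.mk (I.pos (nat_lit 164888576) (nat_lit 293306368)) (I.mix (nat_lit 38322176) (nat_lit 67846144)) (I.mix (nat_lit 137805824) (nat_lit 70090752)) (I.pos (nat_lit 394002432) (nat_lit 594952192)) (I.mix (nat_lit 109527040) (nat_lit 78004224)) (I.mix (nat_lit 86687744) (nat_lit 67190784)) (I.mix (nat_lit 151502848) (nat_lit 118505472)))
  false (nat_lit 68788314)
def b4_7 : Bx := Bx.mk (St.mk (I.mix (nat_lit 17104896) (nat_lit 48988160)) (I.mix (nat_lit 49610752) (nat_lit 18628608)) (I.neg (nat_lit 23330816) (nat_lit 36306944)) (I.pos (nat_lit 268058624) (nat_lit 283492352)) (I.mix (nat_lit 56328192) (nat_lit 52609024)) (I.mix (nat_lit 44367872) (nat_lit 48365568)) (I.mix (nat_lit 12484608) (nat_lit 13778944)))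
  false (nat_lit 0)
def b4_8 : Bx := Bx.mk (St.mk (I.pos (nat_lit 144097280) (nat_lit 211124224)) (I.pos (nat_lit 26886144) (nat_lit 95551488)) (I.pos (nat_lit 28524544) (nat_lit 122175488)) (I.pos (nat_lit 380616704) (nat_lit 442580992)) (I.mix (nat_lit 136970240) (nat_lit 107364352)) (I.mix (nat_lit 124141568) (nat_lit 89751552)) (I.mix (nat_lit 174522368) (nat_lit 110870528)))
  false (nat_lit 64284596)
def b4_9 : Bx := Bx.mk (St.mk (I.pos (nat_lit 21708800) (nat_lit 53084160)) (I.neg (nat_lit 23314432) (nat_lit 81199104)) (I.neg (nat_lit 25542656) (nat_lit 46071808)) (I.pos (nat_lit 273547264) (nat_lit 290603008)) (I.mix (nat_lit 103333888) (nat_lit 52822016)) (I.mix (nat_lit 53133312) (nat_lit 100614144)) (I.mix (nat_lit 29097984) (nat_lit 24084480)))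
  false (nat_lit 0)
def b4_10 : Bx := Bx.mk (St.mk (I.pos (nat_lit 94420992) (nat_lit 118521856)) (I.neg (nat_lit 15679488) (nat_lit 44990464)) (I.mix (nat_lit 11616256) (nat_lit 17219584)) (I.pos (nat_lit 307200000) (nat_lit 329187328)) (I.mix (nat_lit 34635776) (nat_lit 35733504)) (I.mix (nat_lit 26001408) (nat_lit 30490624)) (I.mix (nat_lit 21512192) (nat_lit 26034176)))
  false (nat_lit 0)
def t4 : BTr := (BTr.n (BTr.n (BTr.n (BTr.b b4_0) (BTr.b b4_1)) (BTr.n (BTr.b b4_2) (BTr.n (BTr.b b4_3) (BTr.b b4_4)))) (BTr.n (BTr.n (BTr.b b4_5) (BTr.n (BTr.b b4_6) (BTr.b b4_7))) (BTr.n (BTr.b b4_8) (BTr.n (BTr.b b4_9) (BTr.b b4_10)))))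
namespace T4
def l0 : Tr := Tr.L (Pth.l (Pth.l (Pth.l Pth.z)))
def l1 : Tr := Tr.L (Pth.l (Pth.l (Pth.r Pth.z)))
def l2 : Tr := Tr.L (Pth.l (Pth.r (Pth.l Pth.z)))
def l3 : Tr := Tr.L (Pth.l (Pth.r (Pth.r (Pth.l Pth.z))))
def l4 : Tr := Tr.L (Pth.l (Pth.r (Pth.r (Pth.r Pth.z))))
def l5 : Tr := Tr.L (Pth.r (Pth.l (Pth.l Pth.z)))
def l6 : Tr := Tr.L (Pth.r (Pth.l (Pth.r (Pth.l Pth.z))))
def l7 : Tr := Tr.L (Pth.r (Pth.l (Pth.r (Pth.r Pth.z))))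
def l8 : Tr := Tr.L (Pth.r (Pth.r (Pth.l Pth.z)))
def l9 : Tr := Tr.L (Pth.r (Pth.r (Pth.r (Pth.l Pth.z))))
def l10 : Tr := Tr.L (Pth.r (Pth.r (Pth.r (Pth.r Pth.z))))
end T4
def b5_0 : Bx := Bx.mk (St.mk (I.pos (nat_lit 136511488) (nat_lit 222298112)) (I.mix (nat_lit 2228224) (nat_lit 67321856)) (I.mix (nat_lit 4046848) (nat_lit 129613824)) (I.pos (nat_lit 235421696) (nat_lit 325894144)) (I.mix (nat_lit 137445376) (nat_lit 78135296)) (I.mix (nat_lit 104267776) (nat_lit 83722240)) (I.mix (nat_lit 128843776) (nat_lit 101679104)))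
  false (nat_lit 41752053)
def b5_1 : Bx := Bx.mk (St.mk (I.pos (nat_lit 80429056) (nat_lit 145293312)) (I.neg (nat_lit 3162112) (nat_lit 75710464)) (I.mix (nat_lit 39321600) (nat_lit 33030144)) (I.pos (nat_lit 174784512) (nat_lit 223117312)) (I.mix (nat_lit 90570752) (nat_lit 83787776)) (I.mix (nat_lit 70483968) (nat_lit 85590016)) (I.mix (nat_lit 56508416) (nat_lit 72744960)))
  false (nat_lit 17601845)
def b5_2 : Bx := Bx.mk (St.mk (I.mix (nat_lit 31113216) (nat_lit 3112960)) (I.mix (nat_lit 42385408) (nat_lit 10207232)) (I.pos (nat_lit 14696448) (nat_lit 23150592)) (I.pos (nat_lit 141148160) (nat_lit 150405120)) (I.mix (nat_lit 38076416) (nat_lit 57245696)) (I.mix (nat_lit 33390592) (nat_lit 49299456)) (I.mix (nat_lit 6979584) (nat_lit 9486336)))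
  true (nat_lit 0)
def b5_3 : Bx := Bx.mk (St.mk (I.pos (nat_lit 136871936) (nat_lit 190103552)) (I.mix (nat_lit 4161536) (nat_lit 63340544)) (I.pos (nat_lit 40763392) (nat_lit 121520128)) (I.pos (nat_lit 215105536) (nat_lit 280526848)) (I.mix (nat_lit 151748608) (nat_lit 50003968)) (I.mix (nat_lit 148799488) (nat_lit 78397440)) (I.mix (nat_lit 156254208) (nat_lit 82968576)))
  false (nat_lit 7573966)
def b5_4 : Bx := Bx.mk (St.mk (I.mix (nat_lit 3014656) (nat_lit 31113216)) (I.mix (nat_lit 10174464) (nat_lit 42385408)) (I.pos (nat_lit 14696448) (nat_lit 23150592)) (I.pos (nat_lit 141164544) (nat_lit 150405120)) (I.mix (nat_lit 57245696) (nat_lit 38076416)) (I.mix (nat_lit 49299456) (nat_lit 33390592)) (I.mix (nat_lit 6979584) (nat_lit 9486336)))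
  false (nat_lit 0)
def b5_5 : Bx := Bx.mk (St.mk (I.pos (nat_lit 118734848) (nat_lit 143425536)) (I.neg (nat_lit 4325376) (nat_lit 35782656)) (I.pos (nat_lit 2064384) (nat_lit 34570240)) (I.pos (nat_lit 197558272) (nat_lit 220889088)) (I.mix (nat_lit 59539456) (nat_lit 44154880)) (I.mix (nat_lit 40960000) (nat_lit 52707328)) (I.mix (nat_lit 43712512) (nat_lit 46497792)))
  false (nat_lit 0)
def b5_6 : Bx := Bx.mk (St.mk (I.mix (nat_lit 12566528) (nat_lit 1523712)) (I.mix (nat_lit 8142848) (nat_lit 10895360)) (I.pos (nat_lit 15597568) (nat_lit 19660800)) (I.pos (nat_lit 141295616) (nat_lit 145014784)) (I.mix (nat_lit 32161792) (nat_lit 23822336)) (I.mix (nat_lit 22855680) (nat_lit 26771456)) (I.mix (nat_lit 2899968) (nat_lit 1998848)))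
  true (nat_lit 0)
def b5_7 : Bx := Bx.mk (St.mk (I.pos (nat_lit 133808128) (nat_lit 158810112)) (I.neg (nat_lit 11567104) (nat_lit 38174720)) (I.mix (nat_lit 393216) (nat_lit 28770304)) (I.pos (nat_lit 212484096) (nat_lit 238551040)) (I.mix (nat_lit 30081024) (nat_lit 32735232)) (I.mix (nat_lit 32014336) (nat_lit 25690112)) (I.mix (nat_lit 30490624) (nat_lit 26017792)))
  false (nat_lit 0)
def b5_8 : Bx := Bx.mk (St.mk (I.pos (nat_lit 135479296) (nat_lit 182206464)) (I.mix (nat_lit 46006272) (nat_lit 41254912)) (I.mix (nat_lit 3948544) (nat_lit 95862784)) (I.pos (nat_lit 212353024) (nat_lit 266321920)) (I.mix (nat_lit 142475264) (nat_lit 80609280)) (I.mix (nat_lit 144867328) (nat_lit 88276992)) (I.mix (nat_lit 149848064) (nat_lit 90767360)))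
  false (nat_lit 7147946)
def b5_9 : Bx := Bx.mk (St.mk (I.pos (nat_lit 13041664) (nat_lit 73367552)) (I.mix (nat_lit 12910592) (nat_lit 45973504)) (I.mix (nat_lit 3620864) (nat_lit 25739264)) (I.pos (nat_lit 140509184) (nat_lit 164790272)) (I.mix (nat_lit 51773440) (nat_lit 53329920)) (I.mix (nat_lit 59228160) (nat_lit 36536320)) (I.mix (nat_lit 31735808) (nat_lit 20905984)))
  false (nat_lit 0)
def b5_10 : Bx := Bx.mk (St.mk (I.pos (nat_lit 50446336) (nat_lit 111230976)) (I.mix (nat_lit 68403200) (nat_lit 14057472)) (I.mix (nat_lit 32702464) (nat_lit 11780096)) (I.pos (nat_lit 152371200) (nat_lit 193200128)) (I.mix (nat_lit 83312640) (nat_lit 51576832)) (I.mix (nat_lit 45826048) (nat_lit 90259456)) (I.mix (nat_lit 31735808) (nat_lit 49201152)))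
  false (nat_lit 0)
def b5_11 : Bx := Bx.mk (St.mk (I.neg (nat_lit 12976128) (nat_lit 73367552)) (I.mix (nat_lit 45973504) (nat_lit 12910592)) (I.mix (nat_lit 3620864) (nat_lit 25739264)) (I.pos (nat_lit 140509184) (nat_lit 164790272)) (I.mix (nat_lit 53329920) (nat_lit 51773440)) (I.mix (nat_lit 36536320) (nat_lit 59228160)) (I.mix (nat_lit 31735808) (nat_lit 20922368)))
  true (nat_lit 0)
def b5_12 : Bx := Bx.mk (St.mk (I.pos (nat_lit 176373760) (nat_lit 288096256)) (I.mix (nat_lit 31834112) (nat_lit 49299456)) (I.mix (nat_lit 53100544) (nat_lit 102596608)) (I.pos (nat_lit 277020672) (nat_lit 457572352)) (I.mix (nat_lit 107479040) (nat_lit 70664192)) (I.mix (nat_lit 80822272) (nat_lit 61636608)) (I.mix (nat_lit 141770752) (nat_lit 96092160)))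
  false (nat_lit 24596731)
def b5_13 : Bx := Bx.mk (St.mk (I.pos (nat_lit 159121408) (nat_lit 220086272)) (I.pos (nat_lit 8470528) (nat_lit 69091328)) (I.pos (nat_lit 36388864) (nat_lit 131825664)) (I.pos (nat_lit 261603328) (nat_lit 318832640)) (I.mix (nat_lit 122273792) (nat_lit 101285888)) (I.mix (nat_lit 119619584) (nat_lit 89292800)) (I.mix (nat_lit 174587904) (nat_lit 103497728)))
  false (nat_lit 20051063)
def t5 : BTr := (BTr.n (BTr.n (BTr.n (BTr.b b5_0) (BTr.n (BTr.b b5_1) (BTr.b b5_2))) (BTr.n (BTr.n (BTr.b b5_3) (BTr.b b5_4)) (BTr.n (BTr.b b5_5) (BTr.b b5_6)))) (BTr.n (BTr.n (BTr.b b5_7) (BTr.n (BTr.b b5_8) (BTr.b b5_9))) (BTr.n (BTr.n (BTr.b b5_10) (BTr.b b5_11)) (BTr.n (BTr.b b5_12) (BTr.b b5_13)))))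
namespace T5
def l0 : Tr := Tr.L (Pth.l (Pth.l (Pth.l Pth.z)))
def l1 : Tr := Tr.L (Pth.l (Pth.l (Pth.r (Pth.l Pth.z))))
def l2 : Tr := Tr.L (Pth.l (Pth.l (Pth.r (Pth.r Pth.z))))
def l3 : Tr := Tr.L (Pth.l (Pth.r (Pth.l (Pth.l Pth.z))))
def l4 : Tr := Tr.L (Pth.l (Pth.r (Pth.l (Pth.r Pth.z))))
def l5 : Tr := Tr.L (Pth.l (Pth.r (Pth.r (Pth.l Pth.z))))
def l6 : Tr := Tr.L (Pth.l (Pth.r (Pth.r (Pth.r Pth.z))))
def l7 : Tr := Tr.L (Pth.r (Pth.l (Pth.l Pth.z)))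
def l8 : Tr := Tr.L (Pth.r (Pth.l (Pth.r (Pth.l Pth.z))))
def l9 : Tr := Tr.L (Pth.r (Pth.l (Pth.r (Pth.r Pth.z))))
def l10 : Tr := Tr.L (Pth.r (Pth.r (Pth.l (Pth.l Pth.z))))
def l11 : Tr := Tr.L (Pth.r (Pth.r (Pth.l (Pth.r Pth.z))))
def l12 : Tr := Tr.L (Pth.r (Pth.r (Pth.r (Pth.l Pth.z))))
def l13 : Tr := Tr.L (Pth.r (Pth.r (Pth.r (Pth.r Pth.z))))
end T5
theorem bx0_0 : BoxOK sI cl4 cl5 cl7 t2 t4 b0_0 :=
  box_mk (TrL.c (I.pos (nat_lit 0) (nat_lit 0)) (xa (xb T2.l0 T2.l0) (xb T2.l0 T2.l0))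
  (TrL.c (I.pos (nat_lit 0) (nat_lit 0)) T4.l1
  (TrL.c (I.pos (nat_lit 0) (nat_lit 0)) T2.l1
  (TrL.c (I.pos (nat_lit 0) (nat_lit 0)) T4.l2
  (TrL.c (I.pos (nat_lit 0) (nat_lit 0)) T2.l2
  (TrL.c (I.pos (nat_lit 0) (nat_lit 0)) T4.l3
  TrL.n)))))) (by decide +kernel)
theorem bx0_1 : BoxOK sI cl4 cl5 cl7 t2 t4 b0_1 :=
  box_mk (TrL.c (I.pos (nat_lit 0) (nat_lit 0)) T2.l6
  (TrL.c (I.pos (nat_lit 0) (nat_lit 0)) T4.l1
  (TrL.c (I.pos (nat_lit 0) (nat_lit 0)) T2.l1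
  (TrL.c (I.pos (nat_lit 0) (nat_lit 0)) T4.l2
  (TrL.c (I.pos (nat_lit 0) (nat_lit 0)) T2.l7
  (TrL.c (I.pos (nat_lit 0) (nat_lit 0)) T4.l3
  TrL.n)))))) (by decide +kernel)
theorem bx0_2 : BoxOK sI cl4 cl5 cl7 t2 t4 b0_2 :=
  box_mk (TrL.c (I.pos (nat_lit 0) (nat_lit 0)) (xb (xa T2.l6 T2.l6) (xa (xb T2.l6 T2.l6) T2.l6))
  (TrL.c (I.pos (nat_lit 0) (nat_lit 0)) T4.l1
  (TrL.c (I.pos (nat_lit 0) (nat_lit 0)) T2.l1
  (TrL.c (I.pos (nat_lit 0) (nat_lit 0)) T4.l2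
  (TrL.c (I.pos (nat_lit 0) (nat_lit 0)) T2.l7
  (TrL.c (I.pos (nat_lit 0) (nat_lit 0)) T4.l3
  TrL.n)))))) (by decide +kernel)
theorem bx0_3 : BoxOK sI cl4 cl5 cl7 t2 t4 b0_3 :=
  box_mk (TrL.c (I.pos (nat_lit 0) (nat_lit 0)) T4.l1
  (TrL.c (I.pos (nat_lit 0) (nat_lit 0)) T2.l1
  TrL.n)) (by decide +kernel)
theorem bx0_4 : BoxOK sI cl4 cl5 cl7 t2 t4 b0_4 :=
  box_mk (TrL.c (I.pos (nat_lit 0) (nat_lit 0)) T2.l6
  (TrL.c (I.pos (nat_lit 0) (nat_lit 0)) T4.l1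
  (TrL.c (I.pos (nat_lit 0) (nat_lit 0)) T2.l1
  (TrL.c (I.pos (nat_lit 0) (nat_lit 0)) T4.l2
  (TrL.c (I.pos (nat_lit 0) (nat_lit 0)) T2.l7
  (TrL.c (I.pos (nat_lit 0) (nat_lit 0)) T4.l3
  TrL.n)))))) (by decide +kernel)
theorem bx0_5 : BoxOK sI cl4 cl5 cl7 t2 t4 b0_5 :=
  box_mk (TrL.c (I.pos (nat_lit 0) (nat_lit 0)) T2.l0
  (TrL.c (I.pos (nat_lit 0) (nat_lit 0)) T4.l1
  (TrL.c (I.pos (nat_lit 0) (nat_lit 0)) T2.l1
  (TrL.c (I.pos (nat_lit 0) (nat_lit 0)) T4.l2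
  (TrL.c (I.pos (nat_lit 0) (nat_lit 0)) T2.l2
  (TrL.c (I.pos (nat_lit 0) (nat_lit 0)) T4.l3
  TrL.n)))))) (by decide +kernel)
theorem bx0_6 : BoxOK sI cl4 cl5 cl7 t2 t4 b0_6 :=
  box_mk (TrL.c (I.pos (nat_lit 0) (nat_lit 0)) (xb (xa (xb T2.l0 T2.l0) T2.l0) (xa (xb T2.l0 (xa T2.l0 T2.l0)) (xb T2.l0 (xa T2.l0 T2.l0))))
  (TrL.c (I.pos (nat_lit 0) (nat_lit 0)) (xb T4.l1 (xa T4.l1 T4.l1))
  (TrL.c (I.pos (nat_lit 0) (nat_lit 0)) T2.l5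
  (TrL.c (I.pos (nat_lit 0) (nat_lit 0)) (xb (xa (xb T4.l2 T4.l2) (xb (xa T4.l2 T4.l2) T4.l2)) (xa T4.l2 (xb T4.l2 (xa T4.l2 T4.l2))))
  (TrL.c (I.pos (nat_lit 0) (nat_lit 0)) T2.l3
  (TrL.c (I.pos (nat_lit 0) (nat_lit 0)) (xb T4.l3 (xa T4.l3 T4.l3))
  TrL.n)))))) (by decide +kernel)
theorem bx0_7 : BoxOK sI cl4 cl5 cl7 t2 t4 b0_7 :=
  box_mk (TrL.c (I.pos (nat_lit 0) (nat_lit 0)) (xa (xb (xa (xb T2.l6 T2.l6) T2.l6) (xa (xb T2.l6 T2.l6) T2.l6)) (xb (xa T2.l6 T2.l6) T2.l6))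
  (TrL.c (I.pos (nat_lit 0) (nat_lit 0)) T4.l1
  (TrL.c (I.pos (nat_lit 0) (nat_lit 0)) T2.l1
  (TrL.c (I.pos (nat_lit 0) (nat_lit 0)) T4.l2
  (TrL.c (I.pos (nat_lit 0) (nat_lit 0)) T2.l7
  (TrL.c (I.pos (nat_lit 0) (nat_lit 0)) T4.l3
  TrL.n)))))) (by decide +kernel)
theorem bx0_8 : BoxOK sI cl4 cl5 cl7 t2 t4 b0_8 :=
  box_mk (TrL.c (I.pos (nat_lit 0) (nat_lit 0)) T4.l10
  (TrL.c (I.pos (nat_lit 0) (nat_lit 0)) T2.l8
  TrL.n)) (by decide +kernel)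
theorem bx0_9 : BoxOK sI cl4 cl5 cl7 t2 t4 b0_9 :=
  box_mk (TrL.c (I.pos (nat_lit 0) (nat_lit 0)) (xa (xb T2.l9 (xb T2.l9 T2.l9)) (xb T2.l9 T2.l9))
  (TrL.c (I.pos (nat_lit 0) (nat_lit 0)) T4.l1
  (TrL.c (I.pos (nat_lit 0) (nat_lit 0)) T2.l1
  (TrL.c (I.pos (nat_lit 0) (nat_lit 0)) T4.l2
  (TrL.c (I.pos (nat_lit 0) (nat_lit 0)) T2.l2
  (TrL.c (I.pos (nat_lit 0) (nat_lit 0)) T4.l3
  TrL.n)))))) (by decide +kernel)
theorem bx0_10 : BoxOK sI cl4 cl5 cl7 t2 t4 b0_10 :=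
  box_mk (TrL.c (I.pos (nat_lit 0) (nat_lit 0)) (xb (xa (xb T2.l6 T2.l6) T2.l6) (xa T2.l6 T2.l6))
  (TrL.c (I.pos (nat_lit 0) (nat_lit 0)) T4.l10
  (TrL.c (I.pos (nat_lit 0) (nat_lit 0)) T2.l8
  (TrL.c (I.pos (nat_lit 0) (nat_lit 0)) T4.l2
  (TrL.c (I.pos (nat_lit 0) (nat_lit 0)) T2.l7
  (TrL.c (I.pos (nat_lit 0) (nat_lit 0)) T4.l3
  TrL.n)))))) (by decide +kernel)
theorem bx0_11 : BoxOK sI cl4 cl5 cl7 t2 t4 b0_11 :=
  box_mk (TrL.c (I.pos (nat_lit 0) (nat_lit 0)) (xa (xb T2.l6 T2.l9) T2.l9)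
  (TrL.c (I.pos (nat_lit 0) (nat_lit 0)) T4.l1
  (TrL.c (I.pos (nat_lit 0) (nat_lit 0)) T2.l1
  (TrL.c (I.pos (nat_lit 0) (nat_lit 0)) T4.l2
  (TrL.c (I.pos (nat_lit 0) (nat_lit 0)) T2.l3
  (TrL.c (I.pos (nat_lit 0) (nat_lit 0)) T4.l3
  TrL.n)))))) (by decide +kernel)
theorem bx0_12 : BoxOK sI cl4 cl5 cl7 t2 t4 b0_12 :=
  box_mk (TrL.c (I.pos (nat_lit 0) (nat_lit 0)) (xb (xa T2.l9 T2.l9) (xa T2.l9 T2.l9))
  (TrL.c (I.pos (nat_lit 0) (nat_lit 0)) T4.l1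
  (TrL.c (I.pos (nat_lit 0) (nat_lit 0)) T2.l1
  (TrL.c (I.pos (nat_lit 0) (nat_lit 0)) T4.l2
  (TrL.c (I.pos (nat_lit 0) (nat_lit 0)) T2.l2
  (TrL.c (I.pos (nat_lit 0) (nat_lit 0)) T4.l3
  TrL.n)))))) (by decide +kernel)
theorem sv0 : StarV sI cl4 cl5 cl7 t2 t4 t0 :=
  (bt_n (bt_n (bt_n (bt_b bx0_0) (bt_n (bt_b bx0_1) (bt_b bx0_2))) (bt_n (bt_b bx0_3) (bt_n (bt_b bx0_4) (bt_b bx0_5)))) (bt_n (bt_n (bt_b bx0_6) (bt_n (bt_b bx0_7) (bt_b bx0_8))) (bt_n (bt_n (bt_b bx0_9) (bt_b bx0_10)) (bt_n (bt_b bx0_11) (bt_b bx0_12)))))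
def S0 : StarD := StarD.mk cl4 cl5 cl7 2 4 t0
theorem bx1_0 : BoxOK sI cl4 cl7 cl5 t4 t2 b1_0 :=
  box_mk (TrL.c (I.pos (nat_lit 0) (nat_lit 0)) (xa (xb T4.l0 (xa T4.l0 T4.l0)) (xb T4.l0 (xa T4.l0 T4.l0)))
  (TrL.c (I.pos (nat_lit 0) (nat_lit 0)) T2.l3
  (TrL.c (I.pos (nat_lit 0) (nat_lit 0)) T4.l4
  (TrL.c (I.pos (nat_lit 0) (nat_lit 0)) T2.l4
  (TrL.c (I.pos (nat_lit 0) (nat_lit 0)) T4.l5
  (TrL.c (I.pos (nat_lit 0) (nat_lit 0)) T2.l5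
  TrL.n)))))) (by decide +kernel)
theorem bx1_1 : BoxOK sI cl4 cl7 cl5 t4 t2 b1_1 :=
  box_mk (TrL.c (I.pos (nat_lit 0) (nat_lit 0)) (xa (xa (xb (xa T4.l6 T4.l6) (xa T4.l6 T4.l6)) T4.l6) (xa T4.l6 T4.l6))
  (TrL.c (I.pos (nat_lit 0) (nat_lit 0)) T2.l3
  (TrL.c (I.pos (nat_lit 0) (nat_lit 0)) T4.l4
  (TrL.c (I.pos (nat_lit 0) (nat_lit 0)) T2.l4
  (TrL.c (I.pos (nat_lit 0) (nat_lit 0)) T4.l7
  (TrL.c (I.pos (nat_lit 0) (nat_lit 0)) T2.l5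
  TrL.n)))))) (by decide +kernel)
theorem bx1_2 : BoxOK sI cl4 cl7 cl5 t4 t2 b1_2 :=
  box_mk (TrL.c (I.pos (nat_lit 0) (nat_lit 0)) (xb (xa T4.l6 T4.l6) (xa (xb T4.l6 T4.l6) T4.l6))
  (TrL.c (I.pos (nat_lit 0) (nat_lit 0)) T2.l3
  (TrL.c (I.pos (nat_lit 0) (nat_lit 0)) T4.l4
  (TrL.c (I.pos (nat_lit 0) (nat_lit 0)) T2.l4
  (TrL.c (I.pos (nat_lit 0) (nat_lit 0)) T4.l7
  (TrL.c (I.pos (nat_lit 0) (nat_lit 0)) T2.l5
  TrL.n)))))) (by decide +kernel)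
theorem bx1_3 : BoxOK sI cl4 cl7 cl5 t4 t2 b1_3 :=
  box_mk (TrL.c (I.pos (nat_lit 0) (nat_lit 0)) (xa (xa (xb T4.l6 T4.l6) T4.l6) T4.l6)
  (TrL.c (I.pos (nat_lit 0) (nat_lit 0)) T2.l3
  (TrL.c (I.pos (nat_lit 0) (nat_lit 0)) T4.l4
  (TrL.c (I.pos (nat_lit 0) (nat_lit 0)) T2.l4
  (TrL.c (I.pos (nat_lit 0) (nat_lit 0)) T4.l7
  (TrL.c (I.pos (nat_lit 0) (nat_lit 0)) T2.l5
  TrL.n)))))) (by decide +kernel)
theorem bx1_4 : BoxOK sI cl4 cl7 cl5 t4 t2 b1_4 :=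
  box_mk (TrL.c (I.pos (nat_lit 0) (nat_lit 0)) (xb (xa (xb T4.l0 T4.l0) T4.l0) (xa (xb T4.l0 (xa T4.l0 T4.l0)) (xa T4.l0 (xb T4.l0 T4.l0))))
  (TrL.c (I.pos (nat_lit 0) (nat_lit 0)) (xa T2.l3 (xb T2.l3 T2.l3))
  (TrL.c (I.pos (nat_lit 0) (nat_lit 0)) T4.l3
  (TrL.c (I.pos (nat_lit 0) (nat_lit 0)) (xb (xa T2.l4 (xb (xa T2.l4 T2.l4) T2.l4)) (xa T2.l4 (xb T2.l4 (xa T2.l4 T2.l4))))
  (TrL.c (I.pos (nat_lit 0) (nat_lit 0)) T4.l1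
  (TrL.c (I.pos (nat_lit 0) (nat_lit 0)) (xa T2.l5 (xb T2.l5 T2.l5))
  TrL.n)))))) (by decide +kernel)
theorem bx1_5 : BoxOK sI cl4 cl7 cl5 t4 t2 b1_5 :=
  box_mk (TrL.c (I.pos (nat_lit 0) (nat_lit 0)) T4.l6
  (TrL.c (I.pos (nat_lit 0) (nat_lit 0)) T2.l3
  (TrL.c (I.pos (nat_lit 0) (nat_lit 0)) T4.l4
  (TrL.c (I.pos (nat_lit 0) (nat_lit 0)) T2.l4
  (TrL.c (I.pos (nat_lit 0) (nat_lit 0)) T4.l7
  (TrL.c (I.pos (nat_lit 0) (nat_lit 0)) T2.l5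
  TrL.n)))))) (by decide +kernel)
theorem bx1_6 : BoxOK sI cl4 cl7 cl5 t4 t2 b1_6 :=
  box_mk (TrL.c (I.pos (nat_lit 0) (nat_lit 0)) T4.l6
  (TrL.c (I.pos (nat_lit 0) (nat_lit 0)) T2.l3
  (TrL.c (I.pos (nat_lit 0) (nat_lit 0)) T4.l4
  (TrL.c (I.pos (nat_lit 0) (nat_lit 0)) T2.l4
  (TrL.c (I.pos (nat_lit 0) (nat_lit 0)) T4.l7
  (TrL.c (I.pos (nat_lit 0) (nat_lit 0)) T2.l5
  TrL.n)))))) (by decide +kernel)
theorem bx1_7 : BoxOK sI cl4 cl7 cl5 t4 t2 b1_7 :=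
  box_mk (TrL.c (I.pos (nat_lit 0) (nat_lit 0)) (xa T4.l0 T4.l2)
  (TrL.c (I.pos (nat_lit 0) (nat_lit 0)) T2.l3
  (TrL.c (I.pos (nat_lit 0) (nat_lit 0)) T4.l3
  (TrL.c (I.pos (nat_lit 0) (nat_lit 0)) T2.l0
  (TrL.c (I.pos (nat_lit 0) (nat_lit 0)) T4.l1
  (TrL.c (I.pos (nat_lit 0) (nat_lit 0)) T2.l5
  TrL.n)))))) (by decide +kernel)
theorem bx1_8 : BoxOK sI cl4 cl7 cl5 t4 t2 b1_8 :=
  box_mk (TrL.c (I.pos (nat_lit 0) (nat_lit 0)) (xa (xb (xa T4.l6 T4.l6) T4.l6) (xb (xa T4.l6 T4.l6) T4.l6))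
  (TrL.c (I.pos (nat_lit 0) (nat_lit 0)) T2.l3
  (TrL.c (I.pos (nat_lit 0) (nat_lit 0)) T4.l4
  (TrL.c (I.pos (nat_lit 0) (nat_lit 0)) T2.l4
  (TrL.c (I.pos (nat_lit 0) (nat_lit 0)) T4.l7
  (TrL.c (I.pos (nat_lit 0) (nat_lit 0)) T2.l5
  TrL.n)))))) (by decide +kernel)
theorem bx1_9 : BoxOK sI cl4 cl7 cl5 t4 t2 b1_9 :=
  box_mk (TrL.c (I.pos (nat_lit 0) (nat_lit 0)) (xa T4.l6 T4.l6)
  (TrL.c (I.pos (nat_lit 0) (nat_lit 0)) T2.l3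
  (TrL.c (I.pos (nat_lit 0) (nat_lit 0)) T4.l4
  (TrL.c (I.pos (nat_lit 0) (nat_lit 0)) T2.l4
  (TrL.c (I.pos (nat_lit 0) (nat_lit 0)) T4.l7
  (TrL.c (I.pos (nat_lit 0) (nat_lit 0)) T2.l5
  TrL.n)))))) (by decide +kernel)
theorem bx1_10 : BoxOK sI cl4 cl7 cl5 t4 t2 b1_10 :=
  box_mk (TrL.c (I.pos (nat_lit 0) (nat_lit 0)) (xb (xa (xb T4.l8 T4.l8) T4.l8) (xa (xb T4.l8 (xa T4.l8 T4.l8)) (xb T4.l8 T4.l8)))
  (TrL.c (I.pos (nat_lit 0) (nat_lit 0)) (xb T2.l3 T2.l3)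
  (TrL.c (I.pos (nat_lit 0) (nat_lit 0)) T4.l4
  (TrL.c (I.pos (nat_lit 0) (nat_lit 0)) (xb T2.l4 (xa T2.l4 T2.l4))
  (TrL.c (I.pos (nat_lit 0) (nat_lit 0)) T4.l9
  (TrL.c (I.pos (nat_lit 0) (nat_lit 0)) (xb T2.l5 T2.l5)
  TrL.n)))))) (by decide +kernel)
theorem bx1_11 : BoxOK sI cl4 cl7 cl5 t4 t2 b1_11 :=
  box_mk (TrL.c (I.pos (nat_lit 0) (nat_lit 0)) (xa (xa (xb T4.l6 (xa T4.l6 T4.l6)) (xb T4.l6 T4.l6)) (xa T4.l6 (xb T4.l6 T4.l6)))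
  (TrL.c (I.pos (nat_lit 0) (nat_lit 0)) (xa T2.l3 T2.l3)
  (TrL.c (I.pos (nat_lit 0) (nat_lit 0)) T4.l4
  (TrL.c (I.pos (nat_lit 0) (nat_lit 0)) (xa T2.l4 T2.l4)
  (TrL.c (I.pos (nat_lit 0) (nat_lit 0)) T4.l7
  (TrL.c (I.pos (nat_lit 0) (nat_lit 0)) (xa T2.l5 T2.l5)
  TrL.n)))))) (by decide +kernel)
theorem bx1_12 : BoxOK sI cl4 cl7 cl5 t4 t2 b1_12 :=
  box_mk (TrL.c (I.pos (nat_lit 0) (nat_lit 0)) T4.l0
  (TrL.c (I.pos (nat_lit 0) (nat_lit 0)) T2.l3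
  (TrL.c (I.pos (nat_lit 0) (nat_lit 0)) T4.l4
  (TrL.c (I.pos (nat_lit 0) (nat_lit 0)) T2.l4
  (TrL.c (I.pos (nat_lit 0) (nat_lit 0)) T4.l9
  (TrL.c (I.pos (nat_lit 0) (nat_lit 0)) T2.l5
  TrL.n)))))) (by decide +kernel)
theorem bx1_13 : BoxOK sI cl4 cl7 cl5 t4 t2 b1_13 :=
  box_mk (TrL.c (I.pos (nat_lit 0) (nat_lit 0)) T4.l6
  (TrL.c (I.pos (nat_lit 0) (nat_lit 0)) T2.l3
  (TrL.c (I.pos (nat_lit 0) (nat_lit 0)) T4.l4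
  (TrL.c (I.pos (nat_lit 0) (nat_lit 0)) T2.l4
  (TrL.c (I.pos (nat_lit 0) (nat_lit 0)) T4.l7
  (TrL.c (I.pos (nat_lit 0) (nat_lit 0)) T2.l5
  TrL.n)))))) (by decide +kernel)
theorem bx1_14 : BoxOK sI cl4 cl7 cl5 t4 t2 b1_14 :=
  box_mk (TrL.c (I.pos (nat_lit 0) (nat_lit 0)) T4.l6
  (TrL.c (I.pos (nat_lit 0) (nat_lit 0)) T2.l3
  (TrL.c (I.pos (nat_lit 0) (nat_lit 0)) T4.l4
  (TrL.c (I.pos (nat_lit 0) (nat_lit 0)) T2.l4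
  (TrL.c (I.pos (nat_lit 0) (nat_lit 0)) T4.l7
  (TrL.c (I.pos (nat_lit 0) (nat_lit 0)) T2.l5
  TrL.n)))))) (by decide +kernel)
theorem bx1_15 : BoxOK sI cl4 cl7 cl5 t4 t2 b1_15 :=
  box_mk (TrL.c (I.pos (nat_lit 0) (nat_lit 0)) (xb T4.l8 T4.l8)
  (TrL.c (I.pos (nat_lit 0) (nat_lit 0)) T2.l3
  (TrL.c (I.pos (nat_lit 0) (nat_lit 0)) T4.l4
  (TrL.c (I.pos (nat_lit 0) (nat_lit 0)) T2.l4
  (TrL.c (I.pos (nat_lit 0) (nat_lit 0)) T4.l9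
  (TrL.c (I.pos (nat_lit 0) (nat_lit 0)) T2.l5
  TrL.n)))))) (by decide +kernel)
theorem sv1 : StarV sI cl4 cl7 cl5 t4 t2 t1 :=
  (bt_n (bt_n (bt_n (bt_n (bt_b bx1_0) (bt_b bx1_1)) (bt_n (bt_b bx1_2) (bt_b bx1_3))) (bt_n (bt_n (bt_b bx1_4) (bt_b bx1_5)) (bt_n (bt_b bx1_6) (bt_b bx1_7)))) (bt_n (bt_n (bt_n (bt_b bx1_8) (bt_b bx1_9)) (bt_n (bt_b bx1_10) (bt_b bx1_11))) (bt_n (bt_n (bt_b bx1_12) (bt_b bx1_13)) (bt_n (bt_b bx1_14) (bt_b bx1_15)))))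
def S1 : StarD := StarD.mk cl4 cl7 cl5 4 2 t1
theorem bx2_0 : BoxOK sI cl5 cl4 cl7 t0 t5 b2_0 :=
  box_mk (TrL.c (I.pos (nat_lit 0) (nat_lit 0)) (xb (xa T0.l6 T0.l0) (xa T0.l6 (xb T0.l0 T0.l0)))
  (TrL.c (I.pos (nat_lit 0) (nat_lit 0)) T5.l1
  (TrL.c (I.pos (nat_lit 0) (nat_lit 0)) T0.l1
  (TrL.c (I.pos (nat_lit 0) (nat_lit 0)) T5.l2
  (TrL.c (I.pos (nat_lit 0) (nat_lit 0)) (xb (xa T5.l3 T5.l3) (xa T5.l3 (xb T5.l3 T5.l3)))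
  (TrL.c (I.pos (nat_lit 0) (nat_lit 0)) T0.l2
  (TrL.c (I.pos (nat_lit 0) (nat_lit 0)) T5.l4
  (TrL.c (I.pos (nat_lit 0) (nat_lit 0)) T0.l3
  TrL.n)))))))) (by decide +kernel)
theorem bx2_1 : BoxOK sI cl5 cl4 cl7 t0 t5 b2_1 :=
  box_mk (TrL.c (I.pos (nat_lit 0) (nat_lit 0)) T5.l5
  (TrL.c (I.pos (nat_lit 0) (nat_lit 0)) T0.l4
  (TrL.c (I.pos (nat_lit 0) (nat_lit 0)) T5.l6
  TrL.n))) (by decide +kernel)
theorem bx2_2 : BoxOK sI cl5 cl4 cl7 t0 t5 b2_2 :=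
  box_mk (TrL.c (I.pos (nat_lit 0) (nat_lit 0)) (xb T0.l6 T0.l6)
  (TrL.c (I.pos (nat_lit 0) (nat_lit 0)) T5.l1
  (TrL.c (I.pos (nat_lit 0) (nat_lit 0)) T0.l1
  (TrL.c (I.pos (nat_lit 0) (nat_lit 0)) T5.l2
  (TrL.c (I.pos (nat_lit 0) (nat_lit 0)) T5.l8
  (TrL.c (I.pos (nat_lit 0) (nat_lit 0)) T0.l2
  (TrL.c (I.pos (nat_lit 0) (nat_lit 0)) T5.l4
  (TrL.c (I.pos (nat_lit 0) (nat_lit 0)) T0.l3
  TrL.n)))))))) (by decide +kernel)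
theorem bx2_3 : BoxOK sI cl5 cl4 cl7 t0 t5 b2_3 :=
  box_mk (TrL.c (I.pos (nat_lit 0) (nat_lit 0)) (xa (xb (xa (xb T0.l6 T0.l6) T0.l6) (xa T0.l6 T0.l6)) (xb T0.l6 T0.l6))
  (TrL.c (I.pos (nat_lit 0) (nat_lit 0)) T5.l1
  (TrL.c (I.pos (nat_lit 0) (nat_lit 0)) T0.l1
  (TrL.c (I.pos (nat_lit 0) (nat_lit 0)) T5.l2
  (TrL.c (I.pos (nat_lit 0) (nat_lit 0)) (xa T5.l8 T5.l8)
  (TrL.c (I.pos (nat_lit 0) (nat_lit 0)) T0.l2
  (TrL.c (I.pos (nat_lit 0) (nat_lit 0)) T5.l4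
  (TrL.c (I.pos (nat_lit 0) (nat_lit 0)) T0.l3
  TrL.n)))))))) (by decide +kernel)
theorem bx2_4 : BoxOK sI cl5 cl4 cl7 t0 t5 b2_4 :=
  box_mk (TrL.c (I.pos (nat_lit 0) (nat_lit 0)) (xb (xa (xb T0.l6 T0.l6) (xb T0.l6 T0.l6)) (xa (xb T0.l6 (xa T0.l6 T0.l6)) (xb T0.l6 T0.l6)))
  (TrL.c (I.pos (nat_lit 0) (nat_lit 0)) (xb T5.l1 T5.l1)
  (TrL.c (I.pos (nat_lit 0) (nat_lit 0)) T0.l1
  (TrL.c (I.pos (nat_lit 0) (nat_lit 0)) T5.l2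
  (TrL.c (I.pos (nat_lit 0) (nat_lit 0)) (xb (xa T5.l8 (xb T5.l8 T5.l8)) (xa T5.l8 (xb T5.l8 T5.l3)))
  (TrL.c (I.pos (nat_lit 0) (nat_lit 0)) T0.l2
  (TrL.c (I.pos (nat_lit 0) (nat_lit 0)) T5.l4
  (TrL.c (I.pos (nat_lit 0) (nat_lit 0)) T0.l3
  TrL.n)))))))) (by decide +kernel)
theorem bx2_5 : BoxOK sI cl5 cl4 cl7 t0 t5 b2_5 :=
  box_mk (TrL.c (I.pos (nat_lit 0) (nat_lit 0)) T5.l1
  (TrL.c (I.pos (nat_lit 0) (nat_lit 0)) T0.l1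
  (TrL.c (I.pos (nat_lit 0) (nat_lit 0)) T5.l2
  TrL.n))) (by decide +kernel)
theorem bx2_6 : BoxOK sI cl5 cl4 cl7 t0 t5 b2_6 :=
  box_mk (TrL.c (I.pos (nat_lit 0) (nat_lit 0)) (xa T0.l0 T0.l0)
  (TrL.c (I.pos (nat_lit 0) (nat_lit 0)) T5.l1
  (TrL.c (I.pos (nat_lit 0) (nat_lit 0)) T0.l1
  (TrL.c (I.pos (nat_lit 0) (nat_lit 0)) T5.l2
  (TrL.c (I.pos (nat_lit 0) (nat_lit 0)) (xa T5.l3 (xb T5.l3 T5.l3))
  (TrL.c (I.pos (nat_lit 0) (nat_lit 0)) T0.l2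
  (TrL.c (I.pos (nat_lit 0) (nat_lit 0)) T5.l4
  (TrL.c (I.pos (nat_lit 0) (nat_lit 0)) T0.l3
  TrL.n)))))))) (by decide +kernel)
theorem bx2_7 : BoxOK sI cl5 cl4 cl7 t0 t5 b2_7 :=
  box_mk (TrL.c (I.pos (nat_lit 0) (nat_lit 0)) (xa (xb T0.l5 T0.l5) T0.l5)
  (TrL.c (I.pos (nat_lit 0) (nat_lit 0)) T5.l1
  (TrL.c (I.pos (nat_lit 0) (nat_lit 0)) T0.l1
  (TrL.c (I.pos (nat_lit 0) (nat_lit 0)) T5.l2
  (TrL.c (I.pos (nat_lit 0) (nat_lit 0)) T5.l7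
  (TrL.c (I.pos (nat_lit 0) (nat_lit 0)) T0.l2
  (TrL.c (I.pos (nat_lit 0) (nat_lit 0)) T5.l4
  (TrL.c (I.pos (nat_lit 0) (nat_lit 0)) T0.l3
  TrL.n)))))))) (by decide +kernel)
theorem bx2_8 : BoxOK sI cl5 cl4 cl7 t0 t5 b2_8 :=
  box_mk (TrL.c (I.pos (nat_lit 0) (nat_lit 0)) T5.l1
  (TrL.c (I.pos (nat_lit 0) (nat_lit 0)) T0.l4
  (TrL.c (I.pos (nat_lit 0) (nat_lit 0)) T5.l6
  TrL.n))) (by decide +kernel)
theorem bx2_9 : BoxOK sI cl5 cl4 cl7 t0 t5 b2_9 :=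
  box_mk (TrL.c (I.pos (nat_lit 0) (nat_lit 0)) (xa T0.l0 T0.l0)
  (TrL.c (I.pos (nat_lit 0) (nat_lit 0)) T5.l1
  (TrL.c (I.pos (nat_lit 0) (nat_lit 0)) T0.l1
  (TrL.c (I.pos (nat_lit 0) (nat_lit 0)) T5.l2
  (TrL.c (I.pos (nat_lit 0) (nat_lit 0)) T5.l3
  (TrL.c (I.pos (nat_lit 0) (nat_lit 0)) T0.l2
  (TrL.c (I.pos (nat_lit 0) (nat_lit 0)) T5.l4
  (TrL.c (I.pos (nat_lit 0) (nat_lit 0)) T0.l3
  TrL.n)))))))) (by decide +kernel)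
theorem bx2_10 : BoxOK sI cl5 cl4 cl7 t0 t5 b2_10 :=
  box_mk (TrL.c (I.pos (nat_lit 0) (nat_lit 0)) T0.l5
  (TrL.c (I.pos (nat_lit 0) (nat_lit 0)) T5.l1
  (TrL.c (I.pos (nat_lit 0) (nat_lit 0)) T0.l1
  (TrL.c (I.pos (nat_lit 0) (nat_lit 0)) T5.l2
  (TrL.c (I.pos (nat_lit 0) (nat_lit 0)) T5.l7
  (TrL.c (I.pos (nat_lit 0) (nat_lit 0)) T0.l2
  (TrL.c (I.pos (nat_lit 0) (nat_lit 0)) T5.l4
  (TrL.c (I.pos (nat_lit 0) (nat_lit 0)) T0.l3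
  TrL.n)))))))) (by decide +kernel)
theorem sv2 : StarV sI cl5 cl4 cl7 t0 t5 t2 :=
  (bt_n (bt_n (bt_n (bt_b bx2_0) (bt_b bx2_1)) (bt_n (bt_b bx2_2) (bt_n (bt_b bx2_3) (bt_b bx2_4)))) (bt_n (bt_n (bt_b bx2_5) (bt_n (bt_b bx2_6) (bt_b bx2_7))) (bt_n (bt_b bx2_8) (bt_n (bt_b bx2_9) (bt_b bx2_10)))))
def S2 : StarD := StarD.mk cl5 cl4 cl7 0 5 t2
theorem bx3_0 : BoxOK sI cl5 cl7 cl4 t5 t0 b3_0 :=
  box_mk (TrL.c (I.pos (nat_lit 0) (nat_lit 0)) (xa (xb (xa T5.l0 T5.l0) (xa (xb T5.l0 T5.l0) T5.l0)) (xa (xb T5.l0 T5.l0) (xb T5.l0 T5.l0)))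
  (TrL.c (I.pos (nat_lit 0) (nat_lit 0)) (xa T0.l7 T0.l7)
  (TrL.c (I.pos (nat_lit 0) (nat_lit 0)) T5.l9
  (TrL.c (I.pos (nat_lit 0) (nat_lit 0)) T0.l8
  (TrL.c (I.pos (nat_lit 0) (nat_lit 0)) (xa T0.l9 (xb T0.l9 T0.l9))
  (TrL.c (I.pos (nat_lit 0) (nat_lit 0)) T5.l10
  (TrL.c (I.pos (nat_lit 0) (nat_lit 0)) T0.l10
  (TrL.c (I.pos (nat_lit 0) (nat_lit 0)) T5.l11
  TrL.n)))))))) (by decide +kernel)
theorem bx3_1 : BoxOK sI cl5 cl7 cl4 t5 t0 b3_1 :=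
  box_mk (TrL.c (I.pos (nat_lit 0) (nat_lit 0)) (xa (xb (xa T5.l12 T5.l12) (xa T5.l12 T5.l12)) (xb T5.l0 T5.l12))
  (TrL.c (I.pos (nat_lit 0) (nat_lit 0)) T0.l7
  (TrL.c (I.pos (nat_lit 0) (nat_lit 0)) T5.l9
  (TrL.c (I.pos (nat_lit 0) (nat_lit 0)) T0.l8
  (TrL.c (I.pos (nat_lit 0) (nat_lit 0)) (xa T0.l11 (xb T0.l11 T0.l11))
  (TrL.c (I.pos (nat_lit 0) (nat_lit 0)) T5.l10
  (TrL.c (I.pos (nat_lit 0) (nat_lit 0)) T0.l10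
  (TrL.c (I.pos (nat_lit 0) (nat_lit 0)) T5.l11
  TrL.n)))))))) (by decide +kernel)
theorem bx3_2 : BoxOK sI cl5 cl7 cl4 t5 t0 b3_2 :=
  box_mk (TrL.c (I.pos (nat_lit 0) (nat_lit 0)) (xa T5.l12 T5.l12)
  (TrL.c (I.pos (nat_lit 0) (nat_lit 0)) T0.l7
  (TrL.c (I.pos (nat_lit 0) (nat_lit 0)) T5.l9
  (TrL.c (I.pos (nat_lit 0) (nat_lit 0)) T0.l8
  (TrL.c (I.pos (nat_lit 0) (nat_lit 0)) T0.l11
  (TrL.c (I.pos (nat_lit 0) (nat_lit 0)) T5.l10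
  (TrL.c (I.pos (nat_lit 0) (nat_lit 0)) T0.l10
  (TrL.c (I.pos (nat_lit 0) (nat_lit 0)) T5.l11
  TrL.n)))))))) (by decide +kernel)
theorem bx3_3 : BoxOK sI cl5 cl7 cl4 t5 t0 b3_3 :=
  box_mk (TrL.c (I.pos (nat_lit 0) (nat_lit 0)) (xb (xa (xb T5.l13 T5.l13) (xb T5.l13 T5.l13)) (xa (xb (xa T5.l13 T5.l13) (xa T5.l13 T5.l13)) (xb T5.l13 (xa T5.l13 T5.l13))))
  (TrL.c (I.pos (nat_lit 0) (nat_lit 0)) T0.l7
  (TrL.c (I.pos (nat_lit 0) (nat_lit 0)) T5.l9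
  (TrL.c (I.pos (nat_lit 0) (nat_lit 0)) T0.l8
  (TrL.c (I.pos (nat_lit 0) (nat_lit 0)) (xb T0.l12 (xa T0.l12 T0.l12))
  (TrL.c (I.pos (nat_lit 0) (nat_lit 0)) T5.l10
  (TrL.c (I.pos (nat_lit 0) (nat_lit 0)) T0.l10
  (TrL.c (I.pos (nat_lit 0) (nat_lit 0)) T5.l11
  TrL.n)))))))) (by decide +kernel)
theorem bx3_4 : BoxOK sI cl5 cl7 cl4 t5 t0 b3_4 :=
  box_mk (TrL.c (I.pos (nat_lit 0) (nat_lit 0)) (xa (xa (xb T5.l12 (xa T5.l12 T5.l12)) (xb T5.l12 T5.l12)) (xa T5.l12 (xb T5.l12 (xa T5.l12 T5.l12))))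
  (TrL.c (I.pos (nat_lit 0) (nat_lit 0)) (xa T0.l7 T0.l7)
  (TrL.c (I.pos (nat_lit 0) (nat_lit 0)) T5.l9
  (TrL.c (I.pos (nat_lit 0) (nat_lit 0)) T0.l8
  (TrL.c (I.pos (nat_lit 0) (nat_lit 0)) (xa T0.l11 T0.l11)
  (TrL.c (I.pos (nat_lit 0) (nat_lit 0)) T5.l10
  (TrL.c (I.pos (nat_lit 0) (nat_lit 0)) T0.l10
  (TrL.c (I.pos (nat_lit 0) (nat_lit 0)) T5.l11
  TrL.n)))))))) (by decide +kernel)
theorem bx3_5 : BoxOK sI cl5 cl7 cl4 t5 t0 b3_5 :=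
  box_mk (TrL.c (I.pos (nat_lit 0) (nat_lit 0)) (xb (xa (xb T5.l13 T5.l13) (xb T5.l13 T5.l13)) (xa (xb T5.l13 T5.l13) T5.l13))
  (TrL.c (I.pos (nat_lit 0) (nat_lit 0)) T0.l7
  (TrL.c (I.pos (nat_lit 0) (nat_lit 0)) T5.l9
  (TrL.c (I.pos (nat_lit 0) (nat_lit 0)) T0.l8
  (TrL.c (I.pos (nat_lit 0) (nat_lit 0)) (xb T0.l12 T0.l12)
  (TrL.c (I.pos (nat_lit 0) (nat_lit 0)) T5.l10
  (TrL.c (I.pos (nat_lit 0) (nat_lit 0)) T0.l10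
  (TrL.c (I.pos (nat_lit 0) (nat_lit 0)) T5.l11
  TrL.n)))))))) (by decide +kernel)
theorem bx3_6 : BoxOK sI cl5 cl7 cl4 t5 t0 b3_6 :=
  box_mk (TrL.c (I.pos (nat_lit 0) (nat_lit 0)) (xa T5.l12 T5.l12)
  (TrL.c (I.pos (nat_lit 0) (nat_lit 0)) T0.l7
  (TrL.c (I.pos (nat_lit 0) (nat_lit 0)) T5.l9
  (TrL.c (I.pos (nat_lit 0) (nat_lit 0)) T0.l8
  (TrL.c (I.pos (nat_lit 0) (nat_lit 0)) T0.l11
  (TrL.c (I.pos (nat_lit 0) (nat_lit 0)) T5.l10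
  (TrL.c (I.pos (nat_lit 0) (nat_lit 0)) T0.l10
  (TrL.c (I.pos (nat_lit 0) (nat_lit 0)) T5.l11
  TrL.n)))))))) (by decide +kernel)
theorem bx3_7 : BoxOK sI cl5 cl7 cl4 t5 t0 b3_7 :=
  box_mk (TrL.c (I.pos (nat_lit 0) (nat_lit 0)) (xa T5.l12 T5.l12)
  (TrL.c (I.pos (nat_lit 0) (nat_lit 0)) T0.l7
  (TrL.c (I.pos (nat_lit 0) (nat_lit 0)) T5.l9
  (TrL.c (I.pos (nat_lit 0) (nat_lit 0)) T0.l8
  (TrL.c (I.pos (nat_lit 0) (nat_lit 0)) T0.l11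
  (TrL.c (I.pos (nat_lit 0) (nat_lit 0)) T5.l10
  (TrL.c (I.pos (nat_lit 0) (nat_lit 0)) T0.l10
  (TrL.c (I.pos (nat_lit 0) (nat_lit 0)) T5.l11
  TrL.n)))))))) (by decide +kernel)
theorem bx3_8 : BoxOK sI cl5 cl7 cl4 t5 t0 b3_8 :=
  box_mk (TrL.c (I.pos (nat_lit 0) (nat_lit 0)) T5.l13
  (TrL.c (I.pos (nat_lit 0) (nat_lit 0)) T0.l7
  (TrL.c (I.pos (nat_lit 0) (nat_lit 0)) T5.l9
  (TrL.c (I.pos (nat_lit 0) (nat_lit 0)) T0.l8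
  (TrL.c (I.pos (nat_lit 0) (nat_lit 0)) T0.l12
  (TrL.c (I.pos (nat_lit 0) (nat_lit 0)) T5.l10
  (TrL.c (I.pos (nat_lit 0) (nat_lit 0)) T0.l10
  (TrL.c (I.pos (nat_lit 0) (nat_lit 0)) T5.l11
  TrL.n)))))))) (by decide +kernel)
theorem bx3_9 : BoxOK sI cl5 cl7 cl4 t5 t0 b3_9 :=
  box_mk (TrL.c (I.pos (nat_lit 0) (nat_lit 0)) (xa (xa (xb T5.l12 T5.l12) T5.l12) (xa T5.l12 (xa T5.l12 T5.l12)))
  (TrL.c (I.pos (nat_lit 0) (nat_lit 0)) T0.l7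
  (TrL.c (I.pos (nat_lit 0) (nat_lit 0)) T5.l9
  (TrL.c (I.pos (nat_lit 0) (nat_lit 0)) T0.l8
  (TrL.c (I.pos (nat_lit 0) (nat_lit 0)) (xa T0.l11 T0.l11)
  (TrL.c (I.pos (nat_lit 0) (nat_lit 0)) T5.l10
  (TrL.c (I.pos (nat_lit 0) (nat_lit 0)) T0.l10
  (TrL.c (I.pos (nat_lit 0) (nat_lit 0)) T5.l11
  TrL.n)))))))) (by decide +kernel)
theorem bx3_10 : BoxOK sI cl5 cl7 cl4 t5 t0 b3_10 :=
  box_mk (TrL.c (I.pos (nat_lit 0) (nat_lit 0)) (xb T5.l12 T5.l12)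
  (TrL.c (I.pos (nat_lit 0) (nat_lit 0)) T0.l7
  (TrL.c (I.pos (nat_lit 0) (nat_lit 0)) T5.l9
  (TrL.c (I.pos (nat_lit 0) (nat_lit 0)) T0.l8
  (TrL.c (I.pos (nat_lit 0) (nat_lit 0)) (xb T0.l11 T0.l11)
  (TrL.c (I.pos (nat_lit 0) (nat_lit 0)) T5.l10
  (TrL.c (I.pos (nat_lit 0) (nat_lit 0)) T0.l10
  (TrL.c (I.pos (nat_lit 0) (nat_lit 0)) T5.l11
  TrL.n)))))))) (by decide +kernel)
theorem bx3_11 : BoxOK sI cl5 cl7 cl4 t5 t0 b3_11 :=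
  box_mk (TrL.c (I.pos (nat_lit 0) (nat_lit 0)) (xa (xa (xb T5.l12 T5.l12) T5.l12) T5.l12)
  (TrL.c (I.pos (nat_lit 0) (nat_lit 0)) T0.l7
  (TrL.c (I.pos (nat_lit 0) (nat_lit 0)) T5.l9
  (TrL.c (I.pos (nat_lit 0) (nat_lit 0)) T0.l8
  (TrL.c (I.pos (nat_lit 0) (nat_lit 0)) T0.l11
  (TrL.c (I.pos (nat_lit 0) (nat_lit 0)) T5.l10
  (TrL.c (I.pos (nat_lit 0) (nat_lit 0)) T0.l10
  (TrL.c (I.pos (nat_lit 0) (nat_lit 0)) T5.l11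
  TrL.n)))))))) (by decide +kernel)
theorem bx3_12 : BoxOK sI cl5 cl7 cl4 t5 t0 b3_12 :=
  box_mk (TrL.c (I.pos (nat_lit 0) (nat_lit 0)) (xa T5.l0 T5.l0)
  (TrL.c (I.pos (nat_lit 0) (nat_lit 0)) T0.l7
  (TrL.c (I.pos (nat_lit 0) (nat_lit 0)) T5.l9
  (TrL.c (I.pos (nat_lit 0) (nat_lit 0)) T0.l8
  (TrL.c (I.pos (nat_lit 0) (nat_lit 0)) (xa T0.l9 T0.l9)
  (TrL.c (I.pos (nat_lit 0) (nat_lit 0)) T5.l10
  (TrL.c (I.pos (nat_lit 0) (nat_lit 0)) T0.l10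
  (TrL.c (I.pos (nat_lit 0) (nat_lit 0)) T5.l11
  TrL.n)))))))) (by decide +kernel)
theorem bx3_13 : BoxOK sI cl5 cl7 cl4 t5 t0 b3_13 :=
  box_mk (TrL.c (I.pos (nat_lit 0) (nat_lit 0)) T5.l12
  (TrL.c (I.pos (nat_lit 0) (nat_lit 0)) T0.l7
  (TrL.c (I.pos (nat_lit 0) (nat_lit 0)) T5.l9
  (TrL.c (I.pos (nat_lit 0) (nat_lit 0)) T0.l8
  (TrL.c (I.pos (nat_lit 0) (nat_lit 0)) T0.l11
  (TrL.c (I.pos (nat_lit 0) (nat_lit 0)) T5.l10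
  (TrL.c (I.pos (nat_lit 0) (nat_lit 0)) T0.l10
  (TrL.c (I.pos (nat_lit 0) (nat_lit 0)) T5.l11
  TrL.n)))))))) (by decide +kernel)
theorem bx3_14 : BoxOK sI cl5 cl7 cl4 t5 t0 b3_14 :=
  box_mk (TrL.c (I.pos (nat_lit 0) (nat_lit 0)) T5.l12
  (TrL.c (I.pos (nat_lit 0) (nat_lit 0)) T0.l7
  (TrL.c (I.pos (nat_lit 0) (nat_lit 0)) T5.l9
  (TrL.c (I.pos (nat_lit 0) (nat_lit 0)) T0.l8
  (TrL.c (I.pos (nat_lit 0) (nat_lit 0)) T0.l11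
  (TrL.c (I.pos (nat_lit 0) (nat_lit 0)) T5.l10
  (TrL.c (I.pos (nat_lit 0) (nat_lit 0)) T0.l10
  (TrL.c (I.pos (nat_lit 0) (nat_lit 0)) T5.l11
  TrL.n)))))))) (by decide +kernel)
theorem bx3_15 : BoxOK sI cl5 cl7 cl4 t5 t0 b3_15 :=
  box_mk (TrL.c (I.pos (nat_lit 0) (nat_lit 0)) (xa (xb T5.l0 T5.l0) (xb T5.l0 T5.l0))
  (TrL.c (I.pos (nat_lit 0) (nat_lit 0)) T0.l7
  (TrL.c (I.pos (nat_lit 0) (nat_lit 0)) T5.l9
  (TrL.c (I.pos (nat_lit 0) (nat_lit 0)) T0.l8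
  (TrL.c (I.pos (nat_lit 0) (nat_lit 0)) (xa T0.l9 T0.l9)
  (TrL.c (I.pos (nat_lit 0) (nat_lit 0)) T5.l10
  (TrL.c (I.pos (nat_lit 0) (nat_lit 0)) T0.l10
  (TrL.c (I.pos (nat_lit 0) (nat_lit 0)) T5.l11
  TrL.n)))))))) (by decide +kernel)
theorem sv3 : StarV sI cl5 cl7 cl4 t5 t0 t3 :=
  (bt_n (bt_n (bt_n (bt_n (bt_b bx3_0) (bt_b bx3_1)) (bt_n (bt_b bx3_2) (bt_b bx3_3))) (bt_n (bt_n (bt_b bx3_4) (bt_b bx3_5)) (bt_n (bt_b bx3_6) (bt_b bx3_7)))) (bt_n (bt_n (bt_n (bt_b bx3_8) (bt_b bx3_9)) (bt_n (bt_b bx3_10) (bt_b bx3_11))) (bt_n (bt_n (bt_b bx3_12) (bt_b bx3_13)) (bt_n (bt_b bx3_14) (bt_b bx3_15)))))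
def S3 : StarD := StarD.mk cl5 cl7 cl4 5 0 t3
theorem bx4_0 : BoxOK sI cl7 cl4 cl5 t1 t3 b4_0 :=
  box_mk (TrL.c (I.pos (nat_lit 0) (nat_lit 0)) (xa (xb T1.l4 (xa T1.l4 T1.l4)) (xb (xa T1.l0 T1.l0) (xa (xb T1.l0 T1.l0) T1.l0)))
  (TrL.c (I.pos (nat_lit 0) (nat_lit 0)) T3.l1
  (TrL.c (I.pos (nat_lit 0) (nat_lit 111196574)) (xR T1.l1 T1.l1)
  (TrL.c (I.pos (nat_lit 0) (nat_lit 77433728)) (xR T3.l2 T3.l2)
  (TrL.c (I.pos (nat_lit 0) (nat_lit 0)) (xa T3.l5 (xb (xk T3.l3 T3.l3) (xk T3.l3 T3.l3)))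
  (TrL.c (I.pos (nat_lit 0) (nat_lit 0)) T1.l2
  (TrL.c (I.mix (nat_lit 29511666) (nat_lit 77433728)) (xR T3.l4 T3.l4)
  (TrL.c (I.mix (nat_lit 29511666) (nat_lit 46070178)) T1.l3
  TrL.n)))))))) (by decide +kernel)
theorem bx4_1 : BoxOK sI cl7 cl4 cl5 t1 t3 b4_1 :=
  box_mk (TrL.c (I.pos (nat_lit 0) (nat_lit 0)) (xa (xb (xa (xb T1.l4 T1.l4) T1.l4) T1.l4) T1.l4)
  (TrL.c (I.pos (nat_lit 0) (nat_lit 0)) T3.l1
  (TrL.c (I.pos (nat_lit 0) (nat_lit 111196574)) (xR T1.l1 T1.l1)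
  (TrL.c (I.pos (nat_lit 0) (nat_lit 77433728)) T3.l2
  (TrL.c (I.pos (nat_lit 0) (nat_lit 0)) T3.l5
  (TrL.c (I.pos (nat_lit 0) (nat_lit 0)) T1.l2
  (TrL.c (I.mix (nat_lit 29511666) (nat_lit 77433728)) (xR T3.l4 T3.l4)
  (TrL.c (I.mix (nat_lit 29511666) (nat_lit 46070178)) T1.l11
  TrL.n)))))))) (by decide +kernel)
theorem bx4_2 : BoxOK sI cl7 cl4 cl5 t1 t3 b4_2 :=
  box_mk (TrL.c (I.pos (nat_lit 0) (nat_lit 0)) (xb (xa (xb T1.l4 T1.l4) T1.l4) (xa (xb T1.l4 (xa T1.l4 T1.l4)) (xb T1.l4 (xa T1.l4 T1.l4))))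
  (TrL.c (I.pos (nat_lit 0) (nat_lit 0)) (xb T3.l1 T3.l1)
  (TrL.c (I.pos (nat_lit 0) (nat_lit 111196574)) (xR T1.l1 (xR T1.l1 T1.l1))
  (TrL.c (I.pos (nat_lit 0) (nat_lit 77433728)) (xR T3.l2 T3.l2)
  (TrL.c (I.pos (nat_lit 0) (nat_lit 0)) (xb (xa T3.l5 (xk T3.l5 T3.l5)) (xa T3.l5 T3.l3))
  (TrL.c (I.pos (nat_lit 0) (nat_lit 0)) T1.l2
  (TrL.c (I.mix (nat_lit 29511666) (nat_lit 77433728)) (xR T3.l4 T3.l4)
  (TrL.c (I.mix (nat_lit 29511666) (nat_lit 46070178)) (xR T1.l3 T1.l3)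
  TrL.n)))))))) (by decide +kernel)
theorem bx4_3 : BoxOK sI cl7 cl4 cl5 t1 t3 b4_3 :=
  box_mk (TrL.c (I.pos (nat_lit 0) (nat_lit 0)) T3.l1
  (TrL.c (I.pos (nat_lit 0) (nat_lit 0)) T1.l1
  (TrL.c (I.mix (nat_lit 29511666) (nat_lit 77433728)) (xR T3.l6 T3.l2)
  (TrL.c (I.mix (nat_lit 29511666) (nat_lit 46070178)) T1.l5
  TrL.n)))) (by decide +kernel)
theorem bx4_4 : BoxOK sI cl7 cl4 cl5 t1 t3 b4_4 :=
  box_mk (TrL.c (I.pos (nat_lit 0) (nat_lit 0)) (xb T3.l7 T3.l7)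
  (TrL.c (I.pos (nat_lit 0) (nat_lit 0)) T1.l6
  (TrL.c (I.mix (nat_lit 29511666) (nat_lit 77433728)) (xR T3.l6 T3.l4)
  (TrL.c (I.mix (nat_lit 29511666) (nat_lit 46070178)) T1.l5
  TrL.n)))) (by decide +kernel)
theorem bx4_5 : BoxOK sI cl7 cl4 cl5 t1 t3 b4_5 :=
  box_mk (TrL.c (I.pos (nat_lit 0) (nat_lit 0)) T1.l4
  (TrL.c (I.pos (nat_lit 0) (nat_lit 0)) T3.l1
  (TrL.c (I.pos (nat_lit 0) (nat_lit 111196574)) T1.l1
  (TrL.c (I.pos (nat_lit 0) (nat_lit 77433728)) T3.l2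
  (TrL.c (I.pos (nat_lit 0) (nat_lit 0)) T3.l5
  (TrL.c (I.pos (nat_lit 0) (nat_lit 0)) T1.l2
  (TrL.c (I.mix (nat_lit 29511666) (nat_lit 77433728)) T3.l4
  (TrL.c (I.mix (nat_lit 29511666) (nat_lit 46070178)) T1.l3
  TrL.n)))))))) (by decide +kernel)
theorem bx4_6 : BoxOK sI cl7 cl4 cl5 t1 t3 b4_6 :=
  box_mk (TrL.c (I.pos (nat_lit 0) (nat_lit 0)) (xa (xb T1.l0 (xa T1.l0 T1.l0)) (xb T1.l0 (xa T1.l0 T1.l0)))
  (TrL.c (I.pos (nat_lit 0) (nat_lit 0)) (xa T3.l1 T3.l1)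
  (TrL.c (I.pos (nat_lit 0) (nat_lit 111196574)) (xR T1.l1 T1.l1)
  (TrL.c (I.pos (nat_lit 0) (nat_lit 77433728)) (xR T3.l2 T3.l2)
  (TrL.c (I.pos (nat_lit 0) (nat_lit 0)) (xa (xb (xa T3.l3 (xk T3.l3 T3.l3)) T3.l3) (xb (xk (xa T3.l3 T3.l3) (xa T3.l3 T3.l3)) (xk (xa T3.l3 T3.l3) (xa T3.l3 T3.l3))))
  (TrL.c (I.pos (nat_lit 0) (nat_lit 0)) (xa T1.l2 T1.l2)
  (TrL.c (I.mix (nat_lit 29511666) (nat_lit 77433728)) (xR T3.l4 (xR T3.l4 T3.l4))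
  (TrL.c (I.mix (nat_lit 29511666) (nat_lit 46070178)) T1.l3
  TrL.n)))))))) (by decide +kernel)
theorem bx4_7 : BoxOK sI cl7 cl4 cl5 t1 t3 b4_7 :=
  box_mk (TrL.c (I.pos (nat_lit 0) (nat_lit 0)) (xb (xa (xa T1.l7 T1.l7) T1.l7) (xa T1.l7 T1.l7))
  (TrL.c (I.pos (nat_lit 0) (nat_lit 0)) T3.l7
  (TrL.c (I.pos (nat_lit 0) (nat_lit 111196574)) T1.l1
  (TrL.c (I.pos (nat_lit 0) (nat_lit 77433728)) T3.l2
  (TrL.c (I.pos (nat_lit 0) (nat_lit 0)) T3.l8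
  (TrL.c (I.pos (nat_lit 0) (nat_lit 0)) T1.l2
  (TrL.c (I.mix (nat_lit 29511666) (nat_lit 77433728)) T3.l6
  (TrL.c (I.mix (nat_lit 29511666) (nat_lit 46070178)) T1.l3
  TrL.n)))))))) (by decide +kernel)
theorem bx4_8 : BoxOK sI cl7 cl4 cl5 t1 t3 b4_8 :=
  box_mk (TrL.c (I.pos (nat_lit 0) (nat_lit 0)) (xa (xb T1.l0 T1.l4) (xb T1.l0 T1.l0))
  (TrL.c (I.pos (nat_lit 0) (nat_lit 0)) T3.l1
  (TrL.c (I.pos (nat_lit 0) (nat_lit 111196574)) (xR T1.l1 T1.l1)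
  (TrL.c (I.pos (nat_lit 0) (nat_lit 77433728)) (xR T3.l2 T3.l2)
  (TrL.c (I.pos (nat_lit 0) (nat_lit 0)) (xa T3.l3 T3.l3)
  (TrL.c (I.pos (nat_lit 0) (nat_lit 0)) T1.l2
  (TrL.c (I.mix (nat_lit 29511666) (nat_lit 77433728)) (xR T3.l4 T3.l4)
  (TrL.c (I.mix (nat_lit 29511666) (nat_lit 46070178)) T1.l3
  TrL.n)))))))) (by decide +kernel)
theorem bx4_9 : BoxOK sI cl7 cl4 cl5 t1 t3 b4_9 :=
  box_mk (TrL.c (I.pos (nat_lit 0) (nat_lit 0)) T1.l4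
  (TrL.c (I.pos (nat_lit 0) (nat_lit 0)) T3.l1
  (TrL.c (I.pos (nat_lit 0) (nat_lit 111196574)) T1.l1
  (TrL.c (I.pos (nat_lit 0) (nat_lit 77433728)) T3.l2
  (TrL.c (I.pos (nat_lit 0) (nat_lit 0)) T3.l5
  (TrL.c (I.pos (nat_lit 0) (nat_lit 0)) T1.l2
  (TrL.c (I.mix (nat_lit 29511666) (nat_lit 77433728)) T3.l4
  (TrL.c (I.mix (nat_lit 29511666) (nat_lit 46070178)) T1.l3
  TrL.n)))))))) (by decide +kernel)
theorem bx4_10 : BoxOK sI cl7 cl4 cl5 t1 t3 b4_10 :=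
  box_mk (TrL.c (I.pos (nat_lit 0) (nat_lit 0)) T1.l4
  (TrL.c (I.pos (nat_lit 0) (nat_lit 0)) T3.l1
  (TrL.c (I.pos (nat_lit 0) (nat_lit 111196574)) T1.l1
  (TrL.c (I.pos (nat_lit 0) (nat_lit 77433728)) T3.l2
  (TrL.c (I.pos (nat_lit 0) (nat_lit 0)) T3.l5
  (TrL.c (I.pos (nat_lit 0) (nat_lit 0)) T1.l2
  (TrL.c (I.mix (nat_lit 29511666) (nat_lit 77433728)) T3.l4
  (TrL.c (I.mix (nat_lit 29511666) (nat_lit 46070178)) T1.l3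
  TrL.n)))))))) (by decide +kernel)
theorem sv4 : StarV sI cl7 cl4 cl5 t1 t3 t4 :=
  (bt_n (bt_n (bt_n (bt_b bx4_0) (bt_b bx4_1)) (bt_n (bt_b bx4_2) (bt_n (bt_b bx4_3) (bt_b bx4_4)))) (bt_n (bt_n (bt_b bx4_5) (bt_n (bt_b bx4_6) (bt_b bx4_7))) (bt_n (bt_b bx4_8) (bt_n (bt_b bx4_9) (bt_b bx4_10)))))
def S4 : StarD := StarD.mk cl7 cl4 cl5 1 3 t4
theorem bx5_0 : BoxOK sI cl7 cl5 cl4 t3 t1 b5_0 :=
  box_mk (TrL.c (I.pos (nat_lit 0) (nat_lit 0)) (xa (xb T3.l15 (xa (xb T3.l0 T3.l0) T3.l0)) (xb T3.l0 (xa T3.l0 T3.l0)))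
  (TrL.c (I.pos (nat_lit 0) (nat_lit 0)) (xa T1.l8 T1.l8)
  (TrL.c (I.pos (nat_lit 0) (nat_lit 111196574)) (xR T3.l9 T3.l9)
  (TrL.c (I.pos (nat_lit 0) (nat_lit 77433728)) (xR T1.l9 T1.l9)
  (TrL.c (I.pos (nat_lit 0) (nat_lit 0)) (xa T1.l10 T1.l10)
  (TrL.c (I.pos (nat_lit 0) (nat_lit 0)) T3.l10
  (TrL.c (I.mix (nat_lit 29511666) (nat_lit 77433728)) (xR T1.l11 T1.l11)
  (TrL.c (I.mix (nat_lit 29511666) (nat_lit 46070178)) T3.l11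
  TrL.n)))))))) (by decide +kernel)
theorem bx5_1 : BoxOK sI cl7 cl5 cl4 t3 t1 b5_1 :=
  box_mk (TrL.c (I.pos (nat_lit 0) (nat_lit 0)) (xa (xb T3.l12 T3.l12) T3.l0)
  (TrL.c (I.pos (nat_lit 0) (nat_lit 0)) T1.l8
  (TrL.c (I.pos (nat_lit 0) (nat_lit 111196574)) T3.l9
  (TrL.c (I.pos (nat_lit 0) (nat_lit 77433728)) T1.l9
  (TrL.c (I.pos (nat_lit 0) (nat_lit 0)) (xb T1.l12 T1.l12)
  (TrL.c (I.pos (nat_lit 0) (nat_lit 0)) T3.l10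
  (TrL.c (I.mix (nat_lit 29511666) (nat_lit 77433728)) (xR T1.l11 T1.l11)
  (TrL.c (I.mix (nat_lit 29511666) (nat_lit 46070178)) T3.l11
  TrL.n)))))))) (by decide +kernel)
theorem bx5_2 : BoxOK sI cl7 cl5 cl4 t3 t1 b5_2 :=
  box_mk (TrL.c (I.pos (nat_lit 0) (nat_lit 0)) T1.l8
  (TrL.c (I.pos (nat_lit 0) (nat_lit 0)) T3.l9
  (TrL.c (I.mix (nat_lit 29511666) (nat_lit 77433728)) (xR T1.l14 T1.l9)
  (TrL.c (I.mix (nat_lit 29511666) (nat_lit 46070178)) T3.l4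
  TrL.n)))) (by decide +kernel)
theorem bx5_3 : BoxOK sI cl7 cl5 cl4 t3 t1 b5_3 :=
  box_mk (TrL.c (I.pos (nat_lit 0) (nat_lit 0)) (xa (xb T3.l15 (xb T3.l15 T3.l15)) (xb T3.l15 T3.l15))
  (TrL.c (I.pos (nat_lit 0) (nat_lit 0)) T1.l8
  (TrL.c (I.pos (nat_lit 0) (nat_lit 111196574)) (xR T3.l9 T3.l9)
  (TrL.c (I.pos (nat_lit 0) (nat_lit 77433728)) (xR T1.l9 T1.l9)
  (TrL.c (I.pos (nat_lit 0) (nat_lit 0)) (xb T1.l15 T1.l15)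
  (TrL.c (I.pos (nat_lit 0) (nat_lit 0)) T3.l10
  (TrL.c (I.mix (nat_lit 29511666) (nat_lit 77433728)) (xR T1.l11 T1.l11)
  (TrL.c (I.mix (nat_lit 29511666) (nat_lit 46070178)) T3.l11
  TrL.n)))))))) (by decide +kernel)
theorem bx5_4 : BoxOK sI cl7 cl5 cl4 t3 t1 b5_4 :=
  box_mk (TrL.c (I.pos (nat_lit 0) (nat_lit 0)) (xb T3.l12 T3.l12)
  (TrL.c (I.pos (nat_lit 0) (nat_lit 0)) T1.l8
  (TrL.c (I.pos (nat_lit 0) (nat_lit 111196574)) T3.l9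
  (TrL.c (I.pos (nat_lit 0) (nat_lit 77433728)) T1.l9
  (TrL.c (I.pos (nat_lit 0) (nat_lit 0)) T1.l12
  (TrL.c (I.pos (nat_lit 0) (nat_lit 0)) T3.l10
  (TrL.c (I.mix (nat_lit 29511666) (nat_lit 77433728)) T1.l11
  (TrL.c (I.mix (nat_lit 29511666) (nat_lit 46070178)) T3.l11
  TrL.n)))))))) (by decide +kernel)
theorem bx5_5 : BoxOK sI cl7 cl5 cl4 t3 t1 b5_5 :=
  box_mk (TrL.c (I.pos (nat_lit 0) (nat_lit 0)) T3.l12
  (TrL.c (I.pos (nat_lit 0) (nat_lit 0)) T1.l8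
  (TrL.c (I.pos (nat_lit 0) (nat_lit 111196574)) T3.l9
  (TrL.c (I.pos (nat_lit 0) (nat_lit 77433728)) T1.l9
  (TrL.c (I.pos (nat_lit 0) (nat_lit 0)) T1.l12
  (TrL.c (I.pos (nat_lit 0) (nat_lit 0)) T3.l10
  (TrL.c (I.mix (nat_lit 29511666) (nat_lit 77433728)) T1.l1
  (TrL.c (I.mix (nat_lit 29511666) (nat_lit 46070178)) T3.l11
  TrL.n)))))))) (by decide +kernel)
theorem bx5_6 : BoxOK sI cl7 cl5 cl4 t3 t1 b5_6 :=
  box_mk (TrL.c (I.pos (nat_lit 0) (nat_lit 0)) T1.l8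
  (TrL.c (I.pos (nat_lit 0) (nat_lit 0)) T3.l13
  (TrL.c (I.mix (nat_lit 29511666) (nat_lit 77433728)) T1.l11
  (TrL.c (I.mix (nat_lit 29511666) (nat_lit 46070178)) T3.l14
  TrL.n)))) (by decide +kernel)
theorem bx5_7 : BoxOK sI cl7 cl5 cl4 t3 t1 b5_7 :=
  box_mk (TrL.c (I.pos (nat_lit 0) (nat_lit 0)) T3.l15
  (TrL.c (I.pos (nat_lit 0) (nat_lit 0)) T1.l8
  (TrL.c (I.pos (nat_lit 0) (nat_lit 111196574)) T3.l9
  (TrL.c (I.pos (nat_lit 0) (nat_lit 77433728)) T1.l9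
  (TrL.c (I.pos (nat_lit 0) (nat_lit 0)) T1.l15
  (TrL.c (I.pos (nat_lit 0) (nat_lit 0)) T3.l10
  (TrL.c (I.mix (nat_lit 29511666) (nat_lit 77433728)) T1.l1
  (TrL.c (I.mix (nat_lit 29511666) (nat_lit 46070178)) T3.l11
  TrL.n)))))))) (by decide +kernel)
theorem bx5_8 : BoxOK sI cl7 cl5 cl4 t3 t1 b5_8 :=
  box_mk (TrL.c (I.pos (nat_lit 0) (nat_lit 0)) (xb (xa T3.l15 T3.l15) (xa T3.l15 T3.l15))
  (TrL.c (I.pos (nat_lit 0) (nat_lit 0)) T1.l8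
  (TrL.c (I.pos (nat_lit 0) (nat_lit 111196574)) (xR T3.l9 T3.l9)
  (TrL.c (I.pos (nat_lit 0) (nat_lit 77433728)) (xR T1.l9 T1.l9)
  (TrL.c (I.pos (nat_lit 0) (nat_lit 0)) (xb (xk T1.l15 T1.l15) T1.l15)
  (TrL.c (I.pos (nat_lit 0) (nat_lit 0)) T3.l10
  (TrL.c (I.mix (nat_lit 29511666) (nat_lit 77433728)) (xR T1.l11 T1.l11)
  (TrL.c (I.mix (nat_lit 29511666) (nat_lit 46070178)) T3.l11
  TrL.n)))))))) (by decide +kernel)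
theorem bx5_9 : BoxOK sI cl7 cl5 cl4 t3 t1 b5_9 :=
  box_mk (TrL.c (I.pos (nat_lit 0) (nat_lit 0)) (xa (xb T3.l12 T3.l12) (xb T3.l12 T3.l12))
  (TrL.c (I.pos (nat_lit 0) (nat_lit 0)) T1.l8
  (TrL.c (I.pos (nat_lit 0) (nat_lit 111196574)) T3.l9
  (TrL.c (I.pos (nat_lit 0) (nat_lit 77433728)) T1.l9
  (TrL.c (I.pos (nat_lit 0) (nat_lit 0)) T1.l12
  (TrL.c (I.pos (nat_lit 0) (nat_lit 0)) T3.l10
  (TrL.c (I.mix (nat_lit 29511666) (nat_lit 77433728)) T1.l11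
  (TrL.c (I.mix (nat_lit 29511666) (nat_lit 46070178)) T3.l11
  TrL.n)))))))) (by decide +kernel)
theorem bx5_10 : BoxOK sI cl7 cl5 cl4 t3 t1 b5_10 :=
  box_mk (TrL.c (I.pos (nat_lit 0) (nat_lit 0)) (xb T3.l12 (xa (xb T3.l12 T3.l12) T3.l12))
  (TrL.c (I.pos (nat_lit 0) (nat_lit 0)) T1.l8
  (TrL.c (I.pos (nat_lit 0) (nat_lit 111196574)) T3.l9
  (TrL.c (I.pos (nat_lit 0) (nat_lit 77433728)) T1.l9
  (TrL.c (I.pos (nat_lit 0) (nat_lit 0)) T1.l12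
  (TrL.c (I.pos (nat_lit 0) (nat_lit 0)) T3.l10
  (TrL.c (I.mix (nat_lit 29511666) (nat_lit 77433728)) T1.l11
  (TrL.c (I.mix (nat_lit 29511666) (nat_lit 46070178)) T3.l4
  TrL.n)))))))) (by decide +kernel)
theorem bx5_11 : BoxOK sI cl7 cl5 cl4 t3 t1 b5_11 :=
  box_mk (TrL.c (I.pos (nat_lit 0) (nat_lit 0)) T1.l8
  (TrL.c (I.pos (nat_lit 0) (nat_lit 0)) T3.l9
  (TrL.c (I.mix (nat_lit 29511666) (nat_lit 77433728)) (xR T1.l14 T1.l9)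
  (TrL.c (I.mix (nat_lit 29511666) (nat_lit 46070178)) T3.l6
  TrL.n)))) (by decide +kernel)
theorem bx5_12 : BoxOK sI cl7 cl5 cl4 t3 t1 b5_12 :=
  box_mk (TrL.c (I.pos (nat_lit 0) (nat_lit 0)) (xa (xb T3.l0 T3.l0) (xb T3.l0 (xa T3.l0 T3.l0)))
  (TrL.c (I.pos (nat_lit 0) (nat_lit 0)) (xa T1.l8 T1.l8)
  (TrL.c (I.pos (nat_lit 0) (nat_lit 111196574)) (xR T3.l9 T3.l4)
  (TrL.c (I.pos (nat_lit 0) (nat_lit 77433728)) (xR T1.l9 T1.l9)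
  (TrL.c (I.pos (nat_lit 0) (nat_lit 0)) (xa (xb (xk T1.l10 T1.l10) T1.l10) (xb (xk (xa T1.l10 T1.l10) (xa T1.l10 T1.l10)) (xk (xa T1.l10 T1.l10) (xa T1.l10 T1.l10))))
  (TrL.c (I.pos (nat_lit 0) (nat_lit 0)) (xa T3.l10 T3.l10)
  (TrL.c (I.mix (nat_lit 29511666) (nat_lit 77433728)) (xR T1.l11 (xR T1.l11 T1.l11))
  (TrL.c (I.mix (nat_lit 29511666) (nat_lit 46070178)) (xR T3.l11 T3.l11)
  TrL.n)))))))) (by decide +kernel)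
theorem bx5_13 : BoxOK sI cl7 cl5 cl4 t3 t1 b5_13 :=
  box_mk (TrL.c (I.pos (nat_lit 0) (nat_lit 0)) (xa (xb T3.l0 (xa T3.l0 T3.l0)) (xb T3.l0 (xa T3.l0 T3.l0)))
  (TrL.c (I.pos (nat_lit 0) (nat_lit 0)) T1.l8
  (TrL.c (I.pos (nat_lit 0) (nat_lit 111196574)) (xR T3.l9 (xR T3.l9 T3.l9))
  (TrL.c (I.pos (nat_lit 0) (nat_lit 77433728)) (xR T1.l9 T1.l9)
  (TrL.c (I.pos (nat_lit 0) (nat_lit 0)) (xa T1.l10 (xk T1.l10 T1.l10))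
  (TrL.c (I.pos (nat_lit 0) (nat_lit 0)) T3.l10
  (TrL.c (I.mix (nat_lit 29511666) (nat_lit 77433728)) (xR T1.l11 T1.l11)
  (TrL.c (I.mix (nat_lit 29511666) (nat_lit 46070178)) (xR T3.l11 T3.l11)
  TrL.n)))))))) (by decide +kernel)
theorem sv5 : StarV sI cl7 cl5 cl4 t3 t1 t5 :=
  (bt_n (bt_n (bt_n (bt_b bx5_0) (bt_n (bt_b bx5_1) (bt_b bx5_2))) (bt_n (bt_n (bt_b bx5_3) (bt_b bx5_4)) (bt_n (bt_b bx5_5) (bt_b bx5_6)))) (bt_n (bt_n (bt_b bx5_7) (bt_n (bt_b bx5_8) (bt_b bx5_9))) (bt_n (bt_n (bt_b bx5_10) (bt_b bx5_11)) (bt_n (bt_b bx5_12) (bt_b bx5_13)))))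
def S5 : StarD := StarD.mk cl7 cl5 cl4 3 1 t5
def G : List StarD := [S0, S1, S2, S3, S4, S5]
theorem so0 : StarOK sI G S0 :=
  star_mk (by decide) (by decide) rfl rfl rfl rfl rfl rfl (rfl : _ = t2) (rfl : _ = t4)
  (st_mk (Pth.l (Pth.l (Pth.l Pth.z))) (nat_lit 249706410) (nat_lit 252286322) (by decide +kernel))
  (st_mk (Pth.l (Pth.l (Pth.l Pth.z))) (nat_lit 288402624) (nat_lit 291907879) (by decide +kernel))
  (st_mk (Pth.l (Pth.l (Pth.l Pth.z))) (nat_lit 333825219) (nat_lit 338628749) (by decide +kernel)) sv0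
theorem so1 : StarOK sI G S1 :=
  star_mk (by decide) (by decide) rfl rfl rfl rfl rfl rfl (rfl : _ = t4) (rfl : _ = t2)
  (st_mk (Pth.l (Pth.l (Pth.l (Pth.l Pth.z)))) (nat_lit 145460596) (nat_lit 169429272) (by decide +kernel))
  (st_mk (Pth.l (Pth.l (Pth.l (Pth.l Pth.z)))) (nat_lit 183527051) (nat_lit 208421426) (by decide +kernel))
  (st_mk (Pth.l (Pth.l (Pth.l (Pth.l Pth.z)))) (nat_lit 228463170) (nat_lit 254653839) (by decide +kernel)) sv1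
theorem so2 : StarOK sI G S2 :=
  star_mk (by decide) (by decide) rfl rfl rfl rfl rfl rfl (rfl : _ = t0) (rfl : _ = t5)
  (st_mk (Pth.l (Pth.l (Pth.l Pth.z))) (nat_lit 378892483) (nat_lit 381952986) (by decide +kernel))
  (st_mk (Pth.l (Pth.l (Pth.l Pth.z))) (nat_lit 416685163) (nat_lit 420419856) (by decide +kernel))
  (st_mk (Pth.l (Pth.l (Pth.l Pth.z))) (nat_lit 460667278) (nat_lit 465281367) (by decide +kernel)) sv2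
theorem so3 : StarOK sI G S3 :=
  star_mk (by decide) (by decide) rfl rfl rfl rfl rfl rfl (rfl : _ = t5) (rfl : _ = t0)
  (st_mk (Pth.l (Pth.l (Pth.l (Pth.l Pth.z)))) (nat_lit 143722885) (nat_lit 166918741) (by decide +kernel))
  (st_mk (Pth.l (Pth.l (Pth.l (Pth.l Pth.z)))) (nat_lit 180743264) (nat_lit 204536548) (by decide +kernel))
  (st_mk (Pth.l (Pth.l (Pth.l (Pth.l Pth.z)))) (nat_lit 224102144) (nat_lit 248711339) (by decide +kernel)) sv3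
theorem so4 : StarOK sI G S4 :=
  star_mk (by decide) (by decide) rfl rfl rfl rfl rfl rfl (rfl : _ = t1) (rfl : _ = t3)
  (st_mk (Pth.l (Pth.l (Pth.l Pth.z))) (nat_lit 370140048) (nat_lit 375041158) (by decide +kernel))
  (st_mk (Pth.l (Pth.l (Pth.l Pth.z))) (nat_lit 406236282) (nat_lit 411827258) (by decide +kernel))
  (st_mk (Pth.l (Pth.l (Pth.l Pth.z))) (nat_lit 448029622) (nat_lit 454506612) (by decide +kernel)) sv4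
theorem so5 : StarOK sI G S5 :=
  star_mk (by decide) (by decide) rfl rfl rfl rfl rfl rfl (rfl : _ = t3) (rfl : _ = t1)
  (st_mk (Pth.l (Pth.l (Pth.l Pth.z))) (nat_lit 241362446) (nat_lit 243752418) (by decide +kernel))
  (st_mk (Pth.l (Pth.l (Pth.l Pth.z))) (nat_lit 277314020) (nat_lit 280310930) (by decide +kernel))
  (st_mk (Pth.l (Pth.l (Pth.l Pth.z))) (nat_lit 318448070) (nat_lit 323336218) (by decide +kernel)) sv5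
theorem ok : GroupOK (nat_lit 91226112) (nat_lit 150339584) G := grp_mk (allS_c so0 (allS_c so1 (allS_c so2 (allS_c so3 (allS_c so4 (allS_c so5 allS_n))))))
theorem cov : GCov G cl4 cl5 cl7 := cov_mk
  ⟨0, by decide, rfl, rfl, rfl⟩ ⟨1, by decide, rfl, rfl, rfl⟩ ⟨2, by decide, rfl, rfl, rfl⟩ ⟨3, by decide, rfl, rfl, rfl⟩ ⟨4, by decide, rfl, rfl, rfl⟩ ⟨5, by decide, rfl, rfl, rfl⟩
end Q124_1


end Pool.Agent.Helper6.MONO
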