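import Pool.Agent.Helper6.MONO.Cert.C18

/-!
Certificate data (generated).
-/

set_option autoImplicit false
set_option linter.all false
noncomputable section
namespace Pool.Agent.Helper6.MONO


namespace Q124_2
def sI : I := I.pos (nat_lit 150274048) (nat_lit 209387520)
def b0_0 : Bx := Bx.mk (St.mk (I.pos (nat_lit 155746304) (nat_lit 224493568)) (I.mix (nat_lit 2310144) (nat_lit 77135872)) (I.mix (nat_lit 6766592) (nat_lit 65208320)) (I.pos (nat_lit 247939072) (nat_lit 359923712)) (I.mix (nat_lit 128761856) (nat_lit 85721088)) (I.mix (nat_lit 75464704) (nat_lit 79216640)) (I.mix (nat_lit 128614400) (nat_lit 122306560)))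
  false (nat_lit 38784020)
def b0_1 : Bx := Bx.mk (St.mk (I.pos (nat_lit 25968640) (nat_lit 65257472)) (I.mix (nat_lit 10010624) (nat_lit 46727168)) (I.neg (nat_lit 12926976) (nat_lit 43057152)) (I.pos (nat_lit 143245312) (nat_lit 163627008)) (I.mix (nat_lit 54951936) (nat_lit 84017152)) (I.mix (nat_lit 68747264) (nat_lit 48726016)) (I.mix (nat_lit 38256640) (nat_lit 24559616)))
  false (nat_lit 0)
def b0_2 : Bx := Bx.mk (St.mk (I.pos (nat_lit 53772288) (nat_lit 91160576)) (I.mix (nat_lit 58982400) (nat_lit 11780096)) (I.neg (nat_lit 29114368) (nat_lit 73662464)) (I.pos (nat_lit 148619264) (nat_lit 177733632)) (I.mix (nat_lit 109248512) (nat_lit 50151424)) (I.mix (nat_lit 53641216) (nat_lit 94699520)) (I.mix (nat_lit 35913728) (nat_lit 60194816)))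
  false (nat_lit 0)
def b0_3 : Bx := Bx.mk (St.mk (I.neg (nat_lit 25968640) (nat_lit 65257472)) (I.mix (nat_lit 46727168) (nat_lit 10010624)) (I.neg (nat_lit 12926976) (nat_lit 43057152)) (I.pos (nat_lit 143228928) (nat_lit 163627008)) (I.mix (nat_lit 84049920) (nat_lit 55492608)) (I.mix (nat_lit 48726016) (nat_lit 68747264)) (I.mix (nat_lit 38256640) (nat_lit 25051136)))
  true (nat_lit 0)
def b0_4 : Bx := Bx.mk (St.mk (I.pos (nat_lit 35209216) (nat_lit 64651264)) (I.mix (nat_lit 12812288) (nat_lit 21774336)) (I.neg (nat_lit 23298048) (nat_lit 43843584)) (I.pos (nat_lit 142999552) (nat_lit 160382976)) (I.mix (nat_lit 56197120) (nat_lit 43417600)) (I.mix (nat_lit 42778624) (nat_lit 40435712)) (I.mix (nat_lit 22216704) (nat_lit 25264128)))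
  false (nat_lit 0)
def b0_5 : Bx := Bx.mk (St.mk (I.pos (nat_lit 201162752) (nat_lit 254984192)) (I.mix (nat_lit 20414464) (nat_lit 19677184)) (I.neg (nat_lit 51412992) (nat_lit 122535936)) (I.pos (nat_lit 315604992) (nat_lit 404193280)) (I.mix (nat_lit 134643712) (nat_lit 52641792)) (I.mix (nat_lit 87408640) (nat_lit 88080384)) (I.mix (nat_lit 124878848) (nat_lit 167559168)))
  false (nat_lit 0)
def b0_6 : Bx := Bx.mk (St.mk (I.pos (nat_lit 178438144) (nat_lit 247234560)) (I.mix (nat_lit 20742144) (nat_lit 72908800)) (I.mix (nat_lit 120979456) (nat_lit 54476800)) (I.pos (nat_lit 296648704) (nat_lit 389070848)) (I.mix (nat_lit 150028288) (nat_lit 120684544)) (I.mix (nat_lit 120766464) (nat_lit 107790336)) (I.mix (nat_lit 217006080) (nat_lit 192266240)))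
  false (nat_lit 49267786)
def b0_7 : Bx := Bx.mk (St.mk (I.pos (nat_lit 57655296) (nat_lit 149159936)) (I.neg (nat_lit 7258112) (nat_lit 61145088)) (I.neg (nat_lit 23789568) (nat_lit 75956224)) (I.pos (nat_lit 155025408) (nat_lit 231555072)) (I.mix (nat_lit 104415232) (nat_lit 58212352)) (I.mix (nat_lit 56852480) (nat_lit 80773120)) (I.mix (nat_lit 50446336) (nat_lit 71860224)))
  false (nat_lit 0)
def b0_8 : Bx := Bx.mk (St.mk (I.mix (nat_lit 44548096) (nat_lit 9519104)) (I.mix (nat_lit 41484288) (nat_lit 11091968)) (I.neg (nat_lit 14008320) (nat_lit 22904832)) (I.pos (nat_lit 141770752) (nat_lit 155680768)) (I.mix (nat_lit 52756480) (nat_lit 55902208)) (I.mix (nat_lit 44056576) (nat_lit 50888704)) (I.mix (nat_lit 12025856) (nat_lit 12894208)))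
  true (nat_lit 0)
def b0_9 : Bx := Bx.mk (St.mk (I.pos (nat_lit 146014208) (nat_lit 201588736)) (I.mix (nat_lit 3014656) (nat_lit 64749568)) (I.mix (nat_lit 18612224) (nat_lit 57819136)) (I.pos (nat_lit 241532928) (nat_lit 315097088)) (I.mix (nat_lit 151437312) (nat_lit 66666496)) (I.mix (nat_lit 145768448) (nat_lit 98484224)) (I.mix (nat_lit 138428416) (nat_lit 106708992)))
  false (nat_lit 32443640)
def b0_10 : Bx := Bx.mk (St.mk (I.mix (nat_lit 9519104) (nat_lit 44548096)) (I.mix (nat_lit 11091968) (nat_lit 41484288)) (I.neg (nat_lit 14008320) (nat_lit 22904832)) (I.pos (nat_lit 141770752) (nat_lit 155680768)) (I.mix (nat_lit 55902208) (nat_lit 52756480)) (I.mix (nat_lit 50888704) (nat_lit 44056576)) (I.mix (nat_lit 12025856) (nat_lit 12894208)))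
  false (nat_lit 0)
def b0_11 : Bx := Bx.mk (St.mk (I.pos (nat_lit 114262016) (nat_lit 189792256)) (I.mix (nat_lit 37011456) (nat_lit 16433152)) (I.neg (nat_lit 1998848) (nat_lit 57131008)) (I.pos (nat_lit 196755456) (nat_lit 283590656)) (I.mix (nat_lit 69402624) (nat_lit 75825152)) (I.mix (nat_lit 71319552) (nat_lit 70336512)) (I.mix (nat_lit 71991296) (nat_lit 61800448)))
  false (nat_lit 0)
def b0_12 : Bx := Bx.mk (St.mk (I.pos (nat_lit 147128320) (nat_lit 193871872)) (I.mix (nat_lit 11239424) (nat_lit 41484288)) (I.mix (nat_lit 33521664) (nat_lit 32063488)) (I.pos (nat_lit 245186560) (nat_lit 290521088)) (I.mix (nat_lit 118079488) (nat_lit 100925440)) (I.mix (nat_lit 137150464) (nat_lit 87457792)) (I.mix (nat_lit 140443648) (nat_lit 76988416)))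
  false (nat_lit 0)
def t0 : BTr := (BTr.n (BTr.n (BTr.n (BTr.b b0_0) (BTr.n (BTr.b b0_1) (BTr.b b0_2))) (BTr.n (BTr.b b0_3) (BTr.n (BTr.b b0_4) (BTr.b b0_5)))) (BTr.n (BTr.n (BTr.b b0_6) (BTr.n (BTr.b b0_7) (BTr.b b0_8))) (BTr.n (BTr.n (BTr.b b0_9) (BTr.b b0_10)) (BTr.n (BTr.b b0_11) (BTr.b b0_12)))))
namespace T0
def l0 : Tr := Tr.L (Pth.l (Pth.l (Pth.l Pth.z)))
def l1 : Tr := Tr.L (Pth.l (Pth.l (Pth.r (Pth.l Pth.z))))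
def l2 : Tr := Tr.L (Pth.l (Pth.l (Pth.r (Pth.r Pth.z))))
def l3 : Tr := Tr.L (Pth.l (Pth.r (Pth.l Pth.z)))
def l4 : Tr := Tr.L (Pth.l (Pth.r (Pth.r (Pth.l Pth.z))))
def l5 : Tr := Tr.L (Pth.l (Pth.r (Pth.r (Pth.r Pth.z))))
def l6 : Tr := Tr.L (Pth.r (Pth.l (Pth.l Pth.z)))
def l7 : Tr := Tr.L (Pth.r (Pth.l (Pth.r (Pth.l Pth.z))))
def l8 : Tr := Tr.L (Pth.r (Pth.l (Pth.r (Pth.r Pth.z))))
def l9 : Tr := Tr.L (Pth.r (Pth.r (Pth.l (Pth.l Pth.z))))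
def l10 : Tr := Tr.L (Pth.r (Pth.r (Pth.l (Pth.r Pth.z))))
def l11 : Tr := Tr.L (Pth.r (Pth.r (Pth.r (Pth.l Pth.z))))
def l12 : Tr := Tr.L (Pth.r (Pth.r (Pth.r (Pth.r Pth.z))))
end T0
def b1_0 : Bx := Bx.mk (St.mk (I.pos (nat_lit 153239552) (nat_lit 230981632)) (I.mix (nat_lit 1785856) (nat_lit 60309504)) (I.mix (nat_lit 2392064) (nat_lit 82804736)) (I.pos (nat_lit 144785408) (nat_lit 276824064)) (I.mix (nat_lit 130695168) (nat_lit 81707008)) (I.mix (nat_lit 85557248) (nat_lit 78741504)) (I.mix (nat_lit 128286720) (nat_lit 117342208)))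
  false (nat_lit 0)
def b1_1 : Bx := Bx.mk (St.mk (I.mix (nat_lit 25100288) (nat_lit 115769344)) (I.mix (nat_lit 7585792) (nat_lit 37634048)) (I.mix (nat_lit 19480576) (nat_lit 16121856)) (I.pos (nat_lit 40828928) (nat_lit 114606080)) (I.mix (nat_lit 54870016) (nat_lit 63406080)) (I.mix (nat_lit 56000512) (nat_lit 41254912)) (I.mix (nat_lit 41943040) (nat_lit 25247744)))
  false (nat_lit 0)
def b1_2 : Bx := Bx.mk (St.mk (I.pos (nat_lit 90570752) (nat_lit 135282688)) (I.mix (nat_lit 51937280) (nat_lit 9322496)) (I.neg (nat_lit 3670016) (nat_lit 56688640)) (I.pos (nat_lit 79659008) (nat_lit 131858432)) (I.mix (nat_lit 106627072) (nat_lit 51609600)) (I.mix (nat_lit 49922048) (nat_lit 103874560)) (I.mix (nat_lit 36274176) (nat_lit 76939264)))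
  false (nat_lit 0)
def b1_3 : Bx := Bx.mk (St.mk (I.mix (nat_lit 32653312) (nat_lit 70123520)) (I.mix (nat_lit 32636928) (nat_lit 5242880)) (I.neg (nat_lit 606208) (nat_lit 21823488)) (I.pos (nat_lit 41697280) (nat_lit 82624512)) (I.mix (nat_lit 52559872) (nat_lit 30310400)) (I.mix (nat_lit 28803072) (nat_lit 46383104)) (I.mix (nat_lit 14270464) (nat_lit 18743296)))
  false (nat_lit 0)
def b1_4 : Bx := Bx.mk (St.mk (I.pos (nat_lit 181223424) (nat_lit 244580352)) (I.mix (nat_lit 15941632) (nat_lit 59441152)) (I.mix (nat_lit 59703296) (nat_lit 79167488)) (I.pos (nat_lit 211206144) (nat_lit 296206336)) (I.mix (nat_lit 131694592) (nat_lit 109576192)) (I.mix (nat_lit 117981184) (nat_lit 96354304)) (I.mix (nat_lit 197623808) (nat_lit 155058176)))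
  false (nat_lit 20394959)
def b1_5 : Bx := Bx.mk (St.mk (I.mix (nat_lit 44072960) (nat_lit 50462720)) (I.mix (nat_lit 7602176) (nat_lit 9240576)) (I.neg (nat_lit 2883584) (nat_lit 11616256)) (I.pos (nat_lit 42827776) (nat_lit 75563008)) (I.mix (nat_lit 28884992) (nat_lit 20103168)) (I.mix (nat_lit 20168704) (nat_lit 19316736)) (I.mix (nat_lit 8454144) (nat_lit 7733248)))
  false (nat_lit 0)
def b1_6 : Bx := Bx.mk (St.mk (I.pos (nat_lit 84393984) (nat_lit 112001024)) (I.mix (nat_lit 11337728) (nat_lit 9650176)) (I.neg (nat_lit 3129344) (nat_lit 22233088)) (I.pos (nat_lit 75120640) (nat_lit 112803840)) (I.mix (nat_lit 45236224) (nat_lit 28934144)) (I.mix (nat_lit 29753344) (nat_lit 29229056)) (I.mix (nat_lit 21889024) (nat_lit 23085056)))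
  false (nat_lit 0)
def b1_7 : Bx := Bx.mk (St.mk (I.pos (nat_lit 201228288) (nat_lit 257048576)) (I.mix (nat_lit 18923520) (nat_lit 21921792)) (I.neg (nat_lit 573440) (nat_lit 70877184)) (I.pos (nat_lit 232407040) (nat_lit 328581120)) (I.mix (nat_lit 130088960) (nat_lit 47988736)) (I.mix (nat_lit 76775424) (nat_lit 78397440)) (I.mix (nat_lit 123863040) (nat_lit 143720448)))
  false (nat_lit 0)
def b1_8 : Bx := Bx.mk (St.mk (I.pos (nat_lit 101367808) (nat_lit 165183488)) (I.neg (nat_lit 3833856) (nat_lit 53198848)) (I.neg (nat_lit 10436608) (nat_lit 58081280)) (I.pos (nat_lit 95780864) (nat_lit 171311104)) (I.mix (nat_lit 86851584) (nat_lit 53264384)) (I.mix (nat_lit 53755904) (nat_lit 64192512)) (I.mix (nat_lit 45252608) (nat_lit 63143936)))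
  false (nat_lit 0)
def b1_9 : Bx := Bx.mk (St.mk (I.mix (nat_lit 29851648) (nat_lit 82706432)) (I.mix (nat_lit 33685504) (nat_lit 4308992)) (I.neg (nat_lit 606208) (nat_lit 24690688)) (I.pos (nat_lit 38780928) (nat_lit 90357760)) (I.mix (nat_lit 50905088) (nat_lit 46514176)) (I.mix (nat_lit 36569088) (nat_lit 43728896)) (I.mix (nat_lit 20987904) (nat_lit 24887296)))
  false (nat_lit 0)
def b1_10 : Bx := Bx.mk (St.mk (I.pos (nat_lit 157450240) (nat_lit 210354176)) (I.mix (nat_lit 13598720) (nat_lit 56885248)) (I.mix (nat_lit 7389184) (nat_lit 77381632)) (I.pos (nat_lit 152469504) (nat_lit 240713728)) (I.mix (nat_lit 143736832) (nat_lit 56131584)) (I.mix (nat_lit 134021120) (nat_lit 85196800)) (I.mix (nat_lit 142360576) (nat_lit 89980928)))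
  false (nat_lit 0)
def b1_11 : Bx := Bx.mk (St.mk (I.mix (nat_lit 36765696) (nat_lit 108363776)) (I.mix (nat_lit 10485760) (nat_lit 36880384)) (I.mix (nat_lit 13615104) (nat_lit 18251776)) (I.pos (nat_lit 41025536) (nat_lit 108855296)) (I.mix (nat_lit 64421888) (nat_lit 35880960)) (I.mix (nat_lit 56082432) (nat_lit 40747008)) (I.mix (nat_lit 29294592) (nat_lit 23592960)))
  false (nat_lit 0)
def b1_12 : Bx := Bx.mk (St.mk (I.pos (nat_lit 142721024) (nat_lit 197083136)) (I.mix (nat_lit 37978112) (nat_lit 7012352)) (I.mix (nat_lit 47104000) (nat_lit 9240576)) (I.pos (nat_lit 130039808) (nat_lit 216006656)) (I.mix (nat_lit 70483968) (nat_lit 68730880)) (I.mix (nat_lit 69943296) (nat_lit 66240512)) (I.mix (nat_lit 74547200) (nat_lit 66469888)))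
  false (nat_lit 10352174)
def b1_13 : Bx := Bx.mk (St.mk (I.pos (nat_lit 139018240) (nat_lit 164773888)) (I.neg (nat_lit 11599872) (nat_lit 37879808)) (I.neg (nat_lit 14204928) (nat_lit 46448640)) (I.pos (nat_lit 127893504) (nat_lit 171278336)) (I.mix (nat_lit 42631168) (nat_lit 22888448)) (I.mix (nat_lit 19070976) (nat_lit 27607040)) (I.mix (nat_lit 20643840) (nat_lit 30621696)))
  false (nat_lit 0)
def b1_14 : Bx := Bx.mk (St.mk (I.mix (nat_lit 41156608) (nat_lit 83542016)) (I.mix (nat_lit 17039360) (nat_lit 4210688)) (I.neg (nat_lit 491520) (nat_lit 15695872)) (I.pos (nat_lit 42631168) (nat_lit 90374144)) (I.mix (nat_lit 21741568) (nat_lit 21348352)) (I.mix (nat_lit 16400384) (nat_lit 15532032)) (I.mix (nat_lit 9748480) (nat_lit 9322496)))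
  false (nat_lit 0)
def b1_15 : Bx := Bx.mk (St.mk (I.pos (nat_lit 159055872) (nat_lit 198279168)) (I.mix (nat_lit 20856832) (nat_lit 23773184)) (I.mix (nat_lit 19185664) (nat_lit 35667968)) (I.pos (nat_lit 154435584) (nat_lit 213958656)) (I.mix (nat_lit 102039552) (nat_lit 77578240)) (I.mix (nat_lit 119898112) (nat_lit 77856768)) (I.mix (nat_lit 127762432) (nat_lit 79790080)))
  false (nat_lit 8086093)
def t1 : BTr := (BTr.n (BTr.n (BTr.n (BTr.n (BTr.b b1_0) (BTr.b b1_1)) (BTr.n (BTr.b b1_2) (BTr.b b1_3))) (BTr.n (BTr.n (BTr.b b1_4) (BTr.b b1_5)) (BTr.n (BTr.b b1_6) (BTr.b b1_7)))) (BTr.n (BTr.n (BTr.n (BTr.b b1_8) (BTr.b b1_9)) (BTr.n (BTr.b b1_10) (BTr.b b1_11))) (BTr.n (BTr.n (BTr.b b1_12) (BTr.b b1_13)) (BTr.n (BTr.b b1_14) (BTr.b b1_15)))))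
namespace T1
def l0 : Tr := Tr.L (Pth.l (Pth.l (Pth.l (Pth.l Pth.z))))
def l1 : Tr := Tr.L (Pth.l (Pth.l (Pth.l (Pth.r Pth.z))))
def l2 : Tr := Tr.L (Pth.l (Pth.l (Pth.r (Pth.l Pth.z))))
def l3 : Tr := Tr.L (Pth.l (Pth.l (Pth.r (Pth.r Pth.z))))
def l4 : Tr := Tr.L (Pth.l (Pth.r (Pth.l (Pth.l Pth.z))))
def l5 : Tr := Tr.L (Pth.l (Pth.r (Pth.l (Pth.r Pth.z))))
def l6 : Tr := Tr.L (Pth.l (Pth.r (Pth.r (Pth.l Pth.z))))
def l7 : Tr := Tr.L (Pth.l (Pth.r (Pth.r (Pth.r Pth.z))))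
def l8 : Tr := Tr.L (Pth.r (Pth.l (Pth.l (Pth.l Pth.z))))
def l9 : Tr := Tr.L (Pth.r (Pth.l (Pth.l (Pth.r Pth.z))))
def l10 : Tr := Tr.L (Pth.r (Pth.l (Pth.r (Pth.l Pth.z))))
def l11 : Tr := Tr.L (Pth.r (Pth.l (Pth.r (Pth.r Pth.z))))
def l12 : Tr := Tr.L (Pth.r (Pth.r (Pth.l (Pth.l Pth.z))))
def l13 : Tr := Tr.L (Pth.r (Pth.r (Pth.l (Pth.r Pth.z))))
def l14 : Tr := Tr.L (Pth.r (Pth.r (Pth.r (Pth.l Pth.z))))
def l15 : Tr := Tr.L (Pth.r (Pth.r (Pth.r (Pth.r Pth.z))))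
end T1
def b2_0 : Bx := Bx.mk (St.mk (I.pos (nat_lit 143933440) (nat_lit 217284608)) (I.mix (nat_lit 2850816) (nat_lit 95715328)) (I.mix (nat_lit 6225920) (nat_lit 80068608)) (I.pos (nat_lit 377880576) (nat_lit 472793088)) (I.mix (nat_lit 165609472) (nat_lit 101842944)) (I.mix (nat_lit 107167744) (nat_lit 99418112)) (I.mix (nat_lit 144031744) (nat_lit 146505728)))
  false (nat_lit 49361787)
def b2_1 : Bx := Bx.mk (St.mk (I.mix (nat_lit 52527104) (nat_lit 11091968)) (I.mix (nat_lit 7438336) (nat_lit 84410368)) (I.neg (nat_lit 55230464) (nat_lit 81412096)) (I.pos (nat_lit 263684096) (nat_lit 293142528)) (I.mix (nat_lit 60227584) (nat_lit 134021120)) (I.mix (nat_lit 100548608) (nat_lit 79822848)) (I.mix (nat_lit 56360960) (nat_lit 43597824)))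
  true (nat_lit 0)
def b2_2 : Bx := Bx.mk (St.mk (I.pos (nat_lit 6668288) (nat_lit 52527104)) (I.neg (nat_lit 31866880) (nat_lit 84410368)) (I.neg (nat_lit 55263232) (nat_lit 81428480)) (I.pos (nat_lit 267927552) (nat_lit 293142528)) (I.mix (nat_lit 134021120) (nat_lit 60227584)) (I.mix (nat_lit 79822848) (nat_lit 99745792)) (I.mix (nat_lit 56360960) (nat_lit 43597824)))
  false (nat_lit 18742412)
def b2_3 : Bx := Bx.mk (St.mk (I.pos (nat_lit 13172736) (nat_lit 121913344)) (I.neg (nat_lit 7946240) (nat_lit 87982080)) (I.neg (nat_lit 15450112) (nat_lit 93487104)) (I.pos (nat_lit 265650176) (nat_lit 335085568)) (I.mix (nat_lit 144818176) (nat_lit 86228992)) (I.mix (nat_lit 87949312) (nat_lit 100515840)) (I.mix (nat_lit 101810176) (nat_lit 86032384)))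
  false (nat_lit 86983051)
def b2_4 : Bx := Bx.mk (St.mk (I.pos (nat_lit 85065728) (nat_lit 191840256)) (I.mix (nat_lit 42876928) (nat_lit 87982080)) (I.mix (nat_lit 52281344) (nat_lit 81264640)) (I.pos (nat_lit 300269568) (nat_lit 441892864)) (I.mix (nat_lit 192118784) (nat_lit 107986944)) (I.mix (nat_lit 167346176) (nat_lit 140296192)) (I.mix (nat_lit 172539904) (nat_lit 167149568)))
  false (nat_lit 74234077)
def b2_5 : Bx := Bx.mk (St.mk (I.neg (nat_lit 13156352) (nat_lit 126287872)) (I.pos (nat_lit 2031616) (nat_lit 87982080)) (I.neg (nat_lit 10862592) (nat_lit 93487104)) (I.pos (nat_lit 265617408) (nat_lit 340099072)) (I.mix (nat_lit 86228992) (nat_lit 144834560)) (I.mix (nat_lit 100532224) (nat_lit 87965696)) (I.mix (nat_lit 101810176) (nat_lit 86048768)))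
  true (nat_lit 0)
def b2_6 : Bx := Bx.mk (St.mk (I.pos (nat_lit 177766400) (nat_lit 272465920)) (I.mix (nat_lit 10862592) (nat_lit 51642368)) (I.neg (nat_lit 5029888) (nat_lit 148996096)) (I.pos (nat_lit 413581312) (nat_lit 565231616)) (I.mix (nat_lit 112328704) (nat_lit 83361792)) (I.mix (nat_lit 84115456) (nat_lit 77201408)) (I.mix (nat_lit 137297920) (nat_lit 136413184)))
  false (nat_lit 0)
def b2_7 : Bx := Bx.mk (St.mk (I.mix (nat_lit 11796480) (nat_lit 38699008)) (I.mix (nat_lit 40058880) (nat_lit 7028736)) (I.neg (nat_lit 55672832) (nat_lit 68534272)) (I.pos (nat_lit 264077312) (nat_lit 279068672)) (I.mix (nat_lit 58408960) (nat_lit 49528832)) (I.mix (nat_lit 41222144) (nat_lit 45285376)) (I.mix (nat_lit 11599872) (nat_lit 17432576)))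
  false (nat_lit 0)
def b2_8 : Bx := Bx.mk (St.mk (I.mix (nat_lit 11255808) (nat_lit 11468800)) (I.mix (nat_lit 7028736) (nat_lit 20414464)) (I.neg (nat_lit 58703872) (nat_lit 66355200)) (I.pos (nat_lit 264093696) (nat_lit 272433152)) (I.mix (nat_lit 27951104) (nat_lit 43892736)) (I.mix (nat_lit 30785536) (nat_lit 25001984)) (I.mix (nat_lit 2555904) (nat_lit 6815744)))
  true (nat_lit 0)
def b2_9 : Bx := Bx.mk (St.mk (I.pos (nat_lit 163332096) (nat_lit 221691904)) (I.pos (nat_lit 23461888) (nat_lit 89718784)) (I.mix (nat_lit 36831232) (nat_lit 60702720)) (I.pos (nat_lit 407404544) (nat_lit 472317952)) (I.mix (nat_lit 127287296) (nat_lit 108593152)) (I.mix (nat_lit 106774528) (nat_lit 86441984)) (I.mix (nat_lit 182943744) (nat_lit 118521856)))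
  false (nat_lit 16855968)
def b2_10 : Bx := Bx.mk (St.mk (I.pos (nat_lit 8077312) (nat_lit 40484864)) (I.neg (nat_lit 17137664) (nat_lit 61898752)) (I.neg (nat_lit 57704448) (nat_lit 76103680)) (I.pos (nat_lit 266534912) (nat_lit 283262976)) (I.mix (nat_lit 111656960) (nat_lit 54738944)) (I.mix (nat_lit 58654720) (nat_lit 95076352)) (I.mix (nat_lit 29704192) (nat_lit 28131328)))
  false (nat_lit 6752586)
def t2 : BTr := (BTr.n (BTr.n (BTr.n (BTr.b b2_0) (BTr.b b2_1)) (BTr.n (BTr.b b2_2) (BTr.n (BTr.b b2_3) (BTr.b b2_4)))) (BTr.n (BTr.n (BTr.b b2_5) (BTr.n (BTr.b b2_6) (BTr.b b2_7))) (BTr.n (BTr.b b2_8) (BTr.n (BTr.b b2_9) (BTr.b b2_10)))))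
namespace T2
def l0 : Tr := Tr.L (Pth.l (Pth.l (Pth.l Pth.z)))
def l1 : Tr := Tr.L (Pth.l (Pth.l (Pth.r Pth.z)))
def l2 : Tr := Tr.L (Pth.l (Pth.r (Pth.l Pth.z)))
def l3 : Tr := Tr.L (Pth.l (Pth.r (Pth.r (Pth.l Pth.z))))
def l4 : Tr := Tr.L (Pth.l (Pth.r (Pth.r (Pth.r Pth.z))))
def l5 : Tr := Tr.L (Pth.r (Pth.l (Pth.l Pth.z)))
def l6 : Tr := Tr.L (Pth.r (Pth.l (Pth.r (Pth.l Pth.z))))
def l7 : Tr := Tr.L (Pth.r (Pth.l (Pth.r (Pth.r Pth.z))))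
def l8 : Tr := Tr.L (Pth.r (Pth.r (Pth.l Pth.z)))
def l9 : Tr := Tr.L (Pth.r (Pth.r (Pth.r (Pth.l Pth.z))))
def l10 : Tr := Tr.L (Pth.r (Pth.r (Pth.r (Pth.r Pth.z))))
end T2
def b3_0 : Bx := Bx.mk (St.mk (I.pos (nat_lit 140099584) (nat_lit 231440384)) (I.mix (nat_lit 1654784) (nat_lit 55181312)) (I.mix (nat_lit 3063808) (nat_lit 108232704)) (I.pos (nat_lit 143097856) (nat_lit 263962624)) (I.mix (nat_lit 148307968) (nat_lit 99647488)) (I.mix (nat_lit 113098752) (nat_lit 104579072)) (I.mix (nat_lit 153894912) (nat_lit 135659520)))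
  false (nat_lit 27227537)
def b3_1 : Bx := Bx.mk (St.mk (I.pos (nat_lit 100892672) (nat_lit 167313408)) (I.neg (nat_lit 3915776) (nat_lit 57196544)) (I.mix (nat_lit 44433408) (nat_lit 12451840)) (I.pos (nat_lit 101515264) (nat_lit 170999808)) (I.mix (nat_lit 80183296) (nat_lit 67731456)) (I.mix (nat_lit 55689216) (nat_lit 71401472)) (I.mix (nat_lit 53395456) (nat_lit 73089024)))
  false (nat_lit 41934593)
def b3_2 : Bx := Bx.mk (St.mk (I.mix (nat_lit 23429120) (nat_lit 82886656)) (I.mix (nat_lit 33865728) (nat_lit 5586944)) (I.mix (nat_lit 13336576) (nat_lit 10469376)) (I.pos (nat_lit 40747008) (nat_lit 90030080)) (I.mix (nat_lit 41304064) (nat_lit 51953664)) (I.mix (nat_lit 33406976) (nat_lit 45629440)) (I.mix (nat_lit 15925248) (nat_lit 25182208)))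
  false (nat_lit 0)
def b3_3 : Bx := Bx.mk (St.mk (I.pos (nat_lit 152502272) (nat_lit 204881920)) (I.mix (nat_lit 15056896) (nat_lit 53231616)) (I.pos (nat_lit 12812288) (nat_lit 97878016)) (I.pos (nat_lit 139132928) (nat_lit 223805440)) (I.mix (nat_lit 153583616) (nat_lit 57606144)) (I.mix (nat_lit 135921664) (nat_lit 86196224)) (I.mix (nat_lit 146669568) (nat_lit 80543744)))
  false (nat_lit 20300297)
def b3_4 : Bx := Bx.mk (St.mk (I.mix (nat_lit 35241984) (nat_lit 104251392)) (I.mix (nat_lit 12697600) (nat_lit 36110336)) (I.mix (nat_lit 2949120) (nat_lit 31703040)) (I.pos (nat_lit 41172992) (nat_lit 105447424)) (I.mix (nat_lit 72040448) (nat_lit 40812544)) (I.mix (nat_lit 68091904) (nat_lit 36519936)) (I.mix (nat_lit 37191680) (nat_lit 22429696)))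
  false (nat_lit 0)
def b3_5 : Bx := Bx.mk (St.mk (I.pos (nat_lit 150011904) (nat_lit 193953792)) (I.mix (nat_lit 42008576) (nat_lit 23920640)) (I.mix (nat_lit 24608768) (nat_lit 60538880)) (I.pos (nat_lit 136609792) (nat_lit 206536704)) (I.mix (nat_lit 143474688) (nat_lit 79872000)) (I.mix (nat_lit 145735680) (nat_lit 80756736)) (I.mix (nat_lit 154730496) (nat_lit 78561280)))
  false (nat_lit 63012751)
def b3_6 : Bx := Bx.mk (St.mk (I.mix (nat_lit 45858816) (nat_lit 83132416)) (I.mix (nat_lit 13516800) (nat_lit 8486912)) (I.mix (nat_lit 1228800) (nat_lit 12140544)) (I.pos (nat_lit 42483712) (nat_lit 89800704)) (I.mix (nat_lit 32980992) (nat_lit 24756224)) (I.mix (nat_lit 21823488) (nat_lit 23937024)) (I.mix (nat_lit 11976704) (nat_lit 12369920)))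
  false (nat_lit 0)
def b3_7 : Bx := Bx.mk (St.mk (I.pos (nat_lit 130285568) (nat_lit 166952960)) (I.neg (nat_lit 311296) (nat_lit 36782080)) (I.mix (nat_lit 20873216) (nat_lit 19087360)) (I.pos (nat_lit 120864768) (nat_lit 170688512)) (I.mix (nat_lit 71647232) (nat_lit 34881536)) (I.mix (nat_lit 38060032) (nat_lit 51494912)) (I.mix (nat_lit 42926080) (nat_lit 48349184)))
  false (nat_lit 0)
def b3_8 : Bx := Bx.mk (St.mk (I.pos (nat_lit 144769024) (nat_lit 182009856)) (I.neg (nat_lit 6553600) (nat_lit 41238528)) (I.mix (nat_lit 25690112) (nat_lit 14385152)) (I.pos (nat_lit 134889472) (nat_lit 191823872)) (I.mix (nat_lit 65060864) (nat_lit 59031552)) (I.mix (nat_lit 62701568) (nat_lit 50151424)) (I.mix (nat_lit 66633728) (nat_lit 52133888)))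
  false (nat_lit 0)
def b3_9 : Bx := Bx.mk (St.mk (I.mix (nat_lit 30752768) (nat_lit 118013952)) (I.mix (nat_lit 3702784) (nat_lit 37011456)) (I.mix (nat_lit 786432) (nat_lit 32489472)) (I.pos (nat_lit 39976960) (nat_lit 115965952)) (I.mix (nat_lit 69435392) (nat_lit 53592064)) (I.mix (nat_lit 51609600) (nat_lit 42696704)) (I.mix (nat_lit 36012032) (nat_lit 30720000)))
  false (nat_lit 0)
def b3_10 : Bx := Bx.mk (St.mk (I.pos (nat_lit 94617600) (nat_lit 142376960)) (I.mix (nat_lit 56623104) (nat_lit 4374528)) (I.mix (nat_lit 43515904) (nat_lit 6766592)) (I.pos (nat_lit 80920576) (nat_lit 139378688)) (I.mix (nat_lit 90931200) (nat_lit 49299456)) (I.mix (nat_lit 45498368) (nat_lit 77840384)) (I.mix (nat_lit 34553856) (nat_lit 54558720)))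
  false (nat_lit 21529938)
def b3_11 : Bx := Bx.mk (St.mk (I.mix (nat_lit 34422784) (nat_lit 75956224)) (I.mix (nat_lit 32833536) (nat_lit 1277952)) (I.mix (nat_lit 10715136) (nat_lit 10436608)) (I.pos (nat_lit 41549824) (nat_lit 83820544)) (I.mix (nat_lit 45694976) (nat_lit 38895616)) (I.mix (nat_lit 28540928) (nat_lit 35602432)) (I.mix (nat_lit 12337152) (nat_lit 13811712)))
  false (nat_lit 0)
def b3_12 : Bx := Bx.mk (St.mk (I.pos (nat_lit 183484416) (nat_lit 264159232)) (I.mix (nat_lit 10928128) (nat_lit 37093376)) (I.mix (nat_lit 5636096) (nat_lit 79495168)) (I.pos (nat_lit 204931072) (nat_lit 342687744)) (I.mix (nat_lit 119996416) (nat_lit 58671104)) (I.mix (nat_lit 75726848) (nat_lit 59998208)) (I.mix (nat_lit 120651776) (nat_lit 106561536)))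
  false (nat_lit 11098257)
def b3_13 : Bx := Bx.mk (St.mk (I.pos (nat_lit 95420416) (nat_lit 112721920)) (I.mix (nat_lit 1212416) (nat_lit 8142848)) (I.pos (nat_lit 262144) (nat_lit 9617408)) (I.pos (nat_lit 81412096) (nat_lit 113442816)) (I.mix (nat_lit 11501568) (nat_lit 12369920)) (I.mix (nat_lit 8388608) (nat_lit 6504448)) (I.mix (nat_lit 6766592) (nat_lit 4849664)))
  false (nat_lit 0)
def b3_14 : Bx := Bx.mk (St.mk (I.mix (nat_lit 36765696) (nat_lit 48611328)) (I.mix (nat_lit 770048) (nat_lit 9011200)) (I.mix (nat_lit 1228800) (nat_lit 5144576)) (I.pos (nat_lit 44400640) (nat_lit 73547776)) (I.mix (nat_lit 12681216) (nat_lit 15548416)) (I.mix (nat_lit 10321920) (nat_lit 10649600)) (I.mix (nat_lit 4030464) (nat_lit 4079616)))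
  false (nat_lit 0)
def b3_15 : Bx := Bx.mk (St.mk (I.pos (nat_lit 173735936) (nat_lit 230047744)) (I.pos (nat_lit 6504448) (nat_lit 53346304)) (I.pos (nat_lit 23969792) (nat_lit 103563264)) (I.pos (nat_lit 195166208) (nat_lit 260374528)) (I.mix (nat_lit 137461760) (nat_lit 97501184)) (I.mix (nat_lit 115359744) (nat_lit 82771968)) (I.mix (nat_lit 182353920) (nat_lit 103317504)))
  false (nat_lit 37120927)
def t3 : BTr := (BTr.n (BTr.n (BTr.n (BTr.n (BTr.b b3_0) (BTr.b b3_1)) (BTr.n (BTr.b b3_2) (BTr.b b3_3))) (BTr.n (BTr.n (BTr.b b3_4) (BTr.b b3_5)) (BTr.n (BTr.b b3_6) (BTr.b b3_7)))) (BTr.n (BTr.n (BTr.n (BTr.b b3_8) (BTr.b b3_9)) (BTr.n (BTr.b b3_10) (BTr.b b3_11))) (BTr.n (BTr.n (BTr.b b3_12) (BTr.b b3_13)) (BTr.n (BTr.b b3_14) (BTr.b b3_15)))))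
namespace T3
def l0 : Tr := Tr.L (Pth.l (Pth.l (Pth.l (Pth.l Pth.z))))
def l1 : Tr := Tr.L (Pth.l (Pth.l (Pth.l (Pth.r Pth.z))))
def l2 : Tr := Tr.L (Pth.l (Pth.l (Pth.r (Pth.l Pth.z))))
def l3 : Tr := Tr.L (Pth.l (Pth.l (Pth.r (Pth.r Pth.z))))
def l4 : Tr := Tr.L (Pth.l (Pth.r (Pth.l (Pth.l Pth.z))))
def l5 : Tr := Tr.L (Pth.l (Pth.r (Pth.l (Pth.r Pth.z))))
def l6 : Tr := Tr.L (Pth.l (Pth.r (Pth.r (Pth.l Pth.z))))
def l7 : Tr := Tr.L (Pth.l (Pth.r (Pth.r (Pth.r Pth.z))))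
def l8 : Tr := Tr.L (Pth.r (Pth.l (Pth.l (Pth.l Pth.z))))
def l9 : Tr := Tr.L (Pth.r (Pth.l (Pth.l (Pth.r Pth.z))))
def l10 : Tr := Tr.L (Pth.r (Pth.l (Pth.r (Pth.l Pth.z))))
def l11 : Tr := Tr.L (Pth.r (Pth.l (Pth.r (Pth.r Pth.z))))
def l12 : Tr := Tr.L (Pth.r (Pth.r (Pth.l (Pth.l Pth.z))))
def l13 : Tr := Tr.L (Pth.r (Pth.r (Pth.l (Pth.r Pth.z))))
def l14 : Tr := Tr.L (Pth.r (Pth.r (Pth.r (Pth.l Pth.z))))
def l15 : Tr := Tr.L (Pth.r (Pth.r (Pth.r (Pth.r Pth.z))))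
end T3
def b4_0 : Bx := Bx.mk (St.mk (I.pos (nat_lit 132530176) (nat_lit 217513984)) (I.mix (nat_lit 2605056) (nat_lit 88326144)) (I.mix (nat_lit 3538944) (nat_lit 118702080)) (I.pos (nat_lit 368590848) (nat_lit 459096064)) (I.mix (nat_lit 165216256) (nat_lit 96010240)) (I.mix (nat_lit 111919104) (nat_lit 92471296)) (I.mix (nat_lit 135249920) (nat_lit 135233536)))
  false (nat_lit 115920501)
def b4_1 : Bx := Bx.mk (St.mk (I.pos (nat_lit 28590080) (nat_lit 120160256)) (I.neg (nat_lit 15302656) (nat_lit 91881472)) (I.mix (nat_lit 59834368) (nat_lit 17989632)) (I.pos (nat_lit 275283968) (nat_lit 332087296)) (I.mix (nat_lit 123174912) (nat_lit 93356032)) (I.mix (nat_lit 94814208) (nat_lit 90816512)) (I.mix (nat_lit 94863360) (nat_lit 75399168)))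
  false (nat_lit 105221413)
def b4_2 : Bx := Bx.mk (St.mk (I.pos (nat_lit 95862784) (nat_lit 180453376)) (I.mix (nat_lit 31178752) (nat_lit 85344256)) (I.mix (nat_lit 917504) (nat_lit 123813888)) (I.pos (nat_lit 307183616) (nat_lit 413696000)) (I.mix (nat_lit 211271680) (nat_lit 97222656)) (I.mix (nat_lit 179847168) (nat_lit 132808704)) (I.mix (nat_lit 187531264) (nat_lit 170115072)))
  false (nat_lit 104465877)
def b4_3 : Bx := Bx.mk (St.mk (I.neg (nat_lit 28590080) (nat_lit 121389056)) (I.pos (nat_lit 15302656) (nat_lit 91881472)) (I.mix (nat_lit 59850752) (nat_lit 17989632)) (I.pos (nat_lit 275283968) (nat_lit 332726272)) (I.mix (nat_lit 93306880) (nat_lit 123174912)) (I.mix (nat_lit 90816512) (nat_lit 94797824)) (I.mix (nat_lit 94879744) (nat_lit 75415552)))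
  true (nat_lit 0)
def b4_4 : Bx := Bx.mk (St.mk (I.mix (nat_lit 61505536) (nat_lit 16613376)) (I.mix (nat_lit 15613952) (nat_lit 89341952)) (I.neg (nat_lit 23920640) (nat_lit 49053696)) (I.pos (nat_lit 267354112) (nat_lit 300236800)) (I.mix (nat_lit 77299712) (nat_lit 121470976)) (I.mix (nat_lit 98140160) (nat_lit 89407488)) (I.mix (nat_lit 53182464) (nat_lit 38469632)))
  true (nat_lit 0)
def b4_5 : Bx := Bx.mk (St.mk (I.pos (nat_lit 16400384) (nat_lit 61505536)) (I.neg (nat_lit 34635776) (nat_lit 89997312)) (I.neg (nat_lit 25165824) (nat_lit 49184768)) (I.pos (nat_lit 274137088) (nat_lit 300318720)) (I.mix (nat_lit 123551744) (nat_lit 77299712)) (I.mix (nat_lit 90898432) (nat_lit 95993856)) (I.mix (nat_lit 53526528) (nat_lit 38469632)))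
  false (nat_lit 76800962)
def b4_6 : Bx := Bx.mk (St.mk (I.pos (nat_lit 92602368) (nat_lit 120537088)) (I.neg (nat_lit 15941632) (nat_lit 45514752)) (I.mix (nat_lit 11927552) (nat_lit 16973824)) (I.pos (nat_lit 307953664) (nat_lit 332431360)) (I.mix (nat_lit 42205184) (nat_lit 45989888)) (I.mix (nat_lit 33341440) (nat_lit 32751616)) (I.mix (nat_lit 27377664) (nat_lit 28065792)))
  false (nat_lit 0)
def b4_7 : Bx := Bx.mk (St.mk (I.pos (nat_lit 179322880) (nat_lit 294584320)) (I.mix (nat_lit 36061184) (nat_lit 62816256)) (I.mix (nat_lit 133496832) (nat_lit 64454656)) (I.pos (nat_lit 413843456) (nat_lit 600358912)) (I.mix (nat_lit 108150784) (nat_lit 91176960)) (I.mix (nat_lit 94781440) (nat_lit 80691200)) (I.mix (nat_lit 173752320) (nat_lit 138280960)))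
  false (nat_lit 100363964)
def b4_8 : Bx := Bx.mk (St.mk (I.mix (nat_lit 16613376) (nat_lit 48021504)) (I.mix (nat_lit 46219264) (nat_lit 16465920)) (I.neg (nat_lit 24231936) (nat_lit 36159488)) (I.pos (nat_lit 267632640) (nat_lit 284704768)) (I.mix (nat_lit 64290816) (nat_lit 52445184)) (I.mix (nat_lit 47923200) (nat_lit 46972928)) (I.mix (nat_lit 13189120) (nat_lit 13500416)))
  false (nat_lit 0)
def b4_9 : Bx := Bx.mk (St.mk (I.pos (nat_lit 145817600) (nat_lit 204406784)) (I.pos (nat_lit 30556160) (nat_lit 85770240)) (I.pos (nat_lit 32391168) (nat_lit 112427008)) (I.pos (nat_lit 382107648) (nat_lit 443138048)) (I.mix (nat_lit 138461184) (nat_lit 104415232)) (I.mix (nat_lit 114917376) (nat_lit 81870848)) (I.mix (nat_lit 169607168) (nat_lit 116228096)))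
  false (nat_lit 83959822)
def b4_10 : Bx := Bx.mk (St.mk (I.pos (nat_lit 18513920) (nat_lit 51314688)) (I.neg (nat_lit 24477696) (nat_lit 76267520)) (I.neg (nat_lit 25772032) (nat_lit 46465024)) (I.pos (nat_lit 274022400) (nat_lit 292700160)) (I.mix (nat_lit 112541696) (nat_lit 61767680)) (I.mix (nat_lit 56246272) (nat_lit 98140160)) (I.mix (nat_lit 34062336) (nat_lit 26181632)))
  false (nat_lit 5221214)
def t4 : BTr := (BTr.n (BTr.n (BTr.n (BTr.b b4_0) (BTr.b b4_1)) (BTr.n (BTr.b b4_2) (BTr.n (BTr.b b4_3) (BTr.b b4_4)))) (BTr.n (BTr.n (BTr.b b4_5) (BTr.n (BTr.b b4_6) (BTr.b b4_7))) (BTr.n (BTr.b b4_8) (BTr.n (BTr.b b4_9) (BTr.b b4_10)))))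
namespace T4
def l0 : Tr := Tr.L (Pth.l (Pth.l (Pth.l Pth.z)))
def l1 : Tr := Tr.L (Pth.l (Pth.l (Pth.r Pth.z)))
def l2 : Tr := Tr.L (Pth.l (Pth.r (Pth.l Pth.z)))
def l3 : Tr := Tr.L (Pth.l (Pth.r (Pth.r (Pth.l Pth.z))))
def l4 : Tr := Tr.L (Pth.l (Pth.r (Pth.r (Pth.r Pth.z))))
def l5 : Tr := Tr.L (Pth.r (Pth.l (Pth.l Pth.z)))
def l6 : Tr := Tr.L (Pth.r (Pth.l (Pth.r (Pth.l Pth.z))))
def l7 : Tr := Tr.L (Pth.r (Pth.l (Pth.r (Pth.r Pth.z))))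
def l8 : Tr := Tr.L (Pth.r (Pth.r (Pth.l Pth.z)))
def l9 : Tr := Tr.L (Pth.r (Pth.r (Pth.r (Pth.l Pth.z))))
def l10 : Tr := Tr.L (Pth.r (Pth.r (Pth.r (Pth.r Pth.z))))
end T4
def b5_0 : Bx := Bx.mk (St.mk (I.pos (nat_lit 127631360) (nat_lit 220676096)) (I.mix (nat_lit 1982464) (nat_lit 64733184)) (I.mix (nat_lit 3637248) (nat_lit 125075456)) (I.pos (nat_lit 227524608) (nat_lit 327319552)) (I.mix (nat_lit 167034880) (nat_lit 104022016)) (I.mix (nat_lit 116604928) (nat_lit 107773952)) (I.mix (nat_lit 149585920) (nat_lit 136970240)))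
  false (nat_lit 50349067)
def b5_1 : Bx := Bx.mk (St.mk (I.pos (nat_lit 78233600) (nat_lit 145145856)) (I.neg (nat_lit 6995968) (nat_lit 73023488)) (I.mix (nat_lit 37142528) (nat_lit 29868032)) (I.pos (nat_lit 175587328) (nat_lit 223510528)) (I.mix (nat_lit 83591168) (nat_lit 85917696)) (I.mix (nat_lit 70369280) (nat_lit 76595200)) (I.mix (nat_lit 59047936) (nat_lit 72302592)))
  false (nat_lit 66305602)
def b5_2 : Bx := Bx.mk (St.mk (I.mix (nat_lit 30556160) (nat_lit 3178496)) (I.mix (nat_lit 41435136) (nat_lit 8028160)) (I.pos (nat_lit 14680064) (nat_lit 23461888)) (I.pos (nat_lit 141131776) (nat_lit 151699456)) (I.mix (nat_lit 42237952) (nat_lit 67387392)) (I.mix (nat_lit 38354944) (nat_lit 53870592)) (I.mix (nat_lit 7995392) (nat_lit 10797056)))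
  true (nat_lit 0)
def b5_3 : Bx := Bx.mk (St.mk (I.pos (nat_lit 133955584) (nat_lit 184336384)) (I.mix (nat_lit 344064) (nat_lit 58916864)) (I.pos (nat_lit 45662208) (nat_lit 117080064)) (I.pos (nat_lit 212762624) (nat_lit 275496960)) (I.mix (nat_lit 163348480) (nat_lit 48742400)) (I.mix (nat_lit 148013056) (nat_lit 74022912)) (I.mix (nat_lit 149798912) (nat_lit 75595776)))
  false (nat_lit 33290436)
def b5_4 : Bx := Bx.mk (St.mk (I.mix (nat_lit 3178496) (nat_lit 30556160)) (I.mix (nat_lit 8863744) (nat_lit 41467904)) (I.pos (nat_lit 14680064) (nat_lit 23461888)) (I.pos (nat_lit 141131776) (nat_lit 151699456)) (I.mix (nat_lit 67387392) (nat_lit 42237952)) (I.mix (nat_lit 53870592) (nat_lit 38354944)) (I.mix (nat_lit 7995392) (nat_lit 10797056)))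
  false (nat_lit 0)
def b5_5 : Bx := Bx.mk (St.mk (I.pos (nat_lit 112623616) (nat_lit 144982016)) (I.neg (nat_lit 4767744) (nat_lit 38125568)) (I.pos (nat_lit 950272) (nat_lit 34603008)) (I.pos (nat_lit 193593344) (nat_lit 222920704)) (I.mix (nat_lit 73777152) (nat_lit 54951936)) (I.mix (nat_lit 47153152) (nat_lit 59326464)) (I.mix (nat_lit 47005696) (nat_lit 49430528)))
  false (nat_lit 0)
def b5_6 : Bx := Bx.mk (St.mk (I.mix (nat_lit 22052864) (nat_lit 2539520)) (I.mix (nat_lit 16465920) (nat_lit 10551296)) (I.pos (nat_lit 15384576) (nat_lit 20463616)) (I.pos (nat_lit 141279232) (nat_lit 146309120)) (I.mix (nat_lit 36913152) (nat_lit 28147712)) (I.mix (nat_lit 23822336) (nat_lit 27033600)) (I.mix (nat_lit 4685824) (nat_lit 4341760)))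
  true (nat_lit 0)
def b5_7 : Bx := Bx.mk (St.mk (I.pos (nat_lit 132612096) (nat_lit 162152448)) (I.neg (nat_lit 12550144) (nat_lit 38797312)) (I.mix (nat_lit 425984) (nat_lit 27607040)) (I.pos (nat_lit 212172800) (nat_lit 242810880)) (I.mix (nat_lit 53575680) (nat_lit 60096512)) (I.mix (nat_lit 57901056) (nat_lit 45662208)) (I.mix (nat_lit 54853632) (nat_lit 44908544)))
  false (nat_lit 0)
def b5_8 : Bx := Bx.mk (St.mk (I.pos (nat_lit 130760704) (nat_lit 182321152)) (I.mix (nat_lit 40435712) (nat_lit 35143680)) (I.mix (nat_lit 16384) (nat_lit 88621056)) (I.pos (nat_lit 207994880) (nat_lit 267190272)) (I.mix (nat_lit 162512896) (nat_lit 93011968)) (I.mix (nat_lit 152748032) (nat_lit 97107968)) (I.mix (nat_lit 151797760) (nat_lit 98156544)))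
  false (nat_lit 58376865)
def b5_9 : Bx := Bx.mk (St.mk (I.pos (nat_lit 10518528) (nat_lit 73367552)) (I.mix (nat_lit 11878400) (nat_lit 46448640)) (I.mix (nat_lit 2981888) (nat_lit 26083328)) (I.pos (nat_lit 140640256) (nat_lit 165347328)) (I.mix (nat_lit 63176704) (nat_lit 63209472)) (I.mix (nat_lit 55328768) (nat_lit 52346880)) (I.mix (nat_lit 31834112) (nat_lit 29343744)))
  false (nat_lit 0)
def b5_10 : Bx := Bx.mk (St.mk (I.pos (nat_lit 51052544) (nat_lit 105742336)) (I.mix (nat_lit 64847872) (nat_lit 12582912)) (I.mix (nat_lit 32325632) (nat_lit 10862592)) (I.pos (nat_lit 152535040) (nat_lit 193282048)) (I.mix (nat_lit 95813632) (nat_lit 59408384)) (I.mix (nat_lit 57327616) (nat_lit 80707584)) (I.mix (nat_lit 41549824) (nat_lit 44974080)))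
  false (nat_lit 7289293)
def b5_11 : Bx := Bx.mk (St.mk (I.neg (nat_lit 10518528) (nat_lit 73351168)) (I.mix (nat_lit 46448640) (nat_lit 11911168)) (I.mix (nat_lit 3391488) (nat_lit 26083328)) (I.pos (nat_lit 140623872) (nat_lit 165347328)) (I.mix (nat_lit 63176704) (nat_lit 63176704)) (I.mix (nat_lit 52363264) (nat_lit 55328768)) (I.mix (nat_lit 31834112) (nat_lit 29343744)))
  true (nat_lit 0)
def b5_12 : Bx := Bx.mk (St.mk (I.pos (nat_lit 167165952) (nat_lit 289013760)) (I.mix (nat_lit 32735232) (nat_lit 52363264)) (I.mix (nat_lit 53772288) (nat_lit 108412928)) (I.pos (nat_lit 270647296) (nat_lit 462520320)) (I.mix (nat_lit 116064256) (nat_lit 81821696)) (I.mix (nat_lit 92880896) (nat_lit 73220096)) (I.mix (nat_lit 163381248) (nat_lit 120700928)))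
  false (nat_lit 83760450)
def b5_13 : Bx := Bx.mk (St.mk (I.pos (nat_lit 154370048) (nat_lit 216875008)) (I.pos (nat_lit 11665408) (nat_lit 62947328)) (I.pos (nat_lit 40812544) (nat_lit 121831424)) (I.pos (nat_lit 256933888) (nat_lit 317128704)) (I.mix (nat_lit 138641408) (nat_lit 105365504)) (I.mix (nat_lit 124567552) (nat_lit 93192192)) (I.mix (nat_lit 180944896) (nat_lit 103858176)))
  false (nat_lit 53237636)
def t5 : BTr := (BTr.n (BTr.n (BTr.n (BTr.b b5_0) (BTr.n (BTr.b b5_1) (BTr.b b5_2))) (BTr.n (BTr.n (BTr.b b5_3) (BTr.b b5_4)) (BTr.n (BTr.b b5_5) (BTr.b b5_6)))) (BTr.n (BTr.n (BTr.b b5_7) (BTr.n (BTr.b b5_8) (BTr.b b5_9))) (BTr.n (BTr.n (BTr.b b5_10) (BTr.b b5_11)) (BTr.n (BTr.b b5_12) (BTr.b b5_13)))))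
namespace T5
def l0 : Tr := Tr.L (Pth.l (Pth.l (Pth.l Pth.z)))
def l1 : Tr := Tr.L (Pth.l (Pth.l (Pth.r (Pth.l Pth.z))))
def l2 : Tr := Tr.L (Pth.l (Pth.l (Pth.r (Pth.r Pth.z))))
def l3 : Tr := Tr.L (Pth.l (Pth.r (Pth.l (Pth.l Pth.z))))
def l4 : Tr := Tr.L (Pth.l (Pth.r (Pth.l (Pth.r Pth.z))))
def l5 : Tr := Tr.L (Pth.l (Pth.r (Pth.r (Pth.l Pth.z))))
def l6 : Tr := Tr.L (Pth.l (Pth.r (Pth.r (Pth.r Pth.z))))
def l7 : Tr := Tr.L (Pth.r (Pth.l (Pth.l Pth.z)))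
def l8 : Tr := Tr.L (Pth.r (Pth.l (Pth.r (Pth.l Pth.z))))
def l9 : Tr := Tr.L (Pth.r (Pth.l (Pth.r (Pth.r Pth.z))))
def l10 : Tr := Tr.L (Pth.r (Pth.r (Pth.l (Pth.l Pth.z))))
def l11 : Tr := Tr.L (Pth.r (Pth.r (Pth.l (Pth.r Pth.z))))
def l12 : Tr := Tr.L (Pth.r (Pth.r (Pth.r (Pth.l Pth.z))))
def l13 : Tr := Tr.L (Pth.r (Pth.r (Pth.r (Pth.r Pth.z))))
end T5
theorem bx0_0 : BoxOK sI cl4 cl5 cl7 t2 t4 b0_0 :=
  box_mk (TrL.c (I.pos (nat_lit 0) (nat_lit 0)) (xa (xb (xb T2.l0 T2.l0) (xb T2.l0 (xa T2.l0 T2.l0))) (xb T2.l0 (xb (xa T2.l0 T2.l0) (xa (xs T2.l0 T2.l0) (xs T2.l0 (xb T2.l0 T2.l0))))))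
  (TrL.c (I.pos (nat_lit 0) (nat_lit 0)) (xb T4.l1 (xa T4.l1 T4.l1))
  (TrL.c (I.pos (nat_lit 0) (nat_lit 0)) T2.l1
  (TrL.c (I.pos (nat_lit 0) (nat_lit 0)) T4.l2
  (TrL.c (I.pos (nat_lit 0) (nat_lit 0)) (xa (xb T2.l3 T2.l2) T2.l2)
  (TrL.c (I.pos (nat_lit 0) (nat_lit 0)) (xb T4.l3 (xa T4.l3 T4.l3))
  TrL.n)))))) (by decide +kernel)
theorem bx0_1 : BoxOK sI cl4 cl5 cl7 t2 t4 b0_1 :=
  box_mk (TrL.c (I.pos (nat_lit 0) (nat_lit 0)) (xb T2.l6 (xa T2.l6 T2.l6))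
  (TrL.c (I.pos (nat_lit 0) (nat_lit 0)) T4.l1
  (TrL.c (I.pos (nat_lit 0) (nat_lit 0)) T2.l1
  (TrL.c (I.pos (nat_lit 0) (nat_lit 0)) T4.l2
  (TrL.c (I.pos (nat_lit 0) (nat_lit 0)) T2.l7
  (TrL.c (I.pos (nat_lit 0) (nat_lit 0)) T4.l3
  TrL.n)))))) (by decide +kernel)
theorem bx0_2 : BoxOK sI cl4 cl5 cl7 t2 t4 b0_2 :=
  box_mk (TrL.c (I.pos (nat_lit 0) (nat_lit 0)) (xb (xa T2.l6 T2.l6) (xb T2.l6 (xa T2.l6 T2.l6)))
  (TrL.c (I.pos (nat_lit 0) (nat_lit 0)) T4.l1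
  (TrL.c (I.pos (nat_lit 0) (nat_lit 0)) T2.l1
  (TrL.c (I.pos (nat_lit 0) (nat_lit 0)) T4.l2
  (TrL.c (I.pos (nat_lit 0) (nat_lit 0)) T2.l7
  (TrL.c (I.pos (nat_lit 0) (nat_lit 0)) T4.l3
  TrL.n)))))) (by decide +kernel)
theorem bx0_3 : BoxOK sI cl4 cl5 cl7 t2 t4 b0_3 :=
  box_mk (TrL.c (I.pos (nat_lit 0) (nat_lit 0)) T4.l1
  (TrL.c (I.pos (nat_lit 0) (nat_lit 0)) T2.l1
  TrL.n)) (by decide +kernel)
theorem bx0_4 : BoxOK sI cl4 cl5 cl7 t2 t4 b0_4 :=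
  box_mk (TrL.c (I.pos (nat_lit 0) (nat_lit 0)) T2.l6
  (TrL.c (I.pos (nat_lit 0) (nat_lit 0)) T4.l1
  (TrL.c (I.pos (nat_lit 0) (nat_lit 0)) T2.l1
  (TrL.c (I.pos (nat_lit 0) (nat_lit 0)) T4.l2
  (TrL.c (I.pos (nat_lit 0) (nat_lit 0)) T2.l7
  (TrL.c (I.pos (nat_lit 0) (nat_lit 0)) T4.l3
  TrL.n)))))) (by decide +kernel)
theorem bx0_5 : BoxOK sI cl4 cl5 cl7 t2 t4 b0_5 :=
  box_mk (TrL.c (I.pos (nat_lit 0) (nat_lit 0)) (xa T2.l0 T2.l4)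
  (TrL.c (I.pos (nat_lit 0) (nat_lit 0)) (xa T4.l1 T4.l1)
  (TrL.c (I.pos (nat_lit 0) (nat_lit 0)) T2.l5
  (TrL.c (I.pos (nat_lit 0) (nat_lit 0)) (xa T4.l2 (xb T4.l2 T4.l2))
  (TrL.c (I.pos (nat_lit 0) (nat_lit 0)) T2.l3
  (TrL.c (I.pos (nat_lit 0) (nat_lit 0)) (xa T4.l3 T4.l3)
  TrL.n)))))) (by decide +kernel)
theorem c0_6_0 : chkTag sI cl4 cl5 cl7 t2 b0_6 (tg true true false RT.r2) (I.pos (nat_lit 0) (nat_lit 0))
  (xb (xa (xb (xa (xb (xc T2.l0 T2.l0) (xc T2.l0 T2.l0)) T2.l4) (xa (xb (xc T2.l0 T2.l0) (xa T2.l0 T2.l0)) (xb T2.l0 T2.l0))) (xb T2.l4 T2.l4)) (xa (xb (xa (xb (xa (xc T2.l0 T2.l0) T2.l0) (xa (xc T2.l0 T2.l0) (xs T2.l0 T2.l0))) (xb (xa T2.l0 T2.l0) (xa T2.l0 T2.l0))) (xa (xb (xs T2.l0 (xa (xc T2.l0 T2.l0) T2.l0)) (xs (xa T2.l0 T2.l0) (xa (xc T2.l0 T2.l0) (xc T2.l0 T2.l0)))) (xb (xs T2.l0 (xa T2.l0 T2.l0)) (xs T2.l0 (xa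 T2.l0 T2.l0))))) (xb (xa (xb T2.l0 T2.l4) (xb T2.l4 (xs T2.l0 T2.l4))) (xa (xb (xs T2.l0 T2.l0) (xs T2.l0 (xa T2.l0 T2.l0))) (xs (xb T2.l0 (xa T2.l0 T2.l0)) (xb (xa T2.l0 T2.l0) (xa T2.l0 (xc T2.l0 T2.l0)))))))) = true := by decide +kernel
theorem c0_6_1 : chkTag sI cl4 cl5 cl7 t4 b0_6 (tg true false false RT.r3) (I.pos (nat_lit 0) (nat_lit 0))
  (xb (xa (xb T4.l1 T4.l1) (xb T4.l1 T4.l1)) (xa (xb T4.l1 T4.l1) (xb T4.l1 (xa T4.l1 T4.l1)))) = true := by decide +kernel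
theorem c0_6_2 : chkTag sI cl4 cl5 cl7 t2 b0_6 (tg true true true RT.r4) (I.pos (nat_lit 0) (nat_lit 0))
  (xc (xb T2.l5 (xa T2.l1 (xs T2.l1 T2.l5))) (xb T2.l5 (xa T2.l1 (xs T2.l1 (xa T2.l1 T2.l5))))) = true := by decide +kernel
theorem c0_6_3 : chkTag sI cl4 cl5 cl7 t4 b0_6 (tg false false false RT.r3) (I.pos (nat_lit 0) (nat_lit 0))
  (xb (xa (xb (xa T4.l2 T4.l2) T4.l2) (xb (xa T4.l2 (xc T4.l2 T4.l2)) (xa T4.l2 (xc T4.l2 T4.l2)))) (xa T4.l2 (xb (xa T4.l2 (xc T4.l2 T4.l2)) (xa T4.l2 (xc T4.l2 T4.l2))))) = true := by decide +kernel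
theorem c0_6_4 : chkTag sI cl4 cl5 cl7 t2 b0_6 (tg false true false RT.r4) (I.pos (nat_lit 0) (nat_lit 0))
  (xb (xc T2.l3 T2.l3) (xc (xa T2.l2 (xs T2.l2 T2.l3)) (xa T2.l2 (xs T2.l2 (xa T2.l2 T2.l3))))) = true := by decide +kernel
theorem c0_6_5 : chkTag sI cl4 cl5 cl7 t4 b0_6 (tg false false true RT.r5) (I.pos (nat_lit 0) (nat_lit 0))
  (xb (xa (xb T4.l3 T4.l3) (xb T4.l3 T4.l3)) (xa (xb T4.l3 T4.l3) (xb T4.l3 (xa T4.l3 T4.l3)))) = true := by decide +kernel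
theorem bx0_6 : BoxOK sI cl4 cl5 cl7 t2 t4 b0_6 :=
  box_mk' [(tg true true false RT.r2), (tg true false false RT.r3), (tg true true true RT.r4), (tg false false false RT.r3), (tg false true false RT.r4), (tg false false true RT.r5)] rfl (allL_c (ex_mk c0_6_0) (allL_c (ex_mk c0_6_1) (allL_c (ex_mk c0_6_2) (allL_c (ex_mk c0_6_3) (allL_c (ex_mk c0_6_4) (allL_c (ex_mk c0_6_5) allL_n))))))
theorem bx0_7 : BoxOK sI cl4 cl5 cl7 t2 t4 b0_7 :=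
  box_mk (TrL.c (I.pos (nat_lit 0) (nat_lit 0)) (xa (xb (xa T2.l6 T2.l6) (xa T2.l6 T2.l6)) (xb (xa T2.l6 T2.l6) (xa T2.l6 T2.l6)))
  (TrL.c (I.pos (nat_lit 0) (nat_lit 0)) (xa T4.l1 T4.l1)
  (TrL.c (I.pos (nat_lit 0) (nat_lit 0)) T2.l1
  (TrL.c (I.pos (nat_lit 0) (nat_lit 0)) T4.l2
  (TrL.c (I.pos (nat_lit 0) (nat_lit 0)) (xa T2.l7 T2.l3)
  (TrL.c (I.pos (nat_lit 0) (nat_lit 0)) (xa T4.l3 T4.l3)
  TrL.n)))))) (by decide +kernel)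
theorem bx0_8 : BoxOK sI cl4 cl5 cl7 t2 t4 b0_8 :=
  box_mk (TrL.c (I.pos (nat_lit 0) (nat_lit 0)) T4.l6
  (TrL.c (I.pos (nat_lit 0) (nat_lit 0)) T2.l8
  TrL.n)) (by decide +kernel)
theorem bx0_9 : BoxOK sI cl4 cl5 cl7 t2 t4 b0_9 :=
  box_mk (TrL.c (I.pos (nat_lit 0) (nat_lit 0)) (xb (xa (xb T2.l9 (xa T2.l9 T2.l9)) (xb T2.l9 T2.l9)) (xa (xb (xa T2.l9 T2.l9) (xa T2.l9 T2.l9)) (xb (xa T2.l9 T2.l9) (xa T2.l9 T2.l9))))
  (TrL.c (I.pos (nat_lit 0) (nat_lit 0)) (xb T4.l1 (xa T4.l1 T4.l1))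
  (TrL.c (I.pos (nat_lit 0) (nat_lit 0)) (xb T2.l1 T2.l1)
  (TrL.c (I.pos (nat_lit 0) (nat_lit 0)) T4.l2
  (TrL.c (I.pos (nat_lit 0) (nat_lit 0)) (xa T2.l10 T2.l2)
  (TrL.c (I.pos (nat_lit 0) (nat_lit 0)) (xb T4.l3 (xa T4.l3 T4.l3))
  TrL.n)))))) (by decide +kernel)
theorem bx0_10 : BoxOK sI cl4 cl5 cl7 t2 t4 b0_10 :=
  box_mk (TrL.c (I.pos (nat_lit 0) (nat_lit 0)) (xb (xa T2.l6 T2.l6) (xa T2.l6 T2.l6))
  (TrL.c (I.pos (nat_lit 0) (nat_lit 0)) T4.l6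
  (TrL.c (I.pos (nat_lit 0) (nat_lit 0)) T2.l8
  (TrL.c (I.pos (nat_lit 0) (nat_lit 0)) T4.l2
  (TrL.c (I.pos (nat_lit 0) (nat_lit 0)) T2.l7
  (TrL.c (I.pos (nat_lit 0) (nat_lit 0)) T4.l3
  TrL.n)))))) (by decide +kernel)
theorem bx0_11 : BoxOK sI cl4 cl5 cl7 t2 t4 b0_11 :=
  box_mk (TrL.c (I.pos (nat_lit 0) (nat_lit 0)) (xa (xb (xa T2.l6 T2.l9) (xa T2.l9 T2.l9)) (xb (xa T2.l9 T2.l9) T2.l9))
  (TrL.c (I.pos (nat_lit 0) (nat_lit 0)) T4.l1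
  (TrL.c (I.pos (nat_lit 0) (nat_lit 0)) T2.l1
  (TrL.c (I.pos (nat_lit 0) (nat_lit 0)) T4.l2
  (TrL.c (I.pos (nat_lit 0) (nat_lit 0)) (xa T2.l10 T2.l3)
  (TrL.c (I.pos (nat_lit 0) (nat_lit 0)) T4.l3
  TrL.n)))))) (by decide +kernel)
theorem bx0_12 : BoxOK sI cl4 cl5 cl7 t2 t4 b0_12 :=
  box_mk (TrL.c (I.pos (nat_lit 0) (nat_lit 0)) (xb (xa T2.l9 T2.l0) (xa (xb T2.l9 T2.l9) (xb T2.l9 T2.l9)))
  (TrL.c (I.pos (nat_lit 0) (nat_lit 0)) T4.l1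
  (TrL.c (I.pos (nat_lit 0) (nat_lit 0)) T2.l1
  (TrL.c (I.pos (nat_lit 0) (nat_lit 0)) T4.l2
  (TrL.c (I.pos (nat_lit 0) (nat_lit 0)) T2.l10
  (TrL.c (I.pos (nat_lit 0) (nat_lit 0)) T4.l3
  TrL.n)))))) (by decide +kernel)
theorem sv0 : StarV sI cl4 cl5 cl7 t2 t4 t0 :=
  (bt_n (bt_n (bt_n (bt_b bx0_0) (bt_n (bt_b bx0_1) (bt_b bx0_2))) (bt_n (bt_b bx0_3) (bt_n (bt_b bx0_4) (bt_b bx0_5)))) (bt_n (bt_n (bt_b bx0_6) (bt_n (bt_b bx0_7) (bt_b bx0_8))) (bt_n (bt_n (bt_b bx0_9) (bt_b bx0_10)) (bt_n (bt_b bx0_11) (bt_b bx0_12)))))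
def S0 : StarD := StarD.mk cl4 cl5 cl7 2 4 t0
theorem bx1_0 : BoxOK sI cl4 cl7 cl5 t4 t2 b1_0 :=
  box_mk (TrL.c (I.pos (nat_lit 0) (nat_lit 0)) (xa (xb (xa (xb T4.l0 T4.l0) T4.l0) (xa (xb (xa T4.l0 T4.l0) (xa (xs T4.l0 T4.l0) (xs T4.l0 T4.l0))) (xb T4.l0 (xa T4.l0 T4.l0)))) (xb (xa T4.l0 (xb T4.l0 T4.l0)) (xa (xb T4.l0 (xa (xs T4.l0 T4.l0) (xs T4.l0 T4.l0))) (xb (xa T4.l0 T4.l0) (xa (xs T4.l0 T4.l0) (xs T4.l0 T4.l0))))))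
  (TrL.c (I.pos (nat_lit 0) (nat_lit 0)) (xa (xb T2.l3 T2.l3) (xb T2.l3 (xa T2.l3 T2.l3)))
  (TrL.c (I.pos (nat_lit 0) (nat_lit 0)) T4.l4
  (TrL.c (I.pos (nat_lit 0) (nat_lit 0)) (xa T2.l4 (xb T2.l4 T2.l4))
  (TrL.c (I.pos (nat_lit 0) (nat_lit 0)) (xa (xb T4.l5 T4.l5) T4.l5)
  (TrL.c (I.pos (nat_lit 0) (nat_lit 0)) (xa (xb T2.l5 T2.l5) (xb T2.l5 (xa T2.l5 T2.l5)))
  TrL.n)))))) (by decide +kernel)
theorem bx1_1 : BoxOK sI cl4 cl7 cl5 t4 t2 b1_1 :=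
  box_mk (TrL.c (I.pos (nat_lit 0) (nat_lit 0)) (xa (xa (xb (xa T4.l7 T4.l7) (xa T4.l7 T4.l7)) (xb T4.l7 T4.l7)) (xa T4.l7 (xb T4.l7 (xa T4.l7 T4.l7))))
  (TrL.c (I.pos (nat_lit 0) (nat_lit 0)) (xa (xa T2.l4 T2.l3) T2.l3)
  (TrL.c (I.pos (nat_lit 0) (nat_lit 0)) T4.l4
  (TrL.c (I.pos (nat_lit 0) (nat_lit 0)) (xa T2.l4 T2.l4)
  (TrL.c (I.pos (nat_lit 0) (nat_lit 0)) T4.l8
  (TrL.c (I.pos (nat_lit 0) (nat_lit 0)) (xa T2.l5 T2.l5)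
  TrL.n)))))) (by decide +kernel)
theorem bx1_2 : BoxOK sI cl4 cl7 cl5 t4 t2 b1_2 :=
  box_mk (TrL.c (I.pos (nat_lit 0) (nat_lit 0)) (xb (xa T4.l7 T4.l7) (xa T4.l7 T4.l7))
  (TrL.c (I.pos (nat_lit 0) (nat_lit 0)) T2.l3
  (TrL.c (I.pos (nat_lit 0) (nat_lit 0)) T4.l4
  (TrL.c (I.pos (nat_lit 0) (nat_lit 0)) T2.l4
  (TrL.c (I.pos (nat_lit 0) (nat_lit 0)) T4.l8
  (TrL.c (I.pos (nat_lit 0) (nat_lit 0)) T2.l5
  TrL.n)))))) (by decide +kernel)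
theorem bx1_3 : BoxOK sI cl4 cl7 cl5 t4 t2 b1_3 :=
  box_mk (TrL.c (I.pos (nat_lit 0) (nat_lit 0)) (xa (xa (xb T4.l7 T4.l7) T4.l7) T4.l7)
  (TrL.c (I.pos (nat_lit 0) (nat_lit 0)) (xa T2.l4 T2.l3)
  (TrL.c (I.pos (nat_lit 0) (nat_lit 0)) (xa T4.l8 T4.l4)
  (TrL.c (I.pos (nat_lit 0) (nat_lit 0)) (xa T2.l4 T2.l4)
  (TrL.c (I.pos (nat_lit 0) (nat_lit 0)) (xa T4.l8 T4.l8)
  (TrL.c (I.pos (nat_lit 0) (nat_lit 0)) (xa T2.l5 T2.l5)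
  TrL.n)))))) (by decide +kernel)
theorem c1_4_0 : chkTag sI cl4 cl7 cl5 t4 b1_4 (tg true true false RT.r2) (I.pos (nat_lit 0) (nat_lit 0))
  (xa (xb (xb (xa (xb (xa T4.l0 T4.l0) (xa T4.l0 T4.l0)) (xb T4.l0 T4.l0)) (xa (xb (xa T4.l0 T4.l0) (xa T4.l0 T4.l0)) (xb T4.l0 (xa T4.l0 T4.l0)))) (xb (xa (xb (xa T4.l0 T4.l0) (xs T4.l0 (xa T4.l0 T4.l0))) (xs (xb T4.l0 T4.l0) (xb (xa T4.l0 T4.l0) (xa T4.l0 T4.l0)))) (xa (xs (xb T4.l0 (xa T4.l0 T4.l0)) (xb (xa T4.l0 T4.l0) (xa (xc T4.l0 T4.l0) T4.l0))) (xs (xb T4.l0 T4.l0) (xb (xa T4.l0 T4.l2) (xa (xc T4.l0 T4.l0) (xc T4.l0 T4.l2))))))) (xb (xb T4.l2 (xa T4.l2 T4.l2)) (xa (xb (xs T4.l2 T4.l2) (xs (xb T4.l0 (xa T4.l0 T4.l0)) (xb T4.l2 (xa T4.l2 T4.l2)))) (xb T4.l2 (xs (xa T4.l2 T4.l2) (xa (xb T4.l2 T4.l2) T4.l2)))))) = true := by decide +kernel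
theorem c1_4_1 : chkTag sI cl4 cl7 cl5 t2 b1_4 (tg true false false RT.r3) (I.pos (nat_lit 0) (nat_lit 0))
  (xa (xb (xb T2.l3 T2.l3) (xa (xb T2.l3 T2.l3) (xb T2.l3 T2.l3))) (xb (xa T2.l3 (xb T2.l3 T2.l3)) (xa (xb T2.l3 T2.l3) (xb T2.l3 T2.l3)))) = true := by decide +kernel
theorem c1_4_2 : chkTag sI cl4 cl7 cl5 t4 b1_4 (tg true true true RT.r4) (I.pos (nat_lit 0) (nat_lit 0))
  (xa (xb T4.l4 T4.l4) (xc (xb T4.l3 T4.l4) (xb T4.l4 (xs T4.l4 (xa T4.l4 T4.l4))))) = true := by decide +kernel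
theorem c1_4_3 : chkTag sI cl4 cl7 cl5 t2 b1_4 (tg false false false RT.r3) (I.pos (nat_lit 0) (nat_lit 0))
  (xb (xa T2.l4 (xb (xa T2.l4 T2.l4) (xa T2.l4 T2.l4))) (xa T2.l4 (xb (xa T2.l4 (xc T2.l4 T2.l4)) (xa T2.l4 (xc T2.l4 T2.l4))))) = true := by decide +kernel
theorem c1_4_4 : chkTag sI cl4 cl7 cl5 t4 b1_4 (tg false true false RT.r4) (I.pos (nat_lit 0) (nat_lit 0))
  (xa (xb T4.l5 T4.l5) (xc (xb T4.l1 T4.l5) (xb T4.l5 (xa T4.l5 T4.l5)))) = true := by decide +kernel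
theorem c1_4_5 : chkTag sI cl4 cl7 cl5 t2 b1_4 (tg false false true RT.r5) (I.pos (nat_lit 0) (nat_lit 0))
  (xa (xb (xb T2.l5 T2.l5) (xa (xb T2.l5 T2.l5) (xb T2.l5 T2.l5))) (xb (xa T2.l5 (xb T2.l5 T2.l5)) (xa (xb T2.l5 T2.l5) (xb T2.l5 T2.l5)))) = true := by decide +kernel
theorem bx1_4 : BoxOK sI cl4 cl7 cl5 t4 t2 b1_4 :=
  box_mk' [(tg true true false RT.r2), (tg true false false RT.r3), (tg true true true RT.r4), (tg false false false RT.r3), (tg false true false RT.r4), (tg false false true RT.r5)] rfl (allL_c (ex_mk c1_4_0) (allL_c (ex_mk c1_4_1) (allL_c (ex_mk c1_4_2) (allL_c (ex_mk c1_4_3) (allL_c (ex_mk c1_4_4) (allL_c (ex_mk c1_4_5) allL_n))))))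
theorem bx1_5 : BoxOK sI cl4 cl7 cl5 t4 t2 b1_5 :=
  box_mk (TrL.c (I.pos (nat_lit 0) (nat_lit 0)) T4.l7
  (TrL.c (I.pos (nat_lit 0) (nat_lit 0)) T2.l4
  (TrL.c (I.pos (nat_lit 0) (nat_lit 0)) T4.l4
  (TrL.c (I.pos (nat_lit 0) (nat_lit 0)) T2.l4
  (TrL.c (I.pos (nat_lit 0) (nat_lit 0)) T4.l8
  (TrL.c (I.pos (nat_lit 0) (nat_lit 0)) T2.l5
  TrL.n)))))) (by decide +kernel)
theorem bx1_6 : BoxOK sI cl4 cl7 cl5 t4 t2 b1_6 :=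
  box_mk (TrL.c (I.pos (nat_lit 0) (nat_lit 0)) T4.l7
  (TrL.c (I.pos (nat_lit 0) (nat_lit 0)) T2.l3
  (TrL.c (I.pos (nat_lit 0) (nat_lit 0)) T4.l4
  (TrL.c (I.pos (nat_lit 0) (nat_lit 0)) T2.l4
  (TrL.c (I.pos (nat_lit 0) (nat_lit 0)) T4.l8
  (TrL.c (I.pos (nat_lit 0) (nat_lit 0)) T2.l5
  TrL.n)))))) (by decide +kernel)
theorem bx1_7 : BoxOK sI cl4 cl7 cl5 t4 t2 b1_7 :=
  box_mk (TrL.c (I.pos (nat_lit 0) (nat_lit 0)) (xa (xb T4.l0 T4.l0) T4.l2)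
  (TrL.c (I.pos (nat_lit 0) (nat_lit 0)) (xa T2.l3 (xb T2.l3 T2.l3))
  (TrL.c (I.pos (nat_lit 0) (nat_lit 0)) T4.l3
  (TrL.c (I.pos (nat_lit 0) (nat_lit 0)) (xa T2.l4 (xb (xa T2.l4 T2.l4) T2.l4))
  (TrL.c (I.pos (nat_lit 0) (nat_lit 0)) T4.l1
  (TrL.c (I.pos (nat_lit 0) (nat_lit 0)) (xa T2.l5 (xb T2.l5 T2.l5))
  TrL.n)))))) (by decide +kernel)
theorem bx1_8 : BoxOK sI cl4 cl7 cl5 t4 t2 b1_8 :=
  box_mk (TrL.c (I.pos (nat_lit 0) (nat_lit 0)) (xa (xb T4.l7 T4.l7) T4.l0)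
  (TrL.c (I.pos (nat_lit 0) (nat_lit 0)) T2.l3
  (TrL.c (I.pos (nat_lit 0) (nat_lit 0)) T4.l4
  (TrL.c (I.pos (nat_lit 0) (nat_lit 0)) T2.l4
  (TrL.c (I.pos (nat_lit 0) (nat_lit 0)) (xa T4.l8 T4.l8)
  (TrL.c (I.pos (nat_lit 0) (nat_lit 0)) T2.l5
  TrL.n)))))) (by decide +kernel)
theorem bx1_9 : BoxOK sI cl4 cl7 cl5 t4 t2 b1_9 :=
  box_mk (TrL.c (I.pos (nat_lit 0) (nat_lit 0)) (xa (xa (xb T4.l7 T4.l7) T4.l7) T4.l7)
  (TrL.c (I.pos (nat_lit 0) (nat_lit 0)) (xa T2.l4 T2.l3)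
  (TrL.c (I.pos (nat_lit 0) (nat_lit 0)) (xa T4.l8 T4.l4)
  (TrL.c (I.pos (nat_lit 0) (nat_lit 0)) (xa T2.l4 T2.l4)
  (TrL.c (I.pos (nat_lit 0) (nat_lit 0)) (xa T4.l8 T4.l8)
  (TrL.c (I.pos (nat_lit 0) (nat_lit 0)) (xa T2.l5 T2.l5)
  TrL.n)))))) (by decide +kernel)
theorem bx1_10 : BoxOK sI cl4 cl7 cl5 t4 t2 b1_10 :=
  box_mk (TrL.c (I.pos (nat_lit 0) (nat_lit 0)) (xb (xa (xb (xa T4.l9 T4.l9) (xa T4.l9 T4.l9)) (xb (xa T4.l9 T4.l9) (xa T4.l9 T4.l9))) (xa (xb (xa T4.l9 T4.l9) (xa (xs T4.l9 (xb T4.l9 T4.l9)) (xs T4.l9 (xb T4.l9 T4.l9)))) (xb (xa T4.l9 T4.l9) (xa (xs T4.l9 (xb T4.l9 T4.l9)) (xs T4.l9 (xb T4.l9 T4.l9))))))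
  (TrL.c (I.pos (nat_lit 0) (nat_lit 0)) (xb (xa T2.l3 T2.l3) (xa T2.l3 (xb T2.l3 T2.l3)))
  (TrL.c (I.pos (nat_lit 0) (nat_lit 0)) (xb T4.l4 (xa T4.l4 T4.l4))
  (TrL.c (I.pos (nat_lit 0) (nat_lit 0)) (xb T2.l4 T2.l4)
  (TrL.c (I.pos (nat_lit 0) (nat_lit 0)) (xb (xa T4.l10 T4.l10) (xa T4.l10 T4.l10))
  (TrL.c (I.pos (nat_lit 0) (nat_lit 0)) (xb (xa T2.l5 T2.l5) (xa T2.l5 (xb T2.l5 T2.l5)))
  TrL.n)))))) (by decide +kernel)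
theorem bx1_11 : BoxOK sI cl4 cl7 cl5 t4 t2 b1_11 :=
  box_mk (TrL.c (I.pos (nat_lit 0) (nat_lit 0)) (xa (xa (xb T4.l7 (xa (xb T4.l7 T4.l7) T4.l7)) (xb T4.l7 (xa T4.l7 T4.l7))) (xa T4.l7 (xb T4.l7 (xa T4.l7 T4.l7))))
  (TrL.c (I.pos (nat_lit 0) (nat_lit 0)) (xa (xa T2.l4 T2.l3) T2.l3)
  (TrL.c (I.pos (nat_lit 0) (nat_lit 0)) (xa T4.l4 T4.l4)
  (TrL.c (I.pos (nat_lit 0) (nat_lit 0)) (xa (xa T2.l4 T2.l4) T2.l4)
  (TrL.c (I.pos (nat_lit 0) (nat_lit 0)) (xa T4.l8 T4.l8)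
  (TrL.c (I.pos (nat_lit 0) (nat_lit 0)) (xa T2.l5 T2.l5)
  TrL.n)))))) (by decide +kernel)
theorem bx1_12 : BoxOK sI cl4 cl7 cl5 t4 t2 b1_12 :=
  box_mk (TrL.c (I.pos (nat_lit 0) (nat_lit 0)) T4.l0
  (TrL.c (I.pos (nat_lit 0) (nat_lit 0)) T2.l3
  (TrL.c (I.pos (nat_lit 0) (nat_lit 0)) T4.l4
  (TrL.c (I.pos (nat_lit 0) (nat_lit 0)) T2.l4
  (TrL.c (I.pos (nat_lit 0) (nat_lit 0)) (xa T4.l10 T4.l1)
  (TrL.c (I.pos (nat_lit 0) (nat_lit 0)) T2.l5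
  TrL.n)))))) (by decide +kernel)
theorem bx1_13 : BoxOK sI cl4 cl7 cl5 t4 t2 b1_13 :=
  box_mk (TrL.c (I.pos (nat_lit 0) (nat_lit 0)) T4.l0
  (TrL.c (I.pos (nat_lit 0) (nat_lit 0)) T2.l3
  (TrL.c (I.pos (nat_lit 0) (nat_lit 0)) T4.l4
  (TrL.c (I.pos (nat_lit 0) (nat_lit 0)) T2.l4
  (TrL.c (I.pos (nat_lit 0) (nat_lit 0)) T4.l8
  (TrL.c (I.pos (nat_lit 0) (nat_lit 0)) T2.l5
  TrL.n)))))) (by decide +kernel)
theorem bx1_14 : BoxOK sI cl4 cl7 cl5 t4 t2 b1_14 :=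
  box_mk (TrL.c (I.pos (nat_lit 0) (nat_lit 0)) (xa (xa (xa T4.l7 T4.l7) T4.l7) T4.l7)
  (TrL.c (I.pos (nat_lit 0) (nat_lit 0)) (xa T2.l4 T2.l3)
  (TrL.c (I.pos (nat_lit 0) (nat_lit 0)) (xa T4.l4 T4.l4)
  (TrL.c (I.pos (nat_lit 0) (nat_lit 0)) (xa T2.l4 T2.l4)
  (TrL.c (I.pos (nat_lit 0) (nat_lit 0)) T4.l8
  (TrL.c (I.pos (nat_lit 0) (nat_lit 0)) (xa T2.l5 T2.l5)
  TrL.n)))))) (by decide +kernel)
theorem bx1_15 : BoxOK sI cl4 cl7 cl5 t4 t2 b1_15 :=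
  box_mk (TrL.c (I.pos (nat_lit 0) (nat_lit 0)) (xb (xa T4.l9 T4.l0) (xa T4.l9 T4.l9))
  (TrL.c (I.pos (nat_lit 0) (nat_lit 0)) T2.l3
  (TrL.c (I.pos (nat_lit 0) (nat_lit 0)) T4.l4
  (TrL.c (I.pos (nat_lit 0) (nat_lit 0)) T2.l4
  (TrL.c (I.pos (nat_lit 0) (nat_lit 0)) T4.l10
  (TrL.c (I.pos (nat_lit 0) (nat_lit 0)) T2.l5
  TrL.n)))))) (by decide +kernel)
theorem sv1 : StarV sI cl4 cl7 cl5 t4 t2 t1 :=
  (bt_n (bt_n (bt_n (bt_n (bt_b bx1_0) (bt_b bx1_1)) (bt_n (bt_b bx1_2) (bt_b bx1_3))) (bt_n (bt_n (bt_b bx1_4) (bt_b bx1_5)) (bt_n (bt_b bx1_6) (bt_b bx1_7)))) (bt_n (bt_n (bt_n (bt_b bx1_8) (bt_b bx1_9)) (bt_n (bt_b bx1_10) (bt_b bx1_11))) (bt_n (bt_n (bt_b bx1_12) (bt_b bx1_13)) (bt_n (bt_b bx1_14) (bt_b bx1_15)))))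
def S1 : StarD := StarD.mk cl4 cl7 cl5 4 2 t1
theorem bx2_0 : BoxOK sI cl5 cl4 cl7 t0 t5 b2_0 :=
  box_mk (TrL.c (I.pos (nat_lit 0) (nat_lit 0)) (xb (xa T0.l6 (xb T0.l0 T0.l0)) (xa (xb (xa T0.l6 T0.l0) (xa (xb T0.l0 T0.l0) T0.l0)) (xb (xa T0.l0 T0.l0) (xa T0.l0 T0.l0))))
  (TrL.c (I.pos (nat_lit 0) (nat_lit 0)) (xb T5.l1 (xa T5.l1 T5.l1))
  (TrL.c (I.pos (nat_lit 0) (nat_lit 0)) T0.l1
  (TrL.c (I.pos (nat_lit 0) (nat_lit 0)) T5.l2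
  (TrL.c (I.pos (nat_lit 0) (nat_lit 0)) (xb (xa T5.l8 T5.l3) (xa T5.l8 T5.l3))
  (TrL.c (I.pos (nat_lit 0) (nat_lit 0)) (xb T0.l2 T0.l2)
  (TrL.c (I.pos (nat_lit 0) (nat_lit 0)) T5.l4
  (TrL.c (I.pos (nat_lit 0) (nat_lit 0)) T0.l3
  TrL.n)))))))) (by decide +kernel)
theorem bx2_1 : BoxOK sI cl5 cl4 cl7 t0 t5 b2_1 :=
  box_mk (TrL.c (I.pos (nat_lit 0) (nat_lit 0)) T5.l5
  (TrL.c (I.pos (nat_lit 0) (nat_lit 0)) T0.l4
  (TrL.c (I.pos (nat_lit 0) (nat_lit 0)) T5.l6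
  TrL.n))) (by decide +kernel)
theorem bx2_2 : BoxOK sI cl5 cl4 cl7 t0 t5 b2_2 :=
  box_mk (TrL.c (I.pos (nat_lit 0) (nat_lit 0)) (xb T0.l5 T0.l6)
  (TrL.c (I.pos (nat_lit 0) (nat_lit 0)) T5.l1
  (TrL.c (I.pos (nat_lit 0) (nat_lit 0)) T0.l1
  (TrL.c (I.pos (nat_lit 0) (nat_lit 0)) T5.l6
  (TrL.c (I.pos (nat_lit 0) (nat_lit 0)) T5.l7
  (TrL.c (I.pos (nat_lit 0) (nat_lit 0)) T0.l2
  (TrL.c (I.pos (nat_lit 0) (nat_lit 0)) T5.l4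
  (TrL.c (I.pos (nat_lit 0) (nat_lit 0)) T0.l3
  TrL.n)))))))) (by decide +kernel)
theorem bx2_3 : BoxOK sI cl5 cl4 cl7 t0 t5 b2_3 :=
  box_mk (TrL.c (I.pos (nat_lit 0) (nat_lit 0)) (xa (xb (xa T0.l6 T0.l6) (xa T0.l6 T0.l6)) T0.l6)
  (TrL.c (I.pos (nat_lit 0) (nat_lit 0)) (xa T5.l1 T5.l1)
  (TrL.c (I.pos (nat_lit 0) (nat_lit 0)) T0.l4
  (TrL.c (I.pos (nat_lit 0) (nat_lit 0)) T5.l2
  (TrL.c (I.pos (nat_lit 0) (nat_lit 0)) (xa T5.l8 T5.l8)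
  (TrL.c (I.pos (nat_lit 0) (nat_lit 0)) (xa T0.l2 T0.l2)
  (TrL.c (I.pos (nat_lit 0) (nat_lit 0)) T5.l4
  (TrL.c (I.pos (nat_lit 0) (nat_lit 0)) T0.l3
  TrL.n)))))))) (by decide +kernel)
theorem bx2_4 : BoxOK sI cl5 cl4 cl7 t0 t5 b2_4 :=
  box_mk (TrL.c (I.pos (nat_lit 0) (nat_lit 0)) (xb (xa (xb (xa T0.l6 T0.l6) (xa (xb T0.l6 T0.l6) T0.l6)) (xb (xa T0.l6 T0.l6) (xa T0.l6 T0.l6))) (xa (xb (xa (xb T0.l6 T0.l6) T0.l6) (xa (xb (xa T0.l6 T0.l6) (xa T0.l6 T0.l6)) (xb T0.l6 T0.l6))) (xb (xa T0.l6 T0.l6) (xa (xb T0.l6 (xa T0.l6 T0.l6)) (xb T0.l6 (xa T0.l6 T0.l6))))))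
  (TrL.c (I.pos (nat_lit 0) (nat_lit 0)) (xb (xa T5.l1 T5.l1) (xa T5.l1 T5.l1))
  (TrL.c (I.pos (nat_lit 0) (nat_lit 0)) (xb T0.l1 T0.l1)
  (TrL.c (I.pos (nat_lit 0) (nat_lit 0)) T5.l2
  (TrL.c (I.pos (nat_lit 0) (nat_lit 0)) (xb (xa T5.l8 (xb T5.l8 T5.l8)) (xa T5.l8 (xb T5.l8 (xs T5.l3 T5.l8))))
  (TrL.c (I.pos (nat_lit 0) (nat_lit 0)) (xb (xa T0.l2 T0.l2) (xa T0.l2 T0.l2))
  (TrL.c (I.pos (nat_lit 0) (nat_lit 0)) T5.l4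
  (TrL.c (I.pos (nat_lit 0) (nat_lit 0)) (xb T0.l3 T0.l3)
  TrL.n)))))))) (by decide +kernel)
theorem bx2_5 : BoxOK sI cl5 cl4 cl7 t0 t5 b2_5 :=
  box_mk (TrL.c (I.pos (nat_lit 0) (nat_lit 0)) (xa T5.l1 T5.l5)
  (TrL.c (I.pos (nat_lit 0) (nat_lit 0)) T0.l4
  (TrL.c (I.pos (nat_lit 0) (nat_lit 0)) T5.l2
  TrL.n))) (by decide +kernel)
theorem bx2_6 : BoxOK sI cl5 cl4 cl7 t0 t5 b2_6 :=
  box_mk (TrL.c (I.pos (nat_lit 0) (nat_lit 0)) (xa (xb T0.l0 (xa T0.l0 T0.l0)) (xb T0.l9 (xa T0.l0 T0.l9)))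
  (TrL.c (I.pos (nat_lit 0) (nat_lit 0)) (xa T5.l1 T5.l1)
  (TrL.c (I.pos (nat_lit 0) (nat_lit 0)) T0.l1
  (TrL.c (I.pos (nat_lit 0) (nat_lit 0)) T5.l2
  (TrL.c (I.pos (nat_lit 0) (nat_lit 0)) (xa (xb T5.l3 T5.l3) (xb (xa T5.l3 T5.l3) (xa T5.l3 T5.l3)))
  (TrL.c (I.pos (nat_lit 0) (nat_lit 0)) (xa T0.l2 T0.l7)
  (TrL.c (I.pos (nat_lit 0) (nat_lit 0)) T5.l4
  (TrL.c (I.pos (nat_lit 0) (nat_lit 0)) T0.l3
  TrL.n)))))))) (by decide +kernel)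
theorem bx2_7 : BoxOK sI cl5 cl4 cl7 t0 t5 b2_7 :=
  box_mk (TrL.c (I.pos (nat_lit 0) (nat_lit 0)) (xb T0.l5 T0.l5)
  (TrL.c (I.pos (nat_lit 0) (nat_lit 0)) T5.l1
  (TrL.c (I.pos (nat_lit 0) (nat_lit 0)) T0.l1
  (TrL.c (I.pos (nat_lit 0) (nat_lit 0)) T5.l2
  (TrL.c (I.pos (nat_lit 0) (nat_lit 0)) T5.l8
  (TrL.c (I.pos (nat_lit 0) (nat_lit 0)) T0.l2
  (TrL.c (I.pos (nat_lit 0) (nat_lit 0)) T5.l4
  (TrL.c (I.pos (nat_lit 0) (nat_lit 0)) T0.l3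
  TrL.n)))))))) (by decide +kernel)
theorem bx2_8 : BoxOK sI cl5 cl4 cl7 t0 t5 b2_8 :=
  box_mk (TrL.c (I.pos (nat_lit 0) (nat_lit 0)) T5.l5
  (TrL.c (I.pos (nat_lit 0) (nat_lit 0)) T0.l4
  (TrL.c (I.pos (nat_lit 0) (nat_lit 0)) T5.l6
  TrL.n))) (by decide +kernel)
theorem bx2_9 : BoxOK sI cl5 cl4 cl7 t0 t5 b2_9 :=
  box_mk (TrL.c (I.pos (nat_lit 0) (nat_lit 0)) (xa (xb T0.l6 (xb T0.l0 (xa T0.l0 T0.l0))) (xb T0.l0 (xb T0.l0 T0.l0)))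
  (TrL.c (I.pos (nat_lit 0) (nat_lit 0)) T5.l1
  (TrL.c (I.pos (nat_lit 0) (nat_lit 0)) T0.l1
  (TrL.c (I.pos (nat_lit 0) (nat_lit 0)) T5.l2
  (TrL.c (I.pos (nat_lit 0) (nat_lit 0)) (xb T5.l3 T5.l3)
  (TrL.c (I.pos (nat_lit 0) (nat_lit 0)) T0.l2
  (TrL.c (I.pos (nat_lit 0) (nat_lit 0)) T5.l4
  (TrL.c (I.pos (nat_lit 0) (nat_lit 0)) T0.l3
  TrL.n)))))))) (by decide +kernel)
theorem bx2_10 : BoxOK sI cl5 cl4 cl7 t0 t5 b2_10 :=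
  box_mk (TrL.c (I.pos (nat_lit 0) (nat_lit 0)) T0.l6
  (TrL.c (I.pos (nat_lit 0) (nat_lit 0)) T5.l1
  (TrL.c (I.pos (nat_lit 0) (nat_lit 0)) T0.l1
  (TrL.c (I.pos (nat_lit 0) (nat_lit 0)) T5.l2
  (TrL.c (I.pos (nat_lit 0) (nat_lit 0)) T5.l7
  (TrL.c (I.pos (nat_lit 0) (nat_lit 0)) T0.l2
  (TrL.c (I.pos (nat_lit 0) (nat_lit 0)) T5.l4
  (TrL.c (I.pos (nat_lit 0) (nat_lit 0)) T0.l3
  TrL.n)))))))) (by decide +kernel)
theorem sv2 : StarV sI cl5 cl4 cl7 t0 t5 t2 :=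
  (bt_n (bt_n (bt_n (bt_b bx2_0) (bt_b bx2_1)) (bt_n (bt_b bx2_2) (bt_n (bt_b bx2_3) (bt_b bx2_4)))) (bt_n (bt_n (bt_b bx2_5) (bt_n (bt_b bx2_6) (bt_b bx2_7))) (bt_n (bt_b bx2_8) (bt_n (bt_b bx2_9) (bt_b bx2_10)))))
def S2 : StarD := StarD.mk cl5 cl4 cl7 0 5 t2
theorem bx3_0 : BoxOK sI cl5 cl7 cl4 t5 t0 b3_0 :=
  box_mk (TrL.c (I.pos (nat_lit 0) (nat_lit 0)) (xa (xb (xa (xb T5.l0 T5.l0) (xb T5.l0 T5.l0)) (xa (xb (xa T5.l0 T5.l0) (xa T5.l0 T5.l0)) (xa (xb T5.l0 T5.l0) (xb T5.l0 T5.l0)))) (xa (xb (xb T5.l0 (xs T5.l13 T5.l0)) (xa T5.l0 T5.l0)) (xb (xb (xs T5.l0 T5.l0) (xs T5.l0 (xa T5.l0 T5.l0))) (xa (xb T5.l0 T5.l0) (xb T5.l0 T5.l0)))))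
  (TrL.c (I.pos (nat_lit 0) (nat_lit 0)) (xa (xb T0.l7 (xa T0.l7 T0.l7)) (xa (xb T0.l7 T0.l7) (xb T0.l7 T0.l7)))
  (TrL.c (I.pos (nat_lit 0) (nat_lit 0)) T5.l9
  (TrL.c (I.pos (nat_lit 0) (nat_lit 0)) T0.l8
  (TrL.c (I.pos (nat_lit 0) (nat_lit 0)) (xa (xb T0.l9 T0.l9) (xb (xa T0.l9 T0.l9) (xa T0.l9 T0.l9)))
  (TrL.c (I.pos (nat_lit 0) (nat_lit 0)) (xa T5.l10 (xb T5.l10 T5.l10))
  (TrL.c (I.pos (nat_lit 0) (nat_lit 0)) T0.l10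
  (TrL.c (I.pos (nat_lit 0) (nat_lit 0)) T5.l11
  TrL.n)))))))) (by decide +kernel)
theorem bx3_1 : BoxOK sI cl5 cl7 cl4 t5 t0 b3_1 :=
  box_mk (TrL.c (I.pos (nat_lit 0) (nat_lit 0)) (xa (xb T5.l12 T5.l12) (xb T5.l12 T5.l12))
  (TrL.c (I.pos (nat_lit 0) (nat_lit 0)) (xa T0.l7 T0.l7)
  (TrL.c (I.pos (nat_lit 0) (nat_lit 0)) T5.l9
  (TrL.c (I.pos (nat_lit 0) (nat_lit 0)) T0.l8
  (TrL.c (I.pos (nat_lit 0) (nat_lit 0)) (xa T0.l11 T0.l11)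
  (TrL.c (I.pos (nat_lit 0) (nat_lit 0)) T5.l10
  (TrL.c (I.pos (nat_lit 0) (nat_lit 0)) T0.l10
  (TrL.c (I.pos (nat_lit 0) (nat_lit 0)) T5.l11
  TrL.n)))))))) (by decide +kernel)
theorem bx3_2 : BoxOK sI cl5 cl7 cl4 t5 t0 b3_2 :=
  box_mk (TrL.c (I.pos (nat_lit 0) (nat_lit 0)) (xa T5.l12 T5.l12)
  (TrL.c (I.pos (nat_lit 0) (nat_lit 0)) (xa T0.l11 T0.l7)
  (TrL.c (I.pos (nat_lit 0) (nat_lit 0)) T5.l9
  (TrL.c (I.pos (nat_lit 0) (nat_lit 0)) T0.l8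
  (TrL.c (I.pos (nat_lit 0) (nat_lit 0)) (xa T0.l7 T0.l11)
  (TrL.c (I.pos (nat_lit 0) (nat_lit 0)) T5.l10
  (TrL.c (I.pos (nat_lit 0) (nat_lit 0)) T0.l10
  (TrL.c (I.pos (nat_lit 0) (nat_lit 0)) T5.l11
  TrL.n)))))))) (by decide +kernel)
theorem bx3_3 : BoxOK sI cl5 cl7 cl4 t5 t0 b3_3 :=
  box_mk (TrL.c (I.pos (nat_lit 0) (nat_lit 0)) (xb (xa T5.l13 T5.l13) (xa (xb T5.l13 (xa T5.l13 T5.l13)) (xa T5.l13 T5.l13)))
  (TrL.c (I.pos (nat_lit 0) (nat_lit 0)) (xb (xa T0.l7 T0.l7) (xa T0.l7 T0.l7))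
  (TrL.c (I.pos (nat_lit 0) (nat_lit 0)) T5.l9
  (TrL.c (I.pos (nat_lit 0) (nat_lit 0)) T0.l8
  (TrL.c (I.pos (nat_lit 0) (nat_lit 0)) (xb (xa T0.l12 T0.l12) T0.l9)
  (TrL.c (I.pos (nat_lit 0) (nat_lit 0)) (xb T5.l10 T5.l10)
  (TrL.c (I.pos (nat_lit 0) (nat_lit 0)) T0.l10
  (TrL.c (I.pos (nat_lit 0) (nat_lit 0)) T5.l11
  TrL.n)))))))) (by decide +kernel)
theorem bx3_4 : BoxOK sI cl5 cl7 cl4 t5 t0 b3_4 :=
  box_mk (TrL.c (I.pos (nat_lit 0) (nat_lit 0)) (xa (xa (xb T5.l12 (xa T5.l12 T5.l12)) (xb T5.l12 T5.l12)) (xa T5.l12 T5.l12))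
  (TrL.c (I.pos (nat_lit 0) (nat_lit 0)) (xa (xa T0.l11 T0.l7) T0.l7)
  (TrL.c (I.pos (nat_lit 0) (nat_lit 0)) T5.l9
  (TrL.c (I.pos (nat_lit 0) (nat_lit 0)) T0.l8
  (TrL.c (I.pos (nat_lit 0) (nat_lit 0)) (xa T0.l11 T0.l11)
  (TrL.c (I.pos (nat_lit 0) (nat_lit 0)) (xa T5.l10 T5.l10)
  (TrL.c (I.pos (nat_lit 0) (nat_lit 0)) T0.l10
  (TrL.c (I.pos (nat_lit 0) (nat_lit 0)) T5.l11
  TrL.n)))))))) (by decide +kernel)
theorem bx3_5 : BoxOK sI cl5 cl7 cl4 t5 t0 b3_5 :=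
  box_mk (TrL.c (I.pos (nat_lit 0) (nat_lit 0)) (xb (xa T5.l13 T5.l13) (xa T5.l13 T5.l13))
  (TrL.c (I.pos (nat_lit 0) (nat_lit 0)) (xb T0.l7 T0.l7)
  (TrL.c (I.pos (nat_lit 0) (nat_lit 0)) T5.l9
  (TrL.c (I.pos (nat_lit 0) (nat_lit 0)) T0.l8
  (TrL.c (I.pos (nat_lit 0) (nat_lit 0)) (xb T0.l12 T0.l12)
  (TrL.c (I.pos (nat_lit 0) (nat_lit 0)) T5.l10
  (TrL.c (I.pos (nat_lit 0) (nat_lit 0)) T0.l10
  (TrL.c (I.pos (nat_lit 0) (nat_lit 0)) T5.l11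
  TrL.n)))))))) (by decide +kernel)
theorem bx3_6 : BoxOK sI cl5 cl7 cl4 t5 t0 b3_6 :=
  box_mk (TrL.c (I.pos (nat_lit 0) (nat_lit 0)) (xa T5.l12 T5.l12)
  (TrL.c (I.pos (nat_lit 0) (nat_lit 0)) (xa T0.l11 T0.l7)
  (TrL.c (I.pos (nat_lit 0) (nat_lit 0)) T5.l9
  (TrL.c (I.pos (nat_lit 0) (nat_lit 0)) T0.l8
  (TrL.c (I.pos (nat_lit 0) (nat_lit 0)) (xa T0.l7 T0.l11)
  (TrL.c (I.pos (nat_lit 0) (nat_lit 0)) T5.l10
  (TrL.c (I.pos (nat_lit 0) (nat_lit 0)) T0.l10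
  (TrL.c (I.pos (nat_lit 0) (nat_lit 0)) T5.l11
  TrL.n)))))))) (by decide +kernel)
theorem bx3_7 : BoxOK sI cl5 cl7 cl4 t5 t0 b3_7 :=
  box_mk (TrL.c (I.pos (nat_lit 0) (nat_lit 0)) T5.l12
  (TrL.c (I.pos (nat_lit 0) (nat_lit 0)) T0.l7
  (TrL.c (I.pos (nat_lit 0) (nat_lit 0)) T5.l9
  (TrL.c (I.pos (nat_lit 0) (nat_lit 0)) T0.l8
  (TrL.c (I.pos (nat_lit 0) (nat_lit 0)) T0.l11
  (TrL.c (I.pos (nat_lit 0) (nat_lit 0)) T5.l10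
  (TrL.c (I.pos (nat_lit 0) (nat_lit 0)) T0.l10
  (TrL.c (I.pos (nat_lit 0) (nat_lit 0)) T5.l11
  TrL.n)))))))) (by decide +kernel)
theorem bx3_8 : BoxOK sI cl5 cl7 cl4 t5 t0 b3_8 :=
  box_mk (TrL.c (I.pos (nat_lit 0) (nat_lit 0)) T5.l0
  (TrL.c (I.pos (nat_lit 0) (nat_lit 0)) T0.l7
  (TrL.c (I.pos (nat_lit 0) (nat_lit 0)) T5.l9
  (TrL.c (I.pos (nat_lit 0) (nat_lit 0)) T0.l8
  (TrL.c (I.pos (nat_lit 0) (nat_lit 0)) T0.l12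
  (TrL.c (I.pos (nat_lit 0) (nat_lit 0)) T5.l10
  (TrL.c (I.pos (nat_lit 0) (nat_lit 0)) T0.l10
  (TrL.c (I.pos (nat_lit 0) (nat_lit 0)) T5.l11
  TrL.n)))))))) (by decide +kernel)
theorem bx3_9 : BoxOK sI cl5 cl7 cl4 t5 t0 b3_9 :=
  box_mk (TrL.c (I.pos (nat_lit 0) (nat_lit 0)) (xa (xa (xb T5.l12 (xa T5.l12 T5.l12)) (xb T5.l12 T5.l12)) (xa T5.l12 (xb T5.l12 T5.l12)))
  (TrL.c (I.pos (nat_lit 0) (nat_lit 0)) (xa (xa T0.l7 T0.l7) T0.l7)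
  (TrL.c (I.pos (nat_lit 0) (nat_lit 0)) T5.l9
  (TrL.c (I.pos (nat_lit 0) (nat_lit 0)) T0.l8
  (TrL.c (I.pos (nat_lit 0) (nat_lit 0)) (xa T0.l11 T0.l11)
  (TrL.c (I.pos (nat_lit 0) (nat_lit 0)) (xa T5.l10 T5.l10)
  (TrL.c (I.pos (nat_lit 0) (nat_lit 0)) T0.l10
  (TrL.c (I.pos (nat_lit 0) (nat_lit 0)) T5.l11
  TrL.n)))))))) (by decide +kernel)
theorem bx3_10 : BoxOK sI cl5 cl7 cl4 t5 t0 b3_10 :=
  box_mk (TrL.c (I.pos (nat_lit 0) (nat_lit 0)) (xb T5.l12 T5.l12)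
  (TrL.c (I.pos (nat_lit 0) (nat_lit 0)) T0.l7
  (TrL.c (I.pos (nat_lit 0) (nat_lit 0)) T5.l9
  (TrL.c (I.pos (nat_lit 0) (nat_lit 0)) T0.l8
  (TrL.c (I.pos (nat_lit 0) (nat_lit 0)) (xb T0.l11 T0.l11)
  (TrL.c (I.pos (nat_lit 0) (nat_lit 0)) T5.l10
  (TrL.c (I.pos (nat_lit 0) (nat_lit 0)) T0.l10
  (TrL.c (I.pos (nat_lit 0) (nat_lit 0)) T5.l11
  TrL.n)))))))) (by decide +kernel)
theorem bx3_11 : BoxOK sI cl5 cl7 cl4 t5 t0 b3_11 :=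
  box_mk (TrL.c (I.pos (nat_lit 0) (nat_lit 0)) (xa (xa T5.l12 T5.l12) T5.l12)
  (TrL.c (I.pos (nat_lit 0) (nat_lit 0)) (xa T0.l11 T0.l7)
  (TrL.c (I.pos (nat_lit 0) (nat_lit 0)) T5.l9
  (TrL.c (I.pos (nat_lit 0) (nat_lit 0)) T0.l8
  (TrL.c (I.pos (nat_lit 0) (nat_lit 0)) (xa T0.l7 T0.l11)
  (TrL.c (I.pos (nat_lit 0) (nat_lit 0)) T5.l10
  (TrL.c (I.pos (nat_lit 0) (nat_lit 0)) T0.l10
  (TrL.c (I.pos (nat_lit 0) (nat_lit 0)) T5.l11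
  TrL.n)))))))) (by decide +kernel)
theorem bx3_12 : BoxOK sI cl5 cl7 cl4 t5 t0 b3_12 :=
  box_mk (TrL.c (I.pos (nat_lit 0) (nat_lit 0)) (xa T5.l0 (xa T5.l0 (xb T5.l0 T5.l0)))
  (TrL.c (I.pos (nat_lit 0) (nat_lit 0)) (xa T0.l7 (xb T0.l7 T0.l7))
  (TrL.c (I.pos (nat_lit 0) (nat_lit 0)) T5.l9
  (TrL.c (I.pos (nat_lit 0) (nat_lit 0)) T0.l8
  (TrL.c (I.pos (nat_lit 0) (nat_lit 0)) (xa T0.l9 (xb (xa T0.l9 T0.l9) (xa T0.l9 T0.l9)))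
  (TrL.c (I.pos (nat_lit 0) (nat_lit 0)) (xa T5.l10 T5.l1)
  (TrL.c (I.pos (nat_lit 0) (nat_lit 0)) T0.l10
  (TrL.c (I.pos (nat_lit 0) (nat_lit 0)) T5.l11
  TrL.n)))))))) (by decide +kernel)
theorem bx3_13 : BoxOK sI cl5 cl7 cl4 t5 t0 b3_13 :=
  box_mk (TrL.c (I.pos (nat_lit 0) (nat_lit 0)) T5.l12
  (TrL.c (I.pos (nat_lit 0) (nat_lit 0)) T0.l7
  (TrL.c (I.pos (nat_lit 0) (nat_lit 0)) T5.l9
  (TrL.c (I.pos (nat_lit 0) (nat_lit 0)) T0.l8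
  (TrL.c (I.pos (nat_lit 0) (nat_lit 0)) T0.l11
  (TrL.c (I.pos (nat_lit 0) (nat_lit 0)) T5.l10
  (TrL.c (I.pos (nat_lit 0) (nat_lit 0)) T0.l10
  (TrL.c (I.pos (nat_lit 0) (nat_lit 0)) T5.l11
  TrL.n)))))))) (by decide +kernel)
theorem bx3_14 : BoxOK sI cl5 cl7 cl4 t5 t0 b3_14 :=
  box_mk (TrL.c (I.pos (nat_lit 0) (nat_lit 0)) T5.l12
  (TrL.c (I.pos (nat_lit 0) (nat_lit 0)) T0.l7
  (TrL.c (I.pos (nat_lit 0) (nat_lit 0)) T5.l9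
  (TrL.c (I.pos (nat_lit 0) (nat_lit 0)) T0.l8
  (TrL.c (I.pos (nat_lit 0) (nat_lit 0)) T0.l11
  (TrL.c (I.pos (nat_lit 0) (nat_lit 0)) T5.l10
  (TrL.c (I.pos (nat_lit 0) (nat_lit 0)) T0.l10
  (TrL.c (I.pos (nat_lit 0) (nat_lit 0)) T5.l11
  TrL.n)))))))) (by decide +kernel)
theorem bx3_15 : BoxOK sI cl5 cl7 cl4 t5 t0 b3_15 :=
  box_mk (TrL.c (I.pos (nat_lit 0) (nat_lit 0)) (xa (xb T5.l0 (xa T5.l0 T5.l0)) (xb T5.l0 (xa T5.l0 T5.l0)))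
  (TrL.c (I.pos (nat_lit 0) (nat_lit 0)) (xa T0.l7 (xb T0.l7 T0.l7))
  (TrL.c (I.pos (nat_lit 0) (nat_lit 0)) T5.l9
  (TrL.c (I.pos (nat_lit 0) (nat_lit 0)) T0.l8
  (TrL.c (I.pos (nat_lit 0) (nat_lit 0)) (xa T0.l9 T0.l9)
  (TrL.c (I.pos (nat_lit 0) (nat_lit 0)) T5.l10
  (TrL.c (I.pos (nat_lit 0) (nat_lit 0)) T0.l10
  (TrL.c (I.pos (nat_lit 0) (nat_lit 0)) T5.l11
  TrL.n)))))))) (by decide +kernel)
theorem sv3 : StarV sI cl5 cl7 cl4 t5 t0 t3 :=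
  (bt_n (bt_n (bt_n (bt_n (bt_b bx3_0) (bt_b bx3_1)) (bt_n (bt_b bx3_2) (bt_b bx3_3))) (bt_n (bt_n (bt_b bx3_4) (bt_b bx3_5)) (bt_n (bt_b bx3_6) (bt_b bx3_7)))) (bt_n (bt_n (bt_n (bt_b bx3_8) (bt_b bx3_9)) (bt_n (bt_b bx3_10) (bt_b bx3_11))) (bt_n (bt_n (bt_b bx3_12) (bt_b bx3_13)) (bt_n (bt_b bx3_14) (bt_b bx3_15)))))
def S3 : StarD := StarD.mk cl5 cl7 cl4 5 0 t3
theorem bx4_0 : BoxOK sI cl7 cl4 cl5 t1 t3 b4_0 :=
  box_mk (TrL.c (I.pos (nat_lit 0) (nat_lit 0)) (xa (xb T1.l4 (xa (xb T1.l0 T1.l0) (xb T1.l0 T1.l0))) (xb T1.l0 (xa (xb T1.l0 T1.l0) (xb T1.l0 T1.l0))))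
  (TrL.c (I.pos (nat_lit 0) (nat_lit 0)) (xa (xb T3.l1 (xk T3.l1 T3.l1)) (xb T3.l1 (xk T3.l1 T3.l1)))
  (TrL.c (I.pos (nat_lit 0) (nat_lit 111196574)) (xR T1.l1 T1.l1)
  (TrL.c (I.pos (nat_lit 0) (nat_lit 77433728)) T3.l2
  (TrL.c (I.pos (nat_lit 0) (nat_lit 0)) (xb (xa T3.l5 (xk T3.l3 T3.l3)) (xa (xk T3.l3 T3.l3) (xk T3.l3 T3.l3)))
  (TrL.c (I.pos (nat_lit 0) (nat_lit 0)) T1.l2
  (TrL.c (I.mix (nat_lit 29511666) (nat_lit 77433728)) (xR T3.l4 T3.l4)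
  (TrL.c (I.mix (nat_lit 29511666) (nat_lit 46070178)) T1.l3
  TrL.n)))))))) (by decide +kernel)
theorem bx4_1 : BoxOK sI cl7 cl4 cl5 t1 t3 b4_1 :=
  box_mk (TrL.c (I.pos (nat_lit 0) (nat_lit 0)) (xa (xb T1.l4 T1.l4) T1.l4)
  (TrL.c (I.pos (nat_lit 0) (nat_lit 0)) (xa T3.l1 T3.l1)
  (TrL.c (I.pos (nat_lit 0) (nat_lit 111196574)) (xR T1.l1 T1.l1)
  (TrL.c (I.pos (nat_lit 0) (nat_lit 77433728)) T3.l2
  (TrL.c (I.pos (nat_lit 0) (nat_lit 0)) (xa T3.l5 (xb T3.l5 T3.l5))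
  (TrL.c (I.pos (nat_lit 0) (nat_lit 0)) T1.l2
  (TrL.c (I.mix (nat_lit 29511666) (nat_lit 77433728)) (xR T3.l4 T3.l4)
  (TrL.c (I.mix (nat_lit 29511666) (nat_lit 46070178)) T1.l3
  TrL.n)))))))) (by decide +kernel)
theorem bx4_2 : BoxOK sI cl7 cl4 cl5 t1 t3 b4_2 :=
  box_mk (TrL.c (I.pos (nat_lit 0) (nat_lit 0)) (xb (xa (xb T1.l4 T1.l4) (xb T1.l4 T1.l4)) (xa (xb (xa T1.l4 T1.l4) (xa (xb T1.l4 T1.l4) (xb T1.l4 T1.l4))) (xb (xa T1.l4 T1.l4) (xa (xb T1.l4 T1.l4) T1.l4))))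
  (TrL.c (I.pos (nat_lit 0) (nat_lit 0)) (xb (xa T3.l1 T3.l1) (xa (xk T3.l1 T3.l1) (xk T3.l1 T3.l1)))
  (TrL.c (I.pos (nat_lit 0) (nat_lit 111196574)) (xR T1.l1 T1.l1)
  (TrL.c (I.pos (nat_lit 0) (nat_lit 77433728)) T3.l2
  (TrL.c (I.pos (nat_lit 0) (nat_lit 0)) (xb (xa T3.l5 (xk T3.l5 (xb T3.l5 T3.l5))) (xa (xb (xk T3.l3 T3.l3) (xk (xb T3.l3 (xs T3.l3 (xa T3.l3 T3.l3))) T3.l3)) (xk (xb T3.l3 (xs T3.l3 (xb T3.l3 T3.l3))) (xb T3.l3 (xs T3.l3 (xb T3.l3 (xa T3.l3 T3.l3)))))))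
  (TrL.c (I.pos (nat_lit 0) (nat_lit 0)) T1.l2
  (TrL.c (I.mix (nat_lit 29511666) (nat_lit 77433728)) (xR T3.l4 T3.l4)
  (TrL.c (I.mix (nat_lit 29511666) (nat_lit 46070178)) T1.l3
  TrL.n)))))))) (by decide +kernel)
theorem bx4_3 : BoxOK sI cl7 cl4 cl5 t1 t3 b4_3 :=
  box_mk (TrL.c (I.pos (nat_lit 0) (nat_lit 0)) (xa T3.l1 T3.l7)
  (TrL.c (I.pos (nat_lit 0) (nat_lit 0)) T1.l1
  (TrL.c (I.mix (nat_lit 29511666) (nat_lit 77433728)) (xR T3.l6 T3.l2)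
  (TrL.c (I.mix (nat_lit 29511666) (nat_lit 46070178)) T1.l5
  TrL.n)))) (by decide +kernel)
theorem bx4_4 : BoxOK sI cl7 cl4 cl5 t1 t3 b4_4 :=
  box_mk (TrL.c (I.pos (nat_lit 0) (nat_lit 0)) (xb T3.l1 T3.l7)
  (TrL.c (I.pos (nat_lit 0) (nat_lit 0)) T1.l6
  (TrL.c (I.mix (nat_lit 29511666) (nat_lit 77433728)) (xR T3.l6 T3.l6)
  (TrL.c (I.mix (nat_lit 29511666) (nat_lit 46070178)) T1.l5
  TrL.n)))) (by decide +kernel)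
theorem bx4_5 : BoxOK sI cl7 cl4 cl5 t1 t3 b4_5 :=
  box_mk (TrL.c (I.pos (nat_lit 0) (nat_lit 0)) T1.l7
  (TrL.c (I.pos (nat_lit 0) (nat_lit 0)) T3.l7
  (TrL.c (I.pos (nat_lit 0) (nat_lit 111196574)) (xR T1.l1 T1.l1)
  (TrL.c (I.pos (nat_lit 0) (nat_lit 77433728)) T3.l4
  (TrL.c (I.pos (nat_lit 0) (nat_lit 0)) T3.l8
  (TrL.c (I.pos (nat_lit 0) (nat_lit 0)) T1.l2
  (TrL.c (I.mix (nat_lit 29511666) (nat_lit 77433728)) T3.l4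
  (TrL.c (I.mix (nat_lit 29511666) (nat_lit 46070178)) T1.l3
  TrL.n)))))))) (by decide +kernel)
theorem bx4_6 : BoxOK sI cl7 cl4 cl5 t1 t3 b4_6 :=
  box_mk (TrL.c (I.pos (nat_lit 0) (nat_lit 0)) T1.l4
  (TrL.c (I.pos (nat_lit 0) (nat_lit 0)) T3.l1
  (TrL.c (I.pos (nat_lit 0) (nat_lit 111196574)) (xR T1.l1 T1.l1)
  (TrL.c (I.pos (nat_lit 0) (nat_lit 77433728)) T3.l2
  (TrL.c (I.pos (nat_lit 0) (nat_lit 0)) T3.l5
  (TrL.c (I.pos (nat_lit 0) (nat_lit 0)) T1.l2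
  (TrL.c (I.mix (nat_lit 29511666) (nat_lit 77433728)) T3.l4
  (TrL.c (I.mix (nat_lit 29511666) (nat_lit 46070178)) T1.l3
  TrL.n)))))))) (by decide +kernel)
theorem bx4_7 : BoxOK sI cl7 cl4 cl5 t1 t3 b4_7 :=
  box_mk (TrL.c (I.pos (nat_lit 0) (nat_lit 0)) (xa (xb (xa T1.l0 T1.l0) (xa (xb T1.l0 T1.l0) T1.l0)) (xb (xa T1.l0 T1.l0) (xa (xb T1.l0 T1.l0) (xb T1.l0 T1.l0))))
  (TrL.c (I.pos (nat_lit 0) (nat_lit 0)) (xa (xb T3.l1 (xk T3.l1 T3.l1)) (xb T3.l10 (xk (xa T3.l1 T3.l1) T3.l10)))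
  (TrL.c (I.pos (nat_lit 0) (nat_lit 111196574)) (xR T1.l1 T1.l1)
  (TrL.c (I.pos (nat_lit 0) (nat_lit 77433728)) (xR T3.l2 T3.l2)
  (TrL.c (I.pos (nat_lit 0) (nat_lit 0)) (xa (xb (xk (xa T3.l3 (xb T3.l3 T3.l3)) (xa T3.l3 (xb T3.l3 T3.l3))) (xk T3.l3 T3.l3)) (xb (xk (xa (xb T3.l0 T3.l3) (xb (xk T3.l3 T3.l3) (xk T3.l3 T3.l3))) (xa (xb T3.l0 T3.l3) (xb (xk T3.l3 T3.l3) T3.l3))) (xk (xa (xb T3.l3 T3.l3) (xb (xk T3.l3 T3.l3) (xk T3.l3 T3.l3))) (xa T3.l3 (xb (xk T3.l3 T3.l3) (xk T3.l3 T3.l3))))))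
  (TrL.c (I.pos (nat_lit 0) (nat_lit 0)) (xk (xb (xa T1.l2 T1.l2) (xa T1.l2 T1.l2)) (xb (xa T1.l2 T1.l2) T1.l2))
  (TrL.c (I.mix (nat_lit 29511666) (nat_lit 77433728)) (xR T3.l4 (xR T3.l4 (xR T3.l4 (xb T3.l9 T3.l4))))
  (TrL.c (I.mix (nat_lit 29511666) (nat_lit 46070178)) T1.l3
  TrL.n)))))))) (by decide +kernel)
theorem bx4_8 : BoxOK sI cl7 cl4 cl5 t1 t3 b4_8 :=
  box_mk (TrL.c (I.pos (nat_lit 0) (nat_lit 0)) (xb T1.l7 T1.l7)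
  (TrL.c (I.pos (nat_lit 0) (nat_lit 0)) T3.l1
  (TrL.c (I.pos (nat_lit 0) (nat_lit 111196574)) T1.l1
  (TrL.c (I.pos (nat_lit 0) (nat_lit 77433728)) T3.l2
  (TrL.c (I.pos (nat_lit 0) (nat_lit 0)) T3.l8
  (TrL.c (I.pos (nat_lit 0) (nat_lit 0)) T1.l2
  (TrL.c (I.mix (nat_lit 29511666) (nat_lit 77433728)) T3.l4
  (TrL.c (I.mix (nat_lit 29511666) (nat_lit 46070178)) T1.l11
  TrL.n)))))))) (by decide +kernel)
theorem bx4_9 : BoxOK sI cl7 cl4 cl5 t1 t3 b4_9 :=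
  box_mk (TrL.c (I.pos (nat_lit 0) (nat_lit 0)) (xa (xb T1.l0 (xa T1.l0 T1.l0)) (xb T1.l0 T1.l0))
  (TrL.c (I.pos (nat_lit 0) (nat_lit 0)) (xk (xa T3.l1 T3.l1) T3.l1)
  (TrL.c (I.pos (nat_lit 0) (nat_lit 111196574)) (xR T1.l1 T1.l1)
  (TrL.c (I.pos (nat_lit 0) (nat_lit 77433728)) T3.l2
  (TrL.c (I.pos (nat_lit 0) (nat_lit 0)) (xk (xa T3.l3 T3.l3) T3.l3)
  (TrL.c (I.pos (nat_lit 0) (nat_lit 0)) T1.l2
  (TrL.c (I.mix (nat_lit 29511666) (nat_lit 77433728)) T3.l4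
  (TrL.c (I.mix (nat_lit 29511666) (nat_lit 46070178)) T1.l3
  TrL.n)))))))) (by decide +kernel)
theorem bx4_10 : BoxOK sI cl7 cl4 cl5 t1 t3 b4_10 :=
  box_mk (TrL.c (I.pos (nat_lit 0) (nat_lit 0)) T1.l7
  (TrL.c (I.pos (nat_lit 0) (nat_lit 0)) T3.l1
  (TrL.c (I.pos (nat_lit 0) (nat_lit 111196574)) T1.l1
  (TrL.c (I.pos (nat_lit 0) (nat_lit 77433728)) T3.l2
  (TrL.c (I.pos (nat_lit 0) (nat_lit 0)) T3.l8
  (TrL.c (I.pos (nat_lit 0) (nat_lit 0)) T1.l2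
  (TrL.c (I.mix (nat_lit 29511666) (nat_lit 77433728)) T3.l4
  (TrL.c (I.mix (nat_lit 29511666) (nat_lit 46070178)) T1.l3
  TrL.n)))))))) (by decide +kernel)
theorem sv4 : StarV sI cl7 cl4 cl5 t1 t3 t4 :=
  (bt_n (bt_n (bt_n (bt_b bx4_0) (bt_b bx4_1)) (bt_n (bt_b bx4_2) (bt_n (bt_b bx4_3) (bt_b bx4_4)))) (bt_n (bt_n (bt_b bx4_5) (bt_n (bt_b bx4_6) (bt_b bx4_7))) (bt_n (bt_b bx4_8) (bt_n (bt_b bx4_9) (bt_b bx4_10)))))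
def S4 : StarD := StarD.mk cl7 cl4 cl5 1 3 t4
theorem bx5_0 : BoxOK sI cl7 cl5 cl4 t3 t1 b5_0 :=
  box_mk (TrL.c (I.pos (nat_lit 0) (nat_lit 0)) (xa (xb (xa (xb T3.l0 T3.l0) (xb T3.l0 T3.l0)) (xa (xb T3.l0 T3.l0) (xb T3.l0 T3.l0))) (xb (xa (xb T3.l0 T3.l0) (xb (xs T3.l0 T3.l0) T3.l0)) (xa (xb T3.l0 T3.l0) (xb T3.l0 (xs T3.l0 T3.l0)))))
  (TrL.c (I.pos (nat_lit 0) (nat_lit 0)) (xa (xk (xb T1.l8 T1.l8) (xb T1.l8 T1.l8)) (xk (xb T1.l8 (xa T1.l8 T1.l8)) (xb T1.l8 (xa T1.l8 T1.l8))))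
  (TrL.c (I.pos (nat_lit 0) (nat_lit 111196574)) (xR T3.l9 T3.l9)
  (TrL.c (I.pos (nat_lit 0) (nat_lit 77433728)) T1.l9
  (TrL.c (I.pos (nat_lit 0) (nat_lit 0)) (xa (xk (xb T1.l10 T1.l10) (xb T1.l15 (xb T1.l10 T1.l10))) (xb (xk (xa T1.l10 T1.l10) T1.l10) (xk (xa (xb T1.l10 T1.l10) (xb T1.l10 (xs T1.l10 (xk T1.l10 (xb T1.l10 T1.l10))))) (xb (xa T1.l10 (xs T1.l10 T1.l10)) (xa (xs T1.l10 (xb T1.l10 T1.l10)) (xs (xk T1.l10 T1.l10) (xk (xb T1.l10 (xa T1.l10 (xs T1.l10 T1.l10))) (xb T1.l10 (xa T1.l10 (xs T1.l10 T1.l10))))))))))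
  (TrL.c (I.pos (nat_lit 0) (nat_lit 0)) (xk (xa T3.l10 T3.l10) T3.l10)
  (TrL.c (I.mix (nat_lit 29511666) (nat_lit 77433728)) (xR T1.l11 T1.l11)
  (TrL.c (I.mix (nat_lit 29511666) (nat_lit 46070178)) T3.l11
  TrL.n)))))))) (by decide +kernel)
theorem bx5_1 : BoxOK sI cl7 cl5 cl4 t3 t1 b5_1 :=
  box_mk (TrL.c (I.pos (nat_lit 0) (nat_lit 0)) (xa T3.l12 T3.l12)
  (TrL.c (I.pos (nat_lit 0) (nat_lit 0)) (xa T1.l8 T1.l8)
  (TrL.c (I.pos (nat_lit 0) (nat_lit 111196574)) (xR T3.l9 T3.l9)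
  (TrL.c (I.pos (nat_lit 0) (nat_lit 77433728)) T1.l9
  (TrL.c (I.pos (nat_lit 0) (nat_lit 0)) (xa (xb T1.l12 T1.l12) (xb T1.l12 T1.l12))
  (TrL.c (I.pos (nat_lit 0) (nat_lit 0)) T3.l10
  (TrL.c (I.mix (nat_lit 29511666) (nat_lit 77433728)) (xR T1.l11 T1.l11)
  (TrL.c (I.mix (nat_lit 29511666) (nat_lit 46070178)) T3.l11
  TrL.n)))))))) (by decide +kernel)
theorem bx5_2 : BoxOK sI cl7 cl5 cl4 t3 t1 b5_2 :=
  box_mk (TrL.c (I.pos (nat_lit 0) (nat_lit 0)) T1.l8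
  (TrL.c (I.pos (nat_lit 0) (nat_lit 0)) T3.l9
  (TrL.c (I.mix (nat_lit 29511666) (nat_lit 77433728)) T1.l14
  (TrL.c (I.mix (nat_lit 29511666) (nat_lit 46070178)) T3.l4
  TrL.n)))) (by decide +kernel)
theorem bx5_3 : BoxOK sI cl7 cl5 cl4 t3 t1 b5_3 :=
  box_mk (TrL.c (I.pos (nat_lit 0) (nat_lit 0)) (xa (xb T3.l15 T3.l15) (xb T3.l15 T3.l15))
  (TrL.c (I.pos (nat_lit 0) (nat_lit 0)) (xk (xb T1.l8 T1.l8) (xb T1.l8 T1.l8))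
  (TrL.c (I.pos (nat_lit 0) (nat_lit 111196574)) (xR T3.l9 T3.l9)
  (TrL.c (I.pos (nat_lit 0) (nat_lit 77433728)) T1.l9
  (TrL.c (I.pos (nat_lit 0) (nat_lit 0)) (xk T1.l10 T1.l10)
  (TrL.c (I.pos (nat_lit 0) (nat_lit 0)) T3.l10
  (TrL.c (I.mix (nat_lit 29511666) (nat_lit 77433728)) (xR T1.l11 T1.l11)
  (TrL.c (I.mix (nat_lit 29511666) (nat_lit 46070178)) T3.l11
  TrL.n)))))))) (by decide +kernel)
theorem bx5_4 : BoxOK sI cl7 cl5 cl4 t3 t1 b5_4 :=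
  box_mk (TrL.c (I.pos (nat_lit 0) (nat_lit 0)) T3.l12
  (TrL.c (I.pos (nat_lit 0) (nat_lit 0)) T1.l8
  (TrL.c (I.pos (nat_lit 0) (nat_lit 111196574)) T3.l9
  (TrL.c (I.pos (nat_lit 0) (nat_lit 77433728)) T1.l9
  (TrL.c (I.pos (nat_lit 0) (nat_lit 0)) T1.l12
  (TrL.c (I.pos (nat_lit 0) (nat_lit 0)) T3.l10
  (TrL.c (I.mix (nat_lit 29511666) (nat_lit 77433728)) T1.l11
  (TrL.c (I.mix (nat_lit 29511666) (nat_lit 46070178)) T3.l11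
  TrL.n)))))))) (by decide +kernel)
theorem bx5_5 : BoxOK sI cl7 cl5 cl4 t3 t1 b5_5 :=
  box_mk (TrL.c (I.pos (nat_lit 0) (nat_lit 0)) T3.l12
  (TrL.c (I.pos (nat_lit 0) (nat_lit 0)) T1.l8
  (TrL.c (I.pos (nat_lit 0) (nat_lit 111196574)) (xR T3.l9 T3.l9)
  (TrL.c (I.pos (nat_lit 0) (nat_lit 77433728)) T1.l9
  (TrL.c (I.pos (nat_lit 0) (nat_lit 0)) T1.l12
  (TrL.c (I.pos (nat_lit 0) (nat_lit 0)) T3.l10
  (TrL.c (I.mix (nat_lit 29511666) (nat_lit 77433728)) (xR T1.l11 T1.l11)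
  (TrL.c (I.mix (nat_lit 29511666) (nat_lit 46070178)) T3.l11
  TrL.n)))))))) (by decide +kernel)
theorem bx5_6 : BoxOK sI cl7 cl5 cl4 t3 t1 b5_6 :=
  box_mk (TrL.c (I.pos (nat_lit 0) (nat_lit 0)) T1.l13
  (TrL.c (I.pos (nat_lit 0) (nat_lit 0)) T3.l9
  (TrL.c (I.mix (nat_lit 29511666) (nat_lit 77433728)) T1.l14
  (TrL.c (I.mix (nat_lit 29511666) (nat_lit 46070178)) T3.l4
  TrL.n)))) (by decide +kernel)
theorem bx5_7 : BoxOK sI cl7 cl5 cl4 t3 t1 b5_7 :=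
  box_mk (TrL.c (I.pos (nat_lit 0) (nat_lit 0)) T3.l15
  (TrL.c (I.pos (nat_lit 0) (nat_lit 0)) T1.l8
  (TrL.c (I.pos (nat_lit 0) (nat_lit 111196574)) (xR T3.l9 T3.l9)
  (TrL.c (I.pos (nat_lit 0) (nat_lit 77433728)) T1.l9
  (TrL.c (I.pos (nat_lit 0) (nat_lit 0)) T1.l15
  (TrL.c (I.pos (nat_lit 0) (nat_lit 0)) T3.l10
  (TrL.c (I.mix (nat_lit 29511666) (nat_lit 77433728)) (xR T1.l11 T1.l11)
  (TrL.c (I.mix (nat_lit 29511666) (nat_lit 46070178)) T3.l11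
  TrL.n)))))))) (by decide +kernel)
theorem bx5_8 : BoxOK sI cl7 cl5 cl4 t3 t1 b5_8 :=
  box_mk (TrL.c (I.pos (nat_lit 0) (nat_lit 0)) (xb (xa (xb (xs T3.l0 (xa (xb T3.l0 T3.l0) (xb T3.l0 T3.l0))) (xa T3.l0 T3.l0)) (xb (xs (xa T3.l0 T3.l0) (xa (xb T3.l0 T3.l0) (xb T3.l0 T3.l0))) T3.l0)) (xa (xb T3.l15 T3.l15) (xb T3.l0 T3.l0)))
  (TrL.c (I.pos (nat_lit 0) (nat_lit 0)) (xb (xk T1.l8 T1.l8) (xk T1.l8 T1.l8))
  (TrL.c (I.pos (nat_lit 0) (nat_lit 111196574)) (xR T3.l9 T3.l9)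
  (TrL.c (I.pos (nat_lit 0) (nat_lit 77433728)) T1.l9
  (TrL.c (I.pos (nat_lit 0) (nat_lit 0)) (xb (xk T1.l15 T1.l15) (xk T1.l15 T1.l15))
  (TrL.c (I.pos (nat_lit 0) (nat_lit 0)) T3.l10
  (TrL.c (I.mix (nat_lit 29511666) (nat_lit 77433728)) (xR T1.l11 T1.l1)
  (TrL.c (I.mix (nat_lit 29511666) (nat_lit 46070178)) T3.l11
  TrL.n)))))))) (by decide +kernel)
theorem bx5_9 : BoxOK sI cl7 cl5 cl4 t3 t1 b5_9 :=
  box_mk (TrL.c (I.pos (nat_lit 0) (nat_lit 0)) (xa (xb T3.l12 T3.l12) T3.l12)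
  (TrL.c (I.pos (nat_lit 0) (nat_lit 0)) T1.l8
  (TrL.c (I.pos (nat_lit 0) (nat_lit 111196574)) T3.l9
  (TrL.c (I.pos (nat_lit 0) (nat_lit 77433728)) T1.l9
  (TrL.c (I.pos (nat_lit 0) (nat_lit 0)) T1.l12
  (TrL.c (I.pos (nat_lit 0) (nat_lit 0)) T3.l10
  (TrL.c (I.mix (nat_lit 29511666) (nat_lit 77433728)) T1.l11
  (TrL.c (I.mix (nat_lit 29511666) (nat_lit 46070178)) T3.l11
  TrL.n)))))))) (by decide +kernel)
theorem bx5_10 : BoxOK sI cl7 cl5 cl4 t3 t1 b5_10 :=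
  box_mk (TrL.c (I.pos (nat_lit 0) (nat_lit 0)) (xb T3.l12 T3.l12)
  (TrL.c (I.pos (nat_lit 0) (nat_lit 0)) (xb T1.l8 T1.l8)
  (TrL.c (I.pos (nat_lit 0) (nat_lit 111196574)) T3.l9
  (TrL.c (I.pos (nat_lit 0) (nat_lit 77433728)) T1.l9
  (TrL.c (I.pos (nat_lit 0) (nat_lit 0)) (xb T1.l12 T1.l12)
  (TrL.c (I.pos (nat_lit 0) (nat_lit 0)) T3.l10
  (TrL.c (I.mix (nat_lit 29511666) (nat_lit 77433728)) (xR T1.l11 T1.l11)
  (TrL.c (I.mix (nat_lit 29511666) (nat_lit 46070178)) T3.l4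
  TrL.n)))))))) (by decide +kernel)
theorem bx5_11 : BoxOK sI cl7 cl5 cl4 t3 t1 b5_11 :=
  box_mk (TrL.c (I.pos (nat_lit 0) (nat_lit 0)) T1.l8
  (TrL.c (I.pos (nat_lit 0) (nat_lit 0)) T3.l9
  (TrL.c (I.mix (nat_lit 29511666) (nat_lit 77433728)) T1.l14
  (TrL.c (I.mix (nat_lit 29511666) (nat_lit 46070178)) T3.l14
  TrL.n)))) (by decide +kernel)
theorem bx5_12 : BoxOK sI cl7 cl5 cl4 t3 t1 b5_12 :=
  box_mk (TrL.c (I.pos (nat_lit 0) (nat_lit 0)) (xa (xb T3.l0 (xa T3.l0 T3.l0)) (xb (xa T3.l0 T3.l0) (xa T3.l0 T3.l0)))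
  (TrL.c (I.pos (nat_lit 0) (nat_lit 0)) (xa (xb (xa T1.l8 (xk T1.l8 T1.l8)) (xa T1.l8 (xk T1.l8 T1.l8))) (xb (xk T1.l2 T1.l2) (xk (xa T1.l2 T1.l2) (xa T1.l8 T1.l2))))
  (TrL.c (I.pos (nat_lit 0) (nat_lit 111196574)) (xR T3.l9 T3.l9)
  (TrL.c (I.pos (nat_lit 0) (nat_lit 77433728)) (xR T1.l9 (xR T1.l9 T1.l9))
  (TrL.c (I.pos (nat_lit 0) (nat_lit 0)) (xa (xb (xa (xk T1.l10 T1.l10) (xk (xb T1.l10 T1.l10) (xb T1.l10 T1.l10))) (xa T1.l10 T1.l10)) (xb (xk (xa (xb (xa T1.l10 T1.l10) T1.l10) (xb (xk (xa T1.l10 T1.l10) (xa T1.l10 T1.l10)) (xa T1.l10 T1.l10))) (xa (xb (xa T1.l10 T1.l10) T1.l10) (xb (xa T1.l10 (xk T1.l10 T1.l10)) (xa T1.l10 T1.l10)))) (xa (xk (xb T1.l10 T1.l10) T1.l10) (xk (xb (xa T1.l10 (xk T1.l10 T1.l10)) (xk (xa T1.l10 T1.l10) (xa T1.l10 T1.l10))) (xb (xa T1.l10 (xk T1.l10 T1.l10)) (xk (xa T1.l10 T1.l10) (xa T1.l10 T1.l10)))))))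
  (TrL.c (I.pos (nat_lit 0) (nat_lit 0)) (xa (xb T3.l10 T3.l10) (xk (xb T3.l1 (xa T3.l10 T3.l10)) (xb (xa T3.l10 T3.l10) (xa T3.l10 T3.l10))))
  (TrL.c (I.mix (nat_lit 29511666) (nat_lit 77433728)) (xR T1.l11 (xR T1.l11 (xR T1.l11 (xa T1.l11 T1.l11))))
  (TrL.c (I.mix (nat_lit 29511666) (nat_lit 46070178)) T3.l11
  TrL.n)))))))) (by decide +kernel)
theorem bx5_13 : BoxOK sI cl7 cl5 cl4 t3 t1 b5_13 :=
  box_mk (TrL.c (I.pos (nat_lit 0) (nat_lit 0)) (xa (xb (xb T3.l15 T3.l15) (xb T3.l15 T3.l0)) (xb (xb (xa T3.l0 T3.l0) (xa T3.l0 T3.l0)) (xs T3.l0 (xb T3.l0 T3.l0))))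
  (TrL.c (I.pos (nat_lit 0) (nat_lit 0)) (xa (xk T1.l8 T1.l8) (xk T1.l8 T1.l8))
  (TrL.c (I.pos (nat_lit 0) (nat_lit 111196574)) (xR T3.l9 T3.l9)
  (TrL.c (I.pos (nat_lit 0) (nat_lit 77433728)) T1.l9
  (TrL.c (I.pos (nat_lit 0) (nat_lit 0)) (xa (xk T1.l10 T1.l10) (xk T1.l10 (xb T1.l10 T1.l10)))
  (TrL.c (I.pos (nat_lit 0) (nat_lit 0)) T3.l10
  (TrL.c (I.mix (nat_lit 29511666) (nat_lit 77433728)) (xR T1.l11 T1.l11)
  (TrL.c (I.mix (nat_lit 29511666) (nat_lit 46070178)) T3.l11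
  TrL.n)))))))) (by decide +kernel)
theorem sv5 : StarV sI cl7 cl5 cl4 t3 t1 t5 :=
  (bt_n (bt_n (bt_n (bt_b bx5_0) (bt_n (bt_b bx5_1) (bt_b bx5_2))) (bt_n (bt_n (bt_b bx5_3) (bt_b bx5_4)) (bt_n (bt_b bx5_5) (bt_b bx5_6)))) (bt_n (bt_n (bt_b bx5_7) (bt_n (bt_b bx5_8) (bt_b bx5_9))) (bt_n (bt_n (bt_b bx5_10) (bt_b bx5_11)) (bt_n (bt_b bx5_12) (bt_b bx5_13)))))
def S5 : StarD := StarD.mk cl7 cl5 cl4 3 1 t5
def G : List StarD := [S0, S1, S2, S3, S4, S5]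
theorem so0 : StarOK sI G S0 :=
  star_mk (by decide) (by decide) rfl rfl rfl rfl rfl rfl (rfl : _ = t2) (rfl : _ = t4)
  (st_mk (Pth.l (Pth.l (Pth.l Pth.z))) (nat_lit 251797136) (nat_lit 254538309) (by decide +kernel))
  (st_mk (Pth.l (Pth.l (Pth.l Pth.z))) (nat_lit 291244334) (nat_lit 294993514) (by decide +kernel))
  (st_mk (Pth.l (Pth.l (Pth.l Pth.z))) (nat_lit 337719225) (nat_lit 342899601) (by decide +kernel)) sv0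
theorem so1 : StarOK sI G S1 :=
  star_mk (by decide) (by decide) rfl rfl rfl rfl rfl rfl (rfl : _ = t4) (rfl : _ = t2)
  (st_mk (Pth.l (Pth.l (Pth.l (Pth.l Pth.z)))) (nat_lit 146442603) (nat_lit 170668201) (by decide +kernel))
  (st_mk (Pth.l (Pth.l (Pth.l (Pth.l Pth.z)))) (nat_lit 185117277) (nat_lit 210362611) (by decide +kernel))
  (st_mk (Pth.l (Pth.l (Pth.l (Pth.l Pth.z)))) (nat_lit 230988063) (nat_lit 257670188) (by decide +kernel)) sv1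
theorem so2 : StarOK sI G S2 :=
  star_mk (by decide) (by decide) rfl rfl rfl rfl rfl rfl (rfl : _ = t0) (rfl : _ = t5)
  (st_mk (Pth.l (Pth.l (Pth.l Pth.z))) (nat_lit 381374263) (nat_lit 384600275) (by decide +kernel))
  (st_mk (Pth.l (Pth.l (Pth.l Pth.z))) (nat_lit 419714998) (nat_lit 423664157) (by decide +kernel))
  (st_mk (Pth.l (Pth.l (Pth.l Pth.z))) (nat_lit 464411563) (nat_lit 469309136) (by decide +kernel)) sv2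
theorem so3 : StarOK sI G S3 :=
  star_mk (by decide) (by decide) rfl rfl rfl rfl rfl rfl (rfl : _ = t5) (rfl : _ = t0)
  (st_mk (Pth.l (Pth.l (Pth.l (Pth.l Pth.z)))) (nat_lit 144373630) (nat_lit 167730517) (by decide +kernel))
  (st_mk (Pth.l (Pth.l (Pth.l (Pth.l Pth.z)))) (nat_lit 181781343) (nat_lit 205785810) (by decide +kernel))
  (st_mk (Pth.l (Pth.l (Pth.l (Pth.l Pth.z)))) (nat_lit 225719888) (nat_lit 250609134) (by decide +kernel)) sv3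
theorem so4 : StarOK sI G S4 :=
  star_mk (by decide) (by decide) rfl rfl rfl rfl rfl rfl (rfl : _ = t1) (rfl : _ = t3)
  (st_mk (Pth.l (Pth.l (Pth.l Pth.z))) (nat_lit 371142101) (nat_lit 376409437) (by decide +kernel))
  (st_mk (Pth.l (Pth.l (Pth.l Pth.z))) (nat_lit 407447369) (nat_lit 413487446) (by decide +kernel))
  (st_mk (Pth.l (Pth.l (Pth.l Pth.z))) (nat_lit 449508603) (nat_lit 456543365) (by decide +kernel)) sv4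
theorem so5 : StarOK sI G S5 :=
  star_mk (by decide) (by decide) rfl rfl rfl rfl rfl rfl (rfl : _ = t3) (rfl : _ = t1)
  (st_mk (Pth.l (Pth.l (Pth.l Pth.z))) (nat_lit 241921997) (nat_lit 244515117) (by decide +kernel))
  (st_mk (Pth.l (Pth.l (Pth.l Pth.z))) (nat_lit 277519231) (nat_lit 281864494) (by decide +kernel))
  (st_mk (Pth.l (Pth.l (Pth.l Pth.z))) (nat_lit 319435315) (nat_lit 324697004) (by decide +kernel)) sv5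
theorem ok : GroupOK (nat_lit 150274048) (nat_lit 209387520) G := grp_mk (allS_c so0 (allS_c so1 (allS_c so2 (allS_c so3 (allS_c so4 (allS_c so5 allS_n))))))
theorem cov : GCov G cl4 cl5 cl7 := cov_mk
  ⟨0, by decide, rfl, rfl, rfl⟩ ⟨1, by decide, rfl, rfl, rfl⟩ ⟨2, by decide, rfl, rfl, rfl⟩ ⟨3, by decide, rfl, rfl, rfl⟩ ⟨4, by decide, rfl, rfl, rfl⟩ ⟨5, by decide, rfl, rfl, rfl⟩
end Q124_2

namespace Q124_3
def sI : I := I.pos (nat_lit 209321984) (nat_lit 238944256)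
def b0_0 : Bx := Bx.mk (St.mk (I.pos (nat_lit 152174592) (nat_lit 225542144)) (I.mix (nat_lit 2277376) (nat_lit 79052800)) (I.mix (nat_lit 10911744) (nat_lit 68730880)) (I.pos (nat_lit 250101760) (nat_lit 369770496)) (I.mix (nat_lit 158154752) (nat_lit 114819072)) (I.mix (nat_lit 95485952) (nat_lit 102580224)) (I.mix (nat_lit 168443904) (nat_lit 159498240)))
  false (nat_lit 47751745)
def b0_1 : Bx := Bx.mk (St.mk (I.pos (nat_lit 25903104) (nat_lit 67403776)) (I.mix (nat_lit 10960896) (nat_lit 47808512)) (I.neg (nat_lit 12877824) (nat_lit 43565056)) (I.pos (nat_lit 141901824) (nat_lit 164052992)) (I.mix (nat_lit 66617344) (nat_lit 97320960)) (I.mix (nat_lit 78561280) (nat_lit 55918592)) (I.mix (nat_lit 42287104) (nat_lit 27607040)))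
  false (nat_lit 0)
def b0_2 : Bx := Bx.mk (St.mk (I.pos (nat_lit 47874048) (nat_lit 91209728)) (I.mix (nat_lit 59850752) (nat_lit 13156352)) (I.neg (nat_lit 28606464) (nat_lit 73760768)) (I.pos (nat_lit 145211392) (nat_lit 176766976)) (I.mix (nat_lit 131661824) (nat_lit 64159744)) (I.mix (nat_lit 57720832) (nat_lit 107446272)) (I.mix (nat_lit 40304640) (nat_lit 67092480)))
  false (nat_lit 0)
def b0_3 : Bx := Bx.mk (St.mk (I.neg (nat_lit 25903104) (nat_lit 67403776)) (I.mix (nat_lit 47808512) (nat_lit 10960896)) (I.neg (nat_lit 12877824) (nat_lit 43581440)) (I.pos (nat_lit 141918208) (nat_lit 164052992)) (I.mix (nat_lit 97320960) (nat_lit 66617344)) (I.mix (nat_lit 55918592) (nat_lit 78577664)) (I.mix (nat_lit 42287104) (nat_lit 27623424)))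
  true (nat_lit 0)
def b0_4 : Bx := Bx.mk (St.mk (I.pos (nat_lit 33095680) (nat_lit 65126400)) (I.mix (nat_lit 13238272) (nat_lit 22773760)) (I.neg (nat_lit 22839296) (nat_lit 43810816)) (I.pos (nat_lit 141672448) (nat_lit 160235520)) (I.mix (nat_lit 64765952) (nat_lit 51970048)) (I.mix (nat_lit 49348608) (nat_lit 45694976)) (I.mix (nat_lit 25018368) (nat_lit 27688960)))
  false (nat_lit 0)
def b0_5 : Bx := Bx.mk (St.mk (I.pos (nat_lit 203800576) (nat_lit 250314752)) (I.mix (nat_lit 18399232) (nat_lit 17481728)) (I.neg (nat_lit 51347456) (nat_lit 116736000)) (I.pos (nat_lit 316129280) (nat_lit 397705216)) (I.mix (nat_lit 126779392) (nat_lit 30720000)) (I.mix (nat_lit 72433664) (nat_lit 74399744)) (I.mix (nat_lit 98091008) (nat_lit 146866176)))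
  false (nat_lit 0)
def b0_6 : Bx := Bx.mk (St.mk (I.pos (nat_lit 173604864) (nat_lit 244629504)) (I.mix (nat_lit 17907712) (nat_lit 76316672)) (I.mix (nat_lit 113197056) (nat_lit 54444032)) (I.pos (nat_lit 295714816) (nat_lit 392101888)) (I.mix (nat_lit 146849792) (nat_lit 135266304)) (I.mix (nat_lit 134479872) (nat_lit 118702080)) (I.mix (nat_lit 236535808) (nat_lit 179027968)))
  false (nat_lit 49906013)
def b0_7 : Bx := Bx.mk (St.mk (I.pos (nat_lit 53510144) (nat_lit 149815296)) (I.neg (nat_lit 163840) (nat_lit 63569920)) (I.neg (nat_lit 18776064) (nat_lit 77627392)) (I.pos (nat_lit 152731648) (nat_lit 233013248)) (I.mix (nat_lit 113672192) (nat_lit 67616768)) (I.mix (nat_lit 54394880) (nat_lit 87769088)) (I.mix (nat_lit 44515328) (nat_lit 78331904)))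
  false (nat_lit 0)
def b0_8 : Bx := Bx.mk (St.mk (I.mix (nat_lit 45105152) (nat_lit 10125312)) (I.mix (nat_lit 40632320) (nat_lit 11026432)) (I.neg (nat_lit 14303232) (nat_lit 23166976)) (I.pos (nat_lit 141541376) (nat_lit 156073984)) (I.mix (nat_lit 60145664) (nat_lit 51724288)) (I.mix (nat_lit 34684928) (nat_lit 52428800)) (I.mix (nat_lit 11665408) (nat_lit 10944512)))
  true (nat_lit 0)
def b0_9 : Bx := Bx.mk (St.mk (I.pos (nat_lit 148357120) (nat_lit 200310784)) (I.pos (nat_lit 2293760) (nat_lit 62504960)) (I.mix (nat_lit 13189120) (nat_lit 54968320)) (I.pos (nat_lit 246906880) (nat_lit 315850752)) (I.mix (nat_lit 138477568) (nat_lit 55902208)) (I.mix (nat_lit 129269760) (nat_lit 81985536)) (I.mix (nat_lit 123551744) (nat_lit 85409792)))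
  false (nat_lit 17946404)
def b0_10 : Bx := Bx.mk (St.mk (I.mix (nat_lit 10108928) (nat_lit 45105152)) (I.mix (nat_lit 11026432) (nat_lit 40632320)) (I.neg (nat_lit 14303232) (nat_lit 23166976)) (I.pos (nat_lit 141541376) (nat_lit 156073984)) (I.mix (nat_lit 51724288) (nat_lit 60145664)) (I.mix (nat_lit 52428800) (nat_lit 34684928)) (I.mix (nat_lit 11665408) (nat_lit 10944512)))
  false (nat_lit 0)
def b0_11 : Bx := Bx.mk (St.mk (I.pos (nat_lit 113491968) (nat_lit 191102976)) (I.mix (nat_lit 36913152) (nat_lit 17498112)) (I.neg (nat_lit 622592) (nat_lit 58785792)) (I.pos (nat_lit 196116480) (nat_lit 286670848)) (I.mix (nat_lit 79085568) (nat_lit 89096192)) (I.mix (nat_lit 86671360) (nat_lit 80052224)) (I.mix (nat_lit 88653824) (nat_lit 70352896)))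
  false (nat_lit 0)
def b0_12 : Bx := Bx.mk (St.mk (I.pos (nat_lit 145211392) (nat_lit 196460544)) (I.mix (nat_lit 13074432) (nat_lit 39075840)) (I.mix (nat_lit 35700736) (nat_lit 29507584)) (I.pos (nat_lit 244039680) (nat_lit 294666240)) (I.mix (nat_lit 135692288) (nat_lit 118226944)) (I.mix (nat_lit 145489920) (nat_lit 101466112)) (I.mix (nat_lit 148078592) (nat_lit 89735168)))
  false (nat_lit 0)
def t0 : BTr := (BTr.n (BTr.n (BTr.n (BTr.b b0_0) (BTr.n (BTr.b b0_1) (BTr.b b0_2))) (BTr.n (BTr.b b0_3) (BTr.n (BTr.b b0_4) (BTr.b b0_5)))) (BTr.n (BTr.n (BTr.b b0_6) (BTr.n (BTr.b b0_7) (BTr.b b0_8))) (BTr.n (BTr.n (BTr.b b0_9) (BTr.b b0_10)) (BTr.n (BTr.b b0_11) (BTr.b b0_12)))))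
namespace T0
def l0 : Tr := Tr.L (Pth.l (Pth.l (Pth.l Pth.z)))
def l1 : Tr := Tr.L (Pth.l (Pth.l (Pth.r (Pth.l Pth.z))))
def l2 : Tr := Tr.L (Pth.l (Pth.l (Pth.r (Pth.r Pth.z))))
def l3 : Tr := Tr.L (Pth.l (Pth.r (Pth.l Pth.z)))
def l4 : Tr := Tr.L (Pth.l (Pth.r (Pth.r (Pth.l Pth.z))))
def l5 : Tr := Tr.L (Pth.l (Pth.r (Pth.r (Pth.r Pth.z))))
def l6 : Tr := Tr.L (Pth.r (Pth.l (Pth.l Pth.z)))
def l7 : Tr := Tr.L (Pth.r (Pth.l (Pth.r (Pth.l Pth.z))))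
def l8 : Tr := Tr.L (Pth.r (Pth.l (Pth.r (Pth.r Pth.z))))
def l9 : Tr := Tr.L (Pth.r (Pth.r (Pth.l (Pth.l Pth.z))))
def l10 : Tr := Tr.L (Pth.r (Pth.r (Pth.l (Pth.r Pth.z))))
def l11 : Tr := Tr.L (Pth.r (Pth.r (Pth.r (Pth.l Pth.z))))
def l12 : Tr := Tr.L (Pth.r (Pth.r (Pth.r (Pth.r Pth.z))))
end T0
def b1_0 : Bx := Bx.mk (St.mk (I.pos (nat_lit 154796032) (nat_lit 229474304)) (I.mix (nat_lit 1753088) (nat_lit 59736064)) (I.mix (nat_lit 2310144) (nat_lit 79970304)) (I.pos (nat_lit 145817600) (nat_lit 279412736)) (I.mix (nat_lit 142639104) (nat_lit 105037824)) (I.mix (nat_lit 100237312) (nat_lit 94044160)) (I.mix (nat_lit 156958720) (nat_lit 140476416)))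
  false (nat_lit 27540334)
def b1_1 : Bx := Bx.mk (St.mk (I.mix (nat_lit 20627456) (nat_lit 114540544)) (I.mix (nat_lit 7192576) (nat_lit 32243712)) (I.mix (nat_lit 19087360) (nat_lit 13205504)) (I.pos (nat_lit 42663936) (nat_lit 113672192)) (I.mix (nat_lit 53460992) (nat_lit 56803328)) (I.mix (nat_lit 46972928) (nat_lit 37912576)) (I.mix (nat_lit 35586048) (nat_lit 24510464)))
  false (nat_lit 0)
def b1_2 : Bx := Bx.mk (St.mk (I.pos (nat_lit 87228416) (nat_lit 133251072)) (I.mix (nat_lit 54984704) (nat_lit 10649600)) (I.neg (nat_lit 4014080) (nat_lit 59473920)) (I.pos (nat_lit 77856768) (nat_lit 130809856)) (I.mix (nat_lit 118456320) (nat_lit 58998784)) (I.mix (nat_lit 52264960) (nat_lit 108183552)) (I.mix (nat_lit 37306368) (nat_lit 79118336)))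
  false (nat_lit 0)
def b1_3 : Bx := Bx.mk (St.mk (I.mix (nat_lit 31768576) (nat_lit 66191360)) (I.mix (nat_lit 31506432) (nat_lit 5341184)) (I.neg (nat_lit 770048) (nat_lit 21446656)) (I.pos (nat_lit 43614208) (nat_lit 81657856)) (I.mix (nat_lit 52985856) (nat_lit 31506432)) (I.mix (nat_lit 25608192) (nat_lit 43188224)) (I.mix (nat_lit 12238848) (nat_lit 16531456)))
  false (nat_lit 0)
def b1_4 : Bx := Bx.mk (St.mk (I.pos (nat_lit 181174272) (nat_lit 241418240)) (I.mix (nat_lit 16056320) (nat_lit 57769984)) (I.mix (nat_lit 60293120) (nat_lit 76414976)) (I.pos (nat_lit 210239488) (nat_lit 294879232)) (I.mix (nat_lit 141443072) (nat_lit 115556352)) (I.mix (nat_lit 122290176) (nat_lit 104333312)) (I.mix (nat_lit 205144064) (nat_lit 167739392)))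
  false (nat_lit 51495759)
def b1_5 : Bx := Bx.mk (St.mk (I.mix (nat_lit 43335680) (nat_lit 50642944)) (I.mix (nat_lit 6979584) (nat_lit 8765440)) (I.neg (nat_lit 3702784) (nat_lit 10633216)) (I.pos (nat_lit 44122112) (nat_lit 72400896)) (I.mix (nat_lit 27836416) (nat_lit 20348928)) (I.mix (nat_lit 20676608) (nat_lit 19398656)) (I.mix (nat_lit 5750784) (nat_lit 5898240)))
  false (nat_lit 0)
def b1_6 : Bx := Bx.mk (St.mk (I.pos (nat_lit 83132416) (nat_lit 111755264)) (I.mix (nat_lit 11550720) (nat_lit 9633792)) (I.neg (nat_lit 3620864) (nat_lit 22413312)) (I.pos (nat_lit 75300864) (nat_lit 112721920)) (I.mix (nat_lit 50003968) (nat_lit 33406976)) (I.mix (nat_lit 32079872) (nat_lit 31719424)) (I.mix (nat_lit 23461888) (nat_lit 24772608)))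
  false (nat_lit 0)
def b1_7 : Bx := Bx.mk (St.mk (I.pos (nat_lit 200491008) (nat_lit 252575744)) (I.mix (nat_lit 16203776) (nat_lit 19120128)) (I.neg (nat_lit 229376) (nat_lit 66945024)) (I.pos (nat_lit 228556800) (nat_lit 326533120)) (I.mix (nat_lit 125337600) (nat_lit 42778624)) (I.mix (nat_lit 66682880) (nat_lit 70893568)) (I.mix (nat_lit 108052480) (nat_lit 132218880)))
  false (nat_lit 0)
def b1_8 : Bx := Bx.mk (St.mk (I.pos (nat_lit 95944704) (nat_lit 164544512)) (I.neg (nat_lit 65536) (nat_lit 54542336)) (I.neg (nat_lit 9519104) (nat_lit 60391424)) (I.pos (nat_lit 94420992) (nat_lit 171884544)) (I.mix (nat_lit 96256000) (nat_lit 62504960)) (I.mix (nat_lit 52871168) (nat_lit 74907648)) (I.mix (nat_lit 41664512) (nat_lit 72433664)))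
  false (nat_lit 28654516)
def b1_9 : Bx := Bx.mk (St.mk (I.mix (nat_lit 16023552) (nat_lit 81739776)) (I.mix (nat_lit 30556160) (nat_lit 2031616)) (I.neg (nat_lit 1359872) (nat_lit 22265856)) (I.pos (nat_lit 42467328) (nat_lit 89997312)) (I.mix (nat_lit 46546944) (nat_lit 35848192)) (I.mix (nat_lit 26787840) (nat_lit 38125568)) (I.mix (nat_lit 15073280) (nat_lit 20922368)))
  false (nat_lit 0)
def b1_10 : Bx := Bx.mk (St.mk (I.pos (nat_lit 155926528) (nat_lit 208535552)) (I.mix (nat_lit 14401536) (nat_lit 55181312)) (I.mix (nat_lit 7913472) (nat_lit 76349440)) (I.pos (nat_lit 148832256) (nat_lit 244072448)) (I.mix (nat_lit 149323776) (nat_lit 59064320)) (I.mix (nat_lit 135856128) (nat_lit 82280448)) (I.mix (nat_lit 142524416) (nat_lit 84983808)))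
  false (nat_lit 7688771)
def b1_11 : Bx := Bx.mk (St.mk (I.mix (nat_lit 35930112) (nat_lit 107528192)) (I.mix (nat_lit 10223616) (nat_lit 34717696)) (I.mix (nat_lit 12648448) (nat_lit 16384000)) (I.pos (nat_lit 42991616) (nat_lit 108412928)) (I.mix (nat_lit 54558720) (nat_lit 41418752)) (I.mix (nat_lit 47333376) (nat_lit 32342016)) (I.mix (nat_lit 26083328) (nat_lit 19005440)))
  false (nat_lit 0)
def b1_12 : Bx := Bx.mk (St.mk (I.pos (nat_lit 140476416) (nat_lit 198410240)) (I.mix (nat_lit 38092800) (nat_lit 7569408)) (I.mix (nat_lit 46530560) (nat_lit 9781248)) (I.pos (nat_lit 129548288) (nat_lit 219463680)) (I.mix (nat_lit 79740928) (nat_lit 81264640)) (I.mix (nat_lit 84705280) (nat_lit 78725120)) (I.mix (nat_lit 90570752) (nat_lit 78970880)))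
  false (nat_lit 52148466)
def b1_13 : Bx := Bx.mk (St.mk (I.pos (nat_lit 136642560) (nat_lit 164593664)) (I.neg (nat_lit 10862592) (nat_lit 38273024)) (I.neg (nat_lit 13778944) (nat_lit 47251456)) (I.pos (nat_lit 126271488) (nat_lit 172113920)) (I.mix (nat_lit 51298304) (nat_lit 31162368)) (I.mix (nat_lit 25935872) (nat_lit 35323904)) (I.mix (nat_lit 28704768) (nat_lit 39862272)))
  false (nat_lit 0)
def b1_14 : Bx := Bx.mk (St.mk (I.mix (nat_lit 38584320) (nat_lit 81428480)) (I.mix (nat_lit 11517952) (nat_lit 2768896)) (I.neg (nat_lit 1015808) (nat_lit 11829248)) (I.pos (nat_lit 45563904) (nat_lit 88752128)) (I.mix (nat_lit 7045120) (nat_lit 10174464)) (I.mix (nat_lit 4587520) (nat_lit 5505024)) (I.mix (nat_lit 2162688) (nat_lit 2670592)))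
  false (nat_lit 0)
def b1_15 : Bx := Bx.mk (St.mk (I.pos (nat_lit 155320320) (nat_lit 198082560)) (I.mix (nat_lit 21889024) (nat_lit 24035328)) (I.mix (nat_lit 20021248) (nat_lit 36208640)) (I.pos (nat_lit 147898368) (nat_lit 214925312)) (I.mix (nat_lit 119160832) (nat_lit 85606400)) (I.mix (nat_lit 123273216) (nat_lit 83099648)) (I.mix (nat_lit 131612672) (nat_lit 85164032)))
  false (nat_lit 38259504)
def t1 : BTr := (BTr.n (BTr.n (BTr.n (BTr.n (BTr.b b1_0) (BTr.b b1_1)) (BTr.n (BTr.b b1_2) (BTr.b b1_3))) (BTr.n (BTr.n (BTr.b b1_4) (BTr.b b1_5)) (BTr.n (BTr.b b1_6) (BTr.b b1_7)))) (BTr.n (BTr.n (BTr.n (BTr.b b1_8) (BTr.b b1_9)) (BTr.n (BTr.b b1_10) (BTr.b b1_11))) (BTr.n (BTr.n (BTr.b b1_12) (BTr.b b1_13)) (BTr.n (BTr.b b1_14) (BTr.b b1_15)))))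
namespace T1
def l0 : Tr := Tr.L (Pth.l (Pth.l (Pth.l (Pth.l Pth.z))))
def l1 : Tr := Tr.L (Pth.l (Pth.l (Pth.l (Pth.r Pth.z))))
def l2 : Tr := Tr.L (Pth.l (Pth.l (Pth.r (Pth.l Pth.z))))
def l3 : Tr := Tr.L (Pth.l (Pth.l (Pth.r (Pth.r Pth.z))))
def l4 : Tr := Tr.L (Pth.l (Pth.r (Pth.l (Pth.l Pth.z))))
def l5 : Tr := Tr.L (Pth.l (Pth.r (Pth.l (Pth.r Pth.z))))
def l6 : Tr := Tr.L (Pth.l (Pth.r (Pth.r (Pth.l Pth.z))))
def l7 : Tr := Tr.L (Pth.l (Pth.r (Pth.r (Pth.r Pth.z))))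
def l8 : Tr := Tr.L (Pth.r (Pth.l (Pth.l (Pth.l Pth.z))))
def l9 : Tr := Tr.L (Pth.r (Pth.l (Pth.l (Pth.r Pth.z))))
def l10 : Tr := Tr.L (Pth.r (Pth.l (Pth.r (Pth.l Pth.z))))
def l11 : Tr := Tr.L (Pth.r (Pth.l (Pth.r (Pth.r Pth.z))))
def l12 : Tr := Tr.L (Pth.r (Pth.r (Pth.l (Pth.l Pth.z))))
def l13 : Tr := Tr.L (Pth.r (Pth.r (Pth.l (Pth.r Pth.z))))
def l14 : Tr := Tr.L (Pth.r (Pth.r (Pth.r (Pth.l Pth.z))))
def l15 : Tr := Tr.L (Pth.r (Pth.r (Pth.r (Pth.r Pth.z))))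
end T1
def b2_0 : Bx := Bx.mk (St.mk (I.pos (nat_lit 134414336) (nat_lit 217300992)) (I.mix (nat_lit 2818048) (nat_lit 99811328)) (I.mix (nat_lit 8224768) (nat_lit 82821120)) (I.pos (nat_lit 380452864) (nat_lit 479674368)) (I.mix (nat_lit 198639616) (nat_lit 126877696)) (I.mix (nat_lit 123797504) (nat_lit 118751232)) (I.mix (nat_lit 157990912) (nat_lit 171294720)))
  false (nat_lit 80245442)
def b2_1 : Bx := Bx.mk (St.mk (I.mix (nat_lit 48709632) (nat_lit 12877824)) (I.mix (nat_lit 7602176) (nat_lit 85557248)) (I.neg (nat_lit 55246848) (nat_lit 82624512)) (I.pos (nat_lit 263045120) (nat_lit 292634624)) (I.mix (nat_lit 59654144) (nat_lit 148111360)) (I.mix (nat_lit 104382464) (nat_lit 86589440)) (I.mix (nat_lit 61833216) (nat_lit 47497216)))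
  true (nat_lit 0)
def b2_2 : Bx := Bx.mk (St.mk (I.pos (nat_lit 2129920) (nat_lit 48726016)) (I.neg (nat_lit 28868608) (nat_lit 85557248)) (I.neg (nat_lit 55525376) (nat_lit 82624512)) (I.pos (nat_lit 267141120) (nat_lit 292634624)) (I.mix (nat_lit 148111360) (nat_lit 59670528)) (I.mix (nat_lit 86589440) (nat_lit 104382464)) (I.mix (nat_lit 61833216) (nat_lit 47497216)))
  false (nat_lit 58537826)
def b2_3 : Bx := Bx.mk (St.mk (I.pos (nat_lit 8880128) (nat_lit 126156800)) (I.neg (nat_lit 3883008) (nat_lit 88031232)) (I.neg (nat_lit 13582336) (nat_lit 94093312)) (I.pos (nat_lit 264060928) (nat_lit 340738048)) (I.mix (nat_lit 166477824) (nat_lit 97026048)) (I.mix (nat_lit 100204544) (nat_lit 114360320)) (I.mix (nat_lit 112803840) (nat_lit 96976896)))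
  false (nat_lit 103097656)
def b2_4 : Bx := Bx.mk (St.mk (I.pos (nat_lit 83099648) (nat_lit 187285504)) (I.mix (nat_lit 39567360) (nat_lit 84967424)) (I.mix (nat_lit 48398336) (nat_lit 79052800)) (I.pos (nat_lit 301006848) (nat_lit 440025088)) (I.mix (nat_lit 204062720) (nat_lit 114229248)) (I.mix (nat_lit 171999232) (nat_lit 142475264)) (I.mix (nat_lit 179372032) (nat_lit 178634752)))
  false (nat_lit 71525769)
def b2_5 : Bx := Bx.mk (St.mk (I.neg (nat_lit 8863744) (nat_lit 126173184)) (I.pos (nat_lit 2539520) (nat_lit 88031232)) (I.neg (nat_lit 11550720) (nat_lit 94093312)) (I.pos (nat_lit 264060928) (nat_lit 340705280)) (I.mix (nat_lit 97042432) (nat_lit 166477824)) (I.mix (nat_lit 114360320) (nat_lit 100204544)) (I.mix (nat_lit 112820224) (nat_lit 96976896)))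
  true (nat_lit 0)
def b2_6 : Bx := Bx.mk (St.mk (I.pos (nat_lit 172982272) (nat_lit 270680064)) (I.mix (nat_lit 8634368) (nat_lit 54853632)) (I.neg (nat_lit 2211840) (nat_lit 142622720)) (I.pos (nat_lit 408305664) (nat_lit 563298304)) (I.mix (nat_lit 120389632) (nat_lit 107069440)) (I.mix (nat_lit 96600064) (nat_lit 84000768)) (I.mix (nat_lit 160022528) (nat_lit 146046976)))
  false (nat_lit 14540930)
def b2_7 : Bx := Bx.mk (St.mk (I.mix (nat_lit 12697600) (nat_lit 38649856)) (I.mix (nat_lit 39206912) (nat_lit 7389184)) (I.neg (nat_lit 55394304) (nat_lit 68255744)) (I.pos (nat_lit 263553024) (nat_lit 277250048)) (I.mix (nat_lit 69353472) (nat_lit 55377920)) (I.mix (nat_lit 46891008) (nat_lit 51953664)) (I.mix (nat_lit 13090816) (nat_lit 18661376)))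
  false (nat_lit 0)
def b2_8 : Bx := Bx.mk (St.mk (I.mix (nat_lit 10502144) (nat_lit 11452416)) (I.mix (nat_lit 5324800) (nat_lit 18841600)) (I.neg (nat_lit 58818560) (nat_lit 65847296)) (I.pos (nat_lit 263766016) (nat_lit 270139392)) (I.mix (nat_lit 13828096) (nat_lit 31096832)) (I.mix (nat_lit 17973248) (nat_lit 10338304)) (I.mix (nat_lit 1310720) (nat_lit 5996544)))
  true (nat_lit 0)
def b2_9 : Bx := Bx.mk (St.mk (I.pos (nat_lit 157679616) (nat_lit 221085696)) (I.pos (nat_lit 16842752) (nat_lit 92635136)) (I.mix (nat_lit 49397760) (nat_lit 62078976)) (I.pos (nat_lit 404242432) (nat_lit 474087424)) (I.mix (nat_lit 156909568) (nat_lit 103202816)) (I.mix (nat_lit 114573312) (nat_lit 91488256)) (I.mix (nat_lit 176226304) (nat_lit 142147584)))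
  false (nat_lit 45553193)
def b2_10 : Bx := Bx.mk (St.mk (I.pos (nat_lit 6701056) (nat_lit 43319296)) (I.neg (nat_lit 15269888) (nat_lit 65765376)) (I.neg (nat_lit 57458688) (nat_lit 76955648)) (I.pos (nat_lit 266076160) (nat_lit 282148864)) (I.mix (nat_lit 84623360) (nat_lit 50954240)) (I.mix (nat_lit 47759360) (nat_lit 55705600)) (I.mix (nat_lit 21364736) (nat_lit 20578304)))
  false (nat_lit 0)
def t2 : BTr := (BTr.n (BTr.n (BTr.n (BTr.b b2_0) (BTr.b b2_1)) (BTr.n (BTr.b b2_2) (BTr.n (BTr.b b2_3) (BTr.b b2_4)))) (BTr.n (BTr.n (BTr.b b2_5) (BTr.n (BTr.b b2_6) (BTr.b b2_7))) (BTr.n (BTr.b b2_8) (BTr.n (BTr.b b2_9) (BTr.b b2_10)))))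
namespace T2
def l0 : Tr := Tr.L (Pth.l (Pth.l (Pth.l Pth.z)))
def l1 : Tr := Tr.L (Pth.l (Pth.l (Pth.r Pth.z)))
def l2 : Tr := Tr.L (Pth.l (Pth.r (Pth.l Pth.z)))
def l3 : Tr := Tr.L (Pth.l (Pth.r (Pth.r (Pth.l Pth.z))))
def l4 : Tr := Tr.L (Pth.l (Pth.r (Pth.r (Pth.r Pth.z))))
def l5 : Tr := Tr.L (Pth.r (Pth.l (Pth.l Pth.z)))
def l6 : Tr := Tr.L (Pth.r (Pth.l (Pth.r (Pth.l Pth.z))))
def l7 : Tr := Tr.L (Pth.r (Pth.l (Pth.r (Pth.r Pth.z))))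
def l8 : Tr := Tr.L (Pth.r (Pth.r (Pth.l Pth.z)))
def l9 : Tr := Tr.L (Pth.r (Pth.r (Pth.r (Pth.l Pth.z))))
def l10 : Tr := Tr.L (Pth.r (Pth.r (Pth.r (Pth.r Pth.z))))
end T2
def b3_0 : Bx := Bx.mk (St.mk (I.pos (nat_lit 158892032) (nat_lit 222822400)) (I.mix (nat_lit 1540096) (nat_lit 49528832)) (I.mix (nat_lit 2850816) (nat_lit 99680256)) (I.pos (nat_lit 143835136) (nat_lit 252788736)) (I.mix (nat_lit 129024000) (nat_lit 73138176)) (I.mix (nat_lit 93503488) (nat_lit 76021760)) (I.mix (nat_lit 128253952) (nat_lit 97026048)))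
  false (nat_lit 0)
def b3_1 : Bx := Bx.mk (St.mk (I.pos (nat_lit 94420992) (nat_lit 166264832)) (I.neg (nat_lit 65536) (nat_lit 60522496)) (I.mix (nat_lit 48873472) (nat_lit 12320768)) (I.pos (nat_lit 96780288) (nat_lit 169525248)) (I.mix (nat_lit 99106816) (nat_lit 78512128)) (I.mix (nat_lit 66994176) (nat_lit 79921152)) (I.mix (nat_lit 62373888) (nat_lit 78331904)))
  false (nat_lit 48612197)
def b3_2 : Bx := Bx.mk (St.mk (I.mix (nat_lit 20332544) (nat_lit 82067456)) (I.mix (nat_lit 31686656) (nat_lit 4472832)) (I.mix (nat_lit 12304384) (nat_lit 9437184)) (I.pos (nat_lit 43515904) (nat_lit 89243648)) (I.mix (nat_lit 40615936) (nat_lit 49020928)) (I.mix (nat_lit 31932416) (nat_lit 40714240)) (I.mix (nat_lit 15368192) (nat_lit 22478848)))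
  false (nat_lit 0)
def b3_3 : Bx := Bx.mk (St.mk (I.pos (nat_lit 149340160) (nat_lit 200867840)) (I.mix (nat_lit 17022976) (nat_lit 48398336)) (I.pos (nat_lit 10911744) (nat_lit 91766784)) (I.pos (nat_lit 139083776) (nat_lit 218923008)) (I.mix (nat_lit 151552000) (nat_lit 64339968)) (I.mix (nat_lit 144539648) (nat_lit 86556672)) (I.mix (nat_lit 154337280) (nat_lit 80396288)))
  false (nat_lit 12349106)
def b3_4 : Bx := Bx.mk (St.mk (I.mix (nat_lit 35307520) (nat_lit 103350272)) (I.mix (nat_lit 12713984) (nat_lit 34471936)) (I.mix (nat_lit 2146304) (nat_lit 30605312)) (I.pos (nat_lit 43270144) (nat_lit 105693184)) (I.mix (nat_lit 74170368) (nat_lit 43040768)) (I.mix (nat_lit 63619072) (nat_lit 38273024)) (I.mix (nat_lit 34619392) (nat_lit 22724608)))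
  false (nat_lit 0)
def b3_5 : Bx := Bx.mk (St.mk (I.pos (nat_lit 148160512) (nat_lit 196132864)) (I.mix (nat_lit 44007424) (nat_lit 21659648)) (I.mix (nat_lit 26935296) (nat_lit 57540608)) (I.pos (nat_lit 135217152) (nat_lit 210288640)) (I.mix (nat_lit 146948096) (nat_lit 95158272)) (I.mix (nat_lit 139821056) (nat_lit 84574208)) (I.mix (nat_lit 145440768) (nat_lit 84131840)))
  false (nat_lit 62927908)
def b3_6 : Bx := Bx.mk (St.mk (I.mix (nat_lit 44908544) (nat_lit 84869120)) (I.mix (nat_lit 13205504) (nat_lit 8339456)) (I.mix (nat_lit 819200) (nat_lit 11812864)) (I.pos (nat_lit 44105728) (nat_lit 88768512)) (I.mix (nat_lit 34963456) (nat_lit 27017216)) (I.mix (nat_lit 22036480) (nat_lit 24608768)) (I.mix (nat_lit 12599296) (nat_lit 12943360)))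
  false (nat_lit 0)
def b3_7 : Bx := Bx.mk (St.mk (I.pos (nat_lit 127827968) (nat_lit 168787968)) (I.mix (nat_lit 39239680) (nat_lit 1753088)) (I.mix (nat_lit 20971520) (nat_lit 20742144)) (I.pos (nat_lit 121356288) (nat_lit 171376640)) (I.mix (nat_lit 87261184) (nat_lit 59211776)) (I.mix (nat_lit 48709632) (nat_lit 64815104)) (I.mix (nat_lit 52723712) (nat_lit 61784064)))
  false (nat_lit 0)
def b3_8 : Bx := Bx.mk (St.mk (I.pos (nat_lit 142934016) (nat_lit 177160192)) (I.neg (nat_lit 5996544) (nat_lit 37437440)) (I.mix (nat_lit 21594112) (nat_lit 15122432)) (I.pos (nat_lit 134201344) (nat_lit 186286080)) (I.mix (nat_lit 54525952) (nat_lit 39370752)) (I.mix (nat_lit 36159488) (nat_lit 33947648)) (I.mix (nat_lit 36667392) (nat_lit 33357824)))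
  false (nat_lit 0)
def b3_9 : Bx := Bx.mk (St.mk (I.mix (nat_lit 4341760) (nat_lit 116310016)) (I.mix (nat_lit 3620864) (nat_lit 28917760)) (I.mix (nat_lit 344064) (nat_lit 25083904)) (I.pos (nat_lit 45137920) (nat_lit 115441664)) (I.mix (nat_lit 46088192) (nat_lit 42319872)) (I.mix (nat_lit 43024384) (nat_lit 27049984)) (I.mix (nat_lit 31342592) (nat_lit 18366464)))
  false (nat_lit 0)
def b3_10 : Bx := Bx.mk (St.mk (I.pos (nat_lit 94027776) (nat_lit 141115392)) (I.mix (nat_lit 59801600) (nat_lit 4194304)) (I.mix (nat_lit 45301760) (nat_lit 6340608)) (I.pos (nat_lit 80363520) (nat_lit 139788288)) (I.mix (nat_lit 100614144) (nat_lit 54444032)) (I.mix (nat_lit 48234496) (nat_lit 83427328)) (I.mix (nat_lit 36667392) (nat_lit 56016896)))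
  false (nat_lit 12803059)
def b3_11 : Bx := Bx.mk (St.mk (I.mix (nat_lit 34701312) (nat_lit 70778880)) (I.mix (nat_lit 32227328) (nat_lit 1392640)) (I.mix (nat_lit 10485760) (nat_lit 7536640)) (I.pos (nat_lit 43319296) (nat_lit 84033536)) (I.mix (nat_lit 38420480) (nat_lit 26443776)) (I.mix (nat_lit 21921792) (nat_lit 29147136)) (I.mix (nat_lit 9961472) (nat_lit 11583488)))
  false (nat_lit 0)
def b3_12 : Bx := Bx.mk (St.mk (I.pos (nat_lit 184516608) (nat_lit 261685248)) (I.mix (nat_lit 10829824) (nat_lit 33505280)) (I.mix (nat_lit 7241728) (nat_lit 74137600)) (I.pos (nat_lit 203882496) (nat_lit 341983232)) (I.mix (nat_lit 115769344) (nat_lit 49905664)) (I.mix (nat_lit 72433664) (nat_lit 59097088)) (I.mix (nat_lit 113770496) (nat_lit 94584832)))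
  false (nat_lit 0)
def b3_13 : Bx := Bx.mk (St.mk (I.pos (nat_lit 95141888) (nat_lit 113278976)) (I.mix (nat_lit 1802240) (nat_lit 8192000)) (I.mix (nat_lit 131072) (nat_lit 9633792)) (I.pos (nat_lit 81362944) (nat_lit 113901568)) (I.mix (nat_lit 12386304) (nat_lit 13697024)) (I.mix (nat_lit 9224192) (nat_lit 7077888)) (I.mix (nat_lit 7405568) (nat_lit 5341184)))
  false (nat_lit 0)
def b3_14 : Bx := Bx.mk (St.mk (I.neg (nat_lit 16154624) (nat_lit 35635200)) (I.mix (nat_lit 1392640) (nat_lit 8257536)) (I.mix (nat_lit 1196032) (nat_lit 2457600)) (I.pos (nat_lit 45973504) (nat_lit 69681152)) (I.mix (nat_lit 5832704) (nat_lit 10813440)) (I.mix (nat_lit 6176768) (nat_lit 4096000)) (I.mix (nat_lit 1359872) (nat_lit 1622016)))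
  false (nat_lit 0)
def b3_15 : Bx := Bx.mk (St.mk (I.pos (nat_lit 175898624) (nat_lit 225738752)) (I.pos (nat_lit 7323648) (nat_lit 48578560)) (I.pos (nat_lit 24690688) (nat_lit 96190464)) (I.pos (nat_lit 192987136) (nat_lit 256606208)) (I.mix (nat_lit 129531904) (nat_lit 86016000)) (I.mix (nat_lit 102858752) (nat_lit 75825152)) (I.mix (nat_lit 167854080) (nat_lit 99041280)))
  false (nat_lit 0)
def t3 : BTr := (BTr.n (BTr.n (BTr.n (BTr.n (BTr.b b3_0) (BTr.b b3_1)) (BTr.n (BTr.b b3_2) (BTr.b b3_3))) (BTr.n (BTr.n (BTr.b b3_4) (BTr.b b3_5)) (BTr.n (BTr.b b3_6) (BTr.b b3_7)))) (BTr.n (BTr.n (BTr.n (BTr.b b3_8) (BTr.b b3_9)) (BTr.n (BTr.b b3_10) (BTr.b b3_11))) (BTr.n (BTr.n (BTr.b b3_12) (BTr.b b3_13)) (BTr.n (BTr.b b3_14) (BTr.b b3_15)))))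
namespace T3
def l0 : Tr := Tr.L (Pth.l (Pth.l (Pth.l (Pth.l Pth.z))))
def l1 : Tr := Tr.L (Pth.l (Pth.l (Pth.l (Pth.r Pth.z))))
def l2 : Tr := Tr.L (Pth.l (Pth.l (Pth.r (Pth.l Pth.z))))
def l3 : Tr := Tr.L (Pth.l (Pth.l (Pth.r (Pth.r Pth.z))))
def l4 : Tr := Tr.L (Pth.l (Pth.r (Pth.l (Pth.l Pth.z))))
def l5 : Tr := Tr.L (Pth.l (Pth.r (Pth.l (Pth.r Pth.z))))
def l6 : Tr := Tr.L (Pth.l (Pth.r (Pth.r (Pth.l Pth.z))))
def l7 : Tr := Tr.L (Pth.l (Pth.r (Pth.r (Pth.r Pth.z))))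
def l8 : Tr := Tr.L (Pth.r (Pth.l (Pth.l (Pth.l Pth.z))))
def l9 : Tr := Tr.L (Pth.r (Pth.l (Pth.l (Pth.r Pth.z))))
def l10 : Tr := Tr.L (Pth.r (Pth.l (Pth.r (Pth.l Pth.z))))
def l11 : Tr := Tr.L (Pth.r (Pth.l (Pth.r (Pth.r Pth.z))))
def l12 : Tr := Tr.L (Pth.r (Pth.r (Pth.l (Pth.l Pth.z))))
def l13 : Tr := Tr.L (Pth.r (Pth.r (Pth.l (Pth.r Pth.z))))
def l14 : Tr := Tr.L (Pth.r (Pth.r (Pth.r (Pth.l Pth.z))))
def l15 : Tr := Tr.L (Pth.r (Pth.r (Pth.r (Pth.r Pth.z))))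
end T3
def b4_0 : Bx := Bx.mk (St.mk (I.pos (nat_lit 126058496) (nat_lit 217628672)) (I.mix (nat_lit 2572288) (nat_lit 87982080)) (I.mix (nat_lit 3506176) (nat_lit 118620160)) (I.pos (nat_lit 369590272) (nat_lit 460128256)) (I.mix (nat_lit 209928192) (nat_lit 117751808)) (I.mix (nat_lit 129695744) (nat_lit 110493696)) (I.mix (nat_lit 150585344) (nat_lit 153993216)))
  false (nat_lit 125374815)
def b4_1 : Bx := Bx.mk (St.mk (I.pos (nat_lit 25706496) (nat_lit 122208256)) (I.neg (nat_lit 13615104) (nat_lit 95518720)) (I.mix (nat_lit 63078400) (nat_lit 18595840)) (I.pos (nat_lit 275824640) (nat_lit 334823424)) (I.mix (nat_lit 151437312) (nat_lit 108298240)) (I.mix (nat_lit 111575040) (nat_lit 106151936)) (I.mix (nat_lit 113754112) (nat_lit 84770816)))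
  false (nat_lit 181938861)
def b4_2 : Bx := Bx.mk (St.mk (I.pos (nat_lit 94535680) (nat_lit 176177152)) (I.mix (nat_lit 31031296) (nat_lit 80773120)) (I.mix (nat_lit 917504) (nat_lit 119980032)) (I.pos (nat_lit 307249152) (nat_lit 412041216)) (I.mix (nat_lit 215564288) (nat_lit 103874560)) (I.mix (nat_lit 171294720) (nat_lit 140165120)) (I.mix (nat_lit 181551104) (nat_lit 178028544)))
  false (nat_lit 101751148)
def b4_3 : Bx := Bx.mk (St.mk (I.neg (nat_lit 25706496) (nat_lit 122109952)) (I.pos (nat_lit 13598720) (nat_lit 95518720)) (I.mix (nat_lit 63078400) (nat_lit 18104320)) (I.pos (nat_lit 275824640) (nat_lit 334479360)) (I.mix (nat_lit 108298240) (nat_lit 151453696)) (I.mix (nat_lit 106151936) (nat_lit 111575040)) (I.mix (nat_lit 113770496) (nat_lit 84770816)))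
  true (nat_lit 24511296)
def b4_4 : Bx := Bx.mk (St.mk (I.mix (nat_lit 57425920) (nat_lit 17104896)) (I.mix (nat_lit 16662528) (nat_lit 89669632)) (I.neg (nat_lit 23658496) (nat_lit 49971200)) (I.pos (nat_lit 266649600) (nat_lit 301432832)) (I.mix (nat_lit 83722240) (nat_lit 133201920)) (I.mix (nat_lit 104824832) (nat_lit 90406912)) (I.mix (nat_lit 54263808) (nat_lit 39436288)))
  true (nat_lit 0)
def b4_5 : Bx := Bx.mk (St.mk (I.pos (nat_lit 14270464) (nat_lit 58687488)) (I.neg (nat_lit 33538048) (nat_lit 89669632)) (I.neg (nat_lit 25165824) (nat_lit 49971200)) (I.pos (nat_lit 275054592) (nat_lit 301432832)) (I.mix (nat_lit 133201920) (nat_lit 83722240)) (I.mix (nat_lit 90406912) (nat_lit 99123200)) (I.mix (nat_lit 54263808) (nat_lit 39436288)))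
  false (nat_lit 89146816)
def b4_6 : Bx := Bx.mk (St.mk (I.pos (nat_lit 93224960) (nat_lit 120455168)) (I.neg (nat_lit 16728064) (nat_lit 49823744)) (I.mix (nat_lit 18530304) (nat_lit 16580608)) (I.pos (nat_lit 309198848) (nat_lit 333660160)) (I.mix (nat_lit 25722880) (nat_lit 28934144)) (I.mix (nat_lit 21889024) (nat_lit 17416192)) (I.mix (nat_lit 21217280) (nat_lit 14811136)))
  false (nat_lit 0)
def b4_7 : Bx := Bx.mk (St.mk (I.pos (nat_lit 175751168) (nat_lit 293224448)) (I.mix (nat_lit 32473088) (nat_lit 60506112)) (I.mix (nat_lit 124108800) (nat_lit 59752448)) (I.pos (nat_lit 410501120) (nat_lit 599162880)) (I.mix (nat_lit 119504896) (nat_lit 101777408)) (I.mix (nat_lit 88489984) (nat_lit 81494016)) (I.mix (nat_lit 145784832) (nat_lit 130269184)))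
  false (nat_lit 93541674)
def b4_8 : Bx := Bx.mk (St.mk (I.mix (nat_lit 17055744) (nat_lit 50069504)) (I.mix (nat_lit 47988736) (nat_lit 16613376)) (I.neg (nat_lit 23642112) (nat_lit 36241408)) (I.pos (nat_lit 267649024) (nat_lit 285523968)) (I.mix (nat_lit 73875456) (nat_lit 61751296)) (I.mix (nat_lit 52281344) (nat_lit 51904512)) (I.mix (nat_lit 15728640) (nat_lit 15450112)))
  false (nat_lit 0)
def b4_9 : Bx := Bx.mk (St.mk (I.pos (nat_lit 141492224) (nat_lit 204226560)) (I.pos (nat_lit 29278208) (nat_lit 87048192)) (I.pos (nat_lit 29949952) (nat_lit 112623616)) (I.pos (nat_lit 380239872) (nat_lit 447922176)) (I.mix (nat_lit 154566656) (nat_lit 119734272)) (I.mix (nat_lit 123944960) (nat_lit 88211456)) (I.mix (nat_lit 178651136) (nat_lit 122142720)))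
  false (nat_lit 97261166)
def b4_10 : Bx := Bx.mk (St.mk (I.pos (nat_lit 14876672) (nat_lit 54886400)) (I.neg (nat_lit 22102016) (nat_lit 78168064)) (I.neg (nat_lit 25657344) (nat_lit 47464448)) (I.pos (nat_lit 274874368) (nat_lit 294027264)) (I.mix (nat_lit 121634816) (nat_lit 71155712)) (I.mix (nat_lit 62111744) (nat_lit 104824832)) (I.mix (nat_lit 36519936) (nat_lit 29835264)))
  false (nat_lit 27577238)
def t4 : BTr := (BTr.n (BTr.n (BTr.n (BTr.b b4_0) (BTr.b b4_1)) (BTr.n (BTr.b b4_2) (BTr.n (BTr.b b4_3) (BTr.b b4_4)))) (BTr.n (BTr.n (BTr.b b4_5) (BTr.n (BTr.b b4_6) (BTr.b b4_7))) (BTr.n (BTr.b b4_8) (BTr.n (BTr.b b4_9) (BTr.b b4_10)))))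
namespace T4
def l0 : Tr := Tr.L (Pth.l (Pth.l (Pth.l Pth.z)))
def l1 : Tr := Tr.L (Pth.l (Pth.l (Pth.r Pth.z)))
def l2 : Tr := Tr.L (Pth.l (Pth.r (Pth.l Pth.z)))
def l3 : Tr := Tr.L (Pth.l (Pth.r (Pth.r (Pth.l Pth.z))))
def l4 : Tr := Tr.L (Pth.l (Pth.r (Pth.r (Pth.r Pth.z))))
def l5 : Tr := Tr.L (Pth.r (Pth.l (Pth.l Pth.z)))
def l6 : Tr := Tr.L (Pth.r (Pth.l (Pth.r (Pth.l Pth.z))))
def l7 : Tr := Tr.L (Pth.r (Pth.l (Pth.r (Pth.r Pth.z))))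
def l8 : Tr := Tr.L (Pth.r (Pth.r (Pth.l Pth.z)))
def l9 : Tr := Tr.L (Pth.r (Pth.r (Pth.r (Pth.l Pth.z))))
def l10 : Tr := Tr.L (Pth.r (Pth.r (Pth.r (Pth.r Pth.z))))
end T4
def b5_0 : Bx := Bx.mk (St.mk (I.pos (nat_lit 141950976) (nat_lit 217104384)) (I.mix (nat_lit 1851392) (nat_lit 62062592)) (I.mix (nat_lit 3424256) (nat_lit 118669312)) (I.pos (nat_lit 238075904) (nat_lit 327892992)) (I.mix (nat_lit 144949248) (nat_lit 82247680)) (I.mix (nat_lit 101842944) (nat_lit 84328448)) (I.mix (nat_lit 124878848) (nat_lit 92717056)))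
  false (nat_lit 37277718)
def b5_1 : Bx := Bx.mk (St.mk (I.pos (nat_lit 75350016) (nat_lit 144752640)) (I.neg (nat_lit 6520832) (nat_lit 75792384)) (I.mix (nat_lit 39567360) (nat_lit 30965760)) (I.pos (nat_lit 175652864) (nat_lit 224149504)) (I.mix (nat_lit 102563840) (nat_lit 94339072)) (I.mix (nat_lit 77987840) (nat_lit 88276992)) (I.mix (nat_lit 65044480) (nat_lit 77889536)))
  false (nat_lit 66548043)
def b5_2 : Bx := Bx.mk (St.mk (I.mix (nat_lit 30015488) (nat_lit 3604480)) (I.mix (nat_lit 41385984) (nat_lit 8536064)) (I.pos (nat_lit 14614528) (nat_lit 23691264)) (I.pos (nat_lit 141475840) (nat_lit 152158208)) (I.mix (nat_lit 46022656) (nat_lit 74006528)) (I.mix (nat_lit 39583744) (nat_lit 56246272)) (I.mix (nat_lit 9207808) (nat_lit 13058048)))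
  true (nat_lit 0)
def b5_3 : Bx := Bx.mk (St.mk (I.pos (nat_lit 129351680) (nat_lit 179929088)) (I.mix (nat_lit 5259264) (nat_lit 56082432)) (I.pos (nat_lit 39550976) (nat_lit 113786880)) (I.pos (nat_lit 207192064) (nat_lit 270434304)) (I.mix (nat_lit 167968768) (nat_lit 57884672)) (I.mix (nat_lit 150028288) (nat_lit 81788928)) (I.mix (nat_lit 150192128) (nat_lit 84672512)))
  false (nat_lit 41422735)
def b5_4 : Bx := Bx.mk (St.mk (I.mix (nat_lit 3588096) (nat_lit 30015488)) (I.mix (nat_lit 8732672) (nat_lit 41418752)) (I.pos (nat_lit 14614528) (nat_lit 23691264)) (I.pos (nat_lit 141475840) (nat_lit 152158208)) (I.mix (nat_lit 74022912) (nat_lit 46006272)) (I.mix (nat_lit 56246272) (nat_lit 39583744)) (I.mix (nat_lit 9207808) (nat_lit 13058048)))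
  false (nat_lit 0)
def b5_5 : Bx := Bx.mk (St.mk (I.pos (nat_lit 110411776) (nat_lit 145276928)) (I.neg (nat_lit 4145152) (nat_lit 38322176)) (I.mix (nat_lit 16384) (nat_lit 35274752)) (I.pos (nat_lit 192299008) (nat_lit 223772672)) (I.mix (nat_lit 75939840) (nat_lit 63258624)) (I.mix (nat_lit 45236224) (nat_lit 62816256)) (I.mix (nat_lit 45842432) (nat_lit 53837824)))
  false (nat_lit 0)
def b5_6 : Bx := Bx.mk (St.mk (I.mix (nat_lit 23445504) (nat_lit 2883584)) (I.mix (nat_lit 17186816) (nat_lit 10911744)) (I.pos (nat_lit 15400960) (nat_lit 20774912)) (I.pos (nat_lit 141606912) (nat_lit 146751488)) (I.mix (nat_lit 46841856) (nat_lit 37142528)) (I.mix (nat_lit 31752192) (nat_lit 35946496)) (I.mix (nat_lit 6242304) (nat_lit 5685248)))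
  true (nat_lit 0)
def b5_7 : Bx := Bx.mk (St.mk (I.pos (nat_lit 132628480) (nat_lit 162906112)) (I.neg (nat_lit 15761408) (nat_lit 39976960)) (I.mix (nat_lit 1769472) (nat_lit 25247744)) (I.pos (nat_lit 212664320) (nat_lit 244531200)) (I.mix (nat_lit 63553536) (nat_lit 67026944)) (I.mix (nat_lit 65568768) (nat_lit 49217536)) (I.mix (nat_lit 62095360) (nat_lit 47349760)))
  false (nat_lit 0)
def b5_8 : Bx := Bx.mk (St.mk (I.pos (nat_lit 128286720) (nat_lit 180518912)) (I.mix (nat_lit 42041344) (nat_lit 31588352)) (I.mix (nat_lit 1130496) (nat_lit 84279296)) (I.pos (nat_lit 205946880) (nat_lit 265650176)) (I.mix (nat_lit 162725888) (nat_lit 100302848)) (I.mix (nat_lit 148635648) (nat_lit 99155968)) (I.mix (nat_lit 144867328) (nat_lit 97894400)))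
  false (nat_lit 54814444)
def b5_9 : Bx := Bx.mk (St.mk (I.pos (nat_lit 9617408) (nat_lit 73842688)) (I.mix (nat_lit 11894784) (nat_lit 45400064)) (I.mix (nat_lit 2883584) (nat_lit 25870336)) (I.pos (nat_lit 140967936) (nat_lit 165642240)) (I.mix (nat_lit 68599808) (nat_lit 57688064)) (I.mix (nat_lit 58277888) (nat_lit 39419904)) (I.mix (nat_lit 31571968) (nat_lit 23773184)))
  false (nat_lit 0)
def b5_10 : Bx := Bx.mk (St.mk (I.pos (nat_lit 49381376) (nat_lit 108969984)) (I.mix (nat_lit 66715648) (nat_lit 12500992)) (I.mix (nat_lit 31916032) (nat_lit 10862592)) (I.pos (nat_lit 152993792) (nat_lit 195117056)) (I.mix (nat_lit 89276416) (nat_lit 68124672)) (I.mix (nat_lit 54427648) (nat_lit 82673664)) (I.mix (nat_lit 35028992) (nat_lit 45711360)))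
  false (nat_lit 7144634)
def b5_11 : Bx := Bx.mk (St.mk (I.neg (nat_lit 9617408) (nat_lit 73760768)) (I.mix (nat_lit 45400064) (nat_lit 11812864)) (I.mix (nat_lit 3309568) (nat_lit 25870336)) (I.pos (nat_lit 140967936) (nat_lit 165658624)) (I.mix (nat_lit 57688064) (nat_lit 68616192)) (I.mix (nat_lit 39436288) (nat_lit 58277888)) (I.mix (nat_lit 31571968) (nat_lit 23773184)))
  true (nat_lit 0)
def b5_12 : Bx := Bx.mk (St.mk (I.pos (nat_lit 180125696) (nat_lit 288800768)) (I.mix (nat_lit 30457856) (nat_lit 45678592)) (I.mix (nat_lit 50806784) (nat_lit 95682560)) (I.pos (nat_lit 283099136) (nat_lit 464830464)) (I.mix (nat_lit 118652928) (nat_lit 82198528)) (I.mix (nat_lit 88178688) (nat_lit 63733760)) (I.mix (nat_lit 155860992) (nat_lit 103841792)))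
  false (nat_lit 63723461)
def b5_13 : Bx := Bx.mk (St.mk (I.pos (nat_lit 158760960) (nat_lit 213204992)) (I.pos (nat_lit 10256384) (nat_lit 60260352)) (I.pos (nat_lit 38633472) (nat_lit 116031488)) (I.pos (nat_lit 258686976) (nat_lit 314212352)) (I.mix (nat_lit 142868480) (nat_lit 101318656)) (I.mix (nat_lit 116031488) (nat_lit 85983232)) (I.mix (nat_lit 168968192) (nat_lit 101662720)))
  false (nat_lit 35734416)
def t5 : BTr := (BTr.n (BTr.n (BTr.n (BTr.b b5_0) (BTr.n (BTr.b b5_1) (BTr.b b5_2))) (BTr.n (BTr.n (BTr.b b5_3) (BTr.b b5_4)) (BTr.n (BTr.b b5_5) (BTr.b b5_6)))) (BTr.n (BTr.n (BTr.b b5_7) (BTr.n (BTr.b b5_8) (BTr.b b5_9))) (BTr.n (BTr.n (BTr.b b5_10) (BTr.b b5_11)) (BTr.n (BTr.b b5_12) (BTr.b b5_13)))))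
namespace T5
def l0 : Tr := Tr.L (Pth.l (Pth.l (Pth.l Pth.z)))
def l1 : Tr := Tr.L (Pth.l (Pth.l (Pth.r (Pth.l Pth.z))))
def l2 : Tr := Tr.L (Pth.l (Pth.l (Pth.r (Pth.r Pth.z))))
def l3 : Tr := Tr.L (Pth.l (Pth.r (Pth.l (Pth.l Pth.z))))
def l4 : Tr := Tr.L (Pth.l (Pth.r (Pth.l (Pth.r Pth.z))))
def l5 : Tr := Tr.L (Pth.l (Pth.r (Pth.r (Pth.l Pth.z))))
def l6 : Tr := Tr.L (Pth.l (Pth.r (Pth.r (Pth.r Pth.z))))
def l7 : Tr := Tr.L (Pth.r (Pth.l (Pth.l Pth.z)))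
def l8 : Tr := Tr.L (Pth.r (Pth.l (Pth.r (Pth.l Pth.z))))
def l9 : Tr := Tr.L (Pth.r (Pth.l (Pth.r (Pth.r Pth.z))))
def l10 : Tr := Tr.L (Pth.r (Pth.r (Pth.l (Pth.l Pth.z))))
def l11 : Tr := Tr.L (Pth.r (Pth.r (Pth.l (Pth.r Pth.z))))
def l12 : Tr := Tr.L (Pth.r (Pth.r (Pth.r (Pth.l Pth.z))))
def l13 : Tr := Tr.L (Pth.r (Pth.r (Pth.r (Pth.r Pth.z))))
end T5
theorem bx0_0 : BoxOK sI cl4 cl5 cl7 t2 t4 b0_0 :=
  box_mk (TrL.c (I.pos (nat_lit 0) (nat_lit 0)) (xb (xa (xb T2.l0 T2.l0) T2.l0) (xa (xb (xa T2.l0 T2.l0) (xa T2.l0 T2.l0)) (xa (xb T2.l0 T2.l0) (xb T2.l0 T2.l0))))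
  (TrL.c (I.pos (nat_lit 0) (nat_lit 0)) (xa (xb T4.l1 T4.l1) (xb T4.l1 T4.l1))
  (TrL.c (I.pos (nat_lit 0) (nat_lit 0)) (xa T2.l1 T2.l1)
  (TrL.c (I.pos (nat_lit 0) (nat_lit 0)) (xb (xa T4.l2 T4.l2) (xa T4.l2 (xb T4.l2 T4.l2)))
  (TrL.c (I.pos (nat_lit 0) (nat_lit 0)) (xa T2.l2 T2.l2)
  (TrL.c (I.pos (nat_lit 0) (nat_lit 0)) (xa (xb T4.l3 T4.l3) (xb T4.l3 T4.l3))
  TrL.n)))))) (by decide +kernel)
theorem bx0_1 : BoxOK sI cl4 cl5 cl7 t2 t4 b0_1 :=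
  box_mk (TrL.c (I.pos (nat_lit 0) (nat_lit 0)) (xb (xa (xb T2.l6 T2.l6) T2.l6) (xa (xb T2.l6 T2.l6) T2.l6))
  (TrL.c (I.pos (nat_lit 0) (nat_lit 0)) T4.l1
  (TrL.c (I.pos (nat_lit 0) (nat_lit 0)) T2.l1
  (TrL.c (I.pos (nat_lit 0) (nat_lit 0)) T4.l2
  (TrL.c (I.pos (nat_lit 0) (nat_lit 0)) T2.l7
  (TrL.c (I.pos (nat_lit 0) (nat_lit 0)) T4.l3
  TrL.n)))))) (by decide +kernel)
theorem bx0_2 : BoxOK sI cl4 cl5 cl7 t2 t4 b0_2 :=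
  box_mk (TrL.c (I.pos (nat_lit 0) (nat_lit 0)) (xb (xa (xb T2.l6 T2.l6) (xb T2.l6 T2.l6)) (xa (xb T2.l6 T2.l6) (xb T2.l6 T2.l6)))
  (TrL.c (I.pos (nat_lit 0) (nat_lit 0)) T4.l1
  (TrL.c (I.pos (nat_lit 0) (nat_lit 0)) T2.l1
  (TrL.c (I.pos (nat_lit 0) (nat_lit 0)) T4.l2
  (TrL.c (I.pos (nat_lit 0) (nat_lit 0)) T2.l7
  (TrL.c (I.pos (nat_lit 0) (nat_lit 0)) T4.l3
  TrL.n)))))) (by decide +kernel)
theorem bx0_3 : BoxOK sI cl4 cl5 cl7 t2 t4 b0_3 :=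
  box_mk (TrL.c (I.pos (nat_lit 0) (nat_lit 0)) T4.l1
  (TrL.c (I.pos (nat_lit 0) (nat_lit 0)) T2.l1
  TrL.n)) (by decide +kernel)
theorem bx0_4 : BoxOK sI cl4 cl5 cl7 t2 t4 b0_4 :=
  box_mk (TrL.c (I.pos (nat_lit 0) (nat_lit 0)) T2.l6
  (TrL.c (I.pos (nat_lit 0) (nat_lit 0)) T4.l1
  (TrL.c (I.pos (nat_lit 0) (nat_lit 0)) T2.l1
  (TrL.c (I.pos (nat_lit 0) (nat_lit 0)) T4.l2
  (TrL.c (I.pos (nat_lit 0) (nat_lit 0)) T2.l7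
  (TrL.c (I.pos (nat_lit 0) (nat_lit 0)) T4.l3
  TrL.n)))))) (by decide +kernel)
theorem bx0_5 : BoxOK sI cl4 cl5 cl7 t2 t4 b0_5 :=
  box_mk (TrL.c (I.pos (nat_lit 0) (nat_lit 0)) (xa T2.l0 T2.l0)
  (TrL.c (I.pos (nat_lit 0) (nat_lit 0)) T4.l1
  (TrL.c (I.pos (nat_lit 0) (nat_lit 0)) T2.l5
  (TrL.c (I.pos (nat_lit 0) (nat_lit 0)) (xa T4.l2 T4.l2)
  (TrL.c (I.pos (nat_lit 0) (nat_lit 0)) T2.l3
  (TrL.c (I.pos (nat_lit 0) (nat_lit 0)) T4.l3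
  TrL.n)))))) (by decide +kernel)
theorem bx0_6 : BoxOK sI cl4 cl5 cl7 t2 t4 b0_6 :=
  box_mk (TrL.c (I.pos (nat_lit 0) (nat_lit 0)) (xb (xa (xb (xa T2.l0 T2.l0) (xa (xb T2.l0 T2.l0) T2.l0)) (xb T2.l4 (xa T2.l0 T2.l0))) (xa (xb (xa (xb T2.l0 (xa T2.l0 T2.l0)) (xb T2.l0 T2.l0)) (xa (xb (xa T2.l0 T2.l0) (xa T2.l0 T2.l0)) (xb T2.l0 (xa T2.l0 T2.l0)))) (xb (xa (xb T2.l0 T2.l0) (xb T2.l0 T2.l0)) (xa (xb T2.l0 T2.l0) (xb T2.l0 (xa T2.l0 T2.l0))))))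
  (TrL.c (I.pos (nat_lit 0) (nat_lit 0)) (xb (xa T4.l1 T4.l1) (xa T4.l1 (xb T4.l1 T4.l1)))
  (TrL.c (I.pos (nat_lit 0) (nat_lit 0)) (xc (xb T2.l5 (xa T2.l1 T2.l5)) (xb T2.l5 (xa T2.l1 T2.l5)))
  (TrL.c (I.pos (nat_lit 0) (nat_lit 0)) (xb (xa (xb (xc (xa T4.l2 T4.l2) (xa T4.l2 T4.l2)) T4.l2) (xb (xa (xc T4.l2 T4.l2) (xc (xb T4.l2 T4.l2) (xb T4.l2 T4.l2))) (xa T4.l2 (xc T4.l2 T4.l2)))) (xa (xb T4.l2 T4.l2) (xb (xa T4.l2 (xc T4.l2 T4.l2)) (xa (xc T4.l2 T4.l2) (xc (xb T4.l2 T4.l2) (xb T4.l2 T4.l2))))))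
  (TrL.c (I.pos (nat_lit 0) (nat_lit 0)) (xc (xb T2.l3 (xa T2.l2 T2.l3)) (xb T2.l3 (xa T2.l2 T2.l3)))
  (TrL.c (I.pos (nat_lit 0) (nat_lit 0)) (xb (xa T4.l3 T4.l3) (xa T4.l3 (xb T4.l3 T4.l3)))
  TrL.n)))))) (by decide +kernel)
theorem bx0_7 : BoxOK sI cl4 cl5 cl7 t2 t4 b0_7 :=
  box_mk (TrL.c (I.pos (nat_lit 0) (nat_lit 0)) (xa (xb (xa (xb T2.l6 T2.l6) (xb T2.l6 T2.l6)) (xa T2.l6 T2.l6)) (xb (xa T2.l6 T2.l6) (xa T2.l6 T2.l6)))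
  (TrL.c (I.pos (nat_lit 0) (nat_lit 0)) (xa T4.l1 T4.l1)
  (TrL.c (I.pos (nat_lit 0) (nat_lit 0)) (xa T2.l1 T2.l1)
  (TrL.c (I.pos (nat_lit 0) (nat_lit 0)) T4.l2
  (TrL.c (I.pos (nat_lit 0) (nat_lit 0)) (xa T2.l7 T2.l3)
  (TrL.c (I.pos (nat_lit 0) (nat_lit 0)) (xa T4.l3 T4.l3)
  TrL.n)))))) (by decide +kernel)
theorem bx0_8 : BoxOK sI cl4 cl5 cl7 t2 t4 b0_8 :=
  box_mk (TrL.c (I.pos (nat_lit 0) (nat_lit 0)) T4.l1
  (TrL.c (I.pos (nat_lit 0) (nat_lit 0)) T2.l1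
  TrL.n)) (by decide +kernel)
theorem bx0_9 : BoxOK sI cl4 cl5 cl7 t2 t4 b0_9 :=
  box_mk (TrL.c (I.pos (nat_lit 0) (nat_lit 0)) (xb (xa T2.l9 T2.l9) (xa (xb T2.l9 T2.l9) (xb T2.l9 T2.l9)))
  (TrL.c (I.pos (nat_lit 0) (nat_lit 0)) T4.l1
  (TrL.c (I.pos (nat_lit 0) (nat_lit 0)) T2.l1
  (TrL.c (I.pos (nat_lit 0) (nat_lit 0)) T4.l2
  (TrL.c (I.pos (nat_lit 0) (nat_lit 0)) T2.l2
  (TrL.c (I.pos (nat_lit 0) (nat_lit 0)) T4.l3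
  TrL.n)))))) (by decide +kernel)
theorem bx0_10 : BoxOK sI cl4 cl5 cl7 t2 t4 b0_10 :=
  box_mk (TrL.c (I.pos (nat_lit 0) (nat_lit 0)) (xb (xa (xb (xa T2.l6 T2.l6) T2.l6) T2.l6) (xa (xb T2.l6 (xa T2.l6 T2.l6)) T2.l6))
  (TrL.c (I.pos (nat_lit 0) (nat_lit 0)) T4.l1
  (TrL.c (I.pos (nat_lit 0) (nat_lit 0)) T2.l1
  (TrL.c (I.pos (nat_lit 0) (nat_lit 0)) T4.l2
  (TrL.c (I.pos (nat_lit 0) (nat_lit 0)) T2.l7
  (TrL.c (I.pos (nat_lit 0) (nat_lit 0)) T4.l3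
  TrL.n)))))) (by decide +kernel)
theorem bx0_11 : BoxOK sI cl4 cl5 cl7 t2 t4 b0_11 :=
  box_mk (TrL.c (I.pos (nat_lit 0) (nat_lit 0)) (xa (xb (xa T2.l9 T2.l9) (xa T2.l9 T2.l9)) (xb T2.l9 T2.l9))
  (TrL.c (I.pos (nat_lit 0) (nat_lit 0)) T4.l1
  (TrL.c (I.pos (nat_lit 0) (nat_lit 0)) T2.l1
  (TrL.c (I.pos (nat_lit 0) (nat_lit 0)) T4.l2
  (TrL.c (I.pos (nat_lit 0) (nat_lit 0)) T2.l3
  (TrL.c (I.pos (nat_lit 0) (nat_lit 0)) T4.l3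
  TrL.n)))))) (by decide +kernel)
theorem bx0_12 : BoxOK sI cl4 cl5 cl7 t2 t4 b0_12 :=
  box_mk (TrL.c (I.pos (nat_lit 0) (nat_lit 0)) (xb (xa T2.l9 T2.l9) (xa T2.l9 T2.l9))
  (TrL.c (I.pos (nat_lit 0) (nat_lit 0)) T4.l1
  (TrL.c (I.pos (nat_lit 0) (nat_lit 0)) T2.l5
  (TrL.c (I.pos (nat_lit 0) (nat_lit 0)) (xb T4.l2 T4.l2)
  (TrL.c (I.pos (nat_lit 0) (nat_lit 0)) T2.l3
  (TrL.c (I.pos (nat_lit 0) (nat_lit 0)) T4.l3
  TrL.n)))))) (by decide +kernel)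
theorem sv0 : StarV sI cl4 cl5 cl7 t2 t4 t0 :=
  (bt_n (bt_n (bt_n (bt_b bx0_0) (bt_n (bt_b bx0_1) (bt_b bx0_2))) (bt_n (bt_b bx0_3) (bt_n (bt_b bx0_4) (bt_b bx0_5)))) (bt_n (bt_n (bt_b bx0_6) (bt_n (bt_b bx0_7) (bt_b bx0_8))) (bt_n (bt_n (bt_b bx0_9) (bt_b bx0_10)) (bt_n (bt_b bx0_11) (bt_b bx0_12)))))
def S0 : StarD := StarD.mk cl4 cl5 cl7 2 4 t0
theorem bx1_0 : BoxOK sI cl4 cl7 cl5 t4 t2 b1_0 :=
  box_mk (TrL.c (I.pos (nat_lit 0) (nat_lit 0)) (xa (xb (xa (xb T4.l0 T4.l0) T4.l0) (xa (xb T4.l0 (xa T4.l0 T4.l0)) (xb T4.l0 (xa T4.l0 T4.l0)))) (xb (xa T4.l0 (xb T4.l0 T4.l0)) (xa (xb T4.l0 (xa T4.l0 T4.l0)) (xb T4.l0 (xa T4.l0 T4.l0)))))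
  (TrL.c (I.pos (nat_lit 0) (nat_lit 0)) (xa (xb T2.l3 T2.l3) (xb T2.l3 (xa T2.l3 T2.l3)))
  (TrL.c (I.pos (nat_lit 0) (nat_lit 0)) (xa T4.l4 (xb T4.l4 T4.l4))
  (TrL.c (I.pos (nat_lit 0) (nat_lit 0)) (xa T2.l4 (xb T2.l4 (xa T2.l4 T2.l4)))
  (TrL.c (I.pos (nat_lit 0) (nat_lit 0)) (xa T4.l5 (xb T4.l5 T4.l5))
  (TrL.c (I.pos (nat_lit 0) (nat_lit 0)) (xa (xb T2.l5 T2.l5) (xb T2.l5 (xa T2.l5 T2.l5)))
  TrL.n)))))) (by decide +kernel)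
theorem bx1_1 : BoxOK sI cl4 cl7 cl5 t4 t2 b1_1 :=
  box_mk (TrL.c (I.pos (nat_lit 0) (nat_lit 0)) (xa (xa (xb T4.l7 T4.l7) T4.l7) (xa T4.l7 (xb T4.l7 (xa T4.l7 T4.l7))))
  (TrL.c (I.pos (nat_lit 0) (nat_lit 0)) (xa T2.l3 T2.l3)
  (TrL.c (I.pos (nat_lit 0) (nat_lit 0)) T4.l4
  (TrL.c (I.pos (nat_lit 0) (nat_lit 0)) (xa T2.l4 T2.l4)
  (TrL.c (I.pos (nat_lit 0) (nat_lit 0)) T4.l8
  (TrL.c (I.pos (nat_lit 0) (nat_lit 0)) (xa T2.l5 T2.l5)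
  TrL.n)))))) (by decide +kernel)
theorem bx1_2 : BoxOK sI cl4 cl7 cl5 t4 t2 b1_2 :=
  box_mk (TrL.c (I.pos (nat_lit 0) (nat_lit 0)) (xb (xa T4.l7 T4.l7) (xa (xb T4.l7 T4.l7) (xb T4.l7 T4.l7)))
  (TrL.c (I.pos (nat_lit 0) (nat_lit 0)) T2.l3
  (TrL.c (I.pos (nat_lit 0) (nat_lit 0)) T4.l4
  (TrL.c (I.pos (nat_lit 0) (nat_lit 0)) T2.l4
  (TrL.c (I.pos (nat_lit 0) (nat_lit 0)) T4.l8
  (TrL.c (I.pos (nat_lit 0) (nat_lit 0)) T2.l5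
  TrL.n)))))) (by decide +kernel)
theorem bx1_3 : BoxOK sI cl4 cl7 cl5 t4 t2 b1_3 :=
  box_mk (TrL.c (I.pos (nat_lit 0) (nat_lit 0)) (xa (xb (xa (xa (xb T4.l7 T4.l7) T4.l7) T4.l7) T4.l7) T4.l7)
  (TrL.c (I.pos (nat_lit 0) (nat_lit 0)) (xa T2.l4 T2.l3)
  (TrL.c (I.pos (nat_lit 0) (nat_lit 0)) T4.l4
  (TrL.c (I.pos (nat_lit 0) (nat_lit 0)) (xa T2.l3 T2.l4)
  (TrL.c (I.pos (nat_lit 0) (nat_lit 0)) T4.l8
  (TrL.c (I.pos (nat_lit 0) (nat_lit 0)) (xa T2.l5 T2.l5)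
  TrL.n)))))) (by decide +kernel)
theorem bx1_4 : BoxOK sI cl4 cl7 cl5 t4 t2 b1_4 :=
  box_mk (TrL.c (I.pos (nat_lit 0) (nat_lit 0)) (xb (xa (xb (xa T4.l0 T4.l0) (xa T4.l0 T4.l0)) (xb T4.l2 (xa T4.l0 T4.l2))) (xa (xb (xa (xb T4.l0 T4.l0) T4.l0) (xa (xb T4.l0 T4.l0) (xb T4.l0 T4.l0))) (xb (xa T4.l0 (xb T4.l2 T4.l0)) (xa (xb T4.l0 (xa T4.l0 T4.l0)) (xb (xa T4.l0 T4.l0) (xa T4.l0 T4.l0))))))
  (TrL.c (I.pos (nat_lit 0) (nat_lit 0)) (xb (xa T2.l3 (xb T2.l3 T2.l3)) (xa (xb T2.l3 T2.l3) (xa T2.l3 T2.l3)))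
  (TrL.c (I.pos (nat_lit 0) (nat_lit 0)) (xa (xc T4.l4 T4.l4) (xc T4.l3 (xb T4.l3 T4.l3)))
  (TrL.c (I.pos (nat_lit 0) (nat_lit 0)) (xb (xa (xb (xc T2.l4 T2.l4) T2.l4) (xb (xa (xc T2.l4 T2.l4) (xc T2.l4 T2.l4)) (xa T2.l4 (xc T2.l4 T2.l4)))) (xa T2.l4 (xb (xa T2.l4 (xc T2.l4 T2.l4)) (xa T2.l4 (xc T2.l4 T2.l4)))))
  (TrL.c (I.pos (nat_lit 0) (nat_lit 0)) (xa (xc T4.l5 T4.l5) (xc T4.l1 (xb T4.l1 T4.l1)))
  (TrL.c (I.pos (nat_lit 0) (nat_lit 0)) (xb (xa T2.l5 (xb T2.l5 T2.l5)) (xa (xb T2.l5 T2.l5) (xa T2.l5 T2.l5)))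
  TrL.n)))))) (by decide +kernel)
theorem bx1_5 : BoxOK sI cl4 cl7 cl5 t4 t2 b1_5 :=
  box_mk (TrL.c (I.pos (nat_lit 0) (nat_lit 0)) (xa (xa (xa (xb T4.l7 T4.l7) T4.l7) T4.l7) T4.l7)
  (TrL.c (I.pos (nat_lit 0) (nat_lit 0)) T2.l3
  (TrL.c (I.pos (nat_lit 0) (nat_lit 0)) T4.l4
  (TrL.c (I.pos (nat_lit 0) (nat_lit 0)) T2.l4
  (TrL.c (I.pos (nat_lit 0) (nat_lit 0)) T4.l8
  (TrL.c (I.pos (nat_lit 0) (nat_lit 0)) T2.l5
  TrL.n)))))) (by decide +kernel)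
theorem bx1_6 : BoxOK sI cl4 cl7 cl5 t4 t2 b1_6 :=
  box_mk (TrL.c (I.pos (nat_lit 0) (nat_lit 0)) T4.l7
  (TrL.c (I.pos (nat_lit 0) (nat_lit 0)) T2.l3
  (TrL.c (I.pos (nat_lit 0) (nat_lit 0)) T4.l4
  (TrL.c (I.pos (nat_lit 0) (nat_lit 0)) T2.l4
  (TrL.c (I.pos (nat_lit 0) (nat_lit 0)) T4.l8
  (TrL.c (I.pos (nat_lit 0) (nat_lit 0)) T2.l5
  TrL.n)))))) (by decide +kernel)
theorem bx1_7 : BoxOK sI cl4 cl7 cl5 t4 t2 b1_7 :=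
  box_mk (TrL.c (I.pos (nat_lit 0) (nat_lit 0)) (xa (xb T4.l0 T4.l0) T4.l2)
  (TrL.c (I.pos (nat_lit 0) (nat_lit 0)) (xa T2.l3 T2.l3)
  (TrL.c (I.pos (nat_lit 0) (nat_lit 0)) T4.l3
  (TrL.c (I.pos (nat_lit 0) (nat_lit 0)) (xa T2.l4 (xb T2.l0 T2.l4))
  (TrL.c (I.pos (nat_lit 0) (nat_lit 0)) T4.l1
  (TrL.c (I.pos (nat_lit 0) (nat_lit 0)) (xa T2.l5 T2.l5)
  TrL.n)))))) (by decide +kernel)
theorem bx1_8 : BoxOK sI cl4 cl7 cl5 t4 t2 b1_8 :=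
  box_mk (TrL.c (I.pos (nat_lit 0) (nat_lit 0)) (xa (xb (xa T4.l7 T4.l7) T4.l7) T4.l0)
  (TrL.c (I.pos (nat_lit 0) (nat_lit 0)) T2.l3
  (TrL.c (I.pos (nat_lit 0) (nat_lit 0)) T4.l4
  (TrL.c (I.pos (nat_lit 0) (nat_lit 0)) T2.l4
  (TrL.c (I.pos (nat_lit 0) (nat_lit 0)) T4.l8
  (TrL.c (I.pos (nat_lit 0) (nat_lit 0)) T2.l5
  TrL.n)))))) (by decide +kernel)
theorem bx1_9 : BoxOK sI cl4 cl7 cl5 t4 t2 b1_9 :=
  box_mk (TrL.c (I.pos (nat_lit 0) (nat_lit 0)) T4.l7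
  (TrL.c (I.pos (nat_lit 0) (nat_lit 0)) (xa T2.l3 T2.l3)
  (TrL.c (I.pos (nat_lit 0) (nat_lit 0)) T4.l4
  (TrL.c (I.pos (nat_lit 0) (nat_lit 0)) (xa T2.l3 T2.l4)
  (TrL.c (I.pos (nat_lit 0) (nat_lit 0)) T4.l8
  (TrL.c (I.pos (nat_lit 0) (nat_lit 0)) (xa T2.l5 T2.l5)
  TrL.n)))))) (by decide +kernel)
theorem bx1_10 : BoxOK sI cl4 cl7 cl5 t4 t2 b1_10 :=
  box_mk (TrL.c (I.pos (nat_lit 0) (nat_lit 0)) (xb (xa (xb T4.l9 (xa T4.l9 T4.l9)) (xb T4.l9 T4.l9)) (xa (xb (xa T4.l9 T4.l9) (xa T4.l9 T4.l9)) (xb (xa T4.l9 T4.l9) (xa T4.l9 T4.l9))))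
  (TrL.c (I.pos (nat_lit 0) (nat_lit 0)) (xb T2.l3 (xa T2.l3 T2.l3))
  (TrL.c (I.pos (nat_lit 0) (nat_lit 0)) (xb T4.l4 T4.l4)
  (TrL.c (I.pos (nat_lit 0) (nat_lit 0)) (xb T2.l4 T2.l4)
  (TrL.c (I.pos (nat_lit 0) (nat_lit 0)) (xb T4.l10 T4.l10)
  (TrL.c (I.pos (nat_lit 0) (nat_lit 0)) (xb T2.l5 (xa T2.l5 T2.l5))
  TrL.n)))))) (by decide +kernel)
theorem bx1_11 : BoxOK sI cl4 cl7 cl5 t4 t2 b1_11 :=
  box_mk (TrL.c (I.pos (nat_lit 0) (nat_lit 0)) (xa (xa (xb T4.l7 (xa (xb T4.l7 (xa T4.l7 T4.l7)) T4.l7)) T4.l7) (xa T4.l7 (xb T4.l7 (xa T4.l7 T4.l7))))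
  (TrL.c (I.pos (nat_lit 0) (nat_lit 0)) (xa T2.l3 T2.l3)
  (TrL.c (I.pos (nat_lit 0) (nat_lit 0)) (xa T4.l4 T4.l4)
  (TrL.c (I.pos (nat_lit 0) (nat_lit 0)) (xa T2.l4 T2.l4)
  (TrL.c (I.pos (nat_lit 0) (nat_lit 0)) (xa T4.l8 T4.l8)
  (TrL.c (I.pos (nat_lit 0) (nat_lit 0)) (xa T2.l5 T2.l5)
  TrL.n)))))) (by decide +kernel)
theorem bx1_12 : BoxOK sI cl4 cl7 cl5 t4 t2 b1_12 :=
  box_mk (TrL.c (I.pos (nat_lit 0) (nat_lit 0)) T4.l0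
  (TrL.c (I.pos (nat_lit 0) (nat_lit 0)) T2.l3
  (TrL.c (I.pos (nat_lit 0) (nat_lit 0)) T4.l4
  (TrL.c (I.pos (nat_lit 0) (nat_lit 0)) T2.l4
  (TrL.c (I.pos (nat_lit 0) (nat_lit 0)) T4.l10
  (TrL.c (I.pos (nat_lit 0) (nat_lit 0)) T2.l5
  TrL.n)))))) (by decide +kernel)
theorem bx1_13 : BoxOK sI cl4 cl7 cl5 t4 t2 b1_13 :=
  box_mk (TrL.c (I.pos (nat_lit 0) (nat_lit 0)) T4.l0
  (TrL.c (I.pos (nat_lit 0) (nat_lit 0)) T2.l3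
  (TrL.c (I.pos (nat_lit 0) (nat_lit 0)) T4.l4
  (TrL.c (I.pos (nat_lit 0) (nat_lit 0)) T2.l4
  (TrL.c (I.pos (nat_lit 0) (nat_lit 0)) T4.l8
  (TrL.c (I.pos (nat_lit 0) (nat_lit 0)) T2.l5
  TrL.n)))))) (by decide +kernel)
theorem bx1_14 : BoxOK sI cl4 cl7 cl5 t4 t2 b1_14 :=
  box_mk (TrL.c (I.pos (nat_lit 0) (nat_lit 0)) (xa (xa T4.l7 T4.l7) T4.l7)
  (TrL.c (I.pos (nat_lit 0) (nat_lit 0)) (xa T2.l3 T2.l3)
  (TrL.c (I.pos (nat_lit 0) (nat_lit 0)) T4.l4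
  (TrL.c (I.pos (nat_lit 0) (nat_lit 0)) (xa T2.l4 T2.l4)
  (TrL.c (I.pos (nat_lit 0) (nat_lit 0)) T4.l8
  (TrL.c (I.pos (nat_lit 0) (nat_lit 0)) T2.l5
  TrL.n)))))) (by decide +kernel)
theorem bx1_15 : BoxOK sI cl4 cl7 cl5 t4 t2 b1_15 :=
  box_mk (TrL.c (I.pos (nat_lit 0) (nat_lit 0)) (xb (xa T4.l9 T4.l0) (xa T4.l9 T4.l0))
  (TrL.c (I.pos (nat_lit 0) (nat_lit 0)) T2.l3
  (TrL.c (I.pos (nat_lit 0) (nat_lit 0)) T4.l4
  (TrL.c (I.pos (nat_lit 0) (nat_lit 0)) T2.l4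
  (TrL.c (I.pos (nat_lit 0) (nat_lit 0)) T4.l10
  (TrL.c (I.pos (nat_lit 0) (nat_lit 0)) T2.l5
  TrL.n)))))) (by decide +kernel)
theorem sv1 : StarV sI cl4 cl7 cl5 t4 t2 t1 :=
  (bt_n (bt_n (bt_n (bt_n (bt_b bx1_0) (bt_b bx1_1)) (bt_n (bt_b bx1_2) (bt_b bx1_3))) (bt_n (bt_n (bt_b bx1_4) (bt_b bx1_5)) (bt_n (bt_b bx1_6) (bt_b bx1_7)))) (bt_n (bt_n (bt_n (bt_b bx1_8) (bt_b bx1_9)) (bt_n (bt_b bx1_10) (bt_b bx1_11))) (bt_n (bt_n (bt_b bx1_12) (bt_b bx1_13)) (bt_n (bt_b bx1_14) (bt_b bx1_15)))))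
def S1 : StarD := StarD.mk cl4 cl7 cl5 4 2 t1
theorem bx2_0 : BoxOK sI cl5 cl4 cl7 t0 t5 b2_0 :=
  box_mk (TrL.c (I.pos (nat_lit 0) (nat_lit 0)) (xb (xa (xb T0.l6 T0.l0) T0.l0) (xa (xb T0.l6 (xa T0.l0 T0.l0)) (xb T0.l0 (xa T0.l0 T0.l0))))
  (TrL.c (I.pos (nat_lit 0) (nat_lit 0)) (xb T5.l1 T5.l1)
  (TrL.c (I.pos (nat_lit 0) (nat_lit 0)) T0.l1
  (TrL.c (I.pos (nat_lit 0) (nat_lit 0)) T5.l2
  (TrL.c (I.pos (nat_lit 0) (nat_lit 0)) (xb (xa T5.l8 (xb T5.l3 T5.l3)) (xa T5.l3 (xb T5.l3 T5.l3)))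
  (TrL.c (I.pos (nat_lit 0) (nat_lit 0)) T0.l2
  (TrL.c (I.pos (nat_lit 0) (nat_lit 0)) T5.l4
  (TrL.c (I.pos (nat_lit 0) (nat_lit 0)) T0.l3
  TrL.n)))))))) (by decide +kernel)
theorem bx2_1 : BoxOK sI cl5 cl4 cl7 t0 t5 b2_1 :=
  box_mk (TrL.c (I.pos (nat_lit 0) (nat_lit 0)) T5.l5
  (TrL.c (I.pos (nat_lit 0) (nat_lit 0)) T0.l4
  (TrL.c (I.pos (nat_lit 0) (nat_lit 0)) T5.l6
  TrL.n))) (by decide +kernel)
theorem bx2_2 : BoxOK sI cl5 cl4 cl7 t0 t5 b2_2 :=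
  box_mk (TrL.c (I.pos (nat_lit 0) (nat_lit 0)) (xb (xa (xb T0.l5 T0.l6) T0.l6) (xa (xb T0.l6 T0.l6) T0.l6))
  (TrL.c (I.pos (nat_lit 0) (nat_lit 0)) T5.l1
  (TrL.c (I.pos (nat_lit 0) (nat_lit 0)) T0.l1
  (TrL.c (I.pos (nat_lit 0) (nat_lit 0)) T5.l6
  (TrL.c (I.pos (nat_lit 0) (nat_lit 0)) T5.l7
  (TrL.c (I.pos (nat_lit 0) (nat_lit 0)) T0.l2
  (TrL.c (I.pos (nat_lit 0) (nat_lit 0)) T5.l4
  (TrL.c (I.pos (nat_lit 0) (nat_lit 0)) T0.l3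
  TrL.n)))))))) (by decide +kernel)
theorem bx2_3 : BoxOK sI cl5 cl4 cl7 t0 t5 b2_3 :=
  box_mk (TrL.c (I.pos (nat_lit 0) (nat_lit 0)) (xa (xb (xa (xb (xa T0.l6 T0.l6) T0.l6) (xb T0.l6 T0.l6)) (xa (xb T0.l6 (xa T0.l6 T0.l6)) T0.l6)) (xb (xa T0.l6 T0.l6) T0.l6))
  (TrL.c (I.pos (nat_lit 0) (nat_lit 0)) (xa T5.l1 T5.l1)
  (TrL.c (I.pos (nat_lit 0) (nat_lit 0)) T0.l4
  (TrL.c (I.pos (nat_lit 0) (nat_lit 0)) T5.l2
  (TrL.c (I.pos (nat_lit 0) (nat_lit 0)) (xa T5.l8 (xb T5.l8 T5.l8))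
  (TrL.c (I.pos (nat_lit 0) (nat_lit 0)) T0.l2
  (TrL.c (I.pos (nat_lit 0) (nat_lit 0)) T5.l4
  (TrL.c (I.pos (nat_lit 0) (nat_lit 0)) T0.l3
  TrL.n)))))))) (by decide +kernel)
theorem bx2_4 : BoxOK sI cl5 cl4 cl7 t0 t5 b2_4 :=
  box_mk (TrL.c (I.pos (nat_lit 0) (nat_lit 0)) (xb (xa (xb (xa T0.l6 T0.l6) (xa T0.l6 T0.l6)) (xb (xa T0.l6 T0.l6) T0.l6)) (xa (xb (xa T0.l6 T0.l6) (xa (xb T0.l6 T0.l6) T0.l6)) (xb (xa T0.l6 T0.l6) (xa T0.l6 T0.l6))))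
  (TrL.c (I.pos (nat_lit 0) (nat_lit 0)) (xb T5.l1 (xa T5.l1 T5.l1))
  (TrL.c (I.pos (nat_lit 0) (nat_lit 0)) T0.l1
  (TrL.c (I.pos (nat_lit 0) (nat_lit 0)) T5.l2
  (TrL.c (I.pos (nat_lit 0) (nat_lit 0)) (xb (xa T5.l8 (xb T5.l8 T5.l8)) (xa T5.l8 (xb T5.l8 T5.l3)))
  (TrL.c (I.pos (nat_lit 0) (nat_lit 0)) (xb T0.l2 T0.l2)
  (TrL.c (I.pos (nat_lit 0) (nat_lit 0)) T5.l4
  (TrL.c (I.pos (nat_lit 0) (nat_lit 0)) T0.l3
  TrL.n)))))))) (by decide +kernel)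
theorem bx2_5 : BoxOK sI cl5 cl4 cl7 t0 t5 b2_5 :=
  box_mk (TrL.c (I.pos (nat_lit 0) (nat_lit 0)) (xa T5.l1 T5.l1)
  (TrL.c (I.pos (nat_lit 0) (nat_lit 0)) T0.l4
  (TrL.c (I.pos (nat_lit 0) (nat_lit 0)) T5.l6
  TrL.n))) (by decide +kernel)
theorem bx2_6 : BoxOK sI cl5 cl4 cl7 t0 t5 b2_6 :=
  box_mk (TrL.c (I.pos (nat_lit 0) (nat_lit 0)) (xa (xb T0.l0 T0.l0) (xb T0.l9 (xa T0.l0 T0.l0)))
  (TrL.c (I.pos (nat_lit 0) (nat_lit 0)) (xa T5.l1 T5.l1)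
  (TrL.c (I.pos (nat_lit 0) (nat_lit 0)) T0.l1
  (TrL.c (I.pos (nat_lit 0) (nat_lit 0)) T5.l2
  (TrL.c (I.pos (nat_lit 0) (nat_lit 0)) (xa (xb T5.l3 T5.l3) (xb (xa T5.l3 T5.l3) (xa T5.l3 T5.l3)))
  (TrL.c (I.pos (nat_lit 0) (nat_lit 0)) T0.l2
  (TrL.c (I.pos (nat_lit 0) (nat_lit 0)) T5.l4
  (TrL.c (I.pos (nat_lit 0) (nat_lit 0)) T0.l3
  TrL.n)))))))) (by decide +kernel)
theorem bx2_7 : BoxOK sI cl5 cl4 cl7 t0 t5 b2_7 :=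
  box_mk (TrL.c (I.pos (nat_lit 0) (nat_lit 0)) (xb (xa (xb T0.l5 T0.l5) T0.l5) (xa (xb T0.l5 T0.l5) T0.l5))
  (TrL.c (I.pos (nat_lit 0) (nat_lit 0)) T5.l1
  (TrL.c (I.pos (nat_lit 0) (nat_lit 0)) T0.l1
  (TrL.c (I.pos (nat_lit 0) (nat_lit 0)) T5.l2
  (TrL.c (I.pos (nat_lit 0) (nat_lit 0)) T5.l8
  (TrL.c (I.pos (nat_lit 0) (nat_lit 0)) T0.l2
  (TrL.c (I.pos (nat_lit 0) (nat_lit 0)) T5.l4
  (TrL.c (I.pos (nat_lit 0) (nat_lit 0)) T0.l3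
  TrL.n)))))))) (by decide +kernel)
theorem bx2_8 : BoxOK sI cl5 cl4 cl7 t0 t5 b2_8 :=
  box_mk (TrL.c (I.pos (nat_lit 0) (nat_lit 0)) T5.l5
  (TrL.c (I.pos (nat_lit 0) (nat_lit 0)) T0.l4
  (TrL.c (I.pos (nat_lit 0) (nat_lit 0)) T5.l6
  TrL.n))) (by decide +kernel)
theorem bx2_9 : BoxOK sI cl5 cl4 cl7 t0 t5 b2_9 :=
  box_mk (TrL.c (I.pos (nat_lit 0) (nat_lit 0)) (xb (xa T0.l0 T0.l0) (xa (xb T0.l0 T0.l0) (xb T0.l0 T0.l0)))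
  (TrL.c (I.pos (nat_lit 0) (nat_lit 0)) T5.l1
  (TrL.c (I.pos (nat_lit 0) (nat_lit 0)) T0.l1
  (TrL.c (I.pos (nat_lit 0) (nat_lit 0)) T5.l2
  (TrL.c (I.pos (nat_lit 0) (nat_lit 0)) (xb T5.l3 (xa T5.l3 T5.l3))
  (TrL.c (I.pos (nat_lit 0) (nat_lit 0)) T0.l2
  (TrL.c (I.pos (nat_lit 0) (nat_lit 0)) T5.l4
  (TrL.c (I.pos (nat_lit 0) (nat_lit 0)) T0.l3
  TrL.n)))))))) (by decide +kernel)
theorem bx2_10 : BoxOK sI cl5 cl4 cl7 t0 t5 b2_10 :=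
  box_mk (TrL.c (I.pos (nat_lit 0) (nat_lit 0)) (xb T0.l5 T0.l6)
  (TrL.c (I.pos (nat_lit 0) (nat_lit 0)) T5.l1
  (TrL.c (I.pos (nat_lit 0) (nat_lit 0)) T0.l1
  (TrL.c (I.pos (nat_lit 0) (nat_lit 0)) T5.l2
  (TrL.c (I.pos (nat_lit 0) (nat_lit 0)) T5.l8
  (TrL.c (I.pos (nat_lit 0) (nat_lit 0)) T0.l2
  (TrL.c (I.pos (nat_lit 0) (nat_lit 0)) T5.l4
  (TrL.c (I.pos (nat_lit 0) (nat_lit 0)) T0.l3
  TrL.n)))))))) (by decide +kernel)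
theorem sv2 : StarV sI cl5 cl4 cl7 t0 t5 t2 :=
  (bt_n (bt_n (bt_n (bt_b bx2_0) (bt_b bx2_1)) (bt_n (bt_b bx2_2) (bt_n (bt_b bx2_3) (bt_b bx2_4)))) (bt_n (bt_n (bt_b bx2_5) (bt_n (bt_b bx2_6) (bt_b bx2_7))) (bt_n (bt_b bx2_8) (bt_n (bt_b bx2_9) (bt_b bx2_10)))))
def S2 : StarD := StarD.mk cl5 cl4 cl7 0 5 t2
theorem bx3_0 : BoxOK sI cl5 cl7 cl4 t5 t0 b3_0 :=
  box_mk (TrL.c (I.pos (nat_lit 0) (nat_lit 0)) (xa (xb (xa T5.l13 T5.l0) (xa (xb T5.l0 T5.l0) (xb T5.l0 T5.l0))) (xb (xa T5.l0 T5.l0) (xa (xb T5.l0 T5.l0) (xb T5.l0 T5.l0))))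
  (TrL.c (I.pos (nat_lit 0) (nat_lit 0)) (xa T0.l7 T0.l7)
  (TrL.c (I.pos (nat_lit 0) (nat_lit 0)) T5.l9
  (TrL.c (I.pos (nat_lit 0) (nat_lit 0)) T0.l8
  (TrL.c (I.pos (nat_lit 0) (nat_lit 0)) (xa T0.l12 (xb T0.l9 T0.l9))
  (TrL.c (I.pos (nat_lit 0) (nat_lit 0)) T5.l10
  (TrL.c (I.pos (nat_lit 0) (nat_lit 0)) T0.l10
  (TrL.c (I.pos (nat_lit 0) (nat_lit 0)) T5.l11
  TrL.n)))))))) (by decide +kernel)
theorem bx3_1 : BoxOK sI cl5 cl7 cl4 t5 t0 b3_1 :=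
  box_mk (TrL.c (I.pos (nat_lit 0) (nat_lit 0)) (xa (xb (xa T5.l12 T5.l12) (xa T5.l12 T5.l12)) (xb T5.l0 (xa T5.l12 T5.l0)))
  (TrL.c (I.pos (nat_lit 0) (nat_lit 0)) T0.l7
  (TrL.c (I.pos (nat_lit 0) (nat_lit 0)) T5.l9
  (TrL.c (I.pos (nat_lit 0) (nat_lit 0)) T0.l8
  (TrL.c (I.pos (nat_lit 0) (nat_lit 0)) (xa (xb T0.l11 T0.l11) (xb T0.l11 T0.l11))
  (TrL.c (I.pos (nat_lit 0) (nat_lit 0)) T5.l10
  (TrL.c (I.pos (nat_lit 0) (nat_lit 0)) T0.l10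
  (TrL.c (I.pos (nat_lit 0) (nat_lit 0)) T5.l11
  TrL.n)))))))) (by decide +kernel)
theorem bx3_2 : BoxOK sI cl5 cl7 cl4 t5 t0 b3_2 :=
  box_mk (TrL.c (I.pos (nat_lit 0) (nat_lit 0)) (xa (xa T5.l12 T5.l12) T5.l12)
  (TrL.c (I.pos (nat_lit 0) (nat_lit 0)) T0.l7
  (TrL.c (I.pos (nat_lit 0) (nat_lit 0)) T5.l9
  (TrL.c (I.pos (nat_lit 0) (nat_lit 0)) T0.l8
  (TrL.c (I.pos (nat_lit 0) (nat_lit 0)) (xa T0.l7 T0.l11)
  (TrL.c (I.pos (nat_lit 0) (nat_lit 0)) T5.l10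
  (TrL.c (I.pos (nat_lit 0) (nat_lit 0)) T0.l10
  (TrL.c (I.pos (nat_lit 0) (nat_lit 0)) T5.l11
  TrL.n)))))))) (by decide +kernel)
theorem bx3_3 : BoxOK sI cl5 cl7 cl4 t5 t0 b3_3 :=
  box_mk (TrL.c (I.pos (nat_lit 0) (nat_lit 0)) (xb (xa (xb T5.l13 T5.l13) (xb T5.l13 (xa T5.l13 T5.l13))) (xa (xb (xa T5.l13 T5.l13) (xa T5.l13 T5.l13)) (xb (xa T5.l13 T5.l13) (xa T5.l13 T5.l13))))
  (TrL.c (I.pos (nat_lit 0) (nat_lit 0)) (xb T0.l7 T0.l7)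
  (TrL.c (I.pos (nat_lit 0) (nat_lit 0)) T5.l9
  (TrL.c (I.pos (nat_lit 0) (nat_lit 0)) T0.l8
  (TrL.c (I.pos (nat_lit 0) (nat_lit 0)) (xb T0.l12 T0.l12)
  (TrL.c (I.pos (nat_lit 0) (nat_lit 0)) T5.l10
  (TrL.c (I.pos (nat_lit 0) (nat_lit 0)) T0.l10
  (TrL.c (I.pos (nat_lit 0) (nat_lit 0)) T5.l11
  TrL.n)))))))) (by decide +kernel)
theorem bx3_4 : BoxOK sI cl5 cl7 cl4 t5 t0 b3_4 :=
  box_mk (TrL.c (I.pos (nat_lit 0) (nat_lit 0)) (xa (xa (xb T5.l12 (xa (xb T5.l12 T5.l12) T5.l12)) (xb T5.l12 (xa T5.l12 T5.l12))) (xa T5.l12 (xb T5.l12 (xa T5.l12 T5.l12))))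
  (TrL.c (I.pos (nat_lit 0) (nat_lit 0)) (xa T0.l7 T0.l7)
  (TrL.c (I.pos (nat_lit 0) (nat_lit 0)) T5.l9
  (TrL.c (I.pos (nat_lit 0) (nat_lit 0)) T0.l8
  (TrL.c (I.pos (nat_lit 0) (nat_lit 0)) (xa T0.l7 T0.l11)
  (TrL.c (I.pos (nat_lit 0) (nat_lit 0)) T5.l10
  (TrL.c (I.pos (nat_lit 0) (nat_lit 0)) T0.l10
  (TrL.c (I.pos (nat_lit 0) (nat_lit 0)) T5.l11
  TrL.n)))))))) (by decide +kernel)
theorem bx3_5 : BoxOK sI cl5 cl7 cl4 t5 t0 b3_5 :=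
  box_mk (TrL.c (I.pos (nat_lit 0) (nat_lit 0)) (xb (xa (xb (xb T5.l13 T5.l13) T5.l13) (xb T5.l13 T5.l13)) (xa (xb T5.l13 T5.l13) (xb T5.l13 T5.l13)))
  (TrL.c (I.pos (nat_lit 0) (nat_lit 0)) (xb T0.l7 T0.l7)
  (TrL.c (I.pos (nat_lit 0) (nat_lit 0)) T5.l9
  (TrL.c (I.pos (nat_lit 0) (nat_lit 0)) T0.l8
  (TrL.c (I.pos (nat_lit 0) (nat_lit 0)) (xb T0.l12 T0.l12)
  (TrL.c (I.pos (nat_lit 0) (nat_lit 0)) T5.l10
  (TrL.c (I.pos (nat_lit 0) (nat_lit 0)) T0.l10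
  (TrL.c (I.pos (nat_lit 0) (nat_lit 0)) T5.l11
  TrL.n)))))))) (by decide +kernel)
theorem bx3_6 : BoxOK sI cl5 cl7 cl4 t5 t0 b3_6 :=
  box_mk (TrL.c (I.pos (nat_lit 0) (nat_lit 0)) (xa T5.l12 T5.l12)
  (TrL.c (I.pos (nat_lit 0) (nat_lit 0)) T0.l7
  (TrL.c (I.pos (nat_lit 0) (nat_lit 0)) T5.l9
  (TrL.c (I.pos (nat_lit 0) (nat_lit 0)) T0.l8
  (TrL.c (I.pos (nat_lit 0) (nat_lit 0)) (xa T0.l11 T0.l11)
  (TrL.c (I.pos (nat_lit 0) (nat_lit 0)) T5.l10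
  (TrL.c (I.pos (nat_lit 0) (nat_lit 0)) T0.l10
  (TrL.c (I.pos (nat_lit 0) (nat_lit 0)) T5.l11
  TrL.n)))))))) (by decide +kernel)
theorem bx3_7 : BoxOK sI cl5 cl7 cl4 t5 t0 b3_7 :=
  box_mk (TrL.c (I.pos (nat_lit 0) (nat_lit 0)) (xa (xb T5.l12 T5.l12) T5.l0)
  (TrL.c (I.pos (nat_lit 0) (nat_lit 0)) T0.l7
  (TrL.c (I.pos (nat_lit 0) (nat_lit 0)) T5.l9
  (TrL.c (I.pos (nat_lit 0) (nat_lit 0)) T0.l8
  (TrL.c (I.pos (nat_lit 0) (nat_lit 0)) T0.l11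
  (TrL.c (I.pos (nat_lit 0) (nat_lit 0)) T5.l10
  (TrL.c (I.pos (nat_lit 0) (nat_lit 0)) T0.l10
  (TrL.c (I.pos (nat_lit 0) (nat_lit 0)) T5.l11
  TrL.n)))))))) (by decide +kernel)
theorem bx3_8 : BoxOK sI cl5 cl7 cl4 t5 t0 b3_8 :=
  box_mk (TrL.c (I.pos (nat_lit 0) (nat_lit 0)) T5.l0
  (TrL.c (I.pos (nat_lit 0) (nat_lit 0)) T0.l7
  (TrL.c (I.pos (nat_lit 0) (nat_lit 0)) T5.l9
  (TrL.c (I.pos (nat_lit 0) (nat_lit 0)) T0.l8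
  (TrL.c (I.pos (nat_lit 0) (nat_lit 0)) T0.l12
  (TrL.c (I.pos (nat_lit 0) (nat_lit 0)) T5.l10
  (TrL.c (I.pos (nat_lit 0) (nat_lit 0)) T0.l10
  (TrL.c (I.pos (nat_lit 0) (nat_lit 0)) T5.l11
  TrL.n)))))))) (by decide +kernel)
theorem bx3_9 : BoxOK sI cl5 cl7 cl4 t5 t0 b3_9 :=
  box_mk (TrL.c (I.pos (nat_lit 0) (nat_lit 0)) (xa T5.l12 (xa T5.l12 (xb T5.l12 (xa T5.l12 T5.l12))))
  (TrL.c (I.pos (nat_lit 0) (nat_lit 0)) (xa T0.l7 T0.l7)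
  (TrL.c (I.pos (nat_lit 0) (nat_lit 0)) T5.l9
  (TrL.c (I.pos (nat_lit 0) (nat_lit 0)) T0.l8
  (TrL.c (I.pos (nat_lit 0) (nat_lit 0)) T0.l11
  (TrL.c (I.pos (nat_lit 0) (nat_lit 0)) T5.l10
  (TrL.c (I.pos (nat_lit 0) (nat_lit 0)) T0.l10
  (TrL.c (I.pos (nat_lit 0) (nat_lit 0)) T5.l11
  TrL.n)))))))) (by decide +kernel)
theorem bx3_10 : BoxOK sI cl5 cl7 cl4 t5 t0 b3_10 :=
  box_mk (TrL.c (I.pos (nat_lit 0) (nat_lit 0)) (xb (xa T5.l12 T5.l12) (xa T5.l12 T5.l12))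
  (TrL.c (I.pos (nat_lit 0) (nat_lit 0)) T0.l7
  (TrL.c (I.pos (nat_lit 0) (nat_lit 0)) T5.l9
  (TrL.c (I.pos (nat_lit 0) (nat_lit 0)) T0.l8
  (TrL.c (I.pos (nat_lit 0) (nat_lit 0)) (xb T0.l11 T0.l11)
  (TrL.c (I.pos (nat_lit 0) (nat_lit 0)) T5.l10
  (TrL.c (I.pos (nat_lit 0) (nat_lit 0)) T0.l10
  (TrL.c (I.pos (nat_lit 0) (nat_lit 0)) T5.l11
  TrL.n)))))))) (by decide +kernel)
theorem bx3_11 : BoxOK sI cl5 cl7 cl4 t5 t0 b3_11 :=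
  box_mk (TrL.c (I.pos (nat_lit 0) (nat_lit 0)) (xa (xa (xb (xa T5.l12 T5.l12) T5.l12) T5.l12) T5.l12)
  (TrL.c (I.pos (nat_lit 0) (nat_lit 0)) (xa T0.l7 T0.l7)
  (TrL.c (I.pos (nat_lit 0) (nat_lit 0)) T5.l9
  (TrL.c (I.pos (nat_lit 0) (nat_lit 0)) T0.l8
  (TrL.c (I.pos (nat_lit 0) (nat_lit 0)) (xa T0.l7 T0.l11)
  (TrL.c (I.pos (nat_lit 0) (nat_lit 0)) T5.l10
  (TrL.c (I.pos (nat_lit 0) (nat_lit 0)) T0.l10
  (TrL.c (I.pos (nat_lit 0) (nat_lit 0)) T5.l11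
  TrL.n)))))))) (by decide +kernel)
theorem bx3_12 : BoxOK sI cl5 cl7 cl4 t5 t0 b3_12 :=
  box_mk (TrL.c (I.pos (nat_lit 0) (nat_lit 0)) (xa (xb T5.l0 T5.l0) (xa (xb T5.l0 (xb T5.l0 T5.l0)) (xb T5.l3 (xa T5.l3 T5.l3))))
  (TrL.c (I.pos (nat_lit 0) (nat_lit 0)) (xa T0.l7 T0.l7)
  (TrL.c (I.pos (nat_lit 0) (nat_lit 0)) T5.l9
  (TrL.c (I.pos (nat_lit 0) (nat_lit 0)) T0.l8
  (TrL.c (I.pos (nat_lit 0) (nat_lit 0)) (xa T0.l9 (xb T0.l9 T0.l9))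
  (TrL.c (I.pos (nat_lit 0) (nat_lit 0)) (xa T5.l10 T5.l1)
  (TrL.c (I.pos (nat_lit 0) (nat_lit 0)) T0.l10
  (TrL.c (I.pos (nat_lit 0) (nat_lit 0)) T5.l11
  TrL.n)))))))) (by decide +kernel)
theorem bx3_13 : BoxOK sI cl5 cl7 cl4 t5 t0 b3_13 :=
  box_mk (TrL.c (I.pos (nat_lit 0) (nat_lit 0)) T5.l12
  (TrL.c (I.pos (nat_lit 0) (nat_lit 0)) T0.l7
  (TrL.c (I.pos (nat_lit 0) (nat_lit 0)) T5.l9
  (TrL.c (I.pos (nat_lit 0) (nat_lit 0)) T0.l8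
  (TrL.c (I.pos (nat_lit 0) (nat_lit 0)) T0.l11
  (TrL.c (I.pos (nat_lit 0) (nat_lit 0)) T5.l10
  (TrL.c (I.pos (nat_lit 0) (nat_lit 0)) T0.l10
  (TrL.c (I.pos (nat_lit 0) (nat_lit 0)) T5.l11
  TrL.n)))))))) (by decide +kernel)
theorem bx3_14 : BoxOK sI cl5 cl7 cl4 t5 t0 b3_14 :=
  box_mk (TrL.c (I.pos (nat_lit 0) (nat_lit 0)) T5.l12
  (TrL.c (I.pos (nat_lit 0) (nat_lit 0)) T0.l7
  (TrL.c (I.pos (nat_lit 0) (nat_lit 0)) T5.l9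
  (TrL.c (I.pos (nat_lit 0) (nat_lit 0)) T0.l8
  (TrL.c (I.pos (nat_lit 0) (nat_lit 0)) T0.l11
  (TrL.c (I.pos (nat_lit 0) (nat_lit 0)) T5.l10
  (TrL.c (I.pos (nat_lit 0) (nat_lit 0)) T0.l10
  (TrL.c (I.pos (nat_lit 0) (nat_lit 0)) T5.l11
  TrL.n)))))))) (by decide +kernel)
theorem bx3_15 : BoxOK sI cl5 cl7 cl4 t5 t0 b3_15 :=
  box_mk (TrL.c (I.pos (nat_lit 0) (nat_lit 0)) (xa (xb (xa T5.l0 T5.l0) (xa T5.l0 T5.l0)) (xb (xa T5.l0 T5.l0) (xa T5.l0 (xb T5.l0 T5.l0))))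
  (TrL.c (I.pos (nat_lit 0) (nat_lit 0)) T0.l7
  (TrL.c (I.pos (nat_lit 0) (nat_lit 0)) T5.l9
  (TrL.c (I.pos (nat_lit 0) (nat_lit 0)) T0.l8
  (TrL.c (I.pos (nat_lit 0) (nat_lit 0)) (xa T0.l9 T0.l9)
  (TrL.c (I.pos (nat_lit 0) (nat_lit 0)) T5.l10
  (TrL.c (I.pos (nat_lit 0) (nat_lit 0)) T0.l10
  (TrL.c (I.pos (nat_lit 0) (nat_lit 0)) T5.l11
  TrL.n)))))))) (by decide +kernel)
theorem sv3 : StarV sI cl5 cl7 cl4 t5 t0 t3 :=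
  (bt_n (bt_n (bt_n (bt_n (bt_b bx3_0) (bt_b bx3_1)) (bt_n (bt_b bx3_2) (bt_b bx3_3))) (bt_n (bt_n (bt_b bx3_4) (bt_b bx3_5)) (bt_n (bt_b bx3_6) (bt_b bx3_7)))) (bt_n (bt_n (bt_n (bt_b bx3_8) (bt_b bx3_9)) (bt_n (bt_b bx3_10) (bt_b bx3_11))) (bt_n (bt_n (bt_b bx3_12) (bt_b bx3_13)) (bt_n (bt_b bx3_14) (bt_b bx3_15)))))
def S3 : StarD := StarD.mk cl5 cl7 cl4 5 0 t3
theorem bx4_0 : BoxOK sI cl7 cl4 cl5 t1 t3 b4_0 :=
  box_mk (TrL.c (I.pos (nat_lit 0) (nat_lit 0)) (xa (xb (xa T1.l4 T1.l0) (xa (xb T1.l0 T1.l0) (xb T1.l0 T1.l0))) (xb (xa T1.l0 T1.l0) (xa (xb T1.l0 (xa T1.l0 T1.l0)) (xb T1.l0 (xa T1.l0 T1.l0)))))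
  (TrL.c (I.pos (nat_lit 0) (nat_lit 0)) (xa (xb T3.l1 T3.l1) (xb T3.l1 T3.l1))
  (TrL.c (I.pos (nat_lit 0) (nat_lit 111196574)) (xR (xR T1.l1 T1.l1) (xR T1.l1 (xR T1.l1 T1.l1)))
  (TrL.c (I.pos (nat_lit 0) (nat_lit 77433728)) (xR (xR T3.l2 T3.l2) (xR T3.l2 T3.l2))
  (TrL.c (I.pos (nat_lit 0) (nat_lit 0)) (xb (xa T3.l5 (xk (xb T3.l3 T3.l3) T3.l3)) (xa (xk (xb T3.l3 T3.l3) (xb T3.l3 T3.l3)) (xk (xb T3.l3 (xa T3.l3 T3.l3)) (xb T3.l3 (xa T3.l3 (xb T3.l3 T3.l3))))))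
  (TrL.c (I.pos (nat_lit 0) (nat_lit 0)) T1.l2
  (TrL.c (I.mix (nat_lit 29511666) (nat_lit 77433728)) (xR T3.l4 (xR T3.l4 (xR T3.l4 T3.l4)))
  (TrL.c (I.mix (nat_lit 29511666) (nat_lit 46070178)) (xR T1.l3 (xR T1.l3 T1.l3))
  TrL.n)))))))) (by decide +kernel)
theorem bx4_1 : BoxOK sI cl7 cl4 cl5 t1 t3 b4_1 :=
  box_mk (TrL.c (I.pos (nat_lit 0) (nat_lit 0)) (xb (xa (xa T1.l4 T1.l4) T1.l4) (xa (xa T1.l4 T1.l4) T1.l4))
  (TrL.c (I.pos (nat_lit 0) (nat_lit 0)) (xa T3.l1 T3.l1)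
  (TrL.c (I.pos (nat_lit 0) (nat_lit 111196574)) (xR (xR T1.l1 T1.l1) (xR T1.l1 (xR T1.l1 T1.l1)))
  (TrL.c (I.pos (nat_lit 0) (nat_lit 77433728)) (xR (xR T3.l2 T3.l2) (xR T3.l2 T3.l2))
  (TrL.c (I.pos (nat_lit 0) (nat_lit 0)) (xa (xb T3.l5 T3.l5) (xb T3.l5 T3.l5))
  (TrL.c (I.pos (nat_lit 0) (nat_lit 0)) T1.l2
  (TrL.c (I.mix (nat_lit 29511666) (nat_lit 77433728)) (xR T3.l4 (xR T3.l4 (xR T3.l4 T3.l4)))
  (TrL.c (I.mix (nat_lit 29511666) (nat_lit 46070178)) (xR T1.l3 (xR T1.l3 T1.l3))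
  TrL.n)))))))) (by decide +kernel)
theorem bx4_2 : BoxOK sI cl7 cl4 cl5 t1 t3 b4_2 :=
  box_mk (TrL.c (I.pos (nat_lit 0) (nat_lit 0)) (xb (xa (xb (xb T1.l4 T1.l4) T1.l4) (xb (xa T1.l0 T1.l0) T1.l4)) (xa (xb T1.l4 (xa T1.l4 T1.l4)) (xb (xa T1.l4 T1.l4) (xa T1.l4 T1.l4))))
  (TrL.c (I.pos (nat_lit 0) (nat_lit 0)) (xb T3.l1 (xa T3.l1 T3.l1))
  (TrL.c (I.pos (nat_lit 0) (nat_lit 111196574)) (xR (xR T1.l1 T1.l1) (xR T1.l1 (xb T1.l1 (xR T1.l1 T1.l1))))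
  (TrL.c (I.pos (nat_lit 0) (nat_lit 77433728)) (xR (xR T3.l2 T3.l2) (xR T3.l2 T3.l2))
  (TrL.c (I.pos (nat_lit 0) (nat_lit 0)) (xb (xa (xb T3.l5 T3.l5) (xk (xb T3.l5 T3.l3) (xb T3.l5 T3.l3))) (xa (xb (xk T3.l3 T3.l3) (xk T3.l3 T3.l3)) (xk (xb T3.l3 (xb T3.l3 (xa T3.l3 T3.l3))) (xb T3.l3 (xb T3.l3 (xa T3.l3 (xk T3.l3 T3.l3)))))))
  (TrL.c (I.pos (nat_lit 0) (nat_lit 0)) T1.l2
  (TrL.c (I.mix (nat_lit 29511666) (nat_lit 77433728)) (xR T3.l4 (xR T3.l4 (xR T3.l4 T3.l4)))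
  (TrL.c (I.mix (nat_lit 29511666) (nat_lit 46070178)) (xR T1.l3 (xR T1.l3 T1.l3))
  TrL.n)))))))) (by decide +kernel)
theorem bx4_3 : BoxOK sI cl7 cl4 cl5 t1 t3 b4_3 :=
  box_mk (TrL.c (I.pos (nat_lit 0) (nat_lit 0)) (xa T3.l1 T3.l1)
  (TrL.c (I.pos (nat_lit 0) (nat_lit 0)) T1.l1
  (TrL.c (I.mix (nat_lit 29511666) (nat_lit 77433728)) (xR (xR T3.l6 T3.l6) (xR T3.l6 (xR T3.l2 T3.l2)))
  (TrL.c (I.mix (nat_lit 29511666) (nat_lit 46070178)) (xR (xR T1.l5 T1.l5) T1.l1)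
  TrL.n)))) (by decide +kernel)
theorem bx4_4 : BoxOK sI cl7 cl4 cl5 t1 t3 b4_4 :=
  box_mk (TrL.c (I.pos (nat_lit 0) (nat_lit 0)) T3.l7
  (TrL.c (I.pos (nat_lit 0) (nat_lit 0)) T1.l6
  (TrL.c (I.mix (nat_lit 29511666) (nat_lit 77433728)) (xR (xR T3.l6 T3.l6) (xR T3.l6 (xR T3.l6 T3.l6)))
  (TrL.c (I.mix (nat_lit 29511666) (nat_lit 46070178)) (xR (xR T1.l5 T1.l5) T1.l11)
  TrL.n)))) (by decide +kernel)
theorem bx4_5 : BoxOK sI cl7 cl4 cl5 t1 t3 b4_5 :=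
  box_mk (TrL.c (I.pos (nat_lit 0) (nat_lit 0)) (xb T1.l7 T1.l4)
  (TrL.c (I.pos (nat_lit 0) (nat_lit 0)) T3.l7
  (TrL.c (I.pos (nat_lit 0) (nat_lit 111196574)) (xR T1.l1 (xR T1.l1 T1.l1))
  (TrL.c (I.pos (nat_lit 0) (nat_lit 77433728)) (xR T3.l4 T3.l4)
  (TrL.c (I.pos (nat_lit 0) (nat_lit 0)) T3.l5
  (TrL.c (I.pos (nat_lit 0) (nat_lit 0)) T1.l2
  (TrL.c (I.mix (nat_lit 29511666) (nat_lit 77433728)) (xR T3.l4 T3.l4)
  (TrL.c (I.mix (nat_lit 29511666) (nat_lit 46070178)) T1.l3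
  TrL.n)))))))) (by decide +kernel)
theorem bx4_6 : BoxOK sI cl7 cl4 cl5 t1 t3 b4_6 :=
  box_mk (TrL.c (I.pos (nat_lit 0) (nat_lit 0)) T1.l4
  (TrL.c (I.pos (nat_lit 0) (nat_lit 0)) T3.l1
  (TrL.c (I.pos (nat_lit 0) (nat_lit 111196574)) (xR T1.l1 T1.l1)
  (TrL.c (I.pos (nat_lit 0) (nat_lit 77433728)) (xR T3.l2 T3.l2)
  (TrL.c (I.pos (nat_lit 0) (nat_lit 0)) T3.l5
  (TrL.c (I.pos (nat_lit 0) (nat_lit 0)) T1.l2
  (TrL.c (I.mix (nat_lit 29511666) (nat_lit 77433728)) T3.l4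
  (TrL.c (I.mix (nat_lit 29511666) (nat_lit 46070178)) T1.l3
  TrL.n)))))))) (by decide +kernel)
theorem bx4_7 : BoxOK sI cl7 cl4 cl5 t1 t3 b4_7 :=
  box_mk (TrL.c (I.pos (nat_lit 0) (nat_lit 0)) (xa (xb T1.l0 (xa T1.l0 T1.l0)) (xb (xa T1.l0 (xb T1.l0 T1.l0)) (xa T1.l0 (xb (xa T1.l0 T1.l0) (xa T1.l0 T1.l0)))))
  (TrL.c (I.pos (nat_lit 0) (nat_lit 0)) (xa T3.l1 (xb T3.l10 (xk T3.l1 T3.l1)))
  (TrL.c (I.pos (nat_lit 0) (nat_lit 111196574)) (xR (xR T1.l1 T1.l1) (xR T1.l1 (xR T1.l1 T1.l11)))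
  (TrL.c (I.pos (nat_lit 0) (nat_lit 77433728)) (xR (xR T3.l2 T3.l2) (xR T3.l2 (xR T3.l2 T3.l2)))
  (TrL.c (I.pos (nat_lit 0) (nat_lit 0)) (xa (xb (xk (xa T3.l3 T3.l3) (xa T3.l3 T3.l3)) (xk T3.l3 T3.l3)) (xb (xk (xa (xb T3.l3 T3.l3) (xb (xk T3.l3 T3.l3) (xk T3.l3 T3.l3))) (xa (xb T3.l3 T3.l3) (xb (xk T3.l3 T3.l3) (xk T3.l3 T3.l3)))) (xk (xa (xb T3.l3 T3.l3) (xb (xk T3.l3 T3.l3) (xk T3.l3 T3.l3))) (xa (xb T3.l3 T3.l3) (xb (xk T3.l3 T3.l3) (xk T3.l3 T3.l3))))))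
  (TrL.c (I.pos (nat_lit 0) (nat_lit 0)) (xk (xa T1.l2 T1.l2) (xa T1.l2 T1.l2))
  (TrL.c (I.mix (nat_lit 29511666) (nat_lit 77433728)) (xR (xR (xR T3.l4 T3.l4) T3.l4) (xR T3.l4 (xR T3.l4 (xb T3.l4 T3.l4))))
  (TrL.c (I.mix (nat_lit 29511666) (nat_lit 46070178)) (xR (xR T1.l3 T1.l3) (xR T1.l3 T1.l3))
  TrL.n)))))))) (by decide +kernel)
theorem bx4_8 : BoxOK sI cl7 cl4 cl5 t1 t3 b4_8 :=
  box_mk (TrL.c (I.pos (nat_lit 0) (nat_lit 0)) (xb (xa (xb T1.l7 T1.l7) T1.l7) (xa (xb T1.l7 T1.l7) T1.l7))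
  (TrL.c (I.pos (nat_lit 0) (nat_lit 0)) T3.l7
  (TrL.c (I.pos (nat_lit 0) (nat_lit 111196574)) (xR T1.l1 (xR T1.l1 (xR T1.l1 T1.l1)))
  (TrL.c (I.pos (nat_lit 0) (nat_lit 77433728)) (xR T3.l2 T3.l4)
  (TrL.c (I.pos (nat_lit 0) (nat_lit 0)) T3.l8
  (TrL.c (I.pos (nat_lit 0) (nat_lit 0)) T1.l2
  (TrL.c (I.mix (nat_lit 29511666) (nat_lit 77433728)) (xR T3.l4 T3.l4)
  (TrL.c (I.mix (nat_lit 29511666) (nat_lit 46070178)) T1.l11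
  TrL.n)))))))) (by decide +kernel)
theorem bx4_9 : BoxOK sI cl7 cl4 cl5 t1 t3 b4_9 :=
  box_mk (TrL.c (I.pos (nat_lit 0) (nat_lit 0)) (xa (xb T1.l0 (xa T1.l0 T1.l0)) (xb T1.l0 (xa T1.l0 T1.l0)))
  (TrL.c (I.pos (nat_lit 0) (nat_lit 0)) (xk T3.l1 T3.l1)
  (TrL.c (I.pos (nat_lit 0) (nat_lit 111196574)) (xR T1.l1 T1.l1)
  (TrL.c (I.pos (nat_lit 0) (nat_lit 77433728)) (xR T3.l2 T3.l2)
  (TrL.c (I.pos (nat_lit 0) (nat_lit 0)) (xk (xa T3.l3 T3.l3) (xa T3.l3 T3.l3))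
  (TrL.c (I.pos (nat_lit 0) (nat_lit 0)) T1.l2
  (TrL.c (I.mix (nat_lit 29511666) (nat_lit 77433728)) (xR T3.l4 T3.l4)
  (TrL.c (I.mix (nat_lit 29511666) (nat_lit 46070178)) (xR T1.l3 T1.l3)
  TrL.n)))))))) (by decide +kernel)
theorem bx4_10 : BoxOK sI cl7 cl4 cl5 t1 t3 b4_10 :=
  box_mk (TrL.c (I.pos (nat_lit 0) (nat_lit 0)) (xb T1.l7 T1.l7)
  (TrL.c (I.pos (nat_lit 0) (nat_lit 0)) T3.l1
  (TrL.c (I.pos (nat_lit 0) (nat_lit 111196574)) (xR T1.l1 T1.l1)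
  (TrL.c (I.pos (nat_lit 0) (nat_lit 77433728)) (xR T3.l2 T3.l4)
  (TrL.c (I.pos (nat_lit 0) (nat_lit 0)) T3.l5
  (TrL.c (I.pos (nat_lit 0) (nat_lit 0)) T1.l2
  (TrL.c (I.mix (nat_lit 29511666) (nat_lit 77433728)) T3.l4
  (TrL.c (I.mix (nat_lit 29511666) (nat_lit 46070178)) T1.l3
  TrL.n)))))))) (by decide +kernel)
theorem sv4 : StarV sI cl7 cl4 cl5 t1 t3 t4 :=
  (bt_n (bt_n (bt_n (bt_b bx4_0) (bt_b bx4_1)) (bt_n (bt_b bx4_2) (bt_n (bt_b bx4_3) (bt_b bx4_4)))) (bt_n (bt_n (bt_b bx4_5) (bt_n (bt_b bx4_6) (bt_b bx4_7))) (bt_n (bt_b bx4_8) (bt_n (bt_b bx4_9) (bt_b bx4_10)))))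
def S4 : StarD := StarD.mk cl7 cl4 cl5 1 3 t4
theorem bx5_0 : BoxOK sI cl7 cl5 cl4 t3 t1 b5_0 :=
  box_mk (TrL.c (I.pos (nat_lit 0) (nat_lit 0)) (xa (xb (xa T3.l15 T3.l0) (xa (xb T3.l0 (xa T3.l0 T3.l0)) (xb T3.l0 (xa T3.l0 T3.l0)))) (xb (xa T3.l0 T3.l0) (xa (xb T3.l0 (xa T3.l0 T3.l0)) (xb T3.l0 T3.l0))))
  (TrL.c (I.pos (nat_lit 0) (nat_lit 0)) (xa (xb T1.l8 T1.l8) (xb T1.l8 T1.l8))
  (TrL.c (I.pos (nat_lit 0) (nat_lit 111196574)) (xR (xR T3.l4 T3.l4) (xR T3.l9 (xR T3.l4 T3.l4)))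
  (TrL.c (I.pos (nat_lit 0) (nat_lit 77433728)) (xR (xR T1.l3 T1.l9) (xR T1.l9 T1.l9))
  (TrL.c (I.pos (nat_lit 0) (nat_lit 0)) (xa (xb T1.l10 (xb T1.l10 T1.l10)) (xb T1.l10 (xk (xb T1.l10 (xa T1.l10 (xk T1.l10 T1.l10))) (xb T1.l10 (xa T1.l10 (xk (xb T1.l10 T1.l10) (xb T1.l10 (xa T1.l10 T1.l10))))))))
  (TrL.c (I.pos (nat_lit 0) (nat_lit 0)) T3.l10
  (TrL.c (I.mix (nat_lit 29511666) (nat_lit 77433728)) (xR T1.l11 (xR T1.l11 (xR T1.l11 T1.l11)))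
  (TrL.c (I.mix (nat_lit 29511666) (nat_lit 46070178)) (xR T3.l11 T3.l2)
  TrL.n)))))))) (by decide +kernel)
theorem bx5_1 : BoxOK sI cl7 cl5 cl4 t3 t1 b5_1 :=
  box_mk (TrL.c (I.pos (nat_lit 0) (nat_lit 0)) (xb (xa T3.l12 T3.l12) (xa (xb T3.l12 T3.l12) T3.l12))
  (TrL.c (I.pos (nat_lit 0) (nat_lit 0)) (xb T1.l8 T1.l8)
  (TrL.c (I.pos (nat_lit 0) (nat_lit 111196574)) (xR (xR T3.l4 T3.l4) (xR T3.l9 (xR T3.l9 T3.l9)))
  (TrL.c (I.pos (nat_lit 0) (nat_lit 77433728)) (xR (xR T1.l9 T1.l9) (xR T1.l9 T1.l9))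
  (TrL.c (I.pos (nat_lit 0) (nat_lit 0)) (xa (xb T1.l12 T1.l12) (xb T1.l12 T1.l12))
  (TrL.c (I.pos (nat_lit 0) (nat_lit 0)) T3.l10
  (TrL.c (I.mix (nat_lit 29511666) (nat_lit 77433728)) (xR T1.l11 (xR T1.l11 T1.l11))
  (TrL.c (I.mix (nat_lit 29511666) (nat_lit 46070178)) (xR T3.l11 T3.l2)
  TrL.n)))))))) (by decide +kernel)
theorem bx5_2 : BoxOK sI cl7 cl5 cl4 t3 t1 b5_2 :=
  box_mk (TrL.c (I.pos (nat_lit 0) (nat_lit 0)) T1.l8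
  (TrL.c (I.pos (nat_lit 0) (nat_lit 0)) T3.l9
  (TrL.c (I.mix (nat_lit 29511666) (nat_lit 77433728)) (xR T1.l11 T1.l9)
  (TrL.c (I.mix (nat_lit 29511666) (nat_lit 46070178)) T3.l4
  TrL.n)))) (by decide +kernel)
theorem bx5_3 : BoxOK sI cl7 cl5 cl4 t3 t1 b5_3 :=
  box_mk (TrL.c (I.pos (nat_lit 0) (nat_lit 0)) (xb (xa T3.l15 T3.l15) (xa (xb T3.l15 (xa T3.l15 T3.l15)) (xa T3.l15 T3.l15)))
  (TrL.c (I.pos (nat_lit 0) (nat_lit 0)) (xb T1.l8 T1.l8)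
  (TrL.c (I.pos (nat_lit 0) (nat_lit 111196574)) (xR (xR T3.l4 T3.l4) (xR T3.l9 (xR T3.l9 T3.l9)))
  (TrL.c (I.pos (nat_lit 0) (nat_lit 77433728)) (xR (xR T1.l9 T1.l9) (xR T1.l9 T1.l9))
  (TrL.c (I.pos (nat_lit 0) (nat_lit 0)) (xb T1.l15 (xb T1.l10 (xk T1.l10 T1.l10)))
  (TrL.c (I.pos (nat_lit 0) (nat_lit 0)) T3.l10
  (TrL.c (I.mix (nat_lit 29511666) (nat_lit 77433728)) (xR T1.l11 (xR T1.l11 (xR T1.l11 T1.l11)))
  (TrL.c (I.mix (nat_lit 29511666) (nat_lit 46070178)) (xR T3.l11 T3.l2)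
  TrL.n)))))))) (by decide +kernel)
theorem bx5_4 : BoxOK sI cl7 cl5 cl4 t3 t1 b5_4 :=
  box_mk (TrL.c (I.pos (nat_lit 0) (nat_lit 0)) (xb T3.l12 (xa T3.l12 T3.l12))
  (TrL.c (I.pos (nat_lit 0) (nat_lit 0)) T1.l8
  (TrL.c (I.pos (nat_lit 0) (nat_lit 111196574)) (xR T3.l4 T3.l9)
  (TrL.c (I.pos (nat_lit 0) (nat_lit 77433728)) T1.l9
  (TrL.c (I.pos (nat_lit 0) (nat_lit 0)) T1.l12
  (TrL.c (I.pos (nat_lit 0) (nat_lit 0)) T3.l10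
  (TrL.c (I.mix (nat_lit 29511666) (nat_lit 77433728)) (xR T1.l11 T1.l11)
  (TrL.c (I.mix (nat_lit 29511666) (nat_lit 46070178)) T3.l11
  TrL.n)))))))) (by decide +kernel)
theorem bx5_5 : BoxOK sI cl7 cl5 cl4 t3 t1 b5_5 :=
  box_mk (TrL.c (I.pos (nat_lit 0) (nat_lit 0)) T3.l12
  (TrL.c (I.pos (nat_lit 0) (nat_lit 0)) T1.l8
  (TrL.c (I.pos (nat_lit 0) (nat_lit 111196574)) (xR (xR T3.l4 T3.l9) T3.l9)
  (TrL.c (I.pos (nat_lit 0) (nat_lit 77433728)) (xR T1.l9 T1.l9)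
  (TrL.c (I.pos (nat_lit 0) (nat_lit 0)) T1.l12
  (TrL.c (I.pos (nat_lit 0) (nat_lit 0)) T3.l10
  (TrL.c (I.mix (nat_lit 29511666) (nat_lit 77433728)) (xR T1.l11 T1.l11)
  (TrL.c (I.mix (nat_lit 29511666) (nat_lit 46070178)) T3.l11
  TrL.n)))))))) (by decide +kernel)
theorem bx5_6 : BoxOK sI cl7 cl5 cl4 t3 t1 b5_6 :=
  box_mk (TrL.c (I.pos (nat_lit 0) (nat_lit 0)) T1.l13
  (TrL.c (I.pos (nat_lit 0) (nat_lit 0)) T3.l9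
  (TrL.c (I.mix (nat_lit 29511666) (nat_lit 77433728)) T1.l11
  (TrL.c (I.mix (nat_lit 29511666) (nat_lit 46070178)) T3.l4
  TrL.n)))) (by decide +kernel)
theorem bx5_7 : BoxOK sI cl7 cl5 cl4 t3 t1 b5_7 :=
  box_mk (TrL.c (I.pos (nat_lit 0) (nat_lit 0)) T3.l15
  (TrL.c (I.pos (nat_lit 0) (nat_lit 0)) T1.l8
  (TrL.c (I.pos (nat_lit 0) (nat_lit 111196574)) (xR (xR T3.l4 T3.l4) T3.l9)
  (TrL.c (I.pos (nat_lit 0) (nat_lit 77433728)) (xR (xR T1.l9 T1.l9) T1.l9)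
  (TrL.c (I.pos (nat_lit 0) (nat_lit 0)) T1.l15
  (TrL.c (I.pos (nat_lit 0) (nat_lit 0)) T3.l10
  (TrL.c (I.mix (nat_lit 29511666) (nat_lit 77433728)) (xR T1.l11 T1.l11)
  (TrL.c (I.mix (nat_lit 29511666) (nat_lit 46070178)) T3.l11
  TrL.n)))))))) (by decide +kernel)
theorem bx5_8 : BoxOK sI cl7 cl5 cl4 t3 t1 b5_8 :=
  box_mk (TrL.c (I.pos (nat_lit 0) (nat_lit 0)) (xb (xa (xb (xa (xb T3.l15 T3.l15) (xb T3.l15 T3.l15)) T3.l15) (xb (xa (xb T3.l15 T3.l15) (xb T3.l0 T3.l0)) T3.l15)) (xa (xb T3.l15 T3.l15) (xb T3.l15 T3.l15)))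
  (TrL.c (I.pos (nat_lit 0) (nat_lit 0)) (xb T1.l8 T1.l8)
  (TrL.c (I.pos (nat_lit 0) (nat_lit 111196574)) (xR (xR T3.l4 T3.l4) (xR T3.l9 (xR T3.l9 T3.l4)))
  (TrL.c (I.pos (nat_lit 0) (nat_lit 77433728)) (xR (xR T1.l3 T1.l9) (xR T1.l9 T1.l9))
  (TrL.c (I.pos (nat_lit 0) (nat_lit 0)) (xb (xk T1.l15 T1.l15) (xk T1.l15 T1.l15))
  (TrL.c (I.pos (nat_lit 0) (nat_lit 0)) T3.l10
  (TrL.c (I.mix (nat_lit 29511666) (nat_lit 77433728)) (xR T1.l11 (xR T1.l11 (xR T1.l11 T1.l11)))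
  (TrL.c (I.mix (nat_lit 29511666) (nat_lit 46070178)) (xR (xR T3.l11 T3.l11) T3.l2)
  TrL.n)))))))) (by decide +kernel)
theorem bx5_9 : BoxOK sI cl7 cl5 cl4 t3 t1 b5_9 :=
  box_mk (TrL.c (I.pos (nat_lit 0) (nat_lit 0)) (xa (xb T3.l12 (xb T3.l12 (xa T3.l12 T3.l12))) (xb T3.l12 (xa T3.l12 T3.l12)))
  (TrL.c (I.pos (nat_lit 0) (nat_lit 0)) T1.l8
  (TrL.c (I.pos (nat_lit 0) (nat_lit 111196574)) (xR T3.l4 T3.l9)
  (TrL.c (I.pos (nat_lit 0) (nat_lit 77433728)) T1.l9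
  (TrL.c (I.pos (nat_lit 0) (nat_lit 0)) T1.l12
  (TrL.c (I.pos (nat_lit 0) (nat_lit 0)) T3.l10
  (TrL.c (I.mix (nat_lit 29511666) (nat_lit 77433728)) (xR T1.l11 T1.l11)
  (TrL.c (I.mix (nat_lit 29511666) (nat_lit 46070178)) T3.l11
  TrL.n)))))))) (by decide +kernel)
theorem bx5_10 : BoxOK sI cl7 cl5 cl4 t3 t1 b5_10 :=
  box_mk (TrL.c (I.pos (nat_lit 0) (nat_lit 0)) (xb (xa T3.l12 T3.l12) (xa (xb T3.l12 T3.l12) T3.l12))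
  (TrL.c (I.pos (nat_lit 0) (nat_lit 0)) T1.l8
  (TrL.c (I.pos (nat_lit 0) (nat_lit 111196574)) (xR (xR T3.l4 T3.l9) (xR T3.l9 T3.l9))
  (TrL.c (I.pos (nat_lit 0) (nat_lit 77433728)) (xR (xR T1.l3 T1.l3) (xR T1.l9 T1.l9))
  (TrL.c (I.pos (nat_lit 0) (nat_lit 0)) (xb (xa T1.l12 T1.l12) T1.l12)
  (TrL.c (I.pos (nat_lit 0) (nat_lit 0)) T3.l10
  (TrL.c (I.mix (nat_lit 29511666) (nat_lit 77433728)) (xR T1.l11 (xR T1.l11 T1.l11))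
  (TrL.c (I.mix (nat_lit 29511666) (nat_lit 46070178)) (xR T3.l4 T3.l2)
  TrL.n)))))))) (by decide +kernel)
theorem bx5_11 : BoxOK sI cl7 cl5 cl4 t3 t1 b5_11 :=
  box_mk (TrL.c (I.pos (nat_lit 0) (nat_lit 0)) T1.l8
  (TrL.c (I.pos (nat_lit 0) (nat_lit 0)) T3.l9
  (TrL.c (I.mix (nat_lit 29511666) (nat_lit 77433728)) (xR (xR T1.l11 T1.l3) T1.l9)
  (TrL.c (I.mix (nat_lit 29511666) (nat_lit 46070178)) (xR (xR T3.l4 T3.l4) T3.l4)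
  TrL.n)))) (by decide +kernel)
theorem bx5_12 : BoxOK sI cl7 cl5 cl4 t3 t1 b5_12 :=
  box_mk (TrL.c (I.pos (nat_lit 0) (nat_lit 0)) (xa (xb (xa T3.l0 (xb T3.l0 T3.l0)) (xa (xb T3.l0 T3.l0) (xb T3.l0 T3.l0))) (xb (xa (xb T3.l3 (xa T3.l0 T3.l3)) (xb (xa T3.l3 T3.l3) (xa T3.l3 T3.l3))) (xa (xb (xa T3.l0 T3.l3) (xa T3.l0 T3.l3)) (xb (xa T3.l3 T3.l3) (xa T3.l3 (xc T3.l3 T3.l3))))))
  (TrL.c (I.pos (nat_lit 0) (nat_lit 0)) (xa (xb (xk T1.l8 T1.l8) (xk T1.l8 T1.l8)) (xb (xk T1.l2 T1.l2) (xk T1.l2 T1.l2)))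
  (TrL.c (I.pos (nat_lit 0) (nat_lit 111196574)) (xR (xR (xR T3.l4 T3.l4) (xR T3.l4 T3.l9)) (xR T3.l4 T3.l4))
  (TrL.c (I.pos (nat_lit 0) (nat_lit 77433728)) (xR (xR T1.l3 T1.l9) (xR T1.l9 (xa T1.l9 (xR T1.l9 T1.l9))))
  (TrL.c (I.pos (nat_lit 0) (nat_lit 0)) (xa (xb (xk (xa T1.l10 T1.l10) (xa T1.l10 T1.l10)) (xk T1.l10 T1.l10)) (xb (xk (xa (xb T1.l10 T1.l10) (xb (xk T1.l10 T1.l10) T1.l10)) (xa (xb T1.l10 T1.l10) (xb (xk T1.l10 T1.l10) T1.l10))) (xk (xa T1.l10 (xb T1.l10 (xk T1.l10 T1.l10))) (xa T1.l10 (xb T1.l10 T1.l10)))))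
  (TrL.c (I.pos (nat_lit 0) (nat_lit 0)) (xk (xa T3.l10 (xb T3.l10 T3.l10)) (xa T3.l10 T3.l10))
  (TrL.c (I.mix (nat_lit 29511666) (nat_lit 77433728)) (xR (xR (xR T1.l11 T1.l11) T1.l11) (xR T1.l11 (xR T1.l11 (xk (xa T1.l11 T1.l11) T1.l11))))
  (TrL.c (I.mix (nat_lit 29511666) (nat_lit 46070178)) (xR (xR T3.l11 T3.l11) (xR T3.l11 T3.l11))
  TrL.n)))))))) (by decide +kernel)
theorem bx5_13 : BoxOK sI cl7 cl5 cl4 t3 t1 b5_13 :=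
  box_mk (TrL.c (I.pos (nat_lit 0) (nat_lit 0)) (xa (xb (xa T3.l0 T3.l0) (xa T3.l0 T3.l0)) (xb T3.l0 (xa T3.l0 T3.l0)))
  (TrL.c (I.pos (nat_lit 0) (nat_lit 0)) (xk T1.l8 T1.l8)
  (TrL.c (I.pos (nat_lit 0) (nat_lit 111196574)) (xR (xR T3.l4 T3.l4) (xR T3.l9 (xR T3.l4 T3.l4)))
  (TrL.c (I.pos (nat_lit 0) (nat_lit 77433728)) (xR (xR T1.l9 T1.l9) (xR T1.l9 T1.l9))
  (TrL.c (I.pos (nat_lit 0) (nat_lit 0)) (xk (xa (xb T1.l10 T1.l10) (xb T1.l10 (xb T1.l10 (xk T1.l10 T1.l10)))) (xb T1.l10 (xa T1.l10 (xb T1.l10 (xk (xa T1.l10 T1.l10) (xa T1.l10 (xb T1.l10 T1.l10)))))))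
  (TrL.c (I.pos (nat_lit 0) (nat_lit 0)) T3.l10
  (TrL.c (I.mix (nat_lit 29511666) (nat_lit 77433728)) (xR T1.l11 (xR T1.l11 T1.l11))
  (TrL.c (I.mix (nat_lit 29511666) (nat_lit 46070178)) (xR T3.l11 T3.l2)
  TrL.n)))))))) (by decide +kernel)
theorem sv5 : StarV sI cl7 cl5 cl4 t3 t1 t5 :=
  (bt_n (bt_n (bt_n (bt_b bx5_0) (bt_n (bt_b bx5_1) (bt_b bx5_2))) (bt_n (bt_n (bt_b bx5_3) (bt_b bx5_4)) (bt_n (bt_b bx5_5) (bt_b bx5_6)))) (bt_n (bt_n (bt_b bx5_7) (bt_n (bt_b bx5_8) (bt_b bx5_9))) (bt_n (bt_n (bt_b bx5_10) (bt_b bx5_11)) (bt_n (bt_b bx5_12) (bt_b bx5_13)))))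
def S5 : StarD := StarD.mk cl7 cl5 cl4 3 1 t5
def G : List StarD := [S0, S1, S2, S3, S4, S5]
theorem so0 : StarOK sI G S0 :=
  star_mk (by decide) (by decide) rfl rfl rfl rfl rfl rfl (rfl : _ = t2) (rfl : _ = t4)
  (st_mk (Pth.l (Pth.l (Pth.l Pth.z))) (nat_lit 253961920) (nat_lit 255697372) (by decide +kernel))
  (st_mk (Pth.l (Pth.l (Pth.l Pth.z))) (nat_lit 294205716) (nat_lit 296590182) (by decide +kernel))
  (st_mk (Pth.l (Pth.l (Pth.l Pth.z))) (nat_lit 341809827) (nat_lit 345124557) (by decide +kernel)) sv0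
theorem so1 : StarOK sI G S1 :=
  star_mk (by decide) (by decide) rfl rfl rfl rfl rfl rfl (rfl : _ = t4) (rfl : _ = t2)
  (st_mk (Pth.l (Pth.l (Pth.l (Pth.l Pth.z)))) (nat_lit 147451824) (nat_lit 171302797) (by decide +kernel))
  (st_mk (Pth.l (Pth.l (Pth.l (Pth.l Pth.z)))) (nat_lit 186765023) (nat_lit 211363361) (by decide +kernel))
  (st_mk (Pth.l (Pth.l (Pth.l (Pth.l Pth.z)))) (nat_lit 233631713) (nat_lit 259238241) (by decide +kernel)) sv1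
theorem so2 : StarOK sI G S2 :=
  star_mk (by decide) (by decide) rfl rfl rfl rfl rfl rfl (rfl : _ = t0) (rfl : _ = t5)
  (st_mk (Pth.l (Pth.l (Pth.l Pth.z))) (nat_lit 383923966) (nat_lit 385954092) (by decide +kernel))
  (st_mk (Pth.l (Pth.l (Pth.l Pth.z))) (nat_lit 422837338) (nat_lit 425327456) (by decide +kernel))
  (st_mk (Pth.l (Pth.l (Pth.l Pth.z))) (nat_lit 468284386) (nat_lit 471380360) (by decide +kernel)) sv2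
theorem so3 : StarOK sI G S3 :=
  star_mk (by decide) (by decide) rfl rfl rfl rfl rfl rfl (rfl : _ = t5) (rfl : _ = t0)
  (st_mk (Pth.l (Pth.l (Pth.l (Pth.l Pth.z)))) (nat_lit 145036291) (nat_lit 168143060) (by decide +kernel))
  (st_mk (Pth.l (Pth.l (Pth.l (Pth.l Pth.z)))) (nat_lit 182843821) (nat_lit 206423176) (by decide +kernel))
  (st_mk (Pth.l (Pth.l (Pth.l (Pth.l Pth.z)))) (nat_lit 227386042) (nat_lit 251582092) (by decide +kernel)) sv3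
theorem so4 : StarOK sI G S4 :=
  star_mk (by decide) (by decide) rfl rfl rfl rfl rfl rfl (rfl : _ = t1) (rfl : _ = t3)
  (st_mk (Pth.l (Pth.l (Pth.l Pth.z))) (nat_lit 372155176) (nat_lit 377102012) (by decide +kernel))
  (st_mk (Pth.l (Pth.l (Pth.l Pth.z))) (nat_lit 408673154) (nat_lit 414328775) (by decide +kernel))
  (st_mk (Pth.l (Pth.l (Pth.l Pth.z))) (nat_lit 451007507) (nat_lit 457576971) (by decide +kernel)) sv4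
theorem so5 : StarOK sI G S5 :=
  star_mk (by decide) (by decide) rfl rfl rfl rfl rfl rfl (rfl : _ = t3) (rfl : _ = t1)
  (st_mk (Pth.l (Pth.l (Pth.l Pth.z))) (nat_lit 242486811) (nat_lit 244900544) (by decide +kernel))
  (st_mk (Pth.l (Pth.l (Pth.l Pth.z))) (nat_lit 278269390) (nat_lit 282379068) (by decide +kernel))
  (st_mk (Pth.l (Pth.l (Pth.l Pth.z))) (nat_lit 320435024) (nat_lit 325386991) (by decide +kernel)) sv5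
theorem ok : GroupOK (nat_lit 209321984) (nat_lit 238944256) G := grp_mk (allS_c so0 (allS_c so1 (allS_c so2 (allS_c so3 (allS_c so4 (allS_c so5 allS_n))))))
theorem cov : GCov G cl4 cl5 cl7 := cov_mk
  ⟨0, by decide, rfl, rfl, rfl⟩ ⟨1, by decide, rfl, rfl, rfl⟩ ⟨2, by decide, rfl, rfl, rfl⟩ ⟨3, by decide, rfl, rfl, rfl⟩ ⟨4, by decide, rfl, rfl, rfl⟩ ⟨5, by decide, rfl, rfl, rfl⟩
end Q124_3


end Pool.Agent.Helper6.MONO
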