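import Pool.Agent.Helper6.MONO.Cert.C23

/-!
Certificate data (generated).
-/

set_option autoImplicit false
set_option linter.all false
noncomputable section
namespace Pool.Agent.Helper6.MONO


namespace Q124_4
def sI : I := I.pos (nat_lit 238878720) (nat_lit 268435456)
def b0_0 : Bx := Bx.mk (St.mk (I.pos (nat_lit 154419200) (nat_lit 219725824)) (I.mix (nat_lit 2342912) (nat_lit 72941568)) (I.mix (nat_lit 7471104) (nat_lit 63471616)) (I.pos (nat_lit 251068416) (nat_lit 366723072)) (I.mix (nat_lit 129826816) (nat_lit 84459520)) (I.mix (nat_lit 66830336) (nat_lit 74858496)) (I.mix (nat_lit 126517248) (nat_lit 113704960)))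
  false (nat_lit 0)
def b0_1 : Bx := Bx.mk (St.mk (I.pos (nat_lit 26755072) (nat_lit 65617920)) (I.mix (nat_lit 9207808) (nat_lit 45187072)) (I.neg (nat_lit 13320192) (nat_lit 42205184)) (I.pos (nat_lit 142819328) (nat_lit 163610624)) (I.mix (nat_lit 51265536) (nat_lit 74514432)) (I.mix (nat_lit 52772864) (nat_lit 36225024)) (I.mix (nat_lit 30474240) (nat_lit 21233664)))
  false (nat_lit 0)
def b0_2 : Bx := Bx.mk (St.mk (I.pos (nat_lit 51003392) (nat_lit 86982656)) (I.mix (nat_lit 54312960) (nat_lit 10813440)) (I.neg (nat_lit 28917760) (nat_lit 70516736)) (I.pos (nat_lit 145932288) (nat_lit 173375488)) (I.mix (nat_lit 106807296) (nat_lit 49725440)) (I.mix (nat_lit 39026688) (nat_lit 81199104)) (I.mix (nat_lit 25804800) (nat_lit 52740096)))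
  false (nat_lit 0)
def b0_3 : Bx := Bx.mk (St.mk (I.neg (nat_lit 26738688) (nat_lit 65617920)) (I.mix (nat_lit 45187072) (nat_lit 9699328)) (I.neg (nat_lit 13320192) (nat_lit 42205184)) (I.pos (nat_lit 142802944) (nat_lit 163610624)) (I.mix (nat_lit 74514432) (nat_lit 52461568)) (I.mix (nat_lit 36225024) (nat_lit 52772864)) (I.mix (nat_lit 30474240) (nat_lit 21692416)))
  true (nat_lit 0)
def b0_4 : Bx := Bx.mk (St.mk (I.pos (nat_lit 34848768) (nat_lit 64618496)) (I.mix (nat_lit 12075008) (nat_lit 21184512)) (I.neg (nat_lit 23199744) (nat_lit 43155456)) (I.pos (nat_lit 142721024) (nat_lit 158744576)) (I.mix (nat_lit 53313536) (nat_lit 38879232)) (I.mix (nat_lit 34914304) (nat_lit 32833536)) (I.mix (nat_lit 17973248) (nat_lit 22052864)))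
  false (nat_lit 0)
def b0_5 : Bx := Bx.mk (St.mk (I.pos (nat_lit 205799424) (nat_lit 248119296)) (I.mix (nat_lit 16072704) (nat_lit 14188544)) (I.neg (nat_lit 54804480) (nat_lit 111771648)) (I.pos (nat_lit 316112896) (nat_lit 392724480)) (I.mix (nat_lit 114278400) (nat_lit 29868032)) (I.mix (nat_lit 66043904) (nat_lit 60653568)) (I.mix (nat_lit 96419840) (nat_lit 123502592)))
  false (nat_lit 0)
def b0_6 : Bx := Bx.mk (St.mk (I.pos (nat_lit 179372032) (nat_lit 240549888)) (I.mix (nat_lit 14270464) (nat_lit 68796416)) (I.mix (nat_lit 104382464) (nat_lit 47169536)) (I.pos (nat_lit 295518208) (nat_lit 392118272)) (I.mix (nat_lit 120373248) (nat_lit 101416960)) (I.mix (nat_lit 94470144) (nat_lit 83787776)) (I.mix (nat_lit 176979968) (nat_lit 131121152)))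
  false (nat_lit 0)
def b0_7 : Bx := Bx.mk (St.mk (I.pos (nat_lit 62177280) (nat_lit 148242432)) (I.neg (nat_lit 9584640) (nat_lit 56262656)) (I.neg (nat_lit 25477120) (nat_lit 71991296)) (I.pos (nat_lit 156549120) (nat_lit 230948864)) (I.mix (nat_lit 86687744) (nat_lit 44826624)) (I.mix (nat_lit 33308672) (nat_lit 62078976)) (I.mix (nat_lit 27901952) (nat_lit 57147392)))
  false (nat_lit 0)
def b0_8 : Bx := Bx.mk (St.mk (I.mix (nat_lit 45809664) (nat_lit 10420224)) (I.mix (nat_lit 40304640) (nat_lit 10895360)) (I.neg (nat_lit 14221312) (nat_lit 23330816)) (I.pos (nat_lit 141443072) (nat_lit 156647424)) (I.mix (nat_lit 51609600) (nat_lit 43417600)) (I.mix (nat_lit 24985600) (nat_lit 41287680)) (I.mix (nat_lit 10338304) (nat_lit 9404416)))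
  true (nat_lit 0)
def b0_9 : Bx := Bx.mk (St.mk (I.pos (nat_lit 148307968) (nat_lit 194625536)) (I.pos (nat_lit 2850816) (nat_lit 59047936)) (I.mix (nat_lit 13254656) (nat_lit 52199424)) (I.pos (nat_lit 244449280) (nat_lit 315457536)) (I.mix (nat_lit 112721920) (nat_lit 31227904)) (I.mix (nat_lit 91488256) (nat_lit 48250880)) (I.mix (nat_lit 85114880) (nat_lit 56885248)))
  false (nat_lit 0)
def b0_10 : Bx := Bx.mk (St.mk (I.mix (nat_lit 10420224) (nat_lit 45809664)) (I.mix (nat_lit 10895360) (nat_lit 40304640)) (I.neg (nat_lit 14221312) (nat_lit 23330816)) (I.pos (nat_lit 141443072) (nat_lit 156647424)) (I.mix (nat_lit 43417600) (nat_lit 51609600)) (I.mix (nat_lit 41287680) (nat_lit 24985600)) (I.mix (nat_lit 10338304) (nat_lit 9404416)))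
  false (nat_lit 0)
def b0_11 : Bx := Bx.mk (St.mk (I.pos (nat_lit 113491968) (nat_lit 188973056)) (I.mix (nat_lit 34865152) (nat_lit 14761984)) (I.neg (nat_lit 4702208) (nat_lit 55836672)) (I.pos (nat_lit 195051520) (nat_lit 286982144)) (I.mix (nat_lit 58130432) (nat_lit 66650112)) (I.mix (nat_lit 58867712) (nat_lit 54247424)) (I.mix (nat_lit 62636032) (nat_lit 46972928)))
  false (nat_lit 0)
def b0_12 : Bx := Bx.mk (St.mk (I.pos (nat_lit 148979712) (nat_lit 192331776)) (I.mix (nat_lit 9617408) (nat_lit 35291136)) (I.mix (nat_lit 31555584) (nat_lit 25772032)) (I.pos (nat_lit 245776384) (nat_lit 294486016)) (I.mix (nat_lit 107085824) (nat_lit 83050496)) (I.mix (nat_lit 103563264) (nat_lit 65257472)) (I.mix (nat_lit 100646912) (nat_lit 58097664)))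
  false (nat_lit 0)
def t0 : BTr := (BTr.n (BTr.n (BTr.n (BTr.b b0_0) (BTr.n (BTr.b b0_1) (BTr.b b0_2))) (BTr.n (BTr.b b0_3) (BTr.n (BTr.b b0_4) (BTr.b b0_5)))) (BTr.n (BTr.n (BTr.b b0_6) (BTr.n (BTr.b b0_7) (BTr.b b0_8))) (BTr.n (BTr.n (BTr.b b0_9) (BTr.b b0_10)) (BTr.n (BTr.b b0_11) (BTr.b b0_12)))))
namespace T0
def l0 : Tr := Tr.L (Pth.l (Pth.l (Pth.l Pth.z)))
def l1 : Tr := Tr.L (Pth.l (Pth.l (Pth.r (Pth.l Pth.z))))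
def l2 : Tr := Tr.L (Pth.l (Pth.l (Pth.r (Pth.r Pth.z))))
def l3 : Tr := Tr.L (Pth.l (Pth.r (Pth.l Pth.z)))
def l4 : Tr := Tr.L (Pth.l (Pth.r (Pth.r (Pth.l Pth.z))))
def l5 : Tr := Tr.L (Pth.l (Pth.r (Pth.r (Pth.r Pth.z))))
def l6 : Tr := Tr.L (Pth.r (Pth.l (Pth.l Pth.z)))
def l7 : Tr := Tr.L (Pth.r (Pth.l (Pth.r (Pth.l Pth.z))))
def l8 : Tr := Tr.L (Pth.r (Pth.l (Pth.r (Pth.r Pth.z))))
def l9 : Tr := Tr.L (Pth.r (Pth.r (Pth.l (Pth.l Pth.z))))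
def l10 : Tr := Tr.L (Pth.r (Pth.r (Pth.l (Pth.r Pth.z))))
def l11 : Tr := Tr.L (Pth.r (Pth.r (Pth.r (Pth.l Pth.z))))
def l12 : Tr := Tr.L (Pth.r (Pth.r (Pth.r (Pth.r Pth.z))))
end T0
def b1_0 : Bx := Bx.mk (St.mk (I.pos (nat_lit 152879104) (nat_lit 225722368)) (I.mix (nat_lit 1753088) (nat_lit 54280192)) (I.mix (nat_lit 2359296) (nat_lit 75186176)) (I.pos (nat_lit 146276352) (nat_lit 278495232)) (I.mix (nat_lit 115015680) (nat_lit 70189056)) (I.mix (nat_lit 66027520) (nat_lit 62095360)) (I.mix (nat_lit 105299968) (nat_lit 94765056)))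
  false (nat_lit 0)
def b1_1 : Bx := Bx.mk (St.mk (I.mix (nat_lit 20856832) (nat_lit 114819072)) (I.mix (nat_lit 6651904) (nat_lit 30244864)) (I.mix (nat_lit 17711104) (nat_lit 12042240)) (I.pos (nat_lit 42270720) (nat_lit 114081792)) (I.mix (nat_lit 48824320) (nat_lit 49627136)) (I.mix (nat_lit 38027264) (nat_lit 29097984)) (I.mix (nat_lit 28868608) (nat_lit 19415040)))
  false (nat_lit 0)
def b1_2 : Bx := Bx.mk (St.mk (I.pos (nat_lit 87605248) (nat_lit 129630208)) (I.mix (nat_lit 47497216) (nat_lit 9256960)) (I.neg (nat_lit 3686400) (nat_lit 53280768)) (I.pos (nat_lit 78364672) (nat_lit 128516096)) (I.mix (nat_lit 90112000) (nat_lit 47906816)) (I.mix (nat_lit 39534592) (nat_lit 76464128)) (I.mix (nat_lit 29622272) (nat_lit 55296000)))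
  false (nat_lit 0)
def b1_3 : Bx := Bx.mk (St.mk (I.mix (nat_lit 32489472) (nat_lit 66502656)) (I.mix (nat_lit 29999104) (nat_lit 5226496)) (I.neg (nat_lit 655360) (nat_lit 20840448)) (I.pos (nat_lit 43433984) (nat_lit 81756160)) (I.mix (nat_lit 49922048) (nat_lit 28344320)) (I.mix (nat_lit 19021824) (nat_lit 37502976)) (I.mix (nat_lit 9601024) (nat_lit 14532608)))
  false (nat_lit 0)
def b1_4 : Bx := Bx.mk (St.mk (I.pos (nat_lit 183205888) (nat_lit 237568000)) (I.mix (nat_lit 11927552) (nat_lit 52264960)) (I.mix (nat_lit 52133888) (nat_lit 67698688)) (I.pos (nat_lit 210092032) (nat_lit 293847040)) (I.mix (nat_lit 114884608) (nat_lit 81231872)) (I.mix (nat_lit 84475904) (nat_lit 72892416)) (I.mix (nat_lit 148307968) (nat_lit 116555776)))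
  false (nat_lit 0)
def b1_5 : Bx := Bx.mk (St.mk (I.mix (nat_lit 44302336) (nat_lit 46039040)) (I.mix (nat_lit 6766592) (nat_lit 8781824)) (I.neg (nat_lit 3555328) (nat_lit 10747904)) (I.pos (nat_lit 43778048) (nat_lit 72417280)) (I.mix (nat_lit 25067520) (nat_lit 17186816)) (I.mix (nat_lit 16056320) (nat_lit 15433728)) (I.mix (nat_lit 4800512) (nat_lit 4718592)))
  false (nat_lit 0)
def b1_6 : Bx := Bx.mk (St.mk (I.pos (nat_lit 76840960) (nat_lit 111443968)) (I.mix (nat_lit 11010048) (nat_lit 13156352)) (I.neg (nat_lit 1867776) (nat_lit 21921792)) (I.pos (nat_lit 72204288) (nat_lit 112574464)) (I.mix (nat_lit 46432256) (nat_lit 27901952)) (I.mix (nat_lit 27557888) (nat_lit 25706496)) (I.mix (nat_lit 19431424) (nat_lit 19906560)))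
  false (nat_lit 0)
def b1_7 : Bx := Bx.mk (St.mk (I.pos (nat_lit 206045184) (nat_lit 250216448)) (I.mix (nat_lit 14008320) (nat_lit 16433152)) (I.neg (nat_lit 1015808) (nat_lit 63488000)) (I.pos (nat_lit 232865792) (nat_lit 324845568)) (I.mix (nat_lit 104906752) (nat_lit 14123008)) (I.mix (nat_lit 48218112) (nat_lit 50085888)) (I.mix (nat_lit 78168064) (nat_lit 96452608)))
  false (nat_lit 0)
def b1_8 : Bx := Bx.mk (St.mk (I.pos (nat_lit 103202816) (nat_lit 162988032)) (I.neg (nat_lit 5341184) (nat_lit 47923200)) (I.neg (nat_lit 11665408) (nat_lit 52822016)) (I.pos (nat_lit 96075776) (nat_lit 167985152)) (I.mix (nat_lit 71122944) (nat_lit 34865152)) (I.mix (nat_lit 32440320) (nat_lit 48398336)) (I.mix (nat_lit 25788416) (nat_lit 47906816)))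
  false (nat_lit 0)
def b1_9 : Bx := Bx.mk (St.mk (I.mix (nat_lit 19054592) (nat_lit 82378752)) (I.mix (nat_lit 29999104) (nat_lit 1753088)) (I.neg (nat_lit 819200) (nat_lit 22003712)) (I.pos (nat_lit 42663936) (nat_lit 90423296)) (I.mix (nat_lit 46071808) (nat_lit 30326784)) (I.mix (nat_lit 20332544) (nat_lit 30375936)) (I.mix (nat_lit 11501568) (nat_lit 16908288)))
  false (nat_lit 0)
def b1_10 : Bx := Bx.mk (St.mk (I.pos (nat_lit 158449664) (nat_lit 202293248)) (I.mix (nat_lit 7585792) (nat_lit 48463872)) (I.pos (nat_lit 770048) (nat_lit 67665920)) (I.pos (nat_lit 153731072) (nat_lit 236699648)) (I.mix (nat_lit 123011072) (nat_lit 43696128)) (I.mix (nat_lit 95715328) (nat_lit 63062016)) (I.mix (nat_lit 99680256) (nat_lit 65011712)))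
  false (nat_lit 0)
def b1_11 : Bx := Bx.mk (St.mk (I.mix (nat_lit 36323328) (nat_lit 107118592)) (I.mix (nat_lit 10059776) (nat_lit 32735232)) (I.mix (nat_lit 12271616) (nat_lit 15335424)) (I.pos (nat_lit 42336256) (nat_lit 109133824)) (I.mix (nat_lit 49643520) (nat_lit 34471936)) (I.mix (nat_lit 37224448) (nat_lit 28213248)) (I.mix (nat_lit 19660800) (nat_lit 15925248)))
  false (nat_lit 0)
def b1_12 : Bx := Bx.mk (St.mk (I.pos (nat_lit 141131776) (nat_lit 195182592)) (I.mix (nat_lit 33619968) (nat_lit 4128768)) (I.mix (nat_lit 39911424) (nat_lit 5783552)) (I.pos (nat_lit 129843200) (nat_lit 213532672)) (I.mix (nat_lit 54722560) (nat_lit 61325312)) (I.mix (nat_lit 58949632) (nat_lit 52215808)) (I.mix (nat_lit 63225856) (nat_lit 51347456)))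
  false (nat_lit 0)
def b1_13 : Bx := Bx.mk (St.mk (I.pos (nat_lit 142737408) (nat_lit 162955264)) (I.neg (nat_lit 13877248) (nat_lit 35241984)) (I.neg (nat_lit 15745024) (nat_lit 42106880)) (I.pos (nat_lit 131170304) (nat_lit 166903808)) (I.mix (nat_lit 37830656) (nat_lit 20545536)) (I.mix (nat_lit 17154048) (nat_lit 23035904)) (I.mix (nat_lit 19120128) (nat_lit 24969216)))
  false (nat_lit 0)
def b1_14 : Bx := Bx.mk (St.mk (I.mix (nat_lit 38928384) (nat_lit 82935808)) (I.mix (nat_lit 12861440) (nat_lit 3375104)) (I.neg (nat_lit 589824) (nat_lit 13238272)) (I.pos (nat_lit 44466176) (nat_lit 90161152)) (I.mix (nat_lit 13139968) (nat_lit 13615104)) (I.mix (nat_lit 7110656) (nat_lit 9175040)) (I.mix (nat_lit 4243456) (nat_lit 5423104)))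
  false (nat_lit 0)
def b1_15 : Bx := Bx.mk (St.mk (I.pos (nat_lit 157155328) (nat_lit 195346432)) (I.mix (nat_lit 18939904) (nat_lit 17219584)) (I.mix (nat_lit 16859136) (nat_lit 27639808)) (I.pos (nat_lit 152993792) (nat_lit 214548480)) (I.mix (nat_lit 89686016) (nat_lit 59523072)) (I.mix (nat_lit 86589440) (nat_lit 55427072)) (I.mix (nat_lit 92061696) (nat_lit 57966592)))
  false (nat_lit 0)
def t1 : BTr := (BTr.n (BTr.n (BTr.n (BTr.n (BTr.b b1_0) (BTr.b b1_1)) (BTr.n (BTr.b b1_2) (BTr.b b1_3))) (BTr.n (BTr.n (BTr.b b1_4) (BTr.b b1_5)) (BTr.n (BTr.b b1_6) (BTr.b b1_7)))) (BTr.n (BTr.n (BTr.n (BTr.b b1_8) (BTr.b b1_9)) (BTr.n (BTr.b b1_10) (BTr.b b1_11))) (BTr.n (BTr.n (BTr.b b1_12) (BTr.b b1_13)) (BTr.n (BTr.b b1_14) (BTr.b b1_15)))))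
namespace T1
def l0 : Tr := Tr.L (Pth.l (Pth.l (Pth.l (Pth.l Pth.z))))
def l1 : Tr := Tr.L (Pth.l (Pth.l (Pth.l (Pth.r Pth.z))))
def l2 : Tr := Tr.L (Pth.l (Pth.l (Pth.r (Pth.l Pth.z))))
def l3 : Tr := Tr.L (Pth.l (Pth.l (Pth.r (Pth.r Pth.z))))
def l4 : Tr := Tr.L (Pth.l (Pth.r (Pth.l (Pth.l Pth.z))))
def l5 : Tr := Tr.L (Pth.l (Pth.r (Pth.l (Pth.r Pth.z))))
def l6 : Tr := Tr.L (Pth.l (Pth.r (Pth.r (Pth.l Pth.z))))
def l7 : Tr := Tr.L (Pth.l (Pth.r (Pth.r (Pth.r Pth.z))))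
def l8 : Tr := Tr.L (Pth.r (Pth.l (Pth.l (Pth.l Pth.z))))
def l9 : Tr := Tr.L (Pth.r (Pth.l (Pth.l (Pth.r Pth.z))))
def l10 : Tr := Tr.L (Pth.r (Pth.l (Pth.r (Pth.l Pth.z))))
def l11 : Tr := Tr.L (Pth.r (Pth.l (Pth.r (Pth.r Pth.z))))
def l12 : Tr := Tr.L (Pth.r (Pth.r (Pth.l (Pth.l Pth.z))))
def l13 : Tr := Tr.L (Pth.r (Pth.r (Pth.l (Pth.r Pth.z))))
def l14 : Tr := Tr.L (Pth.r (Pth.r (Pth.r (Pth.l Pth.z))))
def l15 : Tr := Tr.L (Pth.r (Pth.r (Pth.r (Pth.r Pth.z))))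
end T1
def b2_0 : Bx := Bx.mk (St.mk (I.pos (nat_lit 139821056) (nat_lit 217399296)) (I.mix (nat_lit 2867200) (nat_lit 92291072)) (I.mix (nat_lit 6864896) (nat_lit 77611008)) (I.pos (nat_lit 381730816) (nat_lit 478806016)) (I.mix (nat_lit 170688512) (nat_lit 88391680)) (I.mix (nat_lit 92061696) (nat_lit 86622208)) (I.mix (nat_lit 116441088) (nat_lit 126124032)))
  false (nat_lit 0)
def b2_1 : Bx := Bx.mk (St.mk (I.mix (nat_lit 46596096) (nat_lit 8929280)) (I.mix (nat_lit 7684096) (nat_lit 80232448)) (I.neg (nat_lit 54804480) (nat_lit 82132992)) (I.pos (nat_lit 262029312) (nat_lit 291553280)) (I.mix (nat_lit 48332800) (nat_lit 133021696)) (I.mix (nat_lit 83640320) (nat_lit 67076096)) (I.mix (nat_lit 54198272) (nat_lit 40189952)))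
  true (nat_lit 0)
def b2_2 : Bx := Bx.mk (St.mk (I.pos (nat_lit 835584) (nat_lit 46284800)) (I.neg (nat_lit 31948800) (nat_lit 80232448)) (I.neg (nat_lit 56131584) (nat_lit 82132992)) (I.pos (nat_lit 266207232) (nat_lit 291979264)) (I.mix (nat_lit 133021696) (nat_lit 49201152)) (I.mix (nat_lit 65978368) (nat_lit 83640320)) (I.mix (nat_lit 54198272) (nat_lit 42057728)))
  false (nat_lit 0)
def b2_3 : Bx := Bx.mk (St.mk (I.pos (nat_lit 10698752) (nat_lit 126140416)) (I.neg (nat_lit 11173888) (nat_lit 84246528)) (I.neg (nat_lit 18104320) (nat_lit 90734592)) (I.pos (nat_lit 266584064) (nat_lit 341180416)) (I.mix (nat_lit 130940928) (nat_lit 68059136)) (I.mix (nat_lit 69107712) (nat_lit 79806464)) (I.mix (nat_lit 83050496) (nat_lit 66568192)))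
  false (nat_lit 7634166)
def b2_4 : Bx := Bx.mk (St.mk (I.pos (nat_lit 84213760) (nat_lit 180174848)) (I.mix (nat_lit 34160640) (nat_lit 78381056)) (I.mix (nat_lit 45170688) (nat_lit 71614464)) (I.pos (nat_lit 299941888) (nat_lit 429981696)) (I.mix (nat_lit 162611200) (nat_lit 76087296)) (I.mix (nat_lit 120733696) (nat_lit 97206272)) (I.mix (nat_lit 130252800) (nat_lit 126992384)))
  false (nat_lit 0)
def b2_5 : Bx := Bx.mk (St.mk (I.neg (nat_lit 10682368) (nat_lit 126763008)) (I.pos (nat_lit 2883584) (nat_lit 84262912)) (I.neg (nat_lit 11239424) (nat_lit 90750976)) (I.pos (nat_lit 266567680) (nat_lit 341180416)) (I.mix (nat_lit 68059136) (nat_lit 130891776)) (I.mix (nat_lit 79806464) (nat_lit 69058560)) (I.mix (nat_lit 83116032) (nat_lit 66584576)))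
  true (nat_lit 0)
def b2_6 : Bx := Bx.mk (St.mk (I.pos (nat_lit 174751744) (nat_lit 270532608)) (I.mix (nat_lit 7569408) (nat_lit 48824320)) (I.neg (nat_lit 6160384) (nat_lit 138805248)) (I.pos (nat_lit 409583616) (nat_lit 563068928)) (I.mix (nat_lit 96256000) (nat_lit 79888384)) (I.mix (nat_lit 70729728) (nat_lit 59015168)) (I.mix (nat_lit 117882880) (nat_lit 107085824)))
  false (nat_lit 0)
def b2_7 : Bx := Bx.mk (St.mk (I.mix (nat_lit 13959168) (nat_lit 39288832)) (I.mix (nat_lit 39337984) (nat_lit 6504448)) (I.neg (nat_lit 55181312) (nat_lit 68419584)) (I.pos (nat_lit 262438912) (nat_lit 277217280)) (I.mix (nat_lit 57524224) (nat_lit 44122112)) (I.mix (nat_lit 36257792) (nat_lit 40075264)) (I.mix (nat_lit 13352960) (nat_lit 17006592)))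
  false (nat_lit 0)
def b2_8 : Bx := Bx.mk (St.mk (I.mix (nat_lit 11321344) (nat_lit 13959168)) (I.mix (nat_lit 5193728) (nat_lit 24330240)) (I.neg (nat_lit 57409536) (nat_lit 66191360)) (I.pos (nat_lit 262750208) (nat_lit 270581760)) (I.mix (nat_lit 15941632) (nat_lit 43401216)) (I.mix (nat_lit 25542656) (nat_lit 19775488)) (I.mix (nat_lit 4554752) (nat_lit 10321920)))
  true (nat_lit 0)
def b2_9 : Bx := Bx.mk (St.mk (I.pos (nat_lit 163135488) (nat_lit 218333184)) (I.pos (nat_lit 20217856) (nat_lit 83886080)) (I.mix (nat_lit 46645248) (nat_lit 48234496)) (I.pos (nat_lit 405078016) (nat_lit 475512832)) (I.mix (nat_lit 114622464) (nat_lit 73334784)) (I.mix (nat_lit 77398016) (nat_lit 59179008)) (I.mix (nat_lit 125829120) (nat_lit 92405760)))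
  false (nat_lit 0)
def b2_10 : Bx := Bx.mk (St.mk (I.pos (nat_lit 8011776) (nat_lit 40206336)) (I.neg (nat_lit 17711104) (nat_lit 57999360)) (I.neg (nat_lit 57475072) (nat_lit 77103104)) (I.pos (nat_lit 265175040) (nat_lit 281116672)) (I.mix (nat_lit 76185600) (nat_lit 41353216)) (I.mix (nat_lit 36782080) (nat_lit 54345728)) (I.mix (nat_lit 21676032) (nat_lit 18464768)))
  false (nat_lit 0)
def t2 : BTr := (BTr.n (BTr.n (BTr.n (BTr.b b2_0) (BTr.b b2_1)) (BTr.n (BTr.b b2_2) (BTr.n (BTr.b b2_3) (BTr.b b2_4)))) (BTr.n (BTr.n (BTr.b b2_5) (BTr.n (BTr.b b2_6) (BTr.b b2_7))) (BTr.n (BTr.b b2_8) (BTr.n (BTr.b b2_9) (BTr.b b2_10)))))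
namespace T2
def l0 : Tr := Tr.L (Pth.l (Pth.l (Pth.l Pth.z)))
def l1 : Tr := Tr.L (Pth.l (Pth.l (Pth.r Pth.z)))
def l2 : Tr := Tr.L (Pth.l (Pth.r (Pth.l Pth.z)))
def l3 : Tr := Tr.L (Pth.l (Pth.r (Pth.r (Pth.l Pth.z))))
def l4 : Tr := Tr.L (Pth.l (Pth.r (Pth.r (Pth.r Pth.z))))
def l5 : Tr := Tr.L (Pth.r (Pth.l (Pth.l Pth.z)))
def l6 : Tr := Tr.L (Pth.r (Pth.l (Pth.r (Pth.l Pth.z))))
def l7 : Tr := Tr.L (Pth.r (Pth.l (Pth.r (Pth.r Pth.z))))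
def l8 : Tr := Tr.L (Pth.r (Pth.r (Pth.l Pth.z)))
def l9 : Tr := Tr.L (Pth.r (Pth.r (Pth.r (Pth.l Pth.z))))
def l10 : Tr := Tr.L (Pth.r (Pth.r (Pth.r (Pth.r Pth.z))))
end T2
def b3_0 : Bx := Bx.mk (St.mk (I.pos (nat_lit 148635648) (nat_lit 220168192)) (I.mix (nat_lit 1556480) (nat_lit 47071232)) (I.mix (nat_lit 2850816) (nat_lit 92520448)) (I.pos (nat_lit 144146432) (nat_lit 253788160)) (I.mix (nat_lit 103383040) (nat_lit 46596096)) (I.mix (nat_lit 69271552) (nat_lit 51838976)) (I.mix (nat_lit 86474752) (nat_lit 65814528)))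
  false (nat_lit 0)
def b3_1 : Bx := Bx.mk (St.mk (I.pos (nat_lit 99188736) (nat_lit 166117376)) (I.neg (nat_lit 4308992) (nat_lit 53641216)) (I.mix (nat_lit 42057728) (nat_lit 12156928)) (I.pos (nat_lit 100270080) (nat_lit 171376640)) (I.mix (nat_lit 72351744) (nat_lit 55115776)) (I.mix (nat_lit 44351488) (nat_lit 54460416)) (I.mix (nat_lit 41615360) (nat_lit 54591488)))
  false (nat_lit 0)
def b3_2 : Bx := Bx.mk (St.mk (I.mix (nat_lit 21102592) (nat_lit 82165760)) (I.mix (nat_lit 31424512) (nat_lit 3047424)) (I.mix (nat_lit 12255232) (nat_lit 9601024)) (I.pos (nat_lit 43335680) (nat_lit 89948160)) (I.mix (nat_lit 37797888) (nat_lit 43089920)) (I.mix (nat_lit 24526848) (nat_lit 33210368)) (I.mix (nat_lit 11304960) (nat_lit 18317312)))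
  false (nat_lit 0)
def b3_3 : Bx := Bx.mk (St.mk (I.pos (nat_lit 150110208) (nat_lit 196509696)) (I.mix (nat_lit 13434880) (nat_lit 43319296)) (I.pos (nat_lit 14286848) (nat_lit 84754432)) (I.pos (nat_lit 139526144) (nat_lit 213893120)) (I.mix (nat_lit 128286720) (nat_lit 39321600)) (I.mix (nat_lit 104235008) (nat_lit 55803904)) (I.mix (nat_lit 113557504) (nat_lit 49692672)))
  false (nat_lit 0)
def b3_4 : Bx := Bx.mk (St.mk (I.mix (nat_lit 33587200) (nat_lit 103415808)) (I.mix (nat_lit 12664832) (nat_lit 32145408)) (I.mix (nat_lit 2244608) (nat_lit 28803072)) (I.pos (nat_lit 42663936) (nat_lit 104628224)) (I.mix (nat_lit 70025216) (nat_lit 38912000)) (I.mix (nat_lit 56393728) (nat_lit 27525120)) (I.mix (nat_lit 30408704) (nat_lit 17006592)))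
  false (nat_lit 0)
def b3_5 : Bx := Bx.mk (St.mk (I.pos (nat_lit 149159936) (nat_lit 193118208)) (I.mix (nat_lit 40681472) (nat_lit 13352960)) (I.mix (nat_lit 22003712) (nat_lit 46792704)) (I.pos (nat_lit 138493952) (nat_lit 205979648)) (I.mix (nat_lit 101924864) (nat_lit 71729152)) (I.mix (nat_lit 98304000) (nat_lit 53952512)) (I.mix (nat_lit 99008512) (nat_lit 57475072)))
  false (nat_lit 0)
def b3_6 : Bx := Bx.mk (St.mk (I.mix (nat_lit 45776896) (nat_lit 82247680)) (I.mix (nat_lit 11665408) (nat_lit 8224768)) (I.mix (nat_lit 524288) (nat_lit 8781824)) (I.pos (nat_lit 43024384) (nat_lit 89489408)) (I.mix (nat_lit 26083328) (nat_lit 17121280)) (I.mix (nat_lit 15466496) (nat_lit 16793600)) (I.mix (nat_lit 4505600) (nat_lit 5046272)))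
  false (nat_lit 0)
def b3_7 : Bx := Bx.mk (St.mk (I.pos (nat_lit 133136384) (nat_lit 164298752)) (I.neg (nat_lit 1851392) (nat_lit 30277632)) (I.mix (nat_lit 14204928) (nat_lit 18071552)) (I.pos (nat_lit 120733696) (nat_lit 166313984)) (I.mix (nat_lit 62373888) (nat_lit 27721728)) (I.mix (nat_lit 29638656) (nat_lit 41435136)) (I.mix (nat_lit 33964032) (nat_lit 38715392)))
  false (nat_lit 0)
def b3_8 : Bx := Bx.mk (St.mk (I.pos (nat_lit 145702912) (nat_lit 177455104)) (I.neg (nat_lit 8683520) (nat_lit 35635200)) (I.mix (nat_lit 19759104) (nat_lit 11747328)) (I.pos (nat_lit 137117696) (nat_lit 184008704)) (I.mix (nat_lit 39272448) (nat_lit 24412160)) (I.mix (nat_lit 27181056) (nat_lit 21741568)) (I.mix (nat_lit 29917184) (nat_lit 21037056)))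
  false (nat_lit 0)
def b3_9 : Bx := Bx.mk (St.mk (I.mix (nat_lit 3620864) (nat_lit 116867072)) (I.mix (nat_lit 3440640) (nat_lit 24199168)) (I.mix (nat_lit 475136) (nat_lit 21413888)) (I.pos (nat_lit 42647552) (nat_lit 116162560)) (I.mix (nat_lit 42188800) (nat_lit 26263552)) (I.mix (nat_lit 25575424) (nat_lit 18186240)) (I.mix (nat_lit 18481152) (nat_lit 12697600)))
  false (nat_lit 0)
def b3_10 : Bx := Bx.mk (St.mk (I.pos (nat_lit 93257728) (nat_lit 135741440)) (I.mix (nat_lit 51281920) (nat_lit 4325376)) (I.mix (nat_lit 39305216) (nat_lit 6799360)) (I.pos (nat_lit 80363520) (nat_lit 133742592)) (I.mix (nat_lit 76955648) (nat_lit 44105728)) (I.mix (nat_lit 35504128) (nat_lit 59670528)) (I.mix (nat_lit 27148288) (nat_lit 43450368)))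
  false (nat_lit 0)
def b3_11 : Bx := Bx.mk (St.mk (I.mix (nat_lit 34406400) (nat_lit 69910528)) (I.mix (nat_lit 31522816) (nat_lit 1179648)) (I.mix (nat_lit 10272768) (nat_lit 7454720)) (I.pos (nat_lit 43384832) (nat_lit 84017152)) (I.mix (nat_lit 35028992) (nat_lit 25870336)) (I.mix (nat_lit 18808832) (nat_lit 24330240)) (I.mix (nat_lit 8601600) (nat_lit 9699328)))
  false (nat_lit 0)
def b3_12 : Bx := Bx.mk (St.mk (I.pos (nat_lit 189972480) (nat_lit 261586944)) (I.mix (nat_lit 8880128) (nat_lit 30457856)) (I.mix (nat_lit 5242880) (nat_lit 69353472)) (I.pos (nat_lit 201506816) (nat_lit 343408640)) (I.mix (nat_lit 91570176) (nat_lit 41910272)) (I.mix (nat_lit 49774592) (nat_lit 39944192)) (I.mix (nat_lit 81215488) (nat_lit 67567616)))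
  false (nat_lit 0)
def b3_13 : Bx := Bx.mk (St.mk (I.pos (nat_lit 94208000) (nat_lit 113836032)) (I.mix (nat_lit 1736704) (nat_lit 8994816)) (I.mix (nat_lit 32768) (nat_lit 10305536)) (I.pos (nat_lit 80936960) (nat_lit 114900992)) (I.mix (nat_lit 15286272) (nat_lit 17154048)) (I.mix (nat_lit 11272192) (nat_lit 8667136)) (I.mix (nat_lit 9060352) (nat_lit 6504448)))
  false (nat_lit 0)
def b3_14 : Bx := Bx.mk (St.mk (I.neg (nat_lit 6471680) (nat_lit 35946496)) (I.mix (nat_lit 1359872) (nat_lit 8372224)) (I.mix (nat_lit 1163264) (nat_lit 2457600)) (I.pos (nat_lit 44826624) (nat_lit 69795840)) (I.mix (nat_lit 8912896) (nat_lit 13139968)) (I.mix (nat_lit 8060928) (nat_lit 6258688)) (I.mix (nat_lit 1654784) (nat_lit 2064384)))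
  false (nat_lit 0)
def b3_15 : Bx := Bx.mk (St.mk (I.pos (nat_lit 180879360) (nat_lit 220495872)) (I.pos (nat_lit 8929280) (nat_lit 44597248)) (I.pos (nat_lit 27197440) (nat_lit 88162304)) (I.pos (nat_lit 193740800) (nat_lit 251150336)) (I.mix (nat_lit 96419840) (nat_lit 54591488)) (I.mix (nat_lit 69664768) (nat_lit 46366720)) (I.mix (nat_lit 116375552) (nat_lit 57294848)))
  false (nat_lit 0)
def t3 : BTr := (BTr.n (BTr.n (BTr.n (BTr.n (BTr.b b3_0) (BTr.b b3_1)) (BTr.n (BTr.b b3_2) (BTr.b b3_3))) (BTr.n (BTr.n (BTr.b b3_4) (BTr.b b3_5)) (BTr.n (BTr.b b3_6) (BTr.b b3_7)))) (BTr.n (BTr.n (BTr.n (BTr.b b3_8) (BTr.b b3_9)) (BTr.n (BTr.b b3_10) (BTr.b b3_11))) (BTr.n (BTr.n (BTr.b b3_12) (BTr.b b3_13)) (BTr.n (BTr.b b3_14) (BTr.b b3_15)))))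
namespace T3
def l0 : Tr := Tr.L (Pth.l (Pth.l (Pth.l (Pth.l Pth.z))))
def l1 : Tr := Tr.L (Pth.l (Pth.l (Pth.l (Pth.r Pth.z))))
def l2 : Tr := Tr.L (Pth.l (Pth.l (Pth.r (Pth.l Pth.z))))
def l3 : Tr := Tr.L (Pth.l (Pth.l (Pth.r (Pth.r Pth.z))))
def l4 : Tr := Tr.L (Pth.l (Pth.r (Pth.l (Pth.l Pth.z))))
def l5 : Tr := Tr.L (Pth.l (Pth.r (Pth.l (Pth.r Pth.z))))
def l6 : Tr := Tr.L (Pth.l (Pth.r (Pth.r (Pth.l Pth.z))))
def l7 : Tr := Tr.L (Pth.l (Pth.r (Pth.r (Pth.r Pth.z))))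
def l8 : Tr := Tr.L (Pth.r (Pth.l (Pth.l (Pth.l Pth.z))))
def l9 : Tr := Tr.L (Pth.r (Pth.l (Pth.l (Pth.r Pth.z))))
def l10 : Tr := Tr.L (Pth.r (Pth.l (Pth.r (Pth.l Pth.z))))
def l11 : Tr := Tr.L (Pth.r (Pth.l (Pth.r (Pth.r Pth.z))))
def l12 : Tr := Tr.L (Pth.r (Pth.r (Pth.l (Pth.l Pth.z))))
def l13 : Tr := Tr.L (Pth.r (Pth.r (Pth.l (Pth.r Pth.z))))
def l14 : Tr := Tr.L (Pth.r (Pth.r (Pth.r (Pth.l Pth.z))))
def l15 : Tr := Tr.L (Pth.r (Pth.r (Pth.r (Pth.r Pth.z))))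
end T3
def b4_0 : Bx := Bx.mk (St.mk (I.pos (nat_lit 124633088) (nat_lit 217759744)) (I.mix (nat_lit 2621440) (nat_lit 83083264)) (I.mix (nat_lit 3522560) (nat_lit 114245632)) (I.pos (nat_lit 370098176) (nat_lit 461193216)) (I.mix (nat_lit 184221696) (nat_lit 80297984)) (I.mix (nat_lit 95174656) (nat_lit 77873152)) (I.mix (nat_lit 107134976) (nat_lit 109035520)))
  false (nat_lit 73007471)
def b4_1 : Bx := Bx.mk (St.mk (I.pos (nat_lit 26624000) (nat_lit 122650624)) (I.neg (nat_lit 15040512) (nat_lit 90783744)) (I.mix (nat_lit 58998784) (nat_lit 18186240)) (I.pos (nat_lit 279134208) (nat_lit 335937536)) (I.mix (nat_lit 117211136) (nat_lit 84295680)) (I.mix (nat_lit 80838656) (nat_lit 73056256)) (I.mix (nat_lit 85688320) (nat_lit 58589184)))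
  false (nat_lit 73172790)
def b4_2 : Bx := Bx.mk (St.mk (I.pos (nat_lit 93569024) (nat_lit 170852352)) (I.mix (nat_lit 31113216) (nat_lit 74711040)) (I.mix (nat_lit 1064960) (nat_lit 112787456)) (I.pos (nat_lit 307232768) (nat_lit 409862144)) (I.mix (nat_lit 179503104) (nat_lit 69976064)) (I.mix (nat_lit 127090688) (nat_lit 97763328)) (I.mix (nat_lit 135397376) (nat_lit 133709824)))
  false (nat_lit 62746428)
def b4_3 : Bx := Bx.mk (St.mk (I.neg (nat_lit 26624000) (nat_lit 122650624)) (I.pos (nat_lit 15056896) (nat_lit 90800128)) (I.mix (nat_lit 58998784) (nat_lit 18186240)) (I.pos (nat_lit 279134208) (nat_lit 335970304)) (I.mix (nat_lit 84295680) (nat_lit 117211136)) (I.mix (nat_lit 73056256) (nat_lit 80838656)) (I.mix (nat_lit 85704704) (nat_lit 58589184)))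
  true (nat_lit 0)
def b4_4 : Bx := Bx.mk (St.mk (I.mix (nat_lit 57163776) (nat_lit 17776640)) (I.mix (nat_lit 9519104) (nat_lit 84885504)) (I.neg (nat_lit 23707648) (nat_lit 49610752)) (I.pos (nat_lit 267059200) (nat_lit 302579712)) (I.mix (nat_lit 60899328) (nat_lit 116310016)) (I.mix (nat_lit 78544896) (nat_lit 71221248)) (I.mix (nat_lit 49577984) (nat_lit 32964608)))
  true (nat_lit 0)
def b4_5 : Bx := Bx.mk (St.mk (I.pos (nat_lit 13713408) (nat_lit 57163776)) (I.neg (nat_lit 35405824) (nat_lit 84885504)) (I.neg (nat_lit 25755648) (nat_lit 49610752)) (I.pos (nat_lit 275038208) (nat_lit 302579712)) (I.mix (nat_lit 116310016) (nat_lit 60899328)) (I.mix (nat_lit 71221248) (nat_lit 76578816)) (I.mix (nat_lit 49577984) (nat_lit 32948224)))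
  false (nat_lit 42107631)
def b4_6 : Bx := Bx.mk (St.mk (I.pos (nat_lit 93061120) (nat_lit 120733696)) (I.neg (nat_lit 16760832) (nat_lit 43794432)) (I.mix (nat_lit 11649024) (nat_lit 16515072)) (I.pos (nat_lit 309772288) (nat_lit 335036416)) (I.mix (nat_lit 31195136) (nat_lit 31293440)) (I.mix (nat_lit 20332544) (nat_lit 19513344)) (I.mix (nat_lit 17530880) (nat_lit 16498688)))
  false (nat_lit 0)
def b4_7 : Bx := Bx.mk (St.mk (I.pos (nat_lit 179240960) (nat_lit 292896768)) (I.mix (nat_lit 30883840) (nat_lit 57131008)) (I.mix (nat_lit 122716160) (nat_lit 57376768)) (I.pos (nat_lit 413810688) (nat_lit 599343104)) (I.mix (nat_lit 100876288) (nat_lit 74416128)) (I.mix (nat_lit 67223552) (nat_lit 58785792)) (I.mix (nat_lit 124600320) (nat_lit 94863360)))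
  false (nat_lit 39807350)
def b4_8 : Bx := Bx.mk (St.mk (I.mix (nat_lit 17776640) (nat_lit 48644096)) (I.mix (nat_lit 45711360) (nat_lit 15941632)) (I.neg (nat_lit 23986176) (nat_lit 36421632)) (I.pos (nat_lit 267354112) (nat_lit 285917184)) (I.mix (nat_lit 58867712) (nat_lit 49266688)) (I.mix (nat_lit 39583744) (nat_lit 39124992)) (I.mix (nat_lit 12156928) (nat_lit 12713984)))
  false (nat_lit 0)
def b4_9 : Bx := Bx.mk (St.mk (I.pos (nat_lit 147095552) (nat_lit 197230592)) (I.pos (nat_lit 28868608) (nat_lit 80052224)) (I.pos (nat_lit 30801920) (nat_lit 103694336)) (I.pos (nat_lit 386383872) (nat_lit 442744832)) (I.mix (nat_lit 126681088) (nat_lit 81657856)) (I.mix (nat_lit 83836928) (nat_lit 64978944)) (I.mix (nat_lit 126763008) (nat_lit 91308032)))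
  false (nat_lit 27538275)
def b4_10 : Bx := Bx.mk (St.mk (I.pos (nat_lit 16957440) (nat_lit 52723712)) (I.neg (nat_lit 25214976) (nat_lit 71614464)) (I.neg (nat_lit 26034176) (nat_lit 46809088)) (I.pos (nat_lit 275070976) (nat_lit 293486592)) (I.mix (nat_lit 105250816) (nat_lit 54689792)) (I.mix (nat_lit 44515328) (nat_lit 78544896)) (I.mix (nat_lit 32473088) (nat_lit 20922368)))
  false (nat_lit 0)
def t4 : BTr := (BTr.n (BTr.n (BTr.n (BTr.b b4_0) (BTr.b b4_1)) (BTr.n (BTr.b b4_2) (BTr.n (BTr.b b4_3) (BTr.b b4_4)))) (BTr.n (BTr.n (BTr.b b4_5) (BTr.n (BTr.b b4_6) (BTr.b b4_7))) (BTr.n (BTr.b b4_8) (BTr.n (BTr.b b4_9) (BTr.b b4_10)))))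
namespace T4
def l0 : Tr := Tr.L (Pth.l (Pth.l (Pth.l Pth.z)))
def l1 : Tr := Tr.L (Pth.l (Pth.l (Pth.r Pth.z)))
def l2 : Tr := Tr.L (Pth.l (Pth.r (Pth.l Pth.z)))
def l3 : Tr := Tr.L (Pth.l (Pth.r (Pth.r (Pth.l Pth.z))))
def l4 : Tr := Tr.L (Pth.l (Pth.r (Pth.r (Pth.r Pth.z))))
def l5 : Tr := Tr.L (Pth.r (Pth.l (Pth.l Pth.z)))
def l6 : Tr := Tr.L (Pth.r (Pth.l (Pth.r (Pth.l Pth.z))))
def l7 : Tr := Tr.L (Pth.r (Pth.l (Pth.r (Pth.r Pth.z))))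
def l8 : Tr := Tr.L (Pth.r (Pth.r (Pth.l Pth.z)))
def l9 : Tr := Tr.L (Pth.r (Pth.r (Pth.r (Pth.l Pth.z))))
def l10 : Tr := Tr.L (Pth.r (Pth.r (Pth.r (Pth.r Pth.z))))
end T4
def b5_0 : Bx := Bx.mk (St.mk (I.pos (nat_lit 137232384) (nat_lit 217350144)) (I.mix (nat_lit 1851392) (nat_lit 58343424)) (I.mix (nat_lit 3473408) (nat_lit 112361472)) (I.pos (nat_lit 230653952) (nat_lit 328761344)) (I.mix (nat_lit 119603200) (nat_lit 54591488)) (I.mix (nat_lit 74268672) (nat_lit 59129856)) (I.mix (nat_lit 91734016) (nat_lit 65355776)))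
  false (nat_lit 17711761)
def b5_1 : Bx := Bx.mk (St.mk (I.pos (nat_lit 77217792) (nat_lit 144130048)) (I.neg (nat_lit 6701056) (nat_lit 70664192)) (I.mix (nat_lit 35995648) (nat_lit 29196288)) (I.pos (nat_lit 176734208) (nat_lit 223985664)) (I.mix (nat_lit 77152256) (nat_lit 74039296)) (I.mix (nat_lit 57065472) (nat_lit 61095936)) (I.mix (nat_lit 46317568) (nat_lit 57229312)))
  false (nat_lit 22613793)
def b5_2 : Bx := Bx.mk (St.mk (I.mix (nat_lit 29868032) (nat_lit 3833856)) (I.mix (nat_lit 41451520) (nat_lit 7979008)) (I.pos (nat_lit 14647296) (nat_lit 24051712)) (I.pos (nat_lit 141426688) (nat_lit 152846336)) (I.mix (nat_lit 40075264) (nat_lit 68337664)) (I.mix (nat_lit 29294592) (nat_lit 43319296)) (I.mix (nat_lit 8175616) (nat_lit 11993088)))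
  true (nat_lit 0)
def b5_3 : Bx := Bx.mk (St.mk (I.pos (nat_lit 131317760) (nat_lit 174833664)) (I.mix (nat_lit 2736128) (nat_lit 49823744)) (I.pos (nat_lit 43630592) (nat_lit 105463808)) (I.pos (nat_lit 208896000) (nat_lit 265207808)) (I.mix (nat_lit 137543680) (nat_lit 36585472)) (I.mix (nat_lit 115441664) (nat_lit 51822592)) (I.mix (nat_lit 119062528) (nat_lit 54624256)))
  false (nat_lit 0)
def b5_4 : Bx := Bx.mk (St.mk (I.mix (nat_lit 3833856) (nat_lit 29868032)) (I.mix (nat_lit 9060352) (nat_lit 41484288)) (I.pos (nat_lit 14647296) (nat_lit 24051712)) (I.pos (nat_lit 141426688) (nat_lit 152846336)) (I.mix (nat_lit 68337664) (nat_lit 40501248)) (I.mix (nat_lit 43319296) (nat_lit 29294592)) (I.mix (nat_lit 8175616) (nat_lit 11993088)))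
  false (nat_lit 0)
def b5_5 : Bx := Bx.mk (St.mk (I.pos (nat_lit 114327552) (nat_lit 142311424)) (I.neg (nat_lit 5685248) (nat_lit 31850496)) (I.pos (nat_lit 3014656) (nat_lit 31408128)) (I.pos (nat_lit 194609152) (nat_lit 222593024)) (I.mix (nat_lit 64110592) (nat_lit 38158336)) (I.mix (nat_lit 32571392) (nat_lit 47693824)) (I.mix (nat_lit 34570240) (nat_lit 39649280)))
  false (nat_lit 0)
def b5_6 : Bx := Bx.mk (St.mk (I.mix (nat_lit 24150016) (nat_lit 2998272)) (I.mix (nat_lit 16728064) (nat_lit 10108928)) (I.pos (nat_lit 15319040) (nat_lit 20807680)) (I.pos (nat_lit 141574144) (nat_lit 146931712)) (I.mix (nat_lit 40697856) (nat_lit 30113792)) (I.mix (nat_lit 23396352) (nat_lit 27344896)) (I.mix (nat_lit 5275648) (nat_lit 4866048)))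
  true (nat_lit 0)
def b5_7 : Bx := Bx.mk (St.mk (I.pos (nat_lit 132284416) (nat_lit 162938880)) (I.neg (nat_lit 16711680) (nat_lit 39141376)) (I.mix (nat_lit 933888) (nat_lit 24051712)) (I.pos (nat_lit 212795392) (nat_lit 245186560)) (I.mix (nat_lit 57065472) (nat_lit 61374464)) (I.mix (nat_lit 56459264) (nat_lit 41369600)) (I.mix (nat_lit 52854784) (nat_lit 39419904)))
  false (nat_lit 0)
def b5_8 : Bx := Bx.mk (St.mk (I.pos (nat_lit 130465792) (nat_lit 179879936)) (I.mix (nat_lit 39124992) (nat_lit 21168128)) (I.mix (nat_lit 311296) (nat_lit 72335360)) (I.pos (nat_lit 207880192) (nat_lit 264962048)) (I.mix (nat_lit 114278400) (nat_lit 78774272)) (I.mix (nat_lit 97976320) (nat_lit 60899328)) (I.mix (nat_lit 95600640) (nat_lit 62783488)))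
  false (nat_lit 14889681)
def b5_9 : Bx := Bx.mk (St.mk (I.pos (nat_lit 9256960) (nat_lit 73957376)) (I.mix (nat_lit 11747328) (nat_lit 42516480)) (I.mix (nat_lit 2818048) (nat_lit 24985600)) (I.pos (nat_lit 143048704) (nat_lit 164593664)) (I.mix (nat_lit 58556416) (nat_lit 48381952)) (I.mix (nat_lit 45629440) (nat_lit 28704768)) (I.mix (nat_lit 25100288) (nat_lit 17203200)))
  false (nat_lit 0)
def b5_10 : Bx := Bx.mk (St.mk (I.pos (nat_lit 51150848) (nat_lit 102105088)) (I.mix (nat_lit 63602688) (nat_lit 12369920)) (I.mix (nat_lit 32358400) (nat_lit 10829824)) (I.pos (nat_lit 152436736) (nat_lit 193708032)) (I.mix (nat_lit 75022336) (nat_lit 53805056)) (I.mix (nat_lit 38043648) (nat_lit 62685184)) (I.mix (nat_lit 24723456) (nat_lit 34177024)))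
  false (nat_lit 0)
def b5_11 : Bx := Bx.mk (St.mk (I.neg (nat_lit 9256960) (nat_lit 74039296)) (I.mix (nat_lit 42516480) (nat_lit 11894784)) (I.mix (nat_lit 3375104) (nat_lit 25018368)) (I.pos (nat_lit 143048704) (nat_lit 164528128)) (I.mix (nat_lit 48381952) (nat_lit 58556416)) (I.mix (nat_lit 28704768) (nat_lit 45629440)) (I.mix (nat_lit 25100288) (nat_lit 17203200)))
  true (nat_lit 0)
def b5_12 : Bx := Bx.mk (St.mk (I.pos (nat_lit 190644224) (nat_lit 287227904)) (I.mix (nat_lit 28540928) (nat_lit 42369024)) (I.mix (nat_lit 47841280) (nat_lit 90243072)) (I.pos (nat_lit 291438592) (nat_lit 463568896)) (I.mix (nat_lit 93470720) (nat_lit 70352896)) (I.mix (nat_lit 77037568) (nat_lit 50135040)) (I.mix (nat_lit 137445376) (nat_lit 81887232)))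
  false (nat_lit 10698039)
def b5_13 : Bx := Bx.mk (St.mk (I.pos (nat_lit 161284096) (nat_lit 208109568)) (I.pos (nat_lit 12140544) (nat_lit 55410688)) (I.pos (nat_lit 41467904) (nat_lit 109461504)) (I.pos (nat_lit 258211840) (nat_lit 309133312)) (I.mix (nat_lit 117129216) (nat_lit 70123520)) (I.mix (nat_lit 82477056) (nat_lit 56623104)) (I.mix (nat_lit 126648320) (nat_lit 63684608)))
  false (nat_lit 9129053)
def t5 : BTr := (BTr.n (BTr.n (BTr.n (BTr.b b5_0) (BTr.n (BTr.b b5_1) (BTr.b b5_2))) (BTr.n (BTr.n (BTr.b b5_3) (BTr.b b5_4)) (BTr.n (BTr.b b5_5) (BTr.b b5_6)))) (BTr.n (BTr.n (BTr.b b5_7) (BTr.n (BTr.b b5_8) (BTr.b b5_9))) (BTr.n (BTr.n (BTr.b b5_10) (BTr.b b5_11)) (BTr.n (BTr.b b5_12) (BTr.b b5_13)))))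
namespace T5
def l0 : Tr := Tr.L (Pth.l (Pth.l (Pth.l Pth.z)))
def l1 : Tr := Tr.L (Pth.l (Pth.l (Pth.r (Pth.l Pth.z))))
def l2 : Tr := Tr.L (Pth.l (Pth.l (Pth.r (Pth.r Pth.z))))
def l3 : Tr := Tr.L (Pth.l (Pth.r (Pth.l (Pth.l Pth.z))))
def l4 : Tr := Tr.L (Pth.l (Pth.r (Pth.l (Pth.r Pth.z))))
def l5 : Tr := Tr.L (Pth.l (Pth.r (Pth.r (Pth.l Pth.z))))
def l6 : Tr := Tr.L (Pth.l (Pth.r (Pth.r (Pth.r Pth.z))))
def l7 : Tr := Tr.L (Pth.r (Pth.l (Pth.l Pth.z)))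
def l8 : Tr := Tr.L (Pth.r (Pth.l (Pth.r (Pth.l Pth.z))))
def l9 : Tr := Tr.L (Pth.r (Pth.l (Pth.r (Pth.r Pth.z))))
def l10 : Tr := Tr.L (Pth.r (Pth.r (Pth.l (Pth.l Pth.z))))
def l11 : Tr := Tr.L (Pth.r (Pth.r (Pth.l (Pth.r Pth.z))))
def l12 : Tr := Tr.L (Pth.r (Pth.r (Pth.r (Pth.l Pth.z))))
def l13 : Tr := Tr.L (Pth.r (Pth.r (Pth.r (Pth.r Pth.z))))
end T5
theorem bx0_0 : BoxOK sI cl4 cl5 cl7 t2 t4 b0_0 :=
  box_mk (TrL.c (I.pos (nat_lit 0) (nat_lit 0)) (xb (xa (xb (xa (xb T2.l0 T2.l0) T2.l0) (xa T2.l0 T2.l0)) (xb T2.l0 T2.l0)) (xa (xb (xa (xb T2.l0 (xa T2.l0 T2.l0)) (xb T2.l0 T2.l0)) (xa (xb (xa (xb T2.l0 T2.l0) T2.l0) (xa (xb T2.l0 T2.l0) (xb T2.l0 T2.l0))) (xb T2.l0 (xa T2.l0 T2.l0)))) (xb (xa T2.l0 T2.l0) (xa (xb T2.l0 (xa T2.l0 (xb T2.l0 T2.l0))) (xb (xa T2.l0 T2.l0) (xa (xb T2.l0 T2.l0) (xb T2.l0 T2.l0)))))))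
  (TrL.c (I.pos (nat_lit 0) (nat_lit 0)) (xb (xa T4.l1 T4.l1) (xa (xb T4.l1 T4.l1) (xb T4.l1 (xa T4.l1 T4.l1))))
  (TrL.c (I.pos (nat_lit 0) (nat_lit 0)) (xb T2.l1 (xa T2.l1 T2.l1))
  (TrL.c (I.pos (nat_lit 0) (nat_lit 0)) (xb (xa T4.l2 (xb T4.l2 T4.l2)) (xa T4.l2 (xb (xa T4.l2 T4.l2) (xa T4.l2 (xb T4.l2 T4.l2)))))
  (TrL.c (I.pos (nat_lit 0) (nat_lit 0)) (xa (xb T2.l2 (xb T2.l2 T2.l2)) (xb T2.l2 T2.l2))
  (TrL.c (I.pos (nat_lit 0) (nat_lit 0)) (xb (xa T4.l3 T4.l3) (xa (xb T4.l3 T4.l3) (xb T4.l3 (xa T4.l3 T4.l3))))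
  TrL.n)))))) (by decide +kernel)
theorem bx0_1 : BoxOK sI cl4 cl5 cl7 t2 t4 b0_1 :=
  box_mk (TrL.c (I.pos (nat_lit 0) (nat_lit 0)) (xb (xa (xb T2.l6 T2.l6) T2.l6) (xa (xb (xa T2.l6 T2.l6) (xa (xb T2.l6 T2.l6) T2.l6)) (xb T2.l6 (xa T2.l6 T2.l6))))
  (TrL.c (I.pos (nat_lit 0) (nat_lit 0)) T4.l1
  (TrL.c (I.pos (nat_lit 0) (nat_lit 0)) T2.l1
  (TrL.c (I.pos (nat_lit 0) (nat_lit 0)) T4.l2
  (TrL.c (I.pos (nat_lit 0) (nat_lit 0)) T2.l7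
  (TrL.c (I.pos (nat_lit 0) (nat_lit 0)) T4.l3
  TrL.n)))))) (by decide +kernel)
theorem bx0_2 : BoxOK sI cl4 cl5 cl7 t2 t4 b0_2 :=
  box_mk (TrL.c (I.pos (nat_lit 0) (nat_lit 0)) (xb (xb (xa (xb (xa T2.l6 T2.l6) (xa T2.l6 T2.l6)) (xb T2.l6 T2.l6)) (xa (xb (xa T2.l6 T2.l6) T2.l6) T2.l6)) (xb (xa (xb T2.l6 T2.l6) T2.l6) (xa (xb (xa T2.l6 T2.l6) (xa T2.l6 T2.l6)) (xb T2.l6 T2.l6))))
  (TrL.c (I.pos (nat_lit 0) (nat_lit 0)) T4.l1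
  (TrL.c (I.pos (nat_lit 0) (nat_lit 0)) T2.l1
  (TrL.c (I.pos (nat_lit 0) (nat_lit 0)) T4.l2
  (TrL.c (I.pos (nat_lit 0) (nat_lit 0)) (xb T2.l7 T2.l7)
  (TrL.c (I.pos (nat_lit 0) (nat_lit 0)) T4.l3
  TrL.n)))))) (by decide +kernel)
theorem bx0_3 : BoxOK sI cl4 cl5 cl7 t2 t4 b0_3 :=
  box_mk (TrL.c (I.pos (nat_lit 0) (nat_lit 0)) T4.l1
  (TrL.c (I.pos (nat_lit 0) (nat_lit 0)) T2.l1
  TrL.n)) (by decide +kernel)
theorem bx0_4 : BoxOK sI cl4 cl5 cl7 t2 t4 b0_4 :=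
  box_mk (TrL.c (I.pos (nat_lit 0) (nat_lit 0)) T2.l6
  (TrL.c (I.pos (nat_lit 0) (nat_lit 0)) T4.l1
  (TrL.c (I.pos (nat_lit 0) (nat_lit 0)) T2.l1
  (TrL.c (I.pos (nat_lit 0) (nat_lit 0)) T4.l2
  (TrL.c (I.pos (nat_lit 0) (nat_lit 0)) T2.l7
  (TrL.c (I.pos (nat_lit 0) (nat_lit 0)) T4.l3
  TrL.n)))))) (by decide +kernel)
theorem bx0_5 : BoxOK sI cl4 cl5 cl7 t2 t4 b0_5 :=
  box_mk (TrL.c (I.pos (nat_lit 0) (nat_lit 0)) (xa T2.l0 T2.l4)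
  (TrL.c (I.pos (nat_lit 0) (nat_lit 0)) (xa T4.l1 T4.l1)
  (TrL.c (I.pos (nat_lit 0) (nat_lit 0)) T2.l5
  (TrL.c (I.pos (nat_lit 0) (nat_lit 0)) (xa T4.l2 (xb (xa T4.l2 (xe (xb T4.l2 T4.l2) T4.l2)) T4.l2))
  (TrL.c (I.pos (nat_lit 0) (nat_lit 0)) T2.l3
  (TrL.c (I.pos (nat_lit 0) (nat_lit 0)) (xa T4.l3 T4.l3)
  TrL.n)))))) (by decide +kernel)
theorem c0_6_0 : chkTag sI cl4 cl5 cl7 t2 b0_6 (tg true true false RT.r2) (I.pos (nat_lit 0) (nat_lit 0))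
  (xb (xa (xb (xa (xb (xc T2.l0 T2.l0) (xc T2.l0 T2.l0)) (xb T2.l0 T2.l0)) (xa (xb (xc T2.l0 T2.l0) (xc (xa T2.l0 T2.l0) T2.l0)) (xb T2.l0 (xc T2.l0 T2.l0)))) (xb (xa T2.l4 (xb T2.l4 T2.l0)) (xa (xb T2.l0 T2.l0) (xb T2.l0 T2.l0)))) (xa (xb (xa (xb (xc (xa T2.l0 T2.l0) (xa T2.l0 T2.l0)) (xc (xa T2.l0 T2.l0) (xa T2.l0 T2.l0))) (xb (xc T2.l0 T2.l0) (xc (xa T2.l0 T2.l0) T2.l0))) (xa (xb (xc (xa (xb T2.l0 T2.l0) T2.l0) (xa (xb T2.l0 T2.l0) T2.l0)) (xa (xc (xb T2.l0 T2.l0) (xb T2.l0 T2.l0)) (xc (xb T2.l0 T2.l0) T2.l0))) (xb (xc (xa T2.l0 T2.l0) T2.l0) (xc (xa T2.l0 T2.l0) (xa T2.l0 T2.l0))))) (xb (xa (xb (xc T2.l0 T2.l0) (xc T2.l0 T2.l0)) (xb (xc T2.l0 T2.l0) (xc T2.l0 (xa T2.l0 T2.l0)))) (xa (xb (xc (xa T2.l0 T2.l0) T2.l0) (xa (xc T2.l0 T2.l0) (xc T2.l0 T2.l0))) (xb (xa T2.l0 (xc T2.l0 T2.l0)) (xa (xc T2.l0 T2.l0) (xc (xb T2.l0 T2.l0)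 (xb T2.l0 T2.l0)))))))) = true := by decide +kernel
theorem c0_6_1 : chkTag sI cl4 cl5 cl7 t4 b0_6 (tg true false false RT.r3) (I.pos (nat_lit 0) (nat_lit 0))
  (xb (xa (xb (xc T4.l1 T4.l1) (xc T4.l1 T4.l1)) (xb (xc T4.l1 T4.l1) (xc (xa T4.l1 T4.l1) T4.l1))) (xa (xc (xb T4.l1 (xa T4.l1 T4.l1)) (xb T4.l1 (xa T4.l1 T4.l1))) (xb (xc (xa T4.l1 T4.l1) T4.l1) (xc (xa T4.l1 T4.l1) (xa T4.l1 T4.l1))))) = true := by decide +kernel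
theorem c0_6_2 : chkTag sI cl4 cl5 cl7 t2 b0_6 (tg true true true RT.r4) (I.pos (nat_lit 0) (nat_lit 0))
  (xc (xb (xa T2.l5 T2.l5) (xa (xb T2.l1 T2.l1) (xc (xb T2.l1 T2.l1) (xb T2.l1 T2.l1)))) (xb (xa T2.l5 (xc T2.l5 T2.l5)) (xa T2.l1 (xb T2.l1 (xc T2.l1 T2.l1))))) = true := by decide +kernel
theorem c0_6_3 : chkTag sI cl4 cl5 cl7 t4 b0_6 (tg false false false RT.r3) (I.pos (nat_lit 0) (nat_lit 0))
  (xb (xa (xb (xc (xa (xb (xc T4.l2 T4.l2) T4.l2) (xb (xc T4.l2 T4.l2) T4.l2)) (xa (xb (xc T4.l2 T4.l2) T4.l2) (xb (xc T4.l2 T4.l2) T4.l2))) (xc T4.l2 T4.l2)) (xb (xc (xa (xb (xc (xe T4.l2 T4.l2) T4.l2) T4.l2) (xb (xc (xe T4.l2 T4.l2) (xa T4.l2 T4.l2)) (xc T4.l2 T4.l2))) (xa (xb (xc T4.l2 T4.l2) T4.l2) (xb (xc (xa T4.l2 T4.l2) (xe T4.l2 T4.l2)) (xc T4.l2 T4.l2)))) (xc (xa T4.l2 (xb (xc T4.l2 T4.l2) (xc T4.l2 T4.l2))) (xa T4.l2 (xb T4.l2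 T4.l2))))) (xa (xb (xc T4.l2 T4.l2) (xc (xa T4.l2 T4.l2) (xa T4.l2 T4.l2))) (xb (xc (xa (xb T4.l2 T4.l2) (xb (xc T4.l2 T4.l2) (xc T4.l2 T4.l2))) (xa T4.l2 (xb T4.l2 (xc T4.l2 T4.l2)))) (xc (xa (xb T4.l2 (xc T4.l2 T4.l2)) (xb (xc (xe T4.l2 T4.l2) T4.l2) (xc (xe T4.l2 T4.l2) (xe T4.l2 T4.l2)))) (xa (xb T4.l2 (xc T4.l2 T4.l2)) (xb (xe (xc T4.l2 T4.l2) T4.l2) (xe (xc T4.l2 T4.l2) (xc T4.l2 T4.l2)))))))) = true := by decide +kernel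
theorem c0_6_4 : chkTag sI cl4 cl5 cl7 t2 b0_6 (tg false true false RT.r4) (I.pos (nat_lit 0) (nat_lit 0))
  (xc (xb (xa T2.l3 T2.l3) (xa T2.l2 (xb T2.l2 (xc T2.l2 T2.l2)))) (xb (xa T2.l3 (xc T2.l3 T2.l3)) (xa T2.l2 (xb T2.l2 (xc T2.l2 T2.l2))))) = true := by decide +kernel
theorem c0_6_5 : chkTag sI cl4 cl5 cl7 t4 b0_6 (tg false false true RT.r5) (I.pos (nat_lit 0) (nat_lit 0))
  (xb (xa (xb (xc T4.l3 T4.l3) (xc T4.l3 T4.l3)) (xb (xc T4.l3 T4.l3) (xc (xa T4.l3 T4.l3) T4.l3))) (xa (xc (xb T4.l3 (xa T4.l3 T4.l3)) (xb T4.l3 (xa T4.l3 T4.l3))) (xb (xc (xa T4.l3 T4.l3) T4.l3) (xc (xa T4.l3 T4.l3) (xa T4.l3 T4.l3))))) = true := by decide +kernel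
theorem bx0_6 : BoxOK sI cl4 cl5 cl7 t2 t4 b0_6 :=
  box_mk' [(tg true true false RT.r2), (tg true false false RT.r3), (tg true true true RT.r4), (tg false false false RT.r3), (tg false true false RT.r4), (tg false false true RT.r5)] rfl (allL_c (ex_mk c0_6_0) (allL_c (ex_mk c0_6_1) (allL_c (ex_mk c0_6_2) (allL_c (ex_mk c0_6_3) (allL_c (ex_mk c0_6_4) (allL_c (ex_mk c0_6_5) allL_n))))))
theorem bx0_7 : BoxOK sI cl4 cl5 cl7 t2 t4 b0_7 :=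
  box_mk (TrL.c (I.pos (nat_lit 0) (nat_lit 0)) (xa (xb (xa (xb (xa T2.l6 T2.l6) T2.l6) (xb T2.l6 T2.l6)) (xa T2.l6 T2.l6)) (xb (xa (xb T2.l6 T2.l6) (xb T2.l6 T2.l6)) (xa T2.l6 T2.l9)))
  (TrL.c (I.pos (nat_lit 0) (nat_lit 0)) (xa T4.l1 T4.l1)
  (TrL.c (I.pos (nat_lit 0) (nat_lit 0)) T2.l1
  (TrL.c (I.pos (nat_lit 0) (nat_lit 0)) (xa T4.l2 T4.l2)
  (TrL.c (I.pos (nat_lit 0) (nat_lit 0)) (xa T2.l7 (xb T2.l7 T2.l7))
  (TrL.c (I.pos (nat_lit 0) (nat_lit 0)) (xa T4.l3 T4.l3)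
  TrL.n)))))) (by decide +kernel)
theorem bx0_8 : BoxOK sI cl4 cl5 cl7 t2 t4 b0_8 :=
  box_mk (TrL.c (I.pos (nat_lit 0) (nat_lit 0)) T4.l1
  (TrL.c (I.pos (nat_lit 0) (nat_lit 0)) (xb T2.l8 T2.l1)
  TrL.n)) (by decide +kernel)
theorem bx0_9 : BoxOK sI cl4 cl5 cl7 t2 t4 b0_9 :=
  box_mk (TrL.c (I.pos (nat_lit 0) (nat_lit 0)) (xb (xa (xb T2.l9 T2.l9) (xb T2.l0 T2.l0)) (xa (xb (xa T2.l9 T2.l9) (xa (xb T2.l9 T2.l9) (xb T2.l9 T2.l9))) (xb (xa T2.l9 T2.l9) (xa (xb T2.l9 T2.l0) T2.l0))))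
  (TrL.c (I.pos (nat_lit 0) (nat_lit 0)) T4.l1
  (TrL.c (I.pos (nat_lit 0) (nat_lit 0)) T2.l1
  (TrL.c (I.pos (nat_lit 0) (nat_lit 0)) (xb T4.l2 T4.l2)
  (TrL.c (I.pos (nat_lit 0) (nat_lit 0)) (xa (xb T2.l2 T2.l2) T2.l2)
  (TrL.c (I.pos (nat_lit 0) (nat_lit 0)) T4.l3
  TrL.n)))))) (by decide +kernel)
theorem bx0_10 : BoxOK sI cl4 cl5 cl7 t2 t4 b0_10 :=
  box_mk (TrL.c (I.pos (nat_lit 0) (nat_lit 0)) (xb (xa (xb (xa (xb (xa T2.l6 T2.l6) T2.l6) T2.l6) (xa T2.l6 T2.l6)) T2.l6) (xa (xb T2.l6 (xa (xb T2.l6 (xa T2.l6 T2.l6)) T2.l6)) T2.l6))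
  (TrL.c (I.pos (nat_lit 0) (nat_lit 0)) T4.l1
  (TrL.c (I.pos (nat_lit 0) (nat_lit 0)) (xb T2.l1 T2.l8)
  (TrL.c (I.pos (nat_lit 0) (nat_lit 0)) (xb T4.l2 T4.l2)
  (TrL.c (I.pos (nat_lit 0) (nat_lit 0)) (xb T2.l7 T2.l7)
  (TrL.c (I.pos (nat_lit 0) (nat_lit 0)) T4.l3
  TrL.n)))))) (by decide +kernel)
theorem bx0_11 : BoxOK sI cl4 cl5 cl7 t2 t4 b0_11 :=
  box_mk (TrL.c (I.pos (nat_lit 0) (nat_lit 0)) (xa (xb (xa (xb T2.l9 T2.l9) T2.l9) (xa (xb T2.l9 T2.l9) T2.l9)) (xb (xa T2.l9 (xb T2.l9 T2.l9)) (xa T2.l9 T2.l9)))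
  (TrL.c (I.pos (nat_lit 0) (nat_lit 0)) T4.l1
  (TrL.c (I.pos (nat_lit 0) (nat_lit 0)) T2.l1
  (TrL.c (I.pos (nat_lit 0) (nat_lit 0)) (xa T4.l2 (xb T4.l2 T4.l2))
  (TrL.c (I.pos (nat_lit 0) (nat_lit 0)) (xa (xb T2.l10 T2.l10) T2.l3)
  (TrL.c (I.pos (nat_lit 0) (nat_lit 0)) T4.l3
  TrL.n)))))) (by decide +kernel)
theorem bx0_12 : BoxOK sI cl4 cl5 cl7 t2 t4 b0_12 :=
  box_mk (TrL.c (I.pos (nat_lit 0) (nat_lit 0)) (xb (xa (xb (xa T2.l9 T2.l9) (xa T2.l9 T2.l9)) (xb T2.l0 T2.l0)) (xa (xb (xa T2.l9 T2.l9) (xa T2.l9 T2.l9)) (xb (xa T2.l9 T2.l0) (xa T2.l9 T2.l0))))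
  (TrL.c (I.pos (nat_lit 0) (nat_lit 0)) T4.l1
  (TrL.c (I.pos (nat_lit 0) (nat_lit 0)) T2.l1
  (TrL.c (I.pos (nat_lit 0) (nat_lit 0)) (xb (xa T4.l2 T4.l2) T4.l2)
  (TrL.c (I.pos (nat_lit 0) (nat_lit 0)) (xa T2.l3 T2.l2)
  (TrL.c (I.pos (nat_lit 0) (nat_lit 0)) T4.l3
  TrL.n)))))) (by decide +kernel)
theorem sv0 : StarV sI cl4 cl5 cl7 t2 t4 t0 :=
  (bt_n (bt_n (bt_n (bt_b bx0_0) (bt_n (bt_b bx0_1) (bt_b bx0_2))) (bt_n (bt_b bx0_3) (bt_n (bt_b bx0_4) (bt_b bx0_5)))) (bt_n (bt_n (bt_b bx0_6) (bt_n (bt_b bx0_7) (bt_b bx0_8))) (bt_n (bt_n (bt_b bx0_9) (bt_b bx0_10)) (bt_n (bt_b bx0_11) (bt_b bx0_12)))))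
def S0 : StarD := StarD.mk cl4 cl5 cl7 2 4 t0
theorem bx1_0 : BoxOK sI cl4 cl7 cl5 t4 t2 b1_0 :=
  box_mk (TrL.c (I.pos (nat_lit 0) (nat_lit 0)) (xa (xb (xa (xb (xa T4.l0 T4.l0) (xa T4.l0 T4.l0)) (xb T4.l0 T4.l0)) (xa (xb (xa (xb T4.l0 T4.l0) (xb T4.l0 T4.l0)) (xa (xb (xa T4.l0 T4.l0) (xa (xd T4.l0 T4.l0) T4.l0)) (xb T4.l0 (xa T4.l0 T4.l0)))) (xb (xa T4.l0 T4.l0) (xa (xb T4.l0 (xa T4.l0 T4.l0)) (xb T4.l0 (xa T4.l0 T4.l0)))))) (xb (xa T4.l0 (xb T4.l0 T4.l0)) (xa (xb (xa T4.l0 T4.l0) (xa (xb T4.l0 (xa T4.l0 T4.l0)) (xb T4.l0 (xa T4.l0 T4.l0)))) (xb (xa T4.l0 T4.l0) (xa (xb T4.l0 (xa T4.l0 T4.l0)) (xb T4.l0 (xd T4.l0 T4.l0)))))))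
  (TrL.c (I.pos (nat_lit 0) (nat_lit 0)) (xa (xb T2.l3 (xa (xb T2.l3 T2.l3) (xb T2.l3 T2.l3))) (xb (xa T2.l3 T2.l3) (xa (xb T2.l3 T2.l3) (xb T2.l3 (xa T2.l3 T2.l3)))))
  (TrL.c (I.pos (nat_lit 0) (nat_lit 0)) (xa T4.l4 (xb T4.l4 (xa T4.l4 (xc T4.l4 T4.l4))))
  (TrL.c (I.pos (nat_lit 0) (nat_lit 0)) (xa T2.l4 (xb (xa T2.l4 T2.l4) (xa T2.l4 (xb T2.l4 (xa T2.l4 T2.l4)))))
  (TrL.c (I.pos (nat_lit 0) (nat_lit 0)) (xa (xb (xa T4.l5 T4.l5) (xa T4.l5 T4.l5)) (xb T4.l5 (xa T4.l5 (xc T4.l5 T4.l5))))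
  (TrL.c (I.pos (nat_lit 0) (nat_lit 0)) (xa (xb T2.l5 (xa (xb T2.l5 T2.l5) (xb T2.l5 T2.l5))) (xb (xa T2.l5 T2.l5) (xa (xb T2.l5 T2.l5) (xb T2.l5 (xa T2.l5 T2.l5)))))
  TrL.n)))))) (by decide +kernel)
theorem bx1_1 : BoxOK sI cl4 cl7 cl5 t4 t2 b1_1 :=
  box_mk (TrL.c (I.pos (nat_lit 0) (nat_lit 0)) (xa (xa (xb (xa (xb T4.l7 T4.l7) T4.l7) (xa (xb T4.l7 (xa T4.l7 T4.l7)) (xb T4.l7 T4.l7))) (xb T4.l7 (xa T4.l7 T4.l7))) (xa T4.l7 (xb T4.l7 (xa T4.l7 (xb T4.l7 (xa T4.l7 T4.l7))))))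
  (TrL.c (I.pos (nat_lit 0) (nat_lit 0)) (xa (xa T2.l3 T2.l3) T2.l3)
  (TrL.c (I.pos (nat_lit 0) (nat_lit 0)) (xa T4.l4 T4.l4)
  (TrL.c (I.pos (nat_lit 0) (nat_lit 0)) (xa T2.l4 T2.l4)
  (TrL.c (I.pos (nat_lit 0) (nat_lit 0)) T4.l8
  (TrL.c (I.pos (nat_lit 0) (nat_lit 0)) (xa T2.l5 T2.l5)
  TrL.n)))))) (by decide +kernel)
theorem bx1_2 : BoxOK sI cl4 cl7 cl5 t4 t2 b1_2 :=
  box_mk (TrL.c (I.pos (nat_lit 0) (nat_lit 0)) (xb (xa (xb T4.l7 T4.l7) (xb T4.l7 T4.l7)) (xa (xb T4.l7 (xa T4.l7 T4.l7)) (xb T4.l7 T4.l7)))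
  (TrL.c (I.pos (nat_lit 0) (nat_lit 0)) T2.l3
  (TrL.c (I.pos (nat_lit 0) (nat_lit 0)) T4.l4
  (TrL.c (I.pos (nat_lit 0) (nat_lit 0)) T2.l4
  (TrL.c (I.pos (nat_lit 0) (nat_lit 0)) (xb T4.l8 T4.l8)
  (TrL.c (I.pos (nat_lit 0) (nat_lit 0)) T2.l5
  TrL.n)))))) (by decide +kernel)
theorem bx1_3 : BoxOK sI cl4 cl7 cl5 t4 t2 b1_3 :=
  box_mk (TrL.c (I.pos (nat_lit 0) (nat_lit 0)) (xa (xb (xa (xb (xa (xa (xb T4.l7 T4.l7) T4.l7) T4.l7) T4.l7) T4.l7) T4.l7) T4.l7)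
  (TrL.c (I.pos (nat_lit 0) (nat_lit 0)) (xa T2.l4 T2.l3)
  (TrL.c (I.pos (nat_lit 0) (nat_lit 0)) (xa T4.l8 T4.l4)
  (TrL.c (I.pos (nat_lit 0) (nat_lit 0)) (xa T2.l3 T2.l4)
  (TrL.c (I.pos (nat_lit 0) (nat_lit 0)) (xa T4.l8 T4.l8)
  (TrL.c (I.pos (nat_lit 0) (nat_lit 0)) (xa (xb T2.l5 T2.l5) T2.l5)
  TrL.n)))))) (by decide +kernel)
theorem c1_4_0 : chkTag sI cl4 cl7 cl5 t4 b1_4 (tg true true false RT.r2) (I.pos (nat_lit 0) (nat_lit 0))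
  (xb (xa (xb (xa (xb (xa T4.l0 T4.l0) (xa T4.l0 T4.l0)) (xb T4.l0 T4.l0)) (xa (xb (xa T4.l0 T4.l0) (xa T4.l0 T4.l0)) (xb T4.l0 T4.l0))) (xb (xa T4.l2 T4.l2) (xa (xb T4.l0 T4.l0) T4.l2))) (xa (xb (xa (xb (xa T4.l0 T4.l0) (xa T4.l0 T4.l0)) (xb (xa T4.l0 T4.l0) (xa T4.l0 T4.l0))) (xa (xb (xa (xc T4.l0 T4.l0) T4.l0) (xa (xc T4.l0 T4.l0) (xc T4.l0 T4.l0))) (xb (xa T4.l0 T4.l0) (xa (xc T4.l0 T4.l0) (xc T4.l0 T4.l0))))) (xb (xa (xb T4.l0 (xa T4.l0 T4.l0)) (xb (xa T4.l0 T4.l0) (xa T4.l0 T4.l0))) (xa (xb (xa T4.l0 T4.l0) (xa (xc T4.l0 T4.l0) (xc T4.l0 T4.l0))) (xb (xa (xc T4.l0 T4.l0) (xc T4.l0 T4.l0)) (xa (xc T4.l0 T4.l0) (xc T4.l0 T4.l0))))))) = true := by decide +kernel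
theorem c1_4_1 : chkTag sI cl4 cl7 cl5 t2 b1_4 (tg true false false RT.r3) (I.pos (nat_lit 0) (nat_lit 0))
  (xb (xa (xb (xc T2.l3 T2.l3) (xc T2.l3 T2.l3)) (xb (xa (xc T2.l3 T2.l3) (xc T2.l3 T2.l3)) (xa (xc T2.l3 T2.l3) (xc T2.l3 T2.l3)))) (xa (xb (xc T2.l3 (xa T2.l3 T2.l3)) (xc (xa T2.l3 T2.l3) (xa T2.l3 T2.l3))) (xb (xc (xa T2.l3 T2.l3) (xa T2.l3 T2.l3)) (xa (xc T2.l3 T2.l3) (xc T2.l3 T2.l3))))) = true := by decide +kernel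
theorem c1_4_2 : chkTag sI cl4 cl7 cl5 t4 b1_4 (tg true true true RT.r4) (I.pos (nat_lit 0) (nat_lit 0))
  (xa (xc (xb T4.l4 T4.l4) T4.l4) (xc (xb (xa T4.l3 T4.l3) (xa T4.l4 (xb T4.l4 T4.l4))) (xb (xa T4.l4 T4.l4) (xa T4.l4 (xd T4.l4 T4.l4))))) = true := by decide +kernel
theorem c1_4_3 : chkTag sI cl4 cl7 cl5 t2 b1_4 (tg false false false RT.r3) (I.pos (nat_lit 0) (nat_lit 0))
  (xb (xa (xb (xc (xa T2.l4 (xd T2.l4 T2.l4)) (xa T2.l4 T2.l4)) T2.l4) (xb (xa (xc (xd T2.l4 T2.l4) (xd T2.l4 T2.l4)) (xc (xd (xb T2.l4 T2.l4) (xb T2.l4 T2.l4)) (xd (xb (xa T2.l4 T2.l4) T2.l4) (xb (xa T2.l4 T2.l4) T2.l4)))) (xc (xa T2.l4 (xd T2.l4 (xb T2.l4 T2.l4))) (xa T2.l4 (xd T2.l4 T2.l4))))) (xa (xb (xc T2.l4 T2.l4) (xc T2.l4 (xa T2.l4 T2.l4))) (xb (xc (xa T2.l4 (xd (xb T2.l4 T2.l4) (xb T2.l4 T2.l4))) (xa T2.l4 (xd (xb T2.l4 T2.l4) (xb T2.l4 T2.l4))))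 (xc (xa T2.l4 (xd (xb T2.l4 T2.l4) (xb T2.l4 T2.l4))) (xa (xd T2.l4 T2.l4) (xd (xb (xa T2.l4 T2.l4) (xa T2.l4 T2.l4)) (xb (xa T2.l4 T2.l4) (xa T2.l4 T2.l4)))))))) = true := by decide +kernel
theorem c1_4_4 : chkTag sI cl4 cl7 cl5 t4 b1_4 (tg false true false RT.r4) (I.pos (nat_lit 0) (nat_lit 0))
  (xa (xc (xb T4.l5 T4.l5) (xb T4.l5 T4.l5)) (xc (xb (xa T4.l1 T4.l1) (xa T4.l5 (xb T4.l5 T4.l5))) (xb (xa T4.l5 T4.l5) (xa T4.l5 (xd T4.l5 T4.l5))))) = true := by decide +kernel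
theorem c1_4_5 : chkTag sI cl4 cl7 cl5 t2 b1_4 (tg false false true RT.r5) (I.pos (nat_lit 0) (nat_lit 0))
  (xb (xa (xb (xc T2.l5 T2.l5) (xc T2.l5 T2.l5)) (xb (xa (xc T2.l5 T2.l5) (xc T2.l5 T2.l5)) (xa (xc T2.l5 T2.l5) (xc T2.l5 T2.l5)))) (xa (xb (xc (xa T2.l5 T2.l5) (xa T2.l5 T2.l5)) (xc (xa T2.l5 T2.l5) (xa T2.l5 T2.l5))) (xb (xc (xa T2.l5 T2.l5) (xa T2.l5 T2.l5)) (xa (xc T2.l5 T2.l5) (xc T2.l5 T2.l5))))) = true := by decide +kernel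
theorem bx1_4 : BoxOK sI cl4 cl7 cl5 t4 t2 b1_4 :=
  box_mk' [(tg true true false RT.r2), (tg true false false RT.r3), (tg true true true RT.r4), (tg false false false RT.r3), (tg false true false RT.r4), (tg false false true RT.r5)] rfl (allL_c (ex_mk c1_4_0) (allL_c (ex_mk c1_4_1) (allL_c (ex_mk c1_4_2) (allL_c (ex_mk c1_4_3) (allL_c (ex_mk c1_4_4) (allL_c (ex_mk c1_4_5) allL_n))))))
theorem bx1_5 : BoxOK sI cl4 cl7 cl5 t4 t2 b1_5 :=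
  box_mk (TrL.c (I.pos (nat_lit 0) (nat_lit 0)) (xa (xa (xb (xa (xa (xb T4.l7 T4.l7) T4.l7) T4.l7) T4.l7) T4.l7) T4.l7)
  (TrL.c (I.pos (nat_lit 0) (nat_lit 0)) (xa T2.l4 T2.l3)
  (TrL.c (I.pos (nat_lit 0) (nat_lit 0)) T4.l8
  (TrL.c (I.pos (nat_lit 0) (nat_lit 0)) (xa T2.l3 T2.l4)
  (TrL.c (I.pos (nat_lit 0) (nat_lit 0)) T4.l8
  (TrL.c (I.pos (nat_lit 0) (nat_lit 0)) T2.l5
  TrL.n)))))) (by decide +kernel)
theorem bx1_6 : BoxOK sI cl4 cl7 cl5 t4 t2 b1_6 :=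
  box_mk (TrL.c (I.pos (nat_lit 0) (nat_lit 0)) T4.l7
  (TrL.c (I.pos (nat_lit 0) (nat_lit 0)) T2.l3
  (TrL.c (I.pos (nat_lit 0) (nat_lit 0)) T4.l4
  (TrL.c (I.pos (nat_lit 0) (nat_lit 0)) T2.l4
  (TrL.c (I.pos (nat_lit 0) (nat_lit 0)) T4.l8
  (TrL.c (I.pos (nat_lit 0) (nat_lit 0)) T2.l5
  TrL.n)))))) (by decide +kernel)
theorem bx1_7 : BoxOK sI cl4 cl7 cl5 t4 t2 b1_7 :=
  box_mk (TrL.c (I.pos (nat_lit 0) (nat_lit 0)) (xa (xb (xa T4.l0 T4.l2) T4.l0) T4.l2)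
  (TrL.c (I.pos (nat_lit 0) (nat_lit 0)) (xa T2.l3 (xb (xa T2.l3 T2.l3) T2.l3))
  (TrL.c (I.pos (nat_lit 0) (nat_lit 0)) T4.l3
  (TrL.c (I.pos (nat_lit 0) (nat_lit 0)) (xa (xb T2.l0 T2.l4) (xb (xa T2.l0 (xd T2.l0 T2.l0)) (xa T2.l4 (xd (xb T2.l0 T2.l0) (xb T2.l0 T2.l0)))))
  (TrL.c (I.pos (nat_lit 0) (nat_lit 0)) T4.l1
  (TrL.c (I.pos (nat_lit 0) (nat_lit 0)) (xa T2.l5 (xb (xa T2.l5 T2.l5) T2.l5))
  TrL.n)))))) (by decide +kernel)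
theorem bx1_8 : BoxOK sI cl4 cl7 cl5 t4 t2 b1_8 :=
  box_mk (TrL.c (I.pos (nat_lit 0) (nat_lit 0)) (xa (xb (xa T4.l7 T4.l0) T4.l7) T4.l0)
  (TrL.c (I.pos (nat_lit 0) (nat_lit 0)) T2.l3
  (TrL.c (I.pos (nat_lit 0) (nat_lit 0)) T4.l4
  (TrL.c (I.pos (nat_lit 0) (nat_lit 0)) T2.l4
  (TrL.c (I.pos (nat_lit 0) (nat_lit 0)) (xa T4.l8 T4.l8)
  (TrL.c (I.pos (nat_lit 0) (nat_lit 0)) T2.l5
  TrL.n)))))) (by decide +kernel)
theorem bx1_9 : BoxOK sI cl4 cl7 cl5 t4 t2 b1_9 :=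
  box_mk (TrL.c (I.pos (nat_lit 0) (nat_lit 0)) (xa (xa (xb T4.l7 T4.l7) T4.l7) T4.l7)
  (TrL.c (I.pos (nat_lit 0) (nat_lit 0)) (xa T2.l4 T2.l3)
  (TrL.c (I.pos (nat_lit 0) (nat_lit 0)) (xa T4.l8 T4.l4)
  (TrL.c (I.pos (nat_lit 0) (nat_lit 0)) (xa (xa T2.l3 T2.l4) T2.l4)
  (TrL.c (I.pos (nat_lit 0) (nat_lit 0)) T4.l8
  (TrL.c (I.pos (nat_lit 0) (nat_lit 0)) (xa T2.l5 T2.l5)
  TrL.n)))))) (by decide +kernel)
theorem bx1_10 : BoxOK sI cl4 cl7 cl5 t4 t2 b1_10 :=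
  box_mk (TrL.c (I.pos (nat_lit 0) (nat_lit 0)) (xb (xa (xb (xa (xb T4.l9 T4.l9) (xb T4.l9 T4.l9)) (xa (xb T4.l9 T4.l9) (xb T4.l9 T4.l9))) (xb (xa T4.l9 (xb T4.l9 T4.l9)) (xa (xb T4.l9 T4.l9) (xb T4.l9 T4.l9)))) (xa (xb (xa (xb T4.l9 (xa T4.l9 T4.l9)) (xb T4.l9 T4.l9)) (xa (xb (xa T4.l9 T4.l9) (xa T4.l9 T4.l9)) (xb T4.l9 (xa T4.l9 T4.l9)))) (xb (xa (xb T4.l9 T4.l9) (xb T4.l9 T4.l9)) (xa (xb T4.l9 (xa T4.l9 T4.l9)) (xb (xa T4.l9 T4.l9) (xa T4.l9 T4.l9))))))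
  (TrL.c (I.pos (nat_lit 0) (nat_lit 0)) (xb (xa (xb T2.l3 T2.l3) (xb T2.l3 T2.l3)) (xa (xb T2.l3 T2.l3) (xb T2.l3 (xa T2.l3 T2.l3))))
  (TrL.c (I.pos (nat_lit 0) (nat_lit 0)) (xb T4.l4 (xa T4.l4 T4.l4))
  (TrL.c (I.pos (nat_lit 0) (nat_lit 0)) (xb (xa T2.l4 T2.l4) (xa T2.l4 (xb T2.l4 T2.l4)))
  (TrL.c (I.pos (nat_lit 0) (nat_lit 0)) (xb T4.l10 (xa T4.l5 T4.l10))
  (TrL.c (I.pos (nat_lit 0) (nat_lit 0)) (xb (xa (xb T2.l5 T2.l5) (xb T2.l5 T2.l5)) (xa (xb T2.l5 T2.l5) (xb T2.l5 (xa T2.l5 T2.l5))))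
  TrL.n)))))) (by decide +kernel)
theorem bx1_11 : BoxOK sI cl4 cl7 cl5 t4 t2 b1_11 :=
  box_mk (TrL.c (I.pos (nat_lit 0) (nat_lit 0)) (xa (xa (xb (xa T4.l7 T4.l7) (xa (xb (xa T4.l7 T4.l7) (xa (xb T4.l7 (xa T4.l7 T4.l7)) T4.l7)) (xb T4.l7 (xa T4.l7 T4.l7)))) (xb T4.l7 (xa (xb T4.l7 T4.l7) T4.l7))) (xa (xb T4.l7 T4.l7) (xb T4.l7 (xa T4.l7 (xb T4.l7 (xa T4.l7 T4.l7))))))
  (TrL.c (I.pos (nat_lit 0) (nat_lit 0)) (xa (xa (xb T2.l4 T2.l3) T2.l3) T2.l3)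
  (TrL.c (I.pos (nat_lit 0) (nat_lit 0)) (xa (xb T4.l8 T4.l4) T4.l4)
  (TrL.c (I.pos (nat_lit 0) (nat_lit 0)) (xa (xa (xb T2.l3 T2.l4) T2.l4) T2.l4)
  (TrL.c (I.pos (nat_lit 0) (nat_lit 0)) (xa T4.l8 T4.l8)
  (TrL.c (I.pos (nat_lit 0) (nat_lit 0)) (xa (xa (xb T2.l5 T2.l5) T2.l5) T2.l5)
  TrL.n)))))) (by decide +kernel)
theorem bx1_12 : BoxOK sI cl4 cl7 cl5 t4 t2 b1_12 :=
  box_mk (TrL.c (I.pos (nat_lit 0) (nat_lit 0)) T4.l0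
  (TrL.c (I.pos (nat_lit 0) (nat_lit 0)) T2.l3
  (TrL.c (I.pos (nat_lit 0) (nat_lit 0)) T4.l4
  (TrL.c (I.pos (nat_lit 0) (nat_lit 0)) (xa (xb T2.l4 T2.l4) (xb (xa T2.l4 T2.l4) T2.l4))
  (TrL.c (I.pos (nat_lit 0) (nat_lit 0)) (xa T4.l10 T4.l10)
  (TrL.c (I.pos (nat_lit 0) (nat_lit 0)) T2.l5
  TrL.n)))))) (by decide +kernel)
theorem bx1_13 : BoxOK sI cl4 cl7 cl5 t4 t2 b1_13 :=
  box_mk (TrL.c (I.pos (nat_lit 0) (nat_lit 0)) T4.l0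
  (TrL.c (I.pos (nat_lit 0) (nat_lit 0)) T2.l3
  (TrL.c (I.pos (nat_lit 0) (nat_lit 0)) T4.l4
  (TrL.c (I.pos (nat_lit 0) (nat_lit 0)) T2.l4
  (TrL.c (I.pos (nat_lit 0) (nat_lit 0)) T4.l8
  (TrL.c (I.pos (nat_lit 0) (nat_lit 0)) T2.l5
  TrL.n)))))) (by decide +kernel)
theorem bx1_14 : BoxOK sI cl4 cl7 cl5 t4 t2 b1_14 :=
  box_mk (TrL.c (I.pos (nat_lit 0) (nat_lit 0)) (xa (xa (xa (xb T4.l7 T4.l7) T4.l7) T4.l7) T4.l7)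
  (TrL.c (I.pos (nat_lit 0) (nat_lit 0)) (xa T2.l4 T2.l3)
  (TrL.c (I.pos (nat_lit 0) (nat_lit 0)) (xa T4.l8 T4.l4)
  (TrL.c (I.pos (nat_lit 0) (nat_lit 0)) (xa T2.l3 T2.l4)
  (TrL.c (I.pos (nat_lit 0) (nat_lit 0)) T4.l8
  (TrL.c (I.pos (nat_lit 0) (nat_lit 0)) (xa T2.l5 T2.l5)
  TrL.n)))))) (by decide +kernel)
theorem bx1_15 : BoxOK sI cl4 cl7 cl5 t4 t2 b1_15 :=
  box_mk (TrL.c (I.pos (nat_lit 0) (nat_lit 0)) (xb (xa (xa T4.l9 T4.l9) (xb T4.l0 T4.l9)) (xa (xa T4.l9 T4.l9) (xa T4.l9 T4.l9)))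
  (TrL.c (I.pos (nat_lit 0) (nat_lit 0)) T2.l3
  (TrL.c (I.pos (nat_lit 0) (nat_lit 0)) T4.l4
  (TrL.c (I.pos (nat_lit 0) (nat_lit 0)) (xb (xa T2.l4 T2.l4) T2.l4)
  (TrL.c (I.pos (nat_lit 0) (nat_lit 0)) (xa T4.l10 T4.l10)
  (TrL.c (I.pos (nat_lit 0) (nat_lit 0)) T2.l5
  TrL.n)))))) (by decide +kernel)
theorem sv1 : StarV sI cl4 cl7 cl5 t4 t2 t1 :=
  (bt_n (bt_n (bt_n (bt_n (bt_b bx1_0) (bt_b bx1_1)) (bt_n (bt_b bx1_2) (bt_b bx1_3))) (bt_n (bt_n (bt_b bx1_4) (bt_b bx1_5)) (bt_n (bt_b bx1_6) (bt_b bx1_7)))) (bt_n (bt_n (bt_n (bt_b bx1_8) (bt_b bx1_9)) (bt_n (bt_b bx1_10) (bt_b bx1_11))) (bt_n (bt_n (bt_b bx1_12) (bt_b bx1_13)) (bt_n (bt_b bx1_14) (bt_b bx1_15)))))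
def S1 : StarD := StarD.mk cl4 cl7 cl5 4 2 t1
theorem bx2_0 : BoxOK sI cl5 cl4 cl7 t0 t5 b2_0 :=
  box_mk (TrL.c (I.pos (nat_lit 0) (nat_lit 0)) (xb (xa (xb (xa T0.l6 T0.l0) (xa T0.l6 T0.l6)) (xb (xa T0.l0 T0.l0) (xa T0.l0 T0.l0))) (xa (xb (xa T0.l6 (xb T0.l0 T0.l0)) (xa (xb (xa T0.l0 T0.l0) (xa T0.l0 T0.l0)) (xb (xa T0.l0 T0.l0) (xa T0.l0 T0.l0)))) (xb (xa (xb T0.l0 T0.l0) T0.l0) (xa (xb T0.l0 (xa T0.l0 T0.l0)) (xb T0.l0 (xa T0.l0 T0.l0))))))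
  (TrL.c (I.pos (nat_lit 0) (nat_lit 0)) (xb (xa T5.l1 T5.l1) (xa T5.l1 (xb T5.l1 T5.l1)))
  (TrL.c (I.pos (nat_lit 0) (nat_lit 0)) (xb T0.l1 (xa T0.l1 T0.l1))
  (TrL.c (I.pos (nat_lit 0) (nat_lit 0)) T5.l2
  (TrL.c (I.pos (nat_lit 0) (nat_lit 0)) (xb (xa (xb (xa T5.l8 T5.l3) T5.l3) (xb (xa T5.l3 (xb T5.l3 T5.l3)) (xa T5.l3 T5.l3))) (xa (xb T5.l3 (xa T5.l3 T5.l3)) (xb (xa T5.l3 (xb T5.l3 T5.l3)) (xa T5.l3 (xb T5.l3 T5.l3)))))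
  (TrL.c (I.pos (nat_lit 0) (nat_lit 0)) (xb (xa T0.l2 T0.l2) (xa T0.l2 T0.l2))
  (TrL.c (I.pos (nat_lit 0) (nat_lit 0)) T5.l4
  (TrL.c (I.pos (nat_lit 0) (nat_lit 0)) (xb T0.l3 (xa T0.l3 T0.l3))
  TrL.n)))))))) (by decide +kernel)
theorem bx2_1 : BoxOK sI cl5 cl4 cl7 t0 t5 b2_1 :=
  box_mk (TrL.c (I.pos (nat_lit 0) (nat_lit 0)) (xb T5.l1 T5.l5)
  (TrL.c (I.pos (nat_lit 0) (nat_lit 0)) T0.l4
  (TrL.c (I.pos (nat_lit 0) (nat_lit 0)) T5.l6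
  TrL.n))) (by decide +kernel)
theorem bx2_2 : BoxOK sI cl5 cl4 cl7 t0 t5 b2_2 :=
  box_mk (TrL.c (I.pos (nat_lit 0) (nat_lit 0)) (xb (xa (xb (xa T0.l5 T0.l5) (xa T0.l5 T0.l5)) T0.l6) (xa (xb (xa T0.l5 T0.l5) (xa T0.l5 T0.l6)) T0.l6))
  (TrL.c (I.pos (nat_lit 0) (nat_lit 0)) T5.l5
  (TrL.c (I.pos (nat_lit 0) (nat_lit 0)) T0.l1
  (TrL.c (I.pos (nat_lit 0) (nat_lit 0)) T5.l6
  (TrL.c (I.pos (nat_lit 0) (nat_lit 0)) T5.l7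
  (TrL.c (I.pos (nat_lit 0) (nat_lit 0)) T0.l2
  (TrL.c (I.pos (nat_lit 0) (nat_lit 0)) T5.l4
  (TrL.c (I.pos (nat_lit 0) (nat_lit 0)) T0.l3
  TrL.n)))))))) (by decide +kernel)
theorem bx2_3 : BoxOK sI cl5 cl4 cl7 t0 t5 b2_3 :=
  box_mk (TrL.c (I.pos (nat_lit 0) (nat_lit 0)) (xa (xb (xa (xb (xa (xb (xa T0.l6 T0.l6) T0.l6) (xb T0.l6 T0.l6)) (xa (xb T0.l6 T0.l6) T0.l6)) (xb (xa T0.l6 T0.l6) T0.l6)) (xa (xb T0.l6 (xa (xb T0.l6 T0.l6) T0.l6)) T0.l6)) (xb (xa (xb T0.l6 T0.l6) (xb (xa T0.l6 T0.l6) T0.l6)) T0.l6))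
  (TrL.c (I.pos (nat_lit 0) (nat_lit 0)) (xa (xb T5.l1 T5.l1) T5.l1)
  (TrL.c (I.pos (nat_lit 0) (nat_lit 0)) (xa T0.l4 T0.l1)
  (TrL.c (I.pos (nat_lit 0) (nat_lit 0)) T5.l6
  (TrL.c (I.pos (nat_lit 0) (nat_lit 0)) (xa (xb (xa T5.l8 T5.l8) T5.l8) (xb (xa T5.l8 T5.l8) T5.l8))
  (TrL.c (I.pos (nat_lit 0) (nat_lit 0)) (xa T0.l2 T0.l2)
  (TrL.c (I.pos (nat_lit 0) (nat_lit 0)) T5.l4
  (TrL.c (I.pos (nat_lit 0) (nat_lit 0)) (xa T0.l3 T0.l3)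
  TrL.n)))))))) (by decide +kernel)
theorem bx2_4 : BoxOK sI cl5 cl4 cl7 t0 t5 b2_4 :=
  box_mk (TrL.c (I.pos (nat_lit 0) (nat_lit 0)) (xb (xa (xb (xa (xb T0.l6 T0.l6) T0.l6) (xa (xb T0.l6 T0.l6) T0.l6)) (xb (xa T0.l6 (xb T0.l6 T0.l6)) (xa T0.l6 T0.l6))) (xa (xb (xa (xb (xa T0.l6 T0.l6) (xa (xc T0.l6 T0.l6) T0.l6)) (xb T0.l6 T0.l6)) (xa (xb (xa (xc T0.l6 T0.l6) T0.l6) (xa (xc T0.l6 T0.l6) T0.l6)) (xb T0.l6 (xa T0.l6 T0.l6)))) (xb (xa T0.l6 (xb T0.l6 T0.l6)) (xa (xb T0.l6 (xa T0.l6 T0.l6)) (xb T0.l6 (xa T0.l6 (xc T0.l6 T0.l6)))))))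
  (TrL.c (I.pos (nat_lit 0) (nat_lit 0)) (xb (xa T5.l1 T5.l1) (xa (xb T5.l1 T5.l1) (xb T5.l1 T5.l1)))
  (TrL.c (I.pos (nat_lit 0) (nat_lit 0)) (xb T0.l1 (xa T0.l1 T0.l1))
  (TrL.c (I.pos (nat_lit 0) (nat_lit 0)) (xb T5.l2 T5.l2)
  (TrL.c (I.pos (nat_lit 0) (nat_lit 0)) (xb (xa (xb (xa T5.l8 T5.l8) T5.l8) (xb (xa T5.l8 (xb T5.l8 T5.l8)) (xa T5.l8 (xb T5.l8 T5.l8)))) (xa (xb T5.l8 (xa T5.l8 T5.l8)) (xb (xa T5.l8 (xb T5.l3 T5.l3)) (xa T5.l3 T5.l3))))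
  (TrL.c (I.pos (nat_lit 0) (nat_lit 0)) (xb (xa T0.l2 T0.l2) (xa T0.l2 T0.l2))
  (TrL.c (I.pos (nat_lit 0) (nat_lit 0)) (xb T5.l4 T5.l4)
  (TrL.c (I.pos (nat_lit 0) (nat_lit 0)) (xb T0.l3 (xa T0.l3 T0.l3))
  TrL.n)))))))) (by decide +kernel)
theorem bx2_5 : BoxOK sI cl5 cl4 cl7 t0 t5 b2_5 :=
  box_mk (TrL.c (I.pos (nat_lit 0) (nat_lit 0)) (xa T5.l1 (xb T5.l1 T5.l1))
  (TrL.c (I.pos (nat_lit 0) (nat_lit 0)) (xa T0.l4 T0.l4)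
  (TrL.c (I.pos (nat_lit 0) (nat_lit 0)) T5.l6
  TrL.n))) (by decide +kernel)
theorem bx2_6 : BoxOK sI cl5 cl4 cl7 t0 t5 b2_6 :=
  box_mk (TrL.c (I.pos (nat_lit 0) (nat_lit 0)) (xa (xb (xa T0.l0 T0.l0) (xa T0.l0 T0.l0)) (xb (xa T0.l0 (xb T0.l9 T0.l9)) (xa T0.l0 (xb T0.l9 (xa T0.l0 T0.l0)))))
  (TrL.c (I.pos (nat_lit 0) (nat_lit 0)) (xa T5.l1 (xb T5.l1 T5.l1))
  (TrL.c (I.pos (nat_lit 0) (nat_lit 0)) (xa T0.l1 T0.l1)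
  (TrL.c (I.pos (nat_lit 0) (nat_lit 0)) T5.l2
  (TrL.c (I.pos (nat_lit 0) (nat_lit 0)) (xa (xb (xa (xb T5.l3 T5.l3) (xb T5.l0 T5.l3)) (xa T5.l3 T5.l3)) (xb (xa (xb (xa T5.l3 T5.l3) T5.l3) (xb (xa T5.l3 (xe T5.l3 T5.l3)) (xa T5.l3 (xb T5.l3 T5.l3)))) (xa T5.l3 (xb (xa T5.l3 (xb T5.l3 T5.l3)) (xa T5.l3 (xb T5.l3 T5.l3))))))
  (TrL.c (I.pos (nat_lit 0) (nat_lit 0)) (xa T0.l2 (xb T0.l2 T0.l2))
  (TrL.c (I.pos (nat_lit 0) (nat_lit 0)) T5.l4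
  (TrL.c (I.pos (nat_lit 0) (nat_lit 0)) (xa T0.l3 T0.l3)
  TrL.n)))))))) (by decide +kernel)
theorem bx2_7 : BoxOK sI cl5 cl4 cl7 t0 t5 b2_7 :=
  box_mk (TrL.c (I.pos (nat_lit 0) (nat_lit 0)) (xb (xa (xb (xa (xb T0.l5 T0.l5) T0.l5) (xa T0.l5 T0.l5)) T0.l5) (xa (xb T0.l5 (xa (xb T0.l5 T0.l5) T0.l5)) (xb T0.l5 (xa T0.l5 T0.l6))))
  (TrL.c (I.pos (nat_lit 0) (nat_lit 0)) T5.l1
  (TrL.c (I.pos (nat_lit 0) (nat_lit 0)) T0.l1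
  (TrL.c (I.pos (nat_lit 0) (nat_lit 0)) T5.l2
  (TrL.c (I.pos (nat_lit 0) (nat_lit 0)) T5.l8
  (TrL.c (I.pos (nat_lit 0) (nat_lit 0)) T0.l2
  (TrL.c (I.pos (nat_lit 0) (nat_lit 0)) T5.l4
  (TrL.c (I.pos (nat_lit 0) (nat_lit 0)) T0.l3
  TrL.n)))))))) (by decide +kernel)
theorem bx2_8 : BoxOK sI cl5 cl4 cl7 t0 t5 b2_8 :=
  box_mk (TrL.c (I.pos (nat_lit 0) (nat_lit 0)) T5.l1
  (TrL.c (I.pos (nat_lit 0) (nat_lit 0)) T0.l4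
  (TrL.c (I.pos (nat_lit 0) (nat_lit 0)) T5.l6
  TrL.n))) (by decide +kernel)
theorem bx2_9 : BoxOK sI cl5 cl4 cl7 t0 t5 b2_9 :=
  box_mk (TrL.c (I.pos (nat_lit 0) (nat_lit 0)) (xb (xa T0.l0 T0.l0) (xa (xb T0.l0 (xa T0.l0 T0.l0)) (xb T0.l0 (xa T0.l0 T0.l0))))
  (TrL.c (I.pos (nat_lit 0) (nat_lit 0)) (xb T5.l1 T5.l1)
  (TrL.c (I.pos (nat_lit 0) (nat_lit 0)) T0.l1
  (TrL.c (I.pos (nat_lit 0) (nat_lit 0)) T5.l2
  (TrL.c (I.pos (nat_lit 0) (nat_lit 0)) (xb T5.l3 (xa T5.l3 T5.l3))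
  (TrL.c (I.pos (nat_lit 0) (nat_lit 0)) T0.l2
  (TrL.c (I.pos (nat_lit 0) (nat_lit 0)) T5.l4
  (TrL.c (I.pos (nat_lit 0) (nat_lit 0)) T0.l3
  TrL.n)))))))) (by decide +kernel)
theorem bx2_10 : BoxOK sI cl5 cl4 cl7 t0 t5 b2_10 :=
  box_mk (TrL.c (I.pos (nat_lit 0) (nat_lit 0)) (xb T0.l5 T0.l5)
  (TrL.c (I.pos (nat_lit 0) (nat_lit 0)) T5.l1
  (TrL.c (I.pos (nat_lit 0) (nat_lit 0)) T0.l1
  (TrL.c (I.pos (nat_lit 0) (nat_lit 0)) T5.l2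
  (TrL.c (I.pos (nat_lit 0) (nat_lit 0)) T5.l8
  (TrL.c (I.pos (nat_lit 0) (nat_lit 0)) T0.l2
  (TrL.c (I.pos (nat_lit 0) (nat_lit 0)) T5.l4
  (TrL.c (I.pos (nat_lit 0) (nat_lit 0)) T0.l3
  TrL.n)))))))) (by decide +kernel)
theorem sv2 : StarV sI cl5 cl4 cl7 t0 t5 t2 :=
  (bt_n (bt_n (bt_n (bt_b bx2_0) (bt_b bx2_1)) (bt_n (bt_b bx2_2) (bt_n (bt_b bx2_3) (bt_b bx2_4)))) (bt_n (bt_n (bt_b bx2_5) (bt_n (bt_b bx2_6) (bt_b bx2_7))) (bt_n (bt_b bx2_8) (bt_n (bt_b bx2_9) (bt_b bx2_10)))))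
def S2 : StarD := StarD.mk cl5 cl4 cl7 0 5 t2
theorem bx3_0 : BoxOK sI cl5 cl7 cl4 t5 t0 b3_0 :=
  box_mk (TrL.c (I.pos (nat_lit 0) (nat_lit 0)) (xa (xb (xa (xb (xa T5.l13 T5.l13) (xa (xc T5.l0 T5.l0) T5.l13)) (xb T5.l13 T5.l13)) (xa (xb (xa (xc T5.l0 T5.l0) (xc T5.l0 T5.l0)) (xa (xb (xc T5.l0 T5.l0) (xc T5.l0 T5.l0)) (xc (xb T5.l0 T5.l0) (xb T5.l0 T5.l0)))) (xb (xa T5.l0 T5.l0) (xa (xc T5.l0 (xb T5.l0 T5.l0)) (xc T5.l0 (xb T5.l0 T5.l0)))))) (xb (xa (xb (xa T5.l0 T5.l0) (xa T5.l0 T5.l0)) (xb T5.l0 T5.l0)) (xa (xb (xa T5.l0 T5.l0) (xa (xc T5.l0 (xb T5.l0 T5.l0)) (xc T5.l0 (xb T5.l0 T5.l0)))) (xb (xa T5.l0 T5.l0) (xa (xc T5.l0 (xb T5.l0 T5.l0)) (xc T5.l0 (xb T5.l0 T5.l0)))))))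
  (TrL.c (I.pos (nat_lit 0) (nat_lit 0)) (xa (xb T0.l7 (xa T0.l7 T0.l7)) (xb T0.l7 (xa T0.l7 T0.l7)))
  (TrL.c (I.pos (nat_lit 0) (nat_lit 0)) (xa T5.l9 T5.l9)
  (TrL.c (I.pos (nat_lit 0) (nat_lit 0)) T0.l8
  (TrL.c (I.pos (nat_lit 0) (nat_lit 0)) (xa (xb T0.l12 (xa T0.l9 T0.l9)) (xb (xa T0.l12 (xb T0.l9 T0.l9)) (xa T0.l9 (xb T0.l9 T0.l9))))
  (TrL.c (I.pos (nat_lit 0) (nat_lit 0)) (xa T5.l10 (xb T5.l10 T5.l10))
  (TrL.c (I.pos (nat_lit 0) (nat_lit 0)) T0.l10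
  (TrL.c (I.pos (nat_lit 0) (nat_lit 0)) (xa T5.l11 T5.l11)
  TrL.n)))))))) (by decide +kernel)
theorem bx3_1 : BoxOK sI cl5 cl7 cl4 t5 t0 b3_1 :=
  box_mk (TrL.c (I.pos (nat_lit 0) (nat_lit 0)) (xa (xb (xa (xb T5.l12 T5.l12) T5.l0) (xa T5.l12 (xb T5.l0 T5.l12))) (xb T5.l0 T5.l0))
  (TrL.c (I.pos (nat_lit 0) (nat_lit 0)) (xa T0.l7 T0.l7)
  (TrL.c (I.pos (nat_lit 0) (nat_lit 0)) T5.l9
  (TrL.c (I.pos (nat_lit 0) (nat_lit 0)) T0.l8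
  (TrL.c (I.pos (nat_lit 0) (nat_lit 0)) (xa (xb (xa T0.l11 T0.l11) T0.l11) (xb (xa T0.l11 T0.l11) (xa T0.l11 T0.l12)))
  (TrL.c (I.pos (nat_lit 0) (nat_lit 0)) T5.l10
  (TrL.c (I.pos (nat_lit 0) (nat_lit 0)) T0.l10
  (TrL.c (I.pos (nat_lit 0) (nat_lit 0)) T5.l11
  TrL.n)))))))) (by decide +kernel)
theorem bx3_2 : BoxOK sI cl5 cl7 cl4 t5 t0 b3_2 :=
  box_mk (TrL.c (I.pos (nat_lit 0) (nat_lit 0)) (xa (xa (xb T5.l12 T5.l12) T5.l12) (xa T5.l12 T5.l12))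
  (TrL.c (I.pos (nat_lit 0) (nat_lit 0)) (xa T0.l11 T0.l7)
  (TrL.c (I.pos (nat_lit 0) (nat_lit 0)) T5.l9
  (TrL.c (I.pos (nat_lit 0) (nat_lit 0)) T0.l8
  (TrL.c (I.pos (nat_lit 0) (nat_lit 0)) (xa T0.l7 T0.l11)
  (TrL.c (I.pos (nat_lit 0) (nat_lit 0)) T5.l10
  (TrL.c (I.pos (nat_lit 0) (nat_lit 0)) T0.l10
  (TrL.c (I.pos (nat_lit 0) (nat_lit 0)) T5.l11
  TrL.n)))))))) (by decide +kernel)
theorem bx3_3 : BoxOK sI cl5 cl7 cl4 t5 t0 b3_3 :=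
  box_mk (TrL.c (I.pos (nat_lit 0) (nat_lit 0)) (xb (xa (xb (xa T5.l13 T5.l13) (xa (xb T5.l13 T5.l13) T5.l13)) (xb (xa T5.l13 T5.l13) (xa T5.l13 (xb T5.l13 T5.l13)))) (xa (xb (xa (xb T5.l13 T5.l13) (xb T5.l13 T5.l13)) (xa (xb (xa T5.l13 T5.l13) (xa T5.l13 T5.l13)) (xb T5.l13 (xa T5.l13 T5.l13)))) (xb (xa T5.l13 (xb T5.l13 T5.l13)) (xa (xb T5.l13 (xa T5.l13 T5.l13)) (xb T5.l13 (xa T5.l13 T5.l13))))))
  (TrL.c (I.pos (nat_lit 0) (nat_lit 0)) (xb (xa T0.l7 T0.l7) (xa T0.l7 T0.l7))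
  (TrL.c (I.pos (nat_lit 0) (nat_lit 0)) T5.l9
  (TrL.c (I.pos (nat_lit 0) (nat_lit 0)) T0.l8
  (TrL.c (I.pos (nat_lit 0) (nat_lit 0)) (xb (xa T0.l12 (xb T0.l12 T0.l12)) (xa T0.l12 T0.l12))
  (TrL.c (I.pos (nat_lit 0) (nat_lit 0)) (xb T5.l10 T5.l10)
  (TrL.c (I.pos (nat_lit 0) (nat_lit 0)) T0.l10
  (TrL.c (I.pos (nat_lit 0) (nat_lit 0)) T5.l11
  TrL.n)))))))) (by decide +kernel)
theorem bx3_4 : BoxOK sI cl5 cl7 cl4 t5 t0 b3_4 :=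
  box_mk (TrL.c (I.pos (nat_lit 0) (nat_lit 0)) (xa (xa (xb (xa T5.l12 T5.l12) (xa (xb (xa T5.l12 T5.l12) (xa (xb T5.l12 T5.l12) (xb T5.l12 T5.l12))) (xb T5.l12 (xa T5.l12 T5.l12)))) (xb T5.l12 (xa (xb T5.l12 (xa T5.l12 T5.l12)) (xb T5.l12 T5.l12)))) (xa (xb T5.l12 (xa T5.l12 T5.l12)) (xb T5.l12 (xa (xb T5.l12 T5.l12) (xb T5.l12 (xa T5.l12 T5.l12))))))
  (TrL.c (I.pos (nat_lit 0) (nat_lit 0)) (xa (xa (xb T0.l7 T0.l7) T0.l7) T0.l7)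
  (TrL.c (I.pos (nat_lit 0) (nat_lit 0)) (xa T5.l9 T5.l9)
  (TrL.c (I.pos (nat_lit 0) (nat_lit 0)) T0.l8
  (TrL.c (I.pos (nat_lit 0) (nat_lit 0)) (xa (xa (xb T0.l11 T0.l11) (xb T0.l11 T0.l11)) (xa (xb T0.l11 T0.l11) (xb T0.l11 T0.l11)))
  (TrL.c (I.pos (nat_lit 0) (nat_lit 0)) (xa T5.l10 T5.l10)
  (TrL.c (I.pos (nat_lit 0) (nat_lit 0)) T0.l10
  (TrL.c (I.pos (nat_lit 0) (nat_lit 0)) (xa T5.l11 T5.l11)
  TrL.n)))))))) (by decide +kernel)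
theorem bx3_5 : BoxOK sI cl5 cl7 cl4 t5 t0 b3_5 :=
  box_mk (TrL.c (I.pos (nat_lit 0) (nat_lit 0)) (xb (xa (xb (xa T5.l13 T5.l13) (xa T5.l13 T5.l13)) (xb (xa T5.l13 T5.l13) (xa T5.l13 T5.l13))) (xa (xb (xa T5.l13 T5.l13) (xa (xb T5.l13 T5.l13) T5.l13)) (xb (xa T5.l13 T5.l13) (xa T5.l13 T5.l13))))
  (TrL.c (I.pos (nat_lit 0) (nat_lit 0)) (xb (xa T0.l7 T0.l7) (xa T0.l7 T0.l7))
  (TrL.c (I.pos (nat_lit 0) (nat_lit 0)) T5.l9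
  (TrL.c (I.pos (nat_lit 0) (nat_lit 0)) T0.l8
  (TrL.c (I.pos (nat_lit 0) (nat_lit 0)) (xb (xa (xb T0.l12 T0.l12) (xb T0.l12 T0.l12)) (xa T0.l12 T0.l12))
  (TrL.c (I.pos (nat_lit 0) (nat_lit 0)) (xb T5.l10 T5.l10)
  (TrL.c (I.pos (nat_lit 0) (nat_lit 0)) T0.l10
  (TrL.c (I.pos (nat_lit 0) (nat_lit 0)) T5.l11
  TrL.n)))))))) (by decide +kernel)
theorem bx3_6 : BoxOK sI cl5 cl7 cl4 t5 t0 b3_6 :=
  box_mk (TrL.c (I.pos (nat_lit 0) (nat_lit 0)) (xa (xa T5.l12 T5.l12) T5.l12)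
  (TrL.c (I.pos (nat_lit 0) (nat_lit 0)) (xa T0.l11 T0.l7)
  (TrL.c (I.pos (nat_lit 0) (nat_lit 0)) T5.l9
  (TrL.c (I.pos (nat_lit 0) (nat_lit 0)) T0.l8
  (TrL.c (I.pos (nat_lit 0) (nat_lit 0)) (xa T0.l7 T0.l11)
  (TrL.c (I.pos (nat_lit 0) (nat_lit 0)) T5.l10
  (TrL.c (I.pos (nat_lit 0) (nat_lit 0)) T0.l10
  (TrL.c (I.pos (nat_lit 0) (nat_lit 0)) T5.l11
  TrL.n)))))))) (by decide +kernel)
theorem bx3_7 : BoxOK sI cl5 cl7 cl4 t5 t0 b3_7 :=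
  box_mk (TrL.c (I.pos (nat_lit 0) (nat_lit 0)) T5.l0
  (TrL.c (I.pos (nat_lit 0) (nat_lit 0)) T0.l7
  (TrL.c (I.pos (nat_lit 0) (nat_lit 0)) T5.l9
  (TrL.c (I.pos (nat_lit 0) (nat_lit 0)) T0.l8
  (TrL.c (I.pos (nat_lit 0) (nat_lit 0)) (xb T0.l11 T0.l12)
  (TrL.c (I.pos (nat_lit 0) (nat_lit 0)) T5.l10
  (TrL.c (I.pos (nat_lit 0) (nat_lit 0)) T0.l10
  (TrL.c (I.pos (nat_lit 0) (nat_lit 0)) T5.l11
  TrL.n)))))))) (by decide +kernel)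
theorem bx3_8 : BoxOK sI cl5 cl7 cl4 t5 t0 b3_8 :=
  box_mk (TrL.c (I.pos (nat_lit 0) (nat_lit 0)) T5.l0
  (TrL.c (I.pos (nat_lit 0) (nat_lit 0)) T0.l7
  (TrL.c (I.pos (nat_lit 0) (nat_lit 0)) T5.l9
  (TrL.c (I.pos (nat_lit 0) (nat_lit 0)) T0.l8
  (TrL.c (I.pos (nat_lit 0) (nat_lit 0)) T0.l12
  (TrL.c (I.pos (nat_lit 0) (nat_lit 0)) T5.l10
  (TrL.c (I.pos (nat_lit 0) (nat_lit 0)) T0.l10
  (TrL.c (I.pos (nat_lit 0) (nat_lit 0)) T5.l11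
  TrL.n)))))))) (by decide +kernel)
theorem bx3_9 : BoxOK sI cl5 cl7 cl4 t5 t0 b3_9 :=
  box_mk (TrL.c (I.pos (nat_lit 0) (nat_lit 0)) (xa T5.l12 (xa T5.l12 (xa T5.l12 T5.l12)))
  (TrL.c (I.pos (nat_lit 0) (nat_lit 0)) (xa T0.l7 T0.l7)
  (TrL.c (I.pos (nat_lit 0) (nat_lit 0)) T5.l9
  (TrL.c (I.pos (nat_lit 0) (nat_lit 0)) T0.l8
  (TrL.c (I.pos (nat_lit 0) (nat_lit 0)) (xa T0.l11 T0.l11)
  (TrL.c (I.pos (nat_lit 0) (nat_lit 0)) T5.l10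
  (TrL.c (I.pos (nat_lit 0) (nat_lit 0)) T0.l10
  (TrL.c (I.pos (nat_lit 0) (nat_lit 0)) T5.l11
  TrL.n)))))))) (by decide +kernel)
theorem bx3_10 : BoxOK sI cl5 cl7 cl4 t5 t0 b3_10 :=
  box_mk (TrL.c (I.pos (nat_lit 0) (nat_lit 0)) (xb (xa (xb T5.l12 T5.l12) (xb T5.l0 T5.l0)) (xa T5.l12 (xb (xa T5.l12 T5.l0) (xa T5.l12 T5.l12))))
  (TrL.c (I.pos (nat_lit 0) (nat_lit 0)) (xb T0.l7 T0.l7)
  (TrL.c (I.pos (nat_lit 0) (nat_lit 0)) T5.l9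
  (TrL.c (I.pos (nat_lit 0) (nat_lit 0)) T0.l8
  (TrL.c (I.pos (nat_lit 0) (nat_lit 0)) (xb (xa T0.l11 T0.l11) (xa T0.l11 T0.l11))
  (TrL.c (I.pos (nat_lit 0) (nat_lit 0)) T5.l10
  (TrL.c (I.pos (nat_lit 0) (nat_lit 0)) T0.l10
  (TrL.c (I.pos (nat_lit 0) (nat_lit 0)) T5.l11
  TrL.n)))))))) (by decide +kernel)
theorem bx3_11 : BoxOK sI cl5 cl7 cl4 t5 t0 b3_11 :=
  box_mk (TrL.c (I.pos (nat_lit 0) (nat_lit 0)) (xa (xa (xb (xa (xb (xa T5.l12 T5.l12) T5.l12) T5.l12) T5.l12) T5.l12) T5.l12)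
  (TrL.c (I.pos (nat_lit 0) (nat_lit 0)) (xa T0.l11 (xa T0.l7 T0.l7))
  (TrL.c (I.pos (nat_lit 0) (nat_lit 0)) T5.l9
  (TrL.c (I.pos (nat_lit 0) (nat_lit 0)) T0.l8
  (TrL.c (I.pos (nat_lit 0) (nat_lit 0)) (xa T0.l7 T0.l11)
  (TrL.c (I.pos (nat_lit 0) (nat_lit 0)) T5.l10
  (TrL.c (I.pos (nat_lit 0) (nat_lit 0)) T0.l10
  (TrL.c (I.pos (nat_lit 0) (nat_lit 0)) T5.l11
  TrL.n)))))))) (by decide +kernel)
theorem bx3_12 : BoxOK sI cl5 cl7 cl4 t5 t0 b3_12 :=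
  box_mk (TrL.c (I.pos (nat_lit 0) (nat_lit 0)) (xa (xb (xa T5.l0 T5.l0) (xa T5.l0 T5.l0)) (xa (xb T5.l0 (xb T5.l0 T5.l0)) (xb (xa T5.l0 T5.l3) (xa (xb T5.l0 T5.l0) T5.l3))))
  (TrL.c (I.pos (nat_lit 0) (nat_lit 0)) (xa (xb T0.l7 T0.l7) (xb (xa T0.l7 T0.l2) (xa T0.l7 T0.l2)))
  (TrL.c (I.pos (nat_lit 0) (nat_lit 0)) (xa T5.l9 T5.l9)
  (TrL.c (I.pos (nat_lit 0) (nat_lit 0)) T0.l8
  (TrL.c (I.pos (nat_lit 0) (nat_lit 0)) (xa (xb (xa T0.l9 T0.l9) T0.l9) (xb (xa T0.l9 (xb (xa T0.l9 T0.l9) T0.l9)) (xa T0.l9 (xb T0.l9 T0.l9))))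
  (TrL.c (I.pos (nat_lit 0) (nat_lit 0)) (xa T5.l10 T5.l1)
  (TrL.c (I.pos (nat_lit 0) (nat_lit 0)) T0.l10
  (TrL.c (I.pos (nat_lit 0) (nat_lit 0)) (xa T5.l11 T5.l11)
  TrL.n)))))))) (by decide +kernel)
theorem bx3_13 : BoxOK sI cl5 cl7 cl4 t5 t0 b3_13 :=
  box_mk (TrL.c (I.pos (nat_lit 0) (nat_lit 0)) T5.l12
  (TrL.c (I.pos (nat_lit 0) (nat_lit 0)) T0.l7
  (TrL.c (I.pos (nat_lit 0) (nat_lit 0)) T5.l9
  (TrL.c (I.pos (nat_lit 0) (nat_lit 0)) T0.l8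
  (TrL.c (I.pos (nat_lit 0) (nat_lit 0)) T0.l11
  (TrL.c (I.pos (nat_lit 0) (nat_lit 0)) T5.l10
  (TrL.c (I.pos (nat_lit 0) (nat_lit 0)) T0.l10
  (TrL.c (I.pos (nat_lit 0) (nat_lit 0)) T5.l11
  TrL.n)))))))) (by decide +kernel)
theorem bx3_14 : BoxOK sI cl5 cl7 cl4 t5 t0 b3_14 :=
  box_mk (TrL.c (I.pos (nat_lit 0) (nat_lit 0)) T5.l12
  (TrL.c (I.pos (nat_lit 0) (nat_lit 0)) T0.l7
  (TrL.c (I.pos (nat_lit 0) (nat_lit 0)) T5.l9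
  (TrL.c (I.pos (nat_lit 0) (nat_lit 0)) T0.l8
  (TrL.c (I.pos (nat_lit 0) (nat_lit 0)) T0.l11
  (TrL.c (I.pos (nat_lit 0) (nat_lit 0)) T5.l10
  (TrL.c (I.pos (nat_lit 0) (nat_lit 0)) T0.l10
  (TrL.c (I.pos (nat_lit 0) (nat_lit 0)) T5.l11
  TrL.n)))))))) (by decide +kernel)
theorem bx3_15 : BoxOK sI cl5 cl7 cl4 t5 t0 b3_15 :=
  box_mk (TrL.c (I.pos (nat_lit 0) (nat_lit 0)) (xa (xb (xa T5.l0 T5.l0) (xa (xb T5.l0 T5.l0) (xb T5.l0 T5.l0))) (xb (xa T5.l0 T5.l0) (xa (xb T5.l0 T5.l0) (xb T5.l0 T5.l0))))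
  (TrL.c (I.pos (nat_lit 0) (nat_lit 0)) (xa T0.l7 (xb T0.l7 T0.l7))
  (TrL.c (I.pos (nat_lit 0) (nat_lit 0)) T5.l9
  (TrL.c (I.pos (nat_lit 0) (nat_lit 0)) T0.l8
  (TrL.c (I.pos (nat_lit 0) (nat_lit 0)) (xa (xb T0.l9 T0.l9) (xb T0.l9 T0.l9))
  (TrL.c (I.pos (nat_lit 0) (nat_lit 0)) T5.l10
  (TrL.c (I.pos (nat_lit 0) (nat_lit 0)) T0.l10
  (TrL.c (I.pos (nat_lit 0) (nat_lit 0)) T5.l11
  TrL.n)))))))) (by decide +kernel)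
theorem sv3 : StarV sI cl5 cl7 cl4 t5 t0 t3 :=
  (bt_n (bt_n (bt_n (bt_n (bt_b bx3_0) (bt_b bx3_1)) (bt_n (bt_b bx3_2) (bt_b bx3_3))) (bt_n (bt_n (bt_b bx3_4) (bt_b bx3_5)) (bt_n (bt_b bx3_6) (bt_b bx3_7)))) (bt_n (bt_n (bt_n (bt_b bx3_8) (bt_b bx3_9)) (bt_n (bt_b bx3_10) (bt_b bx3_11))) (bt_n (bt_n (bt_b bx3_12) (bt_b bx3_13)) (bt_n (bt_b bx3_14) (bt_b bx3_15)))))
def S3 : StarD := StarD.mk cl5 cl7 cl4 5 0 t3
theorem c4_0_0 : chkTag sI cl7 cl4 cl5 t1 b4_0 (tg true true false RT.r2) (I.pos (nat_lit 0) (nat_lit 0))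
  (xa (xb (xa (xb T1.l4 T1.l4) (xb T1.l4 T1.l4)) (xa (xb (xa T1.l4 T1.l4) (xa (xb (xc T1.l4 T1.l4) (xk (xc T1.l4 T1.l0) (xc T1.l4 T1.l0))) (xb (xc T1.l4 T1.l0) (xk (xc T1.l0 T1.l0) T1.l0)))) (xb (xa T1.l4 T1.l4) (xa (xb (xc T1.l0 T1.l0) (xk T1.l0 T1.l0)) (xb (xk T1.l0 T1.l0) (xk T1.l0 T1.l0)))))) (xb (xa (xb T1.l0 (xa T1.l0 T1.l0)) (xb T1.l0 (xa T1.l0 T1.l0))) (xa (xb (xa (xb T1.l0 T1.l0) (xb T1.l0 T1.l0)) (xa (xb T1.l0 (xk T1.l0 T1.l0)) (xb T1.l0 (xk T1.l0 T1.l0)))) (xb (xa T1.l0 T1.l0) (xa (xb T1.l0 (xk T1.l0 T1.l0)) (xb T1.l0 (xk T1.l0 T1.l0))))))) = true := by decide +kernel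
theorem c4_0_1 : chkTag sI cl7 cl4 cl5 t3 b4_0 (tg true false false RT.r3) (I.pos (nat_lit 0) (nat_lit 0))
  (xa (xb (xk T3.l1 T3.l1) (xk (xa T3.l1 T3.l1) (xb T3.l1 (xa T3.l1 T3.l1)))) (xb (xk (xa T3.l1 T3.l1) T3.l1) (xk (xa (xb T3.l1 T3.l1) (xb T3.l1 T3.l1)) (xa T3.l1 (xb T3.l1 T3.l1))))) = true := by decide +kernel
theorem c4_0_2 : chkTag sI cl7 cl4 cl5 t1 b4_0 (Tag.mk true true false RT.tl RT.r4) (I.pos (nat_lit 0) (nat_lit 111196574))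
  (xR (xR T1.l1 T1.l1) (xR T1.l1 (xR T1.l1 (xa T1.l1 T1.l1)))) = true := by decide +kernel
theorem c4_0_3 : chkTag sI cl7 cl4 cl5 t3 b4_0 (Tag.mk true false false RT.tl RT.r5) (I.pos (nat_lit 0) (nat_lit 77433728))
  (xR (xR T3.l2 T3.l2) (xR T3.l2 (xR T3.l2 T3.l2))) = true := by decide +kernel
theorem c4_0_4 : chkTag sI cl7 cl4 cl5 t3 b4_0 (tg false false false RT.r3) (I.pos (nat_lit 0) (nat_lit 0))
  (xb (xa (xk (xb T3.l5 T3.l3) (xb T3.l5 T3.l3)) (xk (xb (xa T3.l3 (xk T3.l3 T3.l3)) (xa T3.l3 (xk T3.l3 T3.l3))) (xb (xa T3.l3 (xk T3.l3 T3.l3)) (xa T3.l3 (xk T3.l3 T3.l3))))) (xa (xk (xa T3.l3 T3.l3) (xa T3.l3 T3.l3)) (xk (xa (xb T3.l3 T3.l3) (xb (xk T3.l3 T3.l3) (xk T3.l3 T3.l3))) (xb (xa T3.l3 (xk T3.l3 T3.l3)) (xa T3.l3 (xk T3.l3 T3.l3)))))) = true := by decide +kernel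
theorem c4_0_5 : chkTag sI cl7 cl4 cl5 t1 b4_0 (tg false true false RT.r4) (I.pos (nat_lit 0) (nat_lit 0))
  (xb (xa T1.l2 T1.l2) (xk T1.l2 T1.l2)) = true := by decide +kernel
theorem c4_0_6 : chkTag sI cl7 cl4 cl5 t3 b4_0 (Tag.mk false false false RT.tl RT.r5) (I.mix (nat_lit 29511666) (nat_lit 77433728))
  (xR T3.l4 (xR T3.l4 (xR T3.l4 T3.l4))) = true := by decide +kernel
theorem c4_0_7 : chkTag sI cl7 cl4 cl5 t1 b4_0 (Tag.mk false true false RT.tl RT.r6) (I.mix (nat_lit 29511666) (nat_lit 46070178))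
  (xR T1.l3 (xR T1.l3 T1.l3)) = true := by decide +kernel
theorem bx4_0 : BoxOK sI cl7 cl4 cl5 t1 t3 b4_0 :=
  box_mk' [(tg true true false RT.r2), (tg true false false RT.r3), (Tag.mk true true false RT.tl RT.r4), (Tag.mk true false false RT.tl RT.r5), (tg false false false RT.r3), (tg false true false RT.r4), (Tag.mk false false false RT.tl RT.r5), (Tag.mk false true false RT.tl RT.r6)] rfl (allL_c (ex_mk c4_0_0) (allL_c (ex_mk c4_0_1) (allL_c (ex_mk c4_0_2) (allL_c (ex_mk c4_0_3) (allL_c (ex_mk c4_0_4) (allL_c (ex_mk c4_0_5) (allL_c (ex_mk c4_0_6) (allL_c (ex_mk c4_0_7) allL_n))))))))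
theorem bx4_1 : BoxOK sI cl7 cl4 cl5 t1 t3 b4_1 :=
  box_mk (TrL.c (I.pos (nat_lit 0) (nat_lit 0)) (xa (xb (xb (xa (xb T1.l4 T1.l4) T1.l4) (xa T1.l4 T1.l4)) (xa (xb T1.l4 (xa T1.l4 T1.l4)) T1.l4)) (xb (xa T1.l4 T1.l4) T1.l4))
  (TrL.c (I.pos (nat_lit 0) (nat_lit 0)) (xa (xb T3.l1 T3.l1) (xb T3.l1 T3.l1))
  (TrL.c (I.pos (nat_lit 0) (nat_lit 111196574)) (xR (xR T1.l1 T1.l1) (xR T1.l1 (xR T1.l1 T1.l1)))
  (TrL.c (I.pos (nat_lit 0) (nat_lit 77433728)) (xR T3.l4 (xR T3.l2 T3.l2))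
  (TrL.c (I.pos (nat_lit 0) (nat_lit 0)) (xa (xb (xk T3.l5 T3.l5) T3.l5) (xb (xk (xa T3.l5 T3.l5) (xa T3.l5 T3.l5)) (xk T3.l5 T3.l5)))
  (TrL.c (I.pos (nat_lit 0) (nat_lit 0)) (xa T1.l2 T1.l2)
  (TrL.c (I.mix (nat_lit 29511666) (nat_lit 77433728)) (xR T3.l4 (xR T3.l4 (xR T3.l4 T3.l4)))
  (TrL.c (I.mix (nat_lit 29511666) (nat_lit 46070178)) (xR T1.l3 (xR T1.l3 T1.l3))
  TrL.n)))))))) (by decide +kernel)
theorem bx4_2 : BoxOK sI cl7 cl4 cl5 t1 t3 b4_2 :=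
  box_mk (TrL.c (I.pos (nat_lit 0) (nat_lit 0)) (xb (xa (xb (xa T1.l4 T1.l4) (xa T1.l4 T1.l4)) (xb (xa T1.l4 T1.l4) (xa T1.l4 T1.l4))) (xa (xb (xa (xb T1.l4 (xa T1.l4 T1.l4)) (xb T1.l4 T1.l4)) (xa (xb (xa (xc T1.l4 T1.l4) T1.l4) (xa (xc T1.l4 T1.l4) (xc T1.l4 T1.l4))) (xb (xa T1.l4 T1.l4) (xa (xc T1.l4 T1.l4) (xk T1.l4 T1.l4))))) (xb (xa T1.l4 (xb T1.l4 T1.l4)) (xa (xb T1.l4 (xa (xk T1.l4 T1.l4) (xk T1.l4 T1.l4))) (xb T1.l4 (xa (xk T1.l4 T1.l4) (xk T1.l4 T1.l4)))))))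
  (TrL.c (I.pos (nat_lit 0) (nat_lit 0)) (xb (xa (xk T3.l1 T3.l1) (xk T3.l1 T3.l1)) (xa (xk (xb T3.l1 T3.l1) (xb T3.l1 T3.l1)) (xk (xb T3.l1 T3.l1) (xb T3.l1 T3.l1))))
  (TrL.c (I.pos (nat_lit 0) (nat_lit 111196574)) (xR T1.l1 (xR T1.l1 (xb T1.l1 (xR T1.l1 T1.l1))))
  (TrL.c (I.pos (nat_lit 0) (nat_lit 77433728)) (xR T3.l2 (xR T3.l2 T3.l2))
  (TrL.c (I.pos (nat_lit 0) (nat_lit 0)) (xb (xa (xk (xb T3.l5 T3.l5) T3.l5) (xk (xb (xa T3.l5 T3.l5) (xa T3.l5 T3.l5)) (xb (xa T3.l5 T3.l5) (xa T3.l5 T3.l5)))) (xa (xk (xb T3.l5 T3.l5) (xb T3.l5 T3.l5)) (xk (xb (xa T3.l5 T3.l3) T3.l3) (xb (xa T3.l5 T3.l3) T3.l3))))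
  (TrL.c (I.pos (nat_lit 0) (nat_lit 0)) (xb T1.l2 T1.l2)
  (TrL.c (I.mix (nat_lit 29511666) (nat_lit 77433728)) (xR T3.l4 (xR T3.l4 T3.l4))
  (TrL.c (I.mix (nat_lit 29511666) (nat_lit 46070178)) (xR T1.l3 T1.l3)
  TrL.n)))))))) (by decide +kernel)
theorem bx4_3 : BoxOK sI cl7 cl4 cl5 t1 t3 b4_3 :=
  box_mk (TrL.c (I.pos (nat_lit 0) (nat_lit 0)) (xa (xb T3.l1 T3.l1) (xb T3.l1 T3.l1))
  (TrL.c (I.pos (nat_lit 0) (nat_lit 0)) T1.l1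
  (TrL.c (I.mix (nat_lit 29511666) (nat_lit 77433728)) (xR (xR T3.l6 T3.l6) (xR T3.l4 (xR T3.l2 T3.l2)))
  (TrL.c (I.mix (nat_lit 29511666) (nat_lit 46070178)) (xR (xR T1.l5 T1.l5) T1.l1)
  TrL.n)))) (by decide +kernel)
theorem bx4_4 : BoxOK sI cl7 cl4 cl5 t1 t3 b4_4 :=
  box_mk (TrL.c (I.pos (nat_lit 0) (nat_lit 0)) (xb (xa T3.l1 T3.l1) (xa T3.l1 T3.l7))
  (TrL.c (I.pos (nat_lit 0) (nat_lit 0)) T1.l6
  (TrL.c (I.mix (nat_lit 29511666) (nat_lit 77433728)) (xR (xR T3.l6 T3.l6) (xR T3.l4 T3.l4))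
  (TrL.c (I.mix (nat_lit 29511666) (nat_lit 46070178)) (xR (xR T1.l5 T1.l5) T1.l11)
  TrL.n)))) (by decide +kernel)
theorem bx4_5 : BoxOK sI cl7 cl4 cl5 t1 t3 b4_5 :=
  box_mk (TrL.c (I.pos (nat_lit 0) (nat_lit 0)) (xb (xa (xb T1.l7 T1.l7) T1.l4) (xa (xb T1.l4 T1.l4) T1.l4))
  (TrL.c (I.pos (nat_lit 0) (nat_lit 0)) T3.l1
  (TrL.c (I.pos (nat_lit 0) (nat_lit 111196574)) (xR T1.l1 (xR T1.l1 (xR T1.l1 T1.l1)))
  (TrL.c (I.pos (nat_lit 0) (nat_lit 77433728)) (xR T3.l4 T3.l4)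
  (TrL.c (I.pos (nat_lit 0) (nat_lit 0)) (xk T3.l5 T3.l5)
  (TrL.c (I.pos (nat_lit 0) (nat_lit 0)) T1.l2
  (TrL.c (I.mix (nat_lit 29511666) (nat_lit 77433728)) T3.l4
  (TrL.c (I.mix (nat_lit 29511666) (nat_lit 46070178)) T1.l3
  TrL.n)))))))) (by decide +kernel)
theorem bx4_6 : BoxOK sI cl7 cl4 cl5 t1 t3 b4_6 :=
  box_mk (TrL.c (I.pos (nat_lit 0) (nat_lit 0)) T1.l4
  (TrL.c (I.pos (nat_lit 0) (nat_lit 0)) T3.l1
  (TrL.c (I.pos (nat_lit 0) (nat_lit 111196574)) (xR T1.l1 T1.l1)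
  (TrL.c (I.pos (nat_lit 0) (nat_lit 77433728)) (xR T3.l2 T3.l2)
  (TrL.c (I.pos (nat_lit 0) (nat_lit 0)) T3.l5
  (TrL.c (I.pos (nat_lit 0) (nat_lit 0)) T1.l2
  (TrL.c (I.mix (nat_lit 29511666) (nat_lit 77433728)) T3.l4
  (TrL.c (I.mix (nat_lit 29511666) (nat_lit 46070178)) T1.l3
  TrL.n)))))))) (by decide +kernel)
theorem c4_7_0 : chkTag sI cl7 cl4 cl5 t1 b4_7 (tg true true false RT.r2) (I.pos (nat_lit 0) (nat_lit 0))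
  (xa (xb (xa (xb T1.l0 T1.l0) (xb T1.l0 T1.l0)) (xa (xb (xc T1.l0 T1.l0) (xc (xa T1.l0 T1.l0) T1.l0)) (xb (xc T1.l0 T1.l0) (xc (xa T1.l0 T1.l0) T1.l0)))) (xb (xa (xb T1.l0 T1.l0) (xb (xa T1.l0 T1.l0) (xa T1.l0 T1.l0))) (xa (xb (xa T1.l0 T1.l0) (xc (xa T1.l0 T1.l0) T1.l0)) (xb (xa T1.l0 T1.l0) (xa (xc T1.l0 T1.l0) (xc T1.l0 (xk T1.l0 T1.l0))))))) = true := by decide +kernel
theorem c4_7_1 : chkTag sI cl7 cl4 cl5 t3 b4_7 (tg true false false RT.r3) (I.pos (nat_lit 0) (nat_lit 0))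
  (xa (xb (xk T3.l1 T3.l1) (xk (xa T3.l1 T3.l1) (xa T3.l1 T3.l1))) (xb (xk T3.l10 T3.l10) (xk (xa T3.l1 (xb T3.l1 T3.l1)) (xa T3.l1 T3.l10)))) = true := by decide +kernel
theorem c4_7_2 : chkTag sI cl7 cl4 cl5 t1 b4_7 (Tag.mk true true false RT.tl RT.r4) (I.pos (nat_lit 0) (nat_lit 111196574))
  (xR (xR T1.l1 T1.l1) (xR T1.l1 (xR T1.l11 (xa T1.l1 T1.l11)))) = true := by decide +kernel
theorem c4_7_3 : chkTag sI cl7 cl4 cl5 t3 b4_7 (Tag.mk true false false RT.tl RT.r5) (I.pos (nat_lit 0) (nat_lit 77433728))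
  (xR (xR T3.l2 T3.l2) (xR T3.l2 (xR T3.l2 T3.l2))) = true := by decide +kernel
theorem c4_7_4 : chkTag sI cl7 cl4 cl5 t3 b4_7 (tg false false false RT.r3) (I.pos (nat_lit 0) (nat_lit 0))
  (xa (xb (xk (xa (xb (xk T3.l3 T3.l3) T3.l3) (xb (xk (xa T3.l3 T3.l3) (xa T3.l3 T3.l3)) T3.l3)) (xa (xb (xk T3.l3 T3.l3) T3.l3) (xb (xk (xa T3.l3 T3.l3) (xa T3.l3 T3.l3)) T3.l3))) (xk (xa T3.l3 (xb T3.l3 T3.l3)) (xa T3.l3 T3.l3))) (xb (xk (xa (xb (xk (xa (xb T3.l3 T3.l3) (xb T3.l3 T3.l3)) (xa (xb T3.l3 T3.l3) (xb T3.l3 T3.l3))) (xk T3.l3 T3.l3)) (xb (xk (xa (xb T3.l3 T3.l3) (xb T3.l3 T3.l3)) (xa (xb T3.l3 T3.l3) (xb T3.l3 T3.l3))) (xk (xa T3.l3 (xb T3.l3 T3.l3)) (xa T3.l3 (xb T3.l3 T3.l3))))) (xa (xb (xk (xa T3.l3 (xb T3.l3 T3.l3)) (xa T3.l3 (xb T3.l3 T3.l3))) (xk T3.l3 T3.l3)) (xb (xk (xa (xb T3.l3 T3.l3) (xb T3.l3 T3.l3)) (xa (xb T3.l3 T3.l3)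 (xb T3.l3 T3.l3))) (xk (xa T3.l3 (xb T3.l3 T3.l3)) (xa T3.l3 T3.l3))))) (xk (xa (xb T3.l3 (xk T3.l3 T3.l3)) (xb (xk (xa T3.l3 (xb T3.l3 T3.l3)) (xa T3.l3 (xb T3.l3 T3.l3))) (xk (xa T3.l3 (xb T3.l3 T3.l3)) (xa T3.l3 (xb T3.l3 T3.l3))))) (xa (xb T3.l3 (xk T3.l3 T3.l3)) (xb (xk (xa T3.l3 (xb T3.l3 T3.l3)) (xa T3.l3 T3.l3)) (xk (xa T3.l3 (xb T3.l3 T3.l3)) (xa T3.l3 (xb T3.l3 T3.l3)))))))) = true := by decide +kernel
theorem c4_7_5 : chkTag sI cl7 cl4 cl5 t1 b4_7 (tg false true false RT.r4) (I.pos (nat_lit 0) (nat_lit 0))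
  (xa (xb (xk T1.l2 T1.l2) T1.l2) (xb (xk (xa T1.l2 T1.l2) (xa T1.l2 T1.l2)) (xk (xa T1.l2 T1.l2) (xa T1.l2 T1.l2)))) = true := by decide +kernel
theorem c4_7_6 : chkTag sI cl7 cl4 cl5 t3 b4_7 (Tag.mk false false false RT.tl RT.r5) (I.mix (nat_lit 29511666) (nat_lit 77433728))
  (xR (xR T3.l4 T3.l4) (xR T3.l4 (xR (xb T3.l4 T3.l4) (xb (xk (xa T3.l4 T3.l4) T3.l4) (xk (xa T3.l4 T3.l4) T3.l4))))) = true := by decide +kernel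
theorem c4_7_7 : chkTag sI cl7 cl4 cl5 t1 b4_7 (Tag.mk false true false RT.tl RT.r6) (I.mix (nat_lit 29511666) (nat_lit 46070178))
  (xR (xR T1.l3 T1.l3) (xR T1.l3 (xb T1.l9 T1.l3))) = true := by decide +kernel
theorem bx4_7 : BoxOK sI cl7 cl4 cl5 t1 t3 b4_7 :=
  box_mk' [(tg true true false RT.r2), (tg true false false RT.r3), (Tag.mk true true false RT.tl RT.r4), (Tag.mk true false false RT.tl RT.r5), (tg false false false RT.r3), (tg false true false RT.r4), (Tag.mk false false false RT.tl RT.r5), (Tag.mk false true false RT.tl RT.r6)] rfl (allL_c (ex_mk c4_7_0) (allL_c (ex_mk c4_7_1) (allL_c (ex_mk c4_7_2) (allL_c (ex_mk c4_7_3) (allL_c (ex_mk c4_7_4) (allL_c (ex_mk c4_7_5) (allL_c (ex_mk c4_7_6) (allL_c (ex_mk c4_7_7) allL_n))))))))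
theorem bx4_8 : BoxOK sI cl7 cl4 cl5 t1 t3 b4_8 :=
  box_mk (TrL.c (I.pos (nat_lit 0) (nat_lit 0)) (xb (xa (xb (xa (xb T1.l7 T1.l7) T1.l7) T1.l7) T1.l7) (xa (xb T1.l7 (xa (xb T1.l7 T1.l7) T1.l7)) (xb T1.l7 (xa T1.l7 T1.l7))))
  (TrL.c (I.pos (nat_lit 0) (nat_lit 0)) (xb T3.l1 T3.l1)
  (TrL.c (I.pos (nat_lit 0) (nat_lit 111196574)) (xR T1.l1 (xR T1.l1 (xb (xR T1.l1 T1.l6) T1.l1)))
  (TrL.c (I.pos (nat_lit 0) (nat_lit 77433728)) T3.l4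
  (TrL.c (I.pos (nat_lit 0) (nat_lit 0)) (xb (xa T3.l8 T3.l5) (xk T3.l8 T3.l8))
  (TrL.c (I.pos (nat_lit 0) (nat_lit 0)) T1.l2
  (TrL.c (I.mix (nat_lit 29511666) (nat_lit 77433728)) (xR T3.l4 T3.l4)
  (TrL.c (I.mix (nat_lit 29511666) (nat_lit 46070178)) T1.l11
  TrL.n)))))))) (by decide +kernel)
theorem bx4_9 : BoxOK sI cl7 cl4 cl5 t1 t3 b4_9 :=
  box_mk (TrL.c (I.pos (nat_lit 0) (nat_lit 0)) (xa (xb T1.l0 (xa (xb T1.l0 T1.l0) (xb T1.l0 T1.l0))) (xb T1.l0 (xa (xb T1.l0 T1.l0) (xb T1.l0 T1.l0))))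
  (TrL.c (I.pos (nat_lit 0) (nat_lit 0)) (xk (xa T3.l1 (xb T3.l1 T3.l1)) (xb T3.l1 (xa T3.l1 T3.l1)))
  (TrL.c (I.pos (nat_lit 0) (nat_lit 111196574)) (xR T1.l1 T1.l1)
  (TrL.c (I.pos (nat_lit 0) (nat_lit 77433728)) (xR T3.l2 T3.l2)
  (TrL.c (I.pos (nat_lit 0) (nat_lit 0)) (xk (xb T3.l3 (xa T3.l3 T3.l3)) (xb T3.l3 (xa T3.l3 T3.l3)))
  (TrL.c (I.pos (nat_lit 0) (nat_lit 0)) T1.l2
  (TrL.c (I.mix (nat_lit 29511666) (nat_lit 77433728)) (xR T3.l4 T3.l4)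
  (TrL.c (I.mix (nat_lit 29511666) (nat_lit 46070178)) (xR T1.l3 T1.l3)
  TrL.n)))))))) (by decide +kernel)
theorem bx4_10 : BoxOK sI cl7 cl4 cl5 t1 t3 b4_10 :=
  box_mk (TrL.c (I.pos (nat_lit 0) (nat_lit 0)) (xb (xa (xb T1.l7 T1.l7) T1.l4) (xa T1.l4 T1.l4))
  (TrL.c (I.pos (nat_lit 0) (nat_lit 0)) T3.l1
  (TrL.c (I.pos (nat_lit 0) (nat_lit 111196574)) (xR T1.l1 T1.l1)
  (TrL.c (I.pos (nat_lit 0) (nat_lit 77433728)) (xR T3.l4 T3.l2)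
  (TrL.c (I.pos (nat_lit 0) (nat_lit 0)) T3.l5
  (TrL.c (I.pos (nat_lit 0) (nat_lit 0)) T1.l2
  (TrL.c (I.mix (nat_lit 29511666) (nat_lit 77433728)) T3.l4
  (TrL.c (I.mix (nat_lit 29511666) (nat_lit 46070178)) T1.l3
  TrL.n)))))))) (by decide +kernel)
theorem sv4 : StarV sI cl7 cl4 cl5 t1 t3 t4 :=
  (bt_n (bt_n (bt_n (bt_b bx4_0) (bt_b bx4_1)) (bt_n (bt_b bx4_2) (bt_n (bt_b bx4_3) (bt_b bx4_4)))) (bt_n (bt_n (bt_b bx4_5) (bt_n (bt_b bx4_6) (bt_b bx4_7))) (bt_n (bt_b bx4_8) (bt_n (bt_b bx4_9) (bt_b bx4_10)))))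
def S4 : StarD := StarD.mk cl7 cl4 cl5 1 3 t4
theorem c5_0_0 : chkTag sI cl7 cl5 cl4 t3 b5_0 (tg true true false RT.r2) (I.pos (nat_lit 0) (nat_lit 0))
  (xa (xb (xa (xb T3.l15 (xa (xc T3.l15 T3.l15) (xc T3.l15 T3.l15))) (xb (xa T3.l15 T3.l15) (xa (xc T3.l0 T3.l0) (xc T3.l0 T3.l0)))) (xa (xb (xa (xc (xb T3.l0 T3.l0) (xb T3.l0 T3.l0)) (xc T3.l15 (xb T3.l0 T3.l0))) (xa (xc (xb (xk T3.l0 T3.l0) (xk T3.l0 T3.l0)) (xb (xk T3.l0 T3.l0) (xk T3.l0 T3.l0))) (xc (xb T3.l0 (xk T3.l0 T3.l0)) (xb T3.l0 (xk T3.l0 T3.l0))))) (xb (xa (xc T3.l15 T3.l0) (xc T3.l0 T3.l0)) (xa (xc (xb T3.l0 (xk T3.l0 T3.l0)) (xk (xb T3.l0 T3.l0) T3.l0)) (xc (xb T3.l0 T3.l0) (xk (xb T3.l0 T3.l0) T3.l0)))))) (xb (xa (xb (xa T3.l0 T3.l0) (xa (xc T3.l0 T3.l0) T3.l0)) (xb (xa T3.l0 T3.l0) (xa T3.l0 T3.l0))) (xa (xb (xa (xc T3.l0 T3.l0) (xc T3.l0 T3.l0)) (xa (xc (xb T3.l0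 T3.l0) (xk T3.l0 T3.l0)) (xc T3.l0 (xk T3.l0 T3.l0)))) (xb (xa T3.l0 T3.l0) (xa (xc T3.l0 (xk T3.l0 T3.l0)) (xc T3.l0 (xk T3.l0 T3.l0))))))) = true := by decide +kernel
theorem c5_0_1 : chkTag sI cl7 cl5 cl4 t1 b5_0 (tg true false false RT.r3) (I.pos (nat_lit 0) (nat_lit 0))
  (xa (xb (xk T1.l8 T1.l8) (xk (xa T1.l8 T1.l8) (xa T1.l8 T1.l8))) (xb (xk (xa T1.l8 T1.l8) T1.l8) (xk (xa (xb T1.l8 T1.l8) (xb T1.l8 T1.l8)) (xa T1.l8 T1.l8)))) = true := by decide +kernel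
theorem c5_0_2 : chkTag sI cl7 cl5 cl4 t3 b5_0 (Tag.mk true true false RT.tl RT.r4) (I.pos (nat_lit 0) (nat_lit 111196574))
  (xR (xR T3.l4 T3.l4) (xR T3.l4 (xR T3.l4 T3.l4))) = true := by decide +kernel
theorem c5_0_3 : chkTag sI cl7 cl5 cl4 t1 b5_0 (Tag.mk true false false RT.tl RT.r5) (I.pos (nat_lit 0) (nat_lit 77433728))
  (xR (xR T1.l9 T1.l9) (xR T1.l9 (xR T1.l9 T1.l9))) = true := by decide +kernel
theorem c5_0_4 : chkTag sI cl7 cl5 cl4 t1 b5_0 (tg false false false RT.r3) (I.pos (nat_lit 0) (nat_lit 0))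
  (xa (xb (xk T1.l15 T1.l15) (xk (xa T1.l15 T1.l10) (xa T1.l15 T1.l10))) (xb (xk T1.l10 T1.l10) (xk (xa T1.l10 T1.l10) (xa T1.l10 T1.l10)))) = true := by decide +kernel
theorem c5_0_5 : chkTag sI cl7 cl5 cl4 t3 b5_0 (tg false true false RT.r4) (I.pos (nat_lit 0) (nat_lit 0))
  (xk (xa T3.l10 T3.l10) T3.l10) = true := by decide +kernel
theorem c5_0_6 : chkTag sI cl7 cl5 cl4 t1 b5_0 (Tag.mk false false false RT.tl RT.r5) (I.mix (nat_lit 29511666) (nat_lit 77433728))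
  (xR T1.l11 (xR T1.l11 (xR T1.l11 T1.l11))) = true := by decide +kernel
theorem c5_0_7 : chkTag sI cl7 cl5 cl4 t3 b5_0 (Tag.mk false true false RT.tl RT.r6) (I.mix (nat_lit 29511666) (nat_lit 46070178))
  (xR T3.l11 T3.l2) = true := by decide +kernel
theorem bx5_0 : BoxOK sI cl7 cl5 cl4 t3 t1 b5_0 :=
  box_mk' [(tg true true false RT.r2), (tg true false false RT.r3), (Tag.mk true true false RT.tl RT.r4), (Tag.mk true false false RT.tl RT.r5), (tg false false false RT.r3), (tg false true false RT.r4), (Tag.mk false false false RT.tl RT.r5), (Tag.mk false true false RT.tl RT.r6)] rfl (allL_c (ex_mk c5_0_0) (allL_c (ex_mk c5_0_1) (allL_c (ex_mk c5_0_2) (allL_c (ex_mk c5_0_3) (allL_c (ex_mk c5_0_4) (allL_c (ex_mk c5_0_5) (allL_c (ex_mk c5_0_6) (allL_c (ex_mk c5_0_7) allL_n))))))))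
theorem bx5_1 : BoxOK sI cl7 cl5 cl4 t3 t1 b5_1 :=
  box_mk (TrL.c (I.pos (nat_lit 0) (nat_lit 0)) (xb (xa (xb (xa T3.l12 T3.l12) (xa T3.l12 T3.l12)) (xb T3.l0 (xa T3.l12 T3.l12))) (xa (xb (xa T3.l12 T3.l12) (xa (xb T3.l12 T3.l12) (xb T3.l12 T3.l12))) (xb (xa T3.l12 T3.l12) (xa T3.l12 T3.l12))))
  (TrL.c (I.pos (nat_lit 0) (nat_lit 0)) (xb (xa T1.l8 T1.l8) (xa T1.l8 T1.l8))
  (TrL.c (I.pos (nat_lit 0) (nat_lit 111196574)) (xR (xR T3.l4 T3.l9) (xR T3.l9 (xR T3.l9 T3.l9)))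
  (TrL.c (I.pos (nat_lit 0) (nat_lit 77433728)) (xR (xR T1.l9 T1.l9) (xR T1.l9 T1.l9))
  (TrL.c (I.pos (nat_lit 0) (nat_lit 0)) (xb (xa (xk (xb T1.l12 T1.l12) (xb T1.l12 T1.l12)) (xk (xb T1.l12 T1.l12) (xb T1.l12 T1.l12))) (xa (xk T1.l12 T1.l12) (xk T1.l12 T1.l12)))
  (TrL.c (I.pos (nat_lit 0) (nat_lit 0)) T3.l10
  (TrL.c (I.mix (nat_lit 29511666) (nat_lit 77433728)) (xR T1.l11 (xR T1.l11 (xR T1.l11 T1.l11)))
  (TrL.c (I.mix (nat_lit 29511666) (nat_lit 46070178)) (xR T3.l11 T3.l11)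
  TrL.n)))))))) (by decide +kernel)
theorem bx5_2 : BoxOK sI cl7 cl5 cl4 t3 t1 b5_2 :=
  box_mk (TrL.c (I.pos (nat_lit 0) (nat_lit 0)) (xb (xk T1.l8 T1.l8) T1.l8)
  (TrL.c (I.pos (nat_lit 0) (nat_lit 0)) T3.l9
  (TrL.c (I.mix (nat_lit 29511666) (nat_lit 77433728)) (xR T1.l11 T1.l9)
  (TrL.c (I.mix (nat_lit 29511666) (nat_lit 46070178)) T3.l4
  TrL.n)))) (by decide +kernel)
theorem bx5_3 : BoxOK sI cl7 cl5 cl4 t3 t1 b5_3 :=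
  box_mk (TrL.c (I.pos (nat_lit 0) (nat_lit 0)) (xb (xa (xb (xa T3.l15 T3.l15) (xa (xk T3.l15 T3.l15) T3.l15)) (xb (xa T3.l15 T3.l15) (xa T3.l15 T3.l15))) (xa (xb (xa (xk T3.l15 T3.l15) (xk T3.l15 T3.l15)) (xa (xk (xb T3.l15 T3.l15) (xb T3.l15 T3.l15)) (xk (xb T3.l15 T3.l15) (xb T3.l15 T3.l15)))) (xb (xa (xk T3.l15 T3.l15) T3.l15) (xa (xk (xb T3.l15 T3.l15) T3.l15) (xk (xb T3.l15 T3.l15) T3.l15)))))
  (TrL.c (I.pos (nat_lit 0) (nat_lit 0)) (xk (xb (xa T1.l8 T1.l8) (xa T1.l8 T1.l8)) (xb (xa T1.l8 T1.l8) (xa T1.l8 T1.l8)))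
  (TrL.c (I.pos (nat_lit 0) (nat_lit 111196574)) (xR (xR T3.l4 T3.l9) (xR T3.l4 (xR T3.l4 T3.l4)))
  (TrL.c (I.pos (nat_lit 0) (nat_lit 77433728)) (xR T1.l9 (xR T1.l9 T1.l9))
  (TrL.c (I.pos (nat_lit 0) (nat_lit 0)) (xk (xb (xa T1.l15 T1.l15) T1.l15) (xb T1.l15 T1.l15))
  (TrL.c (I.pos (nat_lit 0) (nat_lit 0)) T3.l10
  (TrL.c (I.mix (nat_lit 29511666) (nat_lit 77433728)) (xR T1.l11 (xR T1.l11 (xR T1.l11 T1.l1)))
  (TrL.c (I.mix (nat_lit 29511666) (nat_lit 46070178)) (xR T3.l11 T3.l2)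
  TrL.n)))))))) (by decide +kernel)
theorem bx5_4 : BoxOK sI cl7 cl5 cl4 t3 t1 b5_4 :=
  box_mk (TrL.c (I.pos (nat_lit 0) (nat_lit 0)) (xb (xa T3.l12 T3.l12) (xa (xb T3.l12 (xa T3.l12 T3.l12)) (xb T3.l12 (xa T3.l12 T3.l12))))
  (TrL.c (I.pos (nat_lit 0) (nat_lit 0)) (xb T1.l8 (xk T1.l8 T1.l8))
  (TrL.c (I.pos (nat_lit 0) (nat_lit 111196574)) (xR T3.l4 T3.l9)
  (TrL.c (I.pos (nat_lit 0) (nat_lit 77433728)) (xR T1.l9 T1.l9)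
  (TrL.c (I.pos (nat_lit 0) (nat_lit 0)) (xb T1.l12 T1.l12)
  (TrL.c (I.pos (nat_lit 0) (nat_lit 0)) T3.l10
  (TrL.c (I.mix (nat_lit 29511666) (nat_lit 77433728)) (xR T1.l11 T1.l11)
  (TrL.c (I.mix (nat_lit 29511666) (nat_lit 46070178)) (xR T3.l11 T3.l2)
  TrL.n)))))))) (by decide +kernel)
theorem bx5_5 : BoxOK sI cl7 cl5 cl4 t3 t1 b5_5 :=
  box_mk (TrL.c (I.pos (nat_lit 0) (nat_lit 0)) (xa T3.l12 T3.l12)
  (TrL.c (I.pos (nat_lit 0) (nat_lit 0)) T1.l8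
  (TrL.c (I.pos (nat_lit 0) (nat_lit 111196574)) (xR T3.l4 T3.l9)
  (TrL.c (I.pos (nat_lit 0) (nat_lit 77433728)) (xR T1.l9 T1.l9)
  (TrL.c (I.pos (nat_lit 0) (nat_lit 0)) (xk T1.l12 T1.l12)
  (TrL.c (I.pos (nat_lit 0) (nat_lit 0)) T3.l10
  (TrL.c (I.mix (nat_lit 29511666) (nat_lit 77433728)) (xR T1.l11 T1.l11)
  (TrL.c (I.mix (nat_lit 29511666) (nat_lit 46070178)) T3.l11
  TrL.n)))))))) (by decide +kernel)
theorem bx5_6 : BoxOK sI cl7 cl5 cl4 t3 t1 b5_6 :=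
  box_mk (TrL.c (I.pos (nat_lit 0) (nat_lit 0)) T1.l8
  (TrL.c (I.pos (nat_lit 0) (nat_lit 0)) T3.l9
  (TrL.c (I.mix (nat_lit 29511666) (nat_lit 77433728)) T1.l11
  (TrL.c (I.mix (nat_lit 29511666) (nat_lit 46070178)) T3.l4
  TrL.n)))) (by decide +kernel)
theorem bx5_7 : BoxOK sI cl7 cl5 cl4 t3 t1 b5_7 :=
  box_mk (TrL.c (I.pos (nat_lit 0) (nat_lit 0)) T3.l0
  (TrL.c (I.pos (nat_lit 0) (nat_lit 0)) T1.l8
  (TrL.c (I.pos (nat_lit 0) (nat_lit 111196574)) (xR (xR T3.l4 T3.l9) T3.l9)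
  (TrL.c (I.pos (nat_lit 0) (nat_lit 77433728)) (xR T1.l9 T1.l9)
  (TrL.c (I.pos (nat_lit 0) (nat_lit 0)) (xk T1.l15 T1.l15)
  (TrL.c (I.pos (nat_lit 0) (nat_lit 0)) T3.l10
  (TrL.c (I.mix (nat_lit 29511666) (nat_lit 77433728)) (xR T1.l11 T1.l11)
  (TrL.c (I.mix (nat_lit 29511666) (nat_lit 46070178)) T3.l11
  TrL.n)))))))) (by decide +kernel)
theorem bx5_8 : BoxOK sI cl7 cl5 cl4 t3 t1 b5_8 :=
  box_mk (TrL.c (I.pos (nat_lit 0) (nat_lit 0)) (xb (xa (xb (xa T3.l15 T3.l15) (xa T3.l15 T3.l15)) (xb (xa T3.l15 T3.l15) (xa T3.l15 T3.l15))) (xa (xb (xa T3.l15 T3.l15) (xa (xb T3.l15 T3.l15) T3.l15)) (xb (xa T3.l15 T3.l15) (xa T3.l15 T3.l15))))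
  (TrL.c (I.pos (nat_lit 0) (nat_lit 0)) (xb (xk (xa T1.l8 T1.l8) (xa T1.l8 T1.l8)) (xk (xa T1.l8 T1.l8) (xa T1.l8 T1.l8)))
  (TrL.c (I.pos (nat_lit 0) (nat_lit 111196574)) (xR (xR T3.l4 T3.l9) (xR T3.l9 T3.l4))
  (TrL.c (I.pos (nat_lit 0) (nat_lit 77433728)) (xR (xR T1.l9 T1.l9) T1.l9)
  (TrL.c (I.pos (nat_lit 0) (nat_lit 0)) (xb (xk (xa T1.l15 T1.l15) (xa T1.l15 T1.l15)) (xk T1.l15 T1.l15))
  (TrL.c (I.pos (nat_lit 0) (nat_lit 0)) T3.l10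
  (TrL.c (I.mix (nat_lit 29511666) (nat_lit 77433728)) (xR T1.l11 T1.l1)
  (TrL.c (I.mix (nat_lit 29511666) (nat_lit 46070178)) (xR T3.l11 T3.l11)
  TrL.n)))))))) (by decide +kernel)
theorem bx5_9 : BoxOK sI cl7 cl5 cl4 t3 t1 b5_9 :=
  box_mk (TrL.c (I.pos (nat_lit 0) (nat_lit 0)) (xa (xb (xb T3.l12 T3.l12) (xa (xb T3.l12 (xb T3.l12 (xa T3.l12 T3.l12))) (xb T3.l12 T3.l12))) (xb T3.l12 (xa (xb T3.l12 T3.l12) (xb T3.l12 (xa T3.l12 (xb T3.l12 T3.l12))))))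
  (TrL.c (I.pos (nat_lit 0) (nat_lit 0)) (xb T1.l8 (xa (xk T1.l8 T1.l8) T1.l8))
  (TrL.c (I.pos (nat_lit 0) (nat_lit 111196574)) (xR T3.l4 T3.l9)
  (TrL.c (I.pos (nat_lit 0) (nat_lit 77433728)) (xR T1.l9 T1.l9)
  (TrL.c (I.pos (nat_lit 0) (nat_lit 0)) (xb T1.l12 T1.l12)
  (TrL.c (I.pos (nat_lit 0) (nat_lit 0)) T3.l10
  (TrL.c (I.mix (nat_lit 29511666) (nat_lit 77433728)) (xR T1.l11 T1.l11)
  (TrL.c (I.mix (nat_lit 29511666) (nat_lit 46070178)) T3.l11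
  TrL.n)))))))) (by decide +kernel)
theorem bx5_10 : BoxOK sI cl7 cl5 cl4 t3 t1 b5_10 :=
  box_mk (TrL.c (I.pos (nat_lit 0) (nat_lit 0)) (xb (xa (xb T3.l12 T3.l12) T3.l12) (xa (xb T3.l12 (xa (xb T3.l12 T3.l12) T3.l12)) (xb T3.l12 T3.l12)))
  (TrL.c (I.pos (nat_lit 0) (nat_lit 0)) (xb (xk T1.l8 T1.l8) (xa T1.l8 T1.l8))
  (TrL.c (I.pos (nat_lit 0) (nat_lit 111196574)) (xR T3.l4 (xR T3.l9 T3.l9))
  (TrL.c (I.pos (nat_lit 0) (nat_lit 77433728)) (xR T1.l11 (xR T1.l9 T1.l9))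
  (TrL.c (I.pos (nat_lit 0) (nat_lit 0)) (xb (xa (xk T1.l12 T1.l12) (xk T1.l12 T1.l12)) (xb (xa T1.l12 T1.l12) (xk T1.l12 T1.l12)))
  (TrL.c (I.pos (nat_lit 0) (nat_lit 0)) T3.l10
  (TrL.c (I.mix (nat_lit 29511666) (nat_lit 77433728)) (xR T1.l11 (xR T1.l11 (xR T1.l11 T1.l11)))
  (TrL.c (I.mix (nat_lit 29511666) (nat_lit 46070178)) T3.l4
  TrL.n)))))))) (by decide +kernel)
theorem bx5_11 : BoxOK sI cl7 cl5 cl4 t3 t1 b5_11 :=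
  box_mk (TrL.c (I.pos (nat_lit 0) (nat_lit 0)) (xb (xa T1.l8 (xk T1.l8 T1.l8)) T1.l8)
  (TrL.c (I.pos (nat_lit 0) (nat_lit 0)) T3.l9
  (TrL.c (I.mix (nat_lit 29511666) (nat_lit 77433728)) (xR (xR T1.l11 T1.l14) T1.l9)
  (TrL.c (I.mix (nat_lit 29511666) (nat_lit 46070178)) (xR (xR T3.l14 T3.l4) T3.l4)
  TrL.n)))) (by decide +kernel)
theorem c5_12_0 : chkTag sI cl7 cl5 cl4 t3 b5_12 (tg true true false RT.r2) (I.pos (nat_lit 0) (nat_lit 0))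
  (xa (xb (xa (xb (xa (xc T3.l0 T3.l0) (xc T3.l0 T3.l0)) (xa (xc T3.l0 T3.l0) (xc T3.l0 T3.l0))) (xb (xa T3.l0 T3.l0) (xa T3.l0 T3.l0))) (xa (xb (xa (xc T3.l0 T3.l0) (xc T3.l0 T3.l0)) (xa (xc (xb T3.l0 T3.l0) T3.l0) (xc (xb T3.l0 T3.l0) T3.l0))) (xb (xa (xc T3.l0 T3.l0) (xc T3.l0 T3.l0)) (xa (xc (xb T3.l0 T3.l0) (xb T3.l0 T3.l0)) (xc (xb T3.l0 T3.l0) (xb T3.l0 T3.l0)))))) (xb (xa (xb (xa T3.l0 T3.l0) (xa T3.l0 T3.l0)) (xb (xa T3.l0 T3.l0) (xa T3.l0 T3.l0))) (xa (xb (xa (xc T3.l0 T3.l0) T3.l3) (xa (xc (xk T3.l0 T3.l0) (xk T3.l0 T3.l0)) T3.l3)) (xb (xa T3.l3 (xc T3.l0 T3.l0)) (xa (xc T3.l3 T3.l3) (xc (xk T3.l0 T3.l0) (xk T3.l0 T3.l0))))))) = true := by decide +kernel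
theorem c5_12_1 : chkTag sI cl7 cl5 cl4 t1 b5_12 (tg true false false RT.r3) (I.pos (nat_lit 0) (nat_lit 0))
  (xa (xb (xk (xa (xb T1.l8 T1.l8) T1.l2) (xa T1.l8 (xb T1.l8 T1.l8))) (xk (xa (xb T1.l8 T1.l8) (xb T1.l2 T1.l2)) (xa T1.l8 (xb T1.l8 T1.l8)))) (xb (xk T1.l2 (xa T1.l2 T1.l2)) (xk (xa T1.l2 T1.l2) (xa (xb T1.l2 T1.l2) T1.l2)))) = true := by decide +kernel
theorem c5_12_2 : chkTag sI cl7 cl5 cl4 t3 b5_12 (Tag.mk true true false RT.tl RT.r4) (I.pos (nat_lit 0) (nat_lit 111196574))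
  (xR (xR T3.l4 (xR T3.l9 T3.l9)) (xR T3.l4 (xR T3.l4 T3.l4))) = true := by decide +kernel
theorem c5_12_3 : chkTag sI cl7 cl5 cl4 t1 b5_12 (Tag.mk true false false RT.tl RT.r5) (I.pos (nat_lit 0) (nat_lit 77433728))
  (xR (xR T1.l3 (xR T1.l9 T1.l9)) (xR T1.l9 (xR T1.l9 (xa T1.l9 T1.l9)))) = true := by decide +kernel
theorem c5_12_4 : chkTag sI cl7 cl5 cl4 t1 b5_12 (tg false false false RT.r3) (I.pos (nat_lit 0) (nat_lit 0))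
  (xa (xb (xk (xa (xb (xk T1.l10 T1.l10) T1.l10) (xb (xk T1.l10 T1.l10) T1.l10)) (xa (xb (xk T1.l10 T1.l10) T1.l10) (xb (xk T1.l10 T1.l10) T1.l10))) (xk (xa T1.l10 (xb T1.l10 T1.l10)) (xa T1.l10 (xb T1.l10 T1.l10)))) (xb (xk (xa (xb (xk (xa T1.l10 T1.l10) (xa T1.l10 T1.l10)) (xk T1.l10 T1.l10)) (xb (xk (xa T1.l10 (xb T1.l10 T1.l10)) (xa T1.l10 (xb T1.l10 T1.l10))) (xk (xa T1.l10 T1.l10) (xa T1.l10 T1.l10)))) (xa (xb (xk (xa T1.l10 T1.l10) (xa T1.l10 T1.l10)) T1.l10) (xb (xk (xa T1.l10 (xb T1.l10 T1.l10)) (xa T1.l10 (xb T1.l10 T1.l10))) (xk (xa T1.l10 T1.l10) (xa T1.l10 T1.l10))))) (xk (xa (xb (xk T1.l10 T1.l10) (xk T1.l10 T1.l10)) (xb (xk (xa T1.l10 (xb T1.l10 T1.l10)) (xa T1.l10 (xb T1.l10 T1.l10))) (xk (xa T1.l10 (xb T1.l10 T1.l10)) (xa T1.l10 (xb T1.l10 T1.l10))))) (xa (xb (xk T1.l10 T1.l10) (xk T1.l10 T1.l10)) (xb (xk (xa T1.l10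 (xb T1.l10 T1.l10)) (xa T1.l10 (xb T1.l10 T1.l10))) (xk (xa T1.l10 (xb T1.l10 T1.l10)) (xa T1.l10 (xb T1.l10 T1.l10)))))))) = true := by decide +kernel
theorem c5_12_5 : chkTag sI cl7 cl5 cl4 t3 b5_12 (tg false true false RT.r4) (I.pos (nat_lit 0) (nat_lit 0))
  (xa (xk (xb T3.l10 T3.l10) (xb T3.l10 T3.l10)) (xk (xb (xk T3.l1 T3.l10) (xk (xa T3.l10 T3.l10) (xa T3.l10 T3.l10))) (xb (xa T3.l10 T3.l1) (xa T3.l10 (xb T3.l10 T3.l10))))) = true := by decide +kernel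
theorem c5_12_6 : chkTag sI cl7 cl5 cl4 t1 b5_12 (Tag.mk false false false RT.tl RT.r5) (I.mix (nat_lit 29511666) (nat_lit 77433728))
  (xR (xR T1.l11 T1.l11) (xR T1.l11 (xR T1.l11 (xk (xb T1.l11 T1.l11) T1.l11)))) = true := by decide +kernel
theorem c5_12_7 : chkTag sI cl7 cl5 cl4 t3 b5_12 (Tag.mk false true false RT.tl RT.r6) (I.mix (nat_lit 29511666) (nat_lit 46070178))
  (xR (xR T3.l11 T3.l11) (xR T3.l11 (xR T3.l11 T3.l11))) = true := by decide +kernel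
theorem bx5_12 : BoxOK sI cl7 cl5 cl4 t3 t1 b5_12 :=
  box_mk' [(tg true true false RT.r2), (tg true false false RT.r3), (Tag.mk true true false RT.tl RT.r4), (Tag.mk true false false RT.tl RT.r5), (tg false false false RT.r3), (tg false true false RT.r4), (Tag.mk false false false RT.tl RT.r5), (Tag.mk false true false RT.tl RT.r6)] rfl (allL_c (ex_mk c5_12_0) (allL_c (ex_mk c5_12_1) (allL_c (ex_mk c5_12_2) (allL_c (ex_mk c5_12_3) (allL_c (ex_mk c5_12_4) (allL_c (ex_mk c5_12_5) (allL_c (ex_mk c5_12_6) (allL_c (ex_mk c5_12_7) allL_n))))))))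
theorem bx5_13 : BoxOK sI cl7 cl5 cl4 t3 t1 b5_13 :=
  box_mk (TrL.c (I.pos (nat_lit 0) (nat_lit 0)) (xa (xb (xa (xb T3.l15 (xk T3.l0 T3.l0)) (xb T3.l0 (xk T3.l0 T3.l0))) (xa (xb (xk T3.l0 T3.l0) (xk T3.l0 T3.l0)) (xb (xk T3.l0 T3.l0) (xk T3.l0 T3.l0)))) (xb (xa (xb T3.l0 T3.l0) (xb T3.l0 T3.l0)) (xa (xb T3.l0 (xk T3.l0 T3.l0)) (xb T3.l0 (xk T3.l0 T3.l0)))))
  (TrL.c (I.pos (nat_lit 0) (nat_lit 0)) (xk (xa (xb T1.l8 T1.l8) (xb T1.l8 T1.l8)) (xa (xb T1.l8 T1.l8) (xb T1.l8 T1.l8)))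
  (TrL.c (I.pos (nat_lit 0) (nat_lit 111196574)) (xR (xR T3.l4 T3.l9) (xR T3.l4 (xR T3.l4 T3.l4)))
  (TrL.c (I.pos (nat_lit 0) (nat_lit 77433728)) (xR T1.l9 (xR T1.l9 T1.l9))
  (TrL.c (I.pos (nat_lit 0) (nat_lit 0)) (xk (xa T1.l10 T1.l10) (xa T1.l10 T1.l10))
  (TrL.c (I.pos (nat_lit 0) (nat_lit 0)) T3.l10
  (TrL.c (I.mix (nat_lit 29511666) (nat_lit 77433728)) (xR T1.l11 (xR T1.l11 T1.l11))
  (TrL.c (I.mix (nat_lit 29511666) (nat_lit 46070178)) (xR T3.l11 T3.l11)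
  TrL.n)))))))) (by decide +kernel)
theorem sv5 : StarV sI cl7 cl5 cl4 t3 t1 t5 :=
  (bt_n (bt_n (bt_n (bt_b bx5_0) (bt_n (bt_b bx5_1) (bt_b bx5_2))) (bt_n (bt_n (bt_b bx5_3) (bt_b bx5_4)) (bt_n (bt_b bx5_5) (bt_b bx5_6)))) (bt_n (bt_n (bt_b bx5_7) (bt_n (bt_b bx5_8) (bt_b bx5_9))) (bt_n (bt_n (bt_b bx5_10) (bt_b bx5_11)) (bt_n (bt_b bx5_12) (bt_b bx5_13)))))
def S5 : StarD := StarD.mk cl7 cl5 cl4 3 1 t5
def G : List StarD := [S0, S1, S2, S3, S4, S5]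
theorem so0 : StarOK sI G S0 :=
  star_mk (by decide) (by decide) rfl rfl rfl rfl rfl rfl (rfl : _ = t2) (rfl : _ = t4)
  (st_mk (Pth.l (Pth.l (Pth.l Pth.z))) (nat_lit 255074916) (nat_lit 256876053) (by decide +kernel))
  (st_mk (Pth.l (Pth.l (Pth.l Pth.z))) (nat_lit 295736067) (nat_lit 298220007) (by decide +kernel))
  (st_mk (Pth.l (Pth.l (Pth.l Pth.z))) (nat_lit 343937330) (nat_lit 347406665) (by decide +kernel)) sv0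
theorem so1 : StarOK sI G S1 :=
  star_mk (by decide) (by decide) rfl rfl rfl rfl rfl rfl (rfl : _ = t4) (rfl : _ = t2)
  (st_mk (Pth.l (Pth.l (Pth.l (Pth.l Pth.z)))) (nat_lit 147967669) (nat_lit 171945971) (by decide +kernel))
  (st_mk (Pth.l (Pth.l (Pth.l (Pth.l Pth.z)))) (nat_lit 187612675) (nat_lit 212382227) (by decide +kernel))
  (st_mk (Pth.l (Pth.l (Pth.l (Pth.l Pth.z)))) (nat_lit 235003027) (nat_lit 260844120) (by decide +kernel)) sv1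
theorem so2 : StarOK sI G S2 :=
  star_mk (by decide) (by decide) rfl rfl rfl rfl rfl rfl (rfl : _ = t0) (rfl : _ = t5)
  (st_mk (Pth.l (Pth.l (Pth.l Pth.z))) (nat_lit 385226859) (nat_lit 387324699) (by decide +kernel))
  (st_mk (Pth.l (Pth.l (Pth.l Pth.z))) (nat_lit 424436686) (nat_lit 427014316) (by decide +kernel))
  (st_mk (Pth.l (Pth.l (Pth.l Pth.z))) (nat_lit 470273890) (nat_lit 473485354) (by decide +kernel)) sv2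
theorem so3 : StarOK sI G S3 :=
  star_mk (by decide) (by decide) rfl rfl rfl rfl rfl rfl (rfl : _ = t5) (rfl : _ = t0)
  (st_mk (Pth.l (Pth.l (Pth.l (Pth.l Pth.z)))) (nat_lit 145372594) (nat_lit 168558919) (by decide +kernel))
  (st_mk (Pth.l (Pth.l (Pth.l (Pth.l Pth.z)))) (nat_lit 183385157) (nat_lit 207067400) (by decide +kernel))
  (st_mk (Pth.l (Pth.l (Pth.l (Pth.l Pth.z)))) (nat_lit 228239098) (nat_lit 252568826) (by decide +kernel)) sv3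
theorem so4 : StarOK sI G S4 :=
  star_mk (by decide) (by decide) rfl rfl rfl rfl rfl rfl (rfl : _ = t1) (rfl : _ = t3)
  (st_mk (Pth.l (Pth.l (Pth.l Pth.z))) (nat_lit 372666487) (nat_lit 377798253) (by decide +kernel))
  (st_mk (Pth.l (Pth.l (Pth.l Pth.z))) (nat_lit 409292354) (nat_lit 415175240) (by decide +kernel))
  (st_mk (Pth.l (Pth.l (Pth.l Pth.z))) (nat_lit 451765432) (nat_lit 458617881) (by decide +kernel)) sv4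
theorem so5 : StarOK sI G S5 :=
  star_mk (by decide) (by decide) rfl rfl rfl rfl rfl rfl (rfl : _ = t3) (rfl : _ = t1)
  (st_mk (Pth.l (Pth.l (Pth.l Pth.z))) (nat_lit 242771537) (nat_lit 245287587) (by decide +kernel))
  (st_mk (Pth.l (Pth.l (Pth.l Pth.z))) (nat_lit 278647970) (nat_lit 282896338) (by decide +kernel))
  (st_mk (Pth.l (Pth.l (Pth.l Pth.z))) (nat_lit 320940207) (nat_lit 326081455) (by decide +kernel)) sv5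
theorem ok : GroupOK (nat_lit 238878720) (nat_lit 268435456) G := grp_mk (allS_c so0 (allS_c so1 (allS_c so2 (allS_c so3 (allS_c so4 (allS_c so5 allS_n))))))
theorem cov : GCov G cl4 cl5 cl7 := cov_mk
  ⟨0, by decide, rfl, rfl, rfl⟩ ⟨1, by decide, rfl, rfl, rfl⟩ ⟨2, by decide, rfl, rfl, rfl⟩ ⟨3, by decide, rfl, rfl, rfl⟩ ⟨4, by decide, rfl, rfl, rfl⟩ ⟨5, by decide, rfl, rfl, rfl⟩
end Q124_4

namespace Q125_0
def sI : I := I.pos (nat_lit 0) (nat_lit 91291648)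
def b0_0 : Bx := Bx.mk (St.mk (I.pos (nat_lit 160514048) (nat_lit 258408448)) (I.mix (nat_lit 30064640) (nat_lit 86343680)) (I.mix (nat_lit 162086912) (nat_lit 72482816)) (I.pos (nat_lit 245317632) (nat_lit 408109056)) (I.mix (nat_lit 101285888) (nat_lit 78086144)) (I.mix (nat_lit 92618752) (nat_lit 93339648)) (I.mix (nat_lit 158187520) (nat_lit 200491008)))
  false (nat_lit 0)
def b0_1 : Bx := Bx.mk (St.mk (I.pos (nat_lit 28803072) (nat_lit 64126976)) (I.mix (nat_lit 12779520) (nat_lit 51183616)) (I.neg (nat_lit 14123008) (nat_lit 47661056)) (I.pos (nat_lit 144064512) (nat_lit 161546240)) (I.mix (nat_lit 36175872) (nat_lit 50659328)) (I.mix (nat_lit 50233344) (nat_lit 35749888)) (I.mix (nat_lit 28704768) (nat_lit 23560192)))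
  false (nat_lit 0)
def b0_2 : Bx := Bx.mk (St.mk (I.pos (nat_lit 59293696) (nat_lit 96567296)) (I.mix (nat_lit 66404352) (nat_lit 13221888)) (I.neg (nat_lit 31588352) (nat_lit 82001920)) (I.pos (nat_lit 154288128) (nat_lit 182501376)) (I.mix (nat_lit 94519296) (nat_lit 35553280)) (I.mix (nat_lit 44843008) (nat_lit 86032384)) (I.mix (nat_lit 34258944) (nat_lit 61505536)))
  false (nat_lit 0)
def b0_3 : Bx := Bx.mk (St.mk (I.neg (nat_lit 28803072) (nat_lit 63946752)) (I.mix (nat_lit 51183616) (nat_lit 12550144)) (I.neg (nat_lit 14123008) (nat_lit 47546368)) (I.pos (nat_lit 144064512) (nat_lit 161480704)) (I.mix (nat_lit 50659328) (nat_lit 36175872)) (I.mix (nat_lit 35749888) (nat_lit 50233344)) (I.mix (nat_lit 28704768) (nat_lit 23560192)))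
  true (nat_lit 0)
def b0_4 : Bx := Bx.mk (St.mk (I.pos (nat_lit 50233344) (nat_lit 63176704)) (I.mix (nat_lit 11780096) (nat_lit 10043392)) (I.neg (nat_lit 31948800) (nat_lit 47120384)) (I.pos (nat_lit 150257664) (nat_lit 161103872)) (I.mix (nat_lit 29933568) (nat_lit 18530304)) (I.mix (nat_lit 24150016) (nat_lit 22380544)) (I.mix (nat_lit 12517376) (nat_lit 17055744)))
  false (nat_lit 0)
def b0_5 : Bx := Bx.mk (St.mk (I.pos (nat_lit 62980096) (nat_lit 144703488)) (I.neg (nat_lit 1409024) (nat_lit 78135296)) (I.neg (nat_lit 25411584) (nat_lit 95043584)) (I.pos (nat_lit 160481280) (nat_lit 226836480)) (I.mix (nat_lit 94863360) (nat_lit 60932096)) (I.mix (nat_lit 50642944) (nat_lit 100646912)) (I.mix (nat_lit 42614784) (nat_lit 90144768)))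
  false (nat_lit 0)
def b0_6 : Bx := Bx.mk (St.mk (I.mix (nat_lit 42057728) (nat_lit 4816896)) (I.mix (nat_lit 45072384) (nat_lit 8847360)) (I.neg (nat_lit 17219584) (nat_lit 25640960)) (I.pos (nat_lit 142295040) (nat_lit 153518080)) (I.mix (nat_lit 36290560) (nat_lit 39223296)) (I.mix (nat_lit 26935296) (nat_lit 53280768)) (I.mix (nat_lit 10518528) (nat_lit 8962048)))
  true (nat_lit 0)
def b0_7 : Bx := Bx.mk (St.mk (I.mix (nat_lit 4800512) (nat_lit 42057728)) (I.mix (nat_lit 8847360) (nat_lit 45072384)) (I.neg (nat_lit 17219584) (nat_lit 25640960)) (I.pos (nat_lit 142295040) (nat_lit 153518080)) (I.mix (nat_lit 39223296) (nat_lit 36290560)) (I.mix (nat_lit 53280768) (nat_lit 26935296)) (I.mix (nat_lit 10518528) (nat_lit 8962048)))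
  false (nat_lit 0)
def b0_8 : Bx := Bx.mk (St.mk (I.pos (nat_lit 124846080) (nat_lit 206815232)) (I.mix (nat_lit 44859392) (nat_lit 73859072)) (I.mix (nat_lit 74186752) (nat_lit 59703296)) (I.pos (nat_lit 205963264) (nat_lit 311263232)) (I.mix (nat_lit 113328128) (nat_lit 68337664)) (I.mix (nat_lit 152993792) (nat_lit 78118912)) (I.mix (nat_lit 149258240) (nat_lit 80822272)))
  false (nat_lit 0)
def t0 : BTr := (BTr.n (BTr.n (BTr.n (BTr.b b0_0) (BTr.b b0_1)) (BTr.n (BTr.b b0_2) (BTr.b b0_3))) (BTr.n (BTr.n (BTr.b b0_4) (BTr.b b0_5)) (BTr.n (BTr.b b0_6) (BTr.n (BTr.b b0_7) (BTr.b b0_8)))))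
namespace T0
def l0 : Tr := Tr.L (Pth.l (Pth.l (Pth.l Pth.z)))
def l1 : Tr := Tr.L (Pth.l (Pth.l (Pth.r Pth.z)))
def l2 : Tr := Tr.L (Pth.l (Pth.r (Pth.l Pth.z)))
def l3 : Tr := Tr.L (Pth.l (Pth.r (Pth.r Pth.z)))
def l4 : Tr := Tr.L (Pth.r (Pth.l (Pth.l Pth.z)))
def l5 : Tr := Tr.L (Pth.r (Pth.l (Pth.r Pth.z)))
def l6 : Tr := Tr.L (Pth.r (Pth.r (Pth.l Pth.z)))
def l7 : Tr := Tr.L (Pth.r (Pth.r (Pth.r (Pth.l Pth.z))))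
def l8 : Tr := Tr.L (Pth.r (Pth.r (Pth.r (Pth.r Pth.z))))
end T0
def b1_0 : Bx := Bx.mk (St.mk (I.pos (nat_lit 160514048) (nat_lit 259309568)) (I.mix (nat_lit 27377664) (nat_lit 58753024)) (I.mix (nat_lit 82984960) (nat_lit 86065152)) (I.pos (nat_lit 117817344) (nat_lit 298106880)) (I.mix (nat_lit 94961664) (nat_lit 58228736)) (I.mix (nat_lit 83394560) (nat_lit 70729728)) (I.mix (nat_lit 132694016) (nat_lit 140214272)))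
  false (nat_lit 0)
def b1_1 : Bx := Bx.mk (St.mk (I.mix (nat_lit 11272192) (nat_lit 124960768)) (I.mix (nat_lit 9338880) (nat_lit 31129600)) (I.mix (nat_lit 17874944) (nat_lit 18530304)) (I.pos (nat_lit 17678336) (nat_lit 95485952)) (I.mix (nat_lit 33325056) (nat_lit 29016064)) (I.mix (nat_lit 32030720) (nat_lit 23855104)) (I.mix (nat_lit 24297472) (nat_lit 17399808)))
  false (nat_lit 0)
def b1_2 : Bx := Bx.mk (St.mk (I.pos (nat_lit 110690304) (nat_lit 152141824)) (I.mix (nat_lit 56573952) (nat_lit 10600448)) (I.mix (nat_lit 63553536) (nat_lit 196608)) (I.pos (nat_lit 67026944) (nat_lit 122273792)) (I.mix (nat_lit 95567872) (nat_lit 29442048)) (I.mix (nat_lit 50069504) (nat_lit 106971136)) (I.mix (nat_lit 38830080) (nat_lit 92536832)))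
  false (nat_lit 0)
def b1_3 : Bx := Bx.mk (St.mk (I.mix (nat_lit 17203200) (nat_lit 88014848)) (I.mix (nat_lit 27541504) (nat_lit 3948544)) (I.neg (nat_lit 409600) (nat_lit 21479424)) (I.pos (nat_lit 17940480) (nat_lit 65585152)) (I.mix (nat_lit 36061184) (nat_lit 13910016)) (I.mix (nat_lit 20201472) (nat_lit 36061184)) (I.mix (nat_lit 11206656) (nat_lit 19415040)))
  false (nat_lit 0)
def b1_4 : Bx := Bx.mk (St.mk (I.mix (nat_lit 23183360) (nat_lit 75988992)) (I.mix (nat_lit 4079616) (nat_lit 4669440)) (I.neg (nat_lit 819200) (nat_lit 6635520)) (I.pos (nat_lit 18120704) (nat_lit 57425920)) (I.mix (nat_lit 9486336) (nat_lit 5947392)) (I.mix (nat_lit 7471104) (nat_lit 7290880)) (I.mix (nat_lit 2080768) (nat_lit 1982464)))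
  false (nat_lit 0)
def b1_5 : Bx := Bx.mk (St.mk (I.pos (nat_lit 104087552) (nat_lit 124682240)) (I.mix (nat_lit 9666560) (nat_lit 7979008)) (I.neg (nat_lit 933888) (nat_lit 17989632)) (I.pos (nat_lit 62767104) (nat_lit 95158272)) (I.mix (nat_lit 23052288) (nat_lit 12730368)) (I.mix (nat_lit 15286272) (nat_lit 18120704)) (I.mix (nat_lit 12615680) (nat_lit 16596992)))
  false (nat_lit 0)
def b1_6 : Bx := Bx.mk (St.mk (I.pos (nat_lit 105709568) (nat_lit 172720128)) (I.mix (nat_lit 65437696) (nat_lit 7061504)) (I.neg (nat_lit 9453568) (nat_lit 70811648)) (I.pos (nat_lit 80592896) (nat_lit 150962176)) (I.mix (nat_lit 92504064) (nat_lit 44941312)) (I.mix (nat_lit 53002240) (nat_lit 83853312)) (I.mix (nat_lit 41943040) (nat_lit 78397440)))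
  false (nat_lit 0)
def b1_7 : Bx := Bx.mk (St.mk (I.mix (nat_lit 16121856) (nat_lit 98418688)) (I.mix (nat_lit 29917184) (nat_lit 2899968)) (I.neg (nat_lit 196608) (nat_lit 23592960)) (I.pos (nat_lit 16678912) (nat_lit 72237056)) (I.mix (nat_lit 32358400) (nat_lit 23674880)) (I.mix (nat_lit 19988480) (nat_lit 31358976)) (I.mix (nat_lit 12009472) (nat_lit 20496384)))
  false (nat_lit 0)
def b1_8 : Bx := Bx.mk (St.mk (I.pos (nat_lit 157417472) (nat_lit 218202112)) (I.mix (nat_lit 36732928) (nat_lit 61800448)) (I.mix (nat_lit 44695552) (nat_lit 87769088)) (I.pos (nat_lit 117342208) (nat_lit 216743936)) (I.mix (nat_lit 129302528) (nat_lit 49627136)) (I.mix (nat_lit 155664384) (nat_lit 86818816)) (I.mix (nat_lit 187121664) (nat_lit 98598912)))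
  false (nat_lit 0)
def b1_9 : Bx := Bx.mk (St.mk (I.mix (nat_lit 18743296) (nat_lit 121864192)) (I.mix (nat_lit 10387456) (nat_lit 34357248)) (I.mix (nat_lit 11796480) (nat_lit 21430272)) (I.pos (nat_lit 17907712) (nat_lit 90947584)) (I.mix (nat_lit 46268416) (nat_lit 24657920)) (I.mix (nat_lit 50102272) (nat_lit 32964608)) (I.mix (nat_lit 30916608) (nat_lit 20414464)))
  false (nat_lit 0)
def b1_10 : Bx := Bx.mk (St.mk (I.pos (nat_lit 155402240) (nat_lit 171704320)) (I.neg (nat_lit 13582336) (nat_lit 33390592)) (I.neg (nat_lit 15089664) (nat_lit 39780352)) (I.pos (nat_lit 115654656) (nat_lit 149110784)) (I.mix (nat_lit 20709376) (nat_lit 7569408)) (I.mix (nat_lit 6766592) (nat_lit 10584064)) (I.mix (nat_lit 7045120) (nat_lit 11599872)))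
  false (nat_lit 0)
def b1_11 : Bx := Bx.mk (St.mk (I.mix (nat_lit 21397504) (nat_lit 103038976)) (I.mix (nat_lit 12468224) (nat_lit 1769472)) (I.neg (nat_lit 262144) (nat_lit 12828672)) (I.pos (nat_lit 18186240) (nat_lit 75431936)) (I.mix (nat_lit 8994816) (nat_lit 9060352)) (I.mix (nat_lit 6651904) (nat_lit 8372224)) (I.mix (nat_lit 4603904) (nat_lit 5881856)))
  false (nat_lit 0)
def t1 : BTr := (BTr.n (BTr.n (BTr.n (BTr.b b1_0) (BTr.n (BTr.b b1_1) (BTr.b b1_2))) (BTr.n (BTr.b b1_3) (BTr.n (BTr.b b1_4) (BTr.b b1_5)))) (BTr.n (BTr.n (BTr.b b1_6) (BTr.n (BTr.b b1_7) (BTr.b b1_8))) (BTr.n (BTr.b b1_9) (BTr.n (BTr.b b1_10) (BTr.b b1_11)))))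
namespace T1
def l0 : Tr := Tr.L (Pth.l (Pth.l (Pth.l Pth.z)))
def l1 : Tr := Tr.L (Pth.l (Pth.l (Pth.r (Pth.l Pth.z))))
def l2 : Tr := Tr.L (Pth.l (Pth.l (Pth.r (Pth.r Pth.z))))
def l3 : Tr := Tr.L (Pth.l (Pth.r (Pth.l Pth.z)))
def l4 : Tr := Tr.L (Pth.l (Pth.r (Pth.r (Pth.l Pth.z))))
def l5 : Tr := Tr.L (Pth.l (Pth.r (Pth.r (Pth.r Pth.z))))
def l6 : Tr := Tr.L (Pth.r (Pth.l (Pth.l Pth.z)))
def l7 : Tr := Tr.L (Pth.r (Pth.l (Pth.r (Pth.l Pth.z))))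
def l8 : Tr := Tr.L (Pth.r (Pth.l (Pth.r (Pth.r Pth.z))))
def l9 : Tr := Tr.L (Pth.r (Pth.r (Pth.l Pth.z)))
def l10 : Tr := Tr.L (Pth.r (Pth.r (Pth.r (Pth.l Pth.z))))
def l11 : Tr := Tr.L (Pth.r (Pth.r (Pth.r (Pth.r Pth.z))))
end T1
def b2_0 : Bx := Bx.mk (St.mk (I.pos (nat_lit 152141824) (nat_lit 268107776)) (I.mix (nat_lit 8110080) (nat_lit 101482496)) (I.mix (nat_lit 153763840) (nat_lit 79331328)) (I.pos (nat_lit 373784576) (nat_lit 552599552)) (I.mix (nat_lit 112803840) (nat_lit 83066880)) (I.mix (nat_lit 107003904) (nat_lit 89358336)) (I.mix (nat_lit 165675008) (nat_lit 167690240)))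
  false (nat_lit 0)
def b2_1 : Bx := Bx.mk (St.mk (I.mix (nat_lit 55476224) (nat_lit 147456)) (I.mix (nat_lit 2228224) (nat_lit 92372992)) (I.neg (nat_lit 59113472) (nat_lit 85458944)) (I.pos (nat_lit 266878976) (nat_lit 291782656)) (I.mix (nat_lit 45842432) (nat_lit 99909632)) (I.mix (nat_lit 87834624) (nat_lit 67289088)) (I.mix (nat_lit 39272448) (nat_lit 34406400)))
  true (nat_lit 0)
def b2_2 : Bx := Bx.mk (St.mk (I.mix (nat_lit 6094848) (nat_lit 55476224)) (I.mix (nat_lit 92372992) (nat_lit 4489216)) (I.neg (nat_lit 59113472) (nat_lit 85458944)) (I.pos (nat_lit 266878976) (nat_lit 291782656)) (I.mix (nat_lit 99909632) (nat_lit 45842432)) (I.mix (nat_lit 67289088) (nat_lit 87834624)) (I.mix (nat_lit 39272448) (nat_lit 34406400)))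
  false (nat_lit 0)
def b2_3 : Bx := Bx.mk (St.mk (I.pos (nat_lit 20283392) (nat_lit 117489664)) (I.neg (nat_lit 1359872) (nat_lit 94879744)) (I.neg (nat_lit 18939904) (nat_lit 101646336)) (I.pos (nat_lit 264060928) (nat_lit 332677120)) (I.mix (nat_lit 105594880) (nat_lit 76120064)) (I.mix (nat_lit 64798720) (nat_lit 114114560)) (I.mix (nat_lit 67977216) (nat_lit 94437376)))
  false (nat_lit 0)
def b2_4 : Bx := Bx.mk (St.mk (I.pos (nat_lit 94814208) (nat_lit 197197824)) (I.mix (nat_lit 43401216) (nat_lit 99581952)) (I.mix (nat_lit 60686336) (nat_lit 76660736)) (I.pos (nat_lit 307642368) (nat_lit 429096960)) (I.mix (nat_lit 126418944) (nat_lit 69287936)) (I.mix (nat_lit 159088640) (nat_lit 89866240)) (I.mix (nat_lit 152944640) (nat_lit 104202240)))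
  false (nat_lit 0)
def b2_5 : Bx := Bx.mk (St.mk (I.neg (nat_lit 20267008) (nat_lit 117506048)) (I.pos (nat_lit 1359872) (nat_lit 94896128)) (I.neg (nat_lit 18939904) (nat_lit 101646336)) (I.pos (nat_lit 264060928) (nat_lit 332693504)) (I.mix (nat_lit 76136448) (nat_lit 105594880)) (I.mix (nat_lit 114130944) (nat_lit 64798720)) (I.mix (nat_lit 67993600) (nat_lit 94437376)))
  true (nat_lit 0)
def b2_6 : Bx := Bx.mk (St.mk (I.mix (nat_lit 9469952) (nat_lit 5734400)) (I.mix (nat_lit 4505600) (nat_lit 20267008)) (I.neg (nat_lit 64421888) (nat_lit 72646656)) (I.pos (nat_lit 266747904) (nat_lit 276643840)) (I.mix (nat_lit 16678912) (nat_lit 30244864)) (I.mix (nat_lit 27213824) (nat_lit 17186816)) (I.mix (nat_lit 1212416) (nat_lit 6930432)))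
  true (nat_lit 0)
def t2 : BTr := (BTr.n (BTr.n (BTr.b b2_0) (BTr.n (BTr.b b2_1) (BTr.b b2_2))) (BTr.n (BTr.n (BTr.b b2_3) (BTr.b b2_4)) (BTr.n (BTr.b b2_5) (BTr.b b2_6))))
namespace T2
def l0 : Tr := Tr.L (Pth.l (Pth.l Pth.z))
def l1 : Tr := Tr.L (Pth.l (Pth.r (Pth.l Pth.z)))
def l2 : Tr := Tr.L (Pth.l (Pth.r (Pth.r Pth.z)))
def l3 : Tr := Tr.L (Pth.r (Pth.l (Pth.l Pth.z)))
def l4 : Tr := Tr.L (Pth.r (Pth.l (Pth.r Pth.z)))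
def l5 : Tr := Tr.L (Pth.r (Pth.r (Pth.l Pth.z)))
def l6 : Tr := Tr.L (Pth.r (Pth.r (Pth.r Pth.z)))
end T2
def b3_0 : Bx := Bx.mk (St.mk (I.pos (nat_lit 160514048) (nat_lit 264355840)) (I.mix (nat_lit 10993664) (nat_lit 51134464)) (I.mix (nat_lit 1736704) (nat_lit 106414080)) (I.pos (nat_lit 116948992) (nat_lit 307036160)) (I.mix (nat_lit 97992704) (nat_lit 58408960)) (I.mix (nat_lit 91013120) (nat_lit 63881216)) (I.mix (nat_lit 150061056) (nat_lit 85360640)))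
  false (nat_lit 0)
def b3_1 : Bx := Bx.mk (St.mk (I.pos (nat_lit 113197056) (nat_lit 169738240)) (I.mix (nat_lit 66322432) (nat_lit 737280)) (I.mix (nat_lit 57065472) (nat_lit 9748480)) (I.pos (nat_lit 86163456) (nat_lit 142639104)) (I.mix (nat_lit 82657280) (nat_lit 43614208)) (I.mix (nat_lit 47857664) (nat_lit 71778304)) (I.mix (nat_lit 41353216) (nat_lit 65208320)))
  false (nat_lit 0)
def b3_2 : Bx := Bx.mk (St.mk (I.mix (nat_lit 13647872) (nat_lit 99565568)) (I.mix (nat_lit 29638656) (nat_lit 6094848)) (I.mix (nat_lit 14483456) (nat_lit 10665984)) (I.pos (nat_lit 17022976) (nat_lit 72794112)) (I.mix (nat_lit 26001408) (nat_lit 24313856)) (I.mix (nat_lit 18644992) (nat_lit 24625152)) (I.mix (nat_lit 10895360) (nat_lit 15826944)))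
  false (nat_lit 0)
def b3_3 : Bx := Bx.mk (St.mk (I.pos (nat_lit 156827648) (nat_lit 213975040)) (I.mix (nat_lit 43450368) (nat_lit 61407232)) (I.mix (nat_lit 31260672) (nat_lit 112803840)) (I.pos (nat_lit 118718464) (nat_lit 207536128)) (I.mix (nat_lit 136986624) (nat_lit 47136768)) (I.mix (nat_lit 169082880) (nat_lit 81068032)) (I.mix (nat_lit 219004928) (nat_lit 89243648)))
  false (nat_lit 0)
def b3_4 : Bx := Bx.mk (St.mk (I.mix (nat_lit 18857984) (nat_lit 118898688)) (I.mix (nat_lit 14254080) (nat_lit 34881536)) (I.mix (nat_lit 4112384) (nat_lit 33423360)) (I.pos (nat_lit 17825792) (nat_lit 88506368)) (I.mix (nat_lit 54312960) (nat_lit 22544384)) (I.mix (nat_lit 57737216) (nat_lit 32112640)) (I.mix (nat_lit 38584320) (nat_lit 20070400)))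
  false (nat_lit 0)
def b3_5 : Bx := Bx.mk (St.mk (I.mix (nat_lit 23904256) (nat_lit 103809024)) (I.mix (nat_lit 12976128) (nat_lit 4997120)) (I.mix (nat_lit 2588672) (nat_lit 10354688)) (I.pos (nat_lit 17907712) (nat_lit 75431936)) (I.mix (nat_lit 14565376) (nat_lit 8585216)) (I.mix (nat_lit 8192000) (nat_lit 9732096)) (I.mix (nat_lit 5914624) (nat_lit 5816320)))
  false (nat_lit 0)
def b3_6 : Bx := Bx.mk (St.mk (I.pos (nat_lit 140689408) (nat_lit 174964736)) (I.mix (nat_lit 38256640) (nat_lit 81920)) (I.mix (nat_lit 23773184) (nat_lit 17678336)) (I.pos (nat_lit 103202816) (nat_lit 150765568)) (I.mix (nat_lit 49086464) (nat_lit 24002560)) (I.mix (nat_lit 28065792) (nat_lit 39518208)) (I.mix (nat_lit 34291712) (nat_lit 39665664)))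
  false (nat_lit 0)
def b3_7 : Bx := Bx.mk (St.mk (I.mix (nat_lit 13205504) (nat_lit 125321216)) (I.mix (nat_lit 3260416) (nat_lit 29310976)) (I.mix (nat_lit 32768) (nat_lit 30359552)) (I.pos (nat_lit 17465344) (nat_lit 95862784)) (I.mix (nat_lit 39239680) (nat_lit 27344896)) (I.mix (nat_lit 36667392) (nat_lit 25411584)) (I.mix (nat_lit 29622272) (nat_lit 18792448)))
  false (nat_lit 0)
def b3_8 : Bx := Bx.mk (St.mk (I.pos (nat_lit 112082944) (nat_lit 157827072)) (I.mix (nat_lit 59506688) (nat_lit 3719168)) (I.mix (nat_lit 48693248) (nat_lit 8404992)) (I.pos (nat_lit 67305472) (nat_lit 127238144)) (I.mix (nat_lit 85622784) (nat_lit 31850496)) (I.mix (nat_lit 51347456) (nat_lit 94289920)) (I.mix (nat_lit 40501248) (nat_lit 74842112)))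
  false (nat_lit 0)
def b3_9 : Bx := Bx.mk (St.mk (I.mix (nat_lit 18399232) (nat_lit 90832896)) (I.mix (nat_lit 27869184) (nat_lit 622592)) (I.mix (nat_lit 12599296) (nat_lit 4653056)) (I.pos (nat_lit 17956864) (nat_lit 67010560)) (I.mix (nat_lit 29982720) (nat_lit 15646720)) (I.mix (nat_lit 20299776) (nat_lit 30556160)) (I.mix (nat_lit 10797056) (nat_lit 15187968)))
  false (nat_lit 0)
def b3_10 : Bx := Bx.mk (St.mk (I.pos (nat_lit 110706688) (nat_lit 124764160)) (I.mix (nat_lit 1032192) (nat_lit 7585792)) (I.pos (nat_lit 1769472) (nat_lit 11616256)) (I.pos (nat_lit 66502656) (nat_lit 95207424)) (I.mix (nat_lit 8126464) (nat_lit 9551872)) (I.mix (nat_lit 7454720) (nat_lit 5931008)) (I.mix (nat_lit 6635520) (nat_lit 5062656)))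
  false (nat_lit 0)
def b3_11 : Bx := Bx.mk (St.mk (I.mix (nat_lit 19431424) (nat_lit 28360704)) (I.mix (nat_lit 688128) (nat_lit 3080192)) (I.mix (nat_lit 32768) (nat_lit 2981888)) (I.pos (nat_lit 18366464) (nat_lit 39796736)) (I.mix (nat_lit 1736704) (nat_lit 3538944)) (I.mix (nat_lit 1982464) (nat_lit 1359872)) (I.mix (nat_lit 917504) (nat_lit 819200)))
  false (nat_lit 0)
def t3 : BTr := (BTr.n (BTr.n (BTr.n (BTr.b b3_0) (BTr.n (BTr.b b3_1) (BTr.b b3_2))) (BTr.n (BTr.b b3_3) (BTr.n (BTr.b b3_4) (BTr.b b3_5)))) (BTr.n (BTr.n (BTr.b b3_6) (BTr.n (BTr.b b3_7) (BTr.b b3_8))) (BTr.n (BTr.b b3_9) (BTr.n (BTr.b b3_10) (BTr.b b3_11)))))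
namespace T3
def l0 : Tr := Tr.L (Pth.l (Pth.l (Pth.l Pth.z)))
def l1 : Tr := Tr.L (Pth.l (Pth.l (Pth.r (Pth.l Pth.z))))
def l2 : Tr := Tr.L (Pth.l (Pth.l (Pth.r (Pth.r Pth.z))))
def l3 : Tr := Tr.L (Pth.l (Pth.r (Pth.l Pth.z)))
def l4 : Tr := Tr.L (Pth.l (Pth.r (Pth.r (Pth.l Pth.z))))
def l5 : Tr := Tr.L (Pth.l (Pth.r (Pth.r (Pth.r Pth.z))))
def l6 : Tr := Tr.L (Pth.r (Pth.l (Pth.l Pth.z)))
def l7 : Tr := Tr.L (Pth.r (Pth.l (Pth.r (Pth.l Pth.z))))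
def l8 : Tr := Tr.L (Pth.r (Pth.l (Pth.r (Pth.r Pth.z))))
def l9 : Tr := Tr.L (Pth.r (Pth.r (Pth.l Pth.z)))
def l10 : Tr := Tr.L (Pth.r (Pth.r (Pth.r (Pth.l Pth.z))))
def l11 : Tr := Tr.L (Pth.r (Pth.r (Pth.r (Pth.r Pth.z))))
end T3
def b4_0 : Bx := Bx.mk (St.mk (I.pos (nat_lit 134643712) (nat_lit 282083328)) (I.mix (nat_lit 26361856) (nat_lit 91439104)) (I.mix (nat_lit 100368384) (nat_lit 133070848)) (I.pos (nat_lit 358842368) (nat_lit 566542336)) (I.mix (nat_lit 128794624) (nat_lit 90013696)) (I.mix (nat_lit 132595712) (nat_lit 81133568)) (I.mix (nat_lit 184729600) (nat_lit 106921984)))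
  false (nat_lit 107203055)
def b4_1 : Bx := Bx.mk (St.mk (I.pos (nat_lit 35930112) (nat_lit 109412352)) (I.neg (nat_lit 12386304) (nat_lit 101187584)) (I.mix (nat_lit 56803328) (nat_lit 21118976)) (I.pos (nat_lit 269991936) (nat_lit 318095360)) (I.mix (nat_lit 91013120) (nat_lit 65159168)) (I.mix (nat_lit 76906496) (nat_lit 83230720)) (I.mix (nat_lit 67321856) (nat_lit 63864832)))
  false (nat_lit 0)
def b4_2 : Bx := Bx.mk (St.mk (I.pos (nat_lit 103530496) (nat_lit 184418304)) (I.mix (nat_lit 29933568) (nat_lit 98467840)) (I.pos (nat_lit 6717440) (nat_lit 137396224)) (I.pos (nat_lit 308740096) (nat_lit 402735104)) (I.mix (nat_lit 148422656) (nat_lit 64421888)) (I.mix (nat_lit 138788864) (nat_lit 101580800)) (I.mix (nat_lit 144228352) (nat_lit 126533632)))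
  false (nat_lit 55606808)
def b4_3 : Bx := Bx.mk (St.mk (I.neg (nat_lit 35913728) (nat_lit 117211136)) (I.pos (nat_lit 12386304) (nat_lit 101187584)) (I.mix (nat_lit 56803328) (nat_lit 22511616)) (I.pos (nat_lit 269991936) (nat_lit 324108288)) (I.mix (nat_lit 65159168) (nat_lit 91013120)) (I.mix (nat_lit 83230720) (nat_lit 76922880)) (I.mix (nat_lit 67321856) (nat_lit 63864832)))
  true (nat_lit 0)
def b4_4 : Bx := Bx.mk (St.mk (I.mix (nat_lit 67616768) (nat_lit 8716288)) (I.mix (nat_lit 12206080) (nat_lit 94978048)) (I.neg (nat_lit 17039360) (nat_lit 38879232)) (I.pos (nat_lit 267616256) (nat_lit 293339136)) (I.mix (nat_lit 47857664) (nat_lit 82214912)) (I.mix (nat_lit 95420416) (nat_lit 59604992)) (I.mix (nat_lit 31096832) (nat_lit 24444928)))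
  true (nat_lit 0)
def b4_5 : Bx := Bx.mk (St.mk (I.mix (nat_lit 8716288) (nat_lit 67616768)) (I.mix (nat_lit 94978048) (nat_lit 12206080)) (I.neg (nat_lit 17039360) (nat_lit 38879232)) (I.pos (nat_lit 267616256) (nat_lit 293339136)) (I.mix (nat_lit 82214912) (nat_lit 47857664)) (I.mix (nat_lit 59604992) (nat_lit 95420416)) (I.mix (nat_lit 31096832) (nat_lit 24444928)))
  false (nat_lit 0)
def b4_6 : Bx := Bx.mk (St.mk (I.pos (nat_lit 97861632) (nat_lit 117178368)) (I.neg (nat_lit 16891904) (nat_lit 45219840)) (I.mix (nat_lit 4489216) (nat_lit 23347200)) (I.pos (nat_lit 305250304) (nat_lit 324124672)) (I.mix (nat_lit 22413312) (nat_lit 29229056)) (I.mix (nat_lit 20152320) (nat_lit 25673728)) (I.mix (nat_lit 16285696) (nat_lit 22462464)))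
  false (nat_lit 0)
def t4 : BTr := (BTr.n (BTr.n (BTr.b b4_0) (BTr.n (BTr.b b4_1) (BTr.b b4_2))) (BTr.n (BTr.n (BTr.b b4_3) (BTr.b b4_4)) (BTr.n (BTr.b b4_5) (BTr.b b4_6))))
namespace T4
def l0 : Tr := Tr.L (Pth.l (Pth.l Pth.z))
def l1 : Tr := Tr.L (Pth.l (Pth.r (Pth.l Pth.z)))
def l2 : Tr := Tr.L (Pth.l (Pth.r (Pth.r Pth.z)))
def l3 : Tr := Tr.L (Pth.r (Pth.l (Pth.l Pth.z)))
def l4 : Tr := Tr.L (Pth.r (Pth.l (Pth.r Pth.z)))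
def l5 : Tr := Tr.L (Pth.r (Pth.r (Pth.l Pth.z)))
def l6 : Tr := Tr.L (Pth.r (Pth.r (Pth.r Pth.z)))
end T4
def b5_0 : Bx := Bx.mk (St.mk (I.pos (nat_lit 147537920) (nat_lit 279871488)) (I.mix (nat_lit 22757376) (nat_lit 68157440)) (I.mix (nat_lit 24821760) (nat_lit 136544256)) (I.pos (nat_lit 238567424) (nat_lit 435437568)) (I.mix (nat_lit 110362624) (nat_lit 82935808)) (I.mix (nat_lit 127680512) (nat_lit 81395712)) (I.mix (nat_lit 181780480) (nat_lit 93732864)))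
  false (nat_lit 62759857)
def b5_1 : Bx := Bx.mk (St.mk (I.pos (nat_lit 87801856) (nat_lit 145063936)) (I.neg (nat_lit 4849664) (nat_lit 78102528)) (I.mix (nat_lit 39157760) (nat_lit 39583744)) (I.pos (nat_lit 177061888) (nat_lit 220446720)) (I.mix (nat_lit 64077824) (nat_lit 56180736)) (I.mix (nat_lit 48611328) (nat_lit 64356352)) (I.mix (nat_lit 44826624) (nat_lit 56262656)))
  false (nat_lit 0)
def b5_2 : Bx := Bx.mk (St.mk (I.mix (nat_lit 29523968) (nat_lit 1703936)) (I.mix (nat_lit 45105152) (nat_lit 10895360)) (I.pos (nat_lit 17825792) (nat_lit 25919488)) (I.pos (nat_lit 140312576) (nat_lit 148504576)) (I.mix (nat_lit 27656192) (nat_lit 44171264)) (I.mix (nat_lit 27541504) (nat_lit 40976384)) (I.mix (nat_lit 6897664) (nat_lit 8667136)))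
  true (nat_lit 0)
def b5_3 : Bx := Bx.mk (St.mk (I.pos (nat_lit 136773632) (nat_lit 192266240)) (I.mix (nat_lit 41943040) (nat_lit 73809920)) (I.pos (nat_lit 1097728) (nat_lit 139739136)) (I.pos (nat_lit 212959232) (nat_lit 281346048)) (I.mix (nat_lit 143245312) (nat_lit 58982400)) (I.mix (nat_lit 150667264) (nat_lit 77119488)) (I.mix (nat_lit 168886272) (nat_lit 82313216)))
  false (nat_lit 19618579)
def b5_4 : Bx := Bx.mk (St.mk (I.mix (nat_lit 1490944) (nat_lit 29523968)) (I.mix (nat_lit 10698752) (nat_lit 45105152)) (I.pos (nat_lit 17842176) (nat_lit 25919488)) (I.pos (nat_lit 140279808) (nat_lit 148504576)) (I.mix (nat_lit 44171264) (nat_lit 27656192)) (I.mix (nat_lit 40976384) (nat_lit 27541504)) (I.mix (nat_lit 6897664) (nat_lit 8667136)))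
  false (nat_lit 0)
def b5_5 : Bx := Bx.mk (St.mk (I.pos (nat_lit 124780544) (nat_lit 143638528)) (I.neg (nat_lit 5734400) (nat_lit 34799616)) (I.pos (nat_lit 6897664) (nat_lit 38076416)) (I.pos (nat_lit 200687616) (nat_lit 218955776)) (I.mix (nat_lit 38895616) (nat_lit 26951680)) (I.mix (nat_lit 25722880) (nat_lit 35307520)) (I.mix (nat_lit 29605888) (nat_lit 31342592)))
  false (nat_lit 0)
def b5_6 : Bx := Bx.mk (St.mk (I.mix (nat_lit 9764864) (nat_lit 753664)) (I.mix (nat_lit 7684096) (nat_lit 10125312)) (I.pos (nat_lit 18530304) (nat_lit 22822912)) (I.pos (nat_lit 140132352) (nat_lit 144310272)) (I.mix (nat_lit 22167552) (nat_lit 14958592)) (I.mix (nat_lit 15433728) (nat_lit 18513920)) (I.mix (nat_lit 2359296) (nat_lit 1425408)))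
  true (nat_lit 0)
def b5_7 : Bx := Bx.mk (St.mk (I.pos (nat_lit 14729216) (nat_lit 68550656)) (I.mix (nat_lit 8880128) (nat_lit 50053120)) (I.pos (nat_lit 1687552) (nat_lit 30900224)) (I.pos (nat_lit 139018240) (nat_lit 161660928)) (I.mix (nat_lit 42057728) (nat_lit 41828352)) (I.mix (nat_lit 58507264) (nat_lit 30654464)) (I.mix (nat_lit 30277632) (nat_lit 20316160)))
  false (nat_lit 0)
def b5_8 : Bx := Bx.mk (St.mk (I.pos (nat_lit 56377344) (nat_lit 112558080)) (I.mix (nat_lit 73498624) (nat_lit 9535488)) (I.mix (nat_lit 30932992) (nat_lit 13172736)) (I.pos (nat_lit 154238976) (nat_lit 190808064)) (I.mix (nat_lit 65650688) (nat_lit 37928960)) (I.mix (nat_lit 41779200) (nat_lit 83394560)) (I.mix (nat_lit 28491776) (nat_lit 46972928)))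
  false (nat_lit 0)
def b5_9 : Bx := Bx.mk (St.mk (I.neg (nat_lit 14729216) (nat_lit 68550656)) (I.mix (nat_lit 50053120) (nat_lit 8880128)) (I.pos (nat_lit 1687552) (nat_lit 30900224)) (I.pos (nat_lit 139001856) (nat_lit 161660928)) (I.mix (nat_lit 41828352) (nat_lit 42057728)) (I.mix (nat_lit 30654464) (nat_lit 58507264)) (I.mix (nat_lit 30277632) (nat_lit 20316160)))
  true (nat_lit 0)
def t5 : BTr := (BTr.n (BTr.n (BTr.n (BTr.b b5_0) (BTr.b b5_1)) (BTr.n (BTr.b b5_2) (BTr.n (BTr.b b5_3) (BTr.b b5_4)))) (BTr.n (BTr.n (BTr.b b5_5) (BTr.b b5_6)) (BTr.n (BTr.b b5_7) (BTr.n (BTr.b b5_8) (BTr.b b5_9)))))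
namespace T5
def l0 : Tr := Tr.L (Pth.l (Pth.l (Pth.l Pth.z)))
def l1 : Tr := Tr.L (Pth.l (Pth.l (Pth.r Pth.z)))
def l2 : Tr := Tr.L (Pth.l (Pth.r (Pth.l Pth.z)))
def l3 : Tr := Tr.L (Pth.l (Pth.r (Pth.r (Pth.l Pth.z))))
def l4 : Tr := Tr.L (Pth.l (Pth.r (Pth.r (Pth.r Pth.z))))
def l5 : Tr := Tr.L (Pth.r (Pth.l (Pth.l Pth.z)))
def l6 : Tr := Tr.L (Pth.r (Pth.l (Pth.r Pth.z)))
def l7 : Tr := Tr.L (Pth.r (Pth.r (Pth.l Pth.z)))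
def l8 : Tr := Tr.L (Pth.r (Pth.r (Pth.r (Pth.l Pth.z))))
def l9 : Tr := Tr.L (Pth.r (Pth.r (Pth.r (Pth.r Pth.z))))
end T5
theorem bx0_0 : BoxOK sI cl4 cl5 cl9 t2 t4 b0_0 :=
  box_mk (TrL.c (I.pos (nat_lit 0) (nat_lit 0)) (xa (xb T2.l0 (xa T2.l0 T2.l0)) (xb T2.l0 (xa T2.l0 (xb T2.l0 T2.l0))))
  (TrL.c (I.pos (nat_lit 0) (nat_lit 0)) T4.l1
  (TrL.c (I.pos (nat_lit 0) (nat_lit 0)) (xa T2.l1 T2.l1)
  (TrL.c (I.pos (nat_lit 0) (nat_lit 0)) (xa T4.l2 (xb (xa T4.l2 (xb T4.l2 T4.l2)) (xs (xa T4.l2 T4.l2) (xa T4.l2 (xb T4.l2 (xs T4.l2 (xc T4.l2 T4.l2)))))))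
  (TrL.c (I.pos (nat_lit 0) (nat_lit 0)) (xa T2.l2 T2.l2)
  (TrL.c (I.pos (nat_lit 0) (nat_lit 0)) T4.l3
  TrL.n)))))) (by decide +kernel)
theorem bx0_1 : BoxOK sI cl4 cl5 cl9 t2 t4 b0_1 :=
  box_mk (TrL.c (I.pos (nat_lit 0) (nat_lit 0)) T2.l0
  (TrL.c (I.pos (nat_lit 0) (nat_lit 0)) T4.l1
  (TrL.c (I.pos (nat_lit 0) (nat_lit 0)) T2.l1
  (TrL.c (I.pos (nat_lit 0) (nat_lit 0)) T4.l2
  (TrL.c (I.pos (nat_lit 0) (nat_lit 0)) T2.l2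
  (TrL.c (I.pos (nat_lit 0) (nat_lit 0)) T4.l3
  TrL.n)))))) (by decide +kernel)
theorem bx0_2 : BoxOK sI cl4 cl5 cl9 t2 t4 b0_2 :=
  box_mk (TrL.c (I.pos (nat_lit 0) (nat_lit 0)) T2.l0
  (TrL.c (I.pos (nat_lit 0) (nat_lit 0)) T4.l1
  (TrL.c (I.pos (nat_lit 0) (nat_lit 0)) T2.l1
  (TrL.c (I.pos (nat_lit 0) (nat_lit 0)) T4.l2
  (TrL.c (I.pos (nat_lit 0) (nat_lit 0)) T2.l2
  (TrL.c (I.pos (nat_lit 0) (nat_lit 0)) T4.l3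
  TrL.n)))))) (by decide +kernel)
theorem bx0_3 : BoxOK sI cl4 cl5 cl9 t2 t4 b0_3 :=
  box_mk (TrL.c (I.pos (nat_lit 0) (nat_lit 0)) T4.l1
  (TrL.c (I.pos (nat_lit 0) (nat_lit 0)) T2.l1
  TrL.n)) (by decide +kernel)
theorem bx0_4 : BoxOK sI cl4 cl5 cl9 t2 t4 b0_4 :=
  box_mk (TrL.c (I.pos (nat_lit 0) (nat_lit 0)) T2.l0
  (TrL.c (I.pos (nat_lit 0) (nat_lit 0)) T4.l1
  (TrL.c (I.pos (nat_lit 0) (nat_lit 0)) T2.l1
  (TrL.c (I.pos (nat_lit 0) (nat_lit 0)) T4.l2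
  (TrL.c (I.pos (nat_lit 0) (nat_lit 0)) T2.l2
  (TrL.c (I.pos (nat_lit 0) (nat_lit 0)) T4.l3
  TrL.n)))))) (by decide +kernel)
theorem bx0_5 : BoxOK sI cl4 cl5 cl9 t2 t4 b0_5 :=
  box_mk (TrL.c (I.pos (nat_lit 0) (nat_lit 0)) (xa (xb (xa (xs T2.l0 T2.l0) T2.l0) T2.l0) T2.l0)
  (TrL.c (I.pos (nat_lit 0) (nat_lit 0)) T4.l1
  (TrL.c (I.pos (nat_lit 0) (nat_lit 0)) T2.l1
  (TrL.c (I.pos (nat_lit 0) (nat_lit 0)) T4.l2
  (TrL.c (I.pos (nat_lit 0) (nat_lit 0)) T2.l2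
  (TrL.c (I.pos (nat_lit 0) (nat_lit 0)) T4.l3
  TrL.n)))))) (by decide +kernel)
theorem bx0_6 : BoxOK sI cl4 cl5 cl9 t2 t4 b0_6 :=
  box_mk (TrL.c (I.pos (nat_lit 0) (nat_lit 0)) T4.l6
  (TrL.c (I.pos (nat_lit 0) (nat_lit 0)) T2.l6
  TrL.n)) (by decide +kernel)
theorem bx0_7 : BoxOK sI cl4 cl5 cl9 t2 t4 b0_7 :=
  box_mk (TrL.c (I.pos (nat_lit 0) (nat_lit 0)) (xb T2.l0 (xa (xb T2.l0 T2.l0) T2.l0))
  (TrL.c (I.pos (nat_lit 0) (nat_lit 0)) T4.l6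
  (TrL.c (I.pos (nat_lit 0) (nat_lit 0)) T2.l6
  (TrL.c (I.pos (nat_lit 0) (nat_lit 0)) T4.l2
  (TrL.c (I.pos (nat_lit 0) (nat_lit 0)) T2.l2
  (TrL.c (I.pos (nat_lit 0) (nat_lit 0)) T4.l3
  TrL.n)))))) (by decide +kernel)
theorem bx0_8 : BoxOK sI cl4 cl5 cl9 t2 t4 b0_8 :=
  box_mk (TrL.c (I.pos (nat_lit 0) (nat_lit 0)) (xb (xa (xb T2.l0 T2.l0) T2.l0) (xa (xb T2.l0 (xa T2.l0 T2.l0)) T2.l0))
  (TrL.c (I.pos (nat_lit 0) (nat_lit 0)) T4.l1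
  (TrL.c (I.pos (nat_lit 0) (nat_lit 0)) T2.l1
  (TrL.c (I.pos (nat_lit 0) (nat_lit 0)) (xb (xa T4.l2 (xb T4.l2 T4.l2)) (xa T4.l2 (xs T4.l2 T4.l2)))
  (TrL.c (I.pos (nat_lit 0) (nat_lit 0)) T2.l2
  (TrL.c (I.pos (nat_lit 0) (nat_lit 0)) T4.l3
  TrL.n)))))) (by decide +kernel)
theorem sv0 : StarV sI cl4 cl5 cl9 t2 t4 t0 :=
  (bt_n (bt_n (bt_n (bt_b bx0_0) (bt_b bx0_1)) (bt_n (bt_b bx0_2) (bt_b bx0_3))) (bt_n (bt_n (bt_b bx0_4) (bt_b bx0_5)) (bt_n (bt_b bx0_6) (bt_n (bt_b bx0_7) (bt_b bx0_8)))))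
def S0 : StarD := StarD.mk cl4 cl5 cl9 2 4 t0
theorem bx1_0 : BoxOK sI cl4 cl9 cl5 t4 t2 b1_0 :=
  box_mk (TrL.c (I.pos (nat_lit 0) (nat_lit 0)) (xa (xb T4.l0 (xa (xs T4.l0 T4.l0) T4.l0)) (xb (xa T4.l0 T4.l0) (xa T4.l0 (xs T4.l0 T4.l0))))
  (TrL.c (I.pos (nat_lit 0) (nat_lit 0)) (xa T2.l3 (xb T2.l3 T2.l3))
  (TrL.c (I.pos (nat_lit 0) (nat_lit 0)) (xa T4.l4 T4.l4)
  (TrL.c (I.pos (nat_lit 0) (nat_lit 0)) (xa T2.l4 (xb (xa T2.l4 (xb (xs T2.l4 T2.l0) T2.l4)) (xa T2.l4 (xs T2.l4 (xb T2.l4 (xc T2.l4 T2.l4))))))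
  (TrL.c (I.pos (nat_lit 0) (nat_lit 0)) (xa T4.l5 T4.l5)
  (TrL.c (I.pos (nat_lit 0) (nat_lit 0)) (xa T2.l5 (xb T2.l5 T2.l5))
  TrL.n)))))) (by decide +kernel)
theorem bx1_1 : BoxOK sI cl4 cl9 cl5 t4 t2 b1_1 :=
  box_mk (TrL.c (I.pos (nat_lit 0) (nat_lit 0)) T4.l0
  (TrL.c (I.pos (nat_lit 0) (nat_lit 0)) T2.l3
  (TrL.c (I.pos (nat_lit 0) (nat_lit 0)) T4.l4
  (TrL.c (I.pos (nat_lit 0) (nat_lit 0)) T2.l4
  (TrL.c (I.pos (nat_lit 0) (nat_lit 0)) T4.l5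
  (TrL.c (I.pos (nat_lit 0) (nat_lit 0)) T2.l5
  TrL.n)))))) (by decide +kernel)
theorem bx1_2 : BoxOK sI cl4 cl9 cl5 t4 t2 b1_2 :=
  box_mk (TrL.c (I.pos (nat_lit 0) (nat_lit 0)) T4.l0
  (TrL.c (I.pos (nat_lit 0) (nat_lit 0)) T2.l3
  (TrL.c (I.pos (nat_lit 0) (nat_lit 0)) T4.l4
  (TrL.c (I.pos (nat_lit 0) (nat_lit 0)) T2.l4
  (TrL.c (I.pos (nat_lit 0) (nat_lit 0)) T4.l5
  (TrL.c (I.pos (nat_lit 0) (nat_lit 0)) T2.l5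
  TrL.n)))))) (by decide +kernel)
theorem bx1_3 : BoxOK sI cl4 cl9 cl5 t4 t2 b1_3 :=
  box_mk (TrL.c (I.pos (nat_lit 0) (nat_lit 0)) (xa (xa T4.l0 T4.l0) T4.l0)
  (TrL.c (I.pos (nat_lit 0) (nat_lit 0)) T2.l3
  (TrL.c (I.pos (nat_lit 0) (nat_lit 0)) T4.l4
  (TrL.c (I.pos (nat_lit 0) (nat_lit 0)) T2.l4
  (TrL.c (I.pos (nat_lit 0) (nat_lit 0)) T4.l5
  (TrL.c (I.pos (nat_lit 0) (nat_lit 0)) T2.l5
  TrL.n)))))) (by decide +kernel)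
theorem bx1_4 : BoxOK sI cl4 cl9 cl5 t4 t2 b1_4 :=
  box_mk (TrL.c (I.pos (nat_lit 0) (nat_lit 0)) T4.l0
  (TrL.c (I.pos (nat_lit 0) (nat_lit 0)) T2.l3
  (TrL.c (I.pos (nat_lit 0) (nat_lit 0)) T4.l4
  (TrL.c (I.pos (nat_lit 0) (nat_lit 0)) T2.l4
  (TrL.c (I.pos (nat_lit 0) (nat_lit 0)) T4.l5
  (TrL.c (I.pos (nat_lit 0) (nat_lit 0)) T2.l5
  TrL.n)))))) (by decide +kernel)
theorem bx1_5 : BoxOK sI cl4 cl9 cl5 t4 t2 b1_5 :=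
  box_mk (TrL.c (I.pos (nat_lit 0) (nat_lit 0)) T4.l0
  (TrL.c (I.pos (nat_lit 0) (nat_lit 0)) T2.l3
  (TrL.c (I.pos (nat_lit 0) (nat_lit 0)) T4.l4
  (TrL.c (I.pos (nat_lit 0) (nat_lit 0)) T2.l4
  (TrL.c (I.pos (nat_lit 0) (nat_lit 0)) T4.l5
  (TrL.c (I.pos (nat_lit 0) (nat_lit 0)) T2.l5
  TrL.n)))))) (by decide +kernel)
theorem bx1_6 : BoxOK sI cl4 cl9 cl5 t4 t2 b1_6 :=
  box_mk (TrL.c (I.pos (nat_lit 0) (nat_lit 0)) T4.l0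
  (TrL.c (I.pos (nat_lit 0) (nat_lit 0)) T2.l3
  (TrL.c (I.pos (nat_lit 0) (nat_lit 0)) T4.l4
  (TrL.c (I.pos (nat_lit 0) (nat_lit 0)) T2.l4
  (TrL.c (I.pos (nat_lit 0) (nat_lit 0)) T4.l5
  (TrL.c (I.pos (nat_lit 0) (nat_lit 0)) T2.l5
  TrL.n)))))) (by decide +kernel)
theorem bx1_7 : BoxOK sI cl4 cl9 cl5 t4 t2 b1_7 :=
  box_mk (TrL.c (I.pos (nat_lit 0) (nat_lit 0)) (xa (xa (xb (xa T4.l0 T4.l0) T4.l0) T4.l0) T4.l0)
  (TrL.c (I.pos (nat_lit 0) (nat_lit 0)) T2.l3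
  (TrL.c (I.pos (nat_lit 0) (nat_lit 0)) T4.l4
  (TrL.c (I.pos (nat_lit 0) (nat_lit 0)) T2.l4
  (TrL.c (I.pos (nat_lit 0) (nat_lit 0)) T4.l5
  (TrL.c (I.pos (nat_lit 0) (nat_lit 0)) T2.l5
  TrL.n)))))) (by decide +kernel)
theorem bx1_8 : BoxOK sI cl4 cl9 cl5 t4 t2 b1_8 :=
  box_mk (TrL.c (I.pos (nat_lit 0) (nat_lit 0)) (xb (xa T4.l0 T4.l0) (xa (xs T4.l0 (xb T4.l0 (xa T4.l0 T4.l0))) (xs T4.l0 (xb T4.l0 T4.l0))))
  (TrL.c (I.pos (nat_lit 0) (nat_lit 0)) (xb T2.l3 T2.l3)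
  (TrL.c (I.pos (nat_lit 0) (nat_lit 0)) T4.l4
  (TrL.c (I.pos (nat_lit 0) (nat_lit 0)) (xb (xa T2.l4 (xb T2.l4 T2.l4)) (xa T2.l4 (xb T2.l4 T2.l4)))
  (TrL.c (I.pos (nat_lit 0) (nat_lit 0)) T4.l5
  (TrL.c (I.pos (nat_lit 0) (nat_lit 0)) (xb T2.l5 T2.l5)
  TrL.n)))))) (by decide +kernel)
theorem bx1_9 : BoxOK sI cl4 cl9 cl5 t4 t2 b1_9 :=
  box_mk (TrL.c (I.pos (nat_lit 0) (nat_lit 0)) (xa (xa (xb T4.l0 (xa T4.l0 T4.l0)) T4.l0) T4.l0)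
  (TrL.c (I.pos (nat_lit 0) (nat_lit 0)) (xa T2.l3 T2.l3)
  (TrL.c (I.pos (nat_lit 0) (nat_lit 0)) T4.l4
  (TrL.c (I.pos (nat_lit 0) (nat_lit 0)) (xa T2.l4 T2.l4)
  (TrL.c (I.pos (nat_lit 0) (nat_lit 0)) T4.l5
  (TrL.c (I.pos (nat_lit 0) (nat_lit 0)) (xa T2.l5 T2.l5)
  TrL.n)))))) (by decide +kernel)
theorem bx1_10 : BoxOK sI cl4 cl9 cl5 t4 t2 b1_10 :=
  box_mk (TrL.c (I.pos (nat_lit 0) (nat_lit 0)) T4.l0
  (TrL.c (I.pos (nat_lit 0) (nat_lit 0)) T2.l3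
  (TrL.c (I.pos (nat_lit 0) (nat_lit 0)) T4.l4
  (TrL.c (I.pos (nat_lit 0) (nat_lit 0)) T2.l4
  (TrL.c (I.pos (nat_lit 0) (nat_lit 0)) T4.l5
  (TrL.c (I.pos (nat_lit 0) (nat_lit 0)) T2.l5
  TrL.n)))))) (by decide +kernel)
theorem bx1_11 : BoxOK sI cl4 cl9 cl5 t4 t2 b1_11 :=
  box_mk (TrL.c (I.pos (nat_lit 0) (nat_lit 0)) T4.l0
  (TrL.c (I.pos (nat_lit 0) (nat_lit 0)) T2.l3
  (TrL.c (I.pos (nat_lit 0) (nat_lit 0)) T4.l4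
  (TrL.c (I.pos (nat_lit 0) (nat_lit 0)) T2.l4
  (TrL.c (I.pos (nat_lit 0) (nat_lit 0)) T4.l5
  (TrL.c (I.pos (nat_lit 0) (nat_lit 0)) T2.l5
  TrL.n)))))) (by decide +kernel)
theorem sv1 : StarV sI cl4 cl9 cl5 t4 t2 t1 :=
  (bt_n (bt_n (bt_n (bt_b bx1_0) (bt_n (bt_b bx1_1) (bt_b bx1_2))) (bt_n (bt_b bx1_3) (bt_n (bt_b bx1_4) (bt_b bx1_5)))) (bt_n (bt_n (bt_b bx1_6) (bt_n (bt_b bx1_7) (bt_b bx1_8))) (bt_n (bt_b bx1_9) (bt_n (bt_b bx1_10) (bt_b bx1_11)))))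
def S1 : StarD := StarD.mk cl4 cl9 cl5 4 2 t1
theorem bx2_0 : BoxOK sI cl5 cl4 cl9 t0 t5 b2_0 :=
  box_mk (TrL.c (I.pos (nat_lit 0) (nat_lit 0)) (xa T0.l0 (xb T0.l0 (xa T0.l0 T0.l0)))
  (TrL.c (I.pos (nat_lit 0) (nat_lit 0)) T5.l1
  (TrL.c (I.pos (nat_lit 0) (nat_lit 0)) T0.l1
  (TrL.c (I.pos (nat_lit 0) (nat_lit 0)) T5.l2
  (TrL.c (I.pos (nat_lit 0) (nat_lit 0)) (xa T5.l3 (xb (xa T5.l3 (xs T5.l3 T5.l3)) (xs (xa T5.l3 (xb T5.l3 T5.l3)) (xa T5.l3 (xb T5.l3 T5.l3)))))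
  (TrL.c (I.pos (nat_lit 0) (nat_lit 0)) T0.l2
  (TrL.c (I.pos (nat_lit 0) (nat_lit 0)) T5.l4
  (TrL.c (I.pos (nat_lit 0) (nat_lit 0)) T0.l3
  TrL.n)))))))) (by decide +kernel)
theorem bx2_1 : BoxOK sI cl5 cl4 cl9 t0 t5 b2_1 :=
  box_mk (TrL.c (I.pos (nat_lit 0) (nat_lit 0)) T5.l1
  (TrL.c (I.pos (nat_lit 0) (nat_lit 0)) T0.l1
  (TrL.c (I.pos (nat_lit 0) (nat_lit 0)) T5.l2
  TrL.n))) (by decide +kernel)
theorem bx2_2 : BoxOK sI cl5 cl4 cl9 t0 t5 b2_2 :=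
  box_mk (TrL.c (I.pos (nat_lit 0) (nat_lit 0)) (xb (xa (xs (xb T0.l0 T0.l0) T0.l0) T0.l0) (xa T0.l0 T0.l0))
  (TrL.c (I.pos (nat_lit 0) (nat_lit 0)) T5.l1
  (TrL.c (I.pos (nat_lit 0) (nat_lit 0)) T0.l1
  (TrL.c (I.pos (nat_lit 0) (nat_lit 0)) T5.l2
  (TrL.c (I.pos (nat_lit 0) (nat_lit 0)) T5.l3
  (TrL.c (I.pos (nat_lit 0) (nat_lit 0)) T0.l2
  (TrL.c (I.pos (nat_lit 0) (nat_lit 0)) T5.l4
  (TrL.c (I.pos (nat_lit 0) (nat_lit 0)) T0.l3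
  TrL.n)))))))) (by decide +kernel)
theorem bx2_3 : BoxOK sI cl5 cl4 cl9 t0 t5 b2_3 :=
  box_mk (TrL.c (I.pos (nat_lit 0) (nat_lit 0)) (xa (xb (xa (xs (xb T0.l0 T0.l0) (xb T0.l0 T0.l0)) T0.l0) T0.l0) T0.l0)
  (TrL.c (I.pos (nat_lit 0) (nat_lit 0)) T5.l1
  (TrL.c (I.pos (nat_lit 0) (nat_lit 0)) T0.l1
  (TrL.c (I.pos (nat_lit 0) (nat_lit 0)) T5.l2
  (TrL.c (I.pos (nat_lit 0) (nat_lit 0)) T5.l3
  (TrL.c (I.pos (nat_lit 0) (nat_lit 0)) T0.l2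
  (TrL.c (I.pos (nat_lit 0) (nat_lit 0)) T5.l4
  (TrL.c (I.pos (nat_lit 0) (nat_lit 0)) T0.l3
  TrL.n)))))))) (by decide +kernel)
theorem bx2_4 : BoxOK sI cl5 cl4 cl9 t0 t5 b2_4 :=
  box_mk (TrL.c (I.pos (nat_lit 0) (nat_lit 0)) (xb (xa (xb T0.l0 T0.l0) T0.l0) (xa (xb T0.l0 (xa T0.l0 T0.l0)) T0.l0))
  (TrL.c (I.pos (nat_lit 0) (nat_lit 0)) T5.l1
  (TrL.c (I.pos (nat_lit 0) (nat_lit 0)) T0.l1
  (TrL.c (I.pos (nat_lit 0) (nat_lit 0)) T5.l2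
  (TrL.c (I.pos (nat_lit 0) (nat_lit 0)) (xb T5.l3 T5.l3)
  (TrL.c (I.pos (nat_lit 0) (nat_lit 0)) T0.l2
  (TrL.c (I.pos (nat_lit 0) (nat_lit 0)) T5.l4
  (TrL.c (I.pos (nat_lit 0) (nat_lit 0)) T0.l3
  TrL.n)))))))) (by decide +kernel)
theorem bx2_5 : BoxOK sI cl5 cl4 cl9 t0 t5 b2_5 :=
  box_mk (TrL.c (I.pos (nat_lit 0) (nat_lit 0)) T5.l1
  (TrL.c (I.pos (nat_lit 0) (nat_lit 0)) T0.l1
  (TrL.c (I.pos (nat_lit 0) (nat_lit 0)) T5.l2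
  TrL.n))) (by decide +kernel)
theorem bx2_6 : BoxOK sI cl5 cl4 cl9 t0 t5 b2_6 :=
  box_mk (TrL.c (I.pos (nat_lit 0) (nat_lit 0)) T5.l1
  (TrL.c (I.pos (nat_lit 0) (nat_lit 0)) T0.l4
  (TrL.c (I.pos (nat_lit 0) (nat_lit 0)) T5.l2
  TrL.n))) (by decide +kernel)
theorem sv2 : StarV sI cl5 cl4 cl9 t0 t5 t2 :=
  (bt_n (bt_n (bt_b bx2_0) (bt_n (bt_b bx2_1) (bt_b bx2_2))) (bt_n (bt_n (bt_b bx2_3) (bt_b bx2_4)) (bt_n (bt_b bx2_5) (bt_b bx2_6))))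
def S2 : StarD := StarD.mk cl5 cl4 cl9 0 5 t2
theorem bx3_0 : BoxOK sI cl5 cl9 cl4 t5 t0 b3_0 :=
  box_mk (TrL.c (I.pos (nat_lit 0) (nat_lit 0)) (xa (xa T5.l0 T5.l0) (xa (xs T5.l0 T5.l0) (xs T5.l0 (xb T5.l0 T5.l0))))
  (TrL.c (I.pos (nat_lit 0) (nat_lit 0)) (xa T0.l5 T0.l5)
  (TrL.c (I.pos (nat_lit 0) (nat_lit 0)) T5.l7
  (TrL.c (I.pos (nat_lit 0) (nat_lit 0)) T0.l6
  (TrL.c (I.pos (nat_lit 0) (nat_lit 0)) (xa T0.l8 (xa T0.l8 (xb T0.l8 T0.l8)))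
  (TrL.c (I.pos (nat_lit 0) (nat_lit 0)) T5.l8
  (TrL.c (I.pos (nat_lit 0) (nat_lit 0)) T0.l7
  (TrL.c (I.pos (nat_lit 0) (nat_lit 0)) T5.l9
  TrL.n)))))))) (by decide +kernel)
theorem bx3_1 : BoxOK sI cl5 cl9 cl4 t5 t0 b3_1 :=
  box_mk (TrL.c (I.pos (nat_lit 0) (nat_lit 0)) T5.l0
  (TrL.c (I.pos (nat_lit 0) (nat_lit 0)) T0.l5
  (TrL.c (I.pos (nat_lit 0) (nat_lit 0)) T5.l7
  (TrL.c (I.pos (nat_lit 0) (nat_lit 0)) T0.l6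
  (TrL.c (I.pos (nat_lit 0) (nat_lit 0)) T0.l8
  (TrL.c (I.pos (nat_lit 0) (nat_lit 0)) T5.l8
  (TrL.c (I.pos (nat_lit 0) (nat_lit 0)) T0.l7
  (TrL.c (I.pos (nat_lit 0) (nat_lit 0)) T5.l9
  TrL.n)))))))) (by decide +kernel)
theorem bx3_2 : BoxOK sI cl5 cl9 cl4 t5 t0 b3_2 :=
  box_mk (TrL.c (I.pos (nat_lit 0) (nat_lit 0)) (xa T5.l0 T5.l0)
  (TrL.c (I.pos (nat_lit 0) (nat_lit 0)) T0.l5
  (TrL.c (I.pos (nat_lit 0) (nat_lit 0)) T5.l7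
  (TrL.c (I.pos (nat_lit 0) (nat_lit 0)) T0.l6
  (TrL.c (I.pos (nat_lit 0) (nat_lit 0)) T0.l8
  (TrL.c (I.pos (nat_lit 0) (nat_lit 0)) T5.l8
  (TrL.c (I.pos (nat_lit 0) (nat_lit 0)) T0.l7
  (TrL.c (I.pos (nat_lit 0) (nat_lit 0)) T5.l9
  TrL.n)))))))) (by decide +kernel)
theorem bx3_3 : BoxOK sI cl5 cl9 cl4 t5 t0 b3_3 :=
  box_mk (TrL.c (I.pos (nat_lit 0) (nat_lit 0)) (xb (xa (xb T5.l0 T5.l0) (xs T5.l0 T5.l0)) (xa (xs T5.l0 (xb T5.l0 (xa T5.l0 T5.l0))) (xs T5.l0 (xb T5.l0 T5.l0))))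
  (TrL.c (I.pos (nat_lit 0) (nat_lit 0)) T0.l5
  (TrL.c (I.pos (nat_lit 0) (nat_lit 0)) T5.l7
  (TrL.c (I.pos (nat_lit 0) (nat_lit 0)) T0.l6
  (TrL.c (I.pos (nat_lit 0) (nat_lit 0)) (xb (xa T0.l8 T0.l8) (xa T0.l8 T0.l8))
  (TrL.c (I.pos (nat_lit 0) (nat_lit 0)) T5.l8
  (TrL.c (I.pos (nat_lit 0) (nat_lit 0)) T0.l7
  (TrL.c (I.pos (nat_lit 0) (nat_lit 0)) T5.l9
  TrL.n)))))))) (by decide +kernel)
theorem bx3_4 : BoxOK sI cl5 cl9 cl4 t5 t0 b3_4 :=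
  box_mk (TrL.c (I.pos (nat_lit 0) (nat_lit 0)) (xa (xa (xb T5.l0 T5.l0) T5.l0) T5.l0)
  (TrL.c (I.pos (nat_lit 0) (nat_lit 0)) (xa T0.l5 T0.l5)
  (TrL.c (I.pos (nat_lit 0) (nat_lit 0)) T5.l7
  (TrL.c (I.pos (nat_lit 0) (nat_lit 0)) T0.l6
  (TrL.c (I.pos (nat_lit 0) (nat_lit 0)) (xa T0.l8 T0.l8)
  (TrL.c (I.pos (nat_lit 0) (nat_lit 0)) T5.l8
  (TrL.c (I.pos (nat_lit 0) (nat_lit 0)) T0.l7
  (TrL.c (I.pos (nat_lit 0) (nat_lit 0)) T5.l9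
  TrL.n)))))))) (by decide +kernel)
theorem bx3_5 : BoxOK sI cl5 cl9 cl4 t5 t0 b3_5 :=
  box_mk (TrL.c (I.pos (nat_lit 0) (nat_lit 0)) T5.l0
  (TrL.c (I.pos (nat_lit 0) (nat_lit 0)) T0.l5
  (TrL.c (I.pos (nat_lit 0) (nat_lit 0)) T5.l7
  (TrL.c (I.pos (nat_lit 0) (nat_lit 0)) T0.l6
  (TrL.c (I.pos (nat_lit 0) (nat_lit 0)) T0.l8
  (TrL.c (I.pos (nat_lit 0) (nat_lit 0)) T5.l8
  (TrL.c (I.pos (nat_lit 0) (nat_lit 0)) T0.l7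
  (TrL.c (I.pos (nat_lit 0) (nat_lit 0)) T5.l9
  TrL.n)))))))) (by decide +kernel)
theorem bx3_6 : BoxOK sI cl5 cl9 cl4 t5 t0 b3_6 :=
  box_mk (TrL.c (I.pos (nat_lit 0) (nat_lit 0)) T5.l0
  (TrL.c (I.pos (nat_lit 0) (nat_lit 0)) T0.l5
  (TrL.c (I.pos (nat_lit 0) (nat_lit 0)) T5.l7
  (TrL.c (I.pos (nat_lit 0) (nat_lit 0)) T0.l6
  (TrL.c (I.pos (nat_lit 0) (nat_lit 0)) T0.l8
  (TrL.c (I.pos (nat_lit 0) (nat_lit 0)) T5.l8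
  (TrL.c (I.pos (nat_lit 0) (nat_lit 0)) T0.l7
  (TrL.c (I.pos (nat_lit 0) (nat_lit 0)) T5.l9
  TrL.n)))))))) (by decide +kernel)
theorem bx3_7 : BoxOK sI cl5 cl9 cl4 t5 t0 b3_7 :=
  box_mk (TrL.c (I.pos (nat_lit 0) (nat_lit 0)) (xa T5.l0 T5.l0)
  (TrL.c (I.pos (nat_lit 0) (nat_lit 0)) T0.l5
  (TrL.c (I.pos (nat_lit 0) (nat_lit 0)) T5.l7
  (TrL.c (I.pos (nat_lit 0) (nat_lit 0)) T0.l6
  (TrL.c (I.pos (nat_lit 0) (nat_lit 0)) T0.l8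
  (TrL.c (I.pos (nat_lit 0) (nat_lit 0)) T5.l8
  (TrL.c (I.pos (nat_lit 0) (nat_lit 0)) T0.l7
  (TrL.c (I.pos (nat_lit 0) (nat_lit 0)) T5.l9
  TrL.n)))))))) (by decide +kernel)
theorem bx3_8 : BoxOK sI cl5 cl9 cl4 t5 t0 b3_8 :=
  box_mk (TrL.c (I.pos (nat_lit 0) (nat_lit 0)) T5.l0
  (TrL.c (I.pos (nat_lit 0) (nat_lit 0)) T0.l5
  (TrL.c (I.pos (nat_lit 0) (nat_lit 0)) T5.l7
  (TrL.c (I.pos (nat_lit 0) (nat_lit 0)) T0.l6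
  (TrL.c (I.pos (nat_lit 0) (nat_lit 0)) T0.l8
  (TrL.c (I.pos (nat_lit 0) (nat_lit 0)) T5.l8
  (TrL.c (I.pos (nat_lit 0) (nat_lit 0)) T0.l7
  (TrL.c (I.pos (nat_lit 0) (nat_lit 0)) T5.l9
  TrL.n)))))))) (by decide +kernel)
theorem bx3_9 : BoxOK sI cl5 cl9 cl4 t5 t0 b3_9 :=
  box_mk (TrL.c (I.pos (nat_lit 0) (nat_lit 0)) (xa (xa T5.l0 T5.l0) T5.l0)
  (TrL.c (I.pos (nat_lit 0) (nat_lit 0)) T0.l5
  (TrL.c (I.pos (nat_lit 0) (nat_lit 0)) T5.l7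
  (TrL.c (I.pos (nat_lit 0) (nat_lit 0)) T0.l6
  (TrL.c (I.pos (nat_lit 0) (nat_lit 0)) T0.l8
  (TrL.c (I.pos (nat_lit 0) (nat_lit 0)) T5.l8
  (TrL.c (I.pos (nat_lit 0) (nat_lit 0)) T0.l7
  (TrL.c (I.pos (nat_lit 0) (nat_lit 0)) T5.l9
  TrL.n)))))))) (by decide +kernel)
theorem bx3_10 : BoxOK sI cl5 cl9 cl4 t5 t0 b3_10 :=
  box_mk (TrL.c (I.pos (nat_lit 0) (nat_lit 0)) T5.l0
  (TrL.c (I.pos (nat_lit 0) (nat_lit 0)) T0.l5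
  (TrL.c (I.pos (nat_lit 0) (nat_lit 0)) T5.l7
  (TrL.c (I.pos (nat_lit 0) (nat_lit 0)) T0.l6
  (TrL.c (I.pos (nat_lit 0) (nat_lit 0)) T0.l8
  (TrL.c (I.pos (nat_lit 0) (nat_lit 0)) T5.l8
  (TrL.c (I.pos (nat_lit 0) (nat_lit 0)) T0.l7
  (TrL.c (I.pos (nat_lit 0) (nat_lit 0)) T5.l9
  TrL.n)))))))) (by decide +kernel)
theorem bx3_11 : BoxOK sI cl5 cl9 cl4 t5 t0 b3_11 :=
  box_mk (TrL.c (I.pos (nat_lit 0) (nat_lit 0)) T5.l0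
  (TrL.c (I.pos (nat_lit 0) (nat_lit 0)) T0.l5
  (TrL.c (I.pos (nat_lit 0) (nat_lit 0)) T5.l7
  (TrL.c (I.pos (nat_lit 0) (nat_lit 0)) T0.l6
  (TrL.c (I.pos (nat_lit 0) (nat_lit 0)) T0.l8
  (TrL.c (I.pos (nat_lit 0) (nat_lit 0)) T5.l8
  (TrL.c (I.pos (nat_lit 0) (nat_lit 0)) T0.l7
  (TrL.c (I.pos (nat_lit 0) (nat_lit 0)) T5.l9
  TrL.n)))))))) (by decide +kernel)
theorem sv3 : StarV sI cl5 cl9 cl4 t5 t0 t3 :=
  (bt_n (bt_n (bt_n (bt_b bx3_0) (bt_n (bt_b bx3_1) (bt_b bx3_2))) (bt_n (bt_b bx3_3) (bt_n (bt_b bx3_4) (bt_b bx3_5)))) (bt_n (bt_n (bt_b bx3_6) (bt_n (bt_b bx3_7) (bt_b bx3_8))) (bt_n (bt_b bx3_9) (bt_n (bt_b bx3_10) (bt_b bx3_11)))))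
def S3 : StarD := StarD.mk cl5 cl9 cl4 5 0 t3
theorem bx4_0 : BoxOK sI cl9 cl4 cl5 t1 t3 b4_0 :=
  box_mk (TrL.c (I.pos (nat_lit 0) (nat_lit 0)) (xa (xa (xb T1.l0 (xs T1.l0 T1.l0)) (xb T1.l0 (xs T1.l0 T1.l0))) (xa (xb T1.l0 T1.l0) (xb T1.l0 T1.l0)))
  (TrL.c (I.pos (nat_lit 0) (nat_lit 0)) T3.l1
  (TrL.c (I.pos (nat_lit 0) (nat_lit 124588530)) (xR (xR T1.l1 T1.l1) (xR T1.l1 T1.l1))
  (TrL.c (I.pos (nat_lit 0) (nat_lit 96881482)) (xR T3.l2 (xR T3.l2 T3.l2))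
  (TrL.c (I.pos (nat_lit 0) (nat_lit 0)) (xa (xb (xa T3.l3 T3.l3) T3.l3) (xb (xa (xk T3.l3 T3.l3) (xk (xb T3.l3 T3.l3) (xb T3.l3 T3.l3))) (xk (xa T3.l3 (xs (xa T3.l3 (xk T3.l3 T3.l3)) (xb T3.l3 T3.l3))) (xa T3.l3 (xs (xa T3.l3 T3.l3) (xb T3.l3 T3.l3))))))
  (TrL.c (I.pos (nat_lit 0) (nat_lit 0)) T1.l2
  (TrL.c (I.mix (nat_lit 17240550) (nat_lit 96881482)) (xR T3.l4 (xR T3.l4 T3.l4))
  (TrL.c (I.mix (nat_lit 17240550) (nat_lit 71940500)) (xR T1.l3 T1.l3)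
  TrL.n)))))))) (by decide +kernel)
theorem bx4_1 : BoxOK sI cl9 cl4 cl5 t1 t3 b4_1 :=
  box_mk (TrL.c (I.pos (nat_lit 0) (nat_lit 0)) T1.l0
  (TrL.c (I.pos (nat_lit 0) (nat_lit 0)) T3.l1
  (TrL.c (I.pos (nat_lit 0) (nat_lit 124588530)) (xR T1.l1 T1.l1)
  (TrL.c (I.pos (nat_lit 0) (nat_lit 96881482)) T3.l2
  (TrL.c (I.pos (nat_lit 0) (nat_lit 0)) T3.l3
  (TrL.c (I.pos (nat_lit 0) (nat_lit 0)) T1.l2
  (TrL.c (I.mix (nat_lit 17240550) (nat_lit 96881482)) T3.l4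
  (TrL.c (I.mix (nat_lit 17240550) (nat_lit 71940500)) T1.l9
  TrL.n)))))))) (by decide +kernel)
theorem bx4_2 : BoxOK sI cl9 cl4 cl5 t1 t3 b4_2 :=
  box_mk (TrL.c (I.pos (nat_lit 0) (nat_lit 0)) (xa (xb (xb T1.l0 T1.l0) (xs T1.l0 (xb T1.l0 T1.l0))) (xb T1.l0 (xs T1.l0 T1.l0)))
  (TrL.c (I.pos (nat_lit 0) (nat_lit 0)) T3.l1
  (TrL.c (I.pos (nat_lit 0) (nat_lit 124588530)) (xR (xR T1.l1 T1.l1) (xR T1.l1 T1.l1))
  (TrL.c (I.pos (nat_lit 0) (nat_lit 96881482)) (xR T3.l2 T3.l2)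
  (TrL.c (I.pos (nat_lit 0) (nat_lit 0)) (xb T3.l3 T3.l3)
  (TrL.c (I.pos (nat_lit 0) (nat_lit 0)) T1.l2
  (TrL.c (I.mix (nat_lit 17240550) (nat_lit 96881482)) (xR T3.l4 T3.l4)
  (TrL.c (I.mix (nat_lit 17240550) (nat_lit 71940500)) T1.l3
  TrL.n)))))))) (by decide +kernel)
theorem bx4_3 : BoxOK sI cl9 cl4 cl5 t1 t3 b4_3 :=
  box_mk (TrL.c (I.pos (nat_lit 0) (nat_lit 0)) T3.l6
  (TrL.c (I.pos (nat_lit 0) (nat_lit 0)) T1.l1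
  (TrL.c (I.mix (nat_lit 17240550) (nat_lit 96881482)) (xR T3.l5 T3.l2)
  (TrL.c (I.mix (nat_lit 17240550) (nat_lit 71940500)) (xR T1.l4 T1.l1)
  TrL.n)))) (by decide +kernel)
theorem bx4_4 : BoxOK sI cl9 cl4 cl5 t1 t3 b4_4 :=
  box_mk (TrL.c (I.pos (nat_lit 0) (nat_lit 0)) T3.l6
  (TrL.c (I.pos (nat_lit 0) (nat_lit 0)) T1.l1
  (TrL.c (I.mix (nat_lit 17240550) (nat_lit 96881482)) (xR T3.l5 T3.l4)
  (TrL.c (I.mix (nat_lit 17240550) (nat_lit 71940500)) (xR T1.l4 T1.l1)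
  TrL.n)))) (by decide +kernel)
theorem bx4_5 : BoxOK sI cl9 cl4 cl5 t1 t3 b4_5 :=
  box_mk (TrL.c (I.pos (nat_lit 0) (nat_lit 0)) (xb (xa (xa (xb T1.l0 T1.l0) T1.l0) T1.l0) (xa T1.l0 T1.l0))
  (TrL.c (I.pos (nat_lit 0) (nat_lit 0)) T3.l6
  (TrL.c (I.pos (nat_lit 0) (nat_lit 124588530)) (xR T1.l1 (xR T1.l1 T1.l1))
  (TrL.c (I.pos (nat_lit 0) (nat_lit 96881482)) (xR T3.l2 T3.l2)
  (TrL.c (I.pos (nat_lit 0) (nat_lit 0)) T3.l3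
  (TrL.c (I.pos (nat_lit 0) (nat_lit 0)) T1.l2
  (TrL.c (I.mix (nat_lit 17240550) (nat_lit 96881482)) (xR T3.l4 T3.l4)
  (TrL.c (I.mix (nat_lit 17240550) (nat_lit 71940500)) (xR T1.l9 T1.l1)
  TrL.n)))))))) (by decide +kernel)
theorem bx4_6 : BoxOK sI cl9 cl4 cl5 t1 t3 b4_6 :=
  box_mk (TrL.c (I.pos (nat_lit 0) (nat_lit 0)) T1.l0
  (TrL.c (I.pos (nat_lit 0) (nat_lit 0)) T3.l1
  (TrL.c (I.pos (nat_lit 0) (nat_lit 124588530)) (xR T1.l1 T1.l1)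
  (TrL.c (I.pos (nat_lit 0) (nat_lit 96881482)) T3.l2
  (TrL.c (I.pos (nat_lit 0) (nat_lit 0)) T3.l3
  (TrL.c (I.pos (nat_lit 0) (nat_lit 0)) T1.l2
  (TrL.c (I.mix (nat_lit 17240550) (nat_lit 96881482)) T3.l4
  (TrL.c (I.mix (nat_lit 17240550) (nat_lit 71940500)) T1.l3
  TrL.n)))))))) (by decide +kernel)
theorem sv4 : StarV sI cl9 cl4 cl5 t1 t3 t4 :=
  (bt_n (bt_n (bt_b bx4_0) (bt_n (bt_b bx4_1) (bt_b bx4_2))) (bt_n (bt_n (bt_b bx4_3) (bt_b bx4_4)) (bt_n (bt_b bx4_5) (bt_b bx4_6))))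
def S4 : StarD := StarD.mk cl9 cl4 cl5 1 3 t4
theorem bx5_0 : BoxOK sI cl9 cl5 cl4 t3 t1 b5_0 :=
  box_mk (TrL.c (I.pos (nat_lit 0) (nat_lit 0)) (xa (xa (xb T3.l0 (xs T3.l0 T3.l0)) (xb T3.l0 (xs T3.l0 T3.l0))) (xa (xb T3.l0 (xs T3.l0 T3.l0)) (xs T3.l0 (xb T3.l0 T3.l0))))
  (TrL.c (I.pos (nat_lit 0) (nat_lit 0)) (xa T1.l6 T1.l6)
  (TrL.c (I.pos (nat_lit 0) (nat_lit 124588530)) (xR (xR T3.l7 T3.l7) (xR T3.l7 T3.l7))
  (TrL.c (I.pos (nat_lit 0) (nat_lit 96881482)) (xR T1.l7 (xR T1.l7 T1.l7))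
  (TrL.c (I.pos (nat_lit 0) (nat_lit 0)) (xa (xb (xa T1.l8 T1.l8) T1.l8) (xa (xb T1.l8 T1.l8) (xk (xb (xb T1.l8 T1.l8) (xs (xa T1.l8 T1.l8) (xa T1.l8 T1.l8))) (xb T1.l8 (xs (xa T1.l8 T1.l8) T1.l8)))))
  (TrL.c (I.pos (nat_lit 0) (nat_lit 0)) T3.l8
  (TrL.c (I.mix (nat_lit 17240550) (nat_lit 96881482)) (xR T1.l9 (xR T1.l9 T1.l9))
  (TrL.c (I.mix (nat_lit 17240550) (nat_lit 71940500)) (xR T3.l9 T3.l9)
  TrL.n)))))))) (by decide +kernel)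
theorem bx5_1 : BoxOK sI cl9 cl5 cl4 t3 t1 b5_1 :=
  box_mk (TrL.c (I.pos (nat_lit 0) (nat_lit 0)) T3.l0
  (TrL.c (I.pos (nat_lit 0) (nat_lit 0)) T1.l6
  (TrL.c (I.pos (nat_lit 0) (nat_lit 124588530)) (xR T3.l7 T3.l7)
  (TrL.c (I.pos (nat_lit 0) (nat_lit 96881482)) (xR T1.l7 T1.l7)
  (TrL.c (I.pos (nat_lit 0) (nat_lit 0)) T1.l8
  (TrL.c (I.pos (nat_lit 0) (nat_lit 0)) T3.l8
  (TrL.c (I.mix (nat_lit 17240550) (nat_lit 96881482)) (xR T1.l9 T1.l9)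
  (TrL.c (I.mix (nat_lit 17240550) (nat_lit 71940500)) T3.l4
  TrL.n)))))))) (by decide +kernel)
theorem bx5_2 : BoxOK sI cl9 cl5 cl4 t3 t1 b5_2 :=
  box_mk (TrL.c (I.pos (nat_lit 0) (nat_lit 0)) T1.l6
  (TrL.c (I.pos (nat_lit 0) (nat_lit 0)) T3.l7
  (TrL.c (I.mix (nat_lit 17240550) (nat_lit 96881482)) (xR T1.l11 T1.l11)
  (TrL.c (I.mix (nat_lit 17240550) (nat_lit 71940500)) T3.l5
  TrL.n)))) (by decide +kernel)
theorem bx5_3 : BoxOK sI cl9 cl5 cl4 t3 t1 b5_3 :=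
  box_mk (TrL.c (I.pos (nat_lit 0) (nat_lit 0)) (xb (xa (xb T3.l0 T3.l0) T3.l0) (xa (xs T3.l0 (xb T3.l0 (xa T3.l0 T3.l0))) (xs T3.l0 (xb T3.l0 T3.l0))))
  (TrL.c (I.pos (nat_lit 0) (nat_lit 0)) T1.l6
  (TrL.c (I.pos (nat_lit 0) (nat_lit 124588530)) (xR (xR T3.l7 T3.l7) (xR T3.l7 T3.l7))
  (TrL.c (I.pos (nat_lit 0) (nat_lit 96881482)) (xR T1.l7 T1.l7)
  (TrL.c (I.pos (nat_lit 0) (nat_lit 0)) (xb (xk T1.l8 T1.l8) T1.l8)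
  (TrL.c (I.pos (nat_lit 0) (nat_lit 0)) T3.l8
  (TrL.c (I.mix (nat_lit 17240550) (nat_lit 96881482)) (xR T1.l9 T1.l9)
  (TrL.c (I.mix (nat_lit 17240550) (nat_lit 71940500)) (xR T3.l9 T3.l9)
  TrL.n)))))))) (by decide +kernel)
theorem bx5_4 : BoxOK sI cl9 cl5 cl4 t3 t1 b5_4 :=
  box_mk (TrL.c (I.pos (nat_lit 0) (nat_lit 0)) T3.l0
  (TrL.c (I.pos (nat_lit 0) (nat_lit 0)) T1.l6
  (TrL.c (I.pos (nat_lit 0) (nat_lit 124588530)) (xR T3.l7 (xR T3.l7 T3.l7))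
  (TrL.c (I.pos (nat_lit 0) (nat_lit 96881482)) (xR T1.l7 T1.l11)
  (TrL.c (I.pos (nat_lit 0) (nat_lit 0)) T1.l8
  (TrL.c (I.pos (nat_lit 0) (nat_lit 0)) T3.l8
  (TrL.c (I.mix (nat_lit 17240550) (nat_lit 96881482)) (xR T1.l9 T1.l9)
  (TrL.c (I.mix (nat_lit 17240550) (nat_lit 71940500)) T3.l5
  TrL.n)))))))) (by decide +kernel)
theorem bx5_5 : BoxOK sI cl9 cl5 cl4 t3 t1 b5_5 :=
  box_mk (TrL.c (I.pos (nat_lit 0) (nat_lit 0)) T3.l0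
  (TrL.c (I.pos (nat_lit 0) (nat_lit 0)) T1.l6
  (TrL.c (I.pos (nat_lit 0) (nat_lit 124588530)) (xR T3.l7 T3.l7)
  (TrL.c (I.pos (nat_lit 0) (nat_lit 96881482)) T1.l7
  (TrL.c (I.pos (nat_lit 0) (nat_lit 0)) T1.l8
  (TrL.c (I.pos (nat_lit 0) (nat_lit 0)) T3.l8
  (TrL.c (I.mix (nat_lit 17240550) (nat_lit 96881482)) (xR T1.l9 T1.l9)
  (TrL.c (I.mix (nat_lit 17240550) (nat_lit 71940500)) T3.l9
  TrL.n)))))))) (by decide +kernel)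
theorem bx5_6 : BoxOK sI cl9 cl5 cl4 t3 t1 b5_6 :=
  box_mk (TrL.c (I.pos (nat_lit 0) (nat_lit 0)) T1.l6
  (TrL.c (I.pos (nat_lit 0) (nat_lit 0)) T3.l10
  (TrL.c (I.mix (nat_lit 17240550) (nat_lit 96881482)) (xR T1.l11 T1.l11)
  (TrL.c (I.mix (nat_lit 17240550) (nat_lit 71940500)) T3.l4
  TrL.n)))) (by decide +kernel)
theorem bx5_7 : BoxOK sI cl9 cl5 cl4 t3 t1 b5_7 :=
  box_mk (TrL.c (I.pos (nat_lit 0) (nat_lit 0)) T3.l0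
  (TrL.c (I.pos (nat_lit 0) (nat_lit 0)) T1.l6
  (TrL.c (I.pos (nat_lit 0) (nat_lit 124588530)) T3.l7
  (TrL.c (I.pos (nat_lit 0) (nat_lit 96881482)) T1.l7
  (TrL.c (I.pos (nat_lit 0) (nat_lit 0)) T1.l8
  (TrL.c (I.pos (nat_lit 0) (nat_lit 0)) T3.l8
  (TrL.c (I.mix (nat_lit 17240550) (nat_lit 96881482)) (xR T1.l9 T1.l9)
  (TrL.c (I.mix (nat_lit 17240550) (nat_lit 71940500)) T3.l9
  TrL.n)))))))) (by decide +kernel)
theorem bx5_8 : BoxOK sI cl9 cl5 cl4 t3 t1 b5_8 :=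
  box_mk (TrL.c (I.pos (nat_lit 0) (nat_lit 0)) (xb T3.l0 T3.l0)
  (TrL.c (I.pos (nat_lit 0) (nat_lit 0)) T1.l6
  (TrL.c (I.pos (nat_lit 0) (nat_lit 124588530)) (xR T3.l7 T3.l7)
  (TrL.c (I.pos (nat_lit 0) (nat_lit 96881482)) (xR T1.l7 T1.l7)
  (TrL.c (I.pos (nat_lit 0) (nat_lit 0)) T1.l8
  (TrL.c (I.pos (nat_lit 0) (nat_lit 0)) T3.l8
  (TrL.c (I.mix (nat_lit 17240550) (nat_lit 96881482)) (xR T1.l9 T1.l9)
  (TrL.c (I.mix (nat_lit 17240550) (nat_lit 71940500)) T3.l4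
  TrL.n)))))))) (by decide +kernel)
theorem bx5_9 : BoxOK sI cl9 cl5 cl4 t3 t1 b5_9 :=
  box_mk (TrL.c (I.pos (nat_lit 0) (nat_lit 0)) T1.l6
  (TrL.c (I.pos (nat_lit 0) (nat_lit 0)) T3.l7
  (TrL.c (I.mix (nat_lit 17240550) (nat_lit 96881482)) (xR T1.l11 T1.l7)
  (TrL.c (I.mix (nat_lit 17240550) (nat_lit 71940500)) (xR T3.l5 T3.l4)
  TrL.n)))) (by decide +kernel)
theorem sv5 : StarV sI cl9 cl5 cl4 t3 t1 t5 :=
  (bt_n (bt_n (bt_n (bt_b bx5_0) (bt_b bx5_1)) (bt_n (bt_b bx5_2) (bt_n (bt_b bx5_3) (bt_b bx5_4)))) (bt_n (bt_n (bt_b bx5_5) (bt_b bx5_6)) (bt_n (bt_b bx5_7) (bt_n (bt_b bx5_8) (bt_b bx5_9)))))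
def S5 : StarD := StarD.mk cl9 cl5 cl4 3 1 t5
def G : List StarD := [S0, S1, S2, S3, S4, S5]
theorem so0 : StarOK sI G S0 :=
  star_mk (by decide) (by decide) rfl rfl rfl rfl rfl rfl (rfl : _ = t2) (rfl : _ = t4)
  (st_mk (Pth.l (Pth.l (Pth.l Pth.z))) (nat_lit 246134242) (nat_lit 249460766) (by decide +kernel))
  (st_mk (Pth.l (Pth.l (Pth.l Pth.z))) (nat_lit 283587078) (nat_lit 288066111) (by decide +kernel))
  (st_mk (Pth.l (Pth.l (Pth.l Pth.z))) (nat_lit 327292380) (nat_lit 333362149) (by decide +kernel)) sv0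
theorem so1 : StarOK sI G S1 :=
  star_mk (by decide) (by decide) rfl rfl rfl rfl rfl rfl (rfl : _ = t4) (rfl : _ = t2)
  (st_mk (Pth.l (Pth.l (Pth.l Pth.z))) (nat_lit 117837033) (nat_lit 137792922) (by decide +kernel))
  (st_mk (Pth.l (Pth.l (Pth.l Pth.z))) (nat_lit 154706369) (nat_lit 175688959) (by decide +kernel))
  (st_mk (Pth.l (Pth.l (Pth.l Pth.z))) (nat_lit 196083538) (nat_lit 222313323) (by decide +kernel)) sv1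
theorem so2 : StarOK sI G S2 :=
  star_mk (by decide) (by decide) rfl rfl rfl rfl rfl rfl (rfl : _ = t0) (rfl : _ = t5)
  (st_mk (Pth.l (Pth.l Pth.z)) (nat_lit 374608997) (nat_lit 378600272) (by decide +kernel))
  (st_mk (Pth.l (Pth.l Pth.z)) (nat_lit 411476677) (nat_lit 416326119) (by decide +kernel))
  (st_mk (Pth.l (Pth.l Pth.z)) (nat_lit 454261175) (nat_lit 460221355) (by decide +kernel)) sv2
theorem so3 : StarOK sI G S3 :=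
  star_mk (by decide) (by decide) rfl rfl rfl rfl rfl rfl (rfl : _ = t5) (rfl : _ = t0)
  (st_mk (Pth.l (Pth.l (Pth.l Pth.z))) (nat_lit 116969161) (nat_lit 136275803) (by decide +kernel))
  (st_mk (Pth.l (Pth.l (Pth.l Pth.z))) (nat_lit 153199870) (nat_lit 173181503) (by decide +kernel))
  (st_mk (Pth.l (Pth.l (Pth.l Pth.z))) (nat_lit 195471320) (nat_lit 216412914) (by decide +kernel)) sv3
theorem so4 : StarOK sI G S4 :=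
  star_mk (by decide) (by decide) rfl rfl rfl rfl rfl rfl (rfl : _ = t1) (rfl : _ = t3)
  (st_mk (Pth.l (Pth.l Pth.z)) (nat_lit 366684352) (nat_lit 369941356) (by decide +kernel))
  (st_mk (Pth.l (Pth.l Pth.z)) (nat_lit 401960897) (nat_lit 405772499) (by decide +kernel))
  (st_mk (Pth.l (Pth.l Pth.z)) (nat_lit 442171580) (nat_lit 447763679) (by decide +kernel)) sv4
theorem so5 : StarOK sI G S5 :=
  star_mk (by decide) (by decide) rfl rfl rfl rfl rfl rfl (rfl : _ = t3) (rfl : _ = t1)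
  (st_mk (Pth.l (Pth.l (Pth.l Pth.z))) (nat_lit 239117972) (nat_lit 241182368) (by decide +kernel))
  (st_mk (Pth.l (Pth.l (Pth.l Pth.z))) (nat_lit 274348039) (nat_lit 276899976) (by decide +kernel))
  (st_mk (Pth.l (Pth.l (Pth.l Pth.z))) (nat_lit 315055585) (nat_lit 318257505) (by decide +kernel)) sv5
theorem ok : GroupOK (nat_lit 0) (nat_lit 91291648) G := grp_mk (allS_c so0 (allS_c so1 (allS_c so2 (allS_c so3 (allS_c so4 (allS_c so5 allS_n))))))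
theorem cov : GCov G cl4 cl5 cl9 := cov_mk
  ⟨0, by decide, rfl, rfl, rfl⟩ ⟨1, by decide, rfl, rfl, rfl⟩ ⟨2, by decide, rfl, rfl, rfl⟩ ⟨3, by decide, rfl, rfl, rfl⟩ ⟨4, by decide, rfl, rfl, rfl⟩ ⟨5, by decide, rfl, rfl, rfl⟩
end Q125_0

namespace Q125_1
def sI : I := I.pos (nat_lit 91226112) (nat_lit 150339584)
def b0_0 : Bx := Bx.mk (St.mk (I.pos (nat_lit 156434432) (nat_lit 233275392)) (I.mix (nat_lit 5177344) (nat_lit 86851584)) (I.mix (nat_lit 15187968) (nat_lit 65257472)) (I.pos (nat_lit 241762304) (nat_lit 362823680)) (I.mix (nat_lit 119226368) (nat_lit 91602944)) (I.mix (nat_lit 82591744) (nat_lit 84361216)) (I.mix (nat_lit 135135232) (nat_lit 126287872)))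
  false (nat_lit 63224119)
def b0_1 : Bx := Bx.mk (St.mk (I.pos (nat_lit 26804224) (nat_lit 66060288)) (I.mix (nat_lit 13369344) (nat_lit 47792128)) (I.neg (nat_lit 14090240) (nat_lit 48201728)) (I.pos (nat_lit 143474688) (nat_lit 161759232)) (I.mix (nat_lit 50069504) (nat_lit 70647808)) (I.mix (nat_lit 61718528) (nat_lit 41058304)) (I.mix (nat_lit 33947648) (nat_lit 26411008)))
  false (nat_lit 0)
def b0_2 : Bx := Bx.mk (St.mk (I.pos (nat_lit 54214656) (nat_lit 95289344)) (I.mix (nat_lit 62636032) (nat_lit 15925248)) (I.neg (nat_lit 29556736) (nat_lit 78807040)) (I.pos (nat_lit 148340736) (nat_lit 179683328)) (I.mix (nat_lit 103464960) (nat_lit 51134464)) (I.mix (nat_lit 50905088) (nat_lit 93978624)) (I.mix (nat_lit 34062336) (nat_lit 60768256)))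
  false (nat_lit 0)
def b0_3 : Bx := Bx.mk (St.mk (I.neg (nat_lit 26771456) (nat_lit 66076672)) (I.mix (nat_lit 47792128) (nat_lit 13402112)) (I.neg (nat_lit 14090240) (nat_lit 48218112)) (I.pos (nat_lit 143474688) (nat_lit 161775616)) (I.mix (nat_lit 70647808) (nat_lit 50053120)) (I.mix (nat_lit 41058304) (nat_lit 61718528)) (I.mix (nat_lit 33947648) (nat_lit 26411008)))
  true (nat_lit 0)
def b0_4 : Bx := Bx.mk (St.mk (I.pos (nat_lit 37076992) (nat_lit 64700416)) (I.mix (nat_lit 13336576) (nat_lit 23117824)) (I.neg (nat_lit 25083904) (nat_lit 47611904)) (I.pos (nat_lit 143278080) (nat_lit 160628736)) (I.mix (nat_lit 48889856) (nat_lit 37715968)) (I.mix (nat_lit 38223872) (nat_lit 39403520)) (I.mix (nat_lit 20430848) (nat_lit 26034176)))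
  false (nat_lit 0)
def b0_5 : Bx := Bx.mk (St.mk (I.pos (nat_lit 212598784) (nat_lit 257523712)) (I.mix (nat_lit 21921792) (nat_lit 20480000)) (I.neg (nat_lit 54657024) (nat_lit 136183808)) (I.pos (nat_lit 328728576) (nat_lit 406405120)) (I.mix (nat_lit 112885760) (nat_lit 38715392)) (I.mix (nat_lit 76759040) (nat_lit 81985536)) (I.mix (nat_lit 118013952) (nat_lit 170934272)))
  false (nat_lit 5420298)
def b0_6 : Bx := Bx.mk (St.mk (I.pos (nat_lit 180568064) (nat_lit 254017536)) (I.mix (nat_lit 26460160) (nat_lit 85458944)) (I.mix (nat_lit 141082624) (nat_lit 60145664)) (I.pos (nat_lit 297664512) (nat_lit 394510336)) (I.mix (nat_lit 132284416) (nat_lit 108527616)) (I.mix (nat_lit 110002176) (nat_lit 107692032)) (I.mix (nat_lit 191823872) (nat_lit 208961536)))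
  false (nat_lit 73874411)
def b0_7 : Bx := Bx.mk (St.mk (I.pos (nat_lit 56721408) (nat_lit 150306816)) (I.mix (nat_lit 74088448) (nat_lit 3457024)) (I.neg (nat_lit 21004288) (nat_lit 90832896)) (I.pos (nat_lit 153059328) (nat_lit 230916096)) (I.mix (nat_lit 101761024) (nat_lit 65896448)) (I.mix (nat_lit 56115200) (nat_lit 94142464)) (I.mix (nat_lit 43810816) (nat_lit 84836352)))
  false (nat_lit 0)
def b0_8 : Bx := Bx.mk (St.mk (I.mix (nat_lit 46170112) (nat_lit 8830976)) (I.mix (nat_lit 42713088) (nat_lit 11812864)) (I.neg (nat_lit 16367616) (nat_lit 26411008)) (I.pos (nat_lit 140902400) (nat_lit 154648576)) (I.mix (nat_lit 46546944) (nat_lit 44285952)) (I.mix (nat_lit 31014912) (nat_lit 51380224)) (I.mix (nat_lit 10485760) (nat_lit 10616832)))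
  true (nat_lit 0)
def b0_9 : Bx := Bx.mk (St.mk (I.pos (nat_lit 153518080) (nat_lit 210403328)) (I.mix (nat_lit 966656) (nat_lit 68648960)) (I.mix (nat_lit 23478272) (nat_lit 53592064)) (I.pos (nat_lit 247627776) (nat_lit 316964864)) (I.mix (nat_lit 121896960) (nat_lit 50511872)) (I.mix (nat_lit 129482752) (nat_lit 79790080)) (I.mix (nat_lit 119930880) (nat_lit 80592896)))
  false (nat_lit 31795752)
def b0_10 : Bx := Bx.mk (St.mk (I.mix (nat_lit 8830976) (nat_lit 46170112)) (I.mix (nat_lit 11812864) (nat_lit 42713088)) (I.neg (nat_lit 16351232) (nat_lit 26411008)) (I.pos (nat_lit 140902400) (nat_lit 154648576)) (I.mix (nat_lit 44285952) (nat_lit 46546944)) (I.mix (nat_lit 51380224) (nat_lit 31014912)) (I.mix (nat_lit 10485760) (nat_lit 10616832)))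
  false (nat_lit 0)
def b0_11 : Bx := Bx.mk (St.mk (I.pos (nat_lit 117178368) (nat_lit 194576384)) (I.mix (nat_lit 47300608) (nat_lit 22380544)) (I.neg (nat_lit 180224) (nat_lit 76398592)) (I.pos (nat_lit 198279168) (nat_lit 284835840)) (I.mix (nat_lit 72564736) (nat_lit 76070912)) (I.mix (nat_lit 80379904) (nat_lit 73957376)) (I.mix (nat_lit 78462976) (nat_lit 64634880)))
  false (nat_lit 0)
def b0_12 : Bx := Bx.mk (St.mk (I.pos (nat_lit 153845760) (nat_lit 199032832)) (I.mix (nat_lit 12599296) (nat_lit 49430528)) (I.mix (nat_lit 41451520) (nat_lit 33849344)) (I.pos (nat_lit 250544128) (nat_lit 293208064)) (I.mix (nat_lit 122798080) (nat_lit 95453184)) (I.mix (nat_lit 148340736) (nat_lit 90865664)) (I.mix (nat_lit 141492224) (nat_lit 79020032)))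
  false (nat_lit 14840300)
def t0 : BTr := (BTr.n (BTr.n (BTr.n (BTr.b b0_0) (BTr.n (BTr.b b0_1) (BTr.b b0_2))) (BTr.n (BTr.b b0_3) (BTr.n (BTr.b b0_4) (BTr.b b0_5)))) (BTr.n (BTr.n (BTr.b b0_6) (BTr.n (BTr.b b0_7) (BTr.b b0_8))) (BTr.n (BTr.n (BTr.b b0_9) (BTr.b b0_10)) (BTr.n (BTr.b b0_11) (BTr.b b0_12)))))
namespace T0
def l0 : Tr := Tr.L (Pth.l (Pth.l (Pth.l Pth.z)))
def l1 : Tr := Tr.L (Pth.l (Pth.l (Pth.r (Pth.l Pth.z))))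
def l2 : Tr := Tr.L (Pth.l (Pth.l (Pth.r (Pth.r Pth.z))))
def l3 : Tr := Tr.L (Pth.l (Pth.r (Pth.l Pth.z)))
def l4 : Tr := Tr.L (Pth.l (Pth.r (Pth.r (Pth.l Pth.z))))
def l5 : Tr := Tr.L (Pth.l (Pth.r (Pth.r (Pth.r Pth.z))))
def l6 : Tr := Tr.L (Pth.r (Pth.l (Pth.l Pth.z)))
def l7 : Tr := Tr.L (Pth.r (Pth.l (Pth.r (Pth.l Pth.z))))
def l8 : Tr := Tr.L (Pth.r (Pth.l (Pth.r (Pth.r Pth.z))))
def l9 : Tr := Tr.L (Pth.r (Pth.r (Pth.l (Pth.l Pth.z))))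
def l10 : Tr := Tr.L (Pth.r (Pth.r (Pth.l (Pth.r Pth.z))))
def l11 : Tr := Tr.L (Pth.r (Pth.r (Pth.r (Pth.l Pth.z))))
def l12 : Tr := Tr.L (Pth.r (Pth.r (Pth.r (Pth.r Pth.z))))
end T0
def b1_0 : Bx := Bx.mk (St.mk (I.pos (nat_lit 155975680) (nat_lit 241188864)) (I.mix (nat_lit 3702784) (nat_lit 60899328)) (I.mix (nat_lit 5373952) (nat_lit 90390528)) (I.pos (nat_lit 110968832) (nat_lit 257982464)) (I.mix (nat_lit 114458624) (nat_lit 72695808)) (I.mix (nat_lit 86556672) (nat_lit 77119488)) (I.mix (nat_lit 124862464) (nat_lit 101924864)))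
  false (nat_lit 0)
def b1_1 : Bx := Bx.mk (St.mk (I.mix (nat_lit 25067520) (nat_lit 136593408)) (I.mix (nat_lit 8142848) (nat_lit 31358976)) (I.mix (nat_lit 16678912) (nat_lit 18726912)) (I.pos (nat_lit 11829248) (nat_lit 101023744)) (I.mix (nat_lit 37044224) (nat_lit 43417600)) (I.mix (nat_lit 41533440) (nat_lit 30949376)) (I.mix (nat_lit 33374208) (nat_lit 22085632)))
  false (nat_lit 0)
def b1_2 : Bx := Bx.mk (St.mk (I.pos (nat_lit 106807296) (nat_lit 152240128)) (I.mix (nat_lit 55721984) (nat_lit 11599872)) (I.mix (nat_lit 63111168) (nat_lit 1523712)) (I.pos (nat_lit 63029248) (nat_lit 123895808)) (I.mix (nat_lit 97337344) (nat_lit 39550976)) (I.mix (nat_lit 45400064) (nat_lit 91176960)) (I.mix (nat_lit 33472512) (nat_lit 77660160)))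
  false (nat_lit 0)
def b1_3 : Bx := Bx.mk (St.mk (I.mix (nat_lit 23642112) (nat_lit 94519296)) (I.mix (nat_lit 27754496) (nat_lit 5062656)) (I.mix (nat_lit 21856256) (nat_lit 770048)) (I.pos (nat_lit 15007744) (nat_lit 68796416)) (I.mix (nat_lit 38518784) (nat_lit 18006016)) (I.mix (nat_lit 19070976) (nat_lit 38682624)) (I.mix (nat_lit 10534912) (nat_lit 20135936)))
  false (nat_lit 0)
def b1_4 : Bx := Bx.mk (St.mk (I.pos (nat_lit 188055552) (nat_lit 250413056)) (I.mix (nat_lit 19546112) (nat_lit 60981248)) (I.mix (nat_lit 59801600) (nat_lit 89669632)) (I.pos (nat_lit 187678720) (nat_lit 276594688)) (I.mix (nat_lit 108937216) (nat_lit 89751552)) (I.mix (nat_lit 104988672) (nat_lit 87293952)) (I.mix (nat_lit 174522368) (nat_lit 134266880)))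
  false (nat_lit 13467170)
def b1_5 : Bx := Bx.mk (St.mk (I.mix (nat_lit 29999104) (nat_lit 81690624)) (I.mix (nat_lit 6144000) (nat_lit 5373952)) (I.neg (nat_lit 196608) (nat_lit 9175040)) (I.pos (nat_lit 15745024) (nat_lit 59588608)) (I.mix (nat_lit 14106624) (nat_lit 8716288)) (I.mix (nat_lit 9748480) (nat_lit 9076736)) (I.mix (nat_lit 4423680) (nat_lit 4685824)))
  false (nat_lit 0)
def b1_6 : Bx := Bx.mk (St.mk (I.pos (nat_lit 100499456) (nat_lit 126107648)) (I.mix (nat_lit 10584064) (nat_lit 8945664)) (I.neg (nat_lit 131072) (nat_lit 18874368)) (I.pos (nat_lit 59572224) (nat_lit 97599488)) (I.mix (nat_lit 33406976) (nat_lit 19972096)) (I.mix (nat_lit 22069248) (nat_lit 23330816)) (I.mix (nat_lit 18071552) (nat_lit 20856832)))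
  false (nat_lit 0)
def b1_7 : Bx := Bx.mk (St.mk (I.pos (nat_lit 211779584) (nat_lit 259801088)) (I.mix (nat_lit 18563072) (nat_lit 20856832)) (I.mix (nat_lit 62652416) (nat_lit 8699904)) (I.pos (nat_lit 215089152) (nat_lit 302137344)) (I.mix (nat_lit 97681408) (nat_lit 29327360)) (I.mix (nat_lit 58130432) (nat_lit 60243968)) (I.mix (nat_lit 97599488) (nat_lit 113033216)))
  false (nat_lit 0)
def b1_8 : Bx := Bx.mk (St.mk (I.pos (nat_lit 96878592) (nat_lit 176111616)) (I.mix (nat_lit 61734912) (nat_lit 7487488)) (I.neg (nat_lit 6488064) (nat_lit 65372160)) (I.pos (nat_lit 72646656) (nat_lit 155271168)) (I.mix (nat_lit 94044160) (nat_lit 49889280)) (I.mix (nat_lit 53035008) (nat_lit 71827456)) (I.mix (nat_lit 45219840) (nat_lit 70172672)))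
  false (nat_lit 2121750)
def b1_9 : Bx := Bx.mk (St.mk (I.mix (nat_lit 24395776) (nat_lit 105365504)) (I.mix (nat_lit 31309824) (nat_lit 6684672)) (I.mix (nat_lit 25051136) (nat_lit 1196032)) (I.pos (nat_lit 13189120) (nat_lit 75988992)) (I.mix (nat_lit 38371328) (nat_lit 28311552)) (I.mix (nat_lit 23625728) (nat_lit 31817728)) (I.mix (nat_lit 14925824) (nat_lit 20512768)))
  false (nat_lit 0)
def b1_10 : Bx := Bx.mk (St.mk (I.pos (nat_lit 165658624) (nat_lit 218660864)) (I.mix (nat_lit 19480576) (nat_lit 58163200)) (I.mix (nat_lit 13926400) (nat_lit 83771392)) (I.pos (nat_lit 128466944) (nat_lit 222347264)) (I.mix (nat_lit 135331840) (nat_lit 51838976)) (I.mix (nat_lit 140591104) (nat_lit 74825728)) (I.mix (nat_lit 159023104) (nat_lit 81494016)))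
  false (nat_lit 0)
def b1_11 : Bx := Bx.mk (St.mk (I.mix (nat_lit 27754496) (nat_lit 132595712)) (I.mix (nat_lit 12828672) (nat_lit 37797888)) (I.mix (nat_lit 13680640) (nat_lit 23887872)) (I.pos (nat_lit 13369344) (nat_lit 97206272)) (I.mix (nat_lit 53018624) (nat_lit 31178752)) (I.mix (nat_lit 47120384) (nat_lit 32145408)) (I.mix (nat_lit 29245440) (nat_lit 20299776)))
  false (nat_lit 0)
def b1_12 : Bx := Bx.mk (St.mk (I.pos (nat_lit 151502848) (nat_lit 203472896)) (I.mix (nat_lit 38846464) (nat_lit 7995392)) (I.mix (nat_lit 47513600) (nat_lit 12091392)) (I.pos (nat_lit 110690304) (nat_lit 194248704)) (I.mix (nat_lit 66928640) (nat_lit 60850176)) (I.mix (nat_lit 67960832) (nat_lit 66551808)) (I.mix (nat_lit 73728000) (nat_lit 70221824)))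
  false (nat_lit 0)
def b1_13 : Bx := Bx.mk (St.mk (I.pos (nat_lit 151519232) (nat_lit 171917312)) (I.neg (nat_lit 12075008) (nat_lit 34570240)) (I.neg (nat_lit 13451264) (nat_lit 41369600)) (I.pos (nat_lit 111575040) (nat_lit 151011328)) (I.mix (nat_lit 26738688) (nat_lit 10567680)) (I.mix (nat_lit 8994816) (nat_lit 13697024)) (I.mix (nat_lit 9338880) (nat_lit 15040512)))
  false (nat_lit 0)
def b1_14 : Bx := Bx.mk (St.mk (I.mix (nat_lit 29278208) (nat_lit 110854144)) (I.mix (nat_lit 13090816) (nat_lit 2473984)) (I.mix (nat_lit 13402112) (nat_lit 442368)) (I.pos (nat_lit 14696448) (nat_lit 79233024)) (I.mix (nat_lit 12222464) (nat_lit 12140544)) (I.mix (nat_lit 8437760) (nat_lit 10436608)) (I.mix (nat_lit 5750784) (nat_lit 7274496)))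
  false (nat_lit 0)
def b1_15 : Bx := Bx.mk (St.mk (I.pos (nat_lit 165806080) (nat_lit 206962688)) (I.mix (nat_lit 26755072) (nat_lit 29818880)) (I.mix (nat_lit 25624576) (nat_lit 44875776)) (I.pos (nat_lit 129302528) (nat_lit 198983680)) (I.mix (nat_lit 107020288) (nat_lit 66306048)) (I.mix (nat_lit 123895808) (nat_lit 71745536)) (I.mix (nat_lit 141213696) (nat_lit 76709888)))
  false (nat_lit 0)
def t1 : BTr := (BTr.n (BTr.n (BTr.n (BTr.n (BTr.b b1_0) (BTr.b b1_1)) (BTr.n (BTr.b b1_2) (BTr.b b1_3))) (BTr.n (BTr.n (BTr.b b1_4) (BTr.b b1_5)) (BTr.n (BTr.b b1_6) (BTr.b b1_7)))) (BTr.n (BTr.n (BTr.n (BTr.b b1_8) (BTr.b b1_9)) (BTr.n (BTr.b b1_10) (BTr.b b1_11))) (BTr.n (BTr.n (BTr.b b1_12) (BTr.b b1_13)) (BTr.n (BTr.b b1_14) (BTr.b b1_15)))))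
namespace T1
def l0 : Tr := Tr.L (Pth.l (Pth.l (Pth.l (Pth.l Pth.z))))
def l1 : Tr := Tr.L (Pth.l (Pth.l (Pth.l (Pth.r Pth.z))))
def l2 : Tr := Tr.L (Pth.l (Pth.l (Pth.r (Pth.l Pth.z))))
def l3 : Tr := Tr.L (Pth.l (Pth.l (Pth.r (Pth.r Pth.z))))
def l4 : Tr := Tr.L (Pth.l (Pth.r (Pth.l (Pth.l Pth.z))))
def l5 : Tr := Tr.L (Pth.l (Pth.r (Pth.l (Pth.r Pth.z))))
def l6 : Tr := Tr.L (Pth.l (Pth.r (Pth.r (Pth.l Pth.z))))
def l7 : Tr := Tr.L (Pth.l (Pth.r (Pth.r (Pth.r Pth.z))))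
def l8 : Tr := Tr.L (Pth.r (Pth.l (Pth.l (Pth.l Pth.z))))
def l9 : Tr := Tr.L (Pth.r (Pth.l (Pth.l (Pth.r Pth.z))))
def l10 : Tr := Tr.L (Pth.r (Pth.l (Pth.r (Pth.l Pth.z))))
def l11 : Tr := Tr.L (Pth.r (Pth.l (Pth.r (Pth.r Pth.z))))
def l12 : Tr := Tr.L (Pth.r (Pth.r (Pth.l (Pth.l Pth.z))))
def l13 : Tr := Tr.L (Pth.r (Pth.r (Pth.l (Pth.r Pth.z))))
def l14 : Tr := Tr.L (Pth.r (Pth.r (Pth.r (Pth.l Pth.z))))
def l15 : Tr := Tr.L (Pth.r (Pth.r (Pth.r (Pth.r Pth.z))))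
end T1
def b2_0 : Bx := Bx.mk (St.mk (I.pos (nat_lit 141246464) (nat_lit 220545024)) (I.mix (nat_lit 6422528) (nat_lit 108756992)) (I.mix (nat_lit 18923520) (nat_lit 82788352)) (I.pos (nat_lit 372064256) (nat_lit 469909504)) (I.mix (nat_lit 160055296) (nat_lit 107003904)) (I.mix (nat_lit 113295360) (nat_lit 107102208)) (I.mix (nat_lit 135413760) (nat_lit 138231808)))
  false (nat_lit 48500684)
def b2_1 : Bx := Bx.mk (St.mk (I.mix (nat_lit 54476800) (nat_lit 5832704)) (I.mix (nat_lit 6307840) (nat_lit 93487104)) (I.neg (nat_lit 59080704) (nat_lit 86638592)) (I.pos (nat_lit 263094272) (nat_lit 291618816)) (I.mix (nat_lit 59260928) (nat_lit 128466944)) (I.mix (nat_lit 102236160) (nat_lit 84885504)) (I.mix (nat_lit 50397184) (nat_lit 44351488)))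
  true (nat_lit 0)
def b2_2 : Bx := Bx.mk (St.mk (I.pos (nat_lit 8617984) (nat_lit 53657600)) (I.neg (nat_lit 27852800) (nat_lit 91553792)) (I.neg (nat_lit 58966016) (nat_lit 86654976)) (I.pos (nat_lit 266436608) (nat_lit 291438592)) (I.mix (nat_lit 128466944) (nat_lit 59260928)) (I.mix (nat_lit 84885504) (nat_lit 102236160)) (I.mix (nat_lit 50397184) (nat_lit 44351488)))
  false (nat_lit 63604781)
def b2_3 : Bx := Bx.mk (St.mk (I.pos (nat_lit 9863168) (nat_lit 125992960)) (I.mix (nat_lit 100253696) (nat_lit 5160960)) (I.neg (nat_lit 13631488) (nat_lit 106233856)) (I.pos (nat_lit 258818048) (nat_lit 336248832)) (I.mix (nat_lit 136888320) (nat_lit 82853888)) (I.mix (nat_lit 83410944) (nat_lit 105578496)) (I.mix (nat_lit 88293376) (nat_lit 90423296)))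
  false (nat_lit 88981140)
def b2_4 : Bx := Bx.mk (St.mk (I.pos (nat_lit 87425024) (nat_lit 195919872)) (I.mix (nat_lit 52314112) (nat_lit 98877440)) (I.mix (nat_lit 70008832) (nat_lit 79134720)) (I.pos (nat_lit 297172992) (nat_lit 433930240)) (I.mix (nat_lit 160153600) (nat_lit 84393984)) (I.mix (nat_lit 155025408) (nat_lit 119373824)) (I.mix (nat_lit 153239552) (nat_lit 136904704)))
  false (nat_lit 33083624)
def b2_5 : Bx := Bx.mk (St.mk (I.neg (nat_lit 9863168) (nat_lit 125992960)) (I.mix (nat_lit 5160960) (nat_lit 100270080)) (I.neg (nat_lit 13631488) (nat_lit 106233856)) (I.pos (nat_lit 258801664) (nat_lit 336248832)) (I.mix (nat_lit 82853888) (nat_lit 136904704)) (I.mix (nat_lit 105594880) (nat_lit 83410944)) (I.mix (nat_lit 88326144) (nat_lit 90439680)))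
  true (nat_lit 0)
def b2_6 : Bx := Bx.mk (St.mk (I.pos (nat_lit 179159040) (nat_lit 273809408)) (I.mix (nat_lit 10977280) (nat_lit 59965440)) (I.neg (nat_lit 4702208) (nat_lit 163446784)) (I.pos (nat_lit 409714688) (nat_lit 562315264)) (I.mix (nat_lit 105775104) (nat_lit 76513280)) (I.mix (nat_lit 80478208) (nat_lit 86048768)) (I.mix (nat_lit 130613248) (nat_lit 158777344)))
  false (nat_lit 1709140)
def b2_7 : Bx := Bx.mk (St.mk (I.mix (nat_lit 11026432) (nat_lit 39960576)) (I.mix (nat_lit 43220992) (nat_lit 8077312)) (I.neg (nat_lit 60112896) (nat_lit 74792960)) (I.pos (nat_lit 263897088) (nat_lit 278740992)) (I.mix (nat_lit 55148544) (nat_lit 51658752)) (I.mix (nat_lit 50216960) (nat_lit 46891008)) (I.mix (nat_lit 13205504) (nat_lit 19365888)))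
  false (nat_lit 0)
def b2_8 : Bx := Bx.mk (St.mk (I.mix (nat_lit 11091968) (nat_lit 9027584)) (I.mix (nat_lit 6569984) (nat_lit 20709376)) (I.neg (nat_lit 63651840) (nat_lit 72105984)) (I.pos (nat_lit 264077312) (nat_lit 272859136)) (I.mix (nat_lit 23052288) (nat_lit 34947072)) (I.mix (nat_lit 27688960) (nat_lit 20627456)) (I.mix (nat_lit 1114112) (nat_lit 7815168)))
  true (nat_lit 0)
def b2_9 : Bx := Bx.mk (St.mk (I.pos (nat_lit 161660928) (nat_lit 227082240)) (I.pos (nat_lit 19202048) (nat_lit 102694912)) (I.mix (nat_lit 51970048) (nat_lit 61964288)) (I.pos (nat_lit 407158784) (nat_lit 468828160)) (I.mix (nat_lit 114114560) (nat_lit 90947584)) (I.mix (nat_lit 100630528) (nat_lit 74891264)) (I.mix (nat_lit 158105600) (nat_lit 114049024)))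
  false (nat_lit 24402258)
def b2_10 : Bx := Bx.mk (St.mk (I.pos (nat_lit 12419072) (nat_lit 43220992)) (I.neg (nat_lit 14450688) (nat_lit 57638912)) (I.neg (nat_lit 61669376) (nat_lit 77594624)) (I.pos (nat_lit 265650176) (nat_lit 281886720)) (I.mix (nat_lit 59686912) (nat_lit 45285376)) (I.mix (nat_lit 48480256) (nat_lit 48726016)) (I.mix (nat_lit 16760832) (nat_lit 20168704)))
  false (nat_lit 0)
def t2 : BTr := (BTr.n (BTr.n (BTr.n (BTr.b b2_0) (BTr.b b2_1)) (BTr.n (BTr.b b2_2) (BTr.n (BTr.b b2_3) (BTr.b b2_4)))) (BTr.n (BTr.n (BTr.b b2_5) (BTr.n (BTr.b b2_6) (BTr.b b2_7))) (BTr.n (BTr.b b2_8) (BTr.n (BTr.b b2_9) (BTr.b b2_10)))))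
namespace T2
def l0 : Tr := Tr.L (Pth.l (Pth.l (Pth.l Pth.z)))
def l1 : Tr := Tr.L (Pth.l (Pth.l (Pth.r Pth.z)))
def l2 : Tr := Tr.L (Pth.l (Pth.r (Pth.l Pth.z)))
def l3 : Tr := Tr.L (Pth.l (Pth.r (Pth.r (Pth.l Pth.z))))
def l4 : Tr := Tr.L (Pth.l (Pth.r (Pth.r (Pth.r Pth.z))))
def l5 : Tr := Tr.L (Pth.r (Pth.l (Pth.l Pth.z)))
def l6 : Tr := Tr.L (Pth.r (Pth.l (Pth.r (Pth.l Pth.z))))
def l7 : Tr := Tr.L (Pth.r (Pth.l (Pth.r (Pth.r Pth.z))))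
def l8 : Tr := Tr.L (Pth.r (Pth.r (Pth.l Pth.z)))
def l9 : Tr := Tr.L (Pth.r (Pth.r (Pth.r (Pth.l Pth.z))))
def l10 : Tr := Tr.L (Pth.r (Pth.r (Pth.r (Pth.r Pth.z))))
end T2
def b3_0 : Bx := Bx.mk (St.mk (I.pos (nat_lit 155844608) (nat_lit 237502464)) (I.mix (nat_lit 3260416) (nat_lit 53018624)) (I.mix (nat_lit 6504448) (nat_lit 110297088)) (I.pos (nat_lit 110592000) (nat_lit 242302976)) (I.mix (nat_lit 118472704) (nat_lit 67223552)) (I.mix (nat_lit 98041856) (nat_lit 73416704)) (I.mix (nat_lit 136724480) (nat_lit 97927168)))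
  false (nat_lit 7242004)
def b3_1 : Bx := Bx.mk (St.mk (I.pos (nat_lit 105922560) (nat_lit 172703744)) (I.mix (nat_lit 62619648) (nat_lit 1359872)) (I.mix (nat_lit 53166080) (nat_lit 13074432)) (I.pos (nat_lit 80314368) (nat_lit 145375232)) (I.mix (nat_lit 84148224) (nat_lit 64339968)) (I.mix (nat_lit 63193088) (nat_lit 76808192)) (I.mix (nat_lit 53739520) (nat_lit 77381632)))
  false (nat_lit 25193404)
def b3_2 : Bx := Bx.mk (St.mk (I.mix (nat_lit 21233664) (nat_lit 106987520)) (I.mix (nat_lit 30507008) (nat_lit 5931008)) (I.mix (nat_lit 15237120) (nat_lit 9830400)) (I.pos (nat_lit 13680640) (nat_lit 75956224)) (I.mix (nat_lit 30261248) (nat_lit 34717696)) (I.mix (nat_lit 24297472) (nat_lit 34062336)) (I.mix (nat_lit 13942784) (nat_lit 21315584)))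
  false (nat_lit 0)
def b3_3 : Bx := Bx.mk (St.mk (I.pos (nat_lit 161660928) (nat_lit 212107264)) (I.mix (nat_lit 20791296) (nat_lit 55820288)) (I.pos (nat_lit 3735552) (nat_lit 105103360)) (I.pos (nat_lit 119308288) (nat_lit 207175680)) (I.mix (nat_lit 146227200) (nat_lit 49954816)) (I.mix (nat_lit 147390464) (nat_lit 77365248)) (I.mix (nat_lit 176308224) (nat_lit 75563008)))
  false (nat_lit 0)
def b3_4 : Bx := Bx.mk (St.mk (I.mix (nat_lit 26247168) (nat_lit 128827392)) (I.mix (nat_lit 15253504) (nat_lit 38174720)) (I.mix (nat_lit 4554752) (nat_lit 35979264)) (I.pos (nat_lit 13434880) (nat_lit 94420992)) (I.mix (nat_lit 60489728) (nat_lit 31752192)) (I.mix (nat_lit 57475072) (nat_lit 32423936)) (I.mix (nat_lit 37650432) (nat_lit 20430848)))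
  false (nat_lit 0)
def b3_5 : Bx := Bx.mk (St.mk (I.pos (nat_lit 156958720) (nat_lit 204718080)) (I.mix (nat_lit 46907392) (nat_lit 30474240)) (I.mix (nat_lit 33128448) (nat_lit 68730880)) (I.pos (nat_lit 115736576) (nat_lit 191053824)) (I.mix (nat_lit 127401984) (nat_lit 73498624)) (I.mix (nat_lit 137953280) (nat_lit 76742656)) (I.mix (nat_lit 158810112) (nat_lit 76873728)))
  false (nat_lit 24794150)
def b3_6 : Bx := Bx.mk (St.mk (I.mix (nat_lit 32489472) (nat_lit 109740032)) (I.mix (nat_lit 16220160) (nat_lit 7733248)) (I.mix (nat_lit 4685824) (nat_lit 11730944)) (I.pos (nat_lit 14417920) (nat_lit 77185024)) (I.mix (nat_lit 27033600) (nat_lit 17711104)) (I.mix (nat_lit 18563072) (nat_lit 21151744)) (I.mix (nat_lit 11927552) (nat_lit 12615680)))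
  false (nat_lit 0)
def b3_7 : Bx := Bx.mk (St.mk (I.pos (nat_lit 132890624) (nat_lit 177602560)) (I.mix (nat_lit 40812544) (nat_lit 2555904)) (I.mix (nat_lit 26132480) (nat_lit 19726336)) (I.pos (nat_lit 97091584) (nat_lit 154288128)) (I.mix (nat_lit 66437120) (nat_lit 37355520)) (I.mix (nat_lit 36618240) (nat_lit 51052544)) (I.mix (nat_lit 43155456) (nat_lit 50888704)))
  false (nat_lit 0)
def b3_8 : Bx := Bx.mk (St.mk (I.pos (nat_lit 154206208) (nat_lit 186613760)) (I.neg (nat_lit 5275648) (nat_lit 39239680)) (I.mix (nat_lit 25690112) (nat_lit 13451264)) (I.pos (nat_lit 115277824) (nat_lit 170360832)) (I.mix (nat_lit 39321600) (nat_lit 29114368)) (I.mix (nat_lit 32325632) (nat_lit 26017792)) (I.mix (nat_lit 34734080) (nat_lit 27131904)))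
  false (nat_lit 0)
def b3_9 : Bx := Bx.mk (St.mk (I.mix (nat_lit 28393472) (nat_lit 135692288)) (I.mix (nat_lit 4669440) (nat_lit 27754496)) (I.mix (nat_lit 1720320) (nat_lit 29163520)) (I.pos (nat_lit 11304960) (nat_lit 101613568)) (I.mix (nat_lit 41828352) (nat_lit 35225600)) (I.mix (nat_lit 39993344) (nat_lit 30408704)) (I.mix (nat_lit 32505856) (nat_lit 23674880)))
  false (nat_lit 0)
def b3_10 : Bx := Bx.mk (St.mk (I.pos (nat_lit 108314624) (nat_lit 159301632)) (I.mix (nat_lit 59768832) (nat_lit 6782976)) (I.mix (nat_lit 49119232) (nat_lit 11108352)) (I.pos (nat_lit 63193088) (nat_lit 131399680)) (I.mix (nat_lit 89407488) (nat_lit 36339712)) (I.mix (nat_lit 44400640) (nat_lit 84000768)) (I.mix (nat_lit 33996800) (nat_lit 65323008)))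
  false (nat_lit 0)
def b3_11 : Bx := Bx.mk (St.mk (I.mix (nat_lit 26411008) (nat_lit 98025472)) (I.mix (nat_lit 28229632) (nat_lit 2621440)) (I.mix (nat_lit 12894208) (nat_lit 5554176)) (I.pos (nat_lit 15007744) (nat_lit 70516736)) (I.mix (nat_lit 31473664) (nat_lit 18268160)) (I.mix (nat_lit 17678336) (nat_lit 26869760)) (I.mix (nat_lit 9355264) (nat_lit 13221888)))
  false (nat_lit 0)
def b3_12 : Bx := Bx.mk (St.mk (I.pos (nat_lit 194166784) (nat_lit 266928128)) (I.mix (nat_lit 12091392) (nat_lit 33472512)) (I.mix (nat_lit 4112384) (nat_lit 78872576)) (I.pos (nat_lit 184664064) (nat_lit 315015168)) (I.mix (nat_lit 94568448) (nat_lit 39059456)) (I.mix (nat_lit 63750144) (nat_lit 50937856)) (I.mix (nat_lit 105267200) (nat_lit 79183872)))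
  false (nat_lit 0)
def b3_13 : Bx := Bx.mk (St.mk (I.pos (nat_lit 109248512) (nat_lit 125747200)) (I.mix (nat_lit 1654784) (nat_lit 7438336)) (I.pos (nat_lit 1064960) (nat_lit 11567104)) (I.pos (nat_lit 64487424) (nat_lit 97484800)) (I.mix (nat_lit 11763712) (nat_lit 11517952)) (I.mix (nat_lit 9109504) (nat_lit 8011776)) (I.mix (nat_lit 8126464) (nat_lit 6832128)))
  false (nat_lit 0)
def b3_14 : Bx := Bx.mk (St.mk (I.mix (nat_lit 26132480) (nat_lit 79167488)) (I.mix (nat_lit 1015808) (nat_lit 4571136)) (I.mix (nat_lit 327680) (nat_lit 5505024)) (I.pos (nat_lit 15859712) (nat_lit 59064320)) (I.mix (nat_lit 4014080) (nat_lit 6275072)) (I.mix (nat_lit 3489792) (nat_lit 2523136)) (I.mix (nat_lit 2146304) (nat_lit 1556480)))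
  false (nat_lit 0)
def b3_15 : Bx := Bx.mk (St.mk (I.pos (nat_lit 185171968) (nat_lit 235798528)) (I.pos (nat_lit 3620864) (nat_lit 50331648)) (I.pos (nat_lit 21151744) (nat_lit 103514112)) (I.pos (nat_lit 176390144) (nat_lit 237813760)) (I.mix (nat_lit 104202240) (nat_lit 73809920)) (I.mix (nat_lit 94978048) (nat_lit 70942720)) (I.mix (nat_lit 147521536) (nat_lit 94109696)))
  false (nat_lit 22156089)
def t3 : BTr := (BTr.n (BTr.n (BTr.n (BTr.n (BTr.b b3_0) (BTr.b b3_1)) (BTr.n (BTr.b b3_2) (BTr.b b3_3))) (BTr.n (BTr.n (BTr.b b3_4) (BTr.b b3_5)) (BTr.n (BTr.b b3_6) (BTr.b b3_7)))) (BTr.n (BTr.n (BTr.n (BTr.b b3_8) (BTr.b b3_9)) (BTr.n (BTr.b b3_10) (BTr.b b3_11))) (BTr.n (BTr.n (BTr.b b3_12) (BTr.b b3_13)) (BTr.n (BTr.b b3_14) (BTr.b b3_15)))))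
namespace T3
def l0 : Tr := Tr.L (Pth.l (Pth.l (Pth.l (Pth.l Pth.z))))
def l1 : Tr := Tr.L (Pth.l (Pth.l (Pth.l (Pth.r Pth.z))))
def l2 : Tr := Tr.L (Pth.l (Pth.l (Pth.r (Pth.l Pth.z))))
def l3 : Tr := Tr.L (Pth.l (Pth.l (Pth.r (Pth.r Pth.z))))
def l4 : Tr := Tr.L (Pth.l (Pth.r (Pth.l (Pth.l Pth.z))))
def l5 : Tr := Tr.L (Pth.l (Pth.r (Pth.l (Pth.r Pth.z))))
def l6 : Tr := Tr.L (Pth.l (Pth.r (Pth.r (Pth.l Pth.z))))
def l7 : Tr := Tr.L (Pth.l (Pth.r (Pth.r (Pth.r Pth.z))))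
def l8 : Tr := Tr.L (Pth.r (Pth.l (Pth.l (Pth.l Pth.z))))
def l9 : Tr := Tr.L (Pth.r (Pth.l (Pth.l (Pth.r Pth.z))))
def l10 : Tr := Tr.L (Pth.r (Pth.l (Pth.r (Pth.l Pth.z))))
def l11 : Tr := Tr.L (Pth.r (Pth.l (Pth.r (Pth.r Pth.z))))
def l12 : Tr := Tr.L (Pth.r (Pth.r (Pth.l (Pth.l Pth.z))))
def l13 : Tr := Tr.L (Pth.r (Pth.r (Pth.l (Pth.r Pth.z))))
def l14 : Tr := Tr.L (Pth.r (Pth.r (Pth.r (Pth.l Pth.z))))
def l15 : Tr := Tr.L (Pth.r (Pth.r (Pth.r (Pth.r Pth.z))))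
end T3
def b4_0 : Bx := Bx.mk (St.mk (I.pos (nat_lit 125304832) (nat_lit 220364800)) (I.mix (nat_lit 5636096) (nat_lit 94961664)) (I.mix (nat_lit 7962624) (nat_lit 135987200)) (I.pos (nat_lit 353894400) (nat_lit 454262784)) (I.mix (nat_lit 169148416) (nat_lit 94273536)) (I.mix (nat_lit 114360320) (nat_lit 92667904)) (I.mix (nat_lit 132005888) (nat_lit 122028032)))
  false (nat_lit 120475213)
def b4_1 : Bx := Bx.mk (St.mk (I.pos (nat_lit 27918336) (nat_lit 115310592)) (I.neg (nat_lit 8568832) (nat_lit 102170624)) (I.mix (nat_lit 58408960) (nat_lit 24051712)) (I.pos (nat_lit 270024704) (nat_lit 323747840)) (I.mix (nat_lit 120717312) (nat_lit 88965120)) (I.mix (nat_lit 93061120) (nat_lit 90816512)) (I.mix (nat_lit 82690048) (nat_lit 69697536)))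
  false (nat_lit 74300544)
def b4_2 : Bx := Bx.mk (St.mk (I.pos (nat_lit 96288768) (nat_lit 184582144)) (I.mix (nat_lit 35258368) (nat_lit 94633984)) (I.pos (nat_lit 835584) (nat_lit 136724480)) (I.pos (nat_lit 302612480) (nat_lit 406994944)) (I.mix (nat_lit 197033984) (nat_lit 82395136)) (I.mix (nat_lit 175538176) (nat_lit 126566400)) (I.mix (nat_lit 184320000) (nat_lit 156483584)))
  false (nat_lit 146781860)
def b4_3 : Bx := Bx.mk (St.mk (I.neg (nat_lit 27410432) (nat_lit 123994112)) (I.pos (nat_lit 8568832) (nat_lit 102187008)) (I.mix (nat_lit 58605568) (nat_lit 27656192)) (I.pos (nat_lit 269664256) (nat_lit 330235904)) (I.mix (nat_lit 88965120) (nat_lit 120733696)) (I.mix (nat_lit 90816512) (nat_lit 93061120)) (I.mix (nat_lit 82690048) (nat_lit 69697536)))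
  true (nat_lit 0)
def b4_4 : Bx := Bx.mk (St.mk (I.mix (nat_lit 68042752) (nat_lit 16400384)) (I.mix (nat_lit 18792448) (nat_lit 97452032)) (I.neg (nat_lit 16318464) (nat_lit 41631744)) (I.pos (nat_lit 265437184) (nat_lit 297140224)) (I.mix (nat_lit 65273856) (nat_lit 100024320)) (I.mix (nat_lit 96681984) (nat_lit 79446016)) (I.mix (nat_lit 39223296) (nat_lit 30261248)))
  true (nat_lit 0)
def b4_5 : Bx := Bx.mk (St.mk (I.pos (nat_lit 21413888) (nat_lit 65912832)) (I.neg (nat_lit 31096832) (nat_lit 94633984)) (I.neg (nat_lit 18284544) (nat_lit 41533440)) (I.pos (nat_lit 272515072) (nat_lit 296747008)) (I.mix (nat_lit 100007936) (nat_lit 65208320)) (I.mix (nat_lit 79069184) (nat_lit 84459520)) (I.mix (nat_lit 39223296) (nat_lit 30261248)))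
  false (nat_lit 41844069)
def b4_6 : Bx := Bx.mk (St.mk (I.pos (nat_lit 94863360) (nat_lit 120258560)) (I.neg (nat_lit 14778368) (nat_lit 46022656)) (I.mix (nat_lit 5308416) (nat_lit 25460736)) (I.pos (nat_lit 304578560) (nat_lit 328318976)) (I.mix (nat_lit 32030720) (nat_lit 36028416)) (I.mix (nat_lit 25608192) (nat_lit 28442624)) (I.mix (nat_lit 20643840) (nat_lit 24657920)))
  false (nat_lit 0)
def b4_7 : Bx := Bx.mk (St.mk (I.pos (nat_lit 172539904) (nat_lit 292749312)) (I.mix (nat_lit 32358400) (nat_lit 68124672)) (I.mix (nat_lit 110821376) (nat_lit 86818816)) (I.pos (nat_lit 398671872) (nat_lit 585613312)) (I.mix (nat_lit 100040704) (nat_lit 77365248)) (I.mix (nat_lit 81772544) (nat_lit 61292544)) (I.mix (nat_lit 141869056) (nat_lit 96878592)))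
  false (nat_lit 100470424)
def b4_8 : Bx := Bx.mk (St.mk (I.mix (nat_lit 15351808) (nat_lit 52756480)) (I.mix (nat_lit 53149696) (nat_lit 16285696)) (I.neg (nat_lit 16924672) (nat_lit 30900224)) (I.pos (nat_lit 266649600) (nat_lit 283197440)) (I.mix (nat_lit 52428800) (nat_lit 50774016)) (I.mix (nat_lit 42090496) (nat_lit 46022656)) (I.mix (nat_lit 11304960) (nat_lit 13254656)))
  false (nat_lit 0)
def b4_9 : Bx := Bx.mk (St.mk (I.pos (nat_lit 142704640) (nat_lit 210354176)) (I.pos (nat_lit 25444352) (nat_lit 92798976)) (I.pos (nat_lit 35110912) (nat_lit 128139264)) (I.pos (nat_lit 372621312) (nat_lit 434864128)) (I.mix (nat_lit 136216576) (nat_lit 105152512)) (I.mix (nat_lit 122142720) (nat_lit 83263488)) (I.mix (nat_lit 166068224) (nat_lit 104005632)))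
  false (nat_lit 90449671)
def b4_10 : Bx := Bx.mk (St.mk (I.pos (nat_lit 25231360) (nat_lit 56279040)) (I.neg (nat_lit 24035328) (nat_lit 80887808)) (I.neg (nat_lit 18661376) (nat_lit 39321600)) (I.pos (nat_lit 273154048) (nat_lit 289947648)) (I.mix (nat_lit 95764480) (nat_lit 54951936)) (I.mix (nat_lit 51986432) (nat_lit 96698368)) (I.mix (nat_lit 26705920) (nat_lit 24117248)))
  false (nat_lit 0)
def t4 : BTr := (BTr.n (BTr.n (BTr.n (BTr.b b4_0) (BTr.b b4_1)) (BTr.n (BTr.b b4_2) (BTr.n (BTr.b b4_3) (BTr.b b4_4)))) (BTr.n (BTr.n (BTr.b b4_5) (BTr.n (BTr.b b4_6) (BTr.b b4_7))) (BTr.n (BTr.b b4_8) (BTr.n (BTr.b b4_9) (BTr.b b4_10)))))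
namespace T4
def l0 : Tr := Tr.L (Pth.l (Pth.l (Pth.l Pth.z)))
def l1 : Tr := Tr.L (Pth.l (Pth.l (Pth.r Pth.z)))
def l2 : Tr := Tr.L (Pth.l (Pth.r (Pth.l Pth.z)))
def l3 : Tr := Tr.L (Pth.l (Pth.r (Pth.r (Pth.l Pth.z))))
def l4 : Tr := Tr.L (Pth.l (Pth.r (Pth.r (Pth.r Pth.z))))
def l5 : Tr := Tr.L (Pth.r (Pth.l (Pth.l Pth.z)))
def l6 : Tr := Tr.L (Pth.r (Pth.l (Pth.r (Pth.l Pth.z))))
def l7 : Tr := Tr.L (Pth.r (Pth.l (Pth.r (Pth.r Pth.z))))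
def l8 : Tr := Tr.L (Pth.r (Pth.r (Pth.l Pth.z)))
def l9 : Tr := Tr.L (Pth.r (Pth.r (Pth.r (Pth.l Pth.z))))
def l10 : Tr := Tr.L (Pth.r (Pth.r (Pth.r (Pth.r Pth.z))))
end T4
def b5_0 : Bx := Bx.mk (St.mk (I.pos (nat_lit 135053312) (nat_lit 222478336)) (I.mix (nat_lit 4079616) (nat_lit 67485696)) (I.mix (nat_lit 7929856) (nat_lit 135610368)) (I.pos (nat_lit 229965824) (nat_lit 324616192)) (I.mix (nat_lit 135315456) (nat_lit 79167488)) (I.mix (nat_lit 103628800) (nat_lit 82870272)) (I.mix (nat_lit 134774784) (nat_lit 93683712)))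
  false (nat_lit 78675489)
def b5_1 : Bx := Bx.mk (St.mk (I.pos (nat_lit 82100224) (nat_lit 147898368)) (I.neg (nat_lit 2719744) (nat_lit 76185600)) (I.mix (nat_lit 35864576) (nat_lit 39174144)) (I.pos (nat_lit 174718976) (nat_lit 223641600)) (I.mix (nat_lit 82771968) (nat_lit 80642048)) (I.mix (nat_lit 64045056) (nat_lit 77578240)) (I.mix (nat_lit 50315264) (nat_lit 66191360)))
  false (nat_lit 35409290)
def b5_2 : Bx := Bx.mk (St.mk (I.mix (nat_lit 30916608) (nat_lit 3883008)) (I.mix (nat_lit 43237376) (nat_lit 11223040)) (I.pos (nat_lit 17367040) (nat_lit 26263552)) (I.pos (nat_lit 139837440) (nat_lit 149487616)) (I.mix (nat_lit 37502976) (nat_lit 57589760)) (I.mix (nat_lit 31703040) (nat_lit 46383104)) (I.mix (nat_lit 7258112) (nat_lit 9322496)))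
  true (nat_lit 0)
def b5_3 : Bx := Bx.mk (St.mk (I.pos (nat_lit 136069120) (nat_lit 190742528)) (I.mix (nat_lit 5029888) (nat_lit 63586304)) (I.pos (nat_lit 43319296) (nat_lit 126697472)) (I.pos (nat_lit 210845696) (nat_lit 278331392)) (I.mix (nat_lit 149946368) (nat_lit 51265536)) (I.mix (nat_lit 145489920) (nat_lit 79380480)) (I.mix (nat_lit 155598848) (nat_lit 82886656)))
  false (nat_lit 49538408)
def b5_4 : Bx := Bx.mk (St.mk (I.mix (nat_lit 3817472) (nat_lit 30916608)) (I.mix (nat_lit 11223040) (nat_lit 43237376)) (I.pos (nat_lit 17367040) (nat_lit 26263552)) (I.pos (nat_lit 139837440) (nat_lit 149487616)) (I.mix (nat_lit 57589760) (nat_lit 37502976)) (I.mix (nat_lit 46383104) (nat_lit 31703040)) (I.mix (nat_lit 7258112) (nat_lit 9322496)))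
  false (nat_lit 0)
def b5_5 : Bx := Bx.mk (St.mk (I.pos (nat_lit 120094720) (nat_lit 145014784)) (I.neg (nat_lit 4259840) (nat_lit 36126720)) (I.pos (nat_lit 5586944) (nat_lit 39403520)) (I.pos (nat_lit 196804608) (nat_lit 220905472)) (I.mix (nat_lit 57311232) (nat_lit 46170112)) (I.mix (nat_lit 40239104) (nat_lit 52772864)) (I.mix (nat_lit 43433984) (nat_lit 46628864)))
  false (nat_lit 0)
def b5_6 : Bx := Bx.mk (St.mk (I.mix (nat_lit 12320768) (nat_lit 1851392)) (I.mix (nat_lit 8339456) (nat_lit 10797056)) (I.pos (nat_lit 18284544) (nat_lit 22855680)) (I.pos (nat_lit 140132352) (nat_lit 144211968)) (I.mix (nat_lit 30867456) (nat_lit 23576576)) (I.mix (nat_lit 21741568) (nat_lit 25755648)) (I.mix (nat_lit 3129344) (nat_lit 1949696)))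
  true (nat_lit 0)
def b5_7 : Bx := Bx.mk (St.mk (I.pos (nat_lit 134414336) (nat_lit 159760384)) (I.neg (nat_lit 11206656) (nat_lit 37961728)) (I.pos (nat_lit 4096000) (nat_lit 33964032)) (I.pos (nat_lit 210960384) (nat_lit 237617152)) (I.mix (nat_lit 29310976) (nat_lit 33718272)) (I.mix (nat_lit 31358976) (nat_lit 25427968)) (I.mix (nat_lit 30359552) (nat_lit 25509888)))
  false (nat_lit 0)
def b5_8 : Bx := Bx.mk (St.mk (I.pos (nat_lit 135577600) (nat_lit 183287808)) (I.mix (nat_lit 46923776) (nat_lit 39927808)) (I.mix (nat_lit 1130496) (nat_lit 98533376)) (I.pos (nat_lit 209911808) (nat_lit 265273344)) (I.mix (nat_lit 117211136) (nat_lit 85655552)) (I.mix (nat_lit 121864192) (nat_lit 80904192)) (I.mix (nat_lit 123748352) (nat_lit 82149376)))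
  false (nat_lit 57583537)
def b5_9 : Bx := Bx.mk (St.mk (I.pos (nat_lit 10600448) (nat_lit 73089024)) (I.mix (nat_lit 12222464) (nat_lit 47579136)) (I.pos (nat_lit 98304) (nat_lit 29736960)) (I.pos (nat_lit 138739712) (nat_lit 164020224)) (I.mix (nat_lit 52346880) (nat_lit 48300032)) (I.mix (nat_lit 55869440) (nat_lit 35979264)) (I.mix (nat_lit 29786112) (nat_lit 21315584)))
  false (nat_lit 0)
def b5_10 : Bx := Bx.mk (St.mk (I.pos (nat_lit 51281920) (nat_lit 114311168)) (I.mix (nat_lit 70778880) (nat_lit 14237696)) (I.mix (nat_lit 29442048) (nat_lit 15728640)) (I.pos (nat_lit 151420928) (nat_lit 194428928)) (I.mix (nat_lit 74661888) (nat_lit 51281920)) (I.mix (nat_lit 45793280) (nat_lit 82264064)) (I.mix (nat_lit 30752768) (nat_lit 44908544)))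
  false (nat_lit 0)
def b5_11 : Bx := Bx.mk (St.mk (I.neg (nat_lit 10567680) (nat_lit 73121792)) (I.mix (nat_lit 47579136) (nat_lit 12222464)) (I.pos (nat_lit 98304) (nat_lit 29736960)) (I.pos (nat_lit 138739712) (nat_lit 164020224)) (I.mix (nat_lit 48300032) (nat_lit 52346880)) (I.mix (nat_lit 35979264) (nat_lit 55869440)) (I.mix (nat_lit 29786112) (nat_lit 21315584)))
  true (nat_lit 0)
def b5_12 : Bx := Bx.mk (St.mk (I.pos (nat_lit 172326912) (nat_lit 288718848)) (I.mix (nat_lit 26853376) (nat_lit 51855360)) (I.mix (nat_lit 32620544) (nat_lit 114409472)) (I.pos (nat_lit 266829824) (nat_lit 451493888)) (I.mix (nat_lit 102612992) (nat_lit 71942144)) (I.mix (nat_lit 75776000) (nat_lit 54493184)) (I.mix (nat_lit 128024576) (nat_lit 87080960)))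
  false (nat_lit 61600190)
def b5_13 : Bx := Bx.mk (St.mk (I.pos (nat_lit 158662656) (nat_lit 220758016)) (I.pos (nat_lit 8011776) (nat_lit 67944448)) (I.pos (nat_lit 41697280) (nat_lit 134971392)) (I.pos (nat_lit 256540672) (nat_lit 314130432)) (I.mix (nat_lit 121503744) (nat_lit 96665600)) (I.mix (nat_lit 123715584) (nat_lit 85098496)) (I.mix (nat_lit 173703168) (nat_lit 95649792)))
  false (nat_lit 48638884)
def t5 : BTr := (BTr.n (BTr.n (BTr.n (BTr.b b5_0) (BTr.n (BTr.b b5_1) (BTr.b b5_2))) (BTr.n (BTr.n (BTr.b b5_3) (BTr.b b5_4)) (BTr.n (BTr.b b5_5) (BTr.b b5_6)))) (BTr.n (BTr.n (BTr.b b5_7) (BTr.n (BTr.b b5_8) (BTr.b b5_9))) (BTr.n (BTr.n (BTr.b b5_10) (BTr.b b5_11)) (BTr.n (BTr.b b5_12) (BTr.b b5_13)))))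
namespace T5
def l0 : Tr := Tr.L (Pth.l (Pth.l (Pth.l Pth.z)))
def l1 : Tr := Tr.L (Pth.l (Pth.l (Pth.r (Pth.l Pth.z))))
def l2 : Tr := Tr.L (Pth.l (Pth.l (Pth.r (Pth.r Pth.z))))
def l3 : Tr := Tr.L (Pth.l (Pth.r (Pth.l (Pth.l Pth.z))))
def l4 : Tr := Tr.L (Pth.l (Pth.r (Pth.l (Pth.r Pth.z))))
def l5 : Tr := Tr.L (Pth.l (Pth.r (Pth.r (Pth.l Pth.z))))
def l6 : Tr := Tr.L (Pth.l (Pth.r (Pth.r (Pth.r Pth.z))))
def l7 : Tr := Tr.L (Pth.r (Pth.l (Pth.l Pth.z)))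
def l8 : Tr := Tr.L (Pth.r (Pth.l (Pth.r (Pth.l Pth.z))))
def l9 : Tr := Tr.L (Pth.r (Pth.l (Pth.r (Pth.r Pth.z))))
def l10 : Tr := Tr.L (Pth.r (Pth.r (Pth.l (Pth.l Pth.z))))
def l11 : Tr := Tr.L (Pth.r (Pth.r (Pth.l (Pth.r Pth.z))))
def l12 : Tr := Tr.L (Pth.r (Pth.r (Pth.r (Pth.l Pth.z))))
def l13 : Tr := Tr.L (Pth.r (Pth.r (Pth.r (Pth.r Pth.z))))
end T5
theorem bx0_0 : BoxOK sI cl4 cl5 cl9 t2 t4 b0_0 :=
  box_mk (TrL.c (I.pos (nat_lit 0) (nat_lit 0)) (xa (xb T2.l0 T2.l0) (xb T2.l0 T2.l0))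
  (TrL.c (I.pos (nat_lit 0) (nat_lit 0)) T4.l1
  (TrL.c (I.pos (nat_lit 0) (nat_lit 0)) T2.l1
  (TrL.c (I.pos (nat_lit 0) (nat_lit 0)) T4.l2
  (TrL.c (I.pos (nat_lit 0) (nat_lit 0)) T2.l2
  (TrL.c (I.pos (nat_lit 0) (nat_lit 0)) T4.l3
  TrL.n)))))) (by decide +kernel)
theorem bx0_1 : BoxOK sI cl4 cl5 cl9 t2 t4 b0_1 :=
  box_mk (TrL.c (I.pos (nat_lit 0) (nat_lit 0)) (xb T2.l6 T2.l6)
  (TrL.c (I.pos (nat_lit 0) (nat_lit 0)) T4.l1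
  (TrL.c (I.pos (nat_lit 0) (nat_lit 0)) T2.l1
  (TrL.c (I.pos (nat_lit 0) (nat_lit 0)) T4.l2
  (TrL.c (I.pos (nat_lit 0) (nat_lit 0)) T2.l7
  (TrL.c (I.pos (nat_lit 0) (nat_lit 0)) T4.l3
  TrL.n)))))) (by decide +kernel)
theorem bx0_2 : BoxOK sI cl4 cl5 cl9 t2 t4 b0_2 :=
  box_mk (TrL.c (I.pos (nat_lit 0) (nat_lit 0)) (xb (xa T2.l6 T2.l6) (xa (xb T2.l6 T2.l6) T2.l6))
  (TrL.c (I.pos (nat_lit 0) (nat_lit 0)) T4.l1
  (TrL.c (I.pos (nat_lit 0) (nat_lit 0)) T2.l1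
  (TrL.c (I.pos (nat_lit 0) (nat_lit 0)) T4.l2
  (TrL.c (I.pos (nat_lit 0) (nat_lit 0)) T2.l7
  (TrL.c (I.pos (nat_lit 0) (nat_lit 0)) T4.l3
  TrL.n)))))) (by decide +kernel)
theorem bx0_3 : BoxOK sI cl4 cl5 cl9 t2 t4 b0_3 :=
  box_mk (TrL.c (I.pos (nat_lit 0) (nat_lit 0)) T4.l1
  (TrL.c (I.pos (nat_lit 0) (nat_lit 0)) T2.l1
  TrL.n)) (by decide +kernel)
theorem bx0_4 : BoxOK sI cl4 cl5 cl9 t2 t4 b0_4 :=
  box_mk (TrL.c (I.pos (nat_lit 0) (nat_lit 0)) T2.l6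
  (TrL.c (I.pos (nat_lit 0) (nat_lit 0)) T4.l1
  (TrL.c (I.pos (nat_lit 0) (nat_lit 0)) T2.l1
  (TrL.c (I.pos (nat_lit 0) (nat_lit 0)) T4.l2
  (TrL.c (I.pos (nat_lit 0) (nat_lit 0)) T2.l7
  (TrL.c (I.pos (nat_lit 0) (nat_lit 0)) T4.l3
  TrL.n)))))) (by decide +kernel)
theorem bx0_5 : BoxOK sI cl4 cl5 cl9 t2 t4 b0_5 :=
  box_mk (TrL.c (I.pos (nat_lit 0) (nat_lit 0)) T2.l0
  (TrL.c (I.pos (nat_lit 0) (nat_lit 0)) T4.l1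
  (TrL.c (I.pos (nat_lit 0) (nat_lit 0)) T2.l1
  (TrL.c (I.pos (nat_lit 0) (nat_lit 0)) T4.l2
  (TrL.c (I.pos (nat_lit 0) (nat_lit 0)) T2.l2
  (TrL.c (I.pos (nat_lit 0) (nat_lit 0)) T4.l3
  TrL.n)))))) (by decide +kernel)
theorem bx0_6 : BoxOK sI cl4 cl5 cl9 t2 t4 b0_6 :=
  box_mk (TrL.c (I.pos (nat_lit 0) (nat_lit 0)) (xb (xa (xb T2.l0 T2.l0) T2.l0) (xa (xb T2.l0 (xa T2.l0 T2.l0)) (xb T2.l0 T2.l0)))
  (TrL.c (I.pos (nat_lit 0) (nat_lit 0)) (xb T4.l1 (xa T4.l1 T4.l1))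
  (TrL.c (I.pos (nat_lit 0) (nat_lit 0)) T2.l1
  (TrL.c (I.pos (nat_lit 0) (nat_lit 0)) (xb (xa T4.l2 (xb (xa T4.l2 T4.l2) T4.l2)) (xa T4.l2 (xb T4.l2 (xa T4.l2 T4.l2))))
  (TrL.c (I.pos (nat_lit 0) (nat_lit 0)) T2.l2
  (TrL.c (I.pos (nat_lit 0) (nat_lit 0)) (xb T4.l3 (xa T4.l3 T4.l3))
  TrL.n)))))) (by decide +kernel)
theorem bx0_7 : BoxOK sI cl4 cl5 cl9 t2 t4 b0_7 :=
  box_mk (TrL.c (I.pos (nat_lit 0) (nat_lit 0)) (xa (xb (xa (xb T2.l6 T2.l6) T2.l6) (xa (xb T2.l6 T2.l6) T2.l6)) (xb (xa T2.l6 T2.l6) T2.l6))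
  (TrL.c (I.pos (nat_lit 0) (nat_lit 0)) T4.l1
  (TrL.c (I.pos (nat_lit 0) (nat_lit 0)) T2.l1
  (TrL.c (I.pos (nat_lit 0) (nat_lit 0)) T4.l2
  (TrL.c (I.pos (nat_lit 0) (nat_lit 0)) T2.l7
  (TrL.c (I.pos (nat_lit 0) (nat_lit 0)) T4.l3
  TrL.n)))))) (by decide +kernel)
theorem bx0_8 : BoxOK sI cl4 cl5 cl9 t2 t4 b0_8 :=
  box_mk (TrL.c (I.pos (nat_lit 0) (nat_lit 0)) T4.l6
  (TrL.c (I.pos (nat_lit 0) (nat_lit 0)) T2.l8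
  TrL.n)) (by decide +kernel)
theorem bx0_9 : BoxOK sI cl4 cl5 cl9 t2 t4 b0_9 :=
  box_mk (TrL.c (I.pos (nat_lit 0) (nat_lit 0)) (xb T2.l9 (xa T2.l9 T2.l9))
  (TrL.c (I.pos (nat_lit 0) (nat_lit 0)) T4.l1
  (TrL.c (I.pos (nat_lit 0) (nat_lit 0)) T2.l1
  (TrL.c (I.pos (nat_lit 0) (nat_lit 0)) T4.l2
  (TrL.c (I.pos (nat_lit 0) (nat_lit 0)) T2.l2
  (TrL.c (I.pos (nat_lit 0) (nat_lit 0)) T4.l3
  TrL.n)))))) (by decide +kernel)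
theorem bx0_10 : BoxOK sI cl4 cl5 cl9 t2 t4 b0_10 :=
  box_mk (TrL.c (I.pos (nat_lit 0) (nat_lit 0)) (xb (xa T2.l6 T2.l6) T2.l6)
  (TrL.c (I.pos (nat_lit 0) (nat_lit 0)) T4.l6
  (TrL.c (I.pos (nat_lit 0) (nat_lit 0)) T2.l8
  (TrL.c (I.pos (nat_lit 0) (nat_lit 0)) T4.l2
  (TrL.c (I.pos (nat_lit 0) (nat_lit 0)) T2.l7
  (TrL.c (I.pos (nat_lit 0) (nat_lit 0)) T4.l3
  TrL.n)))))) (by decide +kernel)
theorem bx0_11 : BoxOK sI cl4 cl5 cl9 t2 t4 b0_11 :=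
  box_mk (TrL.c (I.pos (nat_lit 0) (nat_lit 0)) (xa (xb T2.l6 (xa T2.l6 T2.l9)) T2.l9)
  (TrL.c (I.pos (nat_lit 0) (nat_lit 0)) T4.l1
  (TrL.c (I.pos (nat_lit 0) (nat_lit 0)) T2.l1
  (TrL.c (I.pos (nat_lit 0) (nat_lit 0)) T4.l2
  (TrL.c (I.pos (nat_lit 0) (nat_lit 0)) T2.l3
  (TrL.c (I.pos (nat_lit 0) (nat_lit 0)) T4.l3
  TrL.n)))))) (by decide +kernel)
theorem bx0_12 : BoxOK sI cl4 cl5 cl9 t2 t4 b0_12 :=
  box_mk (TrL.c (I.pos (nat_lit 0) (nat_lit 0)) (xb (xa T2.l9 T2.l9) (xa T2.l9 T2.l9))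
  (TrL.c (I.pos (nat_lit 0) (nat_lit 0)) T4.l1
  (TrL.c (I.pos (nat_lit 0) (nat_lit 0)) T2.l1
  (TrL.c (I.pos (nat_lit 0) (nat_lit 0)) T4.l2
  (TrL.c (I.pos (nat_lit 0) (nat_lit 0)) T2.l2
  (TrL.c (I.pos (nat_lit 0) (nat_lit 0)) T4.l3
  TrL.n)))))) (by decide +kernel)
theorem sv0 : StarV sI cl4 cl5 cl9 t2 t4 t0 :=
  (bt_n (bt_n (bt_n (bt_b bx0_0) (bt_n (bt_b bx0_1) (bt_b bx0_2))) (bt_n (bt_b bx0_3) (bt_n (bt_b bx0_4) (bt_b bx0_5)))) (bt_n (bt_n (bt_b bx0_6) (bt_n (bt_b bx0_7) (bt_b bx0_8))) (bt_n (bt_n (bt_b bx0_9) (bt_b bx0_10)) (bt_n (bt_b bx0_11) (bt_b bx0_12)))))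
def S0 : StarD := StarD.mk cl4 cl5 cl9 2 4 t0
theorem bx1_0 : BoxOK sI cl4 cl9 cl5 t4 t2 b1_0 :=
  box_mk (TrL.c (I.pos (nat_lit 0) (nat_lit 0)) (xa (xb T4.l0 (xa (xb T4.l0 T4.l0) T4.l0)) (xb T4.l0 (xa T4.l0 T4.l0)))
  (TrL.c (I.pos (nat_lit 0) (nat_lit 0)) (xa T2.l3 T2.l3)
  (TrL.c (I.pos (nat_lit 0) (nat_lit 0)) T4.l4
  (TrL.c (I.pos (nat_lit 0) (nat_lit 0)) (xa T2.l4 (xb T2.l4 T2.l4))
  (TrL.c (I.pos (nat_lit 0) (nat_lit 0)) T4.l5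
  (TrL.c (I.pos (nat_lit 0) (nat_lit 0)) (xa T2.l5 T2.l5)
  TrL.n)))))) (by decide +kernel)
theorem bx1_1 : BoxOK sI cl4 cl9 cl5 t4 t2 b1_1 :=
  box_mk (TrL.c (I.pos (nat_lit 0) (nat_lit 0)) (xa (xa (xb (xa T4.l7 T4.l7) T4.l7) T4.l7) (xa T4.l7 (xa T4.l7 T4.l7)))
  (TrL.c (I.pos (nat_lit 0) (nat_lit 0)) (xa T2.l3 T2.l3)
  (TrL.c (I.pos (nat_lit 0) (nat_lit 0)) T4.l4
  (TrL.c (I.pos (nat_lit 0) (nat_lit 0)) T2.l4
  (TrL.c (I.pos (nat_lit 0) (nat_lit 0)) T4.l8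
  (TrL.c (I.pos (nat_lit 0) (nat_lit 0)) (xa T2.l5 T2.l5)
  TrL.n)))))) (by decide +kernel)
theorem bx1_2 : BoxOK sI cl4 cl9 cl5 t4 t2 b1_2 :=
  box_mk (TrL.c (I.pos (nat_lit 0) (nat_lit 0)) (xb (xa T4.l7 T4.l7) (xa (xb T4.l7 T4.l7) T4.l7))
  (TrL.c (I.pos (nat_lit 0) (nat_lit 0)) T2.l3
  (TrL.c (I.pos (nat_lit 0) (nat_lit 0)) T4.l4
  (TrL.c (I.pos (nat_lit 0) (nat_lit 0)) T2.l4
  (TrL.c (I.pos (nat_lit 0) (nat_lit 0)) T4.l8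
  (TrL.c (I.pos (nat_lit 0) (nat_lit 0)) T2.l5
  TrL.n)))))) (by decide +kernel)
theorem bx1_3 : BoxOK sI cl4 cl9 cl5 t4 t2 b1_3 :=
  box_mk (TrL.c (I.pos (nat_lit 0) (nat_lit 0)) (xa T4.l7 T4.l7)
  (TrL.c (I.pos (nat_lit 0) (nat_lit 0)) T2.l3
  (TrL.c (I.pos (nat_lit 0) (nat_lit 0)) T4.l4
  (TrL.c (I.pos (nat_lit 0) (nat_lit 0)) T2.l4
  (TrL.c (I.pos (nat_lit 0) (nat_lit 0)) T4.l8
  (TrL.c (I.pos (nat_lit 0) (nat_lit 0)) T2.l5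
  TrL.n)))))) (by decide +kernel)
theorem bx1_4 : BoxOK sI cl4 cl9 cl5 t4 t2 b1_4 :=
  box_mk (TrL.c (I.pos (nat_lit 0) (nat_lit 0)) (xa (xb (xb T4.l0 T4.l0) (xa (xb T4.l0 T4.l0) (xb T4.l0 T4.l0))) (xb (xb T4.l0 T4.l0) (xa (xb T4.l0 T4.l0) T4.l2)))
  (TrL.c (I.pos (nat_lit 0) (nat_lit 0)) (xa T2.l3 (xb T2.l3 T2.l3))
  (TrL.c (I.pos (nat_lit 0) (nat_lit 0)) T4.l3
  (TrL.c (I.pos (nat_lit 0) (nat_lit 0)) (xb (xa T2.l4 (xb (xa T2.l4 T2.l4) T2.l4)) (xa T2.l4 (xb (xa T2.l4 T2.l4) (xa T2.l4 T2.l4))))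
  (TrL.c (I.pos (nat_lit 0) (nat_lit 0)) T4.l1
  (TrL.c (I.pos (nat_lit 0) (nat_lit 0)) (xa T2.l5 (xb T2.l5 T2.l5))
  TrL.n)))))) (by decide +kernel)
theorem bx1_5 : BoxOK sI cl4 cl9 cl5 t4 t2 b1_5 :=
  box_mk (TrL.c (I.pos (nat_lit 0) (nat_lit 0)) T4.l7
  (TrL.c (I.pos (nat_lit 0) (nat_lit 0)) T2.l3
  (TrL.c (I.pos (nat_lit 0) (nat_lit 0)) T4.l4
  (TrL.c (I.pos (nat_lit 0) (nat_lit 0)) T2.l4
  (TrL.c (I.pos (nat_lit 0) (nat_lit 0)) T4.l8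
  (TrL.c (I.pos (nat_lit 0) (nat_lit 0)) T2.l5
  TrL.n)))))) (by decide +kernel)
theorem bx1_6 : BoxOK sI cl4 cl9 cl5 t4 t2 b1_6 :=
  box_mk (TrL.c (I.pos (nat_lit 0) (nat_lit 0)) T4.l7
  (TrL.c (I.pos (nat_lit 0) (nat_lit 0)) T2.l3
  (TrL.c (I.pos (nat_lit 0) (nat_lit 0)) T4.l4
  (TrL.c (I.pos (nat_lit 0) (nat_lit 0)) T2.l4
  (TrL.c (I.pos (nat_lit 0) (nat_lit 0)) T4.l8
  (TrL.c (I.pos (nat_lit 0) (nat_lit 0)) T2.l5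
  TrL.n)))))) (by decide +kernel)
theorem bx1_7 : BoxOK sI cl4 cl9 cl5 t4 t2 b1_7 :=
  box_mk (TrL.c (I.pos (nat_lit 0) (nat_lit 0)) (xa T4.l0 T4.l2)
  (TrL.c (I.pos (nat_lit 0) (nat_lit 0)) T2.l3
  (TrL.c (I.pos (nat_lit 0) (nat_lit 0)) T4.l4
  (TrL.c (I.pos (nat_lit 0) (nat_lit 0)) T2.l0
  (TrL.c (I.pos (nat_lit 0) (nat_lit 0)) T4.l1
  (TrL.c (I.pos (nat_lit 0) (nat_lit 0)) T2.l5
  TrL.n)))))) (by decide +kernel)
theorem bx1_8 : BoxOK sI cl4 cl9 cl5 t4 t2 b1_8 :=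
  box_mk (TrL.c (I.pos (nat_lit 0) (nat_lit 0)) (xa (xb (xa T4.l7 T4.l7) (xa T4.l7 T4.l7)) T4.l0)
  (TrL.c (I.pos (nat_lit 0) (nat_lit 0)) T2.l3
  (TrL.c (I.pos (nat_lit 0) (nat_lit 0)) T4.l4
  (TrL.c (I.pos (nat_lit 0) (nat_lit 0)) T2.l4
  (TrL.c (I.pos (nat_lit 0) (nat_lit 0)) T4.l8
  (TrL.c (I.pos (nat_lit 0) (nat_lit 0)) T2.l5
  TrL.n)))))) (by decide +kernel)
theorem bx1_9 : BoxOK sI cl4 cl9 cl5 t4 t2 b1_9 :=
  box_mk (TrL.c (I.pos (nat_lit 0) (nat_lit 0)) (xa (xa (xb (xa T4.l7 T4.l7) T4.l7) T4.l7) T4.l7)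
  (TrL.c (I.pos (nat_lit 0) (nat_lit 0)) T2.l3
  (TrL.c (I.pos (nat_lit 0) (nat_lit 0)) T4.l4
  (TrL.c (I.pos (nat_lit 0) (nat_lit 0)) T2.l4
  (TrL.c (I.pos (nat_lit 0) (nat_lit 0)) T4.l8
  (TrL.c (I.pos (nat_lit 0) (nat_lit 0)) T2.l5
  TrL.n)))))) (by decide +kernel)
theorem bx1_10 : BoxOK sI cl4 cl9 cl5 t4 t2 b1_10 :=
  box_mk (TrL.c (I.pos (nat_lit 0) (nat_lit 0)) (xb (xa (xb T4.l9 T4.l9) (xb T4.l9 T4.l9)) (xa (xb T4.l9 (xa T4.l9 T4.l9)) (xb T4.l9 (xa T4.l9 T4.l9))))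
  (TrL.c (I.pos (nat_lit 0) (nat_lit 0)) (xb T2.l3 T2.l3)
  (TrL.c (I.pos (nat_lit 0) (nat_lit 0)) T4.l4
  (TrL.c (I.pos (nat_lit 0) (nat_lit 0)) (xb T2.l4 (xa T2.l4 (xb T2.l4 T2.l4)))
  (TrL.c (I.pos (nat_lit 0) (nat_lit 0)) T4.l10
  (TrL.c (I.pos (nat_lit 0) (nat_lit 0)) (xb T2.l5 T2.l5)
  TrL.n)))))) (by decide +kernel)
theorem bx1_11 : BoxOK sI cl4 cl9 cl5 t4 t2 b1_11 :=
  box_mk (TrL.c (I.pos (nat_lit 0) (nat_lit 0)) (xa (xa (xb T4.l7 (xa T4.l7 T4.l7)) (xb T4.l7 T4.l7)) (xa T4.l7 (xb T4.l7 (xa T4.l7 T4.l7))))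
  (TrL.c (I.pos (nat_lit 0) (nat_lit 0)) (xa T2.l3 T2.l3)
  (TrL.c (I.pos (nat_lit 0) (nat_lit 0)) T4.l4
  (TrL.c (I.pos (nat_lit 0) (nat_lit 0)) (xa T2.l4 T2.l4)
  (TrL.c (I.pos (nat_lit 0) (nat_lit 0)) T4.l8
  (TrL.c (I.pos (nat_lit 0) (nat_lit 0)) (xa T2.l5 T2.l5)
  TrL.n)))))) (by decide +kernel)
theorem bx1_12 : BoxOK sI cl4 cl9 cl5 t4 t2 b1_12 :=
  box_mk (TrL.c (I.pos (nat_lit 0) (nat_lit 0)) T4.l0
  (TrL.c (I.pos (nat_lit 0) (nat_lit 0)) T2.l3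
  (TrL.c (I.pos (nat_lit 0) (nat_lit 0)) T4.l4
  (TrL.c (I.pos (nat_lit 0) (nat_lit 0)) T2.l4
  (TrL.c (I.pos (nat_lit 0) (nat_lit 0)) T4.l10
  (TrL.c (I.pos (nat_lit 0) (nat_lit 0)) T2.l5
  TrL.n)))))) (by decide +kernel)
theorem bx1_13 : BoxOK sI cl4 cl9 cl5 t4 t2 b1_13 :=
  box_mk (TrL.c (I.pos (nat_lit 0) (nat_lit 0)) T4.l7
  (TrL.c (I.pos (nat_lit 0) (nat_lit 0)) T2.l3
  (TrL.c (I.pos (nat_lit 0) (nat_lit 0)) T4.l4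
  (TrL.c (I.pos (nat_lit 0) (nat_lit 0)) T2.l4
  (TrL.c (I.pos (nat_lit 0) (nat_lit 0)) T4.l8
  (TrL.c (I.pos (nat_lit 0) (nat_lit 0)) T2.l5
  TrL.n)))))) (by decide +kernel)
theorem bx1_14 : BoxOK sI cl4 cl9 cl5 t4 t2 b1_14 :=
  box_mk (TrL.c (I.pos (nat_lit 0) (nat_lit 0)) T4.l7
  (TrL.c (I.pos (nat_lit 0) (nat_lit 0)) T2.l3
  (TrL.c (I.pos (nat_lit 0) (nat_lit 0)) T4.l4
  (TrL.c (I.pos (nat_lit 0) (nat_lit 0)) T2.l4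
  (TrL.c (I.pos (nat_lit 0) (nat_lit 0)) T4.l8
  (TrL.c (I.pos (nat_lit 0) (nat_lit 0)) T2.l5
  TrL.n)))))) (by decide +kernel)
theorem bx1_15 : BoxOK sI cl4 cl9 cl5 t4 t2 b1_15 :=
  box_mk (TrL.c (I.pos (nat_lit 0) (nat_lit 0)) (xb T4.l9 T4.l9)
  (TrL.c (I.pos (nat_lit 0) (nat_lit 0)) T2.l3
  (TrL.c (I.pos (nat_lit 0) (nat_lit 0)) T4.l4
  (TrL.c (I.pos (nat_lit 0) (nat_lit 0)) T2.l4
  (TrL.c (I.pos (nat_lit 0) (nat_lit 0)) T4.l10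
  (TrL.c (I.pos (nat_lit 0) (nat_lit 0)) T2.l5
  TrL.n)))))) (by decide +kernel)
theorem sv1 : StarV sI cl4 cl9 cl5 t4 t2 t1 :=
  (bt_n (bt_n (bt_n (bt_n (bt_b bx1_0) (bt_b bx1_1)) (bt_n (bt_b bx1_2) (bt_b bx1_3))) (bt_n (bt_n (bt_b bx1_4) (bt_b bx1_5)) (bt_n (bt_b bx1_6) (bt_b bx1_7)))) (bt_n (bt_n (bt_n (bt_b bx1_8) (bt_b bx1_9)) (bt_n (bt_b bx1_10) (bt_b bx1_11))) (bt_n (bt_n (bt_b bx1_12) (bt_b bx1_13)) (bt_n (bt_b bx1_14) (bt_b bx1_15)))))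
def S1 : StarD := StarD.mk cl4 cl9 cl5 4 2 t1
theorem bx2_0 : BoxOK sI cl5 cl4 cl9 t0 t5 b2_0 :=
  box_mk (TrL.c (I.pos (nat_lit 0) (nat_lit 0)) (xb (xa T0.l6 T0.l0) (xa T0.l6 (xb T0.l0 T0.l0)))
  (TrL.c (I.pos (nat_lit 0) (nat_lit 0)) T5.l1
  (TrL.c (I.pos (nat_lit 0) (nat_lit 0)) T0.l1
  (TrL.c (I.pos (nat_lit 0) (nat_lit 0)) T5.l2
  (TrL.c (I.pos (nat_lit 0) (nat_lit 0)) (xb (xa T5.l3 T5.l3) (xa T5.l3 (xb T5.l3 T5.l3)))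
  (TrL.c (I.pos (nat_lit 0) (nat_lit 0)) T0.l2
  (TrL.c (I.pos (nat_lit 0) (nat_lit 0)) T5.l4
  (TrL.c (I.pos (nat_lit 0) (nat_lit 0)) T0.l3
  TrL.n)))))))) (by decide +kernel)
theorem bx2_1 : BoxOK sI cl5 cl4 cl9 t0 t5 b2_1 :=
  box_mk (TrL.c (I.pos (nat_lit 0) (nat_lit 0)) T5.l5
  (TrL.c (I.pos (nat_lit 0) (nat_lit 0)) T0.l4
  (TrL.c (I.pos (nat_lit 0) (nat_lit 0)) T5.l2
  TrL.n))) (by decide +kernel)
theorem bx2_2 : BoxOK sI cl5 cl4 cl9 t0 t5 b2_2 :=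
  box_mk (TrL.c (I.pos (nat_lit 0) (nat_lit 0)) (xb T0.l6 T0.l6)
  (TrL.c (I.pos (nat_lit 0) (nat_lit 0)) T5.l1
  (TrL.c (I.pos (nat_lit 0) (nat_lit 0)) T0.l1
  (TrL.c (I.pos (nat_lit 0) (nat_lit 0)) T5.l2
  (TrL.c (I.pos (nat_lit 0) (nat_lit 0)) T5.l8
  (TrL.c (I.pos (nat_lit 0) (nat_lit 0)) T0.l2
  (TrL.c (I.pos (nat_lit 0) (nat_lit 0)) T5.l4
  (TrL.c (I.pos (nat_lit 0) (nat_lit 0)) T0.l3
  TrL.n)))))))) (by decide +kernel)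
theorem bx2_3 : BoxOK sI cl5 cl4 cl9 t0 t5 b2_3 :=
  box_mk (TrL.c (I.pos (nat_lit 0) (nat_lit 0)) (xa (xb (xa (xb T0.l6 T0.l6) T0.l6) (xa T0.l6 T0.l6)) (xb T0.l6 T0.l6))
  (TrL.c (I.pos (nat_lit 0) (nat_lit 0)) T5.l1
  (TrL.c (I.pos (nat_lit 0) (nat_lit 0)) T0.l1
  (TrL.c (I.pos (nat_lit 0) (nat_lit 0)) T5.l2
  (TrL.c (I.pos (nat_lit 0) (nat_lit 0)) (xa T5.l8 T5.l8)
  (TrL.c (I.pos (nat_lit 0) (nat_lit 0)) T0.l2
  (TrL.c (I.pos (nat_lit 0) (nat_lit 0)) T5.l4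
  (TrL.c (I.pos (nat_lit 0) (nat_lit 0)) T0.l3
  TrL.n)))))))) (by decide +kernel)
theorem bx2_4 : BoxOK sI cl5 cl4 cl9 t0 t5 b2_4 :=
  box_mk (TrL.c (I.pos (nat_lit 0) (nat_lit 0)) (xb (xa (xb (xa T0.l6 T0.l6) T0.l6) (xb T0.l6 T0.l6)) (xa (xb (xa T0.l6 T0.l6) (xa T0.l6 T0.l6)) (xb T0.l6 T0.l6)))
  (TrL.c (I.pos (nat_lit 0) (nat_lit 0)) (xb T5.l1 T5.l1)
  (TrL.c (I.pos (nat_lit 0) (nat_lit 0)) T0.l1
  (TrL.c (I.pos (nat_lit 0) (nat_lit 0)) T5.l2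
  (TrL.c (I.pos (nat_lit 0) (nat_lit 0)) (xb (xa T5.l8 (xb T5.l8 T5.l8)) (xa (xb T5.l8 T5.l8) (xb T5.l3 T5.l3)))
  (TrL.c (I.pos (nat_lit 0) (nat_lit 0)) T0.l2
  (TrL.c (I.pos (nat_lit 0) (nat_lit 0)) T5.l4
  (TrL.c (I.pos (nat_lit 0) (nat_lit 0)) T0.l3
  TrL.n)))))))) (by decide +kernel)
theorem bx2_5 : BoxOK sI cl5 cl4 cl9 t0 t5 b2_5 :=
  box_mk (TrL.c (I.pos (nat_lit 0) (nat_lit 0)) T5.l1
  (TrL.c (I.pos (nat_lit 0) (nat_lit 0)) T0.l1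
  (TrL.c (I.pos (nat_lit 0) (nat_lit 0)) T5.l2
  TrL.n))) (by decide +kernel)
theorem bx2_6 : BoxOK sI cl5 cl4 cl9 t0 t5 b2_6 :=
  box_mk (TrL.c (I.pos (nat_lit 0) (nat_lit 0)) (xa T0.l0 T0.l0)
  (TrL.c (I.pos (nat_lit 0) (nat_lit 0)) T5.l1
  (TrL.c (I.pos (nat_lit 0) (nat_lit 0)) T0.l1
  (TrL.c (I.pos (nat_lit 0) (nat_lit 0)) T5.l2
  (TrL.c (I.pos (nat_lit 0) (nat_lit 0)) (xa T5.l3 (xb T5.l3 T5.l3))
  (TrL.c (I.pos (nat_lit 0) (nat_lit 0)) T0.l2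
  (TrL.c (I.pos (nat_lit 0) (nat_lit 0)) T5.l4
  (TrL.c (I.pos (nat_lit 0) (nat_lit 0)) T0.l3
  TrL.n)))))))) (by decide +kernel)
theorem bx2_7 : BoxOK sI cl5 cl4 cl9 t0 t5 b2_7 :=
  box_mk (TrL.c (I.pos (nat_lit 0) (nat_lit 0)) (xb T0.l5 (xa T0.l5 T0.l5))
  (TrL.c (I.pos (nat_lit 0) (nat_lit 0)) T5.l1
  (TrL.c (I.pos (nat_lit 0) (nat_lit 0)) T0.l1
  (TrL.c (I.pos (nat_lit 0) (nat_lit 0)) T5.l2
  (TrL.c (I.pos (nat_lit 0) (nat_lit 0)) T5.l7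
  (TrL.c (I.pos (nat_lit 0) (nat_lit 0)) T0.l2
  (TrL.c (I.pos (nat_lit 0) (nat_lit 0)) T5.l4
  (TrL.c (I.pos (nat_lit 0) (nat_lit 0)) T0.l3
  TrL.n)))))))) (by decide +kernel)
theorem bx2_8 : BoxOK sI cl5 cl4 cl9 t0 t5 b2_8 :=
  box_mk (TrL.c (I.pos (nat_lit 0) (nat_lit 0)) T5.l5
  (TrL.c (I.pos (nat_lit 0) (nat_lit 0)) T0.l4
  (TrL.c (I.pos (nat_lit 0) (nat_lit 0)) T5.l6
  TrL.n))) (by decide +kernel)
theorem bx2_9 : BoxOK sI cl5 cl4 cl9 t0 t5 b2_9 :=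
  box_mk (TrL.c (I.pos (nat_lit 0) (nat_lit 0)) (xa T0.l0 T0.l0)
  (TrL.c (I.pos (nat_lit 0) (nat_lit 0)) T5.l1
  (TrL.c (I.pos (nat_lit 0) (nat_lit 0)) T0.l1
  (TrL.c (I.pos (nat_lit 0) (nat_lit 0)) T5.l2
  (TrL.c (I.pos (nat_lit 0) (nat_lit 0)) T5.l3
  (TrL.c (I.pos (nat_lit 0) (nat_lit 0)) T0.l2
  (TrL.c (I.pos (nat_lit 0) (nat_lit 0)) T5.l4
  (TrL.c (I.pos (nat_lit 0) (nat_lit 0)) T0.l3
  TrL.n)))))))) (by decide +kernel)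
theorem bx2_10 : BoxOK sI cl5 cl4 cl9 t0 t5 b2_10 :=
  box_mk (TrL.c (I.pos (nat_lit 0) (nat_lit 0)) T0.l5
  (TrL.c (I.pos (nat_lit 0) (nat_lit 0)) T5.l1
  (TrL.c (I.pos (nat_lit 0) (nat_lit 0)) T0.l1
  (TrL.c (I.pos (nat_lit 0) (nat_lit 0)) T5.l2
  (TrL.c (I.pos (nat_lit 0) (nat_lit 0)) T5.l7
  (TrL.c (I.pos (nat_lit 0) (nat_lit 0)) T0.l2
  (TrL.c (I.pos (nat_lit 0) (nat_lit 0)) T5.l4
  (TrL.c (I.pos (nat_lit 0) (nat_lit 0)) T0.l3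
  TrL.n)))))))) (by decide +kernel)
theorem sv2 : StarV sI cl5 cl4 cl9 t0 t5 t2 :=
  (bt_n (bt_n (bt_n (bt_b bx2_0) (bt_b bx2_1)) (bt_n (bt_b bx2_2) (bt_n (bt_b bx2_3) (bt_b bx2_4)))) (bt_n (bt_n (bt_b bx2_5) (bt_n (bt_b bx2_6) (bt_b bx2_7))) (bt_n (bt_b bx2_8) (bt_n (bt_b bx2_9) (bt_b bx2_10)))))
def S2 : StarD := StarD.mk cl5 cl4 cl9 0 5 t2
theorem bx3_0 : BoxOK sI cl5 cl9 cl4 t5 t0 b3_0 :=
  box_mk (TrL.c (I.pos (nat_lit 0) (nat_lit 0)) (xa (xb (xa T5.l0 T5.l0) (xa (xb T5.l0 T5.l0) T5.l13)) (xa (xb T5.l0 T5.l0) (xb T5.l0 T5.l0)))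
  (TrL.c (I.pos (nat_lit 0) (nat_lit 0)) (xa T0.l7 T0.l7)
  (TrL.c (I.pos (nat_lit 0) (nat_lit 0)) T5.l9
  (TrL.c (I.pos (nat_lit 0) (nat_lit 0)) T0.l8
  (TrL.c (I.pos (nat_lit 0) (nat_lit 0)) (xa (xb T0.l9 T0.l9) (xb T0.l9 T0.l9))
  (TrL.c (I.pos (nat_lit 0) (nat_lit 0)) T5.l10
  (TrL.c (I.pos (nat_lit 0) (nat_lit 0)) T0.l10
  (TrL.c (I.pos (nat_lit 0) (nat_lit 0)) T5.l11
  TrL.n)))))))) (by decide +kernel)
theorem bx3_1 : BoxOK sI cl5 cl9 cl4 t5 t0 b3_1 :=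
  box_mk (TrL.c (I.pos (nat_lit 0) (nat_lit 0)) (xa (xb (xa T5.l12 T5.l12) (xa T5.l12 T5.l12)) (xb T5.l0 T5.l12))
  (TrL.c (I.pos (nat_lit 0) (nat_lit 0)) T0.l7
  (TrL.c (I.pos (nat_lit 0) (nat_lit 0)) T5.l9
  (TrL.c (I.pos (nat_lit 0) (nat_lit 0)) T0.l8
  (TrL.c (I.pos (nat_lit 0) (nat_lit 0)) (xa T0.l11 T0.l11)
  (TrL.c (I.pos (nat_lit 0) (nat_lit 0)) T5.l10
  (TrL.c (I.pos (nat_lit 0) (nat_lit 0)) T0.l10
  (TrL.c (I.pos (nat_lit 0) (nat_lit 0)) T5.l11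
  TrL.n)))))))) (by decide +kernel)
theorem bx3_2 : BoxOK sI cl5 cl9 cl4 t5 t0 b3_2 :=
  box_mk (TrL.c (I.pos (nat_lit 0) (nat_lit 0)) (xa (xa T5.l12 T5.l12) T5.l12)
  (TrL.c (I.pos (nat_lit 0) (nat_lit 0)) T0.l7
  (TrL.c (I.pos (nat_lit 0) (nat_lit 0)) T5.l9
  (TrL.c (I.pos (nat_lit 0) (nat_lit 0)) T0.l8
  (TrL.c (I.pos (nat_lit 0) (nat_lit 0)) (xa T0.l11 T0.l11)
  (TrL.c (I.pos (nat_lit 0) (nat_lit 0)) T5.l10
  (TrL.c (I.pos (nat_lit 0) (nat_lit 0)) T0.l10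
  (TrL.c (I.pos (nat_lit 0) (nat_lit 0)) T5.l11
  TrL.n)))))))) (by decide +kernel)
theorem bx3_3 : BoxOK sI cl5 cl9 cl4 t5 t0 b3_3 :=
  box_mk (TrL.c (I.pos (nat_lit 0) (nat_lit 0)) (xb (xa (xb T5.l13 T5.l13) T5.l13) (xa (xb T5.l13 (xa T5.l13 T5.l13)) (xb T5.l13 (xa T5.l13 T5.l13))))
  (TrL.c (I.pos (nat_lit 0) (nat_lit 0)) T0.l7
  (TrL.c (I.pos (nat_lit 0) (nat_lit 0)) T5.l9
  (TrL.c (I.pos (nat_lit 0) (nat_lit 0)) T0.l8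
  (TrL.c (I.pos (nat_lit 0) (nat_lit 0)) (xb T0.l12 T0.l12)
  (TrL.c (I.pos (nat_lit 0) (nat_lit 0)) T5.l10
  (TrL.c (I.pos (nat_lit 0) (nat_lit 0)) T0.l10
  (TrL.c (I.pos (nat_lit 0) (nat_lit 0)) T5.l11
  TrL.n)))))))) (by decide +kernel)
theorem bx3_4 : BoxOK sI cl5 cl9 cl4 t5 t0 b3_4 :=
  box_mk (TrL.c (I.pos (nat_lit 0) (nat_lit 0)) (xa (xa (xb (xa T5.l12 T5.l12) (xa T5.l12 T5.l12)) (xb T5.l12 T5.l12)) (xa T5.l12 (xb T5.l12 (xa T5.l12 T5.l12))))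
  (TrL.c (I.pos (nat_lit 0) (nat_lit 0)) (xa T0.l7 T0.l7)
  (TrL.c (I.pos (nat_lit 0) (nat_lit 0)) T5.l9
  (TrL.c (I.pos (nat_lit 0) (nat_lit 0)) T0.l8
  (TrL.c (I.pos (nat_lit 0) (nat_lit 0)) (xa T0.l11 T0.l11)
  (TrL.c (I.pos (nat_lit 0) (nat_lit 0)) T5.l10
  (TrL.c (I.pos (nat_lit 0) (nat_lit 0)) T0.l10
  (TrL.c (I.pos (nat_lit 0) (nat_lit 0)) T5.l11
  TrL.n)))))))) (by decide +kernel)
theorem bx3_5 : BoxOK sI cl5 cl9 cl4 t5 t0 b3_5 :=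
  box_mk (TrL.c (I.pos (nat_lit 0) (nat_lit 0)) (xb (xa T5.l13 (xb T5.l13 T5.l13)) (xa T5.l13 T5.l13))
  (TrL.c (I.pos (nat_lit 0) (nat_lit 0)) T0.l7
  (TrL.c (I.pos (nat_lit 0) (nat_lit 0)) T5.l9
  (TrL.c (I.pos (nat_lit 0) (nat_lit 0)) T0.l8
  (TrL.c (I.pos (nat_lit 0) (nat_lit 0)) (xb T0.l12 T0.l12)
  (TrL.c (I.pos (nat_lit 0) (nat_lit 0)) T5.l10
  (TrL.c (I.pos (nat_lit 0) (nat_lit 0)) T0.l10
  (TrL.c (I.pos (nat_lit 0) (nat_lit 0)) T5.l11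
  TrL.n)))))))) (by decide +kernel)
theorem bx3_6 : BoxOK sI cl5 cl9 cl4 t5 t0 b3_6 :=
  box_mk (TrL.c (I.pos (nat_lit 0) (nat_lit 0)) (xa T5.l12 T5.l12)
  (TrL.c (I.pos (nat_lit 0) (nat_lit 0)) T0.l7
  (TrL.c (I.pos (nat_lit 0) (nat_lit 0)) T5.l9
  (TrL.c (I.pos (nat_lit 0) (nat_lit 0)) T0.l8
  (TrL.c (I.pos (nat_lit 0) (nat_lit 0)) T0.l11
  (TrL.c (I.pos (nat_lit 0) (nat_lit 0)) T5.l10
  (TrL.c (I.pos (nat_lit 0) (nat_lit 0)) T0.l10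
  (TrL.c (I.pos (nat_lit 0) (nat_lit 0)) T5.l11
  TrL.n)))))))) (by decide +kernel)
theorem bx3_7 : BoxOK sI cl5 cl9 cl4 t5 t0 b3_7 :=
  box_mk (TrL.c (I.pos (nat_lit 0) (nat_lit 0)) T5.l12
  (TrL.c (I.pos (nat_lit 0) (nat_lit 0)) T0.l7
  (TrL.c (I.pos (nat_lit 0) (nat_lit 0)) T5.l9
  (TrL.c (I.pos (nat_lit 0) (nat_lit 0)) T0.l8
  (TrL.c (I.pos (nat_lit 0) (nat_lit 0)) T0.l11
  (TrL.c (I.pos (nat_lit 0) (nat_lit 0)) T5.l10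
  (TrL.c (I.pos (nat_lit 0) (nat_lit 0)) T0.l10
  (TrL.c (I.pos (nat_lit 0) (nat_lit 0)) T5.l11
  TrL.n)))))))) (by decide +kernel)
theorem bx3_8 : BoxOK sI cl5 cl9 cl4 t5 t0 b3_8 :=
  box_mk (TrL.c (I.pos (nat_lit 0) (nat_lit 0)) T5.l13
  (TrL.c (I.pos (nat_lit 0) (nat_lit 0)) T0.l7
  (TrL.c (I.pos (nat_lit 0) (nat_lit 0)) T5.l9
  (TrL.c (I.pos (nat_lit 0) (nat_lit 0)) T0.l8
  (TrL.c (I.pos (nat_lit 0) (nat_lit 0)) T0.l12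
  (TrL.c (I.pos (nat_lit 0) (nat_lit 0)) T5.l10
  (TrL.c (I.pos (nat_lit 0) (nat_lit 0)) T0.l10
  (TrL.c (I.pos (nat_lit 0) (nat_lit 0)) T5.l11
  TrL.n)))))))) (by decide +kernel)
theorem bx3_9 : BoxOK sI cl5 cl9 cl4 t5 t0 b3_9 :=
  box_mk (TrL.c (I.pos (nat_lit 0) (nat_lit 0)) (xa (xa (xa T5.l12 T5.l12) T5.l12) (xa T5.l12 T5.l12))
  (TrL.c (I.pos (nat_lit 0) (nat_lit 0)) (xa T0.l7 T0.l7)
  (TrL.c (I.pos (nat_lit 0) (nat_lit 0)) T5.l9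
  (TrL.c (I.pos (nat_lit 0) (nat_lit 0)) T0.l8
  (TrL.c (I.pos (nat_lit 0) (nat_lit 0)) (xa T0.l11 T0.l11)
  (TrL.c (I.pos (nat_lit 0) (nat_lit 0)) T5.l10
  (TrL.c (I.pos (nat_lit 0) (nat_lit 0)) T0.l10
  (TrL.c (I.pos (nat_lit 0) (nat_lit 0)) T5.l11
  TrL.n)))))))) (by decide +kernel)
theorem bx3_10 : BoxOK sI cl5 cl9 cl4 t5 t0 b3_10 :=
  box_mk (TrL.c (I.pos (nat_lit 0) (nat_lit 0)) (xb (xa T5.l12 T5.l12) T5.l12)
  (TrL.c (I.pos (nat_lit 0) (nat_lit 0)) T0.l7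
  (TrL.c (I.pos (nat_lit 0) (nat_lit 0)) T5.l9
  (TrL.c (I.pos (nat_lit 0) (nat_lit 0)) T0.l8
  (TrL.c (I.pos (nat_lit 0) (nat_lit 0)) (xb T0.l11 T0.l11)
  (TrL.c (I.pos (nat_lit 0) (nat_lit 0)) T5.l10
  (TrL.c (I.pos (nat_lit 0) (nat_lit 0)) T0.l10
  (TrL.c (I.pos (nat_lit 0) (nat_lit 0)) T5.l11
  TrL.n)))))))) (by decide +kernel)
theorem bx3_11 : BoxOK sI cl5 cl9 cl4 t5 t0 b3_11 :=
  box_mk (TrL.c (I.pos (nat_lit 0) (nat_lit 0)) (xa (xa (xb (xa T5.l12 T5.l12) T5.l12) T5.l12) T5.l12)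
  (TrL.c (I.pos (nat_lit 0) (nat_lit 0)) T0.l7
  (TrL.c (I.pos (nat_lit 0) (nat_lit 0)) T5.l9
  (TrL.c (I.pos (nat_lit 0) (nat_lit 0)) T0.l8
  (TrL.c (I.pos (nat_lit 0) (nat_lit 0)) T0.l11
  (TrL.c (I.pos (nat_lit 0) (nat_lit 0)) T5.l10
  (TrL.c (I.pos (nat_lit 0) (nat_lit 0)) T0.l10
  (TrL.c (I.pos (nat_lit 0) (nat_lit 0)) T5.l11
  TrL.n)))))))) (by decide +kernel)
theorem bx3_12 : BoxOK sI cl5 cl9 cl4 t5 t0 b3_12 :=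
  box_mk (TrL.c (I.pos (nat_lit 0) (nat_lit 0)) (xa T5.l0 T5.l0)
  (TrL.c (I.pos (nat_lit 0) (nat_lit 0)) T0.l7
  (TrL.c (I.pos (nat_lit 0) (nat_lit 0)) T5.l9
  (TrL.c (I.pos (nat_lit 0) (nat_lit 0)) T0.l8
  (TrL.c (I.pos (nat_lit 0) (nat_lit 0)) (xa T0.l9 T0.l9)
  (TrL.c (I.pos (nat_lit 0) (nat_lit 0)) T5.l10
  (TrL.c (I.pos (nat_lit 0) (nat_lit 0)) T0.l10
  (TrL.c (I.pos (nat_lit 0) (nat_lit 0)) T5.l11
  TrL.n)))))))) (by decide +kernel)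
theorem bx3_13 : BoxOK sI cl5 cl9 cl4 t5 t0 b3_13 :=
  box_mk (TrL.c (I.pos (nat_lit 0) (nat_lit 0)) T5.l12
  (TrL.c (I.pos (nat_lit 0) (nat_lit 0)) T0.l7
  (TrL.c (I.pos (nat_lit 0) (nat_lit 0)) T5.l9
  (TrL.c (I.pos (nat_lit 0) (nat_lit 0)) T0.l8
  (TrL.c (I.pos (nat_lit 0) (nat_lit 0)) T0.l11
  (TrL.c (I.pos (nat_lit 0) (nat_lit 0)) T5.l10
  (TrL.c (I.pos (nat_lit 0) (nat_lit 0)) T0.l10
  (TrL.c (I.pos (nat_lit 0) (nat_lit 0)) T5.l11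
  TrL.n)))))))) (by decide +kernel)
theorem bx3_14 : BoxOK sI cl5 cl9 cl4 t5 t0 b3_14 :=
  box_mk (TrL.c (I.pos (nat_lit 0) (nat_lit 0)) T5.l12
  (TrL.c (I.pos (nat_lit 0) (nat_lit 0)) T0.l7
  (TrL.c (I.pos (nat_lit 0) (nat_lit 0)) T5.l9
  (TrL.c (I.pos (nat_lit 0) (nat_lit 0)) T0.l8
  (TrL.c (I.pos (nat_lit 0) (nat_lit 0)) T0.l11
  (TrL.c (I.pos (nat_lit 0) (nat_lit 0)) T5.l10
  (TrL.c (I.pos (nat_lit 0) (nat_lit 0)) T0.l10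
  (TrL.c (I.pos (nat_lit 0) (nat_lit 0)) T5.l11
  TrL.n)))))))) (by decide +kernel)
theorem bx3_15 : BoxOK sI cl5 cl9 cl4 t5 t0 b3_15 :=
  box_mk (TrL.c (I.pos (nat_lit 0) (nat_lit 0)) (xa T5.l0 (xb T5.l0 T5.l0))
  (TrL.c (I.pos (nat_lit 0) (nat_lit 0)) T0.l7
  (TrL.c (I.pos (nat_lit 0) (nat_lit 0)) T5.l9
  (TrL.c (I.pos (nat_lit 0) (nat_lit 0)) T0.l8
  (TrL.c (I.pos (nat_lit 0) (nat_lit 0)) (xa T0.l9 T0.l9)
  (TrL.c (I.pos (nat_lit 0) (nat_lit 0)) T5.l10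
  (TrL.c (I.pos (nat_lit 0) (nat_lit 0)) T0.l10
  (TrL.c (I.pos (nat_lit 0) (nat_lit 0)) T5.l11
  TrL.n)))))))) (by decide +kernel)
theorem sv3 : StarV sI cl5 cl9 cl4 t5 t0 t3 :=
  (bt_n (bt_n (bt_n (bt_n (bt_b bx3_0) (bt_b bx3_1)) (bt_n (bt_b bx3_2) (bt_b bx3_3))) (bt_n (bt_n (bt_b bx3_4) (bt_b bx3_5)) (bt_n (bt_b bx3_6) (bt_b bx3_7)))) (bt_n (bt_n (bt_n (bt_b bx3_8) (bt_b bx3_9)) (bt_n (bt_b bx3_10) (bt_b bx3_11))) (bt_n (bt_n (bt_b bx3_12) (bt_b bx3_13)) (bt_n (bt_b bx3_14) (bt_b bx3_15)))))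
def S3 : StarD := StarD.mk cl5 cl9 cl4 5 0 t3
theorem bx4_0 : BoxOK sI cl9 cl4 cl5 t1 t3 b4_0 :=
  box_mk (TrL.c (I.pos (nat_lit 0) (nat_lit 0)) (xa (xb T1.l4 (xa T1.l4 T1.l4)) (xb T1.l0 (xa T1.l0 T1.l0)))
  (TrL.c (I.pos (nat_lit 0) (nat_lit 0)) T3.l1
  (TrL.c (I.pos (nat_lit 0) (nat_lit 124588530)) (xR T1.l1 T1.l1)
  (TrL.c (I.pos (nat_lit 0) (nat_lit 96881482)) (xR T3.l2 T3.l2)
  (TrL.c (I.pos (nat_lit 0) (nat_lit 0)) (xa T3.l5 (xb (xk T3.l3 T3.l3) (xk T3.l3 T3.l3)))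
  (TrL.c (I.pos (nat_lit 0) (nat_lit 0)) T1.l2
  (TrL.c (I.mix (nat_lit 17240550) (nat_lit 96881482)) (xR T3.l4 T3.l4)
  (TrL.c (I.mix (nat_lit 17240550) (nat_lit 71940500)) (xR T1.l3 T1.l3)
  TrL.n)))))))) (by decide +kernel)
theorem bx4_1 : BoxOK sI cl9 cl4 cl5 t1 t3 b4_1 :=
  box_mk (TrL.c (I.pos (nat_lit 0) (nat_lit 0)) (xa (xb (xa T1.l4 T1.l4) T1.l4) T1.l4)
  (TrL.c (I.pos (nat_lit 0) (nat_lit 0)) T3.l1
  (TrL.c (I.pos (nat_lit 0) (nat_lit 124588530)) (xR T1.l1 T1.l1)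
  (TrL.c (I.pos (nat_lit 0) (nat_lit 96881482)) T3.l2
  (TrL.c (I.pos (nat_lit 0) (nat_lit 0)) T3.l5
  (TrL.c (I.pos (nat_lit 0) (nat_lit 0)) T1.l2
  (TrL.c (I.mix (nat_lit 17240550) (nat_lit 96881482)) (xR T3.l4 T3.l4)
  (TrL.c (I.mix (nat_lit 17240550) (nat_lit 71940500)) T1.l1
  TrL.n)))))))) (by decide +kernel)
theorem bx4_2 : BoxOK sI cl9 cl4 cl5 t1 t3 b4_2 :=
  box_mk (TrL.c (I.pos (nat_lit 0) (nat_lit 0)) (xb (xa (xb T1.l4 T1.l4) T1.l4) (xa (xb (xa T1.l4 T1.l4) (xa T1.l4 T1.l4)) (xb T1.l4 (xa T1.l4 T1.l4))))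
  (TrL.c (I.pos (nat_lit 0) (nat_lit 0)) (xb T3.l1 T3.l1)
  (TrL.c (I.pos (nat_lit 0) (nat_lit 124588530)) (xR T1.l1 (xR T1.l1 T1.l1))
  (TrL.c (I.pos (nat_lit 0) (nat_lit 96881482)) (xR T3.l2 T3.l2)
  (TrL.c (I.pos (nat_lit 0) (nat_lit 0)) (xb (xa T3.l5 (xk T3.l5 T3.l5)) (xa T3.l5 (xk T3.l5 T3.l5)))
  (TrL.c (I.pos (nat_lit 0) (nat_lit 0)) T1.l2
  (TrL.c (I.mix (nat_lit 17240550) (nat_lit 96881482)) (xR T3.l4 (xR T3.l4 T3.l4))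
  (TrL.c (I.mix (nat_lit 17240550) (nat_lit 71940500)) (xR T1.l3 T1.l3)
  TrL.n)))))))) (by decide +kernel)
theorem bx4_3 : BoxOK sI cl9 cl4 cl5 t1 t3 b4_3 :=
  box_mk (TrL.c (I.pos (nat_lit 0) (nat_lit 0)) T3.l1
  (TrL.c (I.pos (nat_lit 0) (nat_lit 0)) T1.l1
  (TrL.c (I.mix (nat_lit 17240550) (nat_lit 96881482)) (xR T3.l6 T3.l2)
  (TrL.c (I.mix (nat_lit 17240550) (nat_lit 71940500)) (xR T1.l5 T1.l1)
  TrL.n)))) (by decide +kernel)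
theorem bx4_4 : BoxOK sI cl9 cl4 cl5 t1 t3 b4_4 :=
  box_mk (TrL.c (I.pos (nat_lit 0) (nat_lit 0)) T3.l7
  (TrL.c (I.pos (nat_lit 0) (nat_lit 0)) T1.l6
  (TrL.c (I.mix (nat_lit 17240550) (nat_lit 96881482)) (xR T3.l6 T3.l4)
  (TrL.c (I.mix (nat_lit 17240550) (nat_lit 71940500)) T1.l11
  TrL.n)))) (by decide +kernel)
theorem bx4_5 : BoxOK sI cl9 cl4 cl5 t1 t3 b4_5 :=
  box_mk (TrL.c (I.pos (nat_lit 0) (nat_lit 0)) T1.l4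
  (TrL.c (I.pos (nat_lit 0) (nat_lit 0)) T3.l1
  (TrL.c (I.pos (nat_lit 0) (nat_lit 124588530)) T1.l1
  (TrL.c (I.pos (nat_lit 0) (nat_lit 96881482)) T3.l2
  (TrL.c (I.pos (nat_lit 0) (nat_lit 0)) T3.l5
  (TrL.c (I.pos (nat_lit 0) (nat_lit 0)) T1.l2
  (TrL.c (I.mix (nat_lit 17240550) (nat_lit 96881482)) T3.l4
  (TrL.c (I.mix (nat_lit 17240550) (nat_lit 71940500)) T1.l3
  TrL.n)))))))) (by decide +kernel)
theorem bx4_6 : BoxOK sI cl9 cl4 cl5 t1 t3 b4_6 :=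
  box_mk (TrL.c (I.pos (nat_lit 0) (nat_lit 0)) T1.l4
  (TrL.c (I.pos (nat_lit 0) (nat_lit 0)) T3.l1
  (TrL.c (I.pos (nat_lit 0) (nat_lit 124588530)) T1.l1
  (TrL.c (I.pos (nat_lit 0) (nat_lit 96881482)) T3.l2
  (TrL.c (I.pos (nat_lit 0) (nat_lit 0)) T3.l5
  (TrL.c (I.pos (nat_lit 0) (nat_lit 0)) T1.l2
  (TrL.c (I.mix (nat_lit 17240550) (nat_lit 96881482)) T3.l4
  (TrL.c (I.mix (nat_lit 17240550) (nat_lit 71940500)) T1.l3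
  TrL.n)))))))) (by decide +kernel)
theorem bx4_7 : BoxOK sI cl9 cl4 cl5 t1 t3 b4_7 :=
  box_mk (TrL.c (I.pos (nat_lit 0) (nat_lit 0)) (xa (xb T1.l0 T1.l0) (xb T1.l0 T1.l0))
  (TrL.c (I.pos (nat_lit 0) (nat_lit 0)) T3.l1
  (TrL.c (I.pos (nat_lit 0) (nat_lit 124588530)) (xR T1.l1 T1.l11)
  (TrL.c (I.pos (nat_lit 0) (nat_lit 96881482)) (xR T3.l2 T3.l2)
  (TrL.c (I.pos (nat_lit 0) (nat_lit 0)) (xa (xb (xk T3.l3 T3.l3) T3.l3) (xb (xk (xa T3.l3 T3.l3) (xa T3.l3 T3.l3)) (xk (xa T3.l3 T3.l3) (xa T3.l3 T3.l3))))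
  (TrL.c (I.pos (nat_lit 0) (nat_lit 0)) (xa T1.l2 T1.l2)
  (TrL.c (I.mix (nat_lit 17240550) (nat_lit 96881482)) (xR T3.l4 (xR T3.l4 T3.l4))
  (TrL.c (I.mix (nat_lit 17240550) (nat_lit 71940500)) (xR T1.l3 T1.l3)
  TrL.n)))))))) (by decide +kernel)
theorem bx4_8 : BoxOK sI cl9 cl4 cl5 t1 t3 b4_8 :=
  box_mk (TrL.c (I.pos (nat_lit 0) (nat_lit 0)) (xb T1.l7 (xa T1.l7 T1.l7))
  (TrL.c (I.pos (nat_lit 0) (nat_lit 0)) T3.l7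
  (TrL.c (I.pos (nat_lit 0) (nat_lit 124588530)) T1.l1
  (TrL.c (I.pos (nat_lit 0) (nat_lit 96881482)) T3.l2
  (TrL.c (I.pos (nat_lit 0) (nat_lit 0)) T3.l8
  (TrL.c (I.pos (nat_lit 0) (nat_lit 0)) T1.l2
  (TrL.c (I.mix (nat_lit 17240550) (nat_lit 96881482)) T3.l4
  (TrL.c (I.mix (nat_lit 17240550) (nat_lit 71940500)) T1.l3
  TrL.n)))))))) (by decide +kernel)
theorem bx4_9 : BoxOK sI cl9 cl4 cl5 t1 t3 b4_9 :=
  box_mk (TrL.c (I.pos (nat_lit 0) (nat_lit 0)) (xa (xb T1.l0 T1.l0) T1.l0)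
  (TrL.c (I.pos (nat_lit 0) (nat_lit 0)) T3.l1
  (TrL.c (I.pos (nat_lit 0) (nat_lit 124588530)) (xR T1.l1 T1.l1)
  (TrL.c (I.pos (nat_lit 0) (nat_lit 96881482)) (xR T3.l2 T3.l2)
  (TrL.c (I.pos (nat_lit 0) (nat_lit 0)) (xa T3.l3 T3.l3)
  (TrL.c (I.pos (nat_lit 0) (nat_lit 0)) T1.l2
  (TrL.c (I.mix (nat_lit 17240550) (nat_lit 96881482)) T3.l4
  (TrL.c (I.mix (nat_lit 17240550) (nat_lit 71940500)) T1.l9
  TrL.n)))))))) (by decide +kernel)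
theorem bx4_10 : BoxOK sI cl9 cl4 cl5 t1 t3 b4_10 :=
  box_mk (TrL.c (I.pos (nat_lit 0) (nat_lit 0)) T1.l7
  (TrL.c (I.pos (nat_lit 0) (nat_lit 0)) T3.l1
  (TrL.c (I.pos (nat_lit 0) (nat_lit 124588530)) T1.l1
  (TrL.c (I.pos (nat_lit 0) (nat_lit 96881482)) T3.l2
  (TrL.c (I.pos (nat_lit 0) (nat_lit 0)) T3.l5
  (TrL.c (I.pos (nat_lit 0) (nat_lit 0)) T1.l2
  (TrL.c (I.mix (nat_lit 17240550) (nat_lit 96881482)) T3.l4
  (TrL.c (I.mix (nat_lit 17240550) (nat_lit 71940500)) T1.l3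
  TrL.n)))))))) (by decide +kernel)
theorem sv4 : StarV sI cl9 cl4 cl5 t1 t3 t4 :=
  (bt_n (bt_n (bt_n (bt_b bx4_0) (bt_b bx4_1)) (bt_n (bt_b bx4_2) (bt_n (bt_b bx4_3) (bt_b bx4_4)))) (bt_n (bt_n (bt_b bx4_5) (bt_n (bt_b bx4_6) (bt_b bx4_7))) (bt_n (bt_b bx4_8) (bt_n (bt_b bx4_9) (bt_b bx4_10)))))
def S4 : StarD := StarD.mk cl9 cl4 cl5 1 3 t4
theorem bx5_0 : BoxOK sI cl9 cl5 cl4 t3 t1 b5_0 :=
  box_mk (TrL.c (I.pos (nat_lit 0) (nat_lit 0)) (xa (xb T3.l0 (xa (xb T3.l0 T3.l0) T3.l0)) (xb T3.l0 (xa T3.l0 T3.l0)))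
  (TrL.c (I.pos (nat_lit 0) (nat_lit 0)) (xa T1.l8 T1.l8)
  (TrL.c (I.pos (nat_lit 0) (nat_lit 124588530)) (xR T3.l9 T3.l9)
  (TrL.c (I.pos (nat_lit 0) (nat_lit 96881482)) (xR T1.l9 T1.l9)
  (TrL.c (I.pos (nat_lit 0) (nat_lit 0)) (xa T1.l10 T1.l10)
  (TrL.c (I.pos (nat_lit 0) (nat_lit 0)) T3.l10
  (TrL.c (I.mix (nat_lit 17240550) (nat_lit 96881482)) (xR T1.l11 T1.l11)
  (TrL.c (I.mix (nat_lit 17240550) (nat_lit 71940500)) (xR T3.l11 T3.l2)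
  TrL.n)))))))) (by decide +kernel)
theorem bx5_1 : BoxOK sI cl9 cl5 cl4 t3 t1 b5_1 :=
  box_mk (TrL.c (I.pos (nat_lit 0) (nat_lit 0)) (xa (xb T3.l12 T3.l12) T3.l0)
  (TrL.c (I.pos (nat_lit 0) (nat_lit 0)) T1.l8
  (TrL.c (I.pos (nat_lit 0) (nat_lit 124588530)) T3.l9
  (TrL.c (I.pos (nat_lit 0) (nat_lit 96881482)) T1.l9
  (TrL.c (I.pos (nat_lit 0) (nat_lit 0)) (xb T1.l12 T1.l12)
  (TrL.c (I.pos (nat_lit 0) (nat_lit 0)) T3.l10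
  (TrL.c (I.mix (nat_lit 17240550) (nat_lit 96881482)) T1.l11
  (TrL.c (I.mix (nat_lit 17240550) (nat_lit 71940500)) T3.l2
  TrL.n)))))))) (by decide +kernel)
theorem bx5_2 : BoxOK sI cl9 cl5 cl4 t3 t1 b5_2 :=
  box_mk (TrL.c (I.pos (nat_lit 0) (nat_lit 0)) T1.l8
  (TrL.c (I.pos (nat_lit 0) (nat_lit 0)) T3.l9
  (TrL.c (I.mix (nat_lit 17240550) (nat_lit 96881482)) T1.l9
  (TrL.c (I.mix (nat_lit 17240550) (nat_lit 71940500)) T3.l2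
  TrL.n)))) (by decide +kernel)
theorem bx5_3 : BoxOK sI cl9 cl5 cl4 t3 t1 b5_3 :=
  box_mk (TrL.c (I.pos (nat_lit 0) (nat_lit 0)) (xa (xb T3.l15 (xa T3.l15 T3.l15)) (xb T3.l15 T3.l15))
  (TrL.c (I.pos (nat_lit 0) (nat_lit 0)) T1.l8
  (TrL.c (I.pos (nat_lit 0) (nat_lit 124588530)) (xR T3.l9 T3.l9)
  (TrL.c (I.pos (nat_lit 0) (nat_lit 96881482)) (xR T1.l9 T1.l9)
  (TrL.c (I.pos (nat_lit 0) (nat_lit 0)) T1.l10
  (TrL.c (I.pos (nat_lit 0) (nat_lit 0)) T3.l10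
  (TrL.c (I.mix (nat_lit 17240550) (nat_lit 96881482)) (xR T1.l11 T1.l11)
  (TrL.c (I.mix (nat_lit 17240550) (nat_lit 71940500)) T3.l2
  TrL.n)))))))) (by decide +kernel)
theorem bx5_4 : BoxOK sI cl9 cl5 cl4 t3 t1 b5_4 :=
  box_mk (TrL.c (I.pos (nat_lit 0) (nat_lit 0)) (xb T3.l12 T3.l12)
  (TrL.c (I.pos (nat_lit 0) (nat_lit 0)) T1.l8
  (TrL.c (I.pos (nat_lit 0) (nat_lit 124588530)) T3.l9
  (TrL.c (I.pos (nat_lit 0) (nat_lit 96881482)) T1.l9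
  (TrL.c (I.pos (nat_lit 0) (nat_lit 0)) T1.l12
  (TrL.c (I.pos (nat_lit 0) (nat_lit 0)) T3.l10
  (TrL.c (I.mix (nat_lit 17240550) (nat_lit 96881482)) T1.l11
  (TrL.c (I.mix (nat_lit 17240550) (nat_lit 71940500)) T3.l11
  TrL.n)))))))) (by decide +kernel)
theorem bx5_5 : BoxOK sI cl9 cl5 cl4 t3 t1 b5_5 :=
  box_mk (TrL.c (I.pos (nat_lit 0) (nat_lit 0)) T3.l12
  (TrL.c (I.pos (nat_lit 0) (nat_lit 0)) T1.l8
  (TrL.c (I.pos (nat_lit 0) (nat_lit 124588530)) T3.l9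
  (TrL.c (I.pos (nat_lit 0) (nat_lit 96881482)) T1.l9
  (TrL.c (I.pos (nat_lit 0) (nat_lit 0)) T1.l12
  (TrL.c (I.pos (nat_lit 0) (nat_lit 0)) T3.l10
  (TrL.c (I.mix (nat_lit 17240550) (nat_lit 96881482)) T1.l11
  (TrL.c (I.mix (nat_lit 17240550) (nat_lit 71940500)) T3.l11
  TrL.n)))))))) (by decide +kernel)
theorem bx5_6 : BoxOK sI cl9 cl5 cl4 t3 t1 b5_6 :=
  box_mk (TrL.c (I.pos (nat_lit 0) (nat_lit 0)) T1.l8
  (TrL.c (I.pos (nat_lit 0) (nat_lit 0)) T3.l13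
  (TrL.c (I.mix (nat_lit 17240550) (nat_lit 96881482)) T1.l9
  (TrL.c (I.mix (nat_lit 17240550) (nat_lit 71940500)) T3.l2
  TrL.n)))) (by decide +kernel)
theorem bx5_7 : BoxOK sI cl9 cl5 cl4 t3 t1 b5_7 :=
  box_mk (TrL.c (I.pos (nat_lit 0) (nat_lit 0)) T3.l15
  (TrL.c (I.pos (nat_lit 0) (nat_lit 0)) T1.l8
  (TrL.c (I.pos (nat_lit 0) (nat_lit 124588530)) T3.l9
  (TrL.c (I.pos (nat_lit 0) (nat_lit 96881482)) T1.l9
  (TrL.c (I.pos (nat_lit 0) (nat_lit 0)) T1.l15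
  (TrL.c (I.pos (nat_lit 0) (nat_lit 0)) T3.l10
  (TrL.c (I.mix (nat_lit 17240550) (nat_lit 96881482)) T1.l11
  (TrL.c (I.mix (nat_lit 17240550) (nat_lit 71940500)) T3.l11
  TrL.n)))))))) (by decide +kernel)
theorem bx5_8 : BoxOK sI cl9 cl5 cl4 t3 t1 b5_8 :=
  box_mk (TrL.c (I.pos (nat_lit 0) (nat_lit 0)) (xb T3.l15 (xa T3.l15 T3.l15))
  (TrL.c (I.pos (nat_lit 0) (nat_lit 0)) T1.l8
  (TrL.c (I.pos (nat_lit 0) (nat_lit 124588530)) (xR T3.l9 T3.l9)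
  (TrL.c (I.pos (nat_lit 0) (nat_lit 96881482)) T1.l9
  (TrL.c (I.pos (nat_lit 0) (nat_lit 0)) (xb (xk T1.l15 T1.l15) T1.l15)
  (TrL.c (I.pos (nat_lit 0) (nat_lit 0)) T3.l10
  (TrL.c (I.mix (nat_lit 17240550) (nat_lit 96881482)) (xR T1.l11 T1.l11)
  (TrL.c (I.mix (nat_lit 17240550) (nat_lit 71940500)) T3.l2
  TrL.n)))))))) (by decide +kernel)
theorem bx5_9 : BoxOK sI cl9 cl5 cl4 t3 t1 b5_9 :=
  box_mk (TrL.c (I.pos (nat_lit 0) (nat_lit 0)) (xa (xb T3.l12 T3.l12) (xb T3.l12 T3.l12))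
  (TrL.c (I.pos (nat_lit 0) (nat_lit 0)) T1.l8
  (TrL.c (I.pos (nat_lit 0) (nat_lit 124588530)) T3.l9
  (TrL.c (I.pos (nat_lit 0) (nat_lit 96881482)) T1.l9
  (TrL.c (I.pos (nat_lit 0) (nat_lit 0)) T1.l12
  (TrL.c (I.pos (nat_lit 0) (nat_lit 0)) T3.l10
  (TrL.c (I.mix (nat_lit 17240550) (nat_lit 96881482)) T1.l11
  (TrL.c (I.mix (nat_lit 17240550) (nat_lit 71940500)) T3.l11
  TrL.n)))))))) (by decide +kernel)
theorem bx5_10 : BoxOK sI cl9 cl5 cl4 t3 t1 b5_10 :=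
  box_mk (TrL.c (I.pos (nat_lit 0) (nat_lit 0)) (xb T3.l12 (xa T3.l12 T3.l12))
  (TrL.c (I.pos (nat_lit 0) (nat_lit 0)) T1.l8
  (TrL.c (I.pos (nat_lit 0) (nat_lit 124588530)) T3.l9
  (TrL.c (I.pos (nat_lit 0) (nat_lit 96881482)) T1.l9
  (TrL.c (I.pos (nat_lit 0) (nat_lit 0)) T1.l12
  (TrL.c (I.pos (nat_lit 0) (nat_lit 0)) T3.l10
  (TrL.c (I.mix (nat_lit 17240550) (nat_lit 96881482)) T1.l11
  (TrL.c (I.mix (nat_lit 17240550) (nat_lit 71940500)) T3.l11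
  TrL.n)))))))) (by decide +kernel)
theorem bx5_11 : BoxOK sI cl9 cl5 cl4 t3 t1 b5_11 :=
  box_mk (TrL.c (I.pos (nat_lit 0) (nat_lit 0)) T1.l8
  (TrL.c (I.pos (nat_lit 0) (nat_lit 0)) T3.l9
  (TrL.c (I.mix (nat_lit 17240550) (nat_lit 96881482)) (xR T1.l14 T1.l9)
  (TrL.c (I.mix (nat_lit 17240550) (nat_lit 71940500)) T3.l4
  TrL.n)))) (by decide +kernel)
theorem bx5_12 : BoxOK sI cl9 cl5 cl4 t3 t1 b5_12 :=
  box_mk (TrL.c (I.pos (nat_lit 0) (nat_lit 0)) (xa (xb T3.l0 T3.l0) (xa T3.l0 T3.l0))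
  (TrL.c (I.pos (nat_lit 0) (nat_lit 0)) (xa T1.l8 T1.l8)
  (TrL.c (I.pos (nat_lit 0) (nat_lit 124588530)) (xR T3.l9 T3.l4)
  (TrL.c (I.pos (nat_lit 0) (nat_lit 96881482)) (xR T1.l9 T1.l9)
  (TrL.c (I.pos (nat_lit 0) (nat_lit 0)) (xa (xb (xa T1.l10 T1.l10) T1.l10) (xb (xk (xa T1.l10 T1.l10) (xa T1.l10 T1.l10)) (xk (xa T1.l10 T1.l10) (xa T1.l10 T1.l10))))
  (TrL.c (I.pos (nat_lit 0) (nat_lit 0)) (xa T3.l10 T3.l10)
  (TrL.c (I.mix (nat_lit 17240550) (nat_lit 96881482)) (xR T1.l11 (xR T1.l11 T1.l11))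
  (TrL.c (I.mix (nat_lit 17240550) (nat_lit 71940500)) (xR T3.l11 T3.l11)
  TrL.n)))))))) (by decide +kernel)
theorem bx5_13 : BoxOK sI cl9 cl5 cl4 t3 t1 b5_13 :=
  box_mk (TrL.c (I.pos (nat_lit 0) (nat_lit 0)) (xa (xb T3.l0 T3.l0) (xb T3.l0 T3.l0))
  (TrL.c (I.pos (nat_lit 0) (nat_lit 0)) T1.l8
  (TrL.c (I.pos (nat_lit 0) (nat_lit 124588530)) (xR T3.l9 T3.l9)
  (TrL.c (I.pos (nat_lit 0) (nat_lit 96881482)) (xR T1.l9 T1.l9)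
  (TrL.c (I.pos (nat_lit 0) (nat_lit 0)) (xa T1.l10 (xk T1.l10 T1.l10))
  (TrL.c (I.pos (nat_lit 0) (nat_lit 0)) T3.l10
  (TrL.c (I.mix (nat_lit 17240550) (nat_lit 96881482)) (xR T1.l11 T1.l11)
  (TrL.c (I.mix (nat_lit 17240550) (nat_lit 71940500)) (xR T3.l11 T3.l2)
  TrL.n)))))))) (by decide +kernel)
theorem sv5 : StarV sI cl9 cl5 cl4 t3 t1 t5 :=
  (bt_n (bt_n (bt_n (bt_b bx5_0) (bt_n (bt_b bx5_1) (bt_b bx5_2))) (bt_n (bt_n (bt_b bx5_3) (bt_b bx5_4)) (bt_n (bt_b bx5_5) (bt_b bx5_6)))) (bt_n (bt_n (bt_b bx5_7) (bt_n (bt_b bx5_8) (bt_b bx5_9))) (bt_n (bt_n (bt_b bx5_10) (bt_b bx5_11)) (bt_n (bt_b bx5_12) (bt_b bx5_13)))))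
def S5 : StarD := StarD.mk cl9 cl5 cl4 3 1 t5
def G : List StarD := [S0, S1, S2, S3, S4, S5]
theorem so0 : StarOK sI G S0 :=
  star_mk (by decide) (by decide) rfl rfl rfl rfl rfl rfl (rfl : _ = t2) (rfl : _ = t4)
  (st_mk (Pth.l (Pth.l (Pth.l Pth.z))) (nat_lit 249034947) (nat_lit 251498804) (by decide +kernel))
  (st_mk (Pth.l (Pth.l (Pth.l Pth.z))) (nat_lit 287493682) (nat_lit 290833866) (by decide +kernel))
  (st_mk (Pth.l (Pth.l (Pth.l Pth.z))) (nat_lit 332585920) (nat_lit 337150865) (by decide +kernel)) sv0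
theorem so1 : StarOK sI G S1 :=
  star_mk (by decide) (by decide) rfl rfl rfl rfl rfl rfl (rfl : _ = t4) (rfl : _ = t2)
  (st_mk (Pth.l (Pth.l (Pth.l (Pth.l Pth.z)))) (nat_lit 118832681) (nat_lit 138643748) (by decide +kernel))
  (st_mk (Pth.l (Pth.l (Pth.l (Pth.l Pth.z)))) (nat_lit 154574225) (nat_lit 178989595) (by decide +kernel))
  (st_mk (Pth.l (Pth.l (Pth.l (Pth.l Pth.z)))) (nat_lit 199010514) (nat_lit 224624271) (by decide +kernel)) sv1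
theorem so2 : StarOK sI G S2 :=
  star_mk (by decide) (by decide) rfl rfl rfl rfl rfl rfl (rfl : _ = t0) (rfl : _ = t5)
  (st_mk (Pth.l (Pth.l (Pth.l Pth.z))) (nat_lit 378091445) (nat_lit 381022008) (by decide +kernel))
  (st_mk (Pth.l (Pth.l (Pth.l Pth.z))) (nat_lit 415709154) (nat_lit 419281444) (by decide +kernel))
  (st_mk (Pth.l (Pth.l (Pth.l Pth.z))) (nat_lit 459463947) (nat_lit 463871785) (by decide +kernel)) sv2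
theorem so3 : StarOK sI G S3 :=
  star_mk (by decide) (by decide) rfl rfl rfl rfl rfl rfl (rfl : _ = t5) (rfl : _ = t0)
  (st_mk (Pth.l (Pth.l (Pth.l (Pth.l Pth.z)))) (nat_lit 117636444) (nat_lit 136840053) (by decide +kernel))
  (st_mk (Pth.l (Pth.l (Pth.l (Pth.l Pth.z)))) (nat_lit 154356859) (nat_lit 174110081) (by decide +kernel))
  (st_mk (Pth.l (Pth.l (Pth.l (Pth.l Pth.z)))) (nat_lit 195502914) (nat_lit 219773284) (by decide +kernel)) sv3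
theorem so4 : StarOK sI G S4 :=
  star_mk (by decide) (by decide) rfl rfl rfl rfl rfl rfl (rfl : _ = t1) (rfl : _ = t3)
  (st_mk (Pth.l (Pth.l (Pth.l Pth.z))) (nat_lit 367334065) (nat_lit 370718634) (by decide +kernel))
  (st_mk (Pth.l (Pth.l (Pth.l Pth.z))) (nat_lit 402205713) (nat_lit 407247346) (by decide +kernel))
  (st_mk (Pth.l (Pth.l (Pth.l Pth.z))) (nat_lit 443121143) (nat_lit 448907078) (by decide +kernel)) sv4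
theorem so5 : StarOK sI G S5 :=
  star_mk (by decide) (by decide) rfl rfl rfl rfl rfl rfl (rfl : _ = t3) (rfl : _ = t1)
  (st_mk (Pth.l (Pth.l (Pth.l Pth.z))) (nat_lit 239480887) (nat_lit 241616311) (by decide +kernel))
  (st_mk (Pth.l (Pth.l (Pth.l Pth.z))) (nat_lit 274826477) (nat_lit 277474310) (by decide +kernel))
  (st_mk (Pth.l (Pth.l (Pth.l Pth.z))) (nat_lit 315687666) (nat_lit 319019770) (by decide +kernel)) sv5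
theorem ok : GroupOK (nat_lit 91226112) (nat_lit 150339584) G := grp_mk (allS_c so0 (allS_c so1 (allS_c so2 (allS_c so3 (allS_c so4 (allS_c so5 allS_n))))))
theorem cov : GCov G cl4 cl5 cl9 := cov_mk
  ⟨0, by decide, rfl, rfl, rfl⟩ ⟨1, by decide, rfl, rfl, rfl⟩ ⟨2, by decide, rfl, rfl, rfl⟩ ⟨3, by decide, rfl, rfl, rfl⟩ ⟨4, by decide, rfl, rfl, rfl⟩ ⟨5, by decide, rfl, rfl, rfl⟩
end Q125_1


end Pool.Agent.Helper6.MONO
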