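import Pool.Agent.Helper6.MONO.Cert.C00

/-!
Certificate data (generated).
-/

set_option autoImplicit false
set_option linter.all false
noncomputable section
namespace Pool.Agent.Helper6.MONO


namespace Q125_2
def sI : I := I.pos (nat_lit 150274048) (nat_lit 209387520)
def b0_0 : Bx := Bx.mk (St.mk (I.pos (nat_lit 158793728) (nat_lit 225689600)) (I.mix (nat_lit 2326528) (nat_lit 76775424)) (I.mix (nat_lit 12828672) (nat_lit 56901632)) (I.pos (nat_lit 247070720) (nat_lit 360235008)) (I.mix (nat_lit 115326976) (nat_lit 81821696)) (I.mix (nat_lit 68812800) (nat_lit 74285056)) (I.mix (nat_lit 119603200) (nat_lit 111362048)))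
  false (nat_lit 59505214)
def b0_1 : Bx := Bx.mk (St.mk (I.pos (nat_lit 27721728) (nat_lit 65159168)) (I.mix (nat_lit 9469952) (nat_lit 45662208)) (I.neg (nat_lit 15974400) (nat_lit 45989888)) (I.pos (nat_lit 142360576) (nat_lit 162365440)) (I.mix (nat_lit 51150848) (nat_lit 79675392)) (I.mix (nat_lit 63963136) (nat_lit 44040192)) (I.mix (nat_lit 34914304) (nat_lit 24510464)))
  false (nat_lit 0)
def b0_2 : Bx := Bx.mk (St.mk (I.pos (nat_lit 50757632) (nat_lit 89636864)) (I.mix (nat_lit 56918016) (nat_lit 11157504)) (I.neg (nat_lit 31981568) (nat_lit 75481088)) (I.pos (nat_lit 145375232) (nat_lit 175013888)) (I.mix (nat_lit 103727104) (nat_lit 50872320)) (I.mix (nat_lit 52379648) (nat_lit 88670208)) (I.mix (nat_lit 33652736) (nat_lit 58458112)))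
  false (nat_lit 0)
def b0_3 : Bx := Bx.mk (St.mk (I.neg (nat_lit 27721728) (nat_lit 65224704)) (I.mix (nat_lit 45662208) (nat_lit 9469952)) (I.neg (nat_lit 15974400) (nat_lit 45989888)) (I.pos (nat_lit 142360576) (nat_lit 162365440)) (I.mix (nat_lit 79675392) (nat_lit 51216384)) (I.mix (nat_lit 44040192) (nat_lit 63963136)) (I.mix (nat_lit 34914304) (nat_lit 24576000)))
  true (nat_lit 0)
def b0_4 : Bx := Bx.mk (St.mk (I.pos (nat_lit 36896768) (nat_lit 63717376)) (I.mix (nat_lit 11337728) (nat_lit 20611072)) (I.neg (nat_lit 26361856) (nat_lit 46120960)) (I.pos (nat_lit 142229504) (nat_lit 159170560)) (I.mix (nat_lit 51412992) (nat_lit 40779776)) (I.mix (nat_lit 39911424) (nat_lit 37011456)) (I.mix (nat_lit 19988480) (nat_lit 24625152)))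
  false (nat_lit 0)
def b0_5 : Bx := Bx.mk (St.mk (I.pos (nat_lit 204521472) (nat_lit 255737856)) (I.mix (nat_lit 19611648) (nat_lit 18366464)) (I.neg (nat_lit 59965440) (nat_lit 128729088)) (I.pos (nat_lit 316145664) (nat_lit 402194432)) (I.mix (nat_lit 125648896) (nat_lit 59113472)) (I.mix (nat_lit 82591744) (nat_lit 83623936)) (I.mix (nat_lit 114294784) (nat_lit 161447936)))
  false (nat_lit 11825256)
def b0_6 : Bx := Bx.mk (St.mk (I.pos (nat_lit 181501952) (nat_lit 249544704)) (I.mix (nat_lit 19742720) (nat_lit 72613888)) (I.mix (nat_lit 127303680) (nat_lit 46972928)) (I.pos (nat_lit 298057728) (nat_lit 387186688)) (I.mix (nat_lit 140984320) (nat_lit 113573888)) (I.mix (nat_lit 111247360) (nat_lit 99926016)) (I.mix (nat_lit 198819840) (nat_lit 184123392)))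
  false (nat_lit 73331038)
def b0_7 : Bx := Bx.mk (St.mk (I.pos (nat_lit 58114048) (nat_lit 146309120)) (I.neg (nat_lit 4980736) (nat_lit 60358656)) (I.neg (nat_lit 26034176) (nat_lit 78151680)) (I.pos (nat_lit 153452544) (nat_lit 226443264)) (I.mix (nat_lit 101580800) (nat_lit 55312384)) (I.mix (nat_lit 52494336) (nat_lit 75726848)) (I.mix (nat_lit 44564480) (nat_lit 67403776)))
  false (nat_lit 0)
def b0_8 : Bx := Bx.mk (St.mk (I.mix (nat_lit 45793280) (nat_lit 7471104)) (I.mix (nat_lit 40976384) (nat_lit 9830400)) (I.neg (nat_lit 16859136) (nat_lit 26214400)) (I.pos (nat_lit 140623872) (nat_lit 154927104)) (I.mix (nat_lit 50724864) (nat_lit 53379072)) (I.mix (nat_lit 41533440) (nat_lit 48037888)) (I.mix (nat_lit 12419072) (nat_lit 13778944)))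
  true (nat_lit 0)
def b0_9 : Bx := Bx.mk (St.mk (I.pos (nat_lit 149159936) (nat_lit 203931648)) (I.mix (nat_lit 2342912) (nat_lit 64684032)) (I.mix (nat_lit 24117248) (nat_lit 50855936)) (I.pos (nat_lit 244367360) (nat_lit 317194240)) (I.mix (nat_lit 144195584) (nat_lit 67239936)) (I.mix (nat_lit 142606336) (nat_lit 93798400)) (I.mix (nat_lit 134119424) (nat_lit 99778560)))
  false (nat_lit 58916066)
def b0_10 : Bx := Bx.mk (St.mk (I.mix (nat_lit 7471104) (nat_lit 45793280)) (I.mix (nat_lit 9830400) (nat_lit 40976384)) (I.neg (nat_lit 16859136) (nat_lit 26214400)) (I.pos (nat_lit 140623872) (nat_lit 154927104)) (I.mix (nat_lit 53379072) (nat_lit 50724864)) (I.mix (nat_lit 48037888) (nat_lit 41533440)) (I.mix (nat_lit 12419072) (nat_lit 13778944)))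
  false (nat_lit 0)
def b0_11 : Bx := Bx.mk (St.mk (I.pos (nat_lit 118145024) (nat_lit 192610304)) (I.mix (nat_lit 38567936) (nat_lit 18857984)) (I.neg (nat_lit 5455872) (nat_lit 65437696)) (I.pos (nat_lit 198492160) (nat_lit 285851648)) (I.mix (nat_lit 65273856) (nat_lit 72335360)) (I.mix (nat_lit 68517888) (nat_lit 64864256)) (I.mix (nat_lit 68894720) (nat_lit 56164352)))
  false (nat_lit 0)
def b0_12 : Bx := Bx.mk (St.mk (I.pos (nat_lit 151371776) (nat_lit 197246976)) (I.mix (nat_lit 9027584) (nat_lit 42106880)) (I.mix (nat_lit 37847040) (nat_lit 26214400)) (I.pos (nat_lit 249511936) (nat_lit 293535744)) (I.mix (nat_lit 110641152) (nat_lit 96665600)) (I.mix (nat_lit 127664128) (nat_lit 81018880)) (I.mix (nat_lit 130760704) (nat_lit 68124672)))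
  false (nat_lit 7190211)
def t0 : BTr := (BTr.n (BTr.n (BTr.n (BTr.b b0_0) (BTr.n (BTr.b b0_1) (BTr.b b0_2))) (BTr.n (BTr.b b0_3) (BTr.n (BTr.b b0_4) (BTr.b b0_5)))) (BTr.n (BTr.n (BTr.b b0_6) (BTr.n (BTr.b b0_7) (BTr.b b0_8))) (BTr.n (BTr.n (BTr.b b0_9) (BTr.b b0_10)) (BTr.n (BTr.b b0_11) (BTr.b b0_12)))))
namespace T0
def l0 : Tr := Tr.L (Pth.l (Pth.l (Pth.l Pth.z)))
def l1 : Tr := Tr.L (Pth.l (Pth.l (Pth.r (Pth.l Pth.z))))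
def l2 : Tr := Tr.L (Pth.l (Pth.l (Pth.r (Pth.r Pth.z))))
def l3 : Tr := Tr.L (Pth.l (Pth.r (Pth.l Pth.z)))
def l4 : Tr := Tr.L (Pth.l (Pth.r (Pth.r (Pth.l Pth.z))))
def l5 : Tr := Tr.L (Pth.l (Pth.r (Pth.r (Pth.r Pth.z))))
def l6 : Tr := Tr.L (Pth.r (Pth.l (Pth.l Pth.z)))
def l7 : Tr := Tr.L (Pth.r (Pth.l (Pth.r (Pth.l Pth.z))))
def l8 : Tr := Tr.L (Pth.r (Pth.l (Pth.r (Pth.r Pth.z))))
def l9 : Tr := Tr.L (Pth.r (Pth.r (Pth.l (Pth.l Pth.z))))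
def l10 : Tr := Tr.L (Pth.r (Pth.r (Pth.l (Pth.r Pth.z))))
def l11 : Tr := Tr.L (Pth.r (Pth.r (Pth.r (Pth.l Pth.z))))
def l12 : Tr := Tr.L (Pth.r (Pth.r (Pth.r (Pth.r Pth.z))))
end T0
def b1_0 : Bx := Bx.mk (St.mk (I.pos (nat_lit 157138944) (nat_lit 234078208)) (I.mix (nat_lit 1654784) (nat_lit 54394880)) (I.mix (nat_lit 2326528) (nat_lit 80134144)) (I.pos (nat_lit 115818496) (nat_lit 249970688)) (I.mix (nat_lit 120848384) (nat_lit 70664192)) (I.mix (nat_lit 80478208) (nat_lit 72384512)) (I.mix (nat_lit 117161984) (nat_lit 100319232)))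
  false (nat_lit 22511457)
def b1_1 : Bx := Bx.mk (St.mk (I.mix (nat_lit 15925248) (nat_lit 128696320)) (I.mix (nat_lit 6275072) (nat_lit 30687232)) (I.mix (nat_lit 14991360) (nat_lit 17530880)) (I.pos (nat_lit 15237120) (nat_lit 97959936)) (I.mix (nat_lit 44498944) (nat_lit 51527680)) (I.mix (nat_lit 46071808) (nat_lit 33718272)) (I.mix (nat_lit 36503552) (nat_lit 23412736)))
  false (nat_lit 0)
def b1_2 : Bx := Bx.mk (St.mk (I.pos (nat_lit 104660992) (nat_lit 144474112)) (I.mix (nat_lit 47022080) (nat_lit 8159232)) (I.neg (nat_lit 1064960) (nat_lit 53035008)) (I.pos (nat_lit 63995904) (nat_lit 113704960)) (I.mix (nat_lit 92471296) (nat_lit 44302336)) (I.mix (nat_lit 41091072) (nat_lit 90980352)) (I.mix (nat_lit 31342592) (nat_lit 75464704)))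
  false (nat_lit 19501383)
def b1_3 : Bx := Bx.mk (St.mk (I.mix (nat_lit 20807680) (nat_lit 90816512)) (I.mix (nat_lit 27508736) (nat_lit 3653632)) (I.mix (nat_lit 21348352) (nat_lit 114688)) (I.pos (nat_lit 16400384) (nat_lit 66945024)) (I.mix (nat_lit 44400640) (nat_lit 23969792)) (I.mix (nat_lit 24182784) (nat_lit 40550400)) (I.mix (nat_lit 12517376) (nat_lit 21282816)))
  false (nat_lit 0)
def b1_4 : Bx := Bx.mk (St.mk (I.pos (nat_lit 185221120) (nat_lit 244940800)) (I.mix (nat_lit 13991936) (nat_lit 53739520)) (I.mix (nat_lit 47923200) (nat_lit 77332480)) (I.pos (nat_lit 188088320) (nat_lit 267468800)) (I.mix (nat_lit 116752384) (nat_lit 101285888)) (I.mix (nat_lit 110673920) (nat_lit 89030656)) (I.mix (nat_lit 183156736) (nat_lit 138969088)))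
  false (nat_lit 60103824)
def b1_5 : Bx := Bx.mk (St.mk (I.mix (nat_lit 29097984) (nat_lit 74022912)) (I.mix (nat_lit 5652480) (nat_lit 6848512)) (I.neg (nat_lit 475136) (nat_lit 8552448)) (I.pos (nat_lit 16875520) (nat_lit 57556992)) (I.mix (nat_lit 22495232) (nat_lit 14565376)) (I.mix (nat_lit 14761984) (nat_lit 14123008)) (I.mix (nat_lit 7421952) (nat_lit 7307264)))
  false (nat_lit 0)
def b1_6 : Bx := Bx.mk (St.mk (I.pos (nat_lit 99532800) (nat_lit 124780544)) (I.mix (nat_lit 9289728) (nat_lit 8060928)) (I.neg (nat_lit 835584) (nat_lit 17547264)) (I.pos (nat_lit 59768832) (nat_lit 95895552)) (I.mix (nat_lit 38486016) (nat_lit 22921216)) (I.mix (nat_lit 24100864) (nat_lit 24199168)) (I.mix (nat_lit 19365888) (nat_lit 21331968)))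
  false (nat_lit 0)
def b1_7 : Bx := Bx.mk (St.mk (I.pos (nat_lit 206012416) (nat_lit 256229376)) (I.mix (nat_lit 16318464) (nat_lit 19513344)) (I.mix (nat_lit 57294848) (nat_lit 6045696)) (I.pos (nat_lit 210763776) (nat_lit 296337408)) (I.mix (nat_lit 114065408) (nat_lit 36274176)) (I.mix (nat_lit 62930944) (nat_lit 65847296)) (I.mix (nat_lit 103301120) (nat_lit 121929728)))
  false (nat_lit 0)
def b1_8 : Bx := Bx.mk (St.mk (I.pos (nat_lit 114180096) (nat_lit 172359680)) (I.neg (nat_lit 2703360) (nat_lit 48775168)) (I.neg (nat_lit 9224192) (nat_lit 53854208)) (I.pos (nat_lit 80658432) (nat_lit 151552000)) (I.mix (nat_lit 80543744) (nat_lit 46678016)) (I.mix (nat_lit 49266688) (nat_lit 61259776)) (I.mix (nat_lit 43040768) (nat_lit 64765952)))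
  false (nat_lit 35626987)
def b1_9 : Bx := Bx.mk (St.mk (I.mix (nat_lit 26476544) (nat_lit 102203392)) (I.mix (nat_lit 28884992) (nat_lit 4308992)) (I.mix (nat_lit 23576576) (nat_lit 344064)) (I.pos (nat_lit 14712832) (nat_lit 75431936)) (I.mix (nat_lit 44597248) (nat_lit 36503552)) (I.mix (nat_lit 29818880) (nat_lit 38830080)) (I.mix (nat_lit 18825216) (nat_lit 25329664)))
  false (nat_lit 0)
def b1_10 : Bx := Bx.mk (St.mk (I.pos (nat_lit 164118528) (nat_lit 211484672)) (I.mix (nat_lit 14958592) (nat_lit 48939008)) (I.mix (nat_lit 8912896) (nat_lit 71745536)) (I.pos (nat_lit 128991232) (nat_lit 213008384)) (I.mix (nat_lit 133971968) (nat_lit 53542912)) (I.mix (nat_lit 127008768) (nat_lit 75988992)) (I.mix (nat_lit 142000128) (nat_lit 83066880)))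
  false (nat_lit 0)
def b1_11 : Bx := Bx.mk (St.mk (I.mix (nat_lit 23773184) (nat_lit 122716160)) (I.mix (nat_lit 10764288) (nat_lit 31948800)) (I.mix (nat_lit 12173312) (nat_lit 19775488)) (I.pos (nat_lit 15679488) (nat_lit 92487680)) (I.mix (nat_lit 60686336) (nat_lit 37437440)) (I.mix (nat_lit 53444608) (nat_lit 37715968)) (I.mix (nat_lit 32047104) (nat_lit 23904256)))
  false (nat_lit 0)
def b1_12 : Bx := Bx.mk (St.mk (I.pos (nat_lit 150355968) (nat_lit 201326592)) (I.mix (nat_lit 37961728) (nat_lit 5603328)) (I.mix (nat_lit 46694400) (nat_lit 8994816)) (I.pos (nat_lit 112066560) (nat_lit 193871872)) (I.mix (nat_lit 69206016) (nat_lit 61358080)) (I.mix (nat_lit 62963712) (nat_lit 59654144)) (I.mix (nat_lit 69550080) (nat_lit 62685184)))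
  false (nat_lit 51429688)
def b1_13 : Bx := Bx.mk (St.mk (I.pos (nat_lit 147111936) (nat_lit 171753472)) (I.neg (nat_lit 10829824) (nat_lit 35913728)) (I.neg (nat_lit 13238272) (nat_lit 43794432)) (I.pos (nat_lit 110034944) (nat_lit 151519232)) (I.mix (nat_lit 39780352) (nat_lit 19693568)) (I.mix (nat_lit 16859136) (nat_lit 25198592)) (I.mix (nat_lit 18644992) (nat_lit 28917760)))
  false (nat_lit 0)
def b1_14 : Bx := Bx.mk (St.mk (I.mix (nat_lit 25542656) (nat_lit 102481920)) (I.mix (nat_lit 12746752) (nat_lit 1982464)) (I.mix (nat_lit 13156352) (nat_lit 98304)) (I.pos (nat_lit 16433152) (nat_lit 75448320)) (I.mix (nat_lit 11943936) (nat_lit 11698176)) (I.mix (nat_lit 6815744) (nat_lit 8863744)) (I.mix (nat_lit 4603904) (nat_lit 6127616)))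
  false (nat_lit 0)
def b1_15 : Bx := Bx.mk (St.mk (I.pos (nat_lit 166379520) (nat_lit 202276864)) (I.mix (nat_lit 21381120) (nat_lit 19529728)) (I.mix (nat_lit 18792448) (nat_lit 32161792)) (I.pos (nat_lit 134397952) (nat_lit 191348736)) (I.mix (nat_lit 90882048) (nat_lit 69189632)) (I.mix (nat_lit 109019136) (nat_lit 69959680)) (I.mix (nat_lit 121339904) (nat_lit 75055104)))
  false (nat_lit 4852003)
def t1 : BTr := (BTr.n (BTr.n (BTr.n (BTr.n (BTr.b b1_0) (BTr.b b1_1)) (BTr.n (BTr.b b1_2) (BTr.b b1_3))) (BTr.n (BTr.n (BTr.b b1_4) (BTr.b b1_5)) (BTr.n (BTr.b b1_6) (BTr.b b1_7)))) (BTr.n (BTr.n (BTr.n (BTr.b b1_8) (BTr.b b1_9)) (BTr.n (BTr.b b1_10) (BTr.b b1_11))) (BTr.n (BTr.n (BTr.b b1_12) (BTr.b b1_13)) (BTr.n (BTr.b b1_14) (BTr.b b1_15)))))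
namespace T1
def l0 : Tr := Tr.L (Pth.l (Pth.l (Pth.l (Pth.l Pth.z))))
def l1 : Tr := Tr.L (Pth.l (Pth.l (Pth.l (Pth.r Pth.z))))
def l2 : Tr := Tr.L (Pth.l (Pth.l (Pth.r (Pth.l Pth.z))))
def l3 : Tr := Tr.L (Pth.l (Pth.l (Pth.r (Pth.r Pth.z))))
def l4 : Tr := Tr.L (Pth.l (Pth.r (Pth.l (Pth.l Pth.z))))
def l5 : Tr := Tr.L (Pth.l (Pth.r (Pth.l (Pth.r Pth.z))))
def l6 : Tr := Tr.L (Pth.l (Pth.r (Pth.r (Pth.l Pth.z))))
def l7 : Tr := Tr.L (Pth.l (Pth.r (Pth.r (Pth.r Pth.z))))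
def l8 : Tr := Tr.L (Pth.r (Pth.l (Pth.l (Pth.l Pth.z))))
def l9 : Tr := Tr.L (Pth.r (Pth.l (Pth.l (Pth.r Pth.z))))
def l10 : Tr := Tr.L (Pth.r (Pth.l (Pth.r (Pth.l Pth.z))))
def l11 : Tr := Tr.L (Pth.r (Pth.l (Pth.r (Pth.r Pth.z))))
def l12 : Tr := Tr.L (Pth.r (Pth.r (Pth.l (Pth.l Pth.z))))
def l13 : Tr := Tr.L (Pth.r (Pth.r (Pth.l (Pth.r Pth.z))))
def l14 : Tr := Tr.L (Pth.r (Pth.r (Pth.r (Pth.l Pth.z))))
def l15 : Tr := Tr.L (Pth.r (Pth.r (Pth.r (Pth.r Pth.z))))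
end T1
def b2_0 : Bx := Bx.mk (St.mk (I.pos (nat_lit 148422656) (nat_lit 217186304)) (I.mix (nat_lit 2867200) (nat_lit 95698944)) (I.mix (nat_lit 14778368) (nat_lit 71122944)) (I.pos (nat_lit 376946688) (nat_lit 471547904)) (I.mix (nat_lit 149520384) (nat_lit 95911936)) (I.mix (nat_lit 98238464) (nat_lit 92225536)) (I.mix (nat_lit 132694016) (nat_lit 133070848)))
  false (nat_lit 69439727)
def b2_1 : Bx := Bx.mk (St.mk (I.mix (nat_lit 49790976) (nat_lit 6455296)) (I.mix (nat_lit 606208) (nat_lit 83361792)) (I.neg (nat_lit 60080128) (nat_lit 86228992)) (I.pos (nat_lit 261177344) (nat_lit 289931264)) (I.mix (nat_lit 51642368) (nat_lit 130351104)) (I.mix (nat_lit 96354304) (nat_lit 72400896)) (I.mix (nat_lit 51167232) (nat_lit 43352064)))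
  true (nat_lit 0)
def b2_2 : Bx := Bx.mk (St.mk (I.pos (nat_lit 6176768) (nat_lit 49790976)) (I.neg (nat_lit 31064064) (nat_lit 83361792)) (I.neg (nat_lit 59572224) (nat_lit 86228992)) (I.pos (nat_lit 265191424) (nat_lit 289931264)) (I.mix (nat_lit 130351104) (nat_lit 51642368)) (I.mix (nat_lit 72400896) (nat_lit 97370112)) (I.mix (nat_lit 51167232) (nat_lit 46923776)))
  false (nat_lit 29809510)
def b2_3 : Bx := Bx.mk (St.mk (I.pos (nat_lit 12746752) (nat_lit 119177216)) (I.neg (nat_lit 2801664) (nat_lit 85590016)) (I.neg (nat_lit 18448384) (nat_lit 96911360)) (I.pos (nat_lit 263258112) (nat_lit 331235328)) (I.mix (nat_lit 138723328) (nat_lit 77119488)) (I.mix (nat_lit 81035264) (nat_lit 94535680)) (I.mix (nat_lit 92880896) (nat_lit 82657280)))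
  false (nat_lit 95258983)
def b2_4 : Bx := Bx.mk (St.mk (I.pos (nat_lit 90734592) (nat_lit 194658304)) (I.mix (nat_lit 41664512) (nat_lit 88408064)) (I.mix (nat_lit 58540032) (nat_lit 70647808)) (I.pos (nat_lit 301580288) (nat_lit 441663488)) (I.mix (nat_lit 178438144) (nat_lit 101646336)) (I.mix (nat_lit 156041216) (nat_lit 130072576)) (I.mix (nat_lit 162938880) (nat_lit 151273472)))
  false (nat_lit 90830985)
def b2_5 : Bx := Bx.mk (St.mk (I.neg (nat_lit 12746752) (nat_lit 121962496)) (I.pos (nat_lit 2801664) (nat_lit 85590016)) (I.neg (nat_lit 18432000) (nat_lit 96911360)) (I.pos (nat_lit 263258112) (nat_lit 333807616)) (I.mix (nat_lit 77119488) (nat_lit 138739712)) (I.mix (nat_lit 94552064) (nat_lit 81051648)) (I.mix (nat_lit 92897280) (nat_lit 82673664)))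
  true (nat_lit 0)
def b2_6 : Bx := Bx.mk (St.mk (I.pos (nat_lit 181977088) (nat_lit 272384000)) (I.mix (nat_lit 9322496) (nat_lit 51871744)) (I.neg (nat_lit 15138816) (nat_lit 156073984)) (I.pos (nat_lit 415825920) (nat_lit 560316416)) (I.mix (nat_lit 105840640) (nat_lit 86982656)) (I.mix (nat_lit 83165184) (nat_lit 75268096)) (I.mix (nat_lit 131792896) (nat_lit 136069120)))
  false (nat_lit 22758393)
def b2_7 : Bx := Bx.mk (St.mk (I.mix (nat_lit 11485184) (nat_lit 36601856)) (I.mix (nat_lit 38731776) (nat_lit 6160384)) (I.neg (nat_lit 60424192) (nat_lit 73646080)) (I.pos (nat_lit 261488640) (nat_lit 276512768)) (I.mix (nat_lit 55083008) (nat_lit 45989888)) (I.mix (nat_lit 38731776) (nat_lit 43008000)) (I.mix (nat_lit 9306112) (nat_lit 18268160)))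
  false (nat_lit 0)
def b2_8 : Bx := Bx.mk (St.mk (I.mix (nat_lit 10878976) (nat_lit 10895360)) (I.mix (nat_lit 6160384) (nat_lit 20086784)) (I.neg (nat_lit 63242240) (nat_lit 71499776)) (I.pos (nat_lit 261537792) (nat_lit 270499840)) (I.mix (nat_lit 25772032) (nat_lit 42319872)) (I.mix (nat_lit 29605888) (nat_lit 23412736)) (I.mix (nat_lit 1261568) (nat_lit 8650752)))
  true (nat_lit 0)
def b2_9 : Bx := Bx.mk (St.mk (I.pos (nat_lit 167346176) (nat_lit 223592448)) (I.pos (nat_lit 22740992) (nat_lit 89358336)) (I.mix (nat_lit 52117504) (nat_lit 51019776)) (I.pos (nat_lit 407617536) (nat_lit 472236032)) (I.mix (nat_lit 115458048) (nat_lit 102924288)) (I.mix (nat_lit 100712448) (nat_lit 80740352)) (I.mix (nat_lit 173752320) (nat_lit 108363776)))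
  false (nat_lit 43557196)
def b2_10 : Bx := Bx.mk (St.mk (I.pos (nat_lit 7536640) (nat_lit 39239680)) (I.neg (nat_lit 17367040) (nat_lit 68206592)) (I.neg (nat_lit 62439424) (nat_lit 82558976)) (I.pos (nat_lit 263815168) (nat_lit 282361856)) (I.mix (nat_lit 112541696) (nat_lit 47710208)) (I.mix (nat_lit 53428224) (nat_lit 92585984)) (I.mix (nat_lit 29933568) (nat_lit 29851648)))
  false (nat_lit 0)
def t2 : BTr := (BTr.n (BTr.n (BTr.n (BTr.b b2_0) (BTr.b b2_1)) (BTr.n (BTr.b b2_2) (BTr.n (BTr.b b2_3) (BTr.b b2_4)))) (BTr.n (BTr.n (BTr.b b2_5) (BTr.n (BTr.b b2_6) (BTr.b b2_7))) (BTr.n (BTr.b b2_8) (BTr.n (BTr.b b2_9) (BTr.b b2_10)))))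
namespace T2
def l0 : Tr := Tr.L (Pth.l (Pth.l (Pth.l Pth.z)))
def l1 : Tr := Tr.L (Pth.l (Pth.l (Pth.r Pth.z)))
def l2 : Tr := Tr.L (Pth.l (Pth.r (Pth.l Pth.z)))
def l3 : Tr := Tr.L (Pth.l (Pth.r (Pth.r (Pth.l Pth.z))))
def l4 : Tr := Tr.L (Pth.l (Pth.r (Pth.r (Pth.r Pth.z))))
def l5 : Tr := Tr.L (Pth.r (Pth.l (Pth.l Pth.z)))
def l6 : Tr := Tr.L (Pth.r (Pth.l (Pth.r (Pth.l Pth.z))))
def l7 : Tr := Tr.L (Pth.r (Pth.l (Pth.r (Pth.r Pth.z))))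
def l8 : Tr := Tr.L (Pth.r (Pth.r (Pth.l Pth.z)))
def l9 : Tr := Tr.L (Pth.r (Pth.r (Pth.r (Pth.l Pth.z))))
def l10 : Tr := Tr.L (Pth.r (Pth.r (Pth.r (Pth.r Pth.z))))
end T2
def b3_0 : Bx := Bx.mk (St.mk (I.pos (nat_lit 144375808) (nat_lit 234831872)) (I.mix (nat_lit 1540096) (nat_lit 50348032)) (I.mix (nat_lit 2949120) (nat_lit 103940096)) (I.pos (nat_lit 114819072) (nat_lit 238370816)) (I.mix (nat_lit 140902400) (nat_lit 89407488)) (I.mix (nat_lit 110166016) (nat_lit 96141312)) (I.mix (nat_lit 149684224) (nat_lit 129548288)))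
  false (nat_lit 47770800)
def b3_1 : Bx := Bx.mk (St.mk (I.pos (nat_lit 112607232) (nat_lit 173670400)) (I.neg (nat_lit 3801088) (nat_lit 52985856)) (I.mix (nat_lit 43171840) (nat_lit 9764864)) (I.pos (nat_lit 85295104) (nat_lit 150618112)) (I.mix (nat_lit 75530240) (nat_lit 58130432)) (I.mix (nat_lit 49496064) (nat_lit 62898176)) (I.mix (nat_lit 47824896) (nat_lit 67567616)))
  false (nat_lit 74537770)
def b3_2 : Bx := Bx.mk (St.mk (I.mix (nat_lit 21839872) (nat_lit 101941248)) (I.mix (nat_lit 28950528) (nat_lit 5046272)) (I.mix (nat_lit 14073856) (nat_lit 8962048)) (I.pos (nat_lit 15302656) (nat_lit 74711040)) (I.mix (nat_lit 36487168) (nat_lit 43335680)) (I.mix (nat_lit 28033024) (nat_lit 38699008)) (I.mix (nat_lit 15564800) (nat_lit 24051712)))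
  false (nat_lit 12466255)
def b3_3 : Bx := Bx.mk (St.mk (I.pos (nat_lit 158892032) (nat_lit 207257600)) (I.mix (nat_lit 16777216) (nat_lit 46612480)) (I.pos (nat_lit 9142272) (nat_lit 91717632)) (I.pos (nat_lit 119193600) (nat_lit 197836800)) (I.mix (nat_lit 134807552) (nat_lit 52822016)) (I.mix (nat_lit 124878848) (nat_lit 72171520)) (I.mix (nat_lit 141803520) (nat_lit 69828608)))
  false (nat_lit 37855240)
def b3_4 : Bx := Bx.mk (St.mk (I.mix (nat_lit 22413312) (nat_lit 119472128)) (I.mix (nat_lit 12713984) (nat_lit 31932416)) (I.mix (nat_lit 2752512) (nat_lit 31621120)) (I.pos (nat_lit 15859712) (nat_lit 89030656)) (I.mix (nat_lit 64749568) (nat_lit 36847616)) (I.mix (nat_lit 62111744) (nat_lit 33193984)) (I.mix (nat_lit 39878656) (nat_lit 19857408)))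
  false (nat_lit 8293453)
def b3_5 : Bx := Bx.mk (St.mk (I.pos (nat_lit 158171136) (nat_lit 199016448)) (I.mix (nat_lit 40665088) (nat_lit 19677184)) (I.mix (nat_lit 25542656) (nat_lit 54280192)) (I.pos (nat_lit 118390784) (nat_lit 185876480)) (I.mix (nat_lit 126943232) (nat_lit 70025216)) (I.mix (nat_lit 129679360) (nat_lit 69369856)) (I.mix (nat_lit 145932288) (nat_lit 69255168)))
  false (nat_lit 70434832)
def b3_6 : Bx := Bx.mk (St.mk (I.mix (nat_lit 29294592) (nat_lit 102219776)) (I.mix (nat_lit 13041664) (nat_lit 6307840)) (I.mix (nat_lit 2555904) (nat_lit 10698752)) (I.pos (nat_lit 16023552) (nat_lit 74399744)) (I.mix (nat_lit 28540928) (nat_lit 20774912)) (I.mix (nat_lit 18612224) (nat_lit 20348928)) (I.mix (nat_lit 12173312) (nat_lit 11993088)))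
  false (nat_lit 0)
def b3_7 : Bx := Bx.mk (St.mk (I.pos (nat_lit 141852672) (nat_lit 173506560)) (I.neg (nat_lit 999424) (nat_lit 34897920)) (I.mix (nat_lit 21037056) (nat_lit 15761408)) (I.pos (nat_lit 105250816) (nat_lit 150634496)) (I.mix (nat_lit 61440000) (nat_lit 31342592)) (I.mix (nat_lit 32423936) (nat_lit 43843584)) (I.mix (nat_lit 38830080) (nat_lit 43909120)))
  false (nat_lit 11327720)
def b3_8 : Bx := Bx.mk (St.mk (I.pos (nat_lit 152911872) (nat_lit 185401344)) (I.neg (nat_lit 6553600) (nat_lit 35520512)) (I.mix (nat_lit 21331968) (nat_lit 11927552)) (I.pos (nat_lit 117129216) (nat_lit 166772736)) (I.mix (nat_lit 42123264) (nat_lit 29343744)) (I.mix (nat_lit 30015488) (nat_lit 25952256)) (I.mix (nat_lit 33243136) (nat_lit 26247168)))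
  false (nat_lit 0)
def b3_9 : Bx := Bx.mk (St.mk (I.mix (nat_lit 18710528) (nat_lit 130351104)) (I.mix (nat_lit 3342336) (nat_lit 30310400)) (I.mix (nat_lit 753664) (nat_lit 31555584)) (I.pos (nat_lit 15007744) (nat_lit 99500032)) (I.mix (nat_lit 58982400) (nat_lit 46071808)) (I.mix (nat_lit 44253184) (nat_lit 37781504)) (I.mix (nat_lit 34832384) (nat_lit 28852224)))
  false (nat_lit 0)
def b3_10 : Bx := Bx.mk (St.mk (I.pos (nat_lit 108789760) (nat_lit 150913024)) (I.mix (nat_lit 49463296) (nat_lit 4079616)) (I.mix (nat_lit 39452672) (nat_lit 8683520)) (I.pos (nat_lit 64929792) (nat_lit 120209408)) (I.mix (nat_lit 83918848) (nat_lit 43024384)) (I.mix (nat_lit 40058880) (nat_lit 77119488)) (I.mix (nat_lit 32047104) (nat_lit 60768256)))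
  false (nat_lit 39429478)
def b3_11 : Bx := Bx.mk (St.mk (I.mix (nat_lit 21954560) (nat_lit 95436800)) (I.mix (nat_lit 28016640) (nat_lit 1163264)) (I.mix (nat_lit 12468224) (nat_lit 7979008)) (I.pos (nat_lit 16498688) (nat_lit 68337664)) (I.mix (nat_lit 42385408) (nat_lit 29884416)) (I.mix (nat_lit 25231360) (nat_lit 33259520)) (I.mix (nat_lit 12697600) (nat_lit 16023552)))
  false (nat_lit 0)
def b3_12 : Bx := Bx.mk (St.mk (I.pos (nat_lit 188809216) (nat_lit 264224768)) (I.mix (nat_lit 10780672) (nat_lit 33964032)) (I.mix (nat_lit 638976) (nat_lit 79167488)) (I.pos (nat_lit 183451648) (nat_lit 312541184)) (I.mix (nat_lit 108331008) (nat_lit 56279040)) (I.mix (nat_lit 67338240) (nat_lit 59703296)) (I.mix (nat_lit 109379584) (nat_lit 102449152)))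
  false (nat_lit 36360281)
def b3_13 : Bx := Bx.mk (St.mk (I.pos (nat_lit 109264896) (nat_lit 125714432)) (I.mix (nat_lit 1163264) (nat_lit 7110656)) (I.pos (nat_lit 1458176) (nat_lit 11239424)) (I.pos (nat_lit 65191936) (nat_lit 97239040)) (I.mix (nat_lit 10665984) (nat_lit 10878976)) (I.mix (nat_lit 7585792) (nat_lit 6012928)) (I.mix (nat_lit 6717440) (nat_lit 4980736)))
  false (nat_lit 0)
def b3_14 : Bx := Bx.mk (St.mk (I.mix (nat_lit 23412736) (nat_lit 73711616)) (I.mix (nat_lit 704512) (nat_lit 7012352)) (I.mix (nat_lit 114688) (nat_lit 6553600)) (I.pos (nat_lit 17743872) (nat_lit 56770560)) (I.mix (nat_lit 10878976) (nat_lit 12009472)) (I.mix (nat_lit 8519680) (nat_lit 8749056)) (I.mix (nat_lit 4554752) (nat_lit 4653056)))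
  false (nat_lit 0)
def b3_15 : Bx := Bx.mk (St.mk (I.pos (nat_lit 176570368) (nat_lit 234749952)) (I.pos (nat_lit 5750784) (nat_lit 49184768)) (I.pos (nat_lit 24625152) (nat_lit 100024320)) (I.pos (nat_lit 171720704) (nat_lit 237273088)) (I.mix (nat_lit 123174912) (nat_lit 92012544)) (I.mix (nat_lit 107986944) (nat_lit 79429632)) (I.mix (nat_lit 172277760) (nat_lit 102727680)))
  false (nat_lit 58278722)
def t3 : BTr := (BTr.n (BTr.n (BTr.n (BTr.n (BTr.b b3_0) (BTr.b b3_1)) (BTr.n (BTr.b b3_2) (BTr.b b3_3))) (BTr.n (BTr.n (BTr.b b3_4) (BTr.b b3_5)) (BTr.n (BTr.b b3_6) (BTr.b b3_7)))) (BTr.n (BTr.n (BTr.n (BTr.b b3_8) (BTr.b b3_9)) (BTr.n (BTr.b b3_10) (BTr.b b3_11))) (BTr.n (BTr.n (BTr.b b3_12) (BTr.b b3_13)) (BTr.n (BTr.b b3_14) (BTr.b b3_15)))))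
namespace T3
def l0 : Tr := Tr.L (Pth.l (Pth.l (Pth.l (Pth.l Pth.z))))
def l1 : Tr := Tr.L (Pth.l (Pth.l (Pth.l (Pth.r Pth.z))))
def l2 : Tr := Tr.L (Pth.l (Pth.l (Pth.r (Pth.l Pth.z))))
def l3 : Tr := Tr.L (Pth.l (Pth.l (Pth.r (Pth.r Pth.z))))
def l4 : Tr := Tr.L (Pth.l (Pth.r (Pth.l (Pth.l Pth.z))))
def l5 : Tr := Tr.L (Pth.l (Pth.r (Pth.l (Pth.r Pth.z))))
def l6 : Tr := Tr.L (Pth.l (Pth.r (Pth.r (Pth.l Pth.z))))
def l7 : Tr := Tr.L (Pth.l (Pth.r (Pth.r (Pth.r Pth.z))))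
def l8 : Tr := Tr.L (Pth.r (Pth.l (Pth.l (Pth.l Pth.z))))
def l9 : Tr := Tr.L (Pth.r (Pth.l (Pth.l (Pth.r Pth.z))))
def l10 : Tr := Tr.L (Pth.r (Pth.l (Pth.r (Pth.l Pth.z))))
def l11 : Tr := Tr.L (Pth.r (Pth.l (Pth.r (Pth.r Pth.z))))
def l12 : Tr := Tr.L (Pth.r (Pth.r (Pth.l (Pth.l Pth.z))))
def l13 : Tr := Tr.L (Pth.r (Pth.r (Pth.l (Pth.r Pth.z))))
def l14 : Tr := Tr.L (Pth.r (Pth.r (Pth.r (Pth.l Pth.z))))
def l15 : Tr := Tr.L (Pth.r (Pth.r (Pth.r (Pth.r Pth.z))))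
end T3
def b4_0 : Bx := Bx.mk (St.mk (I.pos (nat_lit 131530752) (nat_lit 217628672)) (I.mix (nat_lit 2555904) (nat_lit 85803008)) (I.mix (nat_lit 3653632) (nat_lit 123682816)) (I.pos (nat_lit 359546880) (nat_lit 452706304)) (I.mix (nat_lit 161103872) (nat_lit 95354880)) (I.mix (nat_lit 106102784) (nat_lit 86900736)) (I.mix (nat_lit 127107072) (nat_lit 120979456)))
  false (nat_lit 161020592)
def b4_1 : Bx := Bx.mk (St.mk (I.pos (nat_lit 32849920) (nat_lit 122109952)) (I.neg (nat_lit 16285696) (nat_lit 93143040)) (I.mix (nat_lit 53329920) (nat_lit 24477696)) (I.pos (nat_lit 275808256) (nat_lit 330383360)) (I.mix (nat_lit 112427008) (nat_lit 86867968)) (I.mix (nat_lit 89440256) (nat_lit 83247104)) (I.mix (nat_lit 86540288) (nat_lit 70877184)))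
  false (nat_lit 143099360)
def b4_2 : Bx := Bx.mk (St.mk (I.pos (nat_lit 97599488) (nat_lit 178618368)) (I.mix (nat_lit 30179328) (nat_lit 84246528)) (I.pos (nat_lit 6406144) (nat_lit 129679360)) (I.pos (nat_lit 305512448) (nat_lit 406257664)) (I.mix (nat_lit 201719808) (nat_lit 86999040)) (I.mix (nat_lit 169295872) (nat_lit 121454592)) (I.mix (nat_lit 176422912) (nat_lit 155041792)))
  false (nat_lit 137118282)
def b4_3 : Bx := Bx.mk (St.mk (I.neg (nat_lit 32849920) (nat_lit 122109952)) (I.pos (nat_lit 16072704) (nat_lit 93143040)) (I.mix (nat_lit 53329920) (nat_lit 24477696)) (I.pos (nat_lit 275808256) (nat_lit 330563584)) (I.mix (nat_lit 86867968) (nat_lit 112443392)) (I.mix (nat_lit 83230720) (nat_lit 89505792)) (I.mix (nat_lit 86556672) (nat_lit 70893568)))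
  true (nat_lit 32033700)
def b4_4 : Bx := Bx.mk (St.mk (I.mix (nat_lit 63307776) (nat_lit 12910592)) (I.mix (nat_lit 14008320) (nat_lit 89473024)) (I.neg (nat_lit 18038784) (nat_lit 41877504)) (I.pos (nat_lit 266436608) (nat_lit 298958848)) (I.mix (nat_lit 75431936) (nat_lit 112492544)) (I.mix (nat_lit 92684288) (nat_lit 85229568)) (I.mix (nat_lit 46809088) (nat_lit 33964032)))
  true (nat_lit 0)
def b4_5 : Bx := Bx.mk (St.mk (I.pos (nat_lit 19972096) (nat_lit 63258624)) (I.neg (nat_lit 35700736) (nat_lit 89473024)) (I.neg (nat_lit 19595264) (nat_lit 41877504)) (I.pos (nat_lit 273743872) (nat_lit 298958848)) (I.mix (nat_lit 112492544) (nat_lit 77234176)) (I.mix (nat_lit 85229568) (nat_lit 87752704)) (I.mix (nat_lit 46809088) (nat_lit 34799616)))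
  false (nat_lit 75503977)
def b4_6 : Bx := Bx.mk (St.mk (I.pos (nat_lit 95879168) (nat_lit 120143872)) (I.neg (nat_lit 17432576) (nat_lit 43433984)) (I.mix (nat_lit 4079616) (nat_lit 23052288)) (I.pos (nat_lit 306724864) (nat_lit 329695232)) (I.mix (nat_lit 25034752) (nat_lit 29573120)) (I.mix (nat_lit 18939904) (nat_lit 17367040)) (I.mix (nat_lit 15466496) (nat_lit 15515648)))
  false (nat_lit 0)
def b4_7 : Bx := Bx.mk (St.mk (I.pos (nat_lit 179470336) (nat_lit 291307520)) (I.mix (nat_lit 32571392) (nat_lit 62423040)) (I.mix (nat_lit 110149632) (nat_lit 76349440)) (I.pos (nat_lit 411320320) (nat_lit 584990720)) (I.mix (nat_lit 91815936) (nat_lit 88391680)) (I.mix (nat_lit 88408064) (nat_lit 66961408)) (I.mix (nat_lit 155156480) (nat_lit 111165440)))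
  false (nat_lit 134820147)
def b4_8 : Bx := Bx.mk (St.mk (I.mix (nat_lit 12910592) (nat_lit 50397184)) (I.mix (nat_lit 48480256) (nat_lit 14008320)) (I.neg (nat_lit 18120704) (nat_lit 30261248)) (I.pos (nat_lit 266633216) (nat_lit 284000256)) (I.mix (nat_lit 56934400) (nat_lit 49954816)) (I.mix (nat_lit 42418176) (nat_lit 40534016)) (I.mix (nat_lit 12140544) (nat_lit 12992512)))
  false (nat_lit 0)
def b4_9 : Bx := Bx.mk (St.mk (I.pos (nat_lit 144818176) (nat_lit 203898880)) (I.pos (nat_lit 30949376) (nat_lit 83492864)) (I.pos (nat_lit 42303488) (nat_lit 116260864)) (I.pos (nat_lit 376307712) (nat_lit 434601984)) (I.mix (nat_lit 138133504) (nat_lit 104267776)) (I.mix (nat_lit 113704960) (nat_lit 78348288)) (I.mix (nat_lit 159498240) (nat_lit 105332736)))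
  false (nat_lit 119133381)
def b4_10 : Bx := Bx.mk (St.mk (I.pos (nat_lit 22364160) (nat_lit 55541760)) (I.neg (nat_lit 25542656) (nat_lit 75350016)) (I.neg (nat_lit 19251200) (nat_lit 39026688)) (I.pos (nat_lit 274071552) (nat_lit 291127296)) (I.mix (nat_lit 102416384) (nat_lit 58507264)) (I.mix (nat_lit 51888128) (nat_lit 92684288)) (I.mix (nat_lit 29523968) (nat_lit 25198592)))
  false (nat_lit 1291682)
def t4 : BTr := (BTr.n (BTr.n (BTr.n (BTr.b b4_0) (BTr.b b4_1)) (BTr.n (BTr.b b4_2) (BTr.n (BTr.b b4_3) (BTr.b b4_4)))) (BTr.n (BTr.n (BTr.b b4_5) (BTr.n (BTr.b b4_6) (BTr.b b4_7))) (BTr.n (BTr.b b4_8) (BTr.n (BTr.b b4_9) (BTr.b b4_10)))))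
namespace T4
def l0 : Tr := Tr.L (Pth.l (Pth.l (Pth.l Pth.z)))
def l1 : Tr := Tr.L (Pth.l (Pth.l (Pth.r Pth.z)))
def l2 : Tr := Tr.L (Pth.l (Pth.r (Pth.l Pth.z)))
def l3 : Tr := Tr.L (Pth.l (Pth.r (Pth.r (Pth.l Pth.z))))
def l4 : Tr := Tr.L (Pth.l (Pth.r (Pth.r (Pth.r Pth.z))))
def l5 : Tr := Tr.L (Pth.r (Pth.l (Pth.l Pth.z)))
def l6 : Tr := Tr.L (Pth.r (Pth.l (Pth.r (Pth.l Pth.z))))
def l7 : Tr := Tr.L (Pth.r (Pth.l (Pth.r (Pth.r Pth.z))))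
def l8 : Tr := Tr.L (Pth.r (Pth.r (Pth.l Pth.z)))
def l9 : Tr := Tr.L (Pth.r (Pth.r (Pth.r (Pth.l Pth.z))))
def l10 : Tr := Tr.L (Pth.r (Pth.r (Pth.r (Pth.r Pth.z))))
end T4
def b5_0 : Bx := Bx.mk (St.mk (I.pos (nat_lit 128679936) (nat_lit 220446720)) (I.mix (nat_lit 1949696) (nat_lit 63504384)) (I.mix (nat_lit 3735552) (nat_lit 129007616)) (I.pos (nat_lit 224296960) (nat_lit 322928640)) (I.mix (nat_lit 158253056) (nat_lit 101367808)) (I.mix (nat_lit 114491392) (nat_lit 105775104)) (I.mix (nat_lit 146391040) (nat_lit 122634240)))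
  false (nat_lit 77692951)
def b5_1 : Bx := Bx.mk (St.mk (I.pos (nat_lit 81952768) (nat_lit 146276352)) (I.neg (nat_lit 7356416) (nat_lit 71892992)) (I.mix (nat_lit 31686656) (nat_lit 34226176)) (I.pos (nat_lit 177012736) (nat_lit 222691328)) (I.mix (nat_lit 75972608) (nat_lit 81412096)) (I.mix (nat_lit 64389120) (nat_lit 69451776)) (I.mix (nat_lit 52379648) (nat_lit 66093056)))
  false (nat_lit 96358342)
def b5_2 : Bx := Bx.mk (St.mk (I.mix (nat_lit 29655040) (nat_lit 3129344)) (I.mix (nat_lit 40861696) (nat_lit 7716864)) (I.pos (nat_lit 17563648) (nat_lit 26378240)) (I.pos (nat_lit 139821056) (nat_lit 150257664)) (I.mix (nat_lit 38699008) (nat_lit 64389120)) (I.mix (nat_lit 35225600) (nat_lit 50233344)) (I.mix (nat_lit 7684096) (nat_lit 10010624)))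
  true (nat_lit 0)
def b5_3 : Bx := Bx.mk (St.mk (I.pos (nat_lit 135168000) (nat_lit 183369728)) (I.pos (nat_lit 589824) (nat_lit 57311232)) (I.pos (nat_lit 50380800) (nat_lit 119570432)) (I.pos (nat_lit 210452480) (nat_lit 270286848)) (I.mix (nat_lit 153616384) (nat_lit 43433984)) (I.mix (nat_lit 136331264) (nat_lit 68632576)) (I.mix (nat_lit 140574720) (nat_lit 66764800)))
  false (nat_lit 67795828)
def b5_4 : Bx := Bx.mk (St.mk (I.mix (nat_lit 3129344) (nat_lit 29655040)) (I.mix (nat_lit 8536064) (nat_lit 40878080)) (I.pos (nat_lit 17563648) (nat_lit 26378240)) (I.pos (nat_lit 139821056) (nat_lit 150257664)) (I.mix (nat_lit 64389120) (nat_lit 38699008)) (I.mix (nat_lit 50249728) (nat_lit 35225600)) (I.mix (nat_lit 7684096) (nat_lit 10010624)))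
  false (nat_lit 0)
def b5_5 : Bx := Bx.mk (St.mk (I.pos (nat_lit 118128640) (nat_lit 144424960)) (I.neg (nat_lit 5881856) (nat_lit 34390016)) (I.pos (nat_lit 7553024) (nat_lit 37584896)) (I.pos (nat_lit 195477504) (nat_lit 220446720)) (I.mix (nat_lit 60342272) (nat_lit 50036736)) (I.mix (nat_lit 38043648) (nat_lit 51511296)) (I.mix (nat_lit 40108032) (nat_lit 43859968)))
  false (nat_lit 0)
def b5_6 : Bx := Bx.mk (St.mk (I.mix (nat_lit 20840448) (nat_lit 1671168)) (I.mix (nat_lit 15777792) (nat_lit 9551872)) (I.pos (nat_lit 18235392) (nat_lit 23412736)) (I.pos (nat_lit 140034048) (nat_lit 145080320)) (I.mix (nat_lit 33865728) (nat_lit 26050560)) (I.mix (nat_lit 21905408) (nat_lit 25133056)) (I.mix (nat_lit 4685824) (nat_lit 3948544)))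
  true (nat_lit 0)
def b5_7 : Bx := Bx.mk (St.mk (I.pos (nat_lit 133955584) (nat_lit 162545664)) (I.neg (nat_lit 12533760) (nat_lit 38092800)) (I.pos (nat_lit 4751360) (nat_lit 32473088)) (I.pos (nat_lit 211009536) (nat_lit 240926720)) (I.mix (nat_lit 50249728) (nat_lit 57327616)) (I.mix (nat_lit 54067200) (nat_lit 43024384)) (I.mix (nat_lit 50905088) (nat_lit 42074112)))
  false (nat_lit 18754341)
def b5_8 : Bx := Bx.mk (St.mk (I.pos (nat_lit 132448256) (nat_lit 182419456)) (I.mix (nat_lit 39534592) (nat_lit 35127296)) (I.pos (nat_lit 5144576) (nat_lit 92995584)) (I.pos (nat_lit 206323712) (nat_lit 264372224)) (I.mix (nat_lit 154796032) (nat_lit 86687744)) (I.mix (nat_lit 143605760) (nat_lit 90062848)) (I.mix (nat_lit 144850944) (nat_lit 89260032)))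
  false (nat_lit 78882315)
def b5_9 : Bx := Bx.mk (St.mk (I.pos (nat_lit 9633792) (nat_lit 71417856)) (I.mix (nat_lit 10092544) (nat_lit 46153728)) (I.pos (nat_lit 1196032) (nat_lit 29097984)) (I.pos (nat_lit 139231232) (nat_lit 163561472)) (I.mix (nat_lit 62750720) (nat_lit 60637184)) (I.mix (nat_lit 54689792) (nat_lit 49348608)) (I.mix (nat_lit 31866880) (nat_lit 28459008)))
  false (nat_lit 0)
def b5_10 : Bx := Bx.mk (St.mk (I.pos (nat_lit 54444032) (nat_lit 110247936)) (I.mix (nat_lit 68059136) (nat_lit 10911744)) (I.mix (nat_lit 28753920) (nat_lit 13991936)) (I.pos (nat_lit 152518656) (nat_lit 194609152)) (I.mix (nat_lit 89980928) (nat_lit 55721984)) (I.mix (nat_lit 53788672) (nat_lit 77840384)) (I.mix (nat_lit 38486016) (nat_lit 42958848)))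
  false (nat_lit 44975340)
def b5_11 : Bx := Bx.mk (St.mk (I.neg (nat_lit 9633792) (nat_lit 71417856)) (I.mix (nat_lit 46153728) (nat_lit 10092544)) (I.pos (nat_lit 1196032) (nat_lit 29097984)) (I.pos (nat_lit 139231232) (nat_lit 163561472)) (I.mix (nat_lit 60653568) (nat_lit 62750720)) (I.mix (nat_lit 49348608) (nat_lit 54722560)) (I.mix (nat_lit 31866880) (nat_lit 28459008)))
  true (nat_lit 0)
def b5_12 : Bx := Bx.mk (St.mk (I.pos (nat_lit 167116800) (nat_lit 286654464)) (I.mix (nat_lit 25640960) (nat_lit 51068928)) (I.mix (nat_lit 28688384) (nat_lit 112852992)) (I.pos (nat_lit 265617408) (nat_lit 450347008)) (I.mix (nat_lit 115294208) (nat_lit 78004224)) (I.mix (nat_lit 82280448) (nat_lit 66355200)) (I.mix (nat_lit 139411456) (nat_lit 106496000)))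
  false (nat_lit 116921842)
def b5_13 : Bx := Bx.mk (St.mk (I.pos (nat_lit 155746304) (nat_lit 216547328)) (I.pos (nat_lit 12009472) (nat_lit 63569920)) (I.pos (nat_lit 47415296) (nat_lit 127795200)) (I.pos (nat_lit 252805120) (nat_lit 309706752)) (I.mix (nat_lit 130220032) (nat_lit 101285888)) (I.mix (nat_lit 115245056) (nat_lit 87523328)) (I.mix (nat_lit 164806656) (nat_lit 96600064)))
  false (nat_lit 76394357)
def t5 : BTr := (BTr.n (BTr.n (BTr.n (BTr.b b5_0) (BTr.n (BTr.b b5_1) (BTr.b b5_2))) (BTr.n (BTr.n (BTr.b b5_3) (BTr.b b5_4)) (BTr.n (BTr.b b5_5) (BTr.b b5_6)))) (BTr.n (BTr.n (BTr.b b5_7) (BTr.n (BTr.b b5_8) (BTr.b b5_9))) (BTr.n (BTr.n (BTr.b b5_10) (BTr.b b5_11)) (BTr.n (BTr.b b5_12) (BTr.b b5_13)))))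
namespace T5
def l0 : Tr := Tr.L (Pth.l (Pth.l (Pth.l Pth.z)))
def l1 : Tr := Tr.L (Pth.l (Pth.l (Pth.r (Pth.l Pth.z))))
def l2 : Tr := Tr.L (Pth.l (Pth.l (Pth.r (Pth.r Pth.z))))
def l3 : Tr := Tr.L (Pth.l (Pth.r (Pth.l (Pth.l Pth.z))))
def l4 : Tr := Tr.L (Pth.l (Pth.r (Pth.l (Pth.r Pth.z))))
def l5 : Tr := Tr.L (Pth.l (Pth.r (Pth.r (Pth.l Pth.z))))
def l6 : Tr := Tr.L (Pth.l (Pth.r (Pth.r (Pth.r Pth.z))))
def l7 : Tr := Tr.L (Pth.r (Pth.l (Pth.l Pth.z)))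
def l8 : Tr := Tr.L (Pth.r (Pth.l (Pth.r (Pth.l Pth.z))))
def l9 : Tr := Tr.L (Pth.r (Pth.l (Pth.r (Pth.r Pth.z))))
def l10 : Tr := Tr.L (Pth.r (Pth.r (Pth.l (Pth.l Pth.z))))
def l11 : Tr := Tr.L (Pth.r (Pth.r (Pth.l (Pth.r Pth.z))))
def l12 : Tr := Tr.L (Pth.r (Pth.r (Pth.r (Pth.l Pth.z))))
def l13 : Tr := Tr.L (Pth.r (Pth.r (Pth.r (Pth.r Pth.z))))
end T5
theorem bx0_0 : BoxOK sI cl4 cl5 cl9 t2 t4 b0_0 :=
  box_mk (TrL.c (I.pos (nat_lit 0) (nat_lit 0)) (xb (xa (xb T2.l0 T2.l0) T2.l0) (xa (xb T2.l0 (xa (xb T2.l0 T2.l0) T2.l0)) (xb T2.l0 (xa (xb T2.l0 T2.l0) (xs T2.l0 (xb T2.l0 T2.l0))))))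
  (TrL.c (I.pos (nat_lit 0) (nat_lit 0)) (xb T4.l1 (xa T4.l1 T4.l1))
  (TrL.c (I.pos (nat_lit 0) (nat_lit 0)) T2.l1
  (TrL.c (I.pos (nat_lit 0) (nat_lit 0)) T4.l2
  (TrL.c (I.pos (nat_lit 0) (nat_lit 0)) (xa (xb T2.l2 T2.l2) T2.l2)
  (TrL.c (I.pos (nat_lit 0) (nat_lit 0)) (xb T4.l3 (xa T4.l3 T4.l3))
  TrL.n)))))) (by decide +kernel)
theorem bx0_1 : BoxOK sI cl4 cl5 cl9 t2 t4 b0_1 :=
  box_mk (TrL.c (I.pos (nat_lit 0) (nat_lit 0)) (xb T2.l6 T2.l6)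
  (TrL.c (I.pos (nat_lit 0) (nat_lit 0)) T4.l1
  (TrL.c (I.pos (nat_lit 0) (nat_lit 0)) T2.l1
  (TrL.c (I.pos (nat_lit 0) (nat_lit 0)) T4.l2
  (TrL.c (I.pos (nat_lit 0) (nat_lit 0)) T2.l7
  (TrL.c (I.pos (nat_lit 0) (nat_lit 0)) T4.l3
  TrL.n)))))) (by decide +kernel)
theorem bx0_2 : BoxOK sI cl4 cl5 cl9 t2 t4 b0_2 :=
  box_mk (TrL.c (I.pos (nat_lit 0) (nat_lit 0)) (xb (xa T2.l6 T2.l6) (xa T2.l6 T2.l6))
  (TrL.c (I.pos (nat_lit 0) (nat_lit 0)) T4.l1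
  (TrL.c (I.pos (nat_lit 0) (nat_lit 0)) T2.l1
  (TrL.c (I.pos (nat_lit 0) (nat_lit 0)) T4.l2
  (TrL.c (I.pos (nat_lit 0) (nat_lit 0)) T2.l7
  (TrL.c (I.pos (nat_lit 0) (nat_lit 0)) T4.l3
  TrL.n)))))) (by decide +kernel)
theorem bx0_3 : BoxOK sI cl4 cl5 cl9 t2 t4 b0_3 :=
  box_mk (TrL.c (I.pos (nat_lit 0) (nat_lit 0)) T4.l1
  (TrL.c (I.pos (nat_lit 0) (nat_lit 0)) T2.l1
  TrL.n)) (by decide +kernel)
theorem bx0_4 : BoxOK sI cl4 cl5 cl9 t2 t4 b0_4 :=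
  box_mk (TrL.c (I.pos (nat_lit 0) (nat_lit 0)) T2.l6
  (TrL.c (I.pos (nat_lit 0) (nat_lit 0)) T4.l1
  (TrL.c (I.pos (nat_lit 0) (nat_lit 0)) T2.l1
  (TrL.c (I.pos (nat_lit 0) (nat_lit 0)) T4.l2
  (TrL.c (I.pos (nat_lit 0) (nat_lit 0)) T2.l7
  (TrL.c (I.pos (nat_lit 0) (nat_lit 0)) T4.l3
  TrL.n)))))) (by decide +kernel)
theorem bx0_5 : BoxOK sI cl4 cl5 cl9 t2 t4 b0_5 :=
  box_mk (TrL.c (I.pos (nat_lit 0) (nat_lit 0)) (xa T2.l0 T2.l4)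
  (TrL.c (I.pos (nat_lit 0) (nat_lit 0)) (xa T4.l1 T4.l1)
  (TrL.c (I.pos (nat_lit 0) (nat_lit 0)) T2.l5
  (TrL.c (I.pos (nat_lit 0) (nat_lit 0)) (xa T4.l2 (xb T4.l2 T4.l2))
  (TrL.c (I.pos (nat_lit 0) (nat_lit 0)) T2.l3
  (TrL.c (I.pos (nat_lit 0) (nat_lit 0)) (xa T4.l3 T4.l3)
  TrL.n)))))) (by decide +kernel)
theorem bx0_6 : BoxOK sI cl4 cl5 cl9 t2 t4 b0_6 :=
  box_mk (TrL.c (I.pos (nat_lit 0) (nat_lit 0)) (xb (xa (xb (xa (xb (xc T2.l0 T2.l0) (xc T2.l0 T2.l0)) T2.l4) (xa (xb (xc T2.l0 T2.l0) (xc T2.l0 T2.l0)) T2.l4)) (xb T2.l4 T2.l4)) (xa (xb (xa (xb (xa (xc T2.l0 T2.l0) T2.l0) (xa (xc T2.l0 T2.l0) T2.l0)) (xb (xa T2.l0 T2.l0) (xa T2.l0 T2.l0))) (xa (xb (xa (xs T2.l0 (xc T2.l0 T2.l0)) (xs T2.l0 T2.l0)) (xs T2.l0 (xa (xc T2.l0 T2.l0) T2.l0))) (xb (xs T2.l0 (xa T2.l0 T2.l0)) (xs T2.l0 (xa T2.l0 T2.l0))))) (xb (xa T2.l4 (xb T2.l4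 (xs T2.l0 T2.l4))) (xa (xb (xs T2.l0 T2.l0) (xs T2.l0 (xa T2.l0 T2.l0))) (xs (xb T2.l0 (xa T2.l0 T2.l0)) (xb (xa T2.l0 T2.l0) (xa T2.l0 (xc T2.l0 T2.l0))))))))
  (TrL.c (I.pos (nat_lit 0) (nat_lit 0)) (xb (xa T4.l1 (xb T4.l1 T4.l1)) (xa (xb T4.l1 T4.l1) (xb T4.l1 T4.l1)))
  (TrL.c (I.pos (nat_lit 0) (nat_lit 0)) (xc (xb T2.l5 (xa T2.l1 (xs T2.l1 T2.l5))) (xb T2.l5 (xa T2.l1 (xs T2.l1 T2.l1))))
  (TrL.c (I.pos (nat_lit 0) (nat_lit 0)) (xb (xa (xb (xa T4.l2 T4.l2) T4.l2) (xb (xa T4.l2 (xc T4.l2 T4.l2)) (xa T4.l2 T4.l2))) (xa T4.l2 (xb (xa T4.l2 (xc T4.l2 T4.l2)) (xa T4.l2 (xc T4.l2 T4.l2)))))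
  (TrL.c (I.pos (nat_lit 0) (nat_lit 0)) (xb (xa T2.l3 (xc T2.l3 T2.l3)) (xc (xa T2.l2 (xs T2.l2 T2.l2)) (xa T2.l2 (xs T2.l2 T2.l2))))
  (TrL.c (I.pos (nat_lit 0) (nat_lit 0)) (xb (xa T4.l3 (xb T4.l3 T4.l3)) (xa (xb T4.l3 T4.l3) (xb T4.l3 T4.l3)))
  TrL.n)))))) (by decide +kernel)
theorem bx0_7 : BoxOK sI cl4 cl5 cl9 t2 t4 b0_7 :=
  box_mk (TrL.c (I.pos (nat_lit 0) (nat_lit 0)) (xa (xb (xa T2.l6 T2.l6) (xa T2.l6 T2.l6)) (xb (xa T2.l6 T2.l6) (xa T2.l6 T2.l6)))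
  (TrL.c (I.pos (nat_lit 0) (nat_lit 0)) (xa T4.l1 T4.l1)
  (TrL.c (I.pos (nat_lit 0) (nat_lit 0)) T2.l1
  (TrL.c (I.pos (nat_lit 0) (nat_lit 0)) T4.l2
  (TrL.c (I.pos (nat_lit 0) (nat_lit 0)) (xa T2.l7 T2.l3)
  (TrL.c (I.pos (nat_lit 0) (nat_lit 0)) (xa T4.l3 T4.l3)
  TrL.n)))))) (by decide +kernel)
theorem bx0_8 : BoxOK sI cl4 cl5 cl9 t2 t4 b0_8 :=
  box_mk (TrL.c (I.pos (nat_lit 0) (nat_lit 0)) T4.l1
  (TrL.c (I.pos (nat_lit 0) (nat_lit 0)) T2.l8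
  TrL.n)) (by decide +kernel)
theorem bx0_9 : BoxOK sI cl4 cl5 cl9 t2 t4 b0_9 :=
  box_mk (TrL.c (I.pos (nat_lit 0) (nat_lit 0)) (xb (xa (xb T2.l9 (xa T2.l9 T2.l9)) (xb T2.l9 (xa T2.l9 T2.l9))) (xa (xb (xa T2.l9 T2.l9) (xa T2.l9 T2.l9)) (xb (xa T2.l9 T2.l9) (xa T2.l9 T2.l9))))
  (TrL.c (I.pos (nat_lit 0) (nat_lit 0)) (xb T4.l1 T4.l1)
  (TrL.c (I.pos (nat_lit 0) (nat_lit 0)) (xb T2.l1 T2.l1)
  (TrL.c (I.pos (nat_lit 0) (nat_lit 0)) T4.l2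
  (TrL.c (I.pos (nat_lit 0) (nat_lit 0)) (xa T2.l10 T2.l2)
  (TrL.c (I.pos (nat_lit 0) (nat_lit 0)) (xb T4.l3 T4.l3)
  TrL.n)))))) (by decide +kernel)
theorem bx0_10 : BoxOK sI cl4 cl5 cl9 t2 t4 b0_10 :=
  box_mk (TrL.c (I.pos (nat_lit 0) (nat_lit 0)) (xb (xa T2.l6 T2.l6) (xa T2.l6 T2.l6))
  (TrL.c (I.pos (nat_lit 0) (nat_lit 0)) T4.l1
  (TrL.c (I.pos (nat_lit 0) (nat_lit 0)) T2.l8
  (TrL.c (I.pos (nat_lit 0) (nat_lit 0)) T4.l2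
  (TrL.c (I.pos (nat_lit 0) (nat_lit 0)) T2.l7
  (TrL.c (I.pos (nat_lit 0) (nat_lit 0)) T4.l3
  TrL.n)))))) (by decide +kernel)
theorem bx0_11 : BoxOK sI cl4 cl5 cl9 t2 t4 b0_11 :=
  box_mk (TrL.c (I.pos (nat_lit 0) (nat_lit 0)) (xa (xb (xa T2.l6 T2.l9) (xa T2.l9 T2.l9)) (xb (xa T2.l9 T2.l9) T2.l9))
  (TrL.c (I.pos (nat_lit 0) (nat_lit 0)) T4.l1
  (TrL.c (I.pos (nat_lit 0) (nat_lit 0)) T2.l1
  (TrL.c (I.pos (nat_lit 0) (nat_lit 0)) T4.l2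
  (TrL.c (I.pos (nat_lit 0) (nat_lit 0)) (xa T2.l10 T2.l3)
  (TrL.c (I.pos (nat_lit 0) (nat_lit 0)) T4.l3
  TrL.n)))))) (by decide +kernel)
theorem bx0_12 : BoxOK sI cl4 cl5 cl9 t2 t4 b0_12 :=
  box_mk (TrL.c (I.pos (nat_lit 0) (nat_lit 0)) (xb (xa T2.l9 T2.l0) (xa (xb T2.l9 T2.l9) (xb T2.l9 T2.l0)))
  (TrL.c (I.pos (nat_lit 0) (nat_lit 0)) T4.l1
  (TrL.c (I.pos (nat_lit 0) (nat_lit 0)) T2.l1
  (TrL.c (I.pos (nat_lit 0) (nat_lit 0)) T4.l2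
  (TrL.c (I.pos (nat_lit 0) (nat_lit 0)) T2.l10
  (TrL.c (I.pos (nat_lit 0) (nat_lit 0)) T4.l3
  TrL.n)))))) (by decide +kernel)
theorem sv0 : StarV sI cl4 cl5 cl9 t2 t4 t0 :=
  (bt_n (bt_n (bt_n (bt_b bx0_0) (bt_n (bt_b bx0_1) (bt_b bx0_2))) (bt_n (bt_b bx0_3) (bt_n (bt_b bx0_4) (bt_b bx0_5)))) (bt_n (bt_n (bt_b bx0_6) (bt_n (bt_b bx0_7) (bt_b bx0_8))) (bt_n (bt_n (bt_b bx0_9) (bt_b bx0_10)) (bt_n (bt_b bx0_11) (bt_b bx0_12)))))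
def S0 : StarD := StarD.mk cl4 cl5 cl9 2 4 t0
theorem bx1_0 : BoxOK sI cl4 cl9 cl5 t4 t2 b1_0 :=
  box_mk (TrL.c (I.pos (nat_lit 0) (nat_lit 0)) (xa (xb (xa T4.l0 T4.l0) (xa (xb T4.l0 (xa T4.l0 T4.l0)) (xb T4.l0 (xa T4.l0 T4.l0)))) (xb (xa T4.l0 (xb T4.l0 T4.l0)) (xa (xb T4.l0 (xa T4.l0 T4.l0)) (xb (xa T4.l0 T4.l0) (xa T4.l0 T4.l0)))))
  (TrL.c (I.pos (nat_lit 0) (nat_lit 0)) (xa (xb T2.l3 (xa T2.l3 T2.l3)) (xb T2.l3 (xa T2.l3 T2.l3)))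
  (TrL.c (I.pos (nat_lit 0) (nat_lit 0)) T4.l4
  (TrL.c (I.pos (nat_lit 0) (nat_lit 0)) (xa T2.l4 T2.l4)
  (TrL.c (I.pos (nat_lit 0) (nat_lit 0)) (xa (xb T4.l5 T4.l5) T4.l5)
  (TrL.c (I.pos (nat_lit 0) (nat_lit 0)) (xa (xb T2.l5 (xa T2.l5 T2.l5)) (xb T2.l5 (xa T2.l5 T2.l5)))
  TrL.n)))))) (by decide +kernel)
theorem bx1_1 : BoxOK sI cl4 cl9 cl5 t4 t2 b1_1 :=
  box_mk (TrL.c (I.pos (nat_lit 0) (nat_lit 0)) (xa (xa (xb T4.l7 (xa T4.l7 T4.l7)) T4.l7) (xa T4.l7 (xa T4.l7 (xb T4.l7 T4.l7))))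
  (TrL.c (I.pos (nat_lit 0) (nat_lit 0)) (xa (xa T2.l4 T2.l3) T2.l3)
  (TrL.c (I.pos (nat_lit 0) (nat_lit 0)) T4.l4
  (TrL.c (I.pos (nat_lit 0) (nat_lit 0)) (xa T2.l4 T2.l4)
  (TrL.c (I.pos (nat_lit 0) (nat_lit 0)) T4.l8
  (TrL.c (I.pos (nat_lit 0) (nat_lit 0)) (xa T2.l5 T2.l5)
  TrL.n)))))) (by decide +kernel)
theorem bx1_2 : BoxOK sI cl4 cl9 cl5 t4 t2 b1_2 :=
  box_mk (TrL.c (I.pos (nat_lit 0) (nat_lit 0)) (xb (xa T4.l7 T4.l0) (xa T4.l7 T4.l7))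
  (TrL.c (I.pos (nat_lit 0) (nat_lit 0)) T2.l3
  (TrL.c (I.pos (nat_lit 0) (nat_lit 0)) T4.l4
  (TrL.c (I.pos (nat_lit 0) (nat_lit 0)) T2.l4
  (TrL.c (I.pos (nat_lit 0) (nat_lit 0)) T4.l8
  (TrL.c (I.pos (nat_lit 0) (nat_lit 0)) T2.l5
  TrL.n)))))) (by decide +kernel)
theorem bx1_3 : BoxOK sI cl4 cl9 cl5 t4 t2 b1_3 :=
  box_mk (TrL.c (I.pos (nat_lit 0) (nat_lit 0)) (xa T4.l7 T4.l7)
  (TrL.c (I.pos (nat_lit 0) (nat_lit 0)) (xa T2.l3 T2.l3)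
  (TrL.c (I.pos (nat_lit 0) (nat_lit 0)) T4.l4
  (TrL.c (I.pos (nat_lit 0) (nat_lit 0)) (xa T2.l4 T2.l4)
  (TrL.c (I.pos (nat_lit 0) (nat_lit 0)) T4.l8
  (TrL.c (I.pos (nat_lit 0) (nat_lit 0)) (xa T2.l5 T2.l5)
  TrL.n)))))) (by decide +kernel)
theorem bx1_4 : BoxOK sI cl4 cl9 cl5 t4 t2 b1_4 :=
  box_mk (TrL.c (I.pos (nat_lit 0) (nat_lit 0)) (xa (xb (xb (xa (xb T4.l0 T4.l0) (xb T4.l0 T4.l0)) (xa (xb T4.l0 (xa T4.l0 T4.l0)) (xa T4.l0 T4.l0))) (xb (xa (xb (xa T4.l0 T4.l0) (xs T4.l0 (xa T4.l0 T4.l0))) (xs T4.l0 (xb T4.l0 (xa T4.l0 T4.l0)))) (xa (xs (xb T4.l0 T4.l0) (xb (xa T4.l0 T4.l0) (xa T4.l0 T4.l0))) (xs (xa T4.l0 T4.l0) (xb (xa T4.l0 T4.l0) (xa T4.l0 T4.l0)))))) (xb (xb T4.l2 (xa T4.l2 T4.l2)) (xa (xb (xs T4.l0 T4.l2) (xs (xa T4.l0 T4.l0) (xa T4.l2 T4.l2))) (xb T4.l2 (xs (xa T4.l2 T4.l2) (xa T4.l2 T4.l2))))))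
  (TrL.c (I.pos (nat_lit 0) (nat_lit 0)) (xa (xb (xa T2.l3 T2.l3) (xa T2.l3 (xb T2.l3 T2.l3))) (xb (xa T2.l3 (xb T2.l3 T2.l3)) (xa (xb T2.l3 T2.l3) (xb T2.l3 T2.l3))))
  (TrL.c (I.pos (nat_lit 0) (nat_lit 0)) (xa (xb T4.l4 T4.l4) (xc (xb T4.l4 T4.l4) (xb T4.l4 T4.l4)))
  (TrL.c (I.pos (nat_lit 0) (nat_lit 0)) (xb (xa (xb T2.l4 T2.l4) (xb (xa T2.l4 T2.l4) T2.l4)) (xa T2.l4 (xb (xa T2.l4 T2.l4) (xa T2.l4 T2.l4))))
  (TrL.c (I.pos (nat_lit 0) (nat_lit 0)) (xa T4.l5 (xc T4.l5 (xb T4.l5 T4.l5)))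
  (TrL.c (I.pos (nat_lit 0) (nat_lit 0)) (xa (xb (xa T2.l5 T2.l5) (xa T2.l5 (xb T2.l5 T2.l5))) (xb (xa T2.l5 (xb T2.l5 T2.l5)) (xa (xb T2.l5 T2.l5) (xb T2.l5 T2.l5))))
  TrL.n)))))) (by decide +kernel)
theorem bx1_5 : BoxOK sI cl4 cl9 cl5 t4 t2 b1_5 :=
  box_mk (TrL.c (I.pos (nat_lit 0) (nat_lit 0)) T4.l7
  (TrL.c (I.pos (nat_lit 0) (nat_lit 0)) (xa T2.l3 T2.l3)
  (TrL.c (I.pos (nat_lit 0) (nat_lit 0)) T4.l4
  (TrL.c (I.pos (nat_lit 0) (nat_lit 0)) T2.l4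
  (TrL.c (I.pos (nat_lit 0) (nat_lit 0)) T4.l8
  (TrL.c (I.pos (nat_lit 0) (nat_lit 0)) T2.l5
  TrL.n)))))) (by decide +kernel)
theorem bx1_6 : BoxOK sI cl4 cl9 cl5 t4 t2 b1_6 :=
  box_mk (TrL.c (I.pos (nat_lit 0) (nat_lit 0)) T4.l7
  (TrL.c (I.pos (nat_lit 0) (nat_lit 0)) T2.l3
  (TrL.c (I.pos (nat_lit 0) (nat_lit 0)) T4.l4
  (TrL.c (I.pos (nat_lit 0) (nat_lit 0)) T2.l4
  (TrL.c (I.pos (nat_lit 0) (nat_lit 0)) T4.l8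
  (TrL.c (I.pos (nat_lit 0) (nat_lit 0)) T2.l5
  TrL.n)))))) (by decide +kernel)
theorem bx1_7 : BoxOK sI cl4 cl9 cl5 t4 t2 b1_7 :=
  box_mk (TrL.c (I.pos (nat_lit 0) (nat_lit 0)) (xa (xb T4.l0 T4.l0) T4.l2)
  (TrL.c (I.pos (nat_lit 0) (nat_lit 0)) (xa T2.l3 (xb T2.l3 T2.l3))
  (TrL.c (I.pos (nat_lit 0) (nat_lit 0)) T4.l3
  (TrL.c (I.pos (nat_lit 0) (nat_lit 0)) (xa T2.l4 (xb T2.l4 T2.l4))
  (TrL.c (I.pos (nat_lit 0) (nat_lit 0)) T4.l1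
  (TrL.c (I.pos (nat_lit 0) (nat_lit 0)) (xa T2.l5 (xb T2.l5 T2.l5))
  TrL.n)))))) (by decide +kernel)
theorem bx1_8 : BoxOK sI cl4 cl9 cl5 t4 t2 b1_8 :=
  box_mk (TrL.c (I.pos (nat_lit 0) (nat_lit 0)) (xa (xb T4.l0 T4.l7) T4.l0)
  (TrL.c (I.pos (nat_lit 0) (nat_lit 0)) T2.l3
  (TrL.c (I.pos (nat_lit 0) (nat_lit 0)) T4.l4
  (TrL.c (I.pos (nat_lit 0) (nat_lit 0)) T2.l4
  (TrL.c (I.pos (nat_lit 0) (nat_lit 0)) T4.l8
  (TrL.c (I.pos (nat_lit 0) (nat_lit 0)) T2.l5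
  TrL.n)))))) (by decide +kernel)
theorem bx1_9 : BoxOK sI cl4 cl9 cl5 t4 t2 b1_9 :=
  box_mk (TrL.c (I.pos (nat_lit 0) (nat_lit 0)) (xa (xa (xb T4.l7 T4.l7) T4.l7) T4.l7)
  (TrL.c (I.pos (nat_lit 0) (nat_lit 0)) (xa T2.l3 T2.l3)
  (TrL.c (I.pos (nat_lit 0) (nat_lit 0)) (xa T4.l4 T4.l4)
  (TrL.c (I.pos (nat_lit 0) (nat_lit 0)) (xa T2.l4 T2.l4)
  (TrL.c (I.pos (nat_lit 0) (nat_lit 0)) (xa T4.l8 T4.l8)
  (TrL.c (I.pos (nat_lit 0) (nat_lit 0)) (xa T2.l5 T2.l5)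
  TrL.n)))))) (by decide +kernel)
theorem bx1_10 : BoxOK sI cl4 cl9 cl5 t4 t2 b1_10 :=
  box_mk (TrL.c (I.pos (nat_lit 0) (nat_lit 0)) (xb (xa (xb T4.l9 T4.l9) (xb T4.l9 T4.l9)) (xa (xb (xa T4.l9 T4.l9) (xa T4.l9 T4.l9)) (xb (xa T4.l9 T4.l9) (xa T4.l9 T4.l9))))
  (TrL.c (I.pos (nat_lit 0) (nat_lit 0)) (xb (xa T2.l3 T2.l3) (xa T2.l3 (xb T2.l3 T2.l3)))
  (TrL.c (I.pos (nat_lit 0) (nat_lit 0)) (xb T4.l4 T4.l4)
  (TrL.c (I.pos (nat_lit 0) (nat_lit 0)) (xb T2.l4 T2.l4)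
  (TrL.c (I.pos (nat_lit 0) (nat_lit 0)) (xb T4.l10 T4.l10)
  (TrL.c (I.pos (nat_lit 0) (nat_lit 0)) (xb (xa T2.l5 T2.l5) (xa T2.l5 (xb T2.l5 T2.l5)))
  TrL.n)))))) (by decide +kernel)
theorem bx1_11 : BoxOK sI cl4 cl9 cl5 t4 t2 b1_11 :=
  box_mk (TrL.c (I.pos (nat_lit 0) (nat_lit 0)) (xa (xa (xb T4.l7 (xa T4.l7 T4.l7)) (xb T4.l7 T4.l7)) (xa T4.l7 (xb T4.l7 (xa T4.l7 T4.l7))))
  (TrL.c (I.pos (nat_lit 0) (nat_lit 0)) (xa (xa T2.l4 T2.l3) T2.l3)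
  (TrL.c (I.pos (nat_lit 0) (nat_lit 0)) (xa T4.l4 T4.l4)
  (TrL.c (I.pos (nat_lit 0) (nat_lit 0)) (xa (xa T2.l3 T2.l4) T2.l4)
  (TrL.c (I.pos (nat_lit 0) (nat_lit 0)) (xa T4.l8 T4.l8)
  (TrL.c (I.pos (nat_lit 0) (nat_lit 0)) (xa (xa T2.l5 T2.l5) T2.l5)
  TrL.n)))))) (by decide +kernel)
theorem bx1_12 : BoxOK sI cl4 cl9 cl5 t4 t2 b1_12 :=
  box_mk (TrL.c (I.pos (nat_lit 0) (nat_lit 0)) T4.l0
  (TrL.c (I.pos (nat_lit 0) (nat_lit 0)) T2.l3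
  (TrL.c (I.pos (nat_lit 0) (nat_lit 0)) T4.l4
  (TrL.c (I.pos (nat_lit 0) (nat_lit 0)) T2.l4
  (TrL.c (I.pos (nat_lit 0) (nat_lit 0)) (xa T4.l10 T4.l10)
  (TrL.c (I.pos (nat_lit 0) (nat_lit 0)) T2.l5
  TrL.n)))))) (by decide +kernel)
theorem bx1_13 : BoxOK sI cl4 cl9 cl5 t4 t2 b1_13 :=
  box_mk (TrL.c (I.pos (nat_lit 0) (nat_lit 0)) T4.l0
  (TrL.c (I.pos (nat_lit 0) (nat_lit 0)) T2.l3
  (TrL.c (I.pos (nat_lit 0) (nat_lit 0)) T4.l4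
  (TrL.c (I.pos (nat_lit 0) (nat_lit 0)) T2.l4
  (TrL.c (I.pos (nat_lit 0) (nat_lit 0)) T4.l8
  (TrL.c (I.pos (nat_lit 0) (nat_lit 0)) T2.l5
  TrL.n)))))) (by decide +kernel)
theorem bx1_14 : BoxOK sI cl4 cl9 cl5 t4 t2 b1_14 :=
  box_mk (TrL.c (I.pos (nat_lit 0) (nat_lit 0)) T4.l7
  (TrL.c (I.pos (nat_lit 0) (nat_lit 0)) (xa T2.l3 T2.l3)
  (TrL.c (I.pos (nat_lit 0) (nat_lit 0)) T4.l4
  (TrL.c (I.pos (nat_lit 0) (nat_lit 0)) (xa T2.l4 T2.l4)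
  (TrL.c (I.pos (nat_lit 0) (nat_lit 0)) T4.l8
  (TrL.c (I.pos (nat_lit 0) (nat_lit 0)) T2.l5
  TrL.n)))))) (by decide +kernel)
theorem bx1_15 : BoxOK sI cl4 cl9 cl5 t4 t2 b1_15 :=
  box_mk (TrL.c (I.pos (nat_lit 0) (nat_lit 0)) (xb (xa T4.l9 T4.l9) (xa T4.l9 T4.l9))
  (TrL.c (I.pos (nat_lit 0) (nat_lit 0)) T2.l3
  (TrL.c (I.pos (nat_lit 0) (nat_lit 0)) T4.l4
  (TrL.c (I.pos (nat_lit 0) (nat_lit 0)) T2.l4
  (TrL.c (I.pos (nat_lit 0) (nat_lit 0)) T4.l10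
  (TrL.c (I.pos (nat_lit 0) (nat_lit 0)) T2.l5
  TrL.n)))))) (by decide +kernel)
theorem sv1 : StarV sI cl4 cl9 cl5 t4 t2 t1 :=
  (bt_n (bt_n (bt_n (bt_n (bt_b bx1_0) (bt_b bx1_1)) (bt_n (bt_b bx1_2) (bt_b bx1_3))) (bt_n (bt_n (bt_b bx1_4) (bt_b bx1_5)) (bt_n (bt_b bx1_6) (bt_b bx1_7)))) (bt_n (bt_n (bt_n (bt_b bx1_8) (bt_b bx1_9)) (bt_n (bt_b bx1_10) (bt_b bx1_11))) (bt_n (bt_n (bt_b bx1_12) (bt_b bx1_13)) (bt_n (bt_b bx1_14) (bt_b bx1_15)))))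
def S1 : StarD := StarD.mk cl4 cl9 cl5 4 2 t1
theorem bx2_0 : BoxOK sI cl5 cl4 cl9 t0 t5 b2_0 :=
  box_mk (TrL.c (I.pos (nat_lit 0) (nat_lit 0)) (xb (xa T0.l6 (xb T0.l0 T0.l0)) (xa (xb T0.l6 (xa T0.l0 T0.l0)) (xb T0.l0 (xa T0.l0 T0.l0))))
  (TrL.c (I.pos (nat_lit 0) (nat_lit 0)) (xb T5.l1 T5.l1)
  (TrL.c (I.pos (nat_lit 0) (nat_lit 0)) T0.l1
  (TrL.c (I.pos (nat_lit 0) (nat_lit 0)) T5.l2
  (TrL.c (I.pos (nat_lit 0) (nat_lit 0)) (xb (xa T5.l8 T5.l3) (xa T5.l3 T5.l3))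
  (TrL.c (I.pos (nat_lit 0) (nat_lit 0)) (xb T0.l2 T0.l2)
  (TrL.c (I.pos (nat_lit 0) (nat_lit 0)) T5.l4
  (TrL.c (I.pos (nat_lit 0) (nat_lit 0)) T0.l3
  TrL.n)))))))) (by decide +kernel)
theorem bx2_1 : BoxOK sI cl5 cl4 cl9 t0 t5 b2_1 :=
  box_mk (TrL.c (I.pos (nat_lit 0) (nat_lit 0)) T5.l5
  (TrL.c (I.pos (nat_lit 0) (nat_lit 0)) T0.l4
  (TrL.c (I.pos (nat_lit 0) (nat_lit 0)) T5.l6
  TrL.n))) (by decide +kernel)
theorem bx2_2 : BoxOK sI cl5 cl4 cl9 t0 t5 b2_2 :=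
  box_mk (TrL.c (I.pos (nat_lit 0) (nat_lit 0)) (xb T0.l5 T0.l6)
  (TrL.c (I.pos (nat_lit 0) (nat_lit 0)) T5.l1
  (TrL.c (I.pos (nat_lit 0) (nat_lit 0)) T0.l1
  (TrL.c (I.pos (nat_lit 0) (nat_lit 0)) T5.l6
  (TrL.c (I.pos (nat_lit 0) (nat_lit 0)) T5.l7
  (TrL.c (I.pos (nat_lit 0) (nat_lit 0)) T0.l2
  (TrL.c (I.pos (nat_lit 0) (nat_lit 0)) T5.l4
  (TrL.c (I.pos (nat_lit 0) (nat_lit 0)) T0.l3
  TrL.n)))))))) (by decide +kernel)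
theorem bx2_3 : BoxOK sI cl5 cl4 cl9 t0 t5 b2_3 :=
  box_mk (TrL.c (I.pos (nat_lit 0) (nat_lit 0)) (xa (xb (xa T0.l6 T0.l6) (xa T0.l6 T0.l6)) (xb T0.l6 T0.l6))
  (TrL.c (I.pos (nat_lit 0) (nat_lit 0)) (xa T5.l1 T5.l1)
  (TrL.c (I.pos (nat_lit 0) (nat_lit 0)) T0.l4
  (TrL.c (I.pos (nat_lit 0) (nat_lit 0)) T5.l2
  (TrL.c (I.pos (nat_lit 0) (nat_lit 0)) (xa T5.l8 T5.l8)
  (TrL.c (I.pos (nat_lit 0) (nat_lit 0)) T0.l2
  (TrL.c (I.pos (nat_lit 0) (nat_lit 0)) T5.l4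
  (TrL.c (I.pos (nat_lit 0) (nat_lit 0)) T0.l3
  TrL.n)))))))) (by decide +kernel)
theorem bx2_4 : BoxOK sI cl5 cl4 cl9 t0 t5 b2_4 :=
  box_mk (TrL.c (I.pos (nat_lit 0) (nat_lit 0)) (xb (xa (xb (xa T0.l6 T0.l6) (xa (xb T0.l6 T0.l6) T0.l6)) (xb (xa T0.l6 T0.l6) (xa T0.l6 T0.l6))) (xa (xb (xa (xb T0.l6 T0.l6) T0.l6) (xa (xb (xa T0.l6 T0.l6) (xa T0.l6 T0.l6)) (xb T0.l6 T0.l6))) (xb (xa T0.l6 T0.l6) (xa (xb T0.l6 (xa T0.l6 T0.l6)) (xb T0.l6 (xa T0.l6 T0.l6))))))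
  (TrL.c (I.pos (nat_lit 0) (nat_lit 0)) (xb (xa T5.l1 T5.l1) (xa T5.l1 T5.l1))
  (TrL.c (I.pos (nat_lit 0) (nat_lit 0)) (xb T0.l1 T0.l1)
  (TrL.c (I.pos (nat_lit 0) (nat_lit 0)) T5.l2
  (TrL.c (I.pos (nat_lit 0) (nat_lit 0)) (xb (xa T5.l8 (xb T5.l8 T5.l8)) (xa T5.l8 (xb T5.l8 T5.l8)))
  (TrL.c (I.pos (nat_lit 0) (nat_lit 0)) (xb T0.l2 (xa T0.l2 T0.l2))
  (TrL.c (I.pos (nat_lit 0) (nat_lit 0)) T5.l4
  (TrL.c (I.pos (nat_lit 0) (nat_lit 0)) (xb T0.l3 T0.l3)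
  TrL.n)))))))) (by decide +kernel)
theorem bx2_5 : BoxOK sI cl5 cl4 cl9 t0 t5 b2_5 :=
  box_mk (TrL.c (I.pos (nat_lit 0) (nat_lit 0)) (xa T5.l1 T5.l1)
  (TrL.c (I.pos (nat_lit 0) (nat_lit 0)) T0.l4
  (TrL.c (I.pos (nat_lit 0) (nat_lit 0)) T5.l2
  TrL.n))) (by decide +kernel)
theorem bx2_6 : BoxOK sI cl5 cl4 cl9 t0 t5 b2_6 :=
  box_mk (TrL.c (I.pos (nat_lit 0) (nat_lit 0)) (xa (xb T0.l0 (xa T0.l0 T0.l0)) (xb T0.l9 (xa T0.l0 T0.l0)))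
  (TrL.c (I.pos (nat_lit 0) (nat_lit 0)) (xa T5.l1 T5.l1)
  (TrL.c (I.pos (nat_lit 0) (nat_lit 0)) T0.l1
  (TrL.c (I.pos (nat_lit 0) (nat_lit 0)) T5.l11
  (TrL.c (I.pos (nat_lit 0) (nat_lit 0)) (xa (xb T5.l3 T5.l3) (xb T5.l0 (xa T5.l3 T5.l3)))
  (TrL.c (I.pos (nat_lit 0) (nat_lit 0)) (xa T0.l2 T0.l7)
  (TrL.c (I.pos (nat_lit 0) (nat_lit 0)) T5.l9
  (TrL.c (I.pos (nat_lit 0) (nat_lit 0)) T0.l3
  TrL.n)))))))) (by decide +kernel)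
theorem bx2_7 : BoxOK sI cl5 cl4 cl9 t0 t5 b2_7 :=
  box_mk (TrL.c (I.pos (nat_lit 0) (nat_lit 0)) (xb T0.l5 T0.l5)
  (TrL.c (I.pos (nat_lit 0) (nat_lit 0)) T5.l1
  (TrL.c (I.pos (nat_lit 0) (nat_lit 0)) T0.l1
  (TrL.c (I.pos (nat_lit 0) (nat_lit 0)) T5.l2
  (TrL.c (I.pos (nat_lit 0) (nat_lit 0)) T5.l7
  (TrL.c (I.pos (nat_lit 0) (nat_lit 0)) T0.l2
  (TrL.c (I.pos (nat_lit 0) (nat_lit 0)) T5.l4
  (TrL.c (I.pos (nat_lit 0) (nat_lit 0)) T0.l3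
  TrL.n)))))))) (by decide +kernel)
theorem bx2_8 : BoxOK sI cl5 cl4 cl9 t0 t5 b2_8 :=
  box_mk (TrL.c (I.pos (nat_lit 0) (nat_lit 0)) T5.l1
  (TrL.c (I.pos (nat_lit 0) (nat_lit 0)) T0.l4
  (TrL.c (I.pos (nat_lit 0) (nat_lit 0)) T5.l2
  TrL.n))) (by decide +kernel)
theorem bx2_9 : BoxOK sI cl5 cl4 cl9 t0 t5 b2_9 :=
  box_mk (TrL.c (I.pos (nat_lit 0) (nat_lit 0)) (xa (xb T0.l6 (xb T0.l0 (xa T0.l0 T0.l0))) (xb T0.l0 (xb T0.l0 (xa T0.l0 T0.l0))))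
  (TrL.c (I.pos (nat_lit 0) (nat_lit 0)) T5.l1
  (TrL.c (I.pos (nat_lit 0) (nat_lit 0)) T0.l1
  (TrL.c (I.pos (nat_lit 0) (nat_lit 0)) T5.l2
  (TrL.c (I.pos (nat_lit 0) (nat_lit 0)) (xb T5.l3 T5.l3)
  (TrL.c (I.pos (nat_lit 0) (nat_lit 0)) T0.l2
  (TrL.c (I.pos (nat_lit 0) (nat_lit 0)) T5.l4
  (TrL.c (I.pos (nat_lit 0) (nat_lit 0)) T0.l3
  TrL.n)))))))) (by decide +kernel)
theorem bx2_10 : BoxOK sI cl5 cl4 cl9 t0 t5 b2_10 :=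
  box_mk (TrL.c (I.pos (nat_lit 0) (nat_lit 0)) T0.l5
  (TrL.c (I.pos (nat_lit 0) (nat_lit 0)) T5.l1
  (TrL.c (I.pos (nat_lit 0) (nat_lit 0)) T0.l1
  (TrL.c (I.pos (nat_lit 0) (nat_lit 0)) T5.l2
  (TrL.c (I.pos (nat_lit 0) (nat_lit 0)) T5.l7
  (TrL.c (I.pos (nat_lit 0) (nat_lit 0)) T0.l2
  (TrL.c (I.pos (nat_lit 0) (nat_lit 0)) T5.l4
  (TrL.c (I.pos (nat_lit 0) (nat_lit 0)) T0.l3
  TrL.n)))))))) (by decide +kernel)
theorem sv2 : StarV sI cl5 cl4 cl9 t0 t5 t2 :=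
  (bt_n (bt_n (bt_n (bt_b bx2_0) (bt_b bx2_1)) (bt_n (bt_b bx2_2) (bt_n (bt_b bx2_3) (bt_b bx2_4)))) (bt_n (bt_n (bt_b bx2_5) (bt_n (bt_b bx2_6) (bt_b bx2_7))) (bt_n (bt_b bx2_8) (bt_n (bt_b bx2_9) (bt_b bx2_10)))))
def S2 : StarD := StarD.mk cl5 cl4 cl9 0 5 t2
theorem bx3_0 : BoxOK sI cl5 cl9 cl4 t5 t0 b3_0 :=
  box_mk (TrL.c (I.pos (nat_lit 0) (nat_lit 0)) (xa (xa (xb (xb T5.l0 T5.l0) (xa (xb T5.l0 T5.l0) (xb T5.l0 T5.l0))) (xb (xa T5.l0 (xb T5.l0 T5.l0)) (xa T5.l0 T5.l0))) (xa (xb (xb T5.l0 (xs T5.l0 T5.l0)) (xa T5.l0 (xb T5.l0 T5.l0))) (xb (xb (xs T5.l0 (xa T5.l0 T5.l0)) (xs T5.l0 (xa (xb T5.l0 T5.l0) (xb T5.l0 T5.l0)))) (xa (xb T5.l0 T5.l0) (xb T5.l0 T5.l0)))))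
  (TrL.c (I.pos (nat_lit 0) (nat_lit 0)) (xa (xb T0.l7 (xa T0.l7 T0.l7)) (xa (xb T0.l7 T0.l7) (xb T0.l7 T0.l7)))
  (TrL.c (I.pos (nat_lit 0) (nat_lit 0)) T5.l9
  (TrL.c (I.pos (nat_lit 0) (nat_lit 0)) T0.l8
  (TrL.c (I.pos (nat_lit 0) (nat_lit 0)) (xa (xb T0.l9 T0.l9) (xb (xa T0.l9 T0.l9) (xa T0.l9 T0.l9)))
  (TrL.c (I.pos (nat_lit 0) (nat_lit 0)) (xa T5.l10 (xb T5.l10 T5.l10))
  (TrL.c (I.pos (nat_lit 0) (nat_lit 0)) T0.l10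
  (TrL.c (I.pos (nat_lit 0) (nat_lit 0)) T5.l11
  TrL.n)))))))) (by decide +kernel)
theorem bx3_1 : BoxOK sI cl5 cl9 cl4 t5 t0 b3_1 :=
  box_mk (TrL.c (I.pos (nat_lit 0) (nat_lit 0)) (xa T5.l12 T5.l0)
  (TrL.c (I.pos (nat_lit 0) (nat_lit 0)) T0.l7
  (TrL.c (I.pos (nat_lit 0) (nat_lit 0)) T5.l9
  (TrL.c (I.pos (nat_lit 0) (nat_lit 0)) T0.l8
  (TrL.c (I.pos (nat_lit 0) (nat_lit 0)) (xa T0.l11 T0.l11)
  (TrL.c (I.pos (nat_lit 0) (nat_lit 0)) T5.l10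
  (TrL.c (I.pos (nat_lit 0) (nat_lit 0)) T0.l10
  (TrL.c (I.pos (nat_lit 0) (nat_lit 0)) T5.l11
  TrL.n)))))))) (by decide +kernel)
theorem bx3_2 : BoxOK sI cl5 cl9 cl4 t5 t0 b3_2 :=
  box_mk (TrL.c (I.pos (nat_lit 0) (nat_lit 0)) (xa (xa (xb T5.l12 T5.l12) T5.l12) T5.l12)
  (TrL.c (I.pos (nat_lit 0) (nat_lit 0)) (xa T0.l7 T0.l7)
  (TrL.c (I.pos (nat_lit 0) (nat_lit 0)) T5.l9
  (TrL.c (I.pos (nat_lit 0) (nat_lit 0)) T0.l8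
  (TrL.c (I.pos (nat_lit 0) (nat_lit 0)) (xa T0.l11 T0.l11)
  (TrL.c (I.pos (nat_lit 0) (nat_lit 0)) T5.l10
  (TrL.c (I.pos (nat_lit 0) (nat_lit 0)) T0.l10
  (TrL.c (I.pos (nat_lit 0) (nat_lit 0)) T5.l11
  TrL.n)))))))) (by decide +kernel)
theorem bx3_3 : BoxOK sI cl5 cl9 cl4 t5 t0 b3_3 :=
  box_mk (TrL.c (I.pos (nat_lit 0) (nat_lit 0)) (xb (xa T5.l13 T5.l13) (xa (xb T5.l13 T5.l13) (xb T5.l13 T5.l13)))
  (TrL.c (I.pos (nat_lit 0) (nat_lit 0)) (xb (xa T0.l7 T0.l7) (xa T0.l7 T0.l7))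
  (TrL.c (I.pos (nat_lit 0) (nat_lit 0)) T5.l9
  (TrL.c (I.pos (nat_lit 0) (nat_lit 0)) T0.l8
  (TrL.c (I.pos (nat_lit 0) (nat_lit 0)) (xb (xa T0.l12 T0.l12) T0.l9)
  (TrL.c (I.pos (nat_lit 0) (nat_lit 0)) T5.l10
  (TrL.c (I.pos (nat_lit 0) (nat_lit 0)) T0.l10
  (TrL.c (I.pos (nat_lit 0) (nat_lit 0)) T5.l11
  TrL.n)))))))) (by decide +kernel)
theorem bx3_4 : BoxOK sI cl5 cl9 cl4 t5 t0 b3_4 :=
  box_mk (TrL.c (I.pos (nat_lit 0) (nat_lit 0)) (xa (xa (xb T5.l12 (xa T5.l12 T5.l12)) (xb T5.l12 T5.l12)) (xa T5.l12 (xb T5.l12 T5.l12)))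
  (TrL.c (I.pos (nat_lit 0) (nat_lit 0)) (xa (xa T0.l11 T0.l7) T0.l7)
  (TrL.c (I.pos (nat_lit 0) (nat_lit 0)) T5.l9
  (TrL.c (I.pos (nat_lit 0) (nat_lit 0)) T0.l8
  (TrL.c (I.pos (nat_lit 0) (nat_lit 0)) (xa (xa T0.l11 T0.l11) T0.l11)
  (TrL.c (I.pos (nat_lit 0) (nat_lit 0)) (xa T5.l10 T5.l10)
  (TrL.c (I.pos (nat_lit 0) (nat_lit 0)) T0.l10
  (TrL.c (I.pos (nat_lit 0) (nat_lit 0)) T5.l11
  TrL.n)))))))) (by decide +kernel)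
theorem bx3_5 : BoxOK sI cl5 cl9 cl4 t5 t0 b3_5 :=
  box_mk (TrL.c (I.pos (nat_lit 0) (nat_lit 0)) (xb (xa T5.l13 T5.l13) (xa T5.l13 T5.l13))
  (TrL.c (I.pos (nat_lit 0) (nat_lit 0)) (xb T0.l7 T0.l7)
  (TrL.c (I.pos (nat_lit 0) (nat_lit 0)) T5.l9
  (TrL.c (I.pos (nat_lit 0) (nat_lit 0)) T0.l8
  (TrL.c (I.pos (nat_lit 0) (nat_lit 0)) (xb T0.l12 T0.l12)
  (TrL.c (I.pos (nat_lit 0) (nat_lit 0)) T5.l10
  (TrL.c (I.pos (nat_lit 0) (nat_lit 0)) T0.l10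
  (TrL.c (I.pos (nat_lit 0) (nat_lit 0)) T5.l11
  TrL.n)))))))) (by decide +kernel)
theorem bx3_6 : BoxOK sI cl5 cl9 cl4 t5 t0 b3_6 :=
  box_mk (TrL.c (I.pos (nat_lit 0) (nat_lit 0)) (xa T5.l12 T5.l12)
  (TrL.c (I.pos (nat_lit 0) (nat_lit 0)) (xa T0.l7 T0.l7)
  (TrL.c (I.pos (nat_lit 0) (nat_lit 0)) T5.l9
  (TrL.c (I.pos (nat_lit 0) (nat_lit 0)) T0.l8
  (TrL.c (I.pos (nat_lit 0) (nat_lit 0)) (xa T0.l11 T0.l11)
  (TrL.c (I.pos (nat_lit 0) (nat_lit 0)) T5.l10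
  (TrL.c (I.pos (nat_lit 0) (nat_lit 0)) T0.l10
  (TrL.c (I.pos (nat_lit 0) (nat_lit 0)) T5.l11
  TrL.n)))))))) (by decide +kernel)
theorem bx3_7 : BoxOK sI cl5 cl9 cl4 t5 t0 b3_7 :=
  box_mk (TrL.c (I.pos (nat_lit 0) (nat_lit 0)) T5.l12
  (TrL.c (I.pos (nat_lit 0) (nat_lit 0)) T0.l7
  (TrL.c (I.pos (nat_lit 0) (nat_lit 0)) T5.l9
  (TrL.c (I.pos (nat_lit 0) (nat_lit 0)) T0.l8
  (TrL.c (I.pos (nat_lit 0) (nat_lit 0)) T0.l11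
  (TrL.c (I.pos (nat_lit 0) (nat_lit 0)) T5.l10
  (TrL.c (I.pos (nat_lit 0) (nat_lit 0)) T0.l10
  (TrL.c (I.pos (nat_lit 0) (nat_lit 0)) T5.l11
  TrL.n)))))))) (by decide +kernel)
theorem bx3_8 : BoxOK sI cl5 cl9 cl4 t5 t0 b3_8 :=
  box_mk (TrL.c (I.pos (nat_lit 0) (nat_lit 0)) T5.l0
  (TrL.c (I.pos (nat_lit 0) (nat_lit 0)) T0.l7
  (TrL.c (I.pos (nat_lit 0) (nat_lit 0)) T5.l9
  (TrL.c (I.pos (nat_lit 0) (nat_lit 0)) T0.l8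
  (TrL.c (I.pos (nat_lit 0) (nat_lit 0)) T0.l12
  (TrL.c (I.pos (nat_lit 0) (nat_lit 0)) T5.l10
  (TrL.c (I.pos (nat_lit 0) (nat_lit 0)) T0.l10
  (TrL.c (I.pos (nat_lit 0) (nat_lit 0)) T5.l11
  TrL.n)))))))) (by decide +kernel)
theorem bx3_9 : BoxOK sI cl5 cl9 cl4 t5 t0 b3_9 :=
  box_mk (TrL.c (I.pos (nat_lit 0) (nat_lit 0)) (xa (xa (xa T5.l12 T5.l12) T5.l12) (xa T5.l12 (xa T5.l12 T5.l12)))
  (TrL.c (I.pos (nat_lit 0) (nat_lit 0)) (xa T0.l7 T0.l7)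
  (TrL.c (I.pos (nat_lit 0) (nat_lit 0)) T5.l9
  (TrL.c (I.pos (nat_lit 0) (nat_lit 0)) T0.l8
  (TrL.c (I.pos (nat_lit 0) (nat_lit 0)) (xa T0.l11 T0.l11)
  (TrL.c (I.pos (nat_lit 0) (nat_lit 0)) (xa T5.l10 T5.l10)
  (TrL.c (I.pos (nat_lit 0) (nat_lit 0)) T0.l10
  (TrL.c (I.pos (nat_lit 0) (nat_lit 0)) T5.l11
  TrL.n)))))))) (by decide +kernel)
theorem bx3_10 : BoxOK sI cl5 cl9 cl4 t5 t0 b3_10 :=
  box_mk (TrL.c (I.pos (nat_lit 0) (nat_lit 0)) (xb T5.l12 T5.l12)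
  (TrL.c (I.pos (nat_lit 0) (nat_lit 0)) T0.l7
  (TrL.c (I.pos (nat_lit 0) (nat_lit 0)) T5.l9
  (TrL.c (I.pos (nat_lit 0) (nat_lit 0)) T0.l8
  (TrL.c (I.pos (nat_lit 0) (nat_lit 0)) (xb T0.l11 T0.l11)
  (TrL.c (I.pos (nat_lit 0) (nat_lit 0)) T5.l10
  (TrL.c (I.pos (nat_lit 0) (nat_lit 0)) T0.l10
  (TrL.c (I.pos (nat_lit 0) (nat_lit 0)) T5.l11
  TrL.n)))))))) (by decide +kernel)
theorem bx3_11 : BoxOK sI cl5 cl9 cl4 t5 t0 b3_11 :=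
  box_mk (TrL.c (I.pos (nat_lit 0) (nat_lit 0)) (xa (xa T5.l12 T5.l12) T5.l12)
  (TrL.c (I.pos (nat_lit 0) (nat_lit 0)) (xa T0.l7 T0.l7)
  (TrL.c (I.pos (nat_lit 0) (nat_lit 0)) T5.l9
  (TrL.c (I.pos (nat_lit 0) (nat_lit 0)) T0.l8
  (TrL.c (I.pos (nat_lit 0) (nat_lit 0)) (xa T0.l11 T0.l11)
  (TrL.c (I.pos (nat_lit 0) (nat_lit 0)) T5.l10
  (TrL.c (I.pos (nat_lit 0) (nat_lit 0)) T0.l10
  (TrL.c (I.pos (nat_lit 0) (nat_lit 0)) T5.l11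
  TrL.n)))))))) (by decide +kernel)
theorem bx3_12 : BoxOK sI cl5 cl9 cl4 t5 t0 b3_12 :=
  box_mk (TrL.c (I.pos (nat_lit 0) (nat_lit 0)) (xa T5.l0 (xa T5.l0 T5.l0))
  (TrL.c (I.pos (nat_lit 0) (nat_lit 0)) (xa T0.l7 (xb T0.l7 T0.l7))
  (TrL.c (I.pos (nat_lit 0) (nat_lit 0)) T5.l9
  (TrL.c (I.pos (nat_lit 0) (nat_lit 0)) T0.l8
  (TrL.c (I.pos (nat_lit 0) (nat_lit 0)) (xa T0.l9 (xb (xa T0.l9 T0.l9) (xa T0.l9 T0.l9)))
  (TrL.c (I.pos (nat_lit 0) (nat_lit 0)) (xa T5.l10 T5.l10)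
  (TrL.c (I.pos (nat_lit 0) (nat_lit 0)) T0.l10
  (TrL.c (I.pos (nat_lit 0) (nat_lit 0)) T5.l11
  TrL.n)))))))) (by decide +kernel)
theorem bx3_13 : BoxOK sI cl5 cl9 cl4 t5 t0 b3_13 :=
  box_mk (TrL.c (I.pos (nat_lit 0) (nat_lit 0)) T5.l12
  (TrL.c (I.pos (nat_lit 0) (nat_lit 0)) T0.l7
  (TrL.c (I.pos (nat_lit 0) (nat_lit 0)) T5.l9
  (TrL.c (I.pos (nat_lit 0) (nat_lit 0)) T0.l8
  (TrL.c (I.pos (nat_lit 0) (nat_lit 0)) T0.l11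
  (TrL.c (I.pos (nat_lit 0) (nat_lit 0)) T5.l10
  (TrL.c (I.pos (nat_lit 0) (nat_lit 0)) T0.l10
  (TrL.c (I.pos (nat_lit 0) (nat_lit 0)) T5.l11
  TrL.n)))))))) (by decide +kernel)
theorem bx3_14 : BoxOK sI cl5 cl9 cl4 t5 t0 b3_14 :=
  box_mk (TrL.c (I.pos (nat_lit 0) (nat_lit 0)) T5.l12
  (TrL.c (I.pos (nat_lit 0) (nat_lit 0)) T0.l7
  (TrL.c (I.pos (nat_lit 0) (nat_lit 0)) T5.l9
  (TrL.c (I.pos (nat_lit 0) (nat_lit 0)) T0.l8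
  (TrL.c (I.pos (nat_lit 0) (nat_lit 0)) T0.l11
  (TrL.c (I.pos (nat_lit 0) (nat_lit 0)) T5.l10
  (TrL.c (I.pos (nat_lit 0) (nat_lit 0)) T0.l10
  (TrL.c (I.pos (nat_lit 0) (nat_lit 0)) T5.l11
  TrL.n)))))))) (by decide +kernel)
theorem bx3_15 : BoxOK sI cl5 cl9 cl4 t5 t0 b3_15 :=
  box_mk (TrL.c (I.pos (nat_lit 0) (nat_lit 0)) (xa (xb T5.l0 (xa T5.l0 T5.l0)) (xb (xb T5.l0 (xa T5.l0 T5.l0)) (xa T5.l0 T5.l0)))
  (TrL.c (I.pos (nat_lit 0) (nat_lit 0)) (xa T0.l7 (xb T0.l7 T0.l7))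
  (TrL.c (I.pos (nat_lit 0) (nat_lit 0)) T5.l9
  (TrL.c (I.pos (nat_lit 0) (nat_lit 0)) T0.l8
  (TrL.c (I.pos (nat_lit 0) (nat_lit 0)) (xa T0.l9 T0.l9)
  (TrL.c (I.pos (nat_lit 0) (nat_lit 0)) T5.l10
  (TrL.c (I.pos (nat_lit 0) (nat_lit 0)) T0.l10
  (TrL.c (I.pos (nat_lit 0) (nat_lit 0)) T5.l11
  TrL.n)))))))) (by decide +kernel)
theorem sv3 : StarV sI cl5 cl9 cl4 t5 t0 t3 :=
  (bt_n (bt_n (bt_n (bt_n (bt_b bx3_0) (bt_b bx3_1)) (bt_n (bt_b bx3_2) (bt_b bx3_3))) (bt_n (bt_n (bt_b bx3_4) (bt_b bx3_5)) (bt_n (bt_b bx3_6) (bt_b bx3_7)))) (bt_n (bt_n (bt_n (bt_b bx3_8) (bt_b bx3_9)) (bt_n (bt_b bx3_10) (bt_b bx3_11))) (bt_n (bt_n (bt_b bx3_12) (bt_b bx3_13)) (bt_n (bt_b bx3_14) (bt_b bx3_15)))))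
def S3 : StarD := StarD.mk cl5 cl9 cl4 5 0 t3
theorem bx4_0 : BoxOK sI cl9 cl4 cl5 t1 t3 b4_0 :=
  box_mk (TrL.c (I.pos (nat_lit 0) (nat_lit 0)) (xa (xb T1.l4 (xa (xb T1.l0 T1.l4) (xb T1.l0 T1.l0))) (xb T1.l0 (xa T1.l0 T1.l0)))
  (TrL.c (I.pos (nat_lit 0) (nat_lit 0)) (xa (xb T3.l1 (xk T3.l1 T3.l1)) (xk (xb T3.l1 T3.l1) T3.l1))
  (TrL.c (I.pos (nat_lit 0) (nat_lit 124588530)) (xR T1.l1 T1.l1)
  (TrL.c (I.pos (nat_lit 0) (nat_lit 96881482)) T3.l2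
  (TrL.c (I.pos (nat_lit 0) (nat_lit 0)) (xb (xa T3.l3 (xk T3.l3 T3.l3)) (xa T3.l3 (xk T3.l3 T3.l3)))
  (TrL.c (I.pos (nat_lit 0) (nat_lit 0)) T1.l2
  (TrL.c (I.mix (nat_lit 17240550) (nat_lit 96881482)) (xR T3.l4 T3.l4)
  (TrL.c (I.mix (nat_lit 17240550) (nat_lit 71940500)) T1.l3
  TrL.n)))))))) (by decide +kernel)
theorem bx4_1 : BoxOK sI cl9 cl4 cl5 t1 t3 b4_1 :=
  box_mk (TrL.c (I.pos (nat_lit 0) (nat_lit 0)) (xa (xb T1.l4 T1.l4) T1.l4)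
  (TrL.c (I.pos (nat_lit 0) (nat_lit 0)) (xa T3.l1 T3.l1)
  (TrL.c (I.pos (nat_lit 0) (nat_lit 124588530)) (xR T1.l1 T1.l1)
  (TrL.c (I.pos (nat_lit 0) (nat_lit 96881482)) T3.l2
  (TrL.c (I.pos (nat_lit 0) (nat_lit 0)) (xa T3.l5 (xb T3.l5 T3.l5))
  (TrL.c (I.pos (nat_lit 0) (nat_lit 0)) T1.l2
  (TrL.c (I.mix (nat_lit 17240550) (nat_lit 96881482)) T3.l4
  (TrL.c (I.mix (nat_lit 17240550) (nat_lit 71940500)) T1.l9
  TrL.n)))))))) (by decide +kernel)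
theorem bx4_2 : BoxOK sI cl9 cl4 cl5 t1 t3 b4_2 :=
  box_mk (TrL.c (I.pos (nat_lit 0) (nat_lit 0)) (xb (xa (xb T1.l4 T1.l4) (xb T1.l4 T1.l4)) (xa (xb T1.l4 (xa T1.l4 T1.l4)) (xb T1.l4 (xa T1.l4 T1.l4))))
  (TrL.c (I.pos (nat_lit 0) (nat_lit 0)) (xb (xa T3.l1 T3.l1) (xa (xk T3.l1 T3.l1) (xk T3.l1 T3.l1)))
  (TrL.c (I.pos (nat_lit 0) (nat_lit 124588530)) (xR T1.l1 T1.l1)
  (TrL.c (I.pos (nat_lit 0) (nat_lit 96881482)) T3.l2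
  (TrL.c (I.pos (nat_lit 0) (nat_lit 0)) (xb (xa T3.l5 (xk T3.l5 T3.l5)) (xa (xb T3.l5 (xk T3.l3 T3.l3)) (xk (xb T3.l3 (xs T3.l3 (xb T3.l3 T3.l3))) (xb (xb T3.l3 T3.l3) (xs T3.l3 (xb T3.l3 (xa T3.l3 T3.l3)))))))
  (TrL.c (I.pos (nat_lit 0) (nat_lit 0)) T1.l2
  (TrL.c (I.mix (nat_lit 17240550) (nat_lit 96881482)) (xR T3.l4 T3.l4)
  (TrL.c (I.mix (nat_lit 17240550) (nat_lit 71940500)) T1.l3
  TrL.n)))))))) (by decide +kernel)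
theorem bx4_3 : BoxOK sI cl9 cl4 cl5 t1 t3 b4_3 :=
  box_mk (TrL.c (I.pos (nat_lit 0) (nat_lit 0)) (xa T3.l1 T3.l1)
  (TrL.c (I.pos (nat_lit 0) (nat_lit 0)) T1.l1
  (TrL.c (I.mix (nat_lit 17240550) (nat_lit 96881482)) (xR T3.l6 T3.l2)
  (TrL.c (I.mix (nat_lit 17240550) (nat_lit 71940500)) T1.l5
  TrL.n)))) (by decide +kernel)
theorem bx4_4 : BoxOK sI cl9 cl4 cl5 t1 t3 b4_4 :=
  box_mk (TrL.c (I.pos (nat_lit 0) (nat_lit 0)) (xb T3.l1 T3.l7)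
  (TrL.c (I.pos (nat_lit 0) (nat_lit 0)) T1.l6
  (TrL.c (I.mix (nat_lit 17240550) (nat_lit 96881482)) (xR T3.l6 T3.l6)
  (TrL.c (I.mix (nat_lit 17240550) (nat_lit 71940500)) T1.l5
  TrL.n)))) (by decide +kernel)
theorem bx4_5 : BoxOK sI cl9 cl4 cl5 t1 t3 b4_5 :=
  box_mk (TrL.c (I.pos (nat_lit 0) (nat_lit 0)) T1.l7
  (TrL.c (I.pos (nat_lit 0) (nat_lit 0)) T3.l7
  (TrL.c (I.pos (nat_lit 0) (nat_lit 124588530)) (xR T1.l1 T1.l1)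
  (TrL.c (I.pos (nat_lit 0) (nat_lit 96881482)) T3.l4
  (TrL.c (I.pos (nat_lit 0) (nat_lit 0)) T3.l5
  (TrL.c (I.pos (nat_lit 0) (nat_lit 0)) T1.l2
  (TrL.c (I.mix (nat_lit 17240550) (nat_lit 96881482)) T3.l4
  (TrL.c (I.mix (nat_lit 17240550) (nat_lit 71940500)) T1.l9
  TrL.n)))))))) (by decide +kernel)
theorem bx4_6 : BoxOK sI cl9 cl4 cl5 t1 t3 b4_6 :=
  box_mk (TrL.c (I.pos (nat_lit 0) (nat_lit 0)) T1.l4
  (TrL.c (I.pos (nat_lit 0) (nat_lit 0)) T3.l1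
  (TrL.c (I.pos (nat_lit 0) (nat_lit 124588530)) (xR T1.l1 T1.l1)
  (TrL.c (I.pos (nat_lit 0) (nat_lit 96881482)) T3.l2
  (TrL.c (I.pos (nat_lit 0) (nat_lit 0)) T3.l5
  (TrL.c (I.pos (nat_lit 0) (nat_lit 0)) T1.l2
  (TrL.c (I.mix (nat_lit 17240550) (nat_lit 96881482)) T3.l4
  (TrL.c (I.mix (nat_lit 17240550) (nat_lit 71940500)) T1.l3
  TrL.n)))))))) (by decide +kernel)
theorem bx4_7 : BoxOK sI cl9 cl4 cl5 t1 t3 b4_7 :=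
  box_mk (TrL.c (I.pos (nat_lit 0) (nat_lit 0)) (xa (xb T1.l0 (xa T1.l0 T1.l0)) (xb T1.l0 (xa T1.l0 T1.l0)))
  (TrL.c (I.pos (nat_lit 0) (nat_lit 0)) (xa (xb T3.l1 T3.l1) (xb T3.l10 (xk (xa T3.l1 T3.l1) T3.l10)))
  (TrL.c (I.pos (nat_lit 0) (nat_lit 124588530)) (xR T1.l11 T1.l11)
  (TrL.c (I.pos (nat_lit 0) (nat_lit 96881482)) (xR T3.l2 T3.l2)
  (TrL.c (I.pos (nat_lit 0) (nat_lit 0)) (xa (xb (xk (xa T3.l3 (xb T3.l3 T3.l3)) (xa T3.l3 T3.l3)) (xk T3.l3 T3.l3)) (xb (xk (xa T3.l0 (xb (xk T3.l0 T3.l0) T3.l3)) (xa T3.l0 (xb T3.l0 T3.l3))) (xk (xa (xb T3.l3 T3.l3) (xb T3.l3 (xk T3.l3 T3.l3))) (xa T3.l3 (xb T3.l3 (xk T3.l3 T3.l3))))))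
  (TrL.c (I.pos (nat_lit 0) (nat_lit 0)) (xk (xb (xa T1.l2 T1.l2) T1.l2) (xa T1.l2 (xb T1.l2 T1.l2)))
  (TrL.c (I.mix (nat_lit 17240550) (nat_lit 96881482)) (xR T3.l4 (xR T3.l4 (xR T3.l4 T3.l4)))
  (TrL.c (I.mix (nat_lit 17240550) (nat_lit 71940500)) T1.l9
  TrL.n)))))))) (by decide +kernel)
theorem bx4_8 : BoxOK sI cl9 cl4 cl5 t1 t3 b4_8 :=
  box_mk (TrL.c (I.pos (nat_lit 0) (nat_lit 0)) (xb T1.l7 T1.l7)
  (TrL.c (I.pos (nat_lit 0) (nat_lit 0)) T3.l1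
  (TrL.c (I.pos (nat_lit 0) (nat_lit 124588530)) T1.l1
  (TrL.c (I.pos (nat_lit 0) (nat_lit 96881482)) T3.l4
  (TrL.c (I.pos (nat_lit 0) (nat_lit 0)) T3.l8
  (TrL.c (I.pos (nat_lit 0) (nat_lit 0)) T1.l2
  (TrL.c (I.mix (nat_lit 17240550) (nat_lit 96881482)) T3.l4
  (TrL.c (I.mix (nat_lit 17240550) (nat_lit 71940500)) T1.l3
  TrL.n)))))))) (by decide +kernel)
theorem bx4_9 : BoxOK sI cl9 cl4 cl5 t1 t3 b4_9 :=
  box_mk (TrL.c (I.pos (nat_lit 0) (nat_lit 0)) (xa (xb T1.l0 T1.l0) (xb T1.l0 T1.l0))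
  (TrL.c (I.pos (nat_lit 0) (nat_lit 0)) (xk T3.l1 T3.l1)
  (TrL.c (I.pos (nat_lit 0) (nat_lit 124588530)) (xR T1.l1 T1.l1)
  (TrL.c (I.pos (nat_lit 0) (nat_lit 96881482)) T3.l2
  (TrL.c (I.pos (nat_lit 0) (nat_lit 0)) (xk T3.l3 (xb T3.l3 T3.l3))
  (TrL.c (I.pos (nat_lit 0) (nat_lit 0)) T1.l2
  (TrL.c (I.mix (nat_lit 17240550) (nat_lit 96881482)) T3.l4
  (TrL.c (I.mix (nat_lit 17240550) (nat_lit 71940500)) T1.l3
  TrL.n)))))))) (by decide +kernel)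
theorem bx4_10 : BoxOK sI cl9 cl4 cl5 t1 t3 b4_10 :=
  box_mk (TrL.c (I.pos (nat_lit 0) (nat_lit 0)) T1.l7
  (TrL.c (I.pos (nat_lit 0) (nat_lit 0)) T3.l1
  (TrL.c (I.pos (nat_lit 0) (nat_lit 124588530)) T1.l1
  (TrL.c (I.pos (nat_lit 0) (nat_lit 96881482)) T3.l2
  (TrL.c (I.pos (nat_lit 0) (nat_lit 0)) T3.l5
  (TrL.c (I.pos (nat_lit 0) (nat_lit 0)) T1.l2
  (TrL.c (I.mix (nat_lit 17240550) (nat_lit 96881482)) T3.l4
  (TrL.c (I.mix (nat_lit 17240550) (nat_lit 71940500)) T1.l3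
  TrL.n)))))))) (by decide +kernel)
theorem sv4 : StarV sI cl9 cl4 cl5 t1 t3 t4 :=
  (bt_n (bt_n (bt_n (bt_b bx4_0) (bt_b bx4_1)) (bt_n (bt_b bx4_2) (bt_n (bt_b bx4_3) (bt_b bx4_4)))) (bt_n (bt_n (bt_b bx4_5) (bt_n (bt_b bx4_6) (bt_b bx4_7))) (bt_n (bt_b bx4_8) (bt_n (bt_b bx4_9) (bt_b bx4_10)))))
def S4 : StarD := StarD.mk cl9 cl4 cl5 1 3 t4
theorem bx5_0 : BoxOK sI cl9 cl5 cl4 t3 t1 b5_0 :=
  box_mk (TrL.c (I.pos (nat_lit 0) (nat_lit 0)) (xa (xb (xa (xb T3.l0 T3.l0) (xb T3.l0 T3.l0)) (xa (xb T3.l0 T3.l0) (xb T3.l0 T3.l0))) (xa (xb (xb (xs T3.l0 T3.l0) (xs T3.l0 T3.l0)) (xb (xs T3.l0 T3.l0) (xs T3.l0 T3.l0))) (xb (xb (xs T3.l0 T3.l0) (xs T3.l0 T3.l0)) (xb (xs T3.l0 T3.l0) (xs T3.l0 T3.l0)))))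
  (TrL.c (I.pos (nat_lit 0) (nat_lit 0)) (xa (xk (xb T1.l8 T1.l8) (xb T1.l8 T1.l8)) (xk (xb T1.l8 (xa T1.l8 T1.l8)) (xb T1.l8 T1.l8)))
  (TrL.c (I.pos (nat_lit 0) (nat_lit 124588530)) (xR T3.l9 T3.l9)
  (TrL.c (I.pos (nat_lit 0) (nat_lit 96881482)) (xR T1.l9 T1.l9)
  (TrL.c (I.pos (nat_lit 0) (nat_lit 0)) (xa (xk (xb T1.l10 T1.l10) (xb T1.l10 T1.l10)) (xb (xk T1.l10 T1.l10) (xk (xb T1.l10 (xa T1.l10 (xs T1.l10 (xk T1.l10 T1.l10)))) (xb (xa T1.l10 T1.l10) (xa (xs T1.l10 T1.l10) (xs (xk T1.l10 T1.l10) (xk (xb T1.l10 T1.l10) (xb T1.l10 (xa T1.l10 T1.l10)))))))))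
  (TrL.c (I.pos (nat_lit 0) (nat_lit 0)) (xk T3.l10 T3.l10)
  (TrL.c (I.mix (nat_lit 17240550) (nat_lit 96881482)) (xR T1.l11 T1.l11)
  (TrL.c (I.mix (nat_lit 17240550) (nat_lit 71940500)) T3.l11
  TrL.n)))))))) (by decide +kernel)
theorem bx5_1 : BoxOK sI cl9 cl5 cl4 t3 t1 b5_1 :=
  box_mk (TrL.c (I.pos (nat_lit 0) (nat_lit 0)) (xa T3.l12 T3.l12)
  (TrL.c (I.pos (nat_lit 0) (nat_lit 0)) (xb T1.l8 T1.l8)
  (TrL.c (I.pos (nat_lit 0) (nat_lit 124588530)) (xR T3.l9 T3.l9)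
  (TrL.c (I.pos (nat_lit 0) (nat_lit 96881482)) T1.l9
  (TrL.c (I.pos (nat_lit 0) (nat_lit 0)) (xb (xa T1.l12 T1.l12) T1.l12)
  (TrL.c (I.pos (nat_lit 0) (nat_lit 0)) T3.l10
  (TrL.c (I.mix (nat_lit 17240550) (nat_lit 96881482)) (xR T1.l11 T1.l11)
  (TrL.c (I.mix (nat_lit 17240550) (nat_lit 71940500)) T3.l11
  TrL.n)))))))) (by decide +kernel)
theorem bx5_2 : BoxOK sI cl9 cl5 cl4 t3 t1 b5_2 :=
  box_mk (TrL.c (I.pos (nat_lit 0) (nat_lit 0)) T1.l8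
  (TrL.c (I.pos (nat_lit 0) (nat_lit 0)) T3.l9
  (TrL.c (I.mix (nat_lit 17240550) (nat_lit 96881482)) T1.l9
  (TrL.c (I.mix (nat_lit 17240550) (nat_lit 71940500)) T3.l2
  TrL.n)))) (by decide +kernel)
theorem bx5_3 : BoxOK sI cl9 cl5 cl4 t3 t1 b5_3 :=
  box_mk (TrL.c (I.pos (nat_lit 0) (nat_lit 0)) (xa T3.l15 T3.l15)
  (TrL.c (I.pos (nat_lit 0) (nat_lit 0)) (xk (xb T1.l8 T1.l8) T1.l8)
  (TrL.c (I.pos (nat_lit 0) (nat_lit 124588530)) (xR T3.l9 T3.l9)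
  (TrL.c (I.pos (nat_lit 0) (nat_lit 96881482)) T1.l9
  (TrL.c (I.pos (nat_lit 0) (nat_lit 0)) (xk T1.l10 T1.l10)
  (TrL.c (I.pos (nat_lit 0) (nat_lit 0)) T3.l10
  (TrL.c (I.mix (nat_lit 17240550) (nat_lit 96881482)) (xR T1.l11 T1.l11)
  (TrL.c (I.mix (nat_lit 17240550) (nat_lit 71940500)) T3.l11
  TrL.n)))))))) (by decide +kernel)
theorem bx5_4 : BoxOK sI cl9 cl5 cl4 t3 t1 b5_4 :=
  box_mk (TrL.c (I.pos (nat_lit 0) (nat_lit 0)) T3.l12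
  (TrL.c (I.pos (nat_lit 0) (nat_lit 0)) T1.l8
  (TrL.c (I.pos (nat_lit 0) (nat_lit 124588530)) T3.l9
  (TrL.c (I.pos (nat_lit 0) (nat_lit 96881482)) T1.l9
  (TrL.c (I.pos (nat_lit 0) (nat_lit 0)) T1.l12
  (TrL.c (I.pos (nat_lit 0) (nat_lit 0)) T3.l10
  (TrL.c (I.mix (nat_lit 17240550) (nat_lit 96881482)) T1.l11
  (TrL.c (I.mix (nat_lit 17240550) (nat_lit 71940500)) T3.l11
  TrL.n)))))))) (by decide +kernel)
theorem bx5_5 : BoxOK sI cl9 cl5 cl4 t3 t1 b5_5 :=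
  box_mk (TrL.c (I.pos (nat_lit 0) (nat_lit 0)) T3.l12
  (TrL.c (I.pos (nat_lit 0) (nat_lit 0)) T1.l8
  (TrL.c (I.pos (nat_lit 0) (nat_lit 124588530)) (xR T3.l9 T3.l9)
  (TrL.c (I.pos (nat_lit 0) (nat_lit 96881482)) T1.l9
  (TrL.c (I.pos (nat_lit 0) (nat_lit 0)) T1.l12
  (TrL.c (I.pos (nat_lit 0) (nat_lit 0)) T3.l10
  (TrL.c (I.mix (nat_lit 17240550) (nat_lit 96881482)) (xR T1.l11 T1.l11)
  (TrL.c (I.mix (nat_lit 17240550) (nat_lit 71940500)) T3.l11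
  TrL.n)))))))) (by decide +kernel)
theorem bx5_6 : BoxOK sI cl9 cl5 cl4 t3 t1 b5_6 :=
  box_mk (TrL.c (I.pos (nat_lit 0) (nat_lit 0)) T1.l13
  (TrL.c (I.pos (nat_lit 0) (nat_lit 0)) T3.l9
  (TrL.c (I.mix (nat_lit 17240550) (nat_lit 96881482)) T1.l9
  (TrL.c (I.mix (nat_lit 17240550) (nat_lit 71940500)) T3.l2
  TrL.n)))) (by decide +kernel)
theorem bx5_7 : BoxOK sI cl9 cl5 cl4 t3 t1 b5_7 :=
  box_mk (TrL.c (I.pos (nat_lit 0) (nat_lit 0)) T3.l15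
  (TrL.c (I.pos (nat_lit 0) (nat_lit 0)) T1.l8
  (TrL.c (I.pos (nat_lit 0) (nat_lit 124588530)) (xR T3.l9 T3.l9)
  (TrL.c (I.pos (nat_lit 0) (nat_lit 96881482)) T1.l9
  (TrL.c (I.pos (nat_lit 0) (nat_lit 0)) T1.l15
  (TrL.c (I.pos (nat_lit 0) (nat_lit 0)) T3.l10
  (TrL.c (I.mix (nat_lit 17240550) (nat_lit 96881482)) (xR T1.l11 T1.l11)
  (TrL.c (I.mix (nat_lit 17240550) (nat_lit 71940500)) T3.l11
  TrL.n)))))))) (by decide +kernel)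
theorem bx5_8 : BoxOK sI cl9 cl5 cl4 t3 t1 b5_8 :=
  box_mk (TrL.c (I.pos (nat_lit 0) (nat_lit 0)) (xb (xa (xb (xs T3.l0 (xa (xb T3.l0 T3.l0) (xb T3.l0 T3.l0))) T3.l0) (xb (xs T3.l0 (xa (xb T3.l0 T3.l0) (xb T3.l0 T3.l0))) (xa T3.l0 T3.l0))) (xa (xb T3.l0 T3.l0) (xb T3.l0 T3.l0)))
  (TrL.c (I.pos (nat_lit 0) (nat_lit 0)) (xb T1.l8 (xk T1.l8 T1.l8))
  (TrL.c (I.pos (nat_lit 0) (nat_lit 124588530)) (xR T3.l9 T3.l9)
  (TrL.c (I.pos (nat_lit 0) (nat_lit 96881482)) T1.l9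
  (TrL.c (I.pos (nat_lit 0) (nat_lit 0)) (xb (xk T1.l15 T1.l15) (xk T1.l10 T1.l15))
  (TrL.c (I.pos (nat_lit 0) (nat_lit 0)) T3.l10
  (TrL.c (I.mix (nat_lit 17240550) (nat_lit 96881482)) (xR T1.l11 T1.l11)
  (TrL.c (I.mix (nat_lit 17240550) (nat_lit 71940500)) T3.l11
  TrL.n)))))))) (by decide +kernel)
theorem bx5_9 : BoxOK sI cl9 cl5 cl4 t3 t1 b5_9 :=
  box_mk (TrL.c (I.pos (nat_lit 0) (nat_lit 0)) (xa T3.l12 T3.l12)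
  (TrL.c (I.pos (nat_lit 0) (nat_lit 0)) T1.l8
  (TrL.c (I.pos (nat_lit 0) (nat_lit 124588530)) T3.l9
  (TrL.c (I.pos (nat_lit 0) (nat_lit 96881482)) T1.l9
  (TrL.c (I.pos (nat_lit 0) (nat_lit 0)) T1.l12
  (TrL.c (I.pos (nat_lit 0) (nat_lit 0)) T3.l10
  (TrL.c (I.mix (nat_lit 17240550) (nat_lit 96881482)) T1.l11
  (TrL.c (I.mix (nat_lit 17240550) (nat_lit 71940500)) T3.l11
  TrL.n)))))))) (by decide +kernel)
theorem bx5_10 : BoxOK sI cl9 cl5 cl4 t3 t1 b5_10 :=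
  box_mk (TrL.c (I.pos (nat_lit 0) (nat_lit 0)) (xb T3.l12 T3.l12)
  (TrL.c (I.pos (nat_lit 0) (nat_lit 0)) (xb T1.l8 T1.l8)
  (TrL.c (I.pos (nat_lit 0) (nat_lit 124588530)) (xR T3.l9 T3.l9)
  (TrL.c (I.pos (nat_lit 0) (nat_lit 96881482)) T1.l9
  (TrL.c (I.pos (nat_lit 0) (nat_lit 0)) (xb T1.l12 T1.l12)
  (TrL.c (I.pos (nat_lit 0) (nat_lit 0)) T3.l10
  (TrL.c (I.mix (nat_lit 17240550) (nat_lit 96881482)) (xR T1.l11 T1.l11)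
  (TrL.c (I.mix (nat_lit 17240550) (nat_lit 71940500)) T3.l2
  TrL.n)))))))) (by decide +kernel)
theorem bx5_11 : BoxOK sI cl9 cl5 cl4 t3 t1 b5_11 :=
  box_mk (TrL.c (I.pos (nat_lit 0) (nat_lit 0)) T1.l8
  (TrL.c (I.pos (nat_lit 0) (nat_lit 0)) T3.l9
  (TrL.c (I.mix (nat_lit 17240550) (nat_lit 96881482)) (xR T1.l14 T1.l9)
  (TrL.c (I.mix (nat_lit 17240550) (nat_lit 71940500)) T3.l14
  TrL.n)))) (by decide +kernel)
theorem bx5_12 : BoxOK sI cl9 cl5 cl4 t3 t1 b5_12 :=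
  box_mk (TrL.c (I.pos (nat_lit 0) (nat_lit 0)) (xa (xb T3.l0 (xa T3.l0 T3.l0)) (xb T3.l0 (xa T3.l0 T3.l0)))
  (TrL.c (I.pos (nat_lit 0) (nat_lit 0)) (xa (xb (xk (xa T1.l8 T1.l8) T1.l8) (xa T1.l8 (xk T1.l8 T1.l8))) (xk (xb T1.l2 (xa T1.l2 T1.l2)) (xb (xa T1.l8 T1.l2) (xa T1.l8 T1.l2))))
  (TrL.c (I.pos (nat_lit 0) (nat_lit 124588530)) (xR T3.l4 T3.l9)
  (TrL.c (I.pos (nat_lit 0) (nat_lit 96881482)) (xR T1.l9 (xR T1.l9 T1.l9))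
  (TrL.c (I.pos (nat_lit 0) (nat_lit 0)) (xa (xb (xa (xk T1.l10 T1.l10) (xk T1.l10 T1.l10)) (xa T1.l10 T1.l10)) (xb (xk (xa T1.l10 (xb (xk T1.l10 T1.l10) T1.l10)) (xa T1.l10 (xb (xa T1.l10 T1.l10) T1.l10))) (xa (xk T1.l10 T1.l10) (xk (xb (xa T1.l10 T1.l10) (xk T1.l10 T1.l10)) (xb (xa T1.l10 T1.l10) (xk T1.l10 T1.l10))))))
  (TrL.c (I.pos (nat_lit 0) (nat_lit 0)) (xa T3.l10 (xk (xb T3.l10 T3.l10) (xb T3.l10 T3.l10)))
  (TrL.c (I.mix (nat_lit 17240550) (nat_lit 96881482)) (xR T1.l11 (xR T1.l11 (xR T1.l11 T1.l11)))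
  (TrL.c (I.mix (nat_lit 17240550) (nat_lit 71940500)) T3.l11
  TrL.n)))))))) (by decide +kernel)
theorem bx5_13 : BoxOK sI cl9 cl5 cl4 t3 t1 b5_13 :=
  box_mk (TrL.c (I.pos (nat_lit 0) (nat_lit 0)) (xa (xb (xb T3.l0 T3.l0) (xb T3.l0 T3.l0)) (xb (xb (xa T3.l0 T3.l0) (xa T3.l0 T3.l0)) (xs T3.l0 (xb T3.l0 T3.l0))))
  (TrL.c (I.pos (nat_lit 0) (nat_lit 0)) (xa (xk T1.l8 T1.l8) (xk T1.l8 T1.l8))
  (TrL.c (I.pos (nat_lit 0) (nat_lit 124588530)) (xR T3.l9 T3.l9)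
  (TrL.c (I.pos (nat_lit 0) (nat_lit 96881482)) T1.l9
  (TrL.c (I.pos (nat_lit 0) (nat_lit 0)) (xa T1.l10 (xk T1.l10 (xb T1.l10 T1.l10)))
  (TrL.c (I.pos (nat_lit 0) (nat_lit 0)) T3.l10
  (TrL.c (I.mix (nat_lit 17240550) (nat_lit 96881482)) (xR T1.l11 T1.l11)
  (TrL.c (I.mix (nat_lit 17240550) (nat_lit 71940500)) T3.l11
  TrL.n)))))))) (by decide +kernel)
theorem sv5 : StarV sI cl9 cl5 cl4 t3 t1 t5 :=
  (bt_n (bt_n (bt_n (bt_b bx5_0) (bt_n (bt_b bx5_1) (bt_b bx5_2))) (bt_n (bt_n (bt_b bx5_3) (bt_b bx5_4)) (bt_n (bt_b bx5_5) (bt_b bx5_6)))) (bt_n (bt_n (bt_b bx5_7) (bt_n (bt_b bx5_8) (bt_b bx5_9))) (bt_n (bt_n (bt_b bx5_10) (bt_b bx5_11)) (bt_n (bt_b bx5_12) (bt_b bx5_13)))))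
def S5 : StarD := StarD.mk cl9 cl5 cl4 3 1 t5
def G : List StarD := [S0, S1, S2, S3, S4, S5]
theorem so0 : StarOK sI G S0 :=
  star_mk (by decide) (by decide) rfl rfl rfl rfl rfl rfl (rfl : _ = t2) (rfl : _ = t4)
  (st_mk (Pth.l (Pth.l (Pth.l Pth.z))) (nat_lit 250989073) (nat_lit 253607188) (by decide +kernel))
  (st_mk (Pth.l (Pth.l (Pth.l Pth.z))) (nat_lit 290143918) (nat_lit 293715087) (by decide +kernel))
  (st_mk (Pth.l (Pth.l (Pth.l Pth.z))) (nat_lit 336207769) (nat_lit 341125564) (by decide +kernel)) sv0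
theorem so1 : StarOK sI G S1 :=
  star_mk (by decide) (by decide) rfl rfl rfl rfl rfl rfl (rfl : _ = t4) (rfl : _ = t2)
  (st_mk (Pth.l (Pth.l (Pth.l (Pth.l Pth.z)))) (nat_lit 119495585) (nat_lit 139516603) (by decide +kernel))
  (st_mk (Pth.l (Pth.l (Pth.l (Pth.l Pth.z)))) (nat_lit 155748804) (nat_lit 180459989) (by decide +kernel))
  (st_mk (Pth.l (Pth.l (Pth.l (Pth.l Pth.z)))) (nat_lit 201002857) (nat_lit 227039629) (by decide +kernel)) sv1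
theorem so2 : StarOK sI G S2 :=
  star_mk (by decide) (by decide) rfl rfl rfl rfl rfl rfl (rfl : _ = t0) (rfl : _ = t5)
  (st_mk (Pth.l (Pth.l (Pth.l Pth.z))) (nat_lit 380417293) (nat_lit 383508405) (by decide +kernel))
  (st_mk (Pth.l (Pth.l (Pth.l Pth.z))) (nat_lit 418545623) (nat_lit 422324755) (by decide +kernel))
  (st_mk (Pth.l (Pth.l (Pth.l Pth.z))) (nat_lit 462964857) (nat_lit 467644346) (by decide +kernel)) sv2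
theorem so3 : StarOK sI G S3 :=
  star_mk (by decide) (by decide) rfl rfl rfl rfl rfl rfl (rfl : _ = t5) (rfl : _ = t0)
  (st_mk (Pth.l (Pth.l (Pth.l (Pth.l Pth.z)))) (nat_lit 118076609) (nat_lit 137413966) (by decide +kernel))
  (st_mk (Pth.l (Pth.l (Pth.l (Pth.l Pth.z)))) (nat_lit 155124867) (nat_lit 175059396) (by decide +kernel))
  (st_mk (Pth.l (Pth.l (Pth.l (Pth.l Pth.z)))) (nat_lit 196780920) (nat_lit 221297223) (by decide +kernel)) sv3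
theorem so4 : StarOK sI G S4 :=
  star_mk (by decide) (by decide) rfl rfl rfl rfl rfl rfl (rfl : _ = t1) (rfl : _ = t3)
  (st_mk (Pth.l (Pth.l (Pth.l Pth.z))) (nat_lit 367220204) (nat_lit 372039412) (by decide +kernel))
  (st_mk (Pth.l (Pth.l (Pth.l Pth.z))) (nat_lit 402714941) (nat_lit 408194133) (by decide +kernel))
  (st_mk (Pth.l (Pth.l (Pth.l Pth.z))) (nat_lit 443740146) (nat_lit 450062377) (by decide +kernel)) sv4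
theorem so5 : StarOK sI G S5 :=
  star_mk (by decide) (by decide) rfl rfl rfl rfl rfl rfl (rfl : _ = t3) (rfl : _ = t1)
  (st_mk (Pth.l (Pth.l (Pth.l Pth.z))) (nat_lit 239716972) (nat_lit 242053419) (by decide +kernel))
  (st_mk (Pth.l (Pth.l (Pth.l Pth.z))) (nat_lit 275137945) (nat_lit 278053479) (by decide +kernel))
  (st_mk (Pth.l (Pth.l (Pth.l Pth.z))) (nat_lit 316099518) (nat_lit 319789461) (by decide +kernel)) sv5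
theorem ok : GroupOK (nat_lit 150274048) (nat_lit 209387520) G := grp_mk (allS_c so0 (allS_c so1 (allS_c so2 (allS_c so3 (allS_c so4 (allS_c so5 allS_n))))))
theorem cov : GCov G cl4 cl5 cl9 := cov_mk
  ⟨0, by decide, rfl, rfl, rfl⟩ ⟨1, by decide, rfl, rfl, rfl⟩ ⟨2, by decide, rfl, rfl, rfl⟩ ⟨3, by decide, rfl, rfl, rfl⟩ ⟨4, by decide, rfl, rfl, rfl⟩ ⟨5, by decide, rfl, rfl, rfl⟩
end Q125_2


end Pool.Agent.Helper6.MONO
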