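import Pool.Agent.Helper6.MONO.Cert.C15

/-!
Certificate data (generated).
-/

set_option autoImplicit false
set_option linter.all false
noncomputable section
namespace Pool.Agent.Helper6.MONO


namespace Q125_3
def sI : I := I.pos (nat_lit 209321984) (nat_lit 268435456)
def b0_0 : Bx := Bx.mk (St.mk (I.pos (nat_lit 160514048) (nat_lit 224280576)) (I.mix (nat_lit 278528) (nat_lit 76300288)) (I.mix (nat_lit 15400960) (nat_lit 57901056)) (I.pos (nat_lit 252182528) (nat_lit 368263168)) (I.mix (nat_lit 133726208) (nat_lit 99876864)) (I.mix (nat_lit 76529664) (nat_lit 83673088)) (I.mix (nat_lit 139198464) (nat_lit 125779968)))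
  false (nat_lit 70234180)
def b0_1 : Bx := Bx.mk (St.mk (I.pos (nat_lit 28082176) (nat_lit 67895296)) (I.mix (nat_lit 10010624) (nat_lit 44318720)) (I.neg (nat_lit 16482304) (nat_lit 46317568)) (I.pos (nat_lit 139591680) (nat_lit 163446784)) (I.mix (nat_lit 60817408) (nat_lit 92209152)) (I.mix (nat_lit 70647808) (nat_lit 46923776)) (I.mix (nat_lit 37601280) (nat_lit 26214400)))
  false (nat_lit 0)
def b0_2 : Bx := Bx.mk (St.mk (I.pos (nat_lit 48087040) (nat_lit 87425024)) (I.mix (nat_lit 54525952) (nat_lit 10747904)) (I.neg (nat_lit 31670272) (nat_lit 73285632)) (I.pos (nat_lit 142376960) (nat_lit 172703744)) (I.mix (nat_lit 118554624) (nat_lit 53919744)) (I.mix (nat_lit 49266688) (nat_lit 92897280)) (I.mix (nat_lit 31981568) (nat_lit 60735488)))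
  false (nat_lit 0)
def b0_3 : Bx := Bx.mk (St.mk (I.neg (nat_lit 28065792) (nat_lit 67895296)) (I.mix (nat_lit 44318720) (nat_lit 10010624)) (I.neg (nat_lit 16482304) (nat_lit 46333952)) (I.pos (nat_lit 139640832) (nat_lit 163446784)) (I.mix (nat_lit 92209152) (nat_lit 60817408)) (I.mix (nat_lit 46923776) (nat_lit 70647808)) (I.mix (nat_lit 37601280) (nat_lit 26214400)))
  true (nat_lit 0)
def b0_4 : Bx := Bx.mk (St.mk (I.pos (nat_lit 33177600) (nat_lit 64028672)) (I.mix (nat_lit 11501568) (nat_lit 21938176)) (I.neg (nat_lit 25460736) (nat_lit 46333952)) (I.pos (nat_lit 139280384) (nat_lit 159023104)) (I.mix (nat_lit 61685760) (nat_lit 49119232)) (I.mix (nat_lit 45170688) (nat_lit 40550400)) (I.mix (nat_lit 22102016) (nat_lit 26574848)))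
  false (nat_lit 0)
def b0_5 : Bx := Bx.mk (St.mk (I.pos (nat_lit 203669504) (nat_lit 252231680)) (I.mix (nat_lit 19283968) (nat_lit 16154624)) (I.neg (nat_lit 60571648) (nat_lit 125370368)) (I.pos (nat_lit 311099392) (nat_lit 395116544)) (I.mix (nat_lit 132988928) (nat_lit 61702144)) (I.mix (nat_lit 88653824) (nat_lit 78102528)) (I.mix (nat_lit 125534208) (nat_lit 151224320)))
  false (nat_lit 18673043)
def b0_6 : Bx := Bx.mk (St.mk (I.pos (nat_lit 187875328) (nat_lit 247513088)) (I.mix (nat_lit 16777216) (nat_lit 35667968)) (I.neg (nat_lit 21889024) (nat_lit 118472704)) (I.pos (nat_lit 295829504) (nat_lit 382255104)) (I.mix (nat_lit 143523840) (nat_lit 76513280)) (I.mix (nat_lit 101810176) (nat_lit 90308608)) (I.mix (nat_lit 150765568) (nat_lit 165265408)))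
  false (nat_lit 50663106)
def b0_7 : Bx := Bx.mk (St.mk (I.pos (nat_lit 178077696) (nat_lit 240812032)) (I.pos (nat_lit 10027008) (nat_lit 70893568)) (I.mix (nat_lit 58720256) (nat_lit 43663360)) (I.pos (nat_lit 295239680) (nat_lit 391184384)) (I.mix (nat_lit 134168576) (nat_lit 127893504)) (I.mix (nat_lit 118456320) (nat_lit 103694336)) (I.mix (nat_lit 214925312) (nat_lit 144179200)))
  false (nat_lit 73985989)
def b0_8 : Bx := Bx.mk (St.mk (I.pos (nat_lit 55803904) (nat_lit 145309696)) (I.neg (nat_lit 5947392) (nat_lit 56672256)) (I.neg (nat_lit 26722304) (nat_lit 75104256)) (I.pos (nat_lit 150470656) (nat_lit 225607680)) (I.mix (nat_lit 104923136) (nat_lit 58851328)) (I.mix (nat_lit 40370176) (nat_lit 76611584)) (I.mix (nat_lit 33210368) (nat_lit 69189632)))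
  false (nat_lit 0)
def b0_9 : Bx := Bx.mk (St.mk (I.mix (nat_lit 43515904) (nat_lit 7012352)) (I.mix (nat_lit 37175296) (nat_lit 9076736)) (I.neg (nat_lit 16809984) (nat_lit 26132480)) (I.pos (nat_lit 140165120) (nat_lit 154222592)) (I.mix (nat_lit 57491456) (nat_lit 48840704)) (I.mix (nat_lit 35274752) (nat_lit 49102848)) (I.mix (nat_lit 12435456) (nat_lit 11796480)))
  true (nat_lit 0)
def b0_10 : Bx := Bx.mk (St.mk (I.pos (nat_lit 149880832) (nat_lit 197574656)) (I.pos (nat_lit 2834432) (nat_lit 61816832)) (I.mix (nat_lit 19709952) (nat_lit 47480832)) (I.pos (nat_lit 248365056) (nat_lit 316424192)) (I.mix (nat_lit 134037504) (nat_lit 61931520)) (I.mix (nat_lit 120094720) (nat_lit 83427328)) (I.mix (nat_lit 112508928) (nat_lit 85540864)))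
  false (nat_lit 52236879)
def b0_11 : Bx := Bx.mk (St.mk (I.mix (nat_lit 7012352) (nat_lit 43515904)) (I.mix (nat_lit 9076736) (nat_lit 37175296)) (I.neg (nat_lit 16809984) (nat_lit 26132480)) (I.pos (nat_lit 140165120) (nat_lit 154222592)) (I.mix (nat_lit 48840704) (nat_lit 57491456)) (I.mix (nat_lit 49102848) (nat_lit 35274752)) (I.mix (nat_lit 12435456) (nat_lit 11796480)))
  false (nat_lit 0)
def b0_12 : Bx := Bx.mk (St.mk (I.pos (nat_lit 152535040) (nat_lit 193527808)) (I.mix (nat_lit 22822912) (nat_lit 16924672)) (I.neg (nat_lit 8699904) (nat_lit 54804480)) (I.pos (nat_lit 238469120) (nat_lit 287129600)) (I.mix (nat_lit 78036992) (nat_lit 83984384)) (I.mix (nat_lit 74874880) (nat_lit 71335936)) (I.mix (nat_lit 76120064) (nat_lit 62062592)))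
  false (nat_lit 0)
def b0_13 : Bx := Bx.mk (St.mk (I.pos (nat_lit 124338176) (nat_lit 165576704)) (I.neg (nat_lit 1359872) (nat_lit 35209216)) (I.neg (nat_lit 21233664) (nat_lit 62013440)) (I.pos (nat_lit 202653696) (nat_lit 250281984)) (I.mix (nat_lit 44761088) (nat_lit 34963456)) (I.mix (nat_lit 27951104) (nat_lit 31932416)) (I.mix (nat_lit 27574272) (nat_lit 30818304)))
  false (nat_lit 0)
def b0_14 : Bx := Bx.mk (St.mk (I.pos (nat_lit 151339008) (nat_lit 200933376)) (I.mix (nat_lit 7585792) (nat_lit 38617088)) (I.mix (nat_lit 39485440) (nat_lit 22970368)) (I.pos (nat_lit 247595008) (nat_lit 299728896)) (I.mix (nat_lit 117997568) (nat_lit 107724800)) (I.mix (nat_lit 124420096) (nat_lit 89227264)) (I.mix (nat_lit 127254528) (nat_lit 79953920)))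
  false (nat_lit 10241787)
def b0_15 : Bx := Bx.mk (St.mk (I.pos (nat_lit 118521856) (nat_lit 167837696)) (I.mix (nat_lit 31916032) (nat_lit 8257536)) (I.neg (nat_lit 11091968) (nat_lit 55689216)) (I.pos (nat_lit 197148672) (nat_lit 254164992)) (I.mix (nat_lit 57491456) (nat_lit 37158912)) (I.mix (nat_lit 45006848) (nat_lit 31031296)) (I.mix (nat_lit 43352064) (nat_lit 29835264)))
  false (nat_lit 0)
def b0_16 : Bx := Bx.mk (St.mk (I.pos (nat_lit 120242176) (nat_lit 147865600)) (I.neg (nat_lit 8716288) (nat_lit 35061760)) (I.neg (nat_lit 28672000) (nat_lit 61145088)) (I.pos (nat_lit 198737920) (nat_lit 228671488)) (I.mix (nat_lit 41418752) (nat_lit 14991360)) (I.mix (nat_lit 18219008) (nat_lit 19726336)) (I.mix (nat_lit 17055744) (nat_lit 21676032)))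
  false (nat_lit 0)
def b0_17 : Bx := Bx.mk (St.mk (I.pos (nat_lit 129335296) (nat_lit 169164800)) (I.mix (nat_lit 24674304) (nat_lit 9994240)) (I.neg (nat_lit 9420800) (nat_lit 49479680)) (I.pos (nat_lit 209223680) (nat_lit 255721472)) (I.mix (nat_lit 47923200) (nat_lit 29114368)) (I.mix (nat_lit 32636928) (nat_lit 30081024)) (I.mix (nat_lit 30457856) (nat_lit 28475392)))
  false (nat_lit 0)
def b0_18 : Bx := Bx.mk (St.mk (I.pos (nat_lit 152289280) (nat_lit 185434112)) (I.mix (nat_lit 21315584) (nat_lit 13041664)) (I.neg (nat_lit 10813440) (nat_lit 53248000)) (I.pos (nat_lit 238731264) (nat_lit 276463616)) (I.mix (nat_lit 69255168) (nat_lit 55033856)) (I.mix (nat_lit 53608448) (nat_lit 54394880)) (I.mix (nat_lit 54099968) (nat_lit 50855936)))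
  false (nat_lit 0)
def b0_19 : Bx := Bx.mk (St.mk (I.pos (nat_lit 121438208) (nat_lit 164102144)) (I.neg (nat_lit 2162688) (nat_lit 36945920)) (I.neg (nat_lit 21872640) (nat_lit 63799296)) (I.pos (nat_lit 199639040) (nat_lit 248168448)) (I.mix (nat_lit 41041920) (nat_lit 21020672)) (I.mix (nat_lit 19054592) (nat_lit 19955712)) (I.mix (nat_lit 18825216) (nat_lit 21577728)))
  false (nat_lit 0)
def b0_20 : Bx := Bx.mk (St.mk (I.pos (nat_lit 158203904) (nat_lit 190398464)) (I.mix (nat_lit 10911744) (nat_lit 18399232)) (I.neg (nat_lit 5210112) (nat_lit 41517056)) (I.pos (nat_lit 249249792) (nat_lit 284033024)) (I.mix (nat_lit 67059712) (nat_lit 54247424)) (I.mix (nat_lit 58015744) (nat_lit 50774016)) (I.mix (nat_lit 55754752) (nat_lit 45170688)))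
  false (nat_lit 0)
def t0 : BTr := (BTr.n (BTr.n (BTr.n (BTr.n (BTr.b b0_0) (BTr.b b0_1)) (BTr.n (BTr.b b0_2) (BTr.n (BTr.b b0_3) (BTr.b b0_4)))) (BTr.n (BTr.n (BTr.b b0_5) (BTr.b b0_6)) (BTr.n (BTr.b b0_7) (BTr.n (BTr.b b0_8) (BTr.b b0_9))))) (BTr.n (BTr.n (BTr.n (BTr.b b0_10) (BTr.b b0_11)) (BTr.n (BTr.b b0_12) (BTr.n (BTr.b b0_13) (BTr.b b0_14)))) (BTr.n (BTr.n (BTr.b b0_15) (BTr.n (BTr.b b0_16) (BTr.b b0_17))) (BTr.n (BTr.b b0_18) (BTr.n (BTr.b b0_19) (BTr.b b0_20))))))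
namespace T0
def l0 : Tr := Tr.L (Pth.l (Pth.l (Pth.l (Pth.l Pth.z))))
def l1 : Tr := Tr.L (Pth.l (Pth.l (Pth.l (Pth.r Pth.z))))
def l2 : Tr := Tr.L (Pth.l (Pth.l (Pth.r (Pth.l Pth.z))))
def l3 : Tr := Tr.L (Pth.l (Pth.l (Pth.r (Pth.r (Pth.l Pth.z)))))
def l4 : Tr := Tr.L (Pth.l (Pth.l (Pth.r (Pth.r (Pth.r Pth.z)))))
def l5 : Tr := Tr.L (Pth.l (Pth.r (Pth.l (Pth.l Pth.z))))
def l6 : Tr := Tr.L (Pth.l (Pth.r (Pth.l (Pth.r Pth.z))))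
def l7 : Tr := Tr.L (Pth.l (Pth.r (Pth.r (Pth.l Pth.z))))
def l8 : Tr := Tr.L (Pth.l (Pth.r (Pth.r (Pth.r (Pth.l Pth.z)))))
def l9 : Tr := Tr.L (Pth.l (Pth.r (Pth.r (Pth.r (Pth.r Pth.z)))))
def l10 : Tr := Tr.L (Pth.r (Pth.l (Pth.l (Pth.l Pth.z))))
def l11 : Tr := Tr.L (Pth.r (Pth.l (Pth.l (Pth.r Pth.z))))
def l12 : Tr := Tr.L (Pth.r (Pth.l (Pth.r (Pth.l Pth.z))))
def l13 : Tr := Tr.L (Pth.r (Pth.l (Pth.r (Pth.r (Pth.l Pth.z)))))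
def l14 : Tr := Tr.L (Pth.r (Pth.l (Pth.r (Pth.r (Pth.r Pth.z)))))
def l15 : Tr := Tr.L (Pth.r (Pth.r (Pth.l (Pth.l Pth.z))))
def l16 : Tr := Tr.L (Pth.r (Pth.r (Pth.l (Pth.r (Pth.l Pth.z)))))
def l17 : Tr := Tr.L (Pth.r (Pth.r (Pth.l (Pth.r (Pth.r Pth.z)))))
def l18 : Tr := Tr.L (Pth.r (Pth.r (Pth.r (Pth.l Pth.z))))
def l19 : Tr := Tr.L (Pth.r (Pth.r (Pth.r (Pth.r (Pth.l Pth.z)))))
def l20 : Tr := Tr.L (Pth.r (Pth.r (Pth.r (Pth.r (Pth.r Pth.z)))))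
end T0
def b1_0 : Bx := Bx.mk (St.mk (I.pos (nat_lit 160514048) (nat_lit 230178816)) (I.mix (nat_lit 278528) (nat_lit 50872320)) (I.mix (nat_lit 278528) (nat_lit 74432512)) (I.pos (nat_lit 120160256) (nat_lit 251150336)) (I.mix (nat_lit 117391360) (nat_lit 87719936)) (I.mix (nat_lit 82345984) (nat_lit 77217792)) (I.mix (nat_lit 129449984) (nat_lit 111525888)))
  false (nat_lit 10432097)
def b1_1 : Bx := Bx.mk (St.mk (I.mix (nat_lit 7700480) (nat_lit 121618432)) (I.mix (nat_lit 5537792) (nat_lit 24608768)) (I.mix (nat_lit 13746176) (nat_lit 13844480)) (I.pos (nat_lit 18006016) (nat_lit 92487680)) (I.mix (nat_lit 41992192) (nat_lit 45940736)) (I.mix (nat_lit 38469632) (nat_lit 28016640)) (I.mix (nat_lit 31817728) (nat_lit 20332544)))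
  false (nat_lit 0)
def b1_2 : Bx := Bx.mk (St.mk (I.pos (nat_lit 101253120) (nat_lit 141819904)) (I.mix (nat_lit 43499520) (nat_lit 8896512)) (I.neg (nat_lit 1933312) (nat_lit 49971200)) (I.pos (nat_lit 62603264) (nat_lit 113246208)) (I.mix (nat_lit 95338496) (nat_lit 50200576)) (I.mix (nat_lit 39698432) (nat_lit 83410944)) (I.mix (nat_lit 31703040) (nat_lit 66699264)))
  false (nat_lit 0)
def b1_3 : Bx := Bx.mk (St.mk (I.mix (nat_lit 17481728) (nat_lit 86245376)) (I.mix (nat_lit 25542656) (nat_lit 1359872)) (I.neg (nat_lit 442368) (nat_lit 20332544)) (I.pos (nat_lit 17924096) (nat_lit 64880640)) (I.mix (nat_lit 45907968) (nat_lit 23035904)) (I.mix (nat_lit 18464768) (nat_lit 37060608)) (I.mix (nat_lit 9682944) (nat_lit 18743296)))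
  false (nat_lit 0)
def b1_4 : Bx := Bx.mk (St.mk (I.pos (nat_lit 194854912) (nat_lit 242319360)) (I.mix (nat_lit 11894784) (nat_lit 22265856)) (I.mix (nat_lit 45219840) (nat_lit 17481728)) (I.pos (nat_lit 192364544) (nat_lit 265584640)) (I.mix (nat_lit 110641152) (nat_lit 41746432)) (I.mix (nat_lit 70467584) (nat_lit 60751872)) (I.mix (nat_lit 115687424) (nat_lit 108429312)))
  false (nat_lit 0)
def b1_5 : Bx := Bx.mk (St.mk (I.pos (nat_lit 186204160) (nat_lit 236847104)) (I.pos (nat_lit 8962048) (nat_lit 50626560)) (I.pos (nat_lit 2326528) (nat_lit 72024064)) (I.pos (nat_lit 185696256) (nat_lit 263700480)) (I.mix (nat_lit 120586240) (nat_lit 105103360)) (I.mix (nat_lit 108478464) (nat_lit 88309760)) (I.mix (nat_lit 182419456) (nat_lit 137117696)))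
  false (nat_lit 31584188)
def b1_6 : Bx := Bx.mk (St.mk (I.mix (nat_lit 24903680) (nat_lit 77103104)) (I.mix (nat_lit 3817472) (nat_lit 4800512)) (I.neg (nat_lit 966656) (nat_lit 6651904)) (I.pos (nat_lit 18284544) (nat_lit 56688640)) (I.mix (nat_lit 14745600) (nat_lit 9977856)) (I.mix (nat_lit 9568256) (nat_lit 8568832)) (I.mix (nat_lit 1703936) (nat_lit 1769472)))
  false (nat_lit 0)
def b1_7 : Bx := Bx.mk (St.mk (I.pos (nat_lit 92880896) (nat_lit 124567552)) (I.mix (nat_lit 9289728) (nat_lit 10944512)) (I.mix (nat_lit 17514496) (nat_lit 344064)) (I.pos (nat_lit 57081856) (nat_lit 95715328)) (I.mix (nat_lit 44122112) (nat_lit 26542080)) (I.mix (nat_lit 26689536) (nat_lit 24444928)) (I.mix (nat_lit 20922368) (nat_lit 21184512)))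
  false (nat_lit 0)
def b1_8 : Bx := Bx.mk (St.mk (I.pos (nat_lit 208175104) (nat_lit 252444672)) (I.mix (nat_lit 13533184) (nat_lit 12468224)) (I.neg (nat_lit 4079616) (nat_lit 51986432)) (I.pos (nat_lit 210567168) (nat_lit 292388864)) (I.mix (nat_lit 105119744) (nat_lit 16826368)) (I.mix (nat_lit 47398912) (nat_lit 50479104)) (I.mix (nat_lit 81133568) (nat_lit 97566720)))
  false (nat_lit 0)
def b1_9 : Bx := Bx.mk (St.mk (I.pos (nat_lit 108380160) (nat_lit 172179456)) (I.neg (nat_lit 3571712) (nat_lit 46596096)) (I.neg (nat_lit 9863168) (nat_lit 51511296)) (I.pos (nat_lit 75481088) (nat_lit 153075712)) (I.mix (nat_lit 82280448) (nat_lit 51068928)) (I.mix (nat_lit 39911424) (nat_lit 61259776)) (I.mix (nat_lit 33128448) (nat_lit 64372736)))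
  false (nat_lit 7015211)
def b1_10 : Bx := Bx.mk (St.mk (I.mix (nat_lit 14303232) (nat_lit 98516992)) (I.mix (nat_lit 25001984) (nat_lit 999424)) (I.neg (nat_lit 507904) (nat_lit 20054016)) (I.pos (nat_lit 17825792) (nat_lit 73744384)) (I.mix (nat_lit 38699008) (nat_lit 31571968)) (I.mix (nat_lit 19955712) (nat_lit 33423360)) (I.mix (nat_lit 11894784) (nat_lit 21102592)))
  false (nat_lit 0)
def b1_11 : Bx := Bx.mk (St.mk (I.pos (nat_lit 161644544) (nat_lit 207110144)) (I.mix (nat_lit 12025856) (nat_lit 45531136)) (I.mix (nat_lit 4423680) (nat_lit 68730880)) (I.pos (nat_lit 131792896) (nat_lit 206356480)) (I.mix (nat_lit 134643712) (nat_lit 47759360)) (I.mix (nat_lit 106119168) (nat_lit 61734912)) (I.mix (nat_lit 115294208) (nat_lit 65224704)))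
  false (nat_lit 521841)
def b1_12 : Bx := Bx.mk (St.mk (I.mix (nat_lit 19152896) (nat_lit 119013376)) (I.mix (nat_lit 9601024) (nat_lit 27492352)) (I.mix (nat_lit 11288576) (nat_lit 16973824)) (I.pos (nat_lit 17842176) (nat_lit 91324416)) (I.mix (nat_lit 49692672) (nat_lit 34783232)) (I.mix (nat_lit 45498368) (nat_lit 27656192)) (I.mix (nat_lit 28786688) (nat_lit 17268736)))
  false (nat_lit 0)
def b1_13 : Bx := Bx.mk (St.mk (I.pos (nat_lit 164528128) (nat_lit 202850304)) (I.mix (nat_lit 36536320) (nat_lit 5160960)) (I.mix (nat_lit 44023808) (nat_lit 8306688)) (I.pos (nat_lit 129679360) (nat_lit 197328896)) (I.mix (nat_lit 77529088) (nat_lit 78004224)) (I.mix (nat_lit 75366400) (nat_lit 72712192)) (I.mix (nat_lit 82739200) (nat_lit 76103680)))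
  false (nat_lit 47383619)
def b1_14 : Bx := Bx.mk (St.mk (I.pos (nat_lit 140836864) (nat_lit 171950080)) (I.neg (nat_lit 10141696) (nat_lit 37404672)) (I.neg (nat_lit 12746752) (nat_lit 45400064)) (I.pos (nat_lit 105365504) (nat_lit 152420352)) (I.mix (nat_lit 45875200) (nat_lit 24199168)) (I.mix (nat_lit 19120128) (nat_lit 28557312)) (I.mix (nat_lit 20987904) (nat_lit 32768000)))
  false (nat_lit 0)
def b1_15 : Bx := Bx.mk (St.mk (I.mix (nat_lit 20938752) (nat_lit 107511808)) (I.mix (nat_lit 12156928) (nat_lit 1310720)) (I.neg (nat_lit 262144) (nat_lit 12828672)) (I.pos (nat_lit 18333696) (nat_lit 76578816)) (I.mix (nat_lit 15220736) (nat_lit 14106624)) (I.mix (nat_lit 8765440) (nat_lit 11419648)) (I.mix (nat_lit 5865472) (nat_lit 7929856)))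
  false (nat_lit 0)
def b1_16 : Bx := Bx.mk (St.mk (I.pos (nat_lit 161759232) (nat_lit 202604544)) (I.mix (nat_lit 20758528) (nat_lit 16695296)) (I.mix (nat_lit 19906560) (nat_lit 28327936)) (I.pos (nat_lit 130318336) (nat_lit 193478656)) (I.mix (nat_lit 104546304) (nat_lit 74072064)) (I.mix (nat_lit 110116864) (nat_lit 71892992)) (I.mix (nat_lit 123355136) (nat_lit 77611008)))
  false (nat_lit 0)
def b1_17 : Bx := Bx.mk (St.mk (I.pos (nat_lit 147226624) (nat_lit 171999232)) (I.neg (nat_lit 4587520) (nat_lit 27803648)) (I.neg (nat_lit 6062080) (nat_lit 32604160)) (I.pos (nat_lit 110493696) (nat_lit 152190976)) (I.mix (nat_lit 54575104) (nat_lit 16908288)) (I.mix (nat_lit 26116096) (nat_lit 26230784)) (I.mix (nat_lit 30195712) (nat_lit 29736960)))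
  false (nat_lit 0)
def b1_18 : Bx := Bx.mk (St.mk (I.pos (nat_lit 146685952) (nat_lit 179191808)) (I.mix (nat_lit 28983296) (nat_lit 2195456)) (I.mix (nat_lit 34504704) (nat_lit 425984)) (I.pos (nat_lit 111788032) (nat_lit 162562048)) (I.mix (nat_lit 62570496) (nat_lit 25460736)) (I.mix (nat_lit 31817728) (nat_lit 36241408)) (I.mix (nat_lit 35012608) (nat_lit 39485440)))
  false (nat_lit 0)
def b1_19 : Bx := Bx.mk (St.mk (I.pos (nat_lit 170065920) (nat_lit 196018176)) (I.mix (nat_lit 22511616) (nat_lit 3571712)) (I.mix (nat_lit 22872064) (nat_lit 7880704)) (I.pos (nat_lit 136921088) (nat_lit 186548224)) (I.mix (nat_lit 55443456) (nat_lit 37781504)) (I.mix (nat_lit 43778048) (nat_lit 43237376)) (I.mix (nat_lit 46284800) (nat_lit 47185920)))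
  false (nat_lit 0)
def b1_20 : Bx := Bx.mk (St.mk (I.pos (nat_lit 159055872) (nat_lit 193822720)) (I.mix (nat_lit 36159488) (nat_lit 1212416)) (I.mix (nat_lit 44449792) (nat_lit 1835008)) (I.pos (nat_lit 123502592) (nat_lit 183238656)) (I.mix (nat_lit 73039872) (nat_lit 52101120)) (I.mix (nat_lit 54640640) (nat_lit 54657024)) (I.mix (nat_lit 61194240) (nat_lit 56868864)))
  false (nat_lit 6356636)
def b1_21 : Bx := Bx.mk (St.mk (I.pos (nat_lit 200261632) (nat_lit 229949440)) (I.pos (nat_lit 5914624) (nat_lit 23527424)) (I.mix (nat_lit 3309568) (nat_lit 19939328)) (I.pos (nat_lit 202719232) (nat_lit 240336896)) (I.neg (nat_lit 278528) (nat_lit 67207168)) (I.mix (nat_lit 25575424) (nat_lit 18317312)) (I.mix (nat_lit 38076416) (nat_lit 32636928)))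
  false (nat_lit 0)
def t1 : BTr := (BTr.n (BTr.n (BTr.n (BTr.n (BTr.b b1_0) (BTr.b b1_1)) (BTr.n (BTr.b b1_2) (BTr.n (BTr.b b1_3) (BTr.b b1_4)))) (BTr.n (BTr.n (BTr.b b1_5) (BTr.n (BTr.b b1_6) (BTr.b b1_7))) (BTr.n (BTr.b b1_8) (BTr.n (BTr.b b1_9) (BTr.b b1_10))))) (BTr.n (BTr.n (BTr.n (BTr.b b1_11) (BTr.b b1_12)) (BTr.n (BTr.b b1_13) (BTr.n (BTr.b b1_14) (BTr.b b1_15)))) (BTr.n (BTr.n (BTr.b b1_16) (BTr.n (BTr.b b1_17) (BTr.b b1_18))) (BTr.n (BTr.b b1_19) (BTr.n (BTr.b b1_20) (BTr.b b1_21))))))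
namespace T1
def l0 : Tr := Tr.L (Pth.l (Pth.l (Pth.l (Pth.l Pth.z))))
def l1 : Tr := Tr.L (Pth.l (Pth.l (Pth.l (Pth.r Pth.z))))
def l2 : Tr := Tr.L (Pth.l (Pth.l (Pth.r (Pth.l Pth.z))))
def l3 : Tr := Tr.L (Pth.l (Pth.l (Pth.r (Pth.r (Pth.l Pth.z)))))
def l4 : Tr := Tr.L (Pth.l (Pth.l (Pth.r (Pth.r (Pth.r Pth.z)))))
def l5 : Tr := Tr.L (Pth.l (Pth.r (Pth.l (Pth.l Pth.z))))
def l6 : Tr := Tr.L (Pth.l (Pth.r (Pth.l (Pth.r (Pth.l Pth.z)))))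
def l7 : Tr := Tr.L (Pth.l (Pth.r (Pth.l (Pth.r (Pth.r Pth.z)))))
def l8 : Tr := Tr.L (Pth.l (Pth.r (Pth.r (Pth.l Pth.z))))
def l9 : Tr := Tr.L (Pth.l (Pth.r (Pth.r (Pth.r (Pth.l Pth.z)))))
def l10 : Tr := Tr.L (Pth.l (Pth.r (Pth.r (Pth.r (Pth.r Pth.z)))))
def l11 : Tr := Tr.L (Pth.r (Pth.l (Pth.l (Pth.l Pth.z))))
def l12 : Tr := Tr.L (Pth.r (Pth.l (Pth.l (Pth.r Pth.z))))
def l13 : Tr := Tr.L (Pth.r (Pth.l (Pth.r (Pth.l Pth.z))))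
def l14 : Tr := Tr.L (Pth.r (Pth.l (Pth.r (Pth.r (Pth.l Pth.z)))))
def l15 : Tr := Tr.L (Pth.r (Pth.l (Pth.r (Pth.r (Pth.r Pth.z)))))
def l16 : Tr := Tr.L (Pth.r (Pth.r (Pth.l (Pth.l Pth.z))))
def l17 : Tr := Tr.L (Pth.r (Pth.r (Pth.l (Pth.r (Pth.l Pth.z)))))
def l18 : Tr := Tr.L (Pth.r (Pth.r (Pth.l (Pth.r (Pth.r Pth.z)))))
def l19 : Tr := Tr.L (Pth.r (Pth.r (Pth.r (Pth.l Pth.z))))
def l20 : Tr := Tr.L (Pth.r (Pth.r (Pth.r (Pth.r (Pth.l Pth.z)))))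
def l21 : Tr := Tr.L (Pth.r (Pth.r (Pth.r (Pth.r (Pth.r Pth.z)))))
end T1
def b2_0 : Bx := Bx.mk (St.mk (I.pos (nat_lit 143736832) (nat_lit 215302144)) (I.mix (nat_lit 278528) (nat_lit 95043584)) (I.mix (nat_lit 13500416) (nat_lit 69386240)) (I.pos (nat_lit 381976576) (nat_lit 479739904)) (I.mix (nat_lit 180518912) (nat_lit 101072896)) (I.mix (nat_lit 102105088) (nat_lit 99532800)) (I.mix (nat_lit 140541952) (nat_lit 151027712)))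
  false (nat_lit 118207674)
def b2_1 : Bx := Bx.mk (St.mk (I.mix (nat_lit 48168960) (nat_lit 8863744)) (I.mix (nat_lit 1064960) (nat_lit 80723968)) (I.neg (nat_lit 59588608) (nat_lit 87801856)) (I.pos (nat_lit 258981888) (nat_lit 290209792)) (I.mix (nat_lit 58114048) (nat_lit 147488768)) (I.mix (nat_lit 100532224) (nat_lit 81264640)) (I.mix (nat_lit 58638336) (nat_lit 49725440)))
  true (nat_lit 0)
def b2_2 : Bx := Bx.mk (St.mk (I.mix (nat_lit 475136) (nat_lit 48168960)) (I.neg (nat_lit 32407552) (nat_lit 80723968)) (I.neg (nat_lit 59621376) (nat_lit 87801856)) (I.pos (nat_lit 261963776) (nat_lit 290209792)) (I.mix (nat_lit 147488768) (nat_lit 58114048)) (I.mix (nat_lit 81264640) (nat_lit 100532224)) (I.mix (nat_lit 58638336) (nat_lit 49741824)))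
  false (nat_lit 64174045)
def b2_3 : Bx := Bx.mk (St.mk (I.pos (nat_lit 7766016) (nat_lit 120389632)) (I.neg (nat_lit 5881856) (nat_lit 83394560)) (I.neg (nat_lit 20791296) (nat_lit 92127232)) (I.pos (nat_lit 261160960) (nat_lit 331284480)) (I.mix (nat_lit 152518656) (nat_lit 79872000)) (I.mix (nat_lit 83869696) (nat_lit 92848128)) (I.mix (nat_lit 93814784) (nat_lit 83329024)))
  false (nat_lit 91935003)
def b2_4 : Bx := Bx.mk (St.mk (I.pos (nat_lit 89456640) (nat_lit 192643072)) (I.mix (nat_lit 38109184) (nat_lit 80068608)) (I.mix (nat_lit 55541760) (nat_lit 66846720)) (I.pos (nat_lit 301645824) (nat_lit 446251008)) (I.mix (nat_lit 193495040) (nat_lit 103235584)) (I.mix (nat_lit 154402816) (nat_lit 126058496)) (I.mix (nat_lit 158187520) (nat_lit 155435008)))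
  false (nat_lit 82882844)
def b2_5 : Bx := Bx.mk (St.mk (I.neg (nat_lit 7749632) (nat_lit 120864768)) (I.pos (nat_lit 5881856) (nat_lit 83345408)) (I.neg (nat_lit 20774912) (nat_lit 92143616)) (I.pos (nat_lit 261160960) (nat_lit 333332480)) (I.mix (nat_lit 79888384) (nat_lit 152469504)) (I.mix (nat_lit 92864512) (nat_lit 83869696)) (I.mix (nat_lit 93880320) (nat_lit 83345408)))
  true (nat_lit 0)
def b2_6 : Bx := Bx.mk (St.mk (I.pos (nat_lit 218497024) (nat_lit 263815168)) (I.pos (nat_lit 2162688) (nat_lit 48316416)) (I.neg (nat_lit 39485440) (nat_lit 118521856)) (I.pos (nat_lit 466845696) (nat_lit 544145408)) (I.mix (nat_lit 109936640) (nat_lit 88244224)) (I.mix (nat_lit 81739776) (nat_lit 76840960)) (I.mix (nat_lit 133365760) (nat_lit 139362304)))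
  false (nat_lit 44987593)
def b2_7 : Bx := Bx.mk (St.mk (I.mix (nat_lit 8847360) (nat_lit 14270464)) (I.neg (nat_lit 1409024) (nat_lit 26296320)) (I.neg (nat_lit 61538304) (nat_lit 71434240)) (I.pos (nat_lit 258981888) (nat_lit 269418496)) (I.mix (nat_lit 55427072) (nat_lit 39976960)) (I.mix (nat_lit 35897344) (nat_lit 38158336)) (I.mix (nat_lit 5341184) (nat_lit 14860288)))
  false (nat_lit 0)
def b2_8 : Bx := Bx.mk (St.mk (I.pos (nat_lit 197869568) (nat_lit 246087680)) (I.mix (nat_lit 3522560) (nat_lit 39862272)) (I.neg (nat_lit 42876928) (nat_lit 113360896)) (I.pos (nat_lit 429457408) (nat_lit 504545280)) (I.mix (nat_lit 110379008) (nat_lit 101253120)) (I.mix (nat_lit 87375872) (nat_lit 75104256)) (I.mix (nat_lit 138870784) (nat_lit 130236416)))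
  false (nat_lit 25830618)
def b2_9 : Bx := Bx.mk (St.mk (I.pos (nat_lit 1851392) (nat_lit 27590656)) (I.mix (nat_lit 27131904) (nat_lit 1064960)) (I.neg (nat_lit 59637760) (nat_lit 71237632)) (I.pos (nat_lit 259325952) (nat_lit 271237120)) (I.mix (nat_lit 65961984) (nat_lit 48676864)) (I.mix (nat_lit 41025536) (nat_lit 47005696)) (I.mix (nat_lit 8339456) (nat_lit 19333120)))
  false (nat_lit 0)
def b2_10 : Bx := Bx.mk (St.mk (I.pos (nat_lit 177995776) (nat_lit 232898560)) (I.mix (nat_lit 1245184) (nat_lit 51740672)) (I.neg (nat_lit 15810560) (nat_lit 107347968)) (I.pos (nat_lit 410714112) (nat_lit 478248960)) (I.mix (nat_lit 105971712) (nat_lit 79691776)) (I.mix (nat_lit 73859072) (nat_lit 66142208)) (I.mix (nat_lit 103432192) (nat_lit 109658112)))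
  false (nat_lit 32850173)
def b2_11 : Bx := Bx.mk (St.mk (I.pos (nat_lit 5718016) (nat_lit 37797888)) (I.neg (nat_lit 753664) (nat_lit 39354368)) (I.neg (nat_lit 59637760) (nat_lit 73875456)) (I.pos (nat_lit 259227648) (nat_lit 275513344)) (I.mix (nat_lit 61784064) (nat_lit 48087040)) (I.mix (nat_lit 42811392) (nat_lit 44171264)) (I.mix (nat_lit 14221312) (nat_lit 21594112)))
  false (nat_lit 0)
def b2_12 : Bx := Bx.mk (St.mk (I.pos (nat_lit 219578368) (nat_lit 249626624)) (I.pos (nat_lit 3784704) (nat_lit 33144832)) (I.neg (nat_lit 58261504) (nat_lit 111738880)) (I.pos (nat_lit 464240640) (nat_lit 509820928)) (I.mix (nat_lit 78397440) (nat_lit 54444032)) (I.mix (nat_lit 61128704) (nat_lit 50315264)) (I.mix (nat_lit 87801856) (nat_lit 89440256)))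
  false (nat_lit 0)
def b2_13 : Bx := Bx.mk (St.mk (I.mix (nat_lit 10993664) (nat_lit 12566528)) (I.mix (nat_lit 6356992) (nat_lit 18989056)) (I.neg (nat_lit 62816256) (nat_lit 70942720)) (I.pos (nat_lit 258965504) (nat_lit 268075008)) (I.mix (nat_lit 30015488) (nat_lit 42598400)) (I.mix (nat_lit 28606464) (nat_lit 23953408)) (I.mix (nat_lit 1261568) (nat_lit 9650176)))
  true (nat_lit 0)
def b2_14 : Bx := Bx.mk (St.mk (I.pos (nat_lit 165953536) (nat_lit 220856320)) (I.pos (nat_lit 23838720) (nat_lit 88571904)) (I.mix (nat_lit 45187072) (nat_lit 47906816)) (I.pos (nat_lit 410796032) (nat_lit 478347264)) (I.mix (nat_lit 133742592) (nat_lit 101711872)) (I.mix (nat_lit 95944704) (nat_lit 80461824)) (I.mix (nat_lit 156270592) (nat_lit 121192448)))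
  false (nat_lit 71994705)
def b2_15 : Bx := Bx.mk (St.mk (I.pos (nat_lit 966656) (nat_lit 36503552)) (I.neg (nat_lit 18333696) (nat_lit 64651264)) (I.neg (nat_lit 61620224) (nat_lit 83247104)) (I.pos (nat_lit 261275648) (nat_lit 281264128)) (I.mix (nat_lit 122093568) (nat_lit 43712512)) (I.mix (nat_lit 44941312) (nat_lit 90193920)) (I.mix (nat_lit 33243136) (nat_lit 32964608)))
  false (nat_lit 0)
def b2_16 : Bx := Bx.mk (St.mk (I.pos (nat_lit 227459072) (nat_lit 272875520)) (I.mix (nat_lit 8978432) (nat_lit 38322176)) (I.neg (nat_lit 60669952) (nat_lit 154337280)) (I.pos (nat_lit 473726976) (nat_lit 560054272)) (I.mix (nat_lit 90390528) (nat_lit 76857344)) (I.mix (nat_lit 71991296) (nat_lit 61095936)) (I.mix (nat_lit 120782848) (nat_lit 119193600)))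
  false (nat_lit 14019467)
def b2_17 : Bx := Bx.mk (St.mk (I.mix (nat_lit 12566528) (nat_lit 10993664)) (I.mix (nat_lit 18989056) (nat_lit 6356992)) (I.neg (nat_lit 62816256) (nat_lit 70942720)) (I.pos (nat_lit 258965504) (nat_lit 268075008)) (I.mix (nat_lit 42598400) (nat_lit 30015488)) (I.mix (nat_lit 23953408) (nat_lit 28606464)) (I.mix (nat_lit 1261568) (nat_lit 9650176)))
  false (nat_lit 0)
def t2 : BTr := (BTr.n (BTr.n (BTr.n (BTr.n (BTr.b b2_0) (BTr.b b2_1)) (BTr.n (BTr.b b2_2) (BTr.b b2_3))) (BTr.n (BTr.n (BTr.b b2_4) (BTr.b b2_5)) (BTr.n (BTr.b b2_6) (BTr.n (BTr.b b2_7) (BTr.b b2_8))))) (BTr.n (BTr.n (BTr.n (BTr.b b2_9) (BTr.b b2_10)) (BTr.n (BTr.b b2_11) (BTr.b b2_12))) (BTr.n (BTr.n (BTr.b b2_13) (BTr.b b2_14)) (BTr.n (BTr.b b2_15) (BTr.n (BTr.b b2_16) (BTr.b b2_17))))))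
namespace T2
def l0 : Tr := Tr.L (Pth.l (Pth.l (Pth.l (Pth.l Pth.z))))
def l1 : Tr := Tr.L (Pth.l (Pth.l (Pth.l (Pth.r Pth.z))))
def l2 : Tr := Tr.L (Pth.l (Pth.l (Pth.r (Pth.l Pth.z))))
def l3 : Tr := Tr.L (Pth.l (Pth.l (Pth.r (Pth.r Pth.z))))
def l4 : Tr := Tr.L (Pth.l (Pth.r (Pth.l (Pth.l Pth.z))))
def l5 : Tr := Tr.L (Pth.l (Pth.r (Pth.l (Pth.r Pth.z))))
def l6 : Tr := Tr.L (Pth.l (Pth.r (Pth.r (Pth.l Pth.z))))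
def l7 : Tr := Tr.L (Pth.l (Pth.r (Pth.r (Pth.r (Pth.l Pth.z)))))
def l8 : Tr := Tr.L (Pth.l (Pth.r (Pth.r (Pth.r (Pth.r Pth.z)))))
def l9 : Tr := Tr.L (Pth.r (Pth.l (Pth.l (Pth.l Pth.z))))
def l10 : Tr := Tr.L (Pth.r (Pth.l (Pth.l (Pth.r Pth.z))))
def l11 : Tr := Tr.L (Pth.r (Pth.l (Pth.r (Pth.l Pth.z))))
def l12 : Tr := Tr.L (Pth.r (Pth.l (Pth.r (Pth.r Pth.z))))
def l13 : Tr := Tr.L (Pth.r (Pth.r (Pth.l (Pth.l Pth.z))))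
def l14 : Tr := Tr.L (Pth.r (Pth.r (Pth.l (Pth.r Pth.z))))
def l15 : Tr := Tr.L (Pth.r (Pth.r (Pth.r (Pth.l Pth.z))))
def l16 : Tr := Tr.L (Pth.r (Pth.r (Pth.r (Pth.r (Pth.l Pth.z)))))
def l17 : Tr := Tr.L (Pth.r (Pth.r (Pth.r (Pth.r (Pth.r Pth.z)))))
end T2
def b3_0 : Bx := Bx.mk (St.mk (I.pos (nat_lit 160514048) (nat_lit 225394688)) (I.mix (nat_lit 278528) (nat_lit 43827200)) (I.mix (nat_lit 278528) (nat_lit 92225536)) (I.pos (nat_lit 118505472) (nat_lit 224575488)) (I.mix (nat_lit 110149632) (nat_lit 66961408)) (I.mix (nat_lit 77152256) (nat_lit 64864256)) (I.mix (nat_lit 107806720) (nat_lit 84393984)))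
  false (nat_lit 0)
def b3_1 : Bx := Bx.mk (St.mk (I.pos (nat_lit 109641728) (nat_lit 166526976)) (I.neg (nat_lit 4472832) (nat_lit 51953664)) (I.mix (nat_lit 42156032) (nat_lit 8634368)) (I.pos (nat_lit 83378176) (nat_lit 140410880)) (I.mix (nat_lit 81838080) (nat_lit 68861952)) (I.mix (nat_lit 54558720) (nat_lit 67747840)) (I.mix (nat_lit 50429952) (nat_lit 71811072)))
  false (nat_lit 13372631)
def b3_2 : Bx := Bx.mk (St.mk (I.mix (nat_lit 7716864) (nat_lit 96288768)) (I.mix (nat_lit 26083328) (nat_lit 1867776)) (I.mix (nat_lit 12288000) (nat_lit 7143424)) (I.pos (nat_lit 18071552) (nat_lit 71155712)) (I.mix (nat_lit 36700160) (nat_lit 40222720)) (I.mix (nat_lit 24330240) (nat_lit 34406400)) (I.mix (nat_lit 13451264) (nat_lit 21135360)))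
  false (nat_lit 0)
def b3_3 : Bx := Bx.mk (St.mk (I.pos (nat_lit 155320320) (nat_lit 202686464)) (I.mix (nat_lit 14925824) (nat_lit 42319872)) (I.pos (nat_lit 10665984) (nat_lit 85901312)) (I.pos (nat_lit 118751232) (nat_lit 193740800)) (I.mix (nat_lit 142016512) (nat_lit 55001088)) (I.mix (nat_lit 117604352) (nat_lit 61194240)) (I.mix (nat_lit 127877120) (nat_lit 54673408)))
  false (nat_lit 0)
def b3_4 : Bx := Bx.mk (St.mk (I.mix (nat_lit 18022400) (nat_lit 116162560)) (I.mix (nat_lit 12566528) (nat_lit 26050560)) (I.mix (nat_lit 2359296) (nat_lit 27541504)) (I.pos (nat_lit 17973248) (nat_lit 86835200)) (I.mix (nat_lit 63635456) (nat_lit 37404672)) (I.mix (nat_lit 53362688) (nat_lit 27803648)) (I.mix (nat_lit 33619968) (nat_lit 16613376)))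
  false (nat_lit 0)
def b3_5 : Bx := Bx.mk (St.mk (I.pos (nat_lit 159973376) (nat_lit 200622080)) (I.neg (nat_lit 1392640) (nat_lit 41959424)) (I.mix (nat_lit 27181056) (nat_lit 23478272)) (I.pos (nat_lit 124829696) (nat_lit 188825600)) (I.mix (nat_lit 78282752) (nat_lit 85262336)) (I.mix (nat_lit 83738624) (nat_lit 66617344)) (I.mix (nat_lit 85442560) (nat_lit 70107136)))
  false (nat_lit 33514578)
def b3_6 : Bx := Bx.mk (St.mk (I.pos (nat_lit 156794880) (nat_lit 200097792)) (I.mix (nat_lit 25935872) (nat_lit 16433152)) (I.mix (nat_lit 98304) (nat_lit 49709056)) (I.pos (nat_lit 119816192) (nat_lit 187138048)) (I.mix (nat_lit 117899264) (nat_lit 85639168)) (I.mix (nat_lit 135544832) (nat_lit 77578240)) (I.mix (nat_lit 141967360) (nat_lit 74268672)))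
  false (nat_lit 46496824)
def b3_7 : Bx := Bx.mk (St.mk (I.mix (nat_lit 24887296) (nat_lit 103923712)) (I.mix (nat_lit 14909440) (nat_lit 4259840)) (I.mix (nat_lit 3506176) (nat_lit 7143424)) (I.pos (nat_lit 18415616) (nat_lit 72957952)) (I.mix (nat_lit 33259520) (nat_lit 19251200)) (I.mix (nat_lit 17285120) (nat_lit 21889024)) (I.mix (nat_lit 10813440) (nat_lit 12468224)))
  false (nat_lit 0)
def b3_8 : Bx := Bx.mk (St.mk (I.pos (nat_lit 134643712) (nat_lit 173735936)) (I.neg (nat_lit 1015808) (nat_lit 34013184)) (I.mix (nat_lit 19775488) (nat_lit 15073280)) (I.pos (nat_lit 100990976) (nat_lit 151158784)) (I.mix (nat_lit 76414976) (nat_lit 42352640)) (I.mix (nat_lit 33079296) (nat_lit 52494336)) (I.mix (nat_lit 37650432) (nat_lit 50757632)))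
  false (nat_lit 0)
def b3_9 : Bx := Bx.mk (St.mk (I.pos (nat_lit 152207360) (nat_lit 187564032)) (I.neg (nat_lit 9437184) (nat_lit 39387136)) (I.mix (nat_lit 25968640) (nat_lit 7077888)) (I.pos (nat_lit 116752384) (nat_lit 172998656)) (I.mix (nat_lit 72155136) (nat_lit 59441152)) (I.mix (nat_lit 61702144) (nat_lit 49135616)) (I.mix (nat_lit 68222976) (nat_lit 50905088)))
  false (nat_lit 0)
def b3_10 : Bx := Bx.mk (St.mk (I.pos (nat_lit 19759104) (nat_lit 126550016)) (I.mix (nat_lit 2342912) (nat_lit 21987328)) (I.pos (nat_lit 376832) (nat_lit 23429120)) (I.pos (nat_lit 20447232) (nat_lit 97746944)) (I.mix (nat_lit 41861120) (nat_lit 39288832)) (I.mix (nat_lit 40304640) (nat_lit 24641536)) (I.mix (nat_lit 32292864) (nat_lit 18874368)))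
  false (nat_lit 0)
def b3_11 : Bx := Bx.mk (St.mk (I.pos (nat_lit 107954176) (nat_lit 148881408)) (I.mix (nat_lit 45776896) (nat_lit 2686976)) (I.mix (nat_lit 38010880) (nat_lit 7389184)) (I.pos (nat_lit 65601536) (nat_lit 124272640)) (I.mix (nat_lit 78888960) (nat_lit 47218688)) (I.mix (nat_lit 39813120) (nat_lit 71188480)) (I.mix (nat_lit 32489472) (nat_lit 58408960)))
  false (nat_lit 0)
def b3_12 : Bx := Bx.mk (St.mk (I.mix (nat_lit 19070976) (nat_lit 90849280)) (I.mix (nat_lit 26148864) (nat_lit 507904)) (I.mix (nat_lit 11698176) (nat_lit 3883008)) (I.pos (nat_lit 17940480) (nat_lit 67502080)) (I.mix (nat_lit 32227328) (nat_lit 14516224)) (I.mix (nat_lit 14925824) (nat_lit 23773184)) (I.mix (nat_lit 7897088) (nat_lit 11812864)))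
  false (nat_lit 0)
def b3_13 : Bx := Bx.mk (St.mk (I.pos (nat_lit 190087168) (nat_lit 236617728)) (I.mix (nat_lit 5996544) (nat_lit 23281664)) (I.pos (nat_lit 4751360) (nat_lit 55984128)) (I.pos (nat_lit 180912128) (nat_lit 246579200)) (I.mix (nat_lit 103399424) (nat_lit 38813696)) (I.mix (nat_lit 59867136) (nat_lit 51298304)) (I.mix (nat_lit 97288192) (nat_lit 81543168)))
  false (nat_lit 0)
def b3_14 : Bx := Bx.mk (St.mk (I.pos (nat_lit 108789760) (nat_lit 126205952)) (I.mix (nat_lit 1441792) (nat_lit 7323648)) (I.pos (nat_lit 1441792) (nat_lit 11354112)) (I.pos (nat_lit 65683456) (nat_lit 97452032)) (I.mix (nat_lit 13991936) (nat_lit 14565376)) (I.mix (nat_lit 10043392) (nat_lit 8159232)) (I.mix (nat_lit 8880128) (nat_lit 6782976)))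
  false (nat_lit 0)
def b3_15 : Bx := Bx.mk (St.mk (I.mix (nat_lit 20824064) (nat_lit 79953920)) (I.mix (nat_lit 704512) (nat_lit 4734976)) (I.mix (nat_lit 32768) (nat_lit 5193728)) (I.pos (nat_lit 18399232) (nat_lit 58851328)) (I.mix (nat_lit 5849088) (nat_lit 7880704)) (I.mix (nat_lit 5079040) (nat_lit 4292608)) (I.mix (nat_lit 2113536) (nat_lit 1376256)))
  false (nat_lit 0)
def b3_16 : Bx := Bx.mk (St.mk (I.pos (nat_lit 184401920) (nat_lit 228605952)) (I.pos (nat_lit 7176192) (nat_lit 43466752)) (I.pos (nat_lit 26804224) (nat_lit 90750976)) (I.pos (nat_lit 171835392) (nat_lit 230621184)) (I.mix (nat_lit 112705536) (nat_lit 88965120)) (I.mix (nat_lit 95797248) (nat_lit 67993600)) (I.mix (nat_lit 154173440) (nat_lit 88195072)))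
  false (nat_lit 7680780)
def b3_17 : Bx := Bx.mk (St.mk (I.pos (nat_lit 232718336) (nat_lit 262963200)) (I.mix (nat_lit 4014080) (nat_lit 24576000)) (I.pos (nat_lit 4046848) (nat_lit 61243392)) (I.pos (nat_lit 248283136) (nat_lit 312918016)) (I.mix (nat_lit 70500352) (nat_lit 53362688)) (I.mix (nat_lit 54575104) (nat_lit 44679168)) (I.mix (nat_lit 98664448) (nat_lit 78397440)))
  false (nat_lit 8308178)
def b3_18 : Bx := Bx.mk (St.mk (I.pos (nat_lit 217890816) (nat_lit 260587520)) (I.mix (nat_lit 3325952) (nat_lit 30343168)) (I.pos (nat_lit 6701056) (nat_lit 72957952)) (I.pos (nat_lit 223330304) (nat_lit 306413568)) (I.mix (nat_lit 81756160) (nat_lit 55328768)) (I.mix (nat_lit 59686912) (nat_lit 52510720)) (I.mix (nat_lit 100024320) (nat_lit 90193920)))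
  false (nat_lit 13445353)
def b3_19 : Bx := Bx.mk (St.mk (I.pos (nat_lit 204406784) (nat_lit 244334592)) (I.mix (nat_lit 7733248) (nat_lit 23461888)) (I.pos (nat_lit 2260992) (nat_lit 59326464)) (I.pos (nat_lit 203456512) (nat_lit 264945664)) (I.mix (nat_lit 88522752) (nat_lit 45268992)) (I.mix (nat_lit 55771136) (nat_lit 45662208)) (I.mix (nat_lit 93028352) (nat_lit 77643776)))
  false (nat_lit 0)
def b3_20 : Bx := Bx.mk (St.mk (I.pos (nat_lit 193576960) (nat_lit 228540416)) (I.pos (nat_lit 6979584) (nat_lit 23904256)) (I.pos (nat_lit 26066944) (nat_lit 57196544)) (I.pos (nat_lit 185008128) (nat_lit 229965824)) (I.mix (nat_lit 79478784) (nat_lit 19890176)) (I.mix (nat_lit 40353792) (nat_lit 28884992)) (I.mix (nat_lit 66224128) (nat_lit 43663360)))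
  false (nat_lit 0)
def b3_21 : Bx := Bx.mk (St.mk (I.pos (nat_lit 170344448) (nat_lit 193118208)) (I.neg (nat_lit 2162688) (nat_lit 23920640)) (I.mix (nat_lit 1343488) (nat_lit 23773184)) (I.pos (nat_lit 132349952) (nat_lit 178487296)) (I.mix (nat_lit 30900224) (nat_lit 29671424)) (I.mix (nat_lit 25411584) (nat_lit 23691264)) (I.mix (nat_lit 22872064) (nat_lit 25034752)))
  false (nat_lit 0)
def t3 : BTr := (BTr.n (BTr.n (BTr.n (BTr.n (BTr.b b3_0) (BTr.b b3_1)) (BTr.n (BTr.b b3_2) (BTr.n (BTr.b b3_3) (BTr.b b3_4)))) (BTr.n (BTr.n (BTr.b b3_5) (BTr.n (BTr.b b3_6) (BTr.b b3_7))) (BTr.n (BTr.b b3_8) (BTr.n (BTr.b b3_9) (BTr.b b3_10))))) (BTr.n (BTr.n (BTr.n (BTr.b b3_11) (BTr.b b3_12)) (BTr.n (BTr.b b3_13) (BTr.n (BTr.b b3_14) (BTr.b b3_15)))) (BTr.n (BTr.n (BTr.b b3_16) (BTr.n (BTr.b b3_17) (BTr.b b3_18))) (BTr.n (BTr.b b3_19)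 (BTr.n (BTr.b b3_20) (BTr.b b3_21))))))
namespace T3
def l0 : Tr := Tr.L (Pth.l (Pth.l (Pth.l (Pth.l Pth.z))))
def l1 : Tr := Tr.L (Pth.l (Pth.l (Pth.l (Pth.r Pth.z))))
def l2 : Tr := Tr.L (Pth.l (Pth.l (Pth.r (Pth.l Pth.z))))
def l3 : Tr := Tr.L (Pth.l (Pth.l (Pth.r (Pth.r (Pth.l Pth.z)))))
def l4 : Tr := Tr.L (Pth.l (Pth.l (Pth.r (Pth.r (Pth.r Pth.z)))))
def l5 : Tr := Tr.L (Pth.l (Pth.r (Pth.l (Pth.l Pth.z))))
def l6 : Tr := Tr.L (Pth.l (Pth.r (Pth.l (Pth.r (Pth.l Pth.z)))))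
def l7 : Tr := Tr.L (Pth.l (Pth.r (Pth.l (Pth.r (Pth.r Pth.z)))))
def l8 : Tr := Tr.L (Pth.l (Pth.r (Pth.r (Pth.l Pth.z))))
def l9 : Tr := Tr.L (Pth.l (Pth.r (Pth.r (Pth.r (Pth.l Pth.z)))))
def l10 : Tr := Tr.L (Pth.l (Pth.r (Pth.r (Pth.r (Pth.r Pth.z)))))
def l11 : Tr := Tr.L (Pth.r (Pth.l (Pth.l (Pth.l Pth.z))))
def l12 : Tr := Tr.L (Pth.r (Pth.l (Pth.l (Pth.r Pth.z))))
def l13 : Tr := Tr.L (Pth.r (Pth.l (Pth.r (Pth.l Pth.z))))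
def l14 : Tr := Tr.L (Pth.r (Pth.l (Pth.r (Pth.r (Pth.l Pth.z)))))
def l15 : Tr := Tr.L (Pth.r (Pth.l (Pth.r (Pth.r (Pth.r Pth.z)))))
def l16 : Tr := Tr.L (Pth.r (Pth.r (Pth.l (Pth.l Pth.z))))
def l17 : Tr := Tr.L (Pth.r (Pth.r (Pth.l (Pth.r (Pth.l Pth.z)))))
def l18 : Tr := Tr.L (Pth.r (Pth.r (Pth.l (Pth.r (Pth.r Pth.z)))))
def l19 : Tr := Tr.L (Pth.r (Pth.r (Pth.r (Pth.l Pth.z))))
def l20 : Tr := Tr.L (Pth.r (Pth.r (Pth.r (Pth.r (Pth.l Pth.z)))))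
def l21 : Tr := Tr.L (Pth.r (Pth.r (Pth.r (Pth.r (Pth.r Pth.z)))))
end T3
def b4_0 : Bx := Bx.mk (St.mk (I.pos (nat_lit 126566400) (nat_lit 215302144)) (I.mix (nat_lit 278528) (nat_lit 83148800)) (I.mix (nat_lit 278528) (nat_lit 119898112)) (I.pos (nat_lit 364838912) (nat_lit 451248128)) (I.mix (nat_lit 198819840) (nat_lit 92110848)) (I.mix (nat_lit 109248512) (nat_lit 94044160)) (I.mix (nat_lit 128925696) (nat_lit 128155648)))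
  false (nat_lit 120041370)
def b4_1 : Bx := Bx.mk (St.mk (I.pos (nat_lit 28164096) (nat_lit 115228672)) (I.neg (nat_lit 15892480) (nat_lit 92372992)) (I.mix (nat_lit 48709632) (nat_lit 18907136)) (I.pos (nat_lit 277020672) (nat_lit 327958528)) (I.mix (nat_lit 130891776) (nat_lit 92127232)) (I.mix (nat_lit 95748096) (nat_lit 83968000)) (I.mix (nat_lit 91930624) (nat_lit 67518464)))
  false (nat_lit 80448009)
def b4_2 : Bx := Bx.mk (St.mk (I.pos (nat_lit 96256000) (nat_lit 176111616)) (I.mix (nat_lit 29360128) (nat_lit 75399168)) (I.pos (nat_lit 8339456) (nat_lit 124059648)) (I.pos (nat_lit 306085888) (nat_lit 408158208)) (I.mix (nat_lit 218906624) (nat_lit 88326144)) (I.mix (nat_lit 164675584) (nat_lit 122011648)) (I.mix (nat_lit 174735360) (nat_lit 151928832)))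
  false (nat_lit 126313504)
def b4_3 : Bx := Bx.mk (St.mk (I.neg (nat_lit 28147712) (nat_lit 122519552)) (I.pos (nat_lit 15892480) (nat_lit 92372992)) (I.mix (nat_lit 48709632) (nat_lit 23756800)) (I.pos (nat_lit 277020672) (nat_lit 332693504)) (I.mix (nat_lit 92127232) (nat_lit 130908160)) (I.mix (nat_lit 83968000) (nat_lit 95764480)) (I.mix (nat_lit 91930624) (nat_lit 67518464)))
  true (nat_lit 6975029)
def b4_4 : Bx := Bx.mk (St.mk (I.mix (nat_lit 58097664) (nat_lit 12976128)) (I.mix (nat_lit 11026432) (nat_lit 86441984)) (I.neg (nat_lit 17645568) (nat_lit 43008000)) (I.pos (nat_lit 265977856) (nat_lit 300974080)) (I.mix (nat_lit 72286208) (nat_lit 126205952)) (I.mix (nat_lit 90030080) (nat_lit 88326144)) (I.mix (nat_lit 53297152) (nat_lit 32735232)))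
  true (nat_lit 0)
def b4_5 : Bx := Bx.mk (St.mk (I.pos (nat_lit 16924672) (nat_lit 55181312)) (I.neg (nat_lit 36831232) (nat_lit 86671360)) (I.neg (nat_lit 23789568) (nat_lit 43106304)) (I.pos (nat_lit 274415616) (nat_lit 301596672)) (I.mix (nat_lit 128057344) (nat_lit 73154560)) (I.mix (nat_lit 90292224) (nat_lit 92422144)) (I.mix (nat_lit 53755904) (nat_lit 35307520)))
  false (nat_lit 80058436)
def b4_6 : Bx := Bx.mk (St.mk (I.pos (nat_lit 194609152) (nat_lit 282525696)) (I.mix (nat_lit 10338304) (nat_lit 58212352)) (I.mix (nat_lit 68665344) (nat_lit 68288512)) (I.pos (nat_lit 435191808) (nat_lit 567820288)) (I.mix (nat_lit 77348864) (nat_lit 68796416)) (I.mix (nat_lit 61702144) (nat_lit 54689792)) (I.mix (nat_lit 99614720) (nat_lit 85213184)))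
  false (nat_lit 71302305)
def b4_7 : Bx := Bx.mk (St.mk (I.mix (nat_lit 9617408) (nat_lit 29868032)) (I.mix (nat_lit 39976960) (nat_lit 4505600)) (I.neg (nat_lit 20938752) (nat_lit 30212096)) (I.pos (nat_lit 266633216) (nat_lit 278249472)) (I.mix (nat_lit 39632896) (nat_lit 25640960)) (I.mix (nat_lit 23052288) (nat_lit 25001984)) (I.mix (nat_lit 7618560) (nat_lit 6668288)))
  false (nat_lit 0)
def b4_8 : Bx := Bx.mk (St.mk (I.pos (nat_lit 183500800) (nat_lit 225705984)) (I.pos (nat_lit 9158656) (nat_lit 52756480)) (I.mix (nat_lit 409600) (nat_lit 65257472)) (I.pos (nat_lit 417431552) (nat_lit 463749120)) (I.mix (nat_lit 98418688) (nat_lit 86736896)) (I.mix (nat_lit 67682304) (nat_lit 66437120)) (I.mix (nat_lit 95764480) (nat_lit 104054784)))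
  false (nat_lit 52469748)
def b4_9 : Bx := Bx.mk (St.mk (I.pos (nat_lit 17334272) (nat_lit 43991040)) (I.neg (nat_lit 12582912) (nat_lit 42369024)) (I.neg (nat_lit 17580032) (nat_lit 29065216)) (I.pos (nat_lit 270368768) (nat_lit 281493504)) (I.mix (nat_lit 64192512) (nat_lit 49643520)) (I.mix (nat_lit 43384832) (nat_lit 42106880)) (I.mix (nat_lit 12845056) (nat_lit 12894208)))
  false (nat_lit 0)
def b4_10 : Bx := Bx.mk (St.mk (I.pos (nat_lit 224280576) (nat_lit 274841600)) (I.mix (nat_lit 24821760) (nat_lit 29032448)) (I.mix (nat_lit 94175232) (nat_lit 9388032)) (I.pos (nat_lit 472514560) (nat_lit 552812544)) (I.mix (nat_lit 68714496) (nat_lit 49414144)) (I.mix (nat_lit 45694976) (nat_lit 47054848)) (I.mix (nat_lit 74825728) (nat_lit 81281024)))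
  false (nat_lit 31257604)
def b4_11 : Bx := Bx.mk (St.mk (I.mix (nat_lit 5455872) (nat_lit 26263552)) (I.mix (nat_lit 23871488) (nat_lit 11026432)) (I.neg (nat_lit 20316160) (nat_lit 27934720)) (I.pos (nat_lit 266846208) (nat_lit 274743296)) (I.mix (nat_lit 26804224) (nat_lit 25067520)) (I.mix (nat_lit 17694720) (nat_lit 18006016)) (I.mix (nat_lit 3981312) (nat_lit 4489216)))
  false (nat_lit 0)
def b4_12 : Bx := Bx.mk (St.mk (I.pos (nat_lit 255180800) (nat_lit 279543808)) (I.mix (nat_lit 17334272) (nat_lit 4358144)) (I.neg (nat_lit 38649856) (nat_lit 87326720)) (I.pos (nat_lit 520929280) (nat_lit 563003392)) (I.mix (nat_lit 30441472) (nat_lit 16515072)) (I.mix (nat_lit 17874944) (nat_lit 14974976)) (I.mix (nat_lit 30638080) (nat_lit 27410432)))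
  false (nat_lit 0)
def b4_13 : Bx := Bx.mk (St.mk (I.mix (nat_lit 7946240) (nat_lit 19349504)) (I.mix (nat_lit 21250048) (nat_lit 7258112)) (I.neg (nat_lit 21495808) (nat_lit 27901952)) (I.pos (nat_lit 266928128) (nat_lit 273891328)) (I.mix (nat_lit 8208384) (nat_lit 3801088)) (I.mix (nat_lit 1884160) (nat_lit 4194304)) (I.mix (nat_lit 1654784) (nat_lit 1720320)))
  false (nat_lit 0)
def b4_14 : Bx := Bx.mk (St.mk (I.pos (nat_lit 169164800) (nat_lit 216547328)) (I.pos (nat_lit 9256960) (nat_lit 48644096)) (I.pos (nat_lit 1179648) (nat_lit 64454656)) (I.pos (nat_lit 399753216) (nat_lit 447528960)) (I.mix (nat_lit 102924288) (nat_lit 52084736)) (I.mix (nat_lit 65142784) (nat_lit 50053120)) (I.mix (nat_lit 87277568) (nat_lit 74956800)))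
  false (nat_lit 35811256)
def b4_15 : Bx := Bx.mk (St.mk (I.pos (nat_lit 21970944) (nat_lit 52314112)) (I.neg (nat_lit 13942784) (nat_lit 48775168)) (I.neg (nat_lit 17743872) (nat_lit 29196288)) (I.pos (nat_lit 271253504) (nat_lit 286113792)) (I.mix (nat_lit 50855936) (nat_lit 53870592)) (I.mix (nat_lit 40960000) (nat_lit 38895616)) (I.mix (nat_lit 13762560) (nat_lit 13205504)))
  false (nat_lit 0)
def b4_16 : Bx := Bx.mk (St.mk (I.pos (nat_lit 205570048) (nat_lit 273563648)) (I.mix (nat_lit 22970368) (nat_lit 38191104)) (I.mix (nat_lit 90243072) (nat_lit 31801344)) (I.pos (nat_lit 446251008) (nat_lit 550076416)) (I.mix (nat_lit 71909376) (nat_lit 43057152)) (I.mix (nat_lit 41402368) (nat_lit 50003968)) (I.mix (nat_lit 64716800) (nat_lit 86540288)))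
  false (nat_lit 60126008)
def b4_17 : Bx := Bx.mk (St.mk (I.mix (nat_lit 4636672) (nat_lit 28852224)) (I.mix (nat_lit 27148288) (nat_lit 10092544)) (I.neg (nat_lit 20217856) (nat_lit 28114944)) (I.pos (nat_lit 266829824) (nat_lit 275677184)) (I.mix (nat_lit 24838144) (nat_lit 27082752)) (I.mix (nat_lit 19644416) (nat_lit 16629760)) (I.mix (nat_lit 4685824) (nat_lit 4653056)))
  false (nat_lit 0)
def b4_18 : Bx := Bx.mk (St.mk (I.pos (nat_lit 144654336) (nat_lit 199098368)) (I.pos (nat_lit 27295744) (nat_lit 80969728)) (I.pos (nat_lit 39124992) (nat_lit 109969408)) (I.pos (nat_lit 376078336) (nat_lit 434601984)) (I.mix (nat_lit 145195008) (nat_lit 100663296)) (I.mix (nat_lit 101433344) (nat_lit 70615040)) (I.mix (nat_lit 145473536) (nat_lit 94388224)))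
  false (nat_lit 76977318)
def b4_19 : Bx := Bx.mk (St.mk (I.pos (nat_lit 19120128) (nat_lit 58097664)) (I.neg (nat_lit 27344896) (nat_lit 73416704)) (I.neg (nat_lit 19185664) (nat_lit 40419328)) (I.pos (nat_lit 274726912) (nat_lit 293519360)) (I.mix (nat_lit 105578496) (nat_lit 72286208)) (I.mix (nat_lit 57769984) (nat_lit 86769664)) (I.mix (nat_lit 30343168) (nat_lit 24166400)))
  false (nat_lit 37899954)
def b4_20 : Bx := Bx.mk (St.mk (I.pos (nat_lit 194215936) (nat_lit 290144256)) (I.mix (nat_lit 18448384) (nat_lit 60178432)) (I.mix (nat_lit 86884352) (nat_lit 69959680)) (I.pos (nat_lit 434683904) (nat_lit 582533120)) (I.mix (nat_lit 75743232) (nat_lit 80150528)) (I.mix (nat_lit 75776000) (nat_lit 51855360)) (I.mix (nat_lit 127959040) (nat_lit 80379904)))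
  false (nat_lit 80078451)
def b4_21 : Bx := Bx.mk (St.mk (I.mix (nat_lit 12959744) (nat_lit 29933568)) (I.mix (nat_lit 39321600) (nat_lit 8486912)) (I.neg (nat_lit 21086208) (nat_lit 30490624)) (I.pos (nat_lit 266649600) (nat_lit 277839872)) (I.mix (nat_lit 43139072) (nat_lit 27607040)) (I.mix (nat_lit 19988480) (nat_lit 29245440)) (I.mix (nat_lit 7372800) (nat_lit 6340608)))
  false (nat_lit 0)
def b4_22 : Bx := Bx.mk (St.mk (I.pos (nat_lit 245219328) (nat_lit 276660224)) (I.mix (nat_lit 20348928) (nat_lit 9797632)) (I.neg (nat_lit 28835840) (nat_lit 89489408)) (I.pos (nat_lit 503316480) (nat_lit 556564480)) (I.mix (nat_lit 43122688) (nat_lit 18284544)) (I.mix (nat_lit 20234240) (nat_lit 23560192)) (I.mix (nat_lit 28426240) (nat_lit 41025536)))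
  false (nat_lit 0)
def b4_23 : Bx := Bx.mk (St.mk (I.mix (nat_lit 6406144) (nat_lit 14286848)) (I.mix (nat_lit 12697600) (nat_lit 8781824)) (I.neg (nat_lit 20840448) (nat_lit 27656192)) (I.pos (nat_lit 266878976) (nat_lit 272400384)) (I.mix (nat_lit 9781248) (nat_lit 13418496)) (I.mix (nat_lit 7733248) (nat_lit 6815744)) (I.mix (nat_lit 1998848) (nat_lit 2719744)))
  false (nat_lit 0)
def b4_24 : Bx := Bx.mk (St.mk (I.pos (nat_lit 93716480) (nat_lit 122552320)) (I.neg (nat_lit 16744448) (nat_lit 44335104)) (I.mix (nat_lit 3588096) (nat_lit 23789568)) (I.pos (nat_lit 306659328) (nat_lit 332709888)) (I.mix (nat_lit 44351488) (nat_lit 46350336)) (I.mix (nat_lit 31817728) (nat_lit 31375360)) (I.mix (nat_lit 25591808) (nat_lit 26673152)))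
  false (nat_lit 0)
def b4_25 : Bx := Bx.mk (St.mk (I.pos (nat_lit 15204352) (nat_lit 30818304)) (I.neg (nat_lit 19333120) (nat_lit 36519936)) (I.neg (nat_lit 20840448) (nat_lit 28884992)) (I.pos (nat_lit 269811712) (nat_lit 278265856)) (I.mix (nat_lit 30654464) (nat_lit 17694720)) (I.mix (nat_lit 15908864) (nat_lit 20873216)) (I.mix (nat_lit 5292032) (nat_lit 5357568)))
  false (nat_lit 0)
def b4_26 : Bx := Bx.mk (St.mk (I.pos (nat_lit 29982720) (nat_lit 49987584)) (I.neg (nat_lit 23904256) (nat_lit 46645248)) (I.neg (nat_lit 18366464) (nat_lit 29065216)) (I.pos (nat_lit 273809408) (nat_lit 285851648)) (I.mix (nat_lit 25083904) (nat_lit 32227328)) (I.mix (nat_lit 19808256) (nat_lit 20414464)) (I.mix (nat_lit 7651328) (nat_lit 9273344)))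
  false (nat_lit 0)
def t4 : BTr := (BTr.n (BTr.n (BTr.n (BTr.n (BTr.b b4_0) (BTr.n (BTr.b b4_1) (BTr.b b4_2))) (BTr.n (BTr.b b4_3) (BTr.n (BTr.b b4_4) (BTr.b b4_5)))) (BTr.n (BTr.n (BTr.b b4_6) (BTr.n (BTr.b b4_7) (BTr.b b4_8))) (BTr.n (BTr.n (BTr.b b4_9) (BTr.b b4_10)) (BTr.n (BTr.b b4_11) (BTr.b b4_12))))) (BTr.n (BTr.n (BTr.n (BTr.b b4_13) (BTr.n (BTr.b b4_14) (BTr.b b4_15))) (BTr.n (BTr.n (BTr.b b4_16) (BTr.b b4_17)) (BTr.n (BTr.b b4_18) (BTr.b b4_19)))) (BTr.n (BTr.n (BTr.b b4_20) (BTr.n (BTr.b b4_21) (BTr.b b4_22))) (BTr.n (BTr.n (BTr.b b4_23) (BTr.b b4_24)) (BTr.n (BTr.b b4_25) (BTr.b b4_26))))))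
namespace T4
def l0 : Tr := Tr.L (Pth.l (Pth.l (Pth.l (Pth.l Pth.z))))
def l1 : Tr := Tr.L (Pth.l (Pth.l (Pth.l (Pth.r (Pth.l Pth.z)))))
def l2 : Tr := Tr.L (Pth.l (Pth.l (Pth.l (Pth.r (Pth.r Pth.z)))))
def l3 : Tr := Tr.L (Pth.l (Pth.l (Pth.r (Pth.l Pth.z))))
def l4 : Tr := Tr.L (Pth.l (Pth.l (Pth.r (Pth.r (Pth.l Pth.z)))))
def l5 : Tr := Tr.L (Pth.l (Pth.l (Pth.r (Pth.r (Pth.r Pth.z)))))
def l6 : Tr := Tr.L (Pth.l (Pth.r (Pth.l (Pth.l Pth.z))))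
def l7 : Tr := Tr.L (Pth.l (Pth.r (Pth.l (Pth.r (Pth.l Pth.z)))))
def l8 : Tr := Tr.L (Pth.l (Pth.r (Pth.l (Pth.r (Pth.r Pth.z)))))
def l9 : Tr := Tr.L (Pth.l (Pth.r (Pth.r (Pth.l (Pth.l Pth.z)))))
def l10 : Tr := Tr.L (Pth.l (Pth.r (Pth.r (Pth.l (Pth.r Pth.z)))))
def l11 : Tr := Tr.L (Pth.l (Pth.r (Pth.r (Pth.r (Pth.l Pth.z)))))
def l12 : Tr := Tr.L (Pth.l (Pth.r (Pth.r (Pth.r (Pth.r Pth.z)))))
def l13 : Tr := Tr.L (Pth.r (Pth.l (Pth.l (Pth.l Pth.z))))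
def l14 : Tr := Tr.L (Pth.r (Pth.l (Pth.l (Pth.r (Pth.l Pth.z)))))
def l15 : Tr := Tr.L (Pth.r (Pth.l (Pth.l (Pth.r (Pth.r Pth.z)))))
def l16 : Tr := Tr.L (Pth.r (Pth.l (Pth.r (Pth.l (Pth.l Pth.z)))))
def l17 : Tr := Tr.L (Pth.r (Pth.l (Pth.r (Pth.l (Pth.r Pth.z)))))
def l18 : Tr := Tr.L (Pth.r (Pth.l (Pth.r (Pth.r (Pth.l Pth.z)))))
def l19 : Tr := Tr.L (Pth.r (Pth.l (Pth.r (Pth.r (Pth.r Pth.z)))))
def l20 : Tr := Tr.L (Pth.r (Pth.r (Pth.l (Pth.l Pth.z))))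
def l21 : Tr := Tr.L (Pth.r (Pth.r (Pth.l (Pth.r (Pth.l Pth.z)))))
def l22 : Tr := Tr.L (Pth.r (Pth.r (Pth.l (Pth.r (Pth.r Pth.z)))))
def l23 : Tr := Tr.L (Pth.r (Pth.r (Pth.r (Pth.l (Pth.l Pth.z)))))
def l24 : Tr := Tr.L (Pth.r (Pth.r (Pth.r (Pth.l (Pth.r Pth.z)))))
def l25 : Tr := Tr.L (Pth.r (Pth.r (Pth.r (Pth.r (Pth.l Pth.z)))))
def l26 : Tr := Tr.L (Pth.r (Pth.r (Pth.r (Pth.r (Pth.r Pth.z)))))
end T4
def b5_0 : Bx := Bx.mk (St.mk (I.pos (nat_lit 144277504) (nat_lit 215302144)) (I.mix (nat_lit 278528) (nat_lit 58032128)) (I.mix (nat_lit 278528) (nat_lit 117227520)) (I.pos (nat_lit 231424000) (nat_lit 321126400)) (I.mix (nat_lit 140132352) (nat_lit 63651840)) (I.mix (nat_lit 92913664) (nat_lit 70893568)) (I.mix (nat_lit 107364352) (nat_lit 74956800)))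
  false (nat_lit 32573752)
def b5_1 : Bx := Bx.mk (St.mk (I.pos (nat_lit 78512128) (nat_lit 142393344)) (I.neg (nat_lit 7389184) (nat_lit 70778880)) (I.mix (nat_lit 31703040) (nat_lit 34832384)) (I.pos (nat_lit 176652288) (nat_lit 220069888)) (I.mix (nat_lit 87883776) (nat_lit 95567872)) (I.mix (nat_lit 68927488) (nat_lit 76660736)) (I.mix (nat_lit 54181888) (nat_lit 71991296)))
  false (nat_lit 74876579)
def b5_2 : Bx := Bx.mk (St.mk (I.mix (nat_lit 26263552) (nat_lit 4308992)) (I.mix (nat_lit 38715392) (nat_lit 8257536)) (I.pos (nat_lit 18104320) (nat_lit 26853376)) (I.pos (nat_lit 139788288) (nat_lit 150503424)) (I.mix (nat_lit 44859392) (nat_lit 72613888)) (I.mix (nat_lit 36225024) (nat_lit 53755904)) (I.mix (nat_lit 8880128) (nat_lit 12550144)))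
  true (nat_lit 0)
def b5_3 : Bx := Bx.mk (St.mk (I.pos (nat_lit 129024000) (nat_lit 179945472)) (I.mix (nat_lit 2998272) (nat_lit 53264384)) (I.pos (nat_lit 45088768) (nat_lit 114098176)) (I.pos (nat_lit 202620928) (nat_lit 266321920)) (I.mix (nat_lit 179404800) (nat_lit 54870016)) (I.mix (nat_lit 153075712) (nat_lit 70565888)) (I.mix (nat_lit 151748608) (nat_lit 68190208)))
  false (nat_lit 75482542)
def b5_4 : Bx := Bx.mk (St.mk (I.mix (nat_lit 4308992) (nat_lit 26263552)) (I.mix (nat_lit 8241152) (nat_lit 38715392)) (I.pos (nat_lit 18137088) (nat_lit 26853376)) (I.pos (nat_lit 139788288) (nat_lit 150503424)) (I.mix (nat_lit 72613888) (nat_lit 44859392)) (I.mix (nat_lit 53755904) (nat_lit 36225024)) (I.mix (nat_lit 8880128) (nat_lit 12550144)))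
  false (nat_lit 0)
def b5_5 : Bx := Bx.mk (St.mk (I.pos (nat_lit 114704384) (nat_lit 145342464)) (I.neg (nat_lit 5570560) (nat_lit 34783232)) (I.pos (nat_lit 7421952) (nat_lit 37781504)) (I.pos (nat_lit 192839680) (nat_lit 222167040)) (I.mix (nat_lit 73744384) (nat_lit 63373312)) (I.mix (nat_lit 43204608) (nat_lit 60243968)) (I.mix (nat_lit 43941888) (nat_lit 50036736)))
  false (nat_lit 0)
def b5_6 : Bx := Bx.mk (St.mk (I.mix (nat_lit 15007744) (nat_lit 2113536)) (I.mix (nat_lit 7454720) (nat_lit 9551872)) (I.pos (nat_lit 18202624) (nat_lit 22577152)) (I.pos (nat_lit 139984896) (nat_lit 144441344)) (I.mix (nat_lit 37961728) (nat_lit 30965760)) (I.mix (nat_lit 22052864) (nat_lit 28590080)) (I.mix (nat_lit 4079616) (nat_lit 2375680)))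
  true (nat_lit 0)
def b5_7 : Bx := Bx.mk (St.mk (I.pos (nat_lit 133808128) (nat_lit 165478400)) (I.neg (nat_lit 13123584) (nat_lit 39321600)) (I.pos (nat_lit 3866624) (nat_lit 32079872)) (I.pos (nat_lit 211566592) (nat_lit 244531200)) (I.mix (nat_lit 64061440) (nat_lit 70647808)) (I.mix (nat_lit 64339968) (nat_lit 49496064)) (I.mix (nat_lit 59326464) (nat_lit 46514176)))
  false (nat_lit 11854914)
def b5_8 : Bx := Bx.mk (St.mk (I.pos (nat_lit 137379840) (nat_lit 181665792)) (I.mix (nat_lit 39895040) (nat_lit 3604480)) (I.pos (nat_lit 4898816) (nat_lit 55279616)) (I.pos (nat_lit 214466560) (nat_lit 261734400)) (I.mix (nat_lit 79577088) (nat_lit 92798976)) (I.mix (nat_lit 83542016) (nat_lit 71041024)) (I.mix (nat_lit 75792384) (nat_lit 68485120)))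
  false (nat_lit 56948318)
def b5_9 : Bx := Bx.mk (St.mk (I.pos (nat_lit 128024576) (nat_lit 182714368)) (I.mix (nat_lit 20398080) (nat_lit 31555584)) (I.pos (nat_lit 28246016) (nat_lit 89014272)) (I.pos (nat_lit 201916416) (nat_lit 264536064)) (I.mix (nat_lit 168837120) (nat_lit 102006784)) (I.mix (nat_lit 147537920) (nat_lit 93339648)) (I.mix (nat_lit 143278080) (nat_lit 88883200)))
  false (nat_lit 57902920)
def b5_10 : Bx := Bx.mk (St.mk (I.pos (nat_lit 9306112) (nat_lit 70713344)) (I.mix (nat_lit 9240576) (nat_lit 43057152)) (I.pos (nat_lit 1720320) (nat_lit 28164096)) (I.pos (nat_lit 140525568) (nat_lit 163692544)) (I.mix (nat_lit 64733184) (nat_lit 54902784)) (I.mix (nat_lit 54181888) (nat_lit 39239680)) (I.mix (nat_lit 29229056) (nat_lit 24494080)))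
  false (nat_lit 0)
def b5_11 : Bx := Bx.mk (St.mk (I.pos (nat_lit 54738944) (nat_lit 105922560)) (I.mix (nat_lit 59342848) (nat_lit 9814016)) (I.mix (nat_lit 25067520) (nat_lit 13680640)) (I.pos (nat_lit 153141248) (nat_lit 192135168)) (I.mix (nat_lit 83263488) (nat_lit 62472192)) (I.mix (nat_lit 48939008) (nat_lit 71696384)) (I.mix (nat_lit 34832384) (nat_lit 39157760)))
  false (nat_lit 10781278)
def b5_12 : Bx := Bx.mk (St.mk (I.neg (nat_lit 9306112) (nat_lit 70713344)) (I.mix (nat_lit 43057152) (nat_lit 9240576)) (I.pos (nat_lit 1720320) (nat_lit 28164096)) (I.pos (nat_lit 140525568) (nat_lit 163692544)) (I.mix (nat_lit 54902784) (nat_lit 64733184)) (I.mix (nat_lit 39239680) (nat_lit 54181888)) (I.mix (nat_lit 29229056) (nat_lit 24494080)))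
  true (nat_lit 0)
def b5_13 : Bx := Bx.mk (St.mk (I.pos (nat_lit 182992896) (nat_lit 225968128)) (I.pos (nat_lit 1949696) (nat_lit 31735808)) (I.pos (nat_lit 28950528) (nat_lit 79200256)) (I.pos (nat_lit 281067520) (nat_lit 327794688)) (I.mix (nat_lit 112689152) (nat_lit 57114624)) (I.mix (nat_lit 71204864) (nat_lit 54116352)) (I.mix (nat_lit 102187008) (nat_lit 78479360)))
  false (nat_lit 21167557)
def b5_14 : Bx := Bx.mk (St.mk (I.pos (nat_lit 207863808) (nat_lit 270385152)) (I.mix (nat_lit 18546688) (nat_lit 29376512)) (I.mix (nat_lit 14024704) (nat_lit 75382784)) (I.pos (nat_lit 316768256) (nat_lit 416366592)) (I.mix (nat_lit 69189632) (nat_lit 40370176)) (I.mix (nat_lit 41058304) (nat_lit 47087616)) (I.mix (nat_lit 68730880) (nat_lit 75939840)))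
  false (nat_lit 8812527)
def b5_15 : Bx := Bx.mk (St.mk (I.pos (nat_lit 160088064) (nat_lit 211337216)) (I.pos (nat_lit 11304960) (nat_lit 57278464)) (I.pos (nat_lit 46317568) (nat_lit 116768768)) (I.pos (nat_lit 253165568) (nat_lit 305119232)) (I.mix (nat_lit 130203648) (nat_lit 87425024)) (I.mix (nat_lit 98811904) (nat_lit 66011136)) (I.mix (nat_lit 146571264) (nat_lit 75300864)))
  false (nat_lit 36888788)
def b5_16 : Bx := Bx.mk (St.mk (I.pos (nat_lit 198868992) (nat_lit 284835840)) (I.mix (nat_lit 15007744) (nat_lit 44040192)) (I.mix (nat_lit 10960896) (nat_lit 99876864)) (I.pos (nat_lit 304070656) (nat_lit 446988288)) (I.mix (nat_lit 78643200) (nat_lit 76218368)) (I.mix (nat_lit 75677696) (nat_lit 52314112)) (I.mix (nat_lit 127860736) (nat_lit 83869696)))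
  false (nat_lit 62026667)
def b5_17 : Bx := Bx.mk (St.mk (I.pos (nat_lit 249167872) (nat_lit 278577152)) (I.mix (nat_lit 20070400) (nat_lit 8077312)) (I.mix (nat_lit 19808256) (nat_lit 34144256)) (I.pos (nat_lit 387039232) (nat_lit 433192960)) (I.mix (nat_lit 45776896) (nat_lit 35110912)) (I.mix (nat_lit 34684928) (nat_lit 29818880)) (I.mix (nat_lit 59932672) (nat_lit 47005696)))
  false (nat_lit 0)
def b5_18 : Bx := Bx.mk (St.mk (I.pos (nat_lit 197574656) (nat_lit 265240576)) (I.pos (nat_lit 4603904) (nat_lit 41779200)) (I.pos (nat_lit 25149440) (nat_lit 96534528)) (I.pos (nat_lit 301137920) (nat_lit 407109632)) (I.mix (nat_lit 72499200) (nat_lit 28082176)) (I.mix (nat_lit 41795584) (nat_lit 27017216)) (I.mix (nat_lit 62636032) (nat_lit 40747008)))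
  false (nat_lit 10356620)
def b5_19 : Bx := Bx.mk (St.mk (I.pos (nat_lit 184664064) (nat_lit 226803712)) (I.pos (nat_lit 3555328) (nat_lit 35438592)) (I.pos (nat_lit 31555584) (nat_lit 87621632)) (I.pos (nat_lit 282591232) (nat_lit 329547776)) (I.mix (nat_lit 86753280) (nat_lit 55902208)) (I.mix (nat_lit 57458688) (nat_lit 48070656)) (I.mix (nat_lit 81559552) (nat_lit 73187328)))
  false (nat_lit 2055583)
def b5_20 : Bx := Bx.mk (St.mk (I.pos (nat_lit 222134272) (nat_lit 274464768)) (I.mix (nat_lit 23707648) (nat_lit 23035904)) (I.mix (nat_lit 24379392) (nat_lit 63619072)) (I.pos (nat_lit 339247104) (nat_lit 424787968)) (I.mix (nat_lit 53444608) (nat_lit 31522816)) (I.mix (nat_lit 33505280) (nat_lit 29196288)) (I.mix (nat_lit 55885824) (nat_lit 45563904)))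
  false (nat_lit 0)
def b5_21 : Bx := Bx.mk (St.mk (I.pos (nat_lit 181092352) (nat_lit 215875584)) (I.pos (nat_lit 15056896) (nat_lit 35487744)) (I.pos (nat_lit 53018624) (nat_lit 85606400)) (I.pos (nat_lit 278986752) (nat_lit 309870592)) (I.mix (nat_lit 79609856) (nat_lit 31752192)) (I.mix (nat_lit 46383104) (nat_lit 28393472)) (I.mix (nat_lit 65519616) (nat_lit 38240256)))
  false (nat_lit 0)
def t5 : BTr := (BTr.n (BTr.n (BTr.n (BTr.n (BTr.b b5_0) (BTr.b b5_1)) (BTr.n (BTr.b b5_2) (BTr.n (BTr.b b5_3) (BTr.b b5_4)))) (BTr.n (BTr.n (BTr.b b5_5) (BTr.n (BTr.b b5_6) (BTr.b b5_7))) (BTr.n (BTr.b b5_8) (BTr.n (BTr.b b5_9) (BTr.b b5_10))))) (BTr.n (BTr.n (BTr.n (BTr.b b5_11) (BTr.b b5_12)) (BTr.n (BTr.b b5_13) (BTr.n (BTr.b b5_14) (BTr.b b5_15)))) (BTr.n (BTr.n (BTr.b b5_16) (BTr.n (BTr.b b5_17) (BTr.b b5_18))) (BTr.n (BTr.b b5_19)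 (BTr.n (BTr.b b5_20) (BTr.b b5_21))))))
namespace T5
def l0 : Tr := Tr.L (Pth.l (Pth.l (Pth.l (Pth.l Pth.z))))
def l1 : Tr := Tr.L (Pth.l (Pth.l (Pth.l (Pth.r Pth.z))))
def l2 : Tr := Tr.L (Pth.l (Pth.l (Pth.r (Pth.l Pth.z))))
def l3 : Tr := Tr.L (Pth.l (Pth.l (Pth.r (Pth.r (Pth.l Pth.z)))))
def l4 : Tr := Tr.L (Pth.l (Pth.l (Pth.r (Pth.r (Pth.r Pth.z)))))
def l5 : Tr := Tr.L (Pth.l (Pth.r (Pth.l (Pth.l Pth.z))))
def l6 : Tr := Tr.L (Pth.l (Pth.r (Pth.l (Pth.r (Pth.l Pth.z)))))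
def l7 : Tr := Tr.L (Pth.l (Pth.r (Pth.l (Pth.r (Pth.r Pth.z)))))
def l8 : Tr := Tr.L (Pth.l (Pth.r (Pth.r (Pth.l Pth.z))))
def l9 : Tr := Tr.L (Pth.l (Pth.r (Pth.r (Pth.r (Pth.l Pth.z)))))
def l10 : Tr := Tr.L (Pth.l (Pth.r (Pth.r (Pth.r (Pth.r Pth.z)))))
def l11 : Tr := Tr.L (Pth.r (Pth.l (Pth.l (Pth.l Pth.z))))
def l12 : Tr := Tr.L (Pth.r (Pth.l (Pth.l (Pth.r Pth.z))))
def l13 : Tr := Tr.L (Pth.r (Pth.l (Pth.r (Pth.l Pth.z))))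
def l14 : Tr := Tr.L (Pth.r (Pth.l (Pth.r (Pth.r (Pth.l Pth.z)))))
def l15 : Tr := Tr.L (Pth.r (Pth.l (Pth.r (Pth.r (Pth.r Pth.z)))))
def l16 : Tr := Tr.L (Pth.r (Pth.r (Pth.l (Pth.l Pth.z))))
def l17 : Tr := Tr.L (Pth.r (Pth.r (Pth.l (Pth.r (Pth.l Pth.z)))))
def l18 : Tr := Tr.L (Pth.r (Pth.r (Pth.l (Pth.r (Pth.r Pth.z)))))
def l19 : Tr := Tr.L (Pth.r (Pth.r (Pth.r (Pth.l Pth.z))))
def l20 : Tr := Tr.L (Pth.r (Pth.r (Pth.r (Pth.r (Pth.l Pth.z)))))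
def l21 : Tr := Tr.L (Pth.r (Pth.r (Pth.r (Pth.r (Pth.r Pth.z)))))
end T5
theorem bx0_0 : BoxOK sI cl4 cl5 cl9 t2 t4 b0_0 :=
  box_mk (TrL.c (I.pos (nat_lit 0) (nat_lit 0)) (xb (xa (xb T2.l0 T2.l0) (xb T2.l0 T2.l0)) (xa (xb (xa (xb T2.l0 T2.l0) T2.l0) (xa (xb (xa T2.l0 T2.l0) (xs T2.l0 (xa T2.l0 T2.l0))) (xb T2.l0 (xs T2.l0 (xa T2.l0 T2.l0))))) (xb (xa T2.l0 T2.l0) (xa (xb T2.l0 (xs T2.l0 (xa T2.l0 T2.l0))) (xb (xs T2.l0 T2.l0) (xs (xa T2.l0 T2.l0) (xa T2.l0 T2.l0)))))))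
  (TrL.c (I.pos (nat_lit 0) (nat_lit 0)) (xb T4.l1 (xa (xb T4.l1 T4.l1) (xb T4.l1 T4.l1)))
  (TrL.c (I.pos (nat_lit 0) (nat_lit 0)) (xb T2.l1 T2.l1)
  (TrL.c (I.pos (nat_lit 0) (nat_lit 0)) (xb T4.l2 (xa T4.l2 T4.l2))
  (TrL.c (I.pos (nat_lit 0) (nat_lit 0)) (xb (xa T2.l2 T2.l2) (xa T2.l2 T2.l2))
  (TrL.c (I.pos (nat_lit 0) (nat_lit 0)) (xb T4.l3 (xa (xb T4.l3 T4.l3) (xb T4.l3 T4.l3)))
  TrL.n)))))) (by decide +kernel)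
theorem bx0_1 : BoxOK sI cl4 cl5 cl9 t2 t4 b0_1 :=
  box_mk (TrL.c (I.pos (nat_lit 0) (nat_lit 0)) (xb (xa T2.l6 T2.l6) (xa (xb T2.l6 T2.l6) (xb T2.l6 T2.l6)))
  (TrL.c (I.pos (nat_lit 0) (nat_lit 0)) T4.l1
  (TrL.c (I.pos (nat_lit 0) (nat_lit 0)) T2.l1
  (TrL.c (I.pos (nat_lit 0) (nat_lit 0)) T4.l2
  (TrL.c (I.pos (nat_lit 0) (nat_lit 0)) T2.l7
  (TrL.c (I.pos (nat_lit 0) (nat_lit 0)) T4.l3
  TrL.n)))))) (by decide +kernel)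
theorem bx0_2 : BoxOK sI cl4 cl5 cl9 t2 t4 b0_2 :=
  box_mk (TrL.c (I.pos (nat_lit 0) (nat_lit 0)) (xb (xa (xb T2.l8 T2.l8) (xb T2.l8 T2.l8)) (xa (xb T2.l8 T2.l8) (xb T2.l8 T2.l8)))
  (TrL.c (I.pos (nat_lit 0) (nat_lit 0)) T4.l1
  (TrL.c (I.pos (nat_lit 0) (nat_lit 0)) T2.l1
  (TrL.c (I.pos (nat_lit 0) (nat_lit 0)) (xb T4.l2 T4.l2)
  (TrL.c (I.pos (nat_lit 0) (nat_lit 0)) T2.l9
  (TrL.c (I.pos (nat_lit 0) (nat_lit 0)) T4.l3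
  TrL.n)))))) (by decide +kernel)
theorem bx0_3 : BoxOK sI cl4 cl5 cl9 t2 t4 b0_3 :=
  box_mk (TrL.c (I.pos (nat_lit 0) (nat_lit 0)) T4.l1
  (TrL.c (I.pos (nat_lit 0) (nat_lit 0)) T2.l1
  TrL.n)) (by decide +kernel)
theorem bx0_4 : BoxOK sI cl4 cl5 cl9 t2 t4 b0_4 :=
  box_mk (TrL.c (I.pos (nat_lit 0) (nat_lit 0)) (xb T2.l12 T2.l6)
  (TrL.c (I.pos (nat_lit 0) (nat_lit 0)) T4.l1
  (TrL.c (I.pos (nat_lit 0) (nat_lit 0)) T2.l1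
  (TrL.c (I.pos (nat_lit 0) (nat_lit 0)) T4.l2
  (TrL.c (I.pos (nat_lit 0) (nat_lit 0)) T2.l7
  (TrL.c (I.pos (nat_lit 0) (nat_lit 0)) T4.l3
  TrL.n)))))) (by decide +kernel)
theorem bx0_5 : BoxOK sI cl4 cl5 cl9 t2 t4 b0_5 :=
  box_mk (TrL.c (I.pos (nat_lit 0) (nat_lit 0)) (xa T2.l0 T2.l4)
  (TrL.c (I.pos (nat_lit 0) (nat_lit 0)) (xa T4.l1 T4.l1)
  (TrL.c (I.pos (nat_lit 0) (nat_lit 0)) T2.l5
  (TrL.c (I.pos (nat_lit 0) (nat_lit 0)) (xa T4.l2 (xb (xa T4.l2 T4.l2) T4.l2))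
  (TrL.c (I.pos (nat_lit 0) (nat_lit 0)) T2.l3
  (TrL.c (I.pos (nat_lit 0) (nat_lit 0)) (xa T4.l3 T4.l3)
  TrL.n)))))) (by decide +kernel)
theorem bx0_6 : BoxOK sI cl4 cl5 cl9 t2 t4 b0_6 :=
  box_mk (TrL.c (I.pos (nat_lit 0) (nat_lit 0)) (xa (xb (xa T2.l0 T2.l0) (xa (xb T2.l0 T2.l0) T2.l0)) (xb T2.l4 (xa T2.l0 T2.l4)))
  (TrL.c (I.pos (nat_lit 0) (nat_lit 0)) (xa T4.l1 (xb T4.l1 T4.l1))
  (TrL.c (I.pos (nat_lit 0) (nat_lit 0)) (xa T2.l1 T2.l1)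
  (TrL.c (I.pos (nat_lit 0) (nat_lit 0)) (xa (xb T4.l2 T4.l2) (xb T4.l2 (xa T4.l2 T4.l2)))
  (TrL.c (I.pos (nat_lit 0) (nat_lit 0)) (xa T2.l2 T2.l2)
  (TrL.c (I.pos (nat_lit 0) (nat_lit 0)) (xa T4.l3 (xb T4.l3 T4.l3))
  TrL.n)))))) (by decide +kernel)
theorem bx0_7 : BoxOK sI cl4 cl5 cl9 t2 t4 b0_7 :=
  box_mk (TrL.c (I.pos (nat_lit 0) (nat_lit 0)) (xa (xb (xa (xb (xa T2.l0 T2.l0) (xa T2.l0 T2.l0)) (xb T2.l0 (xa T2.l0 T2.l0))) (xa (xb (xb (xa T2.l0 T2.l0) (xa T2.l0 T2.l0)) (xs (xa (xb T2.l0 T2.l0) T2.l0) (xb (xa T2.l0 T2.l0) (xa T2.l0 T2.l0)))) (xb (xa T2.l0 T2.l0) (xs T2.l0 (xb T2.l0 T2.l0))))) (xb (xa (xb T2.l0 T2.l0) (xb T2.l0 (xa T2.l0 T2.l0))) (xa (xb (xs T2.l0 T2.l0) (xs T2.l0 (xa T2.l0 T2.l0))) (xb (xs T2.l0 (xa T2.l0 T2.l0)) (xs (xa T2.l0 T2.l0) (xa (xb T2.l0 T2.l0) (xb T2.l0 T2.l0)))))))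
  (TrL.c (I.pos (nat_lit 0) (nat_lit 0)) (xa (xb T4.l1 (xa T4.l1 T4.l1)) (xb T4.l1 (xa T4.l1 T4.l1)))
  (TrL.c (I.pos (nat_lit 0) (nat_lit 0)) (xa (xb T2.l1 T2.l1) (xb T2.l1 (xs T2.l1 T2.l1)))
  (TrL.c (I.pos (nat_lit 0) (nat_lit 0)) (xa (xb (xa T4.l2 T4.l2) T4.l2) (xb (xa T4.l2 (xb T4.l2 T4.l2)) (xa T4.l2 (xb T4.l2 T4.l2))))
  (TrL.c (I.pos (nat_lit 0) (nat_lit 0)) (xa (xb T2.l2 T2.l2) (xb T2.l2 (xs T2.l2 T2.l2)))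
  (TrL.c (I.pos (nat_lit 0) (nat_lit 0)) (xa (xb T4.l3 (xa T4.l3 T4.l3)) (xb T4.l3 (xa T4.l3 T4.l3)))
  TrL.n)))))) (by decide +kernel)
theorem bx0_8 : BoxOK sI cl4 cl5 cl9 t2 t4 b0_8 :=
  box_mk (TrL.c (I.pos (nat_lit 0) (nat_lit 0)) (xa (xb (xa (xb T2.l8 T2.l8) (xb T2.l10 T2.l10)) (xa T2.l8 T2.l10)) (xb (xa (xb T2.l10 T2.l10) (xb T2.l10 T2.l10)) (xa T2.l10 T2.l10)))
  (TrL.c (I.pos (nat_lit 0) (nat_lit 0)) (xa T4.l1 T4.l1)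
  (TrL.c (I.pos (nat_lit 0) (nat_lit 0)) T2.l1
  (TrL.c (I.pos (nat_lit 0) (nat_lit 0)) T4.l2
  (TrL.c (I.pos (nat_lit 0) (nat_lit 0)) (xa T2.l11 T2.l11)
  (TrL.c (I.pos (nat_lit 0) (nat_lit 0)) (xa T4.l3 T4.l3)
  TrL.n)))))) (by decide +kernel)
theorem bx0_9 : BoxOK sI cl4 cl5 cl9 t2 t4 b0_9 :=
  box_mk (TrL.c (I.pos (nat_lit 0) (nat_lit 0)) T4.l24
  (TrL.c (I.pos (nat_lit 0) (nat_lit 0)) T2.l13
  TrL.n)) (by decide +kernel)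
theorem bx0_10 : BoxOK sI cl4 cl5 cl9 t2 t4 b0_10 :=
  box_mk (TrL.c (I.pos (nat_lit 0) (nat_lit 0)) (xb (xa (xb T2.l14 T2.l14) (xb T2.l0 (xa T2.l14 T2.l14))) (xa (xb (xa T2.l14 T2.l14) (xa (xb T2.l14 T2.l14) T2.l14)) (xb (xa T2.l14 T2.l14) (xa T2.l14 (xs T2.l14 T2.l14)))))
  (TrL.c (I.pos (nat_lit 0) (nat_lit 0)) (xb T4.l1 T4.l1)
  (TrL.c (I.pos (nat_lit 0) (nat_lit 0)) T2.l1
  (TrL.c (I.pos (nat_lit 0) (nat_lit 0)) T4.l2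
  (TrL.c (I.pos (nat_lit 0) (nat_lit 0)) (xb T2.l15 T2.l15)
  (TrL.c (I.pos (nat_lit 0) (nat_lit 0)) (xb T4.l3 T4.l3)
  TrL.n)))))) (by decide +kernel)
theorem bx0_11 : BoxOK sI cl4 cl5 cl9 t2 t4 b0_11 :=
  box_mk (TrL.c (I.pos (nat_lit 0) (nat_lit 0)) (xb (xa T2.l16 T2.l16) (xa T2.l16 T2.l16))
  (TrL.c (I.pos (nat_lit 0) (nat_lit 0)) T4.l24
  (TrL.c (I.pos (nat_lit 0) (nat_lit 0)) T2.l13
  (TrL.c (I.pos (nat_lit 0) (nat_lit 0)) T4.l2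
  (TrL.c (I.pos (nat_lit 0) (nat_lit 0)) T2.l17
  (TrL.c (I.pos (nat_lit 0) (nat_lit 0)) T4.l3
  TrL.n)))))) (by decide +kernel)
theorem bx0_12 : BoxOK sI cl4 cl5 cl9 t2 t4 b0_12 :=
  box_mk (TrL.c (I.pos (nat_lit 0) (nat_lit 0)) (xb (xa T2.l14 T2.l14) T2.l14)
  (TrL.c (I.pos (nat_lit 0) (nat_lit 0)) T4.l1
  (TrL.c (I.pos (nat_lit 0) (nat_lit 0)) T2.l1
  (TrL.c (I.pos (nat_lit 0) (nat_lit 0)) T4.l2
  (TrL.c (I.pos (nat_lit 0) (nat_lit 0)) T2.l3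
  (TrL.c (I.pos (nat_lit 0) (nat_lit 0)) T4.l3
  TrL.n)))))) (by decide +kernel)
theorem bx0_13 : BoxOK sI cl4 cl5 cl9 t2 t4 b0_13 :=
  box_mk (TrL.c (I.pos (nat_lit 0) (nat_lit 0)) (xa (xb T2.l10 T2.l14) T2.l14)
  (TrL.c (I.pos (nat_lit 0) (nat_lit 0)) T4.l1
  (TrL.c (I.pos (nat_lit 0) (nat_lit 0)) T2.l1
  (TrL.c (I.pos (nat_lit 0) (nat_lit 0)) T4.l2
  (TrL.c (I.pos (nat_lit 0) (nat_lit 0)) T2.l15
  (TrL.c (I.pos (nat_lit 0) (nat_lit 0)) T4.l3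
  TrL.n)))))) (by decide +kernel)
theorem bx0_14 : BoxOK sI cl4 cl5 cl9 t2 t4 b0_14 :=
  box_mk (TrL.c (I.pos (nat_lit 0) (nat_lit 0)) (xa (xb (xa T2.l14 T2.l14) (xa T2.l14 (xb T2.l14 T2.l14))) (xb T2.l0 T2.l0))
  (TrL.c (I.pos (nat_lit 0) (nat_lit 0)) T4.l1
  (TrL.c (I.pos (nat_lit 0) (nat_lit 0)) (xa T2.l1 T2.l1)
  (TrL.c (I.pos (nat_lit 0) (nat_lit 0)) (xa T4.l2 (xb T4.l2 T4.l2))
  (TrL.c (I.pos (nat_lit 0) (nat_lit 0)) (xa T2.l3 T2.l2)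
  (TrL.c (I.pos (nat_lit 0) (nat_lit 0)) T4.l3
  TrL.n)))))) (by decide +kernel)
theorem bx0_15 : BoxOK sI cl4 cl5 cl9 t2 t4 b0_15 :=
  box_mk (TrL.c (I.pos (nat_lit 0) (nat_lit 0)) (xa (xb T2.l10 T2.l14) T2.l14)
  (TrL.c (I.pos (nat_lit 0) (nat_lit 0)) T4.l1
  (TrL.c (I.pos (nat_lit 0) (nat_lit 0)) T2.l1
  (TrL.c (I.pos (nat_lit 0) (nat_lit 0)) T4.l2
  (TrL.c (I.pos (nat_lit 0) (nat_lit 0)) T2.l15
  (TrL.c (I.pos (nat_lit 0) (nat_lit 0)) T4.l3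
  TrL.n)))))) (by decide +kernel)
theorem bx0_16 : BoxOK sI cl4 cl5 cl9 t2 t4 b0_16 :=
  box_mk (TrL.c (I.pos (nat_lit 0) (nat_lit 0)) (xa T2.l10 T2.l14)
  (TrL.c (I.pos (nat_lit 0) (nat_lit 0)) T4.l1
  (TrL.c (I.pos (nat_lit 0) (nat_lit 0)) T2.l1
  (TrL.c (I.pos (nat_lit 0) (nat_lit 0)) T4.l2
  (TrL.c (I.pos (nat_lit 0) (nat_lit 0)) T2.l15
  (TrL.c (I.pos (nat_lit 0) (nat_lit 0)) T4.l3
  TrL.n)))))) (by decide +kernel)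
theorem bx0_17 : BoxOK sI cl4 cl5 cl9 t2 t4 b0_17 :=
  box_mk (TrL.c (I.pos (nat_lit 0) (nat_lit 0)) (xa T2.l14 T2.l14)
  (TrL.c (I.pos (nat_lit 0) (nat_lit 0)) T4.l1
  (TrL.c (I.pos (nat_lit 0) (nat_lit 0)) T2.l1
  (TrL.c (I.pos (nat_lit 0) (nat_lit 0)) T4.l2
  (TrL.c (I.pos (nat_lit 0) (nat_lit 0)) T2.l15
  (TrL.c (I.pos (nat_lit 0) (nat_lit 0)) T4.l3
  TrL.n)))))) (by decide +kernel)
theorem bx0_18 : BoxOK sI cl4 cl5 cl9 t2 t4 b0_18 :=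
  box_mk (TrL.c (I.pos (nat_lit 0) (nat_lit 0)) (xb T2.l14 T2.l14)
  (TrL.c (I.pos (nat_lit 0) (nat_lit 0)) T4.l1
  (TrL.c (I.pos (nat_lit 0) (nat_lit 0)) T2.l1
  (TrL.c (I.pos (nat_lit 0) (nat_lit 0)) T4.l2
  (TrL.c (I.pos (nat_lit 0) (nat_lit 0)) T2.l15
  (TrL.c (I.pos (nat_lit 0) (nat_lit 0)) T4.l3
  TrL.n)))))) (by decide +kernel)
theorem bx0_19 : BoxOK sI cl4 cl5 cl9 t2 t4 b0_19 :=
  box_mk (TrL.c (I.pos (nat_lit 0) (nat_lit 0)) (xa (xb T2.l10 T2.l14) (xb T2.l14 T2.l14))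
  (TrL.c (I.pos (nat_lit 0) (nat_lit 0)) T4.l1
  (TrL.c (I.pos (nat_lit 0) (nat_lit 0)) T2.l1
  (TrL.c (I.pos (nat_lit 0) (nat_lit 0)) T4.l2
  (TrL.c (I.pos (nat_lit 0) (nat_lit 0)) T2.l15
  (TrL.c (I.pos (nat_lit 0) (nat_lit 0)) T4.l3
  TrL.n)))))) (by decide +kernel)
theorem bx0_20 : BoxOK sI cl4 cl5 cl9 t2 t4 b0_20 :=
  box_mk (TrL.c (I.pos (nat_lit 0) (nat_lit 0)) (xa T2.l14 T2.l14)
  (TrL.c (I.pos (nat_lit 0) (nat_lit 0)) T4.l1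
  (TrL.c (I.pos (nat_lit 0) (nat_lit 0)) T2.l1
  (TrL.c (I.pos (nat_lit 0) (nat_lit 0)) T4.l2
  (TrL.c (I.pos (nat_lit 0) (nat_lit 0)) T2.l15
  (TrL.c (I.pos (nat_lit 0) (nat_lit 0)) T4.l3
  TrL.n)))))) (by decide +kernel)
theorem sv0 : StarV sI cl4 cl5 cl9 t2 t4 t0 :=
  (bt_n (bt_n (bt_n (bt_n (bt_b bx0_0) (bt_b bx0_1)) (bt_n (bt_b bx0_2) (bt_n (bt_b bx0_3) (bt_b bx0_4)))) (bt_n (bt_n (bt_b bx0_5) (bt_b bx0_6)) (bt_n (bt_b bx0_7) (bt_n (bt_b bx0_8) (bt_b bx0_9))))) (bt_n (bt_n (bt_n (bt_b bx0_10) (bt_b bx0_11)) (bt_n (bt_b bx0_12) (bt_n (bt_b bx0_13) (bt_b bx0_14)))) (bt_n (bt_n (bt_b bx0_15) (bt_n (bt_b bx0_16) (bt_b bx0_17))) (bt_n (bt_b bx0_18) (bt_n (bt_b bx0_19) (bt_b bx0_20))))))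
def S0 : StarD := StarD.mk cl4 cl5 cl9 2 4 t0
theorem bx1_0 : BoxOK sI cl4 cl9 cl5 t4 t2 b1_0 :=
  box_mk (TrL.c (I.pos (nat_lit 0) (nat_lit 0)) (xa (xb (xa (xb T4.l0 (xa T4.l0 T4.l0)) (xb T4.l0 T4.l0)) (xa (xb (xa (xb T4.l0 T4.l0) (xb T4.l0 T4.l0)) (xa (xs T4.l0 (xb T4.l0 T4.l0)) (xs T4.l0 (xb T4.l0 T4.l0)))) (xb (xa T4.l0 T4.l0) (xa (xs T4.l0 (xb T4.l0 T4.l0)) (xs T4.l0 (xb T4.l0 T4.l0)))))) (xb (xa (xb T4.l0 T4.l0) (xb T4.l2 (xa T4.l0 T4.l0))) (xa (xb T4.l0 (xa (xs T4.l0 (xb T4.l0 T4.l0)) (xs T4.l0 (xb T4.l0 T4.l0)))) (xb (xa T4.l0 (xs T4.l0 T4.l0)) (xa (xs T4.l0 (xb T4.l0 T4.l0)) (xs (xb T4.l0 T4.l0) (xb T4.l0 (xd T4.l0 T4.l0))))))))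
  (TrL.c (I.pos (nat_lit 0) (nat_lit 0)) (xa (xb T2.l3 (xa T2.l3 T2.l3)) (xb T2.l3 (xa T2.l3 (xb T2.l3 (xs T2.l3 T2.l3)))))
  (TrL.c (I.pos (nat_lit 0) (nat_lit 0)) (xa T4.l4 T4.l4)
  (TrL.c (I.pos (nat_lit 0) (nat_lit 0)) (xa T2.l4 (xb T2.l4 T2.l4))
  (TrL.c (I.pos (nat_lit 0) (nat_lit 0)) (xa (xb T4.l5 T4.l5) (xb T4.l1 T4.l5))
  (TrL.c (I.pos (nat_lit 0) (nat_lit 0)) (xa (xb T2.l5 (xa T2.l5 T2.l5)) (xb T2.l5 (xa T2.l5 (xb T2.l5 (xs T2.l5 T2.l5)))))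
  TrL.n)))))) (by decide +kernel)
theorem bx1_1 : BoxOK sI cl4 cl9 cl5 t4 t2 b1_1 :=
  box_mk (TrL.c (I.pos (nat_lit 0) (nat_lit 0)) (xa (xa (xb (xa T4.l6 T4.l6) (xa T4.l6 T4.l6)) (xb T4.l6 T4.l6)) (xa (xb T4.l6 T4.l6) (xb (xa T4.l6 T4.l8) (xa T4.l6 T4.l6))))
  (TrL.c (I.pos (nat_lit 0) (nat_lit 0)) (xa T2.l3 T2.l3)
  (TrL.c (I.pos (nat_lit 0) (nat_lit 0)) T4.l4
  (TrL.c (I.pos (nat_lit 0) (nat_lit 0)) (xa T2.l4 T2.l4)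
  (TrL.c (I.pos (nat_lit 0) (nat_lit 0)) (xa T4.l7 T4.l7)
  (TrL.c (I.pos (nat_lit 0) (nat_lit 0)) (xa T2.l5 T2.l5)
  TrL.n)))))) (by decide +kernel)
theorem bx1_2 : BoxOK sI cl4 cl9 cl5 t4 t2 b1_2 :=
  box_mk (TrL.c (I.pos (nat_lit 0) (nat_lit 0)) (xb (xa (xb T4.l8 T4.l8) T4.l0) (xa (xb T4.l8 T4.l8) (xb T4.l0 T4.l8)))
  (TrL.c (I.pos (nat_lit 0) (nat_lit 0)) T2.l3
  (TrL.c (I.pos (nat_lit 0) (nat_lit 0)) T4.l4
  (TrL.c (I.pos (nat_lit 0) (nat_lit 0)) T2.l4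
  (TrL.c (I.pos (nat_lit 0) (nat_lit 0)) T4.l9
  (TrL.c (I.pos (nat_lit 0) (nat_lit 0)) T2.l5
  TrL.n)))))) (by decide +kernel)
theorem bx1_3 : BoxOK sI cl4 cl9 cl5 t4 t2 b1_3 :=
  box_mk (TrL.c (I.pos (nat_lit 0) (nat_lit 0)) (xa (xa (xb T4.l10 T4.l10) T4.l20) T4.l6)
  (TrL.c (I.pos (nat_lit 0) (nat_lit 0)) (xa T2.l3 T2.l3)
  (TrL.c (I.pos (nat_lit 0) (nat_lit 0)) (xa T4.l4 T4.l4)
  (TrL.c (I.pos (nat_lit 0) (nat_lit 0)) (xa T2.l4 T2.l4)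
  (TrL.c (I.pos (nat_lit 0) (nat_lit 0)) (xa T4.l11 T4.l11)
  (TrL.c (I.pos (nat_lit 0) (nat_lit 0)) (xa T2.l5 T2.l5)
  TrL.n)))))) (by decide +kernel)
theorem bx1_4 : BoxOK sI cl4 cl9 cl5 t4 t2 b1_4 :=
  box_mk (TrL.c (I.pos (nat_lit 0) (nat_lit 0)) (xa (xb T4.l0 T4.l0) (xb T4.l2 T4.l2))
  (TrL.c (I.pos (nat_lit 0) (nat_lit 0)) (xa T2.l3 (xb T2.l3 T2.l3))
  (TrL.c (I.pos (nat_lit 0) (nat_lit 0)) T4.l3
  (TrL.c (I.pos (nat_lit 0) (nat_lit 0)) T2.l4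
  (TrL.c (I.pos (nat_lit 0) (nat_lit 0)) T4.l1
  (TrL.c (I.pos (nat_lit 0) (nat_lit 0)) (xa T2.l5 (xb T2.l5 T2.l5))
  TrL.n)))))) (by decide +kernel)
theorem bx1_5 : BoxOK sI cl4 cl9 cl5 t4 t2 b1_5 :=
  box_mk (TrL.c (I.pos (nat_lit 0) (nat_lit 0)) (xa (xb (xa (xb (xa T4.l0 T4.l0) (xs T4.l0 (xa T4.l0 T4.l0))) (xb T4.l0 T4.l0)) (xa (xb (xs T4.l0 (xa T4.l0 T4.l0)) (xs (xa T4.l0 T4.l0) (xa T4.l0 T4.l0))) (xb (xs T4.l0 (xa T4.l0 T4.l0)) (xs (xa T4.l0 T4.l0) (xa T4.l0 T4.l0))))) (xb (xa (xb T4.l0 (xs T4.l0 T4.l0)) (xb T4.l2 (xs T4.l0 (xa T4.l0 T4.l2)))) (xa (xb (xs T4.l0 (xa T4.l0 T4.l0)) (xs (xa T4.l0 T4.l0) (xa (xb T4.l0 T4.l0) (xb T4.l0 T4.l0)))) (xb (xs T4.l0 (xa T4.l0 (xb T4.l0 T4.l0))) (xs (xa T4.l0 (xd T4.l0 T4.l0)) (xa (xb T4.l0 T4.l0) (xd T4.l0 T4.l0)))))))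
  (TrL.c (I.pos (nat_lit 0) (nat_lit 0)) (xa (xb (xa T2.l3 T2.l3) (xa T2.l3 T2.l3)) (xb (xa T2.l3 T2.l3) (xa (xs T2.l3 T2.l3) (xs T2.l3 T2.l3))))
  (TrL.c (I.pos (nat_lit 0) (nat_lit 0)) (xa (xb T4.l4 T4.l4) (xc (xb T4.l4 T4.l4) (xb T4.l4 T4.l4)))
  (TrL.c (I.pos (nat_lit 0) (nat_lit 0)) (xa T2.l4 (xb (xa T2.l4 T2.l4) (xa T2.l4 T2.l4)))
  (TrL.c (I.pos (nat_lit 0) (nat_lit 0)) (xa T4.l5 (xb T4.l5 T4.l5))
  (TrL.c (I.pos (nat_lit 0) (nat_lit 0)) (xa (xb (xa T2.l5 T2.l5) (xa T2.l5 T2.l5)) (xb (xa T2.l5 T2.l5) (xa (xs T2.l5 T2.l5) (xs T2.l5 T2.l5))))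
  TrL.n)))))) (by decide +kernel)
theorem bx1_6 : BoxOK sI cl4 cl9 cl5 t4 t2 b1_6 :=
  box_mk (TrL.c (I.pos (nat_lit 0) (nat_lit 0)) (xa (xa T4.l12 T4.l6) T4.l6)
  (TrL.c (I.pos (nat_lit 0) (nat_lit 0)) T2.l3
  (TrL.c (I.pos (nat_lit 0) (nat_lit 0)) T4.l4
  (TrL.c (I.pos (nat_lit 0) (nat_lit 0)) T2.l4
  (TrL.c (I.pos (nat_lit 0) (nat_lit 0)) T4.l21
  (TrL.c (I.pos (nat_lit 0) (nat_lit 0)) T2.l5
  TrL.n)))))) (by decide +kernel)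
theorem bx1_7 : BoxOK sI cl4 cl9 cl5 t4 t2 b1_7 :=
  box_mk (TrL.c (I.pos (nat_lit 0) (nat_lit 0)) (xa T4.l6 T4.l8)
  (TrL.c (I.pos (nat_lit 0) (nat_lit 0)) T2.l3
  (TrL.c (I.pos (nat_lit 0) (nat_lit 0)) T4.l4
  (TrL.c (I.pos (nat_lit 0) (nat_lit 0)) T2.l4
  (TrL.c (I.pos (nat_lit 0) (nat_lit 0)) T4.l25
  (TrL.c (I.pos (nat_lit 0) (nat_lit 0)) T2.l5
  TrL.n)))))) (by decide +kernel)
theorem bx1_8 : BoxOK sI cl4 cl9 cl5 t4 t2 b1_8 :=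
  box_mk (TrL.c (I.pos (nat_lit 0) (nat_lit 0)) (xa (xb T4.l2 (xa T4.l0 T4.l2)) T4.l2)
  (TrL.c (I.pos (nat_lit 0) (nat_lit 0)) (xa T2.l3 (xb T2.l3 T2.l3))
  (TrL.c (I.pos (nat_lit 0) (nat_lit 0)) T4.l3
  (TrL.c (I.pos (nat_lit 0) (nat_lit 0)) (xa T2.l4 T2.l4)
  (TrL.c (I.pos (nat_lit 0) (nat_lit 0)) T4.l1
  (TrL.c (I.pos (nat_lit 0) (nat_lit 0)) (xa T2.l5 (xb T2.l5 T2.l5))
  TrL.n)))))) (by decide +kernel)
theorem bx1_9 : BoxOK sI cl4 cl9 cl5 t4 t2 b1_9 :=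
  box_mk (TrL.c (I.pos (nat_lit 0) (nat_lit 0)) (xa (xb (xa T4.l14 T4.l0) (xa T4.l8 T4.l0)) T4.l0)
  (TrL.c (I.pos (nat_lit 0) (nat_lit 0)) T2.l3
  (TrL.c (I.pos (nat_lit 0) (nat_lit 0)) T4.l4
  (TrL.c (I.pos (nat_lit 0) (nat_lit 0)) T2.l4
  (TrL.c (I.pos (nat_lit 0) (nat_lit 0)) (xa T4.l15 T4.l15)
  (TrL.c (I.pos (nat_lit 0) (nat_lit 0)) T2.l5
  TrL.n)))))) (by decide +kernel)
theorem bx1_10 : BoxOK sI cl4 cl9 cl5 t4 t2 b1_10 :=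
  box_mk (TrL.c (I.pos (nat_lit 0) (nat_lit 0)) (xa (xa (xb T4.l16 T4.l10) T4.l6) (xa T4.l16 T4.l6))
  (TrL.c (I.pos (nat_lit 0) (nat_lit 0)) (xa T2.l3 T2.l3)
  (TrL.c (I.pos (nat_lit 0) (nat_lit 0)) T4.l4
  (TrL.c (I.pos (nat_lit 0) (nat_lit 0)) (xa T2.l4 T2.l4)
  (TrL.c (I.pos (nat_lit 0) (nat_lit 0)) (xa T4.l17 T4.l17)
  (TrL.c (I.pos (nat_lit 0) (nat_lit 0)) (xa T2.l5 T2.l5)
  TrL.n)))))) (by decide +kernel)
theorem bx1_11 : BoxOK sI cl4 cl9 cl5 t4 t2 b1_11 :=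
  box_mk (TrL.c (I.pos (nat_lit 0) (nat_lit 0)) (xb (xa (xb (xa T4.l18 T4.l18) (xa (xb T4.l18 T4.l18) T4.l18)) (xb (xa T4.l18 (xb T4.l18 T4.l18)) (xa T4.l18 (xb T4.l18 T4.l18)))) (xa (xb (xa (xb T4.l18 T4.l18) (xb T4.l18 T4.l18)) (xa (xb (xs T4.l18 T4.l18) (xs T4.l18 T4.l18)) (xb T4.l18 (xs T4.l18 (xa T4.l18 T4.l18))))) (xb (xa T4.l18 (xb T4.l0 (xs T4.l18 T4.l18))) (xa (xs (xb T4.l18 T4.l18) (xb T4.l18 (xa T4.l18 T4.l18))) (xs T4.l0 (xb T4.l0 T4.l0))))))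
  (TrL.c (I.pos (nat_lit 0) (nat_lit 0)) (xb (xa T2.l3 T2.l3) (xa (xb T2.l3 T2.l3) (xb T2.l3 T2.l3)))
  (TrL.c (I.pos (nat_lit 0) (nat_lit 0)) (xb T4.l4 (xa T4.l4 T4.l4))
  (TrL.c (I.pos (nat_lit 0) (nat_lit 0)) (xb T2.l4 T2.l4)
  (TrL.c (I.pos (nat_lit 0) (nat_lit 0)) (xb T4.l19 (xa T4.l19 T4.l5))
  (TrL.c (I.pos (nat_lit 0) (nat_lit 0)) (xb (xa T2.l5 T2.l5) (xa (xb T2.l5 T2.l5) (xb T2.l5 T2.l5)))
  TrL.n)))))) (by decide +kernel)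
theorem bx1_12 : BoxOK sI cl4 cl9 cl5 t4 t2 b1_12 :=
  box_mk (TrL.c (I.pos (nat_lit 0) (nat_lit 0)) (xa (xa (xb (xa T4.l20 T4.l20) (xa T4.l20 T4.l20)) (xb T4.l20 T4.l20)) (xa (xb T4.l20 T4.l20) (xb (xa T4.l20 T4.l20) (xa T4.l20 T4.l20))))
  (TrL.c (I.pos (nat_lit 0) (nat_lit 0)) (xa (xa T2.l4 T2.l3) T2.l3)
  (TrL.c (I.pos (nat_lit 0) (nat_lit 0)) (xa T4.l4 T4.l4)
  (TrL.c (I.pos (nat_lit 0) (nat_lit 0)) (xa (xa T2.l4 T2.l4) T2.l4)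
  (TrL.c (I.pos (nat_lit 0) (nat_lit 0)) (xa T4.l21 T4.l21)
  (TrL.c (I.pos (nat_lit 0) (nat_lit 0)) (xa (xa T2.l5 T2.l5) T2.l5)
  TrL.n)))))) (by decide +kernel)
theorem bx1_13 : BoxOK sI cl4 cl9 cl5 t4 t2 b1_13 :=
  box_mk (TrL.c (I.pos (nat_lit 0) (nat_lit 0)) T4.l0
  (TrL.c (I.pos (nat_lit 0) (nat_lit 0)) T2.l3
  (TrL.c (I.pos (nat_lit 0) (nat_lit 0)) (xb T4.l4 T4.l4)
  (TrL.c (I.pos (nat_lit 0) (nat_lit 0)) (xb (xa T2.l4 T2.l4) T2.l4)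
  (TrL.c (I.pos (nat_lit 0) (nat_lit 0)) (xb T4.l19 T4.l19)
  (TrL.c (I.pos (nat_lit 0) (nat_lit 0)) T2.l5
  TrL.n)))))) (by decide +kernel)
theorem bx1_14 : BoxOK sI cl4 cl9 cl5 t4 t2 b1_14 :=
  box_mk (TrL.c (I.pos (nat_lit 0) (nat_lit 0)) T4.l0
  (TrL.c (I.pos (nat_lit 0) (nat_lit 0)) T2.l3
  (TrL.c (I.pos (nat_lit 0) (nat_lit 0)) T4.l4
  (TrL.c (I.pos (nat_lit 0) (nat_lit 0)) T2.l4
  (TrL.c (I.pos (nat_lit 0) (nat_lit 0)) T4.l15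
  (TrL.c (I.pos (nat_lit 0) (nat_lit 0)) T2.l5
  TrL.n)))))) (by decide +kernel)
theorem bx1_15 : BoxOK sI cl4 cl9 cl5 t4 t2 b1_15 :=
  box_mk (TrL.c (I.pos (nat_lit 0) (nat_lit 0)) (xa (xa T4.l22 T4.l6) T4.l6)
  (TrL.c (I.pos (nat_lit 0) (nat_lit 0)) (xa T2.l3 T2.l3)
  (TrL.c (I.pos (nat_lit 0) (nat_lit 0)) T4.l4
  (TrL.c (I.pos (nat_lit 0) (nat_lit 0)) (xa T2.l4 T2.l4)
  (TrL.c (I.pos (nat_lit 0) (nat_lit 0)) (xa T4.l23 T4.l7)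
  (TrL.c (I.pos (nat_lit 0) (nat_lit 0)) (xa T2.l5 T2.l5)
  TrL.n)))))) (by decide +kernel)
theorem bx1_16 : BoxOK sI cl4 cl9 cl5 t4 t2 b1_16 :=
  box_mk (TrL.c (I.pos (nat_lit 0) (nat_lit 0)) (xa (xb (xa T4.l18 T4.l18) (xa T4.l18 T4.l18)) (xb (xa T4.l18 (xb T4.l18 T4.l18)) (xa T4.l18 (xb T4.l18 T4.l18))))
  (TrL.c (I.pos (nat_lit 0) (nat_lit 0)) (xa T2.l3 T2.l3)
  (TrL.c (I.pos (nat_lit 0) (nat_lit 0)) T4.l4
  (TrL.c (I.pos (nat_lit 0) (nat_lit 0)) (xa T2.l4 (xb T2.l4 T2.l4))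
  (TrL.c (I.pos (nat_lit 0) (nat_lit 0)) T4.l19
  (TrL.c (I.pos (nat_lit 0) (nat_lit 0)) (xa T2.l5 T2.l5)
  TrL.n)))))) (by decide +kernel)
theorem bx1_17 : BoxOK sI cl4 cl9 cl5 t4 t2 b1_17 :=
  box_mk (TrL.c (I.pos (nat_lit 0) (nat_lit 0)) T4.l0
  (TrL.c (I.pos (nat_lit 0) (nat_lit 0)) T2.l3
  (TrL.c (I.pos (nat_lit 0) (nat_lit 0)) T4.l4
  (TrL.c (I.pos (nat_lit 0) (nat_lit 0)) T2.l4
  (TrL.c (I.pos (nat_lit 0) (nat_lit 0)) T4.l19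
  (TrL.c (I.pos (nat_lit 0) (nat_lit 0)) T2.l5
  TrL.n)))))) (by decide +kernel)
theorem bx1_18 : BoxOK sI cl4 cl9 cl5 t4 t2 b1_18 :=
  box_mk (TrL.c (I.pos (nat_lit 0) (nat_lit 0)) T4.l0
  (TrL.c (I.pos (nat_lit 0) (nat_lit 0)) T2.l3
  (TrL.c (I.pos (nat_lit 0) (nat_lit 0)) T4.l4
  (TrL.c (I.pos (nat_lit 0) (nat_lit 0)) T2.l4
  (TrL.c (I.pos (nat_lit 0) (nat_lit 0)) T4.l19
  (TrL.c (I.pos (nat_lit 0) (nat_lit 0)) T2.l5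
  TrL.n)))))) (by decide +kernel)
theorem bx1_19 : BoxOK sI cl4 cl9 cl5 t4 t2 b1_19 :=
  box_mk (TrL.c (I.pos (nat_lit 0) (nat_lit 0)) T4.l18
  (TrL.c (I.pos (nat_lit 0) (nat_lit 0)) T2.l3
  (TrL.c (I.pos (nat_lit 0) (nat_lit 0)) T4.l4
  (TrL.c (I.pos (nat_lit 0) (nat_lit 0)) T2.l4
  (TrL.c (I.pos (nat_lit 0) (nat_lit 0)) T4.l19
  (TrL.c (I.pos (nat_lit 0) (nat_lit 0)) T2.l5
  TrL.n)))))) (by decide +kernel)
theorem bx1_20 : BoxOK sI cl4 cl9 cl5 t4 t2 b1_20 :=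
  box_mk (TrL.c (I.pos (nat_lit 0) (nat_lit 0)) T4.l0
  (TrL.c (I.pos (nat_lit 0) (nat_lit 0)) T2.l3
  (TrL.c (I.pos (nat_lit 0) (nat_lit 0)) T4.l4
  (TrL.c (I.pos (nat_lit 0) (nat_lit 0)) T2.l4
  (TrL.c (I.pos (nat_lit 0) (nat_lit 0)) T4.l19
  (TrL.c (I.pos (nat_lit 0) (nat_lit 0)) T2.l5
  TrL.n)))))) (by decide +kernel)
theorem bx1_21 : BoxOK sI cl4 cl9 cl5 t4 t2 b1_21 :=
  box_mk (TrL.c (I.pos (nat_lit 0) (nat_lit 0)) (xa T4.l0 T4.l2)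
  (TrL.c (I.pos (nat_lit 0) (nat_lit 0)) T2.l3
  (TrL.c (I.pos (nat_lit 0) (nat_lit 0)) T4.l4
  (TrL.c (I.pos (nat_lit 0) (nat_lit 0)) T2.l4
  (TrL.c (I.pos (nat_lit 0) (nat_lit 0)) T4.l5
  (TrL.c (I.pos (nat_lit 0) (nat_lit 0)) T2.l5
  TrL.n)))))) (by decide +kernel)
theorem sv1 : StarV sI cl4 cl9 cl5 t4 t2 t1 :=
  (bt_n (bt_n (bt_n (bt_n (bt_b bx1_0) (bt_b bx1_1)) (bt_n (bt_b bx1_2) (bt_n (bt_b bx1_3) (bt_b bx1_4)))) (bt_n (bt_n (bt_b bx1_5) (bt_n (bt_b bx1_6) (bt_b bx1_7))) (bt_n (bt_b bx1_8) (bt_n (bt_b bx1_9) (bt_b bx1_10))))) (bt_n (bt_n (bt_n (bt_b bx1_11) (bt_b bx1_12)) (bt_n (bt_b bx1_13) (bt_n (bt_b bx1_14) (bt_b bx1_15)))) (bt_n (bt_n (bt_b bx1_16) (bt_n (bt_b bx1_17) (bt_b bx1_18))) (bt_n (bt_b bx1_19) (bt_n (bt_b bx1_20) (bt_b bx1_21))))))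
def S1 : StarD := StarD.mk cl4 cl9 cl5 4 2 t1
theorem bx2_0 : BoxOK sI cl5 cl4 cl9 t0 t5 b2_0 :=
  box_mk (TrL.c (I.pos (nat_lit 0) (nat_lit 0)) (xb (xa T0.l7 (xb T0.l0 T0.l0)) (xa (xb (xa T0.l7 T0.l0) (xa (xb T0.l0 (xs T0.l0 T0.l0)) (xb T0.l0 (xs T0.l0 T0.l0)))) (xb (xa T0.l0 T0.l0) (xa (xb T0.l0 (xs T0.l0 T0.l0)) (xb T0.l0 (xs T0.l0 T0.l0))))))
  (TrL.c (I.pos (nat_lit 0) (nat_lit 0)) (xb T5.l1 (xa T5.l1 T5.l1))
  (TrL.c (I.pos (nat_lit 0) (nat_lit 0)) (xb T0.l1 T0.l1)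
  (TrL.c (I.pos (nat_lit 0) (nat_lit 0)) T5.l2
  (TrL.c (I.pos (nat_lit 0) (nat_lit 0)) (xb (xa T5.l3 T5.l3) (xa T5.l3 T5.l3))
  (TrL.c (I.pos (nat_lit 0) (nat_lit 0)) (xb T0.l2 T0.l2)
  (TrL.c (I.pos (nat_lit 0) (nat_lit 0)) T5.l4
  (TrL.c (I.pos (nat_lit 0) (nat_lit 0)) (xb T0.l3 T0.l3)
  TrL.n)))))))) (by decide +kernel)
theorem bx2_1 : BoxOK sI cl5 cl4 cl9 t0 t5 b2_1 :=
  box_mk (TrL.c (I.pos (nat_lit 0) (nat_lit 0)) T5.l5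
  (TrL.c (I.pos (nat_lit 0) (nat_lit 0)) T0.l4
  (TrL.c (I.pos (nat_lit 0) (nat_lit 0)) T5.l6
  TrL.n))) (by decide +kernel)
theorem bx2_2 : BoxOK sI cl5 cl4 cl9 t0 t5 b2_2 :=
  box_mk (TrL.c (I.pos (nat_lit 0) (nat_lit 0)) (xb (xa (xb T0.l5 T0.l5) T0.l6) (xa T0.l5 T0.l6))
  (TrL.c (I.pos (nat_lit 0) (nat_lit 0)) T5.l5
  (TrL.c (I.pos (nat_lit 0) (nat_lit 0)) T0.l1
  (TrL.c (I.pos (nat_lit 0) (nat_lit 0)) T5.l2
  (TrL.c (I.pos (nat_lit 0) (nat_lit 0)) T5.l7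
  (TrL.c (I.pos (nat_lit 0) (nat_lit 0)) T0.l2
  (TrL.c (I.pos (nat_lit 0) (nat_lit 0)) T5.l4
  (TrL.c (I.pos (nat_lit 0) (nat_lit 0)) T0.l3
  TrL.n)))))))) (by decide +kernel)
theorem bx2_3 : BoxOK sI cl5 cl4 cl9 t0 t5 b2_3 :=
  box_mk (TrL.c (I.pos (nat_lit 0) (nat_lit 0)) (xa (xb (xa (xb (xa T0.l6 T0.l6) T0.l6) (xb T0.l6 T0.l6)) (xa (xb T0.l6 T0.l6) (xb T0.l6 T0.l6))) (xb (xa T0.l6 (xb T0.l6 T0.l6)) (xa (xb T0.l6 T0.l6) (xb T0.l6 T0.l7))))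
  (TrL.c (I.pos (nat_lit 0) (nat_lit 0)) (xa T5.l1 T5.l1)
  (TrL.c (I.pos (nat_lit 0) (nat_lit 0)) T0.l1
  (TrL.c (I.pos (nat_lit 0) (nat_lit 0)) T5.l2
  (TrL.c (I.pos (nat_lit 0) (nat_lit 0)) (xa (xb T5.l8 T5.l8) (xb T5.l8 T5.l8))
  (TrL.c (I.pos (nat_lit 0) (nat_lit 0)) (xa T0.l2 T0.l2)
  (TrL.c (I.pos (nat_lit 0) (nat_lit 0)) T5.l4
  (TrL.c (I.pos (nat_lit 0) (nat_lit 0)) T0.l3
  TrL.n)))))))) (by decide +kernel)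
theorem bx2_4 : BoxOK sI cl5 cl4 cl9 t0 t5 b2_4 :=
  box_mk (TrL.c (I.pos (nat_lit 0) (nat_lit 0)) (xb (xa (xb (xa (xb T0.l7 T0.l7) (xb T0.l7 T0.l7)) (xa (xb T0.l7 T0.l7) T0.l7)) (xb (xa T0.l7 (xb T0.l7 T0.l7)) (xa T0.l7 T0.l7))) (xa (xb (xa (xb T0.l7 (xa T0.l7 T0.l7)) T0.l7) (xa (xb (xa T0.l7 T0.l7) (xa (xs T0.l7 T0.l7) T0.l7)) (xb T0.l7 (xa T0.l7 T0.l7)))) (xb (xa T0.l7 (xb T0.l7 T0.l7)) (xa (xb T0.l7 (xa T0.l7 T0.l7)) (xb (xa T0.l7 T0.l7) (xa (xs T0.l7 T0.l7) (xs T0.l7 T0.l7)))))))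
  (TrL.c (I.pos (nat_lit 0) (nat_lit 0)) (xb (xa T5.l1 T5.l1) (xa T5.l1 T5.l1))
  (TrL.c (I.pos (nat_lit 0) (nat_lit 0)) (xb T0.l1 T0.l1)
  (TrL.c (I.pos (nat_lit 0) (nat_lit 0)) T5.l2
  (TrL.c (I.pos (nat_lit 0) (nat_lit 0)) (xb (xa (xb T5.l9 T5.l9) (xb T5.l9 T5.l9)) (xa T5.l9 (xb T5.l9 (xb T5.l9 T5.l9))))
  (TrL.c (I.pos (nat_lit 0) (nat_lit 0)) (xb (xa T0.l2 T0.l2) (xa T0.l2 T0.l2))
  (TrL.c (I.pos (nat_lit 0) (nat_lit 0)) T5.l4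
  (TrL.c (I.pos (nat_lit 0) (nat_lit 0)) (xb T0.l3 T0.l3)
  TrL.n)))))))) (by decide +kernel)
theorem bx2_5 : BoxOK sI cl5 cl4 cl9 t0 t5 b2_5 :=
  box_mk (TrL.c (I.pos (nat_lit 0) (nat_lit 0)) (xa T5.l1 T5.l1)
  (TrL.c (I.pos (nat_lit 0) (nat_lit 0)) T0.l4
  (TrL.c (I.pos (nat_lit 0) (nat_lit 0)) T5.l2
  TrL.n))) (by decide +kernel)
theorem bx2_6 : BoxOK sI cl5 cl4 cl9 t0 t5 b2_6 :=
  box_mk (TrL.c (I.pos (nat_lit 0) (nat_lit 0)) (xa T0.l0 (xb T0.l10 T0.l10))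
  (TrL.c (I.pos (nat_lit 0) (nat_lit 0)) T5.l1
  (TrL.c (I.pos (nat_lit 0) (nat_lit 0)) T0.l1
  (TrL.c (I.pos (nat_lit 0) (nat_lit 0)) T5.l12
  (TrL.c (I.pos (nat_lit 0) (nat_lit 0)) (xb T5.l3 T5.l3)
  (TrL.c (I.pos (nat_lit 0) (nat_lit 0)) T0.l2
  (TrL.c (I.pos (nat_lit 0) (nat_lit 0)) T5.l10
  (TrL.c (I.pos (nat_lit 0) (nat_lit 0)) T0.l3
  TrL.n)))))))) (by decide +kernel)
theorem bx2_7 : BoxOK sI cl5 cl4 cl9 t0 t5 b2_7 :=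
  box_mk (TrL.c (I.pos (nat_lit 0) (nat_lit 0)) T0.l5
  (TrL.c (I.pos (nat_lit 0) (nat_lit 0)) T5.l5
  (TrL.c (I.pos (nat_lit 0) (nat_lit 0)) T0.l1
  (TrL.c (I.pos (nat_lit 0) (nat_lit 0)) T5.l2
  (TrL.c (I.pos (nat_lit 0) (nat_lit 0)) T5.l7
  (TrL.c (I.pos (nat_lit 0) (nat_lit 0)) T0.l2
  (TrL.c (I.pos (nat_lit 0) (nat_lit 0)) T5.l4
  (TrL.c (I.pos (nat_lit 0) (nat_lit 0)) T0.l3
  TrL.n)))))))) (by decide +kernel)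
theorem bx2_8 : BoxOK sI cl5 cl4 cl9 t0 t5 b2_8 :=
  box_mk (TrL.c (I.pos (nat_lit 0) (nat_lit 0)) (xa T0.l0 T0.l0)
  (TrL.c (I.pos (nat_lit 0) (nat_lit 0)) T5.l1
  (TrL.c (I.pos (nat_lit 0) (nat_lit 0)) T0.l1
  (TrL.c (I.pos (nat_lit 0) (nat_lit 0)) T5.l2
  (TrL.c (I.pos (nat_lit 0) (nat_lit 0)) (xa T5.l3 T5.l3)
  (TrL.c (I.pos (nat_lit 0) (nat_lit 0)) T0.l2
  (TrL.c (I.pos (nat_lit 0) (nat_lit 0)) T5.l4
  (TrL.c (I.pos (nat_lit 0) (nat_lit 0)) T0.l3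
  TrL.n)))))))) (by decide +kernel)
theorem bx2_9 : BoxOK sI cl5 cl4 cl9 t0 t5 b2_9 :=
  box_mk (TrL.c (I.pos (nat_lit 0) (nat_lit 0)) T0.l5
  (TrL.c (I.pos (nat_lit 0) (nat_lit 0)) T5.l1
  (TrL.c (I.pos (nat_lit 0) (nat_lit 0)) T0.l1
  (TrL.c (I.pos (nat_lit 0) (nat_lit 0)) T5.l2
  (TrL.c (I.pos (nat_lit 0) (nat_lit 0)) T5.l7
  (TrL.c (I.pos (nat_lit 0) (nat_lit 0)) T0.l2
  (TrL.c (I.pos (nat_lit 0) (nat_lit 0)) T5.l4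
  (TrL.c (I.pos (nat_lit 0) (nat_lit 0)) T0.l3
  TrL.n)))))))) (by decide +kernel)
theorem bx2_10 : BoxOK sI cl5 cl4 cl9 t0 t5 b2_10 :=
  box_mk (TrL.c (I.pos (nat_lit 0) (nat_lit 0)) (xa T0.l0 T0.l0)
  (TrL.c (I.pos (nat_lit 0) (nat_lit 0)) T5.l1
  (TrL.c (I.pos (nat_lit 0) (nat_lit 0)) T0.l1
  (TrL.c (I.pos (nat_lit 0) (nat_lit 0)) T5.l2
  (TrL.c (I.pos (nat_lit 0) (nat_lit 0)) T5.l3
  (TrL.c (I.pos (nat_lit 0) (nat_lit 0)) T0.l2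
  (TrL.c (I.pos (nat_lit 0) (nat_lit 0)) T5.l4
  (TrL.c (I.pos (nat_lit 0) (nat_lit 0)) T0.l3
  TrL.n)))))))) (by decide +kernel)
theorem bx2_11 : BoxOK sI cl5 cl4 cl9 t0 t5 b2_11 :=
  box_mk (TrL.c (I.pos (nat_lit 0) (nat_lit 0)) (xb T0.l5 T0.l5)
  (TrL.c (I.pos (nat_lit 0) (nat_lit 0)) T5.l1
  (TrL.c (I.pos (nat_lit 0) (nat_lit 0)) T0.l1
  (TrL.c (I.pos (nat_lit 0) (nat_lit 0)) T5.l2
  (TrL.c (I.pos (nat_lit 0) (nat_lit 0)) T5.l7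
  (TrL.c (I.pos (nat_lit 0) (nat_lit 0)) T0.l2
  (TrL.c (I.pos (nat_lit 0) (nat_lit 0)) T5.l4
  (TrL.c (I.pos (nat_lit 0) (nat_lit 0)) T0.l3
  TrL.n)))))))) (by decide +kernel)
theorem bx2_12 : BoxOK sI cl5 cl4 cl9 t0 t5 b2_12 :=
  box_mk (TrL.c (I.pos (nat_lit 0) (nat_lit 0)) T0.l0
  (TrL.c (I.pos (nat_lit 0) (nat_lit 0)) T5.l1
  (TrL.c (I.pos (nat_lit 0) (nat_lit 0)) T0.l1
  (TrL.c (I.pos (nat_lit 0) (nat_lit 0)) T5.l2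
  (TrL.c (I.pos (nat_lit 0) (nat_lit 0)) T5.l3
  (TrL.c (I.pos (nat_lit 0) (nat_lit 0)) T0.l2
  (TrL.c (I.pos (nat_lit 0) (nat_lit 0)) T5.l4
  (TrL.c (I.pos (nat_lit 0) (nat_lit 0)) T0.l3
  TrL.n)))))))) (by decide +kernel)
theorem bx2_13 : BoxOK sI cl5 cl4 cl9 t0 t5 b2_13 :=
  box_mk (TrL.c (I.pos (nat_lit 0) (nat_lit 0)) T5.l5
  (TrL.c (I.pos (nat_lit 0) (nat_lit 0)) T0.l4
  (TrL.c (I.pos (nat_lit 0) (nat_lit 0)) T5.l2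
  TrL.n))) (by decide +kernel)
theorem bx2_14 : BoxOK sI cl5 cl4 cl9 t0 t5 b2_14 :=
  box_mk (TrL.c (I.pos (nat_lit 0) (nat_lit 0)) (xb (xa T0.l0 T0.l0) (xa (xb T0.l0 (xa T0.l0 T0.l0)) (xb T0.l0 (xa T0.l0 T0.l0))))
  (TrL.c (I.pos (nat_lit 0) (nat_lit 0)) (xb T5.l1 T5.l1)
  (TrL.c (I.pos (nat_lit 0) (nat_lit 0)) T0.l1
  (TrL.c (I.pos (nat_lit 0) (nat_lit 0)) T5.l2
  (TrL.c (I.pos (nat_lit 0) (nat_lit 0)) (xb T5.l3 (xa T5.l3 T5.l3))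
  (TrL.c (I.pos (nat_lit 0) (nat_lit 0)) T0.l2
  (TrL.c (I.pos (nat_lit 0) (nat_lit 0)) T5.l4
  (TrL.c (I.pos (nat_lit 0) (nat_lit 0)) T0.l3
  TrL.n)))))))) (by decide +kernel)
theorem bx2_15 : BoxOK sI cl5 cl4 cl9 t0 t5 b2_15 :=
  box_mk (TrL.c (I.pos (nat_lit 0) (nat_lit 0)) (xb T0.l5 T0.l5)
  (TrL.c (I.pos (nat_lit 0) (nat_lit 0)) T5.l1
  (TrL.c (I.pos (nat_lit 0) (nat_lit 0)) T0.l1
  (TrL.c (I.pos (nat_lit 0) (nat_lit 0)) T5.l2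
  (TrL.c (I.pos (nat_lit 0) (nat_lit 0)) T5.l7
  (TrL.c (I.pos (nat_lit 0) (nat_lit 0)) T0.l2
  (TrL.c (I.pos (nat_lit 0) (nat_lit 0)) T5.l4
  (TrL.c (I.pos (nat_lit 0) (nat_lit 0)) T0.l3
  TrL.n)))))))) (by decide +kernel)
theorem bx2_16 : BoxOK sI cl5 cl4 cl9 t0 t5 b2_16 :=
  box_mk (TrL.c (I.pos (nat_lit 0) (nat_lit 0)) (xa (xb T0.l0 T0.l0) T0.l10)
  (TrL.c (I.pos (nat_lit 0) (nat_lit 0)) T5.l1
  (TrL.c (I.pos (nat_lit 0) (nat_lit 0)) T0.l1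
  (TrL.c (I.pos (nat_lit 0) (nat_lit 0)) T5.l12
  (TrL.c (I.pos (nat_lit 0) (nat_lit 0)) (xb (xa T5.l3 T5.l3) (xa T5.l3 T5.l3))
  (TrL.c (I.pos (nat_lit 0) (nat_lit 0)) T0.l8
  (TrL.c (I.pos (nat_lit 0) (nat_lit 0)) T5.l10
  (TrL.c (I.pos (nat_lit 0) (nat_lit 0)) T0.l3
  TrL.n)))))))) (by decide +kernel)
theorem bx2_17 : BoxOK sI cl5 cl4 cl9 t0 t5 b2_17 :=
  box_mk (TrL.c (I.pos (nat_lit 0) (nat_lit 0)) T0.l5
  (TrL.c (I.pos (nat_lit 0) (nat_lit 0)) T5.l5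
  (TrL.c (I.pos (nat_lit 0) (nat_lit 0)) T0.l1
  (TrL.c (I.pos (nat_lit 0) (nat_lit 0)) T5.l2
  (TrL.c (I.pos (nat_lit 0) (nat_lit 0)) T5.l7
  (TrL.c (I.pos (nat_lit 0) (nat_lit 0)) T0.l2
  (TrL.c (I.pos (nat_lit 0) (nat_lit 0)) T5.l4
  (TrL.c (I.pos (nat_lit 0) (nat_lit 0)) T0.l3
  TrL.n)))))))) (by decide +kernel)
theorem sv2 : StarV sI cl5 cl4 cl9 t0 t5 t2 :=
  (bt_n (bt_n (bt_n (bt_n (bt_b bx2_0) (bt_b bx2_1)) (bt_n (bt_b bx2_2) (bt_b bx2_3))) (bt_n (bt_n (bt_b bx2_4) (bt_b bx2_5)) (bt_n (bt_b bx2_6) (bt_n (bt_b bx2_7) (bt_b bx2_8))))) (bt_n (bt_n (bt_n (bt_b bx2_9) (bt_b bx2_10)) (bt_n (bt_b bx2_11) (bt_b bx2_12))) (bt_n (bt_n (bt_b bx2_13) (bt_b bx2_14)) (bt_n (bt_b bx2_15) (bt_n (bt_b bx2_16) (bt_b bx2_17))))))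
def S2 : StarD := StarD.mk cl5 cl4 cl9 0 5 t2
theorem bx3_0 : BoxOK sI cl5 cl9 cl4 t5 t0 b3_0 :=
  box_mk (TrL.c (I.pos (nat_lit 0) (nat_lit 0)) (xa (xb (xa (xb T5.l15 (xa T5.l15 T5.l0)) (xb T5.l0 (xa T5.l0 T5.l0))) (xa (xb (xa (xs T5.l0 T5.l0) (xs T5.l0 T5.l0)) (xa (xs T5.l0 (xc T5.l15 T5.l0)) (xs T5.l0 (xc T5.l0 T5.l0)))) (xb (xa (xs T5.l0 T5.l0) (xs T5.l0 T5.l0)) (xs (xa T5.l0 T5.l0) (xa (xc T5.l0 T5.l0) T5.l0))))) (xb (xa (xb T5.l0 T5.l0) (xb T5.l0 T5.l0)) (xa (xb (xs T5.l0 T5.l0) (xs (xa T5.l0 T5.l0) (xa T5.l0 T5.l0))) (xb (xs T5.l0 T5.l0) (xs (xa T5.l0 T5.l0) (xa T5.l0 T5.l0))))))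
  (TrL.c (I.pos (nat_lit 0) (nat_lit 0)) (xa (xb T0.l8 (xa T0.l8 T0.l8)) (xb T0.l8 (xa T0.l8 T0.l8)))
  (TrL.c (I.pos (nat_lit 0) (nat_lit 0)) T5.l10
  (TrL.c (I.pos (nat_lit 0) (nat_lit 0)) T0.l9
  (TrL.c (I.pos (nat_lit 0) (nat_lit 0)) (xa (xb T0.l10 T0.l10) (xb T0.l10 T0.l10))
  (TrL.c (I.pos (nat_lit 0) (nat_lit 0)) (xa T5.l11 T5.l11)
  (TrL.c (I.pos (nat_lit 0) (nat_lit 0)) T0.l11
  (TrL.c (I.pos (nat_lit 0) (nat_lit 0)) T5.l12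
  TrL.n)))))))) (by decide +kernel)
theorem bx3_1 : BoxOK sI cl5 cl9 cl4 t5 t0 b3_1 :=
  box_mk (TrL.c (I.pos (nat_lit 0) (nat_lit 0)) (xa (xb (xa T5.l13 T5.l13) (xa T5.l13 T5.l13)) (xb T5.l0 (xa (xb T5.l0 T5.l0) T5.l0)))
  (TrL.c (I.pos (nat_lit 0) (nat_lit 0)) T0.l8
  (TrL.c (I.pos (nat_lit 0) (nat_lit 0)) T5.l10
  (TrL.c (I.pos (nat_lit 0) (nat_lit 0)) T0.l9
  (TrL.c (I.pos (nat_lit 0) (nat_lit 0)) (xa T0.l12 (xb T0.l12 T0.l12))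
  (TrL.c (I.pos (nat_lit 0) (nat_lit 0)) T5.l11
  (TrL.c (I.pos (nat_lit 0) (nat_lit 0)) T0.l11
  (TrL.c (I.pos (nat_lit 0) (nat_lit 0)) T5.l12
  TrL.n)))))))) (by decide +kernel)
theorem bx3_2 : BoxOK sI cl5 cl9 cl4 t5 t0 b3_2 :=
  box_mk (TrL.c (I.pos (nat_lit 0) (nat_lit 0)) (xa (xa T5.l14 T5.l16) (xa T5.l16 T5.l16))
  (TrL.c (I.pos (nat_lit 0) (nat_lit 0)) (xa T0.l8 T0.l8)
  (TrL.c (I.pos (nat_lit 0) (nat_lit 0)) T5.l10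
  (TrL.c (I.pos (nat_lit 0) (nat_lit 0)) T0.l9
  (TrL.c (I.pos (nat_lit 0) (nat_lit 0)) (xa T0.l13 T0.l13)
  (TrL.c (I.pos (nat_lit 0) (nat_lit 0)) T5.l11
  (TrL.c (I.pos (nat_lit 0) (nat_lit 0)) T0.l11
  (TrL.c (I.pos (nat_lit 0) (nat_lit 0)) T5.l12
  TrL.n)))))))) (by decide +kernel)
theorem bx3_3 : BoxOK sI cl5 cl9 cl4 t5 t0 b3_3 :=
  box_mk (TrL.c (I.pos (nat_lit 0) (nat_lit 0)) (xb (xa (xb (xa T5.l15 T5.l15) (xa T5.l15 T5.l15)) (xb (xa T5.l15 (xb T5.l15 T5.l15)) (xa T5.l15 (xb T5.l15 (xs T5.l15 T5.l15))))) (xa (xb (xa (xs T5.l15 T5.l15) (xs T5.l15 T5.l15)) (xa (xs (xb T5.l15 T5.l15) (xb T5.l15 (xa T5.l15 T5.l15))) (xs (xb T5.l15 T5.l15) (xb T5.l15 (xa T5.l15 T5.l15))))) (xb (xa (xs T5.l15 T5.l15) (xs T5.l15 (xb T5.l15 T5.l15))) (xa (xs (xb T5.l15 T5.l15) (xb T5.l15 (xa T5.l15 T5.l15))) (xs (xb T5.l15 T5.l15) (xb (xa T5.l15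 T5.l15) (xa T5.l15 T5.l15)))))))
  (TrL.c (I.pos (nat_lit 0) (nat_lit 0)) (xb (xa T0.l8 T0.l8) (xa T0.l8 T0.l8))
  (TrL.c (I.pos (nat_lit 0) (nat_lit 0)) T5.l10
  (TrL.c (I.pos (nat_lit 0) (nat_lit 0)) T0.l9
  (TrL.c (I.pos (nat_lit 0) (nat_lit 0)) (xb (xa T0.l14 T0.l14) (xa T0.l14 T0.l14))
  (TrL.c (I.pos (nat_lit 0) (nat_lit 0)) (xb T5.l11 T5.l11)
  (TrL.c (I.pos (nat_lit 0) (nat_lit 0)) T0.l11
  (TrL.c (I.pos (nat_lit 0) (nat_lit 0)) T5.l12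
  TrL.n)))))))) (by decide +kernel)
theorem bx3_4 : BoxOK sI cl5 cl9 cl4 t5 t0 b3_4 :=
  box_mk (TrL.c (I.pos (nat_lit 0) (nat_lit 0)) (xa (xa (xb (xa T5.l16 T5.l16) (xa T5.l16 T5.l16)) (xb T5.l16 T5.l16)) (xa (xb (xa T5.l16 T5.l16) (xa T5.l16 T5.l16)) (xb (xa T5.l16 T5.l16) (xa T5.l16 (xb T5.l16 T5.l16)))))
  (TrL.c (I.pos (nat_lit 0) (nat_lit 0)) (xa (xa T0.l8 T0.l8) T0.l8)
  (TrL.c (I.pos (nat_lit 0) (nat_lit 0)) T5.l10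
  (TrL.c (I.pos (nat_lit 0) (nat_lit 0)) T0.l9
  (TrL.c (I.pos (nat_lit 0) (nat_lit 0)) (xa (xa T0.l8 T0.l15) (xa T0.l15 T0.l15))
  (TrL.c (I.pos (nat_lit 0) (nat_lit 0)) (xa T5.l11 T5.l11)
  (TrL.c (I.pos (nat_lit 0) (nat_lit 0)) T0.l11
  (TrL.c (I.pos (nat_lit 0) (nat_lit 0)) T5.l12
  TrL.n)))))))) (by decide +kernel)
theorem bx3_5 : BoxOK sI cl5 cl9 cl4 t5 t0 b3_5 :=
  box_mk (TrL.c (I.pos (nat_lit 0) (nat_lit 0)) (xa (xb (xa T5.l15 T5.l15) T5.l15) (xb (xb T5.l0 T5.l0) (xa T5.l15 T5.l0)))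
  (TrL.c (I.pos (nat_lit 0) (nat_lit 0)) (xb T0.l8 T0.l8)
  (TrL.c (I.pos (nat_lit 0) (nat_lit 0)) T5.l10
  (TrL.c (I.pos (nat_lit 0) (nat_lit 0)) T0.l9
  (TrL.c (I.pos (nat_lit 0) (nat_lit 0)) (xb T0.l14 T0.l14)
  (TrL.c (I.pos (nat_lit 0) (nat_lit 0)) T5.l11
  (TrL.c (I.pos (nat_lit 0) (nat_lit 0)) T0.l11
  (TrL.c (I.pos (nat_lit 0) (nat_lit 0)) T5.l12
  TrL.n)))))))) (by decide +kernel)
theorem bx3_6 : BoxOK sI cl5 cl9 cl4 t5 t0 b3_6 :=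
  box_mk (TrL.c (I.pos (nat_lit 0) (nat_lit 0)) (xa (xb (xa (xb T5.l15 T5.l15) (xb T5.l15 T5.l15)) (xa (xb T5.l15 T5.l15) (xb T5.l15 T5.l15))) (xb (xa (xb T5.l15 T5.l15) (xb T5.l15 T5.l15)) (xa (xb T5.l15 T5.l15) (xb T5.l15 T5.l15))))
  (TrL.c (I.pos (nat_lit 0) (nat_lit 0)) (xb T0.l8 (xa T0.l8 T0.l8))
  (TrL.c (I.pos (nat_lit 0) (nat_lit 0)) T5.l10
  (TrL.c (I.pos (nat_lit 0) (nat_lit 0)) T0.l9
  (TrL.c (I.pos (nat_lit 0) (nat_lit 0)) (xb T0.l14 T0.l14)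
  (TrL.c (I.pos (nat_lit 0) (nat_lit 0)) T5.l11
  (TrL.c (I.pos (nat_lit 0) (nat_lit 0)) T0.l11
  (TrL.c (I.pos (nat_lit 0) (nat_lit 0)) T5.l12
  TrL.n)))))))) (by decide +kernel)
theorem bx3_7 : BoxOK sI cl5 cl9 cl4 t5 t0 b3_7 :=
  box_mk (TrL.c (I.pos (nat_lit 0) (nat_lit 0)) (xa (xa T5.l17 T5.l14) (xa T5.l14 T5.l16))
  (TrL.c (I.pos (nat_lit 0) (nat_lit 0)) (xa T0.l8 T0.l8)
  (TrL.c (I.pos (nat_lit 0) (nat_lit 0)) T5.l10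
  (TrL.c (I.pos (nat_lit 0) (nat_lit 0)) T0.l9
  (TrL.c (I.pos (nat_lit 0) (nat_lit 0)) (xa T0.l16 T0.l15)
  (TrL.c (I.pos (nat_lit 0) (nat_lit 0)) T5.l11
  (TrL.c (I.pos (nat_lit 0) (nat_lit 0)) T0.l11
  (TrL.c (I.pos (nat_lit 0) (nat_lit 0)) T5.l12
  TrL.n)))))))) (by decide +kernel)
theorem bx3_8 : BoxOK sI cl5 cl9 cl4 t5 t0 b3_8 :=
  box_mk (TrL.c (I.pos (nat_lit 0) (nat_lit 0)) (xa (xb T5.l0 (xa T5.l19 T5.l0)) T5.l0)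
  (TrL.c (I.pos (nat_lit 0) (nat_lit 0)) T0.l8
  (TrL.c (I.pos (nat_lit 0) (nat_lit 0)) T5.l10
  (TrL.c (I.pos (nat_lit 0) (nat_lit 0)) T0.l9
  (TrL.c (I.pos (nat_lit 0) (nat_lit 0)) T0.l20
  (TrL.c (I.pos (nat_lit 0) (nat_lit 0)) T5.l11
  (TrL.c (I.pos (nat_lit 0) (nat_lit 0)) T0.l11
  (TrL.c (I.pos (nat_lit 0) (nat_lit 0)) T5.l12
  TrL.n)))))))) (by decide +kernel)
theorem bx3_9 : BoxOK sI cl5 cl9 cl4 t5 t0 b3_9 :=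
  box_mk (TrL.c (I.pos (nat_lit 0) (nat_lit 0)) (xa T5.l0 T5.l15)
  (TrL.c (I.pos (nat_lit 0) (nat_lit 0)) T0.l8
  (TrL.c (I.pos (nat_lit 0) (nat_lit 0)) T5.l10
  (TrL.c (I.pos (nat_lit 0) (nat_lit 0)) T0.l9
  (TrL.c (I.pos (nat_lit 0) (nat_lit 0)) T0.l14
  (TrL.c (I.pos (nat_lit 0) (nat_lit 0)) T5.l11
  (TrL.c (I.pos (nat_lit 0) (nat_lit 0)) T0.l11
  (TrL.c (I.pos (nat_lit 0) (nat_lit 0)) T5.l12
  TrL.n)))))))) (by decide +kernel)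
theorem bx3_10 : BoxOK sI cl5 cl9 cl4 t5 t0 b3_10 :=
  box_mk (TrL.c (I.pos (nat_lit 0) (nat_lit 0)) (xa (xa T5.l16 T5.l16) (xa (xb T5.l16 T5.l16) (xb (xa T5.l16 T5.l18) (xa T5.l16 T5.l18))))
  (TrL.c (I.pos (nat_lit 0) (nat_lit 0)) (xa T0.l8 T0.l8)
  (TrL.c (I.pos (nat_lit 0) (nat_lit 0)) T5.l10
  (TrL.c (I.pos (nat_lit 0) (nat_lit 0)) T0.l9
  (TrL.c (I.pos (nat_lit 0) (nat_lit 0)) (xa T0.l15 T0.l17)
  (TrL.c (I.pos (nat_lit 0) (nat_lit 0)) T5.l11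
  (TrL.c (I.pos (nat_lit 0) (nat_lit 0)) T0.l11
  (TrL.c (I.pos (nat_lit 0) (nat_lit 0)) T5.l12
  TrL.n)))))))) (by decide +kernel)
theorem bx3_11 : BoxOK sI cl5 cl9 cl4 t5 t0 b3_11 :=
  box_mk (TrL.c (I.pos (nat_lit 0) (nat_lit 0)) (xb (xa T5.l13 (xb T5.l0 T5.l13)) (xa (xb T5.l13 T5.l19) (xb T5.l19 T5.l19)))
  (TrL.c (I.pos (nat_lit 0) (nat_lit 0)) T0.l8
  (TrL.c (I.pos (nat_lit 0) (nat_lit 0)) T5.l10
  (TrL.c (I.pos (nat_lit 0) (nat_lit 0)) T0.l9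
  (TrL.c (I.pos (nat_lit 0) (nat_lit 0)) (xb T0.l12 T0.l18)
  (TrL.c (I.pos (nat_lit 0) (nat_lit 0)) T5.l11
  (TrL.c (I.pos (nat_lit 0) (nat_lit 0)) T0.l11
  (TrL.c (I.pos (nat_lit 0) (nat_lit 0)) T5.l12
  TrL.n)))))))) (by decide +kernel)
theorem bx3_12 : BoxOK sI cl5 cl9 cl4 t5 t0 b3_12 :=
  box_mk (TrL.c (I.pos (nat_lit 0) (nat_lit 0)) (xa (xa T5.l20 T5.l20) T5.l16)
  (TrL.c (I.pos (nat_lit 0) (nat_lit 0)) (xa T0.l8 T0.l8)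
  (TrL.c (I.pos (nat_lit 0) (nat_lit 0)) T5.l10
  (TrL.c (I.pos (nat_lit 0) (nat_lit 0)) T0.l9
  (TrL.c (I.pos (nat_lit 0) (nat_lit 0)) (xa T0.l19 T0.l13)
  (TrL.c (I.pos (nat_lit 0) (nat_lit 0)) T5.l11
  (TrL.c (I.pos (nat_lit 0) (nat_lit 0)) T0.l11
  (TrL.c (I.pos (nat_lit 0) (nat_lit 0)) T5.l12
  TrL.n)))))))) (by decide +kernel)
theorem bx3_13 : BoxOK sI cl5 cl9 cl4 t5 t0 b3_13 :=
  box_mk (TrL.c (I.pos (nat_lit 0) (nat_lit 0)) (xa (xb T5.l0 T5.l0) (xb (xa T5.l0 T5.l0) (xa T5.l0 (xs T5.l0 T5.l0))))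
  (TrL.c (I.pos (nat_lit 0) (nat_lit 0)) T0.l8
  (TrL.c (I.pos (nat_lit 0) (nat_lit 0)) T5.l10
  (TrL.c (I.pos (nat_lit 0) (nat_lit 0)) T0.l9
  (TrL.c (I.pos (nat_lit 0) (nat_lit 0)) T0.l10
  (TrL.c (I.pos (nat_lit 0) (nat_lit 0)) T5.l11
  (TrL.c (I.pos (nat_lit 0) (nat_lit 0)) T0.l11
  (TrL.c (I.pos (nat_lit 0) (nat_lit 0)) T5.l12
  TrL.n)))))))) (by decide +kernel)
theorem bx3_14 : BoxOK sI cl5 cl9 cl4 t5 t0 b3_14 :=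
  box_mk (TrL.c (I.pos (nat_lit 0) (nat_lit 0)) T5.l18
  (TrL.c (I.pos (nat_lit 0) (nat_lit 0)) T0.l8
  (TrL.c (I.pos (nat_lit 0) (nat_lit 0)) T5.l10
  (TrL.c (I.pos (nat_lit 0) (nat_lit 0)) T0.l9
  (TrL.c (I.pos (nat_lit 0) (nat_lit 0)) T0.l12
  (TrL.c (I.pos (nat_lit 0) (nat_lit 0)) T5.l11
  (TrL.c (I.pos (nat_lit 0) (nat_lit 0)) T0.l11
  (TrL.c (I.pos (nat_lit 0) (nat_lit 0)) T5.l12
  TrL.n)))))))) (by decide +kernel)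
theorem bx3_15 : BoxOK sI cl5 cl9 cl4 t5 t0 b3_15 :=
  box_mk (TrL.c (I.pos (nat_lit 0) (nat_lit 0)) T5.l16
  (TrL.c (I.pos (nat_lit 0) (nat_lit 0)) T0.l8
  (TrL.c (I.pos (nat_lit 0) (nat_lit 0)) T5.l10
  (TrL.c (I.pos (nat_lit 0) (nat_lit 0)) T0.l9
  (TrL.c (I.pos (nat_lit 0) (nat_lit 0)) (xa T0.l8 T0.l13)
  (TrL.c (I.pos (nat_lit 0) (nat_lit 0)) T5.l11
  (TrL.c (I.pos (nat_lit 0) (nat_lit 0)) T0.l11
  (TrL.c (I.pos (nat_lit 0) (nat_lit 0)) T5.l12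
  TrL.n)))))))) (by decide +kernel)
theorem bx3_16 : BoxOK sI cl5 cl9 cl4 t5 t0 b3_16 :=
  box_mk (TrL.c (I.pos (nat_lit 0) (nat_lit 0)) (xa (xb (xa (xb (xs T5.l0 T5.l0) (xs T5.l0 T5.l0)) (xb (xs T5.l0 T5.l0) (xs T5.l0 T5.l0))) (xa (xs (xb T5.l0 T5.l0) (xb (xa T5.l0 T5.l0) (xa T5.l0 T5.l0))) (xs (xb T5.l0 T5.l0) (xb T5.l0 (xa T5.l0 T5.l0))))) (xb (xa (xb T5.l0 (xs T5.l0 T5.l0)) (xb T5.l0 (xs T5.l0 T5.l0))) (xa (xs (xb T5.l0 T5.l0) (xb (xa T5.l0 T5.l0) (xa T5.l0 T5.l0))) (xs (xb T5.l0 T5.l0) (xb (xa T5.l0 T5.l0) (xa T5.l0 T5.l0))))))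
  (TrL.c (I.pos (nat_lit 0) (nat_lit 0)) (xa (xb T0.l8 T0.l8) (xb T0.l8 T0.l8))
  (TrL.c (I.pos (nat_lit 0) (nat_lit 0)) T5.l10
  (TrL.c (I.pos (nat_lit 0) (nat_lit 0)) T0.l9
  (TrL.c (I.pos (nat_lit 0) (nat_lit 0)) (xa T0.l10 T0.l10)
  (TrL.c (I.pos (nat_lit 0) (nat_lit 0)) T5.l11
  (TrL.c (I.pos (nat_lit 0) (nat_lit 0)) T0.l11
  (TrL.c (I.pos (nat_lit 0) (nat_lit 0)) T5.l12
  TrL.n)))))))) (by decide +kernel)
theorem bx3_17 : BoxOK sI cl5 cl9 cl4 t5 t0 b3_17 :=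
  box_mk (TrL.c (I.pos (nat_lit 0) (nat_lit 0)) (xa (xb (xa (xs T5.l0 T5.l0) T5.l3) (xs (xa T5.l0 T5.l0) (xa T5.l0 T5.l3))) (xb T5.l3 T5.l3))
  (TrL.c (I.pos (nat_lit 0) (nat_lit 0)) (xa T0.l8 T0.l2)
  (TrL.c (I.pos (nat_lit 0) (nat_lit 0)) T5.l10
  (TrL.c (I.pos (nat_lit 0) (nat_lit 0)) T0.l3
  (TrL.c (I.pos (nat_lit 0) (nat_lit 0)) (xa T0.l10 T0.l10)
  (TrL.c (I.pos (nat_lit 0) (nat_lit 0)) T5.l1
  (TrL.c (I.pos (nat_lit 0) (nat_lit 0)) T0.l1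
  (TrL.c (I.pos (nat_lit 0) (nat_lit 0)) T5.l12
  TrL.n)))))))) (by decide +kernel)
theorem bx3_18 : BoxOK sI cl5 cl9 cl4 t5 t0 b3_18 :=
  box_mk (TrL.c (I.pos (nat_lit 0) (nat_lit 0)) (xa (xb (xa T5.l0 (xb T5.l0 T5.l0)) (xa T5.l0 (xs T5.l0 (xb T5.l0 T5.l0)))) (xb (xa (xs T5.l3 T5.l3) T5.l3) (xa (xs (xb T5.l0 T5.l0) T5.l3) T5.l3)))
  (TrL.c (I.pos (nat_lit 0) (nat_lit 0)) (xa T0.l8 (xb T0.l8 T0.l2))
  (TrL.c (I.pos (nat_lit 0) (nat_lit 0)) T5.l10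
  (TrL.c (I.pos (nat_lit 0) (nat_lit 0)) T0.l3
  (TrL.c (I.pos (nat_lit 0) (nat_lit 0)) (xa T0.l10 (xb T0.l10 T0.l10))
  (TrL.c (I.pos (nat_lit 0) (nat_lit 0)) (xa T5.l11 T5.l1)
  (TrL.c (I.pos (nat_lit 0) (nat_lit 0)) T0.l1
  (TrL.c (I.pos (nat_lit 0) (nat_lit 0)) T5.l12
  TrL.n)))))))) (by decide +kernel)
theorem bx3_19 : BoxOK sI cl5 cl9 cl4 t5 t0 b3_19 :=
  box_mk (TrL.c (I.pos (nat_lit 0) (nat_lit 0)) (xa (xb T5.l0 T5.l0) (xb (xa T5.l0 (xb T5.l0 (xs T5.l0 T5.l0))) (xa T5.l0 (xs T5.l0 T5.l3))))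
  (TrL.c (I.pos (nat_lit 0) (nat_lit 0)) T0.l8
  (TrL.c (I.pos (nat_lit 0) (nat_lit 0)) T5.l10
  (TrL.c (I.pos (nat_lit 0) (nat_lit 0)) T0.l9
  (TrL.c (I.pos (nat_lit 0) (nat_lit 0)) (xa T0.l10 T0.l10)
  (TrL.c (I.pos (nat_lit 0) (nat_lit 0)) T5.l11
  (TrL.c (I.pos (nat_lit 0) (nat_lit 0)) T0.l11
  (TrL.c (I.pos (nat_lit 0) (nat_lit 0)) T5.l12
  TrL.n)))))))) (by decide +kernel)
theorem bx3_20 : BoxOK sI cl5 cl9 cl4 t5 t0 b3_20 :=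
  box_mk (TrL.c (I.pos (nat_lit 0) (nat_lit 0)) (xa T5.l0 T5.l0)
  (TrL.c (I.pos (nat_lit 0) (nat_lit 0)) T0.l8
  (TrL.c (I.pos (nat_lit 0) (nat_lit 0)) T5.l10
  (TrL.c (I.pos (nat_lit 0) (nat_lit 0)) T0.l9
  (TrL.c (I.pos (nat_lit 0) (nat_lit 0)) T0.l10
  (TrL.c (I.pos (nat_lit 0) (nat_lit 0)) T5.l11
  (TrL.c (I.pos (nat_lit 0) (nat_lit 0)) T0.l11
  (TrL.c (I.pos (nat_lit 0) (nat_lit 0)) T5.l12
  TrL.n)))))))) (by decide +kernel)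
theorem bx3_21 : BoxOK sI cl5 cl9 cl4 t5 t0 b3_21 :=
  box_mk (TrL.c (I.pos (nat_lit 0) (nat_lit 0)) T5.l15
  (TrL.c (I.pos (nat_lit 0) (nat_lit 0)) T0.l8
  (TrL.c (I.pos (nat_lit 0) (nat_lit 0)) T5.l10
  (TrL.c (I.pos (nat_lit 0) (nat_lit 0)) T0.l9
  (TrL.c (I.pos (nat_lit 0) (nat_lit 0)) T0.l14
  (TrL.c (I.pos (nat_lit 0) (nat_lit 0)) T5.l11
  (TrL.c (I.pos (nat_lit 0) (nat_lit 0)) T0.l11
  (TrL.c (I.pos (nat_lit 0) (nat_lit 0)) T5.l12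
  TrL.n)))))))) (by decide +kernel)
theorem sv3 : StarV sI cl5 cl9 cl4 t5 t0 t3 :=
  (bt_n (bt_n (bt_n (bt_n (bt_b bx3_0) (bt_b bx3_1)) (bt_n (bt_b bx3_2) (bt_n (bt_b bx3_3) (bt_b bx3_4)))) (bt_n (bt_n (bt_b bx3_5) (bt_n (bt_b bx3_6) (bt_b bx3_7))) (bt_n (bt_b bx3_8) (bt_n (bt_b bx3_9) (bt_b bx3_10))))) (bt_n (bt_n (bt_n (bt_b bx3_11) (bt_b bx3_12)) (bt_n (bt_b bx3_13) (bt_n (bt_b bx3_14) (bt_b bx3_15)))) (bt_n (bt_n (bt_b bx3_16) (bt_n (bt_b bx3_17) (bt_b bx3_18))) (bt_n (bt_b bx3_19) (bt_n (bt_b bx3_20) (bt_b bx3_21))))))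
def S3 : StarD := StarD.mk cl5 cl9 cl4 5 0 t3
theorem c4_0_0 : chkTag sI cl9 cl4 cl5 t1 b4_0 (tg true true false RT.r2) (I.pos (nat_lit 0) (nat_lit 0))
  (xa (xb (xa T1.l5 (xb T1.l0 T1.l0)) (xa (xb T1.l5 (xs (xa T1.l5 T1.l0) (xa T1.l0 (xb T1.l0 T1.l0)))) (xb (xa T1.l0 T1.l0) (xa (xs T1.l0 (xb T1.l0 T1.l0)) (xs T1.l0 (xb T1.l0 T1.l0)))))) (xb (xa T1.l0 (xb T1.l0 T1.l0)) (xa (xb (xa T1.l0 T1.l0) (xs (xa T1.l0 T1.l0) (xa (xb T1.l0 T1.l0) (xb T1.l0 T1.l0)))) (xb (xs T1.l0 T1.l0) (xs (xa T1.l0 (xk T1.l0 T1.l0)) (xa (xb T1.l0 T1.l0) (xb T1.l0 (xk T1.l0 T1.l0)))))))) = true := by decide +kernel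
theorem c4_0_1 : chkTag sI cl9 cl4 cl5 t3 b4_0 (tg true false false RT.r3) (I.pos (nat_lit 0) (nat_lit 0))
  (xa (xb T3.l1 (xk T3.l1 T3.l1)) (xb T3.l1 (xk (xa T3.l1 T3.l1) T3.l1))) = true := by decide +kernel
theorem c4_0_2 : chkTag sI cl9 cl4 cl5 t1 b4_0 (Tag.mk true true false RT.tl RT.r4) (I.pos (nat_lit 0) (nat_lit 124588530))
  (xR (xR T1.l12 T1.l1) (xR T1.l1 (xR T1.l1 (xa T1.l1 (xb T1.l1 T1.l1))))) = true := by decide +kernel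
theorem c4_0_3 : chkTag sI cl9 cl4 cl5 t3 b4_0 (Tag.mk true false false RT.tl RT.r5) (I.pos (nat_lit 0) (nat_lit 96881482))
  (xR (xR T3.l4 T3.l2) (xR T3.l2 T3.l2)) = true := by decide +kernel
def rc4_0_4_l : Tr := (xa (xk T3.l6 T3.l6) (xk (xb T3.l3 (xa T3.l3 T3.l3)) (xb T3.l3 (xa T3.l3 (xk T3.l3 T3.l3)))))
theorem qc4_0_4_l : chkTr (tg false false false RT.r3) b4_0 t3 rc4_0_4_l
  (upd lo Co.b (rc sI cl9 cl4 cl5 b4_0 (I.pos (nat_lit 0) (nat_lit 0)))) = true := by decide +kernel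
def rc4_0_4_rl : Tr := (xb (xk (xa T3.l3 T3.l3) (xa T3.l3 (xk T3.l3 T3.l3))) (xk (xa (xk T3.l3 T3.l3) (xs T3.l3 (xk T3.l3 (xb T3.l3 T3.l3)))) (xa (xs T3.l3 (xk T3.l3 T3.l3)) (xs (xk T3.l3 (xa T3.l3 T3.l3)) (xb (xk T3.l3 T3.l3) (xk (xa T3.l3 T3.l3) (xa T3.l3 T3.l3)))))))
theorem qc4_0_4_rl : chkTr (tg false false false RT.r3) b4_0 t3 rc4_0_4_rl
  (upd lo Co.a (upd hi Co.b (rc sI cl9 cl4 cl5 b4_0 (I.pos (nat_lit 0) (nat_lit 0))))) = true := by decide +kernel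
def rc4_0_4_rrl : Tr := (xb (xa (xk T3.l3 (xa T3.l3 T3.l3)) (xs (xk T3.l3 T3.l3) (xk (xa T3.l3 T3.l3) (xb T3.l3 T3.l3)))) (xa (xs (xk (xa T3.l3 T3.l3) (xb T3.l3 T3.l3)) (xb (xk T3.l3 T3.l3) (xk (xa T3.l3 T3.l3) (xa T3.l3 (xk T3.l3 T3.l3))))) (xs (xb (xk T3.l3 (xa T3.l3 T3.l3)) (xk (xa T3.l3 (xk T3.l3 T3.l3)) (xa (xk T3.l3 T3.l3) (xs T3.l3 (xk T3.l3 T3.l3))))) (xb (xk (xa T3.l3 (xk T3.l3 T3.l3)) (xa T3.l3 (xk T3.l3 (xc T3.l3 T3.l3)))) (xk (xa (xk T3.l3 (xc T3.l3 T3.l3)) (xs (xk T3.l3 T3.l3) (xk T3.l3 (xc T3.l3 T3.l3)))) (xa (xs T3.l3 (xk T3.l3 T3.l3)) (xs (xk T3.l3 (xc T3.l3 T3.l3)) (xb (xk T3.l3 T3.l3) (xk T3.l3 (xc T3.l3 T3.l3))))))))))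
theorem qc4_0_4_rrl : chkTr (tg false false false RT.r3) b4_0 t3 rc4_0_4_rrl
  (upd lo Co.k (upd hi Co.a (upd hi Co.b (rc sI cl9 cl4 cl5 b4_0 (I.pos (nat_lit 0) (nat_lit 0)))))) = true := by decide +kernel
def rc4_0_4_rrrl : Tr := (xa (xs T3.l3 (xk T3.l3 (xa T3.l3 T3.l3))) (xs (xk (xa T3.l3 T3.l3) (xa T3.l3 T3.l3)) (xb (xk T3.l3 T3.l3) (xk (xa T3.l3 T3.l3) (xa T3.l3 (xk T3.l3 T3.l3))))))
theorem qc4_0_4_rrrl : chkTr (tg false false false RT.r3) b4_0 t3 rc4_0_4_rrrl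
  (upd lo Co.b (upd hi Co.k (upd hi Co.a (upd hi Co.b (rc sI cl9 cl4 cl5 b4_0 (I.pos (nat_lit 0) (nat_lit 0))))))) = true := by decide +kernel
def rc4_0_4_rrrrl : Tr := (xs (xb (xk T3.l3 T3.l3) (xk (xa T3.l3 T3.l3) (xa T3.l3 (xk T3.l3 T3.l3)))) (xb (xk (xa T3.l3 T3.l3) (xa T3.l3 T3.l3)) (xk (xa (xk T3.l3 T3.l3) (xs T3.l3 (xk T3.l3 T3.l3))) (xa (xs T3.l3 T3.l3) (xs (xk T3.l3 T3.l3) (xk T3.l3 (xc T3.l3 T3.l3)))))))
theorem qc4_0_4_rrrrl : chkTr (tg false false false RT.r3) b4_0 t3 rc4_0_4_rrrrl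
  (upd lo Co.a (upd hi Co.b (upd hi Co.k (upd hi Co.a (upd hi Co.b (rc sI cl9 cl4 cl5 b4_0 (I.pos (nat_lit 0) (nat_lit 0)))))))) = true := by decide +kernel
def rc4_0_4_rrrrr : Tr := (xs (xb (xk (xa T3.l3 T3.l3) (xa T3.l3 (xk T3.l3 T3.l3))) (xk (xa (xk T3.l3 (xs T3.l3 T3.l3)) (xs T3.l3 (xk T3.l3 (xc T3.l3 T3.l3)))) (xa (xs T3.l3 (xk T3.l3 T3.l3)) (xs (xk T3.l3 T3.l3) (xk (xc T3.l3 T3.l3) (xb T3.l3 T3.l3)))))) (xb (xk (xa (xk T3.l3 T3.l3) (xs T3.l3 (xk T3.l3 T3.l3))) (xa (xk T3.l3 (xc T3.l3 T3.l3)) (xs (xk T3.l3 T3.l3) (xk T3.l3 (xc T3.l3 T3.l3))))) (xk (xa (xs (xk T3.l3 T3.l3) (xk (xc T3.l3 T3.l3) (xc T3.l3 T3.l3))) (xs (xb T3.l3 (xk T3.l3 (xc T3.l3 T3.l3))) (xb (xk T3.l3 T3.l3) (xk (xc T3.l3 T3.l3) (xc (xa T3.l3 T3.l3) (xa T3.l3 T3.l3)))))) (xa (xs (xk (xc T3.l3 T3.l3) (xc T3.l3 T3.l3)) (xb (xk T3.l3 T3.l3) (xk (xc T3.l3 T3.l3)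 (xc T3.l3 T3.l3)))) (xs (xb (xk T3.l3 T3.l3) (xk (xc T3.l3 T3.l3) (xc (xa T3.l3 T3.l3) T3.l3))) (xb (xk (xc T3.l3 T3.l3) (xc T3.l3 T3.l3)) (xk (xa (xc T3.l3 T3.l3) (xc T3.l3 T3.l3)) (xa (xc T3.l3 T3.l3) (xc (xk T3.l3 T3.l3) T3.l3)))))))))
theorem qc4_0_4_rrrrr : chkTr (tg false false false RT.r3) b4_0 t3 rc4_0_4_rrrrr
  (upd hi Co.a (upd hi Co.b (upd hi Co.k (upd hi Co.a (upd hi Co.b (rc sI cl9 cl4 cl5 b4_0 (I.pos (nat_lit 0) (nat_lit 0)))))))) = true := by decide +kernel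
theorem qc4_0_4_rrrr : chkTr (tg false false false RT.r3) b4_0 t3 (Tr.N Co.a rc4_0_4_rrrrl rc4_0_4_rrrrr)
  (upd hi Co.b (upd hi Co.k (upd hi Co.a (upd hi Co.b (rc sI cl9 cl4 cl5 b4_0 (I.pos (nat_lit 0) (nat_lit 0))))))) = true := tr_split qc4_0_4_rrrrl qc4_0_4_rrrrr
theorem qc4_0_4_rrr : chkTr (tg false false false RT.r3) b4_0 t3 (Tr.N Co.b rc4_0_4_rrrl (Tr.N Co.a rc4_0_4_rrrrl rc4_0_4_rrrrr))
  (upd hi Co.k (upd hi Co.a (upd hi Co.b (rc sI cl9 cl4 cl5 b4_0 (I.pos (nat_lit 0) (nat_lit 0)))))) = true := tr_split qc4_0_4_rrrl qc4_0_4_rrrr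
theorem qc4_0_4_rr : chkTr (tg false false false RT.r3) b4_0 t3 (Tr.N Co.k rc4_0_4_rrl (Tr.N Co.b rc4_0_4_rrrl (Tr.N Co.a rc4_0_4_rrrrl rc4_0_4_rrrrr)))
  (upd hi Co.a (upd hi Co.b (rc sI cl9 cl4 cl5 b4_0 (I.pos (nat_lit 0) (nat_lit 0))))) = true := tr_split qc4_0_4_rrl qc4_0_4_rrr
theorem qc4_0_4_r : chkTr (tg false false false RT.r3) b4_0 t3 (Tr.N Co.a rc4_0_4_rl (Tr.N Co.k rc4_0_4_rrl (Tr.N Co.b rc4_0_4_rrrl (Tr.N Co.a rc4_0_4_rrrrl rc4_0_4_rrrrr))))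
  (upd hi Co.b (rc sI cl9 cl4 cl5 b4_0 (I.pos (nat_lit 0) (nat_lit 0)))) = true := tr_split qc4_0_4_rl qc4_0_4_rr
theorem qc4_0_4_ : chkTr (tg false false false RT.r3) b4_0 t3 (Tr.N Co.b rc4_0_4_l (Tr.N Co.a rc4_0_4_rl (Tr.N Co.k rc4_0_4_rrl (Tr.N Co.b rc4_0_4_rrrl (Tr.N Co.a rc4_0_4_rrrrl rc4_0_4_rrrrr)))))
  (rc sI cl9 cl4 cl5 b4_0 (I.pos (nat_lit 0) (nat_lit 0))) = true := tr_split qc4_0_4_l qc4_0_4_r
theorem c4_0_4 : chkTag sI cl9 cl4 cl5 t3 b4_0 (tg false false false RT.r3) (I.pos (nat_lit 0) (nat_lit 0))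
  (Tr.N Co.b rc4_0_4_l (Tr.N Co.a rc4_0_4_rl (Tr.N Co.k rc4_0_4_rrl (Tr.N Co.b rc4_0_4_rrrl (Tr.N Co.a rc4_0_4_rrrrl rc4_0_4_rrrrr))))) = true := tag_mk (by decide +kernel) qc4_0_4_
theorem c4_0_5 : chkTag sI cl9 cl4 cl5 t1 b4_0 (tg false true false RT.r4) (I.pos (nat_lit 0) (nat_lit 0))
  (xk T1.l2 T1.l2) = true := by decide +kernel
theorem c4_0_6 : chkTag sI cl9 cl4 cl5 t3 b4_0 (Tag.mk false false false RT.tl RT.r5) (I.mix (nat_lit 17240550) (nat_lit 96881482))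
  (xR (xR T3.l4 T3.l4) (xR T3.l4 (xR T3.l4 (xk T3.l4 T3.l4)))) = true := by decide +kernel
theorem c4_0_7 : chkTag sI cl9 cl4 cl5 t1 b4_0 (Tag.mk false true false RT.tl RT.r6) (I.mix (nat_lit 17240550) (nat_lit 71940500))
  (xR (xR T1.l3 T1.l3) (xR T1.l3 (xR T1.l3 T1.l3))) = true := by decide +kernel
theorem bx4_0 : BoxOK sI cl9 cl4 cl5 t1 t3 b4_0 :=
  box_mk' [(tg true true false RT.r2), (tg true false false RT.r3), (Tag.mk true true false RT.tl RT.r4), (Tag.mk true false false RT.tl RT.r5), (tg false false false RT.r3), (tg false true false RT.r4), (Tag.mk false false false RT.tl RT.r5), (Tag.mk false true false RT.tl RT.r6)] rfl (allL_c (ex_mk c4_0_0) (allL_c (ex_mk c4_0_1) (allL_c (ex_mk c4_0_2) (allL_c (ex_mk c4_0_3) (allL_c (ex_mk c4_0_4) (allL_c (ex_mk c4_0_5) (allL_c (ex_mk c4_0_6) (allL_c (ex_mk c4_0_7) allL_n))))))))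
theorem bx4_1 : BoxOK sI cl9 cl4 cl5 t1 t3 b4_1 :=
  box_mk (TrL.c (I.pos (nat_lit 0) (nat_lit 0)) (xb (xa (xb (xa (xs (xb (xa (xk T1.l4 T1.l4) T1.l4) T1.l4) (xb (xa (xs (xk T1.l4 (xc T1.l4 T1.l4)) (xb (xk (xc (xa T1.l4 T1.l4) T1.l4) (xc (xa (xk T1.l4 T1.l4) T1.l4) (xa (xk T1.l4 T1.l4) T1.l4))) (xk T1.l4 T1.l4))) (xs T1.l4 (xk (xc T1.l4 T1.l4) (xb (xc T1.l4 T1.l4) T1.l4)))) (xa (xk T1.l4 T1.l4) T1.l4))) (xs T1.l4 (xb (xa (xk T1.l4 (xc T1.l4 T1.l4)) (xk T1.l4 T1.l4)) T1.l4))) (xa (xa T1.l4 T1.l4) T1.l4)) (xb (xa (xs T1.l4 (xb T1.l4 T1.l4)) (xa T1.l4 T1.l4)) T1.l4)) (xa (xa T1.l4 T1.l4) (xa T1.l4 T1.l4)))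
  (TrL.c (I.pos (nat_lit 0) (nat_lit 0)) (xb (xa T3.l8 T3.l1) (xa T3.l1 T3.l1))
  (TrL.c (I.pos (nat_lit 0) (nat_lit 124588530)) (xR (xR T1.l12 T1.l1) (xR T1.l1 (xR T1.l1 (xb T1.l1 T1.l1))))
  (TrL.c (I.pos (nat_lit 0) (nat_lit 96881482)) (xR (xR T3.l4 T3.l4) (xR T3.l4 (xR T3.l2 T3.l2)))
  (TrL.c (I.pos (nat_lit 0) (nat_lit 0)) (xa (xb T3.l5 T3.l5) (xb T3.l5 T3.l5))
  (TrL.c (I.pos (nat_lit 0) (nat_lit 0)) T1.l2
  (TrL.c (I.mix (nat_lit 17240550) (nat_lit 96881482)) (xR T3.l4 (xR T3.l4 (xR T3.l4 T3.l4)))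
  (TrL.c (I.mix (nat_lit 17240550) (nat_lit 71940500)) T1.l12
  TrL.n)))))))) (by decide +kernel)
theorem c4_2_0 : chkTag sI cl9 cl4 cl5 t1 b4_2 (tg true true false RT.r2) (I.pos (nat_lit 0) (nat_lit 0))
  (xb (xa (xb (xa T1.l5 T1.l5) T1.l5) (xb (xa T1.l5 T1.l5) (xa T1.l5 T1.l5))) (xa (xb (xa (xb T1.l5 T1.l5) T1.l5) (xa (xb T1.l5 (xs T1.l5 T1.l5)) (xb T1.l5 (xs T1.l5 T1.l5)))) (xb (xa T1.l5 (xb T1.l5 T1.l5)) (xa (xb T1.l5 (xs T1.l5 T1.l5)) (xb (xs T1.l5 T1.l5) (xs T1.l5 (xa T1.l5 T1.l5))))))) = true := by decide +kernel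
theorem c4_2_1 : chkTag sI cl9 cl4 cl5 t3 b4_2 (tg true false false RT.r3) (I.pos (nat_lit 0) (nat_lit 0))
  (xb (xa T3.l1 T3.l1) (xa (xk T3.l1 T3.l1) (xk T3.l1 T3.l1))) = true := by decide +kernel
theorem c4_2_2 : chkTag sI cl9 cl4 cl5 t1 b4_2 (Tag.mk true true false RT.tl RT.r4) (I.pos (nat_lit 0) (nat_lit 124588530))
  (xR (xR T1.l12 T1.l1) (xR T1.l1 (xb (xR T1.l1 T1.l1) (xR T1.l1 (xa T1.l1 T1.l1))))) = true := by decide +kernel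
theorem c4_2_3 : chkTag sI cl9 cl4 cl5 t3 b4_2 (Tag.mk true false false RT.tl RT.r5) (I.pos (nat_lit 0) (nat_lit 96881482))
  (xR (xR T3.l2 T3.l2) (xR T3.l2 (xR T3.l2 T3.l2))) = true := by decide +kernel
def rc4_2_4_l : Tr := (xb (xa T3.l6 T3.l6) (xa T3.l6 (xk T3.l6 T3.l6)))
theorem qc4_2_4_l : chkTr (tg false false false RT.r3) b4_2 t3 rc4_2_4_l
  (upd lo Co.b (rc sI cl9 cl4 cl5 b4_2 (I.pos (nat_lit 0) (nat_lit 0)))) = true := by decide +kernel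
def rc4_2_4_rl : Tr := (xa (xk T3.l6 (xa T3.l6 T3.l6)) (xk (xa (xk T3.l6 T3.l6) (xb T3.l6 (xk T3.l6 (xa T3.l6 T3.l6)))) (xb (xa T3.l6 T3.l6) (xa (xk T3.l6 T3.l6) (xs T3.l6 (xk T3.l6 (xa T3.l6 T3.l6)))))))
theorem qc4_2_4_rl : chkTr (tg false false false RT.r3) b4_2 t3 rc4_2_4_rl
  (upd lo Co.b (upd hi Co.b (rc sI cl9 cl4 cl5 b4_2 (I.pos (nat_lit 0) (nat_lit 0))))) = true := by decide +kernel
def rc4_2_4_rrl : Tr := (xk (xb (xa T3.l6 (xs T3.l3 T3.l3)) (xa (xk T3.l6 T3.l6) (xs T3.l6 (xk T3.l6 (xa T3.l6 T3.l6))))) (xb (xa T3.l6 (xk T3.l6 (xa T3.l6 T3.l6))) (xa (xs T3.l6 (xk T3.l6 (xb T3.l3 T3.l3))) (xs (xk T3.l6 T3.l6) (xk (xa T3.l6 (xk T3.l6 T3.l6)) (xa (xk T3.l6 T3.l6) (xb T3.l6 (xk T3.l6 T3.l6))))))))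
theorem qc4_2_4_rrl : chkTr (tg false false false RT.r3) b4_2 t3 rc4_2_4_rrl
  (upd lo Co.a (upd hi Co.b (upd hi Co.b (rc sI cl9 cl4 cl5 b4_2 (I.pos (nat_lit 0) (nat_lit 0)))))) = true := by decide +kernel
def rc4_2_4_rrrl : Tr := (xb (xa (xk (xa T3.l6 T3.l6) (xs T3.l6 T3.l6)) (xs (xk T3.l6 T3.l6) (xk (xa T3.l6 T3.l6) (xa T3.l6 (xk T3.l6 T3.l6))))) (xa (xs (xk T3.l6 (xs T3.l3 T3.l3)) (xk (xa T3.l6 (xk T3.l6 (xb T3.l3 T3.l3))) (xb (xa T3.l6 T3.l6) (xa T3.l6 (xk T3.l6 T3.l6))))) (xs (xk (xa T3.l6 (xk T3.l6 T3.l6)) (xa (xk T3.l6 T3.l6) (xk (xb T3.l6 T3.l6) (xb T3.l6 T3.l6)))) (xk (xb (xa T3.l6 (xk T3.l6 T3.l6)) (xa (xk T3.l6 (xs T3.l3 T3.l3)) (xs T3.l6 (xk T3.l6 (xb T3.l3 T3.l3))))) (xb (xa (xk T3.l6 T3.l6) (xk (xs T3.l3 T3.l3) (xc T3.l6 T3.l6))) (xa (xs T3.l6 (xk T3.l6 T3.l6)) (xs (xk T3.l6 T3.l6) (xk (xc T3.l6 T3.l6) (xc (xa T3.l6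 T3.l6) (xb T3.l0 T3.l0))))))))))
theorem qc4_2_4_rrrl : chkTr (tg false false false RT.r3) b4_2 t3 rc4_2_4_rrrl
  (upd lo Co.k (upd hi Co.a (upd hi Co.b (upd hi Co.b (rc sI cl9 cl4 cl5 b4_2 (I.pos (nat_lit 0) (nat_lit 0))))))) = true := by decide +kernel
def rc4_2_4_rrrrl : Tr := (xa (xs T3.l6 (xk (xa T3.l6 T3.l6) (xa T3.l6 (xk T3.l6 T3.l6)))) (xs (xk (xb T3.l3 T3.l3) (xa T3.l6 T3.l6)) (xk (xa (xk T3.l6 T3.l6) (xb T3.l6 (xk T3.l6 T3.l6))) (xa (xb T3.l6 (xk T3.l6 T3.l6)) (xb T3.l6 (xk (xs T3.l3 T3.l3) (xc T3.l6 T3.l6)))))))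
theorem qc4_2_4_rrrrl : chkTr (tg false false false RT.r3) b4_2 t3 rc4_2_4_rrrrl
  (upd lo Co.b (upd hi Co.k (upd hi Co.a (upd hi Co.b (upd hi Co.b (rc sI cl9 cl4 cl5 b4_2 (I.pos (nat_lit 0) (nat_lit 0)))))))) = true := by decide +kernel
def rc4_2_4_rrrrrl : Tr := (xs (xk (xa T3.l6 T3.l6) (xa T3.l6 (xk T3.l6 (xs T3.l3 T3.l3)))) (xk (xb (xa T3.l6 (xs T3.l3 T3.l3)) (xa (xk T3.l6 T3.l6) (xs T3.l6 (xk T3.l6 T3.l6)))) (xb (xa T3.l6 (xk T3.l6 (xs T3.l3 T3.l3))) (xa (xk (xc T3.l6 T3.l6) (xc T3.l6 T3.l6)) (xs (xk T3.l3 T3.l3) (xk (xb T3.l3 T3.l3) (xc T3.l6 T3.l6)))))))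
theorem qc4_2_4_rrrrrl : chkTr (tg false false false RT.r3) b4_2 t3 rc4_2_4_rrrrrl
  (upd lo Co.a (upd hi Co.b (upd hi Co.k (upd hi Co.a (upd hi Co.b (upd hi Co.b (rc sI cl9 cl4 cl5 b4_2 (I.pos (nat_lit 0) (nat_lit 0))))))))) = true := by decide +kernel
def rc4_2_4_rrrrrr : Tr := (xs (xk (xa (xk T3.l6 (xb T3.l6 T3.l6)) (xs T3.l6 (xk T3.l6 (xb T3.l6 T3.l6)))) (xa (xs T3.l6 (xk T3.l6 (xb T3.l3 T3.l0))) (xb (xk T3.l6 T3.l6) (xs T3.l6 (xk T3.l6 (xs T3.l3 T3.l0)))))) (xk (xb (xa (xk T3.l6 (xc T3.l6 T3.l6)) (xs T3.l6 (xk T3.l6 (xc T3.l6 T3.l6)))) (xa (xs (xk T3.l6 T3.l6) (xk (xc T3.l6 T3.l6) (xc T3.l6 T3.l6))) (xs (xk (xs T3.l3 T3.l3) (xc T3.l6 T3.l6)) (xk (xa (xc T3.l6 T3.l6) (xc T3.l6 T3.l6)) (xa (xc T3.l6 T3.l6) (xc (xk T3.l6 T3.l6) (xk T3.l6 T3.l6))))))) (xa (xb (xs T3.l6 (xk T3.l6 T3.l6)) (xs (xk T3.l6 (xc T3.l6 T3.l6)) (xk (xc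 (xa T3.l6 T3.l6) (xa T3.l6 T3.l6)) (xb (xc T3.l6 T3.l6) (xc (xa T3.l6 T3.l6) (xs T3.l0 T3.l3)))))) (xb (xs (xk T3.l6 T3.l6) (xk (xc T3.l6 T3.l6) (xc (xa T3.l6 T3.l6) (xa T3.l0 T3.l0)))) (xs (xk (xc (xa T3.l6 T3.l6) (xs T3.l0 T3.l0)) (xa (xc T3.l6 T3.l6) (xc T3.l6 T3.l6))) (xk (xa (xc (xk T3.l6 T3.l6) (xk T3.l6 T3.l6)) (xb (xc T3.l0 T3.l0) (xc (xs T3.l0 T3.l0) (xs T3.l0 T3.l0)))) (xa (xc (xk T3.l6 (xb T3.l6 T3.l6)) (xk T3.l6 (xs T3.l0 T3.l0))) (xc (xb T3.l6 (xk T3.l6 (xs T3.l0 T3.l0))) (xb T3.l6 (xk T3.l6 T3.l6))))))))))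
theorem qc4_2_4_rrrrrr : chkTr (tg false false false RT.r3) b4_2 t3 rc4_2_4_rrrrrr
  (upd hi Co.a (upd hi Co.b (upd hi Co.k (upd hi Co.a (upd hi Co.b (upd hi Co.b (rc sI cl9 cl4 cl5 b4_2 (I.pos (nat_lit 0) (nat_lit 0))))))))) = true := by decide +kernel
theorem qc4_2_4_rrrrr : chkTr (tg false false false RT.r3) b4_2 t3 (Tr.N Co.a rc4_2_4_rrrrrl rc4_2_4_rrrrrr)
  (upd hi Co.b (upd hi Co.k (upd hi Co.a (upd hi Co.b (upd hi Co.b (rc sI cl9 cl4 cl5 b4_2 (I.pos (nat_lit 0) (nat_lit 0)))))))) = true := tr_split qc4_2_4_rrrrrl qc4_2_4_rrrrrr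
theorem qc4_2_4_rrrr : chkTr (tg false false false RT.r3) b4_2 t3 (Tr.N Co.b rc4_2_4_rrrrl (Tr.N Co.a rc4_2_4_rrrrrl rc4_2_4_rrrrrr))
  (upd hi Co.k (upd hi Co.a (upd hi Co.b (upd hi Co.b (rc sI cl9 cl4 cl5 b4_2 (I.pos (nat_lit 0) (nat_lit 0))))))) = true := tr_split qc4_2_4_rrrrl qc4_2_4_rrrrr
theorem qc4_2_4_rrr : chkTr (tg false false false RT.r3) b4_2 t3 (Tr.N Co.k rc4_2_4_rrrl (Tr.N Co.b rc4_2_4_rrrrl (Tr.N Co.a rc4_2_4_rrrrrl rc4_2_4_rrrrrr)))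
  (upd hi Co.a (upd hi Co.b (upd hi Co.b (rc sI cl9 cl4 cl5 b4_2 (I.pos (nat_lit 0) (nat_lit 0)))))) = true := tr_split qc4_2_4_rrrl qc4_2_4_rrrr
theorem qc4_2_4_rr : chkTr (tg false false false RT.r3) b4_2 t3 (Tr.N Co.a rc4_2_4_rrl (Tr.N Co.k rc4_2_4_rrrl (Tr.N Co.b rc4_2_4_rrrrl (Tr.N Co.a rc4_2_4_rrrrrl rc4_2_4_rrrrrr))))
  (upd hi Co.b (upd hi Co.b (rc sI cl9 cl4 cl5 b4_2 (I.pos (nat_lit 0) (nat_lit 0))))) = true := tr_split qc4_2_4_rrl qc4_2_4_rrr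
theorem qc4_2_4_r : chkTr (tg false false false RT.r3) b4_2 t3 (Tr.N Co.b rc4_2_4_rl (Tr.N Co.a rc4_2_4_rrl (Tr.N Co.k rc4_2_4_rrrl (Tr.N Co.b rc4_2_4_rrrrl (Tr.N Co.a rc4_2_4_rrrrrl rc4_2_4_rrrrrr)))))
  (upd hi Co.b (rc sI cl9 cl4 cl5 b4_2 (I.pos (nat_lit 0) (nat_lit 0)))) = true := tr_split qc4_2_4_rl qc4_2_4_rr
theorem qc4_2_4_ : chkTr (tg false false false RT.r3) b4_2 t3 (Tr.N Co.b rc4_2_4_l (Tr.N Co.b rc4_2_4_rl (Tr.N Co.a rc4_2_4_rrl (Tr.N Co.k rc4_2_4_rrrl (Tr.N Co.b rc4_2_4_rrrrl (Tr.N Co.a rc4_2_4_rrrrrl rc4_2_4_rrrrrr))))))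
  (rc sI cl9 cl4 cl5 b4_2 (I.pos (nat_lit 0) (nat_lit 0))) = true := tr_split qc4_2_4_l qc4_2_4_r
theorem c4_2_4 : chkTag sI cl9 cl4 cl5 t3 b4_2 (tg false false false RT.r3) (I.pos (nat_lit 0) (nat_lit 0))
  (Tr.N Co.b rc4_2_4_l (Tr.N Co.b rc4_2_4_rl (Tr.N Co.a rc4_2_4_rrl (Tr.N Co.k rc4_2_4_rrrl (Tr.N Co.b rc4_2_4_rrrrl (Tr.N Co.a rc4_2_4_rrrrrl rc4_2_4_rrrrrr)))))) = true := tag_mk (by decide +kernel) qc4_2_4_
theorem c4_2_5 : chkTag sI cl9 cl4 cl5 t1 b4_2 (tg false true false RT.r4) (I.pos (nat_lit 0) (nat_lit 0))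
  (xb T1.l2 T1.l2) = true := by decide +kernel
theorem c4_2_6 : chkTag sI cl9 cl4 cl5 t3 b4_2 (Tag.mk false false false RT.tl RT.r5) (I.mix (nat_lit 17240550) (nat_lit 96881482))
  (xR (xR (xR T3.l4 T3.l4) T3.l4) (xR T3.l4 (xR T3.l4 (xb T3.l4 T3.l4)))) = true := by decide +kernel
theorem c4_2_7 : chkTag sI cl9 cl4 cl5 t1 b4_2 (Tag.mk false true false RT.tl RT.r6) (I.mix (nat_lit 17240550) (nat_lit 71940500))
  (xR (xR T1.l12 T1.l3) (xR T1.l3 (xb T1.l3 T1.l3))) = true := by decide +kernel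
theorem bx4_2 : BoxOK sI cl9 cl4 cl5 t1 t3 b4_2 :=
  box_mk' [(tg true true false RT.r2), (tg true false false RT.r3), (Tag.mk true true false RT.tl RT.r4), (Tag.mk true false false RT.tl RT.r5), (tg false false false RT.r3), (tg false true false RT.r4), (Tag.mk false false false RT.tl RT.r5), (Tag.mk false true false RT.tl RT.r6)] rfl (allL_c (ex_mk c4_2_0) (allL_c (ex_mk c4_2_1) (allL_c (ex_mk c4_2_2) (allL_c (ex_mk c4_2_3) (allL_c (ex_mk c4_2_4) (allL_c (ex_mk c4_2_5) (allL_c (ex_mk c4_2_6) (allL_c (ex_mk c4_2_7) allL_n))))))))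
theorem bx4_3 : BoxOK sI cl9 cl4 cl5 t1 t3 b4_3 :=
  box_mk (TrL.c (I.pos (nat_lit 0) (nat_lit 0)) (xa T3.l1 T3.l8)
  (TrL.c (I.pos (nat_lit 0) (nat_lit 0)) T1.l7
  (TrL.c (I.mix (nat_lit 17240550) (nat_lit 96881482)) (xR (xR (xR T3.l7 T3.l7) T3.l4) (xR T3.l7 (xR T3.l7 T3.l7)))
  (TrL.c (I.mix (nat_lit 17240550) (nat_lit 71940500)) (xR (xR T1.l6 T1.l1) T1.l1)
  TrL.n)))) (by decide +kernel)
theorem bx4_4 : BoxOK sI cl9 cl4 cl5 t1 t3 b4_4 :=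
  box_mk (TrL.c (I.pos (nat_lit 0) (nat_lit 0)) (xb T3.l8 T3.l8)
  (TrL.c (I.pos (nat_lit 0) (nat_lit 0)) T1.l7
  (TrL.c (I.mix (nat_lit 17240550) (nat_lit 96881482)) (xR (xR T3.l7 T3.l7) (xR T3.l7 T3.l4))
  (TrL.c (I.mix (nat_lit 17240550) (nat_lit 71940500)) (xR (xR T1.l6 T1.l1) T1.l1)
  TrL.n)))) (by decide +kernel)
theorem bx4_5 : BoxOK sI cl9 cl4 cl5 t1 t3 b4_5 :=
  box_mk (TrL.c (I.pos (nat_lit 0) (nat_lit 0)) (xb (xa (xb (xs T1.l8 T1.l8) T1.l4) T1.l4) T1.l4)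
  (TrL.c (I.pos (nat_lit 0) (nat_lit 0)) T3.l8
  (TrL.c (I.pos (nat_lit 0) (nat_lit 124588530)) (xR (xR T1.l1 T1.l1) (xR T1.l1 (xR T1.l1 T1.l1)))
  (TrL.c (I.pos (nat_lit 0) (nat_lit 96881482)) (xR T3.l4 T3.l4)
  (TrL.c (I.pos (nat_lit 0) (nat_lit 0)) T3.l9
  (TrL.c (I.pos (nat_lit 0) (nat_lit 0)) T1.l2
  (TrL.c (I.mix (nat_lit 17240550) (nat_lit 96881482)) (xR T3.l4 T3.l4)
  (TrL.c (I.mix (nat_lit 17240550) (nat_lit 71940500)) T1.l12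
  TrL.n)))))))) (by decide +kernel)
theorem bx4_6 : BoxOK sI cl9 cl4 cl5 t1 t3 b4_6 :=
  box_mk (TrL.c (I.pos (nat_lit 0) (nat_lit 0)) (xa (xb T1.l0 T1.l0) (xb (xa T1.l0 (xb T1.l0 T1.l0)) (xa T1.l0 (xb T1.l0 (xs T1.l0 T1.l0)))))
  (TrL.c (I.pos (nat_lit 0) (nat_lit 0)) (xa (xb T3.l1 T3.l1) (xk (xb T3.l1 T3.l1) (xb T3.l1 T3.l1)))
  (TrL.c (I.pos (nat_lit 0) (nat_lit 124588530)) (xR (xR T1.l12 T1.l1) (xR T1.l1 T1.l12))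
  (TrL.c (I.pos (nat_lit 0) (nat_lit 96881482)) (xR (xR T3.l12 T3.l2) (xR T3.l2 (xR T3.l2 T3.l2)))
  (TrL.c (I.pos (nat_lit 0) (nat_lit 0)) (xa (xb (xk T3.l3 T3.l3) (xk T3.l3 T3.l3)) (xb (xk (xa T3.l3 T3.l3) T3.l3) (xk (xa T3.l3 (xb T3.l3 T3.l3)) (xa T3.l3 (xb T3.l3 (xk T3.l3 T3.l3))))))
  (TrL.c (I.pos (nat_lit 0) (nat_lit 0)) (xk (xa T1.l2 T1.l2) (xa T1.l2 T1.l2))
  (TrL.c (I.mix (nat_lit 17240550) (nat_lit 96881482)) (xR (xR T3.l4 T3.l4) (xR T3.l4 (xR T3.l4 (xk (xR T3.l4 T3.l4) T3.l4))))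
  (TrL.c (I.mix (nat_lit 17240550) (nat_lit 71940500)) (xR T1.l3 (xR T1.l3 T1.l3))
  TrL.n)))))))) (by decide +kernel)
theorem bx4_7 : BoxOK sI cl9 cl4 cl5 t1 t3 b4_7 :=
  box_mk (TrL.c (I.pos (nat_lit 0) (nat_lit 0)) (xb T1.l8 T1.l8)
  (TrL.c (I.pos (nat_lit 0) (nat_lit 0)) T3.l8
  (TrL.c (I.pos (nat_lit 0) (nat_lit 124588530)) (xR T1.l1 (xR T1.l1 (xR T1.l1 T1.l7)))
  (TrL.c (I.pos (nat_lit 0) (nat_lit 96881482)) (xR T3.l4 T3.l4)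
  (TrL.c (I.pos (nat_lit 0) (nat_lit 0)) T3.l9
  (TrL.c (I.pos (nat_lit 0) (nat_lit 0)) T1.l2
  (TrL.c (I.mix (nat_lit 17240550) (nat_lit 96881482)) (xR T3.l7 T3.l4)
  (TrL.c (I.mix (nat_lit 17240550) (nat_lit 71940500)) (xR T1.l6 T1.l1)
  TrL.n)))))))) (by decide +kernel)
theorem bx4_8 : BoxOK sI cl9 cl4 cl5 t1 t3 b4_8 :=
  box_mk (TrL.c (I.pos (nat_lit 0) (nat_lit 0)) (xa T1.l0 T1.l0)
  (TrL.c (I.pos (nat_lit 0) (nat_lit 0)) T3.l1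
  (TrL.c (I.pos (nat_lit 0) (nat_lit 124588530)) (xR (xR T1.l12 T1.l1) T1.l1)
  (TrL.c (I.pos (nat_lit 0) (nat_lit 96881482)) (xR (xR T3.l4 T3.l2) T3.l2)
  (TrL.c (I.pos (nat_lit 0) (nat_lit 0)) (xk T3.l3 T3.l3)
  (TrL.c (I.pos (nat_lit 0) (nat_lit 0)) T1.l2
  (TrL.c (I.mix (nat_lit 17240550) (nat_lit 96881482)) (xR T3.l4 T3.l4)
  (TrL.c (I.mix (nat_lit 17240550) (nat_lit 71940500)) (xR T1.l3 T1.l3)
  TrL.n)))))))) (by decide +kernel)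
theorem bx4_9 : BoxOK sI cl9 cl4 cl5 t1 t3 b4_9 :=
  box_mk (TrL.c (I.pos (nat_lit 0) (nat_lit 0)) T1.l8
  (TrL.c (I.pos (nat_lit 0) (nat_lit 0)) T3.l8
  (TrL.c (I.pos (nat_lit 0) (nat_lit 124588530)) (xR T1.l1 (xR T1.l1 (xR T1.l1 T1.l1)))
  (TrL.c (I.pos (nat_lit 0) (nat_lit 96881482)) (xR T3.l2 T3.l4)
  (TrL.c (I.pos (nat_lit 0) (nat_lit 0)) T3.l9
  (TrL.c (I.pos (nat_lit 0) (nat_lit 0)) T1.l2
  (TrL.c (I.mix (nat_lit 17240550) (nat_lit 96881482)) (xR T3.l4 T3.l4)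
  (TrL.c (I.mix (nat_lit 17240550) (nat_lit 71940500)) T1.l12
  TrL.n)))))))) (by decide +kernel)
theorem bx4_10 : BoxOK sI cl9 cl4 cl5 t1 t3 b4_10 :=
  box_mk (TrL.c (I.pos (nat_lit 0) (nat_lit 0)) (xb (xa T1.l0 T1.l0) (xa T1.l0 T1.l0))
  (TrL.c (I.pos (nat_lit 0) (nat_lit 0)) (xk T3.l1 T3.l1)
  (TrL.c (I.pos (nat_lit 0) (nat_lit 124588530)) (xR (xR T1.l12 T1.l1) T1.l1)
  (TrL.c (I.pos (nat_lit 0) (nat_lit 96881482)) (xR (xR T3.l4 T3.l2) T3.l2)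
  (TrL.c (I.pos (nat_lit 0) (nat_lit 0)) (xk (xb (xa T3.l3 T3.l3) T3.l3) (xb (xa T3.l3 T3.l3) T3.l3))
  (TrL.c (I.pos (nat_lit 0) (nat_lit 0)) (xk T1.l2 T1.l2)
  (TrL.c (I.mix (nat_lit 17240550) (nat_lit 96881482)) (xR (xR T3.l4 T3.l4) (xR T3.l4 (xR T3.l4 (xR T3.l4 T3.l4))))
  (TrL.c (I.mix (nat_lit 17240550) (nat_lit 71940500)) (xR T1.l3 T1.l10)
  TrL.n)))))))) (by decide +kernel)
theorem bx4_11 : BoxOK sI cl9 cl4 cl5 t1 t3 b4_11 :=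
  box_mk (TrL.c (I.pos (nat_lit 0) (nat_lit 0)) T1.l8
  (TrL.c (I.pos (nat_lit 0) (nat_lit 0)) T3.l8
  (TrL.c (I.pos (nat_lit 0) (nat_lit 124588530)) (xR T1.l1 (xR T1.l1 (xR T1.l1 T1.l7)))
  (TrL.c (I.pos (nat_lit 0) (nat_lit 96881482)) T3.l4
  (TrL.c (I.pos (nat_lit 0) (nat_lit 0)) T3.l9
  (TrL.c (I.pos (nat_lit 0) (nat_lit 0)) T1.l2
  (TrL.c (I.mix (nat_lit 17240550) (nat_lit 96881482)) (xR T3.l7 T3.l4)
  (TrL.c (I.mix (nat_lit 17240550) (nat_lit 71940500)) (xR T1.l6 T1.l1)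
  TrL.n)))))))) (by decide +kernel)
theorem bx4_12 : BoxOK sI cl9 cl4 cl5 t1 t3 b4_12 :=
  box_mk (TrL.c (I.pos (nat_lit 0) (nat_lit 0)) T1.l0
  (TrL.c (I.pos (nat_lit 0) (nat_lit 0)) T3.l11
  (TrL.c (I.pos (nat_lit 0) (nat_lit 124588530)) (xR (xR T1.l12 T1.l1) T1.l1)
  (TrL.c (I.pos (nat_lit 0) (nat_lit 96881482)) (xR (xR T3.l4 T3.l2) T3.l2)
  (TrL.c (I.pos (nat_lit 0) (nat_lit 0)) T3.l0
  (TrL.c (I.pos (nat_lit 0) (nat_lit 0)) T1.l2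
  (TrL.c (I.mix (nat_lit 17240550) (nat_lit 96881482)) (xR T3.l4 (xR T3.l4 (xR T3.l4 T3.l4)))
  (TrL.c (I.mix (nat_lit 17240550) (nat_lit 71940500)) (xR T1.l3 T1.l10)
  TrL.n)))))))) (by decide +kernel)
theorem bx4_13 : BoxOK sI cl9 cl4 cl5 t1 t3 b4_13 :=
  box_mk (TrL.c (I.pos (nat_lit 0) (nat_lit 0)) T1.l8
  (TrL.c (I.pos (nat_lit 0) (nat_lit 0)) T3.l8
  (TrL.c (I.pos (nat_lit 0) (nat_lit 124588530)) (xR T1.l1 (xR T1.l1 (xR T1.l1 T1.l7)))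
  (TrL.c (I.pos (nat_lit 0) (nat_lit 96881482)) T3.l4
  (TrL.c (I.pos (nat_lit 0) (nat_lit 0)) T3.l9
  (TrL.c (I.pos (nat_lit 0) (nat_lit 0)) T1.l2
  (TrL.c (I.mix (nat_lit 17240550) (nat_lit 96881482)) (xR T3.l7 T3.l4)
  (TrL.c (I.mix (nat_lit 17240550) (nat_lit 71940500)) (xR T1.l6 T1.l1)
  TrL.n)))))))) (by decide +kernel)
theorem bx4_14 : BoxOK sI cl9 cl4 cl5 t1 t3 b4_14 :=
  box_mk (TrL.c (I.pos (nat_lit 0) (nat_lit 0)) T1.l0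
  (TrL.c (I.pos (nat_lit 0) (nat_lit 0)) T3.l1
  (TrL.c (I.pos (nat_lit 0) (nat_lit 124588530)) (xR (xR T1.l12 T1.l1) T1.l1)
  (TrL.c (I.pos (nat_lit 0) (nat_lit 96881482)) (xR (xR T3.l2 T3.l2) T3.l2)
  (TrL.c (I.pos (nat_lit 0) (nat_lit 0)) T3.l3
  (TrL.c (I.pos (nat_lit 0) (nat_lit 0)) T1.l2
  (TrL.c (I.mix (nat_lit 17240550) (nat_lit 96881482)) (xR T3.l4 T3.l4)
  (TrL.c (I.mix (nat_lit 17240550) (nat_lit 71940500)) (xR T1.l3 T1.l3)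
  TrL.n)))))))) (by decide +kernel)
theorem bx4_15 : BoxOK sI cl9 cl4 cl5 t1 t3 b4_15 :=
  box_mk (TrL.c (I.pos (nat_lit 0) (nat_lit 0)) T1.l8
  (TrL.c (I.pos (nat_lit 0) (nat_lit 0)) T3.l8
  (TrL.c (I.pos (nat_lit 0) (nat_lit 124588530)) (xR T1.l1 (xR T1.l1 (xR T1.l1 T1.l1)))
  (TrL.c (I.pos (nat_lit 0) (nat_lit 96881482)) (xR T3.l2 T3.l4)
  (TrL.c (I.pos (nat_lit 0) (nat_lit 0)) T3.l9
  (TrL.c (I.pos (nat_lit 0) (nat_lit 0)) T1.l2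
  (TrL.c (I.mix (nat_lit 17240550) (nat_lit 96881482)) (xR T3.l4 T3.l4)
  (TrL.c (I.mix (nat_lit 17240550) (nat_lit 71940500)) T1.l12
  TrL.n)))))))) (by decide +kernel)
theorem bx4_16 : BoxOK sI cl9 cl4 cl5 t1 t3 b4_16 :=
  box_mk (TrL.c (I.pos (nat_lit 0) (nat_lit 0)) (xa T1.l0 (xb T1.l0 (xa T1.l0 T1.l0)))
  (TrL.c (I.pos (nat_lit 0) (nat_lit 0)) (xk (xa T3.l1 T3.l1) T3.l1)
  (TrL.c (I.pos (nat_lit 0) (nat_lit 124588530)) (xR (xR T1.l12 T1.l1) (xR T1.l1 T1.l1))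
  (TrL.c (I.pos (nat_lit 0) (nat_lit 96881482)) (xR (xR T3.l4 T3.l2) T3.l2)
  (TrL.c (I.pos (nat_lit 0) (nat_lit 0)) (xb (xk (xa T3.l3 (xa T3.l3 T3.l3)) (xa T3.l3 (xa T3.l3 T3.l3))) (xk T3.l3 T3.l3))
  (TrL.c (I.pos (nat_lit 0) (nat_lit 0)) (xk T1.l2 T1.l2)
  (TrL.c (I.mix (nat_lit 17240550) (nat_lit 96881482)) (xR (xR T3.l4 T3.l4) (xR T3.l4 (xR T3.l4 (xR T3.l4 T3.l4))))
  (TrL.c (I.mix (nat_lit 17240550) (nat_lit 71940500)) (xR T1.l3 T1.l10)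
  TrL.n)))))))) (by decide +kernel)
theorem bx4_17 : BoxOK sI cl9 cl4 cl5 t1 t3 b4_17 :=
  box_mk (TrL.c (I.pos (nat_lit 0) (nat_lit 0)) T1.l8
  (TrL.c (I.pos (nat_lit 0) (nat_lit 0)) T3.l8
  (TrL.c (I.pos (nat_lit 0) (nat_lit 124588530)) (xR T1.l1 (xR T1.l1 (xR T1.l1 T1.l7)))
  (TrL.c (I.pos (nat_lit 0) (nat_lit 96881482)) T3.l4
  (TrL.c (I.pos (nat_lit 0) (nat_lit 0)) T3.l9
  (TrL.c (I.pos (nat_lit 0) (nat_lit 0)) T1.l2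
  (TrL.c (I.mix (nat_lit 17240550) (nat_lit 96881482)) (xR T3.l7 T3.l4)
  (TrL.c (I.mix (nat_lit 17240550) (nat_lit 71940500)) (xR T1.l6 T1.l1)
  TrL.n)))))))) (by decide +kernel)
theorem bx4_18 : BoxOK sI cl9 cl4 cl5 t1 t3 b4_18 :=
  box_mk (TrL.c (I.pos (nat_lit 0) (nat_lit 0)) (xa (xb (xa T1.l0 T1.l0) (xa (xb T1.l0 T1.l0) (xb T1.l0 (xs T1.l0 T1.l0)))) (xb (xa T1.l0 T1.l0) (xa (xb T1.l0 (xs T1.l0 T1.l0)) (xb T1.l0 (xs T1.l0 T1.l0)))))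
  (TrL.c (I.pos (nat_lit 0) (nat_lit 0)) (xk (xb T3.l1 T3.l1) (xb T3.l1 T3.l1))
  (TrL.c (I.pos (nat_lit 0) (nat_lit 124588530)) (xR (xR T1.l1 T1.l1) (xR T1.l1 T1.l1))
  (TrL.c (I.pos (nat_lit 0) (nat_lit 96881482)) (xR (xR T3.l2 T3.l2) (xR T3.l2 T3.l2))
  (TrL.c (I.pos (nat_lit 0) (nat_lit 0)) (xb (xk T3.l3 T3.l3) (xk (xa T3.l3 T3.l3) (xa T3.l3 (xk T3.l3 T3.l3))))
  (TrL.c (I.pos (nat_lit 0) (nat_lit 0)) T1.l2
  (TrL.c (I.mix (nat_lit 17240550) (nat_lit 96881482)) (xR (xR T3.l4 T3.l4) T3.l4)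
  (TrL.c (I.mix (nat_lit 17240550) (nat_lit 71940500)) (xR (xR T1.l3 T1.l3) T1.l3)
  TrL.n)))))))) (by decide +kernel)
theorem bx4_19 : BoxOK sI cl9 cl4 cl5 t1 t3 b4_19 :=
  box_mk (TrL.c (I.pos (nat_lit 0) (nat_lit 0)) (xb T1.l4 T1.l4)
  (TrL.c (I.pos (nat_lit 0) (nat_lit 0)) T3.l8
  (TrL.c (I.pos (nat_lit 0) (nat_lit 124588530)) (xR (xR T1.l1 T1.l1) (xR T1.l1 (xR T1.l1 T1.l1)))
  (TrL.c (I.pos (nat_lit 0) (nat_lit 96881482)) (xR T3.l4 T3.l4)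
  (TrL.c (I.pos (nat_lit 0) (nat_lit 0)) T3.l9
  (TrL.c (I.pos (nat_lit 0) (nat_lit 0)) T1.l2
  (TrL.c (I.mix (nat_lit 17240550) (nat_lit 96881482)) (xR T3.l4 T3.l4)
  (TrL.c (I.mix (nat_lit 17240550) (nat_lit 71940500)) T1.l12
  TrL.n)))))))) (by decide +kernel)
theorem bx4_20 : BoxOK sI cl9 cl4 cl5 t1 t3 b4_20 :=
  box_mk (TrL.c (I.pos (nat_lit 0) (nat_lit 0)) (xa (xb T1.l0 (xa T1.l0 T1.l0)) (xb (xa T1.l0 (xb T1.l0 (xc T1.l0 T1.l0))) (xa (xb T1.l0 T1.l0) (xb (xa T1.l0 T1.l0) (xa T1.l0 (xc T1.l0 (xs T1.l0 T1.l0)))))))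
  (TrL.c (I.pos (nat_lit 0) (nat_lit 0)) (xa (xb T3.l1 T3.l1) (xk (xb T3.l11 (xa T3.l1 T3.l1)) (xb T3.l11 T3.l1)))
  (TrL.c (I.pos (nat_lit 0) (nat_lit 124588530)) (xR (xR T1.l12 T1.l1) (xR T1.l1 (xR T1.l1 T1.l12)))
  (TrL.c (I.pos (nat_lit 0) (nat_lit 96881482)) (xR (xR T3.l12 T3.l2) (xR T3.l2 (xR T3.l2 (xk T3.l2 T3.l2))))
  (TrL.c (I.pos (nat_lit 0) (nat_lit 0)) (xb (xa (xk (xa T3.l3 T3.l3) (xa T3.l3 T3.l3)) (xk (xa (xb T3.l3 T3.l3) (xb (xk T3.l3 T3.l3) T3.l3)) (xa (xb T3.l3 T3.l3) (xb T3.l3 T3.l3)))) (xa (xk T3.l3 T3.l3) (xk (xb (xa T3.l3 T3.l3) (xa T3.l3 (xk T3.l3 T3.l3))) (xb (xa T3.l3 T3.l3) (xa T3.l3 (xk T3.l3 (xa T3.l3 T3.l3)))))))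
  (TrL.c (I.pos (nat_lit 0) (nat_lit 0)) (xk (xb T1.l2 T1.l2) (xa T1.l2 T1.l2))
  (TrL.c (I.mix (nat_lit 17240550) (nat_lit 96881482)) (xR (xR T3.l4 T3.l4) (xR T3.l4 (xR T3.l4 (xk (xb (xR T3.l4 T3.l4) (xR T3.l4 T3.l4)) T3.l4))))
  (TrL.c (I.mix (nat_lit 17240550) (nat_lit 71940500)) (xR T1.l3 (xR T1.l3 (xR T1.l3 T1.l3)))
  TrL.n)))))))) (by decide +kernel)
theorem bx4_21 : BoxOK sI cl9 cl4 cl5 t1 t3 b4_21 :=
  box_mk (TrL.c (I.pos (nat_lit 0) (nat_lit 0)) (xb T1.l8 T1.l8)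
  (TrL.c (I.pos (nat_lit 0) (nat_lit 0)) T3.l8
  (TrL.c (I.pos (nat_lit 0) (nat_lit 124588530)) (xR T1.l1 (xR T1.l1 (xR T1.l1 T1.l7)))
  (TrL.c (I.pos (nat_lit 0) (nat_lit 96881482)) (xR T3.l4 T3.l4)
  (TrL.c (I.pos (nat_lit 0) (nat_lit 0)) T3.l9
  (TrL.c (I.pos (nat_lit 0) (nat_lit 0)) T1.l2
  (TrL.c (I.mix (nat_lit 17240550) (nat_lit 96881482)) (xR T3.l7 T3.l4)
  (TrL.c (I.mix (nat_lit 17240550) (nat_lit 71940500)) (xR T1.l6 T1.l1)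
  TrL.n)))))))) (by decide +kernel)
theorem bx4_22 : BoxOK sI cl9 cl4 cl5 t1 t3 b4_22 :=
  box_mk (TrL.c (I.pos (nat_lit 0) (nat_lit 0)) T1.l0
  (TrL.c (I.pos (nat_lit 0) (nat_lit 0)) T3.l11
  (TrL.c (I.pos (nat_lit 0) (nat_lit 124588530)) (xR (xR T1.l12 T1.l1) T1.l1)
  (TrL.c (I.pos (nat_lit 0) (nat_lit 96881482)) (xR (xR T3.l4 T3.l2) T3.l2)
  (TrL.c (I.pos (nat_lit 0) (nat_lit 0)) (xk T3.l3 T3.l3)
  (TrL.c (I.pos (nat_lit 0) (nat_lit 0)) T1.l2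
  (TrL.c (I.mix (nat_lit 17240550) (nat_lit 96881482)) (xR T3.l4 (xR T3.l4 (xR T3.l4 T3.l4)))
  (TrL.c (I.mix (nat_lit 17240550) (nat_lit 71940500)) (xR T1.l3 T1.l10)
  TrL.n)))))))) (by decide +kernel)
theorem bx4_23 : BoxOK sI cl9 cl4 cl5 t1 t3 b4_23 :=
  box_mk (TrL.c (I.pos (nat_lit 0) (nat_lit 0)) T1.l8
  (TrL.c (I.pos (nat_lit 0) (nat_lit 0)) T3.l8
  (TrL.c (I.pos (nat_lit 0) (nat_lit 124588530)) (xR T1.l1 (xR T1.l1 (xR T1.l1 T1.l7)))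
  (TrL.c (I.pos (nat_lit 0) (nat_lit 96881482)) T3.l4
  (TrL.c (I.pos (nat_lit 0) (nat_lit 0)) T3.l9
  (TrL.c (I.pos (nat_lit 0) (nat_lit 0)) T1.l2
  (TrL.c (I.mix (nat_lit 17240550) (nat_lit 96881482)) (xR T3.l7 T3.l4)
  (TrL.c (I.mix (nat_lit 17240550) (nat_lit 71940500)) T1.l6
  TrL.n)))))))) (by decide +kernel)
theorem bx4_24 : BoxOK sI cl9 cl4 cl5 t1 t3 b4_24 :=
  box_mk (TrL.c (I.pos (nat_lit 0) (nat_lit 0)) T1.l21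
  (TrL.c (I.pos (nat_lit 0) (nat_lit 0)) T3.l1
  (TrL.c (I.pos (nat_lit 0) (nat_lit 124588530)) (xR (xR T1.l1 T1.l1) T1.l1)
  (TrL.c (I.pos (nat_lit 0) (nat_lit 96881482)) (xR (xR T3.l2 T3.l2) T3.l2)
  (TrL.c (I.pos (nat_lit 0) (nat_lit 0)) T3.l5
  (TrL.c (I.pos (nat_lit 0) (nat_lit 0)) T1.l2
  (TrL.c (I.mix (nat_lit 17240550) (nat_lit 96881482)) (xR T3.l4 T3.l4)
  (TrL.c (I.mix (nat_lit 17240550) (nat_lit 71940500)) T1.l3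
  TrL.n)))))))) (by decide +kernel)
theorem bx4_25 : BoxOK sI cl9 cl4 cl5 t1 t3 b4_25 :=
  box_mk (TrL.c (I.pos (nat_lit 0) (nat_lit 0)) T1.l8
  (TrL.c (I.pos (nat_lit 0) (nat_lit 0)) T3.l8
  (TrL.c (I.pos (nat_lit 0) (nat_lit 124588530)) (xR T1.l1 (xR T1.l1 (xR T1.l1 T1.l1)))
  (TrL.c (I.pos (nat_lit 0) (nat_lit 96881482)) (xR T3.l2 T3.l4)
  (TrL.c (I.pos (nat_lit 0) (nat_lit 0)) T3.l9
  (TrL.c (I.pos (nat_lit 0) (nat_lit 0)) T1.l2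
  (TrL.c (I.mix (nat_lit 17240550) (nat_lit 96881482)) (xR T3.l4 T3.l4)
  (TrL.c (I.mix (nat_lit 17240550) (nat_lit 71940500)) T1.l12
  TrL.n)))))))) (by decide +kernel)
theorem bx4_26 : BoxOK sI cl9 cl4 cl5 t1 t3 b4_26 :=
  box_mk (TrL.c (I.pos (nat_lit 0) (nat_lit 0)) T1.l8
  (TrL.c (I.pos (nat_lit 0) (nat_lit 0)) T3.l1
  (TrL.c (I.pos (nat_lit 0) (nat_lit 124588530)) (xR T1.l1 (xR T1.l1 T1.l1))
  (TrL.c (I.pos (nat_lit 0) (nat_lit 96881482)) (xR T3.l2 T3.l4)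
  (TrL.c (I.pos (nat_lit 0) (nat_lit 0)) T3.l9
  (TrL.c (I.pos (nat_lit 0) (nat_lit 0)) T1.l2
  (TrL.c (I.mix (nat_lit 17240550) (nat_lit 96881482)) T3.l4
  (TrL.c (I.mix (nat_lit 17240550) (nat_lit 71940500)) T1.l3
  TrL.n)))))))) (by decide +kernel)
theorem sv4 : StarV sI cl9 cl4 cl5 t1 t3 t4 :=
  (bt_n (bt_n (bt_n (bt_n (bt_b bx4_0) (bt_n (bt_b bx4_1) (bt_b bx4_2))) (bt_n (bt_b bx4_3) (bt_n (bt_b bx4_4) (bt_b bx4_5)))) (bt_n (bt_n (bt_b bx4_6) (bt_n (bt_b bx4_7) (bt_b bx4_8))) (bt_n (bt_n (bt_b bx4_9) (bt_b bx4_10)) (bt_n (bt_b bx4_11) (bt_b bx4_12))))) (bt_n (bt_n (bt_n (bt_b bx4_13) (bt_n (bt_b bx4_14) (bt_b bx4_15))) (bt_n (bt_n (bt_b bx4_16) (bt_b bx4_17)) (bt_n (bt_b bx4_18) (bt_b bx4_19)))) (bt_n (bt_n (bt_b bx4_20) (bt_n (bt_b bx4_21) (bt_b bx4_22))) (bt_n (bt_n (bt_b bx4_23) (bt_b bx4_24)) (bt_n (bt_b bx4_25) (bt_b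 bx4_26))))))
def S4 : StarD := StarD.mk cl9 cl4 cl5 1 3 t4
theorem c5_0_0 : chkTag sI cl9 cl5 cl4 t3 b5_0 (tg true true false RT.r2) (I.pos (nat_lit 0) (nat_lit 0))
  (xa (xb (xa (xb T3.l16 T3.l16) (xb T3.l0 (xc T3.l0 T3.l0))) (xa (xb T3.l16 (xs (xa T3.l0 T3.l0) (xa (xc T3.l0 T3.l0) T3.l0))) (xb (xc T3.l0 T3.l0) (xs (xa T3.l0 T3.l0) (xc T3.l0 (xa T3.l0 T3.l0)))))) (xb (xa (xb T3.l0 T3.l0) (xb T3.l0 T3.l0)) (xa (xb (xs T3.l0 T3.l0) (xs (xa T3.l0 T3.l0) (xc T3.l0 T3.l0))) (xb T3.l0 (xs T3.l0 T3.l0))))) = true := by decide +kernel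
theorem c5_0_1 : chkTag sI cl9 cl5 cl4 t1 b5_0 (tg true false false RT.r3) (I.pos (nat_lit 0) (nat_lit 0))
  (xa (xk (xb T1.l9 T1.l9) (xb T1.l9 T1.l9)) (xk (xb T1.l9 T1.l9) (xb T1.l9 T1.l9))) = true := by decide +kernel
theorem c5_0_2 : chkTag sI cl9 cl5 cl4 t3 b5_0 (Tag.mk true true false RT.tl RT.r4) (I.pos (nat_lit 0) (nat_lit 124588530))
  (xR (xR T3.l4 T3.l4) (xR T3.l10 (xR T3.l10 (xa T3.l10 T3.l10)))) = true := by decide +kernel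
theorem c5_0_3 : chkTag sI cl9 cl5 cl4 t1 b5_0 (Tag.mk true false false RT.tl RT.r5) (I.pos (nat_lit 0) (nat_lit 96881482))
  (xR (xR T1.l10 T1.l10) (xR T1.l10 (xR T1.l10 T1.l10))) = true := by decide +kernel
theorem c5_0_4 : chkTag sI cl9 cl5 cl4 t1 b5_0 (tg false false false RT.r3) (I.pos (nat_lit 0) (nat_lit 0))
  (xb (xa (xk T1.l11 T1.l11) (xk T1.l11 T1.l11)) (xa (xk (xb T1.l16 (xa T1.l16 T1.l11)) (xb T1.l16 (xa T1.l16 (xs T1.l11 (xb T1.l16 T1.l16))))) (xk (xb (xa T1.l11 (xk T1.l11 T1.l11)) (xa (xs T1.l11 (xk T1.l11 T1.l11)) (xs (xk T1.l11 (xb T1.l11 T1.l11)) (xk (xb T1.l11 (xa T1.l11 T1.l11)) (xb T1.l11 (xa T1.l11 (xs T1.l11 T1.l11))))))) (xa (xb T1.l11 (xs (xb T1.l11 T1.l11) (xb T1.l11 (xk T1.l11 (xa T1.l16 T1.l11))))) (xb (xs T1.l11 (xk T1.l11 T1.l11)) (xs (xk (xb T1.l11 T1.l11) (xb T1.l11 (xa T1.l11 T1.l11))) (xk (xb T1.l11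 (xa (xs T1.l11 T1.l11) (xs T1.l11 (xk T1.l11 T1.l11)))) (xb (xa T1.l11 T1.l11) (xa (xs T1.l11 (xk T1.l11 T1.l11)) (xs (xk T1.l11 T1.l11) (xk (xb T1.l11 T1.l11) (xb T1.l11 T1.l11)))))))))))) = true := by decide +kernel
theorem c5_0_5 : chkTag sI cl9 cl5 cl4 t3 b5_0 (tg false true false RT.r4) (I.pos (nat_lit 0) (nat_lit 0))
  (xk T3.l11 T3.l11) = true := by decide +kernel
theorem c5_0_6 : chkTag sI cl9 cl5 cl4 t1 b5_0 (Tag.mk false false false RT.tl RT.r5) (I.mix (nat_lit 17240550) (nat_lit 96881482))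
  (xR T1.l12 (xR T1.l12 (xR T1.l12 T1.l12))) = true := by decide +kernel
theorem c5_0_7 : chkTag sI cl9 cl5 cl4 t3 b5_0 (Tag.mk false true false RT.tl RT.r6) (I.mix (nat_lit 17240550) (nat_lit 71940500))
  (xR T3.l12 T3.l2) = true := by decide +kernel
theorem bx5_0 : BoxOK sI cl9 cl5 cl4 t3 t1 b5_0 :=
  box_mk' [(tg true true false RT.r2), (tg true false false RT.r3), (Tag.mk true true false RT.tl RT.r4), (Tag.mk true false false RT.tl RT.r5), (tg false false false RT.r3), (tg false true false RT.r4), (Tag.mk false false false RT.tl RT.r5), (Tag.mk false true false RT.tl RT.r6)] rfl (allL_c (ex_mk c5_0_0) (allL_c (ex_mk c5_0_1) (allL_c (ex_mk c5_0_2) (allL_c (ex_mk c5_0_3) (allL_c (ex_mk c5_0_4) (allL_c (ex_mk c5_0_5) (allL_c (ex_mk c5_0_6) (allL_c (ex_mk c5_0_7) allL_n))))))))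
theorem bx5_1 : BoxOK sI cl9 cl5 cl4 t3 t1 b5_1 :=
  box_mk (TrL.c (I.pos (nat_lit 0) (nat_lit 0)) (xb (xa (xb T3.l13 T3.l13) (xb T3.l13 T3.l13)) (xa (xb T3.l13 T3.l13) (xa T3.l13 T3.l13)))
  (TrL.c (I.pos (nat_lit 0) (nat_lit 0)) (xb (xa T1.l9 T1.l9) T1.l9)
  (TrL.c (I.pos (nat_lit 0) (nat_lit 124588530)) (xR (xR T3.l4 T3.l4) (xR T3.l10 (xR T3.l10 T3.l10)))
  (TrL.c (I.pos (nat_lit 0) (nat_lit 96881482)) (xR (xR T1.l10 T1.l10) (xR T1.l3 (xR T1.l10 T1.l10)))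
  (TrL.c (I.pos (nat_lit 0) (nat_lit 0)) (xa (xb T1.l13 T1.l13) (xb T1.l13 T1.l13))
  (TrL.c (I.pos (nat_lit 0) (nat_lit 0)) T3.l11
  (TrL.c (I.mix (nat_lit 17240550) (nat_lit 96881482)) (xR T1.l12 (xR T1.l12 (xR T1.l12 T1.l12)))
  (TrL.c (I.mix (nat_lit 17240550) (nat_lit 71940500)) (xR T3.l4 T3.l2)
  TrL.n)))))))) (by decide +kernel)
theorem bx5_2 : BoxOK sI cl9 cl5 cl4 t3 t1 b5_2 :=
  box_mk (TrL.c (I.pos (nat_lit 0) (nat_lit 0)) T1.l9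
  (TrL.c (I.pos (nat_lit 0) (nat_lit 0)) T3.l10
  (TrL.c (I.mix (nat_lit 17240550) (nat_lit 96881482)) (xR (xR T1.l15 T1.l15) (xR T1.l15 (xR T1.l15 T1.l10)))
  (TrL.c (I.mix (nat_lit 17240550) (nat_lit 71940500)) T3.l7
  TrL.n)))) (by decide +kernel)
theorem bx5_3 : BoxOK sI cl9 cl5 cl4 t3 t1 b5_3 :=
  box_mk (TrL.c (I.pos (nat_lit 0) (nat_lit 0)) (xb (xa (xb (xa T3.l16 T3.l16) (xa T3.l16 T3.l16)) (xa T3.l16 (xb T3.l16 (xs T3.l16 T3.l16)))) (xa (xb (xa T3.l16 T3.l16) (xa (xs T3.l16 T3.l16) (xs T3.l16 T3.l16))) (xa (xb T3.l16 (xs T3.l16 T3.l16)) (xb (xs T3.l16 T3.l16) (xs T3.l16 (xk T3.l16 T3.l16))))))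
  (TrL.c (I.pos (nat_lit 0) (nat_lit 0)) (xk (xb T1.l9 (xa T1.l9 T1.l9)) (xb T1.l9 (xa T1.l9 T1.l9)))
  (TrL.c (I.pos (nat_lit 0) (nat_lit 124588530)) (xR (xR T3.l4 T3.l4) (xR T3.l10 (xR T3.l10 (xR T3.l10 T3.l10))))
  (TrL.c (I.pos (nat_lit 0) (nat_lit 96881482)) (xR (xR T1.l10 T1.l10) (xR T1.l10 (xR T1.l10 T1.l10)))
  (TrL.c (I.pos (nat_lit 0) (nat_lit 0)) (xb (xk T1.l16 T1.l16) (xk T1.l16 T1.l16))
  (TrL.c (I.pos (nat_lit 0) (nat_lit 0)) T3.l11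
  (TrL.c (I.mix (nat_lit 17240550) (nat_lit 96881482)) (xR T1.l12 (xR T1.l12 (xR T1.l12 T1.l12)))
  (TrL.c (I.mix (nat_lit 17240550) (nat_lit 71940500)) (xR T3.l12 T3.l2)
  TrL.n)))))))) (by decide +kernel)
theorem bx5_4 : BoxOK sI cl9 cl5 cl4 t3 t1 b5_4 :=
  box_mk (TrL.c (I.pos (nat_lit 0) (nat_lit 0)) (xb T3.l17 T3.l17)
  (TrL.c (I.pos (nat_lit 0) (nat_lit 0)) T1.l9
  (TrL.c (I.pos (nat_lit 0) (nat_lit 124588530)) (xR T3.l4 (xR T3.l10 (xR T3.l10 T3.l10)))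
  (TrL.c (I.pos (nat_lit 0) (nat_lit 96881482)) (xR T1.l10 (xR T1.l10 T1.l10))
  (TrL.c (I.pos (nat_lit 0) (nat_lit 0)) T1.l17
  (TrL.c (I.pos (nat_lit 0) (nat_lit 0)) T3.l11
  (TrL.c (I.mix (nat_lit 17240550) (nat_lit 96881482)) (xR (xR T1.l12 T1.l12) T1.l12)
  (TrL.c (I.mix (nat_lit 17240550) (nat_lit 71940500)) T3.l7
  TrL.n)))))))) (by decide +kernel)
theorem bx5_5 : BoxOK sI cl9 cl5 cl4 t3 t1 b5_5 :=
  box_mk (TrL.c (I.pos (nat_lit 0) (nat_lit 0)) (xa T3.l13 T3.l16)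
  (TrL.c (I.pos (nat_lit 0) (nat_lit 0)) T1.l9
  (TrL.c (I.pos (nat_lit 0) (nat_lit 124588530)) (xR (xR T3.l4 T3.l10) T3.l10)
  (TrL.c (I.pos (nat_lit 0) (nat_lit 96881482)) (xR (xR T1.l10 T1.l10) T1.l10)
  (TrL.c (I.pos (nat_lit 0) (nat_lit 0)) T1.l13
  (TrL.c (I.pos (nat_lit 0) (nat_lit 0)) T3.l11
  (TrL.c (I.mix (nat_lit 17240550) (nat_lit 96881482)) (xR T1.l12 T1.l12)
  (TrL.c (I.mix (nat_lit 17240550) (nat_lit 71940500)) T3.l7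
  TrL.n)))))))) (by decide +kernel)
theorem bx5_6 : BoxOK sI cl9 cl5 cl4 t3 t1 b5_6 :=
  box_mk (TrL.c (I.pos (nat_lit 0) (nat_lit 0)) T1.l14
  (TrL.c (I.pos (nat_lit 0) (nat_lit 0)) T3.l14
  (TrL.c (I.mix (nat_lit 17240550) (nat_lit 96881482)) (xR T1.l12 T1.l15)
  (TrL.c (I.mix (nat_lit 17240550) (nat_lit 71940500)) T3.l7
  TrL.n)))) (by decide +kernel)
theorem bx5_7 : BoxOK sI cl9 cl5 cl4 t3 t1 b5_7 :=
  box_mk (TrL.c (I.pos (nat_lit 0) (nat_lit 0)) (xa T3.l16 T3.l16)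
  (TrL.c (I.pos (nat_lit 0) (nat_lit 0)) T1.l9
  (TrL.c (I.pos (nat_lit 0) (nat_lit 124588530)) (xR (xR T3.l4 T3.l4) T3.l10)
  (TrL.c (I.pos (nat_lit 0) (nat_lit 96881482)) (xR (xR T1.l10 T1.l10) T1.l10)
  (TrL.c (I.pos (nat_lit 0) (nat_lit 0)) T1.l16
  (TrL.c (I.pos (nat_lit 0) (nat_lit 0)) T3.l11
  (TrL.c (I.mix (nat_lit 17240550) (nat_lit 96881482)) (xR T1.l12 T1.l12)
  (TrL.c (I.mix (nat_lit 17240550) (nat_lit 71940500)) (xR T3.l12 T3.l2)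
  TrL.n)))))))) (by decide +kernel)
theorem bx5_8 : BoxOK sI cl9 cl5 cl4 t3 t1 b5_8 :=
  box_mk (TrL.c (I.pos (nat_lit 0) (nat_lit 0)) (xa (xb T3.l16 T3.l16) (xb T3.l0 T3.l0))
  (TrL.c (I.pos (nat_lit 0) (nat_lit 0)) T1.l9
  (TrL.c (I.pos (nat_lit 0) (nat_lit 124588530)) (xR (xR T3.l4 T3.l4) (xR T3.l10 T3.l10))
  (TrL.c (I.pos (nat_lit 0) (nat_lit 96881482)) (xR (xR T1.l10 T1.l10) (xR T1.l10 T1.l10))
  (TrL.c (I.pos (nat_lit 0) (nat_lit 0)) (xk T1.l16 T1.l16)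
  (TrL.c (I.pos (nat_lit 0) (nat_lit 0)) T3.l11
  (TrL.c (I.mix (nat_lit 17240550) (nat_lit 96881482)) (xR T1.l12 (xR T1.l12 T1.l12))
  (TrL.c (I.mix (nat_lit 17240550) (nat_lit 71940500)) (xR T3.l12 T3.l2)
  TrL.n)))))))) (by decide +kernel)
theorem c5_9_0 : chkTag sI cl9 cl5 cl4 t3 b5_9 (tg true true false RT.r2) (I.pos (nat_lit 0) (nat_lit 0))
  (xb (xa (xb (xa (xs (xb T3.l16 T3.l16) (xb (xa (xs T3.l16 (xk T3.l16 (xb T3.l16 T3.l16))) (xs T3.l16 (xk T3.l16 (xb T3.l16 T3.l16)))) (xa (xk T3.l16 T3.l16) (xk T3.l16 T3.l16)))) (xs (xb T3.l16 T3.l16) (xb (xa (xs T3.l16 (xk T3.l16 (xb T3.l16 T3.l16))) (xs T3.l16 (xk T3.l16 (xb T3.l0 T3.l0)))) (xa (xk T3.l16 T3.l16) (xk T3.l16 T3.l16))))) (xa (xs T3.l16 (xb (xa T3.l16 T3.l16) T3.l16)) (xs T3.l16 (xb (xa T3.l16 T3.l16) T3.l16)))) (xb (xa (xs (xb T3.l16 T3.l16) (xb (xa (xk (xs T3.l16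 T3.l16) (xs T3.l0 T3.l0)) (xk (xs T3.l0 T3.l0) T3.l0)) (xa (xk T3.l16 T3.l16) (xk T3.l16 T3.l0)))) (xs (xb T3.l16 T3.l16) (xb (xa (xk T3.l0 T3.l0) (xk T3.l0 T3.l0)) (xa (xk T3.l0 T3.l0) (xk T3.l0 T3.l0))))) (xa (xs T3.l16 (xb (xa T3.l16 T3.l16) T3.l16)) (xs T3.l16 (xb (xa T3.l16 T3.l16) T3.l16))))) (xa (xa (xb (xs T3.l16 T3.l16) (xs T3.l16 T3.l16)) (xb (xs T3.l16 (xb T3.l16 T3.l16)) (xs T3.l16 T3.l16))) (xa (xb (xs T3.l16 (xb T3.l16 T3.l16)) (xs T3.l16 T3.l16)) (xb (xs T3.l16 (xb T3.l16 T3.l16)) (xs T3.l16 T3.l16))))) = true := by decide +kernel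
theorem c5_9_1 : chkTag sI cl9 cl5 cl4 t1 b5_9 (tg true false false RT.r3) (I.pos (nat_lit 0) (nat_lit 0))
  (xk (xb T1.l9 T1.l9) (xb T1.l9 T1.l9)) = true := by decide +kernel
theorem c5_9_2 : chkTag sI cl9 cl5 cl4 t3 b5_9 (Tag.mk true true false RT.tl RT.r4) (I.pos (nat_lit 0) (nat_lit 124588530))
  (xR (xR T3.l4 T3.l4) (xR T3.l10 (xR T3.l10 (xb T3.l10 T3.l10)))) = true := by decide +kernel
theorem c5_9_3 : chkTag sI cl9 cl5 cl4 t1 b5_9 (Tag.mk true false false RT.tl RT.r5) (I.pos (nat_lit 0) (nat_lit 96881482))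
  (xR (xR T1.l10 T1.l10) (xR T1.l10 (xR T1.l10 T1.l10))) = true := by decide +kernel
theorem c5_9_4 : chkTag sI cl9 cl5 cl4 t1 b5_9 (tg false false false RT.r3) (I.pos (nat_lit 0) (nat_lit 0))
  (xk (xb T1.l16 T1.l16) (xb T1.l16 T1.l16)) = true := by decide +kernel
theorem c5_9_5 : chkTag sI cl9 cl5 cl4 t3 b5_9 (tg false true false RT.r4) (I.pos (nat_lit 0) (nat_lit 0))
  T3.l11 = true := by decide +kernel
theorem c5_9_6 : chkTag sI cl9 cl5 cl4 t1 b5_9 (Tag.mk false false false RT.tl RT.r5) (I.mix (nat_lit 17240550) (nat_lit 96881482))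
  (xR T1.l12 (xR T1.l12 (xR T1.l12 T1.l12))) = true := by decide +kernel
theorem c5_9_7 : chkTag sI cl9 cl5 cl4 t3 b5_9 (Tag.mk false true false RT.tl RT.r6) (I.mix (nat_lit 17240550) (nat_lit 71940500))
  (xR T3.l4 T3.l2) = true := by decide +kernel
theorem bx5_9 : BoxOK sI cl9 cl5 cl4 t3 t1 b5_9 :=
  box_mk' [(tg true true false RT.r2), (tg true false false RT.r3), (Tag.mk true true false RT.tl RT.r4), (Tag.mk true false false RT.tl RT.r5), (tg false false false RT.r3), (tg false true false RT.r4), (Tag.mk false false false RT.tl RT.r5), (Tag.mk false true false RT.tl RT.r6)] rfl (allL_c (ex_mk c5_9_0) (allL_c (ex_mk c5_9_1) (allL_c (ex_mk c5_9_2) (allL_c (ex_mk c5_9_3) (allL_c (ex_mk c5_9_4) (allL_c (ex_mk c5_9_5) (allL_c (ex_mk c5_9_6) (allL_c (ex_mk c5_9_7) allL_n))))))))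
theorem bx5_10 : BoxOK sI cl9 cl5 cl4 t3 t1 b5_10 :=
  box_mk (TrL.c (I.pos (nat_lit 0) (nat_lit 0)) (xa (xb T3.l18 T3.l18) (xb T3.l18 (xa T3.l18 T3.l18)))
  (TrL.c (I.pos (nat_lit 0) (nat_lit 0)) (xb T1.l9 T1.l9)
  (TrL.c (I.pos (nat_lit 0) (nat_lit 124588530)) (xR T3.l4 T3.l10)
  (TrL.c (I.pos (nat_lit 0) (nat_lit 96881482)) (xR T1.l10 T1.l10)
  (TrL.c (I.pos (nat_lit 0) (nat_lit 0)) T1.l18
  (TrL.c (I.pos (nat_lit 0) (nat_lit 0)) T3.l11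
  (TrL.c (I.mix (nat_lit 17240550) (nat_lit 96881482)) (xR (xR T1.l12 T1.l12) T1.l12)
  (TrL.c (I.mix (nat_lit 17240550) (nat_lit 71940500)) T3.l7
  TrL.n)))))))) (by decide +kernel)
theorem bx5_11 : BoxOK sI cl9 cl5 cl4 t3 t1 b5_11 :=
  box_mk (TrL.c (I.pos (nat_lit 0) (nat_lit 0)) (xb (xa T3.l19 T3.l13) (xa T3.l19 T3.l19))
  (TrL.c (I.pos (nat_lit 0) (nat_lit 0)) (xb T1.l9 T1.l9)
  (TrL.c (I.pos (nat_lit 0) (nat_lit 124588530)) (xR (xR T3.l4 T3.l10) (xR T3.l10 T3.l10))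
  (TrL.c (I.pos (nat_lit 0) (nat_lit 96881482)) (xR (xR T1.l10 T1.l10) (xR T1.l3 (xR T1.l10 T1.l10)))
  (TrL.c (I.pos (nat_lit 0) (nat_lit 0)) (xb T1.l20 T1.l20)
  (TrL.c (I.pos (nat_lit 0) (nat_lit 0)) T3.l11
  (TrL.c (I.mix (nat_lit 17240550) (nat_lit 96881482)) (xR T1.l12 (xR T1.l12 T1.l12))
  (TrL.c (I.mix (nat_lit 17240550) (nat_lit 71940500)) T3.l4
  TrL.n)))))))) (by decide +kernel)
theorem bx5_12 : BoxOK sI cl9 cl5 cl4 t3 t1 b5_12 :=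
  box_mk (TrL.c (I.pos (nat_lit 0) (nat_lit 0)) (xa T1.l9 T1.l9)
  (TrL.c (I.pos (nat_lit 0) (nat_lit 0)) T3.l10
  (TrL.c (I.mix (nat_lit 17240550) (nat_lit 96881482)) (xR (xR T1.l15 T1.l15) (xR T1.l15 T1.l10))
  (TrL.c (I.mix (nat_lit 17240550) (nat_lit 71940500)) (xR (xR T3.l15 T3.l4) T3.l4)
  TrL.n)))) (by decide +kernel)
theorem bx5_13 : BoxOK sI cl9 cl5 cl4 t3 t1 b5_13 :=
  box_mk (TrL.c (I.pos (nat_lit 0) (nat_lit 0)) (xa T3.l0 T3.l0)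
  (TrL.c (I.pos (nat_lit 0) (nat_lit 0)) (xk T1.l9 T1.l9)
  (TrL.c (I.pos (nat_lit 0) (nat_lit 124588530)) (xR (xR T3.l4 T3.l4) (xR T3.l10 T3.l10))
  (TrL.c (I.pos (nat_lit 0) (nat_lit 96881482)) (xR (xR T1.l10 T1.l10) T1.l10)
  (TrL.c (I.pos (nat_lit 0) (nat_lit 0)) T1.l11
  (TrL.c (I.pos (nat_lit 0) (nat_lit 0)) T3.l11
  (TrL.c (I.mix (nat_lit 17240550) (nat_lit 96881482)) (xR T1.l12 T1.l12)
  (TrL.c (I.mix (nat_lit 17240550) (nat_lit 71940500)) (xR T3.l12 T3.l12)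
  TrL.n)))))))) (by decide +kernel)
theorem bx5_14 : BoxOK sI cl9 cl5 cl4 t3 t1 b5_14 :=
  box_mk (TrL.c (I.pos (nat_lit 0) (nat_lit 0)) (xa (xb T3.l0 T3.l0) (xb (xa T3.l0 (xb T3.l0 T3.l0)) (xa T3.l0 (xb T3.l0 (xs T3.l0 T3.l0)))))
  (TrL.c (I.pos (nat_lit 0) (nat_lit 0)) (xa (xk (xb T1.l9 T1.l9) T1.l9) (xk T1.l2 (xb T1.l9 T1.l9)))
  (TrL.c (I.pos (nat_lit 0) (nat_lit 124588530)) (xR (xR (xR T3.l4 T3.l4) T3.l4) (xR T3.l10 T3.l4))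
  (TrL.c (I.pos (nat_lit 0) (nat_lit 96881482)) (xR (xR T1.l10 T1.l10) (xR T1.l10 T1.l10))
  (TrL.c (I.pos (nat_lit 0) (nat_lit 0)) (xk (xa T1.l11 (xb T1.l0 T1.l11)) (xa T1.l11 (xb T1.l0 T1.l11)))
  (TrL.c (I.pos (nat_lit 0) (nat_lit 0)) (xk T3.l11 T3.l11)
  (TrL.c (I.mix (nat_lit 17240550) (nat_lit 96881482)) (xR T1.l12 (xR T1.l12 (xR T1.l12 T1.l12)))
  (TrL.c (I.mix (nat_lit 17240550) (nat_lit 71940500)) (xR (xR T3.l12 T3.l12) T3.l12)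
  TrL.n)))))))) (by decide +kernel)
theorem bx5_15 : BoxOK sI cl9 cl5 cl4 t3 t1 b5_15 :=
  box_mk (TrL.c (I.pos (nat_lit 0) (nat_lit 0)) (xa (xb (xa (xb T3.l0 T3.l0) (xb T3.l0 T3.l0)) (xa (xb (xs T3.l0 T3.l0) (xs T3.l0 T3.l0)) (xs T3.l0 (xb T3.l0 T3.l0)))) (xb (xa T3.l0 T3.l0) (xa (xs T3.l0 (xb T3.l0 T3.l0)) (xs T3.l0 (xb T3.l0 T3.l0)))))
  (TrL.c (I.pos (nat_lit 0) (nat_lit 0)) (xk (xa T1.l9 T1.l9) (xa T1.l9 T1.l9))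
  (TrL.c (I.pos (nat_lit 0) (nat_lit 124588530)) (xR (xR T3.l4 T3.l4) (xR T3.l10 (xR T3.l10 (xR T3.l10 T3.l10))))
  (TrL.c (I.pos (nat_lit 0) (nat_lit 96881482)) (xR (xR T1.l10 T1.l10) (xR T1.l10 (xR T1.l10 T1.l10)))
  (TrL.c (I.pos (nat_lit 0) (nat_lit 0)) (xk (xa (xb T1.l16 T1.l11) (xb T1.l11 (xb T1.l11 (xs T1.l11 T1.l11)))) (xa (xb T1.l16 T1.l11) (xb T1.l11 (xb T1.l11 (xs T1.l11 (xk T1.l11 T1.l11))))))
  (TrL.c (I.pos (nat_lit 0) (nat_lit 0)) T3.l11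
  (TrL.c (I.mix (nat_lit 17240550) (nat_lit 96881482)) (xR T1.l12 (xR T1.l12 T1.l12))
  (TrL.c (I.mix (nat_lit 17240550) (nat_lit 71940500)) (xR T3.l12 T3.l2)
  TrL.n)))))))) (by decide +kernel)
theorem bx5_16 : BoxOK sI cl9 cl5 cl4 t3 t1 b5_16 :=
  box_mk (TrL.c (I.pos (nat_lit 0) (nat_lit 0)) (xa (xb (xa T3.l0 T3.l0) (xa (xb T3.l0 (xa T3.l0 T3.l0)) (xb T3.l0 (xa T3.l0 T3.l0)))) (xb (xa (xb T3.l0 (xa T3.l0 T3.l0)) (xb T3.l3 (xa T3.l3 T3.l3))) (xa (xb (xa T3.l0 T3.l0) (xa T3.l0 (xs T3.l0 T3.l0))) (xb (xa T3.l3 T3.l3) (xs T3.l3 (xa T3.l3 T3.l3))))))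
  (TrL.c (I.pos (nat_lit 0) (nat_lit 0)) (xa (xk (xb T1.l9 (xa T1.l9 T1.l9)) (xb T1.l9 T1.l9)) (xk (xb T1.l2 (xa T1.l2 T1.l2)) (xb (xa T1.l9 T1.l2) (xa T1.l9 T1.l2))))
  (TrL.c (I.pos (nat_lit 0) (nat_lit 124588530)) (xR (xR (xR T3.l4 T3.l4) T3.l4) (xR T3.l10 (xR T3.l10 T3.l4)))
  (TrL.c (I.pos (nat_lit 0) (nat_lit 96881482)) (xR (xR (xR T1.l10 T1.l10) T1.l10) (xR T1.l10 (xR T1.l10 (xk (xa T1.l10 T1.l10) T1.l10))))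
  (TrL.c (I.pos (nat_lit 0) (nat_lit 0)) (xa (xb (xk (xa T1.l11 T1.l11) (xa T1.l11 T1.l11)) (xk T1.l11 T1.l11)) (xb (xk (xa (xb T1.l11 T1.l11) (xb (xk T1.l11 T1.l11) T1.l11)) (xa T1.l11 (xb T1.l11 T1.l11))) (xk (xa T1.l11 (xk T1.l11 T1.l11)) (xa T1.l11 (xb T1.l11 T1.l11)))))
  (TrL.c (I.pos (nat_lit 0) (nat_lit 0)) (xk (xb (xa T3.l11 T3.l11) (xa T3.l11 T3.l11)) (xa T3.l11 (xb T3.l11 T3.l11)))
  (TrL.c (I.mix (nat_lit 17240550) (nat_lit 96881482)) (xR T1.l12 (xR T1.l12 (xR T1.l12 (xk (xR T1.l12 T1.l12) T1.l12))))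
  (TrL.c (I.mix (nat_lit 17240550) (nat_lit 71940500)) (xR (xR T3.l12 T3.l12) (xR T3.l12 (xR T3.l12 T3.l2)))
  TrL.n)))))))) (by decide +kernel)
theorem bx5_17 : BoxOK sI cl9 cl5 cl4 t3 t1 b5_17 :=
  box_mk (TrL.c (I.pos (nat_lit 0) (nat_lit 0)) (xa T3.l0 T3.l3)
  (TrL.c (I.pos (nat_lit 0) (nat_lit 0)) (xk T1.l2 T1.l9)
  (TrL.c (I.pos (nat_lit 0) (nat_lit 124588530)) (xR (xR (xR T3.l4 T3.l4) T3.l4) (xR T3.l10 T3.l10))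
  (TrL.c (I.pos (nat_lit 0) (nat_lit 96881482)) (xR (xR T1.l10 T1.l10) (xR T1.l10 T1.l10))
  (TrL.c (I.pos (nat_lit 0) (nat_lit 0)) (xk T1.l0 T1.l0)
  (TrL.c (I.pos (nat_lit 0) (nat_lit 0)) T3.l11
  (TrL.c (I.mix (nat_lit 17240550) (nat_lit 96881482)) (xR T1.l12 (xR T1.l12 (xR T1.l12 T1.l12)))
  (TrL.c (I.mix (nat_lit 17240550) (nat_lit 71940500)) (xR (xR T3.l12 T3.l12) T3.l2)
  TrL.n)))))))) (by decide +kernel)
theorem bx5_18 : BoxOK sI cl9 cl5 cl4 t3 t1 b5_18 :=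
  box_mk (TrL.c (I.pos (nat_lit 0) (nat_lit 0)) (xa (xb T3.l0 T3.l0) (xa (xb T3.l0 T3.l0) (xb (xs T3.l0 T3.l0) (xs T3.l0 T3.l3))))
  (TrL.c (I.pos (nat_lit 0) (nat_lit 0)) (xa (xk T1.l9 T1.l9) (xk T1.l2 T1.l9))
  (TrL.c (I.pos (nat_lit 0) (nat_lit 124588530)) (xR (xR (xR T3.l4 T3.l4) T3.l4) (xR T3.l10 (xR T3.l10 T3.l4)))
  (TrL.c (I.pos (nat_lit 0) (nat_lit 96881482)) (xR (xR T1.l10 T1.l10) (xR T1.l10 (xR T1.l10 T1.l10)))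
  (TrL.c (I.pos (nat_lit 0) (nat_lit 0)) (xa T1.l11 (xk T1.l11 T1.l11))
  (TrL.c (I.pos (nat_lit 0) (nat_lit 0)) T3.l11
  (TrL.c (I.mix (nat_lit 17240550) (nat_lit 96881482)) (xR T1.l12 (xR T1.l12 (xR T1.l12 T1.l12)))
  (TrL.c (I.mix (nat_lit 17240550) (nat_lit 71940500)) (xR (xR T3.l12 T3.l12) T3.l12)
  TrL.n)))))))) (by decide +kernel)
theorem bx5_19 : BoxOK sI cl9 cl5 cl4 t3 t1 b5_19 :=
  box_mk (TrL.c (I.pos (nat_lit 0) (nat_lit 0)) (xa T3.l0 T3.l0)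
  (TrL.c (I.pos (nat_lit 0) (nat_lit 0)) (xk T1.l9 T1.l9)
  (TrL.c (I.pos (nat_lit 0) (nat_lit 124588530)) (xR (xR T3.l4 T3.l4) (xR T3.l10 T3.l10))
  (TrL.c (I.pos (nat_lit 0) (nat_lit 96881482)) (xR (xR T1.l10 T1.l10) (xR T1.l10 T1.l10))
  (TrL.c (I.pos (nat_lit 0) (nat_lit 0)) T1.l11
  (TrL.c (I.pos (nat_lit 0) (nat_lit 0)) T3.l11
  (TrL.c (I.mix (nat_lit 17240550) (nat_lit 96881482)) (xR T1.l12 T1.l12)
  (TrL.c (I.mix (nat_lit 17240550) (nat_lit 71940500)) (xR T3.l12 T3.l12)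
  TrL.n)))))))) (by decide +kernel)
theorem bx5_20 : BoxOK sI cl9 cl5 cl4 t3 t1 b5_20 :=
  box_mk (TrL.c (I.pos (nat_lit 0) (nat_lit 0)) (xa (xb T3.l0 T3.l0) (xb (xa T3.l0 T3.l3) (xa T3.l0 T3.l3)))
  (TrL.c (I.pos (nat_lit 0) (nat_lit 0)) (xk (xa T1.l2 T1.l2) (xa T1.l9 T1.l9))
  (TrL.c (I.pos (nat_lit 0) (nat_lit 124588530)) (xR (xR (xR T3.l4 T3.l4) T3.l4) (xR T3.l10 T3.l4))
  (TrL.c (I.pos (nat_lit 0) (nat_lit 96881482)) (xR (xR T1.l10 T1.l10) (xR T1.l10 T1.l10))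
  (TrL.c (I.pos (nat_lit 0) (nat_lit 0)) (xk (xa T1.l11 (xb T1.l0 T1.l11)) (xa T1.l11 (xb T1.l0 T1.l11)))
  (TrL.c (I.pos (nat_lit 0) (nat_lit 0)) (xk T3.l11 T3.l11)
  (TrL.c (I.mix (nat_lit 17240550) (nat_lit 96881482)) (xR T1.l12 (xR T1.l12 (xR T1.l12 (xR T1.l12 T1.l12))))
  (TrL.c (I.mix (nat_lit 17240550) (nat_lit 71940500)) (xR (xR T3.l12 T3.l12) T3.l2)
  TrL.n)))))))) (by decide +kernel)
theorem bx5_21 : BoxOK sI cl9 cl5 cl4 t3 t1 b5_21 :=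
  box_mk (TrL.c (I.pos (nat_lit 0) (nat_lit 0)) T3.l0
  (TrL.c (I.pos (nat_lit 0) (nat_lit 0)) T1.l9
  (TrL.c (I.pos (nat_lit 0) (nat_lit 124588530)) (xR (xR T3.l4 T3.l4) (xR T3.l10 T3.l10))
  (TrL.c (I.pos (nat_lit 0) (nat_lit 96881482)) (xR (xR T1.l10 T1.l10) T1.l10)
  (TrL.c (I.pos (nat_lit 0) (nat_lit 0)) T1.l11
  (TrL.c (I.pos (nat_lit 0) (nat_lit 0)) T3.l11
  (TrL.c (I.mix (nat_lit 17240550) (nat_lit 96881482)) (xR T1.l12 T1.l12)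
  (TrL.c (I.mix (nat_lit 17240550) (nat_lit 71940500)) (xR T3.l12 T3.l12)
  TrL.n)))))))) (by decide +kernel)
theorem sv5 : StarV sI cl9 cl5 cl4 t3 t1 t5 :=
  (bt_n (bt_n (bt_n (bt_n (bt_b bx5_0) (bt_b bx5_1)) (bt_n (bt_b bx5_2) (bt_n (bt_b bx5_3) (bt_b bx5_4)))) (bt_n (bt_n (bt_b bx5_5) (bt_n (bt_b bx5_6) (bt_b bx5_7))) (bt_n (bt_b bx5_8) (bt_n (bt_b bx5_9) (bt_b bx5_10))))) (bt_n (bt_n (bt_n (bt_b bx5_11) (bt_b bx5_12)) (bt_n (bt_b bx5_13) (bt_n (bt_b bx5_14) (bt_b bx5_15)))) (bt_n (bt_n (bt_b bx5_16) (bt_n (bt_b bx5_17) (bt_b bx5_18))) (bt_n (bt_b bx5_19) (bt_n (bt_b bx5_20) (bt_b bx5_21))))))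
def S5 : StarD := StarD.mk cl9 cl5 cl4 3 1 t5
def G : List StarD := [S0, S1, S2, S3, S4, S5]
theorem so0 : StarOK sI G S0 :=
  star_mk (by decide) (by decide) rfl rfl rfl rfl rfl rfl (rfl : _ = t2) (rfl : _ = t4)
  (st_mk (Pth.l (Pth.l (Pth.l (Pth.l Pth.z)))) (nat_lit 253007837) (nat_lit 255790673) (by decide +kernel))
  (st_mk (Pth.l (Pth.l (Pth.l (Pth.l Pth.z)))) (nat_lit 292898114) (nat_lit 296718967) (by decide +kernel))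
  (st_mk (Pth.l (Pth.l (Pth.l (Pth.l Pth.z)))) (nat_lit 339999407) (nat_lit 345304477) (by decide +kernel)) sv0
theorem so1 : StarOK sI G S1 :=
  star_mk (by decide) (by decide) rfl rfl rfl rfl rfl rfl (rfl : _ = t4) (rfl : _ = t2)
  (st_mk (Pth.l (Pth.l (Pth.l (Pth.l Pth.z)))) (nat_lit 120173732) (nat_lit 140412594) (by decide +kernel))
  (st_mk (Pth.l (Pth.l (Pth.l (Pth.l Pth.z)))) (nat_lit 156960271) (nat_lit 181982473) (by decide +kernel))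
  (st_mk (Pth.l (Pth.l (Pth.l (Pth.l Pth.z)))) (nat_lit 203079329) (nat_lit 229568770) (by decide +kernel)) sv1
theorem so2 : StarOK sI G S2 :=
  star_mk (by decide) (by decide) rfl rfl rfl rfl rfl rfl (rfl : _ = t0) (rfl : _ = t5)
  (st_mk (Pth.l (Pth.l (Pth.l (Pth.l Pth.z)))) (nat_lit 382802761) (nat_lit 386062810) (by decide +kernel))
  (st_mk (Pth.l (Pth.l (Pth.l (Pth.l Pth.z)))) (nat_lit 421463109) (nat_lit 425461152) (by decide +kernel))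
  (st_mk (Pth.l (Pth.l (Pth.l (Pth.l Pth.z)))) (nat_lit 466578041) (nat_lit 471547032) (by decide +kernel)) sv2
theorem so3 : StarOK sI G S3 :=
  star_mk (by decide) (by decide) rfl rfl rfl rfl rfl rfl (rfl : _ = t5) (rfl : _ = t0)
  (st_mk (Pth.l (Pth.l (Pth.l (Pth.l Pth.z)))) (nat_lit 118523481) (nat_lit 137997860) (by decide +kernel))
  (st_mk (Pth.l (Pth.l (Pth.l (Pth.l Pth.z)))) (nat_lit 155908587) (nat_lit 176030342) (by decide +kernel))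
  (st_mk (Pth.l (Pth.l (Pth.l (Pth.l Pth.z)))) (nat_lit 198093338) (nat_lit 222866165) (by decide +kernel)) sv3
theorem so4 : StarOK sI G S4 :=
  star_mk (by decide) (by decide) rfl rfl rfl rfl rfl rfl (rfl : _ = t1) (rfl : _ = t3)
  (st_mk (Pth.l (Pth.l (Pth.l (Pth.l Pth.z)))) (nat_lit 367645177) (nat_lit 372830053) (by decide +kernel))
  (st_mk (Pth.l (Pth.l (Pth.l (Pth.l Pth.z)))) (nat_lit 403226764) (nat_lit 409149889) (by decide +kernel))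
  (st_mk (Pth.l (Pth.l (Pth.l (Pth.l Pth.z)))) (nat_lit 444362632) (nat_lit 451229810) (by decide +kernel)) sv4
theorem so5 : StarOK sI G S5 :=
  star_mk (by decide) (by decide) rfl rfl rfl rfl rfl rfl (rfl : _ = t3) (rfl : _ = t1)
  (st_mk (Pth.l (Pth.l (Pth.l (Pth.l Pth.z)))) (nat_lit 239953992) (nat_lit 242493734) (by decide +kernel))
  (st_mk (Pth.l (Pth.l (Pth.l (Pth.l Pth.z)))) (nat_lit 275450835) (nat_lit 278637561) (by decide +kernel))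
  (st_mk (Pth.l (Pth.l (Pth.l (Pth.l Pth.z)))) (nat_lit 315976665) (nat_lit 321103585) (by decide +kernel)) sv5
theorem ok : GroupOK (nat_lit 209321984) (nat_lit 268435456) G := grp_mk (allS_c so0 (allS_c so1 (allS_c so2 (allS_c so3 (allS_c so4 (allS_c so5 allS_n))))))
theorem cov : GCov G cl4 cl5 cl9 := cov_mk
  ⟨0, by decide, rfl, rfl, rfl⟩ ⟨1, by decide, rfl, rfl, rfl⟩ ⟨2, by decide, rfl, rfl, rfl⟩ ⟨3, by decide, rfl, rfl, rfl⟩ ⟨4, by decide, rfl, rfl, rfl⟩ ⟨5, by decide, rfl, rfl, rfl⟩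
end Q125_3

namespace Q126_0
def sI : I := I.pos (nat_lit 0) (nat_lit 91291648)
def b0_0 : Bx := Bx.mk (St.mk (I.pos (nat_lit 157597696) (nat_lit 261455872)) (I.mix (nat_lit 30048256) (nat_lit 77938688)) (I.mix (nat_lit 168902656) (nat_lit 64028672)) (I.pos (nat_lit 240091136) (nat_lit 412483584)) (I.mix (nat_lit 95895552) (nat_lit 73334784)) (I.mix (nat_lit 93798400) (nat_lit 92930048)) (I.mix (nat_lit 160579584) (nat_lit 192528384)))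
  false (nat_lit 0)
def b0_1 : Bx := Bx.mk (St.mk (I.pos (nat_lit 29048832) (nat_lit 64716800)) (I.mix (nat_lit 12992512) (nat_lit 50577408)) (I.neg (nat_lit 16154624) (nat_lit 50413568)) (I.pos (nat_lit 143605760) (nat_lit 161644544)) (I.mix (nat_lit 32309248) (nat_lit 50921472)) (I.mix (nat_lit 51249152) (nat_lit 32178176)) (I.mix (nat_lit 28639232) (nat_lit 22282240)))
  false (nat_lit 0)
def b0_2 : Bx := Bx.mk (St.mk (I.pos (nat_lit 58654720) (nat_lit 96124928)) (I.mix (nat_lit 64929792) (nat_lit 13959168)) (I.neg (nat_lit 32931840) (nat_lit 84361216)) (I.pos (nat_lit 153075712) (nat_lit 182222848)) (I.mix (nat_lit 86835200) (nat_lit 31604736)) (I.mix (nat_lit 39092224) (nat_lit 80216064)) (I.mix (nat_lit 29409280) (nat_lit 57704448)))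
  false (nat_lit 0)
def b0_3 : Bx := Bx.mk (St.mk (I.neg (nat_lit 28983296) (nat_lit 64716800)) (I.mix (nat_lit 50577408) (nat_lit 12992512)) (I.neg (nat_lit 16154624) (nat_lit 50413568)) (I.pos (nat_lit 143605760) (nat_lit 161644544)) (I.mix (nat_lit 50921472) (nat_lit 32309248)) (I.mix (nat_lit 32243712) (nat_lit 51265536)) (I.mix (nat_lit 28639232) (nat_lit 22282240)))
  true (nat_lit 0)
def b0_4 : Bx := Bx.mk (St.mk (I.pos (nat_lit 44056576) (nat_lit 63291392)) (I.mix (nat_lit 10747904) (nat_lit 17874944)) (I.neg (nat_lit 30490624) (nat_lit 49299456)) (I.pos (nat_lit 147423232) (nat_lit 161087488)) (I.mix (nat_lit 32358400) (nat_lit 23445504)) (I.mix (nat_lit 25657344) (nat_lit 32243712)) (I.mix (nat_lit 13729792) (nat_lit 22315008)))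
  false (nat_lit 0)
def b0_5 : Bx := Bx.mk (St.mk (I.pos (nat_lit 67895296) (nat_lit 144621568)) (I.neg (nat_lit 7290880) (nat_lit 64241664)) (I.neg (nat_lit 31735808) (nat_lit 84590592)) (I.pos (nat_lit 160055296) (nat_lit 225968128)) (I.mix (nat_lit 81215488) (nat_lit 55197696)) (I.mix (nat_lit 42352640) (nat_lit 92880896)) (I.mix (nat_lit 36782080) (nat_lit 83886080)))
  false (nat_lit 0)
def b0_6 : Bx := Bx.mk (St.mk (I.mix (nat_lit 43548672) (nat_lit 4521984)) (I.mix (nat_lit 44646400) (nat_lit 9076736)) (I.neg (nat_lit 19546112) (nat_lit 28409856)) (I.pos (nat_lit 141672448) (nat_lit 153436160)) (I.mix (nat_lit 37978112) (nat_lit 40861696)) (I.mix (nat_lit 28688384) (nat_lit 58572800)) (I.mix (nat_lit 11141120) (nat_lit 9715712)))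
  true (nat_lit 0)
def b0_7 : Bx := Bx.mk (St.mk (I.mix (nat_lit 4521984) (nat_lit 43548672)) (I.mix (nat_lit 9076736) (nat_lit 44646400)) (I.neg (nat_lit 19546112) (nat_lit 28409856)) (I.pos (nat_lit 141672448) (nat_lit 153436160)) (I.mix (nat_lit 40861696) (nat_lit 37978112)) (I.mix (nat_lit 58572800) (nat_lit 28688384)) (I.mix (nat_lit 11141120) (nat_lit 9715712)))
  false (nat_lit 0)
def b0_8 : Bx := Bx.mk (St.mk (I.pos (nat_lit 126435328) (nat_lit 210026496)) (I.mix (nat_lit 37617664) (nat_lit 74809344)) (I.mix (nat_lit 68567040) (nat_lit 55312384)) (I.pos (nat_lit 205488128) (nat_lit 315097088)) (I.mix (nat_lit 113754112) (nat_lit 67878912)) (I.mix (nat_lit 160399360) (nat_lit 79708160)) (I.mix (nat_lit 160497664) (nat_lit 81641472)))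
  false (nat_lit 0)
def t0 : BTr := (BTr.n (BTr.n (BTr.n (BTr.b b0_0) (BTr.b b0_1)) (BTr.n (BTr.b b0_2) (BTr.b b0_3))) (BTr.n (BTr.n (BTr.b b0_4) (BTr.b b0_5)) (BTr.n (BTr.b b0_6) (BTr.n (BTr.b b0_7) (BTr.b b0_8)))))
namespace T0
def l0 : Tr := Tr.L (Pth.l (Pth.l (Pth.l Pth.z)))
def l1 : Tr := Tr.L (Pth.l (Pth.l (Pth.r Pth.z)))
def l2 : Tr := Tr.L (Pth.l (Pth.r (Pth.l Pth.z)))
def l3 : Tr := Tr.L (Pth.l (Pth.r (Pth.r Pth.z)))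
def l4 : Tr := Tr.L (Pth.r (Pth.l (Pth.l Pth.z)))
def l5 : Tr := Tr.L (Pth.r (Pth.l (Pth.r Pth.z)))
def l6 : Tr := Tr.L (Pth.r (Pth.r (Pth.l Pth.z)))
def l7 : Tr := Tr.L (Pth.r (Pth.r (Pth.r (Pth.l Pth.z))))
def l8 : Tr := Tr.L (Pth.r (Pth.r (Pth.r (Pth.r Pth.z))))
end T0
def b1_0 : Bx := Bx.mk (St.mk (I.pos (nat_lit 157581312) (nat_lit 261586944)) (I.mix (nat_lit 25985024) (nat_lit 55508992)) (I.mix (nat_lit 72433664) (nat_lit 85327872)) (I.pos (nat_lit 92454912) (nat_lit 281001984)) (I.mix (nat_lit 95715328) (nat_lit 64389120)) (I.mix (nat_lit 84262912) (nat_lit 68239360)) (I.mix (nat_lit 135512064) (nat_lit 132349952)))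
  false (nat_lit 0)
def b1_1 : Bx := Bx.mk (St.mk (I.mix (nat_lit 8945664) (nat_lit 138346496)) (I.mix (nat_lit 8699904) (nat_lit 26853376)) (I.mix (nat_lit 15319040) (nat_lit 19234816)) (I.mix (nat_lit 3080192) (nat_lit 86867968)) (I.mix (nat_lit 30965760) (nat_lit 25231360)) (I.mix (nat_lit 28114944) (nat_lit 20332544)) (I.mix (nat_lit 24100864) (nat_lit 17186816)))
  false (nat_lit 0)
def b1_2 : Bx := Bx.mk (St.mk (I.pos (nat_lit 120061952) (nat_lit 155893760)) (I.mix (nat_lit 47333376) (nat_lit 10518528)) (I.mix (nat_lit 53772288) (nat_lit 3375104)) (I.pos (nat_lit 55427072) (nat_lit 104464384)) (I.mix (nat_lit 80691200) (nat_lit 25264128)) (I.mix (nat_lit 42680320) (nat_lit 90701824)) (I.mix (nat_lit 36044800) (nat_lit 84803584)))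
  false (nat_lit 0)
def b1_3 : Bx := Bx.mk (St.mk (I.mix (nat_lit 12222464) (nat_lit 105988096)) (I.mix (nat_lit 23920640) (nat_lit 3112960)) (I.mix (nat_lit 20496384) (nat_lit 1146880)) (I.mix (nat_lit 2228224) (nat_lit 57704448)) (I.mix (nat_lit 33800192) (nat_lit 13074432)) (I.mix (nat_lit 19267584) (nat_lit 34979840)) (I.mix (nat_lit 11632640) (nat_lit 22233088)))
  false (nat_lit 0)
def b1_4 : Bx := Bx.mk (St.mk (I.mix (nat_lit 14745600) (nat_lit 92602368)) (I.mix (nat_lit 2424832) (nat_lit 2752512)) (I.mix (nat_lit 4931584) (nat_lit 704512)) (I.mix (nat_lit 1949696) (nat_lit 47939584)) (I.mix (nat_lit 5341184) (nat_lit 3178496)) (I.mix (nat_lit 3555328) (nat_lit 3784704)) (I.mix (nat_lit 1212416) (nat_lit 1392640)))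
  false (nat_lit 0)
def b1_5 : Bx := Bx.mk (St.mk (I.pos (nat_lit 114294784) (nat_lit 134381568)) (I.mix (nat_lit 7995392) (nat_lit 7110656)) (I.mix (nat_lit 14663680) (nat_lit 638976)) (I.pos (nat_lit 51855360) (nat_lit 84918272)) (I.mix (nat_lit 21315584) (nat_lit 11878400)) (I.mix (nat_lit 14647296) (nat_lit 17252352)) (I.mix (nat_lit 12943360) (nat_lit 16891904)))
  false (nat_lit 0)
def b1_6 : Bx := Bx.mk (St.mk (I.pos (nat_lit 124469248) (nat_lit 178454528)) (I.neg (nat_lit 2408448) (nat_lit 49496064)) (I.neg (nat_lit 8339456) (nat_lit 54181888)) (I.pos (nat_lit 72286208) (nat_lit 137658368)) (I.mix (nat_lit 64323584) (nat_lit 32669696)) (I.mix (nat_lit 35635200) (nat_lit 56262656)) (I.mix (nat_lit 34045952) (nat_lit 60686336)))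
  false (nat_lit 0)
def b1_7 : Bx := Bx.mk (St.mk (I.mix (nat_lit 8847360) (nat_lit 114163712)) (I.mix (nat_lit 27607040) (nat_lit 5046272)) (I.mix (nat_lit 23068672) (nat_lit 1228800)) (I.mix (nat_lit 2441216) (nat_lit 64864256)) (I.mix (nat_lit 31391744) (nat_lit 20742144)) (I.mix (nat_lit 19300352) (nat_lit 28966912)) (I.mix (nat_lit 12042240) (nat_lit 20234240)))
  false (nat_lit 0)
def b1_8 : Bx := Bx.mk (St.mk (I.pos (nat_lit 161480704) (nat_lit 219922432)) (I.mix (nat_lit 37142528) (nat_lit 57851904)) (I.mix (nat_lit 45056000) (nat_lit 85590016)) (I.pos (nat_lit 102825984) (nat_lit 199671808)) (I.mix (nat_lit 136658944) (nat_lit 47513600)) (I.mix (nat_lit 175751168) (nat_lit 88145920)) (I.mix (nat_lit 216842240) (nat_lit 103399424)))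
  false (nat_lit 0)
def b1_9 : Bx := Bx.mk (St.mk (I.mix (nat_lit 12894208) (nat_lit 136740864)) (I.mix (nat_lit 11059200) (nat_lit 32309248)) (I.mix (nat_lit 11927552) (nat_lit 22773760)) (I.mix (nat_lit 2981888) (nat_lit 83509248)) (I.mix (nat_lit 48349184) (nat_lit 25280512)) (I.mix (nat_lit 55492608) (nat_lit 34127872)) (I.mix (nat_lit 39583744) (nat_lit 23756800)))
  false (nat_lit 0)
def b1_10 : Bx := Bx.mk (St.mk (I.pos (nat_lit 159137792) (nat_lit 178143232)) (I.neg (nat_lit 10469376) (nat_lit 34979840)) (I.neg (nat_lit 12140544) (nat_lit 41959424)) (I.pos (nat_lit 101105664) (nat_lit 138002432)) (I.mix (nat_lit 27607040) (nat_lit 13533184)) (I.mix (nat_lit 13254656) (nat_lit 19218432)) (I.mix (nat_lit 15286272) (nat_lit 22757376)))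
  false (nat_lit 0)
def b1_11 : Bx := Bx.mk (St.mk (I.mix (nat_lit 13484032) (nat_lit 114655232)) (I.mix (nat_lit 12173312) (nat_lit 1114112)) (I.mix (nat_lit 12648448) (nat_lit 917504)) (I.mix (nat_lit 2457600) (nat_lit 65224704)) (I.mix (nat_lit 8388608) (nat_lit 7536640)) (I.mix (nat_lit 5570560) (nat_lit 7143424)) (I.mix (nat_lit 4161536) (nat_lit 5554176)))
  false (nat_lit 0)
def t1 : BTr := (BTr.n (BTr.n (BTr.n (BTr.b b1_0) (BTr.n (BTr.b b1_1) (BTr.b b1_2))) (BTr.n (BTr.b b1_3) (BTr.n (BTr.b b1_4) (BTr.b b1_5)))) (BTr.n (BTr.n (BTr.b b1_6) (BTr.n (BTr.b b1_7) (BTr.b b1_8))) (BTr.n (BTr.b b1_9) (BTr.n (BTr.b b1_10) (BTr.b b1_11)))))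
namespace T1
def l0 : Tr := Tr.L (Pth.l (Pth.l (Pth.l Pth.z)))
def l1 : Tr := Tr.L (Pth.l (Pth.l (Pth.r (Pth.l Pth.z))))
def l2 : Tr := Tr.L (Pth.l (Pth.l (Pth.r (Pth.r Pth.z))))
def l3 : Tr := Tr.L (Pth.l (Pth.r (Pth.l Pth.z)))
def l4 : Tr := Tr.L (Pth.l (Pth.r (Pth.r (Pth.l Pth.z))))
def l5 : Tr := Tr.L (Pth.l (Pth.r (Pth.r (Pth.r Pth.z))))
def l6 : Tr := Tr.L (Pth.r (Pth.l (Pth.l Pth.z)))
def l7 : Tr := Tr.L (Pth.r (Pth.l (Pth.r (Pth.l Pth.z))))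
def l8 : Tr := Tr.L (Pth.r (Pth.l (Pth.r (Pth.r Pth.z))))
def l9 : Tr := Tr.L (Pth.r (Pth.r (Pth.l Pth.z)))
def l10 : Tr := Tr.L (Pth.r (Pth.r (Pth.r (Pth.l Pth.z))))
def l11 : Tr := Tr.L (Pth.r (Pth.r (Pth.r (Pth.r Pth.z))))
end T1
def b2_0 : Bx := Bx.mk (St.mk (I.pos (nat_lit 157319168) (nat_lit 270974976)) (I.mix (nat_lit 8880128) (nat_lit 96583680)) (I.mix (nat_lit 164544512) (nat_lit 70860800)) (I.pos (nat_lit 368066560) (nat_lit 555728896)) (I.mix (nat_lit 90095616) (nat_lit 79347712)) (I.mix (nat_lit 106971136) (nat_lit 79659008)) (I.mix (nat_lit 168247296) (nat_lit 144769024)))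
  false (nat_lit 0)
def b2_1 : Bx := Bx.mk (St.mk (I.mix (nat_lit 53837824) (nat_lit 1359872)) (I.mix (nat_lit 1523712) (nat_lit 87359488)) (I.neg (nat_lit 63291392) (nat_lit 88604672)) (I.pos (nat_lit 265388032) (nat_lit 288178176)) (I.mix (nat_lit 38895616) (nat_lit 87441408)) (I.mix (nat_lit 84901888) (nat_lit 55967744)) (I.mix (nat_lit 32653312) (nat_lit 31391744)))
  true (nat_lit 0)
def b2_2 : Bx := Bx.mk (St.mk (I.mix (nat_lit 6881280) (nat_lit 54001664)) (I.mix (nat_lit 87506944) (nat_lit 6373376)) (I.neg (nat_lit 63291392) (nat_lit 88604672)) (I.pos (nat_lit 265388032) (nat_lit 288178176)) (I.mix (nat_lit 87441408) (nat_lit 38895616)) (I.mix (nat_lit 55967744) (nat_lit 84901888)) (I.mix (nat_lit 32653312) (nat_lit 31391744)))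
  false (nat_lit 0)
def b2_3 : Bx := Bx.mk (St.mk (I.pos (nat_lit 22659072) (nat_lit 117293056)) (I.neg (nat_lit 5898240) (nat_lit 87818240)) (I.neg (nat_lit 25329664) (nat_lit 101580800)) (I.pos (nat_lit 265961472) (nat_lit 328466432)) (I.mix (nat_lit 93044736) (nat_lit 69140480)) (I.mix (nat_lit 57131008) (nat_lit 105447424)) (I.mix (nat_lit 64602112) (nat_lit 90406912)))
  false (nat_lit 0)
def b2_4 : Bx := Bx.mk (St.mk (I.pos (nat_lit 97288192) (nat_lit 200278016)) (I.mix (nat_lit 39501824) (nat_lit 100745216)) (I.mix (nat_lit 62013440) (nat_lit 70647808)) (I.pos (nat_lit 307068928) (nat_lit 432160768)) (I.mix (nat_lit 125435904) (nat_lit 73433088)) (I.mix (nat_lit 171261952) (nat_lit 94617600)) (I.mix (nat_lit 166543360) (nat_lit 109969408)))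
  false (nat_lit 0)
def b2_5 : Bx := Bx.mk (St.mk (I.neg (nat_lit 22659072) (nat_lit 117293056)) (I.pos (nat_lit 5898240) (nat_lit 87834624)) (I.neg (nat_lit 25329664) (nat_lit 101580800)) (I.pos (nat_lit 265945088) (nat_lit 328466432)) (I.mix (nat_lit 69140480) (nat_lit 93044736)) (I.mix (nat_lit 105463808) (nat_lit 57131008)) (I.mix (nat_lit 64602112) (nat_lit 90406912)))
  true (nat_lit 0)
def b2_6 : Bx := Bx.mk (St.mk (I.mix (nat_lit 9371648) (nat_lit 5586944)) (I.mix (nat_lit 4407296) (nat_lit 20037632)) (I.neg (nat_lit 68026368) (nat_lit 77004800)) (I.pos (nat_lit 265535488) (nat_lit 276414464)) (I.mix (nat_lit 17367040) (nat_lit 30588928)) (I.mix (nat_lit 28786688) (nat_lit 17809408)) (I.mix (nat_lit 573440) (nat_lit 8306688)))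
  true (nat_lit 0)
def t2 : BTr := (BTr.n (BTr.n (BTr.b b2_0) (BTr.n (BTr.b b2_1) (BTr.b b2_2))) (BTr.n (BTr.n (BTr.b b2_3) (BTr.b b2_4)) (BTr.n (BTr.b b2_5) (BTr.b b2_6))))
namespace T2
def l0 : Tr := Tr.L (Pth.l (Pth.l Pth.z))
def l1 : Tr := Tr.L (Pth.l (Pth.r (Pth.l Pth.z)))
def l2 : Tr := Tr.L (Pth.l (Pth.r (Pth.r Pth.z)))
def l3 : Tr := Tr.L (Pth.r (Pth.l (Pth.l Pth.z)))
def l4 : Tr := Tr.L (Pth.r (Pth.l (Pth.r Pth.z)))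
def l5 : Tr := Tr.L (Pth.r (Pth.r (Pth.l Pth.z)))
def l6 : Tr := Tr.L (Pth.r (Pth.r (Pth.r Pth.z)))
end T2
def b3_0 : Bx := Bx.mk (St.mk (I.pos (nat_lit 157433856) (nat_lit 266960896)) (I.mix (nat_lit 10485760) (nat_lit 49348608)) (I.mix (nat_lit 3325952) (nat_lit 104972288)) (I.pos (nat_lit 91553792) (nat_lit 290193408)) (I.mix (nat_lit 101154816) (nat_lit 63275008)) (I.mix (nat_lit 97697792) (nat_lit 66322432)) (I.mix (nat_lit 151175168) (nat_lit 91750400)))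
  false (nat_lit 18196376)
def b3_1 : Bx := Bx.mk (St.mk (I.pos (nat_lit 129433600) (nat_lit 175767552)) (I.neg (nat_lit 3522560) (nat_lit 54198272)) (I.mix (nat_lit 46465024) (nat_lit 6881280)) (I.pos (nat_lit 78282752) (nat_lit 130334720)) (I.mix (nat_lit 61456384) (nat_lit 38977536)) (I.mix (nat_lit 42024960) (nat_lit 50413568)) (I.mix (nat_lit 38027264) (nat_lit 52920320)))
  false (nat_lit 0)
def b3_2 : Bx := Bx.mk (St.mk (I.mix (nat_lit 7913472) (nat_lit 113786880)) (I.mix (nat_lit 26656768) (nat_lit 2310144)) (I.mix (nat_lit 15171584) (nat_lit 6307840)) (I.mix (nat_lit 2392064) (nat_lit 63012864)) (I.mix (nat_lit 24887296) (nat_lit 19136512)) (I.mix (nat_lit 15810560) (nat_lit 21823488)) (I.mix (nat_lit 10665984) (nat_lit 15155200)))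
  false (nat_lit 0)
def b3_3 : Bx := Bx.mk (St.mk (I.pos (nat_lit 161906688) (nat_lit 216596480)) (I.mix (nat_lit 43499520) (nat_lit 57425920)) (I.mix (nat_lit 33636352) (nat_lit 108331008)) (I.pos (nat_lit 104808448) (nat_lit 191791104)) (I.mix (nat_lit 146898944) (nat_lit 45088768)) (I.mix (nat_lit 183779328) (nat_lit 83640320)) (I.mix (nat_lit 235585536) (nat_lit 92618752)))
  false (nat_lit 21039605)
def b3_4 : Bx := Bx.mk (St.mk (I.mix (nat_lit 13008896) (nat_lit 134168576)) (I.mix (nat_lit 14647296) (nat_lit 32194560)) (I.mix (nat_lit 5832704) (nat_lit 33243136)) (I.mix (nat_lit 2916352) (nat_lit 81035264)) (I.mix (nat_lit 52625408) (nat_lit 23052288)) (I.mix (nat_lit 57524224) (nat_lit 32079872)) (I.mix (nat_lit 43958272) (nat_lit 21381120)))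
  false (nat_lit 0)
def b3_5 : Bx := Bx.mk (St.mk (I.mix (nat_lit 14630912) (nat_lit 115261440)) (I.mix (nat_lit 13598720) (nat_lit 4554752)) (I.mix (nat_lit 4505600) (nat_lit 8716288)) (I.mix (nat_lit 2441216) (nat_lit 64897024)) (I.mix (nat_lit 14565376) (nat_lit 6914048)) (I.mix (nat_lit 7684096) (nat_lit 9338880)) (I.mix (nat_lit 5881856) (nat_lit 6242304)))
  false (nat_lit 0)
def b3_6 : Bx := Bx.mk (St.mk (I.pos (nat_lit 147947520) (nat_lit 180191232)) (I.neg (nat_lit 442368) (nat_lit 36028416)) (I.mix (nat_lit 23396352) (nat_lit 14729216)) (I.pos (nat_lit 91422720) (nat_lit 137707520)) (I.mix (nat_lit 42631168) (nat_lit 22331392)) (I.mix (nat_lit 26886144) (nat_lit 34340864)) (I.mix (nat_lit 34226176) (nat_lit 36290560)))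
  false (nat_lit 0)
def b3_7 : Bx := Bx.mk (St.mk (I.pos (nat_lit 49594368) (nat_lit 137199616)) (I.mix (nat_lit 3260416) (nat_lit 25542656)) (I.mix (nat_lit 327680) (nat_lit 29753344)) (I.pos (nat_lit 11255808) (nat_lit 87326720)) (I.mix (nat_lit 37781504) (nat_lit 24526848)) (I.mix (nat_lit 37371904) (nat_lit 24592384)) (I.mix (nat_lit 31391744) (nat_lit 19333120)))
  false (nat_lit 0)
def b3_8 : Bx := Bx.mk (St.mk (I.pos (nat_lit 120946688) (nat_lit 160268288)) (I.mix (nat_lit 49692672) (nat_lit 4308992)) (I.mix (nat_lit 41467904) (nat_lit 10321920)) (I.pos (nat_lit 55525376) (nat_lit 109182976)) (I.mix (nat_lit 74203136) (nat_lit 26050560)) (I.mix (nat_lit 43958272) (nat_lit 86032384)) (I.mix (nat_lit 38387712) (nat_lit 75776000)))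
  false (nat_lit 0)
def b3_9 : Bx := Bx.mk (St.mk (I.mix (nat_lit 12042240) (nat_lit 108511232)) (I.mix (nat_lit 24707072) (nat_lit 1277952)) (I.mix (nat_lit 12992512) (nat_lit 3227648)) (I.mix (nat_lit 2277376) (nat_lit 59277312)) (I.mix (nat_lit 29753344) (nat_lit 14188544)) (I.mix (nat_lit 19447808) (nat_lit 32292864)) (I.mix (nat_lit 11370496) (nat_lit 19103744)))
  false (nat_lit 0)
def b3_10 : Bx := Bx.mk (St.mk (I.pos (nat_lit 120274944) (nat_lit 134791168)) (I.mix (nat_lit 1458176) (nat_lit 6766592)) (I.pos (nat_lit 1818624) (nat_lit 12353536)) (I.pos (nat_lit 55181312) (nat_lit 85688320)) (I.mix (nat_lit 7618560) (nat_lit 8093696)) (I.mix (nat_lit 6406144) (nat_lit 4980736)) (I.mix (nat_lit 6127616) (nat_lit 4489216)))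
  false (nat_lit 0)
def b3_11 : Bx := Bx.mk (St.mk (I.mix (nat_lit 11091968) (nat_lit 42975232)) (I.mix (nat_lit 622592) (nat_lit 1949696)) (I.mix (nat_lit 622592) (nat_lit 2572288)) (I.mix (nat_lit 1261568) (nat_lit 24215552)) (I.mix (nat_lit 1359872) (nat_lit 2310144)) (I.mix (nat_lit 1490944) (nat_lit 1130496)) (I.mix (nat_lit 868352) (nat_lit 753664)))
  false (nat_lit 0)
def t3 : BTr := (BTr.n (BTr.n (BTr.n (BTr.b b3_0) (BTr.n (BTr.b b3_1) (BTr.b b3_2))) (BTr.n (BTr.b b3_3) (BTr.n (BTr.b b3_4) (BTr.b b3_5)))) (BTr.n (BTr.n (BTr.b b3_6) (BTr.n (BTr.b b3_7) (BTr.b b3_8))) (BTr.n (BTr.b b3_9) (BTr.n (BTr.b b3_10) (BTr.b b3_11)))))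
namespace T3
def l0 : Tr := Tr.L (Pth.l (Pth.l (Pth.l Pth.z)))
def l1 : Tr := Tr.L (Pth.l (Pth.l (Pth.r (Pth.l Pth.z))))
def l2 : Tr := Tr.L (Pth.l (Pth.l (Pth.r (Pth.r Pth.z))))
def l3 : Tr := Tr.L (Pth.l (Pth.r (Pth.l Pth.z)))
def l4 : Tr := Tr.L (Pth.l (Pth.r (Pth.r (Pth.l Pth.z))))
def l5 : Tr := Tr.L (Pth.l (Pth.r (Pth.r (Pth.r Pth.z))))
def l6 : Tr := Tr.L (Pth.r (Pth.l (Pth.l Pth.z)))
def l7 : Tr := Tr.L (Pth.r (Pth.l (Pth.r (Pth.l Pth.z))))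
def l8 : Tr := Tr.L (Pth.r (Pth.l (Pth.r (Pth.r Pth.z))))
def l9 : Tr := Tr.L (Pth.r (Pth.r (Pth.l Pth.z)))
def l10 : Tr := Tr.L (Pth.r (Pth.r (Pth.r (Pth.l Pth.z))))
def l11 : Tr := Tr.L (Pth.r (Pth.r (Pth.r (Pth.r Pth.z))))
end T3
def b4_0 : Bx := Bx.mk (St.mk (I.pos (nat_lit 138788864) (nat_lit 282542080)) (I.mix (nat_lit 22151168) (nat_lit 89423872)) (I.mix (nat_lit 82132992) (nat_lit 135118848)) (I.pos (nat_lit 357122048) (nat_lit 561152000)) (I.mix (nat_lit 118390784) (nat_lit 95911936)) (I.mix (nat_lit 138182656) (nat_lit 80478208)) (I.mix (nat_lit 193085440) (nat_lit 105365504)))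
  false (nat_lit 126519631)
def b4_1 : Bx := Bx.mk (St.mk (I.pos (nat_lit 41893888) (nat_lit 111640576)) (I.neg (nat_lit 15958016) (nat_lit 94011392)) (I.mix (nat_lit 46743552) (nat_lit 25575424)) (I.pos (nat_lit 271794176) (nat_lit 317997056)) (I.mix (nat_lit 68141056) (nat_lit 56016896)) (I.mix (nat_lit 62996480) (nat_lit 70582272)) (I.mix (nat_lit 56885248) (nat_lit 57229312)))
  false (nat_lit 0)
def b4_2 : Bx := Bx.mk (St.mk (I.pos (nat_lit 102989824) (nat_lit 182829056)) (I.mix (nat_lit 30425088) (nat_lit 96534528)) (I.pos (nat_lit 11632640) (nat_lit 142901248)) (I.pos (nat_lit 305594368) (nat_lit 398802944)) (I.mix (nat_lit 147980288) (nat_lit 61292544)) (I.mix (nat_lit 139362304) (nat_lit 97796096)) (I.mix (nat_lit 147668992) (nat_lit 120700928)))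
  false (nat_lit 94814915)
def b4_3 : Bx := Bx.mk (St.mk (I.neg (nat_lit 41664512) (nat_lit 118898688)) (I.pos (nat_lit 15958016) (nat_lit 94011392)) (I.mix (nat_lit 46743552) (nat_lit 29573120)) (I.pos (nat_lit 271613952) (nat_lit 323633152)) (I.mix (nat_lit 56016896) (nat_lit 68157440)) (I.mix (nat_lit 70582272) (nat_lit 62947328)) (I.mix (nat_lit 56885248) (nat_lit 57229312)))
  true (nat_lit 0)
def b4_4 : Bx := Bx.mk (St.mk (I.mix (nat_lit 69189632) (nat_lit 7536640)) (I.mix (nat_lit 11485184) (nat_lit 93601792)) (I.neg (nat_lit 12681216) (nat_lit 33882112)) (I.pos (nat_lit 266682368) (nat_lit 292864000)) (I.mix (nat_lit 49676288) (nat_lit 81788928)) (I.mix (nat_lit 102612992) (nat_lit 58638336)) (I.mix (nat_lit 29474816) (nat_lit 26935296)))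
  true (nat_lit 0)
def b4_5 : Bx := Bx.mk (St.mk (I.mix (nat_lit 7536640) (nat_lit 69189632)) (I.mix (nat_lit 93601792) (nat_lit 11485184)) (I.neg (nat_lit 12632064) (nat_lit 33882112)) (I.pos (nat_lit 266682368) (nat_lit 292864000)) (I.mix (nat_lit 81788928) (nat_lit 49676288)) (I.mix (nat_lit 58638336) (nat_lit 102612992)) (I.mix (nat_lit 29474816) (nat_lit 26935296)))
  false (nat_lit 0)
def b4_6 : Bx := Bx.mk (St.mk (I.pos (nat_lit 98648064) (nat_lit 117243904)) (I.neg (nat_lit 17661952) (nat_lit 44531712)) (I.pos (nat_lit 999424) (nat_lit 28196864)) (I.pos (nat_lit 303923200) (nat_lit 322682880)) (I.mix (nat_lit 22118400) (nat_lit 30359552)) (I.mix (nat_lit 20529152) (nat_lit 27607040)) (I.mix (nat_lit 16695296) (nat_lit 24068096)))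
  false (nat_lit 0)
def t4 : BTr := (BTr.n (BTr.n (BTr.b b4_0) (BTr.n (BTr.b b4_1) (BTr.b b4_2))) (BTr.n (BTr.n (BTr.b b4_3) (BTr.b b4_4)) (BTr.n (BTr.b b4_5) (BTr.b b4_6))))
namespace T4
def l0 : Tr := Tr.L (Pth.l (Pth.l Pth.z))
def l1 : Tr := Tr.L (Pth.l (Pth.r (Pth.l Pth.z)))
def l2 : Tr := Tr.L (Pth.l (Pth.r (Pth.r Pth.z)))
def l3 : Tr := Tr.L (Pth.r (Pth.l (Pth.l Pth.z)))
def l4 : Tr := Tr.L (Pth.r (Pth.l (Pth.r Pth.z)))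
def l5 : Tr := Tr.L (Pth.r (Pth.r (Pth.l Pth.z)))
def l6 : Tr := Tr.L (Pth.r (Pth.r (Pth.r Pth.z)))
end T4
def b5_0 : Bx := Bx.mk (St.mk (I.pos (nat_lit 146472960) (nat_lit 280657920)) (I.mix (nat_lit 19300352) (nat_lit 67043328)) (I.mix (nat_lit 10256384) (nat_lit 139673600)) (I.pos (nat_lit 231849984) (nat_lit 432275456)) (I.mix (nat_lit 122781696) (nat_lit 89882624)) (I.mix (nat_lit 142606336) (nat_lit 84312064)) (I.mix (nat_lit 206143488) (nat_lit 96272384)))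
  false (nat_lit 80888119)
def b5_1 : Bx := Bx.mk (St.mk (I.pos (nat_lit 91324416) (nat_lit 146620416)) (I.neg (nat_lit 4521984) (nat_lit 73383936)) (I.mix (nat_lit 32948224) (nat_lit 43253760)) (I.pos (nat_lit 177389568) (nat_lit 220626944)) (I.mix (nat_lit 53968896) (nat_lit 50921472)) (I.mix (nat_lit 44351488) (nat_lit 56819712)) (I.mix (nat_lit 40796160) (nat_lit 52592640)))
  false (nat_lit 0)
def b5_2 : Bx := Bx.mk (St.mk (I.mix (nat_lit 29540352) (nat_lit 2146304)) (I.mix (nat_lit 44974080) (nat_lit 11157504)) (I.pos (nat_lit 19906560) (nat_lit 28311552)) (I.pos (nat_lit 139395072) (nat_lit 148045824)) (I.mix (nat_lit 24772608) (nat_lit 42270720)) (I.mix (nat_lit 25083904) (nat_lit 41992192)) (I.mix (nat_lit 6733824) (nat_lit 7847936)))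
  true (nat_lit 0)
def b5_3 : Bx := Bx.mk (St.mk (I.pos (nat_lit 136249344) (nat_lit 193085440)) (I.mix (nat_lit 43073536) (nat_lit 72908800)) (I.pos (nat_lit 2260992) (nat_lit 142901248)) (I.pos (nat_lit 210698240) (nat_lit 280870912)) (I.mix (nat_lit 133627904) (nat_lit 53772288)) (I.mix (nat_lit 136970240) (nat_lit 66781184)) (I.mix (nat_lit 155910144) (nat_lit 69763072)))
  false (nat_lit 29847815)
def b5_4 : Bx := Bx.mk (St.mk (I.mix (nat_lit 2146304) (nat_lit 29540352)) (I.mix (nat_lit 11157504) (nat_lit 44974080)) (I.pos (nat_lit 19906560) (nat_lit 28311552)) (I.pos (nat_lit 139395072) (nat_lit 148045824)) (I.mix (nat_lit 42270720) (nat_lit 24772608)) (I.mix (nat_lit 41992192) (nat_lit 25083904)) (I.mix (nat_lit 6733824) (nat_lit 7847936)))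
  false (nat_lit 0)
def b5_5 : Bx := Bx.mk (St.mk (I.pos (nat_lit 126173184) (nat_lit 144359424)) (I.neg (nat_lit 6848512) (nat_lit 33898496)) (I.pos (nat_lit 10534912) (nat_lit 40452096)) (I.pos (nat_lit 200818688) (nat_lit 218791936)) (I.mix (nat_lit 33488896) (nat_lit 23789568)) (I.mix (nat_lit 20611072) (nat_lit 28819456)) (I.mix (nat_lit 24707072) (nat_lit 25231360)))
  false (nat_lit 0)
def b5_6 : Bx := Bx.mk (St.mk (I.mix (nat_lit 9224192) (nat_lit 802816)) (I.mix (nat_lit 7176192) (nat_lit 9240576)) (I.pos (nat_lit 20545536) (nat_lit 25329664)) (I.pos (nat_lit 139362304) (nat_lit 144015360)) (I.mix (nat_lit 19251200) (nat_lit 12861440)) (I.mix (nat_lit 12566528) (nat_lit 14942208)) (I.mix (nat_lit 2441216) (nat_lit 1212416)))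
  true (nat_lit 0)
def b5_7 : Bx := Bx.mk (St.mk (I.pos (nat_lit 13402112) (nat_lit 68435968)) (I.mix (nat_lit 8781824) (nat_lit 49348608)) (I.pos (nat_lit 3948544) (nat_lit 33423360)) (I.pos (nat_lit 137871360) (nat_lit 161251328)) (I.mix (nat_lit 43696128) (nat_lit 43712512)) (I.mix (nat_lit 63930368) (nat_lit 32718848)) (I.mix (nat_lit 32784384) (nat_lit 20955136)))
  false (nat_lit 0)
def b5_8 : Bx := Bx.mk (St.mk (I.pos (nat_lit 56836096) (nat_lit 113033216)) (I.mix (nat_lit 71073792) (nat_lit 9977856)) (I.mix (nat_lit 26968064) (nat_lit 16564224)) (I.pos (nat_lit 153534464) (nat_lit 191184896)) (I.mix (nat_lit 64831488) (nat_lit 39436288)) (I.mix (nat_lit 43696128) (nat_lit 87883776)) (I.mix (nat_lit 29376512) (nat_lit 49217536)))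
  false (nat_lit 0)
def b5_9 : Bx := Bx.mk (St.mk (I.neg (nat_lit 13402112) (nat_lit 68435968)) (I.mix (nat_lit 49348608) (nat_lit 8781824)) (I.pos (nat_lit 3948544) (nat_lit 33423360)) (I.pos (nat_lit 137871360) (nat_lit 161251328)) (I.mix (nat_lit 43712512) (nat_lit 43712512)) (I.mix (nat_lit 32718848) (nat_lit 63930368)) (I.mix (nat_lit 32784384) (nat_lit 20955136)))
  true (nat_lit 0)
def t5 : BTr := (BTr.n (BTr.n (BTr.n (BTr.b b5_0) (BTr.b b5_1)) (BTr.n (BTr.b b5_2) (BTr.n (BTr.b b5_3) (BTr.b b5_4)))) (BTr.n (BTr.n (BTr.b b5_5) (BTr.b b5_6)) (BTr.n (BTr.b b5_7) (BTr.n (BTr.b b5_8) (BTr.b b5_9)))))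
namespace T5
def l0 : Tr := Tr.L (Pth.l (Pth.l (Pth.l Pth.z)))
def l1 : Tr := Tr.L (Pth.l (Pth.l (Pth.r Pth.z)))
def l2 : Tr := Tr.L (Pth.l (Pth.r (Pth.l Pth.z)))
def l3 : Tr := Tr.L (Pth.l (Pth.r (Pth.r (Pth.l Pth.z))))
def l4 : Tr := Tr.L (Pth.l (Pth.r (Pth.r (Pth.r Pth.z))))
def l5 : Tr := Tr.L (Pth.r (Pth.l (Pth.l Pth.z)))
def l6 : Tr := Tr.L (Pth.r (Pth.l (Pth.r Pth.z)))
def l7 : Tr := Tr.L (Pth.r (Pth.r (Pth.l Pth.z)))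
def l8 : Tr := Tr.L (Pth.r (Pth.r (Pth.r (Pth.l Pth.z))))
def l9 : Tr := Tr.L (Pth.r (Pth.r (Pth.r (Pth.r Pth.z))))
end T5
theorem bx0_0 : BoxOK sI cl4 cl5 cl13 t2 t4 b0_0 :=
  box_mk (TrL.c (I.pos (nat_lit 0) (nat_lit 0)) (xa (xb (xa T2.l0 T2.l0) (xa (xb T2.l0 T2.l0) T2.l0)) (xb (xa T2.l4 T2.l4) (xa (xb T2.l0 T2.l0) T2.l4)))
  (TrL.c (I.pos (nat_lit 0) (nat_lit 0)) (xa (xb T4.l1 T4.l1) (xb T4.l1 T4.l1))
  (TrL.c (I.pos (nat_lit 0) (nat_lit 0)) (xs T2.l5 (xa T2.l1 (xb T2.l5 T2.l5)))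
  (TrL.c (I.pos (nat_lit 0) (nat_lit 0)) (xa T4.l2 (xb (xa T4.l2 (xs T4.l2 T4.l2)) (xs T4.l2 (xa T4.l2 T4.l2))))
  (TrL.c (I.pos (nat_lit 0) (nat_lit 0)) (xs T2.l3 (xa T2.l2 (xb T2.l3 T2.l3)))
  (TrL.c (I.pos (nat_lit 0) (nat_lit 0)) (xa (xb T4.l3 T4.l3) (xb T4.l3 T4.l3))
  TrL.n)))))) (by decide +kernel)
theorem bx0_1 : BoxOK sI cl4 cl5 cl13 t2 t4 b0_1 :=
  box_mk (TrL.c (I.pos (nat_lit 0) (nat_lit 0)) T2.l0
  (TrL.c (I.pos (nat_lit 0) (nat_lit 0)) T4.l1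
  (TrL.c (I.pos (nat_lit 0) (nat_lit 0)) T2.l1
  (TrL.c (I.pos (nat_lit 0) (nat_lit 0)) T4.l2
  (TrL.c (I.pos (nat_lit 0) (nat_lit 0)) T2.l2
  (TrL.c (I.pos (nat_lit 0) (nat_lit 0)) T4.l3
  TrL.n)))))) (by decide +kernel)
theorem bx0_2 : BoxOK sI cl4 cl5 cl13 t2 t4 b0_2 :=
  box_mk (TrL.c (I.pos (nat_lit 0) (nat_lit 0)) T2.l0
  (TrL.c (I.pos (nat_lit 0) (nat_lit 0)) T4.l1
  (TrL.c (I.pos (nat_lit 0) (nat_lit 0)) T2.l1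
  (TrL.c (I.pos (nat_lit 0) (nat_lit 0)) T4.l2
  (TrL.c (I.pos (nat_lit 0) (nat_lit 0)) T2.l2
  (TrL.c (I.pos (nat_lit 0) (nat_lit 0)) T4.l3
  TrL.n)))))) (by decide +kernel)
theorem bx0_3 : BoxOK sI cl4 cl5 cl13 t2 t4 b0_3 :=
  box_mk (TrL.c (I.pos (nat_lit 0) (nat_lit 0)) T4.l1
  (TrL.c (I.pos (nat_lit 0) (nat_lit 0)) T2.l1
  TrL.n)) (by decide +kernel)
theorem bx0_4 : BoxOK sI cl4 cl5 cl13 t2 t4 b0_4 :=
  box_mk (TrL.c (I.pos (nat_lit 0) (nat_lit 0)) T2.l0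
  (TrL.c (I.pos (nat_lit 0) (nat_lit 0)) T4.l1
  (TrL.c (I.pos (nat_lit 0) (nat_lit 0)) T2.l1
  (TrL.c (I.pos (nat_lit 0) (nat_lit 0)) T4.l2
  (TrL.c (I.pos (nat_lit 0) (nat_lit 0)) T2.l2
  (TrL.c (I.pos (nat_lit 0) (nat_lit 0)) T4.l3
  TrL.n)))))) (by decide +kernel)
theorem bx0_5 : BoxOK sI cl4 cl5 cl13 t2 t4 b0_5 :=
  box_mk (TrL.c (I.pos (nat_lit 0) (nat_lit 0)) (xa T2.l0 T2.l0)
  (TrL.c (I.pos (nat_lit 0) (nat_lit 0)) T4.l1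
  (TrL.c (I.pos (nat_lit 0) (nat_lit 0)) T2.l1
  (TrL.c (I.pos (nat_lit 0) (nat_lit 0)) T4.l2
  (TrL.c (I.pos (nat_lit 0) (nat_lit 0)) T2.l2
  (TrL.c (I.pos (nat_lit 0) (nat_lit 0)) T4.l3
  TrL.n)))))) (by decide +kernel)
theorem bx0_6 : BoxOK sI cl4 cl5 cl13 t2 t4 b0_6 :=
  box_mk (TrL.c (I.pos (nat_lit 0) (nat_lit 0)) T4.l6
  (TrL.c (I.pos (nat_lit 0) (nat_lit 0)) T2.l6
  TrL.n)) (by decide +kernel)
theorem bx0_7 : BoxOK sI cl4 cl5 cl13 t2 t4 b0_7 :=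
  box_mk (TrL.c (I.pos (nat_lit 0) (nat_lit 0)) (xb T2.l0 T2.l0)
  (TrL.c (I.pos (nat_lit 0) (nat_lit 0)) T4.l6
  (TrL.c (I.pos (nat_lit 0) (nat_lit 0)) T2.l6
  (TrL.c (I.pos (nat_lit 0) (nat_lit 0)) T4.l2
  (TrL.c (I.pos (nat_lit 0) (nat_lit 0)) T2.l2
  (TrL.c (I.pos (nat_lit 0) (nat_lit 0)) T4.l3
  TrL.n)))))) (by decide +kernel)
theorem bx0_8 : BoxOK sI cl4 cl5 cl13 t2 t4 b0_8 :=
  box_mk (TrL.c (I.pos (nat_lit 0) (nat_lit 0)) (xb (xa (xb T2.l0 T2.l0) (xa T2.l0 T2.l0)) (xa (xb (xa T2.l0 T2.l0) (xa T2.l0 T2.l0)) (xa T2.l0 T2.l0)))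
  (TrL.c (I.pos (nat_lit 0) (nat_lit 0)) (xb (xa T4.l1 T4.l1) (xa T4.l1 T4.l1))
  (TrL.c (I.pos (nat_lit 0) (nat_lit 0)) (xs T2.l1 (xb T2.l1 T2.l1))
  (TrL.c (I.pos (nat_lit 0) (nat_lit 0)) (xb (xa T4.l2 T4.l2) (xa T4.l2 (xs T4.l2 T4.l2)))
  (TrL.c (I.pos (nat_lit 0) (nat_lit 0)) (xs T2.l2 (xb T2.l2 T2.l2))
  (TrL.c (I.pos (nat_lit 0) (nat_lit 0)) (xb (xa T4.l3 T4.l3) (xa T4.l3 T4.l3))
  TrL.n)))))) (by decide +kernel)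
theorem sv0 : StarV sI cl4 cl5 cl13 t2 t4 t0 :=
  (bt_n (bt_n (bt_n (bt_b bx0_0) (bt_b bx0_1)) (bt_n (bt_b bx0_2) (bt_b bx0_3))) (bt_n (bt_n (bt_b bx0_4) (bt_b bx0_5)) (bt_n (bt_b bx0_6) (bt_n (bt_b bx0_7) (bt_b bx0_8)))))
def S0 : StarD := StarD.mk cl4 cl5 cl13 2 4 t0
theorem bx1_0 : BoxOK sI cl4 cl13 cl5 t4 t2 b1_0 :=
  box_mk (TrL.c (I.pos (nat_lit 0) (nat_lit 0)) (xa (xb (xa T4.l0 T4.l0) (xa (xs T4.l0 T4.l0) T4.l0)) (xa (xb T4.l0 (xs T4.l0 T4.l0)) (xb (xb T4.l2 T4.l0) (xs T4.l0 T4.l2))))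
  (TrL.c (I.pos (nat_lit 0) (nat_lit 0)) (xa (xb T2.l3 (xa T2.l3 T2.l3)) (xa (xb T2.l3 T2.l3) (xb T2.l3 (xs T2.l3 T2.l3))))
  (TrL.c (I.pos (nat_lit 0) (nat_lit 0)) (xa T4.l4 (xb T4.l4 (xa T4.l4 T4.l4)))
  (TrL.c (I.pos (nat_lit 0) (nat_lit 0)) (xa T2.l4 (xb (xa T2.l4 (xb T2.l4 T2.l4)) (xa T2.l4 (xs T2.l4 T2.l4))))
  (TrL.c (I.pos (nat_lit 0) (nat_lit 0)) (xa T4.l5 (xb T4.l5 (xa T4.l5 T4.l5)))
  (TrL.c (I.pos (nat_lit 0) (nat_lit 0)) (xa (xb T2.l5 (xa T2.l5 T2.l5)) (xa (xb T2.l5 T2.l5) (xb T2.l5 (xs T2.l5 T2.l5))))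
  TrL.n)))))) (by decide +kernel)
theorem bx1_1 : BoxOK sI cl4 cl13 cl5 t4 t2 b1_1 :=
  box_mk (TrL.c (I.pos (nat_lit 0) (nat_lit 0)) (xa T4.l0 T4.l0)
  (TrL.c (I.pos (nat_lit 0) (nat_lit 0)) (xa T2.l3 T2.l3)
  (TrL.c (I.pos (nat_lit 0) (nat_lit 0)) T4.l4
  (TrL.c (I.pos (nat_lit 0) (nat_lit 0)) (xa T2.l4 T2.l4)
  (TrL.c (I.pos (nat_lit 0) (nat_lit 0)) T4.l5
  (TrL.c (I.pos (nat_lit 0) (nat_lit 0)) (xa T2.l5 T2.l5)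
  TrL.n)))))) (by decide +kernel)
theorem bx1_2 : BoxOK sI cl4 cl13 cl5 t4 t2 b1_2 :=
  box_mk (TrL.c (I.pos (nat_lit 0) (nat_lit 0)) T4.l0
  (TrL.c (I.pos (nat_lit 0) (nat_lit 0)) T2.l3
  (TrL.c (I.pos (nat_lit 0) (nat_lit 0)) T4.l4
  (TrL.c (I.pos (nat_lit 0) (nat_lit 0)) T2.l4
  (TrL.c (I.pos (nat_lit 0) (nat_lit 0)) T4.l5
  (TrL.c (I.pos (nat_lit 0) (nat_lit 0)) T2.l5
  TrL.n)))))) (by decide +kernel)
theorem bx1_3 : BoxOK sI cl4 cl13 cl5 t4 t2 b1_3 :=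
  box_mk (TrL.c (I.pos (nat_lit 0) (nat_lit 0)) (xa T4.l0 T4.l0)
  (TrL.c (I.pos (nat_lit 0) (nat_lit 0)) (xa T2.l3 T2.l3)
  (TrL.c (I.pos (nat_lit 0) (nat_lit 0)) T4.l4
  (TrL.c (I.pos (nat_lit 0) (nat_lit 0)) (xa T2.l4 T2.l4)
  (TrL.c (I.pos (nat_lit 0) (nat_lit 0)) T4.l5
  (TrL.c (I.pos (nat_lit 0) (nat_lit 0)) (xa T2.l5 T2.l5)
  TrL.n)))))) (by decide +kernel)
theorem bx1_4 : BoxOK sI cl4 cl13 cl5 t4 t2 b1_4 :=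
  box_mk (TrL.c (I.pos (nat_lit 0) (nat_lit 0)) T4.l0
  (TrL.c (I.pos (nat_lit 0) (nat_lit 0)) T2.l3
  (TrL.c (I.pos (nat_lit 0) (nat_lit 0)) T4.l4
  (TrL.c (I.pos (nat_lit 0) (nat_lit 0)) T2.l4
  (TrL.c (I.pos (nat_lit 0) (nat_lit 0)) T4.l5
  (TrL.c (I.pos (nat_lit 0) (nat_lit 0)) T2.l5
  TrL.n)))))) (by decide +kernel)
theorem bx1_5 : BoxOK sI cl4 cl13 cl5 t4 t2 b1_5 :=
  box_mk (TrL.c (I.pos (nat_lit 0) (nat_lit 0)) T4.l0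
  (TrL.c (I.pos (nat_lit 0) (nat_lit 0)) T2.l3
  (TrL.c (I.pos (nat_lit 0) (nat_lit 0)) T4.l4
  (TrL.c (I.pos (nat_lit 0) (nat_lit 0)) T2.l4
  (TrL.c (I.pos (nat_lit 0) (nat_lit 0)) T4.l5
  (TrL.c (I.pos (nat_lit 0) (nat_lit 0)) T2.l5
  TrL.n)))))) (by decide +kernel)
theorem bx1_6 : BoxOK sI cl4 cl13 cl5 t4 t2 b1_6 :=
  box_mk (TrL.c (I.pos (nat_lit 0) (nat_lit 0)) T4.l0
  (TrL.c (I.pos (nat_lit 0) (nat_lit 0)) T2.l3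
  (TrL.c (I.pos (nat_lit 0) (nat_lit 0)) T4.l4
  (TrL.c (I.pos (nat_lit 0) (nat_lit 0)) T2.l4
  (TrL.c (I.pos (nat_lit 0) (nat_lit 0)) T4.l5
  (TrL.c (I.pos (nat_lit 0) (nat_lit 0)) T2.l5
  TrL.n)))))) (by decide +kernel)
theorem bx1_7 : BoxOK sI cl4 cl13 cl5 t4 t2 b1_7 :=
  box_mk (TrL.c (I.pos (nat_lit 0) (nat_lit 0)) (xa (xa T4.l0 T4.l0) T4.l0)
  (TrL.c (I.pos (nat_lit 0) (nat_lit 0)) (xa T2.l3 T2.l3)
  (TrL.c (I.pos (nat_lit 0) (nat_lit 0)) T4.l4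
  (TrL.c (I.pos (nat_lit 0) (nat_lit 0)) (xa T2.l4 T2.l4)
  (TrL.c (I.pos (nat_lit 0) (nat_lit 0)) T4.l5
  (TrL.c (I.pos (nat_lit 0) (nat_lit 0)) (xa T2.l5 T2.l5)
  TrL.n)))))) (by decide +kernel)
theorem bx1_8 : BoxOK sI cl4 cl13 cl5 t4 t2 b1_8 :=
  box_mk (TrL.c (I.pos (nat_lit 0) (nat_lit 0)) (xb (xa (xb T4.l0 T4.l0) (xb T4.l0 T4.l0)) (xa (xs T4.l0 (xb T4.l0 T4.l0)) (xs T4.l0 (xb T4.l0 T4.l0))))
  (TrL.c (I.pos (nat_lit 0) (nat_lit 0)) (xb (xa T2.l3 T2.l3) (xa T2.l3 T2.l3))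
  (TrL.c (I.pos (nat_lit 0) (nat_lit 0)) (xb T4.l4 T4.l4)
  (TrL.c (I.pos (nat_lit 0) (nat_lit 0)) (xb (xa T2.l4 (xb T2.l4 T2.l4)) (xa T2.l4 (xb T2.l4 T2.l4)))
  (TrL.c (I.pos (nat_lit 0) (nat_lit 0)) (xb T4.l5 T4.l5)
  (TrL.c (I.pos (nat_lit 0) (nat_lit 0)) (xb (xa T2.l5 T2.l5) (xa T2.l5 T2.l5))
  TrL.n)))))) (by decide +kernel)
theorem bx1_9 : BoxOK sI cl4 cl13 cl5 t4 t2 b1_9 :=
  box_mk (TrL.c (I.pos (nat_lit 0) (nat_lit 0)) (xa T4.l0 T4.l0)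
  (TrL.c (I.pos (nat_lit 0) (nat_lit 0)) (xa T2.l3 T2.l3)
  (TrL.c (I.pos (nat_lit 0) (nat_lit 0)) T4.l4
  (TrL.c (I.pos (nat_lit 0) (nat_lit 0)) (xa T2.l4 T2.l4)
  (TrL.c (I.pos (nat_lit 0) (nat_lit 0)) T4.l5
  (TrL.c (I.pos (nat_lit 0) (nat_lit 0)) (xa T2.l5 T2.l5)
  TrL.n)))))) (by decide +kernel)
theorem bx1_10 : BoxOK sI cl4 cl13 cl5 t4 t2 b1_10 :=
  box_mk (TrL.c (I.pos (nat_lit 0) (nat_lit 0)) T4.l0
  (TrL.c (I.pos (nat_lit 0) (nat_lit 0)) T2.l3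
  (TrL.c (I.pos (nat_lit 0) (nat_lit 0)) T4.l4
  (TrL.c (I.pos (nat_lit 0) (nat_lit 0)) T2.l4
  (TrL.c (I.pos (nat_lit 0) (nat_lit 0)) T4.l5
  (TrL.c (I.pos (nat_lit 0) (nat_lit 0)) T2.l5
  TrL.n)))))) (by decide +kernel)
theorem bx1_11 : BoxOK sI cl4 cl13 cl5 t4 t2 b1_11 :=
  box_mk (TrL.c (I.pos (nat_lit 0) (nat_lit 0)) T4.l0
  (TrL.c (I.pos (nat_lit 0) (nat_lit 0)) (xa T2.l3 T2.l3)
  (TrL.c (I.pos (nat_lit 0) (nat_lit 0)) T4.l4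
  (TrL.c (I.pos (nat_lit 0) (nat_lit 0)) T2.l4
  (TrL.c (I.pos (nat_lit 0) (nat_lit 0)) T4.l5
  (TrL.c (I.pos (nat_lit 0) (nat_lit 0)) (xa T2.l5 T2.l5)
  TrL.n)))))) (by decide +kernel)
theorem sv1 : StarV sI cl4 cl13 cl5 t4 t2 t1 :=
  (bt_n (bt_n (bt_n (bt_b bx1_0) (bt_n (bt_b bx1_1) (bt_b bx1_2))) (bt_n (bt_b bx1_3) (bt_n (bt_b bx1_4) (bt_b bx1_5)))) (bt_n (bt_n (bt_b bx1_6) (bt_n (bt_b bx1_7) (bt_b bx1_8))) (bt_n (bt_b bx1_9) (bt_n (bt_b bx1_10) (bt_b bx1_11)))))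
def S1 : StarD := StarD.mk cl4 cl13 cl5 4 2 t1
theorem bx2_0 : BoxOK sI cl5 cl4 cl13 t0 t5 b2_0 :=
  box_mk (TrL.c (I.pos (nat_lit 0) (nat_lit 0)) (xa (xb T0.l0 (xa T0.l0 T0.l0)) (xb T0.l0 (xa T0.l0 (xs T0.l0 T0.l0))))
  (TrL.c (I.pos (nat_lit 0) (nat_lit 0)) (xa T5.l1 T5.l1)
  (TrL.c (I.pos (nat_lit 0) (nat_lit 0)) T0.l1
  (TrL.c (I.pos (nat_lit 0) (nat_lit 0)) T5.l2
  (TrL.c (I.pos (nat_lit 0) (nat_lit 0)) (xa (xb T5.l3 T5.l3) (xb T5.l0 (xs (xa T5.l3 T5.l3) (xa T5.l3 T5.l3))))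
  (TrL.c (I.pos (nat_lit 0) (nat_lit 0)) (xa T0.l2 T0.l2)
  (TrL.c (I.pos (nat_lit 0) (nat_lit 0)) T5.l4
  (TrL.c (I.pos (nat_lit 0) (nat_lit 0)) T0.l3
  TrL.n)))))))) (by decide +kernel)
theorem bx2_1 : BoxOK sI cl5 cl4 cl13 t0 t5 b2_1 :=
  box_mk (TrL.c (I.pos (nat_lit 0) (nat_lit 0)) T5.l1
  (TrL.c (I.pos (nat_lit 0) (nat_lit 0)) T0.l4
  (TrL.c (I.pos (nat_lit 0) (nat_lit 0)) T5.l2
  TrL.n))) (by decide +kernel)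
theorem bx2_2 : BoxOK sI cl5 cl4 cl13 t0 t5 b2_2 :=
  box_mk (TrL.c (I.pos (nat_lit 0) (nat_lit 0)) (xb (xa (xs T0.l0 T0.l0) T0.l0) T0.l0)
  (TrL.c (I.pos (nat_lit 0) (nat_lit 0)) T5.l1
  (TrL.c (I.pos (nat_lit 0) (nat_lit 0)) T0.l1
  (TrL.c (I.pos (nat_lit 0) (nat_lit 0)) T5.l2
  (TrL.c (I.pos (nat_lit 0) (nat_lit 0)) T5.l3
  (TrL.c (I.pos (nat_lit 0) (nat_lit 0)) T0.l2
  (TrL.c (I.pos (nat_lit 0) (nat_lit 0)) T5.l4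
  (TrL.c (I.pos (nat_lit 0) (nat_lit 0)) T0.l3
  TrL.n)))))))) (by decide +kernel)
theorem bx2_3 : BoxOK sI cl5 cl4 cl13 t0 t5 b2_3 :=
  box_mk (TrL.c (I.pos (nat_lit 0) (nat_lit 0)) (xa (xb (xa T0.l0 T0.l0) T0.l0) T0.l0)
  (TrL.c (I.pos (nat_lit 0) (nat_lit 0)) T5.l1
  (TrL.c (I.pos (nat_lit 0) (nat_lit 0)) T0.l4
  (TrL.c (I.pos (nat_lit 0) (nat_lit 0)) T5.l2
  (TrL.c (I.pos (nat_lit 0) (nat_lit 0)) T5.l3
  (TrL.c (I.pos (nat_lit 0) (nat_lit 0)) T0.l2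
  (TrL.c (I.pos (nat_lit 0) (nat_lit 0)) T5.l4
  (TrL.c (I.pos (nat_lit 0) (nat_lit 0)) T0.l3
  TrL.n)))))))) (by decide +kernel)
theorem bx2_4 : BoxOK sI cl5 cl4 cl13 t0 t5 b2_4 :=
  box_mk (TrL.c (I.pos (nat_lit 0) (nat_lit 0)) (xb (xa (xb T0.l0 T0.l0) T0.l0) (xa (xb (xa T0.l0 T0.l0) (xa T0.l0 T0.l0)) (xa T0.l0 T0.l0)))
  (TrL.c (I.pos (nat_lit 0) (nat_lit 0)) (xb T5.l1 T5.l1)
  (TrL.c (I.pos (nat_lit 0) (nat_lit 0)) T0.l1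
  (TrL.c (I.pos (nat_lit 0) (nat_lit 0)) T5.l2
  (TrL.c (I.pos (nat_lit 0) (nat_lit 0)) (xb (xa T5.l3 T5.l3) (xa T5.l3 T5.l3))
  (TrL.c (I.pos (nat_lit 0) (nat_lit 0)) (xb T0.l2 T0.l2)
  (TrL.c (I.pos (nat_lit 0) (nat_lit 0)) T5.l4
  (TrL.c (I.pos (nat_lit 0) (nat_lit 0)) T0.l3
  TrL.n)))))))) (by decide +kernel)
theorem bx2_5 : BoxOK sI cl5 cl4 cl13 t0 t5 b2_5 :=
  box_mk (TrL.c (I.pos (nat_lit 0) (nat_lit 0)) T5.l1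
  (TrL.c (I.pos (nat_lit 0) (nat_lit 0)) T0.l4
  (TrL.c (I.pos (nat_lit 0) (nat_lit 0)) T5.l2
  TrL.n))) (by decide +kernel)
theorem bx2_6 : BoxOK sI cl5 cl4 cl13 t0 t5 b2_6 :=
  box_mk (TrL.c (I.pos (nat_lit 0) (nat_lit 0)) T5.l1
  (TrL.c (I.pos (nat_lit 0) (nat_lit 0)) T0.l4
  (TrL.c (I.pos (nat_lit 0) (nat_lit 0)) T5.l2
  TrL.n))) (by decide +kernel)
theorem sv2 : StarV sI cl5 cl4 cl13 t0 t5 t2 :=
  (bt_n (bt_n (bt_b bx2_0) (bt_n (bt_b bx2_1) (bt_b bx2_2))) (bt_n (bt_n (bt_b bx2_3) (bt_b bx2_4)) (bt_n (bt_b bx2_5) (bt_b bx2_6))))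
def S2 : StarD := StarD.mk cl5 cl4 cl13 0 5 t2
theorem bx3_0 : BoxOK sI cl5 cl13 cl4 t5 t0 b3_0 :=
  box_mk (TrL.c (I.pos (nat_lit 0) (nat_lit 0)) (xa (xa T5.l0 T5.l0) (xa T5.l0 T5.l0))
  (TrL.c (I.pos (nat_lit 0) (nat_lit 0)) (xa (xa T0.l5 T0.l5) (xa T0.l5 T0.l5))
  (TrL.c (I.pos (nat_lit 0) (nat_lit 0)) T5.l7
  (TrL.c (I.pos (nat_lit 0) (nat_lit 0)) T0.l6
  (TrL.c (I.pos (nat_lit 0) (nat_lit 0)) (xa T0.l8 (xa T0.l8 (xb T0.l8 T0.l8)))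
  (TrL.c (I.pos (nat_lit 0) (nat_lit 0)) (xa T5.l8 T5.l8)
  (TrL.c (I.pos (nat_lit 0) (nat_lit 0)) T0.l7
  (TrL.c (I.pos (nat_lit 0) (nat_lit 0)) T5.l9
  TrL.n)))))))) (by decide +kernel)
theorem bx3_1 : BoxOK sI cl5 cl13 cl4 t5 t0 b3_1 :=
  box_mk (TrL.c (I.pos (nat_lit 0) (nat_lit 0)) T5.l0
  (TrL.c (I.pos (nat_lit 0) (nat_lit 0)) T0.l5
  (TrL.c (I.pos (nat_lit 0) (nat_lit 0)) T5.l7
  (TrL.c (I.pos (nat_lit 0) (nat_lit 0)) T0.l6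
  (TrL.c (I.pos (nat_lit 0) (nat_lit 0)) T0.l8
  (TrL.c (I.pos (nat_lit 0) (nat_lit 0)) T5.l8
  (TrL.c (I.pos (nat_lit 0) (nat_lit 0)) T0.l7
  (TrL.c (I.pos (nat_lit 0) (nat_lit 0)) T5.l9
  TrL.n)))))))) (by decide +kernel)
theorem bx3_2 : BoxOK sI cl5 cl13 cl4 t5 t0 b3_2 :=
  box_mk (TrL.c (I.pos (nat_lit 0) (nat_lit 0)) (xa (xa T5.l0 T5.l0) T5.l0)
  (TrL.c (I.pos (nat_lit 0) (nat_lit 0)) (xa T0.l5 T0.l5)
  (TrL.c (I.pos (nat_lit 0) (nat_lit 0)) T5.l7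
  (TrL.c (I.pos (nat_lit 0) (nat_lit 0)) T0.l6
  (TrL.c (I.pos (nat_lit 0) (nat_lit 0)) (xa T0.l8 T0.l8)
  (TrL.c (I.pos (nat_lit 0) (nat_lit 0)) T5.l8
  (TrL.c (I.pos (nat_lit 0) (nat_lit 0)) T0.l7
  (TrL.c (I.pos (nat_lit 0) (nat_lit 0)) T5.l9
  TrL.n)))))))) (by decide +kernel)
theorem bx3_3 : BoxOK sI cl5 cl13 cl4 t5 t0 b3_3 :=
  box_mk (TrL.c (I.pos (nat_lit 0) (nat_lit 0)) (xb (xa T5.l0 T5.l0) (xa (xs T5.l0 (xb T5.l0 T5.l0)) (xs T5.l0 (xb T5.l0 T5.l0))))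
  (TrL.c (I.pos (nat_lit 0) (nat_lit 0)) (xb T0.l5 (xa T0.l5 T0.l5))
  (TrL.c (I.pos (nat_lit 0) (nat_lit 0)) T5.l7
  (TrL.c (I.pos (nat_lit 0) (nat_lit 0)) T0.l6
  (TrL.c (I.pos (nat_lit 0) (nat_lit 0)) (xb (xa T0.l8 T0.l8) (xa T0.l8 T0.l8))
  (TrL.c (I.pos (nat_lit 0) (nat_lit 0)) (xb T5.l8 T5.l8)
  (TrL.c (I.pos (nat_lit 0) (nat_lit 0)) T0.l7
  (TrL.c (I.pos (nat_lit 0) (nat_lit 0)) T5.l9
  TrL.n)))))))) (by decide +kernel)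
theorem bx3_4 : BoxOK sI cl5 cl13 cl4 t5 t0 b3_4 :=
  box_mk (TrL.c (I.pos (nat_lit 0) (nat_lit 0)) (xa T5.l0 T5.l0)
  (TrL.c (I.pos (nat_lit 0) (nat_lit 0)) (xa T0.l5 T0.l5)
  (TrL.c (I.pos (nat_lit 0) (nat_lit 0)) T5.l7
  (TrL.c (I.pos (nat_lit 0) (nat_lit 0)) T0.l6
  (TrL.c (I.pos (nat_lit 0) (nat_lit 0)) (xa T0.l8 T0.l8)
  (TrL.c (I.pos (nat_lit 0) (nat_lit 0)) T5.l8
  (TrL.c (I.pos (nat_lit 0) (nat_lit 0)) T0.l7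
  (TrL.c (I.pos (nat_lit 0) (nat_lit 0)) T5.l9
  TrL.n)))))))) (by decide +kernel)
theorem bx3_5 : BoxOK sI cl5 cl13 cl4 t5 t0 b3_5 :=
  box_mk (TrL.c (I.pos (nat_lit 0) (nat_lit 0)) T5.l0
  (TrL.c (I.pos (nat_lit 0) (nat_lit 0)) (xa T0.l5 T0.l5)
  (TrL.c (I.pos (nat_lit 0) (nat_lit 0)) T5.l7
  (TrL.c (I.pos (nat_lit 0) (nat_lit 0)) T0.l6
  (TrL.c (I.pos (nat_lit 0) (nat_lit 0)) (xa T0.l8 T0.l8)
  (TrL.c (I.pos (nat_lit 0) (nat_lit 0)) T5.l8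
  (TrL.c (I.pos (nat_lit 0) (nat_lit 0)) T0.l7
  (TrL.c (I.pos (nat_lit 0) (nat_lit 0)) T5.l9
  TrL.n)))))))) (by decide +kernel)
theorem bx3_6 : BoxOK sI cl5 cl13 cl4 t5 t0 b3_6 :=
  box_mk (TrL.c (I.pos (nat_lit 0) (nat_lit 0)) T5.l0
  (TrL.c (I.pos (nat_lit 0) (nat_lit 0)) T0.l5
  (TrL.c (I.pos (nat_lit 0) (nat_lit 0)) T5.l7
  (TrL.c (I.pos (nat_lit 0) (nat_lit 0)) T0.l6
  (TrL.c (I.pos (nat_lit 0) (nat_lit 0)) T0.l8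
  (TrL.c (I.pos (nat_lit 0) (nat_lit 0)) T5.l8
  (TrL.c (I.pos (nat_lit 0) (nat_lit 0)) T0.l7
  (TrL.c (I.pos (nat_lit 0) (nat_lit 0)) T5.l9
  TrL.n)))))))) (by decide +kernel)
theorem bx3_7 : BoxOK sI cl5 cl13 cl4 t5 t0 b3_7 :=
  box_mk (TrL.c (I.pos (nat_lit 0) (nat_lit 0)) T5.l0
  (TrL.c (I.pos (nat_lit 0) (nat_lit 0)) T0.l5
  (TrL.c (I.pos (nat_lit 0) (nat_lit 0)) T5.l7
  (TrL.c (I.pos (nat_lit 0) (nat_lit 0)) T0.l6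
  (TrL.c (I.pos (nat_lit 0) (nat_lit 0)) T0.l8
  (TrL.c (I.pos (nat_lit 0) (nat_lit 0)) T5.l8
  (TrL.c (I.pos (nat_lit 0) (nat_lit 0)) T0.l7
  (TrL.c (I.pos (nat_lit 0) (nat_lit 0)) T5.l9
  TrL.n)))))))) (by decide +kernel)
theorem bx3_8 : BoxOK sI cl5 cl13 cl4 t5 t0 b3_8 :=
  box_mk (TrL.c (I.pos (nat_lit 0) (nat_lit 0)) T5.l0
  (TrL.c (I.pos (nat_lit 0) (nat_lit 0)) T0.l5
  (TrL.c (I.pos (nat_lit 0) (nat_lit 0)) T5.l7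
  (TrL.c (I.pos (nat_lit 0) (nat_lit 0)) T0.l6
  (TrL.c (I.pos (nat_lit 0) (nat_lit 0)) T0.l8
  (TrL.c (I.pos (nat_lit 0) (nat_lit 0)) T5.l8
  (TrL.c (I.pos (nat_lit 0) (nat_lit 0)) T0.l7
  (TrL.c (I.pos (nat_lit 0) (nat_lit 0)) T5.l9
  TrL.n)))))))) (by decide +kernel)
theorem bx3_9 : BoxOK sI cl5 cl13 cl4 t5 t0 b3_9 :=
  box_mk (TrL.c (I.pos (nat_lit 0) (nat_lit 0)) (xa (xa T5.l0 T5.l0) T5.l0)
  (TrL.c (I.pos (nat_lit 0) (nat_lit 0)) (xa T0.l5 T0.l5)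
  (TrL.c (I.pos (nat_lit 0) (nat_lit 0)) T5.l7
  (TrL.c (I.pos (nat_lit 0) (nat_lit 0)) T0.l6
  (TrL.c (I.pos (nat_lit 0) (nat_lit 0)) (xa T0.l8 T0.l8)
  (TrL.c (I.pos (nat_lit 0) (nat_lit 0)) T5.l8
  (TrL.c (I.pos (nat_lit 0) (nat_lit 0)) T0.l7
  (TrL.c (I.pos (nat_lit 0) (nat_lit 0)) T5.l9
  TrL.n)))))))) (by decide +kernel)
theorem bx3_10 : BoxOK sI cl5 cl13 cl4 t5 t0 b3_10 :=
  box_mk (TrL.c (I.pos (nat_lit 0) (nat_lit 0)) T5.l0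
  (TrL.c (I.pos (nat_lit 0) (nat_lit 0)) T0.l5
  (TrL.c (I.pos (nat_lit 0) (nat_lit 0)) T5.l7
  (TrL.c (I.pos (nat_lit 0) (nat_lit 0)) T0.l6
  (TrL.c (I.pos (nat_lit 0) (nat_lit 0)) T0.l8
  (TrL.c (I.pos (nat_lit 0) (nat_lit 0)) T5.l8
  (TrL.c (I.pos (nat_lit 0) (nat_lit 0)) T0.l7
  (TrL.c (I.pos (nat_lit 0) (nat_lit 0)) T5.l9
  TrL.n)))))))) (by decide +kernel)
theorem bx3_11 : BoxOK sI cl5 cl13 cl4 t5 t0 b3_11 :=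
  box_mk (TrL.c (I.pos (nat_lit 0) (nat_lit 0)) T5.l0
  (TrL.c (I.pos (nat_lit 0) (nat_lit 0)) T0.l5
  (TrL.c (I.pos (nat_lit 0) (nat_lit 0)) T5.l7
  (TrL.c (I.pos (nat_lit 0) (nat_lit 0)) T0.l6
  (TrL.c (I.pos (nat_lit 0) (nat_lit 0)) T0.l8
  (TrL.c (I.pos (nat_lit 0) (nat_lit 0)) T5.l8
  (TrL.c (I.pos (nat_lit 0) (nat_lit 0)) T0.l7
  (TrL.c (I.pos (nat_lit 0) (nat_lit 0)) T5.l9
  TrL.n)))))))) (by decide +kernel)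
theorem sv3 : StarV sI cl5 cl13 cl4 t5 t0 t3 :=
  (bt_n (bt_n (bt_n (bt_b bx3_0) (bt_n (bt_b bx3_1) (bt_b bx3_2))) (bt_n (bt_b bx3_3) (bt_n (bt_b bx3_4) (bt_b bx3_5)))) (bt_n (bt_n (bt_b bx3_6) (bt_n (bt_b bx3_7) (bt_b bx3_8))) (bt_n (bt_b bx3_9) (bt_n (bt_b bx3_10) (bt_b bx3_11)))))
def S3 : StarD := StarD.mk cl5 cl13 cl4 5 0 t3
theorem bx4_0 : BoxOK sI cl13 cl4 cl5 t1 t3 b4_0 :=
  box_mk (TrL.c (I.pos (nat_lit 0) (nat_lit 0)) (xa (xa (xb T1.l0 T1.l0) (xb T1.l0 T1.l0)) (xa T1.l0 T1.l0))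
  (TrL.c (I.pos (nat_lit 0) (nat_lit 0)) (xa (xb T3.l1 T3.l1) (xk T3.l1 T3.l1))
  (TrL.c (I.pos (nat_lit 0) (nat_lit 134217730)) (xR T1.l9 T1.l9)
  (TrL.c (I.pos (nat_lit 0) (nat_lit 110514882)) (xR T3.l4 (xR T3.l2 T3.l2))
  (TrL.c (I.pos (nat_lit 0) (nat_lit 0)) (xa (xb (xa T3.l3 T3.l3) T3.l3) (xk (xb (xa T3.l3 T3.l3) (xa T3.l3 (xs T3.l3 (xb T3.l3 (xs T3.l3 T3.l3))))) (xa (xb T3.l3 T3.l3) (xb T3.l3 (xs T3.l3 (xb T3.l3 (xs T3.l3 (xa T3.l3 T3.l3))))))))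
  (TrL.c (I.pos (nat_lit 0) (nat_lit 0)) (xk T1.l2 T1.l2)
  (TrL.c (I.mix (nat_lit 8088324) (nat_lit 110514882)) (xR T3.l4 (xR T3.l4 T3.l4))
  (TrL.c (I.mix (nat_lit 8088324) (nat_lit 89478486)) (xR T1.l3 T1.l3)
  TrL.n)))))))) (by decide +kernel)
theorem bx4_1 : BoxOK sI cl13 cl4 cl5 t1 t3 b4_1 :=
  box_mk (TrL.c (I.pos (nat_lit 0) (nat_lit 0)) T1.l0
  (TrL.c (I.pos (nat_lit 0) (nat_lit 0)) T3.l1
  (TrL.c (I.pos (nat_lit 0) (nat_lit 134217730)) (xR T1.l1 T1.l1)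
  (TrL.c (I.pos (nat_lit 0) (nat_lit 110514882)) T3.l4
  (TrL.c (I.pos (nat_lit 0) (nat_lit 0)) T3.l3
  (TrL.c (I.pos (nat_lit 0) (nat_lit 0)) T1.l2
  (TrL.c (I.mix (nat_lit 8088324) (nat_lit 110514882)) T3.l4
  (TrL.c (I.mix (nat_lit 8088324) (nat_lit 89478486)) T1.l3
  TrL.n)))))))) (by decide +kernel)
theorem bx4_2 : BoxOK sI cl13 cl4 cl5 t1 t3 b4_2 :=
  box_mk (TrL.c (I.pos (nat_lit 0) (nat_lit 0)) (xa (xb T1.l0 T1.l0) (xb T1.l0 T1.l0))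
  (TrL.c (I.pos (nat_lit 0) (nat_lit 0)) (xb T3.l1 T3.l1)
  (TrL.c (I.pos (nat_lit 0) (nat_lit 134217730)) (xR T1.l1 (xR T1.l1 T1.l1))
  (TrL.c (I.pos (nat_lit 0) (nat_lit 110514882)) (xR T3.l2 (xR T3.l2 T3.l2))
  (TrL.c (I.pos (nat_lit 0) (nat_lit 0)) (xb T3.l3 T3.l3)
  (TrL.c (I.pos (nat_lit 0) (nat_lit 0)) T1.l2
  (TrL.c (I.mix (nat_lit 8088324) (nat_lit 110514882)) T3.l4
  (TrL.c (I.mix (nat_lit 8088324) (nat_lit 89478486)) T1.l3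
  TrL.n)))))))) (by decide +kernel)
theorem bx4_3 : BoxOK sI cl13 cl4 cl5 t1 t3 b4_3 :=
  box_mk (TrL.c (I.pos (nat_lit 0) (nat_lit 0)) T3.l6
  (TrL.c (I.pos (nat_lit 0) (nat_lit 0)) T1.l1
  (TrL.c (I.mix (nat_lit 8088324) (nat_lit 110514882)) (xR T3.l5 T3.l4)
  (TrL.c (I.mix (nat_lit 8088324) (nat_lit 89478486)) (xR T1.l4 T1.l1)
  TrL.n)))) (by decide +kernel)
theorem bx4_4 : BoxOK sI cl13 cl4 cl5 t1 t3 b4_4 :=
  box_mk (TrL.c (I.pos (nat_lit 0) (nat_lit 0)) T3.l6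
  (TrL.c (I.pos (nat_lit 0) (nat_lit 0)) T1.l1
  (TrL.c (I.mix (nat_lit 8088324) (nat_lit 110514882)) (xR T3.l5 T3.l4)
  (TrL.c (I.mix (nat_lit 8088324) (nat_lit 89478486)) (xR T1.l3 T1.l1)
  TrL.n)))) (by decide +kernel)
theorem bx4_5 : BoxOK sI cl13 cl4 cl5 t1 t3 b4_5 :=
  box_mk (TrL.c (I.pos (nat_lit 0) (nat_lit 0)) (xb (xa T1.l0 T1.l0) T1.l0)
  (TrL.c (I.pos (nat_lit 0) (nat_lit 0)) T3.l6
  (TrL.c (I.pos (nat_lit 0) (nat_lit 134217730)) (xR T1.l1 (xR T1.l1 T1.l1))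
  (TrL.c (I.pos (nat_lit 0) (nat_lit 110514882)) T3.l4
  (TrL.c (I.pos (nat_lit 0) (nat_lit 0)) T3.l3
  (TrL.c (I.pos (nat_lit 0) (nat_lit 0)) T1.l2
  (TrL.c (I.mix (nat_lit 8088324) (nat_lit 110514882)) T3.l4
  (TrL.c (I.mix (nat_lit 8088324) (nat_lit 89478486)) T1.l9
  TrL.n)))))))) (by decide +kernel)
theorem bx4_6 : BoxOK sI cl13 cl4 cl5 t1 t3 b4_6 :=
  box_mk (TrL.c (I.pos (nat_lit 0) (nat_lit 0)) T1.l0
  (TrL.c (I.pos (nat_lit 0) (nat_lit 0)) T3.l1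
  (TrL.c (I.pos (nat_lit 0) (nat_lit 134217730)) (xR T1.l1 T1.l1)
  (TrL.c (I.pos (nat_lit 0) (nat_lit 110514882)) T3.l4
  (TrL.c (I.pos (nat_lit 0) (nat_lit 0)) T3.l3
  (TrL.c (I.pos (nat_lit 0) (nat_lit 0)) T1.l2
  (TrL.c (I.mix (nat_lit 8088324) (nat_lit 110514882)) T3.l4
  (TrL.c (I.mix (nat_lit 8088324) (nat_lit 89478486)) T1.l3
  TrL.n)))))))) (by decide +kernel)
theorem sv4 : StarV sI cl13 cl4 cl5 t1 t3 t4 :=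
  (bt_n (bt_n (bt_b bx4_0) (bt_n (bt_b bx4_1) (bt_b bx4_2))) (bt_n (bt_n (bt_b bx4_3) (bt_b bx4_4)) (bt_n (bt_b bx4_5) (bt_b bx4_6))))
def S4 : StarD := StarD.mk cl13 cl4 cl5 1 3 t4
theorem bx5_0 : BoxOK sI cl13 cl5 cl4 t3 t1 b5_0 :=
  box_mk (TrL.c (I.pos (nat_lit 0) (nat_lit 0)) (xa (xa (xb T3.l0 T3.l0) (xb T3.l0 T3.l0)) (xa T3.l0 T3.l0))
  (TrL.c (I.pos (nat_lit 0) (nat_lit 0)) (xa (xa T1.l6 T1.l6) (xa (xk T1.l6 T1.l6) (xk T1.l6 T1.l6)))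
  (TrL.c (I.pos (nat_lit 0) (nat_lit 134217730)) (xR T3.l4 (xR T3.l4 T3.l7))
  (TrL.c (I.pos (nat_lit 0) (nat_lit 110514882)) (xR T1.l3 (xR T1.l7 T1.l7))
  (TrL.c (I.pos (nat_lit 0) (nat_lit 0)) (xa (xa T1.l8 (xk T1.l8 T1.l8)) (xk (xa T1.l8 (xb T1.l8 (xs T1.l8 (xb T1.l8 (xs T1.l8 T1.l8))))) (xa T1.l8 (xb T1.l8 (xs T1.l8 (xb T1.l8 (xs T1.l8 (xa T1.l8 T1.l8))))))))
  (TrL.c (I.pos (nat_lit 0) (nat_lit 0)) (xk (xa T3.l8 T3.l8) (xa T3.l8 T3.l8))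
  (TrL.c (I.mix (nat_lit 8088324) (nat_lit 110514882)) (xR T1.l9 (xR T1.l9 T1.l9))
  (TrL.c (I.mix (nat_lit 8088324) (nat_lit 89478486)) (xR T3.l9 (xR T3.l9 T3.l9))
  TrL.n)))))))) (by decide +kernel)
theorem bx5_1 : BoxOK sI cl13 cl5 cl4 t3 t1 b5_1 :=
  box_mk (TrL.c (I.pos (nat_lit 0) (nat_lit 0)) T3.l0
  (TrL.c (I.pos (nat_lit 0) (nat_lit 0)) T1.l6
  (TrL.c (I.pos (nat_lit 0) (nat_lit 134217730)) (xR T3.l4 T3.l4)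
  (TrL.c (I.pos (nat_lit 0) (nat_lit 110514882)) (xR T1.l7 T1.l7)
  (TrL.c (I.pos (nat_lit 0) (nat_lit 0)) T1.l8
  (TrL.c (I.pos (nat_lit 0) (nat_lit 0)) T3.l8
  (TrL.c (I.mix (nat_lit 8088324) (nat_lit 110514882)) T1.l9
  (TrL.c (I.mix (nat_lit 8088324) (nat_lit 89478486)) T3.l4
  TrL.n)))))))) (by decide +kernel)
theorem bx5_2 : BoxOK sI cl13 cl5 cl4 t3 t1 b5_2 :=
  box_mk (TrL.c (I.pos (nat_lit 0) (nat_lit 0)) T1.l6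
  (TrL.c (I.pos (nat_lit 0) (nat_lit 0)) T3.l7
  (TrL.c (I.mix (nat_lit 8088324) (nat_lit 110514882)) (xR T1.l11 T1.l7)
  (TrL.c (I.mix (nat_lit 8088324) (nat_lit 89478486)) T3.l4
  TrL.n)))) (by decide +kernel)
theorem bx5_3 : BoxOK sI cl13 cl5 cl4 t3 t1 b5_3 :=
  box_mk (TrL.c (I.pos (nat_lit 0) (nat_lit 0)) (xb T3.l0 (xa T3.l0 T3.l0))
  (TrL.c (I.pos (nat_lit 0) (nat_lit 0)) (xb T1.l6 (xk T1.l6 T1.l6))
  (TrL.c (I.pos (nat_lit 0) (nat_lit 134217730)) (xR T3.l4 (xR T3.l7 T3.l7))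
  (TrL.c (I.pos (nat_lit 0) (nat_lit 110514882)) (xR T1.l7 (xR T1.l7 T1.l7))
  (TrL.c (I.pos (nat_lit 0) (nat_lit 0)) (xb T1.l8 T1.l8)
  (TrL.c (I.pos (nat_lit 0) (nat_lit 0)) T3.l8
  (TrL.c (I.mix (nat_lit 8088324) (nat_lit 110514882)) (xR T1.l9 T1.l9)
  (TrL.c (I.mix (nat_lit 8088324) (nat_lit 89478486)) (xR T3.l9 T3.l9)
  TrL.n)))))))) (by decide +kernel)
theorem bx5_4 : BoxOK sI cl13 cl5 cl4 t3 t1 b5_4 :=
  box_mk (TrL.c (I.pos (nat_lit 0) (nat_lit 0)) T3.l0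
  (TrL.c (I.pos (nat_lit 0) (nat_lit 0)) T1.l6
  (TrL.c (I.pos (nat_lit 0) (nat_lit 134217730)) (xR T3.l4 T3.l7)
  (TrL.c (I.pos (nat_lit 0) (nat_lit 110514882)) T1.l7
  (TrL.c (I.pos (nat_lit 0) (nat_lit 0)) T1.l8
  (TrL.c (I.pos (nat_lit 0) (nat_lit 0)) T3.l8
  (TrL.c (I.mix (nat_lit 8088324) (nat_lit 110514882)) T1.l9
  (TrL.c (I.mix (nat_lit 8088324) (nat_lit 89478486)) T3.l4
  TrL.n)))))))) (by decide +kernel)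
theorem bx5_5 : BoxOK sI cl13 cl5 cl4 t3 t1 b5_5 :=
  box_mk (TrL.c (I.pos (nat_lit 0) (nat_lit 0)) T3.l0
  (TrL.c (I.pos (nat_lit 0) (nat_lit 0)) T1.l6
  (TrL.c (I.pos (nat_lit 0) (nat_lit 134217730)) (xR T3.l4 T3.l7)
  (TrL.c (I.pos (nat_lit 0) (nat_lit 110514882)) (xR T1.l7 T1.l7)
  (TrL.c (I.pos (nat_lit 0) (nat_lit 0)) T1.l8
  (TrL.c (I.pos (nat_lit 0) (nat_lit 0)) T3.l8
  (TrL.c (I.mix (nat_lit 8088324) (nat_lit 110514882)) T1.l9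
  (TrL.c (I.mix (nat_lit 8088324) (nat_lit 89478486)) T3.l4
  TrL.n)))))))) (by decide +kernel)
theorem bx5_6 : BoxOK sI cl13 cl5 cl4 t3 t1 b5_6 :=
  box_mk (TrL.c (I.pos (nat_lit 0) (nat_lit 0)) T1.l10
  (TrL.c (I.pos (nat_lit 0) (nat_lit 0)) T3.l10
  (TrL.c (I.mix (nat_lit 8088324) (nat_lit 110514882)) T1.l9
  (TrL.c (I.mix (nat_lit 8088324) (nat_lit 89478486)) T3.l4
  TrL.n)))) (by decide +kernel)
theorem bx5_7 : BoxOK sI cl13 cl5 cl4 t3 t1 b5_7 :=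
  box_mk (TrL.c (I.pos (nat_lit 0) (nat_lit 0)) T3.l0
  (TrL.c (I.pos (nat_lit 0) (nat_lit 0)) T1.l6
  (TrL.c (I.pos (nat_lit 0) (nat_lit 134217730)) (xR T3.l4 T3.l7)
  (TrL.c (I.pos (nat_lit 0) (nat_lit 110514882)) T1.l7
  (TrL.c (I.pos (nat_lit 0) (nat_lit 0)) T1.l8
  (TrL.c (I.pos (nat_lit 0) (nat_lit 0)) T3.l8
  (TrL.c (I.mix (nat_lit 8088324) (nat_lit 110514882)) T1.l9
  (TrL.c (I.mix (nat_lit 8088324) (nat_lit 89478486)) T3.l4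
  TrL.n)))))))) (by decide +kernel)
theorem bx5_8 : BoxOK sI cl13 cl5 cl4 t3 t1 b5_8 :=
  box_mk (TrL.c (I.pos (nat_lit 0) (nat_lit 0)) (xb T3.l0 T3.l0)
  (TrL.c (I.pos (nat_lit 0) (nat_lit 0)) T1.l6
  (TrL.c (I.pos (nat_lit 0) (nat_lit 134217730)) (xR T3.l4 T3.l7)
  (TrL.c (I.pos (nat_lit 0) (nat_lit 110514882)) (xR T1.l7 T1.l7)
  (TrL.c (I.pos (nat_lit 0) (nat_lit 0)) T1.l8
  (TrL.c (I.pos (nat_lit 0) (nat_lit 0)) T3.l8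
  (TrL.c (I.mix (nat_lit 8088324) (nat_lit 110514882)) T1.l9
  (TrL.c (I.mix (nat_lit 8088324) (nat_lit 89478486)) T3.l4
  TrL.n)))))))) (by decide +kernel)
theorem bx5_9 : BoxOK sI cl13 cl5 cl4 t3 t1 b5_9 :=
  box_mk (TrL.c (I.pos (nat_lit 0) (nat_lit 0)) T1.l6
  (TrL.c (I.pos (nat_lit 0) (nat_lit 0)) T3.l7
  (TrL.c (I.mix (nat_lit 8088324) (nat_lit 110514882)) (xR T1.l11 T1.l7)
  (TrL.c (I.mix (nat_lit 8088324) (nat_lit 89478486)) T3.l4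
  TrL.n)))) (by decide +kernel)
theorem sv5 : StarV sI cl13 cl5 cl4 t3 t1 t5 :=
  (bt_n (bt_n (bt_n (bt_b bx5_0) (bt_b bx5_1)) (bt_n (bt_b bx5_2) (bt_n (bt_b bx5_3) (bt_b bx5_4)))) (bt_n (bt_n (bt_b bx5_5) (bt_b bx5_6)) (bt_n (bt_b bx5_7) (bt_n (bt_b bx5_8) (bt_b bx5_9)))))
def S5 : StarD := StarD.mk cl13 cl5 cl4 3 1 t5
def G : List StarD := [S0, S1, S2, S3, S4, S5]
theorem so0 : StarOK sI G S0 :=
  star_mk (by decide) (by decide) rfl rfl rfl rfl rfl rfl (rfl : _ = t2) (rfl : _ = t4)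
  (st_mk (Pth.l (Pth.l (Pth.l Pth.z))) (nat_lit 245778165) (nat_lit 248975382) (by decide +kernel))
  (st_mk (Pth.l (Pth.l (Pth.l Pth.z))) (nat_lit 283109708) (nat_lit 287409376) (by decide +kernel))
  (st_mk (Pth.l (Pth.l (Pth.l Pth.z))) (nat_lit 326649091) (nat_lit 332467247) (by decide +kernel)) sv0
theorem so1 : StarOK sI G S1 :=
  star_mk (by decide) (by decide) rfl rfl rfl rfl rfl rfl (rfl : _ = t4) (rfl : _ = t2)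
  (st_mk (Pth.l (Pth.l (Pth.l Pth.z))) (nat_lit 97801177) (nat_lit 117439567) (by decide +kernel))
  (st_mk (Pth.l (Pth.l (Pth.l Pth.z))) (nat_lit 134433112) (nat_lit 155012069) (by decide +kernel))
  (st_mk (Pth.l (Pth.l (Pth.l Pth.z))) (nat_lit 177428775) (nat_lit 199394775) (by decide +kernel)) sv1
theorem so2 : StarOK sI G S2 :=
  star_mk (by decide) (by decide) rfl rfl rfl rfl rfl rfl (rfl : _ = t0) (rfl : _ = t5)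
  (st_mk (Pth.l (Pth.l Pth.z)) (nat_lit 374179068) (nat_lit 378020879) (by decide +kernel))
  (st_mk (Pth.l (Pth.l Pth.z)) (nat_lit 410955333) (nat_lit 415620335) (by decide +kernel))
  (st_mk (Pth.l (Pth.l Pth.z)) (nat_lit 453622022) (nat_lit 459351428) (by decide +kernel)) sv2
theorem so3 : StarOK sI G S3 :=
  star_mk (by decide) (by decide) rfl rfl rfl rfl rfl rfl (rfl : _ = t5) (rfl : _ = t0)
  (st_mk (Pth.l (Pth.l (Pth.l Pth.z))) (nat_lit 97175270) (nat_lit 116295622) (by decide +kernel))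
  (st_mk (Pth.l (Pth.l (Pth.l Pth.z))) (nat_lit 133243330) (nat_lit 152983699) (by decide +kernel))
  (st_mk (Pth.l (Pth.l (Pth.l Pth.z))) (nat_lit 175336312) (nat_lit 195973033) (by decide +kernel)) sv3
theorem so4 : StarOK sI G S4 :=
  star_mk (by decide) (by decide) rfl rfl rfl rfl rfl rfl (rfl : _ = t1) (rfl : _ = t3)
  (st_mk (Pth.l (Pth.l Pth.z)) (nat_lit 364798899) (nat_lit 367512724) (by decide +kernel))
  (st_mk (Pth.l (Pth.l Pth.z)) (nat_lit 399695508) (nat_lit 402846863) (by decide +kernel))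
  (st_mk (Pth.l (Pth.l Pth.z)) (nat_lit 439960827) (nat_lit 443667654) (by decide +kernel)) sv4
theorem so5 : StarOK sI G S5 :=
  star_mk (by decide) (by decide) rfl rfl rfl rfl rfl rfl (rfl : _ = t3) (rfl : _ = t1)
  (st_mk (Pth.l (Pth.l (Pth.l Pth.z))) (nat_lit 238062708) (nat_lit 239817732) (by decide +kernel))
  (st_mk (Pth.l (Pth.l (Pth.l Pth.z))) (nat_lit 272959317) (nat_lit 275097973) (by decide +kernel))
  (st_mk (Pth.l (Pth.l (Pth.l Pth.z))) (nat_lit 313224636) (nat_lit 315872221) (by decide +kernel)) sv5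
theorem ok : GroupOK (nat_lit 0) (nat_lit 91291648) G := grp_mk (allS_c so0 (allS_c so1 (allS_c so2 (allS_c so3 (allS_c so4 (allS_c so5 allS_n))))))
theorem cov : GCov G cl4 cl5 cl13 := cov_mk
  ⟨0, by decide, rfl, rfl, rfl⟩ ⟨1, by decide, rfl, rfl, rfl⟩ ⟨2, by decide, rfl, rfl, rfl⟩ ⟨3, by decide, rfl, rfl, rfl⟩ ⟨4, by decide, rfl, rfl, rfl⟩ ⟨5, by decide, rfl, rfl, rfl⟩
end Q126_0


end Pool.Agent.Helper6.MONO
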