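import Pool.Agent.Helper6.MONO.Cert.C02

/-!
Certificate data (generated).
-/

set_option autoImplicit false
set_option linter.all false
noncomputable section
namespace Pool.Agent.Helper6.MONO


namespace Q126_1
def sI : I := I.pos (nat_lit 91226112) (nat_lit 150339584)
def b0_0 : Bx := Bx.mk (St.mk (I.pos (nat_lit 158449664) (nat_lit 231849984)) (I.mix (nat_lit 2834432) (nat_lit 88113152)) (I.mix (nat_lit 19693568) (nat_lit 58851328)) (I.pos (nat_lit 244465664) (nat_lit 359546880)) (I.mix (nat_lit 104546304) (nat_lit 80838656)) (I.mix (nat_lit 71204864) (nat_lit 74219520)) (I.mix (nat_lit 117080064) (nat_lit 108888064)))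
  false (nat_lit 29107773)
def b0_1 : Bx := Bx.mk (St.mk (I.pos (nat_lit 28966912) (nat_lit 64978944)) (I.mix (nat_lit 10944512) (nat_lit 45613056)) (I.neg (nat_lit 17334272) (nat_lit 49315840)) (I.pos (nat_lit 143507456) (nat_lit 160743424)) (I.mix (nat_lit 43417600) (nat_lit 64946176)) (I.mix (nat_lit 55099392) (nat_lit 35307520)) (I.mix (nat_lit 30130176) (nat_lit 24543232)))
  false (nat_lit 0)
def b0_2 : Bx := Bx.mk (St.mk (I.pos (nat_lit 55328768) (nat_lit 93110272)) (I.mix (nat_lit 59146240) (nat_lit 12812288)) (I.neg (nat_lit 33308672) (nat_lit 79167488)) (I.pos (nat_lit 148144128) (nat_lit 177242112)) (I.mix (nat_lit 96239616) (nat_lit 43433984)) (I.mix (nat_lit 43171840) (nat_lit 84672512)) (I.mix (nat_lit 28491776) (nat_lit 56803328)))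
  false (nat_lit 0)
def b0_3 : Bx := Bx.mk (St.mk (I.neg (nat_lit 28950528) (nat_lit 64978944)) (I.mix (nat_lit 45613056) (nat_lit 10944512)) (I.neg (nat_lit 17334272) (nat_lit 49332224)) (I.pos (nat_lit 143441920) (nat_lit 160743424)) (I.mix (nat_lit 64946176) (nat_lit 43417600)) (I.mix (nat_lit 35307520) (nat_lit 55099392)) (I.mix (nat_lit 30130176) (nat_lit 24543232)))
  true (nat_lit 0)
def b0_4 : Bx := Bx.mk (St.mk (I.pos (nat_lit 47939584) (nat_lit 63717376)) (I.mix (nat_lit 11517952) (nat_lit 10092544)) (I.neg (nat_lit 33325056) (nat_lit 49037312)) (I.pos (nat_lit 146849792) (nat_lit 158990336)) (I.mix (nat_lit 37715968) (nat_lit 26509312)) (I.mix (nat_lit 30605312) (nat_lit 27623424)) (I.mix (nat_lit 14336000) (nat_lit 20594688)))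
  false (nat_lit 0)
def b0_5 : Bx := Bx.mk (St.mk (I.pos (nat_lit 215760896) (nat_lit 256901120)) (I.mix (nat_lit 20463616) (nat_lit 18694144)) (I.neg (nat_lit 63209472) (nat_lit 139526144)) (I.pos (nat_lit 331120640) (nat_lit 403308544)) (I.mix (nat_lit 103792640) (nat_lit 29212672)) (I.mix (nat_lit 69337088) (nat_lit 74252288)) (I.mix (nat_lit 102400000) (nat_lit 158924800)))
  false (nat_lit 0)
def b0_6 : Bx := Bx.mk (St.mk (I.pos (nat_lit 184205312) (nat_lit 252985344)) (I.mix (nat_lit 22036480) (nat_lit 82378752)) (I.mix (nat_lit 139378688) (nat_lit 48906240)) (I.pos (nat_lit 301481984) (nat_lit 391921664)) (I.mix (nat_lit 116441088) (nat_lit 99467264)) (I.mix (nat_lit 98205696) (nat_lit 94371840)) (I.mix (nat_lit 170983424) (nat_lit 187203584)))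
  false (nat_lit 31887089)
def b0_7 : Bx := Bx.mk (St.mk (I.pos (nat_lit 58490880) (nat_lit 145965056)) (I.mix (nat_lit 71876608) (nat_lit 2916352)) (I.neg (nat_lit 25018368) (nat_lit 91635712)) (I.pos (nat_lit 153649152) (nat_lit 225853440)) (I.mix (nat_lit 96927744) (nat_lit 54657024)) (I.mix (nat_lit 51429376) (nat_lit 83689472)) (I.mix (nat_lit 38387712) (nat_lit 76431360)))
  false (nat_lit 0)
def b0_8 : Bx := Bx.mk (St.mk (I.mix (nat_lit 45531136) (nat_lit 5980160)) (I.mix (nat_lit 41091072) (nat_lit 10469376)) (I.neg (nat_lit 18776064) (nat_lit 28737536)) (I.pos (nat_lit 140525568) (nat_lit 153927680)) (I.mix (nat_lit 43548672) (nat_lit 38043648)) (I.mix (nat_lit 28049408) (nat_lit 45826048)) (I.mix (nat_lit 10125312) (nat_lit 10633216)))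
  true (nat_lit 0)
def b0_9 : Bx := Bx.mk (St.mk (I.pos (nat_lit 156565504) (nat_lit 210714624)) (I.pos (nat_lit 475136) (nat_lit 66977792)) (I.mix (nat_lit 27066368) (nat_lit 46415872)) (I.pos (nat_lit 250249216) (nat_lit 316620800)) (I.mix (nat_lit 112476160) (nat_lit 46366720)) (I.mix (nat_lit 118325248) (nat_lit 72220672)) (I.mix (nat_lit 108019712) (nat_lit 72253440)))
  false (nat_lit 1474865)
def b0_10 : Bx := Bx.mk (St.mk (I.mix (nat_lit 5980160) (nat_lit 45547520)) (I.mix (nat_lit 10469376) (nat_lit 41091072)) (I.neg (nat_lit 18776064) (nat_lit 28737536)) (I.pos (nat_lit 140525568) (nat_lit 153927680)) (I.mix (nat_lit 38043648) (nat_lit 43548672)) (I.mix (nat_lit 45826048) (nat_lit 28049408)) (I.mix (nat_lit 10125312) (nat_lit 10633216)))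
  false (nat_lit 0)
def b0_11 : Bx := Bx.mk (St.mk (I.pos (nat_lit 122585088) (nat_lit 194822144)) (I.mix (nat_lit 38567936) (nat_lit 22298624)) (I.neg (nat_lit 5128192) (nat_lit 68714496)) (I.pos (nat_lit 200867840) (nat_lit 284753920)) (I.mix (nat_lit 65748992) (nat_lit 70483968)) (I.mix (nat_lit 74186752) (nat_lit 66715648)) (I.mix (nat_lit 72400896) (nat_lit 58015744)))
  false (nat_lit 0)
def b0_12 : Bx := Bx.mk (St.mk (I.pos (nat_lit 158138368) (nat_lit 199917568)) (I.mix (nat_lit 9158656) (nat_lit 47415296)) (I.mix (nat_lit 42942464) (nat_lit 26181632)) (I.pos (nat_lit 254459904) (nat_lit 294060032)) (I.mix (nat_lit 111394816) (nat_lit 88178688)) (I.mix (nat_lit 134283264) (nat_lit 80609280)) (I.mix (nat_lit 127074304) (nat_lit 68681728)))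
  false (nat_lit 0)
def t0 : BTr := (BTr.n (BTr.n (BTr.n (BTr.b b0_0) (BTr.n (BTr.b b0_1) (BTr.b b0_2))) (BTr.n (BTr.b b0_3) (BTr.n (BTr.b b0_4) (BTr.b b0_5)))) (BTr.n (BTr.n (BTr.b b0_6) (BTr.n (BTr.b b0_7) (BTr.b b0_8))) (BTr.n (BTr.n (BTr.b b0_9) (BTr.b b0_10)) (BTr.n (BTr.b b0_11) (BTr.b b0_12)))))
namespace T0
def l0 : Tr := Tr.L (Pth.l (Pth.l (Pth.l Pth.z)))
def l1 : Tr := Tr.L (Pth.l (Pth.l (Pth.r (Pth.l Pth.z))))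
def l2 : Tr := Tr.L (Pth.l (Pth.l (Pth.r (Pth.r Pth.z))))
def l3 : Tr := Tr.L (Pth.l (Pth.r (Pth.l Pth.z)))
def l4 : Tr := Tr.L (Pth.l (Pth.r (Pth.r (Pth.l Pth.z))))
def l5 : Tr := Tr.L (Pth.l (Pth.r (Pth.r (Pth.r Pth.z))))
def l6 : Tr := Tr.L (Pth.r (Pth.l (Pth.l Pth.z)))
def l7 : Tr := Tr.L (Pth.r (Pth.l (Pth.r (Pth.l Pth.z))))
def l8 : Tr := Tr.L (Pth.r (Pth.l (Pth.r (Pth.r Pth.z))))
def l9 : Tr := Tr.L (Pth.r (Pth.r (Pth.l (Pth.l Pth.z))))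
def l10 : Tr := Tr.L (Pth.r (Pth.r (Pth.l (Pth.r Pth.z))))
def l11 : Tr := Tr.L (Pth.r (Pth.r (Pth.r (Pth.l Pth.z))))
def l12 : Tr := Tr.L (Pth.r (Pth.r (Pth.r (Pth.r Pth.z))))
end T0
def b1_0 : Bx := Bx.mk (St.mk (I.pos (nat_lit 158187520) (nat_lit 240795648)) (I.mix (nat_lit 1867776) (nat_lit 54870016)) (I.mix (nat_lit 2768896) (nat_lit 85770240)) (I.pos (nat_lit 94470144) (nat_lit 237043712)) (I.mix (nat_lit 101974016) (nat_lit 61931520)) (I.mix (nat_lit 77807616) (nat_lit 67944448)) (I.mix (nat_lit 112492544) (nat_lit 86212608)))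
  false (nat_lit 0)
def b1_1 : Bx := Bx.mk (St.mk (I.mix (nat_lit 15679488) (nat_lit 144015360)) (I.mix (nat_lit 6078464) (nat_lit 25133056)) (I.mix (nat_lit 12812288) (nat_lit 17399808)) (I.mix (nat_lit 3112960) (nat_lit 87736320)) (I.mix (nat_lit 31899648) (nat_lit 35471360)) (I.mix (nat_lit 34062336) (nat_lit 25509888)) (I.mix (nat_lit 29310976) (nat_lit 20398080)))
  false (nat_lit 0)
def b1_2 : Bx := Bx.mk (St.mk (I.pos (nat_lit 117112832) (nat_lit 157777920)) (I.mix (nat_lit 49217536) (nat_lit 8732672)) (I.mix (nat_lit 57819136) (nat_lit 1359872)) (I.pos (nat_lit 54149120) (nat_lit 110608384)) (I.mix (nat_lit 88457216) (nat_lit 31670272)) (I.mix (nat_lit 37683200) (nat_lit 82640896)) (I.mix (nat_lit 30097408) (nat_lit 76300288)))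
  false (nat_lit 0)
def b1_3 : Bx := Bx.mk (St.mk (I.mix (nat_lit 12009472) (nat_lit 107446272)) (I.mix (nat_lit 23642112) (nat_lit 1507328)) (I.mix (nat_lit 20545536) (nat_lit 1146880)) (I.mix (nat_lit 2260992) (nat_lit 58392576)) (I.mix (nat_lit 34045952) (nat_lit 14532608)) (I.mix (nat_lit 15859712) (nat_lit 32587776)) (I.mix (nat_lit 9486336) (nat_lit 20414464)))
  false (nat_lit 0)
def b1_4 : Bx := Bx.mk (St.mk (I.pos (nat_lit 190971904) (nat_lit 250593280)) (I.mix (nat_lit 17104896) (nat_lit 55197696)) (I.mix (nat_lit 48431104) (nat_lit 84180992)) (I.pos (nat_lit 174768128) (nat_lit 253640704)) (I.mix (nat_lit 101105664) (nat_lit 75988992)) (I.mix (nat_lit 91389952) (nat_lit 77611008)) (I.mix (nat_lit 144457728) (nat_lit 112771072)))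
  false (nat_lit 0)
def b1_5 : Bx := Bx.mk (St.mk (I.mix (nat_lit 15532032) (nat_lit 97517568)) (I.mix (nat_lit 2654208) (nat_lit 3014656)) (I.mix (nat_lit 5177344) (nat_lit 704512)) (I.mix (nat_lit 2015232) (nat_lit 50102272)) (I.mix (nat_lit 7192576) (nat_lit 4472832)) (I.mix (nat_lit 5292032) (nat_lit 4833280)) (I.mix (nat_lit 1785856) (nat_lit 1720320)))
  false (nat_lit 0)
def b1_6 : Bx := Bx.mk (St.mk (I.pos (nat_lit 111755264) (nat_lit 134791168)) (I.mix (nat_lit 9011200) (nat_lit 7356416)) (I.mix (nat_lit 15630336) (nat_lit 655360)) (I.pos (nat_lit 50479104) (nat_lit 85671936)) (I.mix (nat_lit 27983872) (nat_lit 15040512)) (I.mix (nat_lit 17793024) (nat_lit 18317312)) (I.mix (nat_lit 15499264) (nat_lit 17711104)))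
  false (nat_lit 0)
def b1_7 : Bx := Bx.mk (St.mk (I.pos (nat_lit 215498752) (nat_lit 258031616)) (I.mix (nat_lit 15859712) (nat_lit 18071552)) (I.mix (nat_lit 50839552) (nat_lit 11321344)) (I.pos (nat_lit 200998912) (nat_lit 277495808)) (I.mix (nat_lit 86392832) (nat_lit 21839872)) (I.mix (nat_lit 48480256) (nat_lit 50921472)) (I.mix (nat_lit 81428480) (nat_lit 95420416)))
  false (nat_lit 0)
def b1_8 : Bx := Bx.mk (St.mk (I.pos (nat_lit 109297664) (nat_lit 178946048)) (I.mix (nat_lit 55541760) (nat_lit 5423104)) (I.neg (nat_lit 7454720) (nat_lit 60375040)) (I.pos (nat_lit 65241088) (nat_lit 139001856)) (I.mix (nat_lit 84312064) (nat_lit 42713088)) (I.mix (nat_lit 47742976) (nat_lit 65552384)) (I.mix (nat_lit 42369024) (nat_lit 65503232)))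
  false (nat_lit 0)
def b1_9 : Bx := Bx.mk (St.mk (I.mix (nat_lit 15073280) (nat_lit 118571008)) (I.mix (nat_lit 27672576) (nat_lit 7929856)) (I.mix (nat_lit 23396352) (nat_lit 1228800)) (I.mix (nat_lit 2457600) (nat_lit 65142784)) (I.mix (nat_lit 34521088) (nat_lit 25280512)) (I.mix (nat_lit 21889024) (nat_lit 27983872)) (I.mix (nat_lit 13205504) (nat_lit 19972096)))
  false (nat_lit 0)
def b1_10 : Bx := Bx.mk (St.mk (I.pos (nat_lit 171147264) (nat_lit 219365376)) (I.mix (nat_lit 18628608) (nat_lit 50200576)) (I.mix (nat_lit 12517376) (nat_lit 76021760)) (I.pos (nat_lit 116817920) (nat_lit 200933376)) (I.mix (nat_lit 116965376) (nat_lit 49790976)) (I.mix (nat_lit 121864192) (nat_lit 70107136)) (I.mix (nat_lit 142721024) (nat_lit 73957376)))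
  false (nat_lit 0)
def b1_11 : Bx := Bx.mk (St.mk (I.mix (nat_lit 13713408) (nat_lit 138903552)) (I.mix (nat_lit 11632640) (nat_lit 34127872)) (I.mix (nat_lit 12451840) (nat_lit 24051712)) (I.mix (nat_lit 3031040) (nat_lit 85016576)) (I.mix (nat_lit 50151424) (nat_lit 26820608)) (I.mix (nat_lit 44957696) (nat_lit 28393472)) (I.mix (nat_lit 30179328) (nat_lit 19398656)))
  false (nat_lit 0)
def b1_12 : Bx := Bx.mk (St.mk (I.pos (nat_lit 158613504) (nat_lit 205586432)) (I.mix (nat_lit 36896768) (nat_lit 5652480)) (I.mix (nat_lit 44744704) (nat_lit 9846784)) (I.pos (nat_lit 100466688) (nat_lit 177111040)) (I.mix (nat_lit 60047360) (nat_lit 53919744)) (I.mix (nat_lit 60145664) (nat_lit 59113472)) (I.mix (nat_lit 66961408) (nat_lit 64552960)))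
  false (nat_lit 0)
def b1_13 : Bx := Bx.mk (St.mk (I.pos (nat_lit 155992064) (nat_lit 177635328)) (I.neg (nat_lit 10141696) (nat_lit 34668544)) (I.neg (nat_lit 11960320) (nat_lit 41730048)) (I.pos (nat_lit 98893824) (nat_lit 138166272)) (I.mix (nat_lit 33832960) (nat_lit 17006592)) (I.mix (nat_lit 15925248) (nat_lit 23117824)) (I.mix (nat_lit 18366464) (nat_lit 27557888)))
  false (nat_lit 0)
def b1_14 : Bx := Bx.mk (St.mk (I.mix (nat_lit 13680640) (nat_lit 120881152)) (I.mix (nat_lit 12238848) (nat_lit 1572864)) (I.mix (nat_lit 12746752) (nat_lit 933888)) (I.mix (nat_lit 2572288) (nat_lit 69074944)) (I.mix (nat_lit 10928128) (nat_lit 10371072)) (I.mix (nat_lit 7176192) (nat_lit 9142272)) (I.mix (nat_lit 5259264) (nat_lit 7045120)))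
  false (nat_lit 0)
def b1_15 : Bx := Bx.mk (St.mk (I.pos (nat_lit 175046656) (nat_lit 208633856)) (I.mix (nat_lit 25247744) (nat_lit 21495808)) (I.mix (nat_lit 23199744) (nat_lit 33193984)) (I.pos (nat_lit 121094144) (nat_lit 180944896)) (I.mix (nat_lit 80248832) (nat_lit 59916288)) (I.mix (nat_lit 91602944) (nat_lit 65486848)) (I.mix (nat_lit 106299392) (nat_lit 72777728)))
  false (nat_lit 0)
def t1 : BTr := (BTr.n (BTr.n (BTr.n (BTr.n (BTr.b b1_0) (BTr.b b1_1)) (BTr.n (BTr.b b1_2) (BTr.b b1_3))) (BTr.n (BTr.n (BTr.b b1_4) (BTr.b b1_5)) (BTr.n (BTr.b b1_6) (BTr.b b1_7)))) (BTr.n (BTr.n (BTr.n (BTr.b b1_8) (BTr.b b1_9)) (BTr.n (BTr.b b1_10) (BTr.b b1_11))) (BTr.n (BTr.n (BTr.b b1_12) (BTr.b b1_13)) (BTr.n (BTr.b b1_14) (BTr.b b1_15)))))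
namespace T1
def l0 : Tr := Tr.L (Pth.l (Pth.l (Pth.l (Pth.l Pth.z))))
def l1 : Tr := Tr.L (Pth.l (Pth.l (Pth.l (Pth.r Pth.z))))
def l2 : Tr := Tr.L (Pth.l (Pth.l (Pth.r (Pth.l Pth.z))))
def l3 : Tr := Tr.L (Pth.l (Pth.l (Pth.r (Pth.r Pth.z))))
def l4 : Tr := Tr.L (Pth.l (Pth.r (Pth.l (Pth.l Pth.z))))
def l5 : Tr := Tr.L (Pth.l (Pth.r (Pth.l (Pth.r Pth.z))))
def l6 : Tr := Tr.L (Pth.l (Pth.r (Pth.r (Pth.l Pth.z))))
def l7 : Tr := Tr.L (Pth.l (Pth.r (Pth.r (Pth.r Pth.z))))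
def l8 : Tr := Tr.L (Pth.r (Pth.l (Pth.l (Pth.l Pth.z))))
def l9 : Tr := Tr.L (Pth.r (Pth.l (Pth.l (Pth.r Pth.z))))
def l10 : Tr := Tr.L (Pth.r (Pth.l (Pth.r (Pth.l Pth.z))))
def l11 : Tr := Tr.L (Pth.r (Pth.l (Pth.r (Pth.r Pth.z))))
def l12 : Tr := Tr.L (Pth.r (Pth.r (Pth.l (Pth.l Pth.z))))
def l13 : Tr := Tr.L (Pth.r (Pth.r (Pth.l (Pth.r Pth.z))))
def l14 : Tr := Tr.L (Pth.r (Pth.r (Pth.r (Pth.l Pth.z))))
def l15 : Tr := Tr.L (Pth.r (Pth.r (Pth.r (Pth.r Pth.z))))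
end T1
def b2_0 : Bx := Bx.mk (St.mk (I.pos (nat_lit 147177472) (nat_lit 220659712)) (I.mix (nat_lit 3375104) (nat_lit 106840064)) (I.mix (nat_lit 24657920) (nat_lit 72302592)) (I.pos (nat_lit 373997568) (nat_lit 468762624)) (I.mix (nat_lit 142278656) (nat_lit 93290496)) (I.mix (nat_lit 98680832) (nat_lit 95191040)) (I.mix (nat_lit 118554624) (nat_lit 123273216)))
  false (nat_lit 30924518)
def b2_1 : Bx := Bx.mk (St.mk (I.mix (nat_lit 51265536) (nat_lit 4030464)) (I.mix (nat_lit 3489792) (nat_lit 89161728)) (I.neg (nat_lit 63668224) (nat_lit 89604096)) (I.pos (nat_lit 262340608) (nat_lit 288997376)) (I.mix (nat_lit 48906240) (nat_lit 117784576)) (I.mix (nat_lit 90652672) (nat_lit 73023488)) (I.mix (nat_lit 43745280) (nat_lit 40927232)))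
  true (nat_lit 0)
def b2_2 : Bx := Bx.mk (St.mk (I.pos (nat_lit 8486912) (nat_lit 50905088)) (I.neg (nat_lit 28950528) (nat_lit 88211456)) (I.neg (nat_lit 63668224) (nat_lit 89604096)) (I.pos (nat_lit 265240576) (nat_lit 288915456)) (I.mix (nat_lit 117784576) (nat_lit 48906240)) (I.mix (nat_lit 73023488) (nat_lit 90652672)) (I.mix (nat_lit 43745280) (nat_lit 40927232)))
  false (nat_lit 21613)
def b2_3 : Bx := Bx.mk (St.mk (I.pos (nat_lit 12189696) (nat_lit 121733120)) (I.mix (nat_lit 92389376) (nat_lit 2588672)) (I.neg (nat_lit 21200896) (nat_lit 104579072)) (I.pos (nat_lit 259194880) (nat_lit 331464704)) (I.mix (nat_lit 126894080) (nat_lit 71811072)) (I.mix (nat_lit 72122368) (nat_lit 98615296)) (I.mix (nat_lit 77578240) (nat_lit 84705280)))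
  false (nat_lit 18998493)
def b2_4 : Bx := Bx.mk (St.mk (I.pos (nat_lit 91947008) (nat_lit 195641344)) (I.mix (nat_lit 44417024) (nat_lit 95830016)) (I.mix (nat_lit 68435968) (nat_lit 69025792)) (I.pos (nat_lit 300417024) (nat_lit 432570368)) (I.mix (nat_lit 145375232) (nat_lit 74858496)) (I.mix (nat_lit 137363456) (nat_lit 105021440)) (I.mix (nat_lit 134529024) (nat_lit 120242176)))
  false (nat_lit 21079266)
def b2_5 : Bx := Bx.mk (St.mk (I.neg (nat_lit 12189696) (nat_lit 121733120)) (I.mix (nat_lit 2588672) (nat_lit 92389376)) (I.neg (nat_lit 21200896) (nat_lit 104579072)) (I.pos (nat_lit 259178496) (nat_lit 331464704)) (I.mix (nat_lit 71811072) (nat_lit 126894080)) (I.mix (nat_lit 98631680) (nat_lit 72122368)) (I.mix (nat_lit 77594624) (nat_lit 84721664)))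
  true (nat_lit 0)
def b2_6 : Bx := Bx.mk (St.mk (I.pos (nat_lit 187351040) (nat_lit 271138816)) (I.mix (nat_lit 8536064) (nat_lit 58523648)) (I.neg (nat_lit 15728640) (nat_lit 165855232)) (I.pos (nat_lit 418185216) (nat_lit 555401216)) (I.mix (nat_lit 96763904) (nat_lit 69533696)) (I.mix (nat_lit 75382784) (nat_lit 74711040)) (I.mix (nat_lit 117325824) (nat_lit 141295616)))
  false (nat_lit 0)
def b2_7 : Bx := Bx.mk (St.mk (I.mix (nat_lit 9388032) (nat_lit 37273600)) (I.mix (nat_lit 41336832) (nat_lit 6324224)) (I.neg (nat_lit 64192512) (nat_lit 78462976)) (I.pos (nat_lit 262750208) (nat_lit 276889600)) (I.mix (nat_lit 51363840) (nat_lit 45694976)) (I.mix (nat_lit 43237376) (nat_lit 43794432)) (I.mix (nat_lit 10436608) (nat_lit 19628032)))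
  false (nat_lit 0)
def b2_8 : Bx := Bx.mk (St.mk (I.mix (nat_lit 10485760) (nat_lit 8241152)) (I.mix (nat_lit 5521408) (nat_lit 19873792)) (I.neg (nat_lit 67436544) (nat_lit 75972608)) (I.pos (nat_lit 262750208) (nat_lit 271597568)) (I.mix (nat_lit 20561920) (nat_lit 32358400)) (I.mix (nat_lit 24772608) (nat_lit 18939904)) (I.pos (nat_lit 32768) (nat_lit 9109504)))
  true (nat_lit 0)
def b2_9 : Bx := Bx.mk (St.mk (I.pos (nat_lit 166068224) (nat_lit 227098624)) (I.pos (nat_lit 16695296) (nat_lit 100286464)) (I.mix (nat_lit 67747840) (nat_lit 51363840)) (I.pos (nat_lit 411205632) (nat_lit 467304448)) (I.mix (nat_lit 101892096) (nat_lit 83312640)) (I.mix (nat_lit 89260032) (nat_lit 66617344)) (I.mix (nat_lit 141295616) (nat_lit 100827136)))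
  false (nat_lit 10838140)
def b2_10 : Bx := Bx.mk (St.mk (I.pos (nat_lit 12779520) (nat_lit 40747008)) (I.neg (nat_lit 17530880) (nat_lit 56377344)) (I.neg (nat_lit 66306048) (nat_lit 81248256)) (I.pos (nat_lit 264536064) (nat_lit 280018944)) (I.mix (nat_lit 56737792) (nat_lit 37240832)) (I.mix (nat_lit 42614784) (nat_lit 44924928)) (I.mix (nat_lit 14041088) (nat_lit 19480576)))
  false (nat_lit 0)
def t2 : BTr := (BTr.n (BTr.n (BTr.n (BTr.b b2_0) (BTr.b b2_1)) (BTr.n (BTr.b b2_2) (BTr.n (BTr.b b2_3) (BTr.b b2_4)))) (BTr.n (BTr.n (BTr.b b2_5) (BTr.n (BTr.b b2_6) (BTr.b b2_7))) (BTr.n (BTr.b b2_8) (BTr.n (BTr.b b2_9) (BTr.b b2_10)))))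
namespace T2
def l0 : Tr := Tr.L (Pth.l (Pth.l (Pth.l Pth.z)))
def l1 : Tr := Tr.L (Pth.l (Pth.l (Pth.r Pth.z)))
def l2 : Tr := Tr.L (Pth.l (Pth.r (Pth.l Pth.z)))
def l3 : Tr := Tr.L (Pth.l (Pth.r (Pth.r (Pth.l Pth.z))))
def l4 : Tr := Tr.L (Pth.l (Pth.r (Pth.r (Pth.r Pth.z))))
def l5 : Tr := Tr.L (Pth.r (Pth.l (Pth.l Pth.z)))
def l6 : Tr := Tr.L (Pth.r (Pth.l (Pth.r (Pth.l Pth.z))))
def l7 : Tr := Tr.L (Pth.r (Pth.l (Pth.r (Pth.r Pth.z))))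
def l8 : Tr := Tr.L (Pth.r (Pth.r (Pth.l Pth.z)))
def l9 : Tr := Tr.L (Pth.r (Pth.r (Pth.r (Pth.l Pth.z))))
def l10 : Tr := Tr.L (Pth.r (Pth.r (Pth.r (Pth.r Pth.z))))
end T2
def b3_0 : Bx := Bx.mk (St.mk (I.pos (nat_lit 158285824) (nat_lit 237715456)) (I.mix (nat_lit 1671168) (nat_lit 48201728)) (I.mix (nat_lit 3309568) (nat_lit 104202240)) (I.pos (nat_lit 94027776) (nat_lit 221757440)) (I.mix (nat_lit 104087552) (nat_lit 58540032)) (I.mix (nat_lit 87097344) (nat_lit 65945600)) (I.mix (nat_lit 131710976) (nat_lit 90079232)))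
  false (nat_lit 0)
def b3_1 : Bx := Bx.mk (St.mk (I.pos (nat_lit 116965376) (nat_lit 176177152)) (I.neg (nat_lit 606208) (nat_lit 57458688)) (I.mix (nat_lit 49741824) (nat_lit 9175040)) (I.pos (nat_lit 71925760) (nat_lit 130285568)) (I.mix (nat_lit 77463552) (nat_lit 55672832)) (I.mix (nat_lit 56213504) (nat_lit 71598080)) (I.mix (nat_lit 47824896) (nat_lit 75497472)))
  false (nat_lit 6785067)
def b3_2 : Bx := Bx.mk (St.mk (I.mix (nat_lit 10698752) (nat_lit 119521280)) (I.mix (nat_lit 26722304) (nat_lit 4964352)) (I.mix (nat_lit 15089664) (nat_lit 8142848)) (I.mix (nat_lit 2473984) (nat_lit 65667072)) (I.mix (nat_lit 26804224) (nat_lit 27885568)) (I.mix (nat_lit 20267008) (nat_lit 27656192)) (I.mix (nat_lit 13041664) (nat_lit 19546112)))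
  false (nat_lit 0)
def b3_3 : Bx := Bx.mk (St.mk (I.pos (nat_lit 168001536) (nat_lit 212303872)) (I.mix (nat_lit 20234240) (nat_lit 48218112)) (I.pos (nat_lit 3784704) (nat_lit 95272960)) (I.pos (nat_lit 108380160) (nat_lit 186810368)) (I.mix (nat_lit 127598592) (nat_lit 45449216)) (I.mix (nat_lit 128794624) (nat_lit 64405504)) (I.mix (nat_lit 161382400) (nat_lit 61571072)))
  false (nat_lit 0)
def b3_4 : Bx := Bx.mk (St.mk (I.mix (nat_lit 13811712) (nat_lit 136331264)) (I.mix (nat_lit 13615104) (nat_lit 34226176)) (I.mix (nat_lit 4456448) (nat_lit 34832384)) (I.mix (nat_lit 2949120) (nat_lit 82460672)) (I.mix (nat_lit 57442304) (nat_lit 26738688)) (I.mix (nat_lit 50970624) (nat_lit 28819456)) (I.mix (nat_lit 38010880) (nat_lit 18284544)))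
  false (nat_lit 0)
def b3_5 : Bx := Bx.mk (St.mk (I.pos (nat_lit 164085760) (nat_lit 206553088)) (I.mix (nat_lit 43237376) (nat_lit 25296896)) (I.mix (nat_lit 30359552) (nat_lit 61816832)) (I.pos (nat_lit 105201664) (nat_lit 173735936)) (I.mix (nat_lit 115916800) (nat_lit 62046208)) (I.mix (nat_lit 126402560) (nat_lit 65650688)) (I.mix (nat_lit 150388736) (nat_lit 66535424)))
  false (nat_lit 21418818)
def b3_6 : Bx := Bx.mk (St.mk (I.mix (nat_lit 17055744) (nat_lit 122175488)) (I.mix (nat_lit 14876672) (nat_lit 6799360)) (I.mix (nat_lit 5111808) (nat_lit 10747904)) (I.mix (nat_lit 2572288) (nat_lit 69304320)) (I.mix (nat_lit 23035904) (nat_lit 14630912)) (I.mix (nat_lit 14581760) (nat_lit 17399808)) (I.mix (nat_lit 10764288) (nat_lit 11780096)))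
  false (nat_lit 0)
def b3_7 : Bx := Bx.mk (St.mk (I.pos (nat_lit 141246464) (nat_lit 181354496)) (I.mix (nat_lit 37568512) (nat_lit 1327104)) (I.mix (nat_lit 24510464) (nat_lit 16482304)) (I.pos (nat_lit 87261184) (nat_lit 139051008)) (I.mix (nat_lit 58097664) (nat_lit 29540352)) (I.mix (nat_lit 28688384) (nat_lit 43728896)) (I.mix (nat_lit 35536896) (nat_lit 44761088)))
  false (nat_lit 0)
def b3_8 : Bx := Bx.mk (St.mk (I.pos (nat_lit 161021952) (nat_lit 190316544)) (I.neg (nat_lit 6127616) (nat_lit 37519360)) (I.mix (nat_lit 25280512) (nat_lit 10518528)) (I.pos (nat_lit 104562688) (nat_lit 155238400)) (I.mix (nat_lit 37896192) (nat_lit 26968064)) (I.mix (nat_lit 30818304) (nat_lit 23216128)) (I.mix (nat_lit 34160640) (nat_lit 23904256)))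
  false (nat_lit 0)
def b3_9 : Bx := Bx.mk (St.mk (I.mix (nat_lit 17907712) (nat_lit 143589376)) (I.mix (nat_lit 3555328) (nat_lit 23822336)) (I.mix (nat_lit 1376256) (nat_lit 28409856)) (I.mix (nat_lit 3145728) (nat_lit 88702976)) (I.mix (nat_lit 36634624) (nat_lit 30490624)) (I.mix (nat_lit 35274752) (nat_lit 27410432)) (I.mix (nat_lit 30310400) (nat_lit 20611072)))
  false (nat_lit 0)
def b3_10 : Bx := Bx.mk (St.mk (I.pos (nat_lit 119685120) (nat_lit 164052992)) (I.mix (nat_lit 53690368) (nat_lit 4816896)) (I.mix (nat_lit 45711360) (nat_lit 10846208)) (I.pos (nat_lit 54509568) (nat_lit 117768192)) (I.mix (nat_lit 83869696) (nat_lit 31113216)) (I.mix (nat_lit 38060032) (nat_lit 79069184)) (I.mix (nat_lit 32030720) (nat_lit 66207744)))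
  false (nat_lit 0)
def b3_11 : Bx := Bx.mk (St.mk (I.pos (nat_lit 38584320) (nat_lit 108298240)) (I.mix (nat_lit 24510464) (nat_lit 589824)) (I.mix (nat_lit 12894208) (nat_lit 3457024)) (I.pos (nat_lit 4128768) (nat_lit 60227584)) (I.mix (nat_lit 29163520) (nat_lit 15417344)) (I.mix (nat_lit 15532032) (nat_lit 25083904)) (I.mix (nat_lit 9502720) (nat_lit 14860288)))
  false (nat_lit 0)
def b3_12 : Bx := Bx.mk (St.mk (I.pos (nat_lit 197640192) (nat_lit 265191424)) (I.mix (nat_lit 10469376) (nat_lit 30867456)) (I.pos (nat_lit 720896) (nat_lit 76644352)) (I.pos (nat_lit 172998656) (nat_lit 290619392)) (I.mix (nat_lit 85131264) (nat_lit 35684352)) (I.mix (nat_lit 55820288) (nat_lit 43188224)) (I.mix (nat_lit 93421568) (nat_lit 65961984)))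
  false (nat_lit 0)
def b3_13 : Bx := Bx.mk (St.mk (I.pos (nat_lit 119668736) (nat_lit 134823936)) (I.mix (nat_lit 1245184) (nat_lit 6504448)) (I.pos (nat_lit 1916928) (nat_lit 12107776)) (I.pos (nat_lit 54837248) (nat_lit 85999616)) (I.mix (nat_lit 10256384) (nat_lit 9814016)) (I.mix (nat_lit 8192000) (nat_lit 6766592)) (I.mix (nat_lit 7864320) (nat_lit 6127616)))
  false (nat_lit 0)
def b3_14 : Bx := Bx.mk (St.mk (I.pos (nat_lit 187990016) (nat_lit 236470272)) (I.pos (nat_lit 4587520) (nat_lit 45121536)) (I.pos (nat_lit 24231936) (nat_lit 97206272)) (I.pos (nat_lit 161349632) (nat_lit 218038272)) (I.mix (nat_lit 91586560) (nat_lit 63406080)) (I.mix (nat_lit 87392256) (nat_lit 62521344)) (I.mix (nat_lit 139493376) (nat_lit 82132992)))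
  false (nat_lit 10931112)
def t3 : BTr := (BTr.n (BTr.n (BTr.n (BTr.b b3_0) (BTr.n (BTr.b b3_1) (BTr.b b3_2))) (BTr.n (BTr.n (BTr.b b3_3) (BTr.b b3_4)) (BTr.n (BTr.b b3_5) (BTr.b b3_6)))) (BTr.n (BTr.n (BTr.n (BTr.b b3_7) (BTr.b b3_8)) (BTr.n (BTr.b b3_9) (BTr.b b3_10))) (BTr.n (BTr.n (BTr.b b3_11) (BTr.b b3_12)) (BTr.n (BTr.b b3_13) (BTr.b b3_14)))))
namespace T3
def l0 : Tr := Tr.L (Pth.l (Pth.l (Pth.l Pth.z)))
def l1 : Tr := Tr.L (Pth.l (Pth.l (Pth.r (Pth.l Pth.z))))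
def l2 : Tr := Tr.L (Pth.l (Pth.l (Pth.r (Pth.r Pth.z))))
def l3 : Tr := Tr.L (Pth.l (Pth.r (Pth.l (Pth.l Pth.z))))
def l4 : Tr := Tr.L (Pth.l (Pth.r (Pth.l (Pth.r Pth.z))))
def l5 : Tr := Tr.L (Pth.l (Pth.r (Pth.r (Pth.l Pth.z))))
def l6 : Tr := Tr.L (Pth.l (Pth.r (Pth.r (Pth.r Pth.z))))
def l7 : Tr := Tr.L (Pth.r (Pth.l (Pth.l (Pth.l Pth.z))))
def l8 : Tr := Tr.L (Pth.r (Pth.l (Pth.l (Pth.r Pth.z))))
def l9 : Tr := Tr.L (Pth.r (Pth.l (Pth.r (Pth.l Pth.z))))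
def l10 : Tr := Tr.L (Pth.r (Pth.l (Pth.r (Pth.r Pth.z))))
def l11 : Tr := Tr.L (Pth.r (Pth.r (Pth.l (Pth.l Pth.z))))
def l12 : Tr := Tr.L (Pth.r (Pth.r (Pth.l (Pth.r Pth.z))))
def l13 : Tr := Tr.L (Pth.r (Pth.r (Pth.r (Pth.l Pth.z))))
def l14 : Tr := Tr.L (Pth.r (Pth.r (Pth.r (Pth.r Pth.z))))
end T3
def b4_0 : Bx := Bx.mk (St.mk (I.pos (nat_lit 123928576) (nat_lit 217939968)) (I.mix (nat_lit 2899968) (nat_lit 90472448)) (I.mix (nat_lit 4227072) (nat_lit 136003584)) (I.pos (nat_lit 347832320) (nat_lit 447545344)) (I.mix (nat_lit 155942912) (nat_lit 82657280)) (I.mix (nat_lit 105119744) (nat_lit 82886656)) (I.mix (nat_lit 120979456) (nat_lit 107167744)))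
  false (nat_lit 118715279)
def b4_1 : Bx := Bx.mk (St.mk (I.pos (nat_lit 33423360) (nat_lit 113541120)) (I.neg (nat_lit 12058624) (nat_lit 98598912)) (I.mix (nat_lit 49922048) (nat_lit 27262976)) (I.pos (nat_lit 271876096) (nat_lit 320946176)) (I.mix (nat_lit 105922560) (nat_lit 77807616)) (I.mix (nat_lit 82411520) (nat_lit 77545472)) (I.mix (nat_lit 72794112) (nat_lit 58998784)))
  false (nat_lit 43838885)
def b4_2 : Bx := Bx.mk (St.mk (I.pos (nat_lit 99663872) (nat_lit 181780480)) (I.mix (nat_lit 31358976) (nat_lit 90374144)) (I.pos (nat_lit 9814016) (nat_lit 138018816)) (I.pos (nat_lit 303939584) (nat_lit 400556032)) (I.mix (nat_lit 176062464) (nat_lit 73465856)) (I.mix (nat_lit 153108480) (nat_lit 109641728)) (I.mix (nat_lit 160022528) (nat_lit 135544832)))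
  false (nat_lit 125312613)
def b4_3 : Bx := Bx.mk (St.mk (I.neg (nat_lit 33177600) (nat_lit 121864192)) (I.pos (nat_lit 12058624) (nat_lit 98598912)) (I.mix (nat_lit 50020352) (nat_lit 30720000)) (I.pos (nat_lit 271695872) (nat_lit 327172096)) (I.mix (nat_lit 77807616) (nat_lit 105922560)) (I.mix (nat_lit 77545472) (nat_lit 82411520)) (I.mix (nat_lit 72810496) (nat_lit 58998784)))
  true (nat_lit 0)
def b4_4 : Bx := Bx.mk (St.mk (I.mix (nat_lit 67616768) (nat_lit 12845056)) (I.mix (nat_lit 13647872) (nat_lit 94158848)) (I.neg (nat_lit 12320768) (nat_lit 35962880)) (I.pos (nat_lit 265420800) (nat_lit 295616512)) (I.mix (nat_lit 58474496) (nat_lit 91406336)) (I.mix (nat_lit 82329600) (nat_lit 70844416)) (I.mix (nat_lit 34029568) (nat_lit 26099712)))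
  true (nat_lit 0)
def b4_5 : Bx := Bx.mk (St.mk (I.pos (nat_lit 23658496) (nat_lit 66551808)) (I.neg (nat_lit 32964608) (nat_lit 92798976)) (I.neg (nat_lit 14303232) (nat_lit 35897344)) (I.pos (nat_lit 272596992) (nat_lit 295403520)) (I.mix (nat_lit 91406336) (nat_lit 58474496)) (I.mix (nat_lit 70860800) (nat_lit 76775424)) (I.mix (nat_lit 34029568) (nat_lit 26099712)))
  false (nat_lit 17096191)
def b4_6 : Bx := Bx.mk (St.mk (I.pos (nat_lit 96387072) (nat_lit 120094720)) (I.neg (nat_lit 15761408) (nat_lit 45170688)) (I.pos (nat_lit 770048) (nat_lit 29999104)) (I.pos (nat_lit 303661056) (nat_lit 326270976)) (I.mix (nat_lit 27852800) (nat_lit 33603584)) (I.mix (nat_lit 23035904) (nat_lit 25018368)) (I.mix (nat_lit 18726912) (nat_lit 21807104)))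
  false (nat_lit 0)
def b4_7 : Bx := Bx.mk (St.mk (I.pos (nat_lit 174276608) (nat_lit 286687232)) (I.mix (nat_lit 25559040) (nat_lit 66813952)) (I.mix (nat_lit 87359488) (nat_lit 92962816)) (I.pos (nat_lit 398147584) (nat_lit 569425920)) (I.mix (nat_lit 90603520) (nat_lit 71188480)) (I.mix (nat_lit 73646080) (nat_lit 55623680)) (I.mix (nat_lit 120143872) (nat_lit 84393984)))
  false (nat_lit 106770601)
def b4_8 : Bx := Bx.mk (St.mk (I.mix (nat_lit 10797056) (nat_lit 52379648)) (I.mix (nat_lit 52396032) (nat_lit 12419072)) (I.neg (nat_lit 12615680) (nat_lit 26050560)) (I.pos (nat_lit 266240000) (nat_lit 281968640)) (I.mix (nat_lit 47104000) (nat_lit 45350912)) (I.mix (nat_lit 37224448) (nat_lit 41172992)) (I.mix (nat_lit 10420224) (nat_lit 12009472)))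
  false (nat_lit 0)
def b4_9 : Bx := Bx.mk (St.mk (I.pos (nat_lit 144490496) (nat_lit 206815232)) (I.pos (nat_lit 28459008) (nat_lit 87670784)) (I.pos (nat_lit 45989888) (nat_lit 128450560)) (I.pos (nat_lit 370147328) (nat_lit 426590208)) (I.mix (nat_lit 128860160) (nat_lit 91291648)) (I.mix (nat_lit 113442816) (nat_lit 75874304)) (I.mix (nat_lit 150781952) (nat_lit 96976896)))
  false (nat_lit 84648021)
def b4_10 : Bx := Bx.mk (St.mk (I.pos (nat_lit 29048832) (nat_lit 57016320)) (I.neg (nat_lit 27082752) (nat_lit 78512128)) (I.neg (nat_lit 14221312) (nat_lit 33472512)) (I.pos (nat_lit 273465344) (nat_lit 288473088)) (I.mix (nat_lit 83476480) (nat_lit 48463872)) (I.mix (nat_lit 48463872) (nat_lit 82345984)) (I.mix (nat_lit 23396352) (nat_lit 20676608)))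
  false (nat_lit 0)
def t4 : BTr := (BTr.n (BTr.n (BTr.n (BTr.b b4_0) (BTr.b b4_1)) (BTr.n (BTr.b b4_2) (BTr.n (BTr.b b4_3) (BTr.b b4_4)))) (BTr.n (BTr.n (BTr.b b4_5) (BTr.n (BTr.b b4_6) (BTr.b b4_7))) (BTr.n (BTr.b b4_8) (BTr.n (BTr.b b4_9) (BTr.b b4_10)))))
namespace T4
def l0 : Tr := Tr.L (Pth.l (Pth.l (Pth.l Pth.z)))
def l1 : Tr := Tr.L (Pth.l (Pth.l (Pth.r Pth.z)))
def l2 : Tr := Tr.L (Pth.l (Pth.r (Pth.l Pth.z)))
def l3 : Tr := Tr.L (Pth.l (Pth.r (Pth.r (Pth.l Pth.z))))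
def l4 : Tr := Tr.L (Pth.l (Pth.r (Pth.r (Pth.r Pth.z))))
def l5 : Tr := Tr.L (Pth.r (Pth.l (Pth.l Pth.z)))
def l6 : Tr := Tr.L (Pth.r (Pth.l (Pth.r (Pth.l Pth.z))))
def l7 : Tr := Tr.L (Pth.r (Pth.l (Pth.r (Pth.r Pth.z))))
def l8 : Tr := Tr.L (Pth.r (Pth.r (Pth.l Pth.z)))
def l9 : Tr := Tr.L (Pth.r (Pth.r (Pth.r (Pth.l Pth.z))))
def l10 : Tr := Tr.L (Pth.r (Pth.r (Pth.r (Pth.r Pth.z))))
end T4
def b5_0 : Bx := Bx.mk (St.mk (I.pos (nat_lit 137232384) (nat_lit 221036544)) (I.mix (nat_lit 2179072) (nat_lit 65536000)) (I.mix (nat_lit 4194304) (nat_lit 134643712)) (I.pos (nat_lit 230047744) (nat_lit 319291392)) (I.mix (nat_lit 125648896) (nat_lit 70549504)) (I.mix (nat_lit 98205696) (nat_lit 76611584)) (I.mix (nat_lit 125747200) (nat_lit 83345408)))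
  false (nat_lit 75237874)
def b5_1 : Bx := Bx.mk (St.mk (I.pos (nat_lit 86458368) (nat_lit 146849792)) (I.neg (nat_lit 5832704) (nat_lit 74088448)) (I.mix (nat_lit 30294016) (nat_lit 39927808)) (I.pos (nat_lit 176881664) (nat_lit 221724672)) (I.mix (nat_lit 72646656) (nat_lit 74498048)) (I.mix (nat_lit 57049088) (nat_lit 68485120)) (I.mix (nat_lit 44662784) (nat_lit 59768832)))
  false (nat_lit 22179008)
def b5_2 : Bx := Bx.mk (St.mk (I.mix (nat_lit 29163520) (nat_lit 2867200)) (I.mix (nat_lit 41336832) (nat_lit 9125888)) (I.pos (nat_lit 19775488) (nat_lit 28327936)) (I.pos (nat_lit 139214848) (nat_lit 148340736)) (I.mix (nat_lit 32522240) (nat_lit 53755904)) (I.mix (nat_lit 27394048) (nat_lit 41844736)) (I.mix (nat_lit 6881280) (nat_lit 8404992)))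
  true (nat_lit 0)
def b5_3 : Bx := Bx.mk (St.mk (I.pos (nat_lit 140443648) (nat_lit 188547072)) (I.mix (nat_lit 2326528) (nat_lit 60719104)) (I.pos (nat_lit 49184768) (nat_lit 126844928)) (I.pos (nat_lit 213352448) (nat_lit 273399808)) (I.mix (nat_lit 140820480) (nat_lit 41713664)) (I.mix (nat_lit 133513216) (nat_lit 68042752)) (I.mix (nat_lit 145260544) (nat_lit 69779456)))
  false (nat_lit 47668942)
def b5_4 : Bx := Bx.mk (St.mk (I.mix (nat_lit 2818048) (nat_lit 29163520)) (I.mix (nat_lit 9240576) (nat_lit 41336832)) (I.pos (nat_lit 19775488) (nat_lit 28327936)) (I.pos (nat_lit 139214848) (nat_lit 148340736)) (I.mix (nat_lit 53755904) (nat_lit 32522240)) (I.mix (nat_lit 41844736) (nat_lit 27394048)) (I.mix (nat_lit 6881280) (nat_lit 8404992)))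
  false (nat_lit 0)
def b5_5 : Bx := Bx.mk (St.mk (I.pos (nat_lit 122191872) (nat_lit 145080320)) (I.neg (nat_lit 5586944) (nat_lit 34750464)) (I.pos (nat_lit 9863168) (nat_lit 41648128)) (I.pos (nat_lit 197165056) (nat_lit 219774976)) (I.mix (nat_lit 50708480) (nat_lit 41254912)) (I.mix (nat_lit 34684928) (nat_lit 46645248)) (I.mix (nat_lit 38371328) (nat_lit 40894464)))
  false (nat_lit 0)
def b5_6 : Bx := Bx.mk (St.mk (I.mix (nat_lit 11534336) (nat_lit 1458176)) (I.mix (nat_lit 7634944) (nat_lit 9895936)) (I.pos (nat_lit 20496384) (nat_lit 25100288)) (I.pos (nat_lit 139345920) (nat_lit 143474688)) (I.mix (nat_lit 27967488) (nat_lit 21217280)) (I.mix (nat_lit 19300352) (nat_lit 23412736)) (I.mix (nat_lit 3178496) (nat_lit 1654784)))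
  true (nat_lit 0)
def b5_7 : Bx := Bx.mk (St.mk (I.pos (nat_lit 135987200) (nat_lit 160792576)) (I.neg (nat_lit 12156928) (nat_lit 38027264)) (I.pos (nat_lit 7749632) (nat_lit 36552704)) (I.pos (nat_lit 210894848) (nat_lit 237125632)) (I.mix (nat_lit 35307520) (nat_lit 46104576)) (I.mix (nat_lit 42942464) (nat_lit 33554432)) (I.mix (nat_lit 41369600) (nat_lit 34127872)))
  false (nat_lit 0)
def b5_8 : Bx := Bx.mk (St.mk (I.pos (nat_lit 137674752) (nat_lit 181862400)) (I.mix (nat_lit 43073536) (nat_lit 37650432)) (I.pos (nat_lit 5898240) (nat_lit 99549184)) (I.pos (nat_lit 209895424) (nat_lit 261849088)) (I.mix (nat_lit 109117440) (nat_lit 75513856)) (I.mix (nat_lit 111755264) (nat_lit 71106560)) (I.mix (nat_lit 115081216) (nat_lit 71254016)))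
  false (nat_lit 34415143)
def b5_9 : Bx := Bx.mk (St.mk (I.pos (nat_lit 11501568) (nat_lit 70139904)) (I.mix (nat_lit 10223616) (nat_lit 46039040)) (I.pos (nat_lit 3342336) (nat_lit 31670272)) (I.pos (nat_lit 138346496) (nat_lit 162381824)) (I.mix (nat_lit 48398336) (nat_lit 41140224)) (I.mix (nat_lit 49430528) (nat_lit 32669696)) (I.mix (nat_lit 26427392) (nat_lit 19873792)))
  false (nat_lit 0)
def b5_10 : Bx := Bx.mk (St.mk (I.pos (nat_lit 54689792) (nat_lit 113819648)) (I.mix (nat_lit 68911104) (nat_lit 12009472)) (I.mix (nat_lit 24903680) (nat_lit 17563648)) (I.pos (nat_lit 152600576) (nat_lit 193298432)) (I.mix (nat_lit 66813952) (nat_lit 47497216)) (I.mix (nat_lit 39763968) (nat_lit 71008256)) (I.mix (nat_lit 27279360) (nat_lit 38699008)))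
  false (nat_lit 0)
def b5_11 : Bx := Bx.mk (St.mk (I.neg (nat_lit 11501568) (nat_lit 70139904)) (I.mix (nat_lit 46039040) (nat_lit 10223616)) (I.pos (nat_lit 3342336) (nat_lit 31670272)) (I.pos (nat_lit 138346496) (nat_lit 162381824)) (I.mix (nat_lit 41140224) (nat_lit 48398336)) (I.mix (nat_lit 32669696) (nat_lit 49430528)) (I.mix (nat_lit 26427392) (nat_lit 19873792)))
  true (nat_lit 0)
def b5_12 : Bx := Bx.mk (St.mk (I.pos (nat_lit 179093504) (nat_lit 283967488)) (I.mix (nat_lit 20725760) (nat_lit 50413568)) (I.mix (nat_lit 13352960) (nat_lit 116785152)) (I.pos (nat_lit 272482304) (nat_lit 438894592)) (I.mix (nat_lit 90275840) (nat_lit 67993600)) (I.mix (nat_lit 68763648) (nat_lit 47579136)) (I.mix (nat_lit 112230400) (nat_lit 76251136)))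
  false (nat_lit 62035882)
def b5_13 : Bx := Bx.mk (St.mk (I.pos (nat_lit 160759808) (nat_lit 218071040)) (I.pos (nat_lit 9355264) (nat_lit 64077824)) (I.pos (nat_lit 47955968) (nat_lit 133562368)) (I.pos (nat_lit 255148032) (nat_lit 307822592)) (I.mix (nat_lit 121339904) (nat_lit 85770240)) (I.mix (nat_lit 116097024) (nat_lit 75563008)) (I.mix (nat_lit 161480704) (nat_lit 83771392)))
  false (nat_lit 61293920)
def t5 : BTr := (BTr.n (BTr.n (BTr.n (BTr.b b5_0) (BTr.n (BTr.b b5_1) (BTr.b b5_2))) (BTr.n (BTr.n (BTr.b b5_3) (BTr.b b5_4)) (BTr.n (BTr.b b5_5) (BTr.b b5_6)))) (BTr.n (BTr.n (BTr.b b5_7) (BTr.n (BTr.b b5_8) (BTr.b b5_9))) (BTr.n (BTr.n (BTr.b b5_10) (BTr.b b5_11)) (BTr.n (BTr.b b5_12) (BTr.b b5_13)))))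
namespace T5
def l0 : Tr := Tr.L (Pth.l (Pth.l (Pth.l Pth.z)))
def l1 : Tr := Tr.L (Pth.l (Pth.l (Pth.r (Pth.l Pth.z))))
def l2 : Tr := Tr.L (Pth.l (Pth.l (Pth.r (Pth.r Pth.z))))
def l3 : Tr := Tr.L (Pth.l (Pth.r (Pth.l (Pth.l Pth.z))))
def l4 : Tr := Tr.L (Pth.l (Pth.r (Pth.l (Pth.r Pth.z))))
def l5 : Tr := Tr.L (Pth.l (Pth.r (Pth.r (Pth.l Pth.z))))
def l6 : Tr := Tr.L (Pth.l (Pth.r (Pth.r (Pth.r Pth.z))))
def l7 : Tr := Tr.L (Pth.r (Pth.l (Pth.l Pth.z)))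
def l8 : Tr := Tr.L (Pth.r (Pth.l (Pth.r (Pth.l Pth.z))))
def l9 : Tr := Tr.L (Pth.r (Pth.l (Pth.r (Pth.r Pth.z))))
def l10 : Tr := Tr.L (Pth.r (Pth.r (Pth.l (Pth.l Pth.z))))
def l11 : Tr := Tr.L (Pth.r (Pth.r (Pth.l (Pth.r Pth.z))))
def l12 : Tr := Tr.L (Pth.r (Pth.r (Pth.r (Pth.l Pth.z))))
def l13 : Tr := Tr.L (Pth.r (Pth.r (Pth.r (Pth.r Pth.z))))
end T5
theorem bx0_0 : BoxOK sI cl4 cl5 cl13 t2 t4 b0_0 :=
  box_mk (TrL.c (I.pos (nat_lit 0) (nat_lit 0)) (xb T2.l0 (xa T2.l0 T2.l0))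
  (TrL.c (I.pos (nat_lit 0) (nat_lit 0)) T4.l1
  (TrL.c (I.pos (nat_lit 0) (nat_lit 0)) T2.l1
  (TrL.c (I.pos (nat_lit 0) (nat_lit 0)) T4.l2
  (TrL.c (I.pos (nat_lit 0) (nat_lit 0)) T2.l2
  (TrL.c (I.pos (nat_lit 0) (nat_lit 0)) T4.l3
  TrL.n)))))) (by decide +kernel)
theorem bx0_1 : BoxOK sI cl4 cl5 cl13 t2 t4 b0_1 :=
  box_mk (TrL.c (I.pos (nat_lit 0) (nat_lit 0)) T2.l6
  (TrL.c (I.pos (nat_lit 0) (nat_lit 0)) T4.l1
  (TrL.c (I.pos (nat_lit 0) (nat_lit 0)) T2.l1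
  (TrL.c (I.pos (nat_lit 0) (nat_lit 0)) T4.l2
  (TrL.c (I.pos (nat_lit 0) (nat_lit 0)) T2.l7
  (TrL.c (I.pos (nat_lit 0) (nat_lit 0)) T4.l3
  TrL.n)))))) (by decide +kernel)
theorem bx0_2 : BoxOK sI cl4 cl5 cl13 t2 t4 b0_2 :=
  box_mk (TrL.c (I.pos (nat_lit 0) (nat_lit 0)) (xb T2.l6 (xa (xb T2.l6 T2.l6) T2.l6))
  (TrL.c (I.pos (nat_lit 0) (nat_lit 0)) T4.l1
  (TrL.c (I.pos (nat_lit 0) (nat_lit 0)) T2.l1
  (TrL.c (I.pos (nat_lit 0) (nat_lit 0)) T4.l2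
  (TrL.c (I.pos (nat_lit 0) (nat_lit 0)) T2.l7
  (TrL.c (I.pos (nat_lit 0) (nat_lit 0)) T4.l3
  TrL.n)))))) (by decide +kernel)
theorem bx0_3 : BoxOK sI cl4 cl5 cl13 t2 t4 b0_3 :=
  box_mk (TrL.c (I.pos (nat_lit 0) (nat_lit 0)) T4.l1
  (TrL.c (I.pos (nat_lit 0) (nat_lit 0)) T2.l1
  TrL.n)) (by decide +kernel)
theorem bx0_4 : BoxOK sI cl4 cl5 cl13 t2 t4 b0_4 :=
  box_mk (TrL.c (I.pos (nat_lit 0) (nat_lit 0)) T2.l6
  (TrL.c (I.pos (nat_lit 0) (nat_lit 0)) T4.l1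
  (TrL.c (I.pos (nat_lit 0) (nat_lit 0)) T2.l1
  (TrL.c (I.pos (nat_lit 0) (nat_lit 0)) T4.l2
  (TrL.c (I.pos (nat_lit 0) (nat_lit 0)) T2.l7
  (TrL.c (I.pos (nat_lit 0) (nat_lit 0)) T4.l3
  TrL.n)))))) (by decide +kernel)
theorem bx0_5 : BoxOK sI cl4 cl5 cl13 t2 t4 b0_5 :=
  box_mk (TrL.c (I.pos (nat_lit 0) (nat_lit 0)) T2.l0
  (TrL.c (I.pos (nat_lit 0) (nat_lit 0)) T4.l1
  (TrL.c (I.pos (nat_lit 0) (nat_lit 0)) T2.l1
  (TrL.c (I.pos (nat_lit 0) (nat_lit 0)) T4.l2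
  (TrL.c (I.pos (nat_lit 0) (nat_lit 0)) T2.l2
  (TrL.c (I.pos (nat_lit 0) (nat_lit 0)) T4.l3
  TrL.n)))))) (by decide +kernel)
theorem bx0_6 : BoxOK sI cl4 cl5 cl13 t2 t4 b0_6 :=
  box_mk (TrL.c (I.pos (nat_lit 0) (nat_lit 0)) (xb (xa T2.l0 T2.l0) (xa (xb T2.l0 T2.l0) (xb T2.l0 T2.l0)))
  (TrL.c (I.pos (nat_lit 0) (nat_lit 0)) (xb T4.l1 T4.l1)
  (TrL.c (I.pos (nat_lit 0) (nat_lit 0)) T2.l1
  (TrL.c (I.pos (nat_lit 0) (nat_lit 0)) (xb (xa T4.l2 (xb (xa T4.l2 T4.l2) T4.l2)) (xa T4.l2 (xb T4.l2 (xs T4.l2 T4.l2))))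
  (TrL.c (I.pos (nat_lit 0) (nat_lit 0)) T2.l2
  (TrL.c (I.pos (nat_lit 0) (nat_lit 0)) (xb T4.l3 T4.l3)
  TrL.n)))))) (by decide +kernel)
theorem bx0_7 : BoxOK sI cl4 cl5 cl13 t2 t4 b0_7 :=
  box_mk (TrL.c (I.pos (nat_lit 0) (nat_lit 0)) (xa (xb (xa (xb T2.l6 T2.l6) T2.l6) (xa (xb T2.l6 T2.l6) T2.l6)) (xb (xa T2.l6 T2.l6) T2.l6))
  (TrL.c (I.pos (nat_lit 0) (nat_lit 0)) T4.l1
  (TrL.c (I.pos (nat_lit 0) (nat_lit 0)) T2.l1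
  (TrL.c (I.pos (nat_lit 0) (nat_lit 0)) T4.l2
  (TrL.c (I.pos (nat_lit 0) (nat_lit 0)) T2.l7
  (TrL.c (I.pos (nat_lit 0) (nat_lit 0)) T4.l3
  TrL.n)))))) (by decide +kernel)
theorem bx0_8 : BoxOK sI cl4 cl5 cl13 t2 t4 b0_8 :=
  box_mk (TrL.c (I.pos (nat_lit 0) (nat_lit 0)) T4.l6
  (TrL.c (I.pos (nat_lit 0) (nat_lit 0)) T2.l8
  TrL.n)) (by decide +kernel)
theorem bx0_9 : BoxOK sI cl4 cl5 cl13 t2 t4 b0_9 :=
  box_mk (TrL.c (I.pos (nat_lit 0) (nat_lit 0)) (xb T2.l9 (xa T2.l9 T2.l9))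
  (TrL.c (I.pos (nat_lit 0) (nat_lit 0)) T4.l1
  (TrL.c (I.pos (nat_lit 0) (nat_lit 0)) T2.l1
  (TrL.c (I.pos (nat_lit 0) (nat_lit 0)) T4.l2
  (TrL.c (I.pos (nat_lit 0) (nat_lit 0)) T2.l2
  (TrL.c (I.pos (nat_lit 0) (nat_lit 0)) T4.l3
  TrL.n)))))) (by decide +kernel)
theorem bx0_10 : BoxOK sI cl4 cl5 cl13 t2 t4 b0_10 :=
  box_mk (TrL.c (I.pos (nat_lit 0) (nat_lit 0)) (xb (xa T2.l6 T2.l6) (xa T2.l6 T2.l6))
  (TrL.c (I.pos (nat_lit 0) (nat_lit 0)) T4.l6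
  (TrL.c (I.pos (nat_lit 0) (nat_lit 0)) T2.l8
  (TrL.c (I.pos (nat_lit 0) (nat_lit 0)) T4.l2
  (TrL.c (I.pos (nat_lit 0) (nat_lit 0)) T2.l7
  (TrL.c (I.pos (nat_lit 0) (nat_lit 0)) T4.l3
  TrL.n)))))) (by decide +kernel)
theorem bx0_11 : BoxOK sI cl4 cl5 cl13 t2 t4 b0_11 :=
  box_mk (TrL.c (I.pos (nat_lit 0) (nat_lit 0)) (xa (xb T2.l9 T2.l9) T2.l9)
  (TrL.c (I.pos (nat_lit 0) (nat_lit 0)) T4.l1
  (TrL.c (I.pos (nat_lit 0) (nat_lit 0)) T2.l1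
  (TrL.c (I.pos (nat_lit 0) (nat_lit 0)) T4.l2
  (TrL.c (I.pos (nat_lit 0) (nat_lit 0)) T2.l3
  (TrL.c (I.pos (nat_lit 0) (nat_lit 0)) T4.l3
  TrL.n)))))) (by decide +kernel)
theorem bx0_12 : BoxOK sI cl4 cl5 cl13 t2 t4 b0_12 :=
  box_mk (TrL.c (I.pos (nat_lit 0) (nat_lit 0)) (xb T2.l9 (xa T2.l9 T2.l9))
  (TrL.c (I.pos (nat_lit 0) (nat_lit 0)) T4.l1
  (TrL.c (I.pos (nat_lit 0) (nat_lit 0)) T2.l1
  (TrL.c (I.pos (nat_lit 0) (nat_lit 0)) T4.l2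
  (TrL.c (I.pos (nat_lit 0) (nat_lit 0)) T2.l2
  (TrL.c (I.pos (nat_lit 0) (nat_lit 0)) T4.l3
  TrL.n)))))) (by decide +kernel)
theorem sv0 : StarV sI cl4 cl5 cl13 t2 t4 t0 :=
  (bt_n (bt_n (bt_n (bt_b bx0_0) (bt_n (bt_b bx0_1) (bt_b bx0_2))) (bt_n (bt_b bx0_3) (bt_n (bt_b bx0_4) (bt_b bx0_5)))) (bt_n (bt_n (bt_b bx0_6) (bt_n (bt_b bx0_7) (bt_b bx0_8))) (bt_n (bt_n (bt_b bx0_9) (bt_b bx0_10)) (bt_n (bt_b bx0_11) (bt_b bx0_12)))))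
def S0 : StarD := StarD.mk cl4 cl5 cl13 2 4 t0
theorem bx1_0 : BoxOK sI cl4 cl13 cl5 t4 t2 b1_0 :=
  box_mk (TrL.c (I.pos (nat_lit 0) (nat_lit 0)) (xa (xb T4.l0 (xa T4.l0 T4.l0)) (xa (xb T4.l0 T4.l0) (xb T4.l0 T4.l0)))
  (TrL.c (I.pos (nat_lit 0) (nat_lit 0)) (xa T2.l3 T2.l3)
  (TrL.c (I.pos (nat_lit 0) (nat_lit 0)) T4.l4
  (TrL.c (I.pos (nat_lit 0) (nat_lit 0)) (xa T2.l4 T2.l4)
  (TrL.c (I.pos (nat_lit 0) (nat_lit 0)) T4.l5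
  (TrL.c (I.pos (nat_lit 0) (nat_lit 0)) (xa T2.l5 T2.l5)
  TrL.n)))))) (by decide +kernel)
theorem bx1_1 : BoxOK sI cl4 cl13 cl5 t4 t2 b1_1 :=
  box_mk (TrL.c (I.pos (nat_lit 0) (nat_lit 0)) (xa (xa T4.l7 T4.l7) (xa T4.l7 T4.l7))
  (TrL.c (I.pos (nat_lit 0) (nat_lit 0)) (xa T2.l3 T2.l3)
  (TrL.c (I.pos (nat_lit 0) (nat_lit 0)) T4.l4
  (TrL.c (I.pos (nat_lit 0) (nat_lit 0)) (xa T2.l4 T2.l4)
  (TrL.c (I.pos (nat_lit 0) (nat_lit 0)) T4.l8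
  (TrL.c (I.pos (nat_lit 0) (nat_lit 0)) (xa T2.l5 T2.l5)
  TrL.n)))))) (by decide +kernel)
theorem bx1_2 : BoxOK sI cl4 cl13 cl5 t4 t2 b1_2 :=
  box_mk (TrL.c (I.pos (nat_lit 0) (nat_lit 0)) (xb T4.l7 (xa T4.l7 T4.l7))
  (TrL.c (I.pos (nat_lit 0) (nat_lit 0)) T2.l3
  (TrL.c (I.pos (nat_lit 0) (nat_lit 0)) T4.l4
  (TrL.c (I.pos (nat_lit 0) (nat_lit 0)) T2.l4
  (TrL.c (I.pos (nat_lit 0) (nat_lit 0)) T4.l8
  (TrL.c (I.pos (nat_lit 0) (nat_lit 0)) T2.l5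
  TrL.n)))))) (by decide +kernel)
theorem bx1_3 : BoxOK sI cl4 cl13 cl5 t4 t2 b1_3 :=
  box_mk (TrL.c (I.pos (nat_lit 0) (nat_lit 0)) T4.l7
  (TrL.c (I.pos (nat_lit 0) (nat_lit 0)) T2.l3
  (TrL.c (I.pos (nat_lit 0) (nat_lit 0)) T4.l4
  (TrL.c (I.pos (nat_lit 0) (nat_lit 0)) T2.l4
  (TrL.c (I.pos (nat_lit 0) (nat_lit 0)) T4.l8
  (TrL.c (I.pos (nat_lit 0) (nat_lit 0)) T2.l5
  TrL.n)))))) (by decide +kernel)
theorem bx1_4 : BoxOK sI cl4 cl13 cl5 t4 t2 b1_4 :=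
  box_mk (TrL.c (I.pos (nat_lit 0) (nat_lit 0)) (xa (xb (xb T4.l0 T4.l0) (xa (xb T4.l0 T4.l0) (xb T4.l0 T4.l0))) (xb (xb T4.l0 T4.l0) (xa T4.l0 T4.l2)))
  (TrL.c (I.pos (nat_lit 0) (nat_lit 0)) (xa T2.l3 (xb T2.l3 T2.l3))
  (TrL.c (I.pos (nat_lit 0) (nat_lit 0)) T4.l4
  (TrL.c (I.pos (nat_lit 0) (nat_lit 0)) (xb (xa T2.l4 (xb (xa T2.l4 T2.l4) T2.l4)) (xa T2.l4 (xa T2.l4 (xb T2.l4 T2.l4))))
  (TrL.c (I.pos (nat_lit 0) (nat_lit 0)) T4.l5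
  (TrL.c (I.pos (nat_lit 0) (nat_lit 0)) (xa T2.l5 (xb T2.l5 T2.l5))
  TrL.n)))))) (by decide +kernel)
theorem bx1_5 : BoxOK sI cl4 cl13 cl5 t4 t2 b1_5 :=
  box_mk (TrL.c (I.pos (nat_lit 0) (nat_lit 0)) T4.l7
  (TrL.c (I.pos (nat_lit 0) (nat_lit 0)) T2.l3
  (TrL.c (I.pos (nat_lit 0) (nat_lit 0)) T4.l4
  (TrL.c (I.pos (nat_lit 0) (nat_lit 0)) T2.l4
  (TrL.c (I.pos (nat_lit 0) (nat_lit 0)) T4.l8
  (TrL.c (I.pos (nat_lit 0) (nat_lit 0)) T2.l5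
  TrL.n)))))) (by decide +kernel)
theorem bx1_6 : BoxOK sI cl4 cl13 cl5 t4 t2 b1_6 :=
  box_mk (TrL.c (I.pos (nat_lit 0) (nat_lit 0)) T4.l7
  (TrL.c (I.pos (nat_lit 0) (nat_lit 0)) T2.l3
  (TrL.c (I.pos (nat_lit 0) (nat_lit 0)) T4.l4
  (TrL.c (I.pos (nat_lit 0) (nat_lit 0)) T2.l4
  (TrL.c (I.pos (nat_lit 0) (nat_lit 0)) T4.l8
  (TrL.c (I.pos (nat_lit 0) (nat_lit 0)) T2.l5
  TrL.n)))))) (by decide +kernel)
theorem bx1_7 : BoxOK sI cl4 cl13 cl5 t4 t2 b1_7 :=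
  box_mk (TrL.c (I.pos (nat_lit 0) (nat_lit 0)) T4.l0
  (TrL.c (I.pos (nat_lit 0) (nat_lit 0)) T2.l3
  (TrL.c (I.pos (nat_lit 0) (nat_lit 0)) T4.l3
  (TrL.c (I.pos (nat_lit 0) (nat_lit 0)) T2.l0
  (TrL.c (I.pos (nat_lit 0) (nat_lit 0)) T4.l1
  (TrL.c (I.pos (nat_lit 0) (nat_lit 0)) T2.l5
  TrL.n)))))) (by decide +kernel)
theorem bx1_8 : BoxOK sI cl4 cl13 cl5 t4 t2 b1_8 :=
  box_mk (TrL.c (I.pos (nat_lit 0) (nat_lit 0)) (xa (xb (xa T4.l7 T4.l7) (xa T4.l7 T4.l7)) T4.l0)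
  (TrL.c (I.pos (nat_lit 0) (nat_lit 0)) T2.l3
  (TrL.c (I.pos (nat_lit 0) (nat_lit 0)) T4.l4
  (TrL.c (I.pos (nat_lit 0) (nat_lit 0)) (xa T2.l4 T2.l4)
  (TrL.c (I.pos (nat_lit 0) (nat_lit 0)) T4.l8
  (TrL.c (I.pos (nat_lit 0) (nat_lit 0)) T2.l5
  TrL.n)))))) (by decide +kernel)
theorem bx1_9 : BoxOK sI cl4 cl13 cl5 t4 t2 b1_9 :=
  box_mk (TrL.c (I.pos (nat_lit 0) (nat_lit 0)) (xa (xa (xb (xa T4.l7 T4.l7) T4.l7) T4.l7) T4.l7)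
  (TrL.c (I.pos (nat_lit 0) (nat_lit 0)) T2.l3
  (TrL.c (I.pos (nat_lit 0) (nat_lit 0)) T4.l4
  (TrL.c (I.pos (nat_lit 0) (nat_lit 0)) (xa T2.l4 T2.l4)
  (TrL.c (I.pos (nat_lit 0) (nat_lit 0)) T4.l8
  (TrL.c (I.pos (nat_lit 0) (nat_lit 0)) T2.l5
  TrL.n)))))) (by decide +kernel)
theorem bx1_10 : BoxOK sI cl4 cl13 cl5 t4 t2 b1_10 :=
  box_mk (TrL.c (I.pos (nat_lit 0) (nat_lit 0)) (xb (xa (xb T4.l9 T4.l9) T4.l9) (xa (xb T4.l9 T4.l9) (xb T4.l9 T4.l9)))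
  (TrL.c (I.pos (nat_lit 0) (nat_lit 0)) (xb T2.l3 T2.l3)
  (TrL.c (I.pos (nat_lit 0) (nat_lit 0)) T4.l4
  (TrL.c (I.pos (nat_lit 0) (nat_lit 0)) (xb T2.l4 (xa T2.l4 T2.l4))
  (TrL.c (I.pos (nat_lit 0) (nat_lit 0)) T4.l10
  (TrL.c (I.pos (nat_lit 0) (nat_lit 0)) (xb T2.l5 T2.l5)
  TrL.n)))))) (by decide +kernel)
theorem bx1_11 : BoxOK sI cl4 cl13 cl5 t4 t2 b1_11 :=
  box_mk (TrL.c (I.pos (nat_lit 0) (nat_lit 0)) (xa (xa (xb T4.l7 (xa T4.l7 T4.l7)) T4.l7) (xa T4.l7 (xb T4.l7 (xa T4.l7 T4.l7))))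
  (TrL.c (I.pos (nat_lit 0) (nat_lit 0)) (xa T2.l3 T2.l3)
  (TrL.c (I.pos (nat_lit 0) (nat_lit 0)) T4.l4
  (TrL.c (I.pos (nat_lit 0) (nat_lit 0)) (xa T2.l4 T2.l4)
  (TrL.c (I.pos (nat_lit 0) (nat_lit 0)) T4.l8
  (TrL.c (I.pos (nat_lit 0) (nat_lit 0)) (xa T2.l5 T2.l5)
  TrL.n)))))) (by decide +kernel)
theorem bx1_12 : BoxOK sI cl4 cl13 cl5 t4 t2 b1_12 :=
  box_mk (TrL.c (I.pos (nat_lit 0) (nat_lit 0)) T4.l0
  (TrL.c (I.pos (nat_lit 0) (nat_lit 0)) T2.l3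
  (TrL.c (I.pos (nat_lit 0) (nat_lit 0)) T4.l4
  (TrL.c (I.pos (nat_lit 0) (nat_lit 0)) T2.l4
  (TrL.c (I.pos (nat_lit 0) (nat_lit 0)) T4.l10
  (TrL.c (I.pos (nat_lit 0) (nat_lit 0)) T2.l5
  TrL.n)))))) (by decide +kernel)
theorem bx1_13 : BoxOK sI cl4 cl13 cl5 t4 t2 b1_13 :=
  box_mk (TrL.c (I.pos (nat_lit 0) (nat_lit 0)) T4.l0
  (TrL.c (I.pos (nat_lit 0) (nat_lit 0)) T2.l3
  (TrL.c (I.pos (nat_lit 0) (nat_lit 0)) T4.l4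
  (TrL.c (I.pos (nat_lit 0) (nat_lit 0)) T2.l4
  (TrL.c (I.pos (nat_lit 0) (nat_lit 0)) T4.l8
  (TrL.c (I.pos (nat_lit 0) (nat_lit 0)) T2.l5
  TrL.n)))))) (by decide +kernel)
theorem bx1_14 : BoxOK sI cl4 cl13 cl5 t4 t2 b1_14 :=
  box_mk (TrL.c (I.pos (nat_lit 0) (nat_lit 0)) (xa T4.l7 T4.l7)
  (TrL.c (I.pos (nat_lit 0) (nat_lit 0)) T2.l3
  (TrL.c (I.pos (nat_lit 0) (nat_lit 0)) T4.l4
  (TrL.c (I.pos (nat_lit 0) (nat_lit 0)) T2.l4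
  (TrL.c (I.pos (nat_lit 0) (nat_lit 0)) T4.l8
  (TrL.c (I.pos (nat_lit 0) (nat_lit 0)) T2.l5
  TrL.n)))))) (by decide +kernel)
theorem bx1_15 : BoxOK sI cl4 cl13 cl5 t4 t2 b1_15 :=
  box_mk (TrL.c (I.pos (nat_lit 0) (nat_lit 0)) (xb T4.l9 T4.l9)
  (TrL.c (I.pos (nat_lit 0) (nat_lit 0)) T2.l3
  (TrL.c (I.pos (nat_lit 0) (nat_lit 0)) T4.l4
  (TrL.c (I.pos (nat_lit 0) (nat_lit 0)) T2.l4
  (TrL.c (I.pos (nat_lit 0) (nat_lit 0)) T4.l10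
  (TrL.c (I.pos (nat_lit 0) (nat_lit 0)) T2.l5
  TrL.n)))))) (by decide +kernel)
theorem sv1 : StarV sI cl4 cl13 cl5 t4 t2 t1 :=
  (bt_n (bt_n (bt_n (bt_n (bt_b bx1_0) (bt_b bx1_1)) (bt_n (bt_b bx1_2) (bt_b bx1_3))) (bt_n (bt_n (bt_b bx1_4) (bt_b bx1_5)) (bt_n (bt_b bx1_6) (bt_b bx1_7)))) (bt_n (bt_n (bt_n (bt_b bx1_8) (bt_b bx1_9)) (bt_n (bt_b bx1_10) (bt_b bx1_11))) (bt_n (bt_n (bt_b bx1_12) (bt_b bx1_13)) (bt_n (bt_b bx1_14) (bt_b bx1_15)))))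
def S1 : StarD := StarD.mk cl4 cl13 cl5 4 2 t1
theorem bx2_0 : BoxOK sI cl5 cl4 cl13 t0 t5 b2_0 :=
  box_mk (TrL.c (I.pos (nat_lit 0) (nat_lit 0)) (xb (xa T0.l6 T0.l0) (xa T0.l6 (xb T0.l0 T0.l0)))
  (TrL.c (I.pos (nat_lit 0) (nat_lit 0)) T5.l1
  (TrL.c (I.pos (nat_lit 0) (nat_lit 0)) T0.l1
  (TrL.c (I.pos (nat_lit 0) (nat_lit 0)) T5.l2
  (TrL.c (I.pos (nat_lit 0) (nat_lit 0)) (xb (xa T5.l3 T5.l3) (xa T5.l3 (xb T5.l3 T5.l3)))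
  (TrL.c (I.pos (nat_lit 0) (nat_lit 0)) T0.l2
  (TrL.c (I.pos (nat_lit 0) (nat_lit 0)) T5.l4
  (TrL.c (I.pos (nat_lit 0) (nat_lit 0)) T0.l3
  TrL.n)))))))) (by decide +kernel)
theorem bx2_1 : BoxOK sI cl5 cl4 cl13 t0 t5 b2_1 :=
  box_mk (TrL.c (I.pos (nat_lit 0) (nat_lit 0)) T5.l5
  (TrL.c (I.pos (nat_lit 0) (nat_lit 0)) T0.l4
  (TrL.c (I.pos (nat_lit 0) (nat_lit 0)) T5.l6
  TrL.n))) (by decide +kernel)
theorem bx2_2 : BoxOK sI cl5 cl4 cl13 t0 t5 b2_2 :=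
  box_mk (TrL.c (I.pos (nat_lit 0) (nat_lit 0)) (xb (xa T0.l6 T0.l6) T0.l6)
  (TrL.c (I.pos (nat_lit 0) (nat_lit 0)) T5.l1
  (TrL.c (I.pos (nat_lit 0) (nat_lit 0)) T0.l1
  (TrL.c (I.pos (nat_lit 0) (nat_lit 0)) T5.l2
  (TrL.c (I.pos (nat_lit 0) (nat_lit 0)) T5.l8
  (TrL.c (I.pos (nat_lit 0) (nat_lit 0)) T0.l2
  (TrL.c (I.pos (nat_lit 0) (nat_lit 0)) T5.l4
  (TrL.c (I.pos (nat_lit 0) (nat_lit 0)) T0.l3
  TrL.n)))))))) (by decide +kernel)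
theorem bx2_3 : BoxOK sI cl5 cl4 cl13 t0 t5 b2_3 :=
  box_mk (TrL.c (I.pos (nat_lit 0) (nat_lit 0)) (xa (xb (xa (xb T0.l6 T0.l6) T0.l6) (xa T0.l6 T0.l6)) (xb T0.l6 T0.l6))
  (TrL.c (I.pos (nat_lit 0) (nat_lit 0)) T5.l1
  (TrL.c (I.pos (nat_lit 0) (nat_lit 0)) T0.l1
  (TrL.c (I.pos (nat_lit 0) (nat_lit 0)) T5.l2
  (TrL.c (I.pos (nat_lit 0) (nat_lit 0)) T5.l8
  (TrL.c (I.pos (nat_lit 0) (nat_lit 0)) T0.l2
  (TrL.c (I.pos (nat_lit 0) (nat_lit 0)) T5.l4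
  (TrL.c (I.pos (nat_lit 0) (nat_lit 0)) T0.l3
  TrL.n)))))))) (by decide +kernel)
theorem bx2_4 : BoxOK sI cl5 cl4 cl13 t0 t5 b2_4 :=
  box_mk (TrL.c (I.pos (nat_lit 0) (nat_lit 0)) (xb (xa (xb T0.l6 T0.l6) T0.l6) (xa (xb T0.l6 (xa T0.l6 T0.l6)) (xb T0.l6 T0.l6)))
  (TrL.c (I.pos (nat_lit 0) (nat_lit 0)) (xb T5.l1 T5.l1)
  (TrL.c (I.pos (nat_lit 0) (nat_lit 0)) T0.l1
  (TrL.c (I.pos (nat_lit 0) (nat_lit 0)) T5.l2
  (TrL.c (I.pos (nat_lit 0) (nat_lit 0)) (xb (xa T5.l8 (xb T5.l8 T5.l8)) (xa T5.l8 T5.l3))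
  (TrL.c (I.pos (nat_lit 0) (nat_lit 0)) T0.l2
  (TrL.c (I.pos (nat_lit 0) (nat_lit 0)) T5.l4
  (TrL.c (I.pos (nat_lit 0) (nat_lit 0)) T0.l3
  TrL.n)))))))) (by decide +kernel)
theorem bx2_5 : BoxOK sI cl5 cl4 cl13 t0 t5 b2_5 :=
  box_mk (TrL.c (I.pos (nat_lit 0) (nat_lit 0)) T5.l1
  (TrL.c (I.pos (nat_lit 0) (nat_lit 0)) T0.l1
  (TrL.c (I.pos (nat_lit 0) (nat_lit 0)) T5.l2
  TrL.n))) (by decide +kernel)
theorem bx2_6 : BoxOK sI cl5 cl4 cl13 t0 t5 b2_6 :=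
  box_mk (TrL.c (I.pos (nat_lit 0) (nat_lit 0)) (xa T0.l0 T0.l0)
  (TrL.c (I.pos (nat_lit 0) (nat_lit 0)) T5.l1
  (TrL.c (I.pos (nat_lit 0) (nat_lit 0)) T0.l1
  (TrL.c (I.pos (nat_lit 0) (nat_lit 0)) T5.l2
  (TrL.c (I.pos (nat_lit 0) (nat_lit 0)) (xa T5.l3 (xb T5.l3 T5.l3))
  (TrL.c (I.pos (nat_lit 0) (nat_lit 0)) T0.l2
  (TrL.c (I.pos (nat_lit 0) (nat_lit 0)) T5.l4
  (TrL.c (I.pos (nat_lit 0) (nat_lit 0)) T0.l3
  TrL.n)))))))) (by decide +kernel)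
theorem bx2_7 : BoxOK sI cl5 cl4 cl13 t0 t5 b2_7 :=
  box_mk (TrL.c (I.pos (nat_lit 0) (nat_lit 0)) (xb T0.l5 (xa T0.l5 T0.l5))
  (TrL.c (I.pos (nat_lit 0) (nat_lit 0)) T5.l1
  (TrL.c (I.pos (nat_lit 0) (nat_lit 0)) T0.l1
  (TrL.c (I.pos (nat_lit 0) (nat_lit 0)) T5.l2
  (TrL.c (I.pos (nat_lit 0) (nat_lit 0)) T5.l7
  (TrL.c (I.pos (nat_lit 0) (nat_lit 0)) T0.l2
  (TrL.c (I.pos (nat_lit 0) (nat_lit 0)) T5.l4
  (TrL.c (I.pos (nat_lit 0) (nat_lit 0)) T0.l3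
  TrL.n)))))))) (by decide +kernel)
theorem bx2_8 : BoxOK sI cl5 cl4 cl13 t0 t5 b2_8 :=
  box_mk (TrL.c (I.pos (nat_lit 0) (nat_lit 0)) T5.l5
  (TrL.c (I.pos (nat_lit 0) (nat_lit 0)) T0.l4
  (TrL.c (I.pos (nat_lit 0) (nat_lit 0)) T5.l6
  TrL.n))) (by decide +kernel)
theorem bx2_9 : BoxOK sI cl5 cl4 cl13 t0 t5 b2_9 :=
  box_mk (TrL.c (I.pos (nat_lit 0) (nat_lit 0)) (xb T0.l0 T0.l0)
  (TrL.c (I.pos (nat_lit 0) (nat_lit 0)) T5.l1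
  (TrL.c (I.pos (nat_lit 0) (nat_lit 0)) T0.l1
  (TrL.c (I.pos (nat_lit 0) (nat_lit 0)) T5.l2
  (TrL.c (I.pos (nat_lit 0) (nat_lit 0)) T5.l3
  (TrL.c (I.pos (nat_lit 0) (nat_lit 0)) T0.l2
  (TrL.c (I.pos (nat_lit 0) (nat_lit 0)) T5.l4
  (TrL.c (I.pos (nat_lit 0) (nat_lit 0)) T0.l3
  TrL.n)))))))) (by decide +kernel)
theorem bx2_10 : BoxOK sI cl5 cl4 cl13 t0 t5 b2_10 :=
  box_mk (TrL.c (I.pos (nat_lit 0) (nat_lit 0)) T0.l5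
  (TrL.c (I.pos (nat_lit 0) (nat_lit 0)) T5.l1
  (TrL.c (I.pos (nat_lit 0) (nat_lit 0)) T0.l1
  (TrL.c (I.pos (nat_lit 0) (nat_lit 0)) T5.l2
  (TrL.c (I.pos (nat_lit 0) (nat_lit 0)) T5.l7
  (TrL.c (I.pos (nat_lit 0) (nat_lit 0)) T0.l2
  (TrL.c (I.pos (nat_lit 0) (nat_lit 0)) T5.l4
  (TrL.c (I.pos (nat_lit 0) (nat_lit 0)) T0.l3
  TrL.n)))))))) (by decide +kernel)
theorem sv2 : StarV sI cl5 cl4 cl13 t0 t5 t2 :=
  (bt_n (bt_n (bt_n (bt_b bx2_0) (bt_b bx2_1)) (bt_n (bt_b bx2_2) (bt_n (bt_b bx2_3) (bt_b bx2_4)))) (bt_n (bt_n (bt_b bx2_5) (bt_n (bt_b bx2_6) (bt_b bx2_7))) (bt_n (bt_b bx2_8) (bt_n (bt_b bx2_9) (bt_b bx2_10)))))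
def S2 : StarD := StarD.mk cl5 cl4 cl13 0 5 t2
theorem bx3_0 : BoxOK sI cl5 cl13 cl4 t5 t0 b3_0 :=
  box_mk (TrL.c (I.pos (nat_lit 0) (nat_lit 0)) (xa (xa (xb T5.l0 (xs T5.l0 T5.l0)) (xb T5.l0 T5.l0)) (xa (xb T5.l0 T5.l0) (xb T5.l0 T5.l0)))
  (TrL.c (I.pos (nat_lit 0) (nat_lit 0)) (xa T0.l7 T0.l7)
  (TrL.c (I.pos (nat_lit 0) (nat_lit 0)) T5.l9
  (TrL.c (I.pos (nat_lit 0) (nat_lit 0)) T0.l8
  (TrL.c (I.pos (nat_lit 0) (nat_lit 0)) (xa T0.l9 (xb T0.l9 T0.l9))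
  (TrL.c (I.pos (nat_lit 0) (nat_lit 0)) T5.l10
  (TrL.c (I.pos (nat_lit 0) (nat_lit 0)) T0.l10
  (TrL.c (I.pos (nat_lit 0) (nat_lit 0)) T5.l11
  TrL.n)))))))) (by decide +kernel)
theorem bx3_1 : BoxOK sI cl5 cl13 cl4 t5 t0 b3_1 :=
  box_mk (TrL.c (I.pos (nat_lit 0) (nat_lit 0)) (xa (xb (xa T5.l12 T5.l12) (xa T5.l12 T5.l12)) (xb T5.l0 T5.l12))
  (TrL.c (I.pos (nat_lit 0) (nat_lit 0)) T0.l7
  (TrL.c (I.pos (nat_lit 0) (nat_lit 0)) T5.l9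
  (TrL.c (I.pos (nat_lit 0) (nat_lit 0)) T0.l8
  (TrL.c (I.pos (nat_lit 0) (nat_lit 0)) (xa T0.l11 T0.l11)
  (TrL.c (I.pos (nat_lit 0) (nat_lit 0)) T5.l10
  (TrL.c (I.pos (nat_lit 0) (nat_lit 0)) T0.l10
  (TrL.c (I.pos (nat_lit 0) (nat_lit 0)) T5.l11
  TrL.n)))))))) (by decide +kernel)
theorem bx3_2 : BoxOK sI cl5 cl13 cl4 t5 t0 b3_2 :=
  box_mk (TrL.c (I.pos (nat_lit 0) (nat_lit 0)) (xa (xa T5.l12 T5.l12) T5.l12)
  (TrL.c (I.pos (nat_lit 0) (nat_lit 0)) T0.l7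
  (TrL.c (I.pos (nat_lit 0) (nat_lit 0)) T5.l9
  (TrL.c (I.pos (nat_lit 0) (nat_lit 0)) T0.l8
  (TrL.c (I.pos (nat_lit 0) (nat_lit 0)) (xa T0.l11 T0.l11)
  (TrL.c (I.pos (nat_lit 0) (nat_lit 0)) T5.l10
  (TrL.c (I.pos (nat_lit 0) (nat_lit 0)) T0.l10
  (TrL.c (I.pos (nat_lit 0) (nat_lit 0)) T5.l11
  TrL.n)))))))) (by decide +kernel)
theorem bx3_3 : BoxOK sI cl5 cl13 cl4 t5 t0 b3_3 :=
  box_mk (TrL.c (I.pos (nat_lit 0) (nat_lit 0)) (xb (xa T5.l13 T5.l13) (xa (xb T5.l13 T5.l13) (xb T5.l13 T5.l13)))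
  (TrL.c (I.pos (nat_lit 0) (nat_lit 0)) T0.l7
  (TrL.c (I.pos (nat_lit 0) (nat_lit 0)) T5.l9
  (TrL.c (I.pos (nat_lit 0) (nat_lit 0)) T0.l8
  (TrL.c (I.pos (nat_lit 0) (nat_lit 0)) (xb T0.l12 T0.l12)
  (TrL.c (I.pos (nat_lit 0) (nat_lit 0)) T5.l10
  (TrL.c (I.pos (nat_lit 0) (nat_lit 0)) T0.l10
  (TrL.c (I.pos (nat_lit 0) (nat_lit 0)) T5.l11
  TrL.n)))))))) (by decide +kernel)
theorem bx3_4 : BoxOK sI cl5 cl13 cl4 t5 t0 b3_4 :=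
  box_mk (TrL.c (I.pos (nat_lit 0) (nat_lit 0)) (xa (xa (xb (xa T5.l12 T5.l12) (xa T5.l12 T5.l12)) (xb T5.l12 T5.l12)) (xa (xb T5.l12 (xa T5.l12 T5.l12)) (xb T5.l12 (xa T5.l12 T5.l12))))
  (TrL.c (I.pos (nat_lit 0) (nat_lit 0)) (xa T0.l7 T0.l7)
  (TrL.c (I.pos (nat_lit 0) (nat_lit 0)) T5.l9
  (TrL.c (I.pos (nat_lit 0) (nat_lit 0)) T0.l8
  (TrL.c (I.pos (nat_lit 0) (nat_lit 0)) (xa T0.l11 T0.l11)
  (TrL.c (I.pos (nat_lit 0) (nat_lit 0)) T5.l10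
  (TrL.c (I.pos (nat_lit 0) (nat_lit 0)) T0.l10
  (TrL.c (I.pos (nat_lit 0) (nat_lit 0)) T5.l11
  TrL.n)))))))) (by decide +kernel)
theorem bx3_5 : BoxOK sI cl5 cl13 cl4 t5 t0 b3_5 :=
  box_mk (TrL.c (I.pos (nat_lit 0) (nat_lit 0)) (xb (xa T5.l13 T5.l13) (xa T5.l13 T5.l13))
  (TrL.c (I.pos (nat_lit 0) (nat_lit 0)) T0.l7
  (TrL.c (I.pos (nat_lit 0) (nat_lit 0)) T5.l9
  (TrL.c (I.pos (nat_lit 0) (nat_lit 0)) T0.l8
  (TrL.c (I.pos (nat_lit 0) (nat_lit 0)) (xb T0.l12 T0.l12)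
  (TrL.c (I.pos (nat_lit 0) (nat_lit 0)) T5.l10
  (TrL.c (I.pos (nat_lit 0) (nat_lit 0)) T0.l10
  (TrL.c (I.pos (nat_lit 0) (nat_lit 0)) T5.l11
  TrL.n)))))))) (by decide +kernel)
theorem bx3_6 : BoxOK sI cl5 cl13 cl4 t5 t0 b3_6 :=
  box_mk (TrL.c (I.pos (nat_lit 0) (nat_lit 0)) (xa T5.l12 T5.l12)
  (TrL.c (I.pos (nat_lit 0) (nat_lit 0)) T0.l7
  (TrL.c (I.pos (nat_lit 0) (nat_lit 0)) T5.l9
  (TrL.c (I.pos (nat_lit 0) (nat_lit 0)) T0.l8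
  (TrL.c (I.pos (nat_lit 0) (nat_lit 0)) (xa T0.l11 T0.l11)
  (TrL.c (I.pos (nat_lit 0) (nat_lit 0)) T5.l10
  (TrL.c (I.pos (nat_lit 0) (nat_lit 0)) T0.l10
  (TrL.c (I.pos (nat_lit 0) (nat_lit 0)) T5.l11
  TrL.n)))))))) (by decide +kernel)
theorem bx3_7 : BoxOK sI cl5 cl13 cl4 t5 t0 b3_7 :=
  box_mk (TrL.c (I.pos (nat_lit 0) (nat_lit 0)) (xa T5.l12 T5.l0)
  (TrL.c (I.pos (nat_lit 0) (nat_lit 0)) T0.l7
  (TrL.c (I.pos (nat_lit 0) (nat_lit 0)) T5.l9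
  (TrL.c (I.pos (nat_lit 0) (nat_lit 0)) T0.l8
  (TrL.c (I.pos (nat_lit 0) (nat_lit 0)) T0.l11
  (TrL.c (I.pos (nat_lit 0) (nat_lit 0)) T5.l10
  (TrL.c (I.pos (nat_lit 0) (nat_lit 0)) T0.l10
  (TrL.c (I.pos (nat_lit 0) (nat_lit 0)) T5.l11
  TrL.n)))))))) (by decide +kernel)
theorem bx3_8 : BoxOK sI cl5 cl13 cl4 t5 t0 b3_8 :=
  box_mk (TrL.c (I.pos (nat_lit 0) (nat_lit 0)) T5.l13
  (TrL.c (I.pos (nat_lit 0) (nat_lit 0)) T0.l7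
  (TrL.c (I.pos (nat_lit 0) (nat_lit 0)) T5.l9
  (TrL.c (I.pos (nat_lit 0) (nat_lit 0)) T0.l8
  (TrL.c (I.pos (nat_lit 0) (nat_lit 0)) T0.l12
  (TrL.c (I.pos (nat_lit 0) (nat_lit 0)) T5.l10
  (TrL.c (I.pos (nat_lit 0) (nat_lit 0)) T0.l10
  (TrL.c (I.pos (nat_lit 0) (nat_lit 0)) T5.l11
  TrL.n)))))))) (by decide +kernel)
theorem bx3_9 : BoxOK sI cl5 cl13 cl4 t5 t0 b3_9 :=
  box_mk (TrL.c (I.pos (nat_lit 0) (nat_lit 0)) (xa (xa T5.l12 T5.l12) (xa T5.l12 (xa T5.l12 T5.l12)))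
  (TrL.c (I.pos (nat_lit 0) (nat_lit 0)) (xa T0.l7 T0.l7)
  (TrL.c (I.pos (nat_lit 0) (nat_lit 0)) T5.l9
  (TrL.c (I.pos (nat_lit 0) (nat_lit 0)) T0.l8
  (TrL.c (I.pos (nat_lit 0) (nat_lit 0)) (xa T0.l11 T0.l11)
  (TrL.c (I.pos (nat_lit 0) (nat_lit 0)) T5.l10
  (TrL.c (I.pos (nat_lit 0) (nat_lit 0)) T0.l10
  (TrL.c (I.pos (nat_lit 0) (nat_lit 0)) T5.l11
  TrL.n)))))))) (by decide +kernel)
theorem bx3_10 : BoxOK sI cl5 cl13 cl4 t5 t0 b3_10 :=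
  box_mk (TrL.c (I.pos (nat_lit 0) (nat_lit 0)) (xb (xa T5.l12 T5.l12) (xa T5.l12 T5.l12))
  (TrL.c (I.pos (nat_lit 0) (nat_lit 0)) T0.l7
  (TrL.c (I.pos (nat_lit 0) (nat_lit 0)) T5.l9
  (TrL.c (I.pos (nat_lit 0) (nat_lit 0)) T0.l8
  (TrL.c (I.pos (nat_lit 0) (nat_lit 0)) (xb T0.l11 T0.l11)
  (TrL.c (I.pos (nat_lit 0) (nat_lit 0)) T5.l10
  (TrL.c (I.pos (nat_lit 0) (nat_lit 0)) T0.l10
  (TrL.c (I.pos (nat_lit 0) (nat_lit 0)) T5.l11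
  TrL.n)))))))) (by decide +kernel)
theorem bx3_11 : BoxOK sI cl5 cl13 cl4 t5 t0 b3_11 :=
  box_mk (TrL.c (I.pos (nat_lit 0) (nat_lit 0)) T5.l12
  (TrL.c (I.pos (nat_lit 0) (nat_lit 0)) T0.l7
  (TrL.c (I.pos (nat_lit 0) (nat_lit 0)) T5.l9
  (TrL.c (I.pos (nat_lit 0) (nat_lit 0)) T0.l8
  (TrL.c (I.pos (nat_lit 0) (nat_lit 0)) T0.l11
  (TrL.c (I.pos (nat_lit 0) (nat_lit 0)) T5.l10
  (TrL.c (I.pos (nat_lit 0) (nat_lit 0)) T0.l10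
  (TrL.c (I.pos (nat_lit 0) (nat_lit 0)) T5.l11
  TrL.n)))))))) (by decide +kernel)
theorem bx3_12 : BoxOK sI cl5 cl13 cl4 t5 t0 b3_12 :=
  box_mk (TrL.c (I.pos (nat_lit 0) (nat_lit 0)) (xa T5.l0 T5.l0)
  (TrL.c (I.pos (nat_lit 0) (nat_lit 0)) T0.l7
  (TrL.c (I.pos (nat_lit 0) (nat_lit 0)) T5.l9
  (TrL.c (I.pos (nat_lit 0) (nat_lit 0)) T0.l8
  (TrL.c (I.pos (nat_lit 0) (nat_lit 0)) (xa T0.l9 T0.l9)
  (TrL.c (I.pos (nat_lit 0) (nat_lit 0)) T5.l10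
  (TrL.c (I.pos (nat_lit 0) (nat_lit 0)) T0.l10
  (TrL.c (I.pos (nat_lit 0) (nat_lit 0)) T5.l11
  TrL.n)))))))) (by decide +kernel)
theorem bx3_13 : BoxOK sI cl5 cl13 cl4 t5 t0 b3_13 :=
  box_mk (TrL.c (I.pos (nat_lit 0) (nat_lit 0)) T5.l12
  (TrL.c (I.pos (nat_lit 0) (nat_lit 0)) T0.l7
  (TrL.c (I.pos (nat_lit 0) (nat_lit 0)) T5.l9
  (TrL.c (I.pos (nat_lit 0) (nat_lit 0)) T0.l8
  (TrL.c (I.pos (nat_lit 0) (nat_lit 0)) T0.l11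
  (TrL.c (I.pos (nat_lit 0) (nat_lit 0)) T5.l10
  (TrL.c (I.pos (nat_lit 0) (nat_lit 0)) T0.l10
  (TrL.c (I.pos (nat_lit 0) (nat_lit 0)) T5.l11
  TrL.n)))))))) (by decide +kernel)
theorem bx3_14 : BoxOK sI cl5 cl13 cl4 t5 t0 b3_14 :=
  box_mk (TrL.c (I.pos (nat_lit 0) (nat_lit 0)) (xa T5.l0 T5.l0)
  (TrL.c (I.pos (nat_lit 0) (nat_lit 0)) T0.l7
  (TrL.c (I.pos (nat_lit 0) (nat_lit 0)) T5.l9
  (TrL.c (I.pos (nat_lit 0) (nat_lit 0)) T0.l8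
  (TrL.c (I.pos (nat_lit 0) (nat_lit 0)) (xa T0.l9 T0.l9)
  (TrL.c (I.pos (nat_lit 0) (nat_lit 0)) T5.l10
  (TrL.c (I.pos (nat_lit 0) (nat_lit 0)) T0.l10
  (TrL.c (I.pos (nat_lit 0) (nat_lit 0)) T5.l11
  TrL.n)))))))) (by decide +kernel)
theorem sv3 : StarV sI cl5 cl13 cl4 t5 t0 t3 :=
  (bt_n (bt_n (bt_n (bt_b bx3_0) (bt_n (bt_b bx3_1) (bt_b bx3_2))) (bt_n (bt_n (bt_b bx3_3) (bt_b bx3_4)) (bt_n (bt_b bx3_5) (bt_b bx3_6)))) (bt_n (bt_n (bt_n (bt_b bx3_7) (bt_b bx3_8)) (bt_n (bt_b bx3_9) (bt_b bx3_10))) (bt_n (bt_n (bt_b bx3_11) (bt_b bx3_12)) (bt_n (bt_b bx3_13) (bt_b bx3_14)))))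
def S3 : StarD := StarD.mk cl5 cl13 cl4 5 0 t3
theorem bx4_0 : BoxOK sI cl13 cl4 cl5 t1 t3 b4_0 :=
  box_mk (TrL.c (I.pos (nat_lit 0) (nat_lit 0)) (xa (xb T1.l4 (xa T1.l4 T1.l4)) (xb T1.l0 (xa T1.l0 T1.l0)))
  (TrL.c (I.pos (nat_lit 0) (nat_lit 0)) T3.l1
  (TrL.c (I.pos (nat_lit 0) (nat_lit 134217730)) (xR T1.l1 T1.l1)
  (TrL.c (I.pos (nat_lit 0) (nat_lit 110514882)) (xR T3.l2 T3.l2)
  (TrL.c (I.pos (nat_lit 0) (nat_lit 0)) (xa T3.l3 (xb T3.l3 (xk T3.l3 T3.l3)))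
  (TrL.c (I.pos (nat_lit 0) (nat_lit 0)) T1.l2
  (TrL.c (I.mix (nat_lit 8088324) (nat_lit 110514882)) (xR T3.l4 (xR T3.l4 T3.l4))
  (TrL.c (I.mix (nat_lit 8088324) (nat_lit 89478486)) (xR T1.l3 T1.l3)
  TrL.n)))))))) (by decide +kernel)
theorem bx4_1 : BoxOK sI cl13 cl4 cl5 t1 t3 b4_1 :=
  box_mk (TrL.c (I.pos (nat_lit 0) (nat_lit 0)) (xa (xb T1.l4 T1.l4) T1.l4)
  (TrL.c (I.pos (nat_lit 0) (nat_lit 0)) T3.l1
  (TrL.c (I.pos (nat_lit 0) (nat_lit 134217730)) (xR T1.l1 T1.l1)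
  (TrL.c (I.pos (nat_lit 0) (nat_lit 110514882)) (xR T3.l2 T3.l2)
  (TrL.c (I.pos (nat_lit 0) (nat_lit 0)) T3.l5
  (TrL.c (I.pos (nat_lit 0) (nat_lit 0)) T1.l2
  (TrL.c (I.mix (nat_lit 8088324) (nat_lit 110514882)) (xR T3.l4 T3.l4)
  (TrL.c (I.mix (nat_lit 8088324) (nat_lit 89478486)) T1.l9
  TrL.n)))))))) (by decide +kernel)
theorem bx4_2 : BoxOK sI cl13 cl4 cl5 t1 t3 b4_2 :=
  box_mk (TrL.c (I.pos (nat_lit 0) (nat_lit 0)) (xb (xa (xb T1.l4 T1.l4) T1.l4) (xa (xb (xa T1.l4 T1.l4) (xa T1.l4 T1.l4)) (xb T1.l4 T1.l4)))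
  (TrL.c (I.pos (nat_lit 0) (nat_lit 0)) T3.l1
  (TrL.c (I.pos (nat_lit 0) (nat_lit 134217730)) (xR T1.l1 (xR T1.l1 T1.l1))
  (TrL.c (I.pos (nat_lit 0) (nat_lit 110514882)) (xR T3.l2 T3.l2)
  (TrL.c (I.pos (nat_lit 0) (nat_lit 0)) (xb (xa T3.l5 T3.l5) (xa T3.l5 T3.l3))
  (TrL.c (I.pos (nat_lit 0) (nat_lit 0)) T1.l2
  (TrL.c (I.mix (nat_lit 8088324) (nat_lit 110514882)) (xR T3.l4 (xR T3.l4 T3.l4))
  (TrL.c (I.mix (nat_lit 8088324) (nat_lit 89478486)) (xR T1.l3 T1.l3)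
  TrL.n)))))))) (by decide +kernel)
theorem bx4_3 : BoxOK sI cl13 cl4 cl5 t1 t3 b4_3 :=
  box_mk (TrL.c (I.pos (nat_lit 0) (nat_lit 0)) T3.l1
  (TrL.c (I.pos (nat_lit 0) (nat_lit 0)) T1.l1
  (TrL.c (I.mix (nat_lit 8088324) (nat_lit 110514882)) (xR T3.l6 T3.l6)
  (TrL.c (I.mix (nat_lit 8088324) (nat_lit 89478486)) (xR T1.l5 T1.l1)
  TrL.n)))) (by decide +kernel)
theorem bx4_4 : BoxOK sI cl13 cl4 cl5 t1 t3 b4_4 :=
  box_mk (TrL.c (I.pos (nat_lit 0) (nat_lit 0)) T3.l7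
  (TrL.c (I.pos (nat_lit 0) (nat_lit 0)) T1.l6
  (TrL.c (I.mix (nat_lit 8088324) (nat_lit 110514882)) (xR T3.l6 T3.l6)
  (TrL.c (I.mix (nat_lit 8088324) (nat_lit 89478486)) T1.l1
  TrL.n)))) (by decide +kernel)
theorem bx4_5 : BoxOK sI cl13 cl4 cl5 t1 t3 b4_5 :=
  box_mk (TrL.c (I.pos (nat_lit 0) (nat_lit 0)) T1.l4
  (TrL.c (I.pos (nat_lit 0) (nat_lit 0)) T3.l1
  (TrL.c (I.pos (nat_lit 0) (nat_lit 134217730)) T1.l1
  (TrL.c (I.pos (nat_lit 0) (nat_lit 110514882)) T3.l4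
  (TrL.c (I.pos (nat_lit 0) (nat_lit 0)) T3.l5
  (TrL.c (I.pos (nat_lit 0) (nat_lit 0)) T1.l2
  (TrL.c (I.mix (nat_lit 8088324) (nat_lit 110514882)) T3.l4
  (TrL.c (I.mix (nat_lit 8088324) (nat_lit 89478486)) T1.l1
  TrL.n)))))))) (by decide +kernel)
theorem bx4_6 : BoxOK sI cl13 cl4 cl5 t1 t3 b4_6 :=
  box_mk (TrL.c (I.pos (nat_lit 0) (nat_lit 0)) T1.l4
  (TrL.c (I.pos (nat_lit 0) (nat_lit 0)) T3.l1
  (TrL.c (I.pos (nat_lit 0) (nat_lit 134217730)) T1.l1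
  (TrL.c (I.pos (nat_lit 0) (nat_lit 110514882)) T3.l4
  (TrL.c (I.pos (nat_lit 0) (nat_lit 0)) T3.l5
  (TrL.c (I.pos (nat_lit 0) (nat_lit 0)) T1.l2
  (TrL.c (I.mix (nat_lit 8088324) (nat_lit 110514882)) T3.l4
  (TrL.c (I.mix (nat_lit 8088324) (nat_lit 89478486)) T1.l3
  TrL.n)))))))) (by decide +kernel)
theorem bx4_7 : BoxOK sI cl13 cl4 cl5 t1 t3 b4_7 :=
  box_mk (TrL.c (I.pos (nat_lit 0) (nat_lit 0)) (xa T1.l0 T1.l0)
  (TrL.c (I.pos (nat_lit 0) (nat_lit 0)) T3.l1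
  (TrL.c (I.pos (nat_lit 0) (nat_lit 134217730)) (xR T1.l1 T1.l11)
  (TrL.c (I.pos (nat_lit 0) (nat_lit 110514882)) (xR T3.l2 T3.l2)
  (TrL.c (I.pos (nat_lit 0) (nat_lit 0)) (xa (xb (xk T3.l3 T3.l3) T3.l3) (xb (xk (xa T3.l3 T3.l3) (xa T3.l3 T3.l3)) (xk (xa T3.l3 T3.l3) (xa T3.l3 T3.l3))))
  (TrL.c (I.pos (nat_lit 0) (nat_lit 0)) (xa T1.l2 T1.l2)
  (TrL.c (I.mix (nat_lit 8088324) (nat_lit 110514882)) (xR T3.l4 (xR T3.l4 T3.l4))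
  (TrL.c (I.mix (nat_lit 8088324) (nat_lit 89478486)) (xR T1.l3 T1.l3)
  TrL.n)))))))) (by decide +kernel)
theorem bx4_8 : BoxOK sI cl13 cl4 cl5 t1 t3 b4_8 :=
  box_mk (TrL.c (I.pos (nat_lit 0) (nat_lit 0)) (xb T1.l7 T1.l7)
  (TrL.c (I.pos (nat_lit 0) (nat_lit 0)) T3.l7
  (TrL.c (I.pos (nat_lit 0) (nat_lit 134217730)) T1.l1
  (TrL.c (I.pos (nat_lit 0) (nat_lit 110514882)) T3.l4
  (TrL.c (I.pos (nat_lit 0) (nat_lit 0)) T3.l8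
  (TrL.c (I.pos (nat_lit 0) (nat_lit 0)) T1.l2
  (TrL.c (I.mix (nat_lit 8088324) (nat_lit 110514882)) T3.l4
  (TrL.c (I.mix (nat_lit 8088324) (nat_lit 89478486)) T1.l1
  TrL.n)))))))) (by decide +kernel)
theorem bx4_9 : BoxOK sI cl13 cl4 cl5 t1 t3 b4_9 :=
  box_mk (TrL.c (I.pos (nat_lit 0) (nat_lit 0)) (xa T1.l4 T1.l0)
  (TrL.c (I.pos (nat_lit 0) (nat_lit 0)) T3.l1
  (TrL.c (I.pos (nat_lit 0) (nat_lit 134217730)) (xR T1.l1 T1.l1)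
  (TrL.c (I.pos (nat_lit 0) (nat_lit 110514882)) (xR T3.l2 T3.l2)
  (TrL.c (I.pos (nat_lit 0) (nat_lit 0)) (xk T3.l3 T3.l3)
  (TrL.c (I.pos (nat_lit 0) (nat_lit 0)) T1.l2
  (TrL.c (I.mix (nat_lit 8088324) (nat_lit 110514882)) T3.l4
  (TrL.c (I.mix (nat_lit 8088324) (nat_lit 89478486)) T1.l3
  TrL.n)))))))) (by decide +kernel)
theorem bx4_10 : BoxOK sI cl13 cl4 cl5 t1 t3 b4_10 :=
  box_mk (TrL.c (I.pos (nat_lit 0) (nat_lit 0)) T1.l7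
  (TrL.c (I.pos (nat_lit 0) (nat_lit 0)) T3.l1
  (TrL.c (I.pos (nat_lit 0) (nat_lit 134217730)) T1.l1
  (TrL.c (I.pos (nat_lit 0) (nat_lit 110514882)) T3.l2
  (TrL.c (I.pos (nat_lit 0) (nat_lit 0)) T3.l5
  (TrL.c (I.pos (nat_lit 0) (nat_lit 0)) T1.l2
  (TrL.c (I.mix (nat_lit 8088324) (nat_lit 110514882)) T3.l4
  (TrL.c (I.mix (nat_lit 8088324) (nat_lit 89478486)) T1.l1
  TrL.n)))))))) (by decide +kernel)
theorem sv4 : StarV sI cl13 cl4 cl5 t1 t3 t4 :=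
  (bt_n (bt_n (bt_n (bt_b bx4_0) (bt_b bx4_1)) (bt_n (bt_b bx4_2) (bt_n (bt_b bx4_3) (bt_b bx4_4)))) (bt_n (bt_n (bt_b bx4_5) (bt_n (bt_b bx4_6) (bt_b bx4_7))) (bt_n (bt_b bx4_8) (bt_n (bt_b bx4_9) (bt_b bx4_10)))))
def S4 : StarD := StarD.mk cl13 cl4 cl5 1 3 t4
theorem bx5_0 : BoxOK sI cl13 cl5 cl4 t3 t1 b5_0 :=
  box_mk (TrL.c (I.pos (nat_lit 0) (nat_lit 0)) (xa (xb T3.l0 (xa (xb T3.l0 T3.l0) T3.l0)) (xb T3.l0 (xa T3.l0 T3.l0)))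
  (TrL.c (I.pos (nat_lit 0) (nat_lit 0)) T1.l8
  (TrL.c (I.pos (nat_lit 0) (nat_lit 134217730)) (xR T3.l9 T3.l9)
  (TrL.c (I.pos (nat_lit 0) (nat_lit 110514882)) (xR T1.l9 T1.l9)
  (TrL.c (I.pos (nat_lit 0) (nat_lit 0)) (xa T1.l10 (xk T1.l10 T1.l10))
  (TrL.c (I.pos (nat_lit 0) (nat_lit 0)) T3.l10
  (TrL.c (I.mix (nat_lit 8088324) (nat_lit 110514882)) (xR T1.l11 T1.l11)
  (TrL.c (I.mix (nat_lit 8088324) (nat_lit 89478486)) (xR T3.l2 T3.l11)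
  TrL.n)))))))) (by decide +kernel)
theorem bx5_1 : BoxOK sI cl13 cl5 cl4 t3 t1 b5_1 :=
  box_mk (TrL.c (I.pos (nat_lit 0) (nat_lit 0)) (xa (xb T3.l12 T3.l12) T3.l0)
  (TrL.c (I.pos (nat_lit 0) (nat_lit 0)) T1.l8
  (TrL.c (I.pos (nat_lit 0) (nat_lit 134217730)) (xR T3.l9 T3.l9)
  (TrL.c (I.pos (nat_lit 0) (nat_lit 110514882)) (xR T1.l9 T1.l9)
  (TrL.c (I.pos (nat_lit 0) (nat_lit 0)) (xb T1.l12 T1.l12)
  (TrL.c (I.pos (nat_lit 0) (nat_lit 0)) T3.l10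
  (TrL.c (I.mix (nat_lit 8088324) (nat_lit 110514882)) T1.l11
  (TrL.c (I.mix (nat_lit 8088324) (nat_lit 89478486)) T3.l2
  TrL.n)))))))) (by decide +kernel)
theorem bx5_2 : BoxOK sI cl13 cl5 cl4 t3 t1 b5_2 :=
  box_mk (TrL.c (I.pos (nat_lit 0) (nat_lit 0)) T1.l8
  (TrL.c (I.pos (nat_lit 0) (nat_lit 0)) T3.l9
  (TrL.c (I.mix (nat_lit 8088324) (nat_lit 110514882)) T1.l9
  (TrL.c (I.mix (nat_lit 8088324) (nat_lit 89478486)) T3.l4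
  TrL.n)))) (by decide +kernel)
theorem bx5_3 : BoxOK sI cl13 cl5 cl4 t3 t1 b5_3 :=
  box_mk (TrL.c (I.pos (nat_lit 0) (nat_lit 0)) (xa (xb T3.l14 (xs T3.l14 T3.l14)) (xb T3.l14 T3.l14))
  (TrL.c (I.pos (nat_lit 0) (nat_lit 0)) T1.l8
  (TrL.c (I.pos (nat_lit 0) (nat_lit 134217730)) (xR T3.l9 T3.l9)
  (TrL.c (I.pos (nat_lit 0) (nat_lit 110514882)) (xR T1.l9 T1.l9)
  (TrL.c (I.pos (nat_lit 0) (nat_lit 0)) T1.l10
  (TrL.c (I.pos (nat_lit 0) (nat_lit 0)) T3.l10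
  (TrL.c (I.mix (nat_lit 8088324) (nat_lit 110514882)) (xR T1.l11 T1.l11)
  (TrL.c (I.mix (nat_lit 8088324) (nat_lit 89478486)) T3.l2
  TrL.n)))))))) (by decide +kernel)
theorem bx5_4 : BoxOK sI cl13 cl5 cl4 t3 t1 b5_4 :=
  box_mk (TrL.c (I.pos (nat_lit 0) (nat_lit 0)) T3.l12
  (TrL.c (I.pos (nat_lit 0) (nat_lit 0)) T1.l8
  (TrL.c (I.pos (nat_lit 0) (nat_lit 134217730)) T3.l9
  (TrL.c (I.pos (nat_lit 0) (nat_lit 110514882)) T1.l9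
  (TrL.c (I.pos (nat_lit 0) (nat_lit 0)) T1.l12
  (TrL.c (I.pos (nat_lit 0) (nat_lit 0)) T3.l10
  (TrL.c (I.mix (nat_lit 8088324) (nat_lit 110514882)) T1.l11
  (TrL.c (I.mix (nat_lit 8088324) (nat_lit 89478486)) T3.l2
  TrL.n)))))))) (by decide +kernel)
theorem bx5_5 : BoxOK sI cl13 cl5 cl4 t3 t1 b5_5 :=
  box_mk (TrL.c (I.pos (nat_lit 0) (nat_lit 0)) T3.l12
  (TrL.c (I.pos (nat_lit 0) (nat_lit 0)) T1.l8
  (TrL.c (I.pos (nat_lit 0) (nat_lit 134217730)) (xR T3.l9 T3.l9)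
  (TrL.c (I.pos (nat_lit 0) (nat_lit 110514882)) (xR T1.l9 T1.l9)
  (TrL.c (I.pos (nat_lit 0) (nat_lit 0)) T1.l12
  (TrL.c (I.pos (nat_lit 0) (nat_lit 0)) T3.l10
  (TrL.c (I.mix (nat_lit 8088324) (nat_lit 110514882)) T1.l11
  (TrL.c (I.mix (nat_lit 8088324) (nat_lit 89478486)) T3.l2
  TrL.n)))))))) (by decide +kernel)
theorem bx5_6 : BoxOK sI cl13 cl5 cl4 t3 t1 b5_6 :=
  box_mk (TrL.c (I.pos (nat_lit 0) (nat_lit 0)) T1.l13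
  (TrL.c (I.pos (nat_lit 0) (nat_lit 0)) T3.l13
  (TrL.c (I.mix (nat_lit 8088324) (nat_lit 110514882)) T1.l9
  (TrL.c (I.mix (nat_lit 8088324) (nat_lit 89478486)) T3.l2
  TrL.n)))) (by decide +kernel)
theorem bx5_7 : BoxOK sI cl13 cl5 cl4 t3 t1 b5_7 :=
  box_mk (TrL.c (I.pos (nat_lit 0) (nat_lit 0)) T3.l14
  (TrL.c (I.pos (nat_lit 0) (nat_lit 0)) T1.l8
  (TrL.c (I.pos (nat_lit 0) (nat_lit 134217730)) (xR T3.l9 T3.l9)
  (TrL.c (I.pos (nat_lit 0) (nat_lit 110514882)) (xR T1.l9 T1.l9)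
  (TrL.c (I.pos (nat_lit 0) (nat_lit 0)) T1.l15
  (TrL.c (I.pos (nat_lit 0) (nat_lit 0)) T3.l10
  (TrL.c (I.mix (nat_lit 8088324) (nat_lit 110514882)) T1.l11
  (TrL.c (I.mix (nat_lit 8088324) (nat_lit 89478486)) T3.l2
  TrL.n)))))))) (by decide +kernel)
theorem bx5_8 : BoxOK sI cl13 cl5 cl4 t3 t1 b5_8 :=
  box_mk (TrL.c (I.pos (nat_lit 0) (nat_lit 0)) (xb T3.l14 T3.l0)
  (TrL.c (I.pos (nat_lit 0) (nat_lit 0)) T1.l8
  (TrL.c (I.pos (nat_lit 0) (nat_lit 134217730)) (xR T3.l9 T3.l9)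
  (TrL.c (I.pos (nat_lit 0) (nat_lit 110514882)) (xR T1.l9 T1.l9)
  (TrL.c (I.pos (nat_lit 0) (nat_lit 0)) (xb T1.l15 T1.l15)
  (TrL.c (I.pos (nat_lit 0) (nat_lit 0)) T3.l10
  (TrL.c (I.mix (nat_lit 8088324) (nat_lit 110514882)) (xR T1.l11 T1.l11)
  (TrL.c (I.mix (nat_lit 8088324) (nat_lit 89478486)) T3.l2
  TrL.n)))))))) (by decide +kernel)
theorem bx5_9 : BoxOK sI cl13 cl5 cl4 t3 t1 b5_9 :=
  box_mk (TrL.c (I.pos (nat_lit 0) (nat_lit 0)) (xa (xb T3.l12 T3.l12) T3.l12)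
  (TrL.c (I.pos (nat_lit 0) (nat_lit 0)) T1.l8
  (TrL.c (I.pos (nat_lit 0) (nat_lit 134217730)) T3.l9
  (TrL.c (I.pos (nat_lit 0) (nat_lit 110514882)) T1.l9
  (TrL.c (I.pos (nat_lit 0) (nat_lit 0)) T1.l12
  (TrL.c (I.pos (nat_lit 0) (nat_lit 0)) T3.l10
  (TrL.c (I.mix (nat_lit 8088324) (nat_lit 110514882)) T1.l11
  (TrL.c (I.mix (nat_lit 8088324) (nat_lit 89478486)) T3.l2
  TrL.n)))))))) (by decide +kernel)
theorem bx5_10 : BoxOK sI cl13 cl5 cl4 t3 t1 b5_10 :=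
  box_mk (TrL.c (I.pos (nat_lit 0) (nat_lit 0)) (xb T3.l12 T3.l12)
  (TrL.c (I.pos (nat_lit 0) (nat_lit 0)) T1.l8
  (TrL.c (I.pos (nat_lit 0) (nat_lit 134217730)) T3.l9
  (TrL.c (I.pos (nat_lit 0) (nat_lit 110514882)) T1.l9
  (TrL.c (I.pos (nat_lit 0) (nat_lit 0)) T1.l12
  (TrL.c (I.pos (nat_lit 0) (nat_lit 0)) T3.l10
  (TrL.c (I.mix (nat_lit 8088324) (nat_lit 110514882)) T1.l11
  (TrL.c (I.mix (nat_lit 8088324) (nat_lit 89478486)) T3.l2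
  TrL.n)))))))) (by decide +kernel)
theorem bx5_11 : BoxOK sI cl13 cl5 cl4 t3 t1 b5_11 :=
  box_mk (TrL.c (I.pos (nat_lit 0) (nat_lit 0)) T1.l8
  (TrL.c (I.pos (nat_lit 0) (nat_lit 0)) T3.l9
  (TrL.c (I.mix (nat_lit 8088324) (nat_lit 110514882)) (xR T1.l14 T1.l9)
  (TrL.c (I.mix (nat_lit 8088324) (nat_lit 89478486)) T3.l4
  TrL.n)))) (by decide +kernel)
theorem bx5_12 : BoxOK sI cl13 cl5 cl4 t3 t1 b5_12 :=
  box_mk (TrL.c (I.pos (nat_lit 0) (nat_lit 0)) (xa (xb T3.l0 T3.l0) (xa T3.l0 T3.l0))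
  (TrL.c (I.pos (nat_lit 0) (nat_lit 0)) T1.l8
  (TrL.c (I.pos (nat_lit 0) (nat_lit 134217730)) (xR T3.l9 T3.l4)
  (TrL.c (I.pos (nat_lit 0) (nat_lit 110514882)) (xR T1.l9 T1.l9)
  (TrL.c (I.pos (nat_lit 0) (nat_lit 0)) (xa T1.l10 (xk (xb T1.l10 (xa T1.l10 T1.l10)) (xb T1.l10 (xa T1.l10 T1.l10))))
  (TrL.c (I.pos (nat_lit 0) (nat_lit 0)) T3.l10
  (TrL.c (I.mix (nat_lit 8088324) (nat_lit 110514882)) (xR T1.l11 (xR T1.l11 T1.l11))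
  (TrL.c (I.mix (nat_lit 8088324) (nat_lit 89478486)) (xR T3.l2 T3.l11)
  TrL.n)))))))) (by decide +kernel)
theorem bx5_13 : BoxOK sI cl13 cl5 cl4 t3 t1 b5_13 :=
  box_mk (TrL.c (I.pos (nat_lit 0) (nat_lit 0)) (xa (xb T3.l0 T3.l0) (xb T3.l0 T3.l0))
  (TrL.c (I.pos (nat_lit 0) (nat_lit 0)) T1.l8
  (TrL.c (I.pos (nat_lit 0) (nat_lit 134217730)) (xR T3.l9 T3.l9)
  (TrL.c (I.pos (nat_lit 0) (nat_lit 110514882)) (xR T1.l9 T1.l9)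
  (TrL.c (I.pos (nat_lit 0) (nat_lit 0)) (xk T1.l10 T1.l10)
  (TrL.c (I.pos (nat_lit 0) (nat_lit 0)) T3.l10
  (TrL.c (I.mix (nat_lit 8088324) (nat_lit 110514882)) (xR T1.l11 T1.l11)
  (TrL.c (I.mix (nat_lit 8088324) (nat_lit 89478486)) (xR T3.l2 T3.l11)
  TrL.n)))))))) (by decide +kernel)
theorem sv5 : StarV sI cl13 cl5 cl4 t3 t1 t5 :=
  (bt_n (bt_n (bt_n (bt_b bx5_0) (bt_n (bt_b bx5_1) (bt_b bx5_2))) (bt_n (bt_n (bt_b bx5_3) (bt_b bx5_4)) (bt_n (bt_b bx5_5) (bt_b bx5_6)))) (bt_n (bt_n (bt_b bx5_7) (bt_n (bt_b bx5_8) (bt_b bx5_9))) (bt_n (bt_n (bt_b bx5_10) (bt_b bx5_11)) (bt_n (bt_b bx5_12) (bt_b bx5_13)))))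
def S5 : StarD := StarD.mk cl13 cl5 cl4 3 1 t5
def G : List StarD := [S0, S1, S2, S3, S4, S5]
theorem so0 : StarOK sI G S0 :=
  star_mk (by decide) (by decide) rfl rfl rfl rfl rfl rfl (rfl : _ = t2) (rfl : _ = t4)
  (st_mk (Pth.l (Pth.l (Pth.l Pth.z))) (nat_lit 248535080) (nat_lit 250915006) (by decide +kernel))
  (st_mk (Pth.l (Pth.l (Pth.l Pth.z))) (nat_lit 286818174) (nat_lit 290039328) (by decide +kernel))
  (st_mk (Pth.l (Pth.l (Pth.l Pth.z))) (nat_lit 331666803) (nat_lit 336060348) (by decide +kernel)) sv0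
theorem so1 : StarOK sI G S1 :=
  star_mk (by decide) (by decide) rfl rfl rfl rfl rfl rfl (rfl : _ = t4) (rfl : _ = t2)
  (st_mk (Pth.l (Pth.l (Pth.l (Pth.l Pth.z)))) (nat_lit 98508575) (nat_lit 118072028) (by decide +kernel))
  (st_mk (Pth.l (Pth.l (Pth.l (Pth.l Pth.z)))) (nat_lit 135792552) (nat_lit 156145925) (by decide +kernel))
  (st_mk (Pth.l (Pth.l (Pth.l (Pth.l Pth.z)))) (nat_lit 179851836) (nat_lit 201333970) (by decide +kernel)) sv1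
theorem so2 : StarOK sI G S2 :=
  star_mk (by decide) (by decide) rfl rfl rfl rfl rfl rfl (rfl : _ = t0) (rfl : _ = t5)
  (st_mk (Pth.l (Pth.l (Pth.l Pth.z))) (nat_lit 377493870) (nat_lit 380330127) (by decide +kernel))
  (st_mk (Pth.l (Pth.l (Pth.l Pth.z))) (nat_lit 414981652) (nat_lit 418436239) (by decide +kernel))
  (st_mk (Pth.l (Pth.l (Pth.l Pth.z))) (nat_lit 458567883) (nat_lit 462826487) (by decide +kernel)) sv2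
theorem so3 : StarOK sI G S3 :=
  star_mk (by decide) (by decide) rfl rfl rfl rfl rfl rfl (rfl : _ = t5) (rfl : _ = t0)
  (st_mk (Pth.l (Pth.l (Pth.l Pth.z))) (nat_lit 97649425) (nat_lit 116715665) (by decide +kernel))
  (st_mk (Pth.l (Pth.l (Pth.l Pth.z))) (nat_lit 134143542) (nat_lit 153725208) (by decide +kernel))
  (st_mk (Pth.l (Pth.l (Pth.l Pth.z))) (nat_lit 176917143) (nat_lit 197217090) (by decide +kernel)) sv3
theorem so4 : StarOK sI G S4 :=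
  star_mk (by decide) (by decide) rfl rfl rfl rfl rfl rfl (rfl : _ = t1) (rfl : _ = t3)
  (st_mk (Pth.l (Pth.l (Pth.l Pth.z))) (nat_lit 364798899) (nat_lit 367873786) (by decide +kernel))
  (st_mk (Pth.l (Pth.l (Pth.l Pth.z))) (nat_lit 399695508) (nat_lit 403281330) (by decide +kernel))
  (st_mk (Pth.l (Pth.l (Pth.l Pth.z))) (nat_lit 439960827) (nat_lit 444195516) (by decide +kernel)) sv4
theorem so5 : StarOK sI G S5 :=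
  star_mk (by decide) (by decide) rfl rfl rfl rfl rfl rfl (rfl : _ = t3) (rfl : _ = t1)
  (st_mk (Pth.l (Pth.l (Pth.l Pth.z))) (nat_lit 238062708) (nat_lit 240019232) (by decide +kernel))
  (st_mk (Pth.l (Pth.l (Pth.l Pth.z))) (nat_lit 272959317) (nat_lit 275363664) (by decide +kernel))
  (st_mk (Pth.l (Pth.l (Pth.l Pth.z))) (nat_lit 313224636) (nat_lit 316223312) (by decide +kernel)) sv5
theorem ok : GroupOK (nat_lit 91226112) (nat_lit 150339584) G := grp_mk (allS_c so0 (allS_c so1 (allS_c so2 (allS_c so3 (allS_c so4 (allS_c so5 allS_n))))))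
theorem cov : GCov G cl4 cl5 cl13 := cov_mk
  ⟨0, by decide, rfl, rfl, rfl⟩ ⟨1, by decide, rfl, rfl, rfl⟩ ⟨2, by decide, rfl, rfl, rfl⟩ ⟨3, by decide, rfl, rfl, rfl⟩ ⟨4, by decide, rfl, rfl, rfl⟩ ⟨5, by decide, rfl, rfl, rfl⟩
end Q126_1

namespace Q126_2
def sI : I := I.pos (nat_lit 150274048) (nat_lit 209387520)
def b0_0 : Bx := Bx.mk (St.mk (I.pos (nat_lit 156958720) (nat_lit 228556800)) (I.mix (nat_lit 4341760) (nat_lit 77955072)) (I.mix (nat_lit 20692992) (nat_lit 52264960)) (I.pos (nat_lit 243335168) (nat_lit 363544576)) (I.mix (nat_lit 117342208) (nat_lit 89686016)) (I.mix (nat_lit 72482816) (nat_lit 77086720)) (I.mix (nat_lit 127221760) (nat_lit 117342208)))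
  false (nat_lit 104069792)
def b0_1 : Bx := Bx.mk (St.mk (I.pos (nat_lit 28360704) (nat_lit 66142208)) (I.mix (nat_lit 9715712) (nat_lit 45121536)) (I.neg (nat_lit 17219584) (nat_lit 48218112)) (I.pos (nat_lit 141344768) (nat_lit 161447936)) (I.mix (nat_lit 52477952) (nat_lit 83230720)) (I.mix (nat_lit 66355200) (nat_lit 47824896)) (I.mix (nat_lit 35061760) (nat_lit 25477120)))
  false (nat_lit 0)
def b0_2 : Bx := Bx.mk (St.mk (I.pos (nat_lit 51101696) (nat_lit 91193344)) (I.mix (nat_lit 57245696) (nat_lit 11665408)) (I.neg (nat_lit 33030144) (nat_lit 77955072)) (I.pos (nat_lit 144228352) (nat_lit 174669824)) (I.mix (nat_lit 112476160) (nat_lit 49299456)) (I.mix (nat_lit 51331072) (nat_lit 92635136)) (I.mix (nat_lit 31457280) (nat_lit 62521344)))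
  false (nat_lit 0)
def b0_3 : Bx := Bx.mk (St.mk (I.neg (nat_lit 28360704) (nat_lit 66142208)) (I.mix (nat_lit 45121536) (nat_lit 10436608)) (I.neg (nat_lit 17219584) (nat_lit 48201728)) (I.pos (nat_lit 141344768) (nat_lit 161447936)) (I.mix (nat_lit 83230720) (nat_lit 52543488)) (I.mix (nat_lit 47824896) (nat_lit 66355200)) (I.mix (nat_lit 35061760) (nat_lit 25477120)))
  true (nat_lit 0)
def b0_4 : Bx := Bx.mk (St.mk (I.pos (nat_lit 44105728) (nat_lit 64667648)) (I.mix (nat_lit 11337728) (nat_lit 12713984)) (I.neg (nat_lit 31326208) (nat_lit 48709632)) (I.pos (nat_lit 143491072) (nat_lit 158187520)) (I.mix (nat_lit 44318720) (nat_lit 32849920)) (I.mix (nat_lit 34291712) (nat_lit 30031872)) (I.mix (nat_lit 15532032) (nat_lit 22134784)))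
  false (nat_lit 0)
def b0_5 : Bx := Bx.mk (St.mk (I.pos (nat_lit 210305024) (nat_lit 257277952)) (I.mix (nat_lit 19120128) (nat_lit 18677760)) (I.neg (nat_lit 64651264) (nat_lit 135299072)) (I.pos (nat_lit 320700416) (nat_lit 402538496)) (I.mix (nat_lit 120291328) (nat_lit 44630016)) (I.mix (nat_lit 77185024) (nat_lit 78708736)) (I.mix (nat_lit 106201088) (nat_lit 160153600)))
  false (nat_lit 50423909)
def b0_6 : Bx := Bx.mk (St.mk (I.pos (nat_lit 185712640) (nat_lit 250167296)) (I.mix (nat_lit 17350656) (nat_lit 75907072)) (I.mix (nat_lit 128598016) (nat_lit 40730624)) (I.pos (nat_lit 301039616) (nat_lit 388022272)) (I.mix (nat_lit 129089536) (nat_lit 126337024)) (I.mix (nat_lit 116736000) (nat_lit 107413504)) (I.mix (nat_lit 204570624) (nat_lit 173932544)))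
  false (nat_lit 114471417)
def b0_7 : Bx := Bx.mk (St.mk (I.pos (nat_lit 57491456) (nat_lit 145833984)) (I.neg (nat_lit 6488064) (nat_lit 59113472)) (I.neg (nat_lit 30441472) (nat_lit 80216064)) (I.pos (nat_lit 151945216) (nat_lit 224509952)) (I.mix (nat_lit 97746944) (nat_lit 56098816)) (I.mix (nat_lit 47366144) (nat_lit 83902464)) (I.mix (nat_lit 37060608) (nat_lit 74596352)))
  false (nat_lit 0)
def b0_8 : Bx := Bx.mk (St.mk (I.mix (nat_lit 48611328) (nat_lit 7045120)) (I.mix (nat_lit 41484288) (nat_lit 9027584)) (I.neg (nat_lit 19054592) (nat_lit 29310976)) (I.pos (nat_lit 139116544) (nat_lit 155009024)) (I.mix (nat_lit 56279040) (nat_lit 47693824)) (I.mix (nat_lit 34406400) (nat_lit 53657600)) (I.mix (nat_lit 12288000) (nat_lit 12681216)))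
  true (nat_lit 0)
def b0_9 : Bx := Bx.mk (St.mk (I.pos (nat_lit 153911296) (nat_lit 206438400)) (I.pos (nat_lit 573440) (nat_lit 65257472)) (I.mix (nat_lit 26836992) (nat_lit 46088192)) (I.pos (nat_lit 248938496) (nat_lit 319569920)) (I.mix (nat_lit 126451712) (nat_lit 59637760)) (I.mix (nat_lit 117342208) (nat_lit 81936384)) (I.mix (nat_lit 104792064) (nat_lit 83476480)))
  false (nat_lit 80728101)
def b0_10 : Bx := Bx.mk (St.mk (I.mix (nat_lit 7045120) (nat_lit 48611328)) (I.mix (nat_lit 9027584) (nat_lit 41484288)) (I.neg (nat_lit 19054592) (nat_lit 29310976)) (I.pos (nat_lit 139116544) (nat_lit 155009024)) (I.mix (nat_lit 47693824) (nat_lit 56279040)) (I.mix (nat_lit 53657600) (nat_lit 34406400)) (I.mix (nat_lit 12288000) (nat_lit 12681216)))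
  false (nat_lit 0)
def b0_11 : Bx := Bx.mk (St.mk (I.pos (nat_lit 119848960) (nat_lit 193527808)) (I.mix (nat_lit 36421632) (nat_lit 21184512)) (I.neg (nat_lit 6537216) (nat_lit 67059712)) (I.pos (nat_lit 196591616) (nat_lit 286097408)) (I.mix (nat_lit 75071488) (nat_lit 79200256)) (I.mix (nat_lit 74448896) (nat_lit 70795264)) (I.mix (nat_lit 75104256) (nat_lit 61865984)))
  false (nat_lit 8810210)
def b0_12 : Bx := Bx.mk (St.mk (I.pos (nat_lit 153632768) (nat_lit 201342976)) (I.mix (nat_lit 8323072) (nat_lit 43220992)) (I.mix (nat_lit 42500096) (nat_lit 22347776)) (I.pos (nat_lit 251609088) (nat_lit 297435136)) (I.mix (nat_lit 126402560) (nat_lit 111509504)) (I.mix (nat_lit 147652608) (nat_lit 96927744)) (I.mix (nat_lit 149585920) (nat_lit 81592320)))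
  false (nat_lit 64083868)
def t0 : BTr := (BTr.n (BTr.n (BTr.n (BTr.b b0_0) (BTr.n (BTr.b b0_1) (BTr.b b0_2))) (BTr.n (BTr.b b0_3) (BTr.n (BTr.b b0_4) (BTr.b b0_5)))) (BTr.n (BTr.n (BTr.b b0_6) (BTr.n (BTr.b b0_7) (BTr.b b0_8))) (BTr.n (BTr.n (BTr.b b0_9) (BTr.b b0_10)) (BTr.n (BTr.b b0_11) (BTr.b b0_12)))))
namespace T0
def l0 : Tr := Tr.L (Pth.l (Pth.l (Pth.l Pth.z)))
def l1 : Tr := Tr.L (Pth.l (Pth.l (Pth.r (Pth.l Pth.z))))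
def l2 : Tr := Tr.L (Pth.l (Pth.l (Pth.r (Pth.r Pth.z))))
def l3 : Tr := Tr.L (Pth.l (Pth.r (Pth.l Pth.z)))
def l4 : Tr := Tr.L (Pth.l (Pth.r (Pth.r (Pth.l Pth.z))))
def l5 : Tr := Tr.L (Pth.l (Pth.r (Pth.r (Pth.r Pth.z))))
def l6 : Tr := Tr.L (Pth.r (Pth.l (Pth.l Pth.z)))
def l7 : Tr := Tr.L (Pth.r (Pth.l (Pth.r (Pth.l Pth.z))))
def l8 : Tr := Tr.L (Pth.r (Pth.l (Pth.r (Pth.r Pth.z))))
def l9 : Tr := Tr.L (Pth.r (Pth.r (Pth.l (Pth.l Pth.z))))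
def l10 : Tr := Tr.L (Pth.r (Pth.r (Pth.l (Pth.r Pth.z))))
def l11 : Tr := Tr.L (Pth.r (Pth.r (Pth.r (Pth.l Pth.z))))
def l12 : Tr := Tr.L (Pth.r (Pth.r (Pth.r (Pth.r Pth.z))))
end T0
def b1_0 : Bx := Bx.mk (St.mk (I.pos (nat_lit 156483584) (nat_lit 236699648)) (I.mix (nat_lit 2719744) (nat_lit 50921472)) (I.mix (nat_lit 4112384) (nat_lit 78872576)) (I.pos (nat_lit 91734016) (nat_lit 233177088)) (I.mix (nat_lit 114966528) (nat_lit 83656704)) (I.mix (nat_lit 86245376) (nat_lit 79265792)) (I.mix (nat_lit 133447680) (nat_lit 113328128)))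
  false (nat_lit 76930938)
def b1_1 : Bx := Bx.mk (St.mk (I.mix (nat_lit 11960320) (nat_lit 141426688)) (I.mix (nat_lit 5668864) (nat_lit 21889024)) (I.mix (nat_lit 12337152) (nat_lit 14860288)) (I.mix (nat_lit 5586944) (nat_lit 88948736)) (I.mix (nat_lit 33947648) (nat_lit 39665664)) (I.mix (nat_lit 35700736) (nat_lit 27721728)) (I.mix (nat_lit 31473664) (nat_lit 23117824)))
  false (nat_lit 13143889)
def b1_2 : Bx := Bx.mk (St.mk (I.pos (nat_lit 113442816) (nat_lit 153796608)) (I.mix (nat_lit 42958848) (nat_lit 7847936)) (I.mix (nat_lit 49905664) (nat_lit 1540096)) (I.pos (nat_lit 53133312) (nat_lit 100532224)) (I.mix (nat_lit 93962240) (nat_lit 44810240)) (I.mix (nat_lit 41615360) (nat_lit 91176960)) (I.mix (nat_lit 34799616) (nat_lit 82608128)))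
  false (nat_lit 53592928)
def b1_3 : Bx := Bx.mk (St.mk (I.mix (nat_lit 15138816) (nat_lit 106643456)) (I.mix (nat_lit 22675456) (nat_lit 2080768)) (I.mix (nat_lit 19611648) (nat_lit 1654784)) (I.mix (nat_lit 3817472) (nat_lit 57655296)) (I.mix (nat_lit 39075840) (nat_lit 19218432)) (I.mix (nat_lit 18104320) (nat_lit 35635200)) (I.mix (nat_lit 10600448) (nat_lit 22134784)))
  false (nat_lit 7826727)
def b1_4 : Bx := Bx.mk (St.mk (I.pos (nat_lit 190464000) (nat_lit 245989376)) (I.mix (nat_lit 12320768) (nat_lit 50266112)) (I.mix (nat_lit 40566784) (nat_lit 76562432)) (I.pos (nat_lit 173490176) (nat_lit 249217024)) (I.mix (nat_lit 114114560) (nat_lit 100859904)) (I.mix (nat_lit 109002752) (nat_lit 92585984)) (I.mix (nat_lit 180338688) (nat_lit 143540224)))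
  false (nat_lit 100682063)
def b1_5 : Bx := Bx.mk (St.mk (I.mix (nat_lit 17235968) (nat_lit 95469568)) (I.mix (nat_lit 1884160) (nat_lit 2293760)) (I.mix (nat_lit 5013504) (nat_lit 835584)) (I.mix (nat_lit 3325952) (nat_lit 48857088)) (I.mix (nat_lit 7290880) (nat_lit 2899968)) (I.mix (nat_lit 2408448) (nat_lit 2260992)) (I.mix (nat_lit 737280) (nat_lit 1114112)))
  false (nat_lit 0)
def b1_6 : Bx := Bx.mk (St.mk (I.pos (nat_lit 107118592) (nat_lit 134938624)) (I.mix (nat_lit 8192000) (nat_lit 9355264)) (I.mix (nat_lit 14745600) (nat_lit 2867200)) (I.pos (nat_lit 50511872) (nat_lit 84656128)) (I.mix (nat_lit 34439168) (nat_lit 19873792)) (I.mix (nat_lit 21233664) (nat_lit 21364736)) (I.mix (nat_lit 18415616) (nat_lit 20348928)))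
  false (nat_lit 0)
def b1_7 : Bx := Bx.mk (St.mk (I.pos (nat_lit 209944576) (nat_lit 255737856)) (I.mix (nat_lit 14974976) (nat_lit 18038784)) (I.mix (nat_lit 48529408) (nat_lit 10584064)) (I.pos (nat_lit 195297280) (nat_lit 274481152)) (I.mix (nat_lit 97976320) (nat_lit 20971520)) (I.mix (nat_lit 50200576) (nat_lit 53051392)) (I.mix (nat_lit 85737472) (nat_lit 100155392)))
  false (nat_lit 14588712)
def b1_8 : Bx := Bx.mk (St.mk (I.pos (nat_lit 118734848) (nat_lit 179191808)) (I.neg (nat_lit 2605056) (nat_lit 45891584)) (I.neg (nat_lit 8519680) (nat_lit 50249728)) (I.pos (nat_lit 67289088) (nat_lit 138297344)) (I.mix (nat_lit 74317824) (nat_lit 46448640)) (I.mix (nat_lit 43450368) (nat_lit 59834368)) (I.mix (nat_lit 39518208) (nat_lit 65290240)))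
  false (nat_lit 68027560)
def b1_9 : Bx := Bx.mk (St.mk (I.pos (nat_lit 35651584) (nat_lit 115425280)) (I.mix (nat_lit 23281664) (nat_lit 1589248)) (I.mix (nat_lit 19644416) (nat_lit 671744)) (I.pos (nat_lit 3817472) (nat_lit 67043328)) (I.mix (nat_lit 33210368) (nat_lit 24330240)) (I.mix (nat_lit 19890176) (nat_lit 28475392)) (I.mix (nat_lit 13041664) (nat_lit 20594688)))
  false (nat_lit 6717471)
def b1_10 : Bx := Bx.mk (St.mk (I.pos (nat_lit 170115072) (nat_lit 214056960)) (I.mix (nat_lit 12320768) (nat_lit 47759360)) (I.mix (nat_lit 4800512) (nat_lit 73531392)) (I.pos (nat_lit 117424128) (nat_lit 196886528)) (I.mix (nat_lit 134103040) (nat_lit 53395456)) (I.mix (nat_lit 129138688) (nat_lit 72679424)) (I.mix (nat_lit 148996096) (nat_lit 79069184)))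
  false (nat_lit 0)
def b1_11 : Bx := Bx.mk (St.mk (I.mix (nat_lit 17203200) (nat_lit 137084928)) (I.mix (nat_lit 11108352) (nat_lit 27344896)) (I.mix (nat_lit 11616256) (nat_lit 19546112)) (I.mix (nat_lit 5357568) (nat_lit 84869120)) (I.mix (nat_lit 48742400) (nat_lit 30818304)) (I.mix (nat_lit 41402368) (nat_lit 26312704)) (I.mix (nat_lit 30277632) (nat_lit 18661376)))
  false (nat_lit 17885444)
def b1_12 : Bx := Bx.mk (St.mk (I.pos (nat_lit 154402816) (nat_lit 206635008)) (I.mix (nat_lit 37371904) (nat_lit 6029312)) (I.mix (nat_lit 45645824) (nat_lit 10633216)) (I.pos (nat_lit 95846400) (nat_lit 179798016)) (I.mix (nat_lit 66846720) (nat_lit 66600960)) (I.mix (nat_lit 67420160) (nat_lit 65503232)) (I.mix (nat_lit 74317824) (nat_lit 70762496)))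
  false (nat_lit 98970135)
def b1_13 : Bx := Bx.mk (St.mk (I.pos (nat_lit 152338432) (nat_lit 177192960)) (I.neg (nat_lit 9715712) (nat_lit 35045376)) (I.neg (nat_lit 11304960) (nat_lit 42778624)) (I.pos (nat_lit 97353728) (nat_lit 138412032)) (I.mix (nat_lit 39747584) (nat_lit 19955712)) (I.mix (nat_lit 16728064) (nat_lit 25837568)) (I.mix (nat_lit 18792448) (nat_lit 30457856)))
  false (nat_lit 12815690)
def b1_14 : Bx := Bx.mk (St.mk (I.mix (nat_lit 17186816) (nat_lit 119832576)) (I.mix (nat_lit 11124736) (nat_lit 1359872)) (I.mix (nat_lit 11403264) (nat_lit 1196032)) (I.mix (nat_lit 4325376) (nat_lit 66666496)) (I.mix (nat_lit 6946816) (nat_lit 5210112)) (I.mix (nat_lit 3014656) (nat_lit 3784704)) (I.mix (nat_lit 2244608) (nat_lit 3014656)))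
  false (nat_lit 0)
def b1_15 : Bx := Bx.mk (St.mk (I.pos (nat_lit 169115648) (nat_lit 208371712)) (I.mix (nat_lit 25706496) (nat_lit 23183360)) (I.mix (nat_lit 23887872) (nat_lit 37388288)) (I.pos (nat_lit 115146752) (nat_lit 181387264)) (I.mix (nat_lit 115556352) (nat_lit 77447168)) (I.mix (nat_lit 126205952) (nat_lit 79347712)) (I.mix (nat_lit 146980864) (nat_lit 86999040)))
  false (nat_lit 12791623)
def t1 : BTr := (BTr.n (BTr.n (BTr.n (BTr.n (BTr.b b1_0) (BTr.b b1_1)) (BTr.n (BTr.b b1_2) (BTr.b b1_3))) (BTr.n (BTr.n (BTr.b b1_4) (BTr.b b1_5)) (BTr.n (BTr.b b1_6) (BTr.b b1_7)))) (BTr.n (BTr.n (BTr.n (BTr.b b1_8) (BTr.b b1_9)) (BTr.n (BTr.b b1_10) (BTr.b b1_11))) (BTr.n (BTr.n (BTr.b b1_12) (BTr.b b1_13)) (BTr.n (BTr.b b1_14) (BTr.b b1_15)))))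
namespace T1
def l0 : Tr := Tr.L (Pth.l (Pth.l (Pth.l (Pth.l Pth.z))))
def l1 : Tr := Tr.L (Pth.l (Pth.l (Pth.l (Pth.r Pth.z))))
def l2 : Tr := Tr.L (Pth.l (Pth.l (Pth.r (Pth.l Pth.z))))
def l3 : Tr := Tr.L (Pth.l (Pth.l (Pth.r (Pth.r Pth.z))))
def l4 : Tr := Tr.L (Pth.l (Pth.r (Pth.l (Pth.l Pth.z))))
def l5 : Tr := Tr.L (Pth.l (Pth.r (Pth.l (Pth.r Pth.z))))
def l6 : Tr := Tr.L (Pth.l (Pth.r (Pth.r (Pth.l Pth.z))))
def l7 : Tr := Tr.L (Pth.l (Pth.r (Pth.r (Pth.r Pth.z))))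
def l8 : Tr := Tr.L (Pth.r (Pth.l (Pth.l (Pth.l Pth.z))))
def l9 : Tr := Tr.L (Pth.r (Pth.l (Pth.l (Pth.r Pth.z))))
def l10 : Tr := Tr.L (Pth.r (Pth.l (Pth.r (Pth.l Pth.z))))
def l11 : Tr := Tr.L (Pth.r (Pth.l (Pth.r (Pth.r Pth.z))))
def l12 : Tr := Tr.L (Pth.r (Pth.r (Pth.l (Pth.l Pth.z))))
def l13 : Tr := Tr.L (Pth.r (Pth.r (Pth.l (Pth.r Pth.z))))
def l14 : Tr := Tr.L (Pth.r (Pth.r (Pth.r (Pth.l Pth.z))))
def l15 : Tr := Tr.L (Pth.r (Pth.r (Pth.r (Pth.r Pth.z))))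
end T1
def b2_0 : Bx := Bx.mk (St.mk (I.pos (nat_lit 146259968) (nat_lit 218775552)) (I.mix (nat_lit 5455872) (nat_lit 98074624)) (I.mix (nat_lit 26689536) (nat_lit 67141632)) (I.pos (nat_lit 373538816) (nat_lit 474955776)) (I.mix (nat_lit 169607168) (nat_lit 107659264)) (I.mix (nat_lit 107495424) (nat_lit 103759872)) (I.mix (nat_lit 135675904) (nat_lit 146178048)))
  false (nat_lit 138910303)
def b2_1 : Bx := Bx.mk (St.mk (I.mix (nat_lit 49332224) (nat_lit 8011776)) (I.mix (nat_lit 1687552) (nat_lit 82952192)) (I.neg (nat_lit 63012864) (nat_lit 89882624)) (I.pos (nat_lit 258195456) (nat_lit 287588352)) (I.mix (nat_lit 53755904) (nat_lit 133578752)) (I.mix (nat_lit 96092160) (nat_lit 77660160)) (I.mix (nat_lit 50380800) (nat_lit 44089344)))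
  true (nat_lit 0)
def b2_2 : Bx := Bx.mk (St.mk (I.pos (nat_lit 4014080) (nat_lit 49348608)) (I.neg (nat_lit 28966912) (nat_lit 82952192)) (I.neg (nat_lit 64061440) (nat_lit 89882624)) (I.pos (nat_lit 262553600) (nat_lit 287588352)) (I.mix (nat_lit 133578752) (nat_lit 52215808)) (I.mix (nat_lit 77660160) (nat_lit 96092160)) (I.mix (nat_lit 50380800) (nat_lit 44089344)))
  false (nat_lit 95556410)
def b2_3 : Bx := Bx.mk (St.mk (I.pos (nat_lit 11550720) (nat_lit 123273216)) (I.neg (nat_lit 6373376) (nat_lit 83886080)) (I.neg (nat_lit 24805376) (nat_lit 99811328)) (I.pos (nat_lit 260997120) (nat_lit 330285056)) (I.mix (nat_lit 140886016) (nat_lit 76693504)) (I.mix (nat_lit 81346560) (nat_lit 95649792)) (I.mix (nat_lit 90619904) (nat_lit 85377024)))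
  false (nat_lit 125408774)
def b2_4 : Bx := Bx.mk (St.mk (I.pos (nat_lit 90832896) (nat_lit 190791680)) (I.mix (nat_lit 39190528) (nat_lit 88080384)) (I.mix (nat_lit 61603840) (nat_lit 63209472)) (I.pos (nat_lit 296288256) (nat_lit 436436992)) (I.mix (nat_lit 173965312) (nat_lit 104284160)) (I.mix (nat_lit 152731648) (nat_lit 136200192)) (I.mix (nat_lit 158269440) (nat_lit 155729920)))
  false (nat_lit 95675058)
def b2_5 : Bx := Bx.mk (St.mk (I.neg (nat_lit 11550720) (nat_lit 123289600)) (I.pos (nat_lit 6537216) (nat_lit 83886080)) (I.neg (nat_lit 24969216) (nat_lit 99811328)) (I.pos (nat_lit 260997120) (nat_lit 330301440)) (I.mix (nat_lit 76709888) (nat_lit 140902400)) (I.mix (nat_lit 95649792) (nat_lit 81346560)) (I.mix (nat_lit 90636288) (nat_lit 85377024)))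
  true (nat_lit 0)
def b2_6 : Bx := Bx.mk (St.mk (I.pos (nat_lit 184795136) (nat_lit 274366464)) (I.mix (nat_lit 9125888) (nat_lit 51216384)) (I.neg (nat_lit 20398080) (nat_lit 163266560)) (I.pos (nat_lit 415547392) (nat_lit 559054848)) (I.mix (nat_lit 100974592) (nat_lit 93847552)) (I.mix (nat_lit 86736896) (nat_lit 76464128)) (I.mix (nat_lit 138149888) (nat_lit 138330112)))
  false (nat_lit 72803581)
def b2_7 : Bx := Bx.mk (St.mk (I.mix (nat_lit 12648448) (nat_lit 36519936)) (I.mix (nat_lit 38371328) (nat_lit 7340032)) (I.neg (nat_lit 63651840) (nat_lit 77791232)) (I.pos (nat_lit 259031040) (nat_lit 274776064)) (I.mix (nat_lit 57786368) (nat_lit 46055424)) (I.mix (nat_lit 42811392) (nat_lit 45236224)) (I.mix (nat_lit 11157504) (nat_lit 21233664)))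
  false (nat_lit 0)
def b2_8 : Bx := Bx.mk (St.mk (I.mix (nat_lit 11370496) (nat_lit 11190272)) (I.mix (nat_lit 6012928) (nat_lit 20545536)) (I.neg (nat_lit 66387968) (nat_lit 75644928)) (I.pos (nat_lit 259211264) (nat_lit 269254656)) (I.mix (nat_lit 27230208) (nat_lit 40140800)) (I.mix (nat_lit 29294592) (nat_lit 23363584)) (I.mix (nat_lit 180224) (nat_lit 10387456)))
  true (nat_lit 0)
def b2_9 : Bx := Bx.mk (St.mk (I.pos (nat_lit 169164800) (nat_lit 225542144)) (I.pos (nat_lit 22265856) (nat_lit 87523328)) (I.mix (nat_lit 60129280) (nat_lit 37896192)) (I.pos (nat_lit 409403392) (nat_lit 471171072)) (I.mix (nat_lit 128811008) (nat_lit 92766208)) (I.mix (nat_lit 104218624) (nat_lit 82001920)) (I.mix (nat_lit 163512320) (nat_lit 125599744)))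
  false (nat_lit 99804079)
def b2_10 : Bx := Bx.mk (St.mk (I.pos (nat_lit 5750784) (nat_lit 40615936)) (I.neg (nat_lit 16859136) (nat_lit 68943872)) (I.neg (nat_lit 65093632) (nat_lit 86360064)) (I.pos (nat_lit 261226496) (nat_lit 280608768)) (I.mix (nat_lit 109019136) (nat_lit 53690368)) (I.mix (nat_lit 60129280) (nat_lit 85278720)) (I.mix (nat_lit 26755072) (nat_lit 31621120)))
  false (nat_lit 40710238)
def t2 : BTr := (BTr.n (BTr.n (BTr.n (BTr.b b2_0) (BTr.b b2_1)) (BTr.n (BTr.b b2_2) (BTr.n (BTr.b b2_3) (BTr.b b2_4)))) (BTr.n (BTr.n (BTr.b b2_5) (BTr.n (BTr.b b2_6) (BTr.b b2_7))) (BTr.n (BTr.b b2_8) (BTr.n (BTr.b b2_9) (BTr.b b2_10)))))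
namespace T2
def l0 : Tr := Tr.L (Pth.l (Pth.l (Pth.l Pth.z)))
def l1 : Tr := Tr.L (Pth.l (Pth.l (Pth.r Pth.z)))
def l2 : Tr := Tr.L (Pth.l (Pth.r (Pth.l Pth.z)))
def l3 : Tr := Tr.L (Pth.l (Pth.r (Pth.r (Pth.l Pth.z))))
def l4 : Tr := Tr.L (Pth.l (Pth.r (Pth.r (Pth.r Pth.z))))
def l5 : Tr := Tr.L (Pth.r (Pth.l (Pth.l Pth.z)))
def l6 : Tr := Tr.L (Pth.r (Pth.l (Pth.r (Pth.l Pth.z))))
def l7 : Tr := Tr.L (Pth.r (Pth.l (Pth.r (Pth.r Pth.z))))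
def l8 : Tr := Tr.L (Pth.r (Pth.r (Pth.l Pth.z)))
def l9 : Tr := Tr.L (Pth.r (Pth.r (Pth.r (Pth.l Pth.z))))
def l10 : Tr := Tr.L (Pth.r (Pth.r (Pth.r (Pth.r Pth.z))))
end T2
def b3_0 : Bx := Bx.mk (St.mk (I.pos (nat_lit 156729344) (nat_lit 233078784)) (I.mix (nat_lit 2441216) (nat_lit 45056000)) (I.mix (nat_lit 5111808) (nat_lit 97107968)) (I.pos (nat_lit 91783168) (nat_lit 213123072)) (I.mix (nat_lit 110280704) (nat_lit 70647808)) (I.mix (nat_lit 83476480) (nat_lit 78315520)) (I.mix (nat_lit 120291328) (nat_lit 107413504)))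
  false (nat_lit 26339032)
def b3_1 : Bx := Bx.mk (St.mk (I.pos (nat_lit 121454592) (nat_lit 173604864)) (I.neg (nat_lit 3440640) (nat_lit 50987008)) (I.mix (nat_lit 42893312) (nat_lit 7077888)) (I.pos (nat_lit 74792960) (nat_lit 127582208)) (I.mix (nat_lit 75808768) (nat_lit 64716800)) (I.mix (nat_lit 59916288) (nat_lit 67633152)) (I.mix (nat_lit 55197696) (nat_lit 72990720)))
  false (nat_lit 55907740)
def b3_2 : Bx := Bx.mk (St.mk (I.mix (nat_lit 10534912) (nat_lit 115884032)) (I.mix (nat_lit 24379392) (nat_lit 2048000)) (I.mix (nat_lit 13320192) (nat_lit 5701632)) (I.mix (nat_lit 4177920) (nat_lit 63913984)) (I.mix (nat_lit 31293440) (nat_lit 31981568)) (I.mix (nat_lit 22282240) (nat_lit 30244864)) (I.mix (nat_lit 15024128) (nat_lit 21626880)))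
  false (nat_lit 0)
def b3_3 : Bx := Bx.mk (St.mk (I.pos (nat_lit 163463168) (nat_lit 209354752)) (I.mix (nat_lit 18563072) (nat_lit 44761088)) (I.pos (nat_lit 6160384) (nat_lit 90652672)) (I.pos (nat_lit 105480192) (nat_lit 182632448)) (I.mix (nat_lit 145063936) (nat_lit 68190208)) (I.mix (nat_lit 143327232) (nat_lit 76840960)) (I.mix (nat_lit 164691968) (nat_lit 73252864)))
  false (nat_lit 46330215)
def b3_4 : Bx := Bx.mk (St.mk (I.mix (nat_lit 17006592) (nat_lit 134250496)) (I.mix (nat_lit 12877824) (nat_lit 27246592)) (I.mix (nat_lit 4358144) (nat_lit 29851648)) (I.mix (nat_lit 5128192) (nat_lit 80871424)) (I.mix (nat_lit 59555840) (nat_lit 32948224)) (I.mix (nat_lit 55214080) (nat_lit 29442048)) (I.mix (nat_lit 40828928) (nat_lit 19546112)))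
  false (nat_lit 0)
def b3_5 : Bx := Bx.mk (St.mk (I.pos (nat_lit 163594240) (nat_lit 205078528)) (I.mix (nat_lit 39878656) (nat_lit 20856832)) (I.mix (nat_lit 26329088) (nat_lit 55083008)) (I.pos (nat_lit 105496576) (nat_lit 172032000)) (I.mix (nat_lit 139198464) (nat_lit 79953920)) (I.mix (nat_lit 142180352) (nat_lit 80773120)) (I.mix (nat_lit 164249600) (nat_lit 81051648)))
  false (nat_lit 64860070)
def b3_6 : Bx := Bx.mk (St.mk (I.mix (nat_lit 18612224) (nat_lit 118308864)) (I.mix (nat_lit 14221312) (nat_lit 2539520)) (I.mix (nat_lit 4636672) (nat_lit 5898240)) (I.mix (nat_lit 4243456) (nat_lit 65110016)) (I.mix (nat_lit 25985024) (nat_lit 14204928)) (I.mix (nat_lit 13975552) (nat_lit 18071552)) (I.mix (nat_lit 10321920) (nat_lit 12107776)))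
  false (nat_lit 0)
def b3_7 : Bx := Bx.mk (St.mk (I.pos (nat_lit 145129472) (nat_lit 180224000)) (I.mix (nat_lit 35618816) (nat_lit 753664)) (I.mix (nat_lit 21315584) (nat_lit 14647296)) (I.pos (nat_lit 92864512) (nat_lit 137166848)) (I.mix (nat_lit 67878912) (nat_lit 39354368)) (I.mix (nat_lit 34668544) (nat_lit 50495488)) (I.mix (nat_lit 41910272) (nat_lit 52035584)))
  false (nat_lit 0)
def b3_8 : Bx := Bx.mk (St.mk (I.pos (nat_lit 158711808) (nat_lit 189693952)) (I.neg (nat_lit 6242304) (nat_lit 34586624)) (I.mix (nat_lit 21889024) (nat_lit 10223616)) (I.pos (nat_lit 104726528) (nat_lit 153714688)) (I.mix (nat_lit 40714240) (nat_lit 27770880)) (I.mix (nat_lit 27049984) (nat_lit 24969216)) (I.mix (nat_lit 30195712) (nat_lit 26165248)))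
  false (nat_lit 0)
def b3_9 : Bx := Bx.mk (St.mk (I.pos (nat_lit 12730368) (nat_lit 141967360)) (I.mix (nat_lit 2965504) (nat_lit 19447808)) (I.mix (nat_lit 1277952) (nat_lit 23494656)) (I.mix (nat_lit 3276800) (nat_lit 91029504)) (I.mix (nat_lit 34357248) (nat_lit 29523968)) (I.mix (nat_lit 29851648) (nat_lit 24051712)) (I.mix (nat_lit 26083328) (nat_lit 19742720)))
  false (nat_lit 0)
def b3_10 : Bx := Bx.mk (St.mk (I.pos (nat_lit 117866496) (nat_lit 156745728)) (I.mix (nat_lit 47529984) (nat_lit 4603904)) (I.mix (nat_lit 39419904) (nat_lit 10125312)) (I.pos (nat_lit 52510720) (nat_lit 107397120)) (I.mix (nat_lit 81674240) (nat_lit 41762816)) (I.mix (nat_lit 38436864) (nat_lit 71729152)) (I.mix (nat_lit 34013184) (nat_lit 61358080)))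
  false (nat_lit 18657842)
def b3_11 : Bx := Bx.mk (St.mk (I.mix (nat_lit 15335424) (nat_lit 109953024)) (I.mix (nat_lit 23920640) (nat_lit 1982464)) (I.mix (nat_lit 12320768) (nat_lit 4653056)) (I.mix (nat_lit 3981312) (nat_lit 60637184)) (I.mix (nat_lit 32669696) (nat_lit 15269888)) (I.mix (nat_lit 16416768) (nat_lit 25935872)) (I.mix (nat_lit 9469952) (nat_lit 14811136)))
  false (nat_lit 0)
def b3_12 : Bx := Bx.mk (St.mk (I.pos (nat_lit 200540160) (nat_lit 265977856)) (I.mix (nat_lit 9240576) (nat_lit 30818304)) (I.pos (nat_lit 1097728) (nat_lit 77512704)) (I.pos (nat_lit 166772736) (nat_lit 294354944)) (I.mix (nat_lit 90800128) (nat_lit 51658752)) (I.mix (nat_lit 60588032) (nat_lit 51150848)) (I.mix (nat_lit 107200512) (nat_lit 85868544)))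
  false (nat_lit 46564763)
def b3_13 : Bx := Bx.mk (St.mk (I.pos (nat_lit 118308864) (nat_lit 135987200)) (I.mix (nat_lit 1671168) (nat_lit 7274496)) (I.pos (nat_lit 1441792) (nat_lit 12959744)) (I.pos (nat_lit 53411840) (nat_lit 87851008)) (I.mix (nat_lit 11845632) (nat_lit 12320768)) (I.mix (nat_lit 8945664) (nat_lit 7110656)) (I.mix (nat_lit 8454144) (nat_lit 6324224)))
  false (nat_lit 0)
def b3_14 : Bx := Bx.mk (St.mk (I.pos (nat_lit 189284352) (nat_lit 232275968)) (I.pos (nat_lit 6848512) (nat_lit 42041344)) (I.pos (nat_lit 27623424) (nat_lit 91488256)) (I.pos (nat_lit 160219136) (nat_lit 214237184)) (I.mix (nat_lit 95698944) (nat_lit 74219520)) (I.mix (nat_lit 87113728) (nat_lit 64307200)) (I.mix (nat_lit 138444800) (nat_lit 87638016)))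
  false (nat_lit 22894822)
def b3_15 : Bx := Bx.mk (St.mk (I.mix (nat_lit 10616832) (nat_lit 5603328)) (I.mix (nat_lit 688128) (nat_lit 2293760)) (I.mix (nat_lit 655360) (nat_lit 1835008)) (I.mix (nat_lit 1605632) (nat_lit 18595840)) (I.mix (nat_lit 1900544) (nat_lit 2768896)) (I.mix (nat_lit 1802240) (nat_lit 1409024)) (I.mix (nat_lit 622592) (nat_lit 622592)))
  false (nat_lit 0)
def t3 : BTr := (BTr.n (BTr.n (BTr.n (BTr.n (BTr.b b3_0) (BTr.b b3_1)) (BTr.n (BTr.b b3_2) (BTr.b b3_3))) (BTr.n (BTr.n (BTr.b b3_4) (BTr.b b3_5)) (BTr.n (BTr.b b3_6) (BTr.b b3_7)))) (BTr.n (BTr.n (BTr.n (BTr.b b3_8) (BTr.b b3_9)) (BTr.n (BTr.b b3_10) (BTr.b b3_11))) (BTr.n (BTr.n (BTr.b b3_12) (BTr.b b3_13)) (BTr.n (BTr.b b3_14) (BTr.b b3_15)))))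
namespace T3
def l0 : Tr := Tr.L (Pth.l (Pth.l (Pth.l (Pth.l Pth.z))))
def l1 : Tr := Tr.L (Pth.l (Pth.l (Pth.l (Pth.r Pth.z))))
def l2 : Tr := Tr.L (Pth.l (Pth.l (Pth.r (Pth.l Pth.z))))
def l3 : Tr := Tr.L (Pth.l (Pth.l (Pth.r (Pth.r Pth.z))))
def l4 : Tr := Tr.L (Pth.l (Pth.r (Pth.l (Pth.l Pth.z))))
def l5 : Tr := Tr.L (Pth.l (Pth.r (Pth.l (Pth.r Pth.z))))
def l6 : Tr := Tr.L (Pth.l (Pth.r (Pth.r (Pth.l Pth.z))))
def l7 : Tr := Tr.L (Pth.l (Pth.r (Pth.r (Pth.r Pth.z))))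
def l8 : Tr := Tr.L (Pth.r (Pth.l (Pth.l (Pth.l Pth.z))))
def l9 : Tr := Tr.L (Pth.r (Pth.l (Pth.l (Pth.r Pth.z))))
def l10 : Tr := Tr.L (Pth.r (Pth.l (Pth.r (Pth.l Pth.z))))
def l11 : Tr := Tr.L (Pth.r (Pth.l (Pth.r (Pth.r Pth.z))))
def l12 : Tr := Tr.L (Pth.r (Pth.r (Pth.l (Pth.l Pth.z))))
def l13 : Tr := Tr.L (Pth.r (Pth.r (Pth.l (Pth.r Pth.z))))
def l14 : Tr := Tr.L (Pth.r (Pth.r (Pth.r (Pth.l Pth.z))))
def l15 : Tr := Tr.L (Pth.r (Pth.r (Pth.r (Pth.r Pth.z))))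
end T3
def b4_0 : Bx := Bx.mk (St.mk (I.pos (nat_lit 127664128) (nat_lit 219529216)) (I.mix (nat_lit 4685824) (nat_lit 87834624)) (I.mix (nat_lit 7127040) (nat_lit 131825664)) (I.pos (nat_lit 359415808) (nat_lit 450117632)) (I.mix (nat_lit 188432384) (nat_lit 102514688)) (I.mix (nat_lit 124289024) (nat_lit 100696064)) (I.mix (nat_lit 130367488) (nat_lit 128483328)))
  false (nat_lit 195261775)
def b4_1 : Bx := Bx.mk (St.mk (I.pos (nat_lit 34471936) (nat_lit 125632512)) (I.neg (nat_lit 14286848) (nat_lit 93192192)) (I.mix (nat_lit 47677440) (nat_lit 32571392)) (I.pos (nat_lit 274939904) (nat_lit 330612736)) (I.mix (nat_lit 116359168) (nat_lit 86900736)) (I.mix (nat_lit 91701248) (nat_lit 80412672)) (I.mix (nat_lit 86441984) (nat_lit 64438272)))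
  false (nat_lit 186184728)
def b4_2 : Bx := Bx.mk (St.mk (I.pos (nat_lit 96534528) (nat_lit 177504256)) (I.mix (nat_lit 32587776) (nat_lit 84885504)) (I.pos (nat_lit 8683520) (nat_lit 135004160)) (I.pos (nat_lit 301252608) (nat_lit 401178624)) (I.mix (nat_lit 209420288) (nat_lit 92127232)) (I.mix (nat_lit 170147840) (nat_lit 134086656)) (I.mix (nat_lit 182534144) (nat_lit 161284096)))
  false (nat_lit 174004187)
def b4_3 : Bx := Bx.mk (St.mk (I.neg (nat_lit 34471936) (nat_lit 125632512)) (I.pos (nat_lit 14286848) (nat_lit 93192192)) (I.mix (nat_lit 47677440) (nat_lit 32571392)) (I.pos (nat_lit 274923520) (nat_lit 330645504)) (I.mix (nat_lit 86917120) (nat_lit 116359168)) (I.mix (nat_lit 80412672) (nat_lit 91701248)) (I.mix (nat_lit 86441984) (nat_lit 64438272)))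
  true (nat_lit 33950093)
def b4_4 : Bx := Bx.mk (St.mk (I.mix (nat_lit 64372736) (nat_lit 12222464)) (I.mix (nat_lit 12746752) (nat_lit 88915968)) (I.neg (nat_lit 12828672) (nat_lit 36454400)) (I.pos (nat_lit 263913472) (nat_lit 298057728)) (I.mix (nat_lit 73596928) (nat_lit 108937216)) (I.mix (nat_lit 93437952) (nat_lit 86130688)) (I.mix (nat_lit 44924928) (nat_lit 32555008)))
  true (nat_lit 0)
def b4_5 : Bx := Bx.mk (St.mk (I.pos (nat_lit 21676032) (nat_lit 64634880)) (I.neg (nat_lit 34734080) (nat_lit 88932352)) (I.neg (nat_lit 14745600) (nat_lit 36454400)) (I.pos (nat_lit 272613376) (nat_lit 298041344)) (I.mix (nat_lit 108937216) (nat_lit 73596928)) (I.mix (nat_lit 86130688) (nat_lit 85213184)) (I.mix (nat_lit 44924928) (nat_lit 32571392)))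
  false (nat_lit 120403265)
def b4_6 : Bx := Bx.mk (St.mk (I.pos (nat_lit 178946048) (nat_lit 289423360)) (I.mix (nat_lit 23838720) (nat_lit 63078400)) (I.mix (nat_lit 84115456) (nat_lit 86048768)) (I.pos (nat_lit 398753792) (nat_lit 575520768)) (I.mix (nat_lit 82345984) (nat_lit 80789504)) (I.mix (nat_lit 69599232) (nat_lit 68616192)) (I.mix (nat_lit 117768192) (nat_lit 103219200)))
  false (nat_lit 192712267)
def b4_7 : Bx := Bx.mk (St.mk (I.mix (nat_lit 10551296) (nat_lit 53231616)) (I.mix (nat_lit 50364416) (nat_lit 10600448)) (I.neg (nat_lit 13385728) (nat_lit 25870336)) (I.pos (nat_lit 265322496) (nat_lit 284016640)) (I.mix (nat_lit 57556992) (nat_lit 48250880)) (I.mix (nat_lit 43008000) (nat_lit 41517056)) (I.mix (nat_lit 12615680) (nat_lit 12058624)))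
  false (nat_lit 0)
def b4_8 : Bx := Bx.mk (St.mk (I.pos (nat_lit 143687680) (nat_lit 201703424)) (I.pos (nat_lit 27181056) (nat_lit 82853888)) (I.pos (nat_lit 37568512) (nat_lit 122339328)) (I.pos (nat_lit 371638272) (nat_lit 427048960)) (I.mix (nat_lit 138428416) (nat_lit 106266624)) (I.mix (nat_lit 115490816) (nat_lit 78987264)) (I.mix (nat_lit 158498816) (nat_lit 100876288)))
  false (nat_lit 105767396)
def b4_9 : Bx := Bx.mk (St.mk (I.pos (nat_lit 25165824) (nat_lit 58310656)) (I.neg (nat_lit 25935872) (nat_lit 76169216)) (I.neg (nat_lit 14155776) (nat_lit 34258944)) (I.pos (nat_lit 273350656) (nat_lit 290422784)) (I.mix (nat_lit 100220928) (nat_lit 71024640)) (I.mix (nat_lit 59146240) (nat_lit 93437952)) (I.mix (nat_lit 28049408) (nat_lit 25296896)))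
  false (nat_lit 124177070)
def b4_10 : Bx := Bx.mk (St.mk (I.pos (nat_lit 95584256) (nat_lit 121634816)) (I.neg (nat_lit 17006592) (nat_lit 44417024)) (I.pos (nat_lit 114688) (nat_lit 28917760)) (I.pos (nat_lit 304070656) (nat_lit 328876032)) (I.mix (nat_lit 20135936) (nat_lit 26984448)) (I.mix (nat_lit 13516800) (nat_lit 12566528)) (I.mix (nat_lit 10862592) (nat_lit 11681792)))
  false (nat_lit 0)
def t4 : BTr := (BTr.n (BTr.n (BTr.n (BTr.b b4_0) (BTr.b b4_1)) (BTr.n (BTr.b b4_2) (BTr.n (BTr.b b4_3) (BTr.b b4_4)))) (BTr.n (BTr.n (BTr.b b4_5) (BTr.n (BTr.b b4_6) (BTr.b b4_7))) (BTr.n (BTr.b b4_8) (BTr.n (BTr.b b4_9) (BTr.b b4_10)))))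
namespace T4
def l0 : Tr := Tr.L (Pth.l (Pth.l (Pth.l Pth.z)))
def l1 : Tr := Tr.L (Pth.l (Pth.l (Pth.r Pth.z)))
def l2 : Tr := Tr.L (Pth.l (Pth.r (Pth.l Pth.z)))
def l3 : Tr := Tr.L (Pth.l (Pth.r (Pth.r (Pth.l Pth.z))))
def l4 : Tr := Tr.L (Pth.l (Pth.r (Pth.r (Pth.r Pth.z))))
def l5 : Tr := Tr.L (Pth.r (Pth.l (Pth.l Pth.z)))
def l6 : Tr := Tr.L (Pth.r (Pth.l (Pth.r (Pth.l Pth.z))))
def l7 : Tr := Tr.L (Pth.r (Pth.l (Pth.r (Pth.r Pth.z))))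
def l8 : Tr := Tr.L (Pth.r (Pth.r (Pth.l Pth.z)))
def l9 : Tr := Tr.L (Pth.r (Pth.r (Pth.r (Pth.l Pth.z))))
def l10 : Tr := Tr.L (Pth.r (Pth.r (Pth.r (Pth.r Pth.z))))
end T4
def b5_0 : Bx := Bx.mk (St.mk (I.pos (nat_lit 143769600) (nat_lit 218644480)) (I.mix (nat_lit 3375104) (nat_lit 63193088)) (I.mix (nat_lit 7094272) (nat_lit 129679360)) (I.pos (nat_lit 232472576) (nat_lit 321863680)) (I.mix (nat_lit 140263424) (nat_lit 81936384)) (I.mix (nat_lit 99680256) (nat_lit 91979776)) (I.mix (nat_lit 120455168) (nat_lit 99663872)))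
  false (nat_lit 70579924)
def b5_1 : Bx := Bx.mk (St.mk (I.pos (nat_lit 84230144) (nat_lit 149323776)) (I.neg (nat_lit 6045696) (nat_lit 72073216)) (I.mix (nat_lit 28475392) (nat_lit 39337984)) (I.pos (nat_lit 176881664) (nat_lit 223739904)) (I.mix (nat_lit 72138752) (nat_lit 81395712)) (I.mix (nat_lit 64405504) (nat_lit 66338816)) (I.mix (nat_lit 51281920) (nat_lit 64290816)))
  false (nat_lit 94239206)
def b5_2 : Bx := Bx.mk (St.mk (I.mix (nat_lit 29769728) (nat_lit 4030464)) (I.mix (nat_lit 41877504) (nat_lit 8552448)) (I.pos (nat_lit 19349504) (nat_lit 28803072)) (I.pos (nat_lit 138510336) (nat_lit 149471232)) (I.mix (nat_lit 36913152) (nat_lit 63799296)) (I.mix (nat_lit 35176448) (nat_lit 48709632)) (I.mix (nat_lit 7700480) (nat_lit 10321920)))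
  true (nat_lit 0)
def b5_3 : Bx := Bx.mk (St.mk (I.pos (nat_lit 136249344) (nat_lit 186269696)) (I.mix (nat_lit 2424832) (nat_lit 56901632)) (I.pos (nat_lit 49119232) (nat_lit 122454016)) (I.pos (nat_lit 207568896) (nat_lit 269959168)) (I.mix (nat_lit 162496512) (nat_lit 50937856)) (I.mix (nat_lit 148275200) (nat_lit 76791808)) (I.mix (nat_lit 153894912) (nat_lit 73089024)))
  false (nat_lit 117250060)
def b5_4 : Bx := Bx.mk (St.mk (I.mix (nat_lit 4030464) (nat_lit 29769728)) (I.mix (nat_lit 9650176) (nat_lit 41943040)) (I.pos (nat_lit 19365888) (nat_lit 28803072)) (I.pos (nat_lit 138510336) (nat_lit 149471232)) (I.mix (nat_lit 63799296) (nat_lit 36913152)) (I.mix (nat_lit 48709632) (nat_lit 35176448)) (I.mix (nat_lit 7700480) (nat_lit 10321920)))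
  false (nat_lit 4277271)
def b5_5 : Bx := Bx.mk (St.mk (I.pos (nat_lit 119390208) (nat_lit 145850368)) (I.neg (nat_lit 5914624) (nat_lit 34603008)) (I.pos (nat_lit 10403840) (nat_lit 41369600)) (I.pos (nat_lit 194723840) (nat_lit 221003776)) (I.mix (nat_lit 60833792) (nat_lit 52297728)) (I.mix (nat_lit 38944768) (nat_lit 53493760)) (I.mix (nat_lit 41451520) (nat_lit 45449216)))
  false (nat_lit 0)
def b5_6 : Bx := Bx.mk (St.mk (I.mix (nat_lit 20840448) (nat_lit 2768896)) (I.mix (nat_lit 16351232) (nat_lit 10027008)) (I.pos (nat_lit 20152320) (nat_lit 26116096)) (I.pos (nat_lit 138805248) (nat_lit 144605184)) (I.mix (nat_lit 32407552) (nat_lit 25804800)) (I.mix (nat_lit 20692992) (nat_lit 25968640)) (I.mix (nat_lit 3670016) (nat_lit 2752512)))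
  true (nat_lit 0)
def b5_7 : Bx := Bx.mk (St.mk (I.pos (nat_lit 134168576) (nat_lit 162267136)) (I.neg (nat_lit 11747328) (nat_lit 37208064)) (I.pos (nat_lit 8552448) (nat_lit 36847616)) (I.pos (nat_lit 209125376) (nat_lit 239697920)) (I.mix (nat_lit 27000832) (nat_lit 40992768)) (I.mix (nat_lit 34750464) (nat_lit 24346624)) (I.mix (nat_lit 32555008) (nat_lit 24264704)))
  false (nat_lit 0)
def b5_8 : Bx := Bx.mk (St.mk (I.pos (nat_lit 133562368) (nat_lit 181583872)) (I.mix (nat_lit 38830080) (nat_lit 35586048)) (I.pos (nat_lit 7372800) (nat_lit 97615872)) (I.pos (nat_lit 204783616) (nat_lit 260620288)) (I.mix (nat_lit 160989184) (nat_lit 88866816)) (I.mix (nat_lit 148094976) (nat_lit 95191040)) (I.mix (nat_lit 148979712) (nat_lit 90406912)))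
  false (nat_lit 76420278)
def b5_9 : Bx := Bx.mk (St.mk (I.pos (nat_lit 8224768) (nat_lit 71237632)) (I.mix (nat_lit 9093120) (nat_lit 44449792)) (I.pos (nat_lit 3489792) (nat_lit 31326208)) (I.pos (nat_lit 138280960) (nat_lit 162775040)) (I.mix (nat_lit 62881792) (nat_lit 52789248)) (I.mix (nat_lit 58736640) (nat_lit 40484864)) (I.mix (nat_lit 31670272) (nat_lit 23789568)))
  false (nat_lit 21281067)
def b5_10 : Bx := Bx.mk (St.mk (I.pos (nat_lit 55099392) (nat_lit 110837760)) (I.mix (nat_lit 67158016) (nat_lit 11108352)) (I.mix (nat_lit 25526272) (nat_lit 16859136)) (I.pos (nat_lit 151437312) (nat_lit 195149824)) (I.mix (nat_lit 77627392) (nat_lit 63717376)) (I.mix (nat_lit 49922048) (nat_lit 81051648)) (I.mix (nat_lit 32784384) (nat_lit 44384256)))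
  false (nat_lit 55118133)
def b5_11 : Bx := Bx.mk (St.mk (I.neg (nat_lit 8224768) (nat_lit 71237632)) (I.mix (nat_lit 44433408) (nat_lit 9093120)) (I.pos (nat_lit 3489792) (nat_lit 31326208)) (I.pos (nat_lit 138280960) (nat_lit 162775040)) (I.mix (nat_lit 52789248) (nat_lit 62881792)) (I.mix (nat_lit 40484864) (nat_lit 58736640)) (I.mix (nat_lit 31670272) (nat_lit 23789568)))
  true (nat_lit 0)
def b5_12 : Bx := Bx.mk (St.mk (I.pos (nat_lit 186253312) (nat_lit 286588928)) (I.mix (nat_lit 21315584) (nat_lit 47005696)) (I.mix (nat_lit 12533760) (nat_lit 110559232)) (I.pos (nat_lit 278593536) (nat_lit 444170240)) (I.mix (nat_lit 98091008) (nat_lit 80396288)) (I.mix (nat_lit 80281600) (nat_lit 56115200)) (I.mix (nat_lit 131760128) (nat_lit 88604672)))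
  false (nat_lit 107796769)
def b5_13 : Bx := Bx.mk (St.mk (I.pos (nat_lit 158760960) (nat_lit 214433792)) (I.pos (nat_lit 13516800) (nat_lit 60080128)) (I.pos (nat_lit 54198272) (nat_lit 125566976)) (I.pos (nat_lit 251379712) (nat_lit 304365568)) (I.mix (nat_lit 130105344) (nat_lit 103809024)) (I.mix (nat_lit 117342208) (nat_lit 84475904)) (I.mix (nat_lit 164315136) (nat_lit 93618176)))
  false (nat_lit 66080987)
def t5 : BTr := (BTr.n (BTr.n (BTr.n (BTr.b b5_0) (BTr.n (BTr.b b5_1) (BTr.b b5_2))) (BTr.n (BTr.n (BTr.b b5_3) (BTr.b b5_4)) (BTr.n (BTr.b b5_5) (BTr.b b5_6)))) (BTr.n (BTr.n (BTr.b b5_7) (BTr.n (BTr.b b5_8) (BTr.b b5_9))) (BTr.n (BTr.n (BTr.b b5_10) (BTr.b b5_11)) (BTr.n (BTr.b b5_12) (BTr.b b5_13)))))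
namespace T5
def l0 : Tr := Tr.L (Pth.l (Pth.l (Pth.l Pth.z)))
def l1 : Tr := Tr.L (Pth.l (Pth.l (Pth.r (Pth.l Pth.z))))
def l2 : Tr := Tr.L (Pth.l (Pth.l (Pth.r (Pth.r Pth.z))))
def l3 : Tr := Tr.L (Pth.l (Pth.r (Pth.l (Pth.l Pth.z))))
def l4 : Tr := Tr.L (Pth.l (Pth.r (Pth.l (Pth.r Pth.z))))
def l5 : Tr := Tr.L (Pth.l (Pth.r (Pth.r (Pth.l Pth.z))))
def l6 : Tr := Tr.L (Pth.l (Pth.r (Pth.r (Pth.r Pth.z))))
def l7 : Tr := Tr.L (Pth.r (Pth.l (Pth.l Pth.z)))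
def l8 : Tr := Tr.L (Pth.r (Pth.l (Pth.r (Pth.l Pth.z))))
def l9 : Tr := Tr.L (Pth.r (Pth.l (Pth.r (Pth.r Pth.z))))
def l10 : Tr := Tr.L (Pth.r (Pth.r (Pth.l (Pth.l Pth.z))))
def l11 : Tr := Tr.L (Pth.r (Pth.r (Pth.l (Pth.r Pth.z))))
def l12 : Tr := Tr.L (Pth.r (Pth.r (Pth.r (Pth.l Pth.z))))
def l13 : Tr := Tr.L (Pth.r (Pth.r (Pth.r (Pth.r Pth.z))))
end T5
theorem bx0_0 : BoxOK sI cl4 cl5 cl13 t2 t4 b0_0 :=
  box_mk (TrL.c (I.pos (nat_lit 0) (nat_lit 0)) (xb (xa T2.l0 T2.l0) (xa (xb T2.l0 (xa T2.l0 T2.l0)) (xa (xb T2.l0 T2.l0) (xb T2.l0 T2.l0))))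
  (TrL.c (I.pos (nat_lit 0) (nat_lit 0)) (xb T4.l1 (xa T4.l1 T4.l1))
  (TrL.c (I.pos (nat_lit 0) (nat_lit 0)) T2.l1
  (TrL.c (I.pos (nat_lit 0) (nat_lit 0)) T4.l2
  (TrL.c (I.pos (nat_lit 0) (nat_lit 0)) (xa T2.l2 T2.l2)
  (TrL.c (I.pos (nat_lit 0) (nat_lit 0)) (xb T4.l3 (xa T4.l3 T4.l3))
  TrL.n)))))) (by decide +kernel)
theorem bx0_1 : BoxOK sI cl4 cl5 cl13 t2 t4 b0_1 :=
  box_mk (TrL.c (I.pos (nat_lit 0) (nat_lit 0)) (xb T2.l6 T2.l6)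
  (TrL.c (I.pos (nat_lit 0) (nat_lit 0)) T4.l1
  (TrL.c (I.pos (nat_lit 0) (nat_lit 0)) T2.l1
  (TrL.c (I.pos (nat_lit 0) (nat_lit 0)) T4.l2
  (TrL.c (I.pos (nat_lit 0) (nat_lit 0)) T2.l7
  (TrL.c (I.pos (nat_lit 0) (nat_lit 0)) T4.l3
  TrL.n)))))) (by decide +kernel)
theorem bx0_2 : BoxOK sI cl4 cl5 cl13 t2 t4 b0_2 :=
  box_mk (TrL.c (I.pos (nat_lit 0) (nat_lit 0)) (xb (xa T2.l6 T2.l6) (xa T2.l6 T2.l6))
  (TrL.c (I.pos (nat_lit 0) (nat_lit 0)) T4.l1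
  (TrL.c (I.pos (nat_lit 0) (nat_lit 0)) T2.l1
  (TrL.c (I.pos (nat_lit 0) (nat_lit 0)) T4.l2
  (TrL.c (I.pos (nat_lit 0) (nat_lit 0)) T2.l7
  (TrL.c (I.pos (nat_lit 0) (nat_lit 0)) T4.l3
  TrL.n)))))) (by decide +kernel)
theorem bx0_3 : BoxOK sI cl4 cl5 cl13 t2 t4 b0_3 :=
  box_mk (TrL.c (I.pos (nat_lit 0) (nat_lit 0)) T4.l1
  (TrL.c (I.pos (nat_lit 0) (nat_lit 0)) T2.l1
  TrL.n)) (by decide +kernel)
theorem bx0_4 : BoxOK sI cl4 cl5 cl13 t2 t4 b0_4 :=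
  box_mk (TrL.c (I.pos (nat_lit 0) (nat_lit 0)) T2.l6
  (TrL.c (I.pos (nat_lit 0) (nat_lit 0)) T4.l1
  (TrL.c (I.pos (nat_lit 0) (nat_lit 0)) T2.l1
  (TrL.c (I.pos (nat_lit 0) (nat_lit 0)) T4.l2
  (TrL.c (I.pos (nat_lit 0) (nat_lit 0)) T2.l7
  (TrL.c (I.pos (nat_lit 0) (nat_lit 0)) T4.l3
  TrL.n)))))) (by decide +kernel)
theorem bx0_5 : BoxOK sI cl4 cl5 cl13 t2 t4 b0_5 :=
  box_mk (TrL.c (I.pos (nat_lit 0) (nat_lit 0)) (xa T2.l0 T2.l4)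
  (TrL.c (I.pos (nat_lit 0) (nat_lit 0)) T4.l1
  (TrL.c (I.pos (nat_lit 0) (nat_lit 0)) T2.l1
  (TrL.c (I.pos (nat_lit 0) (nat_lit 0)) (xa T4.l2 T4.l2)
  (TrL.c (I.pos (nat_lit 0) (nat_lit 0)) T2.l2
  (TrL.c (I.pos (nat_lit 0) (nat_lit 0)) T4.l3
  TrL.n)))))) (by decide +kernel)
theorem bx0_6 : BoxOK sI cl4 cl5 cl13 t2 t4 b0_6 :=
  box_mk (TrL.c (I.pos (nat_lit 0) (nat_lit 0)) (xb (xa (xb T2.l0 T2.l0) (xb T2.l0 T2.l0)) (xa (xb (xa T2.l0 T2.l0) (xa T2.l0 T2.l0)) (xb (xa T2.l0 T2.l0) (xa T2.l0 T2.l0))))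
  (TrL.c (I.pos (nat_lit 0) (nat_lit 0)) (xb (xa T4.l1 T4.l1) (xa T4.l1 (xb T4.l1 T4.l1)))
  (TrL.c (I.pos (nat_lit 0) (nat_lit 0)) (xc (xb T2.l5 (xa T2.l1 T2.l5)) (xb T2.l5 (xa T2.l1 T2.l1)))
  (TrL.c (I.pos (nat_lit 0) (nat_lit 0)) (xb (xa (xb T4.l2 T4.l2) (xb (xa T4.l2 T4.l2) T4.l2)) (xa T4.l2 (xb T4.l2 (xa T4.l2 T4.l2))))
  (TrL.c (I.pos (nat_lit 0) (nat_lit 0)) (xc (xb T2.l3 (xa T2.l2 T2.l3)) (xb T2.l3 (xa T2.l2 T2.l2)))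
  (TrL.c (I.pos (nat_lit 0) (nat_lit 0)) (xb (xa T4.l3 T4.l3) (xa T4.l3 (xb T4.l3 T4.l3)))
  TrL.n)))))) (by decide +kernel)
theorem bx0_7 : BoxOK sI cl4 cl5 cl13 t2 t4 b0_7 :=
  box_mk (TrL.c (I.pos (nat_lit 0) (nat_lit 0)) (xa (xb (xa T2.l6 T2.l6) T2.l6) (xb (xa T2.l6 T2.l6) (xa T2.l6 T2.l6)))
  (TrL.c (I.pos (nat_lit 0) (nat_lit 0)) T4.l1
  (TrL.c (I.pos (nat_lit 0) (nat_lit 0)) T2.l1
  (TrL.c (I.pos (nat_lit 0) (nat_lit 0)) T4.l2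
  (TrL.c (I.pos (nat_lit 0) (nat_lit 0)) T2.l7
  (TrL.c (I.pos (nat_lit 0) (nat_lit 0)) T4.l3
  TrL.n)))))) (by decide +kernel)
theorem bx0_8 : BoxOK sI cl4 cl5 cl13 t2 t4 b0_8 :=
  box_mk (TrL.c (I.pos (nat_lit 0) (nat_lit 0)) T4.l1
  (TrL.c (I.pos (nat_lit 0) (nat_lit 0)) T2.l8
  TrL.n)) (by decide +kernel)
theorem bx0_9 : BoxOK sI cl4 cl5 cl13 t2 t4 b0_9 :=
  box_mk (TrL.c (I.pos (nat_lit 0) (nat_lit 0)) (xb (xa T2.l9 T2.l0) (xa (xb T2.l9 (xa T2.l9 T2.l9)) (xb T2.l9 T2.l0)))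
  (TrL.c (I.pos (nat_lit 0) (nat_lit 0)) T4.l1
  (TrL.c (I.pos (nat_lit 0) (nat_lit 0)) T2.l1
  (TrL.c (I.pos (nat_lit 0) (nat_lit 0)) T4.l2
  (TrL.c (I.pos (nat_lit 0) (nat_lit 0)) T2.l10
  (TrL.c (I.pos (nat_lit 0) (nat_lit 0)) T4.l3
  TrL.n)))))) (by decide +kernel)
theorem bx0_10 : BoxOK sI cl4 cl5 cl13 t2 t4 b0_10 :=
  box_mk (TrL.c (I.pos (nat_lit 0) (nat_lit 0)) (xb (xa T2.l6 T2.l6) (xa T2.l6 T2.l6))
  (TrL.c (I.pos (nat_lit 0) (nat_lit 0)) T4.l1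
  (TrL.c (I.pos (nat_lit 0) (nat_lit 0)) T2.l8
  (TrL.c (I.pos (nat_lit 0) (nat_lit 0)) T4.l2
  (TrL.c (I.pos (nat_lit 0) (nat_lit 0)) T2.l7
  (TrL.c (I.pos (nat_lit 0) (nat_lit 0)) T4.l3
  TrL.n)))))) (by decide +kernel)
theorem bx0_11 : BoxOK sI cl4 cl5 cl13 t2 t4 b0_11 :=
  box_mk (TrL.c (I.pos (nat_lit 0) (nat_lit 0)) (xa (xb (xa T2.l6 T2.l9) (xa T2.l9 T2.l9)) (xb (xa T2.l9 T2.l9) T2.l9))
  (TrL.c (I.pos (nat_lit 0) (nat_lit 0)) T4.l1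
  (TrL.c (I.pos (nat_lit 0) (nat_lit 0)) T2.l1
  (TrL.c (I.pos (nat_lit 0) (nat_lit 0)) T4.l2
  (TrL.c (I.pos (nat_lit 0) (nat_lit 0)) T2.l10
  (TrL.c (I.pos (nat_lit 0) (nat_lit 0)) T4.l3
  TrL.n)))))) (by decide +kernel)
theorem bx0_12 : BoxOK sI cl4 cl5 cl13 t2 t4 b0_12 :=
  box_mk (TrL.c (I.pos (nat_lit 0) (nat_lit 0)) (xb (xa T2.l9 T2.l9) (xa T2.l9 T2.l9))
  (TrL.c (I.pos (nat_lit 0) (nat_lit 0)) T4.l1
  (TrL.c (I.pos (nat_lit 0) (nat_lit 0)) T2.l1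
  (TrL.c (I.pos (nat_lit 0) (nat_lit 0)) T4.l2
  (TrL.c (I.pos (nat_lit 0) (nat_lit 0)) T2.l10
  (TrL.c (I.pos (nat_lit 0) (nat_lit 0)) T4.l3
  TrL.n)))))) (by decide +kernel)
theorem sv0 : StarV sI cl4 cl5 cl13 t2 t4 t0 :=
  (bt_n (bt_n (bt_n (bt_b bx0_0) (bt_n (bt_b bx0_1) (bt_b bx0_2))) (bt_n (bt_b bx0_3) (bt_n (bt_b bx0_4) (bt_b bx0_5)))) (bt_n (bt_n (bt_b bx0_6) (bt_n (bt_b bx0_7) (bt_b bx0_8))) (bt_n (bt_n (bt_b bx0_9) (bt_b bx0_10)) (bt_n (bt_b bx0_11) (bt_b bx0_12)))))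
def S0 : StarD := StarD.mk cl4 cl5 cl13 2 4 t0
theorem bx1_0 : BoxOK sI cl4 cl13 cl5 t4 t2 b1_0 :=
  box_mk (TrL.c (I.pos (nat_lit 0) (nat_lit 0)) (xa (xb (xa (xb T4.l0 T4.l0) T4.l0) (xa (xb T4.l0 T4.l0) (xb T4.l0 T4.l0))) (xb (xa T4.l0 (xb T4.l0 T4.l0)) (xa (xb T4.l0 T4.l0) (xb T4.l0 T4.l0))))
  (TrL.c (I.pos (nat_lit 0) (nat_lit 0)) (xa (xb T2.l3 (xa T2.l3 T2.l3)) (xb T2.l3 (xa T2.l3 (xs T2.l3 T2.l3))))
  (TrL.c (I.pos (nat_lit 0) (nat_lit 0)) T4.l4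
  (TrL.c (I.pos (nat_lit 0) (nat_lit 0)) (xa T2.l4 (xb T2.l4 T2.l4))
  (TrL.c (I.pos (nat_lit 0) (nat_lit 0)) (xa T4.l5 T4.l5)
  (TrL.c (I.pos (nat_lit 0) (nat_lit 0)) (xa (xb T2.l5 (xa T2.l5 T2.l5)) (xb T2.l5 (xa T2.l5 (xs T2.l5 T2.l5))))
  TrL.n)))))) (by decide +kernel)
theorem bx1_1 : BoxOK sI cl4 cl13 cl5 t4 t2 b1_1 :=
  box_mk (TrL.c (I.pos (nat_lit 0) (nat_lit 0)) (xa T4.l6 (xa T4.l6 (xa T4.l6 T4.l6)))
  (TrL.c (I.pos (nat_lit 0) (nat_lit 0)) (xa T2.l3 T2.l3)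
  (TrL.c (I.pos (nat_lit 0) (nat_lit 0)) T4.l4
  (TrL.c (I.pos (nat_lit 0) (nat_lit 0)) (xa T2.l4 T2.l4)
  (TrL.c (I.pos (nat_lit 0) (nat_lit 0)) T4.l7
  (TrL.c (I.pos (nat_lit 0) (nat_lit 0)) (xa T2.l5 T2.l5)
  TrL.n)))))) (by decide +kernel)
theorem bx1_2 : BoxOK sI cl4 cl13 cl5 t4 t2 b1_2 :=
  box_mk (TrL.c (I.pos (nat_lit 0) (nat_lit 0)) (xb (xa T4.l0 T4.l0) (xa T4.l6 T4.l0))
  (TrL.c (I.pos (nat_lit 0) (nat_lit 0)) T2.l3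
  (TrL.c (I.pos (nat_lit 0) (nat_lit 0)) T4.l4
  (TrL.c (I.pos (nat_lit 0) (nat_lit 0)) T2.l4
  (TrL.c (I.pos (nat_lit 0) (nat_lit 0)) T4.l7
  (TrL.c (I.pos (nat_lit 0) (nat_lit 0)) T2.l5
  TrL.n)))))) (by decide +kernel)
theorem bx1_3 : BoxOK sI cl4 cl13 cl5 t4 t2 b1_3 :=
  box_mk (TrL.c (I.pos (nat_lit 0) (nat_lit 0)) (xa (xa T4.l6 T4.l6) T4.l6)
  (TrL.c (I.pos (nat_lit 0) (nat_lit 0)) (xa T2.l3 T2.l3)
  (TrL.c (I.pos (nat_lit 0) (nat_lit 0)) T4.l4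
  (TrL.c (I.pos (nat_lit 0) (nat_lit 0)) (xa T2.l4 T2.l4)
  (TrL.c (I.pos (nat_lit 0) (nat_lit 0)) T4.l7
  (TrL.c (I.pos (nat_lit 0) (nat_lit 0)) (xa T2.l5 T2.l5)
  TrL.n)))))) (by decide +kernel)
theorem bx1_4 : BoxOK sI cl4 cl13 cl5 t4 t2 b1_4 :=
  box_mk (TrL.c (I.pos (nat_lit 0) (nat_lit 0)) (xa (xb (xb (xa T4.l0 T4.l0) (xa T4.l0 T4.l0)) (xa (xb T4.l0 T4.l0) (xb T4.l0 T4.l0))) (xb (xa (xb T4.l0 T4.l0) T4.l2) (xa (xb T4.l0 T4.l0) (xb T4.l2 T4.l2))))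
  (TrL.c (I.pos (nat_lit 0) (nat_lit 0)) (xa (xb T2.l3 (xa T2.l3 T2.l3)) (xb (xa T2.l3 T2.l3) (xa (xb T2.l3 T2.l3) (xs T2.l3 T2.l3))))
  (TrL.c (I.pos (nat_lit 0) (nat_lit 0)) (xa T4.l4 (xc (xb T4.l3 T4.l4) (xb T4.l4 T4.l4)))
  (TrL.c (I.pos (nat_lit 0) (nat_lit 0)) (xb (xa T2.l4 (xa T2.l4 T2.l4)) (xa T2.l4 (xa T2.l4 (xb T2.l4 T2.l4))))
  (TrL.c (I.pos (nat_lit 0) (nat_lit 0)) (xa T4.l5 (xc (xb T4.l1 T4.l5) (xb T4.l5 T4.l5)))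
  (TrL.c (I.pos (nat_lit 0) (nat_lit 0)) (xa (xb T2.l5 (xa T2.l5 T2.l5)) (xb (xa T2.l5 T2.l5) (xa (xb T2.l5 T2.l5) (xs T2.l5 T2.l5))))
  TrL.n)))))) (by decide +kernel)
theorem bx1_5 : BoxOK sI cl4 cl13 cl5 t4 t2 b1_5 :=
  box_mk (TrL.c (I.pos (nat_lit 0) (nat_lit 0)) T4.l6
  (TrL.c (I.pos (nat_lit 0) (nat_lit 0)) T2.l3
  (TrL.c (I.pos (nat_lit 0) (nat_lit 0)) T4.l4
  (TrL.c (I.pos (nat_lit 0) (nat_lit 0)) T2.l4
  (TrL.c (I.pos (nat_lit 0) (nat_lit 0)) T4.l7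
  (TrL.c (I.pos (nat_lit 0) (nat_lit 0)) T2.l5
  TrL.n)))))) (by decide +kernel)
theorem bx1_6 : BoxOK sI cl4 cl13 cl5 t4 t2 b1_6 :=
  box_mk (TrL.c (I.pos (nat_lit 0) (nat_lit 0)) T4.l6
  (TrL.c (I.pos (nat_lit 0) (nat_lit 0)) T2.l3
  (TrL.c (I.pos (nat_lit 0) (nat_lit 0)) T4.l4
  (TrL.c (I.pos (nat_lit 0) (nat_lit 0)) T2.l4
  (TrL.c (I.pos (nat_lit 0) (nat_lit 0)) T4.l7
  (TrL.c (I.pos (nat_lit 0) (nat_lit 0)) T2.l5
  TrL.n)))))) (by decide +kernel)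
theorem bx1_7 : BoxOK sI cl4 cl13 cl5 t4 t2 b1_7 :=
  box_mk (TrL.c (I.pos (nat_lit 0) (nat_lit 0)) (xa (xb T4.l0 T4.l0) T4.l2)
  (TrL.c (I.pos (nat_lit 0) (nat_lit 0)) (xa T2.l3 (xb T2.l3 T2.l3))
  (TrL.c (I.pos (nat_lit 0) (nat_lit 0)) T4.l3
  (TrL.c (I.pos (nat_lit 0) (nat_lit 0)) (xa T2.l4 T2.l0)
  (TrL.c (I.pos (nat_lit 0) (nat_lit 0)) T4.l1
  (TrL.c (I.pos (nat_lit 0) (nat_lit 0)) (xa T2.l5 (xb T2.l5 T2.l5))
  TrL.n)))))) (by decide +kernel)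
theorem bx1_8 : BoxOK sI cl4 cl13 cl5 t4 t2 b1_8 :=
  box_mk (TrL.c (I.pos (nat_lit 0) (nat_lit 0)) (xa (xb T4.l0 T4.l0) T4.l0)
  (TrL.c (I.pos (nat_lit 0) (nat_lit 0)) T2.l3
  (TrL.c (I.pos (nat_lit 0) (nat_lit 0)) T4.l4
  (TrL.c (I.pos (nat_lit 0) (nat_lit 0)) T2.l4
  (TrL.c (I.pos (nat_lit 0) (nat_lit 0)) T4.l7
  (TrL.c (I.pos (nat_lit 0) (nat_lit 0)) T2.l5
  TrL.n)))))) (by decide +kernel)
theorem bx1_9 : BoxOK sI cl4 cl13 cl5 t4 t2 b1_9 :=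
  box_mk (TrL.c (I.pos (nat_lit 0) (nat_lit 0)) T4.l6
  (TrL.c (I.pos (nat_lit 0) (nat_lit 0)) T2.l3
  (TrL.c (I.pos (nat_lit 0) (nat_lit 0)) T4.l4
  (TrL.c (I.pos (nat_lit 0) (nat_lit 0)) T2.l4
  (TrL.c (I.pos (nat_lit 0) (nat_lit 0)) T4.l7
  (TrL.c (I.pos (nat_lit 0) (nat_lit 0)) T2.l5
  TrL.n)))))) (by decide +kernel)
theorem bx1_10 : BoxOK sI cl4 cl13 cl5 t4 t2 b1_10 :=
  box_mk (TrL.c (I.pos (nat_lit 0) (nat_lit 0)) (xb (xa (xb (xa T4.l8 T4.l8) (xa T4.l8 T4.l8)) (xb (xa T4.l8 T4.l8) T4.l8)) (xa (xb (xa T4.l8 T4.l8) (xa T4.l8 T4.l8)) (xb (xa T4.l8 T4.l8) (xa T4.l8 T4.l8))))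
  (TrL.c (I.pos (nat_lit 0) (nat_lit 0)) (xb (xa T2.l3 T2.l3) (xa T2.l3 (xb T2.l3 T2.l3)))
  (TrL.c (I.pos (nat_lit 0) (nat_lit 0)) (xb T4.l4 T4.l4)
  (TrL.c (I.pos (nat_lit 0) (nat_lit 0)) (xb T2.l4 (xa T2.l4 T2.l4))
  (TrL.c (I.pos (nat_lit 0) (nat_lit 0)) (xb T4.l9 T4.l9)
  (TrL.c (I.pos (nat_lit 0) (nat_lit 0)) (xb (xa T2.l5 T2.l5) (xa T2.l5 (xb T2.l5 T2.l5)))
  TrL.n)))))) (by decide +kernel)
theorem bx1_11 : BoxOK sI cl4 cl13 cl5 t4 t2 b1_11 :=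
  box_mk (TrL.c (I.pos (nat_lit 0) (nat_lit 0)) (xa (xa (xb T4.l6 (xa T4.l6 T4.l6)) T4.l6) (xa T4.l6 (xa T4.l6 (xb T4.l6 T4.l6))))
  (TrL.c (I.pos (nat_lit 0) (nat_lit 0)) (xa (xa T2.l3 T2.l3) T2.l3)
  (TrL.c (I.pos (nat_lit 0) (nat_lit 0)) T4.l4
  (TrL.c (I.pos (nat_lit 0) (nat_lit 0)) (xa T2.l4 T2.l4)
  (TrL.c (I.pos (nat_lit 0) (nat_lit 0)) (xa T4.l7 T4.l7)
  (TrL.c (I.pos (nat_lit 0) (nat_lit 0)) (xa (xa T2.l5 T2.l5) T2.l5)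
  TrL.n)))))) (by decide +kernel)
theorem bx1_12 : BoxOK sI cl4 cl13 cl5 t4 t2 b1_12 :=
  box_mk (TrL.c (I.pos (nat_lit 0) (nat_lit 0)) T4.l0
  (TrL.c (I.pos (nat_lit 0) (nat_lit 0)) T2.l3
  (TrL.c (I.pos (nat_lit 0) (nat_lit 0)) T4.l4
  (TrL.c (I.pos (nat_lit 0) (nat_lit 0)) T2.l4
  (TrL.c (I.pos (nat_lit 0) (nat_lit 0)) T4.l9
  (TrL.c (I.pos (nat_lit 0) (nat_lit 0)) T2.l5
  TrL.n)))))) (by decide +kernel)
theorem bx1_13 : BoxOK sI cl4 cl13 cl5 t4 t2 b1_13 :=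
  box_mk (TrL.c (I.pos (nat_lit 0) (nat_lit 0)) T4.l0
  (TrL.c (I.pos (nat_lit 0) (nat_lit 0)) T2.l3
  (TrL.c (I.pos (nat_lit 0) (nat_lit 0)) T4.l4
  (TrL.c (I.pos (nat_lit 0) (nat_lit 0)) T2.l4
  (TrL.c (I.pos (nat_lit 0) (nat_lit 0)) T4.l7
  (TrL.c (I.pos (nat_lit 0) (nat_lit 0)) T2.l5
  TrL.n)))))) (by decide +kernel)
theorem bx1_14 : BoxOK sI cl4 cl13 cl5 t4 t2 b1_14 :=
  box_mk (TrL.c (I.pos (nat_lit 0) (nat_lit 0)) (xa T4.l6 T4.l6)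
  (TrL.c (I.pos (nat_lit 0) (nat_lit 0)) (xa T2.l3 T2.l3)
  (TrL.c (I.pos (nat_lit 0) (nat_lit 0)) T4.l4
  (TrL.c (I.pos (nat_lit 0) (nat_lit 0)) (xa T2.l4 T2.l4)
  (TrL.c (I.pos (nat_lit 0) (nat_lit 0)) T4.l7
  (TrL.c (I.pos (nat_lit 0) (nat_lit 0)) (xa T2.l5 T2.l5)
  TrL.n)))))) (by decide +kernel)
theorem bx1_15 : BoxOK sI cl4 cl13 cl5 t4 t2 b1_15 :=
  box_mk (TrL.c (I.pos (nat_lit 0) (nat_lit 0)) (xb (xa (xb T4.l8 T4.l8) (xb (xa T4.l8 T4.l8) T4.l8)) (xa (xb T4.l8 T4.l8) (xb T4.l8 (xa T4.l8 T4.l8))))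
  (TrL.c (I.pos (nat_lit 0) (nat_lit 0)) (xb T2.l3 T2.l3)
  (TrL.c (I.pos (nat_lit 0) (nat_lit 0)) T4.l4
  (TrL.c (I.pos (nat_lit 0) (nat_lit 0)) (xb (xa T2.l4 T2.l4) T2.l4)
  (TrL.c (I.pos (nat_lit 0) (nat_lit 0)) T4.l9
  (TrL.c (I.pos (nat_lit 0) (nat_lit 0)) (xb T2.l5 T2.l5)
  TrL.n)))))) (by decide +kernel)
theorem sv1 : StarV sI cl4 cl13 cl5 t4 t2 t1 :=
  (bt_n (bt_n (bt_n (bt_n (bt_b bx1_0) (bt_b bx1_1)) (bt_n (bt_b bx1_2) (bt_b bx1_3))) (bt_n (bt_n (bt_b bx1_4) (bt_b bx1_5)) (bt_n (bt_b bx1_6) (bt_b bx1_7)))) (bt_n (bt_n (bt_n (bt_b bx1_8) (bt_b bx1_9)) (bt_n (bt_b bx1_10) (bt_b bx1_11))) (bt_n (bt_n (bt_b bx1_12) (bt_b bx1_13)) (bt_n (bt_b bx1_14) (bt_b bx1_15)))))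
def S1 : StarD := StarD.mk cl4 cl13 cl5 4 2 t1
theorem bx2_0 : BoxOK sI cl5 cl4 cl13 t0 t5 b2_0 :=
  box_mk (TrL.c (I.pos (nat_lit 0) (nat_lit 0)) (xb (xa T0.l6 (xb T0.l0 T0.l0)) (xa (xb T0.l6 (xa T0.l6 T0.l0)) (xb T0.l0 (xa T0.l0 T0.l0))))
  (TrL.c (I.pos (nat_lit 0) (nat_lit 0)) (xb T5.l1 T5.l1)
  (TrL.c (I.pos (nat_lit 0) (nat_lit 0)) T0.l1
  (TrL.c (I.pos (nat_lit 0) (nat_lit 0)) T5.l2
  (TrL.c (I.pos (nat_lit 0) (nat_lit 0)) (xb (xa T5.l8 T5.l3) (xa T5.l3 T5.l3))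
  (TrL.c (I.pos (nat_lit 0) (nat_lit 0)) T0.l2
  (TrL.c (I.pos (nat_lit 0) (nat_lit 0)) T5.l4
  (TrL.c (I.pos (nat_lit 0) (nat_lit 0)) T0.l3
  TrL.n)))))))) (by decide +kernel)
theorem bx2_1 : BoxOK sI cl5 cl4 cl13 t0 t5 b2_1 :=
  box_mk (TrL.c (I.pos (nat_lit 0) (nat_lit 0)) T5.l5
  (TrL.c (I.pos (nat_lit 0) (nat_lit 0)) T0.l4
  (TrL.c (I.pos (nat_lit 0) (nat_lit 0)) T5.l6
  TrL.n))) (by decide +kernel)
theorem bx2_2 : BoxOK sI cl5 cl4 cl13 t0 t5 b2_2 :=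
  box_mk (TrL.c (I.pos (nat_lit 0) (nat_lit 0)) (xb (xa T0.l5 T0.l6) T0.l6)
  (TrL.c (I.pos (nat_lit 0) (nat_lit 0)) T5.l1
  (TrL.c (I.pos (nat_lit 0) (nat_lit 0)) T0.l1
  (TrL.c (I.pos (nat_lit 0) (nat_lit 0)) T5.l2
  (TrL.c (I.pos (nat_lit 0) (nat_lit 0)) T5.l8
  (TrL.c (I.pos (nat_lit 0) (nat_lit 0)) T0.l2
  (TrL.c (I.pos (nat_lit 0) (nat_lit 0)) T5.l4
  (TrL.c (I.pos (nat_lit 0) (nat_lit 0)) T0.l3
  TrL.n)))))))) (by decide +kernel)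
theorem bx2_3 : BoxOK sI cl5 cl4 cl13 t0 t5 b2_3 :=
  box_mk (TrL.c (I.pos (nat_lit 0) (nat_lit 0)) (xa (xb (xa (xb T0.l6 T0.l6) T0.l6) (xa T0.l6 T0.l6)) (xb (xa T0.l6 T0.l6) T0.l6))
  (TrL.c (I.pos (nat_lit 0) (nat_lit 0)) T5.l1
  (TrL.c (I.pos (nat_lit 0) (nat_lit 0)) T0.l1
  (TrL.c (I.pos (nat_lit 0) (nat_lit 0)) T5.l2
  (TrL.c (I.pos (nat_lit 0) (nat_lit 0)) (xa T5.l8 T5.l8)
  (TrL.c (I.pos (nat_lit 0) (nat_lit 0)) T0.l2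
  (TrL.c (I.pos (nat_lit 0) (nat_lit 0)) T5.l4
  (TrL.c (I.pos (nat_lit 0) (nat_lit 0)) T0.l3
  TrL.n)))))))) (by decide +kernel)
theorem bx2_4 : BoxOK sI cl5 cl4 cl13 t0 t5 b2_4 :=
  box_mk (TrL.c (I.pos (nat_lit 0) (nat_lit 0)) (xb (xa (xb T0.l6 T0.l6) (xb (xa T0.l6 T0.l6) (xa T0.l6 T0.l6))) (xa (xb (xa T0.l6 T0.l6) (xa T0.l6 T0.l6)) (xb (xa T0.l6 T0.l6) (xa T0.l6 T0.l6))))
  (TrL.c (I.pos (nat_lit 0) (nat_lit 0)) (xb (xa T5.l1 T5.l1) (xa T5.l1 T5.l1))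
  (TrL.c (I.pos (nat_lit 0) (nat_lit 0)) T0.l1
  (TrL.c (I.pos (nat_lit 0) (nat_lit 0)) T5.l2
  (TrL.c (I.pos (nat_lit 0) (nat_lit 0)) (xb (xa T5.l8 T5.l8) (xa T5.l8 T5.l8))
  (TrL.c (I.pos (nat_lit 0) (nat_lit 0)) (xb T0.l2 T0.l2)
  (TrL.c (I.pos (nat_lit 0) (nat_lit 0)) T5.l4
  (TrL.c (I.pos (nat_lit 0) (nat_lit 0)) T0.l3
  TrL.n)))))))) (by decide +kernel)
theorem bx2_5 : BoxOK sI cl5 cl4 cl13 t0 t5 b2_5 :=
  box_mk (TrL.c (I.pos (nat_lit 0) (nat_lit 0)) T5.l1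
  (TrL.c (I.pos (nat_lit 0) (nat_lit 0)) T0.l1
  (TrL.c (I.pos (nat_lit 0) (nat_lit 0)) T5.l2
  TrL.n))) (by decide +kernel)
theorem bx2_6 : BoxOK sI cl5 cl4 cl13 t0 t5 b2_6 :=
  box_mk (TrL.c (I.pos (nat_lit 0) (nat_lit 0)) (xa (xb T0.l0 T0.l0) (xb T0.l0 T0.l0))
  (TrL.c (I.pos (nat_lit 0) (nat_lit 0)) (xa T5.l1 T5.l1)
  (TrL.c (I.pos (nat_lit 0) (nat_lit 0)) T0.l1
  (TrL.c (I.pos (nat_lit 0) (nat_lit 0)) T5.l11
  (TrL.c (I.pos (nat_lit 0) (nat_lit 0)) (xa T5.l3 (xb T5.l3 (xa T5.l3 T5.l3)))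
  (TrL.c (I.pos (nat_lit 0) (nat_lit 0)) T0.l2
  (TrL.c (I.pos (nat_lit 0) (nat_lit 0)) T5.l9
  (TrL.c (I.pos (nat_lit 0) (nat_lit 0)) T0.l3
  TrL.n)))))))) (by decide +kernel)
theorem bx2_7 : BoxOK sI cl5 cl4 cl13 t0 t5 b2_7 :=
  box_mk (TrL.c (I.pos (nat_lit 0) (nat_lit 0)) (xb T0.l5 T0.l5)
  (TrL.c (I.pos (nat_lit 0) (nat_lit 0)) T5.l1
  (TrL.c (I.pos (nat_lit 0) (nat_lit 0)) T0.l1
  (TrL.c (I.pos (nat_lit 0) (nat_lit 0)) T5.l2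
  (TrL.c (I.pos (nat_lit 0) (nat_lit 0)) T5.l8
  (TrL.c (I.pos (nat_lit 0) (nat_lit 0)) T0.l2
  (TrL.c (I.pos (nat_lit 0) (nat_lit 0)) T5.l4
  (TrL.c (I.pos (nat_lit 0) (nat_lit 0)) T0.l3
  TrL.n)))))))) (by decide +kernel)
theorem bx2_8 : BoxOK sI cl5 cl4 cl13 t0 t5 b2_8 :=
  box_mk (TrL.c (I.pos (nat_lit 0) (nat_lit 0)) T5.l5
  (TrL.c (I.pos (nat_lit 0) (nat_lit 0)) T0.l4
  (TrL.c (I.pos (nat_lit 0) (nat_lit 0)) T5.l6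
  TrL.n))) (by decide +kernel)
theorem bx2_9 : BoxOK sI cl5 cl4 cl13 t0 t5 b2_9 :=
  box_mk (TrL.c (I.pos (nat_lit 0) (nat_lit 0)) (xa (xb T0.l0 (xb T0.l0 T0.l0)) (xb T0.l0 T0.l0))
  (TrL.c (I.pos (nat_lit 0) (nat_lit 0)) T5.l1
  (TrL.c (I.pos (nat_lit 0) (nat_lit 0)) T0.l1
  (TrL.c (I.pos (nat_lit 0) (nat_lit 0)) T5.l2
  (TrL.c (I.pos (nat_lit 0) (nat_lit 0)) (xb T5.l3 T5.l3)
  (TrL.c (I.pos (nat_lit 0) (nat_lit 0)) T0.l2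
  (TrL.c (I.pos (nat_lit 0) (nat_lit 0)) T5.l4
  (TrL.c (I.pos (nat_lit 0) (nat_lit 0)) T0.l3
  TrL.n)))))))) (by decide +kernel)
theorem bx2_10 : BoxOK sI cl5 cl4 cl13 t0 t5 b2_10 :=
  box_mk (TrL.c (I.pos (nat_lit 0) (nat_lit 0)) (xb T0.l5 T0.l6)
  (TrL.c (I.pos (nat_lit 0) (nat_lit 0)) T5.l1
  (TrL.c (I.pos (nat_lit 0) (nat_lit 0)) T0.l1
  (TrL.c (I.pos (nat_lit 0) (nat_lit 0)) T5.l2
  (TrL.c (I.pos (nat_lit 0) (nat_lit 0)) T5.l8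
  (TrL.c (I.pos (nat_lit 0) (nat_lit 0)) T0.l2
  (TrL.c (I.pos (nat_lit 0) (nat_lit 0)) T5.l4
  (TrL.c (I.pos (nat_lit 0) (nat_lit 0)) T0.l3
  TrL.n)))))))) (by decide +kernel)
theorem sv2 : StarV sI cl5 cl4 cl13 t0 t5 t2 :=
  (bt_n (bt_n (bt_n (bt_b bx2_0) (bt_b bx2_1)) (bt_n (bt_b bx2_2) (bt_n (bt_b bx2_3) (bt_b bx2_4)))) (bt_n (bt_n (bt_b bx2_5) (bt_n (bt_b bx2_6) (bt_b bx2_7))) (bt_n (bt_b bx2_8) (bt_n (bt_b bx2_9) (bt_b bx2_10)))))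
def S2 : StarD := StarD.mk cl5 cl4 cl13 0 5 t2
theorem bx3_0 : BoxOK sI cl5 cl13 cl4 t5 t0 b3_0 :=
  box_mk (TrL.c (I.pos (nat_lit 0) (nat_lit 0)) (xa (xb (xa (xb T5.l0 T5.l0) T5.l0) (xa (xb T5.l0 T5.l0) (xb T5.l0 T5.l0))) (xa (xb T5.l0 (xb T5.l0 T5.l0)) (xb T5.l0 (xs T5.l0 T5.l0))))
  (TrL.c (I.pos (nat_lit 0) (nat_lit 0)) (xa (xb T0.l7 T0.l7) (xa T0.l7 T0.l7))
  (TrL.c (I.pos (nat_lit 0) (nat_lit 0)) T5.l9
  (TrL.c (I.pos (nat_lit 0) (nat_lit 0)) T0.l8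
  (TrL.c (I.pos (nat_lit 0) (nat_lit 0)) (xa T0.l9 (xb T0.l9 T0.l9))
  (TrL.c (I.pos (nat_lit 0) (nat_lit 0)) (xa T5.l10 T5.l10)
  (TrL.c (I.pos (nat_lit 0) (nat_lit 0)) T0.l10
  (TrL.c (I.pos (nat_lit 0) (nat_lit 0)) T5.l11
  TrL.n)))))))) (by decide +kernel)
theorem bx3_1 : BoxOK sI cl5 cl13 cl4 t5 t0 b3_1 :=
  box_mk (TrL.c (I.pos (nat_lit 0) (nat_lit 0)) (xa (xb (xa T5.l12 T5.l0) (xa T5.l12 T5.l12)) (xb T5.l0 T5.l0))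
  (TrL.c (I.pos (nat_lit 0) (nat_lit 0)) T0.l7
  (TrL.c (I.pos (nat_lit 0) (nat_lit 0)) T5.l9
  (TrL.c (I.pos (nat_lit 0) (nat_lit 0)) T0.l8
  (TrL.c (I.pos (nat_lit 0) (nat_lit 0)) (xa T0.l11 T0.l11)
  (TrL.c (I.pos (nat_lit 0) (nat_lit 0)) T5.l10
  (TrL.c (I.pos (nat_lit 0) (nat_lit 0)) T0.l10
  (TrL.c (I.pos (nat_lit 0) (nat_lit 0)) T5.l11
  TrL.n)))))))) (by decide +kernel)
theorem bx3_2 : BoxOK sI cl5 cl13 cl4 t5 t0 b3_2 :=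
  box_mk (TrL.c (I.pos (nat_lit 0) (nat_lit 0)) (xa T5.l12 T5.l12)
  (TrL.c (I.pos (nat_lit 0) (nat_lit 0)) (xa T0.l7 T0.l7)
  (TrL.c (I.pos (nat_lit 0) (nat_lit 0)) T5.l9
  (TrL.c (I.pos (nat_lit 0) (nat_lit 0)) T0.l8
  (TrL.c (I.pos (nat_lit 0) (nat_lit 0)) (xa T0.l11 T0.l11)
  (TrL.c (I.pos (nat_lit 0) (nat_lit 0)) T5.l10
  (TrL.c (I.pos (nat_lit 0) (nat_lit 0)) T0.l10
  (TrL.c (I.pos (nat_lit 0) (nat_lit 0)) T5.l11
  TrL.n)))))))) (by decide +kernel)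
theorem bx3_3 : BoxOK sI cl5 cl13 cl4 t5 t0 b3_3 :=
  box_mk (TrL.c (I.pos (nat_lit 0) (nat_lit 0)) (xb (xa (xb (xa T5.l13 T5.l13) (xa T5.l13 T5.l13)) (xb T5.l13 T5.l13)) (xa (xb (xa T5.l13 T5.l13) (xa T5.l13 T5.l13)) (xb (xa T5.l13 T5.l13) (xa T5.l13 T5.l13))))
  (TrL.c (I.pos (nat_lit 0) (nat_lit 0)) (xb (xa T0.l7 T0.l7) (xa T0.l7 T0.l7))
  (TrL.c (I.pos (nat_lit 0) (nat_lit 0)) T5.l9
  (TrL.c (I.pos (nat_lit 0) (nat_lit 0)) T0.l8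
  (TrL.c (I.pos (nat_lit 0) (nat_lit 0)) (xb T0.l12 (xb T0.l12 T0.l12))
  (TrL.c (I.pos (nat_lit 0) (nat_lit 0)) T5.l10
  (TrL.c (I.pos (nat_lit 0) (nat_lit 0)) T0.l10
  (TrL.c (I.pos (nat_lit 0) (nat_lit 0)) T5.l11
  TrL.n)))))))) (by decide +kernel)
theorem bx3_4 : BoxOK sI cl5 cl13 cl4 t5 t0 b3_4 :=
  box_mk (TrL.c (I.pos (nat_lit 0) (nat_lit 0)) (xa (xa (xb T5.l12 T5.l12) T5.l12) (xa (xb T5.l12 (xa T5.l12 T5.l12)) (xa T5.l12 (xb T5.l12 T5.l12))))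
  (TrL.c (I.pos (nat_lit 0) (nat_lit 0)) (xa (xa T0.l7 T0.l7) T0.l7)
  (TrL.c (I.pos (nat_lit 0) (nat_lit 0)) T5.l9
  (TrL.c (I.pos (nat_lit 0) (nat_lit 0)) T0.l8
  (TrL.c (I.pos (nat_lit 0) (nat_lit 0)) (xa T0.l11 T0.l11)
  (TrL.c (I.pos (nat_lit 0) (nat_lit 0)) (xa T5.l10 T5.l10)
  (TrL.c (I.pos (nat_lit 0) (nat_lit 0)) T0.l10
  (TrL.c (I.pos (nat_lit 0) (nat_lit 0)) T5.l11
  TrL.n)))))))) (by decide +kernel)
theorem bx3_5 : BoxOK sI cl5 cl13 cl4 t5 t0 b3_5 :=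
  box_mk (TrL.c (I.pos (nat_lit 0) (nat_lit 0)) (xb (xa (xb (xa T5.l13 T5.l13) T5.l13) (xb (xa T5.l13 T5.l13) T5.l13)) (xa (xb T5.l13 (xa T5.l13 T5.l13)) (xb T5.l13 T5.l13)))
  (TrL.c (I.pos (nat_lit 0) (nat_lit 0)) (xb T0.l7 T0.l7)
  (TrL.c (I.pos (nat_lit 0) (nat_lit 0)) T5.l9
  (TrL.c (I.pos (nat_lit 0) (nat_lit 0)) T0.l8
  (TrL.c (I.pos (nat_lit 0) (nat_lit 0)) (xb T0.l12 T0.l12)
  (TrL.c (I.pos (nat_lit 0) (nat_lit 0)) T5.l10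
  (TrL.c (I.pos (nat_lit 0) (nat_lit 0)) T0.l10
  (TrL.c (I.pos (nat_lit 0) (nat_lit 0)) T5.l11
  TrL.n)))))))) (by decide +kernel)
theorem bx3_6 : BoxOK sI cl5 cl13 cl4 t5 t0 b3_6 :=
  box_mk (TrL.c (I.pos (nat_lit 0) (nat_lit 0)) (xa T5.l12 T5.l12)
  (TrL.c (I.pos (nat_lit 0) (nat_lit 0)) (xa T0.l7 T0.l7)
  (TrL.c (I.pos (nat_lit 0) (nat_lit 0)) T5.l9
  (TrL.c (I.pos (nat_lit 0) (nat_lit 0)) T0.l8
  (TrL.c (I.pos (nat_lit 0) (nat_lit 0)) (xa T0.l11 T0.l11)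
  (TrL.c (I.pos (nat_lit 0) (nat_lit 0)) T5.l10
  (TrL.c (I.pos (nat_lit 0) (nat_lit 0)) T0.l10
  (TrL.c (I.pos (nat_lit 0) (nat_lit 0)) T5.l11
  TrL.n)))))))) (by decide +kernel)
theorem bx3_7 : BoxOK sI cl5 cl13 cl4 t5 t0 b3_7 :=
  box_mk (TrL.c (I.pos (nat_lit 0) (nat_lit 0)) (xa T5.l0 T5.l0)
  (TrL.c (I.pos (nat_lit 0) (nat_lit 0)) T0.l7
  (TrL.c (I.pos (nat_lit 0) (nat_lit 0)) T5.l9
  (TrL.c (I.pos (nat_lit 0) (nat_lit 0)) T0.l8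
  (TrL.c (I.pos (nat_lit 0) (nat_lit 0)) T0.l11
  (TrL.c (I.pos (nat_lit 0) (nat_lit 0)) T5.l10
  (TrL.c (I.pos (nat_lit 0) (nat_lit 0)) T0.l10
  (TrL.c (I.pos (nat_lit 0) (nat_lit 0)) T5.l11
  TrL.n)))))))) (by decide +kernel)
theorem bx3_8 : BoxOK sI cl5 cl13 cl4 t5 t0 b3_8 :=
  box_mk (TrL.c (I.pos (nat_lit 0) (nat_lit 0)) T5.l0
  (TrL.c (I.pos (nat_lit 0) (nat_lit 0)) T0.l7
  (TrL.c (I.pos (nat_lit 0) (nat_lit 0)) T5.l9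
  (TrL.c (I.pos (nat_lit 0) (nat_lit 0)) T0.l8
  (TrL.c (I.pos (nat_lit 0) (nat_lit 0)) T0.l12
  (TrL.c (I.pos (nat_lit 0) (nat_lit 0)) T5.l10
  (TrL.c (I.pos (nat_lit 0) (nat_lit 0)) T0.l10
  (TrL.c (I.pos (nat_lit 0) (nat_lit 0)) T5.l11
  TrL.n)))))))) (by decide +kernel)
theorem bx3_9 : BoxOK sI cl5 cl13 cl4 t5 t0 b3_9 :=
  box_mk (TrL.c (I.pos (nat_lit 0) (nat_lit 0)) (xa T5.l12 (xa T5.l12 T5.l12))
  (TrL.c (I.pos (nat_lit 0) (nat_lit 0)) (xa T0.l7 T0.l7)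
  (TrL.c (I.pos (nat_lit 0) (nat_lit 0)) T5.l9
  (TrL.c (I.pos (nat_lit 0) (nat_lit 0)) T0.l8
  (TrL.c (I.pos (nat_lit 0) (nat_lit 0)) T0.l11
  (TrL.c (I.pos (nat_lit 0) (nat_lit 0)) T5.l10
  (TrL.c (I.pos (nat_lit 0) (nat_lit 0)) T0.l10
  (TrL.c (I.pos (nat_lit 0) (nat_lit 0)) T5.l11
  TrL.n)))))))) (by decide +kernel)
theorem bx3_10 : BoxOK sI cl5 cl13 cl4 t5 t0 b3_10 :=
  box_mk (TrL.c (I.pos (nat_lit 0) (nat_lit 0)) (xb (xa T5.l12 T5.l0) (xa T5.l12 (xb T5.l12 T5.l12)))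
  (TrL.c (I.pos (nat_lit 0) (nat_lit 0)) T0.l7
  (TrL.c (I.pos (nat_lit 0) (nat_lit 0)) T5.l9
  (TrL.c (I.pos (nat_lit 0) (nat_lit 0)) T0.l8
  (TrL.c (I.pos (nat_lit 0) (nat_lit 0)) T0.l11
  (TrL.c (I.pos (nat_lit 0) (nat_lit 0)) T5.l10
  (TrL.c (I.pos (nat_lit 0) (nat_lit 0)) T0.l10
  (TrL.c (I.pos (nat_lit 0) (nat_lit 0)) T5.l11
  TrL.n)))))))) (by decide +kernel)
theorem bx3_11 : BoxOK sI cl5 cl13 cl4 t5 t0 b3_11 :=
  box_mk (TrL.c (I.pos (nat_lit 0) (nat_lit 0)) (xa (xa T5.l12 T5.l12) T5.l12)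
  (TrL.c (I.pos (nat_lit 0) (nat_lit 0)) (xa T0.l7 T0.l7)
  (TrL.c (I.pos (nat_lit 0) (nat_lit 0)) T5.l9
  (TrL.c (I.pos (nat_lit 0) (nat_lit 0)) T0.l8
  (TrL.c (I.pos (nat_lit 0) (nat_lit 0)) (xa T0.l11 T0.l11)
  (TrL.c (I.pos (nat_lit 0) (nat_lit 0)) T5.l10
  (TrL.c (I.pos (nat_lit 0) (nat_lit 0)) T0.l10
  (TrL.c (I.pos (nat_lit 0) (nat_lit 0)) T5.l11
  TrL.n)))))))) (by decide +kernel)
theorem bx3_12 : BoxOK sI cl5 cl13 cl4 t5 t0 b3_12 :=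
  box_mk (TrL.c (I.pos (nat_lit 0) (nat_lit 0)) (xa (xb T5.l0 T5.l0) (xa (xb T5.l0 (xs T5.l0 T5.l0)) (xb T5.l3 (xs T5.l3 T5.l3))))
  (TrL.c (I.pos (nat_lit 0) (nat_lit 0)) (xa T0.l7 (xb T0.l7 T0.l7))
  (TrL.c (I.pos (nat_lit 0) (nat_lit 0)) T5.l9
  (TrL.c (I.pos (nat_lit 0) (nat_lit 0)) T0.l8
  (TrL.c (I.pos (nat_lit 0) (nat_lit 0)) (xa T0.l9 (xb T0.l9 (xa T0.l9 T0.l9)))
  (TrL.c (I.pos (nat_lit 0) (nat_lit 0)) (xa T5.l10 T5.l1)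
  (TrL.c (I.pos (nat_lit 0) (nat_lit 0)) T0.l10
  (TrL.c (I.pos (nat_lit 0) (nat_lit 0)) T5.l11
  TrL.n)))))))) (by decide +kernel)
theorem bx3_13 : BoxOK sI cl5 cl13 cl4 t5 t0 b3_13 :=
  box_mk (TrL.c (I.pos (nat_lit 0) (nat_lit 0)) T5.l12
  (TrL.c (I.pos (nat_lit 0) (nat_lit 0)) T0.l7
  (TrL.c (I.pos (nat_lit 0) (nat_lit 0)) T5.l9
  (TrL.c (I.pos (nat_lit 0) (nat_lit 0)) T0.l8
  (TrL.c (I.pos (nat_lit 0) (nat_lit 0)) T0.l11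
  (TrL.c (I.pos (nat_lit 0) (nat_lit 0)) T5.l10
  (TrL.c (I.pos (nat_lit 0) (nat_lit 0)) T0.l10
  (TrL.c (I.pos (nat_lit 0) (nat_lit 0)) T5.l11
  TrL.n)))))))) (by decide +kernel)
theorem bx3_14 : BoxOK sI cl5 cl13 cl4 t5 t0 b3_14 :=
  box_mk (TrL.c (I.pos (nat_lit 0) (nat_lit 0)) (xa (xb T5.l0 (xa T5.l0 T5.l0)) (xb T5.l0 (xa T5.l0 T5.l0)))
  (TrL.c (I.pos (nat_lit 0) (nat_lit 0)) (xa T0.l7 T0.l7)
  (TrL.c (I.pos (nat_lit 0) (nat_lit 0)) T5.l9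
  (TrL.c (I.pos (nat_lit 0) (nat_lit 0)) T0.l8
  (TrL.c (I.pos (nat_lit 0) (nat_lit 0)) T0.l9
  (TrL.c (I.pos (nat_lit 0) (nat_lit 0)) T5.l10
  (TrL.c (I.pos (nat_lit 0) (nat_lit 0)) T0.l10
  (TrL.c (I.pos (nat_lit 0) (nat_lit 0)) T5.l11
  TrL.n)))))))) (by decide +kernel)
theorem bx3_15 : BoxOK sI cl5 cl13 cl4 t5 t0 b3_15 :=
  box_mk (TrL.c (I.pos (nat_lit 0) (nat_lit 0)) T5.l12
  (TrL.c (I.pos (nat_lit 0) (nat_lit 0)) T0.l7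
  (TrL.c (I.pos (nat_lit 0) (nat_lit 0)) T5.l9
  (TrL.c (I.pos (nat_lit 0) (nat_lit 0)) T0.l8
  (TrL.c (I.pos (nat_lit 0) (nat_lit 0)) T0.l11
  (TrL.c (I.pos (nat_lit 0) (nat_lit 0)) T5.l10
  (TrL.c (I.pos (nat_lit 0) (nat_lit 0)) T0.l10
  (TrL.c (I.pos (nat_lit 0) (nat_lit 0)) T5.l11
  TrL.n)))))))) (by decide +kernel)
theorem sv3 : StarV sI cl5 cl13 cl4 t5 t0 t3 :=
  (bt_n (bt_n (bt_n (bt_n (bt_b bx3_0) (bt_b bx3_1)) (bt_n (bt_b bx3_2) (bt_b bx3_3))) (bt_n (bt_n (bt_b bx3_4) (bt_b bx3_5)) (bt_n (bt_b bx3_6) (bt_b bx3_7)))) (bt_n (bt_n (bt_n (bt_b bx3_8) (bt_b bx3_9)) (bt_n (bt_b bx3_10) (bt_b bx3_11))) (bt_n (bt_n (bt_b bx3_12) (bt_b bx3_13)) (bt_n (bt_b bx3_14) (bt_b bx3_15)))))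
def S3 : StarD := StarD.mk cl5 cl13 cl4 5 0 t3
theorem bx4_0 : BoxOK sI cl13 cl4 cl5 t1 t3 b4_0 :=
  box_mk (TrL.c (I.pos (nat_lit 0) (nat_lit 0)) (xa (xb (xa T1.l0 T1.l0) (xa (xb T1.l0 T1.l0) (xb T1.l0 T1.l0))) (xb T1.l0 (xa (xb T1.l0 T1.l0) (xb T1.l0 T1.l0))))
  (TrL.c (I.pos (nat_lit 0) (nat_lit 0)) (xa (xb T3.l1 (xk T3.l1 T3.l1)) (xb T3.l1 (xk T3.l1 T3.l1)))
  (TrL.c (I.pos (nat_lit 0) (nat_lit 134217730)) (xR T1.l1 (xR T1.l1 (xR T1.l1 (xa T1.l1 T1.l1))))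
  (TrL.c (I.pos (nat_lit 0) (nat_lit 110514882)) (xR T3.l2 (xR T3.l2 T3.l2))
  (TrL.c (I.pos (nat_lit 0) (nat_lit 0)) (xa (xb T3.l5 (xb T3.l3 T3.l3)) (xb T3.l3 (xk (xb T3.l3 (xs T3.l3 T3.l3)) (xb T3.l3 (xs T3.l3 (xa T3.l3 T3.l3))))))
  (TrL.c (I.pos (nat_lit 0) (nat_lit 0)) T1.l2
  (TrL.c (I.mix (nat_lit 8088324) (nat_lit 110514882)) (xR T3.l4 (xR T3.l4 (xR T3.l4 T3.l4)))
  (TrL.c (I.mix (nat_lit 8088324) (nat_lit 89478486)) (xR T1.l3 (xR T1.l3 (xR T1.l3 T1.l3)))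
  TrL.n)))))))) (by decide +kernel)
theorem bx4_1 : BoxOK sI cl13 cl4 cl5 t1 t3 b4_1 :=
  box_mk (TrL.c (I.pos (nat_lit 0) (nat_lit 0)) (xa (xb (xa T1.l4 T1.l4) T1.l4) T1.l4)
  (TrL.c (I.pos (nat_lit 0) (nat_lit 0)) (xa T3.l1 T3.l1)
  (TrL.c (I.pos (nat_lit 0) (nat_lit 134217730)) (xR T1.l1 (xR T1.l1 T1.l11))
  (TrL.c (I.pos (nat_lit 0) (nat_lit 110514882)) (xR T3.l2 (xR T3.l4 (xR T3.l2 T3.l2)))
  (TrL.c (I.pos (nat_lit 0) (nat_lit 0)) (xa T3.l5 T3.l5)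
  (TrL.c (I.pos (nat_lit 0) (nat_lit 0)) T1.l2
  (TrL.c (I.mix (nat_lit 8088324) (nat_lit 110514882)) (xR T3.l4 T3.l4)
  (TrL.c (I.mix (nat_lit 8088324) (nat_lit 89478486)) T1.l11
  TrL.n)))))))) (by decide +kernel)
theorem bx4_2 : BoxOK sI cl13 cl4 cl5 t1 t3 b4_2 :=
  box_mk (TrL.c (I.pos (nat_lit 0) (nat_lit 0)) (xb (xa (xb T1.l4 T1.l4) (xb T1.l4 T1.l4)) (xa (xb T1.l4 (xa T1.l4 T1.l4)) (xb (xa T1.l4 T1.l4) (xa T1.l4 T1.l4))))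
  (TrL.c (I.pos (nat_lit 0) (nat_lit 0)) (xb (xa T3.l1 T3.l1) (xa T3.l1 (xk T3.l1 T3.l1)))
  (TrL.c (I.pos (nat_lit 0) (nat_lit 134217730)) (xR T1.l1 (xR T1.l1 (xb (xR T1.l1 T1.l1) (xR T1.l1 T1.l1))))
  (TrL.c (I.pos (nat_lit 0) (nat_lit 110514882)) (xR T3.l2 (xR T3.l2 (xR T3.l2 T3.l2)))
  (TrL.c (I.pos (nat_lit 0) (nat_lit 0)) (xb (xa T3.l5 (xb T3.l5 T3.l3)) (xa (xb T3.l5 (xk T3.l3 (xs T3.l3 T3.l3))) (xb (xk T3.l3 T3.l3) (xk (xs T3.l3 (xb T3.l3 (xa T3.l3 T3.l3))) (xs (xb T3.l3 T3.l3) (xb T3.l3 (xa T3.l3 (xk T3.l3 T3.l3))))))))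
  (TrL.c (I.pos (nat_lit 0) (nat_lit 0)) T1.l2
  (TrL.c (I.mix (nat_lit 8088324) (nat_lit 110514882)) (xR T3.l4 (xR T3.l4 (xR T3.l4 T3.l4)))
  (TrL.c (I.mix (nat_lit 8088324) (nat_lit 89478486)) (xR T1.l3 (xR T1.l3 (xR T1.l3 T1.l3)))
  TrL.n)))))))) (by decide +kernel)
theorem bx4_3 : BoxOK sI cl13 cl4 cl5 t1 t3 b4_3 :=
  box_mk (TrL.c (I.pos (nat_lit 0) (nat_lit 0)) (xa T3.l1 T3.l1)
  (TrL.c (I.pos (nat_lit 0) (nat_lit 0)) T1.l1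
  (TrL.c (I.mix (nat_lit 8088324) (nat_lit 110514882)) (xR T3.l6 (xR T3.l6 (xR T3.l6 T3.l6)))
  (TrL.c (I.mix (nat_lit 8088324) (nat_lit 89478486)) (xR T1.l11 T1.l1)
  TrL.n)))) (by decide +kernel)
theorem bx4_4 : BoxOK sI cl13 cl4 cl5 t1 t3 b4_4 :=
  box_mk (TrL.c (I.pos (nat_lit 0) (nat_lit 0)) T3.l7
  (TrL.c (I.pos (nat_lit 0) (nat_lit 0)) T1.l6
  (TrL.c (I.mix (nat_lit 8088324) (nat_lit 110514882)) (xR T3.l4 T3.l4)
  (TrL.c (I.mix (nat_lit 8088324) (nat_lit 89478486)) T1.l11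
  TrL.n)))) (by decide +kernel)
theorem bx4_5 : BoxOK sI cl13 cl4 cl5 t1 t3 b4_5 :=
  box_mk (TrL.c (I.pos (nat_lit 0) (nat_lit 0)) (xb T1.l7 T1.l4)
  (TrL.c (I.pos (nat_lit 0) (nat_lit 0)) T3.l7
  (TrL.c (I.pos (nat_lit 0) (nat_lit 134217730)) (xR T1.l1 T1.l1)
  (TrL.c (I.pos (nat_lit 0) (nat_lit 110514882)) T3.l4
  (TrL.c (I.pos (nat_lit 0) (nat_lit 0)) T3.l5
  (TrL.c (I.pos (nat_lit 0) (nat_lit 0)) T1.l2
  (TrL.c (I.mix (nat_lit 8088324) (nat_lit 110514882)) T3.l4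
  (TrL.c (I.mix (nat_lit 8088324) (nat_lit 89478486)) T1.l1
  TrL.n)))))))) (by decide +kernel)
theorem bx4_6 : BoxOK sI cl13 cl4 cl5 t1 t3 b4_6 :=
  box_mk (TrL.c (I.pos (nat_lit 0) (nat_lit 0)) (xa (xb T1.l0 T1.l0) (xb T1.l0 T1.l0))
  (TrL.c (I.pos (nat_lit 0) (nat_lit 0)) (xa T3.l1 (xk (xb T3.l1 T3.l10) (xb T3.l1 T3.l1)))
  (TrL.c (I.pos (nat_lit 0) (nat_lit 134217730)) (xR T1.l1 T1.l11)
  (TrL.c (I.pos (nat_lit 0) (nat_lit 110514882)) (xR T3.l2 (xR T3.l2 (xR T3.l2 T3.l2)))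
  (TrL.c (I.pos (nat_lit 0) (nat_lit 0)) (xa (xb (xk T3.l3 T3.l3) T3.l3) (xb (xk (xa T3.l3 T3.l3) (xa T3.l3 T3.l3)) (xk (xa T3.l3 T3.l3) (xa T3.l3 T3.l3))))
  (TrL.c (I.pos (nat_lit 0) (nat_lit 0)) (xk (xa T1.l2 T1.l2) T1.l2)
  (TrL.c (I.mix (nat_lit 8088324) (nat_lit 110514882)) (xR T3.l4 (xR T3.l4 (xR T3.l4 (xk T3.l4 T3.l4))))
  (TrL.c (I.mix (nat_lit 8088324) (nat_lit 89478486)) (xR T1.l3 (xR T1.l3 (xR T1.l3 T1.l3)))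
  TrL.n)))))))) (by decide +kernel)
theorem bx4_7 : BoxOK sI cl13 cl4 cl5 t1 t3 b4_7 :=
  box_mk (TrL.c (I.pos (nat_lit 0) (nat_lit 0)) (xb T1.l7 T1.l7)
  (TrL.c (I.pos (nat_lit 0) (nat_lit 0)) T3.l7
  (TrL.c (I.pos (nat_lit 0) (nat_lit 134217730)) T1.l1
  (TrL.c (I.pos (nat_lit 0) (nat_lit 110514882)) T3.l4
  (TrL.c (I.pos (nat_lit 0) (nat_lit 0)) T3.l8
  (TrL.c (I.pos (nat_lit 0) (nat_lit 0)) T1.l2
  (TrL.c (I.mix (nat_lit 8088324) (nat_lit 110514882)) T3.l4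
  (TrL.c (I.mix (nat_lit 8088324) (nat_lit 89478486)) T1.l1
  TrL.n)))))))) (by decide +kernel)
theorem bx4_8 : BoxOK sI cl13 cl4 cl5 t1 t3 b4_8 :=
  box_mk (TrL.c (I.pos (nat_lit 0) (nat_lit 0)) (xa (xb T1.l0 T1.l0) (xb T1.l0 T1.l0))
  (TrL.c (I.pos (nat_lit 0) (nat_lit 0)) (xk T3.l1 T3.l1)
  (TrL.c (I.pos (nat_lit 0) (nat_lit 134217730)) (xR T1.l1 (xR T1.l1 T1.l1))
  (TrL.c (I.pos (nat_lit 0) (nat_lit 110514882)) (xR T3.l2 T3.l2)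
  (TrL.c (I.pos (nat_lit 0) (nat_lit 0)) (xk (xb T3.l3 (xa T3.l3 (xs T3.l3 (xb T3.l0 T3.l0)))) (xb T3.l3 (xa (xs T3.l3 T3.l3) (xs (xb T3.l0 T3.l0) (xb T3.l0 T3.l0)))))
  (TrL.c (I.pos (nat_lit 0) (nat_lit 0)) T1.l2
  (TrL.c (I.mix (nat_lit 8088324) (nat_lit 110514882)) (xR T3.l4 T3.l4)
  (TrL.c (I.mix (nat_lit 8088324) (nat_lit 89478486)) T1.l3
  TrL.n)))))))) (by decide +kernel)
theorem bx4_9 : BoxOK sI cl13 cl4 cl5 t1 t3 b4_9 :=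
  box_mk (TrL.c (I.pos (nat_lit 0) (nat_lit 0)) T1.l4
  (TrL.c (I.pos (nat_lit 0) (nat_lit 0)) T3.l7
  (TrL.c (I.pos (nat_lit 0) (nat_lit 134217730)) T1.l11
  (TrL.c (I.pos (nat_lit 0) (nat_lit 110514882)) T3.l4
  (TrL.c (I.pos (nat_lit 0) (nat_lit 0)) T3.l5
  (TrL.c (I.pos (nat_lit 0) (nat_lit 0)) T1.l2
  (TrL.c (I.mix (nat_lit 8088324) (nat_lit 110514882)) T3.l4
  (TrL.c (I.mix (nat_lit 8088324) (nat_lit 89478486)) T1.l1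
  TrL.n)))))))) (by decide +kernel)
theorem bx4_10 : BoxOK sI cl13 cl4 cl5 t1 t3 b4_10 :=
  box_mk (TrL.c (I.pos (nat_lit 0) (nat_lit 0)) T1.l4
  (TrL.c (I.pos (nat_lit 0) (nat_lit 0)) T3.l1
  (TrL.c (I.pos (nat_lit 0) (nat_lit 134217730)) T1.l11
  (TrL.c (I.pos (nat_lit 0) (nat_lit 110514882)) T3.l6
  (TrL.c (I.pos (nat_lit 0) (nat_lit 0)) T3.l5
  (TrL.c (I.pos (nat_lit 0) (nat_lit 0)) T1.l2
  (TrL.c (I.mix (nat_lit 8088324) (nat_lit 110514882)) T3.l4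
  (TrL.c (I.mix (nat_lit 8088324) (nat_lit 89478486)) T1.l3
  TrL.n)))))))) (by decide +kernel)
theorem sv4 : StarV sI cl13 cl4 cl5 t1 t3 t4 :=
  (bt_n (bt_n (bt_n (bt_b bx4_0) (bt_b bx4_1)) (bt_n (bt_b bx4_2) (bt_n (bt_b bx4_3) (bt_b bx4_4)))) (bt_n (bt_n (bt_b bx4_5) (bt_n (bt_b bx4_6) (bt_b bx4_7))) (bt_n (bt_b bx4_8) (bt_n (bt_b bx4_9) (bt_b bx4_10)))))
def S4 : StarD := StarD.mk cl13 cl4 cl5 1 3 t4
theorem bx5_0 : BoxOK sI cl13 cl5 cl4 t3 t1 b5_0 :=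
  box_mk (TrL.c (I.pos (nat_lit 0) (nat_lit 0)) (xa (xb (xa (xb T3.l0 T3.l0) T3.l0) (xa (xb T3.l0 T3.l0) (xb T3.l0 T3.l0))) (xb (xa T3.l0 T3.l0) (xa (xb T3.l0 T3.l0) (xb T3.l0 T3.l0))))
  (TrL.c (I.pos (nat_lit 0) (nat_lit 0)) (xa (xk T1.l8 T1.l8) (xk (xb T1.l8 T1.l8) T1.l8))
  (TrL.c (I.pos (nat_lit 0) (nat_lit 134217730)) (xR T3.l4 (xR T3.l9 (xR T3.l9 (xa T3.l9 T3.l4))))
  (TrL.c (I.pos (nat_lit 0) (nat_lit 110514882)) (xR T1.l3 (xR T1.l9 (xR T1.l9 T1.l9)))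
  (TrL.c (I.pos (nat_lit 0) (nat_lit 0)) (xa (xk (xb T1.l15 T1.l10) (xb T1.l15 (xb T1.l10 T1.l10))) (xk (xb T1.l10 (xb T1.l10 (xa (xs T1.l10 T1.l10) (xs T1.l10 (xk T1.l10 (xb T1.l10 T1.l10)))))) (xb T1.l10 (xb (xa T1.l10 T1.l10) (xa (xs T1.l10 (xb T1.l10 T1.l10)) (xs (xk T1.l10 T1.l10) (xb (xk T1.l10 T1.l10) (xk (xa T1.l10 T1.l10) (xa T1.l10 (xs T1.l10 T1.l10))))))))))
  (TrL.c (I.pos (nat_lit 0) (nat_lit 0)) T3.l10
  (TrL.c (I.mix (nat_lit 8088324) (nat_lit 110514882)) (xR T1.l11 (xR T1.l11 (xR T1.l11 T1.l11)))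
  (TrL.c (I.mix (nat_lit 8088324) (nat_lit 89478486)) (xR T3.l11 (xR T3.l11 (xR T3.l11 T3.l2)))
  TrL.n)))))))) (by decide +kernel)
theorem bx5_1 : BoxOK sI cl13 cl5 cl4 t3 t1 b5_1 :=
  box_mk (TrL.c (I.pos (nat_lit 0) (nat_lit 0)) (xa (xb T3.l12 T3.l12) (xb T3.l0 (xa T3.l12 T3.l12)))
  (TrL.c (I.pos (nat_lit 0) (nat_lit 0)) (xa T1.l8 T1.l8)
  (TrL.c (I.pos (nat_lit 0) (nat_lit 134217730)) (xR T3.l4 T3.l4)
  (TrL.c (I.pos (nat_lit 0) (nat_lit 110514882)) (xR T1.l1 (xR T1.l9 (xR T1.l9 T1.l9)))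
  (TrL.c (I.pos (nat_lit 0) (nat_lit 0)) (xa T1.l12 T1.l12)
  (TrL.c (I.pos (nat_lit 0) (nat_lit 0)) T3.l10
  (TrL.c (I.mix (nat_lit 8088324) (nat_lit 110514882)) (xR T1.l11 T1.l11)
  (TrL.c (I.mix (nat_lit 8088324) (nat_lit 89478486)) T3.l2
  TrL.n)))))))) (by decide +kernel)
theorem bx5_2 : BoxOK sI cl13 cl5 cl4 t3 t1 b5_2 :=
  box_mk (TrL.c (I.pos (nat_lit 0) (nat_lit 0)) T1.l8
  (TrL.c (I.pos (nat_lit 0) (nat_lit 0)) T3.l9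
  (TrL.c (I.mix (nat_lit 8088324) (nat_lit 110514882)) (xR T1.l1 T1.l9)
  (TrL.c (I.mix (nat_lit 8088324) (nat_lit 89478486)) T3.l4
  TrL.n)))) (by decide +kernel)
theorem bx5_3 : BoxOK sI cl13 cl5 cl4 t3 t1 b5_3 :=
  box_mk (TrL.c (I.pos (nat_lit 0) (nat_lit 0)) (xa (xb (xb T3.l14 T3.l14) (xa (xb T3.l14 T3.l14) (xb T3.l14 T3.l14))) (xb (xb T3.l14 T3.l14) (xa (xb T3.l14 T3.l14) (xb T3.l14 T3.l14))))
  (TrL.c (I.pos (nat_lit 0) (nat_lit 0)) (xk (xb T1.l8 T1.l8) T1.l8)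
  (TrL.c (I.pos (nat_lit 0) (nat_lit 134217730)) (xR T3.l4 (xR T3.l9 (xR T3.l9 T3.l4)))
  (TrL.c (I.pos (nat_lit 0) (nat_lit 110514882)) (xR T1.l3 (xR T1.l9 (xR T1.l9 T1.l9)))
  (TrL.c (I.pos (nat_lit 0) (nat_lit 0)) T1.l15
  (TrL.c (I.pos (nat_lit 0) (nat_lit 0)) T3.l10
  (TrL.c (I.mix (nat_lit 8088324) (nat_lit 110514882)) (xR T1.l11 (xR T1.l11 (xR T1.l11 T1.l11)))
  (TrL.c (I.mix (nat_lit 8088324) (nat_lit 89478486)) (xR T3.l11 T3.l2)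
  TrL.n)))))))) (by decide +kernel)
theorem bx5_4 : BoxOK sI cl13 cl5 cl4 t3 t1 b5_4 :=
  box_mk (TrL.c (I.pos (nat_lit 0) (nat_lit 0)) T3.l12
  (TrL.c (I.pos (nat_lit 0) (nat_lit 0)) T1.l8
  (TrL.c (I.pos (nat_lit 0) (nat_lit 134217730)) (xR T3.l4 T3.l9)
  (TrL.c (I.pos (nat_lit 0) (nat_lit 110514882)) (xR T1.l1 T1.l9)
  (TrL.c (I.pos (nat_lit 0) (nat_lit 0)) T1.l12
  (TrL.c (I.pos (nat_lit 0) (nat_lit 0)) T3.l10
  (TrL.c (I.mix (nat_lit 8088324) (nat_lit 110514882)) T1.l11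
  (TrL.c (I.mix (nat_lit 8088324) (nat_lit 89478486)) T3.l11
  TrL.n)))))))) (by decide +kernel)
theorem bx5_5 : BoxOK sI cl13 cl5 cl4 t3 t1 b5_5 :=
  box_mk (TrL.c (I.pos (nat_lit 0) (nat_lit 0)) T3.l12
  (TrL.c (I.pos (nat_lit 0) (nat_lit 0)) T1.l8
  (TrL.c (I.pos (nat_lit 0) (nat_lit 134217730)) (xR T3.l4 T3.l9)
  (TrL.c (I.pos (nat_lit 0) (nat_lit 110514882)) (xR T1.l1 (xR T1.l9 T1.l9))
  (TrL.c (I.pos (nat_lit 0) (nat_lit 0)) T1.l12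
  (TrL.c (I.pos (nat_lit 0) (nat_lit 0)) T3.l10
  (TrL.c (I.mix (nat_lit 8088324) (nat_lit 110514882)) (xR T1.l11 T1.l11)
  (TrL.c (I.mix (nat_lit 8088324) (nat_lit 89478486)) T3.l2
  TrL.n)))))))) (by decide +kernel)
theorem bx5_6 : BoxOK sI cl13 cl5 cl4 t3 t1 b5_6 :=
  box_mk (TrL.c (I.pos (nat_lit 0) (nat_lit 0)) T1.l13
  (TrL.c (I.pos (nat_lit 0) (nat_lit 0)) T3.l13
  (TrL.c (I.mix (nat_lit 8088324) (nat_lit 110514882)) T1.l11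
  (TrL.c (I.mix (nat_lit 8088324) (nat_lit 89478486)) T3.l4
  TrL.n)))) (by decide +kernel)
theorem bx5_7 : BoxOK sI cl13 cl5 cl4 t3 t1 b5_7 :=
  box_mk (TrL.c (I.pos (nat_lit 0) (nat_lit 0)) T3.l14
  (TrL.c (I.pos (nat_lit 0) (nat_lit 0)) T1.l8
  (TrL.c (I.pos (nat_lit 0) (nat_lit 134217730)) (xR T3.l4 T3.l9)
  (TrL.c (I.pos (nat_lit 0) (nat_lit 110514882)) (xR T1.l3 (xR T1.l9 T1.l9))
  (TrL.c (I.pos (nat_lit 0) (nat_lit 0)) T1.l15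
  (TrL.c (I.pos (nat_lit 0) (nat_lit 0)) T3.l10
  (TrL.c (I.mix (nat_lit 8088324) (nat_lit 110514882)) (xR T1.l11 T1.l11)
  (TrL.c (I.mix (nat_lit 8088324) (nat_lit 89478486)) T3.l2
  TrL.n)))))))) (by decide +kernel)
theorem bx5_8 : BoxOK sI cl13 cl5 cl4 t3 t1 b5_8 :=
  box_mk (TrL.c (I.pos (nat_lit 0) (nat_lit 0)) (xb (xa (xb (xs T3.l14 (xa T3.l14 T3.l14)) T3.l14) (xb (xs T3.l14 (xa T3.l14 T3.l14)) T3.l14)) (xa (xb T3.l14 (xa T3.l14 T3.l14)) (xb T3.l14 (xa T3.l14 T3.l14))))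
  (TrL.c (I.pos (nat_lit 0) (nat_lit 0)) (xb T1.l8 (xk T1.l8 T1.l8))
  (TrL.c (I.pos (nat_lit 0) (nat_lit 134217730)) (xR T3.l4 (xR T3.l9 T3.l4))
  (TrL.c (I.pos (nat_lit 0) (nat_lit 110514882)) (xR T1.l3 (xR T1.l9 (xR T1.l9 T1.l9)))
  (TrL.c (I.pos (nat_lit 0) (nat_lit 0)) (xb T1.l15 (xb T1.l15 T1.l15))
  (TrL.c (I.pos (nat_lit 0) (nat_lit 0)) T3.l10
  (TrL.c (I.mix (nat_lit 8088324) (nat_lit 110514882)) (xR T1.l11 (xR T1.l11 (xR T1.l11 T1.l11)))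
  (TrL.c (I.mix (nat_lit 8088324) (nat_lit 89478486)) T3.l2
  TrL.n)))))))) (by decide +kernel)
theorem bx5_9 : BoxOK sI cl13 cl5 cl4 t3 t1 b5_9 :=
  box_mk (TrL.c (I.pos (nat_lit 0) (nat_lit 0)) (xa T3.l12 (xb T3.l12 T3.l12))
  (TrL.c (I.pos (nat_lit 0) (nat_lit 0)) T1.l8
  (TrL.c (I.pos (nat_lit 0) (nat_lit 134217730)) (xR T3.l4 T3.l9)
  (TrL.c (I.pos (nat_lit 0) (nat_lit 110514882)) (xR T1.l1 T1.l9)
  (TrL.c (I.pos (nat_lit 0) (nat_lit 0)) T1.l12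
  (TrL.c (I.pos (nat_lit 0) (nat_lit 0)) T3.l10
  (TrL.c (I.mix (nat_lit 8088324) (nat_lit 110514882)) T1.l11
  (TrL.c (I.mix (nat_lit 8088324) (nat_lit 89478486)) T3.l11
  TrL.n)))))))) (by decide +kernel)
theorem bx5_10 : BoxOK sI cl13 cl5 cl4 t3 t1 b5_10 :=
  box_mk (TrL.c (I.pos (nat_lit 0) (nat_lit 0)) (xb (xa T3.l12 T3.l12) T3.l12)
  (TrL.c (I.pos (nat_lit 0) (nat_lit 0)) (xb T1.l8 T1.l8)
  (TrL.c (I.pos (nat_lit 0) (nat_lit 134217730)) (xR T3.l4 T3.l9)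
  (TrL.c (I.pos (nat_lit 0) (nat_lit 110514882)) (xR T1.l1 (xR T1.l3 (xR T1.l9 T1.l9)))
  (TrL.c (I.pos (nat_lit 0) (nat_lit 0)) (xb T1.l12 T1.l12)
  (TrL.c (I.pos (nat_lit 0) (nat_lit 0)) T3.l10
  (TrL.c (I.mix (nat_lit 8088324) (nat_lit 110514882)) (xR T1.l11 T1.l11)
  (TrL.c (I.mix (nat_lit 8088324) (nat_lit 89478486)) T3.l2
  TrL.n)))))))) (by decide +kernel)
theorem bx5_11 : BoxOK sI cl13 cl5 cl4 t3 t1 b5_11 :=
  box_mk (TrL.c (I.pos (nat_lit 0) (nat_lit 0)) T1.l8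
  (TrL.c (I.pos (nat_lit 0) (nat_lit 0)) T3.l9
  (TrL.c (I.mix (nat_lit 8088324) (nat_lit 110514882)) (xR T1.l1 T1.l9)
  (TrL.c (I.mix (nat_lit 8088324) (nat_lit 89478486)) T3.l4
  TrL.n)))) (by decide +kernel)
theorem bx5_12 : BoxOK sI cl13 cl5 cl4 t3 t1 b5_12 :=
  box_mk (TrL.c (I.pos (nat_lit 0) (nat_lit 0)) (xa (xb T3.l0 (xa T3.l0 T3.l0)) (xb T3.l0 (xa T3.l0 T3.l0)))
  (TrL.c (I.pos (nat_lit 0) (nat_lit 0)) (xa (xk (xb T1.l8 T1.l8) T1.l8) (xk (xb T1.l2 (xa T1.l8 T1.l2)) (xb T1.l8 T1.l8)))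
  (TrL.c (I.pos (nat_lit 0) (nat_lit 134217730)) (xR T3.l4 T3.l4)
  (TrL.c (I.pos (nat_lit 0) (nat_lit 110514882)) (xR (xR T1.l3 T1.l3) (xR (xR T1.l9 T1.l9) (xR T1.l9 (xa T1.l9 T1.l9))))
  (TrL.c (I.pos (nat_lit 0) (nat_lit 0)) (xa (xb (xk T1.l10 T1.l10) (xk T1.l10 T1.l10)) (xb (xk (xa T1.l10 T1.l10) (xa T1.l10 T1.l10)) (xk (xa T1.l10 T1.l10) (xa T1.l10 T1.l10))))
  (TrL.c (I.pos (nat_lit 0) (nat_lit 0)) (xk (xa T3.l10 T3.l10) (xa T3.l10 T3.l10))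
  (TrL.c (I.mix (nat_lit 8088324) (nat_lit 110514882)) (xR T1.l11 (xR T1.l11 (xR T1.l11 (xk T1.l11 T1.l11))))
  (TrL.c (I.mix (nat_lit 8088324) (nat_lit 89478486)) (xR T3.l11 (xR T3.l11 (xR T3.l11 T3.l11)))
  TrL.n)))))))) (by decide +kernel)
theorem bx5_13 : BoxOK sI cl13 cl5 cl4 t3 t1 b5_13 :=
  box_mk (TrL.c (I.pos (nat_lit 0) (nat_lit 0)) (xa (xb (xa T3.l0 T3.l0) (xa (xs T3.l0 T3.l0) (xs T3.l0 T3.l0))) (xb (xa (xb T3.l0 T3.l0) (xs T3.l0 T3.l0)) (xa (xs T3.l0 T3.l0) (xs T3.l0 T3.l0))))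
  (TrL.c (I.pos (nat_lit 0) (nat_lit 0)) (xk (xa T1.l8 T1.l8) (xa T1.l8 T1.l8))
  (TrL.c (I.pos (nat_lit 0) (nat_lit 134217730)) (xR T3.l4 (xR T3.l9 (xR T3.l9 T3.l4)))
  (TrL.c (I.pos (nat_lit 0) (nat_lit 110514882)) (xR T1.l3 (xR T1.l9 (xR T1.l9 T1.l9)))
  (TrL.c (I.pos (nat_lit 0) (nat_lit 0)) (xk (xb T1.l10 (xa T1.l10 (xb T1.l10 T1.l10))) (xb T1.l10 (xa T1.l10 (xb T1.l10 (xs T1.l10 T1.l10)))))
  (TrL.c (I.pos (nat_lit 0) (nat_lit 0)) T3.l10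
  (TrL.c (I.mix (nat_lit 8088324) (nat_lit 110514882)) (xR T1.l11 (xR T1.l11 (xR T1.l11 T1.l11)))
  (TrL.c (I.mix (nat_lit 8088324) (nat_lit 89478486)) (xR T3.l11 T3.l2)
  TrL.n)))))))) (by decide +kernel)
theorem sv5 : StarV sI cl13 cl5 cl4 t3 t1 t5 :=
  (bt_n (bt_n (bt_n (bt_b bx5_0) (bt_n (bt_b bx5_1) (bt_b bx5_2))) (bt_n (bt_n (bt_b bx5_3) (bt_b bx5_4)) (bt_n (bt_b bx5_5) (bt_b bx5_6)))) (bt_n (bt_n (bt_b bx5_7) (bt_n (bt_b bx5_8) (bt_b bx5_9))) (bt_n (bt_n (bt_b bx5_10) (bt_b bx5_11)) (bt_n (bt_b bx5_12) (bt_b bx5_13)))))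
def S5 : StarD := StarD.mk cl13 cl5 cl4 3 1 t5
def G : List StarD := [S0, S1, S2, S3, S4, S5]
theorem so0 : StarOK sI G S0 :=
  star_mk (by decide) (by decide) rfl rfl rfl rfl rfl rfl (rfl : _ = t2) (rfl : _ = t4)
  (st_mk (Pth.l (Pth.l (Pth.l Pth.z))) (nat_lit 250388663) (nat_lit 252918304) (by decide +kernel))
  (st_mk (Pth.l (Pth.l (Pth.l Pth.z))) (nat_lit 289328002) (nat_lit 292771639) (by decide +kernel))
  (st_mk (Pth.l (Pth.l (Pth.l Pth.z))) (nat_lit 335089996) (nat_lit 339820523) (by decide +kernel)) sv0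
theorem so1 : StarOK sI G S1 :=
  star_mk (by decide) (by decide) rfl rfl rfl rfl rfl rfl (rfl : _ = t4) (rfl : _ = t2)
  (st_mk (Pth.l (Pth.l (Pth.l (Pth.l Pth.z)))) (nat_lit 98977602) (nat_lit 118718710) (by decide +kernel))
  (st_mk (Pth.l (Pth.l (Pth.l (Pth.l Pth.z)))) (nat_lit 136702866) (nat_lit 157314808) (by decide +kernel))
  (st_mk (Pth.l (Pth.l (Pth.l (Pth.l Pth.z)))) (nat_lit 179615541) (nat_lit 205233097) (by decide +kernel)) sv1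
theorem so2 : StarOK sI G S2 :=
  star_mk (by decide) (by decide) rfl rfl rfl rfl rfl rfl (rfl : _ = t0) (rfl : _ = t5)
  (st_mk (Pth.l (Pth.l (Pth.l Pth.z))) (nat_lit 379704415) (nat_lit 382698144) (by decide +kernel))
  (st_mk (Pth.l (Pth.l (Pth.l Pth.z))) (nat_lit 417675398) (nat_lit 421331982) (by decide +kernel))
  (st_mk (Pth.l (Pth.l (Pth.l Pth.z))) (nat_lit 461889547) (nat_lit 466412156) (by decide +kernel)) sv2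
theorem so3 : StarOK sI G S3 :=
  star_mk (by decide) (by decide) rfl rfl rfl rfl rfl rfl (rfl : _ = t5) (rfl : _ = t0)
  (st_mk (Pth.l (Pth.l (Pth.l (Pth.l Pth.z)))) (nat_lit 97961322) (nat_lit 117141968) (by decide +kernel))
  (st_mk (Pth.l (Pth.l (Pth.l (Pth.l Pth.z)))) (nat_lit 134739478) (nat_lit 154481645) (by decide +kernel))
  (st_mk (Pth.l (Pth.l (Pth.l (Pth.l Pth.z)))) (nat_lit 177971774) (nat_lit 198494243) (by decide +kernel)) sv3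
theorem so4 : StarOK sI G S4 :=
  star_mk (by decide) (by decide) rfl rfl rfl rfl rfl rfl (rfl : _ = t1) (rfl : _ = t3)
  (st_mk (Pth.l (Pth.l (Pth.l Pth.z))) (nat_lit 364798899) (nat_lit 368236277) (by decide +kernel))
  (st_mk (Pth.l (Pth.l (Pth.l Pth.z))) (nat_lit 399695508) (nat_lit 403717685) (by decide +kernel))
  (st_mk (Pth.l (Pth.l (Pth.l Pth.z))) (nat_lit 439960827) (nat_lit 444725912) (by decide +kernel)) sv4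
theorem so5 : StarOK sI G S5 :=
  star_mk (by decide) (by decide) rfl rfl rfl rfl rfl rfl (rfl : _ = t3) (rfl : _ = t1)
  (st_mk (Pth.l (Pth.l (Pth.l Pth.z))) (nat_lit 238062708) (nat_lit 240221413) (by decide +kernel))
  (st_mk (Pth.l (Pth.l (Pth.l Pth.z))) (nat_lit 272959317) (nat_lit 275630389) (by decide +kernel))
  (st_mk (Pth.l (Pth.l (Pth.l Pth.z))) (nat_lit 313224636) (nat_lit 316575977) (by decide +kernel)) sv5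
theorem ok : GroupOK (nat_lit 150274048) (nat_lit 209387520) G := grp_mk (allS_c so0 (allS_c so1 (allS_c so2 (allS_c so3 (allS_c so4 (allS_c so5 allS_n))))))
theorem cov : GCov G cl4 cl5 cl13 := cov_mk
  ⟨0, by decide, rfl, rfl, rfl⟩ ⟨1, by decide, rfl, rfl, rfl⟩ ⟨2, by decide, rfl, rfl, rfl⟩ ⟨3, by decide, rfl, rfl, rfl⟩ ⟨4, by decide, rfl, rfl, rfl⟩ ⟨5, by decide, rfl, rfl, rfl⟩
end Q126_2


end Pool.Agent.Helper6.MONO
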