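import Pool.Agent.Helper6.MONO.Cert.C45

/-!
Certificate data (generated).
-/

set_option autoImplicit false
set_option linter.all false
noncomputable section
namespace Pool.Agent.Helper6.MONO


namespace Q126_3
def sI : I := I.pos (nat_lit 209321984) (nat_lit 268435456)
def b0_0 : Bx := Bx.mk (St.mk (I.pos (nat_lit 160514048) (nat_lit 223166464)) (I.mix (nat_lit 278528) (nat_lit 74219520)) (I.mix (nat_lit 17121280) (nat_lit 49233920)) (I.pos (nat_lit 251478016) (nat_lit 366411776)) (I.mix (nat_lit 107347968) (nat_lit 79396864)) (I.mix (nat_lit 58834944) (nat_lit 68632576)) (I.mix (nat_lit 109838336) (nat_lit 99532800)))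
  false (nat_lit 49578507)
def b0_1 : Bx := Bx.mk (St.mk (I.pos (nat_lit 29868032) (nat_lit 67272704)) (I.mix (nat_lit 8912896) (nat_lit 44400640)) (I.neg (nat_lit 19103744) (nat_lit 47890432)) (I.pos (nat_lit 138887168) (nat_lit 161775616)) (I.mix (nat_lit 49741824) (nat_lit 79233024)) (I.mix (nat_lit 54345728) (nat_lit 35504128)) (I.mix (nat_lit 29196288) (nat_lit 23068672)))
  false (nat_lit 0)
def b0_2 : Bx := Bx.mk (St.mk (I.pos (nat_lit 49135616) (nat_lit 85835776)) (I.mix (nat_lit 52609024) (nat_lit 9551872)) (I.neg (nat_lit 34144256) (nat_lit 74186752)) (I.pos (nat_lit 141230080) (nat_lit 169902080)) (I.mix (nat_lit 106004480) (nat_lit 43597824)) (I.mix (nat_lit 36634624) (nat_lit 78495744)) (I.mix (nat_lit 23379968) (nat_lit 54673408)))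
  false (nat_lit 0)
def b0_3 : Bx := Bx.mk (St.mk (I.neg (nat_lit 29868032) (nat_lit 67272704)) (I.mix (nat_lit 44400640) (nat_lit 8912896)) (I.neg (nat_lit 19103744) (nat_lit 47890432)) (I.pos (nat_lit 138887168) (nat_lit 161775616)) (I.mix (nat_lit 79233024) (nat_lit 49741824)) (I.mix (nat_lit 35504128) (nat_lit 54345728)) (I.mix (nat_lit 29196288) (nat_lit 23068672)))
  true (nat_lit 0)
def b0_4 : Bx := Bx.mk (St.mk (I.pos (nat_lit 42860544) (nat_lit 63897600)) (I.mix (nat_lit 10731520) (nat_lit 9682944)) (I.neg (nat_lit 32489472) (nat_lit 47775744)) (I.pos (nat_lit 141393920) (nat_lit 156336128)) (I.mix (nat_lit 44711936) (nat_lit 33570816)) (I.mix (nat_lit 31768576) (nat_lit 26722304)) (I.mix (nat_lit 13877248) (nat_lit 20955136)))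
  false (nat_lit 0)
def b0_5 : Bx := Bx.mk (St.mk (I.pos (nat_lit 205930496) (nat_lit 252641280)) (I.mix (nat_lit 16351232) (nat_lit 14352384)) (I.neg (nat_lit 67321856) (nat_lit 126271488)) (I.pos (nat_lit 311148544) (nat_lit 392036352)) (I.mix (nat_lit 107855872) (nat_lit 40878080)) (I.mix (nat_lit 68599808) (nat_lit 60981248)) (I.mix (nat_lit 88571904) (nat_lit 123977728)))
  false (nat_lit 5363738)
def b0_6 : Bx := Bx.mk (St.mk (I.pos (nat_lit 193642496) (nat_lit 247709696)) (I.mix (nat_lit 14516224) (nat_lit 35078144)) (I.neg (nat_lit 28295168) (nat_lit 120717312)) (I.pos (nat_lit 300007424) (nat_lit 379355136)) (I.mix (nat_lit 116047872) (nat_lit 58114048)) (I.mix (nat_lit 78118912) (nat_lit 68894720)) (I.mix (nat_lit 109051904) (nat_lit 135135232)))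
  false (nat_lit 30136014)
def b0_7 : Bx := Bx.mk (St.mk (I.pos (nat_lit 182894592) (nat_lit 243138560)) (I.pos (nat_lit 12992512) (nat_lit 68976640)) (I.mix (nat_lit 59244544) (nat_lit 34996224)) (I.pos (nat_lit 299302912) (nat_lit 389054464)) (I.mix (nat_lit 109543424) (nat_lit 103612416)) (I.mix (nat_lit 89145344) (nat_lit 78741504)) (I.mix (nat_lit 161136640) (nat_lit 103546880)))
  false (nat_lit 50817640)
def b0_8 : Bx := Bx.mk (St.mk (I.pos (nat_lit 58818560) (nat_lit 142901248)) (I.neg (nat_lit 7487488) (nat_lit 53460992)) (I.neg (nat_lit 31178752) (nat_lit 74678272)) (I.pos (nat_lit 150421504) (nat_lit 221151232)) (I.mix (nat_lit 84180992) (nat_lit 40943616)) (I.mix (nat_lit 27836416) (nat_lit 62881792)) (I.mix (nat_lit 20217856) (nat_lit 58884096)))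
  false (nat_lit 0)
def b0_9 : Bx := Bx.mk (St.mk (I.mix (nat_lit 44253184) (nat_lit 5079040)) (I.mix (nat_lit 36306944) (nat_lit 7520256)) (I.neg (nat_lit 19251200) (nat_lit 28459008)) (I.pos (nat_lit 139001856) (nat_lit 153042944)) (I.mix (nat_lit 47628288) (nat_lit 39305216)) (I.mix (nat_lit 26148864) (nat_lit 42680320)) (I.mix (nat_lit 9863168) (nat_lit 10076160)))
  true (nat_lit 0)
def b0_10 : Bx := Bx.mk (St.mk (I.pos (nat_lit 153059328) (nat_lit 198934528)) (I.pos (nat_lit 2637824) (nat_lit 60030976)) (I.mix (nat_lit 23445504) (nat_lit 41353216)) (I.pos (nat_lit 250249216) (nat_lit 317652992)) (I.mix (nat_lit 103858176) (nat_lit 43384832)) (I.mix (nat_lit 87392256) (nat_lit 56606720)) (I.mix (nat_lit 79462400) (nat_lit 59097088)))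
  false (nat_lit 33696399)
def b0_11 : Bx := Bx.mk (St.mk (I.mix (nat_lit 5079040) (nat_lit 44253184)) (I.mix (nat_lit 7520256) (nat_lit 36306944)) (I.neg (nat_lit 19251200) (nat_lit 28459008)) (I.pos (nat_lit 139001856) (nat_lit 153042944)) (I.mix (nat_lit 39305216) (nat_lit 47628288)) (I.mix (nat_lit 42680320) (nat_lit 26148864)) (I.mix (nat_lit 9863168) (nat_lit 10076160)))
  false (nat_lit 0)
def b0_12 : Bx := Bx.mk (St.mk (I.pos (nat_lit 158662656) (nat_lit 195166208)) (I.mix (nat_lit 18104320) (nat_lit 19251200)) (I.neg (nat_lit 10190848) (nat_lit 54493184)) (I.pos (nat_lit 244580352) (nat_lit 289226752)) (I.mix (nat_lit 52871168) (nat_lit 69730304)) (I.mix (nat_lit 59588608) (nat_lit 54673408)) (I.mix (nat_lit 61407232) (nat_lit 45842432)))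
  false (nat_lit 0)
def b0_13 : Bx := Bx.mk (St.mk (I.pos (nat_lit 125878272) (nat_lit 168034304)) (I.mix (nat_lit 34422784) (nat_lit 507904)) (I.neg (nat_lit 24018944) (nat_lit 65028096)) (I.pos (nat_lit 202178560) (nat_lit 252690432)) (I.mix (nat_lit 37732352) (nat_lit 23576576)) (I.mix (nat_lit 18923520) (nat_lit 23035904)) (I.mix (nat_lit 17825792) (nat_lit 25034752)))
  false (nat_lit 0)
def b0_14 : Bx := Bx.mk (St.mk (I.pos (nat_lit 156221440) (nat_lit 198885376)) (I.mix (nat_lit 3457024) (nat_lit 37486592)) (I.mix (nat_lit 38584320) (nat_lit 16318464)) (I.pos (nat_lit 251559936) (nat_lit 298401792)) (I.mix (nat_lit 98009088) (nat_lit 77512704)) (I.mix (nat_lit 104742912) (nat_lit 63160320)) (I.mix (nat_lit 105660416) (nat_lit 53886976)))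
  false (nat_lit 4226456)
def b0_15 : Bx := Bx.mk (St.mk (I.pos (nat_lit 121815040) (nat_lit 171917312)) (I.mix (nat_lit 30769152) (nat_lit 10469376)) (I.neg (nat_lit 13008896) (nat_lit 58146816)) (I.pos (nat_lit 198295552) (nat_lit 257638400)) (I.mix (nat_lit 49364992) (nat_lit 32800768)) (I.mix (nat_lit 36864000) (nat_lit 25870336)) (I.mix (nat_lit 34717696) (nat_lit 26427392)))
  false (nat_lit 0)
def b0_16 : Bx := Bx.mk (St.mk (I.pos (nat_lit 163774464) (nat_lit 191660032)) (I.mix (nat_lit 6193152) (nat_lit 18857984)) (I.neg (nat_lit 9306112) (nat_lit 41631744)) (I.pos (nat_lit 254590976) (nat_lit 285114368)) (I.mix (nat_lit 42598400) (nat_lit 40206336)) (I.mix (nat_lit 36044800) (nat_lit 31588352)) (I.mix (nat_lit 35782656) (nat_lit 26722304)))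
  false (nat_lit 0)
def b0_17 : Bx := Bx.mk (St.mk (I.pos (nat_lit 147374080) (nat_lit 171622400)) (I.mix (nat_lit 11386880) (nat_lit 10993664)) (I.neg (nat_lit 12550144) (nat_lit 41959424)) (I.pos (nat_lit 230522880) (nat_lit 257671168)) (I.mix (nat_lit 38223872) (nat_lit 23920640)) (I.mix (nat_lit 26394624) (nat_lit 23068672)) (I.mix (nat_lit 24526848) (nat_lit 22003712)))
  false (nat_lit 0)
def b0_18 : Bx := Bx.mk (St.mk (I.pos (nat_lit 155844608) (nat_lit 186286080)) (I.mix (nat_lit 16482304) (nat_lit 14860288)) (I.neg (nat_lit 12976128) (nat_lit 51658752)) (I.pos (nat_lit 241893376) (nat_lit 277479424)) (I.mix (nat_lit 60407808) (nat_lit 51281920)) (I.mix (nat_lit 49725440) (nat_lit 45170688)) (I.mix (nat_lit 49283072) (nat_lit 42385408)))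
  false (nat_lit 0)
def b0_19 : Bx := Bx.mk (St.mk (I.pos (nat_lit 124846080) (nat_lit 167116800)) (I.neg (nat_lit 180224) (nat_lit 34799616)) (I.neg (nat_lit 23314432) (nat_lit 65323008)) (I.pos (nat_lit 200966144) (nat_lit 250511360)) (I.mix (nat_lit 39075840) (nat_lit 17661952)) (I.mix (nat_lit 17973248) (nat_lit 19169280)) (I.mix (nat_lit 16777216) (nat_lit 22167552)))
  false (nat_lit 0)
def b0_20 : Bx := Bx.mk (St.mk (I.pos (nat_lit 124485632) (nat_lit 151207936)) (I.neg (nat_lit 7225344) (nat_lit 32653312)) (I.neg (nat_lit 29851648) (nat_lit 62291968)) (I.pos (nat_lit 200998912) (nat_lit 230948864)) (I.mix (nat_lit 32325632) (nat_lit 11501568)) (I.mix (nat_lit 12386304) (nat_lit 14778368)) (I.mix (nat_lit 10878976) (nat_lit 17825792)))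
  false (nat_lit 0)
def t0 : BTr := (BTr.n (BTr.n (BTr.n (BTr.n (BTr.b b0_0) (BTr.b b0_1)) (BTr.n (BTr.b b0_2) (BTr.n (BTr.b b0_3) (BTr.b b0_4)))) (BTr.n (BTr.n (BTr.b b0_5) (BTr.b b0_6)) (BTr.n (BTr.b b0_7) (BTr.n (BTr.b b0_8) (BTr.b b0_9))))) (BTr.n (BTr.n (BTr.n (BTr.b b0_10) (BTr.b b0_11)) (BTr.n (BTr.b b0_12) (BTr.n (BTr.b b0_13) (BTr.b b0_14)))) (BTr.n (BTr.n (BTr.b b0_15) (BTr.n (BTr.b b0_16) (BTr.b b0_17))) (BTr.n (BTr.b b0_18) (BTr.n (BTr.b b0_19) (BTr.b b0_20))))))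
namespace T0
def l0 : Tr := Tr.L (Pth.l (Pth.l (Pth.l (Pth.l Pth.z))))
def l1 : Tr := Tr.L (Pth.l (Pth.l (Pth.l (Pth.r Pth.z))))
def l2 : Tr := Tr.L (Pth.l (Pth.l (Pth.r (Pth.l Pth.z))))
def l3 : Tr := Tr.L (Pth.l (Pth.l (Pth.r (Pth.r (Pth.l Pth.z)))))
def l4 : Tr := Tr.L (Pth.l (Pth.l (Pth.r (Pth.r (Pth.r Pth.z)))))
def l5 : Tr := Tr.L (Pth.l (Pth.r (Pth.l (Pth.l Pth.z))))
def l6 : Tr := Tr.L (Pth.l (Pth.r (Pth.l (Pth.r Pth.z))))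
def l7 : Tr := Tr.L (Pth.l (Pth.r (Pth.r (Pth.l Pth.z))))
def l8 : Tr := Tr.L (Pth.l (Pth.r (Pth.r (Pth.r (Pth.l Pth.z)))))
def l9 : Tr := Tr.L (Pth.l (Pth.r (Pth.r (Pth.r (Pth.r Pth.z)))))
def l10 : Tr := Tr.L (Pth.r (Pth.l (Pth.l (Pth.l Pth.z))))
def l11 : Tr := Tr.L (Pth.r (Pth.l (Pth.l (Pth.r Pth.z))))
def l12 : Tr := Tr.L (Pth.r (Pth.l (Pth.r (Pth.l Pth.z))))
def l13 : Tr := Tr.L (Pth.r (Pth.l (Pth.r (Pth.r (Pth.l Pth.z)))))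
def l14 : Tr := Tr.L (Pth.r (Pth.l (Pth.r (Pth.r (Pth.r Pth.z)))))
def l15 : Tr := Tr.L (Pth.r (Pth.r (Pth.l (Pth.l Pth.z))))
def l16 : Tr := Tr.L (Pth.r (Pth.r (Pth.l (Pth.r (Pth.l Pth.z)))))
def l17 : Tr := Tr.L (Pth.r (Pth.r (Pth.l (Pth.r (Pth.r Pth.z)))))
def l18 : Tr := Tr.L (Pth.r (Pth.r (Pth.r (Pth.l Pth.z))))
def l19 : Tr := Tr.L (Pth.r (Pth.r (Pth.r (Pth.r (Pth.l Pth.z)))))
def l20 : Tr := Tr.L (Pth.r (Pth.r (Pth.r (Pth.r (Pth.r Pth.z)))))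
end T0
def b1_0 : Bx := Bx.mk (St.mk (I.pos (nat_lit 160514048) (nat_lit 230162432)) (I.mix (nat_lit 278528) (nat_lit 44498944)) (I.mix (nat_lit 278528) (nat_lit 68616192)) (I.pos (nat_lit 99434496) (nat_lit 227000320)) (I.mix (nat_lit 87818240) (nat_lit 52297728)) (I.mix (nat_lit 56000512) (nat_lit 50921472)) (I.mix (nat_lit 85835776) (nat_lit 70172672)))
  false (nat_lit 0)
def b1_1 : Bx := Bx.mk (St.mk (I.mix (nat_lit 3751936) (nat_lit 133152768)) (I.mix (nat_lit 4177920) (nat_lit 20971520)) (I.mix (nat_lit 10878976) (nat_lit 13991936)) (I.mix (nat_lit 557056) (nat_lit 83869696)) (I.mix (nat_lit 29868032) (nat_lit 33243136)) (I.mix (nat_lit 27820032) (nat_lit 19464192)) (I.mix (nat_lit 25018368) (nat_lit 15663104)))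
  false (nat_lit 0)
def b1_2 : Bx := Bx.mk (St.mk (I.pos (nat_lit 113033216) (nat_lit 148832256)) (I.mix (nat_lit 36110336) (nat_lit 7471104)) (I.neg (nat_lit 606208) (nat_lit 43843584)) (I.pos (nat_lit 52723712) (nat_lit 100483072)) (I.mix (nat_lit 74121216) (nat_lit 40091648)) (I.mix (nat_lit 30490624) (nat_lit 65044480)) (I.mix (nat_lit 26460160) (nat_lit 58212352)))
  false (nat_lit 0)
def b1_3 : Bx := Bx.mk (St.mk (I.mix (nat_lit 8650752) (nat_lit 100777984)) (I.mix (nat_lit 21594112) (nat_lit 1015808)) (I.mix (nat_lit 18890752) (nat_lit 557056)) (I.mix (nat_lit 557056) (nat_lit 54886400)) (I.mix (nat_lit 36601856) (nat_lit 15876096)) (I.mix (nat_lit 12337152) (nat_lit 28803072)) (I.mix (nat_lit 6897664) (nat_lit 17776640)))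
  false (nat_lit 0)
def b1_4 : Bx := Bx.mk (St.mk (I.pos (nat_lit 200687616) (nat_lit 242270208)) (I.mix (nat_lit 10158080) (nat_lit 19677184)) (I.mix (nat_lit 36454400) (nat_lit 19529728)) (I.pos (nat_lit 178012160) (nat_lit 244088832)) (I.mix (nat_lit 97763328) (nat_lit 24199168)) (I.mix (nat_lit 51593216) (nat_lit 47022080)) (I.mix (nat_lit 84099072) (nat_lit 84918272)))
  false (nat_lit 0)
def b1_5 : Bx := Bx.mk (St.mk (I.pos (nat_lit 193806336) (nat_lit 237142016)) (I.pos (nat_lit 8716288) (nat_lit 45203456)) (I.pos (nat_lit 5652480) (nat_lit 66945024)) (I.pos (nat_lit 172457984) (nat_lit 241549312)) (I.mix (nat_lit 92045312) (nat_lit 73334784)) (I.mix (nat_lit 80248832) (nat_lit 63029248)) (I.mix (nat_lit 133054464) (nat_lit 95617024)))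
  false (nat_lit 9422008)
def b1_6 : Bx := Bx.mk (St.mk (I.mix (nat_lit 11616256) (nat_lit 88604672)) (I.mix (nat_lit 1654784) (nat_lit 2146304)) (I.mix (nat_lit 4734976) (nat_lit 557056)) (I.mix (nat_lit 557056) (nat_lit 45711360)) (I.mix (nat_lit 7733248) (nat_lit 3801088)) (I.mix (nat_lit 3473408) (nat_lit 3063808)) (I.mix (nat_lit 720896) (nat_lit 1146880)))
  false (nat_lit 0)
def b1_7 : Bx := Bx.mk (St.mk (I.pos (nat_lit 104857600) (nat_lit 133365760)) (I.mix (nat_lit 7684096) (nat_lit 9338880)) (I.mix (nat_lit 14172160) (nat_lit 2113536)) (I.pos (nat_lit 47448064) (nat_lit 84164608)) (I.mix (nat_lit 35078144) (nat_lit 18546688)) (I.mix (nat_lit 19464192) (nat_lit 18595840)) (I.mix (nat_lit 15663104) (nat_lit 17563648)))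
  false (nat_lit 0)
def b1_8 : Bx := Bx.mk (St.mk (I.pos (nat_lit 211353600) (nat_lit 251789312)) (I.mix (nat_lit 11878400) (nat_lit 10960896)) (I.neg (nat_lit 1015808) (nat_lit 42975232)) (I.pos (nat_lit 195182592) (nat_lit 268910592)) (I.mix (nat_lit 91209728) (nat_lit 9355264)) (I.mix (nat_lit 37683200) (nat_lit 40140800)) (I.mix (nat_lit 63455232) (nat_lit 76529664)))
  false (nat_lit 0)
def b1_9 : Bx := Bx.mk (St.mk (I.pos (nat_lit 115851264) (nat_lit 176783360)) (I.neg (nat_lit 4374528) (nat_lit 40615936)) (I.neg (nat_lit 9633792) (nat_lit 45268992)) (I.pos (nat_lit 67059712) (nat_lit 138477568)) (I.mix (nat_lit 62980096) (nat_lit 36978688)) (I.mix (nat_lit 29786112) (nat_lit 46579712)) (I.mix (nat_lit 25624576) (nat_lit 49414144)))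
  false (nat_lit 0)
def b1_10 : Bx := Bx.mk (St.mk (I.pos (nat_lit 39436288) (nat_lit 111345664)) (I.mix (nat_lit 21872640) (nat_lit 1245184)) (I.neg (nat_lit 245760) (nat_lit 17940480)) (I.pos (nat_lit 7110656) (nat_lit 63913984)) (I.mix (nat_lit 31260672) (nat_lit 20725760)) (I.mix (nat_lit 12075008) (nat_lit 22659072)) (I.mix (nat_lit 8060928) (nat_lit 16367616)))
  false (nat_lit 0)
def b1_11 : Bx := Bx.mk (St.mk (I.pos (nat_lit 169115648) (nat_lit 207208448)) (I.mix (nat_lit 11812864) (nat_lit 38453248)) (I.mix (nat_lit 3883008) (nat_lit 61767680)) (I.pos (nat_lit 118849536) (nat_lit 188088320)) (I.mix (nat_lit 114343936) (nat_lit 35651584)) (I.mix (nat_lit 88866816) (nat_lit 45449216)) (I.mix (nat_lit 100319232) (nat_lit 49086464)))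
  false (nat_lit 0)
def b1_12 : Bx := Bx.mk (St.mk (I.mix (nat_lit 9125888) (nat_lit 129236992)) (I.mix (nat_lit 10338304) (nat_lit 23937024)) (I.mix (nat_lit 11468800) (nat_lit 17432576)) (I.mix (nat_lit 557056) (nat_lit 80134144)) (I.mix (nat_lit 41697280) (nat_lit 24920064)) (I.mix (nat_lit 35799040) (nat_lit 18694144)) (I.mix (nat_lit 25837568) (nat_lit 13287424)))
  false (nat_lit 0)
def b1_13 : Bx := Bx.mk (St.mk (I.pos (nat_lit 169803776) (nat_lit 202719232)) (I.mix (nat_lit 31948800) (nat_lit 638976)) (I.mix (nat_lit 36782080) (nat_lit 4292608)) (I.pos (nat_lit 119668736) (nat_lit 174850048)) (I.mix (nat_lit 56246272) (nat_lit 54034432)) (I.mix (nat_lit 52346880) (nat_lit 47087616)) (I.mix (nat_lit 59310080) (nat_lit 50167808)))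
  false (nat_lit 17867618)
def b1_14 : Bx := Bx.mk (St.mk (I.pos (nat_lit 149815296) (nat_lit 176766976)) (I.neg (nat_lit 9797632) (nat_lit 34258944)) (I.neg (nat_lit 12353536) (nat_lit 41697280)) (I.pos (nat_lit 95813632) (nat_lit 138412032)) (I.mix (nat_lit 43548672) (nat_lit 21577728)) (I.mix (nat_lit 16973824) (nat_lit 26329088)) (I.mix (nat_lit 18792448) (nat_lit 30883840)))
  false (nat_lit 0)
def b1_15 : Bx := Bx.mk (St.mk (I.mix (nat_lit 9961472) (nat_lit 111525888)) (I.mix (nat_lit 11714560) (nat_lit 737280)) (I.mix (nat_lit 12255232) (nat_lit 557056)) (I.mix (nat_lit 557056) (nat_lit 63979520)) (I.mix (nat_lit 14319616) (nat_lit 12369920)) (I.mix (nat_lit 7651328) (nat_lit 10158080)) (I.mix (nat_lit 5521408) (nat_lit 7815168)))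
  false (nat_lit 0)
def b1_16 : Bx := Bx.mk (St.mk (I.pos (nat_lit 168230912) (nat_lit 204554240)) (I.mix (nat_lit 21135360) (nat_lit 13598720)) (I.mix (nat_lit 19464192) (nat_lit 25640960)) (I.pos (nat_lit 117440512) (nat_lit 177258496)) (I.mix (nat_lit 90996736) (nat_lit 55705600)) (I.mix (nat_lit 87785472) (nat_lit 52068352)) (I.mix (nat_lit 103088128) (nat_lit 56279040)))
  false (nat_lit 0)
def b1_17 : Bx := Bx.mk (St.mk (I.pos (nat_lit 153206784) (nat_lit 177143808)) (I.neg (nat_lit 4538368) (nat_lit 26869760)) (I.neg (nat_lit 6012928) (nat_lit 31227904)) (I.pos (nat_lit 98336768) (nat_lit 138526720)) (I.mix (nat_lit 49217536) (nat_lit 11993088)) (I.mix (nat_lit 20774912) (nat_lit 22298624)) (I.mix (nat_lit 24281088) (nat_lit 25477120)))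
  false (nat_lit 0)
def b1_18 : Bx := Bx.mk (St.mk (I.pos (nat_lit 174915584) (nat_lit 198885376)) (I.mix (nat_lit 22069248) (nat_lit 2228224)) (I.mix (nat_lit 21413888) (nat_lit 6668288)) (I.pos (nat_lit 123011072) (nat_lit 170409984)) (I.mix (nat_lit 45776896) (nat_lit 28180480)) (I.mix (nat_lit 34488320) (nat_lit 32620544)) (I.mix (nat_lit 37093376) (nat_lit 36143104)))
  false (nat_lit 0)
def b1_19 : Bx := Bx.mk (St.mk (I.pos (nat_lit 155172864) (nat_lit 182730752)) (I.mix (nat_lit 27656192) (nat_lit 622592)) (I.neg (nat_lit 409600) (nat_lit 32473088)) (I.pos (nat_lit 100712448) (nat_lit 147062784)) (I.mix (nat_lit 47087616) (nat_lit 16826368)) (I.mix (nat_lit 23986176) (nat_lit 25001984)) (I.mix (nat_lit 27394048) (nat_lit 27721728)))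
  false (nat_lit 0)
def b1_20 : Bx := Bx.mk (St.mk (I.pos (nat_lit 164528128) (nat_lit 196100096)) (I.mix (nat_lit 33325056) (nat_lit 557056)) (I.mix (nat_lit 39485440) (nat_lit 1097728)) (I.pos (nat_lit 110329856) (nat_lit 163856384)) (I.mix (nat_lit 52477952) (nat_lit 36257792)) (I.mix (nat_lit 36749312) (nat_lit 37289984)) (I.mix (nat_lit 42909696) (nat_lit 40009728)))
  false (nat_lit 0)
def b1_21 : Bx := Bx.mk (St.mk (I.pos (nat_lit 205881344) (nat_lit 230653952)) (I.pos (nat_lit 6799360) (nat_lit 20955136)) (I.pos (nat_lit 2916352) (nat_lit 22020096)) (I.pos (nat_lit 189104128) (nat_lit 221724672)) (I.neg (nat_lit 4636672) (nat_lit 56360960)) (I.mix (nat_lit 20774912) (nat_lit 13795328)) (I.mix (nat_lit 31309824) (nat_lit 24543232)))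
  false (nat_lit 0)
def t1 : BTr := (BTr.n (BTr.n (BTr.n (BTr.n (BTr.b b1_0) (BTr.b b1_1)) (BTr.n (BTr.b b1_2) (BTr.n (BTr.b b1_3) (BTr.b b1_4)))) (BTr.n (BTr.n (BTr.b b1_5) (BTr.n (BTr.b b1_6) (BTr.b b1_7))) (BTr.n (BTr.b b1_8) (BTr.n (BTr.b b1_9) (BTr.b b1_10))))) (BTr.n (BTr.n (BTr.n (BTr.b b1_11) (BTr.b b1_12)) (BTr.n (BTr.b b1_13) (BTr.n (BTr.b b1_14) (BTr.b b1_15)))) (BTr.n (BTr.n (BTr.b b1_16) (BTr.n (BTr.b b1_17) (BTr.b b1_18))) (BTr.n (BTr.b b1_19) (BTr.n (BTr.b b1_20) (BTr.b b1_21))))))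
namespace T1
def l0 : Tr := Tr.L (Pth.l (Pth.l (Pth.l (Pth.l Pth.z))))
def l1 : Tr := Tr.L (Pth.l (Pth.l (Pth.l (Pth.r Pth.z))))
def l2 : Tr := Tr.L (Pth.l (Pth.l (Pth.r (Pth.l Pth.z))))
def l3 : Tr := Tr.L (Pth.l (Pth.l (Pth.r (Pth.r (Pth.l Pth.z)))))
def l4 : Tr := Tr.L (Pth.l (Pth.l (Pth.r (Pth.r (Pth.r Pth.z)))))
def l5 : Tr := Tr.L (Pth.l (Pth.r (Pth.l (Pth.l Pth.z))))
def l6 : Tr := Tr.L (Pth.l (Pth.r (Pth.l (Pth.r (Pth.l Pth.z)))))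
def l7 : Tr := Tr.L (Pth.l (Pth.r (Pth.l (Pth.r (Pth.r Pth.z)))))
def l8 : Tr := Tr.L (Pth.l (Pth.r (Pth.r (Pth.l Pth.z))))
def l9 : Tr := Tr.L (Pth.l (Pth.r (Pth.r (Pth.r (Pth.l Pth.z)))))
def l10 : Tr := Tr.L (Pth.l (Pth.r (Pth.r (Pth.r (Pth.r Pth.z)))))
def l11 : Tr := Tr.L (Pth.r (Pth.l (Pth.l (Pth.l Pth.z))))
def l12 : Tr := Tr.L (Pth.r (Pth.l (Pth.l (Pth.r Pth.z))))
def l13 : Tr := Tr.L (Pth.r (Pth.l (Pth.r (Pth.l Pth.z))))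
def l14 : Tr := Tr.L (Pth.r (Pth.l (Pth.r (Pth.r (Pth.l Pth.z)))))
def l15 : Tr := Tr.L (Pth.r (Pth.l (Pth.r (Pth.r (Pth.r Pth.z)))))
def l16 : Tr := Tr.L (Pth.r (Pth.r (Pth.l (Pth.l Pth.z))))
def l17 : Tr := Tr.L (Pth.r (Pth.r (Pth.l (Pth.r (Pth.l Pth.z)))))
def l18 : Tr := Tr.L (Pth.r (Pth.r (Pth.l (Pth.r (Pth.r Pth.z)))))
def l19 : Tr := Tr.L (Pth.r (Pth.r (Pth.r (Pth.l Pth.z))))
def l20 : Tr := Tr.L (Pth.r (Pth.r (Pth.r (Pth.r (Pth.l Pth.z)))))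
def l21 : Tr := Tr.L (Pth.r (Pth.r (Pth.r (Pth.r (Pth.r Pth.z)))))
end T1
def b2_0 : Bx := Bx.mk (St.mk (I.pos (nat_lit 149291008) (nat_lit 215302144)) (I.mix (nat_lit 278528) (nat_lit 93323264)) (I.mix (nat_lit 21938176) (nat_lit 61161472)) (I.pos (nat_lit 381140992) (nat_lit 480346112)) (I.mix (nat_lit 148897792) (nat_lit 83312640)) (I.mix (nat_lit 78594048) (nat_lit 80035840)) (I.mix (nat_lit 110067712) (nat_lit 117260288)))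
  false (nat_lit 51974071)
def b2_1 : Bx := Bx.mk (St.mk (I.mix (nat_lit 46022656) (nat_lit 8519680)) (I.mix (nat_lit 147456) (nat_lit 77561856)) (I.neg (nat_lit 63373312) (nat_lit 89997312)) (I.pos (nat_lit 256425984) (nat_lit 286572544)) (I.mix (nat_lit 40681472) (nat_lit 129155072)) (I.mix (nat_lit 82083840) (nat_lit 60014592)) (I.mix (nat_lit 46546944) (nat_lit 40747008)))
  true (nat_lit 0)
def b2_2 : Bx := Bx.mk (St.mk (I.mix (nat_lit 557056) (nat_lit 46039040)) (I.neg (nat_lit 32014336) (nat_lit 78364672)) (I.neg (nat_lit 63569920) (nat_lit 90423296)) (I.pos (nat_lit 259440640) (nat_lit 286572544)) (I.mix (nat_lit 129155072) (nat_lit 35979264)) (I.mix (nat_lit 60014592) (nat_lit 82083840)) (I.mix (nat_lit 46546944) (nat_lit 40747008)))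
  false (nat_lit 7974975)
def b2_3 : Bx := Bx.mk (St.mk (I.pos (nat_lit 8814592) (nat_lit 118177792)) (I.neg (nat_lit 8372224) (nat_lit 79659008)) (I.neg (nat_lit 27361280) (nat_lit 92962816)) (I.pos (nat_lit 260276224) (nat_lit 327974912)) (I.mix (nat_lit 120012800) (nat_lit 57638912)) (I.mix (nat_lit 58671104) (nat_lit 73580544)) (I.mix (nat_lit 66273280) (nat_lit 65536000)))
  false (nat_lit 21292069)
def b2_4 : Bx := Bx.mk (St.mk (I.pos (nat_lit 93618176) (nat_lit 191594496)) (I.mix (nat_lit 33079296) (nat_lit 77103104)) (I.mix (nat_lit 55918592) (nat_lit 55164928)) (I.pos (nat_lit 301236224) (nat_lit 445284352)) (I.mix (nat_lit 149340160) (nat_lit 85721088)) (I.mix (nat_lit 112803840) (nat_lit 87261184)) (I.mix (nat_lit 111820800) (nat_lit 109035520)))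
  false (nat_lit 28490794)
def b2_5 : Bx := Bx.mk (St.mk (I.neg (nat_lit 8814592) (nat_lit 118194176)) (I.pos (nat_lit 8536064) (nat_lit 79659008)) (I.neg (nat_lit 27492352) (nat_lit 92979200)) (I.pos (nat_lit 260259840) (nat_lit 327974912)) (I.mix (nat_lit 57638912) (nat_lit 120029184)) (I.mix (nat_lit 73596928) (nat_lit 58687488)) (I.mix (nat_lit 66338816) (nat_lit 65536000)))
  true (nat_lit 0)
def b2_6 : Bx := Bx.mk (St.mk (I.pos (nat_lit 222871552) (nat_lit 264290304)) (I.pos (nat_lit 3342336) (nat_lit 47087616)) (I.neg (nat_lit 48578560) (nat_lit 123961344)) (I.pos (nat_lit 469237760) (nat_lit 540901376)) (I.mix (nat_lit 85295104) (nat_lit 77922304)) (I.mix (nat_lit 67371008) (nat_lit 63553536)) (I.mix (nat_lit 108888064) (nat_lit 111640576)))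
  false (nat_lit 0)
def b2_7 : Bx := Bx.mk (St.mk (I.mix (nat_lit 8454144) (nat_lit 13369344)) (I.neg (nat_lit 1949696) (nat_lit 25509888)) (I.neg (nat_lit 65060864) (nat_lit 75005952)) (I.pos (nat_lit 256606208) (nat_lit 267091968)) (I.mix (nat_lit 49856512) (nat_lit 31703040)) (I.mix (nat_lit 29589504) (nat_lit 32161792)) (I.mix (nat_lit 3293184) (nat_lit 15286272)))
  false (nat_lit 0)
def b2_8 : Bx := Bx.mk (St.mk (I.pos (nat_lit 201261056) (nat_lit 246611968)) (I.mix (nat_lit 1982464) (nat_lit 38535168)) (I.neg (nat_lit 51953664) (nat_lit 118374400)) (I.pos (nat_lit 430276608) (nat_lit 501809152)) (I.mix (nat_lit 95485952) (nat_lit 88424448)) (I.mix (nat_lit 75087872) (nat_lit 63815680)) (I.mix (nat_lit 117063680) (nat_lit 114130944)))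
  false (nat_lit 0)
def b2_9 : Bx := Bx.mk (St.mk (I.pos (nat_lit 2064384) (nat_lit 25935872)) (I.mix (nat_lit 25935872) (nat_lit 147456)) (I.neg (nat_lit 63389696) (nat_lit 74711040)) (I.pos (nat_lit 256983040) (nat_lit 268681216)) (I.mix (nat_lit 58114048) (nat_lit 40681472)) (I.mix (nat_lit 34406400) (nat_lit 40632320)) (I.mix (nat_lit 5701632) (nat_lit 19365888)))
  false (nat_lit 0)
def b2_10 : Bx := Bx.mk (St.mk (I.pos (nat_lit 183795712) (nat_lit 232210432)) (I.pos (nat_lit 835584) (nat_lit 49201152)) (I.neg (nat_lit 25001984) (nat_lit 110526464)) (I.pos (nat_lit 414908416) (nat_lit 476315648)) (I.mix (nat_lit 87687168) (nat_lit 58867712)) (I.mix (nat_lit 54837248) (nat_lit 54083584)) (I.mix (nat_lit 76234752) (nat_lit 96190464)))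
  false (nat_lit 0)
def b2_11 : Bx := Bx.mk (St.mk (I.pos (nat_lit 6488064) (nat_lit 35389440)) (I.neg (nat_lit 2523136) (nat_lit 37437440)) (I.neg (nat_lit 63471616) (nat_lit 77053952)) (I.pos (nat_lit 257163264) (nat_lit 272482304)) (I.mix (nat_lit 52051968) (nat_lit 37781504)) (I.mix (nat_lit 32980992) (nat_lit 34881536)) (I.mix (nat_lit 9928704) (nat_lit 20234240)))
  false (nat_lit 0)
def b2_12 : Bx := Bx.mk (St.mk (I.pos (nat_lit 229539840) (nat_lit 271990784)) (I.mix (nat_lit 7487488) (nat_lit 36569088)) (I.neg (nat_lit 70107136) (nat_lit 158859264)) (I.pos (nat_lit 472334336) (nat_lit 554500096)) (I.mix (nat_lit 78069760) (nat_lit 61964288)) (I.mix (nat_lit 57819136) (nat_lit 48791552)) (I.mix (nat_lit 95944704) (nat_lit 101515264)))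
  false (nat_lit 0)
def b2_13 : Bx := Bx.mk (St.mk (I.pos (nat_lit 2031616) (nat_lit 12713984)) (I.neg (nat_lit 6602752) (nat_lit 17956864)) (I.neg (nat_lit 64929792) (nat_lit 74039296)) (I.pos (nat_lit 257015808) (nat_lit 266715136)) (I.mix (nat_lit 23920640) (nat_lit 10354688)) (I.mix (nat_lit 9846784) (nat_lit 16384000)) (I.pos (nat_lit 851968) (nat_lit 12173312)))
  false (nat_lit 0)
def b2_14 : Bx := Bx.mk (St.mk (I.mix (nat_lit 10190848) (nat_lit 11796480)) (I.mix (nat_lit 5324800) (nat_lit 18300928)) (I.neg (nat_lit 66076672) (nat_lit 74612736)) (I.pos (nat_lit 256507904) (nat_lit 266010624)) (I.mix (nat_lit 25214976) (nat_lit 37797888)) (I.mix (nat_lit 24707072) (nat_lit 19283968)) (I.pos (nat_lit 409600) (nat_lit 11010048)))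
  true (nat_lit 0)
def b2_15 : Bx := Bx.mk (St.mk (I.pos (nat_lit 172146688) (nat_lit 221347840)) (I.pos (nat_lit 23855104) (nat_lit 84852736)) (I.mix (nat_lit 56852480) (nat_lit 35340288)) (I.pos (nat_lit 416530432) (nat_lit 476758016)) (I.mix (nat_lit 107806720) (nat_lit 77119488)) (I.mix (nat_lit 76546048) (nat_lit 57491456)) (I.mix (nat_lit 117850112) (nat_lit 82378752)))
  false (nat_lit 16896204)
def b2_16 : Bx := Bx.mk (St.mk (I.pos (nat_lit 966656) (nat_lit 35241984)) (I.neg (nat_lit 19038208) (nat_lit 63062016)) (I.neg (nat_lit 65388544) (nat_lit 86409216)) (I.pos (nat_lit 258916352) (nat_lit 278495232)) (I.mix (nat_lit 104775680) (nat_lit 39845888)) (I.mix (nat_lit 41779200) (nat_lit 71778304)) (I.mix (nat_lit 25673728) (nat_lit 28917760)))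
  false (nat_lit 0)
def b2_17 : Bx := Bx.mk (St.mk (I.mix (nat_lit 11780096) (nat_lit 10190848)) (I.mix (nat_lit 18300928) (nat_lit 5324800)) (I.neg (nat_lit 66060288) (nat_lit 74465280)) (I.pos (nat_lit 256491520) (nat_lit 265895936)) (I.mix (nat_lit 37797888) (nat_lit 25214976)) (I.mix (nat_lit 19283968) (nat_lit 24707072)) (I.pos (nat_lit 409600) (nat_lit 11026432)))
  false (nat_lit 0)
def b2_18 : Bx := Bx.mk (St.mk (I.pos (nat_lit 222461952) (nat_lit 248446976)) (I.pos (nat_lit 7667712) (nat_lit 32407552)) (I.neg (nat_lit 66125824) (nat_lit 110592000)) (I.pos (nat_lit 465567744) (nat_lit 505430016)) (I.mix (nat_lit 58212352) (nat_lit 41041920)) (I.mix (nat_lit 44351488) (nat_lit 32604160)) (I.mix (nat_lit 61472768) (nat_lit 61833216)))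
  false (nat_lit 0)
def t2 : BTr := (BTr.n (BTr.n (BTr.n (BTr.n (BTr.b b2_0) (BTr.b b2_1)) (BTr.n (BTr.b b2_2) (BTr.b b2_3))) (BTr.n (BTr.n (BTr.b b2_4) (BTr.b b2_5)) (BTr.n (BTr.b b2_6) (BTr.n (BTr.b b2_7) (BTr.b b2_8))))) (BTr.n (BTr.n (BTr.n (BTr.b b2_9) (BTr.b b2_10)) (BTr.n (BTr.b b2_11) (BTr.n (BTr.b b2_12) (BTr.b b2_13)))) (BTr.n (BTr.n (BTr.b b2_14) (BTr.b b2_15)) (BTr.n (BTr.b b2_16) (BTr.n (BTr.b b2_17) (BTr.b b2_18))))))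
namespace T2
def l0 : Tr := Tr.L (Pth.l (Pth.l (Pth.l (Pth.l Pth.z))))
def l1 : Tr := Tr.L (Pth.l (Pth.l (Pth.l (Pth.r Pth.z))))
def l2 : Tr := Tr.L (Pth.l (Pth.l (Pth.r (Pth.l Pth.z))))
def l3 : Tr := Tr.L (Pth.l (Pth.l (Pth.r (Pth.r Pth.z))))
def l4 : Tr := Tr.L (Pth.l (Pth.r (Pth.l (Pth.l Pth.z))))
def l5 : Tr := Tr.L (Pth.l (Pth.r (Pth.l (Pth.r Pth.z))))
def l6 : Tr := Tr.L (Pth.l (Pth.r (Pth.r (Pth.l Pth.z))))
def l7 : Tr := Tr.L (Pth.l (Pth.r (Pth.r (Pth.r (Pth.l Pth.z)))))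
def l8 : Tr := Tr.L (Pth.l (Pth.r (Pth.r (Pth.r (Pth.r Pth.z)))))
def l9 : Tr := Tr.L (Pth.r (Pth.l (Pth.l (Pth.l Pth.z))))
def l10 : Tr := Tr.L (Pth.r (Pth.l (Pth.l (Pth.r Pth.z))))
def l11 : Tr := Tr.L (Pth.r (Pth.l (Pth.r (Pth.l Pth.z))))
def l12 : Tr := Tr.L (Pth.r (Pth.l (Pth.r (Pth.r (Pth.l Pth.z)))))
def l13 : Tr := Tr.L (Pth.r (Pth.l (Pth.r (Pth.r (Pth.r Pth.z)))))
def l14 : Tr := Tr.L (Pth.r (Pth.r (Pth.l (Pth.l Pth.z))))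
def l15 : Tr := Tr.L (Pth.r (Pth.r (Pth.l (Pth.r Pth.z))))
def l16 : Tr := Tr.L (Pth.r (Pth.r (Pth.r (Pth.l Pth.z))))
def l17 : Tr := Tr.L (Pth.r (Pth.r (Pth.r (Pth.r (Pth.l Pth.z)))))
def l18 : Tr := Tr.L (Pth.r (Pth.r (Pth.r (Pth.r (Pth.r Pth.z)))))
end T2
def b3_0 : Bx := Bx.mk (St.mk (I.pos (nat_lit 160514048) (nat_lit 225312768)) (I.mix (nat_lit 278528) (nat_lit 38436864)) (I.mix (nat_lit 278528) (nat_lit 85508096)) (I.pos (nat_lit 98254848) (nat_lit 202997760)) (I.mix (nat_lit 82870272) (nat_lit 31129600)) (I.mix (nat_lit 55427072) (nat_lit 36716544)) (I.mix (nat_lit 78675968) (nat_lit 45973504)))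
  false (nat_lit 0)
def b3_1 : Bx := Bx.mk (St.mk (I.pos (nat_lit 121798656) (nat_lit 175980544)) (I.neg (nat_lit 4784128) (nat_lit 45858816)) (I.mix (nat_lit 37126144) (nat_lit 7372800)) (I.pos (nat_lit 73629696) (nat_lit 135479296)) (I.mix (nat_lit 62947328) (nat_lit 48857088)) (I.mix (nat_lit 40370176) (nat_lit 48758784)) (I.mix (nat_lit 35979264) (nat_lit 52297728)))
  false (nat_lit 0)
def b3_2 : Bx := Bx.mk (St.mk (I.mix (nat_lit 3817472) (nat_lit 109903872)) (I.mix (nat_lit 22691840) (nat_lit 1359872)) (I.mix (nat_lit 11943936) (nat_lit 5603328)) (I.mix (nat_lit 557056) (nat_lit 60866560)) (I.mix (nat_lit 26361856) (nat_lit 26951680)) (I.mix (nat_lit 15761408) (nat_lit 22577152)) (I.mix (nat_lit 10240000) (nat_lit 16138240)))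
  false (nat_lit 0)
def b3_3 : Bx := Bx.mk (St.mk (I.pos (nat_lit 162480128) (nat_lit 203816960)) (I.mix (nat_lit 15286272) (nat_lit 35045376)) (I.pos (nat_lit 8699904) (nat_lit 77086720)) (I.pos (nat_lit 106840064) (nat_lit 174014464)) (I.mix (nat_lit 118243328) (nat_lit 47005696)) (I.mix (nat_lit 102514688) (nat_lit 44777472)) (I.mix (nat_lit 120504320) (nat_lit 38879232)))
  false (nat_lit 0)
def b3_4 : Bx := Bx.mk (St.mk (I.mix (nat_lit 9011200) (nat_lit 126812160)) (I.mix (nat_lit 12206080) (nat_lit 23166976)) (I.mix (nat_lit 3047424) (nat_lit 27066368)) (I.mix (nat_lit 557056) (nat_lit 76660736)) (I.mix (nat_lit 48594944) (nat_lit 29556736)) (I.mix (nat_lit 38846464) (nat_lit 19087360)) (I.mix (nat_lit 28475392) (nat_lit 13303808)))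
  false (nat_lit 0)
def b3_5 : Bx := Bx.mk (St.mk (I.pos (nat_lit 165724160) (nat_lit 200507392)) (I.neg (nat_lit 2162688) (nat_lit 36995072)) (I.mix (nat_lit 22446080) (nat_lit 20774912)) (I.pos (nat_lit 112066560) (nat_lit 167280640)) (I.mix (nat_lit 55476224) (nat_lit 61505536)) (I.mix (nat_lit 57393152) (nat_lit 45760512)) (I.mix (nat_lit 59932672) (nat_lit 48922624)))
  false (nat_lit 7698643)
def b3_6 : Bx := Bx.mk (St.mk (I.pos (nat_lit 163217408) (nat_lit 200327168)) (I.mix (nat_lit 22740992) (nat_lit 13352960)) (I.pos (nat_lit 278528) (nat_lit 44924928)) (I.pos (nat_lit 107544576) (nat_lit 164413440)) (I.mix (nat_lit 111902720) (nat_lit 61292544)) (I.mix (nat_lit 104136704) (nat_lit 51347456)) (I.mix (nat_lit 118882304) (nat_lit 48562176)))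
  false (nat_lit 6191766)
def b3_7 : Bx := Bx.mk (St.mk (I.mix (nat_lit 11616256) (nat_lit 117751808)) (I.mix (nat_lit 11485184) (nat_lit 3112960)) (I.mix (nat_lit 2424832) (nat_lit 8011776)) (I.mix (nat_lit 557056) (nat_lit 63782912)) (I.mix (nat_lit 20807680) (nat_lit 13107200)) (I.mix (nat_lit 9715712) (nat_lit 12304384)) (I.mix (nat_lit 7553024) (nat_lit 7831552)))
  false (nat_lit 0)
def b3_8 : Bx := Bx.mk (St.mk (I.pos (nat_lit 143982592) (nat_lit 177586176)) (I.neg (nat_lit 3702784) (nat_lit 31686656)) (I.mix (nat_lit 18644992) (nat_lit 10764288)) (I.pos (nat_lit 89751552) (nat_lit 135790592)) (I.mix (nat_lit 56688640) (nat_lit 27049984)) (I.mix (nat_lit 21954560) (nat_lit 34897920)) (I.mix (nat_lit 27164672) (nat_lit 35979264)))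
  false (nat_lit 0)
def b3_9 : Bx := Bx.mk (St.mk (I.pos (nat_lit 158449664) (nat_lit 191152128)) (I.neg (nat_lit 9322496) (nat_lit 37273600)) (I.mix (nat_lit 24936448) (nat_lit 5079040)) (I.pos (nat_lit 104775680) (nat_lit 158285824)) (I.mix (nat_lit 52248576) (nat_lit 40484864)) (I.mix (nat_lit 40960000) (nat_lit 35700736)) (I.mix (nat_lit 46579712) (nat_lit 38289408)))
  false (nat_lit 0)
def b3_10 : Bx := Bx.mk (St.mk (I.pos (nat_lit 48578560) (nat_lit 135528448)) (I.mix (nat_lit 2506752) (nat_lit 17481728)) (I.pos (nat_lit 344064) (nat_lit 21544960)) (I.pos (nat_lit 10584064) (nat_lit 86622208)) (I.mix (nat_lit 33406976) (nat_lit 29589504)) (I.mix (nat_lit 30670848) (nat_lit 16826368)) (I.mix (nat_lit 26673152) (nat_lit 12976128)))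
  false (nat_lit 0)
def b3_11 : Bx := Bx.mk (St.mk (I.pos (nat_lit 118439936) (nat_lit 154255360)) (I.mix (nat_lit 41336832) (nat_lit 3342336)) (I.mix (nat_lit 35045376) (nat_lit 9437184)) (I.pos (nat_lit 54722560) (nat_lit 110608384)) (I.mix (nat_lit 69795840) (nat_lit 38076416)) (I.mix (nat_lit 29720576) (nat_lit 56164352)) (I.mix (nat_lit 24821760) (nat_lit 49512448)))
  false (nat_lit 0)
def b3_12 : Bx := Bx.mk (St.mk (I.mix (nat_lit 8650752) (nat_lit 103956480)) (I.mix (nat_lit 22724608) (nat_lit 720896)) (I.mix (nat_lit 11681792) (nat_lit 3784704)) (I.mix (nat_lit 557056) (nat_lit 57556992)) (I.mix (nat_lit 30572544) (nat_lit 12025856)) (I.mix (nat_lit 12337152) (nat_lit 23052288)) (I.mix (nat_lit 7077888) (nat_lit 13811712)))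
  false (nat_lit 0)
def b3_13 : Bx := Bx.mk (St.mk (I.pos (nat_lit 197312512) (nat_lit 237617152)) (I.mix (nat_lit 4456448) (nat_lit 20807680)) (I.pos (nat_lit 8044544) (nat_lit 54394880)) (I.pos (nat_lit 168165376) (nat_lit 227524608)) (I.mix (nat_lit 79822848) (nat_lit 22200320)) (I.mix (nat_lit 42860544) (nat_lit 33882112)) (I.mix (nat_lit 71188480) (nat_lit 52396032)))
  false (nat_lit 0)
def b3_14 : Bx := Bx.mk (St.mk (I.pos (nat_lit 119046144) (nat_lit 135184384)) (I.mix (nat_lit 1179648) (nat_lit 6422528)) (I.pos (nat_lit 2031616) (nat_lit 11960320)) (I.pos (nat_lit 55164928) (nat_lit 86343680)) (I.mix (nat_lit 11354112) (nat_lit 11714560)) (I.mix (nat_lit 7864320) (nat_lit 6340608)) (I.mix (nat_lit 7438336) (nat_lit 5554176)))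
  false (nat_lit 0)
def b3_15 : Bx := Bx.mk (St.mk (I.mix (nat_lit 17039360) (nat_lit 91521024)) (I.mix (nat_lit 622592) (nat_lit 3244032)) (I.mix (nat_lit 393216) (nat_lit 5472256)) (I.mix (nat_lit 1851392) (nat_lit 48349184)) (I.mix (nat_lit 4194304) (nat_lit 5341184)) (I.mix (nat_lit 3014656) (nat_lit 2162688)) (I.mix (nat_lit 2048000) (nat_lit 1392640)))
  false (nat_lit 0)
def b3_16 : Bx := Bx.mk (St.mk (I.pos (nat_lit 191102976) (nat_lit 229326848)) (I.pos (nat_lit 7028736) (nat_lit 38993920)) (I.pos (nat_lit 27623424) (nat_lit 86032384)) (I.pos (nat_lit 159268864) (nat_lit 210862080)) (I.mix (nat_lit 83755008) (nat_lit 59195392)) (I.mix (nat_lit 70975488) (nat_lit 49496064)) (I.mix (nat_lit 114032640) (nat_lit 65142784)))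
  false (nat_lit 0)
def b3_17 : Bx := Bx.mk (St.mk (I.pos (nat_lit 234487808) (nat_lit 262848512)) (I.mix (nat_lit 3735552) (nat_lit 23478272)) (I.pos (nat_lit 7503872) (nat_lit 63373312)) (I.pos (nat_lit 228605952) (nat_lit 290504704)) (I.mix (nat_lit 61194240) (nat_lit 45711360)) (I.mix (nat_lit 45826048) (nat_lit 37076992)) (I.mix (nat_lit 80576512) (nat_lit 62816256)))
  false (nat_lit 0)
def b3_18 : Bx := Bx.mk (St.mk (I.pos (nat_lit 222593024) (nat_lit 260440064)) (I.mix (nat_lit 2506752) (nat_lit 27754496)) (I.pos (nat_lit 10911744) (nat_lit 71467008)) (I.pos (nat_lit 209059840) (nat_lit 284360704)) (I.mix (nat_lit 65617920) (nat_lit 40337408)) (I.mix (nat_lit 45793280) (nat_lit 39059456)) (I.mix (nat_lit 77430784) (nat_lit 66781184)))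
  false (nat_lit 0)
def b3_19 : Bx := Bx.mk (St.mk (I.pos (nat_lit 209010688) (nat_lit 244137984)) (I.mix (nat_lit 8126464) (nat_lit 20791296)) (I.pos (nat_lit 2801664) (nat_lit 57491456)) (I.pos (nat_lit 186925056) (nat_lit 243187712)) (I.mix (nat_lit 72466432) (nat_lit 31227904)) (I.mix (nat_lit 40665088) (nat_lit 34586624)) (I.mix (nat_lit 66732032) (nat_lit 58376192)))
  false (nat_lit 0)
def b3_20 : Bx := Bx.mk (St.mk (I.pos (nat_lit 209174528) (nat_lit 225689600)) (I.pos (nat_lit 9994240) (nat_lit 18939904)) (I.pos (nat_lit 34226176) (nat_lit 49086464)) (I.pos (nat_lit 188203008) (nat_lit 208470016)) (I.neg (nat_lit 2686976) (nat_lit 45137920)) (I.mix (nat_lit 19267584) (nat_lit 9633792)) (I.mix (nat_lit 32636928) (nat_lit 11845632)))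
  false (nat_lit 0)
def b3_21 : Bx := Bx.mk (St.mk (I.pos (nat_lit 175259648) (nat_lit 197492736)) (I.neg (nat_lit 2736128) (nat_lit 24494080)) (I.mix (nat_lit 3637248) (nat_lit 21168128)) (I.pos (nat_lit 118931456) (nat_lit 164478976)) (I.mix (nat_lit 30457856) (nat_lit 30162944)) (I.mix (nat_lit 24657920) (nat_lit 23298048)) (I.mix (nat_lit 22462464) (nat_lit 24674304)))
  false (nat_lit 0)
def t3 : BTr := (BTr.n (BTr.n (BTr.n (BTr.n (BTr.b b3_0) (BTr.b b3_1)) (BTr.n (BTr.b b3_2) (BTr.n (BTr.b b3_3) (BTr.b b3_4)))) (BTr.n (BTr.n (BTr.b b3_5) (BTr.n (BTr.b b3_6) (BTr.b b3_7))) (BTr.n (BTr.b b3_8) (BTr.n (BTr.b b3_9) (BTr.b b3_10))))) (BTr.n (BTr.n (BTr.n (BTr.b b3_11) (BTr.b b3_12)) (BTr.n (BTr.b b3_13) (BTr.n (BTr.b b3_14) (BTr.b b3_15)))) (BTr.n (BTr.n (BTr.b b3_16) (BTr.n (BTr.b b3_17) (BTr.b b3_18))) (BTr.n (BTr.b b3_19) (BTr.n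 (BTr.b b3_20) (BTr.b b3_21))))))
namespace T3
def l0 : Tr := Tr.L (Pth.l (Pth.l (Pth.l (Pth.l Pth.z))))
def l1 : Tr := Tr.L (Pth.l (Pth.l (Pth.l (Pth.r Pth.z))))
def l2 : Tr := Tr.L (Pth.l (Pth.l (Pth.r (Pth.l Pth.z))))
def l3 : Tr := Tr.L (Pth.l (Pth.l (Pth.r (Pth.r (Pth.l Pth.z)))))
def l4 : Tr := Tr.L (Pth.l (Pth.l (Pth.r (Pth.r (Pth.r Pth.z)))))
def l5 : Tr := Tr.L (Pth.l (Pth.r (Pth.l (Pth.l Pth.z))))
def l6 : Tr := Tr.L (Pth.l (Pth.r (Pth.l (Pth.r (Pth.l Pth.z)))))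
def l7 : Tr := Tr.L (Pth.l (Pth.r (Pth.l (Pth.r (Pth.r Pth.z)))))
def l8 : Tr := Tr.L (Pth.l (Pth.r (Pth.r (Pth.l Pth.z))))
def l9 : Tr := Tr.L (Pth.l (Pth.r (Pth.r (Pth.r (Pth.l Pth.z)))))
def l10 : Tr := Tr.L (Pth.l (Pth.r (Pth.r (Pth.r (Pth.r Pth.z)))))
def l11 : Tr := Tr.L (Pth.r (Pth.l (Pth.l (Pth.l Pth.z))))
def l12 : Tr := Tr.L (Pth.r (Pth.l (Pth.l (Pth.r Pth.z))))
def l13 : Tr := Tr.L (Pth.r (Pth.l (Pth.r (Pth.l Pth.z))))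
def l14 : Tr := Tr.L (Pth.r (Pth.l (Pth.r (Pth.r (Pth.l Pth.z)))))
def l15 : Tr := Tr.L (Pth.r (Pth.l (Pth.r (Pth.r (Pth.r Pth.z)))))
def l16 : Tr := Tr.L (Pth.r (Pth.r (Pth.l (Pth.l Pth.z))))
def l17 : Tr := Tr.L (Pth.r (Pth.r (Pth.l (Pth.r (Pth.l Pth.z)))))
def l18 : Tr := Tr.L (Pth.r (Pth.r (Pth.l (Pth.r (Pth.r Pth.z)))))
def l19 : Tr := Tr.L (Pth.r (Pth.r (Pth.r (Pth.l Pth.z))))
def l20 : Tr := Tr.L (Pth.r (Pth.r (Pth.r (Pth.r (Pth.l Pth.z)))))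
def l21 : Tr := Tr.L (Pth.r (Pth.r (Pth.r (Pth.r (Pth.r Pth.z)))))
end T3
def b4_0 : Bx := Bx.mk (St.mk (I.pos (nat_lit 130088960) (nat_lit 215302144)) (I.mix (nat_lit 278528) (nat_lit 78479360)) (I.mix (nat_lit 278528) (nat_lit 120815616)) (I.pos (nat_lit 360660992) (nat_lit 445808640)) (I.mix (nat_lit 158203904) (nat_lit 58736640)) (I.mix (nat_lit 82018304) (nat_lit 65994752)) (I.mix (nat_lit 95141888) (nat_lit 86687744)))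
  false (nat_lit 132359603)
def b4_1 : Bx := Bx.mk (St.mk (I.pos (nat_lit 32768000) (nat_lit 116064256)) (I.neg (nat_lit 17858560) (nat_lit 90095616)) (I.mix (nat_lit 42074112) (nat_lit 22970368)) (I.pos (nat_lit 278003712) (nat_lit 326172672)) (I.mix (nat_lit 102105088) (nat_lit 76382208)) (I.mix (nat_lit 74825728) (nat_lit 61456384)) (I.mix (nat_lit 70287360) (nat_lit 49758208)))
  false (nat_lit 82330334)
def b4_2 : Bx := Bx.mk (St.mk (I.pos (nat_lit 97927168) (nat_lit 172392448)) (I.mix (nat_lit 28278784) (nat_lit 73023488)) (I.pos (nat_lit 14237696) (nat_lit 125534208)) (I.pos (nat_lit 304463872) (nat_lit 399949824)) (I.mix (nat_lit 182910976) (nat_lit 60719104)) (I.mix (nat_lit 130187264) (nat_lit 89030656)) (I.mix (nat_lit 136888320) (nat_lit 114491392)))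
  false (nat_lit 141736947)
def b4_3 : Bx := Bx.mk (St.mk (I.neg (nat_lit 32751616) (nat_lit 122830848)) (I.pos (nat_lit 17498112) (nat_lit 90095616)) (I.mix (nat_lit 42074112) (nat_lit 28622848)) (I.pos (nat_lit 278003712) (nat_lit 330596352)) (I.mix (nat_lit 76382208) (nat_lit 102105088)) (I.mix (nat_lit 61423616) (nat_lit 74825728)) (I.mix (nat_lit 70287360) (nat_lit 49823744)))
  true (nat_lit 0)
def b4_4 : Bx := Bx.mk (St.mk (I.mix (nat_lit 57851904) (nat_lit 9699328)) (I.mix (nat_lit 7651328) (nat_lit 85540864)) (I.neg (nat_lit 13402112) (nat_lit 36765696)) (I.pos (nat_lit 265125888) (nat_lit 299941888)) (I.mix (nat_lit 60407808) (nat_lit 101138432)) (I.mix (nat_lit 74301440) (nat_lit 66125824)) (I.mix (nat_lit 40075264) (nat_lit 22921216)))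
  true (nat_lit 0)
def b4_5 : Bx := Bx.mk (St.mk (I.pos (nat_lit 20119552) (nat_lit 56885248)) (I.neg (nat_lit 36421632) (nat_lit 85377024)) (I.neg (nat_lit 18677760) (nat_lit 36552704)) (I.pos (nat_lit 274268160) (nat_lit 299941888)) (I.mix (nat_lit 99418112) (nat_lit 51757056)) (I.mix (nat_lit 64897024) (nat_lit 66256896)) (I.mix (nat_lit 39157760) (nat_lit 23101440)))
  false (nat_lit 51447658)
def b4_6 : Bx := Bx.mk (St.mk (I.pos (nat_lit 95567872) (nat_lit 122830848)) (I.neg (nat_lit 17498112) (nat_lit 48988160)) (I.mix (nat_lit 4734976) (nat_lit 28622848)) (I.pos (nat_lit 305266688) (nat_lit 330596352)) (I.mix (nat_lit 36634624) (nat_lit 41369600)) (I.mix (nat_lit 26165248) (nat_lit 26525696)) (I.mix (nat_lit 22609920) (nat_lit 22593536)))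
  false (nat_lit 0)
def b4_7 : Bx := Bx.mk (St.mk (I.pos (nat_lit 191873024) (nat_lit 282230784)) (I.mix (nat_lit 8011776) (nat_lit 56786944)) (I.mix (nat_lit 55967744) (nat_lit 76922880)) (I.pos (nat_lit 427786240) (nat_lit 561086464)) (I.mix (nat_lit 64798720) (nat_lit 55263232)) (I.mix (nat_lit 44531712) (nat_lit 39993344)) (I.mix (nat_lit 69812224) (nat_lit 59359232)))
  false (nat_lit 83276253)
def b4_8 : Bx := Bx.mk (St.mk (I.mix (nat_lit 7798784) (nat_lit 32456704)) (I.mix (nat_lit 41549824) (nat_lit 2834432)) (I.neg (nat_lit 16482304) (nat_lit 25411584)) (I.pos (nat_lit 265814016) (nat_lit 277807104)) (I.mix (nat_lit 31932416) (nat_lit 19185664)) (I.mix (nat_lit 17285120) (nat_lit 18448384)) (I.mix (nat_lit 6291456) (nat_lit 5292032)))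
  false (nat_lit 0)
def b4_9 : Bx := Bx.mk (St.mk (I.pos (nat_lit 181125120) (nat_lit 220495872)) (I.pos (nat_lit 18694144) (nat_lit 51019776)) (I.pos (nat_lit 22921216) (nat_lit 71925760)) (I.pos (nat_lit 404946944) (nat_lit 452329472)) (I.mix (nat_lit 74498048) (nat_lit 62144512)) (I.mix (nat_lit 52658176) (nat_lit 50741248)) (I.mix (nat_lit 72220672) (nat_lit 78495744)))
  false (nat_lit 43435976)
def b4_10 : Bx := Bx.mk (St.mk (I.pos (nat_lit 21118976) (nat_lit 44417024)) (I.neg (nat_lit 17170432) (nat_lit 43433984)) (I.neg (nat_lit 13516800) (nat_lit 24133632)) (I.pos (nat_lit 270696448) (nat_lit 280395776)) (I.mix (nat_lit 51363840) (nat_lit 40419328)) (I.mix (nat_lit 34750464) (nat_lit 32833536)) (I.mix (nat_lit 10731520) (nat_lit 10616832)))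
  false (nat_lit 0)
def b4_11 : Bx := Bx.mk (St.mk (I.pos (nat_lit 219611136) (nat_lit 274530304)) (I.mix (nat_lit 18677760) (nat_lit 34308096)) (I.mix (nat_lit 72302592) (nat_lit 34160640)) (I.pos (nat_lit 460963840) (nat_lit 545701888)) (I.mix (nat_lit 48775168) (nat_lit 42975232)) (I.mix (nat_lit 35078144) (nat_lit 34177024)) (I.mix (nat_lit 55279616) (nat_lit 57131008)))
  false (nat_lit 41784672)
def b4_12 : Bx := Bx.mk (St.mk (I.mix (nat_lit 3571712) (nat_lit 28901376)) (I.mix (nat_lit 27295744) (nat_lit 7651328)) (I.neg (nat_lit 15646720) (nat_lit 23330816)) (I.pos (nat_lit 265945088) (nat_lit 274284544)) (I.mix (nat_lit 22396928) (nat_lit 19087360)) (I.mix (nat_lit 13615104) (nat_lit 14057472)) (I.mix (nat_lit 3522560) (nat_lit 3915776)))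
  false (nat_lit 0)
def b4_13 : Bx := Bx.mk (St.mk (I.pos (nat_lit 261996544) (nat_lit 274694144)) (I.mix (nat_lit 7684096) (nat_lit 2539520)) (I.neg (nat_lit 32161792) (nat_lit 57491456)) (I.pos (nat_lit 527990784) (nat_lit 546750464)) (I.mix (nat_lit 8421376) (nat_lit 6504448)) (I.mix (nat_lit 6701056) (nat_lit 2801664)) (I.mix (nat_lit 10485760) (nat_lit 4292608)))
  false (nat_lit 0)
def b4_14 : Bx := Bx.mk (St.mk (I.mix (nat_lit 4046848) (nat_lit 10158080)) (I.mix (nat_lit 10813440) (nat_lit 3637248)) (I.neg (nat_lit 16875520) (nat_lit 22921216)) (I.pos (nat_lit 266027008) (nat_lit 270565376)) (I.mix (nat_lit 4816896) (nat_lit 2228224)) (I.mix (nat_lit 1277952) (nat_lit 3047424)) (I.mix (nat_lit 983040) (nat_lit 1458176)))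
  false (nat_lit 0)
def b4_15 : Bx := Bx.mk (St.mk (I.pos (nat_lit 24788992) (nat_lit 53002240)) (I.neg (nat_lit 17252352) (nat_lit 49332224)) (I.neg (nat_lit 13402112) (nat_lit 23937024)) (I.pos (nat_lit 271106048) (nat_lit 285032448)) (I.mix (nat_lit 38977536) (nat_lit 43974656)) (I.mix (nat_lit 31375360) (nat_lit 29638656)) (I.mix (nat_lit 10076160) (nat_lit 10633216)))
  false (nat_lit 0)
def b4_16 : Bx := Bx.mk (St.mk (I.pos (nat_lit 201588736) (nat_lit 249741312)) (I.pos (nat_lit 5505024) (nat_lit 36864000)) (I.mix (nat_lit 21020672) (nat_lit 39698432)) (I.pos (nat_lit 433618944) (nat_lit 497844224)) (I.mix (nat_lit 37224448) (nat_lit 9748480)) (I.mix (nat_lit 14155776) (nat_lit 11141120)) (I.mix (nat_lit 16515072) (nat_lit 18464768)))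
  false (nat_lit 0)
def b4_17 : Bx := Bx.mk (St.mk (I.pos (nat_lit 6422528) (nat_lit 31703040)) (I.neg (nat_lit 3620864) (nat_lit 31047680)) (I.neg (nat_lit 15777792) (nat_lit 23461888)) (I.pos (nat_lit 266485760) (nat_lit 275529728)) (I.mix (nat_lit 20185088) (nat_lit 20381696)) (I.mix (nat_lit 13877248) (nat_lit 12746752)) (I.mix (nat_lit 3588096) (nat_lit 3915776)))
  false (nat_lit 0)
def b4_18 : Bx := Bx.mk (St.mk (I.pos (nat_lit 148078592) (nat_lit 195035136)) (I.pos (nat_lit 30638080) (nat_lit 75399168)) (I.pos (nat_lit 48742400) (nat_lit 111263744)) (I.pos (nat_lit 371621888) (nat_lit 422133760)) (I.mix (nat_lit 120930304) (nat_lit 73416704)) (I.mix (nat_lit 82477056) (nat_lit 50839552)) (I.mix (nat_lit 118112256) (nat_lit 64536576)))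
  false (nat_lit 81632121)
def b4_19 : Bx := Bx.mk (St.mk (I.pos (nat_lit 23592960) (nat_lit 57966592)) (I.neg (nat_lit 29933568) (nat_lit 71729152)) (I.neg (nat_lit 14565376) (nat_lit 34111488)) (I.pos (nat_lit 274907136) (nat_lit 291733504)) (I.mix (nat_lit 90046464) (nat_lit 60407808)) (I.mix (nat_lit 43679744) (nat_lit 74301440)) (I.mix (nat_lit 24510464) (nat_lit 20496384)))
  false (nat_lit 11976098)
def b4_20 : Bx := Bx.mk (St.mk (I.pos (nat_lit 193069056) (nat_lit 286998528)) (I.mix (nat_lit 13189120) (nat_lit 58048512)) (I.mix (nat_lit 65765376) (nat_lit 78036992)) (I.pos (nat_lit 426377216) (nat_lit 569917440)) (I.mix (nat_lit 57999360) (nat_lit 67813376)) (I.mix (nat_lit 59867136) (nat_lit 37076992)) (I.mix (nat_lit 97959936) (nat_lit 54427648)))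
  false (nat_lit 90199461)
def b4_21 : Bx := Bx.mk (St.mk (I.mix (nat_lit 9715712) (nat_lit 32702464)) (I.mix (nat_lit 41205760) (nat_lit 5718016)) (I.neg (nat_lit 16433152) (nat_lit 25640960)) (I.pos (nat_lit 265814016) (nat_lit 277266432)) (I.mix (nat_lit 36012032) (nat_lit 22429696)) (I.mix (nat_lit 14761984) (nat_lit 23887872)) (I.mix (nat_lit 6193152) (nat_lit 5570560)))
  false (nat_lit 0)
def b4_22 : Bx := Bx.mk (St.mk (I.pos (nat_lit 19021824) (nat_lit 32931840)) (I.neg (nat_lit 22839296) (nat_lit 38289408)) (I.neg (nat_lit 16580608) (nat_lit 24248320)) (I.pos (nat_lit 270041088) (nat_lit 277790720)) (I.mix (nat_lit 25509888) (nat_lit 13205504)) (I.mix (nat_lit 12091392) (nat_lit 16236544)) (I.mix (nat_lit 4505600) (nat_lit 4177920)))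
  false (nat_lit 0)
def b4_23 : Bx := Bx.mk (St.mk (I.pos (nat_lit 247283712) (nat_lit 275202048)) (I.mix (nat_lit 14123008) (nat_lit 12353536)) (I.neg (nat_lit 14368768) (nat_lit 66781184)) (I.pos (nat_lit 501399552) (nat_lit 546930688)) (I.mix (nat_lit 33226752) (nat_lit 19890176)) (I.mix (nat_lit 18743296) (nat_lit 19300352)) (I.mix (nat_lit 25919488) (nat_lit 33275904)))
  false (nat_lit 0)
def t4 : BTr := (BTr.n (BTr.n (BTr.n (BTr.n (BTr.b b4_0) (BTr.n (BTr.b b4_1) (BTr.b b4_2))) (BTr.n (BTr.b b4_3) (BTr.n (BTr.b b4_4) (BTr.b b4_5)))) (BTr.n (BTr.n (BTr.b b4_6) (BTr.n (BTr.b b4_7) (BTr.b b4_8))) (BTr.n (BTr.b b4_9) (BTr.n (BTr.b b4_10) (BTr.b b4_11))))) (BTr.n (BTr.n (BTr.n (BTr.b b4_12) (BTr.n (BTr.b b4_13) (BTr.b b4_14))) (BTr.n (BTr.b b4_15) (BTr.n (BTr.b b4_16) (BTr.b b4_17)))) (BTr.n (BTr.n (BTr.b b4_18) (BTr.n (BTr.b b4_19)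 (BTr.b b4_20))) (BTr.n (BTr.b b4_21) (BTr.n (BTr.b b4_22) (BTr.b b4_23))))))
namespace T4
def l0 : Tr := Tr.L (Pth.l (Pth.l (Pth.l (Pth.l Pth.z))))
def l1 : Tr := Tr.L (Pth.l (Pth.l (Pth.l (Pth.r (Pth.l Pth.z)))))
def l2 : Tr := Tr.L (Pth.l (Pth.l (Pth.l (Pth.r (Pth.r Pth.z)))))
def l3 : Tr := Tr.L (Pth.l (Pth.l (Pth.r (Pth.l Pth.z))))
def l4 : Tr := Tr.L (Pth.l (Pth.l (Pth.r (Pth.r (Pth.l Pth.z)))))
def l5 : Tr := Tr.L (Pth.l (Pth.l (Pth.r (Pth.r (Pth.r Pth.z)))))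
def l6 : Tr := Tr.L (Pth.l (Pth.r (Pth.l (Pth.l Pth.z))))
def l7 : Tr := Tr.L (Pth.l (Pth.r (Pth.l (Pth.r (Pth.l Pth.z)))))
def l8 : Tr := Tr.L (Pth.l (Pth.r (Pth.l (Pth.r (Pth.r Pth.z)))))
def l9 : Tr := Tr.L (Pth.l (Pth.r (Pth.r (Pth.l Pth.z))))
def l10 : Tr := Tr.L (Pth.l (Pth.r (Pth.r (Pth.r (Pth.l Pth.z)))))
def l11 : Tr := Tr.L (Pth.l (Pth.r (Pth.r (Pth.r (Pth.r Pth.z)))))
def l12 : Tr := Tr.L (Pth.r (Pth.l (Pth.l (Pth.l Pth.z))))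
def l13 : Tr := Tr.L (Pth.r (Pth.l (Pth.l (Pth.r (Pth.l Pth.z)))))
def l14 : Tr := Tr.L (Pth.r (Pth.l (Pth.l (Pth.r (Pth.r Pth.z)))))
def l15 : Tr := Tr.L (Pth.r (Pth.l (Pth.r (Pth.l Pth.z))))
def l16 : Tr := Tr.L (Pth.r (Pth.l (Pth.r (Pth.r (Pth.l Pth.z)))))
def l17 : Tr := Tr.L (Pth.r (Pth.l (Pth.r (Pth.r (Pth.r Pth.z)))))
def l18 : Tr := Tr.L (Pth.r (Pth.r (Pth.l (Pth.l Pth.z))))
def l19 : Tr := Tr.L (Pth.r (Pth.r (Pth.l (Pth.r (Pth.l Pth.z)))))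
def l20 : Tr := Tr.L (Pth.r (Pth.r (Pth.l (Pth.r (Pth.r Pth.z)))))
def l21 : Tr := Tr.L (Pth.r (Pth.r (Pth.r (Pth.l Pth.z))))
def l22 : Tr := Tr.L (Pth.r (Pth.r (Pth.r (Pth.r (Pth.l Pth.z)))))
def l23 : Tr := Tr.L (Pth.r (Pth.r (Pth.r (Pth.r (Pth.r Pth.z)))))
end T4
def b5_0 : Bx := Bx.mk (St.mk (I.pos (nat_lit 151355392) (nat_lit 215302144)) (I.mix (nat_lit 278528) (nat_lit 55181312)) (I.mix (nat_lit 278528) (nat_lit 116736000)) (I.pos (nat_lit 232701952) (nat_lit 317489152)) (I.mix (nat_lit 110870528) (nat_lit 42483712)) (I.mix (nat_lit 69976064) (nat_lit 47038464)) (I.mix (nat_lit 83066880) (nat_lit 45236224)))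
  false (nat_lit 54616494)
def b5_1 : Bx := Bx.mk (St.mk (I.pos (nat_lit 82182144) (nat_lit 141803520)) (I.neg (nat_lit 7651328) (nat_lit 69451776)) (I.mix (nat_lit 26525696) (nat_lit 37355520)) (I.pos (nat_lit 178094080) (nat_lit 218497024)) (I.mix (nat_lit 70926336) (nat_lit 70369280)) (I.mix (nat_lit 50397184) (nat_lit 54804480)) (I.mix (nat_lit 38535168) (nat_lit 50954240)))
  false (nat_lit 29226038)
def b5_2 : Bx := Bx.mk (St.mk (I.mix (nat_lit 27344896) (nat_lit 3801088)) (I.mix (nat_lit 38240256) (nat_lit 7110656)) (I.pos (nat_lit 20004864) (nat_lit 28852224)) (I.pos (nat_lit 138592256) (nat_lit 149438464)) (I.mix (nat_lit 35373056) (nat_lit 64749568)) (I.mix (nat_lit 27590656) (nat_lit 41418752)) (I.mix (nat_lit 7110656) (nat_lit 10780672)))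
  true (nat_lit 0)
def b5_3 : Bx := Bx.mk (St.mk (I.pos (nat_lit 131399680) (nat_lit 178962432)) (I.mix (nat_lit 1572864) (nat_lit 50413568)) (I.pos (nat_lit 49184768) (nat_lit 114343936)) (I.pos (nat_lit 201768960) (nat_lit 261488640)) (I.mix (nat_lit 147783680) (nat_lit 35274752)) (I.mix (nat_lit 119898112) (nat_lit 56213504)) (I.mix (nat_lit 123977728) (nat_lit 49659904)))
  false (nat_lit 51032650)
def b5_4 : Bx := Bx.mk (St.mk (I.mix (nat_lit 3801088) (nat_lit 27344896)) (I.mix (nat_lit 7766016) (nat_lit 38240256)) (I.pos (nat_lit 20004864) (nat_lit 28852224)) (I.pos (nat_lit 138608640) (nat_lit 149438464)) (I.mix (nat_lit 64749568) (nat_lit 35373056)) (I.mix (nat_lit 41418752) (nat_lit 27590656)) (I.mix (nat_lit 7110656) (nat_lit 10780672)))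
  false (nat_lit 0)
def b5_5 : Bx := Bx.mk (St.mk (I.pos (nat_lit 117751808) (nat_lit 145162240)) (I.neg (nat_lit 6684672) (nat_lit 32161792)) (I.pos (nat_lit 11550720) (nat_lit 38649856)) (I.pos (nat_lit 192839680) (nat_lit 220823552)) (I.mix (nat_lit 57573376) (nat_lit 48594944)) (I.mix (nat_lit 31096832) (nat_lit 45056000)) (I.mix (nat_lit 33472512) (nat_lit 38993920)))
  false (nat_lit 0)
def b5_6 : Bx := Bx.mk (St.mk (I.mix (nat_lit 16187392) (nat_lit 1966080)) (I.mix (nat_lit 9125888) (nat_lit 8945664)) (I.pos (nat_lit 20283392) (nat_lit 25690112)) (I.pos (nat_lit 138625024) (nat_lit 143753216)) (I.mix (nat_lit 32145408) (nat_lit 26001408)) (I.mix (nat_lit 17760256) (nat_lit 23658496)) (I.mix (nat_lit 3964928) (nat_lit 2457600)))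
  true (nat_lit 0)
def b5_7 : Bx := Bx.mk (St.mk (I.pos (nat_lit 135413760) (nat_lit 165576704)) (I.neg (nat_lit 14106624) (nat_lit 38289408)) (I.pos (nat_lit 8093696) (nat_lit 34684928)) (I.pos (nat_lit 210960384) (nat_lit 242483200)) (I.mix (nat_lit 53133312) (nat_lit 60047360)) (I.mix (nat_lit 52920320) (nat_lit 39075840)) (I.mix (nat_lit 48644096) (nat_lit 36077568)))
  false (nat_lit 0)
def b5_8 : Bx := Bx.mk (St.mk (I.pos (nat_lit 138985472) (nat_lit 178896896)) (I.mix (nat_lit 38256640) (nat_lit 2605056)) (I.pos (nat_lit 9715712) (nat_lit 57835520)) (I.pos (nat_lit 213532672) (nat_lit 257064960)) (I.mix (nat_lit 63012864) (nat_lit 70959104)) (I.mix (nat_lit 58785792) (nat_lit 52723712)) (I.mix (nat_lit 56983552) (nat_lit 52363264)))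
  false (nat_lit 15415261)
def b5_9 : Bx := Bx.mk (St.mk (I.pos (nat_lit 130908160) (nat_lit 180191232)) (I.mix (nat_lit 17317888) (nat_lit 26935296)) (I.pos (nat_lit 33701888) (nat_lit 88227840)) (I.pos (nat_lit 201572352) (nat_lit 258850816)) (I.mix (nat_lit 124649472) (nat_lit 72859648)) (I.mix (nat_lit 109953024) (nat_lit 64274432)) (I.mix (nat_lit 108986368) (nat_lit 63111168)))
  false (nat_lit 21876397)
def b5_10 : Bx := Bx.mk (St.mk (I.pos (nat_lit 8929280) (nat_lit 68993024)) (I.mix (nat_lit 7225344) (nat_lit 41828352)) (I.pos (nat_lit 4931584) (nat_lit 30031872)) (I.pos (nat_lit 139493376) (nat_lit 160481280)) (I.mix (nat_lit 53231616) (nat_lit 43827200)) (I.mix (nat_lit 46710784) (nat_lit 29376512)) (I.mix (nat_lit 25182208) (nat_lit 18595840)))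
  false (nat_lit 0)
def b5_11 : Bx := Bx.mk (St.mk (I.pos (nat_lit 57065472) (nat_lit 109084672)) (I.mix (nat_lit 66109440) (nat_lit 7847936)) (I.mix (nat_lit 24494080) (nat_lit 15581184)) (I.pos (nat_lit 153288704) (nat_lit 195084288)) (I.mix (nat_lit 67600384) (nat_lit 48873472)) (I.mix (nat_lit 34930688) (nat_lit 62357504)) (I.mix (nat_lit 25935872) (nat_lit 34324480)))
  false (nat_lit 0)
def b5_12 : Bx := Bx.mk (St.mk (I.neg (nat_lit 8929280) (nat_lit 68993024)) (I.mix (nat_lit 41828352) (nat_lit 7225344)) (I.pos (nat_lit 4931584) (nat_lit 30031872)) (I.pos (nat_lit 139493376) (nat_lit 160481280)) (I.mix (nat_lit 43827200) (nat_lit 53231616)) (I.mix (nat_lit 29376512) (nat_lit 46710784)) (I.mix (nat_lit 25247744) (nat_lit 18595840)))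
  true (nat_lit 0)
def b5_13 : Bx := Bx.mk (St.mk (I.pos (nat_lit 208830464) (nat_lit 271466496)) (I.mix (nat_lit 15155200) (nat_lit 28262400)) (I.mix (nat_lit 1441792) (nat_lit 78282752)) (I.pos (nat_lit 309248000) (nat_lit 414105600)) (I.mix (nat_lit 51134464) (nat_lit 22249472)) (I.mix (nat_lit 28491776) (nat_lit 30212096)) (I.mix (nat_lit 46874624) (nat_lit 45957120)))
  false (nat_lit 0)
def b5_14 : Bx := Bx.mk (St.mk (I.pos (nat_lit 162938880) (nat_lit 207093760)) (I.pos (nat_lit 14761984) (nat_lit 52559872)) (I.pos (nat_lit 56115200) (nat_lit 113033216)) (I.pos (nat_lit 250413056) (nat_lit 295616512)) (I.mix (nat_lit 105512960) (nat_lit 67600384)) (I.mix (nat_lit 82100224) (nat_lit 49872896)) (I.mix (nat_lit 122257408) (nat_lit 48857088)))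
  false (nat_lit 46492306)
def b5_15 : Bx := Bx.mk (St.mk (I.pos (nat_lit 198393856) (nat_lit 283312128)) (I.mix (nat_lit 11059200) (nat_lit 42205184)) (I.pos (nat_lit 3424256) (nat_lit 101302272)) (I.pos (nat_lit 297271296) (nat_lit 437927936)) (I.mix (nat_lit 65863680) (nat_lit 65044480)) (I.mix (nat_lit 57294848) (nat_lit 42254336)) (I.mix (nat_lit 94470144) (nat_lit 65585152)))
  false (nat_lit 60141676)
def b5_16 : Bx := Bx.mk (St.mk (I.pos (nat_lit 249217024) (nat_lit 276103168)) (I.mix (nat_lit 12107776) (nat_lit 12992512)) (I.pos (nat_lit 1949696) (nat_lit 50872320)) (I.pos (nat_lit 378503168) (nat_lit 422723584)) (I.mix (nat_lit 32210944) (nat_lit 25493504)) (I.mix (nat_lit 22003712) (nat_lit 19021824)) (I.mix (nat_lit 37847040) (nat_lit 29032448)))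
  false (nat_lit 0)
def b5_17 : Bx := Bx.mk (St.mk (I.pos (nat_lit 195969024) (nat_lit 253444096)) (I.pos (nat_lit 15499264) (nat_lit 40321024)) (I.pos (nat_lit 52183040) (nat_lit 98828288)) (I.pos (nat_lit 293109760) (nat_lit 377782272)) (I.mix (nat_lit 62554112) (nat_lit 16695296)) (I.mix (nat_lit 34324480) (nat_lit 18186240)) (I.mix (nat_lit 52346880) (nat_lit 24788992)))
  false (nat_lit 1491403)
def b5_18 : Bx := Bx.mk (St.mk (I.pos (nat_lit 186957824) (nat_lit 223543296)) (I.pos (nat_lit 6619136) (nat_lit 34242560)) (I.pos (nat_lit 41500672) (nat_lit 89735168)) (I.pos (nat_lit 280264704) (nat_lit 321011712)) (I.mix (nat_lit 74170368) (nat_lit 43974656)) (I.mix (nat_lit 46678016) (nat_lit 37011456)) (I.mix (nat_lit 69042176) (nat_lit 53510144)))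
  false (nat_lit 0)
def b5_19 : Bx := Bx.mk (St.mk (I.pos (nat_lit 246104064) (nat_lit 274087936)) (I.mix (nat_lit 17022976) (nat_lit 13434880)) (I.mix (nat_lit 5357568) (nat_lit 51625984)) (I.pos (nat_lit 371589120) (nat_lit 418021376)) (I.mix (nat_lit 38748160) (nat_lit 32243712)) (I.mix (nat_lit 27934720) (nat_lit 23379968)) (I.mix (nat_lit 46727168) (nat_lit 36143104)))
  false (nat_lit 0)
def b5_20 : Bx := Bx.mk (St.mk (I.pos (nat_lit 189366272) (nat_lit 221577216)) (I.pos (nat_lit 5423104) (nat_lit 30932992)) (I.pos (nat_lit 39485440) (nat_lit 82788352)) (I.pos (nat_lit 283672576) (nat_lit 316751872)) (I.mix (nat_lit 87785472) (nat_lit 37453824)) (I.mix (nat_lit 53264384) (nat_lit 35061760)) (I.mix (nat_lit 77299712) (nat_lit 47972352)))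
  false (nat_lit 0)
def t5 : BTr := (BTr.n (BTr.n (BTr.n (BTr.n (BTr.b b5_0) (BTr.b b5_1)) (BTr.n (BTr.b b5_2) (BTr.n (BTr.b b5_3) (BTr.b b5_4)))) (BTr.n (BTr.n (BTr.b b5_5) (BTr.b b5_6)) (BTr.n (BTr.b b5_7) (BTr.n (BTr.b b5_8) (BTr.b b5_9))))) (BTr.n (BTr.n (BTr.n (BTr.b b5_10) (BTr.b b5_11)) (BTr.n (BTr.b b5_12) (BTr.n (BTr.b b5_13) (BTr.b b5_14)))) (BTr.n (BTr.n (BTr.b b5_15) (BTr.n (BTr.b b5_16) (BTr.b b5_17))) (BTr.n (BTr.b b5_18) (BTr.n (BTr.b b5_19) (BTr.b b5_20))))))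
namespace T5
def l0 : Tr := Tr.L (Pth.l (Pth.l (Pth.l (Pth.l Pth.z))))
def l1 : Tr := Tr.L (Pth.l (Pth.l (Pth.l (Pth.r Pth.z))))
def l2 : Tr := Tr.L (Pth.l (Pth.l (Pth.r (Pth.l Pth.z))))
def l3 : Tr := Tr.L (Pth.l (Pth.l (Pth.r (Pth.r (Pth.l Pth.z)))))
def l4 : Tr := Tr.L (Pth.l (Pth.l (Pth.r (Pth.r (Pth.r Pth.z)))))
def l5 : Tr := Tr.L (Pth.l (Pth.r (Pth.l (Pth.l Pth.z))))
def l6 : Tr := Tr.L (Pth.l (Pth.r (Pth.l (Pth.r Pth.z))))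
def l7 : Tr := Tr.L (Pth.l (Pth.r (Pth.r (Pth.l Pth.z))))
def l8 : Tr := Tr.L (Pth.l (Pth.r (Pth.r (Pth.r (Pth.l Pth.z)))))
def l9 : Tr := Tr.L (Pth.l (Pth.r (Pth.r (Pth.r (Pth.r Pth.z)))))
def l10 : Tr := Tr.L (Pth.r (Pth.l (Pth.l (Pth.l Pth.z))))
def l11 : Tr := Tr.L (Pth.r (Pth.l (Pth.l (Pth.r Pth.z))))
def l12 : Tr := Tr.L (Pth.r (Pth.l (Pth.r (Pth.l Pth.z))))
def l13 : Tr := Tr.L (Pth.r (Pth.l (Pth.r (Pth.r (Pth.l Pth.z)))))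
def l14 : Tr := Tr.L (Pth.r (Pth.l (Pth.r (Pth.r (Pth.r Pth.z)))))
def l15 : Tr := Tr.L (Pth.r (Pth.r (Pth.l (Pth.l Pth.z))))
def l16 : Tr := Tr.L (Pth.r (Pth.r (Pth.l (Pth.r (Pth.l Pth.z)))))
def l17 : Tr := Tr.L (Pth.r (Pth.r (Pth.l (Pth.r (Pth.r Pth.z)))))
def l18 : Tr := Tr.L (Pth.r (Pth.r (Pth.r (Pth.l Pth.z))))
def l19 : Tr := Tr.L (Pth.r (Pth.r (Pth.r (Pth.r (Pth.l Pth.z)))))
def l20 : Tr := Tr.L (Pth.r (Pth.r (Pth.r (Pth.r (Pth.r Pth.z)))))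
end T5
theorem bx0_0 : BoxOK sI cl4 cl5 cl13 t2 t4 b0_0 :=
  box_mk (TrL.c (I.pos (nat_lit 0) (nat_lit 0)) (xb (xa (xb T2.l0 T2.l0) (xb T2.l0 T2.l0)) (xa (xb (xa (xb T2.l0 T2.l0) T2.l0) (xa (xb (xa T2.l0 T2.l0) (xa (xs T2.l0 T2.l0) T2.l0)) (xb T2.l0 (xs T2.l0 (xa T2.l0 T2.l0))))) (xb (xa T2.l0 T2.l0) (xa (xb T2.l0 (xs T2.l0 (xa T2.l0 T2.l0))) (xb (xs T2.l0 T2.l0) (xs (xa T2.l0 T2.l0) (xa T2.l0 T2.l0)))))))
  (TrL.c (I.pos (nat_lit 0) (nat_lit 0)) (xb T4.l1 (xa (xb T4.l1 T4.l1) (xb T4.l1 (xa T4.l1 T4.l1))))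
  (TrL.c (I.pos (nat_lit 0) (nat_lit 0)) (xb T2.l1 T2.l1)
  (TrL.c (I.pos (nat_lit 0) (nat_lit 0)) (xb T4.l2 (xa T4.l2 (xb T4.l2 T4.l2)))
  (TrL.c (I.pos (nat_lit 0) (nat_lit 0)) (xb (xa T2.l2 T2.l2) (xa T2.l2 T2.l2))
  (TrL.c (I.pos (nat_lit 0) (nat_lit 0)) (xb T4.l3 (xa (xb T4.l3 T4.l3) (xb T4.l3 (xa T4.l3 T4.l3))))
  TrL.n)))))) (by decide +kernel)
theorem bx0_1 : BoxOK sI cl4 cl5 cl13 t2 t4 b0_1 :=
  box_mk (TrL.c (I.pos (nat_lit 0) (nat_lit 0)) (xb (xa (xb T2.l6 T2.l6) (xb T2.l8 T2.l6)) (xa (xb T2.l6 T2.l6) (xb T2.l6 T2.l6)))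
  (TrL.c (I.pos (nat_lit 0) (nat_lit 0)) T4.l1
  (TrL.c (I.pos (nat_lit 0) (nat_lit 0)) T2.l1
  (TrL.c (I.pos (nat_lit 0) (nat_lit 0)) T4.l2
  (TrL.c (I.pos (nat_lit 0) (nat_lit 0)) T2.l7
  (TrL.c (I.pos (nat_lit 0) (nat_lit 0)) T4.l3
  TrL.n)))))) (by decide +kernel)
theorem bx0_2 : BoxOK sI cl4 cl5 cl13 t2 t4 b0_2 :=
  box_mk (TrL.c (I.pos (nat_lit 0) (nat_lit 0)) (xb (xa (xb T2.l8 T2.l8) (xb T2.l8 T2.l8)) (xa (xb T2.l8 T2.l8) (xb T2.l8 T2.l8)))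
  (TrL.c (I.pos (nat_lit 0) (nat_lit 0)) (xb T4.l1 T4.l1)
  (TrL.c (I.pos (nat_lit 0) (nat_lit 0)) T2.l1
  (TrL.c (I.pos (nat_lit 0) (nat_lit 0)) (xb T4.l2 T4.l2)
  (TrL.c (I.pos (nat_lit 0) (nat_lit 0)) T2.l9
  (TrL.c (I.pos (nat_lit 0) (nat_lit 0)) (xb T4.l3 T4.l3)
  TrL.n)))))) (by decide +kernel)
theorem bx0_3 : BoxOK sI cl4 cl5 cl13 t2 t4 b0_3 :=
  box_mk (TrL.c (I.pos (nat_lit 0) (nat_lit 0)) T4.l1
  (TrL.c (I.pos (nat_lit 0) (nat_lit 0)) T2.l1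
  TrL.n)) (by decide +kernel)
theorem bx0_4 : BoxOK sI cl4 cl5 cl13 t2 t4 b0_4 :=
  box_mk (TrL.c (I.pos (nat_lit 0) (nat_lit 0)) T2.l18
  (TrL.c (I.pos (nat_lit 0) (nat_lit 0)) T4.l1
  (TrL.c (I.pos (nat_lit 0) (nat_lit 0)) T2.l1
  (TrL.c (I.pos (nat_lit 0) (nat_lit 0)) T4.l2
  (TrL.c (I.pos (nat_lit 0) (nat_lit 0)) T2.l7
  (TrL.c (I.pos (nat_lit 0) (nat_lit 0)) T4.l3
  TrL.n)))))) (by decide +kernel)
theorem bx0_5 : BoxOK sI cl4 cl5 cl13 t2 t4 b0_5 :=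
  box_mk (TrL.c (I.pos (nat_lit 0) (nat_lit 0)) (xa T2.l0 T2.l4)
  (TrL.c (I.pos (nat_lit 0) (nat_lit 0)) (xa T4.l1 T4.l1)
  (TrL.c (I.pos (nat_lit 0) (nat_lit 0)) T2.l5
  (TrL.c (I.pos (nat_lit 0) (nat_lit 0)) (xa T4.l2 (xb (xa T4.l2 T4.l2) T4.l2))
  (TrL.c (I.pos (nat_lit 0) (nat_lit 0)) T2.l3
  (TrL.c (I.pos (nat_lit 0) (nat_lit 0)) (xa T4.l3 T4.l3)
  TrL.n)))))) (by decide +kernel)
theorem bx0_6 : BoxOK sI cl4 cl5 cl13 t2 t4 b0_6 :=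
  box_mk (TrL.c (I.pos (nat_lit 0) (nat_lit 0)) (xa (xb (xa (xb T2.l0 T2.l0) T2.l0) (xa (xb T2.l0 T2.l0) T2.l0)) (xb T2.l4 (xa T2.l0 (xb T2.l4 (xa T2.l0 T2.l4)))))
  (TrL.c (I.pos (nat_lit 0) (nat_lit 0)) (xa (xb T4.l1 T4.l1) (xb T4.l1 T4.l1))
  (TrL.c (I.pos (nat_lit 0) (nat_lit 0)) (xa T2.l1 T2.l1)
  (TrL.c (I.pos (nat_lit 0) (nat_lit 0)) (xa (xb T4.l2 T4.l2) (xb (xa T4.l2 T4.l2) (xa T4.l2 (xb T4.l2 T4.l2))))
  (TrL.c (I.pos (nat_lit 0) (nat_lit 0)) (xa T2.l3 (xb T2.l2 T2.l2))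
  (TrL.c (I.pos (nat_lit 0) (nat_lit 0)) (xa (xb T4.l3 T4.l3) (xb T4.l3 T4.l3))
  TrL.n)))))) (by decide +kernel)
theorem bx0_7 : BoxOK sI cl4 cl5 cl13 t2 t4 b0_7 :=
  box_mk (TrL.c (I.pos (nat_lit 0) (nat_lit 0)) (xa (xb (xa (xb T2.l0 (xa T2.l0 T2.l0)) (xb T2.l0 T2.l0)) (xa (xb (xa (xb T2.l0 T2.l0) T2.l0) (xs T2.l0 (xa T2.l0 T2.l0))) (xb (xa T2.l0 T2.l0) (xs T2.l0 (xa T2.l0 T2.l0))))) (xb (xa (xb T2.l0 T2.l0) (xb (xa T2.l0 (xb T2.l0 T2.l0)) (xa T2.l0 (xs T2.l0 T2.l0)))) (xa (xb (xa T2.l0 T2.l0) (xs T2.l0 (xa T2.l0 T2.l0))) (xb (xs T2.l0 (xa T2.l0 (xb T2.l0 T2.l0))) (xs (xa T2.l0 T2.l0) (xa (xb T2.l0 T2.l0) (xb T2.l0 T2.l0)))))))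
  (TrL.c (I.pos (nat_lit 0) (nat_lit 0)) (xa (xb (xa T4.l1 T4.l1) (xa T4.l1 T4.l1)) (xb (xa T4.l1 T4.l1) (xa T4.l1 (xb T4.l1 T4.l1))))
  (TrL.c (I.pos (nat_lit 0) (nat_lit 0)) (xa T2.l1 (xs (xb T2.l1 T2.l1) (xb T2.l1 T2.l1)))
  (TrL.c (I.pos (nat_lit 0) (nat_lit 0)) (xa (xb (xa T4.l2 T4.l2) (xa T4.l2 T4.l2)) (xb (xa (xb T4.l2 T4.l2) (xb (xc T4.l2 T4.l2) (xs T4.l2 T4.l2))) (xa (xb T4.l2 T4.l2) (xb (xs T4.l2 T4.l2) (xs T4.l2 T4.l2)))))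
  (TrL.c (I.pos (nat_lit 0) (nat_lit 0)) (xa (xb T2.l3 T2.l2) (xs (xb T2.l2 T2.l2) (xb T2.l2 T2.l2)))
  (TrL.c (I.pos (nat_lit 0) (nat_lit 0)) (xa (xb (xa T4.l3 T4.l3) (xa T4.l3 T4.l3)) (xb (xa T4.l3 T4.l3) (xa T4.l3 (xb T4.l3 T4.l3))))
  TrL.n)))))) (by decide +kernel)
theorem bx0_8 : BoxOK sI cl4 cl5 cl13 t2 t4 b0_8 :=
  box_mk (TrL.c (I.pos (nat_lit 0) (nat_lit 0)) (xa (xb (xa T2.l8 (xb T2.l10 T2.l10)) (xa T2.l8 (xb T2.l10 T2.l10))) (xb (xa (xb T2.l10 T2.l10) (xb (xa T2.l10 T2.l10) T2.l10)) (xa (xb T2.l10 T2.l10) (xb T2.l10 T2.l10))))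
  (TrL.c (I.pos (nat_lit 0) (nat_lit 0)) (xa T4.l1 T4.l1)
  (TrL.c (I.pos (nat_lit 0) (nat_lit 0)) T2.l1
  (TrL.c (I.pos (nat_lit 0) (nat_lit 0)) (xa T4.l2 (xb T4.l2 T4.l2))
  (TrL.c (I.pos (nat_lit 0) (nat_lit 0)) (xa T2.l11 T2.l11)
  (TrL.c (I.pos (nat_lit 0) (nat_lit 0)) (xa T4.l3 T4.l3)
  TrL.n)))))) (by decide +kernel)
theorem bx0_9 : BoxOK sI cl4 cl5 cl13 t2 t4 b0_9 :=
  box_mk (TrL.c (I.pos (nat_lit 0) (nat_lit 0)) T4.l6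
  (TrL.c (I.pos (nat_lit 0) (nat_lit 0)) T2.l14
  TrL.n)) (by decide +kernel)
theorem bx0_10 : BoxOK sI cl4 cl5 cl13 t2 t4 b0_10 :=
  box_mk (TrL.c (I.pos (nat_lit 0) (nat_lit 0)) (xb (xa (xb T2.l15 T2.l15) T2.l0) (xa (xb (xa T2.l15 T2.l15) (xa (xb T2.l15 T2.l15) (xb T2.l15 T2.l15))) (xb T2.l0 (xa T2.l0 T2.l0))))
  (TrL.c (I.pos (nat_lit 0) (nat_lit 0)) T4.l1
  (TrL.c (I.pos (nat_lit 0) (nat_lit 0)) T2.l1
  (TrL.c (I.pos (nat_lit 0) (nat_lit 0)) T4.l2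
  (TrL.c (I.pos (nat_lit 0) (nat_lit 0)) (xb T2.l16 T2.l16)
  (TrL.c (I.pos (nat_lit 0) (nat_lit 0)) T4.l3
  TrL.n)))))) (by decide +kernel)
theorem bx0_11 : BoxOK sI cl4 cl5 cl13 t2 t4 b0_11 :=
  box_mk (TrL.c (I.pos (nat_lit 0) (nat_lit 0)) (xb (xa T2.l12 T2.l12) (xa (xb T2.l12 T2.l12) (xb T2.l12 T2.l12)))
  (TrL.c (I.pos (nat_lit 0) (nat_lit 0)) T4.l6
  (TrL.c (I.pos (nat_lit 0) (nat_lit 0)) T2.l14
  (TrL.c (I.pos (nat_lit 0) (nat_lit 0)) T4.l2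
  (TrL.c (I.pos (nat_lit 0) (nat_lit 0)) T2.l17
  (TrL.c (I.pos (nat_lit 0) (nat_lit 0)) T4.l3
  TrL.n)))))) (by decide +kernel)
theorem bx0_12 : BoxOK sI cl4 cl5 cl13 t2 t4 b0_12 :=
  box_mk (TrL.c (I.pos (nat_lit 0) (nat_lit 0)) (xb (xa T2.l15 T2.l0) T2.l0)
  (TrL.c (I.pos (nat_lit 0) (nat_lit 0)) T4.l1
  (TrL.c (I.pos (nat_lit 0) (nat_lit 0)) T2.l1
  (TrL.c (I.pos (nat_lit 0) (nat_lit 0)) T4.l2
  (TrL.c (I.pos (nat_lit 0) (nat_lit 0)) T2.l3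
  (TrL.c (I.pos (nat_lit 0) (nat_lit 0)) T4.l3
  TrL.n)))))) (by decide +kernel)
theorem bx0_13 : BoxOK sI cl4 cl5 cl13 t2 t4 b0_13 :=
  box_mk (TrL.c (I.pos (nat_lit 0) (nat_lit 0)) (xa (xb T2.l10 T2.l15) (xb (xa T2.l15 T2.l15) T2.l15))
  (TrL.c (I.pos (nat_lit 0) (nat_lit 0)) T4.l1
  (TrL.c (I.pos (nat_lit 0) (nat_lit 0)) T2.l1
  (TrL.c (I.pos (nat_lit 0) (nat_lit 0)) T4.l2
  (TrL.c (I.pos (nat_lit 0) (nat_lit 0)) T2.l16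
  (TrL.c (I.pos (nat_lit 0) (nat_lit 0)) T4.l3
  TrL.n)))))) (by decide +kernel)
theorem bx0_14 : BoxOK sI cl4 cl5 cl13 t2 t4 b0_14 :=
  box_mk (TrL.c (I.pos (nat_lit 0) (nat_lit 0)) (xa (xb (xa T2.l15 T2.l15) (xb T2.l15 (xa T2.l15 T2.l15))) (xb T2.l0 (xa T2.l15 T2.l0)))
  (TrL.c (I.pos (nat_lit 0) (nat_lit 0)) T4.l1
  (TrL.c (I.pos (nat_lit 0) (nat_lit 0)) T2.l1
  (TrL.c (I.pos (nat_lit 0) (nat_lit 0)) (xb (xa T4.l2 T4.l2) T4.l2)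
  (TrL.c (I.pos (nat_lit 0) (nat_lit 0)) T2.l16
  (TrL.c (I.pos (nat_lit 0) (nat_lit 0)) T4.l3
  TrL.n)))))) (by decide +kernel)
theorem bx0_15 : BoxOK sI cl4 cl5 cl13 t2 t4 b0_15 :=
  box_mk (TrL.c (I.pos (nat_lit 0) (nat_lit 0)) (xa (xb (xa T2.l10 T2.l15) (xa T2.l15 T2.l15)) (xb (xa T2.l15 T2.l15) T2.l15))
  (TrL.c (I.pos (nat_lit 0) (nat_lit 0)) T4.l1
  (TrL.c (I.pos (nat_lit 0) (nat_lit 0)) T2.l1
  (TrL.c (I.pos (nat_lit 0) (nat_lit 0)) T4.l2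
  (TrL.c (I.pos (nat_lit 0) (nat_lit 0)) T2.l16
  (TrL.c (I.pos (nat_lit 0) (nat_lit 0)) T4.l3
  TrL.n)))))) (by decide +kernel)
theorem bx0_16 : BoxOK sI cl4 cl5 cl13 t2 t4 b0_16 :=
  box_mk (TrL.c (I.pos (nat_lit 0) (nat_lit 0)) (xa T2.l15 T2.l15)
  (TrL.c (I.pos (nat_lit 0) (nat_lit 0)) T4.l1
  (TrL.c (I.pos (nat_lit 0) (nat_lit 0)) T2.l1
  (TrL.c (I.pos (nat_lit 0) (nat_lit 0)) T4.l2
  (TrL.c (I.pos (nat_lit 0) (nat_lit 0)) T2.l16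
  (TrL.c (I.pos (nat_lit 0) (nat_lit 0)) T4.l3
  TrL.n)))))) (by decide +kernel)
theorem bx0_17 : BoxOK sI cl4 cl5 cl13 t2 t4 b0_17 :=
  box_mk (TrL.c (I.pos (nat_lit 0) (nat_lit 0)) T2.l15
  (TrL.c (I.pos (nat_lit 0) (nat_lit 0)) T4.l1
  (TrL.c (I.pos (nat_lit 0) (nat_lit 0)) T2.l1
  (TrL.c (I.pos (nat_lit 0) (nat_lit 0)) T4.l2
  (TrL.c (I.pos (nat_lit 0) (nat_lit 0)) T2.l16
  (TrL.c (I.pos (nat_lit 0) (nat_lit 0)) T4.l3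
  TrL.n)))))) (by decide +kernel)
theorem bx0_18 : BoxOK sI cl4 cl5 cl13 t2 t4 b0_18 :=
  box_mk (TrL.c (I.pos (nat_lit 0) (nat_lit 0)) (xb T2.l15 T2.l15)
  (TrL.c (I.pos (nat_lit 0) (nat_lit 0)) T4.l1
  (TrL.c (I.pos (nat_lit 0) (nat_lit 0)) T2.l1
  (TrL.c (I.pos (nat_lit 0) (nat_lit 0)) T4.l2
  (TrL.c (I.pos (nat_lit 0) (nat_lit 0)) T2.l16
  (TrL.c (I.pos (nat_lit 0) (nat_lit 0)) T4.l3
  TrL.n)))))) (by decide +kernel)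
theorem bx0_19 : BoxOK sI cl4 cl5 cl13 t2 t4 b0_19 :=
  box_mk (TrL.c (I.pos (nat_lit 0) (nat_lit 0)) (xa (xb T2.l10 T2.l15) (xb (xa T2.l15 T2.l15) T2.l15))
  (TrL.c (I.pos (nat_lit 0) (nat_lit 0)) T4.l1
  (TrL.c (I.pos (nat_lit 0) (nat_lit 0)) T2.l1
  (TrL.c (I.pos (nat_lit 0) (nat_lit 0)) T4.l2
  (TrL.c (I.pos (nat_lit 0) (nat_lit 0)) T2.l16
  (TrL.c (I.pos (nat_lit 0) (nat_lit 0)) T4.l3
  TrL.n)))))) (by decide +kernel)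
theorem bx0_20 : BoxOK sI cl4 cl5 cl13 t2 t4 b0_20 :=
  box_mk (TrL.c (I.pos (nat_lit 0) (nat_lit 0)) (xb T2.l10 T2.l15)
  (TrL.c (I.pos (nat_lit 0) (nat_lit 0)) T4.l1
  (TrL.c (I.pos (nat_lit 0) (nat_lit 0)) T2.l1
  (TrL.c (I.pos (nat_lit 0) (nat_lit 0)) T4.l2
  (TrL.c (I.pos (nat_lit 0) (nat_lit 0)) T2.l16
  (TrL.c (I.pos (nat_lit 0) (nat_lit 0)) T4.l3
  TrL.n)))))) (by decide +kernel)
theorem sv0 : StarV sI cl4 cl5 cl13 t2 t4 t0 :=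
  (bt_n (bt_n (bt_n (bt_n (bt_b bx0_0) (bt_b bx0_1)) (bt_n (bt_b bx0_2) (bt_n (bt_b bx0_3) (bt_b bx0_4)))) (bt_n (bt_n (bt_b bx0_5) (bt_b bx0_6)) (bt_n (bt_b bx0_7) (bt_n (bt_b bx0_8) (bt_b bx0_9))))) (bt_n (bt_n (bt_n (bt_b bx0_10) (bt_b bx0_11)) (bt_n (bt_b bx0_12) (bt_n (bt_b bx0_13) (bt_b bx0_14)))) (bt_n (bt_n (bt_b bx0_15) (bt_n (bt_b bx0_16) (bt_b bx0_17))) (bt_n (bt_b bx0_18) (bt_n (bt_b bx0_19) (bt_b bx0_20))))))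
def S0 : StarD := StarD.mk cl4 cl5 cl13 2 4 t0
theorem c1_0_0 : chkTag sI cl4 cl13 cl5 t4 b1_0 (tg true true false RT.r2) (I.pos (nat_lit 0) (nat_lit 0))
  (xa (xb (xa (xb (xa T4.l0 T4.l0) (xa (xb T4.l0 (xs T4.l0 T4.l0)) (xb T4.l0 T4.l0))) (xb T4.l0 (xa T4.l0 T4.l0))) (xa (xb (xa (xs T4.l0 (xb T4.l0 (xd T4.l0 T4.l0))) (xs T4.l0 (xb T4.l0 T4.l0))) (xa (xs (xb T4.l0 T4.l0) (xb (xd T4.l0 T4.l0) (xd T4.l0 T4.l0))) (xs (xb T4.l0 (xd T4.l0 T4.l0)) (xb T4.l0 (xd T4.l0 T4.l0))))) (xb (xa (xs T4.l0 T4.l0) T4.l0) (xa (xs (xb T4.l0 (xd T4.l0 T4.l0)) (xb T4.l0 (xd T4.l0 T4.l0))) (xs (xb T4.l0 (xd T4.l0 T4.l0)) (xb T4.l0 (xd T4.l0 T4.l0))))))) (xb (xa (xb T4.l0 T4.l0) (xb (xa T4.l0 T4.l2) (xa T4.l0 T4.l2))) (xa (xb (xa T4.l0 T4.l0) (xa (xs (xb T4.l0 (xd T4.l0 T4.l0)) (xb T4.l0 (xd T4.l0 T4.l0))) (xs (xb T4.l0 (xd T4.l0 T4.l0)) (xb T4.l0 (xd T4.l0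 T4.l0))))) (xb (xa T4.l0 (xs T4.l0 (xb T4.l0 T4.l0))) (xa (xs (xb T4.l0 T4.l0) (xb T4.l0 (xd T4.l0 T4.l0))) (xs (xb T4.l0 (xd T4.l0 T4.l0)) (xb T4.l0 (xd T4.l0 T4.l0)))))))) = true := by decide +kernel
theorem c1_0_1 : chkTag sI cl4 cl13 cl5 t2 b1_0 (tg true false false RT.r3) (I.pos (nat_lit 0) (nat_lit 0))
  (xa (xb T2.l3 (xa T2.l3 T2.l3)) (xb T2.l3 (xa T2.l3 (xb T2.l3 (xs T2.l3 (xa T2.l3 T2.l3)))))) = true := by decide +kernel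
theorem c1_0_2 : chkTag sI cl4 cl13 cl5 t4 b1_0 (tg true true true RT.r4) (I.pos (nat_lit 0) (nat_lit 0))
  T4.l4 = true := by decide +kernel
theorem c1_0_3 : chkTag sI cl4 cl13 cl5 t2 b1_0 (tg false false false RT.r3) (I.pos (nat_lit 0) (nat_lit 0))
  (xa T2.l4 (xb T2.l4 T2.l4)) = true := by decide +kernel
theorem c1_0_4 : chkTag sI cl4 cl13 cl5 t4 b1_0 (tg false true false RT.r4) (I.pos (nat_lit 0) (nat_lit 0))
  (xa (xb T4.l5 T4.l5) (xb T4.l5 T4.l5)) = true := by decide +kernel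
theorem c1_0_5 : chkTag sI cl4 cl13 cl5 t2 b1_0 (tg false false true RT.r5) (I.pos (nat_lit 0) (nat_lit 0))
  (xa (xb T2.l5 (xa T2.l5 T2.l5)) (xb T2.l5 (xa T2.l5 (xb T2.l5 (xs T2.l5 (xa T2.l5 T2.l5)))))) = true := by decide +kernel
theorem bx1_0 : BoxOK sI cl4 cl13 cl5 t4 t2 b1_0 :=
  box_mk' [(tg true true false RT.r2), (tg true false false RT.r3), (tg true true true RT.r4), (tg false false false RT.r3), (tg false true false RT.r4), (tg false false true RT.r5)] rfl (allL_c (ex_mk c1_0_0) (allL_c (ex_mk c1_0_1) (allL_c (ex_mk c1_0_2) (allL_c (ex_mk c1_0_3) (allL_c (ex_mk c1_0_4) (allL_c (ex_mk c1_0_5) allL_n))))))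
theorem bx1_1 : BoxOK sI cl4 cl13 cl5 t4 t2 b1_1 :=
  box_mk (TrL.c (I.pos (nat_lit 0) (nat_lit 0)) (xa (xa (xa (xb T4.l7 T4.l7) T4.l7) (xa T4.l7 T4.l7)) (xa (xa T4.l7 T4.l7) (xa (xb T4.l7 T4.l7) (xb (xa T4.l7 T4.l0) (xa T4.l7 T4.l7)))))
  (TrL.c (I.pos (nat_lit 0) (nat_lit 0)) (xa T2.l3 T2.l3)
  (TrL.c (I.pos (nat_lit 0) (nat_lit 0)) T4.l4
  (TrL.c (I.pos (nat_lit 0) (nat_lit 0)) (xa T2.l4 T2.l4)
  (TrL.c (I.pos (nat_lit 0) (nat_lit 0)) (xa T4.l8 T4.l8)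
  (TrL.c (I.pos (nat_lit 0) (nat_lit 0)) (xa T2.l5 T2.l5)
  TrL.n)))))) (by decide +kernel)
theorem bx1_2 : BoxOK sI cl4 cl13 cl5 t4 t2 b1_2 :=
  box_mk (TrL.c (I.pos (nat_lit 0) (nat_lit 0)) (xb (xa (xb T4.l0 (xa T4.l9 T4.l0)) T4.l0) (xa (xb (xa T4.l9 T4.l9) (xa T4.l9 T4.l9)) (xb T4.l0 (xa T4.l9 T4.l0))))
  (TrL.c (I.pos (nat_lit 0) (nat_lit 0)) T2.l3
  (TrL.c (I.pos (nat_lit 0) (nat_lit 0)) T4.l4
  (TrL.c (I.pos (nat_lit 0) (nat_lit 0)) T2.l4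
  (TrL.c (I.pos (nat_lit 0) (nat_lit 0)) T4.l10
  (TrL.c (I.pos (nat_lit 0) (nat_lit 0)) T2.l5
  TrL.n)))))) (by decide +kernel)
theorem bx1_3 : BoxOK sI cl4 cl13 cl5 t4 t2 b1_3 :=
  box_mk (TrL.c (I.pos (nat_lit 0) (nat_lit 0)) (xa (xa (xb T4.l11 T4.l11) T4.l7) T4.l7)
  (TrL.c (I.pos (nat_lit 0) (nat_lit 0)) (xa (xa T2.l3 T2.l3) T2.l3)
  (TrL.c (I.pos (nat_lit 0) (nat_lit 0)) (xa T4.l4 T4.l4)
  (TrL.c (I.pos (nat_lit 0) (nat_lit 0)) (xa (xa T2.l4 T2.l4) T2.l4)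
  (TrL.c (I.pos (nat_lit 0) (nat_lit 0)) (xa T4.l12 T4.l12)
  (TrL.c (I.pos (nat_lit 0) (nat_lit 0)) (xa (xa T2.l5 T2.l5) T2.l5)
  TrL.n)))))) (by decide +kernel)
theorem bx1_4 : BoxOK sI cl4 cl13 cl5 t4 t2 b1_4 :=
  box_mk (TrL.c (I.pos (nat_lit 0) (nat_lit 0)) (xa (xb (xa T4.l0 T4.l0) (xa (xb T4.l0 T4.l0) T4.l0)) (xb T4.l2 (xa T4.l2 T4.l2)))
  (TrL.c (I.pos (nat_lit 0) (nat_lit 0)) (xa T2.l3 (xb (xa T2.l3 T2.l3) T2.l3))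
  (TrL.c (I.pos (nat_lit 0) (nat_lit 0)) T4.l3
  (TrL.c (I.pos (nat_lit 0) (nat_lit 0)) (xa T2.l4 T2.l4)
  (TrL.c (I.pos (nat_lit 0) (nat_lit 0)) T4.l1
  (TrL.c (I.pos (nat_lit 0) (nat_lit 0)) (xa T2.l5 (xb (xa T2.l5 T2.l5) T2.l5))
  TrL.n)))))) (by decide +kernel)
theorem c1_5_0 : chkTag sI cl4 cl13 cl5 t4 b1_5 (tg true true false RT.r2) (I.pos (nat_lit 0) (nat_lit 0))
  (xa (xb (xa (xb (xs T4.l0 (xa T4.l0 T4.l0)) (xs T4.l0 (xa T4.l0 T4.l0))) (xb (xs T4.l0 T4.l0) (xs T4.l0 (xa T4.l0 T4.l0)))) (xa (xb (xs T4.l0 (xa T4.l0 T4.l0)) (xs (xa T4.l0 T4.l0) (xa (xd T4.l0 T4.l0) (xd T4.l0 T4.l0)))) (xb (xs T4.l0 (xa T4.l0 T4.l0)) (xs (xa T4.l0 T4.l0) (xa (xd T4.l0 T4.l0) (xd T4.l0 T4.l0)))))) (xb (xa (xb T4.l2 (xs T4.l0 (xa T4.l0 T4.l0))) (xb T4.l2 (xs (xa T4.l0 T4.l2) (xa T4.l0 T4.l2)))) (xa (xb (xs (xa T4.l0 T4.l0) (xa (xd T4.l0 T4.l0) (xd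 T4.l0 T4.l0))) (xs (xa T4.l0 T4.l0) (xa (xd T4.l0 T4.l0) (xd T4.l0 (xb T4.l0 T4.l0))))) (xb (xs (xa T4.l0 T4.l0) (xa (xd T4.l0 T4.l0) (xd (xb T4.l0 T4.l0) T4.l2))) (xs (xa (xd T4.l0 T4.l0) (xd T4.l0 T4.l0)) (xa (xd (xb T4.l0 T4.l0) (xb T4.l0 T4.l0)) (xd (xb T4.l0 T4.l0) (xb T4.l0 T4.l0)))))))) = true := by decide +kernel
theorem c1_5_1 : chkTag sI cl4 cl13 cl5 t2 b1_5 (tg true false false RT.r3) (I.pos (nat_lit 0) (nat_lit 0))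
  (xa (xb (xa T2.l3 T2.l3) (xa (xs T2.l3 T2.l3) (xs T2.l3 (xd T2.l3 T2.l3)))) (xb (xa (xs T2.l3 T2.l3) (xs T2.l3 (xd T2.l3 T2.l3))) (xa (xs T2.l3 (xd T2.l3 T2.l3)) (xs T2.l3 (xd T2.l3 T2.l3))))) = true := by decide +kernel
theorem c1_5_2 : chkTag sI cl4 cl13 cl5 t4 b1_5 (tg true true true RT.r4) (I.pos (nat_lit 0) (nat_lit 0))
  (xa T4.l4 (xc T4.l4 T4.l4)) = true := by decide +kernel
theorem c1_5_3 : chkTag sI cl4 cl13 cl5 t2 b1_5 (tg false false false RT.r3) (I.pos (nat_lit 0) (nat_lit 0))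
  (xa (xb T2.l4 T2.l4) (xb (xa T2.l4 (xd T2.l4 T2.l4)) (xa T2.l4 (xd T2.l4 T2.l4)))) = true := by decide +kernel
theorem c1_5_4 : chkTag sI cl4 cl13 cl5 t4 b1_5 (tg false true false RT.r4) (I.pos (nat_lit 0) (nat_lit 0))
  (xa T4.l5 (xd T4.l5 T4.l5)) = true := by decide +kernel
theorem c1_5_5 : chkTag sI cl4 cl13 cl5 t2 b1_5 (tg false false true RT.r5) (I.pos (nat_lit 0) (nat_lit 0))
  (xa (xb (xa T2.l5 T2.l5) (xa (xs T2.l5 T2.l5) (xs T2.l5 (xd T2.l5 T2.l5)))) (xb (xa (xs T2.l5 T2.l5) (xs T2.l5 (xd T2.l5 T2.l5))) (xa (xs T2.l5 (xd T2.l5 T2.l5)) (xs T2.l5 (xd T2.l5 T2.l5))))) = true := by decide +kernel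
theorem bx1_5 : BoxOK sI cl4 cl13 cl5 t4 t2 b1_5 :=
  box_mk' [(tg true true false RT.r2), (tg true false false RT.r3), (tg true true true RT.r4), (tg false false false RT.r3), (tg false true false RT.r4), (tg false false true RT.r5)] rfl (allL_c (ex_mk c1_5_0) (allL_c (ex_mk c1_5_1) (allL_c (ex_mk c1_5_2) (allL_c (ex_mk c1_5_3) (allL_c (ex_mk c1_5_4) (allL_c (ex_mk c1_5_5) allL_n))))))
theorem bx1_6 : BoxOK sI cl4 cl13 cl5 t4 t2 b1_6 :=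
  box_mk (TrL.c (I.pos (nat_lit 0) (nat_lit 0)) T4.l20
  (TrL.c (I.pos (nat_lit 0) (nat_lit 0)) T2.l3
  (TrL.c (I.pos (nat_lit 0) (nat_lit 0)) T4.l4
  (TrL.c (I.pos (nat_lit 0) (nat_lit 0)) T2.l4
  (TrL.c (I.pos (nat_lit 0) (nat_lit 0)) T4.l21
  (TrL.c (I.pos (nat_lit 0) (nat_lit 0)) T2.l5
  TrL.n)))))) (by decide +kernel)
theorem bx1_7 : BoxOK sI cl4 cl13 cl5 t4 t2 b1_7 :=
  box_mk (TrL.c (I.pos (nat_lit 0) (nat_lit 0)) (xa T4.l7 T4.l9)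
  (TrL.c (I.pos (nat_lit 0) (nat_lit 0)) T2.l3
  (TrL.c (I.pos (nat_lit 0) (nat_lit 0)) T4.l4
  (TrL.c (I.pos (nat_lit 0) (nat_lit 0)) T2.l4
  (TrL.c (I.pos (nat_lit 0) (nat_lit 0)) T4.l22
  (TrL.c (I.pos (nat_lit 0) (nat_lit 0)) T2.l5
  TrL.n)))))) (by decide +kernel)
theorem bx1_8 : BoxOK sI cl4 cl13 cl5 t4 t2 b1_8 :=
  box_mk (TrL.c (I.pos (nat_lit 0) (nat_lit 0)) (xa (xb (xa T4.l0 T4.l2) (xa T4.l0 T4.l2)) T4.l2)
  (TrL.c (I.pos (nat_lit 0) (nat_lit 0)) (xa T2.l3 (xa T2.l3 (xb T2.l3 T2.l3)))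
  (TrL.c (I.pos (nat_lit 0) (nat_lit 0)) T4.l3
  (TrL.c (I.pos (nat_lit 0) (nat_lit 0)) (xa T2.l4 (xb (xa T2.l4 T2.l4) T2.l4))
  (TrL.c (I.pos (nat_lit 0) (nat_lit 0)) T4.l1
  (TrL.c (I.pos (nat_lit 0) (nat_lit 0)) (xa T2.l5 (xa T2.l5 (xb T2.l5 T2.l5)))
  TrL.n)))))) (by decide +kernel)
theorem bx1_9 : BoxOK sI cl4 cl13 cl5 t4 t2 b1_9 :=
  box_mk (TrL.c (I.pos (nat_lit 0) (nat_lit 0)) (xa (xb (xa T4.l0 T4.l0) (xa (xb T4.l0 T4.l9) T4.l0)) T4.l0)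
  (TrL.c (I.pos (nat_lit 0) (nat_lit 0)) T2.l3
  (TrL.c (I.pos (nat_lit 0) (nat_lit 0)) T4.l4
  (TrL.c (I.pos (nat_lit 0) (nat_lit 0)) T2.l4
  (TrL.c (I.pos (nat_lit 0) (nat_lit 0)) (xa T4.l15 T4.l15)
  (TrL.c (I.pos (nat_lit 0) (nat_lit 0)) T2.l5
  TrL.n)))))) (by decide +kernel)
theorem bx1_10 : BoxOK sI cl4 cl13 cl5 t4 t2 b1_10 :=
  box_mk (TrL.c (I.pos (nat_lit 0) (nat_lit 0)) (xa T4.l7 T4.l7)
  (TrL.c (I.pos (nat_lit 0) (nat_lit 0)) T2.l3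
  (TrL.c (I.pos (nat_lit 0) (nat_lit 0)) T4.l4
  (TrL.c (I.pos (nat_lit 0) (nat_lit 0)) T2.l4
  (TrL.c (I.pos (nat_lit 0) (nat_lit 0)) T4.l17
  (TrL.c (I.pos (nat_lit 0) (nat_lit 0)) T2.l5
  TrL.n)))))) (by decide +kernel)
theorem bx1_11 : BoxOK sI cl4 cl13 cl5 t4 t2 b1_11 :=
  box_mk (TrL.c (I.pos (nat_lit 0) (nat_lit 0)) (xb (xa (xb (xa (xb T4.l18 T4.l18) (xb T4.l18 T4.l18)) (xa (xb T4.l18 (xa T4.l18 T4.l18)) (xb T4.l18 T4.l18))) (xb (xa (xb T4.l18 T4.l18) (xb (xd T4.l18 T4.l18) (xd T4.l18 T4.l18))) (xa (xb T4.l18 T4.l18) (xb (xd T4.l18 T4.l18) (xs T4.l18 (xd T4.l18 T4.l18)))))) (xa (xb (xa (xb (xs T4.l18 T4.l18) (xs T4.l18 T4.l18)) (xb T4.l18 (xs T4.l18 T4.l18))) (xa (xs (xb T4.l18 (xa T4.l18 T4.l18)) (xb (xa T4.l18 T4.l18) (xd T4.l18 T4.l18))) (xs (xb T4.l18 (xa T4.l18 T4.l18)) (xb T4.l18 (xd T4.l18 T4.l18))))) (xb (xa (xb T4.l18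 (xs T4.l18 T4.l18)) (xs T4.l18 (xb (xd T4.l18 T4.l18) (xd T4.l18 T4.l18)))) (xa (xs (xb T4.l18 (xd T4.l18 T4.l18)) (xb T4.l18 (xd T4.l18 T4.l18))) (xs (xb T4.l18 (xa T4.l18 T4.l18)) (xb (xd T4.l18 T4.l18) (xd (xa T4.l18 T4.l18) (xa T4.l18 T4.l18))))))))
  (TrL.c (I.pos (nat_lit 0) (nat_lit 0)) (xb (xa (xb T2.l3 T2.l3) (xb T2.l3 (xa T2.l3 T2.l3))) (xa (xb (xa T2.l3 T2.l3) (xa T2.l3 T2.l3)) (xb (xa T2.l3 T2.l3) (xa T2.l3 T2.l3))))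
  (TrL.c (I.pos (nat_lit 0) (nat_lit 0)) (xb T4.l4 T4.l4)
  (TrL.c (I.pos (nat_lit 0) (nat_lit 0)) (xb (xa T2.l4 T2.l4) (xa T2.l4 (xb T2.l4 T2.l4)))
  (TrL.c (I.pos (nat_lit 0) (nat_lit 0)) (xb T4.l19 T4.l19)
  (TrL.c (I.pos (nat_lit 0) (nat_lit 0)) (xb (xa (xb T2.l5 T2.l5) (xb T2.l5 (xa T2.l5 T2.l5))) (xa (xb (xa T2.l5 T2.l5) (xa T2.l5 T2.l5)) (xb (xa T2.l5 T2.l5) (xa T2.l5 T2.l5))))
  TrL.n)))))) (by decide +kernel)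
theorem bx1_12 : BoxOK sI cl4 cl13 cl5 t4 t2 b1_12 :=
  box_mk (TrL.c (I.pos (nat_lit 0) (nat_lit 0)) (xa (xa (xb (xa T4.l20 T4.l20) (xa T4.l20 T4.l20)) (xb T4.l20 (xa T4.l20 T4.l20))) (xa (xb (xa T4.l20 T4.l7) (xa T4.l20 T4.l20)) (xb (xa T4.l7 (xb T4.l9 T4.l7)) (xa (xb T4.l20 T4.l20) (xb T4.l7 (xa T4.l20 T4.l20))))))
  (TrL.c (I.pos (nat_lit 0) (nat_lit 0)) (xa (xa T2.l3 T2.l3) T2.l3)
  (TrL.c (I.pos (nat_lit 0) (nat_lit 0)) (xa T4.l4 T4.l4)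
  (TrL.c (I.pos (nat_lit 0) (nat_lit 0)) (xa (xa T2.l4 T2.l4) T2.l4)
  (TrL.c (I.pos (nat_lit 0) (nat_lit 0)) (xa T4.l21 (xa T4.l21 T4.l21))
  (TrL.c (I.pos (nat_lit 0) (nat_lit 0)) (xa (xa T2.l5 T2.l5) T2.l5)
  TrL.n)))))) (by decide +kernel)
theorem bx1_13 : BoxOK sI cl4 cl13 cl5 t4 t2 b1_13 :=
  box_mk (TrL.c (I.pos (nat_lit 0) (nat_lit 0)) T4.l0
  (TrL.c (I.pos (nat_lit 0) (nat_lit 0)) T2.l3
  (TrL.c (I.pos (nat_lit 0) (nat_lit 0)) T4.l4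
  (TrL.c (I.pos (nat_lit 0) (nat_lit 0)) T2.l4
  (TrL.c (I.pos (nat_lit 0) (nat_lit 0)) T4.l19
  (TrL.c (I.pos (nat_lit 0) (nat_lit 0)) T2.l5
  TrL.n)))))) (by decide +kernel)
theorem bx1_14 : BoxOK sI cl4 cl13 cl5 t4 t2 b1_14 :=
  box_mk (TrL.c (I.pos (nat_lit 0) (nat_lit 0)) T4.l0
  (TrL.c (I.pos (nat_lit 0) (nat_lit 0)) T2.l3
  (TrL.c (I.pos (nat_lit 0) (nat_lit 0)) T4.l4
  (TrL.c (I.pos (nat_lit 0) (nat_lit 0)) T2.l4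
  (TrL.c (I.pos (nat_lit 0) (nat_lit 0)) T4.l15
  (TrL.c (I.pos (nat_lit 0) (nat_lit 0)) T2.l5
  TrL.n)))))) (by decide +kernel)
theorem bx1_15 : BoxOK sI cl4 cl13 cl5 t4 t2 b1_15 :=
  box_mk (TrL.c (I.pos (nat_lit 0) (nat_lit 0)) (xa (xa T4.l23 T4.l7) T4.l7)
  (TrL.c (I.pos (nat_lit 0) (nat_lit 0)) (xa T2.l3 T2.l3)
  (TrL.c (I.pos (nat_lit 0) (nat_lit 0)) T4.l4
  (TrL.c (I.pos (nat_lit 0) (nat_lit 0)) (xa T2.l4 T2.l4)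
  (TrL.c (I.pos (nat_lit 0) (nat_lit 0)) (xa T4.l12 T4.l8)
  (TrL.c (I.pos (nat_lit 0) (nat_lit 0)) (xa T2.l5 T2.l5)
  TrL.n)))))) (by decide +kernel)
theorem bx1_16 : BoxOK sI cl4 cl13 cl5 t4 t2 b1_16 :=
  box_mk (TrL.c (I.pos (nat_lit 0) (nat_lit 0)) (xa (xb (xa (xb T4.l18 T4.l18) (xb T4.l18 T4.l18)) (xb (xa T4.l18 T4.l18) (xa (xd T4.l18 T4.l18) T4.l18))) (xb (xb (xa T4.l18 (xs T4.l18 T4.l18)) (xa T4.l18 (xd T4.l18 T4.l18))) (xa (xb T4.l18 T4.l18) (xb T4.l18 T4.l18))))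
  (TrL.c (I.pos (nat_lit 0) (nat_lit 0)) (xa (xb T2.l3 T2.l3) (xb T2.l3 T2.l3))
  (TrL.c (I.pos (nat_lit 0) (nat_lit 0)) T4.l4
  (TrL.c (I.pos (nat_lit 0) (nat_lit 0)) (xa T2.l4 (xb T2.l4 T2.l4))
  (TrL.c (I.pos (nat_lit 0) (nat_lit 0)) T4.l19
  (TrL.c (I.pos (nat_lit 0) (nat_lit 0)) (xa (xb T2.l5 T2.l5) (xb T2.l5 T2.l5))
  TrL.n)))))) (by decide +kernel)
theorem bx1_17 : BoxOK sI cl4 cl13 cl5 t4 t2 b1_17 :=
  box_mk (TrL.c (I.pos (nat_lit 0) (nat_lit 0)) T4.l0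
  (TrL.c (I.pos (nat_lit 0) (nat_lit 0)) T2.l3
  (TrL.c (I.pos (nat_lit 0) (nat_lit 0)) T4.l4
  (TrL.c (I.pos (nat_lit 0) (nat_lit 0)) T2.l4
  (TrL.c (I.pos (nat_lit 0) (nat_lit 0)) T4.l19
  (TrL.c (I.pos (nat_lit 0) (nat_lit 0)) T2.l5
  TrL.n)))))) (by decide +kernel)
theorem bx1_18 : BoxOK sI cl4 cl13 cl5 t4 t2 b1_18 :=
  box_mk (TrL.c (I.pos (nat_lit 0) (nat_lit 0)) T4.l0
  (TrL.c (I.pos (nat_lit 0) (nat_lit 0)) T2.l3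
  (TrL.c (I.pos (nat_lit 0) (nat_lit 0)) T4.l4
  (TrL.c (I.pos (nat_lit 0) (nat_lit 0)) T2.l4
  (TrL.c (I.pos (nat_lit 0) (nat_lit 0)) T4.l19
  (TrL.c (I.pos (nat_lit 0) (nat_lit 0)) T2.l5
  TrL.n)))))) (by decide +kernel)
theorem bx1_19 : BoxOK sI cl4 cl13 cl5 t4 t2 b1_19 :=
  box_mk (TrL.c (I.pos (nat_lit 0) (nat_lit 0)) T4.l0
  (TrL.c (I.pos (nat_lit 0) (nat_lit 0)) T2.l3
  (TrL.c (I.pos (nat_lit 0) (nat_lit 0)) T4.l4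
  (TrL.c (I.pos (nat_lit 0) (nat_lit 0)) T2.l4
  (TrL.c (I.pos (nat_lit 0) (nat_lit 0)) T4.l19
  (TrL.c (I.pos (nat_lit 0) (nat_lit 0)) T2.l5
  TrL.n)))))) (by decide +kernel)
theorem bx1_20 : BoxOK sI cl4 cl13 cl5 t4 t2 b1_20 :=
  box_mk (TrL.c (I.pos (nat_lit 0) (nat_lit 0)) T4.l0
  (TrL.c (I.pos (nat_lit 0) (nat_lit 0)) T2.l3
  (TrL.c (I.pos (nat_lit 0) (nat_lit 0)) T4.l4
  (TrL.c (I.pos (nat_lit 0) (nat_lit 0)) T2.l4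
  (TrL.c (I.pos (nat_lit 0) (nat_lit 0)) T4.l19
  (TrL.c (I.pos (nat_lit 0) (nat_lit 0)) T2.l5
  TrL.n)))))) (by decide +kernel)
theorem bx1_21 : BoxOK sI cl4 cl13 cl5 t4 t2 b1_21 :=
  box_mk (TrL.c (I.pos (nat_lit 0) (nat_lit 0)) (xa T4.l0 T4.l2)
  (TrL.c (I.pos (nat_lit 0) (nat_lit 0)) T2.l3
  (TrL.c (I.pos (nat_lit 0) (nat_lit 0)) T4.l4
  (TrL.c (I.pos (nat_lit 0) (nat_lit 0)) T2.l4
  (TrL.c (I.pos (nat_lit 0) (nat_lit 0)) T4.l5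
  (TrL.c (I.pos (nat_lit 0) (nat_lit 0)) T2.l5
  TrL.n)))))) (by decide +kernel)
theorem sv1 : StarV sI cl4 cl13 cl5 t4 t2 t1 :=
  (bt_n (bt_n (bt_n (bt_n (bt_b bx1_0) (bt_b bx1_1)) (bt_n (bt_b bx1_2) (bt_n (bt_b bx1_3) (bt_b bx1_4)))) (bt_n (bt_n (bt_b bx1_5) (bt_n (bt_b bx1_6) (bt_b bx1_7))) (bt_n (bt_b bx1_8) (bt_n (bt_b bx1_9) (bt_b bx1_10))))) (bt_n (bt_n (bt_n (bt_b bx1_11) (bt_b bx1_12)) (bt_n (bt_b bx1_13) (bt_n (bt_b bx1_14) (bt_b bx1_15)))) (bt_n (bt_n (bt_b bx1_16) (bt_n (bt_b bx1_17) (bt_b bx1_18))) (bt_n (bt_b bx1_19) (bt_n (bt_b bx1_20) (bt_b bx1_21))))))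
def S1 : StarD := StarD.mk cl4 cl13 cl5 4 2 t1
theorem bx2_0 : BoxOK sI cl5 cl4 cl13 t0 t5 b2_0 :=
  box_mk (TrL.c (I.pos (nat_lit 0) (nat_lit 0)) (xb (xa (xb T0.l7 T0.l7) (xb T0.l0 (xa T0.l0 T0.l0))) (xa (xb (xa T0.l7 (xb T0.l0 T0.l0)) (xa (xb (xs T0.l0 T0.l0) (xs T0.l0 T0.l0)) (xb T0.l0 (xs T0.l0 T0.l0)))) (xb (xa (xb T0.l0 T0.l0) (xb T0.l0 T0.l0)) (xa (xb T0.l0 (xs T0.l0 (xa T0.l0 T0.l0))) (xb (xs T0.l0 T0.l0) (xs T0.l0 (xa T0.l0 T0.l0)))))))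
  (TrL.c (I.pos (nat_lit 0) (nat_lit 0)) (xb T5.l1 (xa T5.l1 (xb T5.l1 T5.l1)))
  (TrL.c (I.pos (nat_lit 0) (nat_lit 0)) T0.l1
  (TrL.c (I.pos (nat_lit 0) (nat_lit 0)) T5.l2
  (TrL.c (I.pos (nat_lit 0) (nat_lit 0)) (xb (xa T5.l9 (xb T5.l3 T5.l3)) (xa (xb T5.l3 T5.l3) (xb T5.l3 T5.l3)))
  (TrL.c (I.pos (nat_lit 0) (nat_lit 0)) (xb T0.l2 T0.l2)
  (TrL.c (I.pos (nat_lit 0) (nat_lit 0)) T5.l4
  (TrL.c (I.pos (nat_lit 0) (nat_lit 0)) T0.l3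
  TrL.n)))))))) (by decide +kernel)
theorem bx2_1 : BoxOK sI cl5 cl4 cl13 t0 t5 b2_1 :=
  box_mk (TrL.c (I.pos (nat_lit 0) (nat_lit 0)) (xb T5.l5 T5.l5)
  (TrL.c (I.pos (nat_lit 0) (nat_lit 0)) T0.l4
  (TrL.c (I.pos (nat_lit 0) (nat_lit 0)) T5.l6
  TrL.n))) (by decide +kernel)
theorem bx2_2 : BoxOK sI cl5 cl4 cl13 t0 t5 b2_2 :=
  box_mk (TrL.c (I.pos (nat_lit 0) (nat_lit 0)) (xb (xa (xb (xs T0.l5 T0.l5) T0.l5) T0.l6) (xa (xb T0.l5 T0.l6) T0.l6))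
  (TrL.c (I.pos (nat_lit 0) (nat_lit 0)) T5.l1
  (TrL.c (I.pos (nat_lit 0) (nat_lit 0)) T0.l1
  (TrL.c (I.pos (nat_lit 0) (nat_lit 0)) T5.l6
  (TrL.c (I.pos (nat_lit 0) (nat_lit 0)) T5.l7
  (TrL.c (I.pos (nat_lit 0) (nat_lit 0)) T0.l2
  (TrL.c (I.pos (nat_lit 0) (nat_lit 0)) T5.l4
  (TrL.c (I.pos (nat_lit 0) (nat_lit 0)) T0.l3
  TrL.n)))))))) (by decide +kernel)
theorem bx2_3 : BoxOK sI cl5 cl4 cl13 t0 t5 b2_3 :=
  box_mk (TrL.c (I.pos (nat_lit 0) (nat_lit 0)) (xa (xb (xa (xb (xa (xs T0.l6 T0.l6) T0.l6) (xa T0.l6 T0.l6)) (xb T0.l6 T0.l6)) (xa (xb T0.l6 T0.l6) (xb T0.l6 T0.l6))) (xb (xa T0.l6 (xb (xa T0.l6 T0.l6) T0.l6)) (xa (xb T0.l6 T0.l6) (xb T0.l6 T0.l6))))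
  (TrL.c (I.pos (nat_lit 0) (nat_lit 0)) (xa (xb T5.l1 T5.l1) T5.l1)
  (TrL.c (I.pos (nat_lit 0) (nat_lit 0)) T0.l1
  (TrL.c (I.pos (nat_lit 0) (nat_lit 0)) T5.l2
  (TrL.c (I.pos (nat_lit 0) (nat_lit 0)) (xa (xb T5.l8 T5.l8) (xb (xa T5.l8 T5.l8) T5.l8))
  (TrL.c (I.pos (nat_lit 0) (nat_lit 0)) (xa T0.l2 T0.l2)
  (TrL.c (I.pos (nat_lit 0) (nat_lit 0)) T5.l4
  (TrL.c (I.pos (nat_lit 0) (nat_lit 0)) T0.l3
  TrL.n)))))))) (by decide +kernel)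
theorem bx2_4 : BoxOK sI cl5 cl4 cl13 t0 t5 b2_4 :=
  box_mk (TrL.c (I.pos (nat_lit 0) (nat_lit 0)) (xb (xa (xb (xa (xb T0.l7 T0.l7) (xb T0.l7 T0.l7)) (xa (xb T0.l7 T0.l7) T0.l7)) (xb (xa T0.l7 (xb (xa T0.l7 T0.l7) T0.l7)) (xa T0.l7 T0.l7))) (xa (xb (xa (xb T0.l7 (xa T0.l7 T0.l7)) T0.l7) (xa (xb (xa T0.l7 T0.l7) (xa T0.l7 T0.l7)) (xb T0.l7 T0.l7))) (xb (xa T0.l7 (xb T0.l7 T0.l7)) (xa (xb T0.l7 (xa T0.l7 T0.l7)) (xb (xa T0.l7 T0.l7) (xa (xs T0.l7 T0.l7) (xs T0.l7 T0.l7)))))))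
  (TrL.c (I.pos (nat_lit 0) (nat_lit 0)) (xb (xa T5.l1 T5.l1) (xa (xb T5.l1 T5.l1) (xb T5.l1 T5.l1)))
  (TrL.c (I.pos (nat_lit 0) (nat_lit 0)) (xb T0.l1 T0.l1)
  (TrL.c (I.pos (nat_lit 0) (nat_lit 0)) T5.l2
  (TrL.c (I.pos (nat_lit 0) (nat_lit 0)) (xb (xa (xb T5.l9 T5.l9) (xb (xa T5.l9 T5.l9) T5.l9)) (xa (xb T5.l9 T5.l9) (xb T5.l9 (xa T5.l9 T5.l3))))
  (TrL.c (I.pos (nat_lit 0) (nat_lit 0)) (xb (xa T0.l2 T0.l2) (xa T0.l2 T0.l2))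
  (TrL.c (I.pos (nat_lit 0) (nat_lit 0)) T5.l4
  (TrL.c (I.pos (nat_lit 0) (nat_lit 0)) (xb T0.l3 T0.l3)
  TrL.n)))))))) (by decide +kernel)
theorem bx2_5 : BoxOK sI cl5 cl4 cl13 t0 t5 b2_5 :=
  box_mk (TrL.c (I.pos (nat_lit 0) (nat_lit 0)) (xa T5.l1 (xb T5.l1 T5.l1))
  (TrL.c (I.pos (nat_lit 0) (nat_lit 0)) T0.l1
  (TrL.c (I.pos (nat_lit 0) (nat_lit 0)) T5.l2
  TrL.n))) (by decide +kernel)
theorem bx2_6 : BoxOK sI cl5 cl4 cl13 t0 t5 b2_6 :=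
  box_mk (TrL.c (I.pos (nat_lit 0) (nat_lit 0)) (xb T0.l0 (xa T0.l0 T0.l0))
  (TrL.c (I.pos (nat_lit 0) (nat_lit 0)) T5.l1
  (TrL.c (I.pos (nat_lit 0) (nat_lit 0)) T0.l1
  (TrL.c (I.pos (nat_lit 0) (nat_lit 0)) T5.l2
  (TrL.c (I.pos (nat_lit 0) (nat_lit 0)) (xb T5.l3 T5.l3)
  (TrL.c (I.pos (nat_lit 0) (nat_lit 0)) T0.l2
  (TrL.c (I.pos (nat_lit 0) (nat_lit 0)) T5.l4
  (TrL.c (I.pos (nat_lit 0) (nat_lit 0)) T0.l3
  TrL.n)))))))) (by decide +kernel)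
theorem bx2_7 : BoxOK sI cl5 cl4 cl13 t0 t5 b2_7 :=
  box_mk (TrL.c (I.pos (nat_lit 0) (nat_lit 0)) T0.l5
  (TrL.c (I.pos (nat_lit 0) (nat_lit 0)) T5.l5
  (TrL.c (I.pos (nat_lit 0) (nat_lit 0)) T0.l1
  (TrL.c (I.pos (nat_lit 0) (nat_lit 0)) T5.l2
  (TrL.c (I.pos (nat_lit 0) (nat_lit 0)) T5.l7
  (TrL.c (I.pos (nat_lit 0) (nat_lit 0)) T0.l2
  (TrL.c (I.pos (nat_lit 0) (nat_lit 0)) T5.l4
  (TrL.c (I.pos (nat_lit 0) (nat_lit 0)) T0.l3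
  TrL.n)))))))) (by decide +kernel)
theorem bx2_8 : BoxOK sI cl5 cl4 cl13 t0 t5 b2_8 :=
  box_mk (TrL.c (I.pos (nat_lit 0) (nat_lit 0)) (xa T0.l0 T0.l0)
  (TrL.c (I.pos (nat_lit 0) (nat_lit 0)) T5.l1
  (TrL.c (I.pos (nat_lit 0) (nat_lit 0)) T0.l1
  (TrL.c (I.pos (nat_lit 0) (nat_lit 0)) T5.l2
  (TrL.c (I.pos (nat_lit 0) (nat_lit 0)) (xa T5.l3 (xb T5.l3 T5.l3))
  (TrL.c (I.pos (nat_lit 0) (nat_lit 0)) T0.l2
  (TrL.c (I.pos (nat_lit 0) (nat_lit 0)) T5.l4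
  (TrL.c (I.pos (nat_lit 0) (nat_lit 0)) T0.l3
  TrL.n)))))))) (by decide +kernel)
theorem bx2_9 : BoxOK sI cl5 cl4 cl13 t0 t5 b2_9 :=
  box_mk (TrL.c (I.pos (nat_lit 0) (nat_lit 0)) T0.l5
  (TrL.c (I.pos (nat_lit 0) (nat_lit 0)) T5.l5
  (TrL.c (I.pos (nat_lit 0) (nat_lit 0)) T0.l1
  (TrL.c (I.pos (nat_lit 0) (nat_lit 0)) T5.l2
  (TrL.c (I.pos (nat_lit 0) (nat_lit 0)) T5.l7
  (TrL.c (I.pos (nat_lit 0) (nat_lit 0)) T0.l2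
  (TrL.c (I.pos (nat_lit 0) (nat_lit 0)) T5.l4
  (TrL.c (I.pos (nat_lit 0) (nat_lit 0)) T0.l3
  TrL.n)))))))) (by decide +kernel)
theorem bx2_10 : BoxOK sI cl5 cl4 cl13 t0 t5 b2_10 :=
  box_mk (TrL.c (I.pos (nat_lit 0) (nat_lit 0)) (xa T0.l0 T0.l0)
  (TrL.c (I.pos (nat_lit 0) (nat_lit 0)) T5.l1
  (TrL.c (I.pos (nat_lit 0) (nat_lit 0)) T0.l1
  (TrL.c (I.pos (nat_lit 0) (nat_lit 0)) T5.l2
  (TrL.c (I.pos (nat_lit 0) (nat_lit 0)) T5.l3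
  (TrL.c (I.pos (nat_lit 0) (nat_lit 0)) T0.l2
  (TrL.c (I.pos (nat_lit 0) (nat_lit 0)) T5.l4
  (TrL.c (I.pos (nat_lit 0) (nat_lit 0)) T0.l3
  TrL.n)))))))) (by decide +kernel)
theorem bx2_11 : BoxOK sI cl5 cl4 cl13 t0 t5 b2_11 :=
  box_mk (TrL.c (I.pos (nat_lit 0) (nat_lit 0)) (xb T0.l5 T0.l5)
  (TrL.c (I.pos (nat_lit 0) (nat_lit 0)) T5.l1
  (TrL.c (I.pos (nat_lit 0) (nat_lit 0)) T0.l1
  (TrL.c (I.pos (nat_lit 0) (nat_lit 0)) T5.l2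
  (TrL.c (I.pos (nat_lit 0) (nat_lit 0)) T5.l7
  (TrL.c (I.pos (nat_lit 0) (nat_lit 0)) T0.l2
  (TrL.c (I.pos (nat_lit 0) (nat_lit 0)) T5.l4
  (TrL.c (I.pos (nat_lit 0) (nat_lit 0)) T0.l3
  TrL.n)))))))) (by decide +kernel)
theorem bx2_12 : BoxOK sI cl5 cl4 cl13 t0 t5 b2_12 :=
  box_mk (TrL.c (I.pos (nat_lit 0) (nat_lit 0)) (xa T0.l0 T0.l10)
  (TrL.c (I.pos (nat_lit 0) (nat_lit 0)) T5.l1
  (TrL.c (I.pos (nat_lit 0) (nat_lit 0)) T0.l1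
  (TrL.c (I.pos (nat_lit 0) (nat_lit 0)) T5.l12
  (TrL.c (I.pos (nat_lit 0) (nat_lit 0)) (xb (xa T5.l3 T5.l3) (xa T5.l3 (xb T5.l3 T5.l3)))
  (TrL.c (I.pos (nat_lit 0) (nat_lit 0)) T0.l2
  (TrL.c (I.pos (nat_lit 0) (nat_lit 0)) T5.l10
  (TrL.c (I.pos (nat_lit 0) (nat_lit 0)) T0.l3
  TrL.n)))))))) (by decide +kernel)
theorem bx2_13 : BoxOK sI cl5 cl4 cl13 t0 t5 b2_13 :=
  box_mk (TrL.c (I.pos (nat_lit 0) (nat_lit 0)) T0.l5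
  (TrL.c (I.pos (nat_lit 0) (nat_lit 0)) T5.l1
  (TrL.c (I.pos (nat_lit 0) (nat_lit 0)) T0.l1
  (TrL.c (I.pos (nat_lit 0) (nat_lit 0)) T5.l2
  (TrL.c (I.pos (nat_lit 0) (nat_lit 0)) T5.l7
  (TrL.c (I.pos (nat_lit 0) (nat_lit 0)) T0.l2
  (TrL.c (I.pos (nat_lit 0) (nat_lit 0)) T5.l4
  (TrL.c (I.pos (nat_lit 0) (nat_lit 0)) T0.l3
  TrL.n)))))))) (by decide +kernel)
theorem bx2_14 : BoxOK sI cl5 cl4 cl13 t0 t5 b2_14 :=
  box_mk (TrL.c (I.pos (nat_lit 0) (nat_lit 0)) T5.l5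
  (TrL.c (I.pos (nat_lit 0) (nat_lit 0)) T0.l4
  (TrL.c (I.pos (nat_lit 0) (nat_lit 0)) T5.l2
  TrL.n))) (by decide +kernel)
theorem bx2_15 : BoxOK sI cl5 cl4 cl13 t0 t5 b2_15 :=
  box_mk (TrL.c (I.pos (nat_lit 0) (nat_lit 0)) (xb (xa (xb T0.l0 T0.l0) T0.l0) (xa (xb T0.l0 (xa T0.l0 T0.l0)) (xb T0.l0 (xa T0.l0 T0.l0))))
  (TrL.c (I.pos (nat_lit 0) (nat_lit 0)) (xb T5.l1 (xa T5.l1 T5.l1))
  (TrL.c (I.pos (nat_lit 0) (nat_lit 0)) T0.l1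
  (TrL.c (I.pos (nat_lit 0) (nat_lit 0)) T5.l2
  (TrL.c (I.pos (nat_lit 0) (nat_lit 0)) (xb T5.l3 (xa T5.l3 T5.l3))
  (TrL.c (I.pos (nat_lit 0) (nat_lit 0)) T0.l2
  (TrL.c (I.pos (nat_lit 0) (nat_lit 0)) T5.l4
  (TrL.c (I.pos (nat_lit 0) (nat_lit 0)) T0.l3
  TrL.n)))))))) (by decide +kernel)
theorem bx2_16 : BoxOK sI cl5 cl4 cl13 t0 t5 b2_16 :=
  box_mk (TrL.c (I.pos (nat_lit 0) (nat_lit 0)) (xb (xa T0.l5 T0.l5) (xa T0.l5 T0.l5))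
  (TrL.c (I.pos (nat_lit 0) (nat_lit 0)) T5.l1
  (TrL.c (I.pos (nat_lit 0) (nat_lit 0)) T0.l1
  (TrL.c (I.pos (nat_lit 0) (nat_lit 0)) T5.l2
  (TrL.c (I.pos (nat_lit 0) (nat_lit 0)) T5.l7
  (TrL.c (I.pos (nat_lit 0) (nat_lit 0)) T0.l2
  (TrL.c (I.pos (nat_lit 0) (nat_lit 0)) T5.l4
  (TrL.c (I.pos (nat_lit 0) (nat_lit 0)) T0.l3
  TrL.n)))))))) (by decide +kernel)
theorem bx2_17 : BoxOK sI cl5 cl4 cl13 t0 t5 b2_17 :=
  box_mk (TrL.c (I.pos (nat_lit 0) (nat_lit 0)) T0.l5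
  (TrL.c (I.pos (nat_lit 0) (nat_lit 0)) T5.l5
  (TrL.c (I.pos (nat_lit 0) (nat_lit 0)) T0.l1
  (TrL.c (I.pos (nat_lit 0) (nat_lit 0)) T5.l2
  (TrL.c (I.pos (nat_lit 0) (nat_lit 0)) T5.l7
  (TrL.c (I.pos (nat_lit 0) (nat_lit 0)) T0.l2
  (TrL.c (I.pos (nat_lit 0) (nat_lit 0)) T5.l4
  (TrL.c (I.pos (nat_lit 0) (nat_lit 0)) T0.l3
  TrL.n)))))))) (by decide +kernel)
theorem bx2_18 : BoxOK sI cl5 cl4 cl13 t0 t5 b2_18 :=
  box_mk (TrL.c (I.pos (nat_lit 0) (nat_lit 0)) T0.l0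
  (TrL.c (I.pos (nat_lit 0) (nat_lit 0)) T5.l1
  (TrL.c (I.pos (nat_lit 0) (nat_lit 0)) T0.l1
  (TrL.c (I.pos (nat_lit 0) (nat_lit 0)) T5.l2
  (TrL.c (I.pos (nat_lit 0) (nat_lit 0)) T5.l3
  (TrL.c (I.pos (nat_lit 0) (nat_lit 0)) T0.l2
  (TrL.c (I.pos (nat_lit 0) (nat_lit 0)) T5.l4
  (TrL.c (I.pos (nat_lit 0) (nat_lit 0)) T0.l3
  TrL.n)))))))) (by decide +kernel)
theorem sv2 : StarV sI cl5 cl4 cl13 t0 t5 t2 :=
  (bt_n (bt_n (bt_n (bt_n (bt_b bx2_0) (bt_b bx2_1)) (bt_n (bt_b bx2_2) (bt_b bx2_3))) (bt_n (bt_n (bt_b bx2_4) (bt_b bx2_5)) (bt_n (bt_b bx2_6) (bt_n (bt_b bx2_7) (bt_b bx2_8))))) (bt_n (bt_n (bt_n (bt_b bx2_9) (bt_b bx2_10)) (bt_n (bt_b bx2_11) (bt_n (bt_b bx2_12) (bt_b bx2_13)))) (bt_n (bt_n (bt_b bx2_14) (bt_b bx2_15)) (bt_n (bt_b bx2_16) (bt_n (bt_b bx2_17) (bt_b bx2_18))))))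
def S2 : StarD := StarD.mk cl5 cl4 cl13 0 5 t2
theorem bx3_0 : BoxOK sI cl5 cl13 cl4 t5 t0 b3_0 :=
  box_mk (TrL.c (I.pos (nat_lit 0) (nat_lit 0)) (xa (xb (xa (xb (xa (xc T5.l0 T5.l0) T5.l0) (xa (xc (xs T5.l0 T5.l0) T5.l0) T5.l14)) (xb T5.l14 (xa T5.l0 T5.l0))) (xa (xb (xa (xs T5.l0 (xc T5.l0 T5.l0)) (xs T5.l0 (xc T5.l0 T5.l0))) (xa (xs (xc T5.l0 (xb T5.l0 T5.l0)) (xc (xb T5.l0 T5.l0) (xb T5.l0 (xd T5.l0 T5.l0)))) (xs (xc T5.l0 (xb T5.l0 T5.l0)) (xc (xb T5.l0 T5.l0) (xb T5.l0 T5.l0))))) (xb (xa (xs T5.l0 T5.l0) (xs T5.l0 T5.l0)) (xa (xs (xc T5.l0 (xb T5.l0 T5.l0)) (xc T5.l0 (xb T5.l0 T5.l0))) (xs (xc T5.l0 T5.l0) (xc T5.l0 T5.l0)))))) (xb (xa (xb (xa T5.l0 T5.l0) (xa T5.l0 T5.l0)) (xb (xa T5.l0 (xs T5.l0 T5.l0)) (xa T5.l0 (xs T5.l0 T5.l0)))) (xa (xb (xa (xs T5.l0 T5.l0) T5.l0) (xa (xs (xc T5.l0 T5.l0) (xc T5.l0 T5.l0)) (xs T5.l0 T5.l0)))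 (xb (xa T5.l0 (xs T5.l0 (xc T5.l0 (xd T5.l0 T5.l0)))) (xs (xa T5.l0 T5.l0) (xa T5.l0 (xc T5.l0 (xb T5.l0 T5.l0))))))))
  (TrL.c (I.pos (nat_lit 0) (nat_lit 0)) (xa (xb T0.l8 (xa T0.l8 T0.l8)) (xb T0.l8 (xa (xs T0.l8 T0.l8) (xs T0.l8 T0.l8))))
  (TrL.c (I.pos (nat_lit 0) (nat_lit 0)) T5.l10
  (TrL.c (I.pos (nat_lit 0) (nat_lit 0)) T0.l9
  (TrL.c (I.pos (nat_lit 0) (nat_lit 0)) (xa (xb T0.l10 T0.l10) (xb T0.l10 T0.l10))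
  (TrL.c (I.pos (nat_lit 0) (nat_lit 0)) T5.l11
  (TrL.c (I.pos (nat_lit 0) (nat_lit 0)) T0.l11
  (TrL.c (I.pos (nat_lit 0) (nat_lit 0)) T5.l12
  TrL.n)))))))) (by decide +kernel)
theorem bx3_1 : BoxOK sI cl5 cl13 cl4 t5 t0 b3_1 :=
  box_mk (TrL.c (I.pos (nat_lit 0) (nat_lit 0)) (xa (xb (xa (xb T5.l20 T5.l20) (xb T5.l0 T5.l0)) (xa (xb T5.l20 T5.l20) (xb T5.l0 (xa T5.l20 T5.l0)))) (xb (xa T5.l0 T5.l0) (xa T5.l0 T5.l0)))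
  (TrL.c (I.pos (nat_lit 0) (nat_lit 0)) (xa T0.l8 T0.l8)
  (TrL.c (I.pos (nat_lit 0) (nat_lit 0)) T5.l10
  (TrL.c (I.pos (nat_lit 0) (nat_lit 0)) T0.l9
  (TrL.c (I.pos (nat_lit 0) (nat_lit 0)) (xa (xb T0.l12 T0.l12) (xb T0.l12 T0.l12))
  (TrL.c (I.pos (nat_lit 0) (nat_lit 0)) T5.l11
  (TrL.c (I.pos (nat_lit 0) (nat_lit 0)) T0.l11
  (TrL.c (I.pos (nat_lit 0) (nat_lit 0)) T5.l12
  TrL.n)))))))) (by decide +kernel)
theorem bx3_2 : BoxOK sI cl5 cl13 cl4 t5 t0 b3_2 :=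
  box_mk (TrL.c (I.pos (nat_lit 0) (nat_lit 0)) (xa (xa (xb T5.l13 T5.l15) T5.l15) (xa T5.l15 (xa T5.l15 T5.l15)))
  (TrL.c (I.pos (nat_lit 0) (nat_lit 0)) (xa T0.l8 T0.l8)
  (TrL.c (I.pos (nat_lit 0) (nat_lit 0)) T5.l10
  (TrL.c (I.pos (nat_lit 0) (nat_lit 0)) T0.l9
  (TrL.c (I.pos (nat_lit 0) (nat_lit 0)) (xa T0.l13 (xa T0.l15 T0.l15))
  (TrL.c (I.pos (nat_lit 0) (nat_lit 0)) T5.l11
  (TrL.c (I.pos (nat_lit 0) (nat_lit 0)) T0.l11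
  (TrL.c (I.pos (nat_lit 0) (nat_lit 0)) T5.l12
  TrL.n)))))))) (by decide +kernel)
theorem bx3_3 : BoxOK sI cl5 cl13 cl4 t5 t0 b3_3 :=
  box_mk (TrL.c (I.pos (nat_lit 0) (nat_lit 0)) (xb (xa (xb (xa (xb (xs T5.l14 T5.l14) (xs T5.l14 T5.l14)) (xb T5.l14 T5.l14)) (xa (xb (xs T5.l14 T5.l14) (xs T5.l14 T5.l14)) (xb T5.l14 T5.l14))) (xb (xa (xs T5.l14 T5.l14) (xb (xs T5.l14 (xa T5.l14 T5.l14)) (xs T5.l14 T5.l14))) (xa (xs T5.l14 T5.l14) (xs T5.l14 (xb T5.l14 (xa T5.l14 T5.l14)))))) (xa (xb (xa (xs (xb T5.l14 T5.l14) (xb T5.l14 T5.l14)) (xs T5.l14 (xb T5.l14 T5.l14))) (xa (xs (xb (xa T5.l14 T5.l14) (xa T5.l14 T5.l14)) (xb (xa T5.l14 T5.l14) (xa T5.l14 T5.l14))) (xs (xb T5.l14 (xa T5.l14 T5.l14)) (xb T5.l14 (xa T5.l14 T5.l14))))) (xb (xa (xs T5.l14 (xb T5.l14 T5.l14)) (xs T5.l14 (xb (xa T5.l14 T5.l14) (xa T5.l14 T5.l14)))) (xa (xs (xb T5.l14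 (xa T5.l14 T5.l14)) (xb T5.l14 (xa T5.l14 T5.l14))) (xs (xb T5.l14 (xa T5.l14 T5.l14)) (xb (xa T5.l14 T5.l14) (xa T5.l14 (xc T5.l14 T5.l14))))))))
  (TrL.c (I.pos (nat_lit 0) (nat_lit 0)) (xb (xa T0.l8 (xb T0.l8 T0.l8)) (xa (xb T0.l8 T0.l8) (xb T0.l8 T0.l8)))
  (TrL.c (I.pos (nat_lit 0) (nat_lit 0)) T5.l10
  (TrL.c (I.pos (nat_lit 0) (nat_lit 0)) T0.l9
  (TrL.c (I.pos (nat_lit 0) (nat_lit 0)) (xb (xa T0.l14 T0.l14) (xa T0.l14 T0.l14))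
  (TrL.c (I.pos (nat_lit 0) (nat_lit 0)) T5.l11
  (TrL.c (I.pos (nat_lit 0) (nat_lit 0)) T0.l11
  (TrL.c (I.pos (nat_lit 0) (nat_lit 0)) T5.l12
  TrL.n)))))))) (by decide +kernel)
theorem bx3_4 : BoxOK sI cl5 cl13 cl4 t5 t0 b3_4 :=
  box_mk (TrL.c (I.pos (nat_lit 0) (nat_lit 0)) (xa (xa (xb (xa T5.l15 T5.l15) (xa T5.l15 T5.l15)) (xb T5.l15 T5.l15)) (xa (xb (xa T5.l15 T5.l15) (xa T5.l15 T5.l15)) (xb (xa (xb T5.l15 T5.l15) (xb T5.l15 T5.l15)) (xa (xb T5.l15 (xa T5.l15 T5.l15)) (xa (xb T5.l15 T5.l15) (xb T5.l15 T5.l15))))))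
  (TrL.c (I.pos (nat_lit 0) (nat_lit 0)) (xa (xa T0.l8 T0.l8) (xa T0.l8 T0.l8))
  (TrL.c (I.pos (nat_lit 0) (nat_lit 0)) (xa T5.l10 T5.l10)
  (TrL.c (I.pos (nat_lit 0) (nat_lit 0)) T0.l9
  (TrL.c (I.pos (nat_lit 0) (nat_lit 0)) (xa (xa T0.l15 T0.l15) (xa T0.l15 T0.l15))
  (TrL.c (I.pos (nat_lit 0) (nat_lit 0)) (xa T5.l11 T5.l11)
  (TrL.c (I.pos (nat_lit 0) (nat_lit 0)) T0.l11
  (TrL.c (I.pos (nat_lit 0) (nat_lit 0)) (xa T5.l12 T5.l12)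
  TrL.n)))))))) (by decide +kernel)
theorem bx3_5 : BoxOK sI cl5 cl13 cl4 t5 t0 b3_5 :=
  box_mk (TrL.c (I.pos (nat_lit 0) (nat_lit 0)) (xa (xb (xa (xb T5.l0 T5.l14) (xb T5.l0 T5.l14)) (xa T5.l14 T5.l14)) (xb (xa (xb T5.l0 T5.l14) T5.l0) (xa T5.l14 T5.l14)))
  (TrL.c (I.pos (nat_lit 0) (nat_lit 0)) (xb T0.l8 T0.l8)
  (TrL.c (I.pos (nat_lit 0) (nat_lit 0)) T5.l10
  (TrL.c (I.pos (nat_lit 0) (nat_lit 0)) T0.l9
  (TrL.c (I.pos (nat_lit 0) (nat_lit 0)) (xa T0.l14 T0.l14)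
  (TrL.c (I.pos (nat_lit 0) (nat_lit 0)) T5.l11
  (TrL.c (I.pos (nat_lit 0) (nat_lit 0)) T0.l11
  (TrL.c (I.pos (nat_lit 0) (nat_lit 0)) T5.l12
  TrL.n)))))))) (by decide +kernel)
theorem bx3_6 : BoxOK sI cl5 cl13 cl4 t5 t0 b3_6 :=
  box_mk (TrL.c (I.pos (nat_lit 0) (nat_lit 0)) (xa (xb (xa (xb T5.l14 T5.l14) (xb (xs T5.l14 T5.l14) T5.l14)) (xa (xb T5.l14 (xs T5.l14 T5.l14)) (xb T5.l14 T5.l14))) (xb (xa (xb (xs T5.l14 T5.l14) (xs T5.l14 T5.l14)) (xb (xs T5.l14 T5.l14) (xs T5.l14 T5.l14))) (xa (xb T5.l14 (xs T5.l14 T5.l14)) (xb (xs T5.l14 T5.l14) (xs T5.l14 T5.l14)))))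
  (TrL.c (I.pos (nat_lit 0) (nat_lit 0)) (xb (xa T0.l8 T0.l8) (xa T0.l8 T0.l8))
  (TrL.c (I.pos (nat_lit 0) (nat_lit 0)) T5.l10
  (TrL.c (I.pos (nat_lit 0) (nat_lit 0)) T0.l9
  (TrL.c (I.pos (nat_lit 0) (nat_lit 0)) (xb (xa T0.l14 T0.l14) T0.l14)
  (TrL.c (I.pos (nat_lit 0) (nat_lit 0)) T5.l11
  (TrL.c (I.pos (nat_lit 0) (nat_lit 0)) T0.l11
  (TrL.c (I.pos (nat_lit 0) (nat_lit 0)) T5.l12
  TrL.n)))))))) (by decide +kernel)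
theorem bx3_7 : BoxOK sI cl5 cl13 cl4 t5 t0 b3_7 :=
  box_mk (TrL.c (I.pos (nat_lit 0) (nat_lit 0)) (xa (xa T5.l16 T5.l13) (xa T5.l15 T5.l15))
  (TrL.c (I.pos (nat_lit 0) (nat_lit 0)) (xa T0.l8 T0.l8)
  (TrL.c (I.pos (nat_lit 0) (nat_lit 0)) T5.l10
  (TrL.c (I.pos (nat_lit 0) (nat_lit 0)) T0.l9
  (TrL.c (I.pos (nat_lit 0) (nat_lit 0)) (xa T0.l20 T0.l15)
  (TrL.c (I.pos (nat_lit 0) (nat_lit 0)) T5.l11
  (TrL.c (I.pos (nat_lit 0) (nat_lit 0)) T0.l11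
  (TrL.c (I.pos (nat_lit 0) (nat_lit 0)) T5.l12
  TrL.n)))))))) (by decide +kernel)
theorem bx3_8 : BoxOK sI cl5 cl13 cl4 t5 t0 b3_8 :=
  box_mk (TrL.c (I.pos (nat_lit 0) (nat_lit 0)) (xa (xb T5.l0 T5.l0) T5.l0)
  (TrL.c (I.pos (nat_lit 0) (nat_lit 0)) T0.l8
  (TrL.c (I.pos (nat_lit 0) (nat_lit 0)) T5.l10
  (TrL.c (I.pos (nat_lit 0) (nat_lit 0)) T0.l9
  (TrL.c (I.pos (nat_lit 0) (nat_lit 0)) (xa T0.l12 T0.l14)
  (TrL.c (I.pos (nat_lit 0) (nat_lit 0)) T5.l11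
  (TrL.c (I.pos (nat_lit 0) (nat_lit 0)) T0.l11
  (TrL.c (I.pos (nat_lit 0) (nat_lit 0)) T5.l12
  TrL.n)))))))) (by decide +kernel)
theorem bx3_9 : BoxOK sI cl5 cl13 cl4 t5 t0 b3_9 :=
  box_mk (TrL.c (I.pos (nat_lit 0) (nat_lit 0)) (xa (xb T5.l0 T5.l0) T5.l0)
  (TrL.c (I.pos (nat_lit 0) (nat_lit 0)) T0.l8
  (TrL.c (I.pos (nat_lit 0) (nat_lit 0)) T5.l10
  (TrL.c (I.pos (nat_lit 0) (nat_lit 0)) T0.l9
  (TrL.c (I.pos (nat_lit 0) (nat_lit 0)) (xa T0.l12 T0.l14)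
  (TrL.c (I.pos (nat_lit 0) (nat_lit 0)) T5.l11
  (TrL.c (I.pos (nat_lit 0) (nat_lit 0)) T0.l11
  (TrL.c (I.pos (nat_lit 0) (nat_lit 0)) T5.l12
  TrL.n)))))))) (by decide +kernel)
theorem bx3_10 : BoxOK sI cl5 cl13 cl4 t5 t0 b3_10 :=
  box_mk (TrL.c (I.pos (nat_lit 0) (nat_lit 0)) (xa (xa T5.l15 T5.l15) (xa (xb T5.l15 T5.l15) (xb (xa T5.l17 T5.l17) (xa T5.l15 T5.l17))))
  (TrL.c (I.pos (nat_lit 0) (nat_lit 0)) (xa T0.l8 T0.l8)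
  (TrL.c (I.pos (nat_lit 0) (nat_lit 0)) T5.l10
  (TrL.c (I.pos (nat_lit 0) (nat_lit 0)) T0.l9
  (TrL.c (I.pos (nat_lit 0) (nat_lit 0)) (xa T0.l15 T0.l17)
  (TrL.c (I.pos (nat_lit 0) (nat_lit 0)) T5.l11
  (TrL.c (I.pos (nat_lit 0) (nat_lit 0)) T0.l11
  (TrL.c (I.pos (nat_lit 0) (nat_lit 0)) T5.l12
  TrL.n)))))))) (by decide +kernel)
theorem bx3_11 : BoxOK sI cl5 cl13 cl4 t5 t0 b3_11 :=
  box_mk (TrL.c (I.pos (nat_lit 0) (nat_lit 0)) (xb (xa (xb (xa T5.l20 T5.l20) (xa T5.l20 T5.l20)) (xb T5.l0 T5.l0)) (xa (xb (xa T5.l18 T5.l18) (xa T5.l18 T5.l18)) (xb (xa T5.l18 T5.l0) (xa T5.l18 T5.l18))))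
  (TrL.c (I.pos (nat_lit 0) (nat_lit 0)) (xb T0.l8 T0.l8)
  (TrL.c (I.pos (nat_lit 0) (nat_lit 0)) T5.l10
  (TrL.c (I.pos (nat_lit 0) (nat_lit 0)) T0.l9
  (TrL.c (I.pos (nat_lit 0) (nat_lit 0)) (xb (xa T0.l18 T0.l12) T0.l18)
  (TrL.c (I.pos (nat_lit 0) (nat_lit 0)) T5.l11
  (TrL.c (I.pos (nat_lit 0) (nat_lit 0)) T0.l11
  (TrL.c (I.pos (nat_lit 0) (nat_lit 0)) T5.l12
  TrL.n)))))))) (by decide +kernel)
theorem bx3_12 : BoxOK sI cl5 cl13 cl4 t5 t0 b3_12 :=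
  box_mk (TrL.c (I.pos (nat_lit 0) (nat_lit 0)) (xa (xa (xb T5.l19 T5.l19) T5.l15) T5.l15)
  (TrL.c (I.pos (nat_lit 0) (nat_lit 0)) (xa T0.l8 T0.l8)
  (TrL.c (I.pos (nat_lit 0) (nat_lit 0)) T5.l10
  (TrL.c (I.pos (nat_lit 0) (nat_lit 0)) T0.l9
  (TrL.c (I.pos (nat_lit 0) (nat_lit 0)) (xa T0.l19 (xa T0.l13 T0.l15))
  (TrL.c (I.pos (nat_lit 0) (nat_lit 0)) T5.l11
  (TrL.c (I.pos (nat_lit 0) (nat_lit 0)) T0.l11
  (TrL.c (I.pos (nat_lit 0) (nat_lit 0)) T5.l12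
  TrL.n)))))))) (by decide +kernel)
theorem bx3_13 : BoxOK sI cl5 cl13 cl4 t5 t0 b3_13 :=
  box_mk (TrL.c (I.pos (nat_lit 0) (nat_lit 0)) (xa (xb T5.l0 (xa T5.l0 T5.l0)) (xb (xa (xs T5.l0 T5.l0) (xs T5.l0 (xb (xa T5.l0 T5.l0) (xa T5.l0 T5.l0)))) (xa (xs T5.l0 (xb T5.l0 T5.l0)) (xs (xb T5.l0 T5.l0) (xb (xa T5.l0 T5.l3) (xa T5.l0 T5.l3))))))
  (TrL.c (I.pos (nat_lit 0) (nat_lit 0)) (xa T0.l8 T0.l8)
  (TrL.c (I.pos (nat_lit 0) (nat_lit 0)) T5.l10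
  (TrL.c (I.pos (nat_lit 0) (nat_lit 0)) T0.l9
  (TrL.c (I.pos (nat_lit 0) (nat_lit 0)) T0.l10
  (TrL.c (I.pos (nat_lit 0) (nat_lit 0)) T5.l11
  (TrL.c (I.pos (nat_lit 0) (nat_lit 0)) T0.l11
  (TrL.c (I.pos (nat_lit 0) (nat_lit 0)) T5.l12
  TrL.n)))))))) (by decide +kernel)
theorem bx3_14 : BoxOK sI cl5 cl13 cl4 t5 t0 b3_14 :=
  box_mk (TrL.c (I.pos (nat_lit 0) (nat_lit 0)) T5.l17
  (TrL.c (I.pos (nat_lit 0) (nat_lit 0)) T0.l8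
  (TrL.c (I.pos (nat_lit 0) (nat_lit 0)) T5.l10
  (TrL.c (I.pos (nat_lit 0) (nat_lit 0)) T0.l9
  (TrL.c (I.pos (nat_lit 0) (nat_lit 0)) T0.l15
  (TrL.c (I.pos (nat_lit 0) (nat_lit 0)) T5.l11
  (TrL.c (I.pos (nat_lit 0) (nat_lit 0)) T0.l11
  (TrL.c (I.pos (nat_lit 0) (nat_lit 0)) T5.l12
  TrL.n)))))))) (by decide +kernel)
theorem bx3_15 : BoxOK sI cl5 cl13 cl4 t5 t0 b3_15 :=
  box_mk (TrL.c (I.pos (nat_lit 0) (nat_lit 0)) (xa T5.l15 T5.l15)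
  (TrL.c (I.pos (nat_lit 0) (nat_lit 0)) (xa T0.l8 T0.l8)
  (TrL.c (I.pos (nat_lit 0) (nat_lit 0)) T5.l10
  (TrL.c (I.pos (nat_lit 0) (nat_lit 0)) T0.l9
  (TrL.c (I.pos (nat_lit 0) (nat_lit 0)) (xa T0.l15 T0.l13)
  (TrL.c (I.pos (nat_lit 0) (nat_lit 0)) T5.l11
  (TrL.c (I.pos (nat_lit 0) (nat_lit 0)) T0.l11
  (TrL.c (I.pos (nat_lit 0) (nat_lit 0)) T5.l12
  TrL.n)))))))) (by decide +kernel)
theorem bx3_16 : BoxOK sI cl5 cl13 cl4 t5 t0 b3_16 :=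
  box_mk (TrL.c (I.pos (nat_lit 0) (nat_lit 0)) (xa (xb (xa (xb (xs T5.l14 (xa T5.l0 T5.l0)) (xs T5.l14 (xa T5.l0 T5.l0))) (xs (xb T5.l0 T5.l0) (xb (xa T5.l0 T5.l0) (xa T5.l0 T5.l0)))) (xa (xs (xb T5.l14 (xa T5.l0 T5.l0)) (xb (xa T5.l0 T5.l0) (xa (xd T5.l0 T5.l0) (xd T5.l0 T5.l0)))) (xs (xb T5.l0 (xa T5.l0 T5.l0)) (xb (xa T5.l0 (xd T5.l0 T5.l0)) (xa (xd T5.l0 T5.l0) (xd T5.l0 T5.l0)))))) (xb (xa (xs (xb T5.l0 T5.l0) (xb (xa T5.l0 T5.l0) (xa T5.l0 T5.l0))) (xs (xb T5.l0 T5.l0) (xb (xa T5.l0 T5.l0) (xa T5.l0 T5.l0)))) (xa (xs (xb (xa T5.l0 T5.l0) (xa T5.l0 T5.l0)) (xb (xa (xd T5.l0 T5.l0) (xd T5.l0 T5.l0)) (xa (xd T5.l0 T5.l0) (xd T5.l0 T5.l0)))) (xs (xb (xa T5.l0 T5.l0) (xa (xs T5.l0 T5.l0) (xs T5.l0 T5.l0))) (xb (xa (xd T5.l0 T5.l0) (xd T5.l0 T5.l0)) (xa (xd T5.l0 (xs T5.l0 T5.l0)) (xd (xs T5.l0 T5.l0) (xs T5.l0 T5.l0))))))))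
  (TrL.c (I.pos (nat_lit 0) (nat_lit 0)) (xa (xb T0.l8 (xs T0.l8 T0.l8)) (xb (xs T0.l8 T0.l8) (xs T0.l8 T0.l8)))
  (TrL.c (I.pos (nat_lit 0) (nat_lit 0)) T5.l10
  (TrL.c (I.pos (nat_lit 0) (nat_lit 0)) T0.l9
  (TrL.c (I.pos (nat_lit 0) (nat_lit 0)) (xa T0.l10 (xb T0.l10 T0.l10))
  (TrL.c (I.pos (nat_lit 0) (nat_lit 0)) T5.l11
  (TrL.c (I.pos (nat_lit 0) (nat_lit 0)) T0.l11
  (TrL.c (I.pos (nat_lit 0) (nat_lit 0)) T5.l12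
  TrL.n)))))))) (by decide +kernel)
theorem bx3_17 : BoxOK sI cl5 cl13 cl4 t5 t0 b3_17 :=
  box_mk (TrL.c (I.pos (nat_lit 0) (nat_lit 0)) (xa (xb (xa (xs (xb T5.l0 T5.l0) T5.l3) (xs T5.l3 T5.l3)) (xs (xa (xb T5.l0 (xd T5.l0 T5.l0)) T5.l3) (xa (xb T5.l3 T5.l3) T5.l3))) (xb T5.l3 (xs T5.l3 T5.l3)))
  (TrL.c (I.pos (nat_lit 0) (nat_lit 0)) (xa (xb T0.l8 T0.l8) T0.l2)
  (TrL.c (I.pos (nat_lit 0) (nat_lit 0)) T5.l10
  (TrL.c (I.pos (nat_lit 0) (nat_lit 0)) T0.l3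
  (TrL.c (I.pos (nat_lit 0) (nat_lit 0)) (xa T0.l10 (xb T0.l10 T0.l10))
  (TrL.c (I.pos (nat_lit 0) (nat_lit 0)) T5.l1
  (TrL.c (I.pos (nat_lit 0) (nat_lit 0)) T0.l1
  (TrL.c (I.pos (nat_lit 0) (nat_lit 0)) T5.l12
  TrL.n)))))))) (by decide +kernel)
theorem bx3_18 : BoxOK sI cl5 cl13 cl4 t5 t0 b3_18 :=
  box_mk (TrL.c (I.pos (nat_lit 0) (nat_lit 0)) (xa (xb (xa (xs T5.l0 (xb (xa T5.l0 T5.l0) (xa T5.l0 T5.l0))) (xs (xb (xa T5.l0 T5.l0) (xa T5.l0 T5.l0)) (xb T5.l3 T5.l3))) (xa (xs (xb T5.l0 T5.l0) (xb (xa T5.l0 (xd T5.l0 T5.l0)) (xa T5.l0 (xd T5.l0 T5.l0)))) (xs (xb (xa T5.l0 T5.l3) (xa T5.l0 T5.l3)) (xb (xa T5.l3 T5.l3) (xa T5.l3 T5.l3))))) (xb (xa (xs T5.l3 T5.l3) T5.l3) (xa (xs (xb T5.l3 T5.l3) T5.l3) (xs T5.l3 T5.l3))))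
  (TrL.c (I.pos (nat_lit 0) (nat_lit 0)) (xa (xb T0.l8 T0.l8) (xb T0.l2 (xs T0.l8 T0.l2)))
  (TrL.c (I.pos (nat_lit 0) (nat_lit 0)) T5.l10
  (TrL.c (I.pos (nat_lit 0) (nat_lit 0)) T0.l3
  (TrL.c (I.pos (nat_lit 0) (nat_lit 0)) (xa T0.l10 (xb T0.l10 (xa T0.l10 T0.l10)))
  (TrL.c (I.pos (nat_lit 0) (nat_lit 0)) T5.l11
  (TrL.c (I.pos (nat_lit 0) (nat_lit 0)) T0.l1
  (TrL.c (I.pos (nat_lit 0) (nat_lit 0)) T5.l12
  TrL.n)))))))) (by decide +kernel)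
theorem bx3_19 : BoxOK sI cl5 cl13 cl4 t5 t0 b3_19 :=
  box_mk (TrL.c (I.pos (nat_lit 0) (nat_lit 0)) (xa (xb (xa T5.l0 (xb T5.l0 T5.l0)) (xa T5.l0 (xs T5.l0 (xb T5.l0 T5.l0)))) (xb (xa (xs T5.l0 (xb (xd T5.l0 T5.l0) (xd T5.l0 T5.l0))) (xs (xb T5.l3 T5.l3) T5.l3)) (xa (xs T5.l0 (xb (xd T5.l0 T5.l0) (xd T5.l0 T5.l0))) (xs (xb (xd T5.l0 T5.l0) (xd T5.l0 T5.l0)) (xb T5.l3 T5.l3)))))
  (TrL.c (I.pos (nat_lit 0) (nat_lit 0)) (xa T0.l8 (xb T0.l8 T0.l8))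
  (TrL.c (I.pos (nat_lit 0) (nat_lit 0)) T5.l10
  (TrL.c (I.pos (nat_lit 0) (nat_lit 0)) T0.l9
  (TrL.c (I.pos (nat_lit 0) (nat_lit 0)) (xa T0.l10 T0.l10)
  (TrL.c (I.pos (nat_lit 0) (nat_lit 0)) T5.l11
  (TrL.c (I.pos (nat_lit 0) (nat_lit 0)) T0.l11
  (TrL.c (I.pos (nat_lit 0) (nat_lit 0)) T5.l12
  TrL.n)))))))) (by decide +kernel)
theorem bx3_20 : BoxOK sI cl5 cl13 cl4 t5 t0 b3_20 :=
  box_mk (TrL.c (I.pos (nat_lit 0) (nat_lit 0)) (xa T5.l0 T5.l0)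
  (TrL.c (I.pos (nat_lit 0) (nat_lit 0)) T0.l8
  (TrL.c (I.pos (nat_lit 0) (nat_lit 0)) T5.l10
  (TrL.c (I.pos (nat_lit 0) (nat_lit 0)) T0.l9
  (TrL.c (I.pos (nat_lit 0) (nat_lit 0)) T0.l10
  (TrL.c (I.pos (nat_lit 0) (nat_lit 0)) T5.l11
  (TrL.c (I.pos (nat_lit 0) (nat_lit 0)) T0.l11
  (TrL.c (I.pos (nat_lit 0) (nat_lit 0)) T5.l12
  TrL.n)))))))) (by decide +kernel)
theorem bx3_21 : BoxOK sI cl5 cl13 cl4 t5 t0 b3_21 :=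
  box_mk (TrL.c (I.pos (nat_lit 0) (nat_lit 0)) T5.l0
  (TrL.c (I.pos (nat_lit 0) (nat_lit 0)) T0.l8
  (TrL.c (I.pos (nat_lit 0) (nat_lit 0)) T5.l10
  (TrL.c (I.pos (nat_lit 0) (nat_lit 0)) T0.l9
  (TrL.c (I.pos (nat_lit 0) (nat_lit 0)) T0.l14
  (TrL.c (I.pos (nat_lit 0) (nat_lit 0)) T5.l11
  (TrL.c (I.pos (nat_lit 0) (nat_lit 0)) T0.l11
  (TrL.c (I.pos (nat_lit 0) (nat_lit 0)) T5.l12
  TrL.n)))))))) (by decide +kernel)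
theorem sv3 : StarV sI cl5 cl13 cl4 t5 t0 t3 :=
  (bt_n (bt_n (bt_n (bt_n (bt_b bx3_0) (bt_b bx3_1)) (bt_n (bt_b bx3_2) (bt_n (bt_b bx3_3) (bt_b bx3_4)))) (bt_n (bt_n (bt_b bx3_5) (bt_n (bt_b bx3_6) (bt_b bx3_7))) (bt_n (bt_b bx3_8) (bt_n (bt_b bx3_9) (bt_b bx3_10))))) (bt_n (bt_n (bt_n (bt_b bx3_11) (bt_b bx3_12)) (bt_n (bt_b bx3_13) (bt_n (bt_b bx3_14) (bt_b bx3_15)))) (bt_n (bt_n (bt_b bx3_16) (bt_n (bt_b bx3_17) (bt_b bx3_18))) (bt_n (bt_b bx3_19) (bt_n (bt_b bx3_20) (bt_b bx3_21))))))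
def S3 : StarD := StarD.mk cl5 cl13 cl4 5 0 t3
theorem c4_0_0 : chkTag sI cl13 cl4 cl5 t1 b4_0 (tg true true false RT.r2) (I.pos (nat_lit 0) (nat_lit 0))
  (xa (xb (xa (xb T1.l5 T1.l5) (xb (xa T1.l0 T1.l0) (xa T1.l5 (xc T1.l0 T1.l0)))) (xa (xb (xa T1.l5 T1.l5) (xs (xa (xb T1.l0 T1.l0) (xb T1.l0 T1.l0)) (xa (xb T1.l5 (xc T1.l5 T1.l0)) (xb T1.l0 (xc T1.l0 T1.l0))))) (xb (xa T1.l5 (xs T1.l0 T1.l0)) (xs (xa (xb T1.l0 T1.l0) (xk T1.l0 T1.l0)) (xa (xk (xb T1.l0 T1.l0) T1.l0) (xk (xb T1.l0 T1.l0) T1.l0)))))) (xb (xa (xb T1.l0 (xa T1.l0 T1.l0)) (xb T1.l0 (xa T1.l0 T1.l0))) (xa (xb (xa (xs T1.l0 T1.l0) (xs T1.l0 T1.l0)) (xs (xa (xk T1.l0 T1.l0) (xk T1.l0 T1.l0)) (xa (xk (xb T1.l0 T1.l0) T1.l0) (xk (xb T1.l0 T1.l0) T1.l0)))) (xb (xa (xs T1.l0 T1.l0) (xs T1.l0 T1.l0)) (xs (xa (xk T1.l0 T1.l0) (xk T1.l0 T1.l0)) (xa (xk (xb T1.l0 T1.l0) T1.l0)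 (xk (xb T1.l0 T1.l0) T1.l0))))))) = true := by decide +kernel
theorem c4_0_1 : chkTag sI cl13 cl4 cl5 t3 b4_0 (tg true false false RT.r3) (I.pos (nat_lit 0) (nat_lit 0))
  (xa (xk (xb T3.l1 (xa T3.l1 T3.l1)) (xb T3.l1 (xa T3.l1 T3.l1))) (xb (xk T3.l1 T3.l1) (xk (xa T3.l1 (xb T3.l1 T3.l1)) (xa T3.l1 T3.l1)))) = true := by decide +kernel
theorem c4_0_2 : chkTag sI cl13 cl4 cl5 t1 b4_0 (Tag.mk true true false RT.tl RT.r4) (I.pos (nat_lit 0) (nat_lit 134217730))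
  (xR T1.l12 (xR T1.l1 (xR T1.l1 (xa T1.l1 (xR T1.l1 T1.l1))))) = true := by decide +kernel
theorem c4_0_3 : chkTag sI cl13 cl4 cl5 t3 b4_0 (Tag.mk true false false RT.tl RT.r5) (I.pos (nat_lit 0) (nat_lit 110514882))
  (xR T3.l4 (xR T3.l2 (xR T3.l2 (xk T3.l2 T3.l2)))) = true := by decide +kernel
theorem c4_0_4 : chkTag sI cl13 cl4 cl5 t3 b4_0 (tg false false false RT.r3) (I.pos (nat_lit 0) (nat_lit 0))
  (xa (xb T3.l6 (xk T3.l3 T3.l3)) (xb (xk T3.l3 T3.l3) (xk (xa T3.l3 T3.l3) (xa T3.l3 T3.l3)))) = true := by decide +kernel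
theorem c4_0_5 : chkTag sI cl13 cl4 cl5 t1 b4_0 (tg false true false RT.r4) (I.pos (nat_lit 0) (nat_lit 0))
  (xk (xb T1.l2 T1.l2) (xb T1.l2 T1.l2)) = true := by decide +kernel
theorem c4_0_6 : chkTag sI cl13 cl4 cl5 t3 b4_0 (Tag.mk false false false RT.tl RT.r5) (I.mix (nat_lit 8088324) (nat_lit 110514882))
  (xR (xR T3.l4 T3.l4) (xR T3.l4 (xR T3.l4 (xb T3.l4 (xk (xR T3.l4 T3.l4) T3.l4))))) = true := by decide +kernel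
theorem c4_0_7 : chkTag sI cl13 cl4 cl5 t1 b4_0 (Tag.mk false true false RT.tl RT.r6) (I.mix (nat_lit 8088324) (nat_lit 89478486))
  (xR T1.l12 (xR T1.l3 (xR T1.l3 T1.l3))) = true := by decide +kernel
theorem bx4_0 : BoxOK sI cl13 cl4 cl5 t1 t3 b4_0 :=
  box_mk' [(tg true true false RT.r2), (tg true false false RT.r3), (Tag.mk true true false RT.tl RT.r4), (Tag.mk true false false RT.tl RT.r5), (tg false false false RT.r3), (tg false true false RT.r4), (Tag.mk false false false RT.tl RT.r5), (Tag.mk false true false RT.tl RT.r6)] rfl (allL_c (ex_mk c4_0_0) (allL_c (ex_mk c4_0_1) (allL_c (ex_mk c4_0_2) (allL_c (ex_mk c4_0_3) (allL_c (ex_mk c4_0_4) (allL_c (ex_mk c4_0_5) (allL_c (ex_mk c4_0_6) (allL_c (ex_mk c4_0_7) allL_n))))))))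
theorem bx4_1 : BoxOK sI cl13 cl4 cl5 t1 t3 b4_1 :=
  box_mk (TrL.c (I.pos (nat_lit 0) (nat_lit 0)) (xa (xb (xb (xa T1.l4 T1.l4) T1.l4) (xa T1.l4 T1.l4)) (xb (xa T1.l4 (xb T1.l4 T1.l4)) (xa T1.l4 (xb T1.l4 T1.l4))))
  (TrL.c (I.pos (nat_lit 0) (nat_lit 0)) (xa (xb T3.l1 T3.l1) (xb T3.l1 T3.l1))
  (TrL.c (I.pos (nat_lit 0) (nat_lit 134217730)) (xR T1.l12 (xR T1.l1 (xR T1.l1 (xb (xR T1.l1 T1.l7) T1.l1))))
  (TrL.c (I.pos (nat_lit 0) (nat_lit 110514882)) (xR T3.l4 (xR T3.l4 (xR T3.l4 (xR T3.l2 T3.l2))))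
  (TrL.c (I.pos (nat_lit 0) (nat_lit 0)) (xb (xa (xk T3.l5 T3.l5) (xk T3.l5 T3.l5)) (xa T3.l5 T3.l5))
  (TrL.c (I.pos (nat_lit 0) (nat_lit 0)) T1.l2
  (TrL.c (I.mix (nat_lit 8088324) (nat_lit 110514882)) (xR T3.l4 (xR T3.l4 (xR T3.l4 (xb T3.l4 T3.l4))))
  (TrL.c (I.mix (nat_lit 8088324) (nat_lit 89478486)) (xR T1.l12 T1.l12)
  TrL.n)))))))) (by decide +kernel)
theorem c4_2_0 : chkTag sI cl13 cl4 cl5 t1 b4_2 (tg true true false RT.r2) (I.pos (nat_lit 0) (nat_lit 0))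
  (xb (xa (xb (xa T1.l5 T1.l5) (xa (xb T1.l5 T1.l5) T1.l5)) (xb (xa T1.l5 (xb T1.l5 T1.l5)) (xa T1.l5 (xb T1.l5 T1.l5)))) (xa (xb (xa (xb T1.l5 (xc T1.l5 T1.l5)) (xb T1.l5 T1.l5)) (xa (xb (xs T1.l5 (xc T1.l5 T1.l5)) (xs T1.l5 (xk T1.l5 T1.l5))) (xb (xs T1.l5 (xk T1.l5 T1.l5)) (xs T1.l5 (xk (xa T1.l5 T1.l5) T1.l5))))) (xb (xa (xb T1.l5 (xs T1.l5 T1.l5)) (xb (xk T1.l5 T1.l5) (xs T1.l5 (xk T1.l5 T1.l5)))) (xa (xb (xs T1.l5 (xk T1.l5 T1.l5)) (xs (xk T1.l5 T1.l5) (xk (xa T1.l5 T1.l5) T1.l5))) (xb (xs T1.l5 (xk T1.l5 T1.l5)) (xs (xk T1.l5 T1.l5) (xk (xa T1.l5 T1.l5) T1.l5))))))) = true := by decide +kernel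
theorem c4_2_1 : chkTag sI cl13 cl4 cl5 t3 b4_2 (tg true false false RT.r3) (I.pos (nat_lit 0) (nat_lit 0))
  (xb (xa (xk T3.l1 T3.l1) (xk T3.l1 T3.l1)) (xa (xk (xb T3.l1 T3.l1) (xb T3.l1 T3.l1)) (xk (xb T3.l1 T3.l1) (xb T3.l1 T3.l1)))) = true := by decide +kernel
theorem c4_2_2 : chkTag sI cl13 cl4 cl5 t1 b4_2 (Tag.mk true true false RT.tl RT.r4) (I.pos (nat_lit 0) (nat_lit 134217730))
  (xR T1.l12 (xR T1.l1 (xR T1.l1 (xb (xR T1.l1 T1.l1) (xa (xR T1.l1 T1.l1) (xR T1.l1 T1.l1)))))) = true := by decide +kernel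
theorem c4_2_3 : chkTag sI cl13 cl4 cl5 t3 b4_2 (Tag.mk true false false RT.tl RT.r5) (I.pos (nat_lit 0) (nat_lit 110514882))
  (xR T3.l4 (xR T3.l2 (xR T3.l2 (xb T3.l2 (xk T3.l2 T3.l2))))) = true := by decide +kernel
theorem c4_2_4 : chkTag sI cl13 cl4 cl5 t3 b4_2 (tg false false false RT.r3) (I.pos (nat_lit 0) (nat_lit 0))
  (xb (xk (xa T3.l6 T3.l6) (xa T3.l6 T3.l6)) (xk (xa T3.l6 T3.l6) (xa T3.l6 T3.l6))) = true := by decide +kernel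
theorem c4_2_5 : chkTag sI cl13 cl4 cl5 t1 b4_2 (tg false true false RT.r4) (I.pos (nat_lit 0) (nat_lit 0))
  (xb T1.l2 T1.l2) = true := by decide +kernel
theorem c4_2_6 : chkTag sI cl13 cl4 cl5 t3 b4_2 (Tag.mk false false false RT.tl RT.r5) (I.mix (nat_lit 8088324) (nat_lit 110514882))
  (xR (xR T3.l4 T3.l4) (xR T3.l4 (xR T3.l4 (xb (xR T3.l4 T3.l4) (xk (xR T3.l4 T3.l4) T3.l4))))) = true := by decide +kernel
theorem c4_2_7 : chkTag sI cl13 cl4 cl5 t1 b4_2 (Tag.mk false true false RT.tl RT.r6) (I.mix (nat_lit 8088324) (nat_lit 89478486))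
  (xR T1.l12 (xR T1.l3 (xb (xR T1.l3 T1.l3) T1.l3))) = true := by decide +kernel
theorem bx4_2 : BoxOK sI cl13 cl4 cl5 t1 t3 b4_2 :=
  box_mk' [(tg true true false RT.r2), (tg true false false RT.r3), (Tag.mk true true false RT.tl RT.r4), (Tag.mk true false false RT.tl RT.r5), (tg false false false RT.r3), (tg false true false RT.r4), (Tag.mk false false false RT.tl RT.r5), (Tag.mk false true false RT.tl RT.r6)] rfl (allL_c (ex_mk c4_2_0) (allL_c (ex_mk c4_2_1) (allL_c (ex_mk c4_2_2) (allL_c (ex_mk c4_2_3) (allL_c (ex_mk c4_2_4) (allL_c (ex_mk c4_2_5) (allL_c (ex_mk c4_2_6) (allL_c (ex_mk c4_2_7) allL_n))))))))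
theorem bx4_3 : BoxOK sI cl13 cl4 cl5 t1 t3 b4_3 :=
  box_mk (TrL.c (I.pos (nat_lit 0) (nat_lit 0)) (xa (xk T3.l1 T3.l1) (xb T3.l8 T3.l8))
  (TrL.c (I.pos (nat_lit 0) (nat_lit 0)) T1.l7
  (TrL.c (I.mix (nat_lit 8088324) (nat_lit 110514882)) (xR (xR (xR T3.l7 T3.l7) T3.l7) (xR T3.l7 (xR T3.l4 (xk T3.l2 T3.l2))))
  (TrL.c (I.mix (nat_lit 8088324) (nat_lit 89478486)) (xR (xR (xR T1.l6 T1.l1) T1.l1) T1.l1)
  TrL.n)))) (by decide +kernel)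
theorem bx4_4 : BoxOK sI cl13 cl4 cl5 t1 t3 b4_4 :=
  box_mk (TrL.c (I.pos (nat_lit 0) (nat_lit 0)) (xb (xa T3.l8 T3.l8) (xk T3.l8 T3.l8))
  (TrL.c (I.pos (nat_lit 0) (nat_lit 0)) T1.l7
  (TrL.c (I.mix (nat_lit 8088324) (nat_lit 110514882)) (xR (xR T3.l7 T3.l7) T3.l4)
  (TrL.c (I.mix (nat_lit 8088324) (nat_lit 89478486)) (xR (xR T1.l6 T1.l1) T1.l12)
  TrL.n)))) (by decide +kernel)
theorem bx4_5 : BoxOK sI cl13 cl4 cl5 t1 t3 b4_5 :=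
  box_mk (TrL.c (I.pos (nat_lit 0) (nat_lit 0)) (xb (xa T1.l8 T1.l4) T1.l4)
  (TrL.c (I.pos (nat_lit 0) (nat_lit 0)) T3.l8
  (TrL.c (I.pos (nat_lit 0) (nat_lit 134217730)) (xR T1.l12 (xR T1.l1 (xR T1.l1 (xR T1.l1 T1.l7))))
  (TrL.c (I.pos (nat_lit 0) (nat_lit 110514882)) (xR T3.l4 T3.l4)
  (TrL.c (I.pos (nat_lit 0) (nat_lit 0)) (xk T3.l9 T3.l9)
  (TrL.c (I.pos (nat_lit 0) (nat_lit 0)) T1.l2
  (TrL.c (I.mix (nat_lit 8088324) (nat_lit 110514882)) (xR T3.l4 (xR T3.l4 T3.l4))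
  (TrL.c (I.mix (nat_lit 8088324) (nat_lit 89478486)) T1.l12
  TrL.n)))))))) (by decide +kernel)
theorem bx4_6 : BoxOK sI cl13 cl4 cl5 t1 t3 b4_6 :=
  box_mk (TrL.c (I.pos (nat_lit 0) (nat_lit 0)) (xb T1.l4 T1.l21)
  (TrL.c (I.pos (nat_lit 0) (nat_lit 0)) T3.l1
  (TrL.c (I.pos (nat_lit 0) (nat_lit 134217730)) (xR T1.l12 T1.l1)
  (TrL.c (I.pos (nat_lit 0) (nat_lit 110514882)) (xR T3.l4 (xR T3.l2 T3.l2))
  (TrL.c (I.pos (nat_lit 0) (nat_lit 0)) T3.l21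
  (TrL.c (I.pos (nat_lit 0) (nat_lit 0)) T1.l2
  (TrL.c (I.mix (nat_lit 8088324) (nat_lit 110514882)) (xR T3.l4 T3.l4)
  (TrL.c (I.mix (nat_lit 8088324) (nat_lit 89478486)) T1.l3
  TrL.n)))))))) (by decide +kernel)
theorem bx4_7 : BoxOK sI cl13 cl4 cl5 t1 t3 b4_7 :=
  box_mk (TrL.c (I.pos (nat_lit 0) (nat_lit 0)) (xa (xb (xa T1.l0 T1.l0) (xa (xb T1.l0 T1.l0) (xb T1.l0 T1.l0))) (xb (xa T1.l0 T1.l0) (xa (xb T1.l0 T1.l0) (xb T1.l0 T1.l0))))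
  (TrL.c (I.pos (nat_lit 0) (nat_lit 0)) (xa (xk T3.l1 T3.l1) (xk (xb T3.l11 (xa T3.l1 (xk T3.l1 T3.l1))) (xb T3.l1 T3.l1)))
  (TrL.c (I.pos (nat_lit 0) (nat_lit 134217730)) (xR (xR T1.l12 T1.l1) (xR T1.l1 (xR T1.l1 T1.l12)))
  (TrL.c (I.pos (nat_lit 0) (nat_lit 110514882)) (xR T3.l7 (xR T3.l2 (xR T3.l2 (xk (xR T3.l2 T3.l2) T3.l2))))
  (TrL.c (I.pos (nat_lit 0) (nat_lit 0)) (xa (xk (xb T3.l3 T3.l3) (xb T3.l3 T3.l3)) (xk (xb (xa T3.l3 (xb T3.l3 T3.l3)) (xa T3.l3 (xk T3.l3 T3.l3))) (xb (xa T3.l3 T3.l3) (xa T3.l3 (xb T3.l3 T3.l3)))))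
  (TrL.c (I.pos (nat_lit 0) (nat_lit 0)) (xk (xa T1.l2 (xb T1.l2 T1.l2)) (xa T1.l2 T1.l2))
  (TrL.c (I.mix (nat_lit 8088324) (nat_lit 110514882)) (xR (xR T3.l4 T3.l4) (xR T3.l4 (xR T3.l4 (xk (xR T3.l4 T3.l4) T3.l4))))
  (TrL.c (I.mix (nat_lit 8088324) (nat_lit 89478486)) (xR T1.l3 (xR T1.l3 (xR T1.l3 T1.l3)))
  TrL.n)))))))) (by decide +kernel)
theorem bx4_8 : BoxOK sI cl13 cl4 cl5 t1 t3 b4_8 :=
  box_mk (TrL.c (I.pos (nat_lit 0) (nat_lit 0)) (xb T1.l8 T1.l8)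
  (TrL.c (I.pos (nat_lit 0) (nat_lit 0)) T3.l8
  (TrL.c (I.pos (nat_lit 0) (nat_lit 134217730)) (xR T1.l1 (xR T1.l1 (xR T1.l1 T1.l1)))
  (TrL.c (I.pos (nat_lit 0) (nat_lit 110514882)) T3.l4
  (TrL.c (I.pos (nat_lit 0) (nat_lit 0)) T3.l9
  (TrL.c (I.pos (nat_lit 0) (nat_lit 0)) T1.l2
  (TrL.c (I.mix (nat_lit 8088324) (nat_lit 110514882)) (xR T3.l7 T3.l4)
  (TrL.c (I.mix (nat_lit 8088324) (nat_lit 89478486)) (xR T1.l6 T1.l1)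
  TrL.n)))))))) (by decide +kernel)
theorem bx4_9 : BoxOK sI cl13 cl4 cl5 t1 t3 b4_9 :=
  box_mk (TrL.c (I.pos (nat_lit 0) (nat_lit 0)) (xa T1.l0 T1.l0)
  (TrL.c (I.pos (nat_lit 0) (nat_lit 0)) T3.l1
  (TrL.c (I.pos (nat_lit 0) (nat_lit 134217730)) (xR T1.l12 T1.l1)
  (TrL.c (I.pos (nat_lit 0) (nat_lit 110514882)) (xR T3.l4 T3.l2)
  (TrL.c (I.pos (nat_lit 0) (nat_lit 0)) T3.l3
  (TrL.c (I.pos (nat_lit 0) (nat_lit 0)) T1.l2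
  (TrL.c (I.mix (nat_lit 8088324) (nat_lit 110514882)) (xR (xR T3.l4 T3.l4) T3.l4)
  (TrL.c (I.mix (nat_lit 8088324) (nat_lit 89478486)) (xR T1.l3 T1.l3)
  TrL.n)))))))) (by decide +kernel)
theorem bx4_10 : BoxOK sI cl13 cl4 cl5 t1 t3 b4_10 :=
  box_mk (TrL.c (I.pos (nat_lit 0) (nat_lit 0)) T1.l8
  (TrL.c (I.pos (nat_lit 0) (nat_lit 0)) T3.l1
  (TrL.c (I.pos (nat_lit 0) (nat_lit 134217730)) (xR T1.l1 (xR T1.l1 T1.l1))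
  (TrL.c (I.pos (nat_lit 0) (nat_lit 110514882)) T3.l4
  (TrL.c (I.pos (nat_lit 0) (nat_lit 0)) T3.l9
  (TrL.c (I.pos (nat_lit 0) (nat_lit 0)) T1.l2
  (TrL.c (I.mix (nat_lit 8088324) (nat_lit 110514882)) (xR T3.l4 T3.l4)
  (TrL.c (I.mix (nat_lit 8088324) (nat_lit 89478486)) T1.l12
  TrL.n)))))))) (by decide +kernel)
theorem bx4_11 : BoxOK sI cl13 cl4 cl5 t1 t3 b4_11 :=
  box_mk (TrL.c (I.pos (nat_lit 0) (nat_lit 0)) (xa T1.l0 T1.l0)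
  (TrL.c (I.pos (nat_lit 0) (nat_lit 0)) (xk (xb T3.l1 (xa T3.l1 T3.l1)) T3.l1)
  (TrL.c (I.pos (nat_lit 0) (nat_lit 134217730)) (xR (xR T1.l12 T1.l1) (xR T1.l1 T1.l1))
  (TrL.c (I.pos (nat_lit 0) (nat_lit 110514882)) (xR T3.l7 (xR T3.l2 T3.l2))
  (TrL.c (I.pos (nat_lit 0) (nat_lit 0)) (xk (xb (xa T3.l3 (xk T3.l3 T3.l3)) (xa T3.l3 T3.l3)) (xb (xa T3.l3 (xk T3.l3 T3.l3)) T3.l3))
  (TrL.c (I.pos (nat_lit 0) (nat_lit 0)) (xk T1.l2 T1.l2)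
  (TrL.c (I.mix (nat_lit 8088324) (nat_lit 110514882)) (xR (xR T3.l4 T3.l4) (xR T3.l4 (xR T3.l4 (xR T3.l4 T3.l4))))
  (TrL.c (I.mix (nat_lit 8088324) (nat_lit 89478486)) (xR T1.l3 (xR T1.l3 T1.l3))
  TrL.n)))))))) (by decide +kernel)
theorem bx4_12 : BoxOK sI cl13 cl4 cl5 t1 t3 b4_12 :=
  box_mk (TrL.c (I.pos (nat_lit 0) (nat_lit 0)) T1.l8
  (TrL.c (I.pos (nat_lit 0) (nat_lit 0)) T3.l8
  (TrL.c (I.pos (nat_lit 0) (nat_lit 134217730)) (xR T1.l1 (xR T1.l1 (xR T1.l1 T1.l1)))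
  (TrL.c (I.pos (nat_lit 0) (nat_lit 110514882)) T3.l4
  (TrL.c (I.pos (nat_lit 0) (nat_lit 0)) T3.l9
  (TrL.c (I.pos (nat_lit 0) (nat_lit 0)) T1.l2
  (TrL.c (I.mix (nat_lit 8088324) (nat_lit 110514882)) (xR T3.l7 T3.l4)
  (TrL.c (I.mix (nat_lit 8088324) (nat_lit 89478486)) (xR T1.l6 T1.l1)
  TrL.n)))))))) (by decide +kernel)
theorem bx4_13 : BoxOK sI cl13 cl4 cl5 t1 t3 b4_13 :=
  box_mk (TrL.c (I.pos (nat_lit 0) (nat_lit 0)) T1.l0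
  (TrL.c (I.pos (nat_lit 0) (nat_lit 0)) T3.l1
  (TrL.c (I.pos (nat_lit 0) (nat_lit 134217730)) (xR (xR T1.l12 T1.l1) T1.l1)
  (TrL.c (I.pos (nat_lit 0) (nat_lit 110514882)) (xR T3.l4 T3.l2)
  (TrL.c (I.pos (nat_lit 0) (nat_lit 0)) T3.l0
  (TrL.c (I.pos (nat_lit 0) (nat_lit 0)) T1.l2
  (TrL.c (I.mix (nat_lit 8088324) (nat_lit 110514882)) (xR (xR T3.l4 T3.l4) (xR T3.l4 T3.l4))
  (TrL.c (I.mix (nat_lit 8088324) (nat_lit 89478486)) (xR T1.l3 (xR T1.l3 T1.l3))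
  TrL.n)))))))) (by decide +kernel)
theorem bx4_14 : BoxOK sI cl13 cl4 cl5 t1 t3 b4_14 :=
  box_mk (TrL.c (I.pos (nat_lit 0) (nat_lit 0)) T1.l8
  (TrL.c (I.pos (nat_lit 0) (nat_lit 0)) T3.l1
  (TrL.c (I.pos (nat_lit 0) (nat_lit 134217730)) (xR T1.l1 (xR T1.l1 (xR T1.l1 T1.l1)))
  (TrL.c (I.pos (nat_lit 0) (nat_lit 110514882)) T3.l4
  (TrL.c (I.pos (nat_lit 0) (nat_lit 0)) T3.l9
  (TrL.c (I.pos (nat_lit 0) (nat_lit 0)) T1.l2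
  (TrL.c (I.mix (nat_lit 8088324) (nat_lit 110514882)) (xR T3.l4 T3.l4)
  (TrL.c (I.mix (nat_lit 8088324) (nat_lit 89478486)) (xR T1.l6 T1.l3)
  TrL.n)))))))) (by decide +kernel)
theorem bx4_15 : BoxOK sI cl13 cl4 cl5 t1 t3 b4_15 :=
  box_mk (TrL.c (I.pos (nat_lit 0) (nat_lit 0)) T1.l8
  (TrL.c (I.pos (nat_lit 0) (nat_lit 0)) T3.l1
  (TrL.c (I.pos (nat_lit 0) (nat_lit 134217730)) (xR T1.l12 (xR T1.l1 T1.l1))
  (TrL.c (I.pos (nat_lit 0) (nat_lit 110514882)) T3.l4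
  (TrL.c (I.pos (nat_lit 0) (nat_lit 0)) T3.l9
  (TrL.c (I.pos (nat_lit 0) (nat_lit 0)) T1.l2
  (TrL.c (I.mix (nat_lit 8088324) (nat_lit 110514882)) (xR T3.l4 T3.l4)
  (TrL.c (I.mix (nat_lit 8088324) (nat_lit 89478486)) T1.l12
  TrL.n)))))))) (by decide +kernel)
theorem bx4_16 : BoxOK sI cl13 cl4 cl5 t1 t3 b4_16 :=
  box_mk (TrL.c (I.pos (nat_lit 0) (nat_lit 0)) T1.l0
  (TrL.c (I.pos (nat_lit 0) (nat_lit 0)) (xk T3.l1 T3.l1)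
  (TrL.c (I.pos (nat_lit 0) (nat_lit 134217730)) (xR (xR T1.l12 T1.l1) T1.l1)
  (TrL.c (I.pos (nat_lit 0) (nat_lit 110514882)) (xR T3.l4 (xR T3.l2 T3.l2))
  (TrL.c (I.pos (nat_lit 0) (nat_lit 0)) (xk T3.l3 T3.l3)
  (TrL.c (I.pos (nat_lit 0) (nat_lit 0)) T1.l2
  (TrL.c (I.mix (nat_lit 8088324) (nat_lit 110514882)) (xR (xR T3.l4 T3.l4) (xR T3.l4 T3.l4))
  (TrL.c (I.mix (nat_lit 8088324) (nat_lit 89478486)) (xR T1.l3 T1.l3)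
  TrL.n)))))))) (by decide +kernel)
theorem bx4_17 : BoxOK sI cl13 cl4 cl5 t1 t3 b4_17 :=
  box_mk (TrL.c (I.pos (nat_lit 0) (nat_lit 0)) T1.l8
  (TrL.c (I.pos (nat_lit 0) (nat_lit 0)) T3.l1
  (TrL.c (I.pos (nat_lit 0) (nat_lit 134217730)) (xR T1.l1 (xR T1.l1 T1.l1))
  (TrL.c (I.pos (nat_lit 0) (nat_lit 110514882)) T3.l4
  (TrL.c (I.pos (nat_lit 0) (nat_lit 0)) T3.l9
  (TrL.c (I.pos (nat_lit 0) (nat_lit 0)) T1.l2
  (TrL.c (I.mix (nat_lit 8088324) (nat_lit 110514882)) (xR T3.l4 T3.l4)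
  (TrL.c (I.mix (nat_lit 8088324) (nat_lit 89478486)) (xR T1.l3 T1.l1)
  TrL.n)))))))) (by decide +kernel)
theorem bx4_18 : BoxOK sI cl13 cl4 cl5 t1 t3 b4_18 :=
  box_mk (TrL.c (I.pos (nat_lit 0) (nat_lit 0)) (xa (xb (xa T1.l5 (xb T1.l0 T1.l0)) (xa (xs T1.l0 (xb T1.l0 T1.l0)) (xs T1.l0 (xb T1.l0 (xk T1.l0 T1.l0))))) (xb (xa (xb T1.l0 T1.l0) (xb T1.l0 T1.l0)) (xa (xs T1.l0 (xb T1.l0 (xk T1.l0 T1.l0))) (xs T1.l0 (xb T1.l0 (xk T1.l0 T1.l0))))))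
  (TrL.c (I.pos (nat_lit 0) (nat_lit 0)) (xk (xa T3.l1 T3.l1) (xa T3.l1 T3.l1))
  (TrL.c (I.pos (nat_lit 0) (nat_lit 134217730)) (xR T1.l12 (xR T1.l1 T1.l1))
  (TrL.c (I.pos (nat_lit 0) (nat_lit 110514882)) (xR T3.l4 (xR T3.l2 T3.l2))
  (TrL.c (I.pos (nat_lit 0) (nat_lit 0)) (xk T3.l3 T3.l3)
  (TrL.c (I.pos (nat_lit 0) (nat_lit 0)) T1.l2
  (TrL.c (I.mix (nat_lit 8088324) (nat_lit 110514882)) (xR (xR T3.l4 T3.l4) (xR T3.l4 T3.l4))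
  (TrL.c (I.mix (nat_lit 8088324) (nat_lit 89478486)) (xR T1.l3 T1.l3)
  TrL.n)))))))) (by decide +kernel)
theorem bx4_19 : BoxOK sI cl13 cl4 cl5 t1 t3 b4_19 :=
  box_mk (TrL.c (I.pos (nat_lit 0) (nat_lit 0)) (xb T1.l4 T1.l4)
  (TrL.c (I.pos (nat_lit 0) (nat_lit 0)) T3.l1
  (TrL.c (I.pos (nat_lit 0) (nat_lit 134217730)) (xR T1.l12 (xR T1.l1 T1.l1))
  (TrL.c (I.pos (nat_lit 0) (nat_lit 110514882)) (xR T3.l4 T3.l4)
  (TrL.c (I.pos (nat_lit 0) (nat_lit 0)) T3.l9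
  (TrL.c (I.pos (nat_lit 0) (nat_lit 0)) T1.l2
  (TrL.c (I.mix (nat_lit 8088324) (nat_lit 110514882)) (xR T3.l4 T3.l4)
  (TrL.c (I.mix (nat_lit 8088324) (nat_lit 89478486)) T1.l12
  TrL.n)))))))) (by decide +kernel)
theorem bx4_20 : BoxOK sI cl13 cl4 cl5 t1 t3 b4_20 :=
  box_mk (TrL.c (I.pos (nat_lit 0) (nat_lit 0)) (xa (xb (xa T1.l0 T1.l0) (xa (xb T1.l0 (xc T1.l0 (xa T1.l0 T1.l0))) (xb T1.l0 (xc T1.l0 (xa T1.l0 T1.l0))))) (xb (xa T1.l0 T1.l0) (xa (xb T1.l0 (xc T1.l0 (xa T1.l0 T1.l0))) (xb T1.l0 (xa T1.l0 T1.l0)))))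
  (TrL.c (I.pos (nat_lit 0) (nat_lit 0)) (xa (xk (xb T3.l1 T3.l1) (xb T3.l1 T3.l1)) (xk (xb T3.l11 (xa T3.l1 (xk T3.l11 T3.l1))) (xb (xa T3.l1 T3.l11) (xa T3.l1 T3.l11))))
  (TrL.c (I.pos (nat_lit 0) (nat_lit 134217730)) (xR (xR T1.l12 T1.l1) (xR T1.l1 (xR T1.l1 T1.l12)))
  (TrL.c (I.pos (nat_lit 0) (nat_lit 110514882)) (xR (xR T3.l4 T3.l2) (xR T3.l2 (xR T3.l2 (xa T3.l2 (xR T3.l2 T3.l2)))))
  (TrL.c (I.pos (nat_lit 0) (nat_lit 0)) (xa (xb (xk (xa T3.l3 T3.l3) (xa T3.l3 T3.l3)) (xk T3.l3 T3.l3)) (xb (xk (xa (xb T3.l3 T3.l3) (xb (xk T3.l3 T3.l3) T3.l3)) (xa (xb T3.l3 T3.l3) (xb T3.l3 T3.l3))) (xk (xa T3.l3 (xb (xk T3.l3 T3.l3) (xk T3.l3 T3.l3))) (xa T3.l3 (xb T3.l3 T3.l3)))))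
  (TrL.c (I.pos (nat_lit 0) (nat_lit 0)) (xk (xa T1.l2 (xb T1.l2 T1.l2)) (xa T1.l2 (xb T1.l2 T1.l2)))
  (TrL.c (I.mix (nat_lit 8088324) (nat_lit 110514882)) (xR (xR T3.l4 T3.l4) (xR T3.l4 (xR T3.l4 (xk (xb (xR T3.l4 T3.l4) (xR T3.l4 T3.l4)) T3.l4))))
  (TrL.c (I.mix (nat_lit 8088324) (nat_lit 89478486)) (xR T1.l3 (xR T1.l3 (xR T1.l3 T1.l3)))
  TrL.n)))))))) (by decide +kernel)
theorem bx4_21 : BoxOK sI cl13 cl4 cl5 t1 t3 b4_21 :=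
  box_mk (TrL.c (I.pos (nat_lit 0) (nat_lit 0)) (xb (xa T1.l8 T1.l8) T1.l8)
  (TrL.c (I.pos (nat_lit 0) (nat_lit 0)) T3.l8
  (TrL.c (I.pos (nat_lit 0) (nat_lit 134217730)) (xR T1.l1 (xR T1.l1 (xR T1.l1 T1.l1)))
  (TrL.c (I.pos (nat_lit 0) (nat_lit 110514882)) T3.l4
  (TrL.c (I.pos (nat_lit 0) (nat_lit 0)) T3.l9
  (TrL.c (I.pos (nat_lit 0) (nat_lit 0)) T1.l2
  (TrL.c (I.mix (nat_lit 8088324) (nat_lit 110514882)) (xR T3.l7 T3.l4)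
  (TrL.c (I.mix (nat_lit 8088324) (nat_lit 89478486)) (xR T1.l6 T1.l1)
  TrL.n)))))))) (by decide +kernel)
theorem bx4_22 : BoxOK sI cl13 cl4 cl5 t1 t3 b4_22 :=
  box_mk (TrL.c (I.pos (nat_lit 0) (nat_lit 0)) T1.l8
  (TrL.c (I.pos (nat_lit 0) (nat_lit 0)) T3.l1
  (TrL.c (I.pos (nat_lit 0) (nat_lit 134217730)) (xR T1.l1 (xR T1.l1 T1.l1))
  (TrL.c (I.pos (nat_lit 0) (nat_lit 110514882)) T3.l4
  (TrL.c (I.pos (nat_lit 0) (nat_lit 0)) T3.l9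
  (TrL.c (I.pos (nat_lit 0) (nat_lit 0)) T1.l2
  (TrL.c (I.mix (nat_lit 8088324) (nat_lit 110514882)) (xR T3.l4 T3.l4)
  (TrL.c (I.mix (nat_lit 8088324) (nat_lit 89478486)) T1.l3
  TrL.n)))))))) (by decide +kernel)
theorem bx4_23 : BoxOK sI cl13 cl4 cl5 t1 t3 b4_23 :=
  box_mk (TrL.c (I.pos (nat_lit 0) (nat_lit 0)) T1.l0
  (TrL.c (I.pos (nat_lit 0) (nat_lit 0)) T3.l11
  (TrL.c (I.pos (nat_lit 0) (nat_lit 134217730)) (xR (xR T1.l12 T1.l1) T1.l1)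
  (TrL.c (I.pos (nat_lit 0) (nat_lit 110514882)) (xR T3.l7 (xR T3.l2 T3.l2))
  (TrL.c (I.pos (nat_lit 0) (nat_lit 0)) (xk T3.l3 T3.l3)
  (TrL.c (I.pos (nat_lit 0) (nat_lit 0)) T1.l2
  (TrL.c (I.mix (nat_lit 8088324) (nat_lit 110514882)) (xR (xR T3.l4 T3.l4) (xR T3.l4 (xR T3.l4 T3.l4)))
  (TrL.c (I.mix (nat_lit 8088324) (nat_lit 89478486)) (xR T1.l3 (xR T1.l3 T1.l3))
  TrL.n)))))))) (by decide +kernel)
theorem sv4 : StarV sI cl13 cl4 cl5 t1 t3 t4 :=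
  (bt_n (bt_n (bt_n (bt_n (bt_b bx4_0) (bt_n (bt_b bx4_1) (bt_b bx4_2))) (bt_n (bt_b bx4_3) (bt_n (bt_b bx4_4) (bt_b bx4_5)))) (bt_n (bt_n (bt_b bx4_6) (bt_n (bt_b bx4_7) (bt_b bx4_8))) (bt_n (bt_b bx4_9) (bt_n (bt_b bx4_10) (bt_b bx4_11))))) (bt_n (bt_n (bt_n (bt_b bx4_12) (bt_n (bt_b bx4_13) (bt_b bx4_14))) (bt_n (bt_b bx4_15) (bt_n (bt_b bx4_16) (bt_b bx4_17)))) (bt_n (bt_n (bt_b bx4_18) (bt_n (bt_b bx4_19) (bt_b bx4_20))) (bt_n (bt_b bx4_21) (bt_n (bt_b bx4_22) (bt_b bx4_23))))))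
def S4 : StarD := StarD.mk cl13 cl4 cl5 1 3 t4
theorem c5_0_0 : chkTag sI cl13 cl5 cl4 t3 b5_0 (tg true true false RT.r2) (I.pos (nat_lit 0) (nat_lit 0))
  (xa (xb (xa (xb T3.l16 (xc T3.l16 (xs T3.l0 T3.l16))) (xb (xc (xa T3.l0 T3.l0) T3.l0) (xc (xs T3.l0 (xa T3.l0 T3.l0)) (xs T3.l0 (xk T3.l0 T3.l0))))) (xa (xb (xc T3.l16 (xs T3.l16 T3.l16)) (xs (xc T3.l16 (xa T3.l16 T3.l16)) (xc T3.l16 (xa T3.l16 T3.l16)))) (xb (xc (xs T3.l16 (xa T3.l16 T3.l16)) (xs (xa T3.l0 T3.l0) (xk (xa T3.l0 T3.l0) T3.l0))) (xs (xc T3.l16 (xk (xa T3.l0 T3.l0) T3.l16)) (xc (xa T3.l16 (xk T3.l16 T3.l16)) (xa (xk T3.l16 T3.l16) (xk T3.l0 T3.l0))))))) (xb (xa (xb (xc T3.l0 T3.l0) (xc (xs T3.l0 T3.l0) (xs T3.l0 T3.l0))) (xb (xc T3.l0 T3.l0) (xc (xs T3.l0 T3.l0) (xs T3.l0 T3.l0)))) (xa (xb (xs (xc (xa T3.l0 T3.l0) T3.l0) (xc (xa T3.l0 T3.l0) (xk T3.l0 T3.l0))) (xs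 (xc (xa T3.l16 T3.l0) (xk (xa T3.l0 T3.l0) T3.l0)) (xc (xa (xk T3.l0 T3.l0) (xk T3.l0 T3.l0)) (xk (xa T3.l0 T3.l0) (xa T3.l0 T3.l0))))) (xb (xs (xc T3.l0 T3.l0) (xc (xa T3.l0 T3.l0) (xk T3.l0 T3.l0))) (xs (xc (xa T3.l0 T3.l0) (xk T3.l0 T3.l0)) (xc (xa (xk T3.l0 T3.l0) (xk T3.l0 T3.l0)) (xk (xa T3.l0 T3.l0) T3.l0))))))) = true := by decide +kernel
theorem c5_0_1 : chkTag sI cl13 cl5 cl4 t1 b5_0 (tg true false false RT.r3) (I.pos (nat_lit 0) (nat_lit 0))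
  (xa (xk (xb T1.l9 (xa T1.l9 T1.l9)) (xb T1.l9 (xa T1.l9 T1.l9))) (xk (xb T1.l9 (xa T1.l9 T1.l9)) (xb T1.l9 (xa T1.l9 T1.l9)))) = true := by decide +kernel
theorem c5_0_2 : chkTag sI cl13 cl5 cl4 t3 b5_0 (Tag.mk true true false RT.tl RT.r4) (I.pos (nat_lit 0) (nat_lit 134217730))
  (xR (xR T3.l4 T3.l4) (xR T3.l10 (xR T3.l10 (xa (xR T3.l10 T3.l10) T3.l4)))) = true := by decide +kernel
theorem c5_0_3 : chkTag sI cl13 cl5 cl4 t1 b5_0 (Tag.mk true false false RT.tl RT.r5) (I.pos (nat_lit 0) (nat_lit 110514882))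
  (xR (xR T1.l3 T1.l3) (xR T1.l10 (xR T1.l10 (xk (xR T1.l10 T1.l10) T1.l10)))) = true := by decide +kernel
theorem c5_0_4 : chkTag sI cl13 cl5 cl4 t1 b5_0 (tg false false false RT.r3) (I.pos (nat_lit 0) (nat_lit 0))
  (xa (xk T1.l11 T1.l11) (xk (xb T1.l11 T1.l11) (xb T1.l11 T1.l11))) = true := by decide +kernel
theorem c5_0_5 : chkTag sI cl13 cl5 cl4 t3 b5_0 (tg false true false RT.r4) (I.pos (nat_lit 0) (nat_lit 0))
  (xk T3.l11 T3.l11) = true := by decide +kernel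
theorem c5_0_6 : chkTag sI cl13 cl5 cl4 t1 b5_0 (Tag.mk false false false RT.tl RT.r5) (I.mix (nat_lit 8088324) (nat_lit 110514882))
  (xR T1.l12 (xR T1.l12 (xR T1.l12 T1.l12))) = true := by decide +kernel
theorem c5_0_7 : chkTag sI cl13 cl5 cl4 t3 b5_0 (Tag.mk false true false RT.tl RT.r6) (I.mix (nat_lit 8088324) (nat_lit 89478486))
  (xR T3.l12 (xR T3.l12 T3.l12)) = true := by decide +kernel
theorem bx5_0 : BoxOK sI cl13 cl5 cl4 t3 t1 b5_0 :=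
  box_mk' [(tg true true false RT.r2), (tg true false false RT.r3), (Tag.mk true true false RT.tl RT.r4), (Tag.mk true false false RT.tl RT.r5), (tg false false false RT.r3), (tg false true false RT.r4), (Tag.mk false false false RT.tl RT.r5), (Tag.mk false true false RT.tl RT.r6)] rfl (allL_c (ex_mk c5_0_0) (allL_c (ex_mk c5_0_1) (allL_c (ex_mk c5_0_2) (allL_c (ex_mk c5_0_3) (allL_c (ex_mk c5_0_4) (allL_c (ex_mk c5_0_5) (allL_c (ex_mk c5_0_6) (allL_c (ex_mk c5_0_7) allL_n))))))))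
theorem bx5_1 : BoxOK sI cl13 cl5 cl4 t3 t1 b5_1 :=
  box_mk (TrL.c (I.pos (nat_lit 0) (nat_lit 0)) (xa (xb (xb (xa T3.l13 T3.l13) (xa T3.l13 T3.l13)) (xb (xa T3.l13 T3.l13) (xa T3.l13 T3.l13))) (xb (xb (xa T3.l13 T3.l13) (xa T3.l13 T3.l13)) (xa (xb T3.l13 T3.l13) (xb T3.l13 T3.l13))))
  (TrL.c (I.pos (nat_lit 0) (nat_lit 0)) (xb (xa T1.l9 T1.l9) (xa T1.l9 T1.l9))
  (TrL.c (I.pos (nat_lit 0) (nat_lit 134217730)) (xR T3.l4 (xR T3.l10 (xR T3.l10 T3.l10)))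
  (TrL.c (I.pos (nat_lit 0) (nat_lit 110514882)) (xR T1.l12 (xR T1.l12 (xR T1.l10 T1.l10)))
  (TrL.c (I.pos (nat_lit 0) (nat_lit 0)) (xb (xa (xk T1.l13 T1.l13) (xk T1.l13 T1.l13)) (xk T1.l13 T1.l13))
  (TrL.c (I.pos (nat_lit 0) (nat_lit 0)) T3.l11
  (TrL.c (I.mix (nat_lit 8088324) (nat_lit 110514882)) (xR T1.l12 (xR T1.l12 (xR T1.l12 (xk (xR T1.l12 T1.l12) T1.l12))))
  (TrL.c (I.mix (nat_lit 8088324) (nat_lit 89478486)) T3.l4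
  TrL.n)))))))) (by decide +kernel)
theorem bx5_2 : BoxOK sI cl13 cl5 cl4 t3 t1 b5_2 :=
  box_mk (TrL.c (I.pos (nat_lit 0) (nat_lit 0)) T1.l9
  (TrL.c (I.pos (nat_lit 0) (nat_lit 0)) T3.l10
  (TrL.c (I.mix (nat_lit 8088324) (nat_lit 110514882)) (xR T1.l15 (xR T1.l15 (xR T1.l15 T1.l15)))
  (TrL.c (I.mix (nat_lit 8088324) (nat_lit 89478486)) (xR T3.l7 T3.l4)
  TrL.n)))) (by decide +kernel)
theorem bx5_3 : BoxOK sI cl13 cl5 cl4 t3 t1 b5_3 :=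
  box_mk (TrL.c (I.pos (nat_lit 0) (nat_lit 0)) (xb (xa (xb (xa T3.l16 T3.l16) (xa (xs T3.l16 T3.l16) T3.l16)) (xa (xb T3.l16 T3.l16) (xb (xk T3.l16 T3.l16) (xs T3.l16 (xk T3.l16 T3.l16))))) (xa (xb (xa (xs T3.l16 T3.l16) (xs T3.l16 T3.l16)) (xa (xs T3.l16 (xk T3.l16 T3.l16)) (xs T3.l16 (xk T3.l16 T3.l16)))) (xa (xb (xs T3.l16 T3.l16) (xs T3.l16 (xk T3.l16 T3.l16))) (xb (xs T3.l16 (xk T3.l16 T3.l16)) (xs T3.l16 (xk (xb T3.l16 T3.l16) (xb T3.l16 T3.l16)))))))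
  (TrL.c (I.pos (nat_lit 0) (nat_lit 0)) (xk (xb (xa T1.l9 T1.l9) (xa T1.l9 T1.l9)) (xb (xa T1.l9 T1.l9) (xa T1.l9 T1.l9)))
  (TrL.c (I.pos (nat_lit 0) (nat_lit 134217730)) (xR T3.l4 (xR T3.l10 (xR T3.l10 (xR T3.l10 T3.l10))))
  (TrL.c (I.pos (nat_lit 0) (nat_lit 110514882)) (xR T1.l12 (xR T1.l10 (xR T1.l10 (xk (xR T1.l10 T1.l10) T1.l10))))
  (TrL.c (I.pos (nat_lit 0) (nat_lit 0)) (xk (xb T1.l16 T1.l16) (xb T1.l16 T1.l16))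
  (TrL.c (I.pos (nat_lit 0) (nat_lit 0)) T3.l11
  (TrL.c (I.mix (nat_lit 8088324) (nat_lit 110514882)) (xR T1.l12 (xR T1.l12 (xR T1.l12 T1.l12)))
  (TrL.c (I.mix (nat_lit 8088324) (nat_lit 89478486)) (xR T3.l12 (xR T3.l12 (xR T3.l12 T3.l12)))
  TrL.n)))))))) (by decide +kernel)
theorem bx5_4 : BoxOK sI cl13 cl5 cl4 t3 t1 b5_4 :=
  box_mk (TrL.c (I.pos (nat_lit 0) (nat_lit 0)) (xb T3.l17 T3.l17)
  (TrL.c (I.pos (nat_lit 0) (nat_lit 0)) T1.l9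
  (TrL.c (I.pos (nat_lit 0) (nat_lit 134217730)) (xR T3.l4 (xR T3.l10 (xR T3.l10 T3.l10)))
  (TrL.c (I.pos (nat_lit 0) (nat_lit 110514882)) (xR T1.l1 (xR T1.l10 (xR T1.l10 T1.l15)))
  (TrL.c (I.pos (nat_lit 0) (nat_lit 0)) T1.l17
  (TrL.c (I.pos (nat_lit 0) (nat_lit 0)) T3.l11
  (TrL.c (I.mix (nat_lit 8088324) (nat_lit 110514882)) (xR (xR T1.l12 T1.l12) T1.l12)
  (TrL.c (I.mix (nat_lit 8088324) (nat_lit 89478486)) T3.l7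
  TrL.n)))))))) (by decide +kernel)
theorem bx5_5 : BoxOK sI cl13 cl5 cl4 t3 t1 b5_5 :=
  box_mk (TrL.c (I.pos (nat_lit 0) (nat_lit 0)) (xa T3.l13 T3.l16)
  (TrL.c (I.pos (nat_lit 0) (nat_lit 0)) T1.l9
  (TrL.c (I.pos (nat_lit 0) (nat_lit 134217730)) (xR T3.l4 (xR T3.l10 T3.l10))
  (TrL.c (I.pos (nat_lit 0) (nat_lit 110514882)) (xR T1.l3 (xR T1.l10 T1.l10))
  (TrL.c (I.pos (nat_lit 0) (nat_lit 0)) T1.l18
  (TrL.c (I.pos (nat_lit 0) (nat_lit 0)) T3.l11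
  (TrL.c (I.mix (nat_lit 8088324) (nat_lit 110514882)) (xR T1.l12 T1.l12)
  (TrL.c (I.mix (nat_lit 8088324) (nat_lit 89478486)) T3.l4
  TrL.n)))))))) (by decide +kernel)
theorem bx5_6 : BoxOK sI cl13 cl5 cl4 t3 t1 b5_6 :=
  box_mk (TrL.c (I.pos (nat_lit 0) (nat_lit 0)) T1.l14
  (TrL.c (I.pos (nat_lit 0) (nat_lit 0)) T3.l14
  (TrL.c (I.mix (nat_lit 8088324) (nat_lit 110514882)) (xR T1.l15 T1.l10)
  (TrL.c (I.mix (nat_lit 8088324) (nat_lit 89478486)) T3.l7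
  TrL.n)))) (by decide +kernel)
theorem bx5_7 : BoxOK sI cl13 cl5 cl4 t3 t1 b5_7 :=
  box_mk (TrL.c (I.pos (nat_lit 0) (nat_lit 0)) (xa T3.l13 T3.l16)
  (TrL.c (I.pos (nat_lit 0) (nat_lit 0)) T1.l9
  (TrL.c (I.pos (nat_lit 0) (nat_lit 134217730)) (xR T3.l4 (xR T3.l10 T3.l10))
  (TrL.c (I.pos (nat_lit 0) (nat_lit 110514882)) (xR T1.l12 (xR T1.l10 T1.l10))
  (TrL.c (I.pos (nat_lit 0) (nat_lit 0)) T1.l16
  (TrL.c (I.pos (nat_lit 0) (nat_lit 0)) T3.l11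
  (TrL.c (I.mix (nat_lit 8088324) (nat_lit 110514882)) (xR T1.l12 T1.l12)
  (TrL.c (I.mix (nat_lit 8088324) (nat_lit 89478486)) (xR T3.l12 T3.l2)
  TrL.n)))))))) (by decide +kernel)
theorem bx5_8 : BoxOK sI cl13 cl5 cl4 t3 t1 b5_8 :=
  box_mk (TrL.c (I.pos (nat_lit 0) (nat_lit 0)) (xa (xb (xb T3.l16 T3.l16) T3.l16) (xb T3.l0 T3.l0))
  (TrL.c (I.pos (nat_lit 0) (nat_lit 0)) (xk T1.l9 T1.l9)
  (TrL.c (I.pos (nat_lit 0) (nat_lit 134217730)) (xR (xR T3.l4 T3.l4) (xR T3.l10 T3.l10))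
  (TrL.c (I.pos (nat_lit 0) (nat_lit 110514882)) (xR T1.l12 (xR T1.l10 T1.l10))
  (TrL.c (I.pos (nat_lit 0) (nat_lit 0)) (xk T1.l16 T1.l16)
  (TrL.c (I.pos (nat_lit 0) (nat_lit 0)) T3.l11
  (TrL.c (I.mix (nat_lit 8088324) (nat_lit 110514882)) (xR T1.l12 (xR T1.l12 (xR T1.l12 T1.l12)))
  (TrL.c (I.mix (nat_lit 8088324) (nat_lit 89478486)) (xR T3.l12 T3.l2)
  TrL.n)))))))) (by decide +kernel)
theorem bx5_9 : BoxOK sI cl13 cl5 cl4 t3 t1 b5_9 :=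
  box_mk (TrL.c (I.pos (nat_lit 0) (nat_lit 0)) (xa (xb (xa (xb T3.l16 T3.l16) (xb T3.l16 T3.l16)) (xa (xb T3.l16 (xs T3.l16 T3.l16)) (xb T3.l16 (xs T3.l16 T3.l16)))) (xb (xa (xb T3.l16 T3.l16) (xb T3.l16 T3.l16)) (xa (xb T3.l16 (xs T3.l16 T3.l16)) (xb T3.l16 (xs T3.l16 T3.l16)))))
  (TrL.c (I.pos (nat_lit 0) (nat_lit 0)) (xk (xa T1.l9 (xb T1.l9 T1.l9)) (xa T1.l9 T1.l9))
  (TrL.c (I.pos (nat_lit 0) (nat_lit 134217730)) (xR (xR T3.l4 T3.l4) (xR T3.l10 (xR T3.l10 (xR T3.l10 T3.l10))))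
  (TrL.c (I.pos (nat_lit 0) (nat_lit 110514882)) (xR T1.l12 (xR T1.l10 (xR T1.l10 (xk T1.l10 T1.l10))))
  (TrL.c (I.pos (nat_lit 0) (nat_lit 0)) (xk T1.l16 T1.l16)
  (TrL.c (I.pos (nat_lit 0) (nat_lit 0)) T3.l11
  (TrL.c (I.mix (nat_lit 8088324) (nat_lit 110514882)) (xR T1.l12 (xR T1.l12 (xR T1.l12 T1.l12)))
  (TrL.c (I.mix (nat_lit 8088324) (nat_lit 89478486)) (xR T3.l12 T3.l2)
  TrL.n)))))))) (by decide +kernel)
theorem bx5_10 : BoxOK sI cl13 cl5 cl4 t3 t1 b5_10 :=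
  box_mk (TrL.c (I.pos (nat_lit 0) (nat_lit 0)) (xa (xb T3.l18 (xa T3.l18 T3.l18)) (xb (xb T3.l18 T3.l18) (xa T3.l18 T3.l18)))
  (TrL.c (I.pos (nat_lit 0) (nat_lit 0)) (xa T1.l9 T1.l9)
  (TrL.c (I.pos (nat_lit 0) (nat_lit 134217730)) (xR T3.l4 (xR T3.l10 T3.l10))
  (TrL.c (I.pos (nat_lit 0) (nat_lit 110514882)) (xR T1.l3 (xR T1.l10 T1.l10))
  (TrL.c (I.pos (nat_lit 0) (nat_lit 0)) (xb T1.l19 T1.l19)
  (TrL.c (I.pos (nat_lit 0) (nat_lit 0)) T3.l11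
  (TrL.c (I.mix (nat_lit 8088324) (nat_lit 110514882)) (xR (xR T1.l12 T1.l12) T1.l12)
  (TrL.c (I.mix (nat_lit 8088324) (nat_lit 89478486)) T3.l7
  TrL.n)))))))) (by decide +kernel)
theorem bx5_11 : BoxOK sI cl13 cl5 cl4 t3 t1 b5_11 :=
  box_mk (TrL.c (I.pos (nat_lit 0) (nat_lit 0)) (xb (xa (xb T3.l19 T3.l19) (xb T3.l13 T3.l13)) (xa (xb T3.l19 T3.l19) (xb T3.l19 (xa T3.l19 T3.l19))))
  (TrL.c (I.pos (nat_lit 0) (nat_lit 0)) (xb (xk T1.l9 T1.l9) T1.l9)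
  (TrL.c (I.pos (nat_lit 0) (nat_lit 134217730)) (xR T3.l4 (xR T3.l10 (xR T3.l10 (xb T3.l10 T3.l10))))
  (TrL.c (I.pos (nat_lit 0) (nat_lit 110514882)) (xR T1.l12 (xR T1.l12 (xR T1.l10 T1.l10)))
  (TrL.c (I.pos (nat_lit 0) (nat_lit 0)) (xb (xk (xa T1.l20 T1.l13) (xa T1.l20 T1.l13)) (xk T1.l20 T1.l20))
  (TrL.c (I.pos (nat_lit 0) (nat_lit 0)) T3.l11
  (TrL.c (I.mix (nat_lit 8088324) (nat_lit 110514882)) (xR T1.l12 (xR T1.l12 (xR T1.l12 T1.l12)))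
  (TrL.c (I.mix (nat_lit 8088324) (nat_lit 89478486)) T3.l4
  TrL.n)))))))) (by decide +kernel)
theorem bx5_12 : BoxOK sI cl13 cl5 cl4 t3 t1 b5_12 :=
  box_mk (TrL.c (I.pos (nat_lit 0) (nat_lit 0)) (xa T1.l9 T1.l9)
  (TrL.c (I.pos (nat_lit 0) (nat_lit 0)) T3.l10
  (TrL.c (I.mix (nat_lit 8088324) (nat_lit 110514882)) (xR (xR T1.l15 T1.l15) (xR T1.l15 T1.l10))
  (TrL.c (I.mix (nat_lit 8088324) (nat_lit 89478486)) (xR T3.l7 T3.l4)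
  TrL.n)))) (by decide +kernel)
theorem bx5_13 : BoxOK sI cl13 cl5 cl4 t3 t1 b5_13 :=
  box_mk (TrL.c (I.pos (nat_lit 0) (nat_lit 0)) (xa (xb T3.l0 T3.l0) (xb T3.l0 (xa T3.l0 T3.l0)))
  (TrL.c (I.pos (nat_lit 0) (nat_lit 0)) (xk (xa T1.l9 (xb T1.l9 T1.l9)) (xa T1.l9 (xb T1.l9 T1.l9)))
  (TrL.c (I.pos (nat_lit 0) (nat_lit 134217730)) (xR (xR T3.l4 T3.l4) (xR T3.l4 (xR T3.l10 T3.l4)))
  (TrL.c (I.pos (nat_lit 0) (nat_lit 110514882)) (xR (xR T1.l3 T1.l12) (xR (xR T1.l10 T1.l10) (xR T1.l10 T1.l10)))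
  (TrL.c (I.pos (nat_lit 0) (nat_lit 0)) (xk (xa T1.l11 (xb (xa T1.l11 T1.l11) T1.l11)) (xa T1.l11 (xb (xa T1.l11 T1.l11) T1.l11)))
  (TrL.c (I.pos (nat_lit 0) (nat_lit 0)) (xk T3.l11 (xa T3.l11 T3.l11))
  (TrL.c (I.mix (nat_lit 8088324) (nat_lit 110514882)) (xR T1.l12 (xR T1.l12 (xR T1.l12 (xR T1.l12 T1.l12))))
  (TrL.c (I.mix (nat_lit 8088324) (nat_lit 89478486)) (xR T3.l12 T3.l2)
  TrL.n)))))))) (by decide +kernel)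
theorem bx5_14 : BoxOK sI cl13 cl5 cl4 t3 t1 b5_14 :=
  box_mk (TrL.c (I.pos (nat_lit 0) (nat_lit 0)) (xa (xb (xa (xs T3.l16 (xb T3.l0 T3.l16)) (xs (xb T3.l0 T3.l0) (xb T3.l0 T3.l0))) (xa (xs (xb T3.l0 T3.l16) (xb (xk T3.l0 T3.l0) (xk T3.l16 T3.l16))) (xs (xb T3.l0 T3.l16) (xb (xk T3.l0 T3.l0) (xk T3.l0 T3.l0))))) (xb (xa (xs (xb T3.l0 T3.l0) (xb T3.l0 T3.l0)) (xs T3.l0 (xb T3.l0 T3.l0))) (xs (xa (xb T3.l0 (xk T3.l0 T3.l0)) (xb T3.l0 (xk T3.l0 T3.l0))) (xa (xb (xk T3.l0 T3.l0) (xk T3.l0 T3.l0)) (xb (xk T3.l0 T3.l0) (xk T3.l0 T3.l0))))))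
  (TrL.c (I.pos (nat_lit 0) (nat_lit 0)) (xk (xa (xb T1.l9 T1.l9) (xb T1.l9 T1.l9)) (xa T1.l9 T1.l9))
  (TrL.c (I.pos (nat_lit 0) (nat_lit 134217730)) (xR (xR T3.l4 T3.l4) (xR T3.l10 (xR T3.l10 (xR T3.l10 T3.l4))))
  (TrL.c (I.pos (nat_lit 0) (nat_lit 110514882)) (xR T1.l12 (xR T1.l10 (xR T1.l10 (xk (xR T1.l10 T1.l10) T1.l10))))
  (TrL.c (I.pos (nat_lit 0) (nat_lit 0)) (xk (xa T1.l11 T1.l11) T1.l11)
  (TrL.c (I.pos (nat_lit 0) (nat_lit 0)) T3.l11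
  (TrL.c (I.mix (nat_lit 8088324) (nat_lit 110514882)) (xR T1.l12 (xR T1.l12 T1.l12))
  (TrL.c (I.mix (nat_lit 8088324) (nat_lit 89478486)) (xR T3.l12 (xR T3.l12 T3.l12))
  TrL.n)))))))) (by decide +kernel)
theorem c5_15_0 : chkTag sI cl13 cl5 cl4 t3 b5_15 (tg true true false RT.r2) (I.pos (nat_lit 0) (nat_lit 0))
  (xa (xb (xa (xb (xa T3.l0 T3.l0) (xa T3.l0 T3.l0)) (xb (xa T3.l0 T3.l0) (xa T3.l0 T3.l0))) (xa (xb (xa (xs T3.l0 T3.l0) (xs T3.l0 T3.l0)) (xa (xs T3.l0 (xc T3.l0 T3.l0)) (xs T3.l0 (xc T3.l0 T3.l0)))) (xb (xa (xs T3.l0 T3.l0) (xs T3.l0 T3.l0)) (xa (xs T3.l0 (xc T3.l0 T3.l0)) (xs T3.l0 (xk T3.l0 T3.l0)))))) (xb (xa (xb (xa T3.l0 T3.l0) (xa T3.l0 T3.l0)) (xb (xa T3.l0 T3.l0) (xa T3.l0 T3.l0))) (xa (xb (xa (xs T3.l0 T3.l0) (xs T3.l0 T3.l0)) (xs (xa T3.l0 T3.l0) (xa (xk T3.l0 T3.l0) T3.l0))) (xb (xa (xs T3.l0 T3.l0) (xs T3.l0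 T3.l0)) (xs (xa T3.l0 T3.l0) (xa T3.l0 T3.l0)))))) = true := by decide +kernel
theorem c5_15_1 : chkTag sI cl13 cl5 cl4 t1 b5_15 (tg true false false RT.r3) (I.pos (nat_lit 0) (nat_lit 0))
  (xa (xk (xb T1.l9 (xa T1.l9 T1.l9)) (xb T1.l9 (xa T1.l9 T1.l9))) (xk (xb (xa T1.l9 T1.l2) (xa T1.l9 (xk T1.l9 T1.l9))) (xb (xa T1.l9 T1.l2) (xa T1.l9 (xk T1.l9 T1.l2))))) = true := by decide +kernel
theorem c5_15_2 : chkTag sI cl13 cl5 cl4 t3 b5_15 (Tag.mk true true false RT.tl RT.r4) (I.pos (nat_lit 0) (nat_lit 134217730))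
  (xR (xR T3.l4 T3.l4) (xR T3.l4 (xR T3.l4 T3.l4))) = true := by decide +kernel
theorem c5_15_3 : chkTag sI cl13 cl5 cl4 t1 b5_15 (Tag.mk true false false RT.tl RT.r5) (I.pos (nat_lit 0) (nat_lit 110514882))
  (xR (xR T1.l3 (xR T1.l3 T1.l3)) (xR (xR T1.l10 T1.l10) (xR T1.l10 (xa T1.l10 (xR T1.l10 T1.l10))))) = true := by decide +kernel
theorem c5_15_4 : chkTag sI cl13 cl5 cl4 t1 b5_15 (tg false false false RT.r3) (I.pos (nat_lit 0) (nat_lit 0))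
  (xa (xk (xb (xa T1.l11 T1.l11) T1.l11) (xb (xa T1.l11 T1.l11) T1.l11)) (xk (xb (xa (xb T1.l11 T1.l11) (xk T1.l11 T1.l11)) (xa T1.l11 (xk T1.l11 T1.l11))) (xb (xa T1.l11 (xk T1.l11 T1.l11)) (xa T1.l11 (xk T1.l11 T1.l11))))) = true := by decide +kernel
theorem c5_15_5 : chkTag sI cl13 cl5 cl4 t3 b5_15 (tg false true false RT.r4) (I.pos (nat_lit 0) (nat_lit 0))
  (xk (xa T3.l11 (xb T3.l11 T3.l11)) (xa T3.l11 (xb T3.l11 T3.l11))) = true := by decide +kernel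
theorem c5_15_6 : chkTag sI cl13 cl5 cl4 t1 b5_15 (Tag.mk false false false RT.tl RT.r5) (I.mix (nat_lit 8088324) (nat_lit 110514882))
  (xR T1.l12 (xR T1.l12 (xR T1.l12 (xk (xR T1.l12 (xa T1.l12 T1.l12)) T1.l12)))) = true := by decide +kernel
theorem c5_15_7 : chkTag sI cl13 cl5 cl4 t3 b5_15 (Tag.mk false true false RT.tl RT.r6) (I.mix (nat_lit 8088324) (nat_lit 89478486))
  (xR T3.l12 (xR T3.l12 (xR T3.l12 T3.l12))) = true := by decide +kernel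
theorem bx5_15 : BoxOK sI cl13 cl5 cl4 t3 t1 b5_15 :=
  box_mk' [(tg true true false RT.r2), (tg true false false RT.r3), (Tag.mk true true false RT.tl RT.r4), (Tag.mk true false false RT.tl RT.r5), (tg false false false RT.r3), (tg false true false RT.r4), (Tag.mk false false false RT.tl RT.r5), (Tag.mk false true false RT.tl RT.r6)] rfl (allL_c (ex_mk c5_15_0) (allL_c (ex_mk c5_15_1) (allL_c (ex_mk c5_15_2) (allL_c (ex_mk c5_15_3) (allL_c (ex_mk c5_15_4) (allL_c (ex_mk c5_15_5) (allL_c (ex_mk c5_15_6) (allL_c (ex_mk c5_15_7) allL_n))))))))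
theorem bx5_16 : BoxOK sI cl13 cl5 cl4 t3 t1 b5_16 :=
  box_mk (TrL.c (I.pos (nat_lit 0) (nat_lit 0)) T3.l0
  (TrL.c (I.pos (nat_lit 0) (nat_lit 0)) (xk T1.l9 T1.l2)
  (TrL.c (I.pos (nat_lit 0) (nat_lit 134217730)) (xR (xR T3.l4 T3.l4) (xR T3.l4 T3.l10))
  (TrL.c (I.pos (nat_lit 0) (nat_lit 110514882)) (xR (xR T1.l3 T1.l12) (xR (xR T1.l10 T1.l10) T1.l10))
  (TrL.c (I.pos (nat_lit 0) (nat_lit 0)) (xk T1.l0 T1.l0)
  (TrL.c (I.pos (nat_lit 0) (nat_lit 0)) T3.l11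
  (TrL.c (I.mix (nat_lit 8088324) (nat_lit 110514882)) (xR T1.l12 (xR T1.l12 (xR T1.l12 T1.l12)))
  (TrL.c (I.mix (nat_lit 8088324) (nat_lit 89478486)) (xR T3.l12 T3.l2)
  TrL.n)))))))) (by decide +kernel)
theorem bx5_17 : BoxOK sI cl13 cl5 cl4 t3 t1 b5_17 :=
  box_mk (TrL.c (I.pos (nat_lit 0) (nat_lit 0)) (xa T3.l0 T3.l0)
  (TrL.c (I.pos (nat_lit 0) (nat_lit 0)) (xk (xa T1.l9 T1.l9) (xa T1.l9 T1.l9))
  (TrL.c (I.pos (nat_lit 0) (nat_lit 134217730)) (xR (xR T3.l4 T3.l4) (xR T3.l4 (xR T3.l10 T3.l4)))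
  (TrL.c (I.pos (nat_lit 0) (nat_lit 110514882)) (xR (xR T1.l3 T1.l12) (xR (xR T1.l10 T1.l10) (xR T1.l10 (xR T1.l10 T1.l10))))
  (TrL.c (I.pos (nat_lit 0) (nat_lit 0)) (xa T1.l11 T1.l11)
  (TrL.c (I.pos (nat_lit 0) (nat_lit 0)) T3.l11
  (TrL.c (I.mix (nat_lit 8088324) (nat_lit 110514882)) (xR T1.l12 (xR T1.l12 T1.l12))
  (TrL.c (I.mix (nat_lit 8088324) (nat_lit 89478486)) (xR T3.l12 T3.l12)
  TrL.n)))))))) (by decide +kernel)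
theorem bx5_18 : BoxOK sI cl13 cl5 cl4 t3 t1 b5_18 :=
  box_mk (TrL.c (I.pos (nat_lit 0) (nat_lit 0)) (xa T3.l0 T3.l0)
  (TrL.c (I.pos (nat_lit 0) (nat_lit 0)) (xk T1.l9 T1.l9)
  (TrL.c (I.pos (nat_lit 0) (nat_lit 134217730)) (xR (xR T3.l4 T3.l4) (xR T3.l10 (xR T3.l10 T3.l10)))
  (TrL.c (I.pos (nat_lit 0) (nat_lit 110514882)) (xR (xR T1.l3 T1.l3) (xR T1.l10 T1.l10))
  (TrL.c (I.pos (nat_lit 0) (nat_lit 0)) T1.l11
  (TrL.c (I.pos (nat_lit 0) (nat_lit 0)) T3.l11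
  (TrL.c (I.mix (nat_lit 8088324) (nat_lit 110514882)) (xR T1.l12 T1.l12)
  (TrL.c (I.mix (nat_lit 8088324) (nat_lit 89478486)) (xR T3.l12 T3.l12)
  TrL.n)))))))) (by decide +kernel)
theorem bx5_19 : BoxOK sI cl13 cl5 cl4 t3 t1 b5_19 :=
  box_mk (TrL.c (I.pos (nat_lit 0) (nat_lit 0)) T3.l0
  (TrL.c (I.pos (nat_lit 0) (nat_lit 0)) (xk T1.l9 (xb T1.l9 T1.l9))
  (TrL.c (I.pos (nat_lit 0) (nat_lit 134217730)) (xR (xR T3.l4 T3.l4) (xR T3.l4 T3.l10))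
  (TrL.c (I.pos (nat_lit 0) (nat_lit 110514882)) (xR (xR T1.l3 T1.l12) (xR (xR T1.l10 T1.l10) T1.l10))
  (TrL.c (I.pos (nat_lit 0) (nat_lit 0)) (xk (xb T1.l0 T1.l11) (xb T1.l0 T1.l11))
  (TrL.c (I.pos (nat_lit 0) (nat_lit 0)) (xk T3.l11 T3.l11)
  (TrL.c (I.mix (nat_lit 8088324) (nat_lit 110514882)) (xR T1.l12 (xR T1.l12 (xR T1.l12 (xR T1.l12 T1.l12))))
  (TrL.c (I.mix (nat_lit 8088324) (nat_lit 89478486)) (xR T3.l12 T3.l2)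
  TrL.n)))))))) (by decide +kernel)
theorem bx5_20 : BoxOK sI cl13 cl5 cl4 t3 t1 b5_20 :=
  box_mk (TrL.c (I.pos (nat_lit 0) (nat_lit 0)) (xa T3.l0 T3.l0)
  (TrL.c (I.pos (nat_lit 0) (nat_lit 0)) (xk T1.l9 T1.l9)
  (TrL.c (I.pos (nat_lit 0) (nat_lit 134217730)) (xR (xR T3.l4 T3.l4) (xR T3.l10 T3.l10))
  (TrL.c (I.pos (nat_lit 0) (nat_lit 110514882)) (xR T1.l12 (xR T1.l10 T1.l10))
  (TrL.c (I.pos (nat_lit 0) (nat_lit 0)) T1.l11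
  (TrL.c (I.pos (nat_lit 0) (nat_lit 0)) T3.l11
  (TrL.c (I.mix (nat_lit 8088324) (nat_lit 110514882)) (xR T1.l12 T1.l12)
  (TrL.c (I.mix (nat_lit 8088324) (nat_lit 89478486)) (xR T3.l12 T3.l12)
  TrL.n)))))))) (by decide +kernel)
theorem sv5 : StarV sI cl13 cl5 cl4 t3 t1 t5 :=
  (bt_n (bt_n (bt_n (bt_n (bt_b bx5_0) (bt_b bx5_1)) (bt_n (bt_b bx5_2) (bt_n (bt_b bx5_3) (bt_b bx5_4)))) (bt_n (bt_n (bt_b bx5_5) (bt_b bx5_6)) (bt_n (bt_b bx5_7) (bt_n (bt_b bx5_8) (bt_b bx5_9))))) (bt_n (bt_n (bt_n (bt_b bx5_10) (bt_b bx5_11)) (bt_n (bt_b bx5_12) (bt_n (bt_b bx5_13) (bt_b bx5_14)))) (bt_n (bt_n (bt_b bx5_15) (bt_n (bt_b bx5_16) (bt_b bx5_17))) (bt_n (bt_b bx5_18) (bt_n (bt_b bx5_19) (bt_b bx5_20))))))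
def S5 : StarD := StarD.mk cl13 cl5 cl4 3 1 t5
def G : List StarD := [S0, S1, S2, S3, S4, S5]
theorem so0 : StarOK sI G S0 :=
  star_mk (by decide) (by decide) rfl rfl rfl rfl rfl rfl (rfl : _ = t2) (rfl : _ = t4)
  (st_mk (Pth.l (Pth.l (Pth.l (Pth.l Pth.z)))) (nat_lit 252300365) (nat_lit 254989363) (by decide +kernel))
  (st_mk (Pth.l (Pth.l (Pth.l (Pth.l Pth.z)))) (nat_lit 291930986) (nat_lit 295614161) (by decide +kernel))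
  (st_mk (Pth.l (Pth.l (Pth.l (Pth.l Pth.z)))) (nat_lit 338664684) (nat_lit 343763231) (by decide +kernel)) sv0
theorem so1 : StarOK sI G S1 :=
  star_mk (by decide) (by decide) rfl rfl rfl rfl rfl rfl (rfl : _ = t4) (rfl : _ = t2)
  (st_mk (Pth.l (Pth.l (Pth.l (Pth.l Pth.z)))) (nat_lit 99455771) (nat_lit 119380231) (by decide +kernel))
  (st_mk (Pth.l (Pth.l (Pth.l (Pth.l Pth.z)))) (nat_lit 137638548) (nat_lit 158520827) (by decide +kernel))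
  (st_mk (Pth.l (Pth.l (Pth.l (Pth.l Pth.z)))) (nat_lit 181321806) (nat_lit 207340732) (by decide +kernel)) sv1
theorem so2 : StarOK sI G S2 :=
  star_mk (by decide) (by decide) rfl rfl rfl rfl rfl rfl (rfl : _ = t0) (rfl : _ = t5)
  (st_mk (Pth.l (Pth.l (Pth.l (Pth.l Pth.z)))) (nat_lit 381968794) (nat_lit 385127825) (by decide +kernel))
  (st_mk (Pth.l (Pth.l (Pth.l (Pth.l Pth.z)))) (nat_lit 420442177) (nat_lit 424311965) (by decide +kernel))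
  (st_mk (Pth.l (Pth.l (Pth.l (Pth.l Pth.z)))) (nat_lit 465312220) (nat_lit 470115308) (by decide +kernel)) sv2
theorem so3 : StarOK sI G S3 :=
  star_mk (by decide) (by decide) rfl rfl rfl rfl rfl rfl (rfl : _ = t5) (rfl : _ = t0)
  (st_mk (Pth.l (Pth.l (Pth.l (Pth.l Pth.z)))) (nat_lit 98277256) (nat_lit 117574708) (by decide +kernel))
  (st_mk (Pth.l (Pth.l (Pth.l (Pth.l Pth.z)))) (nat_lit 135346253) (nat_lit 155253586) (by decide +kernel))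
  (st_mk (Pth.l (Pth.l (Pth.l (Pth.l Pth.z)))) (nat_lit 179052446) (nat_lit 199806198) (by decide +kernel)) sv3
theorem so4 : StarOK sI G S4 :=
  star_mk (by decide) (by decide) rfl rfl rfl rfl rfl rfl (rfl : _ = t1) (rfl : _ = t3)
  (st_mk (Pth.l (Pth.l (Pth.l (Pth.l Pth.z)))) (nat_lit 364798899) (nat_lit 368600208) (by decide +kernel))
  (st_mk (Pth.l (Pth.l (Pth.l (Pth.l Pth.z)))) (nat_lit 399695508) (nat_lit 404155944) (by decide +kernel))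
  (st_mk (Pth.l (Pth.l (Pth.l (Pth.l Pth.z)))) (nat_lit 439960827) (nat_lit 445258863) (by decide +kernel)) sv4
theorem so5 : StarOK sI G S5 :=
  star_mk (by decide) (by decide) rfl rfl rfl rfl rfl rfl (rfl : _ = t3) (rfl : _ = t1)
  (st_mk (Pth.l (Pth.l (Pth.l (Pth.l Pth.z)))) (nat_lit 238062708) (nat_lit 240424281) (by decide +kernel))
  (st_mk (Pth.l (Pth.l (Pth.l (Pth.l Pth.z)))) (nat_lit 272959317) (nat_lit 275898156) (by decide +kernel))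
  (st_mk (Pth.l (Pth.l (Pth.l (Pth.l Pth.z)))) (nat_lit 313224636) (nat_lit 316930229) (by decide +kernel)) sv5
theorem ok : GroupOK (nat_lit 209321984) (nat_lit 268435456) G := grp_mk (allS_c so0 (allS_c so1 (allS_c so2 (allS_c so3 (allS_c so4 (allS_c so5 allS_n))))))
theorem cov : GCov G cl4 cl5 cl13 := cov_mk
  ⟨0, by decide, rfl, rfl, rfl⟩ ⟨1, by decide, rfl, rfl, rfl⟩ ⟨2, by decide, rfl, rfl, rfl⟩ ⟨3, by decide, rfl, rfl, rfl⟩ ⟨4, by decide, rfl, rfl, rfl⟩ ⟨5, by decide, rfl, rfl, rfl⟩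
end Q126_3

namespace Q133_0
def sI : I := I.pos (nat_lit 0) (nat_lit 91291648)
def b0_0 : Bx := Bx.mk (St.mk (I.pos (nat_lit 154533888) (nat_lit 266682368)) (I.mix (nat_lit 40697856) (nat_lit 69468160)) (I.mix (nat_lit 146980864) (nat_lit 84443136)) (I.pos (nat_lit 180879360) (nat_lit 373866496)) (I.mix (nat_lit 105545728) (nat_lit 76693504)) (I.mix (nat_lit 93569024) (nat_lit 83918848)) (I.mix (nat_lit 161202176) (nat_lit 183140352)))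
  false (nat_lit 0)
def b0_1 : Bx := Bx.mk (St.mk (I.mix (nat_lit 30982144) (nat_lit 99303424)) (I.mix (nat_lit 14499840) (nat_lit 43286528)) (I.mix (nat_lit 31145984) (nat_lit 6012928)) (I.pos (nat_lit 82771968) (nat_lit 126042112)) (I.mix (nat_lit 35291136) (nat_lit 42795008)) (I.mix (nat_lit 42205184) (nat_lit 32260096)) (I.mix (nat_lit 29327360) (nat_lit 19988480)))
  false (nat_lit 0)
def b0_2 : Bx := Bx.mk (St.mk (I.pos (nat_lit 80134144) (nat_lit 124272640)) (I.mix (nat_lit 64782336) (nat_lit 18169856)) (I.neg (nat_lit 9060352) (nat_lit 68861952)) (I.pos (nat_lit 114262016) (nat_lit 149929984)) (I.mix (nat_lit 97828864) (nat_lit 33947648)) (I.mix (nat_lit 58392576) (nat_lit 96960512)) (I.mix (nat_lit 42680320) (nat_lit 71450624)))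
  false (nat_lit 0)
def b0_3 : Bx := Bx.mk (St.mk (I.mix (nat_lit 48889856) (nat_lit 26607616)) (I.mix (nat_lit 38469632) (nat_lit 13238272)) (I.neg (nat_lit 3964928) (nat_lit 21282816)) (I.pos (nat_lit 82903040) (nat_lit 100777984)) (I.mix (nat_lit 36470784) (nat_lit 24346624)) (I.mix (nat_lit 25837568) (nat_lit 33046528)) (I.mix (nat_lit 13238272) (nat_lit 10027008)))
  false (nat_lit 0)
def b0_4 : Bx := Bx.mk (St.mk (I.pos (nat_lit 75497472) (nat_lit 93192192)) (I.mix (nat_lit 15499264) (nat_lit 13484032)) (I.neg (nat_lit 11468800) (nat_lit 31391744)) (I.pos (nat_lit 111689728) (nat_lit 124420096)) (I.mix (nat_lit 27623424) (nat_lit 19120128)) (I.mix (nat_lit 19218432) (nat_lit 19005440)) (I.mix (nat_lit 13385728) (nat_lit 15122432)))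
  false (nat_lit 0)
def b0_5 : Bx := Bx.mk (St.mk (I.mix (nat_lit 58949632) (nat_lit 6553600)) (I.mix (nat_lit 11730944) (nat_lit 16007168)) (I.neg (nat_lit 11878400) (nat_lit 23511040)) (I.pos (nat_lit 88227840) (nat_lit 103858176)) (I.mix (nat_lit 23494656) (nat_lit 19611648)) (I.mix (nat_lit 20594688) (nat_lit 23347200)) (I.mix (nat_lit 9568256) (nat_lit 8699904)))
  false (nat_lit 0)
def b0_6 : Bx := Bx.mk (St.mk (I.pos (nat_lit 83066880) (nat_lit 163561472)) (I.mix (nat_lit 72056832) (nat_lit 2605056)) (I.neg (nat_lit 14139392) (nat_lit 77070336)) (I.pos (nat_lit 122503168) (nat_lit 193298432)) (I.mix (nat_lit 99696640) (nat_lit 54231040)) (I.mix (nat_lit 49709056) (nat_lit 82083840)) (I.mix (nat_lit 37961728) (nat_lit 77070336)))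
  false (nat_lit 0)
def b0_7 : Bx := Bx.mk (St.mk (I.mix (nat_lit 36831232) (nat_lit 50577408)) (I.mix (nat_lit 36978688) (nat_lit 8650752)) (I.neg (nat_lit 6406144) (nat_lit 23199744)) (I.pos (nat_lit 81674240) (nat_lit 101646336)) (I.mix (nat_lit 37470208) (nat_lit 32735232)) (I.mix (nat_lit 27049984) (nat_lit 40812544)) (I.mix (nat_lit 13778944) (nat_lit 16154624)))
  false (nat_lit 0)
def b0_8 : Bx := Bx.mk (St.mk (I.mix (nat_lit 54198272) (nat_lit 72040448)) (I.mix (nat_lit 11370496) (nat_lit 36945920)) (I.mix (nat_lit 23085056) (nat_lit 671744)) (I.pos (nat_lit 81870848) (nat_lit 108838912)) (I.mix (nat_lit 36421632) (nat_lit 37552128)) (I.mix (nat_lit 43220992) (nat_lit 27033600)) (I.mix (nat_lit 16072704) (nat_lit 16121856)))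
  false (nat_lit 0)
def b0_9 : Bx := Bx.mk (St.mk (I.pos (nat_lit 131399680) (nat_lit 217595904)) (I.mix (nat_lit 43253760) (nat_lit 75251712)) (I.mix (nat_lit 56180736) (nat_lit 81428480)) (I.pos (nat_lit 156811264) (nat_lit 269352960)) (I.mix (nat_lit 136413184) (nat_lit 55230464)) (I.mix (nat_lit 155287552) (nat_lit 97779712)) (I.mix (nat_lit 155336704) (nat_lit 98713600)))
  false (nat_lit 0)
def t0 : BTr := (BTr.n (BTr.n (BTr.n (BTr.b b0_0) (BTr.b b0_1)) (BTr.n (BTr.b b0_2) (BTr.n (BTr.b b0_3) (BTr.b b0_4)))) (BTr.n (BTr.n (BTr.b b0_5) (BTr.b b0_6)) (BTr.n (BTr.b b0_7) (BTr.n (BTr.b b0_8) (BTr.b b0_9)))))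
namespace T0
def l0 : Tr := Tr.L (Pth.l (Pth.l (Pth.l Pth.z)))
def l1 : Tr := Tr.L (Pth.l (Pth.l (Pth.r Pth.z)))
def l2 : Tr := Tr.L (Pth.l (Pth.r (Pth.l Pth.z)))
def l3 : Tr := Tr.L (Pth.l (Pth.r (Pth.r (Pth.l Pth.z))))
def l4 : Tr := Tr.L (Pth.l (Pth.r (Pth.r (Pth.r Pth.z))))
def l5 : Tr := Tr.L (Pth.r (Pth.l (Pth.l Pth.z)))
def l6 : Tr := Tr.L (Pth.r (Pth.l (Pth.r Pth.z)))
def l7 : Tr := Tr.L (Pth.r (Pth.r (Pth.l Pth.z)))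
def l8 : Tr := Tr.L (Pth.r (Pth.r (Pth.r (Pth.l Pth.z))))
def l9 : Tr := Tr.L (Pth.r (Pth.r (Pth.r (Pth.r Pth.z))))
end T0
def b1_0 : Bx := Bx.mk (St.mk (I.pos (nat_lit 139608064) (nat_lit 294076416)) (I.mix (nat_lit 50446336) (nat_lit 95928320)) (I.mix (nat_lit 203948032) (nat_lit 114180096)) (I.pos (nat_lit 358563840) (nat_lit 603127808)) (I.mix (nat_lit 130809856) (nat_lit 100073472)) (I.mix (nat_lit 118685696) (nat_lit 91897856)) (I.mix (nat_lit 184401920) (nat_lit 138657792)))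
  false (nat_lit 18829520)
def b1_1 : Bx := Bx.mk (St.mk (I.pos (nat_lit 26591232) (nat_lit 133513216)) (I.neg (nat_lit 2965504) (nat_lit 98189312)) (I.mix (nat_lit 77594624) (nat_lit 6881280)) (I.pos (nat_lit 268664832) (nat_lit 337215488)) (I.mix (nat_lit 105365504) (nat_lit 78528512)) (I.mix (nat_lit 69713920) (nat_lit 101367808)) (I.mix (nat_lit 70844416) (nat_lit 81526784)))
  false (nat_lit 0)
def b1_2 : Bx := Bx.mk (St.mk (I.mix (nat_lit 67108864) (nat_lit 21495808)) (I.mix (nat_lit 25100288) (nat_lit 97697792)) (I.neg (nat_lit 37961728) (nat_lit 61472768)) (I.pos (nat_lit 266665984) (nat_lit 294338560)) (I.mix (nat_lit 53444608) (nat_lit 92946432)) (I.mix (nat_lit 95272960) (nat_lit 74334208)) (I.mix (nat_lit 39436288) (nat_lit 31440896)))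
  true (nat_lit 0)
def b1_3 : Bx := Bx.mk (St.mk (I.pos (nat_lit 83705856) (nat_lit 193429504)) (I.mix (nat_lit 50905088) (nat_lit 102858752)) (I.mix (nat_lit 34816000) (nat_lit 108199936)) (I.pos (nat_lit 293257216) (nat_lit 421888000)) (I.mix (nat_lit 145440768) (nat_lit 66011136)) (I.mix (nat_lit 157630464) (nat_lit 106086400)) (I.mix (nat_lit 152076288) (nat_lit 131252224)))
  false (nat_lit 0)
def b1_4 : Bx := Bx.mk (St.mk (I.mix (nat_lit 21495808) (nat_lit 67108864)) (I.mix (nat_lit 97779712) (nat_lit 26574848)) (I.neg (nat_lit 37961728) (nat_lit 61472768)) (I.pos (nat_lit 266665984) (nat_lit 294338560)) (I.mix (nat_lit 92946432) (nat_lit 53444608)) (I.mix (nat_lit 74334208) (nat_lit 95272960)) (I.mix (nat_lit 39436288) (nat_lit 31440896)))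
  false (nat_lit 0)
def b1_5 : Bx := Bx.mk (St.mk (I.neg (nat_lit 26591232) (nat_lit 133513216)) (I.mix (nat_lit 4734976) (nat_lit 98058240)) (I.mix (nat_lit 77479936) (nat_lit 13369344)) (I.pos (nat_lit 268648448) (nat_lit 337444864)) (I.mix (nat_lit 78528512) (nat_lit 105365504)) (I.mix (nat_lit 101367808) (nat_lit 69713920)) (I.mix (nat_lit 70844416) (nat_lit 81526784)))
  true (nat_lit 0)
def t1 : BTr := (BTr.n (BTr.n (BTr.b b1_0) (BTr.n (BTr.b b1_1) (BTr.b b1_2))) (BTr.n (BTr.b b1_3) (BTr.n (BTr.b b1_4) (BTr.b b1_5))))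
namespace T1
def l0 : Tr := Tr.L (Pth.l (Pth.l Pth.z))
def l1 : Tr := Tr.L (Pth.l (Pth.r (Pth.l Pth.z)))
def l2 : Tr := Tr.L (Pth.l (Pth.r (Pth.r Pth.z)))
def l3 : Tr := Tr.L (Pth.r (Pth.l Pth.z))
def l4 : Tr := Tr.L (Pth.r (Pth.r (Pth.l Pth.z)))
def l5 : Tr := Tr.L (Pth.r (Pth.r (Pth.r Pth.z)))
end T1
def b2_0 : Bx := Bx.mk (St.mk (I.pos (nat_lit 153239552) (nat_lit 289652736)) (I.mix (nat_lit 36880384) (nat_lit 62341120)) (I.mix (nat_lit 61423616) (nat_lit 121274368)) (I.pos (nat_lit 175636480) (nat_lit 410976256)) (I.mix (nat_lit 110592000) (nat_lit 78151680)) (I.mix (nat_lit 109477888) (nat_lit 82673664)) (I.mix (nat_lit 171851776) (nat_lit 108953600)))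
  false (nat_lit 0)
def b2_1 : Bx := Bx.mk (St.mk (I.pos (nat_lit 96780288) (nat_lit 163201024)) (I.neg (nat_lit 999424) (nat_lit 73531392)) (I.mix (nat_lit 48955392) (nat_lit 30474240)) (I.pos (nat_lit 132661248) (nat_lit 188416000)) (I.mix (nat_lit 82624512) (nat_lit 48644096)) (I.mix (nat_lit 46284800) (nat_lit 66142208)) (I.mix (nat_lit 37863424) (nat_lit 56999936)))
  false (nat_lit 0)
def b2_2 : Bx := Bx.mk (St.mk (I.mix (nat_lit 28033024) (nat_lit 44007424)) (I.mix (nat_lit 37421056) (nat_lit 7323648)) (I.mix (nat_lit 2064384) (nat_lit 12304384)) (I.pos (nat_lit 82821120) (nat_lit 100220928)) (I.mix (nat_lit 25067520) (nat_lit 32833536)) (I.mix (nat_lit 25165824) (nat_lit 30670848)) (I.mix (nat_lit 9109504) (nat_lit 11780096)))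
  false (nat_lit 0)
def b2_3 : Bx := Bx.mk (St.mk (I.pos (nat_lit 139886592) (nat_lit 207519744)) (I.mix (nat_lit 48250880) (nat_lit 74727424)) (I.mix (nat_lit 22872064) (nat_lit 128761856)) (I.pos (nat_lit 167739392) (nat_lit 250822656)) (I.mix (nat_lit 152403968) (nat_lit 54312960)) (I.mix (nat_lit 170033152) (nat_lit 103415808)) (I.mix (nat_lit 191135744) (nat_lit 104071168)))
  false (nat_lit 0)
def b2_4 : Bx := Bx.mk (St.mk (I.mix (nat_lit 51871744) (nat_lit 73875456)) (I.mix (nat_lit 16367616) (nat_lit 40321024)) (I.mix (nat_lit 3096576) (nat_lit 26165248)) (I.pos (nat_lit 83017728) (nat_lit 109477888)) (I.mix (nat_lit 46383104) (nat_lit 25116672)) (I.mix (nat_lit 40960000) (nat_lit 32014336)) (I.mix (nat_lit 17252352) (nat_lit 14680064)))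
  false (nat_lit 0)
def b2_5 : Bx := Bx.mk (St.mk (I.mix (nat_lit 62111744) (nat_lit 52805632)) (I.mix (nat_lit 13598720) (nat_lit 15482880)) (I.pos (nat_lit 4702208) (nat_lit 15400960)) (I.pos (nat_lit 87064576) (nat_lit 103251968)) (I.mix (nat_lit 23166976) (nat_lit 17547264)) (I.mix (nat_lit 21495808) (nat_lit 19136512)) (I.mix (nat_lit 7274496) (nat_lit 8404992)))
  false (nat_lit 0)
def b2_6 : Bx := Bx.mk (St.mk (I.mix (nat_lit 32292864) (nat_lit 103759872)) (I.mix (nat_lit 13156352) (nat_lit 40042496)) (I.mix (nat_lit 4964352) (nat_lit 29802496)) (I.pos (nat_lit 83427328) (nat_lit 128024576)) (I.mix (nat_lit 47546368) (nat_lit 39911424)) (I.mix (nat_lit 51134464) (nat_lit 30736384)) (I.mix (nat_lit 33062912) (nat_lit 20971520)))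
  false (nat_lit 0)
def b2_7 : Bx := Bx.mk (St.mk (I.pos (nat_lit 77266944) (nat_lit 135004160)) (I.mix (nat_lit 72302592) (nat_lit 13271040)) (I.mix (nat_lit 44072960) (nat_lit 12419072)) (I.pos (nat_lit 112541696) (nat_lit 157728768)) (I.mix (nat_lit 78381056) (nat_lit 34390016)) (I.mix (nat_lit 58671104) (nat_lit 78708736)) (I.mix (nat_lit 40828928) (nat_lit 51085312)))
  false (nat_lit 0)
def b2_8 : Bx := Bx.mk (St.mk (I.mix (nat_lit 51658752) (nat_lit 35422208)) (I.mix (nat_lit 36274176) (nat_lit 10682368)) (I.mix (nat_lit 720896) (nat_lit 14893056)) (I.pos (nat_lit 81870848) (nat_lit 100941824)) (I.mix (nat_lit 31834112) (nat_lit 32784384)) (I.mix (nat_lit 25395200) (nat_lit 37912576)) (I.mix (nat_lit 14221312) (nat_lit 11829248)))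
  false (nat_lit 0)
def b2_9 : Bx := Bx.mk (St.mk (I.pos (nat_lit 135626752) (nat_lit 158580736)) (I.neg (nat_lit 1769472) (nat_lit 36798464)) (I.mix (nat_lit 10158080) (nat_lit 27869184)) (I.pos (nat_lit 162414592) (nat_lit 184418304)) (I.mix (nat_lit 38027264) (nat_lit 19546112)) (I.mix (nat_lit 23166976) (nat_lit 29097984)) (I.mix (nat_lit 26836992) (nat_lit 26378240)))
  false (nat_lit 0)
def t2 : BTr := (BTr.n (BTr.n (BTr.n (BTr.b b2_0) (BTr.b b2_1)) (BTr.n (BTr.b b2_2) (BTr.n (BTr.b b2_3) (BTr.b b2_4)))) (BTr.n (BTr.n (BTr.b b2_5) (BTr.b b2_6)) (BTr.n (BTr.b b2_7) (BTr.n (BTr.b b2_8) (BTr.b b2_9)))))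
namespace T2
def l0 : Tr := Tr.L (Pth.l (Pth.l (Pth.l Pth.z)))
def l1 : Tr := Tr.L (Pth.l (Pth.l (Pth.r Pth.z)))
def l2 : Tr := Tr.L (Pth.l (Pth.r (Pth.l Pth.z)))
def l3 : Tr := Tr.L (Pth.l (Pth.r (Pth.r (Pth.l Pth.z))))
def l4 : Tr := Tr.L (Pth.l (Pth.r (Pth.r (Pth.r Pth.z))))
def l5 : Tr := Tr.L (Pth.r (Pth.l (Pth.l Pth.z)))
def l6 : Tr := Tr.L (Pth.r (Pth.l (Pth.r Pth.z)))
def l7 : Tr := Tr.L (Pth.r (Pth.r (Pth.l Pth.z)))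
def l8 : Tr := Tr.L (Pth.r (Pth.r (Pth.r (Pth.l Pth.z))))
def l9 : Tr := Tr.L (Pth.r (Pth.r (Pth.r (Pth.r Pth.z))))
end T2
theorem bx0_0 : BoxOK sI cl4 cl6 cl6 t1 t1 b0_0 :=
  box_mk (TrL.c (I.pos (nat_lit 0) (nat_lit 0)) (xa (xb T1.l0 (xa T1.l0 T1.l0)) (xb (xa T1.l0 T1.l0) (xa T1.l0 T1.l0)))
  (TrL.c (I.pos (nat_lit 0) (nat_lit 0)) (xa T1.l1 T1.l1)
  (TrL.c (I.pos (nat_lit 0) (nat_lit 0)) T1.l2
  (TrL.c (I.pos (nat_lit 0) (nat_lit 0)) (xa T1.l3 (xb (xa T1.l3 (xb T1.l3 T1.l3)) (xa T1.l3 (xs T1.l3 (xb T1.l3 T1.l3)))))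
  (TrL.c (I.pos (nat_lit 0) (nat_lit 0)) T1.l4
  (TrL.c (I.pos (nat_lit 0) (nat_lit 0)) (xa T1.l5 T1.l5)
  TrL.n)))))) (by decide +kernel)
theorem bx0_1 : BoxOK sI cl4 cl6 cl6 t1 t1 b0_1 :=
  box_mk (TrL.c (I.pos (nat_lit 0) (nat_lit 0)) T1.l0
  (TrL.c (I.pos (nat_lit 0) (nat_lit 0)) T1.l1
  (TrL.c (I.pos (nat_lit 0) (nat_lit 0)) T1.l2
  (TrL.c (I.pos (nat_lit 0) (nat_lit 0)) T1.l3
  (TrL.c (I.pos (nat_lit 0) (nat_lit 0)) T1.l4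
  (TrL.c (I.pos (nat_lit 0) (nat_lit 0)) T1.l5
  TrL.n)))))) (by decide +kernel)
theorem bx0_2 : BoxOK sI cl4 cl6 cl6 t1 t1 b0_2 :=
  box_mk (TrL.c (I.pos (nat_lit 0) (nat_lit 0)) T1.l0
  (TrL.c (I.pos (nat_lit 0) (nat_lit 0)) T1.l1
  (TrL.c (I.pos (nat_lit 0) (nat_lit 0)) T1.l2
  (TrL.c (I.pos (nat_lit 0) (nat_lit 0)) T1.l3
  (TrL.c (I.pos (nat_lit 0) (nat_lit 0)) T1.l4
  (TrL.c (I.pos (nat_lit 0) (nat_lit 0)) T1.l5
  TrL.n)))))) (by decide +kernel)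
theorem bx0_3 : BoxOK sI cl4 cl6 cl6 t1 t1 b0_3 :=
  box_mk (TrL.c (I.pos (nat_lit 0) (nat_lit 0)) T1.l0
  (TrL.c (I.pos (nat_lit 0) (nat_lit 0)) T1.l3
  (TrL.c (I.pos (nat_lit 0) (nat_lit 0)) T1.l2
  (TrL.c (I.pos (nat_lit 0) (nat_lit 0)) T1.l3
  (TrL.c (I.pos (nat_lit 0) (nat_lit 0)) T1.l4
  (TrL.c (I.pos (nat_lit 0) (nat_lit 0)) T1.l5
  TrL.n)))))) (by decide +kernel)
theorem bx0_4 : BoxOK sI cl4 cl6 cl6 t1 t1 b0_4 :=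
  box_mk (TrL.c (I.pos (nat_lit 0) (nat_lit 0)) T1.l0
  (TrL.c (I.pos (nat_lit 0) (nat_lit 0)) T1.l1
  (TrL.c (I.pos (nat_lit 0) (nat_lit 0)) T1.l2
  (TrL.c (I.pos (nat_lit 0) (nat_lit 0)) T1.l3
  (TrL.c (I.pos (nat_lit 0) (nat_lit 0)) T1.l4
  (TrL.c (I.pos (nat_lit 0) (nat_lit 0)) T1.l5
  TrL.n)))))) (by decide +kernel)
theorem bx0_5 : BoxOK sI cl4 cl6 cl6 t1 t1 b0_5 :=
  box_mk (TrL.c (I.pos (nat_lit 0) (nat_lit 0)) T1.l0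
  (TrL.c (I.pos (nat_lit 0) (nat_lit 0)) T1.l1
  (TrL.c (I.pos (nat_lit 0) (nat_lit 0)) T1.l2
  (TrL.c (I.pos (nat_lit 0) (nat_lit 0)) T1.l3
  (TrL.c (I.pos (nat_lit 0) (nat_lit 0)) T1.l4
  (TrL.c (I.pos (nat_lit 0) (nat_lit 0)) T1.l5
  TrL.n)))))) (by decide +kernel)
theorem bx0_6 : BoxOK sI cl4 cl6 cl6 t1 t1 b0_6 :=
  box_mk (TrL.c (I.pos (nat_lit 0) (nat_lit 0)) T1.l0
  (TrL.c (I.pos (nat_lit 0) (nat_lit 0)) T1.l1
  (TrL.c (I.pos (nat_lit 0) (nat_lit 0)) T1.l2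
  (TrL.c (I.pos (nat_lit 0) (nat_lit 0)) T1.l3
  (TrL.c (I.pos (nat_lit 0) (nat_lit 0)) T1.l4
  (TrL.c (I.pos (nat_lit 0) (nat_lit 0)) T1.l5
  TrL.n)))))) (by decide +kernel)
theorem bx0_7 : BoxOK sI cl4 cl6 cl6 t1 t1 b0_7 :=
  box_mk (TrL.c (I.pos (nat_lit 0) (nat_lit 0)) T1.l0
  (TrL.c (I.pos (nat_lit 0) (nat_lit 0)) T1.l3
  (TrL.c (I.pos (nat_lit 0) (nat_lit 0)) T1.l2
  (TrL.c (I.pos (nat_lit 0) (nat_lit 0)) T1.l3
  (TrL.c (I.pos (nat_lit 0) (nat_lit 0)) T1.l4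
  (TrL.c (I.pos (nat_lit 0) (nat_lit 0)) T1.l5
  TrL.n)))))) (by decide +kernel)
theorem bx0_8 : BoxOK sI cl4 cl6 cl6 t1 t1 b0_8 :=
  box_mk (TrL.c (I.pos (nat_lit 0) (nat_lit 0)) (xa T1.l0 T1.l0)
  (TrL.c (I.pos (nat_lit 0) (nat_lit 0)) T1.l1
  (TrL.c (I.pos (nat_lit 0) (nat_lit 0)) T1.l2
  (TrL.c (I.pos (nat_lit 0) (nat_lit 0)) T1.l3
  (TrL.c (I.pos (nat_lit 0) (nat_lit 0)) T1.l4
  (TrL.c (I.pos (nat_lit 0) (nat_lit 0)) T1.l5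
  TrL.n)))))) (by decide +kernel)
theorem bx0_9 : BoxOK sI cl4 cl6 cl6 t1 t1 b0_9 :=
  box_mk (TrL.c (I.pos (nat_lit 0) (nat_lit 0)) (xa (xb (xa T1.l0 T1.l0) (xa T1.l0 T1.l0)) (xb T1.l0 (xa T1.l0 T1.l0)))
  (TrL.c (I.pos (nat_lit 0) (nat_lit 0)) T1.l1
  (TrL.c (I.pos (nat_lit 0) (nat_lit 0)) T1.l2
  (TrL.c (I.pos (nat_lit 0) (nat_lit 0)) (xb (xa T1.l3 T1.l3) (xa T1.l3 T1.l3))
  (TrL.c (I.pos (nat_lit 0) (nat_lit 0)) T1.l4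
  (TrL.c (I.pos (nat_lit 0) (nat_lit 0)) T1.l5
  TrL.n)))))) (by decide +kernel)
theorem sv0 : StarV sI cl4 cl6 cl6 t1 t1 t0 :=
  (bt_n (bt_n (bt_n (bt_b bx0_0) (bt_b bx0_1)) (bt_n (bt_b bx0_2) (bt_n (bt_b bx0_3) (bt_b bx0_4)))) (bt_n (bt_n (bt_b bx0_5) (bt_b bx0_6)) (bt_n (bt_b bx0_7) (bt_n (bt_b bx0_8) (bt_b bx0_9)))))
def S0 : StarD := StarD.mk cl4 cl6 cl6 1 1 t0
theorem bx1_0 : BoxOK sI cl6 cl4 cl6 t0 t2 b1_0 :=
  box_mk (TrL.c (I.pos (nat_lit 0) (nat_lit 0)) (xa (xb (xa T0.l0 T0.l0) (xa T0.l0 T0.l0)) (xb T0.l9 (xa T0.l0 T0.l0)))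
  (TrL.c (I.pos (nat_lit 0) (nat_lit 0)) T2.l1
  (TrL.c (I.pos (nat_lit 0) (nat_lit 89480386)) (xR T0.l1 (xR T0.l1 T0.l1))
  (TrL.c (I.pos (nat_lit 0) (nat_lit 41530880)) T2.l2
  (TrL.c (I.pos (nat_lit 0) (nat_lit 0)) (xa (xb T2.l3 T2.l3) (xb (xa T2.l3 T2.l3) (xa T2.l3 (xs T2.l3 T2.l3))))
  (TrL.c (I.pos (nat_lit 0) (nat_lit 0)) T0.l2
  (TrL.c (I.mix (nat_lit 41527258) (nat_lit 41530880)) (xR T2.l4 T2.l4)
  (TrL.c (I.mix (nat_lit 41527258) (nat_lit 4274)) T0.l3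
  TrL.n)))))))) (by decide +kernel)
theorem bx1_1 : BoxOK sI cl6 cl4 cl6 t0 t2 b1_1 :=
  box_mk (TrL.c (I.pos (nat_lit 0) (nat_lit 0)) (xa (xb (xa T0.l0 T0.l0) T0.l0) T0.l0)
  (TrL.c (I.pos (nat_lit 0) (nat_lit 0)) T2.l1
  (TrL.c (I.pos (nat_lit 0) (nat_lit 89480386)) (xR T0.l1 T0.l1)
  (TrL.c (I.pos (nat_lit 0) (nat_lit 41530880)) T2.l2
  (TrL.c (I.pos (nat_lit 0) (nat_lit 0)) T2.l3
  (TrL.c (I.pos (nat_lit 0) (nat_lit 0)) T0.l2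
  (TrL.c (I.mix (nat_lit 41527258) (nat_lit 41530880)) T2.l4
  (TrL.c (I.mix (nat_lit 41527258) (nat_lit 4274)) T0.l3
  TrL.n)))))))) (by decide +kernel)
theorem bx1_2 : BoxOK sI cl6 cl4 cl6 t0 t2 b1_2 :=
  box_mk (TrL.c (I.pos (nat_lit 0) (nat_lit 0)) T2.l1
  (TrL.c (I.pos (nat_lit 0) (nat_lit 0)) T0.l1
  (TrL.c (I.mix (nat_lit 41527258) (nat_lit 41530880)) T2.l4
  (TrL.c (I.mix (nat_lit 41527258) (nat_lit 4274)) T0.l5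
  TrL.n)))) (by decide +kernel)
theorem bx1_3 : BoxOK sI cl6 cl4 cl6 t0 t2 b1_3 :=
  box_mk (TrL.c (I.pos (nat_lit 0) (nat_lit 0)) (xb (xa (xb T0.l0 T0.l0) T0.l0) (xa (xa T0.l0 T0.l0) (xa T0.l0 T0.l0)))
  (TrL.c (I.pos (nat_lit 0) (nat_lit 0)) T2.l1
  (TrL.c (I.pos (nat_lit 0) (nat_lit 89480386)) (xR T0.l1 T0.l1)
  (TrL.c (I.pos (nat_lit 0) (nat_lit 41530880)) T2.l2
  (TrL.c (I.pos (nat_lit 0) (nat_lit 0)) (xb T2.l3 T2.l3)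
  (TrL.c (I.pos (nat_lit 0) (nat_lit 0)) T0.l2
  (TrL.c (I.mix (nat_lit 41527258) (nat_lit 41530880)) (xR T2.l4 T2.l4)
  (TrL.c (I.mix (nat_lit 41527258) (nat_lit 4274)) T0.l3
  TrL.n)))))))) (by decide +kernel)
theorem bx1_4 : BoxOK sI cl6 cl4 cl6 t0 t2 b1_4 :=
  box_mk (TrL.c (I.pos (nat_lit 0) (nat_lit 0)) (xb (xa (xa (xs (xb T0.l0 T0.l0) (xb T0.l0 T0.l0)) T0.l0) T0.l0) T0.l0)
  (TrL.c (I.pos (nat_lit 0) (nat_lit 0)) T2.l1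
  (TrL.c (I.pos (nat_lit 0) (nat_lit 89480386)) T0.l1
  (TrL.c (I.pos (nat_lit 0) (nat_lit 41530880)) T2.l4
  (TrL.c (I.pos (nat_lit 0) (nat_lit 0)) T2.l3
  (TrL.c (I.pos (nat_lit 0) (nat_lit 0)) T0.l2
  (TrL.c (I.mix (nat_lit 41527258) (nat_lit 41530880)) T2.l4
  (TrL.c (I.mix (nat_lit 41527258) (nat_lit 4274)) T0.l3
  TrL.n)))))))) (by decide +kernel)
theorem bx1_5 : BoxOK sI cl6 cl4 cl6 t0 t2 b1_5 :=
  box_mk (TrL.c (I.pos (nat_lit 0) (nat_lit 0)) T2.l1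
  (TrL.c (I.pos (nat_lit 0) (nat_lit 0)) T0.l1
  (TrL.c (I.mix (nat_lit 41527258) (nat_lit 41530880)) (xR T2.l5 T2.l2)
  (TrL.c (I.mix (nat_lit 41527258) (nat_lit 4274)) T0.l5
  TrL.n)))) (by decide +kernel)
theorem sv1 : StarV sI cl6 cl4 cl6 t0 t2 t1 :=
  (bt_n (bt_n (bt_b bx1_0) (bt_n (bt_b bx1_1) (bt_b bx1_2))) (bt_n (bt_b bx1_3) (bt_n (bt_b bx1_4) (bt_b bx1_5))))
def S1 : StarD := StarD.mk cl6 cl4 cl6 0 2 t1
theorem bx2_0 : BoxOK sI cl6 cl6 cl4 t2 t0 b2_0 :=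
  box_mk (TrL.c (I.pos (nat_lit 0) (nat_lit 0)) (xa (xa (xb T2.l0 T2.l0) (xb T2.l0 T2.l0)) (xa (xb T2.l0 T2.l0) T2.l3))
  (TrL.c (I.pos (nat_lit 0) (nat_lit 0)) T0.l6
  (TrL.c (I.pos (nat_lit 0) (nat_lit 89480386)) (xR (xR T2.l6 T2.l6) (xR T2.l6 T2.l6))
  (TrL.c (I.pos (nat_lit 0) (nat_lit 41530880)) T0.l7
  (TrL.c (I.pos (nat_lit 0) (nat_lit 0)) (xa T0.l9 (xb (xa T0.l9 T0.l9) (xa T0.l9 T0.l9)))
  (TrL.c (I.pos (nat_lit 0) (nat_lit 0)) T2.l7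
  (TrL.c (I.mix (nat_lit 41527258) (nat_lit 41530880)) (xR T0.l8 T0.l1)
  (TrL.c (I.mix (nat_lit 41527258) (nat_lit 4274)) T2.l8
  TrL.n)))))))) (by decide +kernel)
theorem bx2_1 : BoxOK sI cl6 cl6 cl4 t2 t0 b2_1 :=
  box_mk (TrL.c (I.pos (nat_lit 0) (nat_lit 0)) T2.l0
  (TrL.c (I.pos (nat_lit 0) (nat_lit 0)) T0.l6
  (TrL.c (I.pos (nat_lit 0) (nat_lit 89480386)) (xR T2.l6 T2.l6)
  (TrL.c (I.pos (nat_lit 0) (nat_lit 41530880)) T0.l7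
  (TrL.c (I.pos (nat_lit 0) (nat_lit 0)) T0.l9
  (TrL.c (I.pos (nat_lit 0) (nat_lit 0)) T2.l7
  (TrL.c (I.mix (nat_lit 41527258) (nat_lit 41530880)) T0.l8
  (TrL.c (I.mix (nat_lit 41527258) (nat_lit 4274)) T2.l8
  TrL.n)))))))) (by decide +kernel)
theorem bx2_2 : BoxOK sI cl6 cl6 cl4 t2 t0 b2_2 :=
  box_mk (TrL.c (I.pos (nat_lit 0) (nat_lit 0)) T2.l0
  (TrL.c (I.pos (nat_lit 0) (nat_lit 0)) T0.l6
  (TrL.c (I.pos (nat_lit 0) (nat_lit 89480386)) T2.l6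
  (TrL.c (I.pos (nat_lit 0) (nat_lit 41530880)) T0.l7
  (TrL.c (I.pos (nat_lit 0) (nat_lit 0)) T0.l9
  (TrL.c (I.pos (nat_lit 0) (nat_lit 0)) T2.l7
  (TrL.c (I.mix (nat_lit 41527258) (nat_lit 41530880)) T0.l8
  (TrL.c (I.mix (nat_lit 41527258) (nat_lit 4274)) T2.l8
  TrL.n)))))))) (by decide +kernel)
theorem bx2_3 : BoxOK sI cl6 cl6 cl4 t2 t0 b2_3 :=
  box_mk (TrL.c (I.pos (nat_lit 0) (nat_lit 0)) (xb (xa (xb T2.l0 T2.l0) T2.l0) (xa (xs T2.l0 (xb T2.l0 T2.l0)) (xs T2.l0 (xb T2.l0 T2.l0))))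
  (TrL.c (I.pos (nat_lit 0) (nat_lit 0)) T0.l6
  (TrL.c (I.pos (nat_lit 0) (nat_lit 89480386)) (xR T2.l6 T2.l6)
  (TrL.c (I.pos (nat_lit 0) (nat_lit 41530880)) T0.l7
  (TrL.c (I.pos (nat_lit 0) (nat_lit 0)) (xb T0.l9 T0.l9)
  (TrL.c (I.pos (nat_lit 0) (nat_lit 0)) T2.l7
  (TrL.c (I.mix (nat_lit 41527258) (nat_lit 41530880)) (xR T0.l8 T0.l8)
  (TrL.c (I.mix (nat_lit 41527258) (nat_lit 4274)) T2.l8
  TrL.n)))))))) (by decide +kernel)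
theorem bx2_4 : BoxOK sI cl6 cl6 cl4 t2 t0 b2_4 :=
  box_mk (TrL.c (I.pos (nat_lit 0) (nat_lit 0)) T2.l0
  (TrL.c (I.pos (nat_lit 0) (nat_lit 0)) T0.l6
  (TrL.c (I.pos (nat_lit 0) (nat_lit 89480386)) T2.l6
  (TrL.c (I.pos (nat_lit 0) (nat_lit 41530880)) T0.l7
  (TrL.c (I.pos (nat_lit 0) (nat_lit 0)) T0.l9
  (TrL.c (I.pos (nat_lit 0) (nat_lit 0)) T2.l7
  (TrL.c (I.mix (nat_lit 41527258) (nat_lit 41530880)) T0.l8
  (TrL.c (I.mix (nat_lit 41527258) (nat_lit 4274)) T2.l8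
  TrL.n)))))))) (by decide +kernel)
theorem bx2_5 : BoxOK sI cl6 cl6 cl4 t2 t0 b2_5 :=
  box_mk (TrL.c (I.pos (nat_lit 0) (nat_lit 0)) T2.l0
  (TrL.c (I.pos (nat_lit 0) (nat_lit 0)) T0.l9
  (TrL.c (I.pos (nat_lit 0) (nat_lit 89480386)) T2.l6
  (TrL.c (I.pos (nat_lit 0) (nat_lit 41530880)) T0.l7
  (TrL.c (I.pos (nat_lit 0) (nat_lit 0)) T0.l9
  (TrL.c (I.pos (nat_lit 0) (nat_lit 0)) T2.l7
  (TrL.c (I.mix (nat_lit 41527258) (nat_lit 41530880)) T0.l8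
  (TrL.c (I.mix (nat_lit 41527258) (nat_lit 4274)) T2.l8
  TrL.n)))))))) (by decide +kernel)
theorem bx2_6 : BoxOK sI cl6 cl6 cl4 t2 t0 b2_6 :=
  box_mk (TrL.c (I.pos (nat_lit 0) (nat_lit 0)) (xa T2.l0 T2.l0)
  (TrL.c (I.pos (nat_lit 0) (nat_lit 0)) T0.l6
  (TrL.c (I.pos (nat_lit 0) (nat_lit 89480386)) T2.l6
  (TrL.c (I.pos (nat_lit 0) (nat_lit 41530880)) T0.l7
  (TrL.c (I.pos (nat_lit 0) (nat_lit 0)) T0.l9
  (TrL.c (I.pos (nat_lit 0) (nat_lit 0)) T2.l7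
  (TrL.c (I.mix (nat_lit 41527258) (nat_lit 41530880)) T0.l8
  (TrL.c (I.mix (nat_lit 41527258) (nat_lit 4274)) T2.l8
  TrL.n)))))))) (by decide +kernel)
theorem bx2_7 : BoxOK sI cl6 cl6 cl4 t2 t0 b2_7 :=
  box_mk (TrL.c (I.pos (nat_lit 0) (nat_lit 0)) T2.l0
  (TrL.c (I.pos (nat_lit 0) (nat_lit 0)) T0.l6
  (TrL.c (I.pos (nat_lit 0) (nat_lit 89480386)) (xR T2.l6 T2.l6)
  (TrL.c (I.pos (nat_lit 0) (nat_lit 41530880)) T0.l7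
  (TrL.c (I.pos (nat_lit 0) (nat_lit 0)) T0.l9
  (TrL.c (I.pos (nat_lit 0) (nat_lit 0)) T2.l7
  (TrL.c (I.mix (nat_lit 41527258) (nat_lit 41530880)) T0.l8
  (TrL.c (I.mix (nat_lit 41527258) (nat_lit 4274)) T2.l8
  TrL.n)))))))) (by decide +kernel)
theorem bx2_8 : BoxOK sI cl6 cl6 cl4 t2 t0 b2_8 :=
  box_mk (TrL.c (I.pos (nat_lit 0) (nat_lit 0)) (xa (xa T2.l0 T2.l0) T2.l0)
  (TrL.c (I.pos (nat_lit 0) (nat_lit 0)) T0.l9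
  (TrL.c (I.pos (nat_lit 0) (nat_lit 89480386)) T2.l6
  (TrL.c (I.pos (nat_lit 0) (nat_lit 41530880)) T0.l1
  (TrL.c (I.pos (nat_lit 0) (nat_lit 0)) T0.l9
  (TrL.c (I.pos (nat_lit 0) (nat_lit 0)) T2.l7
  (TrL.c (I.mix (nat_lit 41527258) (nat_lit 41530880)) (xR T0.l8 T0.l1)
  (TrL.c (I.mix (nat_lit 41527258) (nat_lit 4274)) T2.l8
  TrL.n)))))))) (by decide +kernel)
theorem bx2_9 : BoxOK sI cl6 cl6 cl4 t2 t0 b2_9 :=
  box_mk (TrL.c (I.pos (nat_lit 0) (nat_lit 0)) T2.l0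
  (TrL.c (I.pos (nat_lit 0) (nat_lit 0)) T0.l6
  (TrL.c (I.pos (nat_lit 0) (nat_lit 89480386)) (xR T2.l6 T2.l6)
  (TrL.c (I.pos (nat_lit 0) (nat_lit 41530880)) T0.l7
  (TrL.c (I.pos (nat_lit 0) (nat_lit 0)) T0.l9
  (TrL.c (I.pos (nat_lit 0) (nat_lit 0)) T2.l7
  (TrL.c (I.mix (nat_lit 41527258) (nat_lit 41530880)) T0.l8
  (TrL.c (I.mix (nat_lit 41527258) (nat_lit 4274)) T2.l8
  TrL.n)))))))) (by decide +kernel)
theorem sv2 : StarV sI cl6 cl6 cl4 t2 t0 t2 :=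
  (bt_n (bt_n (bt_n (bt_b bx2_0) (bt_b bx2_1)) (bt_n (bt_b bx2_2) (bt_n (bt_b bx2_3) (bt_b bx2_4)))) (bt_n (bt_n (bt_b bx2_5) (bt_b bx2_6)) (bt_n (bt_b bx2_7) (bt_n (bt_b bx2_8) (bt_b bx2_9)))))
def S2 : StarD := StarD.mk cl6 cl6 cl4 2 0 t2
def G : List StarD := [S0, S1, S2]
theorem so0 : StarOK sI G S0 :=
  star_mk (by decide) (by decide) rfl rfl rfl rfl rfl rfl (rfl : _ = t1) (rfl : _ = t1)
  (st_mk (Pth.l (Pth.l (Pth.l Pth.z))) (nat_lit 191999301) (nat_lit 194193247) (by decide +kernel))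
  (st_mk (Pth.l (Pth.l (Pth.l Pth.z))) (nat_lit 229415427) (nat_lit 232599819) (by decide +kernel))
  (st_mk (Pth.l (Pth.l (Pth.l Pth.z))) (nat_lit 273196930) (nat_lit 277805887) (by decide +kernel)) sv0
theorem so1 : StarOK sI G S1 :=
  star_mk (by decide) (by decide) rfl rfl rfl rfl rfl rfl (rfl : _ = t0) (rfl : _ = t2)
  (st_mk (Pth.l (Pth.l Pth.z)) (nat_lit 372453233) (nat_lit 375121423) (by decide +kernel))
  (st_mk (Pth.l (Pth.l Pth.z)) (nat_lit 408865096) (nat_lit 412095580) (by decide +kernel))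
  (st_mk (Pth.l (Pth.l Pth.z)) (nat_lit 451063132) (nat_lit 455017414) (by decide +kernel)) sv1
theorem so2 : StarOK sI G S2 :=
  star_mk (by decide) (by decide) rfl rfl rfl rfl rfl rfl (rfl : _ = t2) (rfl : _ = t0)
  (st_mk (Pth.l (Pth.l (Pth.l Pth.z))) (nat_lit 189048177) (nat_lit 190101284) (by decide +kernel))
  (st_mk (Pth.l (Pth.l (Pth.l Pth.z))) (nat_lit 225175565) (nat_lit 226678092) (by decide +kernel))
  (st_mk (Pth.l (Pth.l (Pth.l Pth.z))) (nat_lit 267140038) (nat_lit 269271670) (by decide +kernel)) sv2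
theorem ok : GroupOK (nat_lit 0) (nat_lit 91291648) G := grp_mk (allS_c so0 (allS_c so1 (allS_c so2 allS_n)))
theorem cov : GCov G cl4 cl6 cl6 := cov_mk
  ⟨0, by decide, rfl, rfl, rfl⟩ ⟨0, by decide, rfl, rfl, rfl⟩ ⟨1, by decide, rfl, rfl, rfl⟩ ⟨2, by decide, rfl, rfl, rfl⟩ ⟨1, by decide, rfl, rfl, rfl⟩ ⟨2, by decide, rfl, rfl, rfl⟩
end Q133_0

namespace Q133_1
def sI : I := I.pos (nat_lit 91226112) (nat_lit 150339584)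
def b0_0 : Bx := Bx.mk (St.mk (I.pos (nat_lit 156172288) (nat_lit 257949696)) (I.mix (nat_lit 28835840) (nat_lit 70860800)) (I.mix (nat_lit 113737728) (nat_lit 83574784)) (I.pos (nat_lit 193363968) (nat_lit 358121472)) (I.mix (nat_lit 140443648) (nat_lit 101253120)) (I.mix (nat_lit 114606080) (nat_lit 100155392)) (I.mix (nat_lit 193560576) (nat_lit 190464000)))
  false (nat_lit 0)
def b0_1 : Bx := Bx.mk (St.mk (I.mix (nat_lit 24166400) (nat_lit 91996160)) (I.mix (nat_lit 12419072) (nat_lit 43925504)) (I.mix (nat_lit 29179904) (nat_lit 4833280)) (I.pos (nat_lit 84787200) (nat_lit 123355136)) (I.mix (nat_lit 48922624) (nat_lit 56377344)) (I.mix (nat_lit 49577984) (nat_lit 43188224)) (I.mix (nat_lit 33669120) (nat_lit 24838144)))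
  false (nat_lit 0)
def b0_2 : Bx := Bx.mk (St.mk (I.pos (nat_lit 78217216) (nat_lit 120586240)) (I.mix (nat_lit 63356928) (nat_lit 13189120)) (I.neg (nat_lit 12746752) (nat_lit 68009984)) (I.pos (nat_lit 114294784) (nat_lit 145506304)) (I.mix (nat_lit 124731392) (nat_lit 48381952)) (I.mix (nat_lit 70828032) (nat_lit 119554048)) (I.mix (nat_lit 49577984) (nat_lit 84541440)))
  false (nat_lit 0)
def b0_3 : Bx := Bx.mk (St.mk (I.mix (nat_lit 44171264) (nat_lit 26951680)) (I.mix (nat_lit 37240832) (nat_lit 9371648)) (I.neg (nat_lit 5111808) (nat_lit 20037632)) (I.pos (nat_lit 83148800) (nat_lit 101351424)) (I.mix (nat_lit 49643520) (nat_lit 33406976)) (I.mix (nat_lit 33325056) (nat_lit 41500672)) (I.mix (nat_lit 16252928) (nat_lit 12353536)))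
  false (nat_lit 0)
def b0_4 : Bx := Bx.mk (St.mk (I.pos (nat_lit 74219520) (nat_lit 91062272)) (I.mix (nat_lit 11698176) (nat_lit 10076160)) (I.neg (nat_lit 13418496) (nat_lit 28672000)) (I.pos (nat_lit 110821376) (nat_lit 122830848)) (I.mix (nat_lit 31719424) (nat_lit 19316736)) (I.mix (nat_lit 20758528) (nat_lit 19808256)) (I.mix (nat_lit 13729792) (nat_lit 15319040)))
  false (nat_lit 0)
def b0_5 : Bx := Bx.mk (St.mk (I.mix (nat_lit 56688640) (nat_lit 3932160)) (I.mix (nat_lit 10043392) (nat_lit 14008320)) (I.neg (nat_lit 12468224) (nat_lit 22577152)) (I.pos (nat_lit 88588288) (nat_lit 102711296)) (I.mix (nat_lit 31326208) (nat_lit 26624000)) (I.mix (nat_lit 26312704) (nat_lit 28835840)) (I.mix (nat_lit 11796480) (nat_lit 10993664)))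
  false (nat_lit 0)
def b0_6 : Bx := Bx.mk (St.mk (I.pos (nat_lit 73908224) (nat_lit 160972800)) (I.mix (nat_lit 70123520) (nat_lit 3424256)) (I.neg (nat_lit 15302656) (nat_lit 76251136)) (I.pos (nat_lit 121110528) (nat_lit 192102400)) (I.mix (nat_lit 129400832) (nat_lit 68878336)) (I.mix (nat_lit 68829184) (nat_lit 103579648)) (I.mix (nat_lit 46219264) (nat_lit 85721088)))
  false (nat_lit 1774192)
def b0_7 : Bx := Bx.mk (St.mk (I.mix (nat_lit 37371904) (nat_lit 48332800)) (I.mix (nat_lit 35438592) (nat_lit 6701056)) (I.neg (nat_lit 6635520) (nat_lit 22790144)) (I.pos (nat_lit 81887232) (nat_lit 101974016)) (I.mix (nat_lit 47153152) (nat_lit 40878080)) (I.mix (nat_lit 32587776) (nat_lit 48234496)) (I.mix (nat_lit 15728640) (nat_lit 19021824)))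
  false (nat_lit 0)
def b0_8 : Bx := Bx.mk (St.mk (I.mix (nat_lit 48234496) (nat_lit 66355200)) (I.mix (nat_lit 10616832) (nat_lit 35438592)) (I.neg (nat_lit 622592) (nat_lit 22790144)) (I.pos (nat_lit 81903616) (nat_lit 107298816)) (I.mix (nat_lit 46137344) (nat_lit 47136768)) (I.mix (nat_lit 52051968) (nat_lit 32587776)) (I.mix (nat_lit 19349504) (nat_lit 19021824)))
  false (nat_lit 0)
def b0_9 : Bx := Bx.mk (St.mk (I.pos (nat_lit 130154496) (nat_lit 214171648)) (I.mix (nat_lit 38043648) (nat_lit 69140480)) (I.mix (nat_lit 49987584) (nat_lit 74530816)) (I.pos (nat_lit 161660928) (nat_lit 266403840)) (I.mix (nat_lit 160628736) (nat_lit 83591168)) (I.mix (nat_lit 171540480) (nat_lit 127565824)) (I.mix (nat_lit 167886848) (nat_lit 122241024)))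
  false (nat_lit 0)
def t0 : BTr := (BTr.n (BTr.n (BTr.n (BTr.b b0_0) (BTr.b b0_1)) (BTr.n (BTr.b b0_2) (BTr.n (BTr.b b0_3) (BTr.b b0_4)))) (BTr.n (BTr.n (BTr.b b0_5) (BTr.b b0_6)) (BTr.n (BTr.b b0_7) (BTr.n (BTr.b b0_8) (BTr.b b0_9)))))
namespace T0
def l0 : Tr := Tr.L (Pth.l (Pth.l (Pth.l Pth.z)))
def l1 : Tr := Tr.L (Pth.l (Pth.l (Pth.r Pth.z)))
def l2 : Tr := Tr.L (Pth.l (Pth.r (Pth.l Pth.z)))
def l3 : Tr := Tr.L (Pth.l (Pth.r (Pth.r (Pth.l Pth.z))))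
def l4 : Tr := Tr.L (Pth.l (Pth.r (Pth.r (Pth.r Pth.z))))
def l5 : Tr := Tr.L (Pth.r (Pth.l (Pth.l Pth.z)))
def l6 : Tr := Tr.L (Pth.r (Pth.l (Pth.r Pth.z)))
def l7 : Tr := Tr.L (Pth.r (Pth.r (Pth.l Pth.z)))
def l8 : Tr := Tr.L (Pth.r (Pth.r (Pth.r (Pth.l Pth.z))))
def l9 : Tr := Tr.L (Pth.r (Pth.r (Pth.r (Pth.r Pth.z))))
end T0
def b1_0 : Bx := Bx.mk (St.mk (I.pos (nat_lit 132284416) (nat_lit 287866880)) (I.mix (nat_lit 40058880) (nat_lit 98254848)) (I.mix (nat_lit 175915008) (nat_lit 106168320)) (I.pos (nat_lit 371064832) (nat_lit 593149952)) (I.mix (nat_lit 172294144) (nat_lit 131973120)) (I.mix (nat_lit 144408576) (nat_lit 114999296)) (I.mix (nat_lit 217841664) (nat_lit 166936576)))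
  false (nat_lit 92809932)
def b1_1 : Bx := Bx.mk (St.mk (I.pos (nat_lit 19480576) (nat_lit 126664704)) (I.neg (nat_lit 4587520) (nat_lit 97271808)) (I.mix (nat_lit 78397440) (nat_lit 2916352)) (I.pos (nat_lit 269090816) (nat_lit 336953344)) (I.mix (nat_lit 137641984) (nat_lit 105086976)) (I.mix (nat_lit 92405760) (nat_lit 124731392)) (I.mix (nat_lit 91734016) (nat_lit 100777984)))
  false (nat_lit 40683782)
def b1_2 : Bx := Bx.mk (St.mk (I.mix (nat_lit 61145088) (nat_lit 16547840)) (I.mix (nat_lit 16072704) (nat_lit 95272960)) (I.neg (nat_lit 40501248) (nat_lit 63078400)) (I.pos (nat_lit 268238848) (nat_lit 295452672)) (I.mix (nat_lit 70402048) (nat_lit 122273792)) (I.mix (nat_lit 110657536) (nat_lit 87785472)) (I.mix (nat_lit 49692672) (nat_lit 40812544)))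
  true (nat_lit 0)
def b1_3 : Bx := Bx.mk (St.mk (I.pos (nat_lit 87703552) (nat_lit 188104704)) (I.mix (nat_lit 40648704) (nat_lit 96452608)) (I.mix (nat_lit 26132480) (nat_lit 105955328)) (I.pos (nat_lit 304971776) (nat_lit 420610048)) (I.mix (nat_lit 185761792) (nat_lit 97075200)) (I.mix (nat_lit 176603136) (nat_lit 127303680)) (I.mix (nat_lit 183189504) (nat_lit 157483008)))
  false (nat_lit 54987614)
def b1_4 : Bx := Bx.mk (St.mk (I.mix (nat_lit 16547840) (nat_lit 61145088)) (I.mix (nat_lit 95272960) (nat_lit 19677184)) (I.neg (nat_lit 40501248) (nat_lit 63078400)) (I.pos (nat_lit 268238848) (nat_lit 295452672)) (I.mix (nat_lit 122273792) (nat_lit 70402048)) (I.mix (nat_lit 87785472) (nat_lit 110657536)) (I.mix (nat_lit 49692672) (nat_lit 40812544)))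
  false (nat_lit 31388650)
def b1_5 : Bx := Bx.mk (St.mk (I.neg (nat_lit 19464192) (nat_lit 126550016)) (I.pos (nat_lit 950272) (nat_lit 97271808)) (I.mix (nat_lit 78397440) (nat_lit 7667712)) (I.pos (nat_lit 269090816) (nat_lit 337002496)) (I.mix (nat_lit 105086976) (nat_lit 137641984)) (I.mix (nat_lit 124731392) (nat_lit 92405760)) (I.mix (nat_lit 91734016) (nat_lit 100777984)))
  true (nat_lit 0)
def t1 : BTr := (BTr.n (BTr.n (BTr.b b1_0) (BTr.n (BTr.b b1_1) (BTr.b b1_2))) (BTr.n (BTr.b b1_3) (BTr.n (BTr.b b1_4) (BTr.b b1_5))))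
namespace T1
def l0 : Tr := Tr.L (Pth.l (Pth.l Pth.z))
def l1 : Tr := Tr.L (Pth.l (Pth.r (Pth.l Pth.z)))
def l2 : Tr := Tr.L (Pth.l (Pth.r (Pth.r Pth.z)))
def l3 : Tr := Tr.L (Pth.r (Pth.l Pth.z))
def l4 : Tr := Tr.L (Pth.r (Pth.r (Pth.l Pth.z)))
def l5 : Tr := Tr.L (Pth.r (Pth.r (Pth.r Pth.z)))
end T1
def b2_0 : Bx := Bx.mk (St.mk (I.pos (nat_lit 145260544) (nat_lit 282329088)) (I.mix (nat_lit 33325056) (nat_lit 60047360)) (I.mix (nat_lit 53739520) (nat_lit 117014528)) (I.pos (nat_lit 189267968) (nat_lit 400556032)) (I.mix (nat_lit 143343616) (nat_lit 110166016)) (I.mix (nat_lit 132169728) (nat_lit 100679680)) (I.mix (nat_lit 208863232) (nat_lit 130252800)))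
  false (nat_lit 12915572)
def b2_1 : Bx := Bx.mk (St.mk (I.pos (nat_lit 88342528) (nat_lit 157696000)) (I.neg (nat_lit 3489792) (nat_lit 73629696)) (I.mix (nat_lit 50020352) (nat_lit 24690688)) (I.pos (nat_lit 134135808) (nat_lit 184582144)) (I.mix (nat_lit 111722496) (nat_lit 68943872)) (I.mix (nat_lit 63225856) (nat_lit 86884352)) (I.mix (nat_lit 52117504) (nat_lit 68747264)))
  false (nat_lit 15047093)
def b2_2 : Bx := Bx.mk (St.mk (I.mix (nat_lit 27541504) (nat_lit 41320448)) (I.mix (nat_lit 37437440) (nat_lit 6258688)) (I.mix (nat_lit 1277952) (nat_lit 12206080)) (I.pos (nat_lit 83443712) (nat_lit 100859904)) (I.mix (nat_lit 34095104) (nat_lit 44957696)) (I.mix (nat_lit 32768000) (nat_lit 37945344)) (I.mix (nat_lit 11403264) (nat_lit 14221312)))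
  false (nat_lit 0)
def b2_3 : Bx := Bx.mk (St.mk (I.pos (nat_lit 142393344) (nat_lit 201310208)) (I.mix (nat_lit 42811392) (nat_lit 65896448)) (I.mix (nat_lit 16089088) (nat_lit 115884032)) (I.pos (nat_lit 173359104) (nat_lit 241893376)) (I.mix (nat_lit 184664064) (nat_lit 75300864)) (I.mix (nat_lit 192528384) (nat_lit 118210560)) (I.mix (nat_lit 200654848) (nat_lit 111198208)))
  false (nat_lit 30875291)
def b2_4 : Bx := Bx.mk (St.mk (I.mix (nat_lit 44695552) (nat_lit 67649536)) (I.mix (nat_lit 12664832) (nat_lit 37896192)) (I.mix (nat_lit 1277952) (nat_lit 25133056)) (I.pos (nat_lit 83443712) (nat_lit 108806144)) (I.mix (nat_lit 55967744) (nat_lit 34095104)) (I.mix (nat_lit 45940736) (nat_lit 32768000)) (I.mix (nat_lit 19349504) (nat_lit 15499264)))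
  false (nat_lit 0)
def b2_5 : Bx := Bx.mk (St.mk (I.pos (nat_lit 131809280) (nat_lit 157384704)) (I.neg (nat_lit 3571712) (nat_lit 36143104)) (I.mix (nat_lit 7618560) (nat_lit 24576000)) (I.pos (nat_lit 160661504) (nat_lit 184090624)) (I.mix (nat_lit 54935552) (nat_lit 37306368)) (I.mix (nat_lit 32538624) (nat_lit 44023808)) (I.mix (nat_lit 36225024) (nat_lit 39747584)))
  false (nat_lit 0)
def b2_6 : Bx := Bx.mk (St.mk (I.mix (nat_lit 57262080) (nat_lit 45940736)) (I.mix (nat_lit 14942208) (nat_lit 12648448)) (I.pos (nat_lit 4866048) (nat_lit 14647296)) (I.pos (nat_lit 85671936) (nat_lit 102645760)) (I.mix (nat_lit 31047680) (nat_lit 24494080)) (I.mix (nat_lit 26935296) (nat_lit 24903680)) (I.mix (nat_lit 9420800) (nat_lit 10502144)))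
  false (nat_lit 0)
def b2_7 : Bx := Bx.mk (St.mk (I.mix (nat_lit 25509888) (nat_lit 97288192)) (I.mix (nat_lit 10977280) (nat_lit 40140800)) (I.mix (nat_lit 3473408) (nat_lit 29736960)) (I.pos (nat_lit 83607552) (nat_lit 126320640)) (I.mix (nat_lit 63750144) (nat_lit 47677440)) (I.mix (nat_lit 56590336) (nat_lit 41435136)) (I.mix (nat_lit 36487168) (nat_lit 28164096)))
  false (nat_lit 0)
def b2_8 : Bx := Bx.mk (St.mk (I.pos (nat_lit 79233024) (nat_lit 131104768)) (I.mix (nat_lit 67420160) (nat_lit 8585216)) (I.mix (nat_lit 40091648) (nat_lit 9142272)) (I.pos (nat_lit 114671616) (nat_lit 154501120)) (I.mix (nat_lit 100417536) (nat_lit 51445760)) (I.mix (nat_lit 70074368) (nat_lit 97173504)) (I.mix (nat_lit 48381952) (nat_lit 61898752)))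
  false (nat_lit 0)
def b2_9 : Bx := Bx.mk (St.mk (I.mix (nat_lit 48037888) (nat_lit 35356672)) (I.mix (nat_lit 35897344) (nat_lit 8503296)) (I.pos (nat_lit 65536) (nat_lit 14843904)) (I.pos (nat_lit 82477056) (nat_lit 101515264)) (I.mix (nat_lit 39878656) (nat_lit 42500096)) (I.mix (nat_lit 30867456) (nat_lit 44990464)) (I.mix (nat_lit 16875520) (nat_lit 14204928)))
  false (nat_lit 0)
def t2 : BTr := (BTr.n (BTr.n (BTr.n (BTr.b b2_0) (BTr.b b2_1)) (BTr.n (BTr.b b2_2) (BTr.n (BTr.b b2_3) (BTr.b b2_4)))) (BTr.n (BTr.n (BTr.b b2_5) (BTr.b b2_6)) (BTr.n (BTr.b b2_7) (BTr.n (BTr.b b2_8) (BTr.b b2_9)))))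
namespace T2
def l0 : Tr := Tr.L (Pth.l (Pth.l (Pth.l Pth.z)))
def l1 : Tr := Tr.L (Pth.l (Pth.l (Pth.r Pth.z)))
def l2 : Tr := Tr.L (Pth.l (Pth.r (Pth.l Pth.z)))
def l3 : Tr := Tr.L (Pth.l (Pth.r (Pth.r (Pth.l Pth.z))))
def l4 : Tr := Tr.L (Pth.l (Pth.r (Pth.r (Pth.r Pth.z))))
def l5 : Tr := Tr.L (Pth.r (Pth.l (Pth.l Pth.z)))
def l6 : Tr := Tr.L (Pth.r (Pth.l (Pth.r Pth.z)))
def l7 : Tr := Tr.L (Pth.r (Pth.r (Pth.l Pth.z)))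
def l8 : Tr := Tr.L (Pth.r (Pth.r (Pth.r (Pth.l Pth.z))))
def l9 : Tr := Tr.L (Pth.r (Pth.r (Pth.r (Pth.r Pth.z))))
end T2
theorem bx0_0 : BoxOK sI cl4 cl6 cl6 t1 t1 b0_0 :=
  box_mk (TrL.c (I.pos (nat_lit 0) (nat_lit 0)) (xa (xb T1.l0 (xa T1.l0 T1.l0)) (xb (xa T1.l0 T1.l3) (xa T1.l0 T1.l0)))
  (TrL.c (I.pos (nat_lit 0) (nat_lit 0)) (xa T1.l1 T1.l1)
  (TrL.c (I.pos (nat_lit 0) (nat_lit 0)) T1.l2
  (TrL.c (I.pos (nat_lit 0) (nat_lit 0)) (xa T1.l3 (xb (xa T1.l3 (xb T1.l3 T1.l3)) (xa T1.l3 (xb T1.l3 T1.l3))))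
  (TrL.c (I.pos (nat_lit 0) (nat_lit 0)) T1.l4
  (TrL.c (I.pos (nat_lit 0) (nat_lit 0)) (xa T1.l5 T1.l5)
  TrL.n)))))) (by decide +kernel)
theorem bx0_1 : BoxOK sI cl4 cl6 cl6 t1 t1 b0_1 :=
  box_mk (TrL.c (I.pos (nat_lit 0) (nat_lit 0)) T1.l0
  (TrL.c (I.pos (nat_lit 0) (nat_lit 0)) T1.l1
  (TrL.c (I.pos (nat_lit 0) (nat_lit 0)) T1.l2
  (TrL.c (I.pos (nat_lit 0) (nat_lit 0)) T1.l3
  (TrL.c (I.pos (nat_lit 0) (nat_lit 0)) T1.l4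
  (TrL.c (I.pos (nat_lit 0) (nat_lit 0)) T1.l5
  TrL.n)))))) (by decide +kernel)
theorem bx0_2 : BoxOK sI cl4 cl6 cl6 t1 t1 b0_2 :=
  box_mk (TrL.c (I.pos (nat_lit 0) (nat_lit 0)) T1.l0
  (TrL.c (I.pos (nat_lit 0) (nat_lit 0)) T1.l1
  (TrL.c (I.pos (nat_lit 0) (nat_lit 0)) T1.l2
  (TrL.c (I.pos (nat_lit 0) (nat_lit 0)) T1.l3
  (TrL.c (I.pos (nat_lit 0) (nat_lit 0)) T1.l4
  (TrL.c (I.pos (nat_lit 0) (nat_lit 0)) T1.l5
  TrL.n)))))) (by decide +kernel)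
theorem bx0_3 : BoxOK sI cl4 cl6 cl6 t1 t1 b0_3 :=
  box_mk (TrL.c (I.pos (nat_lit 0) (nat_lit 0)) (xa (xb (xa (xb T1.l0 T1.l0) T1.l0) T1.l0) T1.l0)
  (TrL.c (I.pos (nat_lit 0) (nat_lit 0)) T1.l3
  (TrL.c (I.pos (nat_lit 0) (nat_lit 0)) T1.l4
  (TrL.c (I.pos (nat_lit 0) (nat_lit 0)) T1.l1
  (TrL.c (I.pos (nat_lit 0) (nat_lit 0)) T1.l4
  (TrL.c (I.pos (nat_lit 0) (nat_lit 0)) T1.l5
  TrL.n)))))) (by decide +kernel)
theorem bx0_4 : BoxOK sI cl4 cl6 cl6 t1 t1 b0_4 :=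
  box_mk (TrL.c (I.pos (nat_lit 0) (nat_lit 0)) T1.l0
  (TrL.c (I.pos (nat_lit 0) (nat_lit 0)) T1.l1
  (TrL.c (I.pos (nat_lit 0) (nat_lit 0)) T1.l2
  (TrL.c (I.pos (nat_lit 0) (nat_lit 0)) T1.l3
  (TrL.c (I.pos (nat_lit 0) (nat_lit 0)) T1.l4
  (TrL.c (I.pos (nat_lit 0) (nat_lit 0)) T1.l5
  TrL.n)))))) (by decide +kernel)
theorem bx0_5 : BoxOK sI cl4 cl6 cl6 t1 t1 b0_5 :=
  box_mk (TrL.c (I.pos (nat_lit 0) (nat_lit 0)) (xa (xa (xb T1.l0 T1.l0) T1.l0) T1.l0)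
  (TrL.c (I.pos (nat_lit 0) (nat_lit 0)) T1.l3
  (TrL.c (I.pos (nat_lit 0) (nat_lit 0)) T1.l4
  (TrL.c (I.pos (nat_lit 0) (nat_lit 0)) T1.l3
  (TrL.c (I.pos (nat_lit 0) (nat_lit 0)) T1.l4
  (TrL.c (I.pos (nat_lit 0) (nat_lit 0)) T1.l5
  TrL.n)))))) (by decide +kernel)
theorem bx0_6 : BoxOK sI cl4 cl6 cl6 t1 t1 b0_6 :=
  box_mk (TrL.c (I.pos (nat_lit 0) (nat_lit 0)) T1.l0
  (TrL.c (I.pos (nat_lit 0) (nat_lit 0)) T1.l1
  (TrL.c (I.pos (nat_lit 0) (nat_lit 0)) T1.l2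
  (TrL.c (I.pos (nat_lit 0) (nat_lit 0)) T1.l3
  (TrL.c (I.pos (nat_lit 0) (nat_lit 0)) T1.l4
  (TrL.c (I.pos (nat_lit 0) (nat_lit 0)) T1.l5
  TrL.n)))))) (by decide +kernel)
theorem bx0_7 : BoxOK sI cl4 cl6 cl6 t1 t1 b0_7 :=
  box_mk (TrL.c (I.pos (nat_lit 0) (nat_lit 0)) (xa T1.l0 T1.l0)
  (TrL.c (I.pos (nat_lit 0) (nat_lit 0)) T1.l3
  (TrL.c (I.pos (nat_lit 0) (nat_lit 0)) T1.l4
  (TrL.c (I.pos (nat_lit 0) (nat_lit 0)) T1.l1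
  (TrL.c (I.pos (nat_lit 0) (nat_lit 0)) T1.l4
  (TrL.c (I.pos (nat_lit 0) (nat_lit 0)) T1.l5
  TrL.n)))))) (by decide +kernel)
theorem bx0_8 : BoxOK sI cl4 cl6 cl6 t1 t1 b0_8 :=
  box_mk (TrL.c (I.pos (nat_lit 0) (nat_lit 0)) (xa (xa (xb T1.l0 (xa T1.l0 T1.l0)) T1.l0) T1.l0)
  (TrL.c (I.pos (nat_lit 0) (nat_lit 0)) T1.l1
  (TrL.c (I.pos (nat_lit 0) (nat_lit 0)) T1.l2
  (TrL.c (I.pos (nat_lit 0) (nat_lit 0)) T1.l3
  (TrL.c (I.pos (nat_lit 0) (nat_lit 0)) T1.l4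
  (TrL.c (I.pos (nat_lit 0) (nat_lit 0)) T1.l5
  TrL.n)))))) (by decide +kernel)
theorem bx0_9 : BoxOK sI cl4 cl6 cl6 t1 t1 b0_9 :=
  box_mk (TrL.c (I.pos (nat_lit 0) (nat_lit 0)) (xb (xa (xb T1.l0 T1.l0) T1.l0) (xa (xb T1.l0 T1.l0) (xb T1.l0 T1.l0)))
  (TrL.c (I.pos (nat_lit 0) (nat_lit 0)) T1.l1
  (TrL.c (I.pos (nat_lit 0) (nat_lit 0)) T1.l2
  (TrL.c (I.pos (nat_lit 0) (nat_lit 0)) (xb (xa T1.l3 T1.l3) (xa T1.l3 T1.l3))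
  (TrL.c (I.pos (nat_lit 0) (nat_lit 0)) T1.l4
  (TrL.c (I.pos (nat_lit 0) (nat_lit 0)) T1.l5
  TrL.n)))))) (by decide +kernel)
theorem sv0 : StarV sI cl4 cl6 cl6 t1 t1 t0 :=
  (bt_n (bt_n (bt_n (bt_b bx0_0) (bt_b bx0_1)) (bt_n (bt_b bx0_2) (bt_n (bt_b bx0_3) (bt_b bx0_4)))) (bt_n (bt_n (bt_b bx0_5) (bt_b bx0_6)) (bt_n (bt_b bx0_7) (bt_n (bt_b bx0_8) (bt_b bx0_9)))))
def S0 : StarD := StarD.mk cl4 cl6 cl6 1 1 t0
theorem bx1_0 : BoxOK sI cl6 cl4 cl6 t0 t2 b1_0 :=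
  box_mk (TrL.c (I.pos (nat_lit 0) (nat_lit 0)) (xa (xb (xa T0.l0 T0.l0) (xa (xb T0.l0 T0.l0) T0.l0)) (xb (xa T0.l0 T0.l0) (xa T0.l0 T0.l0)))
  (TrL.c (I.pos (nat_lit 0) (nat_lit 0)) T2.l1
  (TrL.c (I.pos (nat_lit 0) (nat_lit 89480386)) (xR (xR T0.l1 T0.l1) (xR T0.l1 T0.l1))
  (TrL.c (I.pos (nat_lit 0) (nat_lit 41530880)) T2.l2
  (TrL.c (I.pos (nat_lit 0) (nat_lit 0)) (xb (xa T2.l3 (xa T2.l3 T2.l3)) (xa T2.l3 (xa T2.l3 (xb T2.l3 (xs T2.l3 T2.l3)))))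
  (TrL.c (I.pos (nat_lit 0) (nat_lit 0)) T0.l2
  (TrL.c (I.mix (nat_lit 41527258) (nat_lit 41530880)) (xR T2.l4 T2.l7)
  (TrL.c (I.mix (nat_lit 41527258) (nat_lit 4274)) T0.l3
  TrL.n)))))))) (by decide +kernel)
theorem bx1_1 : BoxOK sI cl6 cl4 cl6 t0 t2 b1_1 :=
  box_mk (TrL.c (I.pos (nat_lit 0) (nat_lit 0)) (xa (xb (xa T0.l0 T0.l0) T0.l0) T0.l0)
  (TrL.c (I.pos (nat_lit 0) (nat_lit 0)) T2.l1
  (TrL.c (I.pos (nat_lit 0) (nat_lit 89480386)) (xR T0.l1 T0.l1)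
  (TrL.c (I.pos (nat_lit 0) (nat_lit 41530880)) T2.l2
  (TrL.c (I.pos (nat_lit 0) (nat_lit 0)) T2.l3
  (TrL.c (I.pos (nat_lit 0) (nat_lit 0)) T0.l2
  (TrL.c (I.mix (nat_lit 41527258) (nat_lit 41530880)) T2.l4
  (TrL.c (I.mix (nat_lit 41527258) (nat_lit 4274)) T0.l3
  TrL.n)))))))) (by decide +kernel)
theorem bx1_2 : BoxOK sI cl6 cl4 cl6 t0 t2 b1_2 :=
  box_mk (TrL.c (I.pos (nat_lit 0) (nat_lit 0)) T2.l1
  (TrL.c (I.pos (nat_lit 0) (nat_lit 0)) T0.l1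
  (TrL.c (I.mix (nat_lit 41527258) (nat_lit 41530880)) (xR T2.l6 T2.l6)
  (TrL.c (I.mix (nat_lit 41527258) (nat_lit 4274)) T0.l5
  TrL.n)))) (by decide +kernel)
theorem bx1_3 : BoxOK sI cl6 cl4 cl6 t0 t2 b1_3 :=
  box_mk (TrL.c (I.pos (nat_lit 0) (nat_lit 0)) (xb (xa (xb T0.l0 T0.l0) T0.l0) (xa (xb T0.l0 T0.l0) (xb T0.l0 T0.l0)))
  (TrL.c (I.pos (nat_lit 0) (nat_lit 0)) T2.l1
  (TrL.c (I.pos (nat_lit 0) (nat_lit 89480386)) (xR T0.l1 (xR T0.l1 T0.l1))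
  (TrL.c (I.pos (nat_lit 0) (nat_lit 41530880)) T2.l2
  (TrL.c (I.pos (nat_lit 0) (nat_lit 0)) (xb T2.l3 T2.l3)
  (TrL.c (I.pos (nat_lit 0) (nat_lit 0)) T0.l2
  (TrL.c (I.mix (nat_lit 41527258) (nat_lit 41530880)) (xR T2.l4 T2.l7)
  (TrL.c (I.mix (nat_lit 41527258) (nat_lit 4274)) T0.l3
  TrL.n)))))))) (by decide +kernel)
theorem bx1_4 : BoxOK sI cl6 cl4 cl6 t0 t2 b1_4 :=
  box_mk (TrL.c (I.pos (nat_lit 0) (nat_lit 0)) (xb (xa (xb T0.l0 T0.l0) T0.l0) (xa (xb T0.l0 T0.l0) T0.l0))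
  (TrL.c (I.pos (nat_lit 0) (nat_lit 0)) T2.l1
  (TrL.c (I.pos (nat_lit 0) (nat_lit 89480386)) (xR T0.l1 T0.l1)
  (TrL.c (I.pos (nat_lit 0) (nat_lit 41530880)) T2.l4
  (TrL.c (I.pos (nat_lit 0) (nat_lit 0)) T2.l3
  (TrL.c (I.pos (nat_lit 0) (nat_lit 0)) T0.l2
  (TrL.c (I.mix (nat_lit 41527258) (nat_lit 41530880)) (xR T2.l4 T2.l4)
  (TrL.c (I.mix (nat_lit 41527258) (nat_lit 4274)) T0.l8
  TrL.n)))))))) (by decide +kernel)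
theorem bx1_5 : BoxOK sI cl6 cl4 cl6 t0 t2 b1_5 :=
  box_mk (TrL.c (I.pos (nat_lit 0) (nat_lit 0)) T2.l1
  (TrL.c (I.pos (nat_lit 0) (nat_lit 0)) T0.l1
  (TrL.c (I.mix (nat_lit 41527258) (nat_lit 41530880)) (xR T2.l6 T2.l6)
  (TrL.c (I.mix (nat_lit 41527258) (nat_lit 4274)) T0.l5
  TrL.n)))) (by decide +kernel)
theorem sv1 : StarV sI cl6 cl4 cl6 t0 t2 t1 :=
  (bt_n (bt_n (bt_b bx1_0) (bt_n (bt_b bx1_1) (bt_b bx1_2))) (bt_n (bt_b bx1_3) (bt_n (bt_b bx1_4) (bt_b bx1_5))))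
def S1 : StarD := StarD.mk cl6 cl4 cl6 0 2 t1
theorem bx2_0 : BoxOK sI cl6 cl6 cl4 t2 t0 b2_0 :=
  box_mk (TrL.c (I.pos (nat_lit 0) (nat_lit 0)) (xa (xa (xb (xb (xa T2.l0 T2.l0) T2.l0) (xb T2.l0 T2.l0)) (xb (xb (xa T2.l0 T2.l0) T2.l0) (xb T2.l0 T2.l0))) (xa (xb (xb (xa T2.l0 (xs T2.l0 T2.l0)) T2.l0) (xb T2.l0 T2.l0)) (xb (xb (xa (xs T2.l0 T2.l0) (xs T2.l0 (xb T2.l0 T2.l0))) (xa T2.l0 T2.l0)) (xb (xs T2.l0 T2.l0) (xs T2.l0 T2.l0)))))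
  (TrL.c (I.pos (nat_lit 0) (nat_lit 0)) T0.l6
  (TrL.c (I.pos (nat_lit 0) (nat_lit 89480386)) (xR (xR T2.l4 T2.l7) (xR T2.l7 T2.l7))
  (TrL.c (I.pos (nat_lit 0) (nat_lit 41530880)) (xR T0.l7 T0.l7)
  (TrL.c (I.pos (nat_lit 0) (nat_lit 0)) (xa T0.l9 (xb T0.l9 (xa T0.l9 (xb T0.l9 T0.l9))))
  (TrL.c (I.pos (nat_lit 0) (nat_lit 0)) T2.l8
  (TrL.c (I.mix (nat_lit 41527258) (nat_lit 41530880)) (xR (xR T0.l8 T0.l8) T0.l1)
  (TrL.c (I.mix (nat_lit 41527258) (nat_lit 4274)) (xR T2.l9 T2.l9)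
  TrL.n)))))))) (by decide +kernel)
theorem bx2_1 : BoxOK sI cl6 cl6 cl4 t2 t0 b2_1 :=
  box_mk (TrL.c (I.pos (nat_lit 0) (nat_lit 0)) T2.l0
  (TrL.c (I.pos (nat_lit 0) (nat_lit 0)) T0.l6
  (TrL.c (I.pos (nat_lit 0) (nat_lit 89480386)) (xR T2.l7 T2.l7)
  (TrL.c (I.pos (nat_lit 0) (nat_lit 41530880)) T0.l7
  (TrL.c (I.pos (nat_lit 0) (nat_lit 0)) T0.l9
  (TrL.c (I.pos (nat_lit 0) (nat_lit 0)) T2.l8
  (TrL.c (I.mix (nat_lit 41527258) (nat_lit 41530880)) T0.l8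
  (TrL.c (I.mix (nat_lit 41527258) (nat_lit 4274)) T2.l9
  TrL.n)))))))) (by decide +kernel)
theorem bx2_2 : BoxOK sI cl6 cl6 cl4 t2 t0 b2_2 :=
  box_mk (TrL.c (I.pos (nat_lit 0) (nat_lit 0)) T2.l0
  (TrL.c (I.pos (nat_lit 0) (nat_lit 0)) T0.l6
  (TrL.c (I.pos (nat_lit 0) (nat_lit 89480386)) T2.l7
  (TrL.c (I.pos (nat_lit 0) (nat_lit 41530880)) T0.l1
  (TrL.c (I.pos (nat_lit 0) (nat_lit 0)) T0.l9
  (TrL.c (I.pos (nat_lit 0) (nat_lit 0)) T2.l7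
  (TrL.c (I.mix (nat_lit 41527258) (nat_lit 41530880)) T0.l8
  (TrL.c (I.mix (nat_lit 41527258) (nat_lit 4274)) T2.l9
  TrL.n)))))))) (by decide +kernel)
theorem bx2_3 : BoxOK sI cl6 cl6 cl4 t2 t0 b2_3 :=
  box_mk (TrL.c (I.pos (nat_lit 0) (nat_lit 0)) (xb (xa T2.l0 T2.l0) (xa (xb T2.l0 T2.l0) (xb T2.l0 T2.l0)))
  (TrL.c (I.pos (nat_lit 0) (nat_lit 0)) T0.l6
  (TrL.c (I.pos (nat_lit 0) (nat_lit 89480386)) (xR T2.l7 (xR T2.l7 T2.l7))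
  (TrL.c (I.pos (nat_lit 0) (nat_lit 41530880)) T0.l7
  (TrL.c (I.pos (nat_lit 0) (nat_lit 0)) (xb T0.l9 T0.l9)
  (TrL.c (I.pos (nat_lit 0) (nat_lit 0)) T2.l8
  (TrL.c (I.mix (nat_lit 41527258) (nat_lit 41530880)) (xR T0.l8 T0.l8)
  (TrL.c (I.mix (nat_lit 41527258) (nat_lit 4274)) T2.l9
  TrL.n)))))))) (by decide +kernel)
theorem bx2_4 : BoxOK sI cl6 cl6 cl4 t2 t0 b2_4 :=
  box_mk (TrL.c (I.pos (nat_lit 0) (nat_lit 0)) (xa (xa (xb T2.l0 T2.l0) T2.l0) T2.l0)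
  (TrL.c (I.pos (nat_lit 0) (nat_lit 0)) T0.l6
  (TrL.c (I.pos (nat_lit 0) (nat_lit 89480386)) (xR T2.l7 T2.l7)
  (TrL.c (I.pos (nat_lit 0) (nat_lit 41530880)) T0.l7
  (TrL.c (I.pos (nat_lit 0) (nat_lit 0)) T0.l9
  (TrL.c (I.pos (nat_lit 0) (nat_lit 0)) T2.l8
  (TrL.c (I.mix (nat_lit 41527258) (nat_lit 41530880)) (xR T0.l8 T0.l8)
  (TrL.c (I.mix (nat_lit 41527258) (nat_lit 4274)) T2.l9
  TrL.n)))))))) (by decide +kernel)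
theorem bx2_5 : BoxOK sI cl6 cl6 cl4 t2 t0 b2_5 :=
  box_mk (TrL.c (I.pos (nat_lit 0) (nat_lit 0)) T2.l0
  (TrL.c (I.pos (nat_lit 0) (nat_lit 0)) T0.l6
  (TrL.c (I.pos (nat_lit 0) (nat_lit 89480386)) (xR T2.l7 T2.l7)
  (TrL.c (I.pos (nat_lit 0) (nat_lit 41530880)) T0.l7
  (TrL.c (I.pos (nat_lit 0) (nat_lit 0)) T0.l9
  (TrL.c (I.pos (nat_lit 0) (nat_lit 0)) T2.l8
  (TrL.c (I.mix (nat_lit 41527258) (nat_lit 41530880)) T0.l8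
  (TrL.c (I.mix (nat_lit 41527258) (nat_lit 4274)) T2.l9
  TrL.n)))))))) (by decide +kernel)
theorem bx2_6 : BoxOK sI cl6 cl6 cl4 t2 t0 b2_6 :=
  box_mk (TrL.c (I.pos (nat_lit 0) (nat_lit 0)) (xa T2.l0 T2.l0)
  (TrL.c (I.pos (nat_lit 0) (nat_lit 0)) T0.l9
  (TrL.c (I.pos (nat_lit 0) (nat_lit 89480386)) (xR T2.l7 T2.l7)
  (TrL.c (I.pos (nat_lit 0) (nat_lit 41530880)) T0.l1
  (TrL.c (I.pos (nat_lit 0) (nat_lit 0)) T0.l6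
  (TrL.c (I.pos (nat_lit 0) (nat_lit 0)) T2.l7
  (TrL.c (I.mix (nat_lit 41527258) (nat_lit 41530880)) (xR T0.l8 T0.l1)
  (TrL.c (I.mix (nat_lit 41527258) (nat_lit 4274)) T2.l9
  TrL.n)))))))) (by decide +kernel)
theorem bx2_7 : BoxOK sI cl6 cl6 cl4 t2 t0 b2_7 :=
  box_mk (TrL.c (I.pos (nat_lit 0) (nat_lit 0)) (xa T2.l0 T2.l0)
  (TrL.c (I.pos (nat_lit 0) (nat_lit 0)) T0.l6
  (TrL.c (I.pos (nat_lit 0) (nat_lit 89480386)) T2.l7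
  (TrL.c (I.pos (nat_lit 0) (nat_lit 41530880)) T0.l7
  (TrL.c (I.pos (nat_lit 0) (nat_lit 0)) T0.l9
  (TrL.c (I.pos (nat_lit 0) (nat_lit 0)) T2.l8
  (TrL.c (I.mix (nat_lit 41527258) (nat_lit 41530880)) T0.l8
  (TrL.c (I.mix (nat_lit 41527258) (nat_lit 4274)) T2.l9
  TrL.n)))))))) (by decide +kernel)
theorem bx2_8 : BoxOK sI cl6 cl6 cl4 t2 t0 b2_8 :=
  box_mk (TrL.c (I.pos (nat_lit 0) (nat_lit 0)) T2.l0
  (TrL.c (I.pos (nat_lit 0) (nat_lit 0)) T0.l6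
  (TrL.c (I.pos (nat_lit 0) (nat_lit 89480386)) (xR T2.l7 T2.l7)
  (TrL.c (I.pos (nat_lit 0) (nat_lit 41530880)) T0.l7
  (TrL.c (I.pos (nat_lit 0) (nat_lit 0)) T0.l9
  (TrL.c (I.pos (nat_lit 0) (nat_lit 0)) T2.l8
  (TrL.c (I.mix (nat_lit 41527258) (nat_lit 41530880)) T0.l8
  (TrL.c (I.mix (nat_lit 41527258) (nat_lit 4274)) T2.l9
  TrL.n)))))))) (by decide +kernel)
theorem bx2_9 : BoxOK sI cl6 cl6 cl4 t2 t0 b2_9 :=
  box_mk (TrL.c (I.pos (nat_lit 0) (nat_lit 0)) (xa (xb T2.l0 T2.l0) T2.l0)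
  (TrL.c (I.pos (nat_lit 0) (nat_lit 0)) T0.l9
  (TrL.c (I.pos (nat_lit 0) (nat_lit 89480386)) T2.l7
  (TrL.c (I.pos (nat_lit 0) (nat_lit 41530880)) T0.l1
  (TrL.c (I.pos (nat_lit 0) (nat_lit 0)) T0.l6
  (TrL.c (I.pos (nat_lit 0) (nat_lit 0)) T2.l7
  (TrL.c (I.mix (nat_lit 41527258) (nat_lit 41530880)) (xR T0.l8 T0.l1)
  (TrL.c (I.mix (nat_lit 41527258) (nat_lit 4274)) T2.l9
  TrL.n)))))))) (by decide +kernel)
theorem sv2 : StarV sI cl6 cl6 cl4 t2 t0 t2 :=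
  (bt_n (bt_n (bt_n (bt_b bx2_0) (bt_b bx2_1)) (bt_n (bt_b bx2_2) (bt_n (bt_b bx2_3) (bt_b bx2_4)))) (bt_n (bt_n (bt_b bx2_5) (bt_b bx2_6)) (bt_n (bt_b bx2_7) (bt_n (bt_b bx2_8) (bt_b bx2_9)))))
def S2 : StarD := StarD.mk cl6 cl6 cl4 2 0 t2
def G : List StarD := [S0, S1, S2]
theorem so0 : StarOK sI G S0 :=
  star_mk (by decide) (by decide) rfl rfl rfl rfl rfl rfl (rfl : _ = t1) (rfl : _ = t1)
  (st_mk (Pth.l (Pth.l (Pth.l Pth.z))) (nat_lit 194181591) (nat_lit 195661406) (by decide +kernel))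
  (st_mk (Pth.l (Pth.l (Pth.l Pth.z))) (nat_lit 232587261) (nat_lit 234752203) (by decide +kernel))
  (st_mk (Pth.l (Pth.l (Pth.l Pth.z))) (nat_lit 277792037) (nat_lit 280957507) (by decide +kernel)) sv0
theorem so1 : StarOK sI G S1 :=
  star_mk (by decide) (by decide) rfl rfl rfl rfl rfl rfl (rfl : _ = t0) (rfl : _ = t2)
  (st_mk (Pth.l (Pth.l Pth.z)) (nat_lit 375105699) (nat_lit 376879964) (by decide +kernel))
  (st_mk (Pth.l (Pth.l Pth.z)) (nat_lit 412079312) (nat_lit 414231946) (by decide +kernel))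
  (st_mk (Pth.l (Pth.l Pth.z)) (nat_lit 455000449) (nat_lit 457642204) (by decide +kernel)) sv1
theorem so2 : StarOK sI G S2 :=
  star_mk (by decide) (by decide) rfl rfl rfl rfl rfl rfl (rfl : _ = t2) (rfl : _ = t0)
  (st_mk (Pth.l (Pth.l (Pth.l Pth.z))) (nat_lit 190090672) (nat_lit 190788676) (by decide +kernel))
  (st_mk (Pth.l (Pth.l (Pth.l Pth.z))) (nat_lit 226667039) (nat_lit 227665236) (by decide +kernel))
  (st_mk (Pth.l (Pth.l (Pth.l Pth.z))) (nat_lit 269260006) (nat_lit 270681088) (by decide +kernel)) sv2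
theorem ok : GroupOK (nat_lit 91226112) (nat_lit 150339584) G := grp_mk (allS_c so0 (allS_c so1 (allS_c so2 allS_n)))
theorem cov : GCov G cl4 cl6 cl6 := cov_mk
  ⟨0, by decide, rfl, rfl, rfl⟩ ⟨0, by decide, rfl, rfl, rfl⟩ ⟨1, by decide, rfl, rfl, rfl⟩ ⟨2, by decide, rfl, rfl, rfl⟩ ⟨1, by decide, rfl, rfl, rfl⟩ ⟨2, by decide, rfl, rfl, rfl⟩
end Q133_1

namespace Q133_2
def sI : I := I.pos (nat_lit 150274048) (nat_lit 209387520)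
def b0_0 : Bx := Bx.mk (St.mk (I.pos (nat_lit 151060480) (nat_lit 230572032)) (I.mix (nat_lit 1916928) (nat_lit 67272704)) (I.mix (nat_lit 2113536) (nat_lit 73580544)) (I.pos (nat_lit 191840256) (nat_lit 309968896)) (I.mix (nat_lit 127746048) (nat_lit 87195648)) (I.mix (nat_lit 81690624) (nat_lit 71843840)) (I.mix (nat_lit 130465792) (nat_lit 115818496)))
  false (nat_lit 0)
def b0_1 : Bx := Bx.mk (St.mk (I.mix (nat_lit 40189952) (nat_lit 94879744)) (I.mix (nat_lit 8568832) (nat_lit 43794432)) (I.mix (nat_lit 26787840) (nat_lit 3457024)) (I.pos (nat_lit 76382208) (nat_lit 127074304)) (I.mix (nat_lit 49070080) (nat_lit 68796416)) (I.mix (nat_lit 52985856) (nat_lit 39649280)) (I.mix (nat_lit 35127296) (nat_lit 23379968)))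
  false (nat_lit 0)
def b0_2 : Bx := Bx.mk (St.mk (I.pos (nat_lit 77840384) (nat_lit 119619584)) (I.mix (nat_lit 58687488) (nat_lit 10354688)) (I.neg (nat_lit 14499840) (nat_lit 64536576)) (I.pos (nat_lit 112263168) (nat_lit 144654336)) (I.mix (nat_lit 105332736) (nat_lit 46514176)) (I.mix (nat_lit 48349184) (nat_lit 83591168)) (I.mix (nat_lit 33456128) (nat_lit 58654720)))
  false (nat_lit 0)
def b0_3 : Bx := Bx.mk (St.mk (I.mix (nat_lit 43352064) (nat_lit 28000256)) (I.mix (nat_lit 34373632) (nat_lit 6356992)) (I.neg (nat_lit 5570560) (nat_lit 19349504)) (I.pos (nat_lit 83279872) (nat_lit 101859328)) (I.mix (nat_lit 49872896) (nat_lit 33587200)) (I.mix (nat_lit 24625152) (nat_lit 37240832)) (I.mix (nat_lit 15122432) (nat_lit 9437184)))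
  false (nat_lit 0)
def b0_4 : Bx := Bx.mk (St.mk (I.pos (nat_lit 184434688) (nat_lit 245268480)) (I.mix (nat_lit 16285696) (nat_lit 63307776)) (I.mix (nat_lit 81362944) (nat_lit 62898176)) (I.pos (nat_lit 251625472) (nat_lit 331005952)) (I.mix (nat_lit 124370944) (nat_lit 97484800)) (I.mix (nat_lit 101072896) (nat_lit 82771968)) (I.mix (nat_lit 174440448) (nat_lit 149225472)))
  false (nat_lit 0)
def b0_5 : Bx := Bx.mk (St.mk (I.pos (nat_lit 71663616) (nat_lit 91537408)) (I.mix (nat_lit 12222464) (nat_lit 10436608)) (I.neg (nat_lit 13238272) (nat_lit 28950528)) (I.pos (nat_lit 109133824) (nat_lit 122945536)) (I.mix (nat_lit 42663936) (nat_lit 29245440)) (I.mix (nat_lit 28721152) (nat_lit 26869760)) (I.mix (nat_lit 18513920) (nat_lit 19808256)))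
  false (nat_lit 0)
def b0_6 : Bx := Bx.mk (St.mk (I.mix (nat_lit 58851328) (nat_lit 5177344)) (I.mix (nat_lit 10223616) (nat_lit 15007744)) (I.neg (nat_lit 12369920) (nat_lit 23035904)) (I.pos (nat_lit 87965696) (nat_lit 103350272)) (I.mix (nat_lit 34652160) (nat_lit 28590080)) (I.mix (nat_lit 26361856) (nat_lit 26017792)) (I.mix (nat_lit 10977280) (nat_lit 11354112)))
  false (nat_lit 0)
def b0_7 : Bx := Bx.mk (St.mk (I.pos (nat_lit 210960384) (nat_lit 256901120)) (I.mix (nat_lit 18169856) (nat_lit 20414464)) (I.neg (nat_lit 20660224) (nat_lit 93388800)) (I.pos (nat_lit 279216128) (nat_lit 359333888)) (I.mix (nat_lit 114425856) (nat_lit 27344896)) (I.mix (nat_lit 60473344) (nat_lit 68272128)) (I.mix (nat_lit 96845824) (nat_lit 136052736)))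
  false (nat_lit 0)
def b0_8 : Bx := Bx.mk (St.mk (I.pos (nat_lit 68911104) (nat_lit 164986880)) (I.neg (nat_lit 1212416) (nat_lit 61685760)) (I.neg (nat_lit 11730944) (nat_lit 67420160)) (I.pos (nat_lit 116621312) (nat_lit 197378048)) (I.mix (nat_lit 112721920) (nat_lit 52903936)) (I.mix (nat_lit 47841280) (nat_lit 77135872)) (I.mix (nat_lit 33112064) (nat_lit 61276160)))
  false (nat_lit 0)
def b0_9 : Bx := Bx.mk (St.mk (I.mix (nat_lit 40370176) (nat_lit 50921472)) (I.mix (nat_lit 35209216) (nat_lit 8306688)) (I.neg (nat_lit 6455296) (nat_lit 23248896)) (I.pos (nat_lit 81526784) (nat_lit 102711296)) (I.mix (nat_lit 46956544) (nat_lit 36175872)) (I.mix (nat_lit 26099712) (nat_lit 35700736)) (I.mix (nat_lit 14024704) (nat_lit 14761984)))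
  false (nat_lit 0)
def b0_10 : Bx := Bx.mk (St.mk (I.mix (nat_lit 52707328) (nat_lit 87310336)) (I.mix (nat_lit 12468224) (nat_lit 40812544)) (I.mix (nat_lit 28770304) (nat_lit 1327104)) (I.pos (nat_lit 81281024) (nat_lit 114556928)) (I.mix (nat_lit 44793856) (nat_lit 61407232)) (I.mix (nat_lit 45645824) (nat_lit 37421056)) (I.mix (nat_lit 20955136) (nat_lit 21184512)))
  false (nat_lit 0)
def b0_11 : Bx := Bx.mk (St.mk (I.pos (nat_lit 133120000) (nat_lit 191234048)) (I.mix (nat_lit 37306368) (nat_lit 7176192)) (I.neg (nat_lit 376832) (nat_lit 49823744)) (I.pos (nat_lit 161366016) (nat_lit 231636992)) (I.mix (nat_lit 63750144) (nat_lit 61276160)) (I.mix (nat_lit 61308928) (nat_lit 58621952)) (I.mix (nat_lit 61931520) (nat_lit 54640640)))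
  false (nat_lit 0)
def b0_12 : Bx := Bx.mk (St.mk (I.pos (nat_lit 155942912) (nat_lit 193282048)) (I.mix (nat_lit 12615680) (nat_lit 30474240)) (I.mix (nat_lit 17940480) (nat_lit 32112640)) (I.pos (nat_lit 198606848) (nat_lit 235470848)) (I.mix (nat_lit 114622464) (nat_lit 69140480)) (I.mix (nat_lit 117391360) (nat_lit 64569344)) (I.mix (nat_lit 116342784) (nat_lit 60325888)))
  false (nat_lit 0)
def b0_13 : Bx := Bx.mk (St.mk (I.pos (nat_lit 157007872) (nat_lit 209879040)) (I.mix (nat_lit 5619712) (nat_lit 64962560)) (I.mix (nat_lit 6307840) (nat_lit 71057408)) (I.pos (nat_lit 198033408) (nat_lit 270942208)) (I.mix (nat_lit 138936320) (nat_lit 54231040)) (I.mix (nat_lit 120979456) (nat_lit 83558400)) (I.mix (nat_lit 111640576) (nat_lit 82198528)))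
  false (nat_lit 0)
def t0 : BTr := (BTr.n (BTr.n (BTr.n (BTr.b b0_0) (BTr.n (BTr.b b0_1) (BTr.b b0_2))) (BTr.n (BTr.n (BTr.b b0_3) (BTr.b b0_4)) (BTr.n (BTr.b b0_5) (BTr.b b0_6)))) (BTr.n (BTr.n (BTr.b b0_7) (BTr.n (BTr.b b0_8) (BTr.b b0_9))) (BTr.n (BTr.n (BTr.b b0_10) (BTr.b b0_11)) (BTr.n (BTr.b b0_12) (BTr.b b0_13)))))
namespace T0
def l0 : Tr := Tr.L (Pth.l (Pth.l (Pth.l Pth.z)))
def l1 : Tr := Tr.L (Pth.l (Pth.l (Pth.r (Pth.l Pth.z))))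
def l2 : Tr := Tr.L (Pth.l (Pth.l (Pth.r (Pth.r Pth.z))))
def l3 : Tr := Tr.L (Pth.l (Pth.r (Pth.l (Pth.l Pth.z))))
def l4 : Tr := Tr.L (Pth.l (Pth.r (Pth.l (Pth.r Pth.z))))
def l5 : Tr := Tr.L (Pth.l (Pth.r (Pth.r (Pth.l Pth.z))))
def l6 : Tr := Tr.L (Pth.l (Pth.r (Pth.r (Pth.r Pth.z))))
def l7 : Tr := Tr.L (Pth.r (Pth.l (Pth.l Pth.z)))
def l8 : Tr := Tr.L (Pth.r (Pth.l (Pth.r (Pth.l Pth.z))))
def l9 : Tr := Tr.L (Pth.r (Pth.l (Pth.r (Pth.r Pth.z))))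
def l10 : Tr := Tr.L (Pth.r (Pth.r (Pth.l (Pth.l Pth.z))))
def l11 : Tr := Tr.L (Pth.r (Pth.r (Pth.l (Pth.r Pth.z))))
def l12 : Tr := Tr.L (Pth.r (Pth.r (Pth.r (Pth.l Pth.z))))
def l13 : Tr := Tr.L (Pth.r (Pth.r (Pth.r (Pth.r Pth.z))))
end T0
def b1_0 : Bx := Bx.mk (St.mk (I.pos (nat_lit 130908160) (nat_lit 217350144)) (I.mix (nat_lit 2686976) (nat_lit 94699520)) (I.mix (nat_lit 2899968) (nat_lit 102088704)) (I.pos (nat_lit 371376128) (nat_lit 463683584)) (I.mix (nat_lit 181469184) (nat_lit 101138432)) (I.mix (nat_lit 111034368) (nat_lit 91586560)) (I.mix (nat_lit 124190720) (nat_lit 125927424)))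
  false (nat_lit 37829271)
def b1_1 : Bx := Bx.mk (St.mk (I.pos (nat_lit 20512768) (nat_lit 127287296)) (I.neg (nat_lit 1114112) (nat_lit 93995008)) (I.mix (nat_lit 76791808) (nat_lit 6242304)) (I.pos (nat_lit 271319040) (nat_lit 338657280)) (I.mix (nat_lit 132694016) (nat_lit 90144768)) (I.mix (nat_lit 86392832) (nat_lit 92372992)) (I.mix (nat_lit 90554368) (nat_lit 76791808)))
  false (nat_lit 47858749)
def b1_2 : Bx := Bx.mk (St.mk (I.mix (nat_lit 58376192) (nat_lit 21708800)) (I.mix (nat_lit 18743296) (nat_lit 89063424)) (I.neg (nat_lit 41992192) (nat_lit 62783488)) (I.pos (nat_lit 266797056) (nat_lit 296370176)) (I.mix (nat_lit 66125824) (nat_lit 122142720)) (I.mix (nat_lit 92471296) (nat_lit 78970880)) (I.mix (nat_lit 49020928) (nat_lit 38600704)))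
  true (nat_lit 0)
def b1_3 : Bx := Bx.mk (St.mk (I.pos (nat_lit 86261760) (nat_lit 181239808)) (I.mix (nat_lit 45400064) (nat_lit 84410368)) (I.mix (nat_lit 30654464) (nat_lit 95387648)) (I.pos (nat_lit 304431104) (nat_lit 419659776)) (I.mix (nat_lit 175489024) (nat_lit 78348288)) (I.mix (nat_lit 144048128) (nat_lit 108986368)) (I.mix (nat_lit 154337280) (nat_lit 138444800)))
  false (nat_lit 16898661)
def b1_4 : Bx := Bx.mk (St.mk (I.pos (nat_lit 9453568) (nat_lit 57524224)) (I.neg (nat_lit 30064640) (nat_lit 89063424)) (I.neg (nat_lit 43073536) (nat_lit 62783488)) (I.pos (nat_lit 272056320) (nat_lit 296206336)) (I.mix (nat_lit 122142720) (nat_lit 66125824)) (I.mix (nat_lit 78970880) (nat_lit 92536832)) (I.mix (nat_lit 49020928) (nat_lit 38600704)))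
  false (nat_lit 23369598)
def b1_5 : Bx := Bx.mk (St.mk (I.neg (nat_lit 20512768) (nat_lit 130859008)) (I.pos (nat_lit 1114112) (nat_lit 94060544)) (I.mix (nat_lit 76791808) (nat_lit 7815168)) (I.pos (nat_lit 271302656) (nat_lit 341737472)) (I.mix (nat_lit 90144768) (nat_lit 132694016)) (I.mix (nat_lit 92372992) (nat_lit 86392832)) (I.mix (nat_lit 90570752) (nat_lit 76791808)))
  true (nat_lit 0)
def b1_6 : Bx := Bx.mk (St.mk (I.pos (nat_lit 170180608) (nat_lit 293191680)) (I.mix (nat_lit 38797312) (nat_lit 57425920)) (I.mix (nat_lit 174850048) (nat_lit 24608768)) (I.pos (nat_lit 403488768) (nat_lit 604160000)) (I.mix (nat_lit 103776256) (nat_lit 79740928)) (I.mix (nat_lit 79462400) (nat_lit 75792384)) (I.mix (nat_lit 144605184) (nat_lit 149159936)))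
  false (nat_lit 0)
def b1_7 : Bx := Bx.mk (St.mk (I.mix (nat_lit 21708800) (nat_lit 46235648)) (I.mix (nat_lit 46383104) (nat_lit 19562496)) (I.neg (nat_lit 41992192) (nat_lit 50642944)) (I.pos (nat_lit 267124736) (nat_lit 281935872)) (I.mix (nat_lit 58916864) (nat_lit 53100544)) (I.mix (nat_lit 43106304) (nat_lit 48381952)) (I.mix (nat_lit 13778944) (nat_lit 15450112)))
  false (nat_lit 0)
def b1_8 : Bx := Bx.mk (St.mk (I.pos (nat_lit 12746752) (nat_lit 46563328)) (I.neg (nat_lit 21938176) (nat_lit 74678272)) (I.neg (nat_lit 44548096) (nat_lit 60391424)) (I.pos (nat_lit 271761408) (nat_lit 288194560)) (I.mix (nat_lit 107380736) (nat_lit 40763392)) (I.mix (nat_lit 44777472) (nat_lit 84557824)) (I.mix (nat_lit 29786112) (nat_lit 21037056)))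
  false (nat_lit 0)
def b1_9 : Bx := Bx.mk (St.mk (I.pos (nat_lit 150585344) (nat_lit 211795968)) (I.pos (nat_lit 22659072) (nat_lit 93716480)) (I.mix (nat_lit 6307840) (nat_lit 92307456)) (I.pos (nat_lit 396099584) (nat_lit 457605120)) (I.mix (nat_lit 131842048) (nat_lit 104939520)) (I.mix (nat_lit 100368384) (nat_lit 81166336)) (I.mix (nat_lit 157696000) (nat_lit 114065408)))
  false (nat_lit 375857)
def t1 : BTr := (BTr.n (BTr.n (BTr.n (BTr.b b1_0) (BTr.b b1_1)) (BTr.n (BTr.b b1_2) (BTr.n (BTr.b b1_3) (BTr.b b1_4)))) (BTr.n (BTr.n (BTr.b b1_5) (BTr.b b1_6)) (BTr.n (BTr.b b1_7) (BTr.n (BTr.b b1_8) (BTr.b b1_9)))))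
namespace T1
def l0 : Tr := Tr.L (Pth.l (Pth.l (Pth.l Pth.z)))
def l1 : Tr := Tr.L (Pth.l (Pth.l (Pth.r Pth.z)))
def l2 : Tr := Tr.L (Pth.l (Pth.r (Pth.l Pth.z)))
def l3 : Tr := Tr.L (Pth.l (Pth.r (Pth.r (Pth.l Pth.z))))
def l4 : Tr := Tr.L (Pth.l (Pth.r (Pth.r (Pth.r Pth.z))))
def l5 : Tr := Tr.L (Pth.r (Pth.l (Pth.l Pth.z)))
def l6 : Tr := Tr.L (Pth.r (Pth.l (Pth.r Pth.z)))
def l7 : Tr := Tr.L (Pth.r (Pth.r (Pth.l Pth.z)))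
def l8 : Tr := Tr.L (Pth.r (Pth.r (Pth.r (Pth.l Pth.z))))
def l9 : Tr := Tr.L (Pth.r (Pth.r (Pth.r (Pth.r Pth.z))))
end T1
def b2_0 : Bx := Bx.mk (St.mk (I.pos (nat_lit 138297344) (nat_lit 224034816)) (I.mix (nat_lit 1572864) (nat_lit 55328768)) (I.mix (nat_lit 3047424) (nat_lit 108462080)) (I.pos (nat_lit 186335232) (nat_lit 278855680)) (I.mix (nat_lit 124174336) (nat_lit 70107136)) (I.mix (nat_lit 88702976) (nat_lit 72761344)) (I.mix (nat_lit 116867072) (nat_lit 90128384)))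
  false (nat_lit 0)
def b2_1 : Bx := Bx.mk (St.mk (I.pos (nat_lit 86196224) (nat_lit 157794304)) (I.neg (nat_lit 5210112) (nat_lit 64782336)) (I.mix (nat_lit 41435136) (nat_lit 17481728)) (I.pos (nat_lit 132513792) (nat_lit 185483264)) (I.mix (nat_lit 90570752) (nat_lit 71860224)) (I.mix (nat_lit 54902784) (nat_lit 75595776)) (I.mix (nat_lit 44269568) (nat_lit 64815104)))
  false (nat_lit 0)
def b2_2 : Bx := Bx.mk (St.mk (I.mix (nat_lit 28770304) (nat_lit 42909696)) (I.mix (nat_lit 34553856) (nat_lit 5603328)) (I.mix (nat_lit 655360) (nat_lit 12107776)) (I.pos (nat_lit 83902464) (nat_lit 101515264)) (I.mix (nat_lit 28950528) (nat_lit 46104576)) (I.mix (nat_lit 24756224) (nat_lit 34373632)) (I.mix (nat_lit 8388608) (nat_lit 13500416)))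
  false (nat_lit 0)
def b2_3 : Bx := Bx.mk (St.mk (I.pos (nat_lit 146227200) (nat_lit 198705152)) (I.mix (nat_lit 8257536) (nat_lit 57425920)) (I.pos (nat_lit 29540352) (nat_lit 105807872)) (I.pos (nat_lit 175947776) (nat_lit 239517696)) (I.mix (nat_lit 150437888) (nat_lit 45498368)) (I.mix (nat_lit 128450560) (nat_lit 72663040)) (I.mix (nat_lit 133169152) (nat_lit 62537728)))
  false (nat_lit 0)
def b2_4 : Bx := Bx.mk (St.mk (I.mix (nat_lit 46678016) (nat_lit 72646656)) (I.mix (nat_lit 9469952) (nat_lit 41025536)) (I.mix (nat_lit 983040) (nat_lit 23871488)) (I.pos (nat_lit 82264064) (nat_lit 110411776)) (I.mix (nat_lit 51855360) (nat_lit 29327360)) (I.mix (nat_lit 35192832) (nat_lit 23674880)) (I.mix (nat_lit 12894208) (nat_lit 14270464)))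
  false (nat_lit 0)
def b2_5 : Bx := Bx.mk (St.mk (I.pos (nat_lit 145883136) (nat_lit 187482112)) (I.mix (nat_lit 41533440) (nat_lit 24379392)) (I.mix (nat_lit 9945088) (nat_lit 65896448)) (I.pos (nat_lit 174243840) (nat_lit 220512256)) (I.mix (nat_lit 111837184) (nat_lit 78200832)) (I.mix (nat_lit 110510080) (nat_lit 67125248)) (I.mix (nat_lit 107741184) (nat_lit 65601536)))
  false (nat_lit 0)
def b2_6 : Bx := Bx.mk (St.mk (I.pos (nat_lit 115490816) (nat_lit 158892032)) (I.neg (nat_lit 3375104) (nat_lit 43581440)) (I.mix (nat_lit 15155200) (nat_lit 24838144)) (I.pos (nat_lit 150159360) (nat_lit 185073664)) (I.mix (nat_lit 76660736) (nat_lit 48218112)) (I.mix (nat_lit 39387136) (nat_lit 53936128)) (I.mix (nat_lit 39829504) (nat_lit 44810240)))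
  false (nat_lit 0)
def b2_7 : Bx := Bx.mk (St.mk (I.mix (nat_lit 61341696) (nat_lit 47202304)) (I.mix (nat_lit 17137664) (nat_lit 12976128)) (I.pos (nat_lit 4521984) (nat_lit 15138816)) (I.pos (nat_lit 85065728) (nat_lit 103890944)) (I.mix (nat_lit 38273024) (nat_lit 28868608)) (I.mix (nat_lit 25821184) (nat_lit 27394048)) (I.mix (nat_lit 11878400) (nat_lit 11517952)))
  false (nat_lit 0)
def b2_8 : Bx := Bx.mk (St.mk (I.pos (nat_lit 141672448) (nat_lit 168787968)) (I.neg (nat_lit 10502144) (nat_lit 34897920)) (I.mix (nat_lit 7192576) (nat_lit 18579456)) (I.pos (nat_lit 172015616) (nat_lit 200343552)) (I.mix (nat_lit 37634048) (nat_lit 30654464)) (I.mix (nat_lit 24395776) (nat_lit 24690688)) (I.mix (nat_lit 25329664) (nat_lit 24756224)))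
  false (nat_lit 0)
def b2_9 : Bx := Bx.mk (St.mk (I.mix (nat_lit 55443456) (nat_lit 101580800)) (I.mix (nat_lit 11730944) (nat_lit 44400640)) (I.mix (nat_lit 4030464) (nat_lit 33931264)) (I.pos (nat_lit 72433664) (nat_lit 129400832)) (I.mix (nat_lit 71696384) (nat_lit 50774016)) (I.mix (nat_lit 50069504) (nat_lit 37273600)) (I.mix (nat_lit 33538048) (nat_lit 27787264)))
  false (nat_lit 0)
def b2_10 : Bx := Bx.mk (St.mk (I.pos (nat_lit 74514432) (nat_lit 132005888)) (I.mix (nat_lit 67321856) (nat_lit 10878976)) (I.mix (nat_lit 39845888) (nat_lit 10371072)) (I.pos (nat_lit 113131520) (nat_lit 157384704)) (I.mix (nat_lit 91783168) (nat_lit 38797312)) (I.mix (nat_lit 50872320) (nat_lit 71024640)) (I.mix (nat_lit 36782080) (nat_lit 43810816)))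
  false (nat_lit 0)
def b2_11 : Bx := Bx.mk (St.mk (I.mix (nat_lit 50610176) (nat_lit 37797888)) (I.mix (nat_lit 34947072) (nat_lit 9371648)) (I.mix (nat_lit 294912) (nat_lit 14893056)) (I.pos (nat_lit 82640896) (nat_lit 102449152)) (I.mix (nat_lit 35405824) (nat_lit 40419328)) (I.mix (nat_lit 24018944) (nat_lit 32882688)) (I.mix (nat_lit 12910592) (nat_lit 11780096)))
  false (nat_lit 0)
def b2_12 : Bx := Bx.mk (St.mk (I.pos (nat_lit 185139200) (nat_lit 289718272)) (I.mix (nat_lit 33161216) (nat_lit 41549824)) (I.mix (nat_lit 54476800) (nat_lit 89341952)) (I.pos (nat_lit 238731264) (nat_lit 420118528)) (I.mix (nat_lit 98402304) (nat_lit 70516736)) (I.mix (nat_lit 74743808) (nat_lit 63242240)) (I.mix (nat_lit 133562368) (nat_lit 107839488)))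
  false (nat_lit 0)
def b2_13 : Bx := Bx.mk (St.mk (I.pos (nat_lit 170246144) (nat_lit 221003776)) (I.pos (nat_lit 10027008) (nat_lit 55132160)) (I.pos (nat_lit 35586048) (nat_lit 108904448)) (I.pos (nat_lit 222494720) (nat_lit 274186240)) (I.mix (nat_lit 106921984) (nat_lit 78872576)) (I.mix (nat_lit 89980928) (nat_lit 68845568)) (I.mix (nat_lit 138674176) (nat_lit 83607552)))
  false (nat_lit 0)
def t2 : BTr := (BTr.n (BTr.n (BTr.n (BTr.b b2_0) (BTr.n (BTr.b b2_1) (BTr.b b2_2))) (BTr.n (BTr.n (BTr.b b2_3) (BTr.b b2_4)) (BTr.n (BTr.b b2_5) (BTr.b b2_6)))) (BTr.n (BTr.n (BTr.b b2_7) (BTr.n (BTr.b b2_8) (BTr.b b2_9))) (BTr.n (BTr.n (BTr.b b2_10) (BTr.b b2_11)) (BTr.n (BTr.b b2_12) (BTr.b b2_13)))))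
namespace T2
def l0 : Tr := Tr.L (Pth.l (Pth.l (Pth.l Pth.z)))
def l1 : Tr := Tr.L (Pth.l (Pth.l (Pth.r (Pth.l Pth.z))))
def l2 : Tr := Tr.L (Pth.l (Pth.l (Pth.r (Pth.r Pth.z))))
def l3 : Tr := Tr.L (Pth.l (Pth.r (Pth.l (Pth.l Pth.z))))
def l4 : Tr := Tr.L (Pth.l (Pth.r (Pth.l (Pth.r Pth.z))))
def l5 : Tr := Tr.L (Pth.l (Pth.r (Pth.r (Pth.l Pth.z))))
def l6 : Tr := Tr.L (Pth.l (Pth.r (Pth.r (Pth.r Pth.z))))
def l7 : Tr := Tr.L (Pth.r (Pth.l (Pth.l Pth.z)))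
def l8 : Tr := Tr.L (Pth.r (Pth.l (Pth.r (Pth.l Pth.z))))
def l9 : Tr := Tr.L (Pth.r (Pth.l (Pth.r (Pth.r Pth.z))))
def l10 : Tr := Tr.L (Pth.r (Pth.r (Pth.l (Pth.l Pth.z))))
def l11 : Tr := Tr.L (Pth.r (Pth.r (Pth.l (Pth.r Pth.z))))
def l12 : Tr := Tr.L (Pth.r (Pth.r (Pth.r (Pth.l Pth.z))))
def l13 : Tr := Tr.L (Pth.r (Pth.r (Pth.r (Pth.r Pth.z))))
end T2
theorem bx0_0 : BoxOK sI cl4 cl6 cl6 t1 t1 b0_0 :=
  box_mk (TrL.c (I.pos (nat_lit 0) (nat_lit 0)) (xa (xb (xa T1.l9 T1.l0) (xa (xb T1.l0 T1.l0) T1.l0)) (xb T1.l0 (xa T1.l0 T1.l0)))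
  (TrL.c (I.pos (nat_lit 0) (nat_lit 0)) (xa T1.l1 T1.l1)
  (TrL.c (I.pos (nat_lit 0) (nat_lit 0)) T1.l2
  (TrL.c (I.pos (nat_lit 0) (nat_lit 0)) (xa T1.l3 (xb T1.l3 T1.l3))
  (TrL.c (I.pos (nat_lit 0) (nat_lit 0)) T1.l4
  (TrL.c (I.pos (nat_lit 0) (nat_lit 0)) (xa T1.l5 T1.l5)
  TrL.n)))))) (by decide +kernel)
theorem bx0_1 : BoxOK sI cl4 cl6 cl6 t1 t1 b0_1 :=
  box_mk (TrL.c (I.pos (nat_lit 0) (nat_lit 0)) (xa (xa (xb (xa (xb (xa T1.l6 T1.l6) T1.l6) T1.l6) (xa (xb T1.l6 (xa T1.l6 T1.l6)) (xb T1.l6 T1.l6))) (xb T1.l6 (xa T1.l6 T1.l6))) (xa (xb T1.l6 T1.l6) (xb T1.l6 (xa T1.l6 T1.l6))))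
  (TrL.c (I.pos (nat_lit 0) (nat_lit 0)) (xa T1.l3 T1.l1)
  (TrL.c (I.pos (nat_lit 0) (nat_lit 0)) T1.l2
  (TrL.c (I.pos (nat_lit 0) (nat_lit 0)) (xa T1.l1 T1.l3)
  (TrL.c (I.pos (nat_lit 0) (nat_lit 0)) T1.l7
  (TrL.c (I.pos (nat_lit 0) (nat_lit 0)) T1.l5
  TrL.n)))))) (by decide +kernel)
theorem bx0_2 : BoxOK sI cl4 cl6 cl6 t1 t1 b0_2 :=
  box_mk (TrL.c (I.pos (nat_lit 0) (nat_lit 0)) (xb (xa T1.l6 T1.l6) (xa T1.l6 T1.l6))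
  (TrL.c (I.pos (nat_lit 0) (nat_lit 0)) T1.l1
  (TrL.c (I.pos (nat_lit 0) (nat_lit 0)) T1.l2
  (TrL.c (I.pos (nat_lit 0) (nat_lit 0)) T1.l3
  (TrL.c (I.pos (nat_lit 0) (nat_lit 0)) T1.l7
  (TrL.c (I.pos (nat_lit 0) (nat_lit 0)) T1.l5
  TrL.n)))))) (by decide +kernel)
theorem bx0_3 : BoxOK sI cl4 cl6 cl6 t1 t1 b0_3 :=
  box_mk (TrL.c (I.pos (nat_lit 0) (nat_lit 0)) (xa (xb T1.l6 T1.l6) T1.l6)
  (TrL.c (I.pos (nat_lit 0) (nat_lit 0)) T1.l3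
  (TrL.c (I.pos (nat_lit 0) (nat_lit 0)) T1.l7
  (TrL.c (I.pos (nat_lit 0) (nat_lit 0)) T1.l3
  (TrL.c (I.pos (nat_lit 0) (nat_lit 0)) T1.l7
  (TrL.c (I.pos (nat_lit 0) (nat_lit 0)) T1.l5
  TrL.n)))))) (by decide +kernel)
theorem bx0_4 : BoxOK sI cl4 cl6 cl6 t1 t1 b0_4 :=
  box_mk (TrL.c (I.pos (nat_lit 0) (nat_lit 0)) (xb (xa (xb T1.l0 T1.l0) T1.l0) (xa (xb T1.l0 T1.l0) (xb T1.l0 T1.l0)))
  (TrL.c (I.pos (nat_lit 0) (nat_lit 0)) (xb T1.l1 T1.l1)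
  (TrL.c (I.pos (nat_lit 0) (nat_lit 0)) T1.l2
  (TrL.c (I.pos (nat_lit 0) (nat_lit 0)) (xb (xa (xb T1.l3 T1.l3) (xb (xa T1.l3 T1.l3) T1.l3)) (xa T1.l3 (xb T1.l3 (xa T1.l3 T1.l3))))
  (TrL.c (I.pos (nat_lit 0) (nat_lit 0)) T1.l4
  (TrL.c (I.pos (nat_lit 0) (nat_lit 0)) (xb T1.l5 T1.l5)
  TrL.n)))))) (by decide +kernel)
theorem bx0_5 : BoxOK sI cl4 cl6 cl6 t1 t1 b0_5 :=
  box_mk (TrL.c (I.pos (nat_lit 0) (nat_lit 0)) T1.l6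
  (TrL.c (I.pos (nat_lit 0) (nat_lit 0)) T1.l1
  (TrL.c (I.pos (nat_lit 0) (nat_lit 0)) T1.l2
  (TrL.c (I.pos (nat_lit 0) (nat_lit 0)) T1.l3
  (TrL.c (I.pos (nat_lit 0) (nat_lit 0)) T1.l7
  (TrL.c (I.pos (nat_lit 0) (nat_lit 0)) T1.l5
  TrL.n)))))) (by decide +kernel)
theorem bx0_6 : BoxOK sI cl4 cl6 cl6 t1 t1 b0_6 :=
  box_mk (TrL.c (I.pos (nat_lit 0) (nat_lit 0)) (xa (xb (xa (xa T1.l6 T1.l6) T1.l6) T1.l6) T1.l6)
  (TrL.c (I.pos (nat_lit 0) (nat_lit 0)) T1.l1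
  (TrL.c (I.pos (nat_lit 0) (nat_lit 0)) T1.l2
  (TrL.c (I.pos (nat_lit 0) (nat_lit 0)) T1.l3
  (TrL.c (I.pos (nat_lit 0) (nat_lit 0)) T1.l7
  (TrL.c (I.pos (nat_lit 0) (nat_lit 0)) T1.l5
  TrL.n)))))) (by decide +kernel)
theorem bx0_7 : BoxOK sI cl4 cl6 cl6 t1 t1 b0_7 :=
  box_mk (TrL.c (I.pos (nat_lit 0) (nat_lit 0)) (xa T1.l0 T1.l3)
  (TrL.c (I.pos (nat_lit 0) (nat_lit 0)) T1.l1
  (TrL.c (I.pos (nat_lit 0) (nat_lit 0)) T1.l5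
  (TrL.c (I.pos (nat_lit 0) (nat_lit 0)) (xa T1.l3 T1.l0)
  (TrL.c (I.pos (nat_lit 0) (nat_lit 0)) T1.l1
  (TrL.c (I.pos (nat_lit 0) (nat_lit 0)) T1.l5
  TrL.n)))))) (by decide +kernel)
theorem bx0_8 : BoxOK sI cl4 cl6 cl6 t1 t1 b0_8 :=
  box_mk (TrL.c (I.pos (nat_lit 0) (nat_lit 0)) (xa (xb (xa T1.l6 T1.l6) (xa T1.l6 T1.l6)) (xb (xa T1.l6 T1.l6) (xa T1.l6 T1.l0)))
  (TrL.c (I.pos (nat_lit 0) (nat_lit 0)) T1.l1
  (TrL.c (I.pos (nat_lit 0) (nat_lit 0)) T1.l2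
  (TrL.c (I.pos (nat_lit 0) (nat_lit 0)) (xa T1.l3 T1.l3)
  (TrL.c (I.pos (nat_lit 0) (nat_lit 0)) T1.l7
  (TrL.c (I.pos (nat_lit 0) (nat_lit 0)) T1.l5
  TrL.n)))))) (by decide +kernel)
theorem bx0_9 : BoxOK sI cl4 cl6 cl6 t1 t1 b0_9 :=
  box_mk (TrL.c (I.pos (nat_lit 0) (nat_lit 0)) (xa (xb T1.l6 T1.l6) T1.l6)
  (TrL.c (I.pos (nat_lit 0) (nat_lit 0)) T1.l1
  (TrL.c (I.pos (nat_lit 0) (nat_lit 0)) T1.l2
  (TrL.c (I.pos (nat_lit 0) (nat_lit 0)) T1.l3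
  (TrL.c (I.pos (nat_lit 0) (nat_lit 0)) T1.l7
  (TrL.c (I.pos (nat_lit 0) (nat_lit 0)) T1.l5
  TrL.n)))))) (by decide +kernel)
theorem bx0_10 : BoxOK sI cl4 cl6 cl6 t1 t1 b0_10 :=
  box_mk (TrL.c (I.pos (nat_lit 0) (nat_lit 0)) (xa (xa (xb (xb (xa (xa T1.l6 T1.l6) T1.l6) (xa T1.l6 T1.l6)) (xa (xb T1.l6 (xa T1.l6 T1.l6)) T1.l6)) (xb T1.l6 T1.l6)) (xa T1.l6 (xb T1.l6 T1.l6)))
  (TrL.c (I.pos (nat_lit 0) (nat_lit 0)) (xa T1.l3 T1.l1)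
  (TrL.c (I.pos (nat_lit 0) (nat_lit 0)) T1.l2
  (TrL.c (I.pos (nat_lit 0) (nat_lit 0)) (xa T1.l1 T1.l3)
  (TrL.c (I.pos (nat_lit 0) (nat_lit 0)) T1.l7
  (TrL.c (I.pos (nat_lit 0) (nat_lit 0)) (xa T1.l5 T1.l5)
  TrL.n)))))) (by decide +kernel)
theorem bx0_11 : BoxOK sI cl4 cl6 cl6 t1 t1 b0_11 :=
  box_mk (TrL.c (I.pos (nat_lit 0) (nat_lit 0)) (xa (xb T1.l6 T1.l9) T1.l9)
  (TrL.c (I.pos (nat_lit 0) (nat_lit 0)) T1.l1
  (TrL.c (I.pos (nat_lit 0) (nat_lit 0)) T1.l2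
  (TrL.c (I.pos (nat_lit 0) (nat_lit 0)) T1.l3
  (TrL.c (I.pos (nat_lit 0) (nat_lit 0)) T1.l1
  (TrL.c (I.pos (nat_lit 0) (nat_lit 0)) T1.l5
  TrL.n)))))) (by decide +kernel)
theorem bx0_12 : BoxOK sI cl4 cl6 cl6 t1 t1 b0_12 :=
  box_mk (TrL.c (I.pos (nat_lit 0) (nat_lit 0)) (xb T1.l9 T1.l9)
  (TrL.c (I.pos (nat_lit 0) (nat_lit 0)) T1.l1
  (TrL.c (I.pos (nat_lit 0) (nat_lit 0)) T1.l2
  (TrL.c (I.pos (nat_lit 0) (nat_lit 0)) T1.l3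
  (TrL.c (I.pos (nat_lit 0) (nat_lit 0)) T1.l4
  (TrL.c (I.pos (nat_lit 0) (nat_lit 0)) T1.l5
  TrL.n)))))) (by decide +kernel)
theorem bx0_13 : BoxOK sI cl4 cl6 cl6 t1 t1 b0_13 :=
  box_mk (TrL.c (I.pos (nat_lit 0) (nat_lit 0)) (xb (xa T1.l9 T1.l9) (xa (xb T1.l9 T1.l9) (xb T1.l9 T1.l9)))
  (TrL.c (I.pos (nat_lit 0) (nat_lit 0)) T1.l1
  (TrL.c (I.pos (nat_lit 0) (nat_lit 0)) T1.l2
  (TrL.c (I.pos (nat_lit 0) (nat_lit 0)) (xb T1.l3 (xa T1.l3 T1.l3))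
  (TrL.c (I.pos (nat_lit 0) (nat_lit 0)) T1.l4
  (TrL.c (I.pos (nat_lit 0) (nat_lit 0)) T1.l5
  TrL.n)))))) (by decide +kernel)
theorem sv0 : StarV sI cl4 cl6 cl6 t1 t1 t0 :=
  (bt_n (bt_n (bt_n (bt_b bx0_0) (bt_n (bt_b bx0_1) (bt_b bx0_2))) (bt_n (bt_n (bt_b bx0_3) (bt_b bx0_4)) (bt_n (bt_b bx0_5) (bt_b bx0_6)))) (bt_n (bt_n (bt_b bx0_7) (bt_n (bt_b bx0_8) (bt_b bx0_9))) (bt_n (bt_n (bt_b bx0_10) (bt_b bx0_11)) (bt_n (bt_b bx0_12) (bt_b bx0_13)))))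
def S0 : StarD := StarD.mk cl4 cl6 cl6 1 1 t0
theorem bx1_0 : BoxOK sI cl6 cl4 cl6 t0 t2 b1_0 :=
  box_mk (TrL.c (I.pos (nat_lit 0) (nat_lit 0)) (xa (xb T0.l4 (xa (xb T0.l0 T0.l0) T0.l0)) (xb T0.l0 (xa T0.l0 T0.l0)))
  (TrL.c (I.pos (nat_lit 0) (nat_lit 0)) T2.l1
  (TrL.c (I.pos (nat_lit 0) (nat_lit 89480386)) T0.l1
  (TrL.c (I.pos (nat_lit 0) (nat_lit 41530880)) T2.l2
  (TrL.c (I.pos (nat_lit 0) (nat_lit 0)) (xb (xa T2.l5 T2.l3) (xa T2.l3 T2.l3))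
  (TrL.c (I.pos (nat_lit 0) (nat_lit 0)) T0.l2
  (TrL.c (I.mix (nat_lit 41527258) (nat_lit 41530880)) T2.l9
  (TrL.c (I.mix (nat_lit 41527258) (nat_lit 4274)) T0.l3
  TrL.n)))))))) (by decide +kernel)
theorem bx1_1 : BoxOK sI cl6 cl4 cl6 t0 t2 b1_1 :=
  box_mk (TrL.c (I.pos (nat_lit 0) (nat_lit 0)) (xa (xb (xa (xb T0.l4 T0.l4) T0.l4) (xa (xb T0.l4 T0.l4) T0.l4)) (xb T0.l4 T0.l4))
  (TrL.c (I.pos (nat_lit 0) (nat_lit 0)) T2.l1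
  (TrL.c (I.pos (nat_lit 0) (nat_lit 89480386)) T0.l1
  (TrL.c (I.pos (nat_lit 0) (nat_lit 41530880)) T2.l7
  (TrL.c (I.pos (nat_lit 0) (nat_lit 0)) (xa T2.l5 T2.l5)
  (TrL.c (I.pos (nat_lit 0) (nat_lit 0)) T0.l2
  (TrL.c (I.mix (nat_lit 41527258) (nat_lit 41530880)) T2.l9
  (TrL.c (I.mix (nat_lit 41527258) (nat_lit 4274)) T0.l3
  TrL.n)))))))) (by decide +kernel)
theorem bx1_2 : BoxOK sI cl6 cl4 cl6 t0 t2 b1_2 :=
  box_mk (TrL.c (I.pos (nat_lit 0) (nat_lit 0)) T2.l6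
  (TrL.c (I.pos (nat_lit 0) (nat_lit 0)) T0.l5
  (TrL.c (I.mix (nat_lit 41527258) (nat_lit 41530880)) T2.l9
  (TrL.c (I.mix (nat_lit 41527258) (nat_lit 4274)) T0.l6
  TrL.n)))) (by decide +kernel)
theorem bx1_3 : BoxOK sI cl6 cl4 cl6 t0 t2 b1_3 :=
  box_mk (TrL.c (I.pos (nat_lit 0) (nat_lit 0)) (xb (xa (xb T0.l4 T0.l4) (xb T0.l4 T0.l4)) (xa (xb T0.l4 (xa T0.l4 T0.l4)) (xb T0.l4 (xa T0.l4 T0.l4))))
  (TrL.c (I.pos (nat_lit 0) (nat_lit 0)) T2.l1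
  (TrL.c (I.pos (nat_lit 0) (nat_lit 89480386)) T0.l1
  (TrL.c (I.pos (nat_lit 0) (nat_lit 41530880)) T2.l2
  (TrL.c (I.pos (nat_lit 0) (nat_lit 0)) (xb (xa T2.l5 T2.l5) (xa T2.l5 T2.l3))
  (TrL.c (I.pos (nat_lit 0) (nat_lit 0)) T0.l2
  (TrL.c (I.mix (nat_lit 41527258) (nat_lit 41530880)) T2.l9
  (TrL.c (I.mix (nat_lit 41527258) (nat_lit 4274)) T0.l3
  TrL.n)))))))) (by decide +kernel)
theorem bx1_4 : BoxOK sI cl6 cl4 cl6 t0 t2 b1_4 :=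
  box_mk (TrL.c (I.pos (nat_lit 0) (nat_lit 0)) (xb (xa T0.l7 T0.l4) T0.l4)
  (TrL.c (I.pos (nat_lit 0) (nat_lit 0)) T2.l1
  (TrL.c (I.pos (nat_lit 0) (nat_lit 89480386)) T0.l1
  (TrL.c (I.pos (nat_lit 0) (nat_lit 41530880)) T2.l4
  (TrL.c (I.pos (nat_lit 0) (nat_lit 0)) T2.l5
  (TrL.c (I.pos (nat_lit 0) (nat_lit 0)) T0.l2
  (TrL.c (I.mix (nat_lit 41527258) (nat_lit 41530880)) T2.l9
  (TrL.c (I.mix (nat_lit 41527258) (nat_lit 4274)) T0.l3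
  TrL.n)))))))) (by decide +kernel)
theorem bx1_5 : BoxOK sI cl6 cl4 cl6 t0 t2 b1_5 :=
  box_mk (TrL.c (I.pos (nat_lit 0) (nat_lit 0)) T2.l6
  (TrL.c (I.pos (nat_lit 0) (nat_lit 0)) T0.l1
  (TrL.c (I.mix (nat_lit 41527258) (nat_lit 41530880)) T2.l7
  (TrL.c (I.mix (nat_lit 41527258) (nat_lit 4274)) T0.l6
  TrL.n)))) (by decide +kernel)
theorem bx1_6 : BoxOK sI cl6 cl4 cl6 t0 t2 b1_6 :=
  box_mk (TrL.c (I.pos (nat_lit 0) (nat_lit 0)) (xa (xb T0.l0 (xa T0.l0 T0.l0)) (xb (xa T0.l0 T0.l0) (xa T0.l0 T0.l0)))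
  (TrL.c (I.pos (nat_lit 0) (nat_lit 0)) T2.l1
  (TrL.c (I.pos (nat_lit 0) (nat_lit 89480386)) T0.l1
  (TrL.c (I.pos (nat_lit 0) (nat_lit 41530880)) T2.l2
  (TrL.c (I.pos (nat_lit 0) (nat_lit 0)) (xa (xb (xa T2.l3 T2.l3) T2.l3) (xb (xa T2.l3 (xb T2.l3 T2.l3)) (xa T2.l3 T2.l3)))
  (TrL.c (I.pos (nat_lit 0) (nat_lit 0)) T0.l2
  (TrL.c (I.mix (nat_lit 41527258) (nat_lit 41530880)) T2.l9
  (TrL.c (I.mix (nat_lit 41527258) (nat_lit 4274)) T0.l3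
  TrL.n)))))))) (by decide +kernel)
theorem bx1_7 : BoxOK sI cl6 cl4 cl6 t0 t2 b1_7 :=
  box_mk (TrL.c (I.pos (nat_lit 0) (nat_lit 0)) (xb (xa (xb T0.l7 T0.l7) T0.l7) (xa (xb T0.l7 T0.l7) T0.l7))
  (TrL.c (I.pos (nat_lit 0) (nat_lit 0)) T2.l1
  (TrL.c (I.pos (nat_lit 0) (nat_lit 89480386)) T0.l1
  (TrL.c (I.pos (nat_lit 0) (nat_lit 41530880)) T2.l4
  (TrL.c (I.pos (nat_lit 0) (nat_lit 0)) T2.l8
  (TrL.c (I.pos (nat_lit 0) (nat_lit 0)) T0.l2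
  (TrL.c (I.mix (nat_lit 41527258) (nat_lit 41530880)) T2.l9
  (TrL.c (I.mix (nat_lit 41527258) (nat_lit 4274)) T0.l10
  TrL.n)))))))) (by decide +kernel)
theorem bx1_8 : BoxOK sI cl6 cl4 cl6 t0 t2 b1_8 :=
  box_mk (TrL.c (I.pos (nat_lit 0) (nat_lit 0)) (xb T0.l7 T0.l4)
  (TrL.c (I.pos (nat_lit 0) (nat_lit 0)) T2.l1
  (TrL.c (I.pos (nat_lit 0) (nat_lit 89480386)) T0.l1
  (TrL.c (I.pos (nat_lit 0) (nat_lit 41530880)) T2.l2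
  (TrL.c (I.pos (nat_lit 0) (nat_lit 0)) T2.l5
  (TrL.c (I.pos (nat_lit 0) (nat_lit 0)) T0.l2
  (TrL.c (I.mix (nat_lit 41527258) (nat_lit 41530880)) T2.l4
  (TrL.c (I.mix (nat_lit 41527258) (nat_lit 4274)) T0.l3
  TrL.n)))))))) (by decide +kernel)
theorem bx1_9 : BoxOK sI cl6 cl4 cl6 t0 t2 b1_9 :=
  box_mk (TrL.c (I.pos (nat_lit 0) (nat_lit 0)) (xa (xb T0.l0 T0.l0) (xb T0.l0 T0.l0))
  (TrL.c (I.pos (nat_lit 0) (nat_lit 0)) T2.l1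
  (TrL.c (I.pos (nat_lit 0) (nat_lit 89480386)) T0.l1
  (TrL.c (I.pos (nat_lit 0) (nat_lit 41530880)) T2.l2
  (TrL.c (I.pos (nat_lit 0) (nat_lit 0)) (xb T2.l3 T2.l3)
  (TrL.c (I.pos (nat_lit 0) (nat_lit 0)) T0.l2
  (TrL.c (I.mix (nat_lit 41527258) (nat_lit 41530880)) T2.l9
  (TrL.c (I.mix (nat_lit 41527258) (nat_lit 4274)) T0.l3
  TrL.n)))))))) (by decide +kernel)
theorem sv1 : StarV sI cl6 cl4 cl6 t0 t2 t1 :=
  (bt_n (bt_n (bt_n (bt_b bx1_0) (bt_b bx1_1)) (bt_n (bt_b bx1_2) (bt_n (bt_b bx1_3) (bt_b bx1_4)))) (bt_n (bt_n (bt_b bx1_5) (bt_b bx1_6)) (bt_n (bt_b bx1_7) (bt_n (bt_b bx1_8) (bt_b bx1_9)))))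
def S1 : StarD := StarD.mk cl6 cl4 cl6 0 2 t1
theorem bx2_0 : BoxOK sI cl6 cl6 cl4 t2 t0 b2_0 :=
  box_mk (TrL.c (I.pos (nat_lit 0) (nat_lit 0)) (xa (xb (xa T2.l0 T2.l0) (xa (xb T2.l0 T2.l0) (xb T2.l0 T2.l0))) (xa (xb T2.l0 T2.l0) (xb T2.l0 T2.l0)))
  (TrL.c (I.pos (nat_lit 0) (nat_lit 0)) T0.l8
  (TrL.c (I.pos (nat_lit 0) (nat_lit 89480386)) T2.l9
  (TrL.c (I.pos (nat_lit 0) (nat_lit 41530880)) T0.l9
  (TrL.c (I.pos (nat_lit 0) (nat_lit 0)) (xa T0.l13 T0.l13)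
  (TrL.c (I.pos (nat_lit 0) (nat_lit 0)) T2.l10
  (TrL.c (I.mix (nat_lit 41527258) (nat_lit 41530880)) T0.l10
  (TrL.c (I.mix (nat_lit 41527258) (nat_lit 4274)) T2.l11
  TrL.n)))))))) (by decide +kernel)
theorem bx2_1 : BoxOK sI cl6 cl6 cl4 t2 t0 b2_1 :=
  box_mk (TrL.c (I.pos (nat_lit 0) (nat_lit 0)) (xa (xb T2.l12 T2.l12) (xb T2.l0 T2.l12))
  (TrL.c (I.pos (nat_lit 0) (nat_lit 0)) T0.l8
  (TrL.c (I.pos (nat_lit 0) (nat_lit 89480386)) T2.l9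
  (TrL.c (I.pos (nat_lit 0) (nat_lit 41530880)) T0.l9
  (TrL.c (I.pos (nat_lit 0) (nat_lit 0)) (xa T0.l11 T0.l11)
  (TrL.c (I.pos (nat_lit 0) (nat_lit 0)) T2.l10
  (TrL.c (I.mix (nat_lit 41527258) (nat_lit 41530880)) T0.l10
  (TrL.c (I.mix (nat_lit 41527258) (nat_lit 4274)) T2.l11
  TrL.n)))))))) (by decide +kernel)
theorem bx2_2 : BoxOK sI cl6 cl6 cl4 t2 t0 b2_2 :=
  box_mk (TrL.c (I.pos (nat_lit 0) (nat_lit 0)) T2.l12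
  (TrL.c (I.pos (nat_lit 0) (nat_lit 0)) T0.l8
  (TrL.c (I.pos (nat_lit 0) (nat_lit 89480386)) T2.l9
  (TrL.c (I.pos (nat_lit 0) (nat_lit 41530880)) T0.l9
  (TrL.c (I.pos (nat_lit 0) (nat_lit 0)) T0.l8
  (TrL.c (I.pos (nat_lit 0) (nat_lit 0)) T2.l10
  (TrL.c (I.mix (nat_lit 41527258) (nat_lit 41530880)) T0.l10
  (TrL.c (I.mix (nat_lit 41527258) (nat_lit 4274)) T2.l11
  TrL.n)))))))) (by decide +kernel)
theorem bx2_3 : BoxOK sI cl6 cl6 cl4 t2 t0 b2_3 :=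
  box_mk (TrL.c (I.pos (nat_lit 0) (nat_lit 0)) (xb (xa (xb T2.l13 T2.l13) T2.l13) (xa (xb T2.l13 (xa T2.l13 T2.l13)) (xa T2.l13 T2.l13)))
  (TrL.c (I.pos (nat_lit 0) (nat_lit 0)) T0.l8
  (TrL.c (I.pos (nat_lit 0) (nat_lit 89480386)) T2.l9
  (TrL.c (I.pos (nat_lit 0) (nat_lit 41530880)) T0.l9
  (TrL.c (I.pos (nat_lit 0) (nat_lit 0)) T0.l12
  (TrL.c (I.pos (nat_lit 0) (nat_lit 0)) T2.l10
  (TrL.c (I.mix (nat_lit 41527258) (nat_lit 41530880)) T0.l1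
  (TrL.c (I.mix (nat_lit 41527258) (nat_lit 4274)) T2.l11
  TrL.n)))))))) (by decide +kernel)
theorem bx2_4 : BoxOK sI cl6 cl6 cl4 t2 t0 b2_4 :=
  box_mk (TrL.c (I.pos (nat_lit 0) (nat_lit 0)) (xa (xa T2.l12 T2.l12) (xa T2.l12 T2.l12))
  (TrL.c (I.pos (nat_lit 0) (nat_lit 0)) T0.l8
  (TrL.c (I.pos (nat_lit 0) (nat_lit 89480386)) T2.l9
  (TrL.c (I.pos (nat_lit 0) (nat_lit 41530880)) T0.l9
  (TrL.c (I.pos (nat_lit 0) (nat_lit 0)) (xa T0.l8 T0.l11)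
  (TrL.c (I.pos (nat_lit 0) (nat_lit 0)) T2.l10
  (TrL.c (I.mix (nat_lit 41527258) (nat_lit 41530880)) T0.l10
  (TrL.c (I.mix (nat_lit 41527258) (nat_lit 4274)) T2.l11
  TrL.n)))))))) (by decide +kernel)
theorem bx2_5 : BoxOK sI cl6 cl6 cl4 t2 t0 b2_5 :=
  box_mk (TrL.c (I.pos (nat_lit 0) (nat_lit 0)) (xb (xa T2.l13 T2.l13) (xa T2.l13 T2.l13))
  (TrL.c (I.pos (nat_lit 0) (nat_lit 0)) T0.l8
  (TrL.c (I.pos (nat_lit 0) (nat_lit 89480386)) T2.l9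
  (TrL.c (I.pos (nat_lit 0) (nat_lit 41530880)) T0.l9
  (TrL.c (I.pos (nat_lit 0) (nat_lit 0)) T0.l12
  (TrL.c (I.pos (nat_lit 0) (nat_lit 0)) T2.l10
  (TrL.c (I.mix (nat_lit 41527258) (nat_lit 41530880)) T0.l10
  (TrL.c (I.mix (nat_lit 41527258) (nat_lit 4274)) T2.l11
  TrL.n)))))))) (by decide +kernel)
theorem bx2_6 : BoxOK sI cl6 cl6 cl4 t2 t0 b2_6 :=
  box_mk (TrL.c (I.pos (nat_lit 0) (nat_lit 0)) (xa T2.l12 T2.l12)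
  (TrL.c (I.pos (nat_lit 0) (nat_lit 0)) T0.l8
  (TrL.c (I.pos (nat_lit 0) (nat_lit 89480386)) T2.l9
  (TrL.c (I.pos (nat_lit 0) (nat_lit 41530880)) T0.l9
  (TrL.c (I.pos (nat_lit 0) (nat_lit 0)) T0.l11
  (TrL.c (I.pos (nat_lit 0) (nat_lit 0)) T2.l10
  (TrL.c (I.mix (nat_lit 41527258) (nat_lit 41530880)) T0.l10
  (TrL.c (I.mix (nat_lit 41527258) (nat_lit 4274)) T2.l11
  TrL.n)))))))) (by decide +kernel)
theorem bx2_7 : BoxOK sI cl6 cl6 cl4 t2 t0 b2_7 :=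
  box_mk (TrL.c (I.pos (nat_lit 0) (nat_lit 0)) (xa (xa (xb T2.l12 T2.l12) T2.l12) T2.l12)
  (TrL.c (I.pos (nat_lit 0) (nat_lit 0)) T0.l8
  (TrL.c (I.pos (nat_lit 0) (nat_lit 89480386)) T2.l9
  (TrL.c (I.pos (nat_lit 0) (nat_lit 41530880)) T0.l9
  (TrL.c (I.pos (nat_lit 0) (nat_lit 0)) T0.l8
  (TrL.c (I.pos (nat_lit 0) (nat_lit 0)) T2.l9
  (TrL.c (I.mix (nat_lit 41527258) (nat_lit 41530880)) T0.l10
  (TrL.c (I.mix (nat_lit 41527258) (nat_lit 4274)) T2.l11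
  TrL.n)))))))) (by decide +kernel)
theorem bx2_8 : BoxOK sI cl6 cl6 cl4 t2 t0 b2_8 :=
  box_mk (TrL.c (I.pos (nat_lit 0) (nat_lit 0)) T2.l13
  (TrL.c (I.pos (nat_lit 0) (nat_lit 0)) T0.l8
  (TrL.c (I.pos (nat_lit 0) (nat_lit 89480386)) T2.l9
  (TrL.c (I.pos (nat_lit 0) (nat_lit 41530880)) T0.l9
  (TrL.c (I.pos (nat_lit 0) (nat_lit 0)) T0.l12
  (TrL.c (I.pos (nat_lit 0) (nat_lit 0)) T2.l10
  (TrL.c (I.mix (nat_lit 41527258) (nat_lit 41530880)) T0.l10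
  (TrL.c (I.mix (nat_lit 41527258) (nat_lit 4274)) T2.l11
  TrL.n)))))))) (by decide +kernel)
theorem bx2_9 : BoxOK sI cl6 cl6 cl4 t2 t0 b2_9 :=
  box_mk (TrL.c (I.pos (nat_lit 0) (nat_lit 0)) (xa (xa (xb (xa T2.l12 T2.l12) (xa (xb T2.l12 T2.l12) (xb T2.l12 T2.l12))) (xb T2.l12 (xa T2.l12 T2.l12))) (xa (xb T2.l12 T2.l12) (xb T2.l12 (xa T2.l12 T2.l12))))
  (TrL.c (I.pos (nat_lit 0) (nat_lit 0)) (xa T0.l8 T0.l8)
  (TrL.c (I.pos (nat_lit 0) (nat_lit 89480386)) T2.l9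
  (TrL.c (I.pos (nat_lit 0) (nat_lit 41530880)) T0.l9
  (TrL.c (I.pos (nat_lit 0) (nat_lit 0)) (xa T0.l8 T0.l11)
  (TrL.c (I.pos (nat_lit 0) (nat_lit 0)) T2.l10
  (TrL.c (I.mix (nat_lit 41527258) (nat_lit 41530880)) T0.l10
  (TrL.c (I.mix (nat_lit 41527258) (nat_lit 4274)) T2.l11
  TrL.n)))))))) (by decide +kernel)
theorem bx2_10 : BoxOK sI cl6 cl6 cl4 t2 t0 b2_10 :=
  box_mk (TrL.c (I.pos (nat_lit 0) (nat_lit 0)) (xb T2.l12 T2.l12)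
  (TrL.c (I.pos (nat_lit 0) (nat_lit 0)) T0.l8
  (TrL.c (I.pos (nat_lit 0) (nat_lit 89480386)) T2.l9
  (TrL.c (I.pos (nat_lit 0) (nat_lit 41530880)) T0.l9
  (TrL.c (I.pos (nat_lit 0) (nat_lit 0)) (xb T0.l11 T0.l11)
  (TrL.c (I.pos (nat_lit 0) (nat_lit 0)) T2.l10
  (TrL.c (I.mix (nat_lit 41527258) (nat_lit 41530880)) T0.l10
  (TrL.c (I.mix (nat_lit 41527258) (nat_lit 4274)) T2.l11
  TrL.n)))))))) (by decide +kernel)
theorem bx2_11 : BoxOK sI cl6 cl6 cl4 t2 t0 b2_11 :=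
  box_mk (TrL.c (I.pos (nat_lit 0) (nat_lit 0)) (xa (xb (xa T2.l12 T2.l12) T2.l12) T2.l12)
  (TrL.c (I.pos (nat_lit 0) (nat_lit 0)) T0.l8
  (TrL.c (I.pos (nat_lit 0) (nat_lit 89480386)) T2.l9
  (TrL.c (I.pos (nat_lit 0) (nat_lit 41530880)) T0.l1
  (TrL.c (I.pos (nat_lit 0) (nat_lit 0)) T0.l8
  (TrL.c (I.pos (nat_lit 0) (nat_lit 0)) T2.l9
  (TrL.c (I.mix (nat_lit 41527258) (nat_lit 41530880)) T0.l10
  (TrL.c (I.mix (nat_lit 41527258) (nat_lit 4274)) T2.l11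
  TrL.n)))))))) (by decide +kernel)
theorem bx2_12 : BoxOK sI cl6 cl6 cl4 t2 t0 b2_12 :=
  box_mk (TrL.c (I.pos (nat_lit 0) (nat_lit 0)) (xa (xb (xa T2.l0 T2.l0) (xa T2.l0 T2.l0)) (xb (xa T2.l0 T2.l0) (xa (xb T2.l0 T2.l0) (xb T2.l0 T2.l0))))
  (TrL.c (I.pos (nat_lit 0) (nat_lit 0)) T0.l8
  (TrL.c (I.pos (nat_lit 0) (nat_lit 89480386)) (xR T2.l9 T2.l9)
  (TrL.c (I.pos (nat_lit 0) (nat_lit 41530880)) T0.l9
  (TrL.c (I.pos (nat_lit 0) (nat_lit 0)) (xa (xb T0.l13 T0.l13) (xb (xa T0.l13 T0.l13) (xa T0.l13 T0.l13)))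
  (TrL.c (I.pos (nat_lit 0) (nat_lit 0)) T2.l10
  (TrL.c (I.mix (nat_lit 41527258) (nat_lit 41530880)) T0.l10
  (TrL.c (I.mix (nat_lit 41527258) (nat_lit 4274)) T2.l11
  TrL.n)))))))) (by decide +kernel)
theorem bx2_13 : BoxOK sI cl6 cl6 cl4 t2 t0 b2_13 :=
  box_mk (TrL.c (I.pos (nat_lit 0) (nat_lit 0)) (xa (xb T2.l0 (xa T2.l0 T2.l0)) (xb T2.l0 T2.l0))
  (TrL.c (I.pos (nat_lit 0) (nat_lit 0)) T0.l8
  (TrL.c (I.pos (nat_lit 0) (nat_lit 89480386)) T2.l9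
  (TrL.c (I.pos (nat_lit 0) (nat_lit 41530880)) T0.l9
  (TrL.c (I.pos (nat_lit 0) (nat_lit 0)) T0.l13
  (TrL.c (I.pos (nat_lit 0) (nat_lit 0)) T2.l10
  (TrL.c (I.mix (nat_lit 41527258) (nat_lit 41530880)) T0.l10
  (TrL.c (I.mix (nat_lit 41527258) (nat_lit 4274)) T2.l11
  TrL.n)))))))) (by decide +kernel)
theorem sv2 : StarV sI cl6 cl6 cl4 t2 t0 t2 :=
  (bt_n (bt_n (bt_n (bt_b bx2_0) (bt_n (bt_b bx2_1) (bt_b bx2_2))) (bt_n (bt_n (bt_b bx2_3) (bt_b bx2_4)) (bt_n (bt_b bx2_5) (bt_b bx2_6)))) (bt_n (bt_n (bt_b bx2_7) (bt_n (bt_b bx2_8) (bt_b bx2_9))) (bt_n (bt_n (bt_b bx2_10) (bt_b bx2_11)) (bt_n (bt_b bx2_12) (bt_b bx2_13)))))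
def S2 : StarD := StarD.mk cl6 cl6 cl4 2 0 t2
def G : List StarD := [S0, S1, S2]
theorem so0 : StarOK sI G S0 :=
  star_mk (by decide) (by decide) rfl rfl rfl rfl rfl rfl (rfl : _ = t1) (rfl : _ = t1)
  (st_mk (Pth.l (Pth.l (Pth.l Pth.z))) (nat_lit 195649593) (nat_lit 197176265) (by decide +kernel))
  (st_mk (Pth.l (Pth.l (Pth.l Pth.z))) (nat_lit 234739409) (nat_lit 236989363) (by decide +kernel))
  (st_mk (Pth.l (Pth.l (Pth.l Pth.z))) (nat_lit 280943295) (nat_lit 284263534) (by decide +kernel)) sv0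
theorem so1 : StarOK sI G S1 :=
  star_mk (by decide) (by decide) rfl rfl rfl rfl rfl rfl (rfl : _ = t0) (rfl : _ = t2)
  (st_mk (Pth.l (Pth.l (Pth.l Pth.z))) (nat_lit 376864051) (nat_lit 378672522) (by decide +kernel))
  (st_mk (Pth.l (Pth.l (Pth.l Pth.z))) (nat_lit 414215449) (nat_lit 416414165) (by decide +kernel))
  (st_mk (Pth.l (Pth.l (Pth.l Pth.z))) (nat_lit 457624958) (nat_lit 460329926) (by decide +kernel)) sv1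
theorem so2 : StarOK sI G S2 :=
  star_mk (by decide) (by decide) rfl rfl rfl rfl rfl rfl (rfl : _ = t2) (rfl : _ = t0)
  (st_mk (Pth.l (Pth.l (Pth.l Pth.z))) (nat_lit 190777989) (nat_lit 191486251) (by decide +kernel))
  (st_mk (Pth.l (Pth.l (Pth.l Pth.z))) (nat_lit 227654078) (nat_lit 228670078) (by decide +kernel))
  (st_mk (Pth.l (Pth.l (Pth.l Pth.z))) (nat_lit 270669276) (nat_lit 272121058) (by decide +kernel)) sv2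
theorem ok : GroupOK (nat_lit 150274048) (nat_lit 209387520) G := grp_mk (allS_c so0 (allS_c so1 (allS_c so2 allS_n)))
theorem cov : GCov G cl4 cl6 cl6 := cov_mk
  ⟨0, by decide, rfl, rfl, rfl⟩ ⟨0, by decide, rfl, rfl, rfl⟩ ⟨1, by decide, rfl, rfl, rfl⟩ ⟨2, by decide, rfl, rfl, rfl⟩ ⟨1, by decide, rfl, rfl, rfl⟩ ⟨2, by decide, rfl, rfl, rfl⟩
end Q133_2


end Pool.Agent.Helper6.MONO
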