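import Pool.Agent.Helper6.MONO.Asm

/-!
Certificate data (generated).
-/

set_option autoImplicit false
set_option linter.all false
noncomputable section
namespace Pool.Agent.Helper6.MONO


namespace Q133_3
def sI : I := I.pos (nat_lit 209321984) (nat_lit 268435456)
def b0_0 : Bx := Bx.mk (St.mk (I.pos (nat_lit 150192128) (nat_lit 227999744)) (I.mix (nat_lit 2179072) (nat_lit 65847296)) (I.mix (nat_lit 2375680) (nat_lit 72253440)) (I.pos (nat_lit 192905216) (nat_lit 315129856)) (I.mix (nat_lit 136216576) (nat_lit 95289344)) (I.mix (nat_lit 76267520) (nat_lit 76677120)) (I.mix (nat_lit 131809280) (nat_lit 124616704)))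
  false (nat_lit 6524264)
def b0_1 : Bx := Bx.mk (St.mk (I.mix (nat_lit 29130752) (nat_lit 95043584)) (I.mix (nat_lit 9289728) (nat_lit 37617664)) (I.mix (nat_lit 26427392) (nat_lit 3260416)) (I.pos (nat_lit 84508672) (nat_lit 123813888)) (I.mix (nat_lit 47185920) (nat_lit 61718528)) (I.mix (nat_lit 46972928) (nat_lit 34324480)) (I.mix (nat_lit 32653312) (nat_lit 19496960)))
  false (nat_lit 0)
def b0_2 : Bx := Bx.mk (St.mk (I.pos (nat_lit 72613888) (nat_lit 117981184)) (I.mix (nat_lit 55853056) (nat_lit 13058048)) (I.neg (nat_lit 13680640) (nat_lit 62668800)) (I.pos (nat_lit 108134400) (nat_lit 143310848)) (I.mix (nat_lit 111525888) (nat_lit 56229888)) (I.mix (nat_lit 44924928) (nat_lit 92438528)) (I.mix (nat_lit 30998528) (nat_lit 63062016)))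
  false (nat_lit 0)
def b0_3 : Bx := Bx.mk (St.mk (I.mix (nat_lit 46219264) (nat_lit 27590656)) (I.mix (nat_lit 33210368) (nat_lit 7176192)) (I.neg (nat_lit 5406720) (nat_lit 19693568)) (I.pos (nat_lit 85557248) (nat_lit 100335616)) (I.mix (nat_lit 54083584) (nat_lit 36454400)) (I.mix (nat_lit 25264128) (nat_lit 39534592)) (I.mix (nat_lit 15941632) (nat_lit 9404416)))
  false (nat_lit 0)
def b0_4 : Bx := Bx.mk (St.mk (I.pos (nat_lit 184631296) (nat_lit 247054336)) (I.mix (nat_lit 16629760) (nat_lit 35422208)) (I.mix (nat_lit 80822272) (nat_lit 12320768)) (I.pos (nat_lit 245497856) (nat_lit 331759616)) (I.mix (nat_lit 139788288) (nat_lit 65503232)) (I.mix (nat_lit 90947584) (nat_lit 79183872)) (I.mix (nat_lit 142639104) (nat_lit 142131200)))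
  false (nat_lit 0)
def b0_5 : Bx := Bx.mk (St.mk (I.mix (nat_lit 61374464) (nat_lit 3833856)) (I.mix (nat_lit 10551296) (nat_lit 16547840)) (I.neg (nat_lit 12255232) (nat_lit 23953408)) (I.pos (nat_lit 87556096) (nat_lit 104202240)) (I.mix (nat_lit 34340864) (nat_lit 30310400)) (I.mix (nat_lit 26525696) (nat_lit 23461888)) (I.mix (nat_lit 10436608) (nat_lit 11812864)))
  false (nat_lit 0)
def b0_6 : Bx := Bx.mk (St.mk (I.pos (nat_lit 175833088) (nat_lit 241057792)) (I.pos (nat_lit 655360) (nat_lit 62799872)) (I.mix (nat_lit 43188224) (nat_lit 64159744)) (I.pos (nat_lit 241270784) (nat_lit 336904192)) (I.mix (nat_lit 123535360) (nat_lit 116523008)) (I.mix (nat_lit 110034944) (nat_lit 96403456)) (I.mix (nat_lit 193134592) (nat_lit 148652032)))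
  false (nat_lit 5410751)
def b0_7 : Bx := Bx.mk (St.mk (I.pos (nat_lit 197279744) (nat_lit 256819200)) (I.mix (nat_lit 20447232) (nat_lit 17678336)) (I.neg (nat_lit 23183360) (nat_lit 90685440)) (I.pos (nat_lit 260571136) (nat_lit 358400000)) (I.mix (nat_lit 136232960) (nat_lit 48218112)) (I.mix (nat_lit 74006528) (nat_lit 73580544)) (I.mix (nat_lit 120045568) (nat_lit 140263424)))
  false (nat_lit 0)
def b0_8 : Bx := Bx.mk (St.mk (I.pos (nat_lit 72302592) (nat_lit 164331520)) (I.neg (nat_lit 950272) (nat_lit 53477376)) (I.neg (nat_lit 10338304) (nat_lit 61276160)) (I.pos (nat_lit 113278976) (nat_lit 196182016)) (I.mix (nat_lit 93241344) (nat_lit 54165504)) (I.mix (nat_lit 39944192) (nat_lit 67125248)) (I.mix (nat_lit 29900800) (nat_lit 62062592)))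
  false (nat_lit 0)
def b0_9 : Bx := Bx.mk (St.mk (I.mix (nat_lit 36487168) (nat_lit 50315264)) (I.mix (nat_lit 32915456) (nat_lit 6848512)) (I.neg (nat_lit 6668288) (nat_lit 21331968)) (I.pos (nat_lit 84754432) (nat_lit 100319232)) (I.mix (nat_lit 43466752) (nat_lit 35962880)) (I.mix (nat_lit 22724608) (nat_lit 35422208)) (I.mix (nat_lit 11108352) (nat_lit 13942784)))
  false (nat_lit 0)
def b0_10 : Bx := Bx.mk (St.mk (I.mix (nat_lit 53035008) (nat_lit 78675968)) (I.mix (nat_lit 11616256) (nat_lit 32866304)) (I.mix (nat_lit 21561344) (nat_lit 966656)) (I.pos (nat_lit 84312064) (nat_lit 115359744)) (I.mix (nat_lit 41189376) (nat_lit 42598400)) (I.mix (nat_lit 35422208) (nat_lit 22724608)) (I.mix (nat_lit 12713984) (nat_lit 13926400)))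
  false (nat_lit 0)
def b0_11 : Bx := Bx.mk (St.mk (I.pos (nat_lit 155058176) (nat_lit 193855488)) (I.mix (nat_lit 29949952) (nat_lit 6635520)) (I.neg (nat_lit 1769472) (nat_lit 42139648)) (I.pos (nat_lit 194428928) (nat_lit 234258432)) (I.mix (nat_lit 73121792) (nat_lit 71925760)) (I.mix (nat_lit 63193088) (nat_lit 61423616)) (I.mix (nat_lit 63602688) (nat_lit 56590336)))
  false (nat_lit 0)
def b0_12 : Bx := Bx.mk (St.mk (I.pos (nat_lit 130072576) (nat_lit 162103296)) (I.neg (nat_lit 7667712) (nat_lit 38879232)) (I.neg (nat_lit 17334272) (nat_lit 51707904)) (I.pos (nat_lit 161300480) (nat_lit 194117632)) (I.mix (nat_lit 46366720) (nat_lit 25001984)) (I.mix (nat_lit 20676608) (nat_lit 25804800)) (I.mix (nat_lit 21217280) (nat_lit 26148864)))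
  false (nat_lit 0)
def b0_13 : Bx := Bx.mk (St.mk (I.pos (nat_lit 148422656) (nat_lit 198852608)) (I.mix (nat_lit 13451264) (nat_lit 29097984)) (I.mix (nat_lit 21135360) (nat_lit 31031296)) (I.pos (nat_lit 191954944) (nat_lit 243777536)) (I.mix (nat_lit 114163712) (nat_lit 87506944)) (I.mix (nat_lit 121028608) (nat_lit 78594048)) (I.mix (nat_lit 121995264) (nat_lit 74809344)))
  false (nat_lit 0)
def b0_14 : Bx := Bx.mk (St.mk (I.pos (nat_lit 125452288) (nat_lit 163889152)) (I.neg (nat_lit 212992) (nat_lit 35569664)) (I.neg (nat_lit 8339456) (nat_lit 47038464)) (I.pos (nat_lit 157581312) (nat_lit 196739072)) (I.mix (nat_lit 54968320) (nat_lit 20152320)) (I.mix (nat_lit 29704192) (nat_lit 25067520)) (I.mix (nat_lit 29818880) (nat_lit 24838144)))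
  false (nat_lit 0)
def b0_15 : Bx := Bx.mk (St.mk (I.pos (nat_lit 126418944) (nat_lit 172654592)) (I.mix (nat_lit 33882112) (nat_lit 3096576)) (I.neg (nat_lit 3063808) (nat_lit 44646400)) (I.pos (nat_lit 157253632) (nat_lit 207880192)) (I.mix (nat_lit 54591488) (nat_lit 26755072)) (I.mix (nat_lit 30949376) (nat_lit 30294016)) (I.mix (nat_lit 30081024) (nat_lit 29097984)))
  false (nat_lit 0)
def b0_16 : Bx := Bx.mk (St.mk (I.pos (nat_lit 152780800) (nat_lit 189054976)) (I.mix (nat_lit 35012608) (nat_lit 5390336)) (I.neg (nat_lit 2768896) (nat_lit 48513024)) (I.pos (nat_lit 188497920) (nat_lit 228425728)) (I.mix (nat_lit 68665344) (nat_lit 56098816)) (I.mix (nat_lit 56410112) (nat_lit 50888704)) (I.mix (nat_lit 57262080) (nat_lit 45613056)))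
  false (nat_lit 0)
def b0_17 : Bx := Bx.mk (St.mk (I.pos (nat_lit 151912448) (nat_lit 207503360)) (I.mix (nat_lit 8650752) (nat_lit 58130432)) (I.mix (nat_lit 9633792) (nat_lit 64307200)) (I.pos (nat_lit 194707456) (nat_lit 273940480)) (I.mix (nat_lit 129712128) (nat_lit 49184768)) (I.mix (nat_lit 105922560) (nat_lit 68960256)) (I.mix (nat_lit 98435072) (nat_lit 67026944)))
  false (nat_lit 0)
def b0_18 : Bx := Bx.mk (St.mk (I.pos (nat_lit 59981824) (nat_lit 93077504)) (I.mix (nat_lit 13287424) (nat_lit 19939328)) (I.neg (nat_lit 7634944) (nat_lit 29687808)) (I.pos (nat_lit 103219200) (nat_lit 124076032)) (I.mix (nat_lit 53690368) (nat_lit 38617088)) (I.mix (nat_lit 35618816) (nat_lit 31145984)) (I.mix (nat_lit 22020096) (nat_lit 21823488)))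
  false (nat_lit 0)
def b0_19 : Bx := Bx.mk (St.mk (I.pos (nat_lit 162250752) (nat_lit 189661184)) (I.mix (nat_lit 16728064) (nat_lit 8880128)) (I.mix (nat_lit 25247744) (nat_lit 2834432)) (I.pos (nat_lit 203554816) (nat_lit 231178240)) (I.mix (nat_lit 61177856) (nat_lit 47693824)) (I.mix (nat_lit 50462720) (nat_lit 48119808)) (I.mix (nat_lit 48955392) (nat_lit 45940736)))
  false (nat_lit 0)
def t0 : BTr := (BTr.n (BTr.n (BTr.n (BTr.n (BTr.b b0_0) (BTr.b b0_1)) (BTr.n (BTr.b b0_2) (BTr.n (BTr.b b0_3) (BTr.b b0_4)))) (BTr.n (BTr.n (BTr.b b0_5) (BTr.b b0_6)) (BTr.n (BTr.b b0_7) (BTr.n (BTr.b b0_8) (BTr.b b0_9))))) (BTr.n (BTr.n (BTr.n (BTr.b b0_10) (BTr.b b0_11)) (BTr.n (BTr.b b0_12) (BTr.n (BTr.b b0_13) (BTr.b b0_14)))) (BTr.n (BTr.n (BTr.b b0_15) (BTr.b b0_16)) (BTr.n (BTr.b b0_17) (BTr.n (BTr.b b0_18) (BTr.b b0_19))))))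
namespace T0
def l0 : Tr := Tr.L (Pth.l (Pth.l (Pth.l (Pth.l Pth.z))))
def l1 : Tr := Tr.L (Pth.l (Pth.l (Pth.l (Pth.r Pth.z))))
def l2 : Tr := Tr.L (Pth.l (Pth.l (Pth.r (Pth.l Pth.z))))
def l3 : Tr := Tr.L (Pth.l (Pth.l (Pth.r (Pth.r (Pth.l Pth.z)))))
def l4 : Tr := Tr.L (Pth.l (Pth.l (Pth.r (Pth.r (Pth.r Pth.z)))))
def l5 : Tr := Tr.L (Pth.l (Pth.r (Pth.l (Pth.l Pth.z))))
def l6 : Tr := Tr.L (Pth.l (Pth.r (Pth.l (Pth.r Pth.z))))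
def l7 : Tr := Tr.L (Pth.l (Pth.r (Pth.r (Pth.l Pth.z))))
def l8 : Tr := Tr.L (Pth.l (Pth.r (Pth.r (Pth.r (Pth.l Pth.z)))))
def l9 : Tr := Tr.L (Pth.l (Pth.r (Pth.r (Pth.r (Pth.r Pth.z)))))
def l10 : Tr := Tr.L (Pth.r (Pth.l (Pth.l (Pth.l Pth.z))))
def l11 : Tr := Tr.L (Pth.r (Pth.l (Pth.l (Pth.r Pth.z))))
def l12 : Tr := Tr.L (Pth.r (Pth.l (Pth.r (Pth.l Pth.z))))
def l13 : Tr := Tr.L (Pth.r (Pth.l (Pth.r (Pth.r (Pth.l Pth.z)))))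
def l14 : Tr := Tr.L (Pth.r (Pth.l (Pth.r (Pth.r (Pth.r Pth.z)))))
def l15 : Tr := Tr.L (Pth.r (Pth.r (Pth.l (Pth.l Pth.z))))
def l16 : Tr := Tr.L (Pth.r (Pth.r (Pth.l (Pth.r Pth.z))))
def l17 : Tr := Tr.L (Pth.r (Pth.r (Pth.r (Pth.l Pth.z))))
def l18 : Tr := Tr.L (Pth.r (Pth.r (Pth.r (Pth.r (Pth.l Pth.z)))))
def l19 : Tr := Tr.L (Pth.r (Pth.r (Pth.r (Pth.r (Pth.r Pth.z)))))
end T0
def b1_0 : Bx := Bx.mk (St.mk (I.pos (nat_lit 130351104) (nat_lit 217759744)) (I.mix (nat_lit 2932736) (nat_lit 91422720)) (I.mix (nat_lit 3129344) (nat_lit 98009088)) (I.pos (nat_lit 375144448) (nat_lit 470712320)) (I.mix (nat_lit 200900608) (nat_lit 108281856)) (I.mix (nat_lit 104300544) (nat_lit 97157120)) (I.mix (nat_lit 131334144) (nat_lit 145391616)))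
  false (nat_lit 69410167)
def b1_1 : Bx := Bx.mk (St.mk (I.pos (nat_lit 14057472) (nat_lit 136380416)) (I.neg (nat_lit 442368) (nat_lit 90308608)) (I.mix (nat_lit 73089024) (nat_lit 6422528)) (I.pos (nat_lit 270598144) (nat_lit 341573632)) (I.mix (nat_lit 146800640) (nat_lit 84869120)) (I.mix (nat_lit 89374720) (nat_lit 85688320)) (I.mix (nat_lit 98631680) (nat_lit 72515584)))
  false (nat_lit 78138136)
def b1_2 : Bx := Bx.mk (St.mk (I.mix (nat_lit 58392576) (nat_lit 22904832)) (I.mix (nat_lit 23281664) (nat_lit 89194496)) (I.neg (nat_lit 40943616) (nat_lit 65519616)) (I.pos (nat_lit 264077312) (nat_lit 299745280)) (I.mix (nat_lit 70074368) (nat_lit 142032896)) (I.mix (nat_lit 96337920) (nat_lit 90980352)) (I.mix (nat_lit 60932096) (nat_lit 42287104)))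
  true (nat_lit 0)
def b1_3 : Bx := Bx.mk (St.mk (I.pos (nat_lit 83394560) (nat_lit 189988864)) (I.mix (nat_lit 46661632) (nat_lit 82100224)) (I.mix (nat_lit 34799616) (nat_lit 97042432)) (I.pos (nat_lit 297156608) (nat_lit 436453376)) (I.mix (nat_lit 201916416) (nat_lit 89210880)) (I.mix (nat_lit 147095552) (nat_lit 125779968)) (I.mix (nat_lit 157958144) (nat_lit 163774464)))
  false (nat_lit 81531731)
def b1_4 : Bx := Bx.mk (St.mk (I.pos (nat_lit 3293184) (nat_lit 58998784)) (I.neg (nat_lit 29851648) (nat_lit 87654400)) (I.neg (nat_lit 41205760) (nat_lit 65519616)) (I.pos (nat_lit 270401536) (nat_lit 299548672)) (I.mix (nat_lit 142032896) (nat_lit 70074368)) (I.mix (nat_lit 90980352) (nat_lit 96337920)) (I.mix (nat_lit 60932096) (nat_lit 42287104)))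
  false (nat_lit 72016081)
def b1_5 : Bx := Bx.mk (St.mk (I.neg (nat_lit 14041088) (nat_lit 136380416)) (I.mix (nat_lit 1064960) (nat_lit 90357760)) (I.mix (nat_lit 73170944) (nat_lit 9125888)) (I.pos (nat_lit 270532608) (nat_lit 344096768)) (I.mix (nat_lit 84885504) (nat_lit 146817024)) (I.mix (nat_lit 85688320) (nat_lit 89374720)) (I.mix (nat_lit 98648064) (nat_lit 72515584)))
  true (nat_lit 0)
def b1_6 : Bx := Bx.mk (St.mk (I.pos (nat_lit 207405056) (nat_lit 288456704)) (I.mix (nat_lit 25739264) (nat_lit 59179008)) (I.mix (nat_lit 141852672) (nat_lit 17121280)) (I.pos (nat_lit 458768384) (nat_lit 591429632)) (I.mix (nat_lit 105873408) (nat_lit 85245952)) (I.mix (nat_lit 80347136) (nat_lit 74416128)) (I.mix (nat_lit 134250496) (nat_lit 134725632)))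
  false (nat_lit 6470723)
def b1_7 : Bx := Bx.mk (St.mk (I.mix (nat_lit 16875520) (nat_lit 21692416)) (I.mix (nat_lit 33521664) (nat_lit 12058624)) (I.neg (nat_lit 44236800) (nat_lit 49840128)) (I.pos (nat_lit 266174464) (nat_lit 274694144)) (I.mix (nat_lit 47824896) (nat_lit 33112064)) (I.mix (nat_lit 26509312) (nat_lit 28229632)) (I.mix (nat_lit 6946816) (nat_lit 8175616)))
  false (nat_lit 0)
def b1_8 : Bx := Bx.mk (St.mk (I.pos (nat_lit 181485568) (nat_lit 238272512)) (I.mix (nat_lit 2195456) (nat_lit 50561024)) (I.mix (nat_lit 63373312) (nat_lit 13402112)) (I.pos (nat_lit 417579008) (nat_lit 491896832)) (I.mix (nat_lit 117866496) (nat_lit 103776256)) (I.mix (nat_lit 81068032) (nat_lit 73072640)) (I.mix (nat_lit 125501440) (nat_lit 115916800)))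
  false (nat_lit 0)
def b1_9 : Bx := Bx.mk (St.mk (I.pos (nat_lit 7127040) (nat_lit 39010304)) (I.neg (nat_lit 2064384) (nat_lit 37322752)) (I.neg (nat_lit 41254912) (nat_lit 49479680)) (I.pos (nat_lit 267714560) (nat_lit 278331392)) (I.mix (nat_lit 69337088) (nat_lit 55902208)) (I.mix (nat_lit 43761664) (nat_lit 45629440)) (I.mix (nat_lit 12238848) (nat_lit 14893056)))
  false (nat_lit 0)
def b1_10 : Bx := Bx.mk (St.mk (I.pos (nat_lit 225640448) (nat_lit 277413888)) (I.mix (nat_lit 38371328) (nat_lit 21266432)) (I.neg (nat_lit 49774592) (nat_lit 169558016)) (I.pos (nat_lit 473317376) (nat_lit 569819136)) (I.mix (nat_lit 108625920) (nat_lit 52379648)) (I.mix (nat_lit 61505536) (nat_lit 69337088)) (I.mix (nat_lit 100548608) (nat_lit 137625600)))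
  false (nat_lit 0)
def b1_11 : Bx := Bx.mk (St.mk (I.mix (nat_lit 12730368) (nat_lit 16711680)) (I.mix (nat_lit 11304960) (nat_lit 20021248)) (I.neg (nat_lit 44875776) (nat_lit 48070656)) (I.pos (nat_lit 266584064) (nat_lit 271876096)) (I.mix (nat_lit 28114944) (nat_lit 35520512)) (I.mix (nat_lit 21495808) (nat_lit 21004288)) (I.mix (nat_lit 2801664) (nat_lit 4898816)))
  false (nat_lit 0)
def b1_12 : Bx := Bx.mk (St.mk (I.pos (nat_lit 244072448) (nat_lit 289439744)) (I.neg (nat_lit 2260992) (nat_lit 43974656)) (I.neg (nat_lit 101646336) (nat_lit 182976512)) (I.pos (nat_lit 503005184) (nat_lit 594083840)) (I.mix (nat_lit 95289344) (nat_lit 38617088)) (I.mix (nat_lit 52953088) (nat_lit 60915712)) (I.mix (nat_lit 85442560) (nat_lit 120078336)))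
  false (nat_lit 0)
def b1_13 : Bx := Bx.mk (St.mk (I.mix (nat_lit 18546688) (nat_lit 6406144)) (I.mix (nat_lit 6635520) (nat_lit 20004864)) (I.neg (nat_lit 44531712) (nat_lit 47628288)) (I.pos (nat_lit 266715136) (nat_lit 272302080)) (I.mix (nat_lit 23625728) (nat_lit 25395200)) (I.mix (nat_lit 16875520) (nat_lit 16482304)) (I.mix (nat_lit 2146304) (nat_lit 4833280)))
  false (nat_lit 0)
def b1_14 : Bx := Bx.mk (St.mk (I.pos (nat_lit 164495360) (nat_lit 234094592)) (I.pos (nat_lit 917504) (nat_lit 53313536)) (I.mix (nat_lit 57622528) (nat_lit 29278208)) (I.pos (nat_lit 399704064) (nat_lit 483721216)) (I.mix (nat_lit 108953600) (nat_lit 60325888)) (I.mix (nat_lit 60915712) (nat_lit 49561600)) (I.mix (nat_lit 86278144) (nat_lit 79364096)))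
  false (nat_lit 0)
def b1_15 : Bx := Bx.mk (St.mk (I.pos (nat_lit 9060352) (nat_lit 46907392)) (I.neg (nat_lit 3194880) (nat_lit 46628864)) (I.neg (nat_lit 41336832) (nat_lit 51544064)) (I.pos (nat_lit 267386880) (nat_lit 282738688)) (I.mix (nat_lit 57425920) (nat_lit 49758208)) (I.mix (nat_lit 40878080) (nat_lit 40402944)) (I.mix (nat_lit 15843328) (nat_lit 14843904)))
  false (nat_lit 0)
def b1_16 : Bx := Bx.mk (St.mk (I.pos (nat_lit 216465408) (nat_lit 274644992)) (I.mix (nat_lit 32538624) (nat_lit 30621696)) (I.neg (nat_lit 31539200) (nat_lit 155385856)) (I.pos (nat_lit 462127104) (nat_lit 564101120)) (I.mix (nat_lit 83296256) (nat_lit 33472512)) (I.mix (nat_lit 34684928) (nat_lit 44417024)) (I.mix (nat_lit 57196544) (nat_lit 90079232)))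
  false (nat_lit 0)
def b1_17 : Bx := Bx.mk (St.mk (I.mix (nat_lit 11567104) (nat_lit 20267008)) (I.mix (nat_lit 16252928) (nat_lit 17334272)) (I.neg (nat_lit 44597248) (nat_lit 48218112)) (I.pos (nat_lit 266485760) (nat_lit 272220160)) (I.mix (nat_lit 26886144) (nat_lit 34586624)) (I.mix (nat_lit 20873216) (nat_lit 18022400)) (I.mix (nat_lit 2998272) (nat_lit 4685824)))
  false (nat_lit 0)
def b1_18 : Bx := Bx.mk (St.mk (I.pos (nat_lit 211419136) (nat_lit 294092800)) (I.mix (nat_lit 38043648) (nat_lit 54018048)) (I.mix (nat_lit 172736512) (nat_lit 4718592)) (I.pos (nat_lit 462454784) (nat_lit 604307456)) (I.mix (nat_lit 101138432) (nat_lit 59244544)) (I.mix (nat_lit 69320704) (nat_lit 63586304)) (I.mix (nat_lit 123813888) (nat_lit 120193024)))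
  false (nat_lit 0)
def b1_19 : Bx := Bx.mk (St.mk (I.mix (nat_lit 20037632) (nat_lit 22085632)) (I.mix (nat_lit 32505856) (nat_lit 18055168)) (I.neg (nat_lit 44531712) (nat_lit 49152000)) (I.pos (nat_lit 266240000) (nat_lit 273629184)) (I.mix (nat_lit 34996224) (nat_lit 29868032)) (I.mix (nat_lit 18890752) (nat_lit 23035904)) (I.mix (nat_lit 4210688) (nat_lit 5111808)))
  false (nat_lit 0)
def b1_20 : Bx := Bx.mk (St.mk (I.pos (nat_lit 3899392) (nat_lit 45137920)) (I.neg (nat_lit 17203200) (nat_lit 77774848)) (I.neg (nat_lit 43139072) (nat_lit 63520768)) (I.pos (nat_lit 269959168) (nat_lit 290324480)) (I.mix (nat_lit 115130368) (nat_lit 57049088)) (I.mix (nat_lit 51658752) (nat_lit 84475904)) (I.mix (nat_lit 32718848) (nat_lit 24395776)))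
  false (nat_lit 10928198)
def b1_21 : Bx := Bx.mk (St.mk (I.pos (nat_lit 147259392) (nat_lit 211304448)) (I.pos (nat_lit 17219584) (nat_lit 88195072)) (I.mix (nat_lit 11141120) (nat_lit 86802432)) (I.pos (nat_lit 397524992) (nat_lit 464584704)) (I.mix (nat_lit 142491648) (nat_lit 98893824)) (I.mix (nat_lit 99155968) (nat_lit 71843840)) (I.mix (nat_lit 146046976) (nat_lit 111083520)))
  false (nat_lit 13844876)
def b1_22 : Bx := Bx.mk (St.mk (I.pos (nat_lit 208076800) (nat_lit 239222784)) (I.pos (nat_lit 12206080) (nat_lit 41828352)) (I.neg (nat_lit 8060928) (nat_lit 45367296)) (I.pos (nat_lit 457424896) (nat_lit 494419968)) (I.mix (nat_lit 66584576) (nat_lit 39485440)) (I.mix (nat_lit 46481408) (nat_lit 33947648)) (I.mix (nat_lit 69959680) (nat_lit 57737216)))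
  false (nat_lit 0)
def b1_23 : Bx := Bx.mk (St.mk (I.pos (nat_lit 3620864) (nat_lit 21577728)) (I.neg (nat_lit 9863168) (nat_lit 28999680)) (I.neg (nat_lit 44187648) (nat_lit 48922624)) (I.pos (nat_lit 267436032) (nat_lit 274432000)) (I.mix (nat_lit 37060608) (nat_lit 20611072)) (I.mix (nat_lit 18104320) (nat_lit 24330240)) (I.mix (nat_lit 4816896) (nat_lit 6864896)))
  false (nat_lit 0)
def t1 : BTr := (BTr.n (BTr.n (BTr.n (BTr.n (BTr.b b1_0) (BTr.n (BTr.b b1_1) (BTr.b b1_2))) (BTr.n (BTr.b b1_3) (BTr.n (BTr.b b1_4) (BTr.b b1_5)))) (BTr.n (BTr.n (BTr.b b1_6) (BTr.n (BTr.b b1_7) (BTr.b b1_8))) (BTr.n (BTr.b b1_9) (BTr.n (BTr.b b1_10) (BTr.b b1_11))))) (BTr.n (BTr.n (BTr.n (BTr.b b1_12) (BTr.n (BTr.b b1_13) (BTr.b b1_14))) (BTr.n (BTr.b b1_15) (BTr.n (BTr.b b1_16) (BTr.b b1_17)))) (BTr.n (BTr.n (BTr.b b1_18) (BTr.n (BTr.b b1_19) (BTr.b b1_20)))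 (BTr.n (BTr.b b1_21) (BTr.n (BTr.b b1_22) (BTr.b b1_23))))))
namespace T1
def l0 : Tr := Tr.L (Pth.l (Pth.l (Pth.l (Pth.l Pth.z))))
def l1 : Tr := Tr.L (Pth.l (Pth.l (Pth.l (Pth.r (Pth.l Pth.z)))))
def l2 : Tr := Tr.L (Pth.l (Pth.l (Pth.l (Pth.r (Pth.r Pth.z)))))
def l3 : Tr := Tr.L (Pth.l (Pth.l (Pth.r (Pth.l Pth.z))))
def l4 : Tr := Tr.L (Pth.l (Pth.l (Pth.r (Pth.r (Pth.l Pth.z)))))
def l5 : Tr := Tr.L (Pth.l (Pth.l (Pth.r (Pth.r (Pth.r Pth.z)))))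
def l6 : Tr := Tr.L (Pth.l (Pth.r (Pth.l (Pth.l Pth.z))))
def l7 : Tr := Tr.L (Pth.l (Pth.r (Pth.l (Pth.r (Pth.l Pth.z)))))
def l8 : Tr := Tr.L (Pth.l (Pth.r (Pth.l (Pth.r (Pth.r Pth.z)))))
def l9 : Tr := Tr.L (Pth.l (Pth.r (Pth.r (Pth.l Pth.z))))
def l10 : Tr := Tr.L (Pth.l (Pth.r (Pth.r (Pth.r (Pth.l Pth.z)))))
def l11 : Tr := Tr.L (Pth.l (Pth.r (Pth.r (Pth.r (Pth.r Pth.z)))))
def l12 : Tr := Tr.L (Pth.r (Pth.l (Pth.l (Pth.l Pth.z))))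
def l13 : Tr := Tr.L (Pth.r (Pth.l (Pth.l (Pth.r (Pth.l Pth.z)))))
def l14 : Tr := Tr.L (Pth.r (Pth.l (Pth.l (Pth.r (Pth.r Pth.z)))))
def l15 : Tr := Tr.L (Pth.r (Pth.l (Pth.r (Pth.l Pth.z))))
def l16 : Tr := Tr.L (Pth.r (Pth.l (Pth.r (Pth.r (Pth.l Pth.z)))))
def l17 : Tr := Tr.L (Pth.r (Pth.l (Pth.r (Pth.r (Pth.r Pth.z)))))
def l18 : Tr := Tr.L (Pth.r (Pth.r (Pth.l (Pth.l Pth.z))))
def l19 : Tr := Tr.L (Pth.r (Pth.r (Pth.l (Pth.r (Pth.l Pth.z)))))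
def l20 : Tr := Tr.L (Pth.r (Pth.r (Pth.l (Pth.r (Pth.r Pth.z)))))
def l21 : Tr := Tr.L (Pth.r (Pth.r (Pth.r (Pth.l Pth.z))))
def l22 : Tr := Tr.L (Pth.r (Pth.r (Pth.r (Pth.r (Pth.l Pth.z)))))
def l23 : Tr := Tr.L (Pth.r (Pth.r (Pth.r (Pth.r (Pth.r Pth.z)))))
end T1
def b2_0 : Bx := Bx.mk (St.mk (I.pos (nat_lit 142131200) (nat_lit 221020160)) (I.mix (nat_lit 1818624) (nat_lit 53215232)) (I.mix (nat_lit 3325952) (nat_lit 105005056)) (I.pos (nat_lit 183205888) (nat_lit 277053440)) (I.mix (nat_lit 121896960) (nat_lit 67780608)) (I.mix (nat_lit 80035840) (nat_lit 68124672)) (I.mix (nat_lit 103743488) (nat_lit 82116608)))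
  false (nat_lit 0)
def b2_1 : Bx := Bx.mk (St.mk (I.pos (nat_lit 94355456) (nat_lit 152600576)) (I.neg (nat_lit 5603328) (nat_lit 62029824)) (I.mix (nat_lit 40140800) (nat_lit 18055168)) (I.pos (nat_lit 135806976) (nat_lit 179011584)) (I.mix (nat_lit 83542016) (nat_lit 79708160)) (I.mix (nat_lit 58966016) (nat_lit 67174400)) (I.mix (nat_lit 48988160) (nat_lit 62308352)))
  false (nat_lit 13368497)
def b2_2 : Bx := Bx.mk (St.mk (I.mix (nat_lit 28901376) (nat_lit 45563904)) (I.mix (nat_lit 33341440) (nat_lit 7045120)) (I.mix (nat_lit 1097728) (nat_lit 12566528)) (I.pos (nat_lit 86704128) (nat_lit 100450304)) (I.mix (nat_lit 36192256) (nat_lit 51331072)) (I.mix (nat_lit 25460736) (nat_lit 36487168)) (I.mix (nat_lit 8585216) (nat_lit 14811136)))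
  false (nat_lit 0)
def b2_3 : Bx := Bx.mk (St.mk (I.pos (nat_lit 138477568) (nat_lit 198524928)) (I.mix (nat_lit 9535488) (nat_lit 52887552)) (I.pos (nat_lit 28295168) (nat_lit 99434496)) (I.pos (nat_lit 167854080) (nat_lit 238927872)) (I.mix (nat_lit 154451968) (nat_lit 50659328)) (I.mix (nat_lit 135725056) (nat_lit 69058560)) (I.mix (nat_lit 134512640) (nat_lit 55689216)))
  false (nat_lit 0)
def b2_4 : Bx := Bx.mk (St.mk (I.mix (nat_lit 46792704) (nat_lit 71598080)) (I.mix (nat_lit 9732096) (nat_lit 35389440)) (I.mix (nat_lit 2064384) (nat_lit 24363008)) (I.pos (nat_lit 86802432) (nat_lit 111165440)) (I.mix (nat_lit 62586880) (nat_lit 36519936)) (I.mix (nat_lit 45547520) (nat_lit 25821184)) (I.mix (nat_lit 17498112) (nat_lit 14942208)))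
  false (nat_lit 0)
def b2_5 : Bx := Bx.mk (St.mk (I.pos (nat_lit 144654336) (nat_lit 194248704)) (I.mix (nat_lit 40337408) (nat_lit 6995968)) (I.mix (nat_lit 10534912) (nat_lit 46055424)) (I.pos (nat_lit 177684480) (nat_lit 227311616)) (I.mix (nat_lit 77332480) (nat_lit 85786624)) (I.mix (nat_lit 79282176) (nat_lit 63471616)) (I.mix (nat_lit 71794688) (nat_lit 62291968)))
  false (nat_lit 11651008)
def b2_6 : Bx := Bx.mk (St.mk (I.pos (nat_lit 120651776) (nat_lit 165019648)) (I.neg (nat_lit 163840) (nat_lit 40861696)) (I.mix (nat_lit 10764288) (nat_lit 28540928)) (I.pos (nat_lit 153026560) (nat_lit 191594496)) (I.mix (nat_lit 80379904) (nat_lit 63586304)) (I.mix (nat_lit 40599552) (nat_lit 59031552)) (I.mix (nat_lit 41910272) (nat_lit 50806784)))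
  false (nat_lit 0)
def b2_7 : Bx := Bx.mk (St.mk (I.mix (nat_lit 65880064) (nat_lit 62455808)) (I.mix (nat_lit 12484608) (nat_lit 13402112)) (I.pos (nat_lit 5242880) (nat_lit 16351232)) (I.pos (nat_lit 88866816) (nat_lit 105938944)) (I.mix (nat_lit 35700736) (nat_lit 28688384)) (I.mix (nat_lit 21856256) (nat_lit 25378816)) (I.mix (nat_lit 10141696) (nat_lit 9388032)))
  false (nat_lit 0)
def b2_8 : Bx := Bx.mk (St.mk (I.pos (nat_lit 146849792) (nat_lit 175489024)) (I.neg (nat_lit 14811136) (nat_lit 39206912)) (I.mix (nat_lit 12189696) (nat_lit 13402112)) (I.pos (nat_lit 180371456) (nat_lit 207241216)) (I.mix (nat_lit 65159168) (nat_lit 64700416)) (I.mix (nat_lit 61652992) (nat_lit 44941312)) (I.mix (nat_lit 60899328) (nat_lit 45088768)))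
  false (nat_lit 0)
def b2_9 : Bx := Bx.mk (St.mk (I.mix (nat_lit 36323328) (nat_lit 102121472)) (I.mix (nat_lit 11862016) (nat_lit 33505280)) (I.mix (nat_lit 4243456) (nat_lit 25706496)) (I.pos (nat_lit 84738048) (nat_lit 128745472)) (I.mix (nat_lit 51216384) (nat_lit 45744128)) (I.mix (nat_lit 44498944) (nat_lit 28606464)) (I.mix (nat_lit 28672000) (nat_lit 19038208)))
  false (nat_lit 0)
def b2_10 : Bx := Bx.mk (St.mk (I.pos (nat_lit 75186176) (nat_lit 128712704)) (I.mix (nat_lit 63373312) (nat_lit 10715136)) (I.mix (nat_lit 38748160) (nat_lit 10829824)) (I.pos (nat_lit 112459776) (nat_lit 157515776)) (I.mix (nat_lit 85327872) (nat_lit 48267264)) (I.mix (nat_lit 40943616) (nat_lit 69451776)) (I.mix (nat_lit 29409280) (nat_lit 44793856)))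
  false (nat_lit 0)
def b2_11 : Bx := Bx.mk (St.mk (I.mix (nat_lit 51658752) (nat_lit 34865152)) (I.mix (nat_lit 32145408) (nat_lit 9748480)) (I.mix (nat_lit 376832) (nat_lit 13811712)) (I.pos (nat_lit 85114880) (nat_lit 100745216)) (I.mix (nat_lit 35717120) (nat_lit 38076416)) (I.mix (nat_lit 22495232) (nat_lit 34422784)) (I.mix (nat_lit 12943360) (nat_lit 9601024)))
  false (nat_lit 0)
def b2_12 : Bx := Bx.mk (St.mk (I.pos (nat_lit 183156736) (nat_lit 230653952)) (I.mix (nat_lit 2736128) (nat_lit 27328512)) (I.pos (nat_lit 12861440) (nat_lit 62717952)) (I.pos (nat_lit 234733568) (nat_lit 290160640)) (I.mix (nat_lit 111280128) (nat_lit 45170688)) (I.mix (nat_lit 65716224) (nat_lit 48840704)) (I.mix (nat_lit 100646912) (nat_lit 77660160)))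
  false (nat_lit 0)
def b2_13 : Bx := Bx.mk (St.mk (I.pos (nat_lit 221970432) (nat_lit 269533184)) (I.mix (nat_lit 26509312) (nat_lit 20004864)) (I.mix (nat_lit 38043648) (nat_lit 47136768)) (I.pos (nat_lit 296321024) (nat_lit 375767040)) (I.mix (nat_lit 83427328) (nat_lit 30867456)) (I.mix (nat_lit 34734080) (nat_lit 52658176)) (I.mix (nat_lit 62406656) (nat_lit 90963968)))
  false (nat_lit 0)
def b2_14 : Bx := Bx.mk (St.mk (I.pos (nat_lit 168263680) (nat_lit 220463104)) (I.pos (nat_lit 8667136) (nat_lit 52445184)) (I.pos (nat_lit 32899072) (nat_lit 104316928)) (I.pos (nat_lit 218169344) (nat_lit 273825792)) (I.mix (nat_lit 122601472) (nat_lit 86851584)) (I.mix (nat_lit 94994432) (nat_lit 68173824)) (I.mix (nat_lit 155713536) (nat_lit 88375296)))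
  false (nat_lit 0)
def b2_15 : Bx := Bx.mk (St.mk (I.pos (nat_lit 217677824) (nat_lit 286113792)) (I.mix (nat_lit 24805376) (nat_lit 37519360)) (I.mix (nat_lit 34553856) (nat_lit 81412096)) (I.pos (nat_lit 289947648) (nat_lit 412680192)) (I.mix (nat_lit 77758464) (nat_lit 64765952)) (I.mix (nat_lit 68517888) (nat_lit 49594368)) (I.mix (nat_lit 122486784) (nat_lit 81559552)))
  false (nat_lit 0)
def b2_16 : Bx := Bx.mk (St.mk (I.pos (nat_lit 243793920) (nat_lit 283246592)) (I.mix (nat_lit 35438592) (nat_lit 9060352)) (I.mix (nat_lit 57982976) (nat_lit 23281664)) (I.pos (nat_lit 338804736) (nat_lit 410501120)) (I.mix (nat_lit 73367552) (nat_lit 28540928)) (I.mix (nat_lit 36093952) (nat_lit 45170688)) (I.mix (nat_lit 66420736) (nat_lit 73826304)))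
  false (nat_lit 0)
def b2_17 : Bx := Bx.mk (St.mk (I.pos (nat_lit 205012992) (nat_lit 281952256)) (I.mix (nat_lit 15613952) (nat_lit 37224448)) (I.mix (nat_lit 14712832) (nat_lit 81756160)) (I.pos (nat_lit 267812864) (nat_lit 403537920)) (I.mix (nat_lit 77578240) (nat_lit 58589184)) (I.mix (nat_lit 62668800) (nat_lit 54706176)) (I.mix (nat_lit 105611264) (nat_lit 90914816)))
  false (nat_lit 0)
def b2_18 : Bx := Bx.mk (St.mk (I.pos (nat_lit 196689920) (nat_lit 238567424)) (I.mix (nat_lit 8732672) (nat_lit 32964608)) (I.pos (nat_lit 3178496) (nat_lit 75399168)) (I.pos (nat_lit 256131072) (nat_lit 307118080)) (I.mix (nat_lit 91275264) (nat_lit 54312960)) (I.mix (nat_lit 58654720) (nat_lit 43876352)) (I.mix (nat_lit 91176960) (nat_lit 72253440)))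
  false (nat_lit 0)
def b2_19 : Bx := Bx.mk (St.mk (I.pos (nat_lit 230883328) (nat_lit 277020672)) (I.mix (nat_lit 33013760) (nat_lit 17907712)) (I.mix (nat_lit 53018624) (nat_lit 43171840)) (I.pos (nat_lit 309444608) (nat_lit 394117120)) (I.mix (nat_lit 82968576) (nat_lit 31817728)) (I.mix (nat_lit 35307520) (nat_lit 51150848)) (I.mix (nat_lit 62095360) (nat_lit 87474176)))
  false (nat_lit 0)
def b2_20 : Bx := Bx.mk (St.mk (I.pos (nat_lit 139837440) (nat_lit 191250432)) (I.mix (nat_lit 25165824) (nat_lit 27115520)) (I.pos (nat_lit 11616256) (nat_lit 69337088)) (I.pos (nat_lit 168329216) (nat_lit 224690176)) (I.mix (nat_lit 160710656) (nat_lit 95617024)) (I.mix (nat_lit 139526144) (nat_lit 85393408)) (I.mix (nat_lit 133988352) (nat_lit 74629120)))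
  false (nat_lit 41606834)
def b2_21 : Bx := Bx.mk (St.mk (I.pos (nat_lit 190808064) (nat_lit 221528064)) (I.pos (nat_lit 11698176) (nat_lit 30441472)) (I.pos (nat_lit 38797312) (nat_lit 67502080)) (I.pos (nat_lit 245792768) (nat_lit 275169280)) (I.mix (nat_lit 85213184) (nat_lit 32014336)) (I.mix (nat_lit 46383104) (nat_lit 34799616)) (I.mix (nat_lit 72663040) (nat_lit 54296576)))
  false (nat_lit 0)
def t2 : BTr := (BTr.n (BTr.n (BTr.n (BTr.n (BTr.b b2_0) (BTr.b b2_1)) (BTr.n (BTr.b b2_2) (BTr.n (BTr.b b2_3) (BTr.b b2_4)))) (BTr.n (BTr.n (BTr.b b2_5) (BTr.n (BTr.b b2_6) (BTr.b b2_7))) (BTr.n (BTr.b b2_8) (BTr.n (BTr.b b2_9) (BTr.b b2_10))))) (BTr.n (BTr.n (BTr.n (BTr.b b2_11) (BTr.b b2_12)) (BTr.n (BTr.b b2_13) (BTr.n (BTr.b b2_14) (BTr.b b2_15)))) (BTr.n (BTr.n (BTr.b b2_16) (BTr.n (BTr.b b2_17) (BTr.b b2_18))) (BTr.n (BTr.b b2_19) (BTr.n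 (BTr.b b2_20) (BTr.b b2_21))))))
namespace T2
def l0 : Tr := Tr.L (Pth.l (Pth.l (Pth.l (Pth.l Pth.z))))
def l1 : Tr := Tr.L (Pth.l (Pth.l (Pth.l (Pth.r Pth.z))))
def l2 : Tr := Tr.L (Pth.l (Pth.l (Pth.r (Pth.l Pth.z))))
def l3 : Tr := Tr.L (Pth.l (Pth.l (Pth.r (Pth.r (Pth.l Pth.z)))))
def l4 : Tr := Tr.L (Pth.l (Pth.l (Pth.r (Pth.r (Pth.r Pth.z)))))
def l5 : Tr := Tr.L (Pth.l (Pth.r (Pth.l (Pth.l Pth.z))))
def l6 : Tr := Tr.L (Pth.l (Pth.r (Pth.l (Pth.r (Pth.l Pth.z)))))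
def l7 : Tr := Tr.L (Pth.l (Pth.r (Pth.l (Pth.r (Pth.r Pth.z)))))
def l8 : Tr := Tr.L (Pth.l (Pth.r (Pth.r (Pth.l Pth.z))))
def l9 : Tr := Tr.L (Pth.l (Pth.r (Pth.r (Pth.r (Pth.l Pth.z)))))
def l10 : Tr := Tr.L (Pth.l (Pth.r (Pth.r (Pth.r (Pth.r Pth.z)))))
def l11 : Tr := Tr.L (Pth.r (Pth.l (Pth.l (Pth.l Pth.z))))
def l12 : Tr := Tr.L (Pth.r (Pth.l (Pth.l (Pth.r Pth.z))))
def l13 : Tr := Tr.L (Pth.r (Pth.l (Pth.r (Pth.l Pth.z))))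
def l14 : Tr := Tr.L (Pth.r (Pth.l (Pth.r (Pth.r (Pth.l Pth.z)))))
def l15 : Tr := Tr.L (Pth.r (Pth.l (Pth.r (Pth.r (Pth.r Pth.z)))))
def l16 : Tr := Tr.L (Pth.r (Pth.r (Pth.l (Pth.l Pth.z))))
def l17 : Tr := Tr.L (Pth.r (Pth.r (Pth.l (Pth.r (Pth.l Pth.z)))))
def l18 : Tr := Tr.L (Pth.r (Pth.r (Pth.l (Pth.r (Pth.r Pth.z)))))
def l19 : Tr := Tr.L (Pth.r (Pth.r (Pth.r (Pth.l Pth.z))))
def l20 : Tr := Tr.L (Pth.r (Pth.r (Pth.r (Pth.r (Pth.l Pth.z)))))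
def l21 : Tr := Tr.L (Pth.r (Pth.r (Pth.r (Pth.r (Pth.r Pth.z)))))
end T2
theorem bx0_0 : BoxOK sI cl4 cl6 cl6 t1 t1 b0_0 :=
  box_mk (TrL.c (I.pos (nat_lit 0) (nat_lit 0)) (xa (xb (xa (xb T1.l0 T1.l0) T1.l0) (xa (xb T1.l0 (xa (xb T1.l0 T1.l0) T1.l0)) (xb T1.l0 (xa T1.l0 T1.l0)))) (xb (xa T1.l0 T1.l0) (xa (xb T1.l0 (xa T1.l0 T1.l0)) (xb T1.l0 (xa T1.l0 T1.l0)))))
  (TrL.c (I.pos (nat_lit 0) (nat_lit 0)) (xa (xb T1.l1 (xa T1.l1 T1.l1)) (xb T1.l1 (xa T1.l1 T1.l1)))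
  (TrL.c (I.pos (nat_lit 0) (nat_lit 0)) T1.l2
  (TrL.c (I.pos (nat_lit 0) (nat_lit 0)) (xa T1.l3 (xb T1.l3 (xa T1.l3 T1.l3)))
  (TrL.c (I.pos (nat_lit 0) (nat_lit 0)) (xa T1.l4 T1.l4)
  (TrL.c (I.pos (nat_lit 0) (nat_lit 0)) (xa (xb T1.l5 (xa T1.l5 T1.l5)) (xb T1.l5 (xa T1.l5 T1.l5)))
  TrL.n)))))) (by decide +kernel)
theorem bx0_1 : BoxOK sI cl4 cl6 cl6 t1 t1 b0_1 :=
  box_mk (TrL.c (I.pos (nat_lit 0) (nat_lit 0)) (xa (xb (xa T1.l6 T1.l6) (xa (xa T1.l6 T1.l6) T1.l6)) (xa T1.l6 (xb T1.l6 T1.l6)))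
  (TrL.c (I.pos (nat_lit 0) (nat_lit 0)) T1.l1
  (TrL.c (I.pos (nat_lit 0) (nat_lit 0)) T1.l2
  (TrL.c (I.pos (nat_lit 0) (nat_lit 0)) T1.l3
  (TrL.c (I.pos (nat_lit 0) (nat_lit 0)) (xa T1.l7 T1.l7)
  (TrL.c (I.pos (nat_lit 0) (nat_lit 0)) T1.l5
  TrL.n)))))) (by decide +kernel)
theorem bx0_2 : BoxOK sI cl4 cl6 cl6 t1 t1 b0_2 :=
  box_mk (TrL.c (I.pos (nat_lit 0) (nat_lit 0)) (xb (xa (xb T1.l8 T1.l8) T1.l8) (xa T1.l8 T1.l8))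
  (TrL.c (I.pos (nat_lit 0) (nat_lit 0)) T1.l1
  (TrL.c (I.pos (nat_lit 0) (nat_lit 0)) T1.l2
  (TrL.c (I.pos (nat_lit 0) (nat_lit 0)) T1.l3
  (TrL.c (I.pos (nat_lit 0) (nat_lit 0)) T1.l9
  (TrL.c (I.pos (nat_lit 0) (nat_lit 0)) T1.l5
  TrL.n)))))) (by decide +kernel)
theorem bx0_3 : BoxOK sI cl4 cl6 cl6 t1 t1 b0_3 :=
  box_mk (TrL.c (I.pos (nat_lit 0) (nat_lit 0)) (xa (xb (xa T1.l10 T1.l10) (xa T1.l10 T1.l10)) T1.l6)
  (TrL.c (I.pos (nat_lit 0) (nat_lit 0)) T1.l3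
  (TrL.c (I.pos (nat_lit 0) (nat_lit 0)) T1.l2
  (TrL.c (I.pos (nat_lit 0) (nat_lit 0)) T1.l3
  (TrL.c (I.pos (nat_lit 0) (nat_lit 0)) T1.l11
  (TrL.c (I.pos (nat_lit 0) (nat_lit 0)) T1.l5
  TrL.n)))))) (by decide +kernel)
theorem bx0_4 : BoxOK sI cl4 cl6 cl6 t1 t1 b0_4 :=
  box_mk (TrL.c (I.pos (nat_lit 0) (nat_lit 0)) (xa (xb (xa T1.l0 T1.l0) (xa T1.l0 T1.l0)) (xb (xa T1.l0 T1.l3) (xa T1.l0 T1.l3)))
  (TrL.c (I.pos (nat_lit 0) (nat_lit 0)) (xa (xb T1.l1 T1.l1) (xb T1.l1 T1.l1))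
  (TrL.c (I.pos (nat_lit 0) (nat_lit 0)) T1.l2
  (TrL.c (I.pos (nat_lit 0) (nat_lit 0)) (xa T1.l3 (xb T1.l3 (xa T1.l3 T1.l3)))
  (TrL.c (I.pos (nat_lit 0) (nat_lit 0)) T1.l4
  (TrL.c (I.pos (nat_lit 0) (nat_lit 0)) (xa (xb T1.l5 T1.l5) (xb T1.l5 T1.l5))
  TrL.n)))))) (by decide +kernel)
theorem bx0_5 : BoxOK sI cl4 cl6 cl6 t1 t1 b0_5 :=
  box_mk (TrL.c (I.pos (nat_lit 0) (nat_lit 0)) (xa (xb T1.l12 T1.l12) T1.l10)
  (TrL.c (I.pos (nat_lit 0) (nat_lit 0)) T1.l1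
  (TrL.c (I.pos (nat_lit 0) (nat_lit 0)) T1.l2
  (TrL.c (I.pos (nat_lit 0) (nat_lit 0)) T1.l3
  (TrL.c (I.pos (nat_lit 0) (nat_lit 0)) T1.l13
  (TrL.c (I.pos (nat_lit 0) (nat_lit 0)) T1.l5
  TrL.n)))))) (by decide +kernel)
theorem bx0_6 : BoxOK sI cl4 cl6 cl6 t1 t1 b0_6 :=
  box_mk (TrL.c (I.pos (nat_lit 0) (nat_lit 0)) (xa (xb (xa (xb T1.l0 T1.l0) (xb T1.l0 T1.l0)) (xa (xb (xa T1.l0 T1.l0) (xa (xb T1.l0 T1.l0) (xs T1.l0 T1.l0))) (xb (xa T1.l0 T1.l0) (xs T1.l0 (xa T1.l0 T1.l0))))) (xb (xa T1.l3 (xb T1.l0 T1.l0)) (xa (xb T1.l0 (xs T1.l0 T1.l0)) (xb (xa T1.l0 T1.l0) (xs T1.l0 (xa T1.l0 T1.l0))))))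
  (TrL.c (I.pos (nat_lit 0) (nat_lit 0)) (xa (xb T1.l1 (xa T1.l1 T1.l1)) (xb (xa T1.l1 T1.l1) (xa T1.l1 T1.l1)))
  (TrL.c (I.pos (nat_lit 0) (nat_lit 0)) (xa T1.l2 T1.l2)
  (TrL.c (I.pos (nat_lit 0) (nat_lit 0)) (xa (xb T1.l3 T1.l3) (xb (xa T1.l3 T1.l3) (xa T1.l3 (xb T1.l3 T1.l3))))
  (TrL.c (I.pos (nat_lit 0) (nat_lit 0)) (xa T1.l4 T1.l4)
  (TrL.c (I.pos (nat_lit 0) (nat_lit 0)) (xa (xb T1.l5 (xa T1.l5 T1.l5)) (xb (xa T1.l5 T1.l5) (xa T1.l5 T1.l5)))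
  TrL.n)))))) (by decide +kernel)
theorem bx0_7 : BoxOK sI cl4 cl6 cl6 t1 t1 b0_7 :=
  box_mk (TrL.c (I.pos (nat_lit 0) (nat_lit 0)) (xa T1.l0 (xb T1.l3 T1.l3))
  (TrL.c (I.pos (nat_lit 0) (nat_lit 0)) (xa T1.l1 (xb T1.l1 T1.l1))
  (TrL.c (I.pos (nat_lit 0) (nat_lit 0)) T1.l5
  (TrL.c (I.pos (nat_lit 0) (nat_lit 0)) (xa T1.l3 T1.l3)
  (TrL.c (I.pos (nat_lit 0) (nat_lit 0)) T1.l1
  (TrL.c (I.pos (nat_lit 0) (nat_lit 0)) (xa T1.l5 (xb T1.l5 T1.l5))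
  TrL.n)))))) (by decide +kernel)
theorem bx0_8 : BoxOK sI cl4 cl6 cl6 t1 t1 b0_8 :=
  box_mk (TrL.c (I.pos (nat_lit 0) (nat_lit 0)) (xa (xb T1.l8 T1.l8) (xb (xa T1.l14 (xb T1.l14 T1.l14)) (xa T1.l14 T1.l0)))
  (TrL.c (I.pos (nat_lit 0) (nat_lit 0)) T1.l1
  (TrL.c (I.pos (nat_lit 0) (nat_lit 0)) T1.l2
  (TrL.c (I.pos (nat_lit 0) (nat_lit 0)) T1.l3
  (TrL.c (I.pos (nat_lit 0) (nat_lit 0)) (xa T1.l15 T1.l1)
  (TrL.c (I.pos (nat_lit 0) (nat_lit 0)) T1.l5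
  TrL.n)))))) (by decide +kernel)
theorem bx0_9 : BoxOK sI cl4 cl6 cl6 t1 t1 b0_9 :=
  box_mk (TrL.c (I.pos (nat_lit 0) (nat_lit 0)) (xa (xb (xa T1.l10 T1.l6) T1.l10) (xb (xa T1.l6 T1.l6) T1.l6))
  (TrL.c (I.pos (nat_lit 0) (nat_lit 0)) T1.l1
  (TrL.c (I.pos (nat_lit 0) (nat_lit 0)) T1.l2
  (TrL.c (I.pos (nat_lit 0) (nat_lit 0)) T1.l3
  (TrL.c (I.pos (nat_lit 0) (nat_lit 0)) T1.l17
  (TrL.c (I.pos (nat_lit 0) (nat_lit 0)) T1.l5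
  TrL.n)))))) (by decide +kernel)
theorem bx0_10 : BoxOK sI cl4 cl6 cl6 t1 t1 b0_10 :=
  box_mk (TrL.c (I.pos (nat_lit 0) (nat_lit 0)) (xa (xb (xa (xa T1.l18 T1.l18) T1.l18) (xa (xa T1.l18 T1.l6) T1.l6)) (xa T1.l6 T1.l6))
  (TrL.c (I.pos (nat_lit 0) (nat_lit 0)) (xa T1.l3 T1.l1)
  (TrL.c (I.pos (nat_lit 0) (nat_lit 0)) T1.l2
  (TrL.c (I.pos (nat_lit 0) (nat_lit 0)) (xa T1.l1 T1.l3)
  (TrL.c (I.pos (nat_lit 0) (nat_lit 0)) (xa T1.l19 T1.l7)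
  (TrL.c (I.pos (nat_lit 0) (nat_lit 0)) (xa T1.l5 T1.l5)
  TrL.n)))))) (by decide +kernel)
theorem bx0_11 : BoxOK sI cl4 cl6 cl6 t1 t1 b0_11 :=
  box_mk (TrL.c (I.pos (nat_lit 0) (nat_lit 0)) T1.l0
  (TrL.c (I.pos (nat_lit 0) (nat_lit 0)) T1.l1
  (TrL.c (I.pos (nat_lit 0) (nat_lit 0)) T1.l2
  (TrL.c (I.pos (nat_lit 0) (nat_lit 0)) T1.l3
  (TrL.c (I.pos (nat_lit 0) (nat_lit 0)) T1.l1
  (TrL.c (I.pos (nat_lit 0) (nat_lit 0)) T1.l5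
  TrL.n)))))) (by decide +kernel)
theorem bx0_12 : BoxOK sI cl4 cl6 cl6 t1 t1 b0_12 :=
  box_mk (TrL.c (I.pos (nat_lit 0) (nat_lit 0)) T1.l14
  (TrL.c (I.pos (nat_lit 0) (nat_lit 0)) T1.l1
  (TrL.c (I.pos (nat_lit 0) (nat_lit 0)) T1.l2
  (TrL.c (I.pos (nat_lit 0) (nat_lit 0)) T1.l3
  (TrL.c (I.pos (nat_lit 0) (nat_lit 0)) T1.l20
  (TrL.c (I.pos (nat_lit 0) (nat_lit 0)) T1.l5
  TrL.n)))))) (by decide +kernel)
theorem bx0_13 : BoxOK sI cl4 cl6 cl6 t1 t1 b0_13 :=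
  box_mk (TrL.c (I.pos (nat_lit 0) (nat_lit 0)) (xa (xb T1.l21 (xa T1.l21 T1.l21)) (xb (xa T1.l21 T1.l21) (xa T1.l21 T1.l21)))
  (TrL.c (I.pos (nat_lit 0) (nat_lit 0)) T1.l1
  (TrL.c (I.pos (nat_lit 0) (nat_lit 0)) T1.l2
  (TrL.c (I.pos (nat_lit 0) (nat_lit 0)) (xa T1.l3 T1.l3)
  (TrL.c (I.pos (nat_lit 0) (nat_lit 0)) T1.l1
  (TrL.c (I.pos (nat_lit 0) (nat_lit 0)) T1.l5
  TrL.n)))))) (by decide +kernel)
theorem bx0_14 : BoxOK sI cl4 cl6 cl6 t1 t1 b0_14 :=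
  box_mk (TrL.c (I.pos (nat_lit 0) (nat_lit 0)) (xa T1.l14 T1.l21)
  (TrL.c (I.pos (nat_lit 0) (nat_lit 0)) T1.l1
  (TrL.c (I.pos (nat_lit 0) (nat_lit 0)) T1.l2
  (TrL.c (I.pos (nat_lit 0) (nat_lit 0)) T1.l3
  (TrL.c (I.pos (nat_lit 0) (nat_lit 0)) T1.l20
  (TrL.c (I.pos (nat_lit 0) (nat_lit 0)) T1.l5
  TrL.n)))))) (by decide +kernel)
theorem bx0_15 : BoxOK sI cl4 cl6 cl6 t1 t1 b0_15 :=
  box_mk (TrL.c (I.pos (nat_lit 0) (nat_lit 0)) (xa (xb T1.l21 T1.l21) T1.l21)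
  (TrL.c (I.pos (nat_lit 0) (nat_lit 0)) T1.l1
  (TrL.c (I.pos (nat_lit 0) (nat_lit 0)) T1.l2
  (TrL.c (I.pos (nat_lit 0) (nat_lit 0)) T1.l3
  (TrL.c (I.pos (nat_lit 0) (nat_lit 0)) T1.l20
  (TrL.c (I.pos (nat_lit 0) (nat_lit 0)) T1.l5
  TrL.n)))))) (by decide +kernel)
theorem bx0_16 : BoxOK sI cl4 cl6 cl6 t1 t1 b0_16 :=
  box_mk (TrL.c (I.pos (nat_lit 0) (nat_lit 0)) T1.l0
  (TrL.c (I.pos (nat_lit 0) (nat_lit 0)) T1.l1
  (TrL.c (I.pos (nat_lit 0) (nat_lit 0)) T1.l2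
  (TrL.c (I.pos (nat_lit 0) (nat_lit 0)) T1.l3
  (TrL.c (I.pos (nat_lit 0) (nat_lit 0)) T1.l1
  (TrL.c (I.pos (nat_lit 0) (nat_lit 0)) T1.l5
  TrL.n)))))) (by decide +kernel)
theorem bx0_17 : BoxOK sI cl4 cl6 cl6 t1 t1 b0_17 :=
  box_mk (TrL.c (I.pos (nat_lit 0) (nat_lit 0)) (xb (xa (xb T1.l21 T1.l21) (xb T1.l0 T1.l21)) (xa (xb (xa T1.l21 T1.l21) (xa (xb T1.l21 T1.l21) T1.l21)) (xb (xa T1.l21 T1.l21) (xa T1.l21 T1.l0))))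
  (TrL.c (I.pos (nat_lit 0) (nat_lit 0)) (xb T1.l1 (xa T1.l1 T1.l1))
  (TrL.c (I.pos (nat_lit 0) (nat_lit 0)) T1.l2
  (TrL.c (I.pos (nat_lit 0) (nat_lit 0)) (xb T1.l3 T1.l3)
  (TrL.c (I.pos (nat_lit 0) (nat_lit 0)) (xb T1.l20 T1.l4)
  (TrL.c (I.pos (nat_lit 0) (nat_lit 0)) (xb T1.l5 (xa T1.l5 T1.l5))
  TrL.n)))))) (by decide +kernel)
theorem bx0_18 : BoxOK sI cl4 cl6 cl6 t1 t1 b0_18 :=
  box_mk (TrL.c (I.pos (nat_lit 0) (nat_lit 0)) (xb T1.l22 T1.l6)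
  (TrL.c (I.pos (nat_lit 0) (nat_lit 0)) T1.l1
  (TrL.c (I.pos (nat_lit 0) (nat_lit 0)) T1.l2
  (TrL.c (I.pos (nat_lit 0) (nat_lit 0)) T1.l3
  (TrL.c (I.pos (nat_lit 0) (nat_lit 0)) T1.l7
  (TrL.c (I.pos (nat_lit 0) (nat_lit 0)) T1.l5
  TrL.n)))))) (by decide +kernel)
theorem bx0_19 : BoxOK sI cl4 cl6 cl6 t1 t1 b0_19 :=
  box_mk (TrL.c (I.pos (nat_lit 0) (nat_lit 0)) T1.l21
  (TrL.c (I.pos (nat_lit 0) (nat_lit 0)) T1.l1
  (TrL.c (I.pos (nat_lit 0) (nat_lit 0)) T1.l2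
  (TrL.c (I.pos (nat_lit 0) (nat_lit 0)) T1.l3
  (TrL.c (I.pos (nat_lit 0) (nat_lit 0)) T1.l20
  (TrL.c (I.pos (nat_lit 0) (nat_lit 0)) T1.l5
  TrL.n)))))) (by decide +kernel)
theorem sv0 : StarV sI cl4 cl6 cl6 t1 t1 t0 :=
  (bt_n (bt_n (bt_n (bt_n (bt_b bx0_0) (bt_b bx0_1)) (bt_n (bt_b bx0_2) (bt_n (bt_b bx0_3) (bt_b bx0_4)))) (bt_n (bt_n (bt_b bx0_5) (bt_b bx0_6)) (bt_n (bt_b bx0_7) (bt_n (bt_b bx0_8) (bt_b bx0_9))))) (bt_n (bt_n (bt_n (bt_b bx0_10) (bt_b bx0_11)) (bt_n (bt_b bx0_12) (bt_n (bt_b bx0_13) (bt_b bx0_14)))) (bt_n (bt_n (bt_b bx0_15) (bt_b bx0_16)) (bt_n (bt_b bx0_17) (bt_n (bt_b bx0_18) (bt_b bx0_19))))))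
def S0 : StarD := StarD.mk cl4 cl6 cl6 1 1 t0
theorem bx1_0 : BoxOK sI cl6 cl4 cl6 t0 t2 b1_0 :=
  box_mk (TrL.c (I.pos (nat_lit 0) (nat_lit 0)) (xa (xb (xb T0.l0 (xa T0.l6 T0.l0)) (xb (xa T0.l6 T0.l0) (xa (xb T0.l6 (xs T0.l0 T0.l0)) (xb T0.l0 (xs T0.l0 T0.l0))))) (xb (xb T0.l0 T0.l0) (xb (xa T0.l0 T0.l0) (xa (xb T0.l0 (xs T0.l0 T0.l0)) (xs T0.l0 (xb T0.l0 T0.l0))))))
  (TrL.c (I.pos (nat_lit 0) (nat_lit 0)) (xb T2.l1 (xa T2.l1 T2.l1))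
  (TrL.c (I.pos (nat_lit 0) (nat_lit 89480386)) (xR (xR T0.l1 T0.l1) (xR (xR T0.l1 T0.l1) (xb T0.l1 (xR T0.l1 T0.l1))))
  (TrL.c (I.pos (nat_lit 0) (nat_lit 41530880)) (xR T2.l2 (xR T2.l2 T2.l2))
  (TrL.c (I.pos (nat_lit 0) (nat_lit 0)) (xb (xa T2.l3 T2.l3) (xa T2.l3 T2.l3))
  (TrL.c (I.pos (nat_lit 0) (nat_lit 0)) T0.l2
  (TrL.c (I.mix (nat_lit 41527258) (nat_lit 41530880)) (xR (xR (xR T2.l4 T2.l4) T2.l4) (xR T2.l4 (xR T2.l4 T2.l4)))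
  (TrL.c (I.mix (nat_lit 41527258) (nat_lit 4274)) (xR (xR T0.l3 T0.l3) T0.l3)
  TrL.n)))))))) (by decide +kernel)
theorem bx1_1 : BoxOK sI cl6 cl4 cl6 t0 t2 b1_1 :=
  box_mk (TrL.c (I.pos (nat_lit 0) (nat_lit 0)) (xa (xb (xa (xb T0.l4 T0.l4) T0.l4) (xa (xb T0.l4 T0.l4) T0.l4)) (xb (xa T0.l4 T0.l6) (xa T0.l4 T0.l4)))
  (TrL.c (I.pos (nat_lit 0) (nat_lit 0)) (xa T2.l1 T2.l1)
  (TrL.c (I.pos (nat_lit 0) (nat_lit 89480386)) (xR (xR T0.l1 T0.l1) (xR T0.l1 (xa (xb (xR T0.l1 T0.l1) T0.l1) (xb T0.l1 T0.l1))))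
  (TrL.c (I.pos (nat_lit 0) (nat_lit 41530880)) (xR T2.l2 (xR T2.l2 T2.l2))
  (TrL.c (I.pos (nat_lit 0) (nat_lit 0)) (xa (xb T2.l5 T2.l5) (xb T2.l5 T2.l5))
  (TrL.c (I.pos (nat_lit 0) (nat_lit 0)) T0.l2
  (TrL.c (I.mix (nat_lit 41527258) (nat_lit 41530880)) (xR (xR (xR T2.l4 T2.l4) T2.l4) T2.l9)
  (TrL.c (I.mix (nat_lit 41527258) (nat_lit 4274)) (xR (xa T0.l3 T0.l3) T0.l3)
  TrL.n)))))))) (by decide +kernel)
theorem bx1_2 : BoxOK sI cl6 cl4 cl6 t0 t2 b1_2 :=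
  box_mk (TrL.c (I.pos (nat_lit 0) (nat_lit 0)) (xb T2.l6 T2.l6)
  (TrL.c (I.pos (nat_lit 0) (nat_lit 0)) T0.l18
  (TrL.c (I.mix (nat_lit 41527258) (nat_lit 41530880)) (xR (xR (xb T2.l7 T2.l7) T2.l7) T2.l9)
  (TrL.c (I.mix (nat_lit 41527258) (nat_lit 4274)) (xR (xb T0.l5 T0.l5) T0.l10)
  TrL.n)))) (by decide +kernel)
theorem bx1_3 : BoxOK sI cl6 cl4 cl6 t0 t2 b1_3 :=
  box_mk (TrL.c (I.pos (nat_lit 0) (nat_lit 0)) (xb (xa (xb (xa T0.l6 T0.l6) (xa T0.l6 T0.l6)) (xb (xa T0.l6 T0.l6) (xa T0.l6 T0.l6))) (xa (xb (xa T0.l6 T0.l6) (xa (xb T0.l6 (xa T0.l6 T0.l6)) (xb T0.l6 (xa T0.l6 T0.l6)))) (xb (xa T0.l6 (xb T0.l6 T0.l6)) (xa (xb T0.l6 (xa T0.l6 T0.l6)) (xb (xa T0.l6 T0.l6) (xa T0.l6 T0.l6))))))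
  (TrL.c (I.pos (nat_lit 0) (nat_lit 0)) (xb (xa T2.l1 T2.l1) (xa T2.l1 T2.l1))
  (TrL.c (I.pos (nat_lit 0) (nat_lit 89480386)) (xR (xR T0.l1 T0.l1) (xR (xb T0.l1 (xR T0.l1 T0.l1)) (xb (xa T0.l1 T0.l1) (xa (xR T0.l1 T0.l1) (xR T0.l1 T0.l1)))))
  (TrL.c (I.pos (nat_lit 0) (nat_lit 41530880)) (xR T2.l2 (xb T2.l2 (xR T2.l2 T2.l2)))
  (TrL.c (I.pos (nat_lit 0) (nat_lit 0)) (xb (xa T2.l20 T2.l20) (xa T2.l20 (xb T2.l20 T2.l3)))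
  (TrL.c (I.pos (nat_lit 0) (nat_lit 0)) (xb T0.l2 T0.l2)
  (TrL.c (I.mix (nat_lit 41527258) (nat_lit 41530880)) (xR (xR (xb (xR T2.l4 T2.l4) (xR T2.l4 T2.l4)) T2.l4) (xR T2.l4 (xb T2.l9 (xR T2.l4 T2.l4))))
  (TrL.c (I.mix (nat_lit 41527258) (nat_lit 4274)) (xR (xb (xR T0.l3 T0.l3) (xR T0.l3 T0.l3)) T0.l3)
  TrL.n)))))))) (by decide +kernel)
theorem bx1_4 : BoxOK sI cl6 cl4 cl6 t0 t2 b1_4 :=
  box_mk (TrL.c (I.pos (nat_lit 0) (nat_lit 0)) (xb (xa T0.l7 T0.l7) T0.l4)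
  (TrL.c (I.pos (nat_lit 0) (nat_lit 0)) T2.l1
  (TrL.c (I.pos (nat_lit 0) (nat_lit 89480386)) (xR T0.l1 (xR T0.l1 T0.l1))
  (TrL.c (I.pos (nat_lit 0) (nat_lit 41530880)) T2.l9
  (TrL.c (I.pos (nat_lit 0) (nat_lit 0)) T2.l8
  (TrL.c (I.pos (nat_lit 0) (nat_lit 0)) T0.l2
  (TrL.c (I.mix (nat_lit 41527258) (nat_lit 41530880)) (xR T2.l11 T2.l9)
  (TrL.c (I.mix (nat_lit 41527258) (nat_lit 4274)) T0.l10
  TrL.n)))))))) (by decide +kernel)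
theorem bx1_5 : BoxOK sI cl6 cl4 cl6 t0 t2 b1_5 :=
  box_mk (TrL.c (I.pos (nat_lit 0) (nat_lit 0)) (xa T2.l1 T2.l6)
  (TrL.c (I.pos (nat_lit 0) (nat_lit 0)) T0.l18
  (TrL.c (I.mix (nat_lit 41527258) (nat_lit 41530880)) (xR (xR (xb (xR T2.l7 T2.l7) (xa T2.l7 T2.l7)) T2.l11) (xR T2.l2 (xa T2.l2 T2.l2)))
  (TrL.c (I.mix (nat_lit 41527258) (nat_lit 4274)) (xR (xb (xa T0.l5 T0.l5) (xa T0.l5 T0.l5)) T0.l5)
  TrL.n)))) (by decide +kernel)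
theorem bx1_6 : BoxOK sI cl6 cl4 cl6 t0 t2 b1_6 :=
  box_mk (TrL.c (I.pos (nat_lit 0) (nat_lit 0)) (xa (xb T0.l0 (xa T0.l0 T0.l0)) (xb (xa T0.l0 T0.l0) (xa T0.l0 (xb T0.l0 T0.l0))))
  (TrL.c (I.pos (nat_lit 0) (nat_lit 0)) (xb T2.l10 (xa T2.l1 T2.l10))
  (TrL.c (I.pos (nat_lit 0) (nat_lit 89480386)) (xR (xR T0.l1 T0.l1) (xR T0.l1 (xR T0.l1 T0.l1)))
  (TrL.c (I.pos (nat_lit 0) (nat_lit 41530880)) (xR T2.l2 (xR T2.l2 T2.l2))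
  (TrL.c (I.pos (nat_lit 0) (nat_lit 0)) (xb (xa T2.l3 (xb T2.l3 T2.l3)) (xa T2.l3 (xb T2.l3 T2.l3)))
  (TrL.c (I.pos (nat_lit 0) (nat_lit 0)) T0.l2
  (TrL.c (I.mix (nat_lit 41527258) (nat_lit 41530880)) (xR (xR T2.l9 T2.l4) (xR T2.l4 (xR T2.l4 T2.l4)))
  (TrL.c (I.mix (nat_lit 41527258) (nat_lit 4274)) (xR (xR T0.l3 T0.l3) T0.l3)
  TrL.n)))))))) (by decide +kernel)
theorem bx1_7 : BoxOK sI cl6 cl4 cl6 t0 t2 b1_7 :=
  box_mk (TrL.c (I.pos (nat_lit 0) (nat_lit 0)) (xb T0.l7 T0.l7)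
  (TrL.c (I.pos (nat_lit 0) (nat_lit 0)) T2.l6
  (TrL.c (I.pos (nat_lit 0) (nat_lit 89480386)) T0.l1
  (TrL.c (I.pos (nat_lit 0) (nat_lit 41530880)) T2.l2
  (TrL.c (I.pos (nat_lit 0) (nat_lit 0)) T2.l6
  (TrL.c (I.pos (nat_lit 0) (nat_lit 0)) T0.l2
  (TrL.c (I.mix (nat_lit 41527258) (nat_lit 41530880)) T2.l4
  (TrL.c (I.mix (nat_lit 41527258) (nat_lit 4274)) T0.l3
  TrL.n)))))))) (by decide +kernel)
theorem bx1_8 : BoxOK sI cl6 cl4 cl6 t0 t2 b1_8 :=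
  box_mk (TrL.c (I.pos (nat_lit 0) (nat_lit 0)) (xa T0.l0 T0.l0)
  (TrL.c (I.pos (nat_lit 0) (nat_lit 0)) T2.l1
  (TrL.c (I.pos (nat_lit 0) (nat_lit 89480386)) (xR (xR T0.l1 T0.l1) T0.l1)
  (TrL.c (I.pos (nat_lit 0) (nat_lit 41530880)) (xR T2.l2 T2.l2)
  (TrL.c (I.pos (nat_lit 0) (nat_lit 0)) T2.l3
  (TrL.c (I.pos (nat_lit 0) (nat_lit 0)) T0.l2
  (TrL.c (I.mix (nat_lit 41527258) (nat_lit 41530880)) (xR T2.l9 T2.l4)
  (TrL.c (I.mix (nat_lit 41527258) (nat_lit 4274)) (xR T0.l3 T0.l3)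
  TrL.n)))))))) (by decide +kernel)
theorem bx1_9 : BoxOK sI cl6 cl4 cl6 t0 t2 b1_9 :=
  box_mk (TrL.c (I.pos (nat_lit 0) (nat_lit 0)) T0.l7
  (TrL.c (I.pos (nat_lit 0) (nat_lit 0)) T2.l1
  (TrL.c (I.pos (nat_lit 0) (nat_lit 89480386)) T0.l1
  (TrL.c (I.pos (nat_lit 0) (nat_lit 41530880)) T2.l2
  (TrL.c (I.pos (nat_lit 0) (nat_lit 0)) T2.l5
  (TrL.c (I.pos (nat_lit 0) (nat_lit 0)) T0.l2
  (TrL.c (I.mix (nat_lit 41527258) (nat_lit 41530880)) T2.l4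
  (TrL.c (I.mix (nat_lit 41527258) (nat_lit 4274)) T0.l3
  TrL.n)))))))) (by decide +kernel)
theorem bx1_10 : BoxOK sI cl6 cl4 cl6 t0 t2 b1_10 :=
  box_mk (TrL.c (I.pos (nat_lit 0) (nat_lit 0)) (xb T0.l0 T0.l0)
  (TrL.c (I.pos (nat_lit 0) (nat_lit 0)) T2.l10
  (TrL.c (I.pos (nat_lit 0) (nat_lit 89480386)) (xR (xR T0.l1 T0.l1) (xR T0.l1 T0.l1))
  (TrL.c (I.pos (nat_lit 0) (nat_lit 41530880)) (xR T2.l2 T2.l2)
  (TrL.c (I.pos (nat_lit 0) (nat_lit 0)) (xb (xa T2.l3 T2.l3) T2.l3)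
  (TrL.c (I.pos (nat_lit 0) (nat_lit 0)) T0.l2
  (TrL.c (I.mix (nat_lit 41527258) (nat_lit 41530880)) (xR T2.l9 T2.l4)
  (TrL.c (I.mix (nat_lit 41527258) (nat_lit 4274)) (xR T0.l3 T0.l3)
  TrL.n)))))))) (by decide +kernel)
theorem bx1_11 : BoxOK sI cl6 cl4 cl6 t0 t2 b1_11 :=
  box_mk (TrL.c (I.pos (nat_lit 0) (nat_lit 0)) T0.l7
  (TrL.c (I.pos (nat_lit 0) (nat_lit 0)) T2.l6
  (TrL.c (I.pos (nat_lit 0) (nat_lit 89480386)) T0.l1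
  (TrL.c (I.pos (nat_lit 0) (nat_lit 41530880)) T2.l2
  (TrL.c (I.pos (nat_lit 0) (nat_lit 0)) T2.l6
  (TrL.c (I.pos (nat_lit 0) (nat_lit 0)) T0.l2
  (TrL.c (I.mix (nat_lit 41527258) (nat_lit 41530880)) T2.l4
  (TrL.c (I.mix (nat_lit 41527258) (nat_lit 4274)) T0.l3
  TrL.n)))))))) (by decide +kernel)
theorem bx1_12 : BoxOK sI cl6 cl4 cl6 t0 t2 b1_12 :=
  box_mk (TrL.c (I.pos (nat_lit 0) (nat_lit 0)) (xa T0.l0 T0.l0)
  (TrL.c (I.pos (nat_lit 0) (nat_lit 0)) T2.l10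
  (TrL.c (I.pos (nat_lit 0) (nat_lit 89480386)) (xR (xR T0.l1 T0.l1) (xR T0.l1 T0.l1))
  (TrL.c (I.pos (nat_lit 0) (nat_lit 41530880)) (xR T2.l2 T2.l2)
  (TrL.c (I.pos (nat_lit 0) (nat_lit 0)) (xa T2.l3 T2.l3)
  (TrL.c (I.pos (nat_lit 0) (nat_lit 0)) T0.l2
  (TrL.c (I.mix (nat_lit 41527258) (nat_lit 41530880)) (xR T2.l9 T2.l4)
  (TrL.c (I.mix (nat_lit 41527258) (nat_lit 4274)) (xR T0.l3 T0.l3)
  TrL.n)))))))) (by decide +kernel)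
theorem bx1_13 : BoxOK sI cl6 cl4 cl6 t0 t2 b1_13 :=
  box_mk (TrL.c (I.pos (nat_lit 0) (nat_lit 0)) T0.l7
  (TrL.c (I.pos (nat_lit 0) (nat_lit 0)) T2.l6
  (TrL.c (I.pos (nat_lit 0) (nat_lit 89480386)) T0.l1
  (TrL.c (I.pos (nat_lit 0) (nat_lit 41530880)) T2.l2
  (TrL.c (I.pos (nat_lit 0) (nat_lit 0)) T2.l6
  (TrL.c (I.pos (nat_lit 0) (nat_lit 0)) T0.l2
  (TrL.c (I.mix (nat_lit 41527258) (nat_lit 41530880)) T2.l4
  (TrL.c (I.mix (nat_lit 41527258) (nat_lit 4274)) T0.l3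
  TrL.n)))))))) (by decide +kernel)
theorem bx1_14 : BoxOK sI cl6 cl4 cl6 t0 t2 b1_14 :=
  box_mk (TrL.c (I.pos (nat_lit 0) (nat_lit 0)) T0.l0
  (TrL.c (I.pos (nat_lit 0) (nat_lit 0)) T2.l1
  (TrL.c (I.pos (nat_lit 0) (nat_lit 89480386)) (xR T0.l10 T0.l1)
  (TrL.c (I.pos (nat_lit 0) (nat_lit 41530880)) (xR T2.l2 T2.l2)
  (TrL.c (I.pos (nat_lit 0) (nat_lit 0)) T2.l3
  (TrL.c (I.pos (nat_lit 0) (nat_lit 0)) T0.l2
  (TrL.c (I.mix (nat_lit 41527258) (nat_lit 41530880)) (xR (xR T2.l4 T2.l4) T2.l4)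
  (TrL.c (I.mix (nat_lit 41527258) (nat_lit 4274)) (xR T0.l3 T0.l3)
  TrL.n)))))))) (by decide +kernel)
theorem bx1_15 : BoxOK sI cl6 cl4 cl6 t0 t2 b1_15 :=
  box_mk (TrL.c (I.pos (nat_lit 0) (nat_lit 0)) T0.l7
  (TrL.c (I.pos (nat_lit 0) (nat_lit 0)) T2.l1
  (TrL.c (I.pos (nat_lit 0) (nat_lit 89480386)) (xR T0.l1 T0.l1)
  (TrL.c (I.pos (nat_lit 0) (nat_lit 41530880)) T2.l2
  (TrL.c (I.pos (nat_lit 0) (nat_lit 0)) T2.l5
  (TrL.c (I.pos (nat_lit 0) (nat_lit 0)) T0.l2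
  (TrL.c (I.mix (nat_lit 41527258) (nat_lit 41530880)) T2.l4
  (TrL.c (I.mix (nat_lit 41527258) (nat_lit 4274)) T0.l3
  TrL.n)))))))) (by decide +kernel)
theorem bx1_16 : BoxOK sI cl6 cl4 cl6 t0 t2 b1_16 :=
  box_mk (TrL.c (I.pos (nat_lit 0) (nat_lit 0)) (xb T0.l0 T0.l0)
  (TrL.c (I.pos (nat_lit 0) (nat_lit 0)) T2.l10
  (TrL.c (I.pos (nat_lit 0) (nat_lit 89480386)) (xR (xR T0.l1 T0.l1) T0.l1)
  (TrL.c (I.pos (nat_lit 0) (nat_lit 41530880)) (xR T2.l2 T2.l2)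
  (TrL.c (I.pos (nat_lit 0) (nat_lit 0)) (xb T2.l3 T2.l3)
  (TrL.c (I.pos (nat_lit 0) (nat_lit 0)) T0.l2
  (TrL.c (I.mix (nat_lit 41527258) (nat_lit 41530880)) (xR T2.l9 T2.l4)
  (TrL.c (I.mix (nat_lit 41527258) (nat_lit 4274)) (xR T0.l3 T0.l3)
  TrL.n)))))))) (by decide +kernel)
theorem bx1_17 : BoxOK sI cl6 cl4 cl6 t0 t2 b1_17 :=
  box_mk (TrL.c (I.pos (nat_lit 0) (nat_lit 0)) T0.l7
  (TrL.c (I.pos (nat_lit 0) (nat_lit 0)) T2.l6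
  (TrL.c (I.pos (nat_lit 0) (nat_lit 89480386)) T0.l1
  (TrL.c (I.pos (nat_lit 0) (nat_lit 41530880)) T2.l2
  (TrL.c (I.pos (nat_lit 0) (nat_lit 0)) T2.l6
  (TrL.c (I.pos (nat_lit 0) (nat_lit 0)) T0.l2
  (TrL.c (I.mix (nat_lit 41527258) (nat_lit 41530880)) T2.l4
  (TrL.c (I.mix (nat_lit 41527258) (nat_lit 4274)) T0.l3
  TrL.n)))))))) (by decide +kernel)
theorem bx1_18 : BoxOK sI cl6 cl4 cl6 t0 t2 b1_18 :=
  box_mk (TrL.c (I.pos (nat_lit 0) (nat_lit 0)) (xa (xb T0.l0 (xb T0.l0 T0.l0)) (xb (xb (xa T0.l0 T0.l0) T0.l0) (xa T0.l0 (xb T0.l0 T0.l0))))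
  (TrL.c (I.pos (nat_lit 0) (nat_lit 0)) (xb T2.l10 T2.l10)
  (TrL.c (I.pos (nat_lit 0) (nat_lit 89480386)) (xR (xR T0.l1 T0.l1) (xR T0.l1 (xR T0.l1 T0.l1)))
  (TrL.c (I.pos (nat_lit 0) (nat_lit 41530880)) (xR T2.l2 (xR T2.l2 T2.l2))
  (TrL.c (I.pos (nat_lit 0) (nat_lit 0)) (xb (xa T2.l3 (xb T2.l3 T2.l3)) (xa T2.l3 (xb T2.l3 T2.l3)))
  (TrL.c (I.pos (nat_lit 0) (nat_lit 0)) (xb T0.l2 T0.l2)
  (TrL.c (I.mix (nat_lit 41527258) (nat_lit 41530880)) (xR (xR T2.l9 T2.l4) (xR T2.l4 (xR T2.l4 T2.l4)))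
  (TrL.c (I.mix (nat_lit 41527258) (nat_lit 4274)) (xR (xR T0.l3 T0.l3) T0.l3)
  TrL.n)))))))) (by decide +kernel)
theorem bx1_19 : BoxOK sI cl6 cl4 cl6 t0 t2 b1_19 :=
  box_mk (TrL.c (I.pos (nat_lit 0) (nat_lit 0)) (xb T0.l7 T0.l7)
  (TrL.c (I.pos (nat_lit 0) (nat_lit 0)) T2.l6
  (TrL.c (I.pos (nat_lit 0) (nat_lit 89480386)) T0.l1
  (TrL.c (I.pos (nat_lit 0) (nat_lit 41530880)) T2.l2
  (TrL.c (I.pos (nat_lit 0) (nat_lit 0)) T2.l6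
  (TrL.c (I.pos (nat_lit 0) (nat_lit 0)) T0.l2
  (TrL.c (I.mix (nat_lit 41527258) (nat_lit 41530880)) (xR T2.l4 T2.l4)
  (TrL.c (I.mix (nat_lit 41527258) (nat_lit 4274)) T0.l3
  TrL.n)))))))) (by decide +kernel)
theorem bx1_20 : BoxOK sI cl6 cl4 cl6 t0 t2 b1_20 :=
  box_mk (TrL.c (I.pos (nat_lit 0) (nat_lit 0)) (xb T0.l7 T0.l7)
  (TrL.c (I.pos (nat_lit 0) (nat_lit 0)) T2.l1
  (TrL.c (I.pos (nat_lit 0) (nat_lit 89480386)) (xR T0.l1 T0.l1)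
  (TrL.c (I.pos (nat_lit 0) (nat_lit 41530880)) T2.l2
  (TrL.c (I.pos (nat_lit 0) (nat_lit 0)) T2.l8
  (TrL.c (I.pos (nat_lit 0) (nat_lit 0)) T0.l2
  (TrL.c (I.mix (nat_lit 41527258) (nat_lit 41530880)) T2.l4
  (TrL.c (I.mix (nat_lit 41527258) (nat_lit 4274)) T0.l3
  TrL.n)))))))) (by decide +kernel)
theorem bx1_21 : BoxOK sI cl6 cl4 cl6 t0 t2 b1_21 :=
  box_mk (TrL.c (I.pos (nat_lit 0) (nat_lit 0)) (xa (xb T0.l0 (xb T0.l0 (xa T0.l0 T0.l0))) (xb T0.l0 (xb T0.l0 (xa T0.l0 T0.l0))))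
  (TrL.c (I.pos (nat_lit 0) (nat_lit 0)) (xb T2.l1 T2.l1)
  (TrL.c (I.pos (nat_lit 0) (nat_lit 89480386)) (xR T0.l1 T0.l1)
  (TrL.c (I.pos (nat_lit 0) (nat_lit 41530880)) (xR T2.l2 T2.l2)
  (TrL.c (I.pos (nat_lit 0) (nat_lit 0)) (xb T2.l3 T2.l3)
  (TrL.c (I.pos (nat_lit 0) (nat_lit 0)) T0.l2
  (TrL.c (I.mix (nat_lit 41527258) (nat_lit 41530880)) (xR (xR T2.l4 T2.l4) T2.l4)
  (TrL.c (I.mix (nat_lit 41527258) (nat_lit 4274)) (xR T0.l3 T0.l3)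
  TrL.n)))))))) (by decide +kernel)
theorem bx1_22 : BoxOK sI cl6 cl4 cl6 t0 t2 b1_22 :=
  box_mk (TrL.c (I.pos (nat_lit 0) (nat_lit 0)) T0.l0
  (TrL.c (I.pos (nat_lit 0) (nat_lit 0)) T2.l1
  (TrL.c (I.pos (nat_lit 0) (nat_lit 89480386)) (xR T0.l1 T0.l1)
  (TrL.c (I.pos (nat_lit 0) (nat_lit 41530880)) (xR T2.l2 T2.l2)
  (TrL.c (I.pos (nat_lit 0) (nat_lit 0)) T2.l3
  (TrL.c (I.pos (nat_lit 0) (nat_lit 0)) T0.l2
  (TrL.c (I.mix (nat_lit 41527258) (nat_lit 41530880)) (xR T2.l9 T2.l4)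
  (TrL.c (I.mix (nat_lit 41527258) (nat_lit 4274)) (xR T0.l3 T0.l3)
  TrL.n)))))))) (by decide +kernel)
theorem bx1_23 : BoxOK sI cl6 cl4 cl6 t0 t2 b1_23 :=
  box_mk (TrL.c (I.pos (nat_lit 0) (nat_lit 0)) T0.l7
  (TrL.c (I.pos (nat_lit 0) (nat_lit 0)) T2.l1
  (TrL.c (I.pos (nat_lit 0) (nat_lit 89480386)) T0.l1
  (TrL.c (I.pos (nat_lit 0) (nat_lit 41530880)) T2.l2
  (TrL.c (I.pos (nat_lit 0) (nat_lit 0)) T2.l8
  (TrL.c (I.pos (nat_lit 0) (nat_lit 0)) T0.l2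
  (TrL.c (I.mix (nat_lit 41527258) (nat_lit 41530880)) T2.l4
  (TrL.c (I.mix (nat_lit 41527258) (nat_lit 4274)) T0.l3
  TrL.n)))))))) (by decide +kernel)
theorem sv1 : StarV sI cl6 cl4 cl6 t0 t2 t1 :=
  (bt_n (bt_n (bt_n (bt_n (bt_b bx1_0) (bt_n (bt_b bx1_1) (bt_b bx1_2))) (bt_n (bt_b bx1_3) (bt_n (bt_b bx1_4) (bt_b bx1_5)))) (bt_n (bt_n (bt_b bx1_6) (bt_n (bt_b bx1_7) (bt_b bx1_8))) (bt_n (bt_b bx1_9) (bt_n (bt_b bx1_10) (bt_b bx1_11))))) (bt_n (bt_n (bt_n (bt_b bx1_12) (bt_n (bt_b bx1_13) (bt_b bx1_14))) (bt_n (bt_b bx1_15) (bt_n (bt_b bx1_16) (bt_b bx1_17)))) (bt_n (bt_n (bt_b bx1_18) (bt_n (bt_b bx1_19) (bt_b bx1_20))) (bt_n (bt_b bx1_21) (bt_n (bt_b bx1_22) (bt_b bx1_23))))))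
def S1 : StarD := StarD.mk cl6 cl4 cl6 0 2 t1
theorem bx2_0 : BoxOK sI cl6 cl6 cl4 t2 t0 b2_0 :=
  box_mk (TrL.c (I.pos (nat_lit 0) (nat_lit 0)) (xa (xb (xa T2.l14 T2.l14) (xa (xb T2.l14 (xa (xs T2.l0 T2.l0) (xs T2.l0 T2.l0))) (xb T2.l0 (xa T2.l0 T2.l0)))) (xb (xa (xb T2.l0 T2.l0) T2.l0) (xa (xb T2.l0 (xa T2.l0 T2.l0)) (xb T2.l0 (xs T2.l0 (xa T2.l0 T2.l0))))))
  (TrL.c (I.pos (nat_lit 0) (nat_lit 0)) (xa (xb T0.l8 T0.l8) T0.l8)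
  (TrL.c (I.pos (nat_lit 0) (nat_lit 89480386)) (xR (xR T2.l9 T2.l9) (xR T2.l9 (xR T2.l9 (xa T2.l9 T2.l9))))
  (TrL.c (I.pos (nat_lit 0) (nat_lit 41530880)) (xR T0.l9 (xR T0.l9 T0.l9))
  (TrL.c (I.pos (nat_lit 0) (nat_lit 0)) (xa T0.l17 T0.l17)
  (TrL.c (I.pos (nat_lit 0) (nat_lit 0)) T2.l10
  (TrL.c (I.mix (nat_lit 41527258) (nat_lit 41530880)) (xR (xR (xR T0.l10 T0.l10) T0.l10) T0.l1)
  (TrL.c (I.mix (nat_lit 41527258) (nat_lit 4274)) (xR T2.l11 T2.l11)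
  TrL.n)))))))) (by decide +kernel)
theorem bx2_1 : BoxOK sI cl6 cl6 cl4 t2 t0 b2_1 :=
  box_mk (TrL.c (I.pos (nat_lit 0) (nat_lit 0)) (xa (xb T2.l12 T2.l12) (xb T2.l0 (xa T2.l12 T2.l0)))
  (TrL.c (I.pos (nat_lit 0) (nat_lit 0)) T0.l8
  (TrL.c (I.pos (nat_lit 0) (nat_lit 89480386)) (xR (xR T2.l9 T2.l9) T2.l9)
  (TrL.c (I.pos (nat_lit 0) (nat_lit 41530880)) (xR T0.l9 T0.l9)
  (TrL.c (I.pos (nat_lit 0) (nat_lit 0)) (xa T0.l11 T0.l11)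
  (TrL.c (I.pos (nat_lit 0) (nat_lit 0)) T2.l10
  (TrL.c (I.mix (nat_lit 41527258) (nat_lit 41530880)) (xR (xR T0.l10 T0.l10) T0.l10)
  (TrL.c (I.mix (nat_lit 41527258) (nat_lit 4274)) (xR T2.l11 T2.l11)
  TrL.n)))))))) (by decide +kernel)
theorem bx2_2 : BoxOK sI cl6 cl6 cl4 t2 t0 b2_2 :=
  box_mk (TrL.c (I.pos (nat_lit 0) (nat_lit 0)) (xa (xb T2.l13 T2.l13) (xb T2.l13 T2.l13))
  (TrL.c (I.pos (nat_lit 0) (nat_lit 0)) T0.l8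
  (TrL.c (I.pos (nat_lit 0) (nat_lit 89480386)) T2.l9
  (TrL.c (I.pos (nat_lit 0) (nat_lit 41530880)) T0.l1
  (TrL.c (I.pos (nat_lit 0) (nat_lit 0)) T0.l8
  (TrL.c (I.pos (nat_lit 0) (nat_lit 0)) T2.l10
  (TrL.c (I.mix (nat_lit 41527258) (nat_lit 41530880)) T0.l10
  (TrL.c (I.mix (nat_lit 41527258) (nat_lit 4274)) T2.l11
  TrL.n)))))))) (by decide +kernel)
theorem bx2_3 : BoxOK sI cl6 cl6 cl4 t2 t0 b2_3 :=
  box_mk (TrL.c (I.pos (nat_lit 0) (nat_lit 0)) (xa (xb (xb T2.l14 (xa T2.l14 T2.l14)) (xa (xb T2.l14 (xs T2.l14 T2.l14)) (xb T2.l14 (xs T2.l14 T2.l14)))) (xb (xb (xa T2.l14 T2.l14) (xa T2.l14 T2.l14)) (xa (xb T2.l14 (xs T2.l14 T2.l14)) (xb T2.l14 (xs T2.l14 T2.l14)))))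
  (TrL.c (I.pos (nat_lit 0) (nat_lit 0)) (xb T0.l8 (xa T0.l8 T0.l8))
  (TrL.c (I.pos (nat_lit 0) (nat_lit 89480386)) (xR (xR T2.l9 T2.l9) (xR T2.l9 (xR T2.l9 T2.l9)))
  (TrL.c (I.pos (nat_lit 0) (nat_lit 41530880)) (xR T0.l9 (xR T0.l9 T0.l9))
  (TrL.c (I.pos (nat_lit 0) (nat_lit 0)) (xb T0.l13 T0.l13)
  (TrL.c (I.pos (nat_lit 0) (nat_lit 0)) T2.l10
  (TrL.c (I.mix (nat_lit 41527258) (nat_lit 41530880)) (xR (xR (xR T0.l10 T0.l10) T0.l10) T0.l1)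
  (TrL.c (I.mix (nat_lit 41527258) (nat_lit 4274)) (xR (xR T2.l11 T2.l11) T2.l11)
  TrL.n)))))))) (by decide +kernel)
theorem bx2_4 : BoxOK sI cl6 cl6 cl4 t2 t0 b2_4 :=
  box_mk (TrL.c (I.pos (nat_lit 0) (nat_lit 0)) (xa (xa (xb T2.l15 T2.l15) (xb T2.l15 T2.l15)) (xa (xb T2.l15 T2.l15) (xb T2.l15 T2.l15)))
  (TrL.c (I.pos (nat_lit 0) (nat_lit 0)) (xa T0.l8 T0.l8)
  (TrL.c (I.pos (nat_lit 0) (nat_lit 89480386)) T2.l9
  (TrL.c (I.pos (nat_lit 0) (nat_lit 41530880)) (xR T0.l9 (xa T0.l9 T0.l9))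
  (TrL.c (I.pos (nat_lit 0) (nat_lit 0)) (xa T0.l8 T0.l14)
  (TrL.c (I.pos (nat_lit 0) (nat_lit 0)) T2.l10
  (TrL.c (I.mix (nat_lit 41527258) (nat_lit 41530880)) T0.l10
  (TrL.c (I.mix (nat_lit 41527258) (nat_lit 4274)) T2.l11
  TrL.n)))))))) (by decide +kernel)
theorem bx2_5 : BoxOK sI cl6 cl6 cl4 t2 t0 b2_5 :=
  box_mk (TrL.c (I.pos (nat_lit 0) (nat_lit 0)) (xa (xb T2.l14 T2.l14) (xb T2.l14 T2.l14))
  (TrL.c (I.pos (nat_lit 0) (nat_lit 0)) T0.l8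
  (TrL.c (I.pos (nat_lit 0) (nat_lit 89480386)) (xR (xR T2.l9 T2.l9) (xR T2.l9 T2.l9))
  (TrL.c (I.pos (nat_lit 0) (nat_lit 41530880)) (xR T0.l9 T0.l9)
  (TrL.c (I.pos (nat_lit 0) (nat_lit 0)) T0.l13
  (TrL.c (I.pos (nat_lit 0) (nat_lit 0)) T2.l10
  (TrL.c (I.mix (nat_lit 41527258) (nat_lit 41530880)) (xR (xR T0.l10 T0.l10) T0.l10)
  (TrL.c (I.mix (nat_lit 41527258) (nat_lit 4274)) (xR T2.l11 T2.l11)
  TrL.n)))))))) (by decide +kernel)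
theorem bx2_6 : BoxOK sI cl6 cl6 cl4 t2 t0 b2_6 :=
  box_mk (TrL.c (I.pos (nat_lit 0) (nat_lit 0)) (xa (xb T2.l0 T2.l21) T2.l0)
  (TrL.c (I.pos (nat_lit 0) (nat_lit 0)) T0.l8
  (TrL.c (I.pos (nat_lit 0) (nat_lit 89480386)) (xR T2.l9 T2.l9)
  (TrL.c (I.pos (nat_lit 0) (nat_lit 41530880)) (xR T0.l9 T0.l9)
  (TrL.c (I.pos (nat_lit 0) (nat_lit 0)) T0.l19
  (TrL.c (I.pos (nat_lit 0) (nat_lit 0)) T2.l10
  (TrL.c (I.mix (nat_lit 41527258) (nat_lit 41530880)) T0.l10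
  (TrL.c (I.mix (nat_lit 41527258) (nat_lit 4274)) T2.l11
  TrL.n)))))))) (by decide +kernel)
theorem bx2_7 : BoxOK sI cl6 cl6 cl4 t2 t0 b2_7 :=
  box_mk (TrL.c (I.pos (nat_lit 0) (nat_lit 0)) (xa (xa T2.l16 T2.l15) T2.l15)
  (TrL.c (I.pos (nat_lit 0) (nat_lit 0)) T0.l8
  (TrL.c (I.pos (nat_lit 0) (nat_lit 89480386)) T2.l9
  (TrL.c (I.pos (nat_lit 0) (nat_lit 41530880)) (xR T0.l1 T0.l10)
  (TrL.c (I.pos (nat_lit 0) (nat_lit 0)) T0.l8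
  (TrL.c (I.pos (nat_lit 0) (nat_lit 0)) T2.l9
  (TrL.c (I.mix (nat_lit 41527258) (nat_lit 41530880)) (xR T0.l10 (xR T0.l10 T0.l9))
  (TrL.c (I.mix (nat_lit 41527258) (nat_lit 4274)) T2.l11
  TrL.n)))))))) (by decide +kernel)
theorem bx2_8 : BoxOK sI cl6 cl6 cl4 t2 t0 b2_8 :=
  box_mk (TrL.c (I.pos (nat_lit 0) (nat_lit 0)) T2.l14
  (TrL.c (I.pos (nat_lit 0) (nat_lit 0)) T0.l8
  (TrL.c (I.pos (nat_lit 0) (nat_lit 89480386)) (xR T2.l9 T2.l9)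
  (TrL.c (I.pos (nat_lit 0) (nat_lit 41530880)) (xR T0.l9 T0.l9)
  (TrL.c (I.pos (nat_lit 0) (nat_lit 0)) T0.l13
  (TrL.c (I.pos (nat_lit 0) (nat_lit 0)) T2.l10
  (TrL.c (I.mix (nat_lit 41527258) (nat_lit 41530880)) T0.l10
  (TrL.c (I.mix (nat_lit 41527258) (nat_lit 4274)) T2.l11
  TrL.n)))))))) (by decide +kernel)
theorem bx2_9 : BoxOK sI cl6 cl6 cl4 t2 t0 b2_9 :=
  box_mk (TrL.c (I.pos (nat_lit 0) (nat_lit 0)) (xa (xa (xb T2.l15 T2.l17) (xb T2.l17 T2.l17)) (xa (xb T2.l17 T2.l17) (xb T2.l17 (xa T2.l17 T2.l17))))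
  (TrL.c (I.pos (nat_lit 0) (nat_lit 0)) (xa T0.l8 T0.l8)
  (TrL.c (I.pos (nat_lit 0) (nat_lit 89480386)) (xR T2.l9 T2.l9)
  (TrL.c (I.pos (nat_lit 0) (nat_lit 41530880)) (xR T0.l9 T0.l9)
  (TrL.c (I.pos (nat_lit 0) (nat_lit 0)) (xa T0.l8 T0.l15)
  (TrL.c (I.pos (nat_lit 0) (nat_lit 0)) T2.l10
  (TrL.c (I.mix (nat_lit 41527258) (nat_lit 41530880)) T0.l10
  (TrL.c (I.mix (nat_lit 41527258) (nat_lit 4274)) T2.l11
  TrL.n)))))))) (by decide +kernel)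
theorem bx2_10 : BoxOK sI cl6 cl6 cl4 t2 t0 b2_10 :=
  box_mk (TrL.c (I.pos (nat_lit 0) (nat_lit 0)) (xb (xa (xb T2.l18 T2.l18) T2.l12) (xa (xb T2.l18 T2.l17) (xb T2.l12 T2.l18)))
  (TrL.c (I.pos (nat_lit 0) (nat_lit 0)) T0.l8
  (TrL.c (I.pos (nat_lit 0) (nat_lit 89480386)) (xR T2.l9 T2.l9)
  (TrL.c (I.pos (nat_lit 0) (nat_lit 41530880)) (xR T0.l9 T0.l9)
  (TrL.c (I.pos (nat_lit 0) (nat_lit 0)) (xb T0.l16 T0.l16)
  (TrL.c (I.pos (nat_lit 0) (nat_lit 0)) T2.l10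
  (TrL.c (I.mix (nat_lit 41527258) (nat_lit 41530880)) T0.l10
  (TrL.c (I.mix (nat_lit 41527258) (nat_lit 4274)) T2.l11
  TrL.n)))))))) (by decide +kernel)
theorem bx2_11 : BoxOK sI cl6 cl6 cl4 t2 t0 b2_11 :=
  box_mk (TrL.c (I.pos (nat_lit 0) (nat_lit 0)) (xa (xb T2.l19 T2.l19) T2.l15)
  (TrL.c (I.pos (nat_lit 0) (nat_lit 0)) T0.l8
  (TrL.c (I.pos (nat_lit 0) (nat_lit 89480386)) T2.l9
  (TrL.c (I.pos (nat_lit 0) (nat_lit 41530880)) T0.l1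
  (TrL.c (I.pos (nat_lit 0) (nat_lit 0)) T0.l8
  (TrL.c (I.pos (nat_lit 0) (nat_lit 0)) T2.l9
  (TrL.c (I.mix (nat_lit 41527258) (nat_lit 41530880)) (xR T0.l10 T0.l9)
  (TrL.c (I.mix (nat_lit 41527258) (nat_lit 4274)) T2.l11
  TrL.n)))))))) (by decide +kernel)
theorem bx2_12 : BoxOK sI cl6 cl6 cl4 t2 t0 b2_12 :=
  box_mk (TrL.c (I.pos (nat_lit 0) (nat_lit 0)) (xa T2.l0 T2.l0)
  (TrL.c (I.pos (nat_lit 0) (nat_lit 0)) T0.l8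
  (TrL.c (I.pos (nat_lit 0) (nat_lit 89480386)) (xR (xR T2.l9 T2.l9) (xR T2.l9 T2.l9))
  (TrL.c (I.pos (nat_lit 0) (nat_lit 41530880)) (xR T0.l9 T0.l9)
  (TrL.c (I.pos (nat_lit 0) (nat_lit 0)) T0.l17
  (TrL.c (I.pos (nat_lit 0) (nat_lit 0)) T2.l10
  (TrL.c (I.mix (nat_lit 41527258) (nat_lit 41530880)) (xR (xR T0.l10 T0.l10) T0.l10)
  (TrL.c (I.mix (nat_lit 41527258) (nat_lit 4274)) (xR T2.l11 T2.l11)
  TrL.n)))))))) (by decide +kernel)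
theorem bx2_13 : BoxOK sI cl6 cl6 cl4 t2 t0 b2_13 :=
  box_mk (TrL.c (I.pos (nat_lit 0) (nat_lit 0)) (xa T2.l0 (xb T2.l0 T2.l0))
  (TrL.c (I.pos (nat_lit 0) (nat_lit 0)) T0.l8
  (TrL.c (I.pos (nat_lit 0) (nat_lit 89480386)) (xR (xR T2.l9 T2.l9) (xR T2.l9 T2.l9))
  (TrL.c (I.pos (nat_lit 0) (nat_lit 41530880)) (xR T0.l9 (xR T0.l9 T0.l9))
  (TrL.c (I.pos (nat_lit 0) (nat_lit 0)) T0.l17
  (TrL.c (I.pos (nat_lit 0) (nat_lit 0)) T2.l10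
  (TrL.c (I.mix (nat_lit 41527258) (nat_lit 41530880)) (xR (xR (xR T0.l10 T0.l10) T0.l10) T0.l10)
  (TrL.c (I.mix (nat_lit 41527258) (nat_lit 4274)) (xR T2.l11 T2.l11)
  TrL.n)))))))) (by decide +kernel)
theorem bx2_14 : BoxOK sI cl6 cl6 cl4 t2 t0 b2_14 :=
  box_mk (TrL.c (I.pos (nat_lit 0) (nat_lit 0)) (xa (xb (xa T2.l14 T2.l14) (xa (xb T2.l0 (xs T2.l0 T2.l0)) (xb T2.l0 (xs T2.l0 T2.l0)))) (xb (xa T2.l0 T2.l0) (xa (xb T2.l0 (xs T2.l0 T2.l0)) (xs T2.l0 (xb T2.l0 T2.l0)))))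
  (TrL.c (I.pos (nat_lit 0) (nat_lit 0)) (xa T0.l8 T0.l8)
  (TrL.c (I.pos (nat_lit 0) (nat_lit 89480386)) (xR T2.l9 (xR T2.l9 (xR T2.l9 T2.l9)))
  (TrL.c (I.pos (nat_lit 0) (nat_lit 41530880)) (xR T0.l9 (xR T0.l9 T0.l9))
  (TrL.c (I.pos (nat_lit 0) (nat_lit 0)) T0.l17
  (TrL.c (I.pos (nat_lit 0) (nat_lit 0)) T2.l10
  (TrL.c (I.mix (nat_lit 41527258) (nat_lit 41530880)) (xR (xR (xR T0.l10 T0.l10) T0.l10) T0.l1)
  (TrL.c (I.mix (nat_lit 41527258) (nat_lit 4274)) (xR (xR T2.l11 T2.l11) T2.l11)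
  TrL.n)))))))) (by decide +kernel)
theorem bx2_15 : BoxOK sI cl6 cl6 cl4 t2 t0 b2_15 :=
  box_mk (TrL.c (I.pos (nat_lit 0) (nat_lit 0)) (xa (xb (xa T2.l0 T2.l0) (xa (xb T2.l0 T2.l0) T2.l3)) (xb (xa T2.l0 (xb T2.l3 T2.l3)) (xa T2.l3 (xb T2.l3 (xs T2.l0 T2.l3)))))
  (TrL.c (I.pos (nat_lit 0) (nat_lit 0)) (xa T0.l8 (xb T0.l8 T0.l8))
  (TrL.c (I.pos (nat_lit 0) (nat_lit 89480386)) (xR (xR T2.l9 (xR T2.l9 T2.l9)) (xR (xR T2.l9 T2.l9) (xR T2.l9 (xb T2.l9 (xa T2.l9 T2.l9)))))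
  (TrL.c (I.pos (nat_lit 0) (nat_lit 41530880)) (xR T0.l9 (xR T0.l9 T0.l9))
  (TrL.c (I.pos (nat_lit 0) (nat_lit 0)) (xb (xa T0.l17 (xb T0.l17 T0.l17)) (xa T0.l17 (xb T0.l17 T0.l17)))
  (TrL.c (I.pos (nat_lit 0) (nat_lit 0)) (xb T2.l1 T2.l10)
  (TrL.c (I.mix (nat_lit 41527258) (nat_lit 41530880)) (xR (xR (xR T0.l1 T0.l10) T0.l10) T0.l1)
  (TrL.c (I.mix (nat_lit 41527258) (nat_lit 4274)) (xR (xR T2.l11 T2.l11) T2.l2)
  TrL.n)))))))) (by decide +kernel)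
theorem bx2_16 : BoxOK sI cl6 cl6 cl4 t2 t0 b2_16 :=
  box_mk (TrL.c (I.pos (nat_lit 0) (nat_lit 0)) (xa T2.l0 (xb T2.l0 T2.l0))
  (TrL.c (I.pos (nat_lit 0) (nat_lit 0)) T0.l8
  (TrL.c (I.pos (nat_lit 0) (nat_lit 89480386)) (xR (xR T2.l9 T2.l9) (xR (xR T2.l9 T2.l9) T2.l9))
  (TrL.c (I.pos (nat_lit 0) (nat_lit 41530880)) (xR T0.l9 (xR T0.l9 T0.l9))
  (TrL.c (I.pos (nat_lit 0) (nat_lit 0)) (xb T0.l0 T0.l17)
  (TrL.c (I.pos (nat_lit 0) (nat_lit 0)) T2.l10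
  (TrL.c (I.mix (nat_lit 41527258) (nat_lit 41530880)) (xR (xR (xR T0.l10 T0.l10) T0.l10) T0.l1)
  (TrL.c (I.mix (nat_lit 41527258) (nat_lit 4274)) (xR T2.l11 T2.l11)
  TrL.n)))))))) (by decide +kernel)
theorem bx2_17 : BoxOK sI cl6 cl6 cl4 t2 t0 b2_17 :=
  box_mk (TrL.c (I.pos (nat_lit 0) (nat_lit 0)) (xa (xb (xa T2.l0 T2.l0) (xa T2.l0 T2.l0)) (xb (xa T2.l0 T2.l3) (xa T2.l0 (xb T2.l3 T2.l3))))
  (TrL.c (I.pos (nat_lit 0) (nat_lit 0)) (xa T0.l8 T0.l8)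
  (TrL.c (I.pos (nat_lit 0) (nat_lit 89480386)) (xR (xR T2.l9 (xR T2.l9 T2.l9)) (xR (xR T2.l9 T2.l9) (xR T2.l9 (xa T2.l9 T2.l9))))
  (TrL.c (I.pos (nat_lit 0) (nat_lit 41530880)) (xR T0.l9 (xR T0.l9 T0.l9))
  (TrL.c (I.pos (nat_lit 0) (nat_lit 0)) (xa T0.l17 (xb T0.l17 (xa T0.l17 T0.l17)))
  (TrL.c (I.pos (nat_lit 0) (nat_lit 0)) (xa T2.l10 T2.l10)
  (TrL.c (I.mix (nat_lit 41527258) (nat_lit 41530880)) (xR (xR (xR T0.l10 T0.l10) T0.l10) T0.l1)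
  (TrL.c (I.mix (nat_lit 41527258) (nat_lit 4274)) (xR (xR T2.l11 T2.l11) T2.l11)
  TrL.n)))))))) (by decide +kernel)
theorem bx2_18 : BoxOK sI cl6 cl6 cl4 t2 t0 b2_18 :=
  box_mk (TrL.c (I.pos (nat_lit 0) (nat_lit 0)) (xa T2.l0 T2.l0)
  (TrL.c (I.pos (nat_lit 0) (nat_lit 0)) T0.l8
  (TrL.c (I.pos (nat_lit 0) (nat_lit 89480386)) (xR (xR T2.l9 T2.l9) (xR T2.l9 T2.l9))
  (TrL.c (I.pos (nat_lit 0) (nat_lit 41530880)) (xR T0.l9 T0.l9)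
  (TrL.c (I.pos (nat_lit 0) (nat_lit 0)) T0.l17
  (TrL.c (I.pos (nat_lit 0) (nat_lit 0)) T2.l10
  (TrL.c (I.mix (nat_lit 41527258) (nat_lit 41530880)) (xR (xR T0.l10 T0.l10) T0.l10)
  (TrL.c (I.mix (nat_lit 41527258) (nat_lit 4274)) (xR T2.l11 T2.l11)
  TrL.n)))))))) (by decide +kernel)
theorem bx2_19 : BoxOK sI cl6 cl6 cl4 t2 t0 b2_19 :=
  box_mk (TrL.c (I.pos (nat_lit 0) (nat_lit 0)) (xa (xb T2.l0 T2.l0) (xb T2.l3 T2.l3))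
  (TrL.c (I.pos (nat_lit 0) (nat_lit 0)) T0.l8
  (TrL.c (I.pos (nat_lit 0) (nat_lit 89480386)) (xR (xR T2.l9 T2.l9) (xR (xR T2.l9 T2.l9) T2.l9))
  (TrL.c (I.pos (nat_lit 0) (nat_lit 41530880)) (xR T0.l9 (xR T0.l9 T0.l9))
  (TrL.c (I.pos (nat_lit 0) (nat_lit 0)) (xb (xa T0.l17 T0.l17) T0.l17)
  (TrL.c (I.pos (nat_lit 0) (nat_lit 0)) T2.l10
  (TrL.c (I.mix (nat_lit 41527258) (nat_lit 41530880)) (xR (xR (xR T0.l10 T0.l10) T0.l10) T0.l1)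
  (TrL.c (I.mix (nat_lit 41527258) (nat_lit 4274)) (xR T2.l11 T2.l11)
  TrL.n)))))))) (by decide +kernel)
theorem bx2_20 : BoxOK sI cl6 cl6 cl4 t2 t0 b2_20 :=
  box_mk (TrL.c (I.pos (nat_lit 0) (nat_lit 0)) (xb (xa (xa T2.l14 T2.l14) (xa T2.l14 (xb T2.l14 T2.l14))) (xa (xa T2.l14 T2.l14) (xa T2.l14 (xb T2.l14 T2.l14))))
  (TrL.c (I.pos (nat_lit 0) (nat_lit 0)) (xb T0.l8 T0.l8)
  (TrL.c (I.pos (nat_lit 0) (nat_lit 89480386)) (xR (xR T2.l9 T2.l9) (xR T2.l9 (xR T2.l9 T2.l9)))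
  (TrL.c (I.pos (nat_lit 0) (nat_lit 41530880)) (xR T0.l9 (xR T0.l9 T0.l9))
  (TrL.c (I.pos (nat_lit 0) (nat_lit 0)) T0.l13
  (TrL.c (I.pos (nat_lit 0) (nat_lit 0)) T2.l10
  (TrL.c (I.mix (nat_lit 41527258) (nat_lit 41530880)) (xR (xR (xR T0.l10 T0.l10) T0.l10) T0.l1)
  (TrL.c (I.mix (nat_lit 41527258) (nat_lit 4274)) (xR T2.l11 T2.l11)
  TrL.n)))))))) (by decide +kernel)
theorem bx2_21 : BoxOK sI cl6 cl6 cl4 t2 t0 b2_21 :=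
  box_mk (TrL.c (I.pos (nat_lit 0) (nat_lit 0)) T2.l0
  (TrL.c (I.pos (nat_lit 0) (nat_lit 0)) T0.l8
  (TrL.c (I.pos (nat_lit 0) (nat_lit 89480386)) (xR T2.l9 (xR T2.l9 T2.l9))
  (TrL.c (I.pos (nat_lit 0) (nat_lit 41530880)) (xR T0.l9 T0.l9)
  (TrL.c (I.pos (nat_lit 0) (nat_lit 0)) T0.l17
  (TrL.c (I.pos (nat_lit 0) (nat_lit 0)) T2.l10
  (TrL.c (I.mix (nat_lit 41527258) (nat_lit 41530880)) T0.l10
  (TrL.c (I.mix (nat_lit 41527258) (nat_lit 4274)) T2.l11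
  TrL.n)))))))) (by decide +kernel)
theorem sv2 : StarV sI cl6 cl6 cl4 t2 t0 t2 :=
  (bt_n (bt_n (bt_n (bt_n (bt_b bx2_0) (bt_b bx2_1)) (bt_n (bt_b bx2_2) (bt_n (bt_b bx2_3) (bt_b bx2_4)))) (bt_n (bt_n (bt_b bx2_5) (bt_n (bt_b bx2_6) (bt_b bx2_7))) (bt_n (bt_b bx2_8) (bt_n (bt_b bx2_9) (bt_b bx2_10))))) (bt_n (bt_n (bt_n (bt_b bx2_11) (bt_b bx2_12)) (bt_n (bt_b bx2_13) (bt_n (bt_b bx2_14) (bt_b bx2_15)))) (bt_n (bt_n (bt_b bx2_16) (bt_n (bt_b bx2_17) (bt_b bx2_18))) (bt_n (bt_b bx2_19) (bt_n (bt_b bx2_20) (bt_b bx2_21))))))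
def S2 : StarD := StarD.mk cl6 cl6 cl4 2 0 t2
def G : List StarD := [S0, S1, S2]
theorem so0 : StarOK sI G S0 :=
  star_mk (by decide) (by decide) rfl rfl rfl rfl rfl rfl (rfl : _ = t1) (rfl : _ = t1)
  (st_mk (Pth.l (Pth.l (Pth.l (Pth.l Pth.z)))) (nat_lit 197164285) (nat_lit 198740724) (by decide +kernel))
  (st_mk (Pth.l (Pth.l (Pth.l (Pth.l Pth.z)))) (nat_lit 236976317) (nat_lit 239317883) (by decide +kernel))
  (st_mk (Pth.l (Pth.l (Pth.l (Pth.l Pth.z)))) (nat_lit 284248928) (nat_lit 287739074) (by decide +kernel)) sv0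
theorem so1 : StarOK sI G S1 :=
  star_mk (by decide) (by decide) rfl rfl rfl rfl rfl rfl (rfl : _ = t0) (rfl : _ = t2)
  (st_mk (Pth.l (Pth.l (Pth.l (Pth.l Pth.z)))) (nat_lit 378656412) (nat_lit 380500361) (by decide +kernel))
  (st_mk (Pth.l (Pth.l (Pth.l (Pth.l Pth.z)))) (nat_lit 416397430) (nat_lit 418644131) (by decide +kernel))
  (st_mk (Pth.l (Pth.l (Pth.l (Pth.l Pth.z)))) (nat_lit 460312388) (nat_lit 463083499) (by decide +kernel)) sv1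
theorem so2 : StarOK sI G S2 :=
  star_mk (by decide) (by decide) rfl rfl rfl rfl rfl rfl (rfl : _ = t2) (rfl : _ = t0)
  (st_mk (Pth.l (Pth.l (Pth.l (Pth.l Pth.z)))) (nat_lit 191475487) (nat_lit 192194296) (by decide +kernel))
  (st_mk (Pth.l (Pth.l (Pth.l (Pth.l Pth.z)))) (nat_lit 228658813) (nat_lit 229693227) (by decide +kernel))
  (st_mk (Pth.l (Pth.l (Pth.l (Pth.l Pth.z)))) (nat_lit 272109092) (nat_lit 273592857) (by decide +kernel)) sv2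
theorem ok : GroupOK (nat_lit 209321984) (nat_lit 268435456) G := grp_mk (allS_c so0 (allS_c so1 (allS_c so2 allS_n)))
theorem cov : GCov G cl4 cl6 cl6 := cov_mk
  ⟨0, by decide, rfl, rfl, rfl⟩ ⟨0, by decide, rfl, rfl, rfl⟩ ⟨1, by decide, rfl, rfl, rfl⟩ ⟨2, by decide, rfl, rfl, rfl⟩ ⟨1, by decide, rfl, rfl, rfl⟩ ⟨2, by decide, rfl, rfl, rfl⟩
end Q133_3

namespace Q134_0
def sI : I := I.pos (nat_lit 0) (nat_lit 91291648)
def b0_0 : Bx := Bx.mk (St.mk (I.pos (nat_lit 154566656) (nat_lit 266289152)) (I.mix (nat_lit 41385984) (nat_lit 69992448)) (I.mix (nat_lit 152829952) (nat_lit 80527360)) (I.pos (nat_lit 180584448) (nat_lit 370311168)) (I.mix (nat_lit 102416384) (nat_lit 82116608)) (I.mix (nat_lit 107708416) (nat_lit 92372992)) (I.mix (nat_lit 182976512) (nat_lit 199868416)))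
  false (nat_lit 0)
def b0_1 : Bx := Bx.mk (St.mk (I.mix (nat_lit 31555584) (nat_lit 99500032)) (I.mix (nat_lit 14778368) (nat_lit 43909120)) (I.mix (nat_lit 36044800) (nat_lit 4227072)) (I.pos (nat_lit 82264064) (nat_lit 126107648)) (I.mix (nat_lit 36093952) (nat_lit 46399488)) (I.mix (nat_lit 51003392) (nat_lit 35078144)) (I.mix (nat_lit 34144256) (nat_lit 23298048)))
  false (nat_lit 0)
def b0_2 : Bx := Bx.mk (St.mk (I.pos (nat_lit 80134144) (nat_lit 123453440)) (I.mix (nat_lit 63684608) (nat_lit 17367040)) (I.neg (nat_lit 11714560) (nat_lit 72548352)) (I.pos (nat_lit 113508352) (nat_lit 148963328)) (I.mix (nat_lit 97452032) (nat_lit 34799616)) (I.mix (nat_lit 58507264) (nat_lit 100335616)) (I.mix (nat_lit 42532864) (nat_lit 75513856)))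
  false (nat_lit 0)
def b0_3 : Bx := Bx.mk (St.mk (I.mix (nat_lit 48218112) (nat_lit 26738688)) (I.mix (nat_lit 38830080) (nat_lit 12566528)) (I.neg (nat_lit 5324800) (nat_lit 24657920)) (I.pos (nat_lit 83263488) (nat_lit 100433920)) (I.mix (nat_lit 37453824) (nat_lit 24379392)) (I.mix (nat_lit 26296320) (nat_lit 39895040)) (I.mix (nat_lit 15138816) (nat_lit 10780672)))
  false (nat_lit 0)
def b0_4 : Bx := Bx.mk (St.mk (I.pos (nat_lit 75694080) (nat_lit 93175808)) (I.mix (nat_lit 15220736) (nat_lit 13533184)) (I.neg (nat_lit 13467648) (nat_lit 35160064)) (I.pos (nat_lit 111132672) (nat_lit 124223488)) (I.mix (nat_lit 29310976) (nat_lit 19382272)) (I.mix (nat_lit 23805952) (nat_lit 23363584)) (I.mix (nat_lit 16023552) (nat_lit 18726912)))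
  false (nat_lit 0)
def b0_5 : Bx := Bx.mk (St.mk (I.mix (nat_lit 58458112) (nat_lit 7208960)) (I.mix (nat_lit 11534336) (nat_lit 15712256)) (I.neg (nat_lit 13451264) (nat_lit 26640384)) (I.pos (nat_lit 87932928) (nat_lit 103563264)) (I.mix (nat_lit 24526848) (nat_lit 20398080)) (I.mix (nat_lit 21970944) (nat_lit 26935296)) (I.mix (nat_lit 10747904) (nat_lit 9748480)))
  false (nat_lit 0)
def b0_6 : Bx := Bx.mk (St.mk (I.pos (nat_lit 79872000) (nat_lit 163807232)) (I.mix (nat_lit 72679424) (nat_lit 6815744)) (I.neg (nat_lit 14614528) (nat_lit 82362368)) (I.pos (nat_lit 122470400) (nat_lit 193134592)) (I.mix (nat_lit 106004480) (nat_lit 73187328)) (I.mix (nat_lit 67633152) (nat_lit 112852992)) (I.mix (nat_lit 50249728) (nat_lit 100581376)))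
  false (nat_lit 0)
def b0_7 : Bx := Bx.mk (St.mk (I.mix (nat_lit 37519360) (nat_lit 53968896)) (I.mix (nat_lit 39845888) (nat_lit 10551296)) (I.neg (nat_lit 7454720) (nat_lit 26738688)) (I.pos (nat_lit 81559552) (nat_lit 101941248)) (I.mix (nat_lit 41304064) (nat_lit 41091072)) (I.mix (nat_lit 31424512) (nat_lit 57212928)) (I.mix (nat_lit 15187968) (nat_lit 22691840)))
  false (nat_lit 0)
def b0_8 : Bx := Bx.mk (St.mk (I.mix (nat_lit 54034432) (nat_lit 88489984)) (I.mix (nat_lit 10059776) (nat_lit 39813120)) (I.mix (nat_lit 27230208) (nat_lit 1146880)) (I.pos (nat_lit 81264640) (nat_lit 112852992)) (I.mix (nat_lit 46317568) (nat_lit 41320448)) (I.mix (nat_lit 61751296) (nat_lit 33357824)) (I.mix (nat_lit 22986752) (nat_lit 22675456)))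
  false (nat_lit 0)
def b0_9 : Bx := Bx.mk (St.mk (I.pos (nat_lit 134184960) (nat_lit 219840512)) (I.mix (nat_lit 44974080) (nat_lit 77938688)) (I.mix (nat_lit 66289664) (nat_lit 78774272)) (I.pos (nat_lit 160120832) (nat_lit 273940480)) (I.mix (nat_lit 143540224) (nat_lit 77529088)) (I.mix (nat_lit 193970176) (nat_lit 107216896)) (I.mix (nat_lit 193036288) (nat_lit 104202240)))
  false (nat_lit 0)
def t0 : BTr := (BTr.n (BTr.n (BTr.n (BTr.b b0_0) (BTr.b b0_1)) (BTr.n (BTr.b b0_2) (BTr.n (BTr.b b0_3) (BTr.b b0_4)))) (BTr.n (BTr.n (BTr.b b0_5) (BTr.b b0_6)) (BTr.n (BTr.b b0_7) (BTr.n (BTr.b b0_8) (BTr.b b0_9)))))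
namespace T0
def l0 : Tr := Tr.L (Pth.l (Pth.l (Pth.l Pth.z)))
def l1 : Tr := Tr.L (Pth.l (Pth.l (Pth.r Pth.z)))
def l2 : Tr := Tr.L (Pth.l (Pth.r (Pth.l Pth.z)))
def l3 : Tr := Tr.L (Pth.l (Pth.r (Pth.r (Pth.l Pth.z))))
def l4 : Tr := Tr.L (Pth.l (Pth.r (Pth.r (Pth.r Pth.z))))
def l5 : Tr := Tr.L (Pth.r (Pth.l (Pth.l Pth.z)))
def l6 : Tr := Tr.L (Pth.r (Pth.l (Pth.r Pth.z)))
def l7 : Tr := Tr.L (Pth.r (Pth.r (Pth.l Pth.z)))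
def l8 : Tr := Tr.L (Pth.r (Pth.r (Pth.r (Pth.l Pth.z))))
def l9 : Tr := Tr.L (Pth.r (Pth.r (Pth.r (Pth.r Pth.z))))
end T0
def b1_0 : Bx := Bx.mk (St.mk (I.pos (nat_lit 154501120) (nat_lit 267321344)) (I.mix (nat_lit 38010880) (nat_lit 63340544)) (I.mix (nat_lit 130383872) (nat_lit 83279872)) (I.pos (nat_lit 134217728) (nat_lit 346112000)) (I.mix (nat_lit 108232704) (nat_lit 74842112)) (I.mix (nat_lit 97746944) (nat_lit 100909056)) (I.mix (nat_lit 160530432) (nat_lit 206028800)))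
  false (nat_lit 0)
def b1_1 : Bx := Bx.mk (St.mk (I.mix (nat_lit 26918912) (nat_lit 120979456)) (I.mix (nat_lit 14188544) (nat_lit 40239104)) (I.mix (nat_lit 29704192) (nat_lit 14221312)) (I.pos (nat_lit 38764544) (nat_lit 117243904)) (I.mix (nat_lit 43745280) (nat_lit 40435712)) (I.mix (nat_lit 42860544) (nat_lit 36716544)) (I.mix (nat_lit 33390592) (nat_lit 24264704)))
  false (nat_lit 0)
def b1_2 : Bx := Bx.mk (St.mk (I.pos (nat_lit 92995584) (nat_lit 142245888)) (I.mix (nat_lit 65781760) (nat_lit 17432576)) (I.neg (nat_lit 1048576) (nat_lit 75530240)) (I.pos (nat_lit 78446592) (nat_lit 140623872)) (I.mix (nat_lit 111050752) (nat_lit 38961152)) (I.mix (nat_lit 73383936) (nat_lit 121208832)) (I.mix (nat_lit 55345152) (nat_lit 97976320)))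
  false (nat_lit 0)
def b1_3 : Bx := Bx.mk (St.mk (I.mix (nat_lit 38027264) (nat_lit 71319552)) (I.mix (nat_lit 34193408) (nat_lit 9748480)) (I.neg (nat_lit 983040) (nat_lit 25722880)) (I.pos (nat_lit 41058304) (nat_lit 82706432)) (I.mix (nat_lit 40714240) (nat_lit 19578880)) (I.mix (nat_lit 27836416) (nat_lit 40091648)) (I.mix (nat_lit 12500992) (nat_lit 17432576)))
  false (nat_lit 0)
def b1_4 : Bx := Bx.mk (St.mk (I.mix (nat_lit 45858816) (nat_lit 64700416)) (I.mix (nat_lit 8749056) (nat_lit 12058624)) (I.neg (nat_lit 4145152) (nat_lit 14286848)) (I.pos (nat_lit 42139648) (nat_lit 75448320)) (I.mix (nat_lit 13664256) (nat_lit 10567680)) (I.mix (nat_lit 10027008) (nat_lit 10518528)) (I.mix (nat_lit 3489792) (nat_lit 3866624)))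
  false (nat_lit 0)
def b1_5 : Bx := Bx.mk (St.mk (I.pos (nat_lit 88391680) (nat_lit 114540544)) (I.mix (nat_lit 14581760) (nat_lit 12648448)) (I.neg (nat_lit 3784704) (nat_lit 29032448)) (I.pos (nat_lit 76087296) (nat_lit 114786304)) (I.mix (nat_lit 27131904) (nat_lit 17399808)) (I.mix (nat_lit 17645568) (nat_lit 18497536)) (I.mix (nat_lit 13533184) (nat_lit 16039936)))
  false (nat_lit 0)
def b1_6 : Bx := Bx.mk (St.mk (I.pos (nat_lit 94715904) (nat_lit 175046656)) (I.mix (nat_lit 64339968) (nat_lit 376832)) (I.neg (nat_lit 7798784) (nat_lit 71254016)) (I.pos (nat_lit 92618752) (nat_lit 180682752)) (I.mix (nat_lit 100417536) (nat_lit 58785792)) (I.mix (nat_lit 56328192) (nat_lit 91848704)) (I.mix (nat_lit 52936704) (nat_lit 92340224)))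
  false (nat_lit 0)
def b1_7 : Bx := Bx.mk (St.mk (I.mix (nat_lit 25591808) (nat_lit 88473600)) (I.mix (nat_lit 36388864) (nat_lit 8110080)) (I.neg (nat_lit 1310720) (nat_lit 29294592)) (I.pos (nat_lit 39567360) (nat_lit 92831744)) (I.mix (nat_lit 47316992) (nat_lit 30851072)) (I.mix (nat_lit 36044800) (nat_lit 43089920)) (I.mix (nat_lit 20316160) (nat_lit 23609344)))
  false (nat_lit 0)
def b1_8 : Bx := Bx.mk (St.mk (I.pos (nat_lit 138346496) (nat_lit 221609984)) (I.mix (nat_lit 38633472) (nat_lit 76972032)) (I.mix (nat_lit 51200000) (nat_lit 92766208)) (I.pos (nat_lit 118620160) (nat_lit 249020416)) (I.mix (nat_lit 164511744) (nat_lit 74924032)) (I.mix (nat_lit 202801152) (nat_lit 140951552)) (I.mix (nat_lit 221642752) (nat_lit 154927104)))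
  false (nat_lit 0)
def b1_9 : Bx := Bx.mk (St.mk (I.mix (nat_lit 42549248) (nat_lit 116654080)) (I.mix (nat_lit 16187392) (nat_lit 41926656)) (I.mix (nat_lit 18415616) (nat_lit 17219584)) (I.pos (nat_lit 38338560) (nat_lit 110395392)) (I.mix (nat_lit 53805056) (nat_lit 43843584)) (I.mix (nat_lit 62046208) (nat_lit 55410688)) (I.mix (nat_lit 33292288) (nat_lit 30507008)))
  false (nat_lit 0)
def t1 : BTr := (BTr.n (BTr.n (BTr.n (BTr.b b1_0) (BTr.b b1_1)) (BTr.n (BTr.b b1_2) (BTr.n (BTr.b b1_3) (BTr.b b1_4)))) (BTr.n (BTr.n (BTr.b b1_5) (BTr.b b1_6)) (BTr.n (BTr.b b1_7) (BTr.n (BTr.b b1_8) (BTr.b b1_9)))))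
namespace T1
def l0 : Tr := Tr.L (Pth.l (Pth.l (Pth.l Pth.z)))
def l1 : Tr := Tr.L (Pth.l (Pth.l (Pth.r Pth.z)))
def l2 : Tr := Tr.L (Pth.l (Pth.r (Pth.l Pth.z)))
def l3 : Tr := Tr.L (Pth.l (Pth.r (Pth.r (Pth.l Pth.z))))
def l4 : Tr := Tr.L (Pth.l (Pth.r (Pth.r (Pth.r Pth.z))))
def l5 : Tr := Tr.L (Pth.r (Pth.l (Pth.l Pth.z)))
def l6 : Tr := Tr.L (Pth.r (Pth.l (Pth.r Pth.z)))
def l7 : Tr := Tr.L (Pth.r (Pth.r (Pth.l Pth.z)))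
def l8 : Tr := Tr.L (Pth.r (Pth.r (Pth.r (Pth.l Pth.z))))
def l9 : Tr := Tr.L (Pth.r (Pth.r (Pth.r (Pth.r Pth.z))))
end T1
def b2_0 : Bx := Bx.mk (St.mk (I.pos (nat_lit 144375808) (nat_lit 293273600)) (I.mix (nat_lit 49020928) (nat_lit 97959936)) (I.mix (nat_lit 219529216) (nat_lit 105136128)) (I.pos (nat_lit 358088704) (nat_lit 600997888)) (I.mix (nat_lit 121077760) (nat_lit 104153088)) (I.mix (nat_lit 136249344) (nat_lit 91062272)) (I.mix (nat_lit 207536128) (nat_lit 180043776)))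
  false (nat_lit 41909796)
def b2_1 : Bx := Bx.mk (St.mk (I.mix (nat_lit 64667648) (nat_lit 21053440)) (I.mix (nat_lit 24838144) (nat_lit 95961088)) (I.neg (nat_lit 43286528) (nat_lit 70287360)) (I.pos (nat_lit 265388032) (nat_lit 293699584)) (I.mix (nat_lit 56983552) (nat_lit 97927168)) (I.mix (nat_lit 110755840) (nat_lit 73613312)) (I.mix (nat_lit 40452096) (nat_lit 34930688)))
  true (nat_lit 0)
def b2_2 : Bx := Bx.mk (St.mk (I.mix (nat_lit 21053440) (nat_lit 64684032)) (I.mix (nat_lit 96043008) (nat_lit 26148864)) (I.neg (nat_lit 43286528) (nat_lit 70287360)) (I.pos (nat_lit 265388032) (nat_lit 293699584)) (I.mix (nat_lit 97927168) (nat_lit 56983552)) (I.mix (nat_lit 73613312) (nat_lit 110755840)) (I.mix (nat_lit 40452096) (nat_lit 34930688)))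
  false (nat_lit 0)
def b2_3 : Bx := Bx.mk (St.mk (I.pos (nat_lit 26001408) (nat_lit 132874240)) (I.neg (nat_lit 1261568) (nat_lit 96124928)) (I.mix (nat_lit 87687168) (nat_lit 294912)) (I.pos (nat_lit 266452992) (nat_lit 337051648)) (I.mix (nat_lit 104562688) (nat_lit 89210880)) (I.mix (nat_lit 84754432) (nat_lit 122388480)) (I.mix (nat_lit 82313216) (nat_lit 102449152)))
  false (nat_lit 0)
def b2_4 : Bx := Bx.mk (St.mk (I.pos (nat_lit 83705856) (nat_lit 198066176)) (I.mix (nat_lit 49020928) (nat_lit 105185280)) (I.mix (nat_lit 43532288) (nat_lit 103776256)) (I.pos (nat_lit 290734080) (nat_lit 427442176)) (I.mix (nat_lit 161316864) (nat_lit 82411520)) (I.mix (nat_lit 204226560) (nat_lit 118439936)) (I.mix (nat_lit 198377472) (nat_lit 141017088)))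
  false (nat_lit 16971364)
def b2_5 : Bx := Bx.mk (St.mk (I.neg (nat_lit 26001408) (nat_lit 132874240)) (I.mix (nat_lit 1556480) (nat_lit 96026624)) (I.mix (nat_lit 87621632) (nat_lit 3850240)) (I.pos (nat_lit 266436608) (nat_lit 337051648)) (I.mix (nat_lit 89210880) (nat_lit 104562688)) (I.mix (nat_lit 122388480) (nat_lit 84754432)) (I.mix (nat_lit 82313216) (nat_lit 102449152)))
  true (nat_lit 0)
def t2 : BTr := (BTr.n (BTr.n (BTr.b b2_0) (BTr.n (BTr.b b2_1) (BTr.b b2_2))) (BTr.n (BTr.b b2_3) (BTr.n (BTr.b b2_4) (BTr.b b2_5))))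
namespace T2
def l0 : Tr := Tr.L (Pth.l (Pth.l Pth.z))
def l1 : Tr := Tr.L (Pth.l (Pth.r (Pth.l Pth.z)))
def l2 : Tr := Tr.L (Pth.l (Pth.r (Pth.r Pth.z)))
def l3 : Tr := Tr.L (Pth.r (Pth.l Pth.z))
def l4 : Tr := Tr.L (Pth.r (Pth.r (Pth.l Pth.z)))
def l5 : Tr := Tr.L (Pth.r (Pth.r (Pth.r Pth.z)))
end T2
def b3_0 : Bx := Bx.mk (St.mk (I.pos (nat_lit 153288704) (nat_lit 288768000)) (I.mix (nat_lit 39337984) (nat_lit 58327040)) (I.mix (nat_lit 59719680) (nat_lit 121929728)) (I.pos (nat_lit 130203648) (nat_lit 382550016)) (I.mix (nat_lit 116801536) (nat_lit 77086720)) (I.mix (nat_lit 116211712) (nat_lit 91176960)) (I.mix (nat_lit 171982848) (nat_lit 129007616)))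
  false (nat_lit 26287886)
def b3_1 : Bx := Bx.mk (St.mk (I.pos (nat_lit 101777408) (nat_lit 166100992)) (I.mix (nat_lit 73728000) (nat_lit 245760)) (I.mix (nat_lit 56639488) (nat_lit 18022400)) (I.pos (nat_lit 102662144) (nat_lit 166690816)) (I.mix (nat_lit 96010240) (nat_lit 53051392)) (I.mix (nat_lit 56229888) (nat_lit 81084416)) (I.mix (nat_lit 51707904) (nat_lit 71335936)))
  false (nat_lit 16035058)
def b3_2 : Bx := Bx.mk (St.mk (I.mix (nat_lit 24100864) (nat_lit 82886656)) (I.mix (nat_lit 36716544) (nat_lit 5341184)) (I.mix (nat_lit 11763712) (nat_lit 12779520)) (I.pos (nat_lit 40501248) (nat_lit 89047040)) (I.mix (nat_lit 33210368) (nat_lit 31145984)) (I.mix (nat_lit 30294016) (nat_lit 32440320)) (I.mix (nat_lit 15532032) (nat_lit 18415616)))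
  false (nat_lit 0)
def b3_3 : Bx := Bx.mk (St.mk (I.pos (nat_lit 147931136) (nat_lit 214433792)) (I.mix (nat_lit 48627712) (nat_lit 83214336)) (I.mix (nat_lit 30736384) (nat_lit 147800064)) (I.pos (nat_lit 132087808) (nat_lit 235651072)) (I.mix (nat_lit 190644224) (nat_lit 68796416)) (I.mix (nat_lit 235749376) (nat_lit 131809280)) (I.mix (nat_lit 282116096) (nat_lit 138215424)))
  false (nat_lit 39365267)
def b3_4 : Bx := Bx.mk (St.mk (I.mix (nat_lit 40206336) (nat_lit 109363200)) (I.mix (nat_lit 18841600) (nat_lit 43646976)) (I.mix (nat_lit 2179072) (nat_lit 38928384)) (I.pos (nat_lit 39092224) (nat_lit 105480192)) (I.mix (nat_lit 64274432) (nat_lit 31768576)) (I.mix (nat_lit 67239936) (nat_lit 48365568)) (I.mix (nat_lit 40124416) (nat_lit 29491200)))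
  false (nat_lit 0)
def b3_5 : Bx := Bx.mk (St.mk (I.mix (nat_lit 48496640) (nat_lit 109494272)) (I.mix (nat_lit 20103168) (nat_lit 10715136)) (I.mix (nat_lit 1933312) (nat_lit 16138240)) (I.pos (nat_lit 41992192) (nat_lit 93765632)) (I.mix (nat_lit 18038784) (nat_lit 12550144)) (I.mix (nat_lit 12730368) (nat_lit 12713984)) (I.mix (nat_lit 7225344) (nat_lit 6471680)))
  false (nat_lit 0)
def b3_6 : Bx := Bx.mk (St.mk (I.mix (nat_lit 29917184) (nat_lit 126238720)) (I.mix (nat_lit 13500416) (nat_lit 40189952)) (I.mix (nat_lit 5177344) (nat_lit 38846464)) (I.pos (nat_lit 39190528) (nat_lit 119963648)) (I.mix (nat_lit 60030976) (nat_lit 39550976)) (I.mix (nat_lit 55689216) (nat_lit 45531136)) (I.mix (nat_lit 38764544) (nat_lit 33193984)))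
  false (nat_lit 0)
def b3_7 : Bx := Bx.mk (St.mk (I.pos (nat_lit 90832896) (nat_lit 152748032)) (I.mix (nat_lit 71385088) (nat_lit 12599296)) (I.mix (nat_lit 49135616) (nat_lit 17268736)) (I.pos (nat_lit 76890112) (nat_lit 148029440)) (I.mix (nat_lit 100728832) (nat_lit 49856512)) (I.mix (nat_lit 82231296) (nat_lit 111509504)) (I.mix (nat_lit 60768256) (nat_lit 76922880)))
  false (nat_lit 21887668)
def b3_8 : Bx := Bx.mk (St.mk (I.mix (nat_lit 39550976) (nat_lit 72302592)) (I.mix (nat_lit 35684352) (nat_lit 6455296)) (I.mix (nat_lit 8454144) (nat_lit 10895360)) (I.pos (nat_lit 40534016) (nat_lit 83361792)) (I.mix (nat_lit 32391168) (nat_lit 26722304)) (I.mix (nat_lit 32882688) (nat_lit 38338560)) (I.mix (nat_lit 12533760) (nat_lit 14303232)))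
  false (nat_lit 0)
def b3_9 : Bx := Bx.mk (St.mk (I.pos (nat_lit 140361728) (nat_lit 171950080)) (I.mix (nat_lit 42123264) (nat_lit 770048)) (I.mix (nat_lit 17793024) (nat_lit 29900800)) (I.pos (nat_lit 125272064) (nat_lit 175357952)) (I.mix (nat_lit 51200000) (nat_lit 39157760)) (I.mix (nat_lit 41353216) (nat_lit 48168960)) (I.mix (nat_lit 47906816) (nat_lit 47235072)))
  false (nat_lit 0)
def t3 : BTr := (BTr.n (BTr.n (BTr.n (BTr.b b3_0) (BTr.b b3_1)) (BTr.n (BTr.b b3_2) (BTr.n (BTr.b b3_3) (BTr.b b3_4)))) (BTr.n (BTr.n (BTr.b b3_5) (BTr.b b3_6)) (BTr.n (BTr.b b3_7) (BTr.n (BTr.b b3_8) (BTr.b b3_9)))))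
namespace T3
def l0 : Tr := Tr.L (Pth.l (Pth.l (Pth.l Pth.z)))
def l1 : Tr := Tr.L (Pth.l (Pth.l (Pth.r Pth.z)))
def l2 : Tr := Tr.L (Pth.l (Pth.r (Pth.l Pth.z)))
def l3 : Tr := Tr.L (Pth.l (Pth.r (Pth.r (Pth.l Pth.z))))
def l4 : Tr := Tr.L (Pth.l (Pth.r (Pth.r (Pth.r Pth.z))))
def l5 : Tr := Tr.L (Pth.r (Pth.l (Pth.l Pth.z)))
def l6 : Tr := Tr.L (Pth.r (Pth.l (Pth.r Pth.z)))
def l7 : Tr := Tr.L (Pth.r (Pth.r (Pth.l Pth.z)))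
def l8 : Tr := Tr.L (Pth.r (Pth.r (Pth.r (Pth.l Pth.z))))
def l9 : Tr := Tr.L (Pth.r (Pth.r (Pth.r (Pth.r Pth.z))))
end T3
def b4_0 : Bx := Bx.mk (St.mk (I.pos (nat_lit 134037504) (nat_lit 295501824)) (I.mix (nat_lit 42369024) (nat_lit 95584256)) (I.mix (nat_lit 170393600) (nat_lit 117456896)) (I.pos (nat_lit 355631104) (nat_lit 592019456)) (I.mix (nat_lit 134381568) (nat_lit 125190144)) (I.mix (nat_lit 151519232) (nat_lit 115130368)) (I.mix (nat_lit 228327424) (nat_lit 164118528)))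
  false (nat_lit 118164634)
def b4_1 : Bx := Bx.mk (St.mk (I.pos (nat_lit 29130752) (nat_lit 134053888)) (I.neg (nat_lit 3096576) (nat_lit 97271808)) (I.mix (nat_lit 71368704) (nat_lit 18497536)) (I.pos (nat_lit 268091392) (nat_lit 336609280)) (I.mix (nat_lit 103251968) (nat_lit 78512128)) (I.mix (nat_lit 73646080) (nat_lit 103677952)) (I.mix (nat_lit 71614464) (nat_lit 84082688)))
  false (nat_lit 0)
def b4_2 : Bx := Bx.mk (St.mk (I.pos (nat_lit 84819968) (nat_lit 193249280)) (I.mix (nat_lit 51265536) (nat_lit 103071744)) (I.mix (nat_lit 28475392) (nat_lit 122339328)) (I.pos (nat_lit 291520512) (nat_lit 415793152)) (I.mix (nat_lit 150716416) (nat_lit 80461824)) (I.mix (nat_lit 175276032) (nat_lit 113721344)) (I.mix (nat_lit 171393024) (nat_lit 138526720)))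
  false (nat_lit 81300894)
def b4_3 : Bx := Bx.mk (St.mk (I.neg (nat_lit 29114368) (nat_lit 134070272)) (I.mix (nat_lit 4128768) (nat_lit 97157120)) (I.mix (nat_lit 71352320) (nat_lit 24543232)) (I.pos (nat_lit 268091392) (nat_lit 336609280)) (I.mix (nat_lit 78512128) (nat_lit 103251968)) (I.mix (nat_lit 103677952) (nat_lit 73646080)) (I.mix (nat_lit 71630848) (nat_lit 84082688)))
  true (nat_lit 0)
def b4_4 : Bx := Bx.mk (St.mk (I.mix (nat_lit 69484544) (nat_lit 21315584)) (I.mix (nat_lit 23445504) (nat_lit 97910784)) (I.neg (nat_lit 28901376) (nat_lit 55754752)) (I.pos (nat_lit 265224192) (nat_lit 294256640)) (I.mix (nat_lit 59392000) (nat_lit 107364352)) (I.mix (nat_lit 123092992) (nat_lit 76398592)) (I.mix (nat_lit 40173568) (nat_lit 31571968)))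
  true (nat_lit 0)
def b4_5 : Bx := Bx.mk (St.mk (I.mix (nat_lit 21315584) (nat_lit 69484544)) (I.mix (nat_lit 97910784) (nat_lit 23445504)) (I.neg (nat_lit 28901376) (nat_lit 55754752)) (I.pos (nat_lit 265224192) (nat_lit 294256640)) (I.mix (nat_lit 107364352) (nat_lit 59392000)) (I.mix (nat_lit 76398592) (nat_lit 123092992)) (I.mix (nat_lit 40173568) (nat_lit 31571968)))
  false (nat_lit 8562101)
def t4 : BTr := (BTr.n (BTr.n (BTr.b b4_0) (BTr.n (BTr.b b4_1) (BTr.b b4_2))) (BTr.n (BTr.b b4_3) (BTr.n (BTr.b b4_4) (BTr.b b4_5))))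
namespace T4
def l0 : Tr := Tr.L (Pth.l (Pth.l Pth.z))
def l1 : Tr := Tr.L (Pth.l (Pth.r (Pth.l Pth.z)))
def l2 : Tr := Tr.L (Pth.l (Pth.r (Pth.r Pth.z)))
def l3 : Tr := Tr.L (Pth.r (Pth.l Pth.z))
def l4 : Tr := Tr.L (Pth.r (Pth.r (Pth.l Pth.z)))
def l5 : Tr := Tr.L (Pth.r (Pth.r (Pth.r Pth.z)))
end T4
def b5_0 : Bx := Bx.mk (St.mk (I.pos (nat_lit 153337856) (nat_lit 287932416)) (I.mix (nat_lit 33292288) (nat_lit 68845568)) (I.mix (nat_lit 43335680) (nat_lit 138280960)) (I.pos (nat_lit 174817280) (nat_lit 400441344)) (I.mix (nat_lit 113721344) (nat_lit 114671616)) (I.mix (nat_lit 159842304) (nat_lit 122093568)) (I.mix (nat_lit 227885056) (nat_lit 159498240)))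
  false (nat_lit 59946912)
def b5_1 : Bx := Bx.mk (St.mk (I.pos (nat_lit 98648064) (nat_lit 161595392)) (I.neg (nat_lit 2555904) (nat_lit 73023488)) (I.mix (nat_lit 45121536) (nat_lit 33816576)) (I.pos (nat_lit 135086080) (nat_lit 186023936)) (I.mix (nat_lit 79544320) (nat_lit 56950784)) (I.mix (nat_lit 50151424) (nat_lit 73564160)) (I.mix (nat_lit 41910272) (nat_lit 66109440)))
  false (nat_lit 0)
def b5_2 : Bx := Bx.mk (St.mk (I.mix (nat_lit 28540928) (nat_lit 44400640)) (I.mix (nat_lit 37568512) (nat_lit 7585792)) (I.mix (nat_lit 425984) (nat_lit 15499264)) (I.pos (nat_lit 83001344) (nat_lit 99827712)) (I.mix (nat_lit 24887296) (nat_lit 35028992)) (I.mix (nat_lit 25395200) (nat_lit 37322752)) (I.mix (nat_lit 9404416) (nat_lit 13762560)))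
  false (nat_lit 0)
def b5_3 : Bx := Bx.mk (St.mk (I.pos (nat_lit 143507456) (nat_lit 207060992)) (I.mix (nat_lit 45940736) (nat_lit 74366976)) (I.mix (nat_lit 17825792) (nat_lit 134758400)) (I.pos (nat_lit 169377792) (nat_lit 247414784)) (I.mix (nat_lit 153600000) (nat_lit 59228160)) (I.mix (nat_lit 177225728) (nat_lit 89489408)) (I.mix (nat_lit 199917568) (nat_lit 86097920)))
  false (nat_lit 19915566)
def b5_4 : Bx := Bx.mk (St.mk (I.mix (nat_lit 51331072) (nat_lit 73711616)) (I.mix (nat_lit 15532032) (nat_lit 40026112)) (I.mix (nat_lit 1474560) (nat_lit 29933568)) (I.pos (nat_lit 82952192) (nat_lit 109297664)) (I.mix (nat_lit 46317568) (nat_lit 24510464)) (I.mix (nat_lit 43745280) (nat_lit 28672000)) (I.mix (nat_lit 17104896) (nat_lit 13697024)))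
  false (nat_lit 0)
def b5_5 : Bx := Bx.mk (St.mk (I.pos (nat_lit 124043264) (nat_lit 161906688)) (I.neg (nat_lit 1556480) (nat_lit 44613632)) (I.mix (nat_lit 13041664) (nat_lit 33521664)) (I.pos (nat_lit 153059328) (nat_lit 186908672)) (I.mix (nat_lit 54198272) (nat_lit 35569664)) (I.mix (nat_lit 41156608) (nat_lit 42614784)) (I.mix (nat_lit 42024960) (nat_lit 36667392)))
  false (nat_lit 0)
def b5_6 : Bx := Bx.mk (St.mk (I.mix (nat_lit 62275584) (nat_lit 59359232)) (I.mix (nat_lit 13369344) (nat_lit 14385152)) (I.pos (nat_lit 6537216) (nat_lit 18710528)) (I.pos (nat_lit 86147072) (nat_lit 102989824)) (I.mix (nat_lit 24346624) (nat_lit 18432000)) (I.mix (nat_lit 25165824) (nat_lit 20578304)) (I.mix (nat_lit 8028160) (nat_lit 9732096)))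
  false (nat_lit 0)
def b5_7 : Bx := Bx.mk (St.mk (I.mix (nat_lit 35799040) (nat_lit 102432768)) (I.mix (nat_lit 11649024) (nat_lit 42614784)) (I.mix (nat_lit 1228800) (nat_lit 35930112)) (I.pos (nat_lit 79085568) (nat_lit 126959616)) (I.mix (nat_lit 54968320) (nat_lit 50659328)) (I.mix (nat_lit 71303168) (nat_lit 40091648)) (I.mix (nat_lit 45727744) (nat_lit 28049408)))
  false (nat_lit 0)
def b5_8 : Bx := Bx.mk (St.mk (I.pos (nat_lit 78479360) (nat_lit 135626752)) (I.mix (nat_lit 70696960) (nat_lit 14811136)) (I.mix (nat_lit 39370752) (nat_lit 17530880)) (I.pos (nat_lit 111886336) (nat_lit 157728768)) (I.mix (nat_lit 81018880) (nat_lit 42795008)) (I.mix (nat_lit 62504960) (nat_lit 107560960)) (I.mix (nat_lit 42172416) (nat_lit 69615616)))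
  false (nat_lit 0)
def b5_9 : Bx := Bx.mk (St.mk (I.mix (nat_lit 54231040) (nat_lit 35930112)) (I.mix (nat_lit 38535168) (nat_lit 9879552)) (I.pos (nat_lit 1343488) (nat_lit 18710528)) (I.pos (nat_lit 81739776) (nat_lit 100941824)) (I.mix (nat_lit 40058880) (nat_lit 36388864)) (I.mix (nat_lit 29474816) (nat_lit 53739520)) (I.mix (nat_lit 20086784) (nat_lit 13385728)))
  false (nat_lit 0)
def t5 : BTr := (BTr.n (BTr.n (BTr.n (BTr.b b5_0) (BTr.b b5_1)) (BTr.n (BTr.b b5_2) (BTr.n (BTr.b b5_3) (BTr.b b5_4)))) (BTr.n (BTr.n (BTr.b b5_5) (BTr.b b5_6)) (BTr.n (BTr.b b5_7) (BTr.n (BTr.b b5_8) (BTr.b b5_9)))))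
namespace T5
def l0 : Tr := Tr.L (Pth.l (Pth.l (Pth.l Pth.z)))
def l1 : Tr := Tr.L (Pth.l (Pth.l (Pth.r Pth.z)))
def l2 : Tr := Tr.L (Pth.l (Pth.r (Pth.l Pth.z)))
def l3 : Tr := Tr.L (Pth.l (Pth.r (Pth.r (Pth.l Pth.z))))
def l4 : Tr := Tr.L (Pth.l (Pth.r (Pth.r (Pth.r Pth.z))))
def l5 : Tr := Tr.L (Pth.r (Pth.l (Pth.l Pth.z)))
def l6 : Tr := Tr.L (Pth.r (Pth.l (Pth.r Pth.z)))
def l7 : Tr := Tr.L (Pth.r (Pth.r (Pth.l Pth.z)))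
def l8 : Tr := Tr.L (Pth.r (Pth.r (Pth.r (Pth.l Pth.z))))
def l9 : Tr := Tr.L (Pth.r (Pth.r (Pth.r (Pth.r Pth.z))))
end T5
theorem bx0_0 : BoxOK sI cl4 cl6 cl7 t2 t4 b0_0 :=
  box_mk (TrL.c (I.pos (nat_lit 0) (nat_lit 0)) (xa (xb T2.l0 (xa (xb T2.l0 T2.l0) T2.l0)) (xb T2.l4 (xa T2.l0 T2.l4)))
  (TrL.c (I.pos (nat_lit 0) (nat_lit 0)) (xa T4.l1 T4.l1)
  (TrL.c (I.pos (nat_lit 0) (nat_lit 0)) T2.l1
  (TrL.c (I.pos (nat_lit 0) (nat_lit 0)) (xa T4.l2 (xb (xa T4.l2 (xb T4.l0 T4.l2)) (xa T4.l2 (xs T4.l2 T4.l2))))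
  (TrL.c (I.pos (nat_lit 0) (nat_lit 0)) T2.l2
  (TrL.c (I.pos (nat_lit 0) (nat_lit 0)) (xa T4.l3 T4.l3)
  TrL.n)))))) (by decide +kernel)
theorem bx0_1 : BoxOK sI cl4 cl6 cl7 t2 t4 b0_1 :=
  box_mk (TrL.c (I.pos (nat_lit 0) (nat_lit 0)) T2.l0
  (TrL.c (I.pos (nat_lit 0) (nat_lit 0)) T4.l1
  (TrL.c (I.pos (nat_lit 0) (nat_lit 0)) T2.l1
  (TrL.c (I.pos (nat_lit 0) (nat_lit 0)) T4.l2
  (TrL.c (I.pos (nat_lit 0) (nat_lit 0)) T2.l2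
  (TrL.c (I.pos (nat_lit 0) (nat_lit 0)) T4.l3
  TrL.n)))))) (by decide +kernel)
theorem bx0_2 : BoxOK sI cl4 cl6 cl7 t2 t4 b0_2 :=
  box_mk (TrL.c (I.pos (nat_lit 0) (nat_lit 0)) T2.l0
  (TrL.c (I.pos (nat_lit 0) (nat_lit 0)) T4.l1
  (TrL.c (I.pos (nat_lit 0) (nat_lit 0)) T2.l1
  (TrL.c (I.pos (nat_lit 0) (nat_lit 0)) T4.l2
  (TrL.c (I.pos (nat_lit 0) (nat_lit 0)) T2.l2
  (TrL.c (I.pos (nat_lit 0) (nat_lit 0)) T4.l3
  TrL.n)))))) (by decide +kernel)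
theorem bx0_3 : BoxOK sI cl4 cl6 cl7 t2 t4 b0_3 :=
  box_mk (TrL.c (I.pos (nat_lit 0) (nat_lit 0)) (xa T2.l0 T2.l0)
  (TrL.c (I.pos (nat_lit 0) (nat_lit 0)) T4.l2
  (TrL.c (I.pos (nat_lit 0) (nat_lit 0)) T2.l1
  (TrL.c (I.pos (nat_lit 0) (nat_lit 0)) T4.l2
  (TrL.c (I.pos (nat_lit 0) (nat_lit 0)) T2.l2
  (TrL.c (I.pos (nat_lit 0) (nat_lit 0)) T4.l3
  TrL.n)))))) (by decide +kernel)
theorem bx0_4 : BoxOK sI cl4 cl6 cl7 t2 t4 b0_4 :=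
  box_mk (TrL.c (I.pos (nat_lit 0) (nat_lit 0)) T2.l0
  (TrL.c (I.pos (nat_lit 0) (nat_lit 0)) T4.l1
  (TrL.c (I.pos (nat_lit 0) (nat_lit 0)) T2.l1
  (TrL.c (I.pos (nat_lit 0) (nat_lit 0)) T4.l2
  (TrL.c (I.pos (nat_lit 0) (nat_lit 0)) T2.l2
  (TrL.c (I.pos (nat_lit 0) (nat_lit 0)) T4.l3
  TrL.n)))))) (by decide +kernel)
theorem bx0_5 : BoxOK sI cl4 cl6 cl7 t2 t4 b0_5 :=
  box_mk (TrL.c (I.pos (nat_lit 0) (nat_lit 0)) T2.l0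
  (TrL.c (I.pos (nat_lit 0) (nat_lit 0)) T4.l1
  (TrL.c (I.pos (nat_lit 0) (nat_lit 0)) T2.l1
  (TrL.c (I.pos (nat_lit 0) (nat_lit 0)) T4.l2
  (TrL.c (I.pos (nat_lit 0) (nat_lit 0)) T2.l2
  (TrL.c (I.pos (nat_lit 0) (nat_lit 0)) T4.l3
  TrL.n)))))) (by decide +kernel)
theorem bx0_6 : BoxOK sI cl4 cl6 cl7 t2 t4 b0_6 :=
  box_mk (TrL.c (I.pos (nat_lit 0) (nat_lit 0)) (xa (xb (xa T2.l0 T2.l0) T2.l0) T2.l0)
  (TrL.c (I.pos (nat_lit 0) (nat_lit 0)) T4.l1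
  (TrL.c (I.pos (nat_lit 0) (nat_lit 0)) T2.l1
  (TrL.c (I.pos (nat_lit 0) (nat_lit 0)) T4.l2
  (TrL.c (I.pos (nat_lit 0) (nat_lit 0)) T2.l2
  (TrL.c (I.pos (nat_lit 0) (nat_lit 0)) T4.l3
  TrL.n)))))) (by decide +kernel)
theorem bx0_7 : BoxOK sI cl4 cl6 cl7 t2 t4 b0_7 :=
  box_mk (TrL.c (I.pos (nat_lit 0) (nat_lit 0)) (xa T2.l0 T2.l0)
  (TrL.c (I.pos (nat_lit 0) (nat_lit 0)) T4.l2
  (TrL.c (I.pos (nat_lit 0) (nat_lit 0)) T2.l1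
  (TrL.c (I.pos (nat_lit 0) (nat_lit 0)) T4.l2
  (TrL.c (I.pos (nat_lit 0) (nat_lit 0)) T2.l2
  (TrL.c (I.pos (nat_lit 0) (nat_lit 0)) T4.l3
  TrL.n)))))) (by decide +kernel)
theorem bx0_8 : BoxOK sI cl4 cl6 cl7 t2 t4 b0_8 :=
  box_mk (TrL.c (I.pos (nat_lit 0) (nat_lit 0)) (xa (xa T2.l0 T2.l0) T2.l0)
  (TrL.c (I.pos (nat_lit 0) (nat_lit 0)) T4.l1
  (TrL.c (I.pos (nat_lit 0) (nat_lit 0)) T2.l1
  (TrL.c (I.pos (nat_lit 0) (nat_lit 0)) T4.l2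
  (TrL.c (I.pos (nat_lit 0) (nat_lit 0)) T2.l2
  (TrL.c (I.pos (nat_lit 0) (nat_lit 0)) T4.l3
  TrL.n)))))) (by decide +kernel)
theorem bx0_9 : BoxOK sI cl4 cl6 cl7 t2 t4 b0_9 :=
  box_mk (TrL.c (I.pos (nat_lit 0) (nat_lit 0)) (xb (xa (xb T2.l0 T2.l0) T2.l0) (xa (xa (xb T2.l0 T2.l0) T2.l0) (xa T2.l0 T2.l0)))
  (TrL.c (I.pos (nat_lit 0) (nat_lit 0)) (xb T4.l1 T4.l1)
  (TrL.c (I.pos (nat_lit 0) (nat_lit 0)) T2.l1
  (TrL.c (I.pos (nat_lit 0) (nat_lit 0)) (xb (xa T4.l2 (xb T4.l2 T4.l2)) (xa T4.l2 (xs T4.l2 (xb T4.l2 T4.l2))))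
  (TrL.c (I.pos (nat_lit 0) (nat_lit 0)) T2.l2
  (TrL.c (I.pos (nat_lit 0) (nat_lit 0)) (xb T4.l3 T4.l3)
  TrL.n)))))) (by decide +kernel)
theorem sv0 : StarV sI cl4 cl6 cl7 t2 t4 t0 :=
  (bt_n (bt_n (bt_n (bt_b bx0_0) (bt_b bx0_1)) (bt_n (bt_b bx0_2) (bt_n (bt_b bx0_3) (bt_b bx0_4)))) (bt_n (bt_n (bt_b bx0_5) (bt_b bx0_6)) (bt_n (bt_b bx0_7) (bt_n (bt_b bx0_8) (bt_b bx0_9)))))
def S0 : StarD := StarD.mk cl4 cl6 cl7 2 4 t0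
theorem bx1_0 : BoxOK sI cl4 cl7 cl6 t4 t2 b1_0 :=
  box_mk (TrL.c (I.pos (nat_lit 0) (nat_lit 0)) (xa (xb T4.l0 (xa T4.l0 T4.l0)) (xb (xa T4.l0 T4.l0) (xa T4.l0 T4.l2)))
  (TrL.c (I.pos (nat_lit 0) (nat_lit 0)) (xa T2.l3 (xb T2.l3 T2.l3))
  (TrL.c (I.pos (nat_lit 0) (nat_lit 0)) T4.l4
  (TrL.c (I.pos (nat_lit 0) (nat_lit 0)) (xa T2.l4 (xb (xa T2.l4 (xb T2.l4 T2.l4)) (xa T2.l4 (xs T2.l4 T2.l4))))
  (TrL.c (I.pos (nat_lit 0) (nat_lit 0)) T4.l5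
  (TrL.c (I.pos (nat_lit 0) (nat_lit 0)) (xa T2.l5 (xb T2.l5 T2.l5))
  TrL.n)))))) (by decide +kernel)
theorem bx1_1 : BoxOK sI cl4 cl7 cl6 t4 t2 b1_1 :=
  box_mk (TrL.c (I.pos (nat_lit 0) (nat_lit 0)) T4.l0
  (TrL.c (I.pos (nat_lit 0) (nat_lit 0)) T2.l3
  (TrL.c (I.pos (nat_lit 0) (nat_lit 0)) T4.l4
  (TrL.c (I.pos (nat_lit 0) (nat_lit 0)) T2.l4
  (TrL.c (I.pos (nat_lit 0) (nat_lit 0)) T4.l5
  (TrL.c (I.pos (nat_lit 0) (nat_lit 0)) T2.l5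
  TrL.n)))))) (by decide +kernel)
theorem bx1_2 : BoxOK sI cl4 cl7 cl6 t4 t2 b1_2 :=
  box_mk (TrL.c (I.pos (nat_lit 0) (nat_lit 0)) T4.l0
  (TrL.c (I.pos (nat_lit 0) (nat_lit 0)) T2.l3
  (TrL.c (I.pos (nat_lit 0) (nat_lit 0)) T4.l4
  (TrL.c (I.pos (nat_lit 0) (nat_lit 0)) T2.l4
  (TrL.c (I.pos (nat_lit 0) (nat_lit 0)) T4.l5
  (TrL.c (I.pos (nat_lit 0) (nat_lit 0)) T2.l5
  TrL.n)))))) (by decide +kernel)
theorem bx1_3 : BoxOK sI cl4 cl7 cl6 t4 t2 b1_3 :=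
  box_mk (TrL.c (I.pos (nat_lit 0) (nat_lit 0)) (xa T4.l0 T4.l0)
  (TrL.c (I.pos (nat_lit 0) (nat_lit 0)) T2.l4
  (TrL.c (I.pos (nat_lit 0) (nat_lit 0)) T4.l4
  (TrL.c (I.pos (nat_lit 0) (nat_lit 0)) T2.l4
  (TrL.c (I.pos (nat_lit 0) (nat_lit 0)) T4.l5
  (TrL.c (I.pos (nat_lit 0) (nat_lit 0)) T2.l5
  TrL.n)))))) (by decide +kernel)
theorem bx1_4 : BoxOK sI cl4 cl7 cl6 t4 t2 b1_4 :=
  box_mk (TrL.c (I.pos (nat_lit 0) (nat_lit 0)) T4.l0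
  (TrL.c (I.pos (nat_lit 0) (nat_lit 0)) T2.l3
  (TrL.c (I.pos (nat_lit 0) (nat_lit 0)) T4.l4
  (TrL.c (I.pos (nat_lit 0) (nat_lit 0)) T2.l4
  (TrL.c (I.pos (nat_lit 0) (nat_lit 0)) T4.l5
  (TrL.c (I.pos (nat_lit 0) (nat_lit 0)) T2.l5
  TrL.n)))))) (by decide +kernel)
theorem bx1_5 : BoxOK sI cl4 cl7 cl6 t4 t2 b1_5 :=
  box_mk (TrL.c (I.pos (nat_lit 0) (nat_lit 0)) T4.l0
  (TrL.c (I.pos (nat_lit 0) (nat_lit 0)) T2.l3
  (TrL.c (I.pos (nat_lit 0) (nat_lit 0)) T4.l4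
  (TrL.c (I.pos (nat_lit 0) (nat_lit 0)) T2.l4
  (TrL.c (I.pos (nat_lit 0) (nat_lit 0)) T4.l5
  (TrL.c (I.pos (nat_lit 0) (nat_lit 0)) T2.l5
  TrL.n)))))) (by decide +kernel)
theorem bx1_6 : BoxOK sI cl4 cl7 cl6 t4 t2 b1_6 :=
  box_mk (TrL.c (I.pos (nat_lit 0) (nat_lit 0)) T4.l0
  (TrL.c (I.pos (nat_lit 0) (nat_lit 0)) T2.l3
  (TrL.c (I.pos (nat_lit 0) (nat_lit 0)) T4.l4
  (TrL.c (I.pos (nat_lit 0) (nat_lit 0)) T2.l4
  (TrL.c (I.pos (nat_lit 0) (nat_lit 0)) T4.l5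
  (TrL.c (I.pos (nat_lit 0) (nat_lit 0)) T2.l5
  TrL.n)))))) (by decide +kernel)
theorem bx1_7 : BoxOK sI cl4 cl7 cl6 t4 t2 b1_7 :=
  box_mk (TrL.c (I.pos (nat_lit 0) (nat_lit 0)) T4.l0
  (TrL.c (I.pos (nat_lit 0) (nat_lit 0)) T2.l3
  (TrL.c (I.pos (nat_lit 0) (nat_lit 0)) T4.l4
  (TrL.c (I.pos (nat_lit 0) (nat_lit 0)) T2.l4
  (TrL.c (I.pos (nat_lit 0) (nat_lit 0)) T4.l5
  (TrL.c (I.pos (nat_lit 0) (nat_lit 0)) T2.l5
  TrL.n)))))) (by decide +kernel)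
theorem bx1_8 : BoxOK sI cl4 cl7 cl6 t4 t2 b1_8 :=
  box_mk (TrL.c (I.pos (nat_lit 0) (nat_lit 0)) (xa (xb (xb T4.l0 T4.l0) (xa (xb T4.l0 T4.l0) (xb T4.l0 T4.l0))) (xb (xa T4.l0 T4.l0) (xa T4.l0 (xs T4.l0 T4.l0))))
  (TrL.c (I.pos (nat_lit 0) (nat_lit 0)) (xa T2.l3 T2.l3)
  (TrL.c (I.pos (nat_lit 0) (nat_lit 0)) T4.l4
  (TrL.c (I.pos (nat_lit 0) (nat_lit 0)) (xb (xa T2.l4 (xb T2.l4 T2.l4)) (xa T2.l4 (xa T2.l4 T2.l4)))
  (TrL.c (I.pos (nat_lit 0) (nat_lit 0)) T4.l5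
  (TrL.c (I.pos (nat_lit 0) (nat_lit 0)) (xa T2.l5 T2.l5)
  TrL.n)))))) (by decide +kernel)
theorem bx1_9 : BoxOK sI cl4 cl7 cl6 t4 t2 b1_9 :=
  box_mk (TrL.c (I.pos (nat_lit 0) (nat_lit 0)) (xa T4.l0 T4.l0)
  (TrL.c (I.pos (nat_lit 0) (nat_lit 0)) (xa T2.l3 T2.l3)
  (TrL.c (I.pos (nat_lit 0) (nat_lit 0)) T4.l4
  (TrL.c (I.pos (nat_lit 0) (nat_lit 0)) T2.l4
  (TrL.c (I.pos (nat_lit 0) (nat_lit 0)) T4.l5
  (TrL.c (I.pos (nat_lit 0) (nat_lit 0)) (xa T2.l5 T2.l5)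
  TrL.n)))))) (by decide +kernel)
theorem sv1 : StarV sI cl4 cl7 cl6 t4 t2 t1 :=
  (bt_n (bt_n (bt_n (bt_b bx1_0) (bt_b bx1_1)) (bt_n (bt_b bx1_2) (bt_n (bt_b bx1_3) (bt_b bx1_4)))) (bt_n (bt_n (bt_b bx1_5) (bt_b bx1_6)) (bt_n (bt_b bx1_7) (bt_n (bt_b bx1_8) (bt_b bx1_9)))))
def S1 : StarD := StarD.mk cl4 cl7 cl6 4 2 t1
theorem bx2_0 : BoxOK sI cl6 cl4 cl7 t0 t5 b2_0 :=
  box_mk (TrL.c (I.pos (nat_lit 0) (nat_lit 0)) (xa (xb T0.l0 (xa T0.l0 T0.l0)) (xb T0.l9 (xa T0.l0 T0.l9)))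
  (TrL.c (I.pos (nat_lit 0) (nat_lit 0)) T5.l1
  (TrL.c (I.pos (nat_lit 0) (nat_lit 89480386)) (xR T0.l1 T0.l1)
  (TrL.c (I.pos (nat_lit 0) (nat_lit 41530880)) T5.l2
  (TrL.c (I.pos (nat_lit 0) (nat_lit 0)) (xa (xb T5.l3 T5.l3) (xb (xa T5.l0 (xb T5.l0 T5.l3)) (xa T5.l3 (xs T5.l3 T5.l3))))
  (TrL.c (I.pos (nat_lit 0) (nat_lit 0)) T0.l2
  (TrL.c (I.mix (nat_lit 41527258) (nat_lit 41530880)) (xR T5.l4 T5.l7)
  (TrL.c (I.mix (nat_lit 41527258) (nat_lit 4274)) T0.l3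
  TrL.n)))))))) (by decide +kernel)
theorem bx2_1 : BoxOK sI cl6 cl4 cl7 t0 t5 b2_1 :=
  box_mk (TrL.c (I.pos (nat_lit 0) (nat_lit 0)) T5.l1
  (TrL.c (I.pos (nat_lit 0) (nat_lit 0)) T0.l1
  (TrL.c (I.mix (nat_lit 41527258) (nat_lit 41530880)) T5.l4
  (TrL.c (I.mix (nat_lit 41527258) (nat_lit 4274)) T0.l5
  TrL.n)))) (by decide +kernel)
theorem bx2_2 : BoxOK sI cl6 cl4 cl7 t0 t5 b2_2 :=
  box_mk (TrL.c (I.pos (nat_lit 0) (nat_lit 0)) (xb (xa (xs (xa T0.l0 T0.l0) (xb T0.l0 T0.l0)) T0.l0) T0.l0)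
  (TrL.c (I.pos (nat_lit 0) (nat_lit 0)) T5.l1
  (TrL.c (I.pos (nat_lit 0) (nat_lit 89480386)) T0.l1
  (TrL.c (I.pos (nat_lit 0) (nat_lit 41530880)) T5.l4
  (TrL.c (I.pos (nat_lit 0) (nat_lit 0)) T5.l3
  (TrL.c (I.pos (nat_lit 0) (nat_lit 0)) T0.l2
  (TrL.c (I.mix (nat_lit 41527258) (nat_lit 41530880)) T5.l4
  (TrL.c (I.mix (nat_lit 41527258) (nat_lit 4274)) T0.l3
  TrL.n)))))))) (by decide +kernel)
theorem bx2_3 : BoxOK sI cl6 cl4 cl7 t0 t5 b2_3 :=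
  box_mk (TrL.c (I.pos (nat_lit 0) (nat_lit 0)) (xa (xb (xa (xs T0.l0 T0.l0) T0.l0) T0.l0) T0.l0)
  (TrL.c (I.pos (nat_lit 0) (nat_lit 0)) T5.l1
  (TrL.c (I.pos (nat_lit 0) (nat_lit 89480386)) (xR T0.l1 T0.l1)
  (TrL.c (I.pos (nat_lit 0) (nat_lit 41530880)) T5.l2
  (TrL.c (I.pos (nat_lit 0) (nat_lit 0)) T5.l3
  (TrL.c (I.pos (nat_lit 0) (nat_lit 0)) T0.l2
  (TrL.c (I.mix (nat_lit 41527258) (nat_lit 41530880)) (xR T5.l4 T5.l4)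
  (TrL.c (I.mix (nat_lit 41527258) (nat_lit 4274)) T0.l3
  TrL.n)))))))) (by decide +kernel)
theorem bx2_4 : BoxOK sI cl6 cl4 cl7 t0 t5 b2_4 :=
  box_mk (TrL.c (I.pos (nat_lit 0) (nat_lit 0)) (xb (xa (xb T0.l0 T0.l0) T0.l0) (xa (xa (xb T0.l0 T0.l0) T0.l0) (xa T0.l0 T0.l0)))
  (TrL.c (I.pos (nat_lit 0) (nat_lit 0)) T5.l1
  (TrL.c (I.pos (nat_lit 0) (nat_lit 89480386)) (xR T0.l1 T0.l1)
  (TrL.c (I.pos (nat_lit 0) (nat_lit 41530880)) T5.l2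
  (TrL.c (I.pos (nat_lit 0) (nat_lit 0)) (xb T5.l0 T5.l3)
  (TrL.c (I.pos (nat_lit 0) (nat_lit 0)) T0.l2
  (TrL.c (I.mix (nat_lit 41527258) (nat_lit 41530880)) (xR T5.l4 T5.l7)
  (TrL.c (I.mix (nat_lit 41527258) (nat_lit 4274)) T0.l3
  TrL.n)))))))) (by decide +kernel)
theorem bx2_5 : BoxOK sI cl6 cl4 cl7 t0 t5 b2_5 :=
  box_mk (TrL.c (I.pos (nat_lit 0) (nat_lit 0)) T5.l5
  (TrL.c (I.pos (nat_lit 0) (nat_lit 0)) T0.l1
  (TrL.c (I.mix (nat_lit 41527258) (nat_lit 41530880)) (xR T5.l6 T5.l2)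
  (TrL.c (I.mix (nat_lit 41527258) (nat_lit 4274)) T0.l5
  TrL.n)))) (by decide +kernel)
theorem sv2 : StarV sI cl6 cl4 cl7 t0 t5 t2 :=
  (bt_n (bt_n (bt_b bx2_0) (bt_n (bt_b bx2_1) (bt_b bx2_2))) (bt_n (bt_b bx2_3) (bt_n (bt_b bx2_4) (bt_b bx2_5))))
def S2 : StarD := StarD.mk cl6 cl4 cl7 0 5 t2
theorem bx3_0 : BoxOK sI cl6 cl7 cl4 t5 t0 b3_0 :=
  box_mk (TrL.c (I.pos (nat_lit 0) (nat_lit 0)) (xa (xa (xb T5.l0 T5.l0) (xb T5.l0 T5.l0)) (xa (xb (xs T5.l0 T5.l0) (xs T5.l0 T5.l0)) (xb (xs T5.l3 T5.l3) (xs T5.l0 T5.l0))))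
  (TrL.c (I.pos (nat_lit 0) (nat_lit 0)) T0.l6
  (TrL.c (I.pos (nat_lit 0) (nat_lit 89480386)) (xR T5.l7 T5.l7)
  (TrL.c (I.pos (nat_lit 0) (nat_lit 41530880)) T0.l7
  (TrL.c (I.pos (nat_lit 0) (nat_lit 0)) (xa T0.l9 (xb (xa T0.l9 T0.l9) (xa T0.l9 T0.l9)))
  (TrL.c (I.pos (nat_lit 0) (nat_lit 0)) T5.l8
  (TrL.c (I.mix (nat_lit 41527258) (nat_lit 41530880)) (xR T0.l8 T0.l8)
  (TrL.c (I.mix (nat_lit 41527258) (nat_lit 4274)) T5.l9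
  TrL.n)))))))) (by decide +kernel)
theorem bx3_1 : BoxOK sI cl6 cl7 cl4 t5 t0 b3_1 :=
  box_mk (TrL.c (I.pos (nat_lit 0) (nat_lit 0)) T5.l0
  (TrL.c (I.pos (nat_lit 0) (nat_lit 0)) T0.l6
  (TrL.c (I.pos (nat_lit 0) (nat_lit 89480386)) (xR T5.l7 T5.l7)
  (TrL.c (I.pos (nat_lit 0) (nat_lit 41530880)) T0.l7
  (TrL.c (I.pos (nat_lit 0) (nat_lit 0)) T0.l9
  (TrL.c (I.pos (nat_lit 0) (nat_lit 0)) T5.l8
  (TrL.c (I.mix (nat_lit 41527258) (nat_lit 41530880)) T0.l8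
  (TrL.c (I.mix (nat_lit 41527258) (nat_lit 4274)) T5.l9
  TrL.n)))))))) (by decide +kernel)
theorem bx3_2 : BoxOK sI cl6 cl7 cl4 t5 t0 b3_2 :=
  box_mk (TrL.c (I.pos (nat_lit 0) (nat_lit 0)) T5.l0
  (TrL.c (I.pos (nat_lit 0) (nat_lit 0)) T0.l6
  (TrL.c (I.pos (nat_lit 0) (nat_lit 89480386)) T5.l7
  (TrL.c (I.pos (nat_lit 0) (nat_lit 41530880)) T0.l7
  (TrL.c (I.pos (nat_lit 0) (nat_lit 0)) T0.l9
  (TrL.c (I.pos (nat_lit 0) (nat_lit 0)) T5.l8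
  (TrL.c (I.mix (nat_lit 41527258) (nat_lit 41530880)) (xR T0.l8 T0.l1)
  (TrL.c (I.mix (nat_lit 41527258) (nat_lit 4274)) T5.l9
  TrL.n)))))))) (by decide +kernel)
theorem bx3_3 : BoxOK sI cl6 cl7 cl4 t5 t0 b3_3 :=
  box_mk (TrL.c (I.pos (nat_lit 0) (nat_lit 0)) (xb (xa (xb (xs T5.l0 T5.l0) T5.l0) (xs T5.l0 (xb T5.l0 T5.l0))) (xa (xs T5.l0 (xb T5.l0 T5.l0)) (xs T5.l0 (xb T5.l0 T5.l0))))
  (TrL.c (I.pos (nat_lit 0) (nat_lit 0)) T0.l6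
  (TrL.c (I.pos (nat_lit 0) (nat_lit 89480386)) (xR T5.l7 T5.l7)
  (TrL.c (I.pos (nat_lit 0) (nat_lit 41530880)) T0.l7
  (TrL.c (I.pos (nat_lit 0) (nat_lit 0)) (xb T0.l9 T0.l9)
  (TrL.c (I.pos (nat_lit 0) (nat_lit 0)) T5.l8
  (TrL.c (I.mix (nat_lit 41527258) (nat_lit 41530880)) (xR T0.l8 T0.l8)
  (TrL.c (I.mix (nat_lit 41527258) (nat_lit 4274)) T5.l9
  TrL.n)))))))) (by decide +kernel)
theorem bx3_4 : BoxOK sI cl6 cl7 cl4 t5 t0 b3_4 :=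
  box_mk (TrL.c (I.pos (nat_lit 0) (nat_lit 0)) (xa T5.l0 T5.l0)
  (TrL.c (I.pos (nat_lit 0) (nat_lit 0)) T0.l6
  (TrL.c (I.pos (nat_lit 0) (nat_lit 89480386)) T5.l7
  (TrL.c (I.pos (nat_lit 0) (nat_lit 41530880)) T0.l7
  (TrL.c (I.pos (nat_lit 0) (nat_lit 0)) (xa T0.l9 T0.l9)
  (TrL.c (I.pos (nat_lit 0) (nat_lit 0)) T5.l8
  (TrL.c (I.mix (nat_lit 41527258) (nat_lit 41530880)) (xR T0.l8 T0.l1)
  (TrL.c (I.mix (nat_lit 41527258) (nat_lit 4274)) T5.l9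
  TrL.n)))))))) (by decide +kernel)
theorem bx3_5 : BoxOK sI cl6 cl7 cl4 t5 t0 b3_5 :=
  box_mk (TrL.c (I.pos (nat_lit 0) (nat_lit 0)) (xa T5.l0 T5.l0)
  (TrL.c (I.pos (nat_lit 0) (nat_lit 0)) T0.l6
  (TrL.c (I.pos (nat_lit 0) (nat_lit 89480386)) T5.l7
  (TrL.c (I.pos (nat_lit 0) (nat_lit 41530880)) T0.l7
  (TrL.c (I.pos (nat_lit 0) (nat_lit 0)) (xa T0.l9 T0.l9)
  (TrL.c (I.pos (nat_lit 0) (nat_lit 0)) T5.l8
  (TrL.c (I.mix (nat_lit 41527258) (nat_lit 41530880)) (xR T0.l8 T0.l1)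
  (TrL.c (I.mix (nat_lit 41527258) (nat_lit 4274)) T5.l9
  TrL.n)))))))) (by decide +kernel)
theorem bx3_6 : BoxOK sI cl6 cl7 cl4 t5 t0 b3_6 :=
  box_mk (TrL.c (I.pos (nat_lit 0) (nat_lit 0)) (xa T5.l0 T5.l0)
  (TrL.c (I.pos (nat_lit 0) (nat_lit 0)) T0.l6
  (TrL.c (I.pos (nat_lit 0) (nat_lit 89480386)) T5.l7
  (TrL.c (I.pos (nat_lit 0) (nat_lit 41530880)) T0.l7
  (TrL.c (I.pos (nat_lit 0) (nat_lit 0)) (xa T0.l9 T0.l9)
  (TrL.c (I.pos (nat_lit 0) (nat_lit 0)) T5.l8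
  (TrL.c (I.mix (nat_lit 41527258) (nat_lit 41530880)) (xR T0.l8 T0.l8)
  (TrL.c (I.mix (nat_lit 41527258) (nat_lit 4274)) T5.l9
  TrL.n)))))))) (by decide +kernel)
theorem bx3_7 : BoxOK sI cl6 cl7 cl4 t5 t0 b3_7 :=
  box_mk (TrL.c (I.pos (nat_lit 0) (nat_lit 0)) T5.l0
  (TrL.c (I.pos (nat_lit 0) (nat_lit 0)) T0.l6
  (TrL.c (I.pos (nat_lit 0) (nat_lit 89480386)) T5.l7
  (TrL.c (I.pos (nat_lit 0) (nat_lit 41530880)) T0.l7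
  (TrL.c (I.pos (nat_lit 0) (nat_lit 0)) T0.l9
  (TrL.c (I.pos (nat_lit 0) (nat_lit 0)) T5.l8
  (TrL.c (I.mix (nat_lit 41527258) (nat_lit 41530880)) T0.l8
  (TrL.c (I.mix (nat_lit 41527258) (nat_lit 4274)) T5.l9
  TrL.n)))))))) (by decide +kernel)
theorem bx3_8 : BoxOK sI cl6 cl7 cl4 t5 t0 b3_8 :=
  box_mk (TrL.c (I.pos (nat_lit 0) (nat_lit 0)) (xa (xa T5.l0 T5.l0) T5.l0)
  (TrL.c (I.pos (nat_lit 0) (nat_lit 0)) T0.l6
  (TrL.c (I.pos (nat_lit 0) (nat_lit 89480386)) T5.l7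
  (TrL.c (I.pos (nat_lit 0) (nat_lit 41530880)) T0.l7
  (TrL.c (I.pos (nat_lit 0) (nat_lit 0)) T0.l9
  (TrL.c (I.pos (nat_lit 0) (nat_lit 0)) T5.l8
  (TrL.c (I.mix (nat_lit 41527258) (nat_lit 41530880)) (xR T0.l8 T0.l1)
  (TrL.c (I.mix (nat_lit 41527258) (nat_lit 4274)) T5.l9
  TrL.n)))))))) (by decide +kernel)
theorem bx3_9 : BoxOK sI cl6 cl7 cl4 t5 t0 b3_9 :=
  box_mk (TrL.c (I.pos (nat_lit 0) (nat_lit 0)) T5.l0
  (TrL.c (I.pos (nat_lit 0) (nat_lit 0)) T0.l6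
  (TrL.c (I.pos (nat_lit 0) (nat_lit 89480386)) T5.l7
  (TrL.c (I.pos (nat_lit 0) (nat_lit 41530880)) T0.l7
  (TrL.c (I.pos (nat_lit 0) (nat_lit 0)) T0.l9
  (TrL.c (I.pos (nat_lit 0) (nat_lit 0)) T5.l8
  (TrL.c (I.mix (nat_lit 41527258) (nat_lit 41530880)) T0.l8
  (TrL.c (I.mix (nat_lit 41527258) (nat_lit 4274)) T5.l9
  TrL.n)))))))) (by decide +kernel)
theorem sv3 : StarV sI cl6 cl7 cl4 t5 t0 t3 :=
  (bt_n (bt_n (bt_n (bt_b bx3_0) (bt_b bx3_1)) (bt_n (bt_b bx3_2) (bt_n (bt_b bx3_3) (bt_b bx3_4)))) (bt_n (bt_n (bt_b bx3_5) (bt_b bx3_6)) (bt_n (bt_b bx3_7) (bt_n (bt_b bx3_8) (bt_b bx3_9)))))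
def S3 : StarD := StarD.mk cl6 cl7 cl4 5 0 t3
theorem bx4_0 : BoxOK sI cl7 cl4 cl6 t1 t3 b4_0 :=
  box_mk (TrL.c (I.pos (nat_lit 0) (nat_lit 0)) (xa (xb (xa T1.l0 T1.l0) (xa (xs T1.l0 T1.l0) (xs T1.l0 T1.l0))) (xb (xa T1.l0 T1.l0) (xa (xs T1.l0 T1.l0) T1.l8)))
  (TrL.c (I.pos (nat_lit 0) (nat_lit 0)) T3.l1
  (TrL.c (I.pos (nat_lit 0) (nat_lit 111196574)) (xR T1.l1 T1.l9)
  (TrL.c (I.pos (nat_lit 0) (nat_lit 77433728)) (xR T3.l2 T3.l2)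
  (TrL.c (I.pos (nat_lit 0) (nat_lit 0)) (xa (xb (xa T3.l3 T3.l3) T3.l3) (xb (xa (xk T3.l3 T3.l3) (xk T3.l3 T3.l3)) (xa (xk T3.l3 T3.l3) (xs (xk T3.l3 T3.l3) (xk (xb T3.l3 (xs T3.l3 (xb T3.l3 T3.l3))) (xb T3.l3 (xs T3.l3 (xa T3.l3 (xk T3.l3 T3.l3)))))))))
  (TrL.c (I.pos (nat_lit 0) (nat_lit 0)) (xa T1.l2 T1.l2)
  (TrL.c (I.mix (nat_lit 29511666) (nat_lit 77433728)) (xR T3.l4 T3.l4)
  (TrL.c (I.mix (nat_lit 29511666) (nat_lit 46070178)) (xR T1.l3 T1.l7)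
  TrL.n)))))))) (by decide +kernel)
theorem bx4_1 : BoxOK sI cl7 cl4 cl6 t1 t3 b4_1 :=
  box_mk (TrL.c (I.pos (nat_lit 0) (nat_lit 0)) T1.l0
  (TrL.c (I.pos (nat_lit 0) (nat_lit 0)) T3.l1
  (TrL.c (I.pos (nat_lit 0) (nat_lit 111196574)) T1.l1
  (TrL.c (I.pos (nat_lit 0) (nat_lit 77433728)) T3.l4
  (TrL.c (I.pos (nat_lit 0) (nat_lit 0)) T3.l3
  (TrL.c (I.pos (nat_lit 0) (nat_lit 0)) T1.l2
  (TrL.c (I.mix (nat_lit 29511666) (nat_lit 77433728)) T3.l4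
  (TrL.c (I.mix (nat_lit 29511666) (nat_lit 46070178)) T1.l3
  TrL.n)))))))) (by decide +kernel)
theorem bx4_2 : BoxOK sI cl7 cl4 cl6 t1 t3 b4_2 :=
  box_mk (TrL.c (I.pos (nat_lit 0) (nat_lit 0)) (xb (xa (xb T1.l0 T1.l0) T1.l0) (xa (xa (xb T1.l0 T1.l0) T1.l0) (xa T1.l0 T1.l0)))
  (TrL.c (I.pos (nat_lit 0) (nat_lit 0)) T3.l1
  (TrL.c (I.pos (nat_lit 0) (nat_lit 111196574)) (xR T1.l1 T1.l9)
  (TrL.c (I.pos (nat_lit 0) (nat_lit 77433728)) (xR T3.l2 T3.l2)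
  (TrL.c (I.pos (nat_lit 0) (nat_lit 0)) (xb T3.l3 T3.l3)
  (TrL.c (I.pos (nat_lit 0) (nat_lit 0)) T1.l2
  (TrL.c (I.mix (nat_lit 29511666) (nat_lit 77433728)) T3.l4
  (TrL.c (I.mix (nat_lit 29511666) (nat_lit 46070178)) T1.l3
  TrL.n)))))))) (by decide +kernel)
theorem bx4_3 : BoxOK sI cl7 cl4 cl6 t1 t3 b4_3 :=
  box_mk (TrL.c (I.pos (nat_lit 0) (nat_lit 0)) T3.l1
  (TrL.c (I.pos (nat_lit 0) (nat_lit 0)) T1.l1
  (TrL.c (I.mix (nat_lit 29511666) (nat_lit 77433728)) (xR T3.l4 T3.l4)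
  (TrL.c (I.mix (nat_lit 29511666) (nat_lit 46070178)) T1.l9
  TrL.n)))) (by decide +kernel)
theorem bx4_4 : BoxOK sI cl7 cl4 cl6 t1 t3 b4_4 :=
  box_mk (TrL.c (I.pos (nat_lit 0) (nat_lit 0)) T3.l9
  (TrL.c (I.pos (nat_lit 0) (nat_lit 0)) T1.l1
  (TrL.c (I.mix (nat_lit 29511666) (nat_lit 77433728)) T3.l4
  (TrL.c (I.mix (nat_lit 29511666) (nat_lit 46070178)) T1.l3
  TrL.n)))) (by decide +kernel)
theorem bx4_5 : BoxOK sI cl7 cl4 cl6 t1 t3 b4_5 :=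
  box_mk (TrL.c (I.pos (nat_lit 0) (nat_lit 0)) (xb (xa (xa (xb T1.l0 T1.l0) T1.l0) T1.l0) T1.l0)
  (TrL.c (I.pos (nat_lit 0) (nat_lit 0)) T3.l9
  (TrL.c (I.pos (nat_lit 0) (nat_lit 111196574)) T1.l1
  (TrL.c (I.pos (nat_lit 0) (nat_lit 77433728)) T3.l4
  (TrL.c (I.pos (nat_lit 0) (nat_lit 0)) T3.l3
  (TrL.c (I.pos (nat_lit 0) (nat_lit 0)) T1.l2
  (TrL.c (I.mix (nat_lit 29511666) (nat_lit 77433728)) T3.l4
  (TrL.c (I.mix (nat_lit 29511666) (nat_lit 46070178)) T1.l3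
  TrL.n)))))))) (by decide +kernel)
theorem sv4 : StarV sI cl7 cl4 cl6 t1 t3 t4 :=
  (bt_n (bt_n (bt_b bx4_0) (bt_n (bt_b bx4_1) (bt_b bx4_2))) (bt_n (bt_b bx4_3) (bt_n (bt_b bx4_4) (bt_b bx4_5))))
def S4 : StarD := StarD.mk cl7 cl4 cl6 1 3 t4
theorem bx5_0 : BoxOK sI cl7 cl6 cl4 t3 t1 b5_0 :=
  box_mk (TrL.c (I.pos (nat_lit 0) (nat_lit 0)) (xa (xa (xb T3.l0 (xs T3.l0 T3.l0)) (xb T3.l0 (xs T3.l0 T3.l0))) (xa (xb (xs T3.l0 T3.l0) (xs T3.l0 T3.l0)) (xb (xs T3.l0 (xb T3.l0 T3.l0)) (xs T3.l0 (xb T3.l0 T3.l0)))))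
  (TrL.c (I.pos (nat_lit 0) (nat_lit 0)) (xa T1.l6 T1.l6)
  (TrL.c (I.pos (nat_lit 0) (nat_lit 111196574)) (xR T3.l6 T3.l6)
  (TrL.c (I.pos (nat_lit 0) (nat_lit 77433728)) (xR T1.l7 T1.l7)
  (TrL.c (I.pos (nat_lit 0) (nat_lit 0)) (xa (xb (xa T1.l8 T1.l8) T1.l8) (xb (xa T1.l8 (xk T1.l8 T1.l8)) (xk (xa T1.l8 T1.l8) (xa T1.l8 (xs T1.l8 T1.l8)))))
  (TrL.c (I.pos (nat_lit 0) (nat_lit 0)) T3.l7
  (TrL.c (I.mix (nat_lit 29511666) (nat_lit 77433728)) (xR T1.l9 T1.l9)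
  (TrL.c (I.mix (nat_lit 29511666) (nat_lit 46070178)) (xR T3.l8 T3.l8)
  TrL.n)))))))) (by decide +kernel)
theorem bx5_1 : BoxOK sI cl7 cl6 cl4 t3 t1 b5_1 :=
  box_mk (TrL.c (I.pos (nat_lit 0) (nat_lit 0)) T3.l0
  (TrL.c (I.pos (nat_lit 0) (nat_lit 0)) T1.l6
  (TrL.c (I.pos (nat_lit 0) (nat_lit 111196574)) (xR T3.l6 T3.l6)
  (TrL.c (I.pos (nat_lit 0) (nat_lit 77433728)) T1.l7
  (TrL.c (I.pos (nat_lit 0) (nat_lit 0)) T1.l8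
  (TrL.c (I.pos (nat_lit 0) (nat_lit 0)) T3.l7
  (TrL.c (I.mix (nat_lit 29511666) (nat_lit 77433728)) (xR T1.l9 T1.l9)
  (TrL.c (I.mix (nat_lit 29511666) (nat_lit 46070178)) T3.l8
  TrL.n)))))))) (by decide +kernel)
theorem bx5_2 : BoxOK sI cl7 cl6 cl4 t3 t1 b5_2 :=
  box_mk (TrL.c (I.pos (nat_lit 0) (nat_lit 0)) T3.l0
  (TrL.c (I.pos (nat_lit 0) (nat_lit 0)) T1.l6
  (TrL.c (I.pos (nat_lit 0) (nat_lit 111196574)) T3.l6
  (TrL.c (I.pos (nat_lit 0) (nat_lit 77433728)) T1.l7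
  (TrL.c (I.pos (nat_lit 0) (nat_lit 0)) T1.l6
  (TrL.c (I.pos (nat_lit 0) (nat_lit 0)) T3.l7
  (TrL.c (I.mix (nat_lit 29511666) (nat_lit 77433728)) T1.l9
  (TrL.c (I.mix (nat_lit 29511666) (nat_lit 46070178)) T3.l8
  TrL.n)))))))) (by decide +kernel)
theorem bx5_3 : BoxOK sI cl7 cl6 cl4 t3 t1 b5_3 :=
  box_mk (TrL.c (I.pos (nat_lit 0) (nat_lit 0)) (xb (xa (xb T3.l0 T3.l0) (xs T3.l0 T3.l0)) (xa (xs T3.l0 (xb T3.l0 T3.l0)) (xs T3.l0 T3.l0)))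
  (TrL.c (I.pos (nat_lit 0) (nat_lit 0)) T1.l6
  (TrL.c (I.pos (nat_lit 0) (nat_lit 111196574)) (xR T3.l6 T3.l6)
  (TrL.c (I.pos (nat_lit 0) (nat_lit 77433728)) (xR T1.l7 T1.l7)
  (TrL.c (I.pos (nat_lit 0) (nat_lit 0)) (xb T1.l8 T1.l8)
  (TrL.c (I.pos (nat_lit 0) (nat_lit 0)) T3.l7
  (TrL.c (I.mix (nat_lit 29511666) (nat_lit 77433728)) (xR T1.l9 T1.l9)
  (TrL.c (I.mix (nat_lit 29511666) (nat_lit 46070178)) T3.l8
  TrL.n)))))))) (by decide +kernel)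
theorem bx5_4 : BoxOK sI cl7 cl6 cl4 t3 t1 b5_4 :=
  box_mk (TrL.c (I.pos (nat_lit 0) (nat_lit 0)) (xa T3.l0 T3.l0)
  (TrL.c (I.pos (nat_lit 0) (nat_lit 0)) (xa T1.l6 T1.l6)
  (TrL.c (I.pos (nat_lit 0) (nat_lit 111196574)) T3.l6
  (TrL.c (I.pos (nat_lit 0) (nat_lit 77433728)) T1.l7
  (TrL.c (I.pos (nat_lit 0) (nat_lit 0)) (xa T1.l8 T1.l8)
  (TrL.c (I.pos (nat_lit 0) (nat_lit 0)) T3.l7
  (TrL.c (I.mix (nat_lit 29511666) (nat_lit 77433728)) T1.l9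
  (TrL.c (I.mix (nat_lit 29511666) (nat_lit 46070178)) T3.l8
  TrL.n)))))))) (by decide +kernel)
theorem bx5_5 : BoxOK sI cl7 cl6 cl4 t3 t1 b5_5 :=
  box_mk (TrL.c (I.pos (nat_lit 0) (nat_lit 0)) T3.l0
  (TrL.c (I.pos (nat_lit 0) (nat_lit 0)) T1.l6
  (TrL.c (I.pos (nat_lit 0) (nat_lit 111196574)) T3.l6
  (TrL.c (I.pos (nat_lit 0) (nat_lit 77433728)) T1.l7
  (TrL.c (I.pos (nat_lit 0) (nat_lit 0)) T1.l8
  (TrL.c (I.pos (nat_lit 0) (nat_lit 0)) T3.l7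
  (TrL.c (I.mix (nat_lit 29511666) (nat_lit 77433728)) T1.l1
  (TrL.c (I.mix (nat_lit 29511666) (nat_lit 46070178)) T3.l8
  TrL.n)))))))) (by decide +kernel)
theorem bx5_6 : BoxOK sI cl7 cl6 cl4 t3 t1 b5_6 :=
  box_mk (TrL.c (I.pos (nat_lit 0) (nat_lit 0)) T3.l0
  (TrL.c (I.pos (nat_lit 0) (nat_lit 0)) T1.l6
  (TrL.c (I.pos (nat_lit 0) (nat_lit 111196574)) T3.l6
  (TrL.c (I.pos (nat_lit 0) (nat_lit 77433728)) T1.l7
  (TrL.c (I.pos (nat_lit 0) (nat_lit 0)) T1.l6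
  (TrL.c (I.pos (nat_lit 0) (nat_lit 0)) T3.l7
  (TrL.c (I.mix (nat_lit 29511666) (nat_lit 77433728)) T1.l9
  (TrL.c (I.mix (nat_lit 29511666) (nat_lit 46070178)) T3.l8
  TrL.n)))))))) (by decide +kernel)
theorem bx5_7 : BoxOK sI cl7 cl6 cl4 t3 t1 b5_7 :=
  box_mk (TrL.c (I.pos (nat_lit 0) (nat_lit 0)) (xa T3.l0 T3.l0)
  (TrL.c (I.pos (nat_lit 0) (nat_lit 0)) (xa T1.l6 T1.l6)
  (TrL.c (I.pos (nat_lit 0) (nat_lit 111196574)) T3.l6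
  (TrL.c (I.pos (nat_lit 0) (nat_lit 77433728)) T1.l7
  (TrL.c (I.pos (nat_lit 0) (nat_lit 0)) (xa T1.l8 T1.l8)
  (TrL.c (I.pos (nat_lit 0) (nat_lit 0)) T3.l7
  (TrL.c (I.mix (nat_lit 29511666) (nat_lit 77433728)) T1.l9
  (TrL.c (I.mix (nat_lit 29511666) (nat_lit 46070178)) T3.l8
  TrL.n)))))))) (by decide +kernel)
theorem bx5_8 : BoxOK sI cl7 cl6 cl4 t3 t1 b5_8 :=
  box_mk (TrL.c (I.pos (nat_lit 0) (nat_lit 0)) T3.l0
  (TrL.c (I.pos (nat_lit 0) (nat_lit 0)) T1.l6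
  (TrL.c (I.pos (nat_lit 0) (nat_lit 111196574)) T3.l6
  (TrL.c (I.pos (nat_lit 0) (nat_lit 77433728)) T1.l7
  (TrL.c (I.pos (nat_lit 0) (nat_lit 0)) T1.l8
  (TrL.c (I.pos (nat_lit 0) (nat_lit 0)) T3.l7
  (TrL.c (I.mix (nat_lit 29511666) (nat_lit 77433728)) (xR T1.l9 T1.l9)
  (TrL.c (I.mix (nat_lit 29511666) (nat_lit 46070178)) T3.l8
  TrL.n)))))))) (by decide +kernel)
theorem bx5_9 : BoxOK sI cl7 cl6 cl4 t3 t1 b5_9 :=
  box_mk (TrL.c (I.pos (nat_lit 0) (nat_lit 0)) (xa T3.l0 T3.l0)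
  (TrL.c (I.pos (nat_lit 0) (nat_lit 0)) T1.l8
  (TrL.c (I.pos (nat_lit 0) (nat_lit 111196574)) T3.l6
  (TrL.c (I.pos (nat_lit 0) (nat_lit 77433728)) T1.l1
  (TrL.c (I.pos (nat_lit 0) (nat_lit 0)) T1.l6
  (TrL.c (I.pos (nat_lit 0) (nat_lit 0)) T3.l7
  (TrL.c (I.mix (nat_lit 29511666) (nat_lit 77433728)) T1.l9
  (TrL.c (I.mix (nat_lit 29511666) (nat_lit 46070178)) T3.l4
  TrL.n)))))))) (by decide +kernel)
theorem sv5 : StarV sI cl7 cl6 cl4 t3 t1 t5 :=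
  (bt_n (bt_n (bt_n (bt_b bx5_0) (bt_b bx5_1)) (bt_n (bt_b bx5_2) (bt_n (bt_b bx5_3) (bt_b bx5_4)))) (bt_n (bt_n (bt_b bx5_5) (bt_b bx5_6)) (bt_n (bt_b bx5_7) (bt_n (bt_b bx5_8) (bt_b bx5_9)))))
def S5 : StarD := StarD.mk cl7 cl6 cl4 3 1 t5
def G : List StarD := [S0, S1, S2, S3, S4, S5]
theorem so0 : StarOK sI G S0 :=
  star_mk (by decide) (by decide) rfl rfl rfl rfl rfl rfl (rfl : _ = t2) (rfl : _ = t4)
  (st_mk (Pth.l (Pth.l (Pth.l Pth.z))) (nat_lit 191537680) (nat_lit 193793105) (by decide +kernel))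
  (st_mk (Pth.l (Pth.l (Pth.l Pth.z))) (nat_lit 228748552) (nat_lit 232015815) (by decide +kernel))
  (st_mk (Pth.l (Pth.l (Pth.l Pth.z))) (nat_lit 272237954) (nat_lit 276955507) (by decide +kernel)) sv0
theorem so1 : StarOK sI G S1 :=
  star_mk (by decide) (by decide) rfl rfl rfl rfl rfl rfl (rfl : _ = t4) (rfl : _ = t2)
  (st_mk (Pth.l (Pth.l (Pth.l Pth.z))) (nat_lit 143683689) (nat_lit 167693469) (by decide +kernel))
  (st_mk (Pth.l (Pth.l (Pth.l Pth.z))) (nat_lit 180680903) (nat_lit 205728655) (by decide +kernel))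
  (st_mk (Pth.l (Pth.l (Pth.l Pth.z))) (nat_lit 224005273) (nat_lit 250522043) (by decide +kernel)) sv1
theorem so2 : StarOK sI G S2 :=
  star_mk (by decide) (by decide) rfl rfl rfl rfl rfl rfl (rfl : _ = t0) (rfl : _ = t5)
  (st_mk (Pth.l (Pth.l Pth.z)) (nat_lit 371886261) (nat_lit 374638519) (by decide +kernel))
  (st_mk (Pth.l (Pth.l Pth.z)) (nat_lit 408179295) (nat_lit 411509681) (by decide +kernel))
  (st_mk (Pth.l (Pth.l Pth.z)) (nat_lit 450224839) (nat_lit 454298664) (by decide +kernel)) sv2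
theorem so3 : StarOK sI G S3 :=
  star_mk (by decide) (by decide) rfl rfl rfl rfl rfl rfl (rfl : _ = t5) (rfl : _ = t0)
  (st_mk (Pth.l (Pth.l (Pth.l Pth.z))) (nat_lit 141821495) (nat_lit 164589992) (by decide +kernel))
  (st_mk (Pth.l (Pth.l (Pth.l Pth.z))) (nat_lit 177739067) (nat_lit 200987587) (by decide +kernel))
  (st_mk (Pth.l (Pth.l (Pth.l Pth.z))) (nat_lit 219474228) (nat_lit 243383706) (by decide +kernel)) sv3
theorem so4 : StarOK sI G S4 :=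
  star_mk (by decide) (by decide) rfl rfl rfl rfl rfl rfl (rfl : _ = t1) (rfl : _ = t3)
  (st_mk (Pth.l (Pth.l Pth.z)) (nat_lit 368285530) (nat_lit 373088010) (by decide +kernel))
  (st_mk (Pth.l (Pth.l Pth.z)) (nat_lit 403998429) (nat_lit 409461899) (by decide +kernel))
  (st_mk (Pth.l (Pth.l Pth.z)) (nat_lit 445301770) (nat_lit 451611182) (by decide +kernel)) sv4
theorem so5 : StarOK sI G S5 :=
  star_mk (by decide) (by decide) rfl rfl rfl rfl rfl rfl (rfl : _ = t3) (rfl : _ = t1)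
  (st_mk (Pth.l (Pth.l (Pth.l Pth.z))) (nat_lit 187428960) (nat_lit 189228703) (by decide +kernel))
  (st_mk (Pth.l (Pth.l (Pth.l Pth.z))) (nat_lit 222983306) (nat_lit 225315596) (by decide +kernel))
  (st_mk (Pth.l (Pth.l (Pth.l Pth.z))) (nat_lit 264152422) (nat_lit 267223610) (by decide +kernel)) sv5
theorem ok : GroupOK (nat_lit 0) (nat_lit 91291648) G := grp_mk (allS_c so0 (allS_c so1 (allS_c so2 (allS_c so3 (allS_c so4 (allS_c so5 allS_n))))))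
theorem cov : GCov G cl4 cl6 cl7 := cov_mk
  ⟨0, by decide, rfl, rfl, rfl⟩ ⟨1, by decide, rfl, rfl, rfl⟩ ⟨2, by decide, rfl, rfl, rfl⟩ ⟨3, by decide, rfl, rfl, rfl⟩ ⟨4, by decide, rfl, rfl, rfl⟩ ⟨5, by decide, rfl, rfl, rfl⟩
end Q134_0

namespace Q134_1
def sI : I := I.pos (nat_lit 91226112) (nat_lit 150339584)
def b0_0 : Bx := Bx.mk (St.mk (I.pos (nat_lit 156237824) (nat_lit 236748800)) (I.mix (nat_lit 4505600) (nat_lit 74924032)) (I.mix (nat_lit 9650176) (nat_lit 74858496)) (I.pos (nat_lit 185991168) (nat_lit 311918592)) (I.mix (nat_lit 115261440) (nat_lit 80035840)) (I.mix (nat_lit 78725120) (nat_lit 73662464)) (I.mix (nat_lit 121569280) (nat_lit 113770496)))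
  false (nat_lit 26735403)
def b0_1 : Bx := Bx.mk (St.mk (I.mix (nat_lit 43778048) (nat_lit 100909056)) (I.mix (nat_lit 11681792) (nat_lit 45760512)) (I.mix (nat_lit 32440320) (nat_lit 2179072)) (I.pos (nat_lit 73564160) (nat_lit 128794624)) (I.mix (nat_lit 45957120) (nat_lit 62521344)) (I.mix (nat_lit 57737216) (nat_lit 40419328)) (I.mix (nat_lit 37519360) (nat_lit 26705920)))
  false (nat_lit 0)
def b0_2 : Bx := Bx.mk (St.mk (I.pos (nat_lit 79495168) (nat_lit 120832000)) (I.mix (nat_lit 60522496) (nat_lit 13959168)) (I.neg (nat_lit 14303232) (nat_lit 70369280)) (I.pos (nat_lit 111902720) (nat_lit 145162240)) (I.mix (nat_lit 99336192) (nat_lit 45498368)) (I.mix (nat_lit 48742400) (nat_lit 91275264)) (I.mix (nat_lit 33488896) (nat_lit 65028096)))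
  false (nat_lit 0)
def b0_3 : Bx := Bx.mk (St.mk (I.mix (nat_lit 48250880) (nat_lit 30146560)) (I.mix (nat_lit 36012032) (nat_lit 8896512)) (I.neg (nat_lit 6275072) (nat_lit 23412736)) (I.pos (nat_lit 81903616) (nat_lit 101974016)) (I.mix (nat_lit 46186496) (nat_lit 32260096)) (I.mix (nat_lit 25706496) (nat_lit 41140224)) (I.mix (nat_lit 15892480) (nat_lit 11173888)))
  false (nat_lit 0)
def b0_4 : Bx := Bx.mk (St.mk (I.pos (nat_lit 74072064) (nat_lit 92094464)) (I.mix (nat_lit 12845056) (nat_lit 11091968)) (I.neg (nat_lit 14663680) (nat_lit 33341440)) (I.pos (nat_lit 109641728) (nat_lit 123092992)) (I.mix (nat_lit 36175872) (nat_lit 25903104)) (I.mix (nat_lit 27181056) (nat_lit 25460736)) (I.mix (nat_lit 17645568) (nat_lit 19857408)))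
  false (nat_lit 0)
def b0_5 : Bx := Bx.mk (St.mk (I.mix (nat_lit 60522496) (nat_lit 7847936)) (I.mix (nat_lit 11026432) (nat_lit 16039936)) (I.neg (nat_lit 13221888) (nat_lit 26673152)) (I.pos (nat_lit 86704128) (nat_lit 103448576)) (I.mix (nat_lit 31866880) (nat_lit 28557312)) (I.mix (nat_lit 28000256) (nat_lit 27934720)) (I.mix (nat_lit 11599872) (nat_lit 12615680)))
  false (nat_lit 0)
def b0_6 : Bx := Bx.mk (St.mk (I.pos (nat_lit 212877312) (nat_lit 261832704)) (I.mix (nat_lit 21069824) (nat_lit 21348352)) (I.neg (nat_lit 24887296) (nat_lit 110477312)) (I.pos (nat_lit 279543808) (nat_lit 362840064)) (I.mix (nat_lit 96157696) (nat_lit 26968064)) (I.mix (nat_lit 60162048) (nat_lit 62963712)) (I.mix (nat_lit 93945856) (nat_lit 125992960)))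
  false (nat_lit 0)
def b0_7 : Bx := Bx.mk (St.mk (I.pos (nat_lit 184451072) (nat_lit 254181376)) (I.mix (nat_lit 24870912) (nat_lit 75612160)) (I.mix (nat_lit 109051904) (nat_lit 73400320)) (I.pos (nat_lit 250478592) (nat_lit 340623360)) (I.mix (nat_lit 127188992) (nat_lit 99500032)) (I.mix (nat_lit 111656960) (nat_lit 100368384)) (I.mix (nat_lit 193019904) (nat_lit 189906944)))
  false (nat_lit 35767826)
def b0_8 : Bx := Bx.mk (St.mk (I.pos (nat_lit 72810496) (nat_lit 169656320)) (I.mix (nat_lit 63913984) (nat_lit 3080192)) (I.neg (nat_lit 11943936) (nat_lit 74563584)) (I.pos (nat_lit 115081216) (nat_lit 199573504)) (I.mix (nat_lit 105103360) (nat_lit 71122944)) (I.mix (nat_lit 65339392) (nat_lit 94437376)) (I.mix (nat_lit 47513600) (nat_lit 84836352)))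
  false (nat_lit 0)
def b0_9 : Bx := Bx.mk (St.mk (I.mix (nat_lit 43630592) (nat_lit 54951936)) (I.mix (nat_lit 37470208) (nat_lit 11616256)) (I.neg (nat_lit 6504448) (nat_lit 27508736)) (I.pos (nat_lit 79872000) (nat_lit 103481344)) (I.mix (nat_lit 45023232) (nat_lit 45039616)) (I.mix (nat_lit 32604160) (nat_lit 51462144)) (I.mix (nat_lit 14811136) (nat_lit 21282816)))
  false (nat_lit 0)
def b0_10 : Bx := Bx.mk (St.mk (I.pos (nat_lit 155713536) (nat_lit 220348416)) (I.mix (nat_lit 7716864) (nat_lit 71237632)) (I.mix (nat_lit 16498688) (nat_lit 72237056)) (I.pos (nat_lit 199704576) (nat_lit 275890176)) (I.mix (nat_lit 137674752) (nat_lit 60555264)) (I.mix (nat_lit 136544256) (nat_lit 99581952)) (I.mix (nat_lit 124960768) (nat_lit 95993856)))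
  false (nat_lit 30410517)
def b0_11 : Bx := Bx.mk (St.mk (I.mix (nat_lit 59654144) (nat_lit 92930048)) (I.mix (nat_lit 16007168) (nat_lit 43286528)) (I.mix (nat_lit 34357248) (nat_lit 1409024)) (I.pos (nat_lit 78888960) (nat_lit 115605504)) (I.mix (nat_lit 57344000) (nat_lit 58556416)) (I.mix (nat_lit 66191360) (nat_lit 41418752)) (I.mix (nat_lit 26755072) (nat_lit 30867456)))
  false (nat_lit 0)
def b0_12 : Bx := Bx.mk (St.mk (I.pos (nat_lit 125173760) (nat_lit 198377472)) (I.mix (nat_lit 46694400) (nat_lit 14221312)) (I.mix (nat_lit 67141632) (nat_lit 4456448)) (I.pos (nat_lit 153927680) (nat_lit 236093440)) (I.mix (nat_lit 80838656) (nat_lit 68714496)) (I.mix (nat_lit 77234176) (nat_lit 71073792)) (I.mix (nat_lit 74678272) (nat_lit 62816256)))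
  false (nat_lit 0)
def b0_13 : Bx := Bx.mk (St.mk (I.pos (nat_lit 159580160) (nat_lit 200491008)) (I.mix (nat_lit 14696448) (nat_lit 41484288)) (I.mix (nat_lit 28606464) (nat_lit 39321600)) (I.pos (nat_lit 202473472) (nat_lit 241319936)) (I.mix (nat_lit 136921088) (nat_lit 77021184)) (I.mix (nat_lit 163053568) (nat_lit 90079232)) (I.mix (nat_lit 161316864) (nat_lit 84361216)))
  false (nat_lit 0)
def t0 : BTr := (BTr.n (BTr.n (BTr.n (BTr.b b0_0) (BTr.n (BTr.b b0_1) (BTr.b b0_2))) (BTr.n (BTr.n (BTr.b b0_3) (BTr.b b0_4)) (BTr.n (BTr.b b0_5) (BTr.b b0_6)))) (BTr.n (BTr.n (BTr.b b0_7) (BTr.n (BTr.b b0_8) (BTr.b b0_9))) (BTr.n (BTr.n (BTr.b b0_10) (BTr.b b0_11)) (BTr.n (BTr.b b0_12) (BTr.b b0_13)))))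
namespace T0
def l0 : Tr := Tr.L (Pth.l (Pth.l (Pth.l Pth.z)))
def l1 : Tr := Tr.L (Pth.l (Pth.l (Pth.r (Pth.l Pth.z))))
def l2 : Tr := Tr.L (Pth.l (Pth.l (Pth.r (Pth.r Pth.z))))
def l3 : Tr := Tr.L (Pth.l (Pth.r (Pth.l (Pth.l Pth.z))))
def l4 : Tr := Tr.L (Pth.l (Pth.r (Pth.l (Pth.r Pth.z))))
def l5 : Tr := Tr.L (Pth.l (Pth.r (Pth.r (Pth.l Pth.z))))
def l6 : Tr := Tr.L (Pth.l (Pth.r (Pth.r (Pth.r Pth.z))))
def l7 : Tr := Tr.L (Pth.r (Pth.l (Pth.l Pth.z)))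
def l8 : Tr := Tr.L (Pth.r (Pth.l (Pth.r (Pth.l Pth.z))))
def l9 : Tr := Tr.L (Pth.r (Pth.l (Pth.r (Pth.r Pth.z))))
def l10 : Tr := Tr.L (Pth.r (Pth.r (Pth.l (Pth.l Pth.z))))
def l11 : Tr := Tr.L (Pth.r (Pth.r (Pth.l (Pth.r Pth.z))))
def l12 : Tr := Tr.L (Pth.r (Pth.r (Pth.r (Pth.l Pth.z))))
def l13 : Tr := Tr.L (Pth.r (Pth.r (Pth.r (Pth.r Pth.z))))
end T0
def b1_0 : Bx := Bx.mk (St.mk (I.pos (nat_lit 155975680) (nat_lit 241156096)) (I.mix (nat_lit 4177920) (nat_lit 69304320)) (I.mix (nat_lit 5095424) (nat_lit 85409792)) (I.pos (nat_lit 138936320) (nat_lit 287752192)) (I.mix (nat_lit 122830848) (nat_lit 86671360)) (I.mix (nat_lit 89047040) (nat_lit 79560704)) (I.mix (nat_lit 136347648) (nat_lit 120225792)))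
  false (nat_lit 7332390)
def b1_1 : Bx := Bx.mk (St.mk (I.mix (nat_lit 48529408) (nat_lit 123994112)) (I.mix (nat_lit 10862592) (nat_lit 43925504)) (I.mix (nat_lit 25608192) (nat_lit 15466496)) (I.pos (nat_lit 32194560) (nat_lit 118489088)) (I.mix (nat_lit 56279040) (nat_lit 57950208)) (I.mix (nat_lit 54575104) (nat_lit 46546944)) (I.mix (nat_lit 40550400) (nat_lit 28622848)))
  false (nat_lit 19940075)
def b1_2 : Bx := Bx.mk (St.mk (I.pos (nat_lit 91193344) (nat_lit 144146432)) (I.mix (nat_lit 64897024) (nat_lit 13959168)) (I.neg (nat_lit 3473408) (nat_lit 74055680)) (I.pos (nat_lit 77021184) (nat_lit 141574144)) (I.mix (nat_lit 117129216) (nat_lit 46579712)) (I.mix (nat_lit 65847296) (nat_lit 105660416)) (I.mix (nat_lit 46268416) (nat_lit 81313792)))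
  false (nat_lit 28188724)
def b1_3 : Bx := Bx.mk (St.mk (I.mix (nat_lit 37683200) (nat_lit 74350592)) (I.mix (nat_lit 33669120) (nat_lit 4096000)) (I.neg (nat_lit 1064960) (nat_lit 25296896)) (I.pos (nat_lit 39190528) (nat_lit 83804160)) (I.mix (nat_lit 45236224) (nat_lit 24739840)) (I.mix (nat_lit 25870336) (nat_lit 42582016)) (I.mix (nat_lit 12828672) (nat_lit 17596416)))
  false (nat_lit 5680707)
def b1_4 : Bx := Bx.mk (St.mk (I.pos (nat_lit 184680448) (nat_lit 253820928)) (I.mix (nat_lit 21970944) (nat_lit 68337664)) (I.mix (nat_lit 83279872) (nat_lit 79446016)) (I.pos (nat_lit 210206720) (nat_lit 309624832)) (I.mix (nat_lit 116801536) (nat_lit 99024896)) (I.mix (nat_lit 111673344) (nat_lit 89341952)) (I.mix (nat_lit 186531840) (nat_lit 157138944)))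
  false (nat_lit 29747101)
def b1_5 : Bx := Bx.mk (St.mk (I.mix (nat_lit 47874048) (nat_lit 51773440)) (I.mix (nat_lit 6078464) (nat_lit 11665408)) (I.neg (nat_lit 3227648) (nat_lit 14843904)) (I.pos (nat_lit 40665088) (nat_lit 77037568)) (I.mix (nat_lit 25329664) (nat_lit 19365888)) (I.mix (nat_lit 20529152) (nat_lit 19546112)) (I.mix (nat_lit 8716288) (nat_lit 8503296)))
  false (nat_lit 0)
def b1_6 : Bx := Bx.mk (St.mk (I.pos (nat_lit 86327296) (nat_lit 113770496)) (I.mix (nat_lit 12550144) (nat_lit 10911744)) (I.neg (nat_lit 4718592) (nat_lit 27262976)) (I.pos (nat_lit 74809344) (nat_lit 114212864)) (I.mix (nat_lit 37634048) (nat_lit 26394624)) (I.mix (nat_lit 27525120) (nat_lit 27721728)) (I.mix (nat_lit 20840448) (nat_lit 23052288)))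
  false (nat_lit 0)
def b1_7 : Bx := Bx.mk (St.mk (I.pos (nat_lit 212058112) (nat_lit 261685248)) (I.mix (nat_lit 21413888) (nat_lit 22511616)) (I.neg (nat_lit 4243456) (nat_lit 89833472)) (I.pos (nat_lit 239042560) (nat_lit 336084992)) (I.mix (nat_lit 101302272) (nat_lit 29900800)) (I.mix (nat_lit 61702144) (nat_lit 67010560)) (I.mix (nat_lit 102055936) (nat_lit 130301952)))
  false (nat_lit 0)
def b1_8 : Bx := Bx.mk (St.mk (I.pos (nat_lit 78970880) (nat_lit 180174848)) (I.mix (nat_lit 67338240) (nat_lit 9748480)) (I.neg (nat_lit 7143424) (nat_lit 74153984)) (I.pos (nat_lit 83460096) (nat_lit 187809792)) (I.mix (nat_lit 112525312) (nat_lit 56180736)) (I.mix (nat_lit 56950784) (nat_lit 86867968)) (I.mix (nat_lit 45793280) (nat_lit 74055680)))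
  false (nat_lit 38408848)
def b1_9 : Bx := Bx.mk (St.mk (I.mix (nat_lit 47071232) (nat_lit 92651520)) (I.mix (nat_lit 39174144) (nat_lit 11141120)) (I.mix (nat_lit 33062912) (nat_lit 229376)) (I.pos (nat_lit 33292288) (nat_lit 94683136)) (I.mix (nat_lit 57835520) (nat_lit 37208064)) (I.mix (nat_lit 36732928) (nat_lit 44482560)) (I.mix (nat_lit 21299200) (nat_lit 24739840)))
  false (nat_lit 35277763)
def b1_10 : Bx := Bx.mk (St.mk (I.pos (nat_lit 160808960) (nat_lit 221609984)) (I.mix (nat_lit 18120704) (nat_lit 73170944)) (I.mix (nat_lit 19726336) (nat_lit 89554944)) (I.pos (nat_lit 151650304) (nat_lit 256229376)) (I.mix (nat_lit 161284096) (nat_lit 70909952)) (I.mix (nat_lit 164233216) (nat_lit 119078912)) (I.mix (nat_lit 170999808) (nat_lit 125763584)))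
  false (nat_lit 0)
def b1_11 : Bx := Bx.mk (St.mk (I.mix (nat_lit 49659904) (nat_lit 128925696)) (I.mix (nat_lit 18251776) (nat_lit 48496640)) (I.mix (nat_lit 33079296) (nat_lit 19152896)) (I.pos (nat_lit 37158912) (nat_lit 114311168)) (I.mix (nat_lit 62930944) (nat_lit 65863680)) (I.mix (nat_lit 57475072) (nat_lit 53952512)) (I.mix (nat_lit 30998528) (nat_lit 28737536)))
  false (nat_lit 42527407)
def b1_12 : Bx := Bx.mk (St.mk (I.pos (nat_lit 131022848) (nat_lit 203571200)) (I.mix (nat_lit 44892160) (nat_lit 14483456)) (I.mix (nat_lit 61259776) (nat_lit 10944512)) (I.pos (nat_lit 117932032) (nat_lit 221855744)) (I.mix (nat_lit 64126976) (nat_lit 58359808)) (I.mix (nat_lit 65060864) (nat_lit 63619072)) (I.mix (nat_lit 68337664) (nat_lit 64012288)))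
  false (nat_lit 12753456)
def b1_13 : Bx := Bx.mk (St.mk (I.pos (nat_lit 162250752) (nat_lit 203866112)) (I.mix (nat_lit 20742144) (nat_lit 37060608)) (I.mix (nat_lit 25739264) (nat_lit 44154880)) (I.pos (nat_lit 158138368) (nat_lit 220135424)) (I.mix (nat_lit 113016832) (nat_lit 72384512)) (I.mix (nat_lit 123846656) (nat_lit 77463552)) (I.mix (nat_lit 131399680) (nat_lit 78266368)))
  false (nat_lit 0)
def t1 : BTr := (BTr.n (BTr.n (BTr.n (BTr.b b1_0) (BTr.n (BTr.b b1_1) (BTr.b b1_2))) (BTr.n (BTr.n (BTr.b b1_3) (BTr.b b1_4)) (BTr.n (BTr.b b1_5) (BTr.b b1_6)))) (BTr.n (BTr.n (BTr.b b1_7) (BTr.n (BTr.b b1_8) (BTr.b b1_9))) (BTr.n (BTr.n (BTr.b b1_10) (BTr.b b1_11)) (BTr.n (BTr.b b1_12) (BTr.b b1_13)))))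
namespace T1
def l0 : Tr := Tr.L (Pth.l (Pth.l (Pth.l Pth.z)))
def l1 : Tr := Tr.L (Pth.l (Pth.l (Pth.r (Pth.l Pth.z))))
def l2 : Tr := Tr.L (Pth.l (Pth.l (Pth.r (Pth.r Pth.z))))
def l3 : Tr := Tr.L (Pth.l (Pth.r (Pth.l (Pth.l Pth.z))))
def l4 : Tr := Tr.L (Pth.l (Pth.r (Pth.l (Pth.r Pth.z))))
def l5 : Tr := Tr.L (Pth.l (Pth.r (Pth.r (Pth.l Pth.z))))
def l6 : Tr := Tr.L (Pth.l (Pth.r (Pth.r (Pth.r Pth.z))))
def l7 : Tr := Tr.L (Pth.r (Pth.l (Pth.l Pth.z)))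
def l8 : Tr := Tr.L (Pth.r (Pth.l (Pth.r (Pth.l Pth.z))))
def l9 : Tr := Tr.L (Pth.r (Pth.l (Pth.r (Pth.r Pth.z))))
def l10 : Tr := Tr.L (Pth.r (Pth.r (Pth.l (Pth.l Pth.z))))
def l11 : Tr := Tr.L (Pth.r (Pth.r (Pth.l (Pth.r Pth.z))))
def l12 : Tr := Tr.L (Pth.r (Pth.r (Pth.r (Pth.l Pth.z))))
def l13 : Tr := Tr.L (Pth.r (Pth.r (Pth.r (Pth.r Pth.z))))
end T1
def b2_0 : Bx := Bx.mk (St.mk (I.pos (nat_lit 135495680) (nat_lit 219791360)) (I.mix (nat_lit 6242304) (nat_lit 105791488)) (I.mix (nat_lit 6111232) (nat_lit 103235584)) (I.pos (nat_lit 368492544) (nat_lit 462618624)) (I.mix (nat_lit 166182912) (nat_lit 105185280)) (I.mix (nat_lit 117964800) (nat_lit 105971712)) (I.mix (nat_lit 136069120) (nat_lit 136478720)))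
  false (nat_lit 73025525)
def b2_1 : Bx := Bx.mk (St.mk (I.mix (nat_lit 59981824) (nat_lit 22872064)) (I.mix (nat_lit 24379392) (nat_lit 95715328)) (I.neg (nat_lit 45891584) (nat_lit 71335936)) (I.pos (nat_lit 264536064) (nat_lit 293289984)) (I.mix (nat_lit 54558720) (nat_lit 112459776)) (I.mix (nat_lit 90161152) (nat_lit 72859648)) (I.mix (nat_lit 43941888) (nat_lit 35438592)))
  true (nat_lit 0)
def b2_2 : Bx := Bx.mk (St.mk (I.pos (nat_lit 13041664) (nat_lit 57950208)) (I.neg (nat_lit 29687808) (nat_lit 92651520)) (I.neg (nat_lit 45989888) (nat_lit 71335936)) (I.pos (nat_lit 269254656) (nat_lit 293027840)) (I.mix (nat_lit 112459776) (nat_lit 54444032)) (I.mix (nat_lit 72712192) (nat_lit 87605248)) (I.mix (nat_lit 43941888) (nat_lit 35438592)))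
  false (nat_lit 29707850)
def b2_3 : Bx := Bx.mk (St.mk (I.pos (nat_lit 13402112) (nat_lit 132136960)) (I.mix (nat_lit 102072320) (nat_lit 8601600)) (I.mix (nat_lit 91488256) (nat_lit 6045696)) (I.pos (nat_lit 261357568) (nat_lit 341983232)) (I.mix (nat_lit 141066240) (nat_lit 96780288)) (I.mix (nat_lit 91602944) (nat_lit 108298240)) (I.mix (nat_lit 91979776) (nat_lit 92209152)))
  false (nat_lit 79168826)
def b2_4 : Bx := Bx.mk (St.mk (I.pos (nat_lit 81723392) (nat_lit 193314816)) (I.mix (nat_lit 57851904) (nat_lit 100270080)) (I.mix (nat_lit 54493184) (nat_lit 101728256)) (I.pos (nat_lit 294748160) (nat_lit 426229760)) (I.mix (nat_lit 172605440) (nat_lit 87015424)) (I.mix (nat_lit 181731328) (nat_lit 123371520)) (I.mix (nat_lit 175357952) (nat_lit 147161088)))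
  false (nat_lit 34426664)
def b2_5 : Bx := Bx.mk (St.mk (I.neg (nat_lit 13320192) (nat_lit 133398528)) (I.mix (nat_lit 8601600) (nat_lit 102072320)) (I.mix (nat_lit 91488256) (nat_lit 6045696)) (I.pos (nat_lit 261406720) (nat_lit 341999616)) (I.mix (nat_lit 96780288) (nat_lit 141082624)) (I.mix (nat_lit 108298240) (nat_lit 91602944)) (I.mix (nat_lit 91979776) (nat_lit 92209152)))
  true (nat_lit 0)
def b2_6 : Bx := Bx.mk (St.mk (I.pos (nat_lit 171999232) (nat_lit 297713664)) (I.mix (nat_lit 46530560) (nat_lit 65060864)) (I.mix (nat_lit 206684160) (nat_lit 34537472)) (I.pos (nat_lit 400261120) (nat_lit 607076352)) (I.mix (nat_lit 112361472) (nat_lit 75497472)) (I.mix (nat_lit 106676224) (nat_lit 93421568)) (I.mix (nat_lit 194084864) (nat_lit 184516608)))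
  false (nat_lit 44924829)
def b2_7 : Bx := Bx.mk (St.mk (I.mix (nat_lit 22036480) (nat_lit 45334528)) (I.mix (nat_lit 49086464) (nat_lit 22528000)) (I.neg (nat_lit 46546944) (nat_lit 59654144)) (I.pos (nat_lit 265469952) (nat_lit 280395776)) (I.mix (nat_lit 56721408) (nat_lit 52920320)) (I.mix (nat_lit 52625408) (nat_lit 50642944)) (I.mix (nat_lit 14843904) (nat_lit 16400384)))
  false (nat_lit 0)
def b2_8 : Bx := Bx.mk (St.mk (I.pos (nat_lit 154222592) (nat_lit 222314496)) (I.pos (nat_lit 13336576) (nat_lit 99647488)) (I.mix (nat_lit 36601856) (nat_lit 91652096)) (I.pos (nat_lit 395706368) (nat_lit 457539584)) (I.mix (nat_lit 120487936) (nat_lit 99713024)) (I.mix (nat_lit 109658112) (nat_lit 86196224)) (I.mix (nat_lit 174489600) (nat_lit 119554048)))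
  false (nat_lit 43422272)
def b2_9 : Bx := Bx.mk (St.mk (I.pos (nat_lit 14286848) (nat_lit 47398912)) (I.neg (nat_lit 15630336) (nat_lit 81084416)) (I.neg (nat_lit 47349760) (nat_lit 69320704)) (I.pos (nat_lit 268468224) (nat_lit 287080448)) (I.mix (nat_lit 103743488) (nat_lit 48726016)) (I.mix (nat_lit 50855936) (nat_lit 88899584)) (I.mix (nat_lit 27901952) (nat_lit 22511616)))
  false (nat_lit 0)
def t2 : BTr := (BTr.n (BTr.n (BTr.n (BTr.b b2_0) (BTr.b b2_1)) (BTr.n (BTr.b b2_2) (BTr.n (BTr.b b2_3) (BTr.b b2_4)))) (BTr.n (BTr.n (BTr.b b2_5) (BTr.b b2_6)) (BTr.n (BTr.b b2_7) (BTr.n (BTr.b b2_8) (BTr.b b2_9)))))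
namespace T2
def l0 : Tr := Tr.L (Pth.l (Pth.l (Pth.l Pth.z)))
def l1 : Tr := Tr.L (Pth.l (Pth.l (Pth.r Pth.z)))
def l2 : Tr := Tr.L (Pth.l (Pth.r (Pth.l Pth.z)))
def l3 : Tr := Tr.L (Pth.l (Pth.r (Pth.r (Pth.l Pth.z))))
def l4 : Tr := Tr.L (Pth.l (Pth.r (Pth.r (Pth.r Pth.z))))
def l5 : Tr := Tr.L (Pth.r (Pth.l (Pth.l Pth.z)))
def l6 : Tr := Tr.L (Pth.r (Pth.l (Pth.r Pth.z)))
def l7 : Tr := Tr.L (Pth.r (Pth.r (Pth.l Pth.z)))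
def l8 : Tr := Tr.L (Pth.r (Pth.r (Pth.r (Pth.l Pth.z))))
def l9 : Tr := Tr.L (Pth.r (Pth.r (Pth.r (Pth.r Pth.z))))
end T2
def b3_0 : Bx := Bx.mk (St.mk (I.pos (nat_lit 143687680) (nat_lit 235700224)) (I.mix (nat_lit 3457024) (nat_lit 56410112)) (I.mix (nat_lit 6995968) (nat_lit 119046144)) (I.pos (nat_lit 137674752) (nat_lit 262307840)) (I.mix (nat_lit 123699200) (nat_lit 69894144)) (I.mix (nat_lit 101203968) (nat_lit 83361792)) (I.mix (nat_lit 134938624) (nat_lit 106414080)))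
  false (nat_lit 15022334)
def b3_1 : Bx := Bx.mk (St.mk (I.pos (nat_lit 93896704) (nat_lit 168525824)) (I.mix (nat_lit 69238784) (nat_lit 2048000)) (I.mix (nat_lit 52576256) (nat_lit 21757952)) (I.pos (nat_lit 96567296) (nat_lit 166166528)) (I.mix (nat_lit 96206848) (nat_lit 69943296)) (I.mix (nat_lit 63832064) (nat_lit 83607552)) (I.mix (nat_lit 54394880) (nat_lit 78430208)))
  false (nat_lit 27832404)
def b3_2 : Bx := Bx.mk (St.mk (I.mix (nat_lit 36126720) (nat_lit 85508096)) (I.mix (nat_lit 38633472) (nat_lit 8011776)) (I.mix (nat_lit 12271616) (nat_lit 15106048)) (I.pos (nat_lit 36012032) (nat_lit 92323840)) (I.mix (nat_lit 40648704) (nat_lit 43761664)) (I.mix (nat_lit 33193984) (nat_lit 40239104)) (I.mix (nat_lit 16351232) (nat_lit 22052864)))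
  false (nat_lit 0)
def b3_3 : Bx := Bx.mk (St.mk (I.pos (nat_lit 154845184) (nat_lit 213106688)) (I.mix (nat_lit 18792448) (nat_lit 67633152)) (I.pos (nat_lit 12386304) (nat_lit 123994112)) (I.pos (nat_lit 136085504) (nat_lit 232767488)) (I.mix (nat_lit 186580992) (nat_lit 73449472)) (I.mix (nat_lit 186761216) (nat_lit 126173184)) (I.mix (nat_lit 205881344) (nat_lit 119750656)))
  false (nat_lit 33783470)
def b3_4 : Bx := Bx.mk (St.mk (I.mix (nat_lit 43368448) (nat_lit 116359168)) (I.mix (nat_lit 16138240) (nat_lit 49070080)) (I.mix (nat_lit 3817472) (nat_lit 40009728)) (I.pos (nat_lit 36585472) (nat_lit 109461504)) (I.mix (nat_lit 79675392) (nat_lit 46252032)) (I.mix (nat_lit 67633152) (nat_lit 56098816)) (I.mix (nat_lit 39010304) (nat_lit 32178176)))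
  false (nat_lit 0)
def b3_5 : Bx := Bx.mk (St.mk (I.pos (nat_lit 152403968) (nat_lit 202407936)) (I.mix (nat_lit 45236224) (nat_lit 25624576)) (I.mix (nat_lit 22413312) (nat_lit 71073792)) (I.pos (nat_lit 134201344) (nat_lit 214548480)) (I.mix (nat_lit 113688576) (nat_lit 78888960)) (I.mix (nat_lit 134496256) (nat_lit 84033536)) (I.mix (nat_lit 144408576) (nat_lit 81592320)))
  false (nat_lit 55840449)
def b3_6 : Bx := Bx.mk (St.mk (I.mix (nat_lit 54509568) (nat_lit 90144768)) (I.mix (nat_lit 20430848) (nat_lit 13221888)) (I.mix (nat_lit 1212416) (nat_lit 16596992)) (I.pos (nat_lit 38010880) (nat_lit 93765632)) (I.mix (nat_lit 33882112) (nat_lit 26066944)) (I.mix (nat_lit 25903104) (nat_lit 27934720)) (I.mix (nat_lit 14123008) (nat_lit 14925824)))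
  false (nat_lit 0)
def b3_7 : Bx := Bx.mk (St.mk (I.pos (nat_lit 135905280) (nat_lit 172556288)) (I.mix (nat_lit 41418752) (nat_lit 2080768)) (I.mix (nat_lit 17694720) (nat_lit 29048832)) (I.pos (nat_lit 122388480) (nat_lit 174686208)) (I.mix (nat_lit 63193088) (nat_lit 47071232)) (I.mix (nat_lit 41697280) (nat_lit 52805632)) (I.mix (nat_lit 46759936) (nat_lit 50102272)))
  false (nat_lit 0)
def b3_8 : Bx := Bx.mk (St.mk (I.pos (nat_lit 147587072) (nat_lit 177913856)) (I.neg (nat_lit 5373952) (nat_lit 39026688)) (I.mix (nat_lit 16826368) (nat_lit 23085056)) (I.pos (nat_lit 132874240) (nat_lit 184451072)) (I.mix (nat_lit 40845312) (nat_lit 33980416)) (I.mix (nat_lit 30490624) (nat_lit 29687808)) (I.mix (nat_lit 30130176) (nat_lit 30818304)))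
  false (nat_lit 0)
def b3_9 : Bx := Bx.mk (St.mk (I.mix (nat_lit 61521920) (nat_lit 131416064)) (I.mix (nat_lit 14073856) (nat_lit 43941888)) (I.mix (nat_lit 5423104) (nat_lit 43302912)) (I.pos (nat_lit 29130752) (nat_lit 123224064)) (I.mix (nat_lit 77856768) (nat_lit 48218112)) (I.mix (nat_lit 61046784) (nat_lit 48250880)) (I.mix (nat_lit 41140224) (nat_lit 36470784)))
  false (nat_lit 0)
def b3_10 : Bx := Bx.mk (St.mk (I.pos (nat_lit 86704128) (nat_lit 155893760)) (I.mix (nat_lit 72974336) (nat_lit 15122432)) (I.mix (nat_lit 50675712) (nat_lit 18825216)) (I.pos (nat_lit 75038720) (nat_lit 153337856)) (I.mix (nat_lit 103514112) (nat_lit 45072384)) (I.mix (nat_lit 68190208) (nat_lit 94519296)) (I.mix (nat_lit 50642944) (nat_lit 63356928)))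
  false (nat_lit 7555743)
def b3_11 : Bx := Bx.mk (St.mk (I.mix (nat_lit 43122688) (nat_lit 83525632)) (I.mix (nat_lit 35504128) (nat_lit 8339456)) (I.mix (nat_lit 9076736) (nat_lit 15302656)) (I.pos (nat_lit 39698432) (nat_lit 86228992)) (I.mix (nat_lit 34504704) (nat_lit 36814848)) (I.mix (nat_lit 27295744) (nat_lit 28999680)) (I.mix (nat_lit 11190272) (nat_lit 12042240)))
  false (nat_lit 0)
def b3_12 : Bx := Bx.mk (St.mk (I.pos (nat_lit 186302464) (nat_lit 291225600)) (I.mix (nat_lit 35897344) (nat_lit 41943040)) (I.mix (nat_lit 51806208) (nat_lit 98025472)) (I.pos (nat_lit 197001216) (nat_lit 389480448)) (I.mix (nat_lit 95584256) (nat_lit 71516160)) (I.mix (nat_lit 90554368) (nat_lit 79446016)) (I.mix (nat_lit 157696000) (nat_lit 135938048)))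
  false (nat_lit 17429152)
def b3_13 : Bx := Bx.mk (St.mk (I.pos (nat_lit 174473216) (nat_lit 231899136)) (I.pos (nat_lit 4816896) (nat_lit 55312384)) (I.pos (nat_lit 28131328) (nat_lit 116916224)) (I.pos (nat_lit 188203008) (nat_lit 255819776)) (I.mix (nat_lit 112148480) (nat_lit 77021184)) (I.mix (nat_lit 101384192) (nat_lit 76873728)) (I.mix (nat_lit 158302208) (nat_lit 98484224)))
  false (nat_lit 0)
def t3 : BTr := (BTr.n (BTr.n (BTr.n (BTr.b b3_0) (BTr.n (BTr.b b3_1) (BTr.b b3_2))) (BTr.n (BTr.n (BTr.b b3_3) (BTr.b b3_4)) (BTr.n (BTr.b b3_5) (BTr.b b3_6)))) (BTr.n (BTr.n (BTr.b b3_7) (BTr.n (BTr.b b3_8) (BTr.b b3_9))) (BTr.n (BTr.n (BTr.b b3_10) (BTr.b b3_11)) (BTr.n (BTr.b b3_12) (BTr.b b3_13)))))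
namespace T3
def l0 : Tr := Tr.L (Pth.l (Pth.l (Pth.l Pth.z)))
def l1 : Tr := Tr.L (Pth.l (Pth.l (Pth.r (Pth.l Pth.z))))
def l2 : Tr := Tr.L (Pth.l (Pth.l (Pth.r (Pth.r Pth.z))))
def l3 : Tr := Tr.L (Pth.l (Pth.r (Pth.l (Pth.l Pth.z))))
def l4 : Tr := Tr.L (Pth.l (Pth.r (Pth.l (Pth.r Pth.z))))
def l5 : Tr := Tr.L (Pth.l (Pth.r (Pth.r (Pth.l Pth.z))))
def l6 : Tr := Tr.L (Pth.l (Pth.r (Pth.r (Pth.r Pth.z))))
def l7 : Tr := Tr.L (Pth.r (Pth.l (Pth.l Pth.z)))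
def l8 : Tr := Tr.L (Pth.r (Pth.l (Pth.r (Pth.l Pth.z))))
def l9 : Tr := Tr.L (Pth.r (Pth.l (Pth.r (Pth.r Pth.z))))
def l10 : Tr := Tr.L (Pth.r (Pth.r (Pth.l (Pth.l Pth.z))))
def l11 : Tr := Tr.L (Pth.r (Pth.r (Pth.l (Pth.r Pth.z))))
def l12 : Tr := Tr.L (Pth.r (Pth.r (Pth.r (Pth.l Pth.z))))
def l13 : Tr := Tr.L (Pth.r (Pth.r (Pth.r (Pth.r Pth.z))))
end T3
def b4_0 : Bx := Bx.mk (St.mk (I.pos (nat_lit 126763008) (nat_lit 220282880)) (I.mix (nat_lit 6062080) (nat_lit 102400000)) (I.mix (nat_lit 7208960) (nat_lit 122617856)) (I.pos (nat_lit 359301120) (nat_lit 458752000)) (I.mix (nat_lit 170983424) (nat_lit 98222080)) (I.mix (nat_lit 115326976) (nat_lit 95862784)) (I.mix (nat_lit 135168000) (nat_lit 128057344)))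
  false (nat_lit 152419019)
def b4_1 : Bx := Bx.mk (St.mk (I.pos (nat_lit 20070400) (nat_lit 136380416)) (I.mix (nat_lit 102072320) (nat_lit 2932736)) (I.mix (nat_lit 75612160) (nat_lit 22298624)) (I.pos (nat_lit 265568256) (nat_lit 342720512)) (I.mix (nat_lit 128368640) (nat_lit 87146496)) (I.mix (nat_lit 92225536) (nat_lit 97599488)) (I.mix (nat_lit 87113728) (nat_lit 77299712)))
  false (nat_lit 77129413)
def b4_2 : Bx := Bx.mk (St.mk (I.pos (nat_lit 80674816) (nat_lit 192331776)) (I.mix (nat_lit 51429376) (nat_lit 98189312)) (I.mix (nat_lit 30228480) (nat_lit 119947264)) (I.pos (nat_lit 294420480) (nat_lit 420446208)) (I.mix (nat_lit 185122816) (nat_lit 82083840)) (I.mix (nat_lit 168083456) (nat_lit 122650624)) (I.mix (nat_lit 175063040) (nat_lit 151601152)))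
  false (nat_lit 123127787)
def b4_3 : Bx := Bx.mk (St.mk (I.neg (nat_lit 20119552) (nat_lit 136396800)) (I.mix (nat_lit 3391488) (nat_lit 102105088)) (I.mix (nat_lit 75677696) (nat_lit 23429120)) (I.pos (nat_lit 265551872) (nat_lit 342720512)) (I.mix (nat_lit 87162880) (nat_lit 128385024)) (I.mix (nat_lit 97599488) (nat_lit 92241920)) (I.mix (nat_lit 87113728) (nat_lit 77299712)))
  true (nat_lit 0)
def b4_4 : Bx := Bx.mk (St.mk (I.mix (nat_lit 64405504) (nat_lit 22609920)) (I.mix (nat_lit 26181632) (nat_lit 97763328)) (I.neg (nat_lit 31391744) (nat_lit 57032704)) (I.pos (nat_lit 264962048) (nat_lit 295829504)) (I.mix (nat_lit 65552384) (nat_lit 121110528)) (I.mix (nat_lit 115113984) (nat_lit 81969152)) (I.mix (nat_lit 43892736) (nat_lit 34897920)))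
  true (nat_lit 0)
def b4_5 : Bx := Bx.mk (St.mk (I.pos (nat_lit 16547840) (nat_lit 62177280)) (I.neg (nat_lit 30244864) (nat_lit 94568448)) (I.neg (nat_lit 32718848) (nat_lit 56950784)) (I.pos (nat_lit 270745600) (nat_lit 295501824)) (I.mix (nat_lit 109101056) (nat_lit 65372160)) (I.mix (nat_lit 81248256) (nat_lit 91209728)) (I.mix (nat_lit 43892736) (nat_lit 34897920)))
  false (nat_lit 51233830)
def b4_6 : Bx := Bx.mk (St.mk (I.pos (nat_lit 161366016) (nat_lit 302596096)) (I.mix (nat_lit 49315840) (nat_lit 72744960)) (I.mix (nat_lit 177045504) (nat_lit 68485120)) (I.pos (nat_lit 388448256) (nat_lit 609517568)) (I.mix (nat_lit 111345664) (nat_lit 103989248)) (I.mix (nat_lit 113164288) (nat_lit 107823104)) (I.mix (nat_lit 202211328) (nat_lit 196067328)))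
  false (nat_lit 152113836)
def b4_7 : Bx := Bx.mk (St.mk (I.mix (nat_lit 21872640) (nat_lit 51429376)) (I.mix (nat_lit 54853632) (nat_lit 23756800)) (I.neg (nat_lit 32030720) (nat_lit 45809664)) (I.pos (nat_lit 265977856) (nat_lit 283000832)) (I.mix (nat_lit 61374464) (nat_lit 53559296)) (I.mix (nat_lit 48840704) (nat_lit 53805056)) (I.mix (nat_lit 14041088) (nat_lit 15908864)))
  false (nat_lit 0)
def b4_8 : Bx := Bx.mk (St.mk (I.pos (nat_lit 145178624) (nat_lit 215089152)) (I.pos (nat_lit 28426240) (nat_lit 100925440)) (I.pos (nat_lit 18087936) (nat_lit 115113984)) (I.pos (nat_lit 382156800) (nat_lit 448184320)) (I.mix (nat_lit 143015936) (nat_lit 119963648)) (I.mix (nat_lit 126681088) (nat_lit 104349696)) (I.mix (nat_lit 190889984) (nat_lit 147685376)))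
  false (nat_lit 123708806)
def b4_9 : Bx := Bx.mk (St.mk (I.pos (nat_lit 18219008) (nat_lit 52527104)) (I.neg (nat_lit 17039360) (nat_lit 84017152)) (I.neg (nat_lit 33161216) (nat_lit 55885824)) (I.pos (nat_lit 270008320) (nat_lit 289554432)) (I.mix (nat_lit 121110528) (nat_lit 58228736)) (I.mix (nat_lit 70352896) (nat_lit 115097600)) (I.mix (nat_lit 35553280) (nat_lit 29278208)))
  false (nat_lit 19296071)
def t4 : BTr := (BTr.n (BTr.n (BTr.n (BTr.b b4_0) (BTr.b b4_1)) (BTr.n (BTr.b b4_2) (BTr.n (BTr.b b4_3) (BTr.b b4_4)))) (BTr.n (BTr.n (BTr.b b4_5) (BTr.b b4_6)) (BTr.n (BTr.b b4_7) (BTr.n (BTr.b b4_8) (BTr.b b4_9)))))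
namespace T4
def l0 : Tr := Tr.L (Pth.l (Pth.l (Pth.l Pth.z)))
def l1 : Tr := Tr.L (Pth.l (Pth.l (Pth.r Pth.z)))
def l2 : Tr := Tr.L (Pth.l (Pth.r (Pth.l Pth.z)))
def l3 : Tr := Tr.L (Pth.l (Pth.r (Pth.r (Pth.l Pth.z))))
def l4 : Tr := Tr.L (Pth.l (Pth.r (Pth.r (Pth.r Pth.z))))
def l5 : Tr := Tr.L (Pth.r (Pth.l (Pth.l Pth.z)))
def l6 : Tr := Tr.L (Pth.r (Pth.l (Pth.r Pth.z)))
def l7 : Tr := Tr.L (Pth.r (Pth.r (Pth.l Pth.z)))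
def l8 : Tr := Tr.L (Pth.r (Pth.r (Pth.r (Pth.l Pth.z))))
def l9 : Tr := Tr.L (Pth.r (Pth.r (Pth.r (Pth.r Pth.z))))
end T4
def b5_0 : Bx := Bx.mk (St.mk (I.pos (nat_lit 138608640) (nat_lit 231325696)) (I.mix (nat_lit 3653632) (nat_lit 60063744)) (I.mix (nat_lit 7389184) (nat_lit 126009344)) (I.pos (nat_lit 182173696) (nat_lit 280920064)) (I.mix (nat_lit 124354560) (nat_lit 74956800)) (I.mix (nat_lit 98926592) (nat_lit 82231296)) (I.mix (nat_lit 132038656) (nat_lit 100466688)))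
  false (nat_lit 28801738)
def b5_1 : Bx := Bx.mk (St.mk (I.pos (nat_lit 93257728) (nat_lit 162889728)) (I.neg (nat_lit 2686976) (nat_lit 66584576)) (I.mix (nat_lit 40812544) (nat_lit 26411008)) (I.pos (nat_lit 133152768) (nat_lit 187924480)) (I.mix (nat_lit 81870848) (nat_lit 68796416)) (I.mix (nat_lit 56868864) (nat_lit 75792384)) (I.mix (nat_lit 45842432) (nat_lit 65519616)))
  false (nat_lit 9710421)
def b5_2 : Bx := Bx.mk (St.mk (I.mix (nat_lit 30638080) (nat_lit 46235648)) (I.mix (nat_lit 36880384) (nat_lit 9404416)) (I.pos (nat_lit 262144) (nat_lit 16384000)) (I.pos (nat_lit 82116608) (nat_lit 101580800)) (I.mix (nat_lit 28835840) (nat_lit 43040768)) (I.mix (nat_lit 25919488) (nat_lit 38404096)) (I.mix (nat_lit 8716288) (nat_lit 14434304)))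
  false (nat_lit 0)
def b5_3 : Bx := Bx.mk (St.mk (I.pos (nat_lit 147783680) (nat_lit 206405632)) (I.mix (nat_lit 10436608) (nat_lit 64503808)) (I.pos (nat_lit 29949952) (nat_lit 120668160)) (I.pos (nat_lit 173572096) (nat_lit 245088256)) (I.mix (nat_lit 147062784) (nat_lit 49741824)) (I.mix (nat_lit 141148160) (nat_lit 83673088)) (I.mix (nat_lit 149667840) (nat_lit 72450048)))
  false (nat_lit 39103044)
def b5_4 : Bx := Bx.mk (St.mk (I.mix (nat_lit 53166080) (nat_lit 77758464)) (I.mix (nat_lit 13041664) (nat_lit 43941888)) (I.mix (nat_lit 475136) (nat_lit 28770304)) (I.pos (nat_lit 80035840) (nat_lit 110542848)) (I.mix (nat_lit 53575680) (nat_lit 32899072)) (I.mix (nat_lit 44187648) (nat_lit 28065792)) (I.mix (nat_lit 17711104) (nat_lit 17514496)))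
  false (nat_lit 0)
def b5_5 : Bx := Bx.mk (St.mk (I.pos (nat_lit 119193600) (nat_lit 161792000)) (I.neg (nat_lit 2211840) (nat_lit 47153152)) (I.mix (nat_lit 15171584) (nat_lit 32604160)) (I.pos (nat_lit 149700608) (nat_lit 186073088)) (I.mix (nat_lit 69058560) (nat_lit 46694400)) (I.mix (nat_lit 44613632) (nat_lit 55001088)) (I.mix (nat_lit 44154880) (nat_lit 46694400)))
  false (nat_lit 0)
def b5_6 : Bx := Bx.mk (St.mk (I.mix (nat_lit 65470464) (nat_lit 52756480)) (I.mix (nat_lit 18841600) (nat_lit 14548992)) (I.pos (nat_lit 5406720) (nat_lit 19054592)) (I.pos (nat_lit 83460096) (nat_lit 103858176)) (I.mix (nat_lit 35143680) (nat_lit 29179904)) (I.mix (nat_lit 28327936) (nat_lit 28704768)) (I.mix (nat_lit 13205504) (nat_lit 12681216)))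
  false (nat_lit 0)
def b5_7 : Bx := Bx.mk (St.mk (I.pos (nat_lit 144359424) (nat_lit 170213376)) (I.neg (nat_lit 9601024) (nat_lit 35700736)) (I.mix (nat_lit 4423680) (nat_lit 25427968)) (I.pos (nat_lit 171196416) (nat_lit 198180864)) (I.mix (nat_lit 29671424) (nat_lit 28131328)) (I.mix (nat_lit 27000832) (nat_lit 22429696)) (I.mix (nat_lit 26214400) (nat_lit 22872064)))
  false (nat_lit 0)
def b5_8 : Bx := Bx.mk (St.mk (I.pos (nat_lit 143884288) (nat_lit 194347008)) (I.mix (nat_lit 44711936) (nat_lit 33996800)) (I.mix (nat_lit 10043392) (nat_lit 83230720)) (I.pos (nat_lit 169934848) (nat_lit 223952896)) (I.mix (nat_lit 132841472) (nat_lit 82755584)) (I.mix (nat_lit 140115968) (nat_lit 83640320)) (I.mix (nat_lit 143114240) (nat_lit 76038144)))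
  false (nat_lit 15975327)
def b5_9 : Bx := Bx.mk (St.mk (I.mix (nat_lit 60833792) (nat_lit 108953600)) (I.mix (nat_lit 13664256) (nat_lit 46579712)) (I.mix (nat_lit 2441216) (nat_lit 39927808)) (I.pos (nat_lit 69009408) (nat_lit 131252224)) (I.mix (nat_lit 69058560) (nat_lit 62898176)) (I.mix (nat_lit 72138752) (nat_lit 46694400)) (I.mix (nat_lit 48447488) (nat_lit 33308672)))
  false (nat_lit 0)
def b5_10 : Bx := Bx.mk (St.mk (I.pos (nat_lit 73203712) (nat_lit 136265728)) (I.mix (nat_lit 70123520) (nat_lit 16285696)) (I.mix (nat_lit 38387712) (nat_lit 18268160)) (I.pos (nat_lit 110592000) (nat_lit 158810112)) (I.mix (nat_lit 84475904) (nat_lit 41566208)) (I.mix (nat_lit 55803904) (nat_lit 95223808)) (I.mix (nat_lit 38993920) (nat_lit 60997632)))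
  false (nat_lit 0)
def b5_11 : Bx := Bx.mk (St.mk (I.mix (nat_lit 54657024) (nat_lit 41582592)) (I.mix (nat_lit 36716544) (nat_lit 10387456)) (I.pos (nat_lit 802816) (nat_lit 19070976)) (I.pos (nat_lit 80674816) (nat_lit 102744064)) (I.mix (nat_lit 43925504) (nat_lit 39370752)) (I.mix (nat_lit 30392320) (nat_lit 47906816)) (I.mix (nat_lit 18677760) (nat_lit 12845056)))
  false (nat_lit 0)
def b5_12 : Bx := Bx.mk (St.mk (I.pos (nat_lit 181616640) (nat_lit 298745856)) (I.mix (nat_lit 37076992) (nat_lit 48349184)) (I.mix (nat_lit 48218112) (nat_lit 109543424)) (I.pos (nat_lit 227835904) (nat_lit 425738240)) (I.mix (nat_lit 96993280) (nat_lit 91176960)) (I.mix (nat_lit 99713024) (nat_lit 81592320)) (I.mix (nat_lit 170754048) (nat_lit 134348800)))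
  false (nat_lit 49163589)
def b5_13 : Bx := Bx.mk (St.mk (I.pos (nat_lit 165920768) (nat_lit 228261888)) (I.pos (nat_lit 5128192) (nat_lit 61898752)) (I.pos (nat_lit 33767424) (nat_lit 127041536)) (I.pos (nat_lit 216023040) (nat_lit 274907136)) (I.mix (nat_lit 121651200) (nat_lit 111804416)) (I.mix (nat_lit 126271488) (nat_lit 109133824)) (I.mix (nat_lit 185647104) (nat_lit 142639104)))
  false (nat_lit 43344279)
def t5 : BTr := (BTr.n (BTr.n (BTr.n (BTr.b b5_0) (BTr.n (BTr.b b5_1) (BTr.b b5_2))) (BTr.n (BTr.n (BTr.b b5_3) (BTr.b b5_4)) (BTr.n (BTr.b b5_5) (BTr.b b5_6)))) (BTr.n (BTr.n (BTr.b b5_7) (BTr.n (BTr.b b5_8) (BTr.b b5_9))) (BTr.n (BTr.n (BTr.b b5_10) (BTr.b b5_11)) (BTr.n (BTr.b b5_12) (BTr.b b5_13)))))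
namespace T5
def l0 : Tr := Tr.L (Pth.l (Pth.l (Pth.l Pth.z)))
def l1 : Tr := Tr.L (Pth.l (Pth.l (Pth.r (Pth.l Pth.z))))
def l2 : Tr := Tr.L (Pth.l (Pth.l (Pth.r (Pth.r Pth.z))))
def l3 : Tr := Tr.L (Pth.l (Pth.r (Pth.l (Pth.l Pth.z))))
def l4 : Tr := Tr.L (Pth.l (Pth.r (Pth.l (Pth.r Pth.z))))
def l5 : Tr := Tr.L (Pth.l (Pth.r (Pth.r (Pth.l Pth.z))))
def l6 : Tr := Tr.L (Pth.l (Pth.r (Pth.r (Pth.r Pth.z))))
def l7 : Tr := Tr.L (Pth.r (Pth.l (Pth.l Pth.z)))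
def l8 : Tr := Tr.L (Pth.r (Pth.l (Pth.r (Pth.l Pth.z))))
def l9 : Tr := Tr.L (Pth.r (Pth.l (Pth.r (Pth.r Pth.z))))
def l10 : Tr := Tr.L (Pth.r (Pth.r (Pth.l (Pth.l Pth.z))))
def l11 : Tr := Tr.L (Pth.r (Pth.r (Pth.l (Pth.r Pth.z))))
def l12 : Tr := Tr.L (Pth.r (Pth.r (Pth.r (Pth.l Pth.z))))
def l13 : Tr := Tr.L (Pth.r (Pth.r (Pth.r (Pth.r Pth.z))))
end T5
theorem bx0_0 : BoxOK sI cl4 cl6 cl7 t2 t4 b0_0 :=
  box_mk (TrL.c (I.pos (nat_lit 0) (nat_lit 0)) (xa T2.l0 (xb T2.l0 T2.l0))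
  (TrL.c (I.pos (nat_lit 0) (nat_lit 0)) T4.l1
  (TrL.c (I.pos (nat_lit 0) (nat_lit 0)) T2.l1
  (TrL.c (I.pos (nat_lit 0) (nat_lit 0)) T4.l2
  (TrL.c (I.pos (nat_lit 0) (nat_lit 0)) T2.l2
  (TrL.c (I.pos (nat_lit 0) (nat_lit 0)) T4.l3
  TrL.n)))))) (by decide +kernel)
theorem bx0_1 : BoxOK sI cl4 cl6 cl7 t2 t4 b0_1 :=
  box_mk (TrL.c (I.pos (nat_lit 0) (nat_lit 0)) (xa (xa (xb T2.l6 (xa T2.l6 T2.l6)) (xb T2.l6 T2.l6)) (xa T2.l6 T2.l6))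
  (TrL.c (I.pos (nat_lit 0) (nat_lit 0)) T4.l1
  (TrL.c (I.pos (nat_lit 0) (nat_lit 0)) T2.l1
  (TrL.c (I.pos (nat_lit 0) (nat_lit 0)) T4.l2
  (TrL.c (I.pos (nat_lit 0) (nat_lit 0)) T2.l7
  (TrL.c (I.pos (nat_lit 0) (nat_lit 0)) T4.l3
  TrL.n)))))) (by decide +kernel)
theorem bx0_2 : BoxOK sI cl4 cl6 cl7 t2 t4 b0_2 :=
  box_mk (TrL.c (I.pos (nat_lit 0) (nat_lit 0)) (xb T2.l6 (xa T2.l6 T2.l6))
  (TrL.c (I.pos (nat_lit 0) (nat_lit 0)) T4.l1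
  (TrL.c (I.pos (nat_lit 0) (nat_lit 0)) T2.l1
  (TrL.c (I.pos (nat_lit 0) (nat_lit 0)) T4.l2
  (TrL.c (I.pos (nat_lit 0) (nat_lit 0)) T2.l7
  (TrL.c (I.pos (nat_lit 0) (nat_lit 0)) T4.l3
  TrL.n)))))) (by decide +kernel)
theorem bx0_3 : BoxOK sI cl4 cl6 cl7 t2 t4 b0_3 :=
  box_mk (TrL.c (I.pos (nat_lit 0) (nat_lit 0)) (xa T2.l6 T2.l6)
  (TrL.c (I.pos (nat_lit 0) (nat_lit 0)) T4.l1
  (TrL.c (I.pos (nat_lit 0) (nat_lit 0)) T2.l1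
  (TrL.c (I.pos (nat_lit 0) (nat_lit 0)) T4.l2
  (TrL.c (I.pos (nat_lit 0) (nat_lit 0)) T2.l7
  (TrL.c (I.pos (nat_lit 0) (nat_lit 0)) T4.l3
  TrL.n)))))) (by decide +kernel)
theorem bx0_4 : BoxOK sI cl4 cl6 cl7 t2 t4 b0_4 :=
  box_mk (TrL.c (I.pos (nat_lit 0) (nat_lit 0)) T2.l6
  (TrL.c (I.pos (nat_lit 0) (nat_lit 0)) T4.l1
  (TrL.c (I.pos (nat_lit 0) (nat_lit 0)) T2.l1
  (TrL.c (I.pos (nat_lit 0) (nat_lit 0)) T4.l2
  (TrL.c (I.pos (nat_lit 0) (nat_lit 0)) T2.l7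
  (TrL.c (I.pos (nat_lit 0) (nat_lit 0)) T4.l3
  TrL.n)))))) (by decide +kernel)
theorem bx0_5 : BoxOK sI cl4 cl6 cl7 t2 t4 b0_5 :=
  box_mk (TrL.c (I.pos (nat_lit 0) (nat_lit 0)) T2.l6
  (TrL.c (I.pos (nat_lit 0) (nat_lit 0)) T4.l1
  (TrL.c (I.pos (nat_lit 0) (nat_lit 0)) T2.l1
  (TrL.c (I.pos (nat_lit 0) (nat_lit 0)) T4.l2
  (TrL.c (I.pos (nat_lit 0) (nat_lit 0)) T2.l7
  (TrL.c (I.pos (nat_lit 0) (nat_lit 0)) T4.l3
  TrL.n)))))) (by decide +kernel)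
theorem bx0_6 : BoxOK sI cl4 cl6 cl7 t2 t4 b0_6 :=
  box_mk (TrL.c (I.pos (nat_lit 0) (nat_lit 0)) T2.l0
  (TrL.c (I.pos (nat_lit 0) (nat_lit 0)) T4.l1
  (TrL.c (I.pos (nat_lit 0) (nat_lit 0)) T2.l1
  (TrL.c (I.pos (nat_lit 0) (nat_lit 0)) T4.l2
  (TrL.c (I.pos (nat_lit 0) (nat_lit 0)) T2.l2
  (TrL.c (I.pos (nat_lit 0) (nat_lit 0)) T4.l3
  TrL.n)))))) (by decide +kernel)
theorem bx0_7 : BoxOK sI cl4 cl6 cl7 t2 t4 b0_7 :=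
  box_mk (TrL.c (I.pos (nat_lit 0) (nat_lit 0)) (xb (xa (xb T2.l0 T2.l0) T2.l0) (xa (xb T2.l0 (xa T2.l0 T2.l0)) (xb T2.l0 T2.l0)))
  (TrL.c (I.pos (nat_lit 0) (nat_lit 0)) (xb T4.l1 (xa T4.l1 T4.l1))
  (TrL.c (I.pos (nat_lit 0) (nat_lit 0)) T2.l5
  (TrL.c (I.pos (nat_lit 0) (nat_lit 0)) (xb (xa T4.l2 (xb (xa T4.l2 T4.l2) T4.l2)) (xa T4.l2 (xb T4.l2 (xa T4.l2 T4.l2))))
  (TrL.c (I.pos (nat_lit 0) (nat_lit 0)) T2.l3
  (TrL.c (I.pos (nat_lit 0) (nat_lit 0)) (xb T4.l3 (xa T4.l3 T4.l3))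
  TrL.n)))))) (by decide +kernel)
theorem bx0_8 : BoxOK sI cl4 cl6 cl7 t2 t4 b0_8 :=
  box_mk (TrL.c (I.pos (nat_lit 0) (nat_lit 0)) (xa (xb T2.l6 (xa T2.l6 T2.l6)) (xb T2.l6 T2.l6))
  (TrL.c (I.pos (nat_lit 0) (nat_lit 0)) T4.l1
  (TrL.c (I.pos (nat_lit 0) (nat_lit 0)) T2.l1
  (TrL.c (I.pos (nat_lit 0) (nat_lit 0)) T4.l2
  (TrL.c (I.pos (nat_lit 0) (nat_lit 0)) T2.l7
  (TrL.c (I.pos (nat_lit 0) (nat_lit 0)) T4.l3
  TrL.n)))))) (by decide +kernel)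
theorem bx0_9 : BoxOK sI cl4 cl6 cl7 t2 t4 b0_9 :=
  box_mk (TrL.c (I.pos (nat_lit 0) (nat_lit 0)) (xa (xb T2.l6 T2.l6) T2.l6)
  (TrL.c (I.pos (nat_lit 0) (nat_lit 0)) T4.l1
  (TrL.c (I.pos (nat_lit 0) (nat_lit 0)) T2.l1
  (TrL.c (I.pos (nat_lit 0) (nat_lit 0)) T4.l2
  (TrL.c (I.pos (nat_lit 0) (nat_lit 0)) T2.l7
  (TrL.c (I.pos (nat_lit 0) (nat_lit 0)) T4.l3
  TrL.n)))))) (by decide +kernel)
theorem bx0_10 : BoxOK sI cl4 cl6 cl7 t2 t4 b0_10 :=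
  box_mk (TrL.c (I.pos (nat_lit 0) (nat_lit 0)) (xa (xb T2.l8 (xa T2.l8 T2.l8)) (xb T2.l8 (xa T2.l8 T2.l8)))
  (TrL.c (I.pos (nat_lit 0) (nat_lit 0)) T4.l1
  (TrL.c (I.pos (nat_lit 0) (nat_lit 0)) T2.l5
  (TrL.c (I.pos (nat_lit 0) (nat_lit 0)) (xb T4.l2 T4.l2)
  (TrL.c (I.pos (nat_lit 0) (nat_lit 0)) T2.l3
  (TrL.c (I.pos (nat_lit 0) (nat_lit 0)) T4.l3
  TrL.n)))))) (by decide +kernel)
theorem bx0_11 : BoxOK sI cl4 cl6 cl7 t2 t4 b0_11 :=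
  box_mk (TrL.c (I.pos (nat_lit 0) (nat_lit 0)) (xa (xa (xb (xa T2.l6 T2.l6) (xa T2.l6 T2.l6)) (xb T2.l6 (xa T2.l6 T2.l6))) (xa (xb T2.l6 T2.l6) T2.l6))
  (TrL.c (I.pos (nat_lit 0) (nat_lit 0)) T4.l1
  (TrL.c (I.pos (nat_lit 0) (nat_lit 0)) T2.l1
  (TrL.c (I.pos (nat_lit 0) (nat_lit 0)) T4.l2
  (TrL.c (I.pos (nat_lit 0) (nat_lit 0)) T2.l7
  (TrL.c (I.pos (nat_lit 0) (nat_lit 0)) T4.l3
  TrL.n)))))) (by decide +kernel)
theorem bx0_12 : BoxOK sI cl4 cl6 cl7 t2 t4 b0_12 :=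
  box_mk (TrL.c (I.pos (nat_lit 0) (nat_lit 0)) (xa (xb T2.l8 T2.l8) T2.l8)
  (TrL.c (I.pos (nat_lit 0) (nat_lit 0)) T4.l1
  (TrL.c (I.pos (nat_lit 0) (nat_lit 0)) T2.l1
  (TrL.c (I.pos (nat_lit 0) (nat_lit 0)) T4.l2
  (TrL.c (I.pos (nat_lit 0) (nat_lit 0)) T2.l9
  (TrL.c (I.pos (nat_lit 0) (nat_lit 0)) T4.l3
  TrL.n)))))) (by decide +kernel)
theorem bx0_13 : BoxOK sI cl4 cl6 cl7 t2 t4 b0_13 :=
  box_mk (TrL.c (I.pos (nat_lit 0) (nat_lit 0)) (xb (xa T2.l8 T2.l8) (xa T2.l8 T2.l8))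
  (TrL.c (I.pos (nat_lit 0) (nat_lit 0)) T4.l1
  (TrL.c (I.pos (nat_lit 0) (nat_lit 0)) T2.l1
  (TrL.c (I.pos (nat_lit 0) (nat_lit 0)) T4.l2
  (TrL.c (I.pos (nat_lit 0) (nat_lit 0)) T2.l3
  (TrL.c (I.pos (nat_lit 0) (nat_lit 0)) T4.l3
  TrL.n)))))) (by decide +kernel)
theorem sv0 : StarV sI cl4 cl6 cl7 t2 t4 t0 :=
  (bt_n (bt_n (bt_n (bt_b bx0_0) (bt_n (bt_b bx0_1) (bt_b bx0_2))) (bt_n (bt_n (bt_b bx0_3) (bt_b bx0_4)) (bt_n (bt_b bx0_5) (bt_b bx0_6)))) (bt_n (bt_n (bt_b bx0_7) (bt_n (bt_b bx0_8) (bt_b bx0_9))) (bt_n (bt_n (bt_b bx0_10) (bt_b bx0_11)) (bt_n (bt_b bx0_12) (bt_b bx0_13)))))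
def S0 : StarD := StarD.mk cl4 cl6 cl7 2 4 t0
theorem bx1_0 : BoxOK sI cl4 cl7 cl6 t4 t2 b1_0 :=
  box_mk (TrL.c (I.pos (nat_lit 0) (nat_lit 0)) (xa (xb T4.l0 (xa (xb T4.l0 T4.l0) T4.l0)) (xb T4.l0 (xa T4.l0 T4.l0)))
  (TrL.c (I.pos (nat_lit 0) (nat_lit 0)) T2.l3
  (TrL.c (I.pos (nat_lit 0) (nat_lit 0)) T4.l4
  (TrL.c (I.pos (nat_lit 0) (nat_lit 0)) (xa T2.l4 (xb T2.l4 T2.l4))
  (TrL.c (I.pos (nat_lit 0) (nat_lit 0)) T4.l5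
  (TrL.c (I.pos (nat_lit 0) (nat_lit 0)) T2.l5
  TrL.n)))))) (by decide +kernel)
theorem bx1_1 : BoxOK sI cl4 cl7 cl6 t4 t2 b1_1 :=
  box_mk (TrL.c (I.pos (nat_lit 0) (nat_lit 0)) (xa (xa (xb T4.l6 T4.l6) T4.l6) (xa T4.l6 T4.l6))
  (TrL.c (I.pos (nat_lit 0) (nat_lit 0)) (xa T2.l3 T2.l3)
  (TrL.c (I.pos (nat_lit 0) (nat_lit 0)) T4.l4
  (TrL.c (I.pos (nat_lit 0) (nat_lit 0)) (xa T2.l4 T2.l4)
  (TrL.c (I.pos (nat_lit 0) (nat_lit 0)) T4.l7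
  (TrL.c (I.pos (nat_lit 0) (nat_lit 0)) (xa T2.l5 T2.l5)
  TrL.n)))))) (by decide +kernel)
theorem bx1_2 : BoxOK sI cl4 cl7 cl6 t4 t2 b1_2 :=
  box_mk (TrL.c (I.pos (nat_lit 0) (nat_lit 0)) (xb T4.l6 T4.l6)
  (TrL.c (I.pos (nat_lit 0) (nat_lit 0)) T2.l3
  (TrL.c (I.pos (nat_lit 0) (nat_lit 0)) T4.l4
  (TrL.c (I.pos (nat_lit 0) (nat_lit 0)) T2.l4
  (TrL.c (I.pos (nat_lit 0) (nat_lit 0)) T4.l7
  (TrL.c (I.pos (nat_lit 0) (nat_lit 0)) T2.l5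
  TrL.n)))))) (by decide +kernel)
theorem bx1_3 : BoxOK sI cl4 cl7 cl6 t4 t2 b1_3 :=
  box_mk (TrL.c (I.pos (nat_lit 0) (nat_lit 0)) T4.l6
  (TrL.c (I.pos (nat_lit 0) (nat_lit 0)) T2.l3
  (TrL.c (I.pos (nat_lit 0) (nat_lit 0)) T4.l4
  (TrL.c (I.pos (nat_lit 0) (nat_lit 0)) T2.l4
  (TrL.c (I.pos (nat_lit 0) (nat_lit 0)) T4.l7
  (TrL.c (I.pos (nat_lit 0) (nat_lit 0)) T2.l5
  TrL.n)))))) (by decide +kernel)
theorem bx1_4 : BoxOK sI cl4 cl7 cl6 t4 t2 b1_4 :=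
  box_mk (TrL.c (I.pos (nat_lit 0) (nat_lit 0)) (xa (xb (xb T4.l0 T4.l0) (xb T4.l0 (xa T4.l0 T4.l0))) (xb T4.l2 (xa T4.l0 T4.l0)))
  (TrL.c (I.pos (nat_lit 0) (nat_lit 0)) (xb T2.l3 (xa T2.l3 T2.l3))
  (TrL.c (I.pos (nat_lit 0) (nat_lit 0)) T4.l3
  (TrL.c (I.pos (nat_lit 0) (nat_lit 0)) (xb (xa T2.l4 (xb (xa T2.l4 T2.l4) T2.l4)) (xa T2.l4 (xa T2.l4 (xb T2.l4 T2.l4))))
  (TrL.c (I.pos (nat_lit 0) (nat_lit 0)) T4.l1
  (TrL.c (I.pos (nat_lit 0) (nat_lit 0)) (xb T2.l5 (xa T2.l5 T2.l5))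
  TrL.n)))))) (by decide +kernel)
theorem bx1_5 : BoxOK sI cl4 cl7 cl6 t4 t2 b1_5 :=
  box_mk (TrL.c (I.pos (nat_lit 0) (nat_lit 0)) T4.l6
  (TrL.c (I.pos (nat_lit 0) (nat_lit 0)) T2.l3
  (TrL.c (I.pos (nat_lit 0) (nat_lit 0)) T4.l4
  (TrL.c (I.pos (nat_lit 0) (nat_lit 0)) T2.l4
  (TrL.c (I.pos (nat_lit 0) (nat_lit 0)) T4.l7
  (TrL.c (I.pos (nat_lit 0) (nat_lit 0)) T2.l5
  TrL.n)))))) (by decide +kernel)
theorem bx1_6 : BoxOK sI cl4 cl7 cl6 t4 t2 b1_6 :=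
  box_mk (TrL.c (I.pos (nat_lit 0) (nat_lit 0)) T4.l6
  (TrL.c (I.pos (nat_lit 0) (nat_lit 0)) T2.l3
  (TrL.c (I.pos (nat_lit 0) (nat_lit 0)) T4.l4
  (TrL.c (I.pos (nat_lit 0) (nat_lit 0)) T2.l4
  (TrL.c (I.pos (nat_lit 0) (nat_lit 0)) T4.l7
  (TrL.c (I.pos (nat_lit 0) (nat_lit 0)) T2.l5
  TrL.n)))))) (by decide +kernel)
theorem bx1_7 : BoxOK sI cl4 cl7 cl6 t4 t2 b1_7 :=
  box_mk (TrL.c (I.pos (nat_lit 0) (nat_lit 0)) T4.l0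
  (TrL.c (I.pos (nat_lit 0) (nat_lit 0)) T2.l3
  (TrL.c (I.pos (nat_lit 0) (nat_lit 0)) T4.l4
  (TrL.c (I.pos (nat_lit 0) (nat_lit 0)) T2.l0
  (TrL.c (I.pos (nat_lit 0) (nat_lit 0)) T4.l1
  (TrL.c (I.pos (nat_lit 0) (nat_lit 0)) T2.l5
  TrL.n)))))) (by decide +kernel)
theorem bx1_8 : BoxOK sI cl4 cl7 cl6 t4 t2 b1_8 :=
  box_mk (TrL.c (I.pos (nat_lit 0) (nat_lit 0)) (xa (xb T4.l6 T4.l6) (xb (xa T4.l6 T4.l6) T4.l6))
  (TrL.c (I.pos (nat_lit 0) (nat_lit 0)) T2.l3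
  (TrL.c (I.pos (nat_lit 0) (nat_lit 0)) T4.l4
  (TrL.c (I.pos (nat_lit 0) (nat_lit 0)) T2.l4
  (TrL.c (I.pos (nat_lit 0) (nat_lit 0)) T4.l7
  (TrL.c (I.pos (nat_lit 0) (nat_lit 0)) T2.l5
  TrL.n)))))) (by decide +kernel)
theorem bx1_9 : BoxOK sI cl4 cl7 cl6 t4 t2 b1_9 :=
  box_mk (TrL.c (I.pos (nat_lit 0) (nat_lit 0)) (xa (xa (xb (xa T4.l6 T4.l6) T4.l6) T4.l6) T4.l6)
  (TrL.c (I.pos (nat_lit 0) (nat_lit 0)) T2.l3
  (TrL.c (I.pos (nat_lit 0) (nat_lit 0)) T4.l4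
  (TrL.c (I.pos (nat_lit 0) (nat_lit 0)) T2.l4
  (TrL.c (I.pos (nat_lit 0) (nat_lit 0)) T4.l7
  (TrL.c (I.pos (nat_lit 0) (nat_lit 0)) T2.l5
  TrL.n)))))) (by decide +kernel)
theorem bx1_10 : BoxOK sI cl4 cl7 cl6 t4 t2 b1_10 :=
  box_mk (TrL.c (I.pos (nat_lit 0) (nat_lit 0)) (xb (xa (xb T4.l8 T4.l8) (xb T4.l8 T4.l8)) (xa (xb (xa T4.l8 T4.l8) (xa T4.l8 T4.l8)) (xb T4.l8 (xa T4.l8 T4.l8))))
  (TrL.c (I.pos (nat_lit 0) (nat_lit 0)) (xb T2.l3 (xa T2.l3 T2.l3))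
  (TrL.c (I.pos (nat_lit 0) (nat_lit 0)) T4.l4
  (TrL.c (I.pos (nat_lit 0) (nat_lit 0)) (xb (xa T2.l4 T2.l4) (xa T2.l4 (xb T2.l4 (xa T2.l4 T2.l4))))
  (TrL.c (I.pos (nat_lit 0) (nat_lit 0)) T4.l9
  (TrL.c (I.pos (nat_lit 0) (nat_lit 0)) (xb T2.l5 (xa T2.l5 T2.l5))
  TrL.n)))))) (by decide +kernel)
theorem bx1_11 : BoxOK sI cl4 cl7 cl6 t4 t2 b1_11 :=
  box_mk (TrL.c (I.pos (nat_lit 0) (nat_lit 0)) (xa (xa (xb (xa T4.l6 T4.l6) (xa T4.l6 T4.l6)) (xb T4.l6 T4.l6)) (xa T4.l6 (xb T4.l6 (xa T4.l6 T4.l6))))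
  (TrL.c (I.pos (nat_lit 0) (nat_lit 0)) (xa T2.l3 T2.l3)
  (TrL.c (I.pos (nat_lit 0) (nat_lit 0)) T4.l4
  (TrL.c (I.pos (nat_lit 0) (nat_lit 0)) (xa T2.l4 T2.l4)
  (TrL.c (I.pos (nat_lit 0) (nat_lit 0)) T4.l7
  (TrL.c (I.pos (nat_lit 0) (nat_lit 0)) (xa T2.l5 T2.l5)
  TrL.n)))))) (by decide +kernel)
theorem bx1_12 : BoxOK sI cl4 cl7 cl6 t4 t2 b1_12 :=
  box_mk (TrL.c (I.pos (nat_lit 0) (nat_lit 0)) (xa T4.l0 T4.l0)
  (TrL.c (I.pos (nat_lit 0) (nat_lit 0)) T2.l3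
  (TrL.c (I.pos (nat_lit 0) (nat_lit 0)) T4.l4
  (TrL.c (I.pos (nat_lit 0) (nat_lit 0)) T2.l4
  (TrL.c (I.pos (nat_lit 0) (nat_lit 0)) T4.l9
  (TrL.c (I.pos (nat_lit 0) (nat_lit 0)) T2.l5
  TrL.n)))))) (by decide +kernel)
theorem bx1_13 : BoxOK sI cl4 cl7 cl6 t4 t2 b1_13 :=
  box_mk (TrL.c (I.pos (nat_lit 0) (nat_lit 0)) T4.l8
  (TrL.c (I.pos (nat_lit 0) (nat_lit 0)) T2.l3
  (TrL.c (I.pos (nat_lit 0) (nat_lit 0)) T4.l4
  (TrL.c (I.pos (nat_lit 0) (nat_lit 0)) T2.l4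
  (TrL.c (I.pos (nat_lit 0) (nat_lit 0)) T4.l9
  (TrL.c (I.pos (nat_lit 0) (nat_lit 0)) T2.l5
  TrL.n)))))) (by decide +kernel)
theorem sv1 : StarV sI cl4 cl7 cl6 t4 t2 t1 :=
  (bt_n (bt_n (bt_n (bt_b bx1_0) (bt_n (bt_b bx1_1) (bt_b bx1_2))) (bt_n (bt_n (bt_b bx1_3) (bt_b bx1_4)) (bt_n (bt_b bx1_5) (bt_b bx1_6)))) (bt_n (bt_n (bt_b bx1_7) (bt_n (bt_b bx1_8) (bt_b bx1_9))) (bt_n (bt_n (bt_b bx1_10) (bt_b bx1_11)) (bt_n (bt_b bx1_12) (bt_b bx1_13)))))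
def S1 : StarD := StarD.mk cl4 cl7 cl6 4 2 t1
theorem bx2_0 : BoxOK sI cl6 cl4 cl7 t0 t5 b2_0 :=
  box_mk (TrL.c (I.pos (nat_lit 0) (nat_lit 0)) (xa T0.l7 (xb T0.l0 (xb T0.l0 T0.l0)))
  (TrL.c (I.pos (nat_lit 0) (nat_lit 0)) T5.l1
  (TrL.c (I.pos (nat_lit 0) (nat_lit 89480386)) T0.l1
  (TrL.c (I.pos (nat_lit 0) (nat_lit 41530880)) T5.l2
  (TrL.c (I.pos (nat_lit 0) (nat_lit 0)) (xb T5.l8 (xa T5.l3 T5.l3))
  (TrL.c (I.pos (nat_lit 0) (nat_lit 0)) T0.l2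
  (TrL.c (I.mix (nat_lit 41527258) (nat_lit 41530880)) T5.l9
  (TrL.c (I.mix (nat_lit 41527258) (nat_lit 4274)) T0.l3
  TrL.n)))))))) (by decide +kernel)
theorem bx2_1 : BoxOK sI cl6 cl4 cl7 t0 t5 b2_1 :=
  box_mk (TrL.c (I.pos (nat_lit 0) (nat_lit 0)) T5.l5
  (TrL.c (I.pos (nat_lit 0) (nat_lit 0)) T0.l4
  (TrL.c (I.mix (nat_lit 41527258) (nat_lit 41530880)) T5.l6
  (TrL.c (I.mix (nat_lit 41527258) (nat_lit 4274)) T0.l5
  TrL.n)))) (by decide +kernel)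
theorem bx2_2 : BoxOK sI cl6 cl4 cl7 t0 t5 b2_2 :=
  box_mk (TrL.c (I.pos (nat_lit 0) (nat_lit 0)) T0.l7
  (TrL.c (I.pos (nat_lit 0) (nat_lit 0)) T5.l1
  (TrL.c (I.pos (nat_lit 0) (nat_lit 89480386)) T0.l1
  (TrL.c (I.pos (nat_lit 0) (nat_lit 41530880)) T5.l2
  (TrL.c (I.pos (nat_lit 0) (nat_lit 0)) T5.l8
  (TrL.c (I.pos (nat_lit 0) (nat_lit 0)) T0.l2
  (TrL.c (I.mix (nat_lit 41527258) (nat_lit 41530880)) T5.l4
  (TrL.c (I.mix (nat_lit 41527258) (nat_lit 4274)) T0.l3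
  TrL.n)))))))) (by decide +kernel)
theorem bx2_3 : BoxOK sI cl6 cl4 cl7 t0 t5 b2_3 :=
  box_mk (TrL.c (I.pos (nat_lit 0) (nat_lit 0)) (xa (xb (xa (xb T0.l7 T0.l7) T0.l7) (xa T0.l7 T0.l7)) T0.l7)
  (TrL.c (I.pos (nat_lit 0) (nat_lit 0)) T5.l1
  (TrL.c (I.pos (nat_lit 0) (nat_lit 89480386)) T0.l1
  (TrL.c (I.pos (nat_lit 0) (nat_lit 41530880)) T5.l6
  (TrL.c (I.pos (nat_lit 0) (nat_lit 0)) (xa T5.l8 T5.l8)
  (TrL.c (I.pos (nat_lit 0) (nat_lit 0)) T0.l2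
  (TrL.c (I.mix (nat_lit 41527258) (nat_lit 41530880)) T5.l9
  (TrL.c (I.mix (nat_lit 41527258) (nat_lit 4274)) T0.l3
  TrL.n)))))))) (by decide +kernel)
theorem bx2_4 : BoxOK sI cl6 cl4 cl7 t0 t5 b2_4 :=
  box_mk (TrL.c (I.pos (nat_lit 0) (nat_lit 0)) (xb (xa (xb T0.l7 T0.l7) T0.l7) (xa (xb (xa T0.l7 T0.l7) (xa T0.l7 T0.l7)) (xb T0.l7 T0.l7)))
  (TrL.c (I.pos (nat_lit 0) (nat_lit 0)) (xb T5.l1 T5.l1)
  (TrL.c (I.pos (nat_lit 0) (nat_lit 89480386)) T0.l1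
  (TrL.c (I.pos (nat_lit 0) (nat_lit 41530880)) T5.l2
  (TrL.c (I.pos (nat_lit 0) (nat_lit 0)) (xb (xa T5.l8 T5.l8) (xa T5.l8 (xb T5.l8 T5.l8)))
  (TrL.c (I.pos (nat_lit 0) (nat_lit 0)) T0.l2
  (TrL.c (I.mix (nat_lit 41527258) (nat_lit 41530880)) T5.l9
  (TrL.c (I.mix (nat_lit 41527258) (nat_lit 4274)) T0.l3
  TrL.n)))))))) (by decide +kernel)
theorem bx2_5 : BoxOK sI cl6 cl4 cl7 t0 t5 b2_5 :=
  box_mk (TrL.c (I.pos (nat_lit 0) (nat_lit 0)) T5.l1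
  (TrL.c (I.pos (nat_lit 0) (nat_lit 0)) T0.l1
  (TrL.c (I.mix (nat_lit 41527258) (nat_lit 41530880)) T5.l6
  (TrL.c (I.mix (nat_lit 41527258) (nat_lit 4274)) T0.l11
  TrL.n)))) (by decide +kernel)
theorem bx2_6 : BoxOK sI cl6 cl4 cl7 t0 t5 b2_6 :=
  box_mk (TrL.c (I.pos (nat_lit 0) (nat_lit 0)) (xa (xb (xa T0.l7 T0.l0) (xa T0.l7 T0.l0)) (xb T0.l10 T0.l10))
  (TrL.c (I.pos (nat_lit 0) (nat_lit 0)) T5.l1
  (TrL.c (I.pos (nat_lit 0) (nat_lit 89480386)) T0.l1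
  (TrL.c (I.pos (nat_lit 0) (nat_lit 41530880)) T5.l11
  (TrL.c (I.pos (nat_lit 0) (nat_lit 0)) (xb (xa (xa T5.l3 T5.l3) (xa (xb T5.l3 T5.l3) (xb T5.l3 T5.l3))) (xa T5.l3 (xa T5.l3 (xb T5.l3 T5.l3))))
  (TrL.c (I.pos (nat_lit 0) (nat_lit 0)) T0.l8
  (TrL.c (I.mix (nat_lit 41527258) (nat_lit 41530880)) T5.l9
  (TrL.c (I.mix (nat_lit 41527258) (nat_lit 4274)) T0.l3
  TrL.n)))))))) (by decide +kernel)
theorem bx2_7 : BoxOK sI cl6 cl4 cl7 t0 t5 b2_7 :=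
  box_mk (TrL.c (I.pos (nat_lit 0) (nat_lit 0)) (xb (xa (xb T0.l6 T0.l6) T0.l6) (xa (xb T0.l6 T0.l6) (xb T0.l6 T0.l6)))
  (TrL.c (I.pos (nat_lit 0) (nat_lit 0)) T5.l1
  (TrL.c (I.pos (nat_lit 0) (nat_lit 89480386)) T0.l1
  (TrL.c (I.pos (nat_lit 0) (nat_lit 41530880)) T5.l2
  (TrL.c (I.pos (nat_lit 0) (nat_lit 0)) T5.l8
  (TrL.c (I.pos (nat_lit 0) (nat_lit 0)) T0.l2
  (TrL.c (I.mix (nat_lit 41527258) (nat_lit 41530880)) T5.l4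
  (TrL.c (I.mix (nat_lit 41527258) (nat_lit 4274)) T0.l3
  TrL.n)))))))) (by decide +kernel)
theorem bx2_8 : BoxOK sI cl6 cl4 cl7 t0 t5 b2_8 :=
  box_mk (TrL.c (I.pos (nat_lit 0) (nat_lit 0)) (xa T0.l7 (xb T0.l0 T0.l0))
  (TrL.c (I.pos (nat_lit 0) (nat_lit 0)) T5.l1
  (TrL.c (I.pos (nat_lit 0) (nat_lit 89480386)) T0.l1
  (TrL.c (I.pos (nat_lit 0) (nat_lit 41530880)) T5.l2
  (TrL.c (I.pos (nat_lit 0) (nat_lit 0)) T5.l3
  (TrL.c (I.pos (nat_lit 0) (nat_lit 0)) T0.l2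
  (TrL.c (I.mix (nat_lit 41527258) (nat_lit 41530880)) T5.l9
  (TrL.c (I.mix (nat_lit 41527258) (nat_lit 4274)) T0.l3
  TrL.n)))))))) (by decide +kernel)
theorem bx2_9 : BoxOK sI cl6 cl4 cl7 t0 t5 b2_9 :=
  box_mk (TrL.c (I.pos (nat_lit 0) (nat_lit 0)) T0.l7
  (TrL.c (I.pos (nat_lit 0) (nat_lit 0)) T5.l1
  (TrL.c (I.pos (nat_lit 0) (nat_lit 89480386)) T0.l1
  (TrL.c (I.pos (nat_lit 0) (nat_lit 41530880)) T5.l2
  (TrL.c (I.pos (nat_lit 0) (nat_lit 0)) T5.l8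
  (TrL.c (I.pos (nat_lit 0) (nat_lit 0)) T0.l2
  (TrL.c (I.mix (nat_lit 41527258) (nat_lit 41530880)) T5.l4
  (TrL.c (I.mix (nat_lit 41527258) (nat_lit 4274)) T0.l3
  TrL.n)))))))) (by decide +kernel)
theorem sv2 : StarV sI cl6 cl4 cl7 t0 t5 t2 :=
  (bt_n (bt_n (bt_n (bt_b bx2_0) (bt_b bx2_1)) (bt_n (bt_b bx2_2) (bt_n (bt_b bx2_3) (bt_b bx2_4)))) (bt_n (bt_n (bt_b bx2_5) (bt_b bx2_6)) (bt_n (bt_b bx2_7) (bt_n (bt_b bx2_8) (bt_b bx2_9)))))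
def S2 : StarD := StarD.mk cl6 cl4 cl7 0 5 t2
theorem bx3_0 : BoxOK sI cl6 cl7 cl4 t5 t0 b3_0 :=
  box_mk (TrL.c (I.pos (nat_lit 0) (nat_lit 0)) (xa (xa (xb T5.l0 (xb T5.l0 T5.l0)) T5.l13) (xa (xb T5.l0 T5.l0) (xb T5.l0 T5.l0)))
  (TrL.c (I.pos (nat_lit 0) (nat_lit 0)) T0.l8
  (TrL.c (I.pos (nat_lit 0) (nat_lit 89480386)) T5.l9
  (TrL.c (I.pos (nat_lit 0) (nat_lit 41530880)) T0.l9
  (TrL.c (I.pos (nat_lit 0) (nat_lit 0)) T0.l10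
  (TrL.c (I.pos (nat_lit 0) (nat_lit 0)) T5.l10
  (TrL.c (I.mix (nat_lit 41527258) (nat_lit 41530880)) T0.l11
  (TrL.c (I.mix (nat_lit 41527258) (nat_lit 4274)) T5.l11
  TrL.n)))))))) (by decide +kernel)
theorem bx3_1 : BoxOK sI cl6 cl7 cl4 t5 t0 b3_1 :=
  box_mk (TrL.c (I.pos (nat_lit 0) (nat_lit 0)) (xa (xb T5.l12 T5.l12) T5.l0)
  (TrL.c (I.pos (nat_lit 0) (nat_lit 0)) T0.l8
  (TrL.c (I.pos (nat_lit 0) (nat_lit 89480386)) T5.l9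
  (TrL.c (I.pos (nat_lit 0) (nat_lit 41530880)) T0.l9
  (TrL.c (I.pos (nat_lit 0) (nat_lit 0)) (xa T0.l12 T0.l12)
  (TrL.c (I.pos (nat_lit 0) (nat_lit 0)) T5.l10
  (TrL.c (I.mix (nat_lit 41527258) (nat_lit 41530880)) T0.l11
  (TrL.c (I.mix (nat_lit 41527258) (nat_lit 4274)) T5.l11
  TrL.n)))))))) (by decide +kernel)
theorem bx3_2 : BoxOK sI cl6 cl7 cl4 t5 t0 b3_2 :=
  box_mk (TrL.c (I.pos (nat_lit 0) (nat_lit 0)) (xa T5.l12 T5.l12)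
  (TrL.c (I.pos (nat_lit 0) (nat_lit 0)) T0.l8
  (TrL.c (I.pos (nat_lit 0) (nat_lit 89480386)) T5.l9
  (TrL.c (I.pos (nat_lit 0) (nat_lit 41530880)) T0.l9
  (TrL.c (I.pos (nat_lit 0) (nat_lit 0)) T0.l12
  (TrL.c (I.pos (nat_lit 0) (nat_lit 0)) T5.l10
  (TrL.c (I.mix (nat_lit 41527258) (nat_lit 41530880)) T0.l11
  (TrL.c (I.mix (nat_lit 41527258) (nat_lit 4274)) T5.l11
  TrL.n)))))))) (by decide +kernel)
theorem bx3_3 : BoxOK sI cl6 cl7 cl4 t5 t0 b3_3 :=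
  box_mk (TrL.c (I.pos (nat_lit 0) (nat_lit 0)) (xb (xa (xb T5.l13 T5.l13) (xb T5.l13 T5.l13)) (xa (xb (xa T5.l13 T5.l13) (xa T5.l13 T5.l13)) (xb T5.l13 (xa T5.l13 T5.l13))))
  (TrL.c (I.pos (nat_lit 0) (nat_lit 0)) T0.l8
  (TrL.c (I.pos (nat_lit 0) (nat_lit 89480386)) T5.l9
  (TrL.c (I.pos (nat_lit 0) (nat_lit 41530880)) T0.l9
  (TrL.c (I.pos (nat_lit 0) (nat_lit 0)) (xb T0.l13 (xb T0.l13 T0.l13))
  (TrL.c (I.pos (nat_lit 0) (nat_lit 0)) T5.l10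
  (TrL.c (I.mix (nat_lit 41527258) (nat_lit 41530880)) T0.l11
  (TrL.c (I.mix (nat_lit 41527258) (nat_lit 4274)) T5.l11
  TrL.n)))))))) (by decide +kernel)
theorem bx3_4 : BoxOK sI cl6 cl7 cl4 t5 t0 b3_4 :=
  box_mk (TrL.c (I.pos (nat_lit 0) (nat_lit 0)) (xa (xa (xb T5.l12 (xa T5.l12 T5.l12)) T5.l12) (xa T5.l12 (xb T5.l12 (xa T5.l12 T5.l12))))
  (TrL.c (I.pos (nat_lit 0) (nat_lit 0)) (xa T0.l8 T0.l8)
  (TrL.c (I.pos (nat_lit 0) (nat_lit 89480386)) T5.l9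
  (TrL.c (I.pos (nat_lit 0) (nat_lit 41530880)) T0.l9
  (TrL.c (I.pos (nat_lit 0) (nat_lit 0)) (xa T0.l12 T0.l12)
  (TrL.c (I.pos (nat_lit 0) (nat_lit 0)) T5.l10
  (TrL.c (I.mix (nat_lit 41527258) (nat_lit 41530880)) T0.l11
  (TrL.c (I.mix (nat_lit 41527258) (nat_lit 4274)) T5.l11
  TrL.n)))))))) (by decide +kernel)
theorem bx3_5 : BoxOK sI cl6 cl7 cl4 t5 t0 b3_5 :=
  box_mk (TrL.c (I.pos (nat_lit 0) (nat_lit 0)) (xb T5.l13 T5.l13)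
  (TrL.c (I.pos (nat_lit 0) (nat_lit 0)) T0.l8
  (TrL.c (I.pos (nat_lit 0) (nat_lit 89480386)) T5.l9
  (TrL.c (I.pos (nat_lit 0) (nat_lit 41530880)) T0.l9
  (TrL.c (I.pos (nat_lit 0) (nat_lit 0)) (xb T0.l13 T0.l13)
  (TrL.c (I.pos (nat_lit 0) (nat_lit 0)) T5.l10
  (TrL.c (I.mix (nat_lit 41527258) (nat_lit 41530880)) T0.l11
  (TrL.c (I.mix (nat_lit 41527258) (nat_lit 4274)) T5.l11
  TrL.n)))))))) (by decide +kernel)
theorem bx3_6 : BoxOK sI cl6 cl7 cl4 t5 t0 b3_6 :=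
  box_mk (TrL.c (I.pos (nat_lit 0) (nat_lit 0)) (xa T5.l12 T5.l12)
  (TrL.c (I.pos (nat_lit 0) (nat_lit 0)) T0.l8
  (TrL.c (I.pos (nat_lit 0) (nat_lit 89480386)) T5.l9
  (TrL.c (I.pos (nat_lit 0) (nat_lit 41530880)) T0.l9
  (TrL.c (I.pos (nat_lit 0) (nat_lit 0)) T0.l12
  (TrL.c (I.pos (nat_lit 0) (nat_lit 0)) T5.l10
  (TrL.c (I.mix (nat_lit 41527258) (nat_lit 41530880)) T0.l11
  (TrL.c (I.mix (nat_lit 41527258) (nat_lit 4274)) T5.l11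
  TrL.n)))))))) (by decide +kernel)
theorem bx3_7 : BoxOK sI cl6 cl7 cl4 t5 t0 b3_7 :=
  box_mk (TrL.c (I.pos (nat_lit 0) (nat_lit 0)) T5.l12
  (TrL.c (I.pos (nat_lit 0) (nat_lit 0)) T0.l8
  (TrL.c (I.pos (nat_lit 0) (nat_lit 89480386)) T5.l9
  (TrL.c (I.pos (nat_lit 0) (nat_lit 41530880)) T0.l9
  (TrL.c (I.pos (nat_lit 0) (nat_lit 0)) T0.l12
  (TrL.c (I.pos (nat_lit 0) (nat_lit 0)) T5.l10
  (TrL.c (I.mix (nat_lit 41527258) (nat_lit 41530880)) T0.l11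
  (TrL.c (I.mix (nat_lit 41527258) (nat_lit 4274)) T5.l11
  TrL.n)))))))) (by decide +kernel)
theorem bx3_8 : BoxOK sI cl6 cl7 cl4 t5 t0 b3_8 :=
  box_mk (TrL.c (I.pos (nat_lit 0) (nat_lit 0)) T5.l13
  (TrL.c (I.pos (nat_lit 0) (nat_lit 0)) T0.l8
  (TrL.c (I.pos (nat_lit 0) (nat_lit 89480386)) T5.l9
  (TrL.c (I.pos (nat_lit 0) (nat_lit 41530880)) T0.l9
  (TrL.c (I.pos (nat_lit 0) (nat_lit 0)) T0.l13
  (TrL.c (I.pos (nat_lit 0) (nat_lit 0)) T5.l10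
  (TrL.c (I.mix (nat_lit 41527258) (nat_lit 41530880)) T0.l11
  (TrL.c (I.mix (nat_lit 41527258) (nat_lit 4274)) T5.l11
  TrL.n)))))))) (by decide +kernel)
theorem bx3_9 : BoxOK sI cl6 cl7 cl4 t5 t0 b3_9 :=
  box_mk (TrL.c (I.pos (nat_lit 0) (nat_lit 0)) (xa (xa (xb (xa T5.l12 T5.l12) (xa T5.l12 T5.l12)) T5.l12) (xa T5.l12 (xb T5.l12 (xa T5.l12 T5.l12))))
  (TrL.c (I.pos (nat_lit 0) (nat_lit 0)) (xa T0.l8 T0.l8)
  (TrL.c (I.pos (nat_lit 0) (nat_lit 89480386)) T5.l9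
  (TrL.c (I.pos (nat_lit 0) (nat_lit 41530880)) T0.l9
  (TrL.c (I.pos (nat_lit 0) (nat_lit 0)) (xa T0.l12 T0.l12)
  (TrL.c (I.pos (nat_lit 0) (nat_lit 0)) T5.l10
  (TrL.c (I.mix (nat_lit 41527258) (nat_lit 41530880)) T0.l11
  (TrL.c (I.mix (nat_lit 41527258) (nat_lit 4274)) T5.l11
  TrL.n)))))))) (by decide +kernel)
theorem bx3_10 : BoxOK sI cl6 cl7 cl4 t5 t0 b3_10 :=
  box_mk (TrL.c (I.pos (nat_lit 0) (nat_lit 0)) (xb (xa T5.l12 T5.l12) (xa T5.l12 T5.l12))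
  (TrL.c (I.pos (nat_lit 0) (nat_lit 0)) T0.l8
  (TrL.c (I.pos (nat_lit 0) (nat_lit 89480386)) T5.l9
  (TrL.c (I.pos (nat_lit 0) (nat_lit 41530880)) T0.l9
  (TrL.c (I.pos (nat_lit 0) (nat_lit 0)) (xb (xa T0.l12 T0.l12) T0.l12)
  (TrL.c (I.pos (nat_lit 0) (nat_lit 0)) T5.l10
  (TrL.c (I.mix (nat_lit 41527258) (nat_lit 41530880)) T0.l11
  (TrL.c (I.mix (nat_lit 41527258) (nat_lit 4274)) T5.l11
  TrL.n)))))))) (by decide +kernel)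
theorem bx3_11 : BoxOK sI cl6 cl7 cl4 t5 t0 b3_11 :=
  box_mk (TrL.c (I.pos (nat_lit 0) (nat_lit 0)) (xa (xa T5.l12 T5.l12) T5.l12)
  (TrL.c (I.pos (nat_lit 0) (nat_lit 0)) T0.l8
  (TrL.c (I.pos (nat_lit 0) (nat_lit 89480386)) T5.l9
  (TrL.c (I.pos (nat_lit 0) (nat_lit 41530880)) T0.l9
  (TrL.c (I.pos (nat_lit 0) (nat_lit 0)) T0.l12
  (TrL.c (I.pos (nat_lit 0) (nat_lit 0)) T5.l10
  (TrL.c (I.mix (nat_lit 41527258) (nat_lit 41530880)) T0.l11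
  (TrL.c (I.mix (nat_lit 41527258) (nat_lit 4274)) T5.l11
  TrL.n)))))))) (by decide +kernel)
theorem bx3_12 : BoxOK sI cl6 cl7 cl4 t5 t0 b3_12 :=
  box_mk (TrL.c (I.pos (nat_lit 0) (nat_lit 0)) (xa (xb (xa T5.l0 T5.l0) (xa T5.l0 T5.l0)) (xb (xa T5.l0 T5.l0) (xa T5.l0 T5.l0)))
  (TrL.c (I.pos (nat_lit 0) (nat_lit 0)) T0.l8
  (TrL.c (I.pos (nat_lit 0) (nat_lit 89480386)) T5.l9
  (TrL.c (I.pos (nat_lit 0) (nat_lit 41530880)) T0.l9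
  (TrL.c (I.pos (nat_lit 0) (nat_lit 0)) (xa (xb T0.l10 T0.l10) (xb (xa T0.l10 T0.l10) (xa T0.l10 T0.l10)))
  (TrL.c (I.pos (nat_lit 0) (nat_lit 0)) T5.l10
  (TrL.c (I.mix (nat_lit 41527258) (nat_lit 41530880)) T0.l11
  (TrL.c (I.mix (nat_lit 41527258) (nat_lit 4274)) T5.l11
  TrL.n)))))))) (by decide +kernel)
theorem bx3_13 : BoxOK sI cl6 cl7 cl4 t5 t0 b3_13 :=
  box_mk (TrL.c (I.pos (nat_lit 0) (nat_lit 0)) (xa (xb T5.l0 T5.l0) (xb T5.l0 T5.l0))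
  (TrL.c (I.pos (nat_lit 0) (nat_lit 0)) T0.l8
  (TrL.c (I.pos (nat_lit 0) (nat_lit 89480386)) T5.l9
  (TrL.c (I.pos (nat_lit 0) (nat_lit 41530880)) T0.l9
  (TrL.c (I.pos (nat_lit 0) (nat_lit 0)) T0.l10
  (TrL.c (I.pos (nat_lit 0) (nat_lit 0)) T5.l10
  (TrL.c (I.mix (nat_lit 41527258) (nat_lit 41530880)) T0.l11
  (TrL.c (I.mix (nat_lit 41527258) (nat_lit 4274)) T5.l11
  TrL.n)))))))) (by decide +kernel)
theorem sv3 : StarV sI cl6 cl7 cl4 t5 t0 t3 :=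
  (bt_n (bt_n (bt_n (bt_b bx3_0) (bt_n (bt_b bx3_1) (bt_b bx3_2))) (bt_n (bt_n (bt_b bx3_3) (bt_b bx3_4)) (bt_n (bt_b bx3_5) (bt_b bx3_6)))) (bt_n (bt_n (bt_b bx3_7) (bt_n (bt_b bx3_8) (bt_b bx3_9))) (bt_n (bt_n (bt_b bx3_10) (bt_b bx3_11)) (bt_n (bt_b bx3_12) (bt_b bx3_13)))))
def S3 : StarD := StarD.mk cl6 cl7 cl4 5 0 t3
theorem bx4_0 : BoxOK sI cl7 cl4 cl6 t1 t3 b4_0 :=
  box_mk (TrL.c (I.pos (nat_lit 0) (nat_lit 0)) (xa (xb T1.l0 (xa T1.l0 T1.l0)) (xb T1.l0 (xa T1.l0 T1.l0)))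
  (TrL.c (I.pos (nat_lit 0) (nat_lit 0)) T3.l1
  (TrL.c (I.pos (nat_lit 0) (nat_lit 111196574)) T1.l1
  (TrL.c (I.pos (nat_lit 0) (nat_lit 77433728)) T3.l2
  (TrL.c (I.pos (nat_lit 0) (nat_lit 0)) (xa T3.l3 T3.l3)
  (TrL.c (I.pos (nat_lit 0) (nat_lit 0)) T1.l2
  (TrL.c (I.mix (nat_lit 29511666) (nat_lit 77433728)) T3.l4
  (TrL.c (I.mix (nat_lit 29511666) (nat_lit 46070178)) T1.l3
  TrL.n)))))))) (by decide +kernel)
theorem bx4_1 : BoxOK sI cl7 cl4 cl6 t1 t3 b4_1 :=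
  box_mk (TrL.c (I.pos (nat_lit 0) (nat_lit 0)) (xa (xb (xa (xb T1.l4 T1.l4) T1.l4) T1.l4) T1.l4)
  (TrL.c (I.pos (nat_lit 0) (nat_lit 0)) T3.l1
  (TrL.c (I.pos (nat_lit 0) (nat_lit 111196574)) T1.l1
  (TrL.c (I.pos (nat_lit 0) (nat_lit 77433728)) T3.l2
  (TrL.c (I.pos (nat_lit 0) (nat_lit 0)) (xa T3.l5 (xb T3.l5 T3.l5))
  (TrL.c (I.pos (nat_lit 0) (nat_lit 0)) T1.l2
  (TrL.c (I.mix (nat_lit 29511666) (nat_lit 77433728)) T3.l4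
  (TrL.c (I.mix (nat_lit 29511666) (nat_lit 46070178)) T1.l9
  TrL.n)))))))) (by decide +kernel)
theorem bx4_2 : BoxOK sI cl7 cl4 cl6 t1 t3 b4_2 :=
  box_mk (TrL.c (I.pos (nat_lit 0) (nat_lit 0)) (xb (xa (xb T1.l4 T1.l4) T1.l4) (xa (xb T1.l4 (xa T1.l4 T1.l4)) (xa T1.l4 T1.l4)))
  (TrL.c (I.pos (nat_lit 0) (nat_lit 0)) (xb T3.l1 T3.l1)
  (TrL.c (I.pos (nat_lit 0) (nat_lit 111196574)) T1.l1
  (TrL.c (I.pos (nat_lit 0) (nat_lit 77433728)) T3.l2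
  (TrL.c (I.pos (nat_lit 0) (nat_lit 0)) (xb (xa T3.l5 (xb T3.l5 T3.l5)) (xa (xk T3.l5 T3.l5) (xb T3.l3 T3.l3)))
  (TrL.c (I.pos (nat_lit 0) (nat_lit 0)) T1.l2
  (TrL.c (I.mix (nat_lit 29511666) (nat_lit 77433728)) T3.l4
  (TrL.c (I.mix (nat_lit 29511666) (nat_lit 46070178)) T1.l3
  TrL.n)))))))) (by decide +kernel)
theorem bx4_3 : BoxOK sI cl7 cl4 cl6 t1 t3 b4_3 :=
  box_mk (TrL.c (I.pos (nat_lit 0) (nat_lit 0)) T3.l1
  (TrL.c (I.pos (nat_lit 0) (nat_lit 0)) T1.l1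
  (TrL.c (I.mix (nat_lit 29511666) (nat_lit 77433728)) T3.l6
  (TrL.c (I.mix (nat_lit 29511666) (nat_lit 46070178)) T1.l5
  TrL.n)))) (by decide +kernel)
theorem bx4_4 : BoxOK sI cl7 cl4 cl6 t1 t3 b4_4 :=
  box_mk (TrL.c (I.pos (nat_lit 0) (nat_lit 0)) (xb T3.l7 T3.l7)
  (TrL.c (I.pos (nat_lit 0) (nat_lit 0)) T1.l11
  (TrL.c (I.mix (nat_lit 29511666) (nat_lit 77433728)) T3.l4
  (TrL.c (I.mix (nat_lit 29511666) (nat_lit 46070178)) T1.l1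
  TrL.n)))) (by decide +kernel)
theorem bx4_5 : BoxOK sI cl7 cl4 cl6 t1 t3 b4_5 :=
  box_mk (TrL.c (I.pos (nat_lit 0) (nat_lit 0)) T1.l4
  (TrL.c (I.pos (nat_lit 0) (nat_lit 0)) T3.l1
  (TrL.c (I.pos (nat_lit 0) (nat_lit 111196574)) T1.l1
  (TrL.c (I.pos (nat_lit 0) (nat_lit 77433728)) T3.l2
  (TrL.c (I.pos (nat_lit 0) (nat_lit 0)) T3.l5
  (TrL.c (I.pos (nat_lit 0) (nat_lit 0)) T1.l2
  (TrL.c (I.mix (nat_lit 29511666) (nat_lit 77433728)) T3.l4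
  (TrL.c (I.mix (nat_lit 29511666) (nat_lit 46070178)) T1.l1
  TrL.n)))))))) (by decide +kernel)
theorem bx4_6 : BoxOK sI cl7 cl4 cl6 t1 t3 b4_6 :=
  box_mk (TrL.c (I.pos (nat_lit 0) (nat_lit 0)) (xa (xb (xa T1.l0 T1.l0) (xa T1.l0 T1.l0)) (xb T1.l0 (xa T1.l0 T1.l0)))
  (TrL.c (I.pos (nat_lit 0) (nat_lit 0)) (xa T3.l1 T3.l1)
  (TrL.c (I.pos (nat_lit 0) (nat_lit 111196574)) T1.l1
  (TrL.c (I.pos (nat_lit 0) (nat_lit 77433728)) T3.l2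
  (TrL.c (I.pos (nat_lit 0) (nat_lit 0)) (xa (xb (xa T3.l3 (xk T3.l3 T3.l3)) T3.l3) (xb (xa (xk T3.l3 T3.l3) (xk T3.l3 T3.l3)) (xk (xa T3.l3 T3.l3) (xa T3.l3 T3.l3))))
  (TrL.c (I.pos (nat_lit 0) (nat_lit 0)) (xb (xa T1.l2 T1.l2) T1.l2)
  (TrL.c (I.mix (nat_lit 29511666) (nat_lit 77433728)) T3.l4
  (TrL.c (I.mix (nat_lit 29511666) (nat_lit 46070178)) T1.l9
  TrL.n)))))))) (by decide +kernel)
theorem bx4_7 : BoxOK sI cl7 cl4 cl6 t1 t3 b4_7 :=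
  box_mk (TrL.c (I.pos (nat_lit 0) (nat_lit 0)) (xb (xa (xb T1.l7 T1.l7) T1.l7) (xa T1.l7 T1.l7))
  (TrL.c (I.pos (nat_lit 0) (nat_lit 0)) T3.l7
  (TrL.c (I.pos (nat_lit 0) (nat_lit 111196574)) T1.l1
  (TrL.c (I.pos (nat_lit 0) (nat_lit 77433728)) T3.l2
  (TrL.c (I.pos (nat_lit 0) (nat_lit 0)) T3.l8
  (TrL.c (I.pos (nat_lit 0) (nat_lit 0)) T1.l2
  (TrL.c (I.mix (nat_lit 29511666) (nat_lit 77433728)) T3.l4
  (TrL.c (I.mix (nat_lit 29511666) (nat_lit 46070178)) T1.l1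
  TrL.n)))))))) (by decide +kernel)
theorem bx4_8 : BoxOK sI cl7 cl4 cl6 t1 t3 b4_8 :=
  box_mk (TrL.c (I.pos (nat_lit 0) (nat_lit 0)) (xa (xb T1.l0 T1.l4) (xb T1.l0 T1.l0))
  (TrL.c (I.pos (nat_lit 0) (nat_lit 0)) T3.l1
  (TrL.c (I.pos (nat_lit 0) (nat_lit 111196574)) T1.l1
  (TrL.c (I.pos (nat_lit 0) (nat_lit 77433728)) T3.l2
  (TrL.c (I.pos (nat_lit 0) (nat_lit 0)) T3.l3
  (TrL.c (I.pos (nat_lit 0) (nat_lit 0)) T1.l2
  (TrL.c (I.mix (nat_lit 29511666) (nat_lit 77433728)) T3.l4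
  (TrL.c (I.mix (nat_lit 29511666) (nat_lit 46070178)) T1.l3
  TrL.n)))))))) (by decide +kernel)
theorem bx4_9 : BoxOK sI cl7 cl4 cl6 t1 t3 b4_9 :=
  box_mk (TrL.c (I.pos (nat_lit 0) (nat_lit 0)) T1.l4
  (TrL.c (I.pos (nat_lit 0) (nat_lit 0)) T3.l1
  (TrL.c (I.pos (nat_lit 0) (nat_lit 111196574)) T1.l1
  (TrL.c (I.pos (nat_lit 0) (nat_lit 77433728)) T3.l2
  (TrL.c (I.pos (nat_lit 0) (nat_lit 0)) T3.l5
  (TrL.c (I.pos (nat_lit 0) (nat_lit 0)) T1.l2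
  (TrL.c (I.mix (nat_lit 29511666) (nat_lit 77433728)) T3.l4
  (TrL.c (I.mix (nat_lit 29511666) (nat_lit 46070178)) T1.l1
  TrL.n)))))))) (by decide +kernel)
theorem sv4 : StarV sI cl7 cl4 cl6 t1 t3 t4 :=
  (bt_n (bt_n (bt_n (bt_b bx4_0) (bt_b bx4_1)) (bt_n (bt_b bx4_2) (bt_n (bt_b bx4_3) (bt_b bx4_4)))) (bt_n (bt_n (bt_b bx4_5) (bt_b bx4_6)) (bt_n (bt_b bx4_7) (bt_n (bt_b bx4_8) (bt_b bx4_9)))))
def S4 : StarD := StarD.mk cl7 cl4 cl6 1 3 t4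
theorem bx5_0 : BoxOK sI cl7 cl6 cl4 t3 t1 b5_0 :=
  box_mk (TrL.c (I.pos (nat_lit 0) (nat_lit 0)) (xa (xa (xb T3.l0 (xb T3.l0 T3.l0)) (xb T3.l0 T3.l0)) (xa (xb T3.l0 T3.l0) T3.l0))
  (TrL.c (I.pos (nat_lit 0) (nat_lit 0)) (xa T1.l8 T1.l8)
  (TrL.c (I.pos (nat_lit 0) (nat_lit 111196574)) T3.l9
  (TrL.c (I.pos (nat_lit 0) (nat_lit 77433728)) T1.l9
  (TrL.c (I.pos (nat_lit 0) (nat_lit 0)) (xa T1.l10 T1.l10)
  (TrL.c (I.pos (nat_lit 0) (nat_lit 0)) T3.l10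
  (TrL.c (I.mix (nat_lit 29511666) (nat_lit 77433728)) T1.l11
  (TrL.c (I.mix (nat_lit 29511666) (nat_lit 46070178)) T3.l2
  TrL.n)))))))) (by decide +kernel)
theorem bx5_1 : BoxOK sI cl7 cl6 cl4 t3 t1 b5_1 :=
  box_mk (TrL.c (I.pos (nat_lit 0) (nat_lit 0)) (xa T3.l12 T3.l0)
  (TrL.c (I.pos (nat_lit 0) (nat_lit 0)) T1.l8
  (TrL.c (I.pos (nat_lit 0) (nat_lit 111196574)) T3.l9
  (TrL.c (I.pos (nat_lit 0) (nat_lit 77433728)) T1.l9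
  (TrL.c (I.pos (nat_lit 0) (nat_lit 0)) (xa T1.l12 (xb T1.l12 T1.l12))
  (TrL.c (I.pos (nat_lit 0) (nat_lit 0)) T3.l10
  (TrL.c (I.mix (nat_lit 29511666) (nat_lit 77433728)) T1.l11
  (TrL.c (I.mix (nat_lit 29511666) (nat_lit 46070178)) T3.l11
  TrL.n)))))))) (by decide +kernel)
theorem bx5_2 : BoxOK sI cl7 cl6 cl4 t3 t1 b5_2 :=
  box_mk (TrL.c (I.pos (nat_lit 0) (nat_lit 0)) T3.l12
  (TrL.c (I.pos (nat_lit 0) (nat_lit 0)) T1.l8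
  (TrL.c (I.pos (nat_lit 0) (nat_lit 111196574)) T3.l9
  (TrL.c (I.pos (nat_lit 0) (nat_lit 77433728)) T1.l9
  (TrL.c (I.pos (nat_lit 0) (nat_lit 0)) T1.l12
  (TrL.c (I.pos (nat_lit 0) (nat_lit 0)) T3.l10
  (TrL.c (I.mix (nat_lit 29511666) (nat_lit 77433728)) T1.l11
  (TrL.c (I.mix (nat_lit 29511666) (nat_lit 46070178)) T3.l11
  TrL.n)))))))) (by decide +kernel)
theorem bx5_3 : BoxOK sI cl7 cl6 cl4 t3 t1 b5_3 :=
  box_mk (TrL.c (I.pos (nat_lit 0) (nat_lit 0)) (xa (xb T3.l13 (xa (xb T3.l13 T3.l13) (xb T3.l13 T3.l13))) (xb T3.l13 (xa T3.l13 T3.l13)))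
  (TrL.c (I.pos (nat_lit 0) (nat_lit 0)) (xb T1.l8 T1.l8)
  (TrL.c (I.pos (nat_lit 0) (nat_lit 111196574)) T3.l9
  (TrL.c (I.pos (nat_lit 0) (nat_lit 77433728)) T1.l9
  (TrL.c (I.pos (nat_lit 0) (nat_lit 0)) T1.l10
  (TrL.c (I.pos (nat_lit 0) (nat_lit 0)) T3.l10
  (TrL.c (I.mix (nat_lit 29511666) (nat_lit 77433728)) T1.l11
  (TrL.c (I.mix (nat_lit 29511666) (nat_lit 46070178)) T3.l2
  TrL.n)))))))) (by decide +kernel)
theorem bx5_4 : BoxOK sI cl7 cl6 cl4 t3 t1 b5_4 :=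
  box_mk (TrL.c (I.pos (nat_lit 0) (nat_lit 0)) (xa (xa T3.l12 T3.l12) (xa T3.l12 T3.l12))
  (TrL.c (I.pos (nat_lit 0) (nat_lit 0)) T1.l8
  (TrL.c (I.pos (nat_lit 0) (nat_lit 111196574)) T3.l9
  (TrL.c (I.pos (nat_lit 0) (nat_lit 77433728)) T1.l9
  (TrL.c (I.pos (nat_lit 0) (nat_lit 0)) T1.l12
  (TrL.c (I.pos (nat_lit 0) (nat_lit 0)) T3.l10
  (TrL.c (I.mix (nat_lit 29511666) (nat_lit 77433728)) T1.l11
  (TrL.c (I.mix (nat_lit 29511666) (nat_lit 46070178)) T3.l11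
  TrL.n)))))))) (by decide +kernel)
theorem bx5_5 : BoxOK sI cl7 cl6 cl4 t3 t1 b5_5 :=
  box_mk (TrL.c (I.pos (nat_lit 0) (nat_lit 0)) T3.l12
  (TrL.c (I.pos (nat_lit 0) (nat_lit 0)) T1.l8
  (TrL.c (I.pos (nat_lit 0) (nat_lit 111196574)) T3.l9
  (TrL.c (I.pos (nat_lit 0) (nat_lit 77433728)) T1.l9
  (TrL.c (I.pos (nat_lit 0) (nat_lit 0)) T1.l12
  (TrL.c (I.pos (nat_lit 0) (nat_lit 0)) T3.l10
  (TrL.c (I.mix (nat_lit 29511666) (nat_lit 77433728)) T1.l11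
  (TrL.c (I.mix (nat_lit 29511666) (nat_lit 46070178)) T3.l11
  TrL.n)))))))) (by decide +kernel)
theorem bx5_6 : BoxOK sI cl7 cl6 cl4 t3 t1 b5_6 :=
  box_mk (TrL.c (I.pos (nat_lit 0) (nat_lit 0)) (xa (xa T3.l12 T3.l12) T3.l12)
  (TrL.c (I.pos (nat_lit 0) (nat_lit 0)) T1.l12
  (TrL.c (I.pos (nat_lit 0) (nat_lit 111196574)) T3.l9
  (TrL.c (I.pos (nat_lit 0) (nat_lit 77433728)) T1.l9
  (TrL.c (I.pos (nat_lit 0) (nat_lit 0)) T1.l12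
  (TrL.c (I.pos (nat_lit 0) (nat_lit 0)) T3.l10
  (TrL.c (I.mix (nat_lit 29511666) (nat_lit 77433728)) T1.l11
  (TrL.c (I.mix (nat_lit 29511666) (nat_lit 46070178)) T3.l11
  TrL.n)))))))) (by decide +kernel)
theorem bx5_7 : BoxOK sI cl7 cl6 cl4 t3 t1 b5_7 :=
  box_mk (TrL.c (I.pos (nat_lit 0) (nat_lit 0)) T3.l13
  (TrL.c (I.pos (nat_lit 0) (nat_lit 0)) T1.l8
  (TrL.c (I.pos (nat_lit 0) (nat_lit 111196574)) T3.l9
  (TrL.c (I.pos (nat_lit 0) (nat_lit 77433728)) T1.l9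
  (TrL.c (I.pos (nat_lit 0) (nat_lit 0)) T1.l13
  (TrL.c (I.pos (nat_lit 0) (nat_lit 0)) T3.l10
  (TrL.c (I.mix (nat_lit 29511666) (nat_lit 77433728)) T1.l11
  (TrL.c (I.mix (nat_lit 29511666) (nat_lit 46070178)) T3.l11
  TrL.n)))))))) (by decide +kernel)
theorem bx5_8 : BoxOK sI cl7 cl6 cl4 t3 t1 b5_8 :=
  box_mk (TrL.c (I.pos (nat_lit 0) (nat_lit 0)) (xb (xa T3.l13 T3.l13) (xa T3.l13 T3.l13))
  (TrL.c (I.pos (nat_lit 0) (nat_lit 0)) T1.l8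
  (TrL.c (I.pos (nat_lit 0) (nat_lit 111196574)) T3.l9
  (TrL.c (I.pos (nat_lit 0) (nat_lit 77433728)) T1.l9
  (TrL.c (I.pos (nat_lit 0) (nat_lit 0)) (xk (xb T1.l13 T1.l13) (xb T1.l13 T1.l13))
  (TrL.c (I.pos (nat_lit 0) (nat_lit 0)) T3.l10
  (TrL.c (I.mix (nat_lit 29511666) (nat_lit 77433728)) T1.l11
  (TrL.c (I.mix (nat_lit 29511666) (nat_lit 46070178)) T3.l2
  TrL.n)))))))) (by decide +kernel)
theorem bx5_9 : BoxOK sI cl7 cl6 cl4 t3 t1 b5_9 :=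
  box_mk (TrL.c (I.pos (nat_lit 0) (nat_lit 0)) (xa (xa (xb T3.l12 (xa T3.l12 T3.l12)) (xb T3.l12 T3.l12)) (xa T3.l12 (xb T3.l12 (xa T3.l12 T3.l12))))
  (TrL.c (I.pos (nat_lit 0) (nat_lit 0)) (xa T1.l8 T1.l8)
  (TrL.c (I.pos (nat_lit 0) (nat_lit 111196574)) T3.l9
  (TrL.c (I.pos (nat_lit 0) (nat_lit 77433728)) T1.l9
  (TrL.c (I.pos (nat_lit 0) (nat_lit 0)) (xa T1.l12 T1.l12)
  (TrL.c (I.pos (nat_lit 0) (nat_lit 0)) T3.l10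
  (TrL.c (I.mix (nat_lit 29511666) (nat_lit 77433728)) T1.l11
  (TrL.c (I.mix (nat_lit 29511666) (nat_lit 46070178)) T3.l11
  TrL.n)))))))) (by decide +kernel)
theorem bx5_10 : BoxOK sI cl7 cl6 cl4 t3 t1 b5_10 :=
  box_mk (TrL.c (I.pos (nat_lit 0) (nat_lit 0)) (xb T3.l12 T3.l12)
  (TrL.c (I.pos (nat_lit 0) (nat_lit 0)) T1.l8
  (TrL.c (I.pos (nat_lit 0) (nat_lit 111196574)) T3.l9
  (TrL.c (I.pos (nat_lit 0) (nat_lit 77433728)) T1.l9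
  (TrL.c (I.pos (nat_lit 0) (nat_lit 0)) (xb (xa T1.l12 T1.l12) T1.l12)
  (TrL.c (I.pos (nat_lit 0) (nat_lit 0)) T3.l10
  (TrL.c (I.mix (nat_lit 29511666) (nat_lit 77433728)) T1.l11
  (TrL.c (I.mix (nat_lit 29511666) (nat_lit 46070178)) T3.l11
  TrL.n)))))))) (by decide +kernel)
theorem bx5_11 : BoxOK sI cl7 cl6 cl4 t3 t1 b5_11 :=
  box_mk (TrL.c (I.pos (nat_lit 0) (nat_lit 0)) (xa (xb (xa T3.l12 T3.l12) T3.l12) T3.l12)
  (TrL.c (I.pos (nat_lit 0) (nat_lit 0)) T1.l12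
  (TrL.c (I.pos (nat_lit 0) (nat_lit 111196574)) T3.l9
  (TrL.c (I.pos (nat_lit 0) (nat_lit 77433728)) T1.l9
  (TrL.c (I.pos (nat_lit 0) (nat_lit 0)) T1.l8
  (TrL.c (I.pos (nat_lit 0) (nat_lit 0)) T3.l10
  (TrL.c (I.mix (nat_lit 29511666) (nat_lit 77433728)) T1.l11
  (TrL.c (I.mix (nat_lit 29511666) (nat_lit 46070178)) T3.l11
  TrL.n)))))))) (by decide +kernel)
theorem bx5_12 : BoxOK sI cl7 cl6 cl4 t3 t1 b5_12 :=
  box_mk (TrL.c (I.pos (nat_lit 0) (nat_lit 0)) (xa (xb (xa T3.l0 T3.l0) (xa T3.l0 T3.l0)) (xb (xa T3.l0 T3.l0) (xa T3.l0 T3.l0)))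
  (TrL.c (I.pos (nat_lit 0) (nat_lit 0)) (xa T1.l8 T1.l8)
  (TrL.c (I.pos (nat_lit 0) (nat_lit 111196574)) T3.l9
  (TrL.c (I.pos (nat_lit 0) (nat_lit 77433728)) T1.l9
  (TrL.c (I.pos (nat_lit 0) (nat_lit 0)) (xa (xb (xa T1.l10 T1.l10) T1.l10) (xb (xk (xa T1.l10 T1.l10) (xa T1.l10 T1.l10)) (xk (xa T1.l10 T1.l10) (xa T1.l10 T1.l10))))
  (TrL.c (I.pos (nat_lit 0) (nat_lit 0)) (xa T3.l10 T3.l10)
  (TrL.c (I.mix (nat_lit 29511666) (nat_lit 77433728)) (xR T1.l11 T1.l11)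
  (TrL.c (I.mix (nat_lit 29511666) (nat_lit 46070178)) T3.l2
  TrL.n)))))))) (by decide +kernel)
theorem bx5_13 : BoxOK sI cl7 cl6 cl4 t3 t1 b5_13 :=
  box_mk (TrL.c (I.pos (nat_lit 0) (nat_lit 0)) (xa (xb T3.l0 (xa (xs T3.l0 T3.l0) T3.l0)) (xb T3.l0 (xa T3.l0 T3.l0)))
  (TrL.c (I.pos (nat_lit 0) (nat_lit 0)) T1.l8
  (TrL.c (I.pos (nat_lit 0) (nat_lit 111196574)) T3.l9
  (TrL.c (I.pos (nat_lit 0) (nat_lit 77433728)) T1.l9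
  (TrL.c (I.pos (nat_lit 0) (nat_lit 0)) T1.l10
  (TrL.c (I.pos (nat_lit 0) (nat_lit 0)) T3.l10
  (TrL.c (I.mix (nat_lit 29511666) (nat_lit 77433728)) T1.l11
  (TrL.c (I.mix (nat_lit 29511666) (nat_lit 46070178)) T3.l2
  TrL.n)))))))) (by decide +kernel)
theorem sv5 : StarV sI cl7 cl6 cl4 t3 t1 t5 :=
  (bt_n (bt_n (bt_n (bt_b bx5_0) (bt_n (bt_b bx5_1) (bt_b bx5_2))) (bt_n (bt_n (bt_b bx5_3) (bt_b bx5_4)) (bt_n (bt_b bx5_5) (bt_b bx5_6)))) (bt_n (bt_n (bt_b bx5_7) (bt_n (bt_b bx5_8) (bt_b bx5_9))) (bt_n (bt_n (bt_b bx5_10) (bt_b bx5_11)) (bt_n (bt_b bx5_12) (bt_b bx5_13)))))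
def S5 : StarD := StarD.mk cl7 cl6 cl4 3 1 t5
def G : List StarD := [S0, S1, S2, S3, S4, S5]
theorem so0 : StarOK sI G S0 :=
  star_mk (by decide) (by decide) rfl rfl rfl rfl rfl rfl (rfl : _ = t2) (rfl : _ = t4)
  (st_mk (Pth.l (Pth.l (Pth.l Pth.z))) (nat_lit 193535165) (nat_lit 195181373) (by decide +kernel))
  (st_mk (Pth.l (Pth.l (Pth.l Pth.z))) (nat_lit 231644353) (nat_lit 234046772) (by decide +kernel))
  (st_mk (Pth.l (Pth.l (Pth.l Pth.z))) (nat_lit 276420039) (nat_lit 279921504) (by decide +kernel)) sv0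
theorem so1 : StarOK sI G S1 :=
  star_mk (by decide) (by decide) rfl rfl rfl rfl rfl rfl (rfl : _ = t4) (rfl : _ = t2)
  (st_mk (Pth.l (Pth.l (Pth.l Pth.z))) (nat_lit 145028612) (nat_lit 168790296) (by decide +kernel))
  (st_mk (Pth.l (Pth.l (Pth.l Pth.z))) (nat_lit 182831477) (nat_lit 207426595) (by decide +kernel))
  (st_mk (Pth.l (Pth.l (Pth.l Pth.z))) (nat_lit 227366624) (nat_lit 253120458) (by decide +kernel)) sv1
theorem so2 : StarOK sI G S2 :=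
  star_mk (by decide) (by decide) rfl rfl rfl rfl rfl rfl (rfl : _ = t0) (rfl : _ = t5)
  (st_mk (Pth.l (Pth.l (Pth.l Pth.z))) (nat_lit 374324799) (nat_lit 376307286) (by decide +kernel))
  (st_mk (Pth.l (Pth.l (Pth.l Pth.z))) (nat_lit 411132022) (nat_lit 413535748) (by decide +kernel))
  (st_mk (Pth.l (Pth.l (Pth.l Pth.z))) (nat_lit 453838596) (nat_lit 456786143) (by decide +kernel)) sv2
theorem so3 : StarOK sI G S3 :=
  star_mk (by decide) (by decide) rfl rfl rfl rfl rfl rfl (rfl : _ = t5) (rfl : _ = t0)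
  (st_mk (Pth.l (Pth.l (Pth.l Pth.z))) (nat_lit 142464131) (nat_lit 165104859) (by decide +kernel))
  (st_mk (Pth.l (Pth.l (Pth.l Pth.z))) (nat_lit 178749719) (nat_lit 201767909) (by decide +kernel))
  (st_mk (Pth.l (Pth.l (Pth.l Pth.z))) (nat_lit 221022441) (nat_lit 244547299) (by decide +kernel)) sv3
theorem so4 : StarOK sI G S4 :=
  star_mk (by decide) (by decide) rfl rfl rfl rfl rfl rfl (rfl : _ = t1) (rfl : _ = t3)
  (st_mk (Pth.l (Pth.l (Pth.l Pth.z))) (nat_lit 369694117) (nat_lit 374327090) (by decide +kernel))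
  (st_mk (Pth.l (Pth.l (Pth.l Pth.z))) (nat_lit 405697759) (nat_lit 410961880) (by decide +kernel))
  (st_mk (Pth.l (Pth.l (Pth.l Pth.z))) (nat_lit 447372593) (nat_lit 453446433) (by decide +kernel)) sv4
theorem so5 : StarOK sI G S5 :=
  star_mk (by decide) (by decide) rfl rfl rfl rfl rfl rfl (rfl : _ = t3) (rfl : _ = t1)
  (st_mk (Pth.l (Pth.l (Pth.l Pth.z))) (nat_lit 187980438) (nat_lit 189712631) (by decide +kernel))
  (st_mk (Pth.l (Pth.l (Pth.l Pth.z))) (nat_lit 223766948) (nat_lit 226006821) (by decide +kernel))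
  (st_mk (Pth.l (Pth.l (Pth.l Pth.z))) (nat_lit 265257391) (nat_lit 268204227) (by decide +kernel)) sv5
theorem ok : GroupOK (nat_lit 91226112) (nat_lit 150339584) G := grp_mk (allS_c so0 (allS_c so1 (allS_c so2 (allS_c so3 (allS_c so4 (allS_c so5 allS_n))))))
theorem cov : GCov G cl4 cl6 cl7 := cov_mk
  ⟨0, by decide, rfl, rfl, rfl⟩ ⟨1, by decide, rfl, rfl, rfl⟩ ⟨2, by decide, rfl, rfl, rfl⟩ ⟨3, by decide, rfl, rfl, rfl⟩ ⟨4, by decide, rfl, rfl, rfl⟩ ⟨5, by decide, rfl, rfl, rfl⟩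
end Q134_1

namespace Q134_2
def sI : I := I.pos (nat_lit 150274048) (nat_lit 209387520)
def b0_0 : Bx := Bx.mk (St.mk (I.pos (nat_lit 158679040) (nat_lit 227540992)) (I.mix (nat_lit 2015232) (nat_lit 66224128)) (I.mix (nat_lit 6963200) (nat_lit 65339392)) (I.pos (nat_lit 190906368) (nat_lit 305037312)) (I.mix (nat_lit 111263744) (nat_lit 57999360)) (I.mix (nat_lit 66224128) (nat_lit 59850752)) (I.mix (nat_lit 93470720) (nat_lit 93454336)))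
  false (nat_lit 28477655)
def b0_1 : Bx := Bx.mk (St.mk (I.mix (nat_lit 27148288) (nat_lit 95518720)) (I.mix (nat_lit 8011776) (nat_lit 39862272)) (I.mix (nat_lit 30179328) (nat_lit 278528)) (I.pos (nat_lit 79003648) (nat_lit 124993536)) (I.mix (nat_lit 46350336) (nat_lit 70729728)) (I.mix (nat_lit 58441728) (nat_lit 40484864)) (I.mix (nat_lit 37683200) (nat_lit 23019520)))
  false (nat_lit 0)
def b0_2 : Bx := Bx.mk (St.mk (I.pos (nat_lit 77217792) (nat_lit 115343360)) (I.mix (nat_lit 51167232) (nat_lit 9306112)) (I.neg (nat_lit 16613376) (nat_lit 63045632)) (I.pos (nat_lit 110084096) (nat_lit 140410880)) (I.mix (nat_lit 90603520) (nat_lit 42369024)) (I.mix (nat_lit 40779776) (nat_lit 79888384)) (I.mix (nat_lit 27738112) (nat_lit 56606720)))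
  false (nat_lit 0)
def b0_3 : Bx := Bx.mk (St.mk (I.mix (nat_lit 46071808) (nat_lit 26836992)) (I.mix (nat_lit 33751040) (nat_lit 6029312)) (I.neg (nat_lit 7274496) (nat_lit 22675456)) (I.pos (nat_lit 82575360) (nat_lit 101253120)) (I.mix (nat_lit 51265536) (nat_lit 30703616)) (I.mix (nat_lit 26427392) (nat_lit 40927232)) (I.mix (nat_lit 16089088) (nat_lit 10387456)))
  false (nat_lit 0)
def b0_4 : Bx := Bx.mk (St.mk (I.pos (nat_lit 72744960) (nat_lit 90963968)) (I.mix (nat_lit 10731520) (nat_lit 10141696)) (I.neg (nat_lit 15351808) (nat_lit 31621120)) (I.pos (nat_lit 108494848) (nat_lit 121929728)) (I.mix (nat_lit 38486016) (nat_lit 29097984)) (I.mix (nat_lit 27934720) (nat_lit 24559616)) (I.mix (nat_lit 17498112) (nat_lit 18939904)))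
  false (nat_lit 0)
def b0_5 : Bx := Bx.mk (St.mk (I.mix (nat_lit 58949632) (nat_lit 5554176)) (I.mix (nat_lit 9011200) (nat_lit 14467072)) (I.neg (nat_lit 13860864) (nat_lit 26050560)) (I.pos (nat_lit 86491136) (nat_lit 102744064)) (I.mix (nat_lit 31391744) (nat_lit 27541504)) (I.mix (nat_lit 24739840) (nat_lit 24559616)) (I.mix (nat_lit 10158080) (nat_lit 11436032)))
  false (nat_lit 0)
def b0_6 : Bx := Bx.mk (St.mk (I.pos (nat_lit 205160448) (nat_lit 259702784)) (I.mix (nat_lit 19283968) (nat_lit 21921792)) (I.neg (nat_lit 28639232) (nat_lit 102957056)) (I.pos (nat_lit 271351808) (nat_lit 358825984)) (I.mix (nat_lit 123977728) (nat_lit 51691520)) (I.mix (nat_lit 78348288) (nat_lit 78594048)) (I.mix (nat_lit 116965376) (nat_lit 147947520)))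
  false (nat_lit 244876)
def b0_7 : Bx := Bx.mk (St.mk (I.pos (nat_lit 185401344) (nat_lit 247840768)) (I.mix (nat_lit 17039360) (nat_lit 65699840)) (I.mix (nat_lit 92815360) (nat_lit 60964864)) (I.pos (nat_lit 252313600) (nat_lit 333053952)) (I.mix (nat_lit 123912192) (nat_lit 102612992)) (I.mix (nat_lit 102203392) (nat_lit 89112576)) (I.mix (nat_lit 179601408) (nat_lit 154583040)))
  false (nat_lit 37291300)
def b0_8 : Bx := Bx.mk (St.mk (I.pos (nat_lit 88965120) (nat_lit 161071104)) (I.neg (nat_lit 7290880) (nat_lit 54050816)) (I.neg (nat_lit 20660224) (nat_lit 65683456)) (I.pos (nat_lit 123977728) (nat_lit 190939136)) (I.mix (nat_lit 92454912) (nat_lit 50495488)) (I.mix (nat_lit 51478528) (nat_lit 66076672)) (I.mix (nat_lit 38010880) (nat_lit 58572800)))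
  false (nat_lit 0)
def b0_9 : Bx := Bx.mk (St.mk (I.mix (nat_lit 41582592) (nat_lit 49119232)) (I.mix (nat_lit 35323904) (nat_lit 8142848)) (I.neg (nat_lit 7602176) (nat_lit 26673152)) (I.pos (nat_lit 80314368) (nat_lit 102629376)) (I.mix (nat_lit 49774592) (nat_lit 43565056)) (I.mix (nat_lit 36077568) (nat_lit 40189952)) (I.mix (nat_lit 16187392) (nat_lit 18448384)))
  false (nat_lit 0)
def b0_10 : Bx := Bx.mk (St.mk (I.pos (nat_lit 157794304) (nat_lit 213368832)) (I.mix (nat_lit 6242304) (nat_lit 63569920)) (I.mix (nat_lit 13893632) (nat_lit 64110592)) (I.pos (nat_lit 199376896) (nat_lit 273956864)) (I.mix (nat_lit 136904704) (nat_lit 58163200)) (I.mix (nat_lit 132218880) (nat_lit 88276992)) (I.mix (nat_lit 122011648) (nat_lit 86982656)))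
  false (nat_lit 31911704)
def b0_11 : Bx := Bx.mk (St.mk (I.mix (nat_lit 50298880) (nat_lit 76054528)) (I.mix (nat_lit 12566528) (nat_lit 35323904)) (I.neg (nat_lit 1179648) (nat_lit 28016640)) (I.pos (nat_lit 80314368) (nat_lit 109543424)) (I.mix (nat_lit 57917440) (nat_lit 55967744)) (I.mix (nat_lit 53821440) (nat_lit 47562752)) (I.mix (nat_lit 22626304) (nat_lit 27639808)))
  false (nat_lit 0)
def b0_12 : Bx := Bx.mk (St.mk (I.pos (nat_lit 129728512) (nat_lit 195706880)) (I.mix (nat_lit 34652160) (nat_lit 11321344)) (I.neg (nat_lit 540672) (nat_lit 50954240)) (I.pos (nat_lit 158711808) (nat_lit 236093440)) (I.mix (nat_lit 63946752) (nat_lit 61227008)) (I.mix (nat_lit 59424768) (nat_lit 56819712)) (I.mix (nat_lit 58195968) (nat_lit 49315840)))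
  false (nat_lit 0)
def b0_13 : Bx := Bx.mk (St.mk (I.pos (nat_lit 161005568) (nat_lit 199376896)) (I.mix (nat_lit 13352960) (nat_lit 30244864)) (I.mix (nat_lit 26492928) (nat_lit 26558464)) (I.pos (nat_lit 204587008) (nat_lit 241598464)) (I.mix (nat_lit 95387648) (nat_lit 81985536)) (I.mix (nat_lit 116670464) (nat_lit 74907648)) (I.mix (nat_lit 117538816) (nat_lit 64815104)))
  false (nat_lit 0)
def t0 : BTr := (BTr.n (BTr.n (BTr.n (BTr.b b0_0) (BTr.n (BTr.b b0_1) (BTr.b b0_2))) (BTr.n (BTr.n (BTr.b b0_3) (BTr.b b0_4)) (BTr.n (BTr.b b0_5) (BTr.b b0_6)))) (BTr.n (BTr.n (BTr.b b0_7) (BTr.n (BTr.b b0_8) (BTr.b b0_9))) (BTr.n (BTr.n (BTr.b b0_10) (BTr.b b0_11)) (BTr.n (BTr.b b0_12) (BTr.b b0_13)))))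
namespace T0
def l0 : Tr := Tr.L (Pth.l (Pth.l (Pth.l Pth.z)))
def l1 : Tr := Tr.L (Pth.l (Pth.l (Pth.r (Pth.l Pth.z))))
def l2 : Tr := Tr.L (Pth.l (Pth.l (Pth.r (Pth.r Pth.z))))
def l3 : Tr := Tr.L (Pth.l (Pth.r (Pth.l (Pth.l Pth.z))))
def l4 : Tr := Tr.L (Pth.l (Pth.r (Pth.l (Pth.r Pth.z))))
def l5 : Tr := Tr.L (Pth.l (Pth.r (Pth.r (Pth.l Pth.z))))
def l6 : Tr := Tr.L (Pth.l (Pth.r (Pth.r (Pth.r Pth.z))))
def l7 : Tr := Tr.L (Pth.r (Pth.l (Pth.l Pth.z)))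
def l8 : Tr := Tr.L (Pth.r (Pth.l (Pth.r (Pth.l Pth.z))))
def l9 : Tr := Tr.L (Pth.r (Pth.l (Pth.r (Pth.r Pth.z))))
def l10 : Tr := Tr.L (Pth.r (Pth.r (Pth.l (Pth.l Pth.z))))
def l11 : Tr := Tr.L (Pth.r (Pth.r (Pth.l (Pth.r Pth.z))))
def l12 : Tr := Tr.L (Pth.r (Pth.r (Pth.r (Pth.l Pth.z))))
def l13 : Tr := Tr.L (Pth.r (Pth.r (Pth.r (Pth.r Pth.z))))
end T0
def b1_0 : Bx := Bx.mk (St.mk (I.pos (nat_lit 158613504) (nat_lit 231620608)) (I.mix (nat_lit 1818624) (nat_lit 60391424)) (I.mix (nat_lit 2179072) (nat_lit 73957376)) (I.pos (nat_lit 144097280) (nat_lit 278020096)) (I.mix (nat_lit 119111680) (nat_lit 63668224)) (I.mix (nat_lit 76496896) (nat_lit 62603264)) (I.mix (nat_lit 107397120) (nat_lit 99745792)))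
  false (nat_lit 0)
def b1_1 : Bx := Bx.mk (St.mk (I.mix (nat_lit 22003712) (nat_lit 115900416)) (I.mix (nat_lit 7585792) (nat_lit 36929536)) (I.mix (nat_lit 23166976) (nat_lit 11354112)) (I.pos (nat_lit 40288256) (nat_lit 114032640)) (I.mix (nat_lit 49397760) (nat_lit 59244544)) (I.mix (nat_lit 49709056) (nat_lit 36454400)) (I.mix (nat_lit 36585472) (nat_lit 21626880)))
  false (nat_lit 0)
def b1_2 : Bx := Bx.mk (St.mk (I.pos (nat_lit 90587136) (nat_lit 133873664)) (I.mix (nat_lit 49479680) (nat_lit 9715712)) (I.neg (nat_lit 6340608) (nat_lit 58490880)) (I.pos (nat_lit 78331904) (nat_lit 129236992)) (I.mix (nat_lit 94224384) (nat_lit 44630016)) (I.mix (nat_lit 42762240) (nat_lit 84525056)) (I.mix (nat_lit 30965760) (nat_lit 64290816)))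
  false (nat_lit 0)
def b1_3 : Bx := Bx.mk (St.mk (I.mix (nat_lit 33292288) (nat_lit 68632576)) (I.mix (nat_lit 31522816) (nat_lit 4341760)) (I.neg (nat_lit 2031616) (nat_lit 23953408)) (I.pos (nat_lit 41304064) (nat_lit 81739776)) (I.mix (nat_lit 49758208) (nat_lit 27688960)) (I.mix (nat_lit 24526848) (nat_lit 41992192)) (I.mix (nat_lit 12877824) (nat_lit 17596416)))
  false (nat_lit 0)
def b1_4 : Bx := Bx.mk (St.mk (I.pos (nat_lit 185679872) (nat_lit 248545280)) (I.mix (nat_lit 16891904) (nat_lit 59310080)) (I.mix (nat_lit 71712768) (nat_lit 70238208)) (I.pos (nat_lit 212811776) (nat_lit 302333952)) (I.mix (nat_lit 125796352) (nat_lit 96976896)) (I.mix (nat_lit 101023744) (nat_lit 86130688)) (I.mix (nat_lit 170295296) (nat_lit 139444224)))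
  false (nat_lit 10060336)
def b1_5 : Bx := Bx.mk (St.mk (I.mix (nat_lit 44007424) (nat_lit 50446336)) (I.mix (nat_lit 6488064) (nat_lit 10878976)) (I.neg (nat_lit 3981312) (nat_lit 14204928)) (I.pos (nat_lit 42418176) (nat_lit 75218944)) (I.mix (nat_lit 26804224) (nat_lit 19628032)) (I.mix (nat_lit 19300352) (nat_lit 18153472)) (I.mix (nat_lit 8208384) (nat_lit 7847936)))
  false (nat_lit 0)
def b1_6 : Bx := Bx.mk (St.mk (I.pos (nat_lit 85409792) (nat_lit 112148480)) (I.mix (nat_lit 10813440) (nat_lit 9306112)) (I.neg (nat_lit 5767168) (nat_lit 25526272)) (I.pos (nat_lit 74924032) (nat_lit 112230400)) (I.mix (nat_lit 41156608) (nat_lit 27721728)) (I.mix (nat_lit 27541504) (nat_lit 27033600)) (I.mix (nat_lit 19955712) (nat_lit 21970944)))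
  false (nat_lit 0)
def b1_7 : Bx := Bx.mk (St.mk (I.pos (nat_lit 205127680) (nat_lit 258490368)) (I.mix (nat_lit 18546688) (nat_lit 21479424)) (I.neg (nat_lit 10027008) (nat_lit 81625088)) (I.pos (nat_lit 234078208) (nat_lit 328941568)) (I.mix (nat_lit 118931456) (nat_lit 44990464)) (I.mix (nat_lit 71024640) (nat_lit 72548352)) (I.mix (nat_lit 110690304) (nat_lit 134725632)))
  false (nat_lit 0)
def b1_8 : Bx := Bx.mk (St.mk (I.pos (nat_lit 100892672) (nat_lit 173801472)) (I.neg (nat_lit 1638400) (nat_lit 51937280)) (I.neg (nat_lit 9863168) (nat_lit 60866560)) (I.pos (nat_lit 93618176) (nat_lit 181518336)) (I.mix (nat_lit 85164032) (nat_lit 50216960)) (I.mix (nat_lit 52969472) (nat_lit 63160320)) (I.mix (nat_lit 44122112) (nat_lit 63291392)))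
  false (nat_lit 0)
def b1_9 : Bx := Bx.mk (St.mk (I.mix (nat_lit 31916032) (nat_lit 86622208)) (I.mix (nat_lit 33144832) (nat_lit 7323648)) (I.neg (nat_lit 1294336) (nat_lit 27590656)) (I.pos (nat_lit 37945344) (nat_lit 91996160)) (I.mix (nat_lit 52264960) (nat_lit 47906816)) (I.mix (nat_lit 39272448) (nat_lit 45678592)) (I.mix (nat_lit 22364160) (nat_lit 26476544)))
  false (nat_lit 17485343)
def b1_10 : Bx := Bx.mk (St.mk (I.pos (nat_lit 160792576) (nat_lit 213696512)) (I.mix (nat_lit 12664832) (nat_lit 57327616)) (I.mix (nat_lit 12713984) (nat_lit 70139904)) (I.pos (nat_lit 156401664) (nat_lit 245415936)) (I.mix (nat_lit 138428416) (nat_lit 54067200)) (I.mix (nat_lit 131252224) (nat_lit 82526208)) (I.mix (nat_lit 137560064) (nat_lit 89063424)))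
  false (nat_lit 0)
def b1_11 : Bx := Bx.mk (St.mk (I.mix (nat_lit 39452672) (nat_lit 109608960)) (I.mix (nat_lit 13680640) (nat_lit 34521088)) (I.mix (nat_lit 17072128) (nat_lit 12517376)) (I.pos (nat_lit 40583168) (nat_lit 108216320)) (I.mix (nat_lit 63504384) (nat_lit 39698432)) (I.mix (nat_lit 56246272) (nat_lit 44171264)) (I.mix (nat_lit 28540928) (nat_lit 24838144)))
  false (nat_lit 0)
def b1_12 : Bx := Bx.mk (St.mk (I.pos (nat_lit 134594560) (nat_lit 199180288)) (I.mix (nat_lit 35766272) (nat_lit 9240576)) (I.mix (nat_lit 49479680) (nat_lit 6356992)) (I.pos (nat_lit 123060224) (nat_lit 214433792)) (I.mix (nat_lit 64061440) (nat_lit 58474496)) (I.mix (nat_lit 59375616) (nat_lit 56147968)) (I.mix (nat_lit 62783488) (nat_lit 55345152)))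
  false (nat_lit 0)
def b1_13 : Bx := Bx.mk (St.mk (I.pos (nat_lit 161611776) (nat_lit 201097216)) (I.mix (nat_lit 17498112) (nat_lit 27672576)) (I.mix (nat_lit 23822336) (nat_lit 32866304)) (I.pos (nat_lit 158433280) (nat_lit 217661440)) (I.mix (nat_lit 96239616) (nat_lit 70582272)) (I.mix (nat_lit 108429312) (nat_lit 68370432)) (I.mix (nat_lit 117276672) (nat_lit 68567040)))
  false (nat_lit 0)
def t1 : BTr := (BTr.n (BTr.n (BTr.n (BTr.b b1_0) (BTr.n (BTr.b b1_1) (BTr.b b1_2))) (BTr.n (BTr.n (BTr.b b1_3) (BTr.b b1_4)) (BTr.n (BTr.b b1_5) (BTr.b b1_6)))) (BTr.n (BTr.n (BTr.b b1_7) (BTr.n (BTr.b b1_8) (BTr.b b1_9))) (BTr.n (BTr.n (BTr.b b1_10) (BTr.b b1_11)) (BTr.n (BTr.b b1_12) (BTr.b b1_13)))))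
namespace T1
def l0 : Tr := Tr.L (Pth.l (Pth.l (Pth.l Pth.z)))
def l1 : Tr := Tr.L (Pth.l (Pth.l (Pth.r (Pth.l Pth.z))))
def l2 : Tr := Tr.L (Pth.l (Pth.l (Pth.r (Pth.r Pth.z))))
def l3 : Tr := Tr.L (Pth.l (Pth.r (Pth.l (Pth.l Pth.z))))
def l4 : Tr := Tr.L (Pth.l (Pth.r (Pth.l (Pth.r Pth.z))))
def l5 : Tr := Tr.L (Pth.l (Pth.r (Pth.r (Pth.l Pth.z))))
def l6 : Tr := Tr.L (Pth.l (Pth.r (Pth.r (Pth.r Pth.z))))
def l7 : Tr := Tr.L (Pth.r (Pth.l (Pth.l Pth.z)))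
def l8 : Tr := Tr.L (Pth.r (Pth.l (Pth.r (Pth.l Pth.z))))
def l9 : Tr := Tr.L (Pth.r (Pth.l (Pth.r (Pth.r Pth.z))))
def l10 : Tr := Tr.L (Pth.r (Pth.r (Pth.l (Pth.l Pth.z))))
def l11 : Tr := Tr.L (Pth.r (Pth.r (Pth.l (Pth.r Pth.z))))
def l12 : Tr := Tr.L (Pth.r (Pth.r (Pth.r (Pth.l Pth.z))))
def l13 : Tr := Tr.L (Pth.r (Pth.r (Pth.r (Pth.r Pth.z))))
end T1
def b2_0 : Bx := Bx.mk (St.mk (I.pos (nat_lit 143441920) (nat_lit 217300992)) (I.mix (nat_lit 2752512) (nat_lit 90619904)) (I.mix (nat_lit 2768896) (nat_lit 89341952)) (I.pos (nat_lit 372572160) (nat_lit 462684160)) (I.mix (nat_lit 135413760) (nat_lit 82214912)) (I.mix (nat_lit 93814784) (nat_lit 84279296)) (I.mix (nat_lit 116834304) (nat_lit 124141568)))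
  false (nat_lit 46847505)
def b2_1 : Bx := Bx.mk (St.mk (I.mix (nat_lit 56377344) (nat_lit 14352384)) (I.mix (nat_lit 18677760) (nat_lit 85835776)) (I.neg (nat_lit 46710784) (nat_lit 71548928)) (I.pos (nat_lit 263913472) (nat_lit 294125568)) (I.mix (nat_lit 50282496) (nat_lit 121257984)) (I.mix (nat_lit 91668480) (nat_lit 71778304)) (I.mix (nat_lit 48971776) (nat_lit 35602432)))
  true (nat_lit 0)
def b2_2 : Bx := Bx.mk (St.mk (I.pos (nat_lit 11206656) (nat_lit 56377344)) (I.neg (nat_lit 32931840) (nat_lit 85835776)) (I.neg (nat_lit 47087616) (nat_lit 71548928)) (I.pos (nat_lit 268795904) (nat_lit 294125568)) (I.mix (nat_lit 121257984) (nat_lit 60506112)) (I.mix (nat_lit 75644928) (nat_lit 87080960)) (I.mix (nat_lit 48971776) (nat_lit 39419904)))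
  false (nat_lit 25667362)
def b2_3 : Bx := Bx.mk (St.mk (I.pos (nat_lit 18366464) (nat_lit 127811584)) (I.neg (nat_lit 6520832) (nat_lit 88096768)) (I.neg (nat_lit 4571136) (nat_lit 82657280)) (I.pos (nat_lit 268025856) (nat_lit 338034688)) (I.mix (nat_lit 124862464) (nat_lit 80052224)) (I.mix (nat_lit 76890112) (nat_lit 89112576)) (I.mix (nat_lit 87048192) (nat_lit 77660160)))
  false (nat_lit 71589653)
def b2_4 : Bx := Bx.mk (St.mk (I.pos (nat_lit 87425024) (nat_lit 190300160)) (I.mix (nat_lit 38469632) (nat_lit 88948736)) (I.mix (nat_lit 35471360) (nat_lit 93257728)) (I.pos (nat_lit 300040192) (nat_lit 431652864)) (I.mix (nat_lit 182435840) (nat_lit 90308608)) (I.mix (nat_lit 153042944) (nat_lit 122437632)) (I.mix (nat_lit 160038912) (nat_lit 149536768)))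
  false (nat_lit 91365022)
def b2_5 : Bx := Bx.mk (St.mk (I.neg (nat_lit 18366464) (nat_lit 127811584)) (I.pos (nat_lit 2916352) (nat_lit 88113152)) (I.neg (nat_lit 835584) (nat_lit 82657280)) (I.pos (nat_lit 268009472) (nat_lit 338034688)) (I.mix (nat_lit 80052224) (nat_lit 124862464)) (I.mix (nat_lit 89112576) (nat_lit 76906496)) (I.mix (nat_lit 87048192) (nat_lit 77660160)))
  true (nat_lit 0)
def b2_6 : Bx := Bx.mk (St.mk (I.pos (nat_lit 175718400) (nat_lit 290619392)) (I.mix (nat_lit 38813696) (nat_lit 55754752)) (I.mix (nat_lit 191070208) (nat_lit 17612800)) (I.pos (nat_lit 409026560) (nat_lit 593870848)) (I.mix (nat_lit 108019712) (nat_lit 78708736)) (I.mix (nat_lit 92241920) (nat_lit 85491712)) (I.mix (nat_lit 162234368) (nat_lit 163282944)))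
  false (nat_lit 33201008)
def b2_7 : Bx := Bx.mk (St.mk (I.mix (nat_lit 17530880) (nat_lit 42106880)) (I.mix (nat_lit 43155456) (nat_lit 19513344)) (I.neg (nat_lit 47054848) (nat_lit 58834944)) (I.pos (nat_lit 264159232) (nat_lit 279232512)) (I.mix (nat_lit 52412416) (nat_lit 43909120)) (I.mix (nat_lit 36421632) (nat_lit 39911424)) (I.mix (nat_lit 11632640) (nat_lit 15106048)))
  false (nat_lit 0)
def b2_8 : Bx := Bx.mk (St.mk (I.pos (nat_lit 156434432) (nat_lit 216023040)) (I.pos (nat_lit 27066368) (nat_lit 90701824)) (I.mix (nat_lit 10633216) (nat_lit 80756736)) (I.pos (nat_lit 400441344) (nat_lit 460734464)) (I.mix (nat_lit 123748352) (nat_lit 101990400)) (I.mix (nat_lit 99532800) (nat_lit 80707584)) (I.mix (nat_lit 161218560) (nat_lit 112082944)))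
  false (nat_lit 41746008)
def b2_9 : Bx := Bx.mk (St.mk (I.pos (nat_lit 11927552) (nat_lit 44613632)) (I.neg (nat_lit 21856256) (nat_lit 72794112)) (I.neg (nat_lit 48709632) (nat_lit 68845568)) (I.pos (nat_lit 268271616) (nat_lit 286425088)) (I.mix (nat_lit 112672768) (nat_lit 42401792)) (I.mix (nat_lit 47677440) (nat_lit 91668480)) (I.mix (nat_lit 32014336) (nat_lit 25821184)))
  false (nat_lit 0)
def t2 : BTr := (BTr.n (BTr.n (BTr.n (BTr.b b2_0) (BTr.b b2_1)) (BTr.n (BTr.b b2_2) (BTr.n (BTr.b b2_3) (BTr.b b2_4)))) (BTr.n (BTr.n (BTr.b b2_5) (BTr.b b2_6)) (BTr.n (BTr.b b2_7) (BTr.n (BTr.b b2_8) (BTr.b b2_9)))))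
namespace T2
def l0 : Tr := Tr.L (Pth.l (Pth.l (Pth.l Pth.z)))
def l1 : Tr := Tr.L (Pth.l (Pth.l (Pth.r Pth.z)))
def l2 : Tr := Tr.L (Pth.l (Pth.r (Pth.l Pth.z)))
def l3 : Tr := Tr.L (Pth.l (Pth.r (Pth.r (Pth.l Pth.z))))
def l4 : Tr := Tr.L (Pth.l (Pth.r (Pth.r (Pth.r Pth.z))))
def l5 : Tr := Tr.L (Pth.r (Pth.l (Pth.l Pth.z)))
def l6 : Tr := Tr.L (Pth.r (Pth.l (Pth.r Pth.z)))
def l7 : Tr := Tr.L (Pth.r (Pth.r (Pth.l Pth.z)))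
def l8 : Tr := Tr.L (Pth.r (Pth.r (Pth.r (Pth.l Pth.z))))
def l9 : Tr := Tr.L (Pth.r (Pth.r (Pth.r (Pth.r Pth.z))))
end T2
def b3_0 : Bx := Bx.mk (St.mk (I.pos (nat_lit 142295040) (nat_lit 232177664)) (I.mix (nat_lit 1605632) (nat_lit 54362112)) (I.mix (nat_lit 3178496) (nat_lit 113147904)) (I.pos (nat_lit 141787136) (nat_lit 257982464)) (I.mix (nat_lit 147537920) (nat_lit 100007936)) (I.mix (nat_lit 112820224) (nat_lit 107790336)) (I.mix (nat_lit 153010176) (nat_lit 141164544)))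
  false (nat_lit 53457956)
def b3_1 : Bx := Bx.mk (St.mk (I.pos (nat_lit 103809024) (nat_lit 169181184)) (I.neg (nat_lit 4374528) (nat_lit 57868288)) (I.mix (nat_lit 40468480) (nat_lit 18481152)) (I.pos (nat_lit 103743488) (nat_lit 171229184)) (I.mix (nat_lit 73531392) (nat_lit 61521920)) (I.mix (nat_lit 50069504) (nat_lit 61423616)) (I.mix (nat_lit 46759936) (nat_lit 61440000)))
  false (nat_lit 92085986)
def b3_2 : Bx := Bx.mk (St.mk (I.mix (nat_lit 30998528) (nat_lit 83312640)) (I.mix (nat_lit 35438592) (nat_lit 5357568)) (I.mix (nat_lit 10289152) (nat_lit 13484032)) (I.pos (nat_lit 39124992) (nat_lit 89751552)) (I.mix (nat_lit 37273600) (nat_lit 48594944)) (I.mix (nat_lit 29360128) (nat_lit 39993344)) (I.mix (nat_lit 13156352) (nat_lit 21774336)))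
  false (nat_lit 28754438)
def b3_3 : Bx := Bx.mk (St.mk (I.pos (nat_lit 153174016) (nat_lit 204668928)) (I.mix (nat_lit 14106624) (nat_lit 51249152)) (I.pos (nat_lit 18202624) (nat_lit 100696064)) (I.pos (nat_lit 136691712) (nat_lit 218644480)) (I.mix (nat_lit 146587648) (nat_lit 57868288)) (I.mix (nat_lit 129613824) (nat_lit 79364096)) (I.mix (nat_lit 143867904) (nat_lit 70549504)))
  false (nat_lit 54977724)
def b3_4 : Bx := Bx.mk (St.mk (I.mix (nat_lit 35176448) (nat_lit 103071744)) (I.mix (nat_lit 12533760) (nat_lit 35880960)) (I.mix (nat_lit 737280) (nat_lit 34816000)) (I.pos (nat_lit 40894464) (nat_lit 104022016)) (I.mix (nat_lit 69058560) (nat_lit 38305792)) (I.mix (nat_lit 62423040) (nat_lit 37011456)) (I.mix (nat_lit 34603008) (nat_lit 21577728)))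
  false (nat_lit 19990259)
def b3_5 : Bx := Bx.mk (St.mk (I.pos (nat_lit 152256512) (nat_lit 197279744)) (I.mix (nat_lit 41549824) (nat_lit 25346048)) (I.mix (nat_lit 17235968) (nat_lit 67977216)) (I.pos (nat_lit 138674176) (nat_lit 206684160)) (I.mix (nat_lit 138067968) (nat_lit 77021184)) (I.mix (nat_lit 135069696) (nat_lit 76349440)) (I.mix (nat_lit 143835136) (nat_lit 72663040)))
  false (nat_lit 75101044)
def b3_6 : Bx := Bx.mk (St.mk (I.mix (nat_lit 45465600) (nat_lit 83525632)) (I.mix (nat_lit 13303808) (nat_lit 8192000)) (I.pos (nat_lit 786432) (nat_lit 15007744)) (I.pos (nat_lit 42074112) (nat_lit 89505792)) (I.mix (nat_lit 30130176) (nat_lit 24281088)) (I.mix (nat_lit 20447232) (nat_lit 22249472)) (I.mix (nat_lit 11370496) (nat_lit 11468800)))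
  false (nat_lit 0)
def b3_7 : Bx := Bx.mk (St.mk (I.pos (nat_lit 131989504) (nat_lit 168869888)) (I.neg (nat_lit 1867776) (nat_lit 37601280)) (I.mix (nat_lit 13795328) (nat_lit 24051712)) (I.pos (nat_lit 121389056) (nat_lit 171016192)) (I.mix (nat_lit 67698688) (nat_lit 37535744)) (I.mix (nat_lit 35258368) (nat_lit 49922048)) (I.mix (nat_lit 39895040) (nat_lit 44810240)))
  false (nat_lit 28332409)
def b3_8 : Bx := Bx.mk (St.mk (I.pos (nat_lit 147554304) (nat_lit 183238656)) (I.neg (nat_lit 7520256) (nat_lit 39731200)) (I.mix (nat_lit 17235968) (nat_lit 20545536)) (I.pos (nat_lit 135397376) (nat_lit 190644224)) (I.mix (nat_lit 51363840) (nat_lit 49233920)) (I.mix (nat_lit 49102848) (nat_lit 37339136)) (I.mix (nat_lit 49430528) (nat_lit 38764544)))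
  false (nat_lit 12742162)
def b3_9 : Bx := Bx.mk (St.mk (I.mix (nat_lit 31670272) (nat_lit 122781696)) (I.mix (nat_lit 11124736) (nat_lit 36061184)) (I.mix (nat_lit 2949120) (nat_lit 35454976)) (I.pos (nat_lit 39485440) (nat_lit 118669312)) (I.mix (nat_lit 69091328) (nat_lit 53837824)) (I.mix (nat_lit 51183616) (nat_lit 45006848)) (I.mix (nat_lit 36323328) (nat_lit 32030720)))
  false (nat_lit 28208949)
def b3_10 : Bx := Bx.mk (St.mk (I.pos (nat_lit 90472448) (nat_lit 144769024)) (I.mix (nat_lit 57212928) (nat_lit 9502720)) (I.mix (nat_lit 38830080) (nat_lit 14778368)) (I.pos (nat_lit 78430208) (nat_lit 141049856)) (I.mix (nat_lit 85262336) (nat_lit 44711936)) (I.mix (nat_lit 45416448) (nat_lit 75923456)) (I.mix (nat_lit 34308096) (nat_lit 53198848)))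
  false (nat_lit 66215850)
def b3_11 : Bx := Bx.mk (St.mk (I.mix (nat_lit 37715968) (nat_lit 77234176)) (I.mix (nat_lit 32718848) (nat_lit 6864896)) (I.mix (nat_lit 7487488) (nat_lit 13680640)) (I.pos (nat_lit 41107456) (nat_lit 83804160)) (I.mix (nat_lit 44630016) (nat_lit 39845888)) (I.mix (nat_lit 30687232) (nat_lit 36421632)) (I.mix (nat_lit 13418496) (nat_lit 13565952)))
  false (nat_lit 13094325)
def b3_12 : Bx := Bx.mk (St.mk (I.pos (nat_lit 188104704) (nat_lit 284311552)) (I.mix (nat_lit 32325632) (nat_lit 40747008)) (I.mix (nat_lit 43778048) (nat_lit 95567872)) (I.pos (nat_lit 199540736) (nat_lit 377880576)) (I.mix (nat_lit 101187584) (nat_lit 67862528)) (I.mix (nat_lit 71024640) (nat_lit 67534848)) (I.mix (nat_lit 121815040) (nat_lit 115965952)))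
  false (nat_lit 71010614)
def b3_13 : Bx := Bx.mk (St.mk (I.pos (nat_lit 171048960) (nat_lit 229785600)) (I.pos (nat_lit 7487488) (nat_lit 52559872)) (I.pos (nat_lit 32571392) (nat_lit 110772224)) (I.pos (nat_lit 186793984) (nat_lit 252313600)) (I.mix (nat_lit 124174336) (nat_lit 91193344)) (I.mix (nat_lit 108593152) (nat_lit 79331328)) (I.mix (nat_lit 166248448) (nat_lit 101253120)))
  false (nat_lit 49043081)
def t3 : BTr := (BTr.n (BTr.n (BTr.n (BTr.b b3_0) (BTr.n (BTr.b b3_1) (BTr.b b3_2))) (BTr.n (BTr.n (BTr.b b3_3) (BTr.b b3_4)) (BTr.n (BTr.b b3_5) (BTr.b b3_6)))) (BTr.n (BTr.n (BTr.b b3_7) (BTr.n (BTr.b b3_8) (BTr.b b3_9))) (BTr.n (BTr.n (BTr.b b3_10) (BTr.b b3_11)) (BTr.n (BTr.b b3_12) (BTr.b b3_13)))))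
namespace T3
def l0 : Tr := Tr.L (Pth.l (Pth.l (Pth.l Pth.z)))
def l1 : Tr := Tr.L (Pth.l (Pth.l (Pth.r (Pth.l Pth.z))))
def l2 : Tr := Tr.L (Pth.l (Pth.l (Pth.r (Pth.r Pth.z))))
def l3 : Tr := Tr.L (Pth.l (Pth.r (Pth.l (Pth.l Pth.z))))
def l4 : Tr := Tr.L (Pth.l (Pth.r (Pth.l (Pth.r Pth.z))))
def l5 : Tr := Tr.L (Pth.l (Pth.r (Pth.r (Pth.l Pth.z))))
def l6 : Tr := Tr.L (Pth.l (Pth.r (Pth.r (Pth.r Pth.z))))
def l7 : Tr := Tr.L (Pth.r (Pth.l (Pth.l Pth.z)))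
def l8 : Tr := Tr.L (Pth.r (Pth.l (Pth.r (Pth.l Pth.z))))
def l9 : Tr := Tr.L (Pth.r (Pth.l (Pth.r (Pth.r Pth.z))))
def l10 : Tr := Tr.L (Pth.r (Pth.r (Pth.l (Pth.l Pth.z))))
def l11 : Tr := Tr.L (Pth.r (Pth.r (Pth.l (Pth.r Pth.z))))
def l12 : Tr := Tr.L (Pth.r (Pth.r (Pth.r (Pth.l Pth.z))))
def l13 : Tr := Tr.L (Pth.r (Pth.r (Pth.r (Pth.r Pth.z))))
end T3
def b4_0 : Bx := Bx.mk (St.mk (I.pos (nat_lit 137936896) (nat_lit 217464832)) (I.mix (nat_lit 2654208) (nat_lit 88752128)) (I.mix (nat_lit 3276800) (nat_lit 105398272)) (I.pos (nat_lit 368082944) (nat_lit 457850880)) (I.mix (nat_lit 143441920) (nat_lit 88915968)) (I.mix (nat_lit 97615872) (nat_lit 81969152)) (I.mix (nat_lit 120160256) (nat_lit 120094720)))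
  false (nat_lit 125205976)
def b4_1 : Bx := Bx.mk (St.mk (I.pos (nat_lit 23527424) (nat_lit 124895232)) (I.neg (nat_lit 4931584) (nat_lit 91537408)) (I.mix (nat_lit 68976640) (nat_lit 14598144)) (I.pos (nat_lit 271777792) (nat_lit 334331904)) (I.mix (nat_lit 117489664) (nat_lit 78512128)) (I.mix (nat_lit 82493440) (nat_lit 80805888)) (I.mix (nat_lit 86278144) (nat_lit 69091328)))
  false (nat_lit 73021200)
def b4_2 : Bx := Bx.mk (St.mk (I.pos (nat_lit 92127232) (nat_lit 185417728)) (I.mix (nat_lit 41156608) (nat_lit 86097920)) (I.mix (nat_lit 20283392) (nat_lit 110313472)) (I.pos (nat_lit 304463872) (nat_lit 420315136)) (I.mix (nat_lit 184516608) (nat_lit 84312064)) (I.mix (nat_lit 150765568) (nat_lit 119816192)) (I.mix (nat_lit 158056448) (nat_lit 149602304)))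
  false (nat_lit 123762303)
def b4_3 : Bx := Bx.mk (St.mk (I.neg (nat_lit 23511040) (nat_lit 130498560)) (I.pos (nat_lit 819200) (nat_lit 91537408)) (I.mix (nat_lit 68976640) (nat_lit 19611648)) (I.pos (nat_lit 271761408) (nat_lit 339116032)) (I.mix (nat_lit 78512128) (nat_lit 117489664)) (I.mix (nat_lit 80805888) (nat_lit 82493440)) (I.mix (nat_lit 86278144) (nat_lit 69058560)))
  true (nat_lit 9336279)
def b4_4 : Bx := Bx.mk (St.mk (I.mix (nat_lit 58900480) (nat_lit 16400384)) (I.mix (nat_lit 15122432) (nat_lit 88735744)) (I.neg (nat_lit 32980992) (nat_lit 57655296)) (I.pos (nat_lit 265191424) (nat_lit 296828928)) (I.mix (nat_lit 64225280) (nat_lit 117637120)) (I.mix (nat_lit 93782016) (nat_lit 76562432)) (I.mix (nat_lit 48316416) (nat_lit 35684352)))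
  true (nat_lit 0)
def b4_5 : Bx := Bx.mk (St.mk (I.pos (nat_lit 15335424) (nat_lit 58900480)) (I.neg (nat_lit 34570240) (nat_lit 88735744)) (I.neg (nat_lit 33783808) (nat_lit 57655296)) (I.pos (nat_lit 271253504) (nat_lit 296828928)) (I.mix (nat_lit 117637120) (nat_lit 64225280)) (I.mix (nat_lit 76562432) (nat_lit 87375872)) (I.mix (nat_lit 48381952) (nat_lit 35684352)))
  false (nat_lit 46077913)
def b4_6 : Bx := Bx.mk (St.mk (I.pos (nat_lit 176029696) (nat_lit 294404096)) (I.mix (nat_lit 35536896) (nat_lit 61620224)) (I.mix (nat_lit 147193856) (nat_lit 45694976)) (I.pos (nat_lit 406208512) (nat_lit 595394560)) (I.mix (nat_lit 105840640) (nat_lit 91291648)) (I.mix (nat_lit 98353152) (nat_lit 79478784)) (I.mix (nat_lit 175620096) (nat_lit 147292160)))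
  false (nat_lit 127088809)
def b4_7 : Bx := Bx.mk (St.mk (I.mix (nat_lit 16400384) (nat_lit 47333376)) (I.mix (nat_lit 48726016) (nat_lit 16089088)) (I.neg (nat_lit 33259520) (nat_lit 45105152)) (I.pos (nat_lit 265420800) (nat_lit 282951680)) (I.mix (nat_lit 56721408) (nat_lit 47890432)) (I.mix (nat_lit 39321600) (nat_lit 42024960)) (I.mix (nat_lit 13942784) (nat_lit 14303232)))
  false (nat_lit 0)
def b4_8 : Bx := Bx.mk (St.mk (I.pos (nat_lit 151126016) (nat_lit 207568896)) (I.pos (nat_lit 33439744) (nat_lit 87408640)) (I.pos (nat_lit 23101440) (nat_lit 99663872)) (I.pos (nat_lit 391217152) (nat_lit 448331776)) (I.mix (nat_lit 127729664) (nat_lit 102744064)) (I.mix (nat_lit 106315776) (nat_lit 78921728)) (I.mix (nat_lit 160497664) (nat_lit 109412352)))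
  false (nat_lit 110468420)
def b4_9 : Bx := Bx.mk (St.mk (I.pos (nat_lit 16809984) (nat_lit 49856512)) (I.neg (nat_lit 22822912) (nat_lit 74940416)) (I.neg (nat_lit 34504704) (nat_lit 55017472)) (I.pos (nat_lit 270811136) (nat_lit 289685504)) (I.mix (nat_lit 109903872) (nat_lit 53084160)) (I.mix (nat_lit 50757632) (nat_lit 93782016)) (I.mix (nat_lit 32538624) (nat_lit 26247168)))
  false (nat_lit 0)
def t4 : BTr := (BTr.n (BTr.n (BTr.n (BTr.b b4_0) (BTr.b b4_1)) (BTr.n (BTr.b b4_2) (BTr.n (BTr.b b4_3) (BTr.b b4_4)))) (BTr.n (BTr.n (BTr.b b4_5) (BTr.b b4_6)) (BTr.n (BTr.b b4_7) (BTr.n (BTr.b b4_8) (BTr.b b4_9)))))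
namespace T4
def l0 : Tr := Tr.L (Pth.l (Pth.l (Pth.l Pth.z)))
def l1 : Tr := Tr.L (Pth.l (Pth.l (Pth.r Pth.z)))
def l2 : Tr := Tr.L (Pth.l (Pth.r (Pth.l Pth.z)))
def l3 : Tr := Tr.L (Pth.l (Pth.r (Pth.r (Pth.l Pth.z))))
def l4 : Tr := Tr.L (Pth.l (Pth.r (Pth.r (Pth.r Pth.z))))
def l5 : Tr := Tr.L (Pth.r (Pth.l (Pth.l Pth.z)))
def l6 : Tr := Tr.L (Pth.r (Pth.l (Pth.r Pth.z)))
def l7 : Tr := Tr.L (Pth.r (Pth.r (Pth.l Pth.z)))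
def l8 : Tr := Tr.L (Pth.r (Pth.r (Pth.r (Pth.l Pth.z))))
def l9 : Tr := Tr.L (Pth.r (Pth.r (Pth.r (Pth.r Pth.z))))
end T4
def b5_0 : Bx := Bx.mk (St.mk (I.pos (nat_lit 135397376) (nat_lit 226951168)) (I.mix (nat_lit 1720320) (nat_lit 58589184)) (I.mix (nat_lit 3375104) (nat_lit 119980032)) (I.pos (nat_lit 182894592) (nat_lit 276185088)) (I.mix (nat_lit 156516352) (nat_lit 101466112)) (I.mix (nat_lit 116047872) (nat_lit 110297088)) (I.mix (nat_lit 150847488) (nat_lit 135577600)))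
  false (nat_lit 59323648)
def b5_1 : Bx := Bx.mk (St.mk (I.pos (nat_lit 98140160) (nat_lit 159481856)) (I.neg (nat_lit 8830976) (nat_lit 62128128)) (I.mix (nat_lit 35520512) (nat_lit 22200320)) (I.pos (nat_lit 136511488) (nat_lit 185696256)) (I.mix (nat_lit 73269248) (nat_lit 65552384)) (I.mix (nat_lit 52166656) (nat_lit 63389696)) (I.mix (nat_lit 43761664) (nat_lit 56541184)))
  false (nat_lit 76528644)
def b5_2 : Bx := Bx.mk (St.mk (I.mix (nat_lit 27607040) (nat_lit 47333376)) (I.mix (nat_lit 34357248) (nat_lit 6193152)) (I.pos (nat_lit 999424) (nat_lit 15548416)) (I.pos (nat_lit 83181568) (nat_lit 101072896)) (I.mix (nat_lit 30179328) (nat_lit 48283648)) (I.mix (nat_lit 25755648) (nat_lit 37961728)) (I.mix (nat_lit 8994816) (nat_lit 14630912)))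
  false (nat_lit 0)
def b5_3 : Bx := Bx.mk (St.mk (I.pos (nat_lit 145473536) (nat_lit 198819840)) (I.mix (nat_lit 6717440) (nat_lit 53870592)) (I.pos (nat_lit 34127872) (nat_lit 106348544)) (I.pos (nat_lit 171311104) (nat_lit 236191744)) (I.mix (nat_lit 144392192) (nat_lit 50446336)) (I.mix (nat_lit 122355712) (nat_lit 67567616)) (I.mix (nat_lit 125435904) (nat_lit 55705600)))
  false (nat_lit 30589354)
def b5_4 : Bx := Bx.mk (St.mk (I.mix (nat_lit 47398912) (nat_lit 69074944)) (I.mix (nat_lit 9682944) (nat_lit 36700160)) (I.pos (nat_lit 671744) (nat_lit 27328512)) (I.pos (nat_lit 82886656) (nat_lit 109232128)) (I.mix (nat_lit 65011712) (nat_lit 37715968)) (I.mix (nat_lit 53035008) (nat_lit 33570816)) (I.mix (nat_lit 21037056) (nat_lit 20758528)))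
  false (nat_lit 0)
def b5_5 : Bx := Bx.mk (St.mk (I.pos (nat_lit 129122304) (nat_lit 159531008)) (I.neg (nat_lit 5275648) (nat_lit 36339712)) (I.mix (nat_lit 3489792) (nat_lit 28655616)) (I.pos (nat_lit 156778496) (nat_lit 184008704)) (I.mix (nat_lit 60145664) (nat_lit 48840704)) (I.mix (nat_lit 34668544) (nat_lit 47759360)) (I.mix (nat_lit 36126720) (nat_lit 41009152)))
  false (nat_lit 6997087)
def b5_6 : Bx := Bx.mk (St.mk (I.mix (nat_lit 60702720) (nat_lit 47595520)) (I.mix (nat_lit 16859136) (nat_lit 12091392)) (I.pos (nat_lit 6094848) (nat_lit 18382848)) (I.pos (nat_lit 84180992) (nat_lit 103383040)) (I.mix (nat_lit 35241984) (nat_lit 28229632)) (I.mix (nat_lit 24969216) (nat_lit 26017792)) (I.mix (nat_lit 12042240) (nat_lit 11370496)))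
  false (nat_lit 0)
def b5_7 : Bx := Bx.mk (St.mk (I.pos (nat_lit 144179200) (nat_lit 172687360)) (I.neg (nat_lit 10715136) (nat_lit 35962880)) (I.mix (nat_lit 4079616) (nat_lit 24182784)) (I.pos (nat_lit 171278336) (nat_lit 201359360)) (I.mix (nat_lit 44662784) (nat_lit 50724864)) (I.mix (nat_lit 47677440) (nat_lit 37027840)) (I.mix (nat_lit 46137344) (nat_lit 38256640)))
  false (nat_lit 0)
def b5_8 : Bx := Bx.mk (St.mk (I.pos (nat_lit 145653760) (nat_lit 188940288)) (I.mix (nat_lit 37257216) (nat_lit 27721728)) (I.mix (nat_lit 3211264) (nat_lit 76218368)) (I.pos (nat_lit 170786816) (nat_lit 219725824)) (I.mix (nat_lit 140574720) (nat_lit 77053952)) (I.mix (nat_lit 134381568) (nat_lit 77725696)) (I.mix (nat_lit 134807552) (nat_lit 69189632)))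
  false (nat_lit 79404376)
def b5_9 : Bx := Bx.mk (St.mk (I.mix (nat_lit 40681472) (nat_lit 99827712)) (I.mix (nat_lit 10420224) (nat_lit 39632896)) (I.mix (nat_lit 491520) (nat_lit 33996800)) (I.pos (nat_lit 75530240) (nat_lit 126828544)) (I.mix (nat_lit 66011136) (nat_lit 54460416)) (I.mix (nat_lit 56197120) (nat_lit 46481408)) (I.mix (nat_lit 37306368) (nat_lit 30359552)))
  false (nat_lit 11710512)
def b5_10 : Bx := Bx.mk (St.mk (I.pos (nat_lit 77922304) (nat_lit 127762432)) (I.mix (nat_lit 62668800) (nat_lit 11173888)) (I.mix (nat_lit 34750464) (nat_lit 15302656)) (I.pos (nat_lit 113541120) (nat_lit 155860992)) (I.mix (nat_lit 84541440) (nat_lit 47120384)) (I.mix (nat_lit 49528832) (nat_lit 74366976)) (I.mix (nat_lit 36421632) (nat_lit 46350336)))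
  false (nat_lit 51631139)
def b5_11 : Bx := Bx.mk (St.mk (I.mix (nat_lit 49512448) (nat_lit 38928384)) (I.mix (nat_lit 35061760) (nat_lit 8536064)) (I.pos (nat_lit 1654784) (nat_lit 18300928)) (I.pos (nat_lit 81575936) (nat_lit 102187008)) (I.mix (nat_lit 42041344) (nat_lit 43057152)) (I.mix (nat_lit 33439744) (nat_lit 36388864)) (I.mix (nat_lit 15728640) (nat_lit 14024704)))
  false (nat_lit 0)
def b5_12 : Bx := Bx.mk (St.mk (I.pos (nat_lit 176259072) (nat_lit 287162368)) (I.mix (nat_lit 30883840) (nat_lit 46301184)) (I.mix (nat_lit 36749312) (nat_lit 106463232)) (I.pos (nat_lit 227426304) (nat_lit 403472384)) (I.mix (nat_lit 108806144) (nat_lit 77938688)) (I.mix (nat_lit 79511552) (nat_lit 71680000)) (I.mix (nat_lit 136708096) (nat_lit 119373824)))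
  false (nat_lit 104939715)
def b5_13 : Bx := Bx.mk (St.mk (I.pos (nat_lit 163037184) (nat_lit 223494144)) (I.pos (nat_lit 7421952) (nat_lit 56410112)) (I.pos (nat_lit 37093376) (nat_lit 117555200)) (I.pos (nat_lit 214171648) (nat_lit 269385728)) (I.mix (nat_lit 136429568) (nat_lit 97075200)) (I.mix (nat_lit 117686272) (nat_lit 87228416)) (I.mix (nat_lit 172146688) (nat_lit 104939520)))
  false (nat_lit 65971259)
def t5 : BTr := (BTr.n (BTr.n (BTr.n (BTr.b b5_0) (BTr.n (BTr.b b5_1) (BTr.b b5_2))) (BTr.n (BTr.n (BTr.b b5_3) (BTr.b b5_4)) (BTr.n (BTr.b b5_5) (BTr.b b5_6)))) (BTr.n (BTr.n (BTr.b b5_7) (BTr.n (BTr.b b5_8) (BTr.b b5_9))) (BTr.n (BTr.n (BTr.b b5_10) (BTr.b b5_11)) (BTr.n (BTr.b b5_12) (BTr.b b5_13)))))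
namespace T5
def l0 : Tr := Tr.L (Pth.l (Pth.l (Pth.l Pth.z)))
def l1 : Tr := Tr.L (Pth.l (Pth.l (Pth.r (Pth.l Pth.z))))
def l2 : Tr := Tr.L (Pth.l (Pth.l (Pth.r (Pth.r Pth.z))))
def l3 : Tr := Tr.L (Pth.l (Pth.r (Pth.l (Pth.l Pth.z))))
def l4 : Tr := Tr.L (Pth.l (Pth.r (Pth.l (Pth.r Pth.z))))
def l5 : Tr := Tr.L (Pth.l (Pth.r (Pth.r (Pth.l Pth.z))))
def l6 : Tr := Tr.L (Pth.l (Pth.r (Pth.r (Pth.r Pth.z))))
def l7 : Tr := Tr.L (Pth.r (Pth.l (Pth.l Pth.z)))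
def l8 : Tr := Tr.L (Pth.r (Pth.l (Pth.r (Pth.l Pth.z))))
def l9 : Tr := Tr.L (Pth.r (Pth.l (Pth.r (Pth.r Pth.z))))
def l10 : Tr := Tr.L (Pth.r (Pth.r (Pth.l (Pth.l Pth.z))))
def l11 : Tr := Tr.L (Pth.r (Pth.r (Pth.l (Pth.r Pth.z))))
def l12 : Tr := Tr.L (Pth.r (Pth.r (Pth.r (Pth.l Pth.z))))
def l13 : Tr := Tr.L (Pth.r (Pth.r (Pth.r (Pth.r Pth.z))))
end T5
theorem bx0_0 : BoxOK sI cl4 cl6 cl7 t2 t4 b0_0 :=
  box_mk (TrL.c (I.pos (nat_lit 0) (nat_lit 0)) (xa (xb T2.l0 (xa (xb T2.l0 (xa T2.l0 T2.l0)) (xb T2.l0 (xa T2.l0 T2.l0)))) (xb T2.l0 (xa (xb T2.l0 (xa T2.l0 T2.l0)) (xb T2.l0 (xa T2.l0 T2.l0)))))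
  (TrL.c (I.pos (nat_lit 0) (nat_lit 0)) (xa T4.l1 T4.l1)
  (TrL.c (I.pos (nat_lit 0) (nat_lit 0)) T2.l1
  (TrL.c (I.pos (nat_lit 0) (nat_lit 0)) T4.l2
  (TrL.c (I.pos (nat_lit 0) (nat_lit 0)) (xa (xb T2.l2 T2.l2) T2.l2)
  (TrL.c (I.pos (nat_lit 0) (nat_lit 0)) (xa T4.l3 T4.l3)
  TrL.n)))))) (by decide +kernel)
theorem bx0_1 : BoxOK sI cl4 cl6 cl7 t2 t4 b0_1 :=
  box_mk (TrL.c (I.pos (nat_lit 0) (nat_lit 0)) (xa (xa (xb T2.l6 (xa T2.l6 T2.l6)) (xb T2.l6 T2.l6)) (xa T2.l6 (xb T2.l6 (xa T2.l6 T2.l6))))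
  (TrL.c (I.pos (nat_lit 0) (nat_lit 0)) (xa T4.l1 T4.l1)
  (TrL.c (I.pos (nat_lit 0) (nat_lit 0)) (xa T2.l1 T2.l1)
  (TrL.c (I.pos (nat_lit 0) (nat_lit 0)) (xa T4.l2 T4.l2)
  (TrL.c (I.pos (nat_lit 0) (nat_lit 0)) T2.l7
  (TrL.c (I.pos (nat_lit 0) (nat_lit 0)) T4.l3
  TrL.n)))))) (by decide +kernel)
theorem bx0_2 : BoxOK sI cl4 cl6 cl7 t2 t4 b0_2 :=
  box_mk (TrL.c (I.pos (nat_lit 0) (nat_lit 0)) (xb T2.l6 (xa T2.l6 T2.l6))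
  (TrL.c (I.pos (nat_lit 0) (nat_lit 0)) T4.l1
  (TrL.c (I.pos (nat_lit 0) (nat_lit 0)) T2.l1
  (TrL.c (I.pos (nat_lit 0) (nat_lit 0)) T4.l2
  (TrL.c (I.pos (nat_lit 0) (nat_lit 0)) T2.l7
  (TrL.c (I.pos (nat_lit 0) (nat_lit 0)) T4.l3
  TrL.n)))))) (by decide +kernel)
theorem bx0_3 : BoxOK sI cl4 cl6 cl7 t2 t4 b0_3 :=
  box_mk (TrL.c (I.pos (nat_lit 0) (nat_lit 0)) (xa (xb (xa T2.l6 T2.l6) T2.l6) T2.l6)
  (TrL.c (I.pos (nat_lit 0) (nat_lit 0)) T4.l2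
  (TrL.c (I.pos (nat_lit 0) (nat_lit 0)) T2.l7
  (TrL.c (I.pos (nat_lit 0) (nat_lit 0)) T4.l1
  (TrL.c (I.pos (nat_lit 0) (nat_lit 0)) T2.l7
  (TrL.c (I.pos (nat_lit 0) (nat_lit 0)) T4.l3
  TrL.n)))))) (by decide +kernel)
theorem bx0_4 : BoxOK sI cl4 cl6 cl7 t2 t4 b0_4 :=
  box_mk (TrL.c (I.pos (nat_lit 0) (nat_lit 0)) T2.l6
  (TrL.c (I.pos (nat_lit 0) (nat_lit 0)) T4.l1
  (TrL.c (I.pos (nat_lit 0) (nat_lit 0)) T2.l1
  (TrL.c (I.pos (nat_lit 0) (nat_lit 0)) T4.l2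
  (TrL.c (I.pos (nat_lit 0) (nat_lit 0)) T2.l7
  (TrL.c (I.pos (nat_lit 0) (nat_lit 0)) T4.l3
  TrL.n)))))) (by decide +kernel)
theorem bx0_5 : BoxOK sI cl4 cl6 cl7 t2 t4 b0_5 :=
  box_mk (TrL.c (I.pos (nat_lit 0) (nat_lit 0)) (xa (xb (xa T2.l6 T2.l6) T2.l6) T2.l6)
  (TrL.c (I.pos (nat_lit 0) (nat_lit 0)) T4.l2
  (TrL.c (I.pos (nat_lit 0) (nat_lit 0)) T2.l7
  (TrL.c (I.pos (nat_lit 0) (nat_lit 0)) T4.l1
  (TrL.c (I.pos (nat_lit 0) (nat_lit 0)) T2.l7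
  (TrL.c (I.pos (nat_lit 0) (nat_lit 0)) T4.l3
  TrL.n)))))) (by decide +kernel)
theorem bx0_6 : BoxOK sI cl4 cl6 cl7 t2 t4 b0_6 :=
  box_mk (TrL.c (I.pos (nat_lit 0) (nat_lit 0)) (xa T2.l0 T2.l4)
  (TrL.c (I.pos (nat_lit 0) (nat_lit 0)) (xa T4.l1 T4.l1)
  (TrL.c (I.pos (nat_lit 0) (nat_lit 0)) T2.l5
  (TrL.c (I.pos (nat_lit 0) (nat_lit 0)) (xa T4.l2 (xb T4.l2 T4.l2))
  (TrL.c (I.pos (nat_lit 0) (nat_lit 0)) T2.l3
  (TrL.c (I.pos (nat_lit 0) (nat_lit 0)) (xa T4.l3 T4.l3)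
  TrL.n)))))) (by decide +kernel)
theorem bx0_7 : BoxOK sI cl4 cl6 cl7 t2 t4 b0_7 :=
  box_mk (TrL.c (I.pos (nat_lit 0) (nat_lit 0)) (xb (xa (xb (xa (xb T2.l0 T2.l0) T2.l4) (xa (xb T2.l0 (xa T2.l0 T2.l0)) T2.l4)) T2.l4) (xa (xb (xa (xb (xa T2.l0 T2.l0) (xa T2.l0 T2.l0)) (xb (xa T2.l0 T2.l0) (xs T2.l0 T2.l4))) (xa (xb (xs T2.l0 (xa T2.l0 T2.l0)) (xs (xa T2.l0 T2.l0) (xa (xc T2.l0 T2.l0) (xc T2.l0 T2.l0)))) (xs (xb T2.l0 T2.l0) (xb T2.l4 (xa (xc T2.l0 T2.l0) T2.l4))))) (xb (xa T2.l4 T2.l4) (xa (xs (xb T2.l0 (xa T2.l0 T2.l0)) (xb T2.l4 (xa T2.l4 T2.l4))) (xs (xb T2.l4 (xa T2.l4 T2.l4)) (xb T2.l4 (xa T2.l4 T2.l4)))))))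
  (TrL.c (I.pos (nat_lit 0) (nat_lit 0)) (xb (xa T4.l1 (xb T4.l1 T4.l1)) (xa (xb T4.l1 T4.l1) (xb T4.l1 T4.l1)))
  (TrL.c (I.pos (nat_lit 0) (nat_lit 0)) (xc (xb T2.l5 (xa T2.l1 T2.l5)) (xb T2.l5 (xa T2.l1 T2.l5)))
  (TrL.c (I.pos (nat_lit 0) (nat_lit 0)) (xb (xa (xb T4.l2 T4.l2) (xb (xa T4.l2 T4.l2) T4.l2)) (xa T4.l2 (xb (xa T4.l2 T4.l2) (xa T4.l2 (xc T4.l2 T4.l2)))))
  (TrL.c (I.pos (nat_lit 0) (nat_lit 0)) (xa (xb T2.l2 T2.l2) (xb T2.l3 (xc T2.l2 T2.l3)))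
  (TrL.c (I.pos (nat_lit 0) (nat_lit 0)) (xb (xa T4.l3 (xb T4.l3 T4.l3)) (xa (xb T4.l3 T4.l3) (xb T4.l3 T4.l3)))
  TrL.n)))))) (by decide +kernel)
theorem bx0_8 : BoxOK sI cl4 cl6 cl7 t2 t4 b0_8 :=
  box_mk (TrL.c (I.pos (nat_lit 0) (nat_lit 0)) (xa T2.l6 (xb T2.l6 T2.l6))
  (TrL.c (I.pos (nat_lit 0) (nat_lit 0)) T4.l1
  (TrL.c (I.pos (nat_lit 0) (nat_lit 0)) T2.l1
  (TrL.c (I.pos (nat_lit 0) (nat_lit 0)) T4.l2
  (TrL.c (I.pos (nat_lit 0) (nat_lit 0)) (xa T2.l7 T2.l3)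
  (TrL.c (I.pos (nat_lit 0) (nat_lit 0)) T4.l3
  TrL.n)))))) (by decide +kernel)
theorem bx0_9 : BoxOK sI cl4 cl6 cl7 t2 t4 b0_9 :=
  box_mk (TrL.c (I.pos (nat_lit 0) (nat_lit 0)) (xa (xb (xa T2.l6 T2.l6) T2.l6) T2.l6)
  (TrL.c (I.pos (nat_lit 0) (nat_lit 0)) (xa T4.l2 T4.l1)
  (TrL.c (I.pos (nat_lit 0) (nat_lit 0)) T2.l1
  (TrL.c (I.pos (nat_lit 0) (nat_lit 0)) (xa T4.l1 T4.l2)
  (TrL.c (I.pos (nat_lit 0) (nat_lit 0)) T2.l7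
  (TrL.c (I.pos (nat_lit 0) (nat_lit 0)) T4.l3
  TrL.n)))))) (by decide +kernel)
theorem bx0_10 : BoxOK sI cl4 cl6 cl7 t2 t4 b0_10 :=
  box_mk (TrL.c (I.pos (nat_lit 0) (nat_lit 0)) (xb (xa (xb T2.l8 (xa T2.l8 T2.l8)) (xb (xa T2.l8 T2.l4) T2.l8)) (xa (xb (xa T2.l8 T2.l8) (xa T2.l8 T2.l8)) (xb (xa T2.l8 T2.l8) (xa T2.l8 T2.l8))))
  (TrL.c (I.pos (nat_lit 0) (nat_lit 0)) (xb (xa T4.l1 T4.l1) (xa T4.l1 T4.l1))
  (TrL.c (I.pos (nat_lit 0) (nat_lit 0)) (xb T2.l1 (xa T2.l1 T2.l1))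
  (TrL.c (I.pos (nat_lit 0) (nat_lit 0)) (xb T4.l2 (xa T4.l2 T4.l2))
  (TrL.c (I.pos (nat_lit 0) (nat_lit 0)) (xa T2.l9 (xb T2.l9 T2.l9))
  (TrL.c (I.pos (nat_lit 0) (nat_lit 0)) (xb (xa T4.l3 T4.l3) (xa T4.l3 T4.l3))
  TrL.n)))))) (by decide +kernel)
theorem bx0_11 : BoxOK sI cl4 cl6 cl7 t2 t4 b0_11 :=
  box_mk (TrL.c (I.pos (nat_lit 0) (nat_lit 0)) (xa (xa (xb (xa T2.l6 T2.l6) (xa T2.l6 T2.l6)) (xb T2.l6 (xa T2.l6 T2.l6))) (xa (xb T2.l6 (xa T2.l6 T2.l6)) (xb T2.l6 T2.l6)))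
  (TrL.c (I.pos (nat_lit 0) (nat_lit 0)) (xa T4.l2 T4.l1)
  (TrL.c (I.pos (nat_lit 0) (nat_lit 0)) (xa T2.l7 T2.l1)
  (TrL.c (I.pos (nat_lit 0) (nat_lit 0)) (xa T4.l1 T4.l2)
  (TrL.c (I.pos (nat_lit 0) (nat_lit 0)) (xa T2.l7 T2.l7)
  (TrL.c (I.pos (nat_lit 0) (nat_lit 0)) (xa T4.l3 T4.l3)
  TrL.n)))))) (by decide +kernel)
theorem bx0_12 : BoxOK sI cl4 cl6 cl7 t2 t4 b0_12 :=
  box_mk (TrL.c (I.pos (nat_lit 0) (nat_lit 0)) (xa (xb T2.l6 (xa T2.l8 T2.l8)) (xb T2.l8 T2.l8))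
  (TrL.c (I.pos (nat_lit 0) (nat_lit 0)) T4.l1
  (TrL.c (I.pos (nat_lit 0) (nat_lit 0)) T2.l1
  (TrL.c (I.pos (nat_lit 0) (nat_lit 0)) T4.l2
  (TrL.c (I.pos (nat_lit 0) (nat_lit 0)) (xa T2.l9 T2.l3)
  (TrL.c (I.pos (nat_lit 0) (nat_lit 0)) T4.l3
  TrL.n)))))) (by decide +kernel)
theorem bx0_13 : BoxOK sI cl4 cl6 cl7 t2 t4 b0_13 :=
  box_mk (TrL.c (I.pos (nat_lit 0) (nat_lit 0)) (xb (xa T2.l8 T2.l8) (xa T2.l8 T2.l8))
  (TrL.c (I.pos (nat_lit 0) (nat_lit 0)) T4.l1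
  (TrL.c (I.pos (nat_lit 0) (nat_lit 0)) T2.l1
  (TrL.c (I.pos (nat_lit 0) (nat_lit 0)) T4.l2
  (TrL.c (I.pos (nat_lit 0) (nat_lit 0)) T2.l3
  (TrL.c (I.pos (nat_lit 0) (nat_lit 0)) T4.l3
  TrL.n)))))) (by decide +kernel)
theorem sv0 : StarV sI cl4 cl6 cl7 t2 t4 t0 :=
  (bt_n (bt_n (bt_n (bt_b bx0_0) (bt_n (bt_b bx0_1) (bt_b bx0_2))) (bt_n (bt_n (bt_b bx0_3) (bt_b bx0_4)) (bt_n (bt_b bx0_5) (bt_b bx0_6)))) (bt_n (bt_n (bt_b bx0_7) (bt_n (bt_b bx0_8) (bt_b bx0_9))) (bt_n (bt_n (bt_b bx0_10) (bt_b bx0_11)) (bt_n (bt_b bx0_12) (bt_b bx0_13)))))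
def S0 : StarD := StarD.mk cl4 cl6 cl7 2 4 t0
theorem bx1_0 : BoxOK sI cl4 cl7 cl6 t4 t2 b1_0 :=
  box_mk (TrL.c (I.pos (nat_lit 0) (nat_lit 0)) (xa (xb (xa T4.l0 T4.l0) (xa (xb T4.l0 (xa T4.l0 T4.l0)) (xb T4.l0 (xa T4.l0 T4.l0)))) (xb (xa T4.l0 T4.l0) (xa (xb T4.l0 (xa T4.l0 T4.l0)) (xb T4.l0 (xa T4.l0 T4.l0)))))
  (TrL.c (I.pos (nat_lit 0) (nat_lit 0)) (xa T2.l3 (xb T2.l3 (xa T2.l3 T2.l3)))
  (TrL.c (I.pos (nat_lit 0) (nat_lit 0)) T4.l4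
  (TrL.c (I.pos (nat_lit 0) (nat_lit 0)) (xa T2.l4 T2.l4)
  (TrL.c (I.pos (nat_lit 0) (nat_lit 0)) (xa (xb T4.l5 T4.l5) T4.l5)
  (TrL.c (I.pos (nat_lit 0) (nat_lit 0)) (xa T2.l5 (xb T2.l5 (xa T2.l5 T2.l5)))
  TrL.n)))))) (by decide +kernel)
theorem bx1_1 : BoxOK sI cl4 cl7 cl6 t4 t2 b1_1 :=
  box_mk (TrL.c (I.pos (nat_lit 0) (nat_lit 0)) (xa (xa (xb T4.l6 T4.l6) T4.l6) (xa T4.l6 (xb T4.l6 (xa T4.l6 T4.l6))))
  (TrL.c (I.pos (nat_lit 0) (nat_lit 0)) (xa T2.l3 T2.l3)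
  (TrL.c (I.pos (nat_lit 0) (nat_lit 0)) T4.l4
  (TrL.c (I.pos (nat_lit 0) (nat_lit 0)) T2.l4
  (TrL.c (I.pos (nat_lit 0) (nat_lit 0)) T4.l7
  (TrL.c (I.pos (nat_lit 0) (nat_lit 0)) (xa T2.l5 T2.l5)
  TrL.n)))))) (by decide +kernel)
theorem bx1_2 : BoxOK sI cl4 cl7 cl6 t4 t2 b1_2 :=
  box_mk (TrL.c (I.pos (nat_lit 0) (nat_lit 0)) (xb T4.l6 T4.l6)
  (TrL.c (I.pos (nat_lit 0) (nat_lit 0)) T2.l3
  (TrL.c (I.pos (nat_lit 0) (nat_lit 0)) T4.l4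
  (TrL.c (I.pos (nat_lit 0) (nat_lit 0)) T2.l4
  (TrL.c (I.pos (nat_lit 0) (nat_lit 0)) T4.l7
  (TrL.c (I.pos (nat_lit 0) (nat_lit 0)) T2.l5
  TrL.n)))))) (by decide +kernel)
theorem bx1_3 : BoxOK sI cl4 cl7 cl6 t4 t2 b1_3 :=
  box_mk (TrL.c (I.pos (nat_lit 0) (nat_lit 0)) (xa (xa (xb T4.l6 T4.l6) T4.l6) T4.l6)
  (TrL.c (I.pos (nat_lit 0) (nat_lit 0)) (xa T2.l4 T2.l3)
  (TrL.c (I.pos (nat_lit 0) (nat_lit 0)) (xa T4.l7 T4.l4)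
  (TrL.c (I.pos (nat_lit 0) (nat_lit 0)) (xa T2.l3 T2.l4)
  (TrL.c (I.pos (nat_lit 0) (nat_lit 0)) (xa T4.l7 T4.l7)
  (TrL.c (I.pos (nat_lit 0) (nat_lit 0)) (xa T2.l5 T2.l5)
  TrL.n)))))) (by decide +kernel)
theorem bx1_4 : BoxOK sI cl4 cl7 cl6 t4 t2 b1_4 :=
  box_mk (TrL.c (I.pos (nat_lit 0) (nat_lit 0)) (xb (xa (xb (xa (xb T4.l0 T4.l0) T4.l2) (xa (xb T4.l0 (xa T4.l0 T4.l0)) (xb T4.l0 (xa T4.l0 T4.l0)))) (xb T4.l2 (xa T4.l2 T4.l2))) (xa (xb (xa (xb (xa T4.l0 T4.l0) (xa T4.l0 T4.l0)) (xb (xa T4.l0 T4.l0) (xs T4.l0 (xa T4.l0 T4.l0)))) (xa (xs (xb T4.l0 (xa T4.l0 T4.l0)) (xb (xa T4.l0 T4.l0) (xa (xc T4.l0 T4.l0) (xc T4.l0 T4.l0)))) (xs (xb T4.l0 T4.l0) (xb (xa T4.l0 T4.l2) (xa (xc T4.l0 T4.l0) T4.l2))))) (xa (xb (xs T4.l2 T4.l2) (xs (xb T4.l0 (xa T4.l0 T4.l0)) (xb T4.l2 (xa T4.l2 T4.l2)))) (xb T4.l2 (xs (xa T4.l2 T4.l2) (xa (xb T4.l2 T4.l2)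 (xb T4.l2 T4.l2)))))))
  (TrL.c (I.pos (nat_lit 0) (nat_lit 0)) (xa (xb T2.l3 (xb T2.l3 (xa T2.l3 T2.l3))) (xb (xb T2.l3 T2.l3) (xa (xb T2.l3 T2.l3) (xb T2.l3 T2.l3))))
  (TrL.c (I.pos (nat_lit 0) (nat_lit 0)) (xa (xb T4.l4 T4.l4) (xc (xb T4.l4 T4.l4) (xb T4.l4 (xs T4.l4 T4.l4))))
  (TrL.c (I.pos (nat_lit 0) (nat_lit 0)) (xb (xa (xb T2.l4 T2.l4) (xb (xa T2.l4 T2.l4) T2.l4)) (xa T2.l4 (xb (xa T2.l4 T2.l4) (xa T2.l4 (xc T2.l4 T2.l4)))))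
  (TrL.c (I.pos (nat_lit 0) (nat_lit 0)) (xa (xb T4.l5 T4.l5) (xc (xb T4.l5 T4.l5) (xb T4.l5 (xs T4.l5 T4.l5))))
  (TrL.c (I.pos (nat_lit 0) (nat_lit 0)) (xa (xb T2.l5 (xb T2.l5 (xa T2.l5 T2.l5))) (xb (xb T2.l5 T2.l5) (xa (xb T2.l5 T2.l5) (xb T2.l5 T2.l5))))
  TrL.n)))))) (by decide +kernel)
theorem bx1_5 : BoxOK sI cl4 cl7 cl6 t4 t2 b1_5 :=
  box_mk (TrL.c (I.pos (nat_lit 0) (nat_lit 0)) (xa (xa T4.l6 T4.l6) T4.l6)
  (TrL.c (I.pos (nat_lit 0) (nat_lit 0)) T2.l3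
  (TrL.c (I.pos (nat_lit 0) (nat_lit 0)) T4.l4
  (TrL.c (I.pos (nat_lit 0) (nat_lit 0)) T2.l4
  (TrL.c (I.pos (nat_lit 0) (nat_lit 0)) T4.l7
  (TrL.c (I.pos (nat_lit 0) (nat_lit 0)) T2.l5
  TrL.n)))))) (by decide +kernel)
theorem bx1_6 : BoxOK sI cl4 cl7 cl6 t4 t2 b1_6 :=
  box_mk (TrL.c (I.pos (nat_lit 0) (nat_lit 0)) T4.l6
  (TrL.c (I.pos (nat_lit 0) (nat_lit 0)) T2.l3
  (TrL.c (I.pos (nat_lit 0) (nat_lit 0)) T4.l4
  (TrL.c (I.pos (nat_lit 0) (nat_lit 0)) T2.l4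
  (TrL.c (I.pos (nat_lit 0) (nat_lit 0)) T4.l7
  (TrL.c (I.pos (nat_lit 0) (nat_lit 0)) T2.l5
  TrL.n)))))) (by decide +kernel)
theorem bx1_7 : BoxOK sI cl4 cl7 cl6 t4 t2 b1_7 :=
  box_mk (TrL.c (I.pos (nat_lit 0) (nat_lit 0)) (xa (xb T4.l0 T4.l0) T4.l2)
  (TrL.c (I.pos (nat_lit 0) (nat_lit 0)) (xa T2.l3 (xb T2.l3 T2.l3))
  (TrL.c (I.pos (nat_lit 0) (nat_lit 0)) T4.l3
  (TrL.c (I.pos (nat_lit 0) (nat_lit 0)) (xa T2.l4 (xb (xa T2.l4 T2.l4) T2.l4))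
  (TrL.c (I.pos (nat_lit 0) (nat_lit 0)) T4.l1
  (TrL.c (I.pos (nat_lit 0) (nat_lit 0)) (xa T2.l5 (xb T2.l5 T2.l5))
  TrL.n)))))) (by decide +kernel)
theorem bx1_8 : BoxOK sI cl4 cl7 cl6 t4 t2 b1_8 :=
  box_mk (TrL.c (I.pos (nat_lit 0) (nat_lit 0)) (xa (xb T4.l6 T4.l6) (xb (xa T4.l6 T4.l0) T4.l0))
  (TrL.c (I.pos (nat_lit 0) (nat_lit 0)) T2.l3
  (TrL.c (I.pos (nat_lit 0) (nat_lit 0)) T4.l4
  (TrL.c (I.pos (nat_lit 0) (nat_lit 0)) T2.l4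
  (TrL.c (I.pos (nat_lit 0) (nat_lit 0)) (xa T4.l7 T4.l7)
  (TrL.c (I.pos (nat_lit 0) (nat_lit 0)) T2.l5
  TrL.n)))))) (by decide +kernel)
theorem bx1_9 : BoxOK sI cl4 cl7 cl6 t4 t2 b1_9 :=
  box_mk (TrL.c (I.pos (nat_lit 0) (nat_lit 0)) (xa (xa (xb T4.l6 T4.l6) T4.l6) T4.l6)
  (TrL.c (I.pos (nat_lit 0) (nat_lit 0)) (xa T2.l4 T2.l3)
  (TrL.c (I.pos (nat_lit 0) (nat_lit 0)) (xa T4.l7 T4.l4)
  (TrL.c (I.pos (nat_lit 0) (nat_lit 0)) (xa T2.l3 T2.l4)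
  (TrL.c (I.pos (nat_lit 0) (nat_lit 0)) (xa T4.l7 T4.l7)
  (TrL.c (I.pos (nat_lit 0) (nat_lit 0)) (xa T2.l5 T2.l5)
  TrL.n)))))) (by decide +kernel)
theorem bx1_10 : BoxOK sI cl4 cl7 cl6 t4 t2 b1_10 :=
  box_mk (TrL.c (I.pos (nat_lit 0) (nat_lit 0)) (xb (xa (xb (xa T4.l8 T4.l8) (xa T4.l8 T4.l8)) (xb (xa T4.l8 T4.l2) (xa T4.l8 T4.l8))) (xa (xb (xa T4.l8 T4.l8) (xa (xb T4.l8 T4.l8) (xs T4.l8 T4.l8))) (xb (xa T4.l8 T4.l8) (xa (xs T4.l8 T4.l8) (xs T4.l8 T4.l8)))))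
  (TrL.c (I.pos (nat_lit 0) (nat_lit 0)) (xb (xa T2.l3 T2.l3) (xa T2.l3 T2.l3))
  (TrL.c (I.pos (nat_lit 0) (nat_lit 0)) (xb T4.l4 (xa T4.l4 T4.l4))
  (TrL.c (I.pos (nat_lit 0) (nat_lit 0)) (xb T2.l4 (xa T2.l4 (xb T2.l4 T2.l4)))
  (TrL.c (I.pos (nat_lit 0) (nat_lit 0)) (xb T4.l9 (xa T4.l9 T4.l9))
  (TrL.c (I.pos (nat_lit 0) (nat_lit 0)) (xb (xa T2.l5 T2.l5) (xa T2.l5 T2.l5))
  TrL.n)))))) (by decide +kernel)
theorem bx1_11 : BoxOK sI cl4 cl7 cl6 t4 t2 b1_11 :=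
  box_mk (TrL.c (I.pos (nat_lit 0) (nat_lit 0)) (xa (xa (xb (xa T4.l6 T4.l6) (xa T4.l6 T4.l6)) (xb T4.l6 (xa T4.l6 T4.l6))) (xa T4.l6 (xb T4.l6 (xa T4.l6 T4.l6))))
  (TrL.c (I.pos (nat_lit 0) (nat_lit 0)) (xa (xa T2.l4 T2.l3) T2.l3)
  (TrL.c (I.pos (nat_lit 0) (nat_lit 0)) (xa T4.l4 T4.l4)
  (TrL.c (I.pos (nat_lit 0) (nat_lit 0)) (xa (xa T2.l3 T2.l4) T2.l4)
  (TrL.c (I.pos (nat_lit 0) (nat_lit 0)) (xa T4.l7 T4.l7)
  (TrL.c (I.pos (nat_lit 0) (nat_lit 0)) (xa T2.l5 T2.l5)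
  TrL.n)))))) (by decide +kernel)
theorem bx1_12 : BoxOK sI cl4 cl7 cl6 t4 t2 b1_12 :=
  box_mk (TrL.c (I.pos (nat_lit 0) (nat_lit 0)) (xa T4.l0 T4.l0)
  (TrL.c (I.pos (nat_lit 0) (nat_lit 0)) T2.l3
  (TrL.c (I.pos (nat_lit 0) (nat_lit 0)) T4.l4
  (TrL.c (I.pos (nat_lit 0) (nat_lit 0)) T2.l4
  (TrL.c (I.pos (nat_lit 0) (nat_lit 0)) (xa T4.l9 T4.l1)
  (TrL.c (I.pos (nat_lit 0) (nat_lit 0)) T2.l5
  TrL.n)))))) (by decide +kernel)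
theorem bx1_13 : BoxOK sI cl4 cl7 cl6 t4 t2 b1_13 :=
  box_mk (TrL.c (I.pos (nat_lit 0) (nat_lit 0)) (xb (xa T4.l8 T4.l8) (xa T4.l8 T4.l8))
  (TrL.c (I.pos (nat_lit 0) (nat_lit 0)) T2.l3
  (TrL.c (I.pos (nat_lit 0) (nat_lit 0)) T4.l4
  (TrL.c (I.pos (nat_lit 0) (nat_lit 0)) T2.l4
  (TrL.c (I.pos (nat_lit 0) (nat_lit 0)) T4.l9
  (TrL.c (I.pos (nat_lit 0) (nat_lit 0)) T2.l5
  TrL.n)))))) (by decide +kernel)
theorem sv1 : StarV sI cl4 cl7 cl6 t4 t2 t1 :=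
  (bt_n (bt_n (bt_n (bt_b bx1_0) (bt_n (bt_b bx1_1) (bt_b bx1_2))) (bt_n (bt_n (bt_b bx1_3) (bt_b bx1_4)) (bt_n (bt_b bx1_5) (bt_b bx1_6)))) (bt_n (bt_n (bt_b bx1_7) (bt_n (bt_b bx1_8) (bt_b bx1_9))) (bt_n (bt_n (bt_b bx1_10) (bt_b bx1_11)) (bt_n (bt_b bx1_12) (bt_b bx1_13)))))
def S1 : StarD := StarD.mk cl4 cl7 cl6 4 2 t1
theorem bx2_0 : BoxOK sI cl6 cl4 cl7 t0 t5 b2_0 :=
  box_mk (TrL.c (I.pos (nat_lit 0) (nat_lit 0)) (xb (xa T0.l7 (xb T0.l0 T0.l0)) (xa (xb T0.l7 (xa T0.l7 T0.l7)) (xa (xb T0.l0 T0.l0) T0.l0)))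
  (TrL.c (I.pos (nat_lit 0) (nat_lit 0)) (xb T5.l1 T5.l1)
  (TrL.c (I.pos (nat_lit 0) (nat_lit 89480386)) T0.l1
  (TrL.c (I.pos (nat_lit 0) (nat_lit 41530880)) T5.l2
  (TrL.c (I.pos (nat_lit 0) (nat_lit 0)) (xb T5.l3 T5.l3)
  (TrL.c (I.pos (nat_lit 0) (nat_lit 0)) T0.l2
  (TrL.c (I.mix (nat_lit 41527258) (nat_lit 41530880)) T5.l4
  (TrL.c (I.mix (nat_lit 41527258) (nat_lit 4274)) T0.l3
  TrL.n)))))))) (by decide +kernel)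
theorem bx2_1 : BoxOK sI cl6 cl4 cl7 t0 t5 b2_1 :=
  box_mk (TrL.c (I.pos (nat_lit 0) (nat_lit 0)) T5.l5
  (TrL.c (I.pos (nat_lit 0) (nat_lit 0)) T0.l4
  (TrL.c (I.mix (nat_lit 41527258) (nat_lit 41530880)) T5.l6
  (TrL.c (I.mix (nat_lit 41527258) (nat_lit 4274)) T0.l5
  TrL.n)))) (by decide +kernel)
theorem bx2_2 : BoxOK sI cl6 cl4 cl7 t0 t5 b2_2 :=
  box_mk (TrL.c (I.pos (nat_lit 0) (nat_lit 0)) T0.l6
  (TrL.c (I.pos (nat_lit 0) (nat_lit 0)) T5.l1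
  (TrL.c (I.pos (nat_lit 0) (nat_lit 89480386)) T0.l1
  (TrL.c (I.pos (nat_lit 0) (nat_lit 41530880)) T5.l2
  (TrL.c (I.pos (nat_lit 0) (nat_lit 0)) T5.l7
  (TrL.c (I.pos (nat_lit 0) (nat_lit 0)) T0.l2
  (TrL.c (I.mix (nat_lit 41527258) (nat_lit 41530880)) T5.l4
  (TrL.c (I.mix (nat_lit 41527258) (nat_lit 4274)) T0.l3
  TrL.n)))))))) (by decide +kernel)
theorem bx2_3 : BoxOK sI cl6 cl4 cl7 t0 t5 b2_3 :=
  box_mk (TrL.c (I.pos (nat_lit 0) (nat_lit 0)) (xa (xb (xa T0.l7 T0.l7) (xa T0.l7 T0.l7)) T0.l7)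
  (TrL.c (I.pos (nat_lit 0) (nat_lit 0)) (xa T5.l1 T5.l1)
  (TrL.c (I.pos (nat_lit 0) (nat_lit 89480386)) T0.l1
  (TrL.c (I.pos (nat_lit 0) (nat_lit 41530880)) T5.l2
  (TrL.c (I.pos (nat_lit 0) (nat_lit 0)) (xa T5.l8 T5.l8)
  (TrL.c (I.pos (nat_lit 0) (nat_lit 0)) T0.l2
  (TrL.c (I.mix (nat_lit 41527258) (nat_lit 41530880)) T5.l4
  (TrL.c (I.mix (nat_lit 41527258) (nat_lit 4274)) T0.l3
  TrL.n)))))))) (by decide +kernel)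
theorem bx2_4 : BoxOK sI cl6 cl4 cl7 t0 t5 b2_4 :=
  box_mk (TrL.c (I.pos (nat_lit 0) (nat_lit 0)) (xb (xa (xb (xa T0.l7 T0.l7) (xa T0.l7 T0.l7)) (xb (xa T0.l7 T0.l7) T0.l7)) (xa (xb (xa T0.l7 T0.l7) (xa (xb T0.l7 T0.l7) T0.l7)) (xa (xb T0.l7 (xb T0.l7 T0.l7)) (xb T0.l7 (xb T0.l7 T0.l7)))))
  (TrL.c (I.pos (nat_lit 0) (nat_lit 0)) (xb T5.l1 (xa T5.l1 T5.l1))
  (TrL.c (I.pos (nat_lit 0) (nat_lit 89480386)) T0.l1
  (TrL.c (I.pos (nat_lit 0) (nat_lit 41530880)) T5.l2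
  (TrL.c (I.pos (nat_lit 0) (nat_lit 0)) (xb (xa T5.l8 T5.l8) (xa T5.l8 (xb T5.l3 (xs T5.l3 T5.l3))))
  (TrL.c (I.pos (nat_lit 0) (nat_lit 0)) (xb T0.l2 T0.l2)
  (TrL.c (I.mix (nat_lit 41527258) (nat_lit 41530880)) T5.l4
  (TrL.c (I.mix (nat_lit 41527258) (nat_lit 4274)) T0.l3
  TrL.n)))))))) (by decide +kernel)
theorem bx2_5 : BoxOK sI cl6 cl4 cl7 t0 t5 b2_5 :=
  box_mk (TrL.c (I.pos (nat_lit 0) (nat_lit 0)) (xa T5.l1 T5.l5)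
  (TrL.c (I.pos (nat_lit 0) (nat_lit 0)) T0.l1
  (TrL.c (I.mix (nat_lit 41527258) (nat_lit 41530880)) T5.l6
  (TrL.c (I.mix (nat_lit 41527258) (nat_lit 4274)) T0.l5
  TrL.n)))) (by decide +kernel)
theorem bx2_6 : BoxOK sI cl6 cl4 cl7 t0 t5 b2_6 :=
  box_mk (TrL.c (I.pos (nat_lit 0) (nat_lit 0)) (xa (xb (xa (xb T0.l0 T0.l7) T0.l10) (xa (xb T0.l7 T0.l7) (xb T0.l10 (xa T0.l10 T0.l0)))) (xb (xa T0.l10 T0.l10) (xa T0.l10 (xb T0.l0 T0.l10))))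
  (TrL.c (I.pos (nat_lit 0) (nat_lit 0)) (xa T5.l1 (xb T5.l10 T5.l10))
  (TrL.c (I.pos (nat_lit 0) (nat_lit 89480386)) (xR T0.l11 T0.l1)
  (TrL.c (I.pos (nat_lit 0) (nat_lit 41530880)) T5.l2
  (TrL.c (I.pos (nat_lit 0) (nat_lit 0)) (xa (xb (xa T5.l3 T5.l0) T5.l3) (xb (xa T5.l0 (xb T5.l0 T5.l3)) (xa T5.l3 (xb T5.l3 T5.l3))))
  (TrL.c (I.pos (nat_lit 0) (nat_lit 0)) (xa T0.l2 (xb T0.l2 T0.l2))
  (TrL.c (I.mix (nat_lit 41527258) (nat_lit 41530880)) (xR T5.l4 T5.l9)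
  (TrL.c (I.mix (nat_lit 41527258) (nat_lit 4274)) T0.l3
  TrL.n)))))))) (by decide +kernel)
theorem bx2_7 : BoxOK sI cl6 cl4 cl7 t0 t5 b2_7 :=
  box_mk (TrL.c (I.pos (nat_lit 0) (nat_lit 0)) (xb T0.l6 (xa T0.l6 T0.l6))
  (TrL.c (I.pos (nat_lit 0) (nat_lit 0)) T5.l1
  (TrL.c (I.pos (nat_lit 0) (nat_lit 89480386)) T0.l1
  (TrL.c (I.pos (nat_lit 0) (nat_lit 41530880)) T5.l2
  (TrL.c (I.pos (nat_lit 0) (nat_lit 0)) T5.l7
  (TrL.c (I.pos (nat_lit 0) (nat_lit 0)) T0.l2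
  (TrL.c (I.mix (nat_lit 41527258) (nat_lit 41530880)) T5.l4
  (TrL.c (I.mix (nat_lit 41527258) (nat_lit 4274)) T0.l3
  TrL.n)))))))) (by decide +kernel)
theorem bx2_8 : BoxOK sI cl6 cl4 cl7 t0 t5 b2_8 :=
  box_mk (TrL.c (I.pos (nat_lit 0) (nat_lit 0)) (xa (xb T0.l7 (xa T0.l7 T0.l7)) (xb T0.l0 (xa T0.l0 T0.l0)))
  (TrL.c (I.pos (nat_lit 0) (nat_lit 0)) T5.l1
  (TrL.c (I.pos (nat_lit 0) (nat_lit 89480386)) T0.l1
  (TrL.c (I.pos (nat_lit 0) (nat_lit 41530880)) T5.l2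
  (TrL.c (I.pos (nat_lit 0) (nat_lit 0)) T5.l3
  (TrL.c (I.pos (nat_lit 0) (nat_lit 0)) T0.l2
  (TrL.c (I.mix (nat_lit 41527258) (nat_lit 41530880)) T5.l4
  (TrL.c (I.mix (nat_lit 41527258) (nat_lit 4274)) T0.l3
  TrL.n)))))))) (by decide +kernel)
theorem bx2_9 : BoxOK sI cl6 cl4 cl7 t0 t5 b2_9 :=
  box_mk (TrL.c (I.pos (nat_lit 0) (nat_lit 0)) T0.l6
  (TrL.c (I.pos (nat_lit 0) (nat_lit 0)) T5.l1
  (TrL.c (I.pos (nat_lit 0) (nat_lit 89480386)) T0.l1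
  (TrL.c (I.pos (nat_lit 0) (nat_lit 41530880)) T5.l2
  (TrL.c (I.pos (nat_lit 0) (nat_lit 0)) T5.l7
  (TrL.c (I.pos (nat_lit 0) (nat_lit 0)) T0.l2
  (TrL.c (I.mix (nat_lit 41527258) (nat_lit 41530880)) T5.l4
  (TrL.c (I.mix (nat_lit 41527258) (nat_lit 4274)) T0.l3
  TrL.n)))))))) (by decide +kernel)
theorem sv2 : StarV sI cl6 cl4 cl7 t0 t5 t2 :=
  (bt_n (bt_n (bt_n (bt_b bx2_0) (bt_b bx2_1)) (bt_n (bt_b bx2_2) (bt_n (bt_b bx2_3) (bt_b bx2_4)))) (bt_n (bt_n (bt_b bx2_5) (bt_b bx2_6)) (bt_n (bt_b bx2_7) (bt_n (bt_b bx2_8) (bt_b bx2_9)))))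
def S2 : StarD := StarD.mk cl6 cl4 cl7 0 5 t2
theorem bx3_0 : BoxOK sI cl6 cl7 cl4 t5 t0 b3_0 :=
  box_mk (TrL.c (I.pos (nat_lit 0) (nat_lit 0)) (xa (xb (xa (xb (xa T5.l0 T5.l0) (xs T5.l0 T5.l0)) (xb (xa T5.l0 T5.l0) (xs T5.l0 (xa T5.l0 T5.l0)))) (xa (xb T5.l0 T5.l0) (xb (xs T5.l0 T5.l0) (xs T5.l0 T5.l0)))) (xa (xb (xb (xs T5.l0 (xa T5.l0 T5.l0)) (xs T5.l0 (xa T5.l0 (xb T5.l0 T5.l0)))) (xb (xs T5.l0 T5.l0) (xs T5.l0 (xa T5.l0 T5.l0)))) (xb (xb (xs T5.l0 (xa (xb T5.l0 T5.l0) (xb T5.l3 T5.l0))) (xs (xa T5.l0 T5.l0) (xa (xb (xs T5.l0 T5.l0) T5.l0) (xb (xs T5.l0 T5.l0) (xs T5.l0 T5.l0))))) (xb (xs T5.l0 (xa T5.l0 T5.l0)) (xs (xa (xb T5.l0 T5.l0) T5.l0) (xa (xb (xs T5.l0 T5.l0) (xs T5.l0 T5.l0)) (xb (xs T5.l0 (xa T5.l0 T5.l0)) (xs T5.l0 T5.l0))))))))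
  (TrL.c (I.pos (nat_lit 0) (nat_lit 0)) (xa (xb T0.l8 T0.l8) (xb T0.l8 T0.l8))
  (TrL.c (I.pos (nat_lit 0) (nat_lit 89480386)) (xR T5.l9 T5.l9)
  (TrL.c (I.pos (nat_lit 0) (nat_lit 41530880)) T0.l9
  (TrL.c (I.pos (nat_lit 0) (nat_lit 0)) (xa (xb T0.l10 T0.l10) (xb T0.l10 T0.l10))
  (TrL.c (I.pos (nat_lit 0) (nat_lit 0)) (xa T5.l10 T5.l10)
  (TrL.c (I.mix (nat_lit 41527258) (nat_lit 41530880)) T0.l11
  (TrL.c (I.mix (nat_lit 41527258) (nat_lit 4274)) T5.l11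
  TrL.n)))))))) (by decide +kernel)
theorem bx3_1 : BoxOK sI cl6 cl7 cl4 t5 t0 b3_1 :=
  box_mk (TrL.c (I.pos (nat_lit 0) (nat_lit 0)) (xa T5.l12 T5.l0)
  (TrL.c (I.pos (nat_lit 0) (nat_lit 0)) (xa T0.l8 T0.l8)
  (TrL.c (I.pos (nat_lit 0) (nat_lit 89480386)) T5.l9
  (TrL.c (I.pos (nat_lit 0) (nat_lit 41530880)) T0.l9
  (TrL.c (I.pos (nat_lit 0) (nat_lit 0)) (xa T0.l12 T0.l12)
  (TrL.c (I.pos (nat_lit 0) (nat_lit 0)) T5.l10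
  (TrL.c (I.mix (nat_lit 41527258) (nat_lit 41530880)) T0.l11
  (TrL.c (I.mix (nat_lit 41527258) (nat_lit 4274)) T5.l11
  TrL.n)))))))) (by decide +kernel)
theorem bx3_2 : BoxOK sI cl6 cl7 cl4 t5 t0 b3_2 :=
  box_mk (TrL.c (I.pos (nat_lit 0) (nat_lit 0)) (xa (xa T5.l12 T5.l12) T5.l12)
  (TrL.c (I.pos (nat_lit 0) (nat_lit 0)) (xa T0.l12 T0.l8)
  (TrL.c (I.pos (nat_lit 0) (nat_lit 89480386)) T5.l9
  (TrL.c (I.pos (nat_lit 0) (nat_lit 41530880)) T0.l11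
  (TrL.c (I.pos (nat_lit 0) (nat_lit 0)) (xa T0.l8 T0.l12)
  (TrL.c (I.pos (nat_lit 0) (nat_lit 0)) T5.l10
  (TrL.c (I.mix (nat_lit 41527258) (nat_lit 41530880)) T0.l11
  (TrL.c (I.mix (nat_lit 41527258) (nat_lit 4274)) T5.l11
  TrL.n)))))))) (by decide +kernel)
theorem bx3_3 : BoxOK sI cl6 cl7 cl4 t5 t0 b3_3 :=
  box_mk (TrL.c (I.pos (nat_lit 0) (nat_lit 0)) (xb (xa T5.l13 T5.l13) (xa (xb T5.l13 T5.l13) T5.l13))
  (TrL.c (I.pos (nat_lit 0) (nat_lit 0)) (xb T0.l8 T0.l8)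
  (TrL.c (I.pos (nat_lit 0) (nat_lit 89480386)) T5.l9
  (TrL.c (I.pos (nat_lit 0) (nat_lit 41530880)) T0.l9
  (TrL.c (I.pos (nat_lit 0) (nat_lit 0)) (xb T0.l13 T0.l10)
  (TrL.c (I.pos (nat_lit 0) (nat_lit 0)) T5.l10
  (TrL.c (I.mix (nat_lit 41527258) (nat_lit 41530880)) T0.l11
  (TrL.c (I.mix (nat_lit 41527258) (nat_lit 4274)) T5.l11
  TrL.n)))))))) (by decide +kernel)
theorem bx3_4 : BoxOK sI cl6 cl7 cl4 t5 t0 b3_4 :=
  box_mk (TrL.c (I.pos (nat_lit 0) (nat_lit 0)) (xa (xa (xb T5.l12 (xa T5.l12 T5.l12)) (xb T5.l12 T5.l12)) (xa T5.l12 T5.l12))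
  (TrL.c (I.pos (nat_lit 0) (nat_lit 0)) (xa T0.l8 T0.l8)
  (TrL.c (I.pos (nat_lit 0) (nat_lit 89480386)) T5.l9
  (TrL.c (I.pos (nat_lit 0) (nat_lit 41530880)) T0.l9
  (TrL.c (I.pos (nat_lit 0) (nat_lit 0)) (xa T0.l12 T0.l12)
  (TrL.c (I.pos (nat_lit 0) (nat_lit 0)) T5.l10
  (TrL.c (I.mix (nat_lit 41527258) (nat_lit 41530880)) T0.l11
  (TrL.c (I.mix (nat_lit 41527258) (nat_lit 4274)) T5.l11
  TrL.n)))))))) (by decide +kernel)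
theorem bx3_5 : BoxOK sI cl6 cl7 cl4 t5 t0 b3_5 :=
  box_mk (TrL.c (I.pos (nat_lit 0) (nat_lit 0)) (xb (xa (xb T5.l0 T5.l0) (xb T5.l0 T5.l0)) (xa T5.l13 T5.l13))
  (TrL.c (I.pos (nat_lit 0) (nat_lit 0)) (xb T0.l8 T0.l8)
  (TrL.c (I.pos (nat_lit 0) (nat_lit 89480386)) T5.l9
  (TrL.c (I.pos (nat_lit 0) (nat_lit 41530880)) T0.l9
  (TrL.c (I.pos (nat_lit 0) (nat_lit 0)) (xb T0.l13 T0.l13)
  (TrL.c (I.pos (nat_lit 0) (nat_lit 0)) T5.l10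
  (TrL.c (I.mix (nat_lit 41527258) (nat_lit 41530880)) T0.l11
  (TrL.c (I.mix (nat_lit 41527258) (nat_lit 4274)) T5.l11
  TrL.n)))))))) (by decide +kernel)
theorem bx3_6 : BoxOK sI cl6 cl7 cl4 t5 t0 b3_6 :=
  box_mk (TrL.c (I.pos (nat_lit 0) (nat_lit 0)) (xa T5.l12 T5.l12)
  (TrL.c (I.pos (nat_lit 0) (nat_lit 0)) (xa T0.l12 T0.l8)
  (TrL.c (I.pos (nat_lit 0) (nat_lit 89480386)) T5.l9
  (TrL.c (I.pos (nat_lit 0) (nat_lit 41530880)) T0.l9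
  (TrL.c (I.pos (nat_lit 0) (nat_lit 0)) (xa T0.l8 T0.l12)
  (TrL.c (I.pos (nat_lit 0) (nat_lit 0)) T5.l10
  (TrL.c (I.mix (nat_lit 41527258) (nat_lit 41530880)) T0.l11
  (TrL.c (I.mix (nat_lit 41527258) (nat_lit 4274)) T5.l11
  TrL.n)))))))) (by decide +kernel)
theorem bx3_7 : BoxOK sI cl6 cl7 cl4 t5 t0 b3_7 :=
  box_mk (TrL.c (I.pos (nat_lit 0) (nat_lit 0)) T5.l12
  (TrL.c (I.pos (nat_lit 0) (nat_lit 0)) T0.l8
  (TrL.c (I.pos (nat_lit 0) (nat_lit 89480386)) T5.l9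
  (TrL.c (I.pos (nat_lit 0) (nat_lit 41530880)) T0.l9
  (TrL.c (I.pos (nat_lit 0) (nat_lit 0)) T0.l12
  (TrL.c (I.pos (nat_lit 0) (nat_lit 0)) T5.l10
  (TrL.c (I.mix (nat_lit 41527258) (nat_lit 41530880)) T0.l11
  (TrL.c (I.mix (nat_lit 41527258) (nat_lit 4274)) T5.l11
  TrL.n)))))))) (by decide +kernel)
theorem bx3_8 : BoxOK sI cl6 cl7 cl4 t5 t0 b3_8 :=
  box_mk (TrL.c (I.pos (nat_lit 0) (nat_lit 0)) T5.l13
  (TrL.c (I.pos (nat_lit 0) (nat_lit 0)) T0.l8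
  (TrL.c (I.pos (nat_lit 0) (nat_lit 89480386)) T5.l9
  (TrL.c (I.pos (nat_lit 0) (nat_lit 41530880)) T0.l9
  (TrL.c (I.pos (nat_lit 0) (nat_lit 0)) T0.l13
  (TrL.c (I.pos (nat_lit 0) (nat_lit 0)) T5.l10
  (TrL.c (I.mix (nat_lit 41527258) (nat_lit 41530880)) T0.l11
  (TrL.c (I.mix (nat_lit 41527258) (nat_lit 4274)) T5.l11
  TrL.n)))))))) (by decide +kernel)
theorem bx3_9 : BoxOK sI cl6 cl7 cl4 t5 t0 b3_9 :=
  box_mk (TrL.c (I.pos (nat_lit 0) (nat_lit 0)) (xa (xa (xb T5.l12 (xa T5.l12 T5.l12)) (xb T5.l12 T5.l12)) (xa T5.l12 (xb T5.l12 T5.l12)))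
  (TrL.c (I.pos (nat_lit 0) (nat_lit 0)) (xa (xa T0.l8 T0.l8) T0.l8)
  (TrL.c (I.pos (nat_lit 0) (nat_lit 89480386)) T5.l9
  (TrL.c (I.pos (nat_lit 0) (nat_lit 41530880)) T0.l9
  (TrL.c (I.pos (nat_lit 0) (nat_lit 0)) (xa T0.l12 T0.l12)
  (TrL.c (I.pos (nat_lit 0) (nat_lit 0)) T5.l10
  (TrL.c (I.mix (nat_lit 41527258) (nat_lit 41530880)) T0.l11
  (TrL.c (I.mix (nat_lit 41527258) (nat_lit 4274)) T5.l11
  TrL.n)))))))) (by decide +kernel)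
theorem bx3_10 : BoxOK sI cl6 cl7 cl4 t5 t0 b3_10 :=
  box_mk (TrL.c (I.pos (nat_lit 0) (nat_lit 0)) (xb T5.l12 T5.l12)
  (TrL.c (I.pos (nat_lit 0) (nat_lit 0)) (xb T0.l8 T0.l8)
  (TrL.c (I.pos (nat_lit 0) (nat_lit 89480386)) T5.l9
  (TrL.c (I.pos (nat_lit 0) (nat_lit 41530880)) T0.l9
  (TrL.c (I.pos (nat_lit 0) (nat_lit 0)) (xb T0.l12 T0.l12)
  (TrL.c (I.pos (nat_lit 0) (nat_lit 0)) T5.l10
  (TrL.c (I.mix (nat_lit 41527258) (nat_lit 41530880)) T0.l11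
  (TrL.c (I.mix (nat_lit 41527258) (nat_lit 4274)) T5.l11
  TrL.n)))))))) (by decide +kernel)
theorem bx3_11 : BoxOK sI cl6 cl7 cl4 t5 t0 b3_11 :=
  box_mk (TrL.c (I.pos (nat_lit 0) (nat_lit 0)) (xa (xa (xb T5.l12 T5.l12) T5.l12) T5.l12)
  (TrL.c (I.pos (nat_lit 0) (nat_lit 0)) (xa T0.l12 T0.l8)
  (TrL.c (I.pos (nat_lit 0) (nat_lit 89480386)) T5.l9
  (TrL.c (I.pos (nat_lit 0) (nat_lit 41530880)) T0.l11
  (TrL.c (I.pos (nat_lit 0) (nat_lit 0)) (xa T0.l8 T0.l12)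
  (TrL.c (I.pos (nat_lit 0) (nat_lit 0)) T5.l10
  (TrL.c (I.mix (nat_lit 41527258) (nat_lit 41530880)) T0.l11
  (TrL.c (I.mix (nat_lit 41527258) (nat_lit 4274)) T5.l11
  TrL.n)))))))) (by decide +kernel)
theorem bx3_12 : BoxOK sI cl6 cl7 cl4 t5 t0 b3_12 :=
  box_mk (TrL.c (I.pos (nat_lit 0) (nat_lit 0)) (xa (xb T5.l0 T5.l0) (xb (xa T5.l0 T5.l0) (xa T5.l0 T5.l0)))
  (TrL.c (I.pos (nat_lit 0) (nat_lit 0)) (xa (xb T0.l8 (xa T0.l8 T0.l8)) (xb T0.l2 (xa T0.l2 T0.l2)))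
  (TrL.c (I.pos (nat_lit 0) (nat_lit 89480386)) (xR T5.l9 T5.l9)
  (TrL.c (I.pos (nat_lit 0) (nat_lit 41530880)) T0.l9
  (TrL.c (I.pos (nat_lit 0) (nat_lit 0)) (xa (xb (xa T0.l10 T0.l10) T0.l10) (xb (xa T0.l10 (xb T0.l10 T0.l10)) (xa T0.l10 (xb T0.l10 T0.l10))))
  (TrL.c (I.pos (nat_lit 0) (nat_lit 0)) (xa T5.l10 (xb T5.l1 T5.l10))
  (TrL.c (I.mix (nat_lit 41527258) (nat_lit 41530880)) (xR T0.l11 T0.l1)
  (TrL.c (I.mix (nat_lit 41527258) (nat_lit 4274)) T5.l11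
  TrL.n)))))))) (by decide +kernel)
theorem bx3_13 : BoxOK sI cl6 cl7 cl4 t5 t0 b3_13 :=
  box_mk (TrL.c (I.pos (nat_lit 0) (nat_lit 0)) (xa (xb (xb T5.l0 T5.l0) (xb T5.l0 T5.l0)) (xb (xa (xb T5.l0 T5.l0) (xb T5.l0 T5.l0)) (xs T5.l0 (xa (xb T5.l0 T5.l0) (xb T5.l0 T5.l0)))))
  (TrL.c (I.pos (nat_lit 0) (nat_lit 0)) (xa T0.l8 T0.l8)
  (TrL.c (I.pos (nat_lit 0) (nat_lit 89480386)) T5.l9
  (TrL.c (I.pos (nat_lit 0) (nat_lit 41530880)) T0.l9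
  (TrL.c (I.pos (nat_lit 0) (nat_lit 0)) (xa T0.l10 T0.l10)
  (TrL.c (I.pos (nat_lit 0) (nat_lit 0)) T5.l10
  (TrL.c (I.mix (nat_lit 41527258) (nat_lit 41530880)) T0.l11
  (TrL.c (I.mix (nat_lit 41527258) (nat_lit 4274)) T5.l11
  TrL.n)))))))) (by decide +kernel)
theorem sv3 : StarV sI cl6 cl7 cl4 t5 t0 t3 :=
  (bt_n (bt_n (bt_n (bt_b bx3_0) (bt_n (bt_b bx3_1) (bt_b bx3_2))) (bt_n (bt_n (bt_b bx3_3) (bt_b bx3_4)) (bt_n (bt_b bx3_5) (bt_b bx3_6)))) (bt_n (bt_n (bt_b bx3_7) (bt_n (bt_b bx3_8) (bt_b bx3_9))) (bt_n (bt_n (bt_b bx3_10) (bt_b bx3_11)) (bt_n (bt_b bx3_12) (bt_b bx3_13)))))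
def S3 : StarD := StarD.mk cl6 cl7 cl4 5 0 t3
theorem bx4_0 : BoxOK sI cl7 cl4 cl6 t1 t3 b4_0 :=
  box_mk (TrL.c (I.pos (nat_lit 0) (nat_lit 0)) (xa (xb T1.l4 (xb T1.l4 (xa T1.l4 T1.l4))) (xb T1.l0 (xa (xb T1.l0 T1.l0) (xb T1.l0 T1.l0))))
  (TrL.c (I.pos (nat_lit 0) (nat_lit 0)) (xa (xb T3.l1 T3.l1) (xb T3.l1 (xk T3.l1 T3.l1)))
  (TrL.c (I.pos (nat_lit 0) (nat_lit 111196574)) (xR T1.l1 T1.l1)
  (TrL.c (I.pos (nat_lit 0) (nat_lit 77433728)) T3.l2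
  (TrL.c (I.pos (nat_lit 0) (nat_lit 0)) (xb (xa T3.l5 T3.l3) (xa T3.l3 (xk T3.l3 T3.l3)))
  (TrL.c (I.pos (nat_lit 0) (nat_lit 0)) T1.l2
  (TrL.c (I.mix (nat_lit 29511666) (nat_lit 77433728)) (xR T3.l4 T3.l4)
  (TrL.c (I.mix (nat_lit 29511666) (nat_lit 46070178)) T1.l3
  TrL.n)))))))) (by decide +kernel)
theorem bx4_1 : BoxOK sI cl7 cl4 cl6 t1 t3 b4_1 :=
  box_mk (TrL.c (I.pos (nat_lit 0) (nat_lit 0)) (xa (xb T1.l4 (xa T1.l4 T1.l4)) T1.l4)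
  (TrL.c (I.pos (nat_lit 0) (nat_lit 0)) (xa T3.l1 T3.l1)
  (TrL.c (I.pos (nat_lit 0) (nat_lit 111196574)) (xR T1.l1 T1.l1)
  (TrL.c (I.pos (nat_lit 0) (nat_lit 77433728)) T3.l2
  (TrL.c (I.pos (nat_lit 0) (nat_lit 0)) (xa T3.l5 (xb T3.l5 T3.l5))
  (TrL.c (I.pos (nat_lit 0) (nat_lit 0)) T1.l2
  (TrL.c (I.mix (nat_lit 29511666) (nat_lit 77433728)) (xR T3.l4 T3.l4)
  (TrL.c (I.mix (nat_lit 29511666) (nat_lit 46070178)) T1.l9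
  TrL.n)))))))) (by decide +kernel)
theorem bx4_2 : BoxOK sI cl7 cl4 cl6 t1 t3 b4_2 :=
  box_mk (TrL.c (I.pos (nat_lit 0) (nat_lit 0)) (xb (xa (xb T1.l4 T1.l4) (xb T1.l4 T1.l4)) (xa (xb (xa T1.l4 T1.l4) (xa (xb T1.l4 T1.l4) (xb T1.l4 T1.l4))) (xb (xa T1.l4 T1.l4) (xa (xb T1.l4 T1.l4) (xb T1.l4 T1.l4)))))
  (TrL.c (I.pos (nat_lit 0) (nat_lit 0)) (xb (xa T3.l1 T3.l1) (xa (xk T3.l1 T3.l1) (xk T3.l1 T3.l1)))
  (TrL.c (I.pos (nat_lit 0) (nat_lit 111196574)) (xR T1.l1 T1.l1)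
  (TrL.c (I.pos (nat_lit 0) (nat_lit 77433728)) T3.l2
  (TrL.c (I.pos (nat_lit 0) (nat_lit 0)) (xb (xa T3.l5 (xk (xb T3.l5 T3.l5) T3.l5)) (xa (xk (xb T3.l5 (xb T3.l3 T3.l5)) (xb T3.l5 T3.l3)) (xk (xb T3.l3 (xb T3.l3 T3.l3)) (xb T3.l3 (xb T3.l3 (xs T3.l0 T3.l3))))))
  (TrL.c (I.pos (nat_lit 0) (nat_lit 0)) (xb T1.l2 T1.l2)
  (TrL.c (I.mix (nat_lit 29511666) (nat_lit 77433728)) (xR T3.l4 T3.l4)
  (TrL.c (I.mix (nat_lit 29511666) (nat_lit 46070178)) T1.l3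
  TrL.n)))))))) (by decide +kernel)
theorem bx4_3 : BoxOK sI cl7 cl4 cl6 t1 t3 b4_3 :=
  box_mk (TrL.c (I.pos (nat_lit 0) (nat_lit 0)) (xa T3.l1 T3.l7)
  (TrL.c (I.pos (nat_lit 0) (nat_lit 0)) T1.l1
  (TrL.c (I.mix (nat_lit 29511666) (nat_lit 77433728)) (xR T3.l6 T3.l2)
  (TrL.c (I.mix (nat_lit 29511666) (nat_lit 46070178)) T1.l5
  TrL.n)))) (by decide +kernel)
theorem bx4_4 : BoxOK sI cl7 cl4 cl6 t1 t3 b4_4 :=
  box_mk (TrL.c (I.pos (nat_lit 0) (nat_lit 0)) (xb T3.l1 T3.l7)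
  (TrL.c (I.pos (nat_lit 0) (nat_lit 0)) T1.l6
  (TrL.c (I.mix (nat_lit 29511666) (nat_lit 77433728)) (xR T3.l6 T3.l6)
  (TrL.c (I.mix (nat_lit 29511666) (nat_lit 46070178)) T1.l11
  TrL.n)))) (by decide +kernel)
theorem bx4_5 : BoxOK sI cl7 cl4 cl6 t1 t3 b4_5 :=
  box_mk (TrL.c (I.pos (nat_lit 0) (nat_lit 0)) T1.l7
  (TrL.c (I.pos (nat_lit 0) (nat_lit 0)) T3.l1
  (TrL.c (I.pos (nat_lit 0) (nat_lit 111196574)) T1.l1
  (TrL.c (I.pos (nat_lit 0) (nat_lit 77433728)) T3.l4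
  (TrL.c (I.pos (nat_lit 0) (nat_lit 0)) T3.l5
  (TrL.c (I.pos (nat_lit 0) (nat_lit 0)) T1.l2
  (TrL.c (I.mix (nat_lit 29511666) (nat_lit 77433728)) T3.l4
  (TrL.c (I.mix (nat_lit 29511666) (nat_lit 46070178)) T1.l9
  TrL.n)))))))) (by decide +kernel)
theorem bx4_6 : BoxOK sI cl7 cl4 cl6 t1 t3 b4_6 :=
  box_mk (TrL.c (I.pos (nat_lit 0) (nat_lit 0)) (xa (xb (xa T1.l0 T1.l0) (xa (xb T1.l0 (xa T1.l0 T1.l0)) (xb T1.l0 T1.l0))) (xb (xa T1.l0 T1.l0) (xa (xb T1.l0 T1.l0) (xb T1.l0 T1.l0))))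
  (TrL.c (I.pos (nat_lit 0) (nat_lit 0)) (xa (xb T3.l1 T3.l1) (xb T3.l10 (xk (xa T3.l1 T3.l1) T3.l10)))
  (TrL.c (I.pos (nat_lit 0) (nat_lit 111196574)) (xR T1.l11 T1.l1)
  (TrL.c (I.pos (nat_lit 0) (nat_lit 77433728)) (xR T3.l2 T3.l2)
  (TrL.c (I.pos (nat_lit 0) (nat_lit 0)) (xa (xb (xk (xa T3.l3 (xb T3.l3 T3.l3)) (xa T3.l3 (xb T3.l3 T3.l3))) (xk T3.l3 T3.l3)) (xb (xk (xa (xb T3.l0 T3.l3) (xb (xk T3.l0 T3.l0) (xk T3.l3 T3.l3))) (xa (xb T3.l0 T3.l3) (xb (xk T3.l0 T3.l0) T3.l3))) (xk (xa (xb T3.l3 T3.l3) (xb (xk T3.l3 T3.l3) (xk T3.l3 T3.l3))) (xa (xb T3.l3 T3.l3) (xb (xk T3.l3 T3.l3) (xk T3.l3 T3.l3))))))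
  (TrL.c (I.pos (nat_lit 0) (nat_lit 0)) (xk (xb (xa T1.l2 T1.l2) (xa T1.l2 T1.l2)) (xb (xa T1.l2 T1.l2) (xa T1.l2 T1.l2)))
  (TrL.c (I.mix (nat_lit 29511666) (nat_lit 77433728)) (xR T3.l4 (xR T3.l4 (xR T3.l4 T3.l4)))
  (TrL.c (I.mix (nat_lit 29511666) (nat_lit 46070178)) T1.l9
  TrL.n)))))))) (by decide +kernel)
theorem bx4_7 : BoxOK sI cl7 cl4 cl6 t1 t3 b4_7 :=
  box_mk (TrL.c (I.pos (nat_lit 0) (nat_lit 0)) (xb T1.l7 T1.l7)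
  (TrL.c (I.pos (nat_lit 0) (nat_lit 0)) T3.l1
  (TrL.c (I.pos (nat_lit 0) (nat_lit 111196574)) T1.l1
  (TrL.c (I.pos (nat_lit 0) (nat_lit 77433728)) T3.l4
  (TrL.c (I.pos (nat_lit 0) (nat_lit 0)) T3.l8
  (TrL.c (I.pos (nat_lit 0) (nat_lit 0)) T1.l2
  (TrL.c (I.mix (nat_lit 29511666) (nat_lit 77433728)) T3.l4
  (TrL.c (I.mix (nat_lit 29511666) (nat_lit 46070178)) T1.l11
  TrL.n)))))))) (by decide +kernel)
theorem bx4_8 : BoxOK sI cl7 cl4 cl6 t1 t3 b4_8 :=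
  box_mk (TrL.c (I.pos (nat_lit 0) (nat_lit 0)) (xa (xb T1.l0 T1.l0) (xb T1.l0 T1.l0))
  (TrL.c (I.pos (nat_lit 0) (nat_lit 0)) (xk T3.l1 T3.l1)
  (TrL.c (I.pos (nat_lit 0) (nat_lit 111196574)) (xR T1.l1 T1.l1)
  (TrL.c (I.pos (nat_lit 0) (nat_lit 77433728)) T3.l2
  (TrL.c (I.pos (nat_lit 0) (nat_lit 0)) (xk T3.l3 T3.l3)
  (TrL.c (I.pos (nat_lit 0) (nat_lit 0)) T1.l2
  (TrL.c (I.mix (nat_lit 29511666) (nat_lit 77433728)) T3.l4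
  (TrL.c (I.mix (nat_lit 29511666) (nat_lit 46070178)) T1.l3
  TrL.n)))))))) (by decide +kernel)
theorem bx4_9 : BoxOK sI cl7 cl4 cl6 t1 t3 b4_9 :=
  box_mk (TrL.c (I.pos (nat_lit 0) (nat_lit 0)) T1.l7
  (TrL.c (I.pos (nat_lit 0) (nat_lit 0)) T3.l1
  (TrL.c (I.pos (nat_lit 0) (nat_lit 111196574)) T1.l1
  (TrL.c (I.pos (nat_lit 0) (nat_lit 77433728)) T3.l2
  (TrL.c (I.pos (nat_lit 0) (nat_lit 0)) T3.l5
  (TrL.c (I.pos (nat_lit 0) (nat_lit 0)) T1.l2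
  (TrL.c (I.mix (nat_lit 29511666) (nat_lit 77433728)) T3.l4
  (TrL.c (I.mix (nat_lit 29511666) (nat_lit 46070178)) T1.l3
  TrL.n)))))))) (by decide +kernel)
theorem sv4 : StarV sI cl7 cl4 cl6 t1 t3 t4 :=
  (bt_n (bt_n (bt_n (bt_b bx4_0) (bt_b bx4_1)) (bt_n (bt_b bx4_2) (bt_n (bt_b bx4_3) (bt_b bx4_4)))) (bt_n (bt_n (bt_b bx4_5) (bt_b bx4_6)) (bt_n (bt_b bx4_7) (bt_n (bt_b bx4_8) (bt_b bx4_9)))))
def S4 : StarD := StarD.mk cl7 cl4 cl6 1 3 t4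
theorem c5_0_0 : chkTag sI cl7 cl6 cl4 t3 b5_0 (tg true true false RT.r2) (I.pos (nat_lit 0) (nat_lit 0))
  (xa (xb (xa (xb (xa T3.l13 T3.l13) (xs T3.l0 (xa T3.l13 T3.l13))) (xb (xa (xs T3.l13 T3.l13) (xs T3.l0 (xb T3.l13 T3.l13))) (xs T3.l13 (xa T3.l13 T3.l13)))) (xa (xb (xs T3.l0 (xa T3.l0 T3.l0)) (xs T3.l0 (xa T3.l0 T3.l0))) (xb (xs T3.l0 (xa T3.l0 T3.l0)) (xs T3.l0 (xa T3.l0 (xb T3.l13 T3.l0)))))) (xa (xb (xb (xs T3.l13 (xa T3.l13 (xb T3.l13 T3.l13))) (xs T3.l0 (xa (xb T3.l13 T3.l13) (xb T3.l13 T3.l13)))) (xb (xs T3.l13 (xa T3.l0 T3.l0)) (xs T3.l0 (xa T3.l0 T3.l0)))) (xb (xb (xs (xa T3.l13 T3.l0) (xa (xb (xs T3.l13 T3.l0) T3.l0) (xb (xs T3.l3 (xc T3.l0 T3.l0)) (xs T3.l0 T3.l0)))) (xs T3.l0 (xa (xb T3.l0 T3.l0) (xb T3.l0 T3.l0)))) (xb (xs T3.l0 (xa (xb T3.l0 T3.l0) (xb T3.l0 T3.l0))) (xs T3.l0 (xa (xb T3.l0 T3.l0) (xb T3.l0 T3.l0)))))))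 = true := by decide +kernel
theorem c5_0_1 : chkTag sI cl7 cl6 cl4 t1 b5_0 (tg true false false RT.r3) (I.pos (nat_lit 0) (nat_lit 0))
  (xa (xk (xb T1.l8 (xa T1.l8 T1.l8)) (xb T1.l8 T1.l8)) (xk (xb T1.l8 (xa T1.l8 T1.l8)) (xb T1.l8 (xa T1.l8 T1.l8)))) = true := by decide +kernel
theorem c5_0_2 : chkTag sI cl7 cl6 cl4 t3 b5_0 (Tag.mk true true false RT.tl RT.r4) (I.pos (nat_lit 0) (nat_lit 111196574))
  (xR T3.l9 T3.l9) = true := by decide +kernel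
theorem c5_0_3 : chkTag sI cl7 cl6 cl4 t1 b5_0 (Tag.mk true false false RT.tl RT.r5) (I.pos (nat_lit 0) (nat_lit 77433728))
  T1.l9 = true := by decide +kernel
theorem c5_0_4 : chkTag sI cl7 cl6 cl4 t1 b5_0 (tg false false false RT.r3) (I.pos (nat_lit 0) (nat_lit 0))
  (xa (xk (xb T1.l10 T1.l10) (xb T1.l10 T1.l10)) (xk (xb (xa T1.l10 T1.l10) (xa T1.l10 (xb T1.l10 (xs T1.l10 T1.l10)))) (xb (xa T1.l10 T1.l10) (xa T1.l10 (xb T1.l10 (xs T1.l10 (xk T1.l10 (xb T1.l10 T1.l10)))))))) = true := by decide +kernel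
theorem c5_0_5 : chkTag sI cl7 cl6 cl4 t3 b5_0 (tg false true false RT.r4) (I.pos (nat_lit 0) (nat_lit 0))
  (xk (xa T3.l10 T3.l10) (xa T3.l10 T3.l10)) = true := by decide +kernel
theorem c5_0_6 : chkTag sI cl7 cl6 cl4 t1 b5_0 (Tag.mk false false false RT.tl RT.r5) (I.mix (nat_lit 29511666) (nat_lit 77433728))
  (xR T1.l11 T1.l11) = true := by decide +kernel
theorem c5_0_7 : chkTag sI cl7 cl6 cl4 t3 b5_0 (Tag.mk false true false RT.tl RT.r6) (I.mix (nat_lit 29511666) (nat_lit 46070178))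
  T3.l11 = true := by decide +kernel
theorem bx5_0 : BoxOK sI cl7 cl6 cl4 t3 t1 b5_0 :=
  box_mk' [(tg true true false RT.r2), (tg true false false RT.r3), (Tag.mk true true false RT.tl RT.r4), (Tag.mk true false false RT.tl RT.r5), (tg false false false RT.r3), (tg false true false RT.r4), (Tag.mk false false false RT.tl RT.r5), (Tag.mk false true false RT.tl RT.r6)] rfl (allL_c (ex_mk c5_0_0) (allL_c (ex_mk c5_0_1) (allL_c (ex_mk c5_0_2) (allL_c (ex_mk c5_0_3) (allL_c (ex_mk c5_0_4) (allL_c (ex_mk c5_0_5) (allL_c (ex_mk c5_0_6) (allL_c (ex_mk c5_0_7) allL_n))))))))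
theorem bx5_1 : BoxOK sI cl7 cl6 cl4 t3 t1 b5_1 :=
  box_mk (TrL.c (I.pos (nat_lit 0) (nat_lit 0)) (xa T3.l12 T3.l0)
  (TrL.c (I.pos (nat_lit 0) (nat_lit 0)) T1.l8
  (TrL.c (I.pos (nat_lit 0) (nat_lit 111196574)) (xR T3.l9 T3.l9)
  (TrL.c (I.pos (nat_lit 0) (nat_lit 77433728)) T1.l9
  (TrL.c (I.pos (nat_lit 0) (nat_lit 0)) (xa T1.l12 (xk T1.l12 T1.l12))
  (TrL.c (I.pos (nat_lit 0) (nat_lit 0)) T3.l10
  (TrL.c (I.mix (nat_lit 29511666) (nat_lit 77433728)) (xR T1.l11 T1.l11)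
  (TrL.c (I.mix (nat_lit 29511666) (nat_lit 46070178)) T3.l11
  TrL.n)))))))) (by decide +kernel)
theorem bx5_2 : BoxOK sI cl7 cl6 cl4 t3 t1 b5_2 :=
  box_mk (TrL.c (I.pos (nat_lit 0) (nat_lit 0)) T3.l12
  (TrL.c (I.pos (nat_lit 0) (nat_lit 0)) T1.l8
  (TrL.c (I.pos (nat_lit 0) (nat_lit 111196574)) T3.l9
  (TrL.c (I.pos (nat_lit 0) (nat_lit 77433728)) T1.l9
  (TrL.c (I.pos (nat_lit 0) (nat_lit 0)) T1.l8
  (TrL.c (I.pos (nat_lit 0) (nat_lit 0)) T3.l10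
  (TrL.c (I.mix (nat_lit 29511666) (nat_lit 77433728)) T1.l11
  (TrL.c (I.mix (nat_lit 29511666) (nat_lit 46070178)) T3.l11
  TrL.n)))))))) (by decide +kernel)
theorem bx5_3 : BoxOK sI cl7 cl6 cl4 t3 t1 b5_3 :=
  box_mk (TrL.c (I.pos (nat_lit 0) (nat_lit 0)) (xa (xb T3.l13 T3.l13) (xb T3.l13 T3.l0))
  (TrL.c (I.pos (nat_lit 0) (nat_lit 0)) (xk (xb T1.l8 (xa T1.l8 T1.l8)) (xb T1.l8 T1.l8))
  (TrL.c (I.pos (nat_lit 0) (nat_lit 111196574)) (xR T3.l9 T3.l9)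
  (TrL.c (I.pos (nat_lit 0) (nat_lit 77433728)) T1.l9
  (TrL.c (I.pos (nat_lit 0) (nat_lit 0)) (xk T1.l10 T1.l10)
  (TrL.c (I.pos (nat_lit 0) (nat_lit 0)) T3.l10
  (TrL.c (I.mix (nat_lit 29511666) (nat_lit 77433728)) (xR T1.l11 T1.l11)
  (TrL.c (I.mix (nat_lit 29511666) (nat_lit 46070178)) T3.l11
  TrL.n)))))))) (by decide +kernel)
theorem bx5_4 : BoxOK sI cl7 cl6 cl4 t3 t1 b5_4 :=
  box_mk (TrL.c (I.pos (nat_lit 0) (nat_lit 0)) (xa (xa (xb T3.l12 T3.l12) T3.l12) (xa T3.l12 T3.l12))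
  (TrL.c (I.pos (nat_lit 0) (nat_lit 0)) (xa T1.l8 T1.l8)
  (TrL.c (I.pos (nat_lit 0) (nat_lit 111196574)) T3.l9
  (TrL.c (I.pos (nat_lit 0) (nat_lit 77433728)) T1.l9
  (TrL.c (I.pos (nat_lit 0) (nat_lit 0)) (xa T1.l8 T1.l12)
  (TrL.c (I.pos (nat_lit 0) (nat_lit 0)) T3.l10
  (TrL.c (I.mix (nat_lit 29511666) (nat_lit 77433728)) (xR T1.l11 T1.l11)
  (TrL.c (I.mix (nat_lit 29511666) (nat_lit 46070178)) T3.l11
  TrL.n)))))))) (by decide +kernel)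
theorem bx5_5 : BoxOK sI cl7 cl6 cl4 t3 t1 b5_5 :=
  box_mk (TrL.c (I.pos (nat_lit 0) (nat_lit 0)) T3.l12
  (TrL.c (I.pos (nat_lit 0) (nat_lit 0)) T1.l8
  (TrL.c (I.pos (nat_lit 0) (nat_lit 111196574)) (xR T3.l9 T3.l9)
  (TrL.c (I.pos (nat_lit 0) (nat_lit 77433728)) T1.l9
  (TrL.c (I.pos (nat_lit 0) (nat_lit 0)) T1.l12
  (TrL.c (I.pos (nat_lit 0) (nat_lit 0)) T3.l10
  (TrL.c (I.mix (nat_lit 29511666) (nat_lit 77433728)) (xR T1.l11 T1.l11)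
  (TrL.c (I.mix (nat_lit 29511666) (nat_lit 46070178)) T3.l11
  TrL.n)))))))) (by decide +kernel)
theorem bx5_6 : BoxOK sI cl7 cl6 cl4 t3 t1 b5_6 :=
  box_mk (TrL.c (I.pos (nat_lit 0) (nat_lit 0)) (xa (xa T3.l12 T3.l12) T3.l12)
  (TrL.c (I.pos (nat_lit 0) (nat_lit 0)) (xa T1.l12 T1.l8)
  (TrL.c (I.pos (nat_lit 0) (nat_lit 111196574)) T3.l9
  (TrL.c (I.pos (nat_lit 0) (nat_lit 77433728)) T1.l11
  (TrL.c (I.pos (nat_lit 0) (nat_lit 0)) (xa T1.l8 T1.l12)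
  (TrL.c (I.pos (nat_lit 0) (nat_lit 0)) T3.l9
  (TrL.c (I.mix (nat_lit 29511666) (nat_lit 77433728)) (xR T1.l11 T1.l9)
  (TrL.c (I.mix (nat_lit 29511666) (nat_lit 46070178)) T3.l11
  TrL.n)))))))) (by decide +kernel)
theorem bx5_7 : BoxOK sI cl7 cl6 cl4 t3 t1 b5_7 :=
  box_mk (TrL.c (I.pos (nat_lit 0) (nat_lit 0)) T3.l13
  (TrL.c (I.pos (nat_lit 0) (nat_lit 0)) T1.l8
  (TrL.c (I.pos (nat_lit 0) (nat_lit 111196574)) (xR T3.l9 T3.l9)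
  (TrL.c (I.pos (nat_lit 0) (nat_lit 77433728)) T1.l9
  (TrL.c (I.pos (nat_lit 0) (nat_lit 0)) T1.l13
  (TrL.c (I.pos (nat_lit 0) (nat_lit 0)) T3.l10
  (TrL.c (I.mix (nat_lit 29511666) (nat_lit 77433728)) (xR T1.l11 T1.l11)
  (TrL.c (I.mix (nat_lit 29511666) (nat_lit 46070178)) T3.l11
  TrL.n)))))))) (by decide +kernel)
theorem bx5_8 : BoxOK sI cl7 cl6 cl4 t3 t1 b5_8 :=
  box_mk (TrL.c (I.pos (nat_lit 0) (nat_lit 0)) (xb (xa (xb T3.l13 T3.l13) (xb T3.l0 T3.l0)) T3.l13)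
  (TrL.c (I.pos (nat_lit 0) (nat_lit 0)) (xb T1.l8 (xk T1.l8 T1.l8))
  (TrL.c (I.pos (nat_lit 0) (nat_lit 111196574)) (xR T3.l9 T3.l9)
  (TrL.c (I.pos (nat_lit 0) (nat_lit 77433728)) T1.l9
  (TrL.c (I.pos (nat_lit 0) (nat_lit 0)) (xk (xb T1.l13 T1.l13) (xb T1.l13 T1.l13))
  (TrL.c (I.pos (nat_lit 0) (nat_lit 0)) T3.l10
  (TrL.c (I.mix (nat_lit 29511666) (nat_lit 77433728)) (xR T1.l11 T1.l1)
  (TrL.c (I.mix (nat_lit 29511666) (nat_lit 46070178)) T3.l11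
  TrL.n)))))))) (by decide +kernel)
theorem bx5_9 : BoxOK sI cl7 cl6 cl4 t3 t1 b5_9 :=
  box_mk (TrL.c (I.pos (nat_lit 0) (nat_lit 0)) (xa (xa (xb T3.l12 (xa T3.l12 T3.l12)) (xb T3.l12 T3.l12)) (xa T3.l12 T3.l12))
  (TrL.c (I.pos (nat_lit 0) (nat_lit 0)) (xa T1.l8 (xa T1.l8 T1.l8))
  (TrL.c (I.pos (nat_lit 0) (nat_lit 111196574)) T3.l9
  (TrL.c (I.pos (nat_lit 0) (nat_lit 77433728)) T1.l9
  (TrL.c (I.pos (nat_lit 0) (nat_lit 0)) (xa (xa T1.l12 T1.l12) T1.l12)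
  (TrL.c (I.pos (nat_lit 0) (nat_lit 0)) T3.l10
  (TrL.c (I.mix (nat_lit 29511666) (nat_lit 77433728)) (xR T1.l11 T1.l11)
  (TrL.c (I.mix (nat_lit 29511666) (nat_lit 46070178)) T3.l11
  TrL.n)))))))) (by decide +kernel)
theorem bx5_10 : BoxOK sI cl7 cl6 cl4 t3 t1 b5_10 :=
  box_mk (TrL.c (I.pos (nat_lit 0) (nat_lit 0)) (xb T3.l12 T3.l12)
  (TrL.c (I.pos (nat_lit 0) (nat_lit 0)) T1.l8
  (TrL.c (I.pos (nat_lit 0) (nat_lit 111196574)) (xR T3.l9 T3.l9)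
  (TrL.c (I.pos (nat_lit 0) (nat_lit 77433728)) T1.l9
  (TrL.c (I.pos (nat_lit 0) (nat_lit 0)) (xb (xa T1.l12 T1.l12) T1.l12)
  (TrL.c (I.pos (nat_lit 0) (nat_lit 0)) T3.l10
  (TrL.c (I.mix (nat_lit 29511666) (nat_lit 77433728)) (xR T1.l11 T1.l11)
  (TrL.c (I.mix (nat_lit 29511666) (nat_lit 46070178)) T3.l11
  TrL.n)))))))) (by decide +kernel)
theorem bx5_11 : BoxOK sI cl7 cl6 cl4 t3 t1 b5_11 :=
  box_mk (TrL.c (I.pos (nat_lit 0) (nat_lit 0)) (xa (xb T3.l12 T3.l12) T3.l12)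
  (TrL.c (I.pos (nat_lit 0) (nat_lit 0)) (xa T1.l12 T1.l8)
  (TrL.c (I.pos (nat_lit 0) (nat_lit 111196574)) T3.l9
  (TrL.c (I.pos (nat_lit 0) (nat_lit 77433728)) T1.l11
  (TrL.c (I.pos (nat_lit 0) (nat_lit 0)) T1.l8
  (TrL.c (I.pos (nat_lit 0) (nat_lit 0)) T3.l9
  (TrL.c (I.mix (nat_lit 29511666) (nat_lit 77433728)) (xR T1.l11 T1.l9)
  (TrL.c (I.mix (nat_lit 29511666) (nat_lit 46070178)) T3.l11
  TrL.n)))))))) (by decide +kernel)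
theorem bx5_12 : BoxOK sI cl7 cl6 cl4 t3 t1 b5_12 :=
  box_mk (TrL.c (I.pos (nat_lit 0) (nat_lit 0)) (xa (xb T3.l0 (xa T3.l0 T3.l0)) (xb (xa T3.l0 T3.l0) (xa T3.l0 T3.l0)))
  (TrL.c (I.pos (nat_lit 0) (nat_lit 0)) (xa (xb (xk (xa T1.l8 T1.l8) T1.l8) (xk (xa T1.l8 T1.l8) T1.l8)) (xb (xk (xa T1.l2 T1.l2) (xa T1.l8 T1.l2)) (xk (xa T1.l2 T1.l2) (xa T1.l8 T1.l2))))
  (TrL.c (I.pos (nat_lit 0) (nat_lit 111196574)) (xR T3.l9 T3.l9)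
  (TrL.c (I.pos (nat_lit 0) (nat_lit 77433728)) (xR T1.l9 (xR T1.l9 T1.l9))
  (TrL.c (I.pos (nat_lit 0) (nat_lit 0)) (xa (xb (xk (xa T1.l10 (xb T1.l10 T1.l10)) (xa T1.l10 (xb T1.l10 T1.l10))) (xk T1.l10 T1.l10)) (xb (xk (xa (xb (xk T1.l10 T1.l10) T1.l10) (xb (xk (xa T1.l10 T1.l10) (xa T1.l10 T1.l10)) T1.l10)) (xa (xb (xa T1.l10 T1.l10) T1.l10) (xb (xa T1.l10 (xk T1.l10 T1.l10)) T1.l10))) (xa (xk T1.l10 T1.l10) (xk (xb (xk T1.l10 T1.l10) (xk (xa T1.l10 T1.l10) (xa T1.l10 T1.l10))) (xb (xa T1.l10 T1.l10) (xk (xa T1.l10 T1.l10) T1.l10))))))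
  (TrL.c (I.pos (nat_lit 0) (nat_lit 0)) (xk (xa T3.l10 (xb (xa T3.l10 T3.l10) (xa T3.l10 T3.l10))) (xa T3.l10 (xb (xa T3.l10 T3.l10) (xa T3.l10 T3.l10))))
  (TrL.c (I.mix (nat_lit 29511666) (nat_lit 77433728)) (xR T1.l11 (xR T1.l11 (xR T1.l11 (xk T1.l11 T1.l11))))
  (TrL.c (I.mix (nat_lit 29511666) (nat_lit 46070178)) T3.l11
  TrL.n)))))))) (by decide +kernel)
theorem bx5_13 : BoxOK sI cl7 cl6 cl4 t3 t1 b5_13 :=
  box_mk (TrL.c (I.pos (nat_lit 0) (nat_lit 0)) (xa (xb (xb T3.l13 T3.l13) (xb (xa T3.l13 T3.l13) (xs T3.l13 T3.l0))) (xb (xb (xa T3.l13 T3.l0) (xa T3.l0 T3.l0)) (xs T3.l0 (xb T3.l0 T3.l0))))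
  (TrL.c (I.pos (nat_lit 0) (nat_lit 0)) (xa (xk T1.l8 T1.l8) (xk T1.l8 T1.l8))
  (TrL.c (I.pos (nat_lit 0) (nat_lit 111196574)) (xR T3.l9 T3.l9)
  (TrL.c (I.pos (nat_lit 0) (nat_lit 77433728)) T1.l9
  (TrL.c (I.pos (nat_lit 0) (nat_lit 0)) (xk (xa T1.l10 T1.l10) (xa T1.l10 T1.l10))
  (TrL.c (I.pos (nat_lit 0) (nat_lit 0)) T3.l10
  (TrL.c (I.mix (nat_lit 29511666) (nat_lit 77433728)) (xR T1.l11 T1.l11)
  (TrL.c (I.mix (nat_lit 29511666) (nat_lit 46070178)) T3.l11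
  TrL.n)))))))) (by decide +kernel)
theorem sv5 : StarV sI cl7 cl6 cl4 t3 t1 t5 :=
  (bt_n (bt_n (bt_n (bt_b bx5_0) (bt_n (bt_b bx5_1) (bt_b bx5_2))) (bt_n (bt_n (bt_b bx5_3) (bt_b bx5_4)) (bt_n (bt_b bx5_5) (bt_b bx5_6)))) (bt_n (bt_n (bt_b bx5_7) (bt_n (bt_b bx5_8) (bt_b bx5_9))) (bt_n (bt_n (bt_b bx5_10) (bt_b bx5_11)) (bt_n (bt_b bx5_12) (bt_b bx5_13)))))
def S5 : StarD := StarD.mk cl7 cl6 cl4 3 1 t5
def G : List StarD := [S0, S1, S2, S3, S4, S5]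
theorem so0 : StarOK sI G S0 :=
  star_mk (by decide) (by decide) rfl rfl rfl rfl rfl rfl (rfl : _ = t2) (rfl : _ = t4)
  (st_mk (Pth.l (Pth.l (Pth.l Pth.z))) (nat_lit 194874476) (nat_lit 196611369) (by decide +kernel))
  (st_mk (Pth.l (Pth.l (Pth.l Pth.z))) (nat_lit 233601157) (nat_lit 236153139) (by decide +kernel))
  (st_mk (Pth.l (Pth.l (Pth.l Pth.z))) (nat_lit 279273155) (nat_lit 283024071) (by decide +kernel)) sv0
theorem so1 : StarOK sI G S1 :=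
  star_mk (by decide) (by decide) rfl rfl rfl rfl rfl rfl (rfl : _ = t4) (rfl : _ = t2)
  (st_mk (Pth.l (Pth.l (Pth.l Pth.z))) (nat_lit 145926522) (nat_lit 169917606) (by decide +kernel))
  (st_mk (Pth.l (Pth.l (Pth.l Pth.z))) (nat_lit 184279975) (nat_lit 209184602) (by decide +kernel))
  (st_mk (Pth.l (Pth.l (Pth.l Pth.z))) (nat_lit 229655471) (nat_lit 255835819) (by decide +kernel)) sv1
theorem so2 : StarOK sI G S2 :=
  star_mk (by decide) (by decide) rfl rfl rfl rfl rfl rfl (rfl : _ = t0) (rfl : _ = t5)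
  (st_mk (Pth.l (Pth.l (Pth.l Pth.z))) (nat_lit 375938229) (nat_lit 378006677) (by decide +kernel))
  (st_mk (Pth.l (Pth.l (Pth.l Pth.z))) (nat_lit 413090170) (nat_lit 415603041) (by decide +kernel))
  (st_mk (Pth.l (Pth.l (Pth.l Pth.z))) (nat_lit 456241626) (nat_lit 459330121) (by decide +kernel)) sv2
theorem so3 : StarOK sI G S3 :=
  star_mk (by decide) (by decide) rfl rfl rfl rfl rfl rfl (rfl : _ = t5) (rfl : _ = t0)
  (st_mk (Pth.l (Pth.l (Pth.l Pth.z))) (nat_lit 142886297) (nat_lit 165626415) (by decide +kernel))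
  (st_mk (Pth.l (Pth.l (Pth.l Pth.z))) (nat_lit 179416239) (nat_lit 202560836) (by decide +kernel))
  (st_mk (Pth.l (Pth.l (Pth.l Pth.z))) (nat_lit 222048235) (nat_lit 245734125) (by decide +kernel)) sv3
theorem so4 : StarOK sI G S4 :=
  star_mk (by decide) (by decide) rfl rfl rfl rfl rfl rfl (rfl : _ = t1) (rfl : _ = t3)
  (st_mk (Pth.l (Pth.l (Pth.l Pth.z))) (nat_lit 370617499) (nat_lit 375583032) (by decide +kernel))
  (st_mk (Pth.l (Pth.l (Pth.l Pth.z))) (nat_lit 406813163) (nat_lit 412484424) (by decide +kernel))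
  (st_mk (Pth.l (Pth.l (Pth.l Pth.z))) (nat_lit 448733870) (nat_lit 455312386) (by decide +kernel)) sv4
theorem so5 : StarOK sI G S5 :=
  star_mk (by decide) (by decide) rfl rfl rfl rfl rfl rfl (rfl : _ = t3) (rfl : _ = t1)
  (st_mk (Pth.l (Pth.l (Pth.l Pth.z))) (nat_lit 188340890) (nat_lit 190201602) (by decide +kernel))
  (st_mk (Pth.l (Pth.l (Pth.l Pth.z))) (nat_lit 224280127) (nat_lit 226706712) (by decide +kernel))
  (st_mk (Pth.l (Pth.l (Pth.l Pth.z))) (nat_lit 265445751) (nat_lit 269736477) (by decide +kernel)) sv5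
theorem ok : GroupOK (nat_lit 150274048) (nat_lit 209387520) G := grp_mk (allS_c so0 (allS_c so1 (allS_c so2 (allS_c so3 (allS_c so4 (allS_c so5 allS_n))))))
theorem cov : GCov G cl4 cl6 cl7 := cov_mk
  ⟨0, by decide, rfl, rfl, rfl⟩ ⟨1, by decide, rfl, rfl, rfl⟩ ⟨2, by decide, rfl, rfl, rfl⟩ ⟨3, by decide, rfl, rfl, rfl⟩ ⟨4, by decide, rfl, rfl, rfl⟩ ⟨5, by decide, rfl, rfl, rfl⟩
end Q134_2


end Pool.Agent.Helper6.MONO
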