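import Pool.Agent.Helper6.MONO.Cert.C50

/-!
Certificate data (generated).
-/

set_option autoImplicit false
set_option linter.all false
noncomputable section
namespace Pool.Agent.Helper6.MONO


namespace Q134_3
def sI : I := I.pos (nat_lit 209321984) (nat_lit 268435456)
def b0_0 : Bx := Bx.mk (St.mk (I.pos (nat_lit 160514048) (nat_lit 222871552)) (I.mix (nat_lit 278528) (nat_lit 61849600)) (I.mix (nat_lit 278528) (nat_lit 62816256)) (I.pos (nat_lit 195428352) (nat_lit 308051968)) (I.mix (nat_lit 100532224) (nat_lit 56573952)) (I.mix (nat_lit 51642368) (nat_lit 51888128)) (I.mix (nat_lit 86507520) (nat_lit 80379904)))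
  false (nat_lit 0)
def b0_1 : Bx := Bx.mk (St.mk (I.mix (nat_lit 23281664) (nat_lit 91602944)) (I.mix (nat_lit 7323648) (nat_lit 34701312)) (I.neg (nat_lit 933888) (nat_lit 29179904)) (I.pos (nat_lit 84197376) (nat_lit 123224064)) (I.mix (nat_lit 44515328) (nat_lit 56442880)) (I.mix (nat_lit 41484288) (nat_lit 26427392)) (I.mix (nat_lit 27688960) (nat_lit 18956288)))
  false (nat_lit 0)
def b0_2 : Bx := Bx.mk (St.mk (I.pos (nat_lit 75988992) (nat_lit 111280128)) (I.mix (nat_lit 45809664) (nat_lit 8355840)) (I.neg (nat_lit 17793024) (nat_lit 59162624)) (I.pos (nat_lit 108298240) (nat_lit 136790016)) (I.mix (nat_lit 84574208) (nat_lit 38092800)) (I.mix (nat_lit 31080448) (nat_lit 65716224)) (I.mix (nat_lit 21102592) (nat_lit 47939584)))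
  false (nat_lit 0)
def b0_3 : Bx := Bx.mk (St.mk (I.mix (nat_lit 44613632) (nat_lit 21774336)) (I.mix (nat_lit 31096832) (nat_lit 5718016)) (I.neg (nat_lit 7864320) (nat_lit 22200320)) (I.pos (nat_lit 84099072) (nat_lit 100057088)) (I.mix (nat_lit 46940160) (nat_lit 31195136)) (I.mix (nat_lit 19300352) (nat_lit 33996800)) (I.mix (nat_lit 13631488) (nat_lit 8486912)))
  false (nat_lit 0)
def b0_4 : Bx := Bx.mk (St.mk (I.pos (nat_lit 70975488) (nat_lit 91209728)) (I.mix (nat_lit 10682368) (nat_lit 9535488)) (I.neg (nat_lit 15351808) (nat_lit 31571968)) (I.pos (nat_lit 106741760) (nat_lit 121864192)) (I.mix (nat_lit 38256640) (nat_lit 27295744)) (I.mix (nat_lit 23789568) (nat_lit 21741568)) (I.mix (nat_lit 14303232) (nat_lit 17022976)))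
  false (nat_lit 0)
def b0_5 : Bx := Bx.mk (St.mk (I.mix (nat_lit 58720256) (nat_lit 4030464)) (I.mix (nat_lit 8929280) (nat_lit 14680064)) (I.neg (nat_lit 14073856) (nat_lit 26247168)) (I.pos (nat_lit 86769664) (nat_lit 102645760)) (I.mix (nat_lit 30867456) (nat_lit 27148288)) (I.mix (nat_lit 22118400) (nat_lit 21102592)) (I.mix (nat_lit 8929280) (nat_lit 10633216)))
  false (nat_lit 0)
def b0_6 : Bx := Bx.mk (St.mk (I.pos (nat_lit 201687040) (nat_lit 254935040)) (I.mix (nat_lit 15695872) (nat_lit 13795328)) (I.neg (nat_lit 36126720) (nat_lit 92209152)) (I.pos (nat_lit 264077312) (nat_lit 352501760)) (I.mix (nat_lit 106659840) (nat_lit 33505280)) (I.mix (nat_lit 57491456) (nat_lit 54378496)) (I.mix (nat_lit 81805312) (nat_lit 102629376)))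
  false (nat_lit 0)
def b0_7 : Bx := Bx.mk (St.mk (I.pos (nat_lit 190578688) (nat_lit 244563968)) (I.mix (nat_lit 14188544) (nat_lit 30212096)) (I.neg (nat_lit 3817472) (nat_lit 85426176)) (I.pos (nat_lit 251314176) (nat_lit 326565888)) (I.mix (nat_lit 117784576) (nat_lit 41385984)) (I.mix (nat_lit 65961984) (nat_lit 66502656)) (I.mix (nat_lit 99827712) (nat_lit 122175488)))
  false (nat_lit 0)
def b0_8 : Bx := Bx.mk (St.mk (I.pos (nat_lit 185597952) (nat_lit 238501888)) (I.pos (nat_lit 9535488) (nat_lit 58720256)) (I.mix (nat_lit 33619968) (nat_lit 52641792)) (I.pos (nat_lit 251609088) (nat_lit 333447168)) (I.mix (nat_lit 93044736) (nat_lit 78462976)) (I.mix (nat_lit 76857344) (nat_lit 64438272)) (I.mix (nat_lit 143687680) (nat_lit 93798400)))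
  false (nat_lit 0)
def b0_9 : Bx := Bx.mk (St.mk (I.pos (nat_lit 84656128) (nat_lit 160088064)) (I.neg (nat_lit 6586368) (nat_lit 48349184)) (I.neg (nat_lit 18628608) (nat_lit 60194816)) (I.pos (nat_lit 119078912) (nat_lit 189710336)) (I.mix (nat_lit 76906496) (nat_lit 36339712)) (I.mix (nat_lit 35405824) (nat_lit 51118080)) (I.mix (nat_lit 24592384) (nat_lit 46579712)))
  false (nat_lit 0)
def b0_10 : Bx := Bx.mk (St.mk (I.mix (nat_lit 36225024) (nat_lit 47857664)) (I.mix (nat_lit 32063488) (nat_lit 7405568)) (I.neg (nat_lit 8208384) (nat_lit 24461312)) (I.pos (nat_lit 82116608) (nat_lit 99926016)) (I.mix (nat_lit 42844160) (nat_lit 36175872)) (I.mix (nat_lit 25493504) (nat_lit 31326208)) (I.mix (nat_lit 11747328) (nat_lit 14172160)))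
  false (nat_lit 0)
def b0_11 : Bx := Bx.mk (St.mk (I.pos (nat_lit 156368896) (nat_lit 209223680)) (I.mix (nat_lit 5324800) (nat_lit 56410112)) (I.mix (nat_lit 12582912) (nat_lit 57851904)) (I.pos (nat_lit 198868992) (nat_lit 272711680)) (I.mix (nat_lit 114491392) (nat_lit 38092800)) (I.mix (nat_lit 98336768) (nat_lit 55705600)) (I.mix (nat_lit 89997312) (nat_lit 55623680)))
  false (nat_lit 0)
def b0_12 : Bx := Bx.mk (St.mk (I.mix (nat_lit 47857664) (nat_lit 56459264)) (I.mix (nat_lit 11599872) (nat_lit 32063488)) (I.neg (nat_lit 6144000) (nat_lit 24461312)) (I.pos (nat_lit 82116608) (nat_lit 103071744)) (I.mix (nat_lit 36175872) (nat_lit 42844160)) (I.mix (nat_lit 31326208) (nat_lit 25493504)) (I.mix (nat_lit 11747328) (nat_lit 14172160)))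
  false (nat_lit 0)
def b0_13 : Bx := Bx.mk (St.mk (I.pos (nat_lit 162349056) (nat_lit 196411392)) (I.mix (nat_lit 24526848) (nat_lit 10715136)) (I.neg (nat_lit 1703936) (nat_lit 42614784)) (I.pos (nat_lit 199114752) (nat_lit 238600192)) (I.mix (nat_lit 47480832) (nat_lit 56082432)) (I.mix (nat_lit 49807360) (nat_lit 45858816)) (I.mix (nat_lit 49152000) (nat_lit 38453248)))
  false (nat_lit 0)
def b0_14 : Bx := Bx.mk (St.mk (I.pos (nat_lit 137363456) (nat_lit 170573824)) (I.neg (nat_lit 6193152) (nat_lit 34455552)) (I.neg (nat_lit 17629184) (nat_lit 52035584)) (I.pos (nat_lit 164741120) (nat_lit 202817536)) (I.mix (nat_lit 39354368) (nat_lit 28246016)) (I.mix (nat_lit 21987328) (nat_lit 26542080)) (I.mix (nat_lit 21823488) (nat_lit 26148864)))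
  false (nat_lit 0)
def b0_15 : Bx := Bx.mk (St.mk (I.pos (nat_lit 161906688) (nat_lit 199213056)) (I.mix (nat_lit 9797632) (nat_lit 26345472)) (I.mix (nat_lit 25968640) (nat_lit 22528000)) (I.pos (nat_lit 207323136) (nat_lit 243236864)) (I.mix (nat_lit 82083840) (nat_lit 58474496)) (I.mix (nat_lit 86884352) (nat_lit 53837824)) (I.mix (nat_lit 86261760) (nat_lit 48644096)))
  false (nat_lit 0)
def b0_16 : Bx := Bx.mk (St.mk (I.pos (nat_lit 129351680) (nat_lit 171409408)) (I.mix (nat_lit 31178752) (nat_lit 1523712)) (I.neg (nat_lit 7946240) (nat_lit 46071808)) (I.pos (nat_lit 157384704) (nat_lit 205094912)) (I.mix (nat_lit 52412416) (nat_lit 25362432)) (I.mix (nat_lit 33964032) (nat_lit 25001984)) (I.mix (nat_lit 33456128) (nat_lit 25034752)))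
  false (nat_lit 0)
def b0_17 : Bx := Bx.mk (St.mk (I.pos (nat_lit 136904704) (nat_lit 175276032)) (I.mix (nat_lit 27246592) (nat_lit 4767744)) (I.neg (nat_lit 4554752) (nat_lit 42319872)) (I.pos (nat_lit 165117952) (nat_lit 209895424)) (I.mix (nat_lit 49184768) (nat_lit 24772608)) (I.mix (nat_lit 29442048) (nat_lit 28327936)) (I.mix (nat_lit 27836416) (nat_lit 27672576)))
  false (nat_lit 0)
def b0_18 : Bx := Bx.mk (St.mk (I.pos (nat_lit 156876800) (nat_lit 187449344)) (I.mix (nat_lit 25231360) (nat_lit 6242304)) (I.neg (nat_lit 5537792) (nat_lit 43188224)) (I.pos (nat_lit 192233472) (nat_lit 226525184)) (I.mix (nat_lit 58212352) (nat_lit 43237376)) (I.mix (nat_lit 43892736) (nat_lit 39501824)) (I.mix (nat_lit 43958272) (nat_lit 35520512)))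
  false (nat_lit 0)
def b0_19 : Bx := Bx.mk (St.mk (I.pos (nat_lit 143196160) (nat_lit 168722432)) (I.neg (nat_lit 7913472) (nat_lit 29196288)) (I.neg (nat_lit 19267584) (nat_lit 46153728)) (I.pos (nat_lit 171769856) (nat_lit 200818688)) (I.mix (nat_lit 33554432) (nat_lit 16465920)) (I.mix (nat_lit 15466496) (nat_lit 16842752)) (I.mix (nat_lit 16007168) (nat_lit 17285120)))
  false (nat_lit 0)
def b0_20 : Bx := Bx.mk (St.mk (I.pos (nat_lit 167313408) (nat_lit 191381504)) (I.mix (nat_lit 12058624) (nat_lit 9207808)) (I.neg (nat_lit 1458176) (nat_lit 27787264)) (I.pos (nat_lit 208240640) (nat_lit 232095744)) (I.mix (nat_lit 43745280) (nat_lit 32325632)) (I.mix (nat_lit 35520512) (nat_lit 29835264)) (I.mix (nat_lit 33947648) (nat_lit 25837568)))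
  false (nat_lit 0)
def t0 : BTr := (BTr.n (BTr.n (BTr.n (BTr.n (BTr.b b0_0) (BTr.b b0_1)) (BTr.n (BTr.b b0_2) (BTr.n (BTr.b b0_3) (BTr.b b0_4)))) (BTr.n (BTr.n (BTr.b b0_5) (BTr.b b0_6)) (BTr.n (BTr.b b0_7) (BTr.n (BTr.b b0_8) (BTr.b b0_9))))) (BTr.n (BTr.n (BTr.n (BTr.b b0_10) (BTr.b b0_11)) (BTr.n (BTr.b b0_12) (BTr.n (BTr.b b0_13) (BTr.b b0_14)))) (BTr.n (BTr.n (BTr.b b0_15) (BTr.n (BTr.b b0_16) (BTr.b b0_17))) (BTr.n (BTr.b b0_18) (BTr.n (BTr.b b0_19) (BTr.b b0_20))))))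
namespace T0
def l0 : Tr := Tr.L (Pth.l (Pth.l (Pth.l (Pth.l Pth.z))))
def l1 : Tr := Tr.L (Pth.l (Pth.l (Pth.l (Pth.r Pth.z))))
def l2 : Tr := Tr.L (Pth.l (Pth.l (Pth.r (Pth.l Pth.z))))
def l3 : Tr := Tr.L (Pth.l (Pth.l (Pth.r (Pth.r (Pth.l Pth.z)))))
def l4 : Tr := Tr.L (Pth.l (Pth.l (Pth.r (Pth.r (Pth.r Pth.z)))))
def l5 : Tr := Tr.L (Pth.l (Pth.r (Pth.l (Pth.l Pth.z))))
def l6 : Tr := Tr.L (Pth.l (Pth.r (Pth.l (Pth.r Pth.z))))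
def l7 : Tr := Tr.L (Pth.l (Pth.r (Pth.r (Pth.l Pth.z))))
def l8 : Tr := Tr.L (Pth.l (Pth.r (Pth.r (Pth.r (Pth.l Pth.z)))))
def l9 : Tr := Tr.L (Pth.l (Pth.r (Pth.r (Pth.r (Pth.r Pth.z)))))
def l10 : Tr := Tr.L (Pth.r (Pth.l (Pth.l (Pth.l Pth.z))))
def l11 : Tr := Tr.L (Pth.r (Pth.l (Pth.l (Pth.r Pth.z))))
def l12 : Tr := Tr.L (Pth.r (Pth.l (Pth.r (Pth.l Pth.z))))
def l13 : Tr := Tr.L (Pth.r (Pth.l (Pth.r (Pth.r (Pth.l Pth.z)))))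
def l14 : Tr := Tr.L (Pth.r (Pth.l (Pth.r (Pth.r (Pth.r Pth.z)))))
def l15 : Tr := Tr.L (Pth.r (Pth.r (Pth.l (Pth.l Pth.z))))
def l16 : Tr := Tr.L (Pth.r (Pth.r (Pth.l (Pth.r (Pth.l Pth.z)))))
def l17 : Tr := Tr.L (Pth.r (Pth.r (Pth.l (Pth.r (Pth.r Pth.z)))))
def l18 : Tr := Tr.L (Pth.r (Pth.r (Pth.r (Pth.l Pth.z))))
def l19 : Tr := Tr.L (Pth.r (Pth.r (Pth.r (Pth.r (Pth.l Pth.z)))))
def l20 : Tr := Tr.L (Pth.r (Pth.r (Pth.r (Pth.r (Pth.r Pth.z)))))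
end T0
def b1_0 : Bx := Bx.mk (St.mk (I.pos (nat_lit 157483008) (nat_lit 227049472)) (I.mix (nat_lit 278528) (nat_lit 55017472)) (I.mix (nat_lit 278528) (nat_lit 69533696)) (I.pos (nat_lit 148701184) (nat_lit 278020096)) (I.mix (nat_lit 105349120) (nat_lit 58261504)) (I.mix (nat_lit 57360384) (nat_lit 53379072)) (I.mix (nat_lit 89374720) (nat_lit 82165760)))
  false (nat_lit 0)
def b1_1 : Bx := Bx.mk (St.mk (I.mix (nat_lit 18644992) (nat_lit 111886336)) (I.mix (nat_lit 6553600) (nat_lit 30441472)) (I.mix (nat_lit 21790720) (nat_lit 8634368)) (I.pos (nat_lit 42713088) (nat_lit 111935488)) (I.mix (nat_lit 44466176) (nat_lit 49676288)) (I.mix (nat_lit 38043648) (nat_lit 25116672)) (I.mix (nat_lit 28262400) (nat_lit 18546688)))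
  false (nat_lit 0)
def b1_2 : Bx := Bx.mk (St.mk (I.pos (nat_lit 88899584) (nat_lit 129466368)) (I.mix (nat_lit 43565056) (nat_lit 8306688)) (I.neg (nat_lit 7847936) (nat_lit 52592640)) (I.pos (nat_lit 77905920) (nat_lit 127057920)) (I.mix (nat_lit 82542592) (nat_lit 40910848)) (I.mix (nat_lit 34914304) (nat_lit 66732032)) (I.mix (nat_lit 26017792) (nat_lit 50184192)))
  false (nat_lit 0)
def b1_3 : Bx := Bx.mk (St.mk (I.mix (nat_lit 31916032) (nat_lit 64454656)) (I.mix (nat_lit 28901376) (nat_lit 3899392)) (I.neg (nat_lit 2605056) (nat_lit 22970368)) (I.pos (nat_lit 42598400) (nat_lit 80363520)) (I.mix (nat_lit 47185920) (nat_lit 21348352)) (I.mix (nat_lit 16596992) (nat_lit 34717696)) (I.mix (nat_lit 8503296) (nat_lit 14057472)))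
  false (nat_lit 0)
def b1_4 : Bx := Bx.mk (St.mk (I.pos (nat_lit 190644224) (nat_lit 243761152)) (I.mix (nat_lit 12599296) (nat_lit 28983296)) (I.mix (nat_lit 63717376) (nat_lit 11534336)) (I.pos (nat_lit 213401600) (nat_lit 297549824)) (I.mix (nat_lit 112476160) (nat_lit 34357248)) (I.mix (nat_lit 58638336) (nat_lit 60424192)) (I.mix (nat_lit 92143616) (nat_lit 108740608)))
  false (nat_lit 0)
def b1_5 : Bx := Bx.mk (St.mk (I.pos (nat_lit 187105280) (nat_lit 238845952)) (I.pos (nat_lit 7962624) (nat_lit 52822016)) (I.mix (nat_lit 17154048) (nat_lit 61112320)) (I.pos (nat_lit 212844544) (nat_lit 301924352)) (I.mix (nat_lit 91553792) (nat_lit 75694080)) (I.mix (nat_lit 77332480) (nat_lit 61390848)) (I.mix (nat_lit 139083776) (nat_lit 94191616)))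
  false (nat_lit 0)
def b1_6 : Bx := Bx.mk (St.mk (I.mix (nat_lit 42745856) (nat_lit 48070656)) (I.mix (nat_lit 6373376) (nat_lit 10207232)) (I.neg (nat_lit 5029888) (nat_lit 13582336)) (I.pos (nat_lit 43417600) (nat_lit 72728576)) (I.mix (nat_lit 23035904) (nat_lit 17137664)) (I.mix (nat_lit 14401536) (nat_lit 14221312)) (I.mix (nat_lit 4554752) (nat_lit 4849664)))
  false (nat_lit 0)
def b1_7 : Bx := Bx.mk (St.mk (I.pos (nat_lit 77103104) (nat_lit 112164864)) (I.mix (nat_lit 10403840) (nat_lit 15892480)) (I.neg (nat_lit 2801664) (nat_lit 25149440)) (I.pos (nat_lit 71712768) (nat_lit 111968256)) (I.mix (nat_lit 41058304) (nat_lit 27557888)) (I.mix (nat_lit 24772608) (nat_lit 22888448)) (I.mix (nat_lit 17235968) (nat_lit 18432000)))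
  false (nat_lit 0)
def b1_8 : Bx := Bx.mk (St.mk (I.pos (nat_lit 201457664) (nat_lit 254902272)) (I.mix (nat_lit 15007744) (nat_lit 13434880)) (I.neg (nat_lit 18006016) (nat_lit 74153984)) (I.pos (nat_lit 227672064) (nat_lit 325337088)) (I.mix (nat_lit 106151936) (nat_lit 25755648)) (I.mix (nat_lit 54018048) (nat_lit 50233344)) (I.mix (nat_lit 78381056) (nat_lit 92930048)))
  false (nat_lit 0)
def b1_9 : Bx := Bx.mk (St.mk (I.pos (nat_lit 98713600) (nat_lit 172539904)) (I.neg (nat_lit 5177344) (nat_lit 46399488)) (I.neg (nat_lit 11288576) (nat_lit 55607296)) (I.pos (nat_lit 93487104) (nat_lit 180453376)) (I.mix (nat_lit 71172096) (nat_lit 35209216)) (I.mix (nat_lit 36175872) (nat_lit 45383680)) (I.mix (nat_lit 28606464) (nat_lit 45907968)))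
  false (nat_lit 0)
def b1_10 : Bx := Bx.mk (St.mk (I.mix (nat_lit 25788416) (nat_lit 83705856)) (I.mix (nat_lit 29179904) (nat_lit 3964928)) (I.neg (nat_lit 2670592) (nat_lit 23756800)) (I.pos (nat_lit 41648128) (nat_lit 90914816)) (I.mix (nat_lit 41041920) (nat_lit 31571968)) (I.mix (nat_lit 22200320) (nat_lit 30441472)) (I.mix (nat_lit 11993088) (nat_lit 16842752)))
  false (nat_lit 0)
def b1_11 : Bx := Bx.mk (St.mk (I.pos (nat_lit 161120256) (nat_lit 207519744)) (I.mix (nat_lit 11583488) (nat_lit 49676288)) (I.mix (nat_lit 11599872) (nat_lit 62275584)) (I.pos (nat_lit 156155904) (nat_lit 240910336)) (I.mix (nat_lit 117604352) (nat_lit 35536896)) (I.mix (nat_lit 93306880) (nat_lit 53608448)) (I.mix (nat_lit 97927168) (nat_lit 58294272)))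
  false (nat_lit 0)
def b1_12 : Bx := Bx.mk (St.mk (I.mix (nat_lit 35323904) (nat_lit 107167744)) (I.mix (nat_lit 14172160) (nat_lit 31850496)) (I.mix (nat_lit 17268736) (nat_lit 11386880)) (I.pos (nat_lit 41697280) (nat_lit 109264896)) (I.mix (nat_lit 48496640) (nat_lit 30294016)) (I.mix (nat_lit 38289408) (nat_lit 25280512)) (I.mix (nat_lit 19890176) (nat_lit 14483456)))
  false (nat_lit 0)
def b1_13 : Bx := Bx.mk (St.mk (I.pos (nat_lit 165412864) (nat_lit 197296128)) (I.mix (nat_lit 28344320) (nat_lit 4685824)) (I.neg (nat_lit 638976) (nat_lit 39583744)) (I.pos (nat_lit 159154176) (nat_lit 213893120)) (I.mix (nat_lit 48070656) (nat_lit 52838400)) (I.mix (nat_lit 48283648) (nat_lit 44171264)) (I.mix (nat_lit 51625984) (nat_lit 42418176)))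
  false (nat_lit 0)
def b1_14 : Bx := Bx.mk (St.mk (I.pos (nat_lit 143409152) (nat_lit 172310528)) (I.neg (nat_lit 8290304) (nat_lit 33701888)) (I.neg (nat_lit 13729792) (nat_lit 47169536)) (I.pos (nat_lit 129449984) (nat_lit 180092928)) (I.mix (nat_lit 34799616) (nat_lit 21708800)) (I.mix (nat_lit 17842176) (nat_lit 22675456)) (I.mix (nat_lit 19120128) (nat_lit 24150016)))
  false (nat_lit 0)
def b1_15 : Bx := Bx.mk (St.mk (I.pos (nat_lit 164855808) (nat_lit 199311360)) (I.mix (nat_lit 13729792) (nat_lit 21676032)) (I.mix (nat_lit 19300352) (nat_lit 25903104)) (I.pos (nat_lit 158646272) (nat_lit 219267072)) (I.mix (nat_lit 76922880) (nat_lit 47742976)) (I.mix (nat_lit 82804736) (nat_lit 44711936)) (I.mix (nat_lit 89440256) (nat_lit 47169536)))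
  false (nat_lit 0)
def b1_16 : Bx := Bx.mk (St.mk (I.pos (nat_lit 137854976) (nat_lit 173031424)) (I.neg (nat_lit 1097728) (nat_lit 31490048)) (I.neg (nat_lit 5816320) (nat_lit 42434560)) (I.pos (nat_lit 124157952) (nat_lit 181698560)) (I.mix (nat_lit 42598400) (nat_lit 14647296)) (I.mix (nat_lit 24444928) (nat_lit 18268160)) (I.mix (nat_lit 26247168) (nat_lit 19808256)))
  false (nat_lit 0)
def b1_17 : Bx := Bx.mk (St.mk (I.pos (nat_lit 169328640) (nat_lit 194019328)) (I.mix (nat_lit 16793600) (nat_lit 5734400)) (I.mix (nat_lit 23756800) (nat_lit 2490368)) (I.pos (nat_lit 165314560) (nat_lit 209059840)) (I.mix (nat_lit 42958848) (nat_lit 29491200)) (I.mix (nat_lit 34357248) (nat_lit 29802496)) (I.mix (nat_lit 35094528) (nat_lit 29687808)))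
  false (nat_lit 0)
def b1_18 : Bx := Bx.mk (St.mk (I.pos (nat_lit 144080896) (nat_lit 179060736)) (I.mix (nat_lit 28590080) (nat_lit 3850240)) (I.neg (nat_lit 475136) (nat_lit 39944192)) (I.pos (nat_lit 130826240) (nat_lit 190300160)) (I.mix (nat_lit 47857664) (nat_lit 20004864)) (I.mix (nat_lit 28557312) (nat_lit 25280512)) (I.mix (nat_lit 29999104) (nat_lit 26771456)))
  false (nat_lit 0)
def b1_19 : Bx := Bx.mk (St.mk (I.pos (nat_lit 159678464) (nat_lit 191037440)) (I.mix (nat_lit 29310976) (nat_lit 2834432)) (I.neg (nat_lit 2260992) (nat_lit 41123840)) (I.pos (nat_lit 151879680) (nat_lit 204111872)) (I.mix (nat_lit 55984128) (nat_lit 40632320)) (I.mix (nat_lit 43286528) (nat_lit 37502976)) (I.mix (nat_lit 46907392) (nat_lit 36732928)))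
  false (nat_lit 0)
def t1 : BTr := (BTr.n (BTr.n (BTr.n (BTr.n (BTr.b b1_0) (BTr.b b1_1)) (BTr.n (BTr.b b1_2) (BTr.n (BTr.b b1_3) (BTr.b b1_4)))) (BTr.n (BTr.n (BTr.b b1_5) (BTr.b b1_6)) (BTr.n (BTr.b b1_7) (BTr.n (BTr.b b1_8) (BTr.b b1_9))))) (BTr.n (BTr.n (BTr.n (BTr.b b1_10) (BTr.b b1_11)) (BTr.n (BTr.b b1_12) (BTr.n (BTr.b b1_13) (BTr.b b1_14)))) (BTr.n (BTr.n (BTr.b b1_15) (BTr.b b1_16)) (BTr.n (BTr.b b1_17) (BTr.n (BTr.b b1_18) (BTr.b b1_19))))))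
namespace T1
def l0 : Tr := Tr.L (Pth.l (Pth.l (Pth.l (Pth.l Pth.z))))
def l1 : Tr := Tr.L (Pth.l (Pth.l (Pth.l (Pth.r Pth.z))))
def l2 : Tr := Tr.L (Pth.l (Pth.l (Pth.r (Pth.l Pth.z))))
def l3 : Tr := Tr.L (Pth.l (Pth.l (Pth.r (Pth.r (Pth.l Pth.z)))))
def l4 : Tr := Tr.L (Pth.l (Pth.l (Pth.r (Pth.r (Pth.r Pth.z)))))
def l5 : Tr := Tr.L (Pth.l (Pth.r (Pth.l (Pth.l Pth.z))))
def l6 : Tr := Tr.L (Pth.l (Pth.r (Pth.l (Pth.r Pth.z))))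
def l7 : Tr := Tr.L (Pth.l (Pth.r (Pth.r (Pth.l Pth.z))))
def l8 : Tr := Tr.L (Pth.l (Pth.r (Pth.r (Pth.r (Pth.l Pth.z)))))
def l9 : Tr := Tr.L (Pth.l (Pth.r (Pth.r (Pth.r (Pth.r Pth.z)))))
def l10 : Tr := Tr.L (Pth.r (Pth.l (Pth.l (Pth.l Pth.z))))
def l11 : Tr := Tr.L (Pth.r (Pth.l (Pth.l (Pth.r Pth.z))))
def l12 : Tr := Tr.L (Pth.r (Pth.l (Pth.r (Pth.l Pth.z))))
def l13 : Tr := Tr.L (Pth.r (Pth.l (Pth.r (Pth.r (Pth.l Pth.z)))))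
def l14 : Tr := Tr.L (Pth.r (Pth.l (Pth.r (Pth.r (Pth.r Pth.z)))))
def l15 : Tr := Tr.L (Pth.r (Pth.r (Pth.l (Pth.l Pth.z))))
def l16 : Tr := Tr.L (Pth.r (Pth.r (Pth.l (Pth.r Pth.z))))
def l17 : Tr := Tr.L (Pth.r (Pth.r (Pth.r (Pth.l Pth.z))))
def l18 : Tr := Tr.L (Pth.r (Pth.r (Pth.r (Pth.r (Pth.l Pth.z)))))
def l19 : Tr := Tr.L (Pth.r (Pth.r (Pth.r (Pth.r (Pth.r Pth.z)))))
end T1
def b2_0 : Bx := Bx.mk (St.mk (I.pos (nat_lit 142032896) (nat_lit 215302144)) (I.mix (nat_lit 278528) (nat_lit 87408640)) (I.mix (nat_lit 278528) (nat_lit 84787200)) (I.pos (nat_lit 376766464) (nat_lit 463765504)) (I.mix (nat_lit 145211392) (nat_lit 64339968)) (I.mix (nat_lit 70287360) (nat_lit 65110016)) (I.mix (nat_lit 91209728) (nat_lit 98959360)))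
  false (nat_lit 6965238)
def b2_1 : Bx := Bx.mk (St.mk (I.mix (nat_lit 52166656) (nat_lit 17858560)) (I.mix (nat_lit 11878400) (nat_lit 78872576)) (I.neg (nat_lit 46776320) (nat_lit 71565312)) (I.pos (nat_lit 262537216) (nat_lit 293240832)) (I.mix (nat_lit 38928384) (nat_lit 107593728)) (I.mix (nat_lit 73711616) (nat_lit 49332224)) (I.mix (nat_lit 41156608) (nat_lit 28164096)))
  true (nat_lit 0)
def b2_2 : Bx := Bx.mk (St.mk (I.pos (nat_lit 7634944) (nat_lit 52166656)) (I.neg (nat_lit 35471360) (nat_lit 78872576)) (I.neg (nat_lit 47759360) (nat_lit 71565312)) (I.pos (nat_lit 267763712) (nat_lit 293781504)) (I.mix (nat_lit 107593728) (nat_lit 29982720)) (I.mix (nat_lit 49332224) (nat_lit 65011712)) (I.mix (nat_lit 41156608) (nat_lit 28164096)))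
  false (nat_lit 0)
def b2_3 : Bx := Bx.mk (St.mk (I.pos (nat_lit 15302656) (nat_lit 126812160)) (I.neg (nat_lit 11943936) (nat_lit 84393984)) (I.neg (nat_lit 8486912) (nat_lit 77053952)) (I.pos (nat_lit 268615680) (nat_lit 339230720)) (I.mix (nat_lit 112705536) (nat_lit 63635456)) (I.mix (nat_lit 61505536) (nat_lit 67403776)) (I.mix (nat_lit 70877184) (nat_lit 59097088)))
  false (nat_lit 25020715)
def b2_4 : Bx := Bx.mk (St.mk (I.pos (nat_lit 86933504) (nat_lit 185352192)) (I.mix (nat_lit 32604160) (nat_lit 76693504)) (I.mix (nat_lit 31227904) (nat_lit 84623360)) (I.pos (nat_lit 301989888) (nat_lit 432881664)) (I.mix (nat_lit 155664384) (nat_lit 61095936)) (I.mix (nat_lit 115851264) (nat_lit 81526784)) (I.mix (nat_lit 113213440) (nat_lit 111263744)))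
  false (nat_lit 0)
def b2_5 : Bx := Bx.mk (St.mk (I.neg (nat_lit 15286272) (nat_lit 126812160)) (I.pos (nat_lit 4505600) (nat_lit 84393984)) (I.neg (nat_lit 2506752) (nat_lit 77053952)) (I.pos (nat_lit 268599296) (nat_lit 339050496)) (I.mix (nat_lit 63651840) (nat_lit 112721920)) (I.mix (nat_lit 67272704) (nat_lit 61505536)) (I.mix (nat_lit 70893568) (nat_lit 59097088)))
  true (nat_lit 0)
def b2_6 : Bx := Bx.mk (St.mk (I.pos (nat_lit 213352448) (nat_lit 282640384)) (I.mix (nat_lit 17661952) (nat_lit 52150272)) (I.neg (nat_lit 16384) (nat_lit 140476416)) (I.pos (nat_lit 463519744) (nat_lit 576520192)) (I.mix (nat_lit 81838080) (nat_lit 65601536)) (I.mix (nat_lit 68255744) (nat_lit 57049088)) (I.mix (nat_lit 113541120) (nat_lit 108675072)))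
  false (nat_lit 0)
def b2_7 : Bx := Bx.mk (St.mk (I.mix (nat_lit 14761984) (nat_lit 18726912)) (I.mix (nat_lit 30998528) (nat_lit 8404992)) (I.neg (nat_lit 48709632) (nat_lit 57671680)) (I.pos (nat_lit 262815744) (nat_lit 272269312)) (I.mix (nat_lit 43974656) (nat_lit 28753920)) (I.mix (nat_lit 22511616) (nat_lit 26755072)) (I.mix (nat_lit 5767168) (nat_lit 9175040)))
  false (nat_lit 0)
def b2_8 : Bx := Bx.mk (St.mk (I.pos (nat_lit 194166784) (nat_lit 235929600)) (I.pos (nat_lit 5865472) (nat_lit 45416448)) (I.neg (nat_lit 3997696) (nat_lit 64077824)) (I.pos (nat_lit 428785664) (nat_lit 487620608)) (I.mix (nat_lit 82362368) (nat_lit 68927488)) (I.mix (nat_lit 56377344) (nat_lit 48791552)) (I.mix (nat_lit 88113152) (nat_lit 81936384)))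
  false (nat_lit 0)
def b2_9 : Bx := Bx.mk (St.mk (I.pos (nat_lit 8175616) (nat_lit 31735808)) (I.neg (nat_lit 8028160) (nat_lit 31178752)) (I.neg (nat_lit 46792704) (nat_lit 57180160)) (I.pos (nat_lit 264486912) (nat_lit 274530304)) (I.mix (nat_lit 51740672) (nat_lit 36421632)) (I.mix (nat_lit 30457856) (nat_lit 33652736)) (I.mix (nat_lit 8486912) (nat_lit 13336576)))
  false (nat_lit 0)
def b2_10 : Bx := Bx.mk (St.mk (I.pos (nat_lit 229621760) (nat_lit 274464768)) (I.mix (nat_lit 33996800) (nat_lit 10174464)) (I.neg (nat_lit 77332480) (nat_lit 175341568)) (I.pos (nat_lit 472530944) (nat_lit 556613632)) (I.mix (nat_lit 92618752) (nat_lit 36634624)) (I.mix (nat_lit 45039616) (nat_lit 59244544)) (I.mix (nat_lit 70500352) (nat_lit 124256256)))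
  false (nat_lit 0)
def b2_11 : Bx := Bx.mk (St.mk (I.mix (nat_lit 10223616) (nat_lit 12681216)) (I.mix (nat_lit 8568832) (nat_lit 18202624)) (I.neg (nat_lit 49201152) (nat_lit 56115200)) (I.pos (nat_lit 263094272) (nat_lit 269910016)) (I.mix (nat_lit 23592960) (nat_lit 31768576)) (I.mix (nat_lit 19349504) (nat_lit 17350656)) (I.mix (nat_lit 1933312) (nat_lit 6307840)))
  false (nat_lit 0)
def b2_12 : Bx := Bx.mk (St.mk (I.pos (nat_lit 253870080) (nat_lit 283443200)) (I.mix (nat_lit 38174720) (nat_lit 2768896)) (I.neg (nat_lit 96960512) (nat_lit 188317696)) (I.pos (nat_lit 509968384) (nat_lit 574685184)) (I.mix (nat_lit 80478208) (nat_lit 30359552)) (I.mix (nat_lit 42598400) (nat_lit 48037888)) (I.mix (nat_lit 62750720) (nat_lit 100532224)))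
  false (nat_lit 0)
def b2_13 : Bx := Bx.mk (St.mk (I.mix (nat_lit 15843328) (nat_lit 5636096)) (I.mix (nat_lit 5144576) (nat_lit 17547264)) (I.neg (nat_lit 48971776) (nat_lit 55803904)) (I.pos (nat_lit 263192576) (nat_lit 270172160)) (I.mix (nat_lit 20348928) (nat_lit 22151168)) (I.mix (nat_lit 13778944) (nat_lit 14958592)) (I.mix (nat_lit 1294336) (nat_lit 6029312)))
  false (nat_lit 0)
def b2_14 : Bx := Bx.mk (St.mk (I.pos (nat_lit 174473216) (nat_lit 222117888)) (I.pos (nat_lit 7274496) (nat_lit 48693248)) (I.mix (nat_lit 59473920) (nat_lit 13123584)) (I.pos (nat_lit 407437312) (nat_lit 458194944)) (I.mix (nat_lit 85458944) (nat_lit 42156032)) (I.mix (nat_lit 53362688) (nat_lit 41336832)) (I.mix (nat_lit 69320704) (nat_lit 69681152)))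
  false (nat_lit 0)
def b2_15 : Bx := Bx.mk (St.mk (I.pos (nat_lit 12615680) (nat_lit 41811968)) (I.neg (nat_lit 8994816) (nat_lit 42483712)) (I.neg (nat_lit 46776320) (nat_lit 58982400)) (I.pos (nat_lit 264847360) (nat_lit 279199744)) (I.mix (nat_lit 46628864) (nat_lit 38928384)) (I.mix (nat_lit 29966336) (nat_lit 33849344)) (I.mix (nat_lit 11845632) (nat_lit 14237696)))
  false (nat_lit 0)
def b2_16 : Bx := Bx.mk (St.mk (I.mix (nat_lit 9617408) (nat_lit 17448960)) (I.mix (nat_lit 15663104) (nat_lit 16875520)) (I.neg (nat_lit 49152000) (nat_lit 56164352)) (I.pos (nat_lit 263077888) (nat_lit 270041088)) (I.mix (nat_lit 25968640) (nat_lit 34193408)) (I.mix (nat_lit 20250624) (nat_lit 18530304)) (I.mix (nat_lit 2424832) (nat_lit 6569984)))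
  false (nat_lit 0)
def b2_17 : Bx := Bx.mk (St.mk (I.pos (nat_lit 256147456) (nat_lit 289079296)) (I.mix (nat_lit 29442048) (nat_lit 6930432)) (I.neg (nat_lit 91668480) (nat_lit 170967040)) (I.pos (nat_lit 519258112) (nat_lit 589053952)) (I.mix (nat_lit 76038144) (nat_lit 55263232)) (I.mix (nat_lit 58359808) (nat_lit 53362688)) (I.mix (nat_lit 100319232) (nat_lit 104022016)))
  false (nat_lit 0)
def b2_18 : Bx := Bx.mk (St.mk (I.mix (nat_lit 17858560) (nat_lit 6062080)) (I.mix (nat_lit 7929856) (nat_lit 15646720)) (I.neg (nat_lit 49168384) (nat_lit 56360960)) (I.pos (nat_lit 263127040) (nat_lit 270041088)) (I.mix (nat_lit 31211520) (nat_lit 27688960)) (I.mix (nat_lit 18792448) (nat_lit 19922944)) (I.mix (nat_lit 2621440) (nat_lit 6586368)))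
  false (nat_lit 0)
def b2_19 : Bx := Bx.mk (St.mk (I.pos (nat_lit 213499904) (nat_lit 234569728)) (I.pos (nat_lit 17547264) (nat_lit 37257216)) (I.neg (nat_lit 21135360) (nat_lit 49561600)) (I.pos (nat_lit 460800000) (nat_lit 484671488)) (I.mix (nat_lit 46088192) (nat_lit 21610496)) (I.mix (nat_lit 30572544) (nat_lit 20316160)) (I.mix (nat_lit 43171840) (nat_lit 35831808)))
  false (nat_lit 0)
def b2_20 : Bx := Bx.mk (St.mk (I.pos (nat_lit 7700480) (nat_lit 19349504)) (I.neg (nat_lit 13402112) (nat_lit 25739264)) (I.neg (nat_lit 48840704) (nat_lit 56590336)) (I.pos (nat_lit 264388608) (nat_lit 272039936)) (I.mix (nat_lit 27475968) (nat_lit 12894208)) (I.mix (nat_lit 12976128) (nat_lit 17809408)) (I.mix (nat_lit 2752512) (nat_lit 7307264)))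
  false (nat_lit 0)
def b2_21 : Bx := Bx.mk (St.mk (I.pos (nat_lit 220921856) (nat_lit 273203200)) (I.mix (nat_lit 31571968) (nat_lit 20725760)) (I.neg (nat_lit 56295424) (nat_lit 167870464)) (I.pos (nat_lit 461651968) (nat_lit 555499520)) (I.mix (nat_lit 96714752) (nat_lit 34340864)) (I.mix (nat_lit 46104576) (nat_lit 60882944)) (I.mix (nat_lit 71532544) (nat_lit 125534208)))
  false (nat_lit 0)
def b2_22 : Bx := Bx.mk (St.mk (I.pos (nat_lit 157450240) (nat_lit 211468288)) (I.pos (nat_lit 27033600) (nat_lit 84180992)) (I.mix (nat_lit 12550144) (nat_lit 74530816)) (I.pos (nat_lit 403226624) (nat_lit 463994880)) (I.mix (nat_lit 107675648) (nat_lit 73875456)) (I.mix (nat_lit 74317824) (nat_lit 57606144)) (I.mix (nat_lit 124092416) (nat_lit 76513280)))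
  false (nat_lit 0)
def b2_23 : Bx := Bx.mk (St.mk (I.pos (nat_lit 7815168) (nat_lit 42909696)) (I.neg (nat_lit 22937600) (nat_lit 69287936)) (I.neg (nat_lit 48578560) (nat_lit 69107712)) (I.pos (nat_lit 267337728) (nat_lit 285442048)) (I.mix (nat_lit 101974016) (nat_lit 34193408)) (I.mix (nat_lit 32718848) (nat_lit 73711616)) (I.mix (nat_lit 28770304) (nat_lit 22577152)))
  false (nat_lit 0)
def t2 : BTr := (BTr.n (BTr.n (BTr.n (BTr.n (BTr.b b2_0) (BTr.n (BTr.b b2_1) (BTr.b b2_2))) (BTr.n (BTr.b b2_3) (BTr.n (BTr.b b2_4) (BTr.b b2_5)))) (BTr.n (BTr.n (BTr.b b2_6) (BTr.n (BTr.b b2_7) (BTr.b b2_8))) (BTr.n (BTr.b b2_9) (BTr.n (BTr.b b2_10) (BTr.b b2_11))))) (BTr.n (BTr.n (BTr.n (BTr.b b2_12) (BTr.n (BTr.b b2_13) (BTr.b b2_14))) (BTr.n (BTr.b b2_15) (BTr.n (BTr.b b2_16) (BTr.b b2_17)))) (BTr.n (BTr.n (BTr.b b2_18) (BTr.n (BTr.b b2_19)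 (BTr.b b2_20))) (BTr.n (BTr.b b2_21) (BTr.n (BTr.b b2_22) (BTr.b b2_23))))))
namespace T2
def l0 : Tr := Tr.L (Pth.l (Pth.l (Pth.l (Pth.l Pth.z))))
def l1 : Tr := Tr.L (Pth.l (Pth.l (Pth.l (Pth.r (Pth.l Pth.z)))))
def l2 : Tr := Tr.L (Pth.l (Pth.l (Pth.l (Pth.r (Pth.r Pth.z)))))
def l3 : Tr := Tr.L (Pth.l (Pth.l (Pth.r (Pth.l Pth.z))))
def l4 : Tr := Tr.L (Pth.l (Pth.l (Pth.r (Pth.r (Pth.l Pth.z)))))
def l5 : Tr := Tr.L (Pth.l (Pth.l (Pth.r (Pth.r (Pth.r Pth.z)))))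
def l6 : Tr := Tr.L (Pth.l (Pth.r (Pth.l (Pth.l Pth.z))))
def l7 : Tr := Tr.L (Pth.l (Pth.r (Pth.l (Pth.r (Pth.l Pth.z)))))
def l8 : Tr := Tr.L (Pth.l (Pth.r (Pth.l (Pth.r (Pth.r Pth.z)))))
def l9 : Tr := Tr.L (Pth.l (Pth.r (Pth.r (Pth.l Pth.z))))
def l10 : Tr := Tr.L (Pth.l (Pth.r (Pth.r (Pth.r (Pth.l Pth.z)))))
def l11 : Tr := Tr.L (Pth.l (Pth.r (Pth.r (Pth.r (Pth.r Pth.z)))))
def l12 : Tr := Tr.L (Pth.r (Pth.l (Pth.l (Pth.l Pth.z))))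
def l13 : Tr := Tr.L (Pth.r (Pth.l (Pth.l (Pth.r (Pth.l Pth.z)))))
def l14 : Tr := Tr.L (Pth.r (Pth.l (Pth.l (Pth.r (Pth.r Pth.z)))))
def l15 : Tr := Tr.L (Pth.r (Pth.l (Pth.r (Pth.l Pth.z))))
def l16 : Tr := Tr.L (Pth.r (Pth.l (Pth.r (Pth.r (Pth.l Pth.z)))))
def l17 : Tr := Tr.L (Pth.r (Pth.l (Pth.r (Pth.r (Pth.r Pth.z)))))
def l18 : Tr := Tr.L (Pth.r (Pth.r (Pth.l (Pth.l Pth.z))))
def l19 : Tr := Tr.L (Pth.r (Pth.r (Pth.l (Pth.r (Pth.l Pth.z)))))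
def l20 : Tr := Tr.L (Pth.r (Pth.r (Pth.l (Pth.r (Pth.r Pth.z)))))
def l21 : Tr := Tr.L (Pth.r (Pth.r (Pth.r (Pth.l Pth.z))))
def l22 : Tr := Tr.L (Pth.r (Pth.r (Pth.r (Pth.r (Pth.l Pth.z)))))
def l23 : Tr := Tr.L (Pth.r (Pth.r (Pth.r (Pth.r (Pth.r Pth.z)))))
end T2
def b3_0 : Bx := Bx.mk (St.mk (I.pos (nat_lit 142573568) (nat_lit 226443264)) (I.mix (nat_lit 278528) (nat_lit 47988736)) (I.mix (nat_lit 278528) (nat_lit 101711872)) (I.pos (nat_lit 145178624) (nat_lit 250986496)) (I.mix (nat_lit 119144448) (nat_lit 66568192)) (I.mix (nat_lit 81641472) (nat_lit 70975488)) (I.mix (nat_lit 108527616) (nat_lit 91111424)))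
  false (nat_lit 6234892)
def b3_1 : Bx := Bx.mk (St.mk (I.pos (nat_lit 104824832) (nat_lit 168493056)) (I.neg (nat_lit 5685248) (nat_lit 54050816)) (I.mix (nat_lit 37404672) (nat_lit 17203200)) (I.pos (nat_lit 103661568) (nat_lit 171212800)) (I.mix (nat_lit 63258624) (nat_lit 50200576)) (I.mix (nat_lit 35995648) (nat_lit 46350336)) (I.mix (nat_lit 32260096) (nat_lit 46809088)))
  false (nat_lit 0)
def b3_2 : Bx := Bx.mk (St.mk (I.mix (nat_lit 20398080) (nat_lit 79036416)) (I.mix (nat_lit 30867456) (nat_lit 2686976)) (I.mix (nat_lit 8667136) (nat_lit 12238848)) (I.pos (nat_lit 42303488) (nat_lit 87736320)) (I.mix (nat_lit 31571968) (nat_lit 40812544)) (I.mix (nat_lit 21069824) (nat_lit 30769152)) (I.mix (nat_lit 9224192) (nat_lit 16908288)))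
  false (nat_lit 0)
def b3_3 : Bx := Bx.mk (St.mk (I.pos (nat_lit 150110208) (nat_lit 197181440)) (I.mix (nat_lit 11026432) (nat_lit 43630592)) (I.pos (nat_lit 21757952) (nat_lit 90963968)) (I.pos (nat_lit 136478720) (nat_lit 208797696)) (I.mix (nat_lit 122748928) (nat_lit 31834112)) (I.mix (nat_lit 101744640) (nat_lit 51019776)) (I.mix (nat_lit 112082944) (nat_lit 39305216)))
  false (nat_lit 0)
def b3_4 : Bx := Bx.mk (St.mk (I.mix (nat_lit 31916032) (nat_lit 101072896)) (I.mix (nat_lit 12091392) (nat_lit 30294016)) (I.pos (nat_lit 147456) (nat_lit 30588928)) (I.pos (nat_lit 42680320) (nat_lit 103596032)) (I.mix (nat_lit 59998208) (nat_lit 36028416)) (I.mix (nat_lit 48201728) (nat_lit 24739840)) (I.mix (nat_lit 26492928) (nat_lit 14647296)))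
  false (nat_lit 0)
def b3_5 : Bx := Bx.mk (St.mk (I.pos (nat_lit 156221440) (nat_lit 196575232)) (I.mix (nat_lit 37617664) (nat_lit 917504)) (I.mix (nat_lit 12845056) (nat_lit 35323904)) (I.pos (nat_lit 146194432) (nat_lit 205832192)) (I.mix (nat_lit 53051392) (nat_lit 67026944)) (I.mix (nat_lit 56836096) (nat_lit 49168384)) (I.mix (nat_lit 51904512) (nat_lit 51789824)))
  false (nat_lit 25688599)
def b3_6 : Bx := Bx.mk (St.mk (I.pos (nat_lit 149536768) (nat_lit 192954368)) (I.mix (nat_lit 23625728) (nat_lit 18235392)) (I.pos (nat_lit 7634944) (nat_lit 57802752)) (I.pos (nat_lit 136036352) (nat_lit 200785920)) (I.mix (nat_lit 105103360) (nat_lit 56623104)) (I.mix (nat_lit 93372416) (nat_lit 47267840)) (I.mix (nat_lit 99385344) (nat_lit 43548672)))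
  false (nat_lit 0)
def b3_7 : Bx := Bx.mk (St.mk (I.mix (nat_lit 43155456) (nat_lit 83148800)) (I.mix (nat_lit 18055168) (nat_lit 7831552)) (I.mix (nat_lit 327680) (nat_lit 14319616)) (I.pos (nat_lit 43630592) (nat_lit 88850432)) (I.mix (nat_lit 31981568) (nat_lit 23363584)) (I.mix (nat_lit 17973248) (nat_lit 20152320)) (I.mix (nat_lit 9601024) (nat_lit 9748480)))
  false (nat_lit 0)
def b3_8 : Bx := Bx.mk (St.mk (I.pos (nat_lit 135282688) (nat_lit 167755776)) (I.neg (nat_lit 4259840) (nat_lit 34275328)) (I.mix (nat_lit 11239424) (nat_lit 20348928)) (I.pos (nat_lit 122273792) (nat_lit 167411712)) (I.mix (nat_lit 54231040) (nat_lit 29016064)) (I.mix (nat_lit 24969216) (nat_lit 36929536)) (I.mix (nat_lit 28524544) (nat_lit 32063488)))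
  false (nat_lit 0)
def b3_9 : Bx := Bx.mk (St.mk (I.pos (nat_lit 147128320) (nat_lit 182337536)) (I.neg (nat_lit 10747904) (nat_lit 37175296)) (I.mix (nat_lit 13697024) (nat_lit 15351808)) (I.pos (nat_lit 135364608) (nat_lit 188530688)) (I.mix (nat_lit 52690944) (nat_lit 44875776)) (I.mix (nat_lit 44400640) (nat_lit 34455552)) (I.mix (nat_lit 44711936) (nat_lit 34914304)))
  false (nat_lit 0)
def b3_10 : Bx := Bx.mk (St.mk (I.mix (nat_lit 28164096) (nat_lit 119635968)) (I.mix (nat_lit 10502144) (nat_lit 28688384)) (I.mix (nat_lit 2359296) (nat_lit 28262400)) (I.pos (nat_lit 42041344) (nat_lit 117456896)) (I.mix (nat_lit 49119232) (nat_lit 41893888)) (I.mix (nat_lit 37093376) (nat_lit 30081024)) (I.mix (nat_lit 25952256) (nat_lit 19857408)))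
  false (nat_lit 0)
def b3_11 : Bx := Bx.mk (St.mk (I.pos (nat_lit 90472448) (nat_lit 136986624)) (I.mix (nat_lit 51511296) (nat_lit 8192000)) (I.mix (nat_lit 34832384) (nat_lit 13221888)) (I.pos (nat_lit 79069184) (nat_lit 136806400)) (I.mix (nat_lit 72564736) (nat_lit 36388864)) (I.mix (nat_lit 28704768) (nat_lit 56655872)) (I.mix (nat_lit 21839872) (nat_lit 37896192)))
  false (nat_lit 0)
def b3_12 : Bx := Bx.mk (St.mk (I.mix (nat_lit 34668544) (nat_lit 71204864)) (I.mix (nat_lit 31014912) (nat_lit 4587520)) (I.mix (nat_lit 7077888) (nat_lit 9879552)) (I.pos (nat_lit 42729472) (nat_lit 83820544)) (I.mix (nat_lit 36388864) (nat_lit 24510464)) (I.mix (nat_lit 18382848) (nat_lit 26394624)) (I.mix (nat_lit 7897088) (nat_lit 9535488)))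
  false (nat_lit 0)
def b3_13 : Bx := Bx.mk (St.mk (I.pos (nat_lit 187351040) (nat_lit 233242624)) (I.mix (nat_lit 2048000) (nat_lit 25640960)) (I.pos (nat_lit 15974400) (nat_lit 66125824)) (I.pos (nat_lit 201424896) (nat_lit 262766592)) (I.mix (nat_lit 89538560) (nat_lit 29392896)) (I.mix (nat_lit 50790400) (nat_lit 34340864)) (I.mix (nat_lit 78807040) (nat_lit 50331648)))
  false (nat_lit 0)
def b3_14 : Bx := Bx.mk (St.mk (I.pos (nat_lit 227213312) (nat_lit 265928704)) (I.mix (nat_lit 19070976) (nat_lit 16498688)) (I.mix (nat_lit 19660800) (nat_lit 49627136)) (I.pos (nat_lit 259424256) (nat_lit 339902464)) (I.mix (nat_lit 61636608) (nat_lit 19775488)) (I.mix (nat_lit 23265280) (nat_lit 35749888)) (I.mix (nat_lit 42172416) (nat_lit 60407808)))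
  false (nat_lit 0)
def b3_15 : Bx := Bx.mk (St.mk (I.pos (nat_lit 173850624) (nat_lit 224395264)) (I.pos (nat_lit 12140544) (nat_lit 46268416)) (I.pos (nat_lit 39993344) (nat_lit 99205120)) (I.pos (nat_lit 186073088) (nat_lit 245940224)) (I.mix (nat_lit 99647488) (nat_lit 69615616)) (I.mix (nat_lit 78102528) (nat_lit 54132736)) (I.mix (nat_lit 121372672) (nat_lit 66420736)))
  false (nat_lit 1118420)
def b3_16 : Bx := Bx.mk (St.mk (I.pos (nat_lit 225132544) (nat_lit 282165248)) (I.mix (nat_lit 20938752) (nat_lit 29655040)) (I.mix (nat_lit 21528576) (nat_lit 75104256)) (I.pos (nat_lit 254967808) (nat_lit 376684544)) (I.mix (nat_lit 59424768) (nat_lit 50724864)) (I.mix (nat_lit 53968896) (nat_lit 38289408)) (I.mix (nat_lit 94650368) (nat_lit 62849024)))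
  false (nat_lit 6173303)
def b3_17 : Bx := Bx.mk (St.mk (I.pos (nat_lit 251674624) (nat_lit 279560192)) (I.neg (nat_lit 1884160) (nat_lit 28950528)) (I.mix (nat_lit 38830080) (nat_lit 11321344)) (I.pos (nat_lit 306839552) (nat_lit 372080640)) (I.mix (nat_lit 58179584) (nat_lit 21430272)) (I.mix (nat_lit 28295168) (nat_lit 33488896)) (I.mix (nat_lit 50462720) (nat_lit 53510144)))
  false (nat_lit 0)
def b3_18 : Bx := Bx.mk (St.mk (I.pos (nat_lit 209649664) (nat_lit 276119552)) (I.mix (nat_lit 15040512) (nat_lit 34373632)) (I.mix (nat_lit 9371648) (nat_lit 84131840)) (I.pos (nat_lit 233848832) (nat_lit 363921408)) (I.mix (nat_lit 71483392) (nat_lit 55820288)) (I.mix (nat_lit 52592640) (nat_lit 49512448)) (I.mix (nat_lit 89128960) (nat_lit 83165184)))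
  false (nat_lit 9875501)
def b3_19 : Bx := Bx.mk (St.mk (I.pos (nat_lit 195805184) (nat_lit 240599040)) (I.mix (nat_lit 4734976) (nat_lit 27672576)) (I.pos (nat_lit 11911168) (nat_lit 71680000)) (I.pos (nat_lit 212598784) (nat_lit 279461888)) (I.mix (nat_lit 79544320) (nat_lit 45039616)) (I.mix (nat_lit 51740672) (nat_lit 36798464)) (I.mix (nat_lit 81051648) (nat_lit 58654720)))
  false (nat_lit 0)
def b3_20 : Bx := Bx.mk (St.mk (I.pos (nat_lit 183943168) (nat_lit 227016704)) (I.pos (nat_lit 7241728) (nat_lit 28803072)) (I.pos (nat_lit 31391744) (nat_lit 71548928)) (I.pos (nat_lit 199131136) (nat_lit 247758848)) (I.mix (nat_lit 80035840) (nat_lit 20987904)) (I.mix (nat_lit 43008000) (nat_lit 23412736)) (I.mix (nat_lit 67371008) (nat_lit 31391744)))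
  false (nat_lit 0)
def b3_21 : Bx := Bx.mk (St.mk (I.pos (nat_lit 232259584) (nat_lit 273596416)) (I.mix (nat_lit 28950528) (nat_lit 8208384)) (I.mix (nat_lit 39092224) (nat_lit 31653888)) (I.pos (nat_lit 267599872) (nat_lit 359628800)) (I.mix (nat_lit 72925184) (nat_lit 22183936)) (I.mix (nat_lit 30228480) (nat_lit 42876928)) (I.mix (nat_lit 55083008) (nat_lit 71598080)))
  false (nat_lit 0)
def t3 : BTr := (BTr.n (BTr.n (BTr.n (BTr.n (BTr.b b3_0) (BTr.b b3_1)) (BTr.n (BTr.b b3_2) (BTr.n (BTr.b b3_3) (BTr.b b3_4)))) (BTr.n (BTr.n (BTr.b b3_5) (BTr.n (BTr.b b3_6) (BTr.b b3_7))) (BTr.n (BTr.b b3_8) (BTr.n (BTr.b b3_9) (BTr.b b3_10))))) (BTr.n (BTr.n (BTr.n (BTr.b b3_11) (BTr.b b3_12)) (BTr.n (BTr.b b3_13) (BTr.n (BTr.b b3_14) (BTr.b b3_15)))) (BTr.n (BTr.n (BTr.b b3_16) (BTr.n (BTr.b b3_17) (BTr.b b3_18))) (BTr.n (BTr.b b3_19) (BTr.n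 (BTr.b b3_20) (BTr.b b3_21))))))
namespace T3
def l0 : Tr := Tr.L (Pth.l (Pth.l (Pth.l (Pth.l Pth.z))))
def l1 : Tr := Tr.L (Pth.l (Pth.l (Pth.l (Pth.r Pth.z))))
def l2 : Tr := Tr.L (Pth.l (Pth.l (Pth.r (Pth.l Pth.z))))
def l3 : Tr := Tr.L (Pth.l (Pth.l (Pth.r (Pth.r (Pth.l Pth.z)))))
def l4 : Tr := Tr.L (Pth.l (Pth.l (Pth.r (Pth.r (Pth.r Pth.z)))))
def l5 : Tr := Tr.L (Pth.l (Pth.r (Pth.l (Pth.l Pth.z))))
def l6 : Tr := Tr.L (Pth.l (Pth.r (Pth.l (Pth.r (Pth.l Pth.z)))))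
def l7 : Tr := Tr.L (Pth.l (Pth.r (Pth.l (Pth.r (Pth.r Pth.z)))))
def l8 : Tr := Tr.L (Pth.l (Pth.r (Pth.r (Pth.l Pth.z))))
def l9 : Tr := Tr.L (Pth.l (Pth.r (Pth.r (Pth.r (Pth.l Pth.z)))))
def l10 : Tr := Tr.L (Pth.l (Pth.r (Pth.r (Pth.r (Pth.r Pth.z)))))
def l11 : Tr := Tr.L (Pth.r (Pth.l (Pth.l (Pth.l Pth.z))))
def l12 : Tr := Tr.L (Pth.r (Pth.l (Pth.l (Pth.r Pth.z))))
def l13 : Tr := Tr.L (Pth.r (Pth.l (Pth.r (Pth.l Pth.z))))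
def l14 : Tr := Tr.L (Pth.r (Pth.l (Pth.r (Pth.r (Pth.l Pth.z)))))
def l15 : Tr := Tr.L (Pth.r (Pth.l (Pth.r (Pth.r (Pth.r Pth.z)))))
def l16 : Tr := Tr.L (Pth.r (Pth.r (Pth.l (Pth.l Pth.z))))
def l17 : Tr := Tr.L (Pth.r (Pth.r (Pth.l (Pth.r (Pth.l Pth.z)))))
def l18 : Tr := Tr.L (Pth.r (Pth.r (Pth.l (Pth.r (Pth.r Pth.z)))))
def l19 : Tr := Tr.L (Pth.r (Pth.r (Pth.r (Pth.l Pth.z))))
def l20 : Tr := Tr.L (Pth.r (Pth.r (Pth.r (Pth.r (Pth.l Pth.z)))))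
def l21 : Tr := Tr.L (Pth.r (Pth.r (Pth.r (Pth.r (Pth.r Pth.z)))))
end T3
def b4_0 : Bx := Bx.mk (St.mk (I.pos (nat_lit 135364608) (nat_lit 215302144)) (I.mix (nat_lit 278528) (nat_lit 84557824)) (I.mix (nat_lit 278528) (nat_lit 101597184)) (I.pos (nat_lit 371539968) (nat_lit 457228288)) (I.mix (nat_lit 154075136) (nat_lit 70828032)) (I.mix (nat_lit 73105408) (nat_lit 67321856)) (I.mix (nat_lit 89571328) (nat_lit 92979200)))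
  false (nat_lit 60920614)
def b4_1 : Bx := Bx.mk (St.mk (I.pos (nat_lit 22757376) (nat_lit 130482176)) (I.neg (nat_lit 11714560) (nat_lit 86802432)) (I.mix (nat_lit 62488576) (nat_lit 10010624)) (I.pos (nat_lit 273481728) (nat_lit 340852736)) (I.mix (nat_lit 103612416) (nat_lit 67436544)) (I.mix (nat_lit 63471616) (nat_lit 63209472)) (I.mix (nat_lit 68927488) (nat_lit 55607296)))
  false (nat_lit 46161843)
def b4_2 : Bx := Bx.mk (St.mk (I.pos (nat_lit 86114304) (nat_lit 178487296)) (I.mix (nat_lit 33079296) (nat_lit 74170368)) (I.mix (nat_lit 14680064) (nat_lit 101564416)) (I.pos (nat_lit 302186496) (nat_lit 419643392)) (I.mix (nat_lit 163020800) (nat_lit 56229888)) (I.mix (nat_lit 115916800) (nat_lit 77053952)) (I.mix (nat_lit 118439936) (nat_lit 106119168)))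
  false (nat_lit 38932314)
def b4_3 : Bx := Bx.mk (St.mk (I.neg (nat_lit 22740992) (nat_lit 130301952)) (I.pos (nat_lit 2654208) (nat_lit 86818816)) (I.mix (nat_lit 62504960) (nat_lit 17743872)) (I.pos (nat_lit 273465344) (nat_lit 340623360)) (I.mix (nat_lit 67452928) (nat_lit 103612416)) (I.mix (nat_lit 63209472) (nat_lit 63471616)) (I.mix (nat_lit 68927488) (nat_lit 55607296)))
  true (nat_lit 0)
def b4_4 : Bx := Bx.mk (St.mk (I.mix (nat_lit 56279040) (nat_lit 15990784)) (I.mix (nat_lit 14041088) (nat_lit 82329600)) (I.neg (nat_lit 33128448) (nat_lit 58114048)) (I.pos (nat_lit 264421376) (nat_lit 297893888)) (I.mix (nat_lit 42909696) (nat_lit 106004480)) (I.mix (nat_lit 74579968) (nat_lit 58359808)) (I.mix (nat_lit 44646400) (nat_lit 23986176)))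
  true (nat_lit 0)
def b4_5 : Bx := Bx.mk (St.mk (I.pos (nat_lit 12042240) (nat_lit 55590912)) (I.neg (nat_lit 35864576) (nat_lit 82329600)) (I.neg (nat_lit 34406400) (nat_lit 58114048)) (I.pos (nat_lit 270942208) (nat_lit 297467904)) (I.mix (nat_lit 106004480) (nat_lit 33259520)) (I.mix (nat_lit 58359808) (nat_lit 63995904)) (I.mix (nat_lit 44646400) (nat_lit 23986176)))
  false (nat_lit 17644514)
def b4_6 : Bx := Bx.mk (St.mk (I.pos (nat_lit 203685888) (nat_lit 285868032)) (I.mix (nat_lit 16121856) (nat_lit 57769984)) (I.mix (nat_lit 109248512) (nat_lit 38830080)) (I.pos (nat_lit 450936832) (nat_lit 578142208)) (I.mix (nat_lit 73826304) (nat_lit 69173248)) (I.mix (nat_lit 65306624) (nat_lit 54050816)) (I.mix (nat_lit 109395968) (nat_lit 92372992)))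
  false (nat_lit 23358569)
def b4_7 : Bx := Bx.mk (St.mk (I.mix (nat_lit 12271616) (nat_lit 24707072)) (I.mix (nat_lit 36749312) (nat_lit 7684096)) (I.neg (nat_lit 35291136) (nat_lit 44990464)) (I.pos (nat_lit 264847360) (nat_lit 276201472)) (I.mix (nat_lit 43139072) (nat_lit 26378240)) (I.mix (nat_lit 22183936) (nat_lit 26001408)) (I.mix (nat_lit 7602176) (nat_lit 7634944)))
  false (nat_lit 0)
def b4_8 : Bx := Bx.mk (St.mk (I.pos (nat_lit 185827328) (nat_lit 228114432)) (I.pos (nat_lit 8044544) (nat_lit 48939008)) (I.mix (nat_lit 31621120) (nat_lit 31424512)) (I.pos (nat_lit 419954688) (nat_lit 473841664)) (I.mix (nat_lit 85917696) (nat_lit 61554688)) (I.mix (nat_lit 57851904) (nat_lit 48480256)) (I.mix (nat_lit 79757312) (nat_lit 77185024)))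
  false (nat_lit 0)
def b4_9 : Bx := Bx.mk (St.mk (I.pos (nat_lit 12140544) (nat_lit 37748736)) (I.neg (nat_lit 10878976) (nat_lit 37044224)) (I.neg (nat_lit 33161216) (nat_lit 44105728)) (I.pos (nat_lit 267452416) (nat_lit 278642688)) (I.mix (nat_lit 54001664) (nat_lit 40976384)) (I.mix (nat_lit 33603584) (nat_lit 35373056)) (I.mix (nat_lit 10698752) (nat_lit 12468224)))
  false (nat_lit 0)
def b4_10 : Bx := Bx.mk (St.mk (I.pos (nat_lit 234848256) (nat_lit 275578880)) (I.mix (nat_lit 31932416) (nat_lit 6963200)) (I.neg (nat_lit 59604992) (nat_lit 140361728)) (I.pos (nat_lit 484999168) (nat_lit 555483136)) (I.mix (nat_lit 80150528) (nat_lit 28639232)) (I.mix (nat_lit 40501248) (nat_lit 50151424)) (I.mix (nat_lit 59899904) (nat_lit 93962240)))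
  false (nat_lit 0)
def b4_11 : Bx := Bx.mk (St.mk (I.mix (nat_lit 8536064) (nat_lit 20676608)) (I.mix (nat_lit 18530304) (nat_lit 15056896)) (I.neg (nat_lit 35225600) (nat_lit 42811392)) (I.pos (nat_lit 265043968) (nat_lit 272793600)) (I.mix (nat_lit 25231360) (nat_lit 27017216)) (I.mix (nat_lit 16384000) (nat_lit 17317888)) (I.mix (nat_lit 3293184) (nat_lit 5193728)))
  false (nat_lit 0)
def b4_12 : Bx := Bx.mk (St.mk (I.pos (nat_lit 254312448) (nat_lit 284327936)) (I.neg (nat_lit 3112960) (nat_lit 28606464)) (I.neg (nat_lit 84525056) (nat_lit 140525568)) (I.pos (nat_lit 517734400) (nat_lit 574537728)) (I.mix (nat_lit 54296576) (nat_lit 23855104)) (I.mix (nat_lit 29868032) (nat_lit 29360128)) (I.mix (nat_lit 49610752) (nat_lit 57098240)))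
  false (nat_lit 0)
def b4_13 : Bx := Bx.mk (St.mk (I.mix (nat_lit 12320768) (nat_lit 3948544)) (I.mix (nat_lit 3899392) (nat_lit 13139968)) (I.neg (nat_lit 36061184) (nat_lit 42369024)) (I.pos (nat_lit 265207808) (nat_lit 271515648)) (I.mix (nat_lit 14057472) (nat_lit 13942784)) (I.mix (nat_lit 8372224) (nat_lit 9748480)) (I.mix (nat_lit 1474560) (nat_lit 3244032)))
  false (nat_lit 0)
def b4_14 : Bx := Bx.mk (St.mk (I.pos (nat_lit 173473792) (nat_lit 216563712)) (I.pos (nat_lit 13811712) (nat_lit 40484864)) (I.mix (nat_lit 18481152) (nat_lit 17055744)) (I.pos (nat_lit 405684224) (nat_lit 448806912)) (I.mix (nat_lit 88702976) (nat_lit 33652736)) (I.mix (nat_lit 51544064) (nat_lit 32374784)) (I.mix (nat_lit 67895296) (nat_lit 51609600)))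
  false (nat_lit 0)
def b4_15 : Bx := Bx.mk (St.mk (I.pos (nat_lit 16941056) (nat_lit 48037888)) (I.neg (nat_lit 12615680) (nat_lit 47087616)) (I.neg (nat_lit 33112064) (nat_lit 45580288)) (I.pos (nat_lit 267894784) (nat_lit 284196864)) (I.mix (nat_lit 44400640) (nat_lit 42909696)) (I.mix (nat_lit 30490624) (nat_lit 33619968)) (I.mix (nat_lit 13025280) (nat_lit 13107200)))
  false (nat_lit 0)
def b4_16 : Bx := Bx.mk (St.mk (I.pos (nat_lit 210108416) (nat_lit 274333696)) (I.mix (nat_lit 28655616) (nat_lit 31735808)) (I.neg (nat_lit 8716288) (nat_lit 132628480)) (I.pos (nat_lit 452591616) (nat_lit 553746432)) (I.mix (nat_lit 85278720) (nat_lit 36536320)) (I.mix (nat_lit 44040192) (nat_lit 53264384)) (I.mix (nat_lit 69337088) (nat_lit 99926016)))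
  false (nat_lit 3217732)
def b4_17 : Bx := Bx.mk (St.mk (I.mix (nat_lit 7700480) (nat_lit 24805376)) (I.mix (nat_lit 23937024) (nat_lit 13598720)) (I.neg (nat_lit 35061760) (nat_lit 43171840)) (I.pos (nat_lit 265011200) (nat_lit 273924096)) (I.mix (nat_lit 26640384) (nat_lit 30457856)) (I.mix (nat_lit 18907136) (nat_lit 17940480)) (I.mix (nat_lit 4423680) (nat_lit 5816320)))
  false (nat_lit 0)
def b4_18 : Bx := Bx.mk (St.mk (I.pos (nat_lit 152240128) (nat_lit 201572352)) (I.pos (nat_lit 36290560) (nat_lit 80740352)) (I.pos (nat_lit 26886144) (nat_lit 91766784)) (I.pos (nat_lit 391806976) (nat_lit 448626688)) (I.mix (nat_lit 110641152) (nat_lit 76185600)) (I.mix (nat_lit 78184448) (nat_lit 55853056)) (I.mix (nat_lit 119816192) (nat_lit 75907072)))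
  false (nat_lit 28935725)
def b4_19 : Bx := Bx.mk (St.mk (I.pos (nat_lit 13828096) (nat_lit 48529408)) (I.neg (nat_lit 24428544) (nat_lit 70729728)) (I.neg (nat_lit 35110912) (nat_lit 55361536)) (I.pos (nat_lit 270942208) (nat_lit 289357824)) (I.mix (nat_lit 99008512) (nat_lit 42450944)) (I.mix (nat_lit 34865152) (nat_lit 74055680)) (I.mix (nat_lit 29409280) (nat_lit 21807104)))
  false (nat_lit 0)
def b4_20 : Bx := Bx.mk (St.mk (I.pos (nat_lit 208109568) (nat_lit 292864000)) (I.mix (nat_lit 27738112) (nat_lit 42532864)) (I.mix (nat_lit 135462912) (nat_lit 11337728)) (I.pos (nat_lit 455262208) (nat_lit 592134144)) (I.mix (nat_lit 81690624) (nat_lit 70598656)) (I.mix (nat_lit 70582272) (nat_lit 48185344)) (I.mix (nat_lit 125140992) (nat_lit 84557824)))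
  false (nat_lit 12413231)
def b4_21 : Bx := Bx.mk (St.mk (I.mix (nat_lit 15958016) (nat_lit 25559040)) (I.mix (nat_lit 36126720) (nat_lit 12861440)) (I.neg (nat_lit 35651584) (nat_lit 44974080)) (I.pos (nat_lit 264863744) (nat_lit 275611648)) (I.mix (nat_lit 44531712) (nat_lit 27328512)) (I.mix (nat_lit 17285120) (nat_lit 27230208)) (I.mix (nat_lit 6750208) (nat_lit 6455296)))
  false (nat_lit 0)
def b4_22 : Bx := Bx.mk (St.mk (I.pos (nat_lit 8110080) (nat_lit 25755648)) (I.neg (nat_lit 14614528) (nat_lit 33685504)) (I.neg (nat_lit 35307520) (nat_lit 43991040)) (I.pos (nat_lit 266698752) (nat_lit 276086784)) (I.mix (nat_lit 33341440) (nat_lit 15892480)) (I.mix (nat_lit 15007744) (nat_lit 20234240)) (I.mix (nat_lit 5242880) (nat_lit 6324224)))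
  false (nat_lit 0)
def t4 : BTr := (BTr.n (BTr.n (BTr.n (BTr.n (BTr.b b4_0) (BTr.b b4_1)) (BTr.n (BTr.b b4_2) (BTr.n (BTr.b b4_3) (BTr.b b4_4)))) (BTr.n (BTr.n (BTr.b b4_5) (BTr.n (BTr.b b4_6) (BTr.b b4_7))) (BTr.n (BTr.b b4_8) (BTr.n (BTr.b b4_9) (BTr.b b4_10))))) (BTr.n (BTr.n (BTr.n (BTr.b b4_11) (BTr.n (BTr.b b4_12) (BTr.b b4_13))) (BTr.n (BTr.b b4_14) (BTr.n (BTr.b b4_15) (BTr.b b4_16)))) (BTr.n (BTr.n (BTr.b b4_17) (BTr.n (BTr.b b4_18) (BTr.b b4_19))) (BTr.n (BTr.b b4_20) (BTr.n (BTr.b b4_21) (BTr.b b4_22))))))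
namespace T4
def l0 : Tr := Tr.L (Pth.l (Pth.l (Pth.l (Pth.l Pth.z))))
def l1 : Tr := Tr.L (Pth.l (Pth.l (Pth.l (Pth.r Pth.z))))
def l2 : Tr := Tr.L (Pth.l (Pth.l (Pth.r (Pth.l Pth.z))))
def l3 : Tr := Tr.L (Pth.l (Pth.l (Pth.r (Pth.r (Pth.l Pth.z)))))
def l4 : Tr := Tr.L (Pth.l (Pth.l (Pth.r (Pth.r (Pth.r Pth.z)))))
def l5 : Tr := Tr.L (Pth.l (Pth.r (Pth.l (Pth.l Pth.z))))
def l6 : Tr := Tr.L (Pth.l (Pth.r (Pth.l (Pth.r (Pth.l Pth.z)))))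
def l7 : Tr := Tr.L (Pth.l (Pth.r (Pth.l (Pth.r (Pth.r Pth.z)))))
def l8 : Tr := Tr.L (Pth.l (Pth.r (Pth.r (Pth.l Pth.z))))
def l9 : Tr := Tr.L (Pth.l (Pth.r (Pth.r (Pth.r (Pth.l Pth.z)))))
def l10 : Tr := Tr.L (Pth.l (Pth.r (Pth.r (Pth.r (Pth.r Pth.z)))))
def l11 : Tr := Tr.L (Pth.r (Pth.l (Pth.l (Pth.l Pth.z))))
def l12 : Tr := Tr.L (Pth.r (Pth.l (Pth.l (Pth.r (Pth.l Pth.z)))))
def l13 : Tr := Tr.L (Pth.r (Pth.l (Pth.l (Pth.r (Pth.r Pth.z)))))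
def l14 : Tr := Tr.L (Pth.r (Pth.l (Pth.r (Pth.l Pth.z))))
def l15 : Tr := Tr.L (Pth.r (Pth.l (Pth.r (Pth.r (Pth.l Pth.z)))))
def l16 : Tr := Tr.L (Pth.r (Pth.l (Pth.r (Pth.r (Pth.r Pth.z)))))
def l17 : Tr := Tr.L (Pth.r (Pth.r (Pth.l (Pth.l Pth.z))))
def l18 : Tr := Tr.L (Pth.r (Pth.r (Pth.l (Pth.r (Pth.l Pth.z)))))
def l19 : Tr := Tr.L (Pth.r (Pth.r (Pth.l (Pth.r (Pth.r Pth.z)))))
def l20 : Tr := Tr.L (Pth.r (Pth.r (Pth.r (Pth.l Pth.z))))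
def l21 : Tr := Tr.L (Pth.r (Pth.r (Pth.r (Pth.r (Pth.l Pth.z)))))
def l22 : Tr := Tr.L (Pth.r (Pth.r (Pth.r (Pth.r (Pth.r Pth.z)))))
end T4
def b5_0 : Bx := Bx.mk (St.mk (I.pos (nat_lit 135282688) (nat_lit 220610560)) (I.mix (nat_lit 278528) (nat_lit 52117504)) (I.mix (nat_lit 278528) (nat_lit 107839488)) (I.pos (nat_lit 178339840) (nat_lit 270761984)) (I.mix (nat_lit 126451712) (nat_lit 67256320)) (I.mix (nat_lit 84623360) (nat_lit 72548352)) (I.mix (nat_lit 106692608) (nat_lit 86409216)))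
  false (nat_lit 27499626)
def b5_1 : Bx := Bx.mk (St.mk (I.pos (nat_lit 97173504) (nat_lit 148078592)) (I.neg (nat_lit 9158656) (nat_lit 59604992)) (I.mix (nat_lit 33538048) (nat_lit 20348928)) (I.pos (nat_lit 136511488) (nat_lit 177340416)) (I.mix (nat_lit 63569920) (nat_lit 55853056)) (I.mix (nat_lit 39845888) (nat_lit 48185344)) (I.mix (nat_lit 31440896) (nat_lit 44761088)))
  false (nat_lit 0)
def b5_2 : Bx := Bx.mk (St.mk (I.mix (nat_lit 23216128) (nat_lit 44122112)) (I.mix (nat_lit 31916032) (nat_lit 4980736)) (I.pos (nat_lit 1622016) (nat_lit 15220736)) (I.pos (nat_lit 85164032) (nat_lit 100417536)) (I.mix (nat_lit 27279360) (nat_lit 43712512)) (I.mix (nat_lit 18710528) (nat_lit 31031296)) (I.mix (nat_lit 6307840) (nat_lit 12435456)))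
  false (nat_lit 0)
def b5_3 : Bx := Bx.mk (St.mk (I.pos (nat_lit 144736256) (nat_lit 193167360)) (I.mix (nat_lit 6701056) (nat_lit 45219840)) (I.pos (nat_lit 33587200) (nat_lit 97943552)) (I.pos (nat_lit 169377792) (nat_lit 229916672)) (I.mix (nat_lit 125304832) (nat_lit 28049408)) (I.mix (nat_lit 99368960) (nat_lit 45465600)) (I.mix (nat_lit 102612992) (nat_lit 29573120)))
  false (nat_lit 0)
def b5_4 : Bx := Bx.mk (St.mk (I.mix (nat_lit 44105728) (nat_lit 66387968)) (I.mix (nat_lit 8847360) (nat_lit 32784384)) (I.pos (nat_lit 1572864) (nat_lit 26361856)) (I.pos (nat_lit 85164032) (nat_lit 108969984)) (I.mix (nat_lit 54476800) (nat_lit 29851648)) (I.mix (nat_lit 40140800) (nat_lit 20135936)) (I.mix (nat_lit 15532032) (nat_lit 12435456)))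
  false (nat_lit 0)
def b5_5 : Bx := Bx.mk (St.mk (I.pos (nat_lit 127025152) (nat_lit 158564352)) (I.neg (nat_lit 5996544) (nat_lit 33259520)) (I.mix (nat_lit 2064384) (nat_lit 26312704)) (I.pos (nat_lit 154796032) (nat_lit 184664064)) (I.mix (nat_lit 57065472) (nat_lit 39747584)) (I.mix (nat_lit 26361856) (nat_lit 36388864)) (I.mix (nat_lit 27426816) (nat_lit 31440896)))
  false (nat_lit 0)
def b5_6 : Bx := Bx.mk (St.mk (I.mix (nat_lit 59949056) (nat_lit 45219840)) (I.mix (nat_lit 15745024) (nat_lit 11550720)) (I.pos (nat_lit 6144000) (nat_lit 18546688)) (I.pos (nat_lit 85327872) (nat_lit 103792640)) (I.mix (nat_lit 30900224) (nat_lit 23969792)) (I.mix (nat_lit 19415040) (nat_lit 20660224)) (I.mix (nat_lit 8552448) (nat_lit 8159232)))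
  false (nat_lit 0)
def b5_7 : Bx := Bx.mk (St.mk (I.pos (nat_lit 145145856) (nat_lit 173572096)) (I.neg (nat_lit 15843328) (nat_lit 35520512)) (I.mix (nat_lit 3506176) (nat_lit 18006016)) (I.pos (nat_lit 173359104) (nat_lit 203063296)) (I.mix (nat_lit 42582016) (nat_lit 43991040)) (I.mix (nat_lit 40026112) (nat_lit 27656192)) (I.mix (nat_lit 37535744) (nat_lit 26640384)))
  false (nat_lit 0)
def b5_8 : Bx := Bx.mk (St.mk (I.pos (nat_lit 150962176) (nat_lit 187826176)) (I.mix (nat_lit 37289984) (nat_lit 229376)) (I.mix (nat_lit 3178496) (nat_lit 41172992)) (I.pos (nat_lit 179748864) (nat_lit 219774976)) (I.mix (nat_lit 55508992) (nat_lit 65110016)) (I.mix (nat_lit 54345728) (nat_lit 47464448)) (I.mix (nat_lit 49250304) (nat_lit 47693824)))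
  false (nat_lit 21964502)
def b5_9 : Bx := Bx.mk (St.mk (I.pos (nat_lit 143491072) (nat_lit 187203584)) (I.mix (nat_lit 21200896) (nat_lit 21463040)) (I.pos (nat_lit 18563072) (nat_lit 67289088)) (I.pos (nat_lit 168493056) (nat_lit 217694208)) (I.mix (nat_lit 116736000) (nat_lit 57016320)) (I.mix (nat_lit 101122048) (nat_lit 47218688)) (I.mix (nat_lit 99827712) (nat_lit 41402368)))
  false (nat_lit 0)
def b5_10 : Bx := Bx.mk (St.mk (I.mix (nat_lit 26558464) (nat_lit 97402880)) (I.mix (nat_lit 9879552) (nat_lit 34357248)) (I.pos (nat_lit 163840) (nat_lit 29704192)) (I.pos (nat_lit 82952192) (nat_lit 125992960)) (I.mix (nat_lit 54345728) (nat_lit 40828928)) (I.mix (nat_lit 38633472) (nat_lit 30474240)) (I.mix (nat_lit 24772608) (nat_lit 19955712)))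
  false (nat_lit 0)
def b5_11 : Bx := Bx.mk (St.mk (I.pos (nat_lit 79495168) (nat_lit 120045568)) (I.mix (nat_lit 57622528) (nat_lit 10469376)) (I.mix (nat_lit 32735232) (nat_lit 14909440)) (I.pos (nat_lit 113885184) (nat_lit 152469504)) (I.mix (nat_lit 72630272) (nat_lit 34439168)) (I.mix (nat_lit 31752192) (nat_lit 56262656)) (I.mix (nat_lit 24297472) (nat_lit 34586624)))
  false (nat_lit 0)
def b5_12 : Bx := Bx.mk (St.mk (I.mix (nat_lit 48201728) (nat_lit 28016640)) (I.mix (nat_lit 31358976) (nat_lit 7618560)) (I.pos (nat_lit 2080768) (nat_lit 16859136)) (I.pos (nat_lit 83591168) (nat_lit 100614144)) (I.mix (nat_lit 35274752) (nat_lit 36552704)) (I.mix (nat_lit 23642112) (nat_lit 28426240)) (I.mix (nat_lit 12042240) (nat_lit 10174464)))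
  false (nat_lit 0)
def b5_13 : Bx := Bx.mk (St.mk (I.pos (nat_lit 177799168) (nat_lit 229982208)) (I.mix (nat_lit 458752) (nat_lit 31342592)) (I.pos (nat_lit 22708224) (nat_lit 78856192)) (I.pos (nat_lit 228114432) (nat_lit 284311552)) (I.mix (nat_lit 95961088) (nat_lit 31096832)) (I.mix (nat_lit 55885824) (nat_lit 35307520)) (I.mix (nat_lit 82051072) (nat_lit 46989312)))
  false (nat_lit 0)
def b5_14 : Bx := Bx.mk (St.mk (I.pos (nat_lit 212647936) (nat_lit 269533184)) (I.mix (nat_lit 21725184) (nat_lit 23904256)) (I.mix (nat_lit 20267008) (nat_lit 64995328)) (I.pos (nat_lit 276054016) (nat_lit 368394240)) (I.mix (nat_lit 72712192) (nat_lit 20955136)) (I.mix (nat_lit 33521664) (nat_lit 41025536)) (I.mix (nat_lit 55427072) (nat_lit 66650112)))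
  false (nat_lit 0)
def b5_15 : Bx := Bx.mk (St.mk (I.pos (nat_lit 166936576) (nat_lit 219676672)) (I.pos (nat_lit 13844480) (nat_lit 49725440)) (I.pos (nat_lit 46465024) (nat_lit 106053632)) (I.pos (nat_lit 214695936) (nat_lit 264290304)) (I.mix (nat_lit 106414080) (nat_lit 71188480)) (I.mix (nat_lit 82149376) (nat_lit 57737216)) (I.mix (nat_lit 122896384) (nat_lit 66158592)))
  false (nat_lit 787300)
def b5_16 : Bx := Bx.mk (St.mk (I.pos (nat_lit 209010688) (nat_lit 285261824)) (I.mix (nat_lit 19021824) (nat_lit 38256640)) (I.mix (nat_lit 15532032) (nat_lit 90931200)) (I.pos (nat_lit 268500992) (nat_lit 401604608)) (I.mix (nat_lit 70615040) (nat_lit 63766528)) (I.mix (nat_lit 63979520) (nat_lit 46628864)) (I.mix (nat_lit 109707264) (nat_lit 76611584)))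
  false (nat_lit 27125340)
def b5_17 : Bx := Bx.mk (St.mk (I.pos (nat_lit 251609088) (nat_lit 280379392)) (I.mix (nat_lit 25739264) (nat_lit 3276800)) (I.mix (nat_lit 30130176) (nat_lit 24952832)) (I.pos (nat_lit 343638016) (nat_lit 391921664)) (I.mix (nat_lit 50216960) (nat_lit 26066944)) (I.mix (nat_lit 27885568) (nat_lit 28884992)) (I.mix (nat_lit 50397184) (nat_lit 45826048)))
  false (nat_lit 0)
def b5_18 : Bx := Bx.mk (St.mk (I.pos (nat_lit 201523200) (nat_lit 283164672)) (I.mix (nat_lit 9895936) (nat_lit 38862848)) (I.pos (nat_lit 3276800) (nat_lit 92717056)) (I.pos (nat_lit 257867776) (nat_lit 397410304)) (I.mix (nat_lit 75153408) (nat_lit 58327040)) (I.mix (nat_lit 52445184) (nat_lit 51740672)) (I.mix (nat_lit 86736896) (nat_lit 85835776)))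
  false (nat_lit 6209486)
def b5_19 : Bx := Bx.mk (St.mk (I.pos (nat_lit 187727872) (nat_lit 235208704)) (I.mix (nat_lit 1490944) (nat_lit 31703040)) (I.pos (nat_lit 20660224) (nat_lit 80723968)) (I.pos (nat_lit 239730688) (nat_lit 294944768)) (I.mix (nat_lit 84967424) (nat_lit 42254336)) (I.mix (nat_lit 52805632) (nat_lit 35684352)) (I.mix (nat_lit 80609280) (nat_lit 52248576)))
  false (nat_lit 0)
def b5_20 : Bx := Bx.mk (St.mk (I.pos (nat_lit 243695616) (nat_lit 276529152)) (I.mix (nat_lit 27705344) (nat_lit 2523136)) (I.mix (nat_lit 32014336) (nat_lit 24608768)) (I.pos (nat_lit 331988992) (nat_lit 382844928)) (I.mix (nat_lit 64028672) (nat_lit 29130752)) (I.mix (nat_lit 31752192) (nat_lit 34963456)) (I.mix (nat_lit 55672832) (nat_lit 56098816)))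
  false (nat_lit 0)
def b5_21 : Bx := Bx.mk (St.mk (I.pos (nat_lit 175226880) (nat_lit 223232000)) (I.pos (nat_lit 8142848) (nat_lit 32735232)) (I.pos (nat_lit 37388288) (nat_lit 80691200)) (I.pos (nat_lit 225771520) (nat_lit 267468800)) (I.mix (nat_lit 82313216) (nat_lit 21708800)) (I.mix (nat_lit 46530560) (nat_lit 20578304)) (I.mix (nat_lit 67878912) (nat_lit 25690112)))
  false (nat_lit 0)
def t5 : BTr := (BTr.n (BTr.n (BTr.n (BTr.n (BTr.b b5_0) (BTr.b b5_1)) (BTr.n (BTr.b b5_2) (BTr.n (BTr.b b5_3) (BTr.b b5_4)))) (BTr.n (BTr.n (BTr.b b5_5) (BTr.n (BTr.b b5_6) (BTr.b b5_7))) (BTr.n (BTr.b b5_8) (BTr.n (BTr.b b5_9) (BTr.b b5_10))))) (BTr.n (BTr.n (BTr.n (BTr.b b5_11) (BTr.b b5_12)) (BTr.n (BTr.b b5_13) (BTr.n (BTr.b b5_14) (BTr.b b5_15)))) (BTr.n (BTr.n (BTr.b b5_16) (BTr.n (BTr.b b5_17) (BTr.b b5_18))) (BTr.n (BTr.b b5_19) (BTr.n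 (BTr.b b5_20) (BTr.b b5_21))))))
namespace T5
def l0 : Tr := Tr.L (Pth.l (Pth.l (Pth.l (Pth.l Pth.z))))
def l1 : Tr := Tr.L (Pth.l (Pth.l (Pth.l (Pth.r Pth.z))))
def l2 : Tr := Tr.L (Pth.l (Pth.l (Pth.r (Pth.l Pth.z))))
def l3 : Tr := Tr.L (Pth.l (Pth.l (Pth.r (Pth.r (Pth.l Pth.z)))))
def l4 : Tr := Tr.L (Pth.l (Pth.l (Pth.r (Pth.r (Pth.r Pth.z)))))
def l5 : Tr := Tr.L (Pth.l (Pth.r (Pth.l (Pth.l Pth.z))))
def l6 : Tr := Tr.L (Pth.l (Pth.r (Pth.l (Pth.r (Pth.l Pth.z)))))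
def l7 : Tr := Tr.L (Pth.l (Pth.r (Pth.l (Pth.r (Pth.r Pth.z)))))
def l8 : Tr := Tr.L (Pth.l (Pth.r (Pth.r (Pth.l Pth.z))))
def l9 : Tr := Tr.L (Pth.l (Pth.r (Pth.r (Pth.r (Pth.l Pth.z)))))
def l10 : Tr := Tr.L (Pth.l (Pth.r (Pth.r (Pth.r (Pth.r Pth.z)))))
def l11 : Tr := Tr.L (Pth.r (Pth.l (Pth.l (Pth.l Pth.z))))
def l12 : Tr := Tr.L (Pth.r (Pth.l (Pth.l (Pth.r Pth.z))))
def l13 : Tr := Tr.L (Pth.r (Pth.l (Pth.r (Pth.l Pth.z))))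
def l14 : Tr := Tr.L (Pth.r (Pth.l (Pth.r (Pth.r (Pth.l Pth.z)))))
def l15 : Tr := Tr.L (Pth.r (Pth.l (Pth.r (Pth.r (Pth.r Pth.z)))))
def l16 : Tr := Tr.L (Pth.r (Pth.r (Pth.l (Pth.l Pth.z))))
def l17 : Tr := Tr.L (Pth.r (Pth.r (Pth.l (Pth.r (Pth.l Pth.z)))))
def l18 : Tr := Tr.L (Pth.r (Pth.r (Pth.l (Pth.r (Pth.r Pth.z)))))
def l19 : Tr := Tr.L (Pth.r (Pth.r (Pth.r (Pth.l Pth.z))))
def l20 : Tr := Tr.L (Pth.r (Pth.r (Pth.r (Pth.r (Pth.l Pth.z)))))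
def l21 : Tr := Tr.L (Pth.r (Pth.r (Pth.r (Pth.r (Pth.r Pth.z)))))
end T5
theorem bx0_0 : BoxOK sI cl4 cl6 cl7 t2 t4 b0_0 :=
  box_mk (TrL.c (I.pos (nat_lit 0) (nat_lit 0)) (xa (xb (xa (xb T2.l0 (xb T2.l0 T2.l0)) (xb T2.l0 T2.l0)) (xb (xa (xb (xa T2.l0 T2.l0) (xa (xs T2.l0 T2.l0) T2.l0)) (xb T2.l0 T2.l0)) (xa (xb (xa (xs T2.l0 T2.l0) (xs T2.l0 T2.l0)) (xa (xs T2.l0 (xb T2.l0 T2.l0)) (xs T2.l0 T2.l0))) (xb (xa T2.l0 T2.l0) (xa (xs T2.l0 T2.l0) (xs T2.l0 T2.l0)))))) (xb (xa T2.l0 (xb T2.l0 T2.l0)) (xa (xb T2.l0 (xb (xa T2.l0 T2.l0) (xa (xs T2.l0 (xb T2.l0 T2.l0)) (xs T2.l0 (xb T2.l0 T2.l0))))) (xb (xa T2.l0 T2.l0) (xa (xb T2.l0 (xs T2.l0 (xe T2.l0 T2.l0))) (xb T2.l0 (xs T2.l0 (xe T2.l0 T2.l0))))))))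
  (TrL.c (I.pos (nat_lit 0) (nat_lit 0)) (xa (xb T4.l1 (xb T4.l1 T4.l1)) (xb T4.l1 (xa T4.l1 (xb T4.l1 T4.l1))))
  (TrL.c (I.pos (nat_lit 0) (nat_lit 0)) (xa T2.l1 (xb T2.l1 (xs T2.l1 (xa T2.l1 T2.l1))))
  (TrL.c (I.pos (nat_lit 0) (nat_lit 0)) (xb T4.l2 (xa T4.l2 (xb T4.l2 T4.l2)))
  (TrL.c (I.pos (nat_lit 0) (nat_lit 0)) (xa (xb (xa T2.l2 T2.l2) (xa T2.l2 T2.l2)) (xb T2.l2 (xs T2.l2 (xa T2.l2 T2.l2))))
  (TrL.c (I.pos (nat_lit 0) (nat_lit 0)) (xa (xb T4.l3 (xb T4.l3 T4.l3)) (xb T4.l3 (xa T4.l3 (xb T4.l3 T4.l3))))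
  TrL.n)))))) (by decide +kernel)
theorem bx0_1 : BoxOK sI cl4 cl6 cl7 t2 t4 b0_1 :=
  box_mk (TrL.c (I.pos (nat_lit 0) (nat_lit 0)) (xa (xb (xa (xb (xa T2.l6 T2.l6) (xa T2.l6 T2.l6)) T2.l6) (xa (xa (xb T2.l6 T2.l6) (xb T2.l6 T2.l6)) (xa (xb T2.l6 T2.l6) (xb T2.l6 T2.l6)))) (xa (xb T2.l6 (xa T2.l6 T2.l6)) (xb (xa T2.l6 T2.l6) (xa T2.l6 (xb T2.l6 T2.l6)))))
  (TrL.c (I.pos (nat_lit 0) (nat_lit 0)) (xa T4.l1 T4.l1)
  (TrL.c (I.pos (nat_lit 0) (nat_lit 0)) T2.l1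
  (TrL.c (I.pos (nat_lit 0) (nat_lit 0)) (xa T4.l2 T4.l2)
  (TrL.c (I.pos (nat_lit 0) (nat_lit 0)) (xa (xb T2.l7 T2.l7) (xa T2.l7 T2.l7))
  (TrL.c (I.pos (nat_lit 0) (nat_lit 0)) T4.l3
  TrL.n)))))) (by decide +kernel)
theorem bx0_2 : BoxOK sI cl4 cl6 cl7 t2 t4 b0_2 :=
  box_mk (TrL.c (I.pos (nat_lit 0) (nat_lit 0)) (xb (xa (xb T2.l8 T2.l8) (xb T2.l8 T2.l8)) (xa (xb T2.l8 T2.l8) (xb T2.l8 T2.l8)))
  (TrL.c (I.pos (nat_lit 0) (nat_lit 0)) T4.l1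
  (TrL.c (I.pos (nat_lit 0) (nat_lit 0)) T2.l1
  (TrL.c (I.pos (nat_lit 0) (nat_lit 0)) T4.l2
  (TrL.c (I.pos (nat_lit 0) (nat_lit 0)) (xb T2.l9 T2.l9)
  (TrL.c (I.pos (nat_lit 0) (nat_lit 0)) T4.l3
  TrL.n)))))) (by decide +kernel)
theorem bx0_3 : BoxOK sI cl4 cl6 cl7 t2 t4 b0_3 :=
  box_mk (TrL.c (I.pos (nat_lit 0) (nat_lit 0)) (xa (xb (xa (xb T2.l10 T2.l10) T2.l10) (xa (xb T2.l10 T2.l10) T2.l10)) (xb T2.l21 T2.l6))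
  (TrL.c (I.pos (nat_lit 0) (nat_lit 0)) T4.l2
  (TrL.c (I.pos (nat_lit 0) (nat_lit 0)) (xa T2.l7 T2.l1)
  (TrL.c (I.pos (nat_lit 0) (nat_lit 0)) T4.l1
  (TrL.c (I.pos (nat_lit 0) (nat_lit 0)) (xa T2.l11 T2.l16)
  (TrL.c (I.pos (nat_lit 0) (nat_lit 0)) (xa T4.l3 T4.l3)
  TrL.n)))))) (by decide +kernel)
theorem bx0_4 : BoxOK sI cl4 cl6 cl7 t2 t4 b0_4 :=
  box_mk (TrL.c (I.pos (nat_lit 0) (nat_lit 0)) (xb T2.l8 T2.l6)
  (TrL.c (I.pos (nat_lit 0) (nat_lit 0)) T4.l1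
  (TrL.c (I.pos (nat_lit 0) (nat_lit 0)) T2.l1
  (TrL.c (I.pos (nat_lit 0) (nat_lit 0)) T4.l2
  (TrL.c (I.pos (nat_lit 0) (nat_lit 0)) T2.l20
  (TrL.c (I.pos (nat_lit 0) (nat_lit 0)) T4.l3
  TrL.n)))))) (by decide +kernel)
theorem bx0_5 : BoxOK sI cl4 cl6 cl7 t2 t4 b0_5 :=
  box_mk (TrL.c (I.pos (nat_lit 0) (nat_lit 0)) (xa (xa (xb T2.l12 T2.l12) (xb T2.l10 T2.l12)) (xa (xb T2.l10 T2.l12) T2.l6))
  (TrL.c (I.pos (nat_lit 0) (nat_lit 0)) T4.l2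
  (TrL.c (I.pos (nat_lit 0) (nat_lit 0)) T2.l7
  (TrL.c (I.pos (nat_lit 0) (nat_lit 0)) T4.l1
  (TrL.c (I.pos (nat_lit 0) (nat_lit 0)) T2.l13
  (TrL.c (I.pos (nat_lit 0) (nat_lit 0)) T4.l3
  TrL.n)))))) (by decide +kernel)
theorem bx0_6 : BoxOK sI cl4 cl6 cl7 t2 t4 b0_6 :=
  box_mk (TrL.c (I.pos (nat_lit 0) (nat_lit 0)) (xa (xb T2.l4 (xa T2.l0 T2.l0)) (xb T2.l4 T2.l4))
  (TrL.c (I.pos (nat_lit 0) (nat_lit 0)) (xa T4.l1 (xb (xa T4.l1 T4.l1) T4.l1))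
  (TrL.c (I.pos (nat_lit 0) (nat_lit 0)) T2.l5
  (TrL.c (I.pos (nat_lit 0) (nat_lit 0)) (xa T4.l2 (xb (xa T4.l2 (xs T4.l2 (xe T4.l2 T4.l2))) (xa T4.l2 (xs T4.l2 (xe T4.l2 T4.l2)))))
  (TrL.c (I.pos (nat_lit 0) (nat_lit 0)) T2.l3
  (TrL.c (I.pos (nat_lit 0) (nat_lit 0)) (xa T4.l3 (xb (xa T4.l3 T4.l3) T4.l3))
  TrL.n)))))) (by decide +kernel)
theorem bx0_7 : BoxOK sI cl4 cl6 cl7 t2 t4 b0_7 :=
  box_mk (TrL.c (I.pos (nat_lit 0) (nat_lit 0)) (xa (xb (xa (xb (xa T2.l22 T2.l0) T2.l22) (xb T2.l4 (xa T2.l0 T2.l0))) (xa (xb T2.l22 (xa T2.l22 T2.l22)) (xb (xa T2.l0 T2.l0) (xa T2.l22 (xs T2.l0 T2.l0))))) (xb (xa (xb T2.l4 T2.l4) T2.l4) (xa (xb (xa T2.l0 T2.l0) (xa (xs T2.l0 T2.l0) T2.l0)) (xb T2.l4 (xa T2.l0 T2.l4)))))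
  (TrL.c (I.pos (nat_lit 0) (nat_lit 0)) (xa (xb T4.l1 T4.l1) (xb (xa T4.l1 T4.l1) (xa T4.l1 T4.l1)))
  (TrL.c (I.pos (nat_lit 0) (nat_lit 0)) (xa (xb T2.l5 T2.l5) (xc (xb T2.l5 (xs T2.l1 T2.l5)) T2.l1))
  (TrL.c (I.pos (nat_lit 0) (nat_lit 0)) (xa (xb T4.l2 T4.l2) (xb (xa T4.l2 (xb T4.l2 T4.l2)) (xa T4.l2 (xb (xc T4.l2 T4.l2) (xc T4.l2 T4.l2)))))
  (TrL.c (I.pos (nat_lit 0) (nat_lit 0)) (xa (xc T2.l3 T2.l3) (xc (xb T2.l3 (xs T2.l2 T2.l3)) (xb T2.l3 (xs T2.l2 T2.l3))))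
  (TrL.c (I.pos (nat_lit 0) (nat_lit 0)) (xa (xb T4.l3 T4.l3) (xb (xa T4.l3 T4.l3) (xa T4.l3 T4.l3)))
  TrL.n)))))) (by decide +kernel)
theorem c0_8_0 : chkTag sI cl4 cl6 cl7 t2 b0_8 (tg true true false RT.r2) (I.pos (nat_lit 0) (nat_lit 0))
  (xa (xb (xa (xb (xa (xb T2.l0 T2.l0) (xb T2.l0 T2.l0)) (xa (xb T2.l0 T2.l0) (xb T2.l0 T2.l0))) (xb (xa T2.l0 T2.l0) (xa (xb T2.l0 T2.l0) (xs T2.l0 T2.l0)))) (xa (xb (xa (xs T2.l0 (xb T2.l0 T2.l0)) (xs T2.l0 (xb T2.l0 T2.l0))) (xs (xa (xb T2.l0 T2.l0) T2.l0) (xa (xb T2.l0 (xc T2.l0 T2.l0)) (xb T2.l0 T2.l0)))) (xb (xs (xa T2.l0 T2.l0) (xa (xb T2.l0 T2.l0) (xb T2.l0 T2.l0))) (xs (xa T2.l0 T2.l0) (xa (xb T2.l0 T2.l0) (xb T2.l0 T2.l0)))))) (xb (xa (xb (xa T2.l0 T2.l0) (xa (xs T2.l0 T2.l0) (xs T2.l0 T2.l0))) (xb (xa T2.l0 T2.l4) (xa (xs T2.l0 T2.l0) (xs T2.l0 (xb T2.l0 T2.l0))))) (xa (xb (xs T2.l0 (xa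 (xb T2.l0 T2.l0) T2.l0)) (xs (xa T2.l0 T2.l0) (xa (xb T2.l0 T2.l0) (xb T2.l0 T2.l0)))) (xb (xs T2.l0 (xa T2.l0 (xb T2.l0 T2.l0))) (xs (xa T2.l0 T2.l0) (xa (xb T2.l0 T2.l0) (xb T2.l0 (xe T2.l0 T2.l0)))))))) = true := by decide +kernel
theorem c0_8_1 : chkTag sI cl4 cl6 cl7 t4 b0_8 (tg true false false RT.r3) (I.pos (nat_lit 0) (nat_lit 0))
  (xa (xb T4.l1 (xa T4.l1 (xb T4.l1 T4.l1))) (xb (xa T4.l1 (xb T4.l1 T4.l1)) (xa (xb T4.l1 T4.l1) (xb T4.l1 T4.l1)))) = true := by decide +kernel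
theorem c0_8_2 : chkTag sI cl4 cl6 cl7 t2 b0_8 (tg true true true RT.r4) (I.pos (nat_lit 0) (nat_lit 0))
  (xa (xb T2.l5 (xc T2.l1 T2.l1)) (xc (xb T2.l5 T2.l5) (xb T2.l5 (xs T2.l5 T2.l5)))) = true := by decide +kernel
theorem c0_8_3 : chkTag sI cl4 cl6 cl7 t4 b0_8 (tg false false false RT.r3) (I.pos (nat_lit 0) (nat_lit 0))
  (xa (xb (xa T4.l2 T4.l2) (xa T4.l2 T4.l2)) (xb (xa (xb T4.l2 T4.l2) (xb (xc T4.l2 T4.l2) (xc T4.l2 T4.l2))) (xa (xb T4.l2 T4.l2) (xb (xc T4.l2 T4.l2) (xs T4.l2 T4.l2))))) = true := by decide +kernel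
theorem c0_8_4 : chkTag sI cl4 cl6 cl7 t2 b0_8 (tg false true false RT.r4) (I.pos (nat_lit 0) (nat_lit 0))
  (xa (xb T2.l3 (xc T2.l2 T2.l2)) (xb T2.l3 (xc T2.l3 (xs T2.l3 T2.l3)))) = true := by decide +kernel
theorem c0_8_5 : chkTag sI cl4 cl6 cl7 t4 b0_8 (tg false false true RT.r5) (I.pos (nat_lit 0) (nat_lit 0))
  (xa (xb T4.l3 (xa T4.l3 (xb T4.l3 T4.l3))) (xb (xa T4.l3 (xb T4.l3 T4.l3)) (xa (xb T4.l3 T4.l3) (xb T4.l3 T4.l3)))) = true := by decide +kernel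
theorem bx0_8 : BoxOK sI cl4 cl6 cl7 t2 t4 b0_8 :=
  box_mk' [(tg true true false RT.r2), (tg true false false RT.r3), (tg true true true RT.r4), (tg false false false RT.r3), (tg false true false RT.r4), (tg false false true RT.r5)] rfl (allL_c (ex_mk c0_8_0) (allL_c (ex_mk c0_8_1) (allL_c (ex_mk c0_8_2) (allL_c (ex_mk c0_8_3) (allL_c (ex_mk c0_8_4) (allL_c (ex_mk c0_8_5) allL_n))))))
theorem bx0_9 : BoxOK sI cl4 cl6 cl7 t2 t4 b0_9 :=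
  box_mk (TrL.c (I.pos (nat_lit 0) (nat_lit 0)) (xa (xb (xa (xb T2.l14 T2.l8) (xb T2.l14 T2.l14)) (xa (xb T2.l8 T2.l8) T2.l8)) (xb (xa (xb T2.l14 T2.l14) (xb T2.l14 T2.l14)) (xa (xb T2.l14 T2.l14) (xb T2.l14 T2.l22))))
  (TrL.c (I.pos (nat_lit 0) (nat_lit 0)) T4.l1
  (TrL.c (I.pos (nat_lit 0) (nat_lit 0)) (xa T2.l1 T2.l1)
  (TrL.c (I.pos (nat_lit 0) (nat_lit 0)) (xa (xb T4.l2 T4.l2) (xb (xa T4.l2 T4.l2) T4.l2))
  (TrL.c (I.pos (nat_lit 0) (nat_lit 0)) (xa T2.l15 (xb T2.l15 T2.l15))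
  (TrL.c (I.pos (nat_lit 0) (nat_lit 0)) T4.l3
  TrL.n)))))) (by decide +kernel)
theorem bx0_10 : BoxOK sI cl4 cl6 cl7 t2 t4 b0_10 :=
  box_mk (TrL.c (I.pos (nat_lit 0) (nat_lit 0)) (xa (xb (xa (xb T2.l21 T2.l21) T2.l21) (xa (xb T2.l21 T2.l21) T2.l6)) (xb (xa T2.l21 T2.l21) T2.l6))
  (TrL.c (I.pos (nat_lit 0) (nat_lit 0)) (xa T4.l2 T4.l1)
  (TrL.c (I.pos (nat_lit 0) (nat_lit 0)) (xa T2.l7 T2.l1)
  (TrL.c (I.pos (nat_lit 0) (nat_lit 0)) (xa T4.l1 T4.l2)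
  (TrL.c (I.pos (nat_lit 0) (nat_lit 0)) (xa T2.l16 T2.l16)
  (TrL.c (I.pos (nat_lit 0) (nat_lit 0)) T4.l3
  TrL.n)))))) (by decide +kernel)
theorem c0_11_0 : chkTag sI cl4 cl6 cl7 t2 b0_11 (tg true true false RT.r2) (I.pos (nat_lit 0) (nat_lit 0))
  (xb (xa (xb (xa (xb T2.l22 T2.l22) (xb T2.l22 T2.l22)) (xa (xb (xa T2.l22 T2.l22) (xa T2.l22 T2.l22)) (xb T2.l22 T2.l22))) (xb (xa T2.l22 T2.l4) (xa (xb T2.l22 T2.l22) (xb T2.l4 (xa T2.l22 T2.l22))))) (xa (xb (xa (xb (xa T2.l22 T2.l22) (xa (xs T2.l22 T2.l22) T2.l22)) (xb (xa T2.l22 T2.l22) (xa T2.l22 T2.l22))) (xa (xb (xs T2.l22 (xa T2.l22 T2.l22)) (xs (xa T2.l22 T2.l22) (xa (xb T2.l22 T2.l22) T2.l22))) (xb (xa T2.l22 T2.l22) (xs (xa T2.l22 T2.l22) (xa T2.l22 T2.l22))))) (xb (xa (xb T2.l22 T2.l22) (xb (xa T2.l22 T2.l22) (xs T2.l22 (xa T2.l22 T2.l22)))) (xa (xb (xs T2.l22 T2.l22) (xs (xa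 T2.l22 T2.l22) (xa T2.l22 (xb T2.l22 T2.l22)))) (xb (xs T2.l22 (xa T2.l22 T2.l22)) (xs (xa T2.l22 T2.l22) (xa (xb T2.l22 T2.l22) (xe T2.l22 T2.l22)))))))) = true := by decide +kernel
theorem c0_11_1 : chkTag sI cl4 cl6 cl7 t4 b0_11 (tg true false false RT.r3) (I.pos (nat_lit 0) (nat_lit 0))
  (xb (xa (xb T4.l1 T4.l1) (xb T4.l1 T4.l1)) (xa (xb T4.l1 T4.l1) (xb T4.l1 (xa T4.l1 T4.l1)))) = true := by decide +kernel
theorem c0_11_2 : chkTag sI cl4 cl6 cl7 t2 b0_11 (tg true true true RT.r4) (I.pos (nat_lit 0) (nat_lit 0))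
  (xb T2.l1 (xa T2.l1 (xs T2.l1 (xc T2.l1 T2.l1)))) = true := by decide +kernel
theorem c0_11_3 : chkTag sI cl4 cl6 cl7 t4 b0_11 (tg false false false RT.r3) (I.pos (nat_lit 0) (nat_lit 0))
  (xb (xa (xb T4.l2 T4.l2) (xb T4.l2 T4.l2)) (xa T4.l2 (xb T4.l2 (xa T4.l2 T4.l2)))) = true := by decide +kernel
theorem c0_11_4 : chkTag sI cl4 cl6 cl7 t2 b0_11 (tg false true false RT.r4) (I.pos (nat_lit 0) (nat_lit 0))
  (xa (xb T2.l23 T2.l23) (xb (xc T2.l23 T2.l23) (xs T2.l23 (xc T2.l23 (xb T2.l23 T2.l23))))) = true := by decide +kernel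
theorem c0_11_5 : chkTag sI cl4 cl6 cl7 t4 b0_11 (tg false false true RT.r5) (I.pos (nat_lit 0) (nat_lit 0))
  (xb (xa (xb T4.l3 T4.l3) (xb T4.l3 T4.l3)) (xa (xb T4.l3 T4.l3) (xb T4.l3 (xa T4.l3 T4.l3)))) = true := by decide +kernel
theorem bx0_11 : BoxOK sI cl4 cl6 cl7 t2 t4 b0_11 :=
  box_mk' [(tg true true false RT.r2), (tg true false false RT.r3), (tg true true true RT.r4), (tg false false false RT.r3), (tg false true false RT.r4), (tg false false true RT.r5)] rfl (allL_c (ex_mk c0_11_0) (allL_c (ex_mk c0_11_1) (allL_c (ex_mk c0_11_2) (allL_c (ex_mk c0_11_3) (allL_c (ex_mk c0_11_4) (allL_c (ex_mk c0_11_5) allL_n))))))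
theorem bx0_12 : BoxOK sI cl4 cl6 cl7 t2 t4 b0_12 :=
  box_mk (TrL.c (I.pos (nat_lit 0) (nat_lit 0)) (xa (xb (xa (xb (xa T2.l10 T2.l10) (xa T2.l17 T2.l10)) (xb T2.l10 T2.l6)) (xa (xa (xb T2.l17 T2.l17) (xb T2.l17 T2.l17)) (xa T2.l6 T2.l6))) (xa (xb T2.l6 T2.l6) (xb T2.l6 T2.l6)))
  (TrL.c (I.pos (nat_lit 0) (nat_lit 0)) (xa (xb T4.l2 T4.l1) T4.l1)
  (TrL.c (I.pos (nat_lit 0) (nat_lit 0)) (xa (xb T2.l7 T2.l1) T2.l1)
  (TrL.c (I.pos (nat_lit 0) (nat_lit 0)) (xa (xb T4.l1 T4.l2) T4.l2)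
  (TrL.c (I.pos (nat_lit 0) (nat_lit 0)) (xa (xb T2.l18 T2.l18) T2.l7)
  (TrL.c (I.pos (nat_lit 0) (nat_lit 0)) (xa (xb T4.l3 T4.l3) T4.l3)
  TrL.n)))))) (by decide +kernel)
theorem bx0_13 : BoxOK sI cl4 cl6 cl7 t2 t4 b0_13 :=
  box_mk (TrL.c (I.pos (nat_lit 0) (nat_lit 0)) T2.l0
  (TrL.c (I.pos (nat_lit 0) (nat_lit 0)) T4.l1
  (TrL.c (I.pos (nat_lit 0) (nat_lit 0)) T2.l1
  (TrL.c (I.pos (nat_lit 0) (nat_lit 0)) T4.l2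
  (TrL.c (I.pos (nat_lit 0) (nat_lit 0)) T2.l3
  (TrL.c (I.pos (nat_lit 0) (nat_lit 0)) T4.l3
  TrL.n)))))) (by decide +kernel)
theorem bx0_14 : BoxOK sI cl4 cl6 cl7 t2 t4 b0_14 :=
  box_mk (TrL.c (I.pos (nat_lit 0) (nat_lit 0)) (xa (xb T2.l14 T2.l22) (xb T2.l22 T2.l22))
  (TrL.c (I.pos (nat_lit 0) (nat_lit 0)) T4.l1
  (TrL.c (I.pos (nat_lit 0) (nat_lit 0)) T2.l1
  (TrL.c (I.pos (nat_lit 0) (nat_lit 0)) T4.l2
  (TrL.c (I.pos (nat_lit 0) (nat_lit 0)) T2.l23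
  (TrL.c (I.pos (nat_lit 0) (nat_lit 0)) T4.l3
  TrL.n)))))) (by decide +kernel)
theorem bx0_15 : BoxOK sI cl4 cl6 cl7 t2 t4 b0_15 :=
  box_mk (TrL.c (I.pos (nat_lit 0) (nat_lit 0)) (xb (xa T2.l22 (xb T2.l22 T2.l22)) (xa T2.l22 (xa T2.l22 (xb T2.l22 T2.l22))))
  (TrL.c (I.pos (nat_lit 0) (nat_lit 0)) T4.l1
  (TrL.c (I.pos (nat_lit 0) (nat_lit 0)) T2.l1
  (TrL.c (I.pos (nat_lit 0) (nat_lit 0)) (xb (xa T4.l2 T4.l2) T4.l2)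
  (TrL.c (I.pos (nat_lit 0) (nat_lit 0)) T2.l3
  (TrL.c (I.pos (nat_lit 0) (nat_lit 0)) T4.l3
  TrL.n)))))) (by decide +kernel)
theorem bx0_16 : BoxOK sI cl4 cl6 cl7 t2 t4 b0_16 :=
  box_mk (TrL.c (I.pos (nat_lit 0) (nat_lit 0)) (xa (xb (xa T2.l14 T2.l14) (xa T2.l22 T2.l22)) (xb T2.l22 T2.l22))
  (TrL.c (I.pos (nat_lit 0) (nat_lit 0)) T4.l1
  (TrL.c (I.pos (nat_lit 0) (nat_lit 0)) T2.l1
  (TrL.c (I.pos (nat_lit 0) (nat_lit 0)) T4.l2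
  (TrL.c (I.pos (nat_lit 0) (nat_lit 0)) (xa T2.l23 T2.l23)
  (TrL.c (I.pos (nat_lit 0) (nat_lit 0)) T4.l3
  TrL.n)))))) (by decide +kernel)
theorem bx0_17 : BoxOK sI cl4 cl6 cl7 t2 t4 b0_17 :=
  box_mk (TrL.c (I.pos (nat_lit 0) (nat_lit 0)) (xa (xb (xa T2.l14 T2.l22) T2.l22) T2.l22)
  (TrL.c (I.pos (nat_lit 0) (nat_lit 0)) T4.l1
  (TrL.c (I.pos (nat_lit 0) (nat_lit 0)) T2.l1
  (TrL.c (I.pos (nat_lit 0) (nat_lit 0)) T4.l2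
  (TrL.c (I.pos (nat_lit 0) (nat_lit 0)) T2.l23
  (TrL.c (I.pos (nat_lit 0) (nat_lit 0)) T4.l3
  TrL.n)))))) (by decide +kernel)
theorem bx0_18 : BoxOK sI cl4 cl6 cl7 t2 t4 b0_18 :=
  box_mk (TrL.c (I.pos (nat_lit 0) (nat_lit 0)) T2.l22
  (TrL.c (I.pos (nat_lit 0) (nat_lit 0)) T4.l1
  (TrL.c (I.pos (nat_lit 0) (nat_lit 0)) T2.l1
  (TrL.c (I.pos (nat_lit 0) (nat_lit 0)) T4.l2
  (TrL.c (I.pos (nat_lit 0) (nat_lit 0)) T2.l23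
  (TrL.c (I.pos (nat_lit 0) (nat_lit 0)) T4.l3
  TrL.n)))))) (by decide +kernel)
theorem bx0_19 : BoxOK sI cl4 cl6 cl7 t2 t4 b0_19 :=
  box_mk (TrL.c (I.pos (nat_lit 0) (nat_lit 0)) (xa T2.l22 T2.l22)
  (TrL.c (I.pos (nat_lit 0) (nat_lit 0)) T4.l1
  (TrL.c (I.pos (nat_lit 0) (nat_lit 0)) T2.l1
  (TrL.c (I.pos (nat_lit 0) (nat_lit 0)) T4.l2
  (TrL.c (I.pos (nat_lit 0) (nat_lit 0)) T2.l23
  (TrL.c (I.pos (nat_lit 0) (nat_lit 0)) T4.l3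
  TrL.n)))))) (by decide +kernel)
theorem bx0_20 : BoxOK sI cl4 cl6 cl7 t2 t4 b0_20 :=
  box_mk (TrL.c (I.pos (nat_lit 0) (nat_lit 0)) T2.l22
  (TrL.c (I.pos (nat_lit 0) (nat_lit 0)) T4.l1
  (TrL.c (I.pos (nat_lit 0) (nat_lit 0)) T2.l1
  (TrL.c (I.pos (nat_lit 0) (nat_lit 0)) T4.l2
  (TrL.c (I.pos (nat_lit 0) (nat_lit 0)) T2.l23
  (TrL.c (I.pos (nat_lit 0) (nat_lit 0)) T4.l3
  TrL.n)))))) (by decide +kernel)
theorem sv0 : StarV sI cl4 cl6 cl7 t2 t4 t0 :=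
  (bt_n (bt_n (bt_n (bt_n (bt_b bx0_0) (bt_b bx0_1)) (bt_n (bt_b bx0_2) (bt_n (bt_b bx0_3) (bt_b bx0_4)))) (bt_n (bt_n (bt_b bx0_5) (bt_b bx0_6)) (bt_n (bt_b bx0_7) (bt_n (bt_b bx0_8) (bt_b bx0_9))))) (bt_n (bt_n (bt_n (bt_b bx0_10) (bt_b bx0_11)) (bt_n (bt_b bx0_12) (bt_n (bt_b bx0_13) (bt_b bx0_14)))) (bt_n (bt_n (bt_b bx0_15) (bt_n (bt_b bx0_16) (bt_b bx0_17))) (bt_n (bt_b bx0_18) (bt_n (bt_b bx0_19) (bt_b bx0_20))))))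
def S0 : StarD := StarD.mk cl4 cl6 cl7 2 4 t0
theorem c1_0_0 : chkTag sI cl4 cl7 cl6 t4 b1_0 (tg true true false RT.r2) (I.pos (nat_lit 0) (nat_lit 0))
  (xa (xb (xa (xb (xa (xb T4.l18 T4.l18) (xb T4.l0 T4.l0)) (xa (xb (xs T4.l0 T4.l0) (xs T4.l0 T4.l0)) (xb T4.l0 T4.l0))) (xb (xa T4.l0 T4.l0) (xa T4.l0 T4.l0))) (xa (xb (xa (xb (xs T4.l0 T4.l0) (xs T4.l0 T4.l0)) (xb T4.l0 (xs T4.l0 T4.l0))) (xa (xb (xs T4.l0 (xd T4.l0 T4.l0)) (xs T4.l0 (xd T4.l0 T4.l0))) (xs (xb T4.l0 T4.l0) (xb T4.l0 (xd T4.l0 T4.l0))))) (xb (xa (xb T4.l0 T4.l0) T4.l0) (xa (xb (xs T4.l0 T4.l0) (xs T4.l0 (xd T4.l0 T4.l0))) (xb T4.l0 (xs T4.l0 (xd T4.l0 T4.l0))))))) (xb (xa (xb T4.l0 T4.l0) (xb T4.l0 T4.l0)) (xa (xb (xa T4.l0 T4.l0) (xa (xs (xb T4.l0 T4.l0) (xb T4.l0 (xd T4.l0 T4.l0))) (xs (xb T4.l0 (xd T4.l0 T4.l0)) (xb T4.l0 (xd T4.l0 T4.l0))))) (xb (xa T4.l0 T4.l0)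 (xa (xs (xb T4.l0 (xd T4.l0 T4.l0)) (xb T4.l0 (xd T4.l0 T4.l0))) (xs (xb T4.l0 (xd T4.l0 T4.l0)) (xb T4.l0 (xd T4.l0 T4.l0)))))))) = true := by decide +kernel
theorem c1_0_1 : chkTag sI cl4 cl7 cl6 t2 b1_0 (tg true false false RT.r3) (I.pos (nat_lit 0) (nat_lit 0))
  (xa (xb T2.l3 (xa (xb T2.l3 T2.l3) (xb T2.l3 T2.l3))) (xb T2.l3 (xa T2.l3 (xb T2.l3 (xs T2.l3 (xa T2.l3 T2.l3)))))) = true := by decide +kernel
theorem c1_0_2 : chkTag sI cl4 cl7 cl6 t4 b1_0 (tg true true true RT.r4) (I.pos (nat_lit 0) (nat_lit 0))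
  (xa T4.l4 (xb T4.l4 (xa T4.l4 (xs T4.l4 (xc T4.l4 (xb T4.l4 T4.l4)))))) = true := by decide +kernel
theorem c1_0_3 : chkTag sI cl4 cl7 cl6 t2 b1_0 (tg false false false RT.r3) (I.pos (nat_lit 0) (nat_lit 0))
  (xa T2.l4 (xb T2.l4 (xa T2.l4 (xb T2.l4 (xa T2.l4 T2.l4))))) = true := by decide +kernel
theorem c1_0_4 : chkTag sI cl4 cl7 cl6 t4 b1_0 (tg false true false RT.r4) (I.pos (nat_lit 0) (nat_lit 0))
  (xa (xb (xa T4.l5 T4.l5) (xa T4.l5 T4.l5)) (xb T4.l5 (xa (xc T4.l5 T4.l5) (xs T4.l5 (xc T4.l5 (xb T4.l5 T4.l5)))))) = true := by decide +kernel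
theorem c1_0_5 : chkTag sI cl4 cl7 cl6 t2 b1_0 (tg false false true RT.r5) (I.pos (nat_lit 0) (nat_lit 0))
  (xa (xb T2.l5 (xa (xb T2.l5 T2.l5) (xb T2.l5 T2.l5))) (xb T2.l5 (xa T2.l5 (xb T2.l5 (xs T2.l5 (xa T2.l5 T2.l5)))))) = true := by decide +kernel
theorem bx1_0 : BoxOK sI cl4 cl7 cl6 t4 t2 b1_0 :=
  box_mk' [(tg true true false RT.r2), (tg true false false RT.r3), (tg true true true RT.r4), (tg false false false RT.r3), (tg false true false RT.r4), (tg false false true RT.r5)] rfl (allL_c (ex_mk c1_0_0) (allL_c (ex_mk c1_0_1) (allL_c (ex_mk c1_0_2) (allL_c (ex_mk c1_0_3) (allL_c (ex_mk c1_0_4) (allL_c (ex_mk c1_0_5) allL_n))))))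
theorem bx1_1 : BoxOK sI cl4 cl7 cl6 t4 t2 b1_1 :=
  box_mk (TrL.c (I.pos (nat_lit 0) (nat_lit 0)) (xa (xa (xb (xa (xb T4.l6 T4.l6) T4.l6) (xa (xb T4.l6 T4.l6) (xb T4.l6 T4.l6))) (xb T4.l6 (xa T4.l6 T4.l6))) (xa (xb T4.l6 T4.l6) (xb (xa T4.l6 (xb T4.l8 T4.l6)) (xa T4.l6 (xb T4.l6 T4.l6)))))
  (TrL.c (I.pos (nat_lit 0) (nat_lit 0)) (xa T2.l3 T2.l3)
  (TrL.c (I.pos (nat_lit 0) (nat_lit 0)) T4.l4
  (TrL.c (I.pos (nat_lit 0) (nat_lit 0)) (xa T2.l4 T2.l4)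
  (TrL.c (I.pos (nat_lit 0) (nat_lit 0)) (xa (xa T4.l7 T4.l7) (xa T4.l7 T4.l7))
  (TrL.c (I.pos (nat_lit 0) (nat_lit 0)) T2.l5
  TrL.n)))))) (by decide +kernel)
theorem bx1_2 : BoxOK sI cl4 cl7 cl6 t4 t2 b1_2 :=
  box_mk (TrL.c (I.pos (nat_lit 0) (nat_lit 0)) (xb (xa (xb T4.l8 (xa T4.l8 T4.l8)) (xb (xa T4.l8 T4.l8) T4.l8)) (xa (xb (xa T4.l6 T4.l8) (xa T4.l6 T4.l6)) (xb T4.l8 (xa T4.l8 T4.l8))))
  (TrL.c (I.pos (nat_lit 0) (nat_lit 0)) T2.l3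
  (TrL.c (I.pos (nat_lit 0) (nat_lit 0)) T4.l4
  (TrL.c (I.pos (nat_lit 0) (nat_lit 0)) T2.l4
  (TrL.c (I.pos (nat_lit 0) (nat_lit 0)) (xb T4.l9 T4.l9)
  (TrL.c (I.pos (nat_lit 0) (nat_lit 0)) T2.l5
  TrL.n)))))) (by decide +kernel)
theorem bx1_3 : BoxOK sI cl4 cl7 cl6 t4 t2 b1_3 :=
  box_mk (TrL.c (I.pos (nat_lit 0) (nat_lit 0)) (xa (xa (xb (xa T4.l10 T4.l10) T4.l20) (xb T4.l16 T4.l6)) T4.l6)
  (TrL.c (I.pos (nat_lit 0) (nat_lit 0)) (xa T2.l4 T2.l3)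
  (TrL.c (I.pos (nat_lit 0) (nat_lit 0)) (xa T4.l7 T4.l4)
  (TrL.c (I.pos (nat_lit 0) (nat_lit 0)) (xa T2.l3 T2.l4)
  (TrL.c (I.pos (nat_lit 0) (nat_lit 0)) (xa T4.l11 T4.l7)
  (TrL.c (I.pos (nat_lit 0) (nat_lit 0)) (xa (xb T2.l5 T2.l5) T2.l5)
  TrL.n)))))) (by decide +kernel)
theorem bx1_4 : BoxOK sI cl4 cl7 cl6 t4 t2 b1_4 :=
  box_mk (TrL.c (I.pos (nat_lit 0) (nat_lit 0)) (xa (xb (xa (xb T4.l0 T4.l0) (xb T4.l0 T4.l0)) (xa (xb T4.l18 T4.l18) (xb T4.l0 (xa T4.l0 T4.l0)))) (xb (xa (xb T4.l0 T4.l0) (xb T4.l2 T4.l2)) (xa (xb T4.l0 (xa T4.l0 T4.l0)) (xb (xa T4.l0 T4.l2) (xa T4.l0 (xs T4.l0 T4.l2))))))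
  (TrL.c (I.pos (nat_lit 0) (nat_lit 0)) (xa (xb T2.l3 T2.l3) (xb (xa T2.l3 T2.l3) T2.l3))
  (TrL.c (I.pos (nat_lit 0) (nat_lit 0)) (xa (xc T4.l3 T4.l4) (xc (xb T4.l3 (xa T4.l3 T4.l3)) T4.l4))
  (TrL.c (I.pos (nat_lit 0) (nat_lit 0)) (xa T2.l4 (xb (xa T2.l4 (xb (xc T2.l4 T2.l4) (xc T2.l4 T2.l4))) (xa T2.l4 (xb (xc T2.l4 T2.l4) (xc T2.l4 T2.l4)))))
  (TrL.c (I.pos (nat_lit 0) (nat_lit 0)) (xa (xc T4.l1 T4.l5) (xc (xb T4.l1 (xa T4.l1 T4.l1)) (xb T4.l1 (xa T4.l5 T4.l5))))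
  (TrL.c (I.pos (nat_lit 0) (nat_lit 0)) (xa (xb T2.l5 T2.l5) (xb (xa T2.l5 T2.l5) T2.l5))
  TrL.n)))))) (by decide +kernel)
theorem c1_5_0 : chkTag sI cl4 cl7 cl6 t4 b1_5 (tg true true false RT.r2) (I.pos (nat_lit 0) (nat_lit 0))
  (xa (xb (xa (xb (xa (xb T4.l0 T4.l0) (xb T4.l0 T4.l0)) (xa (xb T4.l0 (xs T4.l0 T4.l0)) (xs T4.l0 (xb T4.l0 T4.l0)))) (xb (xa (xb T4.l0 T4.l0) (xs T4.l0 T4.l0)) (xa (xs T4.l0 (xb T4.l0 T4.l0)) (xs T4.l0 (xb T4.l0 T4.l0))))) (xa (xb (xs (xa T4.l0 T4.l0) (xa (xb T4.l0 T4.l0) (xb T4.l0 T4.l0))) (xs (xa (xb T4.l0 T4.l0) T4.l0) (xa (xb T4.l0 (xd T4.l0 T4.l0)) (xb T4.l0 (xd T4.l0 T4.l0))))) (xb (xs (xa T4.l0 T4.l0) (xa (xb T4.l0 T4.l0) (xb T4.l0 T4.l0))) (xs (xa T4.l0 T4.l0) (xa (xb T4.l0 T4.l0) (xb T4.l0 T4.l0)))))) (xb (xa (xb (xa T4.l2 T4.l2) (xa (xs T4.l0 (xb T4.l0 T4.l0)) (xs T4.l0 T4.l0))) (xb (xa T4.l2 T4.l2)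 (xs (xa T4.l0 T4.l0) (xa T4.l0 (xb T4.l0 (xd T4.l0 T4.l0)))))) (xa (xb (xs (xa T4.l0 T4.l0) (xa (xb T4.l0 T4.l0) (xb T4.l0 T4.l0))) (xs (xa T4.l0 T4.l0) (xa (xb T4.l0 T4.l0) (xb T4.l0 (xd T4.l0 T4.l0))))) (xb (xs (xa T4.l0 T4.l0) (xa (xb T4.l0 T4.l0) (xb (xd T4.l0 T4.l0) (xd T4.l0 T4.l0)))) (xs (xa (xb T4.l0 T4.l0) (xb T4.l0 T4.l0)) (xa (xb (xd T4.l0 T4.l0) (xd T4.l0 T4.l0)) (xb (xd T4.l0 T4.l0) (xd T4.l0 T4.l0)))))))) = true := by decide +kernel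
theorem c1_5_1 : chkTag sI cl4 cl7 cl6 t2 b1_5 (tg true false false RT.r3) (I.pos (nat_lit 0) (nat_lit 0))
  (xa (xb T2.l3 (xa (xb T2.l3 T2.l3) (xb T2.l3 T2.l3))) (xb (xa T2.l3 (xb T2.l3 T2.l3)) (xa (xb T2.l3 T2.l3) (xs T2.l3 (xb T2.l3 T2.l3))))) = true := by decide +kernel
theorem c1_5_2 : chkTag sI cl4 cl7 cl6 t4 b1_5 (tg true true true RT.r4) (I.pos (nat_lit 0) (nat_lit 0))
  (xa (xc (xb T4.l4 (xs T4.l4 T4.l4)) T4.l4) (xc (xb T4.l3 (xs T4.l4 (xa T4.l4 T4.l3))) (xb (xs T4.l4 T4.l4) (xs T4.l4 (xa T4.l4 T4.l4))))) = true := by decide +kernel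
theorem c1_5_3 : chkTag sI cl4 cl7 cl6 t2 b1_5 (tg false false false RT.r3) (I.pos (nat_lit 0) (nat_lit 0))
  (xa (xb T2.l4 T2.l4) (xb (xa (xb T2.l4 T2.l4) (xb (xc T2.l4 T2.l4) (xc T2.l4 T2.l4))) (xa (xb T2.l4 T2.l4) (xb (xc T2.l4 T2.l4) (xs T2.l4 (xc T2.l4 T2.l4)))))) = true := by decide +kernel
theorem c1_5_4 : chkTag sI cl4 cl7 cl6 t4 b1_5 (tg false true false RT.r4) (I.pos (nat_lit 0) (nat_lit 0))
  (xa (xb T4.l1 (xc (xs T4.l5 T4.l5) (xs T4.l5 T4.l5))) (xc (xb T4.l1 (xs T4.l5 (xa T4.l5 T4.l1))) (xb (xs T4.l1 T4.l1) (xs T4.l5 (xa T4.l5 T4.l5))))) = true := by decide +kernel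
theorem c1_5_5 : chkTag sI cl4 cl7 cl6 t2 b1_5 (tg false false true RT.r5) (I.pos (nat_lit 0) (nat_lit 0))
  (xa (xb T2.l5 (xa (xb T2.l5 T2.l5) (xb T2.l5 T2.l5))) (xb (xa T2.l5 (xb T2.l5 T2.l5)) (xa (xb T2.l5 T2.l5) (xs T2.l5 (xb T2.l5 T2.l5))))) = true := by decide +kernel
theorem bx1_5 : BoxOK sI cl4 cl7 cl6 t4 t2 b1_5 :=
  box_mk' [(tg true true false RT.r2), (tg true false false RT.r3), (tg true true true RT.r4), (tg false false false RT.r3), (tg false true false RT.r4), (tg false false true RT.r5)] rfl (allL_c (ex_mk c1_5_0) (allL_c (ex_mk c1_5_1) (allL_c (ex_mk c1_5_2) (allL_c (ex_mk c1_5_3) (allL_c (ex_mk c1_5_4) (allL_c (ex_mk c1_5_5) allL_n))))))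
theorem bx1_6 : BoxOK sI cl4 cl7 cl6 t4 t2 b1_6 :=
  box_mk (TrL.c (I.pos (nat_lit 0) (nat_lit 0)) (xa (xa (xb T4.l12 T4.l12) T4.l20) T4.l6)
  (TrL.c (I.pos (nat_lit 0) (nat_lit 0)) (xa T2.l4 T2.l3)
  (TrL.c (I.pos (nat_lit 0) (nat_lit 0)) T4.l4
  (TrL.c (I.pos (nat_lit 0) (nat_lit 0)) (xa T2.l3 T2.l4)
  (TrL.c (I.pos (nat_lit 0) (nat_lit 0)) (xa T4.l21 T4.l7)
  (TrL.c (I.pos (nat_lit 0) (nat_lit 0)) T2.l5
  TrL.n)))))) (by decide +kernel)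
theorem bx1_7 : BoxOK sI cl4 cl7 cl6 t4 t2 b1_7 :=
  box_mk (TrL.c (I.pos (nat_lit 0) (nat_lit 0)) (xa T4.l6 (xb T4.l8 T4.l6))
  (TrL.c (I.pos (nat_lit 0) (nat_lit 0)) T2.l3
  (TrL.c (I.pos (nat_lit 0) (nat_lit 0)) T4.l4
  (TrL.c (I.pos (nat_lit 0) (nat_lit 0)) T2.l4
  (TrL.c (I.pos (nat_lit 0) (nat_lit 0)) T4.l22
  (TrL.c (I.pos (nat_lit 0) (nat_lit 0)) T2.l5
  TrL.n)))))) (by decide +kernel)
theorem bx1_8 : BoxOK sI cl4 cl7 cl6 t4 t2 b1_8 :=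
  box_mk (TrL.c (I.pos (nat_lit 0) (nat_lit 0)) (xa (xb (xa T4.l0 T4.l0) (xa T4.l0 T4.l0)) (xa (xb T4.l2 T4.l2) (xb T4.l2 T4.l2)))
  (TrL.c (I.pos (nat_lit 0) (nat_lit 0)) (xa T2.l3 (xa T2.l3 (xb T2.l3 T2.l3)))
  (TrL.c (I.pos (nat_lit 0) (nat_lit 0)) (xa T4.l3 T4.l3)
  (TrL.c (I.pos (nat_lit 0) (nat_lit 0)) (xa T2.l4 (xb (xa T2.l4 (xd T2.l4 T2.l4)) (xa T2.l4 (xd T2.l4 T2.l4))))
  (TrL.c (I.pos (nat_lit 0) (nat_lit 0)) (xa T4.l1 T4.l1)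
  (TrL.c (I.pos (nat_lit 0) (nat_lit 0)) (xa T2.l5 (xa T2.l5 (xb T2.l5 T2.l5)))
  TrL.n)))))) (by decide +kernel)
theorem bx1_9 : BoxOK sI cl4 cl7 cl6 t4 t2 b1_9 :=
  box_mk (TrL.c (I.pos (nat_lit 0) (nat_lit 0)) (xa (xb (xa (xb T4.l8 T4.l8) (xb T4.l14 T4.l14)) (xa T4.l8 (xb T4.l8 T4.l8))) (xb (xa (xb T4.l14 T4.l0) T4.l0) T4.l0))
  (TrL.c (I.pos (nat_lit 0) (nat_lit 0)) T2.l3
  (TrL.c (I.pos (nat_lit 0) (nat_lit 0)) (xa T4.l4 (xb T4.l4 T4.l4))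
  (TrL.c (I.pos (nat_lit 0) (nat_lit 0)) (xa (xb T2.l4 T2.l4) (xb (xa T2.l4 T2.l4) T2.l4))
  (TrL.c (I.pos (nat_lit 0) (nat_lit 0)) (xa (xb T4.l15 T4.l15) (xb T4.l15 T4.l15))
  (TrL.c (I.pos (nat_lit 0) (nat_lit 0)) T2.l5
  TrL.n)))))) (by decide +kernel)
theorem bx1_10 : BoxOK sI cl4 cl7 cl6 t4 t2 b1_10 :=
  box_mk (TrL.c (I.pos (nat_lit 0) (nat_lit 0)) (xa (xa (xb (xa T4.l16 T4.l16) (xa T4.l16 T4.l6)) (xb T4.l16 T4.l6)) (xa T4.l6 (xb (xa T4.l16 T4.l6) T4.l6)))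
  (TrL.c (I.pos (nat_lit 0) (nat_lit 0)) (xa (xa T2.l4 T2.l4) T2.l3)
  (TrL.c (I.pos (nat_lit 0) (nat_lit 0)) (xa T4.l4 T4.l4)
  (TrL.c (I.pos (nat_lit 0) (nat_lit 0)) (xa (xa T2.l3 T2.l3) T2.l4)
  (TrL.c (I.pos (nat_lit 0) (nat_lit 0)) (xa T4.l17 T4.l17)
  (TrL.c (I.pos (nat_lit 0) (nat_lit 0)) (xa T2.l5 T2.l5)
  TrL.n)))))) (by decide +kernel)
theorem c1_11_0 : chkTag sI cl4 cl7 cl6 t4 b1_11 (tg true true false RT.r2) (I.pos (nat_lit 0) (nat_lit 0))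
  (xb (xa (xb (xa (xb (xa T4.l18 T4.l18) (xa T4.l18 T4.l18)) (xb T4.l18 T4.l18)) (xa (xb (xa T4.l18 T4.l18) (xa T4.l18 T4.l18)) (xb T4.l18 (xa T4.l18 T4.l18)))) (xb (xa (xb T4.l18 T4.l18) (xb (xa T4.l18 T4.l2) (xa T4.l18 T4.l18))) (xa (xb T4.l18 T4.l18) (xb (xa T4.l18 T4.l18) (xa T4.l18 T4.l18))))) (xa (xb (xa (xb (xa (xs T4.l18 T4.l18) T4.l18) (xa (xs T4.l18 T4.l18) (xs T4.l18 T4.l18))) (xb (xa T4.l18 T4.l18) (xa T4.l18 T4.l18))) (xa (xb (xs (xa T4.l18 T4.l18) (xa (xd T4.l18 T4.l18) T4.l18)) (xs (xa (xd T4.l18 T4.l18) T4.l18) (xa (xd T4.l18 T4.l18) (xd T4.l18 T4.l18)))) (xb (xs T4.l18 (xa T4.l18 T4.l18)) (xs (xa T4.l18 T4.l18) (xa (xd T4.l18 T4.l18) (xd T4.l18 T4.l18)))))) (xb (xa (xb (xa T4.l18 T4.l18) (xs T4.l18 T4.l18)) (xb (xa T4.l18 (xs T4.l18 T4.l18)) (xs T4.l18 (xa T4.l18 T4.l18)))) (xa (xb (xs T4.l18 (xa T4.l18 T4.l18)) (xs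 (xa T4.l18 T4.l18) (xa (xd T4.l18 T4.l18) (xd T4.l18 T4.l18)))) (xb (xs T4.l18 (xa T4.l18 (xd T4.l18 T4.l18))) (xs (xa (xd T4.l18 T4.l18) (xd T4.l18 T4.l18)) (xa (xd T4.l18 T4.l18) (xd T4.l18 T4.l18)))))))) = true := by decide +kernel
theorem c1_11_1 : chkTag sI cl4 cl7 cl6 t2 b1_11 (tg true false false RT.r3) (I.pos (nat_lit 0) (nat_lit 0))
  (xb (xa (xb T2.l3 T2.l3) (xb (xa T2.l3 T2.l3) (xa T2.l3 T2.l3))) (xa (xb (xa T2.l3 T2.l3) (xa T2.l3 T2.l3)) (xb (xa T2.l3 T2.l3) (xa T2.l3 T2.l3)))) = true := by decide +kernel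
theorem c1_11_2 : chkTag sI cl4 cl7 cl6 t4 b1_11 (tg true true true RT.r4) (I.pos (nat_lit 0) (nat_lit 0))
  (xb (xa T4.l4 T4.l4) (xa T4.l4 (xc T4.l4 (xb T4.l4 T4.l4)))) = true := by decide +kernel
theorem c1_11_3 : chkTag sI cl4 cl7 cl6 t2 b1_11 (tg false false false RT.r3) (I.pos (nat_lit 0) (nat_lit 0))
  (xb (xa (xb T2.l4 T2.l4) (xb (xa T2.l4 T2.l4) T2.l4)) (xa T2.l4 (xb T2.l4 (xa T2.l4 T2.l4)))) = true := by decide +kernel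
theorem c1_11_4 : chkTag sI cl4 cl7 cl6 t4 b1_11 (tg false true false RT.r4) (I.pos (nat_lit 0) (nat_lit 0))
  (xa (xb T4.l19 T4.l19) (xb (xc T4.l19 (xb T4.l19 T4.l19)) (xc (xs T4.l19 T4.l19) (xs T4.l19 (xb T4.l19 T4.l19))))) = true := by decide +kernel
theorem c1_11_5 : chkTag sI cl4 cl7 cl6 t2 b1_11 (tg false false true RT.r5) (I.pos (nat_lit 0) (nat_lit 0))
  (xb (xa (xb T2.l5 T2.l5) (xb (xa T2.l5 T2.l5) (xa T2.l5 T2.l5))) (xa (xb (xa T2.l5 T2.l5) (xa T2.l5 T2.l5)) (xb (xa T2.l5 T2.l5) (xa T2.l5 T2.l5)))) = true := by decide +kernel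
theorem bx1_11 : BoxOK sI cl4 cl7 cl6 t4 t2 b1_11 :=
  box_mk' [(tg true true false RT.r2), (tg true false false RT.r3), (tg true true true RT.r4), (tg false false false RT.r3), (tg false true false RT.r4), (tg false false true RT.r5)] rfl (allL_c (ex_mk c1_11_0) (allL_c (ex_mk c1_11_1) (allL_c (ex_mk c1_11_2) (allL_c (ex_mk c1_11_3) (allL_c (ex_mk c1_11_4) (allL_c (ex_mk c1_11_5) allL_n))))))
theorem bx1_12 : BoxOK sI cl4 cl7 cl6 t4 t2 b1_12 :=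
  box_mk (TrL.c (I.pos (nat_lit 0) (nat_lit 0)) (xa (xa (xb (xb (xa (xa T4.l20 T4.l20) T4.l20) (xa T4.l20 T4.l20)) (xa (xb T4.l20 (xa T4.l20 T4.l20)) (xb T4.l20 (xa T4.l20 T4.l20)))) (xb T4.l20 (xa (xb T4.l20 (xa T4.l20 T4.l20)) (xb T4.l20 T4.l20)))) (xa (xb T4.l20 (xa T4.l6 T4.l6)) (xb (xa T4.l6 (xb T4.l8 T4.l6)) (xa T4.l6 (xb T4.l6 (xa T4.l6 T4.l6))))))
  (TrL.c (I.pos (nat_lit 0) (nat_lit 0)) (xa (xa (xb T2.l4 T2.l3) T2.l3) T2.l3)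
  (TrL.c (I.pos (nat_lit 0) (nat_lit 0)) (xa (xb T4.l4 (xa T4.l4 T4.l4)) T4.l4)
  (TrL.c (I.pos (nat_lit 0) (nat_lit 0)) (xa (xa (xb T2.l3 T2.l4) T2.l4) T2.l4)
  (TrL.c (I.pos (nat_lit 0) (nat_lit 0)) (xa (xb (xa T4.l21 T4.l21) (xa T4.l21 T4.l21)) (xa T4.l21 T4.l21))
  (TrL.c (I.pos (nat_lit 0) (nat_lit 0)) (xa (xb T2.l5 T2.l5) T2.l5)
  TrL.n)))))) (by decide +kernel)
theorem bx1_13 : BoxOK sI cl4 cl7 cl6 t4 t2 b1_13 :=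
  box_mk (TrL.c (I.pos (nat_lit 0) (nat_lit 0)) T4.l0
  (TrL.c (I.pos (nat_lit 0) (nat_lit 0)) T2.l3
  (TrL.c (I.pos (nat_lit 0) (nat_lit 0)) T4.l4
  (TrL.c (I.pos (nat_lit 0) (nat_lit 0)) (xb T2.l4 T2.l4)
  (TrL.c (I.pos (nat_lit 0) (nat_lit 0)) T4.l1
  (TrL.c (I.pos (nat_lit 0) (nat_lit 0)) T2.l5
  TrL.n)))))) (by decide +kernel)
theorem bx1_14 : BoxOK sI cl4 cl7 cl6 t4 t2 b1_14 :=
  box_mk (TrL.c (I.pos (nat_lit 0) (nat_lit 0)) T4.l0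
  (TrL.c (I.pos (nat_lit 0) (nat_lit 0)) T2.l3
  (TrL.c (I.pos (nat_lit 0) (nat_lit 0)) T4.l4
  (TrL.c (I.pos (nat_lit 0) (nat_lit 0)) T2.l4
  (TrL.c (I.pos (nat_lit 0) (nat_lit 0)) T4.l15
  (TrL.c (I.pos (nat_lit 0) (nat_lit 0)) T2.l5
  TrL.n)))))) (by decide +kernel)
theorem bx1_15 : BoxOK sI cl4 cl7 cl6 t4 t2 b1_15 :=
  box_mk (TrL.c (I.pos (nat_lit 0) (nat_lit 0)) (xb (xa (xa T4.l18 T4.l18) (xb T4.l18 T4.l18)) (xa T4.l18 (xb T4.l18 T4.l18)))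
  (TrL.c (I.pos (nat_lit 0) (nat_lit 0)) T2.l3
  (TrL.c (I.pos (nat_lit 0) (nat_lit 0)) (xb T4.l4 T4.l4)
  (TrL.c (I.pos (nat_lit 0) (nat_lit 0)) (xb (xa T2.l4 T2.l4) T2.l4)
  (TrL.c (I.pos (nat_lit 0) (nat_lit 0)) (xb T4.l19 T4.l19)
  (TrL.c (I.pos (nat_lit 0) (nat_lit 0)) T2.l5
  TrL.n)))))) (by decide +kernel)
theorem bx1_16 : BoxOK sI cl4 cl7 cl6 t4 t2 b1_16 :=
  box_mk (TrL.c (I.pos (nat_lit 0) (nat_lit 0)) T4.l0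
  (TrL.c (I.pos (nat_lit 0) (nat_lit 0)) T2.l3
  (TrL.c (I.pos (nat_lit 0) (nat_lit 0)) T4.l4
  (TrL.c (I.pos (nat_lit 0) (nat_lit 0)) T2.l4
  (TrL.c (I.pos (nat_lit 0) (nat_lit 0)) T4.l19
  (TrL.c (I.pos (nat_lit 0) (nat_lit 0)) T2.l5
  TrL.n)))))) (by decide +kernel)
theorem bx1_17 : BoxOK sI cl4 cl7 cl6 t4 t2 b1_17 :=
  box_mk (TrL.c (I.pos (nat_lit 0) (nat_lit 0)) T4.l0
  (TrL.c (I.pos (nat_lit 0) (nat_lit 0)) T2.l3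
  (TrL.c (I.pos (nat_lit 0) (nat_lit 0)) T4.l4
  (TrL.c (I.pos (nat_lit 0) (nat_lit 0)) T2.l4
  (TrL.c (I.pos (nat_lit 0) (nat_lit 0)) T4.l19
  (TrL.c (I.pos (nat_lit 0) (nat_lit 0)) T2.l5
  TrL.n)))))) (by decide +kernel)
theorem bx1_18 : BoxOK sI cl4 cl7 cl6 t4 t2 b1_18 :=
  box_mk (TrL.c (I.pos (nat_lit 0) (nat_lit 0)) T4.l0
  (TrL.c (I.pos (nat_lit 0) (nat_lit 0)) T2.l3
  (TrL.c (I.pos (nat_lit 0) (nat_lit 0)) T4.l4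
  (TrL.c (I.pos (nat_lit 0) (nat_lit 0)) T2.l4
  (TrL.c (I.pos (nat_lit 0) (nat_lit 0)) T4.l19
  (TrL.c (I.pos (nat_lit 0) (nat_lit 0)) T2.l5
  TrL.n)))))) (by decide +kernel)
theorem bx1_19 : BoxOK sI cl4 cl7 cl6 t4 t2 b1_19 :=
  box_mk (TrL.c (I.pos (nat_lit 0) (nat_lit 0)) T4.l0
  (TrL.c (I.pos (nat_lit 0) (nat_lit 0)) T2.l3
  (TrL.c (I.pos (nat_lit 0) (nat_lit 0)) T4.l4
  (TrL.c (I.pos (nat_lit 0) (nat_lit 0)) T2.l4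
  (TrL.c (I.pos (nat_lit 0) (nat_lit 0)) T4.l19
  (TrL.c (I.pos (nat_lit 0) (nat_lit 0)) T2.l5
  TrL.n)))))) (by decide +kernel)
theorem sv1 : StarV sI cl4 cl7 cl6 t4 t2 t1 :=
  (bt_n (bt_n (bt_n (bt_n (bt_b bx1_0) (bt_b bx1_1)) (bt_n (bt_b bx1_2) (bt_n (bt_b bx1_3) (bt_b bx1_4)))) (bt_n (bt_n (bt_b bx1_5) (bt_b bx1_6)) (bt_n (bt_b bx1_7) (bt_n (bt_b bx1_8) (bt_b bx1_9))))) (bt_n (bt_n (bt_n (bt_b bx1_10) (bt_b bx1_11)) (bt_n (bt_b bx1_12) (bt_n (bt_b bx1_13) (bt_b bx1_14)))) (bt_n (bt_n (bt_b bx1_15) (bt_b bx1_16)) (bt_n (bt_b bx1_17) (bt_n (bt_b bx1_18) (bt_b bx1_19))))))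
def S1 : StarD := StarD.mk cl4 cl7 cl6 4 2 t1
theorem bx2_0 : BoxOK sI cl6 cl4 cl7 t0 t5 b2_0 :=
  box_mk (TrL.c (I.pos (nat_lit 0) (nat_lit 0)) (xb (xa (xb T0.l8 (xa T0.l8 T0.l0)) (xb T0.l0 (xa T0.l0 T0.l0))) (xa (xb (xa T0.l8 (xb T0.l0 T0.l0)) (xa (xb (xs T0.l0 (xa T0.l8 T0.l0)) (xs (xa T0.l0 T0.l0) (xa T0.l0 T0.l0))) (xb (xs T0.l0 T0.l0) (xs T0.l0 (xa T0.l0 T0.l0))))) (xb (xa (xb T0.l0 T0.l0) (xb T0.l0 T0.l0)) (xa (xb T0.l0 (xs T0.l0 (xa T0.l0 T0.l0))) (xs (xb T0.l0 T0.l0) (xb T0.l0 (xa T0.l0 T0.l0)))))))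
  (TrL.c (I.pos (nat_lit 0) (nat_lit 0)) (xb T5.l1 (xa T5.l1 T5.l1))
  (TrL.c (I.pos (nat_lit 0) (nat_lit 89480386)) (xR (xR T0.l1 T0.l1) (xR T0.l1 T0.l1))
  (TrL.c (I.pos (nat_lit 0) (nat_lit 41530880)) (xR T5.l2 T5.l2)
  (TrL.c (I.pos (nat_lit 0) (nat_lit 0)) (xb (xa T5.l9 (xb T5.l3 T5.l3)) (xa T5.l3 (xb T5.l3 T5.l3)))
  (TrL.c (I.pos (nat_lit 0) (nat_lit 0)) (xb T0.l2 T0.l2)
  (TrL.c (I.mix (nat_lit 41527258) (nat_lit 41530880)) (xR (xR T5.l4 T5.l4) (xR T5.l4 T5.l4))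
  (TrL.c (I.mix (nat_lit 41527258) (nat_lit 4274)) (xR T0.l3 T0.l3)
  TrL.n)))))))) (by decide +kernel)
theorem bx2_1 : BoxOK sI cl6 cl4 cl7 t0 t5 b2_1 :=
  box_mk (TrL.c (I.pos (nat_lit 0) (nat_lit 0)) (xb T5.l5 T5.l5)
  (TrL.c (I.pos (nat_lit 0) (nat_lit 0)) T0.l4
  (TrL.c (I.mix (nat_lit 41527258) (nat_lit 41530880)) (xR T5.l6 (xR T5.l6 T5.l6))
  (TrL.c (I.mix (nat_lit 41527258) (nat_lit 4274)) (xR T0.l5 T0.l5)
  TrL.n)))) (by decide +kernel)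
theorem bx2_2 : BoxOK sI cl6 cl4 cl7 t0 t5 b2_2 :=
  box_mk (TrL.c (I.pos (nat_lit 0) (nat_lit 0)) (xb T0.l6 T0.l7)
  (TrL.c (I.pos (nat_lit 0) (nat_lit 0)) T5.l5
  (TrL.c (I.pos (nat_lit 0) (nat_lit 89480386)) (xR T0.l1 T0.l1)
  (TrL.c (I.pos (nat_lit 0) (nat_lit 41530880)) T5.l4
  (TrL.c (I.pos (nat_lit 0) (nat_lit 0)) T5.l7
  (TrL.c (I.pos (nat_lit 0) (nat_lit 0)) T0.l2
  (TrL.c (I.mix (nat_lit 41527258) (nat_lit 41530880)) (xR T5.l4 T5.l4)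
  (TrL.c (I.mix (nat_lit 41527258) (nat_lit 4274)) T0.l3
  TrL.n)))))))) (by decide +kernel)
theorem bx2_3 : BoxOK sI cl6 cl4 cl7 t0 t5 b2_3 :=
  box_mk (TrL.c (I.pos (nat_lit 0) (nat_lit 0)) (xa (xb (xa (xb T0.l7 T0.l7) T0.l7) (xa (xb T0.l7 T0.l7) (xb T0.l7 T0.l7))) (xb (xa T0.l7 T0.l7) (xa (xb T0.l7 T0.l7) (xb T0.l7 T0.l7))))
  (TrL.c (I.pos (nat_lit 0) (nat_lit 0)) (xa (xb T5.l1 T5.l5) T5.l1)
  (TrL.c (I.pos (nat_lit 0) (nat_lit 89480386)) (xR T0.l12 (xR T0.l1 T0.l1))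
  (TrL.c (I.pos (nat_lit 0) (nat_lit 41530880)) (xR T5.l2 T5.l6)
  (TrL.c (I.pos (nat_lit 0) (nat_lit 0)) (xa (xb T5.l8 T5.l8) (xb (xa T5.l8 T5.l8) T5.l8))
  (TrL.c (I.pos (nat_lit 0) (nat_lit 0)) (xa T0.l2 T0.l2)
  (TrL.c (I.mix (nat_lit 41527258) (nat_lit 41530880)) (xR (xR T5.l4 T5.l4) T5.l10)
  (TrL.c (I.mix (nat_lit 41527258) (nat_lit 4274)) (xR T0.l3 T0.l3)
  TrL.n)))))))) (by decide +kernel)
theorem bx2_4 : BoxOK sI cl6 cl4 cl7 t0 t5 b2_4 :=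
  box_mk (TrL.c (I.pos (nat_lit 0) (nat_lit 0)) (xb (xa (xb (xa (xb T0.l8 T0.l8) (xb T0.l8 T0.l8)) (xa (xb T0.l8 T0.l8) T0.l8)) (xb (xa (xb T0.l8 T0.l8) (xb T0.l8 T0.l8)) (xa T0.l8 (xb T0.l8 T0.l8)))) (xa (xb (xa (xb (xa T0.l8 T0.l8) (xa (xc T0.l8 T0.l8) T0.l8)) (xb T0.l8 T0.l8)) (xa (xb (xa (xc T0.l8 T0.l8) T0.l8) (xa (xs T0.l8 (xc T0.l8 T0.l8)) (xs T0.l8 (xc T0.l8 T0.l8)))) (xb (xa T0.l8 T0.l8) (xa (xs T0.l8 T0.l8) T0.l8)))) (xb (xa (xb T0.l8 T0.l8) (xb T0.l8 (xa T0.l8 T0.l8))) (xa (xb (xa T0.l8 T0.l8) (xa (xs T0.l8 T0.l8) (xs T0.l8 T0.l8))) (xb (xa T0.l8 (xs T0.l8 T0.l8)) (xa (xs T0.l8 (xc T0.l8 T0.l8)) (xs T0.l8 (xc T0.l8 T0.l8))))))))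
  (TrL.c (I.pos (nat_lit 0) (nat_lit 0)) (xb (xa T5.l1 T5.l1) (xa (xb T5.l1 T5.l1) (xb T5.l1 T5.l1)))
  (TrL.c (I.pos (nat_lit 0) (nat_lit 89480386)) (xR (xR T0.l1 T0.l1) (xR T0.l1 (xb T0.l1 (xR T0.l1 T0.l1))))
  (TrL.c (I.pos (nat_lit 0) (nat_lit 41530880)) (xR T5.l2 T5.l2)
  (TrL.c (I.pos (nat_lit 0) (nat_lit 0)) (xb (xa (xb T5.l9 T5.l9) (xb (xa T5.l9 T5.l9) T5.l9)) (xa (xb T5.l9 T5.l9) (xb T5.l9 T5.l9)))
  (TrL.c (I.pos (nat_lit 0) (nat_lit 0)) (xb T0.l2 (xa T0.l2 T0.l2))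
  (TrL.c (I.mix (nat_lit 41527258) (nat_lit 41530880)) (xR (xR T5.l4 T5.l4) (xR T5.l4 T5.l4))
  (TrL.c (I.mix (nat_lit 41527258) (nat_lit 4274)) (xR T0.l3 T0.l3)
  TrL.n)))))))) (by decide +kernel)
theorem bx2_5 : BoxOK sI cl6 cl4 cl7 t0 t5 b2_5 :=
  box_mk (TrL.c (I.pos (nat_lit 0) (nat_lit 0)) (xa T5.l1 (xb T5.l5 T5.l5))
  (TrL.c (I.pos (nat_lit 0) (nat_lit 0)) T0.l1
  (TrL.c (I.mix (nat_lit 41527258) (nat_lit 41530880)) (xR (xR T5.l6 T5.l6) (xR T5.l6 T5.l6))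
  (TrL.c (I.mix (nat_lit 41527258) (nat_lit 4274)) (xR T0.l5 T0.l5)
  TrL.n)))) (by decide +kernel)
theorem bx2_6 : BoxOK sI cl6 cl4 cl7 t0 t5 b2_6 :=
  box_mk (TrL.c (I.pos (nat_lit 0) (nat_lit 0)) (xa (xb T0.l11 (xa (xb T0.l11 T0.l11) T0.l11)) (xb (xa T0.l11 T0.l11) (xa T0.l11 (xb T0.l0 T0.l11))))
  (TrL.c (I.pos (nat_lit 0) (nat_lit 0)) (xb (xa T5.l1 T5.l1) (xa T5.l1 T5.l1))
  (TrL.c (I.pos (nat_lit 0) (nat_lit 89480386)) (xR (xR T0.l1 T0.l1) (xR T0.l1 (xR T0.l1 T0.l1)))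
  (TrL.c (I.pos (nat_lit 0) (nat_lit 41530880)) (xR T5.l2 T5.l2)
  (TrL.c (I.pos (nat_lit 0) (nat_lit 0)) (xb (xa T5.l0 (xb T5.l0 T5.l3)) (xa T5.l3 (xb T5.l3 (xa T5.l3 T5.l3))))
  (TrL.c (I.pos (nat_lit 0) (nat_lit 0)) (xb (xa T0.l2 T0.l2) (xa T0.l2 T0.l2))
  (TrL.c (I.mix (nat_lit 41527258) (nat_lit 41530880)) (xR (xR T5.l4 T5.l4) (xR T5.l4 T5.l10))
  (TrL.c (I.mix (nat_lit 41527258) (nat_lit 4274)) (xR T0.l3 T0.l3)
  TrL.n)))))))) (by decide +kernel)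
theorem bx2_7 : BoxOK sI cl6 cl4 cl7 t0 t5 b2_7 :=
  box_mk (TrL.c (I.pos (nat_lit 0) (nat_lit 0)) (xb T0.l6 T0.l6)
  (TrL.c (I.pos (nat_lit 0) (nat_lit 0)) T5.l5
  (TrL.c (I.pos (nat_lit 0) (nat_lit 89480386)) (xR T0.l1 T0.l1)
  (TrL.c (I.pos (nat_lit 0) (nat_lit 41530880)) T5.l4
  (TrL.c (I.pos (nat_lit 0) (nat_lit 0)) T5.l7
  (TrL.c (I.pos (nat_lit 0) (nat_lit 0)) T0.l2
  (TrL.c (I.mix (nat_lit 41527258) (nat_lit 41530880)) (xR T5.l6 T5.l4)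
  (TrL.c (I.mix (nat_lit 41527258) (nat_lit 4274)) T0.l3
  TrL.n)))))))) (by decide +kernel)
theorem bx2_8 : BoxOK sI cl6 cl4 cl7 t0 t5 b2_8 :=
  box_mk (TrL.c (I.pos (nat_lit 0) (nat_lit 0)) (xa T0.l0 T0.l0)
  (TrL.c (I.pos (nat_lit 0) (nat_lit 0)) T5.l1
  (TrL.c (I.pos (nat_lit 0) (nat_lit 89480386)) (xR T0.l12 T0.l1)
  (TrL.c (I.pos (nat_lit 0) (nat_lit 41530880)) T5.l2
  (TrL.c (I.pos (nat_lit 0) (nat_lit 0)) T5.l3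
  (TrL.c (I.pos (nat_lit 0) (nat_lit 0)) T0.l2
  (TrL.c (I.mix (nat_lit 41527258) (nat_lit 41530880)) (xR T5.l4 T5.l4)
  (TrL.c (I.mix (nat_lit 41527258) (nat_lit 4274)) T0.l3
  TrL.n)))))))) (by decide +kernel)
theorem bx2_9 : BoxOK sI cl6 cl4 cl7 t0 t5 b2_9 :=
  box_mk (TrL.c (I.pos (nat_lit 0) (nat_lit 0)) T0.l6
  (TrL.c (I.pos (nat_lit 0) (nat_lit 0)) T5.l5
  (TrL.c (I.pos (nat_lit 0) (nat_lit 89480386)) T0.l1
  (TrL.c (I.pos (nat_lit 0) (nat_lit 41530880)) T5.l2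
  (TrL.c (I.pos (nat_lit 0) (nat_lit 0)) T5.l7
  (TrL.c (I.pos (nat_lit 0) (nat_lit 0)) T0.l2
  (TrL.c (I.mix (nat_lit 41527258) (nat_lit 41530880)) T5.l4
  (TrL.c (I.mix (nat_lit 41527258) (nat_lit 4274)) T0.l3
  TrL.n)))))))) (by decide +kernel)
theorem bx2_10 : BoxOK sI cl6 cl4 cl7 t0 t5 b2_10 :=
  box_mk (TrL.c (I.pos (nat_lit 0) (nat_lit 0)) T0.l11
  (TrL.c (I.pos (nat_lit 0) (nat_lit 0)) T5.l1
  (TrL.c (I.pos (nat_lit 0) (nat_lit 89480386)) (xR T0.l12 (xR T0.l1 T0.l1))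
  (TrL.c (I.pos (nat_lit 0) (nat_lit 41530880)) (xR T5.l12 T5.l2)
  (TrL.c (I.pos (nat_lit 0) (nat_lit 0)) (xb T5.l0 T5.l3)
  (TrL.c (I.pos (nat_lit 0) (nat_lit 0)) T0.l2
  (TrL.c (I.mix (nat_lit 41527258) (nat_lit 41530880)) (xR (xR T5.l4 T5.l4) T5.l10)
  (TrL.c (I.mix (nat_lit 41527258) (nat_lit 4274)) (xR T0.l3 T0.l10)
  TrL.n)))))))) (by decide +kernel)
theorem bx2_11 : BoxOK sI cl6 cl4 cl7 t0 t5 b2_11 :=
  box_mk (TrL.c (I.pos (nat_lit 0) (nat_lit 0)) T0.l6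
  (TrL.c (I.pos (nat_lit 0) (nat_lit 0)) T5.l5
  (TrL.c (I.pos (nat_lit 0) (nat_lit 89480386)) (xR T0.l1 T0.l1)
  (TrL.c (I.pos (nat_lit 0) (nat_lit 41530880)) T5.l4
  (TrL.c (I.pos (nat_lit 0) (nat_lit 0)) T5.l5
  (TrL.c (I.pos (nat_lit 0) (nat_lit 0)) T0.l2
  (TrL.c (I.mix (nat_lit 41527258) (nat_lit 41530880)) (xR T5.l6 T5.l4)
  (TrL.c (I.mix (nat_lit 41527258) (nat_lit 4274)) T0.l3
  TrL.n)))))))) (by decide +kernel)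
theorem bx2_12 : BoxOK sI cl6 cl4 cl7 t0 t5 b2_12 :=
  box_mk (TrL.c (I.pos (nat_lit 0) (nat_lit 0)) T0.l11
  (TrL.c (I.pos (nat_lit 0) (nat_lit 0)) T5.l11
  (TrL.c (I.pos (nat_lit 0) (nat_lit 89480386)) (xR T0.l12 (xR T0.l1 T0.l1))
  (TrL.c (I.pos (nat_lit 0) (nat_lit 41530880)) (xR T5.l12 T5.l2)
  (TrL.c (I.pos (nat_lit 0) (nat_lit 0)) (xb T5.l0 T5.l0)
  (TrL.c (I.pos (nat_lit 0) (nat_lit 0)) T0.l2
  (TrL.c (I.mix (nat_lit 41527258) (nat_lit 41530880)) (xR (xR T5.l4 T5.l4) T5.l10)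
  (TrL.c (I.mix (nat_lit 41527258) (nat_lit 4274)) (xR T0.l3 T0.l10)
  TrL.n)))))))) (by decide +kernel)
theorem bx2_13 : BoxOK sI cl6 cl4 cl7 t0 t5 b2_13 :=
  box_mk (TrL.c (I.pos (nat_lit 0) (nat_lit 0)) T0.l6
  (TrL.c (I.pos (nat_lit 0) (nat_lit 0)) T5.l5
  (TrL.c (I.pos (nat_lit 0) (nat_lit 89480386)) (xR T0.l1 T0.l1)
  (TrL.c (I.pos (nat_lit 0) (nat_lit 41530880)) T5.l4
  (TrL.c (I.pos (nat_lit 0) (nat_lit 0)) T5.l5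
  (TrL.c (I.pos (nat_lit 0) (nat_lit 0)) T0.l2
  (TrL.c (I.mix (nat_lit 41527258) (nat_lit 41530880)) T5.l6
  (TrL.c (I.mix (nat_lit 41527258) (nat_lit 4274)) T0.l3
  TrL.n)))))))) (by decide +kernel)
theorem bx2_14 : BoxOK sI cl6 cl4 cl7 t0 t5 b2_14 :=
  box_mk (TrL.c (I.pos (nat_lit 0) (nat_lit 0)) (xa T0.l0 T0.l0)
  (TrL.c (I.pos (nat_lit 0) (nat_lit 0)) T5.l1
  (TrL.c (I.pos (nat_lit 0) (nat_lit 89480386)) (xR T0.l12 T0.l1)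
  (TrL.c (I.pos (nat_lit 0) (nat_lit 41530880)) T5.l2
  (TrL.c (I.pos (nat_lit 0) (nat_lit 0)) T5.l3
  (TrL.c (I.pos (nat_lit 0) (nat_lit 0)) T0.l2
  (TrL.c (I.mix (nat_lit 41527258) (nat_lit 41530880)) (xR T5.l4 T5.l4)
  (TrL.c (I.mix (nat_lit 41527258) (nat_lit 4274)) T0.l3
  TrL.n)))))))) (by decide +kernel)
theorem bx2_15 : BoxOK sI cl6 cl4 cl7 t0 t5 b2_15 :=
  box_mk (TrL.c (I.pos (nat_lit 0) (nat_lit 0)) T0.l6
  (TrL.c (I.pos (nat_lit 0) (nat_lit 0)) T5.l5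
  (TrL.c (I.pos (nat_lit 0) (nat_lit 89480386)) (xR T0.l1 T0.l1)
  (TrL.c (I.pos (nat_lit 0) (nat_lit 41530880)) T5.l2
  (TrL.c (I.pos (nat_lit 0) (nat_lit 0)) T5.l8
  (TrL.c (I.pos (nat_lit 0) (nat_lit 0)) T0.l2
  (TrL.c (I.mix (nat_lit 41527258) (nat_lit 41530880)) T5.l4
  (TrL.c (I.mix (nat_lit 41527258) (nat_lit 4274)) T0.l3
  TrL.n)))))))) (by decide +kernel)
theorem bx2_16 : BoxOK sI cl6 cl4 cl7 t0 t5 b2_16 :=
  box_mk (TrL.c (I.pos (nat_lit 0) (nat_lit 0)) T0.l6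
  (TrL.c (I.pos (nat_lit 0) (nat_lit 0)) T5.l5
  (TrL.c (I.pos (nat_lit 0) (nat_lit 89480386)) (xR T0.l1 T0.l1)
  (TrL.c (I.pos (nat_lit 0) (nat_lit 41530880)) T5.l4
  (TrL.c (I.pos (nat_lit 0) (nat_lit 0)) T5.l5
  (TrL.c (I.pos (nat_lit 0) (nat_lit 0)) T0.l2
  (TrL.c (I.mix (nat_lit 41527258) (nat_lit 41530880)) (xR T5.l6 T5.l4)
  (TrL.c (I.mix (nat_lit 41527258) (nat_lit 4274)) T0.l3
  TrL.n)))))))) (by decide +kernel)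
theorem bx2_17 : BoxOK sI cl6 cl4 cl7 t0 t5 b2_17 :=
  box_mk (TrL.c (I.pos (nat_lit 0) (nat_lit 0)) (xa T0.l0 T0.l11)
  (TrL.c (I.pos (nat_lit 0) (nat_lit 0)) T5.l11
  (TrL.c (I.pos (nat_lit 0) (nat_lit 89480386)) (xR T0.l12 T0.l1)
  (TrL.c (I.pos (nat_lit 0) (nat_lit 41530880)) (xR T5.l12 T5.l2)
  (TrL.c (I.pos (nat_lit 0) (nat_lit 0)) (xb T5.l0 T5.l0)
  (TrL.c (I.pos (nat_lit 0) (nat_lit 0)) T0.l2
  (TrL.c (I.mix (nat_lit 41527258) (nat_lit 41530880)) (xR (xR T5.l4 T5.l4) T5.l10)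
  (TrL.c (I.mix (nat_lit 41527258) (nat_lit 4274)) (xR T0.l3 T0.l10)
  TrL.n)))))))) (by decide +kernel)
theorem bx2_18 : BoxOK sI cl6 cl4 cl7 t0 t5 b2_18 :=
  box_mk (TrL.c (I.pos (nat_lit 0) (nat_lit 0)) T0.l6
  (TrL.c (I.pos (nat_lit 0) (nat_lit 0)) T5.l5
  (TrL.c (I.pos (nat_lit 0) (nat_lit 89480386)) (xR T0.l1 T0.l1)
  (TrL.c (I.pos (nat_lit 0) (nat_lit 41530880)) T5.l4
  (TrL.c (I.pos (nat_lit 0) (nat_lit 0)) T5.l5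
  (TrL.c (I.pos (nat_lit 0) (nat_lit 0)) T0.l2
  (TrL.c (I.mix (nat_lit 41527258) (nat_lit 41530880)) T5.l6
  (TrL.c (I.mix (nat_lit 41527258) (nat_lit 4274)) T0.l3
  TrL.n)))))))) (by decide +kernel)
theorem bx2_19 : BoxOK sI cl6 cl4 cl7 t0 t5 b2_19 :=
  box_mk (TrL.c (I.pos (nat_lit 0) (nat_lit 0)) T0.l0
  (TrL.c (I.pos (nat_lit 0) (nat_lit 0)) T5.l1
  (TrL.c (I.pos (nat_lit 0) (nat_lit 89480386)) (xR T0.l1 T0.l1)
  (TrL.c (I.pos (nat_lit 0) (nat_lit 41530880)) T5.l2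
  (TrL.c (I.pos (nat_lit 0) (nat_lit 0)) T5.l3
  (TrL.c (I.pos (nat_lit 0) (nat_lit 0)) T0.l2
  (TrL.c (I.mix (nat_lit 41527258) (nat_lit 41530880)) (xR T5.l4 T5.l4)
  (TrL.c (I.mix (nat_lit 41527258) (nat_lit 4274)) T0.l3
  TrL.n)))))))) (by decide +kernel)
theorem bx2_20 : BoxOK sI cl6 cl4 cl7 t0 t5 b2_20 :=
  box_mk (TrL.c (I.pos (nat_lit 0) (nat_lit 0)) T0.l6
  (TrL.c (I.pos (nat_lit 0) (nat_lit 0)) T5.l5
  (TrL.c (I.pos (nat_lit 0) (nat_lit 89480386)) T0.l1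
  (TrL.c (I.pos (nat_lit 0) (nat_lit 41530880)) T5.l2
  (TrL.c (I.pos (nat_lit 0) (nat_lit 0)) T5.l7
  (TrL.c (I.pos (nat_lit 0) (nat_lit 0)) T0.l2
  (TrL.c (I.mix (nat_lit 41527258) (nat_lit 41530880)) T5.l4
  (TrL.c (I.mix (nat_lit 41527258) (nat_lit 4274)) T0.l3
  TrL.n)))))))) (by decide +kernel)
theorem bx2_21 : BoxOK sI cl6 cl4 cl7 t0 t5 b2_21 :=
  box_mk (TrL.c (I.pos (nat_lit 0) (nat_lit 0)) (xa T0.l11 T0.l11)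
  (TrL.c (I.pos (nat_lit 0) (nat_lit 0)) (xb T5.l1 T5.l1)
  (TrL.c (I.pos (nat_lit 0) (nat_lit 89480386)) (xR T0.l12 T0.l1)
  (TrL.c (I.pos (nat_lit 0) (nat_lit 41530880)) (xR T5.l2 T5.l2)
  (TrL.c (I.pos (nat_lit 0) (nat_lit 0)) (xb (xa T5.l0 T5.l0) T5.l3)
  (TrL.c (I.pos (nat_lit 0) (nat_lit 0)) (xb T0.l2 T0.l2)
  (TrL.c (I.mix (nat_lit 41527258) (nat_lit 41530880)) (xR (xR T5.l4 T5.l4) T5.l10)
  (TrL.c (I.mix (nat_lit 41527258) (nat_lit 4274)) (xR T0.l3 T0.l10)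
  TrL.n)))))))) (by decide +kernel)
theorem bx2_22 : BoxOK sI cl6 cl4 cl7 t0 t5 b2_22 :=
  box_mk (TrL.c (I.pos (nat_lit 0) (nat_lit 0)) (xb (xa (xb T0.l8 (xa T0.l0 T0.l0)) (xb T0.l0 (xa T0.l0 T0.l0))) (xa (xb (xa T0.l8 T0.l0) (xa (xs T0.l0 (xb T0.l0 T0.l0)) (xs T0.l0 T0.l0))) (xb (xa T0.l0 T0.l0) (xa (xs T0.l0 T0.l0) (xs T0.l0 T0.l0)))))
  (TrL.c (I.pos (nat_lit 0) (nat_lit 0)) (xb T5.l1 T5.l1)
  (TrL.c (I.pos (nat_lit 0) (nat_lit 89480386)) (xR (xR T0.l1 T0.l1) (xR T0.l1 T0.l1))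
  (TrL.c (I.pos (nat_lit 0) (nat_lit 41530880)) (xR T5.l2 T5.l2)
  (TrL.c (I.pos (nat_lit 0) (nat_lit 0)) (xb T5.l3 (xa T5.l3 T5.l3))
  (TrL.c (I.pos (nat_lit 0) (nat_lit 0)) T0.l2
  (TrL.c (I.mix (nat_lit 41527258) (nat_lit 41530880)) (xR T5.l4 T5.l4)
  (TrL.c (I.mix (nat_lit 41527258) (nat_lit 4274)) T0.l3
  TrL.n)))))))) (by decide +kernel)
theorem bx2_23 : BoxOK sI cl6 cl4 cl7 t0 t5 b2_23 :=
  box_mk (TrL.c (I.pos (nat_lit 0) (nat_lit 0)) (xb T0.l6 T0.l7)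
  (TrL.c (I.pos (nat_lit 0) (nat_lit 0)) T5.l5
  (TrL.c (I.pos (nat_lit 0) (nat_lit 89480386)) (xR T0.l1 T0.l1)
  (TrL.c (I.pos (nat_lit 0) (nat_lit 41530880)) T5.l2
  (TrL.c (I.pos (nat_lit 0) (nat_lit 0)) T5.l8
  (TrL.c (I.pos (nat_lit 0) (nat_lit 0)) T0.l2
  (TrL.c (I.mix (nat_lit 41527258) (nat_lit 41530880)) T5.l4
  (TrL.c (I.mix (nat_lit 41527258) (nat_lit 4274)) T0.l3
  TrL.n)))))))) (by decide +kernel)
theorem sv2 : StarV sI cl6 cl4 cl7 t0 t5 t2 :=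
  (bt_n (bt_n (bt_n (bt_n (bt_b bx2_0) (bt_n (bt_b bx2_1) (bt_b bx2_2))) (bt_n (bt_b bx2_3) (bt_n (bt_b bx2_4) (bt_b bx2_5)))) (bt_n (bt_n (bt_b bx2_6) (bt_n (bt_b bx2_7) (bt_b bx2_8))) (bt_n (bt_b bx2_9) (bt_n (bt_b bx2_10) (bt_b bx2_11))))) (bt_n (bt_n (bt_n (bt_b bx2_12) (bt_n (bt_b bx2_13) (bt_b bx2_14))) (bt_n (bt_b bx2_15) (bt_n (bt_b bx2_16) (bt_b bx2_17)))) (bt_n (bt_n (bt_b bx2_18) (bt_n (bt_b bx2_19) (bt_b bx2_20))) (bt_n (bt_b bx2_21) (bt_n (bt_b bx2_22) (bt_b bx2_23))))))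
def S2 : StarD := StarD.mk cl6 cl4 cl7 0 5 t2
theorem bx3_0 : BoxOK sI cl6 cl7 cl4 t5 t0 b3_0 :=
  box_mk (TrL.c (I.pos (nat_lit 0) (nat_lit 0)) (xa (xb (xa (xb (xa T5.l0 T5.l0) (xa (xc T5.l0 T5.l0) T5.l0)) (xb (xa T5.l0 T5.l0) (xa T5.l0 T5.l0))) (xa (xb (xa (xs T5.l0 T5.l0) (xs T5.l0 T5.l0)) (xa (xs (xc T5.l0 T5.l0) (xc T5.l0 T5.l0)) (xs T5.l0 (xc T5.l0 T5.l0)))) (xb (xa T5.l0 T5.l0) (xa (xs T5.l0 T5.l0) (xs T5.l0 T5.l0))))) (xb (xa (xb T5.l0 T5.l0) (xb T5.l0 T5.l0)) (xa (xb (xa T5.l0 T5.l0) (xa (xs T5.l0 T5.l0) (xs T5.l0 T5.l0))) (xb (xa T5.l0 T5.l0) (xa (xs T5.l0 T5.l0) (xs T5.l0 T5.l0))))))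
  (TrL.c (I.pos (nat_lit 0) (nat_lit 0)) (xa (xb T0.l9 (xa T0.l9 T0.l9)) (xb (xa T0.l9 T0.l9) (xa T0.l9 (xb T0.l9 T0.l9))))
  (TrL.c (I.pos (nat_lit 0) (nat_lit 89480386)) (xR (xR T5.l10 T5.l10) (xR T5.l10 (xa T5.l10 T5.l10)))
  (TrL.c (I.pos (nat_lit 0) (nat_lit 41530880)) (xR T0.l10 T0.l10)
  (TrL.c (I.pos (nat_lit 0) (nat_lit 0)) (xa (xb (xa T0.l11 T0.l11) (xa T0.l11 T0.l11)) (xb (xa T0.l11 T0.l11) (xa T0.l11 T0.l11)))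
  (TrL.c (I.pos (nat_lit 0) (nat_lit 0)) (xa T5.l11 (xb T5.l11 T5.l11))
  (TrL.c (I.mix (nat_lit 41527258) (nat_lit 41530880)) (xR (xR T0.l12 T0.l12) (xR T0.l1 T0.l1))
  (TrL.c (I.mix (nat_lit 41527258) (nat_lit 4274)) (xR T5.l12 T5.l12)
  TrL.n)))))))) (by decide +kernel)
theorem bx3_1 : BoxOK sI cl6 cl7 cl4 t5 t0 b3_1 :=
  box_mk (TrL.c (I.pos (nat_lit 0) (nat_lit 0)) (xa (xb T5.l13 (xa T5.l19 T5.l13)) (xb T5.l0 (xa T5.l13 T5.l13)))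
  (TrL.c (I.pos (nat_lit 0) (nat_lit 0)) (xa T0.l9 T0.l9)
  (TrL.c (I.pos (nat_lit 0) (nat_lit 89480386)) (xR T5.l10 T5.l10)
  (TrL.c (I.pos (nat_lit 0) (nat_lit 41530880)) T0.l10
  (TrL.c (I.pos (nat_lit 0) (nat_lit 0)) (xa (xb T0.l13 T0.l13) (xb T0.l13 T0.l13))
  (TrL.c (I.pos (nat_lit 0) (nat_lit 0)) (xa T5.l11 T5.l11)
  (TrL.c (I.mix (nat_lit 41527258) (nat_lit 41530880)) (xR T0.l12 T0.l1)
  (TrL.c (I.mix (nat_lit 41527258) (nat_lit 4274)) T5.l12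
  TrL.n)))))))) (by decide +kernel)
theorem bx3_2 : BoxOK sI cl6 cl7 cl4 t5 t0 b3_2 :=
  box_mk (TrL.c (I.pos (nat_lit 0) (nat_lit 0)) (xa (xa (xb T5.l14 T5.l16) T5.l16) (xa T5.l18 T5.l18))
  (TrL.c (I.pos (nat_lit 0) (nat_lit 0)) (xa T0.l9 T0.l9)
  (TrL.c (I.pos (nat_lit 0) (nat_lit 89480386)) (xR T5.l10 T5.l10)
  (TrL.c (I.pos (nat_lit 0) (nat_lit 41530880)) T0.l10
  (TrL.c (I.pos (nat_lit 0) (nat_lit 0)) (xa T0.l9 T0.l14)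
  (TrL.c (I.pos (nat_lit 0) (nat_lit 0)) T5.l11
  (TrL.c (I.mix (nat_lit 41527258) (nat_lit 41530880)) T0.l12
  (TrL.c (I.mix (nat_lit 41527258) (nat_lit 4274)) T5.l12
  TrL.n)))))))) (by decide +kernel)
theorem bx3_3 : BoxOK sI cl6 cl7 cl4 t5 t0 b3_3 :=
  box_mk (TrL.c (I.pos (nat_lit 0) (nat_lit 0)) (xb (xa (xb (xa T5.l15 T5.l15) (xa T5.l15 T5.l15)) (xb T5.l15 T5.l15)) (xa (xb (xa T5.l15 T5.l15) (xa (xs T5.l15 T5.l15) (xs T5.l15 T5.l15))) (xb (xa T5.l15 T5.l15) (xa T5.l15 T5.l15))))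
  (TrL.c (I.pos (nat_lit 0) (nat_lit 0)) (xb (xa T0.l9 T0.l9) (xa T0.l9 T0.l9))
  (TrL.c (I.pos (nat_lit 0) (nat_lit 89480386)) (xR T5.l10 (xR T5.l10 T5.l10))
  (TrL.c (I.pos (nat_lit 0) (nat_lit 41530880)) (xR T0.l10 T0.l10)
  (TrL.c (I.pos (nat_lit 0) (nat_lit 0)) (xb (xa T0.l15 T0.l15) T0.l11)
  (TrL.c (I.pos (nat_lit 0) (nat_lit 0)) (xb T5.l11 T5.l11)
  (TrL.c (I.mix (nat_lit 41527258) (nat_lit 41530880)) (xR (xR T0.l12 T0.l12) T0.l1)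
  (TrL.c (I.mix (nat_lit 41527258) (nat_lit 4274)) (xR T5.l12 T5.l12)
  TrL.n)))))))) (by decide +kernel)
theorem bx3_4 : BoxOK sI cl6 cl7 cl4 t5 t0 b3_4 :=
  box_mk (TrL.c (I.pos (nat_lit 0) (nat_lit 0)) (xa (xa (xb (xa (xb T5.l16 T5.l16) T5.l16) (xa (xb T5.l16 T5.l16) T5.l16)) (xb T5.l16 (xa T5.l16 T5.l16))) (xa (xb (xa T5.l16 T5.l16) (xa T5.l16 T5.l16)) (xb (xa T5.l16 T5.l16) (xa T5.l16 T5.l18))))
  (TrL.c (I.pos (nat_lit 0) (nat_lit 0)) (xa (xa T0.l9 T0.l9) (xa T0.l9 T0.l9))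
  (TrL.c (I.pos (nat_lit 0) (nat_lit 89480386)) (xR T5.l10 (xa (xR T5.l10 T5.l10) T5.l10))
  (TrL.c (I.pos (nat_lit 0) (nat_lit 41530880)) (xR T0.l10 T0.l10)
  (TrL.c (I.pos (nat_lit 0) (nat_lit 0)) (xa (xa T0.l16 T0.l16) (xa T0.l16 T0.l16))
  (TrL.c (I.pos (nat_lit 0) (nat_lit 0)) (xa T5.l11 T5.l11)
  (TrL.c (I.mix (nat_lit 41527258) (nat_lit 41530880)) (xR (xR T0.l12 T0.l12) T0.l12)
  (TrL.c (I.mix (nat_lit 41527258) (nat_lit 4274)) T5.l12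
  TrL.n)))))))) (by decide +kernel)
theorem bx3_5 : BoxOK sI cl6 cl7 cl4 t5 t0 b3_5 :=
  box_mk (TrL.c (I.pos (nat_lit 0) (nat_lit 0)) (xa T5.l0 T5.l0)
  (TrL.c (I.pos (nat_lit 0) (nat_lit 0)) T0.l9
  (TrL.c (I.pos (nat_lit 0) (nat_lit 89480386)) (xR (xR T5.l10 T5.l10) (xR T5.l10 T5.l10))
  (TrL.c (I.pos (nat_lit 0) (nat_lit 41530880)) T0.l10
  (TrL.c (I.pos (nat_lit 0) (nat_lit 0)) (xb T0.l15 T0.l15)
  (TrL.c (I.pos (nat_lit 0) (nat_lit 0)) T5.l11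
  (TrL.c (I.mix (nat_lit 41527258) (nat_lit 41530880)) (xR T0.l12 T0.l1)
  (TrL.c (I.mix (nat_lit 41527258) (nat_lit 4274)) T5.l12
  TrL.n)))))))) (by decide +kernel)
theorem bx3_6 : BoxOK sI cl6 cl7 cl4 t5 t0 b3_6 :=
  box_mk (TrL.c (I.pos (nat_lit 0) (nat_lit 0)) (xa (xb T5.l15 T5.l15) (xb T5.l15 T5.l15))
  (TrL.c (I.pos (nat_lit 0) (nat_lit 0)) (xb T0.l9 T0.l9)
  (TrL.c (I.pos (nat_lit 0) (nat_lit 89480386)) (xR T5.l10 (xR T5.l10 T5.l10))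
  (TrL.c (I.pos (nat_lit 0) (nat_lit 41530880)) T0.l10
  (TrL.c (I.pos (nat_lit 0) (nat_lit 0)) (xb T0.l15 T0.l15)
  (TrL.c (I.pos (nat_lit 0) (nat_lit 0)) T5.l11
  (TrL.c (I.mix (nat_lit 41527258) (nat_lit 41530880)) (xR T0.l12 T0.l1)
  (TrL.c (I.mix (nat_lit 41527258) (nat_lit 4274)) T5.l12
  TrL.n)))))))) (by decide +kernel)
theorem bx3_7 : BoxOK sI cl6 cl7 cl4 t5 t0 b3_7 :=
  box_mk (TrL.c (I.pos (nat_lit 0) (nat_lit 0)) (xa (xa (xa (xb T5.l20 T5.l17) T5.l17) T5.l16) T5.l16)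
  (TrL.c (I.pos (nat_lit 0) (nat_lit 0)) (xa T0.l9 T0.l9)
  (TrL.c (I.pos (nat_lit 0) (nat_lit 89480386)) T5.l10
  (TrL.c (I.pos (nat_lit 0) (nat_lit 41530880)) (xR T0.l10 T0.l10)
  (TrL.c (I.pos (nat_lit 0) (nat_lit 0)) (xa T0.l9 T0.l16)
  (TrL.c (I.pos (nat_lit 0) (nat_lit 0)) T5.l11
  (TrL.c (I.mix (nat_lit 41527258) (nat_lit 41530880)) (xR T0.l12 T0.l12)
  (TrL.c (I.mix (nat_lit 41527258) (nat_lit 4274)) T5.l12
  TrL.n)))))))) (by decide +kernel)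
theorem bx3_8 : BoxOK sI cl6 cl7 cl4 t5 t0 b3_8 :=
  box_mk (TrL.c (I.pos (nat_lit 0) (nat_lit 0)) (xa T5.l13 T5.l0)
  (TrL.c (I.pos (nat_lit 0) (nat_lit 0)) T0.l9
  (TrL.c (I.pos (nat_lit 0) (nat_lit 89480386)) (xR T5.l10 T5.l10)
  (TrL.c (I.pos (nat_lit 0) (nat_lit 41530880)) T0.l10
  (TrL.c (I.pos (nat_lit 0) (nat_lit 0)) T0.l20
  (TrL.c (I.pos (nat_lit 0) (nat_lit 0)) T5.l11
  (TrL.c (I.mix (nat_lit 41527258) (nat_lit 41530880)) (xR T0.l12 T0.l1)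
  (TrL.c (I.mix (nat_lit 41527258) (nat_lit 4274)) T5.l12
  TrL.n)))))))) (by decide +kernel)
theorem bx3_9 : BoxOK sI cl6 cl7 cl4 t5 t0 b3_9 :=
  box_mk (TrL.c (I.pos (nat_lit 0) (nat_lit 0)) T5.l0
  (TrL.c (I.pos (nat_lit 0) (nat_lit 0)) T0.l9
  (TrL.c (I.pos (nat_lit 0) (nat_lit 89480386)) (xR T5.l10 T5.l10)
  (TrL.c (I.pos (nat_lit 0) (nat_lit 41530880)) T0.l10
  (TrL.c (I.pos (nat_lit 0) (nat_lit 0)) T0.l15
  (TrL.c (I.pos (nat_lit 0) (nat_lit 0)) T5.l11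
  (TrL.c (I.mix (nat_lit 41527258) (nat_lit 41530880)) (xR T0.l12 T0.l1)
  (TrL.c (I.mix (nat_lit 41527258) (nat_lit 4274)) T5.l12
  TrL.n)))))))) (by decide +kernel)
theorem bx3_10 : BoxOK sI cl6 cl7 cl4 t5 t0 b3_10 :=
  box_mk (TrL.c (I.pos (nat_lit 0) (nat_lit 0)) (xa (xa (xb (xa T5.l16 T5.l16) (xa (xb T5.l18 T5.l18) T5.l18)) (xb T5.l18 (xa T5.l18 T5.l18))) (xa (xb T5.l18 (xa T5.l18 T5.l18)) (xb (xa T5.l18 T5.l18) (xa T5.l18 T5.l18))))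
  (TrL.c (I.pos (nat_lit 0) (nat_lit 0)) (xa (xa T0.l9 T0.l9) (xa T0.l9 T0.l9))
  (TrL.c (I.pos (nat_lit 0) (nat_lit 89480386)) (xR T5.l10 (xa T5.l10 T5.l10))
  (TrL.c (I.pos (nat_lit 0) (nat_lit 41530880)) (xR T0.l10 T0.l10)
  (TrL.c (I.pos (nat_lit 0) (nat_lit 0)) (xa (xa T0.l9 T0.l17) (xa T0.l17 T0.l17))
  (TrL.c (I.pos (nat_lit 0) (nat_lit 0)) (xa T5.l11 T5.l11)
  (TrL.c (I.mix (nat_lit 41527258) (nat_lit 41530880)) (xR T0.l12 (xR T0.l12 T0.l12))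
  (TrL.c (I.mix (nat_lit 41527258) (nat_lit 4274)) T5.l12
  TrL.n)))))))) (by decide +kernel)
theorem bx3_11 : BoxOK sI cl6 cl7 cl4 t5 t0 b3_11 :=
  box_mk (TrL.c (I.pos (nat_lit 0) (nat_lit 0)) (xb (xa T5.l19 T5.l19) (xa (xb T5.l18 T5.l18) (xb T5.l19 T5.l19)))
  (TrL.c (I.pos (nat_lit 0) (nat_lit 0)) T0.l9
  (TrL.c (I.pos (nat_lit 0) (nat_lit 89480386)) (xR T5.l10 T5.l10)
  (TrL.c (I.pos (nat_lit 0) (nat_lit 41530880)) T0.l10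
  (TrL.c (I.pos (nat_lit 0) (nat_lit 0)) (xb (xa T0.l18 T0.l18) T0.l18)
  (TrL.c (I.pos (nat_lit 0) (nat_lit 0)) T5.l11
  (TrL.c (I.mix (nat_lit 41527258) (nat_lit 41530880)) (xR T0.l12 T0.l1)
  (TrL.c (I.mix (nat_lit 41527258) (nat_lit 4274)) T5.l12
  TrL.n)))))))) (by decide +kernel)
theorem bx3_12 : BoxOK sI cl6 cl7 cl4 t5 t0 b3_12 :=
  box_mk (TrL.c (I.pos (nat_lit 0) (nat_lit 0)) (xa (xa (xb T5.l20 T5.l20) T5.l16) (xa T5.l16 T5.l16))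
  (TrL.c (I.pos (nat_lit 0) (nat_lit 0)) (xa T0.l16 T0.l9)
  (TrL.c (I.pos (nat_lit 0) (nat_lit 89480386)) T5.l10
  (TrL.c (I.pos (nat_lit 0) (nat_lit 41530880)) T0.l12
  (TrL.c (I.pos (nat_lit 0) (nat_lit 0)) (xa T0.l9 (xa T0.l14 T0.l14))
  (TrL.c (I.pos (nat_lit 0) (nat_lit 0)) T5.l11
  (TrL.c (I.mix (nat_lit 41527258) (nat_lit 41530880)) (xR T0.l12 T0.l12)
  (TrL.c (I.mix (nat_lit 41527258) (nat_lit 4274)) T5.l12
  TrL.n)))))))) (by decide +kernel)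
theorem bx3_13 : BoxOK sI cl6 cl7 cl4 t5 t0 b3_13 :=
  box_mk (TrL.c (I.pos (nat_lit 0) (nat_lit 0)) T5.l0
  (TrL.c (I.pos (nat_lit 0) (nat_lit 0)) T0.l9
  (TrL.c (I.pos (nat_lit 0) (nat_lit 89480386)) (xR (xR T5.l10 T5.l10) (xR T5.l10 T5.l10))
  (TrL.c (I.pos (nat_lit 0) (nat_lit 41530880)) (xR T0.l10 T0.l10)
  (TrL.c (I.pos (nat_lit 0) (nat_lit 0)) T0.l11
  (TrL.c (I.pos (nat_lit 0) (nat_lit 0)) T5.l11
  (TrL.c (I.mix (nat_lit 41527258) (nat_lit 41530880)) (xR T0.l12 T0.l1)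
  (TrL.c (I.mix (nat_lit 41527258) (nat_lit 4274)) (xR T5.l12 T5.l12)
  TrL.n)))))))) (by decide +kernel)
theorem bx3_14 : BoxOK sI cl6 cl7 cl4 t5 t0 b3_14 :=
  box_mk (TrL.c (I.pos (nat_lit 0) (nat_lit 0)) (xa T5.l0 T5.l0)
  (TrL.c (I.pos (nat_lit 0) (nat_lit 0)) (xa T0.l9 T0.l2)
  (TrL.c (I.pos (nat_lit 0) (nat_lit 89480386)) (xR (xR T5.l4 T5.l10) (xR T5.l10 T5.l10))
  (TrL.c (I.pos (nat_lit 0) (nat_lit 41530880)) (xR T0.l10 T0.l10)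
  (TrL.c (I.pos (nat_lit 0) (nat_lit 0)) T0.l11
  (TrL.c (I.pos (nat_lit 0) (nat_lit 0)) T5.l1
  (TrL.c (I.mix (nat_lit 41527258) (nat_lit 41530880)) (xR (xR T0.l12 T0.l12) T0.l1)
  (TrL.c (I.mix (nat_lit 41527258) (nat_lit 4274)) (xR T5.l12 T5.l2)
  TrL.n)))))))) (by decide +kernel)
theorem bx3_15 : BoxOK sI cl6 cl7 cl4 t5 t0 b3_15 :=
  box_mk (TrL.c (I.pos (nat_lit 0) (nat_lit 0)) (xa (xb (xa T5.l0 T5.l0) (xa (xs T5.l0 T5.l0) T5.l0)) (xb (xa T5.l0 T5.l0) (xa T5.l0 T5.l0)))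
  (TrL.c (I.pos (nat_lit 0) (nat_lit 0)) (xa (xb T0.l9 T0.l9) (xb T0.l9 T0.l9))
  (TrL.c (I.pos (nat_lit 0) (nat_lit 89480386)) (xR (xR T5.l10 T5.l10) (xR T5.l10 T5.l10))
  (TrL.c (I.pos (nat_lit 0) (nat_lit 41530880)) (xR T0.l10 T0.l10)
  (TrL.c (I.pos (nat_lit 0) (nat_lit 0)) (xa T0.l11 T0.l11)
  (TrL.c (I.pos (nat_lit 0) (nat_lit 0)) T5.l11
  (TrL.c (I.mix (nat_lit 41527258) (nat_lit 41530880)) (xR T0.l12 T0.l1)
  (TrL.c (I.mix (nat_lit 41527258) (nat_lit 4274)) T5.l12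
  TrL.n)))))))) (by decide +kernel)
theorem bx3_16 : BoxOK sI cl6 cl7 cl4 t5 t0 b3_16 :=
  box_mk (TrL.c (I.pos (nat_lit 0) (nat_lit 0)) (xa (xb T5.l0 T5.l0) (xb (xa T5.l0 T5.l0) (xa T5.l0 T5.l0)))
  (TrL.c (I.pos (nat_lit 0) (nat_lit 0)) (xa (xb (xa T0.l9 T0.l2) (xa T0.l9 T0.l2)) (xb T0.l2 T0.l2))
  (TrL.c (I.pos (nat_lit 0) (nat_lit 89480386)) (xR (xR T5.l4 T5.l10) (xR T5.l10 T5.l10))
  (TrL.c (I.pos (nat_lit 0) (nat_lit 41530880)) (xR T0.l3 T0.l10)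
  (TrL.c (I.pos (nat_lit 0) (nat_lit 0)) (xb (xa (xb T0.l11 T0.l11) (xb (xa T0.l11 T0.l11) T0.l11)) (xa T0.l11 (xb T0.l11 (xa T0.l11 T0.l11))))
  (TrL.c (I.pos (nat_lit 0) (nat_lit 0)) (xa (xb T5.l1 T5.l11) (xb T5.l1 (xa T5.l11 T5.l11)))
  (TrL.c (I.mix (nat_lit 41527258) (nat_lit 41530880)) (xR (xR T0.l12 T0.l12) (xR T0.l1 T0.l1))
  (TrL.c (I.mix (nat_lit 41527258) (nat_lit 4274)) (xR T5.l12 T5.l2)
  TrL.n)))))))) (by decide +kernel)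
theorem bx3_17 : BoxOK sI cl6 cl7 cl4 t5 t0 b3_17 :=
  box_mk (TrL.c (I.pos (nat_lit 0) (nat_lit 0)) T5.l0
  (TrL.c (I.pos (nat_lit 0) (nat_lit 0)) T0.l2
  (TrL.c (I.pos (nat_lit 0) (nat_lit 89480386)) (xR (xR T5.l4 T5.l10) (xR T5.l10 T5.l10))
  (TrL.c (I.pos (nat_lit 0) (nat_lit 41530880)) (xR T0.l3 T0.l10)
  (TrL.c (I.pos (nat_lit 0) (nat_lit 0)) (xb (xa T0.l11 T0.l11) T0.l11)
  (TrL.c (I.pos (nat_lit 0) (nat_lit 0)) T5.l1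
  (TrL.c (I.mix (nat_lit 41527258) (nat_lit 41530880)) (xR (xR T0.l12 T0.l12) T0.l1)
  (TrL.c (I.mix (nat_lit 41527258) (nat_lit 4274)) (xR T5.l12 T5.l2)
  TrL.n)))))))) (by decide +kernel)
theorem bx3_18 : BoxOK sI cl6 cl7 cl4 t5 t0 b3_18 :=
  box_mk (TrL.c (I.pos (nat_lit 0) (nat_lit 0)) (xa (xb T5.l0 (xa T5.l0 T5.l0)) (xb (xa T5.l0 T5.l0) (xa T5.l0 T5.l0)))
  (TrL.c (I.pos (nat_lit 0) (nat_lit 0)) (xa (xb T0.l9 (xa T0.l9 T0.l9)) (xb T0.l2 (xa T0.l2 T0.l2)))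
  (TrL.c (I.pos (nat_lit 0) (nat_lit 89480386)) (xR (xR T5.l4 T5.l10) (xR T5.l10 T5.l10))
  (TrL.c (I.pos (nat_lit 0) (nat_lit 41530880)) (xR T0.l10 T0.l10)
  (TrL.c (I.pos (nat_lit 0) (nat_lit 0)) (xa (xb T0.l11 T0.l11) (xb (xa T0.l11 (xb T0.l11 T0.l11)) (xa T0.l11 (xb T0.l11 T0.l11))))
  (TrL.c (I.pos (nat_lit 0) (nat_lit 0)) (xa (xb T5.l1 T5.l11) (xb T5.l1 (xa T5.l11 T5.l11)))
  (TrL.c (I.mix (nat_lit 41527258) (nat_lit 41530880)) (xR (xR T0.l12 T0.l12) T0.l1)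
  (TrL.c (I.mix (nat_lit 41527258) (nat_lit 4274)) (xR T5.l12 T5.l2)
  TrL.n)))))))) (by decide +kernel)
theorem bx3_19 : BoxOK sI cl6 cl7 cl4 t5 t0 b3_19 :=
  box_mk (TrL.c (I.pos (nat_lit 0) (nat_lit 0)) (xa T5.l0 T5.l0)
  (TrL.c (I.pos (nat_lit 0) (nat_lit 0)) (xa T0.l9 T0.l9)
  (TrL.c (I.pos (nat_lit 0) (nat_lit 89480386)) (xR (xR T5.l4 T5.l10) (xR T5.l10 T5.l10))
  (TrL.c (I.pos (nat_lit 0) (nat_lit 41530880)) (xR T0.l10 T0.l10)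
  (TrL.c (I.pos (nat_lit 0) (nat_lit 0)) T0.l11
  (TrL.c (I.pos (nat_lit 0) (nat_lit 0)) T5.l11
  (TrL.c (I.mix (nat_lit 41527258) (nat_lit 41530880)) (xR (xR T0.l12 T0.l12) T0.l1)
  (TrL.c (I.mix (nat_lit 41527258) (nat_lit 4274)) (xR T5.l12 T5.l12)
  TrL.n)))))))) (by decide +kernel)
theorem bx3_20 : BoxOK sI cl6 cl7 cl4 t5 t0 b3_20 :=
  box_mk (TrL.c (I.pos (nat_lit 0) (nat_lit 0)) (xa T5.l0 T5.l0)
  (TrL.c (I.pos (nat_lit 0) (nat_lit 0)) T0.l9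
  (TrL.c (I.pos (nat_lit 0) (nat_lit 89480386)) (xR (xR T5.l10 T5.l10) (xR T5.l10 T5.l10))
  (TrL.c (I.pos (nat_lit 0) (nat_lit 41530880)) (xR T0.l10 T0.l10)
  (TrL.c (I.pos (nat_lit 0) (nat_lit 0)) T0.l11
  (TrL.c (I.pos (nat_lit 0) (nat_lit 0)) T5.l11
  (TrL.c (I.mix (nat_lit 41527258) (nat_lit 41530880)) (xR T0.l12 T0.l1)
  (TrL.c (I.mix (nat_lit 41527258) (nat_lit 4274)) T5.l12
  TrL.n)))))))) (by decide +kernel)
theorem bx3_21 : BoxOK sI cl6 cl7 cl4 t5 t0 b3_21 :=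
  box_mk (TrL.c (I.pos (nat_lit 0) (nat_lit 0)) (xa T5.l0 T5.l0)
  (TrL.c (I.pos (nat_lit 0) (nat_lit 0)) (xa T0.l2 T0.l2)
  (TrL.c (I.pos (nat_lit 0) (nat_lit 89480386)) (xR (xR T5.l4 T5.l10) (xR T5.l10 T5.l10))
  (TrL.c (I.pos (nat_lit 0) (nat_lit 41530880)) (xR T0.l10 T0.l10)
  (TrL.c (I.pos (nat_lit 0) (nat_lit 0)) (xa T0.l11 T0.l11)
  (TrL.c (I.pos (nat_lit 0) (nat_lit 0)) T5.l1
  (TrL.c (I.mix (nat_lit 41527258) (nat_lit 41530880)) (xR (xR T0.l12 T0.l12) T0.l1)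
  (TrL.c (I.mix (nat_lit 41527258) (nat_lit 4274)) (xR T5.l12 T5.l2)
  TrL.n)))))))) (by decide +kernel)
theorem sv3 : StarV sI cl6 cl7 cl4 t5 t0 t3 :=
  (bt_n (bt_n (bt_n (bt_n (bt_b bx3_0) (bt_b bx3_1)) (bt_n (bt_b bx3_2) (bt_n (bt_b bx3_3) (bt_b bx3_4)))) (bt_n (bt_n (bt_b bx3_5) (bt_n (bt_b bx3_6) (bt_b bx3_7))) (bt_n (bt_b bx3_8) (bt_n (bt_b bx3_9) (bt_b bx3_10))))) (bt_n (bt_n (bt_n (bt_b bx3_11) (bt_b bx3_12)) (bt_n (bt_b bx3_13) (bt_n (bt_b bx3_14) (bt_b bx3_15)))) (bt_n (bt_n (bt_b bx3_16) (bt_n (bt_b bx3_17) (bt_b bx3_18))) (bt_n (bt_b bx3_19) (bt_n (bt_b bx3_20) (bt_b bx3_21))))))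
def S3 : StarD := StarD.mk cl6 cl7 cl4 5 0 t3
theorem c4_0_0 : chkTag sI cl7 cl4 cl6 t1 b4_0 (tg true true false RT.r2) (I.pos (nat_lit 0) (nat_lit 0))
  (xa (xb (xb (xa T1.l5 T1.l0) (xa (xb T1.l5 T1.l5) (xb T1.l0 T1.l0))) (xb (xa (xb (xa T1.l5 T1.l0) (xa T1.l5 T1.l0)) (xb T1.l0 (xa T1.l0 T1.l0))) (xa (xb (xs (xa T1.l0 T1.l0) (xa T1.l0 T1.l0)) (xs (xa T1.l0 T1.l0) (xa (xk T1.l0 T1.l0) (xk T1.l0 T1.l0)))) (xs (xa (xb T1.l0 T1.l0) (xb T1.l0 T1.l0)) (xb (xa T1.l0 T1.l0) (xa (xk T1.l0 T1.l0) T1.l0)))))) (xb (xa (xb T1.l0 T1.l0) (xb T1.l0 T1.l0)) (xb (xa (xb T1.l0 T1.l0) (xb T1.l0 T1.l0)) (xa (xs (xa (xb T1.l0 T1.l0) T1.l0) (xb T1.l0 (xa T1.l0 T1.l0))) (xs (xa T1.l0 T1.l0) (xa (xb T1.l0 T1.l0) (xb T1.l0 T1.l0))))))) = true := by decide +kernel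
theorem c4_0_1 : chkTag sI cl7 cl4 cl6 t3 b4_0 (tg true false false RT.r3) (I.pos (nat_lit 0) (nat_lit 0))
  (xb (xa (xk T3.l1 T3.l1) (xk T3.l1 T3.l1)) (xa (xk (xb T3.l1 (xa T3.l1 T3.l1)) (xb T3.l1 T3.l1)) (xk (xb T3.l1 (xa T3.l1 T3.l1)) (xb T3.l1 (xa T3.l1 T3.l1))))) = true := by decide +kernel
theorem c4_0_2 : chkTag sI cl7 cl4 cl6 t1 b4_0 (Tag.mk true true false RT.tl RT.r4) (I.pos (nat_lit 0) (nat_lit 111196574))
  (xR (xR T1.l1 T1.l1) (xR T1.l1 (xR T1.l1 (xb T1.l1 T1.l1)))) = true := by decide +kernel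
theorem c4_0_3 : chkTag sI cl7 cl4 cl6 t3 b4_0 (Tag.mk true false false RT.tl RT.r5) (I.pos (nat_lit 0) (nat_lit 77433728))
  (xR T3.l2 (xR T3.l2 T3.l2)) = true := by decide +kernel
theorem c4_0_4 : chkTag sI cl7 cl4 cl6 t3 b4_0 (tg false false false RT.r3) (I.pos (nat_lit 0) (nat_lit 0))
  (xb (xa (xk T3.l6 T3.l6) (xk (xb (xa T3.l3 T3.l3) T3.l3) (xb (xa T3.l3 T3.l3) T3.l3))) (xa (xk (xb T3.l3 T3.l3) (xb T3.l3 T3.l6)) (xk (xb (xa T3.l3 T3.l3) (xa T3.l3 T3.l3)) (xb T3.l3 (xa T3.l3 T3.l3))))) = true := by decide +kernel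
theorem c4_0_5 : chkTag sI cl7 cl4 cl6 t1 b4_0 (tg false true false RT.r4) (I.pos (nat_lit 0) (nat_lit 0))
  (xb (xk T1.l2 T1.l2) (xk T1.l2 T1.l2)) = true := by decide +kernel
theorem c4_0_6 : chkTag sI cl7 cl4 cl6 t3 b4_0 (Tag.mk false false false RT.tl RT.r5) (I.mix (nat_lit 29511666) (nat_lit 77433728))
  (xR (xR T3.l4 T3.l4) (xR T3.l4 (xR T3.l4 (xk T3.l4 T3.l4)))) = true := by decide +kernel
theorem c4_0_7 : chkTag sI cl7 cl4 cl6 t1 b4_0 (Tag.mk false true false RT.tl RT.r6) (I.mix (nat_lit 29511666) (nat_lit 46070178))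
  (xR T1.l3 T1.l3) = true := by decide +kernel
theorem bx4_0 : BoxOK sI cl7 cl4 cl6 t1 t3 b4_0 :=
  box_mk' [(tg true true false RT.r2), (tg true false false RT.r3), (Tag.mk true true false RT.tl RT.r4), (Tag.mk true false false RT.tl RT.r5), (tg false false false RT.r3), (tg false true false RT.r4), (Tag.mk false false false RT.tl RT.r5), (Tag.mk false true false RT.tl RT.r6)] rfl (allL_c (ex_mk c4_0_0) (allL_c (ex_mk c4_0_1) (allL_c (ex_mk c4_0_2) (allL_c (ex_mk c4_0_3) (allL_c (ex_mk c4_0_4) (allL_c (ex_mk c4_0_5) (allL_c (ex_mk c4_0_6) (allL_c (ex_mk c4_0_7) allL_n))))))))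
theorem bx4_1 : BoxOK sI cl7 cl4 cl6 t1 t3 b4_1 :=
  box_mk (TrL.c (I.pos (nat_lit 0) (nat_lit 0)) (xa (xb (xa (xb T1.l4 T1.l4) T1.l4) (xa (xb T1.l4 T1.l4) (xb T1.l4 T1.l4))) (xb (xa T1.l4 T1.l4) (xa T1.l4 T1.l4)))
  (TrL.c (I.pos (nat_lit 0) (nat_lit 0)) (xa (xb T3.l1 T3.l1) (xb T3.l1 T3.l1))
  (TrL.c (I.pos (nat_lit 0) (nat_lit 111196574)) (xR (xR T1.l1 T1.l1) (xR T1.l1 T1.l1))
  (TrL.c (I.pos (nat_lit 0) (nat_lit 77433728)) (xR T3.l4 (xR T3.l2 T3.l7))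
  (TrL.c (I.pos (nat_lit 0) (nat_lit 0)) (xa (xb (xk (xa T3.l5 T3.l5) (xa T3.l5 T3.l5)) (xk T3.l5 T3.l5)) (xb (xk (xa T3.l5 T3.l5) (xa T3.l5 T3.l5)) (xk (xa T3.l5 T3.l5) (xa T3.l5 T3.l5))))
  (TrL.c (I.pos (nat_lit 0) (nat_lit 0)) (xa T1.l2 T1.l2)
  (TrL.c (I.mix (nat_lit 29511666) (nat_lit 77433728)) (xR T3.l4 (xR T3.l4 T3.l4))
  (TrL.c (I.mix (nat_lit 29511666) (nat_lit 46070178)) T1.l12
  TrL.n)))))))) (by decide +kernel)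
theorem c4_2_0 : chkTag sI cl7 cl4 cl6 t1 b4_2 (tg true true false RT.r2) (I.pos (nat_lit 0) (nat_lit 0))
  (xb (xa (xb (xa (xb T1.l5 T1.l5) (xb T1.l5 T1.l5)) (xa (xb T1.l5 T1.l5) T1.l5)) (xb (xa (xb T1.l5 T1.l5) (xb T1.l5 T1.l5)) (xa (xb T1.l5 T1.l5) (xb T1.l5 T1.l5)))) (xa (xb (xa (xb T1.l5 (xa T1.l5 T1.l5)) (xb T1.l5 T1.l5)) (xa (xb (xa (xc T1.l5 T1.l5) (xc T1.l5 T1.l5)) (xa (xs (xc T1.l5 T1.l5) (xc T1.l5 T1.l5)) (xs T1.l5 (xc T1.l5 T1.l5)))) (xb (xa T1.l5 T1.l5) (xa (xs T1.l5 T1.l5) (xs T1.l5 T1.l5))))) (xb (xa (xb T1.l5 (xa T1.l5 T1.l5)) (xb (xa T1.l5 T1.l5) (xa T1.l5 T1.l5))) (xa (xb (xa (xs T1.l5 T1.l5) (xs T1.l5 T1.l5)) (xa (xs T1.l5 (xc T1.l5 T1.l5)) (xs T1.l5 (xc T1.l5 T1.l5)))) (xb (xa (xs T1.l5 T1.l5) (xs T1.l5 T1.l5)) (xa (xs T1.l5 (xk T1.l5 T1.l5)) (xs T1.l5 (xk T1.l5 T1.l5)))))))) = true := by decide +kernel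
theorem c4_2_1 : chkTag sI cl7 cl4 cl6 t3 b4_2 (tg true false false RT.r3) (I.pos (nat_lit 0) (nat_lit 0))
  (xb (xa (xk (xb T3.l1 T3.l1) (xb T3.l1 T3.l1)) (xk (xb T3.l1 T3.l1) (xb T3.l1 T3.l1))) (xa (xk (xb T3.l1 (xa T3.l1 T3.l1)) (xb T3.l1 (xa T3.l1 T3.l1))) (xk (xb T3.l1 (xa T3.l1 T3.l1)) (xb T3.l1 (xa T3.l1 T3.l1))))) = true := by decide +kernel
theorem c4_2_2 : chkTag sI cl7 cl4 cl6 t1 b4_2 (Tag.mk true true false RT.tl RT.r4) (I.pos (nat_lit 0) (nat_lit 111196574))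
  (xR (xR T1.l1 T1.l1) (xR T1.l1 (xb T1.l1 T1.l1))) = true := by decide +kernel
theorem c4_2_3 : chkTag sI cl7 cl4 cl6 t3 b4_2 (Tag.mk true false false RT.tl RT.r5) (I.pos (nat_lit 0) (nat_lit 77433728))
  (xR T3.l2 (xR T3.l2 T3.l2)) = true := by decide +kernel
theorem c4_2_4 : chkTag sI cl7 cl4 cl6 t3 b4_2 (tg false false false RT.r3) (I.pos (nat_lit 0) (nat_lit 0))
  (xb (xa (xk (xb T3.l6 T3.l6) (xb T3.l6 T3.l6)) (xk (xb (xa T3.l6 T3.l6) (xa T3.l6 T3.l6)) (xb (xa T3.l6 T3.l6) (xa T3.l6 T3.l6)))) (xa (xk (xb T3.l6 T3.l6) T3.l6) (xk (xb (xa T3.l6 T3.l6) (xa T3.l6 T3.l3)) (xb (xa T3.l6 T3.l6) (xa T3.l6 T3.l3))))) = true := by decide +kernel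
theorem c4_2_5 : chkTag sI cl7 cl4 cl6 t1 b4_2 (tg false true false RT.r4) (I.pos (nat_lit 0) (nat_lit 0))
  (xb T1.l2 (xk T1.l2 T1.l2)) = true := by decide +kernel
theorem c4_2_6 : chkTag sI cl7 cl4 cl6 t3 b4_2 (Tag.mk false false false RT.tl RT.r5) (I.mix (nat_lit 29511666) (nat_lit 77433728))
  (xR (xR T3.l4 T3.l4) (xR T3.l4 (xb T3.l4 T3.l4))) = true := by decide +kernel
theorem c4_2_7 : chkTag sI cl7 cl4 cl6 t1 b4_2 (Tag.mk false true false RT.tl RT.r6) (I.mix (nat_lit 29511666) (nat_lit 46070178))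
  (xR T1.l3 T1.l3) = true := by decide +kernel
theorem bx4_2 : BoxOK sI cl7 cl4 cl6 t1 t3 b4_2 :=
  box_mk' [(tg true true false RT.r2), (tg true false false RT.r3), (Tag.mk true true false RT.tl RT.r4), (Tag.mk true false false RT.tl RT.r5), (tg false false false RT.r3), (tg false true false RT.r4), (Tag.mk false false false RT.tl RT.r5), (Tag.mk false true false RT.tl RT.r6)] rfl (allL_c (ex_mk c4_2_0) (allL_c (ex_mk c4_2_1) (allL_c (ex_mk c4_2_2) (allL_c (ex_mk c4_2_3) (allL_c (ex_mk c4_2_4) (allL_c (ex_mk c4_2_5) (allL_c (ex_mk c4_2_6) (allL_c (ex_mk c4_2_7) allL_n))))))))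
theorem bx4_3 : BoxOK sI cl7 cl4 cl6 t1 t3 b4_3 :=
  box_mk (TrL.c (I.pos (nat_lit 0) (nat_lit 0)) (xa (xb T3.l1 T3.l1) (xb T3.l1 (xk T3.l1 T3.l1)))
  (TrL.c (I.pos (nat_lit 0) (nat_lit 0)) T1.l1
  (TrL.c (I.mix (nat_lit 29511666) (nat_lit 77433728)) (xR (xR T3.l7 T3.l4) (xR T3.l7 T3.l7))
  (TrL.c (I.mix (nat_lit 29511666) (nat_lit 46070178)) (xR T1.l6 T1.l12)
  TrL.n)))) (by decide +kernel)
theorem bx4_4 : BoxOK sI cl7 cl4 cl6 t1 t3 b4_4 :=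
  box_mk (TrL.c (I.pos (nat_lit 0) (nat_lit 0)) (xb (xk T3.l1 T3.l1) (xk T3.l8 T3.l8))
  (TrL.c (I.pos (nat_lit 0) (nat_lit 0)) T1.l7
  (TrL.c (I.mix (nat_lit 29511666) (nat_lit 77433728)) (xR T3.l7 (xR T3.l7 T3.l7))
  (TrL.c (I.mix (nat_lit 29511666) (nat_lit 46070178)) (xR T1.l6 T1.l12)
  TrL.n)))) (by decide +kernel)
theorem bx4_5 : BoxOK sI cl7 cl4 cl6 t1 t3 b4_5 :=
  box_mk (TrL.c (I.pos (nat_lit 0) (nat_lit 0)) (xb T1.l8 T1.l4)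
  (TrL.c (I.pos (nat_lit 0) (nat_lit 0)) T3.l1
  (TrL.c (I.pos (nat_lit 0) (nat_lit 111196574)) (xR T1.l3 (xR T1.l1 T1.l1))
  (TrL.c (I.pos (nat_lit 0) (nat_lit 77433728)) (xR T3.l4 T3.l4)
  (TrL.c (I.pos (nat_lit 0) (nat_lit 0)) (xk T3.l9 T3.l9)
  (TrL.c (I.pos (nat_lit 0) (nat_lit 0)) T1.l2
  (TrL.c (I.mix (nat_lit 29511666) (nat_lit 77433728)) T3.l4
  (TrL.c (I.mix (nat_lit 29511666) (nat_lit 46070178)) T1.l12
  TrL.n)))))))) (by decide +kernel)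
theorem bx4_6 : BoxOK sI cl7 cl4 cl6 t1 t3 b4_6 :=
  box_mk (TrL.c (I.pos (nat_lit 0) (nat_lit 0)) (xa (xb (xa T1.l0 T1.l0) (xa (xb T1.l0 (xc T1.l0 T1.l0)) (xb T1.l0 (xc T1.l0 T1.l0)))) (xb (xa T1.l0 (xb T1.l0 T1.l0)) (xa (xb T1.l0 (xc T1.l0 T1.l0)) (xb T1.l0 (xc T1.l0 T1.l0)))))
  (TrL.c (I.pos (nat_lit 0) (nat_lit 0)) (xa (xb (xk T3.l1 T3.l1) (xk (xa T3.l1 T3.l1) T3.l1)) (xk (xb T3.l11 (xa T3.l1 (xb T3.l1 T3.l1))) (xb T3.l11 (xa T3.l1 T3.l1))))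
  (TrL.c (I.pos (nat_lit 0) (nat_lit 111196574)) (xR (xR T1.l1 T1.l1) (xR T1.l1 (xR T1.l1 T1.l12)))
  (TrL.c (I.pos (nat_lit 0) (nat_lit 77433728)) (xR (xR T3.l2 T3.l2) (xR T3.l2 T3.l2))
  (TrL.c (I.pos (nat_lit 0) (nat_lit 0)) (xb (xa (xk (xb T3.l0 T3.l3) (xb (xa T3.l0 T3.l0) T3.l3)) (xk (xb (xa T3.l0 (xk T3.l3 T3.l3)) (xa T3.l3 (xk T3.l3 T3.l3))) (xb (xa T3.l0 (xk T3.l3 T3.l3)) (xa T3.l3 T3.l3)))) (xa (xk (xa T3.l3 T3.l3) (xa T3.l3 T3.l3)) (xk (xa (xb T3.l3 (xk T3.l3 T3.l3)) (xb (xk T3.l3 T3.l3) (xk (xs T3.l3 T3.l3) (xs T3.l3 T3.l3)))) (xb (xa T3.l3 (xk T3.l3 T3.l3)) (xa (xk T3.l3 T3.l3) (xk (xs T3.l3 T3.l3) (xs T3.l3 T3.l3)))))))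
  (TrL.c (I.pos (nat_lit 0) (nat_lit 0)) (xk (xb (xa T1.l2 (xb T1.l2 T1.l2)) (xa T1.l2 (xk T1.l2 T1.l2))) (xb (xa T1.l2 T1.l2) (xa T1.l2 T1.l2)))
  (TrL.c (I.mix (nat_lit 29511666) (nat_lit 77433728)) (xR (xR T3.l4 T3.l4) (xR T3.l4 (xR T3.l4 (xk (xb T3.l4 T3.l4) T3.l4))))
  (TrL.c (I.mix (nat_lit 29511666) (nat_lit 46070178)) (xR T1.l3 (xR T1.l3 T1.l3))
  TrL.n)))))))) (by decide +kernel)
theorem bx4_7 : BoxOK sI cl7 cl4 cl6 t1 t3 b4_7 :=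
  box_mk (TrL.c (I.pos (nat_lit 0) (nat_lit 0)) (xb T1.l8 T1.l8)
  (TrL.c (I.pos (nat_lit 0) (nat_lit 0)) T3.l1
  (TrL.c (I.pos (nat_lit 0) (nat_lit 111196574)) (xR T1.l1 T1.l1)
  (TrL.c (I.pos (nat_lit 0) (nat_lit 77433728)) T3.l4
  (TrL.c (I.pos (nat_lit 0) (nat_lit 0)) T3.l9
  (TrL.c (I.pos (nat_lit 0) (nat_lit 0)) T1.l2
  (TrL.c (I.mix (nat_lit 29511666) (nat_lit 77433728)) (xR T3.l4 T3.l4)
  (TrL.c (I.mix (nat_lit 29511666) (nat_lit 46070178)) T1.l12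
  TrL.n)))))))) (by decide +kernel)
theorem bx4_8 : BoxOK sI cl7 cl4 cl6 t1 t3 b4_8 :=
  box_mk (TrL.c (I.pos (nat_lit 0) (nat_lit 0)) T1.l0
  (TrL.c (I.pos (nat_lit 0) (nat_lit 0)) (xk T3.l1 T3.l1)
  (TrL.c (I.pos (nat_lit 0) (nat_lit 111196574)) (xR T1.l12 T1.l1)
  (TrL.c (I.pos (nat_lit 0) (nat_lit 77433728)) (xR T3.l2 T3.l2)
  (TrL.c (I.pos (nat_lit 0) (nat_lit 0)) (xk T3.l3 T3.l3)
  (TrL.c (I.pos (nat_lit 0) (nat_lit 0)) T1.l2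
  (TrL.c (I.mix (nat_lit 29511666) (nat_lit 77433728)) (xR T3.l4 T3.l4)
  (TrL.c (I.mix (nat_lit 29511666) (nat_lit 46070178)) (xR T1.l3 T1.l3)
  TrL.n)))))))) (by decide +kernel)
theorem bx4_9 : BoxOK sI cl7 cl4 cl6 t1 t3 b4_9 :=
  box_mk (TrL.c (I.pos (nat_lit 0) (nat_lit 0)) T1.l8
  (TrL.c (I.pos (nat_lit 0) (nat_lit 0)) T3.l1
  (TrL.c (I.pos (nat_lit 0) (nat_lit 111196574)) (xR T1.l1 T1.l1)
  (TrL.c (I.pos (nat_lit 0) (nat_lit 77433728)) T3.l2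
  (TrL.c (I.pos (nat_lit 0) (nat_lit 0)) T3.l9
  (TrL.c (I.pos (nat_lit 0) (nat_lit 0)) T1.l2
  (TrL.c (I.mix (nat_lit 29511666) (nat_lit 77433728)) T3.l4
  (TrL.c (I.mix (nat_lit 29511666) (nat_lit 46070178)) T1.l3
  TrL.n)))))))) (by decide +kernel)
theorem bx4_10 : BoxOK sI cl7 cl4 cl6 t1 t3 b4_10 :=
  box_mk (TrL.c (I.pos (nat_lit 0) (nat_lit 0)) T1.l0
  (TrL.c (I.pos (nat_lit 0) (nat_lit 0)) (xk T3.l1 T3.l1)
  (TrL.c (I.pos (nat_lit 0) (nat_lit 111196574)) (xR (xR T1.l1 T1.l1) T1.l1)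
  (TrL.c (I.pos (nat_lit 0) (nat_lit 77433728)) (xR T3.l2 T3.l2)
  (TrL.c (I.pos (nat_lit 0) (nat_lit 0)) (xk (xb (xa T3.l0 T3.l0) (xa T3.l3 T3.l3)) (xb (xa T3.l0 T3.l0) (xa T3.l3 T3.l3)))
  (TrL.c (I.pos (nat_lit 0) (nat_lit 0)) (xk T1.l2 T1.l2)
  (TrL.c (I.mix (nat_lit 29511666) (nat_lit 77433728)) (xR T3.l10 (xR T3.l4 T3.l4))
  (TrL.c (I.mix (nat_lit 29511666) (nat_lit 46070178)) (xR T1.l3 T1.l3)
  TrL.n)))))))) (by decide +kernel)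
theorem bx4_11 : BoxOK sI cl7 cl4 cl6 t1 t3 b4_11 :=
  box_mk (TrL.c (I.pos (nat_lit 0) (nat_lit 0)) T1.l8
  (TrL.c (I.pos (nat_lit 0) (nat_lit 0)) T3.l1
  (TrL.c (I.pos (nat_lit 0) (nat_lit 111196574)) (xR T1.l1 (xR T1.l1 T1.l1))
  (TrL.c (I.pos (nat_lit 0) (nat_lit 77433728)) T3.l4
  (TrL.c (I.pos (nat_lit 0) (nat_lit 0)) T3.l9
  (TrL.c (I.pos (nat_lit 0) (nat_lit 0)) T1.l2
  (TrL.c (I.mix (nat_lit 29511666) (nat_lit 77433728)) (xR T3.l7 T3.l4)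
  (TrL.c (I.mix (nat_lit 29511666) (nat_lit 46070178)) T1.l12
  TrL.n)))))))) (by decide +kernel)
theorem bx4_12 : BoxOK sI cl7 cl4 cl6 t1 t3 b4_12 :=
  box_mk (TrL.c (I.pos (nat_lit 0) (nat_lit 0)) T1.l0
  (TrL.c (I.pos (nat_lit 0) (nat_lit 0)) T3.l11
  (TrL.c (I.pos (nat_lit 0) (nat_lit 111196574)) (xR (xR T1.l1 T1.l1) T1.l1)
  (TrL.c (I.pos (nat_lit 0) (nat_lit 77433728)) (xR T3.l2 T3.l2)
  (TrL.c (I.pos (nat_lit 0) (nat_lit 0)) (xk T3.l0 T3.l0)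
  (TrL.c (I.pos (nat_lit 0) (nat_lit 0)) (xk T1.l2 T1.l2)
  (TrL.c (I.mix (nat_lit 29511666) (nat_lit 77433728)) (xR T3.l10 (xR T3.l4 T3.l4))
  (TrL.c (I.mix (nat_lit 29511666) (nat_lit 46070178)) (xR T1.l3 T1.l10)
  TrL.n)))))))) (by decide +kernel)
theorem bx4_13 : BoxOK sI cl7 cl4 cl6 t1 t3 b4_13 :=
  box_mk (TrL.c (I.pos (nat_lit 0) (nat_lit 0)) T1.l8
  (TrL.c (I.pos (nat_lit 0) (nat_lit 0)) T3.l1
  (TrL.c (I.pos (nat_lit 0) (nat_lit 111196574)) (xR T1.l1 T1.l1)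
  (TrL.c (I.pos (nat_lit 0) (nat_lit 77433728)) T3.l4
  (TrL.c (I.pos (nat_lit 0) (nat_lit 0)) T3.l9
  (TrL.c (I.pos (nat_lit 0) (nat_lit 0)) T1.l2
  (TrL.c (I.mix (nat_lit 29511666) (nat_lit 77433728)) T3.l7
  (TrL.c (I.mix (nat_lit 29511666) (nat_lit 46070178)) T1.l6
  TrL.n)))))))) (by decide +kernel)
theorem bx4_14 : BoxOK sI cl7 cl4 cl6 t1 t3 b4_14 :=
  box_mk (TrL.c (I.pos (nat_lit 0) (nat_lit 0)) T1.l0
  (TrL.c (I.pos (nat_lit 0) (nat_lit 0)) T3.l1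
  (TrL.c (I.pos (nat_lit 0) (nat_lit 111196574)) (xR T1.l12 T1.l1)
  (TrL.c (I.pos (nat_lit 0) (nat_lit 77433728)) (xR T3.l2 T3.l2)
  (TrL.c (I.pos (nat_lit 0) (nat_lit 0)) T3.l3
  (TrL.c (I.pos (nat_lit 0) (nat_lit 0)) T1.l2
  (TrL.c (I.mix (nat_lit 29511666) (nat_lit 77433728)) (xR T3.l4 T3.l4)
  (TrL.c (I.mix (nat_lit 29511666) (nat_lit 46070178)) (xR T1.l3 T1.l3)
  TrL.n)))))))) (by decide +kernel)
theorem bx4_15 : BoxOK sI cl7 cl4 cl6 t1 t3 b4_15 :=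
  box_mk (TrL.c (I.pos (nat_lit 0) (nat_lit 0)) T1.l8
  (TrL.c (I.pos (nat_lit 0) (nat_lit 0)) T3.l1
  (TrL.c (I.pos (nat_lit 0) (nat_lit 111196574)) (xR T1.l1 T1.l1)
  (TrL.c (I.pos (nat_lit 0) (nat_lit 77433728)) T3.l2
  (TrL.c (I.pos (nat_lit 0) (nat_lit 0)) T3.l9
  (TrL.c (I.pos (nat_lit 0) (nat_lit 0)) T1.l2
  (TrL.c (I.mix (nat_lit 29511666) (nat_lit 77433728)) T3.l4
  (TrL.c (I.mix (nat_lit 29511666) (nat_lit 46070178)) T1.l3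
  TrL.n)))))))) (by decide +kernel)
theorem bx4_16 : BoxOK sI cl7 cl4 cl6 t1 t3 b4_16 :=
  box_mk (TrL.c (I.pos (nat_lit 0) (nat_lit 0)) (xa (xb T1.l0 T1.l0) (xb T1.l0 T1.l0))
  (TrL.c (I.pos (nat_lit 0) (nat_lit 0)) (xk (xb (xa T3.l1 T3.l1) (xa T3.l1 T3.l1)) (xb T3.l1 T3.l1))
  (TrL.c (I.pos (nat_lit 0) (nat_lit 111196574)) (xR (xR T1.l1 T1.l1) T1.l1)
  (TrL.c (I.pos (nat_lit 0) (nat_lit 77433728)) (xR T3.l2 T3.l2)
  (TrL.c (I.pos (nat_lit 0) (nat_lit 0)) (xb (xk (xa T3.l0 (xk (xa T3.l3 T3.l3) T3.l0)) (xa T3.l0 (xa T3.l0 (xk T3.l3 T3.l3)))) (xk (xa T3.l3 (xk T3.l3 T3.l3)) (xa T3.l3 (xa T3.l3 T3.l3))))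
  (TrL.c (I.pos (nat_lit 0) (nat_lit 0)) (xk (xb T1.l2 T1.l2) (xb (xa T1.l2 T1.l2) T1.l2))
  (TrL.c (I.mix (nat_lit 29511666) (nat_lit 77433728)) (xR T3.l10 (xR T3.l4 (xR T3.l4 (xk T3.l4 T3.l4))))
  (TrL.c (I.mix (nat_lit 29511666) (nat_lit 46070178)) (xR T1.l3 T1.l3)
  TrL.n)))))))) (by decide +kernel)
theorem bx4_17 : BoxOK sI cl7 cl4 cl6 t1 t3 b4_17 :=
  box_mk (TrL.c (I.pos (nat_lit 0) (nat_lit 0)) (xb T1.l8 T1.l8)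
  (TrL.c (I.pos (nat_lit 0) (nat_lit 0)) T3.l1
  (TrL.c (I.pos (nat_lit 0) (nat_lit 111196574)) (xR T1.l1 T1.l1)
  (TrL.c (I.pos (nat_lit 0) (nat_lit 77433728)) T3.l4
  (TrL.c (I.pos (nat_lit 0) (nat_lit 0)) T3.l9
  (TrL.c (I.pos (nat_lit 0) (nat_lit 0)) T1.l2
  (TrL.c (I.mix (nat_lit 29511666) (nat_lit 77433728)) (xR T3.l7 T3.l4)
  (TrL.c (I.mix (nat_lit 29511666) (nat_lit 46070178)) T1.l12
  TrL.n)))))))) (by decide +kernel)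
theorem bx4_18 : BoxOK sI cl7 cl4 cl6 t1 t3 b4_18 :=
  box_mk (TrL.c (I.pos (nat_lit 0) (nat_lit 0)) (xa (xb (xa T1.l0 T1.l0) (xa (xb T1.l0 T1.l0) (xb T1.l0 T1.l0))) (xb (xa T1.l0 T1.l0) (xa (xb T1.l0 T1.l0) (xs T1.l0 T1.l0))))
  (TrL.c (I.pos (nat_lit 0) (nat_lit 0)) (xk (xa (xb T3.l1 T3.l1) (xb T3.l1 T3.l1)) (xa T3.l1 (xb T3.l1 T3.l1)))
  (TrL.c (I.pos (nat_lit 0) (nat_lit 111196574)) (xR (xR T1.l1 T1.l1) (xR T1.l1 T1.l1))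
  (TrL.c (I.pos (nat_lit 0) (nat_lit 77433728)) (xR T3.l2 T3.l2)
  (TrL.c (I.pos (nat_lit 0) (nat_lit 0)) (xk (xa T3.l3 T3.l3) (xa T3.l3 T3.l3))
  (TrL.c (I.pos (nat_lit 0) (nat_lit 0)) T1.l2
  (TrL.c (I.mix (nat_lit 29511666) (nat_lit 77433728)) (xR T3.l4 T3.l4)
  (TrL.c (I.mix (nat_lit 29511666) (nat_lit 46070178)) (xR T1.l3 T1.l3)
  TrL.n)))))))) (by decide +kernel)
theorem bx4_19 : BoxOK sI cl7 cl4 cl6 t1 t3 b4_19 :=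
  box_mk (TrL.c (I.pos (nat_lit 0) (nat_lit 0)) (xb T1.l8 T1.l4)
  (TrL.c (I.pos (nat_lit 0) (nat_lit 0)) T3.l1
  (TrL.c (I.pos (nat_lit 0) (nat_lit 111196574)) (xR T1.l1 T1.l1)
  (TrL.c (I.pos (nat_lit 0) (nat_lit 77433728)) T3.l10
  (TrL.c (I.pos (nat_lit 0) (nat_lit 0)) T3.l9
  (TrL.c (I.pos (nat_lit 0) (nat_lit 0)) T1.l2
  (TrL.c (I.mix (nat_lit 29511666) (nat_lit 77433728)) T3.l4
  (TrL.c (I.mix (nat_lit 29511666) (nat_lit 46070178)) T1.l3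
  TrL.n)))))))) (by decide +kernel)
theorem c4_20_0 : chkTag sI cl7 cl4 cl6 t1 b4_20 (tg true true false RT.r2) (I.pos (nat_lit 0) (nat_lit 0))
  (xa (xb (xa T1.l0 T1.l0) (xa (xb T1.l0 (xc T1.l0 T1.l0)) (xb T1.l0 (xc T1.l0 T1.l0)))) (xb (xa T1.l0 (xb T1.l0 T1.l0)) (xa (xb T1.l0 T1.l11) (xb T1.l0 (xa T1.l0 T1.l0))))) = true := by decide +kernel
theorem c4_20_1 : chkTag sI cl7 cl4 cl6 t3 b4_20 (tg true false false RT.r3) (I.pos (nat_lit 0) (nat_lit 0))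
  (xa (xb (xk T3.l1 T3.l1) (xk T3.l1 T3.l1)) (xk (xb T3.l11 (xa T3.l1 T3.l11)) (xb T3.l11 (xa T3.l1 T3.l11)))) = true := by decide +kernel
theorem c4_20_2 : chkTag sI cl7 cl4 cl6 t1 b4_20 (Tag.mk true true false RT.tl RT.r4) (I.pos (nat_lit 0) (nat_lit 111196574))
  (xR (xR T1.l12 T1.l1) (xR T1.l1 T1.l12)) = true := by decide +kernel
theorem c4_20_3 : chkTag sI cl7 cl4 cl6 t3 b4_20 (Tag.mk true false false RT.tl RT.r5) (I.pos (nat_lit 0) (nat_lit 77433728))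
  (xR (xR T3.l2 T3.l2) (xR T3.l2 T3.l2)) = true := by decide +kernel
theorem c4_20_4 : chkTag sI cl7 cl4 cl6 t3 b4_20 (tg false false false RT.r3) (I.pos (nat_lit 0) (nat_lit 0))
  (xb (xa (xk (xa T3.l0 (xb T3.l0 T3.l3)) (xa (xb T3.l0 T3.l3) (xb T3.l0 T3.l3))) (xk (xa (xb (xk T3.l0 T3.l0) (xk T3.l3 T3.l3)) (xb (xk (xa T3.l0 T3.l0) (xa T3.l0 T3.l0)) (xk (xa T3.l3 T3.l3) T3.l3))) (xa (xb (xk T3.l0 T3.l0) (xk T3.l3 T3.l3)) (xb (xk (xa T3.l0 T3.l0) (xa T3.l0 T3.l0)) (xk T3.l3 T3.l3))))) (xa (xk (xa T3.l3 T3.l3) (xa T3.l3 T3.l3)) (xk (xa (xb T3.l3 (xk T3.l3 T3.l3)) (xb (xk (xa T3.l3 T3.l3) T3.l3) (xk (xa T3.l3 T3.l3) (xa T3.l3 T3.l3)))) (xa (xb T3.l3 T3.l3) (xb (xk T3.l3 T3.l3) (xk (xa T3.l3 T3.l3) (xa T3.l3 T3.l3))))))) = true := by decide +kernel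
theorem c4_20_5 : chkTag sI cl7 cl4 cl6 t1 b4_20 (tg false true false RT.r4) (I.pos (nat_lit 0) (nat_lit 0))
  (xk (xb (xa T1.l2 (xk T1.l2 T1.l2)) (xa T1.l2 (xk T1.l2 T1.l2))) (xb (xa T1.l2 (xk T1.l2 T1.l2)) (xa T1.l2 T1.l2))) = true := by decide +kernel
theorem c4_20_6 : chkTag sI cl7 cl4 cl6 t3 b4_20 (Tag.mk false false false RT.tl RT.r5) (I.mix (nat_lit 29511666) (nat_lit 77433728))
  (xR (xR T3.l4 T3.l4) (xR T3.l4 (xR T3.l4 (xk (xb T3.l4 T3.l4) T3.l4)))) = true := by decide +kernel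
theorem c4_20_7 : chkTag sI cl7 cl4 cl6 t1 b4_20 (Tag.mk false true false RT.tl RT.r6) (I.mix (nat_lit 29511666) (nat_lit 46070178))
  (xR T1.l3 (xR T1.l3 T1.l10)) = true := by decide +kernel
theorem bx4_20 : BoxOK sI cl7 cl4 cl6 t1 t3 b4_20 :=
  box_mk' [(tg true true false RT.r2), (tg true false false RT.r3), (Tag.mk true true false RT.tl RT.r4), (Tag.mk true false false RT.tl RT.r5), (tg false false false RT.r3), (tg false true false RT.r4), (Tag.mk false false false RT.tl RT.r5), (Tag.mk false true false RT.tl RT.r6)] rfl (allL_c (ex_mk c4_20_0) (allL_c (ex_mk c4_20_1) (allL_c (ex_mk c4_20_2) (allL_c (ex_mk c4_20_3) (allL_c (ex_mk c4_20_4) (allL_c (ex_mk c4_20_5) (allL_c (ex_mk c4_20_6) (allL_c (ex_mk c4_20_7) allL_n))))))))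
theorem bx4_21 : BoxOK sI cl7 cl4 cl6 t1 t3 b4_21 :=
  box_mk (TrL.c (I.pos (nat_lit 0) (nat_lit 0)) (xb T1.l8 (xa T1.l8 T1.l8))
  (TrL.c (I.pos (nat_lit 0) (nat_lit 0)) T3.l1
  (TrL.c (I.pos (nat_lit 0) (nat_lit 111196574)) (xR T1.l1 (xR T1.l1 T1.l1))
  (TrL.c (I.pos (nat_lit 0) (nat_lit 77433728)) T3.l4
  (TrL.c (I.pos (nat_lit 0) (nat_lit 0)) T3.l9
  (TrL.c (I.pos (nat_lit 0) (nat_lit 0)) T1.l2
  (TrL.c (I.mix (nat_lit 29511666) (nat_lit 77433728)) (xR T3.l7 T3.l4)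
  (TrL.c (I.mix (nat_lit 29511666) (nat_lit 46070178)) T1.l12
  TrL.n)))))))) (by decide +kernel)
theorem bx4_22 : BoxOK sI cl7 cl4 cl6 t1 t3 b4_22 :=
  box_mk (TrL.c (I.pos (nat_lit 0) (nat_lit 0)) T1.l8
  (TrL.c (I.pos (nat_lit 0) (nat_lit 0)) T3.l1
  (TrL.c (I.pos (nat_lit 0) (nat_lit 111196574)) (xR T1.l1 T1.l1)
  (TrL.c (I.pos (nat_lit 0) (nat_lit 77433728)) T3.l2
  (TrL.c (I.pos (nat_lit 0) (nat_lit 0)) T3.l9
  (TrL.c (I.pos (nat_lit 0) (nat_lit 0)) T1.l2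
  (TrL.c (I.mix (nat_lit 29511666) (nat_lit 77433728)) T3.l4
  (TrL.c (I.mix (nat_lit 29511666) (nat_lit 46070178)) T1.l3
  TrL.n)))))))) (by decide +kernel)
theorem sv4 : StarV sI cl7 cl4 cl6 t1 t3 t4 :=
  (bt_n (bt_n (bt_n (bt_n (bt_b bx4_0) (bt_b bx4_1)) (bt_n (bt_b bx4_2) (bt_n (bt_b bx4_3) (bt_b bx4_4)))) (bt_n (bt_n (bt_b bx4_5) (bt_n (bt_b bx4_6) (bt_b bx4_7))) (bt_n (bt_b bx4_8) (bt_n (bt_b bx4_9) (bt_b bx4_10))))) (bt_n (bt_n (bt_n (bt_b bx4_11) (bt_n (bt_b bx4_12) (bt_b bx4_13))) (bt_n (bt_b bx4_14) (bt_n (bt_b bx4_15) (bt_b bx4_16)))) (bt_n (bt_n (bt_b bx4_17) (bt_n (bt_b bx4_18) (bt_b bx4_19))) (bt_n (bt_b bx4_20) (bt_n (bt_b bx4_21) (bt_b bx4_22))))))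
def S4 : StarD := StarD.mk cl7 cl4 cl6 1 3 t4
theorem c5_0_0 : chkTag sI cl7 cl6 cl4 t3 b5_0 (tg true true false RT.r2) (I.pos (nat_lit 0) (nat_lit 0))
  (xa (xb (xa (xb (xa T3.l0 T3.l0) (xa (xc T3.l0 T3.l0) T3.l0)) (xb (xa T3.l0 T3.l0) (xa T3.l0 T3.l0))) (xa (xb (xa (xc T3.l0 T3.l0) (xc T3.l0 T3.l0)) (xa (xs (xc T3.l0 T3.l0) (xc T3.l0 T3.l0)) (xs T3.l0 (xc T3.l0 T3.l0)))) (xb (xa T3.l0 T3.l0) (xa (xs T3.l0 (xc T3.l0 T3.l0)) (xs T3.l0 T3.l0))))) (xb (xa (xb T3.l0 T3.l0) (xb T3.l0 T3.l0)) (xa (xb (xa T3.l0 T3.l0) (xa (xs T3.l0 T3.l0) (xs T3.l0 T3.l0))) (xb (xa T3.l0 T3.l0) (xa (xs T3.l0 T3.l0) (xs T3.l0 T3.l0)))))) = true := by decide +kernel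
theorem c5_0_1 : chkTag sI cl7 cl6 cl4 t1 b5_0 (tg true false false RT.r3) (I.pos (nat_lit 0) (nat_lit 0))
  (xa (xb (xk (xa T1.l9 T1.l9) (xa T1.l9 T1.l9)) (xk (xa (xb T1.l9 T1.l9) (xb T1.l9 (xk T1.l9 T1.l9))) (xa (xb T1.l9 T1.l9) (xb T1.l9 T1.l9)))) (xk (xb (xa T1.l9 T1.l9) (xa (xk (xb T1.l9 T1.l9) T1.l9) (xk (xb T1.l9 T1.l9) (xb T1.l9 T1.l9)))) (xb (xa T1.l9 T1.l9) (xa (xb T1.l9 T1.l9) (xk (xb T1.l9 T1.l9) T1.l9))))) = true := by decide +kernel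
theorem c5_0_2 : chkTag sI cl7 cl6 cl4 t3 b5_0 (Tag.mk true true false RT.tl RT.r4) (I.pos (nat_lit 0) (nat_lit 111196574))
  (xR (xR T3.l10 T3.l10) (xR T3.l10 (xR T3.l10 T3.l10))) = true := by decide +kernel
theorem c5_0_3 : chkTag sI cl7 cl6 cl4 t1 b5_0 (Tag.mk true false false RT.tl RT.r5) (I.pos (nat_lit 0) (nat_lit 77433728))
  (xR (xR T1.l10 T1.l10) (xR T1.l10 (xR T1.l10 (xa T1.l10 T1.l10)))) = true := by decide +kernel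
theorem c5_0_4 : chkTag sI cl7 cl6 cl4 t1 b5_0 (tg false false false RT.r3) (I.pos (nat_lit 0) (nat_lit 0))
  (xa (xk (xb (xa T1.l11 (xb T1.l11 T1.l11)) (xa T1.l11 T1.l11)) (xb (xa T1.l11 T1.l11) (xa T1.l11 T1.l11))) (xk (xb (xa (xk T1.l11 T1.l11) (xk T1.l11 T1.l11)) (xa T1.l11 (xk (xb T1.l11 T1.l11) (xb T1.l11 T1.l11)))) (xb (xa (xk T1.l11 T1.l11) (xk T1.l11 T1.l11)) (xa T1.l11 (xk T1.l11 T1.l11))))) = true := by decide +kernel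
theorem c5_0_5 : chkTag sI cl7 cl6 cl4 t3 b5_0 (tg false true false RT.r4) (I.pos (nat_lit 0) (nat_lit 0))
  (xk (xa T3.l11 (xb T3.l11 T3.l11)) (xa T3.l11 (xb T3.l11 T3.l11))) = true := by decide +kernel
theorem c5_0_6 : chkTag sI cl7 cl6 cl4 t1 b5_0 (Tag.mk false false false RT.tl RT.r5) (I.mix (nat_lit 29511666) (nat_lit 77433728))
  (xR T1.l12 (xR T1.l12 (xR T1.l12 (xk T1.l12 T1.l12)))) = true := by decide +kernel
theorem c5_0_7 : chkTag sI cl7 cl6 cl4 t3 b5_0 (Tag.mk false true false RT.tl RT.r6) (I.mix (nat_lit 29511666) (nat_lit 46070178))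
  (xR T3.l12 T3.l12) = true := by decide +kernel
theorem bx5_0 : BoxOK sI cl7 cl6 cl4 t3 t1 b5_0 :=
  box_mk' [(tg true true false RT.r2), (tg true false false RT.r3), (Tag.mk true true false RT.tl RT.r4), (Tag.mk true false false RT.tl RT.r5), (tg false false false RT.r3), (tg false true false RT.r4), (Tag.mk false false false RT.tl RT.r5), (Tag.mk false true false RT.tl RT.r6)] rfl (allL_c (ex_mk c5_0_0) (allL_c (ex_mk c5_0_1) (allL_c (ex_mk c5_0_2) (allL_c (ex_mk c5_0_3) (allL_c (ex_mk c5_0_4) (allL_c (ex_mk c5_0_5) (allL_c (ex_mk c5_0_6) (allL_c (ex_mk c5_0_7) allL_n))))))))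
theorem bx5_1 : BoxOK sI cl7 cl6 cl4 t3 t1 b5_1 :=
  box_mk (TrL.c (I.pos (nat_lit 0) (nat_lit 0)) (xa (xb T3.l13 T3.l13) (xb T3.l0 T3.l13))
  (TrL.c (I.pos (nat_lit 0) (nat_lit 0)) (xb (xk T1.l9 T1.l9) T1.l9)
  (TrL.c (I.pos (nat_lit 0) (nat_lit 111196574)) (xR (xR T3.l10 T3.l10) T3.l10)
  (TrL.c (I.pos (nat_lit 0) (nat_lit 77433728)) (xR T1.l10 T1.l10)
  (TrL.c (I.pos (nat_lit 0) (nat_lit 0)) (xk (xa (xb T1.l13 T1.l13) (xb T1.l13 T1.l13)) (xa (xb T1.l13 T1.l13) (xb T1.l13 T1.l13)))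
  (TrL.c (I.pos (nat_lit 0) (nat_lit 0)) T3.l11
  (TrL.c (I.mix (nat_lit 29511666) (nat_lit 77433728)) (xR T1.l12 (xR T1.l12 T1.l12))
  (TrL.c (I.mix (nat_lit 29511666) (nat_lit 46070178)) (xR T3.l12 T3.l12)
  TrL.n)))))))) (by decide +kernel)
theorem bx5_2 : BoxOK sI cl7 cl6 cl4 t3 t1 b5_2 :=
  box_mk (TrL.c (I.pos (nat_lit 0) (nat_lit 0)) (xa (xb T3.l21 T3.l18) T3.l18)
  (TrL.c (I.pos (nat_lit 0) (nat_lit 0)) (xa T1.l9 T1.l9)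
  (TrL.c (I.pos (nat_lit 0) (nat_lit 111196574)) T3.l10
  (TrL.c (I.pos (nat_lit 0) (nat_lit 77433728)) T1.l12
  (TrL.c (I.pos (nat_lit 0) (nat_lit 0)) (xa T1.l9 (xb T1.l9 T1.l9))
  (TrL.c (I.pos (nat_lit 0) (nat_lit 0)) T3.l10
  (TrL.c (I.mix (nat_lit 29511666) (nat_lit 77433728)) (xR T1.l12 T1.l12)
  (TrL.c (I.mix (nat_lit 29511666) (nat_lit 46070178)) T3.l7
  TrL.n)))))))) (by decide +kernel)
theorem bx5_3 : BoxOK sI cl7 cl6 cl4 t3 t1 b5_3 :=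
  box_mk (TrL.c (I.pos (nat_lit 0) (nat_lit 0)) (xb (xa (xb T3.l15 T3.l15) (xb T3.l15 T3.l15)) (xa (xb (xa T3.l15 T3.l15) (xa T3.l15 T3.l15)) (xa (xb T3.l15 T3.l15) (xb T3.l15 T3.l15))))
  (TrL.c (I.pos (nat_lit 0) (nat_lit 0)) (xk (xb (xa T1.l9 T1.l9) (xa (xb T1.l9 T1.l9) (xk T1.l9 T1.l9))) (xb (xa T1.l9 T1.l9) (xa (xb T1.l9 T1.l9) (xb T1.l9 T1.l9))))
  (TrL.c (I.pos (nat_lit 0) (nat_lit 111196574)) (xR (xR T3.l10 T3.l10) (xR T3.l10 T3.l10))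
  (TrL.c (I.pos (nat_lit 0) (nat_lit 77433728)) (xR T1.l10 (xR T1.l10 T1.l10))
  (TrL.c (I.pos (nat_lit 0) (nat_lit 0)) (xb (xk (xa T1.l15 T1.l15) (xa T1.l15 T1.l15)) (xk (xa T1.l11 T1.l11) T1.l11))
  (TrL.c (I.pos (nat_lit 0) (nat_lit 0)) (xk T3.l11 T3.l11)
  (TrL.c (I.mix (nat_lit 29511666) (nat_lit 77433728)) (xR T1.l12 (xR T1.l12 T1.l12))
  (TrL.c (I.mix (nat_lit 29511666) (nat_lit 46070178)) (xR T3.l12 T3.l12)
  TrL.n)))))))) (by decide +kernel)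
theorem bx5_4 : BoxOK sI cl7 cl6 cl4 t3 t1 b5_4 :=
  box_mk (TrL.c (I.pos (nat_lit 0) (nat_lit 0)) (xa (xb (xa (xa T3.l16 T3.l16) T3.l16) (xa (xa T3.l16 T3.l16) T3.l18)) (xa (xb T3.l16 T3.l16) (xb T3.l18 T3.l18)))
  (TrL.c (I.pos (nat_lit 0) (nat_lit 0)) (xa (xb T1.l9 T1.l9) (xa T1.l9 T1.l9))
  (TrL.c (I.pos (nat_lit 0) (nat_lit 111196574)) (xR T3.l10 (xR T3.l10 T3.l10))
  (TrL.c (I.pos (nat_lit 0) (nat_lit 77433728)) (xR T1.l12 (xR T1.l10 T1.l10))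
  (TrL.c (I.pos (nat_lit 0) (nat_lit 0)) (xa (xa T1.l9 T1.l9) (xb (xa T1.l16 T1.l18) (xa T1.l18 T1.l18)))
  (TrL.c (I.pos (nat_lit 0) (nat_lit 0)) T3.l11
  (TrL.c (I.mix (nat_lit 29511666) (nat_lit 77433728)) (xR (xR T1.l12 T1.l12) T1.l12)
  (TrL.c (I.mix (nat_lit 29511666) (nat_lit 46070178)) T3.l7
  TrL.n)))))))) (by decide +kernel)
theorem bx5_5 : BoxOK sI cl7 cl6 cl4 t3 t1 b5_5 :=
  box_mk (TrL.c (I.pos (nat_lit 0) (nat_lit 0)) T3.l20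
  (TrL.c (I.pos (nat_lit 0) (nat_lit 0)) T1.l9
  (TrL.c (I.pos (nat_lit 0) (nat_lit 111196574)) (xR (xR T3.l10 T3.l10) T3.l10)
  (TrL.c (I.pos (nat_lit 0) (nat_lit 77433728)) (xR T1.l10 T1.l10)
  (TrL.c (I.pos (nat_lit 0) (nat_lit 0)) (xk T1.l17 T1.l17)
  (TrL.c (I.pos (nat_lit 0) (nat_lit 0)) T3.l11
  (TrL.c (I.mix (nat_lit 29511666) (nat_lit 77433728)) (xR T1.l12 T1.l12)
  (TrL.c (I.mix (nat_lit 29511666) (nat_lit 46070178)) T3.l12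
  TrL.n)))))))) (by decide +kernel)
theorem bx5_6 : BoxOK sI cl7 cl6 cl4 t3 t1 b5_6 :=
  box_mk (TrL.c (I.pos (nat_lit 0) (nat_lit 0)) (xa (xa (xb T3.l17 T3.l17) T3.l16) T3.l16)
  (TrL.c (I.pos (nat_lit 0) (nat_lit 0)) (xa (xa T1.l18 T1.l9) T1.l9)
  (TrL.c (I.pos (nat_lit 0) (nat_lit 111196574)) (xR T3.l10 T3.l10)
  (TrL.c (I.pos (nat_lit 0) (nat_lit 77433728)) T1.l12
  (TrL.c (I.pos (nat_lit 0) (nat_lit 0)) (xa T1.l9 T1.l9)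
  (TrL.c (I.pos (nat_lit 0) (nat_lit 0)) T3.l10
  (TrL.c (I.mix (nat_lit 29511666) (nat_lit 77433728)) (xR (xR T1.l12 T1.l12) T1.l12)
  (TrL.c (I.mix (nat_lit 29511666) (nat_lit 46070178)) T3.l7
  TrL.n)))))))) (by decide +kernel)
theorem bx5_7 : BoxOK sI cl7 cl6 cl4 t3 t1 b5_7 :=
  box_mk (TrL.c (I.pos (nat_lit 0) (nat_lit 0)) T3.l0
  (TrL.c (I.pos (nat_lit 0) (nat_lit 0)) T1.l9
  (TrL.c (I.pos (nat_lit 0) (nat_lit 111196574)) (xR (xR T3.l10 T3.l10) T3.l10)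
  (TrL.c (I.pos (nat_lit 0) (nat_lit 77433728)) (xR T1.l10 T1.l10)
  (TrL.c (I.pos (nat_lit 0) (nat_lit 0)) (xk T1.l15 T1.l15)
  (TrL.c (I.pos (nat_lit 0) (nat_lit 0)) T3.l11
  (TrL.c (I.mix (nat_lit 29511666) (nat_lit 77433728)) (xR T1.l12 T1.l12)
  (TrL.c (I.mix (nat_lit 29511666) (nat_lit 46070178)) T3.l12
  TrL.n)))))))) (by decide +kernel)
theorem bx5_8 : BoxOK sI cl7 cl6 cl4 t3 t1 b5_8 :=
  box_mk (TrL.c (I.pos (nat_lit 0) (nat_lit 0)) T3.l0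
  (TrL.c (I.pos (nat_lit 0) (nat_lit 0)) (xk T1.l9 T1.l9)
  (TrL.c (I.pos (nat_lit 0) (nat_lit 111196574)) (xR (xR T3.l10 T3.l10) T3.l10)
  (TrL.c (I.pos (nat_lit 0) (nat_lit 77433728)) (xR T1.l10 T1.l10)
  (TrL.c (I.pos (nat_lit 0) (nat_lit 0)) (xk (xb (xa T1.l15 T1.l15) T1.l15) (xa T1.l15 (xb T1.l15 T1.l15)))
  (TrL.c (I.pos (nat_lit 0) (nat_lit 0)) T3.l11
  (TrL.c (I.mix (nat_lit 29511666) (nat_lit 77433728)) (xR T1.l12 T1.l1)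
  (TrL.c (I.mix (nat_lit 29511666) (nat_lit 46070178)) (xR T3.l12 T3.l12)
  TrL.n)))))))) (by decide +kernel)
theorem bx5_9 : BoxOK sI cl7 cl6 cl4 t3 t1 b5_9 :=
  box_mk (TrL.c (I.pos (nat_lit 0) (nat_lit 0)) (xa (xb T3.l15 T3.l15) (xb T3.l15 T3.l15))
  (TrL.c (I.pos (nat_lit 0) (nat_lit 0)) (xk (xb (xa T1.l9 T1.l9) (xa T1.l9 T1.l9)) (xb (xa T1.l9 T1.l9) (xa T1.l9 T1.l9)))
  (TrL.c (I.pos (nat_lit 0) (nat_lit 111196574)) (xR (xR T3.l10 T3.l10) (xR T3.l10 T3.l10))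
  (TrL.c (I.pos (nat_lit 0) (nat_lit 77433728)) (xR T1.l10 (xR T1.l10 T1.l10))
  (TrL.c (I.pos (nat_lit 0) (nat_lit 0)) (xk (xb (xa T1.l15 T1.l15) T1.l15) (xb (xa T1.l15 T1.l15) T1.l15))
  (TrL.c (I.pos (nat_lit 0) (nat_lit 0)) T3.l11
  (TrL.c (I.mix (nat_lit 29511666) (nat_lit 77433728)) (xR T1.l12 T1.l1)
  (TrL.c (I.mix (nat_lit 29511666) (nat_lit 46070178)) (xR T3.l12 T3.l12)
  TrL.n)))))))) (by decide +kernel)
theorem bx5_10 : BoxOK sI cl7 cl6 cl4 t3 t1 b5_10 :=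
  box_mk (TrL.c (I.pos (nat_lit 0) (nat_lit 0)) (xa (xa (xb (xa T3.l18 T3.l18) (xa T3.l18 T3.l18)) (xb T3.l18 T3.l18)) (xa (xb T3.l18 (xa T3.l18 T3.l18)) (xb T3.l18 (xa T3.l18 T3.l18))))
  (TrL.c (I.pos (nat_lit 0) (nat_lit 0)) (xa (xa T1.l9 T1.l9) (xa T1.l9 T1.l9))
  (TrL.c (I.pos (nat_lit 0) (nat_lit 111196574)) (xR T3.l10 T3.l10)
  (TrL.c (I.pos (nat_lit 0) (nat_lit 77433728)) (xR T1.l10 (xR T1.l10 T1.l10))
  (TrL.c (I.pos (nat_lit 0) (nat_lit 0)) (xa (xa T1.l9 (xb T1.l18 T1.l18)) (xb (xa T1.l18 T1.l18) (xa T1.l18 T1.l18)))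
  (TrL.c (I.pos (nat_lit 0) (nat_lit 0)) T3.l11
  (TrL.c (I.mix (nat_lit 29511666) (nat_lit 77433728)) (xR T1.l12 T1.l12)
  (TrL.c (I.mix (nat_lit 29511666) (nat_lit 46070178)) T3.l7
  TrL.n)))))))) (by decide +kernel)
theorem bx5_11 : BoxOK sI cl7 cl6 cl4 t3 t1 b5_11 :=
  box_mk (TrL.c (I.pos (nat_lit 0) (nat_lit 0)) (xb (xa T3.l19 T3.l19) (xa T3.l19 T3.l19))
  (TrL.c (I.pos (nat_lit 0) (nat_lit 0)) (xb (xk T1.l9 T1.l9) T1.l9)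
  (TrL.c (I.pos (nat_lit 0) (nat_lit 111196574)) (xR T3.l10 T3.l10)
  (TrL.c (I.pos (nat_lit 0) (nat_lit 77433728)) (xR T1.l10 T1.l10)
  (TrL.c (I.pos (nat_lit 0) (nat_lit 0)) (xb (xk (xa T1.l19 T1.l19) (xa T1.l19 T1.l19)) (xk T1.l19 T1.l19))
  (TrL.c (I.pos (nat_lit 0) (nat_lit 0)) T3.l11
  (TrL.c (I.mix (nat_lit 29511666) (nat_lit 77433728)) (xR T1.l12 T1.l12)
  (TrL.c (I.mix (nat_lit 29511666) (nat_lit 46070178)) T3.l12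
  TrL.n)))))))) (by decide +kernel)
theorem bx5_12 : BoxOK sI cl7 cl6 cl4 t3 t1 b5_12 :=
  box_mk (TrL.c (I.pos (nat_lit 0) (nat_lit 0)) (xa (xb (xa T3.l21 T3.l21) (xa T3.l21 T3.l21)) (xb T3.l21 T3.l16))
  (TrL.c (I.pos (nat_lit 0) (nat_lit 0)) (xa (xk T1.l18 T1.l18) T1.l9)
  (TrL.c (I.pos (nat_lit 0) (nat_lit 111196574)) T3.l10
  (TrL.c (I.pos (nat_lit 0) (nat_lit 77433728)) T1.l12
  (TrL.c (I.pos (nat_lit 0) (nat_lit 0)) (xa T1.l9 T1.l9)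
  (TrL.c (I.pos (nat_lit 0) (nat_lit 0)) T3.l10
  (TrL.c (I.mix (nat_lit 29511666) (nat_lit 77433728)) (xR T1.l12 T1.l10)
  (TrL.c (I.mix (nat_lit 29511666) (nat_lit 46070178)) T3.l7
  TrL.n)))))))) (by decide +kernel)
theorem bx5_13 : BoxOK sI cl7 cl6 cl4 t3 t1 b5_13 :=
  box_mk (TrL.c (I.pos (nat_lit 0) (nat_lit 0)) (xa T3.l0 T3.l0)
  (TrL.c (I.pos (nat_lit 0) (nat_lit 0)) (xk (xa T1.l9 T1.l9) T1.l9)
  (TrL.c (I.pos (nat_lit 0) (nat_lit 111196574)) (xR (xR T3.l10 T3.l10) T3.l10)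
  (TrL.c (I.pos (nat_lit 0) (nat_lit 77433728)) (xR T1.l10 (xR T1.l10 T1.l10))
  (TrL.c (I.pos (nat_lit 0) (nat_lit 0)) (xk T1.l11 T1.l11)
  (TrL.c (I.pos (nat_lit 0) (nat_lit 0)) T3.l11
  (TrL.c (I.mix (nat_lit 29511666) (nat_lit 77433728)) (xR T1.l12 T1.l12)
  (TrL.c (I.mix (nat_lit 29511666) (nat_lit 46070178)) (xR T3.l12 T3.l12)
  TrL.n)))))))) (by decide +kernel)
theorem bx5_14 : BoxOK sI cl7 cl6 cl4 t3 t1 b5_14 :=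
  box_mk (TrL.c (I.pos (nat_lit 0) (nat_lit 0)) (xa T3.l0 (xb T3.l0 T3.l0))
  (TrL.c (I.pos (nat_lit 0) (nat_lit 0)) (xk (xa (xb T1.l9 (xa T1.l9 T1.l9)) (xb T1.l2 T1.l2)) (xa (xb T1.l9 T1.l9) (xb T1.l2 (xk T1.l9 T1.l2))))
  (TrL.c (I.pos (nat_lit 0) (nat_lit 111196574)) (xR (xR T3.l10 T3.l10) (xR T3.l10 T3.l10))
  (TrL.c (I.pos (nat_lit 0) (nat_lit 77433728)) (xR (xR T1.l10 T1.l10) (xR T1.l10 (xR T1.l10 T1.l10)))
  (TrL.c (I.pos (nat_lit 0) (nat_lit 0)) (xk (xa T1.l11 (xb (xa T1.l11 T1.l11) T1.l11)) (xa T1.l11 (xb (xa T1.l11 T1.l11) T1.l11)))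
  (TrL.c (I.pos (nat_lit 0) (nat_lit 0)) (xk (xa T3.l11 (xb T3.l1 T3.l11)) (xa T3.l11 (xb T3.l1 T3.l11)))
  (TrL.c (I.mix (nat_lit 29511666) (nat_lit 77433728)) (xR T1.l12 (xR T1.l12 (xR T1.l12 T1.l12)))
  (TrL.c (I.mix (nat_lit 29511666) (nat_lit 46070178)) (xR T3.l12 T3.l12)
  TrL.n)))))))) (by decide +kernel)
theorem bx5_15 : BoxOK sI cl7 cl6 cl4 t3 t1 b5_15 :=
  box_mk (TrL.c (I.pos (nat_lit 0) (nat_lit 0)) (xa (xb (xa T3.l0 T3.l0) (xa (xs T3.l0 T3.l0) T3.l0)) (xb (xa T3.l0 T3.l0) (xa T3.l0 T3.l0)))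
  (TrL.c (I.pos (nat_lit 0) (nat_lit 0)) (xk (xa (xb T1.l9 (xk T1.l9 T1.l9)) (xb (xk T1.l9 T1.l9) (xk T1.l9 T1.l9))) (xa (xb T1.l9 (xk T1.l9 T1.l9)) (xb T1.l9 (xk T1.l9 T1.l9))))
  (TrL.c (I.pos (nat_lit 0) (nat_lit 111196574)) (xR (xR T3.l10 T3.l10) (xR T3.l10 T3.l10))
  (TrL.c (I.pos (nat_lit 0) (nat_lit 77433728)) (xR T1.l10 (xR T1.l10 T1.l10))
  (TrL.c (I.pos (nat_lit 0) (nat_lit 0)) (xk (xa T1.l11 (xb T1.l11 T1.l11)) (xa T1.l11 (xb T1.l11 T1.l11)))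
  (TrL.c (I.pos (nat_lit 0) (nat_lit 0)) (xk T3.l11 T3.l11)
  (TrL.c (I.mix (nat_lit 29511666) (nat_lit 77433728)) (xR T1.l12 (xR T1.l12 T1.l12))
  (TrL.c (I.mix (nat_lit 29511666) (nat_lit 46070178)) (xR T3.l12 T3.l12)
  TrL.n)))))))) (by decide +kernel)
theorem c5_16_0 : chkTag sI cl7 cl6 cl4 t3 b5_16 (tg true true false RT.r2) (I.pos (nat_lit 0) (nat_lit 0))
  (xa (xb (xa T3.l0 T3.l0) (xa T3.l0 (xb T3.l0 T3.l0))) (xb (xa T3.l0 T3.l0) (xa (xb T3.l0 T3.l0) (xb T3.l0 T3.l0)))) = true := by decide +kernel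
theorem c5_16_1 : chkTag sI cl7 cl6 cl4 t1 b5_16 (tg true false false RT.r3) (I.pos (nat_lit 0) (nat_lit 0))
  (xa (xk (xb (xa T1.l9 T1.l2) (xa T1.l9 (xb T1.l2 (xk T1.l9 T1.l9)))) (xb (xa T1.l9 (xb T1.l9 T1.l9)) (xa T1.l9 (xb T1.l9 (xk T1.l9 T1.l9))))) (xk (xb (xa T1.l2 T1.l2) (xa (xk T1.l2 T1.l2) (xk T1.l2 T1.l2))) (xb (xa T1.l2 T1.l2) (xa T1.l2 T1.l2)))) = true := by decide +kernel
theorem c5_16_2 : chkTag sI cl7 cl6 cl4 t3 b5_16 (Tag.mk true true false RT.tl RT.r4) (I.pos (nat_lit 0) (nat_lit 111196574))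
  (xR (xR T3.l10 T3.l10) (xR T3.l10 (xR T3.l10 T3.l4))) = true := by decide +kernel
theorem c5_16_3 : chkTag sI cl7 cl6 cl4 t1 b5_16 (Tag.mk true false false RT.tl RT.r5) (I.pos (nat_lit 0) (nat_lit 77433728))
  (xR (xR T1.l10 T1.l10) (xR T1.l10 (xR (xk T1.l10 T1.l10) (xk (xa T1.l10 T1.l10) T1.l10)))) = true := by decide +kernel
theorem c5_16_4 : chkTag sI cl7 cl6 cl4 t1 b5_16 (tg false false false RT.r3) (I.pos (nat_lit 0) (nat_lit 0))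
  (xa (xb (xk (xa (xb (xk T1.l11 T1.l11) T1.l11) (xb (xk T1.l11 T1.l11) T1.l11)) (xa (xb (xk T1.l11 T1.l11) T1.l11) (xb (xk T1.l11 T1.l11) T1.l11))) (xk T1.l11 T1.l11)) (xb (xk (xa (xb (xk (xa T1.l11 T1.l11) (xa T1.l11 T1.l11)) T1.l11) (xb (xk (xa T1.l11 (xb T1.l11 T1.l11)) (xa T1.l11 (xb T1.l11 T1.l11))) (xk T1.l11 T1.l11))) (xa (xb (xk (xa T1.l11 T1.l11) T1.l11) T1.l11) (xb (xk (xa T1.l11 (xb T1.l11 T1.l11)) (xa T1.l11 T1.l11)) (xk T1.l11 T1.l11)))) (xk (xa (xb T1.l11 T1.l11) (xb (xk T1.l11 T1.l11) (xk (xa T1.l11 (xb T1.l11 T1.l11)) (xa T1.l11 (xb T1.l11 T1.l11))))) (xa (xb T1.l11 T1.l11) (xb (xk T1.l11 T1.l11) (xk (xa T1.l11 (xb T1.l11 T1.l11)) (xa T1.l11 T1.l11))))))) = true := by decide +kernel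
theorem c5_16_5 : chkTag sI cl7 cl6 cl4 t3 b5_16 (tg false true false RT.r4) (I.pos (nat_lit 0) (nat_lit 0))
  (xk (xb (xa T3.l1 (xk T3.l1 T3.l1)) (xa T3.l11 (xk (xa T3.l11 T3.l11) T3.l11))) (xb (xa (xa T3.l11 T3.l11) (xk T3.l1 T3.l1)) (xa T3.l11 (xk T3.l11 T3.l11)))) = true := by decide +kernel
theorem c5_16_6 : chkTag sI cl7 cl6 cl4 t1 b5_16 (Tag.mk false false false RT.tl RT.r5) (I.mix (nat_lit 29511666) (nat_lit 77433728))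
  (xR (xR T1.l12 T1.l12) (xR T1.l12 (xR T1.l12 (xk (xR T1.l12 T1.l12) T1.l12)))) = true := by decide +kernel
theorem c5_16_7 : chkTag sI cl7 cl6 cl4 t3 b5_16 (Tag.mk false true false RT.tl RT.r6) (I.mix (nat_lit 29511666) (nat_lit 46070178))
  (xR (xR T3.l12 T3.l12) (xR T3.l12 T3.l12)) = true := by decide +kernel
theorem bx5_16 : BoxOK sI cl7 cl6 cl4 t3 t1 b5_16 :=
  box_mk' [(tg true true false RT.r2), (tg true false false RT.r3), (Tag.mk true true false RT.tl RT.r4), (Tag.mk true false false RT.tl RT.r5), (tg false false false RT.r3), (tg false true false RT.r4), (Tag.mk false false false RT.tl RT.r5), (Tag.mk false true false RT.tl RT.r6)] rfl (allL_c (ex_mk c5_16_0) (allL_c (ex_mk c5_16_1) (allL_c (ex_mk c5_16_2) (allL_c (ex_mk c5_16_3) (allL_c (ex_mk c5_16_4) (allL_c (ex_mk c5_16_5) (allL_c (ex_mk c5_16_6) (allL_c (ex_mk c5_16_7)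 allL_n))))))))
theorem bx5_17 : BoxOK sI cl7 cl6 cl4 t3 t1 b5_17 :=
  box_mk (TrL.c (I.pos (nat_lit 0) (nat_lit 0)) T3.l0
  (TrL.c (I.pos (nat_lit 0) (nat_lit 0)) (xk T1.l2 T1.l2)
  (TrL.c (I.pos (nat_lit 0) (nat_lit 111196574)) (xR (xR T3.l10 T3.l10) T3.l4)
  (TrL.c (I.pos (nat_lit 0) (nat_lit 77433728)) (xR (xR T1.l10 T1.l10) (xR T1.l10 T1.l10))
  (TrL.c (I.pos (nat_lit 0) (nat_lit 0)) (xk (xb (xa T1.l11 (xk T1.l11 T1.l11)) T1.l11) (xa T1.l11 (xb (xk T1.l11 T1.l11) T1.l11)))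
  (TrL.c (I.pos (nat_lit 0) (nat_lit 0)) (xk T3.l1 T3.l1)
  (TrL.c (I.mix (nat_lit 29511666) (nat_lit 77433728)) (xR T1.l12 (xR T1.l12 (xR T1.l12 T1.l12)))
  (TrL.c (I.mix (nat_lit 29511666) (nat_lit 46070178)) (xR T3.l12 T3.l2)
  TrL.n)))))))) (by decide +kernel)
theorem bx5_18 : BoxOK sI cl7 cl6 cl4 t3 t1 b5_18 :=
  box_mk (TrL.c (I.pos (nat_lit 0) (nat_lit 0)) (xa (xb (xa T3.l0 T3.l0) (xa T3.l0 T3.l0)) (xa (xb T3.l0 T3.l0) (xb T3.l0 (xb T3.l0 T3.l0))))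
  (TrL.c (I.pos (nat_lit 0) (nat_lit 0)) (xa (xk (xb (xa T1.l9 T1.l2) (xa T1.l9 (xk T1.l9 T1.l9))) (xb (xa T1.l9 T1.l9) (xa T1.l9 (xk T1.l9 T1.l9)))) (xk (xb (xa T1.l2 T1.l2) (xa (xk T1.l2 T1.l2) (xk T1.l2 T1.l2))) (xb (xa T1.l2 T1.l2) (xa (xk T1.l9 T1.l2) T1.l2))))
  (TrL.c (I.pos (nat_lit 0) (nat_lit 111196574)) (xR (xR T3.l10 T3.l10) (xR T3.l10 (xR T3.l10 T3.l4)))
  (TrL.c (I.pos (nat_lit 0) (nat_lit 77433728)) (xR (xR T1.l10 T1.l10) (xR T1.l10 (xR T1.l10 (xa T1.l10 T1.l10))))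
  (TrL.c (I.pos (nat_lit 0) (nat_lit 0)) (xa (xk (xb (xa T1.l11 T1.l11) T1.l11) (xb (xa T1.l11 T1.l11) T1.l11)) (xk (xb (xa T1.l11 (xk T1.l11 T1.l11)) (xa (xk T1.l11 T1.l11) (xk (xb T1.l11 (xa T1.l11 T1.l11)) (xb T1.l11 (xa T1.l11 T1.l11))))) (xb (xa T1.l11 (xb T1.l11 T1.l11)) (xa T1.l11 (xk (xb T1.l11 (xa T1.l11 T1.l11)) (xb T1.l11 T1.l11))))))
  (TrL.c (I.pos (nat_lit 0) (nat_lit 0)) (xk (xa T3.l11 (xb (xa T3.l11 (xk T3.l11 T3.l11)) (xk (xa T3.l11 T3.l11) T3.l11))) (xa T3.l11 (xb (xa T3.l11 T3.l11) (xa T3.l11 T3.l11))))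
  (TrL.c (I.mix (nat_lit 29511666) (nat_lit 77433728)) (xR (xR T1.l12 T1.l12) (xR T1.l12 (xR T1.l12 (xk (xa T1.l12 T1.l12) T1.l12))))
  (TrL.c (I.mix (nat_lit 29511666) (nat_lit 46070178)) (xR (xR T3.l12 T3.l12) (xR T3.l12 T3.l12))
  TrL.n)))))))) (by decide +kernel)
theorem bx5_19 : BoxOK sI cl7 cl6 cl4 t3 t1 b5_19 :=
  box_mk (TrL.c (I.pos (nat_lit 0) (nat_lit 0)) (xa T3.l0 T3.l0)
  (TrL.c (I.pos (nat_lit 0) (nat_lit 0)) (xk (xa T1.l9 (xb T1.l9 T1.l9)) T1.l9)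
  (TrL.c (I.pos (nat_lit 0) (nat_lit 111196574)) (xR (xR T3.l10 T3.l10) (xR T3.l10 T3.l10))
  (TrL.c (I.pos (nat_lit 0) (nat_lit 77433728)) (xR T1.l10 (xR T1.l10 T1.l10))
  (TrL.c (I.pos (nat_lit 0) (nat_lit 0)) (xk T1.l11 T1.l11)
  (TrL.c (I.pos (nat_lit 0) (nat_lit 0)) (xk T3.l11 T3.l11)
  (TrL.c (I.mix (nat_lit 29511666) (nat_lit 77433728)) (xR T1.l12 T1.l12)
  (TrL.c (I.mix (nat_lit 29511666) (nat_lit 46070178)) (xR T3.l12 T3.l12)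
  TrL.n)))))))) (by decide +kernel)
theorem bx5_20 : BoxOK sI cl7 cl6 cl4 t3 t1 b5_20 :=
  box_mk (TrL.c (I.pos (nat_lit 0) (nat_lit 0)) T3.l0
  (TrL.c (I.pos (nat_lit 0) (nat_lit 0)) (xk T1.l2 T1.l2)
  (TrL.c (I.pos (nat_lit 0) (nat_lit 111196574)) (xR (xR T3.l10 T3.l10) T3.l4)
  (TrL.c (I.pos (nat_lit 0) (nat_lit 77433728)) (xR (xR T1.l10 T1.l10) (xR T1.l10 T1.l10))
  (TrL.c (I.pos (nat_lit 0) (nat_lit 0)) (xk (xa T1.l11 (xb (xk T1.l11 T1.l11) T1.l11)) (xa (xb (xk T1.l11 T1.l11) T1.l11) (xb (xk T1.l11 T1.l11) T1.l11)))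
  (TrL.c (I.pos (nat_lit 0) (nat_lit 0)) (xk T3.l1 T3.l1)
  (TrL.c (I.mix (nat_lit 29511666) (nat_lit 77433728)) (xR T1.l12 (xR T1.l12 (xR T1.l12 T1.l12)))
  (TrL.c (I.mix (nat_lit 29511666) (nat_lit 46070178)) (xR T3.l12 T3.l2)
  TrL.n)))))))) (by decide +kernel)
theorem bx5_21 : BoxOK sI cl7 cl6 cl4 t3 t1 b5_21 :=
  box_mk (TrL.c (I.pos (nat_lit 0) (nat_lit 0)) (xa T3.l0 T3.l0)
  (TrL.c (I.pos (nat_lit 0) (nat_lit 0)) (xk (xa T1.l9 T1.l9) T1.l9)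
  (TrL.c (I.pos (nat_lit 0) (nat_lit 111196574)) (xR (xR T3.l10 T3.l10) T3.l10)
  (TrL.c (I.pos (nat_lit 0) (nat_lit 77433728)) (xR T1.l10 T1.l10)
  (TrL.c (I.pos (nat_lit 0) (nat_lit 0)) (xk T1.l11 T1.l11)
  (TrL.c (I.pos (nat_lit 0) (nat_lit 0)) T3.l11
  (TrL.c (I.mix (nat_lit 29511666) (nat_lit 77433728)) (xR T1.l12 T1.l12)
  (TrL.c (I.mix (nat_lit 29511666) (nat_lit 46070178)) (xR T3.l12 T3.l12)
  TrL.n)))))))) (by decide +kernel)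
theorem sv5 : StarV sI cl7 cl6 cl4 t3 t1 t5 :=
  (bt_n (bt_n (bt_n (bt_n (bt_b bx5_0) (bt_b bx5_1)) (bt_n (bt_b bx5_2) (bt_n (bt_b bx5_3) (bt_b bx5_4)))) (bt_n (bt_n (bt_b bx5_5) (bt_n (bt_b bx5_6) (bt_b bx5_7))) (bt_n (bt_b bx5_8) (bt_n (bt_b bx5_9) (bt_b bx5_10))))) (bt_n (bt_n (bt_n (bt_b bx5_11) (bt_b bx5_12)) (bt_n (bt_b bx5_13) (bt_n (bt_b bx5_14) (bt_b bx5_15)))) (bt_n (bt_n (bt_b bx5_16) (bt_n (bt_b bx5_17) (bt_b bx5_18))) (bt_n (bt_b bx5_19) (bt_n (bt_b bx5_20) (bt_b bx5_21))))))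
def S5 : StarD := StarD.mk cl7 cl6 cl4 3 1 t5
def G : List StarD := [S0, S1, S2, S3, S4, S5]
theorem so0 : StarOK sI G S0 :=
  star_mk (by decide) (by decide) rfl rfl rfl rfl rfl rfl (rfl : _ = t2) (rfl : _ = t4)
  (st_mk (Pth.l (Pth.l (Pth.l (Pth.l Pth.z)))) (nat_lit 196252611) (nat_lit 198085537) (by decide +kernel))
  (st_mk (Pth.l (Pth.l (Pth.l (Pth.l Pth.z)))) (nat_lit 235627929) (nat_lit 238340423) (by decide +kernel))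
  (st_mk (Pth.l (Pth.l (Pth.l (Pth.l Pth.z)))) (nat_lit 282252544) (nat_lit 286275714) (by decide +kernel)) sv0
theorem so1 : StarOK sI G S1 :=
  star_mk (by decide) (by decide) rfl rfl rfl rfl rfl rfl (rfl : _ = t4) (rfl : _ = t2)
  (st_mk (Pth.l (Pth.l (Pth.l (Pth.l Pth.z)))) (nat_lit 148701184) (nat_lit 171077045) (by decide +kernel))
  (st_mk (Pth.l (Pth.l (Pth.l (Pth.l Pth.z)))) (nat_lit 185776136) (nat_lit 211006843) (by decide +kernel))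
  (st_mk (Pth.l (Pth.l (Pth.l (Pth.l Pth.z)))) (nat_lit 232041712) (nat_lit 258678581) (by decide +kernel)) sv1
theorem so2 : StarOK sI G S2 :=
  star_mk (by decide) (by decide) rfl rfl rfl rfl rfl rfl (rfl : _ = t0) (rfl : _ = t5)
  (st_mk (Pth.l (Pth.l (Pth.l (Pth.l Pth.z)))) (nat_lit 377580281) (nat_lit 379737770) (by decide +kernel))
  (st_mk (Pth.l (Pth.l (Pth.l (Pth.l Pth.z)))) (nat_lit 415086820) (nat_lit 417713174) (by decide +kernel))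
  (st_mk (Pth.l (Pth.l (Pth.l (Pth.l Pth.z)))) (nat_lit 458697371) (nat_lit 461933073) (by decide +kernel)) sv2
theorem so3 : StarOK sI G S3 :=
  star_mk (by decide) (by decide) rfl rfl rfl rfl rfl rfl (rfl : _ = t5) (rfl : _ = t0)
  (st_mk (Pth.l (Pth.l (Pth.l (Pth.l Pth.z)))) (nat_lit 145178624) (nat_lit 166154824) (by decide +kernel))
  (st_mk (Pth.l (Pth.l (Pth.l (Pth.l Pth.z)))) (nat_lit 180092793) (nat_lit 203366760) (by decide +kernel))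
  (st_mk (Pth.l (Pth.l (Pth.l (Pth.l Pth.z)))) (nat_lit 223093425) (nat_lit 246945077) (by decide +kernel)) sv3
theorem so4 : StarOK sI G S4 :=
  star_mk (by decide) (by decide) rfl rfl rfl rfl rfl rfl (rfl : _ = t1) (rfl : _ = t3)
  (st_mk (Pth.l (Pth.l (Pth.l (Pth.l Pth.z)))) (nat_lit 371550238) (nat_lit 376856276) (by decide +kernel))
  (st_mk (Pth.l (Pth.l (Pth.l (Pth.l Pth.z)))) (nat_lit 407941032) (nat_lit 414030181) (by decide +kernel))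
  (st_mk (Pth.l (Pth.l (Pth.l (Pth.l Pth.z)))) (nat_lit 450112020) (nat_lit 457210024) (by decide +kernel)) sv4
theorem so5 : StarOK sI G S5 :=
  star_mk (by decide) (by decide) rfl rfl rfl rfl rfl rfl (rfl : _ = t3) (rfl : _ = t1)
  (st_mk (Pth.l (Pth.l (Pth.l (Pth.l Pth.z)))) (nat_lit 188704138) (nat_lit 190695714) (by decide +kernel))
  (st_mk (Pth.l (Pth.l (Pth.l (Pth.l Pth.z)))) (nat_lit 224798079) (nat_lit 227415477) (by decide +kernel))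
  (st_mk (Pth.l (Pth.l (Pth.l (Pth.l Pth.z)))) (nat_lit 266179050) (nat_lit 270747043) (by decide +kernel)) sv5
theorem ok : GroupOK (nat_lit 209321984) (nat_lit 268435456) G := grp_mk (allS_c so0 (allS_c so1 (allS_c so2 (allS_c so3 (allS_c so4 (allS_c so5 allS_n))))))
theorem cov : GCov G cl4 cl6 cl7 := cov_mk
  ⟨0, by decide, rfl, rfl, rfl⟩ ⟨1, by decide, rfl, rfl, rfl⟩ ⟨2, by decide, rfl, rfl, rfl⟩ ⟨3, by decide, rfl, rfl, rfl⟩ ⟨4, by decide, rfl, rfl, rfl⟩ ⟨5, by decide, rfl, rfl, rfl⟩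
end Q134_3

namespace Q135_0
def sI : I := I.pos (nat_lit 0) (nat_lit 91291648)
def b0_0 : Bx := Bx.mk (St.mk (I.pos (nat_lit 157515776) (nat_lit 264192000)) (I.mix (nat_lit 31244288) (nat_lit 78381056)) (I.mix (nat_lit 141344768) (nat_lit 79872000)) (I.pos (nat_lit 185368576) (nat_lit 364363776)) (I.mix (nat_lit 106070016) (nat_lit 77152256)) (I.mix (nat_lit 94896128) (nat_lit 90406912)) (I.mix (nat_lit 160169984) (nat_lit 182665216)))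
  false (nat_lit 0)
def b0_1 : Bx := Bx.mk (St.mk (I.mix (nat_lit 25477120) (nat_lit 94355456)) (I.mix (nat_lit 12140544) (nat_lit 41746432)) (I.mix (nat_lit 35504128) (nat_lit 65536)) (I.pos (nat_lit 83574784) (nat_lit 123813888)) (I.mix (nat_lit 29605888) (nat_lit 41631744)) (I.mix (nat_lit 42762240) (nat_lit 29491200)) (I.mix (nat_lit 28868608) (nat_lit 22216704)))
  false (nat_lit 0)
def b0_2 : Bx := Bx.mk (St.mk (I.pos (nat_lit 83197952) (nat_lit 120029184)) (I.mix (nat_lit 61456384) (nat_lit 13369344)) (I.neg (nat_lit 16384000) (nat_lit 73973760)) (I.pos (nat_lit 115179520) (nat_lit 145342464)) (I.mix (nat_lit 95518720) (nat_lit 29032448)) (I.mix (nat_lit 51101696) (nat_lit 94519296)) (I.mix (nat_lit 36601856) (nat_lit 73793536)))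
  false (nat_lit 0)
def b0_3 : Bx := Bx.mk (St.mk (I.mix (nat_lit 45350912) (nat_lit 24264704)) (I.mix (nat_lit 36126720) (nat_lit 9748480)) (I.neg (nat_lit 8257536) (nat_lit 25395200)) (I.pos (nat_lit 83312640) (nat_lit 100024320)) (I.mix (nat_lit 37027840) (nat_lit 21807104)) (I.mix (nat_lit 23789568) (nat_lit 33947648)) (I.mix (nat_lit 12926976) (nat_lit 10190848)))
  false (nat_lit 0)
def b0_4 : Bx := Bx.mk (St.mk (I.pos (nat_lit 77643776) (nat_lit 90767360)) (I.mix (nat_lit 11075584) (nat_lit 9699328)) (I.neg (nat_lit 17989632) (nat_lit 34734080)) (I.pos (nat_lit 111869952) (nat_lit 122519552)) (I.mix (nat_lit 24428544) (nat_lit 15810560)) (I.mix (nat_lit 18006016) (nat_lit 17760256)) (I.mix (nat_lit 12107776) (nat_lit 15630336)))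
  false (nat_lit 0)
def b0_5 : Bx := Bx.mk (St.mk (I.mix (nat_lit 54673408) (nat_lit 3325952)) (I.mix (nat_lit 9322496) (nat_lit 12746752)) (I.neg (nat_lit 15925248) (nat_lit 27410432)) (I.pos (nat_lit 88129536) (nat_lit 102170624)) (I.mix (nat_lit 22052864) (nat_lit 18874368)) (I.mix (nat_lit 19808256) (nat_lit 23969792)) (I.mix (nat_lit 9306112) (nat_lit 9306112)))
  false (nat_lit 0)
def b0_6 : Bx := Bx.mk (St.mk (I.pos (nat_lit 82182144) (nat_lit 158613504)) (I.mix (nat_lit 68993024) (nat_lit 1769472)) (I.neg (nat_lit 20922368) (nat_lit 81838080)) (I.pos (nat_lit 122945536) (nat_lit 187285504)) (I.mix (nat_lit 102383616) (nat_lit 51363840)) (I.mix (nat_lit 53575680) (nat_lit 87703552)) (I.mix (nat_lit 35061760) (nat_lit 78659584)))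
  false (nat_lit 0)
def b0_7 : Bx := Bx.mk (St.mk (I.mix (nat_lit 31784960) (nat_lit 46415872)) (I.mix (nat_lit 35373056) (nat_lit 7405568)) (I.neg (nat_lit 9830400) (nat_lit 27262976)) (I.pos (nat_lit 82935808) (nat_lit 99729408)) (I.mix (nat_lit 37781504) (nat_lit 30932992)) (I.mix (nat_lit 26738688) (nat_lit 45105152)) (I.mix (nat_lit 12992512) (nat_lit 18481152)))
  false (nat_lit 0)
def b0_8 : Bx := Bx.mk (St.mk (I.mix (nat_lit 47693824) (nat_lit 75628544)) (I.mix (nat_lit 7405568) (nat_lit 35504128)) (I.neg (nat_lit 2260992) (nat_lit 27262976)) (I.pos (nat_lit 82853888) (nat_lit 112017408)) (I.mix (nat_lit 35045376) (nat_lit 37781504)) (I.mix (nat_lit 48136192) (nat_lit 31211520)) (I.mix (nat_lit 18464768) (nat_lit 18481152)))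
  false (nat_lit 0)
def b0_9 : Bx := Bx.mk (St.mk (I.pos (nat_lit 136331264) (nat_lit 220758016)) (I.mix (nat_lit 41893888) (nat_lit 73695232)) (I.mix (nat_lit 65454080) (nat_lit 68681728)) (I.pos (nat_lit 165838848) (nat_lit 270974976)) (I.mix (nat_lit 132317184) (nat_lit 63455232)) (I.mix (nat_lit 159137792) (nat_lit 108331008)) (I.mix (nat_lit 148324352) (nat_lit 100679680)))
  false (nat_lit 0)
def t0 : BTr := (BTr.n (BTr.n (BTr.n (BTr.b b0_0) (BTr.b b0_1)) (BTr.n (BTr.b b0_2) (BTr.n (BTr.b b0_3) (BTr.b b0_4)))) (BTr.n (BTr.n (BTr.b b0_5) (BTr.b b0_6)) (BTr.n (BTr.b b0_7) (BTr.n (BTr.b b0_8) (BTr.b b0_9)))))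
namespace T0
def l0 : Tr := Tr.L (Pth.l (Pth.l (Pth.l Pth.z)))
def l1 : Tr := Tr.L (Pth.l (Pth.l (Pth.r Pth.z)))
def l2 : Tr := Tr.L (Pth.l (Pth.r (Pth.l Pth.z)))
def l3 : Tr := Tr.L (Pth.l (Pth.r (Pth.r (Pth.l Pth.z))))
def l4 : Tr := Tr.L (Pth.l (Pth.r (Pth.r (Pth.r Pth.z))))
def l5 : Tr := Tr.L (Pth.r (Pth.l (Pth.l Pth.z)))
def l6 : Tr := Tr.L (Pth.r (Pth.l (Pth.r Pth.z)))
def l7 : Tr := Tr.L (Pth.r (Pth.r (Pth.l Pth.z)))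
def l8 : Tr := Tr.L (Pth.r (Pth.r (Pth.r (Pth.l Pth.z))))
def l9 : Tr := Tr.L (Pth.r (Pth.r (Pth.r (Pth.r Pth.z))))
end T0
def b1_0 : Bx := Bx.mk (St.mk (I.pos (nat_lit 157548544) (nat_lit 262684672)) (I.mix (nat_lit 27312128) (nat_lit 60964864)) (I.mix (nat_lit 92880896) (nat_lit 79593472)) (I.pos (nat_lit 112197632) (nat_lit 304005120)) (I.mix (nat_lit 100794368) (nat_lit 72941568)) (I.mix (nat_lit 92913664) (nat_lit 76201984)) (I.mix (nat_lit 153075712) (nat_lit 151994368)))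
  false (nat_lit 0)
def b1_1 : Bx := Bx.mk (St.mk (I.mix (nat_lit 14663680) (nat_lit 128696320)) (I.mix (nat_lit 9732096) (nat_lit 30752768)) (I.mix (nat_lit 21217280) (nat_lit 14696448)) (I.pos (nat_lit 15351808) (nat_lit 97255424)) (I.mix (nat_lit 32079872) (nat_lit 30949376)) (I.mix (nat_lit 32178176) (nat_lit 24576000)) (I.mix (nat_lit 26738688) (nat_lit 18874368)))
  false (nat_lit 0)
def b1_2 : Bx := Bx.mk (St.mk (I.pos (nat_lit 110198784) (nat_lit 150716416)) (I.mix (nat_lit 54837248) (nat_lit 11436032)) (I.neg (nat_lit 868352) (nat_lit 65847296)) (I.pos (nat_lit 65552384) (nat_lit 120684544)) (I.mix (nat_lit 96616448) (nat_lit 30982144)) (I.mix (nat_lit 53608448) (nat_lit 109805568)) (I.mix (nat_lit 41566208) (nat_lit 97222656)))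
  false (nat_lit 0)
def b1_3 : Bx := Bx.mk (St.mk (I.mix (nat_lit 20217856) (nat_lit 89948160)) (I.mix (nat_lit 26755072) (nat_lit 3817472)) (I.neg (nat_lit 442368) (nat_lit 23199744)) (I.pos (nat_lit 16580608) (nat_lit 66207744)) (I.mix (nat_lit 36651008) (nat_lit 14516224)) (I.mix (nat_lit 21626880) (nat_lit 37388288)) (I.mix (nat_lit 11796480) (nat_lit 20529152)))
  false (nat_lit 0)
def b1_4 : Bx := Bx.mk (St.mk (I.mix (nat_lit 25477120) (nat_lit 75284480)) (I.mix (nat_lit 5144576) (nat_lit 5308416)) (I.neg (nat_lit 1392640) (nat_lit 10338304)) (I.pos (nat_lit 17219584) (nat_lit 57458688)) (I.mix (nat_lit 9912320) (nat_lit 4997120)) (I.mix (nat_lit 5242880) (nat_lit 5799936)) (I.mix (nat_lit 2785280) (nat_lit 3424256)))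
  false (nat_lit 0)
def b1_5 : Bx := Bx.mk (St.mk (I.pos (nat_lit 104448000) (nat_lit 125108224)) (I.mix (nat_lit 9043968) (nat_lit 7995392)) (I.neg (nat_lit 2785280) (nat_lit 20660224)) (I.pos (nat_lit 62062592) (nat_lit 95797248)) (I.mix (nat_lit 23642112) (nat_lit 14106624)) (I.mix (nat_lit 17203200) (nat_lit 19578880)) (I.mix (nat_lit 14417920) (nat_lit 18432000)))
  false (nat_lit 0)
def b1_6 : Bx := Bx.mk (St.mk (I.pos (nat_lit 105431040) (nat_lit 181010432)) (I.mix (nat_lit 64110592) (nat_lit 7798784)) (I.neg (nat_lit 6291456) (nat_lit 72794112)) (I.pos (nat_lit 78462976) (nat_lit 161529856)) (I.mix (nat_lit 95305728) (nat_lit 52445184)) (I.mix (nat_lit 57622528) (nat_lit 88408064)) (I.mix (nat_lit 46743552) (nat_lit 90456064)))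
  false (nat_lit 0)
def b1_7 : Bx := Bx.mk (St.mk (I.mix (nat_lit 16351232) (nat_lit 104169472)) (I.mix (nat_lit 29622272) (nat_lit 5160960)) (I.neg (nat_lit 196608) (nat_lit 25362432)) (I.pos (nat_lit 15876096) (nat_lit 76562432)) (I.mix (nat_lit 34226176) (nat_lit 25690112)) (I.mix (nat_lit 21512192) (nat_lit 36274176)) (I.mix (nat_lit 12451840) (nat_lit 23281664)))
  false (nat_lit 0)
def b1_8 : Bx := Bx.mk (St.mk (I.pos (nat_lit 147914752) (nat_lit 221708288)) (I.mix (nat_lit 39763968) (nat_lit 63225856)) (I.mix (nat_lit 53919744) (nat_lit 81969152)) (I.pos (nat_lit 110182400) (nat_lit 222019584)) (I.mix (nat_lit 136675328) (nat_lit 59228160)) (I.mix (nat_lit 171786240) (nat_lit 95043584)) (I.mix (nat_lit 200900608) (nat_lit 108756992)))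
  false (nat_lit 0)
def b1_9 : Bx := Bx.mk (St.mk (I.mix (nat_lit 24215552) (nat_lit 126205952)) (I.mix (nat_lit 13729792) (nat_lit 33685504)) (I.mix (nat_lit 16334848) (nat_lit 17743872)) (I.pos (nat_lit 15646720) (nat_lit 92946432)) (I.mix (nat_lit 46071808) (nat_lit 28000256)) (I.mix (nat_lit 53805056) (nat_lit 36552704)) (I.mix (nat_lit 33882112) (nat_lit 22003712)))
  false (nat_lit 0)
def t1 : BTr := (BTr.n (BTr.n (BTr.n (BTr.b b1_0) (BTr.b b1_1)) (BTr.n (BTr.b b1_2) (BTr.n (BTr.b b1_3) (BTr.b b1_4)))) (BTr.n (BTr.n (BTr.b b1_5) (BTr.b b1_6)) (BTr.n (BTr.b b1_7) (BTr.n (BTr.b b1_8) (BTr.b b1_9)))))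
namespace T1
def l0 : Tr := Tr.L (Pth.l (Pth.l (Pth.l Pth.z)))
def l1 : Tr := Tr.L (Pth.l (Pth.l (Pth.r Pth.z)))
def l2 : Tr := Tr.L (Pth.l (Pth.r (Pth.l Pth.z)))
def l3 : Tr := Tr.L (Pth.l (Pth.r (Pth.r (Pth.l Pth.z))))
def l4 : Tr := Tr.L (Pth.l (Pth.r (Pth.r (Pth.r Pth.z))))
def l5 : Tr := Tr.L (Pth.r (Pth.l (Pth.l Pth.z)))
def l6 : Tr := Tr.L (Pth.r (Pth.l (Pth.r Pth.z)))
def l7 : Tr := Tr.L (Pth.r (Pth.r (Pth.l Pth.z)))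
def l8 : Tr := Tr.L (Pth.r (Pth.r (Pth.r (Pth.l Pth.z))))
def l9 : Tr := Tr.L (Pth.r (Pth.r (Pth.r (Pth.r Pth.z))))
end T1
def b2_0 : Bx := Bx.mk (St.mk (I.pos (nat_lit 146014208) (nat_lit 289079296)) (I.mix (nat_lit 43089920) (nat_lit 104169472)) (I.mix (nat_lit 215203840) (nat_lit 93356032)) (I.pos (nat_lit 364249088) (nat_lit 592560128)) (I.mix (nat_lit 118784000) (nat_lit 92700672)) (I.mix (nat_lit 120045568) (nat_lit 89997312)) (I.mix (nat_lit 181780480) (nat_lit 141443072)))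
  false (nat_lit 98065754)
def b2_1 : Bx := Bx.mk (St.mk (I.mix (nat_lit 60080128) (nat_lit 15187968)) (I.mix (nat_lit 16777216) (nat_lit 93814784)) (I.neg (nat_lit 50036736) (nat_lit 75481088)) (I.pos (nat_lit 266076160) (nat_lit 291012608)) (I.mix (nat_lit 45957120) (nat_lit 96993280)) (I.mix (nat_lit 96288768) (nat_lit 67403776)) (I.mix (nat_lit 37453824) (nat_lit 32456704)))
  true (nat_lit 0)
def b2_2 : Bx := Bx.mk (St.mk (I.mix (nat_lit 15187968) (nat_lit 60080128)) (I.mix (nat_lit 93814784) (nat_lit 21544960)) (I.neg (nat_lit 50036736) (nat_lit 75481088)) (I.pos (nat_lit 266076160) (nat_lit 291012608)) (I.mix (nat_lit 97009664) (nat_lit 45957120)) (I.mix (nat_lit 67403776) (nat_lit 96288768)) (I.mix (nat_lit 37470208) (nat_lit 32456704)))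
  false (nat_lit 0)
def b2_3 : Bx := Bx.mk (St.mk (I.pos (nat_lit 24133632) (nat_lit 120733696)) (I.neg (nat_lit 2686976) (nat_lit 95141888)) (I.neg (nat_lit 8601600) (nat_lit 91111424)) (I.pos (nat_lit 265125888) (nat_lit 332496896)) (I.mix (nat_lit 104939520) (nat_lit 78757888)) (I.mix (nat_lit 68435968) (nat_lit 116948992)) (I.mix (nat_lit 69550080) (nat_lit 94846976)))
  false (nat_lit 0)
def b2_4 : Bx := Bx.mk (St.mk (I.pos (nat_lit 94404608) (nat_lit 195543040)) (I.mix (nat_lit 41943040) (nat_lit 101662720)) (I.mix (nat_lit 46891008) (nat_lit 91635712)) (I.pos (nat_lit 305020928) (nat_lit 423428096)) (I.mix (nat_lit 137756672) (nat_lit 73629696)) (I.mix (nat_lit 169328640) (nat_lit 104316928)) (I.mix (nat_lit 164921344) (nat_lit 120340480)))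
  false (nat_lit 34336616)
def b2_5 : Bx := Bx.mk (St.mk (I.neg (nat_lit 24068096) (nat_lit 120733696)) (I.pos (nat_lit 2670592) (nat_lit 95141888)) (I.neg (nat_lit 8601600) (nat_lit 91111424)) (I.pos (nat_lit 265109504) (nat_lit 332513280)) (I.mix (nat_lit 78757888) (nat_lit 104939520)) (I.mix (nat_lit 116948992) (nat_lit 68435968)) (I.mix (nat_lit 69550080) (nat_lit 94846976)))
  true (nat_lit 0)
def t2 : BTr := (BTr.n (BTr.n (BTr.b b2_0) (BTr.n (BTr.b b2_1) (BTr.b b2_2))) (BTr.n (BTr.b b2_3) (BTr.n (BTr.b b2_4) (BTr.b b2_5))))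
namespace T2
def l0 : Tr := Tr.L (Pth.l (Pth.l Pth.z))
def l1 : Tr := Tr.L (Pth.l (Pth.r (Pth.l Pth.z)))
def l2 : Tr := Tr.L (Pth.l (Pth.r (Pth.r Pth.z)))
def l3 : Tr := Tr.L (Pth.r (Pth.l Pth.z))
def l4 : Tr := Tr.L (Pth.r (Pth.r (Pth.l Pth.z)))
def l5 : Tr := Tr.L (Pth.r (Pth.r (Pth.r Pth.z)))
end T2
def b3_0 : Bx := Bx.mk (St.mk (I.pos (nat_lit 156942336) (nat_lit 283803648)) (I.mix (nat_lit 30064640) (nat_lit 53051392)) (I.mix (nat_lit 34177024) (nat_lit 116113408)) (I.pos (nat_lit 109740032) (nat_lit 343130112)) (I.mix (nat_lit 107544576) (nat_lit 82968576)) (I.mix (nat_lit 116998144) (nat_lit 84983808)) (I.mix (nat_lit 180813824) (nat_lit 114622464)))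
  false (nat_lit 34518744)
def b3_1 : Bx := Bx.mk (St.mk (I.pos (nat_lit 116850688) (nat_lit 172343296)) (I.neg (nat_lit 1949696) (nat_lit 65273856)) (I.mix (nat_lit 52068352) (nat_lit 15040512)) (I.pos (nat_lit 87359488) (nat_lit 144719872)) (I.mix (nat_lit 79659008) (nat_lit 45940736)) (I.mix (nat_lit 45645824) (nat_lit 68091904)) (I.mix (nat_lit 41533440) (nat_lit 65159168)))
  false (nat_lit 0)
def b3_2 : Bx := Bx.mk (St.mk (I.mix (nat_lit 13336576) (nat_lit 100089856)) (I.mix (nat_lit 29442048) (nat_lit 3801088)) (I.mix (nat_lit 11714560) (nat_lit 10944512)) (I.pos (nat_lit 16171008) (nat_lit 72417280)) (I.mix (nat_lit 24952832) (nat_lit 25755648)) (I.mix (nat_lit 18825216) (nat_lit 26279936)) (I.mix (nat_lit 10797056) (nat_lit 16973824)))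
  false (nat_lit 0)
def b3_3 : Bx := Bx.mk (St.mk (I.pos (nat_lit 158466048) (nat_lit 214335488)) (I.mix (nat_lit 44367872) (nat_lit 62308352)) (I.mix (nat_lit 27049984) (nat_lit 119717888)) (I.pos (nat_lit 118210560) (nat_lit 206143488)) (I.mix (nat_lit 140836864) (nat_lit 55820288)) (I.mix (nat_lit 178094080) (nat_lit 93716480)) (I.mix (nat_lit 231981056) (nat_lit 100499456)))
  false (nat_lit 30598810)
def b3_4 : Bx := Bx.mk (St.mk (I.mix (nat_lit 21331968) (nat_lit 121536512)) (I.mix (nat_lit 14991360) (nat_lit 34193408)) (I.mix (nat_lit 1916928) (nat_lit 35618816)) (I.pos (nat_lit 15810560) (nat_lit 89243648)) (I.mix (nat_lit 55377920) (nat_lit 23904256)) (I.mix (nat_lit 60014592) (nat_lit 34750464)) (I.mix (nat_lit 40894464) (nat_lit 21479424)))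
  false (nat_lit 0)
def b3_5 : Bx := Bx.mk (St.mk (I.mix (nat_lit 26443776) (nat_lit 102006784)) (I.mix (nat_lit 16023552) (nat_lit 4653056)) (I.mix (nat_lit 2228224) (nat_lit 12238848)) (I.pos (nat_lit 16580608) (nat_lit 74104832)) (I.mix (nat_lit 16187392) (nat_lit 9306112)) (I.mix (nat_lit 11468800) (nat_lit 11550720)) (I.mix (nat_lit 7749632) (nat_lit 6537216)))
  false (nat_lit 0)
def b3_6 : Bx := Bx.mk (St.mk (I.pos (nat_lit 141426688) (nat_lit 176701440)) (I.neg (nat_lit 1081344) (nat_lit 41615360)) (I.mix (nat_lit 22478848) (nat_lit 22183936)) (I.pos (nat_lit 102858752) (nat_lit 152043520)) (I.mix (nat_lit 44285952) (nat_lit 26951680)) (I.mix (nat_lit 29949952) (nat_lit 36601856)) (I.mix (nat_lit 37011456) (nat_lit 36896768)))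
  false (nat_lit 0)
def b3_7 : Bx := Bx.mk (St.mk (I.mix (nat_lit 14778368) (nat_lit 134201344)) (I.mix (nat_lit 9568256) (nat_lit 28491776)) (I.mix (nat_lit 1212416) (nat_lit 32571392)) (I.pos (nat_lit 14991360) (nat_lit 101892096)) (I.mix (nat_lit 41107456) (nat_lit 32604160)) (I.mix (nat_lit 45531136) (nat_lit 27262976)) (I.mix (nat_lit 36716544) (nat_lit 19677184)))
  false (nat_lit 0)
def b3_8 : Bx := Bx.mk (St.mk (I.pos (nat_lit 106856448) (nat_lit 160169984)) (I.mix (nat_lit 60538880) (nat_lit 9437184)) (I.mix (nat_lit 43974656) (nat_lit 16662528)) (I.pos (nat_lit 63094784) (nat_lit 129646592)) (I.mix (nat_lit 85590016) (nat_lit 34603008)) (I.mix (nat_lit 55689216) (nat_lit 96747520)) (I.mix (nat_lit 43712512) (nat_lit 75202560)))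
  false (nat_lit 0)
def b3_9 : Bx := Bx.mk (St.mk (I.mix (nat_lit 22904832) (nat_lit 94289920)) (I.mix (nat_lit 27738112) (nat_lit 4440064)) (I.mix (nat_lit 9846784) (nat_lit 7274496)) (I.pos (nat_lit 16433152) (nat_lit 68304896)) (I.mix (nat_lit 29474816) (nat_lit 18006016)) (I.mix (nat_lit 22200320) (nat_lit 35241984)) (I.mix (nat_lit 11223040) (nat_lit 17465344)))
  false (nat_lit 0)
def t3 : BTr := (BTr.n (BTr.n (BTr.n (BTr.b b3_0) (BTr.b b3_1)) (BTr.n (BTr.b b3_2) (BTr.n (BTr.b b3_3) (BTr.b b3_4)))) (BTr.n (BTr.n (BTr.b b3_5) (BTr.b b3_6)) (BTr.n (BTr.b b3_7) (BTr.n (BTr.b b3_8) (BTr.b b3_9)))))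
namespace T3
def l0 : Tr := Tr.L (Pth.l (Pth.l (Pth.l Pth.z)))
def l1 : Tr := Tr.L (Pth.l (Pth.l (Pth.r Pth.z)))
def l2 : Tr := Tr.L (Pth.l (Pth.r (Pth.l Pth.z)))
def l3 : Tr := Tr.L (Pth.l (Pth.r (Pth.r (Pth.l Pth.z))))
def l4 : Tr := Tr.L (Pth.l (Pth.r (Pth.r (Pth.r Pth.z))))
def l5 : Tr := Tr.L (Pth.r (Pth.l (Pth.l Pth.z)))
def l6 : Tr := Tr.L (Pth.r (Pth.l (Pth.r Pth.z)))
def l7 : Tr := Tr.L (Pth.r (Pth.r (Pth.l Pth.z)))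
def l8 : Tr := Tr.L (Pth.r (Pth.r (Pth.r (Pth.l Pth.z))))
def l9 : Tr := Tr.L (Pth.r (Pth.r (Pth.r (Pth.r Pth.z))))
end T3
def b4_0 : Bx := Bx.mk (St.mk (I.pos (nat_lit 137887744) (nat_lit 285556736)) (I.mix (nat_lit 27246592) (nat_lit 93061120)) (I.mix (nat_lit 121372672) (nat_lit 122093568)) (I.pos (nat_lit 360038400) (nat_lit 570949632)) (I.mix (nat_lit 133169152) (nat_lit 103858176)) (I.mix (nat_lit 140279808) (nat_lit 85622784)) (I.mix (nat_lit 198754304) (nat_lit 117702656)))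
  false (nat_lit 131769031)
def b4_1 : Bx := Bx.mk (St.mk (I.pos (nat_lit 31096832) (nat_lit 128335872)) (I.neg (nat_lit 4800512) (nat_lit 102285312)) (I.mix (nat_lit 68124672) (nat_lit 22855680)) (I.pos (nat_lit 267075584) (nat_lit 332840960)) (I.mix (nat_lit 98484224) (nat_lit 72318976)) (I.mix (nat_lit 77709312) (nat_lit 93831168)) (I.mix (nat_lit 70483968) (nat_lit 73678848)))
  false (nat_lit 0)
def b4_2 : Bx := Bx.mk (St.mk (I.pos (nat_lit 92061696) (nat_lit 189054976)) (I.mix (nat_lit 42303488) (nat_lit 101056512)) (I.mix (nat_lit 14401536) (nat_lit 128581632)) (I.pos (nat_lit 299827200) (nat_lit 408354816)) (I.mix (nat_lit 151781376) (nat_lit 66404352)) (I.mix (nat_lit 159694848) (nat_lit 103727104)) (I.mix (nat_lit 155385856) (nat_lit 126910464)))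
  false (nat_lit 96292505)
def b4_3 : Bx := Bx.mk (St.mk (I.neg (nat_lit 31080448) (nat_lit 128286720)) (I.mix (nat_lit 163840) (nat_lit 102285312)) (I.mix (nat_lit 68124672) (nat_lit 27770880)) (I.pos (nat_lit 267075584) (nat_lit 332857344)) (I.mix (nat_lit 72318976) (nat_lit 98500608)) (I.mix (nat_lit 93831168) (nat_lit 77709312)) (I.mix (nat_lit 70483968) (nat_lit 73678848)))
  true (nat_lit 0)
def b4_4 : Bx := Bx.mk (St.mk (I.mix (nat_lit 66486272) (nat_lit 10895360)) (I.mix (nat_lit 13991936) (nat_lit 94289920)) (I.neg (nat_lit 25903104) (nat_lit 48152576)) (I.pos (nat_lit 266584064) (nat_lit 291962880)) (I.mix (nat_lit 51396608) (nat_lit 86933504)) (I.mix (nat_lit 101515264) (nat_lit 64897024)) (I.mix (nat_lit 32653312) (nat_lit 26525696)))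
  true (nat_lit 0)
def b4_5 : Bx := Bx.mk (St.mk (I.mix (nat_lit 10895360) (nat_lit 66486272)) (I.mix (nat_lit 94289920) (nat_lit 13991936)) (I.neg (nat_lit 25919488) (nat_lit 48152576)) (I.pos (nat_lit 266584064) (nat_lit 291962880)) (I.mix (nat_lit 86933504) (nat_lit 51396608)) (I.mix (nat_lit 64897024) (nat_lit 101515264)) (I.mix (nat_lit 32718848) (nat_lit 26525696)))
  false (nat_lit 0)
def t4 : BTr := (BTr.n (BTr.n (BTr.b b4_0) (BTr.n (BTr.b b4_1) (BTr.b b4_2))) (BTr.n (BTr.b b4_3) (BTr.n (BTr.b b4_4) (BTr.b b4_5))))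
namespace T4
def l0 : Tr := Tr.L (Pth.l (Pth.l Pth.z))
def l1 : Tr := Tr.L (Pth.l (Pth.r (Pth.l Pth.z)))
def l2 : Tr := Tr.L (Pth.l (Pth.r (Pth.r Pth.z)))
def l3 : Tr := Tr.L (Pth.r (Pth.l Pth.z))
def l4 : Tr := Tr.L (Pth.r (Pth.r (Pth.l Pth.z)))
def l5 : Tr := Tr.L (Pth.r (Pth.r (Pth.r Pth.z)))
end T4
def b5_0 : Bx := Bx.mk (St.mk (I.pos (nat_lit 151961600) (nat_lit 280936448)) (I.mix (nat_lit 22659072) (nat_lit 60538880)) (I.mix (nat_lit 13631488) (nat_lit 130891776)) (I.pos (nat_lit 180224000) (nat_lit 383827968)) (I.mix (nat_lit 118882304) (nat_lit 86507520)) (I.mix (nat_lit 129957888) (nat_lit 88604672)) (I.mix (nat_lit 188678144) (nat_lit 109969408)))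
  false (nat_lit 60696513)
def b5_1 : Bx := Bx.mk (St.mk (I.pos (nat_lit 102809600) (nat_lit 160972800)) (I.neg (nat_lit 3981312) (nat_lit 70811648)) (I.mix (nat_lit 40763392) (nat_lit 34553856)) (I.pos (nat_lit 138100736) (nat_lit 183926784)) (I.mix (nat_lit 70680576) (nat_lit 47923200)) (I.mix (nat_lit 42926080) (nat_lit 58048512)) (I.mix (nat_lit 39206912) (nat_lit 51937280)))
  false (nat_lit 0)
def b5_2 : Bx := Bx.mk (St.mk (I.mix (nat_lit 24559616) (nat_lit 45662208)) (I.mix (nat_lit 37076992) (nat_lit 7323648)) (I.pos (nat_lit 2113536) (nat_lit 18006016)) (I.pos (nat_lit 83001344) (nat_lit 99237888)) (I.mix (nat_lit 21250048) (nat_lit 33718272)) (I.mix (nat_lit 23166976) (nat_lit 31588352)) (I.mix (nat_lit 8699904) (nat_lit 11796480)))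
  false (nat_lit 0)
def b5_3 : Bx := Bx.mk (St.mk (I.pos (nat_lit 146817024) (nat_lit 205488128)) (I.mix (nat_lit 43040768) (nat_lit 73105408)) (I.mix (nat_lit 8388608) (nat_lit 136151040)) (I.pos (nat_lit 171933696) (nat_lit 244236288)) (I.mix (nat_lit 165871616) (nat_lit 52527104)) (I.mix (nat_lit 184729600) (nat_lit 93601792)) (I.mix (nat_lit 206651392) (nat_lit 88899584)))
  false (nat_lit 59672676)
def b5_4 : Bx := Bx.mk (St.mk (I.mix (nat_lit 47284224) (nat_lit 68861952)) (I.mix (nat_lit 12959744) (nat_lit 39387136)) (I.pos (nat_lit 1753088) (nat_lit 30375936)) (I.pos (nat_lit 83001344) (nat_lit 107495424)) (I.mix (nat_lit 46776320) (nat_lit 22134784)) (I.mix (nat_lit 41140224) (nat_lit 29278208)) (I.mix (nat_lit 18071552) (nat_lit 13680640)))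
  false (nat_lit 0)
def b5_5 : Bx := Bx.mk (St.mk (I.pos (nat_lit 139132928) (nat_lit 159662080)) (I.neg (nat_lit 5029888) (nat_lit 35749888)) (I.mix (nat_lit 98304) (nat_lit 33292288)) (I.pos (nat_lit 163528704) (nat_lit 182910976)) (I.mix (nat_lit 34799616) (nat_lit 26918912)) (I.mix (nat_lit 23281664) (nat_lit 30752768)) (I.mix (nat_lit 27574272) (nat_lit 27115520)))
  false (nat_lit 0)
def b5_6 : Bx := Bx.mk (St.mk (I.mix (nat_lit 56705024) (nat_lit 46071808)) (I.mix (nat_lit 11599872) (nat_lit 12173312)) (I.pos (nat_lit 9093120) (nat_lit 19742720)) (I.pos (nat_lit 87097344) (nat_lit 101466112)) (I.mix (nat_lit 22151168) (nat_lit 17154048)) (I.mix (nat_lit 22478848) (nat_lit 18546688)) (I.mix (nat_lit 7438336) (nat_lit 8601600)))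
  false (nat_lit 0)
def b5_7 : Bx := Bx.mk (St.mk (I.mix (nat_lit 31129600) (nat_lit 96681984)) (I.mix (nat_lit 8683520) (nat_lit 38879232)) (I.pos (nat_lit 2490368) (nat_lit 35094528)) (I.pos (nat_lit 81969152) (nat_lit 123617280)) (I.mix (nat_lit 49315840) (nat_lit 35061760)) (I.mix (nat_lit 51593216) (nat_lit 33374208)) (I.mix (nat_lit 32718848) (nat_lit 22446080)))
  false (nat_lit 0)
def b5_8 : Bx := Bx.mk (St.mk (I.pos (nat_lit 82411520) (nat_lit 134479872)) (I.mix (nat_lit 68190208) (nat_lit 10321920)) (I.mix (nat_lit 33193984) (nat_lit 17727488)) (I.pos (nat_lit 115376128) (nat_lit 154927104)) (I.mix (nat_lit 72630272) (nat_lit 36634624)) (I.mix (nat_lit 56606720) (nat_lit 79101952)) (I.mix (nat_lit 37732352) (nat_lit 50954240)))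
  false (nat_lit 0)
def b5_9 : Bx := Bx.mk (St.mk (I.mix (nat_lit 46678016) (nat_lit 34242560)) (I.mix (nat_lit 35700736) (nat_lit 6930432)) (I.pos (nat_lit 3981312) (nat_lit 20316160)) (I.pos (nat_lit 81592320) (nat_lit 100319232)) (I.mix (nat_lit 29999104) (nat_lit 35061760)) (I.mix (nat_lit 27328512) (nat_lit 41893888)) (I.mix (nat_lit 15958016) (nat_lit 12779520)))
  false (nat_lit 0)
def t5 : BTr := (BTr.n (BTr.n (BTr.n (BTr.b b5_0) (BTr.b b5_1)) (BTr.n (BTr.b b5_2) (BTr.n (BTr.b b5_3) (BTr.b b5_4)))) (BTr.n (BTr.n (BTr.b b5_5) (BTr.b b5_6)) (BTr.n (BTr.b b5_7) (BTr.n (BTr.b b5_8) (BTr.b b5_9)))))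
namespace T5
def l0 : Tr := Tr.L (Pth.l (Pth.l (Pth.l Pth.z)))
def l1 : Tr := Tr.L (Pth.l (Pth.l (Pth.r Pth.z)))
def l2 : Tr := Tr.L (Pth.l (Pth.r (Pth.l Pth.z)))
def l3 : Tr := Tr.L (Pth.l (Pth.r (Pth.r (Pth.l Pth.z))))
def l4 : Tr := Tr.L (Pth.l (Pth.r (Pth.r (Pth.r Pth.z))))
def l5 : Tr := Tr.L (Pth.r (Pth.l (Pth.l Pth.z)))
def l6 : Tr := Tr.L (Pth.r (Pth.l (Pth.r Pth.z)))
def l7 : Tr := Tr.L (Pth.r (Pth.r (Pth.l Pth.z)))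
def l8 : Tr := Tr.L (Pth.r (Pth.r (Pth.r (Pth.l Pth.z))))
def l9 : Tr := Tr.L (Pth.r (Pth.r (Pth.r (Pth.r Pth.z))))
end T5
theorem bx0_0 : BoxOK sI cl4 cl6 cl9 t2 t4 b0_0 :=
  box_mk (TrL.c (I.pos (nat_lit 0) (nat_lit 0)) (xa (xb T2.l0 (xa T2.l0 T2.l0)) (xb T2.l0 (xa T2.l0 T2.l0)))
  (TrL.c (I.pos (nat_lit 0) (nat_lit 0)) T4.l1
  (TrL.c (I.pos (nat_lit 0) (nat_lit 0)) T2.l1
  (TrL.c (I.pos (nat_lit 0) (nat_lit 0)) (xa T4.l2 (xb (xa T4.l2 (xb T4.l2 T4.l2)) (xa T4.l2 (xs T4.l2 (xb T4.l2 T4.l2)))))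
  (TrL.c (I.pos (nat_lit 0) (nat_lit 0)) T2.l2
  (TrL.c (I.pos (nat_lit 0) (nat_lit 0)) T4.l3
  TrL.n)))))) (by decide +kernel)
theorem bx0_1 : BoxOK sI cl4 cl6 cl9 t2 t4 b0_1 :=
  box_mk (TrL.c (I.pos (nat_lit 0) (nat_lit 0)) T2.l0
  (TrL.c (I.pos (nat_lit 0) (nat_lit 0)) T4.l1
  (TrL.c (I.pos (nat_lit 0) (nat_lit 0)) T2.l1
  (TrL.c (I.pos (nat_lit 0) (nat_lit 0)) T4.l2
  (TrL.c (I.pos (nat_lit 0) (nat_lit 0)) T2.l2
  (TrL.c (I.pos (nat_lit 0) (nat_lit 0)) T4.l3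
  TrL.n)))))) (by decide +kernel)
theorem bx0_2 : BoxOK sI cl4 cl6 cl9 t2 t4 b0_2 :=
  box_mk (TrL.c (I.pos (nat_lit 0) (nat_lit 0)) T2.l0
  (TrL.c (I.pos (nat_lit 0) (nat_lit 0)) T4.l1
  (TrL.c (I.pos (nat_lit 0) (nat_lit 0)) T2.l1
  (TrL.c (I.pos (nat_lit 0) (nat_lit 0)) T4.l2
  (TrL.c (I.pos (nat_lit 0) (nat_lit 0)) T2.l2
  (TrL.c (I.pos (nat_lit 0) (nat_lit 0)) T4.l3
  TrL.n)))))) (by decide +kernel)
theorem bx0_3 : BoxOK sI cl4 cl6 cl9 t2 t4 b0_3 :=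
  box_mk (TrL.c (I.pos (nat_lit 0) (nat_lit 0)) (xa (xb T2.l0 T2.l0) T2.l0)
  (TrL.c (I.pos (nat_lit 0) (nat_lit 0)) T4.l2
  (TrL.c (I.pos (nat_lit 0) (nat_lit 0)) T2.l2
  (TrL.c (I.pos (nat_lit 0) (nat_lit 0)) T4.l1
  (TrL.c (I.pos (nat_lit 0) (nat_lit 0)) T2.l2
  (TrL.c (I.pos (nat_lit 0) (nat_lit 0)) T4.l3
  TrL.n)))))) (by decide +kernel)
theorem bx0_4 : BoxOK sI cl4 cl6 cl9 t2 t4 b0_4 :=
  box_mk (TrL.c (I.pos (nat_lit 0) (nat_lit 0)) T2.l0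
  (TrL.c (I.pos (nat_lit 0) (nat_lit 0)) T4.l1
  (TrL.c (I.pos (nat_lit 0) (nat_lit 0)) T2.l1
  (TrL.c (I.pos (nat_lit 0) (nat_lit 0)) T4.l2
  (TrL.c (I.pos (nat_lit 0) (nat_lit 0)) T2.l2
  (TrL.c (I.pos (nat_lit 0) (nat_lit 0)) T4.l3
  TrL.n)))))) (by decide +kernel)
theorem bx0_5 : BoxOK sI cl4 cl6 cl9 t2 t4 b0_5 :=
  box_mk (TrL.c (I.pos (nat_lit 0) (nat_lit 0)) T2.l0
  (TrL.c (I.pos (nat_lit 0) (nat_lit 0)) T4.l1
  (TrL.c (I.pos (nat_lit 0) (nat_lit 0)) T2.l1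
  (TrL.c (I.pos (nat_lit 0) (nat_lit 0)) T4.l2
  (TrL.c (I.pos (nat_lit 0) (nat_lit 0)) T2.l2
  (TrL.c (I.pos (nat_lit 0) (nat_lit 0)) T4.l3
  TrL.n)))))) (by decide +kernel)
theorem bx0_6 : BoxOK sI cl4 cl6 cl9 t2 t4 b0_6 :=
  box_mk (TrL.c (I.pos (nat_lit 0) (nat_lit 0)) T2.l0
  (TrL.c (I.pos (nat_lit 0) (nat_lit 0)) T4.l1
  (TrL.c (I.pos (nat_lit 0) (nat_lit 0)) T2.l1
  (TrL.c (I.pos (nat_lit 0) (nat_lit 0)) T4.l2
  (TrL.c (I.pos (nat_lit 0) (nat_lit 0)) T2.l2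
  (TrL.c (I.pos (nat_lit 0) (nat_lit 0)) T4.l3
  TrL.n)))))) (by decide +kernel)
theorem bx0_7 : BoxOK sI cl4 cl6 cl9 t2 t4 b0_7 :=
  box_mk (TrL.c (I.pos (nat_lit 0) (nat_lit 0)) (xa (xb T2.l0 T2.l0) T2.l0)
  (TrL.c (I.pos (nat_lit 0) (nat_lit 0)) T4.l1
  (TrL.c (I.pos (nat_lit 0) (nat_lit 0)) T2.l1
  (TrL.c (I.pos (nat_lit 0) (nat_lit 0)) T4.l2
  (TrL.c (I.pos (nat_lit 0) (nat_lit 0)) T2.l2
  (TrL.c (I.pos (nat_lit 0) (nat_lit 0)) T4.l3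
  TrL.n)))))) (by decide +kernel)
theorem bx0_8 : BoxOK sI cl4 cl6 cl9 t2 t4 b0_8 :=
  box_mk (TrL.c (I.pos (nat_lit 0) (nat_lit 0)) (xa (xa T2.l0 T2.l0) T2.l0)
  (TrL.c (I.pos (nat_lit 0) (nat_lit 0)) T4.l1
  (TrL.c (I.pos (nat_lit 0) (nat_lit 0)) T2.l1
  (TrL.c (I.pos (nat_lit 0) (nat_lit 0)) T4.l2
  (TrL.c (I.pos (nat_lit 0) (nat_lit 0)) T2.l2
  (TrL.c (I.pos (nat_lit 0) (nat_lit 0)) T4.l3
  TrL.n)))))) (by decide +kernel)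
theorem bx0_9 : BoxOK sI cl4 cl6 cl9 t2 t4 b0_9 :=
  box_mk (TrL.c (I.pos (nat_lit 0) (nat_lit 0)) (xb (xa T2.l0 T2.l0) (xa (xa T2.l0 T2.l0) T2.l0))
  (TrL.c (I.pos (nat_lit 0) (nat_lit 0)) T4.l1
  (TrL.c (I.pos (nat_lit 0) (nat_lit 0)) T2.l1
  (TrL.c (I.pos (nat_lit 0) (nat_lit 0)) (xb (xa T4.l2 T4.l2) (xa T4.l2 T4.l2))
  (TrL.c (I.pos (nat_lit 0) (nat_lit 0)) T2.l2
  (TrL.c (I.pos (nat_lit 0) (nat_lit 0)) T4.l3
  TrL.n)))))) (by decide +kernel)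
theorem sv0 : StarV sI cl4 cl6 cl9 t2 t4 t0 :=
  (bt_n (bt_n (bt_n (bt_b bx0_0) (bt_b bx0_1)) (bt_n (bt_b bx0_2) (bt_n (bt_b bx0_3) (bt_b bx0_4)))) (bt_n (bt_n (bt_b bx0_5) (bt_b bx0_6)) (bt_n (bt_b bx0_7) (bt_n (bt_b bx0_8) (bt_b bx0_9)))))
def S0 : StarD := StarD.mk cl4 cl6 cl9 2 4 t0
theorem bx1_0 : BoxOK sI cl4 cl9 cl6 t4 t2 b1_0 :=
  box_mk (TrL.c (I.pos (nat_lit 0) (nat_lit 0)) (xa (xb T4.l0 (xa T4.l0 T4.l0)) (xb T4.l0 (xa T4.l0 T4.l0)))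
  (TrL.c (I.pos (nat_lit 0) (nat_lit 0)) (xa T2.l3 T2.l3)
  (TrL.c (I.pos (nat_lit 0) (nat_lit 0)) T4.l4
  (TrL.c (I.pos (nat_lit 0) (nat_lit 0)) (xa T2.l4 (xb (xa T2.l4 T2.l4) (xa T2.l4 T2.l4)))
  (TrL.c (I.pos (nat_lit 0) (nat_lit 0)) T4.l5
  (TrL.c (I.pos (nat_lit 0) (nat_lit 0)) (xa T2.l5 T2.l5)
  TrL.n)))))) (by decide +kernel)
theorem bx1_1 : BoxOK sI cl4 cl9 cl6 t4 t2 b1_1 :=
  box_mk (TrL.c (I.pos (nat_lit 0) (nat_lit 0)) T4.l0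
  (TrL.c (I.pos (nat_lit 0) (nat_lit 0)) T2.l3
  (TrL.c (I.pos (nat_lit 0) (nat_lit 0)) T4.l4
  (TrL.c (I.pos (nat_lit 0) (nat_lit 0)) T2.l4
  (TrL.c (I.pos (nat_lit 0) (nat_lit 0)) T4.l5
  (TrL.c (I.pos (nat_lit 0) (nat_lit 0)) T2.l5
  TrL.n)))))) (by decide +kernel)
theorem bx1_2 : BoxOK sI cl4 cl9 cl6 t4 t2 b1_2 :=
  box_mk (TrL.c (I.pos (nat_lit 0) (nat_lit 0)) T4.l0
  (TrL.c (I.pos (nat_lit 0) (nat_lit 0)) T2.l3
  (TrL.c (I.pos (nat_lit 0) (nat_lit 0)) T4.l4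
  (TrL.c (I.pos (nat_lit 0) (nat_lit 0)) T2.l4
  (TrL.c (I.pos (nat_lit 0) (nat_lit 0)) T4.l5
  (TrL.c (I.pos (nat_lit 0) (nat_lit 0)) T2.l5
  TrL.n)))))) (by decide +kernel)
theorem bx1_3 : BoxOK sI cl4 cl9 cl6 t4 t2 b1_3 :=
  box_mk (TrL.c (I.pos (nat_lit 0) (nat_lit 0)) (xa T4.l0 T4.l0)
  (TrL.c (I.pos (nat_lit 0) (nat_lit 0)) T2.l3
  (TrL.c (I.pos (nat_lit 0) (nat_lit 0)) T4.l4
  (TrL.c (I.pos (nat_lit 0) (nat_lit 0)) T2.l4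
  (TrL.c (I.pos (nat_lit 0) (nat_lit 0)) T4.l5
  (TrL.c (I.pos (nat_lit 0) (nat_lit 0)) T2.l5
  TrL.n)))))) (by decide +kernel)
theorem bx1_4 : BoxOK sI cl4 cl9 cl6 t4 t2 b1_4 :=
  box_mk (TrL.c (I.pos (nat_lit 0) (nat_lit 0)) T4.l0
  (TrL.c (I.pos (nat_lit 0) (nat_lit 0)) T2.l3
  (TrL.c (I.pos (nat_lit 0) (nat_lit 0)) T4.l4
  (TrL.c (I.pos (nat_lit 0) (nat_lit 0)) T2.l4
  (TrL.c (I.pos (nat_lit 0) (nat_lit 0)) T4.l5
  (TrL.c (I.pos (nat_lit 0) (nat_lit 0)) T2.l5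
  TrL.n)))))) (by decide +kernel)
theorem bx1_5 : BoxOK sI cl4 cl9 cl6 t4 t2 b1_5 :=
  box_mk (TrL.c (I.pos (nat_lit 0) (nat_lit 0)) T4.l0
  (TrL.c (I.pos (nat_lit 0) (nat_lit 0)) T2.l3
  (TrL.c (I.pos (nat_lit 0) (nat_lit 0)) T4.l4
  (TrL.c (I.pos (nat_lit 0) (nat_lit 0)) T2.l4
  (TrL.c (I.pos (nat_lit 0) (nat_lit 0)) T4.l5
  (TrL.c (I.pos (nat_lit 0) (nat_lit 0)) T2.l5
  TrL.n)))))) (by decide +kernel)
theorem bx1_6 : BoxOK sI cl4 cl9 cl6 t4 t2 b1_6 :=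
  box_mk (TrL.c (I.pos (nat_lit 0) (nat_lit 0)) T4.l0
  (TrL.c (I.pos (nat_lit 0) (nat_lit 0)) T2.l3
  (TrL.c (I.pos (nat_lit 0) (nat_lit 0)) T4.l4
  (TrL.c (I.pos (nat_lit 0) (nat_lit 0)) T2.l4
  (TrL.c (I.pos (nat_lit 0) (nat_lit 0)) T4.l5
  (TrL.c (I.pos (nat_lit 0) (nat_lit 0)) T2.l5
  TrL.n)))))) (by decide +kernel)
theorem bx1_7 : BoxOK sI cl4 cl9 cl6 t4 t2 b1_7 :=
  box_mk (TrL.c (I.pos (nat_lit 0) (nat_lit 0)) (xa T4.l0 T4.l0)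
  (TrL.c (I.pos (nat_lit 0) (nat_lit 0)) T2.l3
  (TrL.c (I.pos (nat_lit 0) (nat_lit 0)) T4.l4
  (TrL.c (I.pos (nat_lit 0) (nat_lit 0)) T2.l4
  (TrL.c (I.pos (nat_lit 0) (nat_lit 0)) T4.l5
  (TrL.c (I.pos (nat_lit 0) (nat_lit 0)) T2.l5
  TrL.n)))))) (by decide +kernel)
theorem bx1_8 : BoxOK sI cl4 cl9 cl6 t4 t2 b1_8 :=
  box_mk (TrL.c (I.pos (nat_lit 0) (nat_lit 0)) (xa (xb T4.l0 (xa T4.l0 T4.l0)) (xb T4.l0 (xa T4.l0 T4.l0)))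
  (TrL.c (I.pos (nat_lit 0) (nat_lit 0)) T2.l3
  (TrL.c (I.pos (nat_lit 0) (nat_lit 0)) T4.l4
  (TrL.c (I.pos (nat_lit 0) (nat_lit 0)) (xb (xa T2.l4 T2.l4) (xa T2.l4 T2.l4))
  (TrL.c (I.pos (nat_lit 0) (nat_lit 0)) T4.l5
  (TrL.c (I.pos (nat_lit 0) (nat_lit 0)) T2.l5
  TrL.n)))))) (by decide +kernel)
theorem bx1_9 : BoxOK sI cl4 cl9 cl6 t4 t2 b1_9 :=
  box_mk (TrL.c (I.pos (nat_lit 0) (nat_lit 0)) (xa (xa T4.l0 T4.l0) T4.l0)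
  (TrL.c (I.pos (nat_lit 0) (nat_lit 0)) T2.l3
  (TrL.c (I.pos (nat_lit 0) (nat_lit 0)) T4.l4
  (TrL.c (I.pos (nat_lit 0) (nat_lit 0)) T2.l4
  (TrL.c (I.pos (nat_lit 0) (nat_lit 0)) T4.l5
  (TrL.c (I.pos (nat_lit 0) (nat_lit 0)) T2.l5
  TrL.n)))))) (by decide +kernel)
theorem sv1 : StarV sI cl4 cl9 cl6 t4 t2 t1 :=
  (bt_n (bt_n (bt_n (bt_b bx1_0) (bt_b bx1_1)) (bt_n (bt_b bx1_2) (bt_n (bt_b bx1_3) (bt_b bx1_4)))) (bt_n (bt_n (bt_b bx1_5) (bt_b bx1_6)) (bt_n (bt_b bx1_7) (bt_n (bt_b bx1_8) (bt_b bx1_9)))))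
def S1 : StarD := StarD.mk cl4 cl9 cl6 4 2 t1
theorem bx2_0 : BoxOK sI cl6 cl4 cl9 t0 t5 b2_0 :=
  box_mk (TrL.c (I.pos (nat_lit 0) (nat_lit 0)) (xa (xb T0.l0 T0.l0) (xb T0.l0 T0.l0))
  (TrL.c (I.pos (nat_lit 0) (nat_lit 0)) T5.l1
  (TrL.c (I.pos (nat_lit 0) (nat_lit 89480386)) (xR (xR T0.l1 T0.l1) (xR T0.l1 T0.l1))
  (TrL.c (I.pos (nat_lit 0) (nat_lit 41530880)) T5.l2
  (TrL.c (I.pos (nat_lit 0) (nat_lit 0)) (xa (xb T5.l3 T5.l3) (xb (xa T5.l3 T5.l3) (xa T5.l3 T5.l3)))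
  (TrL.c (I.pos (nat_lit 0) (nat_lit 0)) T0.l2
  (TrL.c (I.mix (nat_lit 41527258) (nat_lit 41530880)) (xR T5.l4 T5.l4)
  (TrL.c (I.mix (nat_lit 41527258) (nat_lit 4274)) T0.l3
  TrL.n)))))))) (by decide +kernel)
theorem bx2_1 : BoxOK sI cl6 cl4 cl9 t0 t5 b2_1 :=
  box_mk (TrL.c (I.pos (nat_lit 0) (nat_lit 0)) T5.l1
  (TrL.c (I.pos (nat_lit 0) (nat_lit 0)) T0.l1
  (TrL.c (I.mix (nat_lit 41527258) (nat_lit 41530880)) (xR T5.l6 T5.l4)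
  (TrL.c (I.mix (nat_lit 41527258) (nat_lit 4274)) T0.l5
  TrL.n)))) (by decide +kernel)
theorem bx2_2 : BoxOK sI cl6 cl4 cl9 t0 t5 b2_2 :=
  box_mk (TrL.c (I.pos (nat_lit 0) (nat_lit 0)) (xb (xa (xb (xs T0.l0 T0.l0) T0.l0) T0.l0) T0.l0)
  (TrL.c (I.pos (nat_lit 0) (nat_lit 0)) T5.l1
  (TrL.c (I.pos (nat_lit 0) (nat_lit 89480386)) T0.l1
  (TrL.c (I.pos (nat_lit 0) (nat_lit 41530880)) T5.l4
  (TrL.c (I.pos (nat_lit 0) (nat_lit 0)) T5.l3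
  (TrL.c (I.pos (nat_lit 0) (nat_lit 0)) T0.l2
  (TrL.c (I.mix (nat_lit 41527258) (nat_lit 41530880)) T5.l4
  (TrL.c (I.mix (nat_lit 41527258) (nat_lit 4274)) T0.l3
  TrL.n)))))))) (by decide +kernel)
theorem bx2_3 : BoxOK sI cl6 cl4 cl9 t0 t5 b2_3 :=
  box_mk (TrL.c (I.pos (nat_lit 0) (nat_lit 0)) (xa (xb (xa T0.l0 T0.l0) T0.l0) T0.l0)
  (TrL.c (I.pos (nat_lit 0) (nat_lit 0)) T5.l1
  (TrL.c (I.pos (nat_lit 0) (nat_lit 89480386)) (xR T0.l1 T0.l1)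
  (TrL.c (I.pos (nat_lit 0) (nat_lit 41530880)) T5.l2
  (TrL.c (I.pos (nat_lit 0) (nat_lit 0)) T5.l3
  (TrL.c (I.pos (nat_lit 0) (nat_lit 0)) T0.l2
  (TrL.c (I.mix (nat_lit 41527258) (nat_lit 41530880)) (xR T5.l4 T5.l4)
  (TrL.c (I.mix (nat_lit 41527258) (nat_lit 4274)) T0.l3
  TrL.n)))))))) (by decide +kernel)
theorem bx2_4 : BoxOK sI cl6 cl4 cl9 t0 t5 b2_4 :=
  box_mk (TrL.c (I.pos (nat_lit 0) (nat_lit 0)) (xb (xa T0.l0 T0.l0) (xa T0.l0 T0.l0))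
  (TrL.c (I.pos (nat_lit 0) (nat_lit 0)) T5.l1
  (TrL.c (I.pos (nat_lit 0) (nat_lit 89480386)) (xR T0.l1 T0.l1)
  (TrL.c (I.pos (nat_lit 0) (nat_lit 41530880)) T5.l2
  (TrL.c (I.pos (nat_lit 0) (nat_lit 0)) (xb T5.l0 T5.l3)
  (TrL.c (I.pos (nat_lit 0) (nat_lit 0)) T0.l2
  (TrL.c (I.mix (nat_lit 41527258) (nat_lit 41530880)) (xR T5.l4 T5.l4)
  (TrL.c (I.mix (nat_lit 41527258) (nat_lit 4274)) T0.l3
  TrL.n)))))))) (by decide +kernel)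
theorem bx2_5 : BoxOK sI cl6 cl4 cl9 t0 t5 b2_5 :=
  box_mk (TrL.c (I.pos (nat_lit 0) (nat_lit 0)) T5.l1
  (TrL.c (I.pos (nat_lit 0) (nat_lit 0)) T0.l1
  (TrL.c (I.mix (nat_lit 41527258) (nat_lit 41530880)) (xR T5.l6 T5.l2)
  (TrL.c (I.mix (nat_lit 41527258) (nat_lit 4274)) T0.l5
  TrL.n)))) (by decide +kernel)
theorem sv2 : StarV sI cl6 cl4 cl9 t0 t5 t2 :=
  (bt_n (bt_n (bt_b bx2_0) (bt_n (bt_b bx2_1) (bt_b bx2_2))) (bt_n (bt_b bx2_3) (bt_n (bt_b bx2_4) (bt_b bx2_5))))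
def S2 : StarD := StarD.mk cl6 cl4 cl9 0 5 t2
theorem bx3_0 : BoxOK sI cl6 cl9 cl4 t5 t0 b3_0 :=
  box_mk (TrL.c (I.pos (nat_lit 0) (nat_lit 0)) (xa (xa (xb T5.l0 T5.l0) (xb T5.l0 T5.l0)) (xa (xb (xs T5.l0 T5.l0) T5.l0) (xb (xs T5.l3 T5.l3) (xs T5.l3 T5.l3))))
  (TrL.c (I.pos (nat_lit 0) (nat_lit 0)) T0.l6
  (TrL.c (I.pos (nat_lit 0) (nat_lit 89480386)) (xR (xR T5.l7 T5.l7) (xR T5.l7 T5.l7))
  (TrL.c (I.pos (nat_lit 0) (nat_lit 41530880)) (xR T0.l7 T0.l7)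
  (TrL.c (I.pos (nat_lit 0) (nat_lit 0)) (xa T0.l9 (xb T0.l9 T0.l9))
  (TrL.c (I.pos (nat_lit 0) (nat_lit 0)) T5.l8
  (TrL.c (I.mix (nat_lit 41527258) (nat_lit 41530880)) (xR (xR T0.l8 T0.l8) (xR T0.l8 T0.l8))
  (TrL.c (I.mix (nat_lit 41527258) (nat_lit 4274)) T5.l9
  TrL.n)))))))) (by decide +kernel)
theorem bx3_1 : BoxOK sI cl6 cl9 cl4 t5 t0 b3_1 :=
  box_mk (TrL.c (I.pos (nat_lit 0) (nat_lit 0)) T5.l0
  (TrL.c (I.pos (nat_lit 0) (nat_lit 0)) T0.l6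
  (TrL.c (I.pos (nat_lit 0) (nat_lit 89480386)) (xR T5.l7 T5.l7)
  (TrL.c (I.pos (nat_lit 0) (nat_lit 41530880)) T0.l7
  (TrL.c (I.pos (nat_lit 0) (nat_lit 0)) T0.l9
  (TrL.c (I.pos (nat_lit 0) (nat_lit 0)) T5.l8
  (TrL.c (I.mix (nat_lit 41527258) (nat_lit 41530880)) T0.l8
  (TrL.c (I.mix (nat_lit 41527258) (nat_lit 4274)) T5.l9
  TrL.n)))))))) (by decide +kernel)
theorem bx3_2 : BoxOK sI cl6 cl9 cl4 t5 t0 b3_2 :=
  box_mk (TrL.c (I.pos (nat_lit 0) (nat_lit 0)) (xa T5.l0 T5.l0)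
  (TrL.c (I.pos (nat_lit 0) (nat_lit 0)) T0.l6
  (TrL.c (I.pos (nat_lit 0) (nat_lit 89480386)) T5.l7
  (TrL.c (I.pos (nat_lit 0) (nat_lit 41530880)) T0.l7
  (TrL.c (I.pos (nat_lit 0) (nat_lit 0)) T0.l9
  (TrL.c (I.pos (nat_lit 0) (nat_lit 0)) T5.l8
  (TrL.c (I.mix (nat_lit 41527258) (nat_lit 41530880)) (xR T0.l8 T0.l1)
  (TrL.c (I.mix (nat_lit 41527258) (nat_lit 4274)) T5.l9
  TrL.n)))))))) (by decide +kernel)
theorem bx3_3 : BoxOK sI cl6 cl9 cl4 t5 t0 b3_3 :=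
  box_mk (TrL.c (I.pos (nat_lit 0) (nat_lit 0)) (xb (xa T5.l0 T5.l0) (xa (xs T5.l0 T5.l0) T5.l0))
  (TrL.c (I.pos (nat_lit 0) (nat_lit 0)) T0.l6
  (TrL.c (I.pos (nat_lit 0) (nat_lit 89480386)) (xR T5.l7 (xR T5.l7 T5.l7))
  (TrL.c (I.pos (nat_lit 0) (nat_lit 41530880)) T0.l7
  (TrL.c (I.pos (nat_lit 0) (nat_lit 0)) (xb T0.l9 T0.l9)
  (TrL.c (I.pos (nat_lit 0) (nat_lit 0)) T5.l8
  (TrL.c (I.mix (nat_lit 41527258) (nat_lit 41530880)) (xR T0.l8 T0.l8)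
  (TrL.c (I.mix (nat_lit 41527258) (nat_lit 4274)) T5.l9
  TrL.n)))))))) (by decide +kernel)
theorem bx3_4 : BoxOK sI cl6 cl9 cl4 t5 t0 b3_4 :=
  box_mk (TrL.c (I.pos (nat_lit 0) (nat_lit 0)) (xa T5.l0 T5.l0)
  (TrL.c (I.pos (nat_lit 0) (nat_lit 0)) T0.l6
  (TrL.c (I.pos (nat_lit 0) (nat_lit 89480386)) (xR T5.l7 T5.l7)
  (TrL.c (I.pos (nat_lit 0) (nat_lit 41530880)) T0.l7
  (TrL.c (I.pos (nat_lit 0) (nat_lit 0)) T0.l9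
  (TrL.c (I.pos (nat_lit 0) (nat_lit 0)) T5.l8
  (TrL.c (I.mix (nat_lit 41527258) (nat_lit 41530880)) (xR T0.l8 T0.l1)
  (TrL.c (I.mix (nat_lit 41527258) (nat_lit 4274)) T5.l9
  TrL.n)))))))) (by decide +kernel)
theorem bx3_5 : BoxOK sI cl6 cl9 cl4 t5 t0 b3_5 :=
  box_mk (TrL.c (I.pos (nat_lit 0) (nat_lit 0)) (xa T5.l0 T5.l0)
  (TrL.c (I.pos (nat_lit 0) (nat_lit 0)) T0.l6
  (TrL.c (I.pos (nat_lit 0) (nat_lit 89480386)) T5.l7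
  (TrL.c (I.pos (nat_lit 0) (nat_lit 41530880)) T0.l7
  (TrL.c (I.pos (nat_lit 0) (nat_lit 0)) T0.l9
  (TrL.c (I.pos (nat_lit 0) (nat_lit 0)) T5.l8
  (TrL.c (I.mix (nat_lit 41527258) (nat_lit 41530880)) (xR T0.l8 T0.l1)
  (TrL.c (I.mix (nat_lit 41527258) (nat_lit 4274)) T5.l9
  TrL.n)))))))) (by decide +kernel)
theorem bx3_6 : BoxOK sI cl6 cl9 cl4 t5 t0 b3_6 :=
  box_mk (TrL.c (I.pos (nat_lit 0) (nat_lit 0)) T5.l0
  (TrL.c (I.pos (nat_lit 0) (nat_lit 0)) T0.l6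
  (TrL.c (I.pos (nat_lit 0) (nat_lit 89480386)) (xR T5.l7 T5.l7)
  (TrL.c (I.pos (nat_lit 0) (nat_lit 41530880)) T0.l7
  (TrL.c (I.pos (nat_lit 0) (nat_lit 0)) T0.l9
  (TrL.c (I.pos (nat_lit 0) (nat_lit 0)) T5.l8
  (TrL.c (I.mix (nat_lit 41527258) (nat_lit 41530880)) T0.l8
  (TrL.c (I.mix (nat_lit 41527258) (nat_lit 4274)) T5.l9
  TrL.n)))))))) (by decide +kernel)
theorem bx3_7 : BoxOK sI cl6 cl9 cl4 t5 t0 b3_7 :=
  box_mk (TrL.c (I.pos (nat_lit 0) (nat_lit 0)) (xa T5.l0 T5.l0)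
  (TrL.c (I.pos (nat_lit 0) (nat_lit 0)) T0.l6
  (TrL.c (I.pos (nat_lit 0) (nat_lit 89480386)) (xR T5.l7 T5.l7)
  (TrL.c (I.pos (nat_lit 0) (nat_lit 41530880)) T0.l7
  (TrL.c (I.pos (nat_lit 0) (nat_lit 0)) T0.l9
  (TrL.c (I.pos (nat_lit 0) (nat_lit 0)) T5.l8
  (TrL.c (I.mix (nat_lit 41527258) (nat_lit 41530880)) (xR T0.l8 T0.l1)
  (TrL.c (I.mix (nat_lit 41527258) (nat_lit 4274)) T5.l9
  TrL.n)))))))) (by decide +kernel)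
theorem bx3_8 : BoxOK sI cl6 cl9 cl4 t5 t0 b3_8 :=
  box_mk (TrL.c (I.pos (nat_lit 0) (nat_lit 0)) T5.l0
  (TrL.c (I.pos (nat_lit 0) (nat_lit 0)) T0.l6
  (TrL.c (I.pos (nat_lit 0) (nat_lit 89480386)) (xR T5.l7 T5.l7)
  (TrL.c (I.pos (nat_lit 0) (nat_lit 41530880)) T0.l7
  (TrL.c (I.pos (nat_lit 0) (nat_lit 0)) T0.l9
  (TrL.c (I.pos (nat_lit 0) (nat_lit 0)) T5.l8
  (TrL.c (I.mix (nat_lit 41527258) (nat_lit 41530880)) T0.l8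
  (TrL.c (I.mix (nat_lit 41527258) (nat_lit 4274)) T5.l9
  TrL.n)))))))) (by decide +kernel)
theorem bx3_9 : BoxOK sI cl6 cl9 cl4 t5 t0 b3_9 :=
  box_mk (TrL.c (I.pos (nat_lit 0) (nat_lit 0)) (xa (xa T5.l0 T5.l0) T5.l0)
  (TrL.c (I.pos (nat_lit 0) (nat_lit 0)) T0.l6
  (TrL.c (I.pos (nat_lit 0) (nat_lit 89480386)) T5.l7
  (TrL.c (I.pos (nat_lit 0) (nat_lit 41530880)) T0.l7
  (TrL.c (I.pos (nat_lit 0) (nat_lit 0)) T0.l9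
  (TrL.c (I.pos (nat_lit 0) (nat_lit 0)) T5.l8
  (TrL.c (I.mix (nat_lit 41527258) (nat_lit 41530880)) (xR T0.l8 T0.l1)
  (TrL.c (I.mix (nat_lit 41527258) (nat_lit 4274)) T5.l9
  TrL.n)))))))) (by decide +kernel)
theorem sv3 : StarV sI cl6 cl9 cl4 t5 t0 t3 :=
  (bt_n (bt_n (bt_n (bt_b bx3_0) (bt_b bx3_1)) (bt_n (bt_b bx3_2) (bt_n (bt_b bx3_3) (bt_b bx3_4)))) (bt_n (bt_n (bt_b bx3_5) (bt_b bx3_6)) (bt_n (bt_b bx3_7) (bt_n (bt_b bx3_8) (bt_b bx3_9)))))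
def S3 : StarD := StarD.mk cl6 cl9 cl4 5 0 t3
theorem bx4_0 : BoxOK sI cl9 cl4 cl6 t1 t3 b4_0 :=
  box_mk (TrL.c (I.pos (nat_lit 0) (nat_lit 0)) (xa (xb T1.l0 (xa T1.l0 T1.l0)) (xa T1.l0 T1.l0))
  (TrL.c (I.pos (nat_lit 0) (nat_lit 0)) T3.l1
  (TrL.c (I.pos (nat_lit 0) (nat_lit 124588530)) (xR T1.l1 (xR T1.l1 T1.l9))
  (TrL.c (I.pos (nat_lit 0) (nat_lit 96881482)) (xR T3.l2 (xR T3.l2 T3.l2))
  (TrL.c (I.pos (nat_lit 0) (nat_lit 0)) (xa (xb T3.l0 T3.l3) (xb (xk (xa T3.l3 T3.l3) (xa T3.l3 T3.l3)) (xk (xa T3.l3 (xs T3.l3 (xb T3.l3 (xs T3.l3 T3.l3)))) (xa T3.l3 (xs T3.l3 (xb T3.l3 (xs T3.l3 T3.l3)))))))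
  (TrL.c (I.pos (nat_lit 0) (nat_lit 0)) T1.l2
  (TrL.c (I.mix (nat_lit 17240550) (nat_lit 96881482)) (xR T3.l4 (xR T3.l4 T3.l4))
  (TrL.c (I.mix (nat_lit 17240550) (nat_lit 71940500)) (xR T1.l3 T1.l3)
  TrL.n)))))))) (by decide +kernel)
theorem bx4_1 : BoxOK sI cl9 cl4 cl6 t1 t3 b4_1 :=
  box_mk (TrL.c (I.pos (nat_lit 0) (nat_lit 0)) (xa T1.l0 T1.l0)
  (TrL.c (I.pos (nat_lit 0) (nat_lit 0)) T3.l1
  (TrL.c (I.pos (nat_lit 0) (nat_lit 124588530)) (xR T1.l1 (xR T1.l1 T1.l1))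
  (TrL.c (I.pos (nat_lit 0) (nat_lit 96881482)) (xR T3.l2 T3.l2)
  (TrL.c (I.pos (nat_lit 0) (nat_lit 0)) T3.l3
  (TrL.c (I.pos (nat_lit 0) (nat_lit 0)) T1.l2
  (TrL.c (I.mix (nat_lit 17240550) (nat_lit 96881482)) (xR T3.l4 T3.l4)
  (TrL.c (I.mix (nat_lit 17240550) (nat_lit 71940500)) T1.l9
  TrL.n)))))))) (by decide +kernel)
theorem bx4_2 : BoxOK sI cl9 cl4 cl6 t1 t3 b4_2 :=
  box_mk (TrL.c (I.pos (nat_lit 0) (nat_lit 0)) (xa (xb T1.l0 T1.l0) (xb T1.l0 T1.l0))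
  (TrL.c (I.pos (nat_lit 0) (nat_lit 0)) T3.l1
  (TrL.c (I.pos (nat_lit 0) (nat_lit 124588530)) (xR T1.l1 (xR T1.l1 T1.l1))
  (TrL.c (I.pos (nat_lit 0) (nat_lit 96881482)) (xR T3.l2 T3.l2)
  (TrL.c (I.pos (nat_lit 0) (nat_lit 0)) (xb T3.l3 T3.l3)
  (TrL.c (I.pos (nat_lit 0) (nat_lit 0)) T1.l2
  (TrL.c (I.mix (nat_lit 17240550) (nat_lit 96881482)) T3.l4
  (TrL.c (I.mix (nat_lit 17240550) (nat_lit 71940500)) T1.l3
  TrL.n)))))))) (by decide +kernel)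
theorem bx4_3 : BoxOK sI cl9 cl4 cl6 t1 t3 b4_3 :=
  box_mk (TrL.c (I.pos (nat_lit 0) (nat_lit 0)) T3.l1
  (TrL.c (I.pos (nat_lit 0) (nat_lit 0)) T1.l1
  (TrL.c (I.mix (nat_lit 17240550) (nat_lit 96881482)) (xR T3.l5 (xR T3.l5 T3.l2))
  (TrL.c (I.mix (nat_lit 17240550) (nat_lit 71940500)) (xR T1.l9 T1.l1)
  TrL.n)))) (by decide +kernel)
theorem bx4_4 : BoxOK sI cl9 cl4 cl6 t1 t3 b4_4 :=
  box_mk (TrL.c (I.pos (nat_lit 0) (nat_lit 0)) T3.l6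
  (TrL.c (I.pos (nat_lit 0) (nat_lit 0)) T1.l1
  (TrL.c (I.mix (nat_lit 17240550) (nat_lit 96881482)) (xR T3.l5 T3.l4)
  (TrL.c (I.mix (nat_lit 17240550) (nat_lit 71940500)) T1.l9
  TrL.n)))) (by decide +kernel)
theorem bx4_5 : BoxOK sI cl9 cl4 cl6 t1 t3 b4_5 :=
  box_mk (TrL.c (I.pos (nat_lit 0) (nat_lit 0)) (xb (xa T1.l0 T1.l0) T1.l0)
  (TrL.c (I.pos (nat_lit 0) (nat_lit 0)) T3.l6
  (TrL.c (I.pos (nat_lit 0) (nat_lit 124588530)) (xR T1.l1 (xR T1.l1 T1.l1))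
  (TrL.c (I.pos (nat_lit 0) (nat_lit 96881482)) T3.l4
  (TrL.c (I.pos (nat_lit 0) (nat_lit 0)) T3.l3
  (TrL.c (I.pos (nat_lit 0) (nat_lit 0)) T1.l2
  (TrL.c (I.mix (nat_lit 17240550) (nat_lit 96881482)) T3.l4
  (TrL.c (I.mix (nat_lit 17240550) (nat_lit 71940500)) T1.l9
  TrL.n)))))))) (by decide +kernel)
theorem sv4 : StarV sI cl9 cl4 cl6 t1 t3 t4 :=
  (bt_n (bt_n (bt_b bx4_0) (bt_n (bt_b bx4_1) (bt_b bx4_2))) (bt_n (bt_b bx4_3) (bt_n (bt_b bx4_4) (bt_b bx4_5))))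
def S4 : StarD := StarD.mk cl9 cl4 cl6 1 3 t4
theorem bx5_0 : BoxOK sI cl9 cl6 cl4 t3 t1 b5_0 :=
  box_mk (TrL.c (I.pos (nat_lit 0) (nat_lit 0)) (xa (xa T3.l0 (xb T3.l0 T3.l0)) (xa (xb T3.l0 T3.l0) (xb T3.l0 T3.l0)))
  (TrL.c (I.pos (nat_lit 0) (nat_lit 0)) T1.l6
  (TrL.c (I.pos (nat_lit 0) (nat_lit 124588530)) (xR T3.l4 (xR T3.l7 T3.l7))
  (TrL.c (I.pos (nat_lit 0) (nat_lit 96881482)) (xR T1.l7 (xR T1.l7 T1.l7))
  (TrL.c (I.pos (nat_lit 0) (nat_lit 0)) (xa (xa T1.l8 T1.l8) (xk (xa T1.l8 (xb T1.l8 T1.l8)) (xa T1.l8 (xb T1.l8 (xs T1.l8 (xb T1.l8 T1.l8))))))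
  (TrL.c (I.pos (nat_lit 0) (nat_lit 0)) T3.l8
  (TrL.c (I.mix (nat_lit 17240550) (nat_lit 96881482)) (xR T1.l9 (xR T1.l9 T1.l9))
  (TrL.c (I.mix (nat_lit 17240550) (nat_lit 71940500)) (xR T3.l9 T3.l9)
  TrL.n)))))))) (by decide +kernel)
theorem bx5_1 : BoxOK sI cl9 cl6 cl4 t3 t1 b5_1 :=
  box_mk (TrL.c (I.pos (nat_lit 0) (nat_lit 0)) T3.l0
  (TrL.c (I.pos (nat_lit 0) (nat_lit 0)) T1.l6
  (TrL.c (I.pos (nat_lit 0) (nat_lit 124588530)) (xR T3.l7 T3.l7)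
  (TrL.c (I.pos (nat_lit 0) (nat_lit 96881482)) (xR T1.l7 T1.l7)
  (TrL.c (I.pos (nat_lit 0) (nat_lit 0)) T1.l8
  (TrL.c (I.pos (nat_lit 0) (nat_lit 0)) T3.l8
  (TrL.c (I.mix (nat_lit 17240550) (nat_lit 96881482)) (xR T1.l9 T1.l9)
  (TrL.c (I.mix (nat_lit 17240550) (nat_lit 71940500)) T3.l4
  TrL.n)))))))) (by decide +kernel)
theorem bx5_2 : BoxOK sI cl9 cl6 cl4 t3 t1 b5_2 :=
  box_mk (TrL.c (I.pos (nat_lit 0) (nat_lit 0)) T3.l0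
  (TrL.c (I.pos (nat_lit 0) (nat_lit 0)) T1.l6
  (TrL.c (I.pos (nat_lit 0) (nat_lit 124588530)) T3.l7
  (TrL.c (I.pos (nat_lit 0) (nat_lit 96881482)) T1.l9
  (TrL.c (I.pos (nat_lit 0) (nat_lit 0)) T1.l8
  (TrL.c (I.pos (nat_lit 0) (nat_lit 0)) T3.l8
  (TrL.c (I.mix (nat_lit 17240550) (nat_lit 96881482)) T1.l9
  (TrL.c (I.mix (nat_lit 17240550) (nat_lit 71940500)) T3.l9
  TrL.n)))))))) (by decide +kernel)
theorem bx5_3 : BoxOK sI cl9 cl6 cl4 t3 t1 b5_3 :=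
  box_mk (TrL.c (I.pos (nat_lit 0) (nat_lit 0)) (xb (xa T3.l0 T3.l0) (xa (xs T3.l0 T3.l0) T3.l0))
  (TrL.c (I.pos (nat_lit 0) (nat_lit 0)) T1.l6
  (TrL.c (I.pos (nat_lit 0) (nat_lit 124588530)) (xR T3.l7 (xR T3.l7 T3.l7))
  (TrL.c (I.pos (nat_lit 0) (nat_lit 96881482)) (xR T1.l7 (xR T1.l7 T1.l7))
  (TrL.c (I.pos (nat_lit 0) (nat_lit 0)) (xb T1.l8 (xb T1.l8 T1.l8))
  (TrL.c (I.pos (nat_lit 0) (nat_lit 0)) T3.l8
  (TrL.c (I.mix (nat_lit 17240550) (nat_lit 96881482)) (xR T1.l9 (xR T1.l9 T1.l9))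
  (TrL.c (I.mix (nat_lit 17240550) (nat_lit 71940500)) (xR T3.l9 T3.l9)
  TrL.n)))))))) (by decide +kernel)
theorem bx5_4 : BoxOK sI cl9 cl6 cl4 t3 t1 b5_4 :=
  box_mk (TrL.c (I.pos (nat_lit 0) (nat_lit 0)) (xa T3.l0 T3.l0)
  (TrL.c (I.pos (nat_lit 0) (nat_lit 0)) T1.l6
  (TrL.c (I.pos (nat_lit 0) (nat_lit 124588530)) T3.l7
  (TrL.c (I.pos (nat_lit 0) (nat_lit 96881482)) (xR T1.l7 T1.l7)
  (TrL.c (I.pos (nat_lit 0) (nat_lit 0)) T1.l8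
  (TrL.c (I.pos (nat_lit 0) (nat_lit 0)) T3.l8
  (TrL.c (I.mix (nat_lit 17240550) (nat_lit 96881482)) (xR T1.l9 T1.l9)
  (TrL.c (I.mix (nat_lit 17240550) (nat_lit 71940500)) T3.l9
  TrL.n)))))))) (by decide +kernel)
theorem bx5_5 : BoxOK sI cl9 cl6 cl4 t3 t1 b5_5 :=
  box_mk (TrL.c (I.pos (nat_lit 0) (nat_lit 0)) T3.l0
  (TrL.c (I.pos (nat_lit 0) (nat_lit 0)) T1.l6
  (TrL.c (I.pos (nat_lit 0) (nat_lit 124588530)) (xR T3.l7 T3.l7)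
  (TrL.c (I.pos (nat_lit 0) (nat_lit 96881482)) (xR T1.l7 T1.l7)
  (TrL.c (I.pos (nat_lit 0) (nat_lit 0)) T1.l8
  (TrL.c (I.pos (nat_lit 0) (nat_lit 0)) T3.l8
  (TrL.c (I.mix (nat_lit 17240550) (nat_lit 96881482)) T1.l9
  (TrL.c (I.mix (nat_lit 17240550) (nat_lit 71940500)) T3.l9
  TrL.n)))))))) (by decide +kernel)
theorem bx5_6 : BoxOK sI cl9 cl6 cl4 t3 t1 b5_6 :=
  box_mk (TrL.c (I.pos (nat_lit 0) (nat_lit 0)) T3.l0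
  (TrL.c (I.pos (nat_lit 0) (nat_lit 0)) T1.l6
  (TrL.c (I.pos (nat_lit 0) (nat_lit 124588530)) T3.l7
  (TrL.c (I.pos (nat_lit 0) (nat_lit 96881482)) T1.l9
  (TrL.c (I.pos (nat_lit 0) (nat_lit 0)) T1.l8
  (TrL.c (I.pos (nat_lit 0) (nat_lit 0)) T3.l8
  (TrL.c (I.mix (nat_lit 17240550) (nat_lit 96881482)) (xR T1.l9 T1.l9)
  (TrL.c (I.mix (nat_lit 17240550) (nat_lit 71940500)) T3.l5
  TrL.n)))))))) (by decide +kernel)
theorem bx5_7 : BoxOK sI cl9 cl6 cl4 t3 t1 b5_7 :=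
  box_mk (TrL.c (I.pos (nat_lit 0) (nat_lit 0)) (xa T3.l0 T3.l0)
  (TrL.c (I.pos (nat_lit 0) (nat_lit 0)) T1.l6
  (TrL.c (I.pos (nat_lit 0) (nat_lit 124588530)) T3.l7
  (TrL.c (I.pos (nat_lit 0) (nat_lit 96881482)) (xR T1.l7 T1.l7)
  (TrL.c (I.pos (nat_lit 0) (nat_lit 0)) T1.l8
  (TrL.c (I.pos (nat_lit 0) (nat_lit 0)) T3.l8
  (TrL.c (I.mix (nat_lit 17240550) (nat_lit 96881482)) T1.l9
  (TrL.c (I.mix (nat_lit 17240550) (nat_lit 71940500)) T3.l9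
  TrL.n)))))))) (by decide +kernel)
theorem bx5_8 : BoxOK sI cl9 cl6 cl4 t3 t1 b5_8 :=
  box_mk (TrL.c (I.pos (nat_lit 0) (nat_lit 0)) T3.l0
  (TrL.c (I.pos (nat_lit 0) (nat_lit 0)) T1.l6
  (TrL.c (I.pos (nat_lit 0) (nat_lit 124588530)) (xR T3.l7 T3.l7)
  (TrL.c (I.pos (nat_lit 0) (nat_lit 96881482)) T1.l7
  (TrL.c (I.pos (nat_lit 0) (nat_lit 0)) T1.l8
  (TrL.c (I.pos (nat_lit 0) (nat_lit 0)) T3.l8
  (TrL.c (I.mix (nat_lit 17240550) (nat_lit 96881482)) T1.l9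
  (TrL.c (I.mix (nat_lit 17240550) (nat_lit 71940500)) T3.l9
  TrL.n)))))))) (by decide +kernel)
theorem bx5_9 : BoxOK sI cl9 cl6 cl4 t3 t1 b5_9 :=
  box_mk (TrL.c (I.pos (nat_lit 0) (nat_lit 0)) (xa (xa T3.l0 T3.l0) T3.l0)
  (TrL.c (I.pos (nat_lit 0) (nat_lit 0)) T1.l6
  (TrL.c (I.pos (nat_lit 0) (nat_lit 124588530)) T3.l7
  (TrL.c (I.pos (nat_lit 0) (nat_lit 96881482)) T1.l9
  (TrL.c (I.pos (nat_lit 0) (nat_lit 0)) T1.l6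
  (TrL.c (I.pos (nat_lit 0) (nat_lit 0)) T3.l8
  (TrL.c (I.mix (nat_lit 17240550) (nat_lit 96881482)) (xR T1.l9 T1.l9)
  (TrL.c (I.mix (nat_lit 17240550) (nat_lit 71940500)) T3.l4
  TrL.n)))))))) (by decide +kernel)
theorem sv5 : StarV sI cl9 cl6 cl4 t3 t1 t5 :=
  (bt_n (bt_n (bt_n (bt_b bx5_0) (bt_b bx5_1)) (bt_n (bt_b bx5_2) (bt_n (bt_b bx5_3) (bt_b bx5_4)))) (bt_n (bt_n (bt_b bx5_5) (bt_b bx5_6)) (bt_n (bt_b bx5_7) (bt_n (bt_b bx5_8) (bt_b bx5_9)))))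
def S5 : StarD := StarD.mk cl9 cl6 cl4 3 1 t5
def G : List StarD := [S0, S1, S2, S3, S4, S5]
theorem so0 : StarOK sI G S0 :=
  star_mk (by decide) (by decide) rfl rfl rfl rfl rfl rfl (rfl : _ = t2) (rfl : _ = t4)
  (st_mk (Pth.l (Pth.l (Pth.l Pth.z))) (nat_lit 191236072) (nat_lit 193384382) (by decide +kernel))
  (st_mk (Pth.l (Pth.l (Pth.l Pth.z))) (nat_lit 228313587) (nat_lit 231420421) (by decide +kernel))
  (st_mk (Pth.l (Pth.l (Pth.l Pth.z))) (nat_lit 271613764) (nat_lit 276090576) (by decide +kernel)) sv0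
theorem so1 : StarOK sI G S1 :=
  star_mk (by decide) (by decide) rfl rfl rfl rfl rfl rfl (rfl : _ = t4) (rfl : _ = t2)
  (st_mk (Pth.l (Pth.l (Pth.l Pth.z))) (nat_lit 117629643) (nat_lit 137420772) (by decide +kernel))
  (st_mk (Pth.l (Pth.l (Pth.l Pth.z))) (nat_lit 154345024) (nat_lit 175070684) (by decide +kernel))
  (st_mk (Pth.l (Pth.l (Pth.l Pth.z))) (nat_lit 195483281) (nat_lit 221315403) (by decide +kernel)) sv1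
theorem so2 : StarOK sI G S2 :=
  star_mk (by decide) (by decide) rfl rfl rfl rfl rfl rfl (rfl : _ = t0) (rfl : _ = t5)
  (st_mk (Pth.l (Pth.l Pth.z)) (nat_lit 371514711) (nat_lit 374143658) (by decide +kernel))
  (st_mk (Pth.l (Pth.l Pth.z)) (nat_lit 407730110) (nat_lit 410909612) (by decide +kernel))
  (st_mk (Pth.l (Pth.l Pth.z)) (nat_lit 449676110) (nat_lit 453563015) (by decide +kernel)) sv2
theorem so3 : StarOK sI G S3 :=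
  star_mk (by decide) (by decide) rfl rfl rfl rfl rfl rfl (rfl : _ = t5) (rfl : _ = t0)
  (st_mk (Pth.l (Pth.l (Pth.l Pth.z))) (nat_lit 116340963) (nat_lit 135181094) (by decide +kernel))
  (st_mk (Pth.l (Pth.l (Pth.l Pth.z))) (nat_lit 152118466) (nat_lit 171393003) (by decide +kernel))
  (st_mk (Pth.l (Pth.l (Pth.l Pth.z))) (nat_lit 193700869) (nat_lit 213584819) (by decide +kernel)) sv3
theorem so4 : StarOK sI G S4 :=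
  star_mk (by decide) (by decide) rfl rfl rfl rfl rfl rfl (rfl : _ = t1) (rfl : _ = t3)
  (st_mk (Pth.l (Pth.l Pth.z)) (nat_lit 366546814) (nat_lit 369597252) (by decide +kernel))
  (st_mk (Pth.l (Pth.l Pth.z)) (nat_lit 401795491) (nat_lit 405357508) (by decide +kernel))
  (st_mk (Pth.l (Pth.l Pth.z)) (nat_lit 441970750) (nat_lit 447258163) (by decide +kernel)) sv4
theorem so5 : StarOK sI G S5 :=
  star_mk (by decide) (by decide) rfl rfl rfl rfl rfl rfl (rfl : _ = t3) (rfl : _ = t1)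
  (st_mk (Pth.l (Pth.l (Pth.l Pth.z))) (nat_lit 186527705) (nat_lit 188054494) (by decide +kernel))
  (st_mk (Pth.l (Pth.l (Pth.l Pth.z))) (nat_lit 221706489) (nat_lit 223644293) (by decide +kernel))
  (st_mk (Pth.l (Pth.l (Pth.l Pth.z))) (nat_lit 262358372) (nat_lit 264862395) (by decide +kernel)) sv5
theorem ok : GroupOK (nat_lit 0) (nat_lit 91291648) G := grp_mk (allS_c so0 (allS_c so1 (allS_c so2 (allS_c so3 (allS_c so4 (allS_c so5 allS_n))))))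
theorem cov : GCov G cl4 cl6 cl9 := cov_mk
  ⟨0, by decide, rfl, rfl, rfl⟩ ⟨1, by decide, rfl, rfl, rfl⟩ ⟨2, by decide, rfl, rfl, rfl⟩ ⟨3, by decide, rfl, rfl, rfl⟩ ⟨4, by decide, rfl, rfl, rfl⟩ ⟨5, by decide, rfl, rfl, rfl⟩
end Q135_0


end Pool.Agent.Helper6.MONO
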