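import Pool.Agent.Helper6.MONO.Asm

/-!
Certificate data (generated).
-/

set_option autoImplicit false
set_option linter.all false
noncomputable section
namespace Pool.Agent.Helper6.MONO


namespace Q135_1
def sI : I := I.pos (nat_lit 91226112) (nat_lit 150339584)
def b0_0 : Bx := Bx.mk (St.mk (I.pos (nat_lit 156221440) (nat_lit 237010944)) (I.mix (nat_lit 4669440) (nat_lit 77774848)) (I.mix (nat_lit 13565952) (nat_lit 68485120)) (I.pos (nat_lit 185565184) (nat_lit 311902208)) (I.mix (nat_lit 103415808) (nat_lit 73695232)) (I.mix (nat_lit 72925184) (nat_lit 68419584)) (I.mix (nat_lit 110264320) (nat_lit 105267200)))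
  false (nat_lit 36810378)
def b0_1 : Bx := Bx.mk (St.mk (I.mix (nat_lit 32030720) (nat_lit 98762752)) (I.mix (nat_lit 10665984) (nat_lit 40615936)) (I.neg (nat_lit 16384) (nat_lit 34258944)) (I.pos (nat_lit 79921152) (nat_lit 124583936)) (I.mix (nat_lit 40239104) (nat_lit 53739520)) (I.mix (nat_lit 47775744) (nat_lit 31817728)) (I.mix (nat_lit 31260672) (nat_lit 23576576)))
  false (nat_lit 0)
def b0_2 : Bx := Bx.mk (St.mk (I.pos (nat_lit 80445440) (nat_lit 118849536)) (I.mix (nat_lit 57163776) (nat_lit 13139968)) (I.neg (nat_lit 16842752) (nat_lit 70680576)) (I.pos (nat_lit 111525888) (nat_lit 142819328)) (I.mix (nat_lit 84606976) (nat_lit 40517632)) (I.mix (nat_lit 39632896) (nat_lit 80805888)) (I.mix (nat_lit 27426816) (nat_lit 59686912)))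
  false (nat_lit 0)
def b0_3 : Bx := Bx.mk (St.mk (I.mix (nat_lit 48021504) (nat_lit 28672000)) (I.mix (nat_lit 34635776) (nat_lit 8536064)) (I.neg (nat_lit 8126464) (nat_lit 25264128)) (I.pos (nat_lit 81690624) (nat_lit 101416960)) (I.mix (nat_lit 43728896) (nat_lit 29163520)) (I.mix (nat_lit 22708224) (nat_lit 36241408)) (I.mix (nat_lit 14073856) (nat_lit 10502144)))
  false (nat_lit 0)
def b0_4 : Bx := Bx.mk (St.mk (I.pos (nat_lit 74924032) (nat_lit 91799552)) (I.mix (nat_lit 11911168) (nat_lit 10600448)) (I.neg (nat_lit 17055744) (nat_lit 35209216)) (I.pos (nat_lit 109346816) (nat_lit 122437632)) (I.mix (nat_lit 33374208) (nat_lit 24346624)) (I.mix (nat_lit 25411584) (nat_lit 23183360)) (I.mix (nat_lit 16269312) (nat_lit 19038208)))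
  false (nat_lit 0)
def b0_5 : Bx := Bx.mk (St.mk (I.mix (nat_lit 59572224) (nat_lit 7503872)) (I.mix (nat_lit 10338304) (nat_lit 15024128)) (I.neg (nat_lit 15040512) (nat_lit 28360704)) (I.pos (nat_lit 86228992) (nat_lit 102694912)) (I.mix (nat_lit 28590080) (nat_lit 25509888)) (I.mix (nat_lit 25198592) (nat_lit 24330240)) (I.mix (nat_lit 9814016) (nat_lit 12058624)))
  false (nat_lit 0)
def b0_6 : Bx := Bx.mk (St.mk (I.pos (nat_lit 215056384) (nat_lit 261734400)) (I.mix (nat_lit 19496960) (nat_lit 20348928)) (I.neg (nat_lit 32817152) (nat_lit 113967104)) (I.pos (nat_lit 280379392) (nat_lit 360497152)) (I.mix (nat_lit 96108544) (nat_lit 28868608)) (I.mix (nat_lit 62767104) (nat_lit 65748992)) (I.mix (nat_lit 96911360) (nat_lit 133611520)))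
  false (nat_lit 0)
def b0_7 : Bx := Bx.mk (St.mk (I.pos (nat_lit 186564608) (nat_lit 254656512)) (I.mix (nat_lit 24182784) (nat_lit 75415552)) (I.mix (nat_lit 114802688) (nat_lit 64946176)) (I.pos (nat_lit 253820928) (nat_lit 339968000)) (I.mix (nat_lit 116211712) (nat_lit 88571904)) (I.mix (nat_lit 93929472) (nat_lit 88195072)) (I.mix (nat_lit 160153600) (nat_lit 170819584)))
  false (nat_lit 41952880)
def b0_8 : Bx := Bx.mk (St.mk (I.pos (nat_lit 74956800) (nat_lit 162168832)) (I.mix (nat_lit 63078400) (nat_lit 2916352)) (I.neg (nat_lit 17317888) (nat_lit 80003072)) (I.pos (nat_lit 115048448) (nat_lit 189775872)) (I.mix (nat_lit 91176960) (nat_lit 52166656)) (I.mix (nat_lit 44924928) (nat_lit 76726272)) (I.mix (nat_lit 29409280) (nat_lit 69287936)))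
  false (nat_lit 0)
def b0_9 : Bx := Bx.mk (St.mk (I.mix (nat_lit 43433984) (nat_lit 50937856)) (I.mix (nat_lit 36601856) (nat_lit 9568256)) (I.neg (nat_lit 8159232) (nat_lit 29458432)) (I.pos (nat_lit 79429632) (nat_lit 103170048)) (I.mix (nat_lit 39419904) (nat_lit 34193408)) (I.mix (nat_lit 25133056) (nat_lit 41631744)) (I.mix (nat_lit 11812864) (nat_lit 17612800)))
  false (nat_lit 0)
def b0_10 : Bx := Bx.mk (St.mk (I.pos (nat_lit 157810688) (nat_lit 220200960)) (I.mix (nat_lit 6193152) (nat_lit 68091904)) (I.mix (nat_lit 19349504) (nat_lit 62930944)) (I.pos (nat_lit 202752000) (nat_lit 275398656)) (I.mix (nat_lit 113180672) (nat_lit 49889280)) (I.mix (nat_lit 117456896) (nat_lit 71942144)) (I.mix (nat_lit 103759872) (nat_lit 64061440)))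
  false (nat_lit 24858095)
def b0_11 : Bx := Bx.mk (St.mk (I.mix (nat_lit 52068352) (nat_lit 63422464)) (I.mix (nat_lit 12926976) (nat_lit 36798464)) (I.neg (nat_lit 6094848) (nat_lit 29573120)) (I.pos (nat_lit 79380480) (nat_lit 104218624)) (I.mix (nat_lit 32210944) (nat_lit 39419904)) (I.mix (nat_lit 39141376) (nat_lit 25133056)) (I.mix (nat_lit 11812864) (nat_lit 16433152)))
  false (nat_lit 0)
def b0_12 : Bx := Bx.mk (St.mk (I.pos (nat_lit 131563520) (nat_lit 200359936)) (I.mix (nat_lit 44302336) (nat_lit 16318464)) (I.mix (nat_lit 68976640) (nat_lit 1687552)) (I.pos (nat_lit 160448512) (nat_lit 238305280)) (I.mix (nat_lit 69369856) (nat_lit 63946752)) (I.mix (nat_lit 69124096) (nat_lit 64487424)) (I.mix (nat_lit 65978368) (nat_lit 56639488)))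
  false (nat_lit 0)
def b0_13 : Bx := Bx.mk (St.mk (I.pos (nat_lit 163381248) (nat_lit 203636736)) (I.mix (nat_lit 14467072) (nat_lit 39337984)) (I.mix (nat_lit 33832960) (nat_lit 31375360)) (I.pos (nat_lit 206618624) (nat_lit 244514816)) (I.mix (nat_lit 105054208) (nat_lit 80609280)) (I.mix (nat_lit 126517248) (nat_lit 78577664)) (I.mix (nat_lit 123568128) (nat_lit 66371584)))
  false (nat_lit 0)
def t0 : BTr := (BTr.n (BTr.n (BTr.n (BTr.b b0_0) (BTr.n (BTr.b b0_1) (BTr.b b0_2))) (BTr.n (BTr.n (BTr.b b0_3) (BTr.b b0_4)) (BTr.n (BTr.b b0_5) (BTr.b b0_6)))) (BTr.n (BTr.n (BTr.b b0_7) (BTr.n (BTr.b b0_8) (BTr.b b0_9))) (BTr.n (BTr.n (BTr.b b0_10) (BTr.b b0_11)) (BTr.n (BTr.b b0_12) (BTr.b b0_13)))))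
namespace T0
def l0 : Tr := Tr.L (Pth.l (Pth.l (Pth.l Pth.z)))
def l1 : Tr := Tr.L (Pth.l (Pth.l (Pth.r (Pth.l Pth.z))))
def l2 : Tr := Tr.L (Pth.l (Pth.l (Pth.r (Pth.r Pth.z))))
def l3 : Tr := Tr.L (Pth.l (Pth.r (Pth.l (Pth.l Pth.z))))
def l4 : Tr := Tr.L (Pth.l (Pth.r (Pth.l (Pth.r Pth.z))))
def l5 : Tr := Tr.L (Pth.l (Pth.r (Pth.r (Pth.l Pth.z))))
def l6 : Tr := Tr.L (Pth.l (Pth.r (Pth.r (Pth.r Pth.z))))
def l7 : Tr := Tr.L (Pth.r (Pth.l (Pth.l Pth.z)))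
def l8 : Tr := Tr.L (Pth.r (Pth.l (Pth.r (Pth.l Pth.z))))
def l9 : Tr := Tr.L (Pth.r (Pth.l (Pth.r (Pth.r Pth.z))))
def l10 : Tr := Tr.L (Pth.r (Pth.r (Pth.l (Pth.l Pth.z))))
def l11 : Tr := Tr.L (Pth.r (Pth.r (Pth.l (Pth.r Pth.z))))
def l12 : Tr := Tr.L (Pth.r (Pth.r (Pth.r (Pth.l Pth.z))))
def l13 : Tr := Tr.L (Pth.r (Pth.r (Pth.r (Pth.r Pth.z))))
end T0
def b1_0 : Bx := Bx.mk (St.mk (I.pos (nat_lit 155860992) (nat_lit 243253248)) (I.mix (nat_lit 3817472) (nat_lit 62816256)) (I.mix (nat_lit 4997120) (nat_lit 83558400)) (I.pos (nat_lit 110477312) (nat_lit 261308416)) (I.mix (nat_lit 107053056) (nat_lit 76939264)) (I.mix (nat_lit 82280448) (nat_lit 73154560)) (I.mix (nat_lit 125239296) (nat_lit 105725952)))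
  false (nat_lit 0)
def b1_1 : Bx := Bx.mk (St.mk (I.mix (nat_lit 24051712) (nat_lit 136658944)) (I.mix (nat_lit 8110080) (nat_lit 31342592)) (I.mix (nat_lit 19906560) (nat_lit 15171584)) (I.pos (nat_lit 11845632) (nat_lit 100810752)) (I.mix (nat_lit 35127296) (nat_lit 42516480)) (I.mix (nat_lit 38469632) (nat_lit 27820032)) (I.mix (nat_lit 30818304) (nat_lit 20643840)))
  false (nat_lit 0)
def b1_2 : Bx := Bx.mk (St.mk (I.pos (nat_lit 105725952) (nat_lit 150929408)) (I.mix (nat_lit 54149120) (nat_lit 11829248)) (I.neg (nat_lit 802816) (nat_lit 65536000)) (I.pos (nat_lit 61767680) (nat_lit 121815040)) (I.mix (nat_lit 95256576) (nat_lit 38731776)) (I.mix (nat_lit 42434560) (nat_lit 88276992)) (I.mix (nat_lit 30720000) (nat_lit 75972608)))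
  false (nat_lit 0)
def b1_3 : Bx := Bx.mk (St.mk (I.mix (nat_lit 23642112) (nat_lit 93650944)) (I.mix (nat_lit 27262976) (nat_lit 5521408)) (I.mix (nat_lit 23756800) (nat_lit 245760)) (I.pos (nat_lit 14942208) (nat_lit 68026368)) (I.mix (nat_lit 37928960) (nat_lit 17891328)) (I.mix (nat_lit 17530880) (nat_lit 36175872)) (I.mix (nat_lit 9764864) (nat_lit 19218432)))
  false (nat_lit 0)
def b1_4 : Bx := Bx.mk (St.mk (I.pos (nat_lit 189972480) (nat_lit 253657088)) (I.mix (nat_lit 19759104) (nat_lit 62603264)) (I.mix (nat_lit 68960256) (nat_lit 82591744)) (I.pos (nat_lit 188694528) (nat_lit 280641536)) (I.mix (nat_lit 104890368) (nat_lit 85098496)) (I.mix (nat_lit 96796672) (nat_lit 76873728)) (I.mix (nat_lit 158482432) (nat_lit 129794048)))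
  false (nat_lit 0)
def b1_5 : Bx := Bx.mk (St.mk (I.mix (nat_lit 30064640) (nat_lit 82182144)) (I.mix (nat_lit 4489216) (nat_lit 6160384)) (I.neg (nat_lit 966656) (nat_lit 9289728)) (I.pos (nat_lit 15384576) (nat_lit 60588032)) (I.mix (nat_lit 11976704) (nat_lit 8470528)) (I.mix (nat_lit 9076736) (nat_lit 8568832)) (I.mix (nat_lit 2506752) (nat_lit 2441216)))
  false (nat_lit 0)
def b1_6 : Bx := Bx.mk (St.mk (I.pos (nat_lit 101351424) (nat_lit 126156800)) (I.mix (nat_lit 10108928) (nat_lit 8699904)) (I.neg (nat_lit 2244608) (nat_lit 21725184)) (I.pos (nat_lit 59572224) (nat_lit 97419264)) (I.mix (nat_lit 31342592) (nat_lit 19546112)) (I.mix (nat_lit 20971520) (nat_lit 22331392)) (I.mix (nat_lit 17072128) (nat_lit 20447232)))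
  false (nat_lit 0)
def b1_7 : Bx := Bx.mk (St.mk (I.pos (nat_lit 214695936) (nat_lit 261062656)) (I.mix (nat_lit 19021824) (nat_lit 20676608)) (I.neg (nat_lit 131072) (nat_lit 74366976)) (I.pos (nat_lit 216973312) (nat_lit 302956544)) (I.mix (nat_lit 92536832) (nat_lit 29523968)) (I.mix (nat_lit 56410112) (nat_lit 58818560)) (I.mix (nat_lit 92602368) (nat_lit 112181248)))
  false (nat_lit 0)
def b1_8 : Bx := Bx.mk (St.mk (I.pos (nat_lit 95830016) (nat_lit 183894016)) (I.mix (nat_lit 61030400) (nat_lit 7962624)) (I.neg (nat_lit 6193152) (nat_lit 67715072)) (I.pos (nat_lit 70631424) (nat_lit 165003264)) (I.mix (nat_lit 93798400) (nat_lit 46923776)) (I.mix (nat_lit 49676288) (nat_lit 72646656)) (I.mix (nat_lit 42123264) (nat_lit 69681152)))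
  false (nat_lit 0)
def b1_9 : Bx := Bx.mk (St.mk (I.mix (nat_lit 25165824) (nat_lit 109101056)) (I.mix (nat_lit 31604736) (nat_lit 7454720)) (I.mix (nat_lit 27426816) (nat_lit 770048)) (I.pos (nat_lit 12828672) (nat_lit 79085568)) (I.mix (nat_lit 39682048) (nat_lit 27688960)) (I.mix (nat_lit 22528000) (nat_lit 31571968)) (I.mix (nat_lit 13844480) (nat_lit 20496384)))
  false (nat_lit 0)
def b1_10 : Bx := Bx.mk (St.mk (I.pos (nat_lit 168165376) (nat_lit 221347840)) (I.mix (nat_lit 18989056) (nat_lit 59326464)) (I.mix (nat_lit 19283968) (nat_lit 77905920)) (I.pos (nat_lit 132153344) (nat_lit 223854592)) (I.mix (nat_lit 130531328) (nat_lit 52510720)) (I.mix (nat_lit 138182656) (nat_lit 71663616)) (I.mix (nat_lit 154157056) (nat_lit 79118336)))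
  false (nat_lit 0)
def b1_11 : Bx := Bx.mk (St.mk (I.mix (nat_lit 29982720) (nat_lit 134414336)) (I.mix (nat_lit 15450112) (nat_lit 37847040)) (I.mix (nat_lit 17743872) (nat_lit 20774912)) (I.pos (nat_lit 13172736) (nat_lit 97845248)) (I.mix (nat_lit 50855936) (nat_lit 32653312)) (I.mix (nat_lit 46645248) (nat_lit 31686656)) (I.mix (nat_lit 27328512) (nat_lit 19136512)))
  false (nat_lit 0)
def b1_12 : Bx := Bx.mk (St.mk (I.pos (nat_lit 140197888) (nat_lit 207454208)) (I.mix (nat_lit 43040768) (nat_lit 10944512)) (I.mix (nat_lit 57950208) (nat_lit 9617408)) (I.pos (nat_lit 102219776) (nat_lit 198541312)) (I.mix (nat_lit 61849600) (nat_lit 53772288)) (I.mix (nat_lit 59457536) (nat_lit 57704448)) (I.mix (nat_lit 64274432) (nat_lit 59801600)))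
  false (nat_lit 0)
def b1_13 : Bx := Bx.mk (St.mk (I.pos (nat_lit 168280064) (nat_lit 210059264)) (I.mix (nat_lit 25247744) (nat_lit 34406400)) (I.mix (nat_lit 30064640) (nat_lit 43909120)) (I.pos (nat_lit 133431296) (nat_lit 204046336)) (I.mix (nat_lit 97353728) (nat_lit 63406080)) (I.mix (nat_lit 105627648) (nat_lit 68452352)) (I.mix (nat_lit 117784576) (nat_lit 72302592)))
  false (nat_lit 0)
def t1 : BTr := (BTr.n (BTr.n (BTr.n (BTr.b b1_0) (BTr.n (BTr.b b1_1) (BTr.b b1_2))) (BTr.n (BTr.n (BTr.b b1_3) (BTr.b b1_4)) (BTr.n (BTr.b b1_5) (BTr.b b1_6)))) (BTr.n (BTr.n (BTr.b b1_7) (BTr.n (BTr.b b1_8) (BTr.b b1_9))) (BTr.n (BTr.n (BTr.b b1_10) (BTr.b b1_11)) (BTr.n (BTr.b b1_12) (BTr.b b1_13)))))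
namespace T1
def l0 : Tr := Tr.L (Pth.l (Pth.l (Pth.l Pth.z)))
def l1 : Tr := Tr.L (Pth.l (Pth.l (Pth.r (Pth.l Pth.z))))
def l2 : Tr := Tr.L (Pth.l (Pth.l (Pth.r (Pth.r Pth.z))))
def l3 : Tr := Tr.L (Pth.l (Pth.r (Pth.l (Pth.l Pth.z))))
def l4 : Tr := Tr.L (Pth.l (Pth.r (Pth.l (Pth.r Pth.z))))
def l5 : Tr := Tr.L (Pth.l (Pth.r (Pth.r (Pth.l Pth.z))))
def l6 : Tr := Tr.L (Pth.l (Pth.r (Pth.r (Pth.r Pth.z))))
def l7 : Tr := Tr.L (Pth.r (Pth.l (Pth.l Pth.z)))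
def l8 : Tr := Tr.L (Pth.r (Pth.l (Pth.r (Pth.l Pth.z))))
def l9 : Tr := Tr.L (Pth.r (Pth.l (Pth.r (Pth.r Pth.z))))
def l10 : Tr := Tr.L (Pth.r (Pth.r (Pth.l (Pth.l Pth.z))))
def l11 : Tr := Tr.L (Pth.r (Pth.r (Pth.l (Pth.r Pth.z))))
def l12 : Tr := Tr.L (Pth.r (Pth.r (Pth.r (Pth.l Pth.z))))
def l13 : Tr := Tr.L (Pth.r (Pth.r (Pth.r (Pth.r Pth.z))))
end T1
def b2_0 : Bx := Bx.mk (St.mk (I.pos (nat_lit 140509184) (nat_lit 220823552)) (I.mix (nat_lit 6291456) (nat_lit 106610688)) (I.mix (nat_lit 5521408) (nat_lit 93011968)) (I.pos (nat_lit 367951872) (nat_lit 462684160)) (I.mix (nat_lit 147111936) (nat_lit 94552064)) (I.mix (nat_lit 101318656) (nat_lit 93388800)) (I.mix (nat_lit 116867072) (nat_lit 118784000)))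
  false (nat_lit 64084385)
def b2_1 : Bx := Bx.mk (St.mk (I.mix (nat_lit 57507840) (nat_lit 19595264)) (I.mix (nat_lit 23838720) (nat_lit 93519872)) (I.neg (nat_lit 50872320) (nat_lit 76316672)) (I.pos (nat_lit 262995968) (nat_lit 290979840)) (I.mix (nat_lit 47366144) (nat_lit 108920832)) (I.mix (nat_lit 82788352) (nat_lit 65585152)) (I.mix (nat_lit 40517632) (nat_lit 34160640)))
  true (nat_lit 0)
def b2_2 : Bx := Bx.mk (St.mk (I.pos (nat_lit 10469376) (nat_lit 55803904)) (I.neg (nat_lit 28999680) (nat_lit 90521600)) (I.neg (nat_lit 51249152) (nat_lit 76300288)) (I.pos (nat_lit 267321344) (nat_lit 290734080)) (I.mix (nat_lit 108937216) (nat_lit 47562752)) (I.mix (nat_lit 65585152) (nat_lit 82788352)) (I.mix (nat_lit 40517632) (nat_lit 34160640)))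
  false (nat_lit 23793030)
def b2_3 : Bx := Bx.mk (St.mk (I.pos (nat_lit 12812288) (nat_lit 126664704)) (I.mix (nat_lit 100515840) (nat_lit 3440640)) (I.neg (nat_lit 4915200) (nat_lit 95485952)) (I.pos (nat_lit 259702784) (nat_lit 337608704)) (I.mix (nat_lit 131284992) (nat_lit 77955072)) (I.mix (nat_lit 80363520) (nat_lit 95600640)) (I.mix (nat_lit 81887232) (nat_lit 80068608)))
  false (nat_lit 60574426)
def b2_4 : Bx := Bx.mk (St.mk (I.pos (nat_lit 88899584) (nat_lit 194510848)) (I.mix (nat_lit 50921472) (nat_lit 98697216)) (I.mix (nat_lit 56246272) (nat_lit 92028928)) (I.pos (nat_lit 298303488) (nat_lit 427442176)) (I.mix (nat_lit 155926528) (nat_lit 76627968)) (I.mix (nat_lit 148586496) (nat_lit 107839488)) (I.mix (nat_lit 145145856) (nat_lit 128090112)))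
  false (nat_lit 53173136)
def b2_5 : Bx := Bx.mk (St.mk (I.neg (nat_lit 12812288) (nat_lit 126664704)) (I.mix (nat_lit 3440640) (nat_lit 100532224)) (I.neg (nat_lit 4915200) (nat_lit 95485952)) (I.pos (nat_lit 259686400) (nat_lit 337608704)) (I.mix (nat_lit 77955072) (nat_lit 131301376)) (I.mix (nat_lit 95617024) (nat_lit 80396288)) (I.mix (nat_lit 81887232) (nat_lit 80084992)))
  true (nat_lit 0)
def b2_6 : Bx := Bx.mk (St.mk (I.pos (nat_lit 177733632) (nat_lit 292306944)) (I.mix (nat_lit 41910272) (nat_lit 62701568)) (I.mix (nat_lit 211369984) (nat_lit 21102592)) (I.pos (nat_lit 405094400) (nat_lit 593494016)) (I.mix (nat_lit 86753280) (nat_lit 66502656)) (I.mix (nat_lit 70860800) (nat_lit 69238784)) (I.mix (nat_lit 121978880) (nat_lit 150077440)))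
  false (nat_lit 18190610)
def b2_7 : Bx := Bx.mk (St.mk (I.mix (nat_lit 18792448) (nat_lit 42778624)) (I.mix (nat_lit 46923776) (nat_lit 21741568)) (I.neg (nat_lit 51511296) (nat_lit 64929792)) (I.pos (nat_lit 263864320) (nat_lit 278462464)) (I.mix (nat_lit 49643520) (nat_lit 42221568)) (I.mix (nat_lit 40992768) (nat_lit 41123840)) (I.mix (nat_lit 11108352) (nat_lit 15515648)))
  false (nat_lit 0)
def b2_8 : Bx := Bx.mk (St.mk (I.pos (nat_lit 158482432) (nat_lit 223690752)) (I.pos (nat_lit 15433728) (nat_lit 97419264)) (I.mix (nat_lit 42598400) (nat_lit 79314944)) (I.pos (nat_lit 400130048) (nat_lit 458276864)) (I.mix (nat_lit 114884608) (nat_lit 83886080)) (I.mix (nat_lit 92438528) (nat_lit 67010560)) (I.mix (nat_lit 136839168) (nat_lit 98926592)))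
  false (nat_lit 35059837)
def b2_9 : Bx := Bx.mk (St.mk (I.pos (nat_lit 17367040) (nat_lit 45809664)) (I.neg (nat_lit 18825216) (nat_lit 58441728)) (I.neg (nat_lit 52920320) (nat_lit 67502080)) (I.pos (nat_lit 267059200) (nat_lit 281690112)) (I.mix (nat_lit 50331648) (nat_lit 37732352)) (I.mix (nat_lit 37961728) (nat_lit 40108032)) (I.mix (nat_lit 13434880) (nat_lit 16007168)))
  false (nat_lit 0)
def t2 : BTr := (BTr.n (BTr.n (BTr.n (BTr.b b2_0) (BTr.b b2_1)) (BTr.n (BTr.b b2_2) (BTr.n (BTr.b b2_3) (BTr.b b2_4)))) (BTr.n (BTr.n (BTr.b b2_5) (BTr.b b2_6)) (BTr.n (BTr.b b2_7) (BTr.n (BTr.b b2_8) (BTr.b b2_9)))))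
namespace T2
def l0 : Tr := Tr.L (Pth.l (Pth.l (Pth.l Pth.z)))
def l1 : Tr := Tr.L (Pth.l (Pth.l (Pth.r Pth.z)))
def l2 : Tr := Tr.L (Pth.l (Pth.r (Pth.l Pth.z)))
def l3 : Tr := Tr.L (Pth.l (Pth.r (Pth.r (Pth.l Pth.z))))
def l4 : Tr := Tr.L (Pth.l (Pth.r (Pth.r (Pth.r Pth.z))))
def l5 : Tr := Tr.L (Pth.r (Pth.l (Pth.l Pth.z)))
def l6 : Tr := Tr.L (Pth.r (Pth.l (Pth.r Pth.z)))
def l7 : Tr := Tr.L (Pth.r (Pth.r (Pth.l Pth.z)))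
def l8 : Tr := Tr.L (Pth.r (Pth.r (Pth.r (Pth.l Pth.z))))
def l9 : Tr := Tr.L (Pth.r (Pth.r (Pth.r (Pth.r Pth.z))))
end T2
def b3_0 : Bx := Bx.mk (St.mk (I.pos (nat_lit 156205056) (nat_lit 237338624)) (I.mix (nat_lit 3211264) (nat_lit 51986432)) (I.mix (nat_lit 6864896) (nat_lit 116572160)) (I.pos (nat_lit 109969408) (nat_lit 237289472)) (I.mix (nat_lit 110116864) (nat_lit 61800448)) (I.mix (nat_lit 92995584) (nat_lit 69746688)) (I.mix (nat_lit 133201920) (nat_lit 92684288)))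
  false (nat_lit 0)
def b3_1 : Bx := Bx.mk (St.mk (I.pos (nat_lit 109805568) (nat_lit 175013888)) (I.mix (nat_lit 62504960) (nat_lit 1294336)) (I.mix (nat_lit 48939008) (nat_lit 17809408)) (I.pos (nat_lit 82329600) (nat_lit 146948096)) (I.mix (nat_lit 80003072) (nat_lit 59850752)) (I.mix (nat_lit 56377344) (nat_lit 73760768)) (I.mix (nat_lit 47431680) (nat_lit 72712192)))
  false (nat_lit 18022002)
def b3_2 : Bx := Bx.mk (St.mk (I.mix (nat_lit 20348928) (nat_lit 107593728)) (I.mix (nat_lit 30523392) (nat_lit 5652480)) (I.mix (nat_lit 12582912) (nat_lit 12238848)) (I.pos (nat_lit 13631488) (nat_lit 75939840)) (I.mix (nat_lit 27344896) (nat_lit 33390592)) (I.mix (nat_lit 21446656) (nat_lit 30605312)) (I.mix (nat_lit 11845632) (nat_lit 19054592)))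
  false (nat_lit 0)
def b3_3 : Bx := Bx.mk (St.mk (I.pos (nat_lit 160268288) (nat_lit 212140032)) (I.mix (nat_lit 19136512) (nat_lit 54935552)) (I.pos (nat_lit 9797632) (nat_lit 109019136)) (I.pos (nat_lit 117997568) (nat_lit 203784192)) (I.mix (nat_lit 143622144) (nat_lit 48267264)) (I.mix (nat_lit 143638528) (nat_lit 74022912)) (I.mix (nat_lit 175177728) (nat_lit 69582848)))
  false (nat_lit 0)
def b3_4 : Bx := Bx.mk (St.mk (I.mix (nat_lit 26492928) (nat_lit 128139264)) (I.mix (nat_lit 15089664) (nat_lit 37699584)) (I.mix (nat_lit 2179072) (nat_lit 38404096)) (I.pos (nat_lit 13352960) (nat_lit 93388800)) (I.mix (nat_lit 60522496) (nat_lit 31211520)) (I.mix (nat_lit 55721984) (nat_lit 31473664)) (I.mix (nat_lit 37306368) (nat_lit 19464192)))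
  false (nat_lit 0)
def b3_5 : Bx := Bx.mk (St.mk (I.pos (nat_lit 159432704) (nat_lit 206438400)) (I.mix (nat_lit 46252032) (nat_lit 31506432)) (I.mix (nat_lit 25018368) (nat_lit 75595776)) (I.pos (nat_lit 115605504) (nat_lit 193019904)) (I.mix (nat_lit 124583936) (nat_lit 71172096)) (I.mix (nat_lit 135364608) (nat_lit 71876608)) (I.mix (nat_lit 158613504) (nat_lit 72155136)))
  false (nat_lit 36348358)
def b3_6 : Bx := Bx.mk (St.mk (I.mix (nat_lit 32718848) (nat_lit 110297088)) (I.mix (nat_lit 17776640) (nat_lit 7503872)) (I.mix (nat_lit 2949120) (nat_lit 14123008)) (I.pos (nat_lit 14303232) (nat_lit 77299712)) (I.mix (nat_lit 24821760) (nat_lit 17580032)) (I.mix (nat_lit 17645568) (nat_lit 19644416)) (I.mix (nat_lit 11403264) (nat_lit 11206656)))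
  false (nat_lit 0)
def b3_7 : Bx := Bx.mk (St.mk (I.pos (nat_lit 133038080) (nat_lit 179109888)) (I.mix (nat_lit 44711936) (nat_lit 1081344)) (I.mix (nat_lit 25083904) (nat_lit 24428544)) (I.pos (nat_lit 97255424) (nat_lit 154845184)) (I.mix (nat_lit 64258048) (nat_lit 37781504)) (I.mix (nat_lit 34717696) (nat_lit 48889856)) (I.mix (nat_lit 41287680) (nat_lit 46792704)))
  false (nat_lit 0)
def b3_8 : Bx := Bx.mk (St.mk (I.pos (nat_lit 156090368) (nat_lit 184025088)) (I.neg (nat_lit 5980160) (nat_lit 36569088)) (I.mix (nat_lit 17137664) (nat_lit 19120128)) (I.pos (nat_lit 116146176) (nat_lit 165101568)) (I.mix (nat_lit 34242560) (nat_lit 28409856)) (I.mix (nat_lit 24952832) (nat_lit 24133632)) (I.mix (nat_lit 25051136) (nat_lit 25952256)))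
  false (nat_lit 0)
def b3_9 : Bx := Bx.mk (St.mk (I.mix (nat_lit 29147136) (nat_lit 140378112)) (I.mix (nat_lit 11354112) (nat_lit 27836416)) (I.mix (nat_lit 2637824) (nat_lit 32391168)) (I.pos (nat_lit 10895360) (nat_lit 105725952)) (I.mix (nat_lit 40927232) (nat_lit 34308096)) (I.mix (nat_lit 39583744) (nat_lit 29278208)) (I.mix (nat_lit 31965184) (nat_lit 21856256)))
  false (nat_lit 0)
def b3_10 : Bx := Bx.mk (St.mk (I.pos (nat_lit 103792640) (nat_lit 161480704)) (I.mix (nat_lit 61751296) (nat_lit 11534336)) (I.mix (nat_lit 45416448) (nat_lit 18448384)) (I.pos (nat_lit 60227584) (nat_lit 132972544)) (I.mix (nat_lit 90210304) (nat_lit 36749312)) (I.mix (nat_lit 43974656) (nat_lit 85344256)) (I.mix (nat_lit 33423360) (nat_lit 63537152)))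
  false (nat_lit 0)
def b3_11 : Bx := Bx.mk (St.mk (I.mix (nat_lit 27000832) (nat_lit 99221504)) (I.mix (nat_lit 28721152) (nat_lit 5767168)) (I.mix (nat_lit 10567680) (nat_lit 8060928)) (I.pos (nat_lit 14876672) (nat_lit 70762496)) (I.mix (nat_lit 30048256) (nat_lit 17858560)) (I.mix (nat_lit 17907712) (nat_lit 27148288)) (I.mix (nat_lit 9240576) (nat_lit 13369344)))
  false (nat_lit 0)
def b3_12 : Bx := Bx.mk (St.mk (I.pos (nat_lit 194019328) (nat_lit 285851648)) (I.mix (nat_lit 32571392) (nat_lit 38125568)) (I.mix (nat_lit 38354944) (nat_lit 95502336)) (I.pos (nat_lit 179355648) (nat_lit 349159424)) (I.mix (nat_lit 83099648) (nat_lit 49414144)) (I.mix (nat_lit 56836096) (nat_lit 47906816)) (I.mix (nat_lit 93847552) (nat_lit 81264640)))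
  false (nat_lit 5572345)
def b3_13 : Bx := Bx.mk (St.mk (I.pos (nat_lit 181796864) (nat_lit 235225088)) (I.pos (nat_lit 4292608) (nat_lit 50216960)) (I.pos (nat_lit 28508160) (nat_lit 110690304)) (I.pos (nat_lit 169099264) (nat_lit 231030784)) (I.mix (nat_lit 99483648) (nat_lit 70615040)) (I.mix (nat_lit 91226112) (nat_lit 69632000)) (I.mix (nat_lit 142458880) (nat_lit 93503488)))
  false (nat_lit 4937360)
def t3 : BTr := (BTr.n (BTr.n (BTr.n (BTr.b b3_0) (BTr.n (BTr.b b3_1) (BTr.b b3_2))) (BTr.n (BTr.n (BTr.b b3_3) (BTr.b b3_4)) (BTr.n (BTr.b b3_5) (BTr.b b3_6)))) (BTr.n (BTr.n (BTr.b b3_7) (BTr.n (BTr.b b3_8) (BTr.b b3_9))) (BTr.n (BTr.n (BTr.b b3_10) (BTr.b b3_11)) (BTr.n (BTr.b b3_12) (BTr.b b3_13)))))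
namespace T3
def l0 : Tr := Tr.L (Pth.l (Pth.l (Pth.l Pth.z)))
def l1 : Tr := Tr.L (Pth.l (Pth.l (Pth.r (Pth.l Pth.z))))
def l2 : Tr := Tr.L (Pth.l (Pth.l (Pth.r (Pth.r Pth.z))))
def l3 : Tr := Tr.L (Pth.l (Pth.r (Pth.l (Pth.l Pth.z))))
def l4 : Tr := Tr.L (Pth.l (Pth.r (Pth.l (Pth.r Pth.z))))
def l5 : Tr := Tr.L (Pth.l (Pth.r (Pth.r (Pth.l Pth.z))))
def l6 : Tr := Tr.L (Pth.l (Pth.r (Pth.r (Pth.r Pth.z))))
def l7 : Tr := Tr.L (Pth.r (Pth.l (Pth.l Pth.z)))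
def l8 : Tr := Tr.L (Pth.r (Pth.l (Pth.r (Pth.l Pth.z))))
def l9 : Tr := Tr.L (Pth.r (Pth.l (Pth.r (Pth.r Pth.z))))
def l10 : Tr := Tr.L (Pth.r (Pth.r (Pth.l (Pth.l Pth.z))))
def l11 : Tr := Tr.L (Pth.r (Pth.r (Pth.l (Pth.r Pth.z))))
def l12 : Tr := Tr.L (Pth.r (Pth.r (Pth.r (Pth.l Pth.z))))
def l13 : Tr := Tr.L (Pth.r (Pth.r (Pth.r (Pth.r Pth.z))))
end T3
def b4_0 : Bx := Bx.mk (St.mk (I.pos (nat_lit 127287296) (nat_lit 220250112)) (I.mix (nat_lit 5963776) (nat_lit 100663296)) (I.mix (nat_lit 7503872) (nat_lit 128024576)) (I.pos (nat_lit 355287040) (nat_lit 453558272)) (I.mix (nat_lit 165150720) (nat_lit 89210880)) (I.mix (nat_lit 110821376) (nat_lit 88965120)) (I.mix (nat_lit 120471552) (nat_lit 114868224)))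
  false (nat_lit 115383778)
def b4_1 : Bx := Bx.mk (St.mk (I.pos (nat_lit 24313856) (nat_lit 134086656)) (I.mix (nat_lit 101187584) (nat_lit 2490368)) (I.mix (nat_lit 67715072) (nat_lit 29786112)) (I.pos (nat_lit 266698752) (nat_lit 337592320)) (I.mix (nat_lit 112640000) (nat_lit 78217216)) (I.mix (nat_lit 80773120) (nat_lit 82640896)) (I.mix (nat_lit 74416128) (nat_lit 64503808)))
  false (nat_lit 36361713)
def b4_2 : Bx := Bx.mk (St.mk (I.pos (nat_lit 86179840) (nat_lit 190644224)) (I.mix (nat_lit 50872320) (nat_lit 96468992)) (I.mix (nat_lit 22528000) (nat_lit 125763584)) (I.pos (nat_lit 295485440) (nat_lit 414482432)) (I.mix (nat_lit 174194688) (nat_lit 69271552)) (I.mix (nat_lit 151994368) (nat_lit 106905600)) (I.mix (nat_lit 158040064) (nat_lit 133300224)))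
  false (nat_lit 140490943)
def b4_3 : Bx := Bx.mk (St.mk (I.neg (nat_lit 24313856) (nat_lit 134070272)) (I.mix (nat_lit 2916352) (nat_lit 101220352)) (I.mix (nat_lit 67747840) (nat_lit 30294016)) (I.pos (nat_lit 266682368) (nat_lit 337625088)) (I.mix (nat_lit 78217216) (nat_lit 112640000)) (I.mix (nat_lit 82640896) (nat_lit 80773120)) (I.mix (nat_lit 74432512) (nat_lit 64503808)))
  true (nat_lit 0)
def b4_4 : Bx := Bx.mk (St.mk (I.mix (nat_lit 65470464) (nat_lit 16695296)) (I.mix (nat_lit 18612224) (nat_lit 96272384)) (I.neg (nat_lit 25608192) (nat_lit 50675712)) (I.pos (nat_lit 264290304) (nat_lit 294862848)) (I.mix (nat_lit 57933824) (nat_lit 98205696)) (I.mix (nat_lit 92995584) (nat_lit 71663616)) (I.mix (nat_lit 38322176) (nat_lit 29720576)))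
  true (nat_lit 0)
def b4_5 : Bx := Bx.mk (St.mk (I.pos (nat_lit 18710528) (nat_lit 63455232)) (I.neg (nat_lit 30752768) (nat_lit 93470720)) (I.neg (nat_lit 27328512) (nat_lit 50577408)) (I.pos (nat_lit 270516224) (nat_lit 294518784)) (I.mix (nat_lit 98205696) (nat_lit 57933824)) (I.mix (nat_lit 71254016) (nat_lit 80166912)) (I.mix (nat_lit 38322176) (nat_lit 29720576)))
  false (nat_lit 12056886)
def b4_6 : Bx := Bx.mk (St.mk (I.pos (nat_lit 178044928) (nat_lit 292749312)) (I.mix (nat_lit 32112640) (nat_lit 72220672)) (I.mix (nat_lit 128729088) (nat_lit 74039296)) (I.pos (nat_lit 405078016) (nat_lit 585187328)) (I.mix (nat_lit 93175808) (nat_lit 75333632)) (I.mix (nat_lit 77840384) (nat_lit 60342272)) (I.mix (nat_lit 141672448) (nat_lit 96665600)))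
  false (nat_lit 99656611)
def b4_7 : Bx := Bx.mk (St.mk (I.mix (nat_lit 15941632) (nat_lit 52314112)) (I.mix (nat_lit 55066624) (nat_lit 16269312)) (I.neg (nat_lit 26230784) (nat_lit 39780352)) (I.pos (nat_lit 265338880) (nat_lit 282378240)) (I.mix (nat_lit 51871744) (nat_lit 47251456)) (I.mix (nat_lit 41385984) (nat_lit 45367296)) (I.mix (nat_lit 12189696) (nat_lit 13910016)))
  false (nat_lit 0)
def b4_8 : Bx := Bx.mk (St.mk (I.pos (nat_lit 147849216) (nat_lit 211779584)) (I.pos (nat_lit 27082752) (nat_lit 93601792)) (I.pos (nat_lit 25755648) (nat_lit 115048448)) (I.pos (nat_lit 378388480) (nat_lit 438075392)) (I.mix (nat_lit 126648320) (nat_lit 97435648)) (I.mix (nat_lit 112640000) (nat_lit 73465856)) (I.mix (nat_lit 157335552) (nat_lit 97894400)))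
  false (nat_lit 81999723)
def b4_9 : Bx := Bx.mk (St.mk (I.pos (nat_lit 23265280) (nat_lit 53854208)) (I.neg (nat_lit 20021248) (nat_lit 79953920)) (I.neg (nat_lit 27131904) (nat_lit 48267264)) (I.pos (nat_lit 270368768) (nat_lit 288079872)) (I.mix (nat_lit 94453760) (nat_lit 48758784)) (I.mix (nat_lit 49004544) (nat_lit 93011968)) (I.mix (nat_lit 26066944) (nat_lit 24182784)))
  false (nat_lit 0)
def t4 : BTr := (BTr.n (BTr.n (BTr.n (BTr.b b4_0) (BTr.b b4_1)) (BTr.n (BTr.b b4_2) (BTr.n (BTr.b b4_3) (BTr.b b4_4)))) (BTr.n (BTr.n (BTr.b b4_5) (BTr.b b4_6)) (BTr.n (BTr.b b4_7) (BTr.n (BTr.b b4_8) (BTr.b b4_9)))))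
namespace T4
def l0 : Tr := Tr.L (Pth.l (Pth.l (Pth.l Pth.z)))
def l1 : Tr := Tr.L (Pth.l (Pth.l (Pth.r Pth.z)))
def l2 : Tr := Tr.L (Pth.l (Pth.r (Pth.l Pth.z)))
def l3 : Tr := Tr.L (Pth.l (Pth.r (Pth.r (Pth.l Pth.z))))
def l4 : Tr := Tr.L (Pth.l (Pth.r (Pth.r (Pth.r Pth.z))))
def l5 : Tr := Tr.L (Pth.r (Pth.l (Pth.l Pth.z)))
def l6 : Tr := Tr.L (Pth.r (Pth.l (Pth.r Pth.z)))
def l7 : Tr := Tr.L (Pth.r (Pth.r (Pth.l Pth.z)))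
def l8 : Tr := Tr.L (Pth.r (Pth.r (Pth.r (Pth.l Pth.z))))
def l9 : Tr := Tr.L (Pth.r (Pth.r (Pth.r (Pth.r Pth.z))))
end T4
def b5_0 : Bx := Bx.mk (St.mk (I.pos (nat_lit 141328384) (nat_lit 228376576)) (I.mix (nat_lit 3571712) (nat_lit 58408960)) (I.mix (nat_lit 7471104) (nat_lit 127434752)) (I.pos (nat_lit 181354496) (nat_lit 272433152)) (I.mix (nat_lit 118161408) (nat_lit 68567040)) (I.mix (nat_lit 93192192) (nat_lit 76169216)) (I.mix (nat_lit 131973120) (nat_lit 89243648)))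
  false (nat_lit 38686461)
def b5_1 : Bx := Bx.mk (St.mk (I.pos (nat_lit 98009088) (nat_lit 157876224)) (I.neg (nat_lit 4079616) (nat_lit 65748992)) (I.mix (nat_lit 35799040) (nat_lit 29917184)) (I.pos (nat_lit 135806976) (nat_lit 178929664)) (I.mix (nat_lit 73859072) (nat_lit 64634880)) (I.mix (nat_lit 52051968) (nat_lit 67911680)) (I.mix (nat_lit 40255488) (nat_lit 57606144)))
  false (nat_lit 0)
def b5_2 : Bx := Bx.mk (St.mk (I.mix (nat_lit 29294592) (nat_lit 46284800)) (I.mix (nat_lit 35848192) (nat_lit 8437760)) (I.pos (nat_lit 2146304) (nat_lit 18350080)) (I.pos (nat_lit 81870848) (nat_lit 101023744)) (I.mix (nat_lit 28393472) (nat_lit 41091072)) (I.mix (nat_lit 23117824) (nat_lit 33685504)) (I.mix (nat_lit 8470528) (nat_lit 12877824)))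
  false (nat_lit 0)
def b5_3 : Bx := Bx.mk (St.mk (I.pos (nat_lit 149241856) (nat_lit 204488704)) (I.mix (nat_lit 9060352) (nat_lit 61046784)) (I.pos (nat_lit 34537472) (nat_lit 120406016)) (I.pos (nat_lit 172670976) (nat_lit 240369664)) (I.mix (nat_lit 133185536) (nat_lit 42762240)) (I.mix (nat_lit 127074304) (nat_lit 72826880)) (I.mix (nat_lit 137691136) (nat_lit 61210624)))
  false (nat_lit 44637657)
def b5_4 : Bx := Bx.mk (St.mk (I.mix (nat_lit 52461568) (nat_lit 73449472)) (I.mix (nat_lit 12107776) (nat_lit 38010880)) (I.pos (nat_lit 1458176) (nat_lit 30359552)) (I.pos (nat_lit 81428480) (nat_lit 108855296)) (I.mix (nat_lit 50511872) (nat_lit 30244864)) (I.mix (nat_lit 38944768) (nat_lit 24117248)) (I.mix (nat_lit 15581184) (nat_lit 13271040)))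
  false (nat_lit 0)
def b5_5 : Bx := Bx.mk (St.mk (I.pos (nat_lit 135249920) (nat_lit 161431552)) (I.neg (nat_lit 3784704) (nat_lit 37257216)) (I.mix (nat_lit 1032192) (nat_lit 34816000)) (I.pos (nat_lit 159924224) (nat_lit 184926208)) (I.mix (nat_lit 48185344) (nat_lit 42188800)) (I.mix (nat_lit 31375360) (nat_lit 43073536)) (I.mix (nat_lit 35569664) (nat_lit 37994496)))
  false (nat_lit 0)
def b5_6 : Bx := Bx.mk (St.mk (I.mix (nat_lit 62963712) (nat_lit 51150848)) (I.mix (nat_lit 13746176) (nat_lit 13238272)) (I.pos (nat_lit 8486912) (nat_lit 20889600)) (I.pos (nat_lit 84918272) (nat_lit 102842368)) (I.mix (nat_lit 28721152) (nat_lit 23658496)) (I.mix (nat_lit 22855680) (nat_lit 23838720)) (I.mix (nat_lit 9846784) (nat_lit 9093120)))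
  false (nat_lit 0)
def b5_7 : Bx := Bx.mk (St.mk (I.pos (nat_lit 146079744) (nat_lit 171048960)) (I.neg (nat_lit 9863168) (nat_lit 36012032)) (I.mix (nat_lit 753664) (nat_lit 29081600)) (I.pos (nat_lit 171261952) (nat_lit 197656576)) (I.mix (nat_lit 27967488) (nat_lit 30244864)) (I.mix (nat_lit 28311552) (nat_lit 20234240)) (I.mix (nat_lit 27705344) (nat_lit 20332544)))
  false (nat_lit 0)
def b5_8 : Bx := Bx.mk (St.mk (I.pos (nat_lit 146243584) (nat_lit 193495040)) (I.mix (nat_lit 43515904) (nat_lit 33406976)) (I.mix (nat_lit 4521984) (nat_lit 86638592)) (I.pos (nat_lit 169754624) (nat_lit 221691904)) (I.mix (nat_lit 123125760) (nat_lit 74448896)) (I.mix (nat_lit 126124032) (nat_lit 72712192)) (I.mix (nat_lit 131694592) (nat_lit 65306624)))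
  false (nat_lit 18217476)
def b5_9 : Bx := Bx.mk (St.mk (I.mix (nat_lit 45072384) (nat_lit 102694912)) (I.mix (nat_lit 10420224) (nat_lit 39682048)) (I.pos (nat_lit 950272) (nat_lit 36896768)) (I.pos (nat_lit 75366400) (nat_lit 126943232)) (I.mix (nat_lit 50479104) (nat_lit 42123264)) (I.mix (nat_lit 51298304) (nat_lit 31227904)) (I.mix (nat_lit 33275904) (nat_lit 20938752)))
  false (nat_lit 0)
def b5_10 : Bx := Bx.mk (St.mk (I.pos (nat_lit 78888960) (nat_lit 136085504)) (I.mix (nat_lit 68108288) (nat_lit 12795904)) (I.mix (nat_lit 33554432) (nat_lit 19464192)) (I.pos (nat_lit 113016832) (nat_lit 158269440)) (I.mix (nat_lit 68583424) (nat_lit 42532864)) (I.mix (nat_lit 39632896) (nat_lit 72499200)) (I.mix (nat_lit 26886144) (nat_lit 46153728)))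
  false (nat_lit 0)
def b5_11 : Bx := Bx.mk (St.mk (I.mix (nat_lit 50741248) (nat_lit 41369600)) (I.mix (nat_lit 35700736) (nat_lit 8388608)) (I.pos (nat_lit 2883584) (nat_lit 21086208)) (I.pos (nat_lit 80248832) (nat_lit 102367232)) (I.mix (nat_lit 33193984) (nat_lit 34979840)) (I.mix (nat_lit 23543808) (nat_lit 38404096)) (I.mix (nat_lit 15040512) (nat_lit 10371072)))
  false (nat_lit 0)
def b5_12 : Bx := Bx.mk (St.mk (I.pos (nat_lit 178520064) (nat_lit 287047680)) (I.mix (nat_lit 25624576) (nat_lit 49561600)) (I.mix (nat_lit 17956864) (nat_lit 118145024)) (I.pos (nat_lit 223510528) (nat_lit 394739712)) (I.mix (nat_lit 100253696) (nat_lit 66699264)) (I.mix (nat_lit 73924608) (nat_lit 50692096)) (I.mix (nat_lit 116604928) (nat_lit 83591168)))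
  false (nat_lit 48322444)
def b5_13 : Bx := Bx.mk (St.mk (I.pos (nat_lit 169394176) (nat_lit 227213312)) (I.pos (nat_lit 4898816) (nat_lit 59064320)) (I.pos (nat_lit 38076416) (nat_lit 127385600)) (I.pos (nat_lit 215334912) (nat_lit 270123008)) (I.mix (nat_lit 118276096) (nat_lit 83132416)) (I.mix (nat_lit 113082368) (nat_lit 76103680)) (I.mix (nat_lit 164806656) (nat_lit 92487680)))
  false (nat_lit 37191721)
def t5 : BTr := (BTr.n (BTr.n (BTr.n (BTr.b b5_0) (BTr.n (BTr.b b5_1) (BTr.b b5_2))) (BTr.n (BTr.n (BTr.b b5_3) (BTr.b b5_4)) (BTr.n (BTr.b b5_5) (BTr.b b5_6)))) (BTr.n (BTr.n (BTr.b b5_7) (BTr.n (BTr.b b5_8) (BTr.b b5_9))) (BTr.n (BTr.n (BTr.b b5_10) (BTr.b b5_11)) (BTr.n (BTr.b b5_12) (BTr.b b5_13)))))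
namespace T5
def l0 : Tr := Tr.L (Pth.l (Pth.l (Pth.l Pth.z)))
def l1 : Tr := Tr.L (Pth.l (Pth.l (Pth.r (Pth.l Pth.z))))
def l2 : Tr := Tr.L (Pth.l (Pth.l (Pth.r (Pth.r Pth.z))))
def l3 : Tr := Tr.L (Pth.l (Pth.r (Pth.l (Pth.l Pth.z))))
def l4 : Tr := Tr.L (Pth.l (Pth.r (Pth.l (Pth.r Pth.z))))
def l5 : Tr := Tr.L (Pth.l (Pth.r (Pth.r (Pth.l Pth.z))))
def l6 : Tr := Tr.L (Pth.l (Pth.r (Pth.r (Pth.r Pth.z))))
def l7 : Tr := Tr.L (Pth.r (Pth.l (Pth.l Pth.z)))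
def l8 : Tr := Tr.L (Pth.r (Pth.l (Pth.r (Pth.l Pth.z))))
def l9 : Tr := Tr.L (Pth.r (Pth.l (Pth.r (Pth.r Pth.z))))
def l10 : Tr := Tr.L (Pth.r (Pth.r (Pth.l (Pth.l Pth.z))))
def l11 : Tr := Tr.L (Pth.r (Pth.r (Pth.l (Pth.r Pth.z))))
def l12 : Tr := Tr.L (Pth.r (Pth.r (Pth.r (Pth.l Pth.z))))
def l13 : Tr := Tr.L (Pth.r (Pth.r (Pth.r (Pth.r Pth.z))))
end T5
theorem bx0_0 : BoxOK sI cl4 cl6 cl9 t2 t4 b0_0 :=
  box_mk (TrL.c (I.pos (nat_lit 0) (nat_lit 0)) (xa (xb T2.l0 T2.l0) T2.l0)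
  (TrL.c (I.pos (nat_lit 0) (nat_lit 0)) T4.l1
  (TrL.c (I.pos (nat_lit 0) (nat_lit 0)) T2.l1
  (TrL.c (I.pos (nat_lit 0) (nat_lit 0)) T4.l2
  (TrL.c (I.pos (nat_lit 0) (nat_lit 0)) T2.l2
  (TrL.c (I.pos (nat_lit 0) (nat_lit 0)) T4.l3
  TrL.n)))))) (by decide +kernel)
theorem bx0_1 : BoxOK sI cl4 cl6 cl9 t2 t4 b0_1 :=
  box_mk (TrL.c (I.pos (nat_lit 0) (nat_lit 0)) (xa (xa (xb T2.l6 (xa T2.l6 T2.l6)) (xb T2.l6 T2.l6)) (xa T2.l6 T2.l6))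
  (TrL.c (I.pos (nat_lit 0) (nat_lit 0)) T4.l1
  (TrL.c (I.pos (nat_lit 0) (nat_lit 0)) T2.l1
  (TrL.c (I.pos (nat_lit 0) (nat_lit 0)) T4.l2
  (TrL.c (I.pos (nat_lit 0) (nat_lit 0)) T2.l7
  (TrL.c (I.pos (nat_lit 0) (nat_lit 0)) T4.l3
  TrL.n)))))) (by decide +kernel)
theorem bx0_2 : BoxOK sI cl4 cl6 cl9 t2 t4 b0_2 :=
  box_mk (TrL.c (I.pos (nat_lit 0) (nat_lit 0)) (xb T2.l6 (xa T2.l6 T2.l6))
  (TrL.c (I.pos (nat_lit 0) (nat_lit 0)) T4.l1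
  (TrL.c (I.pos (nat_lit 0) (nat_lit 0)) T2.l1
  (TrL.c (I.pos (nat_lit 0) (nat_lit 0)) T4.l2
  (TrL.c (I.pos (nat_lit 0) (nat_lit 0)) T2.l7
  (TrL.c (I.pos (nat_lit 0) (nat_lit 0)) T4.l3
  TrL.n)))))) (by decide +kernel)
theorem bx0_3 : BoxOK sI cl4 cl6 cl9 t2 t4 b0_3 :=
  box_mk (TrL.c (I.pos (nat_lit 0) (nat_lit 0)) (xa (xb (xa T2.l6 T2.l6) T2.l6) T2.l6)
  (TrL.c (I.pos (nat_lit 0) (nat_lit 0)) T4.l1
  (TrL.c (I.pos (nat_lit 0) (nat_lit 0)) T2.l1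
  (TrL.c (I.pos (nat_lit 0) (nat_lit 0)) T4.l2
  (TrL.c (I.pos (nat_lit 0) (nat_lit 0)) T2.l7
  (TrL.c (I.pos (nat_lit 0) (nat_lit 0)) T4.l3
  TrL.n)))))) (by decide +kernel)
theorem bx0_4 : BoxOK sI cl4 cl6 cl9 t2 t4 b0_4 :=
  box_mk (TrL.c (I.pos (nat_lit 0) (nat_lit 0)) T2.l6
  (TrL.c (I.pos (nat_lit 0) (nat_lit 0)) T4.l1
  (TrL.c (I.pos (nat_lit 0) (nat_lit 0)) T2.l1
  (TrL.c (I.pos (nat_lit 0) (nat_lit 0)) T4.l2
  (TrL.c (I.pos (nat_lit 0) (nat_lit 0)) T2.l7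
  (TrL.c (I.pos (nat_lit 0) (nat_lit 0)) T4.l3
  TrL.n)))))) (by decide +kernel)
theorem bx0_5 : BoxOK sI cl4 cl6 cl9 t2 t4 b0_5 :=
  box_mk (TrL.c (I.pos (nat_lit 0) (nat_lit 0)) (xa (xa T2.l6 T2.l6) T2.l6)
  (TrL.c (I.pos (nat_lit 0) (nat_lit 0)) T4.l1
  (TrL.c (I.pos (nat_lit 0) (nat_lit 0)) T2.l1
  (TrL.c (I.pos (nat_lit 0) (nat_lit 0)) T4.l2
  (TrL.c (I.pos (nat_lit 0) (nat_lit 0)) T2.l7
  (TrL.c (I.pos (nat_lit 0) (nat_lit 0)) T4.l3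
  TrL.n)))))) (by decide +kernel)
theorem bx0_6 : BoxOK sI cl4 cl6 cl9 t2 t4 b0_6 :=
  box_mk (TrL.c (I.pos (nat_lit 0) (nat_lit 0)) T2.l0
  (TrL.c (I.pos (nat_lit 0) (nat_lit 0)) T4.l1
  (TrL.c (I.pos (nat_lit 0) (nat_lit 0)) T2.l1
  (TrL.c (I.pos (nat_lit 0) (nat_lit 0)) T4.l2
  (TrL.c (I.pos (nat_lit 0) (nat_lit 0)) T2.l2
  (TrL.c (I.pos (nat_lit 0) (nat_lit 0)) T4.l3
  TrL.n)))))) (by decide +kernel)
theorem bx0_7 : BoxOK sI cl4 cl6 cl9 t2 t4 b0_7 :=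
  box_mk (TrL.c (I.pos (nat_lit 0) (nat_lit 0)) (xb (xa (xb T2.l0 T2.l0) T2.l0) (xa (xb T2.l0 (xa T2.l0 T2.l0)) (xb T2.l0 T2.l0)))
  (TrL.c (I.pos (nat_lit 0) (nat_lit 0)) (xb T4.l1 (xa T4.l1 T4.l1))
  (TrL.c (I.pos (nat_lit 0) (nat_lit 0)) T2.l5
  (TrL.c (I.pos (nat_lit 0) (nat_lit 0)) (xb (xa T4.l2 (xb (xa T4.l2 T4.l2) T4.l2)) (xa T4.l2 (xb T4.l2 (xa T4.l2 T4.l2))))
  (TrL.c (I.pos (nat_lit 0) (nat_lit 0)) T2.l3
  (TrL.c (I.pos (nat_lit 0) (nat_lit 0)) (xb T4.l3 (xa T4.l3 T4.l3))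
  TrL.n)))))) (by decide +kernel)
theorem bx0_8 : BoxOK sI cl4 cl6 cl9 t2 t4 b0_8 :=
  box_mk (TrL.c (I.pos (nat_lit 0) (nat_lit 0)) (xa (xb (xa T2.l6 T2.l6) (xa T2.l6 T2.l6)) (xb (xa T2.l6 T2.l6) T2.l6))
  (TrL.c (I.pos (nat_lit 0) (nat_lit 0)) T4.l1
  (TrL.c (I.pos (nat_lit 0) (nat_lit 0)) T2.l1
  (TrL.c (I.pos (nat_lit 0) (nat_lit 0)) T4.l2
  (TrL.c (I.pos (nat_lit 0) (nat_lit 0)) T2.l7
  (TrL.c (I.pos (nat_lit 0) (nat_lit 0)) T4.l3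
  TrL.n)))))) (by decide +kernel)
theorem bx0_9 : BoxOK sI cl4 cl6 cl9 t2 t4 b0_9 :=
  box_mk (TrL.c (I.pos (nat_lit 0) (nat_lit 0)) (xa (xb (xa (xb T2.l6 T2.l6) T2.l6) T2.l6) T2.l6)
  (TrL.c (I.pos (nat_lit 0) (nat_lit 0)) T4.l1
  (TrL.c (I.pos (nat_lit 0) (nat_lit 0)) T2.l1
  (TrL.c (I.pos (nat_lit 0) (nat_lit 0)) T4.l2
  (TrL.c (I.pos (nat_lit 0) (nat_lit 0)) T2.l7
  (TrL.c (I.pos (nat_lit 0) (nat_lit 0)) T4.l3
  TrL.n)))))) (by decide +kernel)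
theorem bx0_10 : BoxOK sI cl4 cl6 cl9 t2 t4 b0_10 :=
  box_mk (TrL.c (I.pos (nat_lit 0) (nat_lit 0)) (xa (xb T2.l8 (xb T2.l8 T2.l8)) (xb T2.l8 T2.l8))
  (TrL.c (I.pos (nat_lit 0) (nat_lit 0)) T4.l1
  (TrL.c (I.pos (nat_lit 0) (nat_lit 0)) T2.l1
  (TrL.c (I.pos (nat_lit 0) (nat_lit 0)) T4.l2
  (TrL.c (I.pos (nat_lit 0) (nat_lit 0)) T2.l2
  (TrL.c (I.pos (nat_lit 0) (nat_lit 0)) T4.l3
  TrL.n)))))) (by decide +kernel)
theorem bx0_11 : BoxOK sI cl4 cl6 cl9 t2 t4 b0_11 :=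
  box_mk (TrL.c (I.pos (nat_lit 0) (nat_lit 0)) (xa (xa (xb T2.l6 T2.l6) T2.l6) T2.l6)
  (TrL.c (I.pos (nat_lit 0) (nat_lit 0)) T4.l1
  (TrL.c (I.pos (nat_lit 0) (nat_lit 0)) T2.l1
  (TrL.c (I.pos (nat_lit 0) (nat_lit 0)) T4.l2
  (TrL.c (I.pos (nat_lit 0) (nat_lit 0)) T2.l7
  (TrL.c (I.pos (nat_lit 0) (nat_lit 0)) T4.l3
  TrL.n)))))) (by decide +kernel)
theorem bx0_12 : BoxOK sI cl4 cl6 cl9 t2 t4 b0_12 :=
  box_mk (TrL.c (I.pos (nat_lit 0) (nat_lit 0)) (xa T2.l8 T2.l8)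
  (TrL.c (I.pos (nat_lit 0) (nat_lit 0)) T4.l1
  (TrL.c (I.pos (nat_lit 0) (nat_lit 0)) T2.l1
  (TrL.c (I.pos (nat_lit 0) (nat_lit 0)) T4.l2
  (TrL.c (I.pos (nat_lit 0) (nat_lit 0)) T2.l3
  (TrL.c (I.pos (nat_lit 0) (nat_lit 0)) T4.l3
  TrL.n)))))) (by decide +kernel)
theorem bx0_13 : BoxOK sI cl4 cl6 cl9 t2 t4 b0_13 :=
  box_mk (TrL.c (I.pos (nat_lit 0) (nat_lit 0)) (xb T2.l8 T2.l8)
  (TrL.c (I.pos (nat_lit 0) (nat_lit 0)) T4.l1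
  (TrL.c (I.pos (nat_lit 0) (nat_lit 0)) T2.l1
  (TrL.c (I.pos (nat_lit 0) (nat_lit 0)) T4.l2
  (TrL.c (I.pos (nat_lit 0) (nat_lit 0)) T2.l2
  (TrL.c (I.pos (nat_lit 0) (nat_lit 0)) T4.l3
  TrL.n)))))) (by decide +kernel)
theorem sv0 : StarV sI cl4 cl6 cl9 t2 t4 t0 :=
  (bt_n (bt_n (bt_n (bt_b bx0_0) (bt_n (bt_b bx0_1) (bt_b bx0_2))) (bt_n (bt_n (bt_b bx0_3) (bt_b bx0_4)) (bt_n (bt_b bx0_5) (bt_b bx0_6)))) (bt_n (bt_n (bt_b bx0_7) (bt_n (bt_b bx0_8) (bt_b bx0_9))) (bt_n (bt_n (bt_b bx0_10) (bt_b bx0_11)) (bt_n (bt_b bx0_12) (bt_b bx0_13)))))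
def S0 : StarD := StarD.mk cl4 cl6 cl9 2 4 t0
theorem bx1_0 : BoxOK sI cl4 cl9 cl6 t4 t2 b1_0 :=
  box_mk (TrL.c (I.pos (nat_lit 0) (nat_lit 0)) (xa (xb T4.l0 (xa (xb T4.l0 T4.l0) T4.l0)) (xb T4.l0 (xa T4.l0 T4.l0)))
  (TrL.c (I.pos (nat_lit 0) (nat_lit 0)) T2.l3
  (TrL.c (I.pos (nat_lit 0) (nat_lit 0)) T4.l4
  (TrL.c (I.pos (nat_lit 0) (nat_lit 0)) (xa T2.l4 (xb T2.l4 T2.l4))
  (TrL.c (I.pos (nat_lit 0) (nat_lit 0)) T4.l5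
  (TrL.c (I.pos (nat_lit 0) (nat_lit 0)) T2.l5
  TrL.n)))))) (by decide +kernel)
theorem bx1_1 : BoxOK sI cl4 cl9 cl6 t4 t2 b1_1 :=
  box_mk (TrL.c (I.pos (nat_lit 0) (nat_lit 0)) (xa (xa (xb T4.l6 T4.l6) T4.l6) (xa T4.l6 T4.l6))
  (TrL.c (I.pos (nat_lit 0) (nat_lit 0)) T2.l3
  (TrL.c (I.pos (nat_lit 0) (nat_lit 0)) T4.l4
  (TrL.c (I.pos (nat_lit 0) (nat_lit 0)) T2.l4
  (TrL.c (I.pos (nat_lit 0) (nat_lit 0)) T4.l7
  (TrL.c (I.pos (nat_lit 0) (nat_lit 0)) T2.l5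
  TrL.n)))))) (by decide +kernel)
theorem bx1_2 : BoxOK sI cl4 cl9 cl6 t4 t2 b1_2 :=
  box_mk (TrL.c (I.pos (nat_lit 0) (nat_lit 0)) (xb (xa T4.l6 T4.l6) (xa T4.l6 T4.l6))
  (TrL.c (I.pos (nat_lit 0) (nat_lit 0)) T2.l3
  (TrL.c (I.pos (nat_lit 0) (nat_lit 0)) T4.l4
  (TrL.c (I.pos (nat_lit 0) (nat_lit 0)) T2.l4
  (TrL.c (I.pos (nat_lit 0) (nat_lit 0)) T4.l7
  (TrL.c (I.pos (nat_lit 0) (nat_lit 0)) T2.l5
  TrL.n)))))) (by decide +kernel)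
theorem bx1_3 : BoxOK sI cl4 cl9 cl6 t4 t2 b1_3 :=
  box_mk (TrL.c (I.pos (nat_lit 0) (nat_lit 0)) (xa T4.l6 T4.l6)
  (TrL.c (I.pos (nat_lit 0) (nat_lit 0)) T2.l3
  (TrL.c (I.pos (nat_lit 0) (nat_lit 0)) T4.l4
  (TrL.c (I.pos (nat_lit 0) (nat_lit 0)) T2.l4
  (TrL.c (I.pos (nat_lit 0) (nat_lit 0)) T4.l7
  (TrL.c (I.pos (nat_lit 0) (nat_lit 0)) T2.l5
  TrL.n)))))) (by decide +kernel)
theorem bx1_4 : BoxOK sI cl4 cl9 cl6 t4 t2 b1_4 :=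
  box_mk (TrL.c (I.pos (nat_lit 0) (nat_lit 0)) (xa (xb (xb T4.l0 T4.l0) (xb T4.l0 T4.l0)) (xb T4.l0 (xb T4.l0 T4.l0)))
  (TrL.c (I.pos (nat_lit 0) (nat_lit 0)) (xb T2.l3 (xa T2.l3 T2.l3))
  (TrL.c (I.pos (nat_lit 0) (nat_lit 0)) T4.l3
  (TrL.c (I.pos (nat_lit 0) (nat_lit 0)) (xb (xa T2.l4 (xb (xa T2.l4 T2.l4) T2.l4)) (xa T2.l4 (xb T2.l4 (xa T2.l4 T2.l4))))
  (TrL.c (I.pos (nat_lit 0) (nat_lit 0)) T4.l1
  (TrL.c (I.pos (nat_lit 0) (nat_lit 0)) (xb T2.l5 (xa T2.l5 T2.l5))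
  TrL.n)))))) (by decide +kernel)
theorem bx1_5 : BoxOK sI cl4 cl9 cl6 t4 t2 b1_5 :=
  box_mk (TrL.c (I.pos (nat_lit 0) (nat_lit 0)) T4.l6
  (TrL.c (I.pos (nat_lit 0) (nat_lit 0)) T2.l3
  (TrL.c (I.pos (nat_lit 0) (nat_lit 0)) T4.l4
  (TrL.c (I.pos (nat_lit 0) (nat_lit 0)) T2.l4
  (TrL.c (I.pos (nat_lit 0) (nat_lit 0)) T4.l7
  (TrL.c (I.pos (nat_lit 0) (nat_lit 0)) T2.l5
  TrL.n)))))) (by decide +kernel)
theorem bx1_6 : BoxOK sI cl4 cl9 cl6 t4 t2 b1_6 :=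
  box_mk (TrL.c (I.pos (nat_lit 0) (nat_lit 0)) T4.l6
  (TrL.c (I.pos (nat_lit 0) (nat_lit 0)) T2.l3
  (TrL.c (I.pos (nat_lit 0) (nat_lit 0)) T4.l4
  (TrL.c (I.pos (nat_lit 0) (nat_lit 0)) T2.l4
  (TrL.c (I.pos (nat_lit 0) (nat_lit 0)) T4.l7
  (TrL.c (I.pos (nat_lit 0) (nat_lit 0)) T2.l5
  TrL.n)))))) (by decide +kernel)
theorem bx1_7 : BoxOK sI cl4 cl9 cl6 t4 t2 b1_7 :=
  box_mk (TrL.c (I.pos (nat_lit 0) (nat_lit 0)) T4.l0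
  (TrL.c (I.pos (nat_lit 0) (nat_lit 0)) T2.l3
  (TrL.c (I.pos (nat_lit 0) (nat_lit 0)) T4.l4
  (TrL.c (I.pos (nat_lit 0) (nat_lit 0)) T2.l0
  (TrL.c (I.pos (nat_lit 0) (nat_lit 0)) T4.l1
  (TrL.c (I.pos (nat_lit 0) (nat_lit 0)) T2.l5
  TrL.n)))))) (by decide +kernel)
theorem bx1_8 : BoxOK sI cl4 cl9 cl6 t4 t2 b1_8 :=
  box_mk (TrL.c (I.pos (nat_lit 0) (nat_lit 0)) (xa (xb (xa T4.l6 T4.l6) T4.l6) T4.l0)
  (TrL.c (I.pos (nat_lit 0) (nat_lit 0)) T2.l3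
  (TrL.c (I.pos (nat_lit 0) (nat_lit 0)) T4.l4
  (TrL.c (I.pos (nat_lit 0) (nat_lit 0)) T2.l4
  (TrL.c (I.pos (nat_lit 0) (nat_lit 0)) T4.l7
  (TrL.c (I.pos (nat_lit 0) (nat_lit 0)) T2.l5
  TrL.n)))))) (by decide +kernel)
theorem bx1_9 : BoxOK sI cl4 cl9 cl6 t4 t2 b1_9 :=
  box_mk (TrL.c (I.pos (nat_lit 0) (nat_lit 0)) (xa (xa (xb (xa T4.l6 T4.l6) T4.l6) T4.l6) T4.l6)
  (TrL.c (I.pos (nat_lit 0) (nat_lit 0)) T2.l3
  (TrL.c (I.pos (nat_lit 0) (nat_lit 0)) T4.l4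
  (TrL.c (I.pos (nat_lit 0) (nat_lit 0)) T2.l4
  (TrL.c (I.pos (nat_lit 0) (nat_lit 0)) T4.l7
  (TrL.c (I.pos (nat_lit 0) (nat_lit 0)) T2.l5
  TrL.n)))))) (by decide +kernel)
theorem bx1_10 : BoxOK sI cl4 cl9 cl6 t4 t2 b1_10 :=
  box_mk (TrL.c (I.pos (nat_lit 0) (nat_lit 0)) (xb (xa (xb T4.l8 T4.l8) (xb T4.l8 T4.l8)) (xa (xb T4.l8 (xa T4.l8 T4.l8)) (xb T4.l8 (xa T4.l8 T4.l8))))
  (TrL.c (I.pos (nat_lit 0) (nat_lit 0)) (xb T2.l3 T2.l3)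
  (TrL.c (I.pos (nat_lit 0) (nat_lit 0)) T4.l4
  (TrL.c (I.pos (nat_lit 0) (nat_lit 0)) (xb T2.l4 (xa T2.l4 (xb T2.l4 T2.l4)))
  (TrL.c (I.pos (nat_lit 0) (nat_lit 0)) T4.l9
  (TrL.c (I.pos (nat_lit 0) (nat_lit 0)) (xb T2.l5 T2.l5)
  TrL.n)))))) (by decide +kernel)
theorem bx1_11 : BoxOK sI cl4 cl9 cl6 t4 t2 b1_11 :=
  box_mk (TrL.c (I.pos (nat_lit 0) (nat_lit 0)) (xa (xa (xb T4.l6 (xa T4.l6 T4.l6)) (xb T4.l6 T4.l6)) (xa T4.l6 T4.l6))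
  (TrL.c (I.pos (nat_lit 0) (nat_lit 0)) (xa T2.l3 T2.l3)
  (TrL.c (I.pos (nat_lit 0) (nat_lit 0)) T4.l4
  (TrL.c (I.pos (nat_lit 0) (nat_lit 0)) (xa T2.l4 T2.l4)
  (TrL.c (I.pos (nat_lit 0) (nat_lit 0)) T4.l7
  (TrL.c (I.pos (nat_lit 0) (nat_lit 0)) (xa T2.l5 T2.l5)
  TrL.n)))))) (by decide +kernel)
theorem bx1_12 : BoxOK sI cl4 cl9 cl6 t4 t2 b1_12 :=
  box_mk (TrL.c (I.pos (nat_lit 0) (nat_lit 0)) T4.l0
  (TrL.c (I.pos (nat_lit 0) (nat_lit 0)) T2.l3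
  (TrL.c (I.pos (nat_lit 0) (nat_lit 0)) T4.l4
  (TrL.c (I.pos (nat_lit 0) (nat_lit 0)) T2.l4
  (TrL.c (I.pos (nat_lit 0) (nat_lit 0)) T4.l9
  (TrL.c (I.pos (nat_lit 0) (nat_lit 0)) T2.l5
  TrL.n)))))) (by decide +kernel)
theorem bx1_13 : BoxOK sI cl4 cl9 cl6 t4 t2 b1_13 :=
  box_mk (TrL.c (I.pos (nat_lit 0) (nat_lit 0)) (xb T4.l8 T4.l8)
  (TrL.c (I.pos (nat_lit 0) (nat_lit 0)) T2.l3
  (TrL.c (I.pos (nat_lit 0) (nat_lit 0)) T4.l4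
  (TrL.c (I.pos (nat_lit 0) (nat_lit 0)) T2.l4
  (TrL.c (I.pos (nat_lit 0) (nat_lit 0)) T4.l9
  (TrL.c (I.pos (nat_lit 0) (nat_lit 0)) T2.l5
  TrL.n)))))) (by decide +kernel)
theorem sv1 : StarV sI cl4 cl9 cl6 t4 t2 t1 :=
  (bt_n (bt_n (bt_n (bt_b bx1_0) (bt_n (bt_b bx1_1) (bt_b bx1_2))) (bt_n (bt_n (bt_b bx1_3) (bt_b bx1_4)) (bt_n (bt_b bx1_5) (bt_b bx1_6)))) (bt_n (bt_n (bt_b bx1_7) (bt_n (bt_b bx1_8) (bt_b bx1_9))) (bt_n (bt_n (bt_b bx1_10) (bt_b bx1_11)) (bt_n (bt_b bx1_12) (bt_b bx1_13)))))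
def S1 : StarD := StarD.mk cl4 cl9 cl6 4 2 t1
theorem bx2_0 : BoxOK sI cl6 cl4 cl9 t0 t5 b2_0 :=
  box_mk (TrL.c (I.pos (nat_lit 0) (nat_lit 0)) (xb (xa T0.l0 T0.l0) (xa T0.l7 (xb T0.l0 T0.l0)))
  (TrL.c (I.pos (nat_lit 0) (nat_lit 0)) T5.l1
  (TrL.c (I.pos (nat_lit 0) (nat_lit 89480386)) (xR T0.l1 T0.l1)
  (TrL.c (I.pos (nat_lit 0) (nat_lit 41530880)) T5.l2
  (TrL.c (I.pos (nat_lit 0) (nat_lit 0)) (xb (xa T5.l3 T5.l3) (xa T5.l3 T5.l3))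
  (TrL.c (I.pos (nat_lit 0) (nat_lit 0)) T0.l2
  (TrL.c (I.mix (nat_lit 41527258) (nat_lit 41530880)) (xR T5.l4 T5.l9)
  (TrL.c (I.mix (nat_lit 41527258) (nat_lit 4274)) T0.l3
  TrL.n)))))))) (by decide +kernel)
theorem bx2_1 : BoxOK sI cl6 cl4 cl9 t0 t5 b2_1 :=
  box_mk (TrL.c (I.pos (nat_lit 0) (nat_lit 0)) T5.l5
  (TrL.c (I.pos (nat_lit 0) (nat_lit 0)) T0.l4
  (TrL.c (I.mix (nat_lit 41527258) (nat_lit 41530880)) T5.l6
  (TrL.c (I.mix (nat_lit 41527258) (nat_lit 4274)) T0.l5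
  TrL.n)))) (by decide +kernel)
theorem bx2_2 : BoxOK sI cl6 cl4 cl9 t0 t5 b2_2 :=
  box_mk (TrL.c (I.pos (nat_lit 0) (nat_lit 0)) T0.l7
  (TrL.c (I.pos (nat_lit 0) (nat_lit 0)) T5.l1
  (TrL.c (I.pos (nat_lit 0) (nat_lit 89480386)) T0.l1
  (TrL.c (I.pos (nat_lit 0) (nat_lit 41530880)) T5.l2
  (TrL.c (I.pos (nat_lit 0) (nat_lit 0)) T5.l8
  (TrL.c (I.pos (nat_lit 0) (nat_lit 0)) T0.l2
  (TrL.c (I.mix (nat_lit 41527258) (nat_lit 41530880)) T5.l4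
  (TrL.c (I.mix (nat_lit 41527258) (nat_lit 4274)) T0.l3
  TrL.n)))))))) (by decide +kernel)
theorem bx2_3 : BoxOK sI cl6 cl4 cl9 t0 t5 b2_3 :=
  box_mk (TrL.c (I.pos (nat_lit 0) (nat_lit 0)) (xa (xb (xa (xb T0.l7 T0.l7) T0.l7) (xa T0.l7 T0.l7)) T0.l7)
  (TrL.c (I.pos (nat_lit 0) (nat_lit 0)) T5.l1
  (TrL.c (I.pos (nat_lit 0) (nat_lit 89480386)) (xR T0.l1 T0.l1)
  (TrL.c (I.pos (nat_lit 0) (nat_lit 41530880)) T5.l2
  (TrL.c (I.pos (nat_lit 0) (nat_lit 0)) T5.l8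
  (TrL.c (I.pos (nat_lit 0) (nat_lit 0)) T0.l2
  (TrL.c (I.mix (nat_lit 41527258) (nat_lit 41530880)) (xR T5.l4 T5.l4)
  (TrL.c (I.mix (nat_lit 41527258) (nat_lit 4274)) T0.l3
  TrL.n)))))))) (by decide +kernel)
theorem bx2_4 : BoxOK sI cl6 cl4 cl9 t0 t5 b2_4 :=
  box_mk (TrL.c (I.pos (nat_lit 0) (nat_lit 0)) (xb (xa (xb T0.l7 T0.l7) T0.l7) (xa (xb T0.l7 (xa T0.l7 T0.l7)) (xb T0.l7 T0.l7)))
  (TrL.c (I.pos (nat_lit 0) (nat_lit 0)) T5.l1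
  (TrL.c (I.pos (nat_lit 0) (nat_lit 89480386)) (xR T0.l1 T0.l1)
  (TrL.c (I.pos (nat_lit 0) (nat_lit 41530880)) T5.l2
  (TrL.c (I.pos (nat_lit 0) (nat_lit 0)) (xb (xa T5.l8 T5.l8) (xa T5.l8 T5.l3))
  (TrL.c (I.pos (nat_lit 0) (nat_lit 0)) T0.l2
  (TrL.c (I.mix (nat_lit 41527258) (nat_lit 41530880)) (xR T5.l4 T5.l9)
  (TrL.c (I.mix (nat_lit 41527258) (nat_lit 4274)) T0.l3
  TrL.n)))))))) (by decide +kernel)
theorem bx2_5 : BoxOK sI cl6 cl4 cl9 t0 t5 b2_5 :=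
  box_mk (TrL.c (I.pos (nat_lit 0) (nat_lit 0)) T5.l1
  (TrL.c (I.pos (nat_lit 0) (nat_lit 0)) T0.l1
  (TrL.c (I.mix (nat_lit 41527258) (nat_lit 41530880)) (xR T5.l6 T5.l2)
  (TrL.c (I.mix (nat_lit 41527258) (nat_lit 4274)) T0.l5
  TrL.n)))) (by decide +kernel)
theorem bx2_6 : BoxOK sI cl6 cl4 cl9 t0 t5 b2_6 :=
  box_mk (TrL.c (I.pos (nat_lit 0) (nat_lit 0)) (xa (xb T0.l0 T0.l0) T0.l10)
  (TrL.c (I.pos (nat_lit 0) (nat_lit 0)) T5.l1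
  (TrL.c (I.pos (nat_lit 0) (nat_lit 89480386)) (xR T0.l1 T0.l1)
  (TrL.c (I.pos (nat_lit 0) (nat_lit 41530880)) T5.l2
  (TrL.c (I.pos (nat_lit 0) (nat_lit 0)) (xb (xa T5.l3 (xa T5.l3 T5.l3)) (xa T5.l3 (xa T5.l3 (xb T5.l3 T5.l3))))
  (TrL.c (I.pos (nat_lit 0) (nat_lit 0)) T0.l8
  (TrL.c (I.mix (nat_lit 41527258) (nat_lit 41530880)) (xR T5.l4 T5.l4)
  (TrL.c (I.mix (nat_lit 41527258) (nat_lit 4274)) T0.l3
  TrL.n)))))))) (by decide +kernel)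
theorem bx2_7 : BoxOK sI cl6 cl4 cl9 t0 t5 b2_7 :=
  box_mk (TrL.c (I.pos (nat_lit 0) (nat_lit 0)) (xb (xa T0.l6 T0.l6) (xa T0.l6 T0.l6))
  (TrL.c (I.pos (nat_lit 0) (nat_lit 0)) T5.l5
  (TrL.c (I.pos (nat_lit 0) (nat_lit 89480386)) T0.l1
  (TrL.c (I.pos (nat_lit 0) (nat_lit 41530880)) T5.l2
  (TrL.c (I.pos (nat_lit 0) (nat_lit 0)) T5.l8
  (TrL.c (I.pos (nat_lit 0) (nat_lit 0)) T0.l2
  (TrL.c (I.mix (nat_lit 41527258) (nat_lit 41530880)) T5.l4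
  (TrL.c (I.mix (nat_lit 41527258) (nat_lit 4274)) T0.l3
  TrL.n)))))))) (by decide +kernel)
theorem bx2_8 : BoxOK sI cl6 cl4 cl9 t0 t5 b2_8 :=
  box_mk (TrL.c (I.pos (nat_lit 0) (nat_lit 0)) (xb T0.l0 T0.l0)
  (TrL.c (I.pos (nat_lit 0) (nat_lit 0)) T5.l1
  (TrL.c (I.pos (nat_lit 0) (nat_lit 89480386)) (xR T0.l1 T0.l1)
  (TrL.c (I.pos (nat_lit 0) (nat_lit 41530880)) T5.l2
  (TrL.c (I.pos (nat_lit 0) (nat_lit 0)) T5.l3
  (TrL.c (I.pos (nat_lit 0) (nat_lit 0)) T0.l2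
  (TrL.c (I.mix (nat_lit 41527258) (nat_lit 41530880)) T5.l9
  (TrL.c (I.mix (nat_lit 41527258) (nat_lit 4274)) T0.l3
  TrL.n)))))))) (by decide +kernel)
theorem bx2_9 : BoxOK sI cl6 cl4 cl9 t0 t5 b2_9 :=
  box_mk (TrL.c (I.pos (nat_lit 0) (nat_lit 0)) T0.l6
  (TrL.c (I.pos (nat_lit 0) (nat_lit 0)) T5.l1
  (TrL.c (I.pos (nat_lit 0) (nat_lit 89480386)) T0.l1
  (TrL.c (I.pos (nat_lit 0) (nat_lit 41530880)) T5.l2
  (TrL.c (I.pos (nat_lit 0) (nat_lit 0)) T5.l7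
  (TrL.c (I.pos (nat_lit 0) (nat_lit 0)) T0.l2
  (TrL.c (I.mix (nat_lit 41527258) (nat_lit 41530880)) T5.l4
  (TrL.c (I.mix (nat_lit 41527258) (nat_lit 4274)) T0.l3
  TrL.n)))))))) (by decide +kernel)
theorem sv2 : StarV sI cl6 cl4 cl9 t0 t5 t2 :=
  (bt_n (bt_n (bt_n (bt_b bx2_0) (bt_b bx2_1)) (bt_n (bt_b bx2_2) (bt_n (bt_b bx2_3) (bt_b bx2_4)))) (bt_n (bt_n (bt_b bx2_5) (bt_b bx2_6)) (bt_n (bt_b bx2_7) (bt_n (bt_b bx2_8) (bt_b bx2_9)))))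
def S2 : StarD := StarD.mk cl6 cl4 cl9 0 5 t2
theorem bx3_0 : BoxOK sI cl6 cl9 cl4 t5 t0 b3_0 :=
  box_mk (TrL.c (I.pos (nat_lit 0) (nat_lit 0)) (xa (xa (xb T5.l0 (xs T5.l0 T5.l0)) (xb T5.l0 T5.l0)) (xa (xb T5.l0 T5.l0) (xb T5.l0 T5.l0)))
  (TrL.c (I.pos (nat_lit 0) (nat_lit 0)) T0.l8
  (TrL.c (I.pos (nat_lit 0) (nat_lit 89480386)) (xR T5.l9 T5.l9)
  (TrL.c (I.pos (nat_lit 0) (nat_lit 41530880)) T0.l9
  (TrL.c (I.pos (nat_lit 0) (nat_lit 0)) (xa T0.l10 (xb T0.l10 T0.l10))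
  (TrL.c (I.pos (nat_lit 0) (nat_lit 0)) T5.l10
  (TrL.c (I.mix (nat_lit 41527258) (nat_lit 41530880)) (xR T0.l11 T0.l1)
  (TrL.c (I.mix (nat_lit 41527258) (nat_lit 4274)) T5.l11
  TrL.n)))))))) (by decide +kernel)
theorem bx3_1 : BoxOK sI cl6 cl9 cl4 t5 t0 b3_1 :=
  box_mk (TrL.c (I.pos (nat_lit 0) (nat_lit 0)) (xa (xb T5.l12 T5.l12) T5.l0)
  (TrL.c (I.pos (nat_lit 0) (nat_lit 0)) T0.l8
  (TrL.c (I.pos (nat_lit 0) (nat_lit 89480386)) T5.l9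
  (TrL.c (I.pos (nat_lit 0) (nat_lit 41530880)) T0.l9
  (TrL.c (I.pos (nat_lit 0) (nat_lit 0)) (xa T0.l12 T0.l12)
  (TrL.c (I.pos (nat_lit 0) (nat_lit 0)) T5.l10
  (TrL.c (I.mix (nat_lit 41527258) (nat_lit 41530880)) (xR T0.l11 T0.l1)
  (TrL.c (I.mix (nat_lit 41527258) (nat_lit 4274)) T5.l11
  TrL.n)))))))) (by decide +kernel)
theorem bx3_2 : BoxOK sI cl6 cl9 cl4 t5 t0 b3_2 :=
  box_mk (TrL.c (I.pos (nat_lit 0) (nat_lit 0)) (xa T5.l12 T5.l12)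
  (TrL.c (I.pos (nat_lit 0) (nat_lit 0)) T0.l8
  (TrL.c (I.pos (nat_lit 0) (nat_lit 89480386)) T5.l9
  (TrL.c (I.pos (nat_lit 0) (nat_lit 41530880)) T0.l9
  (TrL.c (I.pos (nat_lit 0) (nat_lit 0)) T0.l12
  (TrL.c (I.pos (nat_lit 0) (nat_lit 0)) T5.l10
  (TrL.c (I.mix (nat_lit 41527258) (nat_lit 41530880)) T0.l11
  (TrL.c (I.mix (nat_lit 41527258) (nat_lit 4274)) T5.l11
  TrL.n)))))))) (by decide +kernel)
theorem bx3_3 : BoxOK sI cl6 cl9 cl4 t5 t0 b3_3 :=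
  box_mk (TrL.c (I.pos (nat_lit 0) (nat_lit 0)) (xb (xa T5.l13 T5.l13) (xa (xb T5.l13 (xa T5.l13 T5.l13)) (xb T5.l13 (xa T5.l13 T5.l13))))
  (TrL.c (I.pos (nat_lit 0) (nat_lit 0)) T0.l8
  (TrL.c (I.pos (nat_lit 0) (nat_lit 89480386)) (xR T5.l9 T5.l9)
  (TrL.c (I.pos (nat_lit 0) (nat_lit 41530880)) T0.l9
  (TrL.c (I.pos (nat_lit 0) (nat_lit 0)) (xb T0.l13 T0.l13)
  (TrL.c (I.pos (nat_lit 0) (nat_lit 0)) T5.l10
  (TrL.c (I.mix (nat_lit 41527258) (nat_lit 41530880)) (xR T0.l1 T0.l1)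
  (TrL.c (I.mix (nat_lit 41527258) (nat_lit 4274)) T5.l11
  TrL.n)))))))) (by decide +kernel)
theorem bx3_4 : BoxOK sI cl6 cl9 cl4 t5 t0 b3_4 :=
  box_mk (TrL.c (I.pos (nat_lit 0) (nat_lit 0)) (xa (xa (xb (xa T5.l12 T5.l12) (xa T5.l12 T5.l12)) (xb T5.l12 T5.l12)) (xa T5.l12 T5.l12))
  (TrL.c (I.pos (nat_lit 0) (nat_lit 0)) (xa T0.l8 T0.l8)
  (TrL.c (I.pos (nat_lit 0) (nat_lit 89480386)) T5.l9
  (TrL.c (I.pos (nat_lit 0) (nat_lit 41530880)) T0.l9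
  (TrL.c (I.pos (nat_lit 0) (nat_lit 0)) (xa T0.l12 T0.l12)
  (TrL.c (I.pos (nat_lit 0) (nat_lit 0)) T5.l10
  (TrL.c (I.mix (nat_lit 41527258) (nat_lit 41530880)) T0.l11
  (TrL.c (I.mix (nat_lit 41527258) (nat_lit 4274)) T5.l11
  TrL.n)))))))) (by decide +kernel)
theorem bx3_5 : BoxOK sI cl6 cl9 cl4 t5 t0 b3_5 :=
  box_mk (TrL.c (I.pos (nat_lit 0) (nat_lit 0)) (xb (xa T5.l13 T5.l13) (xa T5.l13 T5.l13))
  (TrL.c (I.pos (nat_lit 0) (nat_lit 0)) T0.l8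
  (TrL.c (I.pos (nat_lit 0) (nat_lit 89480386)) (xR T5.l9 T5.l9)
  (TrL.c (I.pos (nat_lit 0) (nat_lit 41530880)) T0.l9
  (TrL.c (I.pos (nat_lit 0) (nat_lit 0)) (xb T0.l13 T0.l13)
  (TrL.c (I.pos (nat_lit 0) (nat_lit 0)) T5.l10
  (TrL.c (I.mix (nat_lit 41527258) (nat_lit 41530880)) (xR T0.l11 T0.l1)
  (TrL.c (I.mix (nat_lit 41527258) (nat_lit 4274)) T5.l11
  TrL.n)))))))) (by decide +kernel)
theorem bx3_6 : BoxOK sI cl6 cl9 cl4 t5 t0 b3_6 :=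
  box_mk (TrL.c (I.pos (nat_lit 0) (nat_lit 0)) (xa T5.l12 T5.l12)
  (TrL.c (I.pos (nat_lit 0) (nat_lit 0)) T0.l8
  (TrL.c (I.pos (nat_lit 0) (nat_lit 89480386)) T5.l9
  (TrL.c (I.pos (nat_lit 0) (nat_lit 41530880)) T0.l9
  (TrL.c (I.pos (nat_lit 0) (nat_lit 0)) T0.l12
  (TrL.c (I.pos (nat_lit 0) (nat_lit 0)) T5.l10
  (TrL.c (I.mix (nat_lit 41527258) (nat_lit 41530880)) T0.l11
  (TrL.c (I.mix (nat_lit 41527258) (nat_lit 4274)) T5.l11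
  TrL.n)))))))) (by decide +kernel)
theorem bx3_7 : BoxOK sI cl6 cl9 cl4 t5 t0 b3_7 :=
  box_mk (TrL.c (I.pos (nat_lit 0) (nat_lit 0)) T5.l12
  (TrL.c (I.pos (nat_lit 0) (nat_lit 0)) T0.l8
  (TrL.c (I.pos (nat_lit 0) (nat_lit 89480386)) T5.l9
  (TrL.c (I.pos (nat_lit 0) (nat_lit 41530880)) T0.l9
  (TrL.c (I.pos (nat_lit 0) (nat_lit 0)) T0.l12
  (TrL.c (I.pos (nat_lit 0) (nat_lit 0)) T5.l10
  (TrL.c (I.mix (nat_lit 41527258) (nat_lit 41530880)) T0.l1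
  (TrL.c (I.mix (nat_lit 41527258) (nat_lit 4274)) T5.l11
  TrL.n)))))))) (by decide +kernel)
theorem bx3_8 : BoxOK sI cl6 cl9 cl4 t5 t0 b3_8 :=
  box_mk (TrL.c (I.pos (nat_lit 0) (nat_lit 0)) T5.l13
  (TrL.c (I.pos (nat_lit 0) (nat_lit 0)) T0.l8
  (TrL.c (I.pos (nat_lit 0) (nat_lit 89480386)) T5.l9
  (TrL.c (I.pos (nat_lit 0) (nat_lit 41530880)) T0.l9
  (TrL.c (I.pos (nat_lit 0) (nat_lit 0)) T0.l13
  (TrL.c (I.pos (nat_lit 0) (nat_lit 0)) T5.l10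
  (TrL.c (I.mix (nat_lit 41527258) (nat_lit 41530880)) T0.l1
  (TrL.c (I.mix (nat_lit 41527258) (nat_lit 4274)) T5.l11
  TrL.n)))))))) (by decide +kernel)
theorem bx3_9 : BoxOK sI cl6 cl9 cl4 t5 t0 b3_9 :=
  box_mk (TrL.c (I.pos (nat_lit 0) (nat_lit 0)) (xa (xa (xa T5.l12 T5.l12) T5.l12) (xa T5.l12 T5.l12))
  (TrL.c (I.pos (nat_lit 0) (nat_lit 0)) (xa T0.l8 T0.l8)
  (TrL.c (I.pos (nat_lit 0) (nat_lit 89480386)) T5.l9
  (TrL.c (I.pos (nat_lit 0) (nat_lit 41530880)) T0.l9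
  (TrL.c (I.pos (nat_lit 0) (nat_lit 0)) (xa T0.l12 T0.l12)
  (TrL.c (I.pos (nat_lit 0) (nat_lit 0)) T5.l10
  (TrL.c (I.mix (nat_lit 41527258) (nat_lit 41530880)) T0.l11
  (TrL.c (I.mix (nat_lit 41527258) (nat_lit 4274)) T5.l11
  TrL.n)))))))) (by decide +kernel)
theorem bx3_10 : BoxOK sI cl6 cl9 cl4 t5 t0 b3_10 :=
  box_mk (TrL.c (I.pos (nat_lit 0) (nat_lit 0)) (xb (xa T5.l12 T5.l12) (xa T5.l12 T5.l12))
  (TrL.c (I.pos (nat_lit 0) (nat_lit 0)) T0.l8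
  (TrL.c (I.pos (nat_lit 0) (nat_lit 89480386)) T5.l9
  (TrL.c (I.pos (nat_lit 0) (nat_lit 41530880)) T0.l9
  (TrL.c (I.pos (nat_lit 0) (nat_lit 0)) (xb T0.l12 T0.l12)
  (TrL.c (I.pos (nat_lit 0) (nat_lit 0)) T5.l10
  (TrL.c (I.mix (nat_lit 41527258) (nat_lit 41530880)) (xR T0.l11 T0.l1)
  (TrL.c (I.mix (nat_lit 41527258) (nat_lit 4274)) T5.l11
  TrL.n)))))))) (by decide +kernel)
theorem bx3_11 : BoxOK sI cl6 cl9 cl4 t5 t0 b3_11 :=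
  box_mk (TrL.c (I.pos (nat_lit 0) (nat_lit 0)) (xa (xa (xb T5.l12 T5.l12) T5.l12) T5.l12)
  (TrL.c (I.pos (nat_lit 0) (nat_lit 0)) T0.l8
  (TrL.c (I.pos (nat_lit 0) (nat_lit 89480386)) T5.l9
  (TrL.c (I.pos (nat_lit 0) (nat_lit 41530880)) T0.l9
  (TrL.c (I.pos (nat_lit 0) (nat_lit 0)) T0.l12
  (TrL.c (I.pos (nat_lit 0) (nat_lit 0)) T5.l10
  (TrL.c (I.mix (nat_lit 41527258) (nat_lit 41530880)) T0.l11
  (TrL.c (I.mix (nat_lit 41527258) (nat_lit 4274)) T5.l11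
  TrL.n)))))))) (by decide +kernel)
theorem bx3_12 : BoxOK sI cl6 cl9 cl4 t5 t0 b3_12 :=
  box_mk (TrL.c (I.pos (nat_lit 0) (nat_lit 0)) (xa (xb T5.l0 T5.l0) (xb T5.l0 T5.l0))
  (TrL.c (I.pos (nat_lit 0) (nat_lit 0)) T0.l8
  (TrL.c (I.pos (nat_lit 0) (nat_lit 89480386)) (xR T5.l9 (xR T5.l9 T5.l9))
  (TrL.c (I.pos (nat_lit 0) (nat_lit 41530880)) T0.l9
  (TrL.c (I.pos (nat_lit 0) (nat_lit 0)) (xa (xb T0.l10 T0.l10) (xb (xa T0.l10 T0.l10) (xa T0.l10 T0.l10)))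
  (TrL.c (I.pos (nat_lit 0) (nat_lit 0)) T5.l10
  (TrL.c (I.mix (nat_lit 41527258) (nat_lit 41530880)) (xR T0.l11 T0.l1)
  (TrL.c (I.mix (nat_lit 41527258) (nat_lit 4274)) T5.l11
  TrL.n)))))))) (by decide +kernel)
theorem bx3_13 : BoxOK sI cl6 cl9 cl4 t5 t0 b3_13 :=
  box_mk (TrL.c (I.pos (nat_lit 0) (nat_lit 0)) (xa T5.l13 (xb T5.l0 T5.l0))
  (TrL.c (I.pos (nat_lit 0) (nat_lit 0)) T0.l8
  (TrL.c (I.pos (nat_lit 0) (nat_lit 89480386)) (xR T5.l9 T5.l9)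
  (TrL.c (I.pos (nat_lit 0) (nat_lit 41530880)) T0.l9
  (TrL.c (I.pos (nat_lit 0) (nat_lit 0)) (xa T0.l10 T0.l10)
  (TrL.c (I.pos (nat_lit 0) (nat_lit 0)) T5.l10
  (TrL.c (I.mix (nat_lit 41527258) (nat_lit 41530880)) (xR T0.l11 T0.l1)
  (TrL.c (I.mix (nat_lit 41527258) (nat_lit 4274)) T5.l11
  TrL.n)))))))) (by decide +kernel)
theorem sv3 : StarV sI cl6 cl9 cl4 t5 t0 t3 :=
  (bt_n (bt_n (bt_n (bt_b bx3_0) (bt_n (bt_b bx3_1) (bt_b bx3_2))) (bt_n (bt_n (bt_b bx3_3) (bt_b bx3_4)) (bt_n (bt_b bx3_5) (bt_b bx3_6)))) (bt_n (bt_n (bt_b bx3_7) (bt_n (bt_b bx3_8) (bt_b bx3_9))) (bt_n (bt_n (bt_b bx3_10) (bt_b bx3_11)) (bt_n (bt_b bx3_12) (bt_b bx3_13)))))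
def S3 : StarD := StarD.mk cl6 cl9 cl4 5 0 t3
theorem bx4_0 : BoxOK sI cl9 cl4 cl6 t1 t3 b4_0 :=
  box_mk (TrL.c (I.pos (nat_lit 0) (nat_lit 0)) (xa (xb T1.l0 (xa T1.l0 T1.l0)) (xb T1.l0 (xa T1.l0 T1.l0)))
  (TrL.c (I.pos (nat_lit 0) (nat_lit 0)) T3.l1
  (TrL.c (I.pos (nat_lit 0) (nat_lit 124588530)) (xR T1.l1 T1.l1)
  (TrL.c (I.pos (nat_lit 0) (nat_lit 96881482)) (xR T3.l2 T3.l2)
  (TrL.c (I.pos (nat_lit 0) (nat_lit 0)) (xb (xa T3.l3 (xk T3.l3 T3.l3)) (xa T3.l3 (xk T3.l3 T3.l3)))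
  (TrL.c (I.pos (nat_lit 0) (nat_lit 0)) T1.l2
  (TrL.c (I.mix (nat_lit 17240550) (nat_lit 96881482)) (xR T3.l4 (xR T3.l4 T3.l4))
  (TrL.c (I.mix (nat_lit 17240550) (nat_lit 71940500)) (xR T1.l3 T1.l3)
  TrL.n)))))))) (by decide +kernel)
theorem bx4_1 : BoxOK sI cl9 cl4 cl6 t1 t3 b4_1 :=
  box_mk (TrL.c (I.pos (nat_lit 0) (nat_lit 0)) (xa (xb (xa (xb T1.l4 T1.l4) T1.l4) T1.l4) T1.l4)
  (TrL.c (I.pos (nat_lit 0) (nat_lit 0)) T3.l1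
  (TrL.c (I.pos (nat_lit 0) (nat_lit 124588530)) (xR T1.l1 T1.l1)
  (TrL.c (I.pos (nat_lit 0) (nat_lit 96881482)) T3.l2
  (TrL.c (I.pos (nat_lit 0) (nat_lit 0)) (xa T3.l5 T3.l5)
  (TrL.c (I.pos (nat_lit 0) (nat_lit 0)) T1.l2
  (TrL.c (I.mix (nat_lit 17240550) (nat_lit 96881482)) (xR T3.l4 T3.l4)
  (TrL.c (I.mix (nat_lit 17240550) (nat_lit 71940500)) T1.l9
  TrL.n)))))))) (by decide +kernel)
theorem bx4_2 : BoxOK sI cl9 cl4 cl6 t1 t3 b4_2 :=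
  box_mk (TrL.c (I.pos (nat_lit 0) (nat_lit 0)) (xb (xa (xb T1.l4 T1.l4) T1.l4) (xa (xb T1.l4 (xa T1.l4 T1.l4)) (xb T1.l4 (xa T1.l4 T1.l4))))
  (TrL.c (I.pos (nat_lit 0) (nat_lit 0)) (xb T3.l1 T3.l1)
  (TrL.c (I.pos (nat_lit 0) (nat_lit 124588530)) (xR T1.l1 (xR T1.l1 T1.l1))
  (TrL.c (I.pos (nat_lit 0) (nat_lit 96881482)) (xR T3.l2 T3.l2)
  (TrL.c (I.pos (nat_lit 0) (nat_lit 0)) (xb (xa T3.l5 (xb T3.l5 T3.l5)) (xa T3.l5 (xk T3.l5 T3.l5)))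
  (TrL.c (I.pos (nat_lit 0) (nat_lit 0)) T1.l2
  (TrL.c (I.mix (nat_lit 17240550) (nat_lit 96881482)) (xR T3.l4 (xR T3.l4 T3.l4))
  (TrL.c (I.mix (nat_lit 17240550) (nat_lit 71940500)) (xR T1.l3 T1.l3)
  TrL.n)))))))) (by decide +kernel)
theorem bx4_3 : BoxOK sI cl9 cl4 cl6 t1 t3 b4_3 :=
  box_mk (TrL.c (I.pos (nat_lit 0) (nat_lit 0)) T3.l1
  (TrL.c (I.pos (nat_lit 0) (nat_lit 0)) T1.l1
  (TrL.c (I.mix (nat_lit 17240550) (nat_lit 96881482)) (xR T3.l6 T3.l2)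
  (TrL.c (I.mix (nat_lit 17240550) (nat_lit 71940500)) T1.l11
  TrL.n)))) (by decide +kernel)
theorem bx4_4 : BoxOK sI cl9 cl4 cl6 t1 t3 b4_4 :=
  box_mk (TrL.c (I.pos (nat_lit 0) (nat_lit 0)) T3.l7
  (TrL.c (I.pos (nat_lit 0) (nat_lit 0)) T1.l6
  (TrL.c (I.mix (nat_lit 17240550) (nat_lit 96881482)) (xR T3.l6 T3.l4)
  (TrL.c (I.mix (nat_lit 17240550) (nat_lit 71940500)) T1.l9
  TrL.n)))) (by decide +kernel)
theorem bx4_5 : BoxOK sI cl9 cl4 cl6 t1 t3 b4_5 :=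
  box_mk (TrL.c (I.pos (nat_lit 0) (nat_lit 0)) T1.l4
  (TrL.c (I.pos (nat_lit 0) (nat_lit 0)) T3.l1
  (TrL.c (I.pos (nat_lit 0) (nat_lit 124588530)) T1.l1
  (TrL.c (I.pos (nat_lit 0) (nat_lit 96881482)) T3.l2
  (TrL.c (I.pos (nat_lit 0) (nat_lit 0)) T3.l5
  (TrL.c (I.pos (nat_lit 0) (nat_lit 0)) T1.l2
  (TrL.c (I.mix (nat_lit 17240550) (nat_lit 96881482)) T3.l4
  (TrL.c (I.mix (nat_lit 17240550) (nat_lit 71940500)) T1.l3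
  TrL.n)))))))) (by decide +kernel)
theorem bx4_6 : BoxOK sI cl9 cl4 cl6 t1 t3 b4_6 :=
  box_mk (TrL.c (I.pos (nat_lit 0) (nat_lit 0)) (xa T1.l0 (xb T1.l0 T1.l0))
  (TrL.c (I.pos (nat_lit 0) (nat_lit 0)) T3.l1
  (TrL.c (I.pos (nat_lit 0) (nat_lit 124588530)) (xR T1.l1 T1.l1)
  (TrL.c (I.pos (nat_lit 0) (nat_lit 96881482)) (xR T3.l2 T3.l2)
  (TrL.c (I.pos (nat_lit 0) (nat_lit 0)) (xa (xb (xk T3.l3 T3.l3) T3.l3) (xb (xk (xa T3.l3 T3.l3) (xa T3.l3 T3.l3)) (xk (xa T3.l3 T3.l3) (xa T3.l3 T3.l3))))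
  (TrL.c (I.pos (nat_lit 0) (nat_lit 0)) (xa T1.l2 (xb T1.l2 T1.l2))
  (TrL.c (I.mix (nat_lit 17240550) (nat_lit 96881482)) (xR T3.l4 (xR T3.l4 T3.l4))
  (TrL.c (I.mix (nat_lit 17240550) (nat_lit 71940500)) T1.l9
  TrL.n)))))))) (by decide +kernel)
theorem bx4_7 : BoxOK sI cl9 cl4 cl6 t1 t3 b4_7 :=
  box_mk (TrL.c (I.pos (nat_lit 0) (nat_lit 0)) (xb T1.l7 (xa T1.l7 T1.l7))
  (TrL.c (I.pos (nat_lit 0) (nat_lit 0)) T3.l7
  (TrL.c (I.pos (nat_lit 0) (nat_lit 124588530)) T1.l1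
  (TrL.c (I.pos (nat_lit 0) (nat_lit 96881482)) T3.l2
  (TrL.c (I.pos (nat_lit 0) (nat_lit 0)) T3.l8
  (TrL.c (I.pos (nat_lit 0) (nat_lit 0)) T1.l2
  (TrL.c (I.mix (nat_lit 17240550) (nat_lit 96881482)) T3.l4
  (TrL.c (I.mix (nat_lit 17240550) (nat_lit 71940500)) T1.l3
  TrL.n)))))))) (by decide +kernel)
theorem bx4_8 : BoxOK sI cl9 cl4 cl6 t1 t3 b4_8 :=
  box_mk (TrL.c (I.pos (nat_lit 0) (nat_lit 0)) (xa T1.l0 T1.l0)
  (TrL.c (I.pos (nat_lit 0) (nat_lit 0)) T3.l1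
  (TrL.c (I.pos (nat_lit 0) (nat_lit 124588530)) (xR T1.l1 T1.l1)
  (TrL.c (I.pos (nat_lit 0) (nat_lit 96881482)) (xR T3.l2 T3.l2)
  (TrL.c (I.pos (nat_lit 0) (nat_lit 0)) T3.l3
  (TrL.c (I.pos (nat_lit 0) (nat_lit 0)) T1.l2
  (TrL.c (I.mix (nat_lit 17240550) (nat_lit 96881482)) T3.l4
  (TrL.c (I.mix (nat_lit 17240550) (nat_lit 71940500)) T1.l9
  TrL.n)))))))) (by decide +kernel)
theorem bx4_9 : BoxOK sI cl9 cl4 cl6 t1 t3 b4_9 :=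
  box_mk (TrL.c (I.pos (nat_lit 0) (nat_lit 0)) T1.l7
  (TrL.c (I.pos (nat_lit 0) (nat_lit 0)) T3.l1
  (TrL.c (I.pos (nat_lit 0) (nat_lit 124588530)) T1.l1
  (TrL.c (I.pos (nat_lit 0) (nat_lit 96881482)) T3.l2
  (TrL.c (I.pos (nat_lit 0) (nat_lit 0)) T3.l5
  (TrL.c (I.pos (nat_lit 0) (nat_lit 0)) T1.l2
  (TrL.c (I.mix (nat_lit 17240550) (nat_lit 96881482)) T3.l4
  (TrL.c (I.mix (nat_lit 17240550) (nat_lit 71940500)) T1.l3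
  TrL.n)))))))) (by decide +kernel)
theorem sv4 : StarV sI cl9 cl4 cl6 t1 t3 t4 :=
  (bt_n (bt_n (bt_n (bt_b bx4_0) (bt_b bx4_1)) (bt_n (bt_b bx4_2) (bt_n (bt_b bx4_3) (bt_b bx4_4)))) (bt_n (bt_n (bt_b bx4_5) (bt_b bx4_6)) (bt_n (bt_b bx4_7) (bt_n (bt_b bx4_8) (bt_b bx4_9)))))
def S4 : StarD := StarD.mk cl9 cl4 cl6 1 3 t4
theorem bx5_0 : BoxOK sI cl9 cl6 cl4 t3 t1 b5_0 :=
  box_mk (TrL.c (I.pos (nat_lit 0) (nat_lit 0)) (xa (xb T3.l0 (xa (xb T3.l0 T3.l0) T3.l0)) (xb T3.l0 (xa T3.l0 T3.l0)))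
  (TrL.c (I.pos (nat_lit 0) (nat_lit 0)) (xa T1.l8 T1.l8)
  (TrL.c (I.pos (nat_lit 0) (nat_lit 124588530)) (xR T3.l9 T3.l9)
  (TrL.c (I.pos (nat_lit 0) (nat_lit 96881482)) (xR T1.l9 T1.l9)
  (TrL.c (I.pos (nat_lit 0) (nat_lit 0)) (xa T1.l10 (xk T1.l10 T1.l10))
  (TrL.c (I.pos (nat_lit 0) (nat_lit 0)) T3.l10
  (TrL.c (I.mix (nat_lit 17240550) (nat_lit 96881482)) (xR T1.l11 T1.l11)
  (TrL.c (I.mix (nat_lit 17240550) (nat_lit 71940500)) (xR T3.l11 T3.l11)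
  TrL.n)))))))) (by decide +kernel)
theorem bx5_1 : BoxOK sI cl9 cl6 cl4 t3 t1 b5_1 :=
  box_mk (TrL.c (I.pos (nat_lit 0) (nat_lit 0)) (xa (xb T3.l12 T3.l12) T3.l0)
  (TrL.c (I.pos (nat_lit 0) (nat_lit 0)) T1.l8
  (TrL.c (I.pos (nat_lit 0) (nat_lit 124588530)) T3.l9
  (TrL.c (I.pos (nat_lit 0) (nat_lit 96881482)) T1.l9
  (TrL.c (I.pos (nat_lit 0) (nat_lit 0)) (xa T1.l12 (xb T1.l12 T1.l12))
  (TrL.c (I.pos (nat_lit 0) (nat_lit 0)) T3.l10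
  (TrL.c (I.mix (nat_lit 17240550) (nat_lit 96881482)) T1.l11
  (TrL.c (I.mix (nat_lit 17240550) (nat_lit 71940500)) T3.l2
  TrL.n)))))))) (by decide +kernel)
theorem bx5_2 : BoxOK sI cl9 cl6 cl4 t3 t1 b5_2 :=
  box_mk (TrL.c (I.pos (nat_lit 0) (nat_lit 0)) T3.l12
  (TrL.c (I.pos (nat_lit 0) (nat_lit 0)) T1.l8
  (TrL.c (I.pos (nat_lit 0) (nat_lit 124588530)) T3.l9
  (TrL.c (I.pos (nat_lit 0) (nat_lit 96881482)) T1.l9
  (TrL.c (I.pos (nat_lit 0) (nat_lit 0)) T1.l12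
  (TrL.c (I.pos (nat_lit 0) (nat_lit 0)) T3.l10
  (TrL.c (I.mix (nat_lit 17240550) (nat_lit 96881482)) T1.l11
  (TrL.c (I.mix (nat_lit 17240550) (nat_lit 71940500)) T3.l11
  TrL.n)))))))) (by decide +kernel)
theorem bx5_3 : BoxOK sI cl9 cl6 cl4 t3 t1 b5_3 :=
  box_mk (TrL.c (I.pos (nat_lit 0) (nat_lit 0)) (xa (xb T3.l13 (xa T3.l13 T3.l13)) (xb T3.l13 T3.l13))
  (TrL.c (I.pos (nat_lit 0) (nat_lit 0)) T1.l8
  (TrL.c (I.pos (nat_lit 0) (nat_lit 124588530)) (xR T3.l9 T3.l9)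
  (TrL.c (I.pos (nat_lit 0) (nat_lit 96881482)) (xR T1.l9 T1.l9)
  (TrL.c (I.pos (nat_lit 0) (nat_lit 0)) T1.l10
  (TrL.c (I.pos (nat_lit 0) (nat_lit 0)) T3.l10
  (TrL.c (I.mix (nat_lit 17240550) (nat_lit 96881482)) (xR T1.l11 T1.l11)
  (TrL.c (I.mix (nat_lit 17240550) (nat_lit 71940500)) (xR T3.l11 T3.l11)
  TrL.n)))))))) (by decide +kernel)
theorem bx5_4 : BoxOK sI cl9 cl6 cl4 t3 t1 b5_4 :=
  box_mk (TrL.c (I.pos (nat_lit 0) (nat_lit 0)) (xa (xa (xb T3.l12 T3.l12) T3.l12) (xa T3.l12 T3.l12))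
  (TrL.c (I.pos (nat_lit 0) (nat_lit 0)) T1.l8
  (TrL.c (I.pos (nat_lit 0) (nat_lit 124588530)) T3.l9
  (TrL.c (I.pos (nat_lit 0) (nat_lit 96881482)) T1.l9
  (TrL.c (I.pos (nat_lit 0) (nat_lit 0)) T1.l12
  (TrL.c (I.pos (nat_lit 0) (nat_lit 0)) T3.l10
  (TrL.c (I.mix (nat_lit 17240550) (nat_lit 96881482)) T1.l11
  (TrL.c (I.mix (nat_lit 17240550) (nat_lit 71940500)) T3.l11
  TrL.n)))))))) (by decide +kernel)
theorem bx5_5 : BoxOK sI cl9 cl6 cl4 t3 t1 b5_5 :=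
  box_mk (TrL.c (I.pos (nat_lit 0) (nat_lit 0)) T3.l12
  (TrL.c (I.pos (nat_lit 0) (nat_lit 0)) T1.l8
  (TrL.c (I.pos (nat_lit 0) (nat_lit 124588530)) T3.l9
  (TrL.c (I.pos (nat_lit 0) (nat_lit 96881482)) T1.l9
  (TrL.c (I.pos (nat_lit 0) (nat_lit 0)) T1.l12
  (TrL.c (I.pos (nat_lit 0) (nat_lit 0)) T3.l10
  (TrL.c (I.mix (nat_lit 17240550) (nat_lit 96881482)) T1.l11
  (TrL.c (I.mix (nat_lit 17240550) (nat_lit 71940500)) T3.l11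
  TrL.n)))))))) (by decide +kernel)
theorem bx5_6 : BoxOK sI cl9 cl6 cl4 t3 t1 b5_6 :=
  box_mk (TrL.c (I.pos (nat_lit 0) (nat_lit 0)) (xa T3.l12 T3.l12)
  (TrL.c (I.pos (nat_lit 0) (nat_lit 0)) T1.l8
  (TrL.c (I.pos (nat_lit 0) (nat_lit 124588530)) T3.l9
  (TrL.c (I.pos (nat_lit 0) (nat_lit 96881482)) T1.l9
  (TrL.c (I.pos (nat_lit 0) (nat_lit 0)) T1.l12
  (TrL.c (I.pos (nat_lit 0) (nat_lit 0)) T3.l10
  (TrL.c (I.mix (nat_lit 17240550) (nat_lit 96881482)) T1.l11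
  (TrL.c (I.mix (nat_lit 17240550) (nat_lit 71940500)) T3.l11
  TrL.n)))))))) (by decide +kernel)
theorem bx5_7 : BoxOK sI cl9 cl6 cl4 t3 t1 b5_7 :=
  box_mk (TrL.c (I.pos (nat_lit 0) (nat_lit 0)) T3.l13
  (TrL.c (I.pos (nat_lit 0) (nat_lit 0)) T1.l8
  (TrL.c (I.pos (nat_lit 0) (nat_lit 124588530)) T3.l9
  (TrL.c (I.pos (nat_lit 0) (nat_lit 96881482)) T1.l9
  (TrL.c (I.pos (nat_lit 0) (nat_lit 0)) T1.l13
  (TrL.c (I.pos (nat_lit 0) (nat_lit 0)) T3.l10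
  (TrL.c (I.mix (nat_lit 17240550) (nat_lit 96881482)) T1.l11
  (TrL.c (I.mix (nat_lit 17240550) (nat_lit 71940500)) T3.l11
  TrL.n)))))))) (by decide +kernel)
theorem bx5_8 : BoxOK sI cl9 cl6 cl4 t3 t1 b5_8 :=
  box_mk (TrL.c (I.pos (nat_lit 0) (nat_lit 0)) (xb (xa T3.l13 T3.l13) (xa T3.l13 T3.l13))
  (TrL.c (I.pos (nat_lit 0) (nat_lit 0)) T1.l8
  (TrL.c (I.pos (nat_lit 0) (nat_lit 124588530)) (xR T3.l9 T3.l9)
  (TrL.c (I.pos (nat_lit 0) (nat_lit 96881482)) (xR T1.l9 T1.l9)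
  (TrL.c (I.pos (nat_lit 0) (nat_lit 0)) (xb (xk T1.l13 T1.l13) T1.l13)
  (TrL.c (I.pos (nat_lit 0) (nat_lit 0)) T3.l10
  (TrL.c (I.mix (nat_lit 17240550) (nat_lit 96881482)) (xR T1.l11 T1.l11)
  (TrL.c (I.mix (nat_lit 17240550) (nat_lit 71940500)) T3.l2
  TrL.n)))))))) (by decide +kernel)
theorem bx5_9 : BoxOK sI cl9 cl6 cl4 t3 t1 b5_9 :=
  box_mk (TrL.c (I.pos (nat_lit 0) (nat_lit 0)) (xa (xa (xb (xa T3.l12 T3.l12) (xa T3.l12 T3.l12)) (xb T3.l12 T3.l12)) (xa T3.l12 T3.l12))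
  (TrL.c (I.pos (nat_lit 0) (nat_lit 0)) (xa T1.l8 T1.l8)
  (TrL.c (I.pos (nat_lit 0) (nat_lit 124588530)) T3.l9
  (TrL.c (I.pos (nat_lit 0) (nat_lit 96881482)) T1.l9
  (TrL.c (I.pos (nat_lit 0) (nat_lit 0)) (xa T1.l12 T1.l12)
  (TrL.c (I.pos (nat_lit 0) (nat_lit 0)) T3.l10
  (TrL.c (I.mix (nat_lit 17240550) (nat_lit 96881482)) T1.l11
  (TrL.c (I.mix (nat_lit 17240550) (nat_lit 71940500)) T3.l11
  TrL.n)))))))) (by decide +kernel)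
theorem bx5_10 : BoxOK sI cl9 cl6 cl4 t3 t1 b5_10 :=
  box_mk (TrL.c (I.pos (nat_lit 0) (nat_lit 0)) (xb T3.l12 (xa T3.l12 T3.l12))
  (TrL.c (I.pos (nat_lit 0) (nat_lit 0)) T1.l8
  (TrL.c (I.pos (nat_lit 0) (nat_lit 124588530)) T3.l9
  (TrL.c (I.pos (nat_lit 0) (nat_lit 96881482)) T1.l9
  (TrL.c (I.pos (nat_lit 0) (nat_lit 0)) (xb T1.l12 T1.l12)
  (TrL.c (I.pos (nat_lit 0) (nat_lit 0)) T3.l10
  (TrL.c (I.mix (nat_lit 17240550) (nat_lit 96881482)) T1.l11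
  (TrL.c (I.mix (nat_lit 17240550) (nat_lit 71940500)) T3.l11
  TrL.n)))))))) (by decide +kernel)
theorem bx5_11 : BoxOK sI cl9 cl6 cl4 t3 t1 b5_11 :=
  box_mk (TrL.c (I.pos (nat_lit 0) (nat_lit 0)) (xa (xa T3.l12 T3.l12) T3.l12)
  (TrL.c (I.pos (nat_lit 0) (nat_lit 0)) T1.l8
  (TrL.c (I.pos (nat_lit 0) (nat_lit 124588530)) T3.l9
  (TrL.c (I.pos (nat_lit 0) (nat_lit 96881482)) T1.l11
  (TrL.c (I.pos (nat_lit 0) (nat_lit 0)) T1.l12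
  (TrL.c (I.pos (nat_lit 0) (nat_lit 0)) T3.l10
  (TrL.c (I.mix (nat_lit 17240550) (nat_lit 96881482)) T1.l11
  (TrL.c (I.mix (nat_lit 17240550) (nat_lit 71940500)) T3.l11
  TrL.n)))))))) (by decide +kernel)
theorem bx5_12 : BoxOK sI cl9 cl6 cl4 t3 t1 b5_12 :=
  box_mk (TrL.c (I.pos (nat_lit 0) (nat_lit 0)) (xa (xb T3.l0 (xa T3.l0 T3.l0)) (xa T3.l0 T3.l0))
  (TrL.c (I.pos (nat_lit 0) (nat_lit 0)) (xa T1.l8 T1.l8)
  (TrL.c (I.pos (nat_lit 0) (nat_lit 124588530)) (xR T3.l9 T3.l4)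
  (TrL.c (I.pos (nat_lit 0) (nat_lit 96881482)) (xR T1.l9 T1.l9)
  (TrL.c (I.pos (nat_lit 0) (nat_lit 0)) (xa (xb (xa T1.l10 T1.l10) T1.l10) (xb (xk (xa T1.l10 T1.l10) (xa T1.l10 T1.l10)) (xk (xa T1.l10 T1.l10) (xa T1.l10 T1.l10))))
  (TrL.c (I.pos (nat_lit 0) (nat_lit 0)) T3.l10
  (TrL.c (I.mix (nat_lit 17240550) (nat_lit 96881482)) (xR T1.l11 (xR T1.l11 T1.l11))
  (TrL.c (I.mix (nat_lit 17240550) (nat_lit 71940500)) (xR T3.l11 T3.l11)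
  TrL.n)))))))) (by decide +kernel)
theorem bx5_13 : BoxOK sI cl9 cl6 cl4 t3 t1 b5_13 :=
  box_mk (TrL.c (I.pos (nat_lit 0) (nat_lit 0)) (xa (xb T3.l0 T3.l0) (xb T3.l0 T3.l0))
  (TrL.c (I.pos (nat_lit 0) (nat_lit 0)) T1.l8
  (TrL.c (I.pos (nat_lit 0) (nat_lit 124588530)) (xR T3.l9 T3.l9)
  (TrL.c (I.pos (nat_lit 0) (nat_lit 96881482)) (xR T1.l9 T1.l9)
  (TrL.c (I.pos (nat_lit 0) (nat_lit 0)) (xk T1.l10 T1.l10)
  (TrL.c (I.pos (nat_lit 0) (nat_lit 0)) T3.l10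
  (TrL.c (I.mix (nat_lit 17240550) (nat_lit 96881482)) (xR T1.l11 T1.l11)
  (TrL.c (I.mix (nat_lit 17240550) (nat_lit 71940500)) (xR T3.l11 T3.l11)
  TrL.n)))))))) (by decide +kernel)
theorem sv5 : StarV sI cl9 cl6 cl4 t3 t1 t5 :=
  (bt_n (bt_n (bt_n (bt_b bx5_0) (bt_n (bt_b bx5_1) (bt_b bx5_2))) (bt_n (bt_n (bt_b bx5_3) (bt_b bx5_4)) (bt_n (bt_b bx5_5) (bt_b bx5_6)))) (bt_n (bt_n (bt_b bx5_7) (bt_n (bt_b bx5_8) (bt_b bx5_9))) (bt_n (bt_n (bt_b bx5_10) (bt_b bx5_11)) (bt_n (bt_b bx5_12) (bt_b bx5_13)))))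
def S5 : StarD := StarD.mk cl9 cl6 cl4 3 1 t5
def G : List StarD := [S0, S1, S2, S3, S4, S5]
theorem so0 : StarOK sI G S0 :=
  star_mk (by decide) (by decide) rfl rfl rfl rfl rfl rfl (rfl : _ = t2) (rfl : _ = t4)
  (st_mk (Pth.l (Pth.l (Pth.l Pth.z))) (nat_lit 193114148) (nat_lit 194691858) (by decide +kernel))
  (st_mk (Pth.l (Pth.l (Pth.l Pth.z))) (nat_lit 231031775) (nat_lit 233329098) (by decide +kernel))
  (st_mk (Pth.l (Pth.l (Pth.l Pth.z))) (nat_lit 275531441) (nat_lit 278870619) (by decide +kernel)) sv0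
theorem so1 : StarOK sI G S1 :=
  star_mk (by decide) (by decide) rfl rfl rfl rfl rfl rfl (rfl : _ = t4) (rfl : _ = t2)
  (st_mk (Pth.l (Pth.l (Pth.l Pth.z))) (nat_lit 118545613) (nat_lit 138199889) (by decide +kernel))
  (st_mk (Pth.l (Pth.l (Pth.l Pth.z))) (nat_lit 154068461) (nat_lit 178246566) (by decide +kernel))
  (st_mk (Pth.l (Pth.l (Pth.l Pth.z))) (nat_lit 198158739) (nat_lit 223413495) (by decide +kernel)) sv1
theorem so2 : StarOK sI G S2 :=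
  star_mk (by decide) (by decide) rfl rfl rfl rfl rfl rfl (rfl : _ = t0) (rfl : _ = t5)
  (st_mk (Pth.l (Pth.l (Pth.l Pth.z))) (nat_lit 373814026) (nat_lit 375720996) (by decide +kernel))
  (st_mk (Pth.l (Pth.l (Pth.l Pth.z))) (nat_lit 410512873) (nat_lit 412823483) (by decide +kernel))
  (st_mk (Pth.l (Pth.l (Pth.l Pth.z))) (nat_lit 453079868) (nat_lit 455911023) (by decide +kernel)) sv2
theorem so3 : StarOK sI G S3 :=
  star_mk (by decide) (by decide) rfl rfl rfl rfl rfl rfl (rfl : _ = t5) (rfl : _ = t0)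
  (st_mk (Pth.l (Pth.l (Pth.l Pth.z))) (nat_lit 116778694) (nat_lit 135547797) (by decide +kernel))
  (st_mk (Pth.l (Pth.l (Pth.l Pth.z))) (nat_lit 152871203) (nat_lit 171990226) (by decide +kernel))
  (st_mk (Pth.l (Pth.l (Pth.l Pth.z))) (nat_lit 194931689) (nat_lit 214525603) (by decide +kernel)) sv3
theorem so4 : StarOK sI G S4 :=
  star_mk (by decide) (by decide) rfl rfl rfl rfl rfl rfl (rfl : _ = t1) (rfl : _ = t3)
  (st_mk (Pth.l (Pth.l (Pth.l Pth.z))) (nat_lit 367148522) (nat_lit 370314774) (by decide +kernel))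
  (st_mk (Pth.l (Pth.l (Pth.l Pth.z))) (nat_lit 401982426) (nat_lit 406759890) (by decide +kernel))
  (st_mk (Pth.l (Pth.l (Pth.l Pth.z))) (nat_lit 442849825) (nat_lit 448312724) (by decide +kernel)) sv4
theorem so5 : StarOK sI G S5 :=
  star_mk (by decide) (by decide) rfl rfl rfl rfl rfl rfl (rfl : _ = t3) (rfl : _ = t1)
  (st_mk (Pth.l (Pth.l (Pth.l Pth.z))) (nat_lit 186762702) (nat_lit 188334501) (by decide +kernel))
  (st_mk (Pth.l (Pth.l (Pth.l Pth.z))) (nat_lit 222038955) (nat_lit 224042089) (by decide +kernel))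
  (st_mk (Pth.l (Pth.l (Pth.l Pth.z))) (nat_lit 262824773) (nat_lit 265423160) (by decide +kernel)) sv5
theorem ok : GroupOK (nat_lit 91226112) (nat_lit 150339584) G := grp_mk (allS_c so0 (allS_c so1 (allS_c so2 (allS_c so3 (allS_c so4 (allS_c so5 allS_n))))))
theorem cov : GCov G cl4 cl6 cl9 := cov_mk
  ⟨0, by decide, rfl, rfl, rfl⟩ ⟨1, by decide, rfl, rfl, rfl⟩ ⟨2, by decide, rfl, rfl, rfl⟩ ⟨3, by decide, rfl, rfl, rfl⟩ ⟨4, by decide, rfl, rfl, rfl⟩ ⟨5, by decide, rfl, rfl, rfl⟩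
end Q135_1

namespace Q135_2
def sI : I := I.pos (nat_lit 150274048) (nat_lit 209387520)
def b0_0 : Bx := Bx.mk (St.mk (I.pos (nat_lit 156499968) (nat_lit 232456192)) (I.mix (nat_lit 4079616) (nat_lit 71450624)) (I.mix (nat_lit 13107200) (nat_lit 65110016)) (I.pos (nat_lit 186908672) (nat_lit 311476224)) (I.mix (nat_lit 119046144) (nat_lit 86425600)) (I.mix (nat_lit 75579392) (nat_lit 73383936)) (I.mix (nat_lit 122421248) (nat_lit 114278400)))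
  false (nat_lit 49813861)
def b0_1 : Bx := Bx.mk (St.mk (I.mix (nat_lit 32735232) (nat_lit 99287040)) (I.mix (nat_lit 9322496) (nat_lit 39682048)) (I.neg (nat_lit 901120) (nat_lit 33505280)) (I.pos (nat_lit 79085568) (nat_lit 125190144)) (I.mix (nat_lit 45891584) (nat_lit 65585152)) (I.mix (nat_lit 55345152) (nat_lit 37912576)) (I.mix (nat_lit 34963456) (nat_lit 24821760)))
  false (nat_lit 0)
def b0_2 : Bx := Bx.mk (St.mk (I.pos (nat_lit 76742656) (nat_lit 115343360)) (I.mix (nat_lit 54067200) (nat_lit 11304960)) (I.neg (nat_lit 17399808) (nat_lit 68255744)) (I.pos (nat_lit 108199936) (nat_lit 139296768)) (I.mix (nat_lit 97845248) (nat_lit 46530560)) (I.mix (nat_lit 45563904) (nat_lit 88834048)) (I.mix (nat_lit 30064640) (nat_lit 63225856)))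
  false (nat_lit 0)
def b0_3 : Bx := Bx.mk (St.mk (I.mix (nat_lit 48365568) (nat_lit 29310976)) (I.mix (nat_lit 34422784) (nat_lit 7421952)) (I.neg (nat_lit 8077312) (nat_lit 25051136)) (I.pos (nat_lit 80855040) (nat_lit 101875712)) (I.mix (nat_lit 50479104) (nat_lit 31408128)) (I.mix (nat_lit 26656768) (nat_lit 41091072)) (I.mix (nat_lit 15679488) (nat_lit 10633216)))
  false (nat_lit 0)
def b0_4 : Bx := Bx.mk (St.mk (I.pos (nat_lit 73023488) (nat_lit 92012544)) (I.mix (nat_lit 11255808) (nat_lit 10076160)) (I.neg (nat_lit 17022976) (nat_lit 34684928)) (I.pos (nat_lit 107347968) (nat_lit 122060800)) (I.mix (nat_lit 38305792) (nat_lit 28442624)) (I.mix (nat_lit 27066368) (nat_lit 25182208)) (I.mix (nat_lit 16449536) (nat_lit 20103168)))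
  false (nat_lit 0)
def b0_5 : Bx := Bx.mk (St.mk (I.mix (nat_lit 60456960) (nat_lit 8060928)) (I.mix (nat_lit 9863168) (nat_lit 14811136)) (I.neg (nat_lit 15040512) (nat_lit 28295168)) (I.pos (nat_lit 85295104) (nat_lit 102465536)) (I.mix (nat_lit 32522240) (nat_lit 30048256)) (I.mix (nat_lit 26918912) (nat_lit 26984448)) (I.mix (nat_lit 10715136) (nat_lit 12812288)))
  false (nat_lit 0)
def b0_6 : Bx := Bx.mk (St.mk (I.pos (nat_lit 215236608) (nat_lit 259375104)) (I.mix (nat_lit 16990208) (nat_lit 19103744)) (I.neg (nat_lit 34668544) (nat_lit 107692032)) (I.pos (nat_lit 276267008) (nat_lit 357941248)) (I.mix (nat_lit 106921984) (nat_lit 28409856)) (I.mix (nat_lit 60178432) (nat_lit 67665920)) (I.mix (nat_lit 87572480) (nat_lit 136118272)))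
  false (nat_lit 31600942)
def b0_7 : Bx := Bx.mk (St.mk (I.pos (nat_lit 186892288) (nat_lit 249511936)) (I.mix (nat_lit 16433152) (nat_lit 66502656)) (I.mix (nat_lit 98123776) (nat_lit 54657024)) (I.pos (nat_lit 252821504) (nat_lit 333791232)) (I.mix (nat_lit 121683968) (nat_lit 106070016)) (I.mix (nat_lit 107642880) (nat_lit 90570752)) (I.mix (nat_lit 186662912) (nat_lit 163430400)))
  false (nat_lit 49735403)
def b0_8 : Bx := Bx.mk (St.mk (I.pos (nat_lit 73662464) (nat_lit 161398784)) (I.neg (nat_lit 4964352) (nat_lit 55328768)) (I.neg (nat_lit 21446656) (nat_lit 68845568)) (I.pos (nat_lit 113672192) (nat_lit 188923904)) (I.mix (nat_lit 92946432) (nat_lit 65126400)) (I.mix (nat_lit 52789248) (nat_lit 83312640)) (I.mix (nat_lit 35618816) (nat_lit 73924608)))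
  false (nat_lit 0)
def b0_9 : Bx := Bx.mk (St.mk (I.mix (nat_lit 42909696) (nat_lit 50872320)) (I.mix (nat_lit 34668544) (nat_lit 9601024)) (I.neg (nat_lit 8421376) (nat_lit 28852224)) (I.pos (nat_lit 79544320) (nat_lit 102334464)) (I.mix (nat_lit 49299456) (nat_lit 42680320)) (I.mix (nat_lit 30294016) (nat_lit 46088192)) (I.mix (nat_lit 14188544) (nat_lit 19824640)))
  false (nat_lit 0)
def b0_10 : Bx := Bx.mk (St.mk (I.pos (nat_lit 161808384) (nat_lit 215564288)) (I.mix (nat_lit 4145152) (nat_lit 64995328)) (I.mix (nat_lit 18481152) (nat_lit 59883520)) (I.pos (nat_lit 204210176) (nat_lit 276447232)) (I.mix (nat_lit 130318336) (nat_lit 60735488)) (I.mix (nat_lit 119635968) (nat_lit 83116032)) (I.mix (nat_lit 105988096) (nat_lit 78020608)))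
  false (nat_lit 40895626)
def b0_11 : Bx := Bx.mk (St.mk (I.mix (nat_lit 52510720) (nat_lit 74383360)) (I.mix (nat_lit 13041664) (nat_lit 34603008)) (I.neg (nat_lit 3063808) (nat_lit 28917760)) (I.pos (nat_lit 79953920) (nat_lit 108232704)) (I.mix (nat_lit 53248000) (nat_lit 48709632)) (I.mix (nat_lit 58490880) (nat_lit 30212096)) (I.mix (nat_lit 23773184) (nat_lit 28459008)))
  false (nat_lit 0)
def b0_12 : Bx := Bx.mk (St.mk (I.pos (nat_lit 130400256) (nat_lit 199294976)) (I.mix (nat_lit 36487168) (nat_lit 13926400)) (I.neg (nat_lit 1867776) (nat_lit 58654720)) (I.pos (nat_lit 157728768) (nat_lit 239747072)) (I.mix (nat_lit 67715072) (nat_lit 67977216)) (I.mix (nat_lit 68943872) (nat_lit 64126976)) (I.mix (nat_lit 66895872) (nat_lit 55623680)))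
  false (nat_lit 0)
def b0_13 : Bx := Bx.mk (St.mk (I.pos (nat_lit 160432128) (nat_lit 203177984)) (I.mix (nat_lit 12681216) (nat_lit 34635776)) (I.mix (nat_lit 31490048) (nat_lit 26427392)) (I.pos (nat_lit 204783616) (nat_lit 245284864)) (I.mix (nat_lit 120864768) (nat_lit 85147648)) (I.mix (nat_lit 132530176) (nat_lit 79642624)) (I.mix (nat_lit 128843776) (nat_lit 67567616)))
  false (nat_lit 2971904)
def t0 : BTr := (BTr.n (BTr.n (BTr.n (BTr.b b0_0) (BTr.n (BTr.b b0_1) (BTr.b b0_2))) (BTr.n (BTr.n (BTr.b b0_3) (BTr.b b0_4)) (BTr.n (BTr.b b0_5) (BTr.b b0_6)))) (BTr.n (BTr.n (BTr.b b0_7) (BTr.n (BTr.b b0_8) (BTr.b b0_9))) (BTr.n (BTr.n (BTr.b b0_10) (BTr.b b0_11)) (BTr.n (BTr.b b0_12) (BTr.b b0_13)))))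
namespace T0
def l0 : Tr := Tr.L (Pth.l (Pth.l (Pth.l Pth.z)))
def l1 : Tr := Tr.L (Pth.l (Pth.l (Pth.r (Pth.l Pth.z))))
def l2 : Tr := Tr.L (Pth.l (Pth.l (Pth.r (Pth.r Pth.z))))
def l3 : Tr := Tr.L (Pth.l (Pth.r (Pth.l (Pth.l Pth.z))))
def l4 : Tr := Tr.L (Pth.l (Pth.r (Pth.l (Pth.r Pth.z))))
def l5 : Tr := Tr.L (Pth.l (Pth.r (Pth.r (Pth.l Pth.z))))
def l6 : Tr := Tr.L (Pth.l (Pth.r (Pth.r (Pth.r Pth.z))))
def l7 : Tr := Tr.L (Pth.r (Pth.l (Pth.l Pth.z)))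
def l8 : Tr := Tr.L (Pth.r (Pth.l (Pth.r (Pth.l Pth.z))))
def l9 : Tr := Tr.L (Pth.r (Pth.l (Pth.r (Pth.r Pth.z))))
def l10 : Tr := Tr.L (Pth.r (Pth.r (Pth.l (Pth.l Pth.z))))
def l11 : Tr := Tr.L (Pth.r (Pth.r (Pth.l (Pth.r Pth.z))))
def l12 : Tr := Tr.L (Pth.r (Pth.r (Pth.r (Pth.l Pth.z))))
def l13 : Tr := Tr.L (Pth.r (Pth.r (Pth.r (Pth.r Pth.z))))
end T0
def b1_0 : Bx := Bx.mk (St.mk (I.pos (nat_lit 156401664) (nat_lit 236388352)) (I.mix (nat_lit 3227648) (nat_lit 56098816)) (I.mix (nat_lit 4227072) (nat_lit 74629120)) (I.pos (nat_lit 111558656) (nat_lit 255901696)) (I.mix (nat_lit 121634816) (nat_lit 82444288)) (I.mix (nat_lit 81297408) (nat_lit 71745536)) (I.mix (nat_lit 126107648) (nat_lit 110821376)))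
  false (nat_lit 42048176)
def b1_1 : Bx := Bx.mk (St.mk (I.mix (nat_lit 19562496) (nat_lit 133005312)) (I.mix (nat_lit 7569408) (nat_lit 30932992)) (I.mix (nat_lit 19349504) (nat_lit 14024704)) (I.pos (nat_lit 12828672) (nat_lit 100270080)) (I.mix (nat_lit 43384832) (nat_lit 51707904)) (I.mix (nat_lit 44679168) (nat_lit 32735232)) (I.mix (nat_lit 34947072) (nat_lit 21659648)))
  false (nat_lit 16876386)
def b1_2 : Bx := Bx.mk (St.mk (I.pos (nat_lit 103120896) (nat_lit 146423808)) (I.mix (nat_lit 49217536) (nat_lit 10485760)) (I.neg (nat_lit 1638400) (nat_lit 58163200)) (I.pos (nat_lit 60522496) (nat_lit 112689152)) (I.mix (nat_lit 101269504) (nat_lit 47857664)) (I.mix (nat_lit 45023232) (nat_lit 91979776)) (I.mix (nat_lit 32866304) (nat_lit 77529088)))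
  false (nat_lit 34161996)
def b1_3 : Bx := Bx.mk (St.mk (I.mix (nat_lit 24461312) (nat_lit 93650944)) (I.mix (nat_lit 27066368) (nat_lit 5029888)) (I.mix (nat_lit 23674880) (nat_lit 212992)) (I.pos (nat_lit 14827520) (nat_lit 68108288)) (I.mix (nat_lit 46170112) (nat_lit 24494080)) (I.mix (nat_lit 21708800) (nat_lit 39944192)) (I.mix (nat_lit 11747328) (nat_lit 21348352)))
  false (nat_lit 14203608)
def b1_4 : Bx := Bx.mk (St.mk (I.pos (nat_lit 189743104) (nat_lit 248004608)) (I.mix (nat_lit 14778368) (nat_lit 55083008)) (I.mix (nat_lit 60047360) (nat_lit 70500352)) (I.pos (nat_lit 189202432) (nat_lit 275873792)) (I.mix (nat_lit 110903296) (nat_lit 99516416)) (I.mix (nat_lit 106840064) (nat_lit 86016000)) (I.mix (nat_lit 178683904) (nat_lit 137379840)))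
  false (nat_lit 67022836)
def b1_5 : Bx := Bx.mk (St.mk (I.mix (nat_lit 30752768) (nat_lit 81723392)) (I.mix (nat_lit 5750784) (nat_lit 6422528)) (I.neg (nat_lit 835584) (nat_lit 10862592)) (I.pos (nat_lit 15564800) (nat_lit 59342848)) (I.mix (nat_lit 14483456) (nat_lit 8519680)) (I.mix (nat_lit 7536640) (nat_lit 7389184)) (I.mix (nat_lit 3866624) (nat_lit 4489216)))
  false (nat_lit 0)
def b1_6 : Bx := Bx.mk (St.mk (I.pos (nat_lit 99565568) (nat_lit 126205952)) (I.mix (nat_lit 9715712) (nat_lit 8568832)) (I.neg (nat_lit 2277376) (nat_lit 21315584)) (I.pos (nat_lit 58589184) (nat_lit 97419264)) (I.mix (nat_lit 37224448) (nat_lit 25640960)) (I.mix (nat_lit 24477696) (nat_lit 25395200)) (I.mix (nat_lit 19562496) (nat_lit 22659072)))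
  false (nat_lit 0)
def b1_7 : Bx := Bx.mk (St.mk (I.pos (nat_lit 209895424) (nat_lit 256704512)) (I.mix (nat_lit 15302656) (nat_lit 17612800)) (I.neg (nat_lit 2080768) (nat_lit 66600960)) (I.pos (nat_lit 211910656) (nat_lit 298778624)) (I.mix (nat_lit 103071744) (nat_lit 25427968)) (I.mix (nat_lit 54804480) (nat_lit 59637760)) (I.mix (nat_lit 87867392) (nat_lit 113541120)))
  false (nat_lit 0)
def b1_8 : Bx := Bx.mk (St.mk (I.pos (nat_lit 102596608) (nat_lit 181010432)) (I.mix (nat_lit 49659904) (nat_lit 360448)) (I.neg (nat_lit 7634944) (nat_lit 59129856)) (I.pos (nat_lit 71860224) (nat_lit 162529280)) (I.mix (nat_lit 86114304) (nat_lit 46727168)) (I.mix (nat_lit 45744128) (nat_lit 69484544)) (I.mix (nat_lit 39878656) (nat_lit 72794112)))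
  false (nat_lit 40066408)
def b1_9 : Bx := Bx.mk (St.mk (I.mix (nat_lit 26722304) (nat_lit 109625344)) (I.mix (nat_lit 30031872) (nat_lit 7553024)) (I.mix (nat_lit 26296320) (nat_lit 573440)) (I.pos (nat_lit 12599296) (nat_lit 79364096)) (I.mix (nat_lit 50987008) (nat_lit 32948224)) (I.mix (nat_lit 26722304) (nat_lit 35340288)) (I.mix (nat_lit 16023552) (nat_lit 22036480)))
  false (nat_lit 28119100)
def b1_10 : Bx := Bx.mk (St.mk (I.pos (nat_lit 167985152) (nat_lit 217268224)) (I.mix (nat_lit 13926400) (nat_lit 56803328)) (I.mix (nat_lit 13271040) (nat_lit 75513856)) (I.pos (nat_lit 135643136) (nat_lit 222724096)) (I.mix (nat_lit 150011904) (nat_lit 65585152)) (I.mix (nat_lit 142721024) (nat_lit 93667328)) (I.mix (nat_lit 155779072) (nat_lit 102154240)))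
  false (nat_lit 0)
def b1_11 : Bx := Bx.mk (St.mk (I.mix (nat_lit 30081024) (nat_lit 129957888)) (I.mix (nat_lit 14794752) (nat_lit 34078720)) (I.mix (nat_lit 17219584) (nat_lit 18006016)) (I.pos (nat_lit 13238272) (nat_lit 96632832)) (I.mix (nat_lit 56999936) (nat_lit 39010304)) (I.mix (nat_lit 48758784) (nat_lit 38633472)) (I.mix (nat_lit 28540928) (nat_lit 22446080)))
  false (nat_lit 28504845)
def b1_12 : Bx := Bx.mk (St.mk (I.pos (nat_lit 143179776) (nat_lit 205750272)) (I.mix (nat_lit 33751040) (nat_lit 8060928)) (I.mix (nat_lit 46743552) (nat_lit 7110656)) (I.pos (nat_lit 104562688) (nat_lit 196853760)) (I.mix (nat_lit 63668224) (nat_lit 58671104)) (I.mix (nat_lit 61128704) (nat_lit 58392576)) (I.mix (nat_lit 67010560) (nat_lit 61177856)))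
  false (nat_lit 46744496)
def b1_13 : Bx := Bx.mk (St.mk (I.pos (nat_lit 167837696) (nat_lit 205488128)) (I.mix (nat_lit 19005440) (nat_lit 24231936)) (I.mix (nat_lit 23592960) (nat_lit 31457280)) (I.pos (nat_lit 137248768) (nat_lit 195936256)) (I.mix (nat_lit 95207424) (nat_lit 69025792)) (I.mix (nat_lit 105234432) (nat_lit 69533696)) (I.mix (nat_lit 118898688) (nat_lit 74072064)))
  false (nat_lit 0)
def t1 : BTr := (BTr.n (BTr.n (BTr.n (BTr.b b1_0) (BTr.n (BTr.b b1_1) (BTr.b b1_2))) (BTr.n (BTr.n (BTr.b b1_3) (BTr.b b1_4)) (BTr.n (BTr.b b1_5) (BTr.b b1_6)))) (BTr.n (BTr.n (BTr.b b1_7) (BTr.n (BTr.b b1_8) (BTr.b b1_9))) (BTr.n (BTr.n (BTr.b b1_10) (BTr.b b1_11)) (BTr.n (BTr.b b1_12) (BTr.b b1_13)))))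
namespace T1
def l0 : Tr := Tr.L (Pth.l (Pth.l (Pth.l Pth.z)))
def l1 : Tr := Tr.L (Pth.l (Pth.l (Pth.r (Pth.l Pth.z))))
def l2 : Tr := Tr.L (Pth.l (Pth.l (Pth.r (Pth.r Pth.z))))
def l3 : Tr := Tr.L (Pth.l (Pth.r (Pth.l (Pth.l Pth.z))))
def l4 : Tr := Tr.L (Pth.l (Pth.r (Pth.l (Pth.r Pth.z))))
def l5 : Tr := Tr.L (Pth.l (Pth.r (Pth.r (Pth.l Pth.z))))
def l6 : Tr := Tr.L (Pth.l (Pth.r (Pth.r (Pth.r Pth.z))))
def l7 : Tr := Tr.L (Pth.r (Pth.l (Pth.l Pth.z)))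
def l8 : Tr := Tr.L (Pth.r (Pth.l (Pth.r (Pth.l Pth.z))))
def l9 : Tr := Tr.L (Pth.r (Pth.l (Pth.r (Pth.r Pth.z))))
def l10 : Tr := Tr.L (Pth.r (Pth.r (Pth.l (Pth.l Pth.z))))
def l11 : Tr := Tr.L (Pth.r (Pth.r (Pth.l (Pth.r Pth.z))))
def l12 : Tr := Tr.L (Pth.r (Pth.r (Pth.r (Pth.l Pth.z))))
def l13 : Tr := Tr.L (Pth.r (Pth.r (Pth.r (Pth.r Pth.z))))
end T1
def b2_0 : Bx := Bx.mk (St.mk (I.pos (nat_lit 141492224) (nat_lit 219201536)) (I.mix (nat_lit 5554176) (nat_lit 96993280)) (I.mix (nat_lit 4898816) (nat_lit 84525056)) (I.pos (nat_lit 369328128) (nat_lit 467550208)) (I.mix (nat_lit 166412288) (nat_lit 99418112)) (I.mix (nat_lit 104267776) (nat_lit 94453760)) (I.mix (nat_lit 125435904) (nat_lit 129417216)))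
  false (nat_lit 88820940)
def b2_1 : Bx := Bx.mk (St.mk (I.mix (nat_lit 56066048) (nat_lit 19562496)) (I.mix (nat_lit 17891328) (nat_lit 85377024)) (I.neg (nat_lit 50921472) (nat_lit 76480512)) (I.pos (nat_lit 260521984) (nat_lit 291766272)) (I.mix (nat_lit 53526528) (nat_lit 116736000)) (I.mix (nat_lit 89227264) (nat_lit 68911104)) (I.mix (nat_lit 43663360) (nat_lit 34537472)))
  true (nat_lit 0)
def b2_2 : Bx := Bx.mk (St.mk (I.pos (nat_lit 8273920) (nat_lit 54640640)) (I.neg (nat_lit 30851072) (nat_lit 84852736)) (I.neg (nat_lit 51855360) (nat_lit 76955648)) (I.pos (nat_lit 265240576) (nat_lit 291504128)) (I.mix (nat_lit 117538816) (nat_lit 58671104)) (I.mix (nat_lit 71942144) (nat_lit 88719360)) (I.mix (nat_lit 45793280) (nat_lit 40239104)))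
  false (nat_lit 40816375)
def b2_3 : Bx := Bx.mk (St.mk (I.pos (nat_lit 14548992) (nat_lit 127172608)) (I.neg (nat_lit 3489792) (nat_lit 89456640)) (I.neg (nat_lit 8650752) (nat_lit 89096192)) (I.pos (nat_lit 263290880) (nat_lit 335134720)) (I.mix (nat_lit 138838016) (nat_lit 88473600)) (I.mix (nat_lit 83148800) (nat_lit 105152512)) (I.mix (nat_lit 90898432) (nat_lit 89997312)))
  false (nat_lit 89584511)
def b2_4 : Bx := Bx.mk (St.mk (I.pos (nat_lit 88555520) (nat_lit 192200704)) (I.mix (nat_lit 41680896) (nat_lit 88391680)) (I.mix (nat_lit 47054848) (nat_lit 83607552)) (I.pos (nat_lit 297123840) (nat_lit 433373184)) (I.mix (nat_lit 175095808) (nat_lit 94502912)) (I.mix (nat_lit 163004416) (nat_lit 123453440)) (I.mix (nat_lit 158056448) (nat_lit 146472960)))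
  false (nat_lit 72418162)
def b2_5 : Bx := Bx.mk (St.mk (I.neg (nat_lit 14532608) (nat_lit 127172608)) (I.pos (nat_lit 3440640) (nat_lit 89473024)) (I.neg (nat_lit 7012352) (nat_lit 89096192)) (I.pos (nat_lit 263290880) (nat_lit 335101952)) (I.mix (nat_lit 88424448) (nat_lit 138838016)) (I.mix (nat_lit 105152512) (nat_lit 83148800)) (I.mix (nat_lit 90914816) (nat_lit 90013696)))
  true (nat_lit 0)
def b2_6 : Bx := Bx.mk (St.mk (I.pos (nat_lit 177274880) (nat_lit 290799616)) (I.mix (nat_lit 39534592) (nat_lit 56557568)) (I.mix (nat_lit 204947456) (nat_lit 15286272)) (I.pos (nat_lit 405569536) (nat_lit 589791232)) (I.mix (nat_lit 107593728) (nat_lit 78675968)) (I.mix (nat_lit 91291648) (nat_lit 76627968)) (I.mix (nat_lit 155090944) (nat_lit 157335552)))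
  false (nat_lit 46293977)
def b2_7 : Bx := Bx.mk (St.mk (I.mix (nat_lit 19365888) (nat_lit 41664512)) (I.mix (nat_lit 44941312) (nat_lit 21626880)) (I.neg (nat_lit 51593216) (nat_lit 64716800)) (I.pos (nat_lit 261521408) (nat_lit 277676032)) (I.mix (nat_lit 57049088) (nat_lit 49823744)) (I.mix (nat_lit 46284800) (nat_lit 43352064)) (I.mix (nat_lit 13385728) (nat_lit 17547264)))
  false (nat_lit 0)
def b2_8 : Bx := Bx.mk (St.mk (I.pos (nat_lit 157155328) (nat_lit 219889664)) (I.pos (nat_lit 20856832) (nat_lit 95469568)) (I.mix (nat_lit 33161216) (nat_lit 74842112)) (I.pos (nat_lit 401326080) (nat_lit 461537280)) (I.mix (nat_lit 127778816) (nat_lit 101990400)) (I.mix (nat_lit 100974592) (nat_lit 79593472)) (I.mix (nat_lit 149651456) (nat_lit 108904448)))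
  false (nat_lit 59745666)
def b2_9 : Bx := Bx.mk (St.mk (I.pos (nat_lit 9601024) (nat_lit 44040192)) (I.neg (nat_lit 19382272) (nat_lit 74153984)) (I.neg (nat_lit 52690944) (nat_lit 74498048)) (I.pos (nat_lit 265256960) (nat_lit 284606464)) (I.mix (nat_lit 113999872) (nat_lit 40747008)) (I.mix (nat_lit 49725440) (nat_lit 90193920)) (I.mix (nat_lit 30359552) (nat_lit 27033600)))
  false (nat_lit 11731540)
def t2 : BTr := (BTr.n (BTr.n (BTr.n (BTr.b b2_0) (BTr.b b2_1)) (BTr.n (BTr.b b2_2) (BTr.n (BTr.b b2_3) (BTr.b b2_4)))) (BTr.n (BTr.n (BTr.b b2_5) (BTr.b b2_6)) (BTr.n (BTr.b b2_7) (BTr.n (BTr.b b2_8) (BTr.b b2_9)))))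
namespace T2
def l0 : Tr := Tr.L (Pth.l (Pth.l (Pth.l Pth.z)))
def l1 : Tr := Tr.L (Pth.l (Pth.l (Pth.r Pth.z)))
def l2 : Tr := Tr.L (Pth.l (Pth.r (Pth.l Pth.z)))
def l3 : Tr := Tr.L (Pth.l (Pth.r (Pth.r (Pth.l Pth.z))))
def l4 : Tr := Tr.L (Pth.l (Pth.r (Pth.r (Pth.r Pth.z))))
def l5 : Tr := Tr.L (Pth.r (Pth.l (Pth.l Pth.z)))
def l6 : Tr := Tr.L (Pth.r (Pth.l (Pth.r Pth.z)))
def l7 : Tr := Tr.L (Pth.r (Pth.r (Pth.l Pth.z)))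
def l8 : Tr := Tr.L (Pth.r (Pth.r (Pth.r (Pth.l Pth.z))))
def l9 : Tr := Tr.L (Pth.r (Pth.r (Pth.r (Pth.r Pth.z))))
end T2
def b3_0 : Bx := Bx.mk (St.mk (I.pos (nat_lit 153993216) (nat_lit 233619456)) (I.mix (nat_lit 2670592) (nat_lit 48267264)) (I.mix (nat_lit 5734400) (nat_lit 106332160)) (I.pos (nat_lit 110821376) (nat_lit 230768640)) (I.mix (nat_lit 117686272) (nat_lit 76103680)) (I.mix (nat_lit 89636864) (nat_lit 85557248)) (I.mix (nat_lit 126828544) (nat_lit 114507776)))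
  false (nat_lit 24215707)
def b3_1 : Bx := Bx.mk (St.mk (I.pos (nat_lit 111263744) (nat_lit 172736512)) (I.neg (nat_lit 917504) (nat_lit 56672256)) (I.mix (nat_lit 42811392) (nat_lit 15351808)) (I.pos (nat_lit 84705280) (nat_lit 145506304)) (I.mix (nat_lit 83886080) (nat_lit 63815680)) (I.mix (nat_lit 54018048) (nat_lit 67518464)) (I.mix (nat_lit 51200000) (nat_lit 68517888)))
  false (nat_lit 68707988)
def b3_2 : Bx := Bx.mk (St.mk (I.mix (nat_lit 20905984) (nat_lit 108134400)) (I.mix (nat_lit 29278208) (nat_lit 5013504)) (I.mix (nat_lit 11632640) (nat_lit 11862016)) (I.pos (nat_lit 13565952) (nat_lit 76333056)) (I.mix (nat_lit 33685504) (nat_lit 39731200)) (I.mix (nat_lit 24838144) (nat_lit 33619968)) (I.mix (nat_lit 13156352) (nat_lit 20709376)))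
  false (nat_lit 1991579)
def b3_3 : Bx := Bx.mk (St.mk (I.pos (nat_lit 161071104) (nat_lit 209256448)) (I.mix (nat_lit 14843904) (nat_lit 51232768)) (I.pos (nat_lit 14417920) (nat_lit 103661568)) (I.pos (nat_lit 121405440) (nat_lit 199032832)) (I.mix (nat_lit 161677312) (nat_lit 60489728)) (I.mix (nat_lit 144195584) (nat_lit 87523328)) (I.mix (nat_lit 169181184) (nat_lit 77398016)))
  false (nat_lit 40273830)
def b3_4 : Bx := Bx.mk (St.mk (I.mix (nat_lit 27017216) (nat_lit 124370944)) (I.mix (nat_lit 14073856) (nat_lit 37273600)) (I.mix (nat_lit 1835008) (nat_lit 38125568)) (I.pos (nat_lit 13402112) (nat_lit 90374144)) (I.mix (nat_lit 73465856) (nat_lit 39288832)) (I.mix (nat_lit 62406656) (nat_lit 38993920)) (I.mix (nat_lit 40812544) (nat_lit 23281664)))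
  false (nat_lit 0)
def b3_5 : Bx := Bx.mk (St.mk (I.pos (nat_lit 157810688) (nat_lit 203096064)) (I.mix (nat_lit 40943616) (nat_lit 21807104)) (I.mix (nat_lit 19693568) (nat_lit 61931520)) (I.pos (nat_lit 115965952) (nat_lit 187891712)) (I.mix (nat_lit 122650624) (nat_lit 78528512)) (I.mix (nat_lit 122699776) (nat_lit 75530240)) (I.mix (nat_lit 138166272) (nat_lit 73285632)))
  false (nat_lit 76194240)
def b3_6 : Bx := Bx.mk (St.mk (I.mix (nat_lit 33570816) (nat_lit 112607232)) (I.mix (nat_lit 17694720) (nat_lit 5668864)) (I.mix (nat_lit 2523136) (nat_lit 13221888)) (I.pos (nat_lit 14073856) (nat_lit 79298560)) (I.mix (nat_lit 26247168) (nat_lit 16990208)) (I.mix (nat_lit 15728640) (nat_lit 17793024)) (I.mix (nat_lit 9748480) (nat_lit 9306112)))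
  false (nat_lit 0)
def b3_7 : Bx := Bx.mk (St.mk (I.pos (nat_lit 140673024) (nat_lit 177422336)) (I.neg (nat_lit 458752) (nat_lit 37601280)) (I.mix (nat_lit 17416192) (nat_lit 22315008)) (I.pos (nat_lit 101482496) (nat_lit 154255360)) (I.mix (nat_lit 67551232) (nat_lit 49364992)) (I.mix (nat_lit 40484864) (nat_lit 52330496)) (I.mix (nat_lit 46743552) (nat_lit 50593792)))
  false (nat_lit 25771129)
def b3_8 : Bx := Bx.mk (St.mk (I.pos (nat_lit 154812416) (nat_lit 189612032)) (I.neg (nat_lit 6782976) (nat_lit 38354944)) (I.mix (nat_lit 18497536) (nat_lit 18448384)) (I.pos (nat_lit 117571584) (nat_lit 172490752)) (I.mix (nat_lit 41484288) (nat_lit 37601280)) (I.mix (nat_lit 35454976) (nat_lit 25985024)) (I.mix (nat_lit 35782656) (nat_lit 27066368)))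
  false (nat_lit 0)
def b3_9 : Bx := Bx.mk (St.mk (I.mix (nat_lit 29638656) (nat_lit 140509184)) (I.mix (nat_lit 11403264) (nat_lit 27000832)) (I.mix (nat_lit 2523136) (nat_lit 31293440)) (I.pos (nat_lit 11157504) (nat_lit 105857024)) (I.mix (nat_lit 50479104) (nat_lit 40648704)) (I.mix (nat_lit 40927232) (nat_lit 35225600)) (I.mix (nat_lit 32669696) (nat_lit 25673728)))
  false (nat_lit 0)
def b3_10 : Bx := Bx.mk (St.mk (I.pos (nat_lit 103202816) (nat_lit 154058752)) (I.mix (nat_lit 55197696) (nat_lit 10551296)) (I.mix (nat_lit 39026688) (nat_lit 17580032)) (I.pos (nat_lit 60194816) (nat_lit 123584512)) (I.mix (nat_lit 88637440) (nat_lit 42893312)) (I.mix (nat_lit 46743552) (nat_lit 75612160)) (I.mix (nat_lit 36061184) (nat_lit 56557568)))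
  false (nat_lit 40067812)
def b3_11 : Bx := Bx.mk (St.mk (I.mix (nat_lit 27312128) (nat_lit 99827712)) (I.mix (nat_lit 28409856) (nat_lit 5603328)) (I.mix (nat_lit 10321920) (nat_lit 9142272)) (I.pos (nat_lit 14827520) (nat_lit 71188480)) (I.mix (nat_lit 36339712) (nat_lit 26148864)) (I.mix (nat_lit 25313280) (nat_lit 29163520)) (I.mix (nat_lit 12271616) (nat_lit 13549568)))
  false (nat_lit 0)
def b3_12 : Bx := Bx.mk (St.mk (I.pos (nat_lit 193724416) (nat_lit 284524544)) (I.mix (nat_lit 30572544) (nat_lit 33521664)) (I.mix (nat_lit 35487744) (nat_lit 86278144)) (I.pos (nat_lit 176717824) (nat_lit 350191616)) (I.mix (nat_lit 89161728) (nat_lit 61538304)) (I.mix (nat_lit 67420160) (nat_lit 60260352)) (I.mix (nat_lit 115212288) (nat_lit 102432768)))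
  false (nat_lit 38468286)
def b3_13 : Bx := Bx.mk (St.mk (I.pos (nat_lit 180125696) (nat_lit 229572608)) (I.pos (nat_lit 7077888) (nat_lit 44400640)) (I.pos (nat_lit 33210368) (nat_lit 100171776)) (I.pos (nat_lit 166543360) (nat_lit 224870400)) (I.mix (nat_lit 103743488) (nat_lit 71270400)) (I.mix (nat_lit 88113152) (nat_lit 64749568)) (I.mix (nat_lit 141934592) (nat_lit 87621632)))
  false (nat_lit 16937059)
def t3 : BTr := (BTr.n (BTr.n (BTr.n (BTr.b b3_0) (BTr.n (BTr.b b3_1) (BTr.b b3_2))) (BTr.n (BTr.n (BTr.b b3_3) (BTr.b b3_4)) (BTr.n (BTr.b b3_5) (BTr.b b3_6)))) (BTr.n (BTr.n (BTr.b b3_7) (BTr.n (BTr.b b3_8) (BTr.b b3_9))) (BTr.n (BTr.n (BTr.b b3_10) (BTr.b b3_11)) (BTr.n (BTr.b b3_12) (BTr.b b3_13)))))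
namespace T3
def l0 : Tr := Tr.L (Pth.l (Pth.l (Pth.l Pth.z)))
def l1 : Tr := Tr.L (Pth.l (Pth.l (Pth.r (Pth.l Pth.z))))
def l2 : Tr := Tr.L (Pth.l (Pth.l (Pth.r (Pth.r Pth.z))))
def l3 : Tr := Tr.L (Pth.l (Pth.r (Pth.l (Pth.l Pth.z))))
def l4 : Tr := Tr.L (Pth.l (Pth.r (Pth.l (Pth.r Pth.z))))
def l5 : Tr := Tr.L (Pth.l (Pth.r (Pth.r (Pth.l Pth.z))))
def l6 : Tr := Tr.L (Pth.l (Pth.r (Pth.r (Pth.r Pth.z))))
def l7 : Tr := Tr.L (Pth.r (Pth.l (Pth.l Pth.z)))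
def l8 : Tr := Tr.L (Pth.r (Pth.l (Pth.r (Pth.l Pth.z))))
def l9 : Tr := Tr.L (Pth.r (Pth.l (Pth.r (Pth.r Pth.z))))
def l10 : Tr := Tr.L (Pth.r (Pth.r (Pth.l (Pth.l Pth.z))))
def l11 : Tr := Tr.L (Pth.r (Pth.r (Pth.l (Pth.r Pth.z))))
def l12 : Tr := Tr.L (Pth.r (Pth.r (Pth.r (Pth.l Pth.z))))
def l13 : Tr := Tr.L (Pth.r (Pth.r (Pth.r (Pth.r Pth.z))))
end T3
def b4_0 : Bx := Bx.mk (St.mk (I.pos (nat_lit 129302528) (nat_lit 219725824)) (I.mix (nat_lit 5193728) (nat_lit 90701824)) (I.mix (nat_lit 6635520) (nat_lit 115884032)) (I.pos (nat_lit 362070016) (nat_lit 454311936)) (I.mix (nat_lit 183320576) (nat_lit 102563840)) (I.mix (nat_lit 114966528) (nat_lit 92618752)) (I.mix (nat_lit 125894656) (nat_lit 125386752)))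
  false (nat_lit 172089097)
def b4_1 : Bx := Bx.mk (St.mk (I.pos (nat_lit 24903680) (nat_lit 131366912)) (I.neg (nat_lit 7847936) (nat_lit 92569600)) (I.mix (nat_lit 62701568) (nat_lit 20840448)) (I.pos (nat_lit 270925824) (nat_lit 334774272)) (I.mix (nat_lit 118996992) (nat_lit 81297408)) (I.mix (nat_lit 84164608) (nat_lit 82329600)) (I.mix (nat_lit 83443712) (nat_lit 65994752)))
  false (nat_lit 136736363)
def b4_2 : Bx := Bx.mk (St.mk (I.pos (nat_lit 84918272) (nat_lit 182075392)) (I.mix (nat_lit 44810240) (nat_lit 85819392)) (I.mix (nat_lit 17383424) (nat_lit 117555200)) (I.pos (nat_lit 295731200) (nat_lit 412631040)) (I.mix (nat_lit 190349312) (nat_lit 84230144)) (I.mix (nat_lit 156909568) (nat_lit 119308288)) (I.mix (nat_lit 166576128) (nat_lit 148127744)))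
  false (nat_lit 130928520)
def b4_3 : Bx := Bx.mk (St.mk (I.neg (nat_lit 24674304) (nat_lit 135036928)) (I.mix (nat_lit 2506752) (nat_lit 93159424)) (I.mix (nat_lit 63225856) (nat_lit 30113792)) (I.pos (nat_lit 270647296) (nat_lit 339607552)) (I.mix (nat_lit 81297408) (nat_lit 118996992)) (I.mix (nat_lit 82329600) (nat_lit 84164608)) (I.mix (nat_lit 83460096) (nat_lit 65994752)))
  true (nat_lit 17069502)
def b4_4 : Bx := Bx.mk (St.mk (I.mix (nat_lit 62652416) (nat_lit 15007744)) (I.mix (nat_lit 17104896) (nat_lit 89554944)) (I.neg (nat_lit 26165248) (nat_lit 50823168)) (I.pos (nat_lit 263208960) (nat_lit 296468480)) (I.mix (nat_lit 69484544) (nat_lit 117997568)) (I.mix (nat_lit 104579072) (nat_lit 78610432)) (I.mix (nat_lit 45858816) (nat_lit 34029568)))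
  true (nat_lit 0)
def b4_5 : Bx := Bx.mk (St.mk (I.pos (nat_lit 17039360) (nat_lit 60850176)) (I.neg (nat_lit 33652736) (nat_lit 89538560)) (I.neg (nat_lit 27770880) (nat_lit 50839552)) (I.pos (nat_lit 270368768) (nat_lit 296517632)) (I.mix (nat_lit 110755840) (nat_lit 69484544)) (I.mix (nat_lit 78610432) (nat_lit 83197952)) (I.mix (nat_lit 45858816) (nat_lit 34029568)))
  false (nat_lit 69576292)
def b4_6 : Bx := Bx.mk (St.mk (I.pos (nat_lit 182206464) (nat_lit 295174144)) (I.mix (nat_lit 32243712) (nat_lit 65175552)) (I.mix (nat_lit 127713280) (nat_lit 63045632)) (I.pos (nat_lit 410517504) (nat_lit 589791232)) (I.mix (nat_lit 91963392) (nat_lit 90390528)) (I.mix (nat_lit 87736320) (nat_lit 67796992)) (I.mix (nat_lit 153141248) (nat_lit 110182400)))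
  false (nat_lit 172265607)
def b4_7 : Bx := Bx.mk (St.mk (I.mix (nat_lit 14761984) (nat_lit 51511296)) (I.mix (nat_lit 52084736) (nat_lit 15056896)) (I.neg (nat_lit 26787840) (nat_lit 39813120)) (I.pos (nat_lit 264339456) (nat_lit 283492352)) (I.mix (nat_lit 61636608) (nat_lit 48250880)) (I.mix (nat_lit 43188224) (nat_lit 44417024)) (I.mix (nat_lit 13959168) (nat_lit 14417920)))
  false (nat_lit 0)
def b4_8 : Bx := Bx.mk (St.mk (I.pos (nat_lit 146243584) (nat_lit 206749696)) (I.pos (nat_lit 31997952) (nat_lit 88768512)) (I.pos (nat_lit 32358400) (nat_lit 109936640)) (I.pos (nat_lit 380518400) (nat_lit 440762368)) (I.mix (nat_lit 148193280) (nat_lit 119947264)) (I.mix (nat_lit 125403136) (nat_lit 91406336)) (I.mix (nat_lit 177700864) (nat_lit 126255104)))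
  false (nat_lit 110498668)
def b4_9 : Bx := Bx.mk (St.mk (I.pos (nat_lit 18644992) (nat_lit 53182464)) (I.neg (nat_lit 23347200) (nat_lit 77529088)) (I.neg (nat_lit 27492352) (nat_lit 49250304)) (I.pos (nat_lit 270319616) (nat_lit 289669120)) (I.mix (nat_lit 117997568) (nat_lit 62160896)) (I.mix (nat_lit 60194816) (nat_lit 104579072)) (I.mix (nat_lit 34488320) (nat_lit 29818880)))
  false (nat_lit 81192803)
def t4 : BTr := (BTr.n (BTr.n (BTr.n (BTr.b b4_0) (BTr.b b4_1)) (BTr.n (BTr.b b4_2) (BTr.n (BTr.b b4_3) (BTr.b b4_4)))) (BTr.n (BTr.n (BTr.b b4_5) (BTr.b b4_6)) (BTr.n (BTr.b b4_7) (BTr.n (BTr.b b4_8) (BTr.b b4_9)))))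
namespace T4
def l0 : Tr := Tr.L (Pth.l (Pth.l (Pth.l Pth.z)))
def l1 : Tr := Tr.L (Pth.l (Pth.l (Pth.r Pth.z)))
def l2 : Tr := Tr.L (Pth.l (Pth.r (Pth.l Pth.z)))
def l3 : Tr := Tr.L (Pth.l (Pth.r (Pth.r (Pth.l Pth.z))))
def l4 : Tr := Tr.L (Pth.l (Pth.r (Pth.r (Pth.r Pth.z))))
def l5 : Tr := Tr.L (Pth.r (Pth.l (Pth.l Pth.z)))
def l6 : Tr := Tr.L (Pth.r (Pth.l (Pth.r Pth.z)))
def l7 : Tr := Tr.L (Pth.r (Pth.r (Pth.l Pth.z)))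
def l8 : Tr := Tr.L (Pth.r (Pth.r (Pth.r (Pth.l Pth.z))))
def l9 : Tr := Tr.L (Pth.r (Pth.r (Pth.r (Pth.r Pth.z))))
end T4
def b5_0 : Bx := Bx.mk (St.mk (I.pos (nat_lit 138461184) (nat_lit 224165888)) (I.mix (nat_lit 3112960) (nat_lit 55902208)) (I.mix (nat_lit 6651904) (nat_lit 119947264)) (I.pos (nat_lit 180862976) (nat_lit 271351808)) (I.mix (nat_lit 129138688) (nat_lit 79446016)) (I.mix (nat_lit 94715904) (nat_lit 90210304)) (I.mix (nat_lit 122208256) (nat_lit 107511808)))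
  false (nat_lit 41625887)
def b5_1 : Bx := Bx.mk (St.mk (I.pos (nat_lit 96141312) (nat_lit 163921920)) (I.neg (nat_lit 7012352) (nat_lit 63651840)) (I.mix (nat_lit 33947648) (nat_lit 29048832)) (I.pos (nat_lit 135774208) (nat_lit 187842560)) (I.mix (nat_lit 76677120) (nat_lit 69435392)) (I.mix (nat_lit 55689216) (nat_lit 65568768)) (I.mix (nat_lit 45727744) (nat_lit 58605568)))
  false (nat_lit 64604268)
def b5_2 : Bx := Bx.mk (St.mk (I.mix (nat_lit 30326784) (nat_lit 49971200)) (I.mix (nat_lit 35536896) (nat_lit 7438336)) (I.pos (nat_lit 2162688) (nat_lit 18120704)) (I.pos (nat_lit 81526784) (nat_lit 101744640)) (I.mix (nat_lit 31244288) (nat_lit 47874048)) (I.mix (nat_lit 26066944) (nat_lit 38404096)) (I.mix (nat_lit 8912896) (nat_lit 14499840)))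
  false (nat_lit 0)
def b5_3 : Bx := Bx.mk (St.mk (I.pos (nat_lit 147292160) (nat_lit 199098368)) (I.mix (nat_lit 6881280) (nat_lit 53133312)) (I.pos (nat_lit 36962304) (nat_lit 108822528)) (I.pos (nat_lit 170262528) (nat_lit 233144320)) (I.mix (nat_lit 139542528) (nat_lit 51511296)) (I.mix (nat_lit 127877120) (nat_lit 74760192)) (I.mix (nat_lit 134774784) (nat_lit 58277888)))
  false (nat_lit 47501488)
def b5_4 : Bx := Bx.mk (St.mk (I.mix (nat_lit 49971200) (nat_lit 72859648)) (I.mix (nat_lit 11239424) (nat_lit 36405248)) (I.pos (nat_lit 1474560) (nat_lit 30162944)) (I.pos (nat_lit 81100800) (nat_lit 109232128)) (I.mix (nat_lit 65044480) (nat_lit 36601856)) (I.mix (nat_lit 48447488) (nat_lit 32014336)) (I.mix (nat_lit 19398656) (nat_lit 18759680)))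
  false (nat_lit 0)
def b5_5 : Bx := Bx.mk (St.mk (I.pos (nat_lit 129744896) (nat_lit 161611776)) (I.neg (nat_lit 5029888) (nat_lit 36552704)) (I.pos (nat_lit 131072) (nat_lit 33701888)) (I.pos (nat_lit 155811840) (nat_lit 185516032)) (I.mix (nat_lit 56213504) (nat_lit 49332224)) (I.mix (nat_lit 34701312) (nat_lit 46399488)) (I.mix (nat_lit 37797888) (nat_lit 39501824)))
  false (nat_lit 0)
def b5_6 : Bx := Bx.mk (St.mk (I.mix (nat_lit 64176128) (nat_lit 51200000)) (I.mix (nat_lit 17104896) (nat_lit 12746752)) (I.pos (nat_lit 8011776) (nat_lit 20938752)) (I.pos (nat_lit 83623936) (nat_lit 103219200)) (I.mix (nat_lit 36618240) (nat_lit 31195136)) (I.mix (nat_lit 27770880) (nat_lit 28246016)) (I.mix (nat_lit 13778944) (nat_lit 12648448)))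
  false (nat_lit 0)
def b5_7 : Bx := Bx.mk (St.mk (I.pos (nat_lit 144277504) (nat_lit 173834240)) (I.neg (nat_lit 9715712) (nat_lit 35815424)) (I.mix (nat_lit 65536) (nat_lit 29196288)) (I.pos (nat_lit 169738240) (nat_lit 200982528)) (I.mix (nat_lit 33456128) (nat_lit 40091648)) (I.mix (nat_lit 33980416) (nat_lit 25296896)) (I.mix (nat_lit 31981568) (nat_lit 25444352)))
  false (nat_lit 0)
def b5_8 : Bx := Bx.mk (St.mk (I.pos (nat_lit 146833408) (nat_lit 190300160)) (I.mix (nat_lit 38125568) (nat_lit 28393472)) (I.mix (nat_lit 1261568) (nat_lit 80461824)) (I.pos (nat_lit 169132032) (nat_lit 218939392)) (I.mix (nat_lit 138756096) (nat_lit 82509824)) (I.mix (nat_lit 133808128) (nat_lit 80445440)) (I.mix (nat_lit 135053312) (nat_lit 70467584)))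
  false (nat_lit 48899582)
def b5_9 : Bx := Bx.mk (St.mk (I.mix (nat_lit 40894464) (nat_lit 102612992)) (I.mix (nat_lit 10518528) (nat_lit 38289408)) (I.pos (nat_lit 999424) (nat_lit 35995648)) (I.pos (nat_lit 76431360) (nat_lit 126877696)) (I.mix (nat_lit 64258048) (nat_lit 53116928)) (I.mix (nat_lit 56934400) (nat_lit 38879232)) (I.mix (nat_lit 36864000) (nat_lit 25460736)))
  false (nat_lit 0)
def b5_10 : Bx := Bx.mk (St.mk (I.pos (nat_lit 78938112) (nat_lit 132628480)) (I.mix (nat_lit 65667072) (nat_lit 12779520)) (I.mix (nat_lit 32260096) (nat_lit 19562496)) (I.pos (nat_lit 112558080) (nat_lit 158629888)) (I.mix (nat_lit 77905920) (nat_lit 47792128)) (I.mix (nat_lit 45613056) (nat_lit 77152256)) (I.mix (nat_lit 32800768) (nat_lit 48939008)))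
  false (nat_lit 23969984)
def b5_11 : Bx := Bx.mk (St.mk (I.mix (nat_lit 51232768) (nat_lit 43663360)) (I.mix (nat_lit 35454976) (nat_lit 8568832)) (I.pos (nat_lit 3063808) (nat_lit 21168128)) (I.pos (nat_lit 79724544) (nat_lit 103137280)) (I.mix (nat_lit 41058304) (nat_lit 42876928)) (I.mix (nat_lit 28114944) (nat_lit 42106880)) (I.mix (nat_lit 16842752) (nat_lit 12337152)))
  false (nat_lit 0)
def b5_12 : Bx := Bx.mk (St.mk (I.pos (nat_lit 183828480) (nat_lit 289439744)) (I.mix (nat_lit 24739840) (nat_lit 44122112)) (I.mix (nat_lit 17776640) (nat_lit 107266048)) (I.pos (nat_lit 226017280) (nat_lit 401620992)) (I.mix (nat_lit 99074048) (nat_lit 89358336)) (I.mix (nat_lit 86704128) (nat_lit 65732608)) (I.mix (nat_lit 145309696) (nat_lit 108134400)))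
  false (nat_lit 89437617)
def b5_13 : Bx := Bx.mk (St.mk (I.pos (nat_lit 167264256) (nat_lit 221249536)) (I.pos (nat_lit 9142272) (nat_lit 54312960)) (I.pos (nat_lit 44646400) (nat_lit 117899264)) (I.pos (nat_lit 211632128) (nat_lit 263127040)) (I.mix (nat_lit 120553472) (nat_lit 103825408)) (I.mix (nat_lit 110624768) (nat_lit 88293376)) (I.mix (nat_lit 158531584) (nat_lit 108953600)))
  false (nat_lit 48048653)
def t5 : BTr := (BTr.n (BTr.n (BTr.n (BTr.b b5_0) (BTr.n (BTr.b b5_1) (BTr.b b5_2))) (BTr.n (BTr.n (BTr.b b5_3) (BTr.b b5_4)) (BTr.n (BTr.b b5_5) (BTr.b b5_6)))) (BTr.n (BTr.n (BTr.b b5_7) (BTr.n (BTr.b b5_8) (BTr.b b5_9))) (BTr.n (BTr.n (BTr.b b5_10) (BTr.b b5_11)) (BTr.n (BTr.b b5_12) (BTr.b b5_13)))))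
namespace T5
def l0 : Tr := Tr.L (Pth.l (Pth.l (Pth.l Pth.z)))
def l1 : Tr := Tr.L (Pth.l (Pth.l (Pth.r (Pth.l Pth.z))))
def l2 : Tr := Tr.L (Pth.l (Pth.l (Pth.r (Pth.r Pth.z))))
def l3 : Tr := Tr.L (Pth.l (Pth.r (Pth.l (Pth.l Pth.z))))
def l4 : Tr := Tr.L (Pth.l (Pth.r (Pth.l (Pth.r Pth.z))))
def l5 : Tr := Tr.L (Pth.l (Pth.r (Pth.r (Pth.l Pth.z))))
def l6 : Tr := Tr.L (Pth.l (Pth.r (Pth.r (Pth.r Pth.z))))
def l7 : Tr := Tr.L (Pth.r (Pth.l (Pth.l Pth.z)))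
def l8 : Tr := Tr.L (Pth.r (Pth.l (Pth.r (Pth.l Pth.z))))
def l9 : Tr := Tr.L (Pth.r (Pth.l (Pth.r (Pth.r Pth.z))))
def l10 : Tr := Tr.L (Pth.r (Pth.r (Pth.l (Pth.l Pth.z))))
def l11 : Tr := Tr.L (Pth.r (Pth.r (Pth.l (Pth.r Pth.z))))
def l12 : Tr := Tr.L (Pth.r (Pth.r (Pth.r (Pth.l Pth.z))))
def l13 : Tr := Tr.L (Pth.r (Pth.r (Pth.r (Pth.r Pth.z))))
end T5
theorem bx0_0 : BoxOK sI cl4 cl6 cl9 t2 t4 b0_0 :=
  box_mk (TrL.c (I.pos (nat_lit 0) (nat_lit 0)) (xa (xb T2.l0 (xa (xb T2.l0 T2.l0) T2.l0)) (xb T2.l0 (xa (xb T2.l0 T2.l0) (xb T2.l0 T2.l0))))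
  (TrL.c (I.pos (nat_lit 0) (nat_lit 0)) (xa T4.l1 T4.l1)
  (TrL.c (I.pos (nat_lit 0) (nat_lit 0)) (xa T2.l1 T2.l1)
  (TrL.c (I.pos (nat_lit 0) (nat_lit 0)) (xa T4.l2 T4.l2)
  (TrL.c (I.pos (nat_lit 0) (nat_lit 0)) (xa T2.l2 T2.l2)
  (TrL.c (I.pos (nat_lit 0) (nat_lit 0)) (xa T4.l3 T4.l3)
  TrL.n)))))) (by decide +kernel)
theorem bx0_1 : BoxOK sI cl4 cl6 cl9 t2 t4 b0_1 :=
  box_mk (TrL.c (I.pos (nat_lit 0) (nat_lit 0)) (xa (xa (xb (xa T2.l6 T2.l6) (xa T2.l6 T2.l6)) (xb T2.l6 (xa T2.l6 T2.l6))) (xa (xb T2.l6 T2.l6) (xb T2.l6 (xa T2.l6 T2.l6))))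
  (TrL.c (I.pos (nat_lit 0) (nat_lit 0)) (xa T4.l1 T4.l1)
  (TrL.c (I.pos (nat_lit 0) (nat_lit 0)) T2.l1
  (TrL.c (I.pos (nat_lit 0) (nat_lit 0)) T4.l2
  (TrL.c (I.pos (nat_lit 0) (nat_lit 0)) T2.l7
  (TrL.c (I.pos (nat_lit 0) (nat_lit 0)) T4.l3
  TrL.n)))))) (by decide +kernel)
theorem bx0_2 : BoxOK sI cl4 cl6 cl9 t2 t4 b0_2 :=
  box_mk (TrL.c (I.pos (nat_lit 0) (nat_lit 0)) (xb T2.l6 (xa (xb T2.l6 T2.l6) T2.l6))
  (TrL.c (I.pos (nat_lit 0) (nat_lit 0)) T4.l1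
  (TrL.c (I.pos (nat_lit 0) (nat_lit 0)) T2.l1
  (TrL.c (I.pos (nat_lit 0) (nat_lit 0)) T4.l2
  (TrL.c (I.pos (nat_lit 0) (nat_lit 0)) T2.l7
  (TrL.c (I.pos (nat_lit 0) (nat_lit 0)) T4.l3
  TrL.n)))))) (by decide +kernel)
theorem bx0_3 : BoxOK sI cl4 cl6 cl9 t2 t4 b0_3 :=
  box_mk (TrL.c (I.pos (nat_lit 0) (nat_lit 0)) (xa (xb (xa (xb T2.l6 T2.l6) T2.l6) T2.l6) T2.l6)
  (TrL.c (I.pos (nat_lit 0) (nat_lit 0)) T4.l2
  (TrL.c (I.pos (nat_lit 0) (nat_lit 0)) T2.l7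
  (TrL.c (I.pos (nat_lit 0) (nat_lit 0)) T4.l1
  (TrL.c (I.pos (nat_lit 0) (nat_lit 0)) T2.l7
  (TrL.c (I.pos (nat_lit 0) (nat_lit 0)) T4.l3
  TrL.n)))))) (by decide +kernel)
theorem bx0_4 : BoxOK sI cl4 cl6 cl9 t2 t4 b0_4 :=
  box_mk (TrL.c (I.pos (nat_lit 0) (nat_lit 0)) T2.l6
  (TrL.c (I.pos (nat_lit 0) (nat_lit 0)) T4.l1
  (TrL.c (I.pos (nat_lit 0) (nat_lit 0)) T2.l1
  (TrL.c (I.pos (nat_lit 0) (nat_lit 0)) T4.l2
  (TrL.c (I.pos (nat_lit 0) (nat_lit 0)) T2.l7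
  (TrL.c (I.pos (nat_lit 0) (nat_lit 0)) T4.l3
  TrL.n)))))) (by decide +kernel)
theorem bx0_5 : BoxOK sI cl4 cl6 cl9 t2 t4 b0_5 :=
  box_mk (TrL.c (I.pos (nat_lit 0) (nat_lit 0)) (xa (xa (xb T2.l6 T2.l6) T2.l6) T2.l6)
  (TrL.c (I.pos (nat_lit 0) (nat_lit 0)) T4.l2
  (TrL.c (I.pos (nat_lit 0) (nat_lit 0)) T2.l1
  (TrL.c (I.pos (nat_lit 0) (nat_lit 0)) T4.l2
  (TrL.c (I.pos (nat_lit 0) (nat_lit 0)) T2.l7
  (TrL.c (I.pos (nat_lit 0) (nat_lit 0)) T4.l3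
  TrL.n)))))) (by decide +kernel)
theorem bx0_6 : BoxOK sI cl4 cl6 cl9 t2 t4 b0_6 :=
  box_mk (TrL.c (I.pos (nat_lit 0) (nat_lit 0)) T2.l4
  (TrL.c (I.pos (nat_lit 0) (nat_lit 0)) T4.l1
  (TrL.c (I.pos (nat_lit 0) (nat_lit 0)) T2.l1
  (TrL.c (I.pos (nat_lit 0) (nat_lit 0)) (xa T4.l2 T4.l0)
  (TrL.c (I.pos (nat_lit 0) (nat_lit 0)) T2.l2
  (TrL.c (I.pos (nat_lit 0) (nat_lit 0)) T4.l3
  TrL.n)))))) (by decide +kernel)
theorem bx0_7 : BoxOK sI cl4 cl6 cl9 t2 t4 b0_7 :=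
  box_mk (TrL.c (I.pos (nat_lit 0) (nat_lit 0)) (xb (xa (xb T2.l0 T2.l0) T2.l4) (xa (xb (xa T2.l0 T2.l0) (xa T2.l0 T2.l0)) (xb (xa T2.l0 T2.l0) (xa T2.l0 T2.l0))))
  (TrL.c (I.pos (nat_lit 0) (nat_lit 0)) (xb (xa T4.l1 T4.l1) (xa T4.l1 T4.l1))
  (TrL.c (I.pos (nat_lit 0) (nat_lit 0)) (xc (xa T2.l5 T2.l5) (xa T2.l1 T2.l5))
  (TrL.c (I.pos (nat_lit 0) (nat_lit 0)) (xb (xa (xb (xa T4.l2 T4.l2) T4.l2) (xb (xa T4.l2 T4.l2) T4.l2)) (xa T4.l2 (xb T4.l2 (xa T4.l2 T4.l2))))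
  (TrL.c (I.pos (nat_lit 0) (nat_lit 0)) (xa T2.l2 T2.l3)
  (TrL.c (I.pos (nat_lit 0) (nat_lit 0)) (xb (xa T4.l3 T4.l3) (xa T4.l3 T4.l3))
  TrL.n)))))) (by decide +kernel)
theorem bx0_8 : BoxOK sI cl4 cl6 cl9 t2 t4 b0_8 :=
  box_mk (TrL.c (I.pos (nat_lit 0) (nat_lit 0)) (xa (xb (xa T2.l6 T2.l6) T2.l6) (xb (xa T2.l6 T2.l6) (xa T2.l6 T2.l6)))
  (TrL.c (I.pos (nat_lit 0) (nat_lit 0)) T4.l1
  (TrL.c (I.pos (nat_lit 0) (nat_lit 0)) T2.l1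
  (TrL.c (I.pos (nat_lit 0) (nat_lit 0)) T4.l2
  (TrL.c (I.pos (nat_lit 0) (nat_lit 0)) T2.l7
  (TrL.c (I.pos (nat_lit 0) (nat_lit 0)) T4.l3
  TrL.n)))))) (by decide +kernel)
theorem bx0_9 : BoxOK sI cl4 cl6 cl9 t2 t4 b0_9 :=
  box_mk (TrL.c (I.pos (nat_lit 0) (nat_lit 0)) (xa (xb (xa (xb T2.l6 T2.l6) T2.l6) T2.l6) T2.l6)
  (TrL.c (I.pos (nat_lit 0) (nat_lit 0)) T4.l2
  (TrL.c (I.pos (nat_lit 0) (nat_lit 0)) T2.l7
  (TrL.c (I.pos (nat_lit 0) (nat_lit 0)) T4.l2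
  (TrL.c (I.pos (nat_lit 0) (nat_lit 0)) T2.l7
  (TrL.c (I.pos (nat_lit 0) (nat_lit 0)) T4.l3
  TrL.n)))))) (by decide +kernel)
theorem bx0_10 : BoxOK sI cl4 cl6 cl9 t2 t4 b0_10 :=
  box_mk (TrL.c (I.pos (nat_lit 0) (nat_lit 0)) (xb (xa T2.l8 T2.l8) (xa (xb T2.l8 T2.l8) (xb T2.l8 T2.l8)))
  (TrL.c (I.pos (nat_lit 0) (nat_lit 0)) (xb T4.l1 T4.l1)
  (TrL.c (I.pos (nat_lit 0) (nat_lit 0)) T2.l1
  (TrL.c (I.pos (nat_lit 0) (nat_lit 0)) (xb T4.l2 T4.l2)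
  (TrL.c (I.pos (nat_lit 0) (nat_lit 0)) T2.l9
  (TrL.c (I.pos (nat_lit 0) (nat_lit 0)) (xb T4.l3 T4.l3)
  TrL.n)))))) (by decide +kernel)
theorem bx0_11 : BoxOK sI cl4 cl6 cl9 t2 t4 b0_11 :=
  box_mk (TrL.c (I.pos (nat_lit 0) (nat_lit 0)) (xa (xa (xb (xa T2.l6 T2.l6) (xa T2.l6 T2.l6)) (xb T2.l6 T2.l6)) (xa T2.l6 T2.l6))
  (TrL.c (I.pos (nat_lit 0) (nat_lit 0)) (xa T4.l2 T4.l1)
  (TrL.c (I.pos (nat_lit 0) (nat_lit 0)) (xa T2.l1 T2.l1)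
  (TrL.c (I.pos (nat_lit 0) (nat_lit 0)) T4.l2
  (TrL.c (I.pos (nat_lit 0) (nat_lit 0)) (xa T2.l7 T2.l7)
  (TrL.c (I.pos (nat_lit 0) (nat_lit 0)) T4.l3
  TrL.n)))))) (by decide +kernel)
theorem bx0_12 : BoxOK sI cl4 cl6 cl9 t2 t4 b0_12 :=
  box_mk (TrL.c (I.pos (nat_lit 0) (nat_lit 0)) (xa (xb T2.l8 T2.l8) (xb T2.l8 T2.l8))
  (TrL.c (I.pos (nat_lit 0) (nat_lit 0)) T4.l1
  (TrL.c (I.pos (nat_lit 0) (nat_lit 0)) T2.l1
  (TrL.c (I.pos (nat_lit 0) (nat_lit 0)) T4.l2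
  (TrL.c (I.pos (nat_lit 0) (nat_lit 0)) T2.l3
  (TrL.c (I.pos (nat_lit 0) (nat_lit 0)) T4.l3
  TrL.n)))))) (by decide +kernel)
theorem bx0_13 : BoxOK sI cl4 cl6 cl9 t2 t4 b0_13 :=
  box_mk (TrL.c (I.pos (nat_lit 0) (nat_lit 0)) (xb T2.l8 (xa T2.l8 T2.l8))
  (TrL.c (I.pos (nat_lit 0) (nat_lit 0)) T4.l1
  (TrL.c (I.pos (nat_lit 0) (nat_lit 0)) T2.l1
  (TrL.c (I.pos (nat_lit 0) (nat_lit 0)) T4.l2
  (TrL.c (I.pos (nat_lit 0) (nat_lit 0)) T2.l2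
  (TrL.c (I.pos (nat_lit 0) (nat_lit 0)) T4.l3
  TrL.n)))))) (by decide +kernel)
theorem sv0 : StarV sI cl4 cl6 cl9 t2 t4 t0 :=
  (bt_n (bt_n (bt_n (bt_b bx0_0) (bt_n (bt_b bx0_1) (bt_b bx0_2))) (bt_n (bt_n (bt_b bx0_3) (bt_b bx0_4)) (bt_n (bt_b bx0_5) (bt_b bx0_6)))) (bt_n (bt_n (bt_b bx0_7) (bt_n (bt_b bx0_8) (bt_b bx0_9))) (bt_n (bt_n (bt_b bx0_10) (bt_b bx0_11)) (bt_n (bt_b bx0_12) (bt_b bx0_13)))))
def S0 : StarD := StarD.mk cl4 cl6 cl9 2 4 t0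
theorem bx1_0 : BoxOK sI cl4 cl9 cl6 t4 t2 b1_0 :=
  box_mk (TrL.c (I.pos (nat_lit 0) (nat_lit 0)) (xa (xb (xa T4.l0 T4.l0) (xa (xb T4.l0 T4.l0) (xb T4.l0 T4.l0))) (xb T4.l0 (xa (xb T4.l0 T4.l0) (xb T4.l0 T4.l0))))
  (TrL.c (I.pos (nat_lit 0) (nat_lit 0)) (xa T2.l3 (xb T2.l3 T2.l3))
  (TrL.c (I.pos (nat_lit 0) (nat_lit 0)) T4.l4
  (TrL.c (I.pos (nat_lit 0) (nat_lit 0)) (xa T2.l4 (xb T2.l4 T2.l4))
  (TrL.c (I.pos (nat_lit 0) (nat_lit 0)) (xa T4.l5 T4.l5)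
  (TrL.c (I.pos (nat_lit 0) (nat_lit 0)) (xa T2.l5 (xb T2.l5 T2.l5))
  TrL.n)))))) (by decide +kernel)
theorem bx1_1 : BoxOK sI cl4 cl9 cl6 t4 t2 b1_1 :=
  box_mk (TrL.c (I.pos (nat_lit 0) (nat_lit 0)) (xa (xa (xb T4.l6 T4.l6) T4.l6) (xa T4.l6 (xa T4.l6 T4.l6)))
  (TrL.c (I.pos (nat_lit 0) (nat_lit 0)) (xa T2.l3 T2.l3)
  (TrL.c (I.pos (nat_lit 0) (nat_lit 0)) T4.l4
  (TrL.c (I.pos (nat_lit 0) (nat_lit 0)) (xa T2.l4 T2.l4)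
  (TrL.c (I.pos (nat_lit 0) (nat_lit 0)) T4.l7
  (TrL.c (I.pos (nat_lit 0) (nat_lit 0)) (xa T2.l5 T2.l5)
  TrL.n)))))) (by decide +kernel)
theorem bx1_2 : BoxOK sI cl4 cl9 cl6 t4 t2 b1_2 :=
  box_mk (TrL.c (I.pos (nat_lit 0) (nat_lit 0)) (xb (xa T4.l6 T4.l0) (xa T4.l6 T4.l6))
  (TrL.c (I.pos (nat_lit 0) (nat_lit 0)) T2.l3
  (TrL.c (I.pos (nat_lit 0) (nat_lit 0)) T4.l4
  (TrL.c (I.pos (nat_lit 0) (nat_lit 0)) T2.l4
  (TrL.c (I.pos (nat_lit 0) (nat_lit 0)) T4.l7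
  (TrL.c (I.pos (nat_lit 0) (nat_lit 0)) T2.l5
  TrL.n)))))) (by decide +kernel)
theorem bx1_3 : BoxOK sI cl4 cl9 cl6 t4 t2 b1_3 :=
  box_mk (TrL.c (I.pos (nat_lit 0) (nat_lit 0)) (xa T4.l6 T4.l6)
  (TrL.c (I.pos (nat_lit 0) (nat_lit 0)) (xa T2.l3 T2.l3)
  (TrL.c (I.pos (nat_lit 0) (nat_lit 0)) T4.l4
  (TrL.c (I.pos (nat_lit 0) (nat_lit 0)) (xa T2.l4 T2.l4)
  (TrL.c (I.pos (nat_lit 0) (nat_lit 0)) T4.l7
  (TrL.c (I.pos (nat_lit 0) (nat_lit 0)) (xa T2.l5 T2.l5)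
  TrL.n)))))) (by decide +kernel)
theorem bx1_4 : BoxOK sI cl4 cl9 cl6 t4 t2 b1_4 :=
  box_mk (TrL.c (I.pos (nat_lit 0) (nat_lit 0)) (xb (xa (xb T4.l0 T4.l0) (xb T4.l0 T4.l0)) (xa (xb (xa T4.l0 T4.l0) (xa T4.l0 T4.l0)) (xa (xb T4.l0 T4.l0) (xb T4.l0 T4.l0))))
  (TrL.c (I.pos (nat_lit 0) (nat_lit 0)) (xa (xb T2.l3 T2.l3) (xb T2.l3 T2.l3))
  (TrL.c (I.pos (nat_lit 0) (nat_lit 0)) (xa T4.l4 (xc T4.l4 (xb T4.l4 T4.l4)))
  (TrL.c (I.pos (nat_lit 0) (nat_lit 0)) (xb (xa T2.l4 (xb (xa T2.l4 T2.l4) T2.l4)) (xa T2.l4 (xb T2.l4 (xa T2.l4 T2.l4))))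
  (TrL.c (I.pos (nat_lit 0) (nat_lit 0)) (xa T4.l5 (xc T4.l5 (xb T4.l5 T4.l5)))
  (TrL.c (I.pos (nat_lit 0) (nat_lit 0)) (xa (xb T2.l5 T2.l5) (xb T2.l5 T2.l5))
  TrL.n)))))) (by decide +kernel)
theorem bx1_5 : BoxOK sI cl4 cl9 cl6 t4 t2 b1_5 :=
  box_mk (TrL.c (I.pos (nat_lit 0) (nat_lit 0)) T4.l6
  (TrL.c (I.pos (nat_lit 0) (nat_lit 0)) T2.l3
  (TrL.c (I.pos (nat_lit 0) (nat_lit 0)) T4.l4
  (TrL.c (I.pos (nat_lit 0) (nat_lit 0)) T2.l4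
  (TrL.c (I.pos (nat_lit 0) (nat_lit 0)) T4.l7
  (TrL.c (I.pos (nat_lit 0) (nat_lit 0)) T2.l5
  TrL.n)))))) (by decide +kernel)
theorem bx1_6 : BoxOK sI cl4 cl9 cl6 t4 t2 b1_6 :=
  box_mk (TrL.c (I.pos (nat_lit 0) (nat_lit 0)) T4.l6
  (TrL.c (I.pos (nat_lit 0) (nat_lit 0)) T2.l3
  (TrL.c (I.pos (nat_lit 0) (nat_lit 0)) T4.l4
  (TrL.c (I.pos (nat_lit 0) (nat_lit 0)) T2.l4
  (TrL.c (I.pos (nat_lit 0) (nat_lit 0)) T4.l7
  (TrL.c (I.pos (nat_lit 0) (nat_lit 0)) T2.l5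
  TrL.n)))))) (by decide +kernel)
theorem bx1_7 : BoxOK sI cl4 cl9 cl6 t4 t2 b1_7 :=
  box_mk (TrL.c (I.pos (nat_lit 0) (nat_lit 0)) (xa T4.l0 T4.l2)
  (TrL.c (I.pos (nat_lit 0) (nat_lit 0)) (xa T2.l3 T2.l3)
  (TrL.c (I.pos (nat_lit 0) (nat_lit 0)) T4.l3
  (TrL.c (I.pos (nat_lit 0) (nat_lit 0)) (xa T2.l4 T2.l4)
  (TrL.c (I.pos (nat_lit 0) (nat_lit 0)) T4.l1
  (TrL.c (I.pos (nat_lit 0) (nat_lit 0)) (xa T2.l5 T2.l5)
  TrL.n)))))) (by decide +kernel)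
theorem bx1_8 : BoxOK sI cl4 cl9 cl6 t4 t2 b1_8 :=
  box_mk (TrL.c (I.pos (nat_lit 0) (nat_lit 0)) (xa (xb (xa T4.l6 T4.l6) T4.l6) T4.l0)
  (TrL.c (I.pos (nat_lit 0) (nat_lit 0)) T2.l3
  (TrL.c (I.pos (nat_lit 0) (nat_lit 0)) T4.l4
  (TrL.c (I.pos (nat_lit 0) (nat_lit 0)) T2.l4
  (TrL.c (I.pos (nat_lit 0) (nat_lit 0)) T4.l7
  (TrL.c (I.pos (nat_lit 0) (nat_lit 0)) T2.l5
  TrL.n)))))) (by decide +kernel)
theorem bx1_9 : BoxOK sI cl4 cl9 cl6 t4 t2 b1_9 :=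
  box_mk (TrL.c (I.pos (nat_lit 0) (nat_lit 0)) (xa (xa (xb (xa T4.l6 T4.l6) T4.l6) T4.l6) T4.l6)
  (TrL.c (I.pos (nat_lit 0) (nat_lit 0)) (xa T2.l3 T2.l3)
  (TrL.c (I.pos (nat_lit 0) (nat_lit 0)) T4.l4
  (TrL.c (I.pos (nat_lit 0) (nat_lit 0)) (xa T2.l4 T2.l4)
  (TrL.c (I.pos (nat_lit 0) (nat_lit 0)) (xa T4.l7 T4.l7)
  (TrL.c (I.pos (nat_lit 0) (nat_lit 0)) (xa T2.l5 T2.l5)
  TrL.n)))))) (by decide +kernel)
theorem bx1_10 : BoxOK sI cl4 cl9 cl6 t4 t2 b1_10 :=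
  box_mk (TrL.c (I.pos (nat_lit 0) (nat_lit 0)) (xb (xa (xb T4.l8 T4.l8) (xb T4.l8 T4.l8)) (xa (xb T4.l8 (xa T4.l8 T4.l8)) (xb T4.l8 (xa T4.l8 T4.l8))))
  (TrL.c (I.pos (nat_lit 0) (nat_lit 0)) (xb T2.l3 (xa T2.l3 T2.l3))
  (TrL.c (I.pos (nat_lit 0) (nat_lit 0)) (xb T4.l4 T4.l4)
  (TrL.c (I.pos (nat_lit 0) (nat_lit 0)) (xb (xa T2.l4 T2.l4) (xa T2.l4 (xb T2.l4 T2.l4)))
  (TrL.c (I.pos (nat_lit 0) (nat_lit 0)) (xb T4.l9 T4.l9)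
  (TrL.c (I.pos (nat_lit 0) (nat_lit 0)) (xb T2.l5 (xa T2.l5 T2.l5))
  TrL.n)))))) (by decide +kernel)
theorem bx1_11 : BoxOK sI cl4 cl9 cl6 t4 t2 b1_11 :=
  box_mk (TrL.c (I.pos (nat_lit 0) (nat_lit 0)) (xa (xa (xb (xa T4.l6 T4.l6) (xa T4.l6 T4.l6)) (xb T4.l6 T4.l6)) (xa T4.l6 (xb T4.l6 (xa T4.l6 T4.l6))))
  (TrL.c (I.pos (nat_lit 0) (nat_lit 0)) (xa T2.l3 T2.l3)
  (TrL.c (I.pos (nat_lit 0) (nat_lit 0)) (xa T4.l4 T4.l4)
  (TrL.c (I.pos (nat_lit 0) (nat_lit 0)) (xa T2.l4 T2.l4)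
  (TrL.c (I.pos (nat_lit 0) (nat_lit 0)) (xa T4.l7 T4.l7)
  (TrL.c (I.pos (nat_lit 0) (nat_lit 0)) (xa T2.l5 T2.l5)
  TrL.n)))))) (by decide +kernel)
theorem bx1_12 : BoxOK sI cl4 cl9 cl6 t4 t2 b1_12 :=
  box_mk (TrL.c (I.pos (nat_lit 0) (nat_lit 0)) T4.l0
  (TrL.c (I.pos (nat_lit 0) (nat_lit 0)) T2.l3
  (TrL.c (I.pos (nat_lit 0) (nat_lit 0)) T4.l4
  (TrL.c (I.pos (nat_lit 0) (nat_lit 0)) T2.l4
  (TrL.c (I.pos (nat_lit 0) (nat_lit 0)) T4.l9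
  (TrL.c (I.pos (nat_lit 0) (nat_lit 0)) T2.l5
  TrL.n)))))) (by decide +kernel)
theorem bx1_13 : BoxOK sI cl4 cl9 cl6 t4 t2 b1_13 :=
  box_mk (TrL.c (I.pos (nat_lit 0) (nat_lit 0)) (xb (xa T4.l8 T4.l8) T4.l8)
  (TrL.c (I.pos (nat_lit 0) (nat_lit 0)) T2.l3
  (TrL.c (I.pos (nat_lit 0) (nat_lit 0)) T4.l4
  (TrL.c (I.pos (nat_lit 0) (nat_lit 0)) T2.l4
  (TrL.c (I.pos (nat_lit 0) (nat_lit 0)) T4.l9
  (TrL.c (I.pos (nat_lit 0) (nat_lit 0)) T2.l5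
  TrL.n)))))) (by decide +kernel)
theorem sv1 : StarV sI cl4 cl9 cl6 t4 t2 t1 :=
  (bt_n (bt_n (bt_n (bt_b bx1_0) (bt_n (bt_b bx1_1) (bt_b bx1_2))) (bt_n (bt_n (bt_b bx1_3) (bt_b bx1_4)) (bt_n (bt_b bx1_5) (bt_b bx1_6)))) (bt_n (bt_n (bt_b bx1_7) (bt_n (bt_b bx1_8) (bt_b bx1_9))) (bt_n (bt_n (bt_b bx1_10) (bt_b bx1_11)) (bt_n (bt_b bx1_12) (bt_b bx1_13)))))
def S1 : StarD := StarD.mk cl4 cl9 cl6 4 2 t1
theorem bx2_0 : BoxOK sI cl6 cl4 cl9 t0 t5 b2_0 :=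
  box_mk (TrL.c (I.pos (nat_lit 0) (nat_lit 0)) (xb (xa T0.l0 T0.l0) (xa (xb T0.l0 T0.l0) (xb T0.l0 T0.l0)))
  (TrL.c (I.pos (nat_lit 0) (nat_lit 0)) T5.l1
  (TrL.c (I.pos (nat_lit 0) (nat_lit 89480386)) (xR T0.l1 T0.l1)
  (TrL.c (I.pos (nat_lit 0) (nat_lit 41530880)) T5.l2
  (TrL.c (I.pos (nat_lit 0) (nat_lit 0)) (xb (xa T5.l8 T5.l3) (xa T5.l3 T5.l3))
  (TrL.c (I.pos (nat_lit 0) (nat_lit 0)) T0.l2
  (TrL.c (I.mix (nat_lit 41527258) (nat_lit 41530880)) T5.l4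
  (TrL.c (I.mix (nat_lit 41527258) (nat_lit 4274)) T0.l3
  TrL.n)))))))) (by decide +kernel)
theorem bx2_1 : BoxOK sI cl6 cl4 cl9 t0 t5 b2_1 :=
  box_mk (TrL.c (I.pos (nat_lit 0) (nat_lit 0)) T5.l5
  (TrL.c (I.pos (nat_lit 0) (nat_lit 0)) T0.l4
  (TrL.c (I.mix (nat_lit 41527258) (nat_lit 41530880)) T5.l6
  (TrL.c (I.mix (nat_lit 41527258) (nat_lit 4274)) T0.l5
  TrL.n)))) (by decide +kernel)
theorem bx2_2 : BoxOK sI cl6 cl4 cl9 t0 t5 b2_2 :=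
  box_mk (TrL.c (I.pos (nat_lit 0) (nat_lit 0)) (xb (xa T0.l6 T0.l7) T0.l7)
  (TrL.c (I.pos (nat_lit 0) (nat_lit 0)) T5.l1
  (TrL.c (I.pos (nat_lit 0) (nat_lit 89480386)) T0.l1
  (TrL.c (I.pos (nat_lit 0) (nat_lit 41530880)) T5.l2
  (TrL.c (I.pos (nat_lit 0) (nat_lit 0)) T5.l8
  (TrL.c (I.pos (nat_lit 0) (nat_lit 0)) T0.l2
  (TrL.c (I.mix (nat_lit 41527258) (nat_lit 41530880)) T5.l4
  (TrL.c (I.mix (nat_lit 41527258) (nat_lit 4274)) T0.l3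
  TrL.n)))))))) (by decide +kernel)
theorem bx2_3 : BoxOK sI cl6 cl4 cl9 t0 t5 b2_3 :=
  box_mk (TrL.c (I.pos (nat_lit 0) (nat_lit 0)) (xa (xb (xa (xb T0.l7 T0.l7) T0.l7) (xa (xb T0.l7 T0.l7) T0.l7)) (xb T0.l7 T0.l7))
  (TrL.c (I.pos (nat_lit 0) (nat_lit 0)) T5.l1
  (TrL.c (I.pos (nat_lit 0) (nat_lit 89480386)) (xR T0.l1 T0.l1)
  (TrL.c (I.pos (nat_lit 0) (nat_lit 41530880)) T5.l2
  (TrL.c (I.pos (nat_lit 0) (nat_lit 0)) (xa T5.l8 T5.l8)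
  (TrL.c (I.pos (nat_lit 0) (nat_lit 0)) T0.l2
  (TrL.c (I.mix (nat_lit 41527258) (nat_lit 41530880)) T5.l4
  (TrL.c (I.mix (nat_lit 41527258) (nat_lit 4274)) T0.l9
  TrL.n)))))))) (by decide +kernel)
theorem bx2_4 : BoxOK sI cl6 cl4 cl9 t0 t5 b2_4 :=
  box_mk (TrL.c (I.pos (nat_lit 0) (nat_lit 0)) (xb (xa (xb T0.l7 T0.l7) (xb T0.l7 T0.l7)) (xa (xb (xa T0.l7 T0.l7) (xa T0.l7 T0.l7)) (xb T0.l7 (xa T0.l7 T0.l7))))
  (TrL.c (I.pos (nat_lit 0) (nat_lit 0)) (xb T5.l1 T5.l1)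
  (TrL.c (I.pos (nat_lit 0) (nat_lit 89480386)) (xR T0.l1 T0.l1)
  (TrL.c (I.pos (nat_lit 0) (nat_lit 41530880)) T5.l2
  (TrL.c (I.pos (nat_lit 0) (nat_lit 0)) (xb (xa T5.l8 T5.l8) (xa T5.l8 (xb T5.l3 (xs T5.l8 T5.l8))))
  (TrL.c (I.pos (nat_lit 0) (nat_lit 0)) T0.l2
  (TrL.c (I.mix (nat_lit 41527258) (nat_lit 41530880)) (xR T5.l4 T5.l4)
  (TrL.c (I.mix (nat_lit 41527258) (nat_lit 4274)) T0.l3
  TrL.n)))))))) (by decide +kernel)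
theorem bx2_5 : BoxOK sI cl6 cl4 cl9 t0 t5 b2_5 :=
  box_mk (TrL.c (I.pos (nat_lit 0) (nat_lit 0)) T5.l1
  (TrL.c (I.pos (nat_lit 0) (nat_lit 0)) T0.l1
  (TrL.c (I.mix (nat_lit 41527258) (nat_lit 41530880)) T5.l6
  (TrL.c (I.mix (nat_lit 41527258) (nat_lit 4274)) T0.l5
  TrL.n)))) (by decide +kernel)
theorem bx2_6 : BoxOK sI cl6 cl4 cl9 t0 t5 b2_6 :=
  box_mk (TrL.c (I.pos (nat_lit 0) (nat_lit 0)) (xa (xb (xa T0.l0 T0.l0) (xa T0.l0 T0.l0)) (xb T0.l0 (xa T0.l0 T0.l0)))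
  (TrL.c (I.pos (nat_lit 0) (nat_lit 0)) (xa T5.l1 T5.l1)
  (TrL.c (I.pos (nat_lit 0) (nat_lit 89480386)) (xR T0.l1 T0.l1)
  (TrL.c (I.pos (nat_lit 0) (nat_lit 41530880)) T5.l2
  (TrL.c (I.pos (nat_lit 0) (nat_lit 0)) (xa (xb (xa T5.l3 T5.l3) T5.l3) (xb (xa T5.l3 (xb T5.l3 T5.l3)) (xa T5.l3 (xb T5.l3 T5.l3))))
  (TrL.c (I.pos (nat_lit 0) (nat_lit 0)) (xa T0.l2 T0.l2)
  (TrL.c (I.mix (nat_lit 41527258) (nat_lit 41530880)) (xR T5.l4 T5.l4)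
  (TrL.c (I.mix (nat_lit 41527258) (nat_lit 4274)) T0.l3
  TrL.n)))))))) (by decide +kernel)
theorem bx2_7 : BoxOK sI cl6 cl4 cl9 t0 t5 b2_7 :=
  box_mk (TrL.c (I.pos (nat_lit 0) (nat_lit 0)) (xb (xa (xb T0.l6 T0.l6) T0.l6) (xa (xb T0.l6 T0.l6) (xb T0.l6 T0.l6)))
  (TrL.c (I.pos (nat_lit 0) (nat_lit 0)) T5.l1
  (TrL.c (I.pos (nat_lit 0) (nat_lit 89480386)) T0.l1
  (TrL.c (I.pos (nat_lit 0) (nat_lit 41530880)) T5.l2
  (TrL.c (I.pos (nat_lit 0) (nat_lit 0)) T5.l7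
  (TrL.c (I.pos (nat_lit 0) (nat_lit 0)) T0.l2
  (TrL.c (I.mix (nat_lit 41527258) (nat_lit 41530880)) T5.l4
  (TrL.c (I.mix (nat_lit 41527258) (nat_lit 4274)) T0.l3
  TrL.n)))))))) (by decide +kernel)
theorem bx2_8 : BoxOK sI cl6 cl4 cl9 t0 t5 b2_8 :=
  box_mk (TrL.c (I.pos (nat_lit 0) (nat_lit 0)) (xa (xb T0.l0 T0.l0) (xb T0.l0 T0.l0))
  (TrL.c (I.pos (nat_lit 0) (nat_lit 0)) T5.l1
  (TrL.c (I.pos (nat_lit 0) (nat_lit 89480386)) T0.l1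
  (TrL.c (I.pos (nat_lit 0) (nat_lit 41530880)) T5.l2
  (TrL.c (I.pos (nat_lit 0) (nat_lit 0)) (xb T5.l3 T5.l3)
  (TrL.c (I.pos (nat_lit 0) (nat_lit 0)) T0.l2
  (TrL.c (I.mix (nat_lit 41527258) (nat_lit 41530880)) T5.l4
  (TrL.c (I.mix (nat_lit 41527258) (nat_lit 4274)) T0.l3
  TrL.n)))))))) (by decide +kernel)
theorem bx2_9 : BoxOK sI cl6 cl4 cl9 t0 t5 b2_9 :=
  box_mk (TrL.c (I.pos (nat_lit 0) (nat_lit 0)) (xb T0.l7 T0.l7)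
  (TrL.c (I.pos (nat_lit 0) (nat_lit 0)) T5.l1
  (TrL.c (I.pos (nat_lit 0) (nat_lit 89480386)) T0.l1
  (TrL.c (I.pos (nat_lit 0) (nat_lit 41530880)) T5.l2
  (TrL.c (I.pos (nat_lit 0) (nat_lit 0)) T5.l8
  (TrL.c (I.pos (nat_lit 0) (nat_lit 0)) T0.l2
  (TrL.c (I.mix (nat_lit 41527258) (nat_lit 41530880)) T5.l4
  (TrL.c (I.mix (nat_lit 41527258) (nat_lit 4274)) T0.l3
  TrL.n)))))))) (by decide +kernel)
theorem sv2 : StarV sI cl6 cl4 cl9 t0 t5 t2 :=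
  (bt_n (bt_n (bt_n (bt_b bx2_0) (bt_b bx2_1)) (bt_n (bt_b bx2_2) (bt_n (bt_b bx2_3) (bt_b bx2_4)))) (bt_n (bt_n (bt_b bx2_5) (bt_b bx2_6)) (bt_n (bt_b bx2_7) (bt_n (bt_b bx2_8) (bt_b bx2_9)))))
def S2 : StarD := StarD.mk cl6 cl4 cl9 0 5 t2
theorem bx3_0 : BoxOK sI cl6 cl9 cl4 t5 t0 b3_0 :=
  box_mk (TrL.c (I.pos (nat_lit 0) (nat_lit 0)) (xa (xb (xa (xb T5.l0 T5.l0) T5.l0) (xa (xb T5.l0 T5.l0) (xb T5.l0 T5.l0))) (xa (xb (xb T5.l0 T5.l0) (xb T5.l0 T5.l0)) (xb (xb T5.l0 T5.l0) (xs T5.l0 T5.l0))))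
  (TrL.c (I.pos (nat_lit 0) (nat_lit 0)) (xa T0.l8 T0.l8)
  (TrL.c (I.pos (nat_lit 0) (nat_lit 89480386)) (xR T5.l9 T5.l9)
  (TrL.c (I.pos (nat_lit 0) (nat_lit 41530880)) T0.l9
  (TrL.c (I.pos (nat_lit 0) (nat_lit 0)) (xa T0.l10 T0.l10)
  (TrL.c (I.pos (nat_lit 0) (nat_lit 0)) T5.l10
  (TrL.c (I.mix (nat_lit 41527258) (nat_lit 41530880)) (xR T0.l1 T0.l1)
  (TrL.c (I.mix (nat_lit 41527258) (nat_lit 4274)) T5.l11
  TrL.n)))))))) (by decide +kernel)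
theorem bx3_1 : BoxOK sI cl6 cl9 cl4 t5 t0 b3_1 :=
  box_mk (TrL.c (I.pos (nat_lit 0) (nat_lit 0)) (xa (xb T5.l12 T5.l12) (xb T5.l0 (xa T5.l12 T5.l12)))
  (TrL.c (I.pos (nat_lit 0) (nat_lit 0)) T0.l8
  (TrL.c (I.pos (nat_lit 0) (nat_lit 89480386)) (xR T5.l9 T5.l9)
  (TrL.c (I.pos (nat_lit 0) (nat_lit 41530880)) T0.l9
  (TrL.c (I.pos (nat_lit 0) (nat_lit 0)) (xa T0.l12 T0.l12)
  (TrL.c (I.pos (nat_lit 0) (nat_lit 0)) T5.l10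
  (TrL.c (I.mix (nat_lit 41527258) (nat_lit 41530880)) T0.l11
  (TrL.c (I.mix (nat_lit 41527258) (nat_lit 4274)) T5.l11
  TrL.n)))))))) (by decide +kernel)
theorem bx3_2 : BoxOK sI cl6 cl9 cl4 t5 t0 b3_2 :=
  box_mk (TrL.c (I.pos (nat_lit 0) (nat_lit 0)) (xa (xa T5.l12 T5.l12) T5.l12)
  (TrL.c (I.pos (nat_lit 0) (nat_lit 0)) (xa T0.l8 T0.l8)
  (TrL.c (I.pos (nat_lit 0) (nat_lit 89480386)) T5.l9
  (TrL.c (I.pos (nat_lit 0) (nat_lit 41530880)) T0.l9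
  (TrL.c (I.pos (nat_lit 0) (nat_lit 0)) (xa T0.l12 T0.l12)
  (TrL.c (I.pos (nat_lit 0) (nat_lit 0)) T5.l10
  (TrL.c (I.mix (nat_lit 41527258) (nat_lit 41530880)) T0.l11
  (TrL.c (I.mix (nat_lit 41527258) (nat_lit 4274)) T5.l11
  TrL.n)))))))) (by decide +kernel)
theorem bx3_3 : BoxOK sI cl6 cl9 cl4 t5 t0 b3_3 :=
  box_mk (TrL.c (I.pos (nat_lit 0) (nat_lit 0)) (xb (xa (xb T5.l13 T5.l13) (xb T5.l13 T5.l13)) (xa (xb (xa T5.l13 T5.l13) (xa T5.l13 T5.l13)) (xb T5.l13 (xa T5.l13 T5.l13))))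
  (TrL.c (I.pos (nat_lit 0) (nat_lit 0)) T0.l8
  (TrL.c (I.pos (nat_lit 0) (nat_lit 89480386)) (xR T5.l9 T5.l9)
  (TrL.c (I.pos (nat_lit 0) (nat_lit 41530880)) T0.l9
  (TrL.c (I.pos (nat_lit 0) (nat_lit 0)) (xb T0.l13 T0.l13)
  (TrL.c (I.pos (nat_lit 0) (nat_lit 0)) T5.l10
  (TrL.c (I.mix (nat_lit 41527258) (nat_lit 41530880)) (xR T0.l11 T0.l11)
  (TrL.c (I.mix (nat_lit 41527258) (nat_lit 4274)) T5.l11
  TrL.n)))))))) (by decide +kernel)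
theorem bx3_4 : BoxOK sI cl6 cl9 cl4 t5 t0 b3_4 :=
  box_mk (TrL.c (I.pos (nat_lit 0) (nat_lit 0)) (xa (xa (xb T5.l12 (xa T5.l12 T5.l12)) (xb T5.l12 T5.l12)) (xa (xb T5.l12 (xa T5.l12 T5.l12)) (xb T5.l12 (xa T5.l12 T5.l12))))
  (TrL.c (I.pos (nat_lit 0) (nat_lit 0)) (xa T0.l8 T0.l8)
  (TrL.c (I.pos (nat_lit 0) (nat_lit 89480386)) T5.l9
  (TrL.c (I.pos (nat_lit 0) (nat_lit 41530880)) T0.l9
  (TrL.c (I.pos (nat_lit 0) (nat_lit 0)) (xa T0.l12 T0.l12)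
  (TrL.c (I.pos (nat_lit 0) (nat_lit 0)) T5.l10
  (TrL.c (I.mix (nat_lit 41527258) (nat_lit 41530880)) T0.l11
  (TrL.c (I.mix (nat_lit 41527258) (nat_lit 4274)) T5.l11
  TrL.n)))))))) (by decide +kernel)
theorem bx3_5 : BoxOK sI cl6 cl9 cl4 t5 t0 b3_5 :=
  box_mk (TrL.c (I.pos (nat_lit 0) (nat_lit 0)) (xb (xa T5.l13 (xb T5.l13 T5.l13)) (xa (xb T5.l13 T5.l13) T5.l13))
  (TrL.c (I.pos (nat_lit 0) (nat_lit 0)) T0.l8
  (TrL.c (I.pos (nat_lit 0) (nat_lit 89480386)) (xR T5.l9 T5.l9)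
  (TrL.c (I.pos (nat_lit 0) (nat_lit 41530880)) T0.l9
  (TrL.c (I.pos (nat_lit 0) (nat_lit 0)) (xb T0.l13 T0.l13)
  (TrL.c (I.pos (nat_lit 0) (nat_lit 0)) T5.l10
  (TrL.c (I.mix (nat_lit 41527258) (nat_lit 41530880)) T0.l1
  (TrL.c (I.mix (nat_lit 41527258) (nat_lit 4274)) T5.l11
  TrL.n)))))))) (by decide +kernel)
theorem bx3_6 : BoxOK sI cl6 cl9 cl4 t5 t0 b3_6 :=
  box_mk (TrL.c (I.pos (nat_lit 0) (nat_lit 0)) (xa (xa T5.l12 T5.l12) T5.l12)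
  (TrL.c (I.pos (nat_lit 0) (nat_lit 0)) (xa T0.l8 T0.l8)
  (TrL.c (I.pos (nat_lit 0) (nat_lit 89480386)) T5.l9
  (TrL.c (I.pos (nat_lit 0) (nat_lit 41530880)) T0.l9
  (TrL.c (I.pos (nat_lit 0) (nat_lit 0)) (xa T0.l12 T0.l12)
  (TrL.c (I.pos (nat_lit 0) (nat_lit 0)) T5.l10
  (TrL.c (I.mix (nat_lit 41527258) (nat_lit 41530880)) T0.l11
  (TrL.c (I.mix (nat_lit 41527258) (nat_lit 4274)) T5.l11
  TrL.n)))))))) (by decide +kernel)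
theorem bx3_7 : BoxOK sI cl6 cl9 cl4 t5 t0 b3_7 :=
  box_mk (TrL.c (I.pos (nat_lit 0) (nat_lit 0)) (xa T5.l12 T5.l0)
  (TrL.c (I.pos (nat_lit 0) (nat_lit 0)) T0.l8
  (TrL.c (I.pos (nat_lit 0) (nat_lit 89480386)) T5.l9
  (TrL.c (I.pos (nat_lit 0) (nat_lit 41530880)) T0.l9
  (TrL.c (I.pos (nat_lit 0) (nat_lit 0)) T0.l12
  (TrL.c (I.pos (nat_lit 0) (nat_lit 0)) T5.l10
  (TrL.c (I.mix (nat_lit 41527258) (nat_lit 41530880)) T0.l11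
  (TrL.c (I.mix (nat_lit 41527258) (nat_lit 4274)) T5.l11
  TrL.n)))))))) (by decide +kernel)
theorem bx3_8 : BoxOK sI cl6 cl9 cl4 t5 t0 b3_8 :=
  box_mk (TrL.c (I.pos (nat_lit 0) (nat_lit 0)) T5.l0
  (TrL.c (I.pos (nat_lit 0) (nat_lit 0)) T0.l8
  (TrL.c (I.pos (nat_lit 0) (nat_lit 89480386)) (xR T5.l9 T5.l9)
  (TrL.c (I.pos (nat_lit 0) (nat_lit 41530880)) T0.l9
  (TrL.c (I.pos (nat_lit 0) (nat_lit 0)) T0.l13
  (TrL.c (I.pos (nat_lit 0) (nat_lit 0)) T5.l10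
  (TrL.c (I.mix (nat_lit 41527258) (nat_lit 41530880)) T0.l11
  (TrL.c (I.mix (nat_lit 41527258) (nat_lit 4274)) T5.l11
  TrL.n)))))))) (by decide +kernel)
theorem bx3_9 : BoxOK sI cl6 cl9 cl4 t5 t0 b3_9 :=
  box_mk (TrL.c (I.pos (nat_lit 0) (nat_lit 0)) (xa (xa T5.l12 T5.l12) (xa T5.l12 (xa T5.l12 T5.l12)))
  (TrL.c (I.pos (nat_lit 0) (nat_lit 0)) (xa T0.l8 T0.l8)
  (TrL.c (I.pos (nat_lit 0) (nat_lit 89480386)) T5.l9
  (TrL.c (I.pos (nat_lit 0) (nat_lit 41530880)) T0.l9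
  (TrL.c (I.pos (nat_lit 0) (nat_lit 0)) (xa T0.l12 T0.l12)
  (TrL.c (I.pos (nat_lit 0) (nat_lit 0)) T5.l10
  (TrL.c (I.mix (nat_lit 41527258) (nat_lit 41530880)) T0.l11
  (TrL.c (I.mix (nat_lit 41527258) (nat_lit 4274)) T5.l11
  TrL.n)))))))) (by decide +kernel)
theorem bx3_10 : BoxOK sI cl6 cl9 cl4 t5 t0 b3_10 :=
  box_mk (TrL.c (I.pos (nat_lit 0) (nat_lit 0)) (xb (xa T5.l12 T5.l12) T5.l12)
  (TrL.c (I.pos (nat_lit 0) (nat_lit 0)) T0.l8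
  (TrL.c (I.pos (nat_lit 0) (nat_lit 89480386)) T5.l9
  (TrL.c (I.pos (nat_lit 0) (nat_lit 41530880)) T0.l9
  (TrL.c (I.pos (nat_lit 0) (nat_lit 0)) (xb T0.l12 T0.l12)
  (TrL.c (I.pos (nat_lit 0) (nat_lit 0)) T5.l10
  (TrL.c (I.mix (nat_lit 41527258) (nat_lit 41530880)) T0.l11
  (TrL.c (I.mix (nat_lit 41527258) (nat_lit 4274)) T5.l11
  TrL.n)))))))) (by decide +kernel)
theorem bx3_11 : BoxOK sI cl6 cl9 cl4 t5 t0 b3_11 :=
  box_mk (TrL.c (I.pos (nat_lit 0) (nat_lit 0)) (xa (xa (xb (xa T5.l12 T5.l12) T5.l12) T5.l12) T5.l12)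
  (TrL.c (I.pos (nat_lit 0) (nat_lit 0)) (xa T0.l8 T0.l8)
  (TrL.c (I.pos (nat_lit 0) (nat_lit 89480386)) T5.l9
  (TrL.c (I.pos (nat_lit 0) (nat_lit 41530880)) T0.l9
  (TrL.c (I.pos (nat_lit 0) (nat_lit 0)) (xa T0.l12 T0.l12)
  (TrL.c (I.pos (nat_lit 0) (nat_lit 0)) T5.l10
  (TrL.c (I.mix (nat_lit 41527258) (nat_lit 41530880)) T0.l11
  (TrL.c (I.mix (nat_lit 41527258) (nat_lit 4274)) T5.l11
  TrL.n)))))))) (by decide +kernel)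
theorem bx3_12 : BoxOK sI cl6 cl9 cl4 t5 t0 b3_12 :=
  box_mk (TrL.c (I.pos (nat_lit 0) (nat_lit 0)) (xa (xb (xa T5.l0 T5.l0) (xa T5.l0 T5.l0)) (xb (xa T5.l0 T5.l0) (xa T5.l0 T5.l0)))
  (TrL.c (I.pos (nat_lit 0) (nat_lit 0)) (xa T0.l8 T0.l8)
  (TrL.c (I.pos (nat_lit 0) (nat_lit 89480386)) (xR T5.l9 T5.l9)
  (TrL.c (I.pos (nat_lit 0) (nat_lit 41530880)) T0.l9
  (TrL.c (I.pos (nat_lit 0) (nat_lit 0)) (xa (xb T0.l10 T0.l10) (xb (xa T0.l10 T0.l10) (xa T0.l10 T0.l10)))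
  (TrL.c (I.pos (nat_lit 0) (nat_lit 0)) (xa T5.l10 T5.l10)
  (TrL.c (I.mix (nat_lit 41527258) (nat_lit 41530880)) (xR T0.l1 T0.l1)
  (TrL.c (I.mix (nat_lit 41527258) (nat_lit 4274)) T5.l11
  TrL.n)))))))) (by decide +kernel)
theorem bx3_13 : BoxOK sI cl6 cl9 cl4 t5 t0 b3_13 :=
  box_mk (TrL.c (I.pos (nat_lit 0) (nat_lit 0)) (xa (xb T5.l0 T5.l0) (xb T5.l0 T5.l0))
  (TrL.c (I.pos (nat_lit 0) (nat_lit 0)) T0.l8
  (TrL.c (I.pos (nat_lit 0) (nat_lit 89480386)) (xR T5.l9 T5.l9)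
  (TrL.c (I.pos (nat_lit 0) (nat_lit 41530880)) T0.l9
  (TrL.c (I.pos (nat_lit 0) (nat_lit 0)) T0.l10
  (TrL.c (I.pos (nat_lit 0) (nat_lit 0)) T5.l10
  (TrL.c (I.mix (nat_lit 41527258) (nat_lit 41530880)) T0.l1
  (TrL.c (I.mix (nat_lit 41527258) (nat_lit 4274)) T5.l11
  TrL.n)))))))) (by decide +kernel)
theorem sv3 : StarV sI cl6 cl9 cl4 t5 t0 t3 :=
  (bt_n (bt_n (bt_n (bt_b bx3_0) (bt_n (bt_b bx3_1) (bt_b bx3_2))) (bt_n (bt_n (bt_b bx3_3) (bt_b bx3_4)) (bt_n (bt_b bx3_5) (bt_b bx3_6)))) (bt_n (bt_n (bt_b bx3_7) (bt_n (bt_b bx3_8) (bt_b bx3_9))) (bt_n (bt_n (bt_b bx3_10) (bt_b bx3_11)) (bt_n (bt_b bx3_12) (bt_b bx3_13)))))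
def S3 : StarD := StarD.mk cl6 cl9 cl4 5 0 t3
theorem bx4_0 : BoxOK sI cl9 cl4 cl6 t1 t3 b4_0 :=
  box_mk (TrL.c (I.pos (nat_lit 0) (nat_lit 0)) (xa (xb T1.l4 (xa (xb T1.l0 T1.l0) (xb T1.l0 T1.l0))) (xb T1.l0 (xa (xb T1.l0 T1.l0) (xb T1.l0 T1.l0))))
  (TrL.c (I.pos (nat_lit 0) (nat_lit 0)) (xa T3.l1 T3.l1)
  (TrL.c (I.pos (nat_lit 0) (nat_lit 124588530)) (xR T1.l1 T1.l1)
  (TrL.c (I.pos (nat_lit 0) (nat_lit 96881482)) (xR T3.l2 T3.l2)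
  (TrL.c (I.pos (nat_lit 0) (nat_lit 0)) (xb (xa T3.l5 (xk T3.l3 T3.l3)) (xa (xk T3.l3 (xb T3.l3 T3.l3)) (xk (xb T3.l3 T3.l3) (xb T3.l3 T3.l3))))
  (TrL.c (I.pos (nat_lit 0) (nat_lit 0)) T1.l2
  (TrL.c (I.mix (nat_lit 17240550) (nat_lit 96881482)) (xR T3.l4 T3.l4)
  (TrL.c (I.mix (nat_lit 17240550) (nat_lit 71940500)) T1.l3
  TrL.n)))))))) (by decide +kernel)
theorem bx4_1 : BoxOK sI cl9 cl4 cl6 t1 t3 b4_1 :=
  box_mk (TrL.c (I.pos (nat_lit 0) (nat_lit 0)) (xa (xb (xa T1.l4 T1.l4) (xa T1.l4 T1.l4)) (xb T1.l4 T1.l4))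
  (TrL.c (I.pos (nat_lit 0) (nat_lit 0)) T3.l1
  (TrL.c (I.pos (nat_lit 0) (nat_lit 124588530)) (xR T1.l1 T1.l1)
  (TrL.c (I.pos (nat_lit 0) (nat_lit 96881482)) T3.l2
  (TrL.c (I.pos (nat_lit 0) (nat_lit 0)) (xa T3.l5 (xb T3.l5 T3.l5))
  (TrL.c (I.pos (nat_lit 0) (nat_lit 0)) T1.l2
  (TrL.c (I.mix (nat_lit 17240550) (nat_lit 96881482)) T3.l4
  (TrL.c (I.mix (nat_lit 17240550) (nat_lit 71940500)) T1.l3
  TrL.n)))))))) (by decide +kernel)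
theorem bx4_2 : BoxOK sI cl9 cl4 cl6 t1 t3 b4_2 :=
  box_mk (TrL.c (I.pos (nat_lit 0) (nat_lit 0)) (xb (xa (xb T1.l4 T1.l4) (xb T1.l4 T1.l4)) (xa (xb T1.l4 (xa T1.l4 T1.l4)) (xb (xa T1.l4 T1.l4) (xa T1.l4 T1.l4))))
  (TrL.c (I.pos (nat_lit 0) (nat_lit 0)) (xb T3.l1 (xa T3.l1 T3.l1))
  (TrL.c (I.pos (nat_lit 0) (nat_lit 124588530)) (xR T1.l1 T1.l1)
  (TrL.c (I.pos (nat_lit 0) (nat_lit 96881482)) (xR T3.l2 T3.l2)
  (TrL.c (I.pos (nat_lit 0) (nat_lit 0)) (xb (xa T3.l5 (xk T3.l5 T3.l5)) (xa (xb T3.l5 (xk (xb T3.l3 (xs T3.l3 (xa T3.l3 T3.l3))) (xb T3.l3 (xs T3.l3 (xa T3.l3 T3.l3))))) (xk (xb T3.l3 (xb T3.l3 (xs T3.l3 (xa T3.l3 T3.l3)))) (xb T3.l3 (xb T3.l3 (xs T3.l3 (xa T3.l3 (xk T3.l3 T3.l0))))))))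
  (TrL.c (I.pos (nat_lit 0) (nat_lit 0)) T1.l2
  (TrL.c (I.mix (nat_lit 17240550) (nat_lit 96881482)) (xR T3.l4 T3.l4)
  (TrL.c (I.mix (nat_lit 17240550) (nat_lit 71940500)) T1.l3
  TrL.n)))))))) (by decide +kernel)
theorem bx4_3 : BoxOK sI cl9 cl4 cl6 t1 t3 b4_3 :=
  box_mk (TrL.c (I.pos (nat_lit 0) (nat_lit 0)) (xa T3.l1 T3.l1)
  (TrL.c (I.pos (nat_lit 0) (nat_lit 0)) T1.l1
  (TrL.c (I.mix (nat_lit 17240550) (nat_lit 96881482)) (xR T3.l6 T3.l2)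
  (TrL.c (I.mix (nat_lit 17240550) (nat_lit 71940500)) T1.l11
  TrL.n)))) (by decide +kernel)
theorem bx4_4 : BoxOK sI cl9 cl4 cl6 t1 t3 b4_4 :=
  box_mk (TrL.c (I.pos (nat_lit 0) (nat_lit 0)) T3.l7
  (TrL.c (I.pos (nat_lit 0) (nat_lit 0)) T1.l6
  (TrL.c (I.mix (nat_lit 17240550) (nat_lit 96881482)) (xR T3.l6 T3.l4)
  (TrL.c (I.mix (nat_lit 17240550) (nat_lit 71940500)) T1.l9
  TrL.n)))) (by decide +kernel)
theorem bx4_5 : BoxOK sI cl9 cl4 cl6 t1 t3 b4_5 :=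
  box_mk (TrL.c (I.pos (nat_lit 0) (nat_lit 0)) (xb T1.l7 T1.l4)
  (TrL.c (I.pos (nat_lit 0) (nat_lit 0)) T3.l1
  (TrL.c (I.pos (nat_lit 0) (nat_lit 124588530)) T1.l1
  (TrL.c (I.pos (nat_lit 0) (nat_lit 96881482)) T3.l2
  (TrL.c (I.pos (nat_lit 0) (nat_lit 0)) T3.l5
  (TrL.c (I.pos (nat_lit 0) (nat_lit 0)) T1.l2
  (TrL.c (I.mix (nat_lit 17240550) (nat_lit 96881482)) T3.l4
  (TrL.c (I.mix (nat_lit 17240550) (nat_lit 71940500)) T1.l3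
  TrL.n)))))))) (by decide +kernel)
theorem bx4_6 : BoxOK sI cl9 cl4 cl6 t1 t3 b4_6 :=
  box_mk (TrL.c (I.pos (nat_lit 0) (nat_lit 0)) (xa (xb T1.l0 (xa T1.l0 T1.l0)) (xb T1.l0 (xa T1.l0 T1.l0)))
  (TrL.c (I.pos (nat_lit 0) (nat_lit 0)) (xa T3.l1 (xb T3.l10 T3.l1))
  (TrL.c (I.pos (nat_lit 0) (nat_lit 124588530)) (xR T1.l1 T1.l11)
  (TrL.c (I.pos (nat_lit 0) (nat_lit 96881482)) (xR T3.l2 T3.l2)
  (TrL.c (I.pos (nat_lit 0) (nat_lit 0)) (xa (xb (xk (xa T3.l3 T3.l3) (xa T3.l3 T3.l3)) (xk T3.l3 T3.l3)) (xb (xk (xa T3.l3 T3.l3) (xa T3.l3 T3.l3)) (xk (xa T3.l3 T3.l3) (xa T3.l3 T3.l3))))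
  (TrL.c (I.pos (nat_lit 0) (nat_lit 0)) (xk T1.l2 T1.l2)
  (TrL.c (I.mix (nat_lit 17240550) (nat_lit 96881482)) (xR T3.l4 T3.l4)
  (TrL.c (I.mix (nat_lit 17240550) (nat_lit 71940500)) T1.l9
  TrL.n)))))))) (by decide +kernel)
theorem bx4_7 : BoxOK sI cl9 cl4 cl6 t1 t3 b4_7 :=
  box_mk (TrL.c (I.pos (nat_lit 0) (nat_lit 0)) (xb (xa (xb T1.l7 T1.l7) T1.l7) (xa T1.l7 T1.l7))
  (TrL.c (I.pos (nat_lit 0) (nat_lit 0)) T3.l7
  (TrL.c (I.pos (nat_lit 0) (nat_lit 124588530)) T1.l1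
  (TrL.c (I.pos (nat_lit 0) (nat_lit 96881482)) T3.l4
  (TrL.c (I.pos (nat_lit 0) (nat_lit 0)) T3.l8
  (TrL.c (I.pos (nat_lit 0) (nat_lit 0)) T1.l2
  (TrL.c (I.mix (nat_lit 17240550) (nat_lit 96881482)) T3.l4
  (TrL.c (I.mix (nat_lit 17240550) (nat_lit 71940500)) T1.l3
  TrL.n)))))))) (by decide +kernel)
theorem bx4_8 : BoxOK sI cl9 cl4 cl6 t1 t3 b4_8 :=
  box_mk (TrL.c (I.pos (nat_lit 0) (nat_lit 0)) (xa (xb T1.l0 T1.l0) (xb T1.l0 T1.l0))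
  (TrL.c (I.pos (nat_lit 0) (nat_lit 0)) T3.l1
  (TrL.c (I.pos (nat_lit 0) (nat_lit 124588530)) (xR T1.l1 T1.l1)
  (TrL.c (I.pos (nat_lit 0) (nat_lit 96881482)) (xR T3.l2 T3.l2)
  (TrL.c (I.pos (nat_lit 0) (nat_lit 0)) (xk (xa T3.l3 (xb T3.l3 (xs T3.l3 (xb T3.l3 T3.l3)))) (xa (xb T3.l3 T3.l3) (xb T3.l3 (xs T3.l3 (xb T3.l0 (xk T3.l0 T3.l0))))))
  (TrL.c (I.pos (nat_lit 0) (nat_lit 0)) T1.l2
  (TrL.c (I.mix (nat_lit 17240550) (nat_lit 96881482)) T3.l4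
  (TrL.c (I.mix (nat_lit 17240550) (nat_lit 71940500)) T1.l3
  TrL.n)))))))) (by decide +kernel)
theorem bx4_9 : BoxOK sI cl9 cl4 cl6 t1 t3 b4_9 :=
  box_mk (TrL.c (I.pos (nat_lit 0) (nat_lit 0)) T1.l4
  (TrL.c (I.pos (nat_lit 0) (nat_lit 0)) T3.l1
  (TrL.c (I.pos (nat_lit 0) (nat_lit 124588530)) T1.l1
  (TrL.c (I.pos (nat_lit 0) (nat_lit 96881482)) T3.l2
  (TrL.c (I.pos (nat_lit 0) (nat_lit 0)) T3.l5
  (TrL.c (I.pos (nat_lit 0) (nat_lit 0)) T1.l2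
  (TrL.c (I.mix (nat_lit 17240550) (nat_lit 96881482)) T3.l4
  (TrL.c (I.mix (nat_lit 17240550) (nat_lit 71940500)) T1.l3
  TrL.n)))))))) (by decide +kernel)
theorem sv4 : StarV sI cl9 cl4 cl6 t1 t3 t4 :=
  (bt_n (bt_n (bt_n (bt_b bx4_0) (bt_b bx4_1)) (bt_n (bt_b bx4_2) (bt_n (bt_b bx4_3) (bt_b bx4_4)))) (bt_n (bt_n (bt_b bx4_5) (bt_b bx4_6)) (bt_n (bt_b bx4_7) (bt_n (bt_b bx4_8) (bt_b bx4_9)))))
def S4 : StarD := StarD.mk cl9 cl4 cl6 1 3 t4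
theorem bx5_0 : BoxOK sI cl9 cl6 cl4 t3 t1 b5_0 :=
  box_mk (TrL.c (I.pos (nat_lit 0) (nat_lit 0)) (xa (xb (xa T3.l0 T3.l0) (xa (xb T3.l0 T3.l0) (xb T3.l0 T3.l0))) (xb (xa (xb T3.l13 T3.l13) (xb T3.l0 T3.l0)) (xa (xb T3.l0 T3.l0) (xb T3.l0 T3.l0))))
  (TrL.c (I.pos (nat_lit 0) (nat_lit 0)) (xa (xk T1.l8 T1.l8) (xk T1.l8 T1.l8))
  (TrL.c (I.pos (nat_lit 0) (nat_lit 124588530)) (xR T3.l9 T3.l9)
  (TrL.c (I.pos (nat_lit 0) (nat_lit 96881482)) (xR T1.l9 T1.l9)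
  (TrL.c (I.pos (nat_lit 0) (nat_lit 0)) (xa (xk T1.l10 (xb T1.l13 T1.l10)) (xk (xb T1.l10 (xb T1.l10 (xa T1.l10 (xs T1.l10 (xk T1.l10 T1.l10))))) (xb T1.l10 (xb (xa T1.l13 T1.l10) (xa T1.l10 (xs T1.l10 (xk (xb T1.l10 T1.l10) (xb T1.l10 (xa T1.l10 T1.l10)))))))))
  (TrL.c (I.pos (nat_lit 0) (nat_lit 0)) T3.l10
  (TrL.c (I.mix (nat_lit 17240550) (nat_lit 96881482)) (xR T1.l11 T1.l11)
  (TrL.c (I.mix (nat_lit 17240550) (nat_lit 71940500)) T3.l11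
  TrL.n)))))))) (by decide +kernel)
theorem bx5_1 : BoxOK sI cl9 cl6 cl4 t3 t1 b5_1 :=
  box_mk (TrL.c (I.pos (nat_lit 0) (nat_lit 0)) (xa (xb T3.l12 T3.l12) T3.l0)
  (TrL.c (I.pos (nat_lit 0) (nat_lit 0)) T1.l8
  (TrL.c (I.pos (nat_lit 0) (nat_lit 124588530)) T3.l9
  (TrL.c (I.pos (nat_lit 0) (nat_lit 96881482)) T1.l9
  (TrL.c (I.pos (nat_lit 0) (nat_lit 0)) (xa (xb T1.l12 T1.l12) (xk T1.l12 T1.l12))
  (TrL.c (I.pos (nat_lit 0) (nat_lit 0)) T3.l10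
  (TrL.c (I.mix (nat_lit 17240550) (nat_lit 96881482)) (xR T1.l11 T1.l11)
  (TrL.c (I.mix (nat_lit 17240550) (nat_lit 71940500)) T3.l11
  TrL.n)))))))) (by decide +kernel)
theorem bx5_2 : BoxOK sI cl9 cl6 cl4 t3 t1 b5_2 :=
  box_mk (TrL.c (I.pos (nat_lit 0) (nat_lit 0)) T3.l12
  (TrL.c (I.pos (nat_lit 0) (nat_lit 0)) T1.l8
  (TrL.c (I.pos (nat_lit 0) (nat_lit 124588530)) T3.l9
  (TrL.c (I.pos (nat_lit 0) (nat_lit 96881482)) T1.l9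
  (TrL.c (I.pos (nat_lit 0) (nat_lit 0)) T1.l8
  (TrL.c (I.pos (nat_lit 0) (nat_lit 0)) T3.l10
  (TrL.c (I.mix (nat_lit 17240550) (nat_lit 96881482)) T1.l11
  (TrL.c (I.mix (nat_lit 17240550) (nat_lit 71940500)) T3.l11
  TrL.n)))))))) (by decide +kernel)
theorem bx5_3 : BoxOK sI cl9 cl6 cl4 t3 t1 b5_3 :=
  box_mk (TrL.c (I.pos (nat_lit 0) (nat_lit 0)) (xa (xb (xb T3.l13 T3.l13) (xa (xb T3.l13 T3.l13) (xb T3.l13 T3.l13))) (xb T3.l13 (xa (xb T3.l13 T3.l13) T3.l13)))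
  (TrL.c (I.pos (nat_lit 0) (nat_lit 0)) (xk T1.l8 T1.l8)
  (TrL.c (I.pos (nat_lit 0) (nat_lit 124588530)) (xR T3.l9 T3.l4)
  (TrL.c (I.pos (nat_lit 0) (nat_lit 96881482)) (xR T1.l9 T1.l9)
  (TrL.c (I.pos (nat_lit 0) (nat_lit 0)) (xk T1.l10 (xb T1.l13 T1.l10))
  (TrL.c (I.pos (nat_lit 0) (nat_lit 0)) T3.l10
  (TrL.c (I.mix (nat_lit 17240550) (nat_lit 96881482)) (xR T1.l11 T1.l11)
  (TrL.c (I.mix (nat_lit 17240550) (nat_lit 71940500)) T3.l2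
  TrL.n)))))))) (by decide +kernel)
theorem bx5_4 : BoxOK sI cl9 cl6 cl4 t3 t1 b5_4 :=
  box_mk (TrL.c (I.pos (nat_lit 0) (nat_lit 0)) (xa (xa (xb T3.l12 (xa T3.l12 T3.l12)) (xb T3.l12 T3.l12)) (xa T3.l12 T3.l12))
  (TrL.c (I.pos (nat_lit 0) (nat_lit 0)) (xa T1.l8 T1.l8)
  (TrL.c (I.pos (nat_lit 0) (nat_lit 124588530)) T3.l9
  (TrL.c (I.pos (nat_lit 0) (nat_lit 96881482)) T1.l9
  (TrL.c (I.pos (nat_lit 0) (nat_lit 0)) (xa T1.l8 T1.l12)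
  (TrL.c (I.pos (nat_lit 0) (nat_lit 0)) T3.l10
  (TrL.c (I.mix (nat_lit 17240550) (nat_lit 96881482)) T1.l11
  (TrL.c (I.mix (nat_lit 17240550) (nat_lit 71940500)) T3.l11
  TrL.n)))))))) (by decide +kernel)
theorem bx5_5 : BoxOK sI cl9 cl6 cl4 t3 t1 b5_5 :=
  box_mk (TrL.c (I.pos (nat_lit 0) (nat_lit 0)) T3.l12
  (TrL.c (I.pos (nat_lit 0) (nat_lit 0)) T1.l8
  (TrL.c (I.pos (nat_lit 0) (nat_lit 124588530)) T3.l9
  (TrL.c (I.pos (nat_lit 0) (nat_lit 96881482)) T1.l9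
  (TrL.c (I.pos (nat_lit 0) (nat_lit 0)) T1.l12
  (TrL.c (I.pos (nat_lit 0) (nat_lit 0)) T3.l10
  (TrL.c (I.mix (nat_lit 17240550) (nat_lit 96881482)) T1.l11
  (TrL.c (I.mix (nat_lit 17240550) (nat_lit 71940500)) T3.l11
  TrL.n)))))))) (by decide +kernel)
theorem bx5_6 : BoxOK sI cl9 cl6 cl4 t3 t1 b5_6 :=
  box_mk (TrL.c (I.pos (nat_lit 0) (nat_lit 0)) (xa (xa (xb T3.l12 T3.l12) T3.l12) T3.l12)
  (TrL.c (I.pos (nat_lit 0) (nat_lit 0)) (xa T1.l8 T1.l8)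
  (TrL.c (I.pos (nat_lit 0) (nat_lit 124588530)) T3.l9
  (TrL.c (I.pos (nat_lit 0) (nat_lit 96881482)) T1.l11
  (TrL.c (I.pos (nat_lit 0) (nat_lit 0)) T1.l8
  (TrL.c (I.pos (nat_lit 0) (nat_lit 0)) T3.l10
  (TrL.c (I.mix (nat_lit 17240550) (nat_lit 96881482)) T1.l11
  (TrL.c (I.mix (nat_lit 17240550) (nat_lit 71940500)) T3.l11
  TrL.n)))))))) (by decide +kernel)
theorem bx5_7 : BoxOK sI cl9 cl6 cl4 t3 t1 b5_7 :=
  box_mk (TrL.c (I.pos (nat_lit 0) (nat_lit 0)) T3.l13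
  (TrL.c (I.pos (nat_lit 0) (nat_lit 0)) T1.l8
  (TrL.c (I.pos (nat_lit 0) (nat_lit 124588530)) T3.l9
  (TrL.c (I.pos (nat_lit 0) (nat_lit 96881482)) T1.l9
  (TrL.c (I.pos (nat_lit 0) (nat_lit 0)) T1.l13
  (TrL.c (I.pos (nat_lit 0) (nat_lit 0)) T3.l10
  (TrL.c (I.mix (nat_lit 17240550) (nat_lit 96881482)) (xR T1.l11 T1.l11)
  (TrL.c (I.mix (nat_lit 17240550) (nat_lit 71940500)) T3.l11
  TrL.n)))))))) (by decide +kernel)
theorem bx5_8 : BoxOK sI cl9 cl6 cl4 t3 t1 b5_8 :=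
  box_mk (TrL.c (I.pos (nat_lit 0) (nat_lit 0)) (xb (xa (xb (xs T3.l13 (xa T3.l13 T3.l13)) T3.l13) (xb (xs T3.l13 (xa T3.l13 T3.l13)) T3.l13)) (xa (xb T3.l13 T3.l13) (xb T3.l13 T3.l13)))
  (TrL.c (I.pos (nat_lit 0) (nat_lit 0)) T1.l8
  (TrL.c (I.pos (nat_lit 0) (nat_lit 124588530)) (xR T3.l9 T3.l4)
  (TrL.c (I.pos (nat_lit 0) (nat_lit 96881482)) (xR T1.l9 T1.l9)
  (TrL.c (I.pos (nat_lit 0) (nat_lit 0)) (xk (xb T1.l13 T1.l13) (xb T1.l13 T1.l13))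
  (TrL.c (I.pos (nat_lit 0) (nat_lit 0)) T3.l10
  (TrL.c (I.mix (nat_lit 17240550) (nat_lit 96881482)) (xR T1.l11 T1.l11)
  (TrL.c (I.mix (nat_lit 17240550) (nat_lit 71940500)) T3.l2
  TrL.n)))))))) (by decide +kernel)
theorem bx5_9 : BoxOK sI cl9 cl6 cl4 t3 t1 b5_9 :=
  box_mk (TrL.c (I.pos (nat_lit 0) (nat_lit 0)) (xa (xa (xb T3.l12 (xa T3.l12 T3.l12)) (xb T3.l12 T3.l12)) (xa (xb T3.l12 (xa T3.l12 T3.l12)) (xb T3.l12 (xa T3.l12 T3.l12))))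
  (TrL.c (I.pos (nat_lit 0) (nat_lit 0)) (xa T1.l8 T1.l8)
  (TrL.c (I.pos (nat_lit 0) (nat_lit 124588530)) T3.l9
  (TrL.c (I.pos (nat_lit 0) (nat_lit 96881482)) T1.l9
  (TrL.c (I.pos (nat_lit 0) (nat_lit 0)) (xa T1.l8 T1.l12)
  (TrL.c (I.pos (nat_lit 0) (nat_lit 0)) T3.l10
  (TrL.c (I.mix (nat_lit 17240550) (nat_lit 96881482)) T1.l11
  (TrL.c (I.mix (nat_lit 17240550) (nat_lit 71940500)) T3.l11
  TrL.n)))))))) (by decide +kernel)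
theorem bx5_10 : BoxOK sI cl9 cl6 cl4 t3 t1 b5_10 :=
  box_mk (TrL.c (I.pos (nat_lit 0) (nat_lit 0)) (xb (xa T3.l12 T3.l12) T3.l12)
  (TrL.c (I.pos (nat_lit 0) (nat_lit 0)) T1.l8
  (TrL.c (I.pos (nat_lit 0) (nat_lit 124588530)) T3.l9
  (TrL.c (I.pos (nat_lit 0) (nat_lit 96881482)) T1.l9
  (TrL.c (I.pos (nat_lit 0) (nat_lit 0)) (xb (xa T1.l12 T1.l12) T1.l12)
  (TrL.c (I.pos (nat_lit 0) (nat_lit 0)) T3.l10
  (TrL.c (I.mix (nat_lit 17240550) (nat_lit 96881482)) T1.l11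
  (TrL.c (I.mix (nat_lit 17240550) (nat_lit 71940500)) T3.l11
  TrL.n)))))))) (by decide +kernel)
theorem bx5_11 : BoxOK sI cl9 cl6 cl4 t3 t1 b5_11 :=
  box_mk (TrL.c (I.pos (nat_lit 0) (nat_lit 0)) (xa (xb (xa T3.l12 T3.l12) T3.l12) T3.l12)
  (TrL.c (I.pos (nat_lit 0) (nat_lit 0)) (xa T1.l12 T1.l8)
  (TrL.c (I.pos (nat_lit 0) (nat_lit 124588530)) T3.l9
  (TrL.c (I.pos (nat_lit 0) (nat_lit 96881482)) T1.l11
  (TrL.c (I.pos (nat_lit 0) (nat_lit 0)) T1.l8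
  (TrL.c (I.pos (nat_lit 0) (nat_lit 0)) T3.l9
  (TrL.c (I.mix (nat_lit 17240550) (nat_lit 96881482)) T1.l9
  (TrL.c (I.mix (nat_lit 17240550) (nat_lit 71940500)) T3.l4
  TrL.n)))))))) (by decide +kernel)
theorem bx5_12 : BoxOK sI cl9 cl6 cl4 t3 t1 b5_12 :=
  box_mk (TrL.c (I.pos (nat_lit 0) (nat_lit 0)) (xa (xb (xa T3.l0 T3.l0) (xa (xb T3.l0 T3.l0) (xb T3.l0 T3.l0))) (xa (xb T3.l0 (xb T3.l0 T3.l0)) (xb T3.l0 (xa T3.l0 T3.l0))))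
  (TrL.c (I.pos (nat_lit 0) (nat_lit 0)) (xa (xb T1.l8 (xk T1.l8 T1.l8)) (xk (xb T1.l8 T1.l8) T1.l8))
  (TrL.c (I.pos (nat_lit 0) (nat_lit 124588530)) (xR T3.l9 T3.l4)
  (TrL.c (I.pos (nat_lit 0) (nat_lit 96881482)) (xR T1.l9 T1.l9)
  (TrL.c (I.pos (nat_lit 0) (nat_lit 0)) (xa (xb (xk T1.l10 T1.l10) (xk T1.l10 T1.l10)) (xb (xk (xa T1.l10 T1.l10) (xa T1.l10 T1.l10)) (xk (xa T1.l10 T1.l10) (xa T1.l10 T1.l10))))
  (TrL.c (I.pos (nat_lit 0) (nat_lit 0)) (xk (xa T3.l10 T3.l10) (xa T3.l10 T3.l10))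
  (TrL.c (I.mix (nat_lit 17240550) (nat_lit 96881482)) (xR T1.l11 (xR T1.l11 T1.l11))
  (TrL.c (I.mix (nat_lit 17240550) (nat_lit 71940500)) (xR T3.l11 T3.l11)
  TrL.n)))))))) (by decide +kernel)
theorem bx5_13 : BoxOK sI cl9 cl6 cl4 t3 t1 b5_13 :=
  box_mk (TrL.c (I.pos (nat_lit 0) (nat_lit 0)) (xa (xb (xb (xa T3.l13 T3.l13) (xs T3.l13 (xa T3.l13 T3.l13))) (xa (xs T3.l13 T3.l0) (xs T3.l13 (xb T3.l13 T3.l0)))) (xb (xa (xb T3.l13 T3.l13) (xs T3.l0 (xb T3.l0 T3.l0))) (xa (xs T3.l13 (xb T3.l13 T3.l0)) (xs T3.l0 (xb T3.l0 T3.l0)))))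
  (TrL.c (I.pos (nat_lit 0) (nat_lit 0)) (xk T1.l8 T1.l8)
  (TrL.c (I.pos (nat_lit 0) (nat_lit 124588530)) (xR T3.l9 T3.l9)
  (TrL.c (I.pos (nat_lit 0) (nat_lit 96881482)) (xR T1.l9 T1.l9)
  (TrL.c (I.pos (nat_lit 0) (nat_lit 0)) (xk (xa T1.l10 (xb T1.l10 T1.l10)) (xb T1.l10 (xa T1.l13 (xb T1.l10 T1.l10))))
  (TrL.c (I.pos (nat_lit 0) (nat_lit 0)) T3.l10
  (TrL.c (I.mix (nat_lit 17240550) (nat_lit 96881482)) (xR T1.l11 T1.l11)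
  (TrL.c (I.mix (nat_lit 17240550) (nat_lit 71940500)) T3.l11
  TrL.n)))))))) (by decide +kernel)
theorem sv5 : StarV sI cl9 cl6 cl4 t3 t1 t5 :=
  (bt_n (bt_n (bt_n (bt_b bx5_0) (bt_n (bt_b bx5_1) (bt_b bx5_2))) (bt_n (bt_n (bt_b bx5_3) (bt_b bx5_4)) (bt_n (bt_b bx5_5) (bt_b bx5_6)))) (bt_n (bt_n (bt_b bx5_7) (bt_n (bt_b bx5_8) (bt_b bx5_9))) (bt_n (bt_n (bt_b bx5_10) (bt_b bx5_11)) (bt_n (bt_b bx5_12) (bt_b bx5_13)))))
def S5 : StarD := StarD.mk cl9 cl6 cl4 3 1 t5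
def G : List StarD := [S0, S1, S2, S3, S4, S5]
theorem so0 : StarOK sI G S0 :=
  star_mk (by decide) (by decide) rfl rfl rfl rfl rfl rfl (rfl : _ = t2) (rfl : _ = t4)
  (st_mk (Pth.l (Pth.l (Pth.l Pth.z))) (nat_lit 194370745) (nat_lit 196036324) (by decide +kernel))
  (st_mk (Pth.l (Pth.l (Pth.l Pth.z))) (nat_lit 232863717) (nat_lit 235304319) (by decide +kernel))
  (st_mk (Pth.l (Pth.l (Pth.l Pth.z))) (nat_lit 278195284) (nat_lit 281770485) (by decide +kernel)) sv0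
theorem so1 : StarOK sI G S1 :=
  star_mk (by decide) (by decide) rfl rfl rfl rfl rfl rfl (rfl : _ = t4) (rfl : _ = t2)
  (st_mk (Pth.l (Pth.l (Pth.l Pth.z))) (nat_lit 119154093) (nat_lit 138997465) (by decide +kernel))
  (st_mk (Pth.l (Pth.l (Pth.l Pth.z))) (nat_lit 155142553) (nat_lit 179583971) (by decide +kernel))
  (st_mk (Pth.l (Pth.l (Pth.l Pth.z))) (nat_lit 199972011) (nat_lit 225597491) (by decide +kernel)) sv1
theorem so2 : StarOK sI G S2 :=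
  star_mk (by decide) (by decide) rfl rfl rfl rfl rfl rfl (rfl : _ = t0) (rfl : _ = t5)
  (st_mk (Pth.l (Pth.l (Pth.l Pth.z))) (nat_lit 375333437) (nat_lit 377325687) (by decide +kernel))
  (st_mk (Pth.l (Pth.l (Pth.l Pth.z))) (nat_lit 412355735) (nat_lit 414774128) (by decide +kernel))
  (st_mk (Pth.l (Pth.l (Pth.l Pth.z))) (nat_lit 455339715) (nat_lit 458309352) (by decide +kernel)) sv2
theorem so3 : StarOK sI G S3 :=
  star_mk (by decide) (by decide) rfl rfl rfl rfl rfl rfl (rfl : _ = t5) (rfl : _ = t0)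
  (st_mk (Pth.l (Pth.l (Pth.l Pth.z))) (nat_lit 117065566) (nat_lit 135918576) (by decide +kernel))
  (st_mk (Pth.l (Pth.l (Pth.l Pth.z))) (nat_lit 153366491) (nat_lit 172596008) (by decide +kernel))
  (st_mk (Pth.l (Pth.l (Pth.l Pth.z))) (nat_lit 195745412) (nat_lit 215483519) (by decide +kernel)) sv3
theorem so4 : StarOK sI G S4 :=
  star_mk (by decide) (by decide) rfl rfl rfl rfl rfl rfl (rfl : _ = t1) (rfl : _ = t3)
  (st_mk (Pth.l (Pth.l (Pth.l Pth.z))) (nat_lit 367003237) (nat_lit 371574815) (by decide +kernel))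
  (st_mk (Pth.l (Pth.l (Pth.l Pth.z))) (nat_lit 402453723) (nat_lit 407632903) (by decide +kernel))
  (st_mk (Pth.l (Pth.l (Pth.l Pth.z))) (nat_lit 443422576) (nat_lit 449377406) (by decide +kernel)) sv4
theorem so5 : StarOK sI G S5 :=
  star_mk (by decide) (by decide) rfl rfl rfl rfl rfl rfl (rfl : _ = t3) (rfl : _ = t1)
  (st_mk (Pth.l (Pth.l (Pth.l Pth.z))) (nat_lit 186915442) (nat_lit 188616194) (by decide +kernel))
  (st_mk (Pth.l (Pth.l (Pth.l Pth.z))) (nat_lit 222255218) (nat_lit 224442753) (by decide +kernel))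
  (st_mk (Pth.l (Pth.l (Pth.l Pth.z))) (nat_lit 263128439) (nat_lit 265988747) (by decide +kernel)) sv5
theorem ok : GroupOK (nat_lit 150274048) (nat_lit 209387520) G := grp_mk (allS_c so0 (allS_c so1 (allS_c so2 (allS_c so3 (allS_c so4 (allS_c so5 allS_n))))))
theorem cov : GCov G cl4 cl6 cl9 := cov_mk
  ⟨0, by decide, rfl, rfl, rfl⟩ ⟨1, by decide, rfl, rfl, rfl⟩ ⟨2, by decide, rfl, rfl, rfl⟩ ⟨3, by decide, rfl, rfl, rfl⟩ ⟨4, by decide, rfl, rfl, rfl⟩ ⟨5, by decide, rfl, rfl, rfl⟩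
end Q135_2


end Pool.Agent.Helper6.MONO
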