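import Pool.Agent.Helper6.MONO.Cert.C22

/-!
Certificate data (generated).
-/

set_option autoImplicit false
set_option linter.all false
noncomputable section
namespace Pool.Agent.Helper6.MONO


namespace Q135_3
def sI : I := I.pos (nat_lit 209321984) (nat_lit 268435456)
def b0_0 : Bx := Bx.mk (St.mk (I.pos (nat_lit 160514048) (nat_lit 229588992)) (I.mix (nat_lit 278528) (nat_lit 65945600)) (I.mix (nat_lit 11714560) (nat_lit 59801600)) (I.pos (nat_lit 194838528) (nat_lit 315375616)) (I.mix (nat_lit 123994112) (nat_lit 96043008)) (I.mix (nat_lit 74219520) (nat_lit 78364672)) (I.mix (nat_lit 132169728) (nat_lit 124272640)))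
  false (nat_lit 41574441)
def b0_1 : Bx := Bx.mk (St.mk (I.mix (nat_lit 21970944) (nat_lit 92012544)) (I.mix (nat_lit 7127040) (nat_lit 35504128)) (I.neg (nat_lit 2310144) (nat_lit 30883840)) (I.pos (nat_lit 84787200) (nat_lit 121733120)) (I.mix (nat_lit 47742976) (nat_lit 64897024)) (I.mix (nat_lit 48889856) (nat_lit 37650432)) (I.mix (nat_lit 32440320) (nat_lit 21954560)))
  false (nat_lit 0)
def b0_2 : Bx := Bx.mk (St.mk (I.pos (nat_lit 73138176) (nat_lit 113016832)) (I.mix (nat_lit 53100544) (nat_lit 9666560)) (I.neg (nat_lit 19333120) (nat_lit 67207168)) (I.pos (nat_lit 105431040) (nat_lit 136462336)) (I.mix (nat_lit 108347392) (nat_lit 50921472)) (I.mix (nat_lit 48021504) (nat_lit 88424448)) (I.mix (nat_lit 30310400) (nat_lit 63389696)))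
  false (nat_lit 0)
def b0_3 : Bx := Bx.mk (St.mk (I.mix (nat_lit 44875776) (nat_lit 21872640)) (I.mix (nat_lit 31981568) (nat_lit 5865472)) (I.neg (nat_lit 9322496) (nat_lit 23953408)) (I.pos (nat_lit 84836352) (nat_lit 98811904)) (I.mix (nat_lit 56344576) (nat_lit 35209216)) (I.mix (nat_lit 27885568) (nat_lit 40910848)) (I.mix (nat_lit 15548416) (nat_lit 10682368)))
  false (nat_lit 0)
def b0_4 : Bx := Bx.mk (St.mk (I.pos (nat_lit 65060864) (nat_lit 91521024)) (I.mix (nat_lit 11010048) (nat_lit 15548416)) (I.neg (nat_lit 14008320) (nat_lit 34209792)) (I.pos (nat_lit 103137280) (nat_lit 121110528)) (I.mix (nat_lit 49315840) (nat_lit 37044224)) (I.mix (nat_lit 34373632) (nat_lit 31309824)) (I.mix (nat_lit 20185088) (nat_lit 23576576)))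
  false (nat_lit 0)
def b0_5 : Bx := Bx.mk (St.mk (I.mix (nat_lit 56836096) (nat_lit 3424256)) (I.mix (nat_lit 8290304) (nat_lit 12517376)) (I.neg (nat_lit 16171008) (nat_lit 27033600)) (I.pos (nat_lit 86360064) (nat_lit 101023744)) (I.mix (nat_lit 32243712) (nat_lit 29163520)) (I.mix (nat_lit 25788416) (nat_lit 23412736)) (I.mix (nat_lit 9469952) (nat_lit 12664832)))
  false (nat_lit 0)
def b0_6 : Bx := Bx.mk (St.mk (I.pos (nat_lit 206356480) (nat_lit 257671168)) (I.mix (nat_lit 17088512) (nat_lit 19021824)) (I.neg (nat_lit 35323904) (nat_lit 106840064)) (I.pos (nat_lit 265928704) (nat_lit 354091008)) (I.mix (nat_lit 130318336) (nat_lit 53641216)) (I.mix (nat_lit 78954496) (nat_lit 77709312)) (I.mix (nat_lit 119373824) (nat_lit 149159936)))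
  false (nat_lit 9591486)
def b0_7 : Bx := Bx.mk (St.mk (I.pos (nat_lit 185057280) (nat_lit 248610816)) (I.mix (nat_lit 15220736) (nat_lit 63553536)) (I.mix (nat_lit 93519872) (nat_lit 51511296)) (I.pos (nat_lit 251543552) (nat_lit 337510400)) (I.mix (nat_lit 133267456) (nat_lit 124813312)) (I.mix (nat_lit 111312896) (nat_lit 105037824)) (I.mix (nat_lit 194314240) (nat_lit 161054720)))
  false (nat_lit 56122182)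
def b0_8 : Bx := Bx.mk (St.mk (I.pos (nat_lit 84279296) (nat_lit 157204480)) (I.neg (nat_lit 6471680) (nat_lit 49577984)) (I.neg (nat_lit 22544384) (nat_lit 63340544)) (I.pos (nat_lit 118718464) (nat_lit 184500224)) (I.mix (nat_lit 95551488) (nat_lit 52690944)) (I.mix (nat_lit 39567360) (nat_lit 71991296)) (I.mix (nat_lit 26640384) (nat_lit 63324160)))
  false (nat_lit 0)
def b0_9 : Bx := Bx.mk (St.mk (I.mix (nat_lit 28196864) (nat_lit 45826048)) (I.mix (nat_lit 31211520) (nat_lit 3948544)) (I.neg (nat_lit 10862592) (nat_lit 25935872)) (I.pos (nat_lit 82690048) (nat_lit 98058240)) (I.mix (nat_lit 51281920) (nat_lit 37552128)) (I.mix (nat_lit 25575424) (nat_lit 41336832)) (I.mix (nat_lit 12402688) (nat_lit 16482304)))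
  false (nat_lit 0)
def b0_10 : Bx := Bx.mk (St.mk (I.pos (nat_lit 161054720) (nat_lit 214827008)) (I.mix (nat_lit 1294336) (nat_lit 60964864)) (I.mix (nat_lit 13352960) (nat_lit 56262656)) (I.pos (nat_lit 204980224) (nat_lit 278724608)) (I.mix (nat_lit 134561792) (nat_lit 63930368)) (I.mix (nat_lit 112476160) (nat_lit 84459520)) (I.mix (nat_lit 98844672) (nat_lit 78888960)))
  false (nat_lit 42626451)
def b0_11 : Bx := Bx.mk (St.mk (I.mix (nat_lit 45826048) (nat_lit 69287936)) (I.mix (nat_lit 9027584) (nat_lit 31227904)) (I.neg (nat_lit 4620288) (nat_lit 25935872)) (I.pos (nat_lit 82690048) (nat_lit 109084672)) (I.mix (nat_lit 43565056) (nat_lit 51281920)) (I.mix (nat_lit 43433984) (nat_lit 25575424)) (I.mix (nat_lit 16121856) (nat_lit 16482304)))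
  false (nat_lit 0)
def b0_12 : Bx := Bx.mk (St.mk (I.pos (nat_lit 131514368) (nat_lit 201834496)) (I.mix (nat_lit 34930688) (nat_lit 14581760)) (I.neg (nat_lit 2785280) (nat_lit 56967168)) (I.pos (nat_lit 159006720) (nat_lit 242876416)) (I.mix (nat_lit 76365824) (nat_lit 80871424)) (I.mix (nat_lit 75218944) (nat_lit 71401472)) (I.mix (nat_lit 72450048) (nat_lit 60489728)))
  false (nat_lit 0)
def b0_13 : Bx := Bx.mk (St.mk (I.pos (nat_lit 157892608) (nat_lit 203112448)) (I.mix (nat_lit 13058048) (nat_lit 30638080)) (I.mix (nat_lit 31457280) (nat_lit 21577728)) (I.pos (nat_lit 202817536) (nat_lit 248676352)) (I.mix (nat_lit 118865920) (nat_lit 105185280)) (I.mix (nat_lit 130433024) (nat_lit 94552064)) (I.mix (nat_lit 132186112) (nat_lit 83361792)))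
  false (nat_lit 6240898)
def t0 : BTr := (BTr.n (BTr.n (BTr.n (BTr.b b0_0) (BTr.n (BTr.b b0_1) (BTr.b b0_2))) (BTr.n (BTr.n (BTr.b b0_3) (BTr.b b0_4)) (BTr.n (BTr.b b0_5) (BTr.b b0_6)))) (BTr.n (BTr.n (BTr.b b0_7) (BTr.n (BTr.b b0_8) (BTr.b b0_9))) (BTr.n (BTr.n (BTr.b b0_10) (BTr.b b0_11)) (BTr.n (BTr.b b0_12) (BTr.b b0_13)))))
namespace T0
def l0 : Tr := Tr.L (Pth.l (Pth.l (Pth.l Pth.z)))
def l1 : Tr := Tr.L (Pth.l (Pth.l (Pth.r (Pth.l Pth.z))))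
def l2 : Tr := Tr.L (Pth.l (Pth.l (Pth.r (Pth.r Pth.z))))
def l3 : Tr := Tr.L (Pth.l (Pth.r (Pth.l (Pth.l Pth.z))))
def l4 : Tr := Tr.L (Pth.l (Pth.r (Pth.l (Pth.r Pth.z))))
def l5 : Tr := Tr.L (Pth.l (Pth.r (Pth.r (Pth.l Pth.z))))
def l6 : Tr := Tr.L (Pth.l (Pth.r (Pth.r (Pth.r Pth.z))))
def l7 : Tr := Tr.L (Pth.r (Pth.l (Pth.l Pth.z)))
def l8 : Tr := Tr.L (Pth.r (Pth.l (Pth.r (Pth.l Pth.z))))
def l9 : Tr := Tr.L (Pth.r (Pth.l (Pth.r (Pth.r Pth.z))))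
def l10 : Tr := Tr.L (Pth.r (Pth.r (Pth.l (Pth.l Pth.z))))
def l11 : Tr := Tr.L (Pth.r (Pth.r (Pth.l (Pth.r Pth.z))))
def l12 : Tr := Tr.L (Pth.r (Pth.r (Pth.r (Pth.l Pth.z))))
def l13 : Tr := Tr.L (Pth.r (Pth.r (Pth.r (Pth.r Pth.z))))
end T0
def b1_0 : Bx := Bx.mk (St.mk (I.pos (nat_lit 160514048) (nat_lit 233144320)) (I.mix (nat_lit 278528) (nat_lit 52953088)) (I.mix (nat_lit 278528) (nat_lit 68534272)) (I.pos (nat_lit 119750656) (nat_lit 254115840)) (I.mix (nat_lit 115621888) (nat_lit 86081536)) (I.mix (nat_lit 77496320) (nat_lit 75333632)) (I.mix (nat_lit 125009920) (nat_lit 112836608)))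
  false (nat_lit 21256652)
def b1_1 : Bx := Bx.mk (St.mk (I.mix (nat_lit 7241728) (nat_lit 124502016)) (I.mix (nat_lit 5914624) (nat_lit 24363008)) (I.mix (nat_lit 17776640) (nat_lit 9682944)) (I.pos (nat_lit 17858560) (nat_lit 95256576)) (I.mix (nat_lit 42647552) (nat_lit 48447488)) (I.mix (nat_lit 37535744) (nat_lit 31817728)) (I.mix (nat_lit 31244288) (nat_lit 22495232)))
  false (nat_lit 0)
def b1_2 : Bx := Bx.mk (St.mk (I.pos (nat_lit 100876288) (nat_lit 143081472)) (I.mix (nat_lit 43286528) (nat_lit 9420800)) (I.neg (nat_lit 4210688) (nat_lit 55263232)) (I.pos (nat_lit 60588032) (nat_lit 113180672)) (I.mix (nat_lit 95633408) (nat_lit 52035584)) (I.mix (nat_lit 47595520) (nat_lit 83116032)) (I.mix (nat_lit 35471360) (nat_lit 68714496)))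
  false (nat_lit 24298299)
def b1_3 : Bx := Bx.mk (St.mk (I.mix (nat_lit 17809408) (nat_lit 85884928)) (I.mix (nat_lit 25001984) (nat_lit 3063808)) (I.neg (nat_lit 1081344) (nat_lit 21856256)) (I.pos (nat_lit 17989632) (nat_lit 63963136)) (I.mix (nat_lit 45924352) (nat_lit 24985600)) (I.mix (nat_lit 22167552) (nat_lit 37158912)) (I.mix (nat_lit 11370496) (nat_lit 18972672)))
  false (nat_lit 0)
def b1_4 : Bx := Bx.mk (St.mk (I.pos (nat_lit 188334080) (nat_lit 247087104)) (I.mix (nat_lit 13074432) (nat_lit 52772864)) (I.mix (nat_lit 55590912) (nat_lit 67207168)) (I.pos (nat_lit 187613184) (nat_lit 272744448)) (I.mix (nat_lit 125157376) (nat_lit 107429888)) (I.mix (nat_lit 106233856) (nat_lit 97009664)) (I.mix (nat_lit 179240960) (nat_lit 158957568)))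
  false (nat_lit 55281298)
def b1_5 : Bx := Bx.mk (St.mk (I.pos (nat_lit 92504064) (nat_lit 124600320)) (I.mix (nat_lit 9076736) (nat_lit 13402112)) (I.neg (nat_lit 704512) (nat_lit 20529152)) (I.pos (nat_lit 56688640) (nat_lit 95305728)) (I.mix (nat_lit 45563904) (nat_lit 29327360)) (I.mix (nat_lit 29704192) (nat_lit 27361280)) (I.mix (nat_lit 22167552) (nat_lit 24018944)))
  false (nat_lit 0)
def b1_6 : Bx := Bx.mk (St.mk (I.mix (nat_lit 24674304) (nat_lit 70352896)) (I.mix (nat_lit 3506176) (nat_lit 5439488)) (I.neg (nat_lit 1622016) (nat_lit 8175616)) (I.pos (nat_lit 18399232) (nat_lit 54624256)) (I.mix (nat_lit 14483456) (nat_lit 10829824)) (I.mix (nat_lit 10158080) (nat_lit 8945664)) (I.mix (nat_lit 1638400) (nat_lit 1933312)))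
  false (nat_lit 0)
def b1_7 : Bx := Bx.mk (St.mk (I.pos (nat_lit 207650816) (nat_lit 254246912)) (I.mix (nat_lit 15237120) (nat_lit 16728064)) (I.neg (nat_lit 4177920) (nat_lit 65634304)) (I.pos (nat_lit 209387520) (nat_lit 294240256)) (I.mix (nat_lit 116899840) (nat_lit 36667392)) (I.mix (nat_lit 59162624) (nat_lit 63258624)) (I.mix (nat_lit 95436800) (nat_lit 120193024)))
  false (nat_lit 0)
def b1_8 : Bx := Bx.mk (St.mk (I.pos (nat_lit 111738880) (nat_lit 179765248)) (I.neg (nat_lit 2015232) (nat_lit 44204032)) (I.neg (nat_lit 9027584) (nat_lit 52084736)) (I.pos (nat_lit 77971456) (nat_lit 161693696)) (I.mix (nat_lit 80412672) (nat_lit 45629440)) (I.mix (nat_lit 39239680) (nat_lit 59949056)) (I.mix (nat_lit 34373632) (nat_lit 62717952)))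
  false (nat_lit 14743940)
def b1_9 : Bx := Bx.mk (St.mk (I.mix (nat_lit 13402112) (nat_lit 101597184)) (I.mix (nat_lit 23920640) (nat_lit 2621440)) (I.neg (nat_lit 1261568) (nat_lit 21397504)) (I.pos (nat_lit 17694720) (nat_lit 75464704)) (I.mix (nat_lit 42156032) (nat_lit 30703616)) (I.mix (nat_lit 20037632) (nat_lit 33931264)) (I.mix (nat_lit 11665408) (nat_lit 21364736)))
  false (nat_lit 0)
def b1_10 : Bx := Bx.mk (St.mk (I.pos (nat_lit 166199296) (nat_lit 213925888)) (I.mix (nat_lit 9076736) (nat_lit 48218112)) (I.mix (nat_lit 6242304) (nat_lit 64552960)) (I.pos (nat_lit 136364032) (nat_lit 219824128)) (I.mix (nat_lit 141836288) (nat_lit 66633728)) (I.mix (nat_lit 121651200) (nat_lit 79134720)) (I.mix (nat_lit 130842624) (nat_lit 85983232)))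
  false (nat_lit 1595753)
def b1_11 : Bx := Bx.mk (St.mk (I.mix (nat_lit 20545536) (nat_lit 122404864)) (I.mix (nat_lit 12353536) (nat_lit 27574272)) (I.mix (nat_lit 15482880) (nat_lit 13565952)) (I.pos (nat_lit 17907712) (nat_lit 91668480)) (I.mix (nat_lit 50298880) (nat_lit 42205184)) (I.mix (nat_lit 46350336) (nat_lit 31571968)) (I.mix (nat_lit 29130752) (nat_lit 19038208)))
  false (nat_lit 15591665)
def b1_12 : Bx := Bx.mk (St.mk (I.pos (nat_lit 143343616) (nat_lit 206143488)) (I.mix (nat_lit 34127872) (nat_lit 8306688)) (I.mix (nat_lit 47448064) (nat_lit 7520256)) (I.pos (nat_lit 106283008) (nat_lit 197509120)) (I.mix (nat_lit 73875456) (nat_lit 73564160)) (I.mix (nat_lit 69861376) (nat_lit 66666496)) (I.mix (nat_lit 77119488) (nat_lit 68993024)))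
  false (nat_lit 48639420)
def b1_13 : Bx := Bx.mk (St.mk (I.pos (nat_lit 164528128) (nat_lit 206962688)) (I.mix (nat_lit 20709376) (nat_lit 22331392)) (I.mix (nat_lit 24231936) (nat_lit 28508160)) (I.pos (nat_lit 134184960) (nat_lit 198901760)) (I.mix (nat_lit 112214016) (nat_lit 91897856)) (I.mix (nat_lit 125648896) (nat_lit 86376448)) (I.mix (nat_lit 140673024) (nat_lit 92078080)))
  false (nat_lit 0)
def t1 : BTr := (BTr.n (BTr.n (BTr.n (BTr.b b1_0) (BTr.n (BTr.b b1_1) (BTr.b b1_2))) (BTr.n (BTr.n (BTr.b b1_3) (BTr.b b1_4)) (BTr.n (BTr.b b1_5) (BTr.b b1_6)))) (BTr.n (BTr.n (BTr.b b1_7) (BTr.n (BTr.b b1_8) (BTr.b b1_9))) (BTr.n (BTr.n (BTr.b b1_10) (BTr.b b1_11)) (BTr.n (BTr.b b1_12) (BTr.b b1_13)))))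
namespace T1
def l0 : Tr := Tr.L (Pth.l (Pth.l (Pth.l Pth.z)))
def l1 : Tr := Tr.L (Pth.l (Pth.l (Pth.r (Pth.l Pth.z))))
def l2 : Tr := Tr.L (Pth.l (Pth.l (Pth.r (Pth.r Pth.z))))
def l3 : Tr := Tr.L (Pth.l (Pth.r (Pth.l (Pth.l Pth.z))))
def l4 : Tr := Tr.L (Pth.l (Pth.r (Pth.l (Pth.r Pth.z))))
def l5 : Tr := Tr.L (Pth.l (Pth.r (Pth.r (Pth.l Pth.z))))
def l6 : Tr := Tr.L (Pth.l (Pth.r (Pth.r (Pth.r Pth.z))))
def l7 : Tr := Tr.L (Pth.r (Pth.l (Pth.l Pth.z)))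
def l8 : Tr := Tr.L (Pth.r (Pth.l (Pth.r (Pth.l Pth.z))))
def l9 : Tr := Tr.L (Pth.r (Pth.l (Pth.r (Pth.r Pth.z))))
def l10 : Tr := Tr.L (Pth.r (Pth.r (Pth.l (Pth.l Pth.z))))
def l11 : Tr := Tr.L (Pth.r (Pth.r (Pth.l (Pth.r Pth.z))))
def l12 : Tr := Tr.L (Pth.r (Pth.r (Pth.r (Pth.l Pth.z))))
def l13 : Tr := Tr.L (Pth.r (Pth.r (Pth.r (Pth.r Pth.z))))
end T1
def b2_0 : Bx := Bx.mk (St.mk (I.pos (nat_lit 139051008) (nat_lit 215302144)) (I.mix (nat_lit 278528) (nat_lit 92143616)) (I.mix (nat_lit 278528) (nat_lit 82624512)) (I.pos (nat_lit 376061952) (nat_lit 470106112)) (I.mix (nat_lit 192315392) (nat_lit 110903296)) (I.mix (nat_lit 108249088) (nat_lit 103858176)) (I.mix (nat_lit 132956160) (nat_lit 150994944)))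
  false (nat_lit 112073017)
def b2_1 : Bx := Bx.mk (St.mk (I.mix (nat_lit 53444608) (nat_lit 18989056)) (I.mix (nat_lit 15319040) (nat_lit 84459520)) (I.neg (nat_lit 51216384) (nat_lit 78446592)) (I.pos (nat_lit 259932160) (nat_lit 292470784)) (I.mix (nat_lit 75317248) (nat_lit 148586496)) (I.mix (nat_lit 99778560) (nat_lit 86933504)) (I.mix (nat_lit 60309504) (nat_lit 47267840)))
  true (nat_lit 0)
def b2_2 : Bx := Bx.mk (St.mk (I.pos (nat_lit 4063232) (nat_lit 53444608)) (I.neg (nat_lit 31621120) (nat_lit 84459520)) (I.neg (nat_lit 51642368) (nat_lit 78446592)) (I.pos (nat_lit 264257536) (nat_lit 292470784)) (I.mix (nat_lit 148586496) (nat_lit 75333632)) (I.mix (nat_lit 86933504) (nat_lit 99794944)) (I.mix (nat_lit 60309504) (nat_lit 47267840)))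
  false (nat_lit 100734496)
def b2_3 : Bx := Bx.mk (St.mk (I.pos (nat_lit 12238848) (nat_lit 121061376)) (I.neg (nat_lit 7340032) (nat_lit 85803008)) (I.neg (nat_lit 11599872) (nat_lit 87932928)) (I.pos (nat_lit 263651328) (nat_lit 331513856)) (I.mix (nat_lit 148930560) (nat_lit 84869120)) (I.mix (nat_lit 86622208) (nat_lit 93388800)) (I.mix (nat_lit 94765056) (nat_lit 81084416)))
  false (nat_lit 121516873)
def b2_4 : Bx := Bx.mk (St.mk (I.pos (nat_lit 91308032) (nat_lit 188956672)) (I.mix (nat_lit 37142528) (nat_lit 85327872)) (I.mix (nat_lit 42745856) (nat_lit 83329024)) (I.pos (nat_lit 302940160) (nat_lit 437420032)) (I.mix (nat_lit 197804032) (nat_lit 114442240)) (I.mix (nat_lit 153927680) (nat_lit 140754944)) (I.mix (nat_lit 167264256) (nat_lit 173916160)))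
  false (nat_lit 74639839)
def b2_5 : Bx := Bx.mk (St.mk (I.neg (nat_lit 12238848) (nat_lit 122060800)) (I.pos (nat_lit 7323648) (nat_lit 85819392)) (I.neg (nat_lit 11583488) (nat_lit 87359488)) (I.pos (nat_lit 263634944) (nat_lit 332480512)) (I.mix (nat_lit 84869120) (nat_lit 148930560)) (I.mix (nat_lit 93388800) (nat_lit 86638592)) (I.mix (nat_lit 94781440) (nat_lit 81084416)))
  true (nat_lit 12373193)
def b2_6 : Bx := Bx.mk (St.mk (I.pos (nat_lit 177242112) (nat_lit 289554432)) (I.mix (nat_lit 36438016) (nat_lit 55607296)) (I.mix (nat_lit 195477504) (nat_lit 4014080)) (I.pos (nat_lit 409337856) (nat_lit 584957952)) (I.mix (nat_lit 104693760) (nat_lit 102203392)) (I.mix (nat_lit 83378176) (nat_lit 75251712)) (I.mix (nat_lit 129925120) (nat_lit 145129472)))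
  false (nat_lit 52643395)
def b2_7 : Bx := Bx.mk (St.mk (I.mix (nat_lit 19021824) (nat_lit 41025536)) (I.mix (nat_lit 42221568) (nat_lit 18137088)) (I.neg (nat_lit 51216384) (nat_lit 64061440)) (I.pos (nat_lit 260161536) (nat_lit 276283392)) (I.mix (nat_lit 65978368) (nat_lit 47349760)) (I.mix (nat_lit 40222720) (nat_lit 45252608)) (I.mix (nat_lit 13008896) (nat_lit 18284544)))
  false (nat_lit 0)
def b2_8 : Bx := Bx.mk (St.mk (I.pos (nat_lit 157974528) (nat_lit 218202112)) (I.pos (nat_lit 21807104) (nat_lit 89210880)) (I.mix (nat_lit 32194560) (nat_lit 66420736)) (I.pos (nat_lit 396886016) (nat_lit 467189760)) (I.mix (nat_lit 144408576) (nat_lit 105332736)) (I.mix (nat_lit 100024320) (nat_lit 81018880)) (I.mix (nat_lit 148979712) (nat_lit 123207680)))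
  false (nat_lit 72366883)
def b2_9 : Bx := Bx.mk (St.mk (I.pos (nat_lit 7356416) (nat_lit 45301760)) (I.neg (nat_lit 20185088) (nat_lit 68403200)) (I.neg (nat_lit 53280768) (nat_lit 74514432)) (I.pos (nat_lit 263782400) (nat_lit 283607040)) (I.mix (nat_lit 98451456) (nat_lit 54427648)) (I.mix (nat_lit 52363264) (nat_lit 71581696)) (I.mix (nat_lit 26476544) (nat_lit 26624000)))
  false (nat_lit 10099046)
def t2 : BTr := (BTr.n (BTr.n (BTr.n (BTr.b b2_0) (BTr.b b2_1)) (BTr.n (BTr.b b2_2) (BTr.n (BTr.b b2_3) (BTr.b b2_4)))) (BTr.n (BTr.n (BTr.b b2_5) (BTr.b b2_6)) (BTr.n (BTr.b b2_7) (BTr.n (BTr.b b2_8) (BTr.b b2_9)))))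
namespace T2
def l0 : Tr := Tr.L (Pth.l (Pth.l (Pth.l Pth.z)))
def l1 : Tr := Tr.L (Pth.l (Pth.l (Pth.r Pth.z)))
def l2 : Tr := Tr.L (Pth.l (Pth.r (Pth.l Pth.z)))
def l3 : Tr := Tr.L (Pth.l (Pth.r (Pth.r (Pth.l Pth.z))))
def l4 : Tr := Tr.L (Pth.l (Pth.r (Pth.r (Pth.r Pth.z))))
def l5 : Tr := Tr.L (Pth.r (Pth.l (Pth.l Pth.z)))
def l6 : Tr := Tr.L (Pth.r (Pth.l (Pth.r Pth.z)))
def l7 : Tr := Tr.L (Pth.r (Pth.r (Pth.l Pth.z)))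
def l8 : Tr := Tr.L (Pth.r (Pth.r (Pth.r (Pth.l Pth.z))))
def l9 : Tr := Tr.L (Pth.r (Pth.r (Pth.r (Pth.r Pth.z))))
end T2
def b3_0 : Bx := Bx.mk (St.mk (I.pos (nat_lit 160514048) (nat_lit 223002624)) (I.mix (nat_lit 278528) (nat_lit 41943040)) (I.mix (nat_lit 278528) (nat_lit 95338496)) (I.pos (nat_lit 117342208) (nat_lit 216481792)) (I.mix (nat_lit 110821376) (nat_lit 58933248)) (I.mix (nat_lit 80314368) (nat_lit 60489728)) (I.mix (nat_lit 112394240) (nat_lit 76070912)))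
  false (nat_lit 0)
def b3_1 : Bx := Bx.mk (St.mk (I.pos (nat_lit 113147904) (nat_lit 176095232)) (I.neg (nat_lit 3424256) (nat_lit 52527104)) (I.mix (nat_lit 38354944) (nat_lit 15450112)) (I.pos (nat_lit 85639168) (nat_lit 151748608)) (I.mix (nat_lit 83853312) (nat_lit 71122944)) (I.mix (nat_lit 57442304) (nat_lit 64847872)) (I.mix (nat_lit 57344000) (nat_lit 67534848)))
  false (nat_lit 66222694)
def b3_2 : Bx := Bx.mk (St.mk (I.mix (nat_lit 7618560) (nat_lit 97435648)) (I.mix (nat_lit 26312704) (nat_lit 1589248)) (I.mix (nat_lit 10158080) (nat_lit 9535488)) (I.pos (nat_lit 17924096) (nat_lit 71352320)) (I.mix (nat_lit 32260096) (nat_lit 39911424)) (I.mix (nat_lit 26443776) (nat_lit 30457856)) (I.mix (nat_lit 14516224) (nat_lit 19070976)))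
  false (nat_lit 0)
def b3_3 : Bx := Bx.mk (St.mk (I.pos (nat_lit 154861568) (nat_lit 204914688)) (I.mix (nat_lit 17694720) (nat_lit 42319872)) (I.pos (nat_lit 12156928) (nat_lit 90210304)) (I.pos (nat_lit 113082368) (nat_lit 192036864)) (I.mix (nat_lit 152207360) (nat_lit 63963136)) (I.mix (nat_lit 134823936) (nat_lit 72531968)) (I.mix (nat_lit 148881408) (nat_lit 60817408)))
  false (nat_lit 27101203)
def b3_4 : Bx := Bx.mk (St.mk (I.mix (nat_lit 18268160) (nat_lit 116375552)) (I.mix (nat_lit 12681216) (nat_lit 25722880)) (I.pos (nat_lit 294912) (nat_lit 29310976)) (I.pos (nat_lit 17842176) (nat_lit 85917696)) (I.mix (nat_lit 64208896) (nat_lit 39141376)) (I.mix (nat_lit 54067200) (nat_lit 33783808)) (I.mix (nat_lit 34144256) (nat_lit 19939328)))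
  false (nat_lit 0)
def b3_5 : Bx := Bx.mk (St.mk (I.pos (nat_lit 154566656) (nat_lit 201965568)) (I.mix (nat_lit 41680896) (nat_lit 18694144)) (I.mix (nat_lit 20299776) (nat_lit 57901056)) (I.pos (nat_lit 113131520) (nat_lit 184483840)) (I.mix (nat_lit 151666688) (nat_lit 97501184)) (I.mix (nat_lit 137101312) (nat_lit 90914816)) (I.mix (nat_lit 147292160) (nat_lit 85377024)))
  false (nat_lit 67507898)
def b3_6 : Bx := Bx.mk (St.mk (I.mix (nat_lit 24739840) (nat_lit 105578496)) (I.mix (nat_lit 16498688) (nat_lit 4014080)) (I.mix (nat_lit 1867776) (nat_lit 9682944)) (I.pos (nat_lit 18235392) (nat_lit 73007104)) (I.mix (nat_lit 32555008) (nat_lit 22937600)) (I.mix (nat_lit 18530304) (nat_lit 23363584)) (I.mix (nat_lit 11616256) (nat_lit 12730368)))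
  false (nat_lit 0)
def b3_7 : Bx := Bx.mk (St.mk (I.pos (nat_lit 141492224) (nat_lit 175407104)) (I.neg (nat_lit 1966080) (nat_lit 34177024)) (I.mix (nat_lit 14172160) (nat_lit 19972096)) (I.pos (nat_lit 103333888) (nat_lit 151175168)) (I.mix (nat_lit 68452352) (nat_lit 42631168)) (I.mix (nat_lit 36143104) (nat_lit 49463296)) (I.mix (nat_lit 42450944) (nat_lit 46727168)))
  false (nat_lit 0)
def b3_8 : Bx := Bx.mk (St.mk (I.pos (nat_lit 153042944) (nat_lit 187154432)) (I.neg (nat_lit 7110656) (nat_lit 36061184)) (I.mix (nat_lit 15990784) (nat_lit 17973248)) (I.pos (nat_lit 116670464) (nat_lit 168083456)) (I.mix (nat_lit 47513600) (nat_lit 38518784)) (I.mix (nat_lit 36290560) (nat_lit 28344320)) (I.mix (nat_lit 38617088) (nat_lit 28770304)))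
  false (nat_lit 0)
def b3_9 : Bx := Bx.mk (St.mk (I.pos (nat_lit 54525952) (nat_lit 132022272)) (I.mix (nat_lit 9027584) (nat_lit 21446656)) (I.mix (nat_lit 376832) (nat_lit 25657344)) (I.pos (nat_lit 31735808) (nat_lit 101548032)) (I.mix (nat_lit 41697280) (nat_lit 38060032)) (I.mix (nat_lit 38649856) (nat_lit 23855104)) (I.mix (nat_lit 30490624) (nat_lit 17776640)))
  false (nat_lit 0)
def b3_10 : Bx := Bx.mk (St.mk (I.pos (nat_lit 104644608) (nat_lit 151699456)) (I.mix (nat_lit 52166656) (nat_lit 7487488)) (I.mix (nat_lit 36470784) (nat_lit 14942208)) (I.pos (nat_lit 63029248) (nat_lit 121454592)) (I.mix (nat_lit 90587136) (nat_lit 55853056)) (I.mix (nat_lit 46317568) (nat_lit 72859648)) (I.mix (nat_lit 37060608) (nat_lit 57065472)))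
  false (nat_lit 46182387)
def b3_11 : Bx := Bx.mk (St.mk (I.mix (nat_lit 20480000) (nat_lit 91848704)) (I.mix (nat_lit 26836992) (nat_lit 3473408)) (I.mix (nat_lit 9093120) (nat_lit 6537216)) (I.pos (nat_lit 17924096) (nat_lit 67928064)) (I.mix (nat_lit 34914304) (nat_lit 20168704)) (I.mix (nat_lit 19054592) (nat_lit 28966912)) (I.mix (nat_lit 9420800) (nat_lit 14024704)))
  false (nat_lit 0)
def b3_12 : Bx := Bx.mk (St.mk (I.pos (nat_lit 188760064) (nat_lit 283590656)) (I.mix (nat_lit 29097984) (nat_lit 32899072)) (I.mix (nat_lit 29147136) (nat_lit 85819392)) (I.pos (nat_lit 174604288) (nat_lit 345948160)) (I.mix (nat_lit 96043008) (nat_lit 69795840)) (I.mix (nat_lit 69140480) (nat_lit 55001088)) (I.mix (nat_lit 120471552) (nat_lit 89128960)))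
  false (nat_lit 55648904)
def b3_13 : Bx := Bx.mk (St.mk (I.pos (nat_lit 181534720) (nat_lit 227426304)) (I.pos (nat_lit 7831552) (nat_lit 42663936)) (I.pos (nat_lit 33898496) (nat_lit 96567296)) (I.pos (nat_lit 164347904) (nat_lit 221872128)) (I.mix (nat_lit 111378432) (nat_lit 81657856)) (I.mix (nat_lit 90357760) (nat_lit 71188480)) (I.mix (nat_lit 142573568) (nat_lit 96911360)))
  false (nat_lit 9940981)
def t3 : BTr := (BTr.n (BTr.n (BTr.n (BTr.b b3_0) (BTr.n (BTr.b b3_1) (BTr.b b3_2))) (BTr.n (BTr.n (BTr.b b3_3) (BTr.b b3_4)) (BTr.n (BTr.b b3_5) (BTr.b b3_6)))) (BTr.n (BTr.n (BTr.b b3_7) (BTr.n (BTr.b b3_8) (BTr.b b3_9))) (BTr.n (BTr.n (BTr.b b3_10) (BTr.b b3_11)) (BTr.n (BTr.b b3_12) (BTr.b b3_13)))))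
namespace T3
def l0 : Tr := Tr.L (Pth.l (Pth.l (Pth.l Pth.z)))
def l1 : Tr := Tr.L (Pth.l (Pth.l (Pth.r (Pth.l Pth.z))))
def l2 : Tr := Tr.L (Pth.l (Pth.l (Pth.r (Pth.r Pth.z))))
def l3 : Tr := Tr.L (Pth.l (Pth.r (Pth.l (Pth.l Pth.z))))
def l4 : Tr := Tr.L (Pth.l (Pth.r (Pth.l (Pth.r Pth.z))))
def l5 : Tr := Tr.L (Pth.l (Pth.r (Pth.r (Pth.l Pth.z))))
def l6 : Tr := Tr.L (Pth.l (Pth.r (Pth.r (Pth.r Pth.z))))
def l7 : Tr := Tr.L (Pth.r (Pth.l (Pth.l Pth.z)))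
def l8 : Tr := Tr.L (Pth.r (Pth.l (Pth.r (Pth.l Pth.z))))
def l9 : Tr := Tr.L (Pth.r (Pth.l (Pth.r (Pth.r Pth.z))))
def l10 : Tr := Tr.L (Pth.r (Pth.r (Pth.l (Pth.l Pth.z))))
def l11 : Tr := Tr.L (Pth.r (Pth.r (Pth.l (Pth.r Pth.z))))
def l12 : Tr := Tr.L (Pth.r (Pth.r (Pth.r (Pth.l Pth.z))))
def l13 : Tr := Tr.L (Pth.r (Pth.r (Pth.r (Pth.r Pth.z))))
end T3
def b4_0 : Bx := Bx.mk (St.mk (I.pos (nat_lit 128532480) (nat_lit 215302144)) (I.mix (nat_lit 278528) (nat_lit 84738048)) (I.mix (nat_lit 278528) (nat_lit 111607808)) (I.pos (nat_lit 367378432) (nat_lit 450478080)) (I.mix (nat_lit 199213056) (nat_lit 100384768)) (I.mix (nat_lit 109281280) (nat_lit 99205120)) (I.mix (nat_lit 126582784) (nat_lit 136429568)))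
  false (nat_lit 145147713)
def b4_1 : Bx := Bx.mk (St.mk (I.pos (nat_lit 22380544) (nat_lit 125779968)) (I.neg (nat_lit 6406144) (nat_lit 90603520)) (I.mix (nat_lit 62603264) (nat_lit 20905984)) (I.pos (nat_lit 272416768) (nat_lit 333660160)) (I.mix (nat_lit 140361728) (nat_lit 89669632)) (I.mix (nat_lit 96436224) (nat_lit 88014848)) (I.mix (nat_lit 99434496) (nat_lit 71172096)))
  false (nat_lit 168448415)
def b4_2 : Bx := Bx.mk (St.mk (I.pos (nat_lit 93356032) (nat_lit 179847168)) (I.mix (nat_lit 39665664) (nat_lit 81100800)) (I.mix (nat_lit 11993088) (nat_lit 115408896)) (I.pos (nat_lit 304185344) (nat_lit 415662080)) (I.mix (nat_lit 210239488) (nat_lit 107642880)) (I.mix (nat_lit 157908992) (nat_lit 142032896)) (I.mix (nat_lit 165969920) (nat_lit 175554560)))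
  false (nat_lit 111472073)
def b4_3 : Bx := Bx.mk (St.mk (I.neg (nat_lit 22380544) (nat_lit 131153920)) (I.pos (nat_lit 2457600) (nat_lit 90603520)) (I.mix (nat_lit 62619648) (nat_lit 25231360)) (I.pos (nat_lit 272416768) (nat_lit 338083840)) (I.mix (nat_lit 89669632) (nat_lit 140378112)) (I.mix (nat_lit 88014848) (nat_lit 96436224)) (I.mix (nat_lit 99434496) (nat_lit 71188480)))
  true (nat_lit 50418267)
def b4_4 : Bx := Bx.mk (St.mk (I.mix (nat_lit 59080704) (nat_lit 13172736)) (I.mix (nat_lit 11255808) (nat_lit 89096192)) (I.neg (nat_lit 26591232) (nat_lit 52936704)) (I.pos (nat_lit 263995392) (nat_lit 299565056)) (I.mix (nat_lit 82378752) (nat_lit 137920512)) (I.mix (nat_lit 97665024) (nat_lit 92143616)) (I.mix (nat_lit 59015168) (nat_lit 41222144)))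
  true (nat_lit 0)
def b4_5 : Bx := Bx.mk (St.mk (I.pos (nat_lit 13664256) (nat_lit 59080704)) (I.neg (nat_lit 34865152) (nat_lit 89096192)) (I.neg (nat_lit 28164096) (nat_lit 52936704)) (I.pos (nat_lit 271302656) (nat_lit 299565056)) (I.mix (nat_lit 137920512) (nat_lit 82378752)) (I.mix (nat_lit 92143616) (nat_lit 95076352)) (I.mix (nat_lit 59015168) (nat_lit 41222144)))
  false (nat_lit 143221911)
def b4_6 : Bx := Bx.mk (St.mk (I.pos (nat_lit 179421184) (nat_lit 290701312)) (I.mix (nat_lit 24444928) (nat_lit 60735488)) (I.mix (nat_lit 113344512) (nat_lit 54427648)) (I.pos (nat_lit 409354240) (nat_lit 580059136)) (I.mix (nat_lit 100384768) (nat_lit 86261760)) (I.mix (nat_lit 77791232) (nat_lit 65208320)) (I.mix (nat_lit 129564672) (nat_lit 100696064)))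
  false (nat_lit 153298935)
def b4_7 : Bx := Bx.mk (St.mk (I.mix (nat_lit 13189120) (nat_lit 51331072)) (I.mix (nat_lit 51593216) (nat_lit 11255808)) (I.neg (nat_lit 26591232) (nat_lit 39174144)) (I.pos (nat_lit 264454144) (nat_lit 284295168)) (I.mix (nat_lit 65241088) (nat_lit 49528832)) (I.mix (nat_lit 42795008) (nat_lit 44187648)) (I.mix (nat_lit 14614528) (nat_lit 14581760)))
  false (nat_lit 0)
def b4_8 : Bx := Bx.mk (St.mk (I.pos (nat_lit 146898944) (nat_lit 203653120)) (I.pos (nat_lit 25231360) (nat_lit 83460096)) (I.pos (nat_lit 16302080) (nat_lit 102858752)) (I.pos (nat_lit 381845504) (nat_lit 439877632)) (I.mix (nat_lit 151273472) (nat_lit 107692032)) (I.mix (nat_lit 106135552) (nat_lit 79724544)) (I.mix (nat_lit 156647424) (nat_lit 113262592)))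
  false (nat_lit 76458798)
def b4_9 : Bx := Bx.mk (St.mk (I.pos (nat_lit 15368192) (nat_lit 55181312)) (I.neg (nat_lit 23281664) (nat_lit 76496896)) (I.neg (nat_lit 28082176) (nat_lit 49627136)) (I.pos (nat_lit 270811136) (nat_lit 291307520)) (I.mix (nat_lit 120700928) (nat_lit 64765952)) (I.mix (nat_lit 58015744) (nat_lit 97665024)) (I.mix (nat_lit 36012032) (nat_lit 29638656)))
  false (nat_lit 43970194)
def t4 : BTr := (BTr.n (BTr.n (BTr.n (BTr.b b4_0) (BTr.b b4_1)) (BTr.n (BTr.b b4_2) (BTr.n (BTr.b b4_3) (BTr.b b4_4)))) (BTr.n (BTr.n (BTr.b b4_5) (BTr.b b4_6)) (BTr.n (BTr.b b4_7) (BTr.n (BTr.b b4_8) (BTr.b b4_9)))))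
namespace T4
def l0 : Tr := Tr.L (Pth.l (Pth.l (Pth.l Pth.z)))
def l1 : Tr := Tr.L (Pth.l (Pth.l (Pth.r Pth.z)))
def l2 : Tr := Tr.L (Pth.l (Pth.r (Pth.l Pth.z)))
def l3 : Tr := Tr.L (Pth.l (Pth.r (Pth.r (Pth.l Pth.z))))
def l4 : Tr := Tr.L (Pth.l (Pth.r (Pth.r (Pth.r Pth.z))))
def l5 : Tr := Tr.L (Pth.r (Pth.l (Pth.l Pth.z)))
def l6 : Tr := Tr.L (Pth.r (Pth.l (Pth.r Pth.z)))
def l7 : Tr := Tr.L (Pth.r (Pth.r (Pth.l Pth.z)))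
def l8 : Tr := Tr.L (Pth.r (Pth.r (Pth.r (Pth.l Pth.z))))
def l9 : Tr := Tr.L (Pth.r (Pth.r (Pth.r (Pth.r Pth.z))))
end T4
def b5_0 : Bx := Bx.mk (St.mk (I.pos (nat_lit 160514048) (nat_lit 216760320)) (I.mix (nat_lit 278528) (nat_lit 49299456)) (I.mix (nat_lit 278528) (nat_lit 108953600)) (I.pos (nat_lit 186515456) (nat_lit 267108352)) (I.mix (nat_lit 116719616) (nat_lit 51265536)) (I.mix (nat_lit 80232448) (nat_lit 59244544)) (I.mix (nat_lit 102711296) (nat_lit 61849600)))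
  false (nat_lit 22817469)
def b5_1 : Bx := Bx.mk (St.mk (I.pos (nat_lit 96534528) (nat_lit 161185792)) (I.neg (nat_lit 8519680) (nat_lit 62668800)) (I.mix (nat_lit 32161792) (nat_lit 26443776)) (I.pos (nat_lit 136216576) (nat_lit 185565184)) (I.mix (nat_lit 80658432) (nat_lit 79970304)) (I.mix (nat_lit 61964288) (nat_lit 64258048)) (I.mix (nat_lit 51019776) (nat_lit 60162048)))
  false (nat_lit 106483174)
def b5_2 : Bx := Bx.mk (St.mk (I.mix (nat_lit 22970368) (nat_lit 44400640)) (I.mix (nat_lit 32587776) (nat_lit 3653632)) (I.pos (nat_lit 3096576) (nat_lit 16941056)) (I.pos (nat_lit 85868544) (nat_lit 99057664)) (I.mix (nat_lit 33718272) (nat_lit 53280768)) (I.mix (nat_lit 28475392) (nat_lit 37847040)) (I.mix (nat_lit 9306112) (nat_lit 14712832)))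
  false (nat_lit 20878796)
def b5_3 : Bx := Bx.mk (St.mk (I.pos (nat_lit 141950976) (nat_lit 196165632)) (I.mix (nat_lit 6701056) (nat_lit 49364992)) (I.pos (nat_lit 36519936) (nat_lit 103219200)) (I.pos (nat_lit 164265984) (nat_lit 228114432)) (I.mix (nat_lit 153337856) (nat_lit 60899328)) (I.mix (nat_lit 133906432) (nat_lit 84426752)) (I.mix (nat_lit 134348800) (nat_lit 64339968)))
  false (nat_lit 40305239)
def b5_4 : Bx := Bx.mk (St.mk (I.mix (nat_lit 44695552) (nat_lit 66535424)) (I.mix (nat_lit 9289728) (nat_lit 32587776)) (I.pos (nat_lit 3096576) (nat_lit 28278784)) (I.pos (nat_lit 85852160) (nat_lit 107741184)) (I.mix (nat_lit 62717952) (nat_lit 34914304)) (I.mix (nat_lit 47071232) (nat_lit 30195712)) (I.mix (nat_lit 18956288) (nat_lit 14712832)))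
  false (nat_lit 0)
def b5_5 : Bx := Bx.mk (St.mk (I.pos (nat_lit 129466368) (nat_lit 162103296)) (I.neg (nat_lit 4997120) (nat_lit 36126720)) (I.pos (nat_lit 1277952) (nat_lit 33325056)) (I.pos (nat_lit 155172864) (nat_lit 184893440)) (I.mix (nat_lit 73793536) (nat_lit 64929792)) (I.mix (nat_lit 43565056) (nat_lit 58900480)) (I.mix (nat_lit 45498368) (nat_lit 49496064)))
  false (nat_lit 48465738)
def b5_6 : Bx := Bx.mk (St.mk (I.mix (nat_lit 59080704) (nat_lit 45514752)) (I.mix (nat_lit 14368768) (nat_lit 11223040)) (I.pos (nat_lit 8290304) (nat_lit 19922944)) (I.pos (nat_lit 85524480) (nat_lit 102547456)) (I.mix (nat_lit 35012608) (nat_lit 28540928)) (I.mix (nat_lit 23724032) (nat_lit 26214400)) (I.mix (nat_lit 10813440) (nat_lit 9486336)))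
  false (nat_lit 0)
def b5_7 : Bx := Bx.mk (St.mk (I.pos (nat_lit 145031168) (nat_lit 176439296)) (I.neg (nat_lit 12533760) (nat_lit 36814848)) (I.mix (nat_lit 114688) (nat_lit 25214976)) (I.pos (nat_lit 170524672) (nat_lit 203735040)) (I.mix (nat_lit 59162624) (nat_lit 67207168)) (I.mix (nat_lit 58900480) (nat_lit 47431680)) (I.mix (nat_lit 55132160) (nat_lit 46809088)))
  false (nat_lit 54199472)
def b5_8 : Bx := Bx.mk (St.mk (I.pos (nat_lit 142606336) (nat_lit 191021056)) (I.mix (nat_lit 37945344) (nat_lit 25198592)) (I.pos (nat_lit 933888) (nat_lit 76480512)) (I.pos (nat_lit 164937728) (nat_lit 218021888)) (I.mix (nat_lit 162791424) (nat_lit 98729984)) (I.mix (nat_lit 141279232) (nat_lit 94158848)) (I.mix (nat_lit 135168000) (nat_lit 77774848)))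
  false (nat_lit 54003859)
def b5_9 : Bx := Bx.mk (St.mk (I.mix (nat_lit 25608192) (nat_lit 95191040)) (I.mix (nat_lit 7061504) (nat_lit 31965184)) (I.pos (nat_lit 3768320) (nat_lit 29949952)) (I.pos (nat_lit 84262912) (nat_lit 123535360)) (I.mix (nat_lit 62455808) (nat_lit 45056000)) (I.mix (nat_lit 50397184) (nat_lit 31195136)) (I.mix (nat_lit 31277056) (nat_lit 20938752)))
  false (nat_lit 0)
def b5_10 : Bx := Bx.mk (St.mk (I.pos (nat_lit 80773120) (nat_lit 131776512)) (I.mix (nat_lit 63848448) (nat_lit 8814592)) (I.mix (nat_lit 31096832) (nat_lit 16859136)) (I.pos (nat_lit 114688000) (nat_lit 158842880)) (I.mix (nat_lit 82264064) (nat_lit 64258048)) (I.mix (nat_lit 51838976) (nat_lit 72237056)) (I.mix (nat_lit 33128448) (nat_lit 45924352)))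
  false (nat_lit 91020793)
def b5_11 : Bx := Bx.mk (St.mk (I.mix (nat_lit 46170112) (nat_lit 34635776)) (I.mix (nat_lit 31866880) (nat_lit 5488640)) (I.pos (nat_lit 4571136) (nat_lit 18563072)) (I.pos (nat_lit 83968000) (nat_lit 97894400)) (I.mix (nat_lit 36929536) (nat_lit 46645248)) (I.mix (nat_lit 24756224) (nat_lit 38043648)) (I.mix (nat_lit 14303232) (nat_lit 11288576)))
  false (nat_lit 0)
def b5_12 : Bx := Bx.mk (St.mk (I.pos (nat_lit 184041472) (nat_lit 283557888)) (I.mix (nat_lit 22839296) (nat_lit 38305792)) (I.mix (nat_lit 11436032) (nat_lit 96649216)) (I.pos (nat_lit 228474880) (nat_lit 389906432)) (I.mix (nat_lit 105185280) (nat_lit 81444864)) (I.mix (nat_lit 76251136) (nat_lit 59424768)) (I.mix (nat_lit 127516672) (nat_lit 95911936)))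
  false (nat_lit 64630456)
def b5_13 : Bx := Bx.mk (St.mk (I.pos (nat_lit 169623552) (nat_lit 218988544)) (I.pos (nat_lit 8765440) (nat_lit 49889280)) (I.pos (nat_lit 43745280) (nat_lit 110362624)) (I.pos (nat_lit 209305600) (nat_lit 259833856)) (I.mix (nat_lit 129777664) (nat_lit 93683712)) (I.mix (nat_lit 102744064) (nat_lit 72613888)) (I.mix (nat_lit 152010752) (nat_lit 86605824)))
  false (nat_lit 20624147)
def t5 : BTr := (BTr.n (BTr.n (BTr.n (BTr.b b5_0) (BTr.n (BTr.b b5_1) (BTr.b b5_2))) (BTr.n (BTr.n (BTr.b b5_3) (BTr.b b5_4)) (BTr.n (BTr.b b5_5) (BTr.b b5_6)))) (BTr.n (BTr.n (BTr.b b5_7) (BTr.n (BTr.b b5_8) (BTr.b b5_9))) (BTr.n (BTr.n (BTr.b b5_10) (BTr.b b5_11)) (BTr.n (BTr.b b5_12) (BTr.b b5_13)))))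
namespace T5
def l0 : Tr := Tr.L (Pth.l (Pth.l (Pth.l Pth.z)))
def l1 : Tr := Tr.L (Pth.l (Pth.l (Pth.r (Pth.l Pth.z))))
def l2 : Tr := Tr.L (Pth.l (Pth.l (Pth.r (Pth.r Pth.z))))
def l3 : Tr := Tr.L (Pth.l (Pth.r (Pth.l (Pth.l Pth.z))))
def l4 : Tr := Tr.L (Pth.l (Pth.r (Pth.l (Pth.r Pth.z))))
def l5 : Tr := Tr.L (Pth.l (Pth.r (Pth.r (Pth.l Pth.z))))
def l6 : Tr := Tr.L (Pth.l (Pth.r (Pth.r (Pth.r Pth.z))))
def l7 : Tr := Tr.L (Pth.r (Pth.l (Pth.l Pth.z)))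
def l8 : Tr := Tr.L (Pth.r (Pth.l (Pth.r (Pth.l Pth.z))))
def l9 : Tr := Tr.L (Pth.r (Pth.l (Pth.r (Pth.r Pth.z))))
def l10 : Tr := Tr.L (Pth.r (Pth.r (Pth.l (Pth.l Pth.z))))
def l11 : Tr := Tr.L (Pth.r (Pth.r (Pth.l (Pth.r Pth.z))))
def l12 : Tr := Tr.L (Pth.r (Pth.r (Pth.r (Pth.l Pth.z))))
def l13 : Tr := Tr.L (Pth.r (Pth.r (Pth.r (Pth.r Pth.z))))
end T5
theorem bx0_0 : BoxOK sI cl4 cl6 cl9 t2 t4 b0_0 :=
  box_mk (TrL.c (I.pos (nat_lit 0) (nat_lit 0)) (xa (xb T2.l0 (xa (xb T2.l0 (xb T2.l0 T2.l0)) (xb T2.l0 (xa T2.l0 T2.l0)))) (xb T2.l0 (xa (xb T2.l0 (xa (xb T2.l0 T2.l0) (xb T2.l0 T2.l0))) (xb T2.l0 (xa (xb T2.l0 T2.l0) (xs T2.l0 T2.l0))))))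
  (TrL.c (I.pos (nat_lit 0) (nat_lit 0)) (xa (xb T4.l1 T4.l1) (xb T4.l1 (xa T4.l1 T4.l1)))
  (TrL.c (I.pos (nat_lit 0) (nat_lit 0)) T2.l1
  (TrL.c (I.pos (nat_lit 0) (nat_lit 0)) (xa T4.l2 (xb T4.l2 T4.l2))
  (TrL.c (I.pos (nat_lit 0) (nat_lit 0)) (xa T2.l2 T2.l2)
  (TrL.c (I.pos (nat_lit 0) (nat_lit 0)) (xa (xb T4.l3 T4.l3) (xb T4.l3 (xa T4.l3 T4.l3)))
  TrL.n)))))) (by decide +kernel)
theorem bx0_1 : BoxOK sI cl4 cl6 cl9 t2 t4 b0_1 :=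
  box_mk (TrL.c (I.pos (nat_lit 0) (nat_lit 0)) (xa (xa (xb T2.l6 T2.l6) T2.l6) (xa T2.l6 (xb T2.l6 T2.l6)))
  (TrL.c (I.pos (nat_lit 0) (nat_lit 0)) (xa T4.l1 T4.l1)
  (TrL.c (I.pos (nat_lit 0) (nat_lit 0)) T2.l1
  (TrL.c (I.pos (nat_lit 0) (nat_lit 0)) (xa T4.l2 T4.l2)
  (TrL.c (I.pos (nat_lit 0) (nat_lit 0)) T2.l7
  (TrL.c (I.pos (nat_lit 0) (nat_lit 0)) T4.l3
  TrL.n)))))) (by decide +kernel)
theorem bx0_2 : BoxOK sI cl4 cl6 cl9 t2 t4 b0_2 :=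
  box_mk (TrL.c (I.pos (nat_lit 0) (nat_lit 0)) (xb (xa (xb T2.l6 T2.l6) T2.l6) (xa T2.l6 T2.l6))
  (TrL.c (I.pos (nat_lit 0) (nat_lit 0)) T4.l1
  (TrL.c (I.pos (nat_lit 0) (nat_lit 0)) T2.l1
  (TrL.c (I.pos (nat_lit 0) (nat_lit 0)) T4.l2
  (TrL.c (I.pos (nat_lit 0) (nat_lit 0)) T2.l7
  (TrL.c (I.pos (nat_lit 0) (nat_lit 0)) T4.l3
  TrL.n)))))) (by decide +kernel)
theorem bx0_3 : BoxOK sI cl4 cl6 cl9 t2 t4 b0_3 :=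
  box_mk (TrL.c (I.pos (nat_lit 0) (nat_lit 0)) (xa (xb (xa T2.l6 T2.l6) T2.l6) T2.l6)
  (TrL.c (I.pos (nat_lit 0) (nat_lit 0)) T4.l2
  (TrL.c (I.pos (nat_lit 0) (nat_lit 0)) T2.l7
  (TrL.c (I.pos (nat_lit 0) (nat_lit 0)) T4.l1
  (TrL.c (I.pos (nat_lit 0) (nat_lit 0)) T2.l7
  (TrL.c (I.pos (nat_lit 0) (nat_lit 0)) T4.l3
  TrL.n)))))) (by decide +kernel)
theorem bx0_4 : BoxOK sI cl4 cl6 cl9 t2 t4 b0_4 :=
  box_mk (TrL.c (I.pos (nat_lit 0) (nat_lit 0)) T2.l6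
  (TrL.c (I.pos (nat_lit 0) (nat_lit 0)) T4.l1
  (TrL.c (I.pos (nat_lit 0) (nat_lit 0)) T2.l1
  (TrL.c (I.pos (nat_lit 0) (nat_lit 0)) T4.l2
  (TrL.c (I.pos (nat_lit 0) (nat_lit 0)) T2.l7
  (TrL.c (I.pos (nat_lit 0) (nat_lit 0)) T4.l3
  TrL.n)))))) (by decide +kernel)
theorem bx0_5 : BoxOK sI cl4 cl6 cl9 t2 t4 b0_5 :=
  box_mk (TrL.c (I.pos (nat_lit 0) (nat_lit 0)) (xa (xb T2.l6 T2.l6) T2.l6)
  (TrL.c (I.pos (nat_lit 0) (nat_lit 0)) T4.l2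
  (TrL.c (I.pos (nat_lit 0) (nat_lit 0)) T2.l7
  (TrL.c (I.pos (nat_lit 0) (nat_lit 0)) T4.l1
  (TrL.c (I.pos (nat_lit 0) (nat_lit 0)) T2.l7
  (TrL.c (I.pos (nat_lit 0) (nat_lit 0)) T4.l3
  TrL.n)))))) (by decide +kernel)
theorem bx0_6 : BoxOK sI cl4 cl6 cl9 t2 t4 b0_6 :=
  box_mk (TrL.c (I.pos (nat_lit 0) (nat_lit 0)) (xa T2.l0 T2.l4)
  (TrL.c (I.pos (nat_lit 0) (nat_lit 0)) (xa T4.l1 (xb T4.l1 T4.l1))
  (TrL.c (I.pos (nat_lit 0) (nat_lit 0)) T2.l5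
  (TrL.c (I.pos (nat_lit 0) (nat_lit 0)) (xa T4.l2 (xb (xa T4.l2 T4.l2) T4.l2))
  (TrL.c (I.pos (nat_lit 0) (nat_lit 0)) T2.l3
  (TrL.c (I.pos (nat_lit 0) (nat_lit 0)) (xa T4.l3 (xb T4.l3 T4.l3))
  TrL.n)))))) (by decide +kernel)
theorem bx0_7 : BoxOK sI cl4 cl6 cl9 t2 t4 b0_7 :=
  box_mk (TrL.c (I.pos (nat_lit 0) (nat_lit 0)) (xb (xa (xb (xa T2.l0 T2.l0) (xa (xb T2.l0 T2.l0) T2.l0)) (xb T2.l4 (xa T2.l0 T2.l4))) (xa (xb (xa (xb T2.l0 (xa T2.l0 T2.l0)) (xb T2.l0 T2.l0)) (xa (xb (xa T2.l0 T2.l0) (xs T2.l0 (xa T2.l0 T2.l0))) (xb (xa T2.l0 T2.l0) (xs T2.l0 (xa T2.l0 T2.l0))))) (xb (xa (xb T2.l0 T2.l0) (xb T2.l4 (xa T2.l0 T2.l0))) (xa (xb T2.l0 (xs T2.l0 (xa T2.l0 T2.l0))) (xb (xs T2.l0 (xa T2.l0 T2.l0)) (xs (xa T2.l0 T2.l0) (xa T2.l0 T2.l0)))))))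
  (TrL.c (I.pos (nat_lit 0) (nat_lit 0)) (xb (xa (xb T4.l1 T4.l1) (xb T4.l1 T4.l1)) (xa (xb T4.l1 (xc T4.l1 T4.l1)) (xb (xc T4.l1 T4.l1) (xa T4.l1 T4.l1))))
  (TrL.c (I.pos (nat_lit 0) (nat_lit 0)) (xc (xb T2.l5 (xa T2.l1 T2.l1)) (xb (xa T2.l1 T2.l1) (xa T2.l1 T2.l1)))
  (TrL.c (I.pos (nat_lit 0) (nat_lit 0)) (xb (xa (xb (xc T4.l2 T4.l2) T4.l2) (xb (xc (xa T4.l2 T4.l2) (xa T4.l2 T4.l2)) (xa T4.l2 (xc T4.l2 T4.l2)))) (xa (xb T4.l2 T4.l2) (xb (xc (xa T4.l2 T4.l2) (xa T4.l2 T4.l2)) (xa (xc T4.l2 T4.l2) (xc (xs T4.l2 T4.l2) (xs T4.l2 T4.l2))))))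
  (TrL.c (I.pos (nat_lit 0) (nat_lit 0)) (xc (xb T2.l3 (xa T2.l2 T2.l2)) (xb (xa T2.l2 T2.l2) (xa T2.l2 T2.l2)))
  (TrL.c (I.pos (nat_lit 0) (nat_lit 0)) (xb (xa (xb T4.l3 T4.l3) (xb T4.l3 T4.l3)) (xa (xb T4.l3 (xc T4.l3 T4.l3)) (xb (xc T4.l3 T4.l3) (xa T4.l3 T4.l3))))
  TrL.n)))))) (by decide +kernel)
theorem bx0_8 : BoxOK sI cl4 cl6 cl9 t2 t4 b0_8 :=
  box_mk (TrL.c (I.pos (nat_lit 0) (nat_lit 0)) (xa (xb T2.l6 T2.l6) (xb (xa T2.l6 T2.l6) (xa T2.l6 T2.l6)))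
  (TrL.c (I.pos (nat_lit 0) (nat_lit 0)) T4.l1
  (TrL.c (I.pos (nat_lit 0) (nat_lit 0)) T2.l1
  (TrL.c (I.pos (nat_lit 0) (nat_lit 0)) T4.l2
  (TrL.c (I.pos (nat_lit 0) (nat_lit 0)) T2.l7
  (TrL.c (I.pos (nat_lit 0) (nat_lit 0)) T4.l3
  TrL.n)))))) (by decide +kernel)
theorem bx0_9 : BoxOK sI cl4 cl6 cl9 t2 t4 b0_9 :=
  box_mk (TrL.c (I.pos (nat_lit 0) (nat_lit 0)) (xa (xb T2.l6 T2.l6) T2.l6)
  (TrL.c (I.pos (nat_lit 0) (nat_lit 0)) T4.l1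
  (TrL.c (I.pos (nat_lit 0) (nat_lit 0)) T2.l1
  (TrL.c (I.pos (nat_lit 0) (nat_lit 0)) T4.l2
  (TrL.c (I.pos (nat_lit 0) (nat_lit 0)) T2.l7
  (TrL.c (I.pos (nat_lit 0) (nat_lit 0)) T4.l3
  TrL.n)))))) (by decide +kernel)
theorem bx0_10 : BoxOK sI cl4 cl6 cl9 t2 t4 b0_10 :=
  box_mk (TrL.c (I.pos (nat_lit 0) (nat_lit 0)) (xb (xa (xb T2.l8 T2.l8) (xb T2.l0 (xa T2.l8 T2.l0))) (xa (xb (xa T2.l8 T2.l8) (xa (xb T2.l8 T2.l8) (xb T2.l8 T2.l8))) (xb (xa T2.l8 T2.l0) (xa (xb T2.l8 (xs T2.l8 T2.l8)) T2.l0))))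
  (TrL.c (I.pos (nat_lit 0) (nat_lit 0)) (xb T4.l1 (xa T4.l1 T4.l1))
  (TrL.c (I.pos (nat_lit 0) (nat_lit 0)) T2.l1
  (TrL.c (I.pos (nat_lit 0) (nat_lit 0)) (xb T4.l2 T4.l2)
  (TrL.c (I.pos (nat_lit 0) (nat_lit 0)) (xa T2.l2 T2.l2)
  (TrL.c (I.pos (nat_lit 0) (nat_lit 0)) (xb T4.l3 (xa T4.l3 T4.l3))
  TrL.n)))))) (by decide +kernel)
theorem bx0_11 : BoxOK sI cl4 cl6 cl9 t2 t4 b0_11 :=
  box_mk (TrL.c (I.pos (nat_lit 0) (nat_lit 0)) (xa (xa (xb T2.l6 (xa T2.l6 T2.l6)) T2.l6) T2.l6)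
  (TrL.c (I.pos (nat_lit 0) (nat_lit 0)) (xa T4.l2 T4.l1)
  (TrL.c (I.pos (nat_lit 0) (nat_lit 0)) (xa T2.l1 T2.l1)
  (TrL.c (I.pos (nat_lit 0) (nat_lit 0)) (xa T4.l1 T4.l2)
  (TrL.c (I.pos (nat_lit 0) (nat_lit 0)) (xa T2.l7 T2.l7)
  (TrL.c (I.pos (nat_lit 0) (nat_lit 0)) (xa T4.l3 T4.l3)
  TrL.n)))))) (by decide +kernel)
theorem bx0_12 : BoxOK sI cl4 cl6 cl9 t2 t4 b0_12 :=
  box_mk (TrL.c (I.pos (nat_lit 0) (nat_lit 0)) (xa (xb (xa T2.l8 T2.l8) (xa T2.l8 T2.l8)) (xb (xa T2.l8 T2.l8) T2.l8))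
  (TrL.c (I.pos (nat_lit 0) (nat_lit 0)) T4.l1
  (TrL.c (I.pos (nat_lit 0) (nat_lit 0)) T2.l1
  (TrL.c (I.pos (nat_lit 0) (nat_lit 0)) T4.l2
  (TrL.c (I.pos (nat_lit 0) (nat_lit 0)) (xa T2.l3 T2.l9)
  (TrL.c (I.pos (nat_lit 0) (nat_lit 0)) T4.l3
  TrL.n)))))) (by decide +kernel)
theorem bx0_13 : BoxOK sI cl4 cl6 cl9 t2 t4 b0_13 :=
  box_mk (TrL.c (I.pos (nat_lit 0) (nat_lit 0)) (xb (xa T2.l8 (xa T2.l8 T2.l8)) (xa (xa T2.l8 T2.l8) (xa T2.l8 T2.l8)))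
  (TrL.c (I.pos (nat_lit 0) (nat_lit 0)) T4.l1
  (TrL.c (I.pos (nat_lit 0) (nat_lit 0)) T2.l1
  (TrL.c (I.pos (nat_lit 0) (nat_lit 0)) T4.l2
  (TrL.c (I.pos (nat_lit 0) (nat_lit 0)) T2.l3
  (TrL.c (I.pos (nat_lit 0) (nat_lit 0)) T4.l3
  TrL.n)))))) (by decide +kernel)
theorem sv0 : StarV sI cl4 cl6 cl9 t2 t4 t0 :=
  (bt_n (bt_n (bt_n (bt_b bx0_0) (bt_n (bt_b bx0_1) (bt_b bx0_2))) (bt_n (bt_n (bt_b bx0_3) (bt_b bx0_4)) (bt_n (bt_b bx0_5) (bt_b bx0_6)))) (bt_n (bt_n (bt_b bx0_7) (bt_n (bt_b bx0_8) (bt_b bx0_9))) (bt_n (bt_n (bt_b bx0_10) (bt_b bx0_11)) (bt_n (bt_b bx0_12) (bt_b bx0_13)))))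
def S0 : StarD := StarD.mk cl4 cl6 cl9 2 4 t0
theorem bx1_0 : BoxOK sI cl4 cl9 cl6 t4 t2 b1_0 :=
  box_mk (TrL.c (I.pos (nat_lit 0) (nat_lit 0)) (xa (xb (xa T4.l0 T4.l0) (xa (xb (xa T4.l0 T4.l0) (xa (xs T4.l0 T4.l0) (xs T4.l0 (xb T4.l0 T4.l0)))) (xb T4.l0 (xa (xs T4.l0 (xb T4.l0 T4.l0)) (xs T4.l0 (xb T4.l0 T4.l0)))))) (xb (xa T4.l0 (xb T4.l0 T4.l0)) (xa (xb (xa T4.l0 T4.l0) (xa (xs T4.l0 (xb T4.l0 T4.l0)) (xs T4.l0 (xb T4.l0 T4.l0)))) (xb (xa T4.l0 T4.l0) (xa (xs T4.l0 (xb T4.l0 T4.l0)) (xs T4.l0 (xb T4.l0 T4.l0)))))))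
  (TrL.c (I.pos (nat_lit 0) (nat_lit 0)) (xa (xb T2.l3 T2.l3) (xb T2.l3 (xa T2.l3 (xb T2.l3 T2.l3))))
  (TrL.c (I.pos (nat_lit 0) (nat_lit 0)) T4.l4
  (TrL.c (I.pos (nat_lit 0) (nat_lit 0)) (xa T2.l4 (xb T2.l4 T2.l4))
  (TrL.c (I.pos (nat_lit 0) (nat_lit 0)) (xa T4.l5 T4.l5)
  (TrL.c (I.pos (nat_lit 0) (nat_lit 0)) (xa (xb T2.l5 T2.l5) (xb T2.l5 (xa T2.l5 (xb T2.l5 T2.l5))))
  TrL.n)))))) (by decide +kernel)
theorem bx1_1 : BoxOK sI cl4 cl9 cl6 t4 t2 b1_1 :=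
  box_mk (TrL.c (I.pos (nat_lit 0) (nat_lit 0)) (xa (xa (xb T4.l6 T4.l6) T4.l6) (xa T4.l6 (xb T4.l6 (xa T4.l6 T4.l6))))
  (TrL.c (I.pos (nat_lit 0) (nat_lit 0)) (xa T2.l3 T2.l3)
  (TrL.c (I.pos (nat_lit 0) (nat_lit 0)) T4.l4
  (TrL.c (I.pos (nat_lit 0) (nat_lit 0)) T2.l4
  (TrL.c (I.pos (nat_lit 0) (nat_lit 0)) T4.l7
  (TrL.c (I.pos (nat_lit 0) (nat_lit 0)) (xa T2.l5 T2.l5)
  TrL.n)))))) (by decide +kernel)
theorem bx1_2 : BoxOK sI cl4 cl9 cl6 t4 t2 b1_2 :=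
  box_mk (TrL.c (I.pos (nat_lit 0) (nat_lit 0)) (xb (xa (xb T4.l6 T4.l6) (xb T4.l6 T4.l6)) (xa (xb T4.l6 T4.l6) T4.l6))
  (TrL.c (I.pos (nat_lit 0) (nat_lit 0)) T2.l3
  (TrL.c (I.pos (nat_lit 0) (nat_lit 0)) T4.l4
  (TrL.c (I.pos (nat_lit 0) (nat_lit 0)) T2.l4
  (TrL.c (I.pos (nat_lit 0) (nat_lit 0)) T4.l7
  (TrL.c (I.pos (nat_lit 0) (nat_lit 0)) T2.l5
  TrL.n)))))) (by decide +kernel)
theorem bx1_3 : BoxOK sI cl4 cl9 cl6 t4 t2 b1_3 :=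
  box_mk (TrL.c (I.pos (nat_lit 0) (nat_lit 0)) (xa (xa (xb T4.l6 T4.l6) T4.l6) T4.l6)
  (TrL.c (I.pos (nat_lit 0) (nat_lit 0)) (xa T2.l3 T2.l3)
  (TrL.c (I.pos (nat_lit 0) (nat_lit 0)) T4.l4
  (TrL.c (I.pos (nat_lit 0) (nat_lit 0)) (xa T2.l4 T2.l4)
  (TrL.c (I.pos (nat_lit 0) (nat_lit 0)) T4.l7
  (TrL.c (I.pos (nat_lit 0) (nat_lit 0)) (xa T2.l5 T2.l5)
  TrL.n)))))) (by decide +kernel)
theorem c1_4_0 : chkTag sI cl4 cl9 cl6 t4 b1_4 (tg true true false RT.r2) (I.pos (nat_lit 0) (nat_lit 0))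
  (xb (xa (xb (xa (xb T4.l0 T4.l0) (xb T4.l0 T4.l0)) (xa (xb T4.l0 (xa T4.l0 T4.l0)) (xb T4.l0 T4.l0))) (xb (xa T4.l2 T4.l2) (xa T4.l2 T4.l2))) (xa (xb (xa (xb (xa T4.l0 T4.l0) (xa (xs T4.l0 T4.l0) T4.l0)) (xb (xa T4.l0 T4.l0) (xa T4.l0 T4.l0))) (xa (xb (xs T4.l0 (xa T4.l0 T4.l0)) (xs (xa T4.l0 T4.l0) (xa T4.l0 T4.l0))) (xs (xb T4.l0 (xa T4.l0 T4.l0)) (xb (xa T4.l0 T4.l0) (xa T4.l0 T4.l0))))) (xb (xa (xb T4.l2 (xs T4.l0 T4.l2)) (xs (xb T4.l0 T4.l0) (xb T4.l2 T4.l2))) (xa (xs (xb T4.l0 (xa T4.l0 T4.l0)) (xb (xa T4.l0 T4.l0) (xa (xc T4.l0 T4.l0) (xc T4.l0 T4.l0)))) (xs (xa (xb T4.l0 T4.l0) (xb T4.l0 T4.l0)) (xb (xa T4.l0 T4.l2) (xa (xc T4.l0 T4.l0) (xd T4.l0 T4.l0)))))))) = true := by decide +kernel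
theorem c1_4_1 : chkTag sI cl4 cl9 cl6 t2 b1_4 (tg true false false RT.r3) (I.pos (nat_lit 0) (nat_lit 0))
  (xa (xb (xb T2.l3 (xa T2.l3 T2.l3)) (xc (xb T2.l3 (xa T2.l3 T2.l3)) (xb T2.l3 (xa T2.l3 T2.l3)))) (xb (xa (xb T2.l3 T2.l3) (xb T2.l3 T2.l3)) (xa (xb T2.l3 (xc T2.l3 T2.l3)) (xb (xc T2.l3 T2.l3) (xc (xs T2.l3 T2.l3) (xs T2.l3 T2.l3)))))) = true := by decide +kernel
theorem c1_4_2 : chkTag sI cl4 cl9 cl6 t4 b1_4 (tg true true true RT.r4) (I.pos (nat_lit 0) (nat_lit 0))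
  (xa T4.l4 (xc (xb T4.l3 T4.l4) (xb T4.l4 T4.l4))) = true := by decide +kernel
theorem c1_4_3 : chkTag sI cl4 cl9 cl6 t2 b1_4 (tg false false false RT.r3) (I.pos (nat_lit 0) (nat_lit 0))
  (xb (xa T2.l4 (xb (xa T2.l4 T2.l4) (xa T2.l4 T2.l4))) (xa (xb T2.l4 T2.l4) (xb (xa T2.l4 (xc T2.l4 T2.l4)) (xa T2.l4 (xc T2.l4 (xd T2.l4 T2.l4)))))) = true := by decide +kernel
theorem c1_4_4 : chkTag sI cl4 cl9 cl6 t4 b1_4 (tg false true false RT.r4) (I.pos (nat_lit 0) (nat_lit 0))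
  (xa T4.l5 (xc (xb T4.l1 T4.l5) (xb T4.l5 T4.l5))) = true := by decide +kernel
theorem c1_4_5 : chkTag sI cl4 cl9 cl6 t2 b1_4 (tg false false true RT.r5) (I.pos (nat_lit 0) (nat_lit 0))
  (xa (xb (xb T2.l5 (xa T2.l5 T2.l5)) (xc (xb T2.l5 (xa T2.l5 T2.l5)) (xb T2.l5 (xa T2.l5 T2.l5)))) (xb (xa (xb T2.l5 T2.l5) (xb T2.l5 T2.l5)) (xa (xb T2.l5 (xc T2.l5 T2.l5)) (xb (xc T2.l5 T2.l5) (xc (xs T2.l5 T2.l5) (xs T2.l5 T2.l5)))))) = true := by decide +kernel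
theorem bx1_4 : BoxOK sI cl4 cl9 cl6 t4 t2 b1_4 :=
  box_mk' [(tg true true false RT.r2), (tg true false false RT.r3), (tg true true true RT.r4), (tg false false false RT.r3), (tg false true false RT.r4), (tg false false true RT.r5)] rfl (allL_c (ex_mk c1_4_0) (allL_c (ex_mk c1_4_1) (allL_c (ex_mk c1_4_2) (allL_c (ex_mk c1_4_3) (allL_c (ex_mk c1_4_4) (allL_c (ex_mk c1_4_5) allL_n))))))
theorem bx1_5 : BoxOK sI cl4 cl9 cl6 t4 t2 b1_5 :=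
  box_mk (TrL.c (I.pos (nat_lit 0) (nat_lit 0)) T4.l6
  (TrL.c (I.pos (nat_lit 0) (nat_lit 0)) T2.l3
  (TrL.c (I.pos (nat_lit 0) (nat_lit 0)) T4.l4
  (TrL.c (I.pos (nat_lit 0) (nat_lit 0)) T2.l4
  (TrL.c (I.pos (nat_lit 0) (nat_lit 0)) T4.l7
  (TrL.c (I.pos (nat_lit 0) (nat_lit 0)) T2.l5
  TrL.n)))))) (by decide +kernel)
theorem bx1_6 : BoxOK sI cl4 cl9 cl6 t4 t2 b1_6 :=
  box_mk (TrL.c (I.pos (nat_lit 0) (nat_lit 0)) T4.l6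
  (TrL.c (I.pos (nat_lit 0) (nat_lit 0)) T2.l3
  (TrL.c (I.pos (nat_lit 0) (nat_lit 0)) T4.l4
  (TrL.c (I.pos (nat_lit 0) (nat_lit 0)) T2.l4
  (TrL.c (I.pos (nat_lit 0) (nat_lit 0)) T4.l7
  (TrL.c (I.pos (nat_lit 0) (nat_lit 0)) T2.l5
  TrL.n)))))) (by decide +kernel)
theorem bx1_7 : BoxOK sI cl4 cl9 cl6 t4 t2 b1_7 :=
  box_mk (TrL.c (I.pos (nat_lit 0) (nat_lit 0)) (xa (xb T4.l0 T4.l0) T4.l2)
  (TrL.c (I.pos (nat_lit 0) (nat_lit 0)) (xa T2.l3 (xb T2.l3 T2.l3))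
  (TrL.c (I.pos (nat_lit 0) (nat_lit 0)) T4.l3
  (TrL.c (I.pos (nat_lit 0) (nat_lit 0)) (xa T2.l4 (xb (xa T2.l4 T2.l4) T2.l4))
  (TrL.c (I.pos (nat_lit 0) (nat_lit 0)) T4.l1
  (TrL.c (I.pos (nat_lit 0) (nat_lit 0)) (xa T2.l5 (xb T2.l5 T2.l5))
  TrL.n)))))) (by decide +kernel)
theorem bx1_8 : BoxOK sI cl4 cl9 cl6 t4 t2 b1_8 :=
  box_mk (TrL.c (I.pos (nat_lit 0) (nat_lit 0)) (xa (xb (xa T4.l6 T4.l0) T4.l6) T4.l0)
  (TrL.c (I.pos (nat_lit 0) (nat_lit 0)) T2.l3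
  (TrL.c (I.pos (nat_lit 0) (nat_lit 0)) T4.l4
  (TrL.c (I.pos (nat_lit 0) (nat_lit 0)) T2.l4
  (TrL.c (I.pos (nat_lit 0) (nat_lit 0)) T4.l7
  (TrL.c (I.pos (nat_lit 0) (nat_lit 0)) T2.l5
  TrL.n)))))) (by decide +kernel)
theorem bx1_9 : BoxOK sI cl4 cl9 cl6 t4 t2 b1_9 :=
  box_mk (TrL.c (I.pos (nat_lit 0) (nat_lit 0)) (xa T4.l6 T4.l6)
  (TrL.c (I.pos (nat_lit 0) (nat_lit 0)) (xa T2.l3 T2.l3)
  (TrL.c (I.pos (nat_lit 0) (nat_lit 0)) T4.l4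
  (TrL.c (I.pos (nat_lit 0) (nat_lit 0)) (xa T2.l4 T2.l4)
  (TrL.c (I.pos (nat_lit 0) (nat_lit 0)) T4.l7
  (TrL.c (I.pos (nat_lit 0) (nat_lit 0)) (xa T2.l5 T2.l5)
  TrL.n)))))) (by decide +kernel)
theorem bx1_10 : BoxOK sI cl4 cl9 cl6 t4 t2 b1_10 :=
  box_mk (TrL.c (I.pos (nat_lit 0) (nat_lit 0)) (xb (xa (xb (xa T4.l8 T4.l8) (xa T4.l8 T4.l8)) (xb (xa T4.l8 (xb T4.l2 T4.l8)) (xa T4.l8 (xb T4.l8 T4.l8)))) (xa (xb (xa (xb T4.l8 T4.l8) (xb T4.l8 T4.l8)) (xa (xb (xs T4.l8 T4.l8) (xs T4.l8 T4.l8)) (xs T4.l8 (xb T4.l8 T4.l8)))) (xb (xa T4.l8 (xb (xs T4.l8 T4.l8) (xs T4.l8 T4.l8))) (xa (xs T4.l8 (xb T4.l8 T4.l8)) (xs (xb T4.l8 T4.l8) (xb T4.l8 (xa T4.l8 T4.l8)))))))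
  (TrL.c (I.pos (nat_lit 0) (nat_lit 0)) (xb (xa T2.l3 T2.l3) (xa (xb T2.l3 T2.l3) (xb T2.l3 T2.l3)))
  (TrL.c (I.pos (nat_lit 0) (nat_lit 0)) (xb T4.l4 T4.l4)
  (TrL.c (I.pos (nat_lit 0) (nat_lit 0)) (xb T2.l4 (xa T2.l4 T2.l4))
  (TrL.c (I.pos (nat_lit 0) (nat_lit 0)) (xb T4.l9 T4.l9)
  (TrL.c (I.pos (nat_lit 0) (nat_lit 0)) (xb (xa T2.l5 T2.l5) (xa (xb T2.l5 T2.l5) (xb T2.l5 T2.l5)))
  TrL.n)))))) (by decide +kernel)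
theorem bx1_11 : BoxOK sI cl4 cl9 cl6 t4 t2 b1_11 :=
  box_mk (TrL.c (I.pos (nat_lit 0) (nat_lit 0)) (xa (xa (xb T4.l6 (xa T4.l6 T4.l6)) (xb T4.l6 T4.l6)) (xa T4.l6 (xb T4.l6 (xa T4.l6 T4.l6))))
  (TrL.c (I.pos (nat_lit 0) (nat_lit 0)) (xa (xa T2.l4 T2.l3) T2.l3)
  (TrL.c (I.pos (nat_lit 0) (nat_lit 0)) (xa T4.l4 T4.l4)
  (TrL.c (I.pos (nat_lit 0) (nat_lit 0)) (xa (xa T2.l4 T2.l4) T2.l4)
  (TrL.c (I.pos (nat_lit 0) (nat_lit 0)) (xa T4.l7 T4.l7)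
  (TrL.c (I.pos (nat_lit 0) (nat_lit 0)) (xa (xa T2.l5 T2.l5) T2.l5)
  TrL.n)))))) (by decide +kernel)
theorem bx1_12 : BoxOK sI cl4 cl9 cl6 t4 t2 b1_12 :=
  box_mk (TrL.c (I.pos (nat_lit 0) (nat_lit 0)) (xa T4.l0 T4.l0)
  (TrL.c (I.pos (nat_lit 0) (nat_lit 0)) T2.l3
  (TrL.c (I.pos (nat_lit 0) (nat_lit 0)) T4.l4
  (TrL.c (I.pos (nat_lit 0) (nat_lit 0)) T2.l4
  (TrL.c (I.pos (nat_lit 0) (nat_lit 0)) T4.l9
  (TrL.c (I.pos (nat_lit 0) (nat_lit 0)) T2.l5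
  TrL.n)))))) (by decide +kernel)
theorem bx1_13 : BoxOK sI cl4 cl9 cl6 t4 t2 b1_13 :=
  box_mk (TrL.c (I.pos (nat_lit 0) (nat_lit 0)) (xb (xa (xb T4.l8 (xa T4.l8 T4.l8)) (xb (xa T4.l8 T4.l8) (xa T4.l8 T4.l8))) (xa (xb (xa T4.l8 T4.l8) (xa T4.l8 T4.l8)) (xa (xb T4.l8 T4.l8) (xb T4.l8 T4.l8))))
  (TrL.c (I.pos (nat_lit 0) (nat_lit 0)) (xb T2.l3 T2.l3)
  (TrL.c (I.pos (nat_lit 0) (nat_lit 0)) T4.l4
  (TrL.c (I.pos (nat_lit 0) (nat_lit 0)) (xb (xa T2.l4 T2.l4) T2.l4)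
  (TrL.c (I.pos (nat_lit 0) (nat_lit 0)) T4.l1
  (TrL.c (I.pos (nat_lit 0) (nat_lit 0)) (xb T2.l5 T2.l5)
  TrL.n)))))) (by decide +kernel)
theorem sv1 : StarV sI cl4 cl9 cl6 t4 t2 t1 :=
  (bt_n (bt_n (bt_n (bt_b bx1_0) (bt_n (bt_b bx1_1) (bt_b bx1_2))) (bt_n (bt_n (bt_b bx1_3) (bt_b bx1_4)) (bt_n (bt_b bx1_5) (bt_b bx1_6)))) (bt_n (bt_n (bt_b bx1_7) (bt_n (bt_b bx1_8) (bt_b bx1_9))) (bt_n (bt_n (bt_b bx1_10) (bt_b bx1_11)) (bt_n (bt_b bx1_12) (bt_b bx1_13)))))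
def S1 : StarD := StarD.mk cl4 cl9 cl6 4 2 t1
theorem bx2_0 : BoxOK sI cl6 cl4 cl9 t0 t5 b2_0 :=
  box_mk (TrL.c (I.pos (nat_lit 0) (nat_lit 0)) (xb (xa T0.l7 (xb T0.l0 T0.l0)) (xa (xb (xa T0.l0 T0.l0) (xa (xb T0.l0 T0.l0) (xb T0.l0 T0.l0))) (xb (xa T0.l0 T0.l0) (xa (xb T0.l0 (xs T0.l0 T0.l0)) (xs T0.l0 (xb T0.l0 T0.l0))))))
  (TrL.c (I.pos (nat_lit 0) (nat_lit 0)) (xb T5.l1 (xa T5.l1 T5.l1))
  (TrL.c (I.pos (nat_lit 0) (nat_lit 89480386)) (xR (xR T0.l1 T0.l1) (xR T0.l1 (xR T0.l1 (xb T0.l1 T0.l1))))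
  (TrL.c (I.pos (nat_lit 0) (nat_lit 41530880)) (xR T5.l2 (xR T5.l2 T5.l2))
  (TrL.c (I.pos (nat_lit 0) (nat_lit 0)) (xb (xa T5.l8 T5.l3) (xa T5.l3 T5.l3))
  (TrL.c (I.pos (nat_lit 0) (nat_lit 0)) T0.l2
  (TrL.c (I.mix (nat_lit 41527258) (nat_lit 41530880)) (xR (xR T5.l4 T5.l4) (xR T5.l4 (xR T5.l4 T5.l4)))
  (TrL.c (I.mix (nat_lit 41527258) (nat_lit 4274)) (xR T0.l3 T0.l3)
  TrL.n)))))))) (by decide +kernel)
theorem bx2_1 : BoxOK sI cl6 cl4 cl9 t0 t5 b2_1 :=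
  box_mk (TrL.c (I.pos (nat_lit 0) (nat_lit 0)) T5.l5
  (TrL.c (I.pos (nat_lit 0) (nat_lit 0)) T0.l4
  (TrL.c (I.mix (nat_lit 41527258) (nat_lit 41530880)) (xR (xR (xb T5.l6 T5.l6) T5.l6) (xR T5.l6 (xb T5.l6 T5.l6)))
  (TrL.c (I.mix (nat_lit 41527258) (nat_lit 4274)) (xR (xb T0.l5 T0.l5) T0.l11)
  TrL.n)))) (by decide +kernel)
theorem bx2_2 : BoxOK sI cl6 cl4 cl9 t0 t5 b2_2 :=
  box_mk (TrL.c (I.pos (nat_lit 0) (nat_lit 0)) (xb (xa T0.l6 T0.l7) (xa T0.l6 T0.l7))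
  (TrL.c (I.pos (nat_lit 0) (nat_lit 0)) T5.l5
  (TrL.c (I.pos (nat_lit 0) (nat_lit 89480386)) (xR T0.l11 (xR T0.l1 (xR T0.l1 T0.l1)))
  (TrL.c (I.pos (nat_lit 0) (nat_lit 41530880)) T5.l9
  (TrL.c (I.pos (nat_lit 0) (nat_lit 0)) T5.l7
  (TrL.c (I.pos (nat_lit 0) (nat_lit 0)) T0.l2
  (TrL.c (I.mix (nat_lit 41527258) (nat_lit 41530880)) (xR (xR T5.l4 T5.l4) (xR T5.l4 T5.l4))
  (TrL.c (I.mix (nat_lit 41527258) (nat_lit 4274)) T0.l11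
  TrL.n)))))))) (by decide +kernel)
theorem bx2_3 : BoxOK sI cl6 cl4 cl9 t0 t5 b2_3 :=
  box_mk (TrL.c (I.pos (nat_lit 0) (nat_lit 0)) (xa (xb (xa (xb T0.l7 T0.l7) T0.l7) (xa T0.l7 T0.l7)) (xb (xa T0.l7 T0.l7) T0.l7))
  (TrL.c (I.pos (nat_lit 0) (nat_lit 0)) (xa T5.l1 T5.l1)
  (TrL.c (I.pos (nat_lit 0) (nat_lit 89480386)) (xR (xR T0.l11 T0.l11) (xR T0.l1 (xa (xb T0.l1 T0.l1) T0.l1)))
  (TrL.c (I.pos (nat_lit 0) (nat_lit 41530880)) (xR T5.l6 (xR T5.l6 T5.l2))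
  (TrL.c (I.pos (nat_lit 0) (nat_lit 0)) (xa T5.l8 T5.l8)
  (TrL.c (I.pos (nat_lit 0) (nat_lit 0)) T0.l2
  (TrL.c (I.mix (nat_lit 41527258) (nat_lit 41530880)) (xR (xR (xR T5.l4 T5.l4) T5.l9) (xR T5.l4 (xR T5.l4 T5.l4)))
  (TrL.c (I.mix (nat_lit 41527258) (nat_lit 4274)) (xR (xR T0.l3 T0.l3) (xR T0.l3 T0.l3))
  TrL.n)))))))) (by decide +kernel)
theorem bx2_4 : BoxOK sI cl6 cl4 cl9 t0 t5 b2_4 :=
  box_mk (TrL.c (I.pos (nat_lit 0) (nat_lit 0)) (xb (xa (xb (xb (xa (xs T0.l7 (xb (xa T0.l7 T0.l7) T0.l7)) T0.l7) T0.l7) (xa T0.l7 T0.l7)) (xb (xa T0.l7 T0.l7) (xa T0.l7 T0.l7))) (xa (xb (xa T0.l7 T0.l7) (xa (xb T0.l7 T0.l7) (xb T0.l7 (xa T0.l7 T0.l7)))) (xb (xa T0.l7 T0.l7) (xa (xb T0.l7 (xa T0.l7 T0.l7)) (xb T0.l7 (xa T0.l7 T0.l7))))))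
  (TrL.c (I.pos (nat_lit 0) (nat_lit 0)) (xb (xa T5.l1 T5.l1) (xa T5.l1 T5.l1))
  (TrL.c (I.pos (nat_lit 0) (nat_lit 89480386)) (xR (xR (xb (xR T0.l1 T0.l1) T0.l1) (xb (xR T0.l1 T0.l1) T0.l1)) (xR (xb T0.l1 (xR T0.l1 T0.l1)) (xb (xR T0.l1 T0.l1) (xa (xR T0.l1 T0.l1) (xR T0.l1 T0.l1)))))
  (TrL.c (I.pos (nat_lit 0) (nat_lit 41530880)) (xR T5.l2 (xb (xR T5.l2 T5.l2) (xR T5.l2 T5.l2)))
  (TrL.c (I.pos (nat_lit 0) (nat_lit 0)) (xb (xa T5.l8 (xb T5.l8 T5.l8)) (xa (xb T5.l8 (xb T5.l8 (xs T5.l8 (xa T5.l8 T5.l3)))) (xb (xb T5.l3 T5.l3) (xb (xs T5.l3 (xa T5.l3 T5.l3)) (xs (xa T5.l3 (xs T5.l3 T5.l3)) (xa T5.l3 (xb (xs T5.l3 T5.l3) (xs T5.l3 (xa T5.l3 T5.l3)))))))))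
  (TrL.c (I.pos (nat_lit 0) (nat_lit 0)) (xb T0.l2 T0.l2)
  (TrL.c (I.mix (nat_lit 41527258) (nat_lit 41530880)) (xR (xR (xb (xR T5.l4 T5.l4) (xR T5.l4 T5.l4)) T5.l4) (xR T5.l4 (xb T5.l9 (xR T5.l4 T5.l4))))
  (TrL.c (I.mix (nat_lit 41527258) (nat_lit 4274)) (xR (xb (xR T0.l3 T0.l3) (xR T0.l3 T0.l3)) (xb (xR T0.l3 T0.l3) T0.l3))
  TrL.n)))))))) (by decide +kernel)
theorem bx2_5 : BoxOK sI cl6 cl4 cl9 t0 t5 b2_5 :=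
  box_mk (TrL.c (I.pos (nat_lit 0) (nat_lit 0)) (xa T5.l1 T5.l1)
  (TrL.c (I.pos (nat_lit 0) (nat_lit 0)) T0.l4
  (TrL.c (I.mix (nat_lit 41527258) (nat_lit 41530880)) (xR (xR (xR T5.l6 T5.l6) T5.l6) (xR T5.l6 (xR T5.l6 T5.l2)))
  (TrL.c (I.mix (nat_lit 41527258) (nat_lit 4274)) (xR (xb (xa T0.l5 T0.l5) (xa T0.l5 T0.l5)) T0.l11)
  TrL.n)))) (by decide +kernel)
theorem bx2_6 : BoxOK sI cl6 cl4 cl9 t0 t5 b2_6 :=
  box_mk (TrL.c (I.pos (nat_lit 0) (nat_lit 0)) (xa (xb (xa (xb T0.l10 T0.l0) T0.l0) (xa (xb T0.l0 T0.l0) (xb T0.l0 T0.l0))) (xb (xa T0.l0 (xb (xc T0.l0 (xa T0.l0 T0.l0)) (xc T0.l0 T0.l0))) (xa T0.l0 (xb (xa T0.l0 T0.l0) (xa T0.l0 (xc T0.l0 T0.l0))))))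
  (TrL.c (I.pos (nat_lit 0) (nat_lit 0)) (xa T5.l1 (xb T5.l10 T5.l10))
  (TrL.c (I.pos (nat_lit 0) (nat_lit 89480386)) (xR (xR (xR T0.l1 T0.l1) (xR T0.l1 T0.l1)) (xR T0.l1 (xa T0.l1 (xR T0.l1 T0.l1))))
  (TrL.c (I.pos (nat_lit 0) (nat_lit 41530880)) (xR T5.l11 (xR T5.l2 T5.l2))
  (TrL.c (I.pos (nat_lit 0) (nat_lit 0)) (xa (xb (xa T5.l3 T5.l3) T5.l3) (xb (xa T5.l3 (xb T5.l3 T5.l3)) (xa T5.l3 (xb T5.l3 T5.l3))))
  (TrL.c (I.pos (nat_lit 0) (nat_lit 0)) (xa T0.l2 T0.l2)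
  (TrL.c (I.mix (nat_lit 41527258) (nat_lit 41530880)) (xR (xR (xR T5.l4 T5.l4) T5.l9) (xR T5.l4 (xR T5.l4 (xb T5.l9 T5.l4))))
  (TrL.c (I.mix (nat_lit 41527258) (nat_lit 4274)) (xR (xR T0.l3 T0.l3) (xR T0.l3 T0.l3))
  TrL.n)))))))) (by decide +kernel)
theorem bx2_7 : BoxOK sI cl6 cl4 cl9 t0 t5 b2_7 :=
  box_mk (TrL.c (I.pos (nat_lit 0) (nat_lit 0)) (xb (xa T0.l6 T0.l6) (xa T0.l6 T0.l6))
  (TrL.c (I.pos (nat_lit 0) (nat_lit 0)) T5.l1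
  (TrL.c (I.pos (nat_lit 0) (nat_lit 89480386)) (xR T0.l11 (xR T0.l1 (xb T0.l1 T0.l1)))
  (TrL.c (I.pos (nat_lit 0) (nat_lit 41530880)) T5.l4
  (TrL.c (I.pos (nat_lit 0) (nat_lit 0)) T5.l8
  (TrL.c (I.pos (nat_lit 0) (nat_lit 0)) T0.l2
  (TrL.c (I.mix (nat_lit 41527258) (nat_lit 41530880)) (xR T5.l6 T5.l4)
  (TrL.c (I.mix (nat_lit 41527258) (nat_lit 4274)) T0.l11
  TrL.n)))))))) (by decide +kernel)
theorem bx2_8 : BoxOK sI cl6 cl4 cl9 t0 t5 b2_8 :=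
  box_mk (TrL.c (I.pos (nat_lit 0) (nat_lit 0)) (xb (xa T0.l0 T0.l0) (xa (xb T0.l0 (xa T0.l0 T0.l0)) (xb T0.l0 (xa T0.l0 T0.l0))))
  (TrL.c (I.pos (nat_lit 0) (nat_lit 0)) T5.l1
  (TrL.c (I.pos (nat_lit 0) (nat_lit 89480386)) (xR (xR T0.l1 T0.l1) (xR T0.l1 T0.l1))
  (TrL.c (I.pos (nat_lit 0) (nat_lit 41530880)) (xR T5.l2 T5.l2)
  (TrL.c (I.pos (nat_lit 0) (nat_lit 0)) (xb T5.l3 T5.l3)
  (TrL.c (I.pos (nat_lit 0) (nat_lit 0)) T0.l2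
  (TrL.c (I.mix (nat_lit 41527258) (nat_lit 41530880)) (xR (xR T5.l4 T5.l4) T5.l9)
  (TrL.c (I.mix (nat_lit 41527258) (nat_lit 4274)) (xR T0.l3 T0.l3)
  TrL.n)))))))) (by decide +kernel)
theorem bx2_9 : BoxOK sI cl6 cl4 cl9 t0 t5 b2_9 :=
  box_mk (TrL.c (I.pos (nat_lit 0) (nat_lit 0)) T0.l6
  (TrL.c (I.pos (nat_lit 0) (nat_lit 0)) T5.l1
  (TrL.c (I.pos (nat_lit 0) (nat_lit 89480386)) (xR T0.l11 T0.l1)
  (TrL.c (I.pos (nat_lit 0) (nat_lit 41530880)) T5.l9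
  (TrL.c (I.pos (nat_lit 0) (nat_lit 0)) T5.l7
  (TrL.c (I.pos (nat_lit 0) (nat_lit 0)) T0.l2
  (TrL.c (I.mix (nat_lit 41527258) (nat_lit 41530880)) (xR (xR T5.l4 T5.l4) T5.l4)
  (TrL.c (I.mix (nat_lit 41527258) (nat_lit 4274)) T0.l11
  TrL.n)))))))) (by decide +kernel)
theorem sv2 : StarV sI cl6 cl4 cl9 t0 t5 t2 :=
  (bt_n (bt_n (bt_n (bt_b bx2_0) (bt_b bx2_1)) (bt_n (bt_b bx2_2) (bt_n (bt_b bx2_3) (bt_b bx2_4)))) (bt_n (bt_n (bt_b bx2_5) (bt_b bx2_6)) (bt_n (bt_b bx2_7) (bt_n (bt_b bx2_8) (bt_b bx2_9)))))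
def S2 : StarD := StarD.mk cl6 cl4 cl9 0 5 t2
theorem bx3_0 : BoxOK sI cl6 cl9 cl4 t5 t0 b3_0 :=
  box_mk (TrL.c (I.pos (nat_lit 0) (nat_lit 0)) (xa (xb (xa T5.l13 (xb T5.l13 T5.l13)) (xa (xb T5.l13 (xs (xa T5.l13 T5.l13) (xa T5.l13 T5.l13))) (xb T5.l13 (xs T5.l13 T5.l13)))) (xb (xa (xb (xa T5.l0 T5.l0) (xa T5.l0 T5.l0)) (xb T5.l0 (xs T5.l0 T5.l0))) (xa (xb (xs T5.l0 (xa T5.l0 T5.l0)) (xs (xa T5.l0 T5.l0) (xa T5.l13 (xc T5.l0 T5.l0)))) (xs (xb T5.l0 T5.l0) (xb (xa T5.l0 T5.l0) (xa T5.l0 T5.l0))))))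
  (TrL.c (I.pos (nat_lit 0) (nat_lit 0)) (xa T0.l8 (xb T0.l8 T0.l8))
  (TrL.c (I.pos (nat_lit 0) (nat_lit 89480386)) (xR (xR T5.l4 (xR T5.l9 T5.l9)) (xR T5.l9 T5.l9))
  (TrL.c (I.pos (nat_lit 0) (nat_lit 41530880)) (xR T0.l3 (xR T0.l9 T0.l9))
  (TrL.c (I.pos (nat_lit 0) (nat_lit 0)) (xa T0.l10 T0.l10)
  (TrL.c (I.pos (nat_lit 0) (nat_lit 0)) T5.l10
  (TrL.c (I.mix (nat_lit 41527258) (nat_lit 41530880)) (xR (xR (xR T0.l11 T0.l11) T0.l11) T0.l1)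
  (TrL.c (I.mix (nat_lit 41527258) (nat_lit 4274)) (xR T5.l11 T5.l2)
  TrL.n)))))))) (by decide +kernel)
theorem bx3_1 : BoxOK sI cl6 cl9 cl4 t5 t0 b3_1 :=
  box_mk (TrL.c (I.pos (nat_lit 0) (nat_lit 0)) (xa (xb (xa T5.l12 T5.l12) (xa T5.l12 T5.l12)) (xb (xa (xb T5.l12 T5.l12) T5.l0) (xa T5.l12 T5.l0)))
  (TrL.c (I.pos (nat_lit 0) (nat_lit 0)) (xa T0.l8 T0.l8)
  (TrL.c (I.pos (nat_lit 0) (nat_lit 89480386)) (xR (xR T5.l9 (xR T5.l9 T5.l9)) (xR T5.l9 T5.l9))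
  (TrL.c (I.pos (nat_lit 0) (nat_lit 41530880)) (xR T0.l9 T0.l9)
  (TrL.c (I.pos (nat_lit 0) (nat_lit 0)) (xa T0.l12 T0.l12)
  (TrL.c (I.pos (nat_lit 0) (nat_lit 0)) T5.l10
  (TrL.c (I.mix (nat_lit 41527258) (nat_lit 41530880)) (xR (xR T0.l11 T0.l11) T0.l11)
  (TrL.c (I.mix (nat_lit 41527258) (nat_lit 4274)) (xR T5.l11 T5.l11)
  TrL.n)))))))) (by decide +kernel)
theorem bx3_2 : BoxOK sI cl6 cl9 cl4 t5 t0 b3_2 :=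
  box_mk (TrL.c (I.pos (nat_lit 0) (nat_lit 0)) (xa T5.l12 T5.l12)
  (TrL.c (I.pos (nat_lit 0) (nat_lit 0)) (xa T0.l8 T0.l8)
  (TrL.c (I.pos (nat_lit 0) (nat_lit 89480386)) (xR T5.l9 (xR T5.l9 T5.l9))
  (TrL.c (I.pos (nat_lit 0) (nat_lit 41530880)) (xR (xa T0.l1 T0.l9) (xa T0.l9 T0.l9))
  (TrL.c (I.pos (nat_lit 0) (nat_lit 0)) (xa T0.l12 T0.l12)
  (TrL.c (I.pos (nat_lit 0) (nat_lit 0)) T5.l10
  (TrL.c (I.mix (nat_lit 41527258) (nat_lit 41530880)) (xR T0.l11 (xR T0.l11 (xa T0.l11 T0.l11)))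
  (TrL.c (I.mix (nat_lit 41527258) (nat_lit 4274)) T5.l11
  TrL.n)))))))) (by decide +kernel)
theorem bx3_3 : BoxOK sI cl6 cl9 cl4 t5 t0 b3_3 :=
  box_mk (TrL.c (I.pos (nat_lit 0) (nat_lit 0)) (xb (xa (xb (xa (xb T5.l13 T5.l13) (xs T5.l13 T5.l13)) (xa T5.l13 T5.l13)) (xb (xa (xs T5.l13 (xb T5.l13 T5.l13)) (xb T5.l13 T5.l13)) (xa T5.l13 (xs T5.l13 (xb T5.l13 T5.l13))))) (xa (xb (xa (xs T5.l13 T5.l13) T5.l13) (xa (xs (xb T5.l13 T5.l13) (xb T5.l13 T5.l13)) (xs T5.l13 (xb T5.l13 T5.l13)))) (xb (xa T5.l13 (xs T5.l13 (xb T5.l13 T5.l13))) (xa (xs T5.l13 T5.l13) (xs T5.l13 (xb (xa T5.l13 T5.l13) (xa T5.l13 T5.l13)))))))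
  (TrL.c (I.pos (nat_lit 0) (nat_lit 0)) (xb T0.l8 (xa T0.l8 T0.l8))
  (TrL.c (I.pos (nat_lit 0) (nat_lit 89480386)) (xR (xR T5.l9 (xR T5.l9 T5.l9)) (xR T5.l9 (xR T5.l9 (xb T5.l9 T5.l9))))
  (TrL.c (I.pos (nat_lit 0) (nat_lit 41530880)) (xR (xR T0.l3 T0.l9) (xR T0.l9 T0.l9))
  (TrL.c (I.pos (nat_lit 0) (nat_lit 0)) (xb T0.l13 T0.l13)
  (TrL.c (I.pos (nat_lit 0) (nat_lit 0)) T5.l10
  (TrL.c (I.mix (nat_lit 41527258) (nat_lit 41530880)) (xR (xR (xR T0.l11 T0.l11) T0.l11) (xR T0.l11 T0.l1))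
  (TrL.c (I.mix (nat_lit 41527258) (nat_lit 4274)) (xR (xR T5.l11 T5.l11) (xR T5.l11 T5.l11))
  TrL.n)))))))) (by decide +kernel)
theorem bx3_4 : BoxOK sI cl6 cl9 cl4 t5 t0 b3_4 :=
  box_mk (TrL.c (I.pos (nat_lit 0) (nat_lit 0)) (xa (xa (xb T5.l12 T5.l12) (xb T5.l12 T5.l12)) (xa (xb T5.l12 (xa T5.l12 T5.l12)) (xb T5.l12 (xa T5.l12 T5.l12))))
  (TrL.c (I.pos (nat_lit 0) (nat_lit 0)) (xa T0.l8 (xa T0.l8 T0.l8))
  (TrL.c (I.pos (nat_lit 0) (nat_lit 89480386)) (xR T5.l9 (xa (xR T5.l9 (xa T5.l9 T5.l9)) T5.l9))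
  (TrL.c (I.pos (nat_lit 0) (nat_lit 41530880)) (xa (xR T0.l9 T0.l9) T0.l9)
  (TrL.c (I.pos (nat_lit 0) (nat_lit 0)) (xa T0.l12 T0.l12)
  (TrL.c (I.pos (nat_lit 0) (nat_lit 0)) T5.l10
  (TrL.c (I.mix (nat_lit 41527258) (nat_lit 41530880)) (xR (xR (xa T0.l11 T0.l11) T0.l11) (xR T0.l11 (xa T0.l11 T0.l11)))
  (TrL.c (I.mix (nat_lit 41527258) (nat_lit 4274)) (xR (xa T5.l11 T5.l11) T5.l11)
  TrL.n)))))))) (by decide +kernel)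
theorem bx3_5 : BoxOK sI cl6 cl9 cl4 t5 t0 b3_5 :=
  box_mk (TrL.c (I.pos (nat_lit 0) (nat_lit 0)) (xb (xa (xb (xa (xs (xb T5.l13 T5.l13) (xb (xa (xs T5.l13 (xb (xd T5.l13 T5.l13) T5.l13)) (xs T5.l13 (xb T5.l13 T5.l13))) (xa T5.l13 T5.l13))) (xs (xb T5.l13 T5.l13) (xb (xa (xs T5.l13 (xb (xd T5.l13 T5.l13) T5.l13)) (xs T5.l13 (xb T5.l13 T5.l13))) (xa T5.l13 T5.l13)))) (xa (xb (xs T5.l13 T5.l13) T5.l13) (xs T5.l13 (xb T5.l13 T5.l13)))) (xb (xa (xs (xb T5.l13 T5.l13) (xb (xa (xs T5.l13 (xb T5.l13 T5.l13)) (xs T5.l13 (xb T5.l13 T5.l13))) (xa T5.l13 T5.l13))) (xs (xb T5.l13 T5.l13) (xb (xa (xs T5.l13 (xb T5.l13 T5.l13)) (xs T5.l13 (xb T5.l13 T5.l13))) (xa T5.l13 T5.l13)))) (xa (xs T5.l13 (xb T5.l13 T5.l13)) (xs T5.l13 (xb T5.l13 T5.l13))))) (xa (xb (xa T5.l13 T5.l13) (xa (xb T5.l13 T5.l13) T5.l13)) (xb (xa T5.l13 T5.l13) (xa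 T5.l13 T5.l13))))
  (TrL.c (I.pos (nat_lit 0) (nat_lit 0)) (xb T0.l8 T0.l8)
  (TrL.c (I.pos (nat_lit 0) (nat_lit 89480386)) (xR (xR T5.l4 (xR T5.l9 T5.l9)) (xR T5.l9 (xR T5.l9 T5.l9)))
  (TrL.c (I.pos (nat_lit 0) (nat_lit 41530880)) (xR (xR T0.l9 T0.l9) (xR T0.l9 T0.l9))
  (TrL.c (I.pos (nat_lit 0) (nat_lit 0)) (xb (xa T0.l13 T0.l13) T0.l13)
  (TrL.c (I.pos (nat_lit 0) (nat_lit 0)) T5.l10
  (TrL.c (I.mix (nat_lit 41527258) (nat_lit 41530880)) (xR (xR (xR T0.l11 T0.l11) T0.l11) (xR T0.l1 T0.l1))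
  (TrL.c (I.mix (nat_lit 41527258) (nat_lit 4274)) (xR (xR T5.l11 T5.l11) T5.l11)
  TrL.n)))))))) (by decide +kernel)
theorem bx3_6 : BoxOK sI cl6 cl9 cl4 t5 t0 b3_6 :=
  box_mk (TrL.c (I.pos (nat_lit 0) (nat_lit 0)) (xa T5.l12 T5.l12)
  (TrL.c (I.pos (nat_lit 0) (nat_lit 0)) (xa T0.l8 T0.l8)
  (TrL.c (I.pos (nat_lit 0) (nat_lit 89480386)) (xR T5.l9 (xR T5.l9 (xa T5.l9 T5.l9)))
  (TrL.c (I.pos (nat_lit 0) (nat_lit 41530880)) (xa T0.l11 T0.l9)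
  (TrL.c (I.pos (nat_lit 0) (nat_lit 0)) (xa T0.l12 T0.l12)
  (TrL.c (I.pos (nat_lit 0) (nat_lit 0)) T5.l10
  (TrL.c (I.mix (nat_lit 41527258) (nat_lit 41530880)) (xR T0.l11 (xR T0.l11 (xa T0.l11 T0.l11)))
  (TrL.c (I.mix (nat_lit 41527258) (nat_lit 4274)) (xR (xa T5.l11 T5.l11) T5.l11)
  TrL.n)))))))) (by decide +kernel)
theorem bx3_7 : BoxOK sI cl6 cl9 cl4 t5 t0 b3_7 :=
  box_mk (TrL.c (I.pos (nat_lit 0) (nat_lit 0)) (xa (xb T5.l12 T5.l12) T5.l13)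
  (TrL.c (I.pos (nat_lit 0) (nat_lit 0)) T0.l8
  (TrL.c (I.pos (nat_lit 0) (nat_lit 89480386)) (xR (xR T5.l9 T5.l9) (xR T5.l9 T5.l9))
  (TrL.c (I.pos (nat_lit 0) (nat_lit 41530880)) (xR T0.l9 T0.l9)
  (TrL.c (I.pos (nat_lit 0) (nat_lit 0)) T0.l12
  (TrL.c (I.pos (nat_lit 0) (nat_lit 0)) T5.l10
  (TrL.c (I.mix (nat_lit 41527258) (nat_lit 41530880)) (xR (xR T0.l11 T0.l11) T0.l11)
  (TrL.c (I.mix (nat_lit 41527258) (nat_lit 4274)) (xR T5.l11 T5.l11)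
  TrL.n)))))))) (by decide +kernel)
theorem bx3_8 : BoxOK sI cl6 cl9 cl4 t5 t0 b3_8 :=
  box_mk (TrL.c (I.pos (nat_lit 0) (nat_lit 0)) (xa T5.l13 T5.l13)
  (TrL.c (I.pos (nat_lit 0) (nat_lit 0)) T0.l8
  (TrL.c (I.pos (nat_lit 0) (nat_lit 89480386)) (xR (xR T5.l9 T5.l9) (xR T5.l9 T5.l9))
  (TrL.c (I.pos (nat_lit 0) (nat_lit 41530880)) (xR T0.l9 T0.l9)
  (TrL.c (I.pos (nat_lit 0) (nat_lit 0)) T0.l13
  (TrL.c (I.pos (nat_lit 0) (nat_lit 0)) T5.l10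
  (TrL.c (I.mix (nat_lit 41527258) (nat_lit 41530880)) (xR (xR T0.l11 T0.l11) T0.l11)
  (TrL.c (I.mix (nat_lit 41527258) (nat_lit 4274)) (xR T5.l11 T5.l11)
  TrL.n)))))))) (by decide +kernel)
theorem bx3_9 : BoxOK sI cl6 cl9 cl4 t5 t0 b3_9 :=
  box_mk (TrL.c (I.pos (nat_lit 0) (nat_lit 0)) (xa (xa T5.l12 T5.l12) (xa T5.l12 T5.l12))
  (TrL.c (I.pos (nat_lit 0) (nat_lit 0)) (xa T0.l8 T0.l8)
  (TrL.c (I.pos (nat_lit 0) (nat_lit 89480386)) (xR (xR T5.l9 T5.l9) T5.l9)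
  (TrL.c (I.pos (nat_lit 0) (nat_lit 41530880)) T0.l9
  (TrL.c (I.pos (nat_lit 0) (nat_lit 0)) T0.l12
  (TrL.c (I.pos (nat_lit 0) (nat_lit 0)) T5.l10
  (TrL.c (I.mix (nat_lit 41527258) (nat_lit 41530880)) T0.l11
  (TrL.c (I.mix (nat_lit 41527258) (nat_lit 4274)) T5.l11
  TrL.n)))))))) (by decide +kernel)
theorem bx3_10 : BoxOK sI cl6 cl9 cl4 t5 t0 b3_10 :=
  box_mk (TrL.c (I.pos (nat_lit 0) (nat_lit 0)) (xb (xa T5.l12 (xb T5.l12 T5.l12)) (xa T5.l12 T5.l12))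
  (TrL.c (I.pos (nat_lit 0) (nat_lit 0)) (xb T0.l8 T0.l8)
  (TrL.c (I.pos (nat_lit 0) (nat_lit 89480386)) (xR (xR T5.l9 T5.l9) (xR T5.l9 T5.l9))
  (TrL.c (I.pos (nat_lit 0) (nat_lit 41530880)) (xR T0.l9 T0.l9)
  (TrL.c (I.pos (nat_lit 0) (nat_lit 0)) (xb T0.l12 T0.l12)
  (TrL.c (I.pos (nat_lit 0) (nat_lit 0)) T5.l10
  (TrL.c (I.mix (nat_lit 41527258) (nat_lit 41530880)) (xR (xR T0.l11 T0.l11) T0.l11)
  (TrL.c (I.mix (nat_lit 41527258) (nat_lit 4274)) (xR T5.l11 T5.l11)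
  TrL.n)))))))) (by decide +kernel)
theorem bx3_11 : BoxOK sI cl6 cl9 cl4 t5 t0 b3_11 :=
  box_mk (TrL.c (I.pos (nat_lit 0) (nat_lit 0)) (xa (xa T5.l12 T5.l12) T5.l12)
  (TrL.c (I.pos (nat_lit 0) (nat_lit 0)) (xa T0.l8 T0.l8)
  (TrL.c (I.pos (nat_lit 0) (nat_lit 89480386)) (xR T5.l9 (xR T5.l9 (xa (xR T5.l9 T5.l9) T5.l9)))
  (TrL.c (I.pos (nat_lit 0) (nat_lit 41530880)) (xR (xa T0.l1 T0.l9) (xa T0.l11 T0.l9))
  (TrL.c (I.pos (nat_lit 0) (nat_lit 0)) (xa T0.l12 T0.l12)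
  (TrL.c (I.pos (nat_lit 0) (nat_lit 0)) T5.l10
  (TrL.c (I.mix (nat_lit 41527258) (nat_lit 41530880)) (xR T0.l11 (xR T0.l11 (xa T0.l11 T0.l11)))
  (TrL.c (I.mix (nat_lit 41527258) (nat_lit 4274)) (xR (xa T5.l11 T5.l11) (xa T5.l11 T5.l11))
  TrL.n)))))))) (by decide +kernel)
theorem c3_12_0 : chkTag sI cl6 cl9 cl4 t5 b3_12 (tg true true false RT.r2) (I.pos (nat_lit 0) (nat_lit 0))
  (xa (xb (xa (xb (xa T5.l0 T5.l0) (xa T5.l0 T5.l0)) (xb (xa (xc T5.l0 T5.l0) (xc T5.l3 T5.l3)) (xa (xc T5.l0 T5.l0) (xc T5.l3 T5.l3)))) (xa (xb (xa (xc T5.l0 T5.l0) T5.l0) (xa (xc T5.l13 (xs T5.l0 T5.l0)) (xc (xs T5.l0 T5.l0) (xs T5.l0 T5.l0)))) (xb (xa (xc T5.l0 T5.l0) (xc (xs T5.l0 T5.l0) (xs T5.l0 T5.l3))) (xa (xc T5.l0 (xs T5.l0 T5.l0)) (xs (xc T5.l0 T5.l0) (xc T5.l3 T5.l3)))))) (xb (xa (xb T5.l3 (xa T5.l3 T5.l3)) (xb (xa T5.l3 (xs T5.l3 (xc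 T5.l3 T5.l3))) (xa T5.l3 (xs T5.l3 (xc T5.l3 T5.l3))))) (xa (xb (xa T5.l3 T5.l3) (xa (xs T5.l3 T5.l3) T5.l3)) (xb (xa T5.l3 (xs T5.l3 (xc T5.l3 T5.l3))) (xa (xs T5.l3 T5.l3) (xs T5.l3 (xc T5.l3 (xb T5.l3 T5.l3)))))))) = true := by decide +kernel
theorem c3_12_1 : chkTag sI cl6 cl9 cl4 t0 b3_12 (tg true false false RT.r3) (I.pos (nat_lit 0) (nat_lit 0))
  (xa (xb (xa T0.l8 T0.l8) (xa T0.l8 T0.l8)) (xb (xa T0.l2 T0.l2) (xa T0.l2 T0.l2))) = true := by decide +kernel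
theorem c3_12_2 : chkTag sI cl6 cl9 cl4 t5 b3_12 (Tag.mk true true false RT.tl RT.r4) (I.pos (nat_lit 0) (nat_lit 89480386))
  (xR (xR (xR T5.l4 T5.l9) (xR (xa T5.l9 T5.l9) (xa T5.l9 T5.l9))) (xR (xR (xa T5.l9 T5.l9) (xa T5.l9 T5.l9)) (xa T5.l9 (xR T5.l9 (xb T5.l9 (xa T5.l9 T5.l9)))))) = true := by decide +kernel
theorem c3_12_3 : chkTag sI cl6 cl9 cl4 t0 b3_12 (Tag.mk true false false RT.tl RT.r5) (I.pos (nat_lit 0) (nat_lit 41530880))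
  (xR (xR T0.l3 T0.l9) (xR T0.l9 (xa T0.l9 T0.l9))) = true := by decide +kernel
theorem c3_12_4 : chkTag sI cl6 cl9 cl4 t0 b3_12 (tg false false false RT.r3) (I.pos (nat_lit 0) (nat_lit 0))
  (xa (xb (xa T0.l13 T0.l10) T0.l10) (xb (xa T0.l10 (xb T0.l10 T0.l10)) (xa T0.l10 (xb T0.l10 T0.l10)))) = true := by decide +kernel
theorem c3_12_5 : chkTag sI cl6 cl9 cl4 t5 b3_12 (tg false true false RT.r4) (I.pos (nat_lit 0) (nat_lit 0))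
  (xa T5.l10 (xb T5.l1 T5.l10)) = true := by decide +kernel
theorem c3_12_6 : chkTag sI cl6 cl9 cl4 t0 b3_12 (Tag.mk false false false RT.tl RT.r5) (I.mix (nat_lit 41527258) (nat_lit 41530880))
  (xR (xR (xR (xa T0.l11 T0.l11) T0.l11) T0.l11) (xR T0.l1 T0.l1)) = true := by decide +kernel
theorem c3_12_7 : chkTag sI cl6 cl9 cl4 t5 b3_12 (Tag.mk false true false RT.tl RT.r6) (I.mix (nat_lit 41527258) (nat_lit 4274))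
  (xR (xR (xa T5.l11 T5.l11) T5.l11) (xR T5.l11 T5.l2)) = true := by decide +kernel
theorem bx3_12 : BoxOK sI cl6 cl9 cl4 t5 t0 b3_12 :=
  box_mk' [(tg true true false RT.r2), (tg true false false RT.r3), (Tag.mk true true false RT.tl RT.r4), (Tag.mk true false false RT.tl RT.r5), (tg false false false RT.r3), (tg false true false RT.r4), (Tag.mk false false false RT.tl RT.r5), (Tag.mk false true false RT.tl RT.r6)] rfl (allL_c (ex_mk c3_12_0) (allL_c (ex_mk c3_12_1) (allL_c (ex_mk c3_12_2) (allL_c (ex_mk c3_12_3) (allL_c (ex_mk c3_12_4) (allL_c (ex_mk c3_12_5) (allL_c (ex_mk c3_12_6) (allL_c (ex_mk c3_12_7) allL_n))))))))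
theorem bx3_13 : BoxOK sI cl6 cl9 cl4 t5 t0 b3_13 :=
  box_mk (TrL.c (I.pos (nat_lit 0) (nat_lit 0)) (xa (xb (xa (xb T5.l13 T5.l13) (xs T5.l0 (xb T5.l0 T5.l0))) (xa (xs T5.l13 T5.l13) (xs T5.l13 (xb T5.l0 (xa T5.l13 T5.l13))))) (xb (xa (xs T5.l0 (xb T5.l0 T5.l0)) (xs T5.l0 (xb T5.l0 T5.l0))) (xa (xs (xb T5.l0 T5.l0) (xb T5.l0 (xa T5.l0 T5.l0))) (xs (xb T5.l0 T5.l0) (xb (xs T5.l0 T5.l0) (xa T5.l0 T5.l0))))))
  (TrL.c (I.pos (nat_lit 0) (nat_lit 0)) (xa T0.l8 T0.l8)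
  (TrL.c (I.pos (nat_lit 0) (nat_lit 89480386)) (xR (xR T5.l4 (xR T5.l9 T5.l9)) (xR T5.l9 (xR T5.l9 T5.l9)))
  (TrL.c (I.pos (nat_lit 0) (nat_lit 41530880)) (xR T0.l3 (xR T0.l9 T0.l9))
  (TrL.c (I.pos (nat_lit 0) (nat_lit 0)) (xa T0.l10 T0.l10)
  (TrL.c (I.pos (nat_lit 0) (nat_lit 0)) T5.l10
  (TrL.c (I.mix (nat_lit 41527258) (nat_lit 41530880)) (xR (xR (xR T0.l11 T0.l11) T0.l11) T0.l1)
  (TrL.c (I.mix (nat_lit 41527258) (nat_lit 4274)) (xR T5.l11 T5.l2)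
  TrL.n)))))))) (by decide +kernel)
theorem sv3 : StarV sI cl6 cl9 cl4 t5 t0 t3 :=
  (bt_n (bt_n (bt_n (bt_b bx3_0) (bt_n (bt_b bx3_1) (bt_b bx3_2))) (bt_n (bt_n (bt_b bx3_3) (bt_b bx3_4)) (bt_n (bt_b bx3_5) (bt_b bx3_6)))) (bt_n (bt_n (bt_b bx3_7) (bt_n (bt_b bx3_8) (bt_b bx3_9))) (bt_n (bt_n (bt_b bx3_10) (bt_b bx3_11)) (bt_n (bt_b bx3_12) (bt_b bx3_13)))))
def S3 : StarD := StarD.mk cl6 cl9 cl4 5 0 t3
theorem bx4_0 : BoxOK sI cl9 cl4 cl6 t1 t3 b4_0 :=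
  box_mk (TrL.c (I.pos (nat_lit 0) (nat_lit 0)) (xa (xb (xa T1.l4 T1.l0) (xa (xb T1.l4 (xs T1.l0 (xb T1.l0 T1.l0))) (xb T1.l0 (xs T1.l0 (xa T1.l0 T1.l0))))) (xb (xa T1.l0 T1.l0) (xa (xb (xa T1.l0 T1.l0) (xs (xa T1.l0 T1.l0) (xa T1.l0 (xb T1.l0 T1.l0)))) (xb (xs T1.l0 T1.l0) (xs (xa T1.l0 T1.l0) (xa (xb T1.l0 T1.l0) (xb T1.l0 T1.l0)))))))
  (TrL.c (I.pos (nat_lit 0) (nat_lit 0)) (xa (xb T3.l1 (xk T3.l1 T3.l1)) (xk (xb T3.l1 T3.l1) T3.l1))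
  (TrL.c (I.pos (nat_lit 0) (nat_lit 124588530)) (xR (xR T1.l11 T1.l1) (xR T1.l1 (xR T1.l1 (xa T1.l1 T1.l11))))
  (TrL.c (I.pos (nat_lit 0) (nat_lit 96881482)) (xR (xR T3.l2 T3.l2) (xR T3.l2 T3.l2))
  (TrL.c (I.pos (nat_lit 0) (nat_lit 0)) (xa (xb T3.l3 (xb T3.l3 (xk T3.l3 (xs T3.l3 T3.l3)))) (xb (xk T3.l3 T3.l3) (xk (xb T3.l3 (xs (xa T3.l3 T3.l3) (xa T3.l3 (xb T3.l3 T3.l3)))) (xb (xa T3.l3 T3.l3) (xs (xa T3.l3 (xb T3.l3 T3.l3)) (xa T3.l3 (xb T3.l3 (xk T3.l3 T3.l3))))))))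
  (TrL.c (I.pos (nat_lit 0) (nat_lit 0)) (xb T1.l2 T1.l2)
  (TrL.c (I.mix (nat_lit 17240550) (nat_lit 96881482)) (xR (xR (xR T3.l4 T3.l4) T3.l4) (xR T3.l4 (xR T3.l4 (xk T3.l4 T3.l4))))
  (TrL.c (I.mix (nat_lit 17240550) (nat_lit 71940500)) (xR T1.l11 (xR T1.l3 (xR T1.l3 T1.l3)))
  TrL.n)))))))) (by decide +kernel)
theorem bx4_1 : BoxOK sI cl9 cl4 cl6 t1 t3 b4_1 :=
  box_mk (TrL.c (I.pos (nat_lit 0) (nat_lit 0)) (xa (xb (xa (xb T1.l4 T1.l4) T1.l4) (xa T1.l4 T1.l4)) (xb T1.l4 T1.l4))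
  (TrL.c (I.pos (nat_lit 0) (nat_lit 0)) (xa T3.l1 T3.l1)
  (TrL.c (I.pos (nat_lit 0) (nat_lit 124588530)) (xR (xR T1.l11 T1.l1) (xR T1.l1 (xR T1.l1 (xa T1.l1 T1.l1))))
  (TrL.c (I.pos (nat_lit 0) (nat_lit 96881482)) (xR (xR T3.l4 T3.l4) (xR T3.l6 (xR T3.l6 T3.l2)))
  (TrL.c (I.pos (nat_lit 0) (nat_lit 0)) (xa T3.l5 (xb (xk T3.l5 T3.l5) T3.l5))
  (TrL.c (I.pos (nat_lit 0) (nat_lit 0)) T1.l2
  (TrL.c (I.mix (nat_lit 17240550) (nat_lit 96881482)) (xR T3.l4 (xR T3.l4 (xR T3.l4 T3.l4)))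
  (TrL.c (I.mix (nat_lit 17240550) (nat_lit 71940500)) (xR T1.l3 T1.l11)
  TrL.n)))))))) (by decide +kernel)
theorem c4_2_0 : chkTag sI cl9 cl4 cl6 t1 b4_2 (tg true true false RT.r2) (I.pos (nat_lit 0) (nat_lit 0))
  (xb (xa (xb (xb (xa (xs T1.l4 (xb (xa T1.l4 T1.l4) T1.l4)) (xs T1.l4 (xb (xa T1.l4 T1.l0) T1.l4))) (xa T1.l4 T1.l4)) (xb T1.l4 T1.l4)) (xb (xa (xb (xs T1.l4 (xb T1.l0 T1.l4)) T1.l4) (xb T1.l0 T1.l4)) (xa T1.l4 T1.l4))) (xa (xb (xa T1.l4 T1.l4) (xa (xb T1.l4 (xs T1.l4 T1.l4)) (xb T1.l4 (xs T1.l4 T1.l4)))) (xb (xa T1.l4 (xb T1.l4 T1.l4)) (xa (xb T1.l4 (xs T1.l4 (xa T1.l4 T1.l4))) (xb T1.l4 (xs T1.l4 (xa T1.l4 T1.l4))))))) = true := by decide +kernel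
theorem c4_2_1 : chkTag sI cl9 cl4 cl6 t3 b4_2 (tg true false false RT.r3) (I.pos (nat_lit 0) (nat_lit 0))
  (xb (xa T3.l1 T3.l1) (xa (xk T3.l1 T3.l1) (xk T3.l1 T3.l1))) = true := by decide +kernel
theorem c4_2_2 : chkTag sI cl9 cl4 cl6 t1 b4_2 (Tag.mk true true false RT.tl RT.r4) (I.pos (nat_lit 0) (nat_lit 124588530))
  (xR (xR T1.l11 T1.l1) (xR T1.l1 (xb (xR T1.l1 T1.l1) (xR T1.l1 (xa T1.l1 T1.l1))))) = true := by decide +kernel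
theorem c4_2_3 : chkTag sI cl9 cl4 cl6 t3 b4_2 (Tag.mk true false false RT.tl RT.r5) (I.pos (nat_lit 0) (nat_lit 96881482))
  (xR (xR T3.l2 T3.l2) (xR T3.l2 (xb (xR T3.l2 T3.l2) (xR T3.l2 T3.l2)))) = true := by decide +kernel
def rc4_2_4_l : Tr := (xa (xb T3.l5 (xk (xb T3.l5 T3.l5) (xb T3.l5 (xa T3.l5 T3.l3)))) (xk (xb (xb T3.l5 T3.l5) (xb (xa T3.l3 T3.l5) T3.l3)) (xb (xb T3.l5 T3.l5) (xb (xa T3.l3 (xk T3.l3 T3.l3)) T3.l3))))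
theorem qc4_2_4_l : chkTr (tg false false false RT.r3) b4_2 t3 rc4_2_4_l
  (upd lo Co.b (rc sI cl9 cl4 cl6 b4_2 (I.pos (nat_lit 0) (nat_lit 0)))) = true := by decide +kernel
def rc4_2_4_rl : Tr := (xb (xk (xb T3.l3 T3.l3) (xb T3.l3 (xa T3.l3 T3.l3))) (xk (xb (xs T3.l3 (xa T3.l3 (xk T3.l3 T3.l3))) (xs (xa T3.l3 (xk T3.l3 T3.l3)) (xa (xk T3.l3 T3.l3) (xk (xb T3.l3 (xs T3.l3 T3.l3)) (xb T3.l3 (xs T3.l3 (xa T3.l3 T3.l3))))))) (xb (xa (xs T3.l3 T3.l3) (xs T3.l3 (xk T3.l3 (xb T3.l3 T3.l3)))) (xs (xa T3.l3 (xk (xb T3.l3 T3.l3) (xb T3.l3 (xs T3.l3 T3.l3)))) (xa (xk (xb T3.l3 T3.l3) (xb T3.l3 (xs T3.l3 T3.l3))) (xk (xb (xs T3.l3 T3.l3) (xs T3.l3 (xa T3.l3 (xk T3.l3 T3.l3)))) (xb (xa T3.l3 (xs T3.l3 T3.l3)) (xs (xa T3.l3 T3.l3) (xa (xk T3.l3 T3.l3) (xk T3.l3 (xc T3.l3 T3.l3)))))))))))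
theorem qc4_2_4_rl : chkTr (tg false false false RT.r3) b4_2 t3 rc4_2_4_rl
  (upd lo Co.a (upd hi Co.b (rc sI cl9 cl4 cl6 b4_2 (I.pos (nat_lit 0) (nat_lit 0))))) = true := by decide +kernel
def rc4_2_4_rrll : Tr := (xb (xa T3.l3 (xs T3.l3 T3.l3)) (xa (xs T3.l3 T3.l3) (xs T3.l3 (xk T3.l3 (xb T3.l3 T3.l3)))))
theorem qc4_2_4_rrll : chkTr (tg false false false RT.r3) b4_2 t3 rc4_2_4_rrll
  (upd lo Co.b (upd lo Co.k (upd hi Co.a (upd hi Co.b (rc sI cl9 cl4 cl6 b4_2 (I.pos (nat_lit 0) (nat_lit 0))))))) = true := by decide +kernel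
def rc4_2_4_rrlrl : Tr := (xa (xs (xk T3.l3 T3.l3) (xk (xb T3.l3 T3.l3) (xb T3.l3 (xa T3.l3 T3.l3)))) (xs (xk (xb T3.l3 T3.l3) (xb T3.l3 (xs T3.l3 T3.l3))) (xk (xb (xa T3.l3 T3.l3) (xa T3.l3 (xs T3.l3 T3.l3))) (xb (xa T3.l3 (xs T3.l3 T3.l3)) (xa (xs T3.l3 T3.l3) (xs T3.l3 (xk T3.l0 T3.l0)))))))
theorem qc4_2_4_rrlrl : chkTr (tg false false false RT.r3) b4_2 t3 rc4_2_4_rrlrl
  (upd lo Co.b (upd hi Co.b (upd lo Co.k (upd hi Co.a (upd hi Co.b (rc sI cl9 cl4 cl6 b4_2 (I.pos (nat_lit 0) (nat_lit 0)))))))) = true := by decide +kernel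
def rc4_2_4_rrlrr : Tr := (xs (xa (xk (xb T3.l3 (xs T3.l3 T3.l3)) (xb T3.l3 (xs T3.l3 (xa T3.l3 T3.l3)))) (xk (xs (xb T3.l3 (xa T3.l3 T3.l3)) (xb (xa T3.l3 T3.l3) (xa T3.l3 (xk T3.l3 T3.l3)))) (xs (xb T3.l3 (xa T3.l3 (xk T3.l3 T3.l3))) (xb (xa T3.l3 T3.l3) (xa (xk T3.l0 T3.l0) (xk T3.l0 T3.l0)))))) (xa (xk (xb (xs T3.l3 (xa T3.l3 T3.l3)) (xs (xa T3.l3 T3.l3) (xa T3.l3 (xk T3.l3 T3.l3)))) (xb (xs T3.l3 (xa T3.l3 (xk T3.l3 T3.l3))) (xs (xa T3.l3 (xk T3.l3 T3.l3)) (xa (xk T3.l3 T3.l3) (xk (xb T3.l3 T3.l3) (xb T3.l3 (xc T3.l0 T3.l3))))))) (xk (xb (xs (xa T3.l3 (xk T3.l3 T3.l0)) (xa (xk T3.l0 T3.l0) (xk T3.l0 T3.l0))) (xs (xa (xk T3.l0 T3.l0) (xk (xb T3.l0 T3.l0) T3.l0)) (xa (xk T3.l0 T3.l0) (xk T3.l0 T3.l0)))) (xb (xs (xa T3.l3 (xk T3.l0 T3.l0)) (xa (xk T3.l0 (xb T3.l0 T3.l0)) (xk T3.l0 T3.l0))) (xs (xa (xk T3.l0 T3.l0) (xk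 T3.l0 T3.l0)) (xa (xk T3.l0 T3.l0) (xk T3.l0 T3.l0)))))))
theorem qc4_2_4_rrlrr : chkTr (tg false false false RT.r3) b4_2 t3 rc4_2_4_rrlrr
  (upd hi Co.b (upd hi Co.b (upd lo Co.k (upd hi Co.a (upd hi Co.b (rc sI cl9 cl4 cl6 b4_2 (I.pos (nat_lit 0) (nat_lit 0)))))))) = true := by decide +kernel
theorem qc4_2_4_rrlr : chkTr (tg false false false RT.r3) b4_2 t3 (Tr.N Co.b rc4_2_4_rrlrl rc4_2_4_rrlrr)
  (upd hi Co.b (upd lo Co.k (upd hi Co.a (upd hi Co.b (rc sI cl9 cl4 cl6 b4_2 (I.pos (nat_lit 0) (nat_lit 0))))))) = true := tr_split qc4_2_4_rrlrl qc4_2_4_rrlrr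
theorem qc4_2_4_rrl : chkTr (tg false false false RT.r3) b4_2 t3 (Tr.N Co.b rc4_2_4_rrll (Tr.N Co.b rc4_2_4_rrlrl rc4_2_4_rrlrr))
  (upd lo Co.k (upd hi Co.a (upd hi Co.b (rc sI cl9 cl4 cl6 b4_2 (I.pos (nat_lit 0) (nat_lit 0)))))) = true := tr_split qc4_2_4_rrll qc4_2_4_rrlr
def rc4_2_4_rrrl : Tr := (xb (xa T3.l3 (xs T3.l3 (xk T3.l3 T3.l3))) (xa (xs T3.l3 (xk T3.l3 T3.l3)) (xs (xk T3.l3 T3.l3) (xk (xb T3.l3 (xa T3.l3 T3.l3)) (xb T3.l3 (xa T3.l3 T3.l3))))))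
theorem qc4_2_4_rrrl : chkTr (tg false false false RT.r3) b4_2 t3 rc4_2_4_rrrl
  (upd lo Co.b (upd hi Co.k (upd hi Co.a (upd hi Co.b (rc sI cl9 cl4 cl6 b4_2 (I.pos (nat_lit 0) (nat_lit 0))))))) = true := by decide +kernel
def rc4_2_4_rrrrl : Tr := (xa (xs (xk T3.l3 (xb T3.l3 T3.l3)) (xk (xb T3.l3 (xa T3.l3 (xs T3.l3 T3.l3))) (xb (xa T3.l3 T3.l3) (xa T3.l3 (xs T3.l3 T3.l3))))) (xs (xk (xb T3.l3 (xs T3.l3 (xa T3.l3 T3.l3))) (xb (xa T3.l3 T3.l3) (xs T3.l3 (xa T3.l3 T3.l3)))) (xk (xb (xa T3.l3 (xs T3.l3 T3.l3)) (xa (xs T3.l3 (xk T3.l3 T3.l3)) (xs (xk T3.l0 T3.l0) (xk T3.l0 T3.l0)))) (xb (xa (xs T3.l3 T3.l3) (xs T3.l3 (xk T3.l3 T3.l3))) (xa (xs T3.l3 (xk T3.l3 (xc T3.l0 T3.l3))) (xs (xk T3.l0 T3.l0) (xk T3.l0 T3.l0)))))))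
theorem qc4_2_4_rrrrl : chkTr (tg false false false RT.r3) b4_2 t3 rc4_2_4_rrrrl
  (upd lo Co.b (upd hi Co.b (upd hi Co.k (upd hi Co.a (upd hi Co.b (rc sI cl9 cl4 cl6 b4_2 (I.pos (nat_lit 0) (nat_lit 0)))))))) = true := by decide +kernel
def rc4_2_4_rrrrrl : Tr := (xa (xk (xb (xs T3.l3 T3.l3) (xs T3.l3 (xa T3.l3 T3.l3))) (xb (xs T3.l3 (xa T3.l3 T3.l3)) (xs (xa T3.l3 T3.l3) (xa T3.l3 (xk T3.l3 T3.l3))))) (xk (xs (xb (xa T3.l3 T3.l3) (xa T3.l3 (xk T3.l0 T3.l0))) (xb (xa T3.l3 (xk T3.l0 T3.l0)) (xa T3.l0 (xk T3.l0 T3.l0)))) (xs (xb (xa T3.l3 (xk T3.l0 T3.l0)) (xa T3.l0 (xk T3.l0 T3.l0))) (xb (xa (xk T3.l0 T3.l0) (xk T3.l0 T3.l0)) (xa T3.l0 (xk T3.l0 T3.l0))))))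
theorem qc4_2_4_rrrrrl : chkTr (tg false false false RT.r3) b4_2 t3 rc4_2_4_rrrrrl
  (upd lo Co.s (upd hi Co.b (upd hi Co.b (upd hi Co.k (upd hi Co.a (upd hi Co.b (rc sI cl9 cl4 cl6 b4_2 (I.pos (nat_lit 0) (nat_lit 0))))))))) = true := by decide +kernel
def rc4_2_4_rrrrrrl : Tr := (xk (xb (xa (xs T3.l3 T3.l3) (xs T3.l3 (xk T3.l3 (xc T3.l0 T3.l3)))) (xs (xa (xk T3.l3 T3.l3) (xk T3.l3 (xb T3.l3 T3.l3))) (xa (xk (xb T3.l3 T3.l3) (xc T3.l3 T3.l3)) (xk (xb T3.l3 (xc T3.l0 T3.l3)) (xc T3.l0 (xb T3.l3 (xs T3.l3 T3.l3))))))) (xb (xa (xs T3.l3 (xk T3.l3 T3.l3)) (xs (xk T3.l3 T3.l3) (xk (xc T3.l0 T3.l3) (xc T3.l0 T3.l3)))) (xs (xa (xk T3.l3 (xc T3.l3 T3.l3)) (xk (xc T3.l0 T3.l3) (xc T3.l0 (xb T3.l3 T3.l3)))) (xa (xk (xc (xb T3.l3 T3.l3) (xb T3.l3 T3.l3)) (xc (xb T3.l3 (xs T3.l3 T3.l3)) (xb T3.l3 T3.l3))) (xk (xc T3.l0 (xb T3.l3 (xs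 T3.l3 (xa T3.l3 T3.l3)))) (xc T3.l0 (xb (xs T3.l3 T3.l3) (xs T3.l3 (xa T3.l3 T3.l3)))))))))
theorem qc4_2_4_rrrrrrl : chkTr (tg false false false RT.r3) b4_2 t3 rc4_2_4_rrrrrrl
  (upd lo Co.a (upd hi Co.s (upd hi Co.b (upd hi Co.b (upd hi Co.k (upd hi Co.a (upd hi Co.b (rc sI cl9 cl4 cl6 b4_2 (I.pos (nat_lit 0) (nat_lit 0)))))))))) = true := by decide +kernel
def rc4_2_4_rrrrrrr : Tr := (xk (xb (xa (xs (xk T3.l0 T3.l3) (xk (xb T3.l3 T3.l0) (xc T3.l0 (xb T3.l3 T3.l0)))) (xs (xk T3.l0 T3.l0) (xk T3.l0 T3.l0))) (xs (xa (xk T3.l0 T3.l0) (xk T3.l0 T3.l0)) (xa (xk T3.l0 T3.l0) (xk T3.l0 T3.l0)))) (xb (xa (xs (xk (xc T3.l0 T3.l3) (xc T3.l0 T3.l3)) (xk (xc T3.l0 (xb T3.l3 (xa T3.l0 T3.l0))) (xc T3.l0 (xb T3.l3 (xa T3.l3 T3.l0))))) (xs (xk T3.l0 T3.l0) T3.l0)) (xs (xa (xk T3.l0 T3.l0) (xk T3.l0 T3.l0)) (xa (xk T3.l0 (xc T3.l0 (xb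 T3.l0 T3.l0))) T3.l0))))
theorem qc4_2_4_rrrrrrr : chkTr (tg false false false RT.r3) b4_2 t3 rc4_2_4_rrrrrrr
  (upd hi Co.a (upd hi Co.s (upd hi Co.b (upd hi Co.b (upd hi Co.k (upd hi Co.a (upd hi Co.b (rc sI cl9 cl4 cl6 b4_2 (I.pos (nat_lit 0) (nat_lit 0)))))))))) = true := by decide +kernel
theorem qc4_2_4_rrrrrr : chkTr (tg false false false RT.r3) b4_2 t3 (Tr.N Co.a rc4_2_4_rrrrrrl rc4_2_4_rrrrrrr)
  (upd hi Co.s (upd hi Co.b (upd hi Co.b (upd hi Co.k (upd hi Co.a (upd hi Co.b (rc sI cl9 cl4 cl6 b4_2 (I.pos (nat_lit 0) (nat_lit 0))))))))) = true := tr_split qc4_2_4_rrrrrrl qc4_2_4_rrrrrrr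
theorem qc4_2_4_rrrrr : chkTr (tg false false false RT.r3) b4_2 t3 (Tr.N Co.s rc4_2_4_rrrrrl (Tr.N Co.a rc4_2_4_rrrrrrl rc4_2_4_rrrrrrr))
  (upd hi Co.b (upd hi Co.b (upd hi Co.k (upd hi Co.a (upd hi Co.b (rc sI cl9 cl4 cl6 b4_2 (I.pos (nat_lit 0) (nat_lit 0)))))))) = true := tr_split qc4_2_4_rrrrrl qc4_2_4_rrrrrr
theorem qc4_2_4_rrrr : chkTr (tg false false false RT.r3) b4_2 t3 (Tr.N Co.b rc4_2_4_rrrrl (Tr.N Co.s rc4_2_4_rrrrrl (Tr.N Co.a rc4_2_4_rrrrrrl rc4_2_4_rrrrrrr)))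
  (upd hi Co.b (upd hi Co.k (upd hi Co.a (upd hi Co.b (rc sI cl9 cl4 cl6 b4_2 (I.pos (nat_lit 0) (nat_lit 0))))))) = true := tr_split qc4_2_4_rrrrl qc4_2_4_rrrrr
theorem qc4_2_4_rrr : chkTr (tg false false false RT.r3) b4_2 t3 (Tr.N Co.b rc4_2_4_rrrl (Tr.N Co.b rc4_2_4_rrrrl (Tr.N Co.s rc4_2_4_rrrrrl (Tr.N Co.a rc4_2_4_rrrrrrl rc4_2_4_rrrrrrr))))
  (upd hi Co.k (upd hi Co.a (upd hi Co.b (rc sI cl9 cl4 cl6 b4_2 (I.pos (nat_lit 0) (nat_lit 0)))))) = true := tr_split qc4_2_4_rrrl qc4_2_4_rrrr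
theorem qc4_2_4_rr : chkTr (tg false false false RT.r3) b4_2 t3 (Tr.N Co.k (Tr.N Co.b rc4_2_4_rrll (Tr.N Co.b rc4_2_4_rrlrl rc4_2_4_rrlrr)) (Tr.N Co.b rc4_2_4_rrrl (Tr.N Co.b rc4_2_4_rrrrl (Tr.N Co.s rc4_2_4_rrrrrl (Tr.N Co.a rc4_2_4_rrrrrrl rc4_2_4_rrrrrrr)))))
  (upd hi Co.a (upd hi Co.b (rc sI cl9 cl4 cl6 b4_2 (I.pos (nat_lit 0) (nat_lit 0))))) = true := tr_split qc4_2_4_rrl qc4_2_4_rrr
theorem qc4_2_4_r : chkTr (tg false false false RT.r3) b4_2 t3 (Tr.N Co.a rc4_2_4_rl (Tr.N Co.k (Tr.N Co.b rc4_2_4_rrll (Tr.N Co.b rc4_2_4_rrlrl rc4_2_4_rrlrr)) (Tr.N Co.b rc4_2_4_rrrl (Tr.N Co.b rc4_2_4_rrrrl (Tr.N Co.s rc4_2_4_rrrrrl (Tr.N Co.a rc4_2_4_rrrrrrl rc4_2_4_rrrrrrr))))))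
  (upd hi Co.b (rc sI cl9 cl4 cl6 b4_2 (I.pos (nat_lit 0) (nat_lit 0)))) = true := tr_split qc4_2_4_rl qc4_2_4_rr
theorem qc4_2_4_ : chkTr (tg false false false RT.r3) b4_2 t3 (Tr.N Co.b rc4_2_4_l (Tr.N Co.a rc4_2_4_rl (Tr.N Co.k (Tr.N Co.b rc4_2_4_rrll (Tr.N Co.b rc4_2_4_rrlrl rc4_2_4_rrlrr)) (Tr.N Co.b rc4_2_4_rrrl (Tr.N Co.b rc4_2_4_rrrrl (Tr.N Co.s rc4_2_4_rrrrrl (Tr.N Co.a rc4_2_4_rrrrrrl rc4_2_4_rrrrrrr)))))))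
  (rc sI cl9 cl4 cl6 b4_2 (I.pos (nat_lit 0) (nat_lit 0))) = true := tr_split qc4_2_4_l qc4_2_4_r
theorem c4_2_4 : chkTag sI cl9 cl4 cl6 t3 b4_2 (tg false false false RT.r3) (I.pos (nat_lit 0) (nat_lit 0))
  (Tr.N Co.b rc4_2_4_l (Tr.N Co.a rc4_2_4_rl (Tr.N Co.k (Tr.N Co.b rc4_2_4_rrll (Tr.N Co.b rc4_2_4_rrlrl rc4_2_4_rrlrr)) (Tr.N Co.b rc4_2_4_rrrl (Tr.N Co.b rc4_2_4_rrrrl (Tr.N Co.s rc4_2_4_rrrrrl (Tr.N Co.a rc4_2_4_rrrrrrl rc4_2_4_rrrrrrr))))))) = true := tag_mk (by decide +kernel) qc4_2_4_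
theorem c4_2_5 : chkTag sI cl9 cl4 cl6 t1 b4_2 (tg false true false RT.r4) (I.pos (nat_lit 0) (nat_lit 0))
  (xb T1.l2 T1.l2) = true := by decide +kernel
theorem c4_2_6 : chkTag sI cl9 cl4 cl6 t3 b4_2 (Tag.mk false false false RT.tl RT.r5) (I.mix (nat_lit 17240550) (nat_lit 96881482))
  (xR (xR (xR T3.l4 T3.l4) T3.l4) (xR T3.l4 (xb (xR T3.l4 T3.l4) (xR T3.l4 T3.l4)))) = true := by decide +kernel
theorem c4_2_7 : chkTag sI cl9 cl4 cl6 t1 b4_2 (Tag.mk false true false RT.tl RT.r6) (I.mix (nat_lit 17240550) (nat_lit 71940500))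
  (xR T1.l11 (xR T1.l3 (xb T1.l3 T1.l3))) = true := by decide +kernel
theorem bx4_2 : BoxOK sI cl9 cl4 cl6 t1 t3 b4_2 :=
  box_mk' [(tg true true false RT.r2), (tg true false false RT.r3), (Tag.mk true true false RT.tl RT.r4), (Tag.mk true false false RT.tl RT.r5), (tg false false false RT.r3), (tg false true false RT.r4), (Tag.mk false false false RT.tl RT.r5), (Tag.mk false true false RT.tl RT.r6)] rfl (allL_c (ex_mk c4_2_0) (allL_c (ex_mk c4_2_1) (allL_c (ex_mk c4_2_2) (allL_c (ex_mk c4_2_3) (allL_c (ex_mk c4_2_4) (allL_c (ex_mk c4_2_5) (allL_c (ex_mk c4_2_6) (allL_c (ex_mk c4_2_7) allL_n))))))))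
theorem bx4_3 : BoxOK sI cl9 cl4 cl6 t1 t3 b4_3 :=
  box_mk (TrL.c (I.pos (nat_lit 0) (nat_lit 0)) (xa T3.l1 (xb T3.l1 T3.l1))
  (TrL.c (I.pos (nat_lit 0) (nat_lit 0)) T1.l5
  (TrL.c (I.mix (nat_lit 17240550) (nat_lit 96881482)) (xR (xR (xR T3.l6 T3.l6) T3.l4) (xR T3.l6 (xR T3.l6 T3.l6)))
  (TrL.c (I.mix (nat_lit 17240550) (nat_lit 71940500)) (xR (xR T1.l6 T1.l1) T1.l1)
  TrL.n)))) (by decide +kernel)
theorem bx4_4 : BoxOK sI cl9 cl4 cl6 t1 t3 b4_4 :=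
  box_mk (TrL.c (I.pos (nat_lit 0) (nat_lit 0)) (xb T3.l1 T3.l7)
  (TrL.c (I.pos (nat_lit 0) (nat_lit 0)) T1.l5
  (TrL.c (I.mix (nat_lit 17240550) (nat_lit 96881482)) (xR (xR T3.l6 T3.l6) (xR T3.l4 (xR T3.l4 T3.l4)))
  (TrL.c (I.mix (nat_lit 17240550) (nat_lit 71940500)) (xR (xR T1.l6 T1.l1) T1.l1)
  TrL.n)))) (by decide +kernel)
theorem bx4_5 : BoxOK sI cl9 cl4 cl6 t1 t3 b4_5 :=
  box_mk (TrL.c (I.pos (nat_lit 0) (nat_lit 0)) (xb (xa T1.l7 T1.l4) T1.l4)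
  (TrL.c (I.pos (nat_lit 0) (nat_lit 0)) T3.l1
  (TrL.c (I.pos (nat_lit 0) (nat_lit 124588530)) (xR (xR T1.l1 T1.l1) (xR T1.l1 T1.l1))
  (TrL.c (I.pos (nat_lit 0) (nat_lit 96881482)) (xR (xR T3.l4 T3.l4) T3.l4)
  (TrL.c (I.pos (nat_lit 0) (nat_lit 0)) T3.l5
  (TrL.c (I.pos (nat_lit 0) (nat_lit 0)) T1.l2
  (TrL.c (I.mix (nat_lit 17240550) (nat_lit 96881482)) (xR T3.l4 (xR T3.l4 (xR T3.l4 T3.l4)))
  (TrL.c (I.mix (nat_lit 17240550) (nat_lit 71940500)) T1.l11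
  TrL.n)))))))) (by decide +kernel)
theorem bx4_6 : BoxOK sI cl9 cl4 cl6 t1 t3 b4_6 :=
  box_mk (TrL.c (I.pos (nat_lit 0) (nat_lit 0)) (xa (xb T1.l0 (xa T1.l0 T1.l0)) (xb (xa T1.l0 (xb T1.l0 T1.l0)) (xa T1.l0 (xb T1.l0 (xa T1.l0 T1.l0)))))
  (TrL.c (I.pos (nat_lit 0) (nat_lit 0)) (xa (xb T3.l1 (xk T3.l1 T3.l1)) (xk (xb T3.l10 (xa T3.l1 T3.l10)) (xb T3.l10 T3.l1)))
  (TrL.c (I.pos (nat_lit 0) (nat_lit 124588530)) (xR (xR (xR T1.l11 T1.l1) T1.l1) (xR T1.l1 (xR T1.l1 T1.l11)))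
  (TrL.c (I.pos (nat_lit 0) (nat_lit 96881482)) (xR (xR T3.l11 T3.l2) (xR T3.l2 (xR T3.l2 (xk T3.l2 T3.l2))))
  (TrL.c (I.pos (nat_lit 0) (nat_lit 0)) (xa (xb (xk (xa T3.l3 T3.l3) (xa T3.l3 T3.l3)) (xk T3.l3 T3.l3)) (xb (xk (xa (xb T3.l3 T3.l3) (xb T3.l3 T3.l3)) (xa T3.l3 (xb T3.l3 T3.l3))) (xk (xa T3.l3 (xb T3.l3 T3.l3)) (xa T3.l3 (xb T3.l3 T3.l3)))))
  (TrL.c (I.pos (nat_lit 0) (nat_lit 0)) (xa T1.l2 (xb (xk T1.l2 T1.l2) (xk T1.l2 T1.l2)))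
  (TrL.c (I.mix (nat_lit 17240550) (nat_lit 96881482)) (xR (xR T3.l4 T3.l4) (xR T3.l4 (xR (xk T3.l4 T3.l4) (xk (xb (xa T3.l4 T3.l4) (xR T3.l4 T3.l4)) T3.l4))))
  (TrL.c (I.mix (nat_lit 17240550) (nat_lit 71940500)) (xR (xR T1.l3 T1.l3) (xR T1.l3 (xR T1.l3 T1.l3)))
  TrL.n)))))))) (by decide +kernel)
theorem bx4_7 : BoxOK sI cl9 cl4 cl6 t1 t3 b4_7 :=
  box_mk (TrL.c (I.pos (nat_lit 0) (nat_lit 0)) (xb (xa T1.l7 T1.l7) (xa T1.l7 T1.l7))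
  (TrL.c (I.pos (nat_lit 0) (nat_lit 0)) T3.l1
  (TrL.c (I.pos (nat_lit 0) (nat_lit 124588530)) (xR T1.l1 (xR T1.l1 (xR T1.l1 T1.l1)))
  (TrL.c (I.pos (nat_lit 0) (nat_lit 96881482)) (xR T3.l4 T3.l4)
  (TrL.c (I.pos (nat_lit 0) (nat_lit 0)) T3.l8
  (TrL.c (I.pos (nat_lit 0) (nat_lit 0)) T1.l2
  (TrL.c (I.mix (nat_lit 17240550) (nat_lit 96881482)) (xR T3.l6 (xR T3.l4 T3.l4))
  (TrL.c (I.mix (nat_lit 17240550) (nat_lit 71940500)) (xR T1.l6 T1.l1)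
  TrL.n)))))))) (by decide +kernel)
theorem bx4_8 : BoxOK sI cl9 cl4 cl6 t1 t3 b4_8 :=
  box_mk (TrL.c (I.pos (nat_lit 0) (nat_lit 0)) (xa (xb (xb T1.l0 T1.l0) (xa T1.l4 (xb T1.l0 T1.l4))) (xb (xa T1.l0 T1.l0) (xa (xb T1.l0 (xs T1.l0 T1.l0)) (xb T1.l0 (xs T1.l0 T1.l0)))))
  (TrL.c (I.pos (nat_lit 0) (nat_lit 0)) (xk (xb T3.l1 T3.l1) T3.l1)
  (TrL.c (I.pos (nat_lit 0) (nat_lit 124588530)) (xR (xR T1.l1 T1.l1) (xR T1.l1 T1.l11))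
  (TrL.c (I.pos (nat_lit 0) (nat_lit 96881482)) (xR (xR T3.l2 T3.l2) T3.l2)
  (TrL.c (I.pos (nat_lit 0) (nat_lit 0)) (xk (xb (xa T3.l3 (xb T3.l3 T3.l3)) (xa (xb T3.l3 (xs T3.l3 (xk T3.l3 T3.l3))) (xb (xs T3.l3 (xk T3.l0 T3.l0)) (xs (xk T3.l3 (xa T3.l0 T3.l0)) (xk (xa T3.l0 T3.l0) T3.l0))))) (xb (xa T3.l3 (xb T3.l3 (xs T3.l3 T3.l3))) (xa (xb T3.l3 (xs T3.l3 (xk T3.l3 (xa T3.l3 T3.l3)))) (xb (xs (xk T3.l0 T3.l0) (xk T3.l0 (xa T3.l0 T3.l0))) (xs (xk T3.l0 T3.l0) (xk T3.l0 T3.l0))))))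
  (TrL.c (I.pos (nat_lit 0) (nat_lit 0)) T1.l2
  (TrL.c (I.mix (nat_lit 17240550) (nat_lit 96881482)) (xR (xR T3.l4 T3.l4) T3.l4)
  (TrL.c (I.mix (nat_lit 17240550) (nat_lit 71940500)) (xR T1.l11 T1.l3)
  TrL.n)))))))) (by decide +kernel)
theorem bx4_9 : BoxOK sI cl9 cl4 cl6 t1 t3 b4_9 :=
  box_mk (TrL.c (I.pos (nat_lit 0) (nat_lit 0)) (xb T1.l7 T1.l4)
  (TrL.c (I.pos (nat_lit 0) (nat_lit 0)) T3.l1
  (TrL.c (I.pos (nat_lit 0) (nat_lit 124588530)) (xR T1.l9 T1.l1)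
  (TrL.c (I.pos (nat_lit 0) (nat_lit 96881482)) (xR T3.l4 T3.l4)
  (TrL.c (I.pos (nat_lit 0) (nat_lit 0)) T3.l5
  (TrL.c (I.pos (nat_lit 0) (nat_lit 0)) T1.l2
  (TrL.c (I.mix (nat_lit 17240550) (nat_lit 96881482)) (xR T3.l4 T3.l4)
  (TrL.c (I.mix (nat_lit 17240550) (nat_lit 71940500)) T1.l11
  TrL.n)))))))) (by decide +kernel)
theorem sv4 : StarV sI cl9 cl4 cl6 t1 t3 t4 :=
  (bt_n (bt_n (bt_n (bt_b bx4_0) (bt_b bx4_1)) (bt_n (bt_b bx4_2) (bt_n (bt_b bx4_3) (bt_b bx4_4)))) (bt_n (bt_n (bt_b bx4_5) (bt_b bx4_6)) (bt_n (bt_b bx4_7) (bt_n (bt_b bx4_8) (bt_b bx4_9)))))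
def S4 : StarD := StarD.mk cl9 cl4 cl6 1 3 t4
theorem bx5_0 : BoxOK sI cl9 cl6 cl4 t3 t1 b5_0 :=
  box_mk (TrL.c (I.pos (nat_lit 0) (nat_lit 0)) (xa (xb (xa T3.l13 T3.l0) (xa (xb T3.l13 (xs T3.l13 T3.l13)) (xb T3.l0 (xs T3.l0 T3.l0)))) (xb T3.l0 (xa (xb T3.l0 (xs T3.l0 T3.l0)) (xb T3.l0 T3.l0))))
  (TrL.c (I.pos (nat_lit 0) (nat_lit 0)) (xk (xa (xb T1.l8 T1.l8) (xb T1.l8 T1.l8)) (xa T1.l8 T1.l8))
  (TrL.c (I.pos (nat_lit 0) (nat_lit 124588530)) (xR (xR (xR T3.l4 T3.l4) T3.l4) (xR T3.l4 (xR T3.l9 (xR T3.l9 T3.l4))))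
  (TrL.c (I.pos (nat_lit 0) (nat_lit 96881482)) (xR (xR T1.l9 T1.l9) (xR T1.l9 (xR T1.l9 T1.l9)))
  (TrL.c (I.pos (nat_lit 0) (nat_lit 0)) (xk (xa T1.l10 (xb T1.l10 (xb T1.l10 T1.l10))) (xa (xb T1.l13 T1.l13) (xb T1.l10 (xb T1.l10 (xa T1.l10 (xs T1.l10 T1.l10))))))
  (TrL.c (I.pos (nat_lit 0) (nat_lit 0)) T3.l10
  (TrL.c (I.mix (nat_lit 17240550) (nat_lit 96881482)) (xR T1.l11 (xR T1.l11 T1.l11))
  (TrL.c (I.mix (nat_lit 17240550) (nat_lit 71940500)) (xR T3.l11 T3.l11)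
  TrL.n)))))))) (by decide +kernel)
theorem bx5_1 : BoxOK sI cl9 cl6 cl4 t3 t1 b5_1 :=
  box_mk (TrL.c (I.pos (nat_lit 0) (nat_lit 0)) (xa (xb (xa T3.l12 T3.l12) (xa T3.l12 T3.l12)) (xb (xa T3.l12 T3.l12) (xa T3.l12 T3.l12)))
  (TrL.c (I.pos (nat_lit 0) (nat_lit 0)) (xa T1.l8 T1.l8)
  (TrL.c (I.pos (nat_lit 0) (nat_lit 124588530)) (xR (xR T3.l4 T3.l4) (xR T3.l4 T3.l9))
  (TrL.c (I.pos (nat_lit 0) (nat_lit 96881482)) (xR (xR T1.l9 T1.l9) (xR T1.l9 T1.l9))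
  (TrL.c (I.pos (nat_lit 0) (nat_lit 0)) (xa (xb T1.l12 T1.l12) (xk T1.l12 T1.l12))
  (TrL.c (I.pos (nat_lit 0) (nat_lit 0)) T3.l10
  (TrL.c (I.mix (nat_lit 17240550) (nat_lit 96881482)) (xR T1.l11 T1.l11)
  (TrL.c (I.mix (nat_lit 17240550) (nat_lit 71940500)) (xR T3.l11 T3.l2)
  TrL.n)))))))) (by decide +kernel)
theorem bx5_2 : BoxOK sI cl9 cl6 cl4 t3 t1 b5_2 :=
  box_mk (TrL.c (I.pos (nat_lit 0) (nat_lit 0)) T3.l12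
  (TrL.c (I.pos (nat_lit 0) (nat_lit 0)) T1.l8
  (TrL.c (I.pos (nat_lit 0) (nat_lit 124588530)) (xR T3.l4 (xR T3.l4 T3.l9))
  (TrL.c (I.pos (nat_lit 0) (nat_lit 96881482)) (xR T1.l1 T1.l11)
  (TrL.c (I.pos (nat_lit 0) (nat_lit 0)) (xa T1.l8 T1.l12)
  (TrL.c (I.pos (nat_lit 0) (nat_lit 0)) T3.l10
  (TrL.c (I.mix (nat_lit 17240550) (nat_lit 96881482)) (xR T1.l11 (xR T1.l11 T1.l11))
  (TrL.c (I.mix (nat_lit 17240550) (nat_lit 71940500)) (xR T3.l11 T3.l4)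
  TrL.n)))))))) (by decide +kernel)
theorem bx5_3 : BoxOK sI cl9 cl6 cl4 t3 t1 b5_3 :=
  box_mk (TrL.c (I.pos (nat_lit 0) (nat_lit 0)) (xa (xb (xb T3.l13 (xa T3.l13 T3.l13)) (xa (xb (xs T3.l13 T3.l13) (xs T3.l13 T3.l13)) (xb T3.l13 (xs T3.l13 T3.l13)))) (xb (xa (xb T3.l13 T3.l13) (xb T3.l13 (xs T3.l13 T3.l13))) (xa (xb T3.l13 (xs T3.l13 T3.l13)) (xb (xs T3.l13 (xk T3.l13 T3.l13)) (xs T3.l13 (xk T3.l13 T3.l13))))))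
  (TrL.c (I.pos (nat_lit 0) (nat_lit 0)) (xb (xk T1.l8 T1.l8) (xk (xa T1.l8 T1.l8) (xa T1.l8 T1.l8)))
  (TrL.c (I.pos (nat_lit 0) (nat_lit 124588530)) (xR (xR T3.l4 T3.l4) (xR T3.l4 (xR T3.l9 (xR T3.l9 T3.l9))))
  (TrL.c (I.pos (nat_lit 0) (nat_lit 96881482)) (xR (xR T1.l9 T1.l9) (xR T1.l9 (xR T1.l9 T1.l9)))
  (TrL.c (I.pos (nat_lit 0) (nat_lit 0)) (xk (xb T1.l13 (xb (xa T1.l13 T1.l13) (xa T1.l13 (xs T1.l13 (xa T1.l13 (xk T1.l13 T1.l13)))))) (xb T1.l13 (xb (xa T1.l13 T1.l13) (xa (xb T1.l13 T1.l13) (xs (xa T1.l13 (xb T1.l13 T1.l13)) (xa (xb T1.l13 T1.l13) (xb T1.l13 (xk T1.l13 (xs T1.l13 T1.l13)))))))))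
  (TrL.c (I.pos (nat_lit 0) (nat_lit 0)) T3.l10
  (TrL.c (I.mix (nat_lit 17240550) (nat_lit 96881482)) (xR T1.l11 (xR T1.l11 (xR T1.l11 T1.l11)))
  (TrL.c (I.mix (nat_lit 17240550) (nat_lit 71940500)) (xR T3.l11 (xR T3.l11 T3.l11))
  TrL.n)))))))) (by decide +kernel)
theorem bx5_4 : BoxOK sI cl9 cl6 cl4 t3 t1 b5_4 :=
  box_mk (TrL.c (I.pos (nat_lit 0) (nat_lit 0)) (xa (xa T3.l12 T3.l12) (xa T3.l12 T3.l12))
  (TrL.c (I.pos (nat_lit 0) (nat_lit 0)) (xa T1.l8 (xa T1.l8 T1.l8))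
  (TrL.c (I.pos (nat_lit 0) (nat_lit 124588530)) (xR T3.l4 (xR T3.l4 (xa T3.l9 T3.l9)))
  (TrL.c (I.pos (nat_lit 0) (nat_lit 96881482)) (xR T1.l11 (xR T1.l11 (xR T1.l9 T1.l9)))
  (TrL.c (I.pos (nat_lit 0) (nat_lit 0)) (xa T1.l8 T1.l12)
  (TrL.c (I.pos (nat_lit 0) (nat_lit 0)) T3.l10
  (TrL.c (I.mix (nat_lit 17240550) (nat_lit 96881482)) (xR (xR (xR T1.l11 T1.l11) T1.l11) (xR T1.l11 T1.l11))
  (TrL.c (I.mix (nat_lit 17240550) (nat_lit 71940500)) (xR T3.l6 (xR T3.l11 T3.l4))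
  TrL.n)))))))) (by decide +kernel)
theorem bx5_5 : BoxOK sI cl9 cl6 cl4 t3 t1 b5_5 :=
  box_mk (TrL.c (I.pos (nat_lit 0) (nat_lit 0)) (xa T3.l12 T3.l12)
  (TrL.c (I.pos (nat_lit 0) (nat_lit 0)) T1.l8
  (TrL.c (I.pos (nat_lit 0) (nat_lit 124588530)) (xR (xR T3.l4 T3.l4) (xR T3.l4 T3.l9))
  (TrL.c (I.pos (nat_lit 0) (nat_lit 96881482)) (xR (xR T1.l9 T1.l9) T1.l9)
  (TrL.c (I.pos (nat_lit 0) (nat_lit 0)) T1.l12
  (TrL.c (I.pos (nat_lit 0) (nat_lit 0)) T3.l10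
  (TrL.c (I.mix (nat_lit 17240550) (nat_lit 96881482)) (xR T1.l11 T1.l11)
  (TrL.c (I.mix (nat_lit 17240550) (nat_lit 71940500)) T3.l6
  TrL.n)))))))) (by decide +kernel)
theorem bx5_6 : BoxOK sI cl9 cl6 cl4 t3 t1 b5_6 :=
  box_mk (TrL.c (I.pos (nat_lit 0) (nat_lit 0)) (xa (xa T3.l12 T3.l12) T3.l12)
  (TrL.c (I.pos (nat_lit 0) (nat_lit 0)) (xa T1.l12 T1.l8)
  (TrL.c (I.pos (nat_lit 0) (nat_lit 124588530)) (xR T3.l4 (xR T3.l4 T3.l9))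
  (TrL.c (I.pos (nat_lit 0) (nat_lit 96881482)) (xR T1.l1 T1.l11)
  (TrL.c (I.pos (nat_lit 0) (nat_lit 0)) (xa T1.l8 T1.l12)
  (TrL.c (I.pos (nat_lit 0) (nat_lit 0)) T3.l9
  (TrL.c (I.mix (nat_lit 17240550) (nat_lit 96881482)) (xR (xR T1.l11 T1.l11) (xR T1.l11 (xR T1.l11 T1.l9)))
  (TrL.c (I.mix (nat_lit 17240550) (nat_lit 71940500)) (xR T3.l6 T3.l4)
  TrL.n)))))))) (by decide +kernel)
theorem bx5_7 : BoxOK sI cl9 cl6 cl4 t3 t1 b5_7 :=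
  box_mk (TrL.c (I.pos (nat_lit 0) (nat_lit 0)) (xa T3.l12 T3.l13)
  (TrL.c (I.pos (nat_lit 0) (nat_lit 0)) T1.l8
  (TrL.c (I.pos (nat_lit 0) (nat_lit 124588530)) (xR (xR T3.l4 T3.l4) (xR T3.l4 T3.l9))
  (TrL.c (I.pos (nat_lit 0) (nat_lit 96881482)) (xR (xR T1.l9 T1.l9) T1.l9)
  (TrL.c (I.pos (nat_lit 0) (nat_lit 0)) T1.l13
  (TrL.c (I.pos (nat_lit 0) (nat_lit 0)) T3.l10
  (TrL.c (I.mix (nat_lit 17240550) (nat_lit 96881482)) (xR T1.l11 T1.l11)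
  (TrL.c (I.mix (nat_lit 17240550) (nat_lit 71940500)) T3.l6
  TrL.n)))))))) (by decide +kernel)
def rc5_8_0_llll : Tr := (xs (xb (xa (xs T3.l13 (xb (xk T3.l13 T3.l0) (xk T3.l13 T3.l0))) (xs T3.l13 (xb (xk T3.l0 T3.l0) (xk T3.l0 T3.l0)))) (xa (xs T3.l13 (xb T3.l13 T3.l13)) (xs T3.l13 (xb T3.l13 T3.l13)))) (xb (xa (xs (xb (xc (xk T3.l0 T3.l0) (xk T3.l0 T3.l0)) (xc (xk T3.l0 T3.l0) (xk T3.l0 T3.l0))) (xb (xc (xk T3.l0 (xa (xs T3.l0 T3.l0) (xs T3.l0 T3.l0))) (xk (xa T3.l0 T3.l0) (xa (xs T3.l0 (xb T3.l0 T3.l0)) (xs T3.l0 (xb T3.l0 T3.l0))))) (xc (xk T3.l0 T3.l0) (xk T3.l0 (xa T3.l0 T3.l0))))) (xs (xb (xk T3.l0 (xc T3.l0 T3.l0)) (xc (xk T3.l0 T3.l0) T3.l0)) (xb (xc (xk T3.l0 (xa (xs T3.l0 T3.l0) T3.l0)) (xk (xa T3.l0 T3.l0) (xa (xs T3.l0 (xb T3.l0 T3.l0)) (xs T3.l0 (xb T3.l0 T3.l0))))) (xc (xk T3.l0 T3.l0) (xk T3.l0 (xa T3.l0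 T3.l0)))))) (xa (xs (xb (xc T3.l13 (xk T3.l0 T3.l0)) (xc T3.l13 T3.l13)) (xb (xc (xk T3.l0 T3.l0) (xk T3.l0 T3.l0)) (xc (xk T3.l0 T3.l0) (xk T3.l0 T3.l0)))) (xs (xb (xc T3.l13 T3.l0) (xc T3.l13 T3.l0)) (xb (xc (xk T3.l0 T3.l0) (xk T3.l0 T3.l0)) (xc (xk T3.l0 T3.l0) T3.l0))))))
theorem qc5_8_0_llll : chkTr (tg true true false RT.r2) b5_8 t3 rc5_8_0_llll
  (upd lo Co.a (upd lo Co.b (upd lo Co.a (upd lo Co.b (rc sI cl9 cl6 cl4 b5_8 (I.pos (nat_lit 0) (nat_lit 0))))))) = true := by decide +kernel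
def rc5_8_0_lllr : Tr := (xs (xb (xs (xa T3.l13 T3.l13) (xa (xb (xk T3.l0 T3.l0) (xk T3.l0 T3.l0)) (xb T3.l0 T3.l0))) (xa (xs T3.l13 (xb T3.l13 T3.l13)) (xs T3.l13 (xb T3.l0 T3.l0)))) (xb (xa (xs (xb (xk T3.l0 (xc T3.l0 T3.l0)) (xk T3.l0 T3.l0)) (xb (xk (xc T3.l0 (xa T3.l0 T3.l0)) (xc (xa T3.l0 T3.l0) (xa (xs T3.l0 (xb T3.l0 T3.l0)) (xs T3.l0 (xc T3.l0 T3.l0))))) (xc (xk T3.l0 T3.l0) (xk T3.l0 (xa T3.l0 T3.l0))))) (xs (xb (xk T3.l0 (xc T3.l0 T3.l0)) (xk T3.l0 T3.l0)) (xb (xk (xc T3.l0 (xs T3.l0 T3.l0)) (xc (xa T3.l0 T3.l0) (xs T3.l0 (xa (xc T3.l0 T3.l0) (xc T3.l0 T3.l0))))) (xk (xc T3.l0 T3.l0) (xc T3.l0 (xa T3.l0 T3.l0)))))) (xa (xs (xb (xk T3.l0 T3.l0) (xc T3.l0 T3.l0)) (xb (xc T3.l0 (xk T3.l0 T3.l0)) (xc T3.l0 T3.l0))) (xs (xb T3.l0 T3.l0) (xb (xc T3.l0 (xk T3.l0 T3.l0)) (xc T3.l0 T3.l0))))))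
theorem qc5_8_0_lllr : chkTr (tg true true false RT.r2) b5_8 t3 rc5_8_0_lllr
  (upd hi Co.a (upd lo Co.b (upd lo Co.a (upd lo Co.b (rc sI cl9 cl6 cl4 b5_8 (I.pos (nat_lit 0) (nat_lit 0))))))) = true := by decide +kernel
theorem qc5_8_0_lll : chkTr (tg true true false RT.r2) b5_8 t3 (Tr.N Co.a rc5_8_0_llll rc5_8_0_lllr)
  (upd lo Co.b (upd lo Co.a (upd lo Co.b (rc sI cl9 cl6 cl4 b5_8 (I.pos (nat_lit 0) (nat_lit 0)))))) = true := tr_split qc5_8_0_llll qc5_8_0_lllr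
def rc5_8_0_llr : Tr := (xa (xb (xs (xa T3.l13 T3.l13) (xa (xb (xs T3.l13 (xc T3.l13 (xk T3.l0 T3.l0))) (xs T3.l13 (xc T3.l13 T3.l13))) (xs (xb T3.l13 T3.l13) (xb (xc T3.l13 T3.l0) (xc T3.l13 T3.l0))))) (xs T3.l13 (xa (xb (xs T3.l13 T3.l13) T3.l13) (xb (xs T3.l13 T3.l13) T3.l13)))) (xs (xb (xa T3.l13 T3.l13) T3.l13) (xb (xa (xs (xb T3.l13 T3.l13) (xb (xc T3.l0 T3.l0) (xc T3.l0 T3.l0))) (xs (xb T3.l0 T3.l0) (xb (xc T3.l0 T3.l0) T3.l0))) (xa (xb (xs T3.l13 T3.l13) T3.l13) (xs T3.l13 (xb T3.l0 T3.l0))))))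
theorem qc5_8_0_llr : chkTr (tg true true false RT.r2) b5_8 t3 rc5_8_0_llr
  (upd hi Co.b (upd lo Co.a (upd lo Co.b (rc sI cl9 cl6 cl4 b5_8 (I.pos (nat_lit 0) (nat_lit 0)))))) = true := by decide +kernel
theorem qc5_8_0_ll : chkTr (tg true true false RT.r2) b5_8 t3 (Tr.N Co.b (Tr.N Co.a rc5_8_0_llll rc5_8_0_lllr) rc5_8_0_llr)
  (upd lo Co.a (upd lo Co.b (rc sI cl9 cl6 cl4 b5_8 (I.pos (nat_lit 0) (nat_lit 0))))) = true := tr_split qc5_8_0_lll qc5_8_0_llr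
def rc5_8_0_lrll : Tr := (xs (xb (xs (xa T3.l0 T3.l0) (xa T3.l0 T3.l0)) (xa (xs T3.l0 T3.l0) T3.l0)) (xb (xa (xs (xb (xk T3.l0 (xc T3.l0 T3.l0)) (xk T3.l0 T3.l0)) (xb (xk (xc T3.l0 (xs T3.l0 T3.l0)) (xc (xa T3.l0 T3.l0) (xs T3.l0 (xa (xc T3.l0 T3.l0) (xk T3.l0 T3.l0))))) (xk (xc T3.l0 T3.l0) (xc T3.l0 (xa T3.l0 T3.l0))))) (xs (xk (xb T3.l0 T3.l0) (xb (xc T3.l0 T3.l0) T3.l0)) (xb (xk (xc T3.l0 (xs T3.l0 T3.l0)) (xc (xa T3.l0 T3.l0) (xs T3.l0 (xa (xk T3.l0 T3.l0) T3.l0)))) (xk (xc T3.l0 T3.l0) (xc T3.l0 (xa T3.l0 T3.l0)))))) (xa (xs (xb T3.l0 T3.l0) (xb (xk T3.l0 (xc T3.l0 T3.l0)) (xk T3.l0 T3.l0))) (xs (xb T3.l0 T3.l0) (xb (xk T3.l0 (xc T3.l0 T3.l0)) (xk T3.l0 T3.l0))))))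
theorem qc5_8_0_lrll : chkTr (tg true true false RT.r2) b5_8 t3 rc5_8_0_lrll
  (upd lo Co.a (upd lo Co.b (upd hi Co.a (upd lo Co.b (rc sI cl9 cl6 cl4 b5_8 (I.pos (nat_lit 0) (nat_lit 0))))))) = true := by decide +kernel
def rc5_8_0_lrlr : Tr := (xs (xb (xs T3.l0 (xa T3.l0 T3.l0)) (xs T3.l0 T3.l0)) (xb (xa (xs (xk (xb T3.l0 T3.l0) (xb (xc T3.l0 T3.l0) T3.l0)) (xk (xb (xc T3.l0 (xs T3.l0 T3.l0)) (xc T3.l0 T3.l0)) (xb (xc (xa T3.l0 T3.l0) (xs T3.l0 (xa T3.l0 T3.l0))) (xc T3.l0 (xa T3.l0 T3.l0))))) (xs (xk (xb T3.l0 T3.l0) (xb (xc T3.l0 T3.l0) T3.l0)) (xk (xb (xc T3.l0 (xs T3.l0 T3.l0)) (xc T3.l0 T3.l0)) (xb (xc (xa T3.l0 T3.l0) (xs T3.l0 (xa T3.l0 T3.l0))) (xc T3.l0 (xs T3.l0 T3.l0)))))) (xa (xs (xk T3.l0 T3.l0) (xk (xb T3.l0 T3.l0) (xc T3.l0 (xb T3.l0 T3.l0)))) (xs (xk T3.l0 T3.l0) (xk (xb T3.l0 T3.l0) (xc T3.l0 (xb T3.l0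 T3.l0)))))))
theorem qc5_8_0_lrlr : chkTr (tg true true false RT.r2) b5_8 t3 rc5_8_0_lrlr
  (upd hi Co.a (upd lo Co.b (upd hi Co.a (upd lo Co.b (rc sI cl9 cl6 cl4 b5_8 (I.pos (nat_lit 0) (nat_lit 0))))))) = true := by decide +kernel
theorem qc5_8_0_lrl : chkTr (tg true true false RT.r2) b5_8 t3 (Tr.N Co.a rc5_8_0_lrll rc5_8_0_lrlr)
  (upd lo Co.b (upd hi Co.a (upd lo Co.b (rc sI cl9 cl6 cl4 b5_8 (I.pos (nat_lit 0) (nat_lit 0)))))) = true := tr_split qc5_8_0_lrll qc5_8_0_lrlr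
def rc5_8_0_lrr : Tr := (xa (xs (xb (xa T3.l13 T3.l0) T3.l13) (xb (xa (xs T3.l0 (xb T3.l0 T3.l0)) (xs T3.l0 (xb T3.l0 T3.l0))) (xa (xs T3.l0 (xb T3.l0 T3.l0)) (xs T3.l0 T3.l0)))) (xs (xb (xa T3.l0 T3.l0) T3.l0) (xb (xa (xs T3.l0 (xk T3.l0 T3.l0)) (xs T3.l0 (xk T3.l0 T3.l0))) (xa T3.l0 T3.l0))))
theorem qc5_8_0_lrr : chkTr (tg true true false RT.r2) b5_8 t3 rc5_8_0_lrr
  (upd hi Co.b (upd hi Co.a (upd lo Co.b (rc sI cl9 cl6 cl4 b5_8 (I.pos (nat_lit 0) (nat_lit 0)))))) = true := by decide +kernel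
theorem qc5_8_0_lr : chkTr (tg true true false RT.r2) b5_8 t3 (Tr.N Co.b (Tr.N Co.a rc5_8_0_lrll rc5_8_0_lrlr) rc5_8_0_lrr)
  (upd hi Co.a (upd lo Co.b (rc sI cl9 cl6 cl4 b5_8 (I.pos (nat_lit 0) (nat_lit 0))))) = true := tr_split qc5_8_0_lrl qc5_8_0_lrr
theorem qc5_8_0_l : chkTr (tg true true false RT.r2) b5_8 t3 (Tr.N Co.a (Tr.N Co.b (Tr.N Co.a rc5_8_0_llll rc5_8_0_lllr) rc5_8_0_llr) (Tr.N Co.b (Tr.N Co.a rc5_8_0_lrll rc5_8_0_lrlr) rc5_8_0_lrr))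
  (upd lo Co.b (rc sI cl9 cl6 cl4 b5_8 (I.pos (nat_lit 0) (nat_lit 0)))) = true := tr_split qc5_8_0_ll qc5_8_0_lr
def rc5_8_0_r : Tr := (xa (xb (xa (xb (xs T3.l13 (xa T3.l13 T3.l13)) (xs T3.l13 T3.l13)) (xb (xs T3.l13 (xa T3.l13 T3.l13)) (xs T3.l13 (xa T3.l13 T3.l13)))) (xa (xs T3.l13 (xb T3.l13 T3.l13)) (xs T3.l13 (xb T3.l13 T3.l13)))) (xb (xa (xb (xs T3.l13 (xa (xb T3.l0 T3.l0) T3.l0)) (xs T3.l13 (xa T3.l13 T3.l0))) (xs (xb T3.l0 T3.l0) (xb (xa T3.l0 T3.l0) (xa T3.l0 T3.l0)))) (xa (xs T3.l13 (xb T3.l13 T3.l13)) (xs T3.l13 (xb (xa T3.l0 T3.l0) T3.l13)))))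
theorem qc5_8_0_r : chkTr (tg true true false RT.r2) b5_8 t3 rc5_8_0_r
  (upd hi Co.b (rc sI cl9 cl6 cl4 b5_8 (I.pos (nat_lit 0) (nat_lit 0)))) = true := by decide +kernel
theorem qc5_8_0_ : chkTr (tg true true false RT.r2) b5_8 t3 (Tr.N Co.b (Tr.N Co.a (Tr.N Co.b (Tr.N Co.a rc5_8_0_llll rc5_8_0_lllr) rc5_8_0_llr) (Tr.N Co.b (Tr.N Co.a rc5_8_0_lrll rc5_8_0_lrlr) rc5_8_0_lrr)) rc5_8_0_r)
  (rc sI cl9 cl6 cl4 b5_8 (I.pos (nat_lit 0) (nat_lit 0))) = true := tr_split qc5_8_0_l qc5_8_0_r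
theorem c5_8_0 : chkTag sI cl9 cl6 cl4 t3 b5_8 (tg true true false RT.r2) (I.pos (nat_lit 0) (nat_lit 0))
  (Tr.N Co.b (Tr.N Co.a (Tr.N Co.b (Tr.N Co.a rc5_8_0_llll rc5_8_0_lllr) rc5_8_0_llr) (Tr.N Co.b (Tr.N Co.a rc5_8_0_lrll rc5_8_0_lrlr) rc5_8_0_lrr)) rc5_8_0_r) = true := tag_mk (by decide +kernel) qc5_8_0_
theorem c5_8_1 : chkTag sI cl9 cl6 cl4 t1 b5_8 (tg true false false RT.r3) (I.pos (nat_lit 0) (nat_lit 0))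
  (xb (xk T1.l8 T1.l8) (xk (xa T1.l8 T1.l8) T1.l8)) = true := by decide +kernel
theorem c5_8_2 : chkTag sI cl9 cl6 cl4 t3 b5_8 (Tag.mk true true false RT.tl RT.r4) (I.pos (nat_lit 0) (nat_lit 124588530))
  (xR (xR (xR T3.l4 T3.l4) T3.l4) (xR T3.l4 (xR T3.l4 (xb T3.l4 (xR T3.l9 T3.l9))))) = true := by decide +kernel
theorem c5_8_3 : chkTag sI cl9 cl6 cl4 t1 b5_8 (Tag.mk true false false RT.tl RT.r5) (I.pos (nat_lit 0) (nat_lit 96881482))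
  (xR (xR T1.l9 T1.l9) (xR T1.l9 (xR T1.l9 T1.l9))) = true := by decide +kernel
theorem c5_8_4 : chkTag sI cl9 cl6 cl4 t1 b5_8 (tg false false false RT.r3) (I.pos (nat_lit 0) (nat_lit 0))
  (xk (xb T1.l13 T1.l13) (xb T1.l13 (xb T1.l13 T1.l13))) = true := by decide +kernel
theorem c5_8_5 : chkTag sI cl9 cl6 cl4 t3 b5_8 (tg false true false RT.r4) (I.pos (nat_lit 0) (nat_lit 0))
  T3.l10 = true := by decide +kernel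
theorem c5_8_6 : chkTag sI cl9 cl6 cl4 t1 b5_8 (Tag.mk false false false RT.tl RT.r5) (I.mix (nat_lit 17240550) (nat_lit 96881482))
  (xR T1.l11 (xR T1.l11 (xR T1.l11 T1.l11))) = true := by decide +kernel
theorem c5_8_7 : chkTag sI cl9 cl6 cl4 t3 b5_8 (Tag.mk false true false RT.tl RT.r6) (I.mix (nat_lit 17240550) (nat_lit 71940500))
  (xR T3.l11 (xR T3.l2 T3.l2)) = true := by decide +kernel
theorem bx5_8 : BoxOK sI cl9 cl6 cl4 t3 t1 b5_8 :=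
  box_mk' [(tg true true false RT.r2), (tg true false false RT.r3), (Tag.mk true true false RT.tl RT.r4), (Tag.mk true false false RT.tl RT.r5), (tg false false false RT.r3), (tg false true false RT.r4), (Tag.mk false false false RT.tl RT.r5), (Tag.mk false true false RT.tl RT.r6)] rfl (allL_c (ex_mk c5_8_0) (allL_c (ex_mk c5_8_1) (allL_c (ex_mk c5_8_2) (allL_c (ex_mk c5_8_3) (allL_c (ex_mk c5_8_4) (allL_c (ex_mk c5_8_5) (allL_c (ex_mk c5_8_6) (allL_c (ex_mk c5_8_7) allL_n))))))))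
theorem bx5_9 : BoxOK sI cl9 cl6 cl4 t3 t1 b5_9 :=
  box_mk (TrL.c (I.pos (nat_lit 0) (nat_lit 0)) (xa (xa T3.l12 T3.l12) (xa T3.l12 (xb T3.l12 T3.l12)))
  (TrL.c (I.pos (nat_lit 0) (nat_lit 0)) (xa T1.l8 (xa T1.l8 T1.l8))
  (TrL.c (I.pos (nat_lit 0) (nat_lit 124588530)) (xR (xR T3.l4 T3.l4) (xR T3.l4 T3.l9))
  (TrL.c (I.pos (nat_lit 0) (nat_lit 96881482)) (xR (xR T1.l9 T1.l9) (xR T1.l9 T1.l9))
  (TrL.c (I.pos (nat_lit 0) (nat_lit 0)) (xa T1.l12 T1.l12)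
  (TrL.c (I.pos (nat_lit 0) (nat_lit 0)) T3.l10
  (TrL.c (I.mix (nat_lit 17240550) (nat_lit 96881482)) (xR (xR T1.l11 T1.l11) T1.l11)
  (TrL.c (I.mix (nat_lit 17240550) (nat_lit 71940500)) (xR T3.l11 T3.l11)
  TrL.n)))))))) (by decide +kernel)
theorem bx5_10 : BoxOK sI cl9 cl6 cl4 t3 t1 b5_10 :=
  box_mk (TrL.c (I.pos (nat_lit 0) (nat_lit 0)) (xb (xa T3.l12 T3.l12) (xa T3.l12 T3.l12))
  (TrL.c (I.pos (nat_lit 0) (nat_lit 0)) (xb T1.l8 T1.l8)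
  (TrL.c (I.pos (nat_lit 0) (nat_lit 124588530)) (xR (xR T3.l4 T3.l4) (xR T3.l4 T3.l9))
  (TrL.c (I.pos (nat_lit 0) (nat_lit 96881482)) (xR (xR T1.l9 T1.l9) (xR T1.l9 T1.l9))
  (TrL.c (I.pos (nat_lit 0) (nat_lit 0)) (xb (xa T1.l12 T1.l12) T1.l12)
  (TrL.c (I.pos (nat_lit 0) (nat_lit 0)) T3.l10
  (TrL.c (I.mix (nat_lit 17240550) (nat_lit 96881482)) (xR T1.l11 T1.l11)
  (TrL.c (I.mix (nat_lit 17240550) (nat_lit 71940500)) (xR T3.l11 T3.l2)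
  TrL.n)))))))) (by decide +kernel)
theorem bx5_11 : BoxOK sI cl9 cl6 cl4 t3 t1 b5_11 :=
  box_mk (TrL.c (I.pos (nat_lit 0) (nat_lit 0)) (xa (xb T3.l12 T3.l12) T3.l12)
  (TrL.c (I.pos (nat_lit 0) (nat_lit 0)) (xa T1.l12 T1.l8)
  (TrL.c (I.pos (nat_lit 0) (nat_lit 124588530)) (xR T3.l4 (xR T3.l4 T3.l9))
  (TrL.c (I.pos (nat_lit 0) (nat_lit 96881482)) (xR T1.l1 T1.l11)
  (TrL.c (I.pos (nat_lit 0) (nat_lit 0)) (xa T1.l8 T1.l12)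
  (TrL.c (I.pos (nat_lit 0) (nat_lit 0)) T3.l9
  (TrL.c (I.mix (nat_lit 17240550) (nat_lit 96881482)) (xR (xR T1.l11 T1.l11) (xR T1.l11 T1.l9))
  (TrL.c (I.mix (nat_lit 17240550) (nat_lit 71940500)) (xR T3.l6 T3.l4)
  TrL.n)))))))) (by decide +kernel)
theorem bx5_12 : BoxOK sI cl9 cl6 cl4 t3 t1 b5_12 :=
  box_mk (TrL.c (I.pos (nat_lit 0) (nat_lit 0)) (xa (xb (xa (xb T3.l0 T3.l0) (xb T3.l0 T3.l0)) (xa (xb (xa T3.l0 T3.l0) (xa T3.l0 T3.l0)) (xb (xa T3.l0 T3.l0) (xa T3.l0 T3.l0)))) (xb (xa (xb T3.l0 T3.l0) (xa (xb T3.l0 T3.l0) (xb (xs T3.l0 (xb T3.l0 T3.l0)) (xs T3.l0 T3.l3)))) (xa (xa (xb T3.l0 T3.l0) (xb T3.l0 T3.l0)) (xa (xb T3.l3 T3.l3) (xb T3.l3 (xs T3.l0 T3.l3))))))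
  (TrL.c (I.pos (nat_lit 0) (nat_lit 0)) (xa (xk (xb (xa T1.l8 T1.l2) (xa T1.l8 T1.l2)) (xb T1.l8 (xa T1.l8 T1.l8))) (xk (xb (xa T1.l2 T1.l2) (xa T1.l2 T1.l2)) (xb (xa T1.l2 T1.l2) (xa T1.l2 T1.l2))))
  (TrL.c (I.pos (nat_lit 0) (nat_lit 124588530)) (xR (xR (xR T3.l4 T3.l4) T3.l4) (xR T3.l4 (xR T3.l4 T3.l4)))
  (TrL.c (I.pos (nat_lit 0) (nat_lit 96881482)) (xR (xR (xR T1.l3 T1.l9) T1.l9) (xR T1.l9 (xR T1.l9 (xa T1.l9 (xk T1.l3 T1.l9)))))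
  (TrL.c (I.pos (nat_lit 0) (nat_lit 0)) (xa (xk (xb (xa T1.l10 T1.l10) T1.l10) (xb (xa T1.l10 T1.l10) T1.l10)) (xb (xk (xa T1.l10 (xb T1.l10 T1.l10)) (xa T1.l10 (xb T1.l10 T1.l10))) (xk (xa T1.l10 (xb T1.l10 (xk T1.l10 T1.l10))) (xa T1.l10 (xb T1.l10 (xk T1.l10 (xa T1.l10 T1.l10)))))))
  (TrL.c (I.pos (nat_lit 0) (nat_lit 0)) (xk (xa T3.l10 (xb T3.l1 T3.l10)) (xa T3.l10 T3.l10))
  (TrL.c (I.mix (nat_lit 17240550) (nat_lit 96881482)) (xR (xR (xR T1.l11 T1.l11) T1.l11) (xR T1.l11 (xR T1.l11 (xk (xR T1.l11 T1.l11) T1.l11))))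
  (TrL.c (I.mix (nat_lit 17240550) (nat_lit 71940500)) (xR T3.l11 (xR T3.l11 (xR T3.l11 T3.l11)))
  TrL.n)))))))) (by decide +kernel)
theorem c5_13_0 : chkTag sI cl9 cl6 cl4 t3 b5_13 (tg true true false RT.r2) (I.pos (nat_lit 0) (nat_lit 0))
  (xa (xb (xa (xb (xs T3.l0 (xb T3.l0 T3.l0)) (xs T3.l0 (xb T3.l0 T3.l0))) (xb (xs T3.l0 (xb (xa T3.l0 T3.l0) (xa T3.l0 T3.l0))) (xs T3.l0 (xb T3.l0 T3.l0)))) (xa (xs (xb T3.l0 T3.l0) (xb (xb T3.l0 T3.l0) (xb T3.l0 T3.l0))) (xs (xb T3.l0 T3.l0) (xb (xb T3.l0 T3.l0) (xb T3.l0 T3.l0))))) (xb (xa (xb (xs T3.l0 (xb (xa T3.l0 T3.l0) (xa T3.l0 T3.l0))) (xs T3.l0 (xb (xa T3.l0 T3.l0) (xs T3.l0 T3.l0)))) (xs (xb T3.l0 T3.l0) (xb (xb (xa T3.l0 (xk T3.l0 T3.l0)) (xa T3.l0 T3.l0)) (xb (xa T3.l0 T3.l0) (xs T3.l0 T3.l0))))) (xa (xs (xb T3.l0 T3.l0) (xb (xb (xs T3.l0 T3.l0) T3.l0) (xs T3.l0 (xb T3.l0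 T3.l0)))) (xs (xb T3.l0 T3.l0) (xb (xb (xs T3.l0 T3.l0) (xs T3.l0 T3.l0)) (xs T3.l0 (xb T3.l0 T3.l0))))))) = true := by decide +kernel
theorem c5_13_1 : chkTag sI cl9 cl6 cl4 t1 b5_13 (tg true false false RT.r3) (I.pos (nat_lit 0) (nat_lit 0))
  (xk (xa T1.l8 (xb T1.l8 T1.l8)) (xa T1.l8 T1.l8)) = true := by decide +kernel
theorem c5_13_2 : chkTag sI cl9 cl6 cl4 t3 b5_13 (Tag.mk true true false RT.tl RT.r4) (I.pos (nat_lit 0) (nat_lit 124588530))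
  (xR (xR (xR T3.l4 T3.l4) T3.l4) (xR T3.l4 (xR T3.l9 T3.l4))) = true := by decide +kernel
theorem c5_13_3 : chkTag sI cl9 cl6 cl4 t1 b5_13 (Tag.mk true false false RT.tl RT.r5) (I.pos (nat_lit 0) (nat_lit 96881482))
  (xR (xR T1.l9 T1.l9) (xR T1.l9 (xR T1.l9 T1.l9))) = true := by decide +kernel
theorem c5_13_4 : chkTag sI cl9 cl6 cl4 t1 b5_13 (tg false false false RT.r3) (I.pos (nat_lit 0) (nat_lit 0))
  (xk (xa (xb T1.l13 (xb T1.l13 (xs T1.l13 T1.l13))) (xb T1.l10 (xb (xk T1.l10 T1.l10) (xs (xk T1.l10 T1.l10) (xk (xa T1.l13 (xb T1.l10 T1.l10)) (xa T1.l13 (xb T1.l10 (xs T1.l10 T1.l10)))))))) (xb (xa T1.l13 (xb T1.l13 T1.l10)) (xa (xb T1.l13 (xs T1.l13 (xa T1.l13 (xk T1.l13 T1.l13)))) (xb (xs T1.l10 (xk T1.l10 (xa T1.l13 T1.l13))) (xs (xk (xa T1.l13 T1.l10) (xa T1.l13 (xb T1.l10 T1.l10))) (xk (xa (xb T1.l13 T1.l13) (xb T1.l10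 (xs T1.l10 (xk T1.l10 T1.l13)))) (xa (xb T1.l13 (xs T1.l13 T1.l13)) (xb (xs T1.l10 T1.l13) (xs (xa T1.l13 T1.l10) (xa T1.l13 (xk T1.l13 T1.l13))))))))))) = true := by decide +kernel
theorem c5_13_5 : chkTag sI cl9 cl6 cl4 t3 b5_13 (tg false true false RT.r4) (I.pos (nat_lit 0) (nat_lit 0))
  T3.l10 = true := by decide +kernel
theorem c5_13_6 : chkTag sI cl9 cl6 cl4 t1 b5_13 (Tag.mk false false false RT.tl RT.r5) (I.mix (nat_lit 17240550) (nat_lit 96881482))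
  (xR T1.l11 (xR T1.l11 T1.l11)) = true := by decide +kernel
theorem c5_13_7 : chkTag sI cl9 cl6 cl4 t3 b5_13 (Tag.mk false true false RT.tl RT.r6) (I.mix (nat_lit 17240550) (nat_lit 71940500))
  (xR T3.l11 (xR T3.l11 T3.l11)) = true := by decide +kernel
theorem bx5_13 : BoxOK sI cl9 cl6 cl4 t3 t1 b5_13 :=
  box_mk' [(tg true true false RT.r2), (tg true false false RT.r3), (Tag.mk true true false RT.tl RT.r4), (Tag.mk true false false RT.tl RT.r5), (tg false false false RT.r3), (tg false true false RT.r4), (Tag.mk false false false RT.tl RT.r5), (Tag.mk false true false RT.tl RT.r6)] rfl (allL_c (ex_mk c5_13_0) (allL_c (ex_mk c5_13_1) (allL_c (ex_mk c5_13_2) (allL_c (ex_mk c5_13_3) (allL_c (ex_mk c5_13_4) (allL_c (ex_mk c5_13_5) (allL_c (ex_mk c5_13_6) (allL_c (ex_mk c5_13_7) allL_n))))))))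
theorem sv5 : StarV sI cl9 cl6 cl4 t3 t1 t5 :=
  (bt_n (bt_n (bt_n (bt_b bx5_0) (bt_n (bt_b bx5_1) (bt_b bx5_2))) (bt_n (bt_n (bt_b bx5_3) (bt_b bx5_4)) (bt_n (bt_b bx5_5) (bt_b bx5_6)))) (bt_n (bt_n (bt_b bx5_7) (bt_n (bt_b bx5_8) (bt_b bx5_9))) (bt_n (bt_n (bt_b bx5_10) (bt_b bx5_11)) (bt_n (bt_b bx5_12) (bt_b bx5_13)))))
def S5 : StarD := StarD.mk cl9 cl6 cl4 3 1 t5
def G : List StarD := [S0, S1, S2, S3, S4, S5]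
theorem so0 : StarOK sI G S0 :=
  star_mk (by decide) (by decide) rfl rfl rfl rfl rfl rfl (rfl : _ = t2) (rfl : _ = t4)
  (st_mk (Pth.l (Pth.l (Pth.l Pth.z))) (nat_lit 195661498) (nat_lit 197419815) (by decide +kernel))
  (st_mk (Pth.l (Pth.l (Pth.l Pth.z))) (nat_lit 234756926) (nat_lit 237350631) (by decide +kernel))
  (st_mk (Pth.l (Pth.l (Pth.l Pth.z))) (nat_lit 280969059) (nat_lit 284800408) (by decide +kernel)) sv0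
theorem so1 : StarOK sI G S1 :=
  star_mk (by decide) (by decide) rfl rfl rfl rfl rfl rfl (rfl : _ = t4) (rfl : _ = t2)
  (st_mk (Pth.l (Pth.l (Pth.l Pth.z))) (nat_lit 119775408) (nat_lit 139814347) (by decide +kernel))
  (st_mk (Pth.l (Pth.l (Pth.l Pth.z))) (nat_lit 156247460) (nat_lit 180964421) (by decide +kernel))
  (st_mk (Pth.l (Pth.l (Pth.l Pth.z))) (nat_lit 201854854) (nat_lit 227874337) (by decide +kernel)) sv1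
theorem so2 : StarOK sI G S2 :=
  star_mk (by decide) (by decide) rfl rfl rfl rfl rfl rfl (rfl : _ = t0) (rfl : _ = t5)
  (st_mk (Pth.l (Pth.l (Pth.l Pth.z))) (nat_lit 376878225) (nat_lit 378958639) (by decide +kernel))
  (st_mk (Pth.l (Pth.l (Pth.l Pth.z))) (nat_lit 414232688) (nat_lit 416762905) (by decide +kernel))
  (st_mk (Pth.l (Pth.l (Pth.l Pth.z))) (nat_lit 457646163) (nat_lit 460760079) (by decide +kernel)) sv2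
theorem so3 : StarOK sI G S3 :=
  star_mk (by decide) (by decide) rfl rfl rfl rfl rfl rfl (rfl : _ = t5) (rfl : _ = t0)
  (st_mk (Pth.l (Pth.l (Pth.l Pth.z))) (nat_lit 117355283) (nat_lit 136293516) (by decide +kernel))
  (st_mk (Pth.l (Pth.l (Pth.l Pth.z))) (nat_lit 153868301) (nat_lit 173210583) (by decide +kernel))
  (st_mk (Pth.l (Pth.l (Pth.l Pth.z))) (nat_lit 196573044) (nat_lit 216459166) (by decide +kernel)) sv3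
theorem so4 : StarOK sI G S4 :=
  star_mk (by decide) (by decide) rfl rfl rfl rfl rfl rfl (rfl : _ = t1) (rfl : _ = t3)
  (st_mk (Pth.l (Pth.l (Pth.l Pth.z))) (nat_lit 367396505) (nat_lit 372303716) (by decide +kernel))
  (st_mk (Pth.l (Pth.l (Pth.l Pth.z))) (nat_lit 402927243) (nat_lit 408513540) (by decide +kernel))
  (st_mk (Pth.l (Pth.l (Pth.l Pth.z))) (nat_lit 443998310) (nat_lit 450452391) (by decide +kernel)) sv4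
theorem so5 : StarOK sI G S5 :=
  star_mk (by decide) (by decide) rfl rfl rfl rfl rfl rfl (rfl : _ = t3) (rfl : _ = t1)
  (st_mk (Pth.l (Pth.l (Pth.l Pth.z))) (nat_lit 187068683) (nat_lit 188899592) (by decide +kernel))
  (st_mk (Pth.l (Pth.l (Pth.l Pth.z))) (nat_lit 222472329) (nat_lit 224846322) (by decide +kernel))
  (st_mk (Pth.l (Pth.l (Pth.l Pth.z))) (nat_lit 263433518) (nat_lit 266559232) (by decide +kernel)) sv5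
theorem ok : GroupOK (nat_lit 209321984) (nat_lit 268435456) G := grp_mk (allS_c so0 (allS_c so1 (allS_c so2 (allS_c so3 (allS_c so4 (allS_c so5 allS_n))))))
theorem cov : GCov G cl4 cl6 cl9 := cov_mk
  ⟨0, by decide, rfl, rfl, rfl⟩ ⟨1, by decide, rfl, rfl, rfl⟩ ⟨2, by decide, rfl, rfl, rfl⟩ ⟨3, by decide, rfl, rfl, rfl⟩ ⟨4, by decide, rfl, rfl, rfl⟩ ⟨5, by decide, rfl, rfl, rfl⟩
end Q135_3

namespace Q136_0
def sI : I := I.pos (nat_lit 0) (nat_lit 91291648)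
def b0_0 : Bx := Bx.mk (St.mk (I.pos (nat_lit 157515776) (nat_lit 264224768)) (I.mix (nat_lit 28557312) (nat_lit 66600960)) (I.mix (nat_lit 141901824) (nat_lit 63766528)) (I.pos (nat_lit 185139200) (nat_lit 363790336)) (I.mix (nat_lit 83443712) (nat_lit 62324736)) (I.mix (nat_lit 81199104) (nat_lit 75300864)) (I.mix (nat_lit 133005312) (nat_lit 153763840)))
  false (nat_lit 0)
def b0_1 : Bx := Bx.mk (St.mk (I.mix (nat_lit 24838144) (nat_lit 94191616)) (I.mix (nat_lit 11173888) (nat_lit 41156608)) (I.neg (nat_lit 1851392) (nat_lit 36831232)) (I.pos (nat_lit 82821120) (nat_lit 123584512)) (I.mix (nat_lit 26034176) (nat_lit 37765120)) (I.mix (nat_lit 38436864) (nat_lit 26034176)) (I.mix (nat_lit 25772032) (nat_lit 19120128)))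
  false (nat_lit 0)
def b0_2 : Bx := Bx.mk (St.mk (I.pos (nat_lit 83640320) (nat_lit 118489088)) (I.mix (nat_lit 56803328) (nat_lit 12140544)) (I.neg (nat_lit 18792448) (nat_lit 72826880)) (I.pos (nat_lit 115015680) (nat_lit 144080896)) (I.mix (nat_lit 81199104) (nat_lit 23953408)) (I.mix (nat_lit 38846464) (nat_lit 75120640)) (I.mix (nat_lit 27803648) (nat_lit 61538304)))
  false (nat_lit 0)
def b0_3 : Bx := Bx.mk (St.mk (I.mix (nat_lit 45170688) (nat_lit 23511040)) (I.mix (nat_lit 34586624) (nat_lit 8962048)) (I.neg (nat_lit 9814016) (nat_lit 26738688)) (I.pos (nat_lit 83247104) (nat_lit 99811328)) (I.mix (nat_lit 31850496) (nat_lit 18644992)) (I.mix (nat_lit 19873792) (nat_lit 30720000)) (I.mix (nat_lit 11583488) (nat_lit 9224192)))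
  false (nat_lit 0)
def b0_4 : Bx := Bx.mk (St.mk (I.pos (nat_lit 78512128) (nat_lit 90259456)) (I.mix (nat_lit 9879552) (nat_lit 8749056)) (I.neg (nat_lit 20316160) (nat_lit 35766272)) (I.pos (nat_lit 112001024) (nat_lit 122011648)) (I.mix (nat_lit 22675456) (nat_lit 14761984)) (I.mix (nat_lit 16711680) (nat_lit 17219584)) (I.mix (nat_lit 10846208) (nat_lit 15646720)))
  false (nat_lit 0)
def b0_5 : Bx := Bx.mk (St.mk (I.mix (nat_lit 53919744) (nat_lit 3194880)) (I.mix (nat_lit 8192000) (nat_lit 11796480)) (I.neg (nat_lit 17645568) (nat_lit 28655616)) (I.pos (nat_lit 87736320) (nat_lit 101859328)) (I.mix (nat_lit 18726912) (nat_lit 15302656)) (I.mix (nat_lit 15613952) (nat_lit 19628032)) (I.mix (nat_lit 7503872) (nat_lit 8224768)))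
  false (nat_lit 0)
def b0_6 : Bx := Bx.mk (St.mk (I.pos (nat_lit 89161728) (nat_lit 156729344)) (I.neg (nat_lit 1835008) (nat_lit 56786944)) (I.neg (nat_lit 24018944) (nat_lit 73711616)) (I.pos (nat_lit 123731968) (nat_lit 184958976)) (I.mix (nat_lit 74121216) (nat_lit 45383680)) (I.mix (nat_lit 38420480) (nat_lit 72679424)) (I.mix (nat_lit 26378240) (nat_lit 65355776)))
  false (nat_lit 0)
def b0_7 : Bx := Bx.mk (St.mk (I.mix (nat_lit 36028416) (nat_lit 45613056)) (I.mix (nat_lit 36225024) (nat_lit 6586368)) (I.neg (nat_lit 10616832) (nat_lit 30162944)) (I.pos (nat_lit 81133568) (nat_lit 101449728)) (I.mix (nat_lit 36880384) (nat_lit 29605888)) (I.mix (nat_lit 24756224) (nat_lit 44433408)) (I.mix (nat_lit 12582912) (nat_lit 18579456)))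
  false (nat_lit 0)
def b0_8 : Bx := Bx.mk (St.mk (I.mix (nat_lit 46678016) (nat_lit 77037568)) (I.mix (nat_lit 6602752) (nat_lit 37027840)) (I.neg (nat_lit 3440640) (nat_lit 30162944)) (I.pos (nat_lit 81133568) (nat_lit 112197632)) (I.mix (nat_lit 33357824) (nat_lit 36880384)) (I.mix (nat_lit 47513600) (nat_lit 28033024)) (I.mix (nat_lit 18087936) (nat_lit 18579456)))
  false (nat_lit 0)
def b0_9 : Bx := Bx.mk (St.mk (I.pos (nat_lit 140640256) (nat_lit 219054080)) (I.mix (nat_lit 40632320) (nat_lit 71696384)) (I.mix (nat_lit 68648960) (nat_lit 62947328)) (I.pos (nat_lit 167624704) (nat_lit 271810560)) (I.mix (nat_lit 117325824) (nat_lit 57655296)) (I.mix (nat_lit 138002432) (nat_lit 85082112)) (I.mix (nat_lit 134987776) (nat_lit 80068608)))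
  false (nat_lit 0)
def t0 : BTr := (BTr.n (BTr.n (BTr.n (BTr.b b0_0) (BTr.b b0_1)) (BTr.n (BTr.b b0_2) (BTr.n (BTr.b b0_3) (BTr.b b0_4)))) (BTr.n (BTr.n (BTr.b b0_5) (BTr.b b0_6)) (BTr.n (BTr.b b0_7) (BTr.n (BTr.b b0_8) (BTr.b b0_9)))))
namespace T0
def l0 : Tr := Tr.L (Pth.l (Pth.l (Pth.l Pth.z)))
def l1 : Tr := Tr.L (Pth.l (Pth.l (Pth.r Pth.z)))
def l2 : Tr := Tr.L (Pth.l (Pth.r (Pth.l Pth.z)))
def l3 : Tr := Tr.L (Pth.l (Pth.r (Pth.r (Pth.l Pth.z))))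
def l4 : Tr := Tr.L (Pth.l (Pth.r (Pth.r (Pth.r Pth.z))))
def l5 : Tr := Tr.L (Pth.r (Pth.l (Pth.l Pth.z)))
def l6 : Tr := Tr.L (Pth.r (Pth.l (Pth.r Pth.z)))
def l7 : Tr := Tr.L (Pth.r (Pth.r (Pth.l Pth.z)))
def l8 : Tr := Tr.L (Pth.r (Pth.r (Pth.r (Pth.l Pth.z))))
def l9 : Tr := Tr.L (Pth.r (Pth.r (Pth.r (Pth.r Pth.z))))
end T0
def b1_0 : Bx := Bx.mk (St.mk (I.pos (nat_lit 157581312) (nat_lit 261931008)) (I.mix (nat_lit 23576576) (nat_lit 54542336)) (I.mix (nat_lit 77774848) (nat_lit 75202560)) (I.pos (nat_lit 92291072) (nat_lit 281493504)) (I.mix (nat_lit 87965696) (nat_lit 57458688)) (I.mix (nat_lit 77545472) (nat_lit 63684608)) (I.mix (nat_lit 126615552) (nat_lit 126418944)))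
  false (nat_lit 0)
def b1_1 : Bx := Bx.mk (St.mk (I.mix (nat_lit 8781824) (nat_lit 138395648)) (I.mix (nat_lit 8126464) (nat_lit 25985024)) (I.mix (nat_lit 17596416) (nat_lit 15532032)) (I.mix (nat_lit 3080192) (nat_lit 86786048)) (I.mix (nat_lit 23330816) (nat_lit 23052288)) (I.mix (nat_lit 22790144) (nat_lit 16875520)) (I.mix (nat_lit 20004864) (nat_lit 16564224)))
  false (nat_lit 0)
def b1_2 : Bx := Bx.mk (St.mk (I.pos (nat_lit 120520704) (nat_lit 154796032)) (I.mix (nat_lit 45416448) (nat_lit 9568256)) (I.mix (nat_lit 55345152) (nat_lit 409600)) (I.pos (nat_lit 55476224) (nat_lit 103104512)) (I.mix (nat_lit 75874304) (nat_lit 22380544)) (I.mix (nat_lit 39157760) (nat_lit 83050496)) (I.mix (nat_lit 32800768) (nat_lit 79609856)))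
  false (nat_lit 0)
def b1_3 : Bx := Bx.mk (St.mk (I.mix (nat_lit 11960320) (nat_lit 105381888)) (I.mix (nat_lit 23166976) (nat_lit 1359872)) (I.mix (nat_lit 21823488) (nat_lit 1196032)) (I.mix (nat_lit 2228224) (nat_lit 57278464)) (I.mix (nat_lit 32161792) (nat_lit 12075008)) (I.mix (nat_lit 18186240) (nat_lit 32571392)) (I.mix (nat_lit 10878976) (nat_lit 21168128)))
  false (nat_lit 0)
def b1_4 : Bx := Bx.mk (St.mk (I.mix (nat_lit 13860864) (nat_lit 92209152)) (I.mix (nat_lit 1851392) (nat_lit 2572288)) (I.mix (nat_lit 6455296) (nat_lit 737280)) (I.mix (nat_lit 1949696) (nat_lit 47611904)) (I.mix (nat_lit 4964352) (nat_lit 2129920)) (I.mix (nat_lit 2260992) (nat_lit 2523136)) (I.mix (nat_lit 671744) (nat_lit 1130496)))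
  false (nat_lit 0)
def b1_5 : Bx := Bx.mk (St.mk (I.pos (nat_lit 115261440) (nat_lit 134348800)) (I.mix (nat_lit 7471104) (nat_lit 6569984)) (I.neg (nat_lit 1392640) (nat_lit 16973824)) (I.pos (nat_lit 52183040) (nat_lit 84836352)) (I.mix (nat_lit 19824640) (nat_lit 11206656)) (I.mix (nat_lit 13598720) (nat_lit 16187392)) (I.mix (nat_lit 12058624) (nat_lit 16302080)))
  false (nat_lit 0)
def b1_6 : Bx := Bx.mk (St.mk (I.pos (nat_lit 124944384) (nat_lit 184320000)) (I.neg (nat_lit 4046848) (nat_lit 48840704)) (I.neg (nat_lit 9388032) (nat_lit 56655872)) (I.pos (nat_lit 71860224) (nat_lit 146096128)) (I.mix (nat_lit 65454080) (nat_lit 32620544)) (I.mix (nat_lit 35061760) (nat_lit 56328192)) (I.mix (nat_lit 32768000) (nat_lit 60096512)))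
  false (nat_lit 0)
def b1_7 : Bx := Bx.mk (St.mk (I.mix (nat_lit 9224192) (nat_lit 117555200)) (I.mix (nat_lit 26722304) (nat_lit 5259264)) (I.mix (nat_lit 24117248) (nat_lit 1245184)) (I.mix (nat_lit 2523136) (nat_lit 67518464)) (I.mix (nat_lit 31883264) (nat_lit 22347776)) (I.mix (nat_lit 20103168) (nat_lit 29949952)) (I.mix (nat_lit 11812864) (nat_lit 21807104)))
  false (nat_lit 0)
def b1_8 : Bx := Bx.mk (St.mk (I.pos (nat_lit 154009600) (nat_lit 221904896)) (I.mix (nat_lit 38322176) (nat_lit 57196544)) (I.mix (nat_lit 51675136) (nat_lit 77824000)) (I.pos (nat_lit 96223232) (nat_lit 202358784)) (I.mix (nat_lit 127598592) (nat_lit 45989888)) (I.mix (nat_lit 163086336) (nat_lit 87031808)) (I.mix (nat_lit 198721536) (nat_lit 103170048)))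
  false (nat_lit 0)
def b1_9 : Bx := Bx.mk (St.mk (I.mix (nat_lit 13860864) (nat_lit 135561216)) (I.mix (nat_lit 13352960) (nat_lit 31309824)) (I.mix (nat_lit 15777792) (nat_lit 19120128)) (I.mix (nat_lit 2981888) (nat_lit 83263488)) (I.mix (nat_lit 45236224) (nat_lit 26279936)) (I.mix (nat_lit 52019200) (nat_lit 35078144)) (I.mix (nat_lit 36077568) (nat_lit 24281088)))
  false (nat_lit 0)
def t1 : BTr := (BTr.n (BTr.n (BTr.n (BTr.b b1_0) (BTr.b b1_1)) (BTr.n (BTr.b b1_2) (BTr.n (BTr.b b1_3) (BTr.b b1_4)))) (BTr.n (BTr.n (BTr.b b1_5) (BTr.b b1_6)) (BTr.n (BTr.b b1_7) (BTr.n (BTr.b b1_8) (BTr.b b1_9)))))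
namespace T1
def l0 : Tr := Tr.L (Pth.l (Pth.l (Pth.l Pth.z)))
def l1 : Tr := Tr.L (Pth.l (Pth.l (Pth.r Pth.z)))
def l2 : Tr := Tr.L (Pth.l (Pth.r (Pth.l Pth.z)))
def l3 : Tr := Tr.L (Pth.l (Pth.r (Pth.r (Pth.l Pth.z))))
def l4 : Tr := Tr.L (Pth.l (Pth.r (Pth.r (Pth.r Pth.z))))
def l5 : Tr := Tr.L (Pth.r (Pth.l (Pth.l Pth.z)))
def l6 : Tr := Tr.L (Pth.r (Pth.l (Pth.r Pth.z)))
def l7 : Tr := Tr.L (Pth.r (Pth.r (Pth.l Pth.z)))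
def l8 : Tr := Tr.L (Pth.r (Pth.r (Pth.r (Pth.l Pth.z))))
def l9 : Tr := Tr.L (Pth.r (Pth.r (Pth.r (Pth.r Pth.z))))
end T1
def b2_0 : Bx := Bx.mk (St.mk (I.pos (nat_lit 156844032) (nat_lit 287309824)) (I.mix (nat_lit 41779200) (nat_lit 93323264)) (I.mix (nat_lit 221904896) (nat_lit 80789504)) (I.pos (nat_lit 364068864) (nat_lit 588775424)) (I.mix (nat_lit 85737472) (nat_lit 78774272)) (I.mix (nat_lit 98598912) (nat_lit 69042176)) (I.mix (nat_lit 149323776) (nat_lit 140607488)))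
  false (nat_lit 22301892)
def b2_1 : Bx := Bx.mk (St.mk (I.mix (nat_lit 56786944) (nat_lit 13664256)) (I.mix (nat_lit 14303232) (nat_lit 86523904)) (I.neg (nat_lit 54902784) (nat_lit 78364672)) (I.pos (nat_lit 265355264) (nat_lit 287375360)) (I.mix (nat_lit 39305216) (nat_lit 85049344)) (I.mix (nat_lit 84901888) (nat_lit 46923776)) (I.mix (nat_lit 29392896) (nat_lit 25559040)))
  true (nat_lit 0)
def b2_2 : Bx := Bx.mk (St.mk (I.mix (nat_lit 13713408) (nat_lit 56901632)) (I.mix (nat_lit 86523904) (nat_lit 20840448)) (I.neg (nat_lit 54902784) (nat_lit 78364672)) (I.pos (nat_lit 265355264) (nat_lit 287375360)) (I.mix (nat_lit 85049344) (nat_lit 39305216)) (I.mix (nat_lit 46923776) (nat_lit 84901888)) (I.mix (nat_lit 29392896) (nat_lit 25870336)))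
  false (nat_lit 0)
def b2_3 : Bx := Bx.mk (St.mk (I.pos (nat_lit 27312128) (nat_lit 117522432)) (I.neg (nat_lit 8241152) (nat_lit 88211456)) (I.neg (nat_lit 16367616) (nat_lit 90996736)) (I.pos (nat_lit 267223040) (nat_lit 326385664)) (I.mix (nat_lit 81281024) (nat_lit 62685184)) (I.mix (nat_lit 53690368) (nat_lit 93863936)) (I.mix (nat_lit 58966016) (nat_lit 78790656)))
  false (nat_lit 0)
def b2_4 : Bx := Bx.mk (St.mk (I.pos (nat_lit 99794944) (nat_lit 196116480)) (I.mix (nat_lit 37535744) (nat_lit 97943552)) (I.mix (nat_lit 48234496) (nat_lit 81379328)) (I.pos (nat_lit 307019776) (nat_lit 423936000)) (I.mix (nat_lit 118456320) (nat_lit 66781184)) (I.mix (nat_lit 156155904) (nat_lit 82952192)) (I.mix (nat_lit 153911296) (nat_lit 97681408)))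
  false (nat_lit 0)
def b2_5 : Bx := Bx.mk (St.mk (I.neg (nat_lit 27295744) (nat_lit 117522432)) (I.pos (nat_lit 8241152) (nat_lit 88227840)) (I.neg (nat_lit 16367616) (nat_lit 90996736)) (I.pos (nat_lit 267223040) (nat_lit 326385664)) (I.mix (nat_lit 62685184) (nat_lit 81281024)) (I.mix (nat_lit 93880320) (nat_lit 53690368)) (I.mix (nat_lit 58982400) (nat_lit 78741504)))
  true (nat_lit 0)
def t2 : BTr := (BTr.n (BTr.n (BTr.b b2_0) (BTr.n (BTr.b b2_1) (BTr.b b2_2))) (BTr.n (BTr.b b2_3) (BTr.n (BTr.b b2_4) (BTr.b b2_5))))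
namespace T2
def l0 : Tr := Tr.L (Pth.l (Pth.l Pth.z))
def l1 : Tr := Tr.L (Pth.l (Pth.r (Pth.l Pth.z)))
def l2 : Tr := Tr.L (Pth.l (Pth.r (Pth.r Pth.z)))
def l3 : Tr := Tr.L (Pth.r (Pth.l Pth.z))
def l4 : Tr := Tr.L (Pth.r (Pth.r (Pth.l Pth.z)))
def l5 : Tr := Tr.L (Pth.r (Pth.r (Pth.r Pth.z)))
end T2
def b3_0 : Bx := Bx.mk (St.mk (I.pos (nat_lit 156958720) (nat_lit 282935296)) (I.mix (nat_lit 28082176) (nat_lit 48742400)) (I.mix (nat_lit 24887296) (nat_lit 110690304)) (I.pos (nat_lit 90210304) (nat_lit 320798720)) (I.mix (nat_lit 99024896) (nat_lit 64503808)) (I.mix (nat_lit 96518144) (nat_lit 68845568)) (I.mix (nat_lit 154517504) (nat_lit 96632832)))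
  false (nat_lit 47644872)
def b3_1 : Bx := Bx.mk (St.mk (I.pos (nat_lit 132579328) (nat_lit 176865280)) (I.neg (nat_lit 4341760) (nat_lit 53723136)) (I.mix (nat_lit 42041344) (nat_lit 10567680)) (I.pos (nat_lit 80412672) (nat_lit 131366912)) (I.mix (nat_lit 56213504) (nat_lit 35209216)) (I.mix (nat_lit 36061184) (nat_lit 46006272)) (I.mix (nat_lit 33521664) (nat_lit 47251456)))
  false (nat_lit 0)
def b3_2 : Bx := Bx.mk (St.mk (I.mix (nat_lit 7766016) (nat_lit 114343936)) (I.mix (nat_lit 26066944) (nat_lit 3047424)) (I.mix (nat_lit 12484608) (nat_lit 8945664)) (I.mix (nat_lit 2392064) (nat_lit 63324160)) (I.mix (nat_lit 21987328) (nat_lit 20267008)) (I.mix (nat_lit 14811136) (nat_lit 20545536)) (I.mix (nat_lit 9764864) (nat_lit 14598144)))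
  false (nat_lit 0)
def b3_3 : Bx := Bx.mk (St.mk (I.pos (nat_lit 165199872) (nat_lit 215678976)) (I.mix (nat_lit 39878656) (nat_lit 55574528)) (I.mix (nat_lit 23429120) (nat_lit 111067136)) (I.pos (nat_lit 108249088) (nat_lit 188727296)) (I.mix (nat_lit 138280960) (nat_lit 43909120)) (I.mix (nat_lit 168443904) (nat_lit 77676544)) (I.mix (nat_lit 220332032) (nat_lit 84426752)))
  false (nat_lit 33036345)
def b3_4 : Bx := Bx.mk (St.mk (I.mix (nat_lit 13008896) (nat_lit 132317184)) (I.mix (nat_lit 13910016) (nat_lit 31031296)) (I.mix (nat_lit 2850816) (nat_lit 34766848)) (I.mix (nat_lit 2867200) (nat_lit 79577088)) (I.mix (nat_lit 50020352) (nat_lit 21512192)) (I.mix (nat_lit 53444608) (nat_lit 30375936)) (I.mix (nat_lit 41762816) (nat_lit 19922944)))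
  false (nat_lit 0)
def b3_5 : Bx := Bx.mk (St.mk (I.mix (nat_lit 14663680) (nat_lit 115605504)) (I.mix (nat_lit 15073280) (nat_lit 3981312)) (I.mix (nat_lit 3391488) (nat_lit 10567680)) (I.mix (nat_lit 2441216) (nat_lit 65011712)) (I.mix (nat_lit 15237120) (nat_lit 8912896)) (I.mix (nat_lit 11354112) (nat_lit 11190272)) (I.mix (nat_lit 8519680) (nat_lit 7045120)))
  false (nat_lit 0)
def b3_6 : Bx := Bx.mk (St.mk (I.pos (nat_lit 148815872) (nat_lit 180486144)) (I.neg (nat_lit 2588672) (nat_lit 38993920)) (I.mix (nat_lit 22036480) (nat_lit 18169856)) (I.pos (nat_lit 92684288) (nat_lit 137265152)) (I.mix (nat_lit 41959424) (nat_lit 22069248)) (I.mix (nat_lit 24821760) (nat_lit 30392320)) (I.mix (nat_lit 31981568) (nat_lit 31277056)))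
  false (nat_lit 0)
def b3_7 : Bx := Bx.mk (St.mk (I.pos (nat_lit 49037312) (nat_lit 141754368)) (I.mix (nat_lit 8241152) (nat_lit 24838144)) (I.mix (nat_lit 655360) (nat_lit 31670272)) (I.pos (nat_lit 10993664) (nat_lit 91308032)) (I.mix (nat_lit 37781504) (nat_lit 23969792)) (I.mix (nat_lit 36667392) (nat_lit 25034752)) (I.mix (nat_lit 31162368) (nat_lit 18874368)))
  false (nat_lit 0)
def b3_8 : Bx := Bx.mk (St.mk (I.pos (nat_lit 117325824) (nat_lit 161021952)) (I.mix (nat_lit 49954816) (nat_lit 8486912)) (I.mix (nat_lit 37109760) (nat_lit 17121280)) (I.pos (nat_lit 53067776) (nat_lit 109838336)) (I.mix (nat_lit 69615616) (nat_lit 25591808)) (I.mix (nat_lit 43630592) (nat_lit 80035840)) (I.mix (nat_lit 38076416) (nat_lit 68960256)))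
  false (nat_lit 0)
def b3_9 : Bx := Bx.mk (St.mk (I.mix (nat_lit 12845056) (nat_lit 109363200)) (I.mix (nat_lit 24838144) (nat_lit 3997696)) (I.mix (nat_lit 10715136) (nat_lit 7585792)) (I.mix (nat_lit 2064384) (nat_lit 59604992)) (I.mix (nat_lit 28770304) (nat_lit 16826368)) (I.mix (nat_lit 21102592) (nat_lit 31539200)) (I.mix (nat_lit 12189696) (nat_lit 17973248)))
  false (nat_lit 0)
def t3 : BTr := (BTr.n (BTr.n (BTr.n (BTr.b b3_0) (BTr.b b3_1)) (BTr.n (BTr.b b3_2) (BTr.n (BTr.b b3_3) (BTr.b b3_4)))) (BTr.n (BTr.n (BTr.b b3_5) (BTr.b b3_6)) (BTr.n (BTr.b b3_7) (BTr.n (BTr.b b3_8) (BTr.b b3_9)))))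
namespace T3
def l0 : Tr := Tr.L (Pth.l (Pth.l (Pth.l Pth.z)))
def l1 : Tr := Tr.L (Pth.l (Pth.l (Pth.r Pth.z)))
def l2 : Tr := Tr.L (Pth.l (Pth.r (Pth.l Pth.z)))
def l3 : Tr := Tr.L (Pth.l (Pth.r (Pth.r (Pth.l Pth.z))))
def l4 : Tr := Tr.L (Pth.l (Pth.r (Pth.r (Pth.r Pth.z))))
def l5 : Tr := Tr.L (Pth.r (Pth.l (Pth.l Pth.z)))
def l6 : Tr := Tr.L (Pth.r (Pth.l (Pth.r Pth.z)))
def l7 : Tr := Tr.L (Pth.r (Pth.r (Pth.l Pth.z)))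
def l8 : Tr := Tr.L (Pth.r (Pth.r (Pth.r (Pth.l Pth.z))))
def l9 : Tr := Tr.L (Pth.r (Pth.r (Pth.r (Pth.r Pth.z))))
end T3
def b4_0 : Bx := Bx.mk (St.mk (I.pos (nat_lit 147488768) (nat_lit 281739264)) (I.mix (nat_lit 20971520) (nat_lit 88621056)) (I.mix (nat_lit 98287616) (nat_lit 118947840)) (I.pos (nat_lit 358580224) (nat_lit 559906816)) (I.mix (nat_lit 104136704) (nat_lit 93880320)) (I.mix (nat_lit 127893504) (nat_lit 74432512)) (I.mix (nat_lit 182370304) (nat_lit 100843520)))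
  false (nat_lit 146139130)
def b4_1 : Bx := Bx.mk (St.mk (I.pos (nat_lit 39501824) (nat_lit 127991808)) (I.neg (nat_lit 3883008) (nat_lit 91815936)) (I.mix (nat_lit 55033856) (nat_lit 29278208)) (I.pos (nat_lit 270778368) (nat_lit 330792960)) (I.mix (nat_lit 67452928) (nat_lit 56754176)) (I.mix (nat_lit 52068352) (nat_lit 67502080)) (I.mix (nat_lit 49577984) (nat_lit 54984704)))
  false (nat_lit 0)
def b4_2 : Bx := Bx.mk (St.mk (I.pos (nat_lit 100646912) (nat_lit 185696256)) (I.mix (nat_lit 38273024) (nat_lit 95764480)) (I.mix (nat_lit 5554176) (nat_lit 129531904)) (I.pos (nat_lit 304939008) (nat_lit 402735104)) (I.mix (nat_lit 131252224) (nat_lit 57327616)) (I.mix (nat_lit 133578752) (nat_lit 85590016)) (I.mix (nat_lit 131039232) (nat_lit 105775104)))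
  false (nat_lit 89029416)
def b4_3 : Bx := Bx.mk (St.mk (I.neg (nat_lit 39501824) (nat_lit 128204800)) (I.pos (nat_lit 425984) (nat_lit 91815936)) (I.mix (nat_lit 55033856) (nat_lit 32931840)) (I.pos (nat_lit 270778368) (nat_lit 331235328)) (I.mix (nat_lit 56770560) (nat_lit 67452928)) (I.mix (nat_lit 67502080) (nat_lit 52068352)) (I.mix (nat_lit 49577984) (nat_lit 54984704)))
  true (nat_lit 0)
def b4_4 : Bx := Bx.mk (St.mk (I.mix (nat_lit 64913408) (nat_lit 6881280)) (I.mix (nat_lit 10354688) (nat_lit 90865664)) (I.neg (nat_lit 21905408) (nat_lit 42467328)) (I.pos (nat_lit 266108928) (nat_lit 290635776)) (I.mix (nat_lit 45826048) (nat_lit 79429632)) (I.mix (nat_lit 94552064) (nat_lit 51134464)) (I.mix (nat_lit 27820032) (nat_lit 25395200)))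
  true (nat_lit 0)
def b4_5 : Bx := Bx.mk (St.mk (I.mix (nat_lit 6881280) (nat_lit 64913408)) (I.mix (nat_lit 90865664) (nat_lit 10354688)) (I.neg (nat_lit 21905408) (nat_lit 42467328)) (I.pos (nat_lit 266108928) (nat_lit 290635776)) (I.mix (nat_lit 79429632) (nat_lit 45826048)) (I.mix (nat_lit 51134464) (nat_lit 94552064)) (I.mix (nat_lit 27820032) (nat_lit 25395200)))
  false (nat_lit 0)
def t4 : BTr := (BTr.n (BTr.n (BTr.b b4_0) (BTr.n (BTr.b b4_1) (BTr.b b4_2))) (BTr.n (BTr.b b4_3) (BTr.n (BTr.b b4_4) (BTr.b b4_5))))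
namespace T4
def l0 : Tr := Tr.L (Pth.l (Pth.l Pth.z))
def l1 : Tr := Tr.L (Pth.l (Pth.r (Pth.l Pth.z)))
def l2 : Tr := Tr.L (Pth.l (Pth.r (Pth.r Pth.z)))
def l3 : Tr := Tr.L (Pth.r (Pth.l Pth.z))
def l4 : Tr := Tr.L (Pth.r (Pth.r (Pth.l Pth.z)))
def l5 : Tr := Tr.L (Pth.r (Pth.r (Pth.r Pth.z)))
end T4
def b5_0 : Bx := Bx.mk (St.mk (I.pos (nat_lit 151699456) (nat_lit 278970368)) (I.mix (nat_lit 17711104) (nat_lit 58736640)) (I.mix (nat_lit 3784704) (nat_lit 131366912)) (I.pos (nat_lit 179716096) (nat_lit 377159680)) (I.mix (nat_lit 117325824) (nat_lit 88096768)) (I.mix (nat_lit 127188992) (nat_lit 81379328)) (I.mix (nat_lit 184713216) (nat_lit 101122048)))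
  false (nat_lit 79802801)
def b5_1 : Bx := Bx.mk (St.mk (I.pos (nat_lit 108576768) (nat_lit 161103872)) (I.neg (nat_lit 5554176) (nat_lit 63586304)) (I.mix (nat_lit 31948800) (nat_lit 35766272)) (I.pos (nat_lit 140083200) (nat_lit 183566336)) (I.mix (nat_lit 53870592) (nat_lit 42582016)) (I.mix (nat_lit 35799040) (nat_lit 50266112)) (I.mix (nat_lit 31735808) (nat_lit 44679168)))
  false (nat_lit 0)
def b5_2 : Bx := Bx.mk (St.mk (I.mix (nat_lit 23838720) (nat_lit 45711360)) (I.mix (nat_lit 35766272) (nat_lit 7847936)) (I.pos (nat_lit 3670016) (nat_lit 19447808)) (I.pos (nat_lit 82870272) (nat_lit 98926592)) (I.mix (nat_lit 18300928) (nat_lit 29409280)) (I.mix (nat_lit 19120128) (nat_lit 28540928)) (I.mix (nat_lit 7553024) (nat_lit 10649600)))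
  false (nat_lit 0)
def b5_3 : Bx := Bx.mk (St.mk (I.pos (nat_lit 148488192) (nat_lit 204079104)) (I.mix (nat_lit 40894464) (nat_lit 67862528)) (I.mix (nat_lit 3358720) (nat_lit 134250496)) (I.pos (nat_lit 172097536) (nat_lit 241451008)) (I.mix (nat_lit 128712704) (nat_lit 47742976)) (I.mix (nat_lit 135888896) (nat_lit 74465280)) (I.mix (nat_lit 158679040) (nat_lit 68616192)))
  false (nat_lit 37796816)
def b5_4 : Bx := Bx.mk (St.mk (I.mix (nat_lit 47185920) (nat_lit 68222976)) (I.mix (nat_lit 12189696) (nat_lit 37765120)) (I.pos (nat_lit 3325952) (nat_lit 31408128)) (I.pos (nat_lit 82870272) (nat_lit 106840064)) (I.mix (nat_lit 39403520) (nat_lit 19070976)) (I.mix (nat_lit 30441472) (nat_lit 21708800)) (I.mix (nat_lit 14221312) (nat_lit 10747904)))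
  false (nat_lit 0)
def b5_5 : Bx := Bx.mk (St.mk (I.pos (nat_lit 140787712) (nat_lit 159645696)) (I.neg (nat_lit 6471680) (nat_lit 34471936)) (I.pos (nat_lit 3751936) (nat_lit 34701312)) (I.pos (nat_lit 164298752) (nat_lit 182272000)) (I.mix (nat_lit 32718848) (nat_lit 27328512)) (I.mix (nat_lit 24526848) (nat_lit 29933568)) (I.mix (nat_lit 29655040) (nat_lit 26820608)))
  false (nat_lit 0)
def b5_6 : Bx := Bx.mk (St.mk (I.mix (nat_lit 56049664) (nat_lit 46055424)) (I.mix (nat_lit 13713408) (nat_lit 11190272)) (I.pos (nat_lit 9830400) (nat_lit 21102592)) (I.pos (nat_lit 86343680) (nat_lit 101007360)) (I.mix (nat_lit 19054592) (nat_lit 13778944)) (I.mix (nat_lit 18448384) (nat_lit 14532608)) (I.mix (nat_lit 6225920) (nat_lit 7077888)))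
  false (nat_lit 0)
def b5_7 : Bx := Bx.mk (St.mk (I.mix (nat_lit 35241984) (nat_lit 95879168)) (I.mix (nat_lit 7405568) (nat_lit 38371328)) (I.pos (nat_lit 4587520) (nat_lit 36716544)) (I.pos (nat_lit 80642048) (nat_lit 123256832)) (I.mix (nat_lit 45400064) (nat_lit 36405248)) (I.mix (nat_lit 54362112) (nat_lit 28622848)) (I.mix (nat_lit 34979840) (nat_lit 19251200)))
  false (nat_lit 0)
def b5_8 : Bx := Bx.mk (St.mk (I.pos (nat_lit 84574208) (nat_lit 133283840)) (I.mix (nat_lit 65028096) (nat_lit 9060352)) (I.mix (nat_lit 29523968) (nat_lit 19234816)) (I.pos (nat_lit 115916800) (nat_lit 154976256)) (I.mix (nat_lit 62341120) (nat_lit 32489472)) (I.mix (nat_lit 42565632) (nat_lit 75661312)) (I.mix (nat_lit 28966912) (nat_lit 48594944)))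
  false (nat_lit 0)
def b5_9 : Bx := Bx.mk (St.mk (I.mix (nat_lit 44089344) (nat_lit 34619392)) (I.mix (nat_lit 35323904) (nat_lit 4472832)) (I.pos (nat_lit 5324800) (nat_lit 21938176)) (I.pos (nat_lit 81264640) (nat_lit 100155392)) (I.mix (nat_lit 28655616) (nat_lit 32210944)) (I.mix (nat_lit 23265280) (nat_lit 41222144)) (I.mix (nat_lit 15810560) (nat_lit 11157504)))
  false (nat_lit 0)
def t5 : BTr := (BTr.n (BTr.n (BTr.n (BTr.b b5_0) (BTr.b b5_1)) (BTr.n (BTr.b b5_2) (BTr.n (BTr.b b5_3) (BTr.b b5_4)))) (BTr.n (BTr.n (BTr.b b5_5) (BTr.b b5_6)) (BTr.n (BTr.b b5_7) (BTr.n (BTr.b b5_8) (BTr.b b5_9)))))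
namespace T5
def l0 : Tr := Tr.L (Pth.l (Pth.l (Pth.l Pth.z)))
def l1 : Tr := Tr.L (Pth.l (Pth.l (Pth.r Pth.z)))
def l2 : Tr := Tr.L (Pth.l (Pth.r (Pth.l Pth.z)))
def l3 : Tr := Tr.L (Pth.l (Pth.r (Pth.r (Pth.l Pth.z))))
def l4 : Tr := Tr.L (Pth.l (Pth.r (Pth.r (Pth.r Pth.z))))
def l5 : Tr := Tr.L (Pth.r (Pth.l (Pth.l Pth.z)))
def l6 : Tr := Tr.L (Pth.r (Pth.l (Pth.r Pth.z)))
def l7 : Tr := Tr.L (Pth.r (Pth.r (Pth.l Pth.z)))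
def l8 : Tr := Tr.L (Pth.r (Pth.r (Pth.r (Pth.l Pth.z))))
def l9 : Tr := Tr.L (Pth.r (Pth.r (Pth.r (Pth.r Pth.z))))
end T5
theorem bx0_0 : BoxOK sI cl4 cl6 cl13 t2 t4 b0_0 :=
  box_mk (TrL.c (I.pos (nat_lit 0) (nat_lit 0)) (xa (xb (xa T2.l0 T2.l0) (xa (xb T2.l0 T2.l0) T2.l0)) (xb (xa (xb T2.l0 T2.l0) T2.l4) (xa (xb T2.l0 T2.l0) T2.l4)))
  (TrL.c (I.pos (nat_lit 0) (nat_lit 0)) (xa (xb T4.l1 T4.l1) (xb T4.l1 (xa T4.l1 T4.l1)))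
  (TrL.c (I.pos (nat_lit 0) (nat_lit 0)) (xs (xa T2.l1 T2.l5) (xa T2.l1 T2.l5))
  (TrL.c (I.pos (nat_lit 0) (nat_lit 0)) (xa T4.l2 (xb (xa T4.l2 (xs T4.l2 T4.l2)) (xa T4.l2 (xs T4.l2 T4.l2))))
  (TrL.c (I.pos (nat_lit 0) (nat_lit 0)) (xa T2.l2 (xs T2.l3 T2.l3))
  (TrL.c (I.pos (nat_lit 0) (nat_lit 0)) (xa (xb T4.l3 T4.l3) (xb T4.l3 (xa T4.l3 T4.l3)))
  TrL.n)))))) (by decide +kernel)
theorem bx0_1 : BoxOK sI cl4 cl6 cl13 t2 t4 b0_1 :=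
  box_mk (TrL.c (I.pos (nat_lit 0) (nat_lit 0)) T2.l0
  (TrL.c (I.pos (nat_lit 0) (nat_lit 0)) T4.l1
  (TrL.c (I.pos (nat_lit 0) (nat_lit 0)) T2.l1
  (TrL.c (I.pos (nat_lit 0) (nat_lit 0)) (xa T4.l2 T4.l2)
  (TrL.c (I.pos (nat_lit 0) (nat_lit 0)) T2.l2
  (TrL.c (I.pos (nat_lit 0) (nat_lit 0)) T4.l3
  TrL.n)))))) (by decide +kernel)
theorem bx0_2 : BoxOK sI cl4 cl6 cl13 t2 t4 b0_2 :=
  box_mk (TrL.c (I.pos (nat_lit 0) (nat_lit 0)) T2.l0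
  (TrL.c (I.pos (nat_lit 0) (nat_lit 0)) T4.l1
  (TrL.c (I.pos (nat_lit 0) (nat_lit 0)) T2.l1
  (TrL.c (I.pos (nat_lit 0) (nat_lit 0)) T4.l2
  (TrL.c (I.pos (nat_lit 0) (nat_lit 0)) T2.l2
  (TrL.c (I.pos (nat_lit 0) (nat_lit 0)) T4.l3
  TrL.n)))))) (by decide +kernel)
theorem bx0_3 : BoxOK sI cl4 cl6 cl13 t2 t4 b0_3 :=
  box_mk (TrL.c (I.pos (nat_lit 0) (nat_lit 0)) (xa (xb T2.l0 T2.l0) T2.l0)
  (TrL.c (I.pos (nat_lit 0) (nat_lit 0)) T4.l2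
  (TrL.c (I.pos (nat_lit 0) (nat_lit 0)) T2.l2
  (TrL.c (I.pos (nat_lit 0) (nat_lit 0)) T4.l1
  (TrL.c (I.pos (nat_lit 0) (nat_lit 0)) T2.l2
  (TrL.c (I.pos (nat_lit 0) (nat_lit 0)) T4.l3
  TrL.n)))))) (by decide +kernel)
theorem bx0_4 : BoxOK sI cl4 cl6 cl13 t2 t4 b0_4 :=
  box_mk (TrL.c (I.pos (nat_lit 0) (nat_lit 0)) T2.l0
  (TrL.c (I.pos (nat_lit 0) (nat_lit 0)) T4.l1
  (TrL.c (I.pos (nat_lit 0) (nat_lit 0)) T2.l1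
  (TrL.c (I.pos (nat_lit 0) (nat_lit 0)) T4.l2
  (TrL.c (I.pos (nat_lit 0) (nat_lit 0)) T2.l2
  (TrL.c (I.pos (nat_lit 0) (nat_lit 0)) T4.l3
  TrL.n)))))) (by decide +kernel)
theorem bx0_5 : BoxOK sI cl4 cl6 cl13 t2 t4 b0_5 :=
  box_mk (TrL.c (I.pos (nat_lit 0) (nat_lit 0)) T2.l0
  (TrL.c (I.pos (nat_lit 0) (nat_lit 0)) T4.l1
  (TrL.c (I.pos (nat_lit 0) (nat_lit 0)) T2.l2
  (TrL.c (I.pos (nat_lit 0) (nat_lit 0)) T4.l1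
  (TrL.c (I.pos (nat_lit 0) (nat_lit 0)) T2.l2
  (TrL.c (I.pos (nat_lit 0) (nat_lit 0)) T4.l3
  TrL.n)))))) (by decide +kernel)
theorem bx0_6 : BoxOK sI cl4 cl6 cl13 t2 t4 b0_6 :=
  box_mk (TrL.c (I.pos (nat_lit 0) (nat_lit 0)) T2.l0
  (TrL.c (I.pos (nat_lit 0) (nat_lit 0)) T4.l1
  (TrL.c (I.pos (nat_lit 0) (nat_lit 0)) T2.l1
  (TrL.c (I.pos (nat_lit 0) (nat_lit 0)) T4.l2
  (TrL.c (I.pos (nat_lit 0) (nat_lit 0)) T2.l2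
  (TrL.c (I.pos (nat_lit 0) (nat_lit 0)) T4.l3
  TrL.n)))))) (by decide +kernel)
theorem bx0_7 : BoxOK sI cl4 cl6 cl13 t2 t4 b0_7 :=
  box_mk (TrL.c (I.pos (nat_lit 0) (nat_lit 0)) (xa (xa (xb (xs T2.l0 T2.l0) T2.l0) T2.l0) T2.l0)
  (TrL.c (I.pos (nat_lit 0) (nat_lit 0)) T4.l1
  (TrL.c (I.pos (nat_lit 0) (nat_lit 0)) T2.l2
  (TrL.c (I.pos (nat_lit 0) (nat_lit 0)) T4.l1
  (TrL.c (I.pos (nat_lit 0) (nat_lit 0)) T2.l2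
  (TrL.c (I.pos (nat_lit 0) (nat_lit 0)) T4.l3
  TrL.n)))))) (by decide +kernel)
theorem bx0_8 : BoxOK sI cl4 cl6 cl13 t2 t4 b0_8 :=
  box_mk (TrL.c (I.pos (nat_lit 0) (nat_lit 0)) (xa (xa (xb T2.l0 T2.l0) T2.l0) T2.l0)
  (TrL.c (I.pos (nat_lit 0) (nat_lit 0)) T4.l1
  (TrL.c (I.pos (nat_lit 0) (nat_lit 0)) T2.l1
  (TrL.c (I.pos (nat_lit 0) (nat_lit 0)) (xa T4.l1 T4.l2)
  (TrL.c (I.pos (nat_lit 0) (nat_lit 0)) T2.l2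
  (TrL.c (I.pos (nat_lit 0) (nat_lit 0)) T4.l3
  TrL.n)))))) (by decide +kernel)
theorem bx0_9 : BoxOK sI cl4 cl6 cl13 t2 t4 b0_9 :=
  box_mk (TrL.c (I.pos (nat_lit 0) (nat_lit 0)) (xb (xa (xb T2.l0 T2.l0) (xb T2.l0 T2.l0)) (xa (xb (xa T2.l0 T2.l0) (xa T2.l0 T2.l0)) (xa T2.l0 T2.l0)))
  (TrL.c (I.pos (nat_lit 0) (nat_lit 0)) (xb (xa T4.l1 T4.l1) (xa T4.l1 T4.l1))
  (TrL.c (I.pos (nat_lit 0) (nat_lit 0)) (xb T2.l1 T2.l1)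
  (TrL.c (I.pos (nat_lit 0) (nat_lit 0)) (xb (xa T4.l2 (xb T4.l2 T4.l2)) (xa T4.l2 (xs T4.l2 (xb T4.l2 T4.l2))))
  (TrL.c (I.pos (nat_lit 0) (nat_lit 0)) (xb T2.l2 T2.l2)
  (TrL.c (I.pos (nat_lit 0) (nat_lit 0)) (xb (xa T4.l3 T4.l3) (xa T4.l3 T4.l3))
  TrL.n)))))) (by decide +kernel)
theorem sv0 : StarV sI cl4 cl6 cl13 t2 t4 t0 :=
  (bt_n (bt_n (bt_n (bt_b bx0_0) (bt_b bx0_1)) (bt_n (bt_b bx0_2) (bt_n (bt_b bx0_3) (bt_b bx0_4)))) (bt_n (bt_n (bt_b bx0_5) (bt_b bx0_6)) (bt_n (bt_b bx0_7) (bt_n (bt_b bx0_8) (bt_b bx0_9)))))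
def S0 : StarD := StarD.mk cl4 cl6 cl13 2 4 t0
theorem bx1_0 : BoxOK sI cl4 cl13 cl6 t4 t2 b1_0 :=
  box_mk (TrL.c (I.pos (nat_lit 0) (nat_lit 0)) (xa (xb T4.l0 (xa T4.l0 T4.l0)) (xa (xb T4.l0 (xs T4.l0 T4.l0)) (xb (xb T4.l2 T4.l2) (xs T4.l2 T4.l2))))
  (TrL.c (I.pos (nat_lit 0) (nat_lit 0)) (xa (xb T2.l3 T2.l3) (xa (xb T2.l3 T2.l3) (xb T2.l3 T2.l3)))
  (TrL.c (I.pos (nat_lit 0) (nat_lit 0)) (xa T4.l4 (xb T4.l3 T4.l4))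
  (TrL.c (I.pos (nat_lit 0) (nat_lit 0)) (xa T2.l4 (xb (xa T2.l4 (xb T2.l4 T2.l4)) (xa T2.l4 (xs T2.l4 T2.l4))))
  (TrL.c (I.pos (nat_lit 0) (nat_lit 0)) (xa T4.l5 (xb T4.l1 T4.l5))
  (TrL.c (I.pos (nat_lit 0) (nat_lit 0)) (xa (xb T2.l5 T2.l5) (xa (xb T2.l5 T2.l5) (xb T2.l5 T2.l5)))
  TrL.n)))))) (by decide +kernel)
theorem bx1_1 : BoxOK sI cl4 cl13 cl6 t4 t2 b1_1 :=
  box_mk (TrL.c (I.pos (nat_lit 0) (nat_lit 0)) (xa T4.l0 T4.l0)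
  (TrL.c (I.pos (nat_lit 0) (nat_lit 0)) (xa T2.l3 T2.l3)
  (TrL.c (I.pos (nat_lit 0) (nat_lit 0)) T4.l4
  (TrL.c (I.pos (nat_lit 0) (nat_lit 0)) (xa T2.l4 T2.l4)
  (TrL.c (I.pos (nat_lit 0) (nat_lit 0)) T4.l5
  (TrL.c (I.pos (nat_lit 0) (nat_lit 0)) (xa T2.l5 T2.l5)
  TrL.n)))))) (by decide +kernel)
theorem bx1_2 : BoxOK sI cl4 cl13 cl6 t4 t2 b1_2 :=
  box_mk (TrL.c (I.pos (nat_lit 0) (nat_lit 0)) T4.l0
  (TrL.c (I.pos (nat_lit 0) (nat_lit 0)) T2.l3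
  (TrL.c (I.pos (nat_lit 0) (nat_lit 0)) T4.l4
  (TrL.c (I.pos (nat_lit 0) (nat_lit 0)) T2.l4
  (TrL.c (I.pos (nat_lit 0) (nat_lit 0)) T4.l5
  (TrL.c (I.pos (nat_lit 0) (nat_lit 0)) T2.l5
  TrL.n)))))) (by decide +kernel)
theorem bx1_3 : BoxOK sI cl4 cl13 cl6 t4 t2 b1_3 :=
  box_mk (TrL.c (I.pos (nat_lit 0) (nat_lit 0)) (xa T4.l0 T4.l0)
  (TrL.c (I.pos (nat_lit 0) (nat_lit 0)) (xa T2.l3 T2.l3)
  (TrL.c (I.pos (nat_lit 0) (nat_lit 0)) T4.l4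
  (TrL.c (I.pos (nat_lit 0) (nat_lit 0)) (xa T2.l4 T2.l4)
  (TrL.c (I.pos (nat_lit 0) (nat_lit 0)) T4.l5
  (TrL.c (I.pos (nat_lit 0) (nat_lit 0)) (xa T2.l5 T2.l5)
  TrL.n)))))) (by decide +kernel)
theorem bx1_4 : BoxOK sI cl4 cl13 cl6 t4 t2 b1_4 :=
  box_mk (TrL.c (I.pos (nat_lit 0) (nat_lit 0)) T4.l0
  (TrL.c (I.pos (nat_lit 0) (nat_lit 0)) T2.l3
  (TrL.c (I.pos (nat_lit 0) (nat_lit 0)) T4.l4
  (TrL.c (I.pos (nat_lit 0) (nat_lit 0)) T2.l4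
  (TrL.c (I.pos (nat_lit 0) (nat_lit 0)) T4.l5
  (TrL.c (I.pos (nat_lit 0) (nat_lit 0)) T2.l5
  TrL.n)))))) (by decide +kernel)
theorem bx1_5 : BoxOK sI cl4 cl13 cl6 t4 t2 b1_5 :=
  box_mk (TrL.c (I.pos (nat_lit 0) (nat_lit 0)) T4.l0
  (TrL.c (I.pos (nat_lit 0) (nat_lit 0)) T2.l3
  (TrL.c (I.pos (nat_lit 0) (nat_lit 0)) T4.l4
  (TrL.c (I.pos (nat_lit 0) (nat_lit 0)) T2.l4
  (TrL.c (I.pos (nat_lit 0) (nat_lit 0)) T4.l5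
  (TrL.c (I.pos (nat_lit 0) (nat_lit 0)) T2.l5
  TrL.n)))))) (by decide +kernel)
theorem bx1_6 : BoxOK sI cl4 cl13 cl6 t4 t2 b1_6 :=
  box_mk (TrL.c (I.pos (nat_lit 0) (nat_lit 0)) T4.l0
  (TrL.c (I.pos (nat_lit 0) (nat_lit 0)) T2.l3
  (TrL.c (I.pos (nat_lit 0) (nat_lit 0)) T4.l4
  (TrL.c (I.pos (nat_lit 0) (nat_lit 0)) T2.l4
  (TrL.c (I.pos (nat_lit 0) (nat_lit 0)) T4.l5
  (TrL.c (I.pos (nat_lit 0) (nat_lit 0)) T2.l5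
  TrL.n)))))) (by decide +kernel)
theorem bx1_7 : BoxOK sI cl4 cl13 cl6 t4 t2 b1_7 :=
  box_mk (TrL.c (I.pos (nat_lit 0) (nat_lit 0)) (xa (xa (xa T4.l0 T4.l0) T4.l0) T4.l0)
  (TrL.c (I.pos (nat_lit 0) (nat_lit 0)) (xa T2.l3 T2.l3)
  (TrL.c (I.pos (nat_lit 0) (nat_lit 0)) T4.l4
  (TrL.c (I.pos (nat_lit 0) (nat_lit 0)) (xa T2.l4 T2.l4)
  (TrL.c (I.pos (nat_lit 0) (nat_lit 0)) T4.l5
  (TrL.c (I.pos (nat_lit 0) (nat_lit 0)) (xa T2.l5 T2.l5)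
  TrL.n)))))) (by decide +kernel)
theorem bx1_8 : BoxOK sI cl4 cl13 cl6 t4 t2 b1_8 :=
  box_mk (TrL.c (I.pos (nat_lit 0) (nat_lit 0)) (xb (xa (xa T4.l0 T4.l0) (xa T4.l0 T4.l0)) (xa (xa (xb T4.l0 T4.l0) T4.l0) (xa T4.l0 T4.l0)))
  (TrL.c (I.pos (nat_lit 0) (nat_lit 0)) (xb (xa T2.l3 T2.l3) (xa T2.l3 T2.l3))
  (TrL.c (I.pos (nat_lit 0) (nat_lit 0)) (xb T4.l4 T4.l4)
  (TrL.c (I.pos (nat_lit 0) (nat_lit 0)) (xb (xa T2.l4 (xb T2.l4 T2.l4)) (xa T2.l4 (xa T2.l4 T2.l4)))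
  (TrL.c (I.pos (nat_lit 0) (nat_lit 0)) (xb T4.l5 T4.l5)
  (TrL.c (I.pos (nat_lit 0) (nat_lit 0)) (xb (xa T2.l5 T2.l5) (xa T2.l5 T2.l5))
  TrL.n)))))) (by decide +kernel)
theorem bx1_9 : BoxOK sI cl4 cl13 cl6 t4 t2 b1_9 :=
  box_mk (TrL.c (I.pos (nat_lit 0) (nat_lit 0)) (xa (xa T4.l0 T4.l0) T4.l0)
  (TrL.c (I.pos (nat_lit 0) (nat_lit 0)) (xa T2.l3 T2.l3)
  (TrL.c (I.pos (nat_lit 0) (nat_lit 0)) (xa T4.l4 T4.l4)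
  (TrL.c (I.pos (nat_lit 0) (nat_lit 0)) (xa T2.l4 T2.l4)
  (TrL.c (I.pos (nat_lit 0) (nat_lit 0)) (xa T4.l5 T4.l5)
  (TrL.c (I.pos (nat_lit 0) (nat_lit 0)) (xa T2.l5 T2.l5)
  TrL.n)))))) (by decide +kernel)
theorem sv1 : StarV sI cl4 cl13 cl6 t4 t2 t1 :=
  (bt_n (bt_n (bt_n (bt_b bx1_0) (bt_b bx1_1)) (bt_n (bt_b bx1_2) (bt_n (bt_b bx1_3) (bt_b bx1_4)))) (bt_n (bt_n (bt_b bx1_5) (bt_b bx1_6)) (bt_n (bt_b bx1_7) (bt_n (bt_b bx1_8) (bt_b bx1_9)))))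
def S1 : StarD := StarD.mk cl4 cl13 cl6 4 2 t1
theorem bx2_0 : BoxOK sI cl6 cl4 cl13 t0 t5 b2_0 :=
  box_mk (TrL.c (I.pos (nat_lit 0) (nat_lit 0)) (xa (xb T0.l0 (xa T0.l0 (xb T0.l0 T0.l0))) (xb T0.l0 (xa (xs T0.l0 T0.l0) (xs T0.l0 T0.l0))))
  (TrL.c (I.pos (nat_lit 0) (nat_lit 0)) (xa T5.l1 T5.l1)
  (TrL.c (I.pos (nat_lit 0) (nat_lit 89480386)) (xR T0.l1 T0.l1)
  (TrL.c (I.pos (nat_lit 0) (nat_lit 41530880)) T5.l2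
  (TrL.c (I.pos (nat_lit 0) (nat_lit 0)) (xa T5.l3 (xb T5.l0 (xs (xa T5.l3 T5.l3) (xa T5.l3 T5.l3))))
  (TrL.c (I.pos (nat_lit 0) (nat_lit 0)) (xb T0.l2 T0.l2)
  (TrL.c (I.mix (nat_lit 41527258) (nat_lit 41530880)) (xR T5.l4 T5.l7)
  (TrL.c (I.mix (nat_lit 41527258) (nat_lit 4274)) T0.l3
  TrL.n)))))))) (by decide +kernel)
theorem bx2_1 : BoxOK sI cl6 cl4 cl13 t0 t5 b2_1 :=
  box_mk (TrL.c (I.pos (nat_lit 0) (nat_lit 0)) T5.l1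
  (TrL.c (I.pos (nat_lit 0) (nat_lit 0)) T0.l1
  (TrL.c (I.mix (nat_lit 41527258) (nat_lit 41530880)) (xR T5.l6 T5.l6)
  (TrL.c (I.mix (nat_lit 41527258) (nat_lit 4274)) T0.l5
  TrL.n)))) (by decide +kernel)
theorem bx2_2 : BoxOK sI cl6 cl4 cl13 t0 t5 b2_2 :=
  box_mk (TrL.c (I.pos (nat_lit 0) (nat_lit 0)) (xb (xa (xs T0.l0 (xb T0.l0 T0.l0)) T0.l0) T0.l0)
  (TrL.c (I.pos (nat_lit 0) (nat_lit 0)) T5.l1
  (TrL.c (I.pos (nat_lit 0) (nat_lit 89480386)) T0.l1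
  (TrL.c (I.pos (nat_lit 0) (nat_lit 41530880)) T5.l2
  (TrL.c (I.pos (nat_lit 0) (nat_lit 0)) T5.l3
  (TrL.c (I.pos (nat_lit 0) (nat_lit 0)) T0.l2
  (TrL.c (I.mix (nat_lit 41527258) (nat_lit 41530880)) T5.l4
  (TrL.c (I.mix (nat_lit 41527258) (nat_lit 4274)) T0.l3
  TrL.n)))))))) (by decide +kernel)
theorem bx2_3 : BoxOK sI cl6 cl4 cl13 t0 t5 b2_3 :=
  box_mk (TrL.c (I.pos (nat_lit 0) (nat_lit 0)) (xa (xb T0.l0 T0.l0) T0.l0)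
  (TrL.c (I.pos (nat_lit 0) (nat_lit 0)) T5.l1
  (TrL.c (I.pos (nat_lit 0) (nat_lit 89480386)) (xR T0.l1 T0.l1)
  (TrL.c (I.pos (nat_lit 0) (nat_lit 41530880)) T5.l2
  (TrL.c (I.pos (nat_lit 0) (nat_lit 0)) T5.l3
  (TrL.c (I.pos (nat_lit 0) (nat_lit 0)) T0.l2
  (TrL.c (I.mix (nat_lit 41527258) (nat_lit 41530880)) (xR T5.l4 T5.l4)
  (TrL.c (I.mix (nat_lit 41527258) (nat_lit 4274)) T0.l3
  TrL.n)))))))) (by decide +kernel)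
theorem bx2_4 : BoxOK sI cl6 cl4 cl13 t0 t5 b2_4 :=
  box_mk (TrL.c (I.pos (nat_lit 0) (nat_lit 0)) (xb (xa T0.l0 T0.l0) (xa (xb T0.l0 T0.l0) (xa T0.l0 T0.l0)))
  (TrL.c (I.pos (nat_lit 0) (nat_lit 0)) T5.l1
  (TrL.c (I.pos (nat_lit 0) (nat_lit 89480386)) (xR T0.l1 T0.l1)
  (TrL.c (I.pos (nat_lit 0) (nat_lit 41530880)) T5.l2
  (TrL.c (I.pos (nat_lit 0) (nat_lit 0)) (xb T5.l3 T5.l3)
  (TrL.c (I.pos (nat_lit 0) (nat_lit 0)) T0.l2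
  (TrL.c (I.mix (nat_lit 41527258) (nat_lit 41530880)) (xR T5.l4 T5.l7)
  (TrL.c (I.mix (nat_lit 41527258) (nat_lit 4274)) T0.l3
  TrL.n)))))))) (by decide +kernel)
theorem bx2_5 : BoxOK sI cl6 cl4 cl13 t0 t5 b2_5 :=
  box_mk (TrL.c (I.pos (nat_lit 0) (nat_lit 0)) T5.l1
  (TrL.c (I.pos (nat_lit 0) (nat_lit 0)) T0.l1
  (TrL.c (I.mix (nat_lit 41527258) (nat_lit 41530880)) (xR T5.l6 T5.l2)
  (TrL.c (I.mix (nat_lit 41527258) (nat_lit 4274)) T0.l5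
  TrL.n)))) (by decide +kernel)
theorem sv2 : StarV sI cl6 cl4 cl13 t0 t5 t2 :=
  (bt_n (bt_n (bt_b bx2_0) (bt_n (bt_b bx2_1) (bt_b bx2_2))) (bt_n (bt_b bx2_3) (bt_n (bt_b bx2_4) (bt_b bx2_5))))
def S2 : StarD := StarD.mk cl6 cl4 cl13 0 5 t2
theorem bx3_0 : BoxOK sI cl6 cl13 cl4 t5 t0 b3_0 :=
  box_mk (TrL.c (I.pos (nat_lit 0) (nat_lit 0)) (xa (xa T5.l0 (xb T5.l0 T5.l0)) (xa (xb T5.l0 T5.l0) (xb T5.l0 T5.l0)))
  (TrL.c (I.pos (nat_lit 0) (nat_lit 0)) (xa (xa T0.l6 T0.l6) (xa T0.l6 T0.l6))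
  (TrL.c (I.pos (nat_lit 0) (nat_lit 89480386)) (xR T5.l7 (xR T5.l7 T5.l7))
  (TrL.c (I.pos (nat_lit 0) (nat_lit 41530880)) T0.l7
  (TrL.c (I.pos (nat_lit 0) (nat_lit 0)) (xa T0.l9 (xb (xa T0.l9 T0.l9) (xa T0.l9 T0.l9)))
  (TrL.c (I.pos (nat_lit 0) (nat_lit 0)) (xa T5.l8 (xb T5.l8 T5.l8))
  (TrL.c (I.mix (nat_lit 41527258) (nat_lit 41530880)) (xR T0.l8 T0.l8)
  (TrL.c (I.mix (nat_lit 41527258) (nat_lit 4274)) T5.l9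
  TrL.n)))))))) (by decide +kernel)
theorem bx3_1 : BoxOK sI cl6 cl13 cl4 t5 t0 b3_1 :=
  box_mk (TrL.c (I.pos (nat_lit 0) (nat_lit 0)) T5.l0
  (TrL.c (I.pos (nat_lit 0) (nat_lit 0)) T0.l6
  (TrL.c (I.pos (nat_lit 0) (nat_lit 89480386)) (xR T5.l7 T5.l7)
  (TrL.c (I.pos (nat_lit 0) (nat_lit 41530880)) T0.l7
  (TrL.c (I.pos (nat_lit 0) (nat_lit 0)) T0.l9
  (TrL.c (I.pos (nat_lit 0) (nat_lit 0)) T5.l8
  (TrL.c (I.mix (nat_lit 41527258) (nat_lit 41530880)) T0.l8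
  (TrL.c (I.mix (nat_lit 41527258) (nat_lit 4274)) T5.l9
  TrL.n)))))))) (by decide +kernel)
theorem bx3_2 : BoxOK sI cl6 cl13 cl4 t5 t0 b3_2 :=
  box_mk (TrL.c (I.pos (nat_lit 0) (nat_lit 0)) (xa (xa T5.l0 T5.l0) T5.l0)
  (TrL.c (I.pos (nat_lit 0) (nat_lit 0)) T0.l6
  (TrL.c (I.pos (nat_lit 0) (nat_lit 89480386)) T5.l7
  (TrL.c (I.pos (nat_lit 0) (nat_lit 41530880)) T0.l7
  (TrL.c (I.pos (nat_lit 0) (nat_lit 0)) T0.l9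
  (TrL.c (I.pos (nat_lit 0) (nat_lit 0)) T5.l8
  (TrL.c (I.mix (nat_lit 41527258) (nat_lit 41530880)) (xR T0.l8 T0.l1)
  (TrL.c (I.mix (nat_lit 41527258) (nat_lit 4274)) T5.l4
  TrL.n)))))))) (by decide +kernel)
theorem bx3_3 : BoxOK sI cl6 cl13 cl4 t5 t0 b3_3 :=
  box_mk (TrL.c (I.pos (nat_lit 0) (nat_lit 0)) (xb (xa T5.l0 T5.l0) (xa T5.l0 T5.l0))
  (TrL.c (I.pos (nat_lit 0) (nat_lit 0)) (xb T0.l6 T0.l6)
  (TrL.c (I.pos (nat_lit 0) (nat_lit 89480386)) (xR T5.l7 T5.l7)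
  (TrL.c (I.pos (nat_lit 0) (nat_lit 41530880)) T0.l7
  (TrL.c (I.pos (nat_lit 0) (nat_lit 0)) (xb T0.l9 T0.l9)
  (TrL.c (I.pos (nat_lit 0) (nat_lit 0)) T5.l8
  (TrL.c (I.mix (nat_lit 41527258) (nat_lit 41530880)) (xR T0.l8 T0.l8)
  (TrL.c (I.mix (nat_lit 41527258) (nat_lit 4274)) T5.l9
  TrL.n)))))))) (by decide +kernel)
theorem bx3_4 : BoxOK sI cl6 cl13 cl4 t5 t0 b3_4 :=
  box_mk (TrL.c (I.pos (nat_lit 0) (nat_lit 0)) (xa T5.l0 T5.l0)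
  (TrL.c (I.pos (nat_lit 0) (nat_lit 0)) (xa T0.l6 T0.l6)
  (TrL.c (I.pos (nat_lit 0) (nat_lit 89480386)) (xR T5.l7 T5.l7)
  (TrL.c (I.pos (nat_lit 0) (nat_lit 41530880)) T0.l7
  (TrL.c (I.pos (nat_lit 0) (nat_lit 0)) (xa T0.l9 T0.l9)
  (TrL.c (I.pos (nat_lit 0) (nat_lit 0)) T5.l8
  (TrL.c (I.mix (nat_lit 41527258) (nat_lit 41530880)) (xR T0.l8 T0.l1)
  (TrL.c (I.mix (nat_lit 41527258) (nat_lit 4274)) T5.l9
  TrL.n)))))))) (by decide +kernel)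
theorem bx3_5 : BoxOK sI cl6 cl13 cl4 t5 t0 b3_5 :=
  box_mk (TrL.c (I.pos (nat_lit 0) (nat_lit 0)) (xa T5.l0 T5.l0)
  (TrL.c (I.pos (nat_lit 0) (nat_lit 0)) T0.l6
  (TrL.c (I.pos (nat_lit 0) (nat_lit 89480386)) T5.l7
  (TrL.c (I.pos (nat_lit 0) (nat_lit 41530880)) T0.l7
  (TrL.c (I.pos (nat_lit 0) (nat_lit 0)) T0.l9
  (TrL.c (I.pos (nat_lit 0) (nat_lit 0)) T5.l8
  (TrL.c (I.mix (nat_lit 41527258) (nat_lit 41530880)) (xR T0.l8 T0.l1)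
  (TrL.c (I.mix (nat_lit 41527258) (nat_lit 4274)) T5.l9
  TrL.n)))))))) (by decide +kernel)
theorem bx3_6 : BoxOK sI cl6 cl13 cl4 t5 t0 b3_6 :=
  box_mk (TrL.c (I.pos (nat_lit 0) (nat_lit 0)) T5.l0
  (TrL.c (I.pos (nat_lit 0) (nat_lit 0)) T0.l6
  (TrL.c (I.pos (nat_lit 0) (nat_lit 89480386)) (xR T5.l7 T5.l7)
  (TrL.c (I.pos (nat_lit 0) (nat_lit 41530880)) T0.l7
  (TrL.c (I.pos (nat_lit 0) (nat_lit 0)) T0.l9
  (TrL.c (I.pos (nat_lit 0) (nat_lit 0)) T5.l8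
  (TrL.c (I.mix (nat_lit 41527258) (nat_lit 41530880)) T0.l8
  (TrL.c (I.mix (nat_lit 41527258) (nat_lit 4274)) T5.l9
  TrL.n)))))))) (by decide +kernel)
theorem bx3_7 : BoxOK sI cl6 cl13 cl4 t5 t0 b3_7 :=
  box_mk (TrL.c (I.pos (nat_lit 0) (nat_lit 0)) (xa T5.l0 T5.l0)
  (TrL.c (I.pos (nat_lit 0) (nat_lit 0)) T0.l6
  (TrL.c (I.pos (nat_lit 0) (nat_lit 89480386)) (xR T5.l7 T5.l7)
  (TrL.c (I.pos (nat_lit 0) (nat_lit 41530880)) T0.l7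
  (TrL.c (I.pos (nat_lit 0) (nat_lit 0)) T0.l9
  (TrL.c (I.pos (nat_lit 0) (nat_lit 0)) T5.l8
  (TrL.c (I.mix (nat_lit 41527258) (nat_lit 41530880)) T0.l8
  (TrL.c (I.mix (nat_lit 41527258) (nat_lit 4274)) T5.l9
  TrL.n)))))))) (by decide +kernel)
theorem bx3_8 : BoxOK sI cl6 cl13 cl4 t5 t0 b3_8 :=
  box_mk (TrL.c (I.pos (nat_lit 0) (nat_lit 0)) T5.l0
  (TrL.c (I.pos (nat_lit 0) (nat_lit 0)) T0.l6
  (TrL.c (I.pos (nat_lit 0) (nat_lit 89480386)) (xR T5.l7 T5.l7)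
  (TrL.c (I.pos (nat_lit 0) (nat_lit 41530880)) T0.l7
  (TrL.c (I.pos (nat_lit 0) (nat_lit 0)) T0.l9
  (TrL.c (I.pos (nat_lit 0) (nat_lit 0)) T5.l8
  (TrL.c (I.mix (nat_lit 41527258) (nat_lit 41530880)) T0.l8
  (TrL.c (I.mix (nat_lit 41527258) (nat_lit 4274)) T5.l9
  TrL.n)))))))) (by decide +kernel)
theorem bx3_9 : BoxOK sI cl6 cl13 cl4 t5 t0 b3_9 :=
  box_mk (TrL.c (I.pos (nat_lit 0) (nat_lit 0)) (xa (xa T5.l0 T5.l0) T5.l0)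
  (TrL.c (I.pos (nat_lit 0) (nat_lit 0)) T0.l6
  (TrL.c (I.pos (nat_lit 0) (nat_lit 89480386)) (xR T5.l7 T5.l7)
  (TrL.c (I.pos (nat_lit 0) (nat_lit 41530880)) T0.l7
  (TrL.c (I.pos (nat_lit 0) (nat_lit 0)) T0.l9
  (TrL.c (I.pos (nat_lit 0) (nat_lit 0)) T5.l8
  (TrL.c (I.mix (nat_lit 41527258) (nat_lit 41530880)) (xR T0.l8 T0.l1)
  (TrL.c (I.mix (nat_lit 41527258) (nat_lit 4274)) T5.l4
  TrL.n)))))))) (by decide +kernel)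
theorem sv3 : StarV sI cl6 cl13 cl4 t5 t0 t3 :=
  (bt_n (bt_n (bt_n (bt_b bx3_0) (bt_b bx3_1)) (bt_n (bt_b bx3_2) (bt_n (bt_b bx3_3) (bt_b bx3_4)))) (bt_n (bt_n (bt_b bx3_5) (bt_b bx3_6)) (bt_n (bt_b bx3_7) (bt_n (bt_b bx3_8) (bt_b bx3_9)))))
def S3 : StarD := StarD.mk cl6 cl13 cl4 5 0 t3
theorem bx4_0 : BoxOK sI cl13 cl4 cl6 t1 t3 b4_0 :=
  box_mk (TrL.c (I.pos (nat_lit 0) (nat_lit 0)) (xa (xb T1.l0 (xa T1.l0 T1.l0)) (xa T1.l0 T1.l0))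
  (TrL.c (I.pos (nat_lit 0) (nat_lit 0)) (xa T3.l1 (xk T3.l1 T3.l1))
  (TrL.c (I.pos (nat_lit 0) (nat_lit 134217730)) (xR T1.l9 T1.l9)
  (TrL.c (I.pos (nat_lit 0) (nat_lit 110514882)) (xR T3.l4 (xR T3.l2 T3.l2))
  (TrL.c (I.pos (nat_lit 0) (nat_lit 0)) (xa (xb (xk T3.l3 T3.l3) T3.l3) (xk (xb (xa T3.l3 T3.l3) (xa T3.l3 (xs T3.l3 T3.l3))) (xb (xa T3.l3 T3.l3) (xa T3.l3 (xs T3.l3 T3.l3)))))
  (TrL.c (I.pos (nat_lit 0) (nat_lit 0)) (xk T1.l2 T1.l2)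
  (TrL.c (I.mix (nat_lit 8088324) (nat_lit 110514882)) (xR T3.l4 (xR T3.l4 T3.l4))
  (TrL.c (I.mix (nat_lit 8088324) (nat_lit 89478486)) (xR T1.l3 T1.l3)
  TrL.n)))))))) (by decide +kernel)
theorem bx4_1 : BoxOK sI cl13 cl4 cl6 t1 t3 b4_1 :=
  box_mk (TrL.c (I.pos (nat_lit 0) (nat_lit 0)) T1.l0
  (TrL.c (I.pos (nat_lit 0) (nat_lit 0)) T3.l1
  (TrL.c (I.pos (nat_lit 0) (nat_lit 134217730)) (xR T1.l1 T1.l1)
  (TrL.c (I.pos (nat_lit 0) (nat_lit 110514882)) (xR T3.l2 T3.l2)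
  (TrL.c (I.pos (nat_lit 0) (nat_lit 0)) T3.l3
  (TrL.c (I.pos (nat_lit 0) (nat_lit 0)) T1.l2
  (TrL.c (I.mix (nat_lit 8088324) (nat_lit 110514882)) T3.l4
  (TrL.c (I.mix (nat_lit 8088324) (nat_lit 89478486)) T1.l1
  TrL.n)))))))) (by decide +kernel)
theorem bx4_2 : BoxOK sI cl13 cl4 cl6 t1 t3 b4_2 :=
  box_mk (TrL.c (I.pos (nat_lit 0) (nat_lit 0)) (xb T1.l0 (xa T1.l0 T1.l0))
  (TrL.c (I.pos (nat_lit 0) (nat_lit 0)) (xb T3.l1 T3.l1)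
  (TrL.c (I.pos (nat_lit 0) (nat_lit 134217730)) (xR T1.l1 T1.l9)
  (TrL.c (I.pos (nat_lit 0) (nat_lit 110514882)) (xR T3.l2 T3.l2)
  (TrL.c (I.pos (nat_lit 0) (nat_lit 0)) (xb T3.l0 T3.l3)
  (TrL.c (I.pos (nat_lit 0) (nat_lit 0)) T1.l2
  (TrL.c (I.mix (nat_lit 8088324) (nat_lit 110514882)) T3.l4
  (TrL.c (I.mix (nat_lit 8088324) (nat_lit 89478486)) T1.l3
  TrL.n)))))))) (by decide +kernel)
theorem bx4_3 : BoxOK sI cl13 cl4 cl6 t1 t3 b4_3 :=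
  box_mk (TrL.c (I.pos (nat_lit 0) (nat_lit 0)) T3.l6
  (TrL.c (I.pos (nat_lit 0) (nat_lit 0)) T1.l1
  (TrL.c (I.mix (nat_lit 8088324) (nat_lit 110514882)) (xR T3.l5 T3.l5)
  (TrL.c (I.mix (nat_lit 8088324) (nat_lit 89478486)) (xR T1.l9 T1.l1)
  TrL.n)))) (by decide +kernel)
theorem bx4_4 : BoxOK sI cl13 cl4 cl6 t1 t3 b4_4 :=
  box_mk (TrL.c (I.pos (nat_lit 0) (nat_lit 0)) T3.l6
  (TrL.c (I.pos (nat_lit 0) (nat_lit 0)) T1.l1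
  (TrL.c (I.mix (nat_lit 8088324) (nat_lit 110514882)) (xR T3.l5 T3.l4)
  (TrL.c (I.mix (nat_lit 8088324) (nat_lit 89478486)) T1.l9
  TrL.n)))) (by decide +kernel)
theorem bx4_5 : BoxOK sI cl13 cl4 cl6 t1 t3 b4_5 :=
  box_mk (TrL.c (I.pos (nat_lit 0) (nat_lit 0)) (xb (xa T1.l0 T1.l0) T1.l0)
  (TrL.c (I.pos (nat_lit 0) (nat_lit 0)) T3.l6
  (TrL.c (I.pos (nat_lit 0) (nat_lit 134217730)) (xR T1.l1 (xR T1.l1 T1.l1))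
  (TrL.c (I.pos (nat_lit 0) (nat_lit 110514882)) T3.l4
  (TrL.c (I.pos (nat_lit 0) (nat_lit 0)) T3.l3
  (TrL.c (I.pos (nat_lit 0) (nat_lit 0)) T1.l2
  (TrL.c (I.mix (nat_lit 8088324) (nat_lit 110514882)) T3.l4
  (TrL.c (I.mix (nat_lit 8088324) (nat_lit 89478486)) T1.l9
  TrL.n)))))))) (by decide +kernel)
theorem sv4 : StarV sI cl13 cl4 cl6 t1 t3 t4 :=
  (bt_n (bt_n (bt_b bx4_0) (bt_n (bt_b bx4_1) (bt_b bx4_2))) (bt_n (bt_b bx4_3) (bt_n (bt_b bx4_4) (bt_b bx4_5))))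
def S4 : StarD := StarD.mk cl13 cl4 cl6 1 3 t4
theorem bx5_0 : BoxOK sI cl13 cl6 cl4 t3 t1 b5_0 :=
  box_mk (TrL.c (I.pos (nat_lit 0) (nat_lit 0)) (xa (xa (xb T3.l0 T3.l0) (xb T3.l0 T3.l0)) (xa (xb T3.l0 T3.l0) (xb T3.l0 T3.l0)))
  (TrL.c (I.pos (nat_lit 0) (nat_lit 0)) (xa (xa T1.l6 T1.l6) (xa T1.l6 (xk T1.l6 T1.l6)))
  (TrL.c (I.pos (nat_lit 0) (nat_lit 134217730)) (xR T3.l4 (xR T3.l4 T3.l7))
  (TrL.c (I.pos (nat_lit 0) (nat_lit 110514882)) (xR T1.l9 (xR T1.l7 T1.l7))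
  (TrL.c (I.pos (nat_lit 0) (nat_lit 0)) (xa (xa T1.l8 (xk T1.l8 T1.l8)) (xk (xa T1.l8 (xb T1.l8 T1.l8)) (xa T1.l8 (xb T1.l8 (xs T1.l8 T1.l8)))))
  (TrL.c (I.pos (nat_lit 0) (nat_lit 0)) (xk (xa T3.l8 T3.l8) (xa T3.l8 T3.l8))
  (TrL.c (I.mix (nat_lit 8088324) (nat_lit 110514882)) (xR T1.l9 (xR T1.l9 T1.l9))
  (TrL.c (I.mix (nat_lit 8088324) (nat_lit 89478486)) (xR T3.l9 T3.l9)
  TrL.n)))))))) (by decide +kernel)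
theorem bx5_1 : BoxOK sI cl13 cl6 cl4 t3 t1 b5_1 :=
  box_mk (TrL.c (I.pos (nat_lit 0) (nat_lit 0)) T3.l0
  (TrL.c (I.pos (nat_lit 0) (nat_lit 0)) T1.l6
  (TrL.c (I.pos (nat_lit 0) (nat_lit 134217730)) (xR T3.l4 (xR T3.l7 T3.l7))
  (TrL.c (I.pos (nat_lit 0) (nat_lit 110514882)) (xR T1.l7 T1.l7)
  (TrL.c (I.pos (nat_lit 0) (nat_lit 0)) T1.l8
  (TrL.c (I.pos (nat_lit 0) (nat_lit 0)) T3.l8
  (TrL.c (I.mix (nat_lit 8088324) (nat_lit 110514882)) T1.l9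
  (TrL.c (I.mix (nat_lit 8088324) (nat_lit 89478486)) T3.l9
  TrL.n)))))))) (by decide +kernel)
theorem bx5_2 : BoxOK sI cl13 cl6 cl4 t3 t1 b5_2 :=
  box_mk (TrL.c (I.pos (nat_lit 0) (nat_lit 0)) T3.l0
  (TrL.c (I.pos (nat_lit 0) (nat_lit 0)) T1.l8
  (TrL.c (I.pos (nat_lit 0) (nat_lit 134217730)) (xR T3.l2 T3.l7)
  (TrL.c (I.pos (nat_lit 0) (nat_lit 110514882)) T1.l7
  (TrL.c (I.pos (nat_lit 0) (nat_lit 0)) T1.l8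
  (TrL.c (I.pos (nat_lit 0) (nat_lit 0)) T3.l8
  (TrL.c (I.mix (nat_lit 8088324) (nat_lit 110514882)) T1.l9
  (TrL.c (I.mix (nat_lit 8088324) (nat_lit 89478486)) T3.l9
  TrL.n)))))))) (by decide +kernel)
theorem bx5_3 : BoxOK sI cl13 cl6 cl4 t3 t1 b5_3 :=
  box_mk (TrL.c (I.pos (nat_lit 0) (nat_lit 0)) (xb T3.l0 (xa T3.l0 T3.l0))
  (TrL.c (I.pos (nat_lit 0) (nat_lit 0)) (xb T1.l6 (xk T1.l6 T1.l6))
  (TrL.c (I.pos (nat_lit 0) (nat_lit 134217730)) (xR T3.l4 (xR T3.l7 T3.l7))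
  (TrL.c (I.pos (nat_lit 0) (nat_lit 110514882)) (xR T1.l7 T1.l7)
  (TrL.c (I.pos (nat_lit 0) (nat_lit 0)) (xb (xk T1.l8 T1.l8) T1.l8)
  (TrL.c (I.pos (nat_lit 0) (nat_lit 0)) T3.l8
  (TrL.c (I.mix (nat_lit 8088324) (nat_lit 110514882)) (xR T1.l9 T1.l9)
  (TrL.c (I.mix (nat_lit 8088324) (nat_lit 89478486)) (xR T3.l9 T3.l9)
  TrL.n)))))))) (by decide +kernel)
theorem bx5_4 : BoxOK sI cl13 cl6 cl4 t3 t1 b5_4 :=
  box_mk (TrL.c (I.pos (nat_lit 0) (nat_lit 0)) (xa T3.l0 T3.l0)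
  (TrL.c (I.pos (nat_lit 0) (nat_lit 0)) (xa T1.l6 T1.l6)
  (TrL.c (I.pos (nat_lit 0) (nat_lit 134217730)) (xR T3.l4 T3.l7)
  (TrL.c (I.pos (nat_lit 0) (nat_lit 110514882)) (xR T1.l7 T1.l7)
  (TrL.c (I.pos (nat_lit 0) (nat_lit 0)) T1.l8
  (TrL.c (I.pos (nat_lit 0) (nat_lit 0)) T3.l8
  (TrL.c (I.mix (nat_lit 8088324) (nat_lit 110514882)) (xR T1.l9 T1.l9)
  (TrL.c (I.mix (nat_lit 8088324) (nat_lit 89478486)) T3.l9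
  TrL.n)))))))) (by decide +kernel)
theorem bx5_5 : BoxOK sI cl13 cl6 cl4 t3 t1 b5_5 :=
  box_mk (TrL.c (I.pos (nat_lit 0) (nat_lit 0)) T3.l0
  (TrL.c (I.pos (nat_lit 0) (nat_lit 0)) T1.l6
  (TrL.c (I.pos (nat_lit 0) (nat_lit 134217730)) (xR T3.l4 T3.l7)
  (TrL.c (I.pos (nat_lit 0) (nat_lit 110514882)) (xR T1.l7 T1.l7)
  (TrL.c (I.pos (nat_lit 0) (nat_lit 0)) T1.l8
  (TrL.c (I.pos (nat_lit 0) (nat_lit 0)) T3.l8
  (TrL.c (I.mix (nat_lit 8088324) (nat_lit 110514882)) T1.l9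
  (TrL.c (I.mix (nat_lit 8088324) (nat_lit 89478486)) T3.l9
  TrL.n)))))))) (by decide +kernel)
theorem bx5_6 : BoxOK sI cl13 cl6 cl4 t3 t1 b5_6 :=
  box_mk (TrL.c (I.pos (nat_lit 0) (nat_lit 0)) (xa T3.l0 T3.l0)
  (TrL.c (I.pos (nat_lit 0) (nat_lit 0)) T1.l8
  (TrL.c (I.pos (nat_lit 0) (nat_lit 134217730)) (xR T3.l2 T3.l7)
  (TrL.c (I.pos (nat_lit 0) (nat_lit 110514882)) T1.l9
  (TrL.c (I.pos (nat_lit 0) (nat_lit 0)) T1.l8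
  (TrL.c (I.pos (nat_lit 0) (nat_lit 0)) T3.l8
  (TrL.c (I.mix (nat_lit 8088324) (nat_lit 110514882)) (xR T1.l9 T1.l9)
  (TrL.c (I.mix (nat_lit 8088324) (nat_lit 89478486)) T3.l4
  TrL.n)))))))) (by decide +kernel)
theorem bx5_7 : BoxOK sI cl13 cl6 cl4 t3 t1 b5_7 :=
  box_mk (TrL.c (I.pos (nat_lit 0) (nat_lit 0)) (xa T3.l0 T3.l0)
  (TrL.c (I.pos (nat_lit 0) (nat_lit 0)) (xa T1.l6 T1.l6)
  (TrL.c (I.pos (nat_lit 0) (nat_lit 134217730)) (xR T3.l4 T3.l7)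
  (TrL.c (I.pos (nat_lit 0) (nat_lit 110514882)) (xR T1.l7 T1.l7)
  (TrL.c (I.pos (nat_lit 0) (nat_lit 0)) (xa T1.l8 T1.l8)
  (TrL.c (I.pos (nat_lit 0) (nat_lit 0)) T3.l8
  (TrL.c (I.mix (nat_lit 8088324) (nat_lit 110514882)) (xR T1.l9 T1.l9)
  (TrL.c (I.mix (nat_lit 8088324) (nat_lit 89478486)) T3.l9
  TrL.n)))))))) (by decide +kernel)
theorem bx5_8 : BoxOK sI cl13 cl6 cl4 t3 t1 b5_8 :=
  box_mk (TrL.c (I.pos (nat_lit 0) (nat_lit 0)) T3.l0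
  (TrL.c (I.pos (nat_lit 0) (nat_lit 0)) T1.l6
  (TrL.c (I.pos (nat_lit 0) (nat_lit 134217730)) (xR T3.l4 T3.l7)
  (TrL.c (I.pos (nat_lit 0) (nat_lit 110514882)) (xR T1.l7 T1.l7)
  (TrL.c (I.pos (nat_lit 0) (nat_lit 0)) T1.l8
  (TrL.c (I.pos (nat_lit 0) (nat_lit 0)) T3.l8
  (TrL.c (I.mix (nat_lit 8088324) (nat_lit 110514882)) T1.l9
  (TrL.c (I.mix (nat_lit 8088324) (nat_lit 89478486)) T3.l9
  TrL.n)))))))) (by decide +kernel)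
theorem bx5_9 : BoxOK sI cl13 cl6 cl4 t3 t1 b5_9 :=
  box_mk (TrL.c (I.pos (nat_lit 0) (nat_lit 0)) (xa T3.l0 T3.l0)
  (TrL.c (I.pos (nat_lit 0) (nat_lit 0)) T1.l8
  (TrL.c (I.pos (nat_lit 0) (nat_lit 134217730)) (xR T3.l2 T3.l7)
  (TrL.c (I.pos (nat_lit 0) (nat_lit 110514882)) T1.l9
  (TrL.c (I.pos (nat_lit 0) (nat_lit 0)) T1.l6
  (TrL.c (I.pos (nat_lit 0) (nat_lit 0)) T3.l8
  (TrL.c (I.mix (nat_lit 8088324) (nat_lit 110514882)) (xR T1.l9 T1.l9)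
  (TrL.c (I.mix (nat_lit 8088324) (nat_lit 89478486)) T3.l4
  TrL.n)))))))) (by decide +kernel)
theorem sv5 : StarV sI cl13 cl6 cl4 t3 t1 t5 :=
  (bt_n (bt_n (bt_n (bt_b bx5_0) (bt_b bx5_1)) (bt_n (bt_b bx5_2) (bt_n (bt_b bx5_3) (bt_b bx5_4)))) (bt_n (bt_n (bt_b bx5_5) (bt_b bx5_6)) (bt_n (bt_b bx5_7) (bt_n (bt_b bx5_8) (bt_b bx5_9)))))
def S5 : StarD := StarD.mk cl13 cl6 cl4 3 1 t5
def G : List StarD := [S0, S1, S2, S3, S4, S5]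
theorem so0 : StarOK sI G S0 :=
  star_mk (by decide) (by decide) rfl rfl rfl rfl rfl rfl (rfl : _ = t2) (rfl : _ = t4)
  (st_mk (Pth.l (Pth.l (Pth.l Pth.z))) (nat_lit 191010205) (nat_lit 193079718) (by decide +kernel))
  (st_mk (Pth.l (Pth.l (Pth.l Pth.z))) (nat_lit 227988235) (nat_lit 230977350) (by decide +kernel))
  (st_mk (Pth.l (Pth.l (Pth.l Pth.z))) (nat_lit 271147535) (nat_lit 275448243) (by decide +kernel)) sv0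
theorem so1 : StarOK sI G S1 :=
  star_mk (by decide) (by decide) rfl rfl rfl rfl rfl rfl (rfl : _ = t4) (rfl : _ = t2)
  (st_mk (Pth.l (Pth.l (Pth.l Pth.z))) (nat_lit 97655602) (nat_lit 117166121) (by decide +kernel))
  (st_mk (Pth.l (Pth.l (Pth.l Pth.z))) (nat_lit 134155316) (nat_lit 154524621) (by decide +kernel))
  (st_mk (Pth.l (Pth.l (Pth.l Pth.z))) (nat_lit 176937916) (nat_lit 198567053) (by decide +kernel)) sv1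
theorem so2 : StarOK sI G S2 :=
  star_mk (by decide) (by decide) rfl rfl rfl rfl rfl rfl (rfl : _ = t0) (rfl : _ = t5)
  (st_mk (Pth.l (Pth.l Pth.z)) (nat_lit 371235891) (nat_lit 373773734) (by decide +kernel))
  (st_mk (Pth.l (Pth.l Pth.z)) (nat_lit 407393153) (nat_lit 410461264) (by decide +kernel))
  (st_mk (Pth.l (Pth.l Pth.z)) (nat_lit 449264654) (nat_lit 453013685) (by decide +kernel)) sv2
theorem so3 : StarOK sI G S3 :=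
  star_mk (by decide) (by decide) rfl rfl rfl rfl rfl rfl (rfl : _ = t5) (rfl : _ = t0)
  (st_mk (Pth.l (Pth.l (Pth.l Pth.z))) (nat_lit 96726376) (nat_lit 115476290) (by decide +kernel))
  (st_mk (Pth.l (Pth.l (Pth.l Pth.z))) (nat_lit 132397301) (nat_lit 151547931) (by decide +kernel))
  (st_mk (Pth.l (Pth.l (Pth.l Pth.z))) (nat_lit 173863658) (nat_lit 193585622) (by decide +kernel)) sv3
theorem so4 : StarOK sI G S4 :=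
  star_mk (by decide) (by decide) rfl rfl rfl rfl rfl rfl (rfl : _ = t1) (rfl : _ = t3)
  (st_mk (Pth.l (Pth.l Pth.z)) (nat_lit 364798899) (nat_lit 367354587) (by decide +kernel))
  (st_mk (Pth.l (Pth.l Pth.z)) (nat_lit 399695508) (nat_lit 402656629) (by decide +kernel))
  (st_mk (Pth.l (Pth.l Pth.z)) (nat_lit 439960827) (nat_lit 443436601) (by decide +kernel)) sv4
theorem so5 : StarOK sI G S5 :=
  star_mk (by decide) (by decide) rfl rfl rfl rfl rfl rfl (rfl : _ = t3) (rfl : _ = t1)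
  (st_mk (Pth.l (Pth.l (Pth.l Pth.z))) (nat_lit 185843017) (nat_lit 187170797) (by decide +kernel))
  (st_mk (Pth.l (Pth.l (Pth.l Pth.z))) (nat_lit 220739626) (nat_lit 222391878) (by decide +kernel))
  (st_mk (Pth.l (Pth.l (Pth.l Pth.z))) (nat_lit 261004945) (nat_lit 263101855) (by decide +kernel)) sv5
theorem ok : GroupOK (nat_lit 0) (nat_lit 91291648) G := grp_mk (allS_c so0 (allS_c so1 (allS_c so2 (allS_c so3 (allS_c so4 (allS_c so5 allS_n))))))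
theorem cov : GCov G cl4 cl6 cl13 := cov_mk
  ⟨0, by decide, rfl, rfl, rfl⟩ ⟨1, by decide, rfl, rfl, rfl⟩ ⟨2, by decide, rfl, rfl, rfl⟩ ⟨3, by decide, rfl, rfl, rfl⟩ ⟨4, by decide, rfl, rfl, rfl⟩ ⟨5, by decide, rfl, rfl, rfl⟩
end Q136_0


end Pool.Agent.Helper6.MONO
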