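import Pool.Agent.Helper6.MONO.Asm

/-!
Certificate data (generated).
-/

set_option autoImplicit false
set_option linter.all false
noncomputable section
namespace Pool.Agent.Helper6.MONO


namespace Q136_1
def sI : I := I.pos (nat_lit 91226112) (nat_lit 150339584)
def b0_0 : Bx := Bx.mk (St.mk (I.pos (nat_lit 156205056) (nat_lit 237289472)) (I.mix (nat_lit 4685824) (nat_lit 78200832)) (I.mix (nat_lit 15794176) (nat_lit 63406080)) (I.pos (nat_lit 185221120) (nat_lit 311689216)) (I.mix (nat_lit 97566720) (nat_lit 68124672)) (I.mix (nat_lit 66306048) (nat_lit 63307776)) (I.mix (nat_lit 102154240) (nat_lit 96649216)))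
  false (nat_lit 34443716)
def b0_1 : Bx := Bx.mk (St.mk (I.mix (nat_lit 31162368) (nat_lit 98549760)) (I.mix (nat_lit 10354688) (nat_lit 39763968)) (I.neg (nat_lit 1507328) (nat_lit 35979264)) (I.pos (nat_lit 79724544) (nat_lit 124076032)) (I.mix (nat_lit 38633472) (nat_lit 51642368)) (I.mix (nat_lit 45449216) (nat_lit 30703616)) (I.mix (nat_lit 29458432) (nat_lit 23805952)))
  false (nat_lit 0)
def b0_2 : Bx := Bx.mk (St.mk (I.pos (nat_lit 80871424) (nat_lit 117751808)) (I.mix (nat_lit 55476224) (nat_lit 12632064)) (I.neg (nat_lit 18759680) (nat_lit 71532544)) (I.pos (nat_lit 110936064) (nat_lit 141410304)) (I.mix (nat_lit 81641472) (nat_lit 38830080)) (I.mix (nat_lit 37601280) (nat_lit 76578816)) (I.mix (nat_lit 25591808) (nat_lit 58064896)))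
  false (nat_lit 0)
def b0_3 : Bx := Bx.mk (St.mk (I.mix (nat_lit 47611904) (nat_lit 27820032)) (I.mix (nat_lit 33947648) (nat_lit 8224768)) (I.neg (nat_lit 9519104) (nat_lit 26705920)) (I.pos (nat_lit 81461248) (nat_lit 101023744)) (I.mix (nat_lit 42467328) (nat_lit 28033024)) (I.mix (nat_lit 21938176) (nat_lit 34504704)) (I.mix (nat_lit 13254656) (nat_lit 10797056)))
  false (nat_lit 0)
def b0_4 : Bx := Bx.mk (St.mk (I.pos (nat_lit 75497472) (nat_lit 91684864)) (I.mix (nat_lit 11403264) (nat_lit 10174464)) (I.neg (nat_lit 18874368) (nat_lit 36814848)) (I.pos (nat_lit 109035520) (nat_lit 121962496)) (I.mix (nat_lit 31145984) (nat_lit 22921216)) (I.mix (nat_lit 23724032) (nat_lit 21381120)) (I.mix (nat_lit 14876672) (nat_lit 18464768)))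
  false (nat_lit 0)
def b0_5 : Bx := Bx.mk (St.mk (I.mix (nat_lit 58540032) (nat_lit 7258112)) (I.mix (nat_lit 9863168) (nat_lit 14090240)) (I.neg (nat_lit 16449536) (nat_lit 29507584)) (I.pos (nat_lit 85868544) (nat_lit 101957632)) (I.mix (nat_lit 27361280) (nat_lit 24674304)) (I.mix (nat_lit 23674880) (nat_lit 23904256)) (I.mix (nat_lit 9388032) (nat_lit 11976704)))
  false (nat_lit 0)
def b0_6 : Bx := Bx.mk (St.mk (I.pos (nat_lit 217759744) (nat_lit 261996544)) (I.mix (nat_lit 18202624) (nat_lit 19169280)) (I.neg (nat_lit 39780352) (nat_lit 117604352)) (I.pos (nat_lit 282263552) (nat_lit 359497728)) (I.mix (nat_lit 84557824) (nat_lit 24281088)) (I.mix (nat_lit 52887552) (nat_lit 54411264)) (I.mix (nat_lit 77594624) (nat_lit 114098176)))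
  false (nat_lit 0)
def b0_7 : Bx := Bx.mk (St.mk (I.pos (nat_lit 189333504) (nat_lit 255279104)) (I.mix (nat_lit 23527424) (nat_lit 74530816)) (I.mix (nat_lit 119160832) (nat_lit 58572800)) (I.pos (nat_lit 255639552) (nat_lit 340082688)) (I.mix (nat_lit 112050176) (nat_lit 86491136)) (I.mix (nat_lit 91684864) (nat_lit 86900736)) (I.mix (nat_lit 154009600) (nat_lit 171032576)))
  false (nat_lit 41386654)
def b0_8 : Bx := Bx.mk (St.mk (I.pos (nat_lit 75153408) (nat_lit 160415744)) (I.mix (nat_lit 60588032) (nat_lit 2064384)) (I.neg (nat_lit 20430848) (nat_lit 80068608)) (I.pos (nat_lit 114196480) (nat_lit 186974208)) (I.mix (nat_lit 89243648) (nat_lit 46301184)) (I.mix (nat_lit 43155456) (nat_lit 72073216)) (I.mix (nat_lit 26640384) (nat_lit 65699840)))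
  false (nat_lit 0)
def b0_9 : Bx := Bx.mk (St.mk (I.mix (nat_lit 43810816) (nat_lit 49823744)) (I.mix (nat_lit 36323328) (nat_lit 8830976)) (I.neg (nat_lit 9322496) (nat_lit 31064064)) (I.pos (nat_lit 79003648) (nat_lit 102924288)) (I.mix (nat_lit 39436288) (nat_lit 31719424)) (I.mix (nat_lit 23789568) (nat_lit 40140800)) (I.mix (nat_lit 11534336) (nat_lit 17432576)))
  false (nat_lit 0)
def b0_10 : Bx := Bx.mk (St.mk (I.pos (nat_lit 160301056) (nat_lit 221151232)) (I.mix (nat_lit 5963776) (nat_lit 67796992)) (I.mix (nat_lit 24330240) (nat_lit 57966592)) (I.pos (nat_lit 205570048) (nat_lit 276316160)) (I.mix (nat_lit 111968256) (nat_lit 50282496)) (I.mix (nat_lit 109953024) (nat_lit 70369280)) (I.mix (nat_lit 98959360) (nat_lit 62029824)))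
  false (nat_lit 26277658)
def b0_11 : Bx := Bx.mk (St.mk (I.mix (nat_lit 51019776) (nat_lit 64749568)) (I.mix (nat_lit 12140544) (nat_lit 36503552)) (I.neg (nat_lit 7094272) (nat_lit 31195136)) (I.pos (nat_lit 78905344) (nat_lit 104546304)) (I.mix (nat_lit 31506432) (nat_lit 39436288)) (I.mix (nat_lit 39550976) (nat_lit 23789568)) (I.mix (nat_lit 11534336) (nat_lit 17432576)))
  false (nat_lit 0)
def b0_12 : Bx := Bx.mk (St.mk (I.pos (nat_lit 134316032) (nat_lit 202309632)) (I.mix (nat_lit 43991040) (nat_lit 18055168)) (I.neg (nat_lit 557056) (nat_lit 72482816)) (I.pos (nat_lit 161693696) (nat_lit 240353280)) (I.mix (nat_lit 70336512) (nat_lit 64880640)) (I.mix (nat_lit 72663040) (nat_lit 66895872)) (I.mix (nat_lit 68337664) (nat_lit 58392576)))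
  false (nat_lit 0)
def b0_13 : Bx := Bx.mk (St.mk (I.pos (nat_lit 167034880) (nat_lit 205553664)) (I.mix (nat_lit 11419648) (nat_lit 38961152)) (I.mix (nat_lit 34783232) (nat_lit 26640384)) (I.pos (nat_lit 210911232) (nat_lit 246628352)) (I.mix (nat_lit 106397696) (nat_lit 77053952)) (I.mix (nat_lit 131284992) (nat_lit 77840384)) (I.mix (nat_lit 124928000) (nat_lit 65912832)))
  false (nat_lit 0)
def t0 : BTr := (BTr.n (BTr.n (BTr.n (BTr.b b0_0) (BTr.n (BTr.b b0_1) (BTr.b b0_2))) (BTr.n (BTr.n (BTr.b b0_3) (BTr.b b0_4)) (BTr.n (BTr.b b0_5) (BTr.b b0_6)))) (BTr.n (BTr.n (BTr.b b0_7) (BTr.n (BTr.b b0_8) (BTr.b b0_9))) (BTr.n (BTr.n (BTr.b b0_10) (BTr.b b0_11)) (BTr.n (BTr.b b0_12) (BTr.b b0_13)))))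
namespace T0
def l0 : Tr := Tr.L (Pth.l (Pth.l (Pth.l Pth.z)))
def l1 : Tr := Tr.L (Pth.l (Pth.l (Pth.r (Pth.l Pth.z))))
def l2 : Tr := Tr.L (Pth.l (Pth.l (Pth.r (Pth.r Pth.z))))
def l3 : Tr := Tr.L (Pth.l (Pth.r (Pth.l (Pth.l Pth.z))))
def l4 : Tr := Tr.L (Pth.l (Pth.r (Pth.l (Pth.r Pth.z))))
def l5 : Tr := Tr.L (Pth.l (Pth.r (Pth.r (Pth.l Pth.z))))
def l6 : Tr := Tr.L (Pth.l (Pth.r (Pth.r (Pth.r Pth.z))))
def l7 : Tr := Tr.L (Pth.r (Pth.l (Pth.l Pth.z)))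
def l8 : Tr := Tr.L (Pth.r (Pth.l (Pth.r (Pth.l Pth.z))))
def l9 : Tr := Tr.L (Pth.r (Pth.l (Pth.r (Pth.r Pth.z))))
def l10 : Tr := Tr.L (Pth.r (Pth.r (Pth.l (Pth.l Pth.z))))
def l11 : Tr := Tr.L (Pth.r (Pth.r (Pth.l (Pth.r Pth.z))))
def l12 : Tr := Tr.L (Pth.r (Pth.r (Pth.r (Pth.l Pth.z))))
def l13 : Tr := Tr.L (Pth.r (Pth.r (Pth.r (Pth.r Pth.z))))
end T0
def b1_0 : Bx := Bx.mk (St.mk (I.pos (nat_lit 155795456) (nat_lit 244514816)) (I.mix (nat_lit 3588096) (nat_lit 58851328)) (I.mix (nat_lit 4866048) (nat_lit 81477632)) (I.pos (nat_lit 90193920) (nat_lit 241975296)) (I.mix (nat_lit 105398272) (nat_lit 68075520)) (I.mix (nat_lit 77365248) (nat_lit 66404352)) (I.mix (nat_lit 114147328) (nat_lit 94699520)))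
  false (nat_lit 0)
def b1_1 : Bx := Bx.mk (St.mk (I.mix (nat_lit 16367616) (nat_lit 143147008)) (I.mix (nat_lit 7012352) (nat_lit 26869760)) (I.mix (nat_lit 16564224) (nat_lit 16154624)) (I.mix (nat_lit 5652480) (nat_lit 90177536)) (I.mix (nat_lit 32555008) (nat_lit 37371904)) (I.mix (nat_lit 35487744) (nat_lit 24870912)) (I.mix (nat_lit 30064640) (nat_lit 18792448)))
  false (nat_lit 0)
def b1_2 : Bx := Bx.mk (St.mk (I.pos (nat_lit 115949568) (nat_lit 157597696)) (I.mix (nat_lit 49446912) (nat_lit 10485760)) (I.mix (nat_lit 61652992) (nat_lit 884736)) (I.pos (nat_lit 51609600) (nat_lit 110182400)) (I.mix (nat_lit 93405184) (nat_lit 34603008)) (I.mix (nat_lit 39944192) (nat_lit 88522752)) (I.mix (nat_lit 31031296) (nat_lit 83804160)))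
  false (nat_lit 0)
def b1_3 : Bx := Bx.mk (St.mk (I.mix (nat_lit 15286272) (nat_lit 109133824)) (I.mix (nat_lit 24051712) (nat_lit 4341760)) (I.mix (nat_lit 22773760) (nat_lit 1851392)) (I.mix (nat_lit 3915776) (nat_lit 59375616)) (I.mix (nat_lit 35536896) (nat_lit 15974400)) (I.mix (nat_lit 16613376) (nat_lit 33390592)) (I.mix (nat_lit 9584640) (nat_lit 21168128)))
  false (nat_lit 0)
def b1_4 : Bx := Bx.mk (St.mk (I.pos (nat_lit 192217088) (nat_lit 253575168)) (I.mix (nat_lit 17481728) (nat_lit 57819136)) (I.mix (nat_lit 58425344) (nat_lit 80445440)) (I.pos (nat_lit 174211072) (nat_lit 259637248)) (I.mix (nat_lit 95600640) (nat_lit 76627968)) (I.mix (nat_lit 90783744) (nat_lit 74776576)) (I.mix (nat_lit 152502272) (nat_lit 118128640)))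
  false (nat_lit 18262927)
def b1_5 : Bx := Bx.mk (St.mk (I.mix (nat_lit 18448384) (nat_lit 95633408)) (I.mix (nat_lit 2473984) (nat_lit 3588096)) (I.mix (nat_lit 6750208) (nat_lit 933888)) (I.mix (nat_lit 3342336) (nat_lit 49119232)) (I.mix (nat_lit 7045120) (nat_lit 4751360)) (I.mix (nat_lit 5308416) (nat_lit 4997120)) (I.mix (nat_lit 1736704) (nat_lit 1802240)))
  false (nat_lit 0)
def b1_6 : Bx := Bx.mk (St.mk (I.pos (nat_lit 112132096) (nat_lit 135168000)) (I.mix (nat_lit 8617984) (nat_lit 7536640)) (I.neg (nat_lit 737280) (nat_lit 18137088)) (I.pos (nat_lit 49725440) (nat_lit 86163456)) (I.mix (nat_lit 27099136) (nat_lit 15794176)) (I.mix (nat_lit 17514496) (nat_lit 18513920)) (I.mix (nat_lit 15187968) (nat_lit 18235392)))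
  false (nat_lit 0)
def b1_7 : Bx := Bx.mk (St.mk (I.pos (nat_lit 217645056) (nat_lit 260308992)) (I.mix (nat_lit 16941056) (nat_lit 18972672)) (I.mix (nat_lit 62488576) (nat_lit 2621440)) (I.pos (nat_lit 201523200) (nat_lit 279724032)) (I.mix (nat_lit 82903040) (nat_lit 23330816)) (I.mix (nat_lit 48300032) (nat_lit 49954816)) (I.mix (nat_lit 79708160) (nat_lit 95240192)))
  false (nat_lit 0)
def b1_8 : Bx := Bx.mk (St.mk (I.pos (nat_lit 106725376) (nat_lit 188334080)) (I.mix (nat_lit 56098816) (nat_lit 7389184)) (I.neg (nat_lit 5554176) (nat_lit 66699264)) (I.pos (nat_lit 61505536) (nat_lit 150978560)) (I.mix (nat_lit 87228416) (nat_lit 41811968)) (I.mix (nat_lit 46858240) (nat_lit 69582848)) (I.mix (nat_lit 41041920) (nat_lit 67321856)))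
  false (nat_lit 12195133)
def b1_9 : Bx := Bx.mk (St.mk (I.mix (nat_lit 19103744) (nat_lit 122748928)) (I.mix (nat_lit 28622848) (nat_lit 9601024)) (I.mix (nat_lit 25837568) (nat_lit 2015232)) (I.mix (nat_lit 4538368) (nat_lit 70254592)) (I.mix (nat_lit 36896768) (nat_lit 26689536)) (I.mix (nat_lit 22511616) (nat_lit 29442048)) (I.mix (nat_lit 13090816) (nat_lit 21233664)))
  false (nat_lit 0)
def b1_10 : Bx := Bx.mk (St.mk (I.pos (nat_lit 172654592) (nat_lit 222887936)) (I.mix (nat_lit 19890176) (nat_lit 53772288)) (I.mix (nat_lit 19415040) (nat_lit 73433088)) (I.pos (nat_lit 118276096) (nat_lit 206438400)) (I.mix (nat_lit 118669312) (nat_lit 50561024)) (I.mix (nat_lit 125059072) (nat_lit 72302592)) (I.mix (nat_lit 146489344) (nat_lit 78594048)))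
  false (nat_lit 0)
def b1_11 : Bx := Bx.mk (St.mk (I.mix (nat_lit 19628032) (nat_lit 144850944)) (I.mix (nat_lit 15089664) (nat_lit 35110912)) (I.mix (nat_lit 17252352) (nat_lit 22003712)) (I.mix (nat_lit 5554176) (nat_lit 88178688)) (I.mix (nat_lit 51019776) (nat_lit 30638080)) (I.mix (nat_lit 47661056) (nat_lit 32260096)) (I.mix (nat_lit 30949376) (nat_lit 21086208)))
  false (nat_lit 0)
def b1_12 : Bx := Bx.mk (St.mk (I.pos (nat_lit 146341888) (nat_lit 211714048)) (I.mix (nat_lit 41517056) (nat_lit 10682368)) (I.mix (nat_lit 55656448) (nat_lit 10256384)) (I.pos (nat_lit 90341376) (nat_lit 184827904)) (I.mix (nat_lit 59523072) (nat_lit 51183616)) (I.mix (nat_lit 57360384) (nat_lit 55771136)) (I.mix (nat_lit 63488000) (nat_lit 59523072)))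
  false (nat_lit 14643518)
def b1_13 : Bx := Bx.mk (St.mk (I.pos (nat_lit 172867584) (nat_lit 213221376)) (I.mix (nat_lit 25788416) (nat_lit 31948800)) (I.mix (nat_lit 29507584) (nat_lit 42369024)) (I.pos (nat_lit 119029760) (nat_lit 188153856)) (I.mix (nat_lit 102219776) (nat_lit 61374464)) (I.mix (nat_lit 115671040) (nat_lit 67272704)) (I.mix (nat_lit 134676480) (nat_lit 73449472)))
  false (nat_lit 0)
def t1 : BTr := (BTr.n (BTr.n (BTr.n (BTr.b b1_0) (BTr.n (BTr.b b1_1) (BTr.b b1_2))) (BTr.n (BTr.n (BTr.b b1_3) (BTr.b b1_4)) (BTr.n (BTr.b b1_5) (BTr.b b1_6)))) (BTr.n (BTr.n (BTr.b b1_7) (BTr.n (BTr.b b1_8) (BTr.b b1_9))) (BTr.n (BTr.n (BTr.b b1_10) (BTr.b b1_11)) (BTr.n (BTr.b b1_12) (BTr.b b1_13)))))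
namespace T1
def l0 : Tr := Tr.L (Pth.l (Pth.l (Pth.l Pth.z)))
def l1 : Tr := Tr.L (Pth.l (Pth.l (Pth.r (Pth.l Pth.z))))
def l2 : Tr := Tr.L (Pth.l (Pth.l (Pth.r (Pth.r Pth.z))))
def l3 : Tr := Tr.L (Pth.l (Pth.r (Pth.l (Pth.l Pth.z))))
def l4 : Tr := Tr.L (Pth.l (Pth.r (Pth.l (Pth.r Pth.z))))
def l5 : Tr := Tr.L (Pth.l (Pth.r (Pth.r (Pth.l Pth.z))))
def l6 : Tr := Tr.L (Pth.l (Pth.r (Pth.r (Pth.r Pth.z))))
def l7 : Tr := Tr.L (Pth.r (Pth.l (Pth.l Pth.z)))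
def l8 : Tr := Tr.L (Pth.r (Pth.l (Pth.r (Pth.l Pth.z))))
def l9 : Tr := Tr.L (Pth.r (Pth.l (Pth.r (Pth.r Pth.z))))
def l10 : Tr := Tr.L (Pth.r (Pth.r (Pth.l (Pth.l Pth.z))))
def l11 : Tr := Tr.L (Pth.r (Pth.r (Pth.l (Pth.r Pth.z))))
def l12 : Tr := Tr.L (Pth.r (Pth.r (Pth.r (Pth.l Pth.z))))
def l13 : Tr := Tr.L (Pth.r (Pth.r (Pth.r (Pth.r Pth.z))))
end T1
def b2_0 : Bx := Bx.mk (St.mk (I.pos (nat_lit 144474112) (nat_lit 222183424)) (I.mix (nat_lit 6291456) (nat_lit 106496000)) (I.mix (nat_lit 10207232) (nat_lit 84869120)) (I.pos (nat_lit 367443968) (nat_lit 464502784)) (I.mix (nat_lit 141049856) (nat_lit 89620480)) (I.mix (nat_lit 96518144) (nat_lit 88326144)) (I.mix (nat_lit 111755264) (nat_lit 113934336)))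
  false (nat_lit 76604735)
def b2_1 : Bx := Bx.mk (St.mk (I.mix (nat_lit 55902208) (nat_lit 19087360)) (I.mix (nat_lit 22675456) (nat_lit 91488256)) (I.neg (nat_lit 54984704) (nat_lit 80052224)) (I.pos (nat_lit 262029312) (nat_lit 289210368)) (I.mix (nat_lit 41009152) (nat_lit 104628224)) (I.mix (nat_lit 76480512) (nat_lit 58294272)) (I.mix (nat_lit 37126144) (nat_lit 32931840)))
  true (nat_lit 0)
def b2_2 : Bx := Bx.mk (St.mk (I.pos (nat_lit 10567680) (nat_lit 54231040)) (I.neg (nat_lit 28803072) (nat_lit 88588288)) (I.neg (nat_lit 55246848) (nat_lit 80035840)) (I.pos (nat_lit 265748480) (nat_lit 288997376)) (I.mix (nat_lit 104579072) (nat_lit 40124416)) (I.mix (nat_lit 58294272) (nat_lit 76480512)) (I.mix (nat_lit 37126144) (nat_lit 32931840)))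
  false (nat_lit 9568619)
def b2_3 : Bx := Bx.mk (St.mk (I.pos (nat_lit 12533760) (nat_lit 123502592)) (I.mix (nat_lit 99811328) (nat_lit 3194880)) (I.neg (nat_lit 10420224) (nat_lit 98549760)) (I.pos (nat_lit 258441216) (nat_lit 333660160)) (I.mix (nat_lit 125599744) (nat_lit 76398592)) (I.mix (nat_lit 73859072) (nat_lit 96698368)) (I.mix (nat_lit 76234752) (nat_lit 80429056)))
  false (nat_lit 52794963)
def b2_4 : Bx := Bx.mk (St.mk (I.pos (nat_lit 92143616) (nat_lit 195428352)) (I.mix (nat_lit 49774592) (nat_lit 98123776)) (I.mix (nat_lit 61538304) (nat_lit 84557824)) (I.pos (nat_lit 300171264) (nat_lit 428113920)) (I.mix (nat_lit 144769024) (nat_lit 75988992)) (I.mix (nat_lit 142475264) (nat_lit 102498304)) (I.mix (nat_lit 135118848) (nat_lit 117817344)))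
  false (nat_lit 58458682)
def b2_5 : Bx := Bx.mk (St.mk (I.neg (nat_lit 12533760) (nat_lit 123502592)) (I.mix (nat_lit 3194880) (nat_lit 99811328)) (I.neg (nat_lit 10420224) (nat_lit 98549760)) (I.pos (nat_lit 258424832) (nat_lit 333660160)) (I.mix (nat_lit 76398592) (nat_lit 125599744)) (I.mix (nat_lit 96714752) (nat_lit 73875456)) (I.mix (nat_lit 76251136) (nat_lit 80445440)))
  true (nat_lit 0)
def b2_6 : Bx := Bx.mk (St.mk (I.pos (nat_lit 181878784) (nat_lit 291307520)) (I.mix (nat_lit 40747008) (nat_lit 61915136)) (I.mix (nat_lit 216743936) (nat_lit 11010048)) (I.pos (nat_lit 408961024) (nat_lit 589365248)) (I.mix (nat_lit 83230720) (nat_lit 64487424)) (I.mix (nat_lit 68026368) (nat_lit 66551808)) (I.mix (nat_lit 114442240) (nat_lit 148586496)))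
  false (nat_lit 33861191)
def b2_7 : Bx := Bx.mk (St.mk (I.mix (nat_lit 18219008) (nat_lit 40353792)) (I.mix (nat_lit 44990464) (nat_lit 21069824)) (I.neg (nat_lit 55607296) (nat_lit 69009408)) (I.pos (nat_lit 262569984) (nat_lit 276905984)) (I.mix (nat_lit 47906816) (nat_lit 38223872)) (I.mix (nat_lit 36945920) (nat_lit 39698432)) (I.mix (nat_lit 9469952) (nat_lit 16105472)))
  false (nat_lit 0)
def b2_8 : Bx := Bx.mk (St.mk (I.pos (nat_lit 161103872) (nat_lit 224575488)) (I.pos (nat_lit 17170432) (nat_lit 96632832)) (I.mix (nat_lit 45629440) (nat_lit 70828032)) (I.pos (nat_lit 402505728) (nat_lit 457621504)) (I.mix (nat_lit 104153088) (nat_lit 82067456)) (I.mix (nat_lit 87867392) (nat_lit 65552384)) (I.mix (nat_lit 134152192) (nat_lit 93257728)))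
  false (nat_lit 42210113)
def b2_9 : Bx := Bx.mk (St.mk (I.pos (nat_lit 16793600) (nat_lit 44908544)) (I.neg (nat_lit 19398656) (nat_lit 58490880)) (I.neg (nat_lit 56885248) (nat_lit 71974912)) (I.pos (nat_lit 265650176) (nat_lit 280559616)) (I.mix (nat_lit 53673984) (nat_lit 37863424)) (I.mix (nat_lit 40124416) (nat_lit 42598400)) (I.mix (nat_lit 13795328) (nat_lit 17727488)))
  false (nat_lit 0)
def t2 : BTr := (BTr.n (BTr.n (BTr.n (BTr.b b2_0) (BTr.b b2_1)) (BTr.n (BTr.b b2_2) (BTr.n (BTr.b b2_3) (BTr.b b2_4)))) (BTr.n (BTr.n (BTr.b b2_5) (BTr.b b2_6)) (BTr.n (BTr.b b2_7) (BTr.n (BTr.b b2_8) (BTr.b b2_9)))))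
namespace T2
def l0 : Tr := Tr.L (Pth.l (Pth.l (Pth.l Pth.z)))
def l1 : Tr := Tr.L (Pth.l (Pth.l (Pth.r Pth.z)))
def l2 : Tr := Tr.L (Pth.l (Pth.r (Pth.l Pth.z)))
def l3 : Tr := Tr.L (Pth.l (Pth.r (Pth.r (Pth.l Pth.z))))
def l4 : Tr := Tr.L (Pth.l (Pth.r (Pth.r (Pth.r Pth.z))))
def l5 : Tr := Tr.L (Pth.r (Pth.l (Pth.l Pth.z)))
def l6 : Tr := Tr.L (Pth.r (Pth.l (Pth.r Pth.z)))
def l7 : Tr := Tr.L (Pth.r (Pth.r (Pth.l Pth.z)))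
def l8 : Tr := Tr.L (Pth.r (Pth.r (Pth.r (Pth.l Pth.z))))
def l9 : Tr := Tr.L (Pth.r (Pth.r (Pth.r (Pth.r Pth.z))))
end T2
def b3_0 : Bx := Bx.mk (St.mk (I.pos (nat_lit 156073984) (nat_lit 239419392)) (I.mix (nat_lit 2899968) (nat_lit 46743552)) (I.mix (nat_lit 6389760) (nat_lit 108396544)) (I.pos (nat_lit 90095616) (nat_lit 220037120)) (I.mix (nat_lit 102432768) (nat_lit 57393152)) (I.mix (nat_lit 87556096) (nat_lit 66732032)) (I.mix (nat_lit 129810432) (nat_lit 90472448)))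
  false (nat_lit 24584770)
def b3_1 : Bx := Bx.mk (St.mk (I.pos (nat_lit 118849536) (nat_lit 179961856)) (I.mix (nat_lit 58327040) (nat_lit 901120)) (I.mix (nat_lit 46776320) (nat_lit 14991360)) (I.pos (nat_lit 72417280) (nat_lit 133513216)) (I.mix (nat_lit 78118912) (nat_lit 56246272)) (I.mix (nat_lit 55328768) (nat_lit 73465856)) (I.mix (nat_lit 46235648) (nat_lit 75726848)))
  false (nat_lit 31056195)
def b3_2 : Bx := Bx.mk (St.mk (I.mix (nat_lit 13664256) (nat_lit 119291904)) (I.mix (nat_lit 27639808) (nat_lit 5603328)) (I.mix (nat_lit 13352960) (nat_lit 10846208)) (I.mix (nat_lit 4292608) (nat_lit 66011136)) (I.mix (nat_lit 25657344) (nat_lit 29097984)) (I.mix (nat_lit 19136512) (nat_lit 27394048)) (I.mix (nat_lit 11927552) (nat_lit 18825216)))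
  false (nat_lit 0)
def b3_3 : Bx := Bx.mk (St.mk (I.pos (nat_lit 168361984) (nat_lit 213549056)) (I.mix (nat_lit 20742144) (nat_lit 49463296)) (I.pos (nat_lit 5685248) (nat_lit 101744640)) (I.pos (nat_lit 105791488) (nat_lit 186253312)) (I.mix (nat_lit 132464640) (nat_lit 48611328)) (I.mix (nat_lit 133890048) (nat_lit 66732032)) (I.mix (nat_lit 170770432) (nat_lit 63553536)))
  false (nat_lit 23844871)
def b3_4 : Bx := Bx.mk (St.mk (I.mix (nat_lit 17989632) (nat_lit 140050432)) (I.mix (nat_lit 14663680) (nat_lit 35176448)) (I.mix (nat_lit 2818048) (nat_lit 38125568)) (I.mix (nat_lit 5308416) (nat_lit 84000768)) (I.mix (nat_lit 60948480) (nat_lit 30474240)) (I.mix (nat_lit 55017472) (nat_lit 31096832)) (I.mix (nat_lit 41615360) (nat_lit 19021824)))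
  false (nat_lit 0)
def b3_5 : Bx := Bx.mk (St.mk (I.pos (nat_lit 165249024) (nat_lit 211337216)) (I.mix (nat_lit 42008576) (nat_lit 24821760)) (I.mix (nat_lit 23691264) (nat_lit 65159168)) (I.pos (nat_lit 103759872) (nat_lit 178061312)) (I.mix (nat_lit 95027200) (nat_lit 65814528)) (I.mix (nat_lit 118243328) (nat_lit 68960256)) (I.mix (nat_lit 138805248) (nat_lit 69107712)))
  false (nat_lit 47102672)
def b3_6 : Bx := Bx.mk (St.mk (I.mix (nat_lit 20512768) (nat_lit 120176640)) (I.mix (nat_lit 16711680) (nat_lit 6782976)) (I.mix (nat_lit 4063232) (nat_lit 12632064)) (I.mix (nat_lit 4374528) (nat_lit 67534848)) (I.mix (nat_lit 22118400) (nat_lit 15368192)) (I.mix (nat_lit 15122432) (nat_lit 17170432)) (I.mix (nat_lit 11026432) (nat_lit 10960896)))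
  false (nat_lit 0)
def b3_7 : Bx := Bx.mk (St.mk (I.pos (nat_lit 141262848) (nat_lit 183238656)) (I.mix (nat_lit 41762816) (nat_lit 442368)) (I.mix (nat_lit 24313856) (nat_lit 20971520)) (I.pos (nat_lit 86818816) (nat_lit 140230656)) (I.mix (nat_lit 58507264) (nat_lit 32079872)) (I.mix (nat_lit 29130752) (nat_lit 43745280)) (I.mix (nat_lit 36077568) (nat_lit 43204608)))
  false (nat_lit 0)
def b3_8 : Bx := Bx.mk (St.mk (I.pos (nat_lit 162381824) (nat_lit 188727296)) (I.neg (nat_lit 6373376) (nat_lit 35209216)) (I.mix (nat_lit 17645568) (nat_lit 16269312)) (I.pos (nat_lit 104726528) (nat_lit 151535616)) (I.mix (nat_lit 32374784) (nat_lit 25722880)) (I.mix (nat_lit 23085056) (nat_lit 21839872)) (I.mix (nat_lit 23691264) (nat_lit 23724032)))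
  false (nat_lit 0)
def b3_9 : Bx := Bx.mk (St.mk (I.mix (nat_lit 22691840) (nat_lit 149602304)) (I.mix (nat_lit 10223616) (nat_lit 24444928)) (I.mix (nat_lit 2359296) (nat_lit 31735808)) (I.mix (nat_lit 5963776) (nat_lit 95453184)) (I.mix (nat_lit 37552128) (nat_lit 31129600)) (I.mix (nat_lit 36405248) (nat_lit 27901952)) (I.mix (nat_lit 31358976) (nat_lit 20594688)))
  false (nat_lit 0)
def b3_10 : Bx := Bx.mk (St.mk (I.pos (nat_lit 114196480) (nat_lit 167362560)) (I.mix (nat_lit 56410112) (nat_lit 10633216)) (I.mix (nat_lit 43302912) (nat_lit 19070976)) (I.pos (nat_lit 49971200) (nat_lit 120897536)) (I.mix (nat_lit 84557824) (nat_lit 34111488)) (I.mix (nat_lit 40189952) (nat_lit 81002496)) (I.mix (nat_lit 33947648) (nat_lit 66125824)))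
  false (nat_lit 0)
def b3_11 : Bx := Bx.mk (St.mk (I.pos (nat_lit 36716544) (nat_lit 111050752)) (I.mix (nat_lit 25214976) (nat_lit 1146880)) (I.mix (nat_lit 11108352) (nat_lit 5652480)) (I.pos (nat_lit 2621440) (nat_lit 61865984)) (I.mix (nat_lit 29032448) (nat_lit 16367616)) (I.mix (nat_lit 16629760) (nat_lit 25427968)) (I.mix (nat_lit 9764864) (nat_lit 14680064)))
  false (nat_lit 0)
def b3_12 : Bx := Bx.mk (St.mk (I.pos (nat_lit 196182016) (nat_lit 284983296)) (I.mix (nat_lit 30212096) (nat_lit 35454976)) (I.mix (nat_lit 29868032) (nat_lit 93175808)) (I.pos (nat_lit 163037184) (nat_lit 326565888)) (I.mix (nat_lit 79216640) (nat_lit 47218688)) (I.mix (nat_lit 56229888) (nat_lit 45629440)) (I.mix (nat_lit 93618176) (nat_lit 75268096)))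
  false (nat_lit 23334571)
def b3_13 : Bx := Bx.mk (St.mk (I.pos (nat_lit 186089472) (nat_lit 237060096)) (I.pos (nat_lit 4145152) (nat_lit 46006272)) (I.pos (nat_lit 28966912) (nat_lit 105496576)) (I.pos (nat_lit 154959872) (nat_lit 213925888)) (I.mix (nat_lit 92635136) (nat_lit 65404928)) (I.mix (nat_lit 87867392) (nat_lit 65716224)) (I.mix (nat_lit 136151040) (nat_lit 89604096)))
  false (nat_lit 26523199)
def t3 : BTr := (BTr.n (BTr.n (BTr.n (BTr.b b3_0) (BTr.n (BTr.b b3_1) (BTr.b b3_2))) (BTr.n (BTr.n (BTr.b b3_3) (BTr.b b3_4)) (BTr.n (BTr.b b3_5) (BTr.b b3_6)))) (BTr.n (BTr.n (BTr.b b3_7) (BTr.n (BTr.b b3_8) (BTr.b b3_9))) (BTr.n (BTr.n (BTr.b b3_10) (BTr.b b3_11)) (BTr.n (BTr.b b3_12) (BTr.b b3_13)))))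
namespace T3
def l0 : Tr := Tr.L (Pth.l (Pth.l (Pth.l Pth.z)))
def l1 : Tr := Tr.L (Pth.l (Pth.l (Pth.r (Pth.l Pth.z))))
def l2 : Tr := Tr.L (Pth.l (Pth.l (Pth.r (Pth.r Pth.z))))
def l3 : Tr := Tr.L (Pth.l (Pth.r (Pth.l (Pth.l Pth.z))))
def l4 : Tr := Tr.L (Pth.l (Pth.r (Pth.l (Pth.r Pth.z))))
def l5 : Tr := Tr.L (Pth.l (Pth.r (Pth.r (Pth.l Pth.z))))
def l6 : Tr := Tr.L (Pth.l (Pth.r (Pth.r (Pth.r Pth.z))))
def l7 : Tr := Tr.L (Pth.r (Pth.l (Pth.l Pth.z)))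
def l8 : Tr := Tr.L (Pth.r (Pth.l (Pth.r (Pth.l Pth.z))))
def l9 : Tr := Tr.L (Pth.r (Pth.l (Pth.r (Pth.r Pth.z))))
def l10 : Tr := Tr.L (Pth.r (Pth.r (Pth.l (Pth.l Pth.z))))
def l11 : Tr := Tr.L (Pth.r (Pth.r (Pth.l (Pth.r Pth.z))))
def l12 : Tr := Tr.L (Pth.r (Pth.r (Pth.r (Pth.l Pth.z))))
def l13 : Tr := Tr.L (Pth.r (Pth.r (Pth.r (Pth.r Pth.z))))
end T3
def b4_0 : Bx := Bx.mk (St.mk (I.pos (nat_lit 128139264) (nat_lit 220200960)) (I.mix (nat_lit 5734400) (nat_lit 96632832)) (I.mix (nat_lit 7733248) (nat_lit 131891200)) (I.pos (nat_lit 352731136) (nat_lit 449642496)) (I.mix (nat_lit 156745728) (nat_lit 87343104)) (I.mix (nat_lit 103727104) (nat_lit 82362368)) (I.mix (nat_lit 114786304) (nat_lit 108494848)))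
  false (nat_lit 150572261)
def b4_1 : Bx := Bx.mk (St.mk (I.pos (nat_lit 27541504) (nat_lit 134184960)) (I.mix (nat_lit 99450880) (nat_lit 1474560)) (I.mix (nat_lit 61390848) (nat_lit 34373632)) (I.pos (nat_lit 267452416) (nat_lit 336019456)) (I.mix (nat_lit 107921408) (nat_lit 74743808)) (I.mix (nat_lit 79052800) (nat_lit 79380480)) (I.mix (nat_lit 70959104) (nat_lit 60506112)))
  false (nat_lit 61708544)
def b4_2 : Bx := Bx.mk (St.mk (I.pos (nat_lit 87916544) (nat_lit 188465152)) (I.mix (nat_lit 49758208) (nat_lit 94846976)) (I.mix (nat_lit 15663104) (nat_lit 129974272)) (I.pos (nat_lit 294649856) (nat_lit 409092096)) (I.mix (nat_lit 169345024) (nat_lit 66191360)) (I.mix (nat_lit 146325504) (nat_lit 102121472)) (I.mix (nat_lit 152879104) (nat_lit 127139840)))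
  false (nat_lit 142759208)
def b4_3 : Bx := Bx.mk (St.mk (I.neg (nat_lit 27541504) (nat_lit 134184960)) (I.mix (nat_lit 2473984) (nat_lit 99516416)) (I.mix (nat_lit 61456384) (nat_lit 35520512)) (I.pos (nat_lit 267452416) (nat_lit 336019456)) (I.mix (nat_lit 74694656) (nat_lit 107921408)) (I.mix (nat_lit 79380480) (nat_lit 79052800)) (I.mix (nat_lit 70975488) (nat_lit 60522496)))
  true (nat_lit 0)
def b4_4 : Bx := Bx.mk (St.mk (I.mix (nat_lit 66240512) (nat_lit 13877248)) (I.mix (nat_lit 16220160) (nat_lit 94879744)) (I.neg (nat_lit 20824064) (nat_lit 45285376)) (I.pos (nat_lit 264208384) (nat_lit 293928960)) (I.mix (nat_lit 53379072) (nat_lit 91389952)) (I.mix (nat_lit 83771392) (nat_lit 65880064)) (I.mix (nat_lit 33980416) (nat_lit 26296320)))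
  true (nat_lit 0)
def b4_5 : Bx := Bx.mk (St.mk (I.pos (nat_lit 20529152) (nat_lit 64290816)) (I.neg (nat_lit 31113216) (nat_lit 92209152)) (I.neg (nat_lit 23085056) (nat_lit 45154304)) (I.pos (nat_lit 270319616) (nat_lit 293584896)) (I.mix (nat_lit 91389952) (nat_lit 53379072)) (I.mix (nat_lit 65208320) (nat_lit 71860224)) (I.mix (nat_lit 33980416) (nat_lit 26296320)))
  false (nat_lit 23823585)
def b4_6 : Bx := Bx.mk (St.mk (I.pos (nat_lit 176537600) (nat_lit 289931264)) (I.mix (nat_lit 27885568) (nat_lit 73269248)) (I.mix (nat_lit 110362624) (nat_lit 85917696)) (I.pos (nat_lit 399802368) (nat_lit 574406656)) (I.mix (nat_lit 88227840) (nat_lit 74743808)) (I.mix (nat_lit 75071488) (nat_lit 58540032)) (I.mix (nat_lit 130940928) (nat_lit 88276992)))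
  false (nat_lit 147680629)
def b4_7 : Bx := Bx.mk (St.mk (I.mix (nat_lit 13156352) (nat_lit 53526528)) (I.mix (nat_lit 56066048) (nat_lit 14024704)) (I.neg (nat_lit 21381120) (nat_lit 35373056)) (I.pos (nat_lit 264765440) (nat_lit 281821184)) (I.mix (nat_lit 50855936) (nat_lit 43778048)) (I.mix (nat_lit 38469632) (nat_lit 42532864)) (I.mix (nat_lit 11026432) (nat_lit 13074432)))
  false (nat_lit 0)
def b4_8 : Bx := Bx.mk (St.mk (I.pos (nat_lit 147832832) (nat_lit 209780736)) (I.pos (nat_lit 27738112) (nat_lit 90423296)) (I.pos (nat_lit 33046528) (nat_lit 118407168)) (I.pos (nat_lit 374620160) (nat_lit 431505408)) (I.mix (nat_lit 125452288) (nat_lit 94470144)) (I.mix (nat_lit 113639424) (nat_lit 75399168)) (I.mix (nat_lit 152223744) (nat_lit 98975744)))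
  false (nat_lit 123897804)
def b4_9 : Bx := Bx.mk (St.mk (I.pos (nat_lit 26214400) (nat_lit 55656448)) (I.neg (nat_lit 21921792) (nat_lit 79151104)) (I.neg (nat_lit 22429696) (nat_lit 42893312)) (I.pos (nat_lit 270483456) (nat_lit 287260672)) (I.mix (nat_lit 87277568) (nat_lit 46792704)) (I.mix (nat_lit 48136192) (nat_lit 83771392)) (I.mix (nat_lit 24199168) (nat_lit 22134784)))
  false (nat_lit 0)
def t4 : BTr := (BTr.n (BTr.n (BTr.n (BTr.b b4_0) (BTr.b b4_1)) (BTr.n (BTr.b b4_2) (BTr.n (BTr.b b4_3) (BTr.b b4_4)))) (BTr.n (BTr.n (BTr.b b4_5) (BTr.b b4_6)) (BTr.n (BTr.b b4_7) (BTr.n (BTr.b b4_8) (BTr.b b4_9)))))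
namespace T4
def l0 : Tr := Tr.L (Pth.l (Pth.l (Pth.l Pth.z)))
def l1 : Tr := Tr.L (Pth.l (Pth.l (Pth.r Pth.z)))
def l2 : Tr := Tr.L (Pth.l (Pth.r (Pth.l Pth.z)))
def l3 : Tr := Tr.L (Pth.l (Pth.r (Pth.r (Pth.l Pth.z))))
def l4 : Tr := Tr.L (Pth.l (Pth.r (Pth.r (Pth.r Pth.z))))
def l5 : Tr := Tr.L (Pth.r (Pth.l (Pth.l Pth.z)))
def l6 : Tr := Tr.L (Pth.r (Pth.l (Pth.r Pth.z)))
def l7 : Tr := Tr.L (Pth.r (Pth.r (Pth.l Pth.z)))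
def l8 : Tr := Tr.L (Pth.r (Pth.r (Pth.r (Pth.l Pth.z))))
def l9 : Tr := Tr.L (Pth.r (Pth.r (Pth.r (Pth.r Pth.z))))
end T4
def b5_0 : Bx := Bx.mk (St.mk (I.pos (nat_lit 142032896) (nat_lit 229556224)) (I.mix (nat_lit 3473408) (nat_lit 56721408)) (I.mix (nat_lit 7520256) (nat_lit 128303104)) (I.pos (nat_lit 180436992) (nat_lit 271548416)) (I.mix (nat_lit 113885184) (nat_lit 64585728)) (I.mix (nat_lit 92176384) (nat_lit 73170944)) (I.mix (nat_lit 124993536) (nat_lit 86081536)))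
  false (nat_lit 57289674)
def b5_1 : Bx := Bx.mk (St.mk (I.pos (nat_lit 100401152) (nat_lit 163250176)) (I.neg (nat_lit 4997120) (nat_lit 65028096)) (I.mix (nat_lit 32587776) (nat_lit 32653312)) (I.pos (nat_lit 136527872) (nat_lit 186023936)) (I.mix (nat_lit 68943872) (nat_lit 61472768)) (I.mix (nat_lit 48889856) (nat_lit 62455808)) (I.mix (nat_lit 40108032) (nat_lit 52625408)))
  false (nat_lit 26806520)
def b5_2 : Bx := Bx.mk (St.mk (I.mix (nat_lit 28475392) (nat_lit 46399488)) (I.mix (nat_lit 35389440) (nat_lit 8208384)) (I.pos (nat_lit 3555328) (nat_lit 19939328)) (I.pos (nat_lit 81625088) (nat_lit 100614144)) (I.mix (nat_lit 27377664) (nat_lit 40058880)) (I.mix (nat_lit 21692416) (nat_lit 32112640)) (I.mix (nat_lit 8585216) (nat_lit 12222464)))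
  false (nat_lit 0)
def b5_3 : Bx := Bx.mk (St.mk (I.pos (nat_lit 150355968) (nat_lit 203571200)) (I.mix (nat_lit 8159232) (nat_lit 59310080)) (I.pos (nat_lit 38043648) (nat_lit 121454592)) (I.pos (nat_lit 171917312) (nat_lit 237551616)) (I.mix (nat_lit 129105920) (nat_lit 40157184)) (I.mix (nat_lit 127664128) (nat_lit 68599808)) (I.mix (nat_lit 139083776) (nat_lit 56360960)))
  false (nat_lit 58091537)
def b5_4 : Bx := Bx.mk (St.mk (I.mix (nat_lit 52576256) (nat_lit 72695808)) (I.mix (nat_lit 11878400) (nat_lit 37208064)) (I.pos (nat_lit 2899968) (nat_lit 31703040)) (I.pos (nat_lit 81199104) (nat_lit 108085248)) (I.mix (nat_lit 47824896) (nat_lit 29212672)) (I.mix (nat_lit 35274752) (nat_lit 23019520)) (I.mix (nat_lit 14827520) (nat_lit 12582912)))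
  false (nat_lit 0)
def b5_5 : Bx := Bx.mk (St.mk (I.pos (nat_lit 136642560) (nat_lit 162021376)) (I.neg (nat_lit 4243456) (nat_lit 36601856)) (I.pos (nat_lit 1916928) (nat_lit 37240832)) (I.pos (nat_lit 160071680) (nat_lit 184614912)) (I.mix (nat_lit 44564480) (nat_lit 40599552)) (I.mix (nat_lit 28737536) (nat_lit 40304640)) (I.mix (nat_lit 33259520) (nat_lit 35389440)))
  false (nat_lit 0)
def b5_6 : Bx := Bx.mk (St.mk (I.mix (nat_lit 62144512) (nat_lit 51052544)) (I.mix (nat_lit 13303808) (nat_lit 12877824)) (I.pos (nat_lit 9945088) (nat_lit 22200320)) (I.pos (nat_lit 84606976) (nat_lit 102072320)) (I.mix (nat_lit 27803648) (nat_lit 22937600)) (I.mix (nat_lit 22593536) (nat_lit 22413312)) (I.mix (nat_lit 9601024) (nat_lit 8896512)))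
  false (nat_lit 0)
def b5_7 : Bx := Bx.mk (St.mk (I.pos (nat_lit 147079168) (nat_lit 171753472)) (I.neg (nat_lit 10420224) (nat_lit 35356672)) (I.pos (nat_lit 2850816) (nat_lit 31342592)) (I.pos (nat_lit 171032576) (nat_lit 197296128)) (I.mix (nat_lit 28196864) (nat_lit 36044800)) (I.mix (nat_lit 32292864) (nat_lit 24608768)) (I.mix (nat_lit 31588352) (nat_lit 25968640)))
  false (nat_lit 0)
def b5_8 : Bx := Bx.mk (St.mk (I.pos (nat_lit 147603456) (nat_lit 193413120)) (I.mix (nat_lit 42713088) (nat_lit 33095680)) (I.mix (nat_lit 1359872) (nat_lit 89374720)) (I.pos (nat_lit 169164800) (nat_lit 220413952)) (I.mix (nat_lit 117948416) (nat_lit 72531968)) (I.mix (nat_lit 119406592) (nat_lit 70189056)) (I.mix (nat_lit 126631936) (nat_lit 62603264)))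
  false (nat_lit 61964363)
def b5_9 : Bx := Bx.mk (St.mk (I.mix (nat_lit 45481984) (nat_lit 101466112)) (I.mix (nat_lit 9043968) (nat_lit 39059456)) (I.pos (nat_lit 2932736) (nat_lit 38567936)) (I.pos (nat_lit 74825728) (nat_lit 125861888)) (I.mix (nat_lit 50511872) (nat_lit 38797312)) (I.mix (nat_lit 49119232) (nat_lit 29933568)) (I.mix (nat_lit 31916032) (nat_lit 20152320)))
  false (nat_lit 0)
def b5_10 : Bx := Bx.mk (St.mk (I.pos (nat_lit 80379904) (nat_lit 136839168)) (I.mix (nat_lit 67829760) (nat_lit 11649024)) (I.mix (nat_lit 30539776) (nat_lit 21037056)) (I.pos (nat_lit 113426432) (nat_lit 158384128)) (I.mix (nat_lit 64225280) (nat_lit 39501824)) (I.mix (nat_lit 37486592) (nat_lit 66748416)) (I.mix (nat_lit 25214976) (nat_lit 42303488)))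
  false (nat_lit 0)
def b5_11 : Bx := Bx.mk (St.mk (I.mix (nat_lit 49659904) (nat_lit 41779200)) (I.mix (nat_lit 35323904) (nat_lit 7356416)) (I.pos (nat_lit 4227072) (nat_lit 22740992)) (I.pos (nat_lit 79806464) (nat_lit 102072320)) (I.mix (nat_lit 30687232) (nat_lit 34078720)) (I.mix (nat_lit 22364160) (nat_lit 36847616)) (I.mix (nat_lit 14614528) (nat_lit 10158080)))
  false (nat_lit 0)
def b5_12 : Bx := Bx.mk (St.mk (I.pos (nat_lit 178831360) (nat_lit 285540352)) (I.mix (nat_lit 19857408) (nat_lit 45891584)) (I.mix (nat_lit 1228800) (nat_lit 114704384)) (I.pos (nat_lit 220594176) (nat_lit 387547136)) (I.mix (nat_lit 95322112) (nat_lit 68468736)) (I.mix (nat_lit 70811648) (nat_lit 50249728)) (I.mix (nat_lit 114704384) (nat_lit 82575360)))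
  false (nat_lit 60015080)
def b5_13 : Bx := Bx.mk (St.mk (I.pos (nat_lit 169787392) (nat_lit 225558528)) (I.pos (nat_lit 6586368) (nat_lit 56180736)) (I.pos (nat_lit 44384256) (nat_lit 126058496)) (I.pos (nat_lit 213270528) (nat_lit 263979008)) (I.mix (nat_lit 110444544) (nat_lit 85295104)) (I.mix (nat_lit 110362624) (nat_lit 76759040)) (I.mix (nat_lit 158220288) (nat_lit 91881472)))
  false (nat_lit 62170085)
def t5 : BTr := (BTr.n (BTr.n (BTr.n (BTr.b b5_0) (BTr.n (BTr.b b5_1) (BTr.b b5_2))) (BTr.n (BTr.n (BTr.b b5_3) (BTr.b b5_4)) (BTr.n (BTr.b b5_5) (BTr.b b5_6)))) (BTr.n (BTr.n (BTr.b b5_7) (BTr.n (BTr.b b5_8) (BTr.b b5_9))) (BTr.n (BTr.n (BTr.b b5_10) (BTr.b b5_11)) (BTr.n (BTr.b b5_12) (BTr.b b5_13)))))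
namespace T5
def l0 : Tr := Tr.L (Pth.l (Pth.l (Pth.l Pth.z)))
def l1 : Tr := Tr.L (Pth.l (Pth.l (Pth.r (Pth.l Pth.z))))
def l2 : Tr := Tr.L (Pth.l (Pth.l (Pth.r (Pth.r Pth.z))))
def l3 : Tr := Tr.L (Pth.l (Pth.r (Pth.l (Pth.l Pth.z))))
def l4 : Tr := Tr.L (Pth.l (Pth.r (Pth.l (Pth.r Pth.z))))
def l5 : Tr := Tr.L (Pth.l (Pth.r (Pth.r (Pth.l Pth.z))))
def l6 : Tr := Tr.L (Pth.l (Pth.r (Pth.r (Pth.r Pth.z))))
def l7 : Tr := Tr.L (Pth.r (Pth.l (Pth.l Pth.z)))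
def l8 : Tr := Tr.L (Pth.r (Pth.l (Pth.r (Pth.l Pth.z))))
def l9 : Tr := Tr.L (Pth.r (Pth.l (Pth.r (Pth.r Pth.z))))
def l10 : Tr := Tr.L (Pth.r (Pth.r (Pth.l (Pth.l Pth.z))))
def l11 : Tr := Tr.L (Pth.r (Pth.r (Pth.l (Pth.r Pth.z))))
def l12 : Tr := Tr.L (Pth.r (Pth.r (Pth.r (Pth.l Pth.z))))
def l13 : Tr := Tr.L (Pth.r (Pth.r (Pth.r (Pth.r Pth.z))))
end T5
theorem bx0_0 : BoxOK sI cl4 cl6 cl13 t2 t4 b0_0 :=
  box_mk (TrL.c (I.pos (nat_lit 0) (nat_lit 0)) (xa (xb T2.l0 T2.l0) T2.l0)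
  (TrL.c (I.pos (nat_lit 0) (nat_lit 0)) T4.l1
  (TrL.c (I.pos (nat_lit 0) (nat_lit 0)) T2.l1
  (TrL.c (I.pos (nat_lit 0) (nat_lit 0)) T4.l2
  (TrL.c (I.pos (nat_lit 0) (nat_lit 0)) T2.l2
  (TrL.c (I.pos (nat_lit 0) (nat_lit 0)) T4.l3
  TrL.n)))))) (by decide +kernel)
theorem bx0_1 : BoxOK sI cl4 cl6 cl13 t2 t4 b0_1 :=
  box_mk (TrL.c (I.pos (nat_lit 0) (nat_lit 0)) (xa (xa (xb T2.l6 (xa T2.l6 T2.l6)) (xb T2.l6 T2.l6)) (xa T2.l6 T2.l6))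
  (TrL.c (I.pos (nat_lit 0) (nat_lit 0)) T4.l1
  (TrL.c (I.pos (nat_lit 0) (nat_lit 0)) T2.l1
  (TrL.c (I.pos (nat_lit 0) (nat_lit 0)) T4.l2
  (TrL.c (I.pos (nat_lit 0) (nat_lit 0)) T2.l7
  (TrL.c (I.pos (nat_lit 0) (nat_lit 0)) T4.l3
  TrL.n)))))) (by decide +kernel)
theorem bx0_2 : BoxOK sI cl4 cl6 cl13 t2 t4 b0_2 :=
  box_mk (TrL.c (I.pos (nat_lit 0) (nat_lit 0)) (xb T2.l6 (xa T2.l6 T2.l6))
  (TrL.c (I.pos (nat_lit 0) (nat_lit 0)) T4.l1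
  (TrL.c (I.pos (nat_lit 0) (nat_lit 0)) T2.l1
  (TrL.c (I.pos (nat_lit 0) (nat_lit 0)) T4.l2
  (TrL.c (I.pos (nat_lit 0) (nat_lit 0)) T2.l7
  (TrL.c (I.pos (nat_lit 0) (nat_lit 0)) T4.l3
  TrL.n)))))) (by decide +kernel)
theorem bx0_3 : BoxOK sI cl4 cl6 cl13 t2 t4 b0_3 :=
  box_mk (TrL.c (I.pos (nat_lit 0) (nat_lit 0)) (xa (xb (xa T2.l6 T2.l6) T2.l6) T2.l6)
  (TrL.c (I.pos (nat_lit 0) (nat_lit 0)) T4.l1
  (TrL.c (I.pos (nat_lit 0) (nat_lit 0)) T2.l1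
  (TrL.c (I.pos (nat_lit 0) (nat_lit 0)) T4.l2
  (TrL.c (I.pos (nat_lit 0) (nat_lit 0)) T2.l7
  (TrL.c (I.pos (nat_lit 0) (nat_lit 0)) T4.l3
  TrL.n)))))) (by decide +kernel)
theorem bx0_4 : BoxOK sI cl4 cl6 cl13 t2 t4 b0_4 :=
  box_mk (TrL.c (I.pos (nat_lit 0) (nat_lit 0)) T2.l6
  (TrL.c (I.pos (nat_lit 0) (nat_lit 0)) T4.l1
  (TrL.c (I.pos (nat_lit 0) (nat_lit 0)) T2.l1
  (TrL.c (I.pos (nat_lit 0) (nat_lit 0)) T4.l2
  (TrL.c (I.pos (nat_lit 0) (nat_lit 0)) T2.l7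
  (TrL.c (I.pos (nat_lit 0) (nat_lit 0)) T4.l3
  TrL.n)))))) (by decide +kernel)
theorem bx0_5 : BoxOK sI cl4 cl6 cl13 t2 t4 b0_5 :=
  box_mk (TrL.c (I.pos (nat_lit 0) (nat_lit 0)) (xa (xa T2.l6 T2.l6) T2.l6)
  (TrL.c (I.pos (nat_lit 0) (nat_lit 0)) T4.l1
  (TrL.c (I.pos (nat_lit 0) (nat_lit 0)) T2.l1
  (TrL.c (I.pos (nat_lit 0) (nat_lit 0)) T4.l2
  (TrL.c (I.pos (nat_lit 0) (nat_lit 0)) T2.l7
  (TrL.c (I.pos (nat_lit 0) (nat_lit 0)) T4.l3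
  TrL.n)))))) (by decide +kernel)
theorem bx0_6 : BoxOK sI cl4 cl6 cl13 t2 t4 b0_6 :=
  box_mk (TrL.c (I.pos (nat_lit 0) (nat_lit 0)) T2.l0
  (TrL.c (I.pos (nat_lit 0) (nat_lit 0)) T4.l1
  (TrL.c (I.pos (nat_lit 0) (nat_lit 0)) T2.l1
  (TrL.c (I.pos (nat_lit 0) (nat_lit 0)) T4.l2
  (TrL.c (I.pos (nat_lit 0) (nat_lit 0)) T2.l2
  (TrL.c (I.pos (nat_lit 0) (nat_lit 0)) T4.l3
  TrL.n)))))) (by decide +kernel)
theorem bx0_7 : BoxOK sI cl4 cl6 cl13 t2 t4 b0_7 :=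
  box_mk (TrL.c (I.pos (nat_lit 0) (nat_lit 0)) (xb (xa T2.l0 T2.l0) (xa (xb T2.l0 T2.l0) T2.l0))
  (TrL.c (I.pos (nat_lit 0) (nat_lit 0)) T4.l1
  (TrL.c (I.pos (nat_lit 0) (nat_lit 0)) T2.l5
  (TrL.c (I.pos (nat_lit 0) (nat_lit 0)) (xb (xa T4.l2 (xb (xa T4.l2 T4.l2) T4.l2)) (xa T4.l2 (xb T4.l2 (xa T4.l2 T4.l2))))
  (TrL.c (I.pos (nat_lit 0) (nat_lit 0)) T2.l3
  (TrL.c (I.pos (nat_lit 0) (nat_lit 0)) T4.l3
  TrL.n)))))) (by decide +kernel)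
theorem bx0_8 : BoxOK sI cl4 cl6 cl13 t2 t4 b0_8 :=
  box_mk (TrL.c (I.pos (nat_lit 0) (nat_lit 0)) (xa (xb (xa T2.l6 T2.l6) (xa T2.l6 T2.l6)) (xb T2.l6 T2.l6))
  (TrL.c (I.pos (nat_lit 0) (nat_lit 0)) T4.l1
  (TrL.c (I.pos (nat_lit 0) (nat_lit 0)) T2.l1
  (TrL.c (I.pos (nat_lit 0) (nat_lit 0)) T4.l2
  (TrL.c (I.pos (nat_lit 0) (nat_lit 0)) T2.l7
  (TrL.c (I.pos (nat_lit 0) (nat_lit 0)) T4.l3
  TrL.n)))))) (by decide +kernel)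
theorem bx0_9 : BoxOK sI cl4 cl6 cl13 t2 t4 b0_9 :=
  box_mk (TrL.c (I.pos (nat_lit 0) (nat_lit 0)) (xa (xb (xa (xb T2.l6 T2.l6) T2.l6) T2.l6) T2.l6)
  (TrL.c (I.pos (nat_lit 0) (nat_lit 0)) T4.l1
  (TrL.c (I.pos (nat_lit 0) (nat_lit 0)) T2.l1
  (TrL.c (I.pos (nat_lit 0) (nat_lit 0)) T4.l2
  (TrL.c (I.pos (nat_lit 0) (nat_lit 0)) T2.l7
  (TrL.c (I.pos (nat_lit 0) (nat_lit 0)) T4.l3
  TrL.n)))))) (by decide +kernel)
theorem bx0_10 : BoxOK sI cl4 cl6 cl13 t2 t4 b0_10 :=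
  box_mk (TrL.c (I.pos (nat_lit 0) (nat_lit 0)) (xa (xb T2.l8 T2.l8) (xb T2.l8 T2.l8))
  (TrL.c (I.pos (nat_lit 0) (nat_lit 0)) T4.l1
  (TrL.c (I.pos (nat_lit 0) (nat_lit 0)) T2.l5
  (TrL.c (I.pos (nat_lit 0) (nat_lit 0)) T4.l2
  (TrL.c (I.pos (nat_lit 0) (nat_lit 0)) T2.l3
  (TrL.c (I.pos (nat_lit 0) (nat_lit 0)) T4.l3
  TrL.n)))))) (by decide +kernel)
theorem bx0_11 : BoxOK sI cl4 cl6 cl13 t2 t4 b0_11 :=
  box_mk (TrL.c (I.pos (nat_lit 0) (nat_lit 0)) (xa (xa (xb T2.l6 T2.l6) T2.l6) T2.l6)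
  (TrL.c (I.pos (nat_lit 0) (nat_lit 0)) T4.l1
  (TrL.c (I.pos (nat_lit 0) (nat_lit 0)) T2.l1
  (TrL.c (I.pos (nat_lit 0) (nat_lit 0)) T4.l2
  (TrL.c (I.pos (nat_lit 0) (nat_lit 0)) T2.l7
  (TrL.c (I.pos (nat_lit 0) (nat_lit 0)) T4.l3
  TrL.n)))))) (by decide +kernel)
theorem bx0_12 : BoxOK sI cl4 cl6 cl13 t2 t4 b0_12 :=
  box_mk (TrL.c (I.pos (nat_lit 0) (nat_lit 0)) (xa T2.l8 T2.l8)
  (TrL.c (I.pos (nat_lit 0) (nat_lit 0)) T4.l1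
  (TrL.c (I.pos (nat_lit 0) (nat_lit 0)) T2.l1
  (TrL.c (I.pos (nat_lit 0) (nat_lit 0)) T4.l2
  (TrL.c (I.pos (nat_lit 0) (nat_lit 0)) T2.l3
  (TrL.c (I.pos (nat_lit 0) (nat_lit 0)) T4.l3
  TrL.n)))))) (by decide +kernel)
theorem bx0_13 : BoxOK sI cl4 cl6 cl13 t2 t4 b0_13 :=
  box_mk (TrL.c (I.pos (nat_lit 0) (nat_lit 0)) (xb T2.l8 T2.l8)
  (TrL.c (I.pos (nat_lit 0) (nat_lit 0)) T4.l1
  (TrL.c (I.pos (nat_lit 0) (nat_lit 0)) T2.l1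
  (TrL.c (I.pos (nat_lit 0) (nat_lit 0)) T4.l2
  (TrL.c (I.pos (nat_lit 0) (nat_lit 0)) T2.l2
  (TrL.c (I.pos (nat_lit 0) (nat_lit 0)) T4.l3
  TrL.n)))))) (by decide +kernel)
theorem sv0 : StarV sI cl4 cl6 cl13 t2 t4 t0 :=
  (bt_n (bt_n (bt_n (bt_b bx0_0) (bt_n (bt_b bx0_1) (bt_b bx0_2))) (bt_n (bt_n (bt_b bx0_3) (bt_b bx0_4)) (bt_n (bt_b bx0_5) (bt_b bx0_6)))) (bt_n (bt_n (bt_b bx0_7) (bt_n (bt_b bx0_8) (bt_b bx0_9))) (bt_n (bt_n (bt_b bx0_10) (bt_b bx0_11)) (bt_n (bt_b bx0_12) (bt_b bx0_13)))))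
def S0 : StarD := StarD.mk cl4 cl6 cl13 2 4 t0
theorem bx1_0 : BoxOK sI cl4 cl13 cl6 t4 t2 b1_0 :=
  box_mk (TrL.c (I.pos (nat_lit 0) (nat_lit 0)) (xa (xb (xa T4.l0 T4.l0) (xa T4.l0 T4.l0)) (xb T4.l0 (xa T4.l0 T4.l0)))
  (TrL.c (I.pos (nat_lit 0) (nat_lit 0)) (xa T2.l3 T2.l3)
  (TrL.c (I.pos (nat_lit 0) (nat_lit 0)) T4.l4
  (TrL.c (I.pos (nat_lit 0) (nat_lit 0)) (xa T2.l4 (xb T2.l4 T2.l4))
  (TrL.c (I.pos (nat_lit 0) (nat_lit 0)) T4.l5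
  (TrL.c (I.pos (nat_lit 0) (nat_lit 0)) (xa T2.l5 T2.l5)
  TrL.n)))))) (by decide +kernel)
theorem bx1_1 : BoxOK sI cl4 cl13 cl6 t4 t2 b1_1 :=
  box_mk (TrL.c (I.pos (nat_lit 0) (nat_lit 0)) (xa T4.l6 (xa T4.l6 T4.l6))
  (TrL.c (I.pos (nat_lit 0) (nat_lit 0)) T2.l3
  (TrL.c (I.pos (nat_lit 0) (nat_lit 0)) T4.l4
  (TrL.c (I.pos (nat_lit 0) (nat_lit 0)) T2.l4
  (TrL.c (I.pos (nat_lit 0) (nat_lit 0)) T4.l7
  (TrL.c (I.pos (nat_lit 0) (nat_lit 0)) T2.l5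
  TrL.n)))))) (by decide +kernel)
theorem bx1_2 : BoxOK sI cl4 cl13 cl6 t4 t2 b1_2 :=
  box_mk (TrL.c (I.pos (nat_lit 0) (nat_lit 0)) (xb T4.l6 (xa T4.l6 T4.l6))
  (TrL.c (I.pos (nat_lit 0) (nat_lit 0)) T2.l3
  (TrL.c (I.pos (nat_lit 0) (nat_lit 0)) T4.l4
  (TrL.c (I.pos (nat_lit 0) (nat_lit 0)) T2.l4
  (TrL.c (I.pos (nat_lit 0) (nat_lit 0)) T4.l7
  (TrL.c (I.pos (nat_lit 0) (nat_lit 0)) T2.l5
  TrL.n)))))) (by decide +kernel)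
theorem bx1_3 : BoxOK sI cl4 cl13 cl6 t4 t2 b1_3 :=
  box_mk (TrL.c (I.pos (nat_lit 0) (nat_lit 0)) T4.l6
  (TrL.c (I.pos (nat_lit 0) (nat_lit 0)) T2.l3
  (TrL.c (I.pos (nat_lit 0) (nat_lit 0)) T4.l4
  (TrL.c (I.pos (nat_lit 0) (nat_lit 0)) T2.l4
  (TrL.c (I.pos (nat_lit 0) (nat_lit 0)) T4.l7
  (TrL.c (I.pos (nat_lit 0) (nat_lit 0)) T2.l5
  TrL.n)))))) (by decide +kernel)
theorem bx1_4 : BoxOK sI cl4 cl13 cl6 t4 t2 b1_4 :=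
  box_mk (TrL.c (I.pos (nat_lit 0) (nat_lit 0)) (xa (xb T4.l0 (xa T4.l0 T4.l0)) (xb T4.l0 (xa T4.l0 T4.l0)))
  (TrL.c (I.pos (nat_lit 0) (nat_lit 0)) (xa T2.l3 T2.l3)
  (TrL.c (I.pos (nat_lit 0) (nat_lit 0)) T4.l3
  (TrL.c (I.pos (nat_lit 0) (nat_lit 0)) (xb (xa T2.l4 (xb T2.l4 T2.l4)) (xa T2.l4 (xa T2.l4 (xb T2.l4 T2.l4))))
  (TrL.c (I.pos (nat_lit 0) (nat_lit 0)) T4.l1
  (TrL.c (I.pos (nat_lit 0) (nat_lit 0)) (xa T2.l5 T2.l5)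
  TrL.n)))))) (by decide +kernel)
theorem bx1_5 : BoxOK sI cl4 cl13 cl6 t4 t2 b1_5 :=
  box_mk (TrL.c (I.pos (nat_lit 0) (nat_lit 0)) T4.l6
  (TrL.c (I.pos (nat_lit 0) (nat_lit 0)) T2.l3
  (TrL.c (I.pos (nat_lit 0) (nat_lit 0)) T4.l4
  (TrL.c (I.pos (nat_lit 0) (nat_lit 0)) T2.l4
  (TrL.c (I.pos (nat_lit 0) (nat_lit 0)) T4.l7
  (TrL.c (I.pos (nat_lit 0) (nat_lit 0)) T2.l5
  TrL.n)))))) (by decide +kernel)
theorem bx1_6 : BoxOK sI cl4 cl13 cl6 t4 t2 b1_6 :=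
  box_mk (TrL.c (I.pos (nat_lit 0) (nat_lit 0)) T4.l6
  (TrL.c (I.pos (nat_lit 0) (nat_lit 0)) T2.l3
  (TrL.c (I.pos (nat_lit 0) (nat_lit 0)) T4.l4
  (TrL.c (I.pos (nat_lit 0) (nat_lit 0)) T2.l4
  (TrL.c (I.pos (nat_lit 0) (nat_lit 0)) T4.l7
  (TrL.c (I.pos (nat_lit 0) (nat_lit 0)) T2.l5
  TrL.n)))))) (by decide +kernel)
theorem bx1_7 : BoxOK sI cl4 cl13 cl6 t4 t2 b1_7 :=
  box_mk (TrL.c (I.pos (nat_lit 0) (nat_lit 0)) T4.l0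
  (TrL.c (I.pos (nat_lit 0) (nat_lit 0)) T2.l3
  (TrL.c (I.pos (nat_lit 0) (nat_lit 0)) T4.l4
  (TrL.c (I.pos (nat_lit 0) (nat_lit 0)) T2.l0
  (TrL.c (I.pos (nat_lit 0) (nat_lit 0)) T4.l1
  (TrL.c (I.pos (nat_lit 0) (nat_lit 0)) T2.l5
  TrL.n)))))) (by decide +kernel)
theorem bx1_8 : BoxOK sI cl4 cl13 cl6 t4 t2 b1_8 :=
  box_mk (TrL.c (I.pos (nat_lit 0) (nat_lit 0)) (xa (xb T4.l6 T4.l6) T4.l0)
  (TrL.c (I.pos (nat_lit 0) (nat_lit 0)) T2.l3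
  (TrL.c (I.pos (nat_lit 0) (nat_lit 0)) T4.l4
  (TrL.c (I.pos (nat_lit 0) (nat_lit 0)) T2.l4
  (TrL.c (I.pos (nat_lit 0) (nat_lit 0)) T4.l7
  (TrL.c (I.pos (nat_lit 0) (nat_lit 0)) T2.l5
  TrL.n)))))) (by decide +kernel)
theorem bx1_9 : BoxOK sI cl4 cl13 cl6 t4 t2 b1_9 :=
  box_mk (TrL.c (I.pos (nat_lit 0) (nat_lit 0)) (xa (xa (xb (xa T4.l6 T4.l6) T4.l6) T4.l6) T4.l6)
  (TrL.c (I.pos (nat_lit 0) (nat_lit 0)) T2.l3
  (TrL.c (I.pos (nat_lit 0) (nat_lit 0)) T4.l4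
  (TrL.c (I.pos (nat_lit 0) (nat_lit 0)) T2.l4
  (TrL.c (I.pos (nat_lit 0) (nat_lit 0)) T4.l7
  (TrL.c (I.pos (nat_lit 0) (nat_lit 0)) T2.l5
  TrL.n)))))) (by decide +kernel)
theorem bx1_10 : BoxOK sI cl4 cl13 cl6 t4 t2 b1_10 :=
  box_mk (TrL.c (I.pos (nat_lit 0) (nat_lit 0)) (xb (xa T4.l8 T4.l8) (xa T4.l8 T4.l8))
  (TrL.c (I.pos (nat_lit 0) (nat_lit 0)) T2.l3
  (TrL.c (I.pos (nat_lit 0) (nat_lit 0)) T4.l4
  (TrL.c (I.pos (nat_lit 0) (nat_lit 0)) (xb T2.l4 T2.l4)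
  (TrL.c (I.pos (nat_lit 0) (nat_lit 0)) T4.l9
  (TrL.c (I.pos (nat_lit 0) (nat_lit 0)) T2.l5
  TrL.n)))))) (by decide +kernel)
theorem bx1_11 : BoxOK sI cl4 cl13 cl6 t4 t2 b1_11 :=
  box_mk (TrL.c (I.pos (nat_lit 0) (nat_lit 0)) (xa (xa (xb T4.l6 (xa T4.l6 T4.l6)) (xb T4.l6 T4.l6)) (xa T4.l6 T4.l6))
  (TrL.c (I.pos (nat_lit 0) (nat_lit 0)) (xa T2.l3 T2.l3)
  (TrL.c (I.pos (nat_lit 0) (nat_lit 0)) T4.l4
  (TrL.c (I.pos (nat_lit 0) (nat_lit 0)) (xa T2.l4 T2.l4)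
  (TrL.c (I.pos (nat_lit 0) (nat_lit 0)) T4.l7
  (TrL.c (I.pos (nat_lit 0) (nat_lit 0)) (xa T2.l5 T2.l5)
  TrL.n)))))) (by decide +kernel)
theorem bx1_12 : BoxOK sI cl4 cl13 cl6 t4 t2 b1_12 :=
  box_mk (TrL.c (I.pos (nat_lit 0) (nat_lit 0)) T4.l0
  (TrL.c (I.pos (nat_lit 0) (nat_lit 0)) T2.l3
  (TrL.c (I.pos (nat_lit 0) (nat_lit 0)) T4.l4
  (TrL.c (I.pos (nat_lit 0) (nat_lit 0)) T2.l4
  (TrL.c (I.pos (nat_lit 0) (nat_lit 0)) T4.l9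
  (TrL.c (I.pos (nat_lit 0) (nat_lit 0)) T2.l5
  TrL.n)))))) (by decide +kernel)
theorem bx1_13 : BoxOK sI cl4 cl13 cl6 t4 t2 b1_13 :=
  box_mk (TrL.c (I.pos (nat_lit 0) (nat_lit 0)) (xb T4.l8 T4.l8)
  (TrL.c (I.pos (nat_lit 0) (nat_lit 0)) T2.l3
  (TrL.c (I.pos (nat_lit 0) (nat_lit 0)) T4.l4
  (TrL.c (I.pos (nat_lit 0) (nat_lit 0)) T2.l4
  (TrL.c (I.pos (nat_lit 0) (nat_lit 0)) T4.l1
  (TrL.c (I.pos (nat_lit 0) (nat_lit 0)) T2.l5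
  TrL.n)))))) (by decide +kernel)
theorem sv1 : StarV sI cl4 cl13 cl6 t4 t2 t1 :=
  (bt_n (bt_n (bt_n (bt_b bx1_0) (bt_n (bt_b bx1_1) (bt_b bx1_2))) (bt_n (bt_n (bt_b bx1_3) (bt_b bx1_4)) (bt_n (bt_b bx1_5) (bt_b bx1_6)))) (bt_n (bt_n (bt_b bx1_7) (bt_n (bt_b bx1_8) (bt_b bx1_9))) (bt_n (bt_n (bt_b bx1_10) (bt_b bx1_11)) (bt_n (bt_b bx1_12) (bt_b bx1_13)))))
def S1 : StarD := StarD.mk cl4 cl13 cl6 4 2 t1
theorem bx2_0 : BoxOK sI cl6 cl4 cl13 t0 t5 b2_0 :=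
  box_mk (TrL.c (I.pos (nat_lit 0) (nat_lit 0)) (xb (xa T0.l7 T0.l0) (xa T0.l7 T0.l0))
  (TrL.c (I.pos (nat_lit 0) (nat_lit 0)) T5.l1
  (TrL.c (I.pos (nat_lit 0) (nat_lit 89480386)) (xR T0.l1 T0.l1)
  (TrL.c (I.pos (nat_lit 0) (nat_lit 41530880)) T5.l2
  (TrL.c (I.pos (nat_lit 0) (nat_lit 0)) (xb T5.l3 T5.l3)
  (TrL.c (I.pos (nat_lit 0) (nat_lit 0)) T0.l2
  (TrL.c (I.mix (nat_lit 41527258) (nat_lit 41530880)) (xR T5.l4 T5.l9)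
  (TrL.c (I.mix (nat_lit 41527258) (nat_lit 4274)) T0.l3
  TrL.n)))))))) (by decide +kernel)
theorem bx2_1 : BoxOK sI cl6 cl4 cl13 t0 t5 b2_1 :=
  box_mk (TrL.c (I.pos (nat_lit 0) (nat_lit 0)) T5.l5
  (TrL.c (I.pos (nat_lit 0) (nat_lit 0)) T0.l4
  (TrL.c (I.mix (nat_lit 41527258) (nat_lit 41530880)) T5.l6
  (TrL.c (I.mix (nat_lit 41527258) (nat_lit 4274)) T0.l5
  TrL.n)))) (by decide +kernel)
theorem bx2_2 : BoxOK sI cl6 cl4 cl13 t0 t5 b2_2 :=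
  box_mk (TrL.c (I.pos (nat_lit 0) (nat_lit 0)) T0.l7
  (TrL.c (I.pos (nat_lit 0) (nat_lit 0)) T5.l1
  (TrL.c (I.pos (nat_lit 0) (nat_lit 89480386)) T0.l1
  (TrL.c (I.pos (nat_lit 0) (nat_lit 41530880)) T5.l2
  (TrL.c (I.pos (nat_lit 0) (nat_lit 0)) T5.l8
  (TrL.c (I.pos (nat_lit 0) (nat_lit 0)) T0.l2
  (TrL.c (I.mix (nat_lit 41527258) (nat_lit 41530880)) T5.l4
  (TrL.c (I.mix (nat_lit 41527258) (nat_lit 4274)) T0.l3
  TrL.n)))))))) (by decide +kernel)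
theorem bx2_3 : BoxOK sI cl6 cl4 cl13 t0 t5 b2_3 :=
  box_mk (TrL.c (I.pos (nat_lit 0) (nat_lit 0)) (xa (xb (xa (xb T0.l7 T0.l7) T0.l7) (xa T0.l7 T0.l7)) T0.l7)
  (TrL.c (I.pos (nat_lit 0) (nat_lit 0)) T5.l1
  (TrL.c (I.pos (nat_lit 0) (nat_lit 89480386)) (xR T0.l1 T0.l1)
  (TrL.c (I.pos (nat_lit 0) (nat_lit 41530880)) T5.l2
  (TrL.c (I.pos (nat_lit 0) (nat_lit 0)) T5.l8
  (TrL.c (I.pos (nat_lit 0) (nat_lit 0)) T0.l2
  (TrL.c (I.mix (nat_lit 41527258) (nat_lit 41530880)) (xR T5.l4 T5.l4)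
  (TrL.c (I.mix (nat_lit 41527258) (nat_lit 4274)) T0.l3
  TrL.n)))))))) (by decide +kernel)
theorem bx2_4 : BoxOK sI cl6 cl4 cl13 t0 t5 b2_4 :=
  box_mk (TrL.c (I.pos (nat_lit 0) (nat_lit 0)) (xb (xa (xb T0.l7 T0.l7) T0.l7) (xa (xb T0.l7 T0.l7) T0.l7))
  (TrL.c (I.pos (nat_lit 0) (nat_lit 0)) T5.l1
  (TrL.c (I.pos (nat_lit 0) (nat_lit 89480386)) (xR T0.l1 T0.l1)
  (TrL.c (I.pos (nat_lit 0) (nat_lit 41530880)) T5.l2
  (TrL.c (I.pos (nat_lit 0) (nat_lit 0)) (xb (xa T5.l8 T5.l8) (xa T5.l8 T5.l3))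
  (TrL.c (I.pos (nat_lit 0) (nat_lit 0)) T0.l2
  (TrL.c (I.mix (nat_lit 41527258) (nat_lit 41530880)) (xR T5.l4 T5.l9)
  (TrL.c (I.mix (nat_lit 41527258) (nat_lit 4274)) T0.l3
  TrL.n)))))))) (by decide +kernel)
theorem bx2_5 : BoxOK sI cl6 cl4 cl13 t0 t5 b2_5 :=
  box_mk (TrL.c (I.pos (nat_lit 0) (nat_lit 0)) T5.l1
  (TrL.c (I.pos (nat_lit 0) (nat_lit 0)) T0.l1
  (TrL.c (I.mix (nat_lit 41527258) (nat_lit 41530880)) (xR T5.l6 T5.l2)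
  (TrL.c (I.mix (nat_lit 41527258) (nat_lit 4274)) T0.l5
  TrL.n)))) (by decide +kernel)
theorem bx2_6 : BoxOK sI cl6 cl4 cl13 t0 t5 b2_6 :=
  box_mk (TrL.c (I.pos (nat_lit 0) (nat_lit 0)) (xa (xb T0.l0 T0.l0) T0.l10)
  (TrL.c (I.pos (nat_lit 0) (nat_lit 0)) T5.l1
  (TrL.c (I.pos (nat_lit 0) (nat_lit 89480386)) (xR T0.l1 T0.l1)
  (TrL.c (I.pos (nat_lit 0) (nat_lit 41530880)) T5.l2
  (TrL.c (I.pos (nat_lit 0) (nat_lit 0)) (xb (xa T5.l3 (xa T5.l3 T5.l3)) (xa T5.l3 (xa T5.l3 T5.l3)))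
  (TrL.c (I.pos (nat_lit 0) (nat_lit 0)) T0.l8
  (TrL.c (I.mix (nat_lit 41527258) (nat_lit 41530880)) (xR T5.l4 T5.l4)
  (TrL.c (I.mix (nat_lit 41527258) (nat_lit 4274)) T0.l3
  TrL.n)))))))) (by decide +kernel)
theorem bx2_7 : BoxOK sI cl6 cl4 cl13 t0 t5 b2_7 :=
  box_mk (TrL.c (I.pos (nat_lit 0) (nat_lit 0)) (xb (xa T0.l6 T0.l6) (xa T0.l6 T0.l6))
  (TrL.c (I.pos (nat_lit 0) (nat_lit 0)) T5.l1
  (TrL.c (I.pos (nat_lit 0) (nat_lit 89480386)) T0.l1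
  (TrL.c (I.pos (nat_lit 0) (nat_lit 41530880)) T5.l2
  (TrL.c (I.pos (nat_lit 0) (nat_lit 0)) T5.l7
  (TrL.c (I.pos (nat_lit 0) (nat_lit 0)) T0.l2
  (TrL.c (I.mix (nat_lit 41527258) (nat_lit 41530880)) T5.l4
  (TrL.c (I.mix (nat_lit 41527258) (nat_lit 4274)) T0.l3
  TrL.n)))))))) (by decide +kernel)
theorem bx2_8 : BoxOK sI cl6 cl4 cl13 t0 t5 b2_8 :=
  box_mk (TrL.c (I.pos (nat_lit 0) (nat_lit 0)) (xb T0.l0 T0.l0)
  (TrL.c (I.pos (nat_lit 0) (nat_lit 0)) T5.l1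
  (TrL.c (I.pos (nat_lit 0) (nat_lit 89480386)) (xR T0.l1 T0.l1)
  (TrL.c (I.pos (nat_lit 0) (nat_lit 41530880)) T5.l2
  (TrL.c (I.pos (nat_lit 0) (nat_lit 0)) T5.l3
  (TrL.c (I.pos (nat_lit 0) (nat_lit 0)) T0.l2
  (TrL.c (I.mix (nat_lit 41527258) (nat_lit 41530880)) T5.l9
  (TrL.c (I.mix (nat_lit 41527258) (nat_lit 4274)) T0.l3
  TrL.n)))))))) (by decide +kernel)
theorem bx2_9 : BoxOK sI cl6 cl4 cl13 t0 t5 b2_9 :=
  box_mk (TrL.c (I.pos (nat_lit 0) (nat_lit 0)) T0.l6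
  (TrL.c (I.pos (nat_lit 0) (nat_lit 0)) T5.l1
  (TrL.c (I.pos (nat_lit 0) (nat_lit 89480386)) T0.l1
  (TrL.c (I.pos (nat_lit 0) (nat_lit 41530880)) T5.l2
  (TrL.c (I.pos (nat_lit 0) (nat_lit 0)) T5.l7
  (TrL.c (I.pos (nat_lit 0) (nat_lit 0)) T0.l2
  (TrL.c (I.mix (nat_lit 41527258) (nat_lit 41530880)) T5.l4
  (TrL.c (I.mix (nat_lit 41527258) (nat_lit 4274)) T0.l3
  TrL.n)))))))) (by decide +kernel)
theorem sv2 : StarV sI cl6 cl4 cl13 t0 t5 t2 :=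
  (bt_n (bt_n (bt_n (bt_b bx2_0) (bt_b bx2_1)) (bt_n (bt_b bx2_2) (bt_n (bt_b bx2_3) (bt_b bx2_4)))) (bt_n (bt_n (bt_b bx2_5) (bt_b bx2_6)) (bt_n (bt_b bx2_7) (bt_n (bt_b bx2_8) (bt_b bx2_9)))))
def S2 : StarD := StarD.mk cl6 cl4 cl13 0 5 t2
theorem bx3_0 : BoxOK sI cl6 cl13 cl4 t5 t0 b3_0 :=
  box_mk (TrL.c (I.pos (nat_lit 0) (nat_lit 0)) (xa (xa (xb T5.l0 T5.l0) T5.l13) (xa (xb T5.l0 T5.l0) T5.l0))
  (TrL.c (I.pos (nat_lit 0) (nat_lit 0)) T0.l8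
  (TrL.c (I.pos (nat_lit 0) (nat_lit 89480386)) (xR T5.l9 T5.l9)
  (TrL.c (I.pos (nat_lit 0) (nat_lit 41530880)) T0.l9
  (TrL.c (I.pos (nat_lit 0) (nat_lit 0)) (xa T0.l10 T0.l10)
  (TrL.c (I.pos (nat_lit 0) (nat_lit 0)) T5.l10
  (TrL.c (I.mix (nat_lit 41527258) (nat_lit 41530880)) (xR T0.l11 T0.l1)
  (TrL.c (I.mix (nat_lit 41527258) (nat_lit 4274)) T5.l11
  TrL.n)))))))) (by decide +kernel)
theorem bx3_1 : BoxOK sI cl6 cl13 cl4 t5 t0 b3_1 :=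
  box_mk (TrL.c (I.pos (nat_lit 0) (nat_lit 0)) (xa (xb T5.l12 T5.l12) T5.l0)
  (TrL.c (I.pos (nat_lit 0) (nat_lit 0)) T0.l8
  (TrL.c (I.pos (nat_lit 0) (nat_lit 89480386)) T5.l9
  (TrL.c (I.pos (nat_lit 0) (nat_lit 41530880)) T0.l9
  (TrL.c (I.pos (nat_lit 0) (nat_lit 0)) T0.l12
  (TrL.c (I.pos (nat_lit 0) (nat_lit 0)) T5.l10
  (TrL.c (I.mix (nat_lit 41527258) (nat_lit 41530880)) (xR T0.l11 T0.l1)
  (TrL.c (I.mix (nat_lit 41527258) (nat_lit 4274)) T5.l11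
  TrL.n)))))))) (by decide +kernel)
theorem bx3_2 : BoxOK sI cl6 cl13 cl4 t5 t0 b3_2 :=
  box_mk (TrL.c (I.pos (nat_lit 0) (nat_lit 0)) (xa (xa (xb T5.l12 T5.l12) T5.l12) T5.l12)
  (TrL.c (I.pos (nat_lit 0) (nat_lit 0)) T0.l8
  (TrL.c (I.pos (nat_lit 0) (nat_lit 89480386)) T5.l9
  (TrL.c (I.pos (nat_lit 0) (nat_lit 41530880)) T0.l9
  (TrL.c (I.pos (nat_lit 0) (nat_lit 0)) (xa T0.l12 T0.l12)
  (TrL.c (I.pos (nat_lit 0) (nat_lit 0)) T5.l10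
  (TrL.c (I.mix (nat_lit 41527258) (nat_lit 41530880)) T0.l11
  (TrL.c (I.mix (nat_lit 41527258) (nat_lit 4274)) T5.l11
  TrL.n)))))))) (by decide +kernel)
theorem bx3_3 : BoxOK sI cl6 cl13 cl4 t5 t0 b3_3 :=
  box_mk (TrL.c (I.pos (nat_lit 0) (nat_lit 0)) (xb (xa T5.l13 T5.l13) (xa T5.l13 T5.l13))
  (TrL.c (I.pos (nat_lit 0) (nat_lit 0)) T0.l8
  (TrL.c (I.pos (nat_lit 0) (nat_lit 89480386)) (xR T5.l9 T5.l9)
  (TrL.c (I.pos (nat_lit 0) (nat_lit 41530880)) T0.l9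
  (TrL.c (I.pos (nat_lit 0) (nat_lit 0)) T0.l13
  (TrL.c (I.pos (nat_lit 0) (nat_lit 0)) T5.l10
  (TrL.c (I.mix (nat_lit 41527258) (nat_lit 41530880)) (xR T0.l1 T0.l1)
  (TrL.c (I.mix (nat_lit 41527258) (nat_lit 4274)) T5.l11
  TrL.n)))))))) (by decide +kernel)
theorem bx3_4 : BoxOK sI cl6 cl13 cl4 t5 t0 b3_4 :=
  box_mk (TrL.c (I.pos (nat_lit 0) (nat_lit 0)) (xa (xa (xb (xa T5.l12 T5.l12) (xa T5.l12 T5.l12)) (xb T5.l12 T5.l12)) (xa (xb T5.l12 (xa T5.l12 T5.l12)) (xb T5.l12 (xa T5.l12 T5.l12))))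
  (TrL.c (I.pos (nat_lit 0) (nat_lit 0)) (xa T0.l8 T0.l8)
  (TrL.c (I.pos (nat_lit 0) (nat_lit 89480386)) T5.l9
  (TrL.c (I.pos (nat_lit 0) (nat_lit 41530880)) T0.l9
  (TrL.c (I.pos (nat_lit 0) (nat_lit 0)) (xa T0.l12 T0.l12)
  (TrL.c (I.pos (nat_lit 0) (nat_lit 0)) T5.l10
  (TrL.c (I.mix (nat_lit 41527258) (nat_lit 41530880)) T0.l11
  (TrL.c (I.mix (nat_lit 41527258) (nat_lit 4274)) T5.l11
  TrL.n)))))))) (by decide +kernel)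
theorem bx3_5 : BoxOK sI cl6 cl13 cl4 t5 t0 b3_5 :=
  box_mk (TrL.c (I.pos (nat_lit 0) (nat_lit 0)) (xb (xa T5.l13 T5.l13) (xa T5.l13 T5.l13))
  (TrL.c (I.pos (nat_lit 0) (nat_lit 0)) T0.l8
  (TrL.c (I.pos (nat_lit 0) (nat_lit 89480386)) (xR T5.l9 T5.l9)
  (TrL.c (I.pos (nat_lit 0) (nat_lit 41530880)) T0.l9
  (TrL.c (I.pos (nat_lit 0) (nat_lit 0)) T0.l13
  (TrL.c (I.pos (nat_lit 0) (nat_lit 0)) T5.l10
  (TrL.c (I.mix (nat_lit 41527258) (nat_lit 41530880)) T0.l1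
  (TrL.c (I.mix (nat_lit 41527258) (nat_lit 4274)) T5.l11
  TrL.n)))))))) (by decide +kernel)
theorem bx3_6 : BoxOK sI cl6 cl13 cl4 t5 t0 b3_6 :=
  box_mk (TrL.c (I.pos (nat_lit 0) (nat_lit 0)) (xa T5.l12 T5.l12)
  (TrL.c (I.pos (nat_lit 0) (nat_lit 0)) T0.l8
  (TrL.c (I.pos (nat_lit 0) (nat_lit 89480386)) T5.l9
  (TrL.c (I.pos (nat_lit 0) (nat_lit 41530880)) T0.l9
  (TrL.c (I.pos (nat_lit 0) (nat_lit 0)) T0.l12
  (TrL.c (I.pos (nat_lit 0) (nat_lit 0)) T5.l10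
  (TrL.c (I.mix (nat_lit 41527258) (nat_lit 41530880)) T0.l11
  (TrL.c (I.mix (nat_lit 41527258) (nat_lit 4274)) T5.l11
  TrL.n)))))))) (by decide +kernel)
theorem bx3_7 : BoxOK sI cl6 cl13 cl4 t5 t0 b3_7 :=
  box_mk (TrL.c (I.pos (nat_lit 0) (nat_lit 0)) T5.l12
  (TrL.c (I.pos (nat_lit 0) (nat_lit 0)) T0.l8
  (TrL.c (I.pos (nat_lit 0) (nat_lit 89480386)) T5.l9
  (TrL.c (I.pos (nat_lit 0) (nat_lit 41530880)) T0.l9
  (TrL.c (I.pos (nat_lit 0) (nat_lit 0)) T0.l12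
  (TrL.c (I.pos (nat_lit 0) (nat_lit 0)) T5.l10
  (TrL.c (I.mix (nat_lit 41527258) (nat_lit 41530880)) T0.l1
  (TrL.c (I.mix (nat_lit 41527258) (nat_lit 4274)) T5.l11
  TrL.n)))))))) (by decide +kernel)
theorem bx3_8 : BoxOK sI cl6 cl13 cl4 t5 t0 b3_8 :=
  box_mk (TrL.c (I.pos (nat_lit 0) (nat_lit 0)) T5.l13
  (TrL.c (I.pos (nat_lit 0) (nat_lit 0)) T0.l8
  (TrL.c (I.pos (nat_lit 0) (nat_lit 89480386)) T5.l9
  (TrL.c (I.pos (nat_lit 0) (nat_lit 41530880)) T0.l9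
  (TrL.c (I.pos (nat_lit 0) (nat_lit 0)) T0.l13
  (TrL.c (I.pos (nat_lit 0) (nat_lit 0)) T5.l10
  (TrL.c (I.mix (nat_lit 41527258) (nat_lit 41530880)) T0.l1
  (TrL.c (I.mix (nat_lit 41527258) (nat_lit 4274)) T5.l11
  TrL.n)))))))) (by decide +kernel)
theorem bx3_9 : BoxOK sI cl6 cl13 cl4 t5 t0 b3_9 :=
  box_mk (TrL.c (I.pos (nat_lit 0) (nat_lit 0)) (xa (xa T5.l12 T5.l12) (xa T5.l12 T5.l12))
  (TrL.c (I.pos (nat_lit 0) (nat_lit 0)) (xa T0.l8 T0.l8)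
  (TrL.c (I.pos (nat_lit 0) (nat_lit 89480386)) T5.l9
  (TrL.c (I.pos (nat_lit 0) (nat_lit 41530880)) T0.l9
  (TrL.c (I.pos (nat_lit 0) (nat_lit 0)) (xa T0.l12 T0.l12)
  (TrL.c (I.pos (nat_lit 0) (nat_lit 0)) T5.l10
  (TrL.c (I.mix (nat_lit 41527258) (nat_lit 41530880)) T0.l11
  (TrL.c (I.mix (nat_lit 41527258) (nat_lit 4274)) T5.l11
  TrL.n)))))))) (by decide +kernel)
theorem bx3_10 : BoxOK sI cl6 cl13 cl4 t5 t0 b3_10 :=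
  box_mk (TrL.c (I.pos (nat_lit 0) (nat_lit 0)) (xb (xa T5.l12 T5.l12) (xa T5.l12 T5.l12))
  (TrL.c (I.pos (nat_lit 0) (nat_lit 0)) T0.l8
  (TrL.c (I.pos (nat_lit 0) (nat_lit 89480386)) T5.l9
  (TrL.c (I.pos (nat_lit 0) (nat_lit 41530880)) T0.l9
  (TrL.c (I.pos (nat_lit 0) (nat_lit 0)) T0.l12
  (TrL.c (I.pos (nat_lit 0) (nat_lit 0)) T5.l10
  (TrL.c (I.mix (nat_lit 41527258) (nat_lit 41530880)) (xR T0.l11 T0.l1)
  (TrL.c (I.mix (nat_lit 41527258) (nat_lit 4274)) T5.l11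
  TrL.n)))))))) (by decide +kernel)
theorem bx3_11 : BoxOK sI cl6 cl13 cl4 t5 t0 b3_11 :=
  box_mk (TrL.c (I.pos (nat_lit 0) (nat_lit 0)) T5.l12
  (TrL.c (I.pos (nat_lit 0) (nat_lit 0)) T0.l8
  (TrL.c (I.pos (nat_lit 0) (nat_lit 89480386)) T5.l9
  (TrL.c (I.pos (nat_lit 0) (nat_lit 41530880)) T0.l9
  (TrL.c (I.pos (nat_lit 0) (nat_lit 0)) T0.l12
  (TrL.c (I.pos (nat_lit 0) (nat_lit 0)) T5.l10
  (TrL.c (I.mix (nat_lit 41527258) (nat_lit 41530880)) T0.l11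
  (TrL.c (I.mix (nat_lit 41527258) (nat_lit 4274)) T5.l11
  TrL.n)))))))) (by decide +kernel)
theorem bx3_12 : BoxOK sI cl6 cl13 cl4 t5 t0 b3_12 :=
  box_mk (TrL.c (I.pos (nat_lit 0) (nat_lit 0)) (xa (xb T5.l0 T5.l0) (xb T5.l0 T5.l0))
  (TrL.c (I.pos (nat_lit 0) (nat_lit 0)) T0.l8
  (TrL.c (I.pos (nat_lit 0) (nat_lit 89480386)) (xR T5.l9 T5.l9)
  (TrL.c (I.pos (nat_lit 0) (nat_lit 41530880)) T0.l9
  (TrL.c (I.pos (nat_lit 0) (nat_lit 0)) (xa T0.l10 (xb T0.l10 T0.l10))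
  (TrL.c (I.pos (nat_lit 0) (nat_lit 0)) T5.l10
  (TrL.c (I.mix (nat_lit 41527258) (nat_lit 41530880)) (xR T0.l11 T0.l1)
  (TrL.c (I.mix (nat_lit 41527258) (nat_lit 4274)) T5.l11
  TrL.n)))))))) (by decide +kernel)
theorem bx3_13 : BoxOK sI cl6 cl13 cl4 t5 t0 b3_13 :=
  box_mk (TrL.c (I.pos (nat_lit 0) (nat_lit 0)) (xa T5.l0 T5.l0)
  (TrL.c (I.pos (nat_lit 0) (nat_lit 0)) T0.l8
  (TrL.c (I.pos (nat_lit 0) (nat_lit 89480386)) (xR T5.l9 T5.l9)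
  (TrL.c (I.pos (nat_lit 0) (nat_lit 41530880)) T0.l9
  (TrL.c (I.pos (nat_lit 0) (nat_lit 0)) T0.l10
  (TrL.c (I.pos (nat_lit 0) (nat_lit 0)) T5.l10
  (TrL.c (I.mix (nat_lit 41527258) (nat_lit 41530880)) (xR T0.l11 T0.l1)
  (TrL.c (I.mix (nat_lit 41527258) (nat_lit 4274)) T5.l11
  TrL.n)))))))) (by decide +kernel)
theorem sv3 : StarV sI cl6 cl13 cl4 t5 t0 t3 :=
  (bt_n (bt_n (bt_n (bt_b bx3_0) (bt_n (bt_b bx3_1) (bt_b bx3_2))) (bt_n (bt_n (bt_b bx3_3) (bt_b bx3_4)) (bt_n (bt_b bx3_5) (bt_b bx3_6)))) (bt_n (bt_n (bt_b bx3_7) (bt_n (bt_b bx3_8) (bt_b bx3_9))) (bt_n (bt_n (bt_b bx3_10) (bt_b bx3_11)) (bt_n (bt_b bx3_12) (bt_b bx3_13)))))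
def S3 : StarD := StarD.mk cl6 cl13 cl4 5 0 t3
theorem bx4_0 : BoxOK sI cl13 cl4 cl6 t1 t3 b4_0 :=
  box_mk (TrL.c (I.pos (nat_lit 0) (nat_lit 0)) (xa (xb T1.l0 (xa T1.l4 T1.l0)) (xb T1.l0 T1.l0))
  (TrL.c (I.pos (nat_lit 0) (nat_lit 0)) T3.l1
  (TrL.c (I.pos (nat_lit 0) (nat_lit 134217730)) (xR T1.l1 T1.l1)
  (TrL.c (I.pos (nat_lit 0) (nat_lit 110514882)) (xR T3.l2 T3.l2)
  (TrL.c (I.pos (nat_lit 0) (nat_lit 0)) (xa T3.l3 (xb T3.l3 (xk T3.l3 T3.l3)))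
  (TrL.c (I.pos (nat_lit 0) (nat_lit 0)) T1.l2
  (TrL.c (I.mix (nat_lit 8088324) (nat_lit 110514882)) (xR T3.l4 T3.l4)
  (TrL.c (I.mix (nat_lit 8088324) (nat_lit 89478486)) T1.l3
  TrL.n)))))))) (by decide +kernel)
theorem bx4_1 : BoxOK sI cl13 cl4 cl6 t1 t3 b4_1 :=
  box_mk (TrL.c (I.pos (nat_lit 0) (nat_lit 0)) (xa (xb T1.l4 T1.l4) T1.l4)
  (TrL.c (I.pos (nat_lit 0) (nat_lit 0)) T3.l1
  (TrL.c (I.pos (nat_lit 0) (nat_lit 134217730)) T1.l11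
  (TrL.c (I.pos (nat_lit 0) (nat_lit 110514882)) T3.l2
  (TrL.c (I.pos (nat_lit 0) (nat_lit 0)) (xa T3.l5 T3.l5)
  (TrL.c (I.pos (nat_lit 0) (nat_lit 0)) T1.l2
  (TrL.c (I.mix (nat_lit 8088324) (nat_lit 110514882)) T3.l4
  (TrL.c (I.mix (nat_lit 8088324) (nat_lit 89478486)) T1.l9
  TrL.n)))))))) (by decide +kernel)
theorem bx4_2 : BoxOK sI cl13 cl4 cl6 t1 t3 b4_2 :=
  box_mk (TrL.c (I.pos (nat_lit 0) (nat_lit 0)) (xb (xa T1.l4 T1.l4) (xa (xb T1.l4 (xa T1.l4 T1.l4)) (xb T1.l4 T1.l4)))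
  (TrL.c (I.pos (nat_lit 0) (nat_lit 0)) T3.l1
  (TrL.c (I.pos (nat_lit 0) (nat_lit 134217730)) (xR T1.l1 T1.l1)
  (TrL.c (I.pos (nat_lit 0) (nat_lit 110514882)) (xR T3.l2 T3.l2)
  (TrL.c (I.pos (nat_lit 0) (nat_lit 0)) (xb (xa T3.l5 T3.l5) (xa T3.l5 (xk T3.l3 T3.l3)))
  (TrL.c (I.pos (nat_lit 0) (nat_lit 0)) T1.l2
  (TrL.c (I.mix (nat_lit 8088324) (nat_lit 110514882)) (xR T3.l4 T3.l4)
  (TrL.c (I.mix (nat_lit 8088324) (nat_lit 89478486)) (xR T1.l3 T1.l3)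
  TrL.n)))))))) (by decide +kernel)
theorem bx4_3 : BoxOK sI cl13 cl4 cl6 t1 t3 b4_3 :=
  box_mk (TrL.c (I.pos (nat_lit 0) (nat_lit 0)) T3.l1
  (TrL.c (I.pos (nat_lit 0) (nat_lit 0)) T1.l1
  (TrL.c (I.mix (nat_lit 8088324) (nat_lit 110514882)) (xR T3.l6 T3.l2)
  (TrL.c (I.mix (nat_lit 8088324) (nat_lit 89478486)) T1.l9
  TrL.n)))) (by decide +kernel)
theorem bx4_4 : BoxOK sI cl13 cl4 cl6 t1 t3 b4_4 :=
  box_mk (TrL.c (I.pos (nat_lit 0) (nat_lit 0)) T3.l7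
  (TrL.c (I.pos (nat_lit 0) (nat_lit 0)) T1.l6
  (TrL.c (I.mix (nat_lit 8088324) (nat_lit 110514882)) T3.l4
  (TrL.c (I.mix (nat_lit 8088324) (nat_lit 89478486)) T1.l1
  TrL.n)))) (by decide +kernel)
theorem bx4_5 : BoxOK sI cl13 cl4 cl6 t1 t3 b4_5 :=
  box_mk (TrL.c (I.pos (nat_lit 0) (nat_lit 0)) T1.l4
  (TrL.c (I.pos (nat_lit 0) (nat_lit 0)) T3.l1
  (TrL.c (I.pos (nat_lit 0) (nat_lit 134217730)) T1.l1
  (TrL.c (I.pos (nat_lit 0) (nat_lit 110514882)) T3.l2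
  (TrL.c (I.pos (nat_lit 0) (nat_lit 0)) T3.l5
  (TrL.c (I.pos (nat_lit 0) (nat_lit 0)) T1.l2
  (TrL.c (I.mix (nat_lit 8088324) (nat_lit 110514882)) T3.l4
  (TrL.c (I.mix (nat_lit 8088324) (nat_lit 89478486)) T1.l3
  TrL.n)))))))) (by decide +kernel)
theorem bx4_6 : BoxOK sI cl13 cl4 cl6 t1 t3 b4_6 :=
  box_mk (TrL.c (I.pos (nat_lit 0) (nat_lit 0)) (xa T1.l0 T1.l0)
  (TrL.c (I.pos (nat_lit 0) (nat_lit 0)) T3.l1
  (TrL.c (I.pos (nat_lit 0) (nat_lit 134217730)) (xR T1.l1 T1.l1)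
  (TrL.c (I.pos (nat_lit 0) (nat_lit 110514882)) (xR T3.l2 T3.l2)
  (TrL.c (I.pos (nat_lit 0) (nat_lit 0)) (xa (xb (xk T3.l3 T3.l3) T3.l3) (xb (xk (xa T3.l3 T3.l3) (xa T3.l3 T3.l3)) (xk (xa T3.l3 T3.l3) (xa T3.l3 T3.l3))))
  (TrL.c (I.pos (nat_lit 0) (nat_lit 0)) T1.l2
  (TrL.c (I.mix (nat_lit 8088324) (nat_lit 110514882)) (xR T3.l4 T3.l4)
  (TrL.c (I.mix (nat_lit 8088324) (nat_lit 89478486)) (xR T1.l3 T1.l3)
  TrL.n)))))))) (by decide +kernel)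
theorem bx4_7 : BoxOK sI cl13 cl4 cl6 t1 t3 b4_7 :=
  box_mk (TrL.c (I.pos (nat_lit 0) (nat_lit 0)) (xb T1.l7 T1.l7)
  (TrL.c (I.pos (nat_lit 0) (nat_lit 0)) T3.l7
  (TrL.c (I.pos (nat_lit 0) (nat_lit 134217730)) T1.l1
  (TrL.c (I.pos (nat_lit 0) (nat_lit 110514882)) T3.l2
  (TrL.c (I.pos (nat_lit 0) (nat_lit 0)) T3.l8
  (TrL.c (I.pos (nat_lit 0) (nat_lit 0)) T1.l2
  (TrL.c (I.mix (nat_lit 8088324) (nat_lit 110514882)) T3.l4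
  (TrL.c (I.mix (nat_lit 8088324) (nat_lit 89478486)) T1.l3
  TrL.n)))))))) (by decide +kernel)
theorem bx4_8 : BoxOK sI cl13 cl4 cl6 t1 t3 b4_8 :=
  box_mk (TrL.c (I.pos (nat_lit 0) (nat_lit 0)) (xa T1.l0 T1.l0)
  (TrL.c (I.pos (nat_lit 0) (nat_lit 0)) T3.l1
  (TrL.c (I.pos (nat_lit 0) (nat_lit 134217730)) (xR T1.l1 T1.l1)
  (TrL.c (I.pos (nat_lit 0) (nat_lit 110514882)) (xR T3.l2 T3.l2)
  (TrL.c (I.pos (nat_lit 0) (nat_lit 0)) T3.l3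
  (TrL.c (I.pos (nat_lit 0) (nat_lit 0)) T1.l2
  (TrL.c (I.mix (nat_lit 8088324) (nat_lit 110514882)) T3.l4
  (TrL.c (I.mix (nat_lit 8088324) (nat_lit 89478486)) T1.l3
  TrL.n)))))))) (by decide +kernel)
theorem bx4_9 : BoxOK sI cl13 cl4 cl6 t1 t3 b4_9 :=
  box_mk (TrL.c (I.pos (nat_lit 0) (nat_lit 0)) T1.l7
  (TrL.c (I.pos (nat_lit 0) (nat_lit 0)) T3.l1
  (TrL.c (I.pos (nat_lit 0) (nat_lit 134217730)) T1.l1
  (TrL.c (I.pos (nat_lit 0) (nat_lit 110514882)) T3.l2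
  (TrL.c (I.pos (nat_lit 0) (nat_lit 0)) T3.l5
  (TrL.c (I.pos (nat_lit 0) (nat_lit 0)) T1.l2
  (TrL.c (I.mix (nat_lit 8088324) (nat_lit 110514882)) T3.l4
  (TrL.c (I.mix (nat_lit 8088324) (nat_lit 89478486)) T1.l3
  TrL.n)))))))) (by decide +kernel)
theorem sv4 : StarV sI cl13 cl4 cl6 t1 t3 t4 :=
  (bt_n (bt_n (bt_n (bt_b bx4_0) (bt_b bx4_1)) (bt_n (bt_b bx4_2) (bt_n (bt_b bx4_3) (bt_b bx4_4)))) (bt_n (bt_n (bt_b bx4_5) (bt_b bx4_6)) (bt_n (bt_b bx4_7) (bt_n (bt_b bx4_8) (bt_b bx4_9)))))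
def S4 : StarD := StarD.mk cl13 cl4 cl6 1 3 t4
theorem bx5_0 : BoxOK sI cl13 cl6 cl4 t3 t1 b5_0 :=
  box_mk (TrL.c (I.pos (nat_lit 0) (nat_lit 0)) (xa (xa (xb T3.l0 T3.l0) (xb T3.l0 T3.l0)) (xa T3.l0 T3.l0))
  (TrL.c (I.pos (nat_lit 0) (nat_lit 0)) T1.l8
  (TrL.c (I.pos (nat_lit 0) (nat_lit 134217730)) (xR T3.l9 T3.l9)
  (TrL.c (I.pos (nat_lit 0) (nat_lit 110514882)) (xR T1.l9 T1.l9)
  (TrL.c (I.pos (nat_lit 0) (nat_lit 0)) (xa T1.l10 (xk T1.l10 T1.l10))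
  (TrL.c (I.pos (nat_lit 0) (nat_lit 0)) T3.l10
  (TrL.c (I.mix (nat_lit 8088324) (nat_lit 110514882)) (xR T1.l11 T1.l11)
  (TrL.c (I.mix (nat_lit 8088324) (nat_lit 89478486)) (xR T3.l2 T3.l11)
  TrL.n)))))))) (by decide +kernel)
theorem bx5_1 : BoxOK sI cl13 cl6 cl4 t3 t1 b5_1 :=
  box_mk (TrL.c (I.pos (nat_lit 0) (nat_lit 0)) (xa T3.l12 T3.l0)
  (TrL.c (I.pos (nat_lit 0) (nat_lit 0)) T1.l8
  (TrL.c (I.pos (nat_lit 0) (nat_lit 134217730)) (xR T3.l9 T3.l9)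
  (TrL.c (I.pos (nat_lit 0) (nat_lit 110514882)) T1.l9
  (TrL.c (I.pos (nat_lit 0) (nat_lit 0)) (xa T1.l12 T1.l12)
  (TrL.c (I.pos (nat_lit 0) (nat_lit 0)) T3.l10
  (TrL.c (I.mix (nat_lit 8088324) (nat_lit 110514882)) T1.l11
  (TrL.c (I.mix (nat_lit 8088324) (nat_lit 89478486)) T3.l2
  TrL.n)))))))) (by decide +kernel)
theorem bx5_2 : BoxOK sI cl13 cl6 cl4 t3 t1 b5_2 :=
  box_mk (TrL.c (I.pos (nat_lit 0) (nat_lit 0)) T3.l12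
  (TrL.c (I.pos (nat_lit 0) (nat_lit 0)) T1.l8
  (TrL.c (I.pos (nat_lit 0) (nat_lit 134217730)) T3.l9
  (TrL.c (I.pos (nat_lit 0) (nat_lit 110514882)) T1.l9
  (TrL.c (I.pos (nat_lit 0) (nat_lit 0)) T1.l12
  (TrL.c (I.pos (nat_lit 0) (nat_lit 0)) T3.l10
  (TrL.c (I.mix (nat_lit 8088324) (nat_lit 110514882)) T1.l11
  (TrL.c (I.mix (nat_lit 8088324) (nat_lit 89478486)) T3.l2
  TrL.n)))))))) (by decide +kernel)
theorem bx5_3 : BoxOK sI cl13 cl6 cl4 t3 t1 b5_3 :=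
  box_mk (TrL.c (I.pos (nat_lit 0) (nat_lit 0)) (xa (xb T3.l13 T3.l13) (xb T3.l13 T3.l13))
  (TrL.c (I.pos (nat_lit 0) (nat_lit 0)) T1.l8
  (TrL.c (I.pos (nat_lit 0) (nat_lit 134217730)) (xR T3.l9 T3.l4)
  (TrL.c (I.pos (nat_lit 0) (nat_lit 110514882)) (xR T1.l9 T1.l9)
  (TrL.c (I.pos (nat_lit 0) (nat_lit 0)) T1.l10
  (TrL.c (I.pos (nat_lit 0) (nat_lit 0)) T3.l10
  (TrL.c (I.mix (nat_lit 8088324) (nat_lit 110514882)) (xR T1.l11 T1.l11)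
  (TrL.c (I.mix (nat_lit 8088324) (nat_lit 89478486)) (xR T3.l2 T3.l2)
  TrL.n)))))))) (by decide +kernel)
theorem bx5_4 : BoxOK sI cl13 cl6 cl4 t3 t1 b5_4 :=
  box_mk (TrL.c (I.pos (nat_lit 0) (nat_lit 0)) (xa (xa (xb T3.l12 T3.l12) T3.l12) (xa T3.l12 T3.l12))
  (TrL.c (I.pos (nat_lit 0) (nat_lit 0)) T1.l8
  (TrL.c (I.pos (nat_lit 0) (nat_lit 134217730)) T3.l9
  (TrL.c (I.pos (nat_lit 0) (nat_lit 110514882)) T1.l9
  (TrL.c (I.pos (nat_lit 0) (nat_lit 0)) T1.l12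
  (TrL.c (I.pos (nat_lit 0) (nat_lit 0)) T3.l10
  (TrL.c (I.mix (nat_lit 8088324) (nat_lit 110514882)) T1.l11
  (TrL.c (I.mix (nat_lit 8088324) (nat_lit 89478486)) T3.l2
  TrL.n)))))))) (by decide +kernel)
theorem bx5_5 : BoxOK sI cl13 cl6 cl4 t3 t1 b5_5 :=
  box_mk (TrL.c (I.pos (nat_lit 0) (nat_lit 0)) T3.l12
  (TrL.c (I.pos (nat_lit 0) (nat_lit 0)) T1.l8
  (TrL.c (I.pos (nat_lit 0) (nat_lit 134217730)) T3.l9
  (TrL.c (I.pos (nat_lit 0) (nat_lit 110514882)) T1.l9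
  (TrL.c (I.pos (nat_lit 0) (nat_lit 0)) T1.l12
  (TrL.c (I.pos (nat_lit 0) (nat_lit 0)) T3.l10
  (TrL.c (I.mix (nat_lit 8088324) (nat_lit 110514882)) T1.l11
  (TrL.c (I.mix (nat_lit 8088324) (nat_lit 89478486)) T3.l2
  TrL.n)))))))) (by decide +kernel)
theorem bx5_6 : BoxOK sI cl13 cl6 cl4 t3 t1 b5_6 :=
  box_mk (TrL.c (I.pos (nat_lit 0) (nat_lit 0)) (xa T3.l12 T3.l12)
  (TrL.c (I.pos (nat_lit 0) (nat_lit 0)) T1.l8
  (TrL.c (I.pos (nat_lit 0) (nat_lit 134217730)) T3.l9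
  (TrL.c (I.pos (nat_lit 0) (nat_lit 110514882)) T1.l9
  (TrL.c (I.pos (nat_lit 0) (nat_lit 0)) T1.l12
  (TrL.c (I.pos (nat_lit 0) (nat_lit 0)) T3.l10
  (TrL.c (I.mix (nat_lit 8088324) (nat_lit 110514882)) T1.l11
  (TrL.c (I.mix (nat_lit 8088324) (nat_lit 89478486)) T3.l2
  TrL.n)))))))) (by decide +kernel)
theorem bx5_7 : BoxOK sI cl13 cl6 cl4 t3 t1 b5_7 :=
  box_mk (TrL.c (I.pos (nat_lit 0) (nat_lit 0)) T3.l13
  (TrL.c (I.pos (nat_lit 0) (nat_lit 0)) T1.l8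
  (TrL.c (I.pos (nat_lit 0) (nat_lit 134217730)) T3.l9
  (TrL.c (I.pos (nat_lit 0) (nat_lit 110514882)) T1.l9
  (TrL.c (I.pos (nat_lit 0) (nat_lit 0)) T1.l13
  (TrL.c (I.pos (nat_lit 0) (nat_lit 0)) T3.l10
  (TrL.c (I.mix (nat_lit 8088324) (nat_lit 110514882)) T1.l11
  (TrL.c (I.mix (nat_lit 8088324) (nat_lit 89478486)) T3.l2
  TrL.n)))))))) (by decide +kernel)
theorem bx5_8 : BoxOK sI cl13 cl6 cl4 t3 t1 b5_8 :=
  box_mk (TrL.c (I.pos (nat_lit 0) (nat_lit 0)) (xb T3.l13 (xa T3.l13 T3.l13))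
  (TrL.c (I.pos (nat_lit 0) (nat_lit 0)) T1.l8
  (TrL.c (I.pos (nat_lit 0) (nat_lit 134217730)) (xR T3.l9 T3.l9)
  (TrL.c (I.pos (nat_lit 0) (nat_lit 110514882)) (xR T1.l9 T1.l9)
  (TrL.c (I.pos (nat_lit 0) (nat_lit 0)) (xb T1.l13 T1.l13)
  (TrL.c (I.pos (nat_lit 0) (nat_lit 0)) T3.l10
  (TrL.c (I.mix (nat_lit 8088324) (nat_lit 110514882)) (xR T1.l11 T1.l11)
  (TrL.c (I.mix (nat_lit 8088324) (nat_lit 89478486)) T3.l2
  TrL.n)))))))) (by decide +kernel)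
theorem bx5_9 : BoxOK sI cl13 cl6 cl4 t3 t1 b5_9 :=
  box_mk (TrL.c (I.pos (nat_lit 0) (nat_lit 0)) (xa (xa (xb T3.l12 (xa T3.l12 T3.l12)) (xb T3.l12 T3.l12)) (xa T3.l12 T3.l12))
  (TrL.c (I.pos (nat_lit 0) (nat_lit 0)) (xa T1.l8 T1.l8)
  (TrL.c (I.pos (nat_lit 0) (nat_lit 134217730)) T3.l9
  (TrL.c (I.pos (nat_lit 0) (nat_lit 110514882)) T1.l9
  (TrL.c (I.pos (nat_lit 0) (nat_lit 0)) (xa T1.l12 T1.l12)
  (TrL.c (I.pos (nat_lit 0) (nat_lit 0)) T3.l10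
  (TrL.c (I.mix (nat_lit 8088324) (nat_lit 110514882)) T1.l11
  (TrL.c (I.mix (nat_lit 8088324) (nat_lit 89478486)) T3.l2
  TrL.n)))))))) (by decide +kernel)
theorem bx5_10 : BoxOK sI cl13 cl6 cl4 t3 t1 b5_10 :=
  box_mk (TrL.c (I.pos (nat_lit 0) (nat_lit 0)) (xb T3.l12 T3.l12)
  (TrL.c (I.pos (nat_lit 0) (nat_lit 0)) T1.l8
  (TrL.c (I.pos (nat_lit 0) (nat_lit 134217730)) T3.l9
  (TrL.c (I.pos (nat_lit 0) (nat_lit 110514882)) T1.l9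
  (TrL.c (I.pos (nat_lit 0) (nat_lit 0)) (xb T1.l12 T1.l12)
  (TrL.c (I.pos (nat_lit 0) (nat_lit 0)) T3.l10
  (TrL.c (I.mix (nat_lit 8088324) (nat_lit 110514882)) T1.l11
  (TrL.c (I.mix (nat_lit 8088324) (nat_lit 89478486)) T3.l2
  TrL.n)))))))) (by decide +kernel)
theorem bx5_11 : BoxOK sI cl13 cl6 cl4 t3 t1 b5_11 :=
  box_mk (TrL.c (I.pos (nat_lit 0) (nat_lit 0)) (xa (xa T3.l12 T3.l12) T3.l12)
  (TrL.c (I.pos (nat_lit 0) (nat_lit 0)) T1.l8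
  (TrL.c (I.pos (nat_lit 0) (nat_lit 134217730)) T3.l9
  (TrL.c (I.pos (nat_lit 0) (nat_lit 110514882)) T1.l9
  (TrL.c (I.pos (nat_lit 0) (nat_lit 0)) T1.l12
  (TrL.c (I.pos (nat_lit 0) (nat_lit 0)) T3.l10
  (TrL.c (I.mix (nat_lit 8088324) (nat_lit 110514882)) T1.l11
  (TrL.c (I.mix (nat_lit 8088324) (nat_lit 89478486)) T3.l2
  TrL.n)))))))) (by decide +kernel)
theorem bx5_12 : BoxOK sI cl13 cl6 cl4 t3 t1 b5_12 :=
  box_mk (TrL.c (I.pos (nat_lit 0) (nat_lit 0)) (xa (xa T3.l0 T3.l0) (xa T3.l0 T3.l0))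
  (TrL.c (I.pos (nat_lit 0) (nat_lit 0)) T1.l8
  (TrL.c (I.pos (nat_lit 0) (nat_lit 134217730)) (xR T3.l9 T3.l4)
  (TrL.c (I.pos (nat_lit 0) (nat_lit 110514882)) (xR T1.l9 T1.l9)
  (TrL.c (I.pos (nat_lit 0) (nat_lit 0)) (xa (xb T1.l10 T1.l10) (xk (xb T1.l10 (xa T1.l10 T1.l10)) (xb T1.l10 (xa T1.l10 T1.l10))))
  (TrL.c (I.pos (nat_lit 0) (nat_lit 0)) T3.l10
  (TrL.c (I.mix (nat_lit 8088324) (nat_lit 110514882)) (xR T1.l11 T1.l11)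
  (TrL.c (I.mix (nat_lit 8088324) (nat_lit 89478486)) (xR T3.l2 T3.l11)
  TrL.n)))))))) (by decide +kernel)
theorem bx5_13 : BoxOK sI cl13 cl6 cl4 t3 t1 b5_13 :=
  box_mk (TrL.c (I.pos (nat_lit 0) (nat_lit 0)) (xa (xb T3.l0 T3.l0) T3.l0)
  (TrL.c (I.pos (nat_lit 0) (nat_lit 0)) T1.l8
  (TrL.c (I.pos (nat_lit 0) (nat_lit 134217730)) (xR T3.l9 T3.l9)
  (TrL.c (I.pos (nat_lit 0) (nat_lit 110514882)) (xR T1.l9 T1.l9)
  (TrL.c (I.pos (nat_lit 0) (nat_lit 0)) (xk T1.l10 T1.l10)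
  (TrL.c (I.pos (nat_lit 0) (nat_lit 0)) T3.l10
  (TrL.c (I.mix (nat_lit 8088324) (nat_lit 110514882)) (xR T1.l11 T1.l11)
  (TrL.c (I.mix (nat_lit 8088324) (nat_lit 89478486)) (xR T3.l2 T3.l2)
  TrL.n)))))))) (by decide +kernel)
theorem sv5 : StarV sI cl13 cl6 cl4 t3 t1 t5 :=
  (bt_n (bt_n (bt_n (bt_b bx5_0) (bt_n (bt_b bx5_1) (bt_b bx5_2))) (bt_n (bt_n (bt_b bx5_3) (bt_b bx5_4)) (bt_n (bt_b bx5_5) (bt_b bx5_6)))) (bt_n (bt_n (bt_b bx5_7) (bt_n (bt_b bx5_8) (bt_b bx5_9))) (bt_n (bt_n (bt_b bx5_10) (bt_b bx5_11)) (bt_n (bt_b bx5_12) (bt_b bx5_13)))))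
def S5 : StarD := StarD.mk cl13 cl6 cl4 3 1 t5
def G : List StarD := [S0, S1, S2, S3, S4, S5]
theorem so0 : StarOK sI G S0 :=
  star_mk (by decide) (by decide) rfl rfl rfl rfl rfl rfl (rfl : _ = t2) (rfl : _ = t4)
  (st_mk (Pth.l (Pth.l (Pth.l Pth.z))) (nat_lit 192799541) (nat_lit 194327502) (by decide +kernel))
  (st_mk (Pth.l (Pth.l (Pth.l Pth.z))) (nat_lit 230574807) (nat_lit 232796013) (by decide +kernel))
  (st_mk (Pth.l (Pth.l (Pth.l Pth.z))) (nat_lit 274869955) (nat_lit 278092016) (by decide +kernel)) sv0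
theorem so1 : StarOK sI G S1 :=
  star_mk (by decide) (by decide) rfl rfl rfl rfl rfl rfl (rfl : _ = t4) (rfl : _ = t2)
  (st_mk (Pth.l (Pth.l (Pth.l Pth.z))) (nat_lit 98308023) (nat_lit 117746899) (by decide +kernel))
  (st_mk (Pth.l (Pth.l (Pth.l Pth.z))) (nat_lit 135405514) (nat_lit 155561912) (by decide +kernel))
  (st_mk (Pth.l (Pth.l (Pth.l Pth.z))) (nat_lit 179158369) (nat_lit 200332707) (by decide +kernel)) sv1
theorem so2 : StarOK sI G S2 :=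
  star_mk (by decide) (by decide) rfl rfl rfl rfl rfl rfl (rfl : _ = t0) (rfl : _ = t5)
  (st_mk (Pth.l (Pth.l (Pth.l Pth.z))) (nat_lit 373431230) (nat_lit 375283100) (by decide +kernel))
  (st_mk (Pth.l (Pth.l (Pth.l Pth.z))) (nat_lit 410049091) (nat_lit 412291812) (by decide +kernel))
  (st_mk (Pth.l (Pth.l (Pth.l Pth.z))) (nat_lit 452511872) (nat_lit 455258246) (by decide +kernel)) sv2
theorem so3 : StarOK sI G S3 :=
  star_mk (by decide) (by decide) rfl rfl rfl rfl rfl rfl (rfl : _ = t5) (rfl : _ = t0)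
  (st_mk (Pth.l (Pth.l (Pth.l Pth.z))) (nat_lit 97038187) (nat_lit 115750186) (by decide +kernel))
  (st_mk (Pth.l (Pth.l (Pth.l Pth.z))) (nat_lit 132984336) (nat_lit 152026360) (by decide +kernel))
  (st_mk (Pth.l (Pth.l (Pth.l Pth.z))) (nat_lit 174884171) (nat_lit 194378084) (by decide +kernel)) sv3
theorem so4 : StarOK sI G S4 :=
  star_mk (by decide) (by decide) rfl rfl rfl rfl rfl rfl (rfl : _ = t1) (rfl : _ = t3)
  (st_mk (Pth.l (Pth.l (Pth.l Pth.z))) (nat_lit 364798899) (nat_lit 367688991) (by decide +kernel))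
  (st_mk (Pth.l (Pth.l (Pth.l Pth.z))) (nat_lit 399695508) (nat_lit 403058944) (by decide +kernel))
  (st_mk (Pth.l (Pth.l (Pth.l Pth.z))) (nat_lit 439960827) (nat_lit 443925295) (by decide +kernel)) sv4
theorem so5 : StarOK sI G S5 :=
  star_mk (by decide) (by decide) rfl rfl rfl rfl rfl rfl (rfl : _ = t3) (rfl : _ = t1)
  (st_mk (Pth.l (Pth.l (Pth.l Pth.z))) (nat_lit 185843017) (nat_lit 187301223) (by decide +kernel))
  (st_mk (Pth.l (Pth.l (Pth.l Pth.z))) (nat_lit 220739626) (nat_lit 222576436) (by decide +kernel))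
  (st_mk (Pth.l (Pth.l (Pth.l Pth.z))) (nat_lit 261004945) (nat_lit 263360823) (by decide +kernel)) sv5
theorem ok : GroupOK (nat_lit 91226112) (nat_lit 150339584) G := grp_mk (allS_c so0 (allS_c so1 (allS_c so2 (allS_c so3 (allS_c so4 (allS_c so5 allS_n))))))
theorem cov : GCov G cl4 cl6 cl13 := cov_mk
  ⟨0, by decide, rfl, rfl, rfl⟩ ⟨1, by decide, rfl, rfl, rfl⟩ ⟨2, by decide, rfl, rfl, rfl⟩ ⟨3, by decide, rfl, rfl, rfl⟩ ⟨4, by decide, rfl, rfl, rfl⟩ ⟨5, by decide, rfl, rfl, rfl⟩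
end Q136_1

namespace Q136_2
def sI : I := I.pos (nat_lit 150274048) (nat_lit 209387520)
def b0_0 : Bx := Bx.mk (St.mk (I.pos (nat_lit 156712960) (nat_lit 230801408)) (I.mix (nat_lit 3735552) (nat_lit 65896448)) (I.mix (nat_lit 14925824) (nat_lit 54788096)) (I.pos (nat_lit 186679296) (nat_lit 308772864)) (I.mix (nat_lit 96894976) (nat_lit 61423616)) (I.mix (nat_lit 58621952) (nat_lit 54607872)) (I.mix (nat_lit 90456064) (nat_lit 86638592)))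
  false (nat_lit 84100858)
def b0_1 : Bx := Bx.mk (St.mk (I.mix (nat_lit 26116096) (nat_lit 93716480)) (I.mix (nat_lit 7520256) (nat_lit 34226176)) (I.neg (nat_lit 3227648) (nat_lit 33456128)) (I.pos (nat_lit 83935232) (nat_lit 121356288)) (I.mix (nat_lit 34357248) (nat_lit 50561024)) (I.mix (nat_lit 40484864) (nat_lit 28278784)) (I.mix (nat_lit 27213824) (nat_lit 19628032)))
  false (nat_lit 0)
def b0_2 : Bx := Bx.mk (St.mk (I.pos (nat_lit 77381632) (nat_lit 116080640)) (I.mix (nat_lit 49709056) (nat_lit 9404416)) (I.neg (nat_lit 19480576) (nat_lit 66142208)) (I.pos (nat_lit 107986944) (nat_lit 138674176)) (I.mix (nat_lit 90882048) (nat_lit 38584320)) (I.mix (nat_lit 39632896) (nat_lit 79609856)) (I.mix (nat_lit 25673728) (nat_lit 58785792)))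
  false (nat_lit 1233916)
def b0_3 : Bx := Bx.mk (St.mk (I.mix (nat_lit 44974080) (nat_lit 23248896)) (I.mix (nat_lit 30818304) (nat_lit 6406144)) (I.neg (nat_lit 10682368) (nat_lit 25395200)) (I.pos (nat_lit 84885504) (nat_lit 97779712)) (I.mix (nat_lit 43253760) (nat_lit 24543232)) (I.mix (nat_lit 20725760) (nat_lit 33030144)) (I.mix (nat_lit 12435456) (nat_lit 8929280)))
  false (nat_lit 0)
def b0_4 : Bx := Bx.mk (St.mk (I.pos (nat_lit 68124672) (nat_lit 92012544)) (I.mix (nat_lit 10649600) (nat_lit 15433728)) (I.neg (nat_lit 15269888) (nat_lit 36110336)) (I.pos (nat_lit 104448000) (nat_lit 121438208)) (I.mix (nat_lit 37060608) (nat_lit 26869760)) (I.mix (nat_lit 26460160) (nat_lit 25870336)) (I.mix (nat_lit 15515648) (nat_lit 20021248)))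
  false (nat_lit 0)
def b0_5 : Bx := Bx.mk (St.mk (I.mix (nat_lit 57344000) (nat_lit 6029312)) (I.mix (nat_lit 8585216) (nat_lit 12926976)) (I.neg (nat_lit 17350656) (nat_lit 28770304)) (I.pos (nat_lit 85835776) (nat_lit 100859904)) (I.mix (nat_lit 24936448) (nat_lit 24084480)) (I.mix (nat_lit 21479424) (nat_lit 20217856)) (I.mix (nat_lit 7880704) (nat_lit 11173888)))
  false (nat_lit 0)
def b0_6 : Bx := Bx.mk (St.mk (I.pos (nat_lit 211320832) (nat_lit 261455872)) (I.mix (nat_lit 17727488) (nat_lit 20971520)) (I.neg (nat_lit 40714240) (nat_lit 114376704)) (I.pos (nat_lit 272515072) (nat_lit 357744640)) (I.mix (nat_lit 103825408) (nat_lit 36618240)) (I.mix (nat_lit 64667648) (nat_lit 65552384)) (I.mix (nat_lit 90701824) (nat_lit 129990656)))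
  false (nat_lit 50738424)
def b0_7 : Bx := Bx.mk (St.mk (I.pos (nat_lit 190922752) (nat_lit 250331136)) (I.mix (nat_lit 16367616) (nat_lit 65880064)) (I.mix (nat_lit 104235008) (nat_lit 47939584)) (I.pos (nat_lit 256163840) (nat_lit 332349440)) (I.mix (nat_lit 112885760) (nat_lit 95698944)) (I.mix (nat_lit 91209728) (nat_lit 79888384)) (I.mix (nat_lit 159055872) (nat_lit 148865024)))
  false (nat_lit 96597415)
def b0_8 : Bx := Bx.mk (St.mk (I.pos (nat_lit 87588864) (nat_lit 158187520)) (I.neg (nat_lit 6930432) (nat_lit 51838976)) (I.neg (nat_lit 25706496) (nat_lit 67665920)) (I.pos (nat_lit 118259712) (nat_lit 184254464)) (I.mix (nat_lit 81248256) (nat_lit 49364992)) (I.mix (nat_lit 41189376) (nat_lit 69681152)) (I.mix (nat_lit 26148864) (nat_lit 62324736)))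
  false (nat_lit 0)
def b0_9 : Bx := Bx.mk (St.mk (I.mix (nat_lit 27656192) (nat_lit 47857664)) (I.mix (nat_lit 31670272) (nat_lit 4325376)) (I.neg (nat_lit 11714560) (nat_lit 27459584)) (I.pos (nat_lit 82493440) (nat_lit 98041856)) (I.mix (nat_lit 41549824) (nat_lit 31113216)) (I.mix (nat_lit 24002560) (nat_lit 38338560)) (I.mix (nat_lit 10731520) (nat_lit 15843328)))
  false (nat_lit 0)
def b0_10 : Bx := Bx.mk (St.mk (I.pos (nat_lit 164102144) (nat_lit 216334336)) (I.mix (nat_lit 3473408) (nat_lit 63717376)) (I.mix (nat_lit 21364736) (nat_lit 54411264)) (I.pos (nat_lit 205717504) (nat_lit 276987904)) (I.mix (nat_lit 115703808) (nat_lit 53231616)) (I.mix (nat_lit 101859328) (nat_lit 69091328)) (I.mix (nat_lit 89571328) (nat_lit 63930368)))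
  false (nat_lit 88906687)
def b0_11 : Bx := Bx.mk (St.mk (I.mix (nat_lit 49430528) (nat_lit 70172672)) (I.mix (nat_lit 9256960) (nat_lit 31653888)) (I.neg (nat_lit 5455872) (nat_lit 27459584)) (I.pos (nat_lit 82493440) (nat_lit 109314048)) (I.mix (nat_lit 37126144) (nat_lit 41549824)) (I.mix (nat_lit 42450944) (nat_lit 26066944)) (I.mix (nat_lit 16089088) (nat_lit 15843328)))
  false (nat_lit 0)
def b0_12 : Bx := Bx.mk (St.mk (I.pos (nat_lit 134447104) (nat_lit 199196672)) (I.mix (nat_lit 34537472) (nat_lit 14876672)) (I.neg (nat_lit 3768320) (nat_lit 59752448)) (I.pos (nat_lit 159121408) (nat_lit 239452160)) (I.mix (nat_lit 70844416) (nat_lit 61800448)) (I.mix (nat_lit 58867712) (nat_lit 56049664)) (I.mix (nat_lit 57393152) (nat_lit 48857088)))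
  false (nat_lit 7482272)
def b0_13 : Bx := Bx.mk (St.mk (I.pos (nat_lit 164265984) (nat_lit 205488128)) (I.mix (nat_lit 10846208) (nat_lit 33472512)) (I.mix (nat_lit 33718272) (nat_lit 20692992)) (I.pos (nat_lit 208764928) (nat_lit 247693312)) (I.mix (nat_lit 103301120) (nat_lit 90537984)) (I.mix (nat_lit 123289600) (nat_lit 81723392)) (I.mix (nat_lit 122781696) (nat_lit 66928640)))
  false (nat_lit 45713884)
def t0 : BTr := (BTr.n (BTr.n (BTr.n (BTr.b b0_0) (BTr.n (BTr.b b0_1) (BTr.b b0_2))) (BTr.n (BTr.n (BTr.b b0_3) (BTr.b b0_4)) (BTr.n (BTr.b b0_5) (BTr.b b0_6)))) (BTr.n (BTr.n (BTr.b b0_7) (BTr.n (BTr.b b0_8) (BTr.b b0_9))) (BTr.n (BTr.n (BTr.b b0_10) (BTr.b b0_11)) (BTr.n (BTr.b b0_12) (BTr.b b0_13)))))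
namespace T0
def l0 : Tr := Tr.L (Pth.l (Pth.l (Pth.l Pth.z)))
def l1 : Tr := Tr.L (Pth.l (Pth.l (Pth.r (Pth.l Pth.z))))
def l2 : Tr := Tr.L (Pth.l (Pth.l (Pth.r (Pth.r Pth.z))))
def l3 : Tr := Tr.L (Pth.l (Pth.r (Pth.l (Pth.l Pth.z))))
def l4 : Tr := Tr.L (Pth.l (Pth.r (Pth.l (Pth.r Pth.z))))
def l5 : Tr := Tr.L (Pth.l (Pth.r (Pth.r (Pth.l Pth.z))))
def l6 : Tr := Tr.L (Pth.l (Pth.r (Pth.r (Pth.r Pth.z))))
def l7 : Tr := Tr.L (Pth.r (Pth.l (Pth.l Pth.z)))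
def l8 : Tr := Tr.L (Pth.r (Pth.l (Pth.r (Pth.l Pth.z))))
def l9 : Tr := Tr.L (Pth.r (Pth.l (Pth.r (Pth.r Pth.z))))
def l10 : Tr := Tr.L (Pth.r (Pth.r (Pth.l (Pth.l Pth.z))))
def l11 : Tr := Tr.L (Pth.r (Pth.r (Pth.l (Pth.r Pth.z))))
def l12 : Tr := Tr.L (Pth.r (Pth.r (Pth.r (Pth.l Pth.z))))
def l13 : Tr := Tr.L (Pth.r (Pth.r (Pth.r (Pth.r Pth.z))))
end T0
def b1_0 : Bx := Bx.mk (St.mk (I.pos (nat_lit 156385280) (nat_lit 237928448)) (I.mix (nat_lit 2768896) (nat_lit 50757632)) (I.mix (nat_lit 3817472) (nat_lit 72007680)) (I.pos (nat_lit 91291648) (nat_lit 236257280)) (I.mix (nat_lit 99631104) (nat_lit 70713344)) (I.mix (nat_lit 71090176) (nat_lit 63340544)) (I.mix (nat_lit 110837760) (nat_lit 94126080)))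
  false (nat_lit 84316970)
def b1_1 : Bx := Bx.mk (St.mk (I.mix (nat_lit 11780096) (nat_lit 141623296)) (I.mix (nat_lit 5668864) (nat_lit 21676032)) (I.mix (nat_lit 15089664) (nat_lit 11829248)) (I.mix (nat_lit 5586944) (nat_lit 88817664)) (I.mix (nat_lit 30375936) (nat_lit 35028992)) (I.mix (nat_lit 30277632) (nat_lit 22626304)) (I.mix (nat_lit 26574848) (nat_lit 18022400)))
  false (nat_lit 13361009)
def b1_2 : Bx := Bx.mk (St.mk (I.pos (nat_lit 113885184) (nat_lit 152485888)) (I.mix (nat_lit 42893312) (nat_lit 7602176)) (I.neg (nat_lit 475136) (nat_lit 52838400)) (I.pos (nat_lit 52477952) (nat_lit 99581952)) (I.mix (nat_lit 87851008) (nat_lit 41517056)) (I.mix (nat_lit 36028416) (nat_lit 82591744)) (I.mix (nat_lit 29229056) (nat_lit 76283904)))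
  false (nat_lit 68975522)
def b1_3 : Bx := Bx.mk (St.mk (I.mix (nat_lit 15155200) (nat_lit 106889216)) (I.mix (nat_lit 21954560) (nat_lit 1982464)) (I.mix (nat_lit 20905984) (nat_lit 1687552)) (I.mix (nat_lit 3801088) (nat_lit 57294848)) (I.mix (nat_lit 36339712) (nat_lit 17055744)) (I.mix (nat_lit 15335424) (nat_lit 32374784)) (I.mix (nat_lit 8749056) (nat_lit 20365312)))
  false (nat_lit 13023990)
def b1_4 : Bx := Bx.mk (St.mk (I.pos (nat_lit 193691648) (nat_lit 249348096)) (I.mix (nat_lit 12451840) (nat_lit 50429952)) (I.mix (nat_lit 49381376) (nat_lit 68993024)) (I.pos (nat_lit 175423488) (nat_lit 253755392)) (I.mix (nat_lit 98648064) (nat_lit 84623360)) (I.mix (nat_lit 92225536) (nat_lit 72630272)) (I.mix (nat_lit 153010176) (nat_lit 116162560)))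
  false (nat_lit 103897063)
def b1_5 : Bx := Bx.mk (St.mk (I.mix (nat_lit 17154048) (nat_lit 94879744)) (I.mix (nat_lit 1851392) (nat_lit 2605056)) (I.mix (nat_lit 6635520) (nat_lit 933888)) (I.mix (nat_lit 3309568) (nat_lit 48660480)) (I.mix (nat_lit 6897664) (nat_lit 2867200)) (I.mix (nat_lit 2326528) (nat_lit 2228224)) (I.mix (nat_lit 802816) (nat_lit 1392640)))
  false (nat_lit 0)
def b1_6 : Bx := Bx.mk (St.mk (I.pos (nat_lit 110641152) (nat_lit 134840320)) (I.mix (nat_lit 7929856) (nat_lit 10649600)) (I.mix (nat_lit 17301504) (nat_lit 1720320)) (I.pos (nat_lit 50102272) (nat_lit 84492288)) (I.mix (nat_lit 31997952) (nat_lit 18743296)) (I.mix (nat_lit 19496960) (nat_lit 20103168)) (I.mix (nat_lit 16482304) (nat_lit 19464192)))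
  false (nat_lit 0)
def b1_7 : Bx := Bx.mk (St.mk (I.pos (nat_lit 211828736) (nat_lit 257048576)) (I.mix (nat_lit 14876672) (nat_lit 17661952)) (I.mix (nat_lit 57638912) (nat_lit 475136)) (I.pos (nat_lit 196788224) (nat_lit 275234816)) (I.mix (nat_lit 92192768) (nat_lit 20463616)) (I.mix (nat_lit 46612480) (nat_lit 51068928)) (I.mix (nat_lit 75694080) (nat_lit 97452032)))
  false (nat_lit 39572947)
def b1_8 : Bx := Bx.mk (St.mk (I.pos (nat_lit 118882304) (nat_lit 184991744)) (I.neg (nat_lit 2392064) (nat_lit 44892160)) (I.neg (nat_lit 8781824) (nat_lit 52871168)) (I.pos (nat_lit 65896448) (nat_lit 142508032)) (I.mix (nat_lit 71892992) (nat_lit 39370752)) (I.mix (nat_lit 40468480) (nat_lit 54067200)) (I.mix (nat_lit 36880384) (nat_lit 56557568)))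
  false (nat_lit 79766596)
def b1_9 : Bx := Bx.mk (St.mk (I.mix (nat_lit 4816896) (nat_lit 120504320)) (I.mix (nat_lit 22970368) (nat_lit 2899968)) (I.mix (nat_lit 21348352) (nat_lit 1605632)) (I.mix (nat_lit 4308992) (nat_lit 69550080)) (I.mix (nat_lit 32669696) (nat_lit 22806528)) (I.mix (nat_lit 19415040) (nat_lit 26394624)) (I.mix (nat_lit 12058624) (nat_lit 18972672)))
  false (nat_lit 19665822)
def b1_10 : Bx := Bx.mk (St.mk (I.pos (nat_lit 171737088) (nat_lit 216825856)) (I.mix (nat_lit 17825792) (nat_lit 48119808)) (I.mix (nat_lit 17039360) (nat_lit 67436544)) (I.pos (nat_lit 118751232) (nat_lit 200933376)) (I.mix (nat_lit 121946112) (nat_lit 51003392)) (I.mix (nat_lit 114294784) (nat_lit 70287360)) (I.mix (nat_lit 130367488) (nat_lit 76677120)))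
  false (nat_lit 0)
def b1_11 : Bx := Bx.mk (St.mk (I.mix (nat_lit 17989632) (nat_lit 138133504)) (I.mix (nat_lit 12468224) (nat_lit 27230208)) (I.mix (nat_lit 15204352) (nat_lit 16842752)) (I.mix (nat_lit 5406720) (nat_lit 85671936)) (I.mix (nat_lit 44580864) (nat_lit 26492928)) (I.mix (nat_lit 38469632) (nat_lit 25755648)) (I.mix (nat_lit 27262976) (nat_lit 18235392)))
  false (nat_lit 24973273)
def b1_12 : Bx := Bx.mk (St.mk (I.pos (nat_lit 152010752) (nat_lit 210681856)) (I.mix (nat_lit 36749312) (nat_lit 9961472)) (I.mix (nat_lit 50184192) (nat_lit 9240576)) (I.pos (nat_lit 96026624) (nat_lit 184811520)) (I.mix (nat_lit 65060864) (nat_lit 58540032)) (I.mix (nat_lit 61620224) (nat_lit 58294272)) (I.mix (nat_lit 68042752) (nat_lit 61734912)))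
  false (nat_lit 109149208)
def b1_13 : Bx := Bx.mk (St.mk (I.pos (nat_lit 172392448) (nat_lit 208388096)) (I.mix (nat_lit 18726912) (nat_lit 23363584)) (I.mix (nat_lit 20905984) (nat_lit 32309248)) (I.pos (nat_lit 122650624) (nat_lit 179355648)) (I.mix (nat_lit 104267776) (nat_lit 61833216)) (I.mix (nat_lit 108806144) (nat_lit 61931520)) (I.mix (nat_lit 126124032) (nat_lit 68993024)))
  false (nat_lit 2387242)
def t1 : BTr := (BTr.n (BTr.n (BTr.n (BTr.b b1_0) (BTr.n (BTr.b b1_1) (BTr.b b1_2))) (BTr.n (BTr.n (BTr.b b1_3) (BTr.b b1_4)) (BTr.n (BTr.b b1_5) (BTr.b b1_6)))) (BTr.n (BTr.n (BTr.b b1_7) (BTr.n (BTr.b b1_8) (BTr.b b1_9))) (BTr.n (BTr.n (BTr.b b1_10) (BTr.b b1_11)) (BTr.n (BTr.b b1_12) (BTr.b b1_13)))))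
namespace T1
def l0 : Tr := Tr.L (Pth.l (Pth.l (Pth.l Pth.z)))
def l1 : Tr := Tr.L (Pth.l (Pth.l (Pth.r (Pth.l Pth.z))))
def l2 : Tr := Tr.L (Pth.l (Pth.l (Pth.r (Pth.r Pth.z))))
def l3 : Tr := Tr.L (Pth.l (Pth.r (Pth.l (Pth.l Pth.z))))
def l4 : Tr := Tr.L (Pth.l (Pth.r (Pth.l (Pth.r Pth.z))))
def l5 : Tr := Tr.L (Pth.l (Pth.r (Pth.r (Pth.l Pth.z))))
def l6 : Tr := Tr.L (Pth.l (Pth.r (Pth.r (Pth.r Pth.z))))
def l7 : Tr := Tr.L (Pth.r (Pth.l (Pth.l Pth.z)))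
def l8 : Tr := Tr.L (Pth.r (Pth.l (Pth.r (Pth.l Pth.z))))
def l9 : Tr := Tr.L (Pth.r (Pth.l (Pth.r (Pth.r Pth.z))))
def l10 : Tr := Tr.L (Pth.r (Pth.r (Pth.l (Pth.l Pth.z))))
def l11 : Tr := Tr.L (Pth.r (Pth.r (Pth.l (Pth.r Pth.z))))
def l12 : Tr := Tr.L (Pth.r (Pth.r (Pth.r (Pth.l Pth.z))))
def l13 : Tr := Tr.L (Pth.r (Pth.r (Pth.r (Pth.r Pth.z))))
end T1
def b2_0 : Bx := Bx.mk (St.mk (I.pos (nat_lit 145539072) (nat_lit 218923008)) (I.mix (nat_lit 5259264) (nat_lit 93929472)) (I.mix (nat_lit 9781248) (nat_lit 76972032)) (I.pos (nat_lit 368885760) (nat_lit 466829312)) (I.mix (nat_lit 149127168) (nat_lit 89980928)) (I.mix (nat_lit 90177536) (nat_lit 83918848)) (I.mix (nat_lit 108625920) (nat_lit 113295360)))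
  false (nat_lit 110071117)
def b2_1 : Bx := Bx.mk (St.mk (I.mix (nat_lit 54214656) (nat_lit 17596416)) (I.mix (nat_lit 15777792) (nat_lit 83574784)) (I.neg (nat_lit 54968320) (nat_lit 80101376)) (I.pos (nat_lit 258883584) (nat_lit 289570816)) (I.mix (nat_lit 46366720) (nat_lit 118112256)) (I.mix (nat_lit 82804736) (nat_lit 63504384)) (I.mix (nat_lit 43204608) (nat_lit 37175296)))
  true (nat_lit 0)
def b2_2 : Bx := Bx.mk (St.mk (I.pos (nat_lit 8765440) (nat_lit 53051392)) (I.neg (nat_lit 30834688) (nat_lit 83574784)) (I.neg (nat_lit 56098816) (nat_lit 80101376)) (I.pos (nat_lit 263536640) (nat_lit 288899072)) (I.mix (nat_lit 118112256) (nat_lit 46366720)) (I.mix (nat_lit 63504384) (nat_lit 82804736)) (I.mix (nat_lit 43204608) (nat_lit 37175296)))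
  false (nat_lit 48228370)
def b2_3 : Bx := Bx.mk (St.mk (I.pos (nat_lit 14893056) (nat_lit 123781120)) (I.neg (nat_lit 7995392) (nat_lit 84901888)) (I.neg (nat_lit 15532032) (nat_lit 89997312)) (I.pos (nat_lit 262586368) (nat_lit 329465856)) (I.mix (nat_lit 120766464) (nat_lit 68976640)) (I.mix (nat_lit 66404352) (nat_lit 84344832)) (I.mix (nat_lit 75169792) (nat_lit 73416704)))
  false (nat_lit 108200597)
def b2_4 : Bx := Bx.mk (St.mk (I.pos (nat_lit 92962816) (nat_lit 193085440)) (I.mix (nat_lit 38305792) (nat_lit 87785472)) (I.mix (nat_lit 49397760) (nat_lit 76136448)) (I.pos (nat_lit 297697280) (nat_lit 433029120)) (I.mix (nat_lit 157286400) (nat_lit 85213184)) (I.mix (nat_lit 135233536) (nat_lit 109002752)) (I.mix (nat_lit 136642560) (nat_lit 127205376)))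
  false (nat_lit 105235392)
def b2_5 : Bx := Bx.mk (St.mk (I.neg (nat_lit 14893056) (nat_lit 123797504)) (I.pos (nat_lit 8093696) (nat_lit 84901888)) (I.neg (nat_lit 15548416) (nat_lit 89997312)) (I.pos (nat_lit 262586368) (nat_lit 329465856)) (I.mix (nat_lit 68976640) (nat_lit 120782848)) (I.mix (nat_lit 84344832) (nat_lit 66420736)) (I.mix (nat_lit 75169792) (nat_lit 73416704)))
  true (nat_lit 0)
def b2_6 : Bx := Bx.mk (St.mk (I.pos (nat_lit 183795712) (nat_lit 289865728)) (I.mix (nat_lit 38944768) (nat_lit 54624256)) (I.mix (nat_lit 212893696) (nat_lit 4882432)) (I.pos (nat_lit 411009024) (nat_lit 584548352)) (I.mix (nat_lit 88670208) (nat_lit 75972608)) (I.mix (nat_lit 68976640) (nat_lit 61980672)) (I.mix (nat_lit 112394240) (nat_lit 133087232)))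
  false (nat_lit 69256109)
def b2_7 : Bx := Bx.mk (St.mk (I.mix (nat_lit 17530880) (nat_lit 38764544)) (I.mix (nat_lit 42237952) (nat_lit 19300352)) (I.neg (nat_lit 55607296) (nat_lit 68403200)) (I.pos (nat_lit 259866624) (nat_lit 275513344)) (I.mix (nat_lit 52625408) (nat_lit 39043072)) (I.mix (nat_lit 36634624) (nat_lit 37683200)) (I.mix (nat_lit 9945088) (nat_lit 16449536)))
  false (nat_lit 0)
def b2_8 : Bx := Bx.mk (St.mk (I.pos (nat_lit 163807232) (nat_lit 220332032)) (I.pos (nat_lit 22872064) (nat_lit 90570752)) (I.mix (nat_lit 37109760) (nat_lit 64258048)) (I.pos (nat_lit 404504576) (nat_lit 461504512)) (I.mix (nat_lit 114393088) (nat_lit 84033536)) (I.mix (nat_lit 85377024) (nat_lit 64847872)) (I.mix (nat_lit 129957888) (nat_lit 102531072)))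
  false (nat_lit 83538963)
def b2_9 : Bx := Bx.mk (St.mk (I.pos (nat_lit 11304960) (nat_lit 43188224)) (I.neg (nat_lit 20398080) (nat_lit 68829184)) (I.neg (nat_lit 56639488) (nat_lit 77348864)) (I.pos (nat_lit 263454720) (nat_lit 281755648)) (I.mix (nat_lit 81690624) (nat_lit 37814272)) (I.mix (nat_lit 38961152) (nat_lit 52346880)) (I.mix (nat_lit 19234816) (nat_lit 18694144)))
  false (nat_lit 0)
def t2 : BTr := (BTr.n (BTr.n (BTr.n (BTr.b b2_0) (BTr.b b2_1)) (BTr.n (BTr.b b2_2) (BTr.n (BTr.b b2_3) (BTr.b b2_4)))) (BTr.n (BTr.n (BTr.b b2_5) (BTr.b b2_6)) (BTr.n (BTr.b b2_7) (BTr.n (BTr.b b2_8) (BTr.b b2_9)))))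
namespace T2
def l0 : Tr := Tr.L (Pth.l (Pth.l (Pth.l Pth.z)))
def l1 : Tr := Tr.L (Pth.l (Pth.l (Pth.r Pth.z)))
def l2 : Tr := Tr.L (Pth.l (Pth.r (Pth.l Pth.z)))
def l3 : Tr := Tr.L (Pth.l (Pth.r (Pth.r (Pth.l Pth.z))))
def l4 : Tr := Tr.L (Pth.l (Pth.r (Pth.r (Pth.r Pth.z))))
def l5 : Tr := Tr.L (Pth.r (Pth.l (Pth.l Pth.z)))
def l6 : Tr := Tr.L (Pth.r (Pth.l (Pth.r Pth.z)))
def l7 : Tr := Tr.L (Pth.r (Pth.r (Pth.l Pth.z)))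
def l8 : Tr := Tr.L (Pth.r (Pth.r (Pth.r (Pth.l Pth.z))))
def l9 : Tr := Tr.L (Pth.r (Pth.r (Pth.r (Pth.r Pth.z))))
end T2
def b3_0 : Bx := Bx.mk (St.mk (I.pos (nat_lit 156680192) (nat_lit 234782720)) (I.mix (nat_lit 2359296) (nat_lit 44285952)) (I.mix (nat_lit 5308416) (nat_lit 101564416)) (I.pos (nat_lit 91144192) (nat_lit 211288064)) (I.mix (nat_lit 105676800) (nat_lit 66600960)) (I.mix (nat_lit 80969728) (nat_lit 76365824)) (I.mix (nat_lit 116588544) (nat_lit 102924288)))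
  false (nat_lit 45752193)
def b3_1 : Bx := Bx.mk (St.mk (I.pos (nat_lit 121569280) (nat_lit 176144384)) (I.neg (nat_lit 4341760) (nat_lit 51019776)) (I.mix (nat_lit 39092224) (nat_lit 11567104)) (I.pos (nat_lit 75743232) (nat_lit 129826816)) (I.mix (nat_lit 66191360) (nat_lit 55590912)) (I.mix (nat_lit 48414720) (nat_lit 57311232)) (I.mix (nat_lit 44679168) (nat_lit 61210624)))
  false (nat_lit 66664304)
def b3_2 : Bx := Bx.mk (St.mk (I.mix (nat_lit 10469376) (nat_lit 116703232)) (I.mix (nat_lit 23707648) (nat_lit 1916928)) (I.mix (nat_lit 11042816) (nat_lit 7847936)) (I.mix (nat_lit 4194304) (nat_lit 64307200)) (I.mix (nat_lit 27394048) (nat_lit 29261824)) (I.mix (nat_lit 18579456) (nat_lit 26017792)) (I.mix (nat_lit 11829248) (nat_lit 18120704)))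
  false (nat_lit 3137427)
def b3_3 : Bx := Bx.mk (St.mk (I.pos (nat_lit 165232640) (nat_lit 209420288)) (I.mix (nat_lit 17907712) (nat_lit 43581440)) (I.pos (nat_lit 10207232) (nat_lit 93405184)) (I.pos (nat_lit 104792064) (nat_lit 179142656)) (I.mix (nat_lit 139427840) (nat_lit 59834368)) (I.mix (nat_lit 140951552) (nat_lit 63881216)) (I.mix (nat_lit 166887424) (nat_lit 57344000)))
  false (nat_lit 68490009)
def b3_4 : Bx := Bx.mk (St.mk (I.mix (nat_lit 17072128) (nat_lit 133758976)) (I.mix (nat_lit 12500992) (nat_lit 26558464)) (I.mix (nat_lit 2162688) (nat_lit 31719424)) (I.mix (nat_lit 5062656) (nat_lit 79626240)) (I.mix (nat_lit 55164928) (nat_lit 30670848)) (I.mix (nat_lit 50806784) (nat_lit 25870336)) (I.mix (nat_lit 37863424) (nat_lit 16384000)))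
  false (nat_lit 10163101)
def b3_5 : Bx := Bx.mk (St.mk (I.pos (nat_lit 164560896) (nat_lit 207716352)) (I.mix (nat_lit 38862848) (nat_lit 22069248)) (I.mix (nat_lit 19513344) (nat_lit 61702144)) (I.pos (nat_lit 104480768) (nat_lit 173457408)) (I.mix (nat_lit 129679360) (nat_lit 76677120)) (I.mix (nat_lit 131645440) (nat_lit 72056832)) (I.mix (nat_lit 153026560) (nat_lit 68812800)))
  false (nat_lit 89315581)
def b3_6 : Bx := Bx.mk (St.mk (I.mix (nat_lit 18579456) (nat_lit 118980608)) (I.mix (nat_lit 15761408) (nat_lit 2523136)) (I.mix (nat_lit 3473408) (nat_lit 8011776)) (I.mix (nat_lit 4341760) (nat_lit 66781184)) (I.mix (nat_lit 23298048) (nat_lit 14483456)) (I.mix (nat_lit 12943360) (nat_lit 16269312)) (I.mix (nat_lit 9633792) (nat_lit 10305536)))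
  false (nat_lit 0)
def b3_7 : Bx := Bx.mk (St.mk (I.pos (nat_lit 146456576) (nat_lit 181862400)) (I.neg (nat_lit 835584) (nat_lit 35110912)) (I.mix (nat_lit 15958016) (nat_lit 19054592)) (I.pos (nat_lit 92389376) (nat_lit 137854976)) (I.mix (nat_lit 60669952) (nat_lit 38273024)) (I.mix (nat_lit 31997952) (nat_lit 44777472)) (I.mix (nat_lit 38699008) (nat_lit 44056576)))
  false (nat_lit 0)
def b3_8 : Bx := Bx.mk (St.mk (I.pos (nat_lit 161267712) (nat_lit 191152128)) (I.neg (nat_lit 7241728) (nat_lit 34144256)) (I.mix (nat_lit 16203776) (nat_lit 15253504)) (I.pos (nat_lit 106086400) (nat_lit 153419776)) (I.mix (nat_lit 36159488) (nat_lit 28426240)) (I.mix (nat_lit 25624576) (nat_lit 21889024)) (I.mix (nat_lit 27721728) (nat_lit 23117824)))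
  false (nat_lit 0)
def b3_9 : Bx := Bx.mk (St.mk (I.pos (nat_lit 43483136) (nat_lit 144490496)) (I.mix (nat_lit 8273920) (nat_lit 19054592)) (I.mix (nat_lit 671744) (nat_lit 25526272)) (I.pos (nat_lit 5865472) (nat_lit 93880320)) (I.mix (nat_lit 34340864) (nat_lit 27508736)) (I.mix (nat_lit 30179328) (nat_lit 23035904)) (I.mix (nat_lit 26296320) (nat_lit 18284544)))
  false (nat_lit 0)
def b3_10 : Bx := Bx.mk (St.mk (I.pos (nat_lit 115523584) (nat_lit 161693696)) (I.mix (nat_lit 48152576) (nat_lit 8388608)) (I.mix (nat_lit 35586048) (nat_lit 17186816)) (I.pos (nat_lit 50872320) (nat_lit 109215744)) (I.mix (nat_lit 75644928) (nat_lit 34668544)) (I.mix (nat_lit 33832960) (nat_lit 66371584)) (I.mix (nat_lit 29458432) (nat_lit 54951936)))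
  false (nat_lit 38916421)
def b3_11 : Bx := Bx.mk (St.mk (I.mix (nat_lit 16416768) (nat_lit 110968832)) (I.mix (nat_lit 23920640) (nat_lit 3686400)) (I.mix (nat_lit 10076160) (nat_lit 6340608)) (I.mix (nat_lit 4014080) (nat_lit 61145088)) (I.mix (nat_lit 28639232) (nat_lit 14598144)) (I.mix (nat_lit 14991360) (nat_lit 24133632)) (I.mix (nat_lit 8781824) (nat_lit 14008320)))
  false (nat_lit 0)
def b3_12 : Bx := Bx.mk (St.mk (I.pos (nat_lit 199213056) (nat_lit 282591232)) (I.mix (nat_lit 28508160) (nat_lit 31195136)) (I.mix (nat_lit 24625152) (nat_lit 84836352)) (I.pos (nat_lit 159989760) (nat_lit 323977216)) (I.mix (nat_lit 79790080) (nat_lit 51462144)) (I.mix (nat_lit 53821440) (nat_lit 45858816)) (I.mix (nat_lit 95649792) (nat_lit 73924608)))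
  false (nat_lit 54521149)
def b3_13 : Bx := Bx.mk (St.mk (I.pos (nat_lit 186908672) (nat_lit 232226816)) (I.pos (nat_lit 7258112) (nat_lit 42008576)) (I.pos (nat_lit 34258944) (nat_lit 97992704)) (I.pos (nat_lit 153698304) (nat_lit 208060416)) (I.mix (nat_lit 85458944) (nat_lit 68059136)) (I.mix (nat_lit 80510976) (nat_lit 62357504)) (I.mix (nat_lit 122667008) (nat_lit 85409792)))
  false (nat_lit 42609808)
def t3 : BTr := (BTr.n (BTr.n (BTr.n (BTr.b b3_0) (BTr.n (BTr.b b3_1) (BTr.b b3_2))) (BTr.n (BTr.n (BTr.b b3_3) (BTr.b b3_4)) (BTr.n (BTr.b b3_5) (BTr.b b3_6)))) (BTr.n (BTr.n (BTr.b b3_7) (BTr.n (BTr.b b3_8) (BTr.b b3_9))) (BTr.n (BTr.n (BTr.b b3_10) (BTr.b b3_11)) (BTr.n (BTr.b b3_12) (BTr.b b3_13)))))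
namespace T3
def l0 : Tr := Tr.L (Pth.l (Pth.l (Pth.l Pth.z)))
def l1 : Tr := Tr.L (Pth.l (Pth.l (Pth.r (Pth.l Pth.z))))
def l2 : Tr := Tr.L (Pth.l (Pth.l (Pth.r (Pth.r Pth.z))))
def l3 : Tr := Tr.L (Pth.l (Pth.r (Pth.l (Pth.l Pth.z))))
def l4 : Tr := Tr.L (Pth.l (Pth.r (Pth.l (Pth.r Pth.z))))
def l5 : Tr := Tr.L (Pth.l (Pth.r (Pth.r (Pth.l Pth.z))))
def l6 : Tr := Tr.L (Pth.l (Pth.r (Pth.r (Pth.r Pth.z))))
def l7 : Tr := Tr.L (Pth.r (Pth.l (Pth.l Pth.z)))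
def l8 : Tr := Tr.L (Pth.r (Pth.l (Pth.r (Pth.l Pth.z))))
def l9 : Tr := Tr.L (Pth.r (Pth.l (Pth.r (Pth.r Pth.z))))
def l10 : Tr := Tr.L (Pth.r (Pth.r (Pth.l (Pth.l Pth.z))))
def l11 : Tr := Tr.L (Pth.r (Pth.r (Pth.l (Pth.r Pth.z))))
def l12 : Tr := Tr.L (Pth.r (Pth.r (Pth.r (Pth.l Pth.z))))
def l13 : Tr := Tr.L (Pth.r (Pth.r (Pth.r (Pth.r Pth.z))))
end T3
def b4_0 : Bx := Bx.mk (St.mk (I.pos (nat_lit 129122304) (nat_lit 219365376)) (I.mix (nat_lit 4767744) (nat_lit 88260608)) (I.mix (nat_lit 6455296) (nat_lit 119275520)) (I.pos (nat_lit 359448576) (nat_lit 449773568)) (I.mix (nat_lit 168525824) (nat_lit 86114304)) (I.mix (nat_lit 103989248) (nat_lit 81494016)) (I.mix (nat_lit 107364352) (nat_lit 106463232)))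
  false (nat_lit 224339290)
def b4_1 : Bx := Bx.mk (St.mk (I.pos (nat_lit 30081024) (nat_lit 129531904)) (I.neg (nat_lit 6848512) (nat_lit 90832896)) (I.mix (nat_lit 55820288) (nat_lit 26394624)) (I.pos (nat_lit 272433152) (nat_lit 331464704)) (I.mix (nat_lit 104054784) (nat_lit 71532544)) (I.mix (nat_lit 73154560) (nat_lit 68681728)) (I.mix (nat_lit 71942144) (nat_lit 55869440)))
  false (nat_lit 155593584)
def b4_2 : Bx := Bx.mk (St.mk (I.pos (nat_lit 93749248) (nat_lit 182190080)) (I.mix (nat_lit 39239680) (nat_lit 84525056)) (I.mix (nat_lit 8241152) (nat_lit 121749504)) (I.pos (nat_lit 298647552) (nat_lit 408207360)) (I.mix (nat_lit 179716096) (nat_lit 74219520)) (I.mix (nat_lit 143720448) (nat_lit 105463808)) (I.mix (nat_lit 152403968) (nat_lit 132022272)))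
  false (nat_lit 188365291)
def b4_3 : Bx := Bx.mk (St.mk (I.neg (nat_lit 29868032) (nat_lit 133332992)) (I.mix (nat_lit 294912) (nat_lit 90849280)) (I.mix (nat_lit 55820288) (nat_lit 33783808)) (I.pos (nat_lit 272449536) (nat_lit 336592896)) (I.mix (nat_lit 71532544) (nat_lit 104054784)) (I.mix (nat_lit 68698112) (nat_lit 73154560)) (I.mix (nat_lit 71942144) (nat_lit 55885824)))
  true (nat_lit 16130470)
def b4_4 : Bx := Bx.mk (St.mk (I.mix (nat_lit 63373312) (nat_lit 11911168)) (I.mix (nat_lit 12271616) (nat_lit 89047040)) (I.neg (nat_lit 22102016) (nat_lit 45547520)) (I.pos (nat_lit 262717440) (nat_lit 296009728)) (I.mix (nat_lit 63586304) (nat_lit 101892096)) (I.mix (nat_lit 84639744) (nat_lit 72925184)) (I.mix (nat_lit 40452096) (nat_lit 30736384)))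
  true (nat_lit 0)
def b4_5 : Bx := Bx.mk (St.mk (I.pos (nat_lit 19267584) (nat_lit 61767680)) (I.neg (nat_lit 34258944) (nat_lit 89047040)) (I.neg (nat_lit 23805952) (nat_lit 45547520)) (I.pos (nat_lit 270385152) (nat_lit 296026112)) (I.mix (nat_lit 101892096) (nat_lit 63569920)) (I.mix (nat_lit 72941568) (nat_lit 77201408)) (I.mix (nat_lit 40452096) (nat_lit 30736384)))
  false (nat_lit 100276034)
def b4_6 : Bx := Bx.mk (St.mk (I.pos (nat_lit 183336960) (nat_lit 289505280)) (I.mix (nat_lit 22921216) (nat_lit 63209472)) (I.mix (nat_lit 100843520) (nat_lit 69976064)) (I.pos (nat_lit 405307392) (nat_lit 573751296)) (I.mix (nat_lit 81494016) (nat_lit 72384512)) (I.mix (nat_lit 64978944) (nat_lit 60096512)) (I.mix (nat_lit 110198784) (nat_lit 90079232)))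
  false (nat_lit 201222312)
def b4_7 : Bx := Bx.mk (St.mk (I.mix (nat_lit 10829824) (nat_lit 51855360)) (I.mix (nat_lit 52019200) (nat_lit 10256384)) (I.neg (nat_lit 22675456) (nat_lit 34832384)) (I.pos (nat_lit 263897088) (nat_lit 282951680)) (I.mix (nat_lit 54296576) (nat_lit 42565632)) (I.mix (nat_lit 38486016) (nat_lit 37814272)) (I.mix (nat_lit 11812864) (nat_lit 12369920)))
  false (nat_lit 0)
def b4_8 : Bx := Bx.mk (St.mk (I.pos (nat_lit 148471808) (nat_lit 204668928)) (I.pos (nat_lit 26492928) (nat_lit 83918848)) (I.pos (nat_lit 23625728) (nat_lit 110198784)) (I.pos (nat_lit 376356864) (nat_lit 432242688)) (I.mix (nat_lit 127107072) (nat_lit 94240768)) (I.mix (nat_lit 101629952) (nat_lit 70762496)) (I.mix (nat_lit 139214848) (nat_lit 95682560)))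
  false (nat_lit 129209689)
def b4_9 : Bx := Bx.mk (St.mk (I.pos (nat_lit 22757376) (nat_lit 56410112)) (I.neg (nat_lit 25214976) (nat_lit 76267520)) (I.neg (nat_lit 23003136) (nat_lit 43139072)) (I.pos (nat_lit 271187968) (nat_lit 288456704)) (I.mix (nat_lit 97796096) (nat_lit 54542336)) (I.mix (nat_lit 49676288) (nat_lit 84639744)) (I.mix (nat_lit 27312128) (nat_lit 24182784)))
  false (nat_lit 102066652)
def t4 : BTr := (BTr.n (BTr.n (BTr.n (BTr.b b4_0) (BTr.b b4_1)) (BTr.n (BTr.b b4_2) (BTr.n (BTr.b b4_3) (BTr.b b4_4)))) (BTr.n (BTr.n (BTr.b b4_5) (BTr.b b4_6)) (BTr.n (BTr.b b4_7) (BTr.n (BTr.b b4_8) (BTr.b b4_9)))))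
namespace T4
def l0 : Tr := Tr.L (Pth.l (Pth.l (Pth.l Pth.z)))
def l1 : Tr := Tr.L (Pth.l (Pth.l (Pth.r Pth.z)))
def l2 : Tr := Tr.L (Pth.l (Pth.r (Pth.l Pth.z)))
def l3 : Tr := Tr.L (Pth.l (Pth.r (Pth.r (Pth.l Pth.z))))
def l4 : Tr := Tr.L (Pth.l (Pth.r (Pth.r (Pth.r Pth.z))))
def l5 : Tr := Tr.L (Pth.r (Pth.l (Pth.l Pth.z)))
def l6 : Tr := Tr.L (Pth.r (Pth.l (Pth.r Pth.z)))
def l7 : Tr := Tr.L (Pth.r (Pth.r (Pth.l Pth.z)))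
def l8 : Tr := Tr.L (Pth.r (Pth.r (Pth.r (Pth.l Pth.z))))
def l9 : Tr := Tr.L (Pth.r (Pth.r (Pth.r (Pth.r Pth.z))))
end T4
def b5_0 : Bx := Bx.mk (St.mk (I.pos (nat_lit 142934016) (nat_lit 224018432)) (I.mix (nat_lit 2932736) (nat_lit 54673408)) (I.mix (nat_lit 6569984) (nat_lit 121454592)) (I.pos (nat_lit 180584448) (nat_lit 268877824)) (I.mix (nat_lit 120143872) (nat_lit 72482816)) (I.mix (nat_lit 89096192) (nat_lit 83623936)) (I.mix (nat_lit 115163136) (nat_lit 97222656)))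
  false (nat_lit 70646477)
def b5_1 : Bx := Bx.mk (St.mk (I.pos (nat_lit 99123200) (nat_lit 164184064)) (I.neg (nat_lit 7634944) (nat_lit 62210048)) (I.mix (nat_lit 28917760) (nat_lit 30998528)) (I.pos (nat_lit 136380416) (nat_lit 187105280)) (I.mix (nat_lit 67305472) (nat_lit 62373888)) (I.mix (nat_lit 49037312) (nat_lit 54804480)) (I.mix (nat_lit 39370752) (nat_lit 49086464)))
  false (nat_lit 62621737)
def b5_2 : Bx := Bx.mk (St.mk (I.mix (nat_lit 24379392) (nat_lit 45056000)) (I.mix (nat_lit 31817728) (nat_lit 5570560)) (I.pos (nat_lit 4227072) (nat_lit 18333696)) (I.pos (nat_lit 85639168) (nat_lit 97927168)) (I.mix (nat_lit 25673728) (nat_lit 42188800)) (I.mix (nat_lit 21692416) (nat_lit 31588352)) (I.mix (nat_lit 7536640) (nat_lit 12075008)))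
  false (nat_lit 0)
def b5_3 : Bx := Bx.mk (St.mk (I.pos (nat_lit 146997248) (nat_lit 198459392)) (I.mix (nat_lit 6651904) (nat_lit 54280192)) (I.pos (nat_lit 39419904) (nat_lit 113983488)) (I.pos (nat_lit 167378944) (nat_lit 230031360)) (I.mix (nat_lit 137035776) (nat_lit 47054848)) (I.mix (nat_lit 123846656) (nat_lit 70516736)) (I.mix (nat_lit 129433600) (nat_lit 52772864)))
  false (nat_lit 82005645)
def b5_4 : Bx := Bx.mk (St.mk (I.mix (nat_lit 47661056) (nat_lit 70320128)) (I.mix (nat_lit 10305536) (nat_lit 32325632)) (I.pos (nat_lit 3522560) (nat_lit 30326784)) (I.pos (nat_lit 85426176) (nat_lit 106921984)) (I.mix (nat_lit 49922048) (nat_lit 26640384)) (I.mix (nat_lit 38551552) (nat_lit 22593536)) (I.mix (nat_lit 15925248) (nat_lit 11730944)))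
  false (nat_lit 0)
def b5_5 : Bx := Bx.mk (St.mk (I.pos (nat_lit 134332416) (nat_lit 161873920)) (I.neg (nat_lit 5636096) (nat_lit 35700736)) (I.pos (nat_lit 3391488) (nat_lit 35684352)) (I.pos (nat_lit 158007296) (nat_lit 184647680)) (I.mix (nat_lit 52051968) (nat_lit 47988736)) (I.mix (nat_lit 31719424) (nat_lit 44875776)) (I.mix (nat_lit 34996224) (nat_lit 38125568)))
  false (nat_lit 334152)
def b5_6 : Bx := Bx.mk (St.mk (I.mix (nat_lit 61358080) (nat_lit 49889280)) (I.mix (nat_lit 10469376) (nat_lit 11288576)) (I.pos (nat_lit 10829824) (nat_lit 21299200)) (I.pos (nat_lit 86228992) (nat_lit 101695488)) (I.mix (nat_lit 26640384) (nat_lit 21643264)) (I.mix (nat_lit 19775488) (nat_lit 20348928)) (I.mix (nat_lit 8749056) (nat_lit 7847936)))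
  false (nat_lit 0)
def b5_7 : Bx := Bx.mk (St.mk (I.pos (nat_lit 146128896) (nat_lit 173703168)) (I.neg (nat_lit 10960896) (nat_lit 34816000)) (I.pos (nat_lit 3719168) (nat_lit 30949376)) (I.pos (nat_lit 169852928) (nat_lit 199557120)) (I.mix (nat_lit 29294592) (nat_lit 36569088)) (I.mix (nat_lit 29736960) (nat_lit 21430272)) (I.mix (nat_lit 27869184) (nat_lit 21364736)))
  false (nat_lit 0)
def b5_8 : Bx := Bx.mk (St.mk (I.pos (nat_lit 148226048) (nat_lit 189612032)) (I.mix (nat_lit 36241408) (nat_lit 23707648)) (I.pos (nat_lit 3194880) (nat_lit 76955648)) (I.pos (nat_lit 168755200) (nat_lit 216514560)) (I.mix (nat_lit 106905600) (nat_lit 70254592)) (I.mix (nat_lit 108822528) (nat_lit 70746112)) (I.mix (nat_lit 107429888) (nat_lit 60702720)))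
  false (nat_lit 81810982)
def b5_9 : Bx := Bx.mk (St.mk (I.mix (nat_lit 29802496) (nat_lit 99827712)) (I.mix (nat_lit 6750208) (nat_lit 31064064)) (I.pos (nat_lit 5046272) (nat_lit 31784960)) (I.pos (nat_lit 83509248) (nat_lit 123584512)) (I.mix (nat_lit 49971200) (nat_lit 38928384)) (I.mix (nat_lit 46874624) (nat_lit 28540928)) (I.mix (nat_lit 29720576) (nat_lit 17809408)))
  false (nat_lit 3843073)
def b5_10 : Bx := Bx.mk (St.mk (I.pos (nat_lit 81723392) (nat_lit 133218304)) (I.mix (nat_lit 64798720) (nat_lit 9781248)) (I.mix (nat_lit 28983296) (nat_lit 19218432)) (I.pos (nat_lit 113541120) (nat_lit 158121984)) (I.mix (nat_lit 68960256) (nat_lit 51003392)) (I.mix (nat_lit 42074112) (nat_lit 69353472)) (I.mix (nat_lit 27000832) (nat_lit 44285952)))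
  false (nat_lit 48226125)
def b5_11 : Bx := Bx.mk (St.mk (I.mix (nat_lit 48480256) (nat_lit 27033600)) (I.mix (nat_lit 30736384) (nat_lit 5783552)) (I.pos (nat_lit 5488640) (nat_lit 20086784)) (I.pos (nat_lit 83755008) (nat_lit 97615872)) (I.mix (nat_lit 30851072) (nat_lit 37584896)) (I.mix (nat_lit 23019520) (nat_lit 35766272)) (I.mix (nat_lit 13647872) (nat_lit 9928704)))
  false (nat_lit 0)
def b5_12 : Bx := Bx.mk (St.mk (I.pos (nat_lit 191021056) (nat_lit 284884992)) (I.mix (nat_lit 20054016) (nat_lit 40419328)) (I.mix (nat_lit 16384) (nat_lit 104775680)) (I.pos (nat_lit 231669760) (nat_lit 387710976)) (I.mix (nat_lit 82231296) (nat_lit 71417856)) (I.mix (nat_lit 69828608) (nat_lit 49954816)) (I.mix (nat_lit 115703808) (nat_lit 79478784)))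
  false (nat_lit 116021309)
def b5_13 : Bx := Bx.mk (St.mk (I.pos (nat_lit 170164224) (nat_lit 220119040)) (I.pos (nat_lit 11157504) (nat_lit 51232768)) (I.pos (nat_lit 51642368) (nat_lit 116539392)) (I.pos (nat_lit 210190336) (nat_lit 258048000)) (I.mix (nat_lit 108953600) (nat_lit 89899008)) (I.mix (nat_lit 105267200) (nat_lit 70270976)) (I.mix (nat_lit 149962752) (nat_lit 82427904)))
  false (nat_lit 74789594)
def t5 : BTr := (BTr.n (BTr.n (BTr.n (BTr.b b5_0) (BTr.n (BTr.b b5_1) (BTr.b b5_2))) (BTr.n (BTr.n (BTr.b b5_3) (BTr.b b5_4)) (BTr.n (BTr.b b5_5) (BTr.b b5_6)))) (BTr.n (BTr.n (BTr.b b5_7) (BTr.n (BTr.b b5_8) (BTr.b b5_9))) (BTr.n (BTr.n (BTr.b b5_10) (BTr.b b5_11)) (BTr.n (BTr.b b5_12) (BTr.b b5_13)))))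
namespace T5
def l0 : Tr := Tr.L (Pth.l (Pth.l (Pth.l Pth.z)))
def l1 : Tr := Tr.L (Pth.l (Pth.l (Pth.r (Pth.l Pth.z))))
def l2 : Tr := Tr.L (Pth.l (Pth.l (Pth.r (Pth.r Pth.z))))
def l3 : Tr := Tr.L (Pth.l (Pth.r (Pth.l (Pth.l Pth.z))))
def l4 : Tr := Tr.L (Pth.l (Pth.r (Pth.l (Pth.r Pth.z))))
def l5 : Tr := Tr.L (Pth.l (Pth.r (Pth.r (Pth.l Pth.z))))
def l6 : Tr := Tr.L (Pth.l (Pth.r (Pth.r (Pth.r Pth.z))))
def l7 : Tr := Tr.L (Pth.r (Pth.l (Pth.l Pth.z)))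
def l8 : Tr := Tr.L (Pth.r (Pth.l (Pth.r (Pth.l Pth.z))))
def l9 : Tr := Tr.L (Pth.r (Pth.l (Pth.r (Pth.r Pth.z))))
def l10 : Tr := Tr.L (Pth.r (Pth.r (Pth.l (Pth.l Pth.z))))
def l11 : Tr := Tr.L (Pth.r (Pth.r (Pth.l (Pth.r Pth.z))))
def l12 : Tr := Tr.L (Pth.r (Pth.r (Pth.r (Pth.l Pth.z))))
def l13 : Tr := Tr.L (Pth.r (Pth.r (Pth.r (Pth.r Pth.z))))
end T5
theorem bx0_0 : BoxOK sI cl4 cl6 cl13 t2 t4 b0_0 :=
  box_mk (TrL.c (I.pos (nat_lit 0) (nat_lit 0)) (xa (xb T2.l0 (xa (xb T2.l0 T2.l0) T2.l0)) (xb T2.l0 (xa (xb T2.l0 T2.l0) (xb T2.l0 T2.l0))))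
  (TrL.c (I.pos (nat_lit 0) (nat_lit 0)) (xa T4.l1 T4.l1)
  (TrL.c (I.pos (nat_lit 0) (nat_lit 0)) T2.l1
  (TrL.c (I.pos (nat_lit 0) (nat_lit 0)) T4.l2
  (TrL.c (I.pos (nat_lit 0) (nat_lit 0)) (xa T2.l2 T2.l2)
  (TrL.c (I.pos (nat_lit 0) (nat_lit 0)) (xa T4.l3 T4.l3)
  TrL.n)))))) (by decide +kernel)
theorem bx0_1 : BoxOK sI cl4 cl6 cl13 t2 t4 b0_1 :=
  box_mk (TrL.c (I.pos (nat_lit 0) (nat_lit 0)) (xa (xa (xb T2.l6 T2.l6) T2.l6) (xa T2.l6 (xb T2.l6 T2.l6)))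
  (TrL.c (I.pos (nat_lit 0) (nat_lit 0)) (xa T4.l1 T4.l1)
  (TrL.c (I.pos (nat_lit 0) (nat_lit 0)) T2.l1
  (TrL.c (I.pos (nat_lit 0) (nat_lit 0)) (xa T4.l2 T4.l2)
  (TrL.c (I.pos (nat_lit 0) (nat_lit 0)) T2.l7
  (TrL.c (I.pos (nat_lit 0) (nat_lit 0)) T4.l3
  TrL.n)))))) (by decide +kernel)
theorem bx0_2 : BoxOK sI cl4 cl6 cl13 t2 t4 b0_2 :=
  box_mk (TrL.c (I.pos (nat_lit 0) (nat_lit 0)) (xb (xa T2.l6 T2.l6) (xa T2.l6 T2.l6))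
  (TrL.c (I.pos (nat_lit 0) (nat_lit 0)) T4.l1
  (TrL.c (I.pos (nat_lit 0) (nat_lit 0)) T2.l1
  (TrL.c (I.pos (nat_lit 0) (nat_lit 0)) T4.l2
  (TrL.c (I.pos (nat_lit 0) (nat_lit 0)) T2.l7
  (TrL.c (I.pos (nat_lit 0) (nat_lit 0)) T4.l3
  TrL.n)))))) (by decide +kernel)
theorem bx0_3 : BoxOK sI cl4 cl6 cl13 t2 t4 b0_3 :=
  box_mk (TrL.c (I.pos (nat_lit 0) (nat_lit 0)) (xa (xb T2.l6 T2.l6) T2.l6)
  (TrL.c (I.pos (nat_lit 0) (nat_lit 0)) T4.l2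
  (TrL.c (I.pos (nat_lit 0) (nat_lit 0)) T2.l7
  (TrL.c (I.pos (nat_lit 0) (nat_lit 0)) T4.l1
  (TrL.c (I.pos (nat_lit 0) (nat_lit 0)) T2.l7
  (TrL.c (I.pos (nat_lit 0) (nat_lit 0)) T4.l3
  TrL.n)))))) (by decide +kernel)
theorem bx0_4 : BoxOK sI cl4 cl6 cl13 t2 t4 b0_4 :=
  box_mk (TrL.c (I.pos (nat_lit 0) (nat_lit 0)) T2.l6
  (TrL.c (I.pos (nat_lit 0) (nat_lit 0)) T4.l1
  (TrL.c (I.pos (nat_lit 0) (nat_lit 0)) T2.l1
  (TrL.c (I.pos (nat_lit 0) (nat_lit 0)) T4.l2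
  (TrL.c (I.pos (nat_lit 0) (nat_lit 0)) T2.l7
  (TrL.c (I.pos (nat_lit 0) (nat_lit 0)) T4.l3
  TrL.n)))))) (by decide +kernel)
theorem bx0_5 : BoxOK sI cl4 cl6 cl13 t2 t4 b0_5 :=
  box_mk (TrL.c (I.pos (nat_lit 0) (nat_lit 0)) (xa T2.l6 T2.l6)
  (TrL.c (I.pos (nat_lit 0) (nat_lit 0)) T4.l2
  (TrL.c (I.pos (nat_lit 0) (nat_lit 0)) T2.l7
  (TrL.c (I.pos (nat_lit 0) (nat_lit 0)) T4.l1
  (TrL.c (I.pos (nat_lit 0) (nat_lit 0)) T2.l7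
  (TrL.c (I.pos (nat_lit 0) (nat_lit 0)) T4.l3
  TrL.n)))))) (by decide +kernel)
theorem bx0_6 : BoxOK sI cl4 cl6 cl13 t2 t4 b0_6 :=
  box_mk (TrL.c (I.pos (nat_lit 0) (nat_lit 0)) (xa T2.l0 T2.l4)
  (TrL.c (I.pos (nat_lit 0) (nat_lit 0)) (xa T4.l1 T4.l1)
  (TrL.c (I.pos (nat_lit 0) (nat_lit 0)) T2.l1
  (TrL.c (I.pos (nat_lit 0) (nat_lit 0)) (xa T4.l2 T4.l2)
  (TrL.c (I.pos (nat_lit 0) (nat_lit 0)) T2.l2
  (TrL.c (I.pos (nat_lit 0) (nat_lit 0)) (xa T4.l3 T4.l3)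
  TrL.n)))))) (by decide +kernel)
theorem bx0_7 : BoxOK sI cl4 cl6 cl13 t2 t4 b0_7 :=
  box_mk (TrL.c (I.pos (nat_lit 0) (nat_lit 0)) (xb (xa (xb T2.l0 T2.l0) T2.l4) (xa (xb (xa T2.l0 T2.l0) (xa T2.l0 T2.l0)) (xb (xa T2.l0 T2.l0) (xa T2.l0 T2.l0))))
  (TrL.c (I.pos (nat_lit 0) (nat_lit 0)) (xb (xa T4.l1 T4.l1) (xa T4.l1 (xb T4.l1 T4.l1)))
  (TrL.c (I.pos (nat_lit 0) (nat_lit 0)) (xc (xb T2.l5 T2.l1) (xb T2.l5 T2.l1))
  (TrL.c (I.pos (nat_lit 0) (nat_lit 0)) (xb (xa (xb T4.l2 T4.l2) (xb (xa T4.l2 T4.l2) T4.l2)) (xa T4.l2 (xb T4.l2 (xa T4.l2 T4.l2))))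
  (TrL.c (I.pos (nat_lit 0) (nat_lit 0)) (xc (xb T2.l3 T2.l2) (xb T2.l3 T2.l2))
  (TrL.c (I.pos (nat_lit 0) (nat_lit 0)) (xb (xa T4.l3 T4.l3) (xa T4.l3 (xb T4.l3 T4.l3)))
  TrL.n)))))) (by decide +kernel)
theorem bx0_8 : BoxOK sI cl4 cl6 cl13 t2 t4 b0_8 :=
  box_mk (TrL.c (I.pos (nat_lit 0) (nat_lit 0)) (xa (xb T2.l6 T2.l6) (xb (xa T2.l6 T2.l6) T2.l6))
  (TrL.c (I.pos (nat_lit 0) (nat_lit 0)) T4.l1
  (TrL.c (I.pos (nat_lit 0) (nat_lit 0)) T2.l1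
  (TrL.c (I.pos (nat_lit 0) (nat_lit 0)) T4.l2
  (TrL.c (I.pos (nat_lit 0) (nat_lit 0)) T2.l7
  (TrL.c (I.pos (nat_lit 0) (nat_lit 0)) T4.l3
  TrL.n)))))) (by decide +kernel)
theorem bx0_9 : BoxOK sI cl4 cl6 cl13 t2 t4 b0_9 :=
  box_mk (TrL.c (I.pos (nat_lit 0) (nat_lit 0)) (xa (xb T2.l6 T2.l6) T2.l6)
  (TrL.c (I.pos (nat_lit 0) (nat_lit 0)) T4.l1
  (TrL.c (I.pos (nat_lit 0) (nat_lit 0)) T2.l1
  (TrL.c (I.pos (nat_lit 0) (nat_lit 0)) T4.l2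
  (TrL.c (I.pos (nat_lit 0) (nat_lit 0)) T2.l7
  (TrL.c (I.pos (nat_lit 0) (nat_lit 0)) T4.l3
  TrL.n)))))) (by decide +kernel)
theorem bx0_10 : BoxOK sI cl4 cl6 cl13 t2 t4 b0_10 :=
  box_mk (TrL.c (I.pos (nat_lit 0) (nat_lit 0)) (xb (xa T2.l8 (xb T2.l8 T2.l8)) (xa (xb T2.l8 (xa T2.l8 T2.l8)) (xb (xa T2.l8 T2.l8) (xa T2.l8 T2.l8))))
  (TrL.c (I.pos (nat_lit 0) (nat_lit 0)) (xb T4.l1 T4.l1)
  (TrL.c (I.pos (nat_lit 0) (nat_lit 0)) T2.l1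
  (TrL.c (I.pos (nat_lit 0) (nat_lit 0)) T4.l2
  (TrL.c (I.pos (nat_lit 0) (nat_lit 0)) T2.l2
  (TrL.c (I.pos (nat_lit 0) (nat_lit 0)) (xb T4.l3 T4.l3)
  TrL.n)))))) (by decide +kernel)
theorem bx0_11 : BoxOK sI cl4 cl6 cl13 t2 t4 b0_11 :=
  box_mk (TrL.c (I.pos (nat_lit 0) (nat_lit 0)) (xa (xa (xb T2.l6 T2.l6) T2.l6) T2.l6)
  (TrL.c (I.pos (nat_lit 0) (nat_lit 0)) (xa T4.l2 T4.l1)
  (TrL.c (I.pos (nat_lit 0) (nat_lit 0)) (xa T2.l1 T2.l1)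
  (TrL.c (I.pos (nat_lit 0) (nat_lit 0)) (xa T4.l1 T4.l2)
  (TrL.c (I.pos (nat_lit 0) (nat_lit 0)) (xa T2.l7 T2.l7)
  (TrL.c (I.pos (nat_lit 0) (nat_lit 0)) T4.l3
  TrL.n)))))) (by decide +kernel)
theorem bx0_12 : BoxOK sI cl4 cl6 cl13 t2 t4 b0_12 :=
  box_mk (TrL.c (I.pos (nat_lit 0) (nat_lit 0)) (xa (xb T2.l8 T2.l8) (xb (xa T2.l8 T2.l8) T2.l8))
  (TrL.c (I.pos (nat_lit 0) (nat_lit 0)) T4.l1
  (TrL.c (I.pos (nat_lit 0) (nat_lit 0)) T2.l1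
  (TrL.c (I.pos (nat_lit 0) (nat_lit 0)) T4.l2
  (TrL.c (I.pos (nat_lit 0) (nat_lit 0)) T2.l9
  (TrL.c (I.pos (nat_lit 0) (nat_lit 0)) T4.l3
  TrL.n)))))) (by decide +kernel)
theorem bx0_13 : BoxOK sI cl4 cl6 cl13 t2 t4 b0_13 :=
  box_mk (TrL.c (I.pos (nat_lit 0) (nat_lit 0)) (xb (xa T2.l8 T2.l8) (xa T2.l8 T2.l8))
  (TrL.c (I.pos (nat_lit 0) (nat_lit 0)) T4.l1
  (TrL.c (I.pos (nat_lit 0) (nat_lit 0)) T2.l1
  (TrL.c (I.pos (nat_lit 0) (nat_lit 0)) (xb T4.l2 T4.l2)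
  (TrL.c (I.pos (nat_lit 0) (nat_lit 0)) T2.l2
  (TrL.c (I.pos (nat_lit 0) (nat_lit 0)) T4.l3
  TrL.n)))))) (by decide +kernel)
theorem sv0 : StarV sI cl4 cl6 cl13 t2 t4 t0 :=
  (bt_n (bt_n (bt_n (bt_b bx0_0) (bt_n (bt_b bx0_1) (bt_b bx0_2))) (bt_n (bt_n (bt_b bx0_3) (bt_b bx0_4)) (bt_n (bt_b bx0_5) (bt_b bx0_6)))) (bt_n (bt_n (bt_b bx0_7) (bt_n (bt_b bx0_8) (bt_b bx0_9))) (bt_n (bt_n (bt_b bx0_10) (bt_b bx0_11)) (bt_n (bt_b bx0_12) (bt_b bx0_13)))))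
def S0 : StarD := StarD.mk cl4 cl6 cl13 2 4 t0
theorem bx1_0 : BoxOK sI cl4 cl13 cl6 t4 t2 b1_0 :=
  box_mk (TrL.c (I.pos (nat_lit 0) (nat_lit 0)) (xa (xb (xa (xb T4.l0 T4.l0) T4.l0) (xa (xb T4.l0 T4.l0) (xb T4.l0 T4.l0))) (xb T4.l0 (xa (xb T4.l0 T4.l0) (xb T4.l0 T4.l0))))
  (TrL.c (I.pos (nat_lit 0) (nat_lit 0)) (xa T2.l3 (xb T2.l3 (xa T2.l3 T2.l3)))
  (TrL.c (I.pos (nat_lit 0) (nat_lit 0)) T4.l4
  (TrL.c (I.pos (nat_lit 0) (nat_lit 0)) (xa T2.l4 T2.l4)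
  (TrL.c (I.pos (nat_lit 0) (nat_lit 0)) (xa T4.l5 T4.l5)
  (TrL.c (I.pos (nat_lit 0) (nat_lit 0)) (xa T2.l5 (xb T2.l5 (xa T2.l5 T2.l5)))
  TrL.n)))))) (by decide +kernel)
theorem bx1_1 : BoxOK sI cl4 cl13 cl6 t4 t2 b1_1 :=
  box_mk (TrL.c (I.pos (nat_lit 0) (nat_lit 0)) (xa T4.l6 (xa T4.l6 (xa T4.l6 T4.l6)))
  (TrL.c (I.pos (nat_lit 0) (nat_lit 0)) (xa T2.l3 T2.l3)
  (TrL.c (I.pos (nat_lit 0) (nat_lit 0)) T4.l4
  (TrL.c (I.pos (nat_lit 0) (nat_lit 0)) (xa T2.l4 T2.l4)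
  (TrL.c (I.pos (nat_lit 0) (nat_lit 0)) T4.l7
  (TrL.c (I.pos (nat_lit 0) (nat_lit 0)) (xa T2.l5 T2.l5)
  TrL.n)))))) (by decide +kernel)
theorem bx1_2 : BoxOK sI cl4 cl13 cl6 t4 t2 b1_2 :=
  box_mk (TrL.c (I.pos (nat_lit 0) (nat_lit 0)) (xb (xa T4.l6 T4.l0) (xa T4.l6 T4.l6))
  (TrL.c (I.pos (nat_lit 0) (nat_lit 0)) T2.l3
  (TrL.c (I.pos (nat_lit 0) (nat_lit 0)) T4.l4
  (TrL.c (I.pos (nat_lit 0) (nat_lit 0)) T2.l4
  (TrL.c (I.pos (nat_lit 0) (nat_lit 0)) T4.l7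
  (TrL.c (I.pos (nat_lit 0) (nat_lit 0)) T2.l5
  TrL.n)))))) (by decide +kernel)
theorem bx1_3 : BoxOK sI cl4 cl13 cl6 t4 t2 b1_3 :=
  box_mk (TrL.c (I.pos (nat_lit 0) (nat_lit 0)) (xa (xa T4.l6 T4.l6) T4.l6)
  (TrL.c (I.pos (nat_lit 0) (nat_lit 0)) (xa T2.l3 T2.l3)
  (TrL.c (I.pos (nat_lit 0) (nat_lit 0)) T4.l4
  (TrL.c (I.pos (nat_lit 0) (nat_lit 0)) (xa T2.l4 T2.l4)
  (TrL.c (I.pos (nat_lit 0) (nat_lit 0)) T4.l7
  (TrL.c (I.pos (nat_lit 0) (nat_lit 0)) (xa T2.l5 T2.l5)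
  TrL.n)))))) (by decide +kernel)
theorem bx1_4 : BoxOK sI cl4 cl13 cl6 t4 t2 b1_4 :=
  box_mk (TrL.c (I.pos (nat_lit 0) (nat_lit 0)) (xa (xb (xb (xa T4.l0 T4.l0) (xa T4.l0 T4.l0)) (xa (xb T4.l0 T4.l0) (xb T4.l0 T4.l0))) (xb (xb T4.l0 T4.l0) (xa (xb T4.l0 T4.l0) (xb T4.l0 T4.l0))))
  (TrL.c (I.pos (nat_lit 0) (nat_lit 0)) (xa (xb T2.l3 (xa T2.l3 T2.l3)) (xb (xa T2.l3 T2.l3) (xa T2.l3 (xb T2.l3 T2.l3))))
  (TrL.c (I.pos (nat_lit 0) (nat_lit 0)) (xa T4.l4 T4.l4)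
  (TrL.c (I.pos (nat_lit 0) (nat_lit 0)) (xb (xa T2.l4 (xb T2.l4 T2.l4)) (xa T2.l4 (xb T2.l4 (xa T2.l4 T2.l4))))
  (TrL.c (I.pos (nat_lit 0) (nat_lit 0)) (xa T4.l5 T4.l5)
  (TrL.c (I.pos (nat_lit 0) (nat_lit 0)) (xa (xb T2.l5 (xa T2.l5 T2.l5)) (xb (xa T2.l5 T2.l5) (xa T2.l5 (xb T2.l5 T2.l5))))
  TrL.n)))))) (by decide +kernel)
theorem bx1_5 : BoxOK sI cl4 cl13 cl6 t4 t2 b1_5 :=
  box_mk (TrL.c (I.pos (nat_lit 0) (nat_lit 0)) T4.l6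
  (TrL.c (I.pos (nat_lit 0) (nat_lit 0)) T2.l3
  (TrL.c (I.pos (nat_lit 0) (nat_lit 0)) T4.l4
  (TrL.c (I.pos (nat_lit 0) (nat_lit 0)) T2.l4
  (TrL.c (I.pos (nat_lit 0) (nat_lit 0)) T4.l7
  (TrL.c (I.pos (nat_lit 0) (nat_lit 0)) T2.l5
  TrL.n)))))) (by decide +kernel)
theorem bx1_6 : BoxOK sI cl4 cl13 cl6 t4 t2 b1_6 :=
  box_mk (TrL.c (I.pos (nat_lit 0) (nat_lit 0)) T4.l6
  (TrL.c (I.pos (nat_lit 0) (nat_lit 0)) T2.l3
  (TrL.c (I.pos (nat_lit 0) (nat_lit 0)) T4.l4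
  (TrL.c (I.pos (nat_lit 0) (nat_lit 0)) T2.l4
  (TrL.c (I.pos (nat_lit 0) (nat_lit 0)) T4.l7
  (TrL.c (I.pos (nat_lit 0) (nat_lit 0)) T2.l5
  TrL.n)))))) (by decide +kernel)
theorem bx1_7 : BoxOK sI cl4 cl13 cl6 t4 t2 b1_7 :=
  box_mk (TrL.c (I.pos (nat_lit 0) (nat_lit 0)) (xa T4.l0 T4.l2)
  (TrL.c (I.pos (nat_lit 0) (nat_lit 0)) (xa T2.l3 T2.l3)
  (TrL.c (I.pos (nat_lit 0) (nat_lit 0)) T4.l3
  (TrL.c (I.pos (nat_lit 0) (nat_lit 0)) (xa T2.l4 T2.l4)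
  (TrL.c (I.pos (nat_lit 0) (nat_lit 0)) T4.l1
  (TrL.c (I.pos (nat_lit 0) (nat_lit 0)) (xa T2.l5 T2.l5)
  TrL.n)))))) (by decide +kernel)
theorem bx1_8 : BoxOK sI cl4 cl13 cl6 t4 t2 b1_8 :=
  box_mk (TrL.c (I.pos (nat_lit 0) (nat_lit 0)) (xa (xb T4.l0 (xa T4.l6 T4.l6)) T4.l0)
  (TrL.c (I.pos (nat_lit 0) (nat_lit 0)) T2.l3
  (TrL.c (I.pos (nat_lit 0) (nat_lit 0)) T4.l4
  (TrL.c (I.pos (nat_lit 0) (nat_lit 0)) T2.l4
  (TrL.c (I.pos (nat_lit 0) (nat_lit 0)) T4.l7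
  (TrL.c (I.pos (nat_lit 0) (nat_lit 0)) T2.l5
  TrL.n)))))) (by decide +kernel)
theorem bx1_9 : BoxOK sI cl4 cl13 cl6 t4 t2 b1_9 :=
  box_mk (TrL.c (I.pos (nat_lit 0) (nat_lit 0)) (xa T4.l6 T4.l6)
  (TrL.c (I.pos (nat_lit 0) (nat_lit 0)) (xa T2.l3 T2.l3)
  (TrL.c (I.pos (nat_lit 0) (nat_lit 0)) T4.l4
  (TrL.c (I.pos (nat_lit 0) (nat_lit 0)) (xa T2.l4 T2.l4)
  (TrL.c (I.pos (nat_lit 0) (nat_lit 0)) T4.l7
  (TrL.c (I.pos (nat_lit 0) (nat_lit 0)) (xa T2.l5 T2.l5)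
  TrL.n)))))) (by decide +kernel)
theorem bx1_10 : BoxOK sI cl4 cl13 cl6 t4 t2 b1_10 :=
  box_mk (TrL.c (I.pos (nat_lit 0) (nat_lit 0)) (xb (xa (xb (xa T4.l8 T4.l8) (xa T4.l8 T4.l8)) (xb T4.l8 T4.l8)) (xa (xb (xa T4.l8 T4.l8) (xa T4.l8 T4.l8)) (xb (xa T4.l8 T4.l8) (xa T4.l8 T4.l8))))
  (TrL.c (I.pos (nat_lit 0) (nat_lit 0)) (xb (xa T2.l3 T2.l3) (xa T2.l3 T2.l3))
  (TrL.c (I.pos (nat_lit 0) (nat_lit 0)) T4.l4
  (TrL.c (I.pos (nat_lit 0) (nat_lit 0)) (xb T2.l4 (xa T2.l4 T2.l4))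
  (TrL.c (I.pos (nat_lit 0) (nat_lit 0)) T4.l9
  (TrL.c (I.pos (nat_lit 0) (nat_lit 0)) (xb (xa T2.l5 T2.l5) (xa T2.l5 T2.l5))
  TrL.n)))))) (by decide +kernel)
theorem bx1_11 : BoxOK sI cl4 cl13 cl6 t4 t2 b1_11 :=
  box_mk (TrL.c (I.pos (nat_lit 0) (nat_lit 0)) (xa (xa (xb T4.l6 (xa T4.l6 T4.l6)) T4.l6) (xa T4.l6 (xa T4.l6 (xb T4.l6 T4.l6))))
  (TrL.c (I.pos (nat_lit 0) (nat_lit 0)) (xa (xa T2.l3 T2.l3) T2.l3)
  (TrL.c (I.pos (nat_lit 0) (nat_lit 0)) (xa T4.l4 T4.l4)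
  (TrL.c (I.pos (nat_lit 0) (nat_lit 0)) (xa T2.l4 T2.l4)
  (TrL.c (I.pos (nat_lit 0) (nat_lit 0)) (xa T4.l7 T4.l7)
  (TrL.c (I.pos (nat_lit 0) (nat_lit 0)) (xa (xa T2.l5 T2.l5) T2.l5)
  TrL.n)))))) (by decide +kernel)
theorem bx1_12 : BoxOK sI cl4 cl13 cl6 t4 t2 b1_12 :=
  box_mk (TrL.c (I.pos (nat_lit 0) (nat_lit 0)) T4.l0
  (TrL.c (I.pos (nat_lit 0) (nat_lit 0)) T2.l3
  (TrL.c (I.pos (nat_lit 0) (nat_lit 0)) T4.l4
  (TrL.c (I.pos (nat_lit 0) (nat_lit 0)) T2.l4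
  (TrL.c (I.pos (nat_lit 0) (nat_lit 0)) T4.l9
  (TrL.c (I.pos (nat_lit 0) (nat_lit 0)) T2.l5
  TrL.n)))))) (by decide +kernel)
theorem bx1_13 : BoxOK sI cl4 cl13 cl6 t4 t2 b1_13 :=
  box_mk (TrL.c (I.pos (nat_lit 0) (nat_lit 0)) (xb (xa T4.l8 T4.l8) (xa T4.l8 T4.l8))
  (TrL.c (I.pos (nat_lit 0) (nat_lit 0)) T2.l3
  (TrL.c (I.pos (nat_lit 0) (nat_lit 0)) T4.l4
  (TrL.c (I.pos (nat_lit 0) (nat_lit 0)) T2.l4
  (TrL.c (I.pos (nat_lit 0) (nat_lit 0)) T4.l9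
  (TrL.c (I.pos (nat_lit 0) (nat_lit 0)) T2.l5
  TrL.n)))))) (by decide +kernel)
theorem sv1 : StarV sI cl4 cl13 cl6 t4 t2 t1 :=
  (bt_n (bt_n (bt_n (bt_b bx1_0) (bt_n (bt_b bx1_1) (bt_b bx1_2))) (bt_n (bt_n (bt_b bx1_3) (bt_b bx1_4)) (bt_n (bt_b bx1_5) (bt_b bx1_6)))) (bt_n (bt_n (bt_b bx1_7) (bt_n (bt_b bx1_8) (bt_b bx1_9))) (bt_n (bt_n (bt_b bx1_10) (bt_b bx1_11)) (bt_n (bt_b bx1_12) (bt_b bx1_13)))))
def S1 : StarD := StarD.mk cl4 cl13 cl6 4 2 t1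
theorem bx2_0 : BoxOK sI cl6 cl4 cl13 t0 t5 b2_0 :=
  box_mk (TrL.c (I.pos (nat_lit 0) (nat_lit 0)) (xb (xa T0.l7 (xb T0.l0 T0.l0)) (xa (xb T0.l7 (xa T0.l7 T0.l7)) (xb (xa T0.l0 T0.l0) (xa T0.l0 T0.l0))))
  (TrL.c (I.pos (nat_lit 0) (nat_lit 0)) T5.l1
  (TrL.c (I.pos (nat_lit 0) (nat_lit 89480386)) (xR (xR T0.l1 T0.l1) (xR T0.l1 (xR T0.l1 T0.l1)))
  (TrL.c (I.pos (nat_lit 0) (nat_lit 41530880)) (xR T5.l2 (xR T5.l2 T5.l2))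
  (TrL.c (I.pos (nat_lit 0) (nat_lit 0)) (xb T5.l3 T5.l3)
  (TrL.c (I.pos (nat_lit 0) (nat_lit 0)) T0.l2
  (TrL.c (I.mix (nat_lit 41527258) (nat_lit 41530880)) (xR (xR T5.l4 T5.l4) (xR T5.l4 (xR T5.l4 T5.l4)))
  (TrL.c (I.mix (nat_lit 41527258) (nat_lit 4274)) (xR (xR T0.l3 T0.l3) T0.l3)
  TrL.n)))))))) (by decide +kernel)
theorem bx2_1 : BoxOK sI cl6 cl4 cl13 t0 t5 b2_1 :=
  box_mk (TrL.c (I.pos (nat_lit 0) (nat_lit 0)) T5.l5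
  (TrL.c (I.pos (nat_lit 0) (nat_lit 0)) T0.l4
  (TrL.c (I.mix (nat_lit 41527258) (nat_lit 41530880)) (xR (xR T5.l6 T5.l6) (xR T5.l6 T5.l6))
  (TrL.c (I.mix (nat_lit 41527258) (nat_lit 4274)) (xR T0.l5 T0.l5)
  TrL.n)))) (by decide +kernel)
theorem bx2_2 : BoxOK sI cl6 cl4 cl13 t0 t5 b2_2 :=
  box_mk (TrL.c (I.pos (nat_lit 0) (nat_lit 0)) (xb T0.l6 T0.l7)
  (TrL.c (I.pos (nat_lit 0) (nat_lit 0)) T5.l1
  (TrL.c (I.pos (nat_lit 0) (nat_lit 89480386)) (xR T0.l1 T0.l1)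
  (TrL.c (I.pos (nat_lit 0) (nat_lit 41530880)) T5.l9
  (TrL.c (I.pos (nat_lit 0) (nat_lit 0)) T5.l8
  (TrL.c (I.pos (nat_lit 0) (nat_lit 0)) T0.l2
  (TrL.c (I.mix (nat_lit 41527258) (nat_lit 41530880)) (xR (xR T5.l4 T5.l4) T5.l4)
  (TrL.c (I.mix (nat_lit 41527258) (nat_lit 4274)) T0.l11
  TrL.n)))))))) (by decide +kernel)
theorem bx2_3 : BoxOK sI cl6 cl4 cl13 t0 t5 b2_3 :=
  box_mk (TrL.c (I.pos (nat_lit 0) (nat_lit 0)) (xa (xb (xa T0.l7 T0.l7) (xa T0.l7 T0.l7)) T0.l7)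
  (TrL.c (I.pos (nat_lit 0) (nat_lit 0)) T5.l1
  (TrL.c (I.pos (nat_lit 0) (nat_lit 89480386)) (xR T0.l11 (xR T0.l1 (xa (xb T0.l1 T0.l1) T0.l1)))
  (TrL.c (I.pos (nat_lit 0) (nat_lit 41530880)) (xR T5.l2 (xR T5.l2 T5.l2))
  (TrL.c (I.pos (nat_lit 0) (nat_lit 0)) (xa T5.l8 T5.l8)
  (TrL.c (I.pos (nat_lit 0) (nat_lit 0)) T0.l2
  (TrL.c (I.mix (nat_lit 41527258) (nat_lit 41530880)) (xR (xR (xR T5.l4 T5.l4) T5.l4) (xR T5.l4 (xR T5.l4 T5.l4)))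
  (TrL.c (I.mix (nat_lit 41527258) (nat_lit 4274)) (xR (xa T0.l11 T0.l3) T0.l3)
  TrL.n)))))))) (by decide +kernel)
theorem bx2_4 : BoxOK sI cl6 cl4 cl13 t0 t5 b2_4 :=
  box_mk (TrL.c (I.pos (nat_lit 0) (nat_lit 0)) (xb (xa (xb T0.l7 T0.l7) (xb (xa T0.l7 T0.l7) T0.l7)) (xa (xb (xa T0.l7 T0.l7) (xa T0.l7 T0.l7)) (xb (xa T0.l7 T0.l7) (xa T0.l7 T0.l7))))
  (TrL.c (I.pos (nat_lit 0) (nat_lit 0)) (xb T5.l1 T5.l1)
  (TrL.c (I.pos (nat_lit 0) (nat_lit 89480386)) (xR (xR T0.l1 T0.l1) (xR (xb T0.l1 T0.l1) (xb (xR T0.l1 T0.l1) (xa T0.l1 T0.l1))))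
  (TrL.c (I.pos (nat_lit 0) (nat_lit 41530880)) (xR T5.l2 (xR T5.l2 T5.l2))
  (TrL.c (I.pos (nat_lit 0) (nat_lit 0)) (xb (xa T5.l8 T5.l8) (xa T5.l8 T5.l3))
  (TrL.c (I.pos (nat_lit 0) (nat_lit 0)) T0.l2
  (TrL.c (I.mix (nat_lit 41527258) (nat_lit 41530880)) (xR (xR (xb (xR T5.l4 T5.l4) (xR T5.l4 T5.l4)) T5.l4) (xR T5.l4 (xb T5.l9 (xR T5.l4 T5.l9))))
  (TrL.c (I.mix (nat_lit 41527258) (nat_lit 4274)) (xR (xb (xR T0.l3 T0.l3) (xR T0.l3 T0.l3)) T0.l3)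
  TrL.n)))))))) (by decide +kernel)
theorem bx2_5 : BoxOK sI cl6 cl4 cl13 t0 t5 b2_5 :=
  box_mk (TrL.c (I.pos (nat_lit 0) (nat_lit 0)) T5.l1
  (TrL.c (I.pos (nat_lit 0) (nat_lit 0)) T0.l4
  (TrL.c (I.mix (nat_lit 41527258) (nat_lit 41530880)) (xR (xR (xR T5.l6 T5.l6) (xR T5.l6 T5.l6)) (xR T5.l2 (xa T5.l2 T5.l6)))
  (TrL.c (I.mix (nat_lit 41527258) (nat_lit 4274)) (xR (xa T0.l5 T0.l5) T0.l5)
  TrL.n)))) (by decide +kernel)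
theorem bx2_6 : BoxOK sI cl6 cl4 cl13 t0 t5 b2_6 :=
  box_mk (TrL.c (I.pos (nat_lit 0) (nat_lit 0)) (xa (xb (xa T0.l0 T0.l0) (xa (xb T0.l0 T0.l0) (xb T0.l0 T0.l0))) (xb (xa T0.l0 T0.l0) (xa T0.l0 T0.l0)))
  (TrL.c (I.pos (nat_lit 0) (nat_lit 0)) (xa T5.l1 T5.l1)
  (TrL.c (I.pos (nat_lit 0) (nat_lit 89480386)) (xR (xR T0.l1 (xR T0.l1 T0.l1)) (xR T0.l1 (xa T0.l1 (xR T0.l1 T0.l1))))
  (TrL.c (I.pos (nat_lit 0) (nat_lit 41530880)) (xR T5.l11 (xR T5.l2 T5.l2))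
  (TrL.c (I.pos (nat_lit 0) (nat_lit 0)) (xb (xa T5.l0 (xa T5.l3 T5.l3)) (xa T5.l3 (xa T5.l3 T5.l3)))
  (TrL.c (I.pos (nat_lit 0) (nat_lit 0)) (xb T0.l2 T0.l2)
  (TrL.c (I.mix (nat_lit 41527258) (nat_lit 41530880)) (xR (xR (xR T5.l4 T5.l4) T5.l9) (xR T5.l4 (xR T5.l4 T5.l4)))
  (TrL.c (I.mix (nat_lit 41527258) (nat_lit 4274)) (xR (xR T0.l3 T0.l3) T0.l9)
  TrL.n)))))))) (by decide +kernel)
theorem bx2_7 : BoxOK sI cl6 cl4 cl13 t0 t5 b2_7 :=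
  box_mk (TrL.c (I.pos (nat_lit 0) (nat_lit 0)) (xb T0.l6 T0.l6)
  (TrL.c (I.pos (nat_lit 0) (nat_lit 0)) T5.l1
  (TrL.c (I.pos (nat_lit 0) (nat_lit 89480386)) (xR T0.l1 (xR T0.l1 T0.l1))
  (TrL.c (I.pos (nat_lit 0) (nat_lit 41530880)) T5.l4
  (TrL.c (I.pos (nat_lit 0) (nat_lit 0)) T5.l7
  (TrL.c (I.pos (nat_lit 0) (nat_lit 0)) T0.l2
  (TrL.c (I.mix (nat_lit 41527258) (nat_lit 41530880)) T5.l4
  (TrL.c (I.mix (nat_lit 41527258) (nat_lit 4274)) T0.l3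
  TrL.n)))))))) (by decide +kernel)
theorem bx2_8 : BoxOK sI cl6 cl4 cl13 t0 t5 b2_8 :=
  box_mk (TrL.c (I.pos (nat_lit 0) (nat_lit 0)) (xa (xb T0.l0 (xb T0.l0 T0.l0)) (xb T0.l0 (xb T0.l0 (xa T0.l0 T0.l0))))
  (TrL.c (I.pos (nat_lit 0) (nat_lit 0)) T5.l1
  (TrL.c (I.pos (nat_lit 0) (nat_lit 89480386)) (xR (xR T0.l1 T0.l1) T0.l1)
  (TrL.c (I.pos (nat_lit 0) (nat_lit 41530880)) (xR T5.l2 T5.l2)
  (TrL.c (I.pos (nat_lit 0) (nat_lit 0)) T5.l3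
  (TrL.c (I.pos (nat_lit 0) (nat_lit 0)) T0.l2
  (TrL.c (I.mix (nat_lit 41527258) (nat_lit 41530880)) (xR (xR T5.l4 T5.l4) T5.l4)
  (TrL.c (I.mix (nat_lit 41527258) (nat_lit 4274)) (xR T0.l3 T0.l3)
  TrL.n)))))))) (by decide +kernel)
theorem bx2_9 : BoxOK sI cl6 cl4 cl13 t0 t5 b2_9 :=
  box_mk (TrL.c (I.pos (nat_lit 0) (nat_lit 0)) T0.l6
  (TrL.c (I.pos (nat_lit 0) (nat_lit 0)) T5.l1
  (TrL.c (I.pos (nat_lit 0) (nat_lit 89480386)) (xR T0.l1 T0.l1)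
  (TrL.c (I.pos (nat_lit 0) (nat_lit 41530880)) T5.l4
  (TrL.c (I.pos (nat_lit 0) (nat_lit 0)) T5.l8
  (TrL.c (I.pos (nat_lit 0) (nat_lit 0)) T0.l2
  (TrL.c (I.mix (nat_lit 41527258) (nat_lit 41530880)) T5.l4
  (TrL.c (I.mix (nat_lit 41527258) (nat_lit 4274)) T0.l11
  TrL.n)))))))) (by decide +kernel)
theorem sv2 : StarV sI cl6 cl4 cl13 t0 t5 t2 :=
  (bt_n (bt_n (bt_n (bt_b bx2_0) (bt_b bx2_1)) (bt_n (bt_b bx2_2) (bt_n (bt_b bx2_3) (bt_b bx2_4)))) (bt_n (bt_n (bt_b bx2_5) (bt_b bx2_6)) (bt_n (bt_b bx2_7) (bt_n (bt_b bx2_8) (bt_b bx2_9)))))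
def S2 : StarD := StarD.mk cl6 cl4 cl13 0 5 t2
theorem bx3_0 : BoxOK sI cl6 cl13 cl4 t5 t0 b3_0 :=
  box_mk (TrL.c (I.pos (nat_lit 0) (nat_lit 0)) (xa (xa (xb (xb T5.l0 T5.l0) (xb T5.l0 T5.l0)) (xb T5.l0 (xb T5.l0 T5.l0))) (xa (xb T5.l0 (xs T5.l0 T5.l0)) (xb (xb T5.l0 T5.l0) (xs T5.l0 T5.l0))))
  (TrL.c (I.pos (nat_lit 0) (nat_lit 0)) (xa T0.l8 (xb T0.l8 T0.l8))
  (TrL.c (I.pos (nat_lit 0) (nat_lit 89480386)) (xR (xR T5.l9 (xR T5.l9 T5.l9)) (xR T5.l9 (xR T5.l9 (xa T5.l9 T5.l9))))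
  (TrL.c (I.pos (nat_lit 0) (nat_lit 41530880)) (xR (xR T0.l9 T0.l9) (xR T0.l9 T0.l9))
  (TrL.c (I.pos (nat_lit 0) (nat_lit 0)) (xa T0.l10 (xb T0.l10 T0.l10))
  (TrL.c (I.pos (nat_lit 0) (nat_lit 0)) T5.l10
  (TrL.c (I.mix (nat_lit 41527258) (nat_lit 41530880)) (xR (xR (xR T0.l11 T0.l11) T0.l11) (xR T0.l11 (xR T0.l11 T0.l11)))
  (TrL.c (I.mix (nat_lit 41527258) (nat_lit 4274)) (xR (xR T5.l11 T5.l11) (xR T5.l11 T5.l11))
  TrL.n)))))))) (by decide +kernel)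
theorem bx3_1 : BoxOK sI cl6 cl13 cl4 t5 t0 b3_1 :=
  box_mk (TrL.c (I.pos (nat_lit 0) (nat_lit 0)) (xa (xb (xa T5.l12 T5.l0) (xa T5.l12 T5.l12)) (xb T5.l0 T5.l0))
  (TrL.c (I.pos (nat_lit 0) (nat_lit 0)) T0.l8
  (TrL.c (I.pos (nat_lit 0) (nat_lit 89480386)) (xR (xR T5.l9 T5.l9) (xR T5.l9 T5.l9))
  (TrL.c (I.pos (nat_lit 0) (nat_lit 41530880)) (xR T0.l9 T0.l9)
  (TrL.c (I.pos (nat_lit 0) (nat_lit 0)) (xa T0.l12 T0.l12)
  (TrL.c (I.pos (nat_lit 0) (nat_lit 0)) T5.l10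
  (TrL.c (I.mix (nat_lit 41527258) (nat_lit 41530880)) (xR (xR T0.l11 T0.l11) T0.l11)
  (TrL.c (I.mix (nat_lit 41527258) (nat_lit 4274)) (xR T5.l11 T5.l11)
  TrL.n)))))))) (by decide +kernel)
theorem bx3_2 : BoxOK sI cl6 cl13 cl4 t5 t0 b3_2 :=
  box_mk (TrL.c (I.pos (nat_lit 0) (nat_lit 0)) (xa T5.l12 T5.l12)
  (TrL.c (I.pos (nat_lit 0) (nat_lit 0)) (xa T0.l8 T0.l8)
  (TrL.c (I.pos (nat_lit 0) (nat_lit 89480386)) (xR T5.l9 (xR T5.l9 T5.l9))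
  (TrL.c (I.pos (nat_lit 0) (nat_lit 41530880)) (xR T0.l3 (xa T0.l9 T0.l9))
  (TrL.c (I.pos (nat_lit 0) (nat_lit 0)) (xa T0.l12 T0.l12)
  (TrL.c (I.pos (nat_lit 0) (nat_lit 0)) T5.l10
  (TrL.c (I.mix (nat_lit 41527258) (nat_lit 41530880)) (xR T0.l11 (xR T0.l11 (xa T0.l11 T0.l11)))
  (TrL.c (I.mix (nat_lit 41527258) (nat_lit 4274)) T5.l11
  TrL.n)))))))) (by decide +kernel)
theorem bx3_3 : BoxOK sI cl6 cl13 cl4 t5 t0 b3_3 :=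
  box_mk (TrL.c (I.pos (nat_lit 0) (nat_lit 0)) (xb (xa (xb (xa T5.l13 T5.l13) (xa T5.l13 T5.l13)) (xb T5.l13 T5.l13)) (xa (xb (xa T5.l13 T5.l13) (xa T5.l13 T5.l13)) (xb (xa T5.l13 T5.l13) (xa T5.l13 T5.l13))))
  (TrL.c (I.pos (nat_lit 0) (nat_lit 0)) (xb T0.l8 T0.l8)
  (TrL.c (I.pos (nat_lit 0) (nat_lit 89480386)) (xR (xR T5.l9 T5.l9) (xR T5.l9 (xR T5.l9 T5.l9)))
  (TrL.c (I.pos (nat_lit 0) (nat_lit 41530880)) (xR T0.l9 (xR T0.l9 T0.l9))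
  (TrL.c (I.pos (nat_lit 0) (nat_lit 0)) (xb T0.l13 T0.l13)
  (TrL.c (I.pos (nat_lit 0) (nat_lit 0)) T5.l10
  (TrL.c (I.mix (nat_lit 41527258) (nat_lit 41530880)) (xR (xR (xR T0.l11 T0.l11) T0.l11) (xR T0.l11 (xR T0.l11 T0.l11)))
  (TrL.c (I.mix (nat_lit 41527258) (nat_lit 4274)) (xR (xR T5.l11 T5.l11) T5.l11)
  TrL.n)))))))) (by decide +kernel)
theorem bx3_4 : BoxOK sI cl6 cl13 cl4 t5 t0 b3_4 :=
  box_mk (TrL.c (I.pos (nat_lit 0) (nat_lit 0)) (xa (xa (xb T5.l12 T5.l12) (xb T5.l12 T5.l12)) (xa (xb T5.l12 (xa T5.l12 T5.l12)) (xa T5.l12 (xb T5.l12 T5.l12))))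
  (TrL.c (I.pos (nat_lit 0) (nat_lit 0)) (xa T0.l8 (xa T0.l8 T0.l8))
  (TrL.c (I.pos (nat_lit 0) (nat_lit 89480386)) (xR T5.l9 (xa T5.l9 T5.l9))
  (TrL.c (I.pos (nat_lit 0) (nat_lit 41530880)) (xa (xR T0.l9 T0.l9) T0.l9)
  (TrL.c (I.pos (nat_lit 0) (nat_lit 0)) (xa T0.l12 T0.l12)
  (TrL.c (I.pos (nat_lit 0) (nat_lit 0)) T5.l10
  (TrL.c (I.mix (nat_lit 41527258) (nat_lit 41530880)) (xR T0.l11 (xR T0.l11 (xa T0.l11 T0.l11)))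
  (TrL.c (I.mix (nat_lit 41527258) (nat_lit 4274)) (xa T5.l11 T5.l11)
  TrL.n)))))))) (by decide +kernel)
theorem bx3_5 : BoxOK sI cl6 cl13 cl4 t5 t0 b3_5 :=
  box_mk (TrL.c (I.pos (nat_lit 0) (nat_lit 0)) (xb (xa (xb (xa T5.l13 T5.l13) (xa T5.l13 T5.l13)) (xb (xa T5.l13 T5.l13) (xa T5.l13 T5.l13))) (xa (xb T5.l13 (xa T5.l13 T5.l13)) (xb (xa T5.l13 T5.l13) (xa T5.l13 T5.l13))))
  (TrL.c (I.pos (nat_lit 0) (nat_lit 0)) (xb T0.l8 T0.l8)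
  (TrL.c (I.pos (nat_lit 0) (nat_lit 89480386)) (xR (xR T5.l9 (xR T5.l9 T5.l9)) (xR T5.l9 (xR T5.l9 T5.l9)))
  (TrL.c (I.pos (nat_lit 0) (nat_lit 41530880)) (xR T0.l9 (xR T0.l9 T0.l9))
  (TrL.c (I.pos (nat_lit 0) (nat_lit 0)) (xb T0.l13 T0.l13)
  (TrL.c (I.pos (nat_lit 0) (nat_lit 0)) T5.l10
  (TrL.c (I.mix (nat_lit 41527258) (nat_lit 41530880)) (xR (xR (xR T0.l11 T0.l11) T0.l11) (xR T0.l11 (xR T0.l11 T0.l11)))
  (TrL.c (I.mix (nat_lit 41527258) (nat_lit 4274)) (xR (xR T5.l11 T5.l11) T5.l11)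
  TrL.n)))))))) (by decide +kernel)
theorem bx3_6 : BoxOK sI cl6 cl13 cl4 t5 t0 b3_6 :=
  box_mk (TrL.c (I.pos (nat_lit 0) (nat_lit 0)) (xa T5.l12 T5.l12)
  (TrL.c (I.pos (nat_lit 0) (nat_lit 0)) (xa T0.l8 T0.l8)
  (TrL.c (I.pos (nat_lit 0) (nat_lit 89480386)) (xR T5.l9 (xa T5.l9 T5.l9))
  (TrL.c (I.pos (nat_lit 0) (nat_lit 41530880)) (xR T0.l3 (xa T0.l9 T0.l9))
  (TrL.c (I.pos (nat_lit 0) (nat_lit 0)) (xa T0.l12 T0.l12)
  (TrL.c (I.pos (nat_lit 0) (nat_lit 0)) T5.l10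
  (TrL.c (I.mix (nat_lit 41527258) (nat_lit 41530880)) (xR T0.l11 (xR T0.l11 (xa T0.l11 T0.l11)))
  (TrL.c (I.mix (nat_lit 41527258) (nat_lit 4274)) T5.l11
  TrL.n)))))))) (by decide +kernel)
theorem bx3_7 : BoxOK sI cl6 cl13 cl4 t5 t0 b3_7 :=
  box_mk (TrL.c (I.pos (nat_lit 0) (nat_lit 0)) (xa T5.l0 T5.l0)
  (TrL.c (I.pos (nat_lit 0) (nat_lit 0)) T0.l8
  (TrL.c (I.pos (nat_lit 0) (nat_lit 89480386)) (xR (xR T5.l9 T5.l9) (xR T5.l9 T5.l9))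
  (TrL.c (I.pos (nat_lit 0) (nat_lit 41530880)) (xR T0.l9 T0.l9)
  (TrL.c (I.pos (nat_lit 0) (nat_lit 0)) T0.l12
  (TrL.c (I.pos (nat_lit 0) (nat_lit 0)) T5.l10
  (TrL.c (I.mix (nat_lit 41527258) (nat_lit 41530880)) (xR (xR T0.l11 T0.l11) T0.l11)
  (TrL.c (I.mix (nat_lit 41527258) (nat_lit 4274)) (xR T5.l11 T5.l11)
  TrL.n)))))))) (by decide +kernel)
theorem bx3_8 : BoxOK sI cl6 cl13 cl4 t5 t0 b3_8 :=
  box_mk (TrL.c (I.pos (nat_lit 0) (nat_lit 0)) T5.l0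
  (TrL.c (I.pos (nat_lit 0) (nat_lit 0)) T0.l8
  (TrL.c (I.pos (nat_lit 0) (nat_lit 89480386)) (xR (xR T5.l9 T5.l9) (xR T5.l9 T5.l9))
  (TrL.c (I.pos (nat_lit 0) (nat_lit 41530880)) (xR T0.l9 T0.l9)
  (TrL.c (I.pos (nat_lit 0) (nat_lit 0)) T0.l13
  (TrL.c (I.pos (nat_lit 0) (nat_lit 0)) T5.l10
  (TrL.c (I.mix (nat_lit 41527258) (nat_lit 41530880)) (xR (xR T0.l11 T0.l11) T0.l11)
  (TrL.c (I.mix (nat_lit 41527258) (nat_lit 4274)) (xR T5.l11 T5.l11)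
  TrL.n)))))))) (by decide +kernel)
theorem bx3_9 : BoxOK sI cl6 cl13 cl4 t5 t0 b3_9 :=
  box_mk (TrL.c (I.pos (nat_lit 0) (nat_lit 0)) (xa (xa T5.l12 T5.l12) (xa T5.l12 T5.l12))
  (TrL.c (I.pos (nat_lit 0) (nat_lit 0)) (xa T0.l8 T0.l8)
  (TrL.c (I.pos (nat_lit 0) (nat_lit 89480386)) (xR T5.l9 T5.l9)
  (TrL.c (I.pos (nat_lit 0) (nat_lit 41530880)) T0.l9
  (TrL.c (I.pos (nat_lit 0) (nat_lit 0)) T0.l12
  (TrL.c (I.pos (nat_lit 0) (nat_lit 0)) T5.l10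
  (TrL.c (I.mix (nat_lit 41527258) (nat_lit 41530880)) T0.l11
  (TrL.c (I.mix (nat_lit 41527258) (nat_lit 4274)) T5.l11
  TrL.n)))))))) (by decide +kernel)
theorem bx3_10 : BoxOK sI cl6 cl13 cl4 t5 t0 b3_10 :=
  box_mk (TrL.c (I.pos (nat_lit 0) (nat_lit 0)) (xb (xa T5.l12 (xb T5.l0 T5.l12)) (xa T5.l12 (xb T5.l12 T5.l12)))
  (TrL.c (I.pos (nat_lit 0) (nat_lit 0)) T0.l8
  (TrL.c (I.pos (nat_lit 0) (nat_lit 89480386)) (xR (xR T5.l9 T5.l9) (xR T5.l9 T5.l9))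
  (TrL.c (I.pos (nat_lit 0) (nat_lit 41530880)) (xR T0.l9 T0.l9)
  (TrL.c (I.pos (nat_lit 0) (nat_lit 0)) T0.l12
  (TrL.c (I.pos (nat_lit 0) (nat_lit 0)) T5.l10
  (TrL.c (I.mix (nat_lit 41527258) (nat_lit 41530880)) (xR (xR T0.l11 T0.l11) T0.l11)
  (TrL.c (I.mix (nat_lit 41527258) (nat_lit 4274)) (xR T5.l11 T5.l11)
  TrL.n)))))))) (by decide +kernel)
theorem bx3_11 : BoxOK sI cl6 cl13 cl4 t5 t0 b3_11 :=
  box_mk (TrL.c (I.pos (nat_lit 0) (nat_lit 0)) (xa (xa T5.l12 T5.l12) T5.l12)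
  (TrL.c (I.pos (nat_lit 0) (nat_lit 0)) (xa T0.l8 T0.l8)
  (TrL.c (I.pos (nat_lit 0) (nat_lit 89480386)) (xR T5.l9 (xa T5.l9 T5.l9))
  (TrL.c (I.pos (nat_lit 0) (nat_lit 41530880)) (xR T0.l3 (xa T0.l9 T0.l9))
  (TrL.c (I.pos (nat_lit 0) (nat_lit 0)) (xa T0.l12 T0.l12)
  (TrL.c (I.pos (nat_lit 0) (nat_lit 0)) T5.l10
  (TrL.c (I.mix (nat_lit 41527258) (nat_lit 41530880)) (xR T0.l11 (xR T0.l11 (xa T0.l11 T0.l11)))
  (TrL.c (I.mix (nat_lit 41527258) (nat_lit 4274)) T5.l11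
  TrL.n)))))))) (by decide +kernel)
theorem bx3_12 : BoxOK sI cl6 cl13 cl4 t5 t0 b3_12 :=
  box_mk (TrL.c (I.pos (nat_lit 0) (nat_lit 0)) (xa (xb T5.l0 (xa T5.l0 T5.l0)) (xb (xa T5.l0 (xb T5.l0 T5.l0)) (xa T5.l0 (xb T5.l0 T5.l0))))
  (TrL.c (I.pos (nat_lit 0) (nat_lit 0)) (xa (xb T0.l8 T0.l8) (xb T0.l2 T0.l2))
  (TrL.c (I.pos (nat_lit 0) (nat_lit 89480386)) (xR (xR (xR T5.l4 T5.l9) (xR T5.l9 T5.l9)) (xR (xR (xa T5.l9 T5.l9) (xa T5.l9 T5.l9)) (xa T5.l9 (xR T5.l9 T5.l9))))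
  (TrL.c (I.pos (nat_lit 0) (nat_lit 41530880)) (xR (xR T0.l3 T0.l9) (xR T0.l9 T0.l9))
  (TrL.c (I.pos (nat_lit 0) (nat_lit 0)) (xa (xb T0.l10 T0.l10) (xb (xa T0.l10 T0.l10) (xa T0.l10 T0.l10)))
  (TrL.c (I.pos (nat_lit 0) (nat_lit 0)) (xa T5.l10 T5.l10)
  (TrL.c (I.mix (nat_lit 41527258) (nat_lit 41530880)) (xR (xR (xR T0.l11 T0.l11) T0.l11) (xR T0.l11 T0.l1))
  (TrL.c (I.mix (nat_lit 41527258) (nat_lit 4274)) (xR (xR T5.l11 T5.l11) (xR T5.l11 T5.l2))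
  TrL.n)))))))) (by decide +kernel)
theorem bx3_13 : BoxOK sI cl6 cl13 cl4 t5 t0 b3_13 :=
  box_mk (TrL.c (I.pos (nat_lit 0) (nat_lit 0)) (xa (xb T5.l0 T5.l0) (xb T5.l0 (xa T5.l0 T5.l0)))
  (TrL.c (I.pos (nat_lit 0) (nat_lit 0)) T0.l8
  (TrL.c (I.pos (nat_lit 0) (nat_lit 89480386)) (xR (xR T5.l9 T5.l9) (xR T5.l9 T5.l9))
  (TrL.c (I.pos (nat_lit 0) (nat_lit 41530880)) (xR T0.l9 T0.l9)
  (TrL.c (I.pos (nat_lit 0) (nat_lit 0)) T0.l10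
  (TrL.c (I.pos (nat_lit 0) (nat_lit 0)) T5.l10
  (TrL.c (I.mix (nat_lit 41527258) (nat_lit 41530880)) (xR (xR T0.l11 T0.l11) T0.l1)
  (TrL.c (I.mix (nat_lit 41527258) (nat_lit 4274)) (xR T5.l11 T5.l11)
  TrL.n)))))))) (by decide +kernel)
theorem sv3 : StarV sI cl6 cl13 cl4 t5 t0 t3 :=
  (bt_n (bt_n (bt_n (bt_b bx3_0) (bt_n (bt_b bx3_1) (bt_b bx3_2))) (bt_n (bt_n (bt_b bx3_3) (bt_b bx3_4)) (bt_n (bt_b bx3_5) (bt_b bx3_6)))) (bt_n (bt_n (bt_b bx3_7) (bt_n (bt_b bx3_8) (bt_b bx3_9))) (bt_n (bt_n (bt_b bx3_10) (bt_b bx3_11)) (bt_n (bt_b bx3_12) (bt_b bx3_13)))))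
def S3 : StarD := StarD.mk cl6 cl13 cl4 5 0 t3
theorem bx4_0 : BoxOK sI cl13 cl4 cl6 t1 t3 b4_0 :=
  box_mk (TrL.c (I.pos (nat_lit 0) (nat_lit 0)) (xa (xb T1.l4 (xa (xb T1.l0 T1.l0) (xb T1.l0 T1.l0))) (xb T1.l0 (xa (xb T1.l0 T1.l0) (xb T1.l0 T1.l0))))
  (TrL.c (I.pos (nat_lit 0) (nat_lit 0)) (xa (xb T3.l1 T3.l1) (xb T3.l1 (xk T3.l1 T3.l1)))
  (TrL.c (I.pos (nat_lit 0) (nat_lit 134217730)) (xR T1.l1 (xR T1.l1 (xR T1.l1 (xa T1.l1 T1.l1))))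
  (TrL.c (I.pos (nat_lit 0) (nat_lit 110514882)) (xR T3.l2 (xR T3.l2 T3.l2))
  (TrL.c (I.pos (nat_lit 0) (nat_lit 0)) (xa (xb T3.l5 T3.l5) (xb T3.l3 (xb T3.l3 T3.l3)))
  (TrL.c (I.pos (nat_lit 0) (nat_lit 0)) T1.l2
  (TrL.c (I.mix (nat_lit 8088324) (nat_lit 110514882)) (xR T3.l4 (xR T3.l4 (xR T3.l4 T3.l4)))
  (TrL.c (I.mix (nat_lit 8088324) (nat_lit 89478486)) (xR T1.l3 (xR T1.l3 (xR T1.l3 T1.l3)))
  TrL.n)))))))) (by decide +kernel)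
theorem bx4_1 : BoxOK sI cl13 cl4 cl6 t1 t3 b4_1 :=
  box_mk (TrL.c (I.pos (nat_lit 0) (nat_lit 0)) (xa (xb (xa T1.l4 T1.l4) T1.l4) T1.l4)
  (TrL.c (I.pos (nat_lit 0) (nat_lit 0)) (xa T3.l1 T3.l1)
  (TrL.c (I.pos (nat_lit 0) (nat_lit 134217730)) (xR T1.l1 T1.l11)
  (TrL.c (I.pos (nat_lit 0) (nat_lit 110514882)) (xR T3.l2 (xR T3.l2 (xR T3.l2 T3.l2)))
  (TrL.c (I.pos (nat_lit 0) (nat_lit 0)) (xa T3.l5 T3.l5)
  (TrL.c (I.pos (nat_lit 0) (nat_lit 0)) T1.l2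
  (TrL.c (I.mix (nat_lit 8088324) (nat_lit 110514882)) (xR T3.l4 T3.l4)
  (TrL.c (I.mix (nat_lit 8088324) (nat_lit 89478486)) T1.l11
  TrL.n)))))))) (by decide +kernel)
theorem bx4_2 : BoxOK sI cl13 cl4 cl6 t1 t3 b4_2 :=
  box_mk (TrL.c (I.pos (nat_lit 0) (nat_lit 0)) (xb (xa (xb T1.l4 T1.l4) (xb T1.l4 T1.l4)) (xa (xb T1.l4 (xa T1.l4 T1.l4)) (xb (xa T1.l4 T1.l4) (xa T1.l4 T1.l4))))
  (TrL.c (I.pos (nat_lit 0) (nat_lit 0)) (xb (xa T3.l1 T3.l1) (xa T3.l1 (xk T3.l1 T3.l1)))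
  (TrL.c (I.pos (nat_lit 0) (nat_lit 134217730)) (xR T1.l1 (xR T1.l1 (xb T1.l1 (xR T1.l1 T1.l1))))
  (TrL.c (I.pos (nat_lit 0) (nat_lit 110514882)) (xR T3.l2 (xR T3.l2 (xR T3.l2 T3.l2)))
  (TrL.c (I.pos (nat_lit 0) (nat_lit 0)) (xb (xa T3.l5 T3.l5) (xa (xb T3.l5 T3.l5) (xb T3.l3 (xk T3.l3 (xs T3.l3 T3.l3)))))
  (TrL.c (I.pos (nat_lit 0) (nat_lit 0)) T1.l2
  (TrL.c (I.mix (nat_lit 8088324) (nat_lit 110514882)) (xR T3.l4 (xR T3.l4 (xR T3.l4 T3.l4)))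
  (TrL.c (I.mix (nat_lit 8088324) (nat_lit 89478486)) (xR T1.l3 (xR T1.l3 (xR T1.l3 T1.l3)))
  TrL.n)))))))) (by decide +kernel)
theorem bx4_3 : BoxOK sI cl13 cl4 cl6 t1 t3 b4_3 :=
  box_mk (TrL.c (I.pos (nat_lit 0) (nat_lit 0)) (xa T3.l1 T3.l7)
  (TrL.c (I.pos (nat_lit 0) (nat_lit 0)) T1.l11
  (TrL.c (I.mix (nat_lit 8088324) (nat_lit 110514882)) (xR T3.l6 (xR T3.l6 (xR T3.l6 T3.l6)))
  (TrL.c (I.mix (nat_lit 8088324) (nat_lit 89478486)) (xR T1.l11 T1.l1)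
  TrL.n)))) (by decide +kernel)
theorem bx4_4 : BoxOK sI cl13 cl4 cl6 t1 t3 b4_4 :=
  box_mk (TrL.c (I.pos (nat_lit 0) (nat_lit 0)) T3.l7
  (TrL.c (I.pos (nat_lit 0) (nat_lit 0)) T1.l6
  (TrL.c (I.mix (nat_lit 8088324) (nat_lit 110514882)) (xR T3.l4 (xR T3.l4 T3.l4))
  (TrL.c (I.mix (nat_lit 8088324) (nat_lit 89478486)) T1.l11
  TrL.n)))) (by decide +kernel)
theorem bx4_5 : BoxOK sI cl13 cl4 cl6 t1 t3 b4_5 :=
  box_mk (TrL.c (I.pos (nat_lit 0) (nat_lit 0)) (xb T1.l7 T1.l4)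
  (TrL.c (I.pos (nat_lit 0) (nat_lit 0)) T3.l7
  (TrL.c (I.pos (nat_lit 0) (nat_lit 134217730)) T1.l11
  (TrL.c (I.pos (nat_lit 0) (nat_lit 110514882)) T3.l4
  (TrL.c (I.pos (nat_lit 0) (nat_lit 0)) T3.l5
  (TrL.c (I.pos (nat_lit 0) (nat_lit 0)) T1.l2
  (TrL.c (I.mix (nat_lit 8088324) (nat_lit 110514882)) T3.l4
  (TrL.c (I.mix (nat_lit 8088324) (nat_lit 89478486)) T1.l1
  TrL.n)))))))) (by decide +kernel)
theorem bx4_6 : BoxOK sI cl13 cl4 cl6 t1 t3 b4_6 :=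
  box_mk (TrL.c (I.pos (nat_lit 0) (nat_lit 0)) (xa (xb T1.l0 T1.l0) (xb T1.l0 T1.l0))
  (TrL.c (I.pos (nat_lit 0) (nat_lit 0)) (xa T3.l1 (xk T3.l1 T3.l10))
  (TrL.c (I.pos (nat_lit 0) (nat_lit 134217730)) (xR T1.l1 T1.l11)
  (TrL.c (I.pos (nat_lit 0) (nat_lit 110514882)) (xR T3.l2 (xR T3.l2 (xR T3.l2 T3.l2)))
  (TrL.c (I.pos (nat_lit 0) (nat_lit 0)) (xa (xb (xk T3.l3 T3.l3) T3.l3) (xb (xk (xa T3.l3 T3.l3) (xa T3.l3 T3.l3)) (xk (xa T3.l3 T3.l3) (xa T3.l3 T3.l3))))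
  (TrL.c (I.pos (nat_lit 0) (nat_lit 0)) (xk T1.l2 T1.l2)
  (TrL.c (I.mix (nat_lit 8088324) (nat_lit 110514882)) (xR T3.l4 (xR T3.l4 (xR T3.l4 (xk T3.l4 T3.l4))))
  (TrL.c (I.mix (nat_lit 8088324) (nat_lit 89478486)) (xR T1.l3 (xR T1.l3 (xR T1.l3 T1.l3)))
  TrL.n)))))))) (by decide +kernel)
theorem bx4_7 : BoxOK sI cl13 cl4 cl6 t1 t3 b4_7 :=
  box_mk (TrL.c (I.pos (nat_lit 0) (nat_lit 0)) (xb T1.l7 T1.l7)
  (TrL.c (I.pos (nat_lit 0) (nat_lit 0)) T3.l7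
  (TrL.c (I.pos (nat_lit 0) (nat_lit 134217730)) T1.l1
  (TrL.c (I.pos (nat_lit 0) (nat_lit 110514882)) T3.l4
  (TrL.c (I.pos (nat_lit 0) (nat_lit 0)) T3.l8
  (TrL.c (I.pos (nat_lit 0) (nat_lit 0)) T1.l2
  (TrL.c (I.mix (nat_lit 8088324) (nat_lit 110514882)) T3.l4
  (TrL.c (I.mix (nat_lit 8088324) (nat_lit 89478486)) T1.l1
  TrL.n)))))))) (by decide +kernel)
theorem bx4_8 : BoxOK sI cl13 cl4 cl6 t1 t3 b4_8 :=
  box_mk (TrL.c (I.pos (nat_lit 0) (nat_lit 0)) (xa (xb T1.l0 (xa T1.l0 T1.l0)) (xb T1.l0 (xa T1.l0 T1.l0)))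
  (TrL.c (I.pos (nat_lit 0) (nat_lit 0)) (xk T3.l1 T3.l1)
  (TrL.c (I.pos (nat_lit 0) (nat_lit 134217730)) (xR T1.l1 (xR T1.l1 T1.l1))
  (TrL.c (I.pos (nat_lit 0) (nat_lit 110514882)) (xR T3.l2 T3.l2)
  (TrL.c (I.pos (nat_lit 0) (nat_lit 0)) (xk (xb T3.l3 (xa T3.l3 (xs T3.l3 T3.l3))) (xb T3.l3 (xa T3.l3 (xs T3.l0 T3.l0))))
  (TrL.c (I.pos (nat_lit 0) (nat_lit 0)) T1.l2
  (TrL.c (I.mix (nat_lit 8088324) (nat_lit 110514882)) (xR T3.l4 T3.l4)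
  (TrL.c (I.mix (nat_lit 8088324) (nat_lit 89478486)) (xR T1.l3 T1.l3)
  TrL.n)))))))) (by decide +kernel)
theorem bx4_9 : BoxOK sI cl13 cl4 cl6 t1 t3 b4_9 :=
  box_mk (TrL.c (I.pos (nat_lit 0) (nat_lit 0)) T1.l4
  (TrL.c (I.pos (nat_lit 0) (nat_lit 0)) T3.l1
  (TrL.c (I.pos (nat_lit 0) (nat_lit 134217730)) T1.l11
  (TrL.c (I.pos (nat_lit 0) (nat_lit 110514882)) T3.l4
  (TrL.c (I.pos (nat_lit 0) (nat_lit 0)) T3.l5
  (TrL.c (I.pos (nat_lit 0) (nat_lit 0)) T1.l2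
  (TrL.c (I.mix (nat_lit 8088324) (nat_lit 110514882)) T3.l4
  (TrL.c (I.mix (nat_lit 8088324) (nat_lit 89478486)) T1.l1
  TrL.n)))))))) (by decide +kernel)
theorem sv4 : StarV sI cl13 cl4 cl6 t1 t3 t4 :=
  (bt_n (bt_n (bt_n (bt_b bx4_0) (bt_b bx4_1)) (bt_n (bt_b bx4_2) (bt_n (bt_b bx4_3) (bt_b bx4_4)))) (bt_n (bt_n (bt_b bx4_5) (bt_b bx4_6)) (bt_n (bt_b bx4_7) (bt_n (bt_b bx4_8) (bt_b bx4_9)))))
def S4 : StarD := StarD.mk cl13 cl4 cl6 1 3 t4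
theorem bx5_0 : BoxOK sI cl13 cl6 cl4 t3 t1 b5_0 :=
  box_mk (TrL.c (I.pos (nat_lit 0) (nat_lit 0)) (xa (xb (xa T3.l0 T3.l0) (xa (xb T3.l0 T3.l0) (xb T3.l0 T3.l0))) (xb (xa T3.l0 (xb T3.l0 T3.l0)) (xa (xb T3.l0 T3.l0) (xs T3.l0 T3.l0))))
  (TrL.c (I.pos (nat_lit 0) (nat_lit 0)) (xa (xk T1.l8 T1.l8) (xk (xb T1.l8 T1.l8) T1.l8))
  (TrL.c (I.pos (nat_lit 0) (nat_lit 134217730)) (xR T3.l4 (xR T3.l9 (xR T3.l9 (xa T3.l9 T3.l9))))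
  (TrL.c (I.pos (nat_lit 0) (nat_lit 110514882)) (xR T1.l3 (xR T1.l9 (xR T1.l9 T1.l9)))
  (TrL.c (I.pos (nat_lit 0) (nat_lit 0)) (xa T1.l10 (xk (xb T1.l10 (xb T1.l10 T1.l10)) (xb T1.l10 (xb T1.l10 (xa T1.l10 (xs T1.l10 T1.l10))))))
  (TrL.c (I.pos (nat_lit 0) (nat_lit 0)) T3.l10
  (TrL.c (I.mix (nat_lit 8088324) (nat_lit 110514882)) (xR T1.l11 (xR T1.l11 (xR T1.l11 T1.l11)))
  (TrL.c (I.mix (nat_lit 8088324) (nat_lit 89478486)) (xR T3.l11 (xR T3.l11 (xR T3.l11 T3.l11)))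
  TrL.n)))))))) (by decide +kernel)
theorem bx5_1 : BoxOK sI cl13 cl6 cl4 t3 t1 b5_1 :=
  box_mk (TrL.c (I.pos (nat_lit 0) (nat_lit 0)) (xa (xb T3.l12 T3.l12) (xb T3.l0 T3.l0))
  (TrL.c (I.pos (nat_lit 0) (nat_lit 0)) (xa T1.l8 T1.l8)
  (TrL.c (I.pos (nat_lit 0) (nat_lit 134217730)) (xR T3.l4 T3.l4)
  (TrL.c (I.pos (nat_lit 0) (nat_lit 110514882)) (xR T1.l3 (xR T1.l9 T1.l9))
  (TrL.c (I.pos (nat_lit 0) (nat_lit 0)) (xa T1.l12 T1.l12)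
  (TrL.c (I.pos (nat_lit 0) (nat_lit 0)) T3.l10
  (TrL.c (I.mix (nat_lit 8088324) (nat_lit 110514882)) (xR T1.l11 (xR T1.l11 T1.l11))
  (TrL.c (I.mix (nat_lit 8088324) (nat_lit 89478486)) T3.l2
  TrL.n)))))))) (by decide +kernel)
theorem bx5_2 : BoxOK sI cl13 cl6 cl4 t3 t1 b5_2 :=
  box_mk (TrL.c (I.pos (nat_lit 0) (nat_lit 0)) T3.l12
  (TrL.c (I.pos (nat_lit 0) (nat_lit 0)) T1.l8
  (TrL.c (I.pos (nat_lit 0) (nat_lit 134217730)) (xR T3.l4 T3.l9)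
  (TrL.c (I.pos (nat_lit 0) (nat_lit 110514882)) T1.l11
  (TrL.c (I.pos (nat_lit 0) (nat_lit 0)) T1.l12
  (TrL.c (I.pos (nat_lit 0) (nat_lit 0)) T3.l10
  (TrL.c (I.mix (nat_lit 8088324) (nat_lit 110514882)) T1.l11
  (TrL.c (I.mix (nat_lit 8088324) (nat_lit 89478486)) T3.l4
  TrL.n)))))))) (by decide +kernel)
theorem bx5_3 : BoxOK sI cl13 cl6 cl4 t3 t1 b5_3 :=
  box_mk (TrL.c (I.pos (nat_lit 0) (nat_lit 0)) (xa (xb (xb T3.l13 (xa T3.l13 T3.l13)) (xa (xb T3.l13 T3.l13) (xb T3.l13 T3.l13))) (xb (xb T3.l13 T3.l13) (xa (xb T3.l13 T3.l13) (xb T3.l13 T3.l13))))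
  (TrL.c (I.pos (nat_lit 0) (nat_lit 0)) (xk (xb T1.l8 T1.l8) (xb T1.l8 T1.l8))
  (TrL.c (I.pos (nat_lit 0) (nat_lit 134217730)) (xR T3.l4 (xR T3.l9 (xR T3.l9 T3.l4)))
  (TrL.c (I.pos (nat_lit 0) (nat_lit 110514882)) (xR T1.l3 (xR T1.l9 (xR T1.l9 T1.l9)))
  (TrL.c (I.pos (nat_lit 0) (nat_lit 0)) (xk T1.l13 T1.l13)
  (TrL.c (I.pos (nat_lit 0) (nat_lit 0)) T3.l10
  (TrL.c (I.mix (nat_lit 8088324) (nat_lit 110514882)) (xR T1.l11 (xR T1.l11 (xR T1.l11 T1.l11)))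
  (TrL.c (I.mix (nat_lit 8088324) (nat_lit 89478486)) (xR T3.l11 (xR T3.l11 T3.l2))
  TrL.n)))))))) (by decide +kernel)
theorem bx5_4 : BoxOK sI cl13 cl6 cl4 t3 t1 b5_4 :=
  box_mk (TrL.c (I.pos (nat_lit 0) (nat_lit 0)) (xa (xa T3.l12 T3.l12) (xa T3.l12 T3.l12))
  (TrL.c (I.pos (nat_lit 0) (nat_lit 0)) (xa T1.l12 T1.l8)
  (TrL.c (I.pos (nat_lit 0) (nat_lit 134217730)) (xR T3.l4 T3.l9)
  (TrL.c (I.pos (nat_lit 0) (nat_lit 110514882)) (xR T1.l9 (xR T1.l11 (xR T1.l9 T1.l9)))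
  (TrL.c (I.pos (nat_lit 0) (nat_lit 0)) (xa T1.l8 T1.l12)
  (TrL.c (I.pos (nat_lit 0) (nat_lit 0)) T3.l10
  (TrL.c (I.mix (nat_lit 8088324) (nat_lit 110514882)) (xR T1.l11 (xR T1.l11 T1.l11))
  (TrL.c (I.mix (nat_lit 8088324) (nat_lit 89478486)) T3.l4
  TrL.n)))))))) (by decide +kernel)
theorem bx5_5 : BoxOK sI cl13 cl6 cl4 t3 t1 b5_5 :=
  box_mk (TrL.c (I.pos (nat_lit 0) (nat_lit 0)) T3.l0
  (TrL.c (I.pos (nat_lit 0) (nat_lit 0)) T1.l8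
  (TrL.c (I.pos (nat_lit 0) (nat_lit 134217730)) (xR T3.l4 T3.l9)
  (TrL.c (I.pos (nat_lit 0) (nat_lit 110514882)) (xR T1.l3 T1.l9)
  (TrL.c (I.pos (nat_lit 0) (nat_lit 0)) T1.l12
  (TrL.c (I.pos (nat_lit 0) (nat_lit 0)) T3.l10
  (TrL.c (I.mix (nat_lit 8088324) (nat_lit 110514882)) (xR T1.l11 T1.l11)
  (TrL.c (I.mix (nat_lit 8088324) (nat_lit 89478486)) T3.l2
  TrL.n)))))))) (by decide +kernel)
theorem bx5_6 : BoxOK sI cl13 cl6 cl4 t3 t1 b5_6 :=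
  box_mk (TrL.c (I.pos (nat_lit 0) (nat_lit 0)) (xa T3.l12 T3.l12)
  (TrL.c (I.pos (nat_lit 0) (nat_lit 0)) (xa T1.l12 T1.l8)
  (TrL.c (I.pos (nat_lit 0) (nat_lit 134217730)) (xR T3.l4 T3.l9)
  (TrL.c (I.pos (nat_lit 0) (nat_lit 110514882)) (xR T1.l9 T1.l11)
  (TrL.c (I.pos (nat_lit 0) (nat_lit 0)) (xa T1.l8 T1.l12)
  (TrL.c (I.pos (nat_lit 0) (nat_lit 0)) T3.l10
  (TrL.c (I.mix (nat_lit 8088324) (nat_lit 110514882)) (xR T1.l11 (xR T1.l11 (xR T1.l11 T1.l9)))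
  (TrL.c (I.mix (nat_lit 8088324) (nat_lit 89478486)) T3.l4
  TrL.n)))))))) (by decide +kernel)
theorem bx5_7 : BoxOK sI cl13 cl6 cl4 t3 t1 b5_7 :=
  box_mk (TrL.c (I.pos (nat_lit 0) (nat_lit 0)) T3.l0
  (TrL.c (I.pos (nat_lit 0) (nat_lit 0)) T1.l8
  (TrL.c (I.pos (nat_lit 0) (nat_lit 134217730)) (xR T3.l4 T3.l9)
  (TrL.c (I.pos (nat_lit 0) (nat_lit 110514882)) (xR T1.l3 T1.l9)
  (TrL.c (I.pos (nat_lit 0) (nat_lit 0)) T1.l12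
  (TrL.c (I.pos (nat_lit 0) (nat_lit 0)) T3.l10
  (TrL.c (I.mix (nat_lit 8088324) (nat_lit 110514882)) (xR T1.l11 T1.l11)
  (TrL.c (I.mix (nat_lit 8088324) (nat_lit 89478486)) T3.l2
  TrL.n)))))))) (by decide +kernel)
theorem bx5_8 : BoxOK sI cl13 cl6 cl4 t3 t1 b5_8 :=
  box_mk (TrL.c (I.pos (nat_lit 0) (nat_lit 0)) (xb (xa T3.l0 T3.l0) (xa T3.l0 T3.l0))
  (TrL.c (I.pos (nat_lit 0) (nat_lit 0)) (xb T1.l8 T1.l8)
  (TrL.c (I.pos (nat_lit 0) (nat_lit 134217730)) (xR T3.l4 T3.l4)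
  (TrL.c (I.pos (nat_lit 0) (nat_lit 110514882)) (xR T1.l3 (xR T1.l9 T1.l9))
  (TrL.c (I.pos (nat_lit 0) (nat_lit 0)) (xk T1.l13 T1.l13)
  (TrL.c (I.pos (nat_lit 0) (nat_lit 0)) T3.l10
  (TrL.c (I.mix (nat_lit 8088324) (nat_lit 110514882)) (xR T1.l11 (xR T1.l11 (xR T1.l11 T1.l11)))
  (TrL.c (I.mix (nat_lit 8088324) (nat_lit 89478486)) T3.l2
  TrL.n)))))))) (by decide +kernel)
theorem bx5_9 : BoxOK sI cl13 cl6 cl4 t3 t1 b5_9 :=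
  box_mk (TrL.c (I.pos (nat_lit 0) (nat_lit 0)) (xa (xa T3.l12 T3.l12) (xa T3.l12 T3.l12))
  (TrL.c (I.pos (nat_lit 0) (nat_lit 0)) (xa T1.l8 T1.l8)
  (TrL.c (I.pos (nat_lit 0) (nat_lit 134217730)) (xR T3.l4 T3.l9)
  (TrL.c (I.pos (nat_lit 0) (nat_lit 110514882)) (xR T1.l9 (xR T1.l9 (xR T1.l9 T1.l9)))
  (TrL.c (I.pos (nat_lit 0) (nat_lit 0)) (xa T1.l12 T1.l12)
  (TrL.c (I.pos (nat_lit 0) (nat_lit 0)) T3.l10
  (TrL.c (I.mix (nat_lit 8088324) (nat_lit 110514882)) T1.l11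
  (TrL.c (I.mix (nat_lit 8088324) (nat_lit 89478486)) T3.l4
  TrL.n)))))))) (by decide +kernel)
theorem bx5_10 : BoxOK sI cl13 cl6 cl4 t3 t1 b5_10 :=
  box_mk (TrL.c (I.pos (nat_lit 0) (nat_lit 0)) (xb (xa T3.l12 T3.l12) (xa T3.l12 T3.l12))
  (TrL.c (I.pos (nat_lit 0) (nat_lit 0)) (xb T1.l8 T1.l8)
  (TrL.c (I.pos (nat_lit 0) (nat_lit 134217730)) (xR T3.l4 T3.l9)
  (TrL.c (I.pos (nat_lit 0) (nat_lit 110514882)) (xR T1.l3 (xR T1.l9 T1.l9))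
  (TrL.c (I.pos (nat_lit 0) (nat_lit 0)) (xb T1.l12 T1.l12)
  (TrL.c (I.pos (nat_lit 0) (nat_lit 0)) T3.l10
  (TrL.c (I.mix (nat_lit 8088324) (nat_lit 110514882)) (xR T1.l11 T1.l11)
  (TrL.c (I.mix (nat_lit 8088324) (nat_lit 89478486)) T3.l2
  TrL.n)))))))) (by decide +kernel)
theorem bx5_11 : BoxOK sI cl13 cl6 cl4 t3 t1 b5_11 :=
  box_mk (TrL.c (I.pos (nat_lit 0) (nat_lit 0)) (xa T3.l12 T3.l12)
  (TrL.c (I.pos (nat_lit 0) (nat_lit 0)) T1.l12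
  (TrL.c (I.pos (nat_lit 0) (nat_lit 134217730)) (xR T3.l2 (xR T3.l9 (xR T3.l9 T3.l9)))
  (TrL.c (I.pos (nat_lit 0) (nat_lit 110514882)) T1.l11
  (TrL.c (I.pos (nat_lit 0) (nat_lit 0)) T1.l8
  (TrL.c (I.pos (nat_lit 0) (nat_lit 0)) T3.l10
  (TrL.c (I.mix (nat_lit 8088324) (nat_lit 110514882)) (xR T1.l11 (xR T1.l11 T1.l9))
  (TrL.c (I.mix (nat_lit 8088324) (nat_lit 89478486)) T3.l4
  TrL.n)))))))) (by decide +kernel)
theorem bx5_12 : BoxOK sI cl13 cl6 cl4 t3 t1 b5_12 :=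
  box_mk (TrL.c (I.pos (nat_lit 0) (nat_lit 0)) (xa (xb T3.l0 (xa T3.l0 T3.l0)) (xa (xb T3.l0 T3.l0) T3.l0))
  (TrL.c (I.pos (nat_lit 0) (nat_lit 0)) (xa (xk (xb T1.l8 T1.l8) T1.l8) (xk (xb T1.l2 T1.l2) (xb T1.l8 T1.l8)))
  (TrL.c (I.pos (nat_lit 0) (nat_lit 134217730)) (xR T3.l4 (xR T3.l4 T3.l4))
  (TrL.c (I.pos (nat_lit 0) (nat_lit 110514882)) (xR T1.l11 (xR (xR T1.l9 T1.l9) (xR T1.l9 (xa T1.l9 T1.l9))))
  (TrL.c (I.pos (nat_lit 0) (nat_lit 0)) (xa (xb (xk T1.l10 T1.l10) T1.l10) (xk (xb (xa T1.l10 T1.l10) (xa T1.l10 T1.l10)) (xb (xa T1.l10 T1.l10) (xa T1.l10 T1.l10))))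
  (TrL.c (I.pos (nat_lit 0) (nat_lit 0)) (xk (xa T3.l10 T3.l10) (xa T3.l10 T3.l10))
  (TrL.c (I.mix (nat_lit 8088324) (nat_lit 110514882)) (xR T1.l11 (xR T1.l11 (xR T1.l11 (xR T1.l11 T1.l11))))
  (TrL.c (I.mix (nat_lit 8088324) (nat_lit 89478486)) (xR T3.l11 (xR T3.l11 (xR T3.l11 T3.l11)))
  TrL.n)))))))) (by decide +kernel)
theorem bx5_13 : BoxOK sI cl13 cl6 cl4 t3 t1 b5_13 :=
  box_mk (TrL.c (I.pos (nat_lit 0) (nat_lit 0)) (xa (xb (xs T3.l0 T3.l0) (xa T3.l0 T3.l0)) (xb (xs T3.l0 (xa T3.l0 T3.l0)) (xa T3.l0 (xs T3.l0 T3.l0))))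
  (TrL.c (I.pos (nat_lit 0) (nat_lit 0)) (xk (xa T1.l8 T1.l8) (xb T1.l8 T1.l8))
  (TrL.c (I.pos (nat_lit 0) (nat_lit 134217730)) (xR T3.l4 (xR T3.l9 (xR T3.l9 T3.l4)))
  (TrL.c (I.pos (nat_lit 0) (nat_lit 110514882)) (xR T1.l3 (xR T1.l9 (xR T1.l9 T1.l9)))
  (TrL.c (I.pos (nat_lit 0) (nat_lit 0)) (xk T1.l10 T1.l10)
  (TrL.c (I.pos (nat_lit 0) (nat_lit 0)) T3.l10
  (TrL.c (I.mix (nat_lit 8088324) (nat_lit 110514882)) (xR T1.l11 (xR T1.l11 (xR T1.l11 T1.l11)))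
  (TrL.c (I.mix (nat_lit 8088324) (nat_lit 89478486)) (xR T3.l11 T3.l2)
  TrL.n)))))))) (by decide +kernel)
theorem sv5 : StarV sI cl13 cl6 cl4 t3 t1 t5 :=
  (bt_n (bt_n (bt_n (bt_b bx5_0) (bt_n (bt_b bx5_1) (bt_b bx5_2))) (bt_n (bt_n (bt_b bx5_3) (bt_b bx5_4)) (bt_n (bt_b bx5_5) (bt_b bx5_6)))) (bt_n (bt_n (bt_b bx5_7) (bt_n (bt_b bx5_8) (bt_b bx5_9))) (bt_n (bt_n (bt_b bx5_10) (bt_b bx5_11)) (bt_n (bt_b bx5_12) (bt_b bx5_13)))))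
def S5 : StarD := StarD.mk cl13 cl6 cl4 3 1 t5
def G : List StarD := [S0, S1, S2, S3, S4, S5]
theorem so0 : StarOK sI G S0 :=
  star_mk (by decide) (by decide) rfl rfl rfl rfl rfl rfl (rfl : _ = t2) (rfl : _ = t4)
  (st_mk (Pth.l (Pth.l (Pth.l Pth.z))) (nat_lit 193994892) (nat_lit 195608960) (by decide +kernel))
  (st_mk (Pth.l (Pth.l (Pth.l Pth.z))) (nat_lit 232314637) (nat_lit 234675051) (by decide +kernel))
  (st_mk (Pth.l (Pth.l (Pth.l Pth.z))) (nat_lit 277394819) (nat_lit 280844053) (by decide +kernel)) sv0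
theorem so1 : StarOK sI G S1 :=
  star_mk (by decide) (by decide) rfl rfl rfl rfl rfl rfl (rfl : _ = t4) (rfl : _ = t2)
  (st_mk (Pth.l (Pth.l (Pth.l Pth.z))) (nat_lit 98739791) (nat_lit 118339663) (by decide +kernel))
  (st_mk (Pth.l (Pth.l (Pth.l Pth.z))) (nat_lit 136240398) (nat_lit 156628490) (by decide +kernel))
  (st_mk (Pth.l (Pth.l (Pth.l Pth.z))) (nat_lit 180657938) (nat_lit 202165309) (by decide +kernel)) sv1
theorem so2 : StarOK sI G S2 :=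
  star_mk (by decide) (by decide) rfl rfl rfl rfl rfl rfl (rfl : _ = t0) (rfl : _ = t5)
  (st_mk (Pth.l (Pth.l (Pth.l Pth.z))) (nat_lit 374880577) (nat_lit 376817506) (by decide +kernel))
  (st_mk (Pth.l (Pth.l (Pth.l Pth.z))) (nat_lit 411806135) (nat_lit 414155994) (by decide +kernel))
  (st_mk (Pth.l (Pth.l (Pth.l Pth.z))) (nat_lit 454665272) (nat_lit 457548778) (by decide +kernel)) sv2
theorem so3 : StarOK sI G S3 :=
  star_mk (by decide) (by decide) rfl rfl rfl rfl rfl rfl (rfl : _ = t5) (rfl : _ = t0)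
  (st_mk (Pth.l (Pth.l (Pth.l Pth.z))) (nat_lit 97242167) (nat_lit 116026741) (by decide +kernel))
  (st_mk (Pth.l (Pth.l (Pth.l Pth.z))) (nat_lit 133369924) (nat_lit 152510992) (by decide +kernel))
  (st_mk (Pth.l (Pth.l (Pth.l Pth.z))) (nat_lit 175557744) (nat_lit 195183935) (by decide +kernel)) sv3
theorem so4 : StarOK sI G S4 :=
  star_mk (by decide) (by decide) rfl rfl rfl rfl rfl rfl (rfl : _ = t1) (rfl : _ = t3)
  (st_mk (Pth.l (Pth.l (Pth.l Pth.z))) (nat_lit 364798899) (nat_lit 368024620) (by decide +kernel))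
  (st_mk (Pth.l (Pth.l (Pth.l Pth.z))) (nat_lit 399695508) (nat_lit 403462878) (by decide +kernel))
  (st_mk (Pth.l (Pth.l (Pth.l Pth.z))) (nat_lit 439960827) (nat_lit 444416161) (by decide +kernel)) sv4
theorem so5 : StarOK sI G S5 :=
  star_mk (by decide) (by decide) rfl rfl rfl rfl rfl rfl (rfl : _ = t3) (rfl : _ = t1)
  (st_mk (Pth.l (Pth.l (Pth.l Pth.z))) (nat_lit 185843017) (nat_lit 187432014) (by decide +kernel))
  (st_mk (Pth.l (Pth.l (Pth.l Pth.z))) (nat_lit 220739626) (nat_lit 222761611) (by decide +kernel))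
  (st_mk (Pth.l (Pth.l (Pth.l Pth.z))) (nat_lit 261004945) (nat_lit 263620818) (by decide +kernel)) sv5
theorem ok : GroupOK (nat_lit 150274048) (nat_lit 209387520) G := grp_mk (allS_c so0 (allS_c so1 (allS_c so2 (allS_c so3 (allS_c so4 (allS_c so5 allS_n))))))
theorem cov : GCov G cl4 cl6 cl13 := cov_mk
  ⟨0, by decide, rfl, rfl, rfl⟩ ⟨1, by decide, rfl, rfl, rfl⟩ ⟨2, by decide, rfl, rfl, rfl⟩ ⟨3, by decide, rfl, rfl, rfl⟩ ⟨4, by decide, rfl, rfl, rfl⟩ ⟨5, by decide, rfl, rfl, rfl⟩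
end Q136_2


end Pool.Agent.Helper6.MONO
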