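import Pool.Agent.Helper6.MONO.Cert.C19

/-!
Certificate data (generated).
-/

set_option autoImplicit false
set_option linter.all false
noncomputable section
namespace Pool.Agent.Helper6.MONO


namespace Q136_3
def sI : I := I.pos (nat_lit 209321984) (nat_lit 268435456)
def b0_0 : Bx := Bx.mk (St.mk (I.pos (nat_lit 160514048) (nat_lit 231768064)) (I.mix (nat_lit 278528) (nat_lit 66453504)) (I.mix (nat_lit 8093696) (nat_lit 55279616)) (I.pos (nat_lit 194396160) (nat_lit 316145664)) (I.mix (nat_lit 112820224) (nat_lit 87031808)) (I.mix (nat_lit 66240512) (nat_lit 70352896)) (I.mix (nat_lit 114032640) (nat_lit 106446848)))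
  false (nat_lit 69850255)
def b0_1 : Bx := Bx.mk (St.mk (I.mix (nat_lit 21757952) (nat_lit 91357184)) (I.mix (nat_lit 7110656) (nat_lit 34635776)) (I.neg (nat_lit 4292608) (nat_lit 32768000)) (I.pos (nat_lit 83918848) (nat_lit 122175488)) (I.mix (nat_lit 39993344) (nat_lit 58572800)) (I.mix (nat_lit 43925504) (nat_lit 31604736)) (I.mix (nat_lit 28819456) (nat_lit 20627456)))
  false (nat_lit 11609052)
def b0_2 : Bx := Bx.mk (St.mk (I.pos (nat_lit 73351168) (nat_lit 109985792)) (I.mix (nat_lit 48513024) (nat_lit 9289728)) (I.neg (nat_lit 20873216) (nat_lit 65617920)) (I.pos (nat_lit 104185856) (nat_lit 132907008)) (I.mix (nat_lit 103825408) (nat_lit 48988160)) (I.mix (nat_lit 45334528) (nat_lit 87457792)) (I.mix (nat_lit 28508160) (nat_lit 62570496)))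
  false (nat_lit 0)
def b0_3 : Bx := Bx.mk (St.mk (I.mix (nat_lit 44761088) (nat_lit 21544960)) (I.mix (nat_lit 30048256) (nat_lit 5799936)) (I.neg (nat_lit 10993664) (nat_lit 25149440)) (I.pos (nat_lit 83034112) (nat_lit 98320384)) (I.mix (nat_lit 50266112) (nat_lit 30588928)) (I.mix (nat_lit 24018944) (nat_lit 37076992)) (I.mix (nat_lit 13795328) (nat_lit 9977856)))
  false (nat_lit 6815493)
def b0_4 : Bx := Bx.mk (St.mk (I.pos (nat_lit 65945600) (nat_lit 91717632)) (I.mix (nat_lit 10747904) (nat_lit 15319040)) (I.neg (nat_lit 15466496) (nat_lit 35897344)) (I.pos (nat_lit 102547456) (nat_lit 120586240)) (I.mix (nat_lit 44793856) (nat_lit 33472512)) (I.mix (nat_lit 30507008) (nat_lit 29065216)) (I.mix (nat_lit 17612800) (nat_lit 21954560)))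
  false (nat_lit 0)
def b0_5 : Bx := Bx.mk (St.mk (I.mix (nat_lit 56442880) (nat_lit 3850240)) (I.mix (nat_lit 8077312) (nat_lit 13467648)) (I.neg (nat_lit 17219584) (nat_lit 29114368)) (I.pos (nat_lit 85360640) (nat_lit 100368384)) (I.mix (nat_lit 29982720) (nat_lit 28655616)) (I.mix (nat_lit 24330240) (nat_lit 22429696)) (I.mix (nat_lit 8830976) (nat_lit 12664832)))
  false (nat_lit 0)
def b0_6 : Bx := Bx.mk (St.mk (I.pos (nat_lit 207044608) (nat_lit 258113536)) (I.mix (nat_lit 16498688) (nat_lit 14942208)) (I.neg (nat_lit 44941312) (nat_lit 109101056)) (I.pos (nat_lit 264765440) (nat_lit 351289344)) (I.mix (nat_lit 115703808) (nat_lit 47071232)) (I.mix (nat_lit 70516736) (nat_lit 65929216)) (I.mix (nat_lit 102547456) (nat_lit 128663552)))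
  false (nat_lit 26989574)
def b0_7 : Bx := Bx.mk (St.mk (I.pos (nat_lit 196001792) (nat_lit 249315328)) (I.mix (nat_lit 14417920) (nat_lit 31408128)) (I.neg (nat_lit 14123008) (nat_lit 97271808)) (I.pos (nat_lit 253968384) (nat_lit 328531968)) (I.mix (nat_lit 122077184) (nat_lit 64520192)) (I.mix (nat_lit 82952192) (nat_lit 76955648)) (I.mix (nat_lit 120160256) (nat_lit 142245888)))
  false (nat_lit 52931612)
def b0_8 : Bx := Bx.mk (St.mk (I.pos (nat_lit 187154432) (nat_lit 245596160)) (I.pos (nat_lit 9502720) (nat_lit 64077824)) (I.mix (nat_lit 44384256) (nat_lit 44826624)) (I.pos (nat_lit 252985344) (nat_lit 334872576)) (I.mix (nat_lit 114262016) (nat_lit 108134400)) (I.mix (nat_lit 97533952) (nat_lit 86147072)) (I.mix (nat_lit 170459136) (nat_lit 129056768)))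
  false (nat_lit 70445908)
def b0_9 : Bx := Bx.mk (St.mk (I.pos (nat_lit 75644928) (nat_lit 155860992)) (I.neg (nat_lit 6504448) (nat_lit 49201152)) (I.neg (nat_lit 25051136) (nat_lit 64995328)) (I.pos (nat_lit 111099904) (nat_lit 181387264)) (I.mix (nat_lit 86917120) (nat_lit 46366720)) (I.mix (nat_lit 33619968) (nat_lit 68173824)) (I.mix (nat_lit 20594688) (nat_lit 61259776)))
  false (nat_lit 0)
def b0_10 : Bx := Bx.mk (St.mk (I.mix (nat_lit 28180480) (nat_lit 44974080)) (I.mix (nat_lit 30900224) (nat_lit 4669440)) (I.neg (nat_lit 11796480) (nat_lit 27246592)) (I.pos (nat_lit 81723392) (nat_lit 97501184)) (I.mix (nat_lit 46514176) (nat_lit 34488320)) (I.mix (nat_lit 22151168) (nat_lit 38977536)) (I.mix (nat_lit 11010048) (nat_lit 16580608)))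
  false (nat_lit 0)
def b0_11 : Bx := Bx.mk (St.mk (I.pos (nat_lit 161939456) (nat_lit 214876160)) (I.mix (nat_lit 1753088) (nat_lit 60293120)) (I.mix (nat_lit 19070976) (nat_lit 52445184)) (I.pos (nat_lit 205996032) (nat_lit 279396352)) (I.mix (nat_lit 120143872) (nat_lit 55230464)) (I.mix (nat_lit 95436800) (nat_lit 71483392)) (I.mix (nat_lit 85983232) (nat_lit 67993600)))
  false (nat_lit 65109119)
def b0_12 : Bx := Bx.mk (St.mk (I.mix (nat_lit 44957696) (nat_lit 70565888)) (I.mix (nat_lit 8814592) (nat_lit 30900224)) (I.neg (nat_lit 5931008) (nat_lit 27246592)) (I.pos (nat_lit 81723392) (nat_lit 109264896)) (I.mix (nat_lit 40796160) (nat_lit 46514176)) (I.mix (nat_lit 42565632) (nat_lit 24477696)) (I.mix (nat_lit 16007168) (nat_lit 16580608)))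
  false (nat_lit 2651920)
def b0_13 : Bx := Bx.mk (St.mk (I.pos (nat_lit 164937728) (nat_lit 202555392)) (I.mix (nat_lit 21381120) (nat_lit 15122432)) (I.neg (nat_lit 5996544) (nat_lit 48463872)) (I.pos (nat_lit 199786496) (nat_lit 242974720)) (I.mix (nat_lit 69058560) (nat_lit 72400896)) (I.mix (nat_lit 67092480) (nat_lit 61800448)) (I.mix (nat_lit 63995904) (nat_lit 51986432)))
  false (nat_lit 31767351)
def b0_14 : Bx := Bx.mk (St.mk (I.pos (nat_lit 138674176) (nat_lit 179142656)) (I.neg (nat_lit 901120) (nat_lit 33357824)) (I.neg (nat_lit 17776640) (nat_lit 58277888)) (I.pos (nat_lit 163659776) (nat_lit 211222528)) (I.mix (nat_lit 40124416) (nat_lit 24035328)) (I.mix (nat_lit 20611072) (nat_lit 25493504)) (I.mix (nat_lit 19300352) (nat_lit 27541504)))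
  false (nat_lit 0)
def b0_15 : Bx := Bx.mk (St.mk (I.pos (nat_lit 160792576) (nat_lit 206274560)) (I.mix (nat_lit 8421376) (nat_lit 31227904)) (I.mix (nat_lit 34144256) (nat_lit 18071552)) (I.pos (nat_lit 206012416) (nat_lit 252198912)) (I.mix (nat_lit 110182400) (nat_lit 88080384)) (I.mix (nat_lit 122454016) (nat_lit 77496320)) (I.mix (nat_lit 118980608) (nat_lit 68780032)))
  false (nat_lit 52618473)
def b0_16 : Bx := Bx.mk (St.mk (I.pos (nat_lit 133529600) (nat_lit 181682176)) (I.mix (nat_lit 33144832) (nat_lit 7110656)) (I.neg (nat_lit 9093120) (nat_lit 56393728)) (I.pos (nat_lit 159711232) (nat_lit 213516288)) (I.mix (nat_lit 60489728) (nat_lit 36847616)) (I.mix (nat_lit 44728320) (nat_lit 33226752)) (I.mix (nat_lit 41304064) (nat_lit 32669696)))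
  false (nat_lit 2931874)
def b0_17 : Bx := Bx.mk (St.mk (I.pos (nat_lit 150421504) (nat_lit 184188928)) (I.mix (nat_lit 22134784) (nat_lit 8650752)) (I.neg (nat_lit 7454720) (nat_lit 46235648)) (I.pos (nat_lit 181272576) (nat_lit 216629248)) (I.mix (nat_lit 46989312) (nat_lit 29720576)) (I.mix (nat_lit 30474240) (nat_lit 28606464)) (I.mix (nat_lit 26968064) (nat_lit 26705920)))
  false (nat_lit 0)
def b0_18 : Bx := Bx.mk (St.mk (I.pos (nat_lit 162742272) (nat_lit 196870144)) (I.mix (nat_lit 22888448) (nat_lit 12288000)) (I.neg (nat_lit 7258112) (nat_lit 50135040)) (I.pos (nat_lit 197459968) (nat_lit 234160128)) (I.mix (nat_lit 68780032) (nat_lit 56180736)) (I.mix (nat_lit 60915712) (nat_lit 54362112)) (I.mix (nat_lit 56016896) (nat_lit 48463872)))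
  false (nat_lit 7710592)
def b0_19 : Bx := Bx.mk (St.mk (I.pos (nat_lit 135593984) (nat_lit 163348480)) (I.neg (nat_lit 8126464) (nat_lit 34766848)) (I.neg (nat_lit 26296320) (nat_lit 59801600)) (I.pos (nat_lit 160382976) (nat_lit 190676992)) (I.mix (nat_lit 40452096) (nat_lit 16367616)) (I.mix (nat_lit 17416192) (nat_lit 21413888)) (I.mix (nat_lit 16252928) (nat_lit 24723456)))
  false (nat_lit 0)
def b0_20 : Bx := Bx.mk (St.mk (I.pos (nat_lit 167575552) (nat_lit 201900032)) (I.mix (nat_lit 15417344) (nat_lit 15974400)) (I.neg (nat_lit 3653632) (nat_lit 41795584)) (I.pos (nat_lit 206553088) (nat_lit 241205248)) (I.mix (nat_lit 57540608) (nat_lit 52789248)) (I.mix (nat_lit 50970624) (nat_lit 45285376)) (I.mix (nat_lit 46678016) (nat_lit 36995072)))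
  false (nat_lit 0)
def t0 : BTr := (BTr.n (BTr.n (BTr.n (BTr.n (BTr.b b0_0) (BTr.b b0_1)) (BTr.n (BTr.b b0_2) (BTr.n (BTr.b b0_3) (BTr.b b0_4)))) (BTr.n (BTr.n (BTr.b b0_5) (BTr.b b0_6)) (BTr.n (BTr.b b0_7) (BTr.n (BTr.b b0_8) (BTr.b b0_9))))) (BTr.n (BTr.n (BTr.n (BTr.b b0_10) (BTr.b b0_11)) (BTr.n (BTr.b b0_12) (BTr.n (BTr.b b0_13) (BTr.b b0_14)))) (BTr.n (BTr.n (BTr.b b0_15) (BTr.n (BTr.b b0_16) (BTr.b b0_17))) (BTr.n (BTr.b b0_18) (BTr.n (BTr.b b0_19) (BTr.b b0_20))))))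
namespace T0
def l0 : Tr := Tr.L (Pth.l (Pth.l (Pth.l (Pth.l Pth.z))))
def l1 : Tr := Tr.L (Pth.l (Pth.l (Pth.l (Pth.r Pth.z))))
def l2 : Tr := Tr.L (Pth.l (Pth.l (Pth.r (Pth.l Pth.z))))
def l3 : Tr := Tr.L (Pth.l (Pth.l (Pth.r (Pth.r (Pth.l Pth.z)))))
def l4 : Tr := Tr.L (Pth.l (Pth.l (Pth.r (Pth.r (Pth.r Pth.z)))))
def l5 : Tr := Tr.L (Pth.l (Pth.r (Pth.l (Pth.l Pth.z))))
def l6 : Tr := Tr.L (Pth.l (Pth.r (Pth.l (Pth.r Pth.z))))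
def l7 : Tr := Tr.L (Pth.l (Pth.r (Pth.r (Pth.l Pth.z))))
def l8 : Tr := Tr.L (Pth.l (Pth.r (Pth.r (Pth.r (Pth.l Pth.z)))))
def l9 : Tr := Tr.L (Pth.l (Pth.r (Pth.r (Pth.r (Pth.r Pth.z)))))
def l10 : Tr := Tr.L (Pth.r (Pth.l (Pth.l (Pth.l Pth.z))))
def l11 : Tr := Tr.L (Pth.r (Pth.l (Pth.l (Pth.r Pth.z))))
def l12 : Tr := Tr.L (Pth.r (Pth.l (Pth.r (Pth.l Pth.z))))
def l13 : Tr := Tr.L (Pth.r (Pth.l (Pth.r (Pth.r (Pth.l Pth.z)))))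
def l14 : Tr := Tr.L (Pth.r (Pth.l (Pth.r (Pth.r (Pth.r Pth.z)))))
def l15 : Tr := Tr.L (Pth.r (Pth.r (Pth.l (Pth.l Pth.z))))
def l16 : Tr := Tr.L (Pth.r (Pth.r (Pth.l (Pth.r (Pth.l Pth.z)))))
def l17 : Tr := Tr.L (Pth.r (Pth.r (Pth.l (Pth.r (Pth.r Pth.z)))))
def l18 : Tr := Tr.L (Pth.r (Pth.r (Pth.r (Pth.l Pth.z))))
def l19 : Tr := Tr.L (Pth.r (Pth.r (Pth.r (Pth.r (Pth.l Pth.z)))))
def l20 : Tr := Tr.L (Pth.r (Pth.r (Pth.r (Pth.r (Pth.r Pth.z)))))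
end T0
def b1_0 : Bx := Bx.mk (St.mk (I.pos (nat_lit 160514048) (nat_lit 234831872)) (I.mix (nat_lit 278528) (nat_lit 48873472)) (I.mix (nat_lit 278528) (nat_lit 68026368)) (I.pos (nat_lit 99155968) (nat_lit 234848256)) (I.mix (nat_lit 102678528) (nat_lit 75186176)) (I.mix (nat_lit 69353472) (nat_lit 65306624)) (I.mix (nat_lit 108232704) (nat_lit 93290496)))
  false (nat_lit 31295356)
def b1_1 : Bx := Bx.mk (St.mk (I.mix (nat_lit 3850240) (nat_lit 133693440)) (I.mix (nat_lit 5111808) (nat_lit 21544960)) (I.mix (nat_lit 14139392) (nat_lit 12140544)) (I.mix (nat_lit 557056) (nat_lit 84049920)) (I.mix (nat_lit 34504704) (nat_lit 40648704)) (I.mix (nat_lit 32718848) (nat_lit 25018368)) (I.mix (nat_lit 28475392) (nat_lit 19726336)))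
  false (nat_lit 0)
def b1_2 : Bx := Bx.mk (St.mk (I.pos (nat_lit 110854144) (nat_lit 150175744)) (I.mix (nat_lit 39370752) (nat_lit 8536064)) (I.neg (nat_lit 2179072) (nat_lit 49315840)) (I.pos (nat_lit 50593792) (nat_lit 100728832)) (I.mix (nat_lit 89964544) (nat_lit 45498368)) (I.mix (nat_lit 36126720) (nat_lit 72171520)) (I.mix (nat_lit 30244864) (nat_lit 64733184)))
  false (nat_lit 20786857)
def b1_3 : Bx := Bx.mk (St.mk (I.mix (nat_lit 8650752) (nat_lit 100515840)) (I.mix (nat_lit 21495808) (nat_lit 3538944)) (I.mix (nat_lit 20676608) (nat_lit 557056)) (I.mix (nat_lit 557056) (nat_lit 54312960)) (I.mix (nat_lit 39436288) (nat_lit 16662528)) (I.mix (nat_lit 14303232) (nat_lit 31932416)) (I.mix (nat_lit 7536640) (nat_lit 20070400)))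
  false (nat_lit 0)
def b1_4 : Bx := Bx.mk (St.mk (I.pos (nat_lit 198983680) (nat_lit 247300096)) (I.mix (nat_lit 11304960) (nat_lit 25100288)) (I.mix (nat_lit 46399488) (nat_lit 19857408)) (I.pos (nat_lit 177455104) (nat_lit 251871232)) (I.mix (nat_lit 103464960) (nat_lit 38060032)) (I.mix (nat_lit 61210624) (nat_lit 55197696)) (I.mix (nat_lit 97681408) (nat_lit 99205120)))
  false (nat_lit 3828179)
def b1_5 : Bx := Bx.mk (St.mk (I.pos (nat_lit 192217088) (nat_lit 242597888)) (I.pos (nat_lit 5881856) (nat_lit 48578560)) (I.mix (nat_lit 4947968) (nat_lit 65601536)) (I.pos (nat_lit 171720704) (nat_lit 250855424)) (I.mix (nat_lit 109510656) (nat_lit 93519872)) (I.mix (nat_lit 93929472) (nat_lit 76267520)) (I.mix (nat_lit 155631616) (nat_lit 121356288)))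
  false (nat_lit 47630886)
def b1_6 : Bx := Bx.mk (St.mk (I.mix (nat_lit 12025856) (nat_lit 96026624)) (I.mix (nat_lit 1867776) (nat_lit 2686976)) (I.mix (nat_lit 6668288) (nat_lit 557056)) (I.mix (nat_lit 557056) (nat_lit 48218112)) (I.mix (nat_lit 7864320) (nat_lit 4816896)) (I.mix (nat_lit 4472832) (nat_lit 4128768)) (I.mix (nat_lit 884736) (nat_lit 1572864)))
  false (nat_lit 0)
def b1_7 : Bx := Bx.mk (St.mk (I.pos (nat_lit 103776256) (nat_lit 134152192)) (I.mix (nat_lit 7913472) (nat_lit 12107776)) (I.mix (nat_lit 17301504) (nat_lit 1277952)) (I.pos (nat_lit 46792704) (nat_lit 84475904)) (I.mix (nat_lit 38191104) (nat_lit 22757376)) (I.mix (nat_lit 22691840) (nat_lit 22659072)) (I.mix (nat_lit 18661376) (nat_lit 21610496)))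
  false (nat_lit 0)
def b1_8 : Bx := Bx.mk (St.mk (I.pos (nat_lit 207945728) (nat_lit 254787584)) (I.mix (nat_lit 14024704) (nat_lit 12763136)) (I.neg (nat_lit 7208960) (nat_lit 55607296)) (I.pos (nat_lit 190038016) (nat_lit 270811136)) (I.mix (nat_lit 103448576) (nat_lit 27213824)) (I.mix (nat_lit 51183616) (nat_lit 52887552)) (I.mix (nat_lit 81870848) (nat_lit 99074048)))
  false (nat_lit 0)
def b1_9 : Bx := Bx.mk (St.mk (I.pos (nat_lit 115933184) (nat_lit 184238080)) (I.neg (nat_lit 819200) (nat_lit 42434560)) (I.neg (nat_lit 6750208) (nat_lit 50348032)) (I.pos (nat_lit 63438848) (nat_lit 147062784)) (I.mix (nat_lit 75857920) (nat_lit 47857664)) (I.mix (nat_lit 37240832) (nat_lit 58458112)) (I.mix (nat_lit 33193984) (nat_lit 63651840)))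
  false (nat_lit 37460396)
def b1_10 : Bx := Bx.mk (St.mk (I.pos (nat_lit 17416192) (nat_lit 114769920)) (I.mix (nat_lit 22020096) (nat_lit 3506176)) (I.mix (nat_lit 20512768) (nat_lit 196608)) (I.pos (nat_lit 1507328) (nat_lit 66256896)) (I.mix (nat_lit 35028992) (nat_lit 27213824)) (I.mix (nat_lit 17448960) (nat_lit 30015488)) (I.mix (nat_lit 10780672) (nat_lit 21495808)))
  false (nat_lit 0)
def b1_11 : Bx := Bx.mk (St.mk (I.pos (nat_lit 170229760) (nat_lit 215203840)) (I.mix (nat_lit 14270464) (nat_lit 43532288)) (I.mix (nat_lit 11321344) (nat_lit 62062592)) (I.pos (nat_lit 118702080) (nat_lit 196837376)) (I.mix (nat_lit 133709824) (nat_lit 53821440)) (I.mix (nat_lit 105644032) (nat_lit 64389120)) (I.mix (nat_lit 117473280) (nat_lit 70828032)))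
  false (nat_lit 0)
def b1_12 : Bx := Bx.mk (St.mk (I.mix (nat_lit 10174464) (nat_lit 131301376)) (I.mix (nat_lit 12222464) (nat_lit 24576000)) (I.mix (nat_lit 14991360) (nat_lit 15155200)) (I.mix (nat_lit 557056) (nat_lit 82395136)) (I.mix (nat_lit 44187648) (nat_lit 31277056)) (I.mix (nat_lit 41648128) (nat_lit 24838144)) (I.mix (nat_lit 29491200) (nat_lit 17825792)))
  false (nat_lit 9587860)
def b1_13 : Bx := Bx.mk (St.mk (I.pos (nat_lit 169426944) (nat_lit 207831040)) (I.mix (nat_lit 33325056) (nat_lit 4980736)) (I.mix (nat_lit 44482560) (nat_lit 2670592)) (I.pos (nat_lit 116375552) (nat_lit 182140928)) (I.mix (nat_lit 67846144) (nat_lit 61472768)) (I.mix (nat_lit 60833792) (nat_lit 56803328)) (I.mix (nat_lit 68599808) (nat_lit 61521920)))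
  false (nat_lit 56783897)
def b1_14 : Bx := Bx.mk (St.mk (I.pos (nat_lit 150339584) (nat_lit 183926784)) (I.neg (nat_lit 4636672) (nat_lit 36290560)) (I.neg (nat_lit 10403840) (nat_lit 49414144)) (I.pos (nat_lit 95748096) (nat_lit 146636800)) (I.mix (nat_lit 42991616) (nat_lit 19464192)) (I.mix (nat_lit 16384000) (nat_lit 24903680)) (I.mix (nat_lit 17874944) (nat_lit 29327360)))
  false (nat_lit 0)
def b1_15 : Bx := Bx.mk (St.mk (I.pos (nat_lit 169197568) (nat_lit 212582400)) (I.mix (nat_lit 21807104) (nat_lit 21135360)) (I.mix (nat_lit 24936448) (nat_lit 29360128)) (I.pos (nat_lit 119603200) (nat_lit 188039168)) (I.mix (nat_lit 115212288) (nat_lit 83427328)) (I.mix (nat_lit 116342784) (nat_lit 78544896)) (I.mix (nat_lit 133906432) (nat_lit 86736896)))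
  false (nat_lit 61513184)
def b1_16 : Bx := Bx.mk (St.mk (I.pos (nat_lit 155074560) (nat_lit 184401920)) (I.neg (nat_lit 278528) (nat_lit 28655616)) (I.neg (nat_lit 4915200) (nat_lit 38453248)) (I.pos (nat_lit 99729408) (nat_lit 147636224)) (I.mix (nat_lit 52477952) (nat_lit 17186816)) (I.mix (nat_lit 26263552) (nat_lit 26329088)) (I.mix (nat_lit 29622272) (nat_lit 30408704)))
  false (nat_lit 0)
def b1_17 : Bx := Bx.mk (St.mk (I.pos (nat_lit 151306240) (nat_lit 189104128)) (I.mix (nat_lit 29736960) (nat_lit 2129920)) (I.neg (nat_lit 1196032) (nat_lit 39927808)) (I.pos (nat_lit 95748096) (nat_lit 154435584)) (I.mix (nat_lit 51691520) (nat_lit 22003712)) (I.mix (nat_lit 29245440) (nat_lit 29638656)) (I.mix (nat_lit 32686080) (nat_lit 33390592)))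
  false (nat_lit 0)
def b1_18 : Bx := Bx.mk (St.mk (I.pos (nat_lit 176488448) (nat_lit 205815808)) (I.mix (nat_lit 22642688) (nat_lit 7241728)) (I.mix (nat_lit 27394048) (nat_lit 7176192)) (I.pos (nat_lit 125173760) (nat_lit 178946048)) (I.mix (nat_lit 56147968) (nat_lit 41402368)) (I.mix (nat_lit 45481984) (nat_lit 46202880)) (I.mix (nat_lit 49217536) (nat_lit 51216384)))
  false (nat_lit 12813447)
def b1_19 : Bx := Bx.mk (St.mk (I.pos (nat_lit 168148992) (nat_lit 204488704)) (I.mix (nat_lit 34586624) (nat_lit 5718016)) (I.mix (nat_lit 46333952) (nat_lit 3702784)) (I.pos (nat_lit 113885184) (nat_lit 174424064)) (I.mix (nat_lit 71892992) (nat_lit 53411840)) (I.mix (nat_lit 57049088) (nat_lit 54476800)) (I.mix (nat_lit 65208320) (nat_lit 57917440)))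
  false (nat_lit 48966526)
def b1_20 : Bx := Bx.mk (St.mk (I.pos (nat_lit 145850368) (nat_lit 180862976)) (I.neg (nat_lit 4980736) (nat_lit 37650432)) (I.neg (nat_lit 11649024) (nat_lit 51232768)) (I.pos (nat_lit 91815936) (nat_lit 142180352)) (I.mix (nat_lit 50249728) (nat_lit 21839872)) (I.mix (nat_lit 19677184) (nat_lit 30801920)) (I.mix (nat_lit 21921792) (nat_lit 36618240)))
  false (nat_lit 0)
def t1 : BTr := (BTr.n (BTr.n (BTr.n (BTr.n (BTr.b b1_0) (BTr.b b1_1)) (BTr.n (BTr.b b1_2) (BTr.n (BTr.b b1_3) (BTr.b b1_4)))) (BTr.n (BTr.n (BTr.b b1_5) (BTr.b b1_6)) (BTr.n (BTr.b b1_7) (BTr.n (BTr.b b1_8) (BTr.b b1_9))))) (BTr.n (BTr.n (BTr.n (BTr.b b1_10) (BTr.b b1_11)) (BTr.n (BTr.b b1_12) (BTr.n (BTr.b b1_13) (BTr.b b1_14)))) (BTr.n (BTr.n (BTr.b b1_15) (BTr.n (BTr.b b1_16) (BTr.b b1_17))) (BTr.n (BTr.b b1_18) (BTr.n (BTr.b b1_19)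 (BTr.b b1_20))))))
namespace T1
def l0 : Tr := Tr.L (Pth.l (Pth.l (Pth.l (Pth.l Pth.z))))
def l1 : Tr := Tr.L (Pth.l (Pth.l (Pth.l (Pth.r Pth.z))))
def l2 : Tr := Tr.L (Pth.l (Pth.l (Pth.r (Pth.l Pth.z))))
def l3 : Tr := Tr.L (Pth.l (Pth.l (Pth.r (Pth.r (Pth.l Pth.z)))))
def l4 : Tr := Tr.L (Pth.l (Pth.l (Pth.r (Pth.r (Pth.r Pth.z)))))
def l5 : Tr := Tr.L (Pth.l (Pth.r (Pth.l (Pth.l Pth.z))))
def l6 : Tr := Tr.L (Pth.l (Pth.r (Pth.l (Pth.r Pth.z))))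
def l7 : Tr := Tr.L (Pth.l (Pth.r (Pth.r (Pth.l Pth.z))))
def l8 : Tr := Tr.L (Pth.l (Pth.r (Pth.r (Pth.r (Pth.l Pth.z)))))
def l9 : Tr := Tr.L (Pth.l (Pth.r (Pth.r (Pth.r (Pth.r Pth.z)))))
def l10 : Tr := Tr.L (Pth.r (Pth.l (Pth.l (Pth.l Pth.z))))
def l11 : Tr := Tr.L (Pth.r (Pth.l (Pth.l (Pth.r Pth.z))))
def l12 : Tr := Tr.L (Pth.r (Pth.l (Pth.r (Pth.l Pth.z))))
def l13 : Tr := Tr.L (Pth.r (Pth.l (Pth.r (Pth.r (Pth.l Pth.z)))))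
def l14 : Tr := Tr.L (Pth.r (Pth.l (Pth.r (Pth.r (Pth.r Pth.z)))))
def l15 : Tr := Tr.L (Pth.r (Pth.r (Pth.l (Pth.l Pth.z))))
def l16 : Tr := Tr.L (Pth.r (Pth.r (Pth.l (Pth.r (Pth.l Pth.z)))))
def l17 : Tr := Tr.L (Pth.r (Pth.r (Pth.l (Pth.r (Pth.r Pth.z)))))
def l18 : Tr := Tr.L (Pth.r (Pth.r (Pth.r (Pth.l Pth.z))))
def l19 : Tr := Tr.L (Pth.r (Pth.r (Pth.r (Pth.r (Pth.l Pth.z)))))
def l20 : Tr := Tr.L (Pth.r (Pth.r (Pth.r (Pth.r (Pth.r Pth.z)))))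
end T1
def b2_0 : Bx := Bx.mk (St.mk (I.pos (nat_lit 143310848) (nat_lit 215302144)) (I.mix (nat_lit 278528) (nat_lit 92946432)) (I.mix (nat_lit 5406720) (nat_lit 75169792)) (I.pos (nat_lit 375537664) (nat_lit 472530944)) (I.mix (nat_lit 165134336) (nat_lit 91783168)) (I.mix (nat_lit 89096192) (nat_lit 89653248)) (I.mix (nat_lit 116899840) (nat_lit 129679360)))
  false (nat_lit 184858918)
def b2_1 : Bx := Bx.mk (St.mk (I.mix (nat_lit 51363840) (nat_lit 18726912)) (I.mix (nat_lit 15007744) (nat_lit 82477056)) (I.neg (nat_lit 54984704) (nat_lit 81674240)) (I.pos (nat_lit 257671168) (nat_lit 289292288)) (I.mix (nat_lit 47677440) (nat_lit 135561216)) (I.mix (nat_lit 88965120) (nat_lit 72613888)) (I.mix (nat_lit 50724864) (nat_lit 41189376)))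
  true (nat_lit 0)
def b2_2 : Bx := Bx.mk (St.mk (I.pos (nat_lit 2785280) (nat_lit 51363840)) (I.neg (nat_lit 30916608) (nat_lit 82477056)) (I.neg (nat_lit 55361536) (nat_lit 81674240)) (I.pos (nat_lit 261537792) (nat_lit 289292288)) (I.mix (nat_lit 135561216) (nat_lit 47677440)) (I.mix (nat_lit 72613888) (nat_lit 88965120)) (I.mix (nat_lit 50724864) (nat_lit 41189376)))
  false (nat_lit 47903977)
def b2_3 : Bx := Bx.mk (St.mk (I.pos (nat_lit 11452416) (nat_lit 119734272)) (I.neg (nat_lit 9306112) (nat_lit 83869696)) (I.neg (nat_lit 17907712) (nat_lit 86982656)) (I.pos (nat_lit 261029888) (nat_lit 328663040)) (I.mix (nat_lit 135331840) (nat_lit 76939264)) (I.mix (nat_lit 72712192) (nat_lit 86704128)) (I.mix (nat_lit 79626240) (nat_lit 75300864)))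
  false (nat_lit 90799590)
def b2_4 : Bx := Bx.mk (St.mk (I.pos (nat_lit 95076352) (nat_lit 192610304)) (I.mix (nat_lit 34537472) (nat_lit 81346560)) (I.mix (nat_lit 46235648) (nat_lit 73777152)) (I.pos (nat_lit 302628864) (nat_lit 438403072)) (I.mix (nat_lit 177864704) (nat_lit 107315200)) (I.mix (nat_lit 138477568) (nat_lit 109363200)) (I.mix (nat_lit 140460032) (nat_lit 137035776)))
  false (nat_lit 90889636)
def b2_5 : Bx := Bx.mk (St.mk (I.neg (nat_lit 11436032) (nat_lit 119734272)) (I.pos (nat_lit 9306112) (nat_lit 83869696)) (I.neg (nat_lit 17907712) (nat_lit 86982656)) (I.pos (nat_lit 261029888) (nat_lit 328663040)) (I.mix (nat_lit 76939264) (nat_lit 135331840)) (I.mix (nat_lit 86704128) (nat_lit 72728576)) (I.mix (nat_lit 79626240) (nat_lit 75317248)))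
  true (nat_lit 0)
def b2_6 : Bx := Bx.mk (St.mk (I.pos (nat_lit 216154112) (nat_lit 284491776)) (I.mix (nat_lit 18595840) (nat_lit 54394880)) (I.neg (nat_lit 19038208) (nat_lit 162889728)) (I.pos (nat_lit 460357632) (nat_lit 570572800)) (I.mix (nat_lit 91258880) (nat_lit 77152256)) (I.mix (nat_lit 73678848) (nat_lit 66125824)) (I.mix (nat_lit 110952448) (nat_lit 127336448)))
  false (nat_lit 139511192)
def b2_7 : Bx := Bx.mk (St.mk (I.mix (nat_lit 14286848) (nat_lit 18399232)) (I.mix (nat_lit 30048256) (nat_lit 9011200)) (I.neg (nat_lit 56934400) (nat_lit 66830336)) (I.pos (nat_lit 257851392) (nat_lit 268271616)) (I.mix (nat_lit 44810240) (nat_lit 29851648)) (I.mix (nat_lit 23855104) (nat_lit 26787840)) (I.mix (nat_lit 4243456) (nat_lit 12468224)))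
  false (nat_lit 0)
def b2_8 : Bx := Bx.mk (St.mk (I.pos (nat_lit 196722688) (nat_lit 242565120)) (I.pos (nat_lit 4079616) (nat_lit 47120384)) (I.neg (nat_lit 20398080) (nat_lit 86212608)) (I.pos (nat_lit 427294720) (nat_lit 490373120)) (I.mix (nat_lit 96862208) (nat_lit 97681408)) (I.mix (nat_lit 76365824) (nat_lit 67928064)) (I.mix (nat_lit 115982336) (nat_lit 111230976)))
  false (nat_lit 108681605)
def b2_9 : Bx := Bx.mk (St.mk (I.pos (nat_lit 5914624) (nat_lit 30294016)) (I.neg (nat_lit 5767168) (nat_lit 31948800)) (I.neg (nat_lit 54935552) (nat_lit 66617344)) (I.pos (nat_lit 259080192) (nat_lit 270401536)) (I.mix (nat_lit 63258624) (nat_lit 42074112)) (I.mix (nat_lit 37715968) (nat_lit 42795008)) (I.mix (nat_lit 8634368) (nat_lit 18268160)))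
  false (nat_lit 0)
def b2_10 : Bx := Bx.mk (St.mk (I.pos (nat_lit 232865792) (nat_lit 276496384)) (I.mix (nat_lit 34734080) (nat_lit 15548416)) (I.neg (nat_lit 84787200) (nat_lit 196575232)) (I.pos (nat_lit 465174528) (nat_lit 553238528)) (I.mix (nat_lit 100073472) (nat_lit 45498368)) (I.mix (nat_lit 53706752) (nat_lit 66371584)) (I.mix (nat_lit 77021184) (nat_lit 141344768)))
  false (nat_lit 87371540)
def b2_11 : Bx := Bx.mk (St.mk (I.mix (nat_lit 11157504) (nat_lit 13582336)) (I.mix (nat_lit 8519680) (nat_lit 17547264)) (I.neg (nat_lit 57491456) (nat_lit 65306624)) (I.pos (nat_lit 258195456) (nat_lit 266059776)) (I.mix (nat_lit 25198592) (nat_lit 32391168)) (I.mix (nat_lit 20217856) (nat_lit 19595264)) (I.mix (nat_lit 294912) (nat_lit 9355264)))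
  false (nat_lit 0)
def b2_12 : Bx := Bx.mk (St.mk (I.pos (nat_lit 248168448) (nat_lit 284360704)) (I.neg (nat_lit 2686976) (nat_lit 38912000)) (I.neg (nat_lit 122241024) (nat_lit 210747392)) (I.pos (nat_lit 489062400) (nat_lit 567934976)) (I.mix (nat_lit 86704128) (nat_lit 34275328)) (I.mix (nat_lit 46120960) (nat_lit 55001088)) (I.mix (nat_lit 61227008) (nat_lit 117932032)))
  false (nat_lit 60885094)
def b2_13 : Bx := Bx.mk (St.mk (I.mix (nat_lit 14696448) (nat_lit 5537792)) (I.mix (nat_lit 4882432) (nat_lit 16465920)) (I.neg (nat_lit 57327616) (nat_lit 64995328)) (I.pos (nat_lit 258326528) (nat_lit 266240000)) (I.mix (nat_lit 19202048) (nat_lit 22495232)) (I.mix (nat_lit 14450688) (nat_lit 14729216)) (I.pos (nat_lit 344064) (nat_lit 8994816)))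
  false (nat_lit 0)
def b2_14 : Bx := Bx.mk (St.mk (I.pos (nat_lit 179978240) (nat_lit 229359616)) (I.pos (nat_lit 10338304) (nat_lit 52150272)) (I.neg (nat_lit 3637248) (nat_lit 68648960)) (I.pos (nat_lit 410730496) (nat_lit 465420288)) (I.mix (nat_lit 88145920) (nat_lit 61505536)) (I.mix (nat_lit 57802752) (nat_lit 52985856)) (I.mix (nat_lit 76152832) (nat_lit 87031808)))
  false (nat_lit 90385344)
def b2_15 : Bx := Bx.mk (St.mk (I.pos (nat_lit 7421952) (nat_lit 40386560)) (I.neg (nat_lit 5832704) (nat_lit 41844736)) (I.neg (nat_lit 55001088) (nat_lit 68272128)) (I.pos (nat_lit 259096576) (nat_lit 274382848)) (I.mix (nat_lit 55885824) (nat_lit 41418752)) (I.mix (nat_lit 36651008) (nat_lit 37699584)) (I.mix (nat_lit 11304960) (nat_lit 18759680)))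
  false (nat_lit 0)
def b2_16 : Bx := Bx.mk (St.mk (I.mix (nat_lit 8798208) (nat_lit 17563648)) (I.mix (nat_lit 14401536) (nat_lit 13828096)) (I.neg (nat_lit 57475072) (nat_lit 65306624)) (I.pos (nat_lit 258195456) (nat_lit 266125312)) (I.mix (nat_lit 27131904) (nat_lit 31440896)) (I.mix (nat_lit 21512192) (nat_lit 18710528)) (I.mix (nat_lit 622592) (nat_lit 9551872)))
  false (nat_lit 0)
def b2_17 : Bx := Bx.mk (St.mk (I.pos (nat_lit 246644736) (nat_lit 289865728)) (I.mix (nat_lit 31277056) (nat_lit 16089088)) (I.neg (nat_lit 90554368) (nat_lit 193413120)) (I.pos (nat_lit 487964672) (nat_lit 580550656)) (I.mix (nat_lit 98828288) (nat_lit 65404928)) (I.mix (nat_lit 73728000) (nat_lit 64225280)) (I.mix (nat_lit 113917952) (nat_lit 130465792)))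
  false (nat_lit 94978287)
def b2_18 : Bx := Bx.mk (St.mk (I.pos (nat_lit 215040000) (nat_lit 246759424)) (I.pos (nat_lit 14368768) (nat_lit 45334528)) (I.neg (nat_lit 28803072) (nat_lit 75448320)) (I.pos (nat_lit 458096640) (nat_lit 499482624)) (I.mix (nat_lit 55574528) (nat_lit 50315264)) (I.mix (nat_lit 42614784) (nat_lit 32915456)) (I.mix (nat_lit 63111168) (nat_lit 54149120)))
  false (nat_lit 57986198)
def b2_19 : Bx := Bx.mk (St.mk (I.pos (nat_lit 222674944) (nat_lit 271253504)) (I.mix (nat_lit 26574848) (nat_lit 21086208)) (I.neg (nat_lit 72237056) (nat_lit 176865280)) (I.pos (nat_lit 454279168) (nat_lit 544997376)) (I.mix (nat_lit 91078656) (nat_lit 49020928)) (I.mix (nat_lit 48955392) (nat_lit 63635456)) (I.mix (nat_lit 69189632) (nat_lit 130662400)))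
  false (nat_lit 96828829)
def b2_20 : Bx := Bx.mk (St.mk (I.pos (nat_lit 159514624) (nat_lit 218038272)) (I.pos (nat_lit 23216128) (nat_lit 89767936)) (I.mix (nat_lit 36503552) (nat_lit 60456960)) (I.pos (nat_lit 406601728) (nat_lit 468713472)) (I.mix (nat_lit 129712128) (nat_lit 97599488)) (I.mix (nat_lit 93061120) (nat_lit 72515584)) (I.mix (nat_lit 137740288) (nat_lit 101875712)))
  false (nat_lit 170613308)
def b2_21 : Bx := Bx.mk (St.mk (I.pos (nat_lit 3260416) (nat_lit 39239680)) (I.neg (nat_lit 22429696) (nat_lit 72089600)) (I.neg (nat_lit 56705024) (nat_lit 79118336)) (I.pos (nat_lit 261488640) (nat_lit 282230784)) (I.mix (nat_lit 119635968) (nat_lit 37257216)) (I.mix (nat_lit 43778048) (nat_lit 83132416)) (I.mix (nat_lit 31473664) (nat_lit 29491200)))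
  false (nat_lit 5566912)
def b2_22 : Bx := Bx.mk (St.mk (I.mix (nat_lit 18694144) (nat_lit 14647296)) (I.mix (nat_lit 20250624) (nat_lit 15007744)) (I.neg (nat_lit 57245696) (nat_lit 65699840)) (I.pos (nat_lit 258064384) (nat_lit 266600448)) (I.mix (nat_lit 34013184) (nat_lit 30097408)) (I.mix (nat_lit 19709952) (nat_lit 23478272)) (I.mix (nat_lit 1212416) (nat_lit 10174464)))
  false (nat_lit 0)
def t2 : BTr := (BTr.n (BTr.n (BTr.n (BTr.n (BTr.b b2_0) (BTr.b b2_1)) (BTr.n (BTr.b b2_2) (BTr.n (BTr.b b2_3) (BTr.b b2_4)))) (BTr.n (BTr.n (BTr.b b2_5) (BTr.n (BTr.b b2_6) (BTr.b b2_7))) (BTr.n (BTr.b b2_8) (BTr.n (BTr.b b2_9) (BTr.b b2_10))))) (BTr.n (BTr.n (BTr.n (BTr.b b2_11) (BTr.n (BTr.b b2_12) (BTr.b b2_13))) (BTr.n (BTr.b b2_14) (BTr.n (BTr.b b2_15) (BTr.b b2_16)))) (BTr.n (BTr.n (BTr.b b2_17) (BTr.n (BTr.b b2_18) (BTr.b b2_19)))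 (BTr.n (BTr.b b2_20) (BTr.n (BTr.b b2_21) (BTr.b b2_22))))))
namespace T2
def l0 : Tr := Tr.L (Pth.l (Pth.l (Pth.l (Pth.l Pth.z))))
def l1 : Tr := Tr.L (Pth.l (Pth.l (Pth.l (Pth.r Pth.z))))
def l2 : Tr := Tr.L (Pth.l (Pth.l (Pth.r (Pth.l Pth.z))))
def l3 : Tr := Tr.L (Pth.l (Pth.l (Pth.r (Pth.r (Pth.l Pth.z)))))
def l4 : Tr := Tr.L (Pth.l (Pth.l (Pth.r (Pth.r (Pth.r Pth.z)))))
def l5 : Tr := Tr.L (Pth.l (Pth.r (Pth.l (Pth.l Pth.z))))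
def l6 : Tr := Tr.L (Pth.l (Pth.r (Pth.l (Pth.r (Pth.l Pth.z)))))
def l7 : Tr := Tr.L (Pth.l (Pth.r (Pth.l (Pth.r (Pth.r Pth.z)))))
def l8 : Tr := Tr.L (Pth.l (Pth.r (Pth.r (Pth.l Pth.z))))
def l9 : Tr := Tr.L (Pth.l (Pth.r (Pth.r (Pth.r (Pth.l Pth.z)))))
def l10 : Tr := Tr.L (Pth.l (Pth.r (Pth.r (Pth.r (Pth.r Pth.z)))))
def l11 : Tr := Tr.L (Pth.r (Pth.l (Pth.l (Pth.l Pth.z))))
def l12 : Tr := Tr.L (Pth.r (Pth.l (Pth.l (Pth.r (Pth.l Pth.z)))))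
def l13 : Tr := Tr.L (Pth.r (Pth.l (Pth.l (Pth.r (Pth.r Pth.z)))))
def l14 : Tr := Tr.L (Pth.r (Pth.l (Pth.r (Pth.l Pth.z))))
def l15 : Tr := Tr.L (Pth.r (Pth.l (Pth.r (Pth.r (Pth.l Pth.z)))))
def l16 : Tr := Tr.L (Pth.r (Pth.l (Pth.r (Pth.r (Pth.r Pth.z)))))
def l17 : Tr := Tr.L (Pth.r (Pth.r (Pth.l (Pth.l Pth.z))))
def l18 : Tr := Tr.L (Pth.r (Pth.r (Pth.l (Pth.r (Pth.l Pth.z)))))
def l19 : Tr := Tr.L (Pth.r (Pth.r (Pth.l (Pth.r (Pth.r Pth.z)))))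
def l20 : Tr := Tr.L (Pth.r (Pth.r (Pth.r (Pth.l Pth.z))))
def l21 : Tr := Tr.L (Pth.r (Pth.r (Pth.r (Pth.r (Pth.l Pth.z)))))
def l22 : Tr := Tr.L (Pth.r (Pth.r (Pth.r (Pth.r (Pth.r Pth.z)))))
end T2
def b3_0 : Bx := Bx.mk (St.mk (I.pos (nat_lit 160514048) (nat_lit 227426304)) (I.mix (nat_lit 278528) (nat_lit 39206912)) (I.mix (nat_lit 278528) (nat_lit 92487680)) (I.pos (nat_lit 97435648) (nat_lit 197246976)) (I.mix (nat_lit 98074624) (nat_lit 45334528)) (I.mix (nat_lit 72318976) (nat_lit 49938432)) (I.mix (nat_lit 105971712) (nat_lit 61243392)))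
  false (nat_lit 1725538)
def b3_1 : Bx := Bx.mk (St.mk (I.pos (nat_lit 120520704) (nat_lit 176848896)) (I.neg (nat_lit 3309568) (nat_lit 49463296)) (I.mix (nat_lit 37060608) (nat_lit 12255232)) (I.pos (nat_lit 74334208) (nat_lit 129777664)) (I.mix (nat_lit 75792384) (nat_lit 57819136)) (I.mix (nat_lit 46170112) (nat_lit 56098816)) (I.mix (nat_lit 44040192) (nat_lit 60162048)))
  false (nat_lit 9457513)
def b3_2 : Bx := Bx.mk (St.mk (I.mix (nat_lit 4472832) (nat_lit 111476736)) (I.mix (nat_lit 23789568) (nat_lit 1818624)) (I.mix (nat_lit 11157504) (nat_lit 8273920)) (I.mix (nat_lit 557056) (nat_lit 61800448)) (I.mix (nat_lit 32718848) (nat_lit 34127872)) (I.mix (nat_lit 20594688) (nat_lit 28311552)) (I.mix (nat_lit 13074432) (nat_lit 19529728)))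
  false (nat_lit 0)
def b3_3 : Bx := Bx.mk (St.mk (I.pos (nat_lit 160645120) (nat_lit 207011840)) (I.mix (nat_lit 18448384) (nat_lit 38895616)) (I.pos (nat_lit 9764864) (nat_lit 86867968)) (I.pos (nat_lit 100401152) (nat_lit 174424064)) (I.mix (nat_lit 138641408) (nat_lit 71286784)) (I.mix (nat_lit 128352256) (nat_lit 63389696)) (I.mix (nat_lit 144343040) (nat_lit 52019200)))
  false (nat_lit 44257851)
def b3_4 : Bx := Bx.mk (St.mk (I.mix (nat_lit 9404416) (nat_lit 126861312)) (I.mix (nat_lit 12681216) (nat_lit 24330240)) (I.mix (nat_lit 917504) (nat_lit 30326784)) (I.mix (nat_lit 557056) (nat_lit 75923456)) (I.mix (nat_lit 60604416) (nat_lit 34062336)) (I.mix (nat_lit 51019776) (nat_lit 26361856)) (I.mix (nat_lit 37781504) (nat_lit 16990208)))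
  false (nat_lit 0)
def b3_5 : Bx := Bx.mk (St.mk (I.pos (nat_lit 166100992) (nat_lit 208322560)) (I.mix (nat_lit 40386560) (nat_lit 1916928)) (I.mix (nat_lit 21004288) (nat_lit 32374784)) (I.pos (nat_lit 110362624) (nat_lit 175374336)) (I.mix (nat_lit 69025792) (nat_lit 80953344)) (I.mix (nat_lit 75268096) (nat_lit 61767680)) (I.mix (nat_lit 73629696) (nat_lit 65306624)))
  false (nat_lit 58091682)
def b3_6 : Bx := Bx.mk (St.mk (I.pos (nat_lit 160858112) (nat_lit 206258176)) (I.mix (nat_lit 27082752) (nat_lit 13615104)) (I.pos (nat_lit 819200) (nat_lit 49643520)) (I.pos (nat_lit 101564416) (nat_lit 171360256)) (I.mix (nat_lit 119586816) (nat_lit 82001920)) (I.mix (nat_lit 117161984) (nat_lit 70238208)) (I.mix (nat_lit 128466944) (nat_lit 66338816)))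
  false (nat_lit 65121170)
def b3_7 : Bx := Bx.mk (St.mk (I.mix (nat_lit 11091968) (nat_lit 112001024)) (I.mix (nat_lit 15597568) (nat_lit 1949696)) (I.mix (nat_lit 3276800) (nat_lit 8339456)) (I.mix (nat_lit 557056) (nat_lit 61964288)) (I.mix (nat_lit 28180480) (nat_lit 17793024)) (I.mix (nat_lit 14761984) (nat_lit 18792448)) (I.mix (nat_lit 10813440) (nat_lit 11763712)))
  false (nat_lit 0)
def b3_8 : Bx := Bx.mk (St.mk (I.pos (nat_lit 138346496) (nat_lit 182009856)) (I.neg (nat_lit 1507328) (nat_lit 38912000)) (I.mix (nat_lit 22691840) (nat_lit 18366464)) (I.pos (nat_lit 86065152) (nat_lit 137412608)) (I.mix (nat_lit 59719680) (nat_lit 38617088)) (I.mix (nat_lit 30195712) (nat_lit 41009152)) (I.mix (nat_lit 37109760) (nat_lit 43122688)))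
  false (nat_lit 0)
def b3_9 : Bx := Bx.mk (St.mk (I.pos (nat_lit 160743424) (nat_lit 194281472)) (I.neg (nat_lit 9650176) (nat_lit 37912576)) (I.mix (nat_lit 20103168) (nat_lit 10616832)) (I.pos (nat_lit 105824256) (nat_lit 159105024)) (I.mix (nat_lit 63193088) (nat_lit 55590912)) (I.mix (nat_lit 54640640) (nat_lit 42860544)) (I.mix (nat_lit 58884096) (nat_lit 46792704)))
  false (nat_lit 18789347)
def b3_10 : Bx := Bx.mk (St.mk (I.pos (nat_lit 65978368) (nat_lit 140918784)) (I.mix (nat_lit 8421376) (nat_lit 19251200)) (I.pos (nat_lit 147456) (nat_lit 25657344)) (I.pos (nat_lit 20103168) (nat_lit 90537984)) (I.mix (nat_lit 35831808) (nat_lit 32505856)) (I.mix (nat_lit 34340864) (nat_lit 19677184)) (I.mix (nat_lit 29900800) (nat_lit 14991360)))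
  false (nat_lit 0)
def b3_11 : Bx := Bx.mk (St.mk (I.pos (nat_lit 114982912) (nat_lit 159301632)) (I.mix (nat_lit 45809664) (nat_lit 7143424)) (I.mix (nat_lit 33964032) (nat_lit 15745024)) (I.pos (nat_lit 52510720) (nat_lit 115277824)) (I.mix (nat_lit 81215488) (nat_lit 40910848)) (I.mix (nat_lit 34488320) (nat_lit 65175552)) (I.mix (nat_lit 30408704) (nat_lit 56590336)))
  false (nat_lit 0)
def b3_12 : Bx := Bx.mk (St.mk (I.mix (nat_lit 15810560) (nat_lit 105529344)) (I.mix (nat_lit 23494656) (nat_lit 3473408)) (I.mix (nat_lit 10027008) (nat_lit 7290880)) (I.mix (nat_lit 1949696) (nat_lit 58507264)) (I.mix (nat_lit 30081024) (nat_lit 16138240)) (I.mix (nat_lit 14401536) (nat_lit 25591808)) (I.mix (nat_lit 8339456) (nat_lit 15122432)))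
  false (nat_lit 0)
def b3_13 : Bx := Bx.mk (St.mk (I.pos (nat_lit 194723840) (nat_lit 238895104)) (I.mix (nat_lit 4112384) (nat_lit 21315584)) (I.pos (nat_lit 15958016) (nat_lit 62816256)) (I.pos (nat_lit 162004992) (nat_lit 222019584)) (I.mix (nat_lit 90669056) (nat_lit 31440896)) (I.mix (nat_lit 53706752) (nat_lit 38371328)) (I.mix (nat_lit 87359488) (nat_lit 52248576)))
  false (nat_lit 59946810)
def b3_14 : Bx := Bx.mk (St.mk (I.pos (nat_lit 228589568) (nat_lit 267386880)) (I.mix (nat_lit 19054592) (nat_lit 16187392)) (I.mix (nat_lit 6651904) (nat_lit 57081856)) (I.pos (nat_lit 213811200) (nat_lit 290193408)) (I.mix (nat_lit 66600960) (nat_lit 25346048)) (I.mix (nat_lit 29982720) (nat_lit 39714816)) (I.mix (nat_lit 55001088) (nat_lit 61734912)))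
  false (nat_lit 69485382)
def b3_15 : Bx := Bx.mk (St.mk (I.pos (nat_lit 185516032) (nat_lit 231211008)) (I.pos (nat_lit 9469952) (nat_lit 39780352)) (I.pos (nat_lit 37535744) (nat_lit 93093888)) (I.pos (nat_lit 149241856) (nat_lit 205438976)) (I.mix (nat_lit 100057088) (nat_lit 76759040)) (I.mix (nat_lit 84082688) (nat_lit 60997632)) (I.mix (nat_lit 131219456) (nat_lit 81641472)))
  false (nat_lit 14419570)
def b3_16 : Bx := Bx.mk (St.mk (I.pos (nat_lit 222707712) (nat_lit 282443776)) (I.mix (nat_lit 21987328) (nat_lit 28049408)) (I.mix (nat_lit 8077312) (nat_lit 79511552)) (I.pos (nat_lit 205570048) (nat_lit 322387968)) (I.mix (nat_lit 70287360) (nat_lit 61669376)) (I.mix (nat_lit 60669952) (nat_lit 46661632)) (I.mix (nat_lit 106512384) (nat_lit 73744384)))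
  false (nat_lit 139251670)
def b3_17 : Bx := Bx.mk (St.mk (I.pos (nat_lit 245432320) (nat_lit 280805376)) (I.mix (nat_lit 28393472) (nat_lit 8781824)) (I.mix (nat_lit 22069248) (nat_lit 43401216)) (I.pos (nat_lit 245628928) (nat_lit 318210048)) (I.mix (nat_lit 58556416) (nat_lit 33423360)) (I.mix (nat_lit 34062336) (nat_lit 36995072)) (I.mix (nat_lit 60866560) (nat_lit 56459264)))
  false (nat_lit 89732977)
def b3_18 : Bx := Bx.mk (St.mk (I.pos (nat_lit 217481216) (nat_lit 272007168)) (I.mix (nat_lit 10452992) (nat_lit 29868032)) (I.pos (nat_lit 8634368) (nat_lit 82231296)) (I.pos (nat_lit 194527232) (nat_lit 303054848)) (I.mix (nat_lit 75055104) (nat_lit 54263808)) (I.mix (nat_lit 57114624) (nat_lit 47218688)) (I.mix (nat_lit 101089280) (nat_lit 75563008)))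
  false (nat_lit 116862663)
def b3_19 : Bx := Bx.mk (St.mk (I.pos (nat_lit 204242944) (nat_lit 244006912)) (I.mix (nat_lit 6782976) (nat_lit 24035328)) (I.pos (nat_lit 12304384) (nat_lit 70189056)) (I.pos (nat_lit 175521792) (nat_lit 233947136)) (I.mix (nat_lit 84328448) (nat_lit 41877504)) (I.mix (nat_lit 52264960) (nat_lit 38780928)) (I.mix (nat_lit 86507520) (nat_lit 60309504)))
  false (nat_lit 78642657)
def b3_20 : Bx := Bx.mk (St.mk (I.pos (nat_lit 238272512) (nat_lit 273612800)) (I.mix (nat_lit 27328512) (nat_lit 8257536)) (I.mix (nat_lit 22347776) (nat_lit 41369600)) (I.pos (nat_lit 229163008) (nat_lit 304922624)) (I.mix (nat_lit 69795840) (nat_lit 29458432)) (I.mix (nat_lit 32129024) (nat_lit 46268416)) (I.mix (nat_lit 58277888) (nat_lit 74301440)))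
  false (nat_lit 80960887)
def b3_21 : Bx := Bx.mk (St.mk (I.pos (nat_lit 194281472) (nat_lit 230965248)) (I.pos (nat_lit 5996544) (nat_lit 22740992)) (I.pos (nat_lit 31752192) (nat_lit 64208896)) (I.pos (nat_lit 161546240) (nat_lit 206176256)) (I.mix (nat_lit 75612160) (nat_lit 22216704)) (I.mix (nat_lit 40206336) (nat_lit 28344320)) (I.mix (nat_lit 67272704) (nat_lit 38600704)))
  false (nat_lit 0)
def t3 : BTr := (BTr.n (BTr.n (BTr.n (BTr.n (BTr.b b3_0) (BTr.b b3_1)) (BTr.n (BTr.b b3_2) (BTr.n (BTr.b b3_3) (BTr.b b3_4)))) (BTr.n (BTr.n (BTr.b b3_5) (BTr.n (BTr.b b3_6) (BTr.b b3_7))) (BTr.n (BTr.b b3_8) (BTr.n (BTr.b b3_9) (BTr.b b3_10))))) (BTr.n (BTr.n (BTr.n (BTr.b b3_11) (BTr.b b3_12)) (BTr.n (BTr.b b3_13) (BTr.n (BTr.b b3_14) (BTr.b b3_15)))) (BTr.n (BTr.n (BTr.b b3_16) (BTr.n (BTr.b b3_17) (BTr.b b3_18))) (BTr.n (BTr.b b3_19)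 (BTr.n (BTr.b b3_20) (BTr.b b3_21))))))
namespace T3
def l0 : Tr := Tr.L (Pth.l (Pth.l (Pth.l (Pth.l Pth.z))))
def l1 : Tr := Tr.L (Pth.l (Pth.l (Pth.l (Pth.r Pth.z))))
def l2 : Tr := Tr.L (Pth.l (Pth.l (Pth.r (Pth.l Pth.z))))
def l3 : Tr := Tr.L (Pth.l (Pth.l (Pth.r (Pth.r (Pth.l Pth.z)))))
def l4 : Tr := Tr.L (Pth.l (Pth.l (Pth.r (Pth.r (Pth.r Pth.z)))))
def l5 : Tr := Tr.L (Pth.l (Pth.r (Pth.l (Pth.l Pth.z))))
def l6 : Tr := Tr.L (Pth.l (Pth.r (Pth.l (Pth.r (Pth.l Pth.z)))))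
def l7 : Tr := Tr.L (Pth.l (Pth.r (Pth.l (Pth.r (Pth.r Pth.z)))))
def l8 : Tr := Tr.L (Pth.l (Pth.r (Pth.r (Pth.l Pth.z))))
def l9 : Tr := Tr.L (Pth.l (Pth.r (Pth.r (Pth.r (Pth.l Pth.z)))))
def l10 : Tr := Tr.L (Pth.l (Pth.r (Pth.r (Pth.r (Pth.r Pth.z)))))
def l11 : Tr := Tr.L (Pth.r (Pth.l (Pth.l (Pth.l Pth.z))))
def l12 : Tr := Tr.L (Pth.r (Pth.l (Pth.l (Pth.r Pth.z))))
def l13 : Tr := Tr.L (Pth.r (Pth.l (Pth.r (Pth.l Pth.z))))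
def l14 : Tr := Tr.L (Pth.r (Pth.l (Pth.r (Pth.r (Pth.l Pth.z)))))
def l15 : Tr := Tr.L (Pth.r (Pth.l (Pth.r (Pth.r (Pth.r Pth.z)))))
def l16 : Tr := Tr.L (Pth.r (Pth.r (Pth.l (Pth.l Pth.z))))
def l17 : Tr := Tr.L (Pth.r (Pth.r (Pth.l (Pth.r (Pth.l Pth.z)))))
def l18 : Tr := Tr.L (Pth.r (Pth.r (Pth.l (Pth.r (Pth.r Pth.z)))))
def l19 : Tr := Tr.L (Pth.r (Pth.r (Pth.r (Pth.l Pth.z))))
def l20 : Tr := Tr.L (Pth.r (Pth.r (Pth.r (Pth.r (Pth.l Pth.z)))))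
def l21 : Tr := Tr.L (Pth.r (Pth.r (Pth.r (Pth.r (Pth.r Pth.z)))))
end T3
def b4_0 : Bx := Bx.mk (St.mk (I.pos (nat_lit 128335872) (nat_lit 215302144)) (I.mix (nat_lit 278528) (nat_lit 83886080)) (I.mix (nat_lit 278528) (nat_lit 114720768)) (I.pos (nat_lit 364249088) (nat_lit 445464576)) (I.mix (nat_lit 184565760) (nat_lit 85311488)) (I.mix (nat_lit 98238464) (nat_lit 82198528)) (I.mix (nat_lit 111722496) (nat_lit 111509504)))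
  false (nat_lit 164211677)
def b4_1 : Bx := Bx.mk (St.mk (I.pos (nat_lit 26427392) (nat_lit 126795776)) (I.neg (nat_lit 6701056) (nat_lit 90095616)) (I.mix (nat_lit 52477952) (nat_lit 26558464)) (I.pos (nat_lit 273317888) (nat_lit 332267520)) (I.mix (nat_lit 116031488) (nat_lit 79790080)) (I.mix (nat_lit 81412096) (nat_lit 70746112)) (I.mix (nat_lit 77299712) (nat_lit 58867712)))
  false (nat_lit 92772980)
def b4_2 : Bx := Bx.mk (St.mk (I.pos (nat_lit 94797824) (nat_lit 179978240)) (I.mix (nat_lit 39469056) (nat_lit 76677120)) (I.mix (nat_lit 5881856) (nat_lit 117719040)) (I.pos (nat_lit 302579712) (nat_lit 410058752)) (I.mix (nat_lit 193396736) (nat_lit 84115456)) (I.mix (nat_lit 141099008) (nat_lit 107118592)) (I.mix (nat_lit 146882560) (nat_lit 135249920)))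
  false (nat_lit 150911423)
def b4_3 : Bx := Bx.mk (St.mk (I.neg (nat_lit 26427392) (nat_lit 131743744)) (I.pos (nat_lit 2834432) (nat_lit 90095616)) (I.mix (nat_lit 52477952) (nat_lit 30523392)) (I.pos (nat_lit 273317888) (nat_lit 336609280)) (I.mix (nat_lit 79806464) (nat_lit 116031488)) (I.mix (nat_lit 70746112) (nat_lit 81428480)) (I.mix (nat_lit 77299712) (nat_lit 58867712)))
  true (nat_lit 0)
def b4_4 : Bx := Bx.mk (St.mk (I.mix (nat_lit 56279040) (nat_lit 10371072)) (I.mix (nat_lit 8273920) (nat_lit 88014848)) (I.neg (nat_lit 22069248) (nat_lit 47087616)) (I.pos (nat_lit 263438336) (nat_lit 297992192)) (I.mix (nat_lit 75792384) (nat_lit 120995840)) (I.mix (nat_lit 89784320) (nat_lit 79331328)) (I.mix (nat_lit 47775744) (nat_lit 32194560)))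
  true (nat_lit 0)
def b4_5 : Bx := Bx.mk (St.mk (I.pos (nat_lit 15843328) (nat_lit 55820288)) (I.neg (nat_lit 35225600) (nat_lit 88014848)) (I.neg (nat_lit 27967488) (nat_lit 47087616)) (I.pos (nat_lit 271024128) (nat_lit 297992192)) (I.mix (nat_lit 120995840) (nat_lit 65323008)) (I.mix (nat_lit 79331328) (nat_lit 85409792)) (I.mix (nat_lit 47775744) (nat_lit 32194560)))
  false (nat_lit 79345868)
def b4_6 : Bx := Bx.mk (St.mk (I.pos (nat_lit 192987136) (nat_lit 283754496)) (I.mix (nat_lit 8290304) (nat_lit 59375616)) (I.mix (nat_lit 73170944) (nat_lit 63488000)) (I.pos (nat_lit 430391296) (nat_lit 560447488)) (I.mix (nat_lit 70270976) (nat_lit 66404352)) (I.mix (nat_lit 53297152) (nat_lit 49152000)) (I.mix (nat_lit 81903616) (nat_lit 74825728)))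
  false (nat_lit 174076494)
def b4_7 : Bx := Bx.mk (St.mk (I.mix (nat_lit 8339456) (nat_lit 31277056)) (I.mix (nat_lit 41680896) (nat_lit 3260416)) (I.neg (nat_lit 24985600) (nat_lit 34619392)) (I.pos (nat_lit 263913472) (nat_lit 276119552)) (I.mix (nat_lit 36470784) (nat_lit 21315584)) (I.mix (nat_lit 20381696) (nat_lit 21528576)) (I.mix (nat_lit 7159808) (nat_lit 6881280)))
  false (nat_lit 0)
def b4_8 : Bx := Bx.mk (St.mk (I.pos (nat_lit 185286656) (nat_lit 226377728)) (I.pos (nat_lit 12468224) (nat_lit 54738944)) (I.mix (nat_lit 163840) (nat_lit 60997632)) (I.pos (nat_lit 415088640) (nat_lit 458997760)) (I.mix (nat_lit 91930624) (nat_lit 82542592)) (I.mix (nat_lit 65159168) (nat_lit 59080704)) (I.mix (nat_lit 90226688) (nat_lit 88260608)))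
  false (nat_lit 127231196)
def b4_9 : Bx := Bx.mk (St.mk (I.pos (nat_lit 18038784) (nat_lit 43663360)) (I.neg (nat_lit 15532032) (nat_lit 43859968)) (I.neg (nat_lit 22036480) (nat_lit 33718272)) (I.pos (nat_lit 267943936) (nat_lit 279003136)) (I.mix (nat_lit 59736064) (nat_lit 42713088)) (I.mix (nat_lit 37863424) (nat_lit 39469056)) (I.mix (nat_lit 12206080) (nat_lit 12976128)))
  false (nat_lit 0)
def b4_10 : Bx := Bx.mk (St.mk (I.pos (nat_lit 235421696) (nat_lit 276381696)) (I.mix (nat_lit 19513344) (nat_lit 24723456)) (I.neg (nat_lit 7815168) (nat_lit 92372992)) (I.pos (nat_lit 480477184) (nat_lit 546422784)) (I.mix (nat_lit 52707328) (nat_lit 52101120)) (I.mix (nat_lit 40042496) (nat_lit 38977536)) (I.mix (nat_lit 62586880) (nat_lit 66076672)))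
  false (nat_lit 89457438)
def b4_11 : Bx := Bx.mk (St.mk (I.mix (nat_lit 5816320) (nat_lit 28803072)) (I.mix (nat_lit 27918336) (nat_lit 8257536)) (I.neg (nat_lit 24363008) (nat_lit 32751616)) (I.pos (nat_lit 264060928) (nat_lit 272760832)) (I.mix (nat_lit 26689536) (nat_lit 20938752)) (I.mix (nat_lit 14876672) (nat_lit 15958016)) (I.mix (nat_lit 3997696) (nat_lit 5193728)))
  false (nat_lit 0)
def b4_12 : Bx := Bx.mk (St.mk (I.pos (nat_lit 242008064) (nat_lit 277299200)) (I.mix (nat_lit 8552448) (nat_lit 24084480)) (I.neg (nat_lit 12238848) (nat_lit 76218368)) (I.pos (nat_lit 491061248) (nat_lit 547864576)) (I.mix (nat_lit 11599872) (nat_lit 14286848)) (I.mix (nat_lit 9191424) (nat_lit 4341760)) (I.mix (nat_lit 11698176) (nat_lit 6832128)))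
  false (nat_lit 9734349)
def b4_13 : Bx := Bx.mk (St.mk (I.mix (nat_lit 5832704) (nat_lit 22937600)) (I.mix (nat_lit 25690112) (nat_lit 4112384)) (I.neg (nat_lit 25542656) (nat_lit 32636928)) (I.pos (nat_lit 264175616) (nat_lit 272236544)) (I.mix (nat_lit 9322496) (nat_lit 3194880)) (I.mix (nat_lit 1982464) (nat_lit 3932160)) (I.mix (nat_lit 1605632) (nat_lit 2359296)))
  false (nat_lit 0)
def b4_14 : Bx := Bx.mk (St.mk (I.pos (nat_lit 184844288) (nat_lit 218611712)) (I.pos (nat_lit 12746752) (nat_lit 46661632)) (I.pos (nat_lit 262144) (nat_lit 45809664)) (I.pos (nat_lit 412057600) (nat_lit 446119936)) (I.mix (nat_lit 93536256) (nat_lit 50741248)) (I.mix (nat_lit 60112896) (nat_lit 47022080)) (I.mix (nat_lit 78708736) (nat_lit 69386240)))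
  false (nat_lit 83082207)
def b4_15 : Bx := Bx.mk (St.mk (I.pos (nat_lit 20299776) (nat_lit 53067776)) (I.neg (nat_lit 15351808) (nat_lit 52854784)) (I.neg (nat_lit 21921792) (nat_lit 34586624)) (I.pos (nat_lit 268337152) (nat_lit 284246016)) (I.mix (nat_lit 52559872) (nat_lit 49905664)) (I.mix (nat_lit 39763968) (nat_lit 37568512)) (I.mix (nat_lit 14368768) (nat_lit 14106624)))
  false (nat_lit 0)
def b4_16 : Bx := Bx.mk (St.mk (I.pos (nat_lit 198393856) (nat_lit 265240576)) (I.mix (nat_lit 6144000) (nat_lit 46628864)) (I.mix (nat_lit 62963712) (nat_lit 39534592)) (I.pos (nat_lit 433651712) (nat_lit 523796480)) (I.mix (nat_lit 56328192) (nat_lit 39223296)) (I.mix (nat_lit 30851072) (nat_lit 31784960)) (I.mix (nat_lit 43401216) (nat_lit 53968896)))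
  false (nat_lit 106436558)
def b4_17 : Bx := Bx.mk (St.mk (I.mix (nat_lit 344064) (nat_lit 31670272)) (I.mix (nat_lit 31768576) (nat_lit 1900544)) (I.neg (nat_lit 24248320) (nat_lit 33046528)) (I.pos (nat_lit 264126464) (nat_lit 274169856)) (I.mix (nat_lit 26181632) (nat_lit 23592960)) (I.mix (nat_lit 17776640) (nat_lit 15777792)) (I.mix (nat_lit 4800512) (nat_lit 5554176)))
  false (nat_lit 0)
def b4_18 : Bx := Bx.mk (St.mk (I.pos (nat_lit 144572416) (nat_lit 200409088)) (I.pos (nat_lit 26607616) (nat_lit 81084416)) (I.pos (nat_lit 32358400) (nat_lit 107085824)) (I.pos (nat_lit 374063104) (nat_lit 431407104)) (I.mix (nat_lit 146259968) (nat_lit 101974016)) (I.mix (nat_lit 101842944) (nat_lit 67682304)) (I.mix (nat_lit 139968512) (nat_lit 101351424)))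
  false (nat_lit 117401157)
def b4_19 : Bx := Bx.mk (St.mk (I.pos (nat_lit 18841600) (nat_lit 56246272)) (I.neg (nat_lit 27525120) (nat_lit 75759616)) (I.neg (nat_lit 23576576) (nat_lit 44384256)) (I.pos (nat_lit 271532032) (nat_lit 290897920)) (I.mix (nat_lit 110182400) (nat_lit 75792384)) (I.mix (nat_lit 61816832) (nat_lit 89784320)) (I.mix (nat_lit 30736384) (nat_lit 26886144)))
  false (nat_lit 48886152)
def b4_20 : Bx := Bx.mk (St.mk (I.pos (nat_lit 194658304) (nat_lit 287784960)) (I.mix (nat_lit 15171584) (nat_lit 61341696)) (I.mix (nat_lit 86507520) (nat_lit 65175552)) (I.pos (nat_lit 431046656) (nat_lit 568786944)) (I.mix (nat_lit 68911104) (nat_lit 73416704)) (I.mix (nat_lit 66289664) (nat_lit 45268992)) (I.mix (nat_lit 107364352) (nat_lit 71827456)))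
  false (nat_lit 173061545)
def b4_21 : Bx := Bx.mk (St.mk (I.mix (nat_lit 10403840) (nat_lit 32653312)) (I.mix (nat_lit 41484288) (nat_lit 6569984)) (I.neg (nat_lit 24756224) (nat_lit 34914304)) (I.pos (nat_lit 263929856) (nat_lit 275873792)) (I.mix (nat_lit 40583168) (nat_lit 26247168)) (I.mix (nat_lit 18202624) (nat_lit 26902528)) (I.mix (nat_lit 7061504) (nat_lit 7471104)))
  false (nat_lit 0)
def t4 : BTr := (BTr.n (BTr.n (BTr.n (BTr.n (BTr.b b4_0) (BTr.b b4_1)) (BTr.n (BTr.b b4_2) (BTr.n (BTr.b b4_3) (BTr.b b4_4)))) (BTr.n (BTr.n (BTr.b b4_5) (BTr.n (BTr.b b4_6) (BTr.b b4_7))) (BTr.n (BTr.b b4_8) (BTr.n (BTr.b b4_9) (BTr.b b4_10))))) (BTr.n (BTr.n (BTr.n (BTr.b b4_11) (BTr.b b4_12)) (BTr.n (BTr.b b4_13) (BTr.n (BTr.b b4_14) (BTr.b b4_15)))) (BTr.n (BTr.n (BTr.b b4_16) (BTr.n (BTr.b b4_17) (BTr.b b4_18))) (BTr.n (BTr.b b4_19) (BTr.n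 (BTr.b b4_20) (BTr.b b4_21))))))
namespace T4
def l0 : Tr := Tr.L (Pth.l (Pth.l (Pth.l (Pth.l Pth.z))))
def l1 : Tr := Tr.L (Pth.l (Pth.l (Pth.l (Pth.r Pth.z))))
def l2 : Tr := Tr.L (Pth.l (Pth.l (Pth.r (Pth.l Pth.z))))
def l3 : Tr := Tr.L (Pth.l (Pth.l (Pth.r (Pth.r (Pth.l Pth.z)))))
def l4 : Tr := Tr.L (Pth.l (Pth.l (Pth.r (Pth.r (Pth.r Pth.z)))))
def l5 : Tr := Tr.L (Pth.l (Pth.r (Pth.l (Pth.l Pth.z))))
def l6 : Tr := Tr.L (Pth.l (Pth.r (Pth.l (Pth.r (Pth.l Pth.z)))))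
def l7 : Tr := Tr.L (Pth.l (Pth.r (Pth.l (Pth.r (Pth.r Pth.z)))))
def l8 : Tr := Tr.L (Pth.l (Pth.r (Pth.r (Pth.l Pth.z))))
def l9 : Tr := Tr.L (Pth.l (Pth.r (Pth.r (Pth.r (Pth.l Pth.z)))))
def l10 : Tr := Tr.L (Pth.l (Pth.r (Pth.r (Pth.r (Pth.r Pth.z)))))
def l11 : Tr := Tr.L (Pth.r (Pth.l (Pth.l (Pth.l Pth.z))))
def l12 : Tr := Tr.L (Pth.r (Pth.l (Pth.l (Pth.r Pth.z))))
def l13 : Tr := Tr.L (Pth.r (Pth.l (Pth.r (Pth.l Pth.z))))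
def l14 : Tr := Tr.L (Pth.r (Pth.l (Pth.r (Pth.r (Pth.l Pth.z)))))
def l15 : Tr := Tr.L (Pth.r (Pth.l (Pth.r (Pth.r (Pth.r Pth.z)))))
def l16 : Tr := Tr.L (Pth.r (Pth.r (Pth.l (Pth.l Pth.z))))
def l17 : Tr := Tr.L (Pth.r (Pth.r (Pth.l (Pth.r (Pth.l Pth.z)))))
def l18 : Tr := Tr.L (Pth.r (Pth.r (Pth.l (Pth.r (Pth.r Pth.z)))))
def l19 : Tr := Tr.L (Pth.r (Pth.r (Pth.r (Pth.l Pth.z))))
def l20 : Tr := Tr.L (Pth.r (Pth.r (Pth.r (Pth.r (Pth.l Pth.z)))))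
def l21 : Tr := Tr.L (Pth.r (Pth.r (Pth.r (Pth.r (Pth.r Pth.z)))))
end T4
def b5_0 : Bx := Bx.mk (St.mk (I.pos (nat_lit 160514048) (nat_lit 217923584)) (I.mix (nat_lit 278528) (nat_lit 49102848)) (I.mix (nat_lit 278528) (nat_lit 110854144)) (I.pos (nat_lit 185286656) (nat_lit 264437760)) (I.mix (nat_lit 115425280) (nat_lit 59113472)) (I.mix (nat_lit 79986688) (nat_lit 58621952)) (I.mix (nat_lit 104185856) (nat_lit 63619072)))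
  false (nat_lit 28601056)
def b5_1 : Bx := Bx.mk (St.mk (I.pos (nat_lit 97255424) (nat_lit 156123136)) (I.neg (nat_lit 8732672) (nat_lit 62586880)) (I.mix (nat_lit 29425664) (nat_lit 28655616)) (I.pos (nat_lit 137904128) (nat_lit 177520640)) (I.mix (nat_lit 77660160) (nat_lit 69124096)) (I.mix (nat_lit 50839552) (nat_lit 59539456)) (I.mix (nat_lit 41189376) (nat_lit 52461568)))
  false (nat_lit 98527118)
def b5_2 : Bx := Bx.mk (St.mk (I.mix (nat_lit 22970368) (nat_lit 44548096)) (I.mix (nat_lit 31244288) (nat_lit 5062656)) (I.pos (nat_lit 4784128) (nat_lit 18694144)) (I.pos (nat_lit 84623360) (nat_lit 98680832)) (I.mix (nat_lit 30425088) (nat_lit 47726592)) (I.mix (nat_lit 24231936) (nat_lit 34324480)) (I.mix (nat_lit 8388608) (nat_lit 13238272)))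
  false (nat_lit 81714602)
def b5_3 : Bx := Bx.mk (St.mk (I.pos (nat_lit 140312576) (nat_lit 196886528)) (I.mix (nat_lit 7241728) (nat_lit 47972352)) (I.pos (nat_lit 37683200) (nat_lit 107167744)) (I.pos (nat_lit 160022528) (nat_lit 226918400)) (I.mix (nat_lit 151109632) (nat_lit 53493760)) (I.mix (nat_lit 128958464) (nat_lit 63291392)) (I.mix (nat_lit 128450560) (nat_lit 44449792)))
  false (nat_lit 135335250)
def b5_4 : Bx := Bx.mk (St.mk (I.mix (nat_lit 44810240) (nat_lit 64307200)) (I.mix (nat_lit 9306112) (nat_lit 31244288)) (I.pos (nat_lit 4784128) (nat_lit 29720576)) (I.pos (nat_lit 84623360) (nat_lit 106168320)) (I.mix (nat_lit 58146816) (nat_lit 32112640)) (I.mix (nat_lit 42762240) (nat_lit 25362432)) (I.mix (nat_lit 17842176) (nat_lit 13238272)))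
  false (nat_lit 54900160)
def b5_5 : Bx := Bx.mk (St.mk (I.pos (nat_lit 131121152) (nat_lit 163004416)) (I.neg (nat_lit 5128192) (nat_lit 35749888)) (I.pos (nat_lit 3735552) (nat_lit 35979264)) (I.pos (nat_lit 155041792) (nat_lit 184778752)) (I.mix (nat_lit 63209472) (nat_lit 60260352)) (I.mix (nat_lit 35930112) (nat_lit 52969472)) (I.mix (nat_lit 37765120) (nat_lit 43728896)))
  false (nat_lit 0)
def b5_6 : Bx := Bx.mk (St.mk (I.mix (nat_lit 58900480) (nat_lit 45760512)) (I.mix (nat_lit 14352384) (nat_lit 11042816)) (I.pos (nat_lit 9469952) (nat_lit 21725184)) (I.pos (nat_lit 84770816) (nat_lit 102023168)) (I.mix (nat_lit 32112640) (nat_lit 26116096)) (I.mix (nat_lit 22085632) (nat_lit 23298048)) (I.mix (nat_lit 10076160) (nat_lit 8880128)))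
  false (nat_lit 24021095)
def b5_7 : Bx := Bx.mk (St.mk (I.pos (nat_lit 147341312) (nat_lit 176848896)) (I.neg (nat_lit 14843904) (nat_lit 36388864)) (I.pos (nat_lit 2965504) (nat_lit 27557888)) (I.pos (nat_lit 171786240) (nat_lit 202588160)) (I.mix (nat_lit 52379648) (nat_lit 58359808)) (I.mix (nat_lit 51707904) (nat_lit 39223296)) (I.mix (nat_lit 48037888) (nat_lit 37421056)))
  false (nat_lit 4999852)
def b5_8 : Bx := Bx.mk (St.mk (I.pos (nat_lit 151093248) (nat_lit 190906368)) (I.mix (nat_lit 37322752) (nat_lit 2048000)) (I.pos (nat_lit 4063232) (nat_lit 52117504)) (I.pos (nat_lit 176537600) (nat_lit 216317952)) (I.mix (nat_lit 74104832) (nat_lit 83181568)) (I.mix (nat_lit 70909952) (nat_lit 66437120)) (I.mix (nat_lit 63930368) (nat_lit 59949056)))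
  false (nat_lit 50672552)
def b5_9 : Bx := Bx.mk (St.mk (I.mix (nat_lit 15892480) (nat_lit 94371840)) (I.mix (nat_lit 6012928) (nat_lit 30507008)) (I.pos (nat_lit 5439488) (nat_lit 31178752)) (I.pos (nat_lit 83279872) (nat_lit 122372096)) (I.mix (nat_lit 55328768) (nat_lit 43614208)) (I.mix (nat_lit 47939584) (nat_lit 27148288)) (I.mix (nat_lit 30457856) (nat_lit 18251776)))
  false (nat_lit 47298104)
def b5_10 : Bx := Bx.mk (St.mk (I.pos (nat_lit 82116608) (nat_lit 133726208)) (I.mix (nat_lit 65093632) (nat_lit 8617984)) (I.mix (nat_lit 29081600) (nat_lit 19152896)) (I.pos (nat_lit 114622464) (nat_lit 159285248)) (I.mix (nat_lit 76234752) (nat_lit 50479104)) (I.mix (nat_lit 42647552) (nat_lit 67665920)) (I.mix (nat_lit 30130176) (nat_lit 42958848)))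
  false (nat_lit 84559067)
def b5_11 : Bx := Bx.mk (St.mk (I.mix (nat_lit 45416448) (nat_lit 26640384)) (I.mix (nat_lit 30195712) (nat_lit 3358720)) (I.pos (nat_lit 5537792) (nat_lit 19988480)) (I.pos (nat_lit 82984960) (nat_lit 97419264)) (I.mix (nat_lit 33964032) (nat_lit 40910848)) (I.mix (nat_lit 21577728) (nat_lit 35946496)) (I.mix (nat_lit 14155776) (nat_lit 10240000)))
  false (nat_lit 63283171)
def b5_12 : Bx := Bx.mk (St.mk (I.pos (nat_lit 144539648) (nat_lit 189775872)) (I.mix (nat_lit 19628032) (nat_lit 25149440)) (I.pos (nat_lit 25329664) (nat_lit 79314944)) (I.pos (nat_lit 164364288) (nat_lit 215416832)) (I.mix (nat_lit 144326656) (nat_lit 88162304)) (I.mix (nat_lit 127893504) (nat_lit 80871424)) (I.mix (nat_lit 125304832) (nat_lit 65961984)))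
  false (nat_lit 69227871)
def b5_13 : Bx := Bx.mk (St.mk (I.pos (nat_lit 183599104) (nat_lit 229359616)) (I.pos (nat_lit 2064384) (nat_lit 28966912)) (I.pos (nat_lit 36388864) (nat_lit 83836928)) (I.pos (nat_lit 224444416) (nat_lit 274153472)) (I.mix (nat_lit 94879744) (nat_lit 47939584)) (I.mix (nat_lit 60751872) (nat_lit 40812544)) (I.mix (nat_lit 90914816) (nat_lit 54329344)))
  false (nat_lit 9354987)
def b5_14 : Bx := Bx.mk (St.mk (I.pos (nat_lit 206438400) (nat_lit 273088512)) (I.mix (nat_lit 15613952) (nat_lit 28049408)) (I.pos (nat_lit 6897664) (nat_lit 84705280)) (I.pos (nat_lit 256819200) (nat_lit 362496000)) (I.mix (nat_lit 57851904) (nat_lit 38551552)) (I.mix (nat_lit 36683776) (nat_lit 37666816)) (I.mix (nat_lit 62947328) (nat_lit 57540608)))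
  false (nat_lit 28667447)
def b5_15 : Bx := Bx.mk (St.mk (I.pos (nat_lit 168493056) (nat_lit 218169344)) (I.pos (nat_lit 9093120) (nat_lit 48873472)) (I.pos (nat_lit 48168960) (nat_lit 111886336)) (I.pos (nat_lit 204242944) (nat_lit 254394368)) (I.mix (nat_lit 116441088) (nat_lit 86720512)) (I.mix (nat_lit 98058240) (nat_lit 66453504)) (I.mix (nat_lit 142770176) (nat_lit 76496896)))
  false (nat_lit 38271513)
def b5_16 : Bx := Bx.mk (St.mk (I.pos (nat_lit 200622080) (nat_lit 282771456)) (I.mix (nat_lit 11124736) (nat_lit 39370752)) (I.pos (nat_lit 12042240) (nat_lit 102105088)) (I.pos (nat_lit 248168448) (nat_lit 382943232)) (I.mix (nat_lit 72564736) (nat_lit 80134144)) (I.mix (nat_lit 73891840) (nat_lit 52985856)) (I.mix (nat_lit 121864192) (nat_lit 83050496)))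
  false (nat_lit 73250145)
def b5_17 : Bx := Bx.mk (St.mk (I.pos (nat_lit 197394432) (nat_lit 238206976)) (I.pos (nat_lit 13828096) (nat_lit 37453824)) (I.pos (nat_lit 54673408) (nat_lit 99024896)) (I.pos (nat_lit 242466816) (nat_lit 290455552)) (I.mix (nat_lit 66469888) (nat_lit 21463040)) (I.mix (nat_lit 39174144) (nat_lit 21168128)) (I.mix (nat_lit 61947904) (nat_lit 27131904)))
  false (nat_lit 0)
def b5_18 : Bx := Bx.mk (St.mk (I.pos (nat_lit 186400768) (nat_lit 232161280)) (I.pos (nat_lit 2113536) (nat_lit 32538624)) (I.pos (nat_lit 36028416) (nat_lit 90963968)) (I.pos (nat_lit 228507648) (nat_lit 278921216)) (I.mix (nat_lit 80478208) (nat_lit 56360960)) (I.mix (nat_lit 54263808) (nat_lit 43630592)) (I.mix (nat_lit 81870848) (nat_lit 61128704)))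
  false (nat_lit 16841771)
def b5_19 : Bx := Bx.mk (St.mk (I.pos (nat_lit 247758848) (nat_lit 278560768)) (I.mix (nat_lit 20447232) (nat_lit 10076160)) (I.pos (nat_lit 131072) (nat_lit 54722560)) (I.pos (nat_lit 322781184) (nat_lit 372768768)) (I.mix (nat_lit 45334528) (nat_lit 39124992)) (I.mix (nat_lit 32030720) (nat_lit 29704192)) (I.mix (nat_lit 55640064) (nat_lit 44515328)))
  false (nat_lit 0)
def b5_20 : Bx := Bx.mk (St.mk (I.pos (nat_lit 249364480) (nat_lit 275185664)) (I.mix (nat_lit 13025280) (nat_lit 11108352)) (I.pos (nat_lit 9191424) (nat_lit 56213504)) (I.pos (nat_lit 324468736) (nat_lit 367525888)) (I.mix (nat_lit 37650432) (nat_lit 29802496)) (I.mix (nat_lit 27344896) (nat_lit 23330816)) (I.mix (nat_lit 48250880) (nat_lit 35667968)))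
  false (nat_lit 0)
def b5_21 : Bx := Bx.mk (St.mk (I.pos (nat_lit 188661760) (nat_lit 222904320)) (I.pos (nat_lit 11223040) (nat_lit 29442048)) (I.pos (nat_lit 53428224) (nat_lit 83705856)) (I.pos (nat_lit 229244928) (nat_lit 263159808)) (I.mix (nat_lit 65028096) (nat_lit 23543808)) (I.mix (nat_lit 38961152) (nat_lit 19546112)) (I.mix (nat_lit 58572800) (nat_lit 23003136)))
  false (nat_lit 0)
def t5 : BTr := (BTr.n (BTr.n (BTr.n (BTr.n (BTr.b b5_0) (BTr.b b5_1)) (BTr.n (BTr.b b5_2) (BTr.n (BTr.b b5_3) (BTr.b b5_4)))) (BTr.n (BTr.n (BTr.b b5_5) (BTr.n (BTr.b b5_6) (BTr.b b5_7))) (BTr.n (BTr.b b5_8) (BTr.n (BTr.b b5_9) (BTr.b b5_10))))) (BTr.n (BTr.n (BTr.n (BTr.b b5_11) (BTr.b b5_12)) (BTr.n (BTr.b b5_13) (BTr.n (BTr.b b5_14) (BTr.b b5_15)))) (BTr.n (BTr.n (BTr.b b5_16) (BTr.n (BTr.b b5_17) (BTr.b b5_18))) (BTr.n (BTr.b b5_19) (BTr.n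 (BTr.b b5_20) (BTr.b b5_21))))))
namespace T5
def l0 : Tr := Tr.L (Pth.l (Pth.l (Pth.l (Pth.l Pth.z))))
def l1 : Tr := Tr.L (Pth.l (Pth.l (Pth.l (Pth.r Pth.z))))
def l2 : Tr := Tr.L (Pth.l (Pth.l (Pth.r (Pth.l Pth.z))))
def l3 : Tr := Tr.L (Pth.l (Pth.l (Pth.r (Pth.r (Pth.l Pth.z)))))
def l4 : Tr := Tr.L (Pth.l (Pth.l (Pth.r (Pth.r (Pth.r Pth.z)))))
def l5 : Tr := Tr.L (Pth.l (Pth.r (Pth.l (Pth.l Pth.z))))
def l6 : Tr := Tr.L (Pth.l (Pth.r (Pth.l (Pth.r (Pth.l Pth.z)))))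
def l7 : Tr := Tr.L (Pth.l (Pth.r (Pth.l (Pth.r (Pth.r Pth.z)))))
def l8 : Tr := Tr.L (Pth.l (Pth.r (Pth.r (Pth.l Pth.z))))
def l9 : Tr := Tr.L (Pth.l (Pth.r (Pth.r (Pth.r (Pth.l Pth.z)))))
def l10 : Tr := Tr.L (Pth.l (Pth.r (Pth.r (Pth.r (Pth.r Pth.z)))))
def l11 : Tr := Tr.L (Pth.r (Pth.l (Pth.l (Pth.l Pth.z))))
def l12 : Tr := Tr.L (Pth.r (Pth.l (Pth.l (Pth.r Pth.z))))
def l13 : Tr := Tr.L (Pth.r (Pth.l (Pth.r (Pth.l Pth.z))))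
def l14 : Tr := Tr.L (Pth.r (Pth.l (Pth.r (Pth.r (Pth.l Pth.z)))))
def l15 : Tr := Tr.L (Pth.r (Pth.l (Pth.r (Pth.r (Pth.r Pth.z)))))
def l16 : Tr := Tr.L (Pth.r (Pth.r (Pth.l (Pth.l Pth.z))))
def l17 : Tr := Tr.L (Pth.r (Pth.r (Pth.l (Pth.r (Pth.l Pth.z)))))
def l18 : Tr := Tr.L (Pth.r (Pth.r (Pth.l (Pth.r (Pth.r Pth.z)))))
def l19 : Tr := Tr.L (Pth.r (Pth.r (Pth.r (Pth.l Pth.z))))
def l20 : Tr := Tr.L (Pth.r (Pth.r (Pth.r (Pth.r (Pth.l Pth.z)))))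
def l21 : Tr := Tr.L (Pth.r (Pth.r (Pth.r (Pth.r (Pth.r Pth.z)))))
end T5
theorem bx0_0 : BoxOK sI cl4 cl6 cl13 t2 t4 b0_0 :=
  box_mk (TrL.c (I.pos (nat_lit 0) (nat_lit 0)) (xa (xb (xa T2.l0 T2.l0) (xa (xb T2.l0 (xb T2.l0 (xa T2.l0 T2.l0))) (xb T2.l0 (xa T2.l0 T2.l0)))) (xb (xa T2.l0 T2.l0) (xa (xb T2.l0 (xa T2.l0 T2.l0)) (xb T2.l0 (xa (xb T2.l0 T2.l0) (xb T2.l0 T2.l0))))))
  (TrL.c (I.pos (nat_lit 0) (nat_lit 0)) (xa (xb T4.l1 (xa T4.l1 T4.l1)) (xb T4.l1 (xa T4.l1 T4.l1)))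
  (TrL.c (I.pos (nat_lit 0) (nat_lit 0)) T2.l1
  (TrL.c (I.pos (nat_lit 0) (nat_lit 0)) (xa T4.l2 (xb T4.l2 T4.l2))
  (TrL.c (I.pos (nat_lit 0) (nat_lit 0)) (xa T2.l2 T2.l2)
  (TrL.c (I.pos (nat_lit 0) (nat_lit 0)) (xa (xb T4.l3 (xa T4.l3 T4.l3)) (xb T4.l3 (xa T4.l3 T4.l3)))
  TrL.n)))))) (by decide +kernel)
theorem bx0_1 : BoxOK sI cl4 cl6 cl13 t2 t4 b0_1 :=
  box_mk (TrL.c (I.pos (nat_lit 0) (nat_lit 0)) (xa (xa (xb (xa T2.l6 T2.l6) (xa T2.l6 T2.l6)) (xb T2.l6 T2.l6)) (xa (xb T2.l6 T2.l6) (xb T2.l6 (xa T2.l6 T2.l6))))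
  (TrL.c (I.pos (nat_lit 0) (nat_lit 0)) (xa T4.l1 T4.l1)
  (TrL.c (I.pos (nat_lit 0) (nat_lit 0)) T2.l1
  (TrL.c (I.pos (nat_lit 0) (nat_lit 0)) (xa T4.l2 T4.l2)
  (TrL.c (I.pos (nat_lit 0) (nat_lit 0)) (xa T2.l7 (xb T2.l7 T2.l7))
  (TrL.c (I.pos (nat_lit 0) (nat_lit 0)) T4.l3
  TrL.n)))))) (by decide +kernel)
theorem bx0_2 : BoxOK sI cl4 cl6 cl13 t2 t4 b0_2 :=
  box_mk (TrL.c (I.pos (nat_lit 0) (nat_lit 0)) (xb (xa (xb T2.l8 T2.l8) T2.l8) (xa (xb T2.l8 T2.l8) T2.l8))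
  (TrL.c (I.pos (nat_lit 0) (nat_lit 0)) T4.l1
  (TrL.c (I.pos (nat_lit 0) (nat_lit 0)) T2.l1
  (TrL.c (I.pos (nat_lit 0) (nat_lit 0)) T4.l2
  (TrL.c (I.pos (nat_lit 0) (nat_lit 0)) (xb T2.l9 T2.l9)
  (TrL.c (I.pos (nat_lit 0) (nat_lit 0)) T4.l3
  TrL.n)))))) (by decide +kernel)
theorem bx0_3 : BoxOK sI cl4 cl6 cl13 t2 t4 b0_3 :=
  box_mk (TrL.c (I.pos (nat_lit 0) (nat_lit 0)) (xa (xb (xa T2.l10 T2.l10) (xa T2.l10 T2.l10)) (xb T2.l6 T2.l6))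
  (TrL.c (I.pos (nat_lit 0) (nat_lit 0)) T4.l2
  (TrL.c (I.pos (nat_lit 0) (nat_lit 0)) T2.l7
  (TrL.c (I.pos (nat_lit 0) (nat_lit 0)) T4.l1
  (TrL.c (I.pos (nat_lit 0) (nat_lit 0)) (xa T2.l11 T2.l11)
  (TrL.c (I.pos (nat_lit 0) (nat_lit 0)) T4.l3
  TrL.n)))))) (by decide +kernel)
theorem bx0_4 : BoxOK sI cl4 cl6 cl13 t2 t4 b0_4 :=
  box_mk (TrL.c (I.pos (nat_lit 0) (nat_lit 0)) (xb T2.l18 T2.l18)
  (TrL.c (I.pos (nat_lit 0) (nat_lit 0)) T4.l1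
  (TrL.c (I.pos (nat_lit 0) (nat_lit 0)) T2.l1
  (TrL.c (I.pos (nat_lit 0) (nat_lit 0)) T4.l2
  (TrL.c (I.pos (nat_lit 0) (nat_lit 0)) T2.l7
  (TrL.c (I.pos (nat_lit 0) (nat_lit 0)) T4.l3
  TrL.n)))))) (by decide +kernel)
theorem bx0_5 : BoxOK sI cl4 cl6 cl13 t2 t4 b0_5 :=
  box_mk (TrL.c (I.pos (nat_lit 0) (nat_lit 0)) (xa (xa T2.l12 T2.l12) T2.l10)
  (TrL.c (I.pos (nat_lit 0) (nat_lit 0)) T4.l2
  (TrL.c (I.pos (nat_lit 0) (nat_lit 0)) T2.l7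
  (TrL.c (I.pos (nat_lit 0) (nat_lit 0)) T4.l1
  (TrL.c (I.pos (nat_lit 0) (nat_lit 0)) T2.l13
  (TrL.c (I.pos (nat_lit 0) (nat_lit 0)) T4.l3
  TrL.n)))))) (by decide +kernel)
theorem bx0_6 : BoxOK sI cl4 cl6 cl13 t2 t4 b0_6 :=
  box_mk (TrL.c (I.pos (nat_lit 0) (nat_lit 0)) (xa T2.l0 T2.l4)
  (TrL.c (I.pos (nat_lit 0) (nat_lit 0)) (xa T4.l1 T4.l1)
  (TrL.c (I.pos (nat_lit 0) (nat_lit 0)) T2.l1
  (TrL.c (I.pos (nat_lit 0) (nat_lit 0)) (xa T4.l2 (xb (xa T4.l2 T4.l2) T4.l2))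
  (TrL.c (I.pos (nat_lit 0) (nat_lit 0)) T2.l2
  (TrL.c (I.pos (nat_lit 0) (nat_lit 0)) (xa T4.l3 T4.l3)
  TrL.n)))))) (by decide +kernel)
theorem bx0_7 : BoxOK sI cl4 cl6 cl13 t2 t4 b0_7 :=
  box_mk (TrL.c (I.pos (nat_lit 0) (nat_lit 0)) (xa (xb T2.l0 (xa T2.l0 T2.l0)) (xb T2.l4 T2.l4))
  (TrL.c (I.pos (nat_lit 0) (nat_lit 0)) (xa T4.l1 (xb T4.l1 T4.l1))
  (TrL.c (I.pos (nat_lit 0) (nat_lit 0)) T2.l1
  (TrL.c (I.pos (nat_lit 0) (nat_lit 0)) (xa T4.l2 (xb T4.l2 T4.l2))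
  (TrL.c (I.pos (nat_lit 0) (nat_lit 0)) T2.l2
  (TrL.c (I.pos (nat_lit 0) (nat_lit 0)) (xa T4.l3 (xb T4.l3 T4.l3))
  TrL.n)))))) (by decide +kernel)
theorem bx0_8 : BoxOK sI cl4 cl6 cl13 t2 t4 b0_8 :=
  box_mk (TrL.c (I.pos (nat_lit 0) (nat_lit 0)) (xa (xb (xa (xb T2.l0 T2.l0) (xb T2.l0 T2.l0)) (xa (xb T2.l0 (xs T2.l0 (xa T2.l0 T2.l0))) (xb T2.l0 (xs T2.l0 T2.l0)))) (xb (xa (xb T2.l0 T2.l0) (xb T2.l0 T2.l0)) (xa (xb T2.l0 (xs T2.l0 T2.l0)) (xb (xs T2.l0 T2.l0) (xs T2.l0 (xa T2.l0 T2.l0))))))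
  (TrL.c (I.pos (nat_lit 0) (nat_lit 0)) (xa (xb T4.l1 (xa T4.l1 T4.l1)) (xb (xa T4.l1 T4.l1) (xa T4.l1 (xb T4.l1 T4.l1))))
  (TrL.c (I.pos (nat_lit 0) (nat_lit 0)) (xa T2.l1 (xb T2.l1 T2.l1))
  (TrL.c (I.pos (nat_lit 0) (nat_lit 0)) (xa (xb T4.l2 T4.l2) (xb (xa T4.l2 (xb T4.l2 T4.l2)) (xa T4.l2 (xb T4.l2 (xs T4.l2 T4.l2)))))
  (TrL.c (I.pos (nat_lit 0) (nat_lit 0)) (xa T2.l2 (xb T2.l2 T2.l2))
  (TrL.c (I.pos (nat_lit 0) (nat_lit 0)) (xa (xb T4.l3 (xa T4.l3 T4.l3)) (xb (xa T4.l3 T4.l3) (xa T4.l3 (xb T4.l3 T4.l3))))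
  TrL.n)))))) (by decide +kernel)
theorem bx0_9 : BoxOK sI cl4 cl6 cl13 t2 t4 b0_9 :=
  box_mk (TrL.c (I.pos (nat_lit 0) (nat_lit 0)) (xa (xb (xa T2.l8 (xb T2.l14 T2.l14)) T2.l8) (xb (xa T2.l14 (xb T2.l14 T2.l14)) (xa (xb T2.l14 T2.l14) T2.l14)))
  (TrL.c (I.pos (nat_lit 0) (nat_lit 0)) T4.l1
  (TrL.c (I.pos (nat_lit 0) (nat_lit 0)) T2.l1
  (TrL.c (I.pos (nat_lit 0) (nat_lit 0)) T4.l2
  (TrL.c (I.pos (nat_lit 0) (nat_lit 0)) (xa T2.l15 T2.l15)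
  (TrL.c (I.pos (nat_lit 0) (nat_lit 0)) T4.l3
  TrL.n)))))) (by decide +kernel)
theorem bx0_10 : BoxOK sI cl4 cl6 cl13 t2 t4 b0_10 :=
  box_mk (TrL.c (I.pos (nat_lit 0) (nat_lit 0)) (xa (xb (xa T2.l19 T2.l19) (xa T2.l19 T2.l19)) (xb (xa T2.l19 T2.l19) T2.l6))
  (TrL.c (I.pos (nat_lit 0) (nat_lit 0)) T4.l1
  (TrL.c (I.pos (nat_lit 0) (nat_lit 0)) T2.l1
  (TrL.c (I.pos (nat_lit 0) (nat_lit 0)) T4.l2
  (TrL.c (I.pos (nat_lit 0) (nat_lit 0)) T2.l16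
  (TrL.c (I.pos (nat_lit 0) (nat_lit 0)) T4.l3
  TrL.n)))))) (by decide +kernel)
theorem bx0_11 : BoxOK sI cl4 cl6 cl13 t2 t4 b0_11 :=
  box_mk (TrL.c (I.pos (nat_lit 0) (nat_lit 0)) (xb (xa T2.l20 (xb T2.l0 (xa T2.l20 T2.l20))) (xa (xb T2.l20 (xa (xb T2.l20 T2.l20) T2.l20)) (xb (xa T2.l20 T2.l20) (xa (xb T2.l20 T2.l20) T2.l0))))
  (TrL.c (I.pos (nat_lit 0) (nat_lit 0)) (xb T4.l1 (xa T4.l1 T4.l1))
  (TrL.c (I.pos (nat_lit 0) (nat_lit 0)) T2.l1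
  (TrL.c (I.pos (nat_lit 0) (nat_lit 0)) (xb T4.l2 T4.l2)
  (TrL.c (I.pos (nat_lit 0) (nat_lit 0)) (xb T2.l21 T2.l21)
  (TrL.c (I.pos (nat_lit 0) (nat_lit 0)) (xb T4.l3 (xa T4.l3 T4.l3))
  TrL.n)))))) (by decide +kernel)
theorem bx0_12 : BoxOK sI cl4 cl6 cl13 t2 t4 b0_12 :=
  box_mk (TrL.c (I.pos (nat_lit 0) (nat_lit 0)) (xa (xa (xb (xa T2.l17 T2.l17) (xa T2.l17 T2.l17)) (xb T2.l6 T2.l6)) (xa T2.l6 T2.l6))
  (TrL.c (I.pos (nat_lit 0) (nat_lit 0)) (xa T4.l2 T4.l1)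
  (TrL.c (I.pos (nat_lit 0) (nat_lit 0)) (xa T2.l1 T2.l1)
  (TrL.c (I.pos (nat_lit 0) (nat_lit 0)) (xa T4.l1 T4.l2)
  (TrL.c (I.pos (nat_lit 0) (nat_lit 0)) (xa (xb T2.l22 T2.l22) T2.l7)
  (TrL.c (I.pos (nat_lit 0) (nat_lit 0)) (xa T4.l3 T4.l3)
  TrL.n)))))) (by decide +kernel)
theorem bx0_13 : BoxOK sI cl4 cl6 cl13 t2 t4 b0_13 :=
  box_mk (TrL.c (I.pos (nat_lit 0) (nat_lit 0)) (xb (xa T2.l20 T2.l0) T2.l20)
  (TrL.c (I.pos (nat_lit 0) (nat_lit 0)) T4.l1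
  (TrL.c (I.pos (nat_lit 0) (nat_lit 0)) T2.l1
  (TrL.c (I.pos (nat_lit 0) (nat_lit 0)) T4.l2
  (TrL.c (I.pos (nat_lit 0) (nat_lit 0)) T2.l2
  (TrL.c (I.pos (nat_lit 0) (nat_lit 0)) T4.l3
  TrL.n)))))) (by decide +kernel)
theorem bx0_14 : BoxOK sI cl4 cl6 cl13 t2 t4 b0_14 :=
  box_mk (TrL.c (I.pos (nat_lit 0) (nat_lit 0)) (xa T2.l20 T2.l20)
  (TrL.c (I.pos (nat_lit 0) (nat_lit 0)) T4.l1
  (TrL.c (I.pos (nat_lit 0) (nat_lit 0)) T2.l1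
  (TrL.c (I.pos (nat_lit 0) (nat_lit 0)) T4.l2
  (TrL.c (I.pos (nat_lit 0) (nat_lit 0)) T2.l21
  (TrL.c (I.pos (nat_lit 0) (nat_lit 0)) T4.l3
  TrL.n)))))) (by decide +kernel)
theorem bx0_15 : BoxOK sI cl4 cl6 cl13 t2 t4 b0_15 :=
  box_mk (TrL.c (I.pos (nat_lit 0) (nat_lit 0)) (xa (xb T2.l20 (xa T2.l20 T2.l20)) (xb (xa T2.l20 T2.l20) (xa T2.l20 T2.l20)))
  (TrL.c (I.pos (nat_lit 0) (nat_lit 0)) (xa T4.l1 T4.l1)
  (TrL.c (I.pos (nat_lit 0) (nat_lit 0)) T2.l5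
  (TrL.c (I.pos (nat_lit 0) (nat_lit 0)) (xa T4.l2 (xb T4.l2 T4.l2))
  (TrL.c (I.pos (nat_lit 0) (nat_lit 0)) T2.l3
  (TrL.c (I.pos (nat_lit 0) (nat_lit 0)) (xa T4.l3 T4.l3)
  TrL.n)))))) (by decide +kernel)
theorem bx0_16 : BoxOK sI cl4 cl6 cl13 t2 t4 b0_16 :=
  box_mk (TrL.c (I.pos (nat_lit 0) (nat_lit 0)) (xa (xb T2.l20 T2.l20) T2.l20)
  (TrL.c (I.pos (nat_lit 0) (nat_lit 0)) T4.l1
  (TrL.c (I.pos (nat_lit 0) (nat_lit 0)) T2.l1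
  (TrL.c (I.pos (nat_lit 0) (nat_lit 0)) T4.l2
  (TrL.c (I.pos (nat_lit 0) (nat_lit 0)) T2.l3
  (TrL.c (I.pos (nat_lit 0) (nat_lit 0)) T4.l3
  TrL.n)))))) (by decide +kernel)
theorem bx0_17 : BoxOK sI cl4 cl6 cl13 t2 t4 b0_17 :=
  box_mk (TrL.c (I.pos (nat_lit 0) (nat_lit 0)) T2.l20
  (TrL.c (I.pos (nat_lit 0) (nat_lit 0)) T4.l1
  (TrL.c (I.pos (nat_lit 0) (nat_lit 0)) T2.l1
  (TrL.c (I.pos (nat_lit 0) (nat_lit 0)) T4.l2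
  (TrL.c (I.pos (nat_lit 0) (nat_lit 0)) T2.l21
  (TrL.c (I.pos (nat_lit 0) (nat_lit 0)) T4.l3
  TrL.n)))))) (by decide +kernel)
theorem bx0_18 : BoxOK sI cl4 cl6 cl13 t2 t4 b0_18 :=
  box_mk (TrL.c (I.pos (nat_lit 0) (nat_lit 0)) (xb T2.l20 T2.l20)
  (TrL.c (I.pos (nat_lit 0) (nat_lit 0)) T4.l1
  (TrL.c (I.pos (nat_lit 0) (nat_lit 0)) T2.l1
  (TrL.c (I.pos (nat_lit 0) (nat_lit 0)) T4.l2
  (TrL.c (I.pos (nat_lit 0) (nat_lit 0)) T2.l3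
  (TrL.c (I.pos (nat_lit 0) (nat_lit 0)) T4.l3
  TrL.n)))))) (by decide +kernel)
theorem bx0_19 : BoxOK sI cl4 cl6 cl13 t2 t4 b0_19 :=
  box_mk (TrL.c (I.pos (nat_lit 0) (nat_lit 0)) (xb T2.l14 T2.l20)
  (TrL.c (I.pos (nat_lit 0) (nat_lit 0)) T4.l1
  (TrL.c (I.pos (nat_lit 0) (nat_lit 0)) T2.l1
  (TrL.c (I.pos (nat_lit 0) (nat_lit 0)) T4.l2
  (TrL.c (I.pos (nat_lit 0) (nat_lit 0)) T2.l21
  (TrL.c (I.pos (nat_lit 0) (nat_lit 0)) T4.l3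
  TrL.n)))))) (by decide +kernel)
theorem bx0_20 : BoxOK sI cl4 cl6 cl13 t2 t4 b0_20 :=
  box_mk (TrL.c (I.pos (nat_lit 0) (nat_lit 0)) T2.l20
  (TrL.c (I.pos (nat_lit 0) (nat_lit 0)) T4.l1
  (TrL.c (I.pos (nat_lit 0) (nat_lit 0)) T2.l1
  (TrL.c (I.pos (nat_lit 0) (nat_lit 0)) T4.l2
  (TrL.c (I.pos (nat_lit 0) (nat_lit 0)) T2.l21
  (TrL.c (I.pos (nat_lit 0) (nat_lit 0)) T4.l3
  TrL.n)))))) (by decide +kernel)
theorem sv0 : StarV sI cl4 cl6 cl13 t2 t4 t0 :=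
  (bt_n (bt_n (bt_n (bt_n (bt_b bx0_0) (bt_b bx0_1)) (bt_n (bt_b bx0_2) (bt_n (bt_b bx0_3) (bt_b bx0_4)))) (bt_n (bt_n (bt_b bx0_5) (bt_b bx0_6)) (bt_n (bt_b bx0_7) (bt_n (bt_b bx0_8) (bt_b bx0_9))))) (bt_n (bt_n (bt_n (bt_b bx0_10) (bt_b bx0_11)) (bt_n (bt_b bx0_12) (bt_n (bt_b bx0_13) (bt_b bx0_14)))) (bt_n (bt_n (bt_b bx0_15) (bt_n (bt_b bx0_16) (bt_b bx0_17))) (bt_n (bt_b bx0_18) (bt_n (bt_b bx0_19) (bt_b bx0_20))))))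
def S0 : StarD := StarD.mk cl4 cl6 cl13 2 4 t0
theorem bx1_0 : BoxOK sI cl4 cl13 cl6 t4 t2 b1_0 :=
  box_mk (TrL.c (I.pos (nat_lit 0) (nat_lit 0)) (xa (xb (xa (xb T4.l0 T4.l0) T4.l0) (xa (xb (xa T4.l0 T4.l0) (xa (xs T4.l0 T4.l0) (xs T4.l0 T4.l0))) (xb T4.l0 (xa (xs T4.l0 T4.l0) (xs T4.l0 T4.l0))))) (xb (xa T4.l0 (xb T4.l0 T4.l0)) (xa (xb T4.l0 (xa (xs T4.l0 T4.l0) (xs T4.l0 T4.l0))) (xb T4.l0 (xa (xs T4.l0 T4.l0) (xs T4.l0 T4.l0))))))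
  (TrL.c (I.pos (nat_lit 0) (nat_lit 0)) (xa (xb T2.l3 T2.l3) (xb T2.l3 (xa T2.l3 (xb T2.l3 T2.l3))))
  (TrL.c (I.pos (nat_lit 0) (nat_lit 0)) T4.l4
  (TrL.c (I.pos (nat_lit 0) (nat_lit 0)) (xa T2.l4 (xb T2.l4 T2.l4))
  (TrL.c (I.pos (nat_lit 0) (nat_lit 0)) (xa T4.l5 T4.l5)
  (TrL.c (I.pos (nat_lit 0) (nat_lit 0)) (xa (xb T2.l5 T2.l5) (xb T2.l5 (xa T2.l5 (xb T2.l5 T2.l5))))
  TrL.n)))))) (by decide +kernel)
theorem bx1_1 : BoxOK sI cl4 cl13 cl6 t4 t2 b1_1 :=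
  box_mk (TrL.c (I.pos (nat_lit 0) (nat_lit 0)) (xa (xa (xb (xa T4.l6 T4.l6) (xa T4.l6 T4.l6)) T4.l6) (xa (xa T4.l6 T4.l6) (xa (xb T4.l6 T4.l6) (xb T4.l8 T4.l20))))
  (TrL.c (I.pos (nat_lit 0) (nat_lit 0)) (xa T2.l3 T2.l3)
  (TrL.c (I.pos (nat_lit 0) (nat_lit 0)) T4.l4
  (TrL.c (I.pos (nat_lit 0) (nat_lit 0)) (xa T2.l4 T2.l4)
  (TrL.c (I.pos (nat_lit 0) (nat_lit 0)) (xa T4.l21 (xa T4.l7 T4.l7))
  (TrL.c (I.pos (nat_lit 0) (nat_lit 0)) (xa T2.l5 T2.l5)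
  TrL.n)))))) (by decide +kernel)
theorem bx1_2 : BoxOK sI cl4 cl13 cl6 t4 t2 b1_2 :=
  box_mk (TrL.c (I.pos (nat_lit 0) (nat_lit 0)) (xb (xa (xb T4.l8 T4.l8) T4.l0) (xa (xb T4.l8 T4.l8) (xb T4.l0 (xa T4.l8 T4.l8))))
  (TrL.c (I.pos (nat_lit 0) (nat_lit 0)) T2.l3
  (TrL.c (I.pos (nat_lit 0) (nat_lit 0)) T4.l4
  (TrL.c (I.pos (nat_lit 0) (nat_lit 0)) T2.l4
  (TrL.c (I.pos (nat_lit 0) (nat_lit 0)) (xb T4.l9 T4.l9)
  (TrL.c (I.pos (nat_lit 0) (nat_lit 0)) T2.l5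
  TrL.n)))))) (by decide +kernel)
theorem bx1_3 : BoxOK sI cl4 cl13 cl6 t4 t2 b1_3 :=
  box_mk (TrL.c (I.pos (nat_lit 0) (nat_lit 0)) (xa (xa (xb T4.l10 T4.l10) T4.l6) T4.l6)
  (TrL.c (I.pos (nat_lit 0) (nat_lit 0)) (xa T2.l3 T2.l3)
  (TrL.c (I.pos (nat_lit 0) (nat_lit 0)) T4.l4
  (TrL.c (I.pos (nat_lit 0) (nat_lit 0)) (xa T2.l4 T2.l4)
  (TrL.c (I.pos (nat_lit 0) (nat_lit 0)) (xa T4.l11 T4.l11)
  (TrL.c (I.pos (nat_lit 0) (nat_lit 0)) (xa T2.l5 T2.l5)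
  TrL.n)))))) (by decide +kernel)
theorem bx1_4 : BoxOK sI cl4 cl13 cl6 t4 t2 b1_4 :=
  box_mk (TrL.c (I.pos (nat_lit 0) (nat_lit 0)) (xa (xb T4.l0 T4.l0) (xb T4.l2 T4.l2))
  (TrL.c (I.pos (nat_lit 0) (nat_lit 0)) (xa T2.l3 (xb T2.l3 T2.l3))
  (TrL.c (I.pos (nat_lit 0) (nat_lit 0)) T4.l3
  (TrL.c (I.pos (nat_lit 0) (nat_lit 0)) T2.l4
  (TrL.c (I.pos (nat_lit 0) (nat_lit 0)) T4.l1
  (TrL.c (I.pos (nat_lit 0) (nat_lit 0)) (xa T2.l5 (xb T2.l5 T2.l5))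
  TrL.n)))))) (by decide +kernel)
theorem bx1_5 : BoxOK sI cl4 cl13 cl6 t4 t2 b1_5 :=
  box_mk (TrL.c (I.pos (nat_lit 0) (nat_lit 0)) (xa (xb (xa (xb (xa T4.l0 T4.l0) (xa (xs T4.l0 T4.l0) T4.l0)) (xb T4.l0 T4.l0)) (xa (xb (xs T4.l0 (xa T4.l0 T4.l0)) (xs T4.l0 (xa T4.l0 T4.l0))) (xb T4.l0 (xs T4.l0 (xa T4.l0 T4.l0))))) (xb (xa (xb T4.l0 T4.l0) (xb T4.l2 (xs T4.l0 T4.l0))) (xa (xb (xs T4.l0 T4.l0) (xs T4.l0 (xa T4.l0 T4.l0))) (xb (xs T4.l0 (xa T4.l0 T4.l0)) (xs (xa T4.l0 T4.l0) (xa T4.l0 T4.l0))))))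
  (TrL.c (I.pos (nat_lit 0) (nat_lit 0)) (xa (xb T2.l3 (xa T2.l3 T2.l3)) (xb (xa T2.l3 T2.l3) (xa (xs T2.l3 T2.l3) (xs T2.l3 (xb T2.l3 T2.l3)))))
  (TrL.c (I.pos (nat_lit 0) (nat_lit 0)) (xa T4.l4 T4.l4)
  (TrL.c (I.pos (nat_lit 0) (nat_lit 0)) (xa T2.l4 (xb (xa T2.l4 (xb T2.l4 T2.l4)) (xa T2.l4 (xb T2.l4 T2.l4))))
  (TrL.c (I.pos (nat_lit 0) (nat_lit 0)) (xa T4.l5 T4.l5)
  (TrL.c (I.pos (nat_lit 0) (nat_lit 0)) (xa (xb T2.l5 (xa T2.l5 T2.l5)) (xb (xa T2.l5 T2.l5) (xa (xs T2.l5 T2.l5) (xs T2.l5 (xb T2.l5 T2.l5)))))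
  TrL.n)))))) (by decide +kernel)
theorem bx1_6 : BoxOK sI cl4 cl13 cl6 t4 t2 b1_6 :=
  box_mk (TrL.c (I.pos (nat_lit 0) (nat_lit 0)) T4.l20
  (TrL.c (I.pos (nat_lit 0) (nat_lit 0)) T2.l3
  (TrL.c (I.pos (nat_lit 0) (nat_lit 0)) T4.l4
  (TrL.c (I.pos (nat_lit 0) (nat_lit 0)) T2.l4
  (TrL.c (I.pos (nat_lit 0) (nat_lit 0)) T4.l21
  (TrL.c (I.pos (nat_lit 0) (nat_lit 0)) T2.l5
  TrL.n)))))) (by decide +kernel)
theorem bx1_7 : BoxOK sI cl4 cl13 cl6 t4 t2 b1_7 :=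
  box_mk (TrL.c (I.pos (nat_lit 0) (nat_lit 0)) (xa T4.l6 T4.l8)
  (TrL.c (I.pos (nat_lit 0) (nat_lit 0)) T2.l3
  (TrL.c (I.pos (nat_lit 0) (nat_lit 0)) T4.l4
  (TrL.c (I.pos (nat_lit 0) (nat_lit 0)) T2.l4
  (TrL.c (I.pos (nat_lit 0) (nat_lit 0)) T4.l7
  (TrL.c (I.pos (nat_lit 0) (nat_lit 0)) T2.l5
  TrL.n)))))) (by decide +kernel)
theorem bx1_8 : BoxOK sI cl4 cl13 cl6 t4 t2 b1_8 :=
  box_mk (TrL.c (I.pos (nat_lit 0) (nat_lit 0)) (xa (xb T4.l0 T4.l0) T4.l2)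
  (TrL.c (I.pos (nat_lit 0) (nat_lit 0)) (xa T2.l3 (xb T2.l3 T2.l3))
  (TrL.c (I.pos (nat_lit 0) (nat_lit 0)) T4.l3
  (TrL.c (I.pos (nat_lit 0) (nat_lit 0)) (xa T2.l4 (xb (xa T2.l4 T2.l4) T2.l4))
  (TrL.c (I.pos (nat_lit 0) (nat_lit 0)) T4.l1
  (TrL.c (I.pos (nat_lit 0) (nat_lit 0)) (xa T2.l5 (xb T2.l5 T2.l5))
  TrL.n)))))) (by decide +kernel)
theorem bx1_9 : BoxOK sI cl4 cl13 cl6 t4 t2 b1_9 :=
  box_mk (TrL.c (I.pos (nat_lit 0) (nat_lit 0)) (xa (xb (xa (xb T4.l14 T4.l14) T4.l0) (xa T4.l8 T4.l0)) T4.l0)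
  (TrL.c (I.pos (nat_lit 0) (nat_lit 0)) T2.l3
  (TrL.c (I.pos (nat_lit 0) (nat_lit 0)) T4.l4
  (TrL.c (I.pos (nat_lit 0) (nat_lit 0)) T2.l4
  (TrL.c (I.pos (nat_lit 0) (nat_lit 0)) (xa T4.l15 T4.l15)
  (TrL.c (I.pos (nat_lit 0) (nat_lit 0)) T2.l5
  TrL.n)))))) (by decide +kernel)
theorem bx1_10 : BoxOK sI cl4 cl13 cl6 t4 t2 b1_10 :=
  box_mk (TrL.c (I.pos (nat_lit 0) (nat_lit 0)) (xa T4.l6 T4.l6)
  (TrL.c (I.pos (nat_lit 0) (nat_lit 0)) T2.l3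
  (TrL.c (I.pos (nat_lit 0) (nat_lit 0)) T4.l4
  (TrL.c (I.pos (nat_lit 0) (nat_lit 0)) T2.l4
  (TrL.c (I.pos (nat_lit 0) (nat_lit 0)) (xa T4.l17 T4.l17)
  (TrL.c (I.pos (nat_lit 0) (nat_lit 0)) T2.l5
  TrL.n)))))) (by decide +kernel)
theorem bx1_11 : BoxOK sI cl4 cl13 cl6 t4 t2 b1_11 :=
  box_mk (TrL.c (I.pos (nat_lit 0) (nat_lit 0)) (xb (xa (xb (xa T4.l18 T4.l18) (xa (xb T4.l18 T4.l18) T4.l18)) (xb (xa T4.l18 T4.l18) (xa T4.l18 T4.l18))) (xa (xb (xa (xb T4.l18 T4.l18) T4.l18) (xa (xb (xs T4.l18 T4.l18) (xs T4.l18 T4.l18)) (xb T4.l18 (xs T4.l18 T4.l18)))) (xb (xa T4.l18 (xb T4.l18 T4.l18)) (xa (xb T4.l18 (xs T4.l18 T4.l18)) (xb T4.l18 (xs T4.l18 T4.l18))))))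
  (TrL.c (I.pos (nat_lit 0) (nat_lit 0)) (xb (xa T2.l3 (xb T2.l3 T2.l3)) (xa (xb T2.l3 (xa T2.l3 T2.l3)) (xb T2.l3 (xa T2.l3 T2.l3))))
  (TrL.c (I.pos (nat_lit 0) (nat_lit 0)) (xb T4.l4 T4.l4)
  (TrL.c (I.pos (nat_lit 0) (nat_lit 0)) (xb T2.l4 (xa T2.l4 (xb T2.l4 T2.l4)))
  (TrL.c (I.pos (nat_lit 0) (nat_lit 0)) (xb T4.l19 T4.l19)
  (TrL.c (I.pos (nat_lit 0) (nat_lit 0)) (xb (xa T2.l5 (xb T2.l5 T2.l5)) (xa (xb T2.l5 (xa T2.l5 T2.l5)) (xb T2.l5 (xa T2.l5 T2.l5))))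
  TrL.n)))))) (by decide +kernel)
theorem bx1_12 : BoxOK sI cl4 cl13 cl6 t4 t2 b1_12 :=
  box_mk (TrL.c (I.pos (nat_lit 0) (nat_lit 0)) (xa (xa (xb (xa (xb T4.l20 T4.l20) T4.l20) (xa (xb T4.l20 (xa T4.l20 T4.l20)) T4.l20)) (xb T4.l20 T4.l20)) (xa (xb T4.l20 T4.l20) (xb (xa T4.l20 T4.l8) (xa T4.l20 T4.l20))))
  (TrL.c (I.pos (nat_lit 0) (nat_lit 0)) (xa (xa T2.l3 T2.l3) T2.l3)
  (TrL.c (I.pos (nat_lit 0) (nat_lit 0)) (xa T4.l4 T4.l4)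
  (TrL.c (I.pos (nat_lit 0) (nat_lit 0)) (xa (xa T2.l4 T2.l4) T2.l4)
  (TrL.c (I.pos (nat_lit 0) (nat_lit 0)) (xa (xa T4.l21 T4.l21) (xa T4.l21 T4.l21))
  (TrL.c (I.pos (nat_lit 0) (nat_lit 0)) (xa (xa T2.l5 T2.l5) T2.l5)
  TrL.n)))))) (by decide +kernel)
theorem bx1_13 : BoxOK sI cl4 cl13 cl6 t4 t2 b1_13 :=
  box_mk (TrL.c (I.pos (nat_lit 0) (nat_lit 0)) T4.l0
  (TrL.c (I.pos (nat_lit 0) (nat_lit 0)) T2.l3
  (TrL.c (I.pos (nat_lit 0) (nat_lit 0)) T4.l4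
  (TrL.c (I.pos (nat_lit 0) (nat_lit 0)) T2.l4
  (TrL.c (I.pos (nat_lit 0) (nat_lit 0)) T4.l19
  (TrL.c (I.pos (nat_lit 0) (nat_lit 0)) T2.l5
  TrL.n)))))) (by decide +kernel)
theorem bx1_14 : BoxOK sI cl4 cl13 cl6 t4 t2 b1_14 :=
  box_mk (TrL.c (I.pos (nat_lit 0) (nat_lit 0)) T4.l0
  (TrL.c (I.pos (nat_lit 0) (nat_lit 0)) T2.l3
  (TrL.c (I.pos (nat_lit 0) (nat_lit 0)) T4.l4
  (TrL.c (I.pos (nat_lit 0) (nat_lit 0)) T2.l4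
  (TrL.c (I.pos (nat_lit 0) (nat_lit 0)) T4.l15
  (TrL.c (I.pos (nat_lit 0) (nat_lit 0)) T2.l5
  TrL.n)))))) (by decide +kernel)
theorem bx1_15 : BoxOK sI cl4 cl13 cl6 t4 t2 b1_15 :=
  box_mk (TrL.c (I.pos (nat_lit 0) (nat_lit 0)) (xb (xa (xb (xa T4.l18 T4.l18) (xa T4.l18 T4.l18)) (xb (xa T4.l18 T4.l2) (xa T4.l18 T4.l18))) (xa (xb (xa T4.l18 T4.l18) (xa (xb T4.l18 T4.l18) T4.l18)) (xa (xb T4.l18 T4.l18) (xb T4.l18 (xs T4.l18 T4.l18)))))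
  (TrL.c (I.pos (nat_lit 0) (nat_lit 0)) (xa (xb T2.l3 T2.l3) (xb T2.l3 T2.l3))
  (TrL.c (I.pos (nat_lit 0) (nat_lit 0)) (xa T4.l4 T4.l4)
  (TrL.c (I.pos (nat_lit 0) (nat_lit 0)) (xb (xa T2.l4 (xa T2.l4 T2.l4)) T2.l4)
  (TrL.c (I.pos (nat_lit 0) (nat_lit 0)) (xa T4.l19 T4.l19)
  (TrL.c (I.pos (nat_lit 0) (nat_lit 0)) (xa (xb T2.l5 T2.l5) (xb T2.l5 T2.l5))
  TrL.n)))))) (by decide +kernel)
theorem bx1_16 : BoxOK sI cl4 cl13 cl6 t4 t2 b1_16 :=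
  box_mk (TrL.c (I.pos (nat_lit 0) (nat_lit 0)) T4.l0
  (TrL.c (I.pos (nat_lit 0) (nat_lit 0)) T2.l3
  (TrL.c (I.pos (nat_lit 0) (nat_lit 0)) T4.l4
  (TrL.c (I.pos (nat_lit 0) (nat_lit 0)) T2.l4
  (TrL.c (I.pos (nat_lit 0) (nat_lit 0)) T4.l19
  (TrL.c (I.pos (nat_lit 0) (nat_lit 0)) T2.l5
  TrL.n)))))) (by decide +kernel)
theorem bx1_17 : BoxOK sI cl4 cl13 cl6 t4 t2 b1_17 :=
  box_mk (TrL.c (I.pos (nat_lit 0) (nat_lit 0)) T4.l0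
  (TrL.c (I.pos (nat_lit 0) (nat_lit 0)) T2.l3
  (TrL.c (I.pos (nat_lit 0) (nat_lit 0)) T4.l4
  (TrL.c (I.pos (nat_lit 0) (nat_lit 0)) T2.l4
  (TrL.c (I.pos (nat_lit 0) (nat_lit 0)) T4.l19
  (TrL.c (I.pos (nat_lit 0) (nat_lit 0)) T2.l5
  TrL.n)))))) (by decide +kernel)
theorem bx1_18 : BoxOK sI cl4 cl13 cl6 t4 t2 b1_18 :=
  box_mk (TrL.c (I.pos (nat_lit 0) (nat_lit 0)) T4.l0
  (TrL.c (I.pos (nat_lit 0) (nat_lit 0)) T2.l3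
  (TrL.c (I.pos (nat_lit 0) (nat_lit 0)) T4.l4
  (TrL.c (I.pos (nat_lit 0) (nat_lit 0)) T2.l4
  (TrL.c (I.pos (nat_lit 0) (nat_lit 0)) T4.l19
  (TrL.c (I.pos (nat_lit 0) (nat_lit 0)) T2.l5
  TrL.n)))))) (by decide +kernel)
theorem bx1_19 : BoxOK sI cl4 cl13 cl6 t4 t2 b1_19 :=
  box_mk (TrL.c (I.pos (nat_lit 0) (nat_lit 0)) T4.l0
  (TrL.c (I.pos (nat_lit 0) (nat_lit 0)) T2.l3
  (TrL.c (I.pos (nat_lit 0) (nat_lit 0)) T4.l4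
  (TrL.c (I.pos (nat_lit 0) (nat_lit 0)) T2.l4
  (TrL.c (I.pos (nat_lit 0) (nat_lit 0)) T4.l19
  (TrL.c (I.pos (nat_lit 0) (nat_lit 0)) T2.l5
  TrL.n)))))) (by decide +kernel)
theorem bx1_20 : BoxOK sI cl4 cl13 cl6 t4 t2 b1_20 :=
  box_mk (TrL.c (I.pos (nat_lit 0) (nat_lit 0)) T4.l0
  (TrL.c (I.pos (nat_lit 0) (nat_lit 0)) T2.l3
  (TrL.c (I.pos (nat_lit 0) (nat_lit 0)) T4.l4
  (TrL.c (I.pos (nat_lit 0) (nat_lit 0)) T2.l4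
  (TrL.c (I.pos (nat_lit 0) (nat_lit 0)) T4.l15
  (TrL.c (I.pos (nat_lit 0) (nat_lit 0)) T2.l5
  TrL.n)))))) (by decide +kernel)
theorem sv1 : StarV sI cl4 cl13 cl6 t4 t2 t1 :=
  (bt_n (bt_n (bt_n (bt_n (bt_b bx1_0) (bt_b bx1_1)) (bt_n (bt_b bx1_2) (bt_n (bt_b bx1_3) (bt_b bx1_4)))) (bt_n (bt_n (bt_b bx1_5) (bt_b bx1_6)) (bt_n (bt_b bx1_7) (bt_n (bt_b bx1_8) (bt_b bx1_9))))) (bt_n (bt_n (bt_n (bt_b bx1_10) (bt_b bx1_11)) (bt_n (bt_b bx1_12) (bt_n (bt_b bx1_13) (bt_b bx1_14)))) (bt_n (bt_n (bt_b bx1_15) (bt_n (bt_b bx1_16) (bt_b bx1_17))) (bt_n (bt_b bx1_18) (bt_n (bt_b bx1_19) (bt_b bx1_20))))))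
def S1 : StarD := StarD.mk cl4 cl13 cl6 4 2 t1
theorem bx2_0 : BoxOK sI cl6 cl4 cl13 t0 t5 b2_0 :=
  box_mk (TrL.c (I.pos (nat_lit 0) (nat_lit 0)) (xb (xa T0.l8 T0.l0) (xa (xb (xa T0.l0 T0.l0) (xa (xb T0.l0 T0.l0) (xb T0.l0 T0.l0))) (xb (xa T0.l0 T0.l0) (xa (xb T0.l0 T0.l0) (xb T0.l0 (xs T0.l0 T0.l0))))))
  (TrL.c (I.pos (nat_lit 0) (nat_lit 0)) (xb T5.l1 T5.l1)
  (TrL.c (I.pos (nat_lit 0) (nat_lit 89480386)) (xR (xR T0.l1 T0.l1) (xR T0.l1 (xb T0.l1 (xR T0.l1 T0.l1))))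
  (TrL.c (I.pos (nat_lit 0) (nat_lit 41530880)) (xR T5.l2 (xR T5.l2 T5.l2))
  (TrL.c (I.pos (nat_lit 0) (nat_lit 0)) (xb (xa T5.l3 T5.l3) (xa T5.l3 T5.l3))
  (TrL.c (I.pos (nat_lit 0) (nat_lit 0)) T0.l2
  (TrL.c (I.mix (nat_lit 41527258) (nat_lit 41530880)) (xR (xR T5.l4 T5.l4) (xR T5.l4 (xR T5.l4 T5.l4)))
  (TrL.c (I.mix (nat_lit 41527258) (nat_lit 4274)) (xR (xR T0.l3 T0.l3) T0.l3)
  TrL.n)))))))) (by decide +kernel)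
theorem bx2_1 : BoxOK sI cl6 cl4 cl13 t0 t5 b2_1 :=
  box_mk (TrL.c (I.pos (nat_lit 0) (nat_lit 0)) (xb T5.l5 T5.l5)
  (TrL.c (I.pos (nat_lit 0) (nat_lit 0)) T0.l4
  (TrL.c (I.mix (nat_lit 41527258) (nat_lit 41530880)) (xR (xR (xb T5.l6 T5.l6) T5.l6) (xR T5.l6 T5.l6))
  (TrL.c (I.mix (nat_lit 41527258) (nat_lit 4274)) (xR (xb T0.l5 T0.l5) T0.l12)
  TrL.n)))) (by decide +kernel)
theorem bx2_2 : BoxOK sI cl6 cl4 cl13 t0 t5 b2_2 :=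
  box_mk (TrL.c (I.pos (nat_lit 0) (nat_lit 0)) (xb (xa (xb T0.l6 T0.l6) T0.l6) (xa (xb T0.l6 T0.l6) T0.l7))
  (TrL.c (I.pos (nat_lit 0) (nat_lit 0)) T5.l5
  (TrL.c (I.pos (nat_lit 0) (nat_lit 89480386)) (xR T0.l10 (xR T0.l1 T0.l1))
  (TrL.c (I.pos (nat_lit 0) (nat_lit 41530880)) (xR T5.l4 T5.l2)
  (TrL.c (I.pos (nat_lit 0) (nat_lit 0)) (xb T5.l7 T5.l7)
  (TrL.c (I.pos (nat_lit 0) (nat_lit 0)) T0.l2
  (TrL.c (I.mix (nat_lit 41527258) (nat_lit 41530880)) (xR (xR T5.l4 T5.l4) T5.l4)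
  (TrL.c (I.mix (nat_lit 41527258) (nat_lit 4274)) T0.l3
  TrL.n)))))))) (by decide +kernel)
theorem bx2_3 : BoxOK sI cl6 cl4 cl13 t0 t5 b2_3 :=
  box_mk (TrL.c (I.pos (nat_lit 0) (nat_lit 0)) (xa (xb (xa (xb (xa T0.l7 T0.l7) T0.l7) T0.l7) (xa (xb T0.l7 T0.l7) T0.l7)) (xb (xa T0.l7 T0.l7) (xa T0.l7 T0.l7)))
  (TrL.c (I.pos (nat_lit 0) (nat_lit 0)) (xa T5.l1 T5.l1)
  (TrL.c (I.pos (nat_lit 0) (nat_lit 89480386)) (xR (xR T0.l12 T0.l12) (xR T0.l1 (xa (xb (xR T0.l1 T0.l1) T0.l1) T0.l1)))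
  (TrL.c (I.pos (nat_lit 0) (nat_lit 41530880)) (xR T5.l2 (xR T5.l2 T5.l2))
  (TrL.c (I.pos (nat_lit 0) (nat_lit 0)) (xa T5.l8 (xb T5.l8 T5.l8))
  (TrL.c (I.pos (nat_lit 0) (nat_lit 0)) T0.l2
  (TrL.c (I.mix (nat_lit 41527258) (nat_lit 41530880)) (xR (xR (xR T5.l4 T5.l4) T5.l4) (xR T5.l4 (xR T5.l4 T5.l4)))
  (TrL.c (I.mix (nat_lit 41527258) (nat_lit 4274)) (xR (xa T0.l12 T0.l3) T0.l3)
  TrL.n)))))))) (by decide +kernel)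
theorem bx2_4 : BoxOK sI cl6 cl4 cl13 t0 t5 b2_4 :=
  box_mk (TrL.c (I.pos (nat_lit 0) (nat_lit 0)) (xb (xa (xb (xa T0.l8 T0.l8) (xa T0.l8 T0.l8)) (xb (xa T0.l8 T0.l8) (xa T0.l8 T0.l8))) (xa (xb (xa (xb T0.l8 T0.l8) T0.l8) (xa (xb T0.l8 (xa T0.l8 T0.l8)) (xb T0.l8 T0.l8))) (xb (xa T0.l8 T0.l8) (xa (xb T0.l8 (xa T0.l8 T0.l8)) (xb T0.l8 (xa T0.l8 T0.l8))))))
  (TrL.c (I.pos (nat_lit 0) (nat_lit 0)) (xb T5.l1 (xa (xb T5.l1 T5.l1) T5.l1))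
  (TrL.c (I.pos (nat_lit 0) (nat_lit 89480386)) (xR (xR (xb T0.l12 T0.l1) (xb (xR T0.l1 T0.l1) T0.l1)) (xR (xb T0.l1 T0.l1) (xb (xa (xR T0.l1 T0.l1) (xR T0.l1 T0.l1)) (xa (xR T0.l1 T0.l1) (xR T0.l1 T0.l1)))))
  (TrL.c (I.pos (nat_lit 0) (nat_lit 41530880)) (xR T5.l2 (xb (xR T5.l2 T5.l2) (xR T5.l2 T5.l2)))
  (TrL.c (I.pos (nat_lit 0) (nat_lit 0)) (xb (xa T5.l12 (xb T5.l12 T5.l12)) (xa T5.l12 (xb T5.l12 (xb T5.l12 (xs T5.l12 T5.l12)))))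
  (TrL.c (I.pos (nat_lit 0) (nat_lit 0)) (xb T0.l2 T0.l2)
  (TrL.c (I.mix (nat_lit 41527258) (nat_lit 41530880)) (xR (xR (xb T5.l4 (xR T5.l4 T5.l4)) T5.l4) (xR T5.l4 (xb T5.l9 (xR T5.l4 T5.l4))))
  (TrL.c (I.mix (nat_lit 41527258) (nat_lit 4274)) (xR (xb (xR T0.l3 T0.l3) (xR T0.l3 T0.l3)) T0.l3)
  TrL.n)))))))) (by decide +kernel)
theorem bx2_5 : BoxOK sI cl6 cl4 cl13 t0 t5 b2_5 :=
  box_mk (TrL.c (I.pos (nat_lit 0) (nat_lit 0)) (xa T5.l1 T5.l1)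
  (TrL.c (I.pos (nat_lit 0) (nat_lit 0)) T0.l4
  (TrL.c (I.mix (nat_lit 41527258) (nat_lit 41530880)) (xR (xR (xR T5.l6 T5.l6) T5.l6) (xR T5.l6 (xR T5.l6 T5.l6)))
  (TrL.c (I.mix (nat_lit 41527258) (nat_lit 4274)) (xR (xa T0.l5 T0.l5) T0.l5)
  TrL.n)))) (by decide +kernel)
theorem bx2_6 : BoxOK sI cl6 cl4 cl13 t0 t5 b2_6 :=
  box_mk (TrL.c (I.pos (nat_lit 0) (nat_lit 0)) (xa (xb T0.l0 T0.l0) (xb T0.l0 (xa T0.l0 T0.l0)))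
  (TrL.c (I.pos (nat_lit 0) (nat_lit 0)) T5.l10
  (TrL.c (I.pos (nat_lit 0) (nat_lit 89480386)) (xR (xR T0.l1 T0.l12) (xR T0.l1 (xR T0.l1 T0.l1)))
  (TrL.c (I.pos (nat_lit 0) (nat_lit 41530880)) (xR T5.l2 (xR T5.l2 T5.l2))
  (TrL.c (I.pos (nat_lit 0) (nat_lit 0)) (xb (xa T5.l3 T5.l3) (xa T5.l3 T5.l3))
  (TrL.c (I.pos (nat_lit 0) (nat_lit 0)) T0.l2
  (TrL.c (I.mix (nat_lit 41527258) (nat_lit 41530880)) (xR (xR (xR T5.l4 T5.l4) T5.l4) (xR T5.l4 (xR T5.l4 T5.l4)))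
  (TrL.c (I.mix (nat_lit 41527258) (nat_lit 4274)) (xR (xR T0.l3 T0.l3) T0.l3)
  TrL.n)))))))) (by decide +kernel)
theorem bx2_7 : BoxOK sI cl6 cl4 cl13 t0 t5 b2_7 :=
  box_mk (TrL.c (I.pos (nat_lit 0) (nat_lit 0)) T0.l6
  (TrL.c (I.pos (nat_lit 0) (nat_lit 0)) T5.l5
  (TrL.c (I.pos (nat_lit 0) (nat_lit 89480386)) (xR T0.l1 T0.l1)
  (TrL.c (I.pos (nat_lit 0) (nat_lit 41530880)) T5.l4
  (TrL.c (I.pos (nat_lit 0) (nat_lit 0)) T5.l7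
  (TrL.c (I.pos (nat_lit 0) (nat_lit 0)) T0.l2
  (TrL.c (I.mix (nat_lit 41527258) (nat_lit 41530880)) (xR T5.l4 T5.l4)
  (TrL.c (I.mix (nat_lit 41527258) (nat_lit 4274)) T0.l3
  TrL.n)))))))) (by decide +kernel)
theorem bx2_8 : BoxOK sI cl6 cl4 cl13 t0 t5 b2_8 :=
  box_mk (TrL.c (I.pos (nat_lit 0) (nat_lit 0)) T0.l0
  (TrL.c (I.pos (nat_lit 0) (nat_lit 0)) T5.l1
  (TrL.c (I.pos (nat_lit 0) (nat_lit 89480386)) (xR T0.l12 T0.l1)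
  (TrL.c (I.pos (nat_lit 0) (nat_lit 41530880)) (xR T5.l2 T5.l2)
  (TrL.c (I.pos (nat_lit 0) (nat_lit 0)) T5.l3
  (TrL.c (I.pos (nat_lit 0) (nat_lit 0)) T0.l2
  (TrL.c (I.mix (nat_lit 41527258) (nat_lit 41530880)) (xR (xR T5.l4 T5.l4) T5.l4)
  (TrL.c (I.mix (nat_lit 41527258) (nat_lit 4274)) (xR T0.l3 T0.l3)
  TrL.n)))))))) (by decide +kernel)
theorem bx2_9 : BoxOK sI cl6 cl4 cl13 t0 t5 b2_9 :=
  box_mk (TrL.c (I.pos (nat_lit 0) (nat_lit 0)) T0.l6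
  (TrL.c (I.pos (nat_lit 0) (nat_lit 0)) T5.l1
  (TrL.c (I.pos (nat_lit 0) (nat_lit 89480386)) (xR T0.l1 T0.l1)
  (TrL.c (I.pos (nat_lit 0) (nat_lit 41530880)) T5.l2
  (TrL.c (I.pos (nat_lit 0) (nat_lit 0)) T5.l7
  (TrL.c (I.pos (nat_lit 0) (nat_lit 0)) T0.l2
  (TrL.c (I.mix (nat_lit 41527258) (nat_lit 41530880)) T5.l4
  (TrL.c (I.mix (nat_lit 41527258) (nat_lit 4274)) T0.l3
  TrL.n)))))))) (by decide +kernel)
theorem bx2_10 : BoxOK sI cl6 cl4 cl13 t0 t5 b2_10 :=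
  box_mk (TrL.c (I.pos (nat_lit 0) (nat_lit 0)) T0.l0
  (TrL.c (I.pos (nat_lit 0) (nat_lit 0)) T5.l1
  (TrL.c (I.pos (nat_lit 0) (nat_lit 89480386)) (xR (xR T0.l1 T0.l1) (xR T0.l1 T0.l1))
  (TrL.c (I.pos (nat_lit 0) (nat_lit 41530880)) (xR T5.l2 T5.l2)
  (TrL.c (I.pos (nat_lit 0) (nat_lit 0)) (xb T5.l3 T5.l3)
  (TrL.c (I.pos (nat_lit 0) (nat_lit 0)) T0.l2
  (TrL.c (I.mix (nat_lit 41527258) (nat_lit 41530880)) (xR (xR T5.l4 T5.l4) (xR T5.l4 T5.l4))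
  (TrL.c (I.mix (nat_lit 41527258) (nat_lit 4274)) (xR T0.l3 T0.l3)
  TrL.n)))))))) (by decide +kernel)
theorem bx2_11 : BoxOK sI cl6 cl4 cl13 t0 t5 b2_11 :=
  box_mk (TrL.c (I.pos (nat_lit 0) (nat_lit 0)) T0.l6
  (TrL.c (I.pos (nat_lit 0) (nat_lit 0)) T5.l5
  (TrL.c (I.pos (nat_lit 0) (nat_lit 89480386)) (xR T0.l1 T0.l1)
  (TrL.c (I.pos (nat_lit 0) (nat_lit 41530880)) T5.l4
  (TrL.c (I.pos (nat_lit 0) (nat_lit 0)) T5.l5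
  (TrL.c (I.pos (nat_lit 0) (nat_lit 0)) T0.l2
  (TrL.c (I.mix (nat_lit 41527258) (nat_lit 41530880)) T5.l6
  (TrL.c (I.mix (nat_lit 41527258) (nat_lit 4274)) T0.l3
  TrL.n)))))))) (by decide +kernel)
theorem bx2_12 : BoxOK sI cl6 cl4 cl13 t0 t5 b2_12 :=
  box_mk (TrL.c (I.pos (nat_lit 0) (nat_lit 0)) T0.l0
  (TrL.c (I.pos (nat_lit 0) (nat_lit 0)) T5.l1
  (TrL.c (I.pos (nat_lit 0) (nat_lit 89480386)) (xR (xR T0.l1 T0.l1) (xR T0.l1 T0.l1))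
  (TrL.c (I.pos (nat_lit 0) (nat_lit 41530880)) (xR T5.l2 T5.l2)
  (TrL.c (I.pos (nat_lit 0) (nat_lit 0)) T5.l3
  (TrL.c (I.pos (nat_lit 0) (nat_lit 0)) T0.l9
  (TrL.c (I.mix (nat_lit 41527258) (nat_lit 41530880)) (xR (xR T5.l4 T5.l4) T5.l9)
  (TrL.c (I.mix (nat_lit 41527258) (nat_lit 4274)) (xR T0.l3 T0.l3)
  TrL.n)))))))) (by decide +kernel)
theorem bx2_13 : BoxOK sI cl6 cl4 cl13 t0 t5 b2_13 :=
  box_mk (TrL.c (I.pos (nat_lit 0) (nat_lit 0)) T0.l6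
  (TrL.c (I.pos (nat_lit 0) (nat_lit 0)) T5.l5
  (TrL.c (I.pos (nat_lit 0) (nat_lit 89480386)) (xR T0.l1 T0.l1)
  (TrL.c (I.pos (nat_lit 0) (nat_lit 41530880)) T5.l4
  (TrL.c (I.pos (nat_lit 0) (nat_lit 0)) T5.l5
  (TrL.c (I.pos (nat_lit 0) (nat_lit 0)) T0.l2
  (TrL.c (I.mix (nat_lit 41527258) (nat_lit 41530880)) T5.l6
  (TrL.c (I.mix (nat_lit 41527258) (nat_lit 4274)) T0.l3
  TrL.n)))))))) (by decide +kernel)
theorem bx2_14 : BoxOK sI cl6 cl4 cl13 t0 t5 b2_14 :=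
  box_mk (TrL.c (I.pos (nat_lit 0) (nat_lit 0)) T0.l0
  (TrL.c (I.pos (nat_lit 0) (nat_lit 0)) T5.l1
  (TrL.c (I.pos (nat_lit 0) (nat_lit 89480386)) (xR T0.l12 T0.l1)
  (TrL.c (I.pos (nat_lit 0) (nat_lit 41530880)) (xR T5.l2 T5.l2)
  (TrL.c (I.pos (nat_lit 0) (nat_lit 0)) T5.l3
  (TrL.c (I.pos (nat_lit 0) (nat_lit 0)) T0.l2
  (TrL.c (I.mix (nat_lit 41527258) (nat_lit 41530880)) (xR (xR T5.l4 T5.l4) T5.l4)
  (TrL.c (I.mix (nat_lit 41527258) (nat_lit 4274)) (xR T0.l3 T0.l3)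
  TrL.n)))))))) (by decide +kernel)
theorem bx2_15 : BoxOK sI cl6 cl4 cl13 t0 t5 b2_15 :=
  box_mk (TrL.c (I.pos (nat_lit 0) (nat_lit 0)) T0.l6
  (TrL.c (I.pos (nat_lit 0) (nat_lit 0)) T5.l1
  (TrL.c (I.pos (nat_lit 0) (nat_lit 89480386)) (xR T0.l1 T0.l1)
  (TrL.c (I.pos (nat_lit 0) (nat_lit 41530880)) T5.l2
  (TrL.c (I.pos (nat_lit 0) (nat_lit 0)) T5.l8
  (TrL.c (I.pos (nat_lit 0) (nat_lit 0)) T0.l2
  (TrL.c (I.mix (nat_lit 41527258) (nat_lit 41530880)) T5.l4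
  (TrL.c (I.mix (nat_lit 41527258) (nat_lit 4274)) T0.l3
  TrL.n)))))))) (by decide +kernel)
theorem bx2_16 : BoxOK sI cl6 cl4 cl13 t0 t5 b2_16 :=
  box_mk (TrL.c (I.pos (nat_lit 0) (nat_lit 0)) T0.l6
  (TrL.c (I.pos (nat_lit 0) (nat_lit 0)) T5.l5
  (TrL.c (I.pos (nat_lit 0) (nat_lit 89480386)) (xR T0.l1 T0.l1)
  (TrL.c (I.pos (nat_lit 0) (nat_lit 41530880)) T5.l4
  (TrL.c (I.pos (nat_lit 0) (nat_lit 0)) T5.l7
  (TrL.c (I.pos (nat_lit 0) (nat_lit 0)) T0.l2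
  (TrL.c (I.mix (nat_lit 41527258) (nat_lit 41530880)) (xR T5.l4 T5.l4)
  (TrL.c (I.mix (nat_lit 41527258) (nat_lit 4274)) T0.l3
  TrL.n)))))))) (by decide +kernel)
theorem bx2_17 : BoxOK sI cl6 cl4 cl13 t0 t5 b2_17 :=
  box_mk (TrL.c (I.pos (nat_lit 0) (nat_lit 0)) (xb T0.l0 T0.l0)
  (TrL.c (I.pos (nat_lit 0) (nat_lit 0)) T5.l10
  (TrL.c (I.pos (nat_lit 0) (nat_lit 89480386)) (xR (xR T0.l1 T0.l1) (xR T0.l1 T0.l1))
  (TrL.c (I.pos (nat_lit 0) (nat_lit 41530880)) (xR T5.l2 T5.l2)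
  (TrL.c (I.pos (nat_lit 0) (nat_lit 0)) (xb (xa T5.l3 T5.l3) T5.l3)
  (TrL.c (I.pos (nat_lit 0) (nat_lit 0)) T0.l2
  (TrL.c (I.mix (nat_lit 41527258) (nat_lit 41530880)) (xR (xR T5.l4 T5.l4) (xR T5.l4 T5.l9))
  (TrL.c (I.mix (nat_lit 41527258) (nat_lit 4274)) (xR T0.l3 T0.l3)
  TrL.n)))))))) (by decide +kernel)
theorem bx2_18 : BoxOK sI cl6 cl4 cl13 t0 t5 b2_18 :=
  box_mk (TrL.c (I.pos (nat_lit 0) (nat_lit 0)) T0.l0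
  (TrL.c (I.pos (nat_lit 0) (nat_lit 0)) T5.l1
  (TrL.c (I.pos (nat_lit 0) (nat_lit 89480386)) (xR T0.l12 T0.l1)
  (TrL.c (I.pos (nat_lit 0) (nat_lit 41530880)) (xR T5.l2 T5.l2)
  (TrL.c (I.pos (nat_lit 0) (nat_lit 0)) T5.l3
  (TrL.c (I.pos (nat_lit 0) (nat_lit 0)) T0.l2
  (TrL.c (I.mix (nat_lit 41527258) (nat_lit 41530880)) (xR (xR T5.l4 T5.l4) T5.l4)
  (TrL.c (I.mix (nat_lit 41527258) (nat_lit 4274)) (xR T0.l3 T0.l3)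
  TrL.n)))))))) (by decide +kernel)
theorem bx2_19 : BoxOK sI cl6 cl4 cl13 t0 t5 b2_19 :=
  box_mk (TrL.c (I.pos (nat_lit 0) (nat_lit 0)) T0.l0
  (TrL.c (I.pos (nat_lit 0) (nat_lit 0)) T5.l1
  (TrL.c (I.pos (nat_lit 0) (nat_lit 89480386)) (xR (xR T0.l1 T0.l1) (xR T0.l1 T0.l1))
  (TrL.c (I.pos (nat_lit 0) (nat_lit 41530880)) (xR T5.l2 T5.l2)
  (TrL.c (I.pos (nat_lit 0) (nat_lit 0)) T5.l3
  (TrL.c (I.pos (nat_lit 0) (nat_lit 0)) T0.l2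
  (TrL.c (I.mix (nat_lit 41527258) (nat_lit 41530880)) (xR (xR T5.l4 T5.l4) T5.l9)
  (TrL.c (I.mix (nat_lit 41527258) (nat_lit 4274)) (xR T0.l3 T0.l3)
  TrL.n)))))))) (by decide +kernel)
theorem bx2_20 : BoxOK sI cl6 cl4 cl13 t0 t5 b2_20 :=
  box_mk (TrL.c (I.pos (nat_lit 0) (nat_lit 0)) (xb (xa T0.l0 T0.l0) (xa (xb T0.l0 (xa T0.l0 T0.l0)) (xb T0.l0 (xa T0.l0 T0.l0))))
  (TrL.c (I.pos (nat_lit 0) (nat_lit 0)) T5.l1
  (TrL.c (I.pos (nat_lit 0) (nat_lit 89480386)) (xR (xR T0.l1 T0.l1) (xR T0.l1 T0.l1))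
  (TrL.c (I.pos (nat_lit 0) (nat_lit 41530880)) (xR T5.l2 T5.l2)
  (TrL.c (I.pos (nat_lit 0) (nat_lit 0)) T5.l3
  (TrL.c (I.pos (nat_lit 0) (nat_lit 0)) T0.l2
  (TrL.c (I.mix (nat_lit 41527258) (nat_lit 41530880)) (xR (xR T5.l4 T5.l4) T5.l4)
  (TrL.c (I.mix (nat_lit 41527258) (nat_lit 4274)) (xR T0.l3 T0.l3)
  TrL.n)))))))) (by decide +kernel)
theorem bx2_21 : BoxOK sI cl6 cl4 cl13 t0 t5 b2_21 :=
  box_mk (TrL.c (I.pos (nat_lit 0) (nat_lit 0)) (xb T0.l6 T0.l7)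
  (TrL.c (I.pos (nat_lit 0) (nat_lit 0)) T5.l1
  (TrL.c (I.pos (nat_lit 0) (nat_lit 89480386)) (xR T0.l10 T0.l1)
  (TrL.c (I.pos (nat_lit 0) (nat_lit 41530880)) T5.l4
  (TrL.c (I.pos (nat_lit 0) (nat_lit 0)) T5.l7
  (TrL.c (I.pos (nat_lit 0) (nat_lit 0)) T0.l2
  (TrL.c (I.mix (nat_lit 41527258) (nat_lit 41530880)) T5.l4
  (TrL.c (I.mix (nat_lit 41527258) (nat_lit 4274)) T0.l3
  TrL.n)))))))) (by decide +kernel)
theorem bx2_22 : BoxOK sI cl6 cl4 cl13 t0 t5 b2_22 :=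
  box_mk (TrL.c (I.pos (nat_lit 0) (nat_lit 0)) (xb T0.l6 T0.l6)
  (TrL.c (I.pos (nat_lit 0) (nat_lit 0)) T5.l5
  (TrL.c (I.pos (nat_lit 0) (nat_lit 89480386)) (xR T0.l1 (xR T0.l1 T0.l1))
  (TrL.c (I.pos (nat_lit 0) (nat_lit 41530880)) T5.l4
  (TrL.c (I.pos (nat_lit 0) (nat_lit 0)) T5.l5
  (TrL.c (I.pos (nat_lit 0) (nat_lit 0)) T0.l2
  (TrL.c (I.mix (nat_lit 41527258) (nat_lit 41530880)) (xR T5.l6 T5.l4)
  (TrL.c (I.mix (nat_lit 41527258) (nat_lit 4274)) T0.l3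
  TrL.n)))))))) (by decide +kernel)
theorem sv2 : StarV sI cl6 cl4 cl13 t0 t5 t2 :=
  (bt_n (bt_n (bt_n (bt_n (bt_b bx2_0) (bt_b bx2_1)) (bt_n (bt_b bx2_2) (bt_n (bt_b bx2_3) (bt_b bx2_4)))) (bt_n (bt_n (bt_b bx2_5) (bt_n (bt_b bx2_6) (bt_b bx2_7))) (bt_n (bt_b bx2_8) (bt_n (bt_b bx2_9) (bt_b bx2_10))))) (bt_n (bt_n (bt_n (bt_b bx2_11) (bt_n (bt_b bx2_12) (bt_b bx2_13))) (bt_n (bt_b bx2_14) (bt_n (bt_b bx2_15) (bt_b bx2_16)))) (bt_n (bt_n (bt_b bx2_17) (bt_n (bt_b bx2_18) (bt_b bx2_19))) (bt_n (bt_b bx2_20) (bt_n (bt_b bx2_21) (bt_b bx2_22))))))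
def S2 : StarD := StarD.mk cl6 cl4 cl13 0 5 t2
theorem bx3_0 : BoxOK sI cl6 cl13 cl4 t5 t0 b3_0 :=
  box_mk (TrL.c (I.pos (nat_lit 0) (nat_lit 0)) (xa (xb (xa (xb T5.l0 (xa T5.l0 T5.l0)) T5.l15) (xa (xb (xa (xc T5.l0 T5.l0) T5.l0) (xa (xs T5.l0 T5.l0) (xs T5.l0 T5.l0))) (xb T5.l15 (xa T5.l15 T5.l0)))) (xb (xa (xb T5.l0 T5.l0) (xb (xa T5.l0 T5.l0) (xa T5.l0 T5.l0))) (xa (xb T5.l0 (xs (xa T5.l0 T5.l0) (xa T5.l0 T5.l0))) (xs (xb T5.l0 T5.l0) (xb (xa T5.l0 T5.l0) (xa T5.l0 T5.l0))))))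
  (TrL.c (I.pos (nat_lit 0) (nat_lit 0)) (xa T0.l9 (xb T0.l9 T0.l9))
  (TrL.c (I.pos (nat_lit 0) (nat_lit 89480386)) (xR (xR T5.l4 (xR T5.l9 T5.l9)) (xR T5.l9 (xR T5.l9 T5.l9)))
  (TrL.c (I.pos (nat_lit 0) (nat_lit 41530880)) (xR T0.l3 (xR T0.l10 T0.l10))
  (TrL.c (I.pos (nat_lit 0) (nat_lit 0)) (xa T0.l11 T0.l11)
  (TrL.c (I.pos (nat_lit 0) (nat_lit 0)) T5.l10
  (TrL.c (I.mix (nat_lit 41527258) (nat_lit 41530880)) (xR (xR (xR T0.l12 T0.l12) T0.l12) T0.l1)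
  (TrL.c (I.mix (nat_lit 41527258) (nat_lit 4274)) (xR (xR T5.l11 T5.l11) T5.l2)
  TrL.n)))))))) (by decide +kernel)
theorem bx3_1 : BoxOK sI cl6 cl13 cl4 t5 t0 b3_1 :=
  box_mk (TrL.c (I.pos (nat_lit 0) (nat_lit 0)) (xa (xb (xa (xb T5.l13 T5.l13) T5.l13) (xa (xb T5.l13 T5.l13) T5.l13)) (xb (xa (xb T5.l13 T5.l13) T5.l0) (xa T5.l13 T5.l0)))
  (TrL.c (I.pos (nat_lit 0) (nat_lit 0)) (xa T0.l9 T0.l9)
  (TrL.c (I.pos (nat_lit 0) (nat_lit 89480386)) (xR (xR T5.l4 (xR T5.l9 T5.l9)) (xR T5.l9 T5.l9))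
  (TrL.c (I.pos (nat_lit 0) (nat_lit 41530880)) (xR T0.l10 T0.l10)
  (TrL.c (I.pos (nat_lit 0) (nat_lit 0)) (xa T0.l13 (xb T0.l13 T0.l13))
  (TrL.c (I.pos (nat_lit 0) (nat_lit 0)) T5.l10
  (TrL.c (I.mix (nat_lit 41527258) (nat_lit 41530880)) (xR (xR T0.l12 T0.l12) T0.l12)
  (TrL.c (I.mix (nat_lit 41527258) (nat_lit 4274)) (xR T5.l11 T5.l11)
  TrL.n)))))))) (by decide +kernel)
theorem bx3_2 : BoxOK sI cl6 cl13 cl4 t5 t0 b3_2 :=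
  box_mk (TrL.c (I.pos (nat_lit 0) (nat_lit 0)) (xa (xa (xb T5.l14 T5.l14) T5.l16) (xa T5.l16 T5.l16))
  (TrL.c (I.pos (nat_lit 0) (nat_lit 0)) (xa T0.l9 T0.l9)
  (TrL.c (I.pos (nat_lit 0) (nat_lit 89480386)) (xR T5.l9 (xR T5.l9 T5.l9))
  (TrL.c (I.pos (nat_lit 0) (nat_lit 41530880)) (xR (xa T0.l10 T0.l10) T0.l10)
  (TrL.c (I.pos (nat_lit 0) (nat_lit 0)) (xa (xa T0.l14 T0.l14) T0.l16)
  (TrL.c (I.pos (nat_lit 0) (nat_lit 0)) T5.l10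
  (TrL.c (I.mix (nat_lit 41527258) (nat_lit 41530880)) (xR T0.l12 (xR T0.l12 (xa T0.l12 T0.l12)))
  (TrL.c (I.mix (nat_lit 41527258) (nat_lit 4274)) (xR (xa T5.l4 T5.l11) T5.l2)
  TrL.n)))))))) (by decide +kernel)
theorem bx3_3 : BoxOK sI cl6 cl13 cl4 t5 t0 b3_3 :=
  box_mk (TrL.c (I.pos (nat_lit 0) (nat_lit 0)) (xb (xa (xb (xa (xb (xs T5.l15 T5.l15) T5.l15) (xs T5.l15 (xb (xa T5.l15 T5.l15) T5.l15))) (xa (xb T5.l15 T5.l15) (xb T5.l15 T5.l15))) (xb (xa (xs T5.l15 (xb (xa T5.l15 T5.l15) T5.l15)) (xs T5.l15 (xb (xa T5.l15 T5.l15) T5.l15))) (xa (xs T5.l15 T5.l15) (xs T5.l15 T5.l15)))) (xa (xb (xa (xs T5.l15 T5.l15) (xs T5.l15 T5.l15)) (xa (xs T5.l15 (xb T5.l15 T5.l15)) (xs T5.l15 (xb T5.l15 T5.l15)))) (xb (xa (xs T5.l15 T5.l15) (xs T5.l15 (xb T5.l15 T5.l15))) (xa (xs T5.l15 (xb T5.l15 T5.l15)) (xs T5.l15 (xb T5.l15 T5.l15))))))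
  (TrL.c (I.pos (nat_lit 0) (nat_lit 0)) (xb (xa T0.l9 T0.l9) (xa (xb T0.l9 T0.l9) T0.l9))
  (TrL.c (I.pos (nat_lit 0) (nat_lit 89480386)) (xR (xR (xR T5.l4 T5.l9) (xR T5.l9 T5.l9)) (xR T5.l9 (xR T5.l9 (xb T5.l9 T5.l9))))
  (TrL.c (I.pos (nat_lit 0) (nat_lit 41530880)) (xR (xR T0.l10 T0.l10) (xR T0.l10 T0.l10))
  (TrL.c (I.pos (nat_lit 0) (nat_lit 0)) (xb (xa T0.l15 T0.l15) (xa T0.l15 T0.l15))
  (TrL.c (I.pos (nat_lit 0) (nat_lit 0)) (xb T5.l10 T5.l10)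
  (TrL.c (I.mix (nat_lit 41527258) (nat_lit 41530880)) (xR (xR (xR T0.l12 T0.l12) T0.l12) (xR T0.l12 (xR T0.l12 T0.l12)))
  (TrL.c (I.mix (nat_lit 41527258) (nat_lit 4274)) (xR (xR T5.l11 T5.l11) T5.l11)
  TrL.n)))))))) (by decide +kernel)
theorem bx3_4 : BoxOK sI cl6 cl13 cl4 t5 t0 b3_4 :=
  box_mk (TrL.c (I.pos (nat_lit 0) (nat_lit 0)) (xa (xa (xb (xa T5.l16 T5.l16) (xa (xb T5.l16 T5.l16) T5.l16)) (xb T5.l16 T5.l16)) (xa (xb (xa T5.l16 T5.l16) (xa T5.l16 T5.l16)) (xb (xa T5.l16 T5.l16) (xa T5.l16 (xb T5.l16 T5.l16)))))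
  (TrL.c (I.pos (nat_lit 0) (nat_lit 0)) (xa T0.l9 (xa T0.l9 T0.l9))
  (TrL.c (I.pos (nat_lit 0) (nat_lit 89480386)) (xR (xR T5.l9 T5.l9) (xa (xR T5.l9 T5.l9) T5.l9))
  (TrL.c (I.pos (nat_lit 0) (nat_lit 41530880)) (xR (xa T0.l10 T0.l10) (xa T0.l10 T0.l10))
  (TrL.c (I.pos (nat_lit 0) (nat_lit 0)) (xa (xa T0.l16 T0.l16) (xa T0.l16 T0.l16))
  (TrL.c (I.pos (nat_lit 0) (nat_lit 0)) T5.l10
  (TrL.c (I.mix (nat_lit 41527258) (nat_lit 41530880)) (xR (xR T0.l12 T0.l12) T0.l12)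
  (TrL.c (I.mix (nat_lit 41527258) (nat_lit 4274)) (xa T5.l11 T5.l11)
  TrL.n)))))))) (by decide +kernel)
theorem bx3_5 : BoxOK sI cl6 cl13 cl4 t5 t0 b3_5 :=
  box_mk (TrL.c (I.pos (nat_lit 0) (nat_lit 0)) (xa (xb (xa T5.l15 T5.l15) T5.l15) (xb (xa T5.l15 T5.l0) (xa T5.l15 T5.l15)))
  (TrL.c (I.pos (nat_lit 0) (nat_lit 0)) (xb T0.l9 T0.l9)
  (TrL.c (I.pos (nat_lit 0) (nat_lit 89480386)) (xR (xR T5.l4 (xR T5.l9 T5.l9)) (xR T5.l9 T5.l9))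
  (TrL.c (I.pos (nat_lit 0) (nat_lit 41530880)) (xR T0.l3 T0.l10)
  (TrL.c (I.pos (nat_lit 0) (nat_lit 0)) (xa T0.l15 T0.l15)
  (TrL.c (I.pos (nat_lit 0) (nat_lit 0)) T5.l10
  (TrL.c (I.mix (nat_lit 41527258) (nat_lit 41530880)) (xR (xR T0.l12 T0.l12) T0.l1)
  (TrL.c (I.mix (nat_lit 41527258) (nat_lit 4274)) (xR T5.l11 T5.l2)
  TrL.n)))))))) (by decide +kernel)
theorem bx3_6 : BoxOK sI cl6 cl13 cl4 t5 t0 b3_6 :=
  box_mk (TrL.c (I.pos (nat_lit 0) (nat_lit 0)) (xa (xb (xa (xb T5.l15 T5.l15) (xb T5.l15 T5.l15)) (xa T5.l15 T5.l15)) (xb (xa (xb T5.l15 T5.l15) (xb T5.l15 T5.l15)) (xa T5.l15 (xb T5.l15 T5.l15))))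
  (TrL.c (I.pos (nat_lit 0) (nat_lit 0)) (xa T0.l9 T0.l9)
  (TrL.c (I.pos (nat_lit 0) (nat_lit 89480386)) (xR (xR T5.l4 (xR T5.l9 T5.l9)) (xR T5.l9 T5.l9))
  (TrL.c (I.pos (nat_lit 0) (nat_lit 41530880)) (xR T0.l10 T0.l10)
  (TrL.c (I.pos (nat_lit 0) (nat_lit 0)) (xa T0.l15 (xb T0.l15 T0.l15))
  (TrL.c (I.pos (nat_lit 0) (nat_lit 0)) T5.l10
  (TrL.c (I.mix (nat_lit 41527258) (nat_lit 41530880)) (xR (xR T0.l12 T0.l12) T0.l1)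
  (TrL.c (I.mix (nat_lit 41527258) (nat_lit 4274)) (xR T5.l11 T5.l11)
  TrL.n)))))))) (by decide +kernel)
theorem bx3_7 : BoxOK sI cl6 cl13 cl4 t5 t0 b3_7 :=
  box_mk (TrL.c (I.pos (nat_lit 0) (nat_lit 0)) (xa (xa (xa T5.l19 T5.l20) T5.l14) T5.l16)
  (TrL.c (I.pos (nat_lit 0) (nat_lit 0)) (xa T0.l9 T0.l9)
  (TrL.c (I.pos (nat_lit 0) (nat_lit 89480386)) (xR T5.l9 (xR T5.l9 T5.l9))
  (TrL.c (I.pos (nat_lit 0) (nat_lit 41530880)) (xR (xa T0.l10 T0.l10) T0.l10)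
  (TrL.c (I.pos (nat_lit 0) (nat_lit 0)) (xa T0.l16 T0.l16)
  (TrL.c (I.pos (nat_lit 0) (nat_lit 0)) T5.l10
  (TrL.c (I.mix (nat_lit 41527258) (nat_lit 41530880)) (xR T0.l12 T0.l12)
  (TrL.c (I.mix (nat_lit 41527258) (nat_lit 4274)) (xR (xa T5.l4 T5.l11) T5.l2)
  TrL.n)))))))) (by decide +kernel)
theorem bx3_8 : BoxOK sI cl6 cl13 cl4 t5 t0 b3_8 :=
  box_mk (TrL.c (I.pos (nat_lit 0) (nat_lit 0)) (xa (xb T5.l13 T5.l18) (xb T5.l0 T5.l0))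
  (TrL.c (I.pos (nat_lit 0) (nat_lit 0)) T0.l9
  (TrL.c (I.pos (nat_lit 0) (nat_lit 89480386)) (xR (xR T5.l4 T5.l9) (xR T5.l9 T5.l9))
  (TrL.c (I.pos (nat_lit 0) (nat_lit 41530880)) (xR T0.l10 T0.l10)
  (TrL.c (I.pos (nat_lit 0) (nat_lit 0)) (xb T0.l20 T0.l20)
  (TrL.c (I.pos (nat_lit 0) (nat_lit 0)) T5.l10
  (TrL.c (I.mix (nat_lit 41527258) (nat_lit 41530880)) (xR (xR T0.l12 T0.l12) T0.l12)
  (TrL.c (I.mix (nat_lit 41527258) (nat_lit 4274)) (xR T5.l11 T5.l11)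
  TrL.n)))))))) (by decide +kernel)
theorem bx3_9 : BoxOK sI cl6 cl13 cl4 t5 t0 b3_9 :=
  box_mk (TrL.c (I.pos (nat_lit 0) (nat_lit 0)) (xa T5.l0 T5.l15)
  (TrL.c (I.pos (nat_lit 0) (nat_lit 0)) T0.l9
  (TrL.c (I.pos (nat_lit 0) (nat_lit 89480386)) (xR (xR T5.l4 T5.l9) (xR T5.l9 T5.l9))
  (TrL.c (I.pos (nat_lit 0) (nat_lit 41530880)) (xR T0.l10 T0.l10)
  (TrL.c (I.pos (nat_lit 0) (nat_lit 0)) T0.l15
  (TrL.c (I.pos (nat_lit 0) (nat_lit 0)) T5.l10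
  (TrL.c (I.mix (nat_lit 41527258) (nat_lit 41530880)) (xR (xR T0.l12 T0.l12) T0.l1)
  (TrL.c (I.mix (nat_lit 41527258) (nat_lit 4274)) (xR T5.l11 T5.l11)
  TrL.n)))))))) (by decide +kernel)
theorem bx3_10 : BoxOK sI cl6 cl13 cl4 t5 t0 b3_10 :=
  box_mk (TrL.c (I.pos (nat_lit 0) (nat_lit 0)) (xa (xa T5.l16 T5.l16) (xa T5.l16 (xb (xa T5.l17 T5.l17) (xa T5.l17 T5.l17))))
  (TrL.c (I.pos (nat_lit 0) (nat_lit 0)) (xa T0.l9 T0.l9)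
  (TrL.c (I.pos (nat_lit 0) (nat_lit 89480386)) (xR (xR T5.l4 T5.l9) T5.l9)
  (TrL.c (I.pos (nat_lit 0) (nat_lit 41530880)) T0.l10
  (TrL.c (I.pos (nat_lit 0) (nat_lit 0)) (xa T0.l17 T0.l17)
  (TrL.c (I.pos (nat_lit 0) (nat_lit 0)) T5.l10
  (TrL.c (I.mix (nat_lit 41527258) (nat_lit 41530880)) T0.l12
  (TrL.c (I.mix (nat_lit 41527258) (nat_lit 4274)) T5.l11
  TrL.n)))))))) (by decide +kernel)
theorem bx3_11 : BoxOK sI cl6 cl13 cl4 t5 t0 b3_11 :=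
  box_mk (TrL.c (I.pos (nat_lit 0) (nat_lit 0)) (xb (xa (xb (xa T5.l18 T5.l18) (xa T5.l18 T5.l18)) (xb T5.l13 T5.l18)) (xa (xb T5.l18 (xa T5.l18 T5.l18)) (xb T5.l18 (xa T5.l18 T5.l18))))
  (TrL.c (I.pos (nat_lit 0) (nat_lit 0)) T0.l9
  (TrL.c (I.pos (nat_lit 0) (nat_lit 89480386)) (xR (xR T5.l4 T5.l9) (xR T5.l9 T5.l9))
  (TrL.c (I.pos (nat_lit 0) (nat_lit 41530880)) (xR T0.l10 T0.l10)
  (TrL.c (I.pos (nat_lit 0) (nat_lit 0)) (xb (xa T0.l18 T0.l18) T0.l18)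
  (TrL.c (I.pos (nat_lit 0) (nat_lit 0)) T5.l10
  (TrL.c (I.mix (nat_lit 41527258) (nat_lit 41530880)) (xR (xR T0.l12 T0.l12) T0.l12)
  (TrL.c (I.mix (nat_lit 41527258) (nat_lit 4274)) (xR T5.l11 T5.l11)
  TrL.n)))))))) (by decide +kernel)
theorem bx3_12 : BoxOK sI cl6 cl13 cl4 t5 t0 b3_12 :=
  box_mk (TrL.c (I.pos (nat_lit 0) (nat_lit 0)) (xa (xa (xb T5.l19 T5.l19) T5.l14) T5.l16)
  (TrL.c (I.pos (nat_lit 0) (nat_lit 0)) (xa T0.l9 T0.l9)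
  (TrL.c (I.pos (nat_lit 0) (nat_lit 89480386)) (xR T5.l9 (xa (xR T5.l9 (xa T5.l9 T5.l9)) T5.l9))
  (TrL.c (I.pos (nat_lit 0) (nat_lit 41530880)) (xR (xa T0.l1 T0.l10) (xa T0.l10 T0.l10))
  (TrL.c (I.pos (nat_lit 0) (nat_lit 0)) (xa (xa T0.l19 T0.l19) T0.l16)
  (TrL.c (I.pos (nat_lit 0) (nat_lit 0)) T5.l10
  (TrL.c (I.mix (nat_lit 41527258) (nat_lit 41530880)) (xR T0.l12 (xR T0.l12 (xa T0.l12 T0.l12)))
  (TrL.c (I.mix (nat_lit 41527258) (nat_lit 4274)) (xa T5.l4 T5.l11)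
  TrL.n)))))))) (by decide +kernel)
theorem bx3_13 : BoxOK sI cl6 cl13 cl4 t5 t0 b3_13 :=
  box_mk (TrL.c (I.pos (nat_lit 0) (nat_lit 0)) (xa (xb T5.l0 T5.l0) (xa (xb T5.l0 T5.l0) (xb T5.l3 T5.l3)))
  (TrL.c (I.pos (nat_lit 0) (nat_lit 0)) T0.l9
  (TrL.c (I.pos (nat_lit 0) (nat_lit 89480386)) (xR (xR T5.l4 (xR T5.l9 T5.l9)) (xR T5.l9 T5.l9))
  (TrL.c (I.pos (nat_lit 0) (nat_lit 41530880)) (xR T0.l3 T0.l10)
  (TrL.c (I.pos (nat_lit 0) (nat_lit 0)) T0.l11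
  (TrL.c (I.pos (nat_lit 0) (nat_lit 0)) T5.l10
  (TrL.c (I.mix (nat_lit 41527258) (nat_lit 41530880)) (xR (xR T0.l12 T0.l12) T0.l1)
  (TrL.c (I.mix (nat_lit 41527258) (nat_lit 4274)) (xR T5.l11 T5.l2)
  TrL.n)))))))) (by decide +kernel)
theorem bx3_14 : BoxOK sI cl6 cl13 cl4 t5 t0 b3_14 :=
  box_mk (TrL.c (I.pos (nat_lit 0) (nat_lit 0)) (xa (xb (xa T5.l3 T5.l3) (xa (xb T5.l3 T5.l3) T5.l3)) (xb T5.l3 T5.l3))
  (TrL.c (I.pos (nat_lit 0) (nat_lit 0)) T0.l9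
  (TrL.c (I.pos (nat_lit 0) (nat_lit 89480386)) (xR (xR T5.l4 (xR T5.l9 T5.l9)) (xR (xR T5.l9 T5.l9) T5.l9))
  (TrL.c (I.pos (nat_lit 0) (nat_lit 41530880)) (xR T0.l3 (xR T0.l10 T0.l10))
  (TrL.c (I.pos (nat_lit 0) (nat_lit 0)) T0.l11
  (TrL.c (I.pos (nat_lit 0) (nat_lit 0)) T5.l10
  (TrL.c (I.mix (nat_lit 41527258) (nat_lit 41530880)) (xR (xR (xR T0.l12 T0.l12) T0.l12) T0.l1)
  (TrL.c (I.mix (nat_lit 41527258) (nat_lit 4274)) (xR (xR T5.l11 T5.l11) T5.l2)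
  TrL.n)))))))) (by decide +kernel)
theorem bx3_15 : BoxOK sI cl6 cl13 cl4 t5 t0 b3_15 :=
  box_mk (TrL.c (I.pos (nat_lit 0) (nat_lit 0)) (xa (xb (xa (xs T5.l0 T5.l0) (xs T5.l0 T5.l0)) (xa (xs T5.l15 (xb T5.l0 T5.l15)) (xs T5.l15 (xb T5.l0 (xs T5.l0 T5.l0))))) (xb (xa (xs T5.l0 (xb T5.l0 T5.l0)) (xs T5.l0 (xb T5.l0 T5.l0))) (xa (xs (xb T5.l0 T5.l0) (xb T5.l0 (xa T5.l0 T5.l0))) (xs (xb T5.l0 T5.l0) (xb T5.l0 (xa T5.l0 T5.l0))))))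
  (TrL.c (I.pos (nat_lit 0) (nat_lit 0)) (xa T0.l9 T0.l9)
  (TrL.c (I.pos (nat_lit 0) (nat_lit 89480386)) (xR (xR T5.l4 T5.l9) (xR T5.l9 (xR T5.l9 T5.l9)))
  (TrL.c (I.pos (nat_lit 0) (nat_lit 41530880)) (xR T0.l3 (xR T0.l10 T0.l10))
  (TrL.c (I.pos (nat_lit 0) (nat_lit 0)) (xa T0.l11 (xb T0.l11 T0.l11))
  (TrL.c (I.pos (nat_lit 0) (nat_lit 0)) T5.l10
  (TrL.c (I.mix (nat_lit 41527258) (nat_lit 41530880)) (xR (xR T0.l12 T0.l12) T0.l1)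
  (TrL.c (I.mix (nat_lit 41527258) (nat_lit 4274)) (xR (xR T5.l11 T5.l11) T5.l11)
  TrL.n)))))))) (by decide +kernel)
theorem bx3_16 : BoxOK sI cl6 cl13 cl4 t5 t0 b3_16 :=
  box_mk (TrL.c (I.pos (nat_lit 0) (nat_lit 0)) (xa (xb (xa (xb (xa T5.l0 T5.l3) (xa T5.l0 T5.l3)) T5.l3) (xa (xb (xs T5.l0 T5.l3) (xs (xa T5.l0 T5.l0) (xa T5.l0 T5.l3))) (xb T5.l3 T5.l3))) (xb (xa T5.l3 (xb T5.l3 T5.l3)) (xa (xb T5.l3 T5.l3) (xb (xs T5.l3 T5.l3) (xs T5.l3 T5.l3)))))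
  (TrL.c (I.pos (nat_lit 0) (nat_lit 0)) (xa (xb T0.l9 T0.l9) (xb T0.l9 T0.l2))
  (TrL.c (I.pos (nat_lit 0) (nat_lit 89480386)) (xR (xR (xR T5.l4 T5.l4) (xR T5.l9 T5.l9)) (xR (xR T5.l9 (xa T5.l9 T5.l9)) (xR (xa T5.l9 T5.l9) (xa T5.l9 T5.l9))))
  (TrL.c (I.pos (nat_lit 0) (nat_lit 41530880)) (xR T0.l3 (xR T0.l10 T0.l10))
  (TrL.c (I.pos (nat_lit 0) (nat_lit 0)) (xb (xa (xa T0.l11 T0.l11) (xa T0.l11 (xb T0.l11 T0.l11))) (xa T0.l11 (xa T0.l11 (xb T0.l11 T0.l11))))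
  (TrL.c (I.pos (nat_lit 0) (nat_lit 0)) (xa T5.l10 T5.l10)
  (TrL.c (I.mix (nat_lit 41527258) (nat_lit 41530880)) (xR (xR (xR T0.l12 T0.l12) T0.l12) (xR T0.l12 T0.l1))
  (TrL.c (I.mix (nat_lit 41527258) (nat_lit 4274)) (xR (xR T5.l11 T5.l11) (xR T5.l2 T5.l2))
  TrL.n)))))))) (by decide +kernel)
theorem bx3_17 : BoxOK sI cl6 cl13 cl4 t5 t0 b3_17 :=
  box_mk (TrL.c (I.pos (nat_lit 0) (nat_lit 0)) (xa (xb T5.l3 T5.l3) (xb T5.l3 T5.l3))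
  (TrL.c (I.pos (nat_lit 0) (nat_lit 0)) (xb T0.l9 T0.l9)
  (TrL.c (I.pos (nat_lit 0) (nat_lit 89480386)) (xR (xR T5.l4 (xR T5.l9 T5.l9)) (xR (xR T5.l9 T5.l9) T5.l9))
  (TrL.c (I.pos (nat_lit 0) (nat_lit 41530880)) (xR T0.l3 (xR T0.l10 T0.l10))
  (TrL.c (I.pos (nat_lit 0) (nat_lit 0)) (xb (xa T0.l11 T0.l11) T0.l11)
  (TrL.c (I.pos (nat_lit 0) (nat_lit 0)) T5.l1
  (TrL.c (I.mix (nat_lit 41527258) (nat_lit 41530880)) (xR (xR (xR T0.l12 T0.l12) T0.l12) T0.l1)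
  (TrL.c (I.mix (nat_lit 41527258) (nat_lit 4274)) (xR (xR T5.l11 T5.l11) T5.l2)
  TrL.n)))))))) (by decide +kernel)
theorem bx3_18 : BoxOK sI cl6 cl13 cl4 t5 t0 b3_18 :=
  box_mk (TrL.c (I.pos (nat_lit 0) (nat_lit 0)) (xa (xb (xa (xb (xs T5.l0 T5.l0) (xs T5.l0 T5.l0)) (xb T5.l3 T5.l3)) (xa (xb (xs T5.l0 T5.l0) (xs T5.l0 (xa T5.l0 T5.l0))) (xs T5.l3 T5.l3))) (xb (xa T5.l3 T5.l3) (xa T5.l3 (xs T5.l3 T5.l3))))
  (TrL.c (I.pos (nat_lit 0) (nat_lit 0)) (xa T0.l9 (xb T0.l9 T0.l9))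
  (TrL.c (I.pos (nat_lit 0) (nat_lit 89480386)) (xR (xR T5.l4 (xR T5.l9 T5.l9)) (xR (xR T5.l9 T5.l9) (xR T5.l9 (xa T5.l9 T5.l9))))
  (TrL.c (I.pos (nat_lit 0) (nat_lit 41530880)) (xR T0.l3 (xR T0.l10 T0.l10))
  (TrL.c (I.pos (nat_lit 0) (nat_lit 0)) (xa T0.l11 (xb T0.l11 T0.l11))
  (TrL.c (I.pos (nat_lit 0) (nat_lit 0)) T5.l10
  (TrL.c (I.mix (nat_lit 41527258) (nat_lit 41530880)) (xR (xR (xR T0.l12 T0.l12) T0.l12) (xR T0.l12 T0.l1))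
  (TrL.c (I.mix (nat_lit 41527258) (nat_lit 4274)) (xR (xR T5.l11 T5.l11) T5.l2)
  TrL.n)))))))) (by decide +kernel)
theorem bx3_19 : BoxOK sI cl6 cl13 cl4 t5 t0 b3_19 :=
  box_mk (TrL.c (I.pos (nat_lit 0) (nat_lit 0)) (xa (xb (xa T5.l0 T5.l0) (xa T5.l0 T5.l0)) (xb (xa (xs T5.l0 T5.l0) T5.l3) (xa (xs T5.l0 T5.l3) T5.l3)))
  (TrL.c (I.pos (nat_lit 0) (nat_lit 0)) T0.l9
  (TrL.c (I.pos (nat_lit 0) (nat_lit 89480386)) (xR (xR T5.l4 (xR T5.l9 T5.l9)) (xR T5.l9 T5.l9))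
  (TrL.c (I.pos (nat_lit 0) (nat_lit 41530880)) (xR T0.l3 T0.l10)
  (TrL.c (I.pos (nat_lit 0) (nat_lit 0)) T0.l11
  (TrL.c (I.pos (nat_lit 0) (nat_lit 0)) T5.l10
  (TrL.c (I.mix (nat_lit 41527258) (nat_lit 41530880)) (xR (xR T0.l12 T0.l12) T0.l1)
  (TrL.c (I.mix (nat_lit 41527258) (nat_lit 4274)) (xR T5.l11 T5.l2)
  TrL.n)))))))) (by decide +kernel)
theorem bx3_20 : BoxOK sI cl6 cl13 cl4 t5 t0 b3_20 :=
  box_mk (TrL.c (I.pos (nat_lit 0) (nat_lit 0)) (xa (xb T5.l3 T5.l3) (xb T5.l3 T5.l3))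
  (TrL.c (I.pos (nat_lit 0) (nat_lit 0)) T0.l9
  (TrL.c (I.pos (nat_lit 0) (nat_lit 89480386)) (xR (xR T5.l4 (xR T5.l9 T5.l9)) (xR (xR T5.l9 T5.l9) T5.l9))
  (TrL.c (I.pos (nat_lit 0) (nat_lit 41530880)) (xR T0.l3 (xR T0.l10 T0.l10))
  (TrL.c (I.pos (nat_lit 0) (nat_lit 0)) (xb (xa T0.l11 T0.l11) T0.l11)
  (TrL.c (I.pos (nat_lit 0) (nat_lit 0)) T5.l10
  (TrL.c (I.mix (nat_lit 41527258) (nat_lit 41530880)) (xR (xR (xR T0.l12 T0.l12) T0.l12) T0.l1)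
  (TrL.c (I.mix (nat_lit 41527258) (nat_lit 4274)) (xR (xR T5.l11 T5.l11) T5.l2)
  TrL.n)))))))) (by decide +kernel)
theorem bx3_21 : BoxOK sI cl6 cl13 cl4 t5 t0 b3_21 :=
  box_mk (TrL.c (I.pos (nat_lit 0) (nat_lit 0)) (xa T5.l0 (xa T5.l0 (xs T5.l0 T5.l0)))
  (TrL.c (I.pos (nat_lit 0) (nat_lit 0)) T0.l9
  (TrL.c (I.pos (nat_lit 0) (nat_lit 89480386)) (xR (xR T5.l4 T5.l9) (xR T5.l9 T5.l9))
  (TrL.c (I.pos (nat_lit 0) (nat_lit 41530880)) (xR T0.l3 T0.l10)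
  (TrL.c (I.pos (nat_lit 0) (nat_lit 0)) T0.l11
  (TrL.c (I.pos (nat_lit 0) (nat_lit 0)) T5.l10
  (TrL.c (I.mix (nat_lit 41527258) (nat_lit 41530880)) (xR (xR T0.l12 T0.l12) T0.l1)
  (TrL.c (I.mix (nat_lit 41527258) (nat_lit 4274)) (xR T5.l11 T5.l11)
  TrL.n)))))))) (by decide +kernel)
theorem sv3 : StarV sI cl6 cl13 cl4 t5 t0 t3 :=
  (bt_n (bt_n (bt_n (bt_n (bt_b bx3_0) (bt_b bx3_1)) (bt_n (bt_b bx3_2) (bt_n (bt_b bx3_3) (bt_b bx3_4)))) (bt_n (bt_n (bt_b bx3_5) (bt_n (bt_b bx3_6) (bt_b bx3_7))) (bt_n (bt_b bx3_8) (bt_n (bt_b bx3_9) (bt_b bx3_10))))) (bt_n (bt_n (bt_n (bt_b bx3_11) (bt_b bx3_12)) (bt_n (bt_b bx3_13) (bt_n (bt_b bx3_14) (bt_b bx3_15)))) (bt_n (bt_n (bt_b bx3_16) (bt_n (bt_b bx3_17) (bt_b bx3_18))) (bt_n (bt_b bx3_19) (bt_n (bt_b bx3_20) (bt_b bx3_21))))))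
def S3 : StarD := StarD.mk cl6 cl13 cl4 5 0 t3
theorem bx4_0 : BoxOK sI cl13 cl4 cl6 t1 t3 b4_0 :=
  box_mk (TrL.c (I.pos (nat_lit 0) (nat_lit 0)) (xa (xb (xa T1.l5 (xb T1.l0 T1.l0)) (xa (xb T1.l5 (xs (xa T1.l0 T1.l0) (xb T1.l0 T1.l0))) (xb T1.l0 (xs T1.l0 (xa T1.l0 T1.l0))))) (xb (xa T1.l0 T1.l0) (xa (xb T1.l0 (xs (xa T1.l0 T1.l0) (xa T1.l0 T1.l0))) (xb (xs T1.l0 T1.l0) (xs (xa T1.l0 T1.l0) (xa T1.l0 T1.l0))))))
  (TrL.c (I.pos (nat_lit 0) (nat_lit 0)) (xa (xb T3.l1 (xk T3.l1 T3.l1)) (xk (xb T3.l1 T3.l1) T3.l1))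
  (TrL.c (I.pos (nat_lit 0) (nat_lit 134217730)) (xR T1.l12 (xR T1.l1 (xR T1.l1 (xa T1.l1 (xR T1.l1 T1.l1)))))
  (TrL.c (I.pos (nat_lit 0) (nat_lit 110514882)) (xR T3.l4 (xR T3.l2 T3.l2))
  (TrL.c (I.pos (nat_lit 0) (nat_lit 0)) (xa (xb (xk T3.l3 T3.l3) (xb T3.l3 (xk T3.l3 T3.l3))) (xb (xk T3.l3 T3.l3) (xk (xb T3.l3 (xa T3.l3 (xs T3.l3 (xb T3.l3 T3.l3)))) (xb (xa T3.l3 T3.l3) (xa (xs T3.l3 T3.l3) (xs (xb T3.l3 T3.l3) (xb T3.l3 (xk T3.l3 T3.l3))))))))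
  (TrL.c (I.pos (nat_lit 0) (nat_lit 0)) (xk (xb T1.l2 T1.l2) (xb T1.l2 T1.l2))
  (TrL.c (I.mix (nat_lit 8088324) (nat_lit 110514882)) (xR (xR T3.l4 T3.l4) (xR T3.l4 (xR T3.l4 (xR T3.l4 T3.l4))))
  (TrL.c (I.mix (nat_lit 8088324) (nat_lit 89478486)) (xR T1.l12 (xR T1.l3 (xR T1.l3 (xk T1.l3 T1.l3))))
  TrL.n)))))))) (by decide +kernel)
theorem bx4_1 : BoxOK sI cl13 cl4 cl6 t1 t3 b4_1 :=
  box_mk (TrL.c (I.pos (nat_lit 0) (nat_lit 0)) (xa (xb (xb (xa (xa T1.l4 T1.l4) T1.l4) T1.l4) (xa (xb T1.l4 T1.l4) T1.l4)) (xb (xa T1.l4 T1.l4) (xa T1.l4 T1.l4)))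
  (TrL.c (I.pos (nat_lit 0) (nat_lit 0)) (xa T3.l1 T3.l1)
  (TrL.c (I.pos (nat_lit 0) (nat_lit 134217730)) (xR T1.l12 (xR T1.l1 (xR T1.l1 (xb T1.l12 T1.l1))))
  (TrL.c (I.pos (nat_lit 0) (nat_lit 110514882)) (xR T3.l4 (xR T3.l4 (xR T3.l2 T3.l2)))
  (TrL.c (I.pos (nat_lit 0) (nat_lit 0)) (xa (xb T3.l5 T3.l5) (xb (xk T3.l5 T3.l5) T3.l5))
  (TrL.c (I.pos (nat_lit 0) (nat_lit 0)) T1.l2
  (TrL.c (I.mix (nat_lit 8088324) (nat_lit 110514882)) (xR T3.l4 (xR T3.l4 (xR T3.l4 T3.l4)))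
  (TrL.c (I.mix (nat_lit 8088324) (nat_lit 89478486)) (xR T1.l3 T1.l12)
  TrL.n)))))))) (by decide +kernel)
theorem bx4_2 : BoxOK sI cl13 cl4 cl6 t1 t3 b4_2 :=
  box_mk (TrL.c (I.pos (nat_lit 0) (nat_lit 0)) (xb (xa (xb T1.l5 T1.l5) (xb (xa T1.l5 T1.l5) (xa T1.l5 T1.l5))) (xa (xb (xa T1.l5 T1.l5) (xa (xb T1.l5 (xs T1.l5 T1.l5)) (xb T1.l5 (xs T1.l5 T1.l5)))) (xb (xa T1.l5 (xb T1.l5 T1.l5)) (xa (xb T1.l5 (xs T1.l5 T1.l5)) (xb T1.l5 (xs T1.l5 T1.l5))))))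
  (TrL.c (I.pos (nat_lit 0) (nat_lit 0)) (xb (xa T3.l1 T3.l1) (xa (xk T3.l1 T3.l1) (xk T3.l1 T3.l1)))
  (TrL.c (I.pos (nat_lit 0) (nat_lit 134217730)) (xR T1.l12 (xR T1.l1 (xb (xR T1.l1 T1.l1) (xR T1.l1 T1.l1))))
  (TrL.c (I.pos (nat_lit 0) (nat_lit 110514882)) (xR T3.l4 (xR T3.l2 (xR T3.l2 T3.l2)))
  (TrL.c (I.pos (nat_lit 0) (nat_lit 0)) (xb (xa T3.l6 (xk (xb T3.l6 T3.l6) (xb T3.l6 T3.l3))) (xa (xk (xb T3.l3 T3.l3) (xb T3.l6 (xb T3.l3 T3.l3))) (xk (xb T3.l3 (xb (xa T3.l3 T3.l3) (xs (xa T3.l3 T3.l3) (xa T3.l3 (xk T3.l3 T3.l3))))) (xb (xb T3.l3 T3.l3) (xb (xa T3.l3 (xs T3.l3 T3.l3)) (xa (xs T3.l3 T3.l3) (xs T3.l3 (xk T3.l3 (xb T3.l3 T3.l3)))))))))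
  (TrL.c (I.pos (nat_lit 0) (nat_lit 0)) (xb T1.l2 T1.l2)
  (TrL.c (I.mix (nat_lit 8088324) (nat_lit 110514882)) (xR (xR T3.l4 T3.l4) (xR T3.l4 (xR T3.l4 (xb T3.l4 T3.l4))))
  (TrL.c (I.mix (nat_lit 8088324) (nat_lit 89478486)) (xR T1.l12 (xR T1.l3 (xb T1.l10 T1.l3)))
  TrL.n)))))))) (by decide +kernel)
theorem bx4_3 : BoxOK sI cl13 cl4 cl6 t1 t3 b4_3 :=
  box_mk (TrL.c (I.pos (nat_lit 0) (nat_lit 0)) (xb (xa T3.l8 T3.l8) (xa T3.l1 T3.l8))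
  (TrL.c (I.pos (nat_lit 0) (nat_lit 0)) T1.l7
  (TrL.c (I.mix (nat_lit 8088324) (nat_lit 110514882)) (xR T3.l12 (xR T3.l4 (xR T3.l7 T3.l7)))
  (TrL.c (I.mix (nat_lit 8088324) (nat_lit 89478486)) (xR (xR T1.l6 T1.l1) T1.l1)
  TrL.n)))) (by decide +kernel)
theorem bx4_4 : BoxOK sI cl13 cl4 cl6 t1 t3 b4_4 :=
  box_mk (TrL.c (I.pos (nat_lit 0) (nat_lit 0)) (xb T3.l8 T3.l8)
  (TrL.c (I.pos (nat_lit 0) (nat_lit 0)) T1.l7
  (TrL.c (I.mix (nat_lit 8088324) (nat_lit 110514882)) (xR T3.l12 T3.l4)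
  (TrL.c (I.mix (nat_lit 8088324) (nat_lit 89478486)) (xR (xR T1.l6 T1.l1) T1.l1)
  TrL.n)))) (by decide +kernel)
theorem bx4_5 : BoxOK sI cl13 cl4 cl6 t1 t3 b4_5 :=
  box_mk (TrL.c (I.pos (nat_lit 0) (nat_lit 0)) (xb (xa T1.l8 T1.l8) T1.l4)
  (TrL.c (I.pos (nat_lit 0) (nat_lit 0)) T3.l8
  (TrL.c (I.pos (nat_lit 0) (nat_lit 134217730)) (xR T1.l3 (xR T1.l1 T1.l1))
  (TrL.c (I.pos (nat_lit 0) (nat_lit 110514882)) (xR T3.l4 T3.l4)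
  (TrL.c (I.pos (nat_lit 0) (nat_lit 0)) (xb T3.l9 T3.l9)
  (TrL.c (I.pos (nat_lit 0) (nat_lit 0)) T1.l2
  (TrL.c (I.mix (nat_lit 8088324) (nat_lit 110514882)) T3.l4
  (TrL.c (I.mix (nat_lit 8088324) (nat_lit 89478486)) T1.l12
  TrL.n)))))))) (by decide +kernel)
theorem bx4_6 : BoxOK sI cl13 cl4 cl6 t1 t3 b4_6 :=
  box_mk (TrL.c (I.pos (nat_lit 0) (nat_lit 0)) (xa (xb T1.l0 T1.l0) (xb T1.l0 (xa T1.l0 T1.l0)))
  (TrL.c (I.pos (nat_lit 0) (nat_lit 0)) (xa T3.l1 (xk (xb T3.l1 T3.l1) T3.l1))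
  (TrL.c (I.pos (nat_lit 0) (nat_lit 134217730)) (xR (xR T1.l12 T1.l1) (xR T1.l1 T1.l12))
  (TrL.c (I.pos (nat_lit 0) (nat_lit 110514882)) (xR T3.l7 (xR T3.l2 T3.l2))
  (TrL.c (I.pos (nat_lit 0) (nat_lit 0)) (xa (xb (xk T3.l3 T3.l3) T3.l3) (xk (xb T3.l3 (xa T3.l3 T3.l3)) (xb T3.l3 T3.l3)))
  (TrL.c (I.pos (nat_lit 0) (nat_lit 0)) (xk T1.l2 T1.l2)
  (TrL.c (I.mix (nat_lit 8088324) (nat_lit 110514882)) (xR (xR T3.l4 T3.l4) (xR T3.l4 (xR T3.l4 (xR T3.l4 (xk T3.l4 T3.l4)))))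
  (TrL.c (I.mix (nat_lit 8088324) (nat_lit 89478486)) (xR T1.l3 (xR T1.l3 T1.l3))
  TrL.n)))))))) (by decide +kernel)
theorem bx4_7 : BoxOK sI cl13 cl4 cl6 t1 t3 b4_7 :=
  box_mk (TrL.c (I.pos (nat_lit 0) (nat_lit 0)) T1.l8
  (TrL.c (I.pos (nat_lit 0) (nat_lit 0)) T3.l8
  (TrL.c (I.pos (nat_lit 0) (nat_lit 134217730)) (xR T1.l1 (xR T1.l1 T1.l1))
  (TrL.c (I.pos (nat_lit 0) (nat_lit 110514882)) T3.l4
  (TrL.c (I.pos (nat_lit 0) (nat_lit 0)) T3.l9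
  (TrL.c (I.pos (nat_lit 0) (nat_lit 0)) T1.l2
  (TrL.c (I.mix (nat_lit 8088324) (nat_lit 110514882)) (xR T3.l4 T3.l4)
  (TrL.c (I.mix (nat_lit 8088324) (nat_lit 89478486)) (xR T1.l6 T1.l3)
  TrL.n)))))))) (by decide +kernel)
theorem bx4_8 : BoxOK sI cl13 cl4 cl6 t1 t3 b4_8 :=
  box_mk (TrL.c (I.pos (nat_lit 0) (nat_lit 0)) T1.l0
  (TrL.c (I.pos (nat_lit 0) (nat_lit 0)) T3.l1
  (TrL.c (I.pos (nat_lit 0) (nat_lit 134217730)) (xR T1.l12 T1.l1)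
  (TrL.c (I.pos (nat_lit 0) (nat_lit 110514882)) (xR T3.l4 T3.l2)
  (TrL.c (I.pos (nat_lit 0) (nat_lit 0)) T3.l3
  (TrL.c (I.pos (nat_lit 0) (nat_lit 0)) T1.l2
  (TrL.c (I.mix (nat_lit 8088324) (nat_lit 110514882)) (xR (xR T3.l4 T3.l4) T3.l4)
  (TrL.c (I.mix (nat_lit 8088324) (nat_lit 89478486)) (xR T1.l3 T1.l3)
  TrL.n)))))))) (by decide +kernel)
theorem bx4_9 : BoxOK sI cl13 cl4 cl6 t1 t3 b4_9 :=
  box_mk (TrL.c (I.pos (nat_lit 0) (nat_lit 0)) T1.l8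
  (TrL.c (I.pos (nat_lit 0) (nat_lit 0)) T3.l1
  (TrL.c (I.pos (nat_lit 0) (nat_lit 134217730)) (xR T1.l1 T1.l1)
  (TrL.c (I.pos (nat_lit 0) (nat_lit 110514882)) T3.l4
  (TrL.c (I.pos (nat_lit 0) (nat_lit 0)) T3.l9
  (TrL.c (I.pos (nat_lit 0) (nat_lit 0)) T1.l2
  (TrL.c (I.mix (nat_lit 8088324) (nat_lit 110514882)) (xR T3.l4 T3.l4)
  (TrL.c (I.mix (nat_lit 8088324) (nat_lit 89478486)) T1.l12
  TrL.n)))))))) (by decide +kernel)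
theorem bx4_10 : BoxOK sI cl13 cl4 cl6 t1 t3 b4_10 :=
  box_mk (TrL.c (I.pos (nat_lit 0) (nat_lit 0)) T1.l0
  (TrL.c (I.pos (nat_lit 0) (nat_lit 0)) T3.l11
  (TrL.c (I.pos (nat_lit 0) (nat_lit 134217730)) (xR (xR T1.l12 T1.l1) T1.l1)
  (TrL.c (I.pos (nat_lit 0) (nat_lit 110514882)) (xR T3.l7 T3.l2)
  (TrL.c (I.pos (nat_lit 0) (nat_lit 0)) (xk (xb T3.l3 T3.l3) T3.l3)
  (TrL.c (I.pos (nat_lit 0) (nat_lit 0)) T1.l2
  (TrL.c (I.mix (nat_lit 8088324) (nat_lit 110514882)) (xR (xR T3.l4 T3.l4) (xR T3.l4 (xR T3.l4 T3.l4)))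
  (TrL.c (I.mix (nat_lit 8088324) (nat_lit 89478486)) (xR T1.l3 T1.l10)
  TrL.n)))))))) (by decide +kernel)
theorem bx4_11 : BoxOK sI cl13 cl4 cl6 t1 t3 b4_11 :=
  box_mk (TrL.c (I.pos (nat_lit 0) (nat_lit 0)) T1.l8
  (TrL.c (I.pos (nat_lit 0) (nat_lit 0)) T3.l8
  (TrL.c (I.pos (nat_lit 0) (nat_lit 134217730)) (xR T1.l1 (xR T1.l1 T1.l1))
  (TrL.c (I.pos (nat_lit 0) (nat_lit 110514882)) T3.l4
  (TrL.c (I.pos (nat_lit 0) (nat_lit 0)) T3.l9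
  (TrL.c (I.pos (nat_lit 0) (nat_lit 0)) T1.l2
  (TrL.c (I.mix (nat_lit 8088324) (nat_lit 110514882)) (xR T3.l4 T3.l4)
  (TrL.c (I.mix (nat_lit 8088324) (nat_lit 89478486)) (xR T1.l6 T1.l3)
  TrL.n)))))))) (by decide +kernel)
theorem bx4_12 : BoxOK sI cl13 cl4 cl6 t1 t3 b4_12 :=
  box_mk (TrL.c (I.pos (nat_lit 0) (nat_lit 0)) T1.l0
  (TrL.c (I.pos (nat_lit 0) (nat_lit 0)) T3.l1
  (TrL.c (I.pos (nat_lit 0) (nat_lit 134217730)) (xR T1.l12 T1.l1)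
  (TrL.c (I.pos (nat_lit 0) (nat_lit 110514882)) (xR T3.l7 T3.l2)
  (TrL.c (I.pos (nat_lit 0) (nat_lit 0)) (xk T3.l3 T3.l3)
  (TrL.c (I.pos (nat_lit 0) (nat_lit 0)) T1.l2
  (TrL.c (I.mix (nat_lit 8088324) (nat_lit 110514882)) (xR (xR T3.l4 T3.l4) (xR T3.l4 T3.l4))
  (TrL.c (I.mix (nat_lit 8088324) (nat_lit 89478486)) (xR T1.l3 T1.l10)
  TrL.n)))))))) (by decide +kernel)
theorem bx4_13 : BoxOK sI cl13 cl4 cl6 t1 t3 b4_13 :=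
  box_mk (TrL.c (I.pos (nat_lit 0) (nat_lit 0)) T1.l8
  (TrL.c (I.pos (nat_lit 0) (nat_lit 0)) T3.l8
  (TrL.c (I.pos (nat_lit 0) (nat_lit 134217730)) (xR T1.l1 (xR T1.l1 T1.l1))
  (TrL.c (I.pos (nat_lit 0) (nat_lit 110514882)) T3.l4
  (TrL.c (I.pos (nat_lit 0) (nat_lit 0)) T3.l9
  (TrL.c (I.pos (nat_lit 0) (nat_lit 0)) T1.l2
  (TrL.c (I.mix (nat_lit 8088324) (nat_lit 110514882)) (xR T3.l4 T3.l4)
  (TrL.c (I.mix (nat_lit 8088324) (nat_lit 89478486)) T1.l6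
  TrL.n)))))))) (by decide +kernel)
theorem bx4_14 : BoxOK sI cl13 cl4 cl6 t1 t3 b4_14 :=
  box_mk (TrL.c (I.pos (nat_lit 0) (nat_lit 0)) T1.l0
  (TrL.c (I.pos (nat_lit 0) (nat_lit 0)) T3.l1
  (TrL.c (I.pos (nat_lit 0) (nat_lit 134217730)) (xR T1.l12 T1.l1)
  (TrL.c (I.pos (nat_lit 0) (nat_lit 110514882)) (xR T3.l4 T3.l2)
  (TrL.c (I.pos (nat_lit 0) (nat_lit 0)) T3.l3
  (TrL.c (I.pos (nat_lit 0) (nat_lit 0)) T1.l2
  (TrL.c (I.mix (nat_lit 8088324) (nat_lit 110514882)) (xR (xR T3.l4 T3.l4) T3.l4)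
  (TrL.c (I.mix (nat_lit 8088324) (nat_lit 89478486)) (xR T1.l3 T1.l3)
  TrL.n)))))))) (by decide +kernel)
theorem bx4_15 : BoxOK sI cl13 cl4 cl6 t1 t3 b4_15 :=
  box_mk (TrL.c (I.pos (nat_lit 0) (nat_lit 0)) T1.l4
  (TrL.c (I.pos (nat_lit 0) (nat_lit 0)) T3.l1
  (TrL.c (I.pos (nat_lit 0) (nat_lit 134217730)) (xR T1.l3 T1.l1)
  (TrL.c (I.pos (nat_lit 0) (nat_lit 110514882)) T3.l4
  (TrL.c (I.pos (nat_lit 0) (nat_lit 0)) T3.l5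
  (TrL.c (I.pos (nat_lit 0) (nat_lit 0)) T1.l2
  (TrL.c (I.mix (nat_lit 8088324) (nat_lit 110514882)) (xR T3.l4 T3.l4)
  (TrL.c (I.mix (nat_lit 8088324) (nat_lit 89478486)) T1.l12
  TrL.n)))))))) (by decide +kernel)
theorem bx4_16 : BoxOK sI cl13 cl4 cl6 t1 t3 b4_16 :=
  box_mk (TrL.c (I.pos (nat_lit 0) (nat_lit 0)) T1.l0
  (TrL.c (I.pos (nat_lit 0) (nat_lit 0)) (xk T3.l1 T3.l1)
  (TrL.c (I.pos (nat_lit 0) (nat_lit 134217730)) (xR T1.l12 (xR T1.l1 T1.l1))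
  (TrL.c (I.pos (nat_lit 0) (nat_lit 110514882)) (xR T3.l7 T3.l2)
  (TrL.c (I.pos (nat_lit 0) (nat_lit 0)) (xk T3.l3 (xa T3.l3 T3.l3))
  (TrL.c (I.pos (nat_lit 0) (nat_lit 0)) T1.l2
  (TrL.c (I.mix (nat_lit 8088324) (nat_lit 110514882)) (xR (xR T3.l4 T3.l4) (xR T3.l4 (xR T3.l4 T3.l4)))
  (TrL.c (I.mix (nat_lit 8088324) (nat_lit 89478486)) (xR T1.l3 T1.l3)
  TrL.n)))))))) (by decide +kernel)
theorem bx4_17 : BoxOK sI cl13 cl4 cl6 t1 t3 b4_17 :=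
  box_mk (TrL.c (I.pos (nat_lit 0) (nat_lit 0)) T1.l8
  (TrL.c (I.pos (nat_lit 0) (nat_lit 0)) T3.l8
  (TrL.c (I.pos (nat_lit 0) (nat_lit 134217730)) (xR T1.l1 (xR T1.l1 T1.l1))
  (TrL.c (I.pos (nat_lit 0) (nat_lit 110514882)) T3.l4
  (TrL.c (I.pos (nat_lit 0) (nat_lit 0)) T3.l9
  (TrL.c (I.pos (nat_lit 0) (nat_lit 0)) T1.l2
  (TrL.c (I.mix (nat_lit 8088324) (nat_lit 110514882)) (xR T3.l4 T3.l4)
  (TrL.c (I.mix (nat_lit 8088324) (nat_lit 89478486)) T1.l12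
  TrL.n)))))))) (by decide +kernel)
theorem bx4_18 : BoxOK sI cl13 cl4 cl6 t1 t3 b4_18 :=
  box_mk (TrL.c (I.pos (nat_lit 0) (nat_lit 0)) (xa (xb T1.l5 (xa (xb T1.l0 T1.l5) (xb T1.l0 T1.l5))) (xb (xa T1.l0 T1.l0) (xa (xb T1.l0 (xs T1.l0 T1.l0)) (xb T1.l0 (xs T1.l0 T1.l0)))))
  (TrL.c (I.pos (nat_lit 0) (nat_lit 0)) (xk (xb T3.l1 T3.l1) T3.l1)
  (TrL.c (I.pos (nat_lit 0) (nat_lit 134217730)) (xR T1.l12 (xR T1.l1 T1.l1))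
  (TrL.c (I.pos (nat_lit 0) (nat_lit 110514882)) (xR T3.l4 (xR T3.l2 T3.l2))
  (TrL.c (I.pos (nat_lit 0) (nat_lit 0)) (xk (xb T3.l3 (xa T3.l3 (xb T3.l3 (xs T3.l3 T3.l3)))) (xb T3.l3 (xa (xb T3.l3 T3.l3) (xb T3.l3 (xs T3.l3 (xk T3.l3 T3.l3))))))
  (TrL.c (I.pos (nat_lit 0) (nat_lit 0)) T1.l2
  (TrL.c (I.mix (nat_lit 8088324) (nat_lit 110514882)) (xR (xR T3.l4 T3.l4) T3.l4)
  (TrL.c (I.mix (nat_lit 8088324) (nat_lit 89478486)) (xR T1.l3 (xR T1.l3 T1.l3))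
  TrL.n)))))))) (by decide +kernel)
theorem bx4_19 : BoxOK sI cl13 cl4 cl6 t1 t3 b4_19 :=
  box_mk (TrL.c (I.pos (nat_lit 0) (nat_lit 0)) (xb T1.l8 T1.l4)
  (TrL.c (I.pos (nat_lit 0) (nat_lit 0)) T3.l1
  (TrL.c (I.pos (nat_lit 0) (nat_lit 134217730)) (xR T1.l3 T1.l1)
  (TrL.c (I.pos (nat_lit 0) (nat_lit 110514882)) (xR T3.l2 T3.l4)
  (TrL.c (I.pos (nat_lit 0) (nat_lit 0)) (xk T3.l9 T3.l9)
  (TrL.c (I.pos (nat_lit 0) (nat_lit 0)) T1.l2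
  (TrL.c (I.mix (nat_lit 8088324) (nat_lit 110514882)) (xR T3.l4 T3.l4)
  (TrL.c (I.mix (nat_lit 8088324) (nat_lit 89478486)) T1.l3
  TrL.n)))))))) (by decide +kernel)
theorem bx4_20 : BoxOK sI cl13 cl4 cl6 t1 t3 b4_20 :=
  box_mk (TrL.c (I.pos (nat_lit 0) (nat_lit 0)) (xa (xb T1.l0 (xa T1.l0 T1.l0)) (xb T1.l0 (xa T1.l0 T1.l0)))
  (TrL.c (I.pos (nat_lit 0) (nat_lit 0)) (xa (xb T3.l1 T3.l1) (xk (xb T3.l1 T3.l1) T3.l11))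
  (TrL.c (I.pos (nat_lit 0) (nat_lit 134217730)) (xR (xR T1.l12 T1.l1) (xR T1.l1 T1.l12))
  (TrL.c (I.pos (nat_lit 0) (nat_lit 110514882)) (xR T3.l7 (xR T3.l2 (xR T3.l2 T3.l2)))
  (TrL.c (I.pos (nat_lit 0) (nat_lit 0)) (xa (xb (xk T3.l3 T3.l3) T3.l3) (xb (xk (xa T3.l3 T3.l3) (xa T3.l3 T3.l3)) (xk (xa T3.l3 (xb T3.l3 T3.l3)) (xa T3.l3 T3.l3))))
  (TrL.c (I.pos (nat_lit 0) (nat_lit 0)) (xk (xa T1.l2 T1.l2) (xa T1.l2 T1.l2))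
  (TrL.c (I.mix (nat_lit 8088324) (nat_lit 110514882)) (xR (xR T3.l4 T3.l4) (xR T3.l4 (xR T3.l4 (xk (xR T3.l4 T3.l4) T3.l4))))
  (TrL.c (I.mix (nat_lit 8088324) (nat_lit 89478486)) (xR T1.l3 (xR T1.l3 (xR T1.l3 T1.l3)))
  TrL.n)))))))) (by decide +kernel)
theorem bx4_21 : BoxOK sI cl13 cl4 cl6 t1 t3 b4_21 :=
  box_mk (TrL.c (I.pos (nat_lit 0) (nat_lit 0)) T1.l8
  (TrL.c (I.pos (nat_lit 0) (nat_lit 0)) T3.l8
  (TrL.c (I.pos (nat_lit 0) (nat_lit 134217730)) (xR T1.l1 (xR T1.l1 (xR T1.l1 T1.l1)))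
  (TrL.c (I.pos (nat_lit 0) (nat_lit 110514882)) T3.l4
  (TrL.c (I.pos (nat_lit 0) (nat_lit 0)) T3.l9
  (TrL.c (I.pos (nat_lit 0) (nat_lit 0)) T1.l2
  (TrL.c (I.mix (nat_lit 8088324) (nat_lit 110514882)) (xR T3.l4 T3.l4)
  (TrL.c (I.mix (nat_lit 8088324) (nat_lit 89478486)) (xR T1.l6 T1.l3)
  TrL.n)))))))) (by decide +kernel)
theorem sv4 : StarV sI cl13 cl4 cl6 t1 t3 t4 :=
  (bt_n (bt_n (bt_n (bt_n (bt_b bx4_0) (bt_b bx4_1)) (bt_n (bt_b bx4_2) (bt_n (bt_b bx4_3) (bt_b bx4_4)))) (bt_n (bt_n (bt_b bx4_5) (bt_n (bt_b bx4_6) (bt_b bx4_7))) (bt_n (bt_b bx4_8) (bt_n (bt_b bx4_9) (bt_b bx4_10))))) (bt_n (bt_n (bt_n (bt_b bx4_11) (bt_b bx4_12)) (bt_n (bt_b bx4_13) (bt_n (bt_b bx4_14) (bt_b bx4_15)))) (bt_n (bt_n (bt_b bx4_16) (bt_n (bt_b bx4_17) (bt_b bx4_18))) (bt_n (bt_b bx4_19) (bt_n (bt_b bx4_20) (bt_b bx4_21))))))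
def S4 : StarD := StarD.mk cl13 cl4 cl6 1 3 t4
theorem bx5_0 : BoxOK sI cl13 cl6 cl4 t3 t1 b5_0 :=
  box_mk (TrL.c (I.pos (nat_lit 0) (nat_lit 0)) (xa (xb (xa (xb T3.l0 T3.l15) (xb T3.l0 T3.l15)) (xa (xb T3.l15 (xs T3.l15 T3.l15)) (xb (xc T3.l15 T3.l15) (xs T3.l15 (xc T3.l15 T3.l15))))) (xb (xa (xb T3.l0 T3.l0) (xb T3.l0 T3.l0)) (xa (xb (xc (xs T3.l0 T3.l0) (xs T3.l0 T3.l0)) (xs T3.l0 (xc T3.l0 T3.l0))) (xb (xs T3.l0 T3.l0) (xs T3.l0 (xc T3.l0 T3.l0))))))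
  (TrL.c (I.pos (nat_lit 0) (nat_lit 0)) (xk (xa T1.l9 T1.l9) (xa T1.l9 T1.l9))
  (TrL.c (I.pos (nat_lit 0) (nat_lit 134217730)) (xR (xR T3.l4 T3.l4) (xR T3.l4 (xR T3.l10 (xR T3.l10 T3.l4))))
  (TrL.c (I.pos (nat_lit 0) (nat_lit 110514882)) (xR T1.l12 (xR T1.l10 (xR T1.l10 T1.l10)))
  (TrL.c (I.pos (nat_lit 0) (nat_lit 0)) (xk (xa (xb T1.l11 T1.l11) (xb T1.l11 (xb T1.l11 (xa T1.l11 (xs T1.l11 (xk T1.l11 T1.l11)))))) (xb T1.l11 (xa (xb T1.l11 T1.l11) (xb (xa T1.l11 T1.l11) (xa (xs T1.l11 T1.l11) (xs T1.l11 (xk (xb T1.l11 T1.l11) (xb T1.l11 T1.l11))))))))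
  (TrL.c (I.pos (nat_lit 0) (nat_lit 0)) T3.l11
  (TrL.c (I.mix (nat_lit 8088324) (nat_lit 110514882)) (xR T1.l12 (xR T1.l12 (xR T1.l12 T1.l12)))
  (TrL.c (I.mix (nat_lit 8088324) (nat_lit 89478486)) (xR T3.l12 T3.l12)
  TrL.n)))))))) (by decide +kernel)
theorem bx5_1 : BoxOK sI cl13 cl6 cl4 t3 t1 b5_1 :=
  box_mk (TrL.c (I.pos (nat_lit 0) (nat_lit 0)) (xa (xb (xa T3.l13 T3.l13) (xa T3.l19 T3.l19)) (xb (xa T3.l13 T3.l13) (xa T3.l13 T3.l13)))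
  (TrL.c (I.pos (nat_lit 0) (nat_lit 0)) (xa T1.l9 T1.l9)
  (TrL.c (I.pos (nat_lit 0) (nat_lit 134217730)) (xR T3.l4 (xR T3.l4 T3.l10))
  (TrL.c (I.pos (nat_lit 0) (nat_lit 110514882)) (xR T1.l3 (xR T1.l10 T1.l10))
  (TrL.c (I.pos (nat_lit 0) (nat_lit 0)) (xk (xa T1.l13 (xb T1.l13 T1.l13)) (xa T1.l13 (xb T1.l13 T1.l13)))
  (TrL.c (I.pos (nat_lit 0) (nat_lit 0)) T3.l11
  (TrL.c (I.mix (nat_lit 8088324) (nat_lit 110514882)) (xR T1.l12 (xR T1.l12 T1.l12))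
  (TrL.c (I.mix (nat_lit 8088324) (nat_lit 89478486)) (xR T3.l12 T3.l2)
  TrL.n)))))))) (by decide +kernel)
theorem bx5_2 : BoxOK sI cl13 cl6 cl4 t3 t1 b5_2 :=
  box_mk (TrL.c (I.pos (nat_lit 0) (nat_lit 0)) (xa T3.l16 T3.l16)
  (TrL.c (I.pos (nat_lit 0) (nat_lit 0)) T1.l9
  (TrL.c (I.pos (nat_lit 0) (nat_lit 134217730)) (xR T3.l4 (xR T3.l4 T3.l10))
  (TrL.c (I.pos (nat_lit 0) (nat_lit 110514882)) T1.l12
  (TrL.c (I.pos (nat_lit 0) (nat_lit 0)) T1.l9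
  (TrL.c (I.pos (nat_lit 0) (nat_lit 0)) T3.l11
  (TrL.c (I.mix (nat_lit 8088324) (nat_lit 110514882)) (xR T1.l12 T1.l12)
  (TrL.c (I.mix (nat_lit 8088324) (nat_lit 89478486)) (xR T3.l12 T3.l12)
  TrL.n)))))))) (by decide +kernel)
theorem bx5_3 : BoxOK sI cl13 cl6 cl4 t3 t1 b5_3 :=
  box_mk (TrL.c (I.pos (nat_lit 0) (nat_lit 0)) (xa (xb (xa (xb T3.l15 T3.l15) (xb T3.l15 T3.l15)) (xa (xb (xs T3.l15 T3.l15) (xs T3.l15 (xa T3.l15 T3.l15))) (xb T3.l15 (xs T3.l15 T3.l15)))) (xb (xa T3.l15 (xb T3.l15 (xs T3.l15 T3.l15))) (xa (xb T3.l15 (xs T3.l15 T3.l15)) (xb (xs T3.l15 T3.l15) (xs T3.l15 (xk T3.l15 T3.l15))))))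
  (TrL.c (I.pos (nat_lit 0) (nat_lit 0)) (xk (xa (xb T1.l9 T1.l9) T1.l9) (xa T1.l9 T1.l9))
  (TrL.c (I.pos (nat_lit 0) (nat_lit 134217730)) (xR (xR T3.l4 T3.l4) (xR T3.l4 (xR T3.l10 (xa T3.l10 (xR T3.l10 T3.l10)))))
  (TrL.c (I.pos (nat_lit 0) (nat_lit 110514882)) (xR T1.l12 (xR T1.l10 (xR T1.l10 T1.l10)))
  (TrL.c (I.pos (nat_lit 0) (nat_lit 0)) (xk (xb T1.l15 T1.l15) (xb T1.l15 T1.l11))
  (TrL.c (I.pos (nat_lit 0) (nat_lit 0)) (xk T3.l11 T3.l11)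
  (TrL.c (I.mix (nat_lit 8088324) (nat_lit 110514882)) (xR T1.l12 (xR T1.l12 (xR T1.l12 T1.l12)))
  (TrL.c (I.mix (nat_lit 8088324) (nat_lit 89478486)) (xR T3.l12 (xR T3.l12 T3.l2))
  TrL.n)))))))) (by decide +kernel)
theorem bx5_4 : BoxOK sI cl13 cl6 cl4 t3 t1 b5_4 :=
  box_mk (TrL.c (I.pos (nat_lit 0) (nat_lit 0)) (xa (xa (xb T3.l16 T3.l16) T3.l16) (xa T3.l16 T3.l18))
  (TrL.c (I.pos (nat_lit 0) (nat_lit 0)) (xa T1.l9 T1.l9)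
  (TrL.c (I.pos (nat_lit 0) (nat_lit 134217730)) (xR T3.l4 (xR T3.l4 T3.l10))
  (TrL.c (I.pos (nat_lit 0) (nat_lit 110514882)) (xR T1.l1 (xR T1.l10 (xR T1.l10 T1.l10)))
  (TrL.c (I.pos (nat_lit 0) (nat_lit 0)) (xa T1.l9 (xa T1.l16 T1.l16))
  (TrL.c (I.pos (nat_lit 0) (nat_lit 0)) T3.l11
  (TrL.c (I.mix (nat_lit 8088324) (nat_lit 110514882)) (xR (xR T1.l12 T1.l12) (xR T1.l12 T1.l12))
  (TrL.c (I.mix (nat_lit 8088324) (nat_lit 89478486)) (xR T3.l12 T3.l4)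
  TrL.n)))))))) (by decide +kernel)
theorem bx5_5 : BoxOK sI cl13 cl6 cl4 t3 t1 b5_5 :=
  box_mk (TrL.c (I.pos (nat_lit 0) (nat_lit 0)) (xa (xb T3.l21 T3.l21) (xb T3.l21 T3.l21))
  (TrL.c (I.pos (nat_lit 0) (nat_lit 0)) T1.l9
  (TrL.c (I.pos (nat_lit 0) (nat_lit 134217730)) (xR T3.l4 (xR T3.l4 T3.l10))
  (TrL.c (I.pos (nat_lit 0) (nat_lit 110514882)) (xR T1.l3 T1.l10)
  (TrL.c (I.pos (nat_lit 0) (nat_lit 0)) (xk T1.l18 T1.l18)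
  (TrL.c (I.pos (nat_lit 0) (nat_lit 0)) T3.l11
  (TrL.c (I.mix (nat_lit 8088324) (nat_lit 110514882)) (xR T1.l12 T1.l12)
  (TrL.c (I.mix (nat_lit 8088324) (nat_lit 89478486)) T3.l7
  TrL.n)))))))) (by decide +kernel)
theorem bx5_6 : BoxOK sI cl13 cl6 cl4 t3 t1 b5_6 :=
  box_mk (TrL.c (I.pos (nat_lit 0) (nat_lit 0)) (xa (xa T3.l17 T3.l17) T3.l16)
  (TrL.c (I.pos (nat_lit 0) (nat_lit 0)) (xa T1.l9 T1.l9)
  (TrL.c (I.pos (nat_lit 0) (nat_lit 134217730)) (xR T3.l4 (xR T3.l4 T3.l10))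
  (TrL.c (I.pos (nat_lit 0) (nat_lit 110514882)) (xR T1.l1 T1.l12)
  (TrL.c (I.pos (nat_lit 0) (nat_lit 0)) (xa T1.l9 T1.l9)
  (TrL.c (I.pos (nat_lit 0) (nat_lit 0)) T3.l10
  (TrL.c (I.mix (nat_lit 8088324) (nat_lit 110514882)) (xR (xR T1.l12 T1.l12) (xR T1.l12 (xR T1.l12 T1.l10)))
  (TrL.c (I.mix (nat_lit 8088324) (nat_lit 89478486)) (xR T3.l12 T3.l4)
  TrL.n)))))))) (by decide +kernel)
theorem bx5_7 : BoxOK sI cl13 cl6 cl4 t3 t1 b5_7 :=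
  box_mk (TrL.c (I.pos (nat_lit 0) (nat_lit 0)) T3.l0
  (TrL.c (I.pos (nat_lit 0) (nat_lit 0)) T1.l9
  (TrL.c (I.pos (nat_lit 0) (nat_lit 134217730)) (xR T3.l4 (xR T3.l4 T3.l10))
  (TrL.c (I.pos (nat_lit 0) (nat_lit 110514882)) (xR T1.l3 T1.l10)
  (TrL.c (I.pos (nat_lit 0) (nat_lit 0)) T1.l15
  (TrL.c (I.pos (nat_lit 0) (nat_lit 0)) T3.l11
  (TrL.c (I.mix (nat_lit 8088324) (nat_lit 110514882)) (xR T1.l12 T1.l12)
  (TrL.c (I.mix (nat_lit 8088324) (nat_lit 89478486)) (xR T3.l12 T3.l12)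
  TrL.n)))))))) (by decide +kernel)
theorem bx5_8 : BoxOK sI cl13 cl6 cl4 t3 t1 b5_8 :=
  box_mk (TrL.c (I.pos (nat_lit 0) (nat_lit 0)) (xa (xb T3.l0 T3.l0) (xb T3.l0 T3.l15))
  (TrL.c (I.pos (nat_lit 0) (nat_lit 0)) T1.l9
  (TrL.c (I.pos (nat_lit 0) (nat_lit 134217730)) (xR (xR T3.l4 T3.l4) (xR T3.l4 T3.l10))
  (TrL.c (I.pos (nat_lit 0) (nat_lit 110514882)) (xR T1.l12 (xR T1.l10 T1.l10))
  (TrL.c (I.pos (nat_lit 0) (nat_lit 0)) T1.l15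
  (TrL.c (I.pos (nat_lit 0) (nat_lit 0)) T3.l11
  (TrL.c (I.mix (nat_lit 8088324) (nat_lit 110514882)) (xR T1.l12 (xR T1.l12 T1.l12))
  (TrL.c (I.mix (nat_lit 8088324) (nat_lit 89478486)) (xR T3.l12 T3.l2)
  TrL.n)))))))) (by decide +kernel)
theorem bx5_9 : BoxOK sI cl13 cl6 cl4 t3 t1 b5_9 :=
  box_mk (TrL.c (I.pos (nat_lit 0) (nat_lit 0)) (xa (xa (xb T3.l18 T3.l18) T3.l18) (xa (xb T3.l18 T3.l18) (xb T3.l18 T3.l18)))
  (TrL.c (I.pos (nat_lit 0) (nat_lit 0)) (xa T1.l9 (xa T1.l9 T1.l9))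
  (TrL.c (I.pos (nat_lit 0) (nat_lit 134217730)) (xR T3.l4 (xR T3.l4 T3.l10))
  (TrL.c (I.pos (nat_lit 0) (nat_lit 110514882)) (xR T1.l3 T1.l10)
  (TrL.c (I.pos (nat_lit 0) (nat_lit 0)) (xa T1.l17 (xa T1.l17 T1.l17))
  (TrL.c (I.pos (nat_lit 0) (nat_lit 0)) T3.l11
  (TrL.c (I.mix (nat_lit 8088324) (nat_lit 110514882)) (xR (xR T1.l12 T1.l12) T1.l12)
  (TrL.c (I.mix (nat_lit 8088324) (nat_lit 89478486)) T3.l12
  TrL.n)))))))) (by decide +kernel)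
theorem bx5_10 : BoxOK sI cl13 cl6 cl4 t3 t1 b5_10 :=
  box_mk (TrL.c (I.pos (nat_lit 0) (nat_lit 0)) (xb (xa (xb T3.l19 T3.l19) (xb T3.l13 T3.l13)) (xa (xb T3.l19 (xa T3.l19 T3.l19)) (xb T3.l19 T3.l19)))
  (TrL.c (I.pos (nat_lit 0) (nat_lit 0)) (xb T1.l9 T1.l9)
  (TrL.c (I.pos (nat_lit 0) (nat_lit 134217730)) (xR T3.l4 (xR T3.l4 T3.l10))
  (TrL.c (I.pos (nat_lit 0) (nat_lit 110514882)) (xR T1.l3 (xR T1.l10 T1.l10))
  (TrL.c (I.pos (nat_lit 0) (nat_lit 0)) (xb (xk (xa T1.l19 T1.l19) (xa T1.l19 T1.l19)) T1.l19)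
  (TrL.c (I.pos (nat_lit 0) (nat_lit 0)) T3.l11
  (TrL.c (I.mix (nat_lit 8088324) (nat_lit 110514882)) (xR T1.l12 T1.l12)
  (TrL.c (I.mix (nat_lit 8088324) (nat_lit 89478486)) T3.l4
  TrL.n)))))))) (by decide +kernel)
theorem bx5_11 : BoxOK sI cl13 cl6 cl4 t3 t1 b5_11 :=
  box_mk (TrL.c (I.pos (nat_lit 0) (nat_lit 0)) (xa (xb T3.l20 T3.l20) T3.l16)
  (TrL.c (I.pos (nat_lit 0) (nat_lit 0)) T1.l9
  (TrL.c (I.pos (nat_lit 0) (nat_lit 134217730)) (xR T3.l2 (xR T3.l4 T3.l10))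
  (TrL.c (I.pos (nat_lit 0) (nat_lit 110514882)) T1.l12
  (TrL.c (I.pos (nat_lit 0) (nat_lit 0)) (xa T1.l20 T1.l20)
  (TrL.c (I.pos (nat_lit 0) (nat_lit 0)) T3.l10
  (TrL.c (I.mix (nat_lit 8088324) (nat_lit 110514882)) (xR (xR T1.l12 T1.l12) T1.l10)
  (TrL.c (I.mix (nat_lit 8088324) (nat_lit 89478486)) (xR T3.l12 T3.l4)
  TrL.n)))))))) (by decide +kernel)
theorem bx5_12 : BoxOK sI cl13 cl6 cl4 t3 t1 b5_12 :=
  box_mk (TrL.c (I.pos (nat_lit 0) (nat_lit 0)) (xa (xb (xa (xb (xs T3.l15 T3.l15) T3.l15) (xb (xs T3.l0 T3.l15) T3.l15)) (xa (xb T3.l15 T3.l15) (xb T3.l15 T3.l15))) (xb (xa (xb (xs T3.l0 T3.l0) T3.l15) (xb T3.l0 T3.l15)) (xa (xb T3.l15 T3.l15) (xb T3.l15 T3.l15))))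
  (TrL.c (I.pos (nat_lit 0) (nat_lit 0)) (xk (xb T1.l9 T1.l9) (xb T1.l9 T1.l9))
  (TrL.c (I.pos (nat_lit 0) (nat_lit 134217730)) (xR (xR T3.l4 T3.l4) (xR T3.l4 (xR T3.l10 (xR T3.l10 T3.l4))))
  (TrL.c (I.pos (nat_lit 0) (nat_lit 110514882)) (xR T1.l12 (xR T1.l10 (xR T1.l10 T1.l10)))
  (TrL.c (I.pos (nat_lit 0) (nat_lit 0)) (xk (xb T1.l15 T1.l11) (xb T1.l15 T1.l11))
  (TrL.c (I.pos (nat_lit 0) (nat_lit 0)) T3.l11
  (TrL.c (I.mix (nat_lit 8088324) (nat_lit 110514882)) (xR T1.l12 (xR T1.l12 (xR T1.l12 T1.l12)))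
  (TrL.c (I.mix (nat_lit 8088324) (nat_lit 89478486)) (xR T3.l12 T3.l2)
  TrL.n)))))))) (by decide +kernel)
theorem bx5_13 : BoxOK sI cl13 cl6 cl4 t3 t1 b5_13 :=
  box_mk (TrL.c (I.pos (nat_lit 0) (nat_lit 0)) (xa T3.l0 T3.l0)
  (TrL.c (I.pos (nat_lit 0) (nat_lit 0)) (xk T1.l9 T1.l9)
  (TrL.c (I.pos (nat_lit 0) (nat_lit 134217730)) (xR (xR T3.l4 T3.l4) (xR T3.l4 T3.l10))
  (TrL.c (I.pos (nat_lit 0) (nat_lit 110514882)) (xR T1.l12 (xR T1.l10 T1.l10))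
  (TrL.c (I.pos (nat_lit 0) (nat_lit 0)) T1.l11
  (TrL.c (I.pos (nat_lit 0) (nat_lit 0)) T3.l11
  (TrL.c (I.mix (nat_lit 8088324) (nat_lit 110514882)) (xR T1.l12 T1.l12)
  (TrL.c (I.mix (nat_lit 8088324) (nat_lit 89478486)) (xR T3.l12 T3.l12)
  TrL.n)))))))) (by decide +kernel)
theorem bx5_14 : BoxOK sI cl13 cl6 cl4 t3 t1 b5_14 :=
  box_mk (TrL.c (I.pos (nat_lit 0) (nat_lit 0)) (xa T3.l0 (xb T3.l0 (xa T3.l0 T3.l0)))
  (TrL.c (I.pos (nat_lit 0) (nat_lit 0)) (xa (xk T1.l9 T1.l9) (xk T1.l2 T1.l9))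
  (TrL.c (I.pos (nat_lit 0) (nat_lit 134217730)) (xR (xR T3.l4 T3.l4) (xR T3.l4 (xR T3.l10 T3.l10)))
  (TrL.c (I.pos (nat_lit 0) (nat_lit 110514882)) (xR (xR T1.l3 T1.l3) (xR T1.l10 (xR T1.l10 T1.l10)))
  (TrL.c (I.pos (nat_lit 0) (nat_lit 0)) (xa T1.l11 (xk T1.l11 T1.l11))
  (TrL.c (I.pos (nat_lit 0) (nat_lit 0)) (xk T3.l11 T3.l11)
  (TrL.c (I.mix (nat_lit 8088324) (nat_lit 110514882)) (xR T1.l12 (xR T1.l12 (xR T1.l12 (xR T1.l12 T1.l12))))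
  (TrL.c (I.mix (nat_lit 8088324) (nat_lit 89478486)) (xR T3.l12 T3.l2)
  TrL.n)))))))) (by decide +kernel)
theorem bx5_15 : BoxOK sI cl13 cl6 cl4 t3 t1 b5_15 :=
  box_mk (TrL.c (I.pos (nat_lit 0) (nat_lit 0)) (xa (xb (xa (xs T3.l0 (xb T3.l0 T3.l0)) (xs T3.l0 (xb T3.l0 T3.l0))) (xa (xs T3.l15 (xb T3.l15 (xk T3.l15 T3.l15))) (xs T3.l15 (xb T3.l0 T3.l15)))) (xb (xa (xs T3.l0 (xb T3.l0 T3.l0)) (xs T3.l0 (xb (xa T3.l0 T3.l0) T3.l0))) (xa (xs (xb T3.l0 T3.l0) (xb T3.l0 (xk T3.l0 T3.l0))) (xs T3.l0 (xb T3.l0 T3.l0)))))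
  (TrL.c (I.pos (nat_lit 0) (nat_lit 0)) (xk (xa T1.l9 T1.l9) (xa T1.l9 (xb T1.l9 T1.l9)))
  (TrL.c (I.pos (nat_lit 0) (nat_lit 134217730)) (xR (xR T3.l4 T3.l4) (xR T3.l4 (xR T3.l10 (xR T3.l10 T3.l4))))
  (TrL.c (I.pos (nat_lit 0) (nat_lit 110514882)) (xR T1.l12 (xR T1.l10 (xR T1.l10 T1.l10)))
  (TrL.c (I.pos (nat_lit 0) (nat_lit 0)) (xk (xa (xb T1.l11 T1.l11) (xb T1.l11 (xb T1.l11 (xs T1.l11 (xk T1.l11 T1.l11))))) (xb T1.l11 (xa (xb T1.l11 T1.l11) (xb T1.l11 (xs T1.l11 (xa T1.l11 (xk T1.l11 T1.l11)))))))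
  (TrL.c (I.pos (nat_lit 0) (nat_lit 0)) T3.l11
  (TrL.c (I.mix (nat_lit 8088324) (nat_lit 110514882)) (xR T1.l12 (xR T1.l12 (xR T1.l12 T1.l12)))
  (TrL.c (I.mix (nat_lit 8088324) (nat_lit 89478486)) (xR T3.l12 T3.l2)
  TrL.n)))))))) (by decide +kernel)
theorem bx5_16 : BoxOK sI cl13 cl6 cl4 t3 t1 b5_16 :=
  box_mk (TrL.c (I.pos (nat_lit 0) (nat_lit 0)) (xa (xb (xa (xb T3.l0 T3.l0) (xb T3.l0 T3.l0)) (xa (xb (xa T3.l0 T3.l0) (xa T3.l0 T3.l0)) (xb (xa T3.l0 T3.l0) (xs T3.l0 T3.l0)))) (xb (xa (xb T3.l0 T3.l0) (xb T3.l0 T3.l0)) (xa (xs T3.l0 (xb T3.l0 T3.l0)) (xs T3.l0 (xb T3.l0 T3.l0)))))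
  (TrL.c (I.pos (nat_lit 0) (nat_lit 0)) (xa (xk (xb T1.l9 T1.l9) T1.l9) (xk (xb T1.l2 (xa T1.l9 T1.l2)) (xb T1.l9 (xa T1.l9 T1.l9))))
  (TrL.c (I.pos (nat_lit 0) (nat_lit 134217730)) (xR (xR T3.l4 T3.l4) (xR T3.l4 (xR T3.l4 T3.l4)))
  (TrL.c (I.pos (nat_lit 0) (nat_lit 110514882)) (xR (xR T1.l3 T1.l3) (xR T1.l10 (xR T1.l10 (xa T1.l10 (xR T1.l10 T1.l10)))))
  (TrL.c (I.pos (nat_lit 0) (nat_lit 0)) (xa (xk (xb T1.l11 T1.l11) (xb T1.l11 T1.l11)) (xk (xb (xa T1.l11 (xk T1.l11 T1.l11)) (xa T1.l11 (xk T1.l11 T1.l11))) (xb (xa T1.l11 T1.l11) (xa T1.l11 (xk T1.l11 T1.l11)))))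
  (TrL.c (I.pos (nat_lit 0) (nat_lit 0)) (xk (xa T3.l11 (xb T3.l11 T3.l11)) (xa T3.l11 T3.l11))
  (TrL.c (I.mix (nat_lit 8088324) (nat_lit 110514882)) (xR T1.l12 (xR T1.l12 (xR T1.l12 (xk (xR T1.l12 T1.l12) T1.l12))))
  (TrL.c (I.mix (nat_lit 8088324) (nat_lit 89478486)) (xR T3.l12 (xR T3.l12 T3.l2))
  TrL.n)))))))) (by decide +kernel)
theorem bx5_17 : BoxOK sI cl13 cl6 cl4 t3 t1 b5_17 :=
  box_mk (TrL.c (I.pos (nat_lit 0) (nat_lit 0)) T3.l0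
  (TrL.c (I.pos (nat_lit 0) (nat_lit 0)) (xk T1.l9 T1.l9)
  (TrL.c (I.pos (nat_lit 0) (nat_lit 134217730)) (xR (xR T3.l4 T3.l4) (xR T3.l4 T3.l10))
  (TrL.c (I.pos (nat_lit 0) (nat_lit 110514882)) (xR (xR T1.l3 T1.l10) (xR T1.l10 T1.l10))
  (TrL.c (I.pos (nat_lit 0) (nat_lit 0)) T1.l11
  (TrL.c (I.pos (nat_lit 0) (nat_lit 0)) T3.l11
  (TrL.c (I.mix (nat_lit 8088324) (nat_lit 110514882)) (xR T1.l12 T1.l12)
  (TrL.c (I.mix (nat_lit 8088324) (nat_lit 89478486)) (xR T3.l12 T3.l12)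
  TrL.n)))))))) (by decide +kernel)
theorem bx5_18 : BoxOK sI cl13 cl6 cl4 t3 t1 b5_18 :=
  box_mk (TrL.c (I.pos (nat_lit 0) (nat_lit 0)) (xa T3.l0 T3.l0)
  (TrL.c (I.pos (nat_lit 0) (nat_lit 0)) (xk T1.l9 T1.l9)
  (TrL.c (I.pos (nat_lit 0) (nat_lit 134217730)) (xR (xR T3.l4 T3.l4) (xR T3.l4 T3.l10))
  (TrL.c (I.pos (nat_lit 0) (nat_lit 110514882)) (xR T1.l12 (xR T1.l10 T1.l10))
  (TrL.c (I.pos (nat_lit 0) (nat_lit 0)) T1.l11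
  (TrL.c (I.pos (nat_lit 0) (nat_lit 0)) T3.l11
  (TrL.c (I.mix (nat_lit 8088324) (nat_lit 110514882)) (xR T1.l12 T1.l12)
  (TrL.c (I.mix (nat_lit 8088324) (nat_lit 89478486)) (xR T3.l12 T3.l12)
  TrL.n)))))))) (by decide +kernel)
theorem bx5_19 : BoxOK sI cl13 cl6 cl4 t3 t1 b5_19 :=
  box_mk (TrL.c (I.pos (nat_lit 0) (nat_lit 0)) (xa T3.l0 T3.l0)
  (TrL.c (I.pos (nat_lit 0) (nat_lit 0)) (xk T1.l2 T1.l9)
  (TrL.c (I.pos (nat_lit 0) (nat_lit 134217730)) (xR (xR T3.l4 T3.l4) (xR T3.l4 T3.l4))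
  (TrL.c (I.pos (nat_lit 0) (nat_lit 110514882)) (xR (xR T1.l3 T1.l3) (xR T1.l10 T1.l10))
  (TrL.c (I.pos (nat_lit 0) (nat_lit 0)) (xk (xb T1.l0 T1.l11) T1.l11)
  (TrL.c (I.pos (nat_lit 0) (nat_lit 0)) T3.l11
  (TrL.c (I.mix (nat_lit 8088324) (nat_lit 110514882)) (xR T1.l12 (xR T1.l12 (xR T1.l12 T1.l12)))
  (TrL.c (I.mix (nat_lit 8088324) (nat_lit 89478486)) (xR T3.l12 T3.l2)
  TrL.n)))))))) (by decide +kernel)
theorem bx5_20 : BoxOK sI cl13 cl6 cl4 t3 t1 b5_20 :=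
  box_mk (TrL.c (I.pos (nat_lit 0) (nat_lit 0)) T3.l0
  (TrL.c (I.pos (nat_lit 0) (nat_lit 0)) (xk T1.l9 T1.l9)
  (TrL.c (I.pos (nat_lit 0) (nat_lit 134217730)) (xR (xR T3.l4 T3.l4) (xR T3.l4 T3.l10))
  (TrL.c (I.pos (nat_lit 0) (nat_lit 110514882)) (xR (xR T1.l3 T1.l3) (xR T1.l10 T1.l10))
  (TrL.c (I.pos (nat_lit 0) (nat_lit 0)) (xk T1.l11 T1.l11)
  (TrL.c (I.pos (nat_lit 0) (nat_lit 0)) T3.l11
  (TrL.c (I.mix (nat_lit 8088324) (nat_lit 110514882)) (xR T1.l12 (xR T1.l12 (xR T1.l12 T1.l12)))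
  (TrL.c (I.mix (nat_lit 8088324) (nat_lit 89478486)) (xR T3.l12 T3.l2)
  TrL.n)))))))) (by decide +kernel)
theorem bx5_21 : BoxOK sI cl13 cl6 cl4 t3 t1 b5_21 :=
  box_mk (TrL.c (I.pos (nat_lit 0) (nat_lit 0)) T3.l0
  (TrL.c (I.pos (nat_lit 0) (nat_lit 0)) T1.l9
  (TrL.c (I.pos (nat_lit 0) (nat_lit 134217730)) (xR (xR T3.l4 T3.l4) (xR T3.l4 T3.l10))
  (TrL.c (I.pos (nat_lit 0) (nat_lit 110514882)) (xR T1.l12 (xR T1.l10 T1.l10))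
  (TrL.c (I.pos (nat_lit 0) (nat_lit 0)) T1.l11
  (TrL.c (I.pos (nat_lit 0) (nat_lit 0)) T3.l11
  (TrL.c (I.mix (nat_lit 8088324) (nat_lit 110514882)) (xR T1.l12 T1.l12)
  (TrL.c (I.mix (nat_lit 8088324) (nat_lit 89478486)) (xR T3.l12 T3.l12)
  TrL.n)))))))) (by decide +kernel)
theorem sv5 : StarV sI cl13 cl6 cl4 t3 t1 t5 :=
  (bt_n (bt_n (bt_n (bt_n (bt_b bx5_0) (bt_b bx5_1)) (bt_n (bt_b bx5_2) (bt_n (bt_b bx5_3) (bt_b bx5_4)))) (bt_n (bt_n (bt_b bx5_5) (bt_n (bt_b bx5_6) (bt_b bx5_7))) (bt_n (bt_b bx5_8) (bt_n (bt_b bx5_9) (bt_b bx5_10))))) (bt_n (bt_n (bt_n (bt_b bx5_11) (bt_b bx5_12)) (bt_n (bt_b bx5_13) (bt_n (bt_b bx5_14) (bt_b bx5_15)))) (bt_n (bt_n (bt_b bx5_16) (bt_n (bt_b bx5_17) (bt_b bx5_18))) (bt_n (bt_b bx5_19) (bt_n (bt_b bx5_20) (bt_b bx5_21))))))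
def S5 : StarD := StarD.mk cl13 cl6 cl4 3 1 t5
def G : List StarD := [S0, S1, S2, S3, S4, S5]
theorem so0 : StarOK sI G S0 :=
  star_mk (by decide) (by decide) rfl rfl rfl rfl rfl rfl (rfl : _ = t2) (rfl : _ = t4)
  (st_mk (Pth.l (Pth.l (Pth.l (Pth.l Pth.z)))) (nat_lit 195221136) (nat_lit 196925857) (by decide +kernel))
  (st_mk (Pth.l (Pth.l (Pth.l (Pth.l Pth.z)))) (nat_lit 234109695) (nat_lit 236618387) (by decide +kernel))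
  (st_mk (Pth.l (Pth.l (Pth.l (Pth.l Pth.z)))) (nat_lit 280018351) (nat_lit 283713114) (by decide +kernel)) sv0
theorem so1 : StarOK sI G S1 :=
  star_mk (by decide) (by decide) rfl rfl rfl rfl rfl rfl (rfl : _ = t4) (rfl : _ = t2)
  (st_mk (Pth.l (Pth.l (Pth.l (Pth.l Pth.z)))) (nat_lit 99179303) (nat_lit 118944888) (by decide +kernel))
  (st_mk (Pth.l (Pth.l (Pth.l (Pth.l Pth.z)))) (nat_lit 137096603) (nat_lit 157725961) (by decide +kernel))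
  (st_mk (Pth.l (Pth.l (Pth.l (Pth.l Pth.z)))) (nat_lit 180331307) (nat_lit 205948903) (by decide +kernel)) sv1
theorem so2 : StarOK sI G S2 :=
  star_mk (by decide) (by decide) rfl rfl rfl rfl rfl rfl (rfl : _ = t0) (rfl : _ = t5)
  (st_mk (Pth.l (Pth.l (Pth.l (Pth.l Pth.z)))) (nat_lit 376353010) (nat_lit 378377748) (by decide +kernel))
  (st_mk (Pth.l (Pth.l (Pth.l (Pth.l Pth.z)))) (nat_lit 413594161) (nat_lit 416054996) (by decide +kernel))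
  (st_mk (Pth.l (Pth.l (Pth.l (Pth.l Pth.z)))) (nat_lit 456860976) (nat_lit 459887093) (by decide +kernel)) sv2
theorem so3 : StarOK sI G S3 :=
  star_mk (by decide) (by decide) rfl rfl rfl rfl rfl rfl (rfl : _ = t5) (rfl : _ = t0)
  (st_mk (Pth.l (Pth.l (Pth.l (Pth.l Pth.z)))) (nat_lit 97447871) (nat_lit 116306003) (by decide +kernel))
  (st_mk (Pth.l (Pth.l (Pth.l (Pth.l Pth.z)))) (nat_lit 133760043) (nat_lit 153001979) (by decide +kernel))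
  (st_mk (Pth.l (Pth.l (Pth.l (Pth.l Pth.z)))) (nat_lit 176241912) (nat_lit 196003609) (by decide +kernel)) sv3
theorem so4 : StarOK sI G S4 :=
  star_mk (by decide) (by decide) rfl rfl rfl rfl rfl rfl (rfl : _ = t1) (rfl : _ = t3)
  (st_mk (Pth.l (Pth.l (Pth.l (Pth.l Pth.z)))) (nat_lit 364798899) (nat_lit 368361484) (by decide +kernel))
  (st_mk (Pth.l (Pth.l (Pth.l (Pth.l Pth.z)))) (nat_lit 399695508) (nat_lit 403868444) (by decide +kernel))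
  (st_mk (Pth.l (Pth.l (Pth.l (Pth.l Pth.z)))) (nat_lit 439960827) (nat_lit 444909217) (by decide +kernel)) sv4
theorem so5 : StarOK sI G S5 :=
  star_mk (by decide) (by decide) rfl rfl rfl rfl rfl rfl (rfl : _ = t3) (rfl : _ = t1)
  (st_mk (Pth.l (Pth.l (Pth.l (Pth.l Pth.z)))) (nat_lit 185843017) (nat_lit 187563173) (by decide +kernel))
  (st_mk (Pth.l (Pth.l (Pth.l (Pth.l Pth.z)))) (nat_lit 220739626) (nat_lit 222947407) (by decide +kernel))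
  (st_mk (Pth.l (Pth.l (Pth.l (Pth.l Pth.z)))) (nat_lit 261004945) (nat_lit 263881848) (by decide +kernel)) sv5
theorem ok : GroupOK (nat_lit 209321984) (nat_lit 268435456) G := grp_mk (allS_c so0 (allS_c so1 (allS_c so2 (allS_c so3 (allS_c so4 (allS_c so5 allS_n))))))
theorem cov : GCov G cl4 cl6 cl13 := cov_mk
  ⟨0, by decide, rfl, rfl, rfl⟩ ⟨1, by decide, rfl, rfl, rfl⟩ ⟨2, by decide, rfl, rfl, rfl⟩ ⟨3, by decide, rfl, rfl, rfl⟩ ⟨4, by decide, rfl, rfl, rfl⟩ ⟨5, by decide, rfl, rfl, rfl⟩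
end Q136_3

namespace Q144_0
def sI : I := I.pos (nat_lit 0) (nat_lit 91291648)
def b0_0 : Bx := Bx.mk (St.mk (I.pos (nat_lit 160514048) (nat_lit 262864896)) (I.mix (nat_lit 34258944) (nat_lit 64684032)) (I.mix (nat_lit 131760128) (nat_lit 79822848)) (I.pos (nat_lit 145260544) (nat_lit 336871424)) (I.mix (nat_lit 99434496) (nat_lit 70172672)) (I.mix (nat_lit 88702976) (nat_lit 83525632)) (I.mix (nat_lit 150028288) (nat_lit 178716672)))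
  false (nat_lit 0)
def b0_1 : Bx := Bx.mk (St.mk (I.mix (nat_lit 37781504) (nat_lit 115638272)) (I.mix (nat_lit 13467648) (nat_lit 43581440)) (I.mix (nat_lit 31490048) (nat_lit 12091392)) (I.pos (nat_lit 37093376) (nat_lit 113311744)) (I.mix (nat_lit 43057152) (nat_lit 43630592)) (I.mix (nat_lit 46317568) (nat_lit 41484288)) (I.mix (nat_lit 34947072) (nat_lit 25231360)))
  false (nat_lit 0)
def b0_2 : Bx := Bx.mk (St.mk (I.pos (nat_lit 95141888) (nat_lit 141213696)) (I.mix (nat_lit 64733184) (nat_lit 13828096)) (I.neg (nat_lit 6078464) (nat_lit 79429632)) (I.pos (nat_lit 80904192) (nat_lit 140017664)) (I.mix (nat_lit 106348544) (nat_lit 33832960)) (I.mix (nat_lit 62423040) (nat_lit 112394240)) (I.mix (nat_lit 46546944) (nat_lit 92667904)))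
  false (nat_lit 0)
def b0_3 : Bx := Bx.mk (St.mk (I.mix (nat_lit 29376512) (nat_lit 68419584)) (I.mix (nat_lit 34471936) (nat_lit 3112960)) (I.neg (nat_lit 2867200) (nat_lit 27607040)) (I.pos (nat_lit 41730048) (nat_lit 81117184)) (I.mix (nat_lit 40140800) (nat_lit 21315584)) (I.mix (nat_lit 26673152) (nat_lit 37797888)) (I.mix (nat_lit 12763136) (nat_lit 17039360)))
  false (nat_lit 0)
def b0_4 : Bx := Bx.mk (St.mk (I.mix (nat_lit 41451520) (nat_lit 45957120)) (I.mix (nat_lit 4767744) (nat_lit 12091392)) (I.neg (nat_lit 4341760) (nat_lit 16842752)) (I.pos (nat_lit 42663936) (nat_lit 74940416)) (I.mix (nat_lit 18743296) (nat_lit 13336576)) (I.mix (nat_lit 14860288) (nat_lit 18219008)) (I.mix (nat_lit 6340608) (nat_lit 7569408)))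
  false (nat_lit 0)
def b0_5 : Bx := Bx.mk (St.mk (I.pos (nat_lit 93683712) (nat_lit 173031424)) (I.mix (nat_lit 64798720) (nat_lit 3522560)) (I.neg (nat_lit 8601600) (nat_lit 77365248)) (I.pos (nat_lit 91799552) (nat_lit 178978816)) (I.mix (nat_lit 90439680) (nat_lit 67928064)) (I.mix (nat_lit 63700992) (nat_lit 108068864)) (I.mix (nat_lit 53035008) (nat_lit 108085248)))
  false (nat_lit 0)
def b0_6 : Bx := Bx.mk (St.mk (I.mix (nat_lit 37945344) (nat_lit 84426752)) (I.mix (nat_lit 38436864) (nat_lit 9732096)) (I.neg (nat_lit 2310144) (nat_lit 34865152)) (I.pos (nat_lit 36962304) (nat_lit 91078656)) (I.mix (nat_lit 49217536) (nat_lit 38518784)) (I.mix (nat_lit 32473088) (nat_lit 53788672)) (I.mix (nat_lit 20086784) (nat_lit 31211520)))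
  false (nat_lit 0)
def b0_7 : Bx := Bx.mk (St.mk (I.pos (nat_lit 142835712) (nat_lit 225181696)) (I.mix (nat_lit 40681472) (nat_lit 73777152)) (I.mix (nat_lit 61964288) (nat_lit 84279296)) (I.pos (nat_lit 130252800) (nat_lit 254427136)) (I.mix (nat_lit 139083776) (nat_lit 62439424)) (I.mix (nat_lit 170803200) (nat_lit 104562688)) (I.mix (nat_lit 185122816) (nat_lit 109985792)))
  false (nat_lit 0)
def b0_8 : Bx := Bx.mk (St.mk (I.mix (nat_lit 39403520) (nat_lit 117080064)) (I.mix (nat_lit 15777792) (nat_lit 46399488)) (I.mix (nat_lit 36503552) (nat_lit 15417344)) (I.pos (nat_lit 41549824) (nat_lit 109363200)) (I.mix (nat_lit 54280192) (nat_lit 58671104)) (I.mix (nat_lit 72957952) (nat_lit 55902208)) (I.mix (nat_lit 38666240) (nat_lit 31277056)))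
  false (nat_lit 0)
def b0_9 : Bx := Bx.mk (St.mk (I.pos (nat_lit 90505216) (nat_lit 112836608)) (I.mix (nat_lit 11255808) (nat_lit 10027008)) (I.neg (nat_lit 7290880) (nat_lit 29605888)) (I.pos (nat_lit 78118912) (nat_lit 112197632)) (I.mix (nat_lit 24756224) (nat_lit 15892480)) (I.mix (nat_lit 17874944) (nat_lit 18644992)) (I.mix (nat_lit 13434880) (nat_lit 16760832)))
  false (nat_lit 0)
def t0 : BTr := (BTr.n (BTr.n (BTr.n (BTr.b b0_0) (BTr.b b0_1)) (BTr.n (BTr.b b0_2) (BTr.n (BTr.b b0_3) (BTr.b b0_4)))) (BTr.n (BTr.n (BTr.b b0_5) (BTr.b b0_6)) (BTr.n (BTr.b b0_7) (BTr.n (BTr.b b0_8) (BTr.b b0_9)))))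
namespace T0
def l0 : Tr := Tr.L (Pth.l (Pth.l (Pth.l Pth.z)))
def l1 : Tr := Tr.L (Pth.l (Pth.l (Pth.r Pth.z)))
def l2 : Tr := Tr.L (Pth.l (Pth.r (Pth.l Pth.z)))
def l3 : Tr := Tr.L (Pth.l (Pth.r (Pth.r (Pth.l Pth.z))))
def l4 : Tr := Tr.L (Pth.l (Pth.r (Pth.r (Pth.r Pth.z))))
def l5 : Tr := Tr.L (Pth.r (Pth.l (Pth.l Pth.z)))
def l6 : Tr := Tr.L (Pth.r (Pth.l (Pth.r Pth.z)))
def l7 : Tr := Tr.L (Pth.r (Pth.r (Pth.l Pth.z)))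
def l8 : Tr := Tr.L (Pth.r (Pth.r (Pth.r (Pth.l Pth.z))))
def l9 : Tr := Tr.L (Pth.r (Pth.r (Pth.r (Pth.r Pth.z))))
end T0
def b1_0 : Bx := Bx.mk (St.mk (I.pos (nat_lit 142475264) (nat_lit 293322752)) (I.mix (nat_lit 43778048) (nat_lit 96452608)) (I.mix (nat_lit 185712640) (nat_lit 107872256)) (I.pos (nat_lit 367968256) (nat_lit 590692352)) (I.mix (nat_lit 110215168) (nat_lit 105562112)) (I.mix (nat_lit 131792896) (nat_lit 90275840)) (I.mix (nat_lit 192200704) (nat_lit 174112768)))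
  false (nat_lit 105798999)
def b1_1 : Bx := Bx.mk (St.mk (I.pos (nat_lit 26738688) (nat_lit 132612096)) (I.mix (nat_lit 95748096) (nat_lit 1654784)) (I.mix (nat_lit 80510976) (nat_lit 12288000)) (I.pos (nat_lit 264355840) (nat_lit 336756736)) (I.mix (nat_lit 88702976) (nat_lit 79855616)) (I.mix (nat_lit 72761344) (nat_lit 104202240)) (I.mix (nat_lit 70582272) (nat_lit 84557824)))
  false (nat_lit 0)
def b1_2 : Bx := Bx.mk (St.mk (I.mix (nat_lit 63537152) (nat_lit 19726336)) (I.mix (nat_lit 20938752) (nat_lit 94912512)) (I.neg (nat_lit 35094528) (nat_lit 63930368)) (I.pos (nat_lit 265781248) (nat_lit 291799040)) (I.mix (nat_lit 51658752) (nat_lit 97615872)) (I.mix (nat_lit 107069440) (nat_lit 67682304)) (I.mix (nat_lit 37371904) (nat_lit 30736384)))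
  true (nat_lit 0)
def b1_3 : Bx := Bx.mk (St.mk (I.pos (nat_lit 93110272) (nat_lit 192872448)) (I.mix (nat_lit 45170688) (nat_lit 101449728)) (I.mix (nat_lit 34684928) (nat_lit 114343936)) (I.pos (nat_lit 302268416) (nat_lit 418381824)) (I.mix (nat_lit 141410304) (nat_lit 71696384)) (I.mix (nat_lit 174391296) (nat_lit 100876288)) (I.mix (nat_lit 170491904) (nat_lit 124715008)))
  false (nat_lit 65002541)
def b1_4 : Bx := Bx.mk (St.mk (I.mix (nat_lit 19726336) (nat_lit 63537152)) (I.mix (nat_lit 94912512) (nat_lit 20938752)) (I.neg (nat_lit 35094528) (nat_lit 63946752)) (I.pos (nat_lit 265781248) (nat_lit 291815424)) (I.mix (nat_lit 97615872) (nat_lit 51658752)) (I.mix (nat_lit 67682304) (nat_lit 107069440)) (I.mix (nat_lit 37371904) (nat_lit 30736384)))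
  false (nat_lit 0)
def b1_5 : Bx := Bx.mk (St.mk (I.neg (nat_lit 26738688) (nat_lit 132612096)) (I.mix (nat_lit 1720320) (nat_lit 95748096)) (I.mix (nat_lit 80510976) (nat_lit 12288000)) (I.pos (nat_lit 264339456) (nat_lit 336756736)) (I.mix (nat_lit 79855616) (nat_lit 88702976)) (I.mix (nat_lit 104202240) (nat_lit 72761344)) (I.mix (nat_lit 70582272) (nat_lit 84557824)))
  true (nat_lit 0)
def t1 : BTr := (BTr.n (BTr.n (BTr.b b1_0) (BTr.n (BTr.b b1_1) (BTr.b b1_2))) (BTr.n (BTr.b b1_3) (BTr.n (BTr.b b1_4) (BTr.b b1_5))))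
namespace T1
def l0 : Tr := Tr.L (Pth.l (Pth.l Pth.z))
def l1 : Tr := Tr.L (Pth.l (Pth.r (Pth.l Pth.z)))
def l2 : Tr := Tr.L (Pth.l (Pth.r (Pth.r Pth.z)))
def l3 : Tr := Tr.L (Pth.r (Pth.l Pth.z))
def l4 : Tr := Tr.L (Pth.r (Pth.r (Pth.l Pth.z)))
def l5 : Tr := Tr.L (Pth.r (Pth.r (Pth.r Pth.z)))
end T1
def b2_0 : Bx := Bx.mk (St.mk (I.pos (nat_lit 160514048) (nat_lit 290242560)) (I.mix (nat_lit 28295168) (nat_lit 56410112)) (I.mix (nat_lit 29540352) (nat_lit 123912192)) (I.pos (nat_lit 142835712) (nat_lit 380485632)) (I.mix (nat_lit 102563840) (nat_lit 76349440)) (I.mix (nat_lit 125878272) (nat_lit 85704704)) (I.mix (nat_lit 195198976) (nat_lit 117129216)))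
  false (nat_lit 22122687)
def b2_1 : Bx := Bx.mk (St.mk (I.pos (nat_lit 103907328) (nat_lit 165920768)) (I.neg (nat_lit 2473984) (nat_lit 73728000)) (I.mix (nat_lit 54558720) (nat_lit 23642112)) (I.pos (nat_lit 103268352) (nat_lit 164675584)) (I.mix (nat_lit 86114304) (nat_lit 50921472)) (I.mix (nat_lit 48562176) (nat_lit 70631424)) (I.mix (nat_lit 43122688) (nat_lit 65716224)))
  false (nat_lit 0)
def b2_2 : Bx := Bx.mk (St.mk (I.mix (nat_lit 28426240) (nat_lit 78364672)) (I.mix (nat_lit 39436288) (nat_lit 5636096)) (I.mix (nat_lit 10403840) (nat_lit 16220160)) (I.pos (nat_lit 38748160) (nat_lit 88915968)) (I.mix (nat_lit 31375360) (nat_lit 32735232)) (I.mix (nat_lit 29835264) (nat_lit 34504704)) (I.mix (nat_lit 14286848) (nat_lit 19136512)))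
  false (nat_lit 0)
def b2_3 : Bx := Bx.mk (St.mk (I.pos (nat_lit 151109632) (nat_lit 212533248)) (I.mix (nat_lit 46137344) (nat_lit 74678272)) (I.mix (nat_lit 21118976) (nat_lit 141066240)) (I.pos (nat_lit 135086080) (nat_lit 230391808)) (I.mix (nat_lit 155713536) (nat_lit 56852480)) (I.mix (nat_lit 187629568) (nat_lit 102006784)) (I.mix (nat_lit 232144896) (nat_lit 106037248)))
  false (nat_lit 30537630)
def b2_4 : Bx := Bx.mk (St.mk (I.mix (nat_lit 35405824) (nat_lit 111951872)) (I.mix (nat_lit 16744448) (nat_lit 49643520)) (I.pos (nat_lit 196608) (nat_lit 42565632)) (I.pos (nat_lit 40845312) (nat_lit 105824256)) (I.mix (nat_lit 66568192) (nat_lit 34963456)) (I.mix (nat_lit 65896448) (nat_lit 47333376)) (I.mix (nat_lit 39059456) (nat_lit 27066368)))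
  false (nat_lit 0)
def b2_5 : Bx := Bx.mk (St.mk (I.mix (nat_lit 45268992) (nat_lit 82968576)) (I.mix (nat_lit 19070976) (nat_lit 13074432)) (I.pos (nat_lit 376832) (nat_lit 19333120)) (I.pos (nat_lit 41025536) (nat_lit 90357760)) (I.mix (nat_lit 25001984) (nat_lit 18989056)) (I.mix (nat_lit 23691264) (nat_lit 20201472)) (I.mix (nat_lit 13172736) (nat_lit 10764288)))
  false (nat_lit 0)
def b2_6 : Bx := Bx.mk (St.mk (I.mix (nat_lit 50806784) (nat_lit 123797504)) (I.mix (nat_lit 10027008) (nat_lit 44253184)) (I.pos (nat_lit 0) (nat_lit 47546368)) (I.pos (nat_lit 34226176) (nat_lit 121389056)) (I.mix (nat_lit 64634880) (nat_lit 51118080)) (I.mix (nat_lit 71516160) (nat_lit 42500096)) (I.mix (nat_lit 53985280) (nat_lit 34684928)))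
  false (nat_lit 0)
def b2_7 : Bx := Bx.mk (St.mk (I.pos (nat_lit 91275264) (nat_lit 154550272)) (I.mix (nat_lit 72876032) (nat_lit 11993088)) (I.mix (nat_lit 46825472) (nat_lit 20135936)) (I.pos (nat_lit 79790080) (nat_lit 149045248)) (I.mix (nat_lit 90816512) (nat_lit 39469056)) (I.mix (nat_lit 63553536) (nat_lit 99401728)) (I.mix (nat_lit 44957696) (nat_lit 73039872)))
  false (nat_lit 0)
def b2_8 : Bx := Bx.mk (St.mk (I.mix (nat_lit 34226176) (nat_lit 76087296)) (I.mix (nat_lit 34373632) (nat_lit 6520832)) (I.mix (nat_lit 6291456) (nat_lit 17137664)) (I.pos (nat_lit 41992192) (nat_lit 83214336)) (I.mix (nat_lit 33816576) (nat_lit 32882688)) (I.mix (nat_lit 28147712) (nat_lit 42811392)) (I.mix (nat_lit 13549568) (nat_lit 16171008)))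
  false (nat_lit 0)
def b2_9 : Bx := Bx.mk (St.mk (I.pos (nat_lit 142934016) (nat_lit 172032000)) (I.neg (nat_lit 409600) (nat_lit 40812544)) (I.mix (nat_lit 12648448) (nat_lit 32849920)) (I.pos (nat_lit 127565824) (nat_lit 172785664)) (I.mix (nat_lit 45842432) (nat_lit 37060608)) (I.mix (nat_lit 37339136) (nat_lit 44154880)) (I.mix (nat_lit 43679744) (nat_lit 41304064)))
  false (nat_lit 0)
def t2 : BTr := (BTr.n (BTr.n (BTr.n (BTr.b b2_0) (BTr.b b2_1)) (BTr.n (BTr.b b2_2) (BTr.n (BTr.b b2_3) (BTr.b b2_4)))) (BTr.n (BTr.n (BTr.b b2_5) (BTr.b b2_6)) (BTr.n (BTr.b b2_7) (BTr.n (BTr.b b2_8) (BTr.b b2_9)))))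
namespace T2
def l0 : Tr := Tr.L (Pth.l (Pth.l (Pth.l Pth.z)))
def l1 : Tr := Tr.L (Pth.l (Pth.l (Pth.r Pth.z)))
def l2 : Tr := Tr.L (Pth.l (Pth.r (Pth.l Pth.z)))
def l3 : Tr := Tr.L (Pth.l (Pth.r (Pth.r (Pth.l Pth.z))))
def l4 : Tr := Tr.L (Pth.l (Pth.r (Pth.r (Pth.r Pth.z))))
def l5 : Tr := Tr.L (Pth.r (Pth.l (Pth.l Pth.z)))
def l6 : Tr := Tr.L (Pth.r (Pth.l (Pth.r Pth.z)))
def l7 : Tr := Tr.L (Pth.r (Pth.r (Pth.l Pth.z)))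
def l8 : Tr := Tr.L (Pth.r (Pth.r (Pth.r (Pth.l Pth.z))))
def l9 : Tr := Tr.L (Pth.r (Pth.r (Pth.r (Pth.r Pth.z))))
end T2
theorem bx0_0 : BoxOK sI cl4 cl7 cl7 t1 t1 b0_0 :=
  box_mk (TrL.c (I.pos (nat_lit 0) (nat_lit 0)) (xa (xb (xa T1.l0 T1.l0) (xa T1.l0 T1.l0)) (xb (xa T1.l0 T1.l3) (xa (xs T1.l0 (xb T1.l0 T1.l0)) T1.l3)))
  (TrL.c (I.pos (nat_lit 0) (nat_lit 0)) (xa T1.l1 (xb T1.l1 T1.l1))
  (TrL.c (I.pos (nat_lit 0) (nat_lit 0)) T1.l2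
  (TrL.c (I.pos (nat_lit 0) (nat_lit 0)) (xa T1.l3 (xb (xa T1.l3 (xb (xs T1.l3 (xc T1.l3 T1.l3)) T1.l3)) (xa T1.l3 (xs T1.l3 (xb T1.l3 (xc T1.l3 T1.l3))))))
  (TrL.c (I.pos (nat_lit 0) (nat_lit 0)) T1.l4
  (TrL.c (I.pos (nat_lit 0) (nat_lit 0)) (xa T1.l5 (xb T1.l5 T1.l5))
  TrL.n)))))) (by decide +kernel)
theorem bx0_1 : BoxOK sI cl4 cl7 cl7 t1 t1 b0_1 :=
  box_mk (TrL.c (I.pos (nat_lit 0) (nat_lit 0)) (xa T1.l0 T1.l0)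
  (TrL.c (I.pos (nat_lit 0) (nat_lit 0)) T1.l1
  (TrL.c (I.pos (nat_lit 0) (nat_lit 0)) T1.l2
  (TrL.c (I.pos (nat_lit 0) (nat_lit 0)) (xa T1.l3 T1.l3)
  (TrL.c (I.pos (nat_lit 0) (nat_lit 0)) T1.l4
  (TrL.c (I.pos (nat_lit 0) (nat_lit 0)) T1.l5
  TrL.n)))))) (by decide +kernel)
theorem bx0_2 : BoxOK sI cl4 cl7 cl7 t1 t1 b0_2 :=
  box_mk (TrL.c (I.pos (nat_lit 0) (nat_lit 0)) T1.l0
  (TrL.c (I.pos (nat_lit 0) (nat_lit 0)) T1.l1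
  (TrL.c (I.pos (nat_lit 0) (nat_lit 0)) T1.l2
  (TrL.c (I.pos (nat_lit 0) (nat_lit 0)) T1.l3
  (TrL.c (I.pos (nat_lit 0) (nat_lit 0)) T1.l4
  (TrL.c (I.pos (nat_lit 0) (nat_lit 0)) T1.l5
  TrL.n)))))) (by decide +kernel)
theorem bx0_3 : BoxOK sI cl4 cl7 cl7 t1 t1 b0_3 :=
  box_mk (TrL.c (I.pos (nat_lit 0) (nat_lit 0)) T1.l0
  (TrL.c (I.pos (nat_lit 0) (nat_lit 0)) T1.l1
  (TrL.c (I.pos (nat_lit 0) (nat_lit 0)) T1.l2
  (TrL.c (I.pos (nat_lit 0) (nat_lit 0)) T1.l3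
  (TrL.c (I.pos (nat_lit 0) (nat_lit 0)) T1.l4
  (TrL.c (I.pos (nat_lit 0) (nat_lit 0)) T1.l5
  TrL.n)))))) (by decide +kernel)
theorem bx0_4 : BoxOK sI cl4 cl7 cl7 t1 t1 b0_4 :=
  box_mk (TrL.c (I.pos (nat_lit 0) (nat_lit 0)) T1.l0
  (TrL.c (I.pos (nat_lit 0) (nat_lit 0)) T1.l1
  (TrL.c (I.pos (nat_lit 0) (nat_lit 0)) T1.l2
  (TrL.c (I.pos (nat_lit 0) (nat_lit 0)) T1.l3
  (TrL.c (I.pos (nat_lit 0) (nat_lit 0)) T1.l4
  (TrL.c (I.pos (nat_lit 0) (nat_lit 0)) T1.l5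
  TrL.n)))))) (by decide +kernel)
theorem bx0_5 : BoxOK sI cl4 cl7 cl7 t1 t1 b0_5 :=
  box_mk (TrL.c (I.pos (nat_lit 0) (nat_lit 0)) (xa T1.l0 T1.l0)
  (TrL.c (I.pos (nat_lit 0) (nat_lit 0)) T1.l1
  (TrL.c (I.pos (nat_lit 0) (nat_lit 0)) T1.l2
  (TrL.c (I.pos (nat_lit 0) (nat_lit 0)) T1.l3
  (TrL.c (I.pos (nat_lit 0) (nat_lit 0)) T1.l4
  (TrL.c (I.pos (nat_lit 0) (nat_lit 0)) T1.l5
  TrL.n)))))) (by decide +kernel)
theorem bx0_6 : BoxOK sI cl4 cl7 cl7 t1 t1 b0_6 :=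
  box_mk (TrL.c (I.pos (nat_lit 0) (nat_lit 0)) (xa (xa (xb T1.l0 T1.l0) T1.l0) T1.l0)
  (TrL.c (I.pos (nat_lit 0) (nat_lit 0)) T1.l1
  (TrL.c (I.pos (nat_lit 0) (nat_lit 0)) T1.l2
  (TrL.c (I.pos (nat_lit 0) (nat_lit 0)) (xa T1.l3 T1.l3)
  (TrL.c (I.pos (nat_lit 0) (nat_lit 0)) T1.l4
  (TrL.c (I.pos (nat_lit 0) (nat_lit 0)) T1.l5
  TrL.n)))))) (by decide +kernel)
theorem bx0_7 : BoxOK sI cl4 cl7 cl7 t1 t1 b0_7 :=
  box_mk (TrL.c (I.pos (nat_lit 0) (nat_lit 0)) (xa (xb (xa (xb T1.l0 T1.l0) T1.l0) (xa (xb T1.l0 T1.l0) T1.l0)) (xb (xa T1.l0 T1.l0) (xa T1.l0 (xb T1.l0 T1.l0))))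
  (TrL.c (I.pos (nat_lit 0) (nat_lit 0)) (xb T1.l1 T1.l1)
  (TrL.c (I.pos (nat_lit 0) (nat_lit 0)) T1.l2
  (TrL.c (I.pos (nat_lit 0) (nat_lit 0)) (xb (xa T1.l3 (xb (xa T1.l3 T1.l3) T1.l3)) (xa T1.l3 (xa T1.l3 (xs T1.l3 (xb T1.l3 T1.l3)))))
  (TrL.c (I.pos (nat_lit 0) (nat_lit 0)) T1.l4
  (TrL.c (I.pos (nat_lit 0) (nat_lit 0)) (xb T1.l5 T1.l5)
  TrL.n)))))) (by decide +kernel)
theorem bx0_8 : BoxOK sI cl4 cl7 cl7 t1 t1 b0_8 :=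
  box_mk (TrL.c (I.pos (nat_lit 0) (nat_lit 0)) (xa (xa (xb (xa (xb T1.l0 T1.l0) T1.l0) T1.l0) T1.l0) T1.l0)
  (TrL.c (I.pos (nat_lit 0) (nat_lit 0)) T1.l1
  (TrL.c (I.pos (nat_lit 0) (nat_lit 0)) T1.l2
  (TrL.c (I.pos (nat_lit 0) (nat_lit 0)) (xa T1.l3 T1.l3)
  (TrL.c (I.pos (nat_lit 0) (nat_lit 0)) T1.l4
  (TrL.c (I.pos (nat_lit 0) (nat_lit 0)) T1.l5
  TrL.n)))))) (by decide +kernel)
theorem bx0_9 : BoxOK sI cl4 cl7 cl7 t1 t1 b0_9 :=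
  box_mk (TrL.c (I.pos (nat_lit 0) (nat_lit 0)) T1.l0
  (TrL.c (I.pos (nat_lit 0) (nat_lit 0)) T1.l1
  (TrL.c (I.pos (nat_lit 0) (nat_lit 0)) T1.l2
  (TrL.c (I.pos (nat_lit 0) (nat_lit 0)) T1.l3
  (TrL.c (I.pos (nat_lit 0) (nat_lit 0)) T1.l4
  (TrL.c (I.pos (nat_lit 0) (nat_lit 0)) T1.l5
  TrL.n)))))) (by decide +kernel)
theorem sv0 : StarV sI cl4 cl7 cl7 t1 t1 t0 :=
  (bt_n (bt_n (bt_n (bt_b bx0_0) (bt_b bx0_1)) (bt_n (bt_b bx0_2) (bt_n (bt_b bx0_3) (bt_b bx0_4)))) (bt_n (bt_n (bt_b bx0_5) (bt_b bx0_6)) (bt_n (bt_b bx0_7) (bt_n (bt_b bx0_8) (bt_b bx0_9)))))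
def S0 : StarD := StarD.mk cl4 cl7 cl7 1 1 t0
theorem bx1_0 : BoxOK sI cl7 cl4 cl7 t0 t2 b1_0 :=
  box_mk (TrL.c (I.pos (nat_lit 0) (nat_lit 0)) (xa (xb (xa T0.l0 T0.l0) (xa T0.l0 T0.l0)) (xb T0.l7 (xa (xs T0.l0 T0.l0) T0.l7)))
  (TrL.c (I.pos (nat_lit 0) (nat_lit 0)) T2.l1
  (TrL.c (I.pos (nat_lit 0) (nat_lit 111196574)) T0.l1
  (TrL.c (I.pos (nat_lit 0) (nat_lit 77433728)) T2.l2
  (TrL.c (I.pos (nat_lit 0) (nat_lit 0)) (xa (xb (xa T2.l3 (xk T2.l3 T2.l3)) T2.l3) (xb (xa (xk (xb T2.l3 T2.l3) T2.l3) (xk (xb (xs T2.l3 T2.l3) T2.l3) (xb (xs T2.l3 T2.l3) T2.l3))) (xa (xk T2.l3 T2.l3) (xk (xs T2.l3 (xb T2.l3 T2.l3)) (xs T2.l3 (xb T2.l3 (xa T2.l3 (xk T2.l3 T2.l3))))))))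
  (TrL.c (I.pos (nat_lit 0) (nat_lit 0)) (xa T0.l2 T0.l2)
  (TrL.c (I.mix (nat_lit 29511666) (nat_lit 77433728)) T2.l4
  (TrL.c (I.mix (nat_lit 29511666) (nat_lit 46070178)) T0.l6
  TrL.n)))))))) (by decide +kernel)
theorem bx1_1 : BoxOK sI cl7 cl4 cl7 t0 t2 b1_1 :=
  box_mk (TrL.c (I.pos (nat_lit 0) (nat_lit 0)) (xa (xb (xa (xs T0.l0 T0.l0) T0.l0) T0.l0) T0.l0)
  (TrL.c (I.pos (nat_lit 0) (nat_lit 0)) T2.l1
  (TrL.c (I.pos (nat_lit 0) (nat_lit 111196574)) T0.l1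
  (TrL.c (I.pos (nat_lit 0) (nat_lit 77433728)) T2.l2
  (TrL.c (I.pos (nat_lit 0) (nat_lit 0)) (xa T2.l3 T2.l3)
  (TrL.c (I.pos (nat_lit 0) (nat_lit 0)) T0.l2
  (TrL.c (I.mix (nat_lit 29511666) (nat_lit 77433728)) T2.l4
  (TrL.c (I.mix (nat_lit 29511666) (nat_lit 46070178)) T0.l1
  TrL.n)))))))) (by decide +kernel)
theorem bx1_2 : BoxOK sI cl7 cl4 cl7 t0 t2 b1_2 :=
  box_mk (TrL.c (I.pos (nat_lit 0) (nat_lit 0)) T2.l9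
  (TrL.c (I.pos (nat_lit 0) (nat_lit 0)) T0.l1
  (TrL.c (I.mix (nat_lit 29511666) (nat_lit 77433728)) T2.l5
  (TrL.c (I.mix (nat_lit 29511666) (nat_lit 46070178)) T0.l1
  TrL.n)))) (by decide +kernel)
theorem bx1_3 : BoxOK sI cl7 cl4 cl7 t0 t2 b1_3 :=
  box_mk (TrL.c (I.pos (nat_lit 0) (nat_lit 0)) (xb (xa (xb T0.l0 T0.l0) T0.l0) (xa (xb T0.l0 (xa T0.l0 T0.l0)) (xa T0.l0 T0.l0)))
  (TrL.c (I.pos (nat_lit 0) (nat_lit 0)) T2.l1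
  (TrL.c (I.pos (nat_lit 0) (nat_lit 111196574)) T0.l1
  (TrL.c (I.pos (nat_lit 0) (nat_lit 77433728)) T2.l2
  (TrL.c (I.pos (nat_lit 0) (nat_lit 0)) (xb T2.l0 T2.l3)
  (TrL.c (I.pos (nat_lit 0) (nat_lit 0)) T0.l2
  (TrL.c (I.mix (nat_lit 29511666) (nat_lit 77433728)) T2.l4
  (TrL.c (I.mix (nat_lit 29511666) (nat_lit 46070178)) T0.l6
  TrL.n)))))))) (by decide +kernel)
theorem bx1_4 : BoxOK sI cl7 cl4 cl7 t0 t2 b1_4 :=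
  box_mk (TrL.c (I.pos (nat_lit 0) (nat_lit 0)) (xb (xa (xs (xa (xb T0.l0 T0.l0) T0.l0) (xb (xa T0.l0 T0.l0) T0.l0)) T0.l0) (xa (xb T0.l0 (xa T0.l0 T0.l0)) T0.l0))
  (TrL.c (I.pos (nat_lit 0) (nat_lit 0)) T2.l9
  (TrL.c (I.pos (nat_lit 0) (nat_lit 111196574)) T0.l1
  (TrL.c (I.pos (nat_lit 0) (nat_lit 77433728)) T2.l4
  (TrL.c (I.pos (nat_lit 0) (nat_lit 0)) T2.l3
  (TrL.c (I.pos (nat_lit 0) (nat_lit 0)) T0.l2
  (TrL.c (I.mix (nat_lit 29511666) (nat_lit 77433728)) T2.l4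
  (TrL.c (I.mix (nat_lit 29511666) (nat_lit 46070178)) T0.l1
  TrL.n)))))))) (by decide +kernel)
theorem bx1_5 : BoxOK sI cl7 cl4 cl7 t0 t2 b1_5 :=
  box_mk (TrL.c (I.pos (nat_lit 0) (nat_lit 0)) T2.l1
  (TrL.c (I.pos (nat_lit 0) (nat_lit 0)) T0.l1
  (TrL.c (I.mix (nat_lit 29511666) (nat_lit 77433728)) T2.l5
  (TrL.c (I.mix (nat_lit 29511666) (nat_lit 46070178)) T0.l4
  TrL.n)))) (by decide +kernel)
theorem sv1 : StarV sI cl7 cl4 cl7 t0 t2 t1 :=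
  (bt_n (bt_n (bt_b bx1_0) (bt_n (bt_b bx1_1) (bt_b bx1_2))) (bt_n (bt_b bx1_3) (bt_n (bt_b bx1_4) (bt_b bx1_5))))
def S1 : StarD := StarD.mk cl7 cl4 cl7 0 2 t1
theorem bx2_0 : BoxOK sI cl7 cl7 cl4 t2 t0 b2_0 :=
  box_mk (TrL.c (I.pos (nat_lit 0) (nat_lit 0)) (xa (xa (xb T2.l0 (xs T2.l0 T2.l0)) (xb T2.l0 (xs T2.l0 T2.l0))) (xa (xb T2.l0 (xs T2.l0 T2.l0)) (xs T2.l0 (xb T2.l3 T2.l3))))
  (TrL.c (I.pos (nat_lit 0) (nat_lit 0)) (xa T0.l5 T0.l5)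
  (TrL.c (I.pos (nat_lit 0) (nat_lit 111196574)) T2.l6
  (TrL.c (I.pos (nat_lit 0) (nat_lit 77433728)) T0.l6
  (TrL.c (I.pos (nat_lit 0) (nat_lit 0)) (xa (xa T0.l7 T0.l7) (xa (xb T0.l7 T0.l7) (xb (xk (xb T0.l7 T0.l7) (xb T0.l7 T0.l7)) (xk (xk (xa T0.l7 T0.l7) (xa T0.l7 T0.l7)) (xk (xa T0.l7 T0.l7) (xa T0.l7 T0.l7))))))
  (TrL.c (I.pos (nat_lit 0) (nat_lit 0)) T2.l7
  (TrL.c (I.mix (nat_lit 29511666) (nat_lit 77433728)) T0.l8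
  (TrL.c (I.mix (nat_lit 29511666) (nat_lit 46070178)) T2.l8
  TrL.n)))))))) (by decide +kernel)
theorem bx2_1 : BoxOK sI cl7 cl7 cl4 t2 t0 b2_1 :=
  box_mk (TrL.c (I.pos (nat_lit 0) (nat_lit 0)) T2.l0
  (TrL.c (I.pos (nat_lit 0) (nat_lit 0)) T0.l5
  (TrL.c (I.pos (nat_lit 0) (nat_lit 111196574)) T2.l6
  (TrL.c (I.pos (nat_lit 0) (nat_lit 77433728)) T0.l6
  (TrL.c (I.pos (nat_lit 0) (nat_lit 0)) T0.l7
  (TrL.c (I.pos (nat_lit 0) (nat_lit 0)) T2.l7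
  (TrL.c (I.mix (nat_lit 29511666) (nat_lit 77433728)) T0.l8
  (TrL.c (I.mix (nat_lit 29511666) (nat_lit 46070178)) T2.l8
  TrL.n)))))))) (by decide +kernel)
theorem bx2_2 : BoxOK sI cl7 cl7 cl4 t2 t0 b2_2 :=
  box_mk (TrL.c (I.pos (nat_lit 0) (nat_lit 0)) (xa (xa (xb T2.l0 T2.l0) T2.l0) T2.l0)
  (TrL.c (I.pos (nat_lit 0) (nat_lit 0)) T0.l5
  (TrL.c (I.pos (nat_lit 0) (nat_lit 111196574)) T2.l6
  (TrL.c (I.pos (nat_lit 0) (nat_lit 77433728)) T0.l6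
  (TrL.c (I.pos (nat_lit 0) (nat_lit 0)) (xa T0.l7 T0.l7)
  (TrL.c (I.pos (nat_lit 0) (nat_lit 0)) T2.l7
  (TrL.c (I.mix (nat_lit 29511666) (nat_lit 77433728)) T0.l8
  (TrL.c (I.mix (nat_lit 29511666) (nat_lit 46070178)) T2.l8
  TrL.n)))))))) (by decide +kernel)
theorem bx2_3 : BoxOK sI cl7 cl7 cl4 t2 t0 b2_3 :=
  box_mk (TrL.c (I.pos (nat_lit 0) (nat_lit 0)) (xb (xa (xb T2.l0 T2.l0) (xs T2.l0 (xb T2.l0 T2.l0))) (xa (xs (xa T2.l0 T2.l0) (xb T2.l0 (xa (xs T2.l0 T2.l0) (xs T2.l0 T2.l0)))) (xs (xa T2.l0 T2.l0) (xb T2.l0 (xa T2.l0 T2.l0)))))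
  (TrL.c (I.pos (nat_lit 0) (nat_lit 0)) T0.l5
  (TrL.c (I.pos (nat_lit 0) (nat_lit 111196574)) T2.l6
  (TrL.c (I.pos (nat_lit 0) (nat_lit 77433728)) T0.l6
  (TrL.c (I.pos (nat_lit 0) (nat_lit 0)) (xb (xa (xk T0.l7 T0.l7) (xk T0.l7 T0.l7)) (xa T0.l7 (xk T0.l7 T0.l7)))
  (TrL.c (I.pos (nat_lit 0) (nat_lit 0)) T2.l7
  (TrL.c (I.mix (nat_lit 29511666) (nat_lit 77433728)) T0.l8
  (TrL.c (I.mix (nat_lit 29511666) (nat_lit 46070178)) T2.l8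
  TrL.n)))))))) (by decide +kernel)
theorem bx2_4 : BoxOK sI cl7 cl7 cl4 t2 t0 b2_4 :=
  box_mk (TrL.c (I.pos (nat_lit 0) (nat_lit 0)) (xa (xa T2.l0 T2.l0) (xa T2.l0 T2.l0))
  (TrL.c (I.pos (nat_lit 0) (nat_lit 0)) (xa T0.l5 T0.l5)
  (TrL.c (I.pos (nat_lit 0) (nat_lit 111196574)) T2.l6
  (TrL.c (I.pos (nat_lit 0) (nat_lit 77433728)) T0.l6
  (TrL.c (I.pos (nat_lit 0) (nat_lit 0)) (xa T0.l5 T0.l7)
  (TrL.c (I.pos (nat_lit 0) (nat_lit 0)) T2.l7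
  (TrL.c (I.mix (nat_lit 29511666) (nat_lit 77433728)) T0.l8
  (TrL.c (I.mix (nat_lit 29511666) (nat_lit 46070178)) T2.l4
  TrL.n)))))))) (by decide +kernel)
theorem bx2_5 : BoxOK sI cl7 cl7 cl4 t2 t0 b2_5 :=
  box_mk (TrL.c (I.pos (nat_lit 0) (nat_lit 0)) (xa (xa T2.l0 T2.l0) T2.l0)
  (TrL.c (I.pos (nat_lit 0) (nat_lit 0)) T0.l5
  (TrL.c (I.pos (nat_lit 0) (nat_lit 111196574)) T2.l6
  (TrL.c (I.pos (nat_lit 0) (nat_lit 77433728)) T0.l6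
  (TrL.c (I.pos (nat_lit 0) (nat_lit 0)) (xa T0.l5 T0.l7)
  (TrL.c (I.pos (nat_lit 0) (nat_lit 0)) T2.l7
  (TrL.c (I.mix (nat_lit 29511666) (nat_lit 77433728)) T0.l8
  (TrL.c (I.mix (nat_lit 29511666) (nat_lit 46070178)) T2.l8
  TrL.n)))))))) (by decide +kernel)
theorem bx2_6 : BoxOK sI cl7 cl7 cl4 t2 t0 b2_6 :=
  box_mk (TrL.c (I.pos (nat_lit 0) (nat_lit 0)) (xa (xa (xb T2.l0 (xa T2.l0 T2.l0)) T2.l0) (xa T2.l0 T2.l0))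
  (TrL.c (I.pos (nat_lit 0) (nat_lit 0)) (xa (xa T0.l7 T0.l5) T0.l5)
  (TrL.c (I.pos (nat_lit 0) (nat_lit 111196574)) T2.l6
  (TrL.c (I.pos (nat_lit 0) (nat_lit 77433728)) T0.l6
  (TrL.c (I.pos (nat_lit 0) (nat_lit 0)) (xa T0.l5 T0.l7)
  (TrL.c (I.pos (nat_lit 0) (nat_lit 0)) T2.l7
  (TrL.c (I.mix (nat_lit 29511666) (nat_lit 77433728)) T0.l8
  (TrL.c (I.mix (nat_lit 29511666) (nat_lit 46070178)) T2.l4
  TrL.n)))))))) (by decide +kernel)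
theorem bx2_7 : BoxOK sI cl7 cl7 cl4 t2 t0 b2_7 :=
  box_mk (TrL.c (I.pos (nat_lit 0) (nat_lit 0)) T2.l0
  (TrL.c (I.pos (nat_lit 0) (nat_lit 0)) T0.l5
  (TrL.c (I.pos (nat_lit 0) (nat_lit 111196574)) T2.l6
  (TrL.c (I.pos (nat_lit 0) (nat_lit 77433728)) T0.l6
  (TrL.c (I.pos (nat_lit 0) (nat_lit 0)) T0.l7
  (TrL.c (I.pos (nat_lit 0) (nat_lit 0)) T2.l7
  (TrL.c (I.mix (nat_lit 29511666) (nat_lit 77433728)) T0.l8
  (TrL.c (I.mix (nat_lit 29511666) (nat_lit 46070178)) T2.l8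
  TrL.n)))))))) (by decide +kernel)
theorem bx2_8 : BoxOK sI cl7 cl7 cl4 t2 t0 b2_8 :=
  box_mk (TrL.c (I.pos (nat_lit 0) (nat_lit 0)) (xa (xa (xb T2.l0 T2.l0) T2.l0) T2.l0)
  (TrL.c (I.pos (nat_lit 0) (nat_lit 0)) T0.l5
  (TrL.c (I.pos (nat_lit 0) (nat_lit 111196574)) T2.l6
  (TrL.c (I.pos (nat_lit 0) (nat_lit 77433728)) T0.l6
  (TrL.c (I.pos (nat_lit 0) (nat_lit 0)) (xa T0.l5 T0.l7)
  (TrL.c (I.pos (nat_lit 0) (nat_lit 0)) T2.l7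
  (TrL.c (I.mix (nat_lit 29511666) (nat_lit 77433728)) T0.l8
  (TrL.c (I.mix (nat_lit 29511666) (nat_lit 46070178)) T2.l8
  TrL.n)))))))) (by decide +kernel)
theorem bx2_9 : BoxOK sI cl7 cl7 cl4 t2 t0 b2_9 :=
  box_mk (TrL.c (I.pos (nat_lit 0) (nat_lit 0)) T2.l0
  (TrL.c (I.pos (nat_lit 0) (nat_lit 0)) T0.l5
  (TrL.c (I.pos (nat_lit 0) (nat_lit 111196574)) T2.l6
  (TrL.c (I.pos (nat_lit 0) (nat_lit 77433728)) T0.l6
  (TrL.c (I.pos (nat_lit 0) (nat_lit 0)) T0.l7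
  (TrL.c (I.pos (nat_lit 0) (nat_lit 0)) T2.l7
  (TrL.c (I.mix (nat_lit 29511666) (nat_lit 77433728)) T0.l8
  (TrL.c (I.mix (nat_lit 29511666) (nat_lit 46070178)) T2.l8
  TrL.n)))))))) (by decide +kernel)
theorem sv2 : StarV sI cl7 cl7 cl4 t2 t0 t2 :=
  (bt_n (bt_n (bt_n (bt_b bx2_0) (bt_b bx2_1)) (bt_n (bt_b bx2_2) (bt_n (bt_b bx2_3) (bt_b bx2_4)))) (bt_n (bt_n (bt_b bx2_5) (bt_b bx2_6)) (bt_n (bt_b bx2_7) (bt_n (bt_b bx2_8) (bt_b bx2_9)))))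
def S2 : StarD := StarD.mk cl7 cl7 cl4 2 0 t2
def G : List StarD := [S0, S1, S2]
theorem so0 : StarOK sI G S0 :=
  star_mk (by decide) (by decide) rfl rfl rfl rfl rfl rfl (rfl : _ = t1) (rfl : _ = t1)
  (st_mk (Pth.l (Pth.l (Pth.l Pth.z))) (nat_lit 145260544) (nat_lit 167398553) (by decide +kernel))
  (st_mk (Pth.l (Pth.l (Pth.l Pth.z))) (nat_lit 180237912) (nat_lit 205274162) (by decide +kernel))
  (st_mk (Pth.l (Pth.l (Pth.l Pth.z))) (nat_lit 223318141) (nat_lit 249830409) (by decide +kernel)) sv0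
theorem so1 : StarOK sI G S1 :=
  star_mk (by decide) (by decide) rfl rfl rfl rfl rfl rfl (rfl : _ = t0) (rfl : _ = t2)
  (st_mk (Pth.l (Pth.l Pth.z)) (nat_lit 367989706) (nat_lit 372751958) (by decide +kernel))
  (st_mk (Pth.l (Pth.l Pth.z)) (nat_lit 403641877) (nat_lit 409055447) (by decide +kernel))
  (st_mk (Pth.l (Pth.l Pth.z)) (nat_lit 444867742) (nat_lit 451114397) (by decide +kernel)) sv1
theorem so2 : StarOK sI G S2 :=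
  star_mk (by decide) (by decide) rfl rfl rfl rfl rfl rfl (rfl : _ = t2) (rfl : _ = t0)
  (st_mk (Pth.l (Pth.l (Pth.l Pth.z))) (nat_lit 142835712) (nat_lit 163733644) (by decide +kernel))
  (st_mk (Pth.l (Pth.l (Pth.l Pth.z))) (nat_lit 176424217) (nat_lit 199694988) (by decide +kernel))
  (st_mk (Pth.l (Pth.l (Pth.l Pth.z))) (nat_lit 217472670) (nat_lit 241465522) (by decide +kernel)) sv2
theorem ok : GroupOK (nat_lit 0) (nat_lit 91291648) G := grp_mk (allS_c so0 (allS_c so1 (allS_c so2 allS_n)))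
theorem cov : GCov G cl4 cl7 cl7 := cov_mk
  ⟨0, by decide, rfl, rfl, rfl⟩ ⟨0, by decide, rfl, rfl, rfl⟩ ⟨1, by decide, rfl, rfl, rfl⟩ ⟨2, by decide, rfl, rfl, rfl⟩ ⟨1, by decide, rfl, rfl, rfl⟩ ⟨2, by decide, rfl, rfl, rfl⟩
end Q144_0

namespace Q144_1
def sI : I := I.pos (nat_lit 91226112) (nat_lit 150339584)
def b0_0 : Bx := Bx.mk (St.mk (I.pos (nat_lit 159367168) (nat_lit 238305280)) (I.mix (nat_lit 278528) (nat_lit 71712768)) (I.mix (nat_lit 1359872) (nat_lit 79806464)) (I.pos (nat_lit 146505728) (nat_lit 282492928)) (I.mix (nat_lit 134381568) (nat_lit 94191616)) (I.mix (nat_lit 104054784) (nat_lit 94240768)) (I.mix (nat_lit 157155328) (nat_lit 130908160)))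
  false (nat_lit 23468720)
def b0_1 : Bx := Bx.mk (St.mk (I.mix (nat_lit 21463040) (nat_lit 112803840)) (I.mix (nat_lit 8028160) (nat_lit 35241984)) (I.mix (nat_lit 26312704) (nat_lit 8159232)) (I.pos (nat_lit 40878080) (nat_lit 112017408)) (I.mix (nat_lit 42860544) (nat_lit 56573952)) (I.mix (nat_lit 55476224) (nat_lit 39829504)) (I.mix (nat_lit 40681472) (nat_lit 27623424)))
  false (nat_lit 0)
def b0_2 : Bx := Bx.mk (St.mk (I.pos (nat_lit 93241344) (nat_lit 139018240)) (I.mix (nat_lit 57622528) (nat_lit 10305536)) (I.neg (nat_lit 8765440) (nat_lit 71827456)) (I.pos (nat_lit 79314944) (nat_lit 135380992)) (I.mix (nat_lit 106938368) (nat_lit 47300608)) (I.mix (nat_lit 54722560) (nat_lit 105545728)) (I.mix (nat_lit 39665664) (nat_lit 82821120)))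
  false (nat_lit 0)
def b0_3 : Bx := Bx.mk (St.mk (I.mix (nat_lit 29917184) (nat_lit 64602112)) (I.mix (nat_lit 29179904) (nat_lit 1818624)) (I.neg (nat_lit 3440640) (nat_lit 25329664)) (I.pos (nat_lit 42647552) (nat_lit 79822848)) (I.mix (nat_lit 40370176) (nat_lit 21676032)) (I.mix (nat_lit 20578304) (nat_lit 41074688)) (I.mix (nat_lit 9289728) (nat_lit 17006592)))
  false (nat_lit 0)
def b0_4 : Bx := Bx.mk (St.mk (I.pos (nat_lit 185516032) (nat_lit 253018112)) (I.mix (nat_lit 20463616) (nat_lit 69730304)) (I.mix (nat_lit 89374720) (nat_lit 74547200)) (I.pos (nat_lit 216317952) (nat_lit 308723712)) (I.mix (nat_lit 127926272) (nat_lit 113311744)) (I.mix (nat_lit 134660096) (nat_lit 107085824)) (I.mix (nat_lit 220168192) (nat_lit 187367424)))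
  false (nat_lit 64409798)
def b0_5 : Bx := Bx.mk (St.mk (I.pos (nat_lit 88260608) (nat_lit 112033792)) (I.mix (nat_lit 10813440) (nat_lit 9175040)) (I.neg (nat_lit 7716864) (nat_lit 29032448)) (I.pos (nat_lit 76627968) (nat_lit 111476736)) (I.mix (nat_lit 37142528) (nat_lit 25788416)) (I.mix (nat_lit 28426240) (nat_lit 29294592)) (I.mix (nat_lit 20905984) (nat_lit 24674304)))
  false (nat_lit 0)
def b0_6 : Bx := Bx.mk (St.mk (I.mix (nat_lit 40189952) (nat_lit 52510720)) (I.mix (nat_lit 7241728) (nat_lit 9437184)) (I.neg (nat_lit 5685248) (nat_lit 16154624)) (I.pos (nat_lit 43352064) (nat_lit 73498624)) (I.mix (nat_lit 22102016) (nat_lit 18513920)) (I.mix (nat_lit 19939328) (nat_lit 19300352)) (I.mix (nat_lit 7290880) (nat_lit 8142848)))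
  false (nat_lit 0)
def b0_7 : Bx := Bx.mk (St.mk (I.pos (nat_lit 216285184) (nat_lit 260521984)) (I.mix (nat_lit 19234816) (nat_lit 21069824)) (I.neg (nat_lit 15941632) (nat_lit 93945856)) (I.pos (nat_lit 245563392) (nat_lit 329973760)) (I.mix (nat_lit 83361792) (nat_lit 32882688)) (I.mix (nat_lit 50184192) (nat_lit 58195968)) (I.mix (nat_lit 80773120) (nat_lit 113688576)))
  false (nat_lit 0)
def b0_8 : Bx := Bx.mk (St.mk (I.pos (nat_lit 83050496) (nat_lit 171950080)) (I.mix (nat_lit 63143936) (nat_lit 6340608)) (I.neg (nat_lit 10616832) (nat_lit 80642048)) (I.pos (nat_lit 87801856) (nat_lit 177750016)) (I.mix (nat_lit 105775104) (nat_lit 66224128)) (I.mix (nat_lit 69632000) (nat_lit 95617024)) (I.mix (nat_lit 54378496) (nat_lit 93650944)))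
  false (nat_lit 18238299)
def b0_9 : Bx := Bx.mk (St.mk (I.mix (nat_lit 28049408) (nat_lit 82296832)) (I.mix (nat_lit 34095104) (nat_lit 6045696)) (I.neg (nat_lit 3227648) (nat_lit 30720000)) (I.pos (nat_lit 40648704) (nat_lit 89866240)) (I.mix (nat_lit 46088192) (nat_lit 36601856)) (I.mix (nat_lit 32489472) (nat_lit 48005120)) (I.mix (nat_lit 18169856) (nat_lit 26853376)))
  false (nat_lit 0)
def b0_10 : Bx := Bx.mk (St.mk (I.pos (nat_lit 163053568) (nat_lit 222904320)) (I.mix (nat_lit 14139392) (nat_lit 67829760)) (I.mix (nat_lit 21463040) (nat_lit 77185024)) (I.pos (nat_lit 158351360) (nat_lit 253493248)) (I.mix (nat_lit 153042944) (nat_lit 70483968)) (I.mix (nat_lit 175472640) (nat_lit 107642880)) (I.mix (nat_lit 180027392) (nat_lit 111214592)))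
  false (nat_lit 11286503)
def b0_11 : Bx := Bx.mk (St.mk (I.mix (nat_lit 34324480) (nat_lit 113672192)) (I.mix (nat_lit 14286848) (nat_lit 39567360)) (I.mix (nat_lit 20447232) (nat_lit 13565952)) (I.pos (nat_lit 41664512) (nat_lit 109871104)) (I.mix (nat_lit 54067200) (nat_lit 46645248)) (I.mix (nat_lit 63275008) (nat_lit 44859392)) (I.mix (nat_lit 33505280) (nat_lit 24510464)))
  false (nat_lit 0)
def b0_12 : Bx := Bx.mk (St.mk (I.pos (nat_lit 134053888) (nat_lit 207536128)) (I.mix (nat_lit 45547520) (nat_lit 16171008)) (I.mix (nat_lit 67829760) (nat_lit 8208384)) (I.pos (nat_lit 124502016) (nat_lit 222724096)) (I.mix (nat_lit 88047616) (nat_lit 78249984)) (I.mix (nat_lit 94502912) (nat_lit 92143616)) (I.mix (nat_lit 95879168) (nat_lit 89456640)))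
  false (nat_lit 0)
def b0_13 : Bx := Bx.mk (St.mk (I.pos (nat_lit 163364864) (nat_lit 212828160)) (I.mix (nat_lit 25460736) (nat_lit 42024960)) (I.mix (nat_lit 39534592) (nat_lit 45580288)) (I.pos (nat_lit 158089216) (nat_lit 231866368)) (I.mix (nat_lit 134086656) (nat_lit 101842944)) (I.mix (nat_lit 168443904) (nat_lit 113000448)) (I.mix (nat_lit 179404800) (nat_lit 109477888)))
  false (nat_lit 0)
def t0 : BTr := (BTr.n (BTr.n (BTr.n (BTr.b b0_0) (BTr.n (BTr.b b0_1) (BTr.b b0_2))) (BTr.n (BTr.n (BTr.b b0_3) (BTr.b b0_4)) (BTr.n (BTr.b b0_5) (BTr.b b0_6)))) (BTr.n (BTr.n (BTr.b b0_7) (BTr.n (BTr.b b0_8) (BTr.b b0_9))) (BTr.n (BTr.n (BTr.b b0_10) (BTr.b b0_11)) (BTr.n (BTr.b b0_12) (BTr.b b0_13)))))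
namespace T0
def l0 : Tr := Tr.L (Pth.l (Pth.l (Pth.l Pth.z)))
def l1 : Tr := Tr.L (Pth.l (Pth.l (Pth.r (Pth.l Pth.z))))
def l2 : Tr := Tr.L (Pth.l (Pth.l (Pth.r (Pth.r Pth.z))))
def l3 : Tr := Tr.L (Pth.l (Pth.r (Pth.l (Pth.l Pth.z))))
def l4 : Tr := Tr.L (Pth.l (Pth.r (Pth.l (Pth.r Pth.z))))
def l5 : Tr := Tr.L (Pth.l (Pth.r (Pth.r (Pth.l Pth.z))))
def l6 : Tr := Tr.L (Pth.l (Pth.r (Pth.r (Pth.r Pth.z))))
def l7 : Tr := Tr.L (Pth.r (Pth.l (Pth.l Pth.z)))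
def l8 : Tr := Tr.L (Pth.r (Pth.l (Pth.r (Pth.l Pth.z))))
def l9 : Tr := Tr.L (Pth.r (Pth.l (Pth.r (Pth.r Pth.z))))
def l10 : Tr := Tr.L (Pth.r (Pth.r (Pth.l (Pth.l Pth.z))))
def l11 : Tr := Tr.L (Pth.r (Pth.r (Pth.l (Pth.r Pth.z))))
def l12 : Tr := Tr.L (Pth.r (Pth.r (Pth.r (Pth.l Pth.z))))
def l13 : Tr := Tr.L (Pth.r (Pth.r (Pth.r (Pth.r Pth.z))))
end T0
def b1_0 : Bx := Bx.mk (St.mk (I.pos (nat_lit 133169152) (nat_lit 217759744)) (I.mix (nat_lit 278528) (nat_lit 104759296)) (I.mix (nat_lit 278528) (nat_lit 113803264)) (I.pos (nat_lit 367919104) (nat_lit 453312512)) (I.mix (nat_lit 189775872) (nat_lit 116604928)) (I.mix (nat_lit 141672448) (nat_lit 120373248)) (I.mix (nat_lit 160481280) (nat_lit 156434432)))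
  false (nat_lit 166719282)
def b1_1 : Bx := Bx.mk (St.mk (I.pos (nat_lit 19922944) (nat_lit 126042112)) (I.neg (nat_lit 1785856) (nat_lit 99827712)) (I.mix (nat_lit 83345408) (nat_lit 8732672)) (I.pos (nat_lit 264044544) (nat_lit 337870848)) (I.mix (nat_lit 148307968) (nat_lit 96550912)) (I.mix (nat_lit 105250816) (nat_lit 118276096)) (I.mix (nat_lit 101122048) (nat_lit 96337920)))
  false (nat_lit 134749418)
def b1_2 : Bx := Bx.mk (St.mk (I.mix (nat_lit 58966016) (nat_lit 15925248)) (I.mix (nat_lit 15663104) (nat_lit 93224960)) (I.neg (nat_lit 37371904) (nat_lit 65323008)) (I.pos (nat_lit 264847360) (nat_lit 292929536)) (I.mix (nat_lit 67747840) (nat_lit 116916224)) (I.mix (nat_lit 115048448) (nat_lit 88195072)) (I.mix (nat_lit 48300032) (nat_lit 39649280)))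
  true (nat_lit 0)
def b1_3 : Bx := Bx.mk (St.mk (I.pos (nat_lit 88637440) (nat_lit 191922176)) (I.mix (nat_lit 44384256) (nat_lit 96632832)) (I.mix (nat_lit 34848768) (nat_lit 111820800)) (I.pos (nat_lit 301924352) (nat_lit 421806080)) (I.mix (nat_lit 193511424) (nat_lit 104628224)) (I.mix (nat_lit 197902336) (nat_lit 144949248)) (I.mix (nat_lit 193462272) (nat_lit 167641088)))
  false (nat_lit 80776202)
def b1_4 : Bx := Bx.mk (St.mk (I.pos (nat_lit 15876096) (nat_lit 56098816)) (I.neg (nat_lit 32145408) (nat_lit 87457792)) (I.neg (nat_lit 39632896) (nat_lit 64536576)) (I.pos (nat_lit 269582336) (nat_lit 291438592)) (I.mix (nat_lit 114491392) (nat_lit 45940736)) (I.mix (nat_lit 72630272) (nat_lit 93601792)) (I.mix (nat_lit 39305216) (nat_lit 27344896)))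
  false (nat_lit 52938804)
def b1_5 : Bx := Bx.mk (St.mk (I.neg (nat_lit 19922944) (nat_lit 126042112)) (I.pos (nat_lit 1769472) (nat_lit 99827712)) (I.mix (nat_lit 83361792) (nat_lit 8765440)) (I.pos (nat_lit 264044544) (nat_lit 337887232)) (I.mix (nat_lit 96567296) (nat_lit 148324352)) (I.mix (nat_lit 118276096) (nat_lit 105267200)) (I.mix (nat_lit 101138432) (nat_lit 96337920)))
  true (nat_lit 12963566)
def b1_6 : Bx := Bx.mk (St.mk (I.pos (nat_lit 172736512) (nat_lit 290816000)) (I.mix (nat_lit 33193984) (nat_lit 65847296)) (I.mix (nat_lit 160464896) (nat_lit 46645248)) (I.pos (nat_lit 403767296) (nat_lit 586285056)) (I.mix (nat_lit 111902720) (nat_lit 87556096)) (I.mix (nat_lit 96862208) (nat_lit 85426176)) (I.mix (nat_lit 165953536) (nat_lit 136200192)))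
  false (nat_lit 125163331)
def b1_7 : Bx := Bx.mk (St.mk (I.mix (nat_lit 15925248) (nat_lit 45531136)) (I.mix (nat_lit 50266112) (nat_lit 15663104)) (I.neg (nat_lit 37371904) (nat_lit 53592064)) (I.pos (nat_lit 265076736) (nat_lit 280412160)) (I.mix (nat_lit 59932672) (nat_lit 54181888)) (I.mix (nat_lit 53280768) (nat_lit 54378496)) (I.mix (nat_lit 15679488) (nat_lit 17874944)))
  false (nat_lit 0)
def b1_8 : Bx := Bx.mk (St.mk (I.pos (nat_lit 149585920) (nat_lit 222380032)) (I.pos (nat_lit 15597568) (nat_lit 99745792)) (I.mix (nat_lit 19283968) (nat_lit 104415232)) (I.pos (nat_lit 387203072) (nat_lit 451198976)) (I.mix (nat_lit 153567232) (nat_lit 126582784)) (I.mix (nat_lit 145244160) (nat_lit 103104512)) (I.mix (nat_lit 209010688) (nat_lit 145653760)))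
  false (nat_lit 90171713)
def b1_9 : Bx := Bx.mk (St.mk (I.pos (nat_lit 17399808) (nat_lit 50921472)) (I.neg (nat_lit 18579456) (nat_lit 81543168)) (I.neg (nat_lit 38944768) (nat_lit 63356928)) (I.pos (nat_lit 268812288) (nat_lit 287440896)) (I.mix (nat_lit 115343360) (nat_lit 56573952)) (I.mix (nat_lit 64667648) (nat_lit 115064832)) (I.mix (nat_lit 32931840) (nat_lit 31211520)))
  false (nat_lit 46562570)
def t1 : BTr := (BTr.n (BTr.n (BTr.n (BTr.b b1_0) (BTr.b b1_1)) (BTr.n (BTr.b b1_2) (BTr.n (BTr.b b1_3) (BTr.b b1_4)))) (BTr.n (BTr.n (BTr.b b1_5) (BTr.b b1_6)) (BTr.n (BTr.b b1_7) (BTr.n (BTr.b b1_8) (BTr.b b1_9)))))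
namespace T1
def l0 : Tr := Tr.L (Pth.l (Pth.l (Pth.l Pth.z)))
def l1 : Tr := Tr.L (Pth.l (Pth.l (Pth.r Pth.z)))
def l2 : Tr := Tr.L (Pth.l (Pth.r (Pth.l Pth.z)))
def l3 : Tr := Tr.L (Pth.l (Pth.r (Pth.r (Pth.l Pth.z))))
def l4 : Tr := Tr.L (Pth.l (Pth.r (Pth.r (Pth.r Pth.z))))
def l5 : Tr := Tr.L (Pth.r (Pth.l (Pth.l Pth.z)))
def l6 : Tr := Tr.L (Pth.r (Pth.l (Pth.r Pth.z)))
def l7 : Tr := Tr.L (Pth.r (Pth.r (Pth.l Pth.z)))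
def l8 : Tr := Tr.L (Pth.r (Pth.r (Pth.r (Pth.l Pth.z))))
def l9 : Tr := Tr.L (Pth.r (Pth.r (Pth.r (Pth.r Pth.z))))
end T1
def b2_0 : Bx := Bx.mk (St.mk (I.pos (nat_lit 147259392) (nat_lit 234307584)) (I.mix (nat_lit 278528) (nat_lit 56688640)) (I.mix (nat_lit 278528) (nat_lit 123469824)) (I.pos (nat_lit 143179776) (nat_lit 256442368)) (I.mix (nat_lit 144736256) (nat_lit 91013120)) (I.mix (nat_lit 130580480) (nat_lit 104153088)) (I.mix (nat_lit 180043776) (nat_lit 131809280)))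
  false (nat_lit 20800783)
def b2_1 : Bx := Bx.mk (St.mk (I.pos (nat_lit 102006784) (nat_lit 166936576)) (I.neg (nat_lit 1703936) (nat_lit 65355776)) (I.mix (nat_lit 45350912) (nat_lit 24608768)) (I.pos (nat_lit 102400000) (nat_lit 163971072)) (I.mix (nat_lit 94846976) (nat_lit 76218368)) (I.mix (nat_lit 68845568) (nat_lit 92520448)) (I.mix (nat_lit 61947904) (nat_lit 87162880)))
  false (nat_lit 85476263)
def b2_2 : Bx := Bx.mk (St.mk (I.mix (nat_lit 19136512) (nat_lit 80035840)) (I.mix (nat_lit 33456128) (nat_lit 4423680)) (I.mix (nat_lit 7602176) (nat_lit 15990784)) (I.pos (nat_lit 41910272) (nat_lit 87916544)) (I.mix (nat_lit 32636928) (nat_lit 43761664)) (I.mix (nat_lit 30425088) (nat_lit 42008576)) (I.mix (nat_lit 14270464) (nat_lit 22790144)))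
  false (nat_lit 0)
def b2_3 : Bx := Bx.mk (St.mk (I.pos (nat_lit 156434432) (nat_lit 210403328)) (I.mix (nat_lit 15499264) (nat_lit 60211200)) (I.pos (nat_lit 19693568) (nat_lit 120455168)) (I.pos (nat_lit 138526720) (nat_lit 223232000)) (I.mix (nat_lit 161644544) (nat_lit 63766528)) (I.mix (nat_lit 179601408) (nat_lit 93995008)) (I.mix (nat_lit 202276864) (nat_lit 83623936)))
  false (nat_lit 44131164)
def b2_4 : Bx := Bx.mk (St.mk (I.mix (nat_lit 31735808) (nat_lit 103383040)) (I.mix (nat_lit 12910592) (nat_lit 39174144)) (I.pos (nat_lit 1015808) (nat_lit 39518208)) (I.pos (nat_lit 42156032) (nat_lit 103727104)) (I.mix (nat_lit 67796992) (nat_lit 37994496)) (I.mix (nat_lit 68730880) (nat_lit 39780352)) (I.mix (nat_lit 39305216) (nat_lit 23461888)))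
  false (nat_lit 0)
def b2_5 : Bx := Bx.mk (St.mk (I.pos (nat_lit 151289856) (nat_lit 204718080)) (I.mix (nat_lit 45580288) (nat_lit 34717696)) (I.mix (nat_lit 16613376) (nat_lit 86982656)) (I.pos (nat_lit 133513216) (nat_lit 211877888)) (I.mix (nat_lit 153862144) (nat_lit 91406336)) (I.mix (nat_lit 176504832) (nat_lit 103596032)) (I.mix (nat_lit 194330624) (nat_lit 98811904)))
  false (nat_lit 62028279)
def b2_6 : Bx := Bx.mk (St.mk (I.pos (nat_lit 139608064) (nat_lit 171524096)) (I.neg (nat_lit 1032192) (nat_lit 38699008)) (I.mix (nat_lit 10600448) (nat_lit 31768576)) (I.pos (nat_lit 124878848) (nat_lit 171278336)) (I.mix (nat_lit 60424192) (nat_lit 47562752)) (I.mix (nat_lit 44318720) (nat_lit 54509568)) (I.mix (nat_lit 50364416) (nat_lit 50233344)))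
  false (nat_lit 3073867)
def b2_7 : Bx := Bx.mk (St.mk (I.mix (nat_lit 41074688) (nat_lit 84967424)) (I.mix (nat_lit 17432576) (nat_lit 8224768)) (I.pos (nat_lit 868352) (nat_lit 17809408)) (I.pos (nat_lit 42909696) (nat_lit 88096768)) (I.mix (nat_lit 31211520) (nat_lit 24952832)) (I.mix (nat_lit 26066944) (nat_lit 28360704)) (I.mix (nat_lit 14450688) (nat_lit 13991936)))
  false (nat_lit 0)
def b2_8 : Bx := Bx.mk (St.mk (I.pos (nat_lit 153108480) (nat_lit 180125696)) (I.neg (nat_lit 9961472) (nat_lit 35323904)) (I.mix (nat_lit 8437760) (nat_lit 22970368)) (I.pos (nat_lit 140083200) (nat_lit 183107584)) (I.mix (nat_lit 29097984) (nat_lit 30900224)) (I.mix (nat_lit 29507584) (nat_lit 22511616)) (I.mix (nat_lit 28737536) (nat_lit 23658496)))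
  false (nat_lit 0)
def b2_9 : Bx := Bx.mk (St.mk (I.mix (nat_lit 30621696) (nat_lit 117850112)) (I.mix (nat_lit 9338880) (nat_lit 32473088)) (I.pos (nat_lit 573440) (nat_lit 35274752)) (I.pos (nat_lit 39387136) (nat_lit 115408896)) (I.mix (nat_lit 54181888) (nat_lit 46317568)) (I.mix (nat_lit 59555840) (nat_lit 41304064)) (I.mix (nat_lit 43106304) (nat_lit 29589504)))
  false (nat_lit 0)
def b2_10 : Bx := Bx.mk (St.mk (I.pos (nat_lit 93536256) (nat_lit 153387008)) (I.mix (nat_lit 67895296) (nat_lit 10092544)) (I.mix (nat_lit 43253760) (nat_lit 19185664)) (I.pos (nat_lit 80543744) (nat_lit 149520384)) (I.mix (nat_lit 92258304) (nat_lit 53690368)) (I.mix (nat_lit 55279616) (nat_lit 92258304)) (I.mix (nat_lit 40124416) (nat_lit 66846720)))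
  false (nat_lit 55533899)
def b2_11 : Bx := Bx.mk (St.mk (I.mix (nat_lit 33390592) (nat_lit 72859648)) (I.mix (nat_lit 31571968) (nat_lit 5390336)) (I.mix (nat_lit 5472256) (nat_lit 12779520)) (I.pos (nat_lit 42237952) (nat_lit 82853888)) (I.mix (nat_lit 34258944) (nat_lit 27574272)) (I.mix (nat_lit 26427392) (nat_lit 38977536)) (I.mix (nat_lit 10338304) (nat_lit 14221312)))
  false (nat_lit 0)
def b2_12 : Bx := Bx.mk (St.mk (I.pos (nat_lit 187269120) (nat_lit 283623424)) (I.mix (nat_lit 27492352) (nat_lit 41664512)) (I.mix (nat_lit 24838144) (nat_lit 105529344)) (I.pos (nat_lit 200982528) (nat_lit 367345664)) (I.mix (nat_lit 106332160) (nat_lit 71008256)) (I.mix (nat_lit 86016000) (nat_lit 64274432)) (I.mix (nat_lit 137936896) (nat_lit 102531072)))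
  false (nat_lit 66225690)
def b2_13 : Bx := Bx.mk (St.mk (I.pos (nat_lit 169246720) (nat_lit 231800832)) (I.pos (nat_lit 4915200) (nat_lit 56672256)) (I.pos (nat_lit 33062912) (nat_lit 124076032)) (I.pos (nat_lit 184762368) (nat_lit 250413056)) (I.mix (nat_lit 135462912) (nat_lit 107511808)) (I.mix (nat_lit 137904128) (nat_lit 101253120)) (I.mix (nat_lit 206176256) (nat_lit 132218880)))
  false (nat_lit 34740716)
def t2 : BTr := (BTr.n (BTr.n (BTr.n (BTr.b b2_0) (BTr.n (BTr.b b2_1) (BTr.b b2_2))) (BTr.n (BTr.n (BTr.b b2_3) (BTr.b b2_4)) (BTr.n (BTr.b b2_5) (BTr.b b2_6)))) (BTr.n (BTr.n (BTr.b b2_7) (BTr.n (BTr.b b2_8) (BTr.b b2_9))) (BTr.n (BTr.n (BTr.b b2_10) (BTr.b b2_11)) (BTr.n (BTr.b b2_12) (BTr.b b2_13)))))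
namespace T2
def l0 : Tr := Tr.L (Pth.l (Pth.l (Pth.l Pth.z)))
def l1 : Tr := Tr.L (Pth.l (Pth.l (Pth.r (Pth.l Pth.z))))
def l2 : Tr := Tr.L (Pth.l (Pth.l (Pth.r (Pth.r Pth.z))))
def l3 : Tr := Tr.L (Pth.l (Pth.r (Pth.l (Pth.l Pth.z))))
def l4 : Tr := Tr.L (Pth.l (Pth.r (Pth.l (Pth.r Pth.z))))
def l5 : Tr := Tr.L (Pth.l (Pth.r (Pth.r (Pth.l Pth.z))))
def l6 : Tr := Tr.L (Pth.l (Pth.r (Pth.r (Pth.r Pth.z))))
def l7 : Tr := Tr.L (Pth.r (Pth.l (Pth.l Pth.z)))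
def l8 : Tr := Tr.L (Pth.r (Pth.l (Pth.r (Pth.l Pth.z))))
def l9 : Tr := Tr.L (Pth.r (Pth.l (Pth.r (Pth.r Pth.z))))
def l10 : Tr := Tr.L (Pth.r (Pth.r (Pth.l (Pth.l Pth.z))))
def l11 : Tr := Tr.L (Pth.r (Pth.r (Pth.l (Pth.r Pth.z))))
def l12 : Tr := Tr.L (Pth.r (Pth.r (Pth.r (Pth.l Pth.z))))
def l13 : Tr := Tr.L (Pth.r (Pth.r (Pth.r (Pth.r Pth.z))))
end T2
theorem bx0_0 : BoxOK sI cl4 cl7 cl7 t1 t1 b0_0 :=
  box_mk (TrL.c (I.pos (nat_lit 0) (nat_lit 0)) (xa (xb T1.l0 T1.l0) (xb T1.l0 T1.l0))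
  (TrL.c (I.pos (nat_lit 0) (nat_lit 0)) T1.l1
  (TrL.c (I.pos (nat_lit 0) (nat_lit 0)) T1.l2
  (TrL.c (I.pos (nat_lit 0) (nat_lit 0)) T1.l3
  (TrL.c (I.pos (nat_lit 0) (nat_lit 0)) T1.l4
  (TrL.c (I.pos (nat_lit 0) (nat_lit 0)) T1.l5
  TrL.n)))))) (by decide +kernel)
theorem bx0_1 : BoxOK sI cl4 cl7 cl7 t1 t1 b0_1 :=
  box_mk (TrL.c (I.pos (nat_lit 0) (nat_lit 0)) (xa (xa T1.l6 T1.l6) (xa T1.l6 T1.l6))
  (TrL.c (I.pos (nat_lit 0) (nat_lit 0)) T1.l1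
  (TrL.c (I.pos (nat_lit 0) (nat_lit 0)) T1.l2
  (TrL.c (I.pos (nat_lit 0) (nat_lit 0)) T1.l3
  (TrL.c (I.pos (nat_lit 0) (nat_lit 0)) T1.l7
  (TrL.c (I.pos (nat_lit 0) (nat_lit 0)) T1.l5
  TrL.n)))))) (by decide +kernel)
theorem bx0_2 : BoxOK sI cl4 cl7 cl7 t1 t1 b0_2 :=
  box_mk (TrL.c (I.pos (nat_lit 0) (nat_lit 0)) (xb T1.l6 T1.l6)
  (TrL.c (I.pos (nat_lit 0) (nat_lit 0)) T1.l1
  (TrL.c (I.pos (nat_lit 0) (nat_lit 0)) T1.l2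
  (TrL.c (I.pos (nat_lit 0) (nat_lit 0)) T1.l3
  (TrL.c (I.pos (nat_lit 0) (nat_lit 0)) T1.l7
  (TrL.c (I.pos (nat_lit 0) (nat_lit 0)) T1.l5
  TrL.n)))))) (by decide +kernel)
theorem bx0_3 : BoxOK sI cl4 cl7 cl7 t1 t1 b0_3 :=
  box_mk (TrL.c (I.pos (nat_lit 0) (nat_lit 0)) (xa (xa (xb T1.l6 T1.l6) T1.l6) T1.l6)
  (TrL.c (I.pos (nat_lit 0) (nat_lit 0)) T1.l1
  (TrL.c (I.pos (nat_lit 0) (nat_lit 0)) T1.l2
  (TrL.c (I.pos (nat_lit 0) (nat_lit 0)) T1.l3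
  (TrL.c (I.pos (nat_lit 0) (nat_lit 0)) T1.l7
  (TrL.c (I.pos (nat_lit 0) (nat_lit 0)) T1.l5
  TrL.n)))))) (by decide +kernel)
theorem bx0_4 : BoxOK sI cl4 cl7 cl7 t1 t1 b0_4 :=
  box_mk (TrL.c (I.pos (nat_lit 0) (nat_lit 0)) (xa (xb T1.l0 T1.l0) (xb T1.l0 T1.l0))
  (TrL.c (I.pos (nat_lit 0) (nat_lit 0)) T1.l1
  (TrL.c (I.pos (nat_lit 0) (nat_lit 0)) T1.l5
  (TrL.c (I.pos (nat_lit 0) (nat_lit 0)) (xb (xa T1.l3 (xb T1.l3 T1.l3)) (xa T1.l3 (xb T1.l3 T1.l3)))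
  (TrL.c (I.pos (nat_lit 0) (nat_lit 0)) T1.l1
  (TrL.c (I.pos (nat_lit 0) (nat_lit 0)) T1.l5
  TrL.n)))))) (by decide +kernel)
theorem bx0_5 : BoxOK sI cl4 cl7 cl7 t1 t1 b0_5 :=
  box_mk (TrL.c (I.pos (nat_lit 0) (nat_lit 0)) T1.l6
  (TrL.c (I.pos (nat_lit 0) (nat_lit 0)) T1.l1
  (TrL.c (I.pos (nat_lit 0) (nat_lit 0)) T1.l2
  (TrL.c (I.pos (nat_lit 0) (nat_lit 0)) T1.l3
  (TrL.c (I.pos (nat_lit 0) (nat_lit 0)) T1.l7
  (TrL.c (I.pos (nat_lit 0) (nat_lit 0)) T1.l5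
  TrL.n)))))) (by decide +kernel)
theorem bx0_6 : BoxOK sI cl4 cl7 cl7 t1 t1 b0_6 :=
  box_mk (TrL.c (I.pos (nat_lit 0) (nat_lit 0)) T1.l6
  (TrL.c (I.pos (nat_lit 0) (nat_lit 0)) T1.l1
  (TrL.c (I.pos (nat_lit 0) (nat_lit 0)) T1.l2
  (TrL.c (I.pos (nat_lit 0) (nat_lit 0)) T1.l3
  (TrL.c (I.pos (nat_lit 0) (nat_lit 0)) T1.l7
  (TrL.c (I.pos (nat_lit 0) (nat_lit 0)) T1.l5
  TrL.n)))))) (by decide +kernel)
theorem bx0_7 : BoxOK sI cl4 cl7 cl7 t1 t1 b0_7 :=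
  box_mk (TrL.c (I.pos (nat_lit 0) (nat_lit 0)) T1.l0
  (TrL.c (I.pos (nat_lit 0) (nat_lit 0)) T1.l1
  (TrL.c (I.pos (nat_lit 0) (nat_lit 0)) T1.l5
  (TrL.c (I.pos (nat_lit 0) (nat_lit 0)) T1.l3
  (TrL.c (I.pos (nat_lit 0) (nat_lit 0)) T1.l1
  (TrL.c (I.pos (nat_lit 0) (nat_lit 0)) T1.l5
  TrL.n)))))) (by decide +kernel)
theorem bx0_8 : BoxOK sI cl4 cl7 cl7 t1 t1 b0_8 :=
  box_mk (TrL.c (I.pos (nat_lit 0) (nat_lit 0)) (xa (xb T1.l6 T1.l6) (xb T1.l6 T1.l6))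
  (TrL.c (I.pos (nat_lit 0) (nat_lit 0)) T1.l1
  (TrL.c (I.pos (nat_lit 0) (nat_lit 0)) T1.l2
  (TrL.c (I.pos (nat_lit 0) (nat_lit 0)) T1.l3
  (TrL.c (I.pos (nat_lit 0) (nat_lit 0)) T1.l7
  (TrL.c (I.pos (nat_lit 0) (nat_lit 0)) T1.l5
  TrL.n)))))) (by decide +kernel)
theorem bx0_9 : BoxOK sI cl4 cl7 cl7 t1 t1 b0_9 :=
  box_mk (TrL.c (I.pos (nat_lit 0) (nat_lit 0)) (xa (xa (xb (xa T1.l6 T1.l6) T1.l6) T1.l6) T1.l6)
  (TrL.c (I.pos (nat_lit 0) (nat_lit 0)) T1.l1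
  (TrL.c (I.pos (nat_lit 0) (nat_lit 0)) T1.l2
  (TrL.c (I.pos (nat_lit 0) (nat_lit 0)) T1.l3
  (TrL.c (I.pos (nat_lit 0) (nat_lit 0)) T1.l7
  (TrL.c (I.pos (nat_lit 0) (nat_lit 0)) T1.l5
  TrL.n)))))) (by decide +kernel)
theorem bx0_10 : BoxOK sI cl4 cl7 cl7 t1 t1 b0_10 :=
  box_mk (TrL.c (I.pos (nat_lit 0) (nat_lit 0)) (xb (xa T1.l8 T1.l8) (xa T1.l8 T1.l8))
  (TrL.c (I.pos (nat_lit 0) (nat_lit 0)) T1.l1
  (TrL.c (I.pos (nat_lit 0) (nat_lit 0)) T1.l2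
  (TrL.c (I.pos (nat_lit 0) (nat_lit 0)) (xb T1.l3 T1.l3)
  (TrL.c (I.pos (nat_lit 0) (nat_lit 0)) T1.l9
  (TrL.c (I.pos (nat_lit 0) (nat_lit 0)) T1.l5
  TrL.n)))))) (by decide +kernel)
theorem bx0_11 : BoxOK sI cl4 cl7 cl7 t1 t1 b0_11 :=
  box_mk (TrL.c (I.pos (nat_lit 0) (nat_lit 0)) (xa (xa (xb (xa T1.l6 T1.l6) (xa T1.l6 T1.l6)) T1.l6) (xa T1.l6 (xb T1.l6 T1.l6)))
  (TrL.c (I.pos (nat_lit 0) (nat_lit 0)) T1.l1
  (TrL.c (I.pos (nat_lit 0) (nat_lit 0)) T1.l2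
  (TrL.c (I.pos (nat_lit 0) (nat_lit 0)) T1.l3
  (TrL.c (I.pos (nat_lit 0) (nat_lit 0)) T1.l7
  (TrL.c (I.pos (nat_lit 0) (nat_lit 0)) T1.l5
  TrL.n)))))) (by decide +kernel)
theorem bx0_12 : BoxOK sI cl4 cl7 cl7 t1 t1 b0_12 :=
  box_mk (TrL.c (I.pos (nat_lit 0) (nat_lit 0)) (xa T1.l8 T1.l8)
  (TrL.c (I.pos (nat_lit 0) (nat_lit 0)) T1.l1
  (TrL.c (I.pos (nat_lit 0) (nat_lit 0)) T1.l2
  (TrL.c (I.pos (nat_lit 0) (nat_lit 0)) T1.l3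
  (TrL.c (I.pos (nat_lit 0) (nat_lit 0)) T1.l1
  (TrL.c (I.pos (nat_lit 0) (nat_lit 0)) T1.l5
  TrL.n)))))) (by decide +kernel)
theorem bx0_13 : BoxOK sI cl4 cl7 cl7 t1 t1 b0_13 :=
  box_mk (TrL.c (I.pos (nat_lit 0) (nat_lit 0)) (xb T1.l8 T1.l8)
  (TrL.c (I.pos (nat_lit 0) (nat_lit 0)) T1.l1
  (TrL.c (I.pos (nat_lit 0) (nat_lit 0)) T1.l2
  (TrL.c (I.pos (nat_lit 0) (nat_lit 0)) T1.l3
  (TrL.c (I.pos (nat_lit 0) (nat_lit 0)) T1.l1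
  (TrL.c (I.pos (nat_lit 0) (nat_lit 0)) T1.l5
  TrL.n)))))) (by decide +kernel)
theorem sv0 : StarV sI cl4 cl7 cl7 t1 t1 t0 :=
  (bt_n (bt_n (bt_n (bt_b bx0_0) (bt_n (bt_b bx0_1) (bt_b bx0_2))) (bt_n (bt_n (bt_b bx0_3) (bt_b bx0_4)) (bt_n (bt_b bx0_5) (bt_b bx0_6)))) (bt_n (bt_n (bt_b bx0_7) (bt_n (bt_b bx0_8) (bt_b bx0_9))) (bt_n (bt_n (bt_b bx0_10) (bt_b bx0_11)) (bt_n (bt_b bx0_12) (bt_b bx0_13)))))
def S0 : StarD := StarD.mk cl4 cl7 cl7 1 1 t0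
theorem bx1_0 : BoxOK sI cl7 cl4 cl7 t0 t2 b1_0 :=
  box_mk (TrL.c (I.pos (nat_lit 0) (nat_lit 0)) (xa (xb T0.l0 T0.l4) T0.l0)
  (TrL.c (I.pos (nat_lit 0) (nat_lit 0)) T2.l1
  (TrL.c (I.pos (nat_lit 0) (nat_lit 111196574)) (xR T0.l1 T0.l1)
  (TrL.c (I.pos (nat_lit 0) (nat_lit 77433728)) (xR T2.l2 T2.l2)
  (TrL.c (I.pos (nat_lit 0) (nat_lit 0)) (xb (xa T2.l3 T2.l3) (xa T2.l5 (xb T2.l3 T2.l3)))
  (TrL.c (I.pos (nat_lit 0) (nat_lit 0)) T0.l2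
  (TrL.c (I.mix (nat_lit 29511666) (nat_lit 77433728)) (xR T2.l4 T2.l4)
  (TrL.c (I.mix (nat_lit 29511666) (nat_lit 46070178)) (xR T0.l3 T0.l9)
  TrL.n)))))))) (by decide +kernel)
theorem bx1_1 : BoxOK sI cl7 cl4 cl7 t0 t2 b1_1 :=
  box_mk (TrL.c (I.pos (nat_lit 0) (nat_lit 0)) (xa (xb T0.l4 T0.l4) T0.l4)
  (TrL.c (I.pos (nat_lit 0) (nat_lit 0)) T2.l1
  (TrL.c (I.pos (nat_lit 0) (nat_lit 111196574)) (xR T0.l1 T0.l1)
  (TrL.c (I.pos (nat_lit 0) (nat_lit 77433728)) (xR T2.l4 T2.l2)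
  (TrL.c (I.pos (nat_lit 0) (nat_lit 0)) T2.l5
  (TrL.c (I.pos (nat_lit 0) (nat_lit 0)) T0.l2
  (TrL.c (I.mix (nat_lit 29511666) (nat_lit 77433728)) (xR T2.l4 T2.l4)
  (TrL.c (I.mix (nat_lit 29511666) (nat_lit 46070178)) T0.l11
  TrL.n)))))))) (by decide +kernel)
theorem bx1_2 : BoxOK sI cl7 cl4 cl7 t0 t2 b1_2 :=
  box_mk (TrL.c (I.pos (nat_lit 0) (nat_lit 0)) T2.l6
  (TrL.c (I.pos (nat_lit 0) (nat_lit 0)) T0.l5
  (TrL.c (I.mix (nat_lit 29511666) (nat_lit 77433728)) (xR T2.l7 T2.l7)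
  (TrL.c (I.mix (nat_lit 29511666) (nat_lit 46070178)) T0.l6
  TrL.n)))) (by decide +kernel)
theorem bx1_3 : BoxOK sI cl7 cl4 cl7 t0 t2 b1_3 :=
  box_mk (TrL.c (I.pos (nat_lit 0) (nat_lit 0)) (xb (xa (xb T0.l4 T0.l4) T0.l4) (xa T0.l4 T0.l4))
  (TrL.c (I.pos (nat_lit 0) (nat_lit 0)) T2.l1
  (TrL.c (I.pos (nat_lit 0) (nat_lit 111196574)) (xR T0.l1 T0.l1)
  (TrL.c (I.pos (nat_lit 0) (nat_lit 77433728)) (xR T2.l2 T2.l2)
  (TrL.c (I.pos (nat_lit 0) (nat_lit 0)) (xb (xa T2.l5 (xb T2.l5 (xk T2.l3 T2.l3))) (xa (xb (xk T2.l3 T2.l5) (xk (xs T2.l3 (xb T2.l3 T2.l3)) (xs T2.l3 (xb T2.l3 (xa T2.l3 (xs T2.l3 T2.l3)))))) (xb (xk (xs T2.l3 (xb T2.l3 T2.l3)) (xs T2.l3 (xb T2.l3 (xa T2.l3 T2.l3)))) (xk (xs (xb T2.l3 (xa T2.l0 (xs T2.l0 T2.l0))) (xb (xa T2.l3 T2.l0) (xa T2.l0 (xk T2.l0 (xs T2.l0 T2.l0))))) (xs (xb (xa T2.l3 T2.l0) (xa T2.l0 T2.l0)) (xb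 (xa T2.l3 T2.l0) (xa (xs T2.l0 (xk T2.l0 T2.l0)) (xs (xk T2.l0 T2.l0) (xk T2.l0 (xb T2.l0 T2.l0))))))))))
  (TrL.c (I.pos (nat_lit 0) (nat_lit 0)) T0.l2
  (TrL.c (I.mix (nat_lit 29511666) (nat_lit 77433728)) (xR T2.l4 T2.l4)
  (TrL.c (I.mix (nat_lit 29511666) (nat_lit 46070178)) (xR T0.l3 T0.l9)
  TrL.n)))))))) (by decide +kernel)
theorem bx1_4 : BoxOK sI cl7 cl4 cl7 t0 t2 b1_4 :=
  box_mk (TrL.c (I.pos (nat_lit 0) (nat_lit 0)) T0.l4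
  (TrL.c (I.pos (nat_lit 0) (nat_lit 0)) T2.l1
  (TrL.c (I.pos (nat_lit 0) (nat_lit 111196574)) T0.l1
  (TrL.c (I.pos (nat_lit 0) (nat_lit 77433728)) T2.l4
  (TrL.c (I.pos (nat_lit 0) (nat_lit 0)) T2.l5
  (TrL.c (I.pos (nat_lit 0) (nat_lit 0)) T0.l2
  (TrL.c (I.mix (nat_lit 29511666) (nat_lit 77433728)) T2.l4
  (TrL.c (I.mix (nat_lit 29511666) (nat_lit 46070178)) T0.l11
  TrL.n)))))))) (by decide +kernel)
theorem bx1_5 : BoxOK sI cl7 cl4 cl7 t0 t2 b1_5 :=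
  box_mk (TrL.c (I.pos (nat_lit 0) (nat_lit 0)) T2.l1
  (TrL.c (I.pos (nat_lit 0) (nat_lit 0)) T0.l1
  (TrL.c (I.mix (nat_lit 29511666) (nat_lit 77433728)) (xR T2.l7 T2.l7)
  (TrL.c (I.mix (nat_lit 29511666) (nat_lit 46070178)) (xR T0.l6 T0.l1)
  TrL.n)))) (by decide +kernel)
theorem bx1_6 : BoxOK sI cl7 cl4 cl7 t0 t2 b1_6 :=
  box_mk (TrL.c (I.pos (nat_lit 0) (nat_lit 0)) (xa T0.l0 T0.l0)
  (TrL.c (I.pos (nat_lit 0) (nat_lit 0)) T2.l1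
  (TrL.c (I.pos (nat_lit 0) (nat_lit 111196574)) (xR T0.l1 T0.l11)
  (TrL.c (I.pos (nat_lit 0) (nat_lit 77433728)) (xR T2.l2 T2.l2)
  (TrL.c (I.pos (nat_lit 0) (nat_lit 0)) (xa (xb T2.l3 T2.l3) (xb (xk (xa T2.l3 T2.l3) (xa T2.l3 T2.l3)) (xk (xa T2.l3 T2.l3) (xa T2.l3 T2.l3))))
  (TrL.c (I.pos (nat_lit 0) (nat_lit 0)) T0.l2
  (TrL.c (I.mix (nat_lit 29511666) (nat_lit 77433728)) (xR T2.l4 T2.l4)
  (TrL.c (I.mix (nat_lit 29511666) (nat_lit 46070178)) (xR T0.l3 T0.l9)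
  TrL.n)))))))) (by decide +kernel)
theorem bx1_7 : BoxOK sI cl7 cl4 cl7 t0 t2 b1_7 :=
  box_mk (TrL.c (I.pos (nat_lit 0) (nat_lit 0)) (xb T0.l7 T0.l7)
  (TrL.c (I.pos (nat_lit 0) (nat_lit 0)) T2.l6
  (TrL.c (I.pos (nat_lit 0) (nat_lit 111196574)) (xR T0.l1 T0.l1)
  (TrL.c (I.pos (nat_lit 0) (nat_lit 77433728)) T2.l4
  (TrL.c (I.pos (nat_lit 0) (nat_lit 0)) T2.l5
  (TrL.c (I.pos (nat_lit 0) (nat_lit 0)) T0.l2
  (TrL.c (I.mix (nat_lit 29511666) (nat_lit 77433728)) (xR T2.l7 T2.l4)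
  (TrL.c (I.mix (nat_lit 29511666) (nat_lit 46070178)) T0.l6
  TrL.n)))))))) (by decide +kernel)
theorem bx1_8 : BoxOK sI cl7 cl4 cl7 t0 t2 b1_8 :=
  box_mk (TrL.c (I.pos (nat_lit 0) (nat_lit 0)) (xa T0.l0 T0.l0)
  (TrL.c (I.pos (nat_lit 0) (nat_lit 0)) T2.l1
  (TrL.c (I.pos (nat_lit 0) (nat_lit 111196574)) (xR T0.l1 T0.l1)
  (TrL.c (I.pos (nat_lit 0) (nat_lit 77433728)) (xR T2.l2 T2.l2)
  (TrL.c (I.pos (nat_lit 0) (nat_lit 0)) (xa (xb T2.l3 (xk T2.l3 (xs T2.l3 T2.l3))) (xb T2.l3 (xk (xs T2.l3 (xb T2.l0 T2.l0)) (xs (xb T2.l0 T2.l0) (xb T2.l0 T2.l0)))))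
  (TrL.c (I.pos (nat_lit 0) (nat_lit 0)) T0.l2
  (TrL.c (I.mix (nat_lit 29511666) (nat_lit 77433728)) (xR T2.l4 T2.l4)
  (TrL.c (I.mix (nat_lit 29511666) (nat_lit 46070178)) (xR T0.l3 T0.l9)
  TrL.n)))))))) (by decide +kernel)
theorem bx1_9 : BoxOK sI cl7 cl4 cl7 t0 t2 b1_9 :=
  box_mk (TrL.c (I.pos (nat_lit 0) (nat_lit 0)) T0.l4
  (TrL.c (I.pos (nat_lit 0) (nat_lit 0)) T2.l1
  (TrL.c (I.pos (nat_lit 0) (nat_lit 111196574)) T0.l1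
  (TrL.c (I.pos (nat_lit 0) (nat_lit 77433728)) T2.l4
  (TrL.c (I.pos (nat_lit 0) (nat_lit 0)) T2.l5
  (TrL.c (I.pos (nat_lit 0) (nat_lit 0)) T0.l2
  (TrL.c (I.mix (nat_lit 29511666) (nat_lit 77433728)) T2.l4
  (TrL.c (I.mix (nat_lit 29511666) (nat_lit 46070178)) T0.l11
  TrL.n)))))))) (by decide +kernel)
theorem sv1 : StarV sI cl7 cl4 cl7 t0 t2 t1 :=
  (bt_n (bt_n (bt_n (bt_b bx1_0) (bt_b bx1_1)) (bt_n (bt_b bx1_2) (bt_n (bt_b bx1_3) (bt_b bx1_4)))) (bt_n (bt_n (bt_b bx1_5) (bt_b bx1_6)) (bt_n (bt_b bx1_7) (bt_n (bt_b bx1_8) (bt_b bx1_9)))))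
def S1 : StarD := StarD.mk cl7 cl4 cl7 0 2 t1
theorem bx2_0 : BoxOK sI cl7 cl7 cl4 t2 t0 b2_0 :=
  box_mk (TrL.c (I.pos (nat_lit 0) (nat_lit 0)) (xa (xa (xb (xb T2.l0 T2.l0) (xb T2.l0 T2.l0)) (xb (xb T2.l0 T2.l0) (xs T2.l0 T2.l0))) (xa (xb (xb T2.l0 T2.l0) (xs T2.l0 (xb T2.l0 T2.l0))) (xb (xb (xs T2.l0 T2.l0) (xs T2.l0 T2.l0)) (xs T2.l0 (xb T2.l0 T2.l0)))))
  (TrL.c (I.pos (nat_lit 0) (nat_lit 0)) T0.l8
  (TrL.c (I.pos (nat_lit 0) (nat_lit 111196574)) (xR T2.l9 T2.l9)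
  (TrL.c (I.pos (nat_lit 0) (nat_lit 77433728)) (xR T0.l9 T0.l9)
  (TrL.c (I.pos (nat_lit 0) (nat_lit 0)) (xa (xb T0.l13 T0.l13) (xb (xk T0.l13 T0.l13) (xk (xb T0.l13 (xs (xa T0.l13 T0.l10) (xa T0.l13 (xk T0.l13 T0.l13)))) (xb T0.l13 (xs (xa T0.l13 (xk T0.l13 T0.l13)) (xa T0.l13 (xk (xb T0.l13 (xs T0.l13 T0.l13)) (xb T0.l13 (xa T0.l13 (xs T0.l13 T0.l13))))))))))
  (TrL.c (I.pos (nat_lit 0) (nat_lit 0)) T2.l10
  (TrL.c (I.mix (nat_lit 29511666) (nat_lit 77433728)) (xR T0.l11 T0.l11)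
  (TrL.c (I.mix (nat_lit 29511666) (nat_lit 46070178)) (xR T2.l11 T2.l11)
  TrL.n)))))))) (by decide +kernel)
theorem bx2_1 : BoxOK sI cl7 cl7 cl4 t2 t0 b2_1 :=
  box_mk (TrL.c (I.pos (nat_lit 0) (nat_lit 0)) (xa T2.l12 T2.l0)
  (TrL.c (I.pos (nat_lit 0) (nat_lit 0)) T0.l8
  (TrL.c (I.pos (nat_lit 0) (nat_lit 111196574)) (xR T2.l9 T2.l9)
  (TrL.c (I.pos (nat_lit 0) (nat_lit 77433728)) (xR T0.l9 T0.l9)
  (TrL.c (I.pos (nat_lit 0) (nat_lit 0)) T0.l12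
  (TrL.c (I.pos (nat_lit 0) (nat_lit 0)) T2.l10
  (TrL.c (I.mix (nat_lit 29511666) (nat_lit 77433728)) (xR T0.l11 T0.l11)
  (TrL.c (I.mix (nat_lit 29511666) (nat_lit 46070178)) T2.l11
  TrL.n)))))))) (by decide +kernel)
theorem bx2_2 : BoxOK sI cl7 cl7 cl4 t2 t0 b2_2 :=
  box_mk (TrL.c (I.pos (nat_lit 0) (nat_lit 0)) T2.l12
  (TrL.c (I.pos (nat_lit 0) (nat_lit 0)) T0.l8
  (TrL.c (I.pos (nat_lit 0) (nat_lit 111196574)) T2.l9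
  (TrL.c (I.pos (nat_lit 0) (nat_lit 77433728)) T0.l11
  (TrL.c (I.pos (nat_lit 0) (nat_lit 0)) T0.l12
  (TrL.c (I.pos (nat_lit 0) (nat_lit 0)) T2.l10
  (TrL.c (I.mix (nat_lit 29511666) (nat_lit 77433728)) (xR T0.l11 T0.l11)
  (TrL.c (I.mix (nat_lit 29511666) (nat_lit 46070178)) T2.l11
  TrL.n)))))))) (by decide +kernel)
theorem bx2_3 : BoxOK sI cl7 cl7 cl4 t2 t0 b2_3 :=
  box_mk (TrL.c (I.pos (nat_lit 0) (nat_lit 0)) (xa (xb T2.l13 T2.l13) (xb (xb T2.l0 T2.l0) T2.l13))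
  (TrL.c (I.pos (nat_lit 0) (nat_lit 0)) T0.l8
  (TrL.c (I.pos (nat_lit 0) (nat_lit 111196574)) (xR T2.l9 T2.l9)
  (TrL.c (I.pos (nat_lit 0) (nat_lit 77433728)) (xR T0.l9 T0.l9)
  (TrL.c (I.pos (nat_lit 0) (nat_lit 0)) (xb T0.l13 (xb T0.l13 (xk T0.l10 (xa T0.l13 T0.l13))))
  (TrL.c (I.pos (nat_lit 0) (nat_lit 0)) T2.l10
  (TrL.c (I.mix (nat_lit 29511666) (nat_lit 77433728)) (xR T0.l11 T0.l11)
  (TrL.c (I.mix (nat_lit 29511666) (nat_lit 46070178)) (xR T2.l11 T2.l11)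
  TrL.n)))))))) (by decide +kernel)
theorem bx2_4 : BoxOK sI cl7 cl7 cl4 t2 t0 b2_4 :=
  box_mk (TrL.c (I.pos (nat_lit 0) (nat_lit 0)) (xa (xa (xb T2.l12 T2.l12) (xb T2.l12 T2.l12)) (xa T2.l12 (xb T2.l12 T2.l12)))
  (TrL.c (I.pos (nat_lit 0) (nat_lit 0)) T0.l8
  (TrL.c (I.pos (nat_lit 0) (nat_lit 111196574)) (xR T2.l9 T2.l9)
  (TrL.c (I.pos (nat_lit 0) (nat_lit 77433728)) (xR T0.l9 T0.l9)
  (TrL.c (I.pos (nat_lit 0) (nat_lit 0)) T0.l12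
  (TrL.c (I.pos (nat_lit 0) (nat_lit 0)) T2.l10
  (TrL.c (I.mix (nat_lit 29511666) (nat_lit 77433728)) (xR T0.l11 T0.l11)
  (TrL.c (I.mix (nat_lit 29511666) (nat_lit 46070178)) (xR T2.l7 T2.l11)
  TrL.n)))))))) (by decide +kernel)
theorem bx2_5 : BoxOK sI cl7 cl7 cl4 t2 t0 b2_5 :=
  box_mk (TrL.c (I.pos (nat_lit 0) (nat_lit 0)) (xb (xa (xb (xs T2.l0 T2.l0) T2.l0) (xb (xs T2.l0 T2.l0) T2.l0)) (xa (xb T2.l0 T2.l0) (xb T2.l0 T2.l0)))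
  (TrL.c (I.pos (nat_lit 0) (nat_lit 0)) T0.l8
  (TrL.c (I.pos (nat_lit 0) (nat_lit 111196574)) (xR T2.l9 T2.l9)
  (TrL.c (I.pos (nat_lit 0) (nat_lit 77433728)) (xR T0.l9 T0.l9)
  (TrL.c (I.pos (nat_lit 0) (nat_lit 0)) (xb T0.l13 T0.l13)
  (TrL.c (I.pos (nat_lit 0) (nat_lit 0)) T2.l10
  (TrL.c (I.mix (nat_lit 29511666) (nat_lit 77433728)) (xR T0.l11 T0.l11)
  (TrL.c (I.mix (nat_lit 29511666) (nat_lit 46070178)) (xR T2.l11 T2.l2)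
  TrL.n)))))))) (by decide +kernel)
theorem bx2_6 : BoxOK sI cl7 cl7 cl4 t2 t0 b2_6 :=
  box_mk (TrL.c (I.pos (nat_lit 0) (nat_lit 0)) T2.l12
  (TrL.c (I.pos (nat_lit 0) (nat_lit 0)) T0.l8
  (TrL.c (I.pos (nat_lit 0) (nat_lit 111196574)) (xR T2.l9 T2.l9)
  (TrL.c (I.pos (nat_lit 0) (nat_lit 77433728)) (xR T0.l9 T0.l9)
  (TrL.c (I.pos (nat_lit 0) (nat_lit 0)) T0.l13
  (TrL.c (I.pos (nat_lit 0) (nat_lit 0)) T2.l10
  (TrL.c (I.mix (nat_lit 29511666) (nat_lit 77433728)) (xR T0.l11 T0.l11)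
  (TrL.c (I.mix (nat_lit 29511666) (nat_lit 46070178)) T2.l11
  TrL.n)))))))) (by decide +kernel)
theorem bx2_7 : BoxOK sI cl7 cl7 cl4 t2 t0 b2_7 :=
  box_mk (TrL.c (I.pos (nat_lit 0) (nat_lit 0)) (xa T2.l12 T2.l12)
  (TrL.c (I.pos (nat_lit 0) (nat_lit 0)) T0.l8
  (TrL.c (I.pos (nat_lit 0) (nat_lit 111196574)) T2.l9
  (TrL.c (I.pos (nat_lit 0) (nat_lit 77433728)) (xR T0.l9 T0.l9)
  (TrL.c (I.pos (nat_lit 0) (nat_lit 0)) T0.l12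
  (TrL.c (I.pos (nat_lit 0) (nat_lit 0)) T2.l10
  (TrL.c (I.mix (nat_lit 29511666) (nat_lit 77433728)) (xR T0.l11 T0.l11)
  (TrL.c (I.mix (nat_lit 29511666) (nat_lit 46070178)) T2.l7
  TrL.n)))))))) (by decide +kernel)
theorem bx2_8 : BoxOK sI cl7 cl7 cl4 t2 t0 b2_8 :=
  box_mk (TrL.c (I.pos (nat_lit 0) (nat_lit 0)) T2.l13
  (TrL.c (I.pos (nat_lit 0) (nat_lit 0)) T0.l8
  (TrL.c (I.pos (nat_lit 0) (nat_lit 111196574)) (xR T2.l9 T2.l9)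
  (TrL.c (I.pos (nat_lit 0) (nat_lit 77433728)) (xR T0.l9 T0.l9)
  (TrL.c (I.pos (nat_lit 0) (nat_lit 0)) T0.l13
  (TrL.c (I.pos (nat_lit 0) (nat_lit 0)) T2.l10
  (TrL.c (I.mix (nat_lit 29511666) (nat_lit 77433728)) (xR T0.l11 T0.l11)
  (TrL.c (I.mix (nat_lit 29511666) (nat_lit 46070178)) T2.l11
  TrL.n)))))))) (by decide +kernel)
theorem bx2_9 : BoxOK sI cl7 cl7 cl4 t2 t0 b2_9 :=
  box_mk (TrL.c (I.pos (nat_lit 0) (nat_lit 0)) (xa (xa (xb T2.l12 T2.l12) T2.l12) (xa T2.l12 T2.l12))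
  (TrL.c (I.pos (nat_lit 0) (nat_lit 0)) T0.l8
  (TrL.c (I.pos (nat_lit 0) (nat_lit 111196574)) T2.l9
  (TrL.c (I.pos (nat_lit 0) (nat_lit 77433728)) (xR T0.l9 T0.l9)
  (TrL.c (I.pos (nat_lit 0) (nat_lit 0)) T0.l12
  (TrL.c (I.pos (nat_lit 0) (nat_lit 0)) T2.l10
  (TrL.c (I.mix (nat_lit 29511666) (nat_lit 77433728)) (xR T0.l11 T0.l11)
  (TrL.c (I.mix (nat_lit 29511666) (nat_lit 46070178)) (xR T2.l11 T2.l11)
  TrL.n)))))))) (by decide +kernel)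
theorem bx2_10 : BoxOK sI cl7 cl7 cl4 t2 t0 b2_10 :=
  box_mk (TrL.c (I.pos (nat_lit 0) (nat_lit 0)) (xb T2.l12 T2.l12)
  (TrL.c (I.pos (nat_lit 0) (nat_lit 0)) T0.l8
  (TrL.c (I.pos (nat_lit 0) (nat_lit 111196574)) (xR T2.l9 T2.l9)
  (TrL.c (I.pos (nat_lit 0) (nat_lit 77433728)) (xR T0.l9 T0.l9)
  (TrL.c (I.pos (nat_lit 0) (nat_lit 0)) T0.l12
  (TrL.c (I.pos (nat_lit 0) (nat_lit 0)) T2.l10
  (TrL.c (I.mix (nat_lit 29511666) (nat_lit 77433728)) (xR T0.l11 T0.l11)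
  (TrL.c (I.mix (nat_lit 29511666) (nat_lit 46070178)) T2.l11
  TrL.n)))))))) (by decide +kernel)
theorem bx2_11 : BoxOK sI cl7 cl7 cl4 t2 t0 b2_11 :=
  box_mk (TrL.c (I.pos (nat_lit 0) (nat_lit 0)) (xa (xa T2.l12 T2.l12) T2.l12)
  (TrL.c (I.pos (nat_lit 0) (nat_lit 0)) T0.l8
  (TrL.c (I.pos (nat_lit 0) (nat_lit 111196574)) (xR T2.l9 T2.l9)
  (TrL.c (I.pos (nat_lit 0) (nat_lit 77433728)) T0.l11
  (TrL.c (I.pos (nat_lit 0) (nat_lit 0)) T0.l12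
  (TrL.c (I.pos (nat_lit 0) (nat_lit 0)) T2.l10
  (TrL.c (I.mix (nat_lit 29511666) (nat_lit 77433728)) (xR T0.l11 T0.l11)
  (TrL.c (I.mix (nat_lit 29511666) (nat_lit 46070178)) T2.l7
  TrL.n)))))))) (by decide +kernel)
theorem bx2_12 : BoxOK sI cl7 cl7 cl4 t2 t0 b2_12 :=
  box_mk (TrL.c (I.pos (nat_lit 0) (nat_lit 0)) (xa T2.l0 (xb T2.l0 T2.l0))
  (TrL.c (I.pos (nat_lit 0) (nat_lit 0)) T0.l8
  (TrL.c (I.pos (nat_lit 0) (nat_lit 111196574)) (xR T2.l9 (xR T2.l9 T2.l9))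
  (TrL.c (I.pos (nat_lit 0) (nat_lit 77433728)) (xR T0.l9 T0.l9)
  (TrL.c (I.pos (nat_lit 0) (nat_lit 0)) (xa (xb T0.l10 T0.l10) (xb (xk T0.l10 T0.l10) (xk T0.l10 T0.l10)))
  (TrL.c (I.pos (nat_lit 0) (nat_lit 0)) T2.l10
  (TrL.c (I.mix (nat_lit 29511666) (nat_lit 77433728)) (xR T0.l11 T0.l11)
  (TrL.c (I.mix (nat_lit 29511666) (nat_lit 46070178)) (xR T2.l11 T2.l11)
  TrL.n)))))))) (by decide +kernel)
theorem bx2_13 : BoxOK sI cl7 cl7 cl4 t2 t0 b2_13 :=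
  box_mk (TrL.c (I.pos (nat_lit 0) (nat_lit 0)) (xa (xb (xa (xb T2.l0 T2.l0) (xs T2.l0 (xb T2.l0 T2.l0))) (xs T2.l0 (xa T2.l0 T2.l0))) (xb (xa (xs T2.l0 (xb T2.l0 T2.l0)) (xs T2.l0 (xb T2.l0 T2.l0))) (xs T2.l0 (xa T2.l0 (xb T2.l0 T2.l0)))))
  (TrL.c (I.pos (nat_lit 0) (nat_lit 0)) T0.l8
  (TrL.c (I.pos (nat_lit 0) (nat_lit 111196574)) (xR T2.l9 T2.l9)
  (TrL.c (I.pos (nat_lit 0) (nat_lit 77433728)) (xR T0.l9 T0.l9)
  (TrL.c (I.pos (nat_lit 0) (nat_lit 0)) (xa T0.l10 (xb T0.l10 (xk (xb T0.l13 T0.l10) (xb T0.l13 (xs T0.l10 T0.l13)))))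
  (TrL.c (I.pos (nat_lit 0) (nat_lit 0)) T2.l10
  (TrL.c (I.mix (nat_lit 29511666) (nat_lit 77433728)) (xR T0.l11 T0.l11)
  (TrL.c (I.mix (nat_lit 29511666) (nat_lit 46070178)) (xR T2.l11 T2.l2)
  TrL.n)))))))) (by decide +kernel)
theorem sv2 : StarV sI cl7 cl7 cl4 t2 t0 t2 :=
  (bt_n (bt_n (bt_n (bt_b bx2_0) (bt_n (bt_b bx2_1) (bt_b bx2_2))) (bt_n (bt_n (bt_b bx2_3) (bt_b bx2_4)) (bt_n (bt_b bx2_5) (bt_b bx2_6)))) (bt_n (bt_n (bt_b bx2_7) (bt_n (bt_b bx2_8) (bt_b bx2_9))) (bt_n (bt_n (bt_b bx2_10) (bt_b bx2_11)) (bt_n (bt_b bx2_12) (bt_b bx2_13)))))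
def S2 : StarD := StarD.mk cl7 cl7 cl4 2 0 t2
def G : List StarD := [S0, S1, S2]
theorem so0 : StarOK sI G S0 :=
  star_mk (by decide) (by decide) rfl rfl rfl rfl rfl rfl (rfl : _ = t1) (rfl : _ = t1)
  (st_mk (Pth.l (Pth.l (Pth.l Pth.z))) (nat_lit 146505728) (nat_lit 168437793) (by decide +kernel))
  (st_mk (Pth.l (Pth.l (Pth.l Pth.z))) (nat_lit 182210227) (nat_lit 206879578) (by decide +kernel))
  (st_mk (Pth.l (Pth.l (Pth.l Pth.z))) (nat_lit 226391173) (nat_lit 252280800) (by decide +kernel)) sv0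
theorem so1 : StarOK sI G S1 :=
  star_mk (by decide) (by decide) rfl rfl rfl rfl rfl rfl (rfl : _ = t0) (rfl : _ = t2)
  (st_mk (Pth.l (Pth.l (Pth.l Pth.z))) (nat_lit 369291866) (nat_lit 373930712) (by decide +kernel))
  (st_mk (Pth.l (Pth.l (Pth.l Pth.z))) (nat_lit 405212214) (nat_lit 410481813) (by decide +kernel))
  (st_mk (Pth.l (Pth.l (Pth.l Pth.z))) (nat_lit 446780521) (nat_lit 452858737) (by decide +kernel)) sv1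
theorem so2 : StarOK sI G S2 :=
  star_mk (by decide) (by decide) rfl rfl rfl rfl rfl rfl (rfl : _ = t2) (rfl : _ = t0)
  (st_mk (Pth.l (Pth.l (Pth.l Pth.z))) (nat_lit 143179776) (nat_lit 164096967) (by decide +kernel))
  (st_mk (Pth.l (Pth.l (Pth.l Pth.z))) (nat_lit 176957406) (nat_lit 200242605) (by decide +kernel))
  (st_mk (Pth.l (Pth.l (Pth.l Pth.z))) (nat_lit 218282631) (nat_lit 242276774) (by decide +kernel)) sv2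
theorem ok : GroupOK (nat_lit 91226112) (nat_lit 150339584) G := grp_mk (allS_c so0 (allS_c so1 (allS_c so2 allS_n)))
theorem cov : GCov G cl4 cl7 cl7 := cov_mk
  ⟨0, by decide, rfl, rfl, rfl⟩ ⟨0, by decide, rfl, rfl, rfl⟩ ⟨1, by decide, rfl, rfl, rfl⟩ ⟨2, by decide, rfl, rfl, rfl⟩ ⟨1, by decide, rfl, rfl, rfl⟩ ⟨2, by decide, rfl, rfl, rfl⟩
end Q144_1


end Pool.Agent.Helper6.MONO
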