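import Pool.Agent.Helper6.MONO.Asm

/-!
Certificate data (generated).
-/

set_option autoImplicit false
set_option linter.all false
noncomputable section
namespace Pool.Agent.Helper6.MONO


namespace Q144_2
def sI : I := I.pos (nat_lit 150274048) (nat_lit 209387520)
def b0_0 : Bx := Bx.mk (St.mk (I.pos (nat_lit 156401664) (nat_lit 233947136)) (I.mix (nat_lit 3702784) (nat_lit 62013440)) (I.mix (nat_lit 4243456) (nat_lit 70959104)) (I.pos (nat_lit 139657216) (nat_lit 283344896)) (I.mix (nat_lit 113197056) (nat_lit 73154560)) (I.mix (nat_lit 71778304) (nat_lit 65060864)) (I.mix (nat_lit 106381312) (nat_lit 101564416)))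
  false (nat_lit 0)
def b0_1 : Bx := Bx.mk (St.mk (I.mix (nat_lit 25460736) (nat_lit 119652352)) (I.mix (nat_lit 8323072) (nat_lit 33685504)) (I.mix (nat_lit 26935296) (nat_lit 8798208)) (I.pos (nat_lit 38404096) (nat_lit 115458048)) (I.mix (nat_lit 42680320) (nat_lit 54116352)) (I.mix (nat_lit 47022080) (nat_lit 31145984)) (I.mix (nat_lit 33374208) (nat_lit 22577152)))
  false (nat_lit 0)
def b0_2 : Bx := Bx.mk (St.mk (I.pos (nat_lit 89587712) (nat_lit 134660096)) (I.mix (nat_lit 49692672) (nat_lit 11812864)) (I.neg (nat_lit 6471680) (nat_lit 62750720)) (I.pos (nat_lit 74596352) (nat_lit 132169728)) (I.mix (nat_lit 98729984) (nat_lit 44351488)) (I.mix (nat_lit 41402368) (nat_lit 88588288)) (I.mix (nat_lit 29605888) (nat_lit 69926912)))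
  false (nat_lit 0)
def b0_3 : Bx := Bx.mk (St.mk (I.mix (nat_lit 35471360) (nat_lit 69337088)) (I.mix (nat_lit 31014912) (nat_lit 3833856)) (I.neg (nat_lit 2113536) (nat_lit 26787840)) (I.pos (nat_lit 40747008) (nat_lit 81756160)) (I.mix (nat_lit 45170688) (nat_lit 24510464)) (I.mix (nat_lit 20643840) (nat_lit 39796736)) (I.mix (nat_lit 9535488) (nat_lit 16613376)))
  false (nat_lit 0)
def b0_4 : Bx := Bx.mk (St.mk (I.pos (nat_lit 195411968) (nat_lit 250871808)) (I.mix (nat_lit 15581184) (nat_lit 34750464)) (I.mix (nat_lit 79691776) (nat_lit 9486336)) (I.pos (nat_lit 219512832) (nat_lit 307757056)) (I.mix (nat_lit 113442816) (nat_lit 51429376)) (I.mix (nat_lit 72859648) (nat_lit 76873728)) (I.mix (nat_lit 112623616) (nat_lit 140443648)))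
  false (nat_lit 0)
def b0_5 : Bx := Bx.mk (St.mk (I.pos (nat_lit 78839808) (nat_lit 113786880)) (I.mix (nat_lit 11288576) (nat_lit 16039936)) (I.neg (nat_lit 3473408) (nat_lit 29573120)) (I.pos (nat_lit 70467584) (nat_lit 113459200)) (I.mix (nat_lit 38928384) (nat_lit 29048832)) (I.mix (nat_lit 27328512) (nat_lit 26214400)) (I.mix (nat_lit 19251200) (nat_lit 21774336)))
  false (nat_lit 0)
def b0_6 : Bx := Bx.mk (St.mk (I.mix (nat_lit 43581440) (nat_lit 10616832)) (I.mix (nat_lit 6946816) (nat_lit 10452992)) (I.neg (nat_lit 5373952) (nat_lit 15941632)) (I.pos (nat_lit 42467328) (nat_lit 71303168)) (I.mix (nat_lit 19218432) (nat_lit 15646720)) (I.mix (nat_lit 13221888) (nat_lit 13680640)) (I.mix (nat_lit 4472832) (nat_lit 4849664)))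
  false (nat_lit 0)
def b0_7 : Bx := Bx.mk (St.mk (I.pos (nat_lit 186220544) (nat_lit 243302400)) (I.pos (nat_lit 5242880) (nat_lit 60555264)) (I.mix (nat_lit 28491776) (nat_lit 64864256)) (I.pos (nat_lit 211156992) (nat_lit 301957120)) (I.mix (nat_lit 106610688) (nat_lit 88637440)) (I.mix (nat_lit 95780864) (nat_lit 74317824)) (I.mix (nat_lit 164200448) (nat_lit 114917376)))
  false (nat_lit 0)
def b0_8 : Bx := Bx.mk (St.mk (I.pos (nat_lit 209387520) (nat_lit 258523136)) (I.mix (nat_lit 16482304) (nat_lit 13713408)) (I.neg (nat_lit 21954560) (nat_lit 87572480)) (I.pos (nat_lit 235274240) (nat_lit 329957376)) (I.mix (nat_lit 103006208) (nat_lit 33259520)) (I.mix (nat_lit 62570496) (nat_lit 60964864)) (I.mix (nat_lit 93028352) (nat_lit 114671616)))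
  false (nat_lit 0)
def b0_9 : Bx := Bx.mk (St.mk (I.pos (nat_lit 90980352) (nat_lit 175603712)) (I.neg (nat_lit 3112960) (nat_lit 50135040)) (I.neg (nat_lit 12025856) (nat_lit 61587456)) (I.pos (nat_lit 84754432) (nat_lit 181256192)) (I.mix (nat_lit 83787776) (nat_lit 45940736)) (I.mix (nat_lit 44089344) (nat_lit 61865984)) (I.mix (nat_lit 35340288) (nat_lit 60030976)))
  false (nat_lit 0)
def b0_10 : Bx := Bx.mk (St.mk (I.mix (nat_lit 31588352) (nat_lit 88571904)) (I.mix (nat_lit 31997952) (nat_lit 7618560)) (I.neg (nat_lit 2211840) (nat_lit 28393472)) (I.pos (nat_lit 38600704) (nat_lit 92766208)) (I.mix (nat_lit 48529408) (nat_lit 36077568)) (I.mix (nat_lit 29720576) (nat_lit 39026688)) (I.mix (nat_lit 15990784) (nat_lit 21708800)))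
  false (nat_lit 0)
def b0_11 : Bx := Bx.mk (St.mk (I.pos (nat_lit 163233792) (nat_lit 217169920)) (I.mix (nat_lit 11927552) (nat_lit 58966016)) (I.mix (nat_lit 18808832) (nat_lit 67977216)) (I.pos (nat_lit 159006720) (nat_lit 251936768)) (I.mix (nat_lit 128335872) (nat_lit 55640064)) (I.mix (nat_lit 127664128) (nat_lit 77463552)) (I.mix (nat_lit 130875392) (nat_lit 81035264)))
  false (nat_lit 0)
def b0_12 : Bx := Bx.mk (St.mk (I.mix (nat_lit 42467328) (nat_lit 117112832)) (I.mix (nat_lit 15876096) (nat_lit 35356672)) (I.mix (nat_lit 21741568) (nat_lit 11452416)) (I.pos (nat_lit 37634048) (nat_lit 112361472)) (I.mix (nat_lit 54886400) (nat_lit 35946496)) (I.mix (nat_lit 50626560) (nat_lit 38125568)) (I.mix (nat_lit 25985024) (nat_lit 20987904)))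
  false (nat_lit 0)
def b0_13 : Bx := Bx.mk (St.mk (I.pos (nat_lit 165134336) (nat_lit 205078528)) (I.mix (nat_lit 32669696) (nat_lit 13893632)) (I.mix (nat_lit 52363264) (nat_lit 6438912)) (I.pos (nat_lit 155205632) (nat_lit 222429184)) (I.mix (nat_lit 62619648) (nat_lit 59883520)) (I.mix (nat_lit 62963712) (nat_lit 59998208)) (I.mix (nat_lit 64831488) (nat_lit 56950784)))
  false (nat_lit 0)
def b0_14 : Bx := Bx.mk (St.mk (I.pos (nat_lit 141623296) (nat_lit 182894592)) (I.neg (nat_lit 1884160) (nat_lit 39075840)) (I.neg (nat_lit 9158656) (nat_lit 59604992)) (I.pos (nat_lit 125501440) (nat_lit 191987712)) (I.mix (nat_lit 43941888) (nat_lit 29655040)) (I.mix (nat_lit 26378240) (nat_lit 32718848)) (I.mix (nat_lit 27623424) (nat_lit 35618816)))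
  false (nat_lit 0)
def b0_15 : Bx := Bx.mk (St.mk (I.pos (nat_lit 164904960) (nat_lit 207831040)) (I.mix (nat_lit 17154048) (nat_lit 32047104)) (I.mix (nat_lit 31195136) (nat_lit 33521664)) (I.pos (nat_lit 160579584) (nat_lit 225689600)) (I.mix (nat_lit 104710144) (nat_lit 74465280)) (I.mix (nat_lit 115326976) (nat_lit 73924608)) (I.mix (nat_lit 122929152) (nat_lit 72318976)))
  false (nat_lit 0)
def b0_16 : Bx := Bx.mk (St.mk (I.pos (nat_lit 135217152) (nat_lit 185384960)) (I.mix (nat_lit 35487744) (nat_lit 7012352)) (I.neg (nat_lit 409600) (nat_lit 52936704)) (I.pos (nat_lit 119554048) (nat_lit 195002368)) (I.mix (nat_lit 58425344) (nat_lit 30851072)) (I.mix (nat_lit 43778048) (nat_lit 33947648)) (I.mix (nat_lit 45596672) (nat_lit 35864576)))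
  false (nat_lit 0)
def b0_17 : Bx := Bx.mk (St.mk (I.pos (nat_lit 171098112) (nat_lit 201424896)) (I.mix (nat_lit 18956288) (nat_lit 11714560)) (I.mix (nat_lit 32309248) (nat_lit 6127616)) (I.pos (nat_lit 162889728) (nat_lit 217300992)) (I.mix (nat_lit 45072384) (nat_lit 36044800)) (I.mix (nat_lit 39845888) (nat_lit 36536320)) (I.mix (nat_lit 40124416) (nat_lit 35340288)))
  false (nat_lit 0)
def b0_18 : Bx := Bx.mk (St.mk (I.pos (nat_lit 151568384) (nat_lit 188710912)) (I.mix (nat_lit 27656192) (nat_lit 9371648)) (I.mix (nat_lit 44056576) (nat_lit 2899968)) (I.pos (nat_lit 136003584) (nat_lit 199426048)) (I.mix (nat_lit 53002240) (nat_lit 28803072)) (I.mix (nat_lit 37404672) (nat_lit 35094528)) (I.mix (nat_lit 37896192) (nat_lit 36765696)))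
  false (nat_lit 0)
def b0_19 : Bx := Bx.mk (St.mk (I.pos (nat_lit 161742848) (nat_lit 198983680)) (I.mix (nat_lit 33275904) (nat_lit 11157504)) (I.mix (nat_lit 53182464) (nat_lit 3637248)) (I.pos (nat_lit 151863296) (nat_lit 213483520)) (I.mix (nat_lit 67551232) (nat_lit 50479104)) (I.mix (nat_lit 60571648) (nat_lit 56328192)) (I.mix (nat_lit 63062016) (nat_lit 56442880)))
  false (nat_lit 0)
def b0_20 : Bx := Bx.mk (St.mk (I.pos (nat_lit 147849216) (nat_lit 181551104)) (I.neg (nat_lit 1818624) (nat_lit 35815424)) (I.neg (nat_lit 10141696) (nat_lit 56229888)) (I.pos (nat_lit 131858432) (nat_lit 190169088)) (I.mix (nat_lit 46432256) (nat_lit 24035328)) (I.mix (nat_lit 26525696) (nat_lit 28377088)) (I.mix (nat_lit 28327936) (nat_lit 31522816)))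
  false (nat_lit 0)
def t0 : BTr := (BTr.n (BTr.n (BTr.n (BTr.n (BTr.b b0_0) (BTr.b b0_1)) (BTr.n (BTr.b b0_2) (BTr.n (BTr.b b0_3) (BTr.b b0_4)))) (BTr.n (BTr.n (BTr.b b0_5) (BTr.b b0_6)) (BTr.n (BTr.b b0_7) (BTr.n (BTr.b b0_8) (BTr.b b0_9))))) (BTr.n (BTr.n (BTr.n (BTr.b b0_10) (BTr.b b0_11)) (BTr.n (BTr.b b0_12) (BTr.n (BTr.b b0_13) (BTr.b b0_14)))) (BTr.n (BTr.n (BTr.b b0_15) (BTr.n (BTr.b b0_16) (BTr.b b0_17))) (BTr.n (BTr.b b0_18) (BTr.n (BTr.b b0_19) (BTr.b b0_20))))))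
namespace T0
def l0 : Tr := Tr.L (Pth.l (Pth.l (Pth.l (Pth.l Pth.z))))
def l1 : Tr := Tr.L (Pth.l (Pth.l (Pth.l (Pth.r Pth.z))))
def l2 : Tr := Tr.L (Pth.l (Pth.l (Pth.r (Pth.l Pth.z))))
def l3 : Tr := Tr.L (Pth.l (Pth.l (Pth.r (Pth.r (Pth.l Pth.z)))))
def l4 : Tr := Tr.L (Pth.l (Pth.l (Pth.r (Pth.r (Pth.r Pth.z)))))
def l5 : Tr := Tr.L (Pth.l (Pth.r (Pth.l (Pth.l Pth.z))))
def l6 : Tr := Tr.L (Pth.l (Pth.r (Pth.l (Pth.r Pth.z))))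
def l7 : Tr := Tr.L (Pth.l (Pth.r (Pth.r (Pth.l Pth.z))))
def l8 : Tr := Tr.L (Pth.l (Pth.r (Pth.r (Pth.r (Pth.l Pth.z)))))
def l9 : Tr := Tr.L (Pth.l (Pth.r (Pth.r (Pth.r (Pth.r Pth.z)))))
def l10 : Tr := Tr.L (Pth.r (Pth.l (Pth.l (Pth.l Pth.z))))
def l11 : Tr := Tr.L (Pth.r (Pth.l (Pth.l (Pth.r Pth.z))))
def l12 : Tr := Tr.L (Pth.r (Pth.l (Pth.r (Pth.l Pth.z))))
def l13 : Tr := Tr.L (Pth.r (Pth.l (Pth.r (Pth.r (Pth.l Pth.z)))))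
def l14 : Tr := Tr.L (Pth.r (Pth.l (Pth.r (Pth.r (Pth.r Pth.z)))))
def l15 : Tr := Tr.L (Pth.r (Pth.r (Pth.l (Pth.l Pth.z))))
def l16 : Tr := Tr.L (Pth.r (Pth.r (Pth.l (Pth.r (Pth.l Pth.z)))))
def l17 : Tr := Tr.L (Pth.r (Pth.r (Pth.l (Pth.r (Pth.r Pth.z)))))
def l18 : Tr := Tr.L (Pth.r (Pth.r (Pth.r (Pth.l Pth.z))))
def l19 : Tr := Tr.L (Pth.r (Pth.r (Pth.r (Pth.r (Pth.l Pth.z)))))
def l20 : Tr := Tr.L (Pth.r (Pth.r (Pth.r (Pth.r (Pth.r Pth.z)))))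
end T0
def b1_0 : Bx := Bx.mk (St.mk (I.pos (nat_lit 140525568) (nat_lit 219463680)) (I.mix (nat_lit 5472256) (nat_lit 92110848)) (I.mix (nat_lit 5947392) (nat_lit 100548608)) (I.pos (nat_lit 365101056) (nat_lit 459685888)) (I.mix (nat_lit 153075712) (nat_lit 88375296)) (I.mix (nat_lit 89112576) (nat_lit 81100800)) (I.mix (nat_lit 111935488) (nat_lit 112459776)))
  false (nat_lit 131291079)
def b1_1 : Bx := Bx.mk (St.mk (I.pos (nat_lit 18694144) (nat_lit 124485632)) (I.neg (nat_lit 540672) (nat_lit 90914816)) (I.mix (nat_lit 74661888) (nat_lit 12697600)) (I.pos (nat_lit 265437184) (nat_lit 333053952)) (I.mix (nat_lit 112181248) (nat_lit 78577664)) (I.mix (nat_lit 72908800) (nat_lit 85032960)) (I.mix (nat_lit 74350592) (nat_lit 72515584)))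
  false (nat_lit 45476446)
def b1_2 : Bx := Bx.mk (St.mk (I.mix (nat_lit 56770560) (nat_lit 17825792)) (I.mix (nat_lit 19169280) (nat_lit 87556096)) (I.neg (nat_lit 36487168) (nat_lit 66650112)) (I.pos (nat_lit 261881856) (nat_lit 293715968)) (I.mix (nat_lit 49119232) (nat_lit 113311744)) (I.mix (nat_lit 93143040) (nat_lit 67829760)) (I.mix (nat_lit 44613632) (nat_lit 31997952)))
  true (nat_lit 0)
def b1_3 : Bx := Bx.mk (St.mk (I.pos (nat_lit 91766784) (nat_lit 189841408)) (I.mix (nat_lit 46825472) (nat_lit 84099072)) (I.mix (nat_lit 38420480) (nat_lit 102907904)) (I.pos (nat_lit 299728896) (nat_lit 427982848)) (I.mix (nat_lit 172654592) (nat_lit 78839808)) (I.mix (nat_lit 150814720) (nat_lit 99549184)) (I.mix (nat_lit 144457728) (nat_lit 124829696)))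
  false (nat_lit 92810994)
def b1_4 : Bx := Bx.mk (St.mk (I.pos (nat_lit 12091392) (nat_lit 55099392)) (I.neg (nat_lit 32407552) (nat_lit 85573632)) (I.neg (nat_lit 38469632) (nat_lit 66535424)) (I.pos (nat_lit 267026432) (nat_lit 293421056)) (I.mix (nat_lit 113311744) (nat_lit 40075264)) (I.mix (nat_lit 67829760) (nat_lit 82870272)) (I.mix (nat_lit 44613632) (nat_lit 32014336)))
  false (nat_lit 9518484)
def b1_5 : Bx := Bx.mk (St.mk (I.neg (nat_lit 18235392) (nat_lit 132268032)) (I.pos (nat_lit 540672) (nat_lit 90931200)) (I.mix (nat_lit 74661888) (nat_lit 12697600)) (I.pos (nat_lit 265060352) (nat_lit 339755008)) (I.mix (nat_lit 78610432) (nat_lit 112181248)) (I.mix (nat_lit 84983808) (nat_lit 72908800)) (I.mix (nat_lit 74366976) (nat_lit 72515584)))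
  true (nat_lit 0)
def b1_6 : Bx := Bx.mk (St.mk (I.pos (nat_lit 203472896) (nat_lit 287227904)) (I.mix (nat_lit 21004288) (nat_lit 62472192)) (I.mix (nat_lit 136429568) (nat_lit 37519360)) (I.pos (nat_lit 446742528) (nat_lit 577814528)) (I.mix (nat_lit 77709312) (nat_lit 61882368)) (I.mix (nat_lit 65290240) (nat_lit 61603840)) (I.mix (nat_lit 109641728) (nat_lit 112951296)))
  false (nat_lit 92859547)
def b1_7 : Bx := Bx.mk (St.mk (I.mix (nat_lit 13762560) (nat_lit 26542080)) (I.mix (nat_lit 39485440) (nat_lit 10125312)) (I.neg (nat_lit 39501824) (nat_lit 53821440)) (I.pos (nat_lit 262799360) (nat_lit 275234816)) (I.mix (nat_lit 44187648) (nat_lit 28835840)) (I.mix (nat_lit 25559040) (nat_lit 29360128)) (I.mix (nat_lit 7782400) (nat_lit 9469952)))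
  false (nat_lit 0)
def b1_8 : Bx := Bx.mk (St.mk (I.pos (nat_lit 187269120) (nat_lit 235520000)) (I.pos (nat_lit 6225920) (nat_lit 54837248)) (I.mix (nat_lit 49823744) (nat_lit 28164096)) (I.pos (nat_lit 420429824) (nat_lit 478478336)) (I.mix (nat_lit 89161728) (nat_lit 82296832)) (I.mix (nat_lit 73105408) (nat_lit 65994752)) (I.mix (nat_lit 102596608) (nat_lit 102580224)))
  false (nat_lit 65372326)
def b1_9 : Bx := Bx.mk (St.mk (I.pos (nat_lit 11370496) (nat_lit 37060608)) (I.neg (nat_lit 8847360) (nat_lit 40271872)) (I.neg (nat_lit 37240832) (nat_lit 53428224)) (I.pos (nat_lit 264847360) (nat_lit 277446656)) (I.mix (nat_lit 62160896) (nat_lit 41058304)) (I.mix (nat_lit 41140224) (nat_lit 43728896)) (I.mix (nat_lit 12075008) (nat_lit 14712832)))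
  false (nat_lit 0)
def b1_10 : Bx := Bx.mk (St.mk (I.pos (nat_lit 238223360) (nat_lit 276791296)) (I.mix (nat_lit 33947648) (nat_lit 13254656)) (I.neg (nat_lit 56360960) (nat_lit 161529856)) (I.pos (nat_lit 487112704) (nat_lit 555794432)) (I.mix (nat_lit 78512128) (nat_lit 19185664)) (I.mix (nat_lit 39682048) (nat_lit 56426496)) (I.mix (nat_lit 53805056) (nat_lit 111378432)))
  false (nat_lit 8453708)
def b1_11 : Bx := Bx.mk (St.mk (I.mix (nat_lit 8962048) (nat_lit 20496384)) (I.mix (nat_lit 19906560) (nat_lit 16269312)) (I.neg (nat_lit 39632896) (nat_lit 51822592)) (I.pos (nat_lit 263127040) (nat_lit 272220160)) (I.mix (nat_lit 22118400) (nat_lit 27394048)) (I.mix (nat_lit 19152896) (nat_lit 17973248)) (I.mix (nat_lit 3063808) (nat_lit 6455296)))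
  false (nat_lit 0)
def b1_12 : Bx := Bx.mk (St.mk (I.pos (nat_lit 261963776) (nat_lit 282820608)) (I.neg (nat_lit 7651328) (nat_lit 29130752)) (I.neg (nat_lit 102842368) (nat_lit 159301632)) (I.pos (nat_lit 525991936) (nat_lit 568573952)) (I.mix (nat_lit 47955968) (nat_lit 15908864)) (I.mix (nat_lit 24461312) (nat_lit 28327936)) (I.mix (nat_lit 38567936) (nat_lit 60620800)))
  false (nat_lit 0)
def b1_13 : Bx := Bx.mk (St.mk (I.mix (nat_lit 9764864) (nat_lit 4358144)) (I.mix (nat_lit 4161536) (nat_lit 11173888)) (I.neg (nat_lit 40402944) (nat_lit 51347456)) (I.pos (nat_lit 263307264) (nat_lit 271138816)) (I.mix (nat_lit 5521408) (nat_lit 6422528)) (I.mix (nat_lit 2850816) (nat_lit 4292608)) (I.mix (nat_lit 1114112) (nat_lit 4243456)))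
  false (nat_lit 0)
def b1_14 : Bx := Bx.mk (St.mk (I.pos (nat_lit 169852928) (nat_lit 232947712)) (I.pos (nat_lit 7045120) (nat_lit 55754752)) (I.mix (nat_lit 47595520) (nat_lit 38338560)) (I.pos (nat_lit 400703488) (nat_lit 470663168)) (I.mix (nat_lit 94240768) (nat_lit 52363264)) (I.mix (nat_lit 60981248) (nat_lit 43974656)) (I.mix (nat_lit 82132992) (nat_lit 69419008)))
  false (nat_lit 52369139)
def b1_15 : Bx := Bx.mk (St.mk (I.pos (nat_lit 13877248) (nat_lit 46006272)) (I.neg (nat_lit 9207808) (nat_lit 48955392)) (I.neg (nat_lit 37109760) (nat_lit 54738944)) (I.pos (nat_lit 264650752) (nat_lit 281804800)) (I.mix (nat_lit 45137920) (nat_lit 41762816)) (I.mix (nat_lit 34914304) (nat_lit 37961728)) (I.mix (nat_lit 12402688) (nat_lit 14139392)))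
  false (nat_lit 0)
def b1_16 : Bx := Bx.mk (St.mk (I.pos (nat_lit 212795392) (nat_lit 278151168)) (I.mix (nat_lit 32456704) (nat_lit 40599552)) (I.neg (nat_lit 2408448) (nat_lit 157483008)) (I.pos (nat_lit 451592192) (nat_lit 557678592)) (I.mix (nat_lit 87736320) (nat_lit 33030144)) (I.mix (nat_lit 47398912) (nat_lit 63864832)) (I.mix (nat_lit 69140480) (nat_lit 124452864)))
  false (nat_lit 77068229)
def b1_17 : Bx := Bx.mk (St.mk (I.mix (nat_lit 9289728) (nat_lit 24526848)) (I.mix (nat_lit 25804800) (nat_lit 15630336)) (I.neg (nat_lit 39256064) (nat_lit 52150272)) (I.pos (nat_lit 263028736) (nat_lit 273154048)) (I.mix (nat_lit 30261248) (nat_lit 32063488)) (I.mix (nat_lit 22331392) (nat_lit 21692416)) (I.mix (nat_lit 4472832) (nat_lit 7307264)))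
  false (nat_lit 0)
def b1_18 : Bx := Bx.mk (St.mk (I.pos (nat_lit 153960448) (nat_lit 211255296)) (I.pos (nat_lit 22577152) (nat_lit 89669632)) (I.mix (nat_lit 7077888) (nat_lit 93782016)) (I.pos (nat_lit 391299072) (nat_lit 451575808)) (I.mix (nat_lit 124043264) (nat_lit 96141312)) (I.mix (nat_lit 101974016) (nat_lit 76709888)) (I.mix (nat_lit 151797760) (nat_lit 105496576)))
  false (nat_lit 99712971)
def b1_19 : Bx := Bx.mk (St.mk (I.pos (nat_lit 14761984) (nat_lit 47857664)) (I.neg (nat_lit 21086208) (nat_lit 75776000)) (I.neg (nat_lit 37748736) (nat_lit 64765952)) (I.pos (nat_lit 266928128) (nat_lit 288555008)) (I.mix (nat_lit 110854144) (nat_lit 49119232)) (I.mix (nat_lit 49233920) (nat_lit 93143040)) (I.mix (nat_lit 32948224) (nat_lit 28131328)))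
  false (nat_lit 0)
def b1_20 : Bx := Bx.mk (St.mk (I.pos (nat_lit 202604544) (nat_lit 294584320)) (I.mix (nat_lit 33013760) (nat_lit 62767104)) (I.mix (nat_lit 163954688) (nat_lit 36257792)) (I.pos (nat_lit 443613184) (nat_lit 593477632)) (I.mix (nat_lit 89604096) (nat_lit 79216640)) (I.mix (nat_lit 86605824) (nat_lit 63455232)) (I.mix (nat_lit 152797184) (nat_lit 116719616)))
  false (nat_lit 103904564)
def b1_21 : Bx := Bx.mk (St.mk (I.mix (nat_lit 17317888) (nat_lit 26984448)) (I.mix (nat_lit 39223296) (nat_lit 15925248)) (I.neg (nat_lit 39698432) (nat_lit 53936128)) (I.pos (nat_lit 262717440) (nat_lit 274956288)) (I.mix (nat_lit 48644096) (nat_lit 30687232)) (I.mix (nat_lit 22102016) (nat_lit 33472512)) (I.mix (nat_lit 7241728) (nat_lit 8454144)))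
  false (nat_lit 0)
def b1_22 : Bx := Bx.mk (St.mk (I.pos (nat_lit 205225984) (nat_lit 234192896)) (I.pos (nat_lit 22265856) (nat_lit 51511296)) (I.mix (nat_lit 24461312) (nat_lit 18563072)) (I.pos (nat_lit 449986560) (nat_lit 477069312)) (I.mix (nat_lit 48054272) (nat_lit 33554432)) (I.mix (nat_lit 32391168) (nat_lit 25018368)) (I.mix (nat_lit 45449216) (nat_lit 36208640)))
  false (nat_lit 0)
def b1_23 : Bx := Bx.mk (St.mk (I.pos (nat_lit 8962048) (nat_lit 25575424)) (I.neg (nat_lit 14532608) (nat_lit 34013184)) (I.neg (nat_lit 39600128) (nat_lit 52969472)) (I.pos (nat_lit 264519680) (nat_lit 275070976)) (I.mix (nat_lit 29442048) (nat_lit 11337728)) (I.mix (nat_lit 13008896) (nat_lit 17481728)) (I.mix (nat_lit 4915200) (nat_lit 7323648)))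
  false (nat_lit 0)
def t1 : BTr := (BTr.n (BTr.n (BTr.n (BTr.n (BTr.b b1_0) (BTr.n (BTr.b b1_1) (BTr.b b1_2))) (BTr.n (BTr.b b1_3) (BTr.n (BTr.b b1_4) (BTr.b b1_5)))) (BTr.n (BTr.n (BTr.b b1_6) (BTr.n (BTr.b b1_7) (BTr.b b1_8))) (BTr.n (BTr.b b1_9) (BTr.n (BTr.b b1_10) (BTr.b b1_11))))) (BTr.n (BTr.n (BTr.n (BTr.b b1_12) (BTr.n (BTr.b b1_13) (BTr.b b1_14))) (BTr.n (BTr.b b1_15) (BTr.n (BTr.b b1_16) (BTr.b b1_17)))) (BTr.n (BTr.n (BTr.b b1_18) (BTr.n (BTr.b b1_19) (BTr.b b1_20))) (BTr.n (BTr.b b1_21) (BTr.n (BTr.b b1_22) (BTr.b b1_23))))))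
namespace T1
def l0 : Tr := Tr.L (Pth.l (Pth.l (Pth.l (Pth.l Pth.z))))
def l1 : Tr := Tr.L (Pth.l (Pth.l (Pth.l (Pth.r (Pth.l Pth.z)))))
def l2 : Tr := Tr.L (Pth.l (Pth.l (Pth.l (Pth.r (Pth.r Pth.z)))))
def l3 : Tr := Tr.L (Pth.l (Pth.l (Pth.r (Pth.l Pth.z))))
def l4 : Tr := Tr.L (Pth.l (Pth.l (Pth.r (Pth.r (Pth.l Pth.z)))))
def l5 : Tr := Tr.L (Pth.l (Pth.l (Pth.r (Pth.r (Pth.r Pth.z)))))
def l6 : Tr := Tr.L (Pth.l (Pth.r (Pth.l (Pth.l Pth.z))))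
def l7 : Tr := Tr.L (Pth.l (Pth.r (Pth.l (Pth.r (Pth.l Pth.z)))))
def l8 : Tr := Tr.L (Pth.l (Pth.r (Pth.l (Pth.r (Pth.r Pth.z)))))
def l9 : Tr := Tr.L (Pth.l (Pth.r (Pth.r (Pth.l Pth.z))))
def l10 : Tr := Tr.L (Pth.l (Pth.r (Pth.r (Pth.r (Pth.l Pth.z)))))
def l11 : Tr := Tr.L (Pth.l (Pth.r (Pth.r (Pth.r (Pth.r Pth.z)))))
def l12 : Tr := Tr.L (Pth.r (Pth.l (Pth.l (Pth.l Pth.z))))
def l13 : Tr := Tr.L (Pth.r (Pth.l (Pth.l (Pth.r (Pth.l Pth.z)))))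
def l14 : Tr := Tr.L (Pth.r (Pth.l (Pth.l (Pth.r (Pth.r Pth.z)))))
def l15 : Tr := Tr.L (Pth.r (Pth.l (Pth.r (Pth.l Pth.z))))
def l16 : Tr := Tr.L (Pth.r (Pth.l (Pth.r (Pth.r (Pth.l Pth.z)))))
def l17 : Tr := Tr.L (Pth.r (Pth.l (Pth.r (Pth.r (Pth.r Pth.z)))))
def l18 : Tr := Tr.L (Pth.r (Pth.r (Pth.l (Pth.l Pth.z))))
def l19 : Tr := Tr.L (Pth.r (Pth.r (Pth.l (Pth.r (Pth.l Pth.z)))))
def l20 : Tr := Tr.L (Pth.r (Pth.r (Pth.l (Pth.r (Pth.r Pth.z)))))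
def l21 : Tr := Tr.L (Pth.r (Pth.r (Pth.r (Pth.l Pth.z))))
def l22 : Tr := Tr.L (Pth.r (Pth.r (Pth.r (Pth.r (Pth.l Pth.z)))))
def l23 : Tr := Tr.L (Pth.r (Pth.r (Pth.r (Pth.r (Pth.r Pth.z)))))
end T1
def b2_0 : Bx := Bx.mk (St.mk (I.pos (nat_lit 146849792) (nat_lit 230031360)) (I.mix (nat_lit 3096576) (nat_lit 52117504)) (I.mix (nat_lit 6668288) (nat_lit 115146752)) (I.pos (nat_lit 137510912) (nat_lit 248086528)) (I.mix (nat_lit 135593984) (nat_lit 85147648)) (I.mix (nat_lit 107642880) (nat_lit 91652096)) (I.mix (nat_lit 142426112) (nat_lit 112558080)))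
  false (nat_lit 26434285)
def b2_1 : Bx := Bx.mk (St.mk (I.pos (nat_lit 105201664) (nat_lit 173916160)) (I.neg (nat_lit 3899392) (nat_lit 59179008)) (I.mix (nat_lit 39124992) (nat_lit 25247744)) (I.pos (nat_lit 103448576) (nat_lit 175112192)) (I.mix (nat_lit 70713344) (nat_lit 58884096)) (I.mix (nat_lit 44974080) (nat_lit 61456384)) (I.mix (nat_lit 40910848) (nat_lit 59555840)))
  false (nat_lit 21588016)
def b2_2 : Bx := Bx.mk (St.mk (I.mix (nat_lit 23101440) (nat_lit 84279296)) (I.mix (nat_lit 33177600) (nat_lit 4685824)) (I.mix (nat_lit 8290304) (nat_lit 16171008)) (I.pos (nat_lit 40484864) (nat_lit 89489408)) (I.mix (nat_lit 32653312) (nat_lit 42106880)) (I.mix (nat_lit 23920640) (nat_lit 35536896)) (I.mix (nat_lit 11239424) (nat_lit 19021824)))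
  false (nat_lit 0)
def b2_3 : Bx := Bx.mk (St.mk (I.pos (nat_lit 153649152) (nat_lit 205225984)) (I.mix (nat_lit 13565952) (nat_lit 51527680)) (I.pos (nat_lit 20201472) (nat_lit 106790912)) (I.pos (nat_lit 135331840) (nat_lit 216006656)) (I.mix (nat_lit 142360576) (nat_lit 46088192)) (I.mix (nat_lit 131825664) (nat_lit 70615040)) (I.mix (nat_lit 145063936) (nat_lit 57688064)))
  false (nat_lit 42139877)
def b2_4 : Bx := Bx.mk (St.mk (I.mix (nat_lit 38600704) (nat_lit 108150784)) (I.mix (nat_lit 14172160) (nat_lit 35717120)) (I.mix (nat_lit 1064960) (nat_lit 37847040)) (I.pos (nat_lit 38846464) (nat_lit 104677376)) (I.mix (nat_lit 64536576) (nat_lit 38141952)) (I.mix (nat_lit 60309504) (nat_lit 32456704)) (I.mix (nat_lit 34095104) (nat_lit 18776064)))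
  false (nat_lit 0)
def b2_5 : Bx := Bx.mk (St.mk (I.pos (nat_lit 155500544) (nat_lit 198770688)) (I.mix (nat_lit 41664512) (nat_lit 4603904)) (I.mix (nat_lit 13467648) (nat_lit 46071808)) (I.pos (nat_lit 137854976) (nat_lit 206422016)) (I.mix (nat_lit 62259200) (nat_lit 76480512)) (I.mix (nat_lit 69926912) (nat_lit 66224128)) (I.mix (nat_lit 63340544) (nat_lit 66486272)))
  false (nat_lit 73708654)
def b2_6 : Bx := Bx.mk (St.mk (I.pos (nat_lit 133824512) (nat_lit 172556288)) (I.neg (nat_lit 1441792) (nat_lit 38305792)) (I.mix (nat_lit 11403264) (nat_lit 30146560)) (I.pos (nat_lit 118636544) (nat_lit 174145536)) (I.mix (nat_lit 66011136) (nat_lit 40927232)) (I.mix (nat_lit 38944768) (nat_lit 48758784)) (I.mix (nat_lit 41517056) (nat_lit 41549824)))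
  false (nat_lit 0)
def b2_7 : Bx := Bx.mk (St.mk (I.mix (nat_lit 48742400) (nat_lit 87982080)) (I.mix (nat_lit 18137088) (nat_lit 8798208)) (I.pos (nat_lit 835584) (nat_lit 17793024)) (I.pos (nat_lit 41041920) (nat_lit 90882048)) (I.mix (nat_lit 30408704) (nat_lit 22593536)) (I.mix (nat_lit 21299200) (nat_lit 22118400)) (I.mix (nat_lit 11681792) (nat_lit 10436608)))
  false (nat_lit 0)
def b2_8 : Bx := Bx.mk (St.mk (I.pos (nat_lit 152600576) (nat_lit 199966720)) (I.mix (nat_lit 26984448) (nat_lit 25264128)) (I.pos (nat_lit 7503872) (nat_lit 72351744)) (I.pos (nat_lit 134922240) (nat_lit 206127104)) (I.mix (nat_lit 126205952) (nat_lit 78544896)) (I.mix (nat_lit 127057920) (nat_lit 71925760)) (I.mix (nat_lit 136658944) (nat_lit 66879488)))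
  false (nat_lit 69984686)
def b2_9 : Bx := Bx.mk (St.mk (I.pos (nat_lit 148799488) (nat_lit 185204736)) (I.neg (nat_lit 9486336) (nat_lit 39419904)) (I.mix (nat_lit 13238272) (nat_lit 22855680)) (I.pos (nat_lit 132579328) (nat_lit 191774720)) (I.mix (nat_lit 45858816) (nat_lit 43728896)) (I.mix (nat_lit 44236800) (nat_lit 33193984)) (I.mix (nat_lit 42516480) (nat_lit 33275904)))
  false (nat_lit 0)
def b2_10 : Bx := Bx.mk (St.mk (I.mix (nat_lit 32997376) (nat_lit 126337024)) (I.mix (nat_lit 10862592) (nat_lit 29655040)) (I.mix (nat_lit 1146880) (nat_lit 32374784)) (I.pos (nat_lit 38109184) (nat_lit 119521280)) (I.mix (nat_lit 52019200) (nat_lit 42287104)) (I.mix (nat_lit 47038464) (nat_lit 34996224)) (I.mix (nat_lit 33275904) (nat_lit 22888448)))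
  false (nat_lit 0)
def b2_11 : Bx := Bx.mk (St.mk (I.pos (nat_lit 91045888) (nat_lit 148750336)) (I.mix (nat_lit 58327040) (nat_lit 14123008)) (I.mix (nat_lit 36601856) (nat_lit 22626304)) (I.pos (nat_lit 75988992) (nat_lit 150896640)) (I.mix (nat_lit 79282176) (nat_lit 43974656)) (I.mix (nat_lit 44056576) (nat_lit 76742656)) (I.mix (nat_lit 32243712) (nat_lit 54345728)))
  false (nat_lit 13846731)
def b2_12 : Bx := Bx.mk (St.mk (I.mix (nat_lit 39485440) (nat_lit 78168064)) (I.mix (nat_lit 32718848) (nat_lit 6979584)) (I.mix (nat_lit 6422528) (nat_lit 12943360)) (I.pos (nat_lit 39993344) (nat_lit 85770240)) (I.mix (nat_lit 36716544) (nat_lit 25329664)) (I.mix (nat_lit 24248320) (nat_lit 32489472)) (I.mix (nat_lit 9748480) (nat_lit 11730944)))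
  false (nat_lit 0)
def b2_13 : Bx := Bx.mk (St.mk (I.pos (nat_lit 181895168) (nat_lit 237715456)) (I.mix (nat_lit 2523136) (nat_lit 31571968)) (I.pos (nat_lit 20316160) (nat_lit 84148224)) (I.pos (nat_lit 192315392) (nat_lit 264880128)) (I.mix (nat_lit 94257152) (nat_lit 41680896)) (I.mix (nat_lit 62947328) (nat_lit 44859392)) (I.mix (nat_lit 95076352) (nat_lit 62881792)))
  false (nat_lit 17711570)
def b2_14 : Bx := Bx.mk (St.mk (I.pos (nat_lit 216121344) (nat_lit 272629760)) (I.mix (nat_lit 23166976) (nat_lit 24559616)) (I.mix (nat_lit 16924672) (nat_lit 73908224)) (I.pos (nat_lit 238059520) (nat_lit 345800704)) (I.mix (nat_lit 68501504) (nat_lit 21659648)) (I.mix (nat_lit 36487168) (nat_lit 44515328)) (I.mix (nat_lit 62357504) (nat_lit 71172096)))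
  false (nat_lit 0)
def b2_15 : Bx := Bx.mk (St.mk (I.pos (nat_lit 169394176) (nat_lit 228294656)) (I.pos (nat_lit 7536640) (nat_lit 50429952)) (I.pos (nat_lit 37748736) (nat_lit 112869376)) (I.pos (nat_lit 179994624) (nat_lit 245563392)) (I.mix (nat_lit 113197056) (nat_lit 90832896)) (I.mix (nat_lit 106545152) (nat_lit 78299136)) (I.mix (nat_lit 156352512) (nat_lit 100368384)))
  false (nat_lit 53271997)
def b2_16 : Bx := Bx.mk (St.mk (I.pos (nat_lit 210780160) (nat_lit 287490048)) (I.mix (nat_lit 22675456) (nat_lit 38633472)) (I.mix (nat_lit 15433728) (nat_lit 98893824)) (I.pos (nat_lit 226541568) (nat_lit 376782848)) (I.mix (nat_lit 71319552) (nat_lit 70893568)) (I.mix (nat_lit 76922880) (nat_lit 56573952)) (I.mix (nat_lit 128892928) (nat_lit 93618176)))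
  false (nat_lit 61676061)
def b2_17 : Bx := Bx.mk (St.mk (I.pos (nat_lit 259702784) (nat_lit 283017216)) (I.neg (nat_lit 311296) (nat_lit 28393472)) (I.mix (nat_lit 27410432) (nat_lit 27688960)) (I.pos (nat_lit 310378496) (nat_lit 367542272)) (I.mix (nat_lit 51363840) (nat_lit 26902528)) (I.mix (nat_lit 31309824) (nat_lit 33931264)) (I.mix (nat_lit 55705600) (nat_lit 52887552)))
  false (nat_lit 0)
def b2_18 : Bx := Bx.mk (St.mk (I.pos (nat_lit 205127680) (nat_lit 283000832)) (I.mix (nat_lit 6029312) (nat_lit 37027840)) (I.pos (nat_lit 13172736) (nat_lit 95928320)) (I.pos (nat_lit 218103808) (nat_lit 367247360)) (I.mix (nat_lit 69632000) (nat_lit 47759360)) (I.mix (nat_lit 47235072) (nat_lit 43368448)) (I.mix (nat_lit 75677696) (nat_lit 71073792)))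
  false (nat_lit 22008377)
def b2_19 : Bx := Bx.mk (St.mk (I.pos (nat_lit 190169088) (nat_lit 242008064)) (I.mix (nat_lit 4096000) (nat_lit 33849344)) (I.pos (nat_lit 17858560) (nat_lit 90259456)) (I.pos (nat_lit 203685888) (nat_lit 275185664)) (I.mix (nat_lit 88719360) (nat_lit 53723136)) (I.mix (nat_lit 63946752) (nat_lit 49922048)) (I.mix (nat_lit 100597760) (nat_lit 77856768)))
  false (nat_lit 40271911)
def b2_20 : Bx := Bx.mk (St.mk (I.pos (nat_lit 248430592) (nat_lit 279658496)) (I.mix (nat_lit 30015488) (nat_lit 3260416)) (I.mix (nat_lit 29851648) (nat_lit 36913152)) (I.pos (nat_lit 290897920) (nat_lit 359251968)) (I.mix (nat_lit 61882368) (nat_lit 33439744)) (I.mix (nat_lit 36061184) (nat_lit 39485440)) (I.mix (nat_lit 63700992) (nat_lit 62881792)))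
  false (nat_lit 0)
def b2_21 : Bx := Bx.mk (St.mk (I.pos (nat_lit 190922752) (nat_lit 231063552)) (I.pos (nat_lit 6356992) (nat_lit 29884416)) (I.pos (nat_lit 35160064) (nat_lit 80117760)) (I.pos (nat_lit 201670656) (nat_lit 250396672)) (I.mix (nat_lit 74989568) (nat_lit 23478272)) (I.mix (nat_lit 45367296) (nat_lit 26083328)) (I.mix (nat_lit 71434240) (nat_lit 34226176)))
  false (nat_lit 0)
def t2 : BTr := (BTr.n (BTr.n (BTr.n (BTr.n (BTr.b b2_0) (BTr.b b2_1)) (BTr.n (BTr.b b2_2) (BTr.n (BTr.b b2_3) (BTr.b b2_4)))) (BTr.n (BTr.n (BTr.b b2_5) (BTr.n (BTr.b b2_6) (BTr.b b2_7))) (BTr.n (BTr.b b2_8) (BTr.n (BTr.b b2_9) (BTr.b b2_10))))) (BTr.n (BTr.n (BTr.n (BTr.b b2_11) (BTr.b b2_12)) (BTr.n (BTr.b b2_13) (BTr.n (BTr.b b2_14) (BTr.b b2_15)))) (BTr.n (BTr.n (BTr.b b2_16) (BTr.n (BTr.b b2_17) (BTr.b b2_18))) (BTr.n (BTr.b b2_19) (BTr.n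 (BTr.b b2_20) (BTr.b b2_21))))))
namespace T2
def l0 : Tr := Tr.L (Pth.l (Pth.l (Pth.l (Pth.l Pth.z))))
def l1 : Tr := Tr.L (Pth.l (Pth.l (Pth.l (Pth.r Pth.z))))
def l2 : Tr := Tr.L (Pth.l (Pth.l (Pth.r (Pth.l Pth.z))))
def l3 : Tr := Tr.L (Pth.l (Pth.l (Pth.r (Pth.r (Pth.l Pth.z)))))
def l4 : Tr := Tr.L (Pth.l (Pth.l (Pth.r (Pth.r (Pth.r Pth.z)))))
def l5 : Tr := Tr.L (Pth.l (Pth.r (Pth.l (Pth.l Pth.z))))
def l6 : Tr := Tr.L (Pth.l (Pth.r (Pth.l (Pth.r (Pth.l Pth.z)))))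
def l7 : Tr := Tr.L (Pth.l (Pth.r (Pth.l (Pth.r (Pth.r Pth.z)))))
def l8 : Tr := Tr.L (Pth.l (Pth.r (Pth.r (Pth.l Pth.z))))
def l9 : Tr := Tr.L (Pth.l (Pth.r (Pth.r (Pth.r (Pth.l Pth.z)))))
def l10 : Tr := Tr.L (Pth.l (Pth.r (Pth.r (Pth.r (Pth.r Pth.z)))))
def l11 : Tr := Tr.L (Pth.r (Pth.l (Pth.l (Pth.l Pth.z))))
def l12 : Tr := Tr.L (Pth.r (Pth.l (Pth.l (Pth.r Pth.z))))
def l13 : Tr := Tr.L (Pth.r (Pth.l (Pth.r (Pth.l Pth.z))))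
def l14 : Tr := Tr.L (Pth.r (Pth.l (Pth.r (Pth.r (Pth.l Pth.z)))))
def l15 : Tr := Tr.L (Pth.r (Pth.l (Pth.r (Pth.r (Pth.r Pth.z)))))
def l16 : Tr := Tr.L (Pth.r (Pth.r (Pth.l (Pth.l Pth.z))))
def l17 : Tr := Tr.L (Pth.r (Pth.r (Pth.l (Pth.r (Pth.l Pth.z)))))
def l18 : Tr := Tr.L (Pth.r (Pth.r (Pth.l (Pth.r (Pth.r Pth.z)))))
def l19 : Tr := Tr.L (Pth.r (Pth.r (Pth.r (Pth.l Pth.z))))
def l20 : Tr := Tr.L (Pth.r (Pth.r (Pth.r (Pth.r (Pth.l Pth.z)))))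
def l21 : Tr := Tr.L (Pth.r (Pth.r (Pth.r (Pth.r (Pth.r Pth.z)))))
end T2
theorem bx0_0 : BoxOK sI cl4 cl7 cl7 t1 t1 b0_0 :=
  box_mk (TrL.c (I.pos (nat_lit 0) (nat_lit 0)) (xa (xb (xa (xb T1.l0 T1.l0) T1.l0) (xa (xb T1.l0 (xa (xb T1.l0 T1.l0) (xs T1.l0 T1.l0))) (xb T1.l0 (xa T1.l0 T1.l0)))) (xb (xa T1.l0 (xb T1.l0 T1.l0)) (xa (xb T1.l0 (xa T1.l0 T1.l0)) (xb T1.l0 (xa T1.l0 (xs T1.l0 T1.l0))))))
  (TrL.c (I.pos (nat_lit 0) (nat_lit 0)) (xa (xb T1.l1 T1.l1) (xb T1.l1 (xa T1.l1 T1.l1)))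
  (TrL.c (I.pos (nat_lit 0) (nat_lit 0)) (xa T1.l2 T1.l2)
  (TrL.c (I.pos (nat_lit 0) (nat_lit 0)) (xa T1.l3 (xb T1.l3 (xa T1.l3 T1.l3)))
  (TrL.c (I.pos (nat_lit 0) (nat_lit 0)) (xa (xb T1.l4 T1.l4) T1.l4)
  (TrL.c (I.pos (nat_lit 0) (nat_lit 0)) (xa (xb T1.l5 T1.l5) (xb T1.l5 (xa T1.l5 T1.l5)))
  TrL.n)))))) (by decide +kernel)
theorem bx0_1 : BoxOK sI cl4 cl7 cl7 t1 t1 b0_1 :=
  box_mk (TrL.c (I.pos (nat_lit 0) (nat_lit 0)) (xa (xa (xb (xa (xb T1.l20 T1.l6) T1.l6) (xa (xb T1.l20 T1.l20) T1.l20)) (xb T1.l6 T1.l20)) (xa T1.l20 (xb (xa T1.l6 T1.l8) (xa T1.l6 T1.l6))))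
  (TrL.c (I.pos (nat_lit 0) (nat_lit 0)) (xa (xa T1.l3 T1.l1) T1.l1)
  (TrL.c (I.pos (nat_lit 0) (nat_lit 0)) T1.l2
  (TrL.c (I.pos (nat_lit 0) (nat_lit 0)) (xa T1.l3 T1.l3)
  (TrL.c (I.pos (nat_lit 0) (nat_lit 0)) (xa T1.l7 T1.l7)
  (TrL.c (I.pos (nat_lit 0) (nat_lit 0)) T1.l5
  TrL.n)))))) (by decide +kernel)
theorem bx0_2 : BoxOK sI cl4 cl7 cl7 t1 t1 b0_2 :=
  box_mk (TrL.c (I.pos (nat_lit 0) (nat_lit 0)) (xb (xa T1.l8 T1.l8) (xa (xb T1.l8 T1.l8) (xb T1.l8 T1.l8)))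
  (TrL.c (I.pos (nat_lit 0) (nat_lit 0)) T1.l1
  (TrL.c (I.pos (nat_lit 0) (nat_lit 0)) T1.l2
  (TrL.c (I.pos (nat_lit 0) (nat_lit 0)) T1.l3
  (TrL.c (I.pos (nat_lit 0) (nat_lit 0)) T1.l9
  (TrL.c (I.pos (nat_lit 0) (nat_lit 0)) T1.l5
  TrL.n)))))) (by decide +kernel)
theorem bx0_3 : BoxOK sI cl4 cl7 cl7 t1 t1 b0_3 :=
  box_mk (TrL.c (I.pos (nat_lit 0) (nat_lit 0)) (xa (xa (xb (xa (xb T1.l10 T1.l16) T1.l16) T1.l20) T1.l20) T1.l6)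
  (TrL.c (I.pos (nat_lit 0) (nat_lit 0)) T1.l1
  (TrL.c (I.pos (nat_lit 0) (nat_lit 0)) T1.l2
  (TrL.c (I.pos (nat_lit 0) (nat_lit 0)) T1.l3
  (TrL.c (I.pos (nat_lit 0) (nat_lit 0)) (xa T1.l11 T1.l7)
  (TrL.c (I.pos (nat_lit 0) (nat_lit 0)) T1.l5
  TrL.n)))))) (by decide +kernel)
theorem bx0_4 : BoxOK sI cl4 cl7 cl7 t1 t1 b0_4 :=
  box_mk (TrL.c (I.pos (nat_lit 0) (nat_lit 0)) (xa (xb (xa T1.l0 T1.l0) (xa T1.l0 T1.l0)) (xb T1.l3 (xa T1.l0 T1.l3)))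
  (TrL.c (I.pos (nat_lit 0) (nat_lit 0)) (xa T1.l1 T1.l1)
  (TrL.c (I.pos (nat_lit 0) (nat_lit 0)) T1.l5
  (TrL.c (I.pos (nat_lit 0) (nat_lit 0)) (xa T1.l3 (xb T1.l3 T1.l3))
  (TrL.c (I.pos (nat_lit 0) (nat_lit 0)) T1.l1
  (TrL.c (I.pos (nat_lit 0) (nat_lit 0)) (xa T1.l5 T1.l5)
  TrL.n)))))) (by decide +kernel)
theorem bx0_5 : BoxOK sI cl4 cl7 cl7 t1 t1 b0_5 :=
  box_mk (TrL.c (I.pos (nat_lit 0) (nat_lit 0)) T1.l6
  (TrL.c (I.pos (nat_lit 0) (nat_lit 0)) T1.l1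
  (TrL.c (I.pos (nat_lit 0) (nat_lit 0)) T1.l2
  (TrL.c (I.pos (nat_lit 0) (nat_lit 0)) T1.l3
  (TrL.c (I.pos (nat_lit 0) (nat_lit 0)) T1.l7
  (TrL.c (I.pos (nat_lit 0) (nat_lit 0)) T1.l5
  TrL.n)))))) (by decide +kernel)
theorem bx0_6 : BoxOK sI cl4 cl7 cl7 t1 t1 b0_6 :=
  box_mk (TrL.c (I.pos (nat_lit 0) (nat_lit 0)) (xa (xa T1.l20 T1.l20) T1.l6)
  (TrL.c (I.pos (nat_lit 0) (nat_lit 0)) T1.l3
  (TrL.c (I.pos (nat_lit 0) (nat_lit 0)) T1.l2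
  (TrL.c (I.pos (nat_lit 0) (nat_lit 0)) T1.l3
  (TrL.c (I.pos (nat_lit 0) (nat_lit 0)) T1.l21
  (TrL.c (I.pos (nat_lit 0) (nat_lit 0)) T1.l5
  TrL.n)))))) (by decide +kernel)
theorem bx0_7 : BoxOK sI cl4 cl7 cl7 t1 t1 b0_7 :=
  box_mk (TrL.c (I.pos (nat_lit 0) (nat_lit 0)) (xa (xb (xa (xb T1.l0 T1.l0) (xb T1.l0 T1.l0)) (xa (xb (xs T1.l0 (xa T1.l0 T1.l0)) (xs T1.l0 (xa T1.l0 T1.l0))) (xb (xs T1.l0 T1.l0) (xs T1.l0 (xa T1.l0 T1.l0))))) (xb (xa T1.l3 (xb T1.l0 T1.l3)) (xa (xb (xs T1.l0 T1.l0) (xs T1.l0 (xa T1.l0 T1.l0))) (xb (xs T1.l0 (xa T1.l0 T1.l0)) (xs (xa T1.l0 T1.l0) (xa T1.l0 T1.l0))))))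
  (TrL.c (I.pos (nat_lit 0) (nat_lit 0)) (xa (xb T1.l1 T1.l1) (xb T1.l1 (xa T1.l1 T1.l1)))
  (TrL.c (I.pos (nat_lit 0) (nat_lit 0)) (xa T1.l2 (xb T1.l2 T1.l2))
  (TrL.c (I.pos (nat_lit 0) (nat_lit 0)) (xa (xb T1.l3 T1.l3) (xb (xa T1.l3 (xb T1.l3 T1.l3)) (xa T1.l3 (xb T1.l3 T1.l3))))
  (TrL.c (I.pos (nat_lit 0) (nat_lit 0)) (xa (xb T1.l1 T1.l4) (xb T1.l1 T1.l4))
  (TrL.c (I.pos (nat_lit 0) (nat_lit 0)) (xa (xb T1.l5 T1.l5) (xb T1.l5 (xa T1.l5 T1.l5)))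
  TrL.n)))))) (by decide +kernel)
theorem bx0_8 : BoxOK sI cl4 cl7 cl7 t1 t1 b0_8 :=
  box_mk (TrL.c (I.pos (nat_lit 0) (nat_lit 0)) (xa T1.l0 T1.l3)
  (TrL.c (I.pos (nat_lit 0) (nat_lit 0)) (xa T1.l1 T1.l1)
  (TrL.c (I.pos (nat_lit 0) (nat_lit 0)) T1.l5
  (TrL.c (I.pos (nat_lit 0) (nat_lit 0)) (xa T1.l3 T1.l3)
  (TrL.c (I.pos (nat_lit 0) (nat_lit 0)) T1.l1
  (TrL.c (I.pos (nat_lit 0) (nat_lit 0)) T1.l5
  TrL.n)))))) (by decide +kernel)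
theorem bx0_9 : BoxOK sI cl4 cl7 cl7 t1 t1 b0_9 :=
  box_mk (TrL.c (I.pos (nat_lit 0) (nat_lit 0)) (xa (xb (xa T1.l8 T1.l8) T1.l8) (xb (xa T1.l14 T1.l14) (xa T1.l14 T1.l0)))
  (TrL.c (I.pos (nat_lit 0) (nat_lit 0)) T1.l1
  (TrL.c (I.pos (nat_lit 0) (nat_lit 0)) T1.l2
  (TrL.c (I.pos (nat_lit 0) (nat_lit 0)) T1.l3
  (TrL.c (I.pos (nat_lit 0) (nat_lit 0)) (xa T1.l15 T1.l1)
  (TrL.c (I.pos (nat_lit 0) (nat_lit 0)) T1.l5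
  TrL.n)))))) (by decide +kernel)
theorem bx0_10 : BoxOK sI cl4 cl7 cl7 t1 t1 b0_10 :=
  box_mk (TrL.c (I.pos (nat_lit 0) (nat_lit 0)) (xa (xa (xb (xa (xb T1.l16 T1.l20) T1.l20) T1.l20) T1.l20) T1.l20)
  (TrL.c (I.pos (nat_lit 0) (nat_lit 0)) T1.l1
  (TrL.c (I.pos (nat_lit 0) (nat_lit 0)) T1.l2
  (TrL.c (I.pos (nat_lit 0) (nat_lit 0)) T1.l3
  (TrL.c (I.pos (nat_lit 0) (nat_lit 0)) (xa T1.l17 T1.l7)
  (TrL.c (I.pos (nat_lit 0) (nat_lit 0)) T1.l5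
  TrL.n)))))) (by decide +kernel)
theorem bx0_11 : BoxOK sI cl4 cl7 cl7 t1 t1 b0_11 :=
  box_mk (TrL.c (I.pos (nat_lit 0) (nat_lit 0)) (xb (xa (xb (xa T1.l18 T1.l18) (xa T1.l18 T1.l18)) (xb (xa T1.l18 T1.l3) (xa T1.l18 T1.l18))) (xa (xb (xa (xb T1.l18 T1.l18) (xb T1.l18 T1.l18)) (xa (xb T1.l18 (xs T1.l18 T1.l18)) (xb T1.l18 (xs T1.l18 T1.l18)))) (xb (xa T1.l18 (xb T1.l18 T1.l18)) (xa (xs T1.l18 (xb T1.l18 T1.l18)) (xs T1.l18 (xb T1.l18 T1.l18))))))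
  (TrL.c (I.pos (nat_lit 0) (nat_lit 0)) (xb (xa T1.l1 T1.l1) (xa T1.l1 (xb T1.l1 T1.l1)))
  (TrL.c (I.pos (nat_lit 0) (nat_lit 0)) (xb (xa T1.l2 T1.l2) (xa T1.l2 T1.l2))
  (TrL.c (I.pos (nat_lit 0) (nat_lit 0)) (xb (xa T1.l3 (xb T1.l3 T1.l3)) (xa T1.l3 (xb T1.l3 T1.l3)))
  (TrL.c (I.pos (nat_lit 0) (nat_lit 0)) (xa T1.l19 (xb T1.l19 T1.l19))
  (TrL.c (I.pos (nat_lit 0) (nat_lit 0)) (xb (xa T1.l5 T1.l5) (xa T1.l5 (xb T1.l5 T1.l5)))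
  TrL.n)))))) (by decide +kernel)
theorem bx0_12 : BoxOK sI cl4 cl7 cl7 t1 t1 b0_12 :=
  box_mk (TrL.c (I.pos (nat_lit 0) (nat_lit 0)) (xa (xa (xb (xa (xb (xa T1.l20 T1.l20) T1.l20) T1.l20) (xa (xb T1.l20 (xa T1.l20 T1.l20)) (xb T1.l20 (xa T1.l20 T1.l20)))) (xb T1.l20 (xa (xb T1.l20 T1.l20) T1.l20))) (xa (xb T1.l20 (xa T1.l20 T1.l20)) (xb (xa T1.l20 T1.l8) (xa T1.l20 T1.l20))))
  (TrL.c (I.pos (nat_lit 0) (nat_lit 0)) (xa (xa T1.l3 T1.l1) T1.l1)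
  (TrL.c (I.pos (nat_lit 0) (nat_lit 0)) (xa T1.l2 T1.l2)
  (TrL.c (I.pos (nat_lit 0) (nat_lit 0)) (xa (xa T1.l1 T1.l3) T1.l3)
  (TrL.c (I.pos (nat_lit 0) (nat_lit 0)) (xa T1.l21 (xa T1.l21 T1.l21))
  (TrL.c (I.pos (nat_lit 0) (nat_lit 0)) (xa T1.l5 T1.l5)
  TrL.n)))))) (by decide +kernel)
theorem bx0_13 : BoxOK sI cl4 cl7 cl7 t1 t1 b0_13 :=
  box_mk (TrL.c (I.pos (nat_lit 0) (nat_lit 0)) T1.l0
  (TrL.c (I.pos (nat_lit 0) (nat_lit 0)) T1.l1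
  (TrL.c (I.pos (nat_lit 0) (nat_lit 0)) T1.l2
  (TrL.c (I.pos (nat_lit 0) (nat_lit 0)) T1.l3
  (TrL.c (I.pos (nat_lit 0) (nat_lit 0)) T1.l1
  (TrL.c (I.pos (nat_lit 0) (nat_lit 0)) T1.l5
  TrL.n)))))) (by decide +kernel)
theorem bx0_14 : BoxOK sI cl4 cl7 cl7 t1 t1 b0_14 :=
  box_mk (TrL.c (I.pos (nat_lit 0) (nat_lit 0)) (xa (xb T1.l14 T1.l0) T1.l18)
  (TrL.c (I.pos (nat_lit 0) (nat_lit 0)) T1.l1
  (TrL.c (I.pos (nat_lit 0) (nat_lit 0)) T1.l2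
  (TrL.c (I.pos (nat_lit 0) (nat_lit 0)) T1.l3
  (TrL.c (I.pos (nat_lit 0) (nat_lit 0)) T1.l19
  (TrL.c (I.pos (nat_lit 0) (nat_lit 0)) T1.l5
  TrL.n)))))) (by decide +kernel)
theorem bx0_15 : BoxOK sI cl4 cl7 cl7 t1 t1 b0_15 :=
  box_mk (TrL.c (I.pos (nat_lit 0) (nat_lit 0)) (xb (xa T1.l18 (xb T1.l18 T1.l18)) (xa T1.l18 (xb T1.l18 T1.l18)))
  (TrL.c (I.pos (nat_lit 0) (nat_lit 0)) T1.l1
  (TrL.c (I.pos (nat_lit 0) (nat_lit 0)) T1.l5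
  (TrL.c (I.pos (nat_lit 0) (nat_lit 0)) (xb (xa T1.l3 T1.l3) T1.l3)
  (TrL.c (I.pos (nat_lit 0) (nat_lit 0)) T1.l1
  (TrL.c (I.pos (nat_lit 0) (nat_lit 0)) T1.l5
  TrL.n)))))) (by decide +kernel)
theorem bx0_16 : BoxOK sI cl4 cl7 cl7 t1 t1 b0_16 :=
  box_mk (TrL.c (I.pos (nat_lit 0) (nat_lit 0)) (xa (xb T1.l14 T1.l0) T1.l18)
  (TrL.c (I.pos (nat_lit 0) (nat_lit 0)) T1.l1
  (TrL.c (I.pos (nat_lit 0) (nat_lit 0)) T1.l2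
  (TrL.c (I.pos (nat_lit 0) (nat_lit 0)) T1.l3
  (TrL.c (I.pos (nat_lit 0) (nat_lit 0)) T1.l19
  (TrL.c (I.pos (nat_lit 0) (nat_lit 0)) T1.l5
  TrL.n)))))) (by decide +kernel)
theorem bx0_17 : BoxOK sI cl4 cl7 cl7 t1 t1 b0_17 :=
  box_mk (TrL.c (I.pos (nat_lit 0) (nat_lit 0)) T1.l18
  (TrL.c (I.pos (nat_lit 0) (nat_lit 0)) T1.l1
  (TrL.c (I.pos (nat_lit 0) (nat_lit 0)) T1.l2
  (TrL.c (I.pos (nat_lit 0) (nat_lit 0)) T1.l3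
  (TrL.c (I.pos (nat_lit 0) (nat_lit 0)) T1.l19
  (TrL.c (I.pos (nat_lit 0) (nat_lit 0)) T1.l5
  TrL.n)))))) (by decide +kernel)
theorem bx0_18 : BoxOK sI cl4 cl7 cl7 t1 t1 b0_18 :=
  box_mk (TrL.c (I.pos (nat_lit 0) (nat_lit 0)) T1.l0
  (TrL.c (I.pos (nat_lit 0) (nat_lit 0)) T1.l1
  (TrL.c (I.pos (nat_lit 0) (nat_lit 0)) T1.l2
  (TrL.c (I.pos (nat_lit 0) (nat_lit 0)) T1.l3
  (TrL.c (I.pos (nat_lit 0) (nat_lit 0)) T1.l19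
  (TrL.c (I.pos (nat_lit 0) (nat_lit 0)) T1.l5
  TrL.n)))))) (by decide +kernel)
theorem bx0_19 : BoxOK sI cl4 cl7 cl7 t1 t1 b0_19 :=
  box_mk (TrL.c (I.pos (nat_lit 0) (nat_lit 0)) T1.l18
  (TrL.c (I.pos (nat_lit 0) (nat_lit 0)) T1.l1
  (TrL.c (I.pos (nat_lit 0) (nat_lit 0)) T1.l2
  (TrL.c (I.pos (nat_lit 0) (nat_lit 0)) T1.l3
  (TrL.c (I.pos (nat_lit 0) (nat_lit 0)) T1.l19
  (TrL.c (I.pos (nat_lit 0) (nat_lit 0)) T1.l5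
  TrL.n)))))) (by decide +kernel)
theorem bx0_20 : BoxOK sI cl4 cl7 cl7 t1 t1 b0_20 :=
  box_mk (TrL.c (I.pos (nat_lit 0) (nat_lit 0)) T1.l0
  (TrL.c (I.pos (nat_lit 0) (nat_lit 0)) T1.l1
  (TrL.c (I.pos (nat_lit 0) (nat_lit 0)) T1.l2
  (TrL.c (I.pos (nat_lit 0) (nat_lit 0)) T1.l3
  (TrL.c (I.pos (nat_lit 0) (nat_lit 0)) T1.l19
  (TrL.c (I.pos (nat_lit 0) (nat_lit 0)) T1.l5
  TrL.n)))))) (by decide +kernel)
theorem sv0 : StarV sI cl4 cl7 cl7 t1 t1 t0 :=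
  (bt_n (bt_n (bt_n (bt_n (bt_b bx0_0) (bt_b bx0_1)) (bt_n (bt_b bx0_2) (bt_n (bt_b bx0_3) (bt_b bx0_4)))) (bt_n (bt_n (bt_b bx0_5) (bt_b bx0_6)) (bt_n (bt_b bx0_7) (bt_n (bt_b bx0_8) (bt_b bx0_9))))) (bt_n (bt_n (bt_n (bt_b bx0_10) (bt_b bx0_11)) (bt_n (bt_b bx0_12) (bt_n (bt_b bx0_13) (bt_b bx0_14)))) (bt_n (bt_n (bt_b bx0_15) (bt_n (bt_b bx0_16) (bt_b bx0_17))) (bt_n (bt_b bx0_18) (bt_n (bt_b bx0_19) (bt_b bx0_20))))))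
def S0 : StarD := StarD.mk cl4 cl7 cl7 1 1 t0
theorem bx1_0 : BoxOK sI cl7 cl4 cl7 t0 t2 b1_0 :=
  box_mk (TrL.c (I.pos (nat_lit 0) (nat_lit 0)) (xb (xa T0.l7 T0.l0) (xa (xb T0.l7 (xa T0.l0 T0.l0)) (xa (xb T0.l0 T0.l0) (xb T0.l0 T0.l0))))
  (TrL.c (I.pos (nat_lit 0) (nat_lit 0)) (xa (xb T2.l1 T2.l1) (xb T2.l1 (xk T2.l1 T2.l1)))
  (TrL.c (I.pos (nat_lit 0) (nat_lit 111196574)) (xR T0.l1 (xR T0.l1 T0.l1))
  (TrL.c (I.pos (nat_lit 0) (nat_lit 77433728)) (xR T2.l2 (xR T2.l2 T2.l2))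
  (TrL.c (I.pos (nat_lit 0) (nat_lit 0)) (xb (xa T2.l8 (xk T2.l3 T2.l3)) (xa (xk T2.l3 T2.l3) (xk T2.l3 T2.l3)))
  (TrL.c (I.pos (nat_lit 0) (nat_lit 0)) T0.l2
  (TrL.c (I.mix (nat_lit 29511666) (nat_lit 77433728)) (xR T2.l4 (xR T2.l4 T2.l4))
  (TrL.c (I.mix (nat_lit 29511666) (nat_lit 46070178)) (xR T0.l3 T0.l10)
  TrL.n)))))))) (by decide +kernel)
theorem bx1_1 : BoxOK sI cl7 cl4 cl7 t0 t2 b1_1 :=
  box_mk (TrL.c (I.pos (nat_lit 0) (nat_lit 0)) (xa (xb (xa (xb T0.l4 T0.l4) T0.l4) (xa T0.l4 T0.l4)) (xb T0.l4 T0.l4))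
  (TrL.c (I.pos (nat_lit 0) (nat_lit 0)) (xa T2.l6 T2.l1)
  (TrL.c (I.pos (nat_lit 0) (nat_lit 111196574)) (xR T0.l1 (xR T0.l1 T0.l1))
  (TrL.c (I.pos (nat_lit 0) (nat_lit 77433728)) (xR T2.l2 (xR T2.l2 T2.l7))
  (TrL.c (I.pos (nat_lit 0) (nat_lit 0)) (xa (xb T2.l5 T2.l5) (xb T2.l5 T2.l5))
  (TrL.c (I.pos (nat_lit 0) (nat_lit 0)) T0.l2
  (TrL.c (I.mix (nat_lit 29511666) (nat_lit 77433728)) (xR T2.l4 T2.l4)
  (TrL.c (I.mix (nat_lit 29511666) (nat_lit 46070178)) T0.l10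
  TrL.n)))))))) (by decide +kernel)
theorem bx1_2 : BoxOK sI cl7 cl4 cl7 t0 t2 b1_2 :=
  box_mk (TrL.c (I.pos (nat_lit 0) (nat_lit 0)) (xb T2.l1 T2.l6)
  (TrL.c (I.pos (nat_lit 0) (nat_lit 0)) T0.l5
  (TrL.c (I.mix (nat_lit 29511666) (nat_lit 77433728)) (xR T2.l7 T2.l4)
  (TrL.c (I.mix (nat_lit 29511666) (nat_lit 46070178)) T0.l12
  TrL.n)))) (by decide +kernel)
theorem bx1_3 : BoxOK sI cl7 cl4 cl7 t0 t2 b1_3 :=
  box_mk (TrL.c (I.pos (nat_lit 0) (nat_lit 0)) (xb (xa (xb (xa T0.l7 T0.l7) (xa T0.l7 T0.l7)) (xb T0.l7 T0.l7)) (xa (xb (xa T0.l7 T0.l7) (xa (xb T0.l7 (xa T0.l7 T0.l7)) (xb T0.l7 T0.l7))) (xb (xa T0.l7 T0.l7) (xa (xb T0.l7 T0.l7) (xb T0.l7 T0.l7)))))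
  (TrL.c (I.pos (nat_lit 0) (nat_lit 0)) (xb (xa T2.l1 T2.l1) (xa (xk T2.l1 T2.l1) (xk T2.l1 T2.l1)))
  (TrL.c (I.pos (nat_lit 0) (nat_lit 111196574)) (xR T0.l1 (xR T0.l1 T0.l1))
  (TrL.c (I.pos (nat_lit 0) (nat_lit 77433728)) (xR T2.l2 (xR T2.l2 T2.l2))
  (TrL.c (I.pos (nat_lit 0) (nat_lit 0)) (xb (xa (xb T2.l8 T2.l8) (xk (xb T2.l8 T2.l8) (xb T2.l8 T2.l8))) (xa (xk (xb T2.l8 (xb T2.l3 T2.l8)) (xb T2.l8 T2.l3)) (xk (xb T2.l8 (xb T2.l3 (xs T2.l3 T2.l3))) (xb (xb T2.l8 T2.l3) (xb T2.l3 (xs T2.l3 (xa T2.l0 T2.l0)))))))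
  (TrL.c (I.pos (nat_lit 0) (nat_lit 0)) (xb T0.l2 T0.l2)
  (TrL.c (I.mix (nat_lit 29511666) (nat_lit 77433728)) (xR T2.l4 (xR T2.l4 T2.l4))
  (TrL.c (I.mix (nat_lit 29511666) (nat_lit 46070178)) (xR T0.l3 T0.l3)
  TrL.n)))))))) (by decide +kernel)
theorem bx1_4 : BoxOK sI cl7 cl4 cl7 t0 t2 b1_4 :=
  box_mk (TrL.c (I.pos (nat_lit 0) (nat_lit 0)) (xb T0.l8 T0.l4)
  (TrL.c (I.pos (nat_lit 0) (nat_lit 0)) T2.l1
  (TrL.c (I.pos (nat_lit 0) (nat_lit 111196574)) T0.l1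
  (TrL.c (I.pos (nat_lit 0) (nat_lit 77433728)) T2.l4
  (TrL.c (I.pos (nat_lit 0) (nat_lit 0)) T2.l5
  (TrL.c (I.pos (nat_lit 0) (nat_lit 0)) T0.l2
  (TrL.c (I.mix (nat_lit 29511666) (nat_lit 77433728)) T2.l4
  (TrL.c (I.mix (nat_lit 29511666) (nat_lit 46070178)) T0.l10
  TrL.n)))))))) (by decide +kernel)
theorem bx1_5 : BoxOK sI cl7 cl4 cl7 t0 t2 b1_5 :=
  box_mk (TrL.c (I.pos (nat_lit 0) (nat_lit 0)) (xa T2.l1 T2.l6)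
  (TrL.c (I.pos (nat_lit 0) (nat_lit 0)) T0.l1
  (TrL.c (I.mix (nat_lit 29511666) (nat_lit 77433728)) (xR T2.l7 (xR T2.l7 T2.l7))
  (TrL.c (I.mix (nat_lit 29511666) (nat_lit 46070178)) (xR T0.l12 T0.l1)
  TrL.n)))) (by decide +kernel)
theorem bx1_6 : BoxOK sI cl7 cl4 cl7 t0 t2 b1_6 :=
  box_mk (TrL.c (I.pos (nat_lit 0) (nat_lit 0)) (xa (xb T0.l0 T0.l0) (xb T0.l0 T0.l0))
  (TrL.c (I.pos (nat_lit 0) (nat_lit 0)) (xa T2.l1 (xb T2.l11 (xk T2.l1 T2.l1)))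
  (TrL.c (I.pos (nat_lit 0) (nat_lit 111196574)) (xR T0.l1 (xR T0.l1 T0.l1))
  (TrL.c (I.pos (nat_lit 0) (nat_lit 77433728)) (xR T2.l2 T2.l2)
  (TrL.c (I.pos (nat_lit 0) (nat_lit 0)) (xa (xb (xk T2.l3 T2.l3) (xk T2.l3 T2.l3)) (xb (xk (xb T2.l0 T2.l3) (xb T2.l3 T2.l3)) (xk (xb (xa T2.l3 T2.l3) (xa T2.l3 T2.l3)) (xa T2.l3 (xb T2.l3 T2.l3)))))
  (TrL.c (I.pos (nat_lit 0) (nat_lit 0)) (xk (xb T0.l2 T0.l2) T0.l2)
  (TrL.c (I.mix (nat_lit 29511666) (nat_lit 77433728)) (xR T2.l4 (xR T2.l4 T2.l4))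
  (TrL.c (I.mix (nat_lit 29511666) (nat_lit 46070178)) T0.l10
  TrL.n)))))))) (by decide +kernel)
theorem bx1_7 : BoxOK sI cl7 cl4 cl7 t0 t2 b1_7 :=
  box_mk (TrL.c (I.pos (nat_lit 0) (nat_lit 0)) (xb T0.l8 T0.l8)
  (TrL.c (I.pos (nat_lit 0) (nat_lit 0)) T2.l1
  (TrL.c (I.pos (nat_lit 0) (nat_lit 111196574)) T0.l1
  (TrL.c (I.pos (nat_lit 0) (nat_lit 77433728)) T2.l2
  (TrL.c (I.pos (nat_lit 0) (nat_lit 0)) T2.l9
  (TrL.c (I.pos (nat_lit 0) (nat_lit 0)) T0.l2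
  (TrL.c (I.mix (nat_lit 29511666) (nat_lit 77433728)) T2.l4
  (TrL.c (I.mix (nat_lit 29511666) (nat_lit 46070178)) T0.l3
  TrL.n)))))))) (by decide +kernel)
theorem bx1_8 : BoxOK sI cl7 cl4 cl7 t0 t2 b1_8 :=
  box_mk (TrL.c (I.pos (nat_lit 0) (nat_lit 0)) T0.l0
  (TrL.c (I.pos (nat_lit 0) (nat_lit 0)) T2.l1
  (TrL.c (I.pos (nat_lit 0) (nat_lit 111196574)) (xR T0.l1 T0.l1)
  (TrL.c (I.pos (nat_lit 0) (nat_lit 77433728)) (xR T2.l2 T2.l2)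
  (TrL.c (I.pos (nat_lit 0) (nat_lit 0)) T2.l3
  (TrL.c (I.pos (nat_lit 0) (nat_lit 0)) T0.l2
  (TrL.c (I.mix (nat_lit 29511666) (nat_lit 77433728)) T2.l4
  (TrL.c (I.mix (nat_lit 29511666) (nat_lit 46070178)) T0.l3
  TrL.n)))))))) (by decide +kernel)
theorem bx1_9 : BoxOK sI cl7 cl4 cl7 t0 t2 b1_9 :=
  box_mk (TrL.c (I.pos (nat_lit 0) (nat_lit 0)) T0.l8
  (TrL.c (I.pos (nat_lit 0) (nat_lit 0)) T2.l1
  (TrL.c (I.pos (nat_lit 0) (nat_lit 111196574)) T0.l1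
  (TrL.c (I.pos (nat_lit 0) (nat_lit 77433728)) T2.l2
  (TrL.c (I.pos (nat_lit 0) (nat_lit 0)) T2.l9
  (TrL.c (I.pos (nat_lit 0) (nat_lit 0)) T0.l2
  (TrL.c (I.mix (nat_lit 29511666) (nat_lit 77433728)) T2.l4
  (TrL.c (I.mix (nat_lit 29511666) (nat_lit 46070178)) T0.l3
  TrL.n)))))))) (by decide +kernel)
theorem bx1_10 : BoxOK sI cl7 cl4 cl7 t0 t2 b1_10 :=
  box_mk (TrL.c (I.pos (nat_lit 0) (nat_lit 0)) T0.l0
  (TrL.c (I.pos (nat_lit 0) (nat_lit 0)) T2.l1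
  (TrL.c (I.pos (nat_lit 0) (nat_lit 111196574)) (xR T0.l1 T0.l1)
  (TrL.c (I.pos (nat_lit 0) (nat_lit 77433728)) (xR T2.l2 T2.l2)
  (TrL.c (I.pos (nat_lit 0) (nat_lit 0)) (xk T2.l0 T2.l0)
  (TrL.c (I.pos (nat_lit 0) (nat_lit 0)) T0.l2
  (TrL.c (I.mix (nat_lit 29511666) (nat_lit 77433728)) (xR T2.l4 T2.l4)
  (TrL.c (I.mix (nat_lit 29511666) (nat_lit 46070178)) T0.l3
  TrL.n)))))))) (by decide +kernel)
theorem bx1_11 : BoxOK sI cl7 cl4 cl7 t0 t2 b1_11 :=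
  box_mk (TrL.c (I.pos (nat_lit 0) (nat_lit 0)) T0.l8
  (TrL.c (I.pos (nat_lit 0) (nat_lit 0)) T2.l1
  (TrL.c (I.pos (nat_lit 0) (nat_lit 111196574)) T0.l1
  (TrL.c (I.pos (nat_lit 0) (nat_lit 77433728)) T2.l2
  (TrL.c (I.pos (nat_lit 0) (nat_lit 0)) T2.l9
  (TrL.c (I.pos (nat_lit 0) (nat_lit 0)) T0.l2
  (TrL.c (I.mix (nat_lit 29511666) (nat_lit 77433728)) T2.l4
  (TrL.c (I.mix (nat_lit 29511666) (nat_lit 46070178)) T0.l3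
  TrL.n)))))))) (by decide +kernel)
theorem bx1_12 : BoxOK sI cl7 cl4 cl7 t0 t2 b1_12 :=
  box_mk (TrL.c (I.pos (nat_lit 0) (nat_lit 0)) T0.l0
  (TrL.c (I.pos (nat_lit 0) (nat_lit 0)) T2.l1
  (TrL.c (I.pos (nat_lit 0) (nat_lit 111196574)) (xR T0.l1 T0.l1)
  (TrL.c (I.pos (nat_lit 0) (nat_lit 77433728)) (xR T2.l2 T2.l2)
  (TrL.c (I.pos (nat_lit 0) (nat_lit 0)) T2.l0
  (TrL.c (I.pos (nat_lit 0) (nat_lit 0)) T0.l2
  (TrL.c (I.mix (nat_lit 29511666) (nat_lit 77433728)) (xR T2.l4 T2.l4)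
  (TrL.c (I.mix (nat_lit 29511666) (nat_lit 46070178)) T0.l3
  TrL.n)))))))) (by decide +kernel)
theorem bx1_13 : BoxOK sI cl7 cl4 cl7 t0 t2 b1_13 :=
  box_mk (TrL.c (I.pos (nat_lit 0) (nat_lit 0)) T0.l8
  (TrL.c (I.pos (nat_lit 0) (nat_lit 0)) T2.l1
  (TrL.c (I.pos (nat_lit 0) (nat_lit 111196574)) T0.l1
  (TrL.c (I.pos (nat_lit 0) (nat_lit 77433728)) T2.l2
  (TrL.c (I.pos (nat_lit 0) (nat_lit 0)) T2.l9
  (TrL.c (I.pos (nat_lit 0) (nat_lit 0)) T0.l2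
  (TrL.c (I.mix (nat_lit 29511666) (nat_lit 77433728)) T2.l4
  (TrL.c (I.mix (nat_lit 29511666) (nat_lit 46070178)) T0.l3
  TrL.n)))))))) (by decide +kernel)
theorem bx1_14 : BoxOK sI cl7 cl4 cl7 t0 t2 b1_14 :=
  box_mk (TrL.c (I.pos (nat_lit 0) (nat_lit 0)) T0.l0
  (TrL.c (I.pos (nat_lit 0) (nat_lit 0)) T2.l1
  (TrL.c (I.pos (nat_lit 0) (nat_lit 111196574)) (xR T0.l1 T0.l1)
  (TrL.c (I.pos (nat_lit 0) (nat_lit 77433728)) (xR T2.l2 T2.l2)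
  (TrL.c (I.pos (nat_lit 0) (nat_lit 0)) T2.l3
  (TrL.c (I.pos (nat_lit 0) (nat_lit 0)) T0.l2
  (TrL.c (I.mix (nat_lit 29511666) (nat_lit 77433728)) T2.l4
  (TrL.c (I.mix (nat_lit 29511666) (nat_lit 46070178)) T0.l3
  TrL.n)))))))) (by decide +kernel)
theorem bx1_15 : BoxOK sI cl7 cl4 cl7 t0 t2 b1_15 :=
  box_mk (TrL.c (I.pos (nat_lit 0) (nat_lit 0)) T0.l4
  (TrL.c (I.pos (nat_lit 0) (nat_lit 0)) T2.l1
  (TrL.c (I.pos (nat_lit 0) (nat_lit 111196574)) T0.l1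
  (TrL.c (I.pos (nat_lit 0) (nat_lit 77433728)) T2.l2
  (TrL.c (I.pos (nat_lit 0) (nat_lit 0)) T2.l9
  (TrL.c (I.pos (nat_lit 0) (nat_lit 0)) T0.l2
  (TrL.c (I.mix (nat_lit 29511666) (nat_lit 77433728)) T2.l4
  (TrL.c (I.mix (nat_lit 29511666) (nat_lit 46070178)) T0.l3
  TrL.n)))))))) (by decide +kernel)
theorem bx1_16 : BoxOK sI cl7 cl4 cl7 t0 t2 b1_16 :=
  box_mk (TrL.c (I.pos (nat_lit 0) (nat_lit 0)) (xb T0.l0 T0.l0)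
  (TrL.c (I.pos (nat_lit 0) (nat_lit 0)) T2.l11
  (TrL.c (I.pos (nat_lit 0) (nat_lit 111196574)) (xR T0.l1 T0.l1)
  (TrL.c (I.pos (nat_lit 0) (nat_lit 77433728)) (xR T2.l2 T2.l2)
  (TrL.c (I.pos (nat_lit 0) (nat_lit 0)) (xb (xk (xa T2.l3 T2.l0) T2.l0) (xk (xa T2.l3 T2.l3) T2.l3))
  (TrL.c (I.pos (nat_lit 0) (nat_lit 0)) (xk T0.l2 T0.l2)
  (TrL.c (I.mix (nat_lit 29511666) (nat_lit 77433728)) (xR T2.l4 T2.l4)
  (TrL.c (I.mix (nat_lit 29511666) (nat_lit 46070178)) T0.l3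
  TrL.n)))))))) (by decide +kernel)
theorem bx1_17 : BoxOK sI cl7 cl4 cl7 t0 t2 b1_17 :=
  box_mk (TrL.c (I.pos (nat_lit 0) (nat_lit 0)) (xb T0.l8 T0.l8)
  (TrL.c (I.pos (nat_lit 0) (nat_lit 0)) T2.l1
  (TrL.c (I.pos (nat_lit 0) (nat_lit 111196574)) T0.l1
  (TrL.c (I.pos (nat_lit 0) (nat_lit 77433728)) T2.l2
  (TrL.c (I.pos (nat_lit 0) (nat_lit 0)) T2.l9
  (TrL.c (I.pos (nat_lit 0) (nat_lit 0)) T0.l2
  (TrL.c (I.mix (nat_lit 29511666) (nat_lit 77433728)) T2.l4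
  (TrL.c (I.mix (nat_lit 29511666) (nat_lit 46070178)) T0.l3
  TrL.n)))))))) (by decide +kernel)
theorem bx1_18 : BoxOK sI cl7 cl4 cl7 t0 t2 b1_18 :=
  box_mk (TrL.c (I.pos (nat_lit 0) (nat_lit 0)) (xa (xb T0.l0 (xb T0.l0 T0.l0)) (xb T0.l0 (xb T0.l0 T0.l0)))
  (TrL.c (I.pos (nat_lit 0) (nat_lit 0)) (xk (xb T2.l1 T2.l1) T2.l1)
  (TrL.c (I.pos (nat_lit 0) (nat_lit 111196574)) (xR T0.l1 T0.l1)
  (TrL.c (I.pos (nat_lit 0) (nat_lit 77433728)) (xR T2.l2 T2.l2)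
  (TrL.c (I.pos (nat_lit 0) (nat_lit 0)) (xk (xb T2.l3 T2.l3) (xb T2.l3 T2.l3))
  (TrL.c (I.pos (nat_lit 0) (nat_lit 0)) T0.l2
  (TrL.c (I.mix (nat_lit 29511666) (nat_lit 77433728)) (xR T2.l4 T2.l4)
  (TrL.c (I.mix (nat_lit 29511666) (nat_lit 46070178)) T0.l10
  TrL.n)))))))) (by decide +kernel)
theorem bx1_19 : BoxOK sI cl7 cl4 cl7 t0 t2 b1_19 :=
  box_mk (TrL.c (I.pos (nat_lit 0) (nat_lit 0)) (xb T0.l4 T0.l4)
  (TrL.c (I.pos (nat_lit 0) (nat_lit 0)) T2.l1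
  (TrL.c (I.pos (nat_lit 0) (nat_lit 111196574)) T0.l1
  (TrL.c (I.pos (nat_lit 0) (nat_lit 77433728)) T2.l2
  (TrL.c (I.pos (nat_lit 0) (nat_lit 0)) T2.l5
  (TrL.c (I.pos (nat_lit 0) (nat_lit 0)) T0.l2
  (TrL.c (I.mix (nat_lit 29511666) (nat_lit 77433728)) T2.l4
  (TrL.c (I.mix (nat_lit 29511666) (nat_lit 46070178)) T0.l10
  TrL.n)))))))) (by decide +kernel)
theorem bx1_20 : BoxOK sI cl7 cl4 cl7 t0 t2 b1_20 :=
  box_mk (TrL.c (I.pos (nat_lit 0) (nat_lit 0)) (xa (xb T0.l0 (xa T0.l0 T0.l0)) (xb T0.l0 (xa T0.l0 (xb T0.l0 T0.l0))))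
  (TrL.c (I.pos (nat_lit 0) (nat_lit 0)) (xa (xb T2.l1 T2.l1) (xb T2.l11 (xk T2.l1 T2.l1)))
  (TrL.c (I.pos (nat_lit 0) (nat_lit 111196574)) (xR T0.l1 (xR T0.l1 T0.l12))
  (TrL.c (I.pos (nat_lit 0) (nat_lit 77433728)) (xR T2.l2 (xR T2.l2 T2.l2))
  (TrL.c (I.pos (nat_lit 0) (nat_lit 0)) (xb (xa (xk (xb T2.l0 T2.l3) (xb (xa T2.l0 T2.l0) T2.l3)) (xk (xb (xa T2.l0 (xk T2.l0 T2.l0)) (xa T2.l3 (xk T2.l3 T2.l3))) (xb (xa T2.l0 (xk T2.l0 T2.l0)) (xa T2.l3 T2.l3)))) (xa (xk T2.l3 T2.l3) (xk (xa (xb T2.l3 T2.l3) (xb (xk T2.l3 T2.l3) (xk T2.l3 T2.l3))) (xb (xa T2.l3 (xk T2.l3 T2.l3)) (xa T2.l3 (xk T2.l3 T2.l3))))))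
  (TrL.c (I.pos (nat_lit 0) (nat_lit 0)) (xk (xb T0.l2 T0.l2) (xb T0.l2 T0.l2))
  (TrL.c (I.mix (nat_lit 29511666) (nat_lit 77433728)) (xR T2.l4 (xR T2.l4 (xR T2.l4 T2.l4)))
  (TrL.c (I.mix (nat_lit 29511666) (nat_lit 46070178)) T0.l10
  TrL.n)))))))) (by decide +kernel)
theorem bx1_21 : BoxOK sI cl7 cl4 cl7 t0 t2 b1_21 :=
  box_mk (TrL.c (I.pos (nat_lit 0) (nat_lit 0)) (xb (xa T0.l8 T0.l8) (xa T0.l8 T0.l8))
  (TrL.c (I.pos (nat_lit 0) (nat_lit 0)) T2.l1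
  (TrL.c (I.pos (nat_lit 0) (nat_lit 111196574)) T0.l1
  (TrL.c (I.pos (nat_lit 0) (nat_lit 77433728)) T2.l4
  (TrL.c (I.pos (nat_lit 0) (nat_lit 0)) T2.l9
  (TrL.c (I.pos (nat_lit 0) (nat_lit 0)) T0.l2
  (TrL.c (I.mix (nat_lit 29511666) (nat_lit 77433728)) T2.l4
  (TrL.c (I.mix (nat_lit 29511666) (nat_lit 46070178)) T0.l12
  TrL.n)))))))) (by decide +kernel)
theorem bx1_22 : BoxOK sI cl7 cl4 cl7 t0 t2 b1_22 :=
  box_mk (TrL.c (I.pos (nat_lit 0) (nat_lit 0)) T0.l0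
  (TrL.c (I.pos (nat_lit 0) (nat_lit 0)) T2.l1
  (TrL.c (I.pos (nat_lit 0) (nat_lit 111196574)) (xR T0.l1 T0.l1)
  (TrL.c (I.pos (nat_lit 0) (nat_lit 77433728)) T2.l2
  (TrL.c (I.pos (nat_lit 0) (nat_lit 0)) T2.l3
  (TrL.c (I.pos (nat_lit 0) (nat_lit 0)) T0.l2
  (TrL.c (I.mix (nat_lit 29511666) (nat_lit 77433728)) T2.l4
  (TrL.c (I.mix (nat_lit 29511666) (nat_lit 46070178)) T0.l3
  TrL.n)))))))) (by decide +kernel)
theorem bx1_23 : BoxOK sI cl7 cl4 cl7 t0 t2 b1_23 :=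
  box_mk (TrL.c (I.pos (nat_lit 0) (nat_lit 0)) T0.l8
  (TrL.c (I.pos (nat_lit 0) (nat_lit 0)) T2.l1
  (TrL.c (I.pos (nat_lit 0) (nat_lit 111196574)) T0.l1
  (TrL.c (I.pos (nat_lit 0) (nat_lit 77433728)) T2.l2
  (TrL.c (I.pos (nat_lit 0) (nat_lit 0)) T2.l9
  (TrL.c (I.pos (nat_lit 0) (nat_lit 0)) T0.l2
  (TrL.c (I.mix (nat_lit 29511666) (nat_lit 77433728)) T2.l4
  (TrL.c (I.mix (nat_lit 29511666) (nat_lit 46070178)) T0.l3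
  TrL.n)))))))) (by decide +kernel)
theorem sv1 : StarV sI cl7 cl4 cl7 t0 t2 t1 :=
  (bt_n (bt_n (bt_n (bt_n (bt_b bx1_0) (bt_n (bt_b bx1_1) (bt_b bx1_2))) (bt_n (bt_b bx1_3) (bt_n (bt_b bx1_4) (bt_b bx1_5)))) (bt_n (bt_n (bt_b bx1_6) (bt_n (bt_b bx1_7) (bt_b bx1_8))) (bt_n (bt_b bx1_9) (bt_n (bt_b bx1_10) (bt_b bx1_11))))) (bt_n (bt_n (bt_n (bt_b bx1_12) (bt_n (bt_b bx1_13) (bt_b bx1_14))) (bt_n (bt_b bx1_15) (bt_n (bt_b bx1_16) (bt_b bx1_17)))) (bt_n (bt_n (bt_b bx1_18) (bt_n (bt_b bx1_19) (bt_b bx1_20))) (bt_n (bt_b bx1_21) (bt_n (bt_b bx1_22) (bt_b bx1_23))))))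
def S1 : StarD := StarD.mk cl7 cl4 cl7 0 2 t1
theorem c2_0_0 : chkTag sI cl7 cl7 cl4 t2 b2_0 (tg true true false RT.r2) (I.pos (nat_lit 0) (nat_lit 0))
  (xa (xb (xa (xb (xs T2.l0 (xa T2.l0 T2.l0)) (xs T2.l0 T2.l0)) (xb (xs T2.l0 (xa T2.l0 T2.l0)) (xs T2.l0 (xa T2.l0 T2.l0)))) (xa (xb (xs T2.l0 T2.l0) (xs T2.l0 (xa T2.l0 T2.l0))) (xb (xs T2.l0 (xa T2.l0 T2.l0)) (xs T2.l0 (xa T2.l0 T2.l0))))) (xb (xa (xb (xs T2.l0 (xa (xb T2.l0 T2.l0) (xb T2.l0 T2.l0))) (xs T2.l0 (xa T2.l0 T2.l0))) (xb (xs T2.l0 (xa (xb T2.l0 T2.l0) (xb (xc (xs T2.l0 T2.l0) (xs T2.l0 T2.l0)) T2.l0))) (xs T2.l0 (xa (xb T2.l0 T2.l0) (xb T2.l0 T2.l0))))) (xa (xb (xs T2.l0 (xa T2.l0 T2.l0)) (xs T2.l0 (xa T2.l0 T2.l0))) (xs (xb T2.l0 T2.l0) (xb (xa T2.l0 (xb T2.l0 T2.l0)) (xa T2.l0 (xb T2.l0 T2.l0))))))) = true := by decide +kernel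
theorem c2_0_1 : chkTag sI cl7 cl7 cl4 t0 b2_0 (tg true false false RT.r3) (I.pos (nat_lit 0) (nat_lit 0))
  (xa (xk (xb T0.l9 (xa T0.l9 T0.l9)) (xb T0.l9 (xa T0.l9 T0.l9))) (xk (xa (xb T0.l9 T0.l9) (xb T0.l9 T0.l9)) (xb T0.l9 (xa T0.l9 T0.l9)))) = true := by decide +kernel
theorem c2_0_2 : chkTag sI cl7 cl7 cl4 t2 b2_0 (Tag.mk true true false RT.tl RT.r4) (I.pos (nat_lit 0) (nat_lit 111196574))
  (xR T2.l10 (xR T2.l10 (xR T2.l10 T2.l10))) = true := by decide +kernel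
theorem c2_0_3 : chkTag sI cl7 cl7 cl4 t0 b2_0 (Tag.mk true false false RT.tl RT.r5) (I.pos (nat_lit 0) (nat_lit 77433728))
  (xR T0.l10 (xR T0.l10 T0.l10)) = true := by decide +kernel
theorem c2_0_4 : chkTag sI cl7 cl7 cl4 t0 b2_0 (tg false false false RT.r3) (I.pos (nat_lit 0) (nat_lit 0))
  (xa (xk (xb T0.l11 T0.l11) (xb T0.l11 T0.l11)) (xk (xb (xa T0.l11 T0.l11) (xa T0.l11 (xb T0.l11 (xs T0.l11 (xk T0.l11 T0.l11))))) (xb (xa T0.l11 T0.l11) (xa (xb T0.l15 T0.l11) (xb T0.l11 (xs T0.l11 (xk (xb T0.l11 T0.l11) (xb T0.l11 (xa T0.l11 T0.l11))))))))) = true := by decide +kernel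
theorem c2_0_5 : chkTag sI cl7 cl7 cl4 t2 b2_0 (tg false true false RT.r4) (I.pos (nat_lit 0) (nat_lit 0))
  (xk (xa T2.l11 T2.l11) (xa T2.l11 T2.l11)) = true := by decide +kernel
theorem c2_0_6 : chkTag sI cl7 cl7 cl4 t0 b2_0 (Tag.mk false false false RT.tl RT.r5) (I.mix (nat_lit 29511666) (nat_lit 77433728))
  (xR T0.l12 (xR T0.l12 T0.l12)) = true := by decide +kernel
theorem c2_0_7 : chkTag sI cl7 cl7 cl4 t2 b2_0 (Tag.mk false true false RT.tl RT.r6) (I.mix (nat_lit 29511666) (nat_lit 46070178))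
  (xR T2.l12 T2.l12) = true := by decide +kernel
theorem bx2_0 : BoxOK sI cl7 cl7 cl4 t2 t0 b2_0 :=
  box_mk' [(tg true true false RT.r2), (tg true false false RT.r3), (Tag.mk true true false RT.tl RT.r4), (Tag.mk true false false RT.tl RT.r5), (tg false false false RT.r3), (tg false true false RT.r4), (Tag.mk false false false RT.tl RT.r5), (Tag.mk false true false RT.tl RT.r6)] rfl (allL_c (ex_mk c2_0_0) (allL_c (ex_mk c2_0_1) (allL_c (ex_mk c2_0_2) (allL_c (ex_mk c2_0_3) (allL_c (ex_mk c2_0_4) (allL_c (ex_mk c2_0_5) (allL_c (ex_mk c2_0_6) (allL_c (ex_mk c2_0_7) allL_n))))))))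
theorem bx2_1 : BoxOK sI cl7 cl7 cl4 t2 t0 b2_1 :=
  box_mk (TrL.c (I.pos (nat_lit 0) (nat_lit 0)) (xa (xb T2.l13 T2.l13) (xb T2.l0 T2.l13))
  (TrL.c (I.pos (nat_lit 0) (nat_lit 0)) (xa T0.l9 T0.l9)
  (TrL.c (I.pos (nat_lit 0) (nat_lit 111196574)) (xR T2.l10 T2.l10)
  (TrL.c (I.pos (nat_lit 0) (nat_lit 77433728)) (xR T0.l10 T0.l10)
  (TrL.c (I.pos (nat_lit 0) (nat_lit 0)) (xa (xb T0.l13 T0.l13) (xk (xb T0.l13 T0.l13) (xb T0.l13 T0.l13)))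
  (TrL.c (I.pos (nat_lit 0) (nat_lit 0)) T2.l11
  (TrL.c (I.mix (nat_lit 29511666) (nat_lit 77433728)) (xR T0.l12 T0.l12)
  (TrL.c (I.mix (nat_lit 29511666) (nat_lit 46070178)) (xR T2.l12 T2.l12)
  TrL.n)))))))) (by decide +kernel)
theorem bx2_2 : BoxOK sI cl7 cl7 cl4 t2 t0 b2_2 :=
  box_mk (TrL.c (I.pos (nat_lit 0) (nat_lit 0)) (xa (xa (xb T2.l14 T2.l16) T2.l16) (xa T2.l16 T2.l16))
  (TrL.c (I.pos (nat_lit 0) (nat_lit 0)) (xa T0.l16 T0.l9)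
  (TrL.c (I.pos (nat_lit 0) (nat_lit 111196574)) T2.l10
  (TrL.c (I.pos (nat_lit 0) (nat_lit 77433728)) T0.l12
  (TrL.c (I.pos (nat_lit 0) (nat_lit 0)) (xa T0.l9 T0.l14)
  (TrL.c (I.pos (nat_lit 0) (nat_lit 0)) T2.l11
  (TrL.c (I.mix (nat_lit 29511666) (nat_lit 77433728)) T0.l12
  (TrL.c (I.mix (nat_lit 29511666) (nat_lit 46070178)) T2.l12
  TrL.n)))))))) (by decide +kernel)
theorem bx2_3 : BoxOK sI cl7 cl7 cl4 t2 t0 b2_3 :=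
  box_mk (TrL.c (I.pos (nat_lit 0) (nat_lit 0)) (xb (xa (xb T2.l15 T2.l15) (xb T2.l0 T2.l0)) (xa (xb T2.l15 (xa T2.l15 T2.l15)) (xa (xb T2.l15 T2.l15) T2.l15)))
  (TrL.c (I.pos (nat_lit 0) (nat_lit 0)) (xb (xk (xa T0.l9 T0.l9) (xa T0.l9 T0.l9)) (xk (xa T0.l9 T0.l9) (xa T0.l9 T0.l9)))
  (TrL.c (I.pos (nat_lit 0) (nat_lit 111196574)) (xR T2.l10 (xR T2.l10 T2.l10))
  (TrL.c (I.pos (nat_lit 0) (nat_lit 77433728)) (xR T0.l10 (xR T0.l10 T0.l10))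
  (TrL.c (I.pos (nat_lit 0) (nat_lit 0)) (xb (xk (xa T0.l15 T0.l15) (xa T0.l15 T0.l11)) (xk (xa T0.l15 T0.l11) T0.l11))
  (TrL.c (I.pos (nat_lit 0) (nat_lit 0)) T2.l11
  (TrL.c (I.mix (nat_lit 29511666) (nat_lit 77433728)) (xR T0.l12 (xR T0.l12 T0.l12))
  (TrL.c (I.mix (nat_lit 29511666) (nat_lit 46070178)) (xR T2.l12 T2.l12)
  TrL.n)))))))) (by decide +kernel)
theorem bx2_4 : BoxOK sI cl7 cl7 cl4 t2 t0 b2_4 :=
  box_mk (TrL.c (I.pos (nat_lit 0) (nat_lit 0)) (xa (xa (xb (xa T2.l16 T2.l16) (xa (xb T2.l16 T2.l16) T2.l16)) (xb T2.l16 (xa T2.l16 T2.l16))) (xa (xb (xa T2.l16 T2.l16) (xa T2.l16 T2.l16)) (xb (xa T2.l16 T2.l16) (xa T2.l16 T2.l16))))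
  (TrL.c (I.pos (nat_lit 0) (nat_lit 0)) (xa (xa T0.l9 T0.l9) (xa T0.l9 (xb T0.l9 T0.l9)))
  (TrL.c (I.pos (nat_lit 0) (nat_lit 111196574)) T2.l10
  (TrL.c (I.pos (nat_lit 0) (nat_lit 77433728)) (xR T0.l10 T0.l10)
  (TrL.c (I.pos (nat_lit 0) (nat_lit 0)) (xa (xa T0.l16 T0.l16) (xa T0.l16 T0.l16))
  (TrL.c (I.pos (nat_lit 0) (nat_lit 0)) T2.l11
  (TrL.c (I.mix (nat_lit 29511666) (nat_lit 77433728)) T0.l12
  (TrL.c (I.mix (nat_lit 29511666) (nat_lit 46070178)) T2.l12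
  TrL.n)))))))) (by decide +kernel)
theorem bx2_5 : BoxOK sI cl7 cl7 cl4 t2 t0 b2_5 :=
  box_mk (TrL.c (I.pos (nat_lit 0) (nat_lit 0)) T2.l0
  (TrL.c (I.pos (nat_lit 0) (nat_lit 0)) T0.l9
  (TrL.c (I.pos (nat_lit 0) (nat_lit 111196574)) (xR T2.l10 T2.l10)
  (TrL.c (I.pos (nat_lit 0) (nat_lit 77433728)) (xR T0.l10 T0.l10)
  (TrL.c (I.pos (nat_lit 0) (nat_lit 0)) (xk (xb T0.l15 T0.l15) (xb T0.l15 T0.l15))
  (TrL.c (I.pos (nat_lit 0) (nat_lit 0)) T2.l11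
  (TrL.c (I.mix (nat_lit 29511666) (nat_lit 77433728)) (xR T0.l12 T0.l1)
  (TrL.c (I.mix (nat_lit 29511666) (nat_lit 46070178)) (xR T2.l12 T2.l12)
  TrL.n)))))))) (by decide +kernel)
theorem bx2_6 : BoxOK sI cl7 cl7 cl4 t2 t0 b2_6 :=
  box_mk (TrL.c (I.pos (nat_lit 0) (nat_lit 0)) (xa T2.l13 T2.l0)
  (TrL.c (I.pos (nat_lit 0) (nat_lit 0)) T0.l9
  (TrL.c (I.pos (nat_lit 0) (nat_lit 111196574)) (xR T2.l10 T2.l10)
  (TrL.c (I.pos (nat_lit 0) (nat_lit 77433728)) T0.l10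
  (TrL.c (I.pos (nat_lit 0) (nat_lit 0)) (xk T0.l13 T0.l13)
  (TrL.c (I.pos (nat_lit 0) (nat_lit 0)) T2.l11
  (TrL.c (I.mix (nat_lit 29511666) (nat_lit 77433728)) (xR T0.l12 T0.l12)
  (TrL.c (I.mix (nat_lit 29511666) (nat_lit 46070178)) T2.l12
  TrL.n)))))))) (by decide +kernel)
theorem bx2_7 : BoxOK sI cl7 cl7 cl4 t2 t0 b2_7 :=
  box_mk (TrL.c (I.pos (nat_lit 0) (nat_lit 0)) (xa (xa (xa T2.l17 T2.l16) T2.l16) T2.l16)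
  (TrL.c (I.pos (nat_lit 0) (nat_lit 0)) (xa T0.l16 T0.l9)
  (TrL.c (I.pos (nat_lit 0) (nat_lit 111196574)) T2.l10
  (TrL.c (I.pos (nat_lit 0) (nat_lit 77433728)) (xR T0.l10 T0.l10)
  (TrL.c (I.pos (nat_lit 0) (nat_lit 0)) (xa T0.l9 T0.l16)
  (TrL.c (I.pos (nat_lit 0) (nat_lit 0)) T2.l11
  (TrL.c (I.mix (nat_lit 29511666) (nat_lit 77433728)) T0.l12
  (TrL.c (I.mix (nat_lit 29511666) (nat_lit 46070178)) T2.l12
  TrL.n)))))))) (by decide +kernel)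
theorem bx2_8 : BoxOK sI cl7 cl7 cl4 t2 t0 b2_8 :=
  box_mk (TrL.c (I.pos (nat_lit 0) (nat_lit 0)) (xb (xa (xb T2.l0 T2.l0) (xb T2.l0 T2.l0)) (xa T2.l15 T2.l0))
  (TrL.c (I.pos (nat_lit 0) (nat_lit 0)) (xb (xk T0.l9 T0.l9) (xk T0.l9 T0.l9))
  (TrL.c (I.pos (nat_lit 0) (nat_lit 111196574)) (xR T2.l10 (xR T2.l10 T2.l10))
  (TrL.c (I.pos (nat_lit 0) (nat_lit 77433728)) (xR T0.l10 T0.l10)
  (TrL.c (I.pos (nat_lit 0) (nat_lit 0)) (xk (xb T0.l15 T0.l15) (xb T0.l15 T0.l15))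
  (TrL.c (I.pos (nat_lit 0) (nat_lit 0)) T2.l11
  (TrL.c (I.mix (nat_lit 29511666) (nat_lit 77433728)) (xR T0.l12 (xR T0.l12 T0.l1))
  (TrL.c (I.mix (nat_lit 29511666) (nat_lit 46070178)) (xR T2.l12 T2.l2)
  TrL.n)))))))) (by decide +kernel)
theorem bx2_9 : BoxOK sI cl7 cl7 cl4 t2 t0 b2_9 :=
  box_mk (TrL.c (I.pos (nat_lit 0) (nat_lit 0)) T2.l0
  (TrL.c (I.pos (nat_lit 0) (nat_lit 0)) T0.l9
  (TrL.c (I.pos (nat_lit 0) (nat_lit 111196574)) (xR T2.l10 T2.l10)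
  (TrL.c (I.pos (nat_lit 0) (nat_lit 77433728)) (xR T0.l10 T0.l10)
  (TrL.c (I.pos (nat_lit 0) (nat_lit 0)) (xk T0.l15 T0.l15)
  (TrL.c (I.pos (nat_lit 0) (nat_lit 0)) T2.l11
  (TrL.c (I.mix (nat_lit 29511666) (nat_lit 77433728)) T0.l1
  (TrL.c (I.mix (nat_lit 29511666) (nat_lit 46070178)) T2.l12
  TrL.n)))))))) (by decide +kernel)
theorem bx2_10 : BoxOK sI cl7 cl7 cl4 t2 t0 b2_10 :=
  box_mk (TrL.c (I.pos (nat_lit 0) (nat_lit 0)) (xa (xa (xb T2.l16 (xa T2.l16 T2.l16)) (xb T2.l16 T2.l16)) (xa (xb T2.l16 (xa T2.l16 T2.l16)) (xa (xb T2.l18 T2.l16) (xb T2.l18 T2.l18))))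
  (TrL.c (I.pos (nat_lit 0) (nat_lit 0)) (xa (xa T0.l9 T0.l9) (xa T0.l9 T0.l9))
  (TrL.c (I.pos (nat_lit 0) (nat_lit 111196574)) T2.l10
  (TrL.c (I.pos (nat_lit 0) (nat_lit 77433728)) (xR T0.l10 T0.l10)
  (TrL.c (I.pos (nat_lit 0) (nat_lit 0)) (xa (xa T0.l9 T0.l16) (xa T0.l18 T0.l18))
  (TrL.c (I.pos (nat_lit 0) (nat_lit 0)) T2.l11
  (TrL.c (I.mix (nat_lit 29511666) (nat_lit 77433728)) T0.l12
  (TrL.c (I.mix (nat_lit 29511666) (nat_lit 46070178)) T2.l12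
  TrL.n)))))))) (by decide +kernel)
theorem bx2_11 : BoxOK sI cl7 cl7 cl4 t2 t0 b2_11 :=
  box_mk (TrL.c (I.pos (nat_lit 0) (nat_lit 0)) (xb (xa T2.l19 T2.l19) (xa (xb T2.l19 T2.l19) (xb T2.l19 T2.l19)))
  (TrL.c (I.pos (nat_lit 0) (nat_lit 0)) (xb (xa T0.l9 T0.l9) T0.l9)
  (TrL.c (I.pos (nat_lit 0) (nat_lit 111196574)) (xR T2.l10 T2.l10)
  (TrL.c (I.pos (nat_lit 0) (nat_lit 77433728)) T0.l10
  (TrL.c (I.pos (nat_lit 0) (nat_lit 0)) (xb (xa T0.l19 (xk T0.l19 T0.l19)) (xk T0.l19 T0.l19))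
  (TrL.c (I.pos (nat_lit 0) (nat_lit 0)) T2.l11
  (TrL.c (I.mix (nat_lit 29511666) (nat_lit 77433728)) (xR T0.l12 T0.l12)
  (TrL.c (I.mix (nat_lit 29511666) (nat_lit 46070178)) T2.l12
  TrL.n)))))))) (by decide +kernel)
theorem bx2_12 : BoxOK sI cl7 cl7 cl4 t2 t0 b2_12 :=
  box_mk (TrL.c (I.pos (nat_lit 0) (nat_lit 0)) (xa (xa (xb T2.l20 T2.l20) T2.l16) (xa T2.l16 T2.l16))
  (TrL.c (I.pos (nat_lit 0) (nat_lit 0)) (xa T0.l16 T0.l9)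
  (TrL.c (I.pos (nat_lit 0) (nat_lit 111196574)) T2.l10
  (TrL.c (I.pos (nat_lit 0) (nat_lit 77433728)) T0.l12
  (TrL.c (I.pos (nat_lit 0) (nat_lit 0)) (xa T0.l9 T0.l20)
  (TrL.c (I.pos (nat_lit 0) (nat_lit 0)) T2.l11
  (TrL.c (I.mix (nat_lit 29511666) (nat_lit 77433728)) T0.l12
  (TrL.c (I.mix (nat_lit 29511666) (nat_lit 46070178)) T2.l12
  TrL.n)))))))) (by decide +kernel)
theorem bx2_13 : BoxOK sI cl7 cl7 cl4 t2 t0 b2_13 :=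
  box_mk (TrL.c (I.pos (nat_lit 0) (nat_lit 0)) T2.l0
  (TrL.c (I.pos (nat_lit 0) (nat_lit 0)) (xa T0.l9 T0.l9)
  (TrL.c (I.pos (nat_lit 0) (nat_lit 111196574)) (xR T2.l10 T2.l10)
  (TrL.c (I.pos (nat_lit 0) (nat_lit 77433728)) (xR T0.l10 T0.l10)
  (TrL.c (I.pos (nat_lit 0) (nat_lit 0)) T0.l11
  (TrL.c (I.pos (nat_lit 0) (nat_lit 0)) T2.l11
  (TrL.c (I.mix (nat_lit 29511666) (nat_lit 77433728)) (xR T0.l12 T0.l12)
  (TrL.c (I.mix (nat_lit 29511666) (nat_lit 46070178)) (xR T2.l12 T2.l12)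
  TrL.n)))))))) (by decide +kernel)
theorem bx2_14 : BoxOK sI cl7 cl7 cl4 t2 t0 b2_14 :=
  box_mk (TrL.c (I.pos (nat_lit 0) (nat_lit 0)) (xa T2.l0 (xb T2.l0 T2.l0))
  (TrL.c (I.pos (nat_lit 0) (nat_lit 0)) (xa T0.l9 (xk T0.l9 T0.l9))
  (TrL.c (I.pos (nat_lit 0) (nat_lit 111196574)) (xR T2.l10 T2.l4)
  (TrL.c (I.pos (nat_lit 0) (nat_lit 77433728)) (xR T0.l10 T0.l10)
  (TrL.c (I.pos (nat_lit 0) (nat_lit 0)) (xk (xa T0.l11 T0.l11) (xa T0.l11 T0.l11))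
  (TrL.c (I.pos (nat_lit 0) (nat_lit 0)) (xk T2.l11 T2.l11)
  (TrL.c (I.mix (nat_lit 29511666) (nat_lit 77433728)) (xR T0.l12 T0.l12)
  (TrL.c (I.mix (nat_lit 29511666) (nat_lit 46070178)) (xR T2.l12 T2.l12)
  TrL.n)))))))) (by decide +kernel)
theorem bx2_15 : BoxOK sI cl7 cl7 cl4 t2 t0 b2_15 :=
  box_mk (TrL.c (I.pos (nat_lit 0) (nat_lit 0)) (xa (xb (xa T2.l0 T2.l0) (xa T2.l0 T2.l0)) (xb (xa T2.l0 (xb T2.l0 T2.l0)) (xa T2.l0 (xs T2.l0 T2.l0))))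
  (TrL.c (I.pos (nat_lit 0) (nat_lit 0)) (xa (xk T0.l9 T0.l9) (xk (xb T0.l9 T0.l9) T0.l9))
  (TrL.c (I.pos (nat_lit 0) (nat_lit 111196574)) (xR T2.l10 (xR T2.l10 T2.l10))
  (TrL.c (I.pos (nat_lit 0) (nat_lit 77433728)) (xR T0.l10 (xR T0.l10 T0.l10))
  (TrL.c (I.pos (nat_lit 0) (nat_lit 0)) (xa (xk T0.l11 T0.l11) (xk T0.l11 T0.l11))
  (TrL.c (I.pos (nat_lit 0) (nat_lit 0)) T2.l11
  (TrL.c (I.mix (nat_lit 29511666) (nat_lit 77433728)) (xR T0.l12 (xR T0.l12 T0.l12))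
  (TrL.c (I.mix (nat_lit 29511666) (nat_lit 46070178)) (xR T2.l12 T2.l12)
  TrL.n)))))))) (by decide +kernel)
theorem bx2_16 : BoxOK sI cl7 cl7 cl4 t2 t0 b2_16 :=
  box_mk (TrL.c (I.pos (nat_lit 0) (nat_lit 0)) (xa (xb T2.l0 T2.l0) (xb (xa T2.l0 T2.l0) (xa T2.l0 (xb T2.l0 T2.l0))))
  (TrL.c (I.pos (nat_lit 0) (nat_lit 0)) (xa (xk (xb T0.l9 T0.l9) (xb T0.l9 T0.l9)) (xk (xb T0.l2 (xa T0.l9 T0.l9)) T0.l2))
  (TrL.c (I.pos (nat_lit 0) (nat_lit 111196574)) (xR T2.l10 (xR T2.l10 T2.l4))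
  (TrL.c (I.pos (nat_lit 0) (nat_lit 77433728)) (xR T0.l10 (xR T0.l10 T0.l10))
  (TrL.c (I.pos (nat_lit 0) (nat_lit 0)) (xa (xb (xk (xa T0.l11 T0.l11) (xa T0.l11 T0.l11)) T0.l11) (xb (xk (xa (xb T0.l11 T0.l11) (xb (xk T0.l11 T0.l11) T0.l11)) (xa (xb T0.l11 T0.l11) (xb (xk T0.l11 T0.l11) T0.l11))) (xk (xa T0.l11 (xk (xb T0.l11 T0.l11) (xb T0.l11 T0.l11))) (xa T0.l11 (xk (xb T0.l11 T0.l11) (xb T0.l11 T0.l11))))))
  (TrL.c (I.pos (nat_lit 0) (nat_lit 0)) (xk (xb T2.l1 (xa T2.l11 T2.l11)) (xb T2.l11 T2.l11))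
  (TrL.c (I.mix (nat_lit 29511666) (nat_lit 77433728)) (xR T0.l1 (xR T0.l12 (xR T0.l12 T0.l12)))
  (TrL.c (I.mix (nat_lit 29511666) (nat_lit 46070178)) (xR T2.l2 T2.l2)
  TrL.n)))))))) (by decide +kernel)
theorem bx2_17 : BoxOK sI cl7 cl7 cl4 t2 t0 b2_17 :=
  box_mk (TrL.c (I.pos (nat_lit 0) (nat_lit 0)) T2.l0
  (TrL.c (I.pos (nat_lit 0) (nat_lit 0)) T0.l9
  (TrL.c (I.pos (nat_lit 0) (nat_lit 111196574)) (xR T2.l10 T2.l10)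
  (TrL.c (I.pos (nat_lit 0) (nat_lit 77433728)) (xR T0.l10 T0.l10)
  (TrL.c (I.pos (nat_lit 0) (nat_lit 0)) (xk (xb T0.l0 T0.l11) T0.l0)
  (TrL.c (I.pos (nat_lit 0) (nat_lit 0)) T2.l11
  (TrL.c (I.mix (nat_lit 29511666) (nat_lit 77433728)) (xR T0.l12 T0.l12)
  (TrL.c (I.mix (nat_lit 29511666) (nat_lit 46070178)) T2.l2
  TrL.n)))))))) (by decide +kernel)
theorem bx2_18 : BoxOK sI cl7 cl7 cl4 t2 t0 b2_18 :=
  box_mk (TrL.c (I.pos (nat_lit 0) (nat_lit 0)) (xa T2.l0 (xa T2.l0 (xb T2.l0 T2.l0)))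
  (TrL.c (I.pos (nat_lit 0) (nat_lit 0)) (xa (xk T0.l9 T0.l9) (xk (xb T0.l9 T0.l9) T0.l9))
  (TrL.c (I.pos (nat_lit 0) (nat_lit 111196574)) (xR T2.l10 T2.l4)
  (TrL.c (I.pos (nat_lit 0) (nat_lit 77433728)) (xR T0.l10 (xR T0.l10 T0.l10))
  (TrL.c (I.pos (nat_lit 0) (nat_lit 0)) (xa T0.l11 (xk (xb T0.l11 (xa T0.l11 (xk T0.l11 T0.l11))) (xb T0.l11 (xa T0.l11 (xk T0.l11 T0.l11)))))
  (TrL.c (I.pos (nat_lit 0) (nat_lit 0)) (xk (xa T2.l11 T2.l11) T2.l11)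
  (TrL.c (I.mix (nat_lit 29511666) (nat_lit 77433728)) (xR T0.l12 (xR T0.l12 T0.l12))
  (TrL.c (I.mix (nat_lit 29511666) (nat_lit 46070178)) (xR T2.l12 T2.l12)
  TrL.n)))))))) (by decide +kernel)
theorem bx2_19 : BoxOK sI cl7 cl7 cl4 t2 t0 b2_19 :=
  box_mk (TrL.c (I.pos (nat_lit 0) (nat_lit 0)) T2.l0
  (TrL.c (I.pos (nat_lit 0) (nat_lit 0)) (xk T0.l9 T0.l9)
  (TrL.c (I.pos (nat_lit 0) (nat_lit 111196574)) (xR T2.l10 T2.l4)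
  (TrL.c (I.pos (nat_lit 0) (nat_lit 77433728)) (xR T0.l10 T0.l10)
  (TrL.c (I.pos (nat_lit 0) (nat_lit 0)) T0.l11
  (TrL.c (I.pos (nat_lit 0) (nat_lit 0)) T2.l11
  (TrL.c (I.mix (nat_lit 29511666) (nat_lit 77433728)) (xR T0.l12 T0.l12)
  (TrL.c (I.mix (nat_lit 29511666) (nat_lit 46070178)) (xR T2.l12 T2.l12)
  TrL.n)))))))) (by decide +kernel)
theorem bx2_20 : BoxOK sI cl7 cl7 cl4 t2 t0 b2_20 :=
  box_mk (TrL.c (I.pos (nat_lit 0) (nat_lit 0)) T2.l0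
  (TrL.c (I.pos (nat_lit 0) (nat_lit 0)) T0.l2
  (TrL.c (I.pos (nat_lit 0) (nat_lit 111196574)) (xR T2.l10 T2.l10)
  (TrL.c (I.pos (nat_lit 0) (nat_lit 77433728)) (xR T0.l10 T0.l10)
  (TrL.c (I.pos (nat_lit 0) (nat_lit 0)) (xk (xa T0.l11 T0.l11) (xa T0.l11 T0.l11))
  (TrL.c (I.pos (nat_lit 0) (nat_lit 0)) (xk T2.l11 T2.l11)
  (TrL.c (I.mix (nat_lit 29511666) (nat_lit 77433728)) (xR T0.l12 T0.l12)
  (TrL.c (I.mix (nat_lit 29511666) (nat_lit 46070178)) T2.l2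
  TrL.n)))))))) (by decide +kernel)
theorem bx2_21 : BoxOK sI cl7 cl7 cl4 t2 t0 b2_21 :=
  box_mk (TrL.c (I.pos (nat_lit 0) (nat_lit 0)) T2.l0
  (TrL.c (I.pos (nat_lit 0) (nat_lit 0)) (xk T0.l9 T0.l9)
  (TrL.c (I.pos (nat_lit 0) (nat_lit 111196574)) (xR T2.l10 T2.l10)
  (TrL.c (I.pos (nat_lit 0) (nat_lit 77433728)) (xR T0.l10 T0.l10)
  (TrL.c (I.pos (nat_lit 0) (nat_lit 0)) T0.l11
  (TrL.c (I.pos (nat_lit 0) (nat_lit 0)) T2.l11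
  (TrL.c (I.mix (nat_lit 29511666) (nat_lit 77433728)) (xR T0.l12 T0.l12)
  (TrL.c (I.mix (nat_lit 29511666) (nat_lit 46070178)) (xR T2.l12 T2.l12)
  TrL.n)))))))) (by decide +kernel)
theorem sv2 : StarV sI cl7 cl7 cl4 t2 t0 t2 :=
  (bt_n (bt_n (bt_n (bt_n (bt_b bx2_0) (bt_b bx2_1)) (bt_n (bt_b bx2_2) (bt_n (bt_b bx2_3) (bt_b bx2_4)))) (bt_n (bt_n (bt_b bx2_5) (bt_n (bt_b bx2_6) (bt_b bx2_7))) (bt_n (bt_b bx2_8) (bt_n (bt_b bx2_9) (bt_b bx2_10))))) (bt_n (bt_n (bt_n (bt_b bx2_11) (bt_b bx2_12)) (bt_n (bt_b bx2_13) (bt_n (bt_b bx2_14) (bt_b bx2_15)))) (bt_n (bt_n (bt_b bx2_16) (bt_n (bt_b bx2_17) (bt_b bx2_18))) (bt_n (bt_b bx2_19) (bt_n (bt_b bx2_20) (bt_b bx2_21))))))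
def S2 : StarD := StarD.mk cl7 cl7 cl4 2 0 t2
def G : List StarD := [S0, S1, S2]
theorem so0 : StarOK sI G S0 :=
  star_mk (by decide) (by decide) rfl rfl rfl rfl rfl rfl (rfl : _ = t1) (rfl : _ = t1)
  (st_mk (Pth.l (Pth.l (Pth.l (Pth.l Pth.z)))) (nat_lit 145465083) (nat_lit 169504386) (by decide +kernel))
  (st_mk (Pth.l (Pth.l (Pth.l (Pth.l Pth.z)))) (nat_lit 183534288) (nat_lit 208538653) (by decide +kernel))
  (st_mk (Pth.l (Pth.l (Pth.l (Pth.l Pth.z)))) (nat_lit 228474603) (nat_lit 254835073) (by decide +kernel)) sv0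
theorem so1 : StarOK sI G S1 :=
  star_mk (by decide) (by decide) rfl rfl rfl rfl rfl rfl (rfl : _ = t0) (rfl : _ = t2)
  (st_mk (Pth.l (Pth.l (Pth.l (Pth.l Pth.z)))) (nat_lit 370144663) (nat_lit 375124725) (by decide +kernel))
  (st_mk (Pth.l (Pth.l (Pth.l (Pth.l Pth.z)))) (nat_lit 406241857) (nat_lit 411928578) (by decide +kernel))
  (st_mk (Pth.l (Pth.l (Pth.l (Pth.l Pth.z)))) (nat_lit 448036425) (nat_lit 454630806) (by decide +kernel)) sv1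
theorem so2 : StarOK sI G S2 :=
  star_mk (by decide) (by decide) rfl rfl rfl rfl rfl rfl (rfl : _ = t2) (rfl : _ = t0)
  (st_mk (Pth.l (Pth.l (Pth.l (Pth.l Pth.z)))) (nat_lit 141545174) (nat_lit 164463619) (by decide +kernel))
  (st_mk (Pth.l (Pth.l (Pth.l (Pth.l Pth.z)))) (nat_lit 177305950) (nat_lit 200796424) (by decide +kernel))
  (st_mk (Pth.l (Pth.l (Pth.l (Pth.l Pth.z)))) (nat_lit 218813345) (nat_lit 243099300) (by decide +kernel)) sv2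
theorem ok : GroupOK (nat_lit 150274048) (nat_lit 209387520) G := grp_mk (allS_c so0 (allS_c so1 (allS_c so2 allS_n)))
theorem cov : GCov G cl4 cl7 cl7 := cov_mk
  ⟨0, by decide, rfl, rfl, rfl⟩ ⟨0, by decide, rfl, rfl, rfl⟩ ⟨1, by decide, rfl, rfl, rfl⟩ ⟨2, by decide, rfl, rfl, rfl⟩ ⟨1, by decide, rfl, rfl, rfl⟩ ⟨2, by decide, rfl, rfl, rfl⟩
end Q144_2

namespace Q144_3
def sI : I := I.pos (nat_lit 209321984) (nat_lit 238944256)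
def b0_0 : Bx := Bx.mk (St.mk (I.pos (nat_lit 158646272) (nat_lit 233390080)) (I.mix (nat_lit 1835008) (nat_lit 62652416)) (I.mix (nat_lit 2424832) (nat_lit 72024064)) (I.pos (nat_lit 144441344) (nat_lit 285999104)) (I.mix (nat_lit 134610944) (nat_lit 93175808)) (I.mix (nat_lit 84508672) (nat_lit 82296832)) (I.mix (nat_lit 135626752) (nat_lit 132595712)))
  false (nat_lit 12203438)
def b0_1 : Bx := Bx.mk (St.mk (I.mix (nat_lit 16941056) (nat_lit 115228672)) (I.mix (nat_lit 7061504) (nat_lit 31981568)) (I.mix (nat_lit 26165248) (nat_lit 7028736)) (I.pos (nat_lit 41877504) (nat_lit 112918528)) (I.mix (nat_lit 46743552) (nat_lit 56016896)) (I.mix (nat_lit 45039616) (nat_lit 35717120)) (I.mix (nat_lit 32882688) (nat_lit 23445504)))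
  false (nat_lit 0)
def b0_2 : Bx := Bx.mk (St.mk (I.pos (nat_lit 87048192) (nat_lit 131153920)) (I.mix (nat_lit 51068928) (nat_lit 10862592)) (I.neg (nat_lit 8388608) (nat_lit 63700992)) (I.pos (nat_lit 75022336) (nat_lit 126517248)) (I.mix (nat_lit 112754688) (nat_lit 54968320)) (I.mix (nat_lit 49627136) (nat_lit 100646912)) (I.mix (nat_lit 34308096) (nat_lit 77070336)))
  false (nat_lit 0)
def b0_3 : Bx := Bx.mk (St.mk (I.mix (nat_lit 32440320) (nat_lit 64241664)) (I.mix (nat_lit 29720576) (nat_lit 4718592)) (I.neg (nat_lit 3129344) (nat_lit 25608192)) (I.pos (nat_lit 42909696) (nat_lit 79446016)) (I.mix (nat_lit 51773440) (nat_lit 25559040)) (I.mix (nat_lit 22544384) (nat_lit 41058304)) (I.mix (nat_lit 10354688) (nat_lit 16777216)))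
  false (nat_lit 0)
def b0_4 : Bx := Bx.mk (St.mk (I.pos (nat_lit 186007552) (nat_lit 248201216)) (I.mix (nat_lit 15319040) (nat_lit 61210624)) (I.mix (nat_lit 77365248) (nat_lit 64356352)) (I.pos (nat_lit 214663168) (nat_lit 305446912)) (I.mix (nat_lit 125878272) (nat_lit 105545728)) (I.mix (nat_lit 106790912) (nat_lit 91799552)) (I.mix (nat_lit 181862400) (nat_lit 146276352)))
  false (nat_lit 31314320)
def b0_5 : Bx := Bx.mk (St.mk (I.pos (nat_lit 78348288) (nat_lit 112230400)) (I.mix (nat_lit 10731520) (nat_lit 15777792)) (I.neg (nat_lit 4505600) (nat_lit 28884992)) (I.pos (nat_lit 71761920) (nat_lit 111509504)) (I.mix (nat_lit 49397760) (nat_lit 34537472)) (I.mix (nat_lit 35618816) (nat_lit 32817152)) (I.mix (nat_lit 21905408) (nat_lit 24690688)))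
  false (nat_lit 0)
def b0_6 : Bx := Bx.mk (St.mk (I.mix (nat_lit 42418176) (nat_lit 46809088)) (I.mix (nat_lit 5570560) (nat_lit 9945088)) (I.neg (nat_lit 6012928) (nat_lit 15368192)) (I.pos (nat_lit 43925504) (nat_lit 71565312)) (I.mix (nat_lit 24788992) (nat_lit 21315584)) (I.mix (nat_lit 19496960) (nat_lit 18382848)) (I.mix (nat_lit 5341184) (nat_lit 6307840)))
  false (nat_lit 0)
def b0_7 : Bx := Bx.mk (St.mk (I.pos (nat_lit 212697088) (nat_lit 255770624)) (I.mix (nat_lit 15548416) (nat_lit 17956864)) (I.neg (nat_lit 16187392) (nat_lit 85196800)) (I.pos (nat_lit 237240320) (nat_lit 325926912)) (I.mix (nat_lit 108167168) (nat_lit 29966336)) (I.mix (nat_lit 60407808) (nat_lit 63553536)) (I.mix (nat_lit 91406336) (nat_lit 122765312)))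
  false (nat_lit 0)
def b0_8 : Bx := Bx.mk (St.mk (I.pos (nat_lit 86409216) (nat_lit 169099264)) (I.neg (nat_lit 1884160) (nat_lit 51281920)) (I.neg (nat_lit 12894208) (nat_lit 63848448)) (I.pos (nat_lit 86196224) (nat_lit 169082880)) (I.mix (nat_lit 92405760) (nat_lit 50724864)) (I.mix (nat_lit 44318720) (nat_lit 68517888)) (I.mix (nat_lit 34291712) (nat_lit 66191360)))
  false (nat_lit 0)
def b0_9 : Bx := Bx.mk (St.mk (I.mix (nat_lit 26755072) (nat_lit 84492288)) (I.mix (nat_lit 30015488) (nat_lit 6012928)) (I.neg (nat_lit 3588096) (nat_lit 26640384)) (I.pos (nat_lit 41074688) (nat_lit 90128384)) (I.mix (nat_lit 48414720) (nat_lit 34750464)) (I.mix (nat_lit 25362432) (nat_lit 39092224)) (I.mix (nat_lit 13746176) (nat_lit 21839872)))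
  false (nat_lit 0)
def b0_10 : Bx := Bx.mk (St.mk (I.pos (nat_lit 162856960) (nat_lit 215269376)) (I.mix (nat_lit 10240000) (nat_lit 56967168)) (I.mix (nat_lit 16285696) (nat_lit 65110016)) (I.pos (nat_lit 160137216) (nat_lit 250101760)) (I.mix (nat_lit 134971392) (nat_lit 63700992)) (I.mix (nat_lit 122847232) (nat_lit 84000768)) (I.mix (nat_lit 123404288) (nat_lit 85458944)))
  false (nat_lit 0)
def b0_11 : Bx := Bx.mk (St.mk (I.mix (nat_lit 37732352) (nat_lit 109887488)) (I.mix (nat_lit 11468800) (nat_lit 33832960)) (I.mix (nat_lit 18563072) (nat_lit 10059776)) (I.pos (nat_lit 41730048) (nat_lit 109412352)) (I.mix (nat_lit 48447488) (nat_lit 43827200)) (I.mix (nat_lit 47333376) (nat_lit 32423936)) (I.mix (nat_lit 24477696) (nat_lit 17137664)))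
  false (nat_lit 0)
def b0_12 : Bx := Bx.mk (St.mk (I.pos (nat_lit 134348800) (nat_lit 205586432)) (I.mix (nat_lit 39665664) (nat_lit 13008896)) (I.mix (nat_lit 60309504) (nat_lit 5799936)) (I.pos (nat_lit 120733696) (nat_lit 223100928)) (I.mix (nat_lit 72007680) (nat_lit 75743232)) (I.mix (nat_lit 79134720) (nat_lit 72843264)) (I.mix (nat_lit 82132992) (nat_lit 68927488)))
  false (nat_lit 34727436)
def b0_13 : Bx := Bx.mk (St.mk (I.pos (nat_lit 161480704) (nat_lit 207519744)) (I.mix (nat_lit 18956288) (nat_lit 28901376)) (I.mix (nat_lit 33570816) (nat_lit 29540352)) (I.pos (nat_lit 159301632) (nat_lit 228229120)) (I.mix (nat_lit 113262592) (nat_lit 90554368)) (I.mix (nat_lit 118472704) (nat_lit 89243648)) (I.mix (nat_lit 123305984) (nat_lit 88555520)))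
  false (nat_lit 0)
def t0 : BTr := (BTr.n (BTr.n (BTr.n (BTr.b b0_0) (BTr.n (BTr.b b0_1) (BTr.b b0_2))) (BTr.n (BTr.n (BTr.b b0_3) (BTr.b b0_4)) (BTr.n (BTr.b b0_5) (BTr.b b0_6)))) (BTr.n (BTr.n (BTr.b b0_7) (BTr.n (BTr.b b0_8) (BTr.b b0_9))) (BTr.n (BTr.n (BTr.b b0_10) (BTr.b b0_11)) (BTr.n (BTr.b b0_12) (BTr.b b0_13)))))
namespace T0
def l0 : Tr := Tr.L (Pth.l (Pth.l (Pth.l Pth.z)))
def l1 : Tr := Tr.L (Pth.l (Pth.l (Pth.r (Pth.l Pth.z))))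
def l2 : Tr := Tr.L (Pth.l (Pth.l (Pth.r (Pth.r Pth.z))))
def l3 : Tr := Tr.L (Pth.l (Pth.r (Pth.l (Pth.l Pth.z))))
def l4 : Tr := Tr.L (Pth.l (Pth.r (Pth.l (Pth.r Pth.z))))
def l5 : Tr := Tr.L (Pth.l (Pth.r (Pth.r (Pth.l Pth.z))))
def l6 : Tr := Tr.L (Pth.l (Pth.r (Pth.r (Pth.r Pth.z))))
def l7 : Tr := Tr.L (Pth.r (Pth.l (Pth.l Pth.z)))
def l8 : Tr := Tr.L (Pth.r (Pth.l (Pth.r (Pth.l Pth.z))))
def l9 : Tr := Tr.L (Pth.r (Pth.l (Pth.r (Pth.r Pth.z))))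
def l10 : Tr := Tr.L (Pth.r (Pth.r (Pth.l (Pth.l Pth.z))))
def l11 : Tr := Tr.L (Pth.r (Pth.r (Pth.l (Pth.r Pth.z))))
def l12 : Tr := Tr.L (Pth.r (Pth.r (Pth.r (Pth.l Pth.z))))
def l13 : Tr := Tr.L (Pth.r (Pth.r (Pth.r (Pth.r Pth.z))))
end T0
def b1_0 : Bx := Bx.mk (St.mk (I.pos (nat_lit 132677632) (nat_lit 217382912)) (I.mix (nat_lit 2686976) (nat_lit 93405184)) (I.mix (nat_lit 2998272) (nat_lit 102973440)) (I.pos (nat_lit 368459776) (nat_lit 460210176)) (I.mix (nat_lit 187662336) (nat_lit 117506048)) (I.mix (nat_lit 111427584) (nat_lit 106184704)) (I.mix (nat_lit 132874240) (nat_lit 140197888)))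
  false (nat_lit 135946931)
def b1_1 : Bx := Bx.mk (St.mk (I.pos (nat_lit 16400384) (nat_lit 128614400)) (I.neg (nat_lit 2457600) (nat_lit 92454912)) (I.mix (nat_lit 79265792) (nat_lit 8732672)) (I.pos (nat_lit 265404416) (nat_lit 338313216)) (I.mix (nat_lit 146472960) (nat_lit 91373568)) (I.mix (nat_lit 92127232) (nat_lit 98205696)) (I.mix (nat_lit 97714176) (nat_lit 78020608)))
  false (nat_lit 116781942)
def b1_2 : Bx := Bx.mk (St.mk (I.mix (nat_lit 55263232) (nat_lit 16990208)) (I.mix (nat_lit 15613952) (nat_lit 88309760)) (I.neg (nat_lit 37552128) (nat_lit 67534848)) (I.pos (nat_lit 261619712) (nat_lit 295272448)) (I.mix (nat_lit 65503232) (nat_lit 131792896)) (I.mix (nat_lit 96894976) (nat_lit 79593472)) (I.mix (nat_lit 54542336) (nat_lit 38813696)))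
  true (nat_lit 0)
def b1_3 : Bx := Bx.mk (St.mk (I.pos (nat_lit 87097344) (nat_lit 181911552)) (I.mix (nat_lit 38076416) (nat_lit 84213760)) (I.mix (nat_lit 28508160) (nat_lit 102940672)) (I.pos (nat_lit 300154880) (nat_lit 421380096)) (I.mix (nat_lit 190234624) (nat_lit 93700096)) (I.mix (nat_lit 151830528) (nat_lit 121028608)) (I.mix (nat_lit 157220864) (nat_lit 154796032)))
  false (nat_lit 84541332)
def b1_4 : Bx := Bx.mk (St.mk (I.pos (nat_lit 9732096) (nat_lit 51986432)) (I.neg (nat_lit 32358400) (nat_lit 84099072)) (I.neg (nat_lit 38731776) (nat_lit 66895872)) (I.pos (nat_lit 268075008) (nat_lit 293601280)) (I.mix (nat_lit 130793472) (nat_lit 65503232)) (I.mix (nat_lit 77725696) (nat_lit 91062272)) (I.mix (nat_lit 50069504) (nat_lit 34029568)))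
  false (nat_lit 58296287)
def b1_5 : Bx := Bx.mk (St.mk (I.neg (nat_lit 16400384) (nat_lit 128614400)) (I.pos (nat_lit 2539520) (nat_lit 92471296)) (I.mix (nat_lit 79265792) (nat_lit 9535488)) (I.pos (nat_lit 265404416) (nat_lit 338345984)) (I.mix (nat_lit 91373568) (nat_lit 146489344)) (I.mix (nat_lit 98222080) (nat_lit 92143616)) (I.mix (nat_lit 97714176) (nat_lit 78020608)))
  true (nat_lit 11401156)
def b1_6 : Bx := Bx.mk (St.mk (I.pos (nat_lit 169410560) (nat_lit 292683776)) (I.mix (nat_lit 30244864) (nat_lit 60342272)) (I.mix (nat_lit 154632192) (nat_lit 31752192)) (I.pos (nat_lit 400539648) (nat_lit 588496896)) (I.mix (nat_lit 103940096) (nat_lit 99549184)) (I.mix (nat_lit 79216640) (nat_lit 75022336)) (I.mix (nat_lit 129826816) (nat_lit 112951296)))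
  false (nat_lit 87641848)
def b1_7 : Bx := Bx.mk (St.mk (I.mix (nat_lit 16990208) (nat_lit 46678016)) (I.mix (nat_lit 48300032) (nat_lit 15646720)) (I.neg (nat_lit 37584896) (nat_lit 53788672)) (I.pos (nat_lit 262356992) (nat_lit 280641536)) (I.mix (nat_lit 71548928) (nat_lit 50462720)) (I.mix (nat_lit 47316992) (nat_lit 49709056)) (I.mix (nat_lit 15155200) (nat_lit 17432576)))
  false (nat_lit 0)
def b1_8 : Bx := Bx.mk (St.mk (I.pos (nat_lit 149078016) (nat_lit 212287488)) (I.pos (nat_lit 19103744) (nat_lit 90554368)) (I.mix (nat_lit 14385152) (nat_lit 93290496)) (I.pos (nat_lit 390070272) (nat_lit 455000064)) (I.mix (nat_lit 149553152) (nat_lit 111050752)) (I.mix (nat_lit 108265472) (nat_lit 86851584)) (I.mix (nat_lit 159727616) (nat_lit 120389632)))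
  false (nat_lit 91323462)
def b1_9 : Bx := Bx.mk (St.mk (I.pos (nat_lit 10944512) (nat_lit 46940160)) (I.neg (nat_lit 24182784) (nat_lit 75399168)) (I.neg (nat_lit 39092224) (nat_lit 64618496)) (I.pos (nat_lit 267747328) (nat_lit 288243712)) (I.mix (nat_lit 121667584) (nat_lit 41615360)) (I.mix (nat_lit 55083008) (nat_lit 96894976)) (I.mix (nat_lit 36388864) (nat_lit 30588928)))
  false (nat_lit 23476176)
def t1 : BTr := (BTr.n (BTr.n (BTr.n (BTr.b b1_0) (BTr.b b1_1)) (BTr.n (BTr.b b1_2) (BTr.n (BTr.b b1_3) (BTr.b b1_4)))) (BTr.n (BTr.n (BTr.b b1_5) (BTr.b b1_6)) (BTr.n (BTr.b b1_7) (BTr.n (BTr.b b1_8) (BTr.b b1_9)))))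
namespace T1
def l0 : Tr := Tr.L (Pth.l (Pth.l (Pth.l Pth.z)))
def l1 : Tr := Tr.L (Pth.l (Pth.l (Pth.r Pth.z)))
def l2 : Tr := Tr.L (Pth.l (Pth.r (Pth.l Pth.z)))
def l3 : Tr := Tr.L (Pth.l (Pth.r (Pth.r (Pth.l Pth.z))))
def l4 : Tr := Tr.L (Pth.l (Pth.r (Pth.r (Pth.r Pth.z))))
def l5 : Tr := Tr.L (Pth.r (Pth.l (Pth.l Pth.z)))
def l6 : Tr := Tr.L (Pth.r (Pth.l (Pth.r Pth.z)))
def l7 : Tr := Tr.L (Pth.r (Pth.r (Pth.l Pth.z)))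
def l8 : Tr := Tr.L (Pth.r (Pth.r (Pth.r (Pth.l Pth.z))))
def l9 : Tr := Tr.L (Pth.r (Pth.r (Pth.r (Pth.r Pth.z))))
end T1
def b2_0 : Bx := Bx.mk (St.mk (I.pos (nat_lit 151044096) (nat_lit 225558528)) (I.mix (nat_lit 1490944) (nat_lit 48070656)) (I.mix (nat_lit 3080192) (nat_lit 107708416)) (I.pos (nat_lit 140705792) (nat_lit 244563968)) (I.mix (nat_lit 117587968) (nat_lit 67715072)) (I.mix (nat_lit 87474176) (nat_lit 74645504)) (I.mix (nat_lit 115605504) (nat_lit 91881472)))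
  false (nat_lit 8118075)
def b2_1 : Bx := Bx.mk (St.mk (I.pos (nat_lit 100483072) (nat_lit 169918464)) (I.neg (nat_lit 3670016) (nat_lit 61292544)) (I.mix (nat_lit 41664512) (nat_lit 24133632)) (I.pos (nat_lit 100417536) (nat_lit 170164224)) (I.mix (nat_lit 91881472) (nat_lit 74547200)) (I.mix (nat_lit 59326464) (nat_lit 69943296)) (I.mix (nat_lit 53854208) (nat_lit 67960832)))
  false (nat_lit 60446233)
def b2_2 : Bx := Bx.mk (St.mk (I.mix (nat_lit 18612224) (nat_lit 79757312)) (I.mix (nat_lit 31883264) (nat_lit 3440640)) (I.mix (nat_lit 7176192) (nat_lit 15384576)) (I.pos (nat_lit 42827776) (nat_lit 87539712)) (I.mix (nat_lit 35831808) (nat_lit 48594944)) (I.mix (nat_lit 29491200) (nat_lit 38486016)) (I.mix (nat_lit 13238272) (nat_lit 20611072)))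
  false (nat_lit 0)
def b2_3 : Bx := Bx.mk (St.mk (I.pos (nat_lit 151224320) (nat_lit 199409664)) (I.mix (nat_lit 13123584) (nat_lit 46465024)) (I.pos (nat_lit 21135360) (nat_lit 98992128)) (I.pos (nat_lit 134578176) (nat_lit 208044032)) (I.mix (nat_lit 140525568) (nat_lit 55836672)) (I.mix (nat_lit 130580480) (nat_lit 76922880)) (I.mix (nat_lit 140509184) (nat_lit 66469888)))
  false (nat_lit 20541222)
def b2_4 : Bx := Bx.mk (St.mk (I.mix (nat_lit 33832960) (nat_lit 101974016)) (I.mix (nat_lit 12943360) (nat_lit 33390592)) (I.pos (nat_lit 671744) (nat_lit 36028416)) (I.pos (nat_lit 42532864) (nat_lit 102924288)) (I.mix (nat_lit 73023488) (nat_lit 40878080)) (I.mix (nat_lit 61194240) (nat_lit 36110336)) (I.mix (nat_lit 34308096) (nat_lit 20545536)))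
  false (nat_lit 0)
def b2_5 : Bx := Bx.mk (St.mk (I.pos (nat_lit 150421504) (nat_lit 201539584)) (I.mix (nat_lit 42811392) (nat_lit 18464768)) (I.mix (nat_lit 14630912) (nat_lit 64241664)) (I.pos (nat_lit 134414336) (nat_lit 210042880)) (I.mix (nat_lit 122568704) (nat_lit 94568448)) (I.mix (nat_lit 121470976) (nat_lit 81477632)) (I.mix (nat_lit 124534784) (nat_lit 79937536)))
  false (nat_lit 64491294)
def b2_6 : Bx := Bx.mk (St.mk (I.pos (nat_lit 134004736) (nat_lit 172621824)) (I.neg (nat_lit 868352) (nat_lit 38895616)) (I.mix (nat_lit 9977856) (nat_lit 31522816)) (I.pos (nat_lit 121077760) (nat_lit 172064768)) (I.mix (nat_lit 74547200) (nat_lit 62013440)) (I.mix (nat_lit 45514752) (nat_lit 61440000)) (I.mix (nat_lit 49217536) (nat_lit 53510144)))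
  false (nat_lit 23201153)
def b2_7 : Bx := Bx.mk (St.mk (I.mix (nat_lit 44220416) (nat_lit 84951040)) (I.mix (nat_lit 13778944) (nat_lit 8011776)) (I.pos (nat_lit 2146304) (nat_lit 17334272)) (I.pos (nat_lit 42713088) (nat_lit 88473600)) (I.mix (nat_lit 34701312) (nat_lit 27869184)) (I.mix (nat_lit 23494656) (nat_lit 26624000)) (I.mix (nat_lit 13271040) (nat_lit 12894208)))
  false (nat_lit 0)
def b2_8 : Bx := Bx.mk (St.mk (I.pos (nat_lit 148013056) (nat_lit 179666944)) (I.neg (nat_lit 7028736) (nat_lit 37322752)) (I.mix (nat_lit 10223616) (nat_lit 27017216)) (I.pos (nat_lit 133955584) (nat_lit 182910976)) (I.mix (nat_lit 46841856) (nat_lit 41254912)) (I.mix (nat_lit 33980416) (nat_lit 31375360)) (I.mix (nat_lit 32931840) (nat_lit 30474240)))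
  false (nat_lit 0)
def b2_9 : Bx := Bx.mk (St.mk (I.mix (nat_lit 26329088) (nat_lit 120209408)) (I.mix (nat_lit 9338880) (nat_lit 28114944)) (I.pos (nat_lit 491520) (nat_lit 30949376)) (I.pos (nat_lit 42123264) (nat_lit 115933184)) (I.mix (nat_lit 47874048) (nat_lit 39534592)) (I.mix (nat_lit 43073536) (nat_lit 29868032)) (I.mix (nat_lit 30228480) (nat_lit 19349504)))
  false (nat_lit 0)
def b2_10 : Bx := Bx.mk (St.mk (I.pos (nat_lit 91291648) (nat_lit 146325504)) (I.mix (nat_lit 58343424) (nat_lit 11124736)) (I.mix (nat_lit 36110336) (nat_lit 20185088)) (I.pos (nat_lit 79134720) (nat_lit 143196160)) (I.mix (nat_lit 84590592) (nat_lit 58327040)) (I.mix (nat_lit 52051968) (nat_lit 73760768)) (I.mix (nat_lit 36765696) (nat_lit 52068352)))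
  false (nat_lit 44373707)
def b2_11 : Bx := Bx.mk (St.mk (I.mix (nat_lit 36765696) (nat_lit 73793536)) (I.mix (nat_lit 32276480) (nat_lit 5996544)) (I.mix (nat_lit 5505024) (nat_lit 12140544)) (I.pos (nat_lit 42254336) (nat_lit 83935232)) (I.mix (nat_lit 33128448) (nat_lit 29114368)) (I.mix (nat_lit 21676032) (nat_lit 26542080)) (I.mix (nat_lit 8699904) (nat_lit 10518528)))
  false (nat_lit 0)
def b2_12 : Bx := Bx.mk (St.mk (I.pos (nat_lit 183173120) (nat_lit 285048832)) (I.mix (nat_lit 27508736) (nat_lit 36519936)) (I.mix (nat_lit 26738688) (nat_lit 94863360)) (I.pos (nat_lit 191627264) (nat_lit 373440512)) (I.mix (nat_lit 100810752) (nat_lit 72826880)) (I.mix (nat_lit 77234176) (nat_lit 56819712)) (I.mix (nat_lit 131547136) (nat_lit 95469568)))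
  false (nat_lit 37787620)
def b2_13 : Bx := Bx.mk (St.mk (I.pos (nat_lit 174276608) (nat_lit 225165312)) (I.pos (nat_lit 6275072) (nat_lit 47759360)) (I.pos (nat_lit 34750464) (nat_lit 108232704)) (I.pos (nat_lit 181698560) (nat_lit 240762880)) (I.mix (nat_lit 119521280) (nat_lit 82001920)) (I.mix (nat_lit 95928320) (nat_lit 73744384)) (I.mix (nat_lit 145047552) (nat_lit 92913664)))
  false (nat_lit 12705033)
def t2 : BTr := (BTr.n (BTr.n (BTr.n (BTr.b b2_0) (BTr.n (BTr.b b2_1) (BTr.b b2_2))) (BTr.n (BTr.n (BTr.b b2_3) (BTr.b b2_4)) (BTr.n (BTr.b b2_5) (BTr.b b2_6)))) (BTr.n (BTr.n (BTr.b b2_7) (BTr.n (BTr.b b2_8) (BTr.b b2_9))) (BTr.n (BTr.n (BTr.b b2_10) (BTr.b b2_11)) (BTr.n (BTr.b b2_12) (BTr.b b2_13)))))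
namespace T2
def l0 : Tr := Tr.L (Pth.l (Pth.l (Pth.l Pth.z)))
def l1 : Tr := Tr.L (Pth.l (Pth.l (Pth.r (Pth.l Pth.z))))
def l2 : Tr := Tr.L (Pth.l (Pth.l (Pth.r (Pth.r Pth.z))))
def l3 : Tr := Tr.L (Pth.l (Pth.r (Pth.l (Pth.l Pth.z))))
def l4 : Tr := Tr.L (Pth.l (Pth.r (Pth.l (Pth.r Pth.z))))
def l5 : Tr := Tr.L (Pth.l (Pth.r (Pth.r (Pth.l Pth.z))))
def l6 : Tr := Tr.L (Pth.l (Pth.r (Pth.r (Pth.r Pth.z))))
def l7 : Tr := Tr.L (Pth.r (Pth.l (Pth.l Pth.z)))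
def l8 : Tr := Tr.L (Pth.r (Pth.l (Pth.r (Pth.l Pth.z))))
def l9 : Tr := Tr.L (Pth.r (Pth.l (Pth.r (Pth.r Pth.z))))
def l10 : Tr := Tr.L (Pth.r (Pth.r (Pth.l (Pth.l Pth.z))))
def l11 : Tr := Tr.L (Pth.r (Pth.r (Pth.l (Pth.r Pth.z))))
def l12 : Tr := Tr.L (Pth.r (Pth.r (Pth.r (Pth.l Pth.z))))
def l13 : Tr := Tr.L (Pth.r (Pth.r (Pth.r (Pth.r Pth.z))))
end T2
theorem bx0_0 : BoxOK sI cl4 cl7 cl7 t1 t1 b0_0 :=
  box_mk (TrL.c (I.pos (nat_lit 0) (nat_lit 0)) (xa (xb (xa (xb T1.l0 T1.l0) T1.l0) (xa (xb T1.l0 T1.l0) (xb T1.l0 (xa T1.l0 T1.l0)))) (xb (xa T1.l0 T1.l0) (xa (xb T1.l0 (xa T1.l0 T1.l0)) (xb T1.l0 (xa T1.l0 T1.l0)))))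
  (TrL.c (I.pos (nat_lit 0) (nat_lit 0)) (xa (xb T1.l1 T1.l1) (xb T1.l1 T1.l1))
  (TrL.c (I.pos (nat_lit 0) (nat_lit 0)) (xa T1.l2 (xb T1.l2 T1.l2))
  (TrL.c (I.pos (nat_lit 0) (nat_lit 0)) (xa T1.l3 (xb T1.l3 (xa T1.l3 (xb T1.l3 (xa T1.l3 T1.l3)))))
  (TrL.c (I.pos (nat_lit 0) (nat_lit 0)) (xa T1.l4 (xb T1.l4 T1.l4))
  (TrL.c (I.pos (nat_lit 0) (nat_lit 0)) (xa (xb T1.l5 T1.l5) (xb T1.l5 T1.l5))
  TrL.n)))))) (by decide +kernel)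
theorem bx0_1 : BoxOK sI cl4 cl7 cl7 t1 t1 b0_1 :=
  box_mk (TrL.c (I.pos (nat_lit 0) (nat_lit 0)) (xa (xa (xb (xa (xb T1.l6 T1.l6) T1.l6) (xa T1.l6 T1.l6)) T1.l6) (xa T1.l6 (xb T1.l6 (xa T1.l6 T1.l6))))
  (TrL.c (I.pos (nat_lit 0) (nat_lit 0)) T1.l1
  (TrL.c (I.pos (nat_lit 0) (nat_lit 0)) T1.l2
  (TrL.c (I.pos (nat_lit 0) (nat_lit 0)) T1.l3
  (TrL.c (I.pos (nat_lit 0) (nat_lit 0)) T1.l7
  (TrL.c (I.pos (nat_lit 0) (nat_lit 0)) T1.l5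
  TrL.n)))))) (by decide +kernel)
theorem bx0_2 : BoxOK sI cl4 cl7 cl7 t1 t1 b0_2 :=
  box_mk (TrL.c (I.pos (nat_lit 0) (nat_lit 0)) (xb (xa (xb T1.l6 T1.l6) T1.l6) (xa (xb T1.l6 T1.l6) T1.l6))
  (TrL.c (I.pos (nat_lit 0) (nat_lit 0)) T1.l1
  (TrL.c (I.pos (nat_lit 0) (nat_lit 0)) T1.l2
  (TrL.c (I.pos (nat_lit 0) (nat_lit 0)) T1.l3
  (TrL.c (I.pos (nat_lit 0) (nat_lit 0)) T1.l7
  (TrL.c (I.pos (nat_lit 0) (nat_lit 0)) T1.l5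
  TrL.n)))))) (by decide +kernel)
theorem bx0_3 : BoxOK sI cl4 cl7 cl7 t1 t1 b0_3 :=
  box_mk (TrL.c (I.pos (nat_lit 0) (nat_lit 0)) (xa (xb (xa (xa (xb (xa T1.l6 T1.l6) T1.l6) T1.l6) T1.l6) T1.l6) T1.l6)
  (TrL.c (I.pos (nat_lit 0) (nat_lit 0)) T1.l1
  (TrL.c (I.pos (nat_lit 0) (nat_lit 0)) T1.l2
  (TrL.c (I.pos (nat_lit 0) (nat_lit 0)) (xa T1.l1 T1.l3)
  (TrL.c (I.pos (nat_lit 0) (nat_lit 0)) T1.l7
  (TrL.c (I.pos (nat_lit 0) (nat_lit 0)) T1.l5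
  TrL.n)))))) (by decide +kernel)
theorem bx0_4 : BoxOK sI cl4 cl7 cl7 t1 t1 b0_4 :=
  box_mk (TrL.c (I.pos (nat_lit 0) (nat_lit 0)) (xb (xa (xb (xa T1.l0 T1.l0) (xa (xb T1.l0 T1.l0) T1.l0)) (xb (xa T1.l0 T1.l3) (xa T1.l0 T1.l3))) (xa (xb (xa (xb T1.l0 T1.l0) (xb T1.l0 T1.l0)) (xa (xb (xa T1.l0 T1.l0) (xa T1.l0 T1.l0)) (xb (xa T1.l0 T1.l0) (xa T1.l0 T1.l0)))) (xb (xa (xb T1.l0 T1.l0) (xb T1.l0 T1.l0)) (xa (xb T1.l0 (xa T1.l0 T1.l0)) (xb T1.l0 (xa T1.l0 T1.l0))))))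
  (TrL.c (I.pos (nat_lit 0) (nat_lit 0)) (xb (xa T1.l1 T1.l1) (xa (xb T1.l1 T1.l1) (xa T1.l1 T1.l1)))
  (TrL.c (I.pos (nat_lit 0) (nat_lit 0)) (xc (xa T1.l5 T1.l5) (xa T1.l2 T1.l5))
  (TrL.c (I.pos (nat_lit 0) (nat_lit 0)) (xb (xa (xb (xc (xa T1.l3 T1.l3) (xa T1.l3 T1.l3)) T1.l3) (xb (xa (xc (xb T1.l3 T1.l3) (xb T1.l3 T1.l3)) (xc (xd (xb T1.l3 T1.l3) (xb T1.l3 T1.l3)) (xd (xb T1.l3 T1.l3) (xb T1.l3 T1.l3)))) (xc (xa T1.l3 (xd T1.l3 T1.l3)) (xa T1.l3 (xd T1.l3 T1.l3))))) (xa (xb T1.l3 (xc T1.l3 T1.l3)) (xb (xc (xa T1.l3 (xd T1.l3 T1.l3)) (xa T1.l3 (xd T1.l3 T1.l3))) (xa (xc T1.l3 (xb T1.l3 T1.l3)) (xc (xb (xd T1.l3 T1.l3) (xd T1.l3 T1.l3)) (xd (xb T1.l3 T1.l3) (xb T1.l3 T1.l3)))))))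
  (TrL.c (I.pos (nat_lit 0) (nat_lit 0)) (xa (xc T1.l1 T1.l4) (xc T1.l1 T1.l1))
  (TrL.c (I.pos (nat_lit 0) (nat_lit 0)) (xb (xa T1.l5 T1.l5) (xa (xb T1.l5 T1.l5) (xa T1.l5 T1.l5)))
  TrL.n)))))) (by decide +kernel)
theorem bx0_5 : BoxOK sI cl4 cl7 cl7 t1 t1 b0_5 :=
  box_mk (TrL.c (I.pos (nat_lit 0) (nat_lit 0)) T1.l6
  (TrL.c (I.pos (nat_lit 0) (nat_lit 0)) T1.l1
  (TrL.c (I.pos (nat_lit 0) (nat_lit 0)) T1.l2
  (TrL.c (I.pos (nat_lit 0) (nat_lit 0)) T1.l3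
  (TrL.c (I.pos (nat_lit 0) (nat_lit 0)) T1.l7
  (TrL.c (I.pos (nat_lit 0) (nat_lit 0)) T1.l5
  TrL.n)))))) (by decide +kernel)
theorem bx0_6 : BoxOK sI cl4 cl7 cl7 t1 t1 b0_6 :=
  box_mk (TrL.c (I.pos (nat_lit 0) (nat_lit 0)) (xa (xa (xb (xa (xa T1.l6 T1.l6) T1.l6) T1.l6) T1.l6) T1.l6)
  (TrL.c (I.pos (nat_lit 0) (nat_lit 0)) T1.l1
  (TrL.c (I.pos (nat_lit 0) (nat_lit 0)) T1.l2
  (TrL.c (I.pos (nat_lit 0) (nat_lit 0)) T1.l3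
  (TrL.c (I.pos (nat_lit 0) (nat_lit 0)) T1.l7
  (TrL.c (I.pos (nat_lit 0) (nat_lit 0)) T1.l5
  TrL.n)))))) (by decide +kernel)
theorem bx0_7 : BoxOK sI cl4 cl7 cl7 t1 t1 b0_7 :=
  box_mk (TrL.c (I.pos (nat_lit 0) (nat_lit 0)) (xa T1.l0 T1.l3)
  (TrL.c (I.pos (nat_lit 0) (nat_lit 0)) (xa T1.l1 T1.l1)
  (TrL.c (I.pos (nat_lit 0) (nat_lit 0)) T1.l5
  (TrL.c (I.pos (nat_lit 0) (nat_lit 0)) (xa T1.l3 (xb T1.l0 T1.l3))
  (TrL.c (I.pos (nat_lit 0) (nat_lit 0)) T1.l1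
  (TrL.c (I.pos (nat_lit 0) (nat_lit 0)) (xa T1.l5 T1.l5)
  TrL.n)))))) (by decide +kernel)
theorem bx0_8 : BoxOK sI cl4 cl7 cl7 t1 t1 b0_8 :=
  box_mk (TrL.c (I.pos (nat_lit 0) (nat_lit 0)) (xa (xb (xa T1.l6 T1.l6) T1.l6) (xb (xa T1.l6 T1.l6) (xa T1.l6 T1.l0)))
  (TrL.c (I.pos (nat_lit 0) (nat_lit 0)) T1.l1
  (TrL.c (I.pos (nat_lit 0) (nat_lit 0)) T1.l2
  (TrL.c (I.pos (nat_lit 0) (nat_lit 0)) T1.l3
  (TrL.c (I.pos (nat_lit 0) (nat_lit 0)) T1.l7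
  (TrL.c (I.pos (nat_lit 0) (nat_lit 0)) T1.l5
  TrL.n)))))) (by decide +kernel)
theorem bx0_9 : BoxOK sI cl4 cl7 cl7 t1 t1 b0_9 :=
  box_mk (TrL.c (I.pos (nat_lit 0) (nat_lit 0)) (xa (xa (xb (xa (xb T1.l6 T1.l6) T1.l6) T1.l6) T1.l6) T1.l6)
  (TrL.c (I.pos (nat_lit 0) (nat_lit 0)) T1.l1
  (TrL.c (I.pos (nat_lit 0) (nat_lit 0)) T1.l2
  (TrL.c (I.pos (nat_lit 0) (nat_lit 0)) (xa T1.l1 T1.l3)
  (TrL.c (I.pos (nat_lit 0) (nat_lit 0)) T1.l7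
  (TrL.c (I.pos (nat_lit 0) (nat_lit 0)) T1.l5
  TrL.n)))))) (by decide +kernel)
theorem bx0_10 : BoxOK sI cl4 cl7 cl7 t1 t1 b0_10 :=
  box_mk (TrL.c (I.pos (nat_lit 0) (nat_lit 0)) (xb (xa (xb T1.l8 T1.l8) (xb T1.l8 T1.l8)) (xa (xb (xa T1.l8 T1.l8) (xa T1.l8 T1.l8)) (xb (xa T1.l8 T1.l8) (xa T1.l8 T1.l8))))
  (TrL.c (I.pos (nat_lit 0) (nat_lit 0)) (xb T1.l1 (xa T1.l1 T1.l1))
  (TrL.c (I.pos (nat_lit 0) (nat_lit 0)) (xb T1.l2 T1.l2)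
  (TrL.c (I.pos (nat_lit 0) (nat_lit 0)) (xb (xa T1.l3 T1.l3) (xa T1.l3 (xb T1.l3 T1.l3)))
  (TrL.c (I.pos (nat_lit 0) (nat_lit 0)) (xb T1.l1 T1.l9)
  (TrL.c (I.pos (nat_lit 0) (nat_lit 0)) (xb T1.l5 (xa T1.l5 T1.l5))
  TrL.n)))))) (by decide +kernel)
theorem bx0_11 : BoxOK sI cl4 cl7 cl7 t1 t1 b0_11 :=
  box_mk (TrL.c (I.pos (nat_lit 0) (nat_lit 0)) (xa (xa (xb (xa (xb T1.l6 T1.l6) T1.l6) (xa (xb T1.l6 (xa (xb T1.l6 T1.l6) T1.l6)) (xb T1.l6 T1.l6))) (xb T1.l6 T1.l6)) (xa T1.l6 (xb T1.l6 (xa T1.l6 T1.l6))))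
  (TrL.c (I.pos (nat_lit 0) (nat_lit 0)) (xa T1.l1 T1.l1)
  (TrL.c (I.pos (nat_lit 0) (nat_lit 0)) (xa T1.l2 T1.l2)
  (TrL.c (I.pos (nat_lit 0) (nat_lit 0)) (xa T1.l3 T1.l3)
  (TrL.c (I.pos (nat_lit 0) (nat_lit 0)) (xa T1.l7 T1.l7)
  (TrL.c (I.pos (nat_lit 0) (nat_lit 0)) (xa T1.l5 T1.l5)
  TrL.n)))))) (by decide +kernel)
theorem bx0_12 : BoxOK sI cl4 cl7 cl7 t1 t1 b0_12 :=
  box_mk (TrL.c (I.pos (nat_lit 0) (nat_lit 0)) (xa (xb (xa T1.l8 T1.l8) (xa T1.l0 T1.l8)) T1.l0)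
  (TrL.c (I.pos (nat_lit 0) (nat_lit 0)) T1.l1
  (TrL.c (I.pos (nat_lit 0) (nat_lit 0)) T1.l2
  (TrL.c (I.pos (nat_lit 0) (nat_lit 0)) (xa T1.l3 (xb T1.l3 T1.l3))
  (TrL.c (I.pos (nat_lit 0) (nat_lit 0)) T1.l1
  (TrL.c (I.pos (nat_lit 0) (nat_lit 0)) T1.l5
  TrL.n)))))) (by decide +kernel)
theorem bx0_13 : BoxOK sI cl4 cl7 cl7 t1 t1 b0_13 :=
  box_mk (TrL.c (I.pos (nat_lit 0) (nat_lit 0)) (xb (xa T1.l8 T1.l8) (xa T1.l8 (xa T1.l8 T1.l8)))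
  (TrL.c (I.pos (nat_lit 0) (nat_lit 0)) T1.l1
  (TrL.c (I.pos (nat_lit 0) (nat_lit 0)) T1.l2
  (TrL.c (I.pos (nat_lit 0) (nat_lit 0)) (xb (xa T1.l3 (xb T1.l3 T1.l3)) T1.l3)
  (TrL.c (I.pos (nat_lit 0) (nat_lit 0)) T1.l1
  (TrL.c (I.pos (nat_lit 0) (nat_lit 0)) T1.l5
  TrL.n)))))) (by decide +kernel)
theorem sv0 : StarV sI cl4 cl7 cl7 t1 t1 t0 :=
  (bt_n (bt_n (bt_n (bt_b bx0_0) (bt_n (bt_b bx0_1) (bt_b bx0_2))) (bt_n (bt_n (bt_b bx0_3) (bt_b bx0_4)) (bt_n (bt_b bx0_5) (bt_b bx0_6)))) (bt_n (bt_n (bt_b bx0_7) (bt_n (bt_b bx0_8) (bt_b bx0_9))) (bt_n (bt_n (bt_b bx0_10) (bt_b bx0_11)) (bt_n (bt_b bx0_12) (bt_b bx0_13)))))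
def S0 : StarD := StarD.mk cl4 cl7 cl7 1 1 t0
theorem bx1_0 : BoxOK sI cl7 cl4 cl7 t0 t2 b1_0 :=
  box_mk (TrL.c (I.pos (nat_lit 0) (nat_lit 0)) (xa (xb (xb T0.l0 T0.l0) (xb (xa T0.l0 T0.l0) (xa T0.l0 T0.l0))) (xb T0.l0 (xa (xb T0.l0 T0.l0) (xb T0.l0 T0.l0))))
  (TrL.c (I.pos (nat_lit 0) (nat_lit 0)) (xa T2.l1 (xb T2.l1 T2.l1))
  (TrL.c (I.pos (nat_lit 0) (nat_lit 111196574)) (xR (xR T0.l1 T0.l1) (xR T0.l1 (xR T0.l1 T0.l1)))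
  (TrL.c (I.pos (nat_lit 0) (nat_lit 77433728)) (xR (xR T2.l2 T2.l2) (xR T2.l2 T2.l2))
  (TrL.c (I.pos (nat_lit 0) (nat_lit 0)) (xb (xa (xk T2.l5 T2.l5) (xk (xb T2.l3 T2.l3) (xb T2.l3 T2.l3))) (xa (xk T2.l3 T2.l3) (xk (xb T2.l3 T2.l3) (xb T2.l3 T2.l3))))
  (TrL.c (I.pos (nat_lit 0) (nat_lit 0)) T0.l2
  (TrL.c (I.mix (nat_lit 29511666) (nat_lit 77433728)) (xR (xR T2.l4 T2.l4) (xR T2.l4 (xR T2.l4 T2.l4)))
  (TrL.c (I.mix (nat_lit 29511666) (nat_lit 46070178)) (xR (xR T0.l3 T0.l3) (xR T0.l3 T0.l3))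
  TrL.n)))))))) (by decide +kernel)
theorem bx1_1 : BoxOK sI cl7 cl4 cl7 t0 t2 b1_1 :=
  box_mk (TrL.c (I.pos (nat_lit 0) (nat_lit 0)) (xa (xb (xa (xb T0.l4 T0.l4) T0.l4) (xa (xb T0.l4 T0.l4) T0.l4)) (xb (xa T0.l4 T0.l4) T0.l4))
  (TrL.c (I.pos (nat_lit 0) (nat_lit 0)) (xa T2.l1 T2.l1)
  (TrL.c (I.pos (nat_lit 0) (nat_lit 111196574)) (xR (xR T0.l1 T0.l1) (xR T0.l1 (xb (xR T0.l1 T0.l1) T0.l1)))
  (TrL.c (I.pos (nat_lit 0) (nat_lit 77433728)) (xR T2.l11 (xR T2.l2 T2.l2))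
  (TrL.c (I.pos (nat_lit 0) (nat_lit 0)) (xa T2.l5 (xb T2.l5 T2.l5))
  (TrL.c (I.pos (nat_lit 0) (nat_lit 0)) T0.l2
  (TrL.c (I.mix (nat_lit 29511666) (nat_lit 77433728)) (xR T2.l4 (xR T2.l4 (xR T2.l4 T2.l4)))
  (TrL.c (I.mix (nat_lit 29511666) (nat_lit 46070178)) T0.l11
  TrL.n)))))))) (by decide +kernel)
theorem bx1_2 : BoxOK sI cl7 cl4 cl7 t0 t2 b1_2 :=
  box_mk (TrL.c (I.pos (nat_lit 0) (nat_lit 0)) T2.l6
  (TrL.c (I.pos (nat_lit 0) (nat_lit 0)) T0.l5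
  (TrL.c (I.mix (nat_lit 29511666) (nat_lit 77433728)) (xR (xR T2.l7 T2.l7) (xR T2.l7 T2.l7))
  (TrL.c (I.mix (nat_lit 29511666) (nat_lit 46070178)) (xR (xR T0.l11 T0.l9) T0.l1)
  TrL.n)))) (by decide +kernel)
theorem bx1_3 : BoxOK sI cl7 cl4 cl7 t0 t2 b1_3 :=
  box_mk (TrL.c (I.pos (nat_lit 0) (nat_lit 0)) (xb (xa (xb T0.l4 T0.l4) (xb T0.l4 T0.l4)) (xa (xb (xa T0.l4 T0.l4) (xa (xb T0.l4 T0.l4) T0.l4)) (xb (xa T0.l4 T0.l4) (xa T0.l4 T0.l4))))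
  (TrL.c (I.pos (nat_lit 0) (nat_lit 0)) (xb (xa T2.l1 T2.l1) (xa T2.l1 T2.l1))
  (TrL.c (I.pos (nat_lit 0) (nat_lit 111196574)) (xR (xR T0.l1 T0.l1) (xR T0.l1 (xb T0.l1 (xR T0.l1 T0.l1))))
  (TrL.c (I.pos (nat_lit 0) (nat_lit 77433728)) (xR (xR T2.l2 T2.l2) (xR T2.l2 T2.l2))
  (TrL.c (I.pos (nat_lit 0) (nat_lit 0)) (xb (xa (xb T2.l5 T2.l5) (xb (xk T2.l5 T2.l5) (xk T2.l5 (xb T2.l5 T2.l3)))) (xa (xk (xb T2.l5 (xb T2.l3 (xa T2.l3 T2.l3))) (xb (xb T2.l5 (xa T2.l5 T2.l3)) (xb (xa T2.l5 T2.l3) T2.l3))) (xk (xb (xb T2.l3 T2.l3) (xb T2.l3 (xa T2.l3 (xk T2.l3 T2.l3)))) (xb (xb T2.l3 T2.l3) (xb (xa T2.l3 T2.l3) (xa T2.l3 (xk (xb T2.l3 T2.l3) (xb T2.l3 (xs T2.l3 T2.l3)))))))))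
  (TrL.c (I.pos (nat_lit 0) (nat_lit 0)) T0.l2
  (TrL.c (I.mix (nat_lit 29511666) (nat_lit 77433728)) (xR (xR T2.l4 T2.l4) (xR T2.l4 (xR T2.l4 T2.l4)))
  (TrL.c (I.mix (nat_lit 29511666) (nat_lit 46070178)) (xR (xR T0.l3 T0.l3) (xR T0.l3 T0.l3))
  TrL.n)))))))) (by decide +kernel)
theorem bx1_4 : BoxOK sI cl7 cl4 cl7 t0 t2 b1_4 :=
  box_mk (TrL.c (I.pos (nat_lit 0) (nat_lit 0)) (xb (xa T0.l7 T0.l4) T0.l4)
  (TrL.c (I.pos (nat_lit 0) (nat_lit 0)) T2.l1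
  (TrL.c (I.pos (nat_lit 0) (nat_lit 111196574)) (xR T0.l1 T0.l1)
  (TrL.c (I.pos (nat_lit 0) (nat_lit 77433728)) (xR T2.l4 T2.l4)
  (TrL.c (I.pos (nat_lit 0) (nat_lit 0)) T2.l5
  (TrL.c (I.pos (nat_lit 0) (nat_lit 0)) T0.l2
  (TrL.c (I.mix (nat_lit 29511666) (nat_lit 77433728)) T2.l4
  (TrL.c (I.mix (nat_lit 29511666) (nat_lit 46070178)) T0.l3
  TrL.n)))))))) (by decide +kernel)
theorem bx1_5 : BoxOK sI cl7 cl4 cl7 t0 t2 b1_5 :=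
  box_mk (TrL.c (I.pos (nat_lit 0) (nat_lit 0)) (xa T2.l1 T2.l1)
  (TrL.c (I.pos (nat_lit 0) (nat_lit 0)) T0.l5
  (TrL.c (I.mix (nat_lit 29511666) (nat_lit 77433728)) (xR T2.l7 (xR T2.l7 (xa T2.l2 T2.l7)))
  (TrL.c (I.mix (nat_lit 29511666) (nat_lit 46070178)) (xR (xR T0.l6 T0.l6) T0.l1)
  TrL.n)))) (by decide +kernel)
theorem bx1_6 : BoxOK sI cl7 cl4 cl7 t0 t2 b1_6 :=
  box_mk (TrL.c (I.pos (nat_lit 0) (nat_lit 0)) (xa (xb T0.l0 (xa T0.l0 T0.l0)) (xb (xa T0.l0 T0.l0) (xa T0.l0 (xb T0.l0 T0.l0))))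
  (TrL.c (I.pos (nat_lit 0) (nat_lit 0)) (xa T2.l1 (xb T2.l1 (xk T2.l1 T2.l1)))
  (TrL.c (I.pos (nat_lit 0) (nat_lit 111196574)) (xR (xR T0.l11 T0.l1) (xR T0.l1 (xR T0.l1 (xa T0.l1 T0.l1))))
  (TrL.c (I.pos (nat_lit 0) (nat_lit 77433728)) (xR (xR T2.l2 T2.l2) (xR T2.l2 (xR T2.l2 T2.l2)))
  (TrL.c (I.pos (nat_lit 0) (nat_lit 0)) (xa (xb (xk (xa (xb T2.l3 T2.l3) (xb T2.l3 T2.l3)) (xa (xb T2.l3 T2.l3) (xb T2.l3 T2.l3))) (xk T2.l3 T2.l3)) (xb (xk (xa (xb (xk T2.l3 T2.l3) T2.l3) (xb (xk (xa T2.l3 T2.l3) (xa T2.l3 T2.l3)) (xk (xa T2.l3 T2.l3) T2.l3))) (xa (xb (xk T2.l3 T2.l3) T2.l3) (xb (xk (xa T2.l3 T2.l3) (xa T2.l3 T2.l3)) (xk T2.l3 T2.l3)))) (xk (xa (xb T2.l3 T2.l3) (xb (xk (xa T2.l3 T2.l3) T2.l3) (xk (xa T2.l3 T2.l3) (xa T2.l3 T2.l3)))) (xa (xb T2.l3 T2.l3) (xb (xk T2.l3 T2.l3) (xk (xa T2.l3 T2.l3) (xa T2.l3 T2.l3)))))))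
  (TrL.c (I.pos (nat_lit 0) (nat_lit 0)) (xk (xa T0.l2 T0.l2) (xa T0.l2 T0.l2))
  (TrL.c (I.mix (nat_lit 29511666) (nat_lit 77433728)) (xR (xR (xR T2.l4 T2.l4) T2.l4) (xR T2.l4 (xR T2.l4 (xb T2.l4 T2.l4))))
  (TrL.c (I.mix (nat_lit 29511666) (nat_lit 46070178)) (xR (xR T0.l3 T0.l3) (xR T0.l3 T0.l9))
  TrL.n)))))))) (by decide +kernel)
theorem bx1_7 : BoxOK sI cl7 cl4 cl7 t0 t2 b1_7 :=
  box_mk (TrL.c (I.pos (nat_lit 0) (nat_lit 0)) (xb (xa (xb T0.l7 T0.l7) T0.l7) (xa (xb T0.l7 T0.l7) (xb T0.l7 T0.l7)))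
  (TrL.c (I.pos (nat_lit 0) (nat_lit 0)) T2.l6
  (TrL.c (I.pos (nat_lit 0) (nat_lit 111196574)) (xR T0.l1 (xR T0.l1 T0.l1))
  (TrL.c (I.pos (nat_lit 0) (nat_lit 77433728)) (xR T2.l4 T2.l4)
  (TrL.c (I.pos (nat_lit 0) (nat_lit 0)) T2.l8
  (TrL.c (I.pos (nat_lit 0) (nat_lit 0)) T0.l2
  (TrL.c (I.mix (nat_lit 29511666) (nat_lit 77433728)) (xR T2.l4 T2.l4)
  (TrL.c (I.mix (nat_lit 29511666) (nat_lit 46070178)) T0.l11
  TrL.n)))))))) (by decide +kernel)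
theorem bx1_8 : BoxOK sI cl7 cl4 cl7 t0 t2 b1_8 :=
  box_mk (TrL.c (I.pos (nat_lit 0) (nat_lit 0)) (xa (xb T0.l0 (xb T0.l0 T0.l0)) (xb T0.l0 (xb T0.l0 T0.l0)))
  (TrL.c (I.pos (nat_lit 0) (nat_lit 0)) (xk T2.l1 T2.l1)
  (TrL.c (I.pos (nat_lit 0) (nat_lit 111196574)) (xR T0.l1 T0.l1)
  (TrL.c (I.pos (nat_lit 0) (nat_lit 77433728)) (xR (xR T2.l2 T2.l2) T2.l2)
  (TrL.c (I.pos (nat_lit 0) (nat_lit 0)) (xb (xk T2.l3 T2.l3) (xk (xa T2.l3 T2.l3) (xa T2.l3 (xb T2.l3 T2.l3))))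
  (TrL.c (I.pos (nat_lit 0) (nat_lit 0)) T0.l2
  (TrL.c (I.mix (nat_lit 29511666) (nat_lit 77433728)) (xR T2.l4 T2.l4)
  (TrL.c (I.mix (nat_lit 29511666) (nat_lit 46070178)) (xR T0.l3 T0.l3)
  TrL.n)))))))) (by decide +kernel)
theorem bx1_9 : BoxOK sI cl7 cl4 cl7 t0 t2 b1_9 :=
  box_mk (TrL.c (I.pos (nat_lit 0) (nat_lit 0)) (xb T0.l4 T0.l4)
  (TrL.c (I.pos (nat_lit 0) (nat_lit 0)) T2.l1
  (TrL.c (I.pos (nat_lit 0) (nat_lit 111196574)) (xR T0.l1 T0.l1)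
  (TrL.c (I.pos (nat_lit 0) (nat_lit 77433728)) (xR T2.l4 T2.l2)
  (TrL.c (I.pos (nat_lit 0) (nat_lit 0)) T2.l5
  (TrL.c (I.pos (nat_lit 0) (nat_lit 0)) T0.l2
  (TrL.c (I.mix (nat_lit 29511666) (nat_lit 77433728)) T2.l4
  (TrL.c (I.mix (nat_lit 29511666) (nat_lit 46070178)) T0.l3
  TrL.n)))))))) (by decide +kernel)
theorem sv1 : StarV sI cl7 cl4 cl7 t0 t2 t1 :=
  (bt_n (bt_n (bt_n (bt_b bx1_0) (bt_b bx1_1)) (bt_n (bt_b bx1_2) (bt_n (bt_b bx1_3) (bt_b bx1_4)))) (bt_n (bt_n (bt_b bx1_5) (bt_b bx1_6)) (bt_n (bt_b bx1_7) (bt_n (bt_b bx1_8) (bt_b bx1_9)))))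
def S1 : StarD := StarD.mk cl7 cl4 cl7 0 2 t1
theorem bx2_0 : BoxOK sI cl7 cl7 cl4 t2 t0 b2_0 :=
  box_mk (TrL.c (I.pos (nat_lit 0) (nat_lit 0)) (xa (xb (xa (xb T2.l0 T2.l13) (xb T2.l0 T2.l0)) (xa (xb (xa T2.l0 T2.l0) (xa (xc T2.l0 T2.l0) T2.l0)) (xb T2.l0 (xa T2.l0 T2.l0)))) (xb (xa (xb T2.l0 T2.l0) (xb T2.l0 T2.l0)) (xa (xb T2.l0 (xa T2.l0 T2.l0)) (xb T2.l0 (xa T2.l0 T2.l0)))))
  (TrL.c (I.pos (nat_lit 0) (nat_lit 0)) (xa (xk T0.l8 T0.l8) (xk T0.l8 T0.l8))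
  (TrL.c (I.pos (nat_lit 0) (nat_lit 111196574)) (xR (xR T2.l9 T2.l9) (xR T2.l9 (xR T2.l9 T2.l9)))
  (TrL.c (I.pos (nat_lit 0) (nat_lit 77433728)) (xR (xR T0.l9 T0.l9) (xR T0.l9 (xR T0.l9 T0.l9)))
  (TrL.c (I.pos (nat_lit 0) (nat_lit 0)) (xa (xk T0.l13 T0.l13) (xk (xb T0.l10 (xb T0.l10 T0.l10)) (xb T0.l10 (xb T0.l10 (xa T0.l10 (xk T0.l10 T0.l10))))))
  (TrL.c (I.pos (nat_lit 0) (nat_lit 0)) T2.l10
  (TrL.c (I.mix (nat_lit 29511666) (nat_lit 77433728)) (xR T0.l11 (xR T0.l11 (xR T0.l11 T0.l11)))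
  (TrL.c (I.mix (nat_lit 29511666) (nat_lit 46070178)) (xR T2.l11 T2.l2)
  TrL.n)))))))) (by decide +kernel)
theorem bx2_1 : BoxOK sI cl7 cl7 cl4 t2 t0 b2_1 :=
  box_mk (TrL.c (I.pos (nat_lit 0) (nat_lit 0)) (xa (xb (xa T2.l12 T2.l12) (xa T2.l12 T2.l12)) (xb (xa T2.l0 T2.l0) (xa T2.l12 T2.l12)))
  (TrL.c (I.pos (nat_lit 0) (nat_lit 0)) (xa T0.l8 T0.l8)
  (TrL.c (I.pos (nat_lit 0) (nat_lit 111196574)) (xR (xR T2.l9 T2.l9) (xR T2.l9 T2.l9))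
  (TrL.c (I.pos (nat_lit 0) (nat_lit 77433728)) (xR T0.l9 T0.l9)
  (TrL.c (I.pos (nat_lit 0) (nat_lit 0)) (xa (xb (xk T0.l12 T0.l12) T0.l12) (xb (xk T0.l12 T0.l12) (xk T0.l12 T0.l12)))
  (TrL.c (I.pos (nat_lit 0) (nat_lit 0)) T2.l10
  (TrL.c (I.mix (nat_lit 29511666) (nat_lit 77433728)) (xR T0.l11 (xR T0.l11 (xR T0.l11 T0.l11)))
  (TrL.c (I.mix (nat_lit 29511666) (nat_lit 46070178)) (xR T2.l11 T2.l11)
  TrL.n)))))))) (by decide +kernel)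
theorem bx2_2 : BoxOK sI cl7 cl7 cl4 t2 t0 b2_2 :=
  box_mk (TrL.c (I.pos (nat_lit 0) (nat_lit 0)) (xa T2.l12 T2.l12)
  (TrL.c (I.pos (nat_lit 0) (nat_lit 0)) (xa T0.l8 T0.l8)
  (TrL.c (I.pos (nat_lit 0) (nat_lit 111196574)) (xR T2.l9 T2.l9)
  (TrL.c (I.pos (nat_lit 0) (nat_lit 77433728)) (xR T0.l9 (xR T0.l9 T0.l9))
  (TrL.c (I.pos (nat_lit 0) (nat_lit 0)) (xa T0.l12 T0.l12)
  (TrL.c (I.pos (nat_lit 0) (nat_lit 0)) T2.l10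
  (TrL.c (I.mix (nat_lit 29511666) (nat_lit 77433728)) (xR T0.l11 (xR T0.l11 (xa T0.l9 T0.l11)))
  (TrL.c (I.mix (nat_lit 29511666) (nat_lit 46070178)) T2.l11
  TrL.n)))))))) (by decide +kernel)
theorem bx2_3 : BoxOK sI cl7 cl7 cl4 t2 t0 b2_3 :=
  box_mk (TrL.c (I.pos (nat_lit 0) (nat_lit 0)) (xb (xa (xb T2.l13 (xa T2.l13 T2.l13)) (xb T2.l13 (xa T2.l13 T2.l13))) (xa (xb (xa T2.l13 T2.l13) (xa (xb T2.l13 T2.l13) T2.l13)) (xb (xa T2.l13 T2.l13) (xa T2.l13 T2.l13))))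
  (TrL.c (I.pos (nat_lit 0) (nat_lit 0)) (xb (xk T0.l8 T0.l8) (xk T0.l8 T0.l8))
  (TrL.c (I.pos (nat_lit 0) (nat_lit 111196574)) (xR (xR T2.l9 T2.l9) (xR T2.l9 (xR T2.l9 T2.l4)))
  (TrL.c (I.pos (nat_lit 0) (nat_lit 77433728)) (xR T0.l9 (xR T0.l9 T0.l9))
  (TrL.c (I.pos (nat_lit 0) (nat_lit 0)) (xb (xk T0.l13 T0.l13) (xk T0.l13 (xb T0.l13 T0.l13)))
  (TrL.c (I.pos (nat_lit 0) (nat_lit 0)) T2.l10
  (TrL.c (I.mix (nat_lit 29511666) (nat_lit 77433728)) (xR T0.l11 (xR T0.l11 (xR T0.l11 T0.l11)))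
  (TrL.c (I.mix (nat_lit 29511666) (nat_lit 46070178)) (xR T2.l11 T2.l2)
  TrL.n)))))))) (by decide +kernel)
theorem bx2_4 : BoxOK sI cl7 cl7 cl4 t2 t0 b2_4 :=
  box_mk (TrL.c (I.pos (nat_lit 0) (nat_lit 0)) (xa (xa (xb (xa T2.l12 T2.l12) (xa (xb T2.l12 (xa T2.l12 T2.l12)) (xb T2.l12 T2.l12))) (xb T2.l12 (xa T2.l12 T2.l12))) (xa (xb T2.l12 (xa T2.l12 T2.l12)) (xb T2.l12 (xa T2.l12 (xb T2.l12 T2.l12)))))
  (TrL.c (I.pos (nat_lit 0) (nat_lit 0)) (xa (xa T0.l12 T0.l8) (xa T0.l8 T0.l8))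
  (TrL.c (I.pos (nat_lit 0) (nat_lit 111196574)) (xR T2.l9 (xR T2.l9 (xa T2.l9 T2.l9)))
  (TrL.c (I.pos (nat_lit 0) (nat_lit 77433728)) (xR T0.l9 (xR T0.l9 T0.l9))
  (TrL.c (I.pos (nat_lit 0) (nat_lit 0)) (xa (xa T0.l12 T0.l12) T0.l12)
  (TrL.c (I.pos (nat_lit 0) (nat_lit 0)) T2.l10
  (TrL.c (I.mix (nat_lit 29511666) (nat_lit 77433728)) (xR T0.l11 (xR T0.l11 (xa T0.l11 T0.l11)))
  (TrL.c (I.mix (nat_lit 29511666) (nat_lit 46070178)) T2.l11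
  TrL.n)))))))) (by decide +kernel)
theorem bx2_5 : BoxOK sI cl7 cl7 cl4 t2 t0 b2_5 :=
  box_mk (TrL.c (I.pos (nat_lit 0) (nat_lit 0)) (xb (xa (xb (xa (xb T2.l13 T2.l13) (xb (xa (xs T2.l0 T2.l0) T2.l0) (xa T2.l13 T2.l0))) (xa T2.l13 T2.l13)) (xb (xa (xb (xa T2.l0 T2.l0) T2.l13) (xb (xa T2.l0 T2.l0) T2.l0)) (xa T2.l13 T2.l13))) (xa (xb T2.l13 (xa T2.l13 T2.l13)) (xb T2.l13 (xa T2.l13 T2.l13))))
  (TrL.c (I.pos (nat_lit 0) (nat_lit 0)) (xb T0.l8 (xk T0.l8 T0.l8))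
  (TrL.c (I.pos (nat_lit 0) (nat_lit 111196574)) (xR (xR T2.l9 T2.l9) (xR T2.l9 (xR T2.l9 T2.l4)))
  (TrL.c (I.pos (nat_lit 0) (nat_lit 77433728)) (xR T0.l9 (xR T0.l9 T0.l9))
  (TrL.c (I.pos (nat_lit 0) (nat_lit 0)) (xb (xk (xa T0.l13 T0.l13) (xa T0.l13 T0.l13)) (xk T0.l13 T0.l13))
  (TrL.c (I.pos (nat_lit 0) (nat_lit 0)) T2.l10
  (TrL.c (I.mix (nat_lit 29511666) (nat_lit 77433728)) (xR T0.l11 (xR T0.l11 (xR T0.l11 T0.l1)))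
  (TrL.c (I.mix (nat_lit 29511666) (nat_lit 46070178)) (xR (xR T2.l11 T2.l11) T2.l2)
  TrL.n)))))))) (by decide +kernel)
theorem bx2_6 : BoxOK sI cl7 cl7 cl4 t2 t0 b2_6 :=
  box_mk (TrL.c (I.pos (nat_lit 0) (nat_lit 0)) (xa T2.l12 T2.l0)
  (TrL.c (I.pos (nat_lit 0) (nat_lit 0)) T0.l8
  (TrL.c (I.pos (nat_lit 0) (nat_lit 111196574)) (xR (xR T2.l9 T2.l9) T2.l9)
  (TrL.c (I.pos (nat_lit 0) (nat_lit 77433728)) (xR T0.l9 T0.l9)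
  (TrL.c (I.pos (nat_lit 0) (nat_lit 0)) (xk T0.l12 T0.l12)
  (TrL.c (I.pos (nat_lit 0) (nat_lit 0)) T2.l10
  (TrL.c (I.mix (nat_lit 29511666) (nat_lit 77433728)) (xR T0.l11 T0.l11)
  (TrL.c (I.mix (nat_lit 29511666) (nat_lit 46070178)) T2.l11
  TrL.n)))))))) (by decide +kernel)
theorem bx2_7 : BoxOK sI cl7 cl7 cl4 t2 t0 b2_7 :=
  box_mk (TrL.c (I.pos (nat_lit 0) (nat_lit 0)) (xa T2.l12 T2.l12)
  (TrL.c (I.pos (nat_lit 0) (nat_lit 0)) (xa T0.l12 T0.l8)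
  (TrL.c (I.pos (nat_lit 0) (nat_lit 111196574)) (xR T2.l9 T2.l9)
  (TrL.c (I.pos (nat_lit 0) (nat_lit 77433728)) (xR T0.l9 (xR T0.l9 T0.l9))
  (TrL.c (I.pos (nat_lit 0) (nat_lit 0)) (xa T0.l12 T0.l12)
  (TrL.c (I.pos (nat_lit 0) (nat_lit 0)) T2.l10
  (TrL.c (I.mix (nat_lit 29511666) (nat_lit 77433728)) (xR T0.l11 (xR T0.l11 (xa T0.l9 T0.l11)))
  (TrL.c (I.mix (nat_lit 29511666) (nat_lit 46070178)) T2.l11
  TrL.n)))))))) (by decide +kernel)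
theorem bx2_8 : BoxOK sI cl7 cl7 cl4 t2 t0 b2_8 :=
  box_mk (TrL.c (I.pos (nat_lit 0) (nat_lit 0)) T2.l0
  (TrL.c (I.pos (nat_lit 0) (nat_lit 0)) T0.l8
  (TrL.c (I.pos (nat_lit 0) (nat_lit 111196574)) (xR (xR T2.l9 T2.l9) T2.l9)
  (TrL.c (I.pos (nat_lit 0) (nat_lit 77433728)) (xR T0.l9 T0.l9)
  (TrL.c (I.pos (nat_lit 0) (nat_lit 0)) (xk T0.l13 T0.l13)
  (TrL.c (I.pos (nat_lit 0) (nat_lit 0)) T2.l10
  (TrL.c (I.mix (nat_lit 29511666) (nat_lit 77433728)) (xR T0.l11 T0.l11)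
  (TrL.c (I.mix (nat_lit 29511666) (nat_lit 46070178)) T2.l11
  TrL.n)))))))) (by decide +kernel)
theorem bx2_9 : BoxOK sI cl7 cl7 cl4 t2 t0 b2_9 :=
  box_mk (TrL.c (I.pos (nat_lit 0) (nat_lit 0)) (xa (xa (xb T2.l12 T2.l12) T2.l12) (xa (xb T2.l12 (xa T2.l12 T2.l12)) (xa T2.l12 T2.l12)))
  (TrL.c (I.pos (nat_lit 0) (nat_lit 0)) (xa (xa T0.l12 T0.l8) (xa T0.l8 T0.l8))
  (TrL.c (I.pos (nat_lit 0) (nat_lit 111196574)) (xR T2.l9 T2.l9)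
  (TrL.c (I.pos (nat_lit 0) (nat_lit 77433728)) (xR T0.l9 (xR T0.l9 T0.l9))
  (TrL.c (I.pos (nat_lit 0) (nat_lit 0)) (xa T0.l12 T0.l12)
  (TrL.c (I.pos (nat_lit 0) (nat_lit 0)) T2.l10
  (TrL.c (I.mix (nat_lit 29511666) (nat_lit 77433728)) (xR T0.l11 (xR T0.l11 (xa T0.l11 T0.l11)))
  (TrL.c (I.mix (nat_lit 29511666) (nat_lit 46070178)) T2.l11
  TrL.n)))))))) (by decide +kernel)
theorem bx2_10 : BoxOK sI cl7 cl7 cl4 t2 t0 b2_10 :=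
  box_mk (TrL.c (I.pos (nat_lit 0) (nat_lit 0)) (xb (xa T2.l12 T2.l12) (xa T2.l12 T2.l12))
  (TrL.c (I.pos (nat_lit 0) (nat_lit 0)) (xb T0.l8 T0.l8)
  (TrL.c (I.pos (nat_lit 0) (nat_lit 111196574)) (xR (xR T2.l9 T2.l9) T2.l9)
  (TrL.c (I.pos (nat_lit 0) (nat_lit 77433728)) (xR T0.l9 T0.l9)
  (TrL.c (I.pos (nat_lit 0) (nat_lit 0)) (xb (xa (xk T0.l12 T0.l12) (xk T0.l12 T0.l12)) (xa T0.l12 T0.l12))
  (TrL.c (I.pos (nat_lit 0) (nat_lit 0)) T2.l10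
  (TrL.c (I.mix (nat_lit 29511666) (nat_lit 77433728)) (xR T0.l11 (xR T0.l11 T0.l11))
  (TrL.c (I.mix (nat_lit 29511666) (nat_lit 46070178)) T2.l11
  TrL.n)))))))) (by decide +kernel)
theorem bx2_11 : BoxOK sI cl7 cl7 cl4 t2 t0 b2_11 :=
  box_mk (TrL.c (I.pos (nat_lit 0) (nat_lit 0)) (xa (xa (xb (xa T2.l12 T2.l12) T2.l12) T2.l12) T2.l12)
  (TrL.c (I.pos (nat_lit 0) (nat_lit 0)) (xa T0.l12 T0.l8)
  (TrL.c (I.pos (nat_lit 0) (nat_lit 111196574)) (xR T2.l9 (xR T2.l9 (xa T2.l9 T2.l9)))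
  (TrL.c (I.pos (nat_lit 0) (nat_lit 77433728)) (xR T0.l11 (xR T0.l11 T0.l9))
  (TrL.c (I.pos (nat_lit 0) (nat_lit 0)) (xa T0.l12 T0.l12)
  (TrL.c (I.pos (nat_lit 0) (nat_lit 0)) T2.l10
  (TrL.c (I.mix (nat_lit 29511666) (nat_lit 77433728)) (xR T0.l11 (xR T0.l11 (xa T0.l9 T0.l11)))
  (TrL.c (I.mix (nat_lit 29511666) (nat_lit 46070178)) (xR T2.l11 T2.l4)
  TrL.n)))))))) (by decide +kernel)
theorem bx2_12 : BoxOK sI cl7 cl7 cl4 t2 t0 b2_12 :=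
  box_mk (TrL.c (I.pos (nat_lit 0) (nat_lit 0)) (xa (xb (xa (xb T2.l0 T2.l0) (xb T2.l0 T2.l0)) (xa (xb T2.l0 (xa T2.l0 T2.l0)) (xb T2.l0 (xa T2.l0 T2.l0)))) (xb (xa (xb T2.l0 T2.l0) (xa (xb T2.l0 T2.l0) (xb (xc T2.l0 T2.l0) (xc T2.l0 T2.l0)))) (xa (xa (xb T2.l0 T2.l0) (xb T2.l0 T2.l0)) (xa (xb T2.l0 T2.l0) (xb (xc T2.l0 (xk T2.l0 T2.l0)) (xc T2.l0 (xk T2.l0 T2.l0)))))))
  (TrL.c (I.pos (nat_lit 0) (nat_lit 0)) (xa (xb T0.l8 (xk T0.l8 T0.l8)) (xb (xk T0.l8 T0.l8) (xk (xa T0.l8 T0.l8) T0.l8)))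
  (TrL.c (I.pos (nat_lit 0) (nat_lit 111196574)) (xR (xR (xR T2.l9 T2.l9) (xR T2.l9 T2.l9)) (xR T2.l4 T2.l4))
  (TrL.c (I.pos (nat_lit 0) (nat_lit 77433728)) (xR (xR T0.l9 T0.l9) (xR T0.l9 (xa T0.l9 (xR T0.l9 T0.l9))))
  (TrL.c (I.pos (nat_lit 0) (nat_lit 0)) (xa (xb (xk (xa T0.l10 T0.l10) (xa T0.l10 T0.l10)) (xk (xa T0.l10 T0.l10) T0.l10)) (xb (xk (xa (xb T0.l10 T0.l10) (xb (xk T0.l10 T0.l10) (xk T0.l10 T0.l10))) (xa (xb T0.l10 T0.l10) (xb (xk T0.l10 T0.l10) (xk T0.l10 T0.l10)))) (xk (xa T0.l10 (xb (xk T0.l10 T0.l10) (xk T0.l10 T0.l10))) (xa T0.l10 (xb (xk T0.l10 T0.l10) (xk T0.l10 T0.l10))))))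
  (TrL.c (I.pos (nat_lit 0) (nat_lit 0)) (xk (xa T2.l10 (xb T2.l10 T2.l1)) (xa T2.l10 (xb T2.l10 T2.l10)))
  (TrL.c (I.mix (nat_lit 29511666) (nat_lit 77433728)) (xR (xR (xR T0.l11 T0.l11) T0.l11) (xR T0.l11 (xR T0.l11 (xk (xa T0.l11 T0.l11) T0.l11))))
  (TrL.c (I.mix (nat_lit 29511666) (nat_lit 46070178)) (xR (xR T2.l11 T2.l11) (xR T2.l11 T2.l11))
  TrL.n)))))))) (by decide +kernel)
theorem bx2_13 : BoxOK sI cl7 cl7 cl4 t2 t0 b2_13 :=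
  box_mk (TrL.c (I.pos (nat_lit 0) (nat_lit 0)) (xa (xb (xa (xb T2.l0 T2.l0) (xb T2.l0 T2.l0)) (xa (xb T2.l0 T2.l13) (xb T2.l0 T2.l13))) (xb (xa (xb T2.l0 T2.l0) (xb T2.l0 T2.l0)) (xa (xb T2.l0 T2.l0) (xb T2.l0 T2.l0))))
  (TrL.c (I.pos (nat_lit 0) (nat_lit 0)) (xk (xa T0.l8 T0.l8) T0.l8)
  (TrL.c (I.pos (nat_lit 0) (nat_lit 111196574)) (xR (xR T2.l9 T2.l9) (xR T2.l9 (xR T2.l9 T2.l9)))
  (TrL.c (I.pos (nat_lit 0) (nat_lit 77433728)) (xR (xR T0.l9 T0.l9) (xR T0.l9 T0.l9))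
  (TrL.c (I.pos (nat_lit 0) (nat_lit 0)) (xk (xa T0.l10 (xb T0.l10 T0.l10)) (xb T0.l10 (xa T0.l13 (xb T0.l10 T0.l10))))
  (TrL.c (I.pos (nat_lit 0) (nat_lit 0)) T2.l10
  (TrL.c (I.mix (nat_lit 29511666) (nat_lit 77433728)) (xR T0.l11 (xR T0.l11 (xR T0.l11 T0.l11)))
  (TrL.c (I.mix (nat_lit 29511666) (nat_lit 46070178)) (xR T2.l11 T2.l2)
  TrL.n)))))))) (by decide +kernel)
theorem sv2 : StarV sI cl7 cl7 cl4 t2 t0 t2 :=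
  (bt_n (bt_n (bt_n (bt_b bx2_0) (bt_n (bt_b bx2_1) (bt_b bx2_2))) (bt_n (bt_n (bt_b bx2_3) (bt_b bx2_4)) (bt_n (bt_b bx2_5) (bt_b bx2_6)))) (bt_n (bt_n (bt_b bx2_7) (bt_n (bt_b bx2_8) (bt_b bx2_9))) (bt_n (bt_n (bt_b bx2_10) (bt_b bx2_11)) (bt_n (bt_b bx2_12) (bt_b bx2_13)))))
def S2 : StarD := StarD.mk cl7 cl7 cl4 2 0 t2
def G : List StarD := [S0, S1, S2]
theorem so0 : StarOK sI G S0 :=
  star_mk (by decide) (by decide) rfl rfl rfl rfl rfl rfl (rfl : _ = t1) (rfl : _ = t1)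
  (st_mk (Pth.l (Pth.l (Pth.l Pth.z))) (nat_lit 146307740) (nat_lit 170048980) (by decide +kernel))
  (st_mk (Pth.l (Pth.l (Pth.l Pth.z))) (nat_lit 184898132) (nat_lit 209390347) (by decide +kernel))
  (st_mk (Pth.l (Pth.l (Pth.l Pth.z))) (nat_lit 230638598) (nat_lit 256155327) (by decide +kernel)) sv0
theorem so1 : StarOK sI G S1 :=
  star_mk (by decide) (by decide) rfl rfl rfl rfl rfl rfl (rfl : _ = t0) (rfl : _ = t2)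
  (st_mk (Pth.l (Pth.l (Pth.l Pth.z))) (nat_lit 371005441) (nat_lit 375728242) (by decide +kernel))
  (st_mk (Pth.l (Pth.l (Pth.l Pth.z))) (nat_lit 407282121) (nat_lit 412660599) (by decide +kernel))
  (st_mk (Pth.l (Pth.l (Pth.l Pth.z))) (nat_lit 449306689) (nat_lit 455528500) (by decide +kernel)) sv1
theorem so2 : StarOK sI G S2 :=
  star_mk (by decide) (by decide) rfl rfl rfl rfl rfl rfl (rfl : _ = t2) (rfl : _ = t0)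
  (st_mk (Pth.l (Pth.l (Pth.l Pth.z))) (nat_lit 141769328) (nat_lit 164648415) (by decide +kernel))
  (st_mk (Pth.l (Pth.l (Pth.l Pth.z))) (nat_lit 177657233) (nat_lit 201076012) (by decide +kernel))
  (st_mk (Pth.l (Pth.l (Pth.l Pth.z))) (nat_lit 219349240) (nat_lit 243515347) (by decide +kernel)) sv2
theorem ok : GroupOK (nat_lit 209321984) (nat_lit 238944256) G := grp_mk (allS_c so0 (allS_c so1 (allS_c so2 allS_n)))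
theorem cov : GCov G cl4 cl7 cl7 := cov_mk
  ⟨0, by decide, rfl, rfl, rfl⟩ ⟨0, by decide, rfl, rfl, rfl⟩ ⟨1, by decide, rfl, rfl, rfl⟩ ⟨2, by decide, rfl, rfl, rfl⟩ ⟨1, by decide, rfl, rfl, rfl⟩ ⟨2, by decide, rfl, rfl, rfl⟩
end Q144_3


end Pool.Agent.Helper6.MONO
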