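import Pool.Agent.Helper6.MONO.Cert.C31

/-!
Certificate data (generated).
-/

set_option autoImplicit false
set_option linter.all false
noncomputable section
namespace Pool.Agent.Helper6.MONO


namespace Q144_4
def sI : I := I.pos (nat_lit 238878720) (nat_lit 268435456)
def b0_0 : Bx := Bx.mk (St.mk (I.pos (nat_lit 158482432) (nat_lit 230834176)) (I.mix (nat_lit 1966080) (nat_lit 58212352)) (I.mix (nat_lit 4079616) (nat_lit 66174976)) (I.pos (nat_lit 144572416) (nat_lit 287408128)) (I.mix (nat_lit 109494272) (nat_lit 69664768)) (I.mix (nat_lit 61145088) (nat_lit 59064320)) (I.mix (nat_lit 103448576) (nat_lit 93470720)))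
  false (nat_lit 0)
def b0_1 : Bx := Bx.mk (St.mk (I.mix (nat_lit 16023552) (nat_lit 116260864)) (I.mix (nat_lit 7766016) (nat_lit 32833536)) (I.mix (nat_lit 26132480) (nat_lit 8273920)) (I.pos (nat_lit 40534016) (nat_lit 113770496)) (I.mix (nat_lit 43925504) (nat_lit 52822016)) (I.mix (nat_lit 38846464) (nat_lit 29294592)) (I.mix (nat_lit 28196864) (nat_lit 20676608)))
  false (nat_lit 0)
def b0_2 : Bx := Bx.mk (St.mk (I.pos (nat_lit 87359488) (nat_lit 130072576)) (I.mix (nat_lit 45842432) (nat_lit 10240000)) (I.neg (nat_lit 7258112) (nat_lit 59342848)) (I.pos (nat_lit 76365824) (nat_lit 126943232)) (I.mix (nat_lit 88981504) (nat_lit 44548096)) (I.mix (nat_lit 39223296) (nat_lit 73056256)) (I.mix (nat_lit 28295168) (nat_lit 55492608)))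
  false (nat_lit 0)
def b0_3 : Bx := Bx.mk (St.mk (I.mix (nat_lit 34553856) (nat_lit 67387392)) (I.mix (nat_lit 31031296) (nat_lit 3194880)) (I.neg (nat_lit 2572288) (nat_lit 26755072)) (I.pos (nat_lit 41402368) (nat_lit 80953344)) (I.mix (nat_lit 49692672) (nat_lit 22118400)) (I.mix (nat_lit 17940480) (nat_lit 36929536)) (I.mix (nat_lit 8765440) (nat_lit 15613952)))
  false (nat_lit 0)
def b0_4 : Bx := Bx.mk (St.mk (I.pos (nat_lit 186744832) (nat_lit 244908032)) (I.mix (nat_lit 13844480) (nat_lit 57147392)) (I.mix (nat_lit 73580544) (nat_lit 59817984)) (I.pos (nat_lit 211746816) (nat_lit 307462144)) (I.mix (nat_lit 106233856) (nat_lit 84328448)) (I.mix (nat_lit 80265216) (nat_lit 70811648)) (I.mix (nat_lit 143212544) (nat_lit 110936064)))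
  false (nat_lit 0)
def b0_5 : Bx := Bx.mk (St.mk (I.pos (nat_lit 76529664) (nat_lit 113737728)) (I.mix (nat_lit 11403264) (nat_lit 16367616)) (I.neg (nat_lit 3653632) (nat_lit 29655040)) (I.pos (nat_lit 69894144) (nat_lit 113082368)) (I.mix (nat_lit 47464448) (nat_lit 32718848)) (I.mix (nat_lit 30507008) (nat_lit 28213248)) (I.mix (nat_lit 19955712) (nat_lit 22265856)))
  false (nat_lit 0)
def b0_6 : Bx := Bx.mk (St.mk (I.mix (nat_lit 43728896) (nat_lit 9781248)) (I.mix (nat_lit 6897664) (nat_lit 10862592)) (I.neg (nat_lit 5537792) (nat_lit 16007168)) (I.pos (nat_lit 43089920) (nat_lit 70680576)) (I.mix (nat_lit 23347200) (nat_lit 19120128)) (I.mix (nat_lit 16269312) (nat_lit 15482880)) (I.mix (nat_lit 4931584) (nat_lit 5783552)))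
  false (nat_lit 0)
def b0_7 : Bx := Bx.mk (St.mk (I.pos (nat_lit 212566016) (nat_lit 254296064)) (I.mix (nat_lit 14254080) (nat_lit 17121280)) (I.neg (nat_lit 15155200) (nat_lit 81952768)) (I.pos (nat_lit 233668608) (nat_lit 324026368)) (I.mix (nat_lit 97075200) (nat_lit 22036480)) (I.mix (nat_lit 49135616) (nat_lit 49594368)) (I.mix (nat_lit 70762496) (nat_lit 98877440)))
  false (nat_lit 0)
def b0_8 : Bx := Bx.mk (St.mk (I.pos (nat_lit 88702976) (nat_lit 170934272)) (I.neg (nat_lit 4325376) (nat_lit 46678016)) (I.neg (nat_lit 13565952) (nat_lit 58851328)) (I.pos (nat_lit 84557824) (nat_lit 172474368)) (I.mix (nat_lit 70402048) (nat_lit 36159488)) (I.mix (nat_lit 31113216) (nat_lit 52035584)) (I.mix (nat_lit 23134208) (nat_lit 50397184)))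
  false (nat_lit 0)
def b0_9 : Bx := Bx.mk (St.mk (I.mix (nat_lit 30867456) (nat_lit 86556672)) (I.mix (nat_lit 30851072) (nat_lit 7143424)) (I.neg (nat_lit 2670592) (nat_lit 27410432)) (I.pos (nat_lit 40468480) (nat_lit 91521024)) (I.mix (nat_lit 50348032) (nat_lit 29212672)) (I.mix (nat_lit 20185088) (nat_lit 32161792)) (I.mix (nat_lit 11108352) (nat_lit 18022400)))
  false (nat_lit 0)
def b0_10 : Bx := Bx.mk (St.mk (I.pos (nat_lit 162824192) (nat_lit 210944000)) (I.mix (nat_lit 10715136) (nat_lit 53166080)) (I.mix (nat_lit 17088512) (nat_lit 60948480)) (I.pos (nat_lit 158056448) (nat_lit 248152064)) (I.mix (nat_lit 125403136) (nat_lit 52625408)) (I.mix (nat_lit 99565568) (nat_lit 69107712)) (I.mix (nat_lit 99860480) (nat_lit 72859648)))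
  false (nat_lit 0)
def b0_11 : Bx := Bx.mk (St.mk (I.mix (nat_lit 38944768) (nat_lit 113344512)) (I.mix (nat_lit 13615104) (nat_lit 33832960)) (I.mix (nat_lit 19939328) (nat_lit 10207232)) (I.pos (nat_lit 39583744) (nat_lit 111345664)) (I.mix (nat_lit 45940736) (nat_lit 35930112)) (I.mix (nat_lit 39813120) (nat_lit 29622272)) (I.mix (nat_lit 20398080) (nat_lit 15532032)))
  false (nat_lit 0)
def b0_12 : Bx := Bx.mk (St.mk (I.pos (nat_lit 135675904) (nat_lit 205881344)) (I.mix (nat_lit 34553856) (nat_lit 13647872)) (I.mix (nat_lit 51855360) (nat_lit 5767168)) (I.pos (nat_lit 122093568) (nat_lit 226279424)) (I.mix (nat_lit 53477376) (nat_lit 59834368)) (I.mix (nat_lit 58048512) (nat_lit 52379648)) (I.mix (nat_lit 61030400) (nat_lit 48431104)))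
  false (nat_lit 0)
def b0_13 : Bx := Bx.mk (St.mk (I.pos (nat_lit 163971072) (nat_lit 204472320)) (I.mix (nat_lit 17858560) (nat_lit 24592384)) (I.mix (nat_lit 29704192) (nat_lit 25231360)) (I.pos (nat_lit 159891456) (nat_lit 224100352)) (I.mix (nat_lit 80822272) (nat_lit 65503232)) (I.mix (nat_lit 83083264) (nat_lit 58425344)) (I.mix (nat_lit 87310336) (nat_lit 57114624)))
  false (nat_lit 0)
def t0 : BTr := (BTr.n (BTr.n (BTr.n (BTr.b b0_0) (BTr.n (BTr.b b0_1) (BTr.b b0_2))) (BTr.n (BTr.n (BTr.b b0_3) (BTr.b b0_4)) (BTr.n (BTr.b b0_5) (BTr.b b0_6)))) (BTr.n (BTr.n (BTr.b b0_7) (BTr.n (BTr.b b0_8) (BTr.b b0_9))) (BTr.n (BTr.n (BTr.b b0_10) (BTr.b b0_11)) (BTr.n (BTr.b b0_12) (BTr.b b0_13)))))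
namespace T0
def l0 : Tr := Tr.L (Pth.l (Pth.l (Pth.l Pth.z)))
def l1 : Tr := Tr.L (Pth.l (Pth.l (Pth.r (Pth.l Pth.z))))
def l2 : Tr := Tr.L (Pth.l (Pth.l (Pth.r (Pth.r Pth.z))))
def l3 : Tr := Tr.L (Pth.l (Pth.r (Pth.l (Pth.l Pth.z))))
def l4 : Tr := Tr.L (Pth.l (Pth.r (Pth.l (Pth.r Pth.z))))
def l5 : Tr := Tr.L (Pth.l (Pth.r (Pth.r (Pth.l Pth.z))))
def l6 : Tr := Tr.L (Pth.l (Pth.r (Pth.r (Pth.r Pth.z))))
def l7 : Tr := Tr.L (Pth.r (Pth.l (Pth.l Pth.z)))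
def l8 : Tr := Tr.L (Pth.r (Pth.l (Pth.r (Pth.l Pth.z))))
def l9 : Tr := Tr.L (Pth.r (Pth.l (Pth.r (Pth.r Pth.z))))
def l10 : Tr := Tr.L (Pth.r (Pth.r (Pth.l (Pth.l Pth.z))))
def l11 : Tr := Tr.L (Pth.r (Pth.r (Pth.l (Pth.r Pth.z))))
def l12 : Tr := Tr.L (Pth.r (Pth.r (Pth.r (Pth.l Pth.z))))
def l13 : Tr := Tr.L (Pth.r (Pth.r (Pth.r (Pth.r Pth.z))))
end T0
def b1_0 : Bx := Bx.mk (St.mk (I.pos (nat_lit 132349952) (nat_lit 217694208)) (I.mix (nat_lit 2850816) (nat_lit 88702976)) (I.mix (nat_lit 3211264) (nat_lit 100909056)) (I.pos (nat_lit 368836608) (nat_lit 460685312)) (I.mix (nat_lit 167739392) (nat_lit 82804736)) (I.mix (nat_lit 88195072) (nat_lit 76644352)) (I.mix (nat_lit 101203968) (nat_lit 109821952)))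
  false (nat_lit 71305763)
def b1_1 : Bx := Bx.mk (St.mk (I.pos (nat_lit 14942208) (nat_lit 130891776)) (I.neg (nat_lit 9486336) (nat_lit 89309184)) (I.mix (nat_lit 77676544) (nat_lit 3751936)) (I.pos (nat_lit 266305536) (nat_lit 340803584)) (I.mix (nat_lit 119046144) (nat_lit 71630848)) (I.mix (nat_lit 70352896) (nat_lit 71352320)) (I.mix (nat_lit 77824000) (nat_lit 62062592)))
  false (nat_lit 47730501)
def b1_2 : Bx := Bx.mk (St.mk (I.mix (nat_lit 54394880) (nat_lit 17694720)) (I.mix (nat_lit 17154048) (nat_lit 86327296)) (I.neg (nat_lit 36651008) (nat_lit 67796992)) (I.pos (nat_lit 260603904) (nat_lit 296550400)) (I.mix (nat_lit 52494336) (nat_lit 122208256)) (I.mix (nat_lit 83017728) (nat_lit 66207744)) (I.mix (nat_lit 50741248) (nat_lit 35635200)))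
  true (nat_lit 0)
def b1_3 : Bx := Bx.mk (St.mk (I.pos (nat_lit 85950464) (nat_lit 178995200)) (I.mix (nat_lit 35880960) (nat_lit 80969728)) (I.mix (nat_lit 28737536) (nat_lit 99106816)) (I.pos (nat_lit 297435136) (nat_lit 419217408)) (I.mix (nat_lit 164200448) (nat_lit 69222400)) (I.mix (nat_lit 116473856) (nat_lit 91291648)) (I.mix (nat_lit 121602048) (nat_lit 124567552)))
  false (nat_lit 60470887)
def b1_4 : Bx := Bx.mk (St.mk (I.pos (nat_lit 8617984) (nat_lit 53641216)) (I.neg (nat_lit 33210368) (nat_lit 84852736)) (I.neg (nat_lit 38141952) (nat_lit 67747840)) (I.pos (nat_lit 266715136) (nat_lit 296321024)) (I.mix (nat_lit 122208256) (nat_lit 52494336)) (I.mix (nat_lit 65994752) (nat_lit 76103680)) (I.mix (nat_lit 50741248) (nat_lit 35635200)))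
  false (nat_lit 24613694)
def b1_5 : Bx := Bx.mk (St.mk (I.neg (nat_lit 14942208) (nat_lit 130908160)) (I.pos (nat_lit 2555904) (nat_lit 89505792)) (I.mix (nat_lit 77889536) (nat_lit 11223040)) (I.pos (nat_lit 266305536) (nat_lit 340819968)) (I.mix (nat_lit 71630848) (nat_lit 119062528)) (I.mix (nat_lit 71352320) (nat_lit 70369280)) (I.mix (nat_lit 77824000) (nat_lit 62062592)))
  true (nat_lit 0)
def b1_6 : Bx := Bx.mk (St.mk (I.pos (nat_lit 166297600) (nat_lit 294699008)) (I.mix (nat_lit 31342592) (nat_lit 59949056)) (I.mix (nat_lit 155877376) (nat_lit 34406400)) (I.pos (nat_lit 395804672) (nat_lit 589889536)) (I.mix (nat_lit 89079808) (nat_lit 76218368)) (I.mix (nat_lit 66863104) (nat_lit 55066624)) (I.mix (nat_lit 116473856) (nat_lit 96550912)))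
  false (nat_lit 41912750)
def b1_7 : Bx := Bx.mk (St.mk (I.mix (nat_lit 18366464) (nat_lit 47120384)) (I.mix (nat_lit 49414144) (nat_lit 16957440)) (I.neg (nat_lit 37044224) (nat_lit 54427648)) (I.pos (nat_lit 261373952) (nat_lit 281739264)) (I.mix (nat_lit 60555264) (nat_lit 43368448)) (I.mix (nat_lit 37109760) (nat_lit 39796736)) (I.mix (nat_lit 13565952) (nat_lit 15679488)))
  false (nat_lit 0)
def b1_8 : Bx := Bx.mk (St.mk (I.pos (nat_lit 151715840) (nat_lit 210223104)) (I.pos (nat_lit 19972096) (nat_lit 85688320)) (I.mix (nat_lit 13926400) (nat_lit 89014272)) (I.pos (nat_lit 391593984) (nat_lit 455065600)) (I.mix (nat_lit 122257408) (nat_lit 89341952)) (I.mix (nat_lit 85164032) (nat_lit 70205440)) (I.mix (nat_lit 131055616) (nat_lit 97271808)))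
  false (nat_lit 56578758)
def b1_9 : Bx := Bx.mk (St.mk (I.pos (nat_lit 10387456) (nat_lit 49709056)) (I.neg (nat_lit 20643840) (nat_lit 73039872)) (I.neg (nat_lit 38158336) (nat_lit 65257472)) (I.pos (nat_lit 266420224) (nat_lit 288686080)) (I.mix (nat_lit 113934336) (nat_lit 48742400)) (I.mix (nat_lit 46317568) (nat_lit 82411520)) (I.mix (nat_lit 34537472) (nat_lit 26935296)))
  false (nat_lit 0)
def t1 : BTr := (BTr.n (BTr.n (BTr.n (BTr.b b1_0) (BTr.b b1_1)) (BTr.n (BTr.b b1_2) (BTr.n (BTr.b b1_3) (BTr.b b1_4)))) (BTr.n (BTr.n (BTr.b b1_5) (BTr.b b1_6)) (BTr.n (BTr.b b1_7) (BTr.n (BTr.b b1_8) (BTr.b b1_9)))))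
namespace T1
def l0 : Tr := Tr.L (Pth.l (Pth.l (Pth.l Pth.z)))
def l1 : Tr := Tr.L (Pth.l (Pth.l (Pth.r Pth.z)))
def l2 : Tr := Tr.L (Pth.l (Pth.r (Pth.l Pth.z)))
def l3 : Tr := Tr.L (Pth.l (Pth.r (Pth.r (Pth.l Pth.z))))
def l4 : Tr := Tr.L (Pth.l (Pth.r (Pth.r (Pth.r Pth.z))))
def l5 : Tr := Tr.L (Pth.r (Pth.l (Pth.l Pth.z)))
def l6 : Tr := Tr.L (Pth.r (Pth.l (Pth.r Pth.z)))
def l7 : Tr := Tr.L (Pth.r (Pth.r (Pth.l Pth.z)))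
def l8 : Tr := Tr.L (Pth.r (Pth.r (Pth.r (Pth.l Pth.z))))
def l9 : Tr := Tr.L (Pth.r (Pth.r (Pth.r (Pth.r Pth.z))))
end T1
def b2_0 : Bx := Bx.mk (St.mk (I.pos (nat_lit 147308544) (nat_lit 224182272)) (I.mix (nat_lit 1622016) (nat_lit 46219264)) (I.mix (nat_lit 3276800) (nat_lit 103464960)) (I.pos (nat_lit 140804096) (nat_lit 245006336)) (I.mix (nat_lit 102858752) (nat_lit 49152000)) (I.mix (nat_lit 71532544) (nat_lit 52232192)) (I.mix (nat_lit 89243648) (nat_lit 62128128)))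
  false (nat_lit 0)
def b2_1 : Bx := Bx.mk (St.mk (I.pos (nat_lit 103055360) (nat_lit 172572672)) (I.neg (nat_lit 3997696) (nat_lit 58523648)) (I.mix (nat_lit 38453248) (nat_lit 24494080)) (I.pos (nat_lit 103661568) (nat_lit 164282368)) (I.mix (nat_lit 70238208) (nat_lit 58933248)) (I.mix (nat_lit 44761088) (nat_lit 50823168)) (I.mix (nat_lit 39387136) (nat_lit 50069504)))
  false (nat_lit 12597167)
def b2_2 : Bx := Bx.mk (St.mk (I.mix (nat_lit 21528576) (nat_lit 82919424)) (I.mix (nat_lit 33030144) (nat_lit 4227072)) (I.mix (nat_lit 8126464) (nat_lit 15908864)) (I.pos (nat_lit 41484288) (nat_lit 89260032)) (I.mix (nat_lit 34013184) (nat_lit 44154880)) (I.mix (nat_lit 23920640) (nat_lit 31326208)) (I.mix (nat_lit 11337728) (nat_lit 17154048)))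
  false (nat_lit 0)
def b2_3 : Bx := Bx.mk (St.mk (I.pos (nat_lit 151617536) (nat_lit 196820992)) (I.mix (nat_lit 13369344) (nat_lit 41795584)) (I.pos (nat_lit 21020672) (nat_lit 92667904)) (I.pos (nat_lit 133742592) (nat_lit 203407360)) (I.mix (nat_lit 120946688) (nat_lit 40255488)) (I.mix (nat_lit 101400576) (nat_lit 53084160)) (I.mix (nat_lit 112033792) (nat_lit 44236800)))
  false (nat_lit 0)
def b2_4 : Bx := Bx.mk (St.mk (I.mix (nat_lit 36454400) (nat_lit 104693760)) (I.mix (nat_lit 13795328) (nat_lit 34439168)) (I.mix (nat_lit 180224) (nat_lit 37093376)) (I.pos (nat_lit 40697856) (nat_lit 104153088)) (I.mix (nat_lit 70352896) (nat_lit 39288832)) (I.mix (nat_lit 56147968) (nat_lit 29802496)) (I.mix (nat_lit 31621120) (nat_lit 17219584)))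
  false (nat_lit 0)
def b2_5 : Bx := Bx.mk (St.mk (I.pos (nat_lit 150732800) (nat_lit 197935104)) (I.mix (nat_lit 39174144) (nat_lit 14614528)) (I.mix (nat_lit 11517952) (nat_lit 58884096)) (I.pos (nat_lit 133529600) (nat_lit 206618624)) (I.mix (nat_lit 95043584) (nat_lit 71237632)) (I.mix (nat_lit 88195072) (nat_lit 54280192)) (I.mix (nat_lit 89686016) (nat_lit 56016896)))
  false (nat_lit 19791283)
def b2_6 : Bx := Bx.mk (St.mk (I.pos (nat_lit 131547136) (nat_lit 170917888)) (I.neg (nat_lit 3391488) (nat_lit 36831232)) (I.mix (nat_lit 10584064) (nat_lit 26558464)) (I.pos (nat_lit 117047296) (nat_lit 170442752)) (I.mix (nat_lit 63864832) (nat_lit 46497792)) (I.mix (nat_lit 32194560) (nat_lit 43794432)) (I.mix (nat_lit 34521088) (nat_lit 39518208)))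
  false (nat_lit 0)
def b2_7 : Bx := Bx.mk (St.mk (I.mix (nat_lit 46612480) (nat_lit 87818240)) (I.mix (nat_lit 12730368) (nat_lit 8601600)) (I.pos (nat_lit 1769472) (nat_lit 15597568)) (I.pos (nat_lit 42500096) (nat_lit 89980928)) (I.mix (nat_lit 22937600) (nat_lit 21544960)) (I.mix (nat_lit 14385152) (nat_lit 15548416)) (I.mix (nat_lit 7307264) (nat_lit 8126464)))
  false (nat_lit 0)
def b2_8 : Bx := Bx.mk (St.mk (I.pos (nat_lit 148799488) (nat_lit 184860672)) (I.neg (nat_lit 8241152) (nat_lit 38043648)) (I.mix (nat_lit 11075584) (nat_lit 23969792)) (I.pos (nat_lit 141033472) (nat_lit 189038592)) (I.mix (nat_lit 54411264) (nat_lit 55541760)) (I.mix (nat_lit 50937856) (nat_lit 38518784)) (I.mix (nat_lit 49283072) (nat_lit 38912000)))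
  false (nat_lit 0)
def b2_9 : Bx := Bx.mk (St.mk (I.mix (nat_lit 29048832) (nat_lit 123568128)) (I.mix (nat_lit 10321920) (nat_lit 27148288)) (I.mix (nat_lit 294912) (nat_lit 30343168)) (I.pos (nat_lit 39960576) (nat_lit 118489088)) (I.mix (nat_lit 42418176) (nat_lit 35045376)) (I.mix (nat_lit 37388288) (nat_lit 22593536)) (I.mix (nat_lit 26214400) (nat_lit 14729216)))
  false (nat_lit 0)
def b2_10 : Bx := Bx.mk (St.mk (I.pos (nat_lit 91013120) (nat_lit 143654912)) (I.mix (nat_lit 56459264) (nat_lit 13058048)) (I.mix (nat_lit 34996224) (nat_lit 21823488)) (I.pos (nat_lit 77119488) (nat_lit 140869632)) (I.mix (nat_lit 76234752) (nat_lit 42795008)) (I.mix (nat_lit 36339712) (nat_lit 56164352)) (I.mix (nat_lit 26247168) (nat_lit 38305792)))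
  false (nat_lit 0)
def b2_11 : Bx := Bx.mk (St.mk (I.mix (nat_lit 37978112) (nat_lit 76742656)) (I.mix (nat_lit 33177600) (nat_lit 6864896)) (I.mix (nat_lit 6160384) (nat_lit 12877824)) (I.pos (nat_lit 40730624) (nat_lit 85475328)) (I.mix (nat_lit 30932992) (nat_lit 30359552)) (I.mix (nat_lit 18399232) (nat_lit 20774912)) (I.mix (nat_lit 7716864) (nat_lit 8470528)))
  false (nat_lit 0)
def b2_12 : Bx := Bx.mk (St.mk (I.pos (nat_lit 186466304) (nat_lit 287195136)) (I.mix (nat_lit 26935296) (nat_lit 36208640)) (I.mix (nat_lit 27115520) (nat_lit 92143616)) (I.pos (nat_lit 190693376) (nat_lit 377782272)) (I.mix (nat_lit 87212032) (nat_lit 67338240)) (I.mix (nat_lit 70074368) (nat_lit 50577408)) (I.mix (nat_lit 120963072) (nat_lit 86081536)))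
  false (nat_lit 23841225)
def b2_13 : Bx := Bx.mk (St.mk (I.pos (nat_lit 175915008) (nat_lit 221560832)) (I.pos (nat_lit 7110656) (nat_lit 43565056)) (I.pos (nat_lit 36651008) (nat_lit 98959360)) (I.pos (nat_lit 179896320) (nat_lit 236421120)) (I.mix (nat_lit 98467840) (nat_lit 55934976)) (I.mix (nat_lit 68993024) (nat_lit 48660480)) (I.mix (nat_lit 105594880) (nat_lit 59457536)))
  false (nat_lit 0)
def t2 : BTr := (BTr.n (BTr.n (BTr.n (BTr.b b2_0) (BTr.n (BTr.b b2_1) (BTr.b b2_2))) (BTr.n (BTr.n (BTr.b b2_3) (BTr.b b2_4)) (BTr.n (BTr.b b2_5) (BTr.b b2_6)))) (BTr.n (BTr.n (BTr.b b2_7) (BTr.n (BTr.b b2_8) (BTr.b b2_9))) (BTr.n (BTr.n (BTr.b b2_10) (BTr.b b2_11)) (BTr.n (BTr.b b2_12) (BTr.b b2_13)))))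
namespace T2
def l0 : Tr := Tr.L (Pth.l (Pth.l (Pth.l Pth.z)))
def l1 : Tr := Tr.L (Pth.l (Pth.l (Pth.r (Pth.l Pth.z))))
def l2 : Tr := Tr.L (Pth.l (Pth.l (Pth.r (Pth.r Pth.z))))
def l3 : Tr := Tr.L (Pth.l (Pth.r (Pth.l (Pth.l Pth.z))))
def l4 : Tr := Tr.L (Pth.l (Pth.r (Pth.l (Pth.r Pth.z))))
def l5 : Tr := Tr.L (Pth.l (Pth.r (Pth.r (Pth.l Pth.z))))
def l6 : Tr := Tr.L (Pth.l (Pth.r (Pth.r (Pth.r Pth.z))))
def l7 : Tr := Tr.L (Pth.r (Pth.l (Pth.l Pth.z)))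
def l8 : Tr := Tr.L (Pth.r (Pth.l (Pth.r (Pth.l Pth.z))))
def l9 : Tr := Tr.L (Pth.r (Pth.l (Pth.r (Pth.r Pth.z))))
def l10 : Tr := Tr.L (Pth.r (Pth.r (Pth.l (Pth.l Pth.z))))
def l11 : Tr := Tr.L (Pth.r (Pth.r (Pth.l (Pth.r Pth.z))))
def l12 : Tr := Tr.L (Pth.r (Pth.r (Pth.r (Pth.l Pth.z))))
def l13 : Tr := Tr.L (Pth.r (Pth.r (Pth.r (Pth.r Pth.z))))
end T2
theorem bx0_0 : BoxOK sI cl4 cl7 cl7 t1 t1 b0_0 :=
  box_mk (TrL.c (I.pos (nat_lit 0) (nat_lit 0)) (xa (xb (xa (xb T1.l0 (xa T1.l0 T1.l0)) (xb T1.l0 T1.l0)) (xa (xb (xa (xb T1.l0 T1.l0) T1.l0) (xa (xb (xd T1.l0 T1.l0) (xd (xa T1.l0 T1.l0) (xa T1.l0 T1.l0))) (xb T1.l0 (xd T1.l0 T1.l0)))) (xb (xa T1.l0 T1.l0) (xa (xb T1.l0 T1.l0) (xb T1.l0 (xd T1.l0 T1.l0)))))) (xb (xa T1.l0 T1.l0) (xa (xb T1.l0 (xa (xb T1.l0 (xd T1.l0 T1.l0)) (xb T1.l0 (xd T1.l0 T1.l0)))) (xb T1.l0 (xa (xb T1.l0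 (xd T1.l0 T1.l0)) (xb T1.l0 (xd T1.l0 T1.l0)))))))
  (TrL.c (I.pos (nat_lit 0) (nat_lit 0)) (xa (xb T1.l1 (xa (xb T1.l1 T1.l1) T1.l1)) (xb T1.l1 (xa T1.l1 T1.l1)))
  (TrL.c (I.pos (nat_lit 0) (nat_lit 0)) (xa T1.l2 (xb T1.l2 T1.l2))
  (TrL.c (I.pos (nat_lit 0) (nat_lit 0)) (xa (xb T1.l3 T1.l3) (xb (xa T1.l3 (xb T1.l3 T1.l3)) (xa (xb T1.l3 T1.l3) (xb (xa T1.l3 (xd T1.l3 T1.l3)) (xa (xd T1.l3 T1.l3) (xd (xc T1.l3 T1.l3) (xc T1.l3 T1.l3)))))))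
  (TrL.c (I.pos (nat_lit 0) (nat_lit 0)) (xa (xb T1.l4 (xa T1.l4 T1.l4)) (xb T1.l4 T1.l4))
  (TrL.c (I.pos (nat_lit 0) (nat_lit 0)) (xa (xb T1.l5 (xa (xb T1.l5 T1.l5) T1.l5)) (xb T1.l5 (xa T1.l5 T1.l5)))
  TrL.n)))))) (by decide +kernel)
theorem bx0_1 : BoxOK sI cl4 cl7 cl7 t1 t1 b0_1 :=
  box_mk (TrL.c (I.pos (nat_lit 0) (nat_lit 0)) (xa (xa (xb (xa (xb (xa (xb (xa T1.l6 T1.l6) T1.l6) T1.l6) (xa T1.l6 T1.l6)) (xb T1.l6 T1.l6)) (xa (xb (xa (xb T1.l6 T1.l6) T1.l6) (xa (xb T1.l6 (xa T1.l6 T1.l6)) (xb T1.l6 T1.l6))) (xb T1.l6 (xa T1.l6 T1.l6)))) (xb T1.l6 (xa (xb T1.l6 T1.l6) T1.l6))) (xa (xb T1.l6 T1.l6) (xb T1.l6 (xa T1.l6 (xb T1.l6 (xa T1.l6 T1.l6))))))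
  (TrL.c (I.pos (nat_lit 0) (nat_lit 0)) (xa T1.l1 T1.l1)
  (TrL.c (I.pos (nat_lit 0) (nat_lit 0)) T1.l2
  (TrL.c (I.pos (nat_lit 0) (nat_lit 0)) T1.l3
  (TrL.c (I.pos (nat_lit 0) (nat_lit 0)) T1.l7
  (TrL.c (I.pos (nat_lit 0) (nat_lit 0)) T1.l5
  TrL.n)))))) (by decide +kernel)
theorem bx0_2 : BoxOK sI cl4 cl7 cl7 t1 t1 b0_2 :=
  box_mk (TrL.c (I.pos (nat_lit 0) (nat_lit 0)) (xb (xa (xb (xa T1.l6 T1.l6) (xa T1.l6 T1.l6)) (xb (xa T1.l6 T1.l6) T1.l6)) (xa (xb (xa T1.l6 T1.l6) (xa (xb T1.l6 T1.l6) T1.l6)) (xb T1.l6 T1.l6)))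
  (TrL.c (I.pos (nat_lit 0) (nat_lit 0)) T1.l1
  (TrL.c (I.pos (nat_lit 0) (nat_lit 0)) T1.l2
  (TrL.c (I.pos (nat_lit 0) (nat_lit 0)) T1.l3
  (TrL.c (I.pos (nat_lit 0) (nat_lit 0)) (xb T1.l7 T1.l7)
  (TrL.c (I.pos (nat_lit 0) (nat_lit 0)) T1.l5
  TrL.n)))))) (by decide +kernel)
theorem bx0_3 : BoxOK sI cl4 cl7 cl7 t1 t1 b0_3 :=
  box_mk (TrL.c (I.pos (nat_lit 0) (nat_lit 0)) (xa (xb (xa (xa (xb (xa (xb T1.l6 T1.l6) T1.l6) T1.l6) T1.l6) T1.l6) (xa T1.l6 T1.l6)) T1.l6)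
  (TrL.c (I.pos (nat_lit 0) (nat_lit 0)) (xa T1.l3 T1.l1)
  (TrL.c (I.pos (nat_lit 0) (nat_lit 0)) T1.l2
  (TrL.c (I.pos (nat_lit 0) (nat_lit 0)) (xa T1.l1 T1.l3)
  (TrL.c (I.pos (nat_lit 0) (nat_lit 0)) T1.l7
  (TrL.c (I.pos (nat_lit 0) (nat_lit 0)) (xa T1.l5 T1.l5)
  TrL.n)))))) (by decide +kernel)
def rc0_4_0_l : Tr := (xa (xb (xa (xb (xc T1.l0 T1.l0) (xc T1.l0 T1.l0)) (xb (xc T1.l0 T1.l0) (xc T1.l0 T1.l0))) (xa (xb (xc (xa T1.l0 T1.l0) (xa T1.l0 T1.l0)) (xc (xa T1.l0 T1.l0) (xa T1.l0 T1.l0))) (xb (xc T1.l0 T1.l0) (xc T1.l0 T1.l0)))) (xb (xa T1.l3 (xb T1.l0 T1.l0)) (xa (xb T1.l3 (xc T1.l0 T1.l0)) (xb T1.l0 (xc T1.l0 T1.l0)))))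
theorem qc0_4_0_l : chkTr (tg true true false RT.r2) b0_4 t1 rc0_4_0_l
  (upd lo Co.b (rc sI cl4 cl7 cl7 b0_4 (I.pos (nat_lit 0) (nat_lit 0)))) = true := by decide +kernel
def rc0_4_0_r : Tr := (xa (xb (xa (xb (xc (xa T1.l0 T1.l0) (xa T1.l0 T1.l0)) (xa (xc T1.l0 T1.l0) (xc T1.l0 T1.l0))) (xb (xc (xa T1.l0 T1.l0) T1.l0) (xc (xa T1.l0 T1.l0) T1.l0))) (xa (xb (xa (xc (xd T1.l0 T1.l0) (xd T1.l0 T1.l0)) (xc (xd T1.l0 T1.l0) T1.l0)) (xa (xc (xd (xb T1.l0 T1.l0) (xb T1.l0 T1.l0)) (xd (xb T1.l0 T1.l0) (xb T1.l0 T1.l0))) (xc (xd T1.l0 T1.l0) (xd T1.l0 T1.l0)))) (xb (xc (xa T1.l0 T1.l0) T1.l0) (xa (xc (xd T1.l0 T1.l0) T1.l0) (xc (xd T1.l0 T1.l0) T1.l0))))) (xb (xa (xb (xc (xa T1.l0 T1.l0) T1.l0) (xa (xc T1.l0 T1.l0) (xc T1.l0 T1.l0))) (xb (xa T1.l0 T1.l0) (xa (xc T1.l0 T1.l0) (xc T1.l0 T1.l0)))) (xa (xb (xa (xc T1.l0 T1.l0) (xc T1.l0 T1.l0))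 (xa (xc (xd T1.l0 T1.l0) T1.l0) (xc T1.l0 T1.l0))) (xb (xa (xc T1.l0 T1.l0) (xc T1.l0 (xd T1.l0 T1.l0))) (xa (xc T1.l0 (xd T1.l0 T1.l0)) (xc (xd T1.l0 T1.l0) (xd (xb T1.l0 T1.l0) (xb T1.l0 T1.l0))))))))
theorem qc0_4_0_r : chkTr (tg true true false RT.r2) b0_4 t1 rc0_4_0_r
  (upd hi Co.b (rc sI cl4 cl7 cl7 b0_4 (I.pos (nat_lit 0) (nat_lit 0)))) = true := by decide +kernel
theorem qc0_4_0_ : chkTr (tg true true false RT.r2) b0_4 t1 (Tr.N Co.b rc0_4_0_l rc0_4_0_r)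
  (rc sI cl4 cl7 cl7 b0_4 (I.pos (nat_lit 0) (nat_lit 0))) = true := tr_split qc0_4_0_l qc0_4_0_r
theorem c0_4_0 : chkTag sI cl4 cl7 cl7 t1 b0_4 (tg true true false RT.r2) (I.pos (nat_lit 0) (nat_lit 0))
  (Tr.N Co.b rc0_4_0_l rc0_4_0_r) = true := tag_mk (by decide +kernel) qc0_4_0_
theorem c0_4_1 : chkTag sI cl4 cl7 cl7 t1 b0_4 (tg true false false RT.r3) (I.pos (nat_lit 0) (nat_lit 0))
  (xb (xa (xb (xc (xa T1.l1 T1.l1) T1.l1) (xc (xa T1.l1 T1.l1) T1.l1)) (xb (xc (xa T1.l1 T1.l1) (xa T1.l1 T1.l1)) (xc (xa T1.l1 T1.l1) (xa T1.l1 T1.l1)))) (xa (xc (xb (xa T1.l1 T1.l1) (xa T1.l1 T1.l1)) (xb T1.l1 (xa (xb T1.l1 T1.l1) (xb T1.l1 T1.l1)))) (xc (xb (xa T1.l1 (xd T1.l1 T1.l1)) (xa (xb T1.l1 T1.l1) (xd T1.l1 T1.l1))) (xb (xa T1.l1 (xd T1.l1 T1.l1)) (xa (xd T1.l1 T1.l1) (xd T1.l1 T1.l1)))))) = true := by decide +kernel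
theorem c0_4_2 : chkTag sI cl4 cl7 cl7 t1 b0_4 (tg true true true RT.r4) (I.pos (nat_lit 0) (nat_lit 0))
  (xc (xb (xa T1.l5 (xa T1.l5 T1.l5)) (xa T1.l2 (xa T1.l2 (xb T1.l2 T1.l2)))) (xa (xb T1.l2 T1.l2) (xb (xa T1.l2 (xb T1.l2 T1.l2)) (xa T1.l2 (xc T1.l2 (xb T1.l2 T1.l2)))))) = true := by decide +kernel
def rc0_4_3_l : Tr := (xa (xb (xc (xa (xb (xd (xc T1.l3 T1.l3) (xc T1.l3 T1.l3)) T1.l3) (xb (xd (xc T1.l3 T1.l3) (xc (xa T1.l3 T1.l3) T1.l3)) T1.l3)) (xa (xb (xd T1.l3 T1.l3) T1.l3) (xb (xd (xc T1.l3 T1.l3) (xc T1.l3 T1.l3)) T1.l3))) (xc T1.l3 T1.l3)) (xb (xc (xa (xb (xd (xc (xa T1.l3 T1.l3) T1.l3) (xc (xa T1.l3 T1.l3) (xa T1.l3 T1.l3))) (xd T1.l3 T1.l3)) (xd (xb (xc (xa T1.l3 (xe T1.l3 T1.l3)) (xa T1.l3 (xe T1.l3 T1.l3))) (xc (xa T1.l3 T1.l3) T1.l3)) (xb (xa (xc (xe T1.l3 T1.l3) T1.l3) (xc (xe T1.l3 T1.l3) (xe T1.l3 T1.l3))) (xc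 (xa T1.l3 T1.l3) (xa T1.l3 T1.l3))))) (xa (xb (xd (xc T1.l3 T1.l3) (xc T1.l3 T1.l3)) (xd T1.l3 T1.l3)) (xd (xb (xc (xa T1.l3 (xe T1.l3 T1.l3)) (xa T1.l3 (xe T1.l3 T1.l3))) (xc T1.l3 (xa T1.l3 T1.l3))) (xb (xc (xa T1.l3 (xe T1.l3 T1.l3)) (xa T1.l3 (xe T1.l3 T1.l3))) (xc T1.l3 (xa T1.l3 T1.l3)))))) (xc (xa (xd T1.l3 T1.l3) (xd (xb (xc T1.l3 T1.l3) (xc T1.l3 T1.l3)) (xb (xc T1.l3 T1.l3) (xc T1.l3 T1.l3)))) (xa (xd T1.l3 T1.l3) (xd (xb T1.l3 T1.l3) (xb T1.l3 T1.l3))))))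
theorem qc0_4_3_l : chkTr (tg false false false RT.r3) b0_4 t1 rc0_4_3_l
  (upd lo Co.b (rc sI cl4 cl7 cl7 b0_4 (I.pos (nat_lit 0) (nat_lit 0)))) = true := by decide +kernel
def rc0_4_3_r : Tr := (xa (xb (xc T1.l3 (xa T1.l3 T1.l3)) (xc (xa T1.l3 (xb T1.l3 T1.l3)) (xa T1.l3 (xb T1.l3 (xd T1.l3 T1.l3))))) (xb (xc (xa (xd (xb T1.l3 T1.l3) (xb T1.l3 T1.l3)) (xd (xb (xc (xa T1.l3 T1.l3) T1.l3) (xc (xa T1.l3 (xe T1.l3 T1.l3)) T1.l3)) (xb (xc (xa T1.l3 T1.l3) T1.l3) (xc (xa T1.l3 (xe T1.l3 T1.l3)) T1.l3)))) (xa (xd (xb T1.l3 T1.l3) T1.l3) (xd (xb (xa T1.l3 T1.l3) (xa T1.l3 (xc T1.l3 T1.l3))) (xb (xa T1.l3 T1.l3) (xa T1.l3 (xc T1.l3 T1.l3)))))) (xc (xa (xd (xb T1.l3 (xc T1.l3 T1.l3)) (xb T1.l3 (xc T1.l3 T1.l3))) (xd (xb (xc (xe T1.l3 T1.l3) (xa T1.l3 T1.l3)) (xc (xa T1.l3 (xe T1.l3 T1.l3)) (xa T1.l3 (xe T1.l3 T1.l3)))) (xb (xc (xe T1.l3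 T1.l3) (xa T1.l3 T1.l3)) (xc (xa T1.l3 (xe T1.l3 T1.l3)) (xa T1.l3 (xe T1.l3 T1.l3)))))) (xa (xd (xb T1.l3 (xc T1.l3 (xa T1.l3 T1.l3))) (xb T1.l3 (xc T1.l3 (xa T1.l3 T1.l3)))) (xd (xb (xe (xa T1.l3 T1.l3) (xa T1.l3 T1.l3)) (xe (xa T1.l3 (xc T1.l3 T1.l3)) (xa T1.l3 (xc T1.l3 T1.l3)))) (xb (xc (xa T1.l3 T1.l3) (xa T1.l3 (xe T1.l3 T1.l3))) (xc (xa T1.l3 (xe T1.l3 T1.l3)) (xa (xe T1.l3 T1.l3) (xe T1.l3 T1.l3)))))))))
theorem qc0_4_3_r : chkTr (tg false false false RT.r3) b0_4 t1 rc0_4_3_r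
  (upd hi Co.b (rc sI cl4 cl7 cl7 b0_4 (I.pos (nat_lit 0) (nat_lit 0)))) = true := by decide +kernel
theorem qc0_4_3_ : chkTr (tg false false false RT.r3) b0_4 t1 (Tr.N Co.b rc0_4_3_l rc0_4_3_r)
  (rc sI cl4 cl7 cl7 b0_4 (I.pos (nat_lit 0) (nat_lit 0))) = true := tr_split qc0_4_3_l qc0_4_3_r
theorem c0_4_3 : chkTag sI cl4 cl7 cl7 t1 b0_4 (tg false false false RT.r3) (I.pos (nat_lit 0) (nat_lit 0))
  (Tr.N Co.b rc0_4_3_l rc0_4_3_r) = true := tag_mk (by decide +kernel) qc0_4_3_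
theorem c0_4_4 : chkTag sI cl4 cl7 cl7 t1 b0_4 (tg false true false RT.r4) (I.pos (nat_lit 0) (nat_lit 0))
  (xc (xb (xa T1.l1 (xa T1.l1 T1.l1)) (xa T1.l4 (xa T1.l4 (xb T1.l4 T1.l4)))) (xa (xb T1.l4 T1.l4) (xb (xa T1.l4 (xb T1.l4 T1.l4)) (xa (xb T1.l4 T1.l4) (xc T1.l4 (xb T1.l4 T1.l4)))))) = true := by decide +kernel
theorem c0_4_5 : chkTag sI cl4 cl7 cl7 t1 b0_4 (tg false false true RT.r5) (I.pos (nat_lit 0) (nat_lit 0))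
  (xb (xa (xb (xc (xa T1.l5 T1.l5) T1.l5) (xc (xa T1.l5 T1.l5) T1.l5)) (xb (xc (xa T1.l5 T1.l5) (xa T1.l5 T1.l5)) (xc (xa T1.l5 T1.l5) (xa T1.l5 T1.l5)))) (xa (xc (xb (xa T1.l5 T1.l5) (xa T1.l5 T1.l5)) (xb T1.l5 (xa (xb T1.l5 T1.l5) (xb T1.l5 T1.l5)))) (xc (xb (xa T1.l5 (xd T1.l5 T1.l5)) (xa (xb T1.l5 T1.l5) (xd T1.l5 T1.l5))) (xb (xa T1.l5 (xd T1.l5 T1.l5)) (xa (xd T1.l5 T1.l5) (xd T1.l5 T1.l5)))))) = true := by decide +kernel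
theorem bx0_4 : BoxOK sI cl4 cl7 cl7 t1 t1 b0_4 :=
  box_mk' [(tg true true false RT.r2), (tg true false false RT.r3), (tg true true true RT.r4), (tg false false false RT.r3), (tg false true false RT.r4), (tg false false true RT.r5)] rfl (allL_c (ex_mk c0_4_0) (allL_c (ex_mk c0_4_1) (allL_c (ex_mk c0_4_2) (allL_c (ex_mk c0_4_3) (allL_c (ex_mk c0_4_4) (allL_c (ex_mk c0_4_5) allL_n))))))
theorem bx0_5 : BoxOK sI cl4 cl7 cl7 t1 t1 b0_5 :=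
  box_mk (TrL.c (I.pos (nat_lit 0) (nat_lit 0)) T1.l6
  (TrL.c (I.pos (nat_lit 0) (nat_lit 0)) T1.l1
  (TrL.c (I.pos (nat_lit 0) (nat_lit 0)) T1.l2
  (TrL.c (I.pos (nat_lit 0) (nat_lit 0)) T1.l3
  (TrL.c (I.pos (nat_lit 0) (nat_lit 0)) T1.l7
  (TrL.c (I.pos (nat_lit 0) (nat_lit 0)) T1.l5
  TrL.n)))))) (by decide +kernel)
theorem bx0_6 : BoxOK sI cl4 cl7 cl7 t1 t1 b0_6 :=
  box_mk (TrL.c (I.pos (nat_lit 0) (nat_lit 0)) (xa (xb (xa (xa (xb T1.l6 T1.l6) T1.l6) T1.l6) T1.l6) T1.l6)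
  (TrL.c (I.pos (nat_lit 0) (nat_lit 0)) T1.l3
  (TrL.c (I.pos (nat_lit 0) (nat_lit 0)) T1.l2
  (TrL.c (I.pos (nat_lit 0) (nat_lit 0)) T1.l1
  (TrL.c (I.pos (nat_lit 0) (nat_lit 0)) T1.l7
  (TrL.c (I.pos (nat_lit 0) (nat_lit 0)) T1.l5
  TrL.n)))))) (by decide +kernel)
theorem bx0_7 : BoxOK sI cl4 cl7 cl7 t1 t1 b0_7 :=
  box_mk (TrL.c (I.pos (nat_lit 0) (nat_lit 0)) (xa T1.l0 T1.l3)
  (TrL.c (I.pos (nat_lit 0) (nat_lit 0)) (xa T1.l1 T1.l1)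
  (TrL.c (I.pos (nat_lit 0) (nat_lit 0)) T1.l5
  (TrL.c (I.pos (nat_lit 0) (nat_lit 0)) (xa (xb T1.l3 T1.l3) (xb (xa (xd T1.l3 T1.l0) (xd (xb T1.l0 T1.l0) (xb T1.l0 T1.l0))) (xa T1.l3 (xd T1.l3 (xc T1.l3 T1.l3)))))
  (TrL.c (I.pos (nat_lit 0) (nat_lit 0)) T1.l1
  (TrL.c (I.pos (nat_lit 0) (nat_lit 0)) (xa T1.l5 T1.l5)
  TrL.n)))))) (by decide +kernel)
theorem bx0_8 : BoxOK sI cl4 cl7 cl7 t1 t1 b0_8 :=
  box_mk (TrL.c (I.pos (nat_lit 0) (nat_lit 0)) (xa (xb (xa T1.l6 T1.l6) T1.l6) (xb (xa T1.l6 (xb T1.l6 T1.l6)) (xa T1.l6 T1.l0)))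
  (TrL.c (I.pos (nat_lit 0) (nat_lit 0)) T1.l1
  (TrL.c (I.pos (nat_lit 0) (nat_lit 0)) T1.l2
  (TrL.c (I.pos (nat_lit 0) (nat_lit 0)) (xa T1.l3 T1.l3)
  (TrL.c (I.pos (nat_lit 0) (nat_lit 0)) (xa T1.l7 T1.l7)
  (TrL.c (I.pos (nat_lit 0) (nat_lit 0)) T1.l5
  TrL.n)))))) (by decide +kernel)
theorem bx0_9 : BoxOK sI cl4 cl7 cl7 t1 t1 b0_9 :=
  box_mk (TrL.c (I.pos (nat_lit 0) (nat_lit 0)) (xa (xa (xb (xa (xb (xa (xb (xa (xd T1.l6 T1.l6) T1.l6) T1.l6) T1.l6) T1.l6) (xb T1.l6 T1.l6)) T1.l6) (xb T1.l6 T1.l6)) T1.l6)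
  (TrL.c (I.pos (nat_lit 0) (nat_lit 0)) (xa T1.l3 T1.l1)
  (TrL.c (I.pos (nat_lit 0) (nat_lit 0)) T1.l2
  (TrL.c (I.pos (nat_lit 0) (nat_lit 0)) (xa T1.l1 T1.l3)
  (TrL.c (I.pos (nat_lit 0) (nat_lit 0)) T1.l7
  (TrL.c (I.pos (nat_lit 0) (nat_lit 0)) (xa T1.l5 T1.l5)
  TrL.n)))))) (by decide +kernel)
theorem c0_10_0 : chkTag sI cl4 cl7 cl7 t1 b0_10 (tg true true false RT.r2) (I.pos (nat_lit 0) (nat_lit 0))
  (xb (xa (xb (xa (xb T1.l8 T1.l8) (xb T1.l8 T1.l8)) (xa (xb (xa T1.l8 T1.l8) (xa T1.l8 T1.l8)) (xb T1.l8 T1.l8))) (xb (xa (xb T1.l8 T1.l8) (xb (xa T1.l8 T1.l8) T1.l8)) (xa (xb T1.l8 T1.l8) (xb T1.l8 (xa T1.l8 T1.l8))))) (xa (xb (xa (xb (xa T1.l8 T1.l8) (xa (xd T1.l8 T1.l8) T1.l8)) (xb (xa T1.l8 T1.l8) (xa T1.l8 T1.l8))) (xa (xb (xa (xd T1.l8 T1.l8) (xd T1.l8 T1.l8)) (xa (xd (xb T1.l8 T1.l8) (xb T1.l8 T1.l8)) (xd T1.l8 (xb T1.l8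 T1.l8)))) (xb (xa T1.l8 T1.l8) (xa (xd T1.l8 T1.l8) T1.l8)))) (xb (xa (xb T1.l8 (xa T1.l8 T1.l8)) (xb (xa T1.l8 T1.l8) (xa T1.l8 (xd T1.l8 T1.l8)))) (xa (xb (xa T1.l8 T1.l8) (xa T1.l8 (xd T1.l8 T1.l8))) (xb (xa (xd T1.l8 T1.l8) (xd T1.l8 T1.l8)) (xa (xd T1.l8 T1.l8) (xd (xb T1.l8 T1.l8) (xb T1.l8 T1.l8)))))))) = true := by decide +kernel
theorem c0_10_1 : chkTag sI cl4 cl7 cl7 t1 b0_10 (tg true false false RT.r3) (I.pos (nat_lit 0) (nat_lit 0))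
  (xb (xa (xb T1.l1 (xa T1.l1 T1.l1)) (xb (xa T1.l1 T1.l1) (xa T1.l1 T1.l1))) (xa (xb (xa T1.l1 T1.l1) (xa (xc T1.l1 T1.l1) (xc T1.l1 T1.l1))) (xb (xa T1.l1 T1.l1) (xa (xc T1.l1 T1.l1) (xc T1.l1 T1.l1))))) = true := by decide +kernel
theorem c0_10_2 : chkTag sI cl4 cl7 cl7 t1 b0_10 (tg true true true RT.r4) (I.pos (nat_lit 0) (nat_lit 0))
  (xb T1.l2 (xa T1.l2 (xc T1.l2 T1.l2))) = true := by decide +kernel
theorem c0_10_3 : chkTag sI cl4 cl7 cl7 t1 b0_10 (tg false false false RT.r3) (I.pos (nat_lit 0) (nat_lit 0))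
  (xb (xa (xb (xa T1.l3 T1.l3) T1.l3) (xb (xa T1.l3 (xc T1.l3 T1.l3)) (xa T1.l3 (xc T1.l3 (xd T1.l3 T1.l3))))) (xa (xb (xa T1.l3 T1.l3) (xa T1.l3 (xc T1.l3 T1.l3))) (xb (xa (xc T1.l3 (xd T1.l3 T1.l3)) (xc (xd T1.l3 T1.l3) (xd (xb T1.l3 T1.l3) (xb T1.l3 T1.l3)))) (xa (xc (xd T1.l3 T1.l3) (xd T1.l3 T1.l3)) (xc (xd (xb T1.l3 T1.l3) (xb T1.l3 T1.l3)) (xd (xb (xe T1.l3 T1.l3) (xe T1.l3 T1.l3)) (xb T1.l3 (xe T1.l3 T1.l3)))))))) = true := by decide +kernel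
theorem c0_10_4 : chkTag sI cl4 cl7 cl7 t1 b0_10 (tg false true false RT.r4) (I.pos (nat_lit 0) (nat_lit 0))
  (xb (xa T1.l9 T1.l9) (xa T1.l9 (xc T1.l9 (xb T1.l9 T1.l9)))) = true := by decide +kernel
theorem c0_10_5 : chkTag sI cl4 cl7 cl7 t1 b0_10 (tg false false true RT.r5) (I.pos (nat_lit 0) (nat_lit 0))
  (xb (xa (xb T1.l5 (xa T1.l5 T1.l5)) (xb (xa T1.l5 T1.l5) (xa T1.l5 T1.l5))) (xa (xb (xa T1.l5 T1.l5) (xa (xc T1.l5 T1.l5) (xc T1.l5 T1.l5))) (xb (xa T1.l5 T1.l5) (xa (xc T1.l5 T1.l5) (xc T1.l5 T1.l5))))) = true := by decide +kernel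
theorem bx0_10 : BoxOK sI cl4 cl7 cl7 t1 t1 b0_10 :=
  box_mk' [(tg true true false RT.r2), (tg true false false RT.r3), (tg true true true RT.r4), (tg false false false RT.r3), (tg false true false RT.r4), (tg false false true RT.r5)] rfl (allL_c (ex_mk c0_10_0) (allL_c (ex_mk c0_10_1) (allL_c (ex_mk c0_10_2) (allL_c (ex_mk c0_10_3) (allL_c (ex_mk c0_10_4) (allL_c (ex_mk c0_10_5) allL_n))))))
theorem bx0_11 : BoxOK sI cl4 cl7 cl7 t1 t1 b0_11 :=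
  box_mk (TrL.c (I.pos (nat_lit 0) (nat_lit 0)) (xa (xa (xb (xa (xb (xa (xb (xa T1.l6 T1.l6) T1.l6) T1.l6) T1.l6) (xb T1.l6 T1.l6)) (xa (xb (xa T1.l6 T1.l6) (xa (xb (xa T1.l6 T1.l6) (xa (xb (xd T1.l6 T1.l6) (xd T1.l6 T1.l6)) (xb T1.l6 (xd T1.l6 T1.l6)))) (xb T1.l6 (xa (xb T1.l6 T1.l6) T1.l6)))) (xb T1.l6 (xa (xb T1.l6 T1.l6) T1.l6)))) (xb T1.l6 (xa (xb T1.l6 (xa T1.l6 T1.l6)) (xb T1.l6 T1.l6)))) (xa (xb T1.l6 (xa T1.l6 T1.l6)) (xb T1.l6 (xa T1.l6 (xb T1.l6 (xa T1.l6 T1.l6))))))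
  (TrL.c (I.pos (nat_lit 0) (nat_lit 0)) (xa (xa T1.l3 T1.l1) T1.l1)
  (TrL.c (I.pos (nat_lit 0) (nat_lit 0)) (xa (xb T1.l2 T1.l7) T1.l2)
  (TrL.c (I.pos (nat_lit 0) (nat_lit 0)) (xa (xa T1.l1 T1.l3) T1.l3)
  (TrL.c (I.pos (nat_lit 0) (nat_lit 0)) (xa T1.l7 T1.l7)
  (TrL.c (I.pos (nat_lit 0) (nat_lit 0)) (xa T1.l5 T1.l5)
  TrL.n)))))) (by decide +kernel)
theorem bx0_12 : BoxOK sI cl4 cl7 cl7 t1 t1 b0_12 :=
  box_mk (TrL.c (I.pos (nat_lit 0) (nat_lit 0)) (xa (xb (xa (xb T1.l8 T1.l8) T1.l8) T1.l0) T1.l0)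
  (TrL.c (I.pos (nat_lit 0) (nat_lit 0)) T1.l1
  (TrL.c (I.pos (nat_lit 0) (nat_lit 0)) T1.l5
  (TrL.c (I.pos (nat_lit 0) (nat_lit 0)) (xa (xb (xa T1.l3 (xb T1.l3 T1.l3)) T1.l3) (xb (xa (xb (xa T1.l3 T1.l3) T1.l3) (xb T1.l0 T1.l3)) T1.l3))
  (TrL.c (I.pos (nat_lit 0) (nat_lit 0)) T1.l1
  (TrL.c (I.pos (nat_lit 0) (nat_lit 0)) T1.l5
  TrL.n)))))) (by decide +kernel)
theorem bx0_13 : BoxOK sI cl4 cl7 cl7 t1 t1 b0_13 :=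
  box_mk (TrL.c (I.pos (nat_lit 0) (nat_lit 0)) (xb (xa (xb T1.l8 T1.l8) T1.l0) (xa T1.l8 T1.l0))
  (TrL.c (I.pos (nat_lit 0) (nat_lit 0)) T1.l1
  (TrL.c (I.pos (nat_lit 0) (nat_lit 0)) T1.l2
  (TrL.c (I.pos (nat_lit 0) (nat_lit 0)) (xb (xa (xb T1.l3 T1.l3) (xb (xa T1.l3 T1.l3) T1.l3)) T1.l3)
  (TrL.c (I.pos (nat_lit 0) (nat_lit 0)) T1.l1
  (TrL.c (I.pos (nat_lit 0) (nat_lit 0)) T1.l5
  TrL.n)))))) (by decide +kernel)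
theorem sv0 : StarV sI cl4 cl7 cl7 t1 t1 t0 :=
  (bt_n (bt_n (bt_n (bt_b bx0_0) (bt_n (bt_b bx0_1) (bt_b bx0_2))) (bt_n (bt_n (bt_b bx0_3) (bt_b bx0_4)) (bt_n (bt_b bx0_5) (bt_b bx0_6)))) (bt_n (bt_n (bt_b bx0_7) (bt_n (bt_b bx0_8) (bt_b bx0_9))) (bt_n (bt_n (bt_b bx0_10) (bt_b bx0_11)) (bt_n (bt_b bx0_12) (bt_b bx0_13)))))
def S0 : StarD := StarD.mk cl4 cl7 cl7 1 1 t0
theorem c1_0_0 : chkTag sI cl7 cl4 cl7 t0 b1_0 (tg true true false RT.r2) (I.pos (nat_lit 0) (nat_lit 0))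
  (xb (xa (xb T0.l4 (xa T0.l4 T0.l4)) (xb (xa T0.l0 T0.l0) (xa T0.l0 T0.l0))) (xa (xb (xa T0.l4 (xb T0.l4 T0.l4)) (xa (xb (xa T0.l4 T0.l4) (xa (xk T0.l4 T0.l4) (xk T0.l0 T0.l0))) (xb (xa T0.l4 T0.l0) (xa (xk T0.l0 T0.l0) (xk T0.l0 T0.l0))))) (xb (xa (xb T0.l0 (xa T0.l0 T0.l0)) (xb T0.l0 T0.l0)) (xa (xb (xa T0.l0 T0.l0) (xa (xk T0.l0 T0.l0) (xk T0.l0 T0.l0))) (xb (xa T0.l0 T0.l0) (xa (xk T0.l0 T0.l0) (xk T0.l0 T0.l0))))))) = true := by decide +kernel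
theorem c1_0_1 : chkTag sI cl7 cl4 cl7 t2 b1_0 (tg true false false RT.r3) (I.pos (nat_lit 0) (nat_lit 0))
  (xb (xa T2.l1 (xk T2.l1 T2.l1)) (xa (xk T2.l1 T2.l1) (xk (xb T2.l1 (xa T2.l1 T2.l1)) (xb T2.l1 T2.l1)))) = true := by decide +kernel
theorem c1_0_2 : chkTag sI cl7 cl4 cl7 t0 b1_0 (Tag.mk true true false RT.tl RT.r4) (I.pos (nat_lit 0) (nat_lit 111196574))
  (xR T0.l1 (xR T0.l1 (xR T0.l1 T0.l1))) = true := by decide +kernel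
theorem c1_0_3 : chkTag sI cl7 cl4 cl7 t2 b1_0 (Tag.mk true false false RT.tl RT.r5) (I.pos (nat_lit 0) (nat_lit 77433728))
  (xR T2.l2 (xR T2.l2 (xR T2.l2 T2.l2))) = true := by decide +kernel
theorem c1_0_4 : chkTag sI cl7 cl4 cl7 t2 b1_0 (tg false false false RT.r3) (I.pos (nat_lit 0) (nat_lit 0))
  (xb (xa (xk (xb (xa T2.l3 T2.l3) T2.l3) (xb (xa T2.l3 T2.l3) T2.l3)) (xk (xb (xa T2.l3 (xk T2.l3 T2.l3)) (xa T2.l3 (xk T2.l3 T2.l3))) (xb (xa T2.l3 (xk T2.l3 T2.l3)) (xa T2.l3 (xk T2.l3 T2.l3))))) (xa (xk (xb T2.l3 (xa T2.l3 T2.l3)) (xb T2.l3 (xa T2.l3 T2.l3))) (xk (xb (xa T2.l3 (xk T2.l3 T2.l3)) (xa (xk T2.l3 T2.l3) (xk (xb T2.l3 T2.l3) (xb T2.l3 T2.l3)))) (xb (xa T2.l3 (xk T2.l3 T2.l3)) (xa T2.l3 (xk (xb T2.l3 T2.l3) T2.l3)))))) = true := by decide +kernel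
theorem c1_0_5 : chkTag sI cl7 cl4 cl7 t0 b1_0 (tg false true false RT.r4) (I.pos (nat_lit 0) (nat_lit 0))
  (xb (xk T0.l2 T0.l2) (xk T0.l2 T0.l2)) = true := by decide +kernel
theorem c1_0_6 : chkTag sI cl7 cl4 cl7 t2 b1_0 (Tag.mk false false false RT.tl RT.r5) (I.mix (nat_lit 29511666) (nat_lit 77433728))
  (xR T2.l4 (xR T2.l4 (xR T2.l4 T2.l4))) = true := by decide +kernel
theorem c1_0_7 : chkTag sI cl7 cl4 cl7 t0 b1_0 (Tag.mk false true false RT.tl RT.r6) (I.mix (nat_lit 29511666) (nat_lit 46070178))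
  (xR T0.l3 (xR T0.l3 T0.l3)) = true := by decide +kernel
theorem bx1_0 : BoxOK sI cl7 cl4 cl7 t0 t2 b1_0 :=
  box_mk' [(tg true true false RT.r2), (tg true false false RT.r3), (Tag.mk true true false RT.tl RT.r4), (Tag.mk true false false RT.tl RT.r5), (tg false false false RT.r3), (tg false true false RT.r4), (Tag.mk false false false RT.tl RT.r5), (Tag.mk false true false RT.tl RT.r6)] rfl (allL_c (ex_mk c1_0_0) (allL_c (ex_mk c1_0_1) (allL_c (ex_mk c1_0_2) (allL_c (ex_mk c1_0_3) (allL_c (ex_mk c1_0_4) (allL_c (ex_mk c1_0_5) (allL_c (ex_mk c1_0_6) (allL_c (ex_mk c1_0_7) allL_n))))))))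
theorem bx1_1 : BoxOK sI cl7 cl4 cl7 t0 t2 b1_1 :=
  box_mk (TrL.c (I.pos (nat_lit 0) (nat_lit 0)) (xa (xb (xa (xb (xa (xb (xk T0.l4 T0.l4) T0.l4) (xb T0.l4 T0.l4)) (xa (xb T0.l4 T0.l4) T0.l4)) (xb (xa T0.l4 T0.l4) T0.l4)) (xa (xb T0.l4 (xa (xb T0.l4 T0.l4) T0.l4)) T0.l4)) (xb (xa (xb T0.l4 T0.l4) T0.l4) T0.l4))
  (TrL.c (I.pos (nat_lit 0) (nat_lit 0)) (xa (xb T2.l1 T2.l1) (xb T2.l1 T2.l1))
  (TrL.c (I.pos (nat_lit 0) (nat_lit 111196574)) (xR T0.l11 (xR T0.l1 (xa (xR T0.l1 T0.l1) T0.l1)))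
  (TrL.c (I.pos (nat_lit 0) (nat_lit 77433728)) (xR T2.l4 (xR T2.l2 T2.l2))
  (TrL.c (I.pos (nat_lit 0) (nat_lit 0)) (xa (xb (xk (xa T2.l5 T2.l5) (xa T2.l5 T2.l5)) T2.l5) (xb (xk (xa T2.l5 (xb T2.l5 T2.l5)) (xa T2.l5 (xb T2.l5 T2.l5))) (xk (xa T2.l5 T2.l5) T2.l5)))
  (TrL.c (I.pos (nat_lit 0) (nat_lit 0)) (xa T0.l2 T0.l2)
  (TrL.c (I.mix (nat_lit 29511666) (nat_lit 77433728)) (xR T2.l4 (xR T2.l4 (xR T2.l4 T2.l4)))
  (TrL.c (I.mix (nat_lit 29511666) (nat_lit 46070178)) T0.l11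
  TrL.n)))))))) (by decide +kernel)
theorem bx1_2 : BoxOK sI cl7 cl4 cl7 t0 t2 b1_2 :=
  box_mk (TrL.c (I.pos (nat_lit 0) (nat_lit 0)) (xb (xk (xa T2.l6 T2.l6) T2.l1) (xk T2.l6 T2.l6))
  (TrL.c (I.pos (nat_lit 0) (nat_lit 0)) T0.l5
  (TrL.c (I.mix (nat_lit 29511666) (nat_lit 77433728)) (xR (xR T2.l7 T2.l7) T2.l4)
  (TrL.c (I.mix (nat_lit 29511666) (nat_lit 46070178)) (xR T0.l11 T0.l1)
  TrL.n)))) (by decide +kernel)
theorem c1_3_0 : chkTag sI cl7 cl4 cl7 t0 b1_3 (tg true true false RT.r2) (I.pos (nat_lit 0) (nat_lit 0))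
  (xb (xa (xb (xa (xb T0.l4 T0.l4) T0.l4) (xa (xb T0.l4 T0.l4) T0.l4)) (xb (xa T0.l4 T0.l4) (xa T0.l4 T0.l4))) (xa (xb (xa (xb (xc T0.l4 T0.l4) (xc T0.l4 T0.l4)) (xb T0.l4 T0.l4)) (xa (xb (xc (xa T0.l4 T0.l4) T0.l4) (xa (xc (xk T0.l4 T0.l4) (xk T0.l4 T0.l4)) (xc (xk T0.l4 T0.l4) (xk T0.l4 T0.l4)))) (xb (xa T0.l4 T0.l4) (xa (xc T0.l4 T0.l4) (xc T0.l4 T0.l4))))) (xb (xa T0.l4 T0.l4) (xa (xb T0.l4 (xa T0.l4 T0.l4)) (xb T0.l4 (xa T0.l4 (xc T0.l4 (xk T0.l4 T0.l4)))))))) = true := by decide +kernel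
theorem c1_3_1 : chkTag sI cl7 cl4 cl7 t2 b1_3 (tg true false false RT.r3) (I.pos (nat_lit 0) (nat_lit 0))
  (xb (xa (xb T2.l1 T2.l1) (xk T2.l1 T2.l1)) (xa (xk (xb T2.l1 T2.l1) (xb T2.l1 T2.l1)) (xk (xb T2.l1 T2.l1) (xb T2.l1 T2.l1)))) = true := by decide +kernel
theorem c1_3_2 : chkTag sI cl7 cl4 cl7 t0 b1_3 (Tag.mk true true false RT.tl RT.r4) (I.pos (nat_lit 0) (nat_lit 111196574))
  (xR T0.l1 (xR T0.l1 (xb T0.l1 (xR T0.l1 T0.l1)))) = true := by decide +kernel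
theorem c1_3_3 : chkTag sI cl7 cl4 cl7 t2 b1_3 (Tag.mk true false false RT.tl RT.r5) (I.pos (nat_lit 0) (nat_lit 77433728))
  (xR T2.l2 (xR T2.l2 (xb T2.l2 T2.l2))) = true := by decide +kernel
theorem c1_3_4 : chkTag sI cl7 cl4 cl7 t2 b1_3 (tg false false false RT.r3) (I.pos (nat_lit 0) (nat_lit 0))
  (xb (xa (xb (xk T2.l5 T2.l5) (xk T2.l5 T2.l5)) (xb (xk (xa (xb T2.l5 T2.l5) (xk (xb T2.l5 T2.l5) (xb T2.l5 T2.l5))) (xa (xb T2.l5 T2.l5) (xk (xb T2.l5 T2.l5) (xb T2.l5 T2.l5)))) (xk (xa (xb T2.l5 T2.l5) (xk (xb T2.l5 T2.l5) (xb T2.l5 T2.l5))) (xa T2.l5 (xb (xk T2.l5 T2.l5) T2.l3))))) (xa (xk (xb T2.l5 (xa T2.l5 T2.l3)) (xb T2.l5 (xa T2.l5 T2.l3))) (xk (xb (xa T2.l3 T2.l3) (xa T2.l3 (xk T2.l3 T2.l3))) (xb (xa T2.l3 T2.l3) (xa T2.l3 T2.l3))))) = true := by decide +kernel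
theorem c1_3_5 : chkTag sI cl7 cl4 cl7 t0 b1_3 (tg false true false RT.r4) (I.pos (nat_lit 0) (nat_lit 0))
  (xb T0.l2 (xa T0.l2 T0.l2)) = true := by decide +kernel
theorem c1_3_6 : chkTag sI cl7 cl4 cl7 t2 b1_3 (Tag.mk false false false RT.tl RT.r5) (I.mix (nat_lit 29511666) (nat_lit 77433728))
  (xR T2.l4 (xR T2.l4 (xR T2.l4 T2.l4))) = true := by decide +kernel
theorem c1_3_7 : chkTag sI cl7 cl4 cl7 t0 b1_3 (Tag.mk false true false RT.tl RT.r6) (I.mix (nat_lit 29511666) (nat_lit 46070178))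
  (xR T0.l3 (xR T0.l3 T0.l3)) = true := by decide +kernel
theorem bx1_3 : BoxOK sI cl7 cl4 cl7 t0 t2 b1_3 :=
  box_mk' [(tg true true false RT.r2), (tg true false false RT.r3), (Tag.mk true true false RT.tl RT.r4), (Tag.mk true false false RT.tl RT.r5), (tg false false false RT.r3), (tg false true false RT.r4), (Tag.mk false false false RT.tl RT.r5), (Tag.mk false true false RT.tl RT.r6)] rfl (allL_c (ex_mk c1_3_0) (allL_c (ex_mk c1_3_1) (allL_c (ex_mk c1_3_2) (allL_c (ex_mk c1_3_3) (allL_c (ex_mk c1_3_4) (allL_c (ex_mk c1_3_5) (allL_c (ex_mk c1_3_6) (allL_c (ex_mk c1_3_7) allL_n))))))))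
theorem bx1_4 : BoxOK sI cl7 cl4 cl7 t0 t2 b1_4 :=
  box_mk (TrL.c (I.pos (nat_lit 0) (nat_lit 0)) (xb (xa (xb (xa (xk T0.l7 T0.l7) T0.l4) T0.l4) T0.l4) (xa T0.l4 T0.l4))
  (TrL.c (I.pos (nat_lit 0) (nat_lit 0)) T2.l1
  (TrL.c (I.pos (nat_lit 0) (nat_lit 111196574)) (xR T0.l1 T0.l1)
  (TrL.c (I.pos (nat_lit 0) (nat_lit 77433728)) T2.l4
  (TrL.c (I.pos (nat_lit 0) (nat_lit 0)) (xk T2.l5 T2.l5)
  (TrL.c (I.pos (nat_lit 0) (nat_lit 0)) T0.l2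
  (TrL.c (I.mix (nat_lit 29511666) (nat_lit 77433728)) T2.l4
  (TrL.c (I.mix (nat_lit 29511666) (nat_lit 46070178)) T0.l9
  TrL.n)))))))) (by decide +kernel)
theorem bx1_5 : BoxOK sI cl7 cl4 cl7 t0 t2 b1_5 :=
  box_mk (TrL.c (I.pos (nat_lit 0) (nat_lit 0)) (xa (xb T2.l1 T2.l1) (xb T2.l1 T2.l1))
  (TrL.c (I.pos (nat_lit 0) (nat_lit 0)) T0.l5
  (TrL.c (I.mix (nat_lit 29511666) (nat_lit 77433728)) (xR (xR (xk (xR T2.l7 T2.l7) T2.l7) T2.l4) (xR T2.l2 (xR T2.l2 T2.l2)))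
  (TrL.c (I.mix (nat_lit 29511666) (nat_lit 46070178)) (xR (xR T0.l6 T0.l6) T0.l1)
  TrL.n)))) (by decide +kernel)
theorem c1_6_0 : chkTag sI cl7 cl4 cl7 t0 b1_6 (tg true true false RT.r2) (I.pos (nat_lit 0) (nat_lit 0))
  (xa (xb (xa (xb T0.l0 T0.l0) (xb T0.l0 T0.l0)) (xa (xb (xc T0.l0 T0.l0) (xc (xa T0.l0 T0.l0) T0.l0)) (xb (xc T0.l0 T0.l0) (xc (xa T0.l0 T0.l0) T0.l0)))) (xb (xa (xb T0.l0 T0.l0) (xb (xa T0.l0 T0.l0) (xa T0.l0 T0.l0))) (xa (xb (xa T0.l0 T0.l0) (xa (xc T0.l0 T0.l0) T0.l10)) (xb (xa T0.l0 T0.l0) (xa (xc T0.l0 T0.l0) (xc T0.l0 T0.l0)))))) = true := by decide +kernel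
theorem c1_6_1 : chkTag sI cl7 cl4 cl7 t2 b1_6 (tg true false false RT.r3) (I.pos (nat_lit 0) (nat_lit 0))
  (xa (xb T2.l1 (xk T2.l1 T2.l1)) (xb (xk T2.l10 T2.l10) (xk (xa T2.l1 (xb T2.l1 T2.l1)) (xa T2.l1 T2.l1)))) = true := by decide +kernel
theorem c1_6_2 : chkTag sI cl7 cl4 cl7 t0 b1_6 (Tag.mk true true false RT.tl RT.r4) (I.pos (nat_lit 0) (nat_lit 111196574))
  (xR T0.l11 (xR T0.l1 (xR T0.l1 (xa T0.l1 T0.l1)))) = true := by decide +kernel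
theorem c1_6_3 : chkTag sI cl7 cl4 cl7 t2 b1_6 (Tag.mk true false false RT.tl RT.r5) (I.pos (nat_lit 0) (nat_lit 77433728))
  (xR T2.l2 (xR T2.l2 (xR T2.l2 T2.l2))) = true := by decide +kernel
def rc1_6_4_l : Tr := (xb (xk (xa (xb (xk (xa T2.l5 (xb T2.l3 T2.l3)) (xa T2.l5 (xb T2.l3 T2.l3))) (xk T2.l3 T2.l3)) (xb (xk (xa (xb T2.l3 T2.l3) (xb (xk T2.l3 T2.l3) T2.l3)) (xa (xb T2.l3 T2.l3) (xb (xc T2.l3 T2.l3) T2.l3))) (xk T2.l3 T2.l3))) (xa (xb (xk (xa T2.l3 (xb T2.l3 T2.l3)) (xa T2.l3 (xb T2.l3 T2.l3))) T2.l3) (xb (xk (xa (xb T2.l3 T2.l3) (xb (xc T2.l3 T2.l3) T2.l3)) (xa (xb T2.l3 T2.l3) (xb T2.l3 T2.l3))) (xk T2.l3 T2.l3)))) (xk (xa T2.l3 (xb T2.l3 T2.l3)) (xa T2.l3 (xb T2.l3 T2.l3))))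
theorem qc1_6_4_l : chkTr (tg false false false RT.r3) b1_6 t2 rc1_6_4_l
  (upd lo Co.a (rc sI cl7 cl4 cl7 b1_6 (I.pos (nat_lit 0) (nat_lit 0)))) = true := by decide +kernel
def rc1_6_4_rl : Tr := (xk (xa (xb (xk (xa (xb (xk T2.l3 T2.l3) T2.l3) (xb (xk (xa T2.l3 T2.l3) (xa T2.l3 T2.l3)) T2.l3)) (xa (xb (xc (xk T2.l3 T2.l3) T2.l3) T2.l3) (xb (xk T2.l3 T2.l3) T2.l3))) (xk (xa T2.l3 T2.l3) (xa T2.l3 T2.l3))) (xb (xk (xa (xb (xk (xa T2.l3 T2.l3) (xa T2.l3 T2.l3)) T2.l3) (xb (xk (xa T2.l3 T2.l3) (xa T2.l3 T2.l3)) (xk (xa T2.l3 T2.l3) T2.l3))) (xa (xb (xk (xa T2.l3 T2.l3) (xa T2.l3 T2.l3)) T2.l3) (xb (xk (xa T2.l3 T2.l3) (xa T2.l3 T2.l3)) (xk T2.l3 T2.l3)))) (xk (xa T2.l3 (xb (xk T2.l3 T2.l3) (xk T2.l3 T2.l3))) (xa T2.l3 (xb (xk T2.l3 T2.l3) (xk T2.l3 T2.l3)))))) (xa (xb (xa (xk (xb (xc T2.l3 T2.l3) T2.l3) (xb (xc T2.l3 T2.l3) T2.l3))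 (xk (xb (xk T2.l3 T2.l3) T2.l3) (xb (xc (xa T2.l3 T2.l3) T2.l3) T2.l3))) (xk T2.l3 T2.l3)) (xb (xk (xa (xb (xk (xa T2.l3 T2.l3) (xa T2.l3 T2.l3)) T2.l3) (xb (xa (xk T2.l3 T2.l3) (xk T2.l3 T2.l3)) (xk T2.l3 T2.l3))) (xa (xb (xa (xc T2.l3 T2.l3) (xc T2.l3 T2.l3)) T2.l3) (xb (xa (xk T2.l3 T2.l3) (xk T2.l3 T2.l3)) T2.l3))) (xk (xa T2.l3 (xb T2.l3 T2.l3)) (xa T2.l3 (xb T2.l3 T2.l3))))))
theorem qc1_6_4_rl : chkTr (tg false false false RT.r3) b1_6 t2 rc1_6_4_rl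
  (upd lo Co.b (upd hi Co.a (rc sI cl7 cl4 cl7 b1_6 (I.pos (nat_lit 0) (nat_lit 0))))) = true := by decide +kernel
def rc1_6_4_rr : Tr := (xk (xa (xb (xk T2.l3 T2.l3) (xk (xa T2.l3 T2.l3) (xa T2.l3 T2.l3))) (xb (xk (xa T2.l3 (xb (xk T2.l3 T2.l3) (xk T2.l3 T2.l3))) (xa T2.l3 (xb (xk T2.l3 T2.l3) (xk T2.l3 T2.l3)))) (xk (xa (xb T2.l3 (xk T2.l3 T2.l3)) (xb (xk (xa T2.l3 T2.l3) T2.l3) (xk (xa T2.l3 T2.l3) (xa T2.l3 T2.l3)))) (xa (xb T2.l3 T2.l3) (xb (xk T2.l3 T2.l3) (xk (xa T2.l3 T2.l3) (xa T2.l3 T2.l3))))))) (xa (xb (xk T2.l3 T2.l3) (xk (xa T2.l3 T2.l3) T2.l3)) (xb (xk (xa T2.l3 (xb T2.l3 T2.l3)) (xa T2.l3 (xb T2.l3 T2.l3))) (xa (xk (xb T2.l3 T2.l3) (xb T2.l3 T2.l3)) (xk (xb (xk T2.l3 T2.l3) (xk (xa T2.l3 T2.l3) (xa T2.l3 T2.l3))) (xb (xa T2.l3 T2.l3) (xk T2.l3 T2.l3)))))))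
theorem qc1_6_4_rr : chkTr (tg false false false RT.r3) b1_6 t2 rc1_6_4_rr
  (upd hi Co.b (upd hi Co.a (rc sI cl7 cl4 cl7 b1_6 (I.pos (nat_lit 0) (nat_lit 0))))) = true := by decide +kernel
theorem qc1_6_4_r : chkTr (tg false false false RT.r3) b1_6 t2 (Tr.N Co.b rc1_6_4_rl rc1_6_4_rr)
  (upd hi Co.a (rc sI cl7 cl4 cl7 b1_6 (I.pos (nat_lit 0) (nat_lit 0)))) = true := tr_split qc1_6_4_rl qc1_6_4_rr
theorem qc1_6_4_ : chkTr (tg false false false RT.r3) b1_6 t2 (Tr.N Co.a rc1_6_4_l (Tr.N Co.b rc1_6_4_rl rc1_6_4_rr))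
  (rc sI cl7 cl4 cl7 b1_6 (I.pos (nat_lit 0) (nat_lit 0))) = true := tr_split qc1_6_4_l qc1_6_4_r
theorem c1_6_4 : chkTag sI cl7 cl4 cl7 t2 b1_6 (tg false false false RT.r3) (I.pos (nat_lit 0) (nat_lit 0))
  (Tr.N Co.a rc1_6_4_l (Tr.N Co.b rc1_6_4_rl rc1_6_4_rr)) = true := tag_mk (by decide +kernel) qc1_6_4_
theorem c1_6_5 : chkTag sI cl7 cl4 cl7 t0 b1_6 (tg false true false RT.r4) (I.pos (nat_lit 0) (nat_lit 0))
  (xa (xb T0.l2 T0.l2) (xb (xk (xa T0.l2 T0.l2) (xa T0.l2 T0.l2)) (xk (xa T0.l2 T0.l2) (xa T0.l2 T0.l2)))) = true := by decide +kernel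
theorem c1_6_6 : chkTag sI cl7 cl4 cl7 t2 b1_6 (Tag.mk false false false RT.tl RT.r5) (I.mix (nat_lit 29511666) (nat_lit 77433728))
  (xR T2.l4 (xR T2.l4 (xR T2.l4 (xb (xa T2.l4 T2.l4) T2.l4)))) = true := by decide +kernel
theorem c1_6_7 : chkTag sI cl7 cl4 cl7 t0 b1_6 (Tag.mk false true false RT.tl RT.r6) (I.mix (nat_lit 29511666) (nat_lit 46070178))
  (xR T0.l3 (xR T0.l3 T0.l9)) = true := by decide +kernel
theorem bx1_6 : BoxOK sI cl7 cl4 cl7 t0 t2 b1_6 :=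
  box_mk' [(tg true true false RT.r2), (tg true false false RT.r3), (Tag.mk true true false RT.tl RT.r4), (Tag.mk true false false RT.tl RT.r5), (tg false false false RT.r3), (tg false true false RT.r4), (Tag.mk false false false RT.tl RT.r5), (Tag.mk false true false RT.tl RT.r6)] rfl (allL_c (ex_mk c1_6_0) (allL_c (ex_mk c1_6_1) (allL_c (ex_mk c1_6_2) (allL_c (ex_mk c1_6_3) (allL_c (ex_mk c1_6_4) (allL_c (ex_mk c1_6_5) (allL_c (ex_mk c1_6_6) (allL_c (ex_mk c1_6_7) allL_n))))))))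
theorem bx1_7 : BoxOK sI cl7 cl4 cl7 t0 t2 b1_7 :=
  box_mk (TrL.c (I.pos (nat_lit 0) (nat_lit 0)) (xb (xa (xb (xa (xb (xa T0.l7 T0.l7) T0.l7) T0.l7) T0.l7) T0.l7) (xa (xb T0.l7 (xa (xb T0.l7 (xa T0.l7 T0.l7)) (xb T0.l7 T0.l7))) (xb T0.l7 (xa (xb T0.l7 T0.l7) T0.l7))))
  (TrL.c (I.pos (nat_lit 0) (nat_lit 0)) (xk T2.l6 T2.l1)
  (TrL.c (I.pos (nat_lit 0) (nat_lit 111196574)) (xR T0.l1 (xR T0.l1 (xR T0.l1 T0.l5)))
  (TrL.c (I.pos (nat_lit 0) (nat_lit 77433728)) T2.l4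
  (TrL.c (I.pos (nat_lit 0) (nat_lit 0)) (xk (xb T2.l8 T2.l8) (xb T2.l8 T2.l5))
  (TrL.c (I.pos (nat_lit 0) (nat_lit 0)) T0.l2
  (TrL.c (I.mix (nat_lit 29511666) (nat_lit 77433728)) T2.l4
  (TrL.c (I.mix (nat_lit 29511666) (nat_lit 46070178)) T0.l11
  TrL.n)))))))) (by decide +kernel)
theorem bx1_8 : BoxOK sI cl7 cl4 cl7 t0 t2 b1_8 :=
  box_mk (TrL.c (I.pos (nat_lit 0) (nat_lit 0)) (xb (xa (xb T0.l0 T0.l4) (xb T0.l0 (xa T0.l0 T0.l0))) (xa (xb (xa T0.l4 T0.l0) (xa (xk T0.l4 T0.l0) (xk T0.l0 T0.l0))) (xb (xa T0.l0 T0.l0) (xa (xk T0.l0 T0.l0) (xk (xb T0.l0 T0.l0) T0.l0)))))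
  (TrL.c (I.pos (nat_lit 0) (nat_lit 0)) (xk (xb T2.l1 (xa T2.l1 T2.l1)) (xb T2.l1 (xa T2.l1 T2.l1)))
  (TrL.c (I.pos (nat_lit 0) (nat_lit 111196574)) (xR T0.l1 (xR T0.l1 T0.l1))
  (TrL.c (I.pos (nat_lit 0) (nat_lit 77433728)) (xR T2.l2 (xR T2.l2 T2.l2))
  (TrL.c (I.pos (nat_lit 0) (nat_lit 0)) (xb (xk (xa T2.l3 T2.l3) (xa T2.l3 T2.l3)) (xk (xa T2.l3 T2.l3) (xa T2.l3 T2.l3)))
  (TrL.c (I.pos (nat_lit 0) (nat_lit 0)) (xk T0.l2 T0.l2)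
  (TrL.c (I.mix (nat_lit 29511666) (nat_lit 77433728)) (xR T2.l4 T2.l4)
  (TrL.c (I.mix (nat_lit 29511666) (nat_lit 46070178)) (xR T0.l3 T0.l3)
  TrL.n)))))))) (by decide +kernel)
theorem bx1_9 : BoxOK sI cl7 cl4 cl7 t0 t2 b1_9 :=
  box_mk (TrL.c (I.pos (nat_lit 0) (nat_lit 0)) (xb (xa (xb T0.l4 T0.l4) T0.l4) (xa T0.l4 T0.l4))
  (TrL.c (I.pos (nat_lit 0) (nat_lit 0)) T2.l1
  (TrL.c (I.pos (nat_lit 0) (nat_lit 111196574)) (xR T0.l1 T0.l1)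
  (TrL.c (I.pos (nat_lit 0) (nat_lit 77433728)) T2.l4
  (TrL.c (I.pos (nat_lit 0) (nat_lit 0)) T2.l5
  (TrL.c (I.pos (nat_lit 0) (nat_lit 0)) T0.l2
  (TrL.c (I.mix (nat_lit 29511666) (nat_lit 77433728)) T2.l4
  (TrL.c (I.mix (nat_lit 29511666) (nat_lit 46070178)) T0.l9
  TrL.n)))))))) (by decide +kernel)
theorem sv1 : StarV sI cl7 cl4 cl7 t0 t2 t1 :=
  (bt_n (bt_n (bt_n (bt_b bx1_0) (bt_b bx1_1)) (bt_n (bt_b bx1_2) (bt_n (bt_b bx1_3) (bt_b bx1_4)))) (bt_n (bt_n (bt_b bx1_5) (bt_b bx1_6)) (bt_n (bt_b bx1_7) (bt_n (bt_b bx1_8) (bt_b bx1_9)))))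
def S1 : StarD := StarD.mk cl7 cl4 cl7 0 2 t1
def rc2_0_0_l : Tr := (xb (xa (xb (xc T2.l12 (xa T2.l13 T2.l13)) (xa (xc T2.l12 (xk T2.l0 T2.l0)) (xc T2.l12 (xk T2.l0 T2.l0)))) (xb (xa T2.l13 T2.l13) (xa (xc T2.l13 T2.l13) (xc T2.l0 T2.l0)))) (xa (xb (xa (xc (xb T2.l0 (xk T2.l0 T2.l0)) (xk (xb T2.l0 T2.l0) T2.l0)) (xc T2.l13 (xk T2.l0 T2.l0))) (xa (xc (xb (xk (xa T2.l0 T2.l0) T2.l0) (xk (xa T2.l0 T2.l0) (xa T2.l0 T2.l0))) (xk (xb (xa T2.l0 T2.l0) (xa (xc T2.l0 T2.l0) (xc T2.l0 T2.l0))) (xb T2.l0 (xa (xc T2.l0 T2.l0) T2.l0)))) (xc (xb T2.l13 (xk (xa T2.l0 T2.l0) T2.l0)) (xk (xb T2.l0 (xa T2.l0 T2.l0)) (xb T2.l0 (xa T2.l0 T2.l0)))))) (xb (xa (xc T2.l13 (xk T2.l0 T2.l0)) (xc T2.l13 (xk T2.l0 T2.l0))) (xa (xc (xk (xb T2.l0 T2.l0) T2.l13) (xk (xb T2.l0 (xa T2.l0 T2.l0)) (xb T2.l0 T2.l0))) (xc (xk T2.l0 T2.l0) (xk (xb T2.l0 T2.l0) (xb T2.l0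 T2.l0)))))))
theorem qc2_0_0_l : chkTr (tg true true false RT.r2) b2_0 t2 rc2_0_0_l
  (upd lo Co.a (rc sI cl7 cl7 cl4 b2_0 (I.pos (nat_lit 0) (nat_lit 0)))) = true := by decide +kernel
def rc2_0_0_r : Tr := (xb (xa (xb (xa T2.l13 (xc T2.l0 T2.l0)) (xa (xc T2.l0 T2.l0) (xc T2.l0 T2.l0))) (xb (xa T2.l0 T2.l0) (xa (xc T2.l0 T2.l0) (xc T2.l0 T2.l0)))) (xa (xb (xa (xc T2.l0 (xk T2.l0 T2.l0)) (xc T2.l0 (xk T2.l0 T2.l0))) (xa (xc (xk T2.l0 T2.l0) (xk (xb T2.l0 T2.l0) T2.l0)) (xc (xk T2.l0 T2.l0) (xk T2.l0 T2.l0)))) (xb (xa (xc T2.l0 (xk T2.l0 T2.l0)) (xc T2.l0 (xk T2.l0 T2.l0))) (xa (xc (xk T2.l0 T2.l0) (xk T2.l0 T2.l0)) (xc (xk T2.l0 T2.l0) (xk T2.l0 T2.l0))))))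
theorem qc2_0_0_r : chkTr (tg true true false RT.r2) b2_0 t2 rc2_0_0_r
  (upd hi Co.a (rc sI cl7 cl7 cl4 b2_0 (I.pos (nat_lit 0) (nat_lit 0)))) = true := by decide +kernel
theorem qc2_0_0_ : chkTr (tg true true false RT.r2) b2_0 t2 (Tr.N Co.a rc2_0_0_l rc2_0_0_r)
  (rc sI cl7 cl7 cl4 b2_0 (I.pos (nat_lit 0) (nat_lit 0))) = true := tr_split qc2_0_0_l qc2_0_0_r
theorem c2_0_0 : chkTag sI cl7 cl7 cl4 t2 b2_0 (tg true true false RT.r2) (I.pos (nat_lit 0) (nat_lit 0))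
  (Tr.N Co.a rc2_0_0_l rc2_0_0_r) = true := tag_mk (by decide +kernel) qc2_0_0_
theorem c2_0_1 : chkTag sI cl7 cl7 cl4 t0 b2_0 (tg true false false RT.r3) (I.pos (nat_lit 0) (nat_lit 0))
  (xa (xb (xk T0.l8 T0.l8) (xk (xa T0.l8 T0.l8) (xa T0.l8 T0.l8))) (xk (xb (xa T0.l8 T0.l8) (xa T0.l8 (xk T0.l8 T0.l8))) (xb T0.l8 (xa T0.l8 T0.l8)))) = true := by decide +kernel
theorem c2_0_2 : chkTag sI cl7 cl7 cl4 t2 b2_0 (Tag.mk true true false RT.tl RT.r4) (I.pos (nat_lit 0) (nat_lit 111196574))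
  (xR T2.l9 (xR T2.l9 (xR T2.l9 T2.l4))) = true := by decide +kernel
theorem c2_0_3 : chkTag sI cl7 cl7 cl4 t0 b2_0 (Tag.mk true false false RT.tl RT.r5) (I.pos (nat_lit 0) (nat_lit 77433728))
  (xR T0.l9 (xR T0.l9 (xR T0.l9 T0.l9))) = true := by decide +kernel
theorem c2_0_4 : chkTag sI cl7 cl7 cl4 t0 b2_0 (tg false false false RT.r3) (I.pos (nat_lit 0) (nat_lit 0))
  (xa (xk (xb T0.l13 (xa T0.l10 T0.l10)) (xb T0.l13 T0.l10)) (xk (xb T0.l10 (xa T0.l10 T0.l10)) (xb T0.l10 T0.l10))) = true := by decide +kernel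
theorem c2_0_5 : chkTag sI cl7 cl7 cl4 t2 b2_0 (tg false true false RT.r4) (I.pos (nat_lit 0) (nat_lit 0))
  (xk (xa T2.l10 T2.l10) T2.l10) = true := by decide +kernel
theorem c2_0_6 : chkTag sI cl7 cl7 cl4 t0 b2_0 (Tag.mk false false false RT.tl RT.r5) (I.mix (nat_lit 29511666) (nat_lit 77433728))
  (xR T0.l11 (xR T0.l11 (xR T0.l11 T0.l11))) = true := by decide +kernel
theorem c2_0_7 : chkTag sI cl7 cl7 cl4 t2 b2_0 (Tag.mk false true false RT.tl RT.r6) (I.mix (nat_lit 29511666) (nat_lit 46070178))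
  (xR T2.l11 T2.l2) = true := by decide +kernel
theorem bx2_0 : BoxOK sI cl7 cl7 cl4 t2 t0 b2_0 :=
  box_mk' [(tg true true false RT.r2), (tg true false false RT.r3), (Tag.mk true true false RT.tl RT.r4), (Tag.mk true false false RT.tl RT.r5), (tg false false false RT.r3), (tg false true false RT.r4), (Tag.mk false false false RT.tl RT.r5), (Tag.mk false true false RT.tl RT.r6)] rfl (allL_c (ex_mk c2_0_0) (allL_c (ex_mk c2_0_1) (allL_c (ex_mk c2_0_2) (allL_c (ex_mk c2_0_3) (allL_c (ex_mk c2_0_4) (allL_c (ex_mk c2_0_5) (allL_c (ex_mk c2_0_6) (allL_c (ex_mk c2_0_7) allL_n))))))))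
theorem bx2_1 : BoxOK sI cl7 cl7 cl4 t2 t0 b2_1 :=
  box_mk (TrL.c (I.pos (nat_lit 0) (nat_lit 0)) (xa (xb (xa (xb T2.l12 T2.l12) (xb T2.l0 T2.l12)) (xa (xb T2.l12 T2.l12) (xb T2.l12 T2.l12))) (xb (xa T2.l0 T2.l0) (xa (xb T2.l12 T2.l12) T2.l0)))
  (TrL.c (I.pos (nat_lit 0) (nat_lit 0)) (xa (xb T0.l8 T0.l8) (xb (xk T0.l8 T0.l8) T0.l8))
  (TrL.c (I.pos (nat_lit 0) (nat_lit 111196574)) (xR T2.l9 (xR T2.l9 T2.l4))
  (TrL.c (I.pos (nat_lit 0) (nat_lit 77433728)) (xR T0.l9 T0.l9)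
  (TrL.c (I.pos (nat_lit 0) (nat_lit 0)) (xa (xb (xk (xa (xb T0.l12 T0.l12) (xb T0.l12 T0.l12)) (xa (xb T0.l12 T0.l12) (xb T0.l12 T0.l12))) (xk (xa T0.l12 T0.l12) (xa T0.l12 T0.l12))) (xb (xk (xa (xb T0.l12 T0.l12) (xb (xk T0.l12 T0.l12) T0.l12)) (xa (xb T0.l12 T0.l12) (xb (xk T0.l12 T0.l12) T0.l12))) (xk T0.l13 T0.l13)))
  (TrL.c (I.pos (nat_lit 0) (nat_lit 0)) (xa T2.l10 T2.l10)
  (TrL.c (I.mix (nat_lit 29511666) (nat_lit 77433728)) (xR T0.l11 (xR T0.l11 (xR T0.l11 T0.l11)))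
  (TrL.c (I.mix (nat_lit 29511666) (nat_lit 46070178)) (xR T2.l11 T2.l11)
  TrL.n)))))))) (by decide +kernel)
theorem bx2_2 : BoxOK sI cl7 cl7 cl4 t2 t0 b2_2 :=
  box_mk (TrL.c (I.pos (nat_lit 0) (nat_lit 0)) (xa (xa T2.l12 T2.l12) (xa T2.l12 T2.l12))
  (TrL.c (I.pos (nat_lit 0) (nat_lit 0)) (xa (xa T0.l12 T0.l8) T0.l8)
  (TrL.c (I.pos (nat_lit 0) (nat_lit 111196574)) T2.l9
  (TrL.c (I.pos (nat_lit 0) (nat_lit 77433728)) (xR T0.l9 T0.l9)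
  (TrL.c (I.pos (nat_lit 0) (nat_lit 0)) (xa (xa T0.l8 (xb (xk T0.l12 T0.l12) T0.l12)) (xa T0.l12 T0.l12))
  (TrL.c (I.pos (nat_lit 0) (nat_lit 0)) T2.l10
  (TrL.c (I.mix (nat_lit 29511666) (nat_lit 77433728)) (xR T0.l11 (xR T0.l11 (xa T0.l11 T0.l11)))
  (TrL.c (I.mix (nat_lit 29511666) (nat_lit 46070178)) T2.l11
  TrL.n)))))))) (by decide +kernel)
theorem c2_3_0 : chkTag sI cl7 cl7 cl4 t2 b2_3 (tg true true false RT.r2) (I.pos (nat_lit 0) (nat_lit 0))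
  (xb (xa (xb (xa (xb (xc T2.l12 T2.l12) (xc T2.l12 T2.l12)) (xb (xc T2.l13 T2.l13) (xc T2.l13 T2.l13))) (xa (xb (xc T2.l12 T2.l13) (xc T2.l12 (xk T2.l13 T2.l13))) (xb (xc T2.l13 T2.l13) (xc T2.l13 T2.l13)))) (xb (xa (xb T2.l13 T2.l13) (xk T2.l13 T2.l13)) (xa (xk (xb T2.l13 T2.l13) T2.l13) (xk T2.l13 T2.l13)))) (xa (xb (xa (xb (xc (xk T2.l13 T2.l13) (xk T2.l13 T2.l13)) (xk (xc T2.l13 T2.l13) (xc T2.l13 T2.l13))) (xb (xc T2.l13 T2.l13) (xc (xk T2.l13 T2.l13) T2.l13))) (xa (xb (xk (xc (xa T2.l13 T2.l13) (xa T2.l13 T2.l13)) (xc T2.l13 T2.l13)) (xk (xa (xc T2.l13 T2.l13) (xc T2.l13 T2.l13)) (xc (xa T2.l13 T2.l13) (xa T2.l13 T2.l13)))) (xb (xk (xc T2.l13 T2.l13) (xc T2.l13 T2.l13)) (xk (xa (xc T2.l13 T2.l13) (xc T2.l13 T2.l13)) (xc (xa T2.l13 T2.l13) (xa T2.l13 T2.l13)))))) (xb (xa (xb (xk T2.l13 T2.l13) (xk T2.l13 T2.l13)) (xk (xb T2.l13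 T2.l13) (xb T2.l13 T2.l13))) (xa (xb (xk (xc T2.l13 T2.l13) (xc T2.l13 T2.l13)) (xk (xc T2.l13 (xa T2.l13 T2.l13)) (xc T2.l13 T2.l13))) (xb (xk (xc T2.l13 T2.l13) T2.l13) (xk (xc T2.l13 T2.l13) (xc T2.l13 T2.l13))))))) = true := by decide +kernel
theorem c2_3_1 : chkTag sI cl7 cl7 cl4 t0 b2_3 (tg true false false RT.r3) (I.pos (nat_lit 0) (nat_lit 0))
  (xb (xk (xa T0.l8 T0.l8) (xa T0.l8 T0.l8)) (xk (xa (xb T0.l8 T0.l8) T0.l8) (xa T0.l8 T0.l8))) = true := by decide +kernel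
theorem c2_3_2 : chkTag sI cl7 cl7 cl4 t2 b2_3 (Tag.mk true true false RT.tl RT.r4) (I.pos (nat_lit 0) (nat_lit 111196574))
  (xR T2.l9 (xR T2.l9 T2.l4)) = true := by decide +kernel
theorem c2_3_3 : chkTag sI cl7 cl7 cl4 t0 b2_3 (Tag.mk true false false RT.tl RT.r5) (I.pos (nat_lit 0) (nat_lit 77433728))
  (xR T0.l9 (xR T0.l9 (xR T0.l9 T0.l9))) = true := by decide +kernel
theorem c2_3_4 : chkTag sI cl7 cl7 cl4 t0 b2_3 (tg false false false RT.r3) (I.pos (nat_lit 0) (nat_lit 0))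
  (xb (xk (xa (xb T0.l13 T0.l13) T0.l10) (xa (xb T0.l13 T0.l13) T0.l10)) (xk (xa T0.l10 T0.l10) T0.l10)) = true := by decide +kernel
theorem c2_3_5 : chkTag sI cl7 cl7 cl4 t2 b2_3 (tg false true false RT.r4) (I.pos (nat_lit 0) (nat_lit 0))
  (xk T2.l10 T2.l10) = true := by decide +kernel
theorem c2_3_6 : chkTag sI cl7 cl7 cl4 t0 b2_3 (Tag.mk false false false RT.tl RT.r5) (I.mix (nat_lit 29511666) (nat_lit 77433728))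
  (xR T0.l11 (xR T0.l11 (xR T0.l11 T0.l11))) = true := by decide +kernel
theorem c2_3_7 : chkTag sI cl7 cl7 cl4 t2 b2_3 (Tag.mk false true false RT.tl RT.r6) (I.mix (nat_lit 29511666) (nat_lit 46070178))
  (xR (xR T2.l11 T2.l11) T2.l2) = true := by decide +kernel
theorem bx2_3 : BoxOK sI cl7 cl7 cl4 t2 t0 b2_3 :=
  box_mk' [(tg true true false RT.r2), (tg true false false RT.r3), (Tag.mk true true false RT.tl RT.r4), (Tag.mk true false false RT.tl RT.r5), (tg false false false RT.r3), (tg false true false RT.r4), (Tag.mk false false false RT.tl RT.r5), (Tag.mk false true false RT.tl RT.r6)] rfl (allL_c (ex_mk c2_3_0) (allL_c (ex_mk c2_3_1) (allL_c (ex_mk c2_3_2) (allL_c (ex_mk c2_3_3) (allL_c (ex_mk c2_3_4) (allL_c (ex_mk c2_3_5) (allL_c (ex_mk c2_3_6) (allL_c (ex_mk c2_3_7) allL_n))))))))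
theorem bx2_4 : BoxOK sI cl7 cl7 cl4 t2 t0 b2_4 :=
  box_mk (TrL.c (I.pos (nat_lit 0) (nat_lit 0)) (xa (xa (xb (xa (xb T2.l12 (xa T2.l12 T2.l12)) T2.l12) (xa (xb (xa (xb T2.l12 (xc T2.l12 T2.l12)) T2.l12) (xa (xb (xc (xa T2.l12 T2.l12) (xa T2.l12 T2.l12)) (xc (xk (xa T2.l12 T2.l12) (xa T2.l12 T2.l12)) (xk (xa T2.l12 T2.l12) (xa T2.l12 T2.l12)))) (xb (xc T2.l12 T2.l12) (xk (xc T2.l12 (xa T2.l12 T2.l12)) (xc T2.l12 T2.l12))))) (xb T2.l12 (xa (xb T2.l12 (xc (xa T2.l12 T2.l12) (xk T2.l12 T2.l12))) (xb T2.l12 (xc T2.l12 T2.l12)))))) (xb (xa T2.l12 T2.l12) (xa (xb T2.l12 (xa (xb T2.l12 T2.l12) T2.l12)) (xb T2.l12 T2.l12)))) (xa (xb T2.l12 (xa T2.l12 (xb T2.l12 (xa T2.l12 T2.l12)))) (xb T2.l12 (xa (xb T2.l12 (xa T2.l12 T2.l12)) (xb T2.l12 (xa (xb T2.l12 T2.l12) (xb T2.l12 (xk T2.l12 T2.l12))))))))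
  (TrL.c (I.pos (nat_lit 0) (nat_lit 0)) (xa (xa (xb T0.l12 (xk (xa T0.l12 T0.l12) T0.l12)) (xb T0.l8 (xk (xa T0.l8 T0.l8) T0.l8))) (xa (xb T0.l8 (xk T0.l8 T0.l8)) (xb T0.l8 (xk T0.l8 T0.l8))))
  (TrL.c (I.pos (nat_lit 0) (nat_lit 111196574)) (xR T2.l9 T2.l9)
  (TrL.c (I.pos (nat_lit 0) (nat_lit 77433728)) (xR T0.l9 T0.l9)
  (TrL.c (I.pos (nat_lit 0) (nat_lit 0)) (xa (xa (xb (xk T0.l12 T0.l12) (xk T0.l12 T0.l12)) (xb T0.l12 (xk T0.l12 T0.l12))) (xa (xb T0.l12 (xk T0.l12 T0.l12)) (xb (xk T0.l12 T0.l12) (xk T0.l12 T0.l12))))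
  (TrL.c (I.pos (nat_lit 0) (nat_lit 0)) (xa T2.l10 T2.l10)
  (TrL.c (I.mix (nat_lit 29511666) (nat_lit 77433728)) (xR T0.l11 (xR T0.l11 (xa T0.l11 T0.l11)))
  (TrL.c (I.mix (nat_lit 29511666) (nat_lit 46070178)) T2.l11
  TrL.n)))))))) (by decide +kernel)
theorem bx2_5 : BoxOK sI cl7 cl7 cl4 t2 t0 b2_5 :=
  box_mk (TrL.c (I.pos (nat_lit 0) (nat_lit 0)) (xb (xa (xb (xa T2.l13 T2.l13) (xa T2.l13 T2.l13)) (xb (xa (xc T2.l13 T2.l13) (xk T2.l13 T2.l13)) (xa T2.l13 T2.l13))) (xa (xb (xa T2.l13 T2.l13) (xa (xc (xb T2.l13 T2.l13) T2.l13) T2.l13)) (xb (xa T2.l13 T2.l13) (xa T2.l13 T2.l13))))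
  (TrL.c (I.pos (nat_lit 0) (nat_lit 0)) (xb (xk (xa T0.l8 T0.l8) (xa T0.l8 T0.l8)) (xk (xa T0.l8 T0.l8) (xa T0.l8 T0.l8)))
  (TrL.c (I.pos (nat_lit 0) (nat_lit 111196574)) (xR T2.l9 (xR T2.l9 T2.l4))
  (TrL.c (I.pos (nat_lit 0) (nat_lit 77433728)) (xR T0.l9 (xR T0.l9 T0.l9))
  (TrL.c (I.pos (nat_lit 0) (nat_lit 0)) (xb (xk (xa (xb (xk T0.l13 T0.l13) T0.l13) (xk (xb T0.l13 T0.l13) (xb T0.l13 T0.l13))) (xa (xb T0.l13 T0.l13) (xb (xk T0.l13 T0.l13) (xk T0.l13 T0.l13)))) (xk (xa T0.l13 T0.l13) (xa T0.l13 T0.l13)))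
  (TrL.c (I.pos (nat_lit 0) (nat_lit 0)) (xk T2.l10 T2.l10)
  (TrL.c (I.mix (nat_lit 29511666) (nat_lit 77433728)) (xR T0.l11 (xR T0.l11 T0.l1))
  (TrL.c (I.mix (nat_lit 29511666) (nat_lit 46070178)) (xR T2.l11 T2.l2)
  TrL.n)))))))) (by decide +kernel)
theorem bx2_6 : BoxOK sI cl7 cl7 cl4 t2 t0 b2_6 :=
  box_mk (TrL.c (I.pos (nat_lit 0) (nat_lit 0)) (xa T2.l12 T2.l0)
  (TrL.c (I.pos (nat_lit 0) (nat_lit 0)) T0.l8
  (TrL.c (I.pos (nat_lit 0) (nat_lit 111196574)) (xR T2.l9 T2.l9)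
  (TrL.c (I.pos (nat_lit 0) (nat_lit 77433728)) (xR T0.l9 T0.l9)
  (TrL.c (I.pos (nat_lit 0) (nat_lit 0)) (xk (xa T0.l12 T0.l12) (xa T0.l12 T0.l12))
  (TrL.c (I.pos (nat_lit 0) (nat_lit 0)) T2.l10
  (TrL.c (I.mix (nat_lit 29511666) (nat_lit 77433728)) (xR T0.l11 T0.l11)
  (TrL.c (I.mix (nat_lit 29511666) (nat_lit 46070178)) T2.l11
  TrL.n)))))))) (by decide +kernel)
theorem bx2_7 : BoxOK sI cl7 cl7 cl4 t2 t0 b2_7 :=
  box_mk (TrL.c (I.pos (nat_lit 0) (nat_lit 0)) (xa (xa T2.l12 T2.l12) T2.l12)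
  (TrL.c (I.pos (nat_lit 0) (nat_lit 0)) (xa (xa T0.l12 T0.l8) T0.l8)
  (TrL.c (I.pos (nat_lit 0) (nat_lit 111196574)) T2.l9
  (TrL.c (I.pos (nat_lit 0) (nat_lit 77433728)) (xR T0.l9 T0.l9)
  (TrL.c (I.pos (nat_lit 0) (nat_lit 0)) (xa T0.l8 T0.l12)
  (TrL.c (I.pos (nat_lit 0) (nat_lit 0)) T2.l10
  (TrL.c (I.mix (nat_lit 29511666) (nat_lit 77433728)) (xR T0.l11 (xR T0.l11 (xa T0.l11 T0.l11)))
  (TrL.c (I.mix (nat_lit 29511666) (nat_lit 46070178)) T2.l11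
  TrL.n)))))))) (by decide +kernel)
theorem bx2_8 : BoxOK sI cl7 cl7 cl4 t2 t0 b2_8 :=
  box_mk (TrL.c (I.pos (nat_lit 0) (nat_lit 0)) (xa T2.l0 T2.l13)
  (TrL.c (I.pos (nat_lit 0) (nat_lit 0)) T0.l8
  (TrL.c (I.pos (nat_lit 0) (nat_lit 111196574)) (xR T2.l9 T2.l9)
  (TrL.c (I.pos (nat_lit 0) (nat_lit 77433728)) (xR T0.l9 T0.l9)
  (TrL.c (I.pos (nat_lit 0) (nat_lit 0)) (xk T0.l13 T0.l13)
  (TrL.c (I.pos (nat_lit 0) (nat_lit 0)) T2.l10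
  (TrL.c (I.mix (nat_lit 29511666) (nat_lit 77433728)) (xR T0.l11 T0.l11)
  (TrL.c (I.mix (nat_lit 29511666) (nat_lit 46070178)) T2.l11
  TrL.n)))))))) (by decide +kernel)
theorem bx2_9 : BoxOK sI cl7 cl7 cl4 t2 t0 b2_9 :=
  box_mk (TrL.c (I.pos (nat_lit 0) (nat_lit 0)) (xa (xa (xb T2.l12 (xa T2.l12 T2.l12)) T2.l12) (xa (xb T2.l12 (xa T2.l12 T2.l12)) (xa (xb T2.l12 T2.l12) (xb T2.l12 (xb T2.l12 (xa T2.l12 T2.l12))))))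
  (TrL.c (I.pos (nat_lit 0) (nat_lit 0)) (xa (xa (xb T0.l8 (xk T0.l8 T0.l8)) T0.l8) (xa T0.l8 (xb T0.l8 T0.l8)))
  (TrL.c (I.pos (nat_lit 0) (nat_lit 111196574)) (xR T2.l9 T2.l9)
  (TrL.c (I.pos (nat_lit 0) (nat_lit 77433728)) (xR T0.l9 T0.l9)
  (TrL.c (I.pos (nat_lit 0) (nat_lit 0)) (xa (xa T0.l8 T0.l12) (xa T0.l12 T0.l12))
  (TrL.c (I.pos (nat_lit 0) (nat_lit 0)) T2.l10
  (TrL.c (I.mix (nat_lit 29511666) (nat_lit 77433728)) (xR T0.l11 (xR T0.l11 (xa T0.l11 T0.l11)))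
  (TrL.c (I.mix (nat_lit 29511666) (nat_lit 46070178)) T2.l11
  TrL.n)))))))) (by decide +kernel)
theorem bx2_10 : BoxOK sI cl7 cl7 cl4 t2 t0 b2_10 :=
  box_mk (TrL.c (I.pos (nat_lit 0) (nat_lit 0)) (xb (xa (xb T2.l12 T2.l12) (xb T2.l12 T2.l12)) (xa (xb T2.l12 T2.l12) (xb T2.l12 T2.l12)))
  (TrL.c (I.pos (nat_lit 0) (nat_lit 0)) (xb (xa T0.l8 T0.l8) T0.l8)
  (TrL.c (I.pos (nat_lit 0) (nat_lit 111196574)) (xR T2.l9 T2.l9)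
  (TrL.c (I.pos (nat_lit 0) (nat_lit 77433728)) (xR T0.l9 T0.l9)
  (TrL.c (I.pos (nat_lit 0) (nat_lit 0)) (xb (xa (xk (xb (xa T0.l12 T0.l12) T0.l12) (xb (xa T0.l12 T0.l12) T0.l12)) (xk (xb (xa T0.l12 T0.l12) T0.l12) (xb (xa T0.l12 T0.l12) T0.l12))) (xa (xb (xk T0.l12 T0.l12) (xk T0.l12 T0.l12)) (xk T0.l13 (xb T0.l12 T0.l12))))
  (TrL.c (I.pos (nat_lit 0) (nat_lit 0)) T2.l10
  (TrL.c (I.mix (nat_lit 29511666) (nat_lit 77433728)) (xR T0.l11 T0.l11)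
  (TrL.c (I.mix (nat_lit 29511666) (nat_lit 46070178)) T2.l11
  TrL.n)))))))) (by decide +kernel)
theorem bx2_11 : BoxOK sI cl7 cl7 cl4 t2 t0 b2_11 :=
  box_mk (TrL.c (I.pos (nat_lit 0) (nat_lit 0)) (xa (xa (xb (xa (xb (xa T2.l12 T2.l12) T2.l12) T2.l12) T2.l12) T2.l12) T2.l12)
  (TrL.c (I.pos (nat_lit 0) (nat_lit 0)) (xa T0.l12 (xa T0.l8 T0.l8))
  (TrL.c (I.pos (nat_lit 0) (nat_lit 111196574)) (xR T2.l9 (xR T2.l9 (xa T2.l9 T2.l9)))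
  (TrL.c (I.pos (nat_lit 0) (nat_lit 77433728)) (xR T0.l9 (xR T0.l9 T0.l9))
  (TrL.c (I.pos (nat_lit 0) (nat_lit 0)) (xa (xa T0.l8 (xb (xk T0.l12 T0.l12) T0.l12)) (xa (xb (xk T0.l12 T0.l12) T0.l12) T0.l12))
  (TrL.c (I.pos (nat_lit 0) (nat_lit 0)) T2.l10
  (TrL.c (I.mix (nat_lit 29511666) (nat_lit 77433728)) (xR T0.l11 (xR T0.l11 (xa T0.l11 T0.l11)))
  (TrL.c (I.mix (nat_lit 29511666) (nat_lit 46070178)) T2.l11
  TrL.n)))))))) (by decide +kernel)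
def rc2_12_0_l : Tr := (xb (xa (xb (xa (xc T2.l13 (xb T2.l0 T2.l0)) (xc (xb T2.l0 T2.l0) T2.l0)) (xa (xc T2.l13 (xb T2.l0 T2.l0)) (xc T2.l0 T2.l0))) (xb (xa (xc T2.l0 T2.l0) (xc T2.l0 T2.l0)) (xa (xc T2.l0 T2.l0) (xc T2.l0 T2.l0)))) (xa (xb (xa (xc (xb T2.l0 T2.l0) (xb T2.l0 T2.l0)) (xc (xb T2.l0 T2.l0) (xb T2.l0 T2.l0))) (xa (xc (xb (xk T2.l0 T2.l0) (xa T2.l0 T2.l0)) (xb (xk T2.l0 T2.l0) (xk T2.l0 (xa T2.l0 T2.l0)))) (xc (xb (xk T2.l0 T2.l0) (xk T2.l0 T2.l0)) (xb (xk T2.l0 T2.l0) (xk T2.l0 T2.l0))))) (xb (xa (xc (xb T2.l0 T2.l0) (xb T2.l0 T2.l0)) (xc (xb T2.l0 T2.l0) (xk T2.l0 T2.l0))) (xa (xc (xb (xk T2.l0 T2.l0) (xk T2.l0 T2.l0)) (xb (xk T2.l0 T2.l0) (xk T2.l0 T2.l0))) (xc (xb T2.l0 (xk T2.l0 T2.l0)) (xb (xk T2.l0 T2.l0) (xk T2.l0 T2.l0)))))))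
theorem qc2_12_0_l : chkTr (tg true true false RT.r2) b2_12 t2 rc2_12_0_l
  (upd lo Co.a (rc sI cl7 cl7 cl4 b2_12 (I.pos (nat_lit 0) (nat_lit 0)))) = true := by decide +kernel
def rc2_12_0_r : Tr := (xb (xa (xb (xa (xc T2.l0 T2.l0) (xc T2.l0 T2.l0)) (xa (xc T2.l0 T2.l0) (xc T2.l0 T2.l0))) (xb (xa (xc T2.l0 T2.l0) (xc T2.l0 T2.l0)) (xa (xc T2.l0 T2.l0) (xc T2.l0 T2.l0)))) (xa (xb (xa (xc (xk T2.l0 T2.l0) (xk T2.l0 T2.l0)) (xc (xk T2.l0 T2.l0) (xk T2.l0 T2.l0))) (xa (xc (xb T2.l0 (xk T2.l0 T2.l0)) (xk (xb T2.l0 T2.l0) (xb T2.l0 T2.l0))) (xc (xk (xb T2.l0 T2.l0) (xb T2.l0 T2.l0)) (xk T2.l3 (xb T2.l0 T2.l0))))) (xb (xa (xc T2.l3 (xk T2.l0 T2.l0)) (xc (xk T2.l0 T2.l0) (xk T2.l0 T2.l0))) (xa (xc (xk T2.l3 T2.l3) (xk (xb T2.l0 T2.l0) T2.l3)) (xc (xk (xb T2.l0 T2.l0) T2.l0) (xk (xb T2.l0 T2.l0) (xb T2.l0 T2.l0)))))))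
theorem qc2_12_0_r : chkTr (tg true true false RT.r2) b2_12 t2 rc2_12_0_r
  (upd hi Co.a (rc sI cl7 cl7 cl4 b2_12 (I.pos (nat_lit 0) (nat_lit 0)))) = true := by decide +kernel
theorem qc2_12_0_ : chkTr (tg true true false RT.r2) b2_12 t2 (Tr.N Co.a rc2_12_0_l rc2_12_0_r)
  (rc sI cl7 cl7 cl4 b2_12 (I.pos (nat_lit 0) (nat_lit 0))) = true := tr_split qc2_12_0_l qc2_12_0_r
theorem c2_12_0 : chkTag sI cl7 cl7 cl4 t2 b2_12 (tg true true false RT.r2) (I.pos (nat_lit 0) (nat_lit 0))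
  (Tr.N Co.a rc2_12_0_l rc2_12_0_r) = true := tag_mk (by decide +kernel) qc2_12_0_
theorem c2_12_1 : chkTag sI cl7 cl7 cl4 t0 b2_12 (tg true false false RT.r3) (I.pos (nat_lit 0) (nat_lit 0))
  (xa (xb (xk (xa (xb T0.l8 T0.l8) T0.l2) (xa (xb T0.l8 T0.l8) (xb T0.l8 T0.l8))) (xk (xa (xb T0.l8 (xk T0.l8 T0.l8)) (xb T0.l2 T0.l2)) (xa (xb T0.l8 T0.l8) (xb T0.l8 (xk T0.l8 T0.l8))))) (xb (xk (xa T0.l2 (xb T0.l2 T0.l2)) (xa T0.l2 T0.l2)) (xk (xa T0.l2 (xb T0.l2 T0.l2)) (xa (xb T0.l8 T0.l2) T0.l2)))) = true := by decide +kernel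
theorem c2_12_2 : chkTag sI cl7 cl7 cl4 t2 b2_12 (Tag.mk true true false RT.tl RT.r4) (I.pos (nat_lit 0) (nat_lit 111196574))
  (xR (xR T2.l9 T2.l9) (xR T2.l4 (xR T2.l4 T2.l4))) = true := by decide +kernel
theorem c2_12_3 : chkTag sI cl7 cl7 cl4 t0 b2_12 (Tag.mk true false false RT.tl RT.r5) (I.pos (nat_lit 0) (nat_lit 77433728))
  (xR (xR T0.l9 T0.l9) (xR (xR T0.l9 T0.l9) (xa (xR T0.l9 T0.l9) (xR T0.l9 (xk T0.l9 T0.l9))))) = true := by decide +kernel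
def rc2_12_4_l : Tr := (xb (xk (xa (xb (xk (xa T0.l10 T0.l10) (xa T0.l10 T0.l10)) T0.l10) (xb (xk (xa T0.l10 T0.l10) (xa T0.l10 T0.l10)) T0.l10)) (xa (xb (xk T0.l10 T0.l10) T0.l10) (xb (xk (xa T0.l10 T0.l10) (xa T0.l10 T0.l10)) T0.l10))) (xk (xa T0.l10 T0.l10) (xa T0.l10 T0.l10)))
theorem qc2_12_4_l : chkTr (tg false false false RT.r3) b2_12 t0 rc2_12_4_l
  (upd lo Co.a (rc sI cl7 cl7 cl4 b2_12 (I.pos (nat_lit 0) (nat_lit 0)))) = true := by decide +kernel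
def rc2_12_4_r : Tr := (xb (xk (xa (xb (xk (xa T0.l10 T0.l10) (xa T0.l10 T0.l10)) (xk T0.l10 T0.l10)) (xb (xk (xa (xb (xk T0.l10 T0.l10) T0.l10) (xb (xk T0.l10 T0.l10) T0.l10)) (xa (xb (xk T0.l10 T0.l10) T0.l10) (xb (xk T0.l10 T0.l10) T0.l10))) (xk (xa T0.l10 (xb T0.l10 T0.l10)) (xa T0.l10 (xb T0.l10 T0.l10))))) (xa (xb (xk (xa T0.l10 T0.l10) (xa T0.l10 T0.l10)) T0.l10) (xb (xk (xa (xb T0.l10 T0.l10) (xb (xk T0.l10 T0.l10) T0.l10)) (xa (xb T0.l10 T0.l10) (xb (xk T0.l10 T0.l10) T0.l10))) (xk (xa T0.l10 (xb T0.l10 T0.l10)) (xa T0.l10 (xb T0.l10 T0.l10)))))) (xk (xa (xb (xk T0.l10 T0.l10) (xk T0.l10 T0.l10)) (xb (xk (xa T0.l10 (xb T0.l10 (xk T0.l10 T0.l10))) (xa T0.l10 (xb T0.l10 (xk T0.l10 T0.l10)))) (xk (xa (xb T0.l10 T0.l10) (xb (xk T0.l10 T0.l10) (xk T0.l10 T0.l10))) (xa (xb T0.l10 T0.l10) (xb (xk T0.l10 T0.l10) (xk T0.l10 T0.l10))))))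 (xa (xb (xk T0.l10 T0.l10) (xk T0.l10 T0.l10)) (xb (xk (xa T0.l10 (xb T0.l10 T0.l10)) (xa T0.l10 (xb T0.l10 (xk T0.l10 T0.l10)))) (xk (xa (xb T0.l10 T0.l10) (xb (xk T0.l10 T0.l10) (xk T0.l10 T0.l10))) (xa (xb T0.l10 T0.l10) (xb (xk T0.l10 T0.l10) (xk T0.l10 T0.l10))))))))
theorem qc2_12_4_r : chkTr (tg false false false RT.r3) b2_12 t0 rc2_12_4_r
  (upd hi Co.a (rc sI cl7 cl7 cl4 b2_12 (I.pos (nat_lit 0) (nat_lit 0)))) = true := by decide +kernel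
theorem qc2_12_4_ : chkTr (tg false false false RT.r3) b2_12 t0 (Tr.N Co.a rc2_12_4_l rc2_12_4_r)
  (rc sI cl7 cl7 cl4 b2_12 (I.pos (nat_lit 0) (nat_lit 0))) = true := tr_split qc2_12_4_l qc2_12_4_r
theorem c2_12_4 : chkTag sI cl7 cl7 cl4 t0 b2_12 (tg false false false RT.r3) (I.pos (nat_lit 0) (nat_lit 0))
  (Tr.N Co.a rc2_12_4_l rc2_12_4_r) = true := tag_mk (by decide +kernel) qc2_12_4_
theorem c2_12_5 : chkTag sI cl7 cl7 cl4 t2 b2_12 (tg false true false RT.r4) (I.pos (nat_lit 0) (nat_lit 0))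
  (xa (xk (xb T2.l1 T2.l10) (xb T2.l10 T2.l10)) (xk (xb (xa T2.l1 (xk (xb T2.l1 T2.l10) (xb T2.l10 T2.l10))) (xa T2.l10 (xk (xb T2.l10 T2.l10) (xb T2.l10 T2.l10)))) (xb (xa T2.l1 (xk T2.l10 T2.l10)) (xa T2.l10 (xk T2.l10 T2.l10))))) = true := by decide +kernel
theorem c2_12_6 : chkTag sI cl7 cl7 cl4 t0 b2_12 (Tag.mk false false false RT.tl RT.r5) (I.mix (nat_lit 29511666) (nat_lit 77433728))
  (xR (xR T0.l11 T0.l11) (xR T0.l1 (xR T0.l1 (xk (xa T0.l11 (xb T0.l11 T0.l11)) (xa T0.l11 T0.l11))))) = true := by decide +kernel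
theorem c2_12_7 : chkTag sI cl7 cl7 cl4 t2 b2_12 (Tag.mk false true false RT.tl RT.r6) (I.mix (nat_lit 29511666) (nat_lit 46070178))
  (xR (xR T2.l11 T2.l11) (xR T2.l11 T2.l2)) = true := by decide +kernel
theorem bx2_12 : BoxOK sI cl7 cl7 cl4 t2 t0 b2_12 :=
  box_mk' [(tg true true false RT.r2), (tg true false false RT.r3), (Tag.mk true true false RT.tl RT.r4), (Tag.mk true false false RT.tl RT.r5), (tg false false false RT.r3), (tg false true false RT.r4), (Tag.mk false false false RT.tl RT.r5), (Tag.mk false true false RT.tl RT.r6)] rfl (allL_c (ex_mk c2_12_0) (allL_c (ex_mk c2_12_1) (allL_c (ex_mk c2_12_2) (allL_c (ex_mk c2_12_3) (allL_c (ex_mk c2_12_4) (allL_c (ex_mk c2_12_5) (allL_c (ex_mk c2_12_6) (allL_c (ex_mk c2_12_7) allL_n))))))))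
theorem bx2_13 : BoxOK sI cl7 cl7 cl4 t2 t0 b2_13 :=
  box_mk (TrL.c (I.pos (nat_lit 0) (nat_lit 0)) (xa (xb (xa (xb T2.l0 T2.l0) (xb T2.l0 T2.l0)) (xa (xb (xk T2.l0 T2.l0) (xk (xa T2.l0 T2.l0) (xa T2.l0 T2.l0))) (xb (xk T2.l0 T2.l0) (xk T2.l0 T2.l0)))) (xb (xa (xb T2.l0 T2.l0) (xb T2.l0 T2.l0)) (xa (xb (xk T2.l0 T2.l0) (xk T2.l0 T2.l0)) (xb (xk T2.l0 T2.l0) (xk T2.l0 T2.l0)))))
  (TrL.c (I.pos (nat_lit 0) (nat_lit 0)) (xk (xa (xb T0.l8 T0.l8) (xb T0.l8 T0.l8)) (xa (xb T0.l8 T0.l8) (xb T0.l8 T0.l8)))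
  (TrL.c (I.pos (nat_lit 0) (nat_lit 111196574)) (xR T2.l9 (xR T2.l9 T2.l4))
  (TrL.c (I.pos (nat_lit 0) (nat_lit 77433728)) (xR T0.l9 (xR T0.l9 T0.l9))
  (TrL.c (I.pos (nat_lit 0) (nat_lit 0)) (xk (xa T0.l10 T0.l10) T0.l10)
  (TrL.c (I.pos (nat_lit 0) (nat_lit 0)) T2.l10
  (TrL.c (I.mix (nat_lit 29511666) (nat_lit 77433728)) (xR T0.l11 (xR T0.l11 T0.l11))
  (TrL.c (I.mix (nat_lit 29511666) (nat_lit 46070178)) (xR T2.l11 T2.l2)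
  TrL.n)))))))) (by decide +kernel)
theorem sv2 : StarV sI cl7 cl7 cl4 t2 t0 t2 :=
  (bt_n (bt_n (bt_n (bt_b bx2_0) (bt_n (bt_b bx2_1) (bt_b bx2_2))) (bt_n (bt_n (bt_b bx2_3) (bt_b bx2_4)) (bt_n (bt_b bx2_5) (bt_b bx2_6)))) (bt_n (bt_n (bt_b bx2_7) (bt_n (bt_b bx2_8) (bt_b bx2_9))) (bt_n (bt_n (bt_b bx2_10) (bt_b bx2_11)) (bt_n (bt_b bx2_12) (bt_b bx2_13)))))
def S2 : StarD := StarD.mk cl7 cl7 cl4 2 0 t2
def G : List StarD := [S0, S1, S2]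
theorem so0 : StarOK sI G S0 :=
  star_mk (by decide) (by decide) rfl rfl rfl rfl rfl rfl (rfl : _ = t1) (rfl : _ = t1)
  (st_mk (Pth.l (Pth.l (Pth.l Pth.z))) (nat_lit 146736980) (nat_lit 170599728) (by decide +kernel))
  (st_mk (Pth.l (Pth.l (Pth.l Pth.z))) (nat_lit 185596472) (nat_lit 210254894) (by decide +kernel))
  (st_mk (Pth.l (Pth.l (Pth.l Pth.z))) (nat_lit 231753947) (nat_lit 257501946) (by decide +kernel)) sv0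
theorem so1 : StarOK sI G S1 :=
  star_mk (by decide) (by decide) rfl rfl rfl rfl rfl rfl (rfl : _ = t0) (rfl : _ = t2)
  (st_mk (Pth.l (Pth.l (Pth.l Pth.z))) (nat_lit 371439349) (nat_lit 376334373) (by decide +kernel))
  (st_mk (Pth.l (Pth.l (Pth.l Pth.z))) (nat_lit 407806884) (nat_lit 413396300) (by decide +kernel))
  (st_mk (Pth.l (Pth.l (Pth.l Pth.z))) (nat_lit 449948015) (nat_lit 456431447) (by decide +kernel)) sv1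
theorem so2 : StarOK sI G S2 :=
  star_mk (by decide) (by decide) rfl rfl rfl rfl rfl rfl (rfl : _ = t2) (rfl : _ = t0)
  (st_mk (Pth.l (Pth.l (Pth.l Pth.z))) (nat_lit 141882058) (nat_lit 164833655) (by decide +kernel))
  (st_mk (Pth.l (Pth.l (Pth.l Pth.z))) (nat_lit 177834111) (nat_lit 201356578) (by decide +kernel))
  (st_mk (Pth.l (Pth.l (Pth.l Pth.z))) (nat_lit 219619460) (nat_lit 243933401) (by decide +kernel)) sv2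
theorem ok : GroupOK (nat_lit 238878720) (nat_lit 268435456) G := grp_mk (allS_c so0 (allS_c so1 (allS_c so2 allS_n)))
theorem cov : GCov G cl4 cl7 cl7 := cov_mk
  ⟨0, by decide, rfl, rfl, rfl⟩ ⟨0, by decide, rfl, rfl, rfl⟩ ⟨1, by decide, rfl, rfl, rfl⟩ ⟨2, by decide, rfl, rfl, rfl⟩ ⟨1, by decide, rfl, rfl, rfl⟩ ⟨2, by decide, rfl, rfl, rfl⟩
end Q144_4

namespace Q145_0
def sI : I := I.pos (nat_lit 0) (nat_lit 91291648)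
def b0_0 : Bx := Bx.mk (St.mk (I.pos (nat_lit 157515776) (nat_lit 263897088)) (I.mix (nat_lit 27885568) (nat_lit 67207168)) (I.mix (nat_lit 122568704) (nat_lit 72744960)) (I.pos (nat_lit 139558912) (nat_lit 335036416)) (I.mix (nat_lit 92946432) (nat_lit 73744384)) (I.mix (nat_lit 94142464) (nat_lit 80363520)) (I.mix (nat_lit 154583040) (nat_lit 166838272)))
  false (nat_lit 0)
def b0_1 : Bx := Bx.mk (St.mk (I.mix (nat_lit 19791872) (nat_lit 115769344)) (I.mix (nat_lit 10846208) (nat_lit 36454400)) (I.mix (nat_lit 31506432) (nat_lit 7110656)) (I.pos (nat_lit 41140224) (nat_lit 113442816)) (I.mix (nat_lit 30785536) (nat_lit 35995648)) (I.mix (nat_lit 38076416) (nat_lit 27590656)) (I.mix (nat_lit 28704768) (nat_lit 21676032)))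
  false (nat_lit 0)
def b0_2 : Bx := Bx.mk (St.mk (I.pos (nat_lit 96681984) (nat_lit 137134080)) (I.mix (nat_lit 56246272) (nat_lit 12206080)) (I.neg (nat_lit 7520256) (nat_lit 70959104)) (I.pos (nat_lit 80658432) (nat_lit 131678208)) (I.mix (nat_lit 90963968) (nat_lit 28606464)) (I.mix (nat_lit 50872320) (nat_lit 94666752)) (I.mix (nat_lit 36077568) (nat_lit 78233600)))
  false (nat_lit 0)
def b0_3 : Bx := Bx.mk (St.mk (I.mix (nat_lit 33046528) (nat_lit 66551808)) (I.mix (nat_lit 30916608) (nat_lit 6324224)) (I.neg (nat_lit 3604480) (nat_lit 28164096)) (I.pos (nat_lit 42123264) (nat_lit 80691200)) (I.mix (nat_lit 36241408) (nat_lit 14434304)) (I.mix (nat_lit 20185088) (nat_lit 31604736)) (I.mix (nat_lit 9453568) (nat_lit 14958592)))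
  false (nat_lit 0)
def b0_4 : Bx := Bx.mk (St.mk (I.pos (nat_lit 91160576) (nat_lit 112230400)) (I.mix (nat_lit 9961472) (nat_lit 9109504)) (I.neg (nat_lit 8978432) (nat_lit 30900224)) (I.pos (nat_lit 77496320) (nat_lit 112017408)) (I.mix (nat_lit 25903104) (nat_lit 17989632)) (I.mix (nat_lit 20873216) (nat_lit 23003136)) (I.mix (nat_lit 15892480) (nat_lit 20889600)))
  false (nat_lit 0)
def b0_5 : Bx := Bx.mk (St.mk (I.mix (nat_lit 40271872) (nat_lit 49610752)) (I.mix (nat_lit 6275072) (nat_lit 8585216)) (I.neg (nat_lit 6668288) (nat_lit 17367040)) (I.pos (nat_lit 43548672) (nat_lit 73318400)) (I.mix (nat_lit 14532608) (nat_lit 11173888)) (I.mix (nat_lit 12042240) (nat_lit 14794752)) (I.mix (nat_lit 4161536) (nat_lit 4358144)))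
  false (nat_lit 0)
def b0_6 : Bx := Bx.mk (St.mk (I.pos (nat_lit 97730560) (nat_lit 170344448)) (I.mix (nat_lit 59277312) (nat_lit 2228224)) (I.neg (nat_lit 14270464) (nat_lit 75087872)) (I.pos (nat_lit 92930048) (nat_lit 174964736)) (I.mix (nat_lit 80216064) (nat_lit 49692672)) (I.mix (nat_lit 51167232) (nat_lit 81395712)) (I.mix (nat_lit 42188800) (nat_lit 79134720)))
  false (nat_lit 0)
def b0_7 : Bx := Bx.mk (St.mk (I.mix (nat_lit 25821184) (nat_lit 82837504)) (I.mix (nat_lit 34209792) (nat_lit 5898240)) (I.neg (nat_lit 3801088) (nat_lit 31604736)) (I.pos (nat_lit 40681472) (nat_lit 90046464)) (I.mix (nat_lit 38928384) (nat_lit 29360128)) (I.mix (nat_lit 25051136) (nat_lit 44531712)) (I.mix (nat_lit 13795328) (nat_lit 25362432)))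
  false (nat_lit 0)
def b0_8 : Bx := Bx.mk (St.mk (I.mix (nat_lit 36077568) (nat_lit 112541696)) (I.mix (nat_lit 13877248) (nat_lit 37208064)) (I.mix (nat_lit 22511616) (nat_lit 10190848)) (I.pos (nat_lit 40435712) (nat_lit 109264896)) (I.mix (nat_lit 42303488) (nat_lit 32489472)) (I.mix (nat_lit 53624832) (nat_lit 38223872)) (I.mix (nat_lit 29245440) (nat_lit 20365312)))
  false (nat_lit 0)
def b0_9 : Bx := Bx.mk (St.mk (I.pos (nat_lit 143802368) (nat_lit 224378880)) (I.mix (nat_lit 45056000) (nat_lit 72679424)) (I.mix (nat_lit 72220672) (nat_lit 77873152)) (I.pos (nat_lit 128499712) (nat_lit 252035072)) (I.mix (nat_lit 137068544) (nat_lit 66207744)) (I.mix (nat_lit 169115648) (nat_lit 99188736)) (I.mix (nat_lit 179044352) (nat_lit 104103936)))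
  false (nat_lit 0)
def t0 : BTr := (BTr.n (BTr.n (BTr.n (BTr.b b0_0) (BTr.b b0_1)) (BTr.n (BTr.b b0_2) (BTr.n (BTr.b b0_3) (BTr.b b0_4)))) (BTr.n (BTr.n (BTr.b b0_5) (BTr.b b0_6)) (BTr.n (BTr.b b0_7) (BTr.n (BTr.b b0_8) (BTr.b b0_9)))))
namespace T0
def l0 : Tr := Tr.L (Pth.l (Pth.l (Pth.l Pth.z)))
def l1 : Tr := Tr.L (Pth.l (Pth.l (Pth.r Pth.z)))
def l2 : Tr := Tr.L (Pth.l (Pth.r (Pth.l Pth.z)))
def l3 : Tr := Tr.L (Pth.l (Pth.r (Pth.r (Pth.l Pth.z))))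
def l4 : Tr := Tr.L (Pth.l (Pth.r (Pth.r (Pth.r Pth.z))))
def l5 : Tr := Tr.L (Pth.r (Pth.l (Pth.l Pth.z)))
def l6 : Tr := Tr.L (Pth.r (Pth.l (Pth.r Pth.z)))
def l7 : Tr := Tr.L (Pth.r (Pth.r (Pth.l Pth.z)))
def l8 : Tr := Tr.L (Pth.r (Pth.r (Pth.r (Pth.l Pth.z))))
def l9 : Tr := Tr.L (Pth.r (Pth.r (Pth.r (Pth.r Pth.z))))
end T0
def b1_0 : Bx := Bx.mk (St.mk (I.pos (nat_lit 157548544) (nat_lit 262782976)) (I.mix (nat_lit 26394624) (nat_lit 64290816)) (I.mix (nat_lit 99696640) (nat_lit 83410944)) (I.pos (nat_lit 112001024) (nat_lit 304283648)) (I.mix (nat_lit 102121472) (nat_lit 69599232)) (I.mix (nat_lit 92635136) (nat_lit 73613312)) (I.mix (nat_lit 151355392) (nat_lit 149241856)))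
  false (nat_lit 0)
def b1_1 : Bx := Bx.mk (St.mk (I.mix (nat_lit 14385152) (nat_lit 128696320)) (I.mix (nat_lit 9240576) (nat_lit 30703616)) (I.mix (nat_lit 23756800) (nat_lit 12500992)) (I.pos (nat_lit 15319040) (nat_lit 97173504)) (I.mix (nat_lit 25985024) (nat_lit 30408704)) (I.mix (nat_lit 32931840) (nat_lit 23248896)) (I.mix (nat_lit 27066368) (nat_lit 19709952)))
  false (nat_lit 0)
def b1_2 : Bx := Bx.mk (St.mk (I.pos (nat_lit 110526464) (nat_lit 149979136)) (I.mix (nat_lit 54132736) (nat_lit 10747904)) (I.neg (nat_lit 2457600) (nat_lit 68878336)) (I.pos (nat_lit 65421312) (nat_lit 119848960)) (I.mix (nat_lit 94371840) (nat_lit 29540352)) (I.mix (nat_lit 52772864) (nat_lit 104398848)) (I.mix (nat_lit 40419328) (nat_lit 94650368)))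
  false (nat_lit 0)
def b1_3 : Bx := Bx.mk (St.mk (I.mix (nat_lit 20267008) (nat_lit 89554944)) (I.mix (nat_lit 26525696) (nat_lit 3653632)) (I.neg (nat_lit 737280) (nat_lit 25034752)) (I.pos (nat_lit 16531456) (nat_lit 65912832)) (I.mix (nat_lit 35930112) (nat_lit 13942784)) (I.mix (nat_lit 21512192) (nat_lit 35487744)) (I.mix (nat_lit 11616256) (nat_lit 20086784)))
  false (nat_lit 0)
def b1_4 : Bx := Bx.mk (St.mk (I.mix (nat_lit 25231360) (nat_lit 75284480)) (I.mix (nat_lit 4964352) (nat_lit 5095424)) (I.neg (nat_lit 1703936) (nat_lit 12075008)) (I.pos (nat_lit 17154048) (nat_lit 57409536)) (I.mix (nat_lit 9830400) (nat_lit 5275648)) (I.mix (nat_lit 5603328) (nat_lit 5963776)) (I.mix (nat_lit 2899968) (nat_lit 3866624)))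
  false (nat_lit 0)
def b1_5 : Bx := Bx.mk (St.mk (I.pos (nat_lit 105218048) (nat_lit 125108224)) (I.mix (nat_lit 8634368) (nat_lit 7602176)) (I.neg (nat_lit 4227072) (nat_lit 23248896)) (I.pos (nat_lit 62193664) (nat_lit 95715328)) (I.mix (nat_lit 23330816) (nat_lit 14467072)) (I.mix (nat_lit 17629184) (nat_lit 20217856)) (I.mix (nat_lit 14614528) (nat_lit 19447808)))
  false (nat_lit 0)
def b1_6 : Bx := Bx.mk (St.mk (I.pos (nat_lit 111738880) (nat_lit 178307072)) (I.mix (nat_lit 56262656) (nat_lit 1163264)) (I.neg (nat_lit 10633216) (nat_lit 68648960)) (I.pos (nat_lit 80084992) (nat_lit 157663232)) (I.mix (nat_lit 74612736) (nat_lit 47726592)) (I.mix (nat_lit 51724288) (nat_lit 77119488)) (I.mix (nat_lit 46170112) (nat_lit 79151104)))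
  false (nat_lit 0)
def b1_7 : Bx := Bx.mk (St.mk (I.mix (nat_lit 16990208) (nat_lit 103383040)) (I.mix (nat_lit 29638656) (nat_lit 5881856)) (I.neg (nat_lit 442368) (nat_lit 27328512)) (I.pos (nat_lit 15761408) (nat_lit 75956224)) (I.mix (nat_lit 34406400) (nat_lit 24657920)) (I.mix (nat_lit 21053440) (nat_lit 36421632)) (I.mix (nat_lit 11780096) (nat_lit 23412736)))
  false (nat_lit 0)
def b1_8 : Bx := Bx.mk (St.mk (I.pos (nat_lit 149012480) (nat_lit 224002048)) (I.mix (nat_lit 42319872) (nat_lit 64864256)) (I.mix (nat_lit 62832640) (nat_lit 79659008)) (I.pos (nat_lit 109920256) (nat_lit 224526336)) (I.mix (nat_lit 133562368) (nat_lit 61964288)) (I.mix (nat_lit 167854080) (nat_lit 92110848)) (I.mix (nat_lit 191938560) (nat_lit 102973440)))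
  false (nat_lit 0)
def b1_9 : Bx := Bx.mk (St.mk (I.mix (nat_lit 23724032) (nat_lit 127352832)) (I.mix (nat_lit 14385152) (nat_lit 33800192)) (I.mix (nat_lit 19431424) (nat_lit 16007168)) (I.pos (nat_lit 15499264) (nat_lit 93716480)) (I.mix (nat_lit 44040192) (nat_lit 28688384)) (I.mix (nat_lit 52658176) (nat_lit 35946496)) (I.mix (nat_lit 32047104) (nat_lit 21004288)))
  false (nat_lit 0)
def t1 : BTr := (BTr.n (BTr.n (BTr.n (BTr.b b1_0) (BTr.b b1_1)) (BTr.n (BTr.b b1_2) (BTr.n (BTr.b b1_3) (BTr.b b1_4)))) (BTr.n (BTr.n (BTr.b b1_5) (BTr.b b1_6)) (BTr.n (BTr.b b1_7) (BTr.n (BTr.b b1_8) (BTr.b b1_9)))))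
namespace T1
def l0 : Tr := Tr.L (Pth.l (Pth.l (Pth.l Pth.z)))
def l1 : Tr := Tr.L (Pth.l (Pth.l (Pth.r Pth.z)))
def l2 : Tr := Tr.L (Pth.l (Pth.r (Pth.l Pth.z)))
def l3 : Tr := Tr.L (Pth.l (Pth.r (Pth.r (Pth.l Pth.z))))
def l4 : Tr := Tr.L (Pth.l (Pth.r (Pth.r (Pth.r Pth.z))))
def l5 : Tr := Tr.L (Pth.r (Pth.l (Pth.l Pth.z)))
def l6 : Tr := Tr.L (Pth.r (Pth.l (Pth.r Pth.z)))
def l7 : Tr := Tr.L (Pth.r (Pth.r (Pth.l Pth.z)))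
def l8 : Tr := Tr.L (Pth.r (Pth.r (Pth.r (Pth.l Pth.z))))
def l9 : Tr := Tr.L (Pth.r (Pth.r (Pth.r (Pth.r Pth.z))))
end T1
def b2_0 : Bx := Bx.mk (St.mk (I.pos (nat_lit 151633920) (nat_lit 287129600)) (I.mix (nat_lit 35274752) (nat_lit 95846400)) (I.mix (nat_lit 182943744) (nat_lit 99270656)) (I.pos (nat_lit 361660416) (nat_lit 580124672)) (I.mix (nat_lit 108642304) (nat_lit 100925440)) (I.mix (nat_lit 127696896) (nat_lit 84754432)) (I.mix (nat_lit 186957824) (nat_lit 129138688)))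
  false (nat_lit 119784792)
def b2_1 : Bx := Bx.mk (St.mk (I.mix (nat_lit 60702720) (nat_lit 12533760)) (I.mix (nat_lit 17727488) (nat_lit 91963392)) (I.neg (nat_lit 41533440) (nat_lit 69287936)) (I.pos (nat_lit 265224192) (nat_lit 290455552)) (I.mix (nat_lit 51085312) (nat_lit 94715904)) (I.mix (nat_lit 103907328) (nat_lit 59719680)) (I.mix (nat_lit 33472512) (nat_lit 29016064)))
  true (nat_lit 0)
def b2_2 : Bx := Bx.mk (St.mk (I.mix (nat_lit 12533760) (nat_lit 60702720)) (I.mix (nat_lit 91963392) (nat_lit 17727488)) (I.neg (nat_lit 41533440) (nat_lit 69287936)) (I.pos (nat_lit 265224192) (nat_lit 290455552)) (I.mix (nat_lit 94715904) (nat_lit 51085312)) (I.mix (nat_lit 59719680) (nat_lit 103907328)) (I.mix (nat_lit 33472512) (nat_lit 29016064)))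
  false (nat_lit 0)
def b2_3 : Bx := Bx.mk (St.mk (I.pos (nat_lit 28475392) (nat_lit 121126912)) (I.neg (nat_lit 3866624) (nat_lit 95682560)) (I.mix (nat_lit 86048768) (nat_lit 212992)) (I.pos (nat_lit 265699328) (nat_lit 328630272)) (I.mix (nat_lit 88539136) (nat_lit 67567616)) (I.mix (nat_lit 64700416) (nat_lit 103530496)) (I.mix (nat_lit 65732608) (nat_lit 82788352)))
  false (nat_lit 0)
def b2_4 : Bx := Bx.mk (St.mk (I.pos (nat_lit 97583104) (nat_lit 194854912)) (I.mix (nat_lit 41402368) (nat_lit 101793792)) (I.mix (nat_lit 39583744) (nat_lit 106463232)) (I.pos (nat_lit 303529984) (nat_lit 419528704)) (I.mix (nat_lit 138559488) (nat_lit 76316672)) (I.mix (nat_lit 170475520) (nat_lit 98861056)) (I.mix (nat_lit 167641088) (nat_lit 116834304)))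
  false (nat_lit 81718697)
def b2_5 : Bx := Bx.mk (St.mk (I.neg (nat_lit 28475392) (nat_lit 121077760)) (I.pos (nat_lit 3866624) (nat_lit 95682560)) (I.mix (nat_lit 86065152) (nat_lit 212992)) (I.pos (nat_lit 265682944) (nat_lit 328630272)) (I.mix (nat_lit 67567616) (nat_lit 88539136)) (I.mix (nat_lit 103530496) (nat_lit 64700416)) (I.mix (nat_lit 65781760) (nat_lit 82853888)))
  true (nat_lit 0)
def t2 : BTr := (BTr.n (BTr.n (BTr.b b2_0) (BTr.n (BTr.b b2_1) (BTr.b b2_2))) (BTr.n (BTr.b b2_3) (BTr.n (BTr.b b2_4) (BTr.b b2_5))))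
namespace T2
def l0 : Tr := Tr.L (Pth.l (Pth.l Pth.z))
def l1 : Tr := Tr.L (Pth.l (Pth.r (Pth.l Pth.z)))
def l2 : Tr := Tr.L (Pth.l (Pth.r (Pth.r Pth.z)))
def l3 : Tr := Tr.L (Pth.r (Pth.l Pth.z))
def l4 : Tr := Tr.L (Pth.r (Pth.r (Pth.l Pth.z)))
def l5 : Tr := Tr.L (Pth.r (Pth.r (Pth.r Pth.z)))
end T2
def b3_0 : Bx := Bx.mk (St.mk (I.pos (nat_lit 156975104) (nat_lit 282853376)) (I.mix (nat_lit 22740992) (nat_lit 51920896)) (I.mix (nat_lit 11698176) (nat_lit 119914496)) (I.pos (nat_lit 109330432) (nat_lit 336822272)) (I.mix (nat_lit 105873408) (nat_lit 72531968)) (I.mix (nat_lit 113541120) (nat_lit 82444288)) (I.mix (nat_lit 178798592) (nat_lit 112672768)))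
  false (nat_lit 31895619)
def b3_1 : Bx := Bx.mk (St.mk (I.pos (nat_lit 122634240) (nat_lit 173539328)) (I.neg (nat_lit 4276224) (nat_lit 59703296)) (I.mix (nat_lit 43073536) (nat_lit 18251776)) (I.pos (nat_lit 89587712) (nat_lit 145571840)) (I.mix (nat_lit 65241088) (nat_lit 44728320)) (I.mix (nat_lit 43663360) (nat_lit 63258624)) (I.mix (nat_lit 41402368) (nat_lit 63684608)))
  false (nat_lit 0)
def b3_2 : Bx := Bx.mk (St.mk (I.mix (nat_lit 13090816) (nat_lit 100515840)) (I.mix (nat_lit 29540352) (nat_lit 2949120)) (I.mix (nat_lit 10092544) (nat_lit 12812288)) (I.pos (nat_lit 16072704) (nat_lit 72597504)) (I.mix (nat_lit 23396352) (nat_lit 25690112)) (I.mix (nat_lit 19070976) (nat_lit 26968064)) (I.mix (nat_lit 10911744) (nat_lit 17170432)))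
  false (nat_lit 0)
def b3_3 : Bx := Bx.mk (St.mk (I.pos (nat_lit 159907840) (nat_lit 214876160)) (I.mix (nat_lit 43106304) (nat_lit 59408384)) (I.mix (nat_lit 22249472) (nat_lit 120635392)) (I.pos (nat_lit 118292480) (nat_lit 205406208)) (I.mix (nat_lit 137641984) (nat_lit 54542336)) (I.mix (nat_lit 166543360) (nat_lit 89948160)) (I.mix (nat_lit 211697664) (nat_lit 95535104)))
  false (nat_lit 40273140)
def b3_4 : Bx := Bx.mk (St.mk (I.mix (nat_lit 21413888) (nat_lit 121290752)) (I.mix (nat_lit 14598144) (nat_lit 34144256)) (I.mix (nat_lit 851968) (nat_lit 38223872)) (I.pos (nat_lit 15745024) (nat_lit 88915968)) (I.mix (nat_lit 54394880) (nat_lit 23314432)) (I.mix (nat_lit 57180160) (nat_lit 34783232)) (I.mix (nat_lit 39927808) (nat_lit 21217280)))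
  false (nat_lit 0)
def b3_5 : Bx := Bx.mk (St.mk (I.mix (nat_lit 26230784) (nat_lit 102318080)) (I.mix (nat_lit 15712256) (nat_lit 4538368)) (I.mix (nat_lit 655360) (nat_lit 14467072)) (I.pos (nat_lit 16465920) (nat_lit 74153984)) (I.mix (nat_lit 15007744) (nat_lit 9601024)) (I.mix (nat_lit 11370496) (nat_lit 11173888)) (I.mix (nat_lit 7815168) (nat_lit 6078464)))
  false (nat_lit 0)
def b3_6 : Bx := Bx.mk (St.mk (I.pos (nat_lit 151928832) (nat_lit 177586176)) (I.neg (nat_lit 2326528) (nat_lit 36192256)) (I.mix (nat_lit 12369920) (nat_lit 26394624)) (I.pos (nat_lit 110379008) (nat_lit 152322048)) (I.mix (nat_lit 40599552) (nat_lit 28557312)) (I.mix (nat_lit 30867456) (nat_lit 36470784)) (I.mix (nat_lit 38371328) (nat_lit 35471360)))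
  false (nat_lit 0)
def b3_7 : Bx := Bx.mk (St.mk (I.mix (nat_lit 15433728) (nat_lit 133185536)) (I.mix (nat_lit 8011776) (nat_lit 28213248)) (I.pos (nat_lit 49152) (nat_lit 34947072)) (I.pos (nat_lit 14893056) (nat_lit 100564992)) (I.mix (nat_lit 40665088) (nat_lit 30670848)) (I.mix (nat_lit 45481984) (nat_lit 26804224)) (I.mix (nat_lit 36306944) (nat_lit 18677760)))
  false (nat_lit 0)
def b3_8 : Bx := Bx.mk (St.mk (I.pos (nat_lit 107872256) (nat_lit 159891456)) (I.mix (nat_lit 60227584) (nat_lit 9895936)) (I.mix (nat_lit 41779200) (nat_lit 20611072)) (I.pos (nat_lit 63799296) (nat_lit 129482752)) (I.mix (nat_lit 80265216) (nat_lit 35504128)) (I.mix (nat_lit 51052544) (nat_lit 90505216)) (I.mix (nat_lit 40042496) (nat_lit 69812224)))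
  false (nat_lit 0)
def b3_9 : Bx := Bx.mk (St.mk (I.mix (nat_lit 22413312) (nat_lit 95338496)) (I.mix (nat_lit 28033024) (nat_lit 5210112)) (I.mix (nat_lit 8536064) (nat_lit 9650176)) (I.pos (nat_lit 16334848) (nat_lit 68616192)) (I.mix (nat_lit 27951104) (nat_lit 18677760)) (I.mix (nat_lit 21643264) (nat_lit 33964032)) (I.mix (nat_lit 10469376) (nat_lit 16498688)))
  false (nat_lit 0)
def t3 : BTr := (BTr.n (BTr.n (BTr.n (BTr.b b3_0) (BTr.b b3_1)) (BTr.n (BTr.b b3_2) (BTr.n (BTr.b b3_3) (BTr.b b3_4)))) (BTr.n (BTr.n (BTr.b b3_5) (BTr.b b3_6)) (BTr.n (BTr.b b3_7) (BTr.n (BTr.b b3_8) (BTr.b b3_9)))))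
namespace T3
def l0 : Tr := Tr.L (Pth.l (Pth.l (Pth.l Pth.z)))
def l1 : Tr := Tr.L (Pth.l (Pth.l (Pth.r Pth.z)))
def l2 : Tr := Tr.L (Pth.l (Pth.r (Pth.l Pth.z)))
def l3 : Tr := Tr.L (Pth.l (Pth.r (Pth.r (Pth.l Pth.z))))
def l4 : Tr := Tr.L (Pth.l (Pth.r (Pth.r (Pth.r Pth.z))))
def l5 : Tr := Tr.L (Pth.r (Pth.l (Pth.l Pth.z)))
def l6 : Tr := Tr.L (Pth.r (Pth.l (Pth.r Pth.z)))
def l7 : Tr := Tr.L (Pth.r (Pth.r (Pth.l Pth.z)))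
def l8 : Tr := Tr.L (Pth.r (Pth.r (Pth.r (Pth.l Pth.z))))
def l9 : Tr := Tr.L (Pth.r (Pth.r (Pth.r (Pth.r Pth.z))))
end T3
def b4_0 : Bx := Bx.mk (St.mk (I.pos (nat_lit 142819328) (nat_lit 284819456)) (I.mix (nat_lit 26820608) (nat_lit 93863936)) (I.mix (nat_lit 138280960) (nat_lit 112607232)) (I.pos (nat_lit 359940096) (nat_lit 569851904)) (I.mix (nat_lit 111558656) (nat_lit 102711296)) (I.mix (nat_lit 132251648) (nat_lit 85164032)) (I.mix (nat_lit 189677568) (nat_lit 116129792)))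
  false (nat_lit 136693259)
def b4_1 : Bx := Bx.mk (St.mk (I.pos (nat_lit 33030144) (nat_lit 125403136)) (I.neg (nat_lit 3866624) (nat_lit 95338496)) (I.mix (nat_lit 72941568) (nat_lit 16367616)) (I.pos (nat_lit 267354112) (nat_lit 331071488)) (I.mix (nat_lit 83083264) (nat_lit 68943872)) (I.mix (nat_lit 65028096) (nat_lit 98533376)) (I.mix (nat_lit 63782912) (nat_lit 77807616)))
  false (nat_lit 0)
def b4_2 : Bx := Bx.mk (St.mk (I.pos (nat_lit 94765056) (nat_lit 192217088)) (I.mix (nat_lit 42221568) (nat_lit 100892672)) (I.mix (nat_lit 25133056) (nat_lit 121618432)) (I.pos (nat_lit 300810240) (nat_lit 413663232)) (I.mix (nat_lit 139706368) (nat_lit 74989568)) (I.mix (nat_lit 171180032) (nat_lit 102170624)) (I.mix (nat_lit 166739968) (nat_lit 122568704)))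
  false (nat_lit 105945364)
def b4_3 : Bx := Bx.mk (St.mk (I.neg (nat_lit 33030144) (nat_lit 125403136)) (I.pos (nat_lit 3686400) (nat_lit 95338496)) (I.mix (nat_lit 72941568) (nat_lit 18006016)) (I.pos (nat_lit 267403264) (nat_lit 331071488)) (I.mix (nat_lit 68943872) (nat_lit 83083264)) (I.mix (nat_lit 98533376) (nat_lit 65028096)) (I.mix (nat_lit 63799296) (nat_lit 77824000)))
  true (nat_lit 0)
def b4_4 : Bx := Bx.mk (St.mk (I.mix (nat_lit 62488576) (nat_lit 9895936)) (I.mix (nat_lit 13271040) (nat_lit 93306880)) (I.neg (nat_lit 30801920) (nat_lit 57393152)) (I.pos (nat_lit 265715712) (nat_lit 290127872)) (I.mix (nat_lit 51167232) (nat_lit 88424448)) (I.mix (nat_lit 101318656) (nat_lit 61095936)) (I.mix (nat_lit 33603584) (nat_lit 27770880)))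
  true (nat_lit 0)
def b4_5 : Bx := Bx.mk (St.mk (I.mix (nat_lit 9895936) (nat_lit 62488576)) (I.mix (nat_lit 93306880) (nat_lit 13271040)) (I.neg (nat_lit 30801920) (nat_lit 57393152)) (I.pos (nat_lit 265715712) (nat_lit 290127872)) (I.mix (nat_lit 88424448) (nat_lit 51167232)) (I.mix (nat_lit 61095936) (nat_lit 101318656)) (I.mix (nat_lit 33603584) (nat_lit 27770880)))
  false (nat_lit 0)
def t4 : BTr := (BTr.n (BTr.n (BTr.b b4_0) (BTr.n (BTr.b b4_1) (BTr.b b4_2))) (BTr.n (BTr.b b4_3) (BTr.n (BTr.b b4_4) (BTr.b b4_5))))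
namespace T4
def l0 : Tr := Tr.L (Pth.l (Pth.l Pth.z))
def l1 : Tr := Tr.L (Pth.l (Pth.r (Pth.l Pth.z)))
def l2 : Tr := Tr.L (Pth.l (Pth.r (Pth.r Pth.z)))
def l3 : Tr := Tr.L (Pth.r (Pth.l Pth.z))
def l4 : Tr := Tr.L (Pth.r (Pth.r (Pth.l Pth.z)))
def l5 : Tr := Tr.L (Pth.r (Pth.r (Pth.r Pth.z)))
end T4
def b5_0 : Bx := Bx.mk (St.mk (I.pos (nat_lit 157040640) (nat_lit 280526848)) (I.mix (nat_lit 21872640) (nat_lit 54591488)) (I.mix (nat_lit 6504448) (nat_lit 126255104)) (I.pos (nat_lit 136052736) (nat_lit 356794368)) (I.mix (nat_lit 107855872) (nat_lit 74072064)) (I.mix (nat_lit 119308288) (nat_lit 81854464)) (I.mix (nat_lit 182697984) (nat_lit 106971136)))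
  false (nat_lit 51893016)
def b5_1 : Bx := Bx.mk (St.mk (I.pos (nat_lit 113229824) (nat_lit 167002112)) (I.neg (nat_lit 5193728) (nat_lit 64552960)) (I.mix (nat_lit 41517056) (nat_lit 25673728)) (I.pos (nat_lit 106020864) (nat_lit 164544512)) (I.mix (nat_lit 66666496) (nat_lit 49905664)) (I.mix (nat_lit 44941312) (nat_lit 64258048)) (I.mix (nat_lit 40419328) (nat_lit 60964864)))
  false (nat_lit 0)
def b5_2 : Bx := Bx.mk (St.mk (I.mix (nat_lit 18743296) (nat_lit 80445440)) (I.mix (nat_lit 35160064) (nat_lit 3358720)) (I.mix (nat_lit 6471680) (nat_lit 17170432)) (I.pos (nat_lit 41828352) (nat_lit 87359488)) (I.mix (nat_lit 24985600) (nat_lit 30277632)) (I.mix (nat_lit 23805952) (nat_lit 31260672)) (I.mix (nat_lit 11485184) (nat_lit 17235968)))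
  false (nat_lit 0)
def b5_3 : Bx := Bx.mk (St.mk (I.pos (nat_lit 153567232) (nat_lit 212205568)) (I.mix (nat_lit 44400640) (nat_lit 66174976)) (I.mix (nat_lit 16351232) (nat_lit 131973120)) (I.pos (nat_lit 135151616) (nat_lit 227131392)) (I.mix (nat_lit 144703488) (nat_lit 56098816)) (I.mix (nat_lit 169558016) (nat_lit 95223808)) (I.mix (nat_lit 206848000) (nat_lit 96239616)))
  false (nat_lit 47534940)
def b5_4 : Bx := Bx.mk (St.mk (I.mix (nat_lit 35160064) (nat_lit 104022016)) (I.mix (nat_lit 15040512) (nat_lit 38060032)) (I.pos (nat_lit 737280) (nat_lit 40976384)) (I.pos (nat_lit 40714240) (nat_lit 102187008)) (I.mix (nat_lit 55689216) (nat_lit 23560192)) (I.mix (nat_lit 55853056) (nat_lit 35848192)) (I.mix (nat_lit 34947072) (nat_lit 21643264)))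
  false (nat_lit 0)
def b5_5 : Bx := Bx.mk (St.mk (I.pos (nat_lit 145063936) (nat_lit 171950080)) (I.neg (nat_lit 2555904) (nat_lit 38436864)) (I.mix (nat_lit 7667712) (nat_lit 34144256)) (I.pos (nat_lit 127369216) (nat_lit 171655168)) (I.mix (nat_lit 40927232) (nat_lit 34275328)) (I.mix (nat_lit 34439168) (nat_lit 39501824)) (I.mix (nat_lit 41385984) (nat_lit 35979264)))
  false (nat_lit 0)
def b5_6 : Bx := Bx.mk (St.mk (I.mix (nat_lit 41811968) (nat_lit 83165184)) (I.mix (nat_lit 16302080) (nat_lit 8093696)) (I.pos (nat_lit 1736704) (nat_lit 18808832)) (I.pos (nat_lit 42729472) (nat_lit 88702976)) (I.mix (nat_lit 16171008) (nat_lit 11845632)) (I.mix (nat_lit 15138816) (nat_lit 12713984)) (I.mix (nat_lit 7913472) (nat_lit 6242304)))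
  false (nat_lit 0)
def b5_7 : Bx := Bx.mk (St.mk (I.pos (nat_lit 22478848) (nat_lit 117178368)) (I.mix (nat_lit 7962624) (nat_lit 34144256)) (I.pos (nat_lit 2146304) (nat_lit 38682624)) (I.pos (nat_lit 46596096) (nat_lit 114212864)) (I.mix (nat_lit 46596096) (nat_lit 33243136)) (I.mix (nat_lit 50020352) (nat_lit 30982144)) (I.mix (nat_lit 35799040) (nat_lit 20922368)))
  false (nat_lit 0)
def b5_8 : Bx := Bx.mk (St.mk (I.pos (nat_lit 95748096) (nat_lit 152748032)) (I.mix (nat_lit 67534848) (nat_lit 10452992)) (I.mix (nat_lit 40615936) (nat_lit 22364160)) (I.pos (nat_lit 80445440) (nat_lit 147881984)) (I.mix (nat_lit 81575936) (nat_lit 37699584)) (I.mix (nat_lit 55410688) (nat_lit 89751552)) (I.mix (nat_lit 40173568) (nat_lit 61308928)))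
  false (nat_lit 0)
def b5_9 : Bx := Bx.mk (St.mk (I.mix (nat_lit 26296320) (nat_lit 74153984)) (I.neg (nat_lit 2572288) (nat_lit 32342016)) (I.mix (nat_lit 4145152) (nat_lit 14221312)) (I.pos (nat_lit 41320448) (nat_lit 83165184)) (I.mix (nat_lit 26722304) (nat_lit 22364160)) (I.mix (nat_lit 23117824) (nat_lit 34848768)) (I.mix (nat_lit 8863744) (nat_lit 13172736)))
  false (nat_lit 0)
def t5 : BTr := (BTr.n (BTr.n (BTr.n (BTr.b b5_0) (BTr.b b5_1)) (BTr.n (BTr.b b5_2) (BTr.n (BTr.b b5_3) (BTr.b b5_4)))) (BTr.n (BTr.n (BTr.b b5_5) (BTr.b b5_6)) (BTr.n (BTr.b b5_7) (BTr.n (BTr.b b5_8) (BTr.b b5_9)))))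
namespace T5
def l0 : Tr := Tr.L (Pth.l (Pth.l (Pth.l Pth.z)))
def l1 : Tr := Tr.L (Pth.l (Pth.l (Pth.r Pth.z)))
def l2 : Tr := Tr.L (Pth.l (Pth.r (Pth.l Pth.z)))
def l3 : Tr := Tr.L (Pth.l (Pth.r (Pth.r (Pth.l Pth.z))))
def l4 : Tr := Tr.L (Pth.l (Pth.r (Pth.r (Pth.r Pth.z))))
def l5 : Tr := Tr.L (Pth.r (Pth.l (Pth.l Pth.z)))
def l6 : Tr := Tr.L (Pth.r (Pth.l (Pth.r Pth.z)))
def l7 : Tr := Tr.L (Pth.r (Pth.r (Pth.l Pth.z)))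
def l8 : Tr := Tr.L (Pth.r (Pth.r (Pth.r (Pth.l Pth.z))))
def l9 : Tr := Tr.L (Pth.r (Pth.r (Pth.r (Pth.r Pth.z))))
end T5
theorem bx0_0 : BoxOK sI cl4 cl7 cl9 t2 t4 b0_0 :=
  box_mk (TrL.c (I.pos (nat_lit 0) (nat_lit 0)) (xa (xb T2.l0 (xa (xb T2.l0 T2.l0) T2.l0)) (xb (xa T2.l0 T2.l4) (xa (xs T2.l0 T2.l0) T2.l4)))
  (TrL.c (I.pos (nat_lit 0) (nat_lit 0)) (xa T4.l1 (xb T4.l1 T4.l1))
  (TrL.c (I.pos (nat_lit 0) (nat_lit 0)) (xa T2.l1 T2.l5)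
  (TrL.c (I.pos (nat_lit 0) (nat_lit 0)) (xa T4.l2 (xb (xa T4.l2 (xb T4.l2 T4.l2)) (xa T4.l2 (xs T4.l2 (xb T4.l2 (xa T4.l2 T4.l2))))))
  (TrL.c (I.pos (nat_lit 0) (nat_lit 0)) (xa T2.l2 T2.l3)
  (TrL.c (I.pos (nat_lit 0) (nat_lit 0)) (xa T4.l3 (xb T4.l3 T4.l3))
  TrL.n)))))) (by decide +kernel)
theorem bx0_1 : BoxOK sI cl4 cl7 cl9 t2 t4 b0_1 :=
  box_mk (TrL.c (I.pos (nat_lit 0) (nat_lit 0)) T2.l0
  (TrL.c (I.pos (nat_lit 0) (nat_lit 0)) T4.l1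
  (TrL.c (I.pos (nat_lit 0) (nat_lit 0)) T2.l1
  (TrL.c (I.pos (nat_lit 0) (nat_lit 0)) T4.l2
  (TrL.c (I.pos (nat_lit 0) (nat_lit 0)) T2.l2
  (TrL.c (I.pos (nat_lit 0) (nat_lit 0)) T4.l3
  TrL.n)))))) (by decide +kernel)
theorem bx0_2 : BoxOK sI cl4 cl7 cl9 t2 t4 b0_2 :=
  box_mk (TrL.c (I.pos (nat_lit 0) (nat_lit 0)) T2.l0
  (TrL.c (I.pos (nat_lit 0) (nat_lit 0)) T4.l1
  (TrL.c (I.pos (nat_lit 0) (nat_lit 0)) T2.l1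
  (TrL.c (I.pos (nat_lit 0) (nat_lit 0)) T4.l2
  (TrL.c (I.pos (nat_lit 0) (nat_lit 0)) T2.l2
  (TrL.c (I.pos (nat_lit 0) (nat_lit 0)) T4.l3
  TrL.n)))))) (by decide +kernel)
theorem bx0_3 : BoxOK sI cl4 cl7 cl9 t2 t4 b0_3 :=
  box_mk (TrL.c (I.pos (nat_lit 0) (nat_lit 0)) (xa (xa (xb T2.l0 T2.l0) T2.l0) T2.l0)
  (TrL.c (I.pos (nat_lit 0) (nat_lit 0)) T4.l1
  (TrL.c (I.pos (nat_lit 0) (nat_lit 0)) T2.l1
  (TrL.c (I.pos (nat_lit 0) (nat_lit 0)) T4.l2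
  (TrL.c (I.pos (nat_lit 0) (nat_lit 0)) T2.l2
  (TrL.c (I.pos (nat_lit 0) (nat_lit 0)) T4.l3
  TrL.n)))))) (by decide +kernel)
theorem bx0_4 : BoxOK sI cl4 cl7 cl9 t2 t4 b0_4 :=
  box_mk (TrL.c (I.pos (nat_lit 0) (nat_lit 0)) T2.l0
  (TrL.c (I.pos (nat_lit 0) (nat_lit 0)) T4.l1
  (TrL.c (I.pos (nat_lit 0) (nat_lit 0)) T2.l1
  (TrL.c (I.pos (nat_lit 0) (nat_lit 0)) T4.l2
  (TrL.c (I.pos (nat_lit 0) (nat_lit 0)) T2.l2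
  (TrL.c (I.pos (nat_lit 0) (nat_lit 0)) T4.l3
  TrL.n)))))) (by decide +kernel)
theorem bx0_5 : BoxOK sI cl4 cl7 cl9 t2 t4 b0_5 :=
  box_mk (TrL.c (I.pos (nat_lit 0) (nat_lit 0)) T2.l0
  (TrL.c (I.pos (nat_lit 0) (nat_lit 0)) T4.l1
  (TrL.c (I.pos (nat_lit 0) (nat_lit 0)) T2.l1
  (TrL.c (I.pos (nat_lit 0) (nat_lit 0)) T4.l2
  (TrL.c (I.pos (nat_lit 0) (nat_lit 0)) T2.l2
  (TrL.c (I.pos (nat_lit 0) (nat_lit 0)) T4.l3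
  TrL.n)))))) (by decide +kernel)
theorem bx0_6 : BoxOK sI cl4 cl7 cl9 t2 t4 b0_6 :=
  box_mk (TrL.c (I.pos (nat_lit 0) (nat_lit 0)) T2.l0
  (TrL.c (I.pos (nat_lit 0) (nat_lit 0)) T4.l1
  (TrL.c (I.pos (nat_lit 0) (nat_lit 0)) T2.l1
  (TrL.c (I.pos (nat_lit 0) (nat_lit 0)) T4.l2
  (TrL.c (I.pos (nat_lit 0) (nat_lit 0)) T2.l2
  (TrL.c (I.pos (nat_lit 0) (nat_lit 0)) T4.l3
  TrL.n)))))) (by decide +kernel)
theorem bx0_7 : BoxOK sI cl4 cl7 cl9 t2 t4 b0_7 :=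
  box_mk (TrL.c (I.pos (nat_lit 0) (nat_lit 0)) (xa (xa (xb T2.l0 T2.l0) T2.l0) T2.l0)
  (TrL.c (I.pos (nat_lit 0) (nat_lit 0)) T4.l1
  (TrL.c (I.pos (nat_lit 0) (nat_lit 0)) T2.l1
  (TrL.c (I.pos (nat_lit 0) (nat_lit 0)) T4.l2
  (TrL.c (I.pos (nat_lit 0) (nat_lit 0)) T2.l2
  (TrL.c (I.pos (nat_lit 0) (nat_lit 0)) T4.l3
  TrL.n)))))) (by decide +kernel)
theorem bx0_8 : BoxOK sI cl4 cl7 cl9 t2 t4 b0_8 :=
  box_mk (TrL.c (I.pos (nat_lit 0) (nat_lit 0)) (xa (xa (xb T2.l0 (xa T2.l0 T2.l0)) T2.l0) T2.l0)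
  (TrL.c (I.pos (nat_lit 0) (nat_lit 0)) (xa T4.l1 T4.l1)
  (TrL.c (I.pos (nat_lit 0) (nat_lit 0)) T2.l1
  (TrL.c (I.pos (nat_lit 0) (nat_lit 0)) (xa T4.l2 T4.l2)
  (TrL.c (I.pos (nat_lit 0) (nat_lit 0)) T2.l2
  (TrL.c (I.pos (nat_lit 0) (nat_lit 0)) (xa T4.l3 T4.l3)
  TrL.n)))))) (by decide +kernel)
theorem bx0_9 : BoxOK sI cl4 cl7 cl9 t2 t4 b0_9 :=
  box_mk (TrL.c (I.pos (nat_lit 0) (nat_lit 0)) (xb (xa (xb T2.l0 T2.l0) (xa T2.l0 T2.l0)) (xa (xa (xb T2.l0 T2.l0) T2.l0) (xa T2.l0 T2.l0)))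
  (TrL.c (I.pos (nat_lit 0) (nat_lit 0)) (xb T4.l1 (xa T4.l1 T4.l1))
  (TrL.c (I.pos (nat_lit 0) (nat_lit 0)) (xb T2.l1 T2.l1)
  (TrL.c (I.pos (nat_lit 0) (nat_lit 0)) (xb (xa T4.l2 (xb T4.l2 T4.l2)) (xa T4.l2 (xs T4.l2 (xb T4.l2 T4.l2))))
  (TrL.c (I.pos (nat_lit 0) (nat_lit 0)) (xb T2.l2 T2.l2)
  (TrL.c (I.pos (nat_lit 0) (nat_lit 0)) (xb T4.l3 (xa T4.l3 T4.l3))
  TrL.n)))))) (by decide +kernel)
theorem sv0 : StarV sI cl4 cl7 cl9 t2 t4 t0 :=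
  (bt_n (bt_n (bt_n (bt_b bx0_0) (bt_b bx0_1)) (bt_n (bt_b bx0_2) (bt_n (bt_b bx0_3) (bt_b bx0_4)))) (bt_n (bt_n (bt_b bx0_5) (bt_b bx0_6)) (bt_n (bt_b bx0_7) (bt_n (bt_b bx0_8) (bt_b bx0_9)))))
def S0 : StarD := StarD.mk cl4 cl7 cl9 2 4 t0
theorem bx1_0 : BoxOK sI cl4 cl9 cl7 t4 t2 b1_0 :=
  box_mk (TrL.c (I.pos (nat_lit 0) (nat_lit 0)) (xa (xb T4.l0 (xa (xb T4.l0 T4.l0) (xs T4.l0 T4.l0))) (xb (xa T4.l0 T4.l2) (xa (xs T4.l0 (xb T4.l0 T4.l0)) (xs T4.l2 T4.l2))))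
  (TrL.c (I.pos (nat_lit 0) (nat_lit 0)) (xa T2.l3 (xb T2.l3 T2.l3))
  (TrL.c (I.pos (nat_lit 0) (nat_lit 0)) (xa T4.l4 (xs T4.l4 T4.l4))
  (TrL.c (I.pos (nat_lit 0) (nat_lit 0)) (xa T2.l4 (xb (xa T2.l4 (xb T2.l4 T2.l4)) (xa T2.l4 (xs T2.l4 (xb T2.l4 (xa T2.l4 T2.l4))))))
  (TrL.c (I.pos (nat_lit 0) (nat_lit 0)) (xa T4.l5 (xs T4.l5 T4.l5))
  (TrL.c (I.pos (nat_lit 0) (nat_lit 0)) (xa T2.l5 (xb T2.l5 T2.l5))
  TrL.n)))))) (by decide +kernel)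
theorem bx1_1 : BoxOK sI cl4 cl9 cl7 t4 t2 b1_1 :=
  box_mk (TrL.c (I.pos (nat_lit 0) (nat_lit 0)) T4.l0
  (TrL.c (I.pos (nat_lit 0) (nat_lit 0)) (xa T2.l3 T2.l3)
  (TrL.c (I.pos (nat_lit 0) (nat_lit 0)) T4.l4
  (TrL.c (I.pos (nat_lit 0) (nat_lit 0)) T2.l4
  (TrL.c (I.pos (nat_lit 0) (nat_lit 0)) T4.l5
  (TrL.c (I.pos (nat_lit 0) (nat_lit 0)) (xa T2.l5 T2.l5)
  TrL.n)))))) (by decide +kernel)
theorem bx1_2 : BoxOK sI cl4 cl9 cl7 t4 t2 b1_2 :=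
  box_mk (TrL.c (I.pos (nat_lit 0) (nat_lit 0)) T4.l0
  (TrL.c (I.pos (nat_lit 0) (nat_lit 0)) T2.l3
  (TrL.c (I.pos (nat_lit 0) (nat_lit 0)) T4.l4
  (TrL.c (I.pos (nat_lit 0) (nat_lit 0)) T2.l4
  (TrL.c (I.pos (nat_lit 0) (nat_lit 0)) T4.l5
  (TrL.c (I.pos (nat_lit 0) (nat_lit 0)) T2.l5
  TrL.n)))))) (by decide +kernel)
theorem bx1_3 : BoxOK sI cl4 cl9 cl7 t4 t2 b1_3 :=
  box_mk (TrL.c (I.pos (nat_lit 0) (nat_lit 0)) (xa (xa T4.l0 T4.l0) T4.l0)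
  (TrL.c (I.pos (nat_lit 0) (nat_lit 0)) T2.l3
  (TrL.c (I.pos (nat_lit 0) (nat_lit 0)) T4.l4
  (TrL.c (I.pos (nat_lit 0) (nat_lit 0)) T2.l4
  (TrL.c (I.pos (nat_lit 0) (nat_lit 0)) T4.l5
  (TrL.c (I.pos (nat_lit 0) (nat_lit 0)) T2.l5
  TrL.n)))))) (by decide +kernel)
theorem bx1_4 : BoxOK sI cl4 cl9 cl7 t4 t2 b1_4 :=
  box_mk (TrL.c (I.pos (nat_lit 0) (nat_lit 0)) T4.l0
  (TrL.c (I.pos (nat_lit 0) (nat_lit 0)) T2.l3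
  (TrL.c (I.pos (nat_lit 0) (nat_lit 0)) T4.l4
  (TrL.c (I.pos (nat_lit 0) (nat_lit 0)) T2.l4
  (TrL.c (I.pos (nat_lit 0) (nat_lit 0)) T4.l5
  (TrL.c (I.pos (nat_lit 0) (nat_lit 0)) T2.l5
  TrL.n)))))) (by decide +kernel)
theorem bx1_5 : BoxOK sI cl4 cl9 cl7 t4 t2 b1_5 :=
  box_mk (TrL.c (I.pos (nat_lit 0) (nat_lit 0)) T4.l0
  (TrL.c (I.pos (nat_lit 0) (nat_lit 0)) T2.l3
  (TrL.c (I.pos (nat_lit 0) (nat_lit 0)) T4.l4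
  (TrL.c (I.pos (nat_lit 0) (nat_lit 0)) T2.l4
  (TrL.c (I.pos (nat_lit 0) (nat_lit 0)) T4.l5
  (TrL.c (I.pos (nat_lit 0) (nat_lit 0)) T2.l5
  TrL.n)))))) (by decide +kernel)
theorem bx1_6 : BoxOK sI cl4 cl9 cl7 t4 t2 b1_6 :=
  box_mk (TrL.c (I.pos (nat_lit 0) (nat_lit 0)) T4.l0
  (TrL.c (I.pos (nat_lit 0) (nat_lit 0)) T2.l3
  (TrL.c (I.pos (nat_lit 0) (nat_lit 0)) T4.l4
  (TrL.c (I.pos (nat_lit 0) (nat_lit 0)) T2.l4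
  (TrL.c (I.pos (nat_lit 0) (nat_lit 0)) T4.l5
  (TrL.c (I.pos (nat_lit 0) (nat_lit 0)) T2.l5
  TrL.n)))))) (by decide +kernel)
theorem bx1_7 : BoxOK sI cl4 cl9 cl7 t4 t2 b1_7 :=
  box_mk (TrL.c (I.pos (nat_lit 0) (nat_lit 0)) (xa (xa T4.l0 T4.l0) T4.l0)
  (TrL.c (I.pos (nat_lit 0) (nat_lit 0)) T2.l3
  (TrL.c (I.pos (nat_lit 0) (nat_lit 0)) T4.l4
  (TrL.c (I.pos (nat_lit 0) (nat_lit 0)) T2.l4
  (TrL.c (I.pos (nat_lit 0) (nat_lit 0)) T4.l5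
  (TrL.c (I.pos (nat_lit 0) (nat_lit 0)) T2.l5
  TrL.n)))))) (by decide +kernel)
theorem bx1_8 : BoxOK sI cl4 cl9 cl7 t4 t2 b1_8 :=
  box_mk (TrL.c (I.pos (nat_lit 0) (nat_lit 0)) (xb (xa (xa T4.l0 T4.l0) (xa T4.l0 T4.l0)) (xa (xa T4.l0 T4.l0) (xa T4.l0 T4.l0)))
  (TrL.c (I.pos (nat_lit 0) (nat_lit 0)) (xb T2.l3 (xa T2.l3 T2.l3))
  (TrL.c (I.pos (nat_lit 0) (nat_lit 0)) (xb T4.l4 T4.l4)
  (TrL.c (I.pos (nat_lit 0) (nat_lit 0)) (xb (xa T2.l4 T2.l4) (xa T2.l4 (xa T2.l4 T2.l4)))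
  (TrL.c (I.pos (nat_lit 0) (nat_lit 0)) (xb T4.l5 T4.l5)
  (TrL.c (I.pos (nat_lit 0) (nat_lit 0)) (xb T2.l5 (xa T2.l5 T2.l5))
  TrL.n)))))) (by decide +kernel)
theorem bx1_9 : BoxOK sI cl4 cl9 cl7 t4 t2 b1_9 :=
  box_mk (TrL.c (I.pos (nat_lit 0) (nat_lit 0)) (xa (xa T4.l0 T4.l0) T4.l0)
  (TrL.c (I.pos (nat_lit 0) (nat_lit 0)) (xa T2.l3 T2.l3)
  (TrL.c (I.pos (nat_lit 0) (nat_lit 0)) T4.l4
  (TrL.c (I.pos (nat_lit 0) (nat_lit 0)) (xa T2.l4 T2.l4)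
  (TrL.c (I.pos (nat_lit 0) (nat_lit 0)) T4.l5
  (TrL.c (I.pos (nat_lit 0) (nat_lit 0)) (xa T2.l5 T2.l5)
  TrL.n)))))) (by decide +kernel)
theorem sv1 : StarV sI cl4 cl9 cl7 t4 t2 t1 :=
  (bt_n (bt_n (bt_n (bt_b bx1_0) (bt_b bx1_1)) (bt_n (bt_b bx1_2) (bt_n (bt_b bx1_3) (bt_b bx1_4)))) (bt_n (bt_n (bt_b bx1_5) (bt_b bx1_6)) (bt_n (bt_b bx1_7) (bt_n (bt_b bx1_8) (bt_b bx1_9)))))
def S1 : StarD := StarD.mk cl4 cl9 cl7 4 2 t1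
theorem bx2_0 : BoxOK sI cl7 cl4 cl9 t0 t5 b2_0 :=
  box_mk (TrL.c (I.pos (nat_lit 0) (nat_lit 0)) (xa (xb T0.l0 (xa T0.l0 T0.l0)) (xb T0.l0 (xa T0.l0 T0.l9)))
  (TrL.c (I.pos (nat_lit 0) (nat_lit 0)) (xa T5.l1 T5.l1)
  (TrL.c (I.pos (nat_lit 0) (nat_lit 111196574)) (xR T0.l1 (xR T0.l1 T0.l8))
  (TrL.c (I.pos (nat_lit 0) (nat_lit 77433728)) (xR T5.l2 T5.l2)
  (TrL.c (I.pos (nat_lit 0) (nat_lit 0)) (xa (xb (xk T5.l3 T5.l3) T5.l3) (xb (xk (xa T5.l3 (xb T5.l3 T5.l3)) (xa T5.l3 (xb T5.l3 T5.l3))) (xk (xa T5.l3 (xs (xk T5.l3 T5.l3) (xb T5.l3 T5.l3))) (xa T5.l3 (xs (xk T5.l3 T5.l3) (xb T5.l3 T5.l3))))))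
  (TrL.c (I.pos (nat_lit 0) (nat_lit 0)) (xk T0.l2 T0.l2)
  (TrL.c (I.mix (nat_lit 29511666) (nat_lit 77433728)) (xR T5.l4 (xR T5.l4 T5.l4))
  (TrL.c (I.mix (nat_lit 29511666) (nat_lit 46070178)) (xR T0.l3 T0.l7)
  TrL.n)))))))) (by decide +kernel)
theorem bx2_1 : BoxOK sI cl7 cl4 cl9 t0 t5 b2_1 :=
  box_mk (TrL.c (I.pos (nat_lit 0) (nat_lit 0)) T5.l5
  (TrL.c (I.pos (nat_lit 0) (nat_lit 0)) T0.l1
  (TrL.c (I.mix (nat_lit 29511666) (nat_lit 77433728)) (xR T5.l6 T5.l4)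
  (TrL.c (I.mix (nat_lit 29511666) (nat_lit 46070178)) T0.l8
  TrL.n)))) (by decide +kernel)
theorem bx2_2 : BoxOK sI cl7 cl4 cl9 t0 t5 b2_2 :=
  box_mk (TrL.c (I.pos (nat_lit 0) (nat_lit 0)) (xb (xa (xs (xb T0.l0 T0.l0) (xb T0.l0 T0.l0)) T0.l0) T0.l0)
  (TrL.c (I.pos (nat_lit 0) (nat_lit 0)) T5.l5
  (TrL.c (I.pos (nat_lit 0) (nat_lit 111196574)) (xR T0.l1 (xR T0.l1 T0.l1))
  (TrL.c (I.pos (nat_lit 0) (nat_lit 77433728)) T5.l4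
  (TrL.c (I.pos (nat_lit 0) (nat_lit 0)) T5.l3
  (TrL.c (I.pos (nat_lit 0) (nat_lit 0)) T0.l2
  (TrL.c (I.mix (nat_lit 29511666) (nat_lit 77433728)) T5.l4
  (TrL.c (I.mix (nat_lit 29511666) (nat_lit 46070178)) T0.l8
  TrL.n)))))))) (by decide +kernel)
theorem bx2_3 : BoxOK sI cl7 cl4 cl9 t0 t5 b2_3 :=
  box_mk (TrL.c (I.pos (nat_lit 0) (nat_lit 0)) (xa (xb T0.l0 T0.l0) T0.l0)
  (TrL.c (I.pos (nat_lit 0) (nat_lit 0)) T5.l1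
  (TrL.c (I.pos (nat_lit 0) (nat_lit 111196574)) (xR T0.l1 (xR T0.l1 T0.l1))
  (TrL.c (I.pos (nat_lit 0) (nat_lit 77433728)) (xR T5.l4 T5.l2)
  (TrL.c (I.pos (nat_lit 0) (nat_lit 0)) T5.l3
  (TrL.c (I.pos (nat_lit 0) (nat_lit 0)) T0.l2
  (TrL.c (I.mix (nat_lit 29511666) (nat_lit 77433728)) (xR T5.l4 T5.l4)
  (TrL.c (I.mix (nat_lit 29511666) (nat_lit 46070178)) T0.l8
  TrL.n)))))))) (by decide +kernel)
theorem bx2_4 : BoxOK sI cl7 cl4 cl9 t0 t5 b2_4 :=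
  box_mk (TrL.c (I.pos (nat_lit 0) (nat_lit 0)) (xb (xa T0.l0 T0.l0) (xa T0.l0 T0.l0))
  (TrL.c (I.pos (nat_lit 0) (nat_lit 0)) T5.l1
  (TrL.c (I.pos (nat_lit 0) (nat_lit 111196574)) (xR T0.l1 (xR T0.l1 T0.l1))
  (TrL.c (I.pos (nat_lit 0) (nat_lit 77433728)) (xR T5.l2 T5.l2)
  (TrL.c (I.pos (nat_lit 0) (nat_lit 0)) (xb (xa T5.l3 T5.l0) T5.l3)
  (TrL.c (I.pos (nat_lit 0) (nat_lit 0)) T0.l2
  (TrL.c (I.mix (nat_lit 29511666) (nat_lit 77433728)) (xR T5.l4 T5.l4)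
  (TrL.c (I.mix (nat_lit 29511666) (nat_lit 46070178)) (xR T0.l3 T0.l7)
  TrL.n)))))))) (by decide +kernel)
theorem bx2_5 : BoxOK sI cl7 cl4 cl9 t0 t5 b2_5 :=
  box_mk (TrL.c (I.pos (nat_lit 0) (nat_lit 0)) T5.l1
  (TrL.c (I.pos (nat_lit 0) (nat_lit 0)) T0.l1
  (TrL.c (I.mix (nat_lit 29511666) (nat_lit 77433728)) (xR T5.l6 (xR T5.l2 T5.l2))
  (TrL.c (I.mix (nat_lit 29511666) (nat_lit 46070178)) (xR T0.l5 T0.l1)
  TrL.n)))) (by decide +kernel)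
theorem sv2 : StarV sI cl7 cl4 cl9 t0 t5 t2 :=
  (bt_n (bt_n (bt_b bx2_0) (bt_n (bt_b bx2_1) (bt_b bx2_2))) (bt_n (bt_b bx2_3) (bt_n (bt_b bx2_4) (bt_b bx2_5))))
def S2 : StarD := StarD.mk cl7 cl4 cl9 0 5 t2
theorem bx3_0 : BoxOK sI cl7 cl9 cl4 t5 t0 b3_0 :=
  box_mk (TrL.c (I.pos (nat_lit 0) (nat_lit 0)) (xa (xa (xb T5.l0 (xs T5.l0 T5.l0)) (xb T5.l0 T5.l0)) (xa (xs T5.l0 (xb T5.l0 T5.l0)) (xs T5.l0 (xb T5.l3 T5.l3))))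
  (TrL.c (I.pos (nat_lit 0) (nat_lit 0)) (xa (xa T0.l6 T0.l6) (xa T0.l6 T0.l6))
  (TrL.c (I.pos (nat_lit 0) (nat_lit 111196574)) (xR (xR T5.l4 T5.l4) (xR T5.l7 T5.l7))
  (TrL.c (I.pos (nat_lit 0) (nat_lit 77433728)) (xR T0.l7 (xR T0.l7 T0.l7))
  (TrL.c (I.pos (nat_lit 0) (nat_lit 0)) (xa (xa T0.l9 T0.l9) (xa (xb T0.l9 T0.l9) (xk (xb T0.l9 T0.l9) (xb T0.l9 T0.l9))))
  (TrL.c (I.pos (nat_lit 0) (nat_lit 0)) (xa T5.l8 T5.l8)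
  (TrL.c (I.mix (nat_lit 29511666) (nat_lit 77433728)) (xR T0.l8 (xR T0.l8 T0.l8))
  (TrL.c (I.mix (nat_lit 29511666) (nat_lit 46070178)) (xR T5.l9 T5.l9)
  TrL.n)))))))) (by decide +kernel)
theorem bx3_1 : BoxOK sI cl7 cl9 cl4 t5 t0 b3_1 :=
  box_mk (TrL.c (I.pos (nat_lit 0) (nat_lit 0)) T5.l0
  (TrL.c (I.pos (nat_lit 0) (nat_lit 0)) T0.l6
  (TrL.c (I.pos (nat_lit 0) (nat_lit 111196574)) (xR T5.l4 T5.l7)
  (TrL.c (I.pos (nat_lit 0) (nat_lit 77433728)) (xR T0.l7 T0.l7)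
  (TrL.c (I.pos (nat_lit 0) (nat_lit 0)) T0.l9
  (TrL.c (I.pos (nat_lit 0) (nat_lit 0)) T5.l8
  (TrL.c (I.mix (nat_lit 29511666) (nat_lit 77433728)) (xR T0.l8 T0.l8)
  (TrL.c (I.mix (nat_lit 29511666) (nat_lit 46070178)) T5.l4
  TrL.n)))))))) (by decide +kernel)
theorem bx3_2 : BoxOK sI cl7 cl9 cl4 t5 t0 b3_2 :=
  box_mk (TrL.c (I.pos (nat_lit 0) (nat_lit 0)) (xa T5.l0 T5.l0)
  (TrL.c (I.pos (nat_lit 0) (nat_lit 0)) T0.l6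
  (TrL.c (I.pos (nat_lit 0) (nat_lit 111196574)) (xR T5.l4 T5.l7)
  (TrL.c (I.pos (nat_lit 0) (nat_lit 77433728)) (xR T0.l7 T0.l7)
  (TrL.c (I.pos (nat_lit 0) (nat_lit 0)) T0.l9
  (TrL.c (I.pos (nat_lit 0) (nat_lit 0)) T5.l8
  (TrL.c (I.mix (nat_lit 29511666) (nat_lit 77433728)) T0.l8
  (TrL.c (I.mix (nat_lit 29511666) (nat_lit 46070178)) T5.l4
  TrL.n)))))))) (by decide +kernel)
theorem bx3_3 : BoxOK sI cl7 cl9 cl4 t5 t0 b3_3 :=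
  box_mk (TrL.c (I.pos (nat_lit 0) (nat_lit 0)) (xb (xa T5.l0 T5.l0) (xa (xs T5.l0 (xb T5.l0 T5.l0)) (xs T5.l0 T5.l0)))
  (TrL.c (I.pos (nat_lit 0) (nat_lit 0)) (xb T0.l6 T0.l6)
  (TrL.c (I.pos (nat_lit 0) (nat_lit 111196574)) (xR (xR T5.l4 T5.l4) (xR T5.l7 T5.l7))
  (TrL.c (I.pos (nat_lit 0) (nat_lit 77433728)) (xR T0.l7 T0.l7)
  (TrL.c (I.pos (nat_lit 0) (nat_lit 0)) (xb (xa T0.l9 T0.l9) T0.l9)
  (TrL.c (I.pos (nat_lit 0) (nat_lit 0)) T5.l8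
  (TrL.c (I.mix (nat_lit 29511666) (nat_lit 77433728)) (xR T0.l8 (xR T0.l8 T0.l8))
  (TrL.c (I.mix (nat_lit 29511666) (nat_lit 46070178)) (xR T5.l9 T5.l9)
  TrL.n)))))))) (by decide +kernel)
theorem bx3_4 : BoxOK sI cl7 cl9 cl4 t5 t0 b3_4 :=
  box_mk (TrL.c (I.pos (nat_lit 0) (nat_lit 0)) (xa T5.l0 (xa T5.l0 T5.l0))
  (TrL.c (I.pos (nat_lit 0) (nat_lit 0)) (xa T0.l6 T0.l6)
  (TrL.c (I.pos (nat_lit 0) (nat_lit 111196574)) (xR T5.l4 T5.l7)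
  (TrL.c (I.pos (nat_lit 0) (nat_lit 77433728)) (xR T0.l7 T0.l7)
  (TrL.c (I.pos (nat_lit 0) (nat_lit 0)) (xa T0.l9 T0.l9)
  (TrL.c (I.pos (nat_lit 0) (nat_lit 0)) T5.l8
  (TrL.c (I.mix (nat_lit 29511666) (nat_lit 77433728)) (xR T0.l8 T0.l8)
  (TrL.c (I.mix (nat_lit 29511666) (nat_lit 46070178)) T5.l4
  TrL.n)))))))) (by decide +kernel)
theorem bx3_5 : BoxOK sI cl7 cl9 cl4 t5 t0 b3_5 :=
  box_mk (TrL.c (I.pos (nat_lit 0) (nat_lit 0)) (xa T5.l0 T5.l0)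
  (TrL.c (I.pos (nat_lit 0) (nat_lit 0)) T0.l6
  (TrL.c (I.pos (nat_lit 0) (nat_lit 111196574)) (xR T5.l4 T5.l7)
  (TrL.c (I.pos (nat_lit 0) (nat_lit 77433728)) (xR T0.l7 T0.l7)
  (TrL.c (I.pos (nat_lit 0) (nat_lit 0)) T0.l9
  (TrL.c (I.pos (nat_lit 0) (nat_lit 0)) T5.l8
  (TrL.c (I.mix (nat_lit 29511666) (nat_lit 77433728)) T0.l8
  (TrL.c (I.mix (nat_lit 29511666) (nat_lit 46070178)) T5.l4
  TrL.n)))))))) (by decide +kernel)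
theorem bx3_6 : BoxOK sI cl7 cl9 cl4 t5 t0 b3_6 :=
  box_mk (TrL.c (I.pos (nat_lit 0) (nat_lit 0)) T5.l0
  (TrL.c (I.pos (nat_lit 0) (nat_lit 0)) T0.l6
  (TrL.c (I.pos (nat_lit 0) (nat_lit 111196574)) (xR T5.l4 T5.l7)
  (TrL.c (I.pos (nat_lit 0) (nat_lit 77433728)) (xR T0.l7 T0.l7)
  (TrL.c (I.pos (nat_lit 0) (nat_lit 0)) T0.l9
  (TrL.c (I.pos (nat_lit 0) (nat_lit 0)) T5.l8
  (TrL.c (I.mix (nat_lit 29511666) (nat_lit 77433728)) (xR T0.l8 T0.l8)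
  (TrL.c (I.mix (nat_lit 29511666) (nat_lit 46070178)) T5.l9
  TrL.n)))))))) (by decide +kernel)
theorem bx3_7 : BoxOK sI cl7 cl9 cl4 t5 t0 b3_7 :=
  box_mk (TrL.c (I.pos (nat_lit 0) (nat_lit 0)) (xa T5.l0 T5.l0)
  (TrL.c (I.pos (nat_lit 0) (nat_lit 0)) (xa T0.l6 T0.l6)
  (TrL.c (I.pos (nat_lit 0) (nat_lit 111196574)) (xR T5.l4 T5.l7)
  (TrL.c (I.pos (nat_lit 0) (nat_lit 77433728)) (xR T0.l7 T0.l7)
  (TrL.c (I.pos (nat_lit 0) (nat_lit 0)) (xa T0.l9 T0.l9)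
  (TrL.c (I.pos (nat_lit 0) (nat_lit 0)) T5.l8
  (TrL.c (I.mix (nat_lit 29511666) (nat_lit 77433728)) (xR T0.l8 T0.l8)
  (TrL.c (I.mix (nat_lit 29511666) (nat_lit 46070178)) T5.l4
  TrL.n)))))))) (by decide +kernel)
theorem bx3_8 : BoxOK sI cl7 cl9 cl4 t5 t0 b3_8 :=
  box_mk (TrL.c (I.pos (nat_lit 0) (nat_lit 0)) T5.l0
  (TrL.c (I.pos (nat_lit 0) (nat_lit 0)) T0.l6
  (TrL.c (I.pos (nat_lit 0) (nat_lit 111196574)) (xR T5.l4 T5.l7)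
  (TrL.c (I.pos (nat_lit 0) (nat_lit 77433728)) (xR T0.l7 T0.l7)
  (TrL.c (I.pos (nat_lit 0) (nat_lit 0)) T0.l9
  (TrL.c (I.pos (nat_lit 0) (nat_lit 0)) T5.l8
  (TrL.c (I.mix (nat_lit 29511666) (nat_lit 77433728)) (xR T0.l8 T0.l8)
  (TrL.c (I.mix (nat_lit 29511666) (nat_lit 46070178)) T5.l4
  TrL.n)))))))) (by decide +kernel)
theorem bx3_9 : BoxOK sI cl7 cl9 cl4 t5 t0 b3_9 :=
  box_mk (TrL.c (I.pos (nat_lit 0) (nat_lit 0)) (xa (xa T5.l0 T5.l0) T5.l0)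
  (TrL.c (I.pos (nat_lit 0) (nat_lit 0)) T0.l6
  (TrL.c (I.pos (nat_lit 0) (nat_lit 111196574)) (xR T5.l4 T5.l7)
  (TrL.c (I.pos (nat_lit 0) (nat_lit 77433728)) (xR T0.l7 T0.l7)
  (TrL.c (I.pos (nat_lit 0) (nat_lit 0)) T0.l9
  (TrL.c (I.pos (nat_lit 0) (nat_lit 0)) T5.l8
  (TrL.c (I.mix (nat_lit 29511666) (nat_lit 77433728)) T0.l8
  (TrL.c (I.mix (nat_lit 29511666) (nat_lit 46070178)) T5.l4
  TrL.n)))))))) (by decide +kernel)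
theorem sv3 : StarV sI cl7 cl9 cl4 t5 t0 t3 :=
  (bt_n (bt_n (bt_n (bt_b bx3_0) (bt_b bx3_1)) (bt_n (bt_b bx3_2) (bt_n (bt_b bx3_3) (bt_b bx3_4)))) (bt_n (bt_n (bt_b bx3_5) (bt_b bx3_6)) (bt_n (bt_b bx3_7) (bt_n (bt_b bx3_8) (bt_b bx3_9)))))
def S3 : StarD := StarD.mk cl7 cl9 cl4 5 0 t3
theorem bx4_0 : BoxOK sI cl9 cl4 cl7 t1 t3 b4_0 :=
  box_mk (TrL.c (I.pos (nat_lit 0) (nat_lit 0)) (xa (xb T1.l0 (xa T1.l0 T1.l0)) (xb T1.l0 T1.l0))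
  (TrL.c (I.pos (nat_lit 0) (nat_lit 0)) (xa T3.l1 T3.l1)
  (TrL.c (I.pos (nat_lit 0) (nat_lit 124588530)) (xR T1.l1 (xR T1.l1 T1.l9))
  (TrL.c (I.pos (nat_lit 0) (nat_lit 96881482)) (xR T3.l2 (xR T3.l2 T3.l2))
  (TrL.c (I.pos (nat_lit 0) (nat_lit 0)) (xa (xb (xa T3.l3 T3.l3) T3.l3) (xb (xk (xa T3.l3 (xb T3.l3 T3.l3)) (xa T3.l3 (xb T3.l3 T3.l3))) (xk (xa T3.l3 (xs (xk T3.l3 T3.l3) (xb T3.l3 (xs T3.l3 T3.l3)))) (xa T3.l3 (xs (xk T3.l3 T3.l3) (xb T3.l3 (xs T3.l3 T3.l3)))))))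
  (TrL.c (I.pos (nat_lit 0) (nat_lit 0)) T1.l2
  (TrL.c (I.mix (nat_lit 17240550) (nat_lit 96881482)) (xR T3.l4 (xR T3.l4 T3.l4))
  (TrL.c (I.mix (nat_lit 17240550) (nat_lit 71940500)) (xR T1.l3 T1.l3)
  TrL.n)))))))) (by decide +kernel)
theorem bx4_1 : BoxOK sI cl9 cl4 cl7 t1 t3 b4_1 :=
  box_mk (TrL.c (I.pos (nat_lit 0) (nat_lit 0)) (xa T1.l0 T1.l0)
  (TrL.c (I.pos (nat_lit 0) (nat_lit 0)) T3.l1
  (TrL.c (I.pos (nat_lit 0) (nat_lit 124588530)) (xR T1.l1 T1.l1)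
  (TrL.c (I.pos (nat_lit 0) (nat_lit 96881482)) (xR T3.l2 T3.l2)
  (TrL.c (I.pos (nat_lit 0) (nat_lit 0)) T3.l3
  (TrL.c (I.pos (nat_lit 0) (nat_lit 0)) T1.l2
  (TrL.c (I.mix (nat_lit 17240550) (nat_lit 96881482)) T3.l4
  (TrL.c (I.mix (nat_lit 17240550) (nat_lit 71940500)) T1.l9
  TrL.n)))))))) (by decide +kernel)
theorem bx4_2 : BoxOK sI cl9 cl4 cl7 t1 t3 b4_2 :=
  box_mk (TrL.c (I.pos (nat_lit 0) (nat_lit 0)) (xb (xa T1.l0 T1.l0) (xa T1.l0 T1.l0))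
  (TrL.c (I.pos (nat_lit 0) (nat_lit 0)) T3.l1
  (TrL.c (I.pos (nat_lit 0) (nat_lit 124588530)) (xR T1.l1 (xR T1.l1 T1.l1))
  (TrL.c (I.pos (nat_lit 0) (nat_lit 96881482)) (xR T3.l2 T3.l2)
  (TrL.c (I.pos (nat_lit 0) (nat_lit 0)) (xb (xa T3.l3 T3.l3) T3.l3)
  (TrL.c (I.pos (nat_lit 0) (nat_lit 0)) T1.l2
  (TrL.c (I.mix (nat_lit 17240550) (nat_lit 96881482)) (xR T3.l4 T3.l4)
  (TrL.c (I.mix (nat_lit 17240550) (nat_lit 71940500)) (xR T1.l3 T1.l3)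
  TrL.n)))))))) (by decide +kernel)
theorem bx4_3 : BoxOK sI cl9 cl4 cl7 t1 t3 b4_3 :=
  box_mk (TrL.c (I.pos (nat_lit 0) (nat_lit 0)) T3.l1
  (TrL.c (I.pos (nat_lit 0) (nat_lit 0)) T1.l1
  (TrL.c (I.mix (nat_lit 17240550) (nat_lit 96881482)) (xR T3.l5 (xR T3.l2 T3.l2))
  (TrL.c (I.mix (nat_lit 17240550) (nat_lit 71940500)) (xR T1.l9 T1.l1)
  TrL.n)))) (by decide +kernel)
theorem bx4_4 : BoxOK sI cl9 cl4 cl7 t1 t3 b4_4 :=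
  box_mk (TrL.c (I.pos (nat_lit 0) (nat_lit 0)) T3.l6
  (TrL.c (I.pos (nat_lit 0) (nat_lit 0)) T1.l1
  (TrL.c (I.mix (nat_lit 17240550) (nat_lit 96881482)) (xR T3.l5 T3.l4)
  (TrL.c (I.mix (nat_lit 17240550) (nat_lit 71940500)) T1.l9
  TrL.n)))) (by decide +kernel)
theorem bx4_5 : BoxOK sI cl9 cl4 cl7 t1 t3 b4_5 :=
  box_mk (TrL.c (I.pos (nat_lit 0) (nat_lit 0)) (xb (xa (xs T1.l0 T1.l0) T1.l0) T1.l0)
  (TrL.c (I.pos (nat_lit 0) (nat_lit 0)) T3.l6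
  (TrL.c (I.pos (nat_lit 0) (nat_lit 124588530)) (xR T1.l1 (xR T1.l1 T1.l1))
  (TrL.c (I.pos (nat_lit 0) (nat_lit 96881482)) T3.l4
  (TrL.c (I.pos (nat_lit 0) (nat_lit 0)) T3.l3
  (TrL.c (I.pos (nat_lit 0) (nat_lit 0)) T1.l2
  (TrL.c (I.mix (nat_lit 17240550) (nat_lit 96881482)) T3.l4
  (TrL.c (I.mix (nat_lit 17240550) (nat_lit 71940500)) T1.l9
  TrL.n)))))))) (by decide +kernel)
theorem sv4 : StarV sI cl9 cl4 cl7 t1 t3 t4 :=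
  (bt_n (bt_n (bt_b bx4_0) (bt_n (bt_b bx4_1) (bt_b bx4_2))) (bt_n (bt_b bx4_3) (bt_n (bt_b bx4_4) (bt_b bx4_5))))
def S4 : StarD := StarD.mk cl9 cl4 cl7 1 3 t4
theorem bx5_0 : BoxOK sI cl9 cl7 cl4 t3 t1 b5_0 :=
  box_mk (TrL.c (I.pos (nat_lit 0) (nat_lit 0)) (xa (xa T3.l0 T3.l0) (xa (xb T3.l0 T3.l0) (xb T3.l0 T3.l0)))
  (TrL.c (I.pos (nat_lit 0) (nat_lit 0)) (xa T1.l6 (xk T1.l6 T1.l6))
  (TrL.c (I.pos (nat_lit 0) (nat_lit 124588530)) (xR T3.l4 (xR T3.l7 T3.l7))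
  (TrL.c (I.pos (nat_lit 0) (nat_lit 96881482)) (xR T1.l7 (xR T1.l7 T1.l7))
  (TrL.c (I.pos (nat_lit 0) (nat_lit 0)) (xa (xa T1.l8 T1.l8) (xk (xa T1.l8 (xb T1.l8 T1.l8)) (xa T1.l8 (xb T1.l8 (xs T1.l8 T1.l8)))))
  (TrL.c (I.pos (nat_lit 0) (nat_lit 0)) (xa T3.l8 T3.l8)
  (TrL.c (I.mix (nat_lit 17240550) (nat_lit 96881482)) (xR T1.l9 (xR T1.l9 T1.l9))
  (TrL.c (I.mix (nat_lit 17240550) (nat_lit 71940500)) (xR T3.l9 T3.l9)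
  TrL.n)))))))) (by decide +kernel)
theorem bx5_1 : BoxOK sI cl9 cl7 cl4 t3 t1 b5_1 :=
  box_mk (TrL.c (I.pos (nat_lit 0) (nat_lit 0)) T3.l0
  (TrL.c (I.pos (nat_lit 0) (nat_lit 0)) T1.l6
  (TrL.c (I.pos (nat_lit 0) (nat_lit 124588530)) (xR T3.l7 T3.l7)
  (TrL.c (I.pos (nat_lit 0) (nat_lit 96881482)) (xR T1.l7 T1.l7)
  (TrL.c (I.pos (nat_lit 0) (nat_lit 0)) T1.l8
  (TrL.c (I.pos (nat_lit 0) (nat_lit 0)) T3.l8
  (TrL.c (I.mix (nat_lit 17240550) (nat_lit 96881482)) (xR T1.l9 T1.l9)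
  (TrL.c (I.mix (nat_lit 17240550) (nat_lit 71940500)) T3.l4
  TrL.n)))))))) (by decide +kernel)
theorem bx5_2 : BoxOK sI cl9 cl7 cl4 t3 t1 b5_2 :=
  box_mk (TrL.c (I.pos (nat_lit 0) (nat_lit 0)) (xa T3.l0 T3.l0)
  (TrL.c (I.pos (nat_lit 0) (nat_lit 0)) T1.l6
  (TrL.c (I.pos (nat_lit 0) (nat_lit 124588530)) T3.l7
  (TrL.c (I.pos (nat_lit 0) (nat_lit 96881482)) T1.l9
  (TrL.c (I.pos (nat_lit 0) (nat_lit 0)) T1.l8
  (TrL.c (I.pos (nat_lit 0) (nat_lit 0)) T3.l8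
  (TrL.c (I.mix (nat_lit 17240550) (nat_lit 96881482)) T1.l9
  (TrL.c (I.mix (nat_lit 17240550) (nat_lit 71940500)) T3.l9
  TrL.n)))))))) (by decide +kernel)
theorem bx5_3 : BoxOK sI cl9 cl7 cl4 t3 t1 b5_3 :=
  box_mk (TrL.c (I.pos (nat_lit 0) (nat_lit 0)) (xb (xa T3.l0 T3.l0) (xa (xs T3.l0 (xb T3.l0 T3.l0)) (xs T3.l0 T3.l0)))
  (TrL.c (I.pos (nat_lit 0) (nat_lit 0)) (xb T1.l6 T1.l6)
  (TrL.c (I.pos (nat_lit 0) (nat_lit 124588530)) (xR T3.l7 (xR T3.l7 T3.l7))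
  (TrL.c (I.pos (nat_lit 0) (nat_lit 96881482)) (xR T1.l7 (xR T1.l7 T1.l7))
  (TrL.c (I.pos (nat_lit 0) (nat_lit 0)) (xb (xa T1.l8 T1.l8) (xb T1.l8 T1.l8))
  (TrL.c (I.pos (nat_lit 0) (nat_lit 0)) T3.l8
  (TrL.c (I.mix (nat_lit 17240550) (nat_lit 96881482)) (xR T1.l9 (xR T1.l9 T1.l9))
  (TrL.c (I.mix (nat_lit 17240550) (nat_lit 71940500)) (xR T3.l9 T3.l9)
  TrL.n)))))))) (by decide +kernel)
theorem bx5_4 : BoxOK sI cl9 cl7 cl4 t3 t1 b5_4 :=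
  box_mk (TrL.c (I.pos (nat_lit 0) (nat_lit 0)) (xa (xa T3.l0 T3.l0) T3.l0)
  (TrL.c (I.pos (nat_lit 0) (nat_lit 0)) (xa T1.l6 T1.l6)
  (TrL.c (I.pos (nat_lit 0) (nat_lit 124588530)) T3.l7
  (TrL.c (I.pos (nat_lit 0) (nat_lit 96881482)) (xR T1.l7 T1.l7)
  (TrL.c (I.pos (nat_lit 0) (nat_lit 0)) (xa T1.l8 T1.l8)
  (TrL.c (I.pos (nat_lit 0) (nat_lit 0)) T3.l8
  (TrL.c (I.mix (nat_lit 17240550) (nat_lit 96881482)) (xR T1.l9 T1.l9)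
  (TrL.c (I.mix (nat_lit 17240550) (nat_lit 71940500)) T3.l9
  TrL.n)))))))) (by decide +kernel)
theorem bx5_5 : BoxOK sI cl9 cl7 cl4 t3 t1 b5_5 :=
  box_mk (TrL.c (I.pos (nat_lit 0) (nat_lit 0)) T3.l0
  (TrL.c (I.pos (nat_lit 0) (nat_lit 0)) T1.l6
  (TrL.c (I.pos (nat_lit 0) (nat_lit 124588530)) (xR T3.l7 T3.l7)
  (TrL.c (I.pos (nat_lit 0) (nat_lit 96881482)) (xR T1.l7 T1.l7)
  (TrL.c (I.pos (nat_lit 0) (nat_lit 0)) T1.l8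
  (TrL.c (I.pos (nat_lit 0) (nat_lit 0)) T3.l8
  (TrL.c (I.mix (nat_lit 17240550) (nat_lit 96881482)) (xR T1.l9 T1.l9)
  (TrL.c (I.mix (nat_lit 17240550) (nat_lit 71940500)) T3.l4
  TrL.n)))))))) (by decide +kernel)
theorem bx5_6 : BoxOK sI cl9 cl7 cl4 t3 t1 b5_6 :=
  box_mk (TrL.c (I.pos (nat_lit 0) (nat_lit 0)) (xa (xa T3.l0 T3.l0) T3.l0)
  (TrL.c (I.pos (nat_lit 0) (nat_lit 0)) T1.l6
  (TrL.c (I.pos (nat_lit 0) (nat_lit 124588530)) T3.l7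
  (TrL.c (I.pos (nat_lit 0) (nat_lit 96881482)) (xR T1.l7 T1.l7)
  (TrL.c (I.pos (nat_lit 0) (nat_lit 0)) T1.l8
  (TrL.c (I.pos (nat_lit 0) (nat_lit 0)) T3.l8
  (TrL.c (I.mix (nat_lit 17240550) (nat_lit 96881482)) T1.l9
  (TrL.c (I.mix (nat_lit 17240550) (nat_lit 71940500)) T3.l9
  TrL.n)))))))) (by decide +kernel)
theorem bx5_7 : BoxOK sI cl9 cl7 cl4 t3 t1 b5_7 :=
  box_mk (TrL.c (I.pos (nat_lit 0) (nat_lit 0)) (xa T3.l0 T3.l0)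
  (TrL.c (I.pos (nat_lit 0) (nat_lit 0)) T1.l6
  (TrL.c (I.pos (nat_lit 0) (nat_lit 124588530)) T3.l7
  (TrL.c (I.pos (nat_lit 0) (nat_lit 96881482)) T1.l7
  (TrL.c (I.pos (nat_lit 0) (nat_lit 0)) T1.l8
  (TrL.c (I.pos (nat_lit 0) (nat_lit 0)) T3.l8
  (TrL.c (I.mix (nat_lit 17240550) (nat_lit 96881482)) T1.l9
  (TrL.c (I.mix (nat_lit 17240550) (nat_lit 71940500)) T3.l9
  TrL.n)))))))) (by decide +kernel)
theorem bx5_8 : BoxOK sI cl9 cl7 cl4 t3 t1 b5_8 :=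
  box_mk (TrL.c (I.pos (nat_lit 0) (nat_lit 0)) T3.l0
  (TrL.c (I.pos (nat_lit 0) (nat_lit 0)) T1.l6
  (TrL.c (I.pos (nat_lit 0) (nat_lit 124588530)) (xR T3.l7 T3.l7)
  (TrL.c (I.pos (nat_lit 0) (nat_lit 96881482)) (xR T1.l7 T1.l7)
  (TrL.c (I.pos (nat_lit 0) (nat_lit 0)) T1.l8
  (TrL.c (I.pos (nat_lit 0) (nat_lit 0)) T3.l8
  (TrL.c (I.mix (nat_lit 17240550) (nat_lit 96881482)) (xR T1.l9 T1.l9)
  (TrL.c (I.mix (nat_lit 17240550) (nat_lit 71940500)) T3.l4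
  TrL.n)))))))) (by decide +kernel)
theorem bx5_9 : BoxOK sI cl9 cl7 cl4 t3 t1 b5_9 :=
  box_mk (TrL.c (I.pos (nat_lit 0) (nat_lit 0)) (xa (xa T3.l0 T3.l0) T3.l0)
  (TrL.c (I.pos (nat_lit 0) (nat_lit 0)) T1.l6
  (TrL.c (I.pos (nat_lit 0) (nat_lit 124588530)) T3.l7
  (TrL.c (I.pos (nat_lit 0) (nat_lit 96881482)) T1.l9
  (TrL.c (I.pos (nat_lit 0) (nat_lit 0)) T1.l8
  (TrL.c (I.pos (nat_lit 0) (nat_lit 0)) T3.l8
  (TrL.c (I.mix (nat_lit 17240550) (nat_lit 96881482)) T1.l9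
  (TrL.c (I.mix (nat_lit 17240550) (nat_lit 71940500)) T3.l9
  TrL.n)))))))) (by decide +kernel)
theorem sv5 : StarV sI cl9 cl7 cl4 t3 t1 t5 :=
  (bt_n (bt_n (bt_n (bt_b bx5_0) (bt_b bx5_1)) (bt_n (bt_b bx5_2) (bt_n (bt_b bx5_3) (bt_b bx5_4)))) (bt_n (bt_n (bt_b bx5_5) (bt_b bx5_6)) (bt_n (bt_b bx5_7) (bt_n (bt_b bx5_8) (bt_b bx5_9)))))
def S5 : StarD := StarD.mk cl9 cl7 cl4 3 1 t5
def G : List StarD := [S0, S1, S2, S3, S4, S5]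
theorem so0 : StarOK sI G S0 :=
  star_mk (by decide) (by decide) rfl rfl rfl rfl rfl rfl (rfl : _ = t2) (rfl : _ = t4)
  (st_mk (Pth.l (Pth.l (Pth.l Pth.z))) (nat_lit 143222005) (nat_lit 167096615) (by decide +kernel))
  (st_mk (Pth.l (Pth.l (Pth.l Pth.z))) (nat_lit 179947749) (nat_lit 204809732) (by decide +kernel))
  (st_mk (Pth.l (Pth.l (Pth.l Pth.z))) (nat_lit 222869011) (nat_lit 249125311) (by decide +kernel)) sv0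
theorem so1 : StarOK sI G S1 :=
  star_mk (by decide) (by decide) rfl rfl rfl rfl rfl rfl (rfl : _ = t4) (rfl : _ = t2)
  (st_mk (Pth.l (Pth.l (Pth.l Pth.z))) (nat_lit 117442558) (nat_lit 137214384) (by decide +kernel))
  (st_mk (Pth.l (Pth.l (Pth.l Pth.z))) (nat_lit 154019787) (nat_lit 174728705) (by decide +kernel))
  (st_mk (Pth.l (Pth.l (Pth.l Pth.z))) (nat_lit 194944480) (nat_lit 220765252) (by decide +kernel)) sv1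
theorem so2 : StarOK sI G S2 :=
  star_mk (by decide) (by decide) rfl rfl rfl rfl rfl rfl (rfl : _ = t0) (rfl : _ = t5)
  (st_mk (Pth.l (Pth.l Pth.z)) (nat_lit 367794877) (nat_lit 372406634) (by decide +kernel))
  (st_mk (Pth.l (Pth.l Pth.z)) (nat_lit 403407115) (nat_lit 408637940) (by decide +kernel))
  (st_mk (Pth.l (Pth.l Pth.z)) (nat_lit 444582056) (nat_lit 450604326) (by decide +kernel)) sv2
theorem so3 : StarOK sI G S3 :=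
  star_mk (by decide) (by decide) rfl rfl rfl rfl rfl rfl (rfl : _ = t5) (rfl : _ = t0)
  (st_mk (Pth.l (Pth.l (Pth.l Pth.z))) (nat_lit 115765567) (nat_lit 134568394) (by decide +kernel))
  (st_mk (Pth.l (Pth.l (Pth.l Pth.z))) (nat_lit 151134417) (nat_lit 170399285) (by decide +kernel))
  (st_mk (Pth.l (Pth.l (Pth.l Pth.z))) (nat_lit 192102241) (nat_lit 212027195) (by decide +kernel)) sv3
theorem so4 : StarOK sI G S4 :=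
  star_mk (by decide) (by decide) rfl rfl rfl rfl rfl rfl (rfl : _ = t1) (rfl : _ = t3)
  (st_mk (Pth.l (Pth.l Pth.z)) (nat_lit 366422082) (nat_lit 369405329) (by decide +kernel))
  (st_mk (Pth.l (Pth.l Pth.z)) (nat_lit 401645507) (nat_lit 405126115) (by decide +kernel))
  (st_mk (Pth.l (Pth.l Pth.z)) (nat_lit 441788673) (nat_lit 446976391) (by decide +kernel)) sv4
theorem so5 : StarOK sI G S5 :=
  star_mk (by decide) (by decide) rfl rfl rfl rfl rfl rfl (rfl : _ = t3) (rfl : _ = t1)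
  (st_mk (Pth.l (Pth.l (Pth.l Pth.z))) (nat_lit 140420664) (nat_lit 162849156) (by decide +kernel))
  (st_mk (Pth.l (Pth.l (Pth.l Pth.z))) (nat_lit 175552078) (nat_lit 198366658) (by decide +kernel))
  (st_mk (Pth.l (Pth.l (Pth.l Pth.z))) (nat_lit 216152707) (nat_lit 239506072) (by decide +kernel)) sv5
theorem ok : GroupOK (nat_lit 0) (nat_lit 91291648) G := grp_mk (allS_c so0 (allS_c so1 (allS_c so2 (allS_c so3 (allS_c so4 (allS_c so5 allS_n))))))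
theorem cov : GCov G cl4 cl7 cl9 := cov_mk
  ⟨0, by decide, rfl, rfl, rfl⟩ ⟨1, by decide, rfl, rfl, rfl⟩ ⟨2, by decide, rfl, rfl, rfl⟩ ⟨3, by decide, rfl, rfl, rfl⟩ ⟨4, by decide, rfl, rfl, rfl⟩ ⟨5, by decide, rfl, rfl, rfl⟩
end Q145_0

namespace Q145_1
def sI : I := I.pos (nat_lit 91226112) (nat_lit 150339584)
def b0_0 : Bx := Bx.mk (St.mk (I.pos (nat_lit 158220288) (nat_lit 240025600)) (I.mix (nat_lit 2260992) (nat_lit 68304896)) (I.mix (nat_lit 7405568) (nat_lit 71122944)) (I.pos (nat_lit 142229504) (nat_lit 284917760)) (I.mix (nat_lit 102449152) (nat_lit 69697536)) (I.mix (nat_lit 72105984) (nat_lit 65290240)) (I.mix (nat_lit 107266048) (nat_lit 97959936)))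
  false (nat_lit 4520308)
def b0_1 : Bx := Bx.mk (St.mk (I.mix (nat_lit 24592384) (nat_lit 116965376)) (I.mix (nat_lit 8814592) (nat_lit 36651008)) (I.mix (nat_lit 29491200) (nat_lit 6651904)) (I.pos (nat_lit 38453248) (nat_lit 114016256)) (I.mix (nat_lit 37224448) (nat_lit 48136192)) (I.mix (nat_lit 43548672) (nat_lit 29360128)) (I.mix (nat_lit 31817728) (nat_lit 23756800)))
  false (nat_lit 0)
def b0_2 : Bx := Bx.mk (St.mk (I.pos (nat_lit 93405184) (nat_lit 139034624)) (I.mix (nat_lit 56885248) (nat_lit 11321344)) (I.neg (nat_lit 8683520) (nat_lit 74072064)) (I.pos (nat_lit 77496320) (nat_lit 135282688)) (I.mix (nat_lit 99532800) (nat_lit 38551552)) (I.mix (nat_lit 46071808) (nat_lit 89735168)) (I.mix (nat_lit 30572544) (nat_lit 74416128)))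
  false (nat_lit 0)
def b0_3 : Bx := Bx.mk (St.mk (I.mix (nat_lit 35012608) (nat_lit 68763648)) (I.mix (nat_lit 30048256) (nat_lit 5750784)) (I.neg (nat_lit 3489792) (nat_lit 27754496)) (I.pos (nat_lit 40075264) (nat_lit 81133568)) (I.mix (nat_lit 42123264) (nat_lit 20676608)) (I.mix (nat_lit 20365312) (nat_lit 37732352)) (I.mix (nat_lit 11255808) (nat_lit 16728064)))
  false (nat_lit 0)
def b0_4 : Bx := Bx.mk (St.mk (I.pos (nat_lit 88260608) (nat_lit 112836608)) (I.mix (nat_lit 10878976) (nat_lit 9486336)) (I.neg (nat_lit 8650752) (nat_lit 31653888)) (I.pos (nat_lit 75333632) (nat_lit 112263168)) (I.mix (nat_lit 32505856) (nat_lit 22904832)) (I.mix (nat_lit 24150016) (nat_lit 24199168)) (I.mix (nat_lit 17547264) (nat_lit 21348352)))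
  false (nat_lit 0)
def b0_5 : Bx := Bx.mk (St.mk (I.mix (nat_lit 44417024) (nat_lit 51576832)) (I.mix (nat_lit 7569408) (nat_lit 10747904)) (I.neg (nat_lit 5177344) (nat_lit 18186240)) (I.pos (nat_lit 41238528) (nat_lit 75464704)) (I.mix (nat_lit 22347776) (nat_lit 17219584)) (I.mix (nat_lit 18055168) (nat_lit 18202624)) (I.mix (nat_lit 7700480) (nat_lit 8650752)))
  false (nat_lit 0)
def b0_6 : Bx := Bx.mk (St.mk (I.pos (nat_lit 216875008) (nat_lit 261128192)) (I.mix (nat_lit 18579456) (nat_lit 18989056)) (I.neg (nat_lit 20185088) (nat_lit 101253120)) (I.pos (nat_lit 242581504) (nat_lit 331235328)) (I.mix (nat_lit 91553792) (nat_lit 25935872)) (I.mix (nat_lit 58425344) (nat_lit 62095360)) (I.mix (nat_lit 89554944) (nat_lit 122978304)))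
  false (nat_lit 0)
def b0_7 : Bx := Bx.mk (St.mk (I.pos (nat_lit 191987712) (nat_lit 254164992)) (I.mix (nat_lit 19283968) (nat_lit 67862528)) (I.mix (nat_lit 94470144) (nat_lit 67518464)) (I.pos (nat_lit 218202112) (nat_lit 311132160)) (I.mix (nat_lit 103628800) (nat_lit 84443136)) (I.mix (nat_lit 93863936) (nat_lit 79085568)) (I.mix (nat_lit 151912448) (nat_lit 152272896)))
  false (nat_lit 2764683)
def b0_8 : Bx := Bx.mk (St.mk (I.pos (nat_lit 83083264) (nat_lit 172244992)) (I.mix (nat_lit 62406656) (nat_lit 7110656)) (I.neg (nat_lit 12173312) (nat_lit 77004800)) (I.pos (nat_lit 84951040) (nat_lit 176275456)) (I.mix (nat_lit 99696640) (nat_lit 51167232)) (I.mix (nat_lit 51806208) (nat_lit 77856768)) (I.mix (nat_lit 39337984) (nat_lit 76677120)))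
  false (nat_lit 0)
def b0_9 : Bx := Bx.mk (St.mk (I.mix (nat_lit 31342592) (nat_lit 84377600)) (I.mix (nat_lit 34406400) (nat_lit 8716288)) (I.neg (nat_lit 2637824) (nat_lit 32751616)) (I.pos (nat_lit 37388288) (nat_lit 90685440)) (I.mix (nat_lit 44023808) (nat_lit 30326784)) (I.mix (nat_lit 25018368) (nat_lit 39190528)) (I.mix (nat_lit 13942784) (nat_lit 22642688)))
  false (nat_lit 0)
def b0_10 : Bx := Bx.mk (St.mk (I.pos (nat_lit 166723584) (nat_lit 223674368)) (I.mix (nat_lit 14188544) (nat_lit 66256896)) (I.mix (nat_lit 25772032) (nat_lit 70746112)) (I.pos (nat_lit 160022528) (nat_lit 255361024)) (I.mix (nat_lit 123240448) (nat_lit 50397184)) (I.mix (nat_lit 124190720) (nat_lit 77119488)) (I.mix (nat_lit 124715008) (nat_lit 78905344)))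
  false (nat_lit 5266635)
def b0_11 : Bx := Bx.mk (St.mk (I.mix (nat_lit 37896192) (nat_lit 118456320)) (I.mix (nat_lit 15089664) (nat_lit 39190528)) (I.mix (nat_lit 23887872) (nat_lit 11091968)) (I.pos (nat_lit 39206912) (nat_lit 111984640)) (I.mix (nat_lit 43220992) (nat_lit 39321600)) (I.mix (nat_lit 49758208) (nat_lit 34357248)) (I.mix (nat_lit 25985024) (nat_lit 18677760)))
  false (nat_lit 0)
def b0_12 : Bx := Bx.mk (St.mk (I.pos (nat_lit 139902976) (nat_lit 209960960)) (I.mix (nat_lit 39108608) (nat_lit 19644416)) (I.mix (nat_lit 63340544) (nat_lit 8749056)) (I.pos (nat_lit 124370944) (nat_lit 227508224)) (I.mix (nat_lit 66027520) (nat_lit 64225280)) (I.mix (nat_lit 73695232) (nat_lit 69402624)) (I.mix (nat_lit 75251712) (nat_lit 66437120)))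
  false (nat_lit 0)
def b0_13 : Bx := Bx.mk (St.mk (I.pos (nat_lit 166264832) (nat_lit 210796544)) (I.mix (nat_lit 18202624) (nat_lit 41648128)) (I.mix (nat_lit 34701312) (nat_lit 40140800)) (I.pos (nat_lit 161038336) (nat_lit 230293504)) (I.mix (nat_lit 109314048) (nat_lit 72744960)) (I.mix (nat_lit 131366912) (nat_lit 75268096)) (I.mix (nat_lit 136757248) (nat_lit 70680576)))
  false (nat_lit 0)
def t0 : BTr := (BTr.n (BTr.n (BTr.n (BTr.b b0_0) (BTr.n (BTr.b b0_1) (BTr.b b0_2))) (BTr.n (BTr.n (BTr.b b0_3) (BTr.b b0_4)) (BTr.n (BTr.b b0_5) (BTr.b b0_6)))) (BTr.n (BTr.n (BTr.b b0_7) (BTr.n (BTr.b b0_8) (BTr.b b0_9))) (BTr.n (BTr.n (BTr.b b0_10) (BTr.b b0_11)) (BTr.n (BTr.b b0_12) (BTr.b b0_13)))))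
namespace T0
def l0 : Tr := Tr.L (Pth.l (Pth.l (Pth.l Pth.z)))
def l1 : Tr := Tr.L (Pth.l (Pth.l (Pth.r (Pth.l Pth.z))))
def l2 : Tr := Tr.L (Pth.l (Pth.l (Pth.r (Pth.r Pth.z))))
def l3 : Tr := Tr.L (Pth.l (Pth.r (Pth.l (Pth.l Pth.z))))
def l4 : Tr := Tr.L (Pth.l (Pth.r (Pth.l (Pth.r Pth.z))))
def l5 : Tr := Tr.L (Pth.l (Pth.r (Pth.r (Pth.l Pth.z))))
def l6 : Tr := Tr.L (Pth.l (Pth.r (Pth.r (Pth.r Pth.z))))
def l7 : Tr := Tr.L (Pth.r (Pth.l (Pth.l Pth.z)))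
def l8 : Tr := Tr.L (Pth.r (Pth.l (Pth.r (Pth.l Pth.z))))
def l9 : Tr := Tr.L (Pth.r (Pth.l (Pth.r (Pth.r Pth.z))))
def l10 : Tr := Tr.L (Pth.r (Pth.r (Pth.l (Pth.l Pth.z))))
def l11 : Tr := Tr.L (Pth.r (Pth.r (Pth.l (Pth.r Pth.z))))
def l12 : Tr := Tr.L (Pth.r (Pth.r (Pth.r (Pth.l Pth.z))))
def l13 : Tr := Tr.L (Pth.r (Pth.r (Pth.r (Pth.r Pth.z))))
end T0
def b1_0 : Bx := Bx.mk (St.mk (I.pos (nat_lit 158171136) (nat_lit 241729536)) (I.mix (nat_lit 2064384) (nat_lit 61636608)) (I.mix (nat_lit 2473984) (nat_lit 75890688)) (I.pos (nat_lit 114212864) (nat_lit 258408448)) (I.mix (nat_lit 99221504) (nat_lit 63045632)) (I.mix (nat_lit 72433664) (nat_lit 65814528)) (I.mix (nat_lit 105250816) (nat_lit 88637440)))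
  false (nat_lit 0)
def b1_1 : Bx := Bx.mk (St.mk (I.mix (nat_lit 19185664) (nat_lit 132595712)) (I.mix (nat_lit 7454720) (nat_lit 30556160)) (I.mix (nat_lit 22020096) (nat_lit 12058624)) (I.pos (nat_lit 14172160) (nat_lit 98304000)) (I.mix (nat_lit 33685504) (nat_lit 41926656)) (I.mix (nat_lit 39026688) (nat_lit 27181056)) (I.mix (nat_lit 30720000) (nat_lit 21479424)))
  false (nat_lit 0)
def b1_2 : Bx := Bx.mk (St.mk (I.pos (nat_lit 106676224) (nat_lit 149651456)) (I.mix (nat_lit 51724288) (nat_lit 10272768)) (I.neg (nat_lit 3653632) (nat_lit 66748416)) (I.pos (nat_lit 62504960) (nat_lit 119521280)) (I.mix (nat_lit 95207424) (nat_lit 35995648)) (I.mix (nat_lit 40763392) (nat_lit 89325568)) (I.mix (nat_lit 29212672) (nat_lit 79773696)))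
  false (nat_lit 0)
def b1_3 : Bx := Bx.mk (St.mk (I.mix (nat_lit 20791296) (nat_lit 90161152)) (I.mix (nat_lit 26017792) (nat_lit 4915200)) (I.neg (nat_lit 688128) (nat_lit 24969216)) (I.pos (nat_lit 16252928) (nat_lit 66191360)) (I.mix (nat_lit 36110336) (nat_lit 16760832)) (I.mix (nat_lit 17170432) (nat_lit 35274752)) (I.mix (nat_lit 9437184) (nat_lit 19136512)))
  false (nat_lit 0)
def b1_4 : Bx := Bx.mk (St.mk (I.pos (nat_lit 192937984) (nat_lit 254328832)) (I.mix (nat_lit 18350080) (nat_lit 62423040)) (I.mix (nat_lit 76021760) (nat_lit 74989568)) (I.pos (nat_lit 192937984) (nat_lit 281526272)) (I.mix (nat_lit 100450304) (nat_lit 80609280)) (I.mix (nat_lit 92291072) (nat_lit 74563584)) (I.mix (nat_lit 148570112) (nat_lit 139149312)))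
  false (nat_lit 0)
def b1_5 : Bx := Bx.mk (St.mk (I.mix (nat_lit 26918912) (nat_lit 79249408)) (I.mix (nat_lit 4063232) (nat_lit 5832704)) (I.neg (nat_lit 1474560) (nat_lit 10993664)) (I.pos (nat_lit 16498688) (nat_lit 59244544)) (I.mix (nat_lit 11665408) (nat_lit 8667136)) (I.mix (nat_lit 9338880) (nat_lit 8781824)) (I.mix (nat_lit 2555904) (nat_lit 2686976)))
  false (nat_lit 0)
def b1_6 : Bx := Bx.mk (St.mk (I.pos (nat_lit 102744064) (nat_lit 125616128)) (I.mix (nat_lit 9502720) (nat_lit 8175616)) (I.neg (nat_lit 3899392) (nat_lit 24166400)) (I.pos (nat_lit 60538880) (nat_lit 96321536)) (I.mix (nat_lit 27049984) (nat_lit 17973248)) (I.mix (nat_lit 18579456) (nat_lit 20119552)) (I.mix (nat_lit 14893056) (nat_lit 18923520)))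
  false (nat_lit 0)
def b1_7 : Bx := Bx.mk (St.mk (I.pos (nat_lit 218365952) (nat_lit 259702784)) (I.mix (nat_lit 17203200) (nat_lit 18841600)) (I.neg (nat_lit 6864896) (nat_lit 79970304)) (I.pos (nat_lit 220807168) (nat_lit 300580864)) (I.mix (nat_lit 79347712) (nat_lit 25985024)) (I.mix (nat_lit 50855936) (nat_lit 48775168)) (I.mix (nat_lit 80396288) (nat_lit 93896704)))
  false (nat_lit 0)
def b1_8 : Bx := Bx.mk (St.mk (I.pos (nat_lit 97189888) (nat_lit 180715520)) (I.mix (nat_lit 58179584) (nat_lit 7159808)) (I.neg (nat_lit 8355840) (nat_lit 69550080)) (I.pos (nat_lit 71680000) (nat_lit 160235520)) (I.mix (nat_lit 91439104) (nat_lit 47038464)) (I.mix (nat_lit 50446336) (nat_lit 72318976)) (I.mix (nat_lit 41811968) (nat_lit 74792960)))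
  false (nat_lit 0)
def b1_9 : Bx := Bx.mk (St.mk (I.mix (nat_lit 22347776) (nat_lit 104824832)) (I.mix (nat_lit 30457856) (nat_lit 7241728)) (I.neg (nat_lit 196608) (nat_lit 28688384)) (I.pos (nat_lit 14417920) (nat_lit 76660736)) (I.mix (nat_lit 39256064) (nat_lit 28033024)) (I.mix (nat_lit 23527424) (nat_lit 34553856)) (I.mix (nat_lit 13385728) (nat_lit 22413312)))
  false (nat_lit 0)
def b1_10 : Bx := Bx.mk (St.mk (I.pos (nat_lit 170459136) (nat_lit 221560832)) (I.mix (nat_lit 17072128) (nat_lit 58638336)) (I.mix (nat_lit 22740992) (nat_lit 72466432)) (I.pos (nat_lit 136413184) (nat_lit 225755136)) (I.mix (nat_lit 119898112) (nat_lit 46022656)) (I.mix (nat_lit 123944960) (nat_lit 70533120)) (I.mix (nat_lit 135462912) (nat_lit 75661312)))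
  false (nat_lit 0)
def b1_11 : Bx := Bx.mk (St.mk (I.mix (nat_lit 25247744) (nat_lit 131694592)) (I.mix (nat_lit 15089664) (nat_lit 36257792)) (I.mix (nat_lit 20004864) (nat_lit 17776640)) (I.pos (nat_lit 15220736) (nat_lit 96337920)) (I.mix (nat_lit 46825472) (nat_lit 35323904)) (I.mix (nat_lit 48332800) (nat_lit 32604160)) (I.mix (nat_lit 28753920) (nat_lit 19447808)))
  false (nat_lit 0)
def b1_12 : Bx := Bx.mk (St.mk (I.pos (nat_lit 144998400) (nat_lit 211615744)) (I.mix (nat_lit 43532288) (nat_lit 15630336)) (I.mix (nat_lit 64421888) (nat_lit 11206656)) (I.pos (nat_lit 105545728) (nat_lit 203259904)) (I.mix (nat_lit 67764224) (nat_lit 60375040)) (I.mix (nat_lit 68927488) (nat_lit 67026944)) (I.mix (nat_lit 73482240) (nat_lit 68517888)))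
  false (nat_lit 0)
def b1_13 : Bx := Bx.mk (St.mk (I.pos (nat_lit 171720704) (nat_lit 211009536)) (I.mix (nat_lit 21102592) (nat_lit 33144832)) (I.mix (nat_lit 31948800) (nat_lit 38305792)) (I.pos (nat_lit 141524992) (nat_lit 203177984)) (I.mix (nat_lit 104054784) (nat_lit 65142784)) (I.mix (nat_lit 121339904) (nat_lit 70156288)) (I.mix (nat_lit 133906432) (nat_lit 71843840)))
  false (nat_lit 0)
def t1 : BTr := (BTr.n (BTr.n (BTr.n (BTr.b b1_0) (BTr.n (BTr.b b1_1) (BTr.b b1_2))) (BTr.n (BTr.n (BTr.b b1_3) (BTr.b b1_4)) (BTr.n (BTr.b b1_5) (BTr.b b1_6)))) (BTr.n (BTr.n (BTr.b b1_7) (BTr.n (BTr.b b1_8) (BTr.b b1_9))) (BTr.n (BTr.n (BTr.b b1_10) (BTr.b b1_11)) (BTr.n (BTr.b b1_12) (BTr.b b1_13)))))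
namespace T1
def l0 : Tr := Tr.L (Pth.l (Pth.l (Pth.l Pth.z)))
def l1 : Tr := Tr.L (Pth.l (Pth.l (Pth.r (Pth.l Pth.z))))
def l2 : Tr := Tr.L (Pth.l (Pth.l (Pth.r (Pth.r Pth.z))))
def l3 : Tr := Tr.L (Pth.l (Pth.r (Pth.l (Pth.l Pth.z))))
def l4 : Tr := Tr.L (Pth.l (Pth.r (Pth.l (Pth.r Pth.z))))
def l5 : Tr := Tr.L (Pth.l (Pth.r (Pth.r (Pth.l Pth.z))))
def l6 : Tr := Tr.L (Pth.l (Pth.r (Pth.r (Pth.r Pth.z))))
def l7 : Tr := Tr.L (Pth.r (Pth.l (Pth.l Pth.z)))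
def l8 : Tr := Tr.L (Pth.r (Pth.l (Pth.r (Pth.l Pth.z))))
def l9 : Tr := Tr.L (Pth.r (Pth.l (Pth.r (Pth.r Pth.z))))
def l10 : Tr := Tr.L (Pth.r (Pth.r (Pth.l (Pth.l Pth.z))))
def l11 : Tr := Tr.L (Pth.r (Pth.r (Pth.l (Pth.r Pth.z))))
def l12 : Tr := Tr.L (Pth.r (Pth.r (Pth.r (Pth.l Pth.z))))
def l13 : Tr := Tr.L (Pth.r (Pth.r (Pth.r (Pth.r Pth.z))))
end T1
def b2_0 : Bx := Bx.mk (St.mk (I.pos (nat_lit 138280960) (nat_lit 218972160)) (I.mix (nat_lit 3211264) (nat_lit 100974592)) (I.mix (nat_lit 3276800) (nat_lit 103137280)) (I.pos (nat_lit 366510080) (nat_lit 455868416)) (I.mix (nat_lit 146587648) (nat_lit 84049920)) (I.mix (nat_lit 98435072) (nat_lit 88178688)) (I.mix (nat_lit 113721344) (nat_lit 113278976)))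
  false (nat_lit 93937548)
def b2_1 : Bx := Bx.mk (St.mk (I.mix (nat_lit 58425344) (nat_lit 17596416)) (I.mix (nat_lit 18284544) (nat_lit 92700672)) (I.neg (nat_lit 42254336) (nat_lit 71090176)) (I.pos (nat_lit 262701056) (nat_lit 291536896)) (I.mix (nat_lit 46661632) (nat_lit 102481920)) (I.mix (nat_lit 89391104) (nat_lit 64110592)) (I.mix (nat_lit 39452672) (nat_lit 31752192)))
  true (nat_lit 0)
def b2_2 : Bx := Bx.mk (St.mk (I.pos (nat_lit 14139392) (nat_lit 57507840)) (I.neg (nat_lit 30572544) (nat_lit 91275264)) (I.neg (nat_lit 43008000) (nat_lit 71057408)) (I.pos (nat_lit 267091968) (nat_lit 291405824)) (I.mix (nat_lit 102481920) (nat_lit 46710784)) (I.mix (nat_lit 63848448) (nat_lit 78036992)) (I.mix (nat_lit 39436288) (nat_lit 31752192)))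
  false (nat_lit 0)
def b2_3 : Bx := Bx.mk (St.mk (I.pos (nat_lit 17891328) (nat_lit 124239872)) (I.neg (nat_lit 131072) (nat_lit 98369536)) (I.mix (nat_lit 88489984) (nat_lit 1785856)) (I.pos (nat_lit 261177344) (nat_lit 335167488)) (I.mix (nat_lit 112754688) (nat_lit 73580544)) (I.mix (nat_lit 77660160) (nat_lit 91996160)) (I.mix (nat_lit 77545472) (nat_lit 74645504)))
  false (nat_lit 24564452)
def b2_4 : Bx := Bx.mk (St.mk (I.pos (nat_lit 92798976) (nat_lit 190529536)) (I.mix (nat_lit 44433408) (nat_lit 95502336)) (I.mix (nat_lit 43433984) (nat_lit 103890944)) (I.pos (nat_lit 300630016) (nat_lit 421412864)) (I.mix (nat_lit 155746304) (nat_lit 70385664)) (I.mix (nat_lit 141328384) (nat_lit 100974592)) (I.mix (nat_lit 137510912) (nat_lit 126189568)))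
  false (nat_lit 80821042)
def b2_5 : Bx := Bx.mk (St.mk (I.neg (nat_lit 17891328) (nat_lit 124239872)) (I.pos (nat_lit 131072) (nat_lit 98369536)) (I.mix (nat_lit 88489984) (nat_lit 1785856)) (I.pos (nat_lit 261177344) (nat_lit 335167488)) (I.mix (nat_lit 73580544) (nat_lit 112771072)) (I.mix (nat_lit 91996160) (nat_lit 77660160)) (I.mix (nat_lit 77545472) (nat_lit 74645504)))
  true (nat_lit 0)
def b2_6 : Bx := Bx.mk (St.mk (I.pos (nat_lit 173899776) (nat_lit 291586048)) (I.mix (nat_lit 34095104) (nat_lit 64782336)) (I.mix (nat_lit 175833088) (nat_lit 38338560)) (I.pos (nat_lit 401555456) (nat_lit 585121792)) (I.mix (nat_lit 94650368) (nat_lit 75579392)) (I.mix (nat_lit 79265792) (nat_lit 66863104)) (I.mix (nat_lit 130973696) (nat_lit 125091840)))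
  false (nat_lit 67099082)
def b2_7 : Bx := Bx.mk (St.mk (I.mix (nat_lit 17301504) (nat_lit 45514752)) (I.mix (nat_lit 50249728) (nat_lit 17088512)) (I.neg (nat_lit 42582016) (nat_lit 59899904)) (I.pos (nat_lit 263241728) (nat_lit 279511040)) (I.mix (nat_lit 56049664) (nat_lit 45367296)) (I.mix (nat_lit 43450368) (nat_lit 48037888)) (I.mix (nat_lit 13205504) (nat_lit 16990208)))
  false (nat_lit 0)
def b2_8 : Bx := Bx.mk (St.mk (I.pos (nat_lit 154107904) (nat_lit 220266496)) (I.pos (nat_lit 19480576) (nat_lit 98779136)) (I.mix (nat_lit 23035904) (nat_lit 93536256)) (I.pos (nat_lit 389611520) (nat_lit 451051520)) (I.mix (nat_lit 116015104) (nat_lit 93290496)) (I.mix (nat_lit 102547456) (nat_lit 74792960)) (I.mix (nat_lit 147980288) (nat_lit 99434496)))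
  false (nat_lit 69880426)
def b2_9 : Bx := Bx.mk (St.mk (I.pos (nat_lit 16875520) (nat_lit 49348608)) (I.neg (nat_lit 20725760) (nat_lit 81166336)) (I.neg (nat_lit 44007424) (nat_lit 69517312)) (I.pos (nat_lit 266878976) (nat_lit 286179328)) (I.mix (nat_lit 101990400) (nat_lit 44007424)) (I.mix (nat_lit 47661056) (nat_lit 90423296)) (I.mix (nat_lit 27197440) (nat_lit 25149440)))
  false (nat_lit 0)
def t2 : BTr := (BTr.n (BTr.n (BTr.n (BTr.b b2_0) (BTr.b b2_1)) (BTr.n (BTr.b b2_2) (BTr.n (BTr.b b2_3) (BTr.b b2_4)))) (BTr.n (BTr.n (BTr.b b2_5) (BTr.b b2_6)) (BTr.n (BTr.b b2_7) (BTr.n (BTr.b b2_8) (BTr.b b2_9)))))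
namespace T2
def l0 : Tr := Tr.L (Pth.l (Pth.l (Pth.l Pth.z)))
def l1 : Tr := Tr.L (Pth.l (Pth.l (Pth.r Pth.z)))
def l2 : Tr := Tr.L (Pth.l (Pth.r (Pth.l Pth.z)))
def l3 : Tr := Tr.L (Pth.l (Pth.r (Pth.r (Pth.l Pth.z))))
def l4 : Tr := Tr.L (Pth.l (Pth.r (Pth.r (Pth.r Pth.z))))
def l5 : Tr := Tr.L (Pth.r (Pth.l (Pth.l Pth.z)))
def l6 : Tr := Tr.L (Pth.r (Pth.l (Pth.r Pth.z)))
def l7 : Tr := Tr.L (Pth.r (Pth.r (Pth.l Pth.z)))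
def l8 : Tr := Tr.L (Pth.r (Pth.r (Pth.r (Pth.l Pth.z))))
def l9 : Tr := Tr.L (Pth.r (Pth.r (Pth.r (Pth.r Pth.z))))
end T2
def b3_0 : Bx := Bx.mk (St.mk (I.pos (nat_lit 157810688) (nat_lit 235831296)) (I.mix (nat_lit 1687552) (nat_lit 48906240)) (I.mix (nat_lit 3588096) (nat_lit 113934336)) (I.pos (nat_lit 112672768) (nat_lit 230129664)) (I.mix (nat_lit 105070592) (nat_lit 61554688)) (I.mix (nat_lit 90423296) (nat_lit 73220096)) (I.mix (nat_lit 127582208) (nat_lit 95191040)))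
  false (nat_lit 3417052)
def b3_1 : Bx := Bx.mk (St.mk (I.pos (nat_lit 112803840) (nat_lit 175439872)) (I.neg (nat_lit 671744) (nat_lit 60489728)) (I.mix (nat_lit 44515328) (nat_lit 21676032)) (I.pos (nat_lit 85164032) (nat_lit 146685952)) (I.mix (nat_lit 78479360) (nat_lit 58851328)) (I.mix (nat_lit 54624256) (nat_lit 73138176)) (I.mix (nat_lit 46071808) (nat_lit 71450624)))
  false (nat_lit 9312993)
def b3_2 : Bx := Bx.mk (St.mk (I.mix (nat_lit 16465920) (nat_lit 104906752)) (I.mix (nat_lit 29868032) (nat_lit 4685824)) (I.mix (nat_lit 10338304) (nat_lit 14123008)) (I.pos (nat_lit 15204352) (nat_lit 74416128)) (I.mix (nat_lit 25542656) (nat_lit 32800768)) (I.mix (nat_lit 20774912) (nat_lit 29474816)) (I.mix (nat_lit 11927552) (nat_lit 18333696)))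
  false (nat_lit 0)
def b3_3 : Bx := Bx.mk (St.mk (I.pos (nat_lit 164708352) (nat_lit 211910656)) (I.mix (nat_lit 17793024) (nat_lit 50479104)) (I.pos (nat_lit 13828096) (nat_lit 107282432)) (I.pos (nat_lit 119144448) (nat_lit 201490432)) (I.mix (nat_lit 127533056) (nat_lit 43483136)) (I.mix (nat_lit 126599168) (nat_lit 64225280)) (I.mix (nat_lit 156925952) (nat_lit 58949632)))
  false (nat_lit 0)
def b3_4 : Bx := Bx.mk (St.mk (I.mix (nat_lit 22790144) (nat_lit 124026880)) (I.mix (nat_lit 13959168) (nat_lit 36126720)) (I.mix (nat_lit 770048) (nat_lit 39944192)) (I.pos (nat_lit 15335424) (nat_lit 90783744)) (I.mix (nat_lit 60391424) (nat_lit 29802496)) (I.mix (nat_lit 57016320) (nat_lit 30375936)) (I.mix (nat_lit 38305792) (nat_lit 18087936)))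
  false (nat_lit 0)
def b3_5 : Bx := Bx.mk (St.mk (I.pos (nat_lit 162299904) (nat_lit 205340672)) (I.mix (nat_lit 41713664) (nat_lit 27181056)) (I.mix (nat_lit 17907712) (nat_lit 74285056)) (I.pos (nat_lit 117391360) (nat_lit 189595648)) (I.mix (nat_lit 115228672) (nat_lit 69222400)) (I.mix (nat_lit 128057344) (nat_lit 67174400)) (I.mix (nat_lit 150732800) (nat_lit 70320128)))
  false (nat_lit 20780854)
def b3_6 : Bx := Bx.mk (St.mk (I.mix (nat_lit 28770304) (nat_lit 107003904)) (I.mix (nat_lit 17121280) (nat_lit 6569984)) (I.mix (nat_lit 917504) (nat_lit 15908864)) (I.pos (nat_lit 15876096) (nat_lit 75792384)) (I.mix (nat_lit 24150016) (nat_lit 18284544)) (I.mix (nat_lit 18399232) (nat_lit 19955712)) (I.mix (nat_lit 12058624) (nat_lit 11026432)))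
  false (nat_lit 0)
def b3_7 : Bx := Bx.mk (St.mk (I.pos (nat_lit 147816448) (nat_lit 179142656)) (I.neg (nat_lit 802816) (nat_lit 37421056)) (I.mix (nat_lit 12910592) (nat_lit 27983872)) (I.pos (nat_lit 107413504) (nat_lit 153780224)) (I.mix (nat_lit 47382528) (nat_lit 35930112)) (I.mix (nat_lit 30998528) (nat_lit 39403520)) (I.mix (nat_lit 37273600) (nat_lit 36667392)))
  false (nat_lit 0)
def b3_8 : Bx := Bx.mk (St.mk (I.pos (nat_lit 157958144) (nat_lit 184729600)) (I.neg (nat_lit 6569984) (nat_lit 36077568)) (I.mix (nat_lit 12877824) (nat_lit 23625728)) (I.pos (nat_lit 117112832) (nat_lit 164085760)) (I.mix (nat_lit 31801344) (nat_lit 29065216)) (I.mix (nat_lit 24805376) (nat_lit 24166400)) (I.mix (nat_lit 24870912) (nat_lit 25591808)))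
  false (nat_lit 0)
def b3_9 : Bx := Bx.mk (St.mk (I.mix (nat_lit 25362432) (nat_lit 135118848)) (I.mix (nat_lit 8962048) (nat_lit 27164672)) (I.mix (nat_lit 425984) (nat_lit 34881536)) (I.pos (nat_lit 13254656) (nat_lit 102023168)) (I.mix (nat_lit 41189376) (nat_lit 34275328)) (I.mix (nat_lit 43302912) (nat_lit 30670848)) (I.mix (nat_lit 34832384) (nat_lit 21233664)))
  false (nat_lit 0)
def b3_10 : Bx := Bx.mk (St.mk (I.pos (nat_lit 105938944) (nat_lit 162168832)) (I.mix (nat_lit 60669952) (nat_lit 10682368)) (I.mix (nat_lit 41320448) (nat_lit 21397504)) (I.pos (nat_lit 62488576) (nat_lit 132628480)) (I.mix (nat_lit 80953344) (nat_lit 39714816)) (I.mix (nat_lit 40730624) (nat_lit 74186752)) (I.mix (nat_lit 30556160) (nat_lit 54788096)))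
  false (nat_lit 0)
def b3_11 : Bx := Bx.mk (St.mk (I.mix (nat_lit 23216128) (nat_lit 96993280)) (I.mix (nat_lit 27836416) (nat_lit 4980736)) (I.mix (nat_lit 8568832) (nat_lit 9732096)) (I.pos (nat_lit 16203776) (nat_lit 69582848)) (I.mix (nat_lit 27000832) (nat_lit 18153472)) (I.mix (nat_lit 18415616) (nat_lit 28819456)) (I.mix (nat_lit 9240576) (nat_lit 13680640)))
  false (nat_lit 0)
def b3_12 : Bx := Bx.mk (St.mk (I.pos (nat_lit 190349312) (nat_lit 284704768)) (I.mix (nat_lit 25346048) (nat_lit 36782080)) (I.mix (nat_lit 15564800) (nat_lit 98762752)) (I.pos (nat_lit 175915008) (nat_lit 340819968)) (I.mix (nat_lit 82477056) (nat_lit 59457536)) (I.mix (nat_lit 63373312) (nat_lit 50266112)) (I.mix (nat_lit 107298816) (nat_lit 82837504)))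
  false (nat_lit 41432311)
def b3_13 : Bx := Bx.mk (St.mk (I.pos (nat_lit 179863552) (nat_lit 233619456)) (I.pos (nat_lit 3899392) (nat_lit 48676864)) (I.pos (nat_lit 32063488) (nat_lit 113475584)) (I.pos (nat_lit 165347328) (nat_lit 225443840)) (I.mix (nat_lit 102563840) (nat_lit 70959104)) (I.mix (nat_lit 95698944) (nat_lit 71106560)) (I.mix (nat_lit 147554304) (nat_lit 93257728)))
  false (nat_lit 17332692)
def t3 : BTr := (BTr.n (BTr.n (BTr.n (BTr.b b3_0) (BTr.n (BTr.b b3_1) (BTr.b b3_2))) (BTr.n (BTr.n (BTr.b b3_3) (BTr.b b3_4)) (BTr.n (BTr.b b3_5) (BTr.b b3_6)))) (BTr.n (BTr.n (BTr.b b3_7) (BTr.n (BTr.b b3_8) (BTr.b b3_9))) (BTr.n (BTr.n (BTr.b b3_10) (BTr.b b3_11)) (BTr.n (BTr.b b3_12) (BTr.b b3_13)))))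
namespace T3
def l0 : Tr := Tr.L (Pth.l (Pth.l (Pth.l Pth.z)))
def l1 : Tr := Tr.L (Pth.l (Pth.l (Pth.r (Pth.l Pth.z))))
def l2 : Tr := Tr.L (Pth.l (Pth.l (Pth.r (Pth.r Pth.z))))
def l3 : Tr := Tr.L (Pth.l (Pth.r (Pth.l (Pth.l Pth.z))))
def l4 : Tr := Tr.L (Pth.l (Pth.r (Pth.l (Pth.r Pth.z))))
def l5 : Tr := Tr.L (Pth.l (Pth.r (Pth.r (Pth.l Pth.z))))
def l6 : Tr := Tr.L (Pth.l (Pth.r (Pth.r (Pth.r Pth.z))))
def l7 : Tr := Tr.L (Pth.r (Pth.l (Pth.l Pth.z)))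
def l8 : Tr := Tr.L (Pth.r (Pth.l (Pth.r (Pth.l Pth.z))))
def l9 : Tr := Tr.L (Pth.r (Pth.l (Pth.r (Pth.r Pth.z))))
def l10 : Tr := Tr.L (Pth.r (Pth.r (Pth.l (Pth.l Pth.z))))
def l11 : Tr := Tr.L (Pth.r (Pth.r (Pth.l (Pth.r Pth.z))))
def l12 : Tr := Tr.L (Pth.r (Pth.r (Pth.r (Pth.l Pth.z))))
def l13 : Tr := Tr.L (Pth.r (Pth.r (Pth.r (Pth.r Pth.z))))
end T3
def b4_0 : Bx := Bx.mk (St.mk (I.pos (nat_lit 133922816) (nat_lit 217661440)) (I.mix (nat_lit 3112960) (nat_lit 97665024)) (I.mix (nat_lit 3604480) (nat_lit 114786304)) (I.pos (nat_lit 362790912) (nat_lit 450461696)) (I.mix (nat_lit 151093248) (nat_lit 82345984)) (I.mix (nat_lit 101924864) (nat_lit 86540288)) (I.mix (nat_lit 115523584) (nat_lit 110329856)))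
  false (nat_lit 101847506)
def b4_1 : Bx := Bx.mk (St.mk (I.pos (nat_lit 22724608) (nat_lit 128876544)) (I.neg (nat_lit 425984) (nat_lit 98992128)) (I.mix (nat_lit 75808768) (nat_lit 18612224)) (I.pos (nat_lit 264142848) (nat_lit 334626816)) (I.mix (nat_lit 115687424) (nat_lit 76283904)) (I.mix (nat_lit 78184448) (nat_lit 86687744)) (I.mix (nat_lit 75186176) (nat_lit 69550080)))
  false (nat_lit 36868488)
def b4_2 : Bx := Bx.mk (St.mk (I.pos (nat_lit 90800128) (nat_lit 190382080)) (I.mix (nat_lit 46891008) (nat_lit 94601216)) (I.mix (nat_lit 30212096) (nat_lit 119177216)) (I.pos (nat_lit 298713088) (nat_lit 418119680)) (I.mix (nat_lit 163020800) (nat_lit 70680576)) (I.mix (nat_lit 147030016) (nat_lit 101629952)) (I.mix (nat_lit 143245312) (nat_lit 128450560)))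
  false (nat_lit 116242344)
def b4_3 : Bx := Bx.mk (St.mk (I.neg (nat_lit 22724608) (nat_lit 128876544)) (I.pos (nat_lit 409600) (nat_lit 99008512)) (I.mix (nat_lit 75808768) (nat_lit 18612224)) (I.pos (nat_lit 264142848) (nat_lit 334626816)) (I.mix (nat_lit 76283904) (nat_lit 115687424)) (I.mix (nat_lit 86687744) (nat_lit 78184448)) (I.mix (nat_lit 75186176) (nat_lit 69550080)))
  true (nat_lit 0)
def b4_4 : Bx := Bx.mk (St.mk (I.mix (nat_lit 58146816) (nat_lit 14663680)) (I.mix (nat_lit 15466496) (nat_lit 88227840)) (I.neg (nat_lit 31129600) (nat_lit 58376192)) (I.pos (nat_lit 263700480) (nat_lit 290865152)) (I.mix (nat_lit 47398912) (nat_lit 93487104)) (I.mix (nat_lit 86556672) (nat_lit 53379072)) (I.mix (nat_lit 31031296) (nat_lit 23429120)))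
  true (nat_lit 0)
def b4_5 : Bx := Bx.mk (St.mk (I.pos (nat_lit 17580032) (nat_lit 57196544)) (I.neg (nat_lit 31670272) (nat_lit 86851584)) (I.neg (nat_lit 34193408) (nat_lit 58294272)) (I.pos (nat_lit 268992512) (nat_lit 290701312)) (I.mix (nat_lit 93470720) (nat_lit 33325056)) (I.mix (nat_lit 53379072) (nat_lit 69599232)) (I.mix (nat_lit 31047680) (nat_lit 19103744)))
  false (nat_lit 0)
def b4_6 : Bx := Bx.mk (St.mk (I.pos (nat_lit 168787968) (nat_lit 290062336)) (I.mix (nat_lit 29392896) (nat_lit 66338816)) (I.mix (nat_lit 140099584) (nat_lit 63340544)) (I.pos (nat_lit 394592256) (nat_lit 578011136)) (I.mix (nat_lit 96419840) (nat_lit 70123520)) (I.mix (nat_lit 73711616) (nat_lit 58884096)) (I.mix (nat_lit 127172608) (nat_lit 99565568)))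
  false (nat_lit 77997057)
def b4_7 : Bx := Bx.mk (St.mk (I.mix (nat_lit 14434304) (nat_lit 48971776)) (I.mix (nat_lit 53280768) (nat_lit 14450688)) (I.neg (nat_lit 31424512) (nat_lit 48152576)) (I.pos (nat_lit 264257536) (nat_lit 280756224)) (I.mix (nat_lit 53100544) (nat_lit 44613632)) (I.mix (nat_lit 41369600) (nat_lit 45416448)) (I.mix (nat_lit 12828672) (nat_lit 14909440)))
  false (nat_lit 0)
def b4_8 : Bx := Bx.mk (St.mk (I.pos (nat_lit 151584768) (nat_lit 212877312)) (I.pos (nat_lit 30097408) (nat_lit 94388224)) (I.pos (nat_lit 19185664) (nat_lit 106266624)) (I.pos (nat_lit 383352832) (nat_lit 440565760)) (I.mix (nat_lit 117456896) (nat_lit 91406336)) (I.mix (nat_lit 105463808) (nat_lit 72515584)) (I.mix (nat_lit 149307392) (nat_lit 94060544)))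
  false (nat_lit 70919956)
def b4_9 : Bx := Bx.mk (St.mk (I.pos (nat_lit 21757952) (nat_lit 53297152)) (I.neg (nat_lit 20250624) (nat_lit 78872576)) (I.neg (nat_lit 31965184) (nat_lit 56737792)) (I.pos (nat_lit 268812288) (nat_lit 286474240)) (I.mix (nat_lit 93110272) (nat_lit 47366144)) (I.mix (nat_lit 47529984) (nat_lit 86556672)) (I.mix (nat_lit 25493504) (nat_lit 23445504)))
  false (nat_lit 0)
def t4 : BTr := (BTr.n (BTr.n (BTr.n (BTr.b b4_0) (BTr.b b4_1)) (BTr.n (BTr.b b4_2) (BTr.n (BTr.b b4_3) (BTr.b b4_4)))) (BTr.n (BTr.n (BTr.b b4_5) (BTr.b b4_6)) (BTr.n (BTr.b b4_7) (BTr.n (BTr.b b4_8) (BTr.b b4_9)))))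
namespace T4
def l0 : Tr := Tr.L (Pth.l (Pth.l (Pth.l Pth.z)))
def l1 : Tr := Tr.L (Pth.l (Pth.l (Pth.r Pth.z)))
def l2 : Tr := Tr.L (Pth.l (Pth.r (Pth.l Pth.z)))
def l3 : Tr := Tr.L (Pth.l (Pth.r (Pth.r (Pth.l Pth.z))))
def l4 : Tr := Tr.L (Pth.l (Pth.r (Pth.r (Pth.r Pth.z))))
def l5 : Tr := Tr.L (Pth.r (Pth.l (Pth.l Pth.z)))
def l6 : Tr := Tr.L (Pth.r (Pth.l (Pth.r Pth.z)))
def l7 : Tr := Tr.L (Pth.r (Pth.r (Pth.l Pth.z)))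
def l8 : Tr := Tr.L (Pth.r (Pth.r (Pth.r (Pth.l Pth.z))))
def l9 : Tr := Tr.L (Pth.r (Pth.r (Pth.r (Pth.r Pth.z))))
end T4
def b5_0 : Bx := Bx.mk (St.mk (I.pos (nat_lit 151650304) (nat_lit 231997440)) (I.mix (nat_lit 1802240) (nat_lit 52641792)) (I.mix (nat_lit 3833856) (nat_lit 122388480)) (I.pos (nat_lit 139362304) (nat_lit 248201216)) (I.mix (nat_lit 110690304) (nat_lit 63504384)) (I.mix (nat_lit 94371840) (nat_lit 75481088)) (I.mix (nat_lit 128090112) (nat_lit 93814784)))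
  false (nat_lit 32394436)
def b5_1 : Bx := Bx.mk (St.mk (I.pos (nat_lit 103809024) (nat_lit 169852928)) (I.neg (nat_lit 1622016) (nat_lit 64815104)) (I.mix (nat_lit 42254336) (nat_lit 29425664)) (I.pos (nat_lit 102088704) (nat_lit 166264832)) (I.mix (nat_lit 76644352) (nat_lit 63553536)) (I.mix (nat_lit 52674560) (nat_lit 71516160)) (I.mix (nat_lit 44531712) (nat_lit 65290240)))
  false (nat_lit 30894664)
def b5_2 : Bx := Bx.mk (St.mk (I.mix (nat_lit 21544960) (nat_lit 82804736)) (I.mix (nat_lit 34078720) (nat_lit 7094272)) (I.mix (nat_lit 6176768) (nat_lit 19218432)) (I.pos (nat_lit 39239680) (nat_lit 89374720)) (I.mix (nat_lit 28049408) (nat_lit 37732352)) (I.mix (nat_lit 22413312) (nat_lit 33030144)) (I.mix (nat_lit 12713984) (nat_lit 17907712)))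
  false (nat_lit 0)
def b5_3 : Bx := Bx.mk (St.mk (I.pos (nat_lit 157646848) (nat_lit 209305600)) (I.mix (nat_lit 11845632) (nat_lit 54542336)) (I.pos (nat_lit 25690112) (nat_lit 114638848)) (I.pos (nat_lit 135987200) (nat_lit 222330880)) (I.mix (nat_lit 130826240) (nat_lit 41861120)) (I.mix (nat_lit 131022848) (nat_lit 72777728)) (I.mix (nat_lit 152322048) (nat_lit 64339968)))
  false (nat_lit 24350659)
def b5_4 : Bx := Bx.mk (St.mk (I.mix (nat_lit 35241984) (nat_lit 106708992)) (I.mix (nat_lit 13991936) (nat_lit 39452672)) (I.pos (nat_lit 655360) (nat_lit 42008576)) (I.pos (nat_lit 39862272) (nat_lit 104759296)) (I.mix (nat_lit 60129280) (nat_lit 31342592)) (I.mix (nat_lit 56311808) (nat_lit 32292864)) (I.mix (nat_lit 33013760) (nat_lit 19660800)))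
  false (nat_lit 0)
def b5_5 : Bx := Bx.mk (St.mk (I.pos (nat_lit 140918784) (nat_lit 173621248)) (I.neg (nat_lit 1130496) (nat_lit 39157760)) (I.mix (nat_lit 7471104) (nat_lit 35946496)) (I.pos (nat_lit 123846656) (nat_lit 173195264)) (I.mix (nat_lit 51249152) (nat_lit 43941888)) (I.mix (nat_lit 35946496) (nat_lit 46776320)) (I.mix (nat_lit 41615360) (nat_lit 40353792)))
  false (nat_lit 0)
def b5_6 : Bx := Bx.mk (St.mk (I.mix (nat_lit 44695552) (nat_lit 86917120)) (I.mix (nat_lit 13729792) (nat_lit 8749056)) (I.pos (nat_lit 2113536) (nat_lit 20201472)) (I.pos (nat_lit 41615360) (nat_lit 89669632)) (I.mix (nat_lit 24018944) (nat_lit 20676608)) (I.mix (nat_lit 18399232) (nat_lit 20004864)) (I.mix (nat_lit 11157504) (nat_lit 10321920)))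
  false (nat_lit 0)
def b5_7 : Bx := Bx.mk (St.mk (I.pos (nat_lit 151912448) (nat_lit 183205888)) (I.neg (nat_lit 6701056) (nat_lit 38354944)) (I.mix (nat_lit 8306688) (nat_lit 30785536)) (I.pos (nat_lit 134234112) (nat_lit 187351040)) (I.mix (nat_lit 31571968) (nat_lit 32620544)) (I.mix (nat_lit 32063488) (nat_lit 26329088)) (I.mix (nat_lit 30572544) (nat_lit 26558464)))
  false (nat_lit 0)
def b5_8 : Bx := Bx.mk (St.mk (I.pos (nat_lit 156073984) (nat_lit 199196672)) (I.mix (nat_lit 45072384) (nat_lit 30851072)) (I.mix (nat_lit 12337152) (nat_lit 83836928)) (I.pos (nat_lit 134742016) (nat_lit 204161024)) (I.mix (nat_lit 115294208) (nat_lit 71106560)) (I.mix (nat_lit 122650624) (nat_lit 69091328)) (I.mix (nat_lit 139558912) (nat_lit 68911104)))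
  false (nat_lit 41939595)
def b5_9 : Bx := Bx.mk (St.mk (I.mix (nat_lit 34766848) (nat_lit 120782848)) (I.mix (nat_lit 9093120) (nat_lit 34471936)) (I.pos (nat_lit 851968) (nat_lit 40239104)) (I.pos (nat_lit 36782080) (nat_lit 116146176)) (I.mix (nat_lit 53231616) (nat_lit 37896192)) (I.mix (nat_lit 48021504) (nat_lit 31883264)) (I.mix (nat_lit 34979840) (nat_lit 22233088)))
  false (nat_lit 0)
def b5_10 : Bx := Bx.mk (St.mk (I.pos (nat_lit 93470720) (nat_lit 155435008)) (I.mix (nat_lit 68042752) (nat_lit 11091968)) (I.mix (nat_lit 40042496) (nat_lit 22872064)) (I.pos (nat_lit 78987264) (nat_lit 151289856)) (I.mix (nat_lit 81330176) (nat_lit 43139072)) (I.mix (nat_lit 45645824) (nat_lit 71827456)) (I.mix (nat_lit 32325632) (nat_lit 50675712)))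
  false (nat_lit 11299029)
def b5_11 : Bx := Bx.mk (St.mk (I.mix (nat_lit 36667392) (nat_lit 72515584)) (I.mix (nat_lit 27312128) (nat_lit 6176768)) (I.mix (nat_lit 2932736) (nat_lit 17022976)) (I.pos (nat_lit 40714240) (nat_lit 81133568)) (I.mix (nat_lit 30212096) (nat_lit 30752768)) (I.mix (nat_lit 23216128) (nat_lit 34340864)) (I.mix (nat_lit 12173312) (nat_lit 13369344)))
  false (nat_lit 0)
def b5_12 : Bx := Bx.mk (St.mk (I.pos (nat_lit 187301888) (nat_lit 283181056)) (I.mix (nat_lit 22020096) (nat_lit 40747008)) (I.mix (nat_lit 7028736) (nat_lit 107610112)) (I.pos (nat_lit 194265088) (nat_lit 361791488)) (I.mix (nat_lit 84344832) (nat_lit 60669952)) (I.mix (nat_lit 65699840) (nat_lit 47382528)) (I.mix (nat_lit 112115712) (nat_lit 79183872)))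
  false (nat_lit 28284727)
def b5_13 : Bx := Bx.mk (St.mk (I.pos (nat_lit 174735360) (nat_lit 229572608)) (I.pos (nat_lit 4980736) (nat_lit 52084736)) (I.pos (nat_lit 37453824) (nat_lit 121323520)) (I.pos (nat_lit 182910976) (nat_lit 243154944)) (I.mix (nat_lit 99123200) (nat_lit 76414976)) (I.mix (nat_lit 101187584) (nat_lit 73170944)) (I.mix (nat_lit 148815872) (nat_lit 91209728)))
  false (nat_lit 8821645)
def t5 : BTr := (BTr.n (BTr.n (BTr.n (BTr.b b5_0) (BTr.n (BTr.b b5_1) (BTr.b b5_2))) (BTr.n (BTr.n (BTr.b b5_3) (BTr.b b5_4)) (BTr.n (BTr.b b5_5) (BTr.b b5_6)))) (BTr.n (BTr.n (BTr.b b5_7) (BTr.n (BTr.b b5_8) (BTr.b b5_9))) (BTr.n (BTr.n (BTr.b b5_10) (BTr.b b5_11)) (BTr.n (BTr.b b5_12) (BTr.b b5_13)))))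
namespace T5
def l0 : Tr := Tr.L (Pth.l (Pth.l (Pth.l Pth.z)))
def l1 : Tr := Tr.L (Pth.l (Pth.l (Pth.r (Pth.l Pth.z))))
def l2 : Tr := Tr.L (Pth.l (Pth.l (Pth.r (Pth.r Pth.z))))
def l3 : Tr := Tr.L (Pth.l (Pth.r (Pth.l (Pth.l Pth.z))))
def l4 : Tr := Tr.L (Pth.l (Pth.r (Pth.l (Pth.r Pth.z))))
def l5 : Tr := Tr.L (Pth.l (Pth.r (Pth.r (Pth.l Pth.z))))
def l6 : Tr := Tr.L (Pth.l (Pth.r (Pth.r (Pth.r Pth.z))))
def l7 : Tr := Tr.L (Pth.r (Pth.l (Pth.l Pth.z)))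
def l8 : Tr := Tr.L (Pth.r (Pth.l (Pth.r (Pth.l Pth.z))))
def l9 : Tr := Tr.L (Pth.r (Pth.l (Pth.r (Pth.r Pth.z))))
def l10 : Tr := Tr.L (Pth.r (Pth.r (Pth.l (Pth.l Pth.z))))
def l11 : Tr := Tr.L (Pth.r (Pth.r (Pth.l (Pth.r Pth.z))))
def l12 : Tr := Tr.L (Pth.r (Pth.r (Pth.r (Pth.l Pth.z))))
def l13 : Tr := Tr.L (Pth.r (Pth.r (Pth.r (Pth.r Pth.z))))
end T5
theorem bx0_0 : BoxOK sI cl4 cl7 cl9 t2 t4 b0_0 :=
  box_mk (TrL.c (I.pos (nat_lit 0) (nat_lit 0)) (xa (xb T2.l0 (xa T2.l0 T2.l0)) (xb T2.l0 (xa T2.l0 T2.l0)))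
  (TrL.c (I.pos (nat_lit 0) (nat_lit 0)) T4.l1
  (TrL.c (I.pos (nat_lit 0) (nat_lit 0)) T2.l1
  (TrL.c (I.pos (nat_lit 0) (nat_lit 0)) (xa T4.l2 T4.l2)
  (TrL.c (I.pos (nat_lit 0) (nat_lit 0)) T2.l2
  (TrL.c (I.pos (nat_lit 0) (nat_lit 0)) T4.l3
  TrL.n)))))) (by decide +kernel)
theorem bx0_1 : BoxOK sI cl4 cl7 cl9 t2 t4 b0_1 :=
  box_mk (TrL.c (I.pos (nat_lit 0) (nat_lit 0)) (xa (xa T2.l6 T2.l6) (xa T2.l6 T2.l6))
  (TrL.c (I.pos (nat_lit 0) (nat_lit 0)) T4.l1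
  (TrL.c (I.pos (nat_lit 0) (nat_lit 0)) T2.l1
  (TrL.c (I.pos (nat_lit 0) (nat_lit 0)) T4.l2
  (TrL.c (I.pos (nat_lit 0) (nat_lit 0)) T2.l7
  (TrL.c (I.pos (nat_lit 0) (nat_lit 0)) T4.l3
  TrL.n)))))) (by decide +kernel)
theorem bx0_2 : BoxOK sI cl4 cl7 cl9 t2 t4 b0_2 :=
  box_mk (TrL.c (I.pos (nat_lit 0) (nat_lit 0)) (xb T2.l6 (xa T2.l6 T2.l6))
  (TrL.c (I.pos (nat_lit 0) (nat_lit 0)) T4.l1
  (TrL.c (I.pos (nat_lit 0) (nat_lit 0)) T2.l1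
  (TrL.c (I.pos (nat_lit 0) (nat_lit 0)) T4.l2
  (TrL.c (I.pos (nat_lit 0) (nat_lit 0)) T2.l7
  (TrL.c (I.pos (nat_lit 0) (nat_lit 0)) T4.l3
  TrL.n)))))) (by decide +kernel)
theorem bx0_3 : BoxOK sI cl4 cl7 cl9 t2 t4 b0_3 :=
  box_mk (TrL.c (I.pos (nat_lit 0) (nat_lit 0)) (xa (xa (xb (xa (xb T2.l6 T2.l6) T2.l6) T2.l6) T2.l6) T2.l6)
  (TrL.c (I.pos (nat_lit 0) (nat_lit 0)) T4.l1
  (TrL.c (I.pos (nat_lit 0) (nat_lit 0)) T2.l1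
  (TrL.c (I.pos (nat_lit 0) (nat_lit 0)) T4.l2
  (TrL.c (I.pos (nat_lit 0) (nat_lit 0)) T2.l7
  (TrL.c (I.pos (nat_lit 0) (nat_lit 0)) T4.l3
  TrL.n)))))) (by decide +kernel)
theorem bx0_4 : BoxOK sI cl4 cl7 cl9 t2 t4 b0_4 :=
  box_mk (TrL.c (I.pos (nat_lit 0) (nat_lit 0)) T2.l6
  (TrL.c (I.pos (nat_lit 0) (nat_lit 0)) T4.l1
  (TrL.c (I.pos (nat_lit 0) (nat_lit 0)) T2.l1
  (TrL.c (I.pos (nat_lit 0) (nat_lit 0)) T4.l2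
  (TrL.c (I.pos (nat_lit 0) (nat_lit 0)) T2.l7
  (TrL.c (I.pos (nat_lit 0) (nat_lit 0)) T4.l3
  TrL.n)))))) (by decide +kernel)
theorem bx0_5 : BoxOK sI cl4 cl7 cl9 t2 t4 b0_5 :=
  box_mk (TrL.c (I.pos (nat_lit 0) (nat_lit 0)) (xa (xa (xa (xb T2.l6 T2.l6) T2.l6) T2.l6) T2.l6)
  (TrL.c (I.pos (nat_lit 0) (nat_lit 0)) T4.l1
  (TrL.c (I.pos (nat_lit 0) (nat_lit 0)) T2.l1
  (TrL.c (I.pos (nat_lit 0) (nat_lit 0)) T4.l2
  (TrL.c (I.pos (nat_lit 0) (nat_lit 0)) T2.l7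
  (TrL.c (I.pos (nat_lit 0) (nat_lit 0)) T4.l3
  TrL.n)))))) (by decide +kernel)
theorem bx0_6 : BoxOK sI cl4 cl7 cl9 t2 t4 b0_6 :=
  box_mk (TrL.c (I.pos (nat_lit 0) (nat_lit 0)) T2.l0
  (TrL.c (I.pos (nat_lit 0) (nat_lit 0)) T4.l1
  (TrL.c (I.pos (nat_lit 0) (nat_lit 0)) T2.l1
  (TrL.c (I.pos (nat_lit 0) (nat_lit 0)) T4.l2
  (TrL.c (I.pos (nat_lit 0) (nat_lit 0)) T2.l3
  (TrL.c (I.pos (nat_lit 0) (nat_lit 0)) T4.l3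
  TrL.n)))))) (by decide +kernel)
theorem bx0_7 : BoxOK sI cl4 cl7 cl9 t2 t4 b0_7 :=
  box_mk (TrL.c (I.pos (nat_lit 0) (nat_lit 0)) (xb (xa T2.l0 T2.l0) (xa (xb T2.l0 T2.l0) (xb T2.l0 T2.l0)))
  (TrL.c (I.pos (nat_lit 0) (nat_lit 0)) (xb T4.l1 T4.l1)
  (TrL.c (I.pos (nat_lit 0) (nat_lit 0)) T2.l5
  (TrL.c (I.pos (nat_lit 0) (nat_lit 0)) (xb (xa T4.l2 (xb (xa T4.l2 (xc T4.l2 T4.l2)) (xa T4.l2 T4.l2))) (xa T4.l2 (xb (xa T4.l2 T4.l2) (xa T4.l2 (xc T4.l2 T4.l2)))))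
  (TrL.c (I.pos (nat_lit 0) (nat_lit 0)) T2.l3
  (TrL.c (I.pos (nat_lit 0) (nat_lit 0)) (xb T4.l3 T4.l3)
  TrL.n)))))) (by decide +kernel)
theorem bx0_8 : BoxOK sI cl4 cl7 cl9 t2 t4 b0_8 :=
  box_mk (TrL.c (I.pos (nat_lit 0) (nat_lit 0)) (xa (xb (xa T2.l6 T2.l6) (xa T2.l6 T2.l6)) (xb (xa T2.l6 T2.l6) (xa T2.l6 T2.l6)))
  (TrL.c (I.pos (nat_lit 0) (nat_lit 0)) T4.l1
  (TrL.c (I.pos (nat_lit 0) (nat_lit 0)) T2.l1
  (TrL.c (I.pos (nat_lit 0) (nat_lit 0)) (xa T4.l2 T4.l2)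
  (TrL.c (I.pos (nat_lit 0) (nat_lit 0)) T2.l7
  (TrL.c (I.pos (nat_lit 0) (nat_lit 0)) T4.l3
  TrL.n)))))) (by decide +kernel)
theorem bx0_9 : BoxOK sI cl4 cl7 cl9 t2 t4 b0_9 :=
  box_mk (TrL.c (I.pos (nat_lit 0) (nat_lit 0)) (xa (xa (xb (xa (xb T2.l6 T2.l6) T2.l6) T2.l6) T2.l6) T2.l6)
  (TrL.c (I.pos (nat_lit 0) (nat_lit 0)) T4.l1
  (TrL.c (I.pos (nat_lit 0) (nat_lit 0)) T2.l1
  (TrL.c (I.pos (nat_lit 0) (nat_lit 0)) T4.l2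
  (TrL.c (I.pos (nat_lit 0) (nat_lit 0)) T2.l7
  (TrL.c (I.pos (nat_lit 0) (nat_lit 0)) T4.l3
  TrL.n)))))) (by decide +kernel)
theorem bx0_10 : BoxOK sI cl4 cl7 cl9 t2 t4 b0_10 :=
  box_mk (TrL.c (I.pos (nat_lit 0) (nat_lit 0)) (xb (xa T2.l8 T2.l8) (xa (xb T2.l8 T2.l8) (xb T2.l8 T2.l8)))
  (TrL.c (I.pos (nat_lit 0) (nat_lit 0)) T4.l1
  (TrL.c (I.pos (nat_lit 0) (nat_lit 0)) T2.l1
  (TrL.c (I.pos (nat_lit 0) (nat_lit 0)) (xb T4.l2 (xa T4.l2 (xb T4.l2 T4.l2)))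
  (TrL.c (I.pos (nat_lit 0) (nat_lit 0)) T2.l9
  (TrL.c (I.pos (nat_lit 0) (nat_lit 0)) T4.l3
  TrL.n)))))) (by decide +kernel)
theorem bx0_11 : BoxOK sI cl4 cl7 cl9 t2 t4 b0_11 :=
  box_mk (TrL.c (I.pos (nat_lit 0) (nat_lit 0)) (xa (xa (xb (xa T2.l6 T2.l6) (xa (xb T2.l6 (xa T2.l6 T2.l6)) T2.l6)) (xb T2.l6 T2.l6)) (xa T2.l6 (xb T2.l6 (xa T2.l6 T2.l6))))
  (TrL.c (I.pos (nat_lit 0) (nat_lit 0)) (xa T4.l1 T4.l1)
  (TrL.c (I.pos (nat_lit 0) (nat_lit 0)) T2.l1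
  (TrL.c (I.pos (nat_lit 0) (nat_lit 0)) (xa T4.l2 T4.l2)
  (TrL.c (I.pos (nat_lit 0) (nat_lit 0)) T2.l7
  (TrL.c (I.pos (nat_lit 0) (nat_lit 0)) (xa T4.l3 T4.l3)
  TrL.n)))))) (by decide +kernel)
theorem bx0_12 : BoxOK sI cl4 cl7 cl9 t2 t4 b0_12 :=
  box_mk (TrL.c (I.pos (nat_lit 0) (nat_lit 0)) (xa (xb T2.l8 T2.l8) T2.l8)
  (TrL.c (I.pos (nat_lit 0) (nat_lit 0)) T4.l1
  (TrL.c (I.pos (nat_lit 0) (nat_lit 0)) T2.l1
  (TrL.c (I.pos (nat_lit 0) (nat_lit 0)) T4.l2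
  (TrL.c (I.pos (nat_lit 0) (nat_lit 0)) T2.l9
  (TrL.c (I.pos (nat_lit 0) (nat_lit 0)) T4.l3
  TrL.n)))))) (by decide +kernel)
theorem bx0_13 : BoxOK sI cl4 cl7 cl9 t2 t4 b0_13 :=
  box_mk (TrL.c (I.pos (nat_lit 0) (nat_lit 0)) (xb T2.l8 (xa T2.l8 T2.l8))
  (TrL.c (I.pos (nat_lit 0) (nat_lit 0)) T4.l1
  (TrL.c (I.pos (nat_lit 0) (nat_lit 0)) T2.l1
  (TrL.c (I.pos (nat_lit 0) (nat_lit 0)) (xb T4.l2 T4.l2)
  (TrL.c (I.pos (nat_lit 0) (nat_lit 0)) T2.l2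
  (TrL.c (I.pos (nat_lit 0) (nat_lit 0)) T4.l3
  TrL.n)))))) (by decide +kernel)
theorem sv0 : StarV sI cl4 cl7 cl9 t2 t4 t0 :=
  (bt_n (bt_n (bt_n (bt_b bx0_0) (bt_n (bt_b bx0_1) (bt_b bx0_2))) (bt_n (bt_n (bt_b bx0_3) (bt_b bx0_4)) (bt_n (bt_b bx0_5) (bt_b bx0_6)))) (bt_n (bt_n (bt_b bx0_7) (bt_n (bt_b bx0_8) (bt_b bx0_9))) (bt_n (bt_n (bt_b bx0_10) (bt_b bx0_11)) (bt_n (bt_b bx0_12) (bt_b bx0_13)))))
def S0 : StarD := StarD.mk cl4 cl7 cl9 2 4 t0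
theorem bx1_0 : BoxOK sI cl4 cl9 cl7 t4 t2 b1_0 :=
  box_mk (TrL.c (I.pos (nat_lit 0) (nat_lit 0)) (xa (xb T4.l0 (xa T4.l0 T4.l0)) (xb T4.l0 (xa T4.l0 T4.l0)))
  (TrL.c (I.pos (nat_lit 0) (nat_lit 0)) T2.l3
  (TrL.c (I.pos (nat_lit 0) (nat_lit 0)) T4.l4
  (TrL.c (I.pos (nat_lit 0) (nat_lit 0)) (xa T2.l4 T2.l4)
  (TrL.c (I.pos (nat_lit 0) (nat_lit 0)) T4.l5
  (TrL.c (I.pos (nat_lit 0) (nat_lit 0)) T2.l5
  TrL.n)))))) (by decide +kernel)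
theorem bx1_1 : BoxOK sI cl4 cl9 cl7 t4 t2 b1_1 :=
  box_mk (TrL.c (I.pos (nat_lit 0) (nat_lit 0)) (xa (xa T4.l6 T4.l6) (xa T4.l6 (xa T4.l6 T4.l6)))
  (TrL.c (I.pos (nat_lit 0) (nat_lit 0)) T2.l3
  (TrL.c (I.pos (nat_lit 0) (nat_lit 0)) T4.l4
  (TrL.c (I.pos (nat_lit 0) (nat_lit 0)) T2.l4
  (TrL.c (I.pos (nat_lit 0) (nat_lit 0)) T4.l7
  (TrL.c (I.pos (nat_lit 0) (nat_lit 0)) T2.l5
  TrL.n)))))) (by decide +kernel)
theorem bx1_2 : BoxOK sI cl4 cl9 cl7 t4 t2 b1_2 :=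
  box_mk (TrL.c (I.pos (nat_lit 0) (nat_lit 0)) (xb (xa T4.l6 T4.l6) (xa T4.l6 T4.l6))
  (TrL.c (I.pos (nat_lit 0) (nat_lit 0)) T2.l3
  (TrL.c (I.pos (nat_lit 0) (nat_lit 0)) T4.l4
  (TrL.c (I.pos (nat_lit 0) (nat_lit 0)) T2.l4
  (TrL.c (I.pos (nat_lit 0) (nat_lit 0)) T4.l7
  (TrL.c (I.pos (nat_lit 0) (nat_lit 0)) T2.l5
  TrL.n)))))) (by decide +kernel)
theorem bx1_3 : BoxOK sI cl4 cl9 cl7 t4 t2 b1_3 :=
  box_mk (TrL.c (I.pos (nat_lit 0) (nat_lit 0)) (xa T4.l6 T4.l6)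
  (TrL.c (I.pos (nat_lit 0) (nat_lit 0)) T2.l3
  (TrL.c (I.pos (nat_lit 0) (nat_lit 0)) T4.l4
  (TrL.c (I.pos (nat_lit 0) (nat_lit 0)) T2.l4
  (TrL.c (I.pos (nat_lit 0) (nat_lit 0)) T4.l7
  (TrL.c (I.pos (nat_lit 0) (nat_lit 0)) T2.l5
  TrL.n)))))) (by decide +kernel)
theorem bx1_4 : BoxOK sI cl4 cl9 cl7 t4 t2 b1_4 :=
  box_mk (TrL.c (I.pos (nat_lit 0) (nat_lit 0)) (xb (xa T4.l0 T4.l0) (xa (xb T4.l0 T4.l0) (xa T4.l0 T4.l0)))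
  (TrL.c (I.pos (nat_lit 0) (nat_lit 0)) (xb T2.l3 T2.l3)
  (TrL.c (I.pos (nat_lit 0) (nat_lit 0)) T4.l3
  (TrL.c (I.pos (nat_lit 0) (nat_lit 0)) (xb (xa T2.l4 (xb (xa T2.l4 (xc T2.l4 T2.l4)) (xa T2.l4 T2.l4))) (xa T2.l4 (xb (xa T2.l4 T2.l4) (xa T2.l4 (xc T2.l4 T2.l4)))))
  (TrL.c (I.pos (nat_lit 0) (nat_lit 0)) T4.l1
  (TrL.c (I.pos (nat_lit 0) (nat_lit 0)) (xb T2.l5 T2.l5)
  TrL.n)))))) (by decide +kernel)
theorem bx1_5 : BoxOK sI cl4 cl9 cl7 t4 t2 b1_5 :=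
  box_mk (TrL.c (I.pos (nat_lit 0) (nat_lit 0)) T4.l6
  (TrL.c (I.pos (nat_lit 0) (nat_lit 0)) T2.l3
  (TrL.c (I.pos (nat_lit 0) (nat_lit 0)) T4.l4
  (TrL.c (I.pos (nat_lit 0) (nat_lit 0)) T2.l4
  (TrL.c (I.pos (nat_lit 0) (nat_lit 0)) T4.l7
  (TrL.c (I.pos (nat_lit 0) (nat_lit 0)) T2.l5
  TrL.n)))))) (by decide +kernel)
theorem bx1_6 : BoxOK sI cl4 cl9 cl7 t4 t2 b1_6 :=
  box_mk (TrL.c (I.pos (nat_lit 0) (nat_lit 0)) T4.l6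
  (TrL.c (I.pos (nat_lit 0) (nat_lit 0)) T2.l3
  (TrL.c (I.pos (nat_lit 0) (nat_lit 0)) T4.l4
  (TrL.c (I.pos (nat_lit 0) (nat_lit 0)) T2.l4
  (TrL.c (I.pos (nat_lit 0) (nat_lit 0)) T4.l7
  (TrL.c (I.pos (nat_lit 0) (nat_lit 0)) T2.l5
  TrL.n)))))) (by decide +kernel)
theorem bx1_7 : BoxOK sI cl4 cl9 cl7 t4 t2 b1_7 :=
  box_mk (TrL.c (I.pos (nat_lit 0) (nat_lit 0)) T4.l0
  (TrL.c (I.pos (nat_lit 0) (nat_lit 0)) T2.l3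
  (TrL.c (I.pos (nat_lit 0) (nat_lit 0)) T4.l3
  (TrL.c (I.pos (nat_lit 0) (nat_lit 0)) T2.l0
  (TrL.c (I.pos (nat_lit 0) (nat_lit 0)) T4.l1
  (TrL.c (I.pos (nat_lit 0) (nat_lit 0)) T2.l5
  TrL.n)))))) (by decide +kernel)
theorem bx1_8 : BoxOK sI cl4 cl9 cl7 t4 t2 b1_8 :=
  box_mk (TrL.c (I.pos (nat_lit 0) (nat_lit 0)) (xa (xb (xa T4.l6 T4.l6) (xa T4.l6 T4.l6)) (xb T4.l6 T4.l6))
  (TrL.c (I.pos (nat_lit 0) (nat_lit 0)) T2.l3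
  (TrL.c (I.pos (nat_lit 0) (nat_lit 0)) T4.l4
  (TrL.c (I.pos (nat_lit 0) (nat_lit 0)) (xa T2.l4 T2.l4)
  (TrL.c (I.pos (nat_lit 0) (nat_lit 0)) T4.l7
  (TrL.c (I.pos (nat_lit 0) (nat_lit 0)) T2.l5
  TrL.n)))))) (by decide +kernel)
theorem bx1_9 : BoxOK sI cl4 cl9 cl7 t4 t2 b1_9 :=
  box_mk (TrL.c (I.pos (nat_lit 0) (nat_lit 0)) (xa (xa (xb (xa (xb T4.l6 T4.l6) T4.l6) T4.l6) T4.l6) T4.l6)
  (TrL.c (I.pos (nat_lit 0) (nat_lit 0)) T2.l3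
  (TrL.c (I.pos (nat_lit 0) (nat_lit 0)) T4.l4
  (TrL.c (I.pos (nat_lit 0) (nat_lit 0)) T2.l4
  (TrL.c (I.pos (nat_lit 0) (nat_lit 0)) T4.l7
  (TrL.c (I.pos (nat_lit 0) (nat_lit 0)) T2.l5
  TrL.n)))))) (by decide +kernel)
theorem bx1_10 : BoxOK sI cl4 cl9 cl7 t4 t2 b1_10 :=
  box_mk (TrL.c (I.pos (nat_lit 0) (nat_lit 0)) (xb (xa T4.l8 T4.l8) (xa (xb T4.l8 T4.l8) (xb T4.l8 T4.l8)))
  (TrL.c (I.pos (nat_lit 0) (nat_lit 0)) T2.l3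
  (TrL.c (I.pos (nat_lit 0) (nat_lit 0)) T4.l4
  (TrL.c (I.pos (nat_lit 0) (nat_lit 0)) (xb T2.l4 (xa T2.l4 (xb T2.l4 T2.l4)))
  (TrL.c (I.pos (nat_lit 0) (nat_lit 0)) T4.l9
  (TrL.c (I.pos (nat_lit 0) (nat_lit 0)) T2.l5
  TrL.n)))))) (by decide +kernel)
theorem bx1_11 : BoxOK sI cl4 cl9 cl7 t4 t2 b1_11 :=
  box_mk (TrL.c (I.pos (nat_lit 0) (nat_lit 0)) (xa (xa (xb (xa (xb T4.l6 T4.l6) T4.l6) (xa (xb T4.l6 (xa T4.l6 T4.l6)) T4.l6)) (xb T4.l6 T4.l6)) (xa T4.l6 (xb T4.l6 (xa T4.l6 T4.l6))))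
  (TrL.c (I.pos (nat_lit 0) (nat_lit 0)) (xa T2.l3 T2.l3)
  (TrL.c (I.pos (nat_lit 0) (nat_lit 0)) T4.l4
  (TrL.c (I.pos (nat_lit 0) (nat_lit 0)) (xa T2.l4 T2.l4)
  (TrL.c (I.pos (nat_lit 0) (nat_lit 0)) T4.l7
  (TrL.c (I.pos (nat_lit 0) (nat_lit 0)) (xa T2.l5 T2.l5)
  TrL.n)))))) (by decide +kernel)
theorem bx1_12 : BoxOK sI cl4 cl9 cl7 t4 t2 b1_12 :=
  box_mk (TrL.c (I.pos (nat_lit 0) (nat_lit 0)) (xa (xb T4.l0 T4.l0) T4.l0)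
  (TrL.c (I.pos (nat_lit 0) (nat_lit 0)) T2.l3
  (TrL.c (I.pos (nat_lit 0) (nat_lit 0)) T4.l4
  (TrL.c (I.pos (nat_lit 0) (nat_lit 0)) (xa T2.l4 T2.l4)
  (TrL.c (I.pos (nat_lit 0) (nat_lit 0)) T4.l9
  (TrL.c (I.pos (nat_lit 0) (nat_lit 0)) T2.l5
  TrL.n)))))) (by decide +kernel)
theorem bx1_13 : BoxOK sI cl4 cl9 cl7 t4 t2 b1_13 :=
  box_mk (TrL.c (I.pos (nat_lit 0) (nat_lit 0)) (xb T4.l8 T4.l8)
  (TrL.c (I.pos (nat_lit 0) (nat_lit 0)) T2.l3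
  (TrL.c (I.pos (nat_lit 0) (nat_lit 0)) T4.l4
  (TrL.c (I.pos (nat_lit 0) (nat_lit 0)) (xb T2.l4 T2.l4)
  (TrL.c (I.pos (nat_lit 0) (nat_lit 0)) T4.l9
  (TrL.c (I.pos (nat_lit 0) (nat_lit 0)) T2.l5
  TrL.n)))))) (by decide +kernel)
theorem sv1 : StarV sI cl4 cl9 cl7 t4 t2 t1 :=
  (bt_n (bt_n (bt_n (bt_b bx1_0) (bt_n (bt_b bx1_1) (bt_b bx1_2))) (bt_n (bt_n (bt_b bx1_3) (bt_b bx1_4)) (bt_n (bt_b bx1_5) (bt_b bx1_6)))) (bt_n (bt_n (bt_b bx1_7) (bt_n (bt_b bx1_8) (bt_b bx1_9))) (bt_n (bt_n (bt_b bx1_10) (bt_b bx1_11)) (bt_n (bt_b bx1_12) (bt_b bx1_13)))))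
def S1 : StarD := StarD.mk cl4 cl9 cl7 4 2 t1
theorem bx2_0 : BoxOK sI cl7 cl4 cl9 t0 t5 b2_0 :=
  box_mk (TrL.c (I.pos (nat_lit 0) (nat_lit 0)) (xa (xb T0.l0 T0.l7) (xb T0.l0 T0.l0))
  (TrL.c (I.pos (nat_lit 0) (nat_lit 0)) T5.l1
  (TrL.c (I.pos (nat_lit 0) (nat_lit 111196574)) (xR T0.l1 T0.l1)
  (TrL.c (I.pos (nat_lit 0) (nat_lit 77433728)) (xR T5.l2 T5.l2)
  (TrL.c (I.pos (nat_lit 0) (nat_lit 0)) (xb (xa T5.l8 (xk T5.l3 T5.l3)) (xa T5.l3 (xk T5.l3 T5.l3)))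
  (TrL.c (I.pos (nat_lit 0) (nat_lit 0)) T0.l2
  (TrL.c (I.mix (nat_lit 29511666) (nat_lit 77433728)) (xR T5.l4 T5.l4)
  (TrL.c (I.mix (nat_lit 29511666) (nat_lit 46070178)) T0.l9
  TrL.n)))))))) (by decide +kernel)
theorem bx2_1 : BoxOK sI cl7 cl4 cl9 t0 t5 b2_1 :=
  box_mk (TrL.c (I.pos (nat_lit 0) (nat_lit 0)) T5.l5
  (TrL.c (I.pos (nat_lit 0) (nat_lit 0)) T0.l4
  (TrL.c (I.mix (nat_lit 29511666) (nat_lit 77433728)) (xR T5.l6 T5.l4)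
  (TrL.c (I.mix (nat_lit 29511666) (nat_lit 46070178)) T0.l5
  TrL.n)))) (by decide +kernel)
theorem bx2_2 : BoxOK sI cl7 cl4 cl9 t0 t5 b2_2 :=
  box_mk (TrL.c (I.pos (nat_lit 0) (nat_lit 0)) (xb T0.l7 T0.l7)
  (TrL.c (I.pos (nat_lit 0) (nat_lit 0)) T5.l1
  (TrL.c (I.pos (nat_lit 0) (nat_lit 111196574)) T0.l1
  (TrL.c (I.pos (nat_lit 0) (nat_lit 77433728)) T5.l2
  (TrL.c (I.pos (nat_lit 0) (nat_lit 0)) T5.l8
  (TrL.c (I.pos (nat_lit 0) (nat_lit 0)) T0.l2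
  (TrL.c (I.mix (nat_lit 29511666) (nat_lit 77433728)) T5.l4
  (TrL.c (I.mix (nat_lit 29511666) (nat_lit 46070178)) T0.l3
  TrL.n)))))))) (by decide +kernel)
theorem bx2_3 : BoxOK sI cl7 cl4 cl9 t0 t5 b2_3 :=
  box_mk (TrL.c (I.pos (nat_lit 0) (nat_lit 0)) (xa (xb (xa (xb T0.l7 T0.l7) T0.l7) (xa T0.l7 T0.l7)) T0.l7)
  (TrL.c (I.pos (nat_lit 0) (nat_lit 0)) T5.l1
  (TrL.c (I.pos (nat_lit 0) (nat_lit 111196574)) (xR T0.l1 T0.l1)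
  (TrL.c (I.pos (nat_lit 0) (nat_lit 77433728)) T5.l2
  (TrL.c (I.pos (nat_lit 0) (nat_lit 0)) (xa T5.l8 T5.l8)
  (TrL.c (I.pos (nat_lit 0) (nat_lit 0)) T0.l2
  (TrL.c (I.mix (nat_lit 29511666) (nat_lit 77433728)) (xR T5.l4 T5.l4)
  (TrL.c (I.mix (nat_lit 29511666) (nat_lit 46070178)) T0.l9
  TrL.n)))))))) (by decide +kernel)
theorem bx2_4 : BoxOK sI cl7 cl4 cl9 t0 t5 b2_4 :=
  box_mk (TrL.c (I.pos (nat_lit 0) (nat_lit 0)) (xb (xa (xb T0.l7 T0.l7) T0.l7) (xa (xb T0.l7 T0.l7) (xb T0.l7 T0.l7)))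
  (TrL.c (I.pos (nat_lit 0) (nat_lit 0)) T5.l1
  (TrL.c (I.pos (nat_lit 0) (nat_lit 111196574)) (xR T0.l1 T0.l1)
  (TrL.c (I.pos (nat_lit 0) (nat_lit 77433728)) (xR T5.l2 T5.l2)
  (TrL.c (I.pos (nat_lit 0) (nat_lit 0)) (xb (xa T5.l8 (xk T5.l8 T5.l8)) (xa T5.l8 (xk T5.l3 T5.l3)))
  (TrL.c (I.pos (nat_lit 0) (nat_lit 0)) T0.l2
  (TrL.c (I.mix (nat_lit 29511666) (nat_lit 77433728)) (xR T5.l4 T5.l4)
  (TrL.c (I.mix (nat_lit 29511666) (nat_lit 46070178)) T0.l3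
  TrL.n)))))))) (by decide +kernel)
theorem bx2_5 : BoxOK sI cl7 cl4 cl9 t0 t5 b2_5 :=
  box_mk (TrL.c (I.pos (nat_lit 0) (nat_lit 0)) T5.l1
  (TrL.c (I.pos (nat_lit 0) (nat_lit 0)) T0.l1
  (TrL.c (I.mix (nat_lit 29511666) (nat_lit 77433728)) (xR T5.l6 T5.l2)
  (TrL.c (I.mix (nat_lit 29511666) (nat_lit 46070178)) T0.l5
  TrL.n)))) (by decide +kernel)
theorem bx2_6 : BoxOK sI cl7 cl4 cl9 t0 t5 b2_6 :=
  box_mk (TrL.c (I.pos (nat_lit 0) (nat_lit 0)) (xa (xb T0.l0 T0.l0) (xb T0.l0 T0.l0))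
  (TrL.c (I.pos (nat_lit 0) (nat_lit 0)) T5.l1
  (TrL.c (I.pos (nat_lit 0) (nat_lit 111196574)) (xR T0.l1 T0.l1)
  (TrL.c (I.pos (nat_lit 0) (nat_lit 77433728)) (xR T5.l2 T5.l2)
  (TrL.c (I.pos (nat_lit 0) (nat_lit 0)) (xa (xb (xk (xa T5.l3 T5.l3) (xa T5.l3 T5.l3)) T5.l3) (xb (xk (xa (xb T5.l3 T5.l3) (xb (xk T5.l3 T5.l3) T5.l3)) (xa (xb T5.l3 T5.l3) (xb (xk T5.l3 T5.l3) T5.l3))) (xk (xa T5.l3 (xb (xk T5.l3 T5.l3) (xk T5.l3 T5.l3))) (xa T5.l3 (xb T5.l3 (xk T5.l3 T5.l3))))))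
  (TrL.c (I.pos (nat_lit 0) (nat_lit 0)) T0.l2
  (TrL.c (I.mix (nat_lit 29511666) (nat_lit 77433728)) (xR T5.l4 T5.l4)
  (TrL.c (I.mix (nat_lit 29511666) (nat_lit 46070178)) T0.l9
  TrL.n)))))))) (by decide +kernel)
theorem bx2_7 : BoxOK sI cl7 cl4 cl9 t0 t5 b2_7 :=
  box_mk (TrL.c (I.pos (nat_lit 0) (nat_lit 0)) (xb (xa T0.l6 T0.l6) (xa T0.l6 T0.l6))
  (TrL.c (I.pos (nat_lit 0) (nat_lit 0)) T5.l5
  (TrL.c (I.pos (nat_lit 0) (nat_lit 111196574)) T0.l1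
  (TrL.c (I.pos (nat_lit 0) (nat_lit 77433728)) T5.l2
  (TrL.c (I.pos (nat_lit 0) (nat_lit 0)) T5.l7
  (TrL.c (I.pos (nat_lit 0) (nat_lit 0)) T0.l2
  (TrL.c (I.mix (nat_lit 29511666) (nat_lit 77433728)) T5.l4
  (TrL.c (I.mix (nat_lit 29511666) (nat_lit 46070178)) T0.l3
  TrL.n)))))))) (by decide +kernel)
theorem bx2_8 : BoxOK sI cl7 cl4 cl9 t0 t5 b2_8 :=
  box_mk (TrL.c (I.pos (nat_lit 0) (nat_lit 0)) (xa T0.l7 (xb T0.l0 T0.l0))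
  (TrL.c (I.pos (nat_lit 0) (nat_lit 0)) T5.l1
  (TrL.c (I.pos (nat_lit 0) (nat_lit 111196574)) (xR T0.l1 T0.l1)
  (TrL.c (I.pos (nat_lit 0) (nat_lit 77433728)) (xR T5.l2 T5.l2)
  (TrL.c (I.pos (nat_lit 0) (nat_lit 0)) (xk (xb T5.l3 T5.l3) (xb T5.l3 T5.l3))
  (TrL.c (I.pos (nat_lit 0) (nat_lit 0)) T0.l2
  (TrL.c (I.mix (nat_lit 29511666) (nat_lit 77433728)) (xR T5.l4 T5.l4)
  (TrL.c (I.mix (nat_lit 29511666) (nat_lit 46070178)) T0.l3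
  TrL.n)))))))) (by decide +kernel)
theorem bx2_9 : BoxOK sI cl7 cl4 cl9 t0 t5 b2_9 :=
  box_mk (TrL.c (I.pos (nat_lit 0) (nat_lit 0)) T0.l7
  (TrL.c (I.pos (nat_lit 0) (nat_lit 0)) T5.l1
  (TrL.c (I.pos (nat_lit 0) (nat_lit 111196574)) T0.l1
  (TrL.c (I.pos (nat_lit 0) (nat_lit 77433728)) T5.l2
  (TrL.c (I.pos (nat_lit 0) (nat_lit 0)) T5.l8
  (TrL.c (I.pos (nat_lit 0) (nat_lit 0)) T0.l2
  (TrL.c (I.mix (nat_lit 29511666) (nat_lit 77433728)) T5.l4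
  (TrL.c (I.mix (nat_lit 29511666) (nat_lit 46070178)) T0.l3
  TrL.n)))))))) (by decide +kernel)
theorem sv2 : StarV sI cl7 cl4 cl9 t0 t5 t2 :=
  (bt_n (bt_n (bt_n (bt_b bx2_0) (bt_b bx2_1)) (bt_n (bt_b bx2_2) (bt_n (bt_b bx2_3) (bt_b bx2_4)))) (bt_n (bt_n (bt_b bx2_5) (bt_b bx2_6)) (bt_n (bt_b bx2_7) (bt_n (bt_b bx2_8) (bt_b bx2_9)))))
def S2 : StarD := StarD.mk cl7 cl4 cl9 0 5 t2
theorem bx3_0 : BoxOK sI cl7 cl9 cl4 t5 t0 b3_0 :=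
  box_mk (TrL.c (I.pos (nat_lit 0) (nat_lit 0)) (xa (xa (xb T5.l0 (xs T5.l0 T5.l0)) (xb T5.l0 T5.l0)) (xa (xb T5.l0 T5.l0) (xb T5.l0 T5.l0)))
  (TrL.c (I.pos (nat_lit 0) (nat_lit 0)) T0.l8
  (TrL.c (I.pos (nat_lit 0) (nat_lit 111196574)) (xR T5.l9 T5.l9)
  (TrL.c (I.pos (nat_lit 0) (nat_lit 77433728)) (xR T0.l9 T0.l9)
  (TrL.c (I.pos (nat_lit 0) (nat_lit 0)) (xa T0.l10 (xk T0.l10 T0.l10))
  (TrL.c (I.pos (nat_lit 0) (nat_lit 0)) T5.l10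
  (TrL.c (I.mix (nat_lit 29511666) (nat_lit 77433728)) (xR T0.l11 T0.l11)
  (TrL.c (I.mix (nat_lit 29511666) (nat_lit 46070178)) T5.l11
  TrL.n)))))))) (by decide +kernel)
theorem bx3_1 : BoxOK sI cl7 cl9 cl4 t5 t0 b3_1 :=
  box_mk (TrL.c (I.pos (nat_lit 0) (nat_lit 0)) (xa (xb T5.l12 T5.l12) (xb T5.l0 T5.l12))
  (TrL.c (I.pos (nat_lit 0) (nat_lit 0)) T0.l8
  (TrL.c (I.pos (nat_lit 0) (nat_lit 111196574)) T5.l9
  (TrL.c (I.pos (nat_lit 0) (nat_lit 77433728)) T0.l9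
  (TrL.c (I.pos (nat_lit 0) (nat_lit 0)) (xa T0.l12 (xb T0.l12 T0.l12))
  (TrL.c (I.pos (nat_lit 0) (nat_lit 0)) T5.l10
  (TrL.c (I.mix (nat_lit 29511666) (nat_lit 77433728)) (xR T0.l11 T0.l11)
  (TrL.c (I.mix (nat_lit 29511666) (nat_lit 46070178)) T5.l11
  TrL.n)))))))) (by decide +kernel)
theorem bx3_2 : BoxOK sI cl7 cl9 cl4 t5 t0 b3_2 :=
  box_mk (TrL.c (I.pos (nat_lit 0) (nat_lit 0)) (xa (xa T5.l12 T5.l12) T5.l12)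
  (TrL.c (I.pos (nat_lit 0) (nat_lit 0)) T0.l8
  (TrL.c (I.pos (nat_lit 0) (nat_lit 111196574)) T5.l9
  (TrL.c (I.pos (nat_lit 0) (nat_lit 77433728)) T0.l9
  (TrL.c (I.pos (nat_lit 0) (nat_lit 0)) (xa T0.l12 T0.l12)
  (TrL.c (I.pos (nat_lit 0) (nat_lit 0)) T5.l10
  (TrL.c (I.mix (nat_lit 29511666) (nat_lit 77433728)) T0.l11
  (TrL.c (I.mix (nat_lit 29511666) (nat_lit 46070178)) T5.l11
  TrL.n)))))))) (by decide +kernel)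
theorem bx3_3 : BoxOK sI cl7 cl9 cl4 t5 t0 b3_3 :=
  box_mk (TrL.c (I.pos (nat_lit 0) (nat_lit 0)) (xb (xa T5.l13 T5.l13) (xa (xb T5.l13 T5.l13) (xb T5.l13 T5.l13)))
  (TrL.c (I.pos (nat_lit 0) (nat_lit 0)) T0.l8
  (TrL.c (I.pos (nat_lit 0) (nat_lit 111196574)) (xR T5.l9 T5.l9)
  (TrL.c (I.pos (nat_lit 0) (nat_lit 77433728)) (xR T0.l9 T0.l9)
  (TrL.c (I.pos (nat_lit 0) (nat_lit 0)) (xb (xk T0.l13 T0.l13) (xk T0.l13 T0.l13))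
  (TrL.c (I.pos (nat_lit 0) (nat_lit 0)) T5.l10
  (TrL.c (I.mix (nat_lit 29511666) (nat_lit 77433728)) (xR T0.l11 T0.l11)
  (TrL.c (I.mix (nat_lit 29511666) (nat_lit 46070178)) T5.l11
  TrL.n)))))))) (by decide +kernel)
theorem bx3_4 : BoxOK sI cl7 cl9 cl4 t5 t0 b3_4 :=
  box_mk (TrL.c (I.pos (nat_lit 0) (nat_lit 0)) (xa (xa (xb (xa T5.l12 T5.l12) (xa (xb T5.l12 T5.l12) T5.l12)) (xb T5.l12 T5.l12)) (xa (xb T5.l12 (xa T5.l12 T5.l12)) (xb T5.l12 (xa T5.l12 T5.l12))))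
  (TrL.c (I.pos (nat_lit 0) (nat_lit 0)) (xa T0.l8 T0.l8)
  (TrL.c (I.pos (nat_lit 0) (nat_lit 111196574)) T5.l9
  (TrL.c (I.pos (nat_lit 0) (nat_lit 77433728)) T0.l9
  (TrL.c (I.pos (nat_lit 0) (nat_lit 0)) (xa T0.l12 T0.l12)
  (TrL.c (I.pos (nat_lit 0) (nat_lit 0)) T5.l10
  (TrL.c (I.mix (nat_lit 29511666) (nat_lit 77433728)) T0.l11
  (TrL.c (I.mix (nat_lit 29511666) (nat_lit 46070178)) T5.l11
  TrL.n)))))))) (by decide +kernel)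
theorem bx3_5 : BoxOK sI cl7 cl9 cl4 t5 t0 b3_5 :=
  box_mk (TrL.c (I.pos (nat_lit 0) (nat_lit 0)) (xb (xa T5.l13 T5.l13) (xa T5.l13 T5.l13))
  (TrL.c (I.pos (nat_lit 0) (nat_lit 0)) T0.l8
  (TrL.c (I.pos (nat_lit 0) (nat_lit 111196574)) (xR T5.l9 T5.l9)
  (TrL.c (I.pos (nat_lit 0) (nat_lit 77433728)) (xR T0.l9 T0.l9)
  (TrL.c (I.pos (nat_lit 0) (nat_lit 0)) (xk (xb T0.l13 T0.l13) (xb T0.l13 T0.l13))
  (TrL.c (I.pos (nat_lit 0) (nat_lit 0)) T5.l10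
  (TrL.c (I.mix (nat_lit 29511666) (nat_lit 77433728)) (xR T0.l11 T0.l11)
  (TrL.c (I.mix (nat_lit 29511666) (nat_lit 46070178)) T5.l11
  TrL.n)))))))) (by decide +kernel)
theorem bx3_6 : BoxOK sI cl7 cl9 cl4 t5 t0 b3_6 :=
  box_mk (TrL.c (I.pos (nat_lit 0) (nat_lit 0)) (xa T5.l12 T5.l12)
  (TrL.c (I.pos (nat_lit 0) (nat_lit 0)) T0.l8
  (TrL.c (I.pos (nat_lit 0) (nat_lit 111196574)) T5.l9
  (TrL.c (I.pos (nat_lit 0) (nat_lit 77433728)) T0.l9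
  (TrL.c (I.pos (nat_lit 0) (nat_lit 0)) (xa T0.l12 T0.l12)
  (TrL.c (I.pos (nat_lit 0) (nat_lit 0)) T5.l10
  (TrL.c (I.mix (nat_lit 29511666) (nat_lit 77433728)) T0.l11
  (TrL.c (I.mix (nat_lit 29511666) (nat_lit 46070178)) T5.l11
  TrL.n)))))))) (by decide +kernel)
theorem bx3_7 : BoxOK sI cl7 cl9 cl4 t5 t0 b3_7 :=
  box_mk (TrL.c (I.pos (nat_lit 0) (nat_lit 0)) T5.l12
  (TrL.c (I.pos (nat_lit 0) (nat_lit 0)) T0.l8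
  (TrL.c (I.pos (nat_lit 0) (nat_lit 111196574)) T5.l9
  (TrL.c (I.pos (nat_lit 0) (nat_lit 77433728)) T0.l9
  (TrL.c (I.pos (nat_lit 0) (nat_lit 0)) T0.l12
  (TrL.c (I.pos (nat_lit 0) (nat_lit 0)) T5.l10
  (TrL.c (I.mix (nat_lit 29511666) (nat_lit 77433728)) (xR T0.l11 T0.l11)
  (TrL.c (I.mix (nat_lit 29511666) (nat_lit 46070178)) T5.l11
  TrL.n)))))))) (by decide +kernel)
theorem bx3_8 : BoxOK sI cl7 cl9 cl4 t5 t0 b3_8 :=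
  box_mk (TrL.c (I.pos (nat_lit 0) (nat_lit 0)) T5.l13
  (TrL.c (I.pos (nat_lit 0) (nat_lit 0)) T0.l8
  (TrL.c (I.pos (nat_lit 0) (nat_lit 111196574)) T5.l9
  (TrL.c (I.pos (nat_lit 0) (nat_lit 77433728)) T0.l9
  (TrL.c (I.pos (nat_lit 0) (nat_lit 0)) T0.l12
  (TrL.c (I.pos (nat_lit 0) (nat_lit 0)) T5.l10
  (TrL.c (I.mix (nat_lit 29511666) (nat_lit 77433728)) (xR T0.l11 T0.l11)
  (TrL.c (I.mix (nat_lit 29511666) (nat_lit 46070178)) T5.l11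
  TrL.n)))))))) (by decide +kernel)
theorem bx3_9 : BoxOK sI cl7 cl9 cl4 t5 t0 b3_9 :=
  box_mk (TrL.c (I.pos (nat_lit 0) (nat_lit 0)) (xa (xa (xa (xb T5.l12 T5.l12) T5.l12) T5.l12) (xa T5.l12 (xa T5.l12 T5.l12)))
  (TrL.c (I.pos (nat_lit 0) (nat_lit 0)) (xa T0.l8 T0.l8)
  (TrL.c (I.pos (nat_lit 0) (nat_lit 111196574)) T5.l9
  (TrL.c (I.pos (nat_lit 0) (nat_lit 77433728)) T0.l9
  (TrL.c (I.pos (nat_lit 0) (nat_lit 0)) (xa T0.l12 T0.l12)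
  (TrL.c (I.pos (nat_lit 0) (nat_lit 0)) T5.l10
  (TrL.c (I.mix (nat_lit 29511666) (nat_lit 77433728)) (xR T0.l11 T0.l11)
  (TrL.c (I.mix (nat_lit 29511666) (nat_lit 46070178)) T5.l11
  TrL.n)))))))) (by decide +kernel)
theorem bx3_10 : BoxOK sI cl7 cl9 cl4 t5 t0 b3_10 :=
  box_mk (TrL.c (I.pos (nat_lit 0) (nat_lit 0)) (xb (xa T5.l12 T5.l12) (xa T5.l12 T5.l12))
  (TrL.c (I.pos (nat_lit 0) (nat_lit 0)) T0.l8
  (TrL.c (I.pos (nat_lit 0) (nat_lit 111196574)) T5.l9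
  (TrL.c (I.pos (nat_lit 0) (nat_lit 77433728)) T0.l9
  (TrL.c (I.pos (nat_lit 0) (nat_lit 0)) (xb (xa T0.l12 T0.l12) T0.l12)
  (TrL.c (I.pos (nat_lit 0) (nat_lit 0)) T5.l10
  (TrL.c (I.mix (nat_lit 29511666) (nat_lit 77433728)) (xR T0.l11 T0.l11)
  (TrL.c (I.mix (nat_lit 29511666) (nat_lit 46070178)) T5.l11
  TrL.n)))))))) (by decide +kernel)
theorem bx3_11 : BoxOK sI cl7 cl9 cl4 t5 t0 b3_11 :=
  box_mk (TrL.c (I.pos (nat_lit 0) (nat_lit 0)) (xa (xa (xb T5.l12 T5.l12) T5.l12) T5.l12)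
  (TrL.c (I.pos (nat_lit 0) (nat_lit 0)) T0.l8
  (TrL.c (I.pos (nat_lit 0) (nat_lit 111196574)) T5.l9
  (TrL.c (I.pos (nat_lit 0) (nat_lit 77433728)) T0.l9
  (TrL.c (I.pos (nat_lit 0) (nat_lit 0)) (xa T0.l12 T0.l12)
  (TrL.c (I.pos (nat_lit 0) (nat_lit 0)) T5.l10
  (TrL.c (I.mix (nat_lit 29511666) (nat_lit 77433728)) T0.l11
  (TrL.c (I.mix (nat_lit 29511666) (nat_lit 46070178)) T5.l11
  TrL.n)))))))) (by decide +kernel)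
theorem bx3_12 : BoxOK sI cl7 cl9 cl4 t5 t0 b3_12 :=
  box_mk (TrL.c (I.pos (nat_lit 0) (nat_lit 0)) (xa (xb T5.l0 (xa T5.l0 T5.l0)) (xa T5.l0 (xb T5.l0 T5.l0)))
  (TrL.c (I.pos (nat_lit 0) (nat_lit 0)) T0.l8
  (TrL.c (I.pos (nat_lit 0) (nat_lit 111196574)) (xR T5.l9 T5.l4)
  (TrL.c (I.pos (nat_lit 0) (nat_lit 77433728)) (xR T0.l9 T0.l9)
  (TrL.c (I.pos (nat_lit 0) (nat_lit 0)) (xa (xb (xk T0.l10 T0.l10) T0.l10) (xb (xk (xa T0.l10 T0.l10) (xa T0.l10 T0.l10)) (xk (xa T0.l10 T0.l10) (xa T0.l10 T0.l10))))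
  (TrL.c (I.pos (nat_lit 0) (nat_lit 0)) T5.l10
  (TrL.c (I.mix (nat_lit 29511666) (nat_lit 77433728)) (xR T0.l11 T0.l11)
  (TrL.c (I.mix (nat_lit 29511666) (nat_lit 46070178)) (xR T5.l11 T5.l2)
  TrL.n)))))))) (by decide +kernel)
theorem bx3_13 : BoxOK sI cl7 cl9 cl4 t5 t0 b3_13 :=
  box_mk (TrL.c (I.pos (nat_lit 0) (nat_lit 0)) (xa (xb T5.l0 (xa T5.l0 T5.l0)) (xb T5.l0 T5.l0))
  (TrL.c (I.pos (nat_lit 0) (nat_lit 0)) T0.l8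
  (TrL.c (I.pos (nat_lit 0) (nat_lit 111196574)) (xR T5.l9 T5.l9)
  (TrL.c (I.pos (nat_lit 0) (nat_lit 77433728)) (xR T0.l9 T0.l9)
  (TrL.c (I.pos (nat_lit 0) (nat_lit 0)) (xk T0.l10 T0.l10)
  (TrL.c (I.pos (nat_lit 0) (nat_lit 0)) T5.l10
  (TrL.c (I.mix (nat_lit 29511666) (nat_lit 77433728)) (xR T0.l11 T0.l11)
  (TrL.c (I.mix (nat_lit 29511666) (nat_lit 46070178)) T5.l11
  TrL.n)))))))) (by decide +kernel)
theorem sv3 : StarV sI cl7 cl9 cl4 t5 t0 t3 :=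
  (bt_n (bt_n (bt_n (bt_b bx3_0) (bt_n (bt_b bx3_1) (bt_b bx3_2))) (bt_n (bt_n (bt_b bx3_3) (bt_b bx3_4)) (bt_n (bt_b bx3_5) (bt_b bx3_6)))) (bt_n (bt_n (bt_b bx3_7) (bt_n (bt_b bx3_8) (bt_b bx3_9))) (bt_n (bt_n (bt_b bx3_10) (bt_b bx3_11)) (bt_n (bt_b bx3_12) (bt_b bx3_13)))))
def S3 : StarD := StarD.mk cl7 cl9 cl4 5 0 t3
theorem bx4_0 : BoxOK sI cl9 cl4 cl7 t1 t3 b4_0 :=
  box_mk (TrL.c (I.pos (nat_lit 0) (nat_lit 0)) (xa (xb T1.l4 T1.l4) (xb T1.l0 T1.l0))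
  (TrL.c (I.pos (nat_lit 0) (nat_lit 0)) T3.l1
  (TrL.c (I.pos (nat_lit 0) (nat_lit 124588530)) (xR T1.l1 T1.l1)
  (TrL.c (I.pos (nat_lit 0) (nat_lit 96881482)) (xR T3.l2 T3.l2)
  (TrL.c (I.pos (nat_lit 0) (nat_lit 0)) (xa (xb T3.l3 T3.l3) (xb (xk T3.l3 T3.l3) (xk T3.l3 T3.l3)))
  (TrL.c (I.pos (nat_lit 0) (nat_lit 0)) T1.l2
  (TrL.c (I.mix (nat_lit 17240550) (nat_lit 96881482)) (xR T3.l4 T3.l4)
  (TrL.c (I.mix (nat_lit 17240550) (nat_lit 71940500)) T1.l9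
  TrL.n)))))))) (by decide +kernel)
theorem bx4_1 : BoxOK sI cl9 cl4 cl7 t1 t3 b4_1 :=
  box_mk (TrL.c (I.pos (nat_lit 0) (nat_lit 0)) (xa (xb (xa T1.l4 T1.l4) T1.l4) T1.l4)
  (TrL.c (I.pos (nat_lit 0) (nat_lit 0)) T3.l1
  (TrL.c (I.pos (nat_lit 0) (nat_lit 124588530)) (xR T1.l1 T1.l1)
  (TrL.c (I.pos (nat_lit 0) (nat_lit 96881482)) (xR T3.l2 T3.l2)
  (TrL.c (I.pos (nat_lit 0) (nat_lit 0)) (xa T3.l5 T3.l5)
  (TrL.c (I.pos (nat_lit 0) (nat_lit 0)) T1.l2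
  (TrL.c (I.mix (nat_lit 17240550) (nat_lit 96881482)) (xR T3.l4 T3.l4)
  (TrL.c (I.mix (nat_lit 17240550) (nat_lit 71940500)) T1.l9
  TrL.n)))))))) (by decide +kernel)
theorem bx4_2 : BoxOK sI cl9 cl4 cl7 t1 t3 b4_2 :=
  box_mk (TrL.c (I.pos (nat_lit 0) (nat_lit 0)) (xb (xa (xb T1.l4 T1.l4) T1.l4) (xa (xb T1.l4 (xa T1.l4 T1.l4)) (xb T1.l4 T1.l4)))
  (TrL.c (I.pos (nat_lit 0) (nat_lit 0)) T3.l1
  (TrL.c (I.pos (nat_lit 0) (nat_lit 124588530)) (xR T1.l1 T1.l1)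
  (TrL.c (I.pos (nat_lit 0) (nat_lit 96881482)) (xR T3.l2 T3.l2)
  (TrL.c (I.pos (nat_lit 0) (nat_lit 0)) (xb (xa T3.l5 (xk T3.l5 T3.l5)) (xa T3.l5 (xk T3.l5 T3.l5)))
  (TrL.c (I.pos (nat_lit 0) (nat_lit 0)) T1.l2
  (TrL.c (I.mix (nat_lit 17240550) (nat_lit 96881482)) (xR T3.l4 T3.l4)
  (TrL.c (I.mix (nat_lit 17240550) (nat_lit 71940500)) (xR T1.l3 T1.l3)
  TrL.n)))))))) (by decide +kernel)
theorem bx4_3 : BoxOK sI cl9 cl4 cl7 t1 t3 b4_3 :=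
  box_mk (TrL.c (I.pos (nat_lit 0) (nat_lit 0)) T3.l1
  (TrL.c (I.pos (nat_lit 0) (nat_lit 0)) T1.l1
  (TrL.c (I.mix (nat_lit 17240550) (nat_lit 96881482)) (xR T3.l6 T3.l6)
  (TrL.c (I.mix (nat_lit 17240550) (nat_lit 71940500)) (xR T1.l5 T1.l1)
  TrL.n)))) (by decide +kernel)
theorem bx4_4 : BoxOK sI cl9 cl4 cl7 t1 t3 b4_4 :=
  box_mk (TrL.c (I.pos (nat_lit 0) (nat_lit 0)) T3.l7
  (TrL.c (I.pos (nat_lit 0) (nat_lit 0)) T1.l6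
  (TrL.c (I.mix (nat_lit 17240550) (nat_lit 96881482)) (xR T3.l6 T3.l6)
  (TrL.c (I.mix (nat_lit 17240550) (nat_lit 71940500)) T1.l11
  TrL.n)))) (by decide +kernel)
theorem bx4_5 : BoxOK sI cl9 cl4 cl7 t1 t3 b4_5 :=
  box_mk (TrL.c (I.pos (nat_lit 0) (nat_lit 0)) T1.l4
  (TrL.c (I.pos (nat_lit 0) (nat_lit 0)) T3.l1
  (TrL.c (I.pos (nat_lit 0) (nat_lit 124588530)) T1.l1
  (TrL.c (I.pos (nat_lit 0) (nat_lit 96881482)) T3.l2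
  (TrL.c (I.pos (nat_lit 0) (nat_lit 0)) T3.l5
  (TrL.c (I.pos (nat_lit 0) (nat_lit 0)) T1.l2
  (TrL.c (I.mix (nat_lit 17240550) (nat_lit 96881482)) T3.l4
  (TrL.c (I.mix (nat_lit 17240550) (nat_lit 71940500)) T1.l3
  TrL.n)))))))) (by decide +kernel)
theorem bx4_6 : BoxOK sI cl9 cl4 cl7 t1 t3 b4_6 :=
  box_mk (TrL.c (I.pos (nat_lit 0) (nat_lit 0)) (xa (xb T1.l0 T1.l0) (xb T1.l0 T1.l0))
  (TrL.c (I.pos (nat_lit 0) (nat_lit 0)) T3.l1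
  (TrL.c (I.pos (nat_lit 0) (nat_lit 124588530)) (xR T1.l1 T1.l1)
  (TrL.c (I.pos (nat_lit 0) (nat_lit 96881482)) (xR T3.l2 T3.l2)
  (TrL.c (I.pos (nat_lit 0) (nat_lit 0)) (xa (xb (xk (xa T3.l3 T3.l3) (xa T3.l3 T3.l3)) T3.l3) (xb (xk (xa (xb T3.l3 T3.l3) (xb (xk T3.l3 T3.l3) T3.l3)) (xa T3.l3 (xb (xk T3.l3 T3.l3) T3.l3))) (xk (xa T3.l3 (xb T3.l3 (xk T3.l3 T3.l3))) (xa T3.l3 (xb T3.l3 (xk T3.l3 T3.l3))))))
  (TrL.c (I.pos (nat_lit 0) (nat_lit 0)) T1.l2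
  (TrL.c (I.mix (nat_lit 17240550) (nat_lit 96881482)) (xR T3.l4 T3.l4)
  (TrL.c (I.mix (nat_lit 17240550) (nat_lit 71940500)) T1.l9
  TrL.n)))))))) (by decide +kernel)
theorem bx4_7 : BoxOK sI cl9 cl4 cl7 t1 t3 b4_7 :=
  box_mk (TrL.c (I.pos (nat_lit 0) (nat_lit 0)) (xb (xa T1.l7 T1.l7) (xa T1.l7 T1.l7))
  (TrL.c (I.pos (nat_lit 0) (nat_lit 0)) T3.l7
  (TrL.c (I.pos (nat_lit 0) (nat_lit 124588530)) T1.l1
  (TrL.c (I.pos (nat_lit 0) (nat_lit 96881482)) T3.l4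
  (TrL.c (I.pos (nat_lit 0) (nat_lit 0)) T3.l8
  (TrL.c (I.pos (nat_lit 0) (nat_lit 0)) T1.l2
  (TrL.c (I.mix (nat_lit 17240550) (nat_lit 96881482)) T3.l4
  (TrL.c (I.mix (nat_lit 17240550) (nat_lit 71940500)) T1.l3
  TrL.n)))))))) (by decide +kernel)
theorem bx4_8 : BoxOK sI cl9 cl4 cl7 t1 t3 b4_8 :=
  box_mk (TrL.c (I.pos (nat_lit 0) (nat_lit 0)) (xa T1.l0 T1.l0)
  (TrL.c (I.pos (nat_lit 0) (nat_lit 0)) T3.l1
  (TrL.c (I.pos (nat_lit 0) (nat_lit 124588530)) (xR T1.l1 T1.l1)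
  (TrL.c (I.pos (nat_lit 0) (nat_lit 96881482)) (xR T3.l2 T3.l2)
  (TrL.c (I.pos (nat_lit 0) (nat_lit 0)) (xk T3.l3 T3.l3)
  (TrL.c (I.pos (nat_lit 0) (nat_lit 0)) T1.l2
  (TrL.c (I.mix (nat_lit 17240550) (nat_lit 96881482)) T3.l4
  (TrL.c (I.mix (nat_lit 17240550) (nat_lit 71940500)) T1.l9
  TrL.n)))))))) (by decide +kernel)
theorem bx4_9 : BoxOK sI cl9 cl4 cl7 t1 t3 b4_9 :=
  box_mk (TrL.c (I.pos (nat_lit 0) (nat_lit 0)) T1.l4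
  (TrL.c (I.pos (nat_lit 0) (nat_lit 0)) T3.l1
  (TrL.c (I.pos (nat_lit 0) (nat_lit 124588530)) T1.l1
  (TrL.c (I.pos (nat_lit 0) (nat_lit 96881482)) T3.l2
  (TrL.c (I.pos (nat_lit 0) (nat_lit 0)) T3.l5
  (TrL.c (I.pos (nat_lit 0) (nat_lit 0)) T1.l2
  (TrL.c (I.mix (nat_lit 17240550) (nat_lit 96881482)) T3.l4
  (TrL.c (I.mix (nat_lit 17240550) (nat_lit 71940500)) T1.l3
  TrL.n)))))))) (by decide +kernel)
theorem sv4 : StarV sI cl9 cl4 cl7 t1 t3 t4 :=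
  (bt_n (bt_n (bt_n (bt_b bx4_0) (bt_b bx4_1)) (bt_n (bt_b bx4_2) (bt_n (bt_b bx4_3) (bt_b bx4_4)))) (bt_n (bt_n (bt_b bx4_5) (bt_b bx4_6)) (bt_n (bt_b bx4_7) (bt_n (bt_b bx4_8) (bt_b bx4_9)))))
def S4 : StarD := StarD.mk cl9 cl4 cl7 1 3 t4
theorem bx5_0 : BoxOK sI cl9 cl7 cl4 t3 t1 b5_0 :=
  box_mk (TrL.c (I.pos (nat_lit 0) (nat_lit 0)) (xa (xa (xb T3.l0 (xs T3.l0 T3.l0)) (xb T3.l0 T3.l0)) (xa (xb T3.l0 T3.l0) (xb T3.l0 T3.l0)))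
  (TrL.c (I.pos (nat_lit 0) (nat_lit 0)) T1.l8
  (TrL.c (I.pos (nat_lit 0) (nat_lit 124588530)) (xR T3.l9 T3.l9)
  (TrL.c (I.pos (nat_lit 0) (nat_lit 96881482)) (xR T1.l9 T1.l9)
  (TrL.c (I.pos (nat_lit 0) (nat_lit 0)) (xa T1.l10 (xk T1.l10 T1.l10))
  (TrL.c (I.pos (nat_lit 0) (nat_lit 0)) T3.l10
  (TrL.c (I.mix (nat_lit 17240550) (nat_lit 96881482)) (xR T1.l11 T1.l11)
  (TrL.c (I.mix (nat_lit 17240550) (nat_lit 71940500)) (xR T3.l11 T3.l11)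
  TrL.n)))))))) (by decide +kernel)
theorem bx5_1 : BoxOK sI cl9 cl7 cl4 t3 t1 b5_1 :=
  box_mk (TrL.c (I.pos (nat_lit 0) (nat_lit 0)) (xa (xb T3.l12 T3.l12) T3.l0)
  (TrL.c (I.pos (nat_lit 0) (nat_lit 0)) T1.l8
  (TrL.c (I.pos (nat_lit 0) (nat_lit 124588530)) (xR T3.l9 T3.l9)
  (TrL.c (I.pos (nat_lit 0) (nat_lit 96881482)) T1.l9
  (TrL.c (I.pos (nat_lit 0) (nat_lit 0)) (xa T1.l12 (xb T1.l12 T1.l12))
  (TrL.c (I.pos (nat_lit 0) (nat_lit 0)) T3.l10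
  (TrL.c (I.mix (nat_lit 17240550) (nat_lit 96881482)) (xR T1.l11 T1.l11)
  (TrL.c (I.mix (nat_lit 17240550) (nat_lit 71940500)) T3.l2
  TrL.n)))))))) (by decide +kernel)
theorem bx5_2 : BoxOK sI cl9 cl7 cl4 t3 t1 b5_2 :=
  box_mk (TrL.c (I.pos (nat_lit 0) (nat_lit 0)) (xa T3.l12 T3.l12)
  (TrL.c (I.pos (nat_lit 0) (nat_lit 0)) T1.l8
  (TrL.c (I.pos (nat_lit 0) (nat_lit 124588530)) T3.l9
  (TrL.c (I.pos (nat_lit 0) (nat_lit 96881482)) T1.l9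
  (TrL.c (I.pos (nat_lit 0) (nat_lit 0)) (xa T1.l12 T1.l12)
  (TrL.c (I.pos (nat_lit 0) (nat_lit 0)) T3.l10
  (TrL.c (I.mix (nat_lit 17240550) (nat_lit 96881482)) T1.l11
  (TrL.c (I.mix (nat_lit 17240550) (nat_lit 71940500)) T3.l11
  TrL.n)))))))) (by decide +kernel)
theorem bx5_3 : BoxOK sI cl9 cl7 cl4 t3 t1 b5_3 :=
  box_mk (TrL.c (I.pos (nat_lit 0) (nat_lit 0)) (xa (xb T3.l13 (xa T3.l13 T3.l13)) (xb T3.l13 (xs T3.l13 T3.l13)))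
  (TrL.c (I.pos (nat_lit 0) (nat_lit 0)) T1.l8
  (TrL.c (I.pos (nat_lit 0) (nat_lit 124588530)) (xR T3.l9 T3.l9)
  (TrL.c (I.pos (nat_lit 0) (nat_lit 96881482)) (xR T1.l9 T1.l9)
  (TrL.c (I.pos (nat_lit 0) (nat_lit 0)) (xk (xb T1.l13 T1.l13) (xb T1.l13 T1.l13))
  (TrL.c (I.pos (nat_lit 0) (nat_lit 0)) T3.l10
  (TrL.c (I.mix (nat_lit 17240550) (nat_lit 96881482)) (xR T1.l11 T1.l11)
  (TrL.c (I.mix (nat_lit 17240550) (nat_lit 71940500)) (xR T3.l11 T3.l11)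
  TrL.n)))))))) (by decide +kernel)
theorem bx5_4 : BoxOK sI cl9 cl7 cl4 t3 t1 b5_4 :=
  box_mk (TrL.c (I.pos (nat_lit 0) (nat_lit 0)) (xa (xa (xb (xa T3.l12 T3.l12) (xa (xb T3.l12 T3.l12) T3.l12)) (xb T3.l12 T3.l12)) (xa (xb T3.l12 (xa T3.l12 T3.l12)) (xb T3.l12 (xa T3.l12 T3.l12))))
  (TrL.c (I.pos (nat_lit 0) (nat_lit 0)) (xa T1.l8 T1.l8)
  (TrL.c (I.pos (nat_lit 0) (nat_lit 124588530)) T3.l9
  (TrL.c (I.pos (nat_lit 0) (nat_lit 96881482)) (xR T1.l9 T1.l9)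
  (TrL.c (I.pos (nat_lit 0) (nat_lit 0)) (xa T1.l12 T1.l12)
  (TrL.c (I.pos (nat_lit 0) (nat_lit 0)) T3.l10
  (TrL.c (I.mix (nat_lit 17240550) (nat_lit 96881482)) (xR T1.l11 T1.l11)
  (TrL.c (I.mix (nat_lit 17240550) (nat_lit 71940500)) T3.l11
  TrL.n)))))))) (by decide +kernel)
theorem bx5_5 : BoxOK sI cl9 cl7 cl4 t3 t1 b5_5 :=
  box_mk (TrL.c (I.pos (nat_lit 0) (nat_lit 0)) T3.l12
  (TrL.c (I.pos (nat_lit 0) (nat_lit 0)) T1.l8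
  (TrL.c (I.pos (nat_lit 0) (nat_lit 124588530)) (xR T3.l9 T3.l9)
  (TrL.c (I.pos (nat_lit 0) (nat_lit 96881482)) T1.l9
  (TrL.c (I.pos (nat_lit 0) (nat_lit 0)) T1.l12
  (TrL.c (I.pos (nat_lit 0) (nat_lit 0)) T3.l10
  (TrL.c (I.mix (nat_lit 17240550) (nat_lit 96881482)) (xR T1.l11 T1.l11)
  (TrL.c (I.mix (nat_lit 17240550) (nat_lit 71940500)) T3.l2
  TrL.n)))))))) (by decide +kernel)
theorem bx5_6 : BoxOK sI cl9 cl7 cl4 t3 t1 b5_6 :=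
  box_mk (TrL.c (I.pos (nat_lit 0) (nat_lit 0)) (xa T3.l12 T3.l12)
  (TrL.c (I.pos (nat_lit 0) (nat_lit 0)) T1.l8
  (TrL.c (I.pos (nat_lit 0) (nat_lit 124588530)) T3.l9
  (TrL.c (I.pos (nat_lit 0) (nat_lit 96881482)) T1.l9
  (TrL.c (I.pos (nat_lit 0) (nat_lit 0)) (xa T1.l12 T1.l12)
  (TrL.c (I.pos (nat_lit 0) (nat_lit 0)) T3.l10
  (TrL.c (I.mix (nat_lit 17240550) (nat_lit 96881482)) T1.l11
  (TrL.c (I.mix (nat_lit 17240550) (nat_lit 71940500)) T3.l11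
  TrL.n)))))))) (by decide +kernel)
theorem bx5_7 : BoxOK sI cl9 cl7 cl4 t3 t1 b5_7 :=
  box_mk (TrL.c (I.pos (nat_lit 0) (nat_lit 0)) T3.l13
  (TrL.c (I.pos (nat_lit 0) (nat_lit 0)) T1.l8
  (TrL.c (I.pos (nat_lit 0) (nat_lit 124588530)) (xR T3.l9 T3.l9)
  (TrL.c (I.pos (nat_lit 0) (nat_lit 96881482)) T1.l9
  (TrL.c (I.pos (nat_lit 0) (nat_lit 0)) T1.l13
  (TrL.c (I.pos (nat_lit 0) (nat_lit 0)) T3.l10
  (TrL.c (I.mix (nat_lit 17240550) (nat_lit 96881482)) (xR T1.l11 T1.l11)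
  (TrL.c (I.mix (nat_lit 17240550) (nat_lit 71940500)) T3.l2
  TrL.n)))))))) (by decide +kernel)
theorem bx5_8 : BoxOK sI cl9 cl7 cl4 t3 t1 b5_8 :=
  box_mk (TrL.c (I.pos (nat_lit 0) (nat_lit 0)) (xb (xa T3.l13 T3.l13) (xa T3.l13 T3.l13))
  (TrL.c (I.pos (nat_lit 0) (nat_lit 0)) T1.l8
  (TrL.c (I.pos (nat_lit 0) (nat_lit 124588530)) (xR T3.l9 T3.l9)
  (TrL.c (I.pos (nat_lit 0) (nat_lit 96881482)) (xR T1.l9 T1.l9)
  (TrL.c (I.pos (nat_lit 0) (nat_lit 0)) (xk (xb T1.l13 T1.l13) (xb T1.l13 T1.l13))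
  (TrL.c (I.pos (nat_lit 0) (nat_lit 0)) T3.l10
  (TrL.c (I.mix (nat_lit 17240550) (nat_lit 96881482)) (xR T1.l11 T1.l11)
  (TrL.c (I.mix (nat_lit 17240550) (nat_lit 71940500)) T3.l2
  TrL.n)))))))) (by decide +kernel)
theorem bx5_9 : BoxOK sI cl9 cl7 cl4 t3 t1 b5_9 :=
  box_mk (TrL.c (I.pos (nat_lit 0) (nat_lit 0)) (xa (xa (xb T3.l12 (xa T3.l12 T3.l12)) T3.l12) (xa (xb T3.l12 (xa T3.l12 T3.l12)) (xa T3.l12 T3.l12)))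
  (TrL.c (I.pos (nat_lit 0) (nat_lit 0)) (xa T1.l8 T1.l8)
  (TrL.c (I.pos (nat_lit 0) (nat_lit 124588530)) T3.l9
  (TrL.c (I.pos (nat_lit 0) (nat_lit 96881482)) T1.l9
  (TrL.c (I.pos (nat_lit 0) (nat_lit 0)) (xa T1.l12 T1.l12)
  (TrL.c (I.pos (nat_lit 0) (nat_lit 0)) T3.l10
  (TrL.c (I.mix (nat_lit 17240550) (nat_lit 96881482)) (xR T1.l11 T1.l11)
  (TrL.c (I.mix (nat_lit 17240550) (nat_lit 71940500)) T3.l11
  TrL.n)))))))) (by decide +kernel)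
theorem bx5_10 : BoxOK sI cl9 cl7 cl4 t3 t1 b5_10 :=
  box_mk (TrL.c (I.pos (nat_lit 0) (nat_lit 0)) (xb (xa T3.l12 T3.l12) (xa T3.l12 T3.l12))
  (TrL.c (I.pos (nat_lit 0) (nat_lit 0)) T1.l8
  (TrL.c (I.pos (nat_lit 0) (nat_lit 124588530)) T3.l9
  (TrL.c (I.pos (nat_lit 0) (nat_lit 96881482)) T1.l9
  (TrL.c (I.pos (nat_lit 0) (nat_lit 0)) (xb (xa T1.l12 T1.l12) T1.l12)
  (TrL.c (I.pos (nat_lit 0) (nat_lit 0)) T3.l10
  (TrL.c (I.mix (nat_lit 17240550) (nat_lit 96881482)) (xR T1.l11 T1.l11)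
  (TrL.c (I.mix (nat_lit 17240550) (nat_lit 71940500)) T3.l2
  TrL.n)))))))) (by decide +kernel)
theorem bx5_11 : BoxOK sI cl9 cl7 cl4 t3 t1 b5_11 :=
  box_mk (TrL.c (I.pos (nat_lit 0) (nat_lit 0)) (xa (xa (xb T3.l12 T3.l12) T3.l12) T3.l12)
  (TrL.c (I.pos (nat_lit 0) (nat_lit 0)) T1.l8
  (TrL.c (I.pos (nat_lit 0) (nat_lit 124588530)) T3.l9
  (TrL.c (I.pos (nat_lit 0) (nat_lit 96881482)) T1.l9
  (TrL.c (I.pos (nat_lit 0) (nat_lit 0)) T1.l12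
  (TrL.c (I.pos (nat_lit 0) (nat_lit 0)) T3.l10
  (TrL.c (I.mix (nat_lit 17240550) (nat_lit 96881482)) T1.l11
  (TrL.c (I.mix (nat_lit 17240550) (nat_lit 71940500)) T3.l11
  TrL.n)))))))) (by decide +kernel)
theorem bx5_12 : BoxOK sI cl9 cl7 cl4 t3 t1 b5_12 :=
  box_mk (TrL.c (I.pos (nat_lit 0) (nat_lit 0)) (xa (xb T3.l0 (xa T3.l0 T3.l0)) (xa T3.l0 T3.l0))
  (TrL.c (I.pos (nat_lit 0) (nat_lit 0)) T1.l8
  (TrL.c (I.pos (nat_lit 0) (nat_lit 124588530)) (xR T3.l9 T3.l4)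
  (TrL.c (I.pos (nat_lit 0) (nat_lit 96881482)) (xR T1.l9 T1.l9)
  (TrL.c (I.pos (nat_lit 0) (nat_lit 0)) (xa (xb (xk T1.l10 T1.l10) T1.l10) (xk (xb (xa T1.l10 T1.l10) (xa T1.l10 T1.l10)) (xb (xa T1.l10 T1.l10) (xa T1.l10 T1.l10))))
  (TrL.c (I.pos (nat_lit 0) (nat_lit 0)) T3.l10
  (TrL.c (I.mix (nat_lit 17240550) (nat_lit 96881482)) (xR T1.l11 T1.l11)
  (TrL.c (I.mix (nat_lit 17240550) (nat_lit 71940500)) (xR T3.l11 T3.l11)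
  TrL.n)))))))) (by decide +kernel)
theorem bx5_13 : BoxOK sI cl9 cl7 cl4 t3 t1 b5_13 :=
  box_mk (TrL.c (I.pos (nat_lit 0) (nat_lit 0)) (xa (xb T3.l0 (xa T3.l0 T3.l0)) (xb T3.l0 T3.l0))
  (TrL.c (I.pos (nat_lit 0) (nat_lit 0)) T1.l8
  (TrL.c (I.pos (nat_lit 0) (nat_lit 124588530)) (xR T3.l9 T3.l9)
  (TrL.c (I.pos (nat_lit 0) (nat_lit 96881482)) (xR T1.l9 T1.l9)
  (TrL.c (I.pos (nat_lit 0) (nat_lit 0)) (xa T1.l10 (xk T1.l10 T1.l10))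
  (TrL.c (I.pos (nat_lit 0) (nat_lit 0)) T3.l10
  (TrL.c (I.mix (nat_lit 17240550) (nat_lit 96881482)) (xR T1.l11 T1.l11)
  (TrL.c (I.mix (nat_lit 17240550) (nat_lit 71940500)) (xR T3.l11 T3.l11)
  TrL.n)))))))) (by decide +kernel)
theorem sv5 : StarV sI cl9 cl7 cl4 t3 t1 t5 :=
  (bt_n (bt_n (bt_n (bt_b bx5_0) (bt_n (bt_b bx5_1) (bt_b bx5_2))) (bt_n (bt_n (bt_b bx5_3) (bt_b bx5_4)) (bt_n (bt_b bx5_5) (bt_b bx5_6)))) (bt_n (bt_n (bt_b bx5_7) (bt_n (bt_b bx5_8) (bt_b bx5_9))) (bt_n (bt_n (bt_b bx5_10) (bt_b bx5_11)) (bt_n (bt_b bx5_12) (bt_b bx5_13)))))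
def S5 : StarD := StarD.mk cl9 cl7 cl4 3 1 t5
def G : List StarD := [S0, S1, S2, S3, S4, S5]
theorem so0 : StarOK sI G S0 :=
  star_mk (by decide) (by decide) rfl rfl rfl rfl rfl rfl (rfl : _ = t2) (rfl : _ = t4)
  (st_mk (Pth.l (Pth.l (Pth.l Pth.z))) (nat_lit 144388175) (nat_lit 168077406) (by decide +kernel))
  (st_mk (Pth.l (Pth.l (Pth.l Pth.z))) (nat_lit 181804603) (nat_lit 206321630) (by decide +kernel))
  (st_mk (Pth.l (Pth.l (Pth.l Pth.z))) (nat_lit 225756252) (nat_lit 251426862) (by decide +kernel)) sv0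
theorem so1 : StarOK sI G S1 :=
  star_mk (by decide) (by decide) rfl rfl rfl rfl rfl rfl (rfl : _ = t4) (rfl : _ = t2)
  (st_mk (Pth.l (Pth.l (Pth.l Pth.z))) (nat_lit 118287308) (nat_lit 137954132) (by decide +kernel))
  (st_mk (Pth.l (Pth.l (Pth.l Pth.z))) (nat_lit 153614830) (nat_lit 177836494) (by decide +kernel))
  (st_mk (Pth.l (Pth.l (Pth.l Pth.z))) (nat_lit 197397814) (nat_lit 222748005) (by decide +kernel)) sv1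
theorem so2 : StarOK sI G S2 :=
  star_mk (by decide) (by decide) rfl rfl rfl rfl rfl rfl (rfl : _ = t0) (rfl : _ = t5)
  (st_mk (Pth.l (Pth.l (Pth.l Pth.z))) (nat_lit 369027197) (nat_lit 373523665) (by decide +kernel))
  (st_mk (Pth.l (Pth.l (Pth.l Pth.z))) (nat_lit 404892856) (nat_lit 409989048) (by decide +kernel))
  (st_mk (Pth.l (Pth.l (Pth.l Pth.z))) (nat_lit 446391265) (nat_lit 452255815) (by decide +kernel)) sv2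
theorem so3 : StarOK sI G S3 :=
  star_mk (by decide) (by decide) rfl rfl rfl rfl rfl rfl (rfl : _ = t5) (rfl : _ = t0)
  (st_mk (Pth.l (Pth.l (Pth.l Pth.z))) (nat_lit 115998830) (nat_lit 134827792) (by decide +kernel))
  (st_mk (Pth.l (Pth.l (Pth.l Pth.z))) (nat_lit 151532612) (nat_lit 170819366) (by decide +kernel))
  (st_mk (Pth.l (Pth.l (Pth.l Pth.z))) (nat_lit 192747726) (nat_lit 212684494) (by decide +kernel)) sv3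
theorem so4 : StarOK sI G S4 :=
  star_mk (by decide) (by decide) rfl rfl rfl rfl rfl rfl (rfl : _ = t1) (rfl : _ = t3)
  (st_mk (Pth.l (Pth.l (Pth.l Pth.z))) (nat_lit 366980338) (nat_lit 370089635) (by decide +kernel))
  (st_mk (Pth.l (Pth.l (Pth.l Pth.z))) (nat_lit 401780068) (nat_lit 406488243) (by decide +kernel))
  (st_mk (Pth.l (Pth.l (Pth.l Pth.z))) (nat_lit 442603991) (nat_lit 447981639) (by decide +kernel)) sv4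
theorem so5 : StarOK sI G S5 :=
  star_mk (by decide) (by decide) rfl rfl rfl rfl rfl rfl (rfl : _ = t3) (rfl : _ = t1)
  (st_mk (Pth.l (Pth.l (Pth.l Pth.z))) (nat_lit 140566584) (nat_lit 163059879) (by decide +kernel))
  (st_mk (Pth.l (Pth.l (Pth.l Pth.z))) (nat_lit 175778884) (nat_lit 198682511) (by decide +kernel))
  (st_mk (Pth.l (Pth.l (Pth.l Pth.z))) (nat_lit 216495394) (nat_lit 239970934) (by decide +kernel)) sv5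
theorem ok : GroupOK (nat_lit 91226112) (nat_lit 150339584) G := grp_mk (allS_c so0 (allS_c so1 (allS_c so2 (allS_c so3 (allS_c so4 (allS_c so5 allS_n))))))
theorem cov : GCov G cl4 cl7 cl9 := cov_mk
  ⟨0, by decide, rfl, rfl, rfl⟩ ⟨1, by decide, rfl, rfl, rfl⟩ ⟨2, by decide, rfl, rfl, rfl⟩ ⟨3, by decide, rfl, rfl, rfl⟩ ⟨4, by decide, rfl, rfl, rfl⟩ ⟨5, by decide, rfl, rfl, rfl⟩
end Q145_1


end Pool.Agent.Helper6.MONO
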