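import Pool.Agent.Helper6.MONO.Cert.C47

/-!
Certificate data (generated).
-/

set_option autoImplicit false
set_option linter.all false
noncomputable section
namespace Pool.Agent.Helper6.MONO


namespace Q145_2
def sI : I := I.pos (nat_lit 150274048) (nat_lit 209387520)
def b0_0 : Bx := Bx.mk (St.mk (I.pos (nat_lit 156237824) (nat_lit 236535808)) (I.mix (nat_lit 3784704) (nat_lit 62324736)) (I.mix (nat_lit 3948544) (nat_lit 65748992)) (I.pos (nat_lit 139165696) (nat_lit 286523392)) (I.mix (nat_lit 105578496) (nat_lit 64978944)) (I.mix (nat_lit 67158016) (nat_lit 58753024)) (I.mix (nat_lit 96944128) (nat_lit 92667904)))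
  false (nat_lit 23103791)
def b0_1 : Bx := Bx.mk (St.mk (I.mix (nat_lit 23658496) (nat_lit 119455744)) (I.mix (nat_lit 8224768) (nat_lit 33226752)) (I.mix (nat_lit 28999680) (nat_lit 6225920)) (I.pos (nat_lit 38338560) (nat_lit 114786304)) (I.mix (nat_lit 40222720) (nat_lit 53624832)) (I.mix (nat_lit 45039616) (nat_lit 30130176)) (I.mix (nat_lit 31604736) (nat_lit 22347776)))
  false (nat_lit 0)
def b0_2 : Bx := Bx.mk (St.mk (I.pos (nat_lit 89161728) (nat_lit 133857280)) (I.mix (nat_lit 48054272) (nat_lit 11354112)) (I.neg (nat_lit 8044544) (nat_lit 64569344)) (I.pos (nat_lit 73613312) (nat_lit 130859008)) (I.mix (nat_lit 95191040) (nat_lit 42237952)) (I.mix (nat_lit 39911424) (nat_lit 84705280)) (I.mix (nat_lit 27836416) (nat_lit 68845568)))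
  false (nat_lit 0)
def b0_3 : Bx := Bx.mk (St.mk (I.mix (nat_lit 35880960) (nat_lit 68304896)) (I.mix (nat_lit 30113792) (nat_lit 5734400)) (I.neg (nat_lit 2998272) (nat_lit 28000256)) (I.pos (nat_lit 40566784) (nat_lit 80871424)) (I.mix (nat_lit 43679744) (nat_lit 22069248)) (I.mix (nat_lit 19333120) (nat_lit 37486592)) (I.mix (nat_lit 8912896) (nat_lit 16269312)))
  false (nat_lit 0)
def b0_4 : Bx := Bx.mk (St.mk (I.pos (nat_lit 80560128) (nat_lit 113786880)) (I.mix (nat_lit 10764288) (nat_lit 14630912)) (I.neg (nat_lit 5439488) (nat_lit 31522816)) (I.pos (nat_lit 70696960) (nat_lit 112984064)) (I.mix (nat_lit 37355520) (nat_lit 28672000)) (I.mix (nat_lit 26296320) (nat_lit 25903104)) (I.mix (nat_lit 18153472) (nat_lit 22134784)))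
  false (nat_lit 0)
def b0_5 : Bx := Bx.mk (St.mk (I.mix (nat_lit 45367296) (nat_lit 52822016)) (I.mix (nat_lit 6701056) (nat_lit 9797632)) (I.neg (nat_lit 6160384) (nat_lit 17498112)) (I.pos (nat_lit 41500672) (nat_lit 73646080)) (I.mix (nat_lit 17989632) (nat_lit 15450112)) (I.mix (nat_lit 12664832) (nat_lit 12926976)) (I.mix (nat_lit 4096000) (nat_lit 5013504)))
  false (nat_lit 0)
def b0_6 : Bx := Bx.mk (St.mk (I.pos (nat_lit 212992000) (nat_lit 259211264)) (I.mix (nat_lit 15876096) (nat_lit 13123584)) (I.neg (nat_lit 28229632) (nat_lit 93093888)) (I.pos (nat_lit 234684416) (nat_lit 328859648)) (I.mix (nat_lit 94879744) (nat_lit 25542656)) (I.mix (nat_lit 55328768) (nat_lit 55951360)) (I.mix (nat_lit 81428480) (nat_lit 109756416)))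
  false (nat_lit 0)
def b0_7 : Bx := Bx.mk (St.mk (I.pos (nat_lit 197001216) (nat_lit 251969536)) (I.mix (nat_lit 15450112) (nat_lit 34422784)) (I.mix (nat_lit 85868544) (nat_lit 3637248)) (I.pos (nat_lit 220053504) (nat_lit 308068352)) (I.mix (nat_lit 109101056) (nat_lit 51658752)) (I.mix (nat_lit 71614464) (nat_lit 74039296)) (I.mix (nat_lit 109379584) (nat_lit 137658368)))
  false (nat_lit 9500823)
def b0_8 : Bx := Bx.mk (St.mk (I.pos (nat_lit 188710912) (nat_lit 245334016)) (I.pos (nat_lit 5881856) (nat_lit 61325312)) (I.mix (nat_lit 34111488) (nat_lit 59736064)) (I.pos (nat_lit 213729280) (nat_lit 304906240)) (I.mix (nat_lit 101056512) (nat_lit 86261760)) (I.mix (nat_lit 90636288) (nat_lit 71598080)) (I.mix (nat_lit 153747456) (nat_lit 109772800)))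
  false (nat_lit 18035552)
def b0_9 : Bx := Bx.mk (St.mk (I.pos (nat_lit 96174080) (nat_lit 172982272)) (I.neg (nat_lit 1998848) (nat_lit 49577984)) (I.neg (nat_lit 14843904) (nat_lit 63963136)) (I.pos (nat_lit 84803584) (nat_lit 176914432)) (I.mix (nat_lit 82165760) (nat_lit 43827200)) (I.mix (nat_lit 46579712) (nat_lit 61751296)) (I.mix (nat_lit 36782080) (nat_lit 61161472)))
  false (nat_lit 0)
def b0_10 : Bx := Bx.mk (St.mk (I.mix (nat_lit 32161792) (nat_lit 87162880)) (I.mix (nat_lit 31817728) (nat_lit 6799360)) (I.neg (nat_lit 3031040) (nat_lit 29736960)) (I.pos (nat_lit 38240256) (nat_lit 91717632)) (I.mix (nat_lit 49201152) (nat_lit 35127296)) (I.mix (nat_lit 29360128) (nat_lit 38797312)) (I.mix (nat_lit 15581184) (nat_lit 21823488)))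
  false (nat_lit 0)
def b0_11 : Bx := Bx.mk (St.mk (I.pos (nat_lit 166051840) (nat_lit 217251840)) (I.mix (nat_lit 11108352) (nat_lit 59359232)) (I.mix (nat_lit 24166400) (nat_lit 63406080)) (I.pos (nat_lit 162037760) (nat_lit 251346944)) (I.mix (nat_lit 125468672) (nat_lit 57294848)) (I.mix (nat_lit 126091264) (nat_lit 78282752)) (I.mix (nat_lit 127893504) (nat_lit 81543168)))
  false (nat_lit 27309453)
def b0_12 : Bx := Bx.mk (St.mk (I.mix (nat_lit 41385984) (nat_lit 118226944)) (I.mix (nat_lit 15073280) (nat_lit 34881536)) (I.mix (nat_lit 23199744) (nat_lit 8847360)) (I.pos (nat_lit 37208064) (nat_lit 113164288)) (I.mix (nat_lit 53166080) (nat_lit 41025536)) (I.mix (nat_lit 50216960) (nat_lit 38420480)) (I.mix (nat_lit 25313280) (nat_lit 21118976)))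
  false (nat_lit 0)
def b0_13 : Bx := Bx.mk (St.mk (I.pos (nat_lit 167968768) (nat_lit 206929920)) (I.mix (nat_lit 26492928) (nat_lit 14139392)) (I.mix (nat_lit 48168960) (nat_lit 2310144)) (I.pos (nat_lit 160612352) (nat_lit 223182848)) (I.mix (nat_lit 60817408) (nat_lit 59736064)) (I.mix (nat_lit 60506112) (nat_lit 57933824)) (I.mix (nat_lit 61931520) (nat_lit 54820864)))
  false (nat_lit 0)
def b0_14 : Bx := Bx.mk (St.mk (I.pos (nat_lit 141885440) (nat_lit 187842560)) (I.mix (nat_lit 38322176) (nat_lit 1064960)) (I.neg (nat_lit 9011200) (nat_lit 62455808)) (I.pos (nat_lit 124813312) (nat_lit 198934528)) (I.mix (nat_lit 43433984) (nat_lit 28327936)) (I.mix (nat_lit 25804800) (nat_lit 30949376)) (I.mix (nat_lit 26427392) (nat_lit 33800192)))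
  false (nat_lit 0)
def b0_15 : Bx := Bx.mk (St.mk (I.pos (nat_lit 167870464) (nat_lit 211009536)) (I.mix (nat_lit 15908864) (nat_lit 32210944)) (I.mix (nat_lit 34078720) (nat_lit 29376512)) (I.pos (nat_lit 164708352) (nat_lit 228818944)) (I.mix (nat_lit 94928896) (nat_lit 81248256)) (I.mix (nat_lit 118210560) (nat_lit 79413248)) (I.mix (nat_lit 124633088) (nat_lit 76431360)))
  false (nat_lit 0)
def b0_16 : Bx := Bx.mk (St.mk (I.pos (nat_lit 138248192) (nat_lit 190414848)) (I.mix (nat_lit 34701312) (nat_lit 9568256)) (I.neg (nat_lit 835584) (nat_lit 56115200)) (I.pos (nat_lit 120913920) (nat_lit 200441856)) (I.mix (nat_lit 57376768) (nat_lit 33652736)) (I.mix (nat_lit 45416448) (nat_lit 34635776)) (I.mix (nat_lit 46530560) (nat_lit 36536320)))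
  false (nat_lit 0)
def b0_17 : Bx := Bx.mk (St.mk (I.pos (nat_lit 141426688) (nat_lit 172261376)) (I.neg (nat_lit 5226496) (nat_lit 35241984)) (I.neg (nat_lit 15990784) (nat_lit 58408960)) (I.pos (nat_lit 124207104) (nat_lit 177405952)) (I.mix (nat_lit 28131328) (nat_lit 4767744)) (I.mix (nat_lit 6766592) (nat_lit 11206656)) (I.mix (nat_lit 6488064) (nat_lit 14876672)))
  false (nat_lit 0)
def b0_18 : Bx := Bx.mk (St.mk (I.pos (nat_lit 172802048) (nat_lit 204128256)) (I.mix (nat_lit 17416192) (nat_lit 14172160)) (I.mix (nat_lit 35946496) (nat_lit 3686400)) (I.pos (nat_lit 164839424) (nat_lit 221167616)) (I.mix (nat_lit 51625984) (nat_lit 44007424)) (I.mix (nat_lit 48971776) (nat_lit 46006272)) (I.mix (nat_lit 48791552) (nat_lit 44367872)))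
  false (nat_lit 0)
def b0_19 : Bx := Bx.mk (St.mk (I.pos (nat_lit 141164544) (nat_lit 192823296)) (I.mix (nat_lit 32686080) (nat_lit 11649024)) (I.mix (nat_lit 53837824) (nat_lit 1327104)) (I.pos (nat_lit 123469824) (nat_lit 203882496)) (I.mix (nat_lit 49758208) (nat_lit 27885568)) (I.mix (nat_lit 36044800) (nat_lit 32980992)) (I.mix (nat_lit 35667968) (nat_lit 34537472)))
  false (nat_lit 0)
def b0_20 : Bx := Bx.mk (St.mk (I.pos (nat_lit 164773888) (nat_lit 201457664)) (I.mix (nat_lit 30375936) (nat_lit 13254656)) (I.mix (nat_lit 53592064) (nat_lit 2031616)) (I.pos (nat_lit 154615808) (nat_lit 215859200)) (I.mix (nat_lit 64700416) (nat_lit 48840704)) (I.mix (nat_lit 59293696) (nat_lit 54132736)) (I.mix (nat_lit 60342272) (nat_lit 54018048)))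
  false (nat_lit 0)
def b0_21 : Bx := Bx.mk (St.mk (I.pos (nat_lit 139460608) (nat_lit 186613760)) (I.mix (nat_lit 39108608) (nat_lit 868352)) (I.neg (nat_lit 9551872) (nat_lit 63488000)) (I.pos (nat_lit 124452864) (nat_lit 195919872)) (I.mix (nat_lit 45711360) (nat_lit 22970368)) (I.mix (nat_lit 25788416) (nat_lit 26869760)) (I.mix (nat_lit 26918912) (nat_lit 31588352)))
  false (nat_lit 0)
def t0 : BTr := (BTr.n (BTr.n (BTr.n (BTr.n (BTr.b b0_0) (BTr.b b0_1)) (BTr.n (BTr.b b0_2) (BTr.n (BTr.b b0_3) (BTr.b b0_4)))) (BTr.n (BTr.n (BTr.b b0_5) (BTr.n (BTr.b b0_6) (BTr.b b0_7))) (BTr.n (BTr.b b0_8) (BTr.n (BTr.b b0_9) (BTr.b b0_10))))) (BTr.n (BTr.n (BTr.n (BTr.b b0_11) (BTr.b b0_12)) (BTr.n (BTr.b b0_13) (BTr.n (BTr.b b0_14) (BTr.b b0_15)))) (BTr.n (BTr.n (BTr.b b0_16) (BTr.n (BTr.b b0_17) (BTr.b b0_18))) (BTr.n (BTr.b b0_19) (BTr.n (BTr.b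 b0_20) (BTr.b b0_21))))))
namespace T0
def l0 : Tr := Tr.L (Pth.l (Pth.l (Pth.l (Pth.l Pth.z))))
def l1 : Tr := Tr.L (Pth.l (Pth.l (Pth.l (Pth.r Pth.z))))
def l2 : Tr := Tr.L (Pth.l (Pth.l (Pth.r (Pth.l Pth.z))))
def l3 : Tr := Tr.L (Pth.l (Pth.l (Pth.r (Pth.r (Pth.l Pth.z)))))
def l4 : Tr := Tr.L (Pth.l (Pth.l (Pth.r (Pth.r (Pth.r Pth.z)))))
def l5 : Tr := Tr.L (Pth.l (Pth.r (Pth.l (Pth.l Pth.z))))
def l6 : Tr := Tr.L (Pth.l (Pth.r (Pth.l (Pth.r (Pth.l Pth.z)))))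
def l7 : Tr := Tr.L (Pth.l (Pth.r (Pth.l (Pth.r (Pth.r Pth.z)))))
def l8 : Tr := Tr.L (Pth.l (Pth.r (Pth.r (Pth.l Pth.z))))
def l9 : Tr := Tr.L (Pth.l (Pth.r (Pth.r (Pth.r (Pth.l Pth.z)))))
def l10 : Tr := Tr.L (Pth.l (Pth.r (Pth.r (Pth.r (Pth.r Pth.z)))))
def l11 : Tr := Tr.L (Pth.r (Pth.l (Pth.l (Pth.l Pth.z))))
def l12 : Tr := Tr.L (Pth.r (Pth.l (Pth.l (Pth.r Pth.z))))
def l13 : Tr := Tr.L (Pth.r (Pth.l (Pth.r (Pth.l Pth.z))))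
def l14 : Tr := Tr.L (Pth.r (Pth.l (Pth.r (Pth.r (Pth.l Pth.z)))))
def l15 : Tr := Tr.L (Pth.r (Pth.l (Pth.r (Pth.r (Pth.r Pth.z)))))
def l16 : Tr := Tr.L (Pth.r (Pth.r (Pth.l (Pth.l Pth.z))))
def l17 : Tr := Tr.L (Pth.r (Pth.r (Pth.l (Pth.r (Pth.l Pth.z)))))
def l18 : Tr := Tr.L (Pth.r (Pth.r (Pth.l (Pth.r (Pth.r Pth.z)))))
def l19 : Tr := Tr.L (Pth.r (Pth.r (Pth.r (Pth.l Pth.z))))
def l20 : Tr := Tr.L (Pth.r (Pth.r (Pth.r (Pth.r (Pth.l Pth.z)))))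
def l21 : Tr := Tr.L (Pth.r (Pth.r (Pth.r (Pth.r (Pth.r Pth.z)))))
end T0
def b1_0 : Bx := Bx.mk (St.mk (I.pos (nat_lit 156172288) (nat_lit 237715456)) (I.mix (nat_lit 3424256) (nat_lit 56803328)) (I.mix (nat_lit 4210688) (nat_lit 70369280)) (I.pos (nat_lit 111001600) (nat_lit 257753088)) (I.mix (nat_lit 110067712) (nat_lit 63979520)) (I.mix (nat_lit 67878912) (nat_lit 62455808)) (I.mix (nat_lit 96337920) (nat_lit 89849856)))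
  false (nat_lit 35975357)
def b1_1 : Bx := Bx.mk (St.mk (I.mix (nat_lit 18923520) (nat_lit 132792320)) (I.mix (nat_lit 6930432) (nat_lit 27099136)) (I.mix (nat_lit 21512192) (nat_lit 10846208)) (I.pos (nat_lit 12812288) (nat_lit 99631104)) (I.mix (nat_lit 39010304) (nat_lit 44826624)) (I.mix (nat_lit 39272448) (nat_lit 27131904)) (I.mix (nat_lit 30425088) (nat_lit 20152320)))
  false (nat_lit 10252785)
def b1_2 : Bx := Bx.mk (St.mk (I.pos (nat_lit 103284736) (nat_lit 144343040)) (I.mix (nat_lit 42893312) (nat_lit 10420224)) (I.neg (nat_lit 2965504) (nat_lit 57425920)) (I.pos (nat_lit 59457536) (nat_lit 114737152)) (I.mix (nat_lit 91095040) (nat_lit 46743552)) (I.mix (nat_lit 41041920) (nat_lit 89882624)) (I.mix (nat_lit 29933568) (nat_lit 76201984)))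
  false (nat_lit 0)
def b1_3 : Bx := Bx.mk (St.mk (I.mix (nat_lit 23674880) (nat_lit 91652096)) (I.mix (nat_lit 26017792) (nat_lit 4947968)) (I.neg (nat_lit 98304) (nat_lit 24969216)) (I.pos (nat_lit 14974976) (nat_lit 66519040)) (I.mix (nat_lit 39550976) (nat_lit 20709376)) (I.mix (nat_lit 17842176) (nat_lit 36061184)) (I.mix (nat_lit 9191424) (nat_lit 19202048)))
  false (nat_lit 0)
def b1_4 : Bx := Bx.mk (St.mk (I.pos (nat_lit 199540736) (nat_lit 251166720)) (I.mix (nat_lit 15302656) (nat_lit 31686656)) (I.mix (nat_lit 69599232) (nat_lit 15269888)) (I.pos (nat_lit 196313088) (nat_lit 279412736)) (I.mix (nat_lit 108167168) (nat_lit 42418176)) (I.mix (nat_lit 62308352) (nat_lit 73089024)) (I.mix (nat_lit 96927744) (nat_lit 131923968)))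
  false (nat_lit 25966522)
def b1_5 : Bx := Bx.mk (St.mk (I.pos (nat_lit 190857216) (nat_lit 245088256)) (I.pos (nat_lit 4964352) (nat_lit 55951360)) (I.mix (nat_lit 20627456) (nat_lit 65601536)) (I.pos (nat_lit 189710336) (nat_lit 274038784)) (I.mix (nat_lit 105021440) (nat_lit 84525056)) (I.mix (nat_lit 93061120) (nat_lit 70860800)) (I.mix (nat_lit 154222592) (nat_lit 111411200)))
  false (nat_lit 49459117)
def b1_6 : Bx := Bx.mk (St.mk (I.mix (nat_lit 29589504) (nat_lit 78446592)) (I.mix (nat_lit 5210112) (nat_lit 5767168)) (I.neg (nat_lit 1359872) (nat_lit 12304384)) (I.pos (nat_lit 15794176) (nat_lit 58490880)) (I.mix (nat_lit 13680640) (nat_lit 8585216)) (I.mix (nat_lit 7864320) (nat_lit 7454720)) (I.mix (nat_lit 3915776) (nat_lit 4669440)))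
  false (nat_lit 0)
def b1_7 : Bx := Bx.mk (St.mk (I.pos (nat_lit 100696064) (nat_lit 125878272)) (I.mix (nat_lit 9060352) (nat_lit 7716864)) (I.neg (nat_lit 3833856) (nat_lit 23740416)) (I.pos (nat_lit 58523648) (nat_lit 96747520)) (I.mix (nat_lit 33505280) (nat_lit 22757376)) (I.mix (nat_lit 22151168) (nat_lit 22102016)) (I.mix (nat_lit 17137664) (nat_lit 20283392)))
  false (nat_lit 0)
def b1_8 : Bx := Bx.mk (St.mk (I.pos (nat_lit 213630976) (nat_lit 258031616)) (I.mix (nat_lit 14794752) (nat_lit 13910016)) (I.neg (nat_lit 14467072) (nat_lit 73564160)) (I.pos (nat_lit 212287488) (nat_lit 298942464)) (I.mix (nat_lit 82886656) (nat_lit 18792448)) (I.mix (nat_lit 45088768) (nat_lit 43008000)) (I.mix (nat_lit 67485696) (nat_lit 81936384)))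
  false (nat_lit 1646971)
def b1_9 : Bx := Bx.mk (St.mk (I.pos (nat_lit 103858176) (nat_lit 182304768)) (I.neg (nat_lit 1245184) (nat_lit 47071232)) (I.neg (nat_lit 10190848) (nat_lit 58441728)) (I.pos (nat_lit 71450624) (nat_lit 162201600)) (I.mix (nat_lit 78610432) (nat_lit 41926656)) (I.mix (nat_lit 45957120) (nat_lit 58441728)) (I.mix (nat_lit 39288832) (nat_lit 60194816)))
  false (nat_lit 54438120)
def b1_10 : Bx := Bx.mk (St.mk (I.mix (nat_lit 22134784) (nat_lit 107937792)) (I.mix (nat_lit 27770880) (nat_lit 6356992)) (I.mix (nat_lit 25509888) (nat_lit 196608)) (I.pos (nat_lit 13762560) (nat_lit 78217216)) (I.mix (nat_lit 41975808) (nat_lit 30670848)) (I.mix (nat_lit 25804800) (nat_lit 33783808)) (I.mix (nat_lit 14368768) (nat_lit 21479424)))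
  false (nat_lit 16550779)
def b1_11 : Bx := Bx.mk (St.mk (I.pos (nat_lit 169639936) (nat_lit 216104960)) (I.mix (nat_lit 13647872) (nat_lit 50905088)) (I.mix (nat_lit 18399232) (nat_lit 65011712)) (I.pos (nat_lit 138674176) (nat_lit 219430912)) (I.mix (nat_lit 120913920) (nat_lit 52101120)) (I.mix (nat_lit 118915072) (nat_lit 73465856)) (I.mix (nat_lit 128925696) (nat_lit 81166336)))
  false (nat_lit 0)
def b1_12 : Bx := Bx.mk (St.mk (I.mix (nat_lit 28639232) (nat_lit 130973696)) (I.mix (nat_lit 16072704) (nat_lit 31014912)) (I.mix (nat_lit 20758528) (nat_lit 14303232)) (I.pos (nat_lit 13008896) (nat_lit 96714752)) (I.mix (nat_lit 52068352) (nat_lit 33947648)) (I.mix (nat_lit 47284224) (nat_lit 35700736)) (I.mix (nat_lit 27344896) (nat_lit 21217280)))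
  false (nat_lit 28241124)
def b1_13 : Bx := Bx.mk (St.mk (I.pos (nat_lit 170934272) (nat_lit 208306176)) (I.mix (nat_lit 29114368) (nat_lit 10305536)) (I.mix (nat_lit 44630016) (nat_lit 5128192)) (I.pos (nat_lit 138166272) (nat_lit 198770688)) (I.mix (nat_lit 61669376) (nat_lit 57540608)) (I.mix (nat_lit 59817984) (nat_lit 57688064)) (I.mix (nat_lit 64684032) (nat_lit 58949632)))
  false (nat_lit 55411168)
def b1_14 : Bx := Bx.mk (St.mk (I.pos (nat_lit 149241856) (nat_lit 188989440)) (I.neg (nat_lit 2211840) (nat_lit 35979264)) (I.neg (nat_lit 8273920) (nat_lit 54116352)) (I.pos (nat_lit 107888640) (nat_lit 173277184)) (I.mix (nat_lit 42156032) (nat_lit 27508736)) (I.mix (nat_lit 24444928) (nat_lit 31424512)) (I.mix (nat_lit 26673152) (nat_lit 35930112)))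
  false (nat_lit 17387010)
def b1_15 : Bx := Bx.mk (St.mk (I.pos (nat_lit 169164800) (nat_lit 211337216)) (I.mix (nat_lit 18448384) (nat_lit 28000256)) (I.mix (nat_lit 29294592) (nat_lit 32194560)) (I.pos (nat_lit 139591680) (nat_lit 203587584)) (I.mix (nat_lit 104349696) (nat_lit 68206592)) (I.mix (nat_lit 113180672) (nat_lit 69468160)) (I.mix (nat_lit 124813312) (nat_lit 72237056)))
  false (nat_lit 0)
def b1_16 : Bx := Bx.mk (St.mk (I.pos (nat_lit 143228928) (nat_lit 190660608)) (I.mix (nat_lit 34111488) (nat_lit 5750784)) (I.neg (nat_lit 196608) (nat_lit 49840128)) (I.pos (nat_lit 102252544) (nat_lit 174374912)) (I.mix (nat_lit 57442304) (nat_lit 27820032)) (I.mix (nat_lit 41517056) (nat_lit 32948224)) (I.mix (nat_lit 44941312) (nat_lit 36667392)))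
  false (nat_lit 28101462)
def b1_17 : Bx := Bx.mk (St.mk (I.pos (nat_lit 175685632) (nat_lit 205455360)) (I.mix (nat_lit 19267584) (nat_lit 10436608)) (I.mix (nat_lit 30490624) (nat_lit 6668288)) (I.pos (nat_lit 141967360) (nat_lit 195887104)) (I.mix (nat_lit 45416448) (nat_lit 37928960)) (I.mix (nat_lit 41664512) (nat_lit 40402944)) (I.mix (nat_lit 43581440) (nat_lit 41779200)))
  false (nat_lit 17049376)
def b1_18 : Bx := Bx.mk (St.mk (I.pos (nat_lit 163430400) (nat_lit 193183744)) (I.mix (nat_lit 23805952) (nat_lit 7192576)) (I.mix (nat_lit 36175872) (nat_lit 2441216)) (I.pos (nat_lit 123207680) (nat_lit 178176000)) (I.mix (nat_lit 50053120) (nat_lit 25198592)) (I.mix (nat_lit 34390016) (nat_lit 32833536)) (I.mix (nat_lit 36569088) (nat_lit 36241408)))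
  false (nat_lit 7200902)
def b1_19 : Bx := Bx.mk (St.mk (I.pos (nat_lit 168099840) (nat_lit 206389248)) (I.mix (nat_lit 33292288) (nat_lit 9207808)) (I.mix (nat_lit 51101696) (nat_lit 4308992)) (I.pos (nat_lit 132153344) (nat_lit 197312512)) (I.mix (nat_lit 67977216) (nat_lit 54394880)) (I.mix (nat_lit 63504384) (nat_lit 60080128)) (I.mix (nat_lit 68354048) (nat_lit 61521920)))
  false (nat_lit 59847510)
def b1_20 : Bx := Bx.mk (St.mk (I.pos (nat_lit 155516928) (nat_lit 185696256)) (I.neg (nat_lit 2834432) (nat_lit 33046528)) (I.neg (nat_lit 8978432) (nat_lit 50659328)) (I.pos (nat_lit 114360320) (nat_lit 168443904)) (I.mix (nat_lit 36257792) (nat_lit 17530880)) (I.mix (nat_lit 17580032) (nat_lit 21053440)) (I.mix (nat_lit 19300352) (nat_lit 24641536)))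
  false (nat_lit 911981)
def t1 : BTr := (BTr.n (BTr.n (BTr.n (BTr.n (BTr.b b1_0) (BTr.b b1_1)) (BTr.n (BTr.b b1_2) (BTr.n (BTr.b b1_3) (BTr.b b1_4)))) (BTr.n (BTr.n (BTr.b b1_5) (BTr.b b1_6)) (BTr.n (BTr.b b1_7) (BTr.n (BTr.b b1_8) (BTr.b b1_9))))) (BTr.n (BTr.n (BTr.n (BTr.b b1_10) (BTr.b b1_11)) (BTr.n (BTr.b b1_12) (BTr.n (BTr.b b1_13) (BTr.b b1_14)))) (BTr.n (BTr.n (BTr.b b1_15) (BTr.n (BTr.b b1_16) (BTr.b b1_17))) (BTr.n (BTr.b b1_18) (BTr.n (BTr.b b1_19) (BTr.b b1_20))))))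
namespace T1
def l0 : Tr := Tr.L (Pth.l (Pth.l (Pth.l (Pth.l Pth.z))))
def l1 : Tr := Tr.L (Pth.l (Pth.l (Pth.l (Pth.r Pth.z))))
def l2 : Tr := Tr.L (Pth.l (Pth.l (Pth.r (Pth.l Pth.z))))
def l3 : Tr := Tr.L (Pth.l (Pth.l (Pth.r (Pth.r (Pth.l Pth.z)))))
def l4 : Tr := Tr.L (Pth.l (Pth.l (Pth.r (Pth.r (Pth.r Pth.z)))))
def l5 : Tr := Tr.L (Pth.l (Pth.r (Pth.l (Pth.l Pth.z))))
def l6 : Tr := Tr.L (Pth.l (Pth.r (Pth.l (Pth.r Pth.z))))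
def l7 : Tr := Tr.L (Pth.l (Pth.r (Pth.r (Pth.l Pth.z))))
def l8 : Tr := Tr.L (Pth.l (Pth.r (Pth.r (Pth.r (Pth.l Pth.z)))))
def l9 : Tr := Tr.L (Pth.l (Pth.r (Pth.r (Pth.r (Pth.r Pth.z)))))
def l10 : Tr := Tr.L (Pth.r (Pth.l (Pth.l (Pth.l Pth.z))))
def l11 : Tr := Tr.L (Pth.r (Pth.l (Pth.l (Pth.r Pth.z))))
def l12 : Tr := Tr.L (Pth.r (Pth.l (Pth.r (Pth.l Pth.z))))
def l13 : Tr := Tr.L (Pth.r (Pth.l (Pth.r (Pth.r (Pth.l Pth.z)))))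
def l14 : Tr := Tr.L (Pth.r (Pth.l (Pth.r (Pth.r (Pth.r Pth.z)))))
def l15 : Tr := Tr.L (Pth.r (Pth.r (Pth.l (Pth.l Pth.z))))
def l16 : Tr := Tr.L (Pth.r (Pth.r (Pth.l (Pth.r (Pth.l Pth.z)))))
def l17 : Tr := Tr.L (Pth.r (Pth.r (Pth.l (Pth.r (Pth.r Pth.z)))))
def l18 : Tr := Tr.L (Pth.r (Pth.r (Pth.r (Pth.l Pth.z))))
def l19 : Tr := Tr.L (Pth.r (Pth.r (Pth.r (Pth.r (Pth.l Pth.z)))))
def l20 : Tr := Tr.L (Pth.r (Pth.r (Pth.r (Pth.r (Pth.r Pth.z)))))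
end T1
def b2_0 : Bx := Bx.mk (St.mk (I.pos (nat_lit 142704640) (nat_lit 219381760)) (I.mix (nat_lit 5570560) (nat_lit 93896704)) (I.mix (nat_lit 5521408) (nat_lit 93011968)) (I.pos (nat_lit 364658688) (nat_lit 461602816)) (I.mix (nat_lit 143933440) (nat_lit 86327296)) (I.mix (nat_lit 82329600) (nat_lit 76152832)) (I.mix (nat_lit 104431616) (nat_lit 107331584)))
  false (nat_lit 130095432)
def b2_1 : Bx := Bx.mk (St.mk (I.mix (nat_lit 59244544) (nat_lit 17367040)) (I.mix (nat_lit 18939904) (nat_lit 86507520)) (I.neg (nat_lit 41664512) (nat_lit 71958528)) (I.pos (nat_lit 259964928) (nat_lit 293650432)) (I.mix (nat_lit 48496640) (nat_lit 110280704)) (I.mix (nat_lit 90980352) (nat_lit 61390848)) (I.mix (nat_lit 41680896) (nat_lit 30834688)))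
  true (nat_lit 0)
def b2_2 : Bx := Bx.mk (St.mk (I.pos (nat_lit 10059776) (nat_lit 57688064)) (I.neg (nat_lit 31752192) (nat_lit 84410368)) (I.neg (nat_lit 43466752) (nat_lit 71827456)) (I.pos (nat_lit 264568832) (nat_lit 293388288)) (I.mix (nat_lit 110280704) (nat_lit 34455552)) (I.mix (nat_lit 61390848) (nat_lit 77971456)) (I.mix (nat_lit 41680896) (nat_lit 30834688)))
  false (nat_lit 0)
def b2_3 : Bx := Bx.mk (St.mk (I.pos (nat_lit 16482304) (nat_lit 127500288)) (I.neg (nat_lit 3768320) (nat_lit 89751552)) (I.mix (nat_lit 79822848) (nat_lit 2211840)) (I.pos (nat_lit 262701056) (nat_lit 334544896)) (I.mix (nat_lit 112328704) (nat_lit 71139328)) (I.mix (nat_lit 69451776) (nat_lit 83034112)) (I.mix (nat_lit 71434240) (nat_lit 70516736)))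
  false (nat_lit 43534172)
def b2_4 : Bx := Bx.mk (St.mk (I.pos (nat_lit 89620480) (nat_lit 191987712)) (I.mix (nat_lit 43237376) (nat_lit 85884928)) (I.mix (nat_lit 42680320) (nat_lit 95731712)) (I.pos (nat_lit 296304640) (nat_lit 429850624)) (I.mix (nat_lit 165068800) (nat_lit 79593472)) (I.mix (nat_lit 138215424) (nat_lit 96862208)) (I.mix (nat_lit 138297344) (nat_lit 120569856)))
  false (nat_lit 105257397)
def b2_5 : Bx := Bx.mk (St.mk (I.neg (nat_lit 16482304) (nat_lit 127500288)) (I.pos (nat_lit 3768320) (nat_lit 89751552)) (I.mix (nat_lit 79822848) (nat_lit 2211840)) (I.pos (nat_lit 262701056) (nat_lit 334544896)) (I.mix (nat_lit 71139328) (nat_lit 112328704)) (I.mix (nat_lit 83034112) (nat_lit 69451776)) (I.mix (nat_lit 71434240) (nat_lit 70516736)))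
  true (nat_lit 0)
def b2_6 : Bx := Bx.mk (St.mk (I.pos (nat_lit 206635008) (nat_lit 286130176)) (I.mix (nat_lit 19660800) (nat_lit 61718528)) (I.mix (nat_lit 144670720) (nat_lit 25804800)) (I.pos (nat_lit 448299008) (nat_lit 572637184)) (I.mix (nat_lit 73203712) (nat_lit 61112320)) (I.mix (nat_lit 64831488) (nat_lit 57982976)) (I.mix (nat_lit 106954752) (nat_lit 109953024)))
  false (nat_lit 97590938)
def b2_7 : Bx := Bx.mk (St.mk (I.mix (nat_lit 13205504) (nat_lit 25575424)) (I.mix (nat_lit 38633472) (nat_lit 9551872)) (I.neg (nat_lit 44498944) (nat_lit 59244544)) (I.pos (nat_lit 260964352) (nat_lit 273711104)) (I.mix (nat_lit 43532288) (nat_lit 27852800)) (I.mix (nat_lit 24592384) (nat_lit 28393472)) (I.mix (nat_lit 6979584) (nat_lit 10387456)))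
  false (nat_lit 0)
def b2_8 : Bx := Bx.mk (St.mk (I.pos (nat_lit 190824448) (nat_lit 237469696)) (I.pos (nat_lit 7159808) (nat_lit 54558720)) (I.mix (nat_lit 58900480) (nat_lit 17547264)) (I.pos (nat_lit 422346752) (nat_lit 479870976)) (I.mix (nat_lit 83410944) (nat_lit 80183296)) (I.mix (nat_lit 70451200) (nat_lit 63471616)) (I.mix (nat_lit 99516416) (nat_lit 99090432)))
  false (nat_lit 68895620)
def b2_9 : Bx := Bx.mk (St.mk (I.pos (nat_lit 10420224) (nat_lit 35651584)) (I.neg (nat_lit 8847360) (nat_lit 39518208)) (I.neg (nat_lit 42385408) (nat_lit 59113472)) (I.pos (nat_lit 262766592) (nat_lit 275857408)) (I.mix (nat_lit 60243968) (nat_lit 37928960)) (I.mix (nat_lit 38584320) (nat_lit 42123264)) (I.mix (nat_lit 11124736) (nat_lit 15482880)))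
  false (nat_lit 0)
def b2_10 : Bx := Bx.mk (St.mk (I.pos (nat_lit 235716608) (nat_lit 278003712)) (I.mix (nat_lit 33144832) (nat_lit 17924096)) (I.neg (nat_lit 56442880) (nat_lit 171147264)) (I.pos (nat_lit 480231424) (nat_lit 554713088)) (I.mix (nat_lit 75186176) (nat_lit 29622272)) (I.mix (nat_lit 37634048) (nat_lit 53592064)) (I.mix (nat_lit 57720832) (nat_lit 109707264)))
  false (nat_lit 42826341)
def b2_11 : Bx := Bx.mk (St.mk (I.mix (nat_lit 9240576) (nat_lit 19070976)) (I.mix (nat_lit 19496960) (nat_lit 15925248)) (I.neg (nat_lit 44695552) (nat_lit 57327616)) (I.pos (nat_lit 261259264) (nat_lit 270761984)) (I.mix (nat_lit 21987328) (nat_lit 26263552)) (I.mix (nat_lit 18038784) (nat_lit 17367040)) (I.mix (nat_lit 2326528) (nat_lit 7340032)))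
  false (nat_lit 0)
def b2_12 : Bx := Bx.mk (St.mk (I.pos (nat_lit 261652480) (nat_lit 283836416)) (I.neg (nat_lit 1851392) (nat_lit 29638656)) (I.neg (nat_lit 100483072) (nat_lit 171704320)) (I.pos (nat_lit 522436608) (nat_lit 567541760)) (I.mix (nat_lit 47726592) (nat_lit 15073280)) (I.mix (nat_lit 24117248) (nat_lit 28360704)) (I.mix (nat_lit 35078144) (nat_lit 64684032)))
  false (nat_lit 0)
def b2_13 : Bx := Bx.mk (St.mk (I.mix (nat_lit 13221888) (nat_lit 13910016)) (I.mix (nat_lit 16121856) (nat_lit 13746176)) (I.neg (nat_lit 45367296) (nat_lit 57016320)) (I.pos (nat_lit 261423104) (nat_lit 270073856)) (I.mix (nat_lit 16252928) (nat_lit 13647872)) (I.mix (nat_lit 8978432) (nat_lit 10010624)) (I.mix (nat_lit 819200) (nat_lit 5816320)))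
  false (nat_lit 0)
def b2_14 : Bx := Bx.mk (St.mk (I.pos (nat_lit 174653440) (nat_lit 229572608)) (I.pos (nat_lit 9093120) (nat_lit 57065472)) (I.mix (nat_lit 54001664) (nat_lit 28491776)) (I.pos (nat_lit 405127168) (nat_lit 462618624)) (I.mix (nat_lit 88211456) (nat_lit 52592640)) (I.mix (nat_lit 65519616) (nat_lit 51085312)) (I.mix (nat_lit 87031808) (nat_lit 82575360)))
  false (nat_lit 59299820)
def b2_15 : Bx := Bx.mk (St.mk (I.pos (nat_lit 14106624) (nat_lit 43728896)) (I.neg (nat_lit 10665984) (nat_lit 47628288)) (I.neg (nat_lit 42532864) (nat_lit 60276736)) (I.pos (nat_lit 263110656) (nat_lit 279625728)) (I.mix (nat_lit 45629440) (nat_lit 39829504)) (I.mix (nat_lit 33669120) (nat_lit 37978112)) (I.mix (nat_lit 11419648) (nat_lit 15269888)))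
  false (nat_lit 0)
def b2_16 : Bx := Bx.mk (St.mk (I.pos (nat_lit 204931072) (nat_lit 293371904)) (I.mix (nat_lit 31440896) (nat_lit 62504960)) (I.mix (nat_lit 171900928) (nat_lit 26624000)) (I.pos (nat_lit 444416000) (nat_lit 587825152)) (I.mix (nat_lit 88457216) (nat_lit 77561856)) (I.mix (nat_lit 83361792) (nat_lit 65175552)) (I.mix (nat_lit 144654336) (nat_lit 124731392)))
  false (nat_lit 108751717)
def b2_17 : Bx := Bx.mk (St.mk (I.mix (nat_lit 16760832) (nat_lit 26099712)) (I.mix (nat_lit 38748160) (nat_lit 15286272)) (I.neg (nat_lit 44924928) (nat_lit 59359232)) (I.pos (nat_lit 261079040) (nat_lit 273498112)) (I.mix (nat_lit 48513024) (nat_lit 31129600)) (I.mix (nat_lit 23003136) (nat_lit 33030144)) (I.mix (nat_lit 6635520) (nat_lit 9519104)))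
  false (nat_lit 0)
def b2_18 : Bx := Bx.mk (St.mk (I.pos (nat_lit 208355328) (nat_lit 235438080)) (I.pos (nat_lit 23052288) (nat_lit 50757632)) (I.mix (nat_lit 33898496) (nat_lit 7045120)) (I.pos (nat_lit 451575808) (nat_lit 477642752)) (I.mix (nat_lit 37863424) (nat_lit 27967488)) (I.mix (nat_lit 25264128) (nat_lit 18546688)) (I.mix (nat_lit 34668544) (nat_lit 26181632)))
  false (nat_lit 0)
def b2_19 : Bx := Bx.mk (St.mk (I.pos (nat_lit 8650752) (nat_lit 24444928)) (I.neg (nat_lit 14827520) (nat_lit 33161216)) (I.neg (nat_lit 44711936) (nat_lit 58507264)) (I.pos (nat_lit 262586368) (nat_lit 273547264)) (I.mix (nat_lit 30146560) (nat_lit 11911168)) (I.mix (nat_lit 13778944) (nat_lit 18825216)) (I.mix (nat_lit 4374528) (nat_lit 8617984)))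
  false (nat_lit 0)
def b2_20 : Bx := Bx.mk (St.mk (I.pos (nat_lit 234618880) (nat_lit 276824064)) (I.mix (nat_lit 31932416) (nat_lit 10387456)) (I.neg (nat_lit 70565888) (nat_lit 167542784)) (I.pos (nat_lit 476479488) (nat_lit 552779776)) (I.mix (nat_lit 85983232) (nat_lit 32735232)) (I.mix (nat_lit 46678016) (nat_lit 63094784)) (I.mix (nat_lit 65912832) (nat_lit 126533632)))
  false (nat_lit 39472382)
def b2_21 : Bx := Bx.mk (St.mk (I.mix (nat_lit 9060352) (nat_lit 23560192)) (I.mix (nat_lit 25018368) (nat_lit 15450112)) (I.neg (nat_lit 44302336) (nat_lit 57737216)) (I.pos (nat_lit 261160960) (nat_lit 271663104)) (I.mix (nat_lit 27803648) (nat_lit 31621120)) (I.mix (nat_lit 22020096) (nat_lit 21266432)) (I.mix (nat_lit 3784704) (nat_lit 8437760)))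
  false (nat_lit 0)
def b2_22 : Bx := Bx.mk (St.mk (I.pos (nat_lit 158318592) (nat_lit 217563136)) (I.pos (nat_lit 23953408) (nat_lit 89849856)) (I.mix (nat_lit 13156352) (nat_lit 84590592)) (I.pos (nat_lit 394739712) (nat_lit 453705728)) (I.mix (nat_lit 122667008) (nat_lit 97894400)) (I.mix (nat_lit 98713600) (nat_lit 76169216)) (I.mix (nat_lit 147849216) (nat_lit 103333888)))
  false (nat_lit 110403815)
def b2_23 : Bx := Bx.mk (St.mk (I.pos (nat_lit 13598720) (nat_lit 46202880)) (I.neg (nat_lit 21708800) (nat_lit 74629120)) (I.neg (nat_lit 43319296) (nat_lit 69992448)) (I.pos (nat_lit 264880128) (nat_lit 286457856)) (I.mix (nat_lit 109772800) (nat_lit 48496640)) (I.mix (nat_lit 48513024) (nat_lit 90980352)) (I.mix (nat_lit 31571968) (nat_lit 28753920)))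
  false (nat_lit 0)
def t2 : BTr := (BTr.n (BTr.n (BTr.n (BTr.n (BTr.b b2_0) (BTr.n (BTr.b b2_1) (BTr.b b2_2))) (BTr.n (BTr.b b2_3) (BTr.n (BTr.b b2_4) (BTr.b b2_5)))) (BTr.n (BTr.n (BTr.b b2_6) (BTr.n (BTr.b b2_7) (BTr.b b2_8))) (BTr.n (BTr.b b2_9) (BTr.n (BTr.b b2_10) (BTr.b b2_11))))) (BTr.n (BTr.n (BTr.n (BTr.b b2_12) (BTr.n (BTr.b b2_13) (BTr.b b2_14))) (BTr.n (BTr.b b2_15) (BTr.n (BTr.b b2_16) (BTr.b b2_17)))) (BTr.n (BTr.n (BTr.b b2_18) (BTr.n (BTr.b b2_19) (BTr.b b2_20))) (BTr.n (BTr.b b2_21) (BTr.n (BTr.b b2_22) (BTr.b b2_23))))))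
namespace T2
def l0 : Tr := Tr.L (Pth.l (Pth.l (Pth.l (Pth.l Pth.z))))
def l1 : Tr := Tr.L (Pth.l (Pth.l (Pth.l (Pth.r (Pth.l Pth.z)))))
def l2 : Tr := Tr.L (Pth.l (Pth.l (Pth.l (Pth.r (Pth.r Pth.z)))))
def l3 : Tr := Tr.L (Pth.l (Pth.l (Pth.r (Pth.l Pth.z))))
def l4 : Tr := Tr.L (Pth.l (Pth.l (Pth.r (Pth.r (Pth.l Pth.z)))))
def l5 : Tr := Tr.L (Pth.l (Pth.l (Pth.r (Pth.r (Pth.r Pth.z)))))
def l6 : Tr := Tr.L (Pth.l (Pth.r (Pth.l (Pth.l Pth.z))))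
def l7 : Tr := Tr.L (Pth.l (Pth.r (Pth.l (Pth.r (Pth.l Pth.z)))))
def l8 : Tr := Tr.L (Pth.l (Pth.r (Pth.l (Pth.r (Pth.r Pth.z)))))
def l9 : Tr := Tr.L (Pth.l (Pth.r (Pth.r (Pth.l Pth.z))))
def l10 : Tr := Tr.L (Pth.l (Pth.r (Pth.r (Pth.r (Pth.l Pth.z)))))
def l11 : Tr := Tr.L (Pth.l (Pth.r (Pth.r (Pth.r (Pth.r Pth.z)))))
def l12 : Tr := Tr.L (Pth.r (Pth.l (Pth.l (Pth.l Pth.z))))
def l13 : Tr := Tr.L (Pth.r (Pth.l (Pth.l (Pth.r (Pth.l Pth.z)))))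
def l14 : Tr := Tr.L (Pth.r (Pth.l (Pth.l (Pth.r (Pth.r Pth.z)))))
def l15 : Tr := Tr.L (Pth.r (Pth.l (Pth.r (Pth.l Pth.z))))
def l16 : Tr := Tr.L (Pth.r (Pth.l (Pth.r (Pth.r (Pth.l Pth.z)))))
def l17 : Tr := Tr.L (Pth.r (Pth.l (Pth.r (Pth.r (Pth.r Pth.z)))))
def l18 : Tr := Tr.L (Pth.r (Pth.r (Pth.l (Pth.l Pth.z))))
def l19 : Tr := Tr.L (Pth.r (Pth.r (Pth.l (Pth.r (Pth.l Pth.z)))))
def l20 : Tr := Tr.L (Pth.r (Pth.r (Pth.l (Pth.r (Pth.r Pth.z)))))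
def l21 : Tr := Tr.L (Pth.r (Pth.r (Pth.r (Pth.l Pth.z))))
def l22 : Tr := Tr.L (Pth.r (Pth.r (Pth.r (Pth.r (Pth.l Pth.z)))))
def l23 : Tr := Tr.L (Pth.r (Pth.r (Pth.r (Pth.r (Pth.r Pth.z)))))
end T2
def b3_0 : Bx := Bx.mk (St.mk (I.pos (nat_lit 156483584) (nat_lit 233029632)) (I.mix (nat_lit 2834432) (nat_lit 47595520)) (I.mix (nat_lit 6373376) (nat_lit 110166016)) (I.pos (nat_lit 110002176) (nat_lit 225067008)) (I.mix (nat_lit 129204224) (nat_lit 80248832)) (I.mix (nat_lit 104284160) (nat_lit 90292224)) (I.mix (nat_lit 144343040) (nat_lit 116572160)))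
  false (nat_lit 48035171)
def b3_1 : Bx := Bx.mk (St.mk (I.pos (nat_lit 116310016) (nat_lit 174637056)) (I.neg (nat_lit 4358144) (nat_lit 54378496)) (I.mix (nat_lit 37830656) (nat_lit 19660800)) (I.pos (nat_lit 85327872) (nat_lit 145031168)) (I.mix (nat_lit 66125824) (nat_lit 52379648)) (I.mix (nat_lit 41648128) (nat_lit 55836672)) (I.mix (nat_lit 39190528) (nat_lit 57114624)))
  false (nat_lit 32595394)
def b3_2 : Bx := Bx.mk (St.mk (I.mix (nat_lit 16941056) (nat_lit 104759296)) (I.mix (nat_lit 27672576) (nat_lit 3440640)) (I.mix (nat_lit 9732096) (nat_lit 13385728)) (I.pos (nat_lit 14319616) (nat_lit 74514432)) (I.mix (nat_lit 30097408) (nat_lit 34881536)) (I.mix (nat_lit 20791296) (nat_lit 29556736)) (I.mix (nat_lit 10846208) (nat_lit 17940480)))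
  false (nat_lit 0)
def b3_3 : Bx := Bx.mk (St.mk (I.pos (nat_lit 161497088) (nat_lit 207159296)) (I.mix (nat_lit 15450112) (nat_lit 45137920)) (I.pos (nat_lit 15089664) (nat_lit 98975744)) (I.pos (nat_lit 117473280) (nat_lit 191414272)) (I.mix (nat_lit 136970240) (nat_lit 48873472)) (I.mix (nat_lit 124059648) (nat_lit 65568768)) (I.mix (nat_lit 148471808) (nat_lit 57409536)))
  false (nat_lit 77224261)
def b3_4 : Bx := Bx.mk (St.mk (I.mix (nat_lit 26427392) (nat_lit 123830272)) (I.mix (nat_lit 14106624) (nat_lit 31358976)) (I.mix (nat_lit 1179648) (nat_lit 36487168)) (I.pos (nat_lit 13549568) (nat_lit 89554944)) (I.mix (nat_lit 59965440) (nat_lit 36159488)) (I.mix (nat_lit 56918016) (nat_lit 29769728)) (I.mix (nat_lit 37289984) (nat_lit 17235968)))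
  false (nat_lit 104975)
def b3_5 : Bx := Bx.mk (St.mk (I.pos (nat_lit 162594816) (nat_lit 203931648)) (I.mix (nat_lit 40435712) (nat_lit 3768320)) (I.mix (nat_lit 15613952) (nat_lit 42139648)) (I.pos (nat_lit 120176640) (nat_lit 186466304)) (I.mix (nat_lit 56901632) (nat_lit 71925760)) (I.mix (nat_lit 65503232) (nat_lit 62619648)) (I.mix (nat_lit 61276160) (nat_lit 65110016)))
  false (nat_lit 95759048)
def b3_6 : Bx := Bx.mk (St.mk (I.pos (nat_lit 160284672) (nat_lit 204750848)) (I.mix (nat_lit 27066368) (nat_lit 23085056)) (I.pos (nat_lit 4358144) (nat_lit 68927488)) (I.pos (nat_lit 116965376) (nat_lit 185843712)) (I.mix (nat_lit 125779968) (nat_lit 79429632)) (I.mix (nat_lit 129449984) (nat_lit 71663616)) (I.mix (nat_lit 145555456) (nat_lit 67158016)))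
  false (nat_lit 82467844)
def b3_7 : Bx := Bx.mk (St.mk (I.mix (nat_lit 31539200) (nat_lit 106921984)) (I.mix (nat_lit 16793600) (nat_lit 5373952)) (I.mix (nat_lit 1032192) (nat_lit 15155200)) (I.pos (nat_lit 14647296) (nat_lit 76218368)) (I.mix (nat_lit 25853952) (nat_lit 18792448)) (I.mix (nat_lit 17629184) (nat_lit 18284544)) (I.mix (nat_lit 11386880) (nat_lit 9355264)))
  false (nat_lit 0)
def b3_8 : Bx := Bx.mk (St.mk (I.pos (nat_lit 142344192) (nat_lit 178946048)) (I.neg (nat_lit 1622016) (nat_lit 36470784)) (I.mix (nat_lit 12943360) (nat_lit 26836992)) (I.pos (nat_lit 102088704) (nat_lit 154075136)) (I.mix (nat_lit 60833792) (nat_lit 46022656)) (I.mix (nat_lit 34717696) (nat_lit 47218688)) (I.mix (nat_lit 40321024) (nat_lit 42827776)))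
  false (nat_lit 4981162)
def b3_9 : Bx := Bx.mk (St.mk (I.pos (nat_lit 156909568) (nat_lit 190021632)) (I.neg (nat_lit 9224192) (nat_lit 37715968)) (I.mix (nat_lit 14614528) (nat_lit 19234816)) (I.pos (nat_lit 115867648) (nat_lit 171261952)) (I.mix (nat_lit 42336256) (nat_lit 38813696)) (I.mix (nat_lit 39288832) (nat_lit 30113792)) (I.mix (nat_lit 39092224) (nat_lit 31637504)))
  false (nat_lit 5030884)
def b3_10 : Bx := Bx.mk (St.mk (I.mix (nat_lit 24264704) (nat_lit 139247616)) (I.mix (nat_lit 8994816) (nat_lit 24576000)) (I.mix (nat_lit 835584) (nat_lit 31326208)) (I.pos (nat_lit 12140544) (nat_lit 104235008)) (I.mix (nat_lit 46628864) (nat_lit 35831808)) (I.mix (nat_lit 41123840) (nat_lit 30932992)) (I.mix (nat_lit 32325632) (nat_lit 21463040)))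
  false (nat_lit 0)
def b3_11 : Bx := Bx.mk (St.mk (I.pos (nat_lit 103890944) (nat_lit 157040640)) (I.mix (nat_lit 50888704) (nat_lit 12140544)) (I.mix (nat_lit 34897920) (nat_lit 22806528)) (I.pos (nat_lit 59981824) (nat_lit 132005888)) (I.mix (nat_lit 75743232) (nat_lit 40648704)) (I.mix (nat_lit 39632896) (nat_lit 69697536)) (I.mix (nat_lit 30490624) (nat_lit 54673408)))
  false (nat_lit 30564409)
def b3_12 : Bx := Bx.mk (St.mk (I.mix (nat_lit 26247168) (nat_lit 99008512)) (I.mix (nat_lit 28082176) (nat_lit 6144000)) (I.mix (nat_lit 8863744) (nat_lit 10108928)) (I.pos (nat_lit 14663680) (nat_lit 70844416)) (I.mix (nat_lit 32849920) (nat_lit 19349504)) (I.mix (nat_lit 20742144) (nat_lit 28360704)) (I.mix (nat_lit 10256384) (nat_lit 12992512)))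
  false (nat_lit 0)
def b3_13 : Bx := Bx.mk (St.mk (I.pos (nat_lit 189628416) (nat_lit 239239168)) (I.mix (nat_lit 2686976) (nat_lit 27426816)) (I.pos (nat_lit 20905984) (nat_lit 78872576)) (I.pos (nat_lit 174374912) (nat_lit 239403008)) (I.mix (nat_lit 86130688) (nat_lit 34373632)) (I.mix (nat_lit 57081856) (nat_lit 38912000)) (I.mix (nat_lit 89554944) (nat_lit 51478528)))
  false (nat_lit 28167975)
def b3_14 : Bx := Bx.mk (St.mk (I.pos (nat_lit 218873856) (nat_lit 272154624)) (I.mix (nat_lit 21495808) (nat_lit 22593536)) (I.mix (nat_lit 8945664) (nat_lit 73367552)) (I.pos (nat_lit 214204416) (nat_lit 316096512)) (I.mix (nat_lit 64782336) (nat_lit 21331968)) (I.mix (nat_lit 34209792) (nat_lit 41009152)) (I.mix (nat_lit 60424192) (nat_lit 63684608)))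
  false (nat_lit 8483100)
def b3_15 : Bx := Bx.mk (St.mk (I.pos (nat_lit 176144384) (nat_lit 232718336)) (I.pos (nat_lit 8552448) (nat_lit 46186496)) (I.pos (nat_lit 39387136) (nat_lit 108773376)) (I.pos (nat_lit 160808960) (nat_lit 223723520)) (I.mix (nat_lit 104480768) (nat_lit 87801856)) (I.mix (nat_lit 102858752) (nat_lit 75218944)) (I.mix (nat_lit 153845760) (nat_lit 98369536)))
  false (nat_lit 55613534)
def b3_16 : Bx := Bx.mk (St.mk (I.pos (nat_lit 213909504) (nat_lit 286801920)) (I.mix (nat_lit 21512192) (nat_lit 35864576)) (I.mix (nat_lit 7536640) (nat_lit 96878592)) (I.pos (nat_lit 203603968) (nat_lit 346734592)) (I.mix (nat_lit 67387392) (nat_lit 70746112)) (I.mix (nat_lit 74547200) (nat_lit 55689216)) (I.mix (nat_lit 123256832) (nat_lit 92209152)))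
  false (nat_lit 90080782)
def b3_17 : Bx := Bx.mk (St.mk (I.pos (nat_lit 187236352) (nat_lit 233373696)) (I.pos (nat_lit 5013504) (nat_lit 29868032)) (I.pos (nat_lit 33423360) (nat_lit 82722816)) (I.pos (nat_lit 174080000) (nat_lit 224362496)) (I.mix (nat_lit 83034112) (nat_lit 24346624)) (I.mix (nat_lit 52002816) (nat_lit 28884992)) (I.mix (nat_lit 82542592) (nat_lit 36077568)))
  false (nat_lit 0)
def b3_18 : Bx := Bx.mk (St.mk (I.pos (nat_lit 254902272) (nat_lit 282329088)) (I.mix (nat_lit 26345472) (nat_lit 4931584)) (I.mix (nat_lit 17563648) (nat_lit 43008000)) (I.pos (nat_lit 270614528) (nat_lit 337215488)) (I.mix (nat_lit 47022080) (nat_lit 26296320)) (I.mix (nat_lit 28803072) (nat_lit 31834112)) (I.mix (nat_lit 52199424) (nat_lit 48529408)))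
  false (nat_lit 9018806)
def b3_19 : Bx := Bx.mk (St.mk (I.pos (nat_lit 205733888) (nat_lit 247070720)) (I.pos (nat_lit 8617984) (nat_lit 34078720)) (I.pos (nat_lit 40386560) (nat_lit 93208576)) (I.pos (nat_lit 195887104) (nat_lit 257654784)) (I.mix (nat_lit 72335360) (nat_lit 34095104)) (I.mix (nat_lit 50118656) (nat_lit 33030144)) (I.mix (nat_lit 84590592) (nat_lit 49004544)))
  false (nat_lit 17557925)
def b3_20 : Bx := Bx.mk (St.mk (I.pos (nat_lit 194560000) (nat_lit 243597312)) (I.mix (nat_lit 4227072) (nat_lit 30834688)) (I.pos (nat_lit 19021824) (nat_lit 86933504)) (I.pos (nat_lit 181141504) (nat_lit 249593856)) (I.mix (nat_lit 84410368) (nat_lit 47939584)) (I.mix (nat_lit 60227584) (nat_lit 45776896)) (I.mix (nat_lit 96698368) (nat_lit 69943296)))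
  false (nat_lit 59123857)
def b3_21 : Bx := Bx.mk (St.mk (I.pos (nat_lit 250281984) (nat_lit 271056896)) (I.mix (nat_lit 19431424) (nat_lit 655360)) (I.mix (nat_lit 5881856) (nat_lit 33931264)) (I.pos (nat_lit 263749632) (nat_lit 314572800)) (I.mix (nat_lit 42926080) (nat_lit 14434304)) (I.mix (nat_lit 22904832) (nat_lit 25919488)) (I.mix (nat_lit 41975808) (nat_lit 38993920)))
  false (nat_lit 0)
def t3 : BTr := (BTr.n (BTr.n (BTr.n (BTr.n (BTr.b b3_0) (BTr.b b3_1)) (BTr.n (BTr.b b3_2) (BTr.n (BTr.b b3_3) (BTr.b b3_4)))) (BTr.n (BTr.n (BTr.b b3_5) (BTr.n (BTr.b b3_6) (BTr.b b3_7))) (BTr.n (BTr.b b3_8) (BTr.n (BTr.b b3_9) (BTr.b b3_10))))) (BTr.n (BTr.n (BTr.n (BTr.b b3_11) (BTr.b b3_12)) (BTr.n (BTr.b b3_13) (BTr.n (BTr.b b3_14) (BTr.b b3_15)))) (BTr.n (BTr.n (BTr.b b3_16) (BTr.n (BTr.b b3_17) (BTr.b b3_18))) (BTr.n (BTr.b b3_19) (BTr.n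 (BTr.b b3_20) (BTr.b b3_21))))))
namespace T3
def l0 : Tr := Tr.L (Pth.l (Pth.l (Pth.l (Pth.l Pth.z))))
def l1 : Tr := Tr.L (Pth.l (Pth.l (Pth.l (Pth.r Pth.z))))
def l2 : Tr := Tr.L (Pth.l (Pth.l (Pth.r (Pth.l Pth.z))))
def l3 : Tr := Tr.L (Pth.l (Pth.l (Pth.r (Pth.r (Pth.l Pth.z)))))
def l4 : Tr := Tr.L (Pth.l (Pth.l (Pth.r (Pth.r (Pth.r Pth.z)))))
def l5 : Tr := Tr.L (Pth.l (Pth.r (Pth.l (Pth.l Pth.z))))
def l6 : Tr := Tr.L (Pth.l (Pth.r (Pth.l (Pth.r (Pth.l Pth.z)))))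
def l7 : Tr := Tr.L (Pth.l (Pth.r (Pth.l (Pth.r (Pth.r Pth.z)))))
def l8 : Tr := Tr.L (Pth.l (Pth.r (Pth.r (Pth.l Pth.z))))
def l9 : Tr := Tr.L (Pth.l (Pth.r (Pth.r (Pth.r (Pth.l Pth.z)))))
def l10 : Tr := Tr.L (Pth.l (Pth.r (Pth.r (Pth.r (Pth.r Pth.z)))))
def l11 : Tr := Tr.L (Pth.r (Pth.l (Pth.l (Pth.l Pth.z))))
def l12 : Tr := Tr.L (Pth.r (Pth.l (Pth.l (Pth.r Pth.z))))
def l13 : Tr := Tr.L (Pth.r (Pth.l (Pth.r (Pth.l Pth.z))))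
def l14 : Tr := Tr.L (Pth.r (Pth.l (Pth.r (Pth.r (Pth.l Pth.z)))))
def l15 : Tr := Tr.L (Pth.r (Pth.l (Pth.r (Pth.r (Pth.r Pth.z)))))
def l16 : Tr := Tr.L (Pth.r (Pth.r (Pth.l (Pth.l Pth.z))))
def l17 : Tr := Tr.L (Pth.r (Pth.r (Pth.l (Pth.r (Pth.l Pth.z)))))
def l18 : Tr := Tr.L (Pth.r (Pth.r (Pth.l (Pth.r (Pth.r Pth.z)))))
def l19 : Tr := Tr.L (Pth.r (Pth.r (Pth.r (Pth.l Pth.z))))
def l20 : Tr := Tr.L (Pth.r (Pth.r (Pth.r (Pth.r (Pth.l Pth.z)))))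
def l21 : Tr := Tr.L (Pth.r (Pth.r (Pth.r (Pth.r (Pth.r Pth.z)))))
end T3
def b4_0 : Bx := Bx.mk (St.mk (I.pos (nat_lit 138067968) (nat_lit 219627520)) (I.mix (nat_lit 5390336) (nat_lit 90505216)) (I.mix (nat_lit 6356992) (nat_lit 107560960)) (I.pos (nat_lit 361889792) (nat_lit 453918720)) (I.mix (nat_lit 150618112) (nat_lit 90750976)) (I.mix (nat_lit 87654400) (nat_lit 78839808)) (I.mix (nat_lit 109166592) (nat_lit 105791488)))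
  false (nat_lit 198377935)
def b4_1 : Bx := Bx.mk (St.mk (I.pos (nat_lit 21577728) (nat_lit 127139840)) (I.neg (nat_lit 1671168) (nat_lit 91389952)) (I.mix (nat_lit 68370432) (nat_lit 19120128)) (I.pos (nat_lit 266158080) (nat_lit 333201408)) (I.mix (nat_lit 103809024) (nat_lit 76316672)) (I.mix (nat_lit 69353472) (nat_lit 81707008)) (I.mix (nat_lit 68665344) (nat_lit 68304896)))
  false (nat_lit 82060243)
def b4_2 : Bx := Bx.mk (St.mk (I.pos (nat_lit 92061696) (nat_lit 188006400)) (I.mix (nat_lit 45809664) (nat_lit 84279296)) (I.mix (nat_lit 30441472) (nat_lit 110329856)) (I.pos (nat_lit 298844160) (nat_lit 421281792)) (I.mix (nat_lit 169787392) (nat_lit 79773696)) (I.mix (nat_lit 146964480) (nat_lit 94208000)) (I.mix (nat_lit 141131776) (nat_lit 118308864)))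
  false (nat_lit 124894954)
def b4_3 : Bx := Bx.mk (St.mk (I.neg (nat_lit 21250048) (nat_lit 132546560)) (I.pos (nat_lit 1310720) (nat_lit 91422720)) (I.mix (nat_lit 68419584) (nat_lit 19922944)) (I.pos (nat_lit 265895936) (nat_lit 337739776)) (I.mix (nat_lit 76333056) (nat_lit 103809024)) (I.mix (nat_lit 81707008) (nat_lit 69353472)) (I.mix (nat_lit 68681728) (nat_lit 68304896)))
  true (nat_lit 0)
def b4_4 : Bx := Bx.mk (St.mk (I.mix (nat_lit 53526528) (nat_lit 14172160)) (I.mix (nat_lit 15810560) (nat_lit 87867392)) (I.neg (nat_lit 30834688) (nat_lit 60162048)) (I.pos (nat_lit 261767168) (nat_lit 293421056)) (I.mix (nat_lit 50626560) (nat_lit 106610688)) (I.mix (nat_lit 87392256) (nat_lit 64405504)) (I.mix (nat_lit 41172992) (nat_lit 26443776)))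
  true (nat_lit 0)
def b4_5 : Bx := Bx.mk (St.mk (I.pos (nat_lit 14647296) (nat_lit 51871744)) (I.neg (nat_lit 32784384) (nat_lit 85770240)) (I.neg (nat_lit 36241408) (nat_lit 59850752)) (I.pos (nat_lit 267354112) (nat_lit 293208064)) (I.mix (nat_lit 107937792) (nat_lit 38649856)) (I.mix (nat_lit 65961984) (nat_lit 79708160)) (I.mix (nat_lit 41779200) (nat_lit 29278208)))
  false (nat_lit 36371832)
def b4_6 : Bx := Bx.mk (St.mk (I.pos (nat_lit 195510272) (nat_lit 286277632)) (I.mix (nat_lit 16793600) (nat_lit 62947328)) (I.mix (nat_lit 116326400) (nat_lit 51593216)) (I.pos (nat_lit 435814400) (nat_lit 570802176)) (I.mix (nat_lit 71155712) (nat_lit 57786368)) (I.mix (nat_lit 56147968) (nat_lit 46940160)) (I.mix (nat_lit 92323840) (nat_lit 84344832)))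
  false (nat_lit 151052910)
def b4_7 : Bx := Bx.mk (St.mk (I.mix (nat_lit 11304960) (nat_lit 29802496)) (I.mix (nat_lit 41795584) (nat_lit 7798784)) (I.neg (nat_lit 33783808) (nat_lit 48054272)) (I.pos (nat_lit 262668288) (nat_lit 275152896)) (I.mix (nat_lit 39583744) (nat_lit 22085632)) (I.mix (nat_lit 22069248) (nat_lit 25788416)) (I.mix (nat_lit 7127040) (nat_lit 8208384)))
  false (nat_lit 0)
def b4_8 : Bx := Bx.mk (St.mk (I.pos (nat_lit 185843712) (nat_lit 231063552)) (I.pos (nat_lit 11616256) (nat_lit 56655872)) (I.mix (nat_lit 26951680) (nat_lit 43155456)) (I.pos (nat_lit 416579584) (nat_lit 467599360)) (I.mix (nat_lit 86638592) (nat_lit 79937536)) (I.mix (nat_lit 66912256) (nat_lit 66387968)) (I.mix (nat_lit 95109120) (nat_lit 98992128)))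
  false (nat_lit 128231945)
def b4_9 : Bx := Bx.mk (St.mk (I.pos (nat_lit 15040512) (nat_lit 38944768)) (I.neg (nat_lit 13238272) (nat_lit 42549248)) (I.neg (nat_lit 31539200) (nat_lit 47595520)) (I.pos (nat_lit 265535488) (nat_lit 277331968)) (I.mix (nat_lit 60227584) (nat_lit 38764544)) (I.mix (nat_lit 41779200) (nat_lit 41189376)) (I.mix (nat_lit 12435456) (nat_lit 13484032)))
  false (nat_lit 0)
def b4_10 : Bx := Bx.mk (St.mk (I.pos (nat_lit 240730112) (nat_lit 276922368)) (I.mix (nat_lit 26820608) (nat_lit 15794176)) (I.neg (nat_lit 40255488) (nat_lit 133988352)) (I.pos (nat_lit 488062976) (nat_lit 551878656)) (I.mix (nat_lit 60293120) (nat_lit 29605888)) (I.mix (nat_lit 36356096) (nat_lit 45318144)) (I.mix (nat_lit 51642368) (nat_lit 86458368)))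
  false (nat_lit 45014300)
def b4_11 : Bx := Bx.mk (St.mk (I.mix (nat_lit 7290880) (nat_lit 24526848)) (I.mix (nat_lit 25739264) (nat_lit 12288000)) (I.neg (nat_lit 33603584) (nat_lit 46104576)) (I.pos (nat_lit 262995968) (nat_lit 272154624)) (I.mix (nat_lit 23707648) (nat_lit 21168128)) (I.mix (nat_lit 14417920) (nat_lit 14974976)) (I.mix (nat_lit 3375104) (nat_lit 5947392)))
  false (nat_lit 0)
def b4_12 : Bx := Bx.mk (St.mk (I.pos (nat_lit 262307840) (nat_lit 276971520)) (I.neg (nat_lit 1114112) (nat_lit 13942784)) (I.neg (nat_lit 76087296) (nat_lit 116670464)) (I.pos (nat_lit 524238848) (nat_lit 552402944)) (I.mix (nat_lit 15712256) (nat_lit 3194880)) (I.mix (nat_lit 6422528) (nat_lit 5586944)) (I.mix (nat_lit 7634944) (nat_lit 13680640)))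
  false (nat_lit 0)
def b4_13 : Bx := Bx.mk (St.mk (I.mix (nat_lit 6144000) (nat_lit 2752512)) (I.mix (nat_lit 2686976) (nat_lit 6782976)) (I.neg (nat_lit 34881536) (nat_lit 45367296)) (I.pos (nat_lit 263258112) (nat_lit 269680640)) (I.mix (nat_lit 3489792) (nat_lit 3719168)) (I.mix (nat_lit 1818624) (nat_lit 2736128)) (I.mix (nat_lit 720896) (nat_lit 3178496)))
  false (nat_lit 0)
def b4_14 : Bx := Bx.mk (St.mk (I.pos (nat_lit 176783360) (nat_lit 226082816)) (I.pos (nat_lit 10731520) (nat_lit 51183616)) (I.mix (nat_lit 28786688) (nat_lit 36241408)) (I.pos (nat_lit 405078016) (nat_lit 454410240)) (I.mix (nat_lit 84656128) (nat_lit 49184768)) (I.mix (nat_lit 64716800) (nat_lit 46792704)) (I.mix (nat_lit 85835776) (nat_lit 73039872)))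
  false (nat_lit 95369348)
def b4_15 : Bx := Bx.mk (St.mk (I.pos (nat_lit 17186816) (nat_lit 48087040)) (I.neg (nat_lit 12926976) (nat_lit 51085312)) (I.neg (nat_lit 31506432) (nat_lit 48578560)) (I.pos (nat_lit 265568256) (nat_lit 281739264)) (I.mix (nat_lit 43974656) (nat_lit 40550400)) (I.mix (nat_lit 32866304) (nat_lit 37224448)) (I.mix (nat_lit 11550720) (nat_lit 13615104)))
  false (nat_lit 0)
def b4_16 : Bx := Bx.mk (St.mk (I.pos (nat_lit 207650816) (nat_lit 277987328)) (I.mix (nat_lit 26738688) (nat_lit 46383104)) (I.mix (nat_lit 133398528) (nat_lit 20152320)) (I.pos (nat_lit 444579840) (nat_lit 552566784)) (I.mix (nat_lit 70352896) (nat_lit 29835264)) (I.mix (nat_lit 42401792) (nat_lit 51658752)) (I.mix (nat_lit 60784640) (nat_lit 98598912)))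
  false (nat_lit 143174501)
def b4_17 : Bx := Bx.mk (St.mk (I.mix (nat_lit 7454720) (nat_lit 28377088)) (I.mix (nat_lit 30490624) (nat_lit 12419072)) (I.neg (nat_lit 33439744) (nat_lit 46465024)) (I.pos (nat_lit 262897664) (nat_lit 273203200)) (I.mix (nat_lit 28033024) (nat_lit 27213824)) (I.mix (nat_lit 18956288) (nat_lit 18956288)) (I.mix (nat_lit 4472832) (nat_lit 6438912)))
  false (nat_lit 0)
def b4_18 : Bx := Bx.mk (St.mk (I.pos (nat_lit 153927680) (nat_lit 207273984)) (I.pos (nat_lit 32948224) (nat_lit 86441984)) (I.pos (nat_lit 20496384) (nat_lit 97353728)) (I.pos (nat_lit 385859584) (nat_lit 441909248)) (I.mix (nat_lit 126910464) (nat_lit 92471296)) (I.mix (nat_lit 98992128) (nat_lit 72368128)) (I.mix (nat_lit 142491648) (nat_lit 97632256)))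
  false (nat_lit 123126320)
def b4_19 : Bx := Bx.mk (St.mk (I.pos (nat_lit 18022400) (nat_lit 50774016)) (I.neg (nat_lit 22855680) (nat_lit 74596352)) (I.neg (nat_lit 31997952) (nat_lit 57769984)) (I.pos (nat_lit 267698176) (nat_lit 287784960)) (I.mix (nat_lit 102678528) (nat_lit 50626560)) (I.mix (nat_lit 47415296) (nat_lit 87392256)) (I.mix (nat_lit 29802496) (nat_lit 26443776)))
  false (nat_lit 16126043)
def b4_20 : Bx := Bx.mk (St.mk (I.pos (nat_lit 197279744) (nat_lit 291618816)) (I.mix (nat_lit 25919488) (nat_lit 64749568)) (I.mix (nat_lit 135266304) (nat_lit 53870592)) (I.pos (nat_lit 433274880) (nat_lit 581550080)) (I.mix (nat_lit 75005952) (nat_lit 77365248)) (I.mix (nat_lit 77529088) (nat_lit 55197696)) (I.mix (nat_lit 134496256) (nat_lit 98615296)))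
  false (nat_lit 175073264)
def b4_21 : Bx := Bx.mk (St.mk (I.mix (nat_lit 13893632) (nat_lit 30720000)) (I.mix (nat_lit 42352640) (nat_lit 12189696)) (I.neg (nat_lit 33685504) (nat_lit 48267264)) (I.pos (nat_lit 262668288) (nat_lit 274972672)) (I.mix (nat_lit 46170112) (nat_lit 28262400)) (I.mix (nat_lit 21463040) (nat_lit 31637504)) (I.mix (nat_lit 7290880) (nat_lit 8044544)))
  false (nat_lit 0)
def b4_22 : Bx := Bx.mk (St.mk (I.pos (nat_lit 201506816) (nat_lit 230965248)) (I.pos (nat_lit 24625152) (nat_lit 51740672)) (I.mix (nat_lit 8749056) (nat_lit 31899648)) (I.pos (nat_lit 440827904) (nat_lit 467910656)) (I.mix (nat_lit 38273024) (nat_lit 19202048)) (I.mix (nat_lit 22790144) (nat_lit 14516224)) (I.mix (nat_lit 28917760) (nat_lit 20709376)))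
  false (nat_lit 36621029)
def b4_23 : Bx := Bx.mk (St.mk (I.pos (nat_lit 15450112) (nat_lit 28295168)) (I.neg (nat_lit 20578304) (nat_lit 35405824)) (I.neg (nat_lit 34160640) (nat_lit 46956544)) (I.pos (nat_lit 265584640) (nat_lit 274939904)) (I.mix (nat_lit 22675456) (nat_lit 7159808)) (I.mix (nat_lit 9125888) (nat_lit 13369344)) (I.mix (nat_lit 4030464) (nat_lit 5767168)))
  false (nat_lit 0)
def t4 : BTr := (BTr.n (BTr.n (BTr.n (BTr.n (BTr.b b4_0) (BTr.n (BTr.b b4_1) (BTr.b b4_2))) (BTr.n (BTr.b b4_3) (BTr.n (BTr.b b4_4) (BTr.b b4_5)))) (BTr.n (BTr.n (BTr.b b4_6) (BTr.n (BTr.b b4_7) (BTr.b b4_8))) (BTr.n (BTr.b b4_9) (BTr.n (BTr.b b4_10) (BTr.b b4_11))))) (BTr.n (BTr.n (BTr.n (BTr.b b4_12) (BTr.n (BTr.b b4_13) (BTr.b b4_14))) (BTr.n (BTr.b b4_15) (BTr.n (BTr.b b4_16) (BTr.b b4_17)))) (BTr.n (BTr.n (BTr.b b4_18) (BTr.n (BTr.b b4_19)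 (BTr.b b4_20))) (BTr.n (BTr.b b4_21) (BTr.n (BTr.b b4_22) (BTr.b b4_23))))))
namespace T4
def l0 : Tr := Tr.L (Pth.l (Pth.l (Pth.l (Pth.l Pth.z))))
def l1 : Tr := Tr.L (Pth.l (Pth.l (Pth.l (Pth.r (Pth.l Pth.z)))))
def l2 : Tr := Tr.L (Pth.l (Pth.l (Pth.l (Pth.r (Pth.r Pth.z)))))
def l3 : Tr := Tr.L (Pth.l (Pth.l (Pth.r (Pth.l Pth.z))))
def l4 : Tr := Tr.L (Pth.l (Pth.l (Pth.r (Pth.r (Pth.l Pth.z)))))
def l5 : Tr := Tr.L (Pth.l (Pth.l (Pth.r (Pth.r (Pth.r Pth.z)))))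
def l6 : Tr := Tr.L (Pth.l (Pth.r (Pth.l (Pth.l Pth.z))))
def l7 : Tr := Tr.L (Pth.l (Pth.r (Pth.l (Pth.r (Pth.l Pth.z)))))
def l8 : Tr := Tr.L (Pth.l (Pth.r (Pth.l (Pth.r (Pth.r Pth.z)))))
def l9 : Tr := Tr.L (Pth.l (Pth.r (Pth.r (Pth.l Pth.z))))
def l10 : Tr := Tr.L (Pth.l (Pth.r (Pth.r (Pth.r (Pth.l Pth.z)))))
def l11 : Tr := Tr.L (Pth.l (Pth.r (Pth.r (Pth.r (Pth.r Pth.z)))))
def l12 : Tr := Tr.L (Pth.r (Pth.l (Pth.l (Pth.l Pth.z))))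
def l13 : Tr := Tr.L (Pth.r (Pth.l (Pth.l (Pth.r (Pth.l Pth.z)))))
def l14 : Tr := Tr.L (Pth.r (Pth.l (Pth.l (Pth.r (Pth.r Pth.z)))))
def l15 : Tr := Tr.L (Pth.r (Pth.l (Pth.r (Pth.l Pth.z))))
def l16 : Tr := Tr.L (Pth.r (Pth.l (Pth.r (Pth.r (Pth.l Pth.z)))))
def l17 : Tr := Tr.L (Pth.r (Pth.l (Pth.r (Pth.r (Pth.r Pth.z)))))
def l18 : Tr := Tr.L (Pth.r (Pth.r (Pth.l (Pth.l Pth.z))))
def l19 : Tr := Tr.L (Pth.r (Pth.r (Pth.l (Pth.r (Pth.l Pth.z)))))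
def l20 : Tr := Tr.L (Pth.r (Pth.r (Pth.l (Pth.r (Pth.r Pth.z)))))
def l21 : Tr := Tr.L (Pth.r (Pth.r (Pth.r (Pth.l Pth.z))))
def l22 : Tr := Tr.L (Pth.r (Pth.r (Pth.r (Pth.r (Pth.l Pth.z)))))
def l23 : Tr := Tr.L (Pth.r (Pth.r (Pth.r (Pth.r (Pth.r Pth.z)))))
end T4
def b5_0 : Bx := Bx.mk (St.mk (I.pos (nat_lit 147570688) (nat_lit 229326848)) (I.mix (nat_lit 3031040) (nat_lit 51052544)) (I.mix (nat_lit 6799360) (nat_lit 117538816)) (I.pos (nat_lit 136790016) (nat_lit 244318208)) (I.mix (nat_lit 128598016) (nat_lit 83705856)) (I.mix (nat_lit 104136704) (nat_lit 93093888)) (I.mix (nat_lit 143949824) (nat_lit 114950144)))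
  false (nat_lit 51397116)
def b5_1 : Bx := Bx.mk (St.mk (I.pos (nat_lit 108560384) (nat_lit 168460288)) (I.neg (nat_lit 4259840) (nat_lit 60309504)) (I.mix (nat_lit 37568512) (nat_lit 27623424)) (I.pos (nat_lit 102400000) (nat_lit 166019072)) (I.mix (nat_lit 68517888) (nat_lit 57376768)) (I.mix (nat_lit 43499520) (nat_lit 57360384)) (I.mix (nat_lit 40042496) (nat_lit 54951936)))
  false (nat_lit 52939779)
def b5_2 : Bx := Bx.mk (St.mk (I.mix (nat_lit 22511616) (nat_lit 85032960)) (I.mix (nat_lit 32882688) (nat_lit 4210688)) (I.mix (nat_lit 6275072) (nat_lit 17989632)) (I.pos (nat_lit 40189952) (nat_lit 89538560)) (I.mix (nat_lit 29884416) (nat_lit 41943040)) (I.mix (nat_lit 23085056) (nat_lit 34062336)) (I.mix (nat_lit 11157504) (nat_lit 18055168)))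
  false (nat_lit 12754886)
def b5_3 : Bx := Bx.mk (St.mk (I.pos (nat_lit 154402816) (nat_lit 203997184)) (I.mix (nat_lit 13500416) (nat_lit 49954816)) (I.pos (nat_lit 22773760) (nat_lit 108249088)) (I.pos (nat_lit 134004736) (nat_lit 213614592)) (I.mix (nat_lit 137871360) (nat_lit 44187648)) (I.mix (nat_lit 126222336) (nat_lit 64782336)) (I.mix (nat_lit 141492224) (nat_lit 51724288)))
  false (nat_lit 48788081)
def b5_4 : Bx := Bx.mk (St.mk (I.mix (nat_lit 39026688) (nat_lit 107413504)) (I.mix (nat_lit 14041088) (nat_lit 36503552)) (I.mix (nat_lit 212992) (nat_lit 40321024)) (I.pos (nat_lit 38666240) (nat_lit 103563264)) (I.mix (nat_lit 66043904) (nat_lit 35815424)) (I.mix (nat_lit 58179584) (nat_lit 32833536)) (I.mix (nat_lit 33587200) (nat_lit 19218432)))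
  false (nat_lit 4335188)
def b5_5 : Bx := Bx.mk (St.mk (I.pos (nat_lit 138592256) (nat_lit 173686784)) (I.neg (nat_lit 1966080) (nat_lit 37912576)) (I.mix (nat_lit 7847936) (nat_lit 33292288)) (I.pos (nat_lit 120356864) (nat_lit 174194688)) (I.mix (nat_lit 52248576) (nat_lit 46956544)) (I.mix (nat_lit 34013184) (nat_lit 43139072)) (I.mix (nat_lit 38944768) (nat_lit 39419904)))
  false (nat_lit 0)
def b5_6 : Bx := Bx.mk (St.mk (I.mix (nat_lit 48234496) (nat_lit 88244224)) (I.mix (nat_lit 17711104) (nat_lit 8814592)) (I.pos (nat_lit 1081344) (nat_lit 19660800)) (I.pos (nat_lit 40812544) (nat_lit 90636288)) (I.mix (nat_lit 28819456) (nat_lit 22577152)) (I.mix (nat_lit 20381696) (nat_lit 21839872)) (I.mix (nat_lit 11567104) (nat_lit 10092544)))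
  false (nat_lit 0)
def b5_7 : Bx := Bx.mk (St.mk (I.pos (nat_lit 150552576) (nat_lit 186925056)) (I.neg (nat_lit 9617408) (nat_lit 39059456)) (I.mix (nat_lit 8716288) (nat_lit 26738688)) (I.pos (nat_lit 132448256) (nat_lit 192053248)) (I.mix (nat_lit 44220416) (nat_lit 45219840)) (I.mix (nat_lit 44630016) (nat_lit 32145408)) (I.mix (nat_lit 42090496) (nat_lit 31211520)))
  false (nat_lit 24223187)
def b5_8 : Bx := Bx.mk (St.mk (I.pos (nat_lit 156631040) (nat_lit 200130560)) (I.mix (nat_lit 40697856) (nat_lit 5029888)) (I.mix (nat_lit 8454144) (nat_lit 50741248)) (I.pos (nat_lit 137248768) (nat_lit 206290944)) (I.mix (nat_lit 61554688) (nat_lit 75104256)) (I.mix (nat_lit 68157440) (nat_lit 64962560)) (I.mix (nat_lit 62521344) (nat_lit 63963136)))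
  false (nat_lit 110545957)
def b5_9 : Bx := Bx.mk (St.mk (I.pos (nat_lit 153010176) (nat_lit 200261632)) (I.mix (nat_lit 26345472) (nat_lit 25460736)) (I.pos (nat_lit 10780672) (nat_lit 76070912)) (I.pos (nat_lit 133398528) (nat_lit 204324864)) (I.mix (nat_lit 124108800) (nat_lit 74727424)) (I.mix (nat_lit 122585088) (nat_lit 70647808)) (I.mix (nat_lit 133447680) (nat_lit 64077824)))
  false (nat_lit 82292966)
def b5_10 : Bx := Bx.mk (St.mk (I.mix (nat_lit 32636928) (nat_lit 124862464)) (I.mix (nat_lit 8994816) (nat_lit 29065216)) (I.pos (nat_lit 1163264) (nat_lit 34095104)) (I.pos (nat_lit 37879808) (nat_lit 117686272)) (I.mix (nat_lit 51249152) (nat_lit 40747008)) (I.mix (nat_lit 46465024) (nat_lit 34258944)) (I.mix (nat_lit 32849920) (nat_lit 21921792)))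
  false (nat_lit 0)
def b5_11 : Bx := Bx.mk (St.mk (I.pos (nat_lit 92962816) (nat_lit 150323200)) (I.mix (nat_lit 58753024) (nat_lit 12681216)) (I.mix (nat_lit 33669120) (nat_lit 24281088)) (I.pos (nat_lit 76677120) (nat_lit 151863296)) (I.mix (nat_lit 76447744) (nat_lit 47792128)) (I.mix (nat_lit 44040192) (nat_lit 73367552)) (I.mix (nat_lit 31834112) (nat_lit 51544064)))
  false (nat_lit 51796626)
def b5_12 : Bx := Bx.mk (St.mk (I.mix (nat_lit 29245440) (nat_lit 71925760)) (I.mix (nat_lit 26427392) (nat_lit 6062080)) (I.mix (nat_lit 2883584) (nat_lit 14254080)) (I.pos (nat_lit 39845888) (nat_lit 82231296)) (I.mix (nat_lit 35192832) (nat_lit 27131904)) (I.mix (nat_lit 24510464) (nat_lit 31719424)) (I.mix (nat_lit 9764864) (nat_lit 11567104)))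
  false (nat_lit 0)
def b5_13 : Bx := Bx.mk (St.mk (I.pos (nat_lit 184483840) (nat_lit 235913216)) (I.mix (nat_lit 409600) (nat_lit 28901376)) (I.pos (nat_lit 27623424) (nat_lit 85082112)) (I.pos (nat_lit 191447040) (nat_lit 257736704)) (I.mix (nat_lit 87244800) (nat_lit 38912000)) (I.mix (nat_lit 59310080) (nat_lit 39157760)) (I.mix (nat_lit 90898432) (nat_lit 52559872)))
  false (nat_lit 39983054)
def b5_14 : Bx := Bx.mk (St.mk (I.pos (nat_lit 214532096) (nat_lit 274137088)) (I.mix (nat_lit 19988480) (nat_lit 26607616)) (I.mix (nat_lit 2506752) (nat_lit 83722240)) (I.pos (nat_lit 228442112) (nat_lit 343490560)) (I.mix (nat_lit 50921472) (nat_lit 22331392)) (I.mix (nat_lit 30687232) (nat_lit 37011456)) (I.mix (nat_lit 54558720) (nat_lit 55951360)))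
  false (nat_lit 17494344)
def b5_15 : Bx := Bx.mk (St.mk (I.pos (nat_lit 170934272) (nat_lit 227082240)) (I.pos (nat_lit 9912320) (nat_lit 48087040)) (I.pos (nat_lit 44728320) (nat_lit 113131520)) (I.pos (nat_lit 177684480) (nat_lit 239124480)) (I.mix (nat_lit 114475008) (nat_lit 86753280)) (I.mix (nat_lit 105709568) (nat_lit 75087872)) (I.mix (nat_lit 158056448) (nat_lit 91717632)))
  false (nat_lit 68093919)
def b5_16 : Bx := Bx.mk (St.mk (I.pos (nat_lit 206815232) (nat_lit 285605888)) (I.mix (nat_lit 17530880) (nat_lit 39141376)) (I.pos (nat_lit 1425408) (nat_lit 104611840)) (I.pos (nat_lit 217088000) (nat_lit 367099904)) (I.mix (nat_lit 69910528) (nat_lit 68534272)) (I.mix (nat_lit 71778304) (nat_lit 53280768)) (I.mix (nat_lit 118669312) (nat_lit 87588864)))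
  false (nat_lit 91223920)
def b5_17 : Bx := Bx.mk (St.mk (I.pos (nat_lit 258703360) (nat_lit 280379392)) (I.mix (nat_lit 20414464) (nat_lit 3555328)) (I.mix (nat_lit 4308992) (nat_lit 44056576)) (I.pos (nat_lit 300384256) (nat_lit 355778560)) (I.mix (nat_lit 36962304) (nat_lit 24985600)) (I.mix (nat_lit 26378240) (nat_lit 25329664)) (I.mix (nat_lit 47579136) (nat_lit 38273024)))
  false (nat_lit 0)
def b5_18 : Bx := Bx.mk (St.mk (I.pos (nat_lit 198852608) (nat_lit 280494080)) (I.mix (nat_lit 5128192) (nat_lit 37076992)) (I.pos (nat_lit 19955712) (nat_lit 100499456)) (I.pos (nat_lit 210337792) (nat_lit 356106240)) (I.mix (nat_lit 72531968) (nat_lit 31735808)) (I.mix (nat_lit 49217536) (nat_lit 30425088)) (I.mix (nat_lit 81575936) (nat_lit 43204608)))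
  false (nat_lit 39250484)
def b5_19 : Bx := Bx.mk (St.mk (I.pos (nat_lit 190152704) (nat_lit 239976448)) (I.mix (nat_lit 753664) (nat_lit 34062336)) (I.pos (nat_lit 26771456) (nat_lit 95125504)) (I.pos (nat_lit 199901184) (nat_lit 266633216)) (I.mix (nat_lit 83689472) (nat_lit 50905088)) (I.mix (nat_lit 61407232) (nat_lit 46186496)) (I.mix (nat_lit 96075776) (nat_lit 67829760)))
  false (nat_lit 68727194)
def b5_20 : Bx := Bx.mk (St.mk (I.pos (nat_lit 250839040) (nat_lit 278855680)) (I.mix (nat_lit 23904256) (nat_lit 7864320)) (I.mix (nat_lit 9666560) (nat_lit 53723136)) (I.pos (nat_lit 288718848) (nat_lit 352108544)) (I.mix (nat_lit 46497792) (nat_lit 34013184)) (I.mix (nat_lit 33062912) (nat_lit 30801920)) (I.mix (nat_lit 57999360) (nat_lit 48447488)))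
  false (nat_lit 23388356)
def b5_21 : Bx := Bx.mk (St.mk (I.pos (nat_lit 190349312) (nat_lit 229982208)) (I.pos (nat_lit 7094272) (nat_lit 29605888)) (I.pos (nat_lit 40419328) (nat_lit 84852736)) (I.pos (nat_lit 197410816) (nat_lit 245071872)) (I.mix (nat_lit 79413248) (nat_lit 29458432)) (I.mix (nat_lit 51511296) (nat_lit 30064640)) (I.mix (nat_lit 81297408) (nat_lit 38928384)))
  false (nat_lit 2401528)
def t5 : BTr := (BTr.n (BTr.n (BTr.n (BTr.n (BTr.b b5_0) (BTr.b b5_1)) (BTr.n (BTr.b b5_2) (BTr.n (BTr.b b5_3) (BTr.b b5_4)))) (BTr.n (BTr.n (BTr.b b5_5) (BTr.n (BTr.b b5_6) (BTr.b b5_7))) (BTr.n (BTr.b b5_8) (BTr.n (BTr.b b5_9) (BTr.b b5_10))))) (BTr.n (BTr.n (BTr.n (BTr.b b5_11) (BTr.b b5_12)) (BTr.n (BTr.b b5_13) (BTr.n (BTr.b b5_14) (BTr.b b5_15)))) (BTr.n (BTr.n (BTr.b b5_16) (BTr.n (BTr.b b5_17) (BTr.b b5_18))) (BTr.n (BTr.b b5_19)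 (BTr.n (BTr.b b5_20) (BTr.b b5_21))))))
namespace T5
def l0 : Tr := Tr.L (Pth.l (Pth.l (Pth.l (Pth.l Pth.z))))
def l1 : Tr := Tr.L (Pth.l (Pth.l (Pth.l (Pth.r Pth.z))))
def l2 : Tr := Tr.L (Pth.l (Pth.l (Pth.r (Pth.l Pth.z))))
def l3 : Tr := Tr.L (Pth.l (Pth.l (Pth.r (Pth.r (Pth.l Pth.z)))))
def l4 : Tr := Tr.L (Pth.l (Pth.l (Pth.r (Pth.r (Pth.r Pth.z)))))
def l5 : Tr := Tr.L (Pth.l (Pth.r (Pth.l (Pth.l Pth.z))))
def l6 : Tr := Tr.L (Pth.l (Pth.r (Pth.l (Pth.r (Pth.l Pth.z)))))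
def l7 : Tr := Tr.L (Pth.l (Pth.r (Pth.l (Pth.r (Pth.r Pth.z)))))
def l8 : Tr := Tr.L (Pth.l (Pth.r (Pth.r (Pth.l Pth.z))))
def l9 : Tr := Tr.L (Pth.l (Pth.r (Pth.r (Pth.r (Pth.l Pth.z)))))
def l10 : Tr := Tr.L (Pth.l (Pth.r (Pth.r (Pth.r (Pth.r Pth.z)))))
def l11 : Tr := Tr.L (Pth.r (Pth.l (Pth.l (Pth.l Pth.z))))
def l12 : Tr := Tr.L (Pth.r (Pth.l (Pth.l (Pth.r Pth.z))))
def l13 : Tr := Tr.L (Pth.r (Pth.l (Pth.r (Pth.l Pth.z))))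
def l14 : Tr := Tr.L (Pth.r (Pth.l (Pth.r (Pth.r (Pth.l Pth.z)))))
def l15 : Tr := Tr.L (Pth.r (Pth.l (Pth.r (Pth.r (Pth.r Pth.z)))))
def l16 : Tr := Tr.L (Pth.r (Pth.r (Pth.l (Pth.l Pth.z))))
def l17 : Tr := Tr.L (Pth.r (Pth.r (Pth.l (Pth.r (Pth.l Pth.z)))))
def l18 : Tr := Tr.L (Pth.r (Pth.r (Pth.l (Pth.r (Pth.r Pth.z)))))
def l19 : Tr := Tr.L (Pth.r (Pth.r (Pth.r (Pth.l Pth.z))))
def l20 : Tr := Tr.L (Pth.r (Pth.r (Pth.r (Pth.r (Pth.l Pth.z)))))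
def l21 : Tr := Tr.L (Pth.r (Pth.r (Pth.r (Pth.r (Pth.r Pth.z)))))
end T5
theorem bx0_0 : BoxOK sI cl4 cl7 cl9 t2 t4 b0_0 :=
  box_mk (TrL.c (I.pos (nat_lit 0) (nat_lit 0)) (xa (xb (xa T2.l22 T2.l0) (xa (xb T2.l0 (xa T2.l0 T2.l0)) (xb T2.l0 T2.l0))) (xb (xa T2.l0 T2.l0) (xa (xb T2.l0 (xa T2.l0 T2.l0)) (xb T2.l0 (xa T2.l0 T2.l0)))))
  (TrL.c (I.pos (nat_lit 0) (nat_lit 0)) (xa T4.l1 (xb T4.l1 (xa T4.l1 T4.l1)))
  (TrL.c (I.pos (nat_lit 0) (nat_lit 0)) (xa T2.l1 T2.l1)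
  (TrL.c (I.pos (nat_lit 0) (nat_lit 0)) (xa T4.l2 (xb T4.l2 T4.l2))
  (TrL.c (I.pos (nat_lit 0) (nat_lit 0)) (xa (xb T2.l2 T2.l2) T2.l2)
  (TrL.c (I.pos (nat_lit 0) (nat_lit 0)) (xa T4.l3 (xb T4.l3 (xa T4.l3 T4.l3)))
  TrL.n)))))) (by decide +kernel)
theorem bx0_1 : BoxOK sI cl4 cl7 cl9 t2 t4 b0_1 :=
  box_mk (TrL.c (I.pos (nat_lit 0) (nat_lit 0)) (xa (xa (xb (xa T2.l16 T2.l6) (xa T2.l16 T2.l16)) T2.l16) (xa T2.l16 (xb (xa T2.l6 T2.l8) (xa T2.l6 T2.l6))))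
  (TrL.c (I.pos (nat_lit 0) (nat_lit 0)) (xa T4.l1 T4.l1)
  (TrL.c (I.pos (nat_lit 0) (nat_lit 0)) T2.l1
  (TrL.c (I.pos (nat_lit 0) (nat_lit 0)) (xa T4.l2 T4.l2)
  (TrL.c (I.pos (nat_lit 0) (nat_lit 0)) (xa T2.l7 T2.l7)
  (TrL.c (I.pos (nat_lit 0) (nat_lit 0)) T4.l3
  TrL.n)))))) (by decide +kernel)
theorem bx0_2 : BoxOK sI cl4 cl7 cl9 t2 t4 b0_2 :=
  box_mk (TrL.c (I.pos (nat_lit 0) (nat_lit 0)) (xb (xa T2.l8 T2.l8) (xa (xb T2.l8 T2.l8) (xb T2.l8 T2.l8)))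
  (TrL.c (I.pos (nat_lit 0) (nat_lit 0)) T4.l1
  (TrL.c (I.pos (nat_lit 0) (nat_lit 0)) T2.l1
  (TrL.c (I.pos (nat_lit 0) (nat_lit 0)) T4.l2
  (TrL.c (I.pos (nat_lit 0) (nat_lit 0)) T2.l9
  (TrL.c (I.pos (nat_lit 0) (nat_lit 0)) T4.l3
  TrL.n)))))) (by decide +kernel)
theorem bx0_3 : BoxOK sI cl4 cl7 cl9 t2 t4 b0_3 :=
  box_mk (TrL.c (I.pos (nat_lit 0) (nat_lit 0)) (xa (xa (xb (xa (xb T2.l10 T2.l16) T2.l16) T2.l16) T2.l16) T2.l6)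
  (TrL.c (I.pos (nat_lit 0) (nat_lit 0)) T4.l1
  (TrL.c (I.pos (nat_lit 0) (nat_lit 0)) T2.l1
  (TrL.c (I.pos (nat_lit 0) (nat_lit 0)) T4.l2
  (TrL.c (I.pos (nat_lit 0) (nat_lit 0)) (xa T2.l11 T2.l7)
  (TrL.c (I.pos (nat_lit 0) (nat_lit 0)) T4.l3
  TrL.n)))))) (by decide +kernel)
theorem bx0_4 : BoxOK sI cl4 cl7 cl9 t2 t4 b0_4 :=
  box_mk (TrL.c (I.pos (nat_lit 0) (nat_lit 0)) T2.l6
  (TrL.c (I.pos (nat_lit 0) (nat_lit 0)) T4.l1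
  (TrL.c (I.pos (nat_lit 0) (nat_lit 0)) T2.l1
  (TrL.c (I.pos (nat_lit 0) (nat_lit 0)) T4.l2
  (TrL.c (I.pos (nat_lit 0) (nat_lit 0)) T2.l7
  (TrL.c (I.pos (nat_lit 0) (nat_lit 0)) T4.l3
  TrL.n)))))) (by decide +kernel)
theorem bx0_5 : BoxOK sI cl4 cl7 cl9 t2 t4 b0_5 :=
  box_mk (TrL.c (I.pos (nat_lit 0) (nat_lit 0)) (xa (xa (xa (xb T2.l12 T2.l12) T2.l16) T2.l6) T2.l6)
  (TrL.c (I.pos (nat_lit 0) (nat_lit 0)) T4.l1
  (TrL.c (I.pos (nat_lit 0) (nat_lit 0)) T2.l1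
  (TrL.c (I.pos (nat_lit 0) (nat_lit 0)) T4.l2
  (TrL.c (I.pos (nat_lit 0) (nat_lit 0)) T2.l17
  (TrL.c (I.pos (nat_lit 0) (nat_lit 0)) T4.l3
  TrL.n)))))) (by decide +kernel)
theorem bx0_6 : BoxOK sI cl4 cl7 cl9 t2 t4 b0_6 :=
  box_mk (TrL.c (I.pos (nat_lit 0) (nat_lit 0)) (xa T2.l0 T2.l4)
  (TrL.c (I.pos (nat_lit 0) (nat_lit 0)) T4.l1
  (TrL.c (I.pos (nat_lit 0) (nat_lit 0)) T2.l1
  (TrL.c (I.pos (nat_lit 0) (nat_lit 0)) (xa T4.l2 T4.l2)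
  (TrL.c (I.pos (nat_lit 0) (nat_lit 0)) T2.l2
  (TrL.c (I.pos (nat_lit 0) (nat_lit 0)) T4.l3
  TrL.n)))))) (by decide +kernel)
theorem bx0_7 : BoxOK sI cl4 cl7 cl9 t2 t4 b0_7 :=
  box_mk (TrL.c (I.pos (nat_lit 0) (nat_lit 0)) (xa (xb (xa T2.l0 T2.l0) (xa T2.l0 T2.l0)) (xb T2.l4 T2.l4))
  (TrL.c (I.pos (nat_lit 0) (nat_lit 0)) (xa T4.l1 T4.l1)
  (TrL.c (I.pos (nat_lit 0) (nat_lit 0)) T2.l5
  (TrL.c (I.pos (nat_lit 0) (nat_lit 0)) (xa T4.l2 (xb T4.l2 T4.l2))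
  (TrL.c (I.pos (nat_lit 0) (nat_lit 0)) T2.l3
  (TrL.c (I.pos (nat_lit 0) (nat_lit 0)) (xa T4.l3 T4.l3)
  TrL.n)))))) (by decide +kernel)
theorem bx0_8 : BoxOK sI cl4 cl7 cl9 t2 t4 b0_8 :=
  box_mk (TrL.c (I.pos (nat_lit 0) (nat_lit 0)) (xa (xb (xa (xb T2.l0 T2.l0) (xb T2.l0 T2.l0)) (xa (xb (xs T2.l0 (xa T2.l0 T2.l0)) (xs T2.l0 (xa T2.l0 T2.l0))) (xb (xs T2.l0 T2.l0) (xs T2.l0 (xa T2.l0 T2.l0))))) (xb (xa T2.l4 T2.l4) (xa (xb (xs T2.l0 T2.l0) (xs T2.l0 (xa T2.l0 T2.l0))) (xb (xs T2.l0 T2.l0) (xs (xa T2.l0 T2.l0) (xa T2.l0 T2.l0))))))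
  (TrL.c (I.pos (nat_lit 0) (nat_lit 0)) (xa (xb T4.l1 T4.l1) (xb T4.l1 (xa T4.l1 T4.l1)))
  (TrL.c (I.pos (nat_lit 0) (nat_lit 0)) (xa T2.l1 T2.l5)
  (TrL.c (I.pos (nat_lit 0) (nat_lit 0)) (xa (xb T4.l2 T4.l2) (xb (xa T4.l2 (xb T4.l2 T4.l2)) (xa T4.l2 (xb T4.l2 T4.l2))))
  (TrL.c (I.pos (nat_lit 0) (nat_lit 0)) (xa T2.l3 T2.l3)
  (TrL.c (I.pos (nat_lit 0) (nat_lit 0)) (xa (xb T4.l3 T4.l3) (xb T4.l3 (xa T4.l3 T4.l3)))
  TrL.n)))))) (by decide +kernel)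
theorem bx0_9 : BoxOK sI cl4 cl7 cl9 t2 t4 b0_9 :=
  box_mk (TrL.c (I.pos (nat_lit 0) (nat_lit 0)) (xa (xb (xa T2.l14 T2.l14) T2.l8) (xb (xa T2.l14 T2.l14) (xa T2.l14 T2.l22)))
  (TrL.c (I.pos (nat_lit 0) (nat_lit 0)) T4.l1
  (TrL.c (I.pos (nat_lit 0) (nat_lit 0)) T2.l1
  (TrL.c (I.pos (nat_lit 0) (nat_lit 0)) T4.l2
  (TrL.c (I.pos (nat_lit 0) (nat_lit 0)) (xa T2.l15 T2.l3)
  (TrL.c (I.pos (nat_lit 0) (nat_lit 0)) T4.l3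
  TrL.n)))))) (by decide +kernel)
theorem bx0_10 : BoxOK sI cl4 cl7 cl9 t2 t4 b0_10 :=
  box_mk (TrL.c (I.pos (nat_lit 0) (nat_lit 0)) (xa (xa (xb (xa (xb T2.l20 T2.l16) T2.l16) T2.l16) T2.l16) T2.l16)
  (TrL.c (I.pos (nat_lit 0) (nat_lit 0)) T4.l1
  (TrL.c (I.pos (nat_lit 0) (nat_lit 0)) T2.l1
  (TrL.c (I.pos (nat_lit 0) (nat_lit 0)) T4.l2
  (TrL.c (I.pos (nat_lit 0) (nat_lit 0)) (xa T2.l21 T2.l7)
  (TrL.c (I.pos (nat_lit 0) (nat_lit 0)) T4.l3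
  TrL.n)))))) (by decide +kernel)
theorem bx0_11 : BoxOK sI cl4 cl7 cl9 t2 t4 b0_11 :=
  box_mk (TrL.c (I.pos (nat_lit 0) (nat_lit 0)) (xb (xa (xb (xa T2.l22 T2.l22) (xa T2.l22 T2.l22)) (xb (xa T2.l22 T2.l4) (xa T2.l22 T2.l22))) (xa (xb (xa (xb T2.l22 T2.l22) T2.l22) (xa (xb T2.l22 T2.l22) (xb T2.l22 T2.l22))) (xb (xa T2.l22 (xb T2.l22 T2.l22)) (xa (xs T2.l22 (xb T2.l22 T2.l22)) (xs T2.l22 (xb T2.l22 T2.l22))))))
  (TrL.c (I.pos (nat_lit 0) (nat_lit 0)) (xb (xa T4.l1 T4.l1) (xa T4.l1 T4.l1))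
  (TrL.c (I.pos (nat_lit 0) (nat_lit 0)) (xb T2.l1 (xa T2.l1 T2.l1))
  (TrL.c (I.pos (nat_lit 0) (nat_lit 0)) (xb (xa T4.l2 T4.l2) (xa T4.l2 (xb T4.l2 T4.l2)))
  (TrL.c (I.pos (nat_lit 0) (nat_lit 0)) (xb T2.l23 (xa T2.l23 T2.l23))
  (TrL.c (I.pos (nat_lit 0) (nat_lit 0)) (xb (xa T4.l3 T4.l3) (xa T4.l3 T4.l3))
  TrL.n)))))) (by decide +kernel)
theorem bx0_12 : BoxOK sI cl4 cl7 cl9 t2 t4 b0_12 :=
  box_mk (TrL.c (I.pos (nat_lit 0) (nat_lit 0)) (xa (xa (xb (xa (xb (xa T2.l16 T2.l16) T2.l16) T2.l16) (xa (xb T2.l16 (xa T2.l16 T2.l16)) (xb T2.l16 (xa T2.l16 T2.l16)))) (xb T2.l16 (xa (xb T2.l16 T2.l16) (xb T2.l16 T2.l16)))) (xa (xb T2.l16 (xa T2.l16 T2.l16)) (xb (xa T2.l16 T2.l8) (xa T2.l16 T2.l16))))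
  (TrL.c (I.pos (nat_lit 0) (nat_lit 0)) (xa T4.l2 T4.l1)
  (TrL.c (I.pos (nat_lit 0) (nat_lit 0)) (xa T2.l1 T2.l1)
  (TrL.c (I.pos (nat_lit 0) (nat_lit 0)) (xa (xa T4.l1 T4.l2) T4.l2)
  (TrL.c (I.pos (nat_lit 0) (nat_lit 0)) (xa T2.l17 (xa T2.l17 T2.l17))
  (TrL.c (I.pos (nat_lit 0) (nat_lit 0)) (xa T4.l3 T4.l3)
  TrL.n)))))) (by decide +kernel)
theorem bx0_13 : BoxOK sI cl4 cl7 cl9 t2 t4 b0_13 :=
  box_mk (TrL.c (I.pos (nat_lit 0) (nat_lit 0)) T2.l0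
  (TrL.c (I.pos (nat_lit 0) (nat_lit 0)) T4.l1
  (TrL.c (I.pos (nat_lit 0) (nat_lit 0)) T2.l1
  (TrL.c (I.pos (nat_lit 0) (nat_lit 0)) T4.l2
  (TrL.c (I.pos (nat_lit 0) (nat_lit 0)) T2.l3
  (TrL.c (I.pos (nat_lit 0) (nat_lit 0)) T4.l3
  TrL.n)))))) (by decide +kernel)
theorem bx0_14 : BoxOK sI cl4 cl7 cl9 t2 t4 b0_14 :=
  box_mk (TrL.c (I.pos (nat_lit 0) (nat_lit 0)) (xa (xb T2.l14 T2.l22) T2.l22)
  (TrL.c (I.pos (nat_lit 0) (nat_lit 0)) T4.l1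
  (TrL.c (I.pos (nat_lit 0) (nat_lit 0)) T2.l1
  (TrL.c (I.pos (nat_lit 0) (nat_lit 0)) T4.l2
  (TrL.c (I.pos (nat_lit 0) (nat_lit 0)) T2.l23
  (TrL.c (I.pos (nat_lit 0) (nat_lit 0)) T4.l3
  TrL.n)))))) (by decide +kernel)
theorem bx0_15 : BoxOK sI cl4 cl7 cl9 t2 t4 b0_15 :=
  box_mk (TrL.c (I.pos (nat_lit 0) (nat_lit 0)) (xb (xa T2.l22 (xb T2.l22 T2.l22)) (xa (xb T2.l22 T2.l22) (xb T2.l22 T2.l22)))
  (TrL.c (I.pos (nat_lit 0) (nat_lit 0)) T4.l1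
  (TrL.c (I.pos (nat_lit 0) (nat_lit 0)) T2.l5
  (TrL.c (I.pos (nat_lit 0) (nat_lit 0)) (xb (xa T4.l2 T4.l2) T4.l2)
  (TrL.c (I.pos (nat_lit 0) (nat_lit 0)) T2.l3
  (TrL.c (I.pos (nat_lit 0) (nat_lit 0)) T4.l3
  TrL.n)))))) (by decide +kernel)
theorem bx0_16 : BoxOK sI cl4 cl7 cl9 t2 t4 b0_16 :=
  box_mk (TrL.c (I.pos (nat_lit 0) (nat_lit 0)) (xa (xb T2.l14 T2.l22) T2.l22)
  (TrL.c (I.pos (nat_lit 0) (nat_lit 0)) T4.l1
  (TrL.c (I.pos (nat_lit 0) (nat_lit 0)) T2.l1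
  (TrL.c (I.pos (nat_lit 0) (nat_lit 0)) T4.l2
  (TrL.c (I.pos (nat_lit 0) (nat_lit 0)) T2.l23
  (TrL.c (I.pos (nat_lit 0) (nat_lit 0)) T4.l3
  TrL.n)))))) (by decide +kernel)
theorem bx0_17 : BoxOK sI cl4 cl7 cl9 t2 t4 b0_17 :=
  box_mk (TrL.c (I.pos (nat_lit 0) (nat_lit 0)) (xa T2.l14 T2.l22)
  (TrL.c (I.pos (nat_lit 0) (nat_lit 0)) T4.l1
  (TrL.c (I.pos (nat_lit 0) (nat_lit 0)) T2.l1
  (TrL.c (I.pos (nat_lit 0) (nat_lit 0)) T4.l2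
  (TrL.c (I.pos (nat_lit 0) (nat_lit 0)) T2.l23
  (TrL.c (I.pos (nat_lit 0) (nat_lit 0)) T4.l3
  TrL.n)))))) (by decide +kernel)
theorem bx0_18 : BoxOK sI cl4 cl7 cl9 t2 t4 b0_18 :=
  box_mk (TrL.c (I.pos (nat_lit 0) (nat_lit 0)) T2.l22
  (TrL.c (I.pos (nat_lit 0) (nat_lit 0)) T4.l1
  (TrL.c (I.pos (nat_lit 0) (nat_lit 0)) T2.l1
  (TrL.c (I.pos (nat_lit 0) (nat_lit 0)) T4.l2
  (TrL.c (I.pos (nat_lit 0) (nat_lit 0)) T2.l23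
  (TrL.c (I.pos (nat_lit 0) (nat_lit 0)) T4.l3
  TrL.n)))))) (by decide +kernel)
theorem bx0_19 : BoxOK sI cl4 cl7 cl9 t2 t4 b0_19 :=
  box_mk (TrL.c (I.pos (nat_lit 0) (nat_lit 0)) (xa (xb T2.l14 T2.l22) T2.l22)
  (TrL.c (I.pos (nat_lit 0) (nat_lit 0)) T4.l1
  (TrL.c (I.pos (nat_lit 0) (nat_lit 0)) T2.l1
  (TrL.c (I.pos (nat_lit 0) (nat_lit 0)) T4.l2
  (TrL.c (I.pos (nat_lit 0) (nat_lit 0)) T2.l23
  (TrL.c (I.pos (nat_lit 0) (nat_lit 0)) T4.l3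
  TrL.n)))))) (by decide +kernel)
theorem bx0_20 : BoxOK sI cl4 cl7 cl9 t2 t4 b0_20 :=
  box_mk (TrL.c (I.pos (nat_lit 0) (nat_lit 0)) T2.l0
  (TrL.c (I.pos (nat_lit 0) (nat_lit 0)) T4.l1
  (TrL.c (I.pos (nat_lit 0) (nat_lit 0)) T2.l1
  (TrL.c (I.pos (nat_lit 0) (nat_lit 0)) T4.l2
  (TrL.c (I.pos (nat_lit 0) (nat_lit 0)) T2.l23
  (TrL.c (I.pos (nat_lit 0) (nat_lit 0)) T4.l3
  TrL.n)))))) (by decide +kernel)
theorem bx0_21 : BoxOK sI cl4 cl7 cl9 t2 t4 b0_21 :=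
  box_mk (TrL.c (I.pos (nat_lit 0) (nat_lit 0)) (xa (xb T2.l14 T2.l22) T2.l22)
  (TrL.c (I.pos (nat_lit 0) (nat_lit 0)) T4.l1
  (TrL.c (I.pos (nat_lit 0) (nat_lit 0)) T2.l1
  (TrL.c (I.pos (nat_lit 0) (nat_lit 0)) T4.l2
  (TrL.c (I.pos (nat_lit 0) (nat_lit 0)) T2.l23
  (TrL.c (I.pos (nat_lit 0) (nat_lit 0)) T4.l3
  TrL.n)))))) (by decide +kernel)
theorem sv0 : StarV sI cl4 cl7 cl9 t2 t4 t0 :=
  (bt_n (bt_n (bt_n (bt_n (bt_b bx0_0) (bt_b bx0_1)) (bt_n (bt_b bx0_2) (bt_n (bt_b bx0_3) (bt_b bx0_4)))) (bt_n (bt_n (bt_b bx0_5) (bt_n (bt_b bx0_6) (bt_b bx0_7))) (bt_n (bt_b bx0_8) (bt_n (bt_b bx0_9) (bt_b bx0_10))))) (bt_n (bt_n (bt_n (bt_b bx0_11) (bt_b bx0_12)) (bt_n (bt_b bx0_13) (bt_n (bt_b bx0_14) (bt_b bx0_15)))) (bt_n (bt_n (bt_b bx0_16) (bt_n (bt_b bx0_17) (bt_b bx0_18))) (bt_n (bt_b bx0_19) (bt_n (bt_b bx0_20) (bt_b bx0_21))))))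
def S0 : StarD := StarD.mk cl4 cl7 cl9 2 4 t0
theorem bx1_0 : BoxOK sI cl4 cl9 cl7 t4 t2 b1_0 :=
  box_mk (TrL.c (I.pos (nat_lit 0) (nat_lit 0)) (xa (xb (xa (xb T4.l0 T4.l0) T4.l0) (xa (xb T4.l0 (xa T4.l0 T4.l0)) (xb T4.l0 (xa T4.l0 T4.l0)))) (xb (xa T4.l0 T4.l2) (xa (xb T4.l0 (xa T4.l0 T4.l0)) (xb T4.l0 (xa T4.l0 T4.l0)))))
  (TrL.c (I.pos (nat_lit 0) (nat_lit 0)) (xa (xb T2.l3 (xa T2.l3 T2.l3)) (xb T2.l3 (xa T2.l3 T2.l3)))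
  (TrL.c (I.pos (nat_lit 0) (nat_lit 0)) (xa T4.l4 (xb T4.l4 T4.l4))
  (TrL.c (I.pos (nat_lit 0) (nat_lit 0)) (xa T2.l4 (xb T2.l4 (xa T2.l4 T2.l4)))
  (TrL.c (I.pos (nat_lit 0) (nat_lit 0)) (xa (xb T4.l5 T4.l5) (xb T4.l1 T4.l5))
  (TrL.c (I.pos (nat_lit 0) (nat_lit 0)) (xa (xb T2.l5 (xa T2.l5 T2.l5)) (xb T2.l5 (xa T2.l5 T2.l5)))
  TrL.n)))))) (by decide +kernel)
theorem bx1_1 : BoxOK sI cl4 cl9 cl7 t4 t2 b1_1 :=
  box_mk (TrL.c (I.pos (nat_lit 0) (nat_lit 0)) (xa (xa (xb (xa T4.l20 T4.l20) (xa T4.l20 T4.l20)) T4.l20) (xa T4.l20 (xa T4.l6 T4.l6)))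
  (TrL.c (I.pos (nat_lit 0) (nat_lit 0)) (xa T2.l3 T2.l3)
  (TrL.c (I.pos (nat_lit 0) (nat_lit 0)) T4.l4
  (TrL.c (I.pos (nat_lit 0) (nat_lit 0)) T2.l4
  (TrL.c (I.pos (nat_lit 0) (nat_lit 0)) (xa T4.l21 T4.l7)
  (TrL.c (I.pos (nat_lit 0) (nat_lit 0)) (xa T2.l5 T2.l5)
  TrL.n)))))) (by decide +kernel)
theorem bx1_2 : BoxOK sI cl4 cl9 cl7 t4 t2 b1_2 :=
  box_mk (TrL.c (I.pos (nat_lit 0) (nat_lit 0)) (xb (xa T4.l8 T4.l8) (xa T4.l8 T4.l8))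
  (TrL.c (I.pos (nat_lit 0) (nat_lit 0)) T2.l3
  (TrL.c (I.pos (nat_lit 0) (nat_lit 0)) T4.l4
  (TrL.c (I.pos (nat_lit 0) (nat_lit 0)) T2.l4
  (TrL.c (I.pos (nat_lit 0) (nat_lit 0)) T4.l9
  (TrL.c (I.pos (nat_lit 0) (nat_lit 0)) T2.l5
  TrL.n)))))) (by decide +kernel)
theorem bx1_3 : BoxOK sI cl4 cl9 cl7 t4 t2 b1_3 :=
  box_mk (TrL.c (I.pos (nat_lit 0) (nat_lit 0)) (xa (xa (xb (xa (xb T4.l10 T4.l16) T4.l16) T4.l20) T4.l6) T4.l6)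
  (TrL.c (I.pos (nat_lit 0) (nat_lit 0)) (xa T2.l3 T2.l3)
  (TrL.c (I.pos (nat_lit 0) (nat_lit 0)) T4.l4
  (TrL.c (I.pos (nat_lit 0) (nat_lit 0)) T2.l4
  (TrL.c (I.pos (nat_lit 0) (nat_lit 0)) (xa T4.l17 T4.l7)
  (TrL.c (I.pos (nat_lit 0) (nat_lit 0)) (xa T2.l5 T2.l5)
  TrL.n)))))) (by decide +kernel)
theorem bx1_4 : BoxOK sI cl4 cl9 cl7 t4 t2 b1_4 :=
  box_mk (TrL.c (I.pos (nat_lit 0) (nat_lit 0)) (xa (xb T4.l0 T4.l0) (xb T4.l2 T4.l2))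
  (TrL.c (I.pos (nat_lit 0) (nat_lit 0)) (xa T2.l3 T2.l3)
  (TrL.c (I.pos (nat_lit 0) (nat_lit 0)) T4.l3
  (TrL.c (I.pos (nat_lit 0) (nat_lit 0)) (xa T2.l4 T2.l4)
  (TrL.c (I.pos (nat_lit 0) (nat_lit 0)) T4.l1
  (TrL.c (I.pos (nat_lit 0) (nat_lit 0)) (xa T2.l5 T2.l5)
  TrL.n)))))) (by decide +kernel)
theorem bx1_5 : BoxOK sI cl4 cl9 cl7 t4 t2 b1_5 :=
  box_mk (TrL.c (I.pos (nat_lit 0) (nat_lit 0)) (xa (xb (xa (xb T4.l0 T4.l0) (xb T4.l0 T4.l0)) (xa (xb (xs T4.l0 T4.l0) (xs T4.l0 (xa T4.l0 T4.l0))) (xb (xs T4.l0 T4.l0) (xs T4.l0 (xa T4.l0 T4.l0))))) (xb (xa T4.l2 T4.l2) (xa (xb (xs T4.l0 T4.l0) (xs T4.l0 (xa T4.l0 T4.l0))) (xb (xs T4.l0 T4.l0) (xs T4.l0 (xa T4.l0 T4.l0))))))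
  (TrL.c (I.pos (nat_lit 0) (nat_lit 0)) (xa (xb T2.l3 T2.l3) (xb T2.l3 (xa T2.l3 T2.l3)))
  (TrL.c (I.pos (nat_lit 0) (nat_lit 0)) (xa T4.l3 (xc T4.l3 (xb T4.l4 T4.l4)))
  (TrL.c (I.pos (nat_lit 0) (nat_lit 0)) (xa T2.l4 (xb (xa T2.l4 (xb T2.l4 T2.l4)) (xa T2.l4 (xb T2.l4 T2.l4))))
  (TrL.c (I.pos (nat_lit 0) (nat_lit 0)) (xa T4.l1 (xb T4.l1 T4.l5))
  (TrL.c (I.pos (nat_lit 0) (nat_lit 0)) (xa (xb T2.l5 T2.l5) (xb T2.l5 (xa T2.l5 T2.l5)))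
  TrL.n)))))) (by decide +kernel)
theorem bx1_6 : BoxOK sI cl4 cl9 cl7 t4 t2 b1_6 :=
  box_mk (TrL.c (I.pos (nat_lit 0) (nat_lit 0)) T4.l20
  (TrL.c (I.pos (nat_lit 0) (nat_lit 0)) T2.l3
  (TrL.c (I.pos (nat_lit 0) (nat_lit 0)) T4.l4
  (TrL.c (I.pos (nat_lit 0) (nat_lit 0)) T2.l4
  (TrL.c (I.pos (nat_lit 0) (nat_lit 0)) T4.l21
  (TrL.c (I.pos (nat_lit 0) (nat_lit 0)) T2.l5
  TrL.n)))))) (by decide +kernel)
theorem bx1_7 : BoxOK sI cl4 cl9 cl7 t4 t2 b1_7 :=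
  box_mk (TrL.c (I.pos (nat_lit 0) (nat_lit 0)) T4.l6
  (TrL.c (I.pos (nat_lit 0) (nat_lit 0)) T2.l3
  (TrL.c (I.pos (nat_lit 0) (nat_lit 0)) T4.l4
  (TrL.c (I.pos (nat_lit 0) (nat_lit 0)) T2.l4
  (TrL.c (I.pos (nat_lit 0) (nat_lit 0)) T4.l7
  (TrL.c (I.pos (nat_lit 0) (nat_lit 0)) T2.l5
  TrL.n)))))) (by decide +kernel)
theorem bx1_8 : BoxOK sI cl4 cl9 cl7 t4 t2 b1_8 :=
  box_mk (TrL.c (I.pos (nat_lit 0) (nat_lit 0)) (xa T4.l0 T4.l2)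
  (TrL.c (I.pos (nat_lit 0) (nat_lit 0)) T2.l3
  (TrL.c (I.pos (nat_lit 0) (nat_lit 0)) T4.l3
  (TrL.c (I.pos (nat_lit 0) (nat_lit 0)) (xa T2.l4 T2.l4)
  (TrL.c (I.pos (nat_lit 0) (nat_lit 0)) T4.l1
  (TrL.c (I.pos (nat_lit 0) (nat_lit 0)) T2.l5
  TrL.n)))))) (by decide +kernel)
theorem bx1_9 : BoxOK sI cl4 cl9 cl7 t4 t2 b1_9 :=
  box_mk (TrL.c (I.pos (nat_lit 0) (nat_lit 0)) (xa (xb (xa T4.l14 T4.l14) (xa T4.l8 T4.l8)) T4.l0)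
  (TrL.c (I.pos (nat_lit 0) (nat_lit 0)) T2.l3
  (TrL.c (I.pos (nat_lit 0) (nat_lit 0)) T4.l4
  (TrL.c (I.pos (nat_lit 0) (nat_lit 0)) T2.l4
  (TrL.c (I.pos (nat_lit 0) (nat_lit 0)) (xa T4.l15 T4.l1)
  (TrL.c (I.pos (nat_lit 0) (nat_lit 0)) T2.l5
  TrL.n)))))) (by decide +kernel)
theorem bx1_10 : BoxOK sI cl4 cl9 cl7 t4 t2 b1_10 :=
  box_mk (TrL.c (I.pos (nat_lit 0) (nat_lit 0)) (xa (xa (xb (xa (xb T4.l16 T4.l20) T4.l20) T4.l20) T4.l20) T4.l20)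
  (TrL.c (I.pos (nat_lit 0) (nat_lit 0)) (xa T2.l3 T2.l3)
  (TrL.c (I.pos (nat_lit 0) (nat_lit 0)) T4.l4
  (TrL.c (I.pos (nat_lit 0) (nat_lit 0)) (xa T2.l4 T2.l4)
  (TrL.c (I.pos (nat_lit 0) (nat_lit 0)) (xa T4.l17 T4.l21)
  (TrL.c (I.pos (nat_lit 0) (nat_lit 0)) (xa T2.l5 T2.l5)
  TrL.n)))))) (by decide +kernel)
theorem bx1_11 : BoxOK sI cl4 cl9 cl7 t4 t2 b1_11 :=
  box_mk (TrL.c (I.pos (nat_lit 0) (nat_lit 0)) (xb (xa (xb (xa T4.l18 T4.l18) (xa T4.l18 T4.l18)) (xb (xa T4.l18 T4.l18) (xa T4.l18 T4.l18))) (xa (xb (xa T4.l18 T4.l18) (xa (xb T4.l18 T4.l18) (xs T4.l18 T4.l18))) (xb (xa T4.l18 T4.l18) (xa (xs T4.l18 T4.l18) (xs T4.l18 T4.l18)))))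
  (TrL.c (I.pos (nat_lit 0) (nat_lit 0)) (xb (xa T2.l3 T2.l3) (xa T2.l3 T2.l3))
  (TrL.c (I.pos (nat_lit 0) (nat_lit 0)) (xb T4.l4 T4.l4)
  (TrL.c (I.pos (nat_lit 0) (nat_lit 0)) (xb (xa T2.l4 T2.l4) (xa T2.l4 (xb T2.l4 T2.l4)))
  (TrL.c (I.pos (nat_lit 0) (nat_lit 0)) (xb T4.l19 T4.l19)
  (TrL.c (I.pos (nat_lit 0) (nat_lit 0)) (xb (xa T2.l5 T2.l5) (xa T2.l5 T2.l5))
  TrL.n)))))) (by decide +kernel)
theorem bx1_12 : BoxOK sI cl4 cl9 cl7 t4 t2 b1_12 :=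
  box_mk (TrL.c (I.pos (nat_lit 0) (nat_lit 0)) (xa (xa (xb (xa (xb (xa T4.l20 T4.l20) T4.l20) T4.l20) (xa (xb T4.l20 (xa T4.l20 T4.l20)) (xb T4.l20 T4.l20))) (xb T4.l20 (xa T4.l20 T4.l20))) (xa (xb T4.l20 T4.l20) (xb (xa T4.l20 T4.l8) (xa T4.l20 T4.l20))))
  (TrL.c (I.pos (nat_lit 0) (nat_lit 0)) (xa T2.l3 T2.l3)
  (TrL.c (I.pos (nat_lit 0) (nat_lit 0)) (xa T4.l4 T4.l4)
  (TrL.c (I.pos (nat_lit 0) (nat_lit 0)) (xa T2.l4 T2.l4)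
  (TrL.c (I.pos (nat_lit 0) (nat_lit 0)) (xa T4.l21 (xa T4.l21 T4.l21))
  (TrL.c (I.pos (nat_lit 0) (nat_lit 0)) (xa T2.l5 T2.l5)
  TrL.n)))))) (by decide +kernel)
theorem bx1_13 : BoxOK sI cl4 cl9 cl7 t4 t2 b1_13 :=
  box_mk (TrL.c (I.pos (nat_lit 0) (nat_lit 0)) T4.l0
  (TrL.c (I.pos (nat_lit 0) (nat_lit 0)) T2.l3
  (TrL.c (I.pos (nat_lit 0) (nat_lit 0)) T4.l4
  (TrL.c (I.pos (nat_lit 0) (nat_lit 0)) T2.l4
  (TrL.c (I.pos (nat_lit 0) (nat_lit 0)) T4.l19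
  (TrL.c (I.pos (nat_lit 0) (nat_lit 0)) T2.l5
  TrL.n)))))) (by decide +kernel)
theorem bx1_14 : BoxOK sI cl4 cl9 cl7 t4 t2 b1_14 :=
  box_mk (TrL.c (I.pos (nat_lit 0) (nat_lit 0)) T4.l0
  (TrL.c (I.pos (nat_lit 0) (nat_lit 0)) T2.l3
  (TrL.c (I.pos (nat_lit 0) (nat_lit 0)) T4.l4
  (TrL.c (I.pos (nat_lit 0) (nat_lit 0)) T2.l4
  (TrL.c (I.pos (nat_lit 0) (nat_lit 0)) T4.l19
  (TrL.c (I.pos (nat_lit 0) (nat_lit 0)) T2.l5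
  TrL.n)))))) (by decide +kernel)
theorem bx1_15 : BoxOK sI cl4 cl9 cl7 t4 t2 b1_15 :=
  box_mk (TrL.c (I.pos (nat_lit 0) (nat_lit 0)) (xb (xa T4.l18 T4.l18) (xa (xb T4.l18 T4.l18) (xa T4.l18 T4.l18)))
  (TrL.c (I.pos (nat_lit 0) (nat_lit 0)) T2.l3
  (TrL.c (I.pos (nat_lit 0) (nat_lit 0)) T4.l3
  (TrL.c (I.pos (nat_lit 0) (nat_lit 0)) (xb (xa T2.l4 T2.l4) T2.l4)
  (TrL.c (I.pos (nat_lit 0) (nat_lit 0)) T4.l1
  (TrL.c (I.pos (nat_lit 0) (nat_lit 0)) T2.l5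
  TrL.n)))))) (by decide +kernel)
theorem bx1_16 : BoxOK sI cl4 cl9 cl7 t4 t2 b1_16 :=
  box_mk (TrL.c (I.pos (nat_lit 0) (nat_lit 0)) T4.l0
  (TrL.c (I.pos (nat_lit 0) (nat_lit 0)) T2.l3
  (TrL.c (I.pos (nat_lit 0) (nat_lit 0)) T4.l4
  (TrL.c (I.pos (nat_lit 0) (nat_lit 0)) T2.l4
  (TrL.c (I.pos (nat_lit 0) (nat_lit 0)) T4.l19
  (TrL.c (I.pos (nat_lit 0) (nat_lit 0)) T2.l5
  TrL.n)))))) (by decide +kernel)
theorem bx1_17 : BoxOK sI cl4 cl9 cl7 t4 t2 b1_17 :=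
  box_mk (TrL.c (I.pos (nat_lit 0) (nat_lit 0)) T4.l0
  (TrL.c (I.pos (nat_lit 0) (nat_lit 0)) T2.l3
  (TrL.c (I.pos (nat_lit 0) (nat_lit 0)) T4.l4
  (TrL.c (I.pos (nat_lit 0) (nat_lit 0)) T2.l4
  (TrL.c (I.pos (nat_lit 0) (nat_lit 0)) T4.l19
  (TrL.c (I.pos (nat_lit 0) (nat_lit 0)) T2.l5
  TrL.n)))))) (by decide +kernel)
theorem bx1_18 : BoxOK sI cl4 cl9 cl7 t4 t2 b1_18 :=
  box_mk (TrL.c (I.pos (nat_lit 0) (nat_lit 0)) T4.l0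
  (TrL.c (I.pos (nat_lit 0) (nat_lit 0)) T2.l3
  (TrL.c (I.pos (nat_lit 0) (nat_lit 0)) T4.l4
  (TrL.c (I.pos (nat_lit 0) (nat_lit 0)) T2.l4
  (TrL.c (I.pos (nat_lit 0) (nat_lit 0)) T4.l19
  (TrL.c (I.pos (nat_lit 0) (nat_lit 0)) T2.l5
  TrL.n)))))) (by decide +kernel)
theorem bx1_19 : BoxOK sI cl4 cl9 cl7 t4 t2 b1_19 :=
  box_mk (TrL.c (I.pos (nat_lit 0) (nat_lit 0)) T4.l0
  (TrL.c (I.pos (nat_lit 0) (nat_lit 0)) T2.l3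
  (TrL.c (I.pos (nat_lit 0) (nat_lit 0)) T4.l4
  (TrL.c (I.pos (nat_lit 0) (nat_lit 0)) T2.l4
  (TrL.c (I.pos (nat_lit 0) (nat_lit 0)) T4.l1
  (TrL.c (I.pos (nat_lit 0) (nat_lit 0)) T2.l5
  TrL.n)))))) (by decide +kernel)
theorem bx1_20 : BoxOK sI cl4 cl9 cl7 t4 t2 b1_20 :=
  box_mk (TrL.c (I.pos (nat_lit 0) (nat_lit 0)) T4.l0
  (TrL.c (I.pos (nat_lit 0) (nat_lit 0)) T2.l3
  (TrL.c (I.pos (nat_lit 0) (nat_lit 0)) T4.l4
  (TrL.c (I.pos (nat_lit 0) (nat_lit 0)) T2.l4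
  (TrL.c (I.pos (nat_lit 0) (nat_lit 0)) T4.l19
  (TrL.c (I.pos (nat_lit 0) (nat_lit 0)) T2.l5
  TrL.n)))))) (by decide +kernel)
theorem sv1 : StarV sI cl4 cl9 cl7 t4 t2 t1 :=
  (bt_n (bt_n (bt_n (bt_n (bt_b bx1_0) (bt_b bx1_1)) (bt_n (bt_b bx1_2) (bt_n (bt_b bx1_3) (bt_b bx1_4)))) (bt_n (bt_n (bt_b bx1_5) (bt_b bx1_6)) (bt_n (bt_b bx1_7) (bt_n (bt_b bx1_8) (bt_b bx1_9))))) (bt_n (bt_n (bt_n (bt_b bx1_10) (bt_b bx1_11)) (bt_n (bt_b bx1_12) (bt_n (bt_b bx1_13) (bt_b bx1_14)))) (bt_n (bt_n (bt_b bx1_15) (bt_n (bt_b bx1_16) (bt_b bx1_17))) (bt_n (bt_b bx1_18) (bt_n (bt_b bx1_19) (bt_b bx1_20))))))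
def S1 : StarD := StarD.mk cl4 cl9 cl7 4 2 t1
theorem bx2_0 : BoxOK sI cl7 cl4 cl9 t0 t5 b2_0 :=
  box_mk (TrL.c (I.pos (nat_lit 0) (nat_lit 0)) (xb (xa T0.l8 T0.l0) (xa (xb T0.l8 (xa T0.l8 T0.l0)) (xa (xb T0.l0 T0.l0) (xb T0.l0 T0.l0))))
  (TrL.c (I.pos (nat_lit 0) (nat_lit 0)) (xb T5.l1 (xa T5.l1 T5.l1))
  (TrL.c (I.pos (nat_lit 0) (nat_lit 111196574)) (xR T0.l1 T0.l1)
  (TrL.c (I.pos (nat_lit 0) (nat_lit 77433728)) (xR T5.l2 (xR T5.l2 T5.l2))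
  (TrL.c (I.pos (nat_lit 0) (nat_lit 0)) (xb (xa T5.l9 (xk T5.l3 T5.l3)) (xa (xk T5.l3 T5.l3) (xk T5.l3 T5.l3)))
  (TrL.c (I.pos (nat_lit 0) (nat_lit 0)) T0.l2
  (TrL.c (I.mix (nat_lit 29511666) (nat_lit 77433728)) (xR T5.l4 (xR T5.l4 T5.l4))
  (TrL.c (I.mix (nat_lit 29511666) (nat_lit 46070178)) (xR T0.l3 T0.l10)
  TrL.n)))))))) (by decide +kernel)
theorem bx2_1 : BoxOK sI cl7 cl4 cl9 t0 t5 b2_1 :=
  box_mk (TrL.c (I.pos (nat_lit 0) (nat_lit 0)) (xb T5.l5 T5.l5)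
  (TrL.c (I.pos (nat_lit 0) (nat_lit 0)) T0.l4
  (TrL.c (I.mix (nat_lit 29511666) (nat_lit 77433728)) (xR T5.l6 T5.l4)
  (TrL.c (I.mix (nat_lit 29511666) (nat_lit 46070178)) T0.l12
  TrL.n)))) (by decide +kernel)
theorem bx2_2 : BoxOK sI cl7 cl4 cl9 t0 t5 b2_2 :=
  box_mk (TrL.c (I.pos (nat_lit 0) (nat_lit 0)) (xb (xa T0.l6 T0.l7) T0.l7)
  (TrL.c (I.pos (nat_lit 0) (nat_lit 0)) T5.l1
  (TrL.c (I.pos (nat_lit 0) (nat_lit 111196574)) T0.l1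
  (TrL.c (I.pos (nat_lit 0) (nat_lit 77433728)) T5.l4
  (TrL.c (I.pos (nat_lit 0) (nat_lit 0)) T5.l8
  (TrL.c (I.pos (nat_lit 0) (nat_lit 0)) T0.l2
  (TrL.c (I.mix (nat_lit 29511666) (nat_lit 77433728)) T5.l4
  (TrL.c (I.mix (nat_lit 29511666) (nat_lit 46070178)) T0.l3
  TrL.n)))))))) (by decide +kernel)
theorem bx2_3 : BoxOK sI cl7 cl4 cl9 t0 t5 b2_3 :=
  box_mk (TrL.c (I.pos (nat_lit 0) (nat_lit 0)) (xa (xb (xa (xb T0.l7 T0.l7) T0.l7) (xa T0.l7 T0.l7)) (xb T0.l7 T0.l7))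
  (TrL.c (I.pos (nat_lit 0) (nat_lit 0)) (xa T5.l1 T5.l1)
  (TrL.c (I.pos (nat_lit 0) (nat_lit 111196574)) (xR T0.l1 (xR T0.l1 T0.l1))
  (TrL.c (I.pos (nat_lit 0) (nat_lit 77433728)) (xR T5.l2 (xR T5.l2 T5.l6))
  (TrL.c (I.pos (nat_lit 0) (nat_lit 0)) (xa (xb T5.l8 T5.l8) (xb T5.l8 T5.l8))
  (TrL.c (I.pos (nat_lit 0) (nat_lit 0)) T0.l2
  (TrL.c (I.mix (nat_lit 29511666) (nat_lit 77433728)) (xR T5.l4 T5.l4)
  (TrL.c (I.mix (nat_lit 29511666) (nat_lit 46070178)) T0.l10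
  TrL.n)))))))) (by decide +kernel)
theorem bx2_4 : BoxOK sI cl7 cl4 cl9 t0 t5 b2_4 :=
  box_mk (TrL.c (I.pos (nat_lit 0) (nat_lit 0)) (xb (xa (xb (xa T0.l8 T0.l8) (xa T0.l8 T0.l8)) (xb T0.l8 T0.l8)) (xa (xb (xa T0.l8 T0.l8) (xa (xb T0.l8 (xa T0.l8 T0.l8)) (xb T0.l8 T0.l8))) (xa (xb T0.l8 (xb T0.l8 T0.l8)) (xb T0.l8 (xb T0.l8 T0.l8)))))
  (TrL.c (I.pos (nat_lit 0) (nat_lit 0)) (xb (xa T5.l1 T5.l1) (xa (xk T5.l1 T5.l1) (xk T5.l1 T5.l1)))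
  (TrL.c (I.pos (nat_lit 0) (nat_lit 111196574)) (xR T0.l1 (xR T0.l1 T0.l1))
  (TrL.c (I.pos (nat_lit 0) (nat_lit 77433728)) (xR T5.l2 (xR T5.l2 T5.l2))
  (TrL.c (I.pos (nat_lit 0) (nat_lit 0)) (xb (xa (xb T5.l9 T5.l9) (xk (xb T5.l9 T5.l9) (xb T5.l9 T5.l9))) (xa (xk (xb T5.l9 T5.l9) (xb T5.l9 T5.l3)) (xk (xb T5.l9 (xb T5.l3 T5.l3)) (xb (xb T5.l9 T5.l3) (xb T5.l3 (xs T5.l3 T5.l3))))))
  (TrL.c (I.pos (nat_lit 0) (nat_lit 0)) (xb T0.l2 T0.l2)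
  (TrL.c (I.mix (nat_lit 29511666) (nat_lit 77433728)) (xR T5.l4 (xR T5.l4 T5.l4))
  (TrL.c (I.mix (nat_lit 29511666) (nat_lit 46070178)) (xR T0.l3 T0.l10)
  TrL.n)))))))) (by decide +kernel)
theorem bx2_5 : BoxOK sI cl7 cl4 cl9 t0 t5 b2_5 :=
  box_mk (TrL.c (I.pos (nat_lit 0) (nat_lit 0)) (xa T5.l1 T5.l1)
  (TrL.c (I.pos (nat_lit 0) (nat_lit 0)) T0.l1
  (TrL.c (I.mix (nat_lit 29511666) (nat_lit 77433728)) (xR T5.l6 (xR T5.l6 T5.l6))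
  (TrL.c (I.mix (nat_lit 29511666) (nat_lit 46070178)) (xR T0.l12 T0.l1)
  TrL.n)))) (by decide +kernel)
theorem bx2_6 : BoxOK sI cl7 cl4 cl9 t0 t5 b2_6 :=
  box_mk (TrL.c (I.pos (nat_lit 0) (nat_lit 0)) (xa (xb T0.l0 T0.l0) (xb T0.l0 T0.l0))
  (TrL.c (I.pos (nat_lit 0) (nat_lit 0)) (xa T5.l1 (xb T5.l1 (xk T5.l1 T5.l1)))
  (TrL.c (I.pos (nat_lit 0) (nat_lit 111196574)) (xR T0.l1 T0.l12)
  (TrL.c (I.pos (nat_lit 0) (nat_lit 77433728)) (xR T5.l2 T5.l2)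
  (TrL.c (I.pos (nat_lit 0) (nat_lit 0)) (xa (xb (xk T5.l3 T5.l3) (xk T5.l3 T5.l3)) (xb (xk (xb T5.l3 T5.l3) (xb T5.l0 T5.l3)) (xk (xb (xa T5.l3 T5.l3) (xa T5.l3 T5.l3)) (xb T5.l3 T5.l3))))
  (TrL.c (I.pos (nat_lit 0) (nat_lit 0)) (xk (xb T0.l2 T0.l2) T0.l2)
  (TrL.c (I.mix (nat_lit 29511666) (nat_lit 77433728)) (xR T5.l4 (xR T5.l4 T5.l4))
  (TrL.c (I.mix (nat_lit 29511666) (nat_lit 46070178)) T0.l10
  TrL.n)))))))) (by decide +kernel)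
theorem bx2_7 : BoxOK sI cl7 cl4 cl9 t0 t5 b2_7 :=
  box_mk (TrL.c (I.pos (nat_lit 0) (nat_lit 0)) (xb T0.l6 T0.l6)
  (TrL.c (I.pos (nat_lit 0) (nat_lit 0)) T5.l5
  (TrL.c (I.pos (nat_lit 0) (nat_lit 111196574)) T0.l1
  (TrL.c (I.pos (nat_lit 0) (nat_lit 77433728)) T5.l4
  (TrL.c (I.pos (nat_lit 0) (nat_lit 0)) T5.l7
  (TrL.c (I.pos (nat_lit 0) (nat_lit 0)) T0.l2
  (TrL.c (I.mix (nat_lit 29511666) (nat_lit 77433728)) T5.l4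
  (TrL.c (I.mix (nat_lit 29511666) (nat_lit 46070178)) T0.l3
  TrL.n)))))))) (by decide +kernel)
theorem bx2_8 : BoxOK sI cl7 cl4 cl9 t0 t5 b2_8 :=
  box_mk (TrL.c (I.pos (nat_lit 0) (nat_lit 0)) T0.l0
  (TrL.c (I.pos (nat_lit 0) (nat_lit 0)) T5.l1
  (TrL.c (I.pos (nat_lit 0) (nat_lit 111196574)) (xR T0.l1 T0.l1)
  (TrL.c (I.pos (nat_lit 0) (nat_lit 77433728)) (xR T5.l2 T5.l2)
  (TrL.c (I.pos (nat_lit 0) (nat_lit 0)) T5.l3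
  (TrL.c (I.pos (nat_lit 0) (nat_lit 0)) T0.l2
  (TrL.c (I.mix (nat_lit 29511666) (nat_lit 77433728)) T5.l4
  (TrL.c (I.mix (nat_lit 29511666) (nat_lit 46070178)) T0.l3
  TrL.n)))))))) (by decide +kernel)
theorem bx2_9 : BoxOK sI cl7 cl4 cl9 t0 t5 b2_9 :=
  box_mk (TrL.c (I.pos (nat_lit 0) (nat_lit 0)) T0.l6
  (TrL.c (I.pos (nat_lit 0) (nat_lit 0)) T5.l1
  (TrL.c (I.pos (nat_lit 0) (nat_lit 111196574)) T0.l1
  (TrL.c (I.pos (nat_lit 0) (nat_lit 77433728)) T5.l2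
  (TrL.c (I.pos (nat_lit 0) (nat_lit 0)) T5.l7
  (TrL.c (I.pos (nat_lit 0) (nat_lit 0)) T0.l2
  (TrL.c (I.mix (nat_lit 29511666) (nat_lit 77433728)) T5.l4
  (TrL.c (I.mix (nat_lit 29511666) (nat_lit 46070178)) T0.l3
  TrL.n)))))))) (by decide +kernel)
theorem bx2_10 : BoxOK sI cl7 cl4 cl9 t0 t5 b2_10 :=
  box_mk (TrL.c (I.pos (nat_lit 0) (nat_lit 0)) T0.l0
  (TrL.c (I.pos (nat_lit 0) (nat_lit 0)) T5.l1
  (TrL.c (I.pos (nat_lit 0) (nat_lit 111196574)) (xR T0.l1 T0.l1)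
  (TrL.c (I.pos (nat_lit 0) (nat_lit 77433728)) (xR T5.l2 T5.l2)
  (TrL.c (I.pos (nat_lit 0) (nat_lit 0)) (xk T5.l0 T5.l0)
  (TrL.c (I.pos (nat_lit 0) (nat_lit 0)) T0.l2
  (TrL.c (I.mix (nat_lit 29511666) (nat_lit 77433728)) (xR T5.l4 T5.l4)
  (TrL.c (I.mix (nat_lit 29511666) (nat_lit 46070178)) T0.l3
  TrL.n)))))))) (by decide +kernel)
theorem bx2_11 : BoxOK sI cl7 cl4 cl9 t0 t5 b2_11 :=
  box_mk (TrL.c (I.pos (nat_lit 0) (nat_lit 0)) T0.l6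
  (TrL.c (I.pos (nat_lit 0) (nat_lit 0)) T5.l5
  (TrL.c (I.pos (nat_lit 0) (nat_lit 111196574)) T0.l1
  (TrL.c (I.pos (nat_lit 0) (nat_lit 77433728)) T5.l2
  (TrL.c (I.pos (nat_lit 0) (nat_lit 0)) T5.l7
  (TrL.c (I.pos (nat_lit 0) (nat_lit 0)) T0.l2
  (TrL.c (I.mix (nat_lit 29511666) (nat_lit 77433728)) T5.l4
  (TrL.c (I.mix (nat_lit 29511666) (nat_lit 46070178)) T0.l3
  TrL.n)))))))) (by decide +kernel)
theorem bx2_12 : BoxOK sI cl7 cl4 cl9 t0 t5 b2_12 :=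
  box_mk (TrL.c (I.pos (nat_lit 0) (nat_lit 0)) T0.l0
  (TrL.c (I.pos (nat_lit 0) (nat_lit 0)) T5.l1
  (TrL.c (I.pos (nat_lit 0) (nat_lit 111196574)) (xR T0.l1 T0.l1)
  (TrL.c (I.pos (nat_lit 0) (nat_lit 77433728)) (xR T5.l2 T5.l2)
  (TrL.c (I.pos (nat_lit 0) (nat_lit 0)) (xk T5.l3 T5.l3)
  (TrL.c (I.pos (nat_lit 0) (nat_lit 0)) T0.l2
  (TrL.c (I.mix (nat_lit 29511666) (nat_lit 77433728)) (xR T5.l4 T5.l4)
  (TrL.c (I.mix (nat_lit 29511666) (nat_lit 46070178)) T0.l3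
  TrL.n)))))))) (by decide +kernel)
theorem bx2_13 : BoxOK sI cl7 cl4 cl9 t0 t5 b2_13 :=
  box_mk (TrL.c (I.pos (nat_lit 0) (nat_lit 0)) T0.l6
  (TrL.c (I.pos (nat_lit 0) (nat_lit 0)) T5.l5
  (TrL.c (I.pos (nat_lit 0) (nat_lit 111196574)) T0.l1
  (TrL.c (I.pos (nat_lit 0) (nat_lit 77433728)) T5.l2
  (TrL.c (I.pos (nat_lit 0) (nat_lit 0)) T5.l7
  (TrL.c (I.pos (nat_lit 0) (nat_lit 0)) T0.l2
  (TrL.c (I.mix (nat_lit 29511666) (nat_lit 77433728)) T5.l4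
  (TrL.c (I.mix (nat_lit 29511666) (nat_lit 46070178)) T0.l3
  TrL.n)))))))) (by decide +kernel)
theorem bx2_14 : BoxOK sI cl7 cl4 cl9 t0 t5 b2_14 :=
  box_mk (TrL.c (I.pos (nat_lit 0) (nat_lit 0)) T0.l0
  (TrL.c (I.pos (nat_lit 0) (nat_lit 0)) T5.l1
  (TrL.c (I.pos (nat_lit 0) (nat_lit 111196574)) (xR T0.l1 T0.l1)
  (TrL.c (I.pos (nat_lit 0) (nat_lit 77433728)) T5.l2
  (TrL.c (I.pos (nat_lit 0) (nat_lit 0)) T5.l3
  (TrL.c (I.pos (nat_lit 0) (nat_lit 0)) T0.l2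
  (TrL.c (I.mix (nat_lit 29511666) (nat_lit 77433728)) T5.l4
  (TrL.c (I.mix (nat_lit 29511666) (nat_lit 46070178)) T0.l3
  TrL.n)))))))) (by decide +kernel)
theorem bx2_15 : BoxOK sI cl7 cl4 cl9 t0 t5 b2_15 :=
  box_mk (TrL.c (I.pos (nat_lit 0) (nat_lit 0)) T0.l7
  (TrL.c (I.pos (nat_lit 0) (nat_lit 0)) T5.l1
  (TrL.c (I.pos (nat_lit 0) (nat_lit 111196574)) T0.l1
  (TrL.c (I.pos (nat_lit 0) (nat_lit 77433728)) T5.l2
  (TrL.c (I.pos (nat_lit 0) (nat_lit 0)) T5.l7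
  (TrL.c (I.pos (nat_lit 0) (nat_lit 0)) T0.l2
  (TrL.c (I.mix (nat_lit 29511666) (nat_lit 77433728)) T5.l4
  (TrL.c (I.mix (nat_lit 29511666) (nat_lit 46070178)) T0.l3
  TrL.n)))))))) (by decide +kernel)
theorem bx2_16 : BoxOK sI cl7 cl4 cl9 t0 t5 b2_16 :=
  box_mk (TrL.c (I.pos (nat_lit 0) (nat_lit 0)) (xa (xb T0.l0 (xa T0.l0 T0.l0)) (xb T0.l0 (xa T0.l0 T0.l0)))
  (TrL.c (I.pos (nat_lit 0) (nat_lit 0)) (xa (xb T5.l1 T5.l1) (xb T5.l11 (xk T5.l1 T5.l1)))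
  (TrL.c (I.pos (nat_lit 0) (nat_lit 111196574)) (xR T0.l1 (xR T0.l1 T0.l12))
  (TrL.c (I.pos (nat_lit 0) (nat_lit 77433728)) (xR T5.l2 (xR T5.l2 T5.l2))
  (TrL.c (I.pos (nat_lit 0) (nat_lit 0)) (xb (xa (xk T5.l0 (xb T5.l0 T5.l3)) (xk (xb (xa T5.l0 (xk T5.l0 T5.l0)) (xa T5.l3 (xk T5.l3 T5.l3))) (xb (xa T5.l0 (xk T5.l0 T5.l0)) (xa T5.l3 T5.l3)))) (xa (xk T5.l3 T5.l3) (xk (xb (xa T5.l3 (xk T5.l3 T5.l3)) (xa T5.l3 (xk T5.l3 T5.l3))) (xb (xa T5.l3 (xk T5.l3 T5.l3)) (xa T5.l3 (xk T5.l3 T5.l3))))))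
  (TrL.c (I.pos (nat_lit 0) (nat_lit 0)) (xk (xb T0.l2 T0.l2) (xb T0.l2 T0.l2))
  (TrL.c (I.mix (nat_lit 29511666) (nat_lit 77433728)) (xR T5.l4 (xR T5.l4 T5.l4))
  (TrL.c (I.mix (nat_lit 29511666) (nat_lit 46070178)) T0.l10
  TrL.n)))))))) (by decide +kernel)
theorem bx2_17 : BoxOK sI cl7 cl4 cl9 t0 t5 b2_17 :=
  box_mk (TrL.c (I.pos (nat_lit 0) (nat_lit 0)) (xb (xa T0.l6 T0.l6) (xa T0.l6 T0.l6))
  (TrL.c (I.pos (nat_lit 0) (nat_lit 0)) T5.l5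
  (TrL.c (I.pos (nat_lit 0) (nat_lit 111196574)) T0.l1
  (TrL.c (I.pos (nat_lit 0) (nat_lit 77433728)) T5.l4
  (TrL.c (I.pos (nat_lit 0) (nat_lit 0)) T5.l7
  (TrL.c (I.pos (nat_lit 0) (nat_lit 0)) T0.l2
  (TrL.c (I.mix (nat_lit 29511666) (nat_lit 77433728)) T5.l4
  (TrL.c (I.mix (nat_lit 29511666) (nat_lit 46070178)) T0.l3
  TrL.n)))))))) (by decide +kernel)
theorem bx2_18 : BoxOK sI cl7 cl4 cl9 t0 t5 b2_18 :=
  box_mk (TrL.c (I.pos (nat_lit 0) (nat_lit 0)) T0.l0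
  (TrL.c (I.pos (nat_lit 0) (nat_lit 0)) T5.l1
  (TrL.c (I.pos (nat_lit 0) (nat_lit 111196574)) (xR T0.l1 T0.l1)
  (TrL.c (I.pos (nat_lit 0) (nat_lit 77433728)) T5.l2
  (TrL.c (I.pos (nat_lit 0) (nat_lit 0)) T5.l3
  (TrL.c (I.pos (nat_lit 0) (nat_lit 0)) T0.l2
  (TrL.c (I.mix (nat_lit 29511666) (nat_lit 77433728)) T5.l4
  (TrL.c (I.mix (nat_lit 29511666) (nat_lit 46070178)) T0.l3
  TrL.n)))))))) (by decide +kernel)
theorem bx2_19 : BoxOK sI cl7 cl4 cl9 t0 t5 b2_19 :=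
  box_mk (TrL.c (I.pos (nat_lit 0) (nat_lit 0)) T0.l6
  (TrL.c (I.pos (nat_lit 0) (nat_lit 0)) T5.l1
  (TrL.c (I.pos (nat_lit 0) (nat_lit 111196574)) T0.l1
  (TrL.c (I.pos (nat_lit 0) (nat_lit 77433728)) T5.l2
  (TrL.c (I.pos (nat_lit 0) (nat_lit 0)) T5.l7
  (TrL.c (I.pos (nat_lit 0) (nat_lit 0)) T0.l2
  (TrL.c (I.mix (nat_lit 29511666) (nat_lit 77433728)) T5.l4
  (TrL.c (I.mix (nat_lit 29511666) (nat_lit 46070178)) T0.l3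
  TrL.n)))))))) (by decide +kernel)
theorem bx2_20 : BoxOK sI cl7 cl4 cl9 t0 t5 b2_20 :=
  box_mk (TrL.c (I.pos (nat_lit 0) (nat_lit 0)) T0.l0
  (TrL.c (I.pos (nat_lit 0) (nat_lit 0)) T5.l1
  (TrL.c (I.pos (nat_lit 0) (nat_lit 111196574)) (xR T0.l1 T0.l1)
  (TrL.c (I.pos (nat_lit 0) (nat_lit 77433728)) (xR T5.l2 T5.l2)
  (TrL.c (I.pos (nat_lit 0) (nat_lit 0)) (xk T5.l0 T5.l0)
  (TrL.c (I.pos (nat_lit 0) (nat_lit 0)) T0.l2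
  (TrL.c (I.mix (nat_lit 29511666) (nat_lit 77433728)) (xR T5.l4 T5.l4)
  (TrL.c (I.mix (nat_lit 29511666) (nat_lit 46070178)) T0.l3
  TrL.n)))))))) (by decide +kernel)
theorem bx2_21 : BoxOK sI cl7 cl4 cl9 t0 t5 b2_21 :=
  box_mk (TrL.c (I.pos (nat_lit 0) (nat_lit 0)) (xb T0.l6 T0.l6)
  (TrL.c (I.pos (nat_lit 0) (nat_lit 0)) T5.l5
  (TrL.c (I.pos (nat_lit 0) (nat_lit 111196574)) T0.l1
  (TrL.c (I.pos (nat_lit 0) (nat_lit 77433728)) T5.l2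
  (TrL.c (I.pos (nat_lit 0) (nat_lit 0)) T5.l7
  (TrL.c (I.pos (nat_lit 0) (nat_lit 0)) T0.l2
  (TrL.c (I.mix (nat_lit 29511666) (nat_lit 77433728)) T5.l4
  (TrL.c (I.mix (nat_lit 29511666) (nat_lit 46070178)) T0.l3
  TrL.n)))))))) (by decide +kernel)
theorem bx2_22 : BoxOK sI cl7 cl4 cl9 t0 t5 b2_22 :=
  box_mk (TrL.c (I.pos (nat_lit 0) (nat_lit 0)) (xa (xb T0.l0 (xb T0.l0 T0.l0)) (xb T0.l0 (xa T0.l0 T0.l0)))
  (TrL.c (I.pos (nat_lit 0) (nat_lit 0)) (xk T5.l1 T5.l1)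
  (TrL.c (I.pos (nat_lit 0) (nat_lit 111196574)) (xR T0.l1 T0.l1)
  (TrL.c (I.pos (nat_lit 0) (nat_lit 77433728)) (xR T5.l2 (xR T5.l2 T5.l2))
  (TrL.c (I.pos (nat_lit 0) (nat_lit 0)) (xk (xb T5.l3 T5.l3) (xb T5.l3 T5.l3))
  (TrL.c (I.pos (nat_lit 0) (nat_lit 0)) T0.l2
  (TrL.c (I.mix (nat_lit 29511666) (nat_lit 77433728)) (xR T5.l4 T5.l4)
  (TrL.c (I.mix (nat_lit 29511666) (nat_lit 46070178)) T0.l10
  TrL.n)))))))) (by decide +kernel)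
theorem bx2_23 : BoxOK sI cl7 cl4 cl9 t0 t5 b2_23 :=
  box_mk (TrL.c (I.pos (nat_lit 0) (nat_lit 0)) (xb T0.l7 T0.l7)
  (TrL.c (I.pos (nat_lit 0) (nat_lit 0)) T5.l1
  (TrL.c (I.pos (nat_lit 0) (nat_lit 111196574)) T0.l1
  (TrL.c (I.pos (nat_lit 0) (nat_lit 77433728)) T5.l4
  (TrL.c (I.pos (nat_lit 0) (nat_lit 0)) T5.l8
  (TrL.c (I.pos (nat_lit 0) (nat_lit 0)) T0.l2
  (TrL.c (I.mix (nat_lit 29511666) (nat_lit 77433728)) T5.l4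
  (TrL.c (I.mix (nat_lit 29511666) (nat_lit 46070178)) T0.l3
  TrL.n)))))))) (by decide +kernel)
theorem sv2 : StarV sI cl7 cl4 cl9 t0 t5 t2 :=
  (bt_n (bt_n (bt_n (bt_n (bt_b bx2_0) (bt_n (bt_b bx2_1) (bt_b bx2_2))) (bt_n (bt_b bx2_3) (bt_n (bt_b bx2_4) (bt_b bx2_5)))) (bt_n (bt_n (bt_b bx2_6) (bt_n (bt_b bx2_7) (bt_b bx2_8))) (bt_n (bt_b bx2_9) (bt_n (bt_b bx2_10) (bt_b bx2_11))))) (bt_n (bt_n (bt_n (bt_b bx2_12) (bt_n (bt_b bx2_13) (bt_b bx2_14))) (bt_n (bt_b bx2_15) (bt_n (bt_b bx2_16) (bt_b bx2_17)))) (bt_n (bt_n (bt_b bx2_18) (bt_n (bt_b bx2_19) (bt_b bx2_20))) (bt_n (bt_b bx2_21) (bt_n (bt_b bx2_22) (bt_b bx2_23))))))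
def S2 : StarD := StarD.mk cl7 cl4 cl9 0 5 t2
def rc3_0_0_l : Tr := (xb (xa (xb (xs T5.l0 (xa T5.l0 T5.l0)) (xs T5.l0 (xa T5.l0 T5.l0))) (xb (xs T5.l0 (xa (xb T5.l0 T5.l0) (xb T5.l0 T5.l0))) (xs T5.l0 (xa (xb T5.l0 T5.l0) (xb T5.l0 T5.l0))))) (xa (xs T5.l0 (xb (xa T5.l0 T5.l0) (xa T5.l0 T5.l0))) (xs (xb T5.l0 T5.l0) (xb (xa T5.l0 T5.l0) (xa T5.l0 T5.l0)))))
theorem qc3_0_0_l : chkTr (tg true true false RT.r2) b3_0 t5 rc3_0_0_l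
  (upd lo Co.a (rc sI cl7 cl9 cl4 b3_0 (I.pos (nat_lit 0) (nat_lit 0)))) = true := by decide +kernel
def rc3_0_0_r : Tr := (xa (xb (xb (xs T5.l0 (xa (xb (xc T5.l0 T5.l0) T5.l0) (xb (xc T5.l0 T5.l0) (xc T5.l0 T5.l0)))) (xs (xa T5.l0 T5.l0) (xa (xb (xc T5.l0 T5.l0) (xc T5.l0 T5.l0)) (xb (xc T5.l0 (xs T5.l0 T5.l0)) (xs T5.l0 (xc T5.l0 T5.l0)))))) (xs (xb T5.l0 T5.l0) (xb (xa T5.l0 (xb T5.l0 T5.l0)) (xa T5.l0 (xb T5.l0 T5.l0))))) (xb (xb (xs T5.l0 (xa (xb (xc T5.l0 (xs T5.l0 T5.l0)) (xc T5.l0 T5.l0)) (xb (xc T5.l0 T5.l3) (xc T5.l0 (xs T5.l3 T5.l3))))) (xs (xa (xb (xs T5.l0 T5.l0) T5.l0) (xb (xs T5.l0 T5.l0) (xs T5.l0 T5.l0))) (xa (xb (xc (xs T5.l0 (xa T5.l0 T5.l3)) (xs (xk T5.l3 T5.l0) (xk T5.l3 (xa T5.l3 T5.l3)))) (xs (xc T5.l0 (xk T5.l0 T5.l0)) (xc T5.l0 (xk (xa T5.l0 T5.l3) (xa T5.l3 T5.l3))))) (xb (xc (xs T5.l0 T5.l3) (xs (xk T5.l3 T5.l3)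 (xk T5.l3 T5.l3))) (xs (xc T5.l0 (xk T5.l3 T5.l3)) (xc (xk T5.l3 T5.l3) (xk (xa T5.l3 T5.l3) T5.l3))))))) (xs (xb T5.l0 T5.l0) (xb (xa (xb T5.l0 T5.l0) (xb T5.l0 T5.l0)) (xa (xb (xs T5.l0 T5.l0) (xs T5.l0 T5.l0)) (xb (xs T5.l0 T5.l0) (xs T5.l0 T5.l0)))))))
theorem qc3_0_0_r : chkTr (tg true true false RT.r2) b3_0 t5 rc3_0_0_r
  (upd hi Co.a (rc sI cl7 cl9 cl4 b3_0 (I.pos (nat_lit 0) (nat_lit 0)))) = true := by decide +kernel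
theorem qc3_0_0_ : chkTr (tg true true false RT.r2) b3_0 t5 (Tr.N Co.a rc3_0_0_l rc3_0_0_r)
  (rc sI cl7 cl9 cl4 b3_0 (I.pos (nat_lit 0) (nat_lit 0))) = true := tr_split qc3_0_0_l qc3_0_0_r
theorem c3_0_0 : chkTag sI cl7 cl9 cl4 t5 b3_0 (tg true true false RT.r2) (I.pos (nat_lit 0) (nat_lit 0))
  (Tr.N Co.a rc3_0_0_l rc3_0_0_r) = true := tag_mk (by decide +kernel) qc3_0_0_
theorem c3_0_1 : chkTag sI cl7 cl9 cl4 t0 b3_0 (tg true false false RT.r3) (I.pos (nat_lit 0) (nat_lit 0))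
  (xa (xk (xb T0.l9 (xa T0.l9 T0.l9)) (xb T0.l9 T0.l9)) (xk (xb T0.l9 (xa T0.l9 T0.l9)) (xb T0.l9 (xa T0.l9 T0.l9)))) = true := by decide +kernel
theorem c3_0_2 : chkTag sI cl7 cl9 cl4 t5 b3_0 (Tag.mk true true false RT.tl RT.r4) (I.pos (nat_lit 0) (nat_lit 111196574))
  (xR T5.l10 (xR T5.l10 (xR T5.l10 T5.l10))) = true := by decide +kernel
theorem c3_0_3 : chkTag sI cl7 cl9 cl4 t0 b3_0 (Tag.mk true false false RT.tl RT.r5) (I.pos (nat_lit 0) (nat_lit 77433728))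
  (xR T0.l10 (xR T0.l10 T0.l10)) = true := by decide +kernel
theorem c3_0_4 : chkTag sI cl7 cl9 cl4 t0 b3_0 (tg false false false RT.r3) (I.pos (nat_lit 0) (nat_lit 0))
  (xa (xk (xb T0.l11 T0.l11) (xb T0.l11 T0.l11)) (xk (xb (xa T0.l11 T0.l11) (xa T0.l11 (xb T0.l11 (xs T0.l11 (xk T0.l11 T0.l11))))) (xb (xa T0.l11 T0.l11) (xa (xb T0.l11 T0.l11) (xb T0.l11 (xs T0.l11 (xk (xb T0.l11 T0.l11) (xb T0.l11 (xa T0.l11 T0.l11))))))))) = true := by decide +kernel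
theorem c3_0_5 : chkTag sI cl7 cl9 cl4 t5 b3_0 (tg false true false RT.r4) (I.pos (nat_lit 0) (nat_lit 0))
  (xk (xa T5.l11 T5.l11) (xa T5.l11 T5.l11)) = true := by decide +kernel
theorem c3_0_6 : chkTag sI cl7 cl9 cl4 t0 b3_0 (Tag.mk false false false RT.tl RT.r5) (I.mix (nat_lit 29511666) (nat_lit 77433728))
  (xR T0.l12 (xR T0.l12 T0.l12)) = true := by decide +kernel
theorem c3_0_7 : chkTag sI cl7 cl9 cl4 t5 b3_0 (Tag.mk false true false RT.tl RT.r6) (I.mix (nat_lit 29511666) (nat_lit 46070178))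
  (xR T5.l12 T5.l12) = true := by decide +kernel
theorem bx3_0 : BoxOK sI cl7 cl9 cl4 t5 t0 b3_0 :=
  box_mk' [(tg true true false RT.r2), (tg true false false RT.r3), (Tag.mk true true false RT.tl RT.r4), (Tag.mk true false false RT.tl RT.r5), (tg false false false RT.r3), (tg false true false RT.r4), (Tag.mk false false false RT.tl RT.r5), (Tag.mk false true false RT.tl RT.r6)] rfl (allL_c (ex_mk c3_0_0) (allL_c (ex_mk c3_0_1) (allL_c (ex_mk c3_0_2) (allL_c (ex_mk c3_0_3) (allL_c (ex_mk c3_0_4) (allL_c (ex_mk c3_0_5) (allL_c (ex_mk c3_0_6) (allL_c (ex_mk c3_0_7) allL_n))))))))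
theorem bx3_1 : BoxOK sI cl7 cl9 cl4 t5 t0 b3_1 :=
  box_mk (TrL.c (I.pos (nat_lit 0) (nat_lit 0)) (xa (xb T5.l13 T5.l19) (xb T5.l0 T5.l0))
  (TrL.c (I.pos (nat_lit 0) (nat_lit 0)) (xa T0.l9 T0.l9)
  (TrL.c (I.pos (nat_lit 0) (nat_lit 111196574)) (xR T5.l10 T5.l10)
  (TrL.c (I.pos (nat_lit 0) (nat_lit 77433728)) (xR T0.l10 T0.l10)
  (TrL.c (I.pos (nat_lit 0) (nat_lit 0)) (xa (xk T0.l13 T0.l13) (xk (xb T0.l13 T0.l13) T0.l13))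
  (TrL.c (I.pos (nat_lit 0) (nat_lit 0)) T5.l11
  (TrL.c (I.mix (nat_lit 29511666) (nat_lit 77433728)) (xR T0.l12 T0.l12)
  (TrL.c (I.mix (nat_lit 29511666) (nat_lit 46070178)) T5.l12
  TrL.n)))))))) (by decide +kernel)
theorem bx3_2 : BoxOK sI cl7 cl9 cl4 t5 t0 b3_2 :=
  box_mk (TrL.c (I.pos (nat_lit 0) (nat_lit 0)) (xa (xa (xb T5.l14 T5.l16) T5.l16) (xa T5.l16 T5.l16))
  (TrL.c (I.pos (nat_lit 0) (nat_lit 0)) (xa T0.l9 T0.l9)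
  (TrL.c (I.pos (nat_lit 0) (nat_lit 111196574)) T5.l10
  (TrL.c (I.pos (nat_lit 0) (nat_lit 77433728)) (xR T0.l10 T0.l10)
  (TrL.c (I.pos (nat_lit 0) (nat_lit 0)) (xa T0.l14 T0.l14)
  (TrL.c (I.pos (nat_lit 0) (nat_lit 0)) T5.l11
  (TrL.c (I.mix (nat_lit 29511666) (nat_lit 77433728)) T0.l12
  (TrL.c (I.mix (nat_lit 29511666) (nat_lit 46070178)) T5.l4
  TrL.n)))))))) (by decide +kernel)
theorem bx3_3 : BoxOK sI cl7 cl9 cl4 t5 t0 b3_3 :=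
  box_mk (TrL.c (I.pos (nat_lit 0) (nat_lit 0)) (xb (xa T5.l15 T5.l15) (xa (xb T5.l15 (xa T5.l15 T5.l15)) (xa T5.l15 T5.l15)))
  (TrL.c (I.pos (nat_lit 0) (nat_lit 0)) (xb (xk (xa T0.l9 T0.l9) T0.l9) (xk (xa T0.l9 T0.l9) (xa T0.l9 T0.l9)))
  (TrL.c (I.pos (nat_lit 0) (nat_lit 111196574)) (xR T5.l10 (xR T5.l10 T5.l10))
  (TrL.c (I.pos (nat_lit 0) (nat_lit 77433728)) (xR T0.l10 (xR T0.l10 T0.l10))
  (TrL.c (I.pos (nat_lit 0) (nat_lit 0)) (xb (xk (xa T0.l15 T0.l15) (xa T0.l15 T0.l15)) (xk (xa T0.l15 T0.l11) T0.l11))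
  (TrL.c (I.pos (nat_lit 0) (nat_lit 0)) T5.l11
  (TrL.c (I.mix (nat_lit 29511666) (nat_lit 77433728)) (xR T0.l12 (xR T0.l12 T0.l12))
  (TrL.c (I.mix (nat_lit 29511666) (nat_lit 46070178)) (xR T5.l12 T5.l12)
  TrL.n)))))))) (by decide +kernel)
theorem bx3_4 : BoxOK sI cl7 cl9 cl4 t5 t0 b3_4 :=
  box_mk (TrL.c (I.pos (nat_lit 0) (nat_lit 0)) (xa (xa (xb (xa T5.l16 T5.l16) (xa (xb T5.l16 T5.l16) T5.l16)) (xb T5.l16 T5.l16)) (xa (xb (xa T5.l16 T5.l16) (xa T5.l16 T5.l16)) (xb (xa T5.l16 T5.l16) (xa T5.l16 T5.l16))))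
  (TrL.c (I.pos (nat_lit 0) (nat_lit 0)) (xa (xa T0.l9 T0.l9) (xa T0.l9 (xb T0.l9 T0.l9)))
  (TrL.c (I.pos (nat_lit 0) (nat_lit 111196574)) T5.l10
  (TrL.c (I.pos (nat_lit 0) (nat_lit 77433728)) (xR T0.l10 T0.l10)
  (TrL.c (I.pos (nat_lit 0) (nat_lit 0)) (xa (xa T0.l16 T0.l16) (xa T0.l16 T0.l16))
  (TrL.c (I.pos (nat_lit 0) (nat_lit 0)) T5.l11
  (TrL.c (I.mix (nat_lit 29511666) (nat_lit 77433728)) (xR T0.l12 T0.l12)
  (TrL.c (I.mix (nat_lit 29511666) (nat_lit 46070178)) T5.l4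
  TrL.n)))))))) (by decide +kernel)
theorem bx3_5 : BoxOK sI cl7 cl9 cl4 t5 t0 b3_5 :=
  box_mk (TrL.c (I.pos (nat_lit 0) (nat_lit 0)) T5.l0
  (TrL.c (I.pos (nat_lit 0) (nat_lit 0)) T0.l9
  (TrL.c (I.pos (nat_lit 0) (nat_lit 111196574)) (xR T5.l10 T5.l10)
  (TrL.c (I.pos (nat_lit 0) (nat_lit 77433728)) (xR T0.l10 T0.l10)
  (TrL.c (I.pos (nat_lit 0) (nat_lit 0)) (xk T0.l15 (xb T0.l15 T0.l15))
  (TrL.c (I.pos (nat_lit 0) (nat_lit 0)) T5.l11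
  (TrL.c (I.mix (nat_lit 29511666) (nat_lit 77433728)) (xR T0.l12 T0.l12)
  (TrL.c (I.mix (nat_lit 29511666) (nat_lit 46070178)) (xR T5.l12 T5.l12)
  TrL.n)))))))) (by decide +kernel)
theorem bx3_6 : BoxOK sI cl7 cl9 cl4 t5 t0 b3_6 :=
  box_mk (TrL.c (I.pos (nat_lit 0) (nat_lit 0)) (xa (xb (xb T5.l0 T5.l0) (xb T5.l0 T5.l0)) (xb (xb (xs T5.l0 T5.l0) T5.l0) (xb T5.l0 T5.l0)))
  (TrL.c (I.pos (nat_lit 0) (nat_lit 0)) (xb (xk T0.l9 T0.l9) (xk T0.l9 T0.l9))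
  (TrL.c (I.pos (nat_lit 0) (nat_lit 111196574)) (xR T5.l10 (xR T5.l10 T5.l10))
  (TrL.c (I.pos (nat_lit 0) (nat_lit 77433728)) (xR T0.l10 (xR T0.l10 T0.l10))
  (TrL.c (I.pos (nat_lit 0) (nat_lit 0)) (xk (xb T0.l15 T0.l15) (xb T0.l15 T0.l15))
  (TrL.c (I.pos (nat_lit 0) (nat_lit 0)) T5.l11
  (TrL.c (I.mix (nat_lit 29511666) (nat_lit 77433728)) (xR T0.l12 (xR T0.l12 T0.l12))
  (TrL.c (I.mix (nat_lit 29511666) (nat_lit 46070178)) (xR T5.l12 T5.l2)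
  TrL.n)))))))) (by decide +kernel)
theorem bx3_7 : BoxOK sI cl7 cl9 cl4 t5 t0 b3_7 :=
  box_mk (TrL.c (I.pos (nat_lit 0) (nat_lit 0)) (xa (xa (xa T5.l17 T5.l16) T5.l16) T5.l16)
  (TrL.c (I.pos (nat_lit 0) (nat_lit 0)) (xa T0.l9 T0.l9)
  (TrL.c (I.pos (nat_lit 0) (nat_lit 111196574)) T5.l10
  (TrL.c (I.pos (nat_lit 0) (nat_lit 77433728)) (xR T0.l10 T0.l10)
  (TrL.c (I.pos (nat_lit 0) (nat_lit 0)) (xa T0.l9 T0.l16)
  (TrL.c (I.pos (nat_lit 0) (nat_lit 0)) T5.l11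
  (TrL.c (I.mix (nat_lit 29511666) (nat_lit 77433728)) T0.l12
  (TrL.c (I.mix (nat_lit 29511666) (nat_lit 46070178)) T5.l4
  TrL.n)))))))) (by decide +kernel)
theorem bx3_8 : BoxOK sI cl7 cl9 cl4 t5 t0 b3_8 :=
  box_mk (TrL.c (I.pos (nat_lit 0) (nat_lit 0)) (xa T5.l21 T5.l0)
  (TrL.c (I.pos (nat_lit 0) (nat_lit 0)) T0.l9
  (TrL.c (I.pos (nat_lit 0) (nat_lit 111196574)) (xR T5.l10 T5.l10)
  (TrL.c (I.pos (nat_lit 0) (nat_lit 77433728)) (xR T0.l10 T0.l10)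
  (TrL.c (I.pos (nat_lit 0) (nat_lit 0)) (xk T0.l18 T0.l18)
  (TrL.c (I.pos (nat_lit 0) (nat_lit 0)) T5.l11
  (TrL.c (I.mix (nat_lit 29511666) (nat_lit 77433728)) (xR T0.l12 T0.l12)
  (TrL.c (I.mix (nat_lit 29511666) (nat_lit 46070178)) T5.l12
  TrL.n)))))))) (by decide +kernel)
theorem bx3_9 : BoxOK sI cl7 cl9 cl4 t5 t0 b3_9 :=
  box_mk (TrL.c (I.pos (nat_lit 0) (nat_lit 0)) T5.l0
  (TrL.c (I.pos (nat_lit 0) (nat_lit 0)) T0.l9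
  (TrL.c (I.pos (nat_lit 0) (nat_lit 111196574)) (xR T5.l10 T5.l10)
  (TrL.c (I.pos (nat_lit 0) (nat_lit 77433728)) (xR T0.l10 T0.l10)
  (TrL.c (I.pos (nat_lit 0) (nat_lit 0)) (xk T0.l15 T0.l15)
  (TrL.c (I.pos (nat_lit 0) (nat_lit 0)) T5.l11
  (TrL.c (I.mix (nat_lit 29511666) (nat_lit 77433728)) (xR T0.l12 T0.l12)
  (TrL.c (I.mix (nat_lit 29511666) (nat_lit 46070178)) T5.l12
  TrL.n)))))))) (by decide +kernel)
theorem bx3_10 : BoxOK sI cl7 cl9 cl4 t5 t0 b3_10 :=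
  box_mk (TrL.c (I.pos (nat_lit 0) (nat_lit 0)) (xa (xa (xb T5.l16 (xa T5.l16 T5.l16)) (xb T5.l16 T5.l16)) (xa (xa T5.l16 T5.l16) (xa (xb T5.l18 T5.l16) T5.l18)))
  (TrL.c (I.pos (nat_lit 0) (nat_lit 0)) (xa (xa T0.l9 T0.l9) (xa T0.l9 T0.l9))
  (TrL.c (I.pos (nat_lit 0) (nat_lit 111196574)) T5.l10
  (TrL.c (I.pos (nat_lit 0) (nat_lit 77433728)) (xR T0.l10 T0.l10)
  (TrL.c (I.pos (nat_lit 0) (nat_lit 0)) (xa (xa T0.l9 T0.l19) (xa T0.l19 T0.l19))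
  (TrL.c (I.pos (nat_lit 0) (nat_lit 0)) T5.l11
  (TrL.c (I.mix (nat_lit 29511666) (nat_lit 77433728)) (xR T0.l12 T0.l12)
  (TrL.c (I.mix (nat_lit 29511666) (nat_lit 46070178)) T5.l6
  TrL.n)))))))) (by decide +kernel)
theorem bx3_11 : BoxOK sI cl7 cl9 cl4 t5 t0 b3_11 :=
  box_mk (TrL.c (I.pos (nat_lit 0) (nat_lit 0)) (xb (xa T5.l19 T5.l19) (xa (xb T5.l19 T5.l19) T5.l19))
  (TrL.c (I.pos (nat_lit 0) (nat_lit 0)) (xb T0.l9 T0.l9)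
  (TrL.c (I.pos (nat_lit 0) (nat_lit 111196574)) (xR T5.l10 T5.l10)
  (TrL.c (I.pos (nat_lit 0) (nat_lit 77433728)) T0.l10
  (TrL.c (I.pos (nat_lit 0) (nat_lit 0)) (xb (xa T0.l20 (xk T0.l20 T0.l20)) (xk T0.l20 T0.l20))
  (TrL.c (I.pos (nat_lit 0) (nat_lit 0)) T5.l11
  (TrL.c (I.mix (nat_lit 29511666) (nat_lit 77433728)) (xR T0.l12 T0.l12)
  (TrL.c (I.mix (nat_lit 29511666) (nat_lit 46070178)) T5.l12
  TrL.n)))))))) (by decide +kernel)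
theorem bx3_12 : BoxOK sI cl7 cl9 cl4 t5 t0 b3_12 :=
  box_mk (TrL.c (I.pos (nat_lit 0) (nat_lit 0)) (xa (xa (xb T5.l20 T5.l20) T5.l16) T5.l16)
  (TrL.c (I.pos (nat_lit 0) (nat_lit 0)) (xa T0.l9 T0.l9)
  (TrL.c (I.pos (nat_lit 0) (nat_lit 111196574)) (xR T5.l10 T5.l10)
  (TrL.c (I.pos (nat_lit 0) (nat_lit 77433728)) (xR T0.l10 T0.l10)
  (TrL.c (I.pos (nat_lit 0) (nat_lit 0)) (xa T0.l21 T0.l21)
  (TrL.c (I.pos (nat_lit 0) (nat_lit 0)) T5.l11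
  (TrL.c (I.mix (nat_lit 29511666) (nat_lit 77433728)) T0.l12
  (TrL.c (I.mix (nat_lit 29511666) (nat_lit 46070178)) T5.l4
  TrL.n)))))))) (by decide +kernel)
theorem bx3_13 : BoxOK sI cl7 cl9 cl4 t5 t0 b3_13 :=
  box_mk (TrL.c (I.pos (nat_lit 0) (nat_lit 0)) T5.l0
  (TrL.c (I.pos (nat_lit 0) (nat_lit 0)) (xk T0.l9 T0.l9)
  (TrL.c (I.pos (nat_lit 0) (nat_lit 111196574)) (xR T5.l10 T5.l4)
  (TrL.c (I.pos (nat_lit 0) (nat_lit 77433728)) (xR T0.l10 T0.l10)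
  (TrL.c (I.pos (nat_lit 0) (nat_lit 0)) T0.l11
  (TrL.c (I.pos (nat_lit 0) (nat_lit 0)) T5.l11
  (TrL.c (I.mix (nat_lit 29511666) (nat_lit 77433728)) (xR T0.l12 T0.l12)
  (TrL.c (I.mix (nat_lit 29511666) (nat_lit 46070178)) (xR T5.l12 T5.l12)
  TrL.n)))))))) (by decide +kernel)
theorem bx3_14 : BoxOK sI cl7 cl9 cl4 t5 t0 b3_14 :=
  box_mk (TrL.c (I.pos (nat_lit 0) (nat_lit 0)) (xa T5.l0 (xb T5.l0 T5.l0))
  (TrL.c (I.pos (nat_lit 0) (nat_lit 0)) (xk (xa T0.l9 T0.l2) (xa T0.l9 T0.l9))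
  (TrL.c (I.pos (nat_lit 0) (nat_lit 111196574)) (xR T5.l10 T5.l4)
  (TrL.c (I.pos (nat_lit 0) (nat_lit 77433728)) (xR T0.l10 (xR T0.l10 T0.l10))
  (TrL.c (I.pos (nat_lit 0) (nat_lit 0)) (xk (xa T0.l11 (xb (xa T0.l11 T0.l11) T0.l11)) (xa T0.l11 (xb (xa T0.l11 T0.l11) T0.l11)))
  (TrL.c (I.pos (nat_lit 0) (nat_lit 0)) (xk T5.l11 T5.l11)
  (TrL.c (I.mix (nat_lit 29511666) (nat_lit 77433728)) (xR T0.l12 T0.l12)
  (TrL.c (I.mix (nat_lit 29511666) (nat_lit 46070178)) T5.l2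
  TrL.n)))))))) (by decide +kernel)
theorem bx3_15 : BoxOK sI cl7 cl9 cl4 t5 t0 b3_15 :=
  box_mk (TrL.c (I.pos (nat_lit 0) (nat_lit 0)) (xa (xb (xa (xs T5.l0 (xb T5.l0 T5.l0)) (xs T5.l0 (xb T5.l0 T5.l0))) (xa (xs T5.l0 (xb T5.l0 T5.l0)) (xs T5.l0 (xb T5.l0 T5.l0)))) (xb (xa (xs T5.l0 (xb T5.l0 T5.l0)) (xs (xb T5.l0 T5.l0) (xb (xa (xs T5.l0 T5.l0) (xs T5.l3 (xb T5.l0 T5.l0))) (xa (xs T5.l0 T5.l0) (xs T5.l3 T5.l3))))) (xa (xs T5.l0 (xb T5.l0 T5.l0)) (xs T5.l0 (xb (xs T5.l0 T5.l0) (xs T5.l0 T5.l0))))))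
  (TrL.c (I.pos (nat_lit 0) (nat_lit 0)) (xa (xk T0.l9 T0.l9) (xk (xb T0.l9 T0.l9) T0.l9))
  (TrL.c (I.pos (nat_lit 0) (nat_lit 111196574)) (xR T5.l10 (xR T5.l10 T5.l10))
  (TrL.c (I.pos (nat_lit 0) (nat_lit 77433728)) (xR T0.l10 (xR T0.l10 T0.l10))
  (TrL.c (I.pos (nat_lit 0) (nat_lit 0)) (xa (xk T0.l11 T0.l11) (xk T0.l11 T0.l11))
  (TrL.c (I.pos (nat_lit 0) (nat_lit 0)) T5.l11
  (TrL.c (I.mix (nat_lit 29511666) (nat_lit 77433728)) (xR T0.l12 (xR T0.l12 T0.l12))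
  (TrL.c (I.mix (nat_lit 29511666) (nat_lit 46070178)) (xR T5.l12 T5.l12)
  TrL.n)))))))) (by decide +kernel)
theorem bx3_16 : BoxOK sI cl7 cl9 cl4 t5 t0 b3_16 :=
  box_mk (TrL.c (I.pos (nat_lit 0) (nat_lit 0)) (xa (xb T5.l0 (xa T5.l0 T5.l0)) (xb (xa T5.l0 T5.l0) (xa T5.l0 (xs T5.l0 T5.l0))))
  (TrL.c (I.pos (nat_lit 0) (nat_lit 0)) (xa (xk (xb T0.l9 (xa T0.l9 T0.l9)) (xb T0.l9 T0.l9)) (xk (xb T0.l2 (xa T0.l2 T0.l2)) (xb T0.l2 T0.l2)))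
  (TrL.c (I.pos (nat_lit 0) (nat_lit 111196574)) (xR T5.l4 (xR T5.l10 T5.l4))
  (TrL.c (I.pos (nat_lit 0) (nat_lit 77433728)) (xR T0.l10 (xR T0.l10 T0.l10))
  (TrL.c (I.pos (nat_lit 0) (nat_lit 0)) (xa (xb (xk (xa T0.l11 T0.l11) (xa T0.l11 T0.l11)) T0.l11) (xb (xk (xa (xb T0.l11 T0.l11) (xk (xb T0.l11 T0.l11) (xb T0.l11 T0.l11))) (xa (xb T0.l11 T0.l11) (xb (xk T0.l11 T0.l11) T0.l11))) (xk (xa T0.l11 (xk (xb T0.l11 T0.l11) (xb T0.l11 T0.l11))) (xa T0.l11 (xk (xb T0.l11 T0.l11) (xb T0.l11 T0.l11))))))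
  (TrL.c (I.pos (nat_lit 0) (nat_lit 0)) (xk (xb (xa T5.l11 T5.l11) (xa T5.l11 T5.l11)) (xa T5.l11 (xb T5.l11 T5.l11)))
  (TrL.c (I.mix (nat_lit 29511666) (nat_lit 77433728)) (xR T0.l12 (xR T0.l12 (xR T0.l12 T0.l12)))
  (TrL.c (I.mix (nat_lit 29511666) (nat_lit 46070178)) (xR T5.l2 T5.l2)
  TrL.n)))))))) (by decide +kernel)
theorem bx3_17 : BoxOK sI cl7 cl9 cl4 t5 t0 b3_17 :=
  box_mk (TrL.c (I.pos (nat_lit 0) (nat_lit 0)) T5.l0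
  (TrL.c (I.pos (nat_lit 0) (nat_lit 0)) (xk T0.l9 T0.l9)
  (TrL.c (I.pos (nat_lit 0) (nat_lit 111196574)) (xR T5.l10 T5.l10)
  (TrL.c (I.pos (nat_lit 0) (nat_lit 77433728)) (xR T0.l10 T0.l10)
  (TrL.c (I.pos (nat_lit 0) (nat_lit 0)) T0.l11
  (TrL.c (I.pos (nat_lit 0) (nat_lit 0)) T5.l11
  (TrL.c (I.mix (nat_lit 29511666) (nat_lit 77433728)) (xR T0.l12 T0.l12)
  (TrL.c (I.mix (nat_lit 29511666) (nat_lit 46070178)) (xR T5.l12 T5.l12)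
  TrL.n)))))))) (by decide +kernel)
theorem bx3_18 : BoxOK sI cl7 cl9 cl4 t5 t0 b3_18 :=
  box_mk (TrL.c (I.pos (nat_lit 0) (nat_lit 0)) T5.l0
  (TrL.c (I.pos (nat_lit 0) (nat_lit 0)) T0.l2
  (TrL.c (I.pos (nat_lit 0) (nat_lit 111196574)) (xR T5.l10 T5.l4)
  (TrL.c (I.pos (nat_lit 0) (nat_lit 77433728)) (xR T0.l10 T0.l10)
  (TrL.c (I.pos (nat_lit 0) (nat_lit 0)) (xk (xb T0.l0 T0.l11) (xb T0.l0 T0.l11))
  (TrL.c (I.pos (nat_lit 0) (nat_lit 0)) (xk T5.l11 T5.l11)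
  (TrL.c (I.mix (nat_lit 29511666) (nat_lit 77433728)) (xR T0.l12 T0.l12)
  (TrL.c (I.mix (nat_lit 29511666) (nat_lit 46070178)) (xR T5.l12 T5.l2)
  TrL.n)))))))) (by decide +kernel)
theorem bx3_19 : BoxOK sI cl7 cl9 cl4 t5 t0 b3_19 :=
  box_mk (TrL.c (I.pos (nat_lit 0) (nat_lit 0)) T5.l0
  (TrL.c (I.pos (nat_lit 0) (nat_lit 0)) (xk T0.l9 T0.l9)
  (TrL.c (I.pos (nat_lit 0) (nat_lit 111196574)) (xR T5.l10 T5.l4)
  (TrL.c (I.pos (nat_lit 0) (nat_lit 77433728)) (xR T0.l10 T0.l10)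
  (TrL.c (I.pos (nat_lit 0) (nat_lit 0)) T0.l11
  (TrL.c (I.pos (nat_lit 0) (nat_lit 0)) T5.l11
  (TrL.c (I.mix (nat_lit 29511666) (nat_lit 77433728)) (xR T0.l12 T0.l12)
  (TrL.c (I.mix (nat_lit 29511666) (nat_lit 46070178)) (xR T5.l12 T5.l12)
  TrL.n)))))))) (by decide +kernel)
theorem bx3_20 : BoxOK sI cl7 cl9 cl4 t5 t0 b3_20 :=
  box_mk (TrL.c (I.pos (nat_lit 0) (nat_lit 0)) T5.l0
  (TrL.c (I.pos (nat_lit 0) (nat_lit 0)) (xk (xa T0.l9 T0.l9) T0.l9)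
  (TrL.c (I.pos (nat_lit 0) (nat_lit 111196574)) (xR T5.l10 T5.l4)
  (TrL.c (I.pos (nat_lit 0) (nat_lit 77433728)) (xR T0.l10 T0.l10)
  (TrL.c (I.pos (nat_lit 0) (nat_lit 0)) (xk T0.l11 T0.l11)
  (TrL.c (I.pos (nat_lit 0) (nat_lit 0)) T5.l11
  (TrL.c (I.mix (nat_lit 29511666) (nat_lit 77433728)) (xR T0.l12 T0.l12)
  (TrL.c (I.mix (nat_lit 29511666) (nat_lit 46070178)) (xR T5.l12 T5.l12)
  TrL.n)))))))) (by decide +kernel)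
theorem bx3_21 : BoxOK sI cl7 cl9 cl4 t5 t0 b3_21 :=
  box_mk (TrL.c (I.pos (nat_lit 0) (nat_lit 0)) T5.l0
  (TrL.c (I.pos (nat_lit 0) (nat_lit 0)) T0.l2
  (TrL.c (I.pos (nat_lit 0) (nat_lit 111196574)) (xR T5.l10 T5.l10)
  (TrL.c (I.pos (nat_lit 0) (nat_lit 77433728)) (xR T0.l10 T0.l10)
  (TrL.c (I.pos (nat_lit 0) (nat_lit 0)) T0.l0
  (TrL.c (I.pos (nat_lit 0) (nat_lit 0)) T5.l11
  (TrL.c (I.mix (nat_lit 29511666) (nat_lit 77433728)) (xR T0.l12 T0.l12)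
  (TrL.c (I.mix (nat_lit 29511666) (nat_lit 46070178)) T5.l2
  TrL.n)))))))) (by decide +kernel)
theorem sv3 : StarV sI cl7 cl9 cl4 t5 t0 t3 :=
  (bt_n (bt_n (bt_n (bt_n (bt_b bx3_0) (bt_b bx3_1)) (bt_n (bt_b bx3_2) (bt_n (bt_b bx3_3) (bt_b bx3_4)))) (bt_n (bt_n (bt_b bx3_5) (bt_n (bt_b bx3_6) (bt_b bx3_7))) (bt_n (bt_b bx3_8) (bt_n (bt_b bx3_9) (bt_b bx3_10))))) (bt_n (bt_n (bt_n (bt_b bx3_11) (bt_b bx3_12)) (bt_n (bt_b bx3_13) (bt_n (bt_b bx3_14) (bt_b bx3_15)))) (bt_n (bt_n (bt_b bx3_16) (bt_n (bt_b bx3_17) (bt_b bx3_18))) (bt_n (bt_b bx3_19) (bt_n (bt_b bx3_20) (bt_b bx3_21))))))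
def S3 : StarD := StarD.mk cl7 cl9 cl4 5 0 t3
theorem bx4_0 : BoxOK sI cl9 cl4 cl7 t1 t3 b4_0 :=
  box_mk (TrL.c (I.pos (nat_lit 0) (nat_lit 0)) (xa (xb T1.l5 (xb T1.l5 (xa T1.l5 T1.l0))) (xb (xb T1.l0 T1.l0) (xa (xb T1.l0 T1.l0) T1.l0)))
  (TrL.c (I.pos (nat_lit 0) (nat_lit 0)) (xa (xb T3.l1 T3.l1) (xb T3.l1 (xk T3.l1 T3.l1)))
  (TrL.c (I.pos (nat_lit 0) (nat_lit 124588530)) (xR T1.l1 (xR T1.l1 T1.l1))
  (TrL.c (I.pos (nat_lit 0) (nat_lit 96881482)) (xR T3.l2 (xR T3.l2 T3.l2))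
  (TrL.c (I.pos (nat_lit 0) (nat_lit 0)) (xb (xa T3.l6 (xk T3.l3 T3.l3)) (xa (xk T3.l3 T3.l3) (xk T3.l3 T3.l3)))
  (TrL.c (I.pos (nat_lit 0) (nat_lit 0)) T1.l2
  (TrL.c (I.mix (nat_lit 17240550) (nat_lit 96881482)) (xR T3.l4 (xR T3.l4 T3.l4))
  (TrL.c (I.mix (nat_lit 17240550) (nat_lit 71940500)) (xR T1.l3 T1.l10)
  TrL.n)))))))) (by decide +kernel)
theorem bx4_1 : BoxOK sI cl9 cl4 cl7 t1 t3 b4_1 :=
  box_mk (TrL.c (I.pos (nat_lit 0) (nat_lit 0)) (xa (xb (xa T1.l4 T1.l4) (xa T1.l4 T1.l4)) (xb T1.l4 T1.l4))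
  (TrL.c (I.pos (nat_lit 0) (nat_lit 0)) (xa T3.l1 T3.l1)
  (TrL.c (I.pos (nat_lit 0) (nat_lit 124588530)) (xR T1.l1 (xR T1.l1 T1.l12))
  (TrL.c (I.pos (nat_lit 0) (nat_lit 96881482)) (xR T3.l2 (xR T3.l2 T3.l7))
  (TrL.c (I.pos (nat_lit 0) (nat_lit 0)) (xa (xb T3.l5 T3.l5) (xb T3.l5 T3.l5))
  (TrL.c (I.pos (nat_lit 0) (nat_lit 0)) T1.l2
  (TrL.c (I.mix (nat_lit 17240550) (nat_lit 96881482)) (xR T3.l4 T3.l4)
  (TrL.c (I.mix (nat_lit 17240550) (nat_lit 71940500)) T1.l10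
  TrL.n)))))))) (by decide +kernel)
theorem bx4_2 : BoxOK sI cl9 cl4 cl7 t1 t3 b4_2 :=
  box_mk (TrL.c (I.pos (nat_lit 0) (nat_lit 0)) (xb (xa (xb T1.l5 T1.l5) (xb T1.l5 T1.l5)) (xa (xb (xa T1.l5 T1.l5) (xa (xb T1.l5 T1.l5) (xb T1.l5 T1.l5))) (xa (xb T1.l5 T1.l5) (xb T1.l5 T1.l5))))
  (TrL.c (I.pos (nat_lit 0) (nat_lit 0)) (xb (xa T3.l1 T3.l1) (xa (xk T3.l1 T3.l1) (xk T3.l1 T3.l1)))
  (TrL.c (I.pos (nat_lit 0) (nat_lit 124588530)) (xR T1.l1 (xR T1.l1 T1.l1))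
  (TrL.c (I.pos (nat_lit 0) (nat_lit 96881482)) (xR T3.l2 (xR T3.l2 T3.l2))
  (TrL.c (I.pos (nat_lit 0) (nat_lit 0)) (xb (xa (xb T3.l6 T3.l6) (xk (xb T3.l6 T3.l6) T3.l6)) (xa (xk (xb T3.l6 (xb T3.l3 (xs T3.l3 T3.l6))) (xb T3.l6 (xb T3.l3 (xs T3.l3 T3.l3)))) (xk (xb (xb T3.l3 T3.l3) (xb (xs T3.l3 (xa T3.l3 T3.l0)) (xs (xa T3.l3 T3.l0) (xa (xk T3.l0 T3.l3) T3.l0)))) (xb (xb T3.l3 (xa T3.l3 T3.l3)) (xb (xs T3.l3 (xa T3.l3 (xk T3.l0 T3.l0))) (xs (xa T3.l3 T3.l0) (xa (xk T3.l3 (xb T3.l3 T3.l0)) T3.l0)))))))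
  (TrL.c (I.pos (nat_lit 0) (nat_lit 0)) T1.l2
  (TrL.c (I.mix (nat_lit 17240550) (nat_lit 96881482)) (xR T3.l4 (xR T3.l4 T3.l4))
  (TrL.c (I.mix (nat_lit 17240550) (nat_lit 71940500)) (xR T1.l3 (xR T1.l3 T1.l3))
  TrL.n)))))))) (by decide +kernel)
theorem bx4_3 : BoxOK sI cl9 cl4 cl7 t1 t3 b4_3 :=
  box_mk (TrL.c (I.pos (nat_lit 0) (nat_lit 0)) (xa T3.l1 T3.l8)
  (TrL.c (I.pos (nat_lit 0) (nat_lit 0)) T1.l12
  (TrL.c (I.mix (nat_lit 17240550) (nat_lit 96881482)) (xR T3.l7 (xR T3.l7 T3.l7))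
  (TrL.c (I.mix (nat_lit 17240550) (nat_lit 71940500)) (xR T1.l12 T1.l1)
  TrL.n)))) (by decide +kernel)
theorem bx4_4 : BoxOK sI cl9 cl4 cl7 t1 t3 b4_4 :=
  box_mk (TrL.c (I.pos (nat_lit 0) (nat_lit 0)) T3.l8
  (TrL.c (I.pos (nat_lit 0) (nat_lit 0)) T1.l7
  (TrL.c (I.mix (nat_lit 17240550) (nat_lit 96881482)) (xR T3.l7 T3.l4)
  (TrL.c (I.mix (nat_lit 17240550) (nat_lit 71940500)) T1.l12
  TrL.n)))) (by decide +kernel)
theorem bx4_5 : BoxOK sI cl9 cl4 cl7 t1 t3 b4_5 :=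
  box_mk (TrL.c (I.pos (nat_lit 0) (nat_lit 0)) (xb T1.l4 T1.l4)
  (TrL.c (I.pos (nat_lit 0) (nat_lit 0)) T3.l1
  (TrL.c (I.pos (nat_lit 0) (nat_lit 124588530)) T1.l1
  (TrL.c (I.pos (nat_lit 0) (nat_lit 96881482)) T3.l4
  (TrL.c (I.pos (nat_lit 0) (nat_lit 0)) T3.l5
  (TrL.c (I.pos (nat_lit 0) (nat_lit 0)) T1.l2
  (TrL.c (I.mix (nat_lit 17240550) (nat_lit 96881482)) T3.l4
  (TrL.c (I.mix (nat_lit 17240550) (nat_lit 71940500)) T1.l3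
  TrL.n)))))))) (by decide +kernel)
theorem bx4_6 : BoxOK sI cl9 cl4 cl7 t1 t3 b4_6 :=
  box_mk (TrL.c (I.pos (nat_lit 0) (nat_lit 0)) (xa T1.l0 T1.l0)
  (TrL.c (I.pos (nat_lit 0) (nat_lit 0)) (xa T3.l1 (xb T3.l1 (xk T3.l1 T3.l1)))
  (TrL.c (I.pos (nat_lit 0) (nat_lit 124588530)) (xR T1.l1 T1.l12)
  (TrL.c (I.pos (nat_lit 0) (nat_lit 96881482)) (xR T3.l2 (xR T3.l2 T3.l2))
  (TrL.c (I.pos (nat_lit 0) (nat_lit 0)) (xa (xb (xk T3.l3 T3.l3) T3.l3) (xb (xk (xa T3.l3 T3.l0) (xa T3.l3 T3.l3)) (xk (xa T3.l3 (xb T3.l3 T3.l3)) (xa T3.l3 (xb T3.l3 T3.l3)))))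
  (TrL.c (I.pos (nat_lit 0) (nat_lit 0)) (xk (xa T1.l2 T1.l2) T1.l2)
  (TrL.c (I.mix (nat_lit 17240550) (nat_lit 96881482)) (xR T3.l4 (xR T3.l4 T3.l4))
  (TrL.c (I.mix (nat_lit 17240550) (nat_lit 71940500)) T1.l10
  TrL.n)))))))) (by decide +kernel)
theorem bx4_7 : BoxOK sI cl9 cl4 cl7 t1 t3 b4_7 :=
  box_mk (TrL.c (I.pos (nat_lit 0) (nat_lit 0)) (xb T1.l8 T1.l8)
  (TrL.c (I.pos (nat_lit 0) (nat_lit 0)) T3.l8
  (TrL.c (I.pos (nat_lit 0) (nat_lit 124588530)) T1.l1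
  (TrL.c (I.pos (nat_lit 0) (nat_lit 96881482)) T3.l4
  (TrL.c (I.pos (nat_lit 0) (nat_lit 0)) T3.l9
  (TrL.c (I.pos (nat_lit 0) (nat_lit 0)) T1.l2
  (TrL.c (I.mix (nat_lit 17240550) (nat_lit 96881482)) T3.l4
  (TrL.c (I.mix (nat_lit 17240550) (nat_lit 71940500)) T1.l3
  TrL.n)))))))) (by decide +kernel)
theorem bx4_8 : BoxOK sI cl9 cl4 cl7 t1 t3 b4_8 :=
  box_mk (TrL.c (I.pos (nat_lit 0) (nat_lit 0)) T1.l0
  (TrL.c (I.pos (nat_lit 0) (nat_lit 0)) T3.l1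
  (TrL.c (I.pos (nat_lit 0) (nat_lit 124588530)) (xR T1.l1 T1.l1)
  (TrL.c (I.pos (nat_lit 0) (nat_lit 96881482)) (xR T3.l2 T3.l2)
  (TrL.c (I.pos (nat_lit 0) (nat_lit 0)) T3.l3
  (TrL.c (I.pos (nat_lit 0) (nat_lit 0)) T1.l2
  (TrL.c (I.mix (nat_lit 17240550) (nat_lit 96881482)) T3.l4
  (TrL.c (I.mix (nat_lit 17240550) (nat_lit 71940500)) T1.l3
  TrL.n)))))))) (by decide +kernel)
theorem bx4_9 : BoxOK sI cl9 cl4 cl7 t1 t3 b4_9 :=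
  box_mk (TrL.c (I.pos (nat_lit 0) (nat_lit 0)) T1.l8
  (TrL.c (I.pos (nat_lit 0) (nat_lit 0)) T3.l1
  (TrL.c (I.pos (nat_lit 0) (nat_lit 124588530)) T1.l1
  (TrL.c (I.pos (nat_lit 0) (nat_lit 96881482)) T3.l2
  (TrL.c (I.pos (nat_lit 0) (nat_lit 0)) T3.l9
  (TrL.c (I.pos (nat_lit 0) (nat_lit 0)) T1.l2
  (TrL.c (I.mix (nat_lit 17240550) (nat_lit 96881482)) T3.l4
  (TrL.c (I.mix (nat_lit 17240550) (nat_lit 71940500)) T1.l3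
  TrL.n)))))))) (by decide +kernel)
theorem bx4_10 : BoxOK sI cl9 cl4 cl7 t1 t3 b4_10 :=
  box_mk (TrL.c (I.pos (nat_lit 0) (nat_lit 0)) T1.l0
  (TrL.c (I.pos (nat_lit 0) (nat_lit 0)) T3.l1
  (TrL.c (I.pos (nat_lit 0) (nat_lit 124588530)) (xR T1.l1 T1.l1)
  (TrL.c (I.pos (nat_lit 0) (nat_lit 96881482)) (xR T3.l2 T3.l2)
  (TrL.c (I.pos (nat_lit 0) (nat_lit 0)) (xk T3.l0 T3.l0)
  (TrL.c (I.pos (nat_lit 0) (nat_lit 0)) T1.l2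
  (TrL.c (I.mix (nat_lit 17240550) (nat_lit 96881482)) (xR T3.l4 T3.l4)
  (TrL.c (I.mix (nat_lit 17240550) (nat_lit 71940500)) T1.l3
  TrL.n)))))))) (by decide +kernel)
theorem bx4_11 : BoxOK sI cl9 cl4 cl7 t1 t3 b4_11 :=
  box_mk (TrL.c (I.pos (nat_lit 0) (nat_lit 0)) T1.l8
  (TrL.c (I.pos (nat_lit 0) (nat_lit 0)) T3.l8
  (TrL.c (I.pos (nat_lit 0) (nat_lit 124588530)) T1.l1
  (TrL.c (I.pos (nat_lit 0) (nat_lit 96881482)) T3.l2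
  (TrL.c (I.pos (nat_lit 0) (nat_lit 0)) T3.l9
  (TrL.c (I.pos (nat_lit 0) (nat_lit 0)) T1.l2
  (TrL.c (I.mix (nat_lit 17240550) (nat_lit 96881482)) T3.l4
  (TrL.c (I.mix (nat_lit 17240550) (nat_lit 71940500)) T1.l3
  TrL.n)))))))) (by decide +kernel)
theorem bx4_12 : BoxOK sI cl9 cl4 cl7 t1 t3 b4_12 :=
  box_mk (TrL.c (I.pos (nat_lit 0) (nat_lit 0)) T1.l0
  (TrL.c (I.pos (nat_lit 0) (nat_lit 0)) T3.l1
  (TrL.c (I.pos (nat_lit 0) (nat_lit 124588530)) (xR T1.l1 T1.l1)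
  (TrL.c (I.pos (nat_lit 0) (nat_lit 96881482)) (xR T3.l2 T3.l2)
  (TrL.c (I.pos (nat_lit 0) (nat_lit 0)) T3.l0
  (TrL.c (I.pos (nat_lit 0) (nat_lit 0)) T1.l2
  (TrL.c (I.mix (nat_lit 17240550) (nat_lit 96881482)) T3.l4
  (TrL.c (I.mix (nat_lit 17240550) (nat_lit 71940500)) T1.l3
  TrL.n)))))))) (by decide +kernel)
theorem bx4_13 : BoxOK sI cl9 cl4 cl7 t1 t3 b4_13 :=
  box_mk (TrL.c (I.pos (nat_lit 0) (nat_lit 0)) T1.l8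
  (TrL.c (I.pos (nat_lit 0) (nat_lit 0)) T3.l8
  (TrL.c (I.pos (nat_lit 0) (nat_lit 124588530)) T1.l1
  (TrL.c (I.pos (nat_lit 0) (nat_lit 96881482)) T3.l2
  (TrL.c (I.pos (nat_lit 0) (nat_lit 0)) T3.l9
  (TrL.c (I.pos (nat_lit 0) (nat_lit 0)) T1.l2
  (TrL.c (I.mix (nat_lit 17240550) (nat_lit 96881482)) T3.l4
  (TrL.c (I.mix (nat_lit 17240550) (nat_lit 71940500)) T1.l3
  TrL.n)))))))) (by decide +kernel)
theorem bx4_14 : BoxOK sI cl9 cl4 cl7 t1 t3 b4_14 :=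
  box_mk (TrL.c (I.pos (nat_lit 0) (nat_lit 0)) T1.l0
  (TrL.c (I.pos (nat_lit 0) (nat_lit 0)) T3.l1
  (TrL.c (I.pos (nat_lit 0) (nat_lit 124588530)) T1.l12
  (TrL.c (I.pos (nat_lit 0) (nat_lit 96881482)) (xR T3.l2 T3.l2)
  (TrL.c (I.pos (nat_lit 0) (nat_lit 0)) T3.l3
  (TrL.c (I.pos (nat_lit 0) (nat_lit 0)) T1.l2
  (TrL.c (I.mix (nat_lit 17240550) (nat_lit 96881482)) T3.l4
  (TrL.c (I.mix (nat_lit 17240550) (nat_lit 71940500)) T1.l3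
  TrL.n)))))))) (by decide +kernel)
theorem bx4_15 : BoxOK sI cl9 cl4 cl7 t1 t3 b4_15 :=
  box_mk (TrL.c (I.pos (nat_lit 0) (nat_lit 0)) T1.l8
  (TrL.c (I.pos (nat_lit 0) (nat_lit 0)) T3.l1
  (TrL.c (I.pos (nat_lit 0) (nat_lit 124588530)) T1.l1
  (TrL.c (I.pos (nat_lit 0) (nat_lit 96881482)) T3.l2
  (TrL.c (I.pos (nat_lit 0) (nat_lit 0)) T3.l9
  (TrL.c (I.pos (nat_lit 0) (nat_lit 0)) T1.l2
  (TrL.c (I.mix (nat_lit 17240550) (nat_lit 96881482)) T3.l4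
  (TrL.c (I.mix (nat_lit 17240550) (nat_lit 71940500)) T1.l3
  TrL.n)))))))) (by decide +kernel)
theorem bx4_16 : BoxOK sI cl9 cl4 cl7 t1 t3 b4_16 :=
  box_mk (TrL.c (I.pos (nat_lit 0) (nat_lit 0)) T1.l0
  (TrL.c (I.pos (nat_lit 0) (nat_lit 0)) (xb T3.l1 T3.l1)
  (TrL.c (I.pos (nat_lit 0) (nat_lit 124588530)) (xR T1.l1 T1.l1)
  (TrL.c (I.pos (nat_lit 0) (nat_lit 96881482)) (xR T3.l2 T3.l2)
  (TrL.c (I.pos (nat_lit 0) (nat_lit 0)) (xb (xk (xa T3.l3 T3.l0) (xa T3.l3 T3.l0)) (xk (xa T3.l3 T3.l3) T3.l3))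
  (TrL.c (I.pos (nat_lit 0) (nat_lit 0)) (xk T1.l2 T1.l2)
  (TrL.c (I.mix (nat_lit 17240550) (nat_lit 96881482)) (xR T3.l4 (xR T3.l4 T3.l4))
  (TrL.c (I.mix (nat_lit 17240550) (nat_lit 71940500)) T1.l3
  TrL.n)))))))) (by decide +kernel)
theorem bx4_17 : BoxOK sI cl9 cl4 cl7 t1 t3 b4_17 :=
  box_mk (TrL.c (I.pos (nat_lit 0) (nat_lit 0)) T1.l8
  (TrL.c (I.pos (nat_lit 0) (nat_lit 0)) T3.l8
  (TrL.c (I.pos (nat_lit 0) (nat_lit 124588530)) T1.l1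
  (TrL.c (I.pos (nat_lit 0) (nat_lit 96881482)) T3.l2
  (TrL.c (I.pos (nat_lit 0) (nat_lit 0)) T3.l9
  (TrL.c (I.pos (nat_lit 0) (nat_lit 0)) T1.l2
  (TrL.c (I.mix (nat_lit 17240550) (nat_lit 96881482)) T3.l4
  (TrL.c (I.mix (nat_lit 17240550) (nat_lit 71940500)) T1.l3
  TrL.n)))))))) (by decide +kernel)
theorem bx4_18 : BoxOK sI cl9 cl4 cl7 t1 t3 b4_18 :=
  box_mk (TrL.c (I.pos (nat_lit 0) (nat_lit 0)) (xa (xb T1.l0 T1.l5) (xb T1.l0 T1.l0))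
  (TrL.c (I.pos (nat_lit 0) (nat_lit 0)) (xk T3.l1 T3.l1)
  (TrL.c (I.pos (nat_lit 0) (nat_lit 124588530)) (xR T1.l1 T1.l1)
  (TrL.c (I.pos (nat_lit 0) (nat_lit 96881482)) (xR T3.l2 T3.l2)
  (TrL.c (I.pos (nat_lit 0) (nat_lit 0)) (xk (xb T3.l3 (xa T3.l3 T3.l0)) (xb T3.l3 (xa T3.l3 T3.l0)))
  (TrL.c (I.pos (nat_lit 0) (nat_lit 0)) T1.l2
  (TrL.c (I.mix (nat_lit 17240550) (nat_lit 96881482)) (xR T3.l4 T3.l4)
  (TrL.c (I.mix (nat_lit 17240550) (nat_lit 71940500)) T1.l10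
  TrL.n)))))))) (by decide +kernel)
theorem bx4_19 : BoxOK sI cl9 cl4 cl7 t1 t3 b4_19 :=
  box_mk (TrL.c (I.pos (nat_lit 0) (nat_lit 0)) T1.l4
  (TrL.c (I.pos (nat_lit 0) (nat_lit 0)) T3.l1
  (TrL.c (I.pos (nat_lit 0) (nat_lit 124588530)) T1.l1
  (TrL.c (I.pos (nat_lit 0) (nat_lit 96881482)) T3.l4
  (TrL.c (I.pos (nat_lit 0) (nat_lit 0)) T3.l5
  (TrL.c (I.pos (nat_lit 0) (nat_lit 0)) T1.l2
  (TrL.c (I.mix (nat_lit 17240550) (nat_lit 96881482)) T3.l4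
  (TrL.c (I.mix (nat_lit 17240550) (nat_lit 71940500)) T1.l3
  TrL.n)))))))) (by decide +kernel)
theorem bx4_20 : BoxOK sI cl9 cl4 cl7 t1 t3 b4_20 :=
  box_mk (TrL.c (I.pos (nat_lit 0) (nat_lit 0)) (xa (xb T1.l0 (xa T1.l0 T1.l0)) (xb T1.l0 (xa T1.l0 T1.l0)))
  (TrL.c (I.pos (nat_lit 0) (nat_lit 0)) (xa (xb T3.l1 T3.l1) (xb T3.l11 (xk T3.l1 T3.l1)))
  (TrL.c (I.pos (nat_lit 0) (nat_lit 124588530)) (xR T1.l1 T1.l12)
  (TrL.c (I.pos (nat_lit 0) (nat_lit 96881482)) (xR T3.l2 (xR T3.l2 T3.l2))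
  (TrL.c (I.pos (nat_lit 0) (nat_lit 0)) (xa (xb (xk (xb (xa T3.l3 T3.l3) T3.l3) (xb T3.l3 T3.l3)) (xk T3.l3 T3.l3)) (xb (xk (xa T3.l0 (xb T3.l0 (xk T3.l3 T3.l3))) (xa T3.l0 (xb T3.l0 T3.l3))) (xk (xa T3.l3 (xb (xk T3.l3 T3.l3) (xk T3.l3 T3.l3))) (xa T3.l3 (xb T3.l3 T3.l3)))))
  (TrL.c (I.pos (nat_lit 0) (nat_lit 0)) (xk (xb T1.l2 T1.l2) (xb T1.l2 T1.l2))
  (TrL.c (I.mix (nat_lit 17240550) (nat_lit 96881482)) (xR T3.l4 (xR T3.l4 (xR T3.l4 T3.l4)))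
  (TrL.c (I.mix (nat_lit 17240550) (nat_lit 71940500)) (xR T1.l3 T1.l10)
  TrL.n)))))))) (by decide +kernel)
theorem bx4_21 : BoxOK sI cl9 cl4 cl7 t1 t3 b4_21 :=
  box_mk (TrL.c (I.pos (nat_lit 0) (nat_lit 0)) (xb T1.l8 T1.l8)
  (TrL.c (I.pos (nat_lit 0) (nat_lit 0)) T3.l8
  (TrL.c (I.pos (nat_lit 0) (nat_lit 124588530)) T1.l1
  (TrL.c (I.pos (nat_lit 0) (nat_lit 96881482)) T3.l4
  (TrL.c (I.pos (nat_lit 0) (nat_lit 0)) T3.l9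
  (TrL.c (I.pos (nat_lit 0) (nat_lit 0)) T1.l2
  (TrL.c (I.mix (nat_lit 17240550) (nat_lit 96881482)) T3.l4
  (TrL.c (I.mix (nat_lit 17240550) (nat_lit 71940500)) T1.l3
  TrL.n)))))))) (by decide +kernel)
theorem bx4_22 : BoxOK sI cl9 cl4 cl7 t1 t3 b4_22 :=
  box_mk (TrL.c (I.pos (nat_lit 0) (nat_lit 0)) T1.l0
  (TrL.c (I.pos (nat_lit 0) (nat_lit 0)) T3.l1
  (TrL.c (I.pos (nat_lit 0) (nat_lit 124588530)) T1.l12
  (TrL.c (I.pos (nat_lit 0) (nat_lit 96881482)) (xR T3.l2 T3.l2)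
  (TrL.c (I.pos (nat_lit 0) (nat_lit 0)) T3.l3
  (TrL.c (I.pos (nat_lit 0) (nat_lit 0)) T1.l2
  (TrL.c (I.mix (nat_lit 17240550) (nat_lit 96881482)) T3.l4
  (TrL.c (I.mix (nat_lit 17240550) (nat_lit 71940500)) T1.l3
  TrL.n)))))))) (by decide +kernel)
theorem bx4_23 : BoxOK sI cl9 cl4 cl7 t1 t3 b4_23 :=
  box_mk (TrL.c (I.pos (nat_lit 0) (nat_lit 0)) T1.l8
  (TrL.c (I.pos (nat_lit 0) (nat_lit 0)) T3.l1
  (TrL.c (I.pos (nat_lit 0) (nat_lit 124588530)) T1.l1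
  (TrL.c (I.pos (nat_lit 0) (nat_lit 96881482)) T3.l2
  (TrL.c (I.pos (nat_lit 0) (nat_lit 0)) T3.l9
  (TrL.c (I.pos (nat_lit 0) (nat_lit 0)) T1.l2
  (TrL.c (I.mix (nat_lit 17240550) (nat_lit 96881482)) T3.l4
  (TrL.c (I.mix (nat_lit 17240550) (nat_lit 71940500)) T1.l3
  TrL.n)))))))) (by decide +kernel)
theorem sv4 : StarV sI cl9 cl4 cl7 t1 t3 t4 :=
  (bt_n (bt_n (bt_n (bt_n (bt_b bx4_0) (bt_n (bt_b bx4_1) (bt_b bx4_2))) (bt_n (bt_b bx4_3) (bt_n (bt_b bx4_4) (bt_b bx4_5)))) (bt_n (bt_n (bt_b bx4_6) (bt_n (bt_b bx4_7) (bt_b bx4_8))) (bt_n (bt_b bx4_9) (bt_n (bt_b bx4_10) (bt_b bx4_11))))) (bt_n (bt_n (bt_n (bt_b bx4_12) (bt_n (bt_b bx4_13) (bt_b bx4_14))) (bt_n (bt_b bx4_15) (bt_n (bt_b bx4_16) (bt_b bx4_17)))) (bt_n (bt_n (bt_b bx4_18) (bt_n (bt_b bx4_19) (bt_b bx4_20))) (bt_n (bt_b bx4_21) (bt_n (bt_b bx4_22) (bt_b bx4_23))))))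
def S4 : StarD := StarD.mk cl9 cl4 cl7 1 3 t4
def rc5_0_0_l : Tr := (xb (xa (xb (xs (xa T3.l0 T3.l0) (xa (xb T3.l0 T3.l0) (xb T3.l0 T3.l0))) (xs (xa T3.l0 T3.l0) (xa T3.l0 (xb T3.l0 T3.l0)))) (xb (xs (xa T3.l15 (xb T3.l0 T3.l0)) (xa (xb (xc T3.l0 T3.l0) (xc T3.l0 T3.l0)) (xb (xc T3.l0 (xs T3.l0 T3.l0)) T3.l0))) (xs (xa T3.l15 (xb T3.l0 T3.l0)) (xa (xb T3.l0 T3.l0) (xb T3.l0 T3.l0))))) (xa (xb (xs T3.l0 (xa T3.l0 T3.l0)) (xs T3.l0 (xa T3.l0 T3.l0))) (xb (xs (xa T3.l0 T3.l0) (xa (xb T3.l0 T3.l0) (xb T3.l0 T3.l0))) (xs T3.l0 (xa (xb T3.l0 T3.l0) (xb T3.l0 T3.l0))))))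
theorem qc5_0_0_l : chkTr (tg true true false RT.r2) b5_0 t3 rc5_0_0_l
  (upd lo Co.a (rc sI cl9 cl7 cl4 b5_0 (I.pos (nat_lit 0) (nat_lit 0)))) = true := by decide +kernel
def rc5_0_0_r : Tr := (xa (xb (xb (xs (xa T3.l0 T3.l0) (xa (xb (xc T3.l0 T3.l0) (xc T3.l0 T3.l0)) (xb (xc T3.l0 (xs T3.l0 T3.l0)) (xc T3.l0 (xs T3.l0 T3.l0))))) (xs (xa (xb T3.l0 T3.l0) (xb T3.l0 T3.l0)) (xa (xb T3.l0 T3.l0) (xb (xc T3.l0 T3.l0) (xc T3.l0 T3.l0))))) (xs (xb T3.l0 (xa T3.l15 (xb T3.l0 T3.l0))) (xb (xa (xb T3.l0 (xc T3.l15 (xs T3.l0 T3.l0))) (xb (xc T3.l0 T3.l0) (xc T3.l15 (xs T3.l0 T3.l0)))) (xa (xb (xs T3.l0 T3.l0) (xs T3.l0 T3.l0)) (xb T3.l0 T3.l0))))) (xb (xb (xs (xa T3.l0 T3.l0) (xa (xb (xc T3.l0 (xs T3.l0 T3.l0)) (xc T3.l0 (xs T3.l0 T3.l0))) (xb (xc T3.l0 (xs T3.l0 (xk T3.l0 T3.l0))) (xc T3.l0 (xs T3.l0 T3.l0))))) (xs (xa (xb T3.l0 T3.l0) T3.l0)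 (xa (xb (xc (xs T3.l0 T3.l0) T3.l0) (xc T3.l15 T3.l0)) (xb (xc T3.l0 (xs T3.l0 T3.l0)) (xc T3.l0 (xs T3.l0 T3.l0)))))) (xb (xs (xa T3.l0 (xb T3.l0 T3.l0)) (xa (xb (xc T3.l0 (xs T3.l0 T3.l0)) (xs T3.l15 (xc T3.l15 T3.l0))) (xb (xc T3.l0 T3.l0) (xs T3.l0 T3.l0)))) (xs (xa T3.l0 T3.l0) (xa (xb (xs T3.l0 T3.l0) (xs T3.l0 T3.l0)) (xb (xs T3.l0 T3.l0) (xs T3.l0 T3.l0)))))))
theorem qc5_0_0_r : chkTr (tg true true false RT.r2) b5_0 t3 rc5_0_0_r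
  (upd hi Co.a (rc sI cl9 cl7 cl4 b5_0 (I.pos (nat_lit 0) (nat_lit 0)))) = true := by decide +kernel
theorem qc5_0_0_ : chkTr (tg true true false RT.r2) b5_0 t3 (Tr.N Co.a rc5_0_0_l rc5_0_0_r)
  (rc sI cl9 cl7 cl4 b5_0 (I.pos (nat_lit 0) (nat_lit 0))) = true := tr_split qc5_0_0_l qc5_0_0_r
theorem c5_0_0 : chkTag sI cl9 cl7 cl4 t3 b5_0 (tg true true false RT.r2) (I.pos (nat_lit 0) (nat_lit 0))
  (Tr.N Co.a rc5_0_0_l rc5_0_0_r) = true := tag_mk (by decide +kernel) qc5_0_0_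
theorem c5_0_1 : chkTag sI cl9 cl7 cl4 t1 b5_0 (tg true false false RT.r3) (I.pos (nat_lit 0) (nat_lit 0))
  (xa (xk (xb T1.l9 T1.l9) (xb T1.l9 T1.l9)) (xk (xb T1.l9 (xa T1.l9 T1.l9)) (xb T1.l9 (xa T1.l9 T1.l9)))) = true := by decide +kernel
theorem c5_0_2 : chkTag sI cl9 cl7 cl4 t3 b5_0 (Tag.mk true true false RT.tl RT.r4) (I.pos (nat_lit 0) (nat_lit 124588530))
  (xR T3.l10 (xR T3.l10 (xR T3.l10 T3.l10))) = true := by decide +kernel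
theorem c5_0_3 : chkTag sI cl9 cl7 cl4 t1 b5_0 (Tag.mk true false false RT.tl RT.r5) (I.pos (nat_lit 0) (nat_lit 96881482))
  (xR T1.l10 (xR T1.l10 T1.l10)) = true := by decide +kernel
theorem c5_0_4 : chkTag sI cl9 cl7 cl4 t1 b5_0 (tg false false false RT.r3) (I.pos (nat_lit 0) (nat_lit 0))
  (xa (xk (xb T1.l11 T1.l11) (xb T1.l11 T1.l11)) (xk (xb (xa T1.l11 T1.l11) (xa T1.l11 (xb T1.l11 (xs T1.l11 (xk T1.l11 T1.l11))))) (xb (xa T1.l11 T1.l11) (xa (xb T1.l15 (xs T1.l11 T1.l15)) (xb T1.l11 (xs T1.l11 (xk (xb T1.l11 T1.l11) (xb T1.l11 (xa T1.l11 T1.l11))))))))) = true := by decide +kernel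
theorem c5_0_5 : chkTag sI cl9 cl7 cl4 t3 b5_0 (tg false true false RT.r4) (I.pos (nat_lit 0) (nat_lit 0))
  (xk T3.l11 T3.l11) = true := by decide +kernel
theorem c5_0_6 : chkTag sI cl9 cl7 cl4 t1 b5_0 (Tag.mk false false false RT.tl RT.r5) (I.mix (nat_lit 17240550) (nat_lit 96881482))
  (xR T1.l12 (xR T1.l12 T1.l12)) = true := by decide +kernel
theorem c5_0_7 : chkTag sI cl9 cl7 cl4 t3 b5_0 (Tag.mk false true false RT.tl RT.r6) (I.mix (nat_lit 17240550) (nat_lit 71940500))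
  (xR T3.l12 (xR T3.l12 T3.l12)) = true := by decide +kernel
theorem bx5_0 : BoxOK sI cl9 cl7 cl4 t3 t1 b5_0 :=
  box_mk' [(tg true true false RT.r2), (tg true false false RT.r3), (Tag.mk true true false RT.tl RT.r4), (Tag.mk true false false RT.tl RT.r5), (tg false false false RT.r3), (tg false true false RT.r4), (Tag.mk false false false RT.tl RT.r5), (Tag.mk false true false RT.tl RT.r6)] rfl (allL_c (ex_mk c5_0_0) (allL_c (ex_mk c5_0_1) (allL_c (ex_mk c5_0_2) (allL_c (ex_mk c5_0_3) (allL_c (ex_mk c5_0_4) (allL_c (ex_mk c5_0_5) (allL_c (ex_mk c5_0_6) (allL_c (ex_mk c5_0_7) allL_n))))))))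
theorem bx5_1 : BoxOK sI cl9 cl7 cl4 t3 t1 b5_1 :=
  box_mk (TrL.c (I.pos (nat_lit 0) (nat_lit 0)) (xa (xb T3.l13 T3.l20) (xb T3.l0 T3.l0))
  (TrL.c (I.pos (nat_lit 0) (nat_lit 0)) (xa T1.l9 T1.l9)
  (TrL.c (I.pos (nat_lit 0) (nat_lit 124588530)) (xR T3.l10 T3.l10)
  (TrL.c (I.pos (nat_lit 0) (nat_lit 96881482)) (xR T1.l10 T1.l10)
  (TrL.c (I.pos (nat_lit 0) (nat_lit 0)) (xa (xk T1.l13 T1.l19) (xk (xb T1.l13 T1.l13) T1.l13))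
  (TrL.c (I.pos (nat_lit 0) (nat_lit 0)) T3.l11
  (TrL.c (I.mix (nat_lit 17240550) (nat_lit 96881482)) (xR T1.l12 T1.l12)
  (TrL.c (I.mix (nat_lit 17240550) (nat_lit 71940500)) T3.l2
  TrL.n)))))))) (by decide +kernel)
theorem bx5_2 : BoxOK sI cl9 cl7 cl4 t3 t1 b5_2 :=
  box_mk (TrL.c (I.pos (nat_lit 0) (nat_lit 0)) (xa (xa (xb T3.l14 T3.l16) T3.l16) (xa T3.l16 T3.l16))
  (TrL.c (I.pos (nat_lit 0) (nat_lit 0)) (xa T1.l9 T1.l9)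
  (TrL.c (I.pos (nat_lit 0) (nat_lit 124588530)) T3.l10
  (TrL.c (I.pos (nat_lit 0) (nat_lit 96881482)) T1.l12
  (TrL.c (I.pos (nat_lit 0) (nat_lit 0)) (xa T1.l9 T1.l14)
  (TrL.c (I.pos (nat_lit 0) (nat_lit 0)) T3.l11
  (TrL.c (I.mix (nat_lit 17240550) (nat_lit 96881482)) T1.l12
  (TrL.c (I.mix (nat_lit 17240550) (nat_lit 71940500)) T3.l12
  TrL.n)))))))) (by decide +kernel)
theorem bx5_3 : BoxOK sI cl9 cl7 cl4 t3 t1 b5_3 :=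
  box_mk (TrL.c (I.pos (nat_lit 0) (nat_lit 0)) (xb (xa (xb T3.l0 T3.l0) (xb T3.l0 T3.l0)) (xa (xa T3.l15 T3.l15) (xb T3.l15 T3.l15)))
  (TrL.c (I.pos (nat_lit 0) (nat_lit 0)) (xb (xk T1.l9 T1.l9) (xk (xa T1.l9 T1.l9) (xa T1.l9 T1.l9)))
  (TrL.c (I.pos (nat_lit 0) (nat_lit 124588530)) (xR T3.l10 (xR T3.l10 T3.l4))
  (TrL.c (I.pos (nat_lit 0) (nat_lit 96881482)) (xR T1.l10 (xR T1.l10 T1.l10))
  (TrL.c (I.pos (nat_lit 0) (nat_lit 0)) (xb (xk T1.l15 T1.l15) (xk T1.l15 T1.l15))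
  (TrL.c (I.pos (nat_lit 0) (nat_lit 0)) T3.l11
  (TrL.c (I.mix (nat_lit 17240550) (nat_lit 96881482)) (xR T1.l12 (xR T1.l12 T1.l12))
  (TrL.c (I.mix (nat_lit 17240550) (nat_lit 71940500)) (xR T3.l12 (xR T3.l12 T3.l2))
  TrL.n)))))))) (by decide +kernel)
theorem bx5_4 : BoxOK sI cl9 cl7 cl4 t3 t1 b5_4 :=
  box_mk (TrL.c (I.pos (nat_lit 0) (nat_lit 0)) (xa (xa (xb (xa T3.l16 T3.l16) (xa (xb T3.l16 T3.l16) T3.l16)) (xb T3.l16 (xa T3.l16 T3.l16))) (xa (xb (xa T3.l16 T3.l16) (xa T3.l16 T3.l16)) (xb (xa T3.l16 T3.l16) (xa T3.l16 T3.l16))))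
  (TrL.c (I.pos (nat_lit 0) (nat_lit 0)) (xa (xa T1.l9 T1.l9) (xa T1.l9 T1.l9))
  (TrL.c (I.pos (nat_lit 0) (nat_lit 124588530)) T3.l10
  (TrL.c (I.pos (nat_lit 0) (nat_lit 96881482)) (xR T1.l10 (xR T1.l10 T1.l10))
  (TrL.c (I.pos (nat_lit 0) (nat_lit 0)) (xa (xa T1.l9 T1.l16) (xa T1.l16 T1.l16))
  (TrL.c (I.pos (nat_lit 0) (nat_lit 0)) T3.l11
  (TrL.c (I.mix (nat_lit 17240550) (nat_lit 96881482)) T1.l12
  (TrL.c (I.mix (nat_lit 17240550) (nat_lit 71940500)) T3.l12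
  TrL.n)))))))) (by decide +kernel)
theorem bx5_5 : BoxOK sI cl9 cl7 cl4 t3 t1 b5_5 :=
  box_mk (TrL.c (I.pos (nat_lit 0) (nat_lit 0)) T3.l17
  (TrL.c (I.pos (nat_lit 0) (nat_lit 0)) T1.l9
  (TrL.c (I.pos (nat_lit 0) (nat_lit 124588530)) (xR T3.l10 T3.l10)
  (TrL.c (I.pos (nat_lit 0) (nat_lit 96881482)) (xR T1.l10 T1.l10)
  (TrL.c (I.pos (nat_lit 0) (nat_lit 0)) (xk T1.l17 T1.l17)
  (TrL.c (I.pos (nat_lit 0) (nat_lit 0)) T3.l11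
  (TrL.c (I.mix (nat_lit 17240550) (nat_lit 96881482)) (xR T1.l12 T1.l12)
  (TrL.c (I.mix (nat_lit 17240550) (nat_lit 71940500)) T3.l12
  TrL.n)))))))) (by decide +kernel)
theorem bx5_6 : BoxOK sI cl9 cl7 cl4 t3 t1 b5_6 :=
  box_mk (TrL.c (I.pos (nat_lit 0) (nat_lit 0)) (xa (xa (xa T3.l18 T3.l18) T3.l16) T3.l16)
  (TrL.c (I.pos (nat_lit 0) (nat_lit 0)) (xa T1.l9 T1.l9)
  (TrL.c (I.pos (nat_lit 0) (nat_lit 124588530)) (xR T3.l10 (xR T3.l10 T3.l10))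
  (TrL.c (I.pos (nat_lit 0) (nat_lit 96881482)) T1.l12
  (TrL.c (I.pos (nat_lit 0) (nat_lit 0)) (xa T1.l9 T1.l16)
  (TrL.c (I.pos (nat_lit 0) (nat_lit 0)) T3.l11
  (TrL.c (I.mix (nat_lit 17240550) (nat_lit 96881482)) T1.l12
  (TrL.c (I.mix (nat_lit 17240550) (nat_lit 71940500)) T3.l12
  TrL.n)))))))) (by decide +kernel)
theorem bx5_7 : BoxOK sI cl9 cl7 cl4 t3 t1 b5_7 :=
  box_mk (TrL.c (I.pos (nat_lit 0) (nat_lit 0)) T3.l0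
  (TrL.c (I.pos (nat_lit 0) (nat_lit 0)) T1.l9
  (TrL.c (I.pos (nat_lit 0) (nat_lit 124588530)) (xR T3.l10 T3.l10)
  (TrL.c (I.pos (nat_lit 0) (nat_lit 96881482)) (xR T1.l10 T1.l10)
  (TrL.c (I.pos (nat_lit 0) (nat_lit 0)) (xk T1.l15 T1.l15)
  (TrL.c (I.pos (nat_lit 0) (nat_lit 0)) T3.l11
  (TrL.c (I.mix (nat_lit 17240550) (nat_lit 96881482)) (xR T1.l12 T1.l12)
  (TrL.c (I.mix (nat_lit 17240550) (nat_lit 71940500)) T3.l2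
  TrL.n)))))))) (by decide +kernel)
theorem bx5_8 : BoxOK sI cl9 cl7 cl4 t3 t1 b5_8 :=
  box_mk (TrL.c (I.pos (nat_lit 0) (nat_lit 0)) T3.l0
  (TrL.c (I.pos (nat_lit 0) (nat_lit 0)) T1.l9
  (TrL.c (I.pos (nat_lit 0) (nat_lit 124588530)) (xR T3.l10 T3.l10)
  (TrL.c (I.pos (nat_lit 0) (nat_lit 96881482)) (xR T1.l10 T1.l10)
  (TrL.c (I.pos (nat_lit 0) (nat_lit 0)) (xk (xb T1.l15 T1.l15) (xb T1.l15 T1.l15))
  (TrL.c (I.pos (nat_lit 0) (nat_lit 0)) T3.l11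
  (TrL.c (I.mix (nat_lit 17240550) (nat_lit 96881482)) (xR T1.l12 (xR T1.l12 T1.l12))
  (TrL.c (I.mix (nat_lit 17240550) (nat_lit 71940500)) T3.l2
  TrL.n)))))))) (by decide +kernel)
theorem bx5_9 : BoxOK sI cl9 cl7 cl4 t3 t1 b5_9 :=
  box_mk (TrL.c (I.pos (nat_lit 0) (nat_lit 0)) (xa (xb (xb (xs T3.l0 T3.l0) T3.l0) T3.l15) (xb (xb (xs T3.l0 T3.l0) T3.l15) (xb T3.l0 T3.l0)))
  (TrL.c (I.pos (nat_lit 0) (nat_lit 0)) (xk (xb T1.l9 T1.l9) (xb T1.l9 T1.l9))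
  (TrL.c (I.pos (nat_lit 0) (nat_lit 124588530)) (xR T3.l10 (xR T3.l10 T3.l10))
  (TrL.c (I.pos (nat_lit 0) (nat_lit 96881482)) (xR T1.l10 (xR T1.l10 T1.l10))
  (TrL.c (I.pos (nat_lit 0) (nat_lit 0)) (xk (xb T1.l15 T1.l15) (xb T1.l15 T1.l15))
  (TrL.c (I.pos (nat_lit 0) (nat_lit 0)) T3.l11
  (TrL.c (I.mix (nat_lit 17240550) (nat_lit 96881482)) (xR T1.l12 (xR T1.l12 T1.l12))
  (TrL.c (I.mix (nat_lit 17240550) (nat_lit 71940500)) T3.l2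
  TrL.n)))))))) (by decide +kernel)
theorem bx5_10 : BoxOK sI cl9 cl7 cl4 t3 t1 b5_10 :=
  box_mk (TrL.c (I.pos (nat_lit 0) (nat_lit 0)) (xa (xa (xb T3.l16 (xa T3.l16 T3.l16)) (xb T3.l16 T3.l16)) (xa (xa (xb T3.l16 T3.l16) (xb T3.l16 T3.l16)) (xa (xb T3.l16 T3.l16) T3.l19)))
  (TrL.c (I.pos (nat_lit 0) (nat_lit 0)) (xa (xa T1.l9 T1.l9) (xa T1.l9 T1.l9))
  (TrL.c (I.pos (nat_lit 0) (nat_lit 124588530)) T3.l10
  (TrL.c (I.pos (nat_lit 0) (nat_lit 96881482)) (xR T1.l10 T1.l10)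
  (TrL.c (I.pos (nat_lit 0) (nat_lit 0)) (xa (xa T1.l9 T1.l16) (xa T1.l16 T1.l18))
  (TrL.c (I.pos (nat_lit 0) (nat_lit 0)) T3.l11
  (TrL.c (I.mix (nat_lit 17240550) (nat_lit 96881482)) T1.l12
  (TrL.c (I.mix (nat_lit 17240550) (nat_lit 71940500)) T3.l12
  TrL.n)))))))) (by decide +kernel)
theorem bx5_11 : BoxOK sI cl9 cl7 cl4 t3 t1 b5_11 :=
  box_mk (TrL.c (I.pos (nat_lit 0) (nat_lit 0)) (xb (xa T3.l20 T3.l20) (xa (xb T3.l20 T3.l20) T3.l20))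
  (TrL.c (I.pos (nat_lit 0) (nat_lit 0)) (xb T1.l9 T1.l9)
  (TrL.c (I.pos (nat_lit 0) (nat_lit 124588530)) (xR T3.l10 T3.l10)
  (TrL.c (I.pos (nat_lit 0) (nat_lit 96881482)) (xR T1.l10 T1.l10)
  (TrL.c (I.pos (nat_lit 0) (nat_lit 0)) (xb (xa T1.l19 T1.l19) (xk T1.l19 T1.l19))
  (TrL.c (I.pos (nat_lit 0) (nat_lit 0)) T3.l11
  (TrL.c (I.mix (nat_lit 17240550) (nat_lit 96881482)) (xR T1.l12 T1.l12)
  (TrL.c (I.mix (nat_lit 17240550) (nat_lit 71940500)) T3.l2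
  TrL.n)))))))) (by decide +kernel)
theorem bx5_12 : BoxOK sI cl9 cl7 cl4 t3 t1 b5_12 :=
  box_mk (TrL.c (I.pos (nat_lit 0) (nat_lit 0)) (xa (xa (xb T3.l14 T3.l16) T3.l16) T3.l16)
  (TrL.c (I.pos (nat_lit 0) (nat_lit 0)) (xa T1.l9 T1.l9)
  (TrL.c (I.pos (nat_lit 0) (nat_lit 124588530)) T3.l10
  (TrL.c (I.pos (nat_lit 0) (nat_lit 96881482)) T1.l12
  (TrL.c (I.pos (nat_lit 0) (nat_lit 0)) (xa T1.l9 T1.l14)
  (TrL.c (I.pos (nat_lit 0) (nat_lit 0)) T3.l11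
  (TrL.c (I.mix (nat_lit 17240550) (nat_lit 96881482)) T1.l12
  (TrL.c (I.mix (nat_lit 17240550) (nat_lit 71940500)) T3.l12
  TrL.n)))))))) (by decide +kernel)
theorem bx5_13 : BoxOK sI cl9 cl7 cl4 t3 t1 b5_13 :=
  box_mk (TrL.c (I.pos (nat_lit 0) (nat_lit 0)) T3.l0
  (TrL.c (I.pos (nat_lit 0) (nat_lit 0)) (xk T1.l9 T1.l9)
  (TrL.c (I.pos (nat_lit 0) (nat_lit 124588530)) (xR T3.l10 T3.l10)
  (TrL.c (I.pos (nat_lit 0) (nat_lit 96881482)) (xR T1.l10 T1.l10)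
  (TrL.c (I.pos (nat_lit 0) (nat_lit 0)) T1.l11
  (TrL.c (I.pos (nat_lit 0) (nat_lit 0)) T3.l11
  (TrL.c (I.mix (nat_lit 17240550) (nat_lit 96881482)) (xR T1.l12 T1.l12)
  (TrL.c (I.mix (nat_lit 17240550) (nat_lit 71940500)) T3.l2
  TrL.n)))))))) (by decide +kernel)
theorem bx5_14 : BoxOK sI cl9 cl7 cl4 t3 t1 b5_14 :=
  box_mk (TrL.c (I.pos (nat_lit 0) (nat_lit 0)) (xa T3.l0 (xb T3.l0 T3.l0))
  (TrL.c (I.pos (nat_lit 0) (nat_lit 0)) (xa T1.l9 (xk T1.l9 T1.l9))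
  (TrL.c (I.pos (nat_lit 0) (nat_lit 124588530)) (xR T3.l10 T3.l4)
  (TrL.c (I.pos (nat_lit 0) (nat_lit 96881482)) (xR T1.l10 (xR T1.l10 T1.l10))
  (TrL.c (I.pos (nat_lit 0) (nat_lit 0)) (xk (xa T1.l11 (xb (xa T1.l11 (xk T1.l11 T1.l11)) T1.l11)) (xa T1.l11 (xb (xa T1.l11 T1.l11) T1.l11)))
  (TrL.c (I.pos (nat_lit 0) (nat_lit 0)) (xk T3.l11 T3.l11)
  (TrL.c (I.mix (nat_lit 17240550) (nat_lit 96881482)) (xR T1.l12 (xR T1.l12 T1.l12))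
  (TrL.c (I.mix (nat_lit 17240550) (nat_lit 71940500)) T3.l2
  TrL.n)))))))) (by decide +kernel)
theorem bx5_15 : BoxOK sI cl9 cl7 cl4 t3 t1 b5_15 :=
  box_mk (TrL.c (I.pos (nat_lit 0) (nat_lit 0)) (xa (xb (xa (xs T3.l0 T3.l0) (xs T3.l0 T3.l0)) (xa (xs T3.l0 T3.l0) (xs T3.l0 T3.l0))) (xb (xa (xs T3.l0 (xb T3.l0 T3.l0)) (xs T3.l0 (xb T3.l0 T3.l0))) (xs (xa T3.l0 T3.l0) (xa (xb T3.l0 T3.l0) (xb T3.l0 T3.l0)))))
  (TrL.c (I.pos (nat_lit 0) (nat_lit 0)) (xa (xk T1.l9 T1.l9) (xk T1.l9 T1.l9))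
  (TrL.c (I.pos (nat_lit 0) (nat_lit 124588530)) (xR T3.l10 (xR T3.l10 T3.l10))
  (TrL.c (I.pos (nat_lit 0) (nat_lit 96881482)) (xR T1.l10 (xR T1.l10 T1.l10))
  (TrL.c (I.pos (nat_lit 0) (nat_lit 0)) (xk (xa T1.l11 T1.l11) (xa T1.l11 T1.l11))
  (TrL.c (I.pos (nat_lit 0) (nat_lit 0)) T3.l11
  (TrL.c (I.mix (nat_lit 17240550) (nat_lit 96881482)) (xR T1.l12 (xR T1.l12 T1.l12))
  (TrL.c (I.mix (nat_lit 17240550) (nat_lit 71940500)) (xR T3.l12 T3.l2)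
  TrL.n)))))))) (by decide +kernel)
theorem bx5_16 : BoxOK sI cl9 cl7 cl4 t3 t1 b5_16 :=
  box_mk (TrL.c (I.pos (nat_lit 0) (nat_lit 0)) (xa (xb T3.l0 T3.l0) (xb (xa T3.l0 T3.l0) (xa T3.l0 (xs T3.l0 T3.l0))))
  (TrL.c (I.pos (nat_lit 0) (nat_lit 0)) (xa (xk T1.l9 T1.l9) (xk (xb T1.l9 (xa T1.l9 T1.l9)) T1.l9))
  (TrL.c (I.pos (nat_lit 0) (nat_lit 124588530)) (xR T3.l10 (xR T3.l10 T3.l4))
  (TrL.c (I.pos (nat_lit 0) (nat_lit 96881482)) (xR T1.l10 (xR T1.l10 T1.l10))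
  (TrL.c (I.pos (nat_lit 0) (nat_lit 0)) (xa (xk (xb (xa T1.l11 T1.l11) T1.l11) (xb T1.l11 T1.l11)) (xk (xb (xa T1.l11 (xk T1.l11 T1.l11)) (xa T1.l11 (xk (xb T1.l11 T1.l11) (xb T1.l11 T1.l11)))) (xb (xa T1.l11 (xk T1.l11 T1.l11)) (xa T1.l11 (xk T1.l11 T1.l11)))))
  (TrL.c (I.pos (nat_lit 0) (nat_lit 0)) (xk (xa T3.l11 (xb T3.l11 T3.l11)) (xa T3.l11 (xb T3.l11 T3.l11)))
  (TrL.c (I.mix (nat_lit 17240550) (nat_lit 96881482)) (xR T1.l12 (xR T1.l12 (xR T1.l12 T1.l12)))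
  (TrL.c (I.mix (nat_lit 17240550) (nat_lit 71940500)) (xR T3.l12 T3.l2)
  TrL.n)))))))) (by decide +kernel)
theorem bx5_17 : BoxOK sI cl9 cl7 cl4 t3 t1 b5_17 :=
  box_mk (TrL.c (I.pos (nat_lit 0) (nat_lit 0)) T3.l0
  (TrL.c (I.pos (nat_lit 0) (nat_lit 0)) T1.l9
  (TrL.c (I.pos (nat_lit 0) (nat_lit 124588530)) (xR T3.l10 T3.l10)
  (TrL.c (I.pos (nat_lit 0) (nat_lit 96881482)) (xR T1.l10 T1.l10)
  (TrL.c (I.pos (nat_lit 0) (nat_lit 0)) (xk T1.l0 T1.l0)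
  (TrL.c (I.pos (nat_lit 0) (nat_lit 0)) T3.l11
  (TrL.c (I.mix (nat_lit 17240550) (nat_lit 96881482)) (xR T1.l12 T1.l12)
  (TrL.c (I.mix (nat_lit 17240550) (nat_lit 71940500)) T3.l2
  TrL.n)))))))) (by decide +kernel)
theorem bx5_18 : BoxOK sI cl9 cl7 cl4 t3 t1 b5_18 :=
  box_mk (TrL.c (I.pos (nat_lit 0) (nat_lit 0)) (xa T3.l0 (xa T3.l0 (xb T3.l0 T3.l0)))
  (TrL.c (I.pos (nat_lit 0) (nat_lit 0)) (xa (xk T1.l9 T1.l9) (xk (xa T1.l9 T1.l9) T1.l9))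
  (TrL.c (I.pos (nat_lit 0) (nat_lit 124588530)) (xR T3.l10 T3.l4)
  (TrL.c (I.pos (nat_lit 0) (nat_lit 96881482)) (xR T1.l10 (xR T1.l10 T1.l10))
  (TrL.c (I.pos (nat_lit 0) (nat_lit 0)) (xa T1.l11 (xk (xb (xa T1.l11 T1.l11) (xa T1.l11 (xk T1.l11 T1.l11))) (xa T1.l11 (xb T1.l11 T1.l11))))
  (TrL.c (I.pos (nat_lit 0) (nat_lit 0)) (xk (xa T3.l11 T3.l11) T3.l11)
  (TrL.c (I.mix (nat_lit 17240550) (nat_lit 96881482)) (xR T1.l12 (xR T1.l12 (xR T1.l12 T1.l12)))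
  (TrL.c (I.mix (nat_lit 17240550) (nat_lit 71940500)) T3.l2
  TrL.n)))))))) (by decide +kernel)
theorem bx5_19 : BoxOK sI cl9 cl7 cl4 t3 t1 b5_19 :=
  box_mk (TrL.c (I.pos (nat_lit 0) (nat_lit 0)) T3.l0
  (TrL.c (I.pos (nat_lit 0) (nat_lit 0)) (xk T1.l9 T1.l9)
  (TrL.c (I.pos (nat_lit 0) (nat_lit 124588530)) (xR T3.l10 T3.l4)
  (TrL.c (I.pos (nat_lit 0) (nat_lit 96881482)) (xR T1.l10 T1.l10)
  (TrL.c (I.pos (nat_lit 0) (nat_lit 0)) (xk T1.l11 T1.l11)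
  (TrL.c (I.pos (nat_lit 0) (nat_lit 0)) T3.l11
  (TrL.c (I.mix (nat_lit 17240550) (nat_lit 96881482)) (xR T1.l12 T1.l12)
  (TrL.c (I.mix (nat_lit 17240550) (nat_lit 71940500)) T3.l2
  TrL.n)))))))) (by decide +kernel)
theorem bx5_20 : BoxOK sI cl9 cl7 cl4 t3 t1 b5_20 :=
  box_mk (TrL.c (I.pos (nat_lit 0) (nat_lit 0)) T3.l0
  (TrL.c (I.pos (nat_lit 0) (nat_lit 0)) T1.l9
  (TrL.c (I.pos (nat_lit 0) (nat_lit 124588530)) (xR T3.l10 T3.l10)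
  (TrL.c (I.pos (nat_lit 0) (nat_lit 96881482)) (xR T1.l10 T1.l10)
  (TrL.c (I.pos (nat_lit 0) (nat_lit 0)) (xk (xb T1.l0 T1.l11) (xb T1.l0 T1.l11))
  (TrL.c (I.pos (nat_lit 0) (nat_lit 0)) T3.l11
  (TrL.c (I.mix (nat_lit 17240550) (nat_lit 96881482)) (xR T1.l12 T1.l12)
  (TrL.c (I.mix (nat_lit 17240550) (nat_lit 71940500)) T3.l2
  TrL.n)))))))) (by decide +kernel)
theorem bx5_21 : BoxOK sI cl9 cl7 cl4 t3 t1 b5_21 :=
  box_mk (TrL.c (I.pos (nat_lit 0) (nat_lit 0)) T3.l0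
  (TrL.c (I.pos (nat_lit 0) (nat_lit 0)) T1.l9
  (TrL.c (I.pos (nat_lit 0) (nat_lit 124588530)) (xR T3.l10 T3.l10)
  (TrL.c (I.pos (nat_lit 0) (nat_lit 96881482)) (xR T1.l10 T1.l10)
  (TrL.c (I.pos (nat_lit 0) (nat_lit 0)) T1.l11
  (TrL.c (I.pos (nat_lit 0) (nat_lit 0)) T3.l11
  (TrL.c (I.mix (nat_lit 17240550) (nat_lit 96881482)) (xR T1.l12 T1.l12)
  (TrL.c (I.mix (nat_lit 17240550) (nat_lit 71940500)) T3.l2
  TrL.n)))))))) (by decide +kernel)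
theorem sv5 : StarV sI cl9 cl7 cl4 t3 t1 t5 :=
  (bt_n (bt_n (bt_n (bt_n (bt_b bx5_0) (bt_b bx5_1)) (bt_n (bt_b bx5_2) (bt_n (bt_b bx5_3) (bt_b bx5_4)))) (bt_n (bt_n (bt_b bx5_5) (bt_n (bt_b bx5_6) (bt_b bx5_7))) (bt_n (bt_b bx5_8) (bt_n (bt_b bx5_9) (bt_b bx5_10))))) (bt_n (bt_n (bt_n (bt_b bx5_11) (bt_b bx5_12)) (bt_n (bt_b bx5_13) (bt_n (bt_b bx5_14) (bt_b bx5_15)))) (bt_n (bt_n (bt_b bx5_16) (bt_n (bt_b bx5_17) (bt_b bx5_18))) (bt_n (bt_b bx5_19) (bt_n (bt_b bx5_20) (bt_b bx5_21))))))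
def S5 : StarD := StarD.mk cl9 cl7 cl4 3 1 t5
def G : List StarD := [S0, S1, S2, S3, S4, S5]
theorem so0 : StarOK sI G S0 :=
  star_mk (by decide) (by decide) rfl rfl rfl rfl rfl rfl (rfl : _ = t2) (rfl : _ = t4)
  (st_mk (Pth.l (Pth.l (Pth.l (Pth.l Pth.z)))) (nat_lit 145163549) (nat_lit 169082548) (by decide +kernel))
  (st_mk (Pth.l (Pth.l (Pth.l (Pth.l Pth.z)))) (nat_lit 183048494) (nat_lit 207881082) (by decide +kernel))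
  (st_mk (Pth.l (Pth.l (Pth.l (Pth.l Pth.z)))) (nat_lit 227708241) (nat_lit 253819957) (by decide +kernel)) sv0
theorem so1 : StarOK sI G S1 :=
  star_mk (by decide) (by decide) rfl rfl rfl rfl rfl rfl (rfl : _ = t4) (rfl : _ = t2)
  (st_mk (Pth.l (Pth.l (Pth.l (Pth.l Pth.z)))) (nat_lit 118847345) (nat_lit 138710515) (by decide +kernel))
  (st_mk (Pth.l (Pth.l (Pth.l (Pth.l Pth.z)))) (nat_lit 154600107) (nat_lit 179101634) (by decide +kernel))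
  (st_mk (Pth.l (Pth.l (Pth.l (Pth.l Pth.z)))) (nat_lit 199054200) (nat_lit 224807402) (by decide +kernel)) sv1
theorem so2 : StarOK sI G S2 :=
  star_mk (by decide) (by decide) rfl rfl rfl rfl rfl rfl (rfl : _ = t0) (rfl : _ = t5)
  (st_mk (Pth.l (Pth.l (Pth.l (Pth.l Pth.z)))) (nat_lit 369833749) (nat_lit 374654397) (by decide +kernel))
  (st_mk (Pth.l (Pth.l (Pth.l (Pth.l Pth.z)))) (nat_lit 405866355) (nat_lit 411358456) (by decide +kernel))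
  (st_mk (Pth.l (Pth.l (Pth.l (Pth.l Pth.z)))) (nat_lit 447578249) (nat_lit 453932155) (by decide +kernel)) sv2
theorem so3 : StarOK sI G S3 :=
  star_mk (by decide) (by decide) rfl rfl rfl rfl rfl rfl (rfl : _ = t5) (rfl : _ = t0)
  (st_mk (Pth.l (Pth.l (Pth.l (Pth.l Pth.z)))) (nat_lit 116150818) (nat_lit 135089227) (by decide +kernel))
  (st_mk (Pth.l (Pth.l (Pth.l (Pth.l Pth.z)))) (nat_lit 151792602) (nat_lit 171243679) (by decide +kernel))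
  (st_mk (Pth.l (Pth.l (Pth.l (Pth.l Pth.z)))) (nat_lit 191291152) (nat_lit 215229193) (by decide +kernel)) sv3
theorem so4 : StarOK sI G S4 :=
  star_mk (by decide) (by decide) rfl rfl rfl rfl rfl rfl (rfl : _ = t1) (rfl : _ = t3)
  (st_mk (Pth.l (Pth.l (Pth.l (Pth.l Pth.z)))) (nat_lit 367343504) (nat_lit 370779078) (by decide +kernel))
  (st_mk (Pth.l (Pth.l (Pth.l (Pth.l Pth.z)))) (nat_lit 402217074) (nat_lit 407320319) (by decide +kernel))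
  (st_mk (Pth.l (Pth.l (Pth.l (Pth.l Pth.z)))) (nat_lit 443134949) (nat_lit 448996081) (by decide +kernel)) sv4
theorem so5 : StarOK sI G S5 :=
  star_mk (by decide) (by decide) rfl rfl rfl rfl rfl rfl (rfl : _ = t3) (rfl : _ = t1)
  (st_mk (Pth.l (Pth.l (Pth.l (Pth.l Pth.z)))) (nat_lit 140661351) (nat_lit 163271720) (by decide +kernel))
  (st_mk (Pth.l (Pth.l (Pth.l (Pth.l Pth.z)))) (nat_lit 175926307) (nat_lit 199000424) (by decide +kernel))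
  (st_mk (Pth.l (Pth.l (Pth.l (Pth.l Pth.z)))) (nat_lit 216718357) (nat_lit 240439493) (by decide +kernel)) sv5
theorem ok : GroupOK (nat_lit 150274048) (nat_lit 209387520) G := grp_mk (allS_c so0 (allS_c so1 (allS_c so2 (allS_c so3 (allS_c so4 (allS_c so5 allS_n))))))
theorem cov : GCov G cl4 cl7 cl9 := cov_mk
  ⟨0, by decide, rfl, rfl, rfl⟩ ⟨1, by decide, rfl, rfl, rfl⟩ ⟨2, by decide, rfl, rfl, rfl⟩ ⟨3, by decide, rfl, rfl, rfl⟩ ⟨4, by decide, rfl, rfl, rfl⟩ ⟨5, by decide, rfl, rfl, rfl⟩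
end Q145_2


end Pool.Agent.Helper6.MONO
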