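import Pool.Agent.Helper6.MONO.Cert.C63

/-!
Certificate data (generated).
-/

set_option autoImplicit false
set_option linter.all false
noncomputable section
namespace Pool.Agent.Helper6.MONO


namespace Q145_3
def sI : I := I.pos (nat_lit 209321984) (nat_lit 238944256)
def b0_0 : Bx := Bx.mk (St.mk (I.pos (nat_lit 158482432) (nat_lit 233668608)) (I.mix (nat_lit 1933312) (nat_lit 62570496)) (I.mix (nat_lit 6537216) (nat_lit 65454080)) (I.pos (nat_lit 143884288) (nat_lit 285753344)) (I.mix (nat_lit 118226944) (nat_lit 78397440)) (I.mix (nat_lit 70942720) (nat_lit 70942720)) (I.mix (nat_lit 111443968) (nat_lit 113082368)))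
  false (nat_lit 24389286)
def b0_1 : Bx := Bx.mk (St.mk (I.mix (nat_lit 18530304) (nat_lit 115359744)) (I.mix (nat_lit 6307840) (nat_lit 31244288)) (I.mix (nat_lit 27394048) (nat_lit 4931584)) (I.pos (nat_lit 41172992) (nat_lit 112082944)) (I.mix (nat_lit 40697856) (nat_lit 50167808)) (I.mix (nat_lit 38846464) (nat_lit 30883840)) (I.mix (nat_lit 28033024) (nat_lit 21004288)))
  false (nat_lit 0)
def b0_2 : Bx := Bx.mk (St.mk (I.pos (nat_lit 88031232) (nat_lit 130007040)) (I.mix (nat_lit 49233920) (nat_lit 9633792)) (I.neg (nat_lit 9322496) (nat_lit 64372736)) (I.pos (nat_lit 74465280) (nat_lit 124600320)) (I.mix (nat_lit 103038976) (nat_lit 46743552)) (I.mix (nat_lit 42450944) (nat_lit 89309184)) (I.mix (nat_lit 28459008) (nat_lit 70795264)))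
  false (nat_lit 0)
def b0_3 : Bx := Bx.mk (St.mk (I.mix (nat_lit 33390592) (nat_lit 65028096)) (I.mix (nat_lit 29016064) (nat_lit 4194304)) (I.neg (nat_lit 3768320) (nat_lit 26869760)) (I.pos (nat_lit 42123264) (nat_lit 78479360)) (I.mix (nat_lit 47693824) (nat_lit 21790720)) (I.mix (nat_lit 20758528) (nat_lit 36225024)) (I.mix (nat_lit 9666560) (nat_lit 15548416)))
  false (nat_lit 0)
def b0_4 : Bx := Bx.mk (St.mk (I.pos (nat_lit 79839232) (nat_lit 113033216)) (I.mix (nat_lit 10174464) (nat_lit 14467072)) (I.neg (nat_lit 5734400) (nat_lit 30916608)) (I.pos (nat_lit 71647232) (nat_lit 111869952)) (I.mix (nat_lit 42958848) (nat_lit 30130176)) (I.mix (nat_lit 30523392) (nat_lit 28082176)) (I.mix (nat_lit 18972672) (nat_lit 22020096)))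
  false (nat_lit 0)
def b0_5 : Bx := Bx.mk (St.mk (I.mix (nat_lit 42893312) (nat_lit 50298880)) (I.mix (nat_lit 6111232) (nat_lit 9256960)) (I.neg (nat_lit 6750208) (nat_lit 16728064)) (I.pos (nat_lit 42696704) (nat_lit 71860224)) (I.mix (nat_lit 21413888) (nat_lit 18481152)) (I.mix (nat_lit 16564224) (nat_lit 15695872)) (I.mix (nat_lit 4489216) (nat_lit 5832704)))
  false (nat_lit 0)
def b0_6 : Bx := Bx.mk (St.mk (I.pos (nat_lit 211632128) (nat_lit 255541248)) (I.mix (nat_lit 14385152) (nat_lit 17022976)) (I.neg (nat_lit 22822912) (nat_lit 89407488)) (I.pos (nat_lit 233521152) (nat_lit 322879488)) (I.mix (nat_lit 96256000) (nat_lit 27410432)) (I.mix (nat_lit 51527680) (nat_lit 54788096)) (I.mix (nat_lit 77250560) (nat_lit 108052480)))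
  false (nat_lit 0)
def b0_7 : Bx := Bx.mk (St.mk (I.pos (nat_lit 189415424) (nat_lit 247676928)) (I.mix (nat_lit 13631488) (nat_lit 60391424)) (I.mix (nat_lit 80789504) (nat_lit 56819712)) (I.pos (nat_lit 216956928) (nat_lit 303824896)) (I.mix (nat_lit 107954176) (nat_lit 89260032)) (I.mix (nat_lit 88113152) (nat_lit 75530240)) (I.mix (nat_lit 149913600) (nat_lit 127057920)))
  false (nat_lit 20795209)
def b0_8 : Bx := Bx.mk (St.mk (I.pos (nat_lit 87425024) (nat_lit 170377216)) (I.neg (nat_lit 2588672) (nat_lit 48922624)) (I.neg (nat_lit 15351808) (nat_lit 62504960)) (I.pos (nat_lit 85409792) (nat_lit 173785088)) (I.mix (nat_lit 82100224) (nat_lit 40976384)) (I.mix (nat_lit 37224448) (nat_lit 59949056)) (I.mix (nat_lit 27443200) (nat_lit 57311232)))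
  false (nat_lit 0)
def b0_9 : Bx := Bx.mk (St.mk (I.mix (nat_lit 21905408) (nat_lit 83542016)) (I.mix (nat_lit 29245440) (nat_lit 5062656)) (I.neg (nat_lit 3964928) (nat_lit 27738112)) (I.pos (nat_lit 41222144) (nat_lit 89456640)) (I.mix (nat_lit 45744128) (nat_lit 27738112)) (I.mix (nat_lit 20692992) (nat_lit 33390592)) (I.mix (nat_lit 10780672) (nat_lit 18890752)))
  false (nat_lit 0)
def b0_10 : Bx := Bx.mk (St.mk (I.pos (nat_lit 166051840) (nat_lit 216842240)) (I.mix (nat_lit 8552448) (nat_lit 56672256)) (I.mix (nat_lit 18972672) (nat_lit 59572224)) (I.pos (nat_lit 163692544) (nat_lit 251592704)) (I.mix (nat_lit 122978304) (nat_lit 55689216)) (I.mix (nat_lit 110280704) (nat_lit 73547776)) (I.mix (nat_lit 109232128) (nat_lit 74334208)))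
  false (nat_lit 15437214)
def b0_11 : Bx := Bx.mk (St.mk (I.mix (nat_lit 36880384) (nat_lit 112656384)) (I.mix (nat_lit 12910592) (nat_lit 32784384)) (I.mix (nat_lit 21331968) (nat_lit 7045120)) (I.pos (nat_lit 40337408) (nat_lit 110575616)) (I.mix (nat_lit 42270720) (nat_lit 42762240)) (I.mix (nat_lit 41779200) (nat_lit 29753344)) (I.mix (nat_lit 21544960) (nat_lit 15187968)))
  false (nat_lit 0)
def b0_12 : Bx := Bx.mk (St.mk (I.pos (nat_lit 138051584) (nat_lit 208453632)) (I.mix (nat_lit 33226752) (nat_lit 15024128)) (I.mix (nat_lit 55607296) (nat_lit 3211264)) (I.pos (nat_lit 122650624) (nat_lit 225411072)) (I.mix (nat_lit 69042176) (nat_lit 69238784)) (I.mix (nat_lit 71548928) (nat_lit 65077248)) (I.mix (nat_lit 73433088) (nat_lit 60096512)))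
  false (nat_lit 0)
def b0_13 : Bx := Bx.mk (St.mk (I.pos (nat_lit 165691392) (nat_lit 209944576)) (I.mix (nat_lit 16662528) (nat_lit 28917760)) (I.mix (nat_lit 33357824) (nat_lit 24494080)) (I.pos (nat_lit 164593664) (nat_lit 230457344)) (I.mix (nat_lit 99221504) (nat_lit 82247680)) (I.mix (nat_lit 104120320) (nat_lit 79298560)) (I.mix (nat_lit 109232128) (nat_lit 76595200)))
  false (nat_lit 0)
def t0 : BTr := (BTr.n (BTr.n (BTr.n (BTr.b b0_0) (BTr.n (BTr.b b0_1) (BTr.b b0_2))) (BTr.n (BTr.n (BTr.b b0_3) (BTr.b b0_4)) (BTr.n (BTr.b b0_5) (BTr.b b0_6)))) (BTr.n (BTr.n (BTr.b b0_7) (BTr.n (BTr.b b0_8) (BTr.b b0_9))) (BTr.n (BTr.n (BTr.b b0_10) (BTr.b b0_11)) (BTr.n (BTr.b b0_12) (BTr.b b0_13)))))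
namespace T0
def l0 : Tr := Tr.L (Pth.l (Pth.l (Pth.l Pth.z)))
def l1 : Tr := Tr.L (Pth.l (Pth.l (Pth.r (Pth.l Pth.z))))
def l2 : Tr := Tr.L (Pth.l (Pth.l (Pth.r (Pth.r Pth.z))))
def l3 : Tr := Tr.L (Pth.l (Pth.r (Pth.l (Pth.l Pth.z))))
def l4 : Tr := Tr.L (Pth.l (Pth.r (Pth.l (Pth.r Pth.z))))
def l5 : Tr := Tr.L (Pth.l (Pth.r (Pth.r (Pth.l Pth.z))))
def l6 : Tr := Tr.L (Pth.l (Pth.r (Pth.r (Pth.r Pth.z))))
def l7 : Tr := Tr.L (Pth.r (Pth.l (Pth.l Pth.z)))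
def l8 : Tr := Tr.L (Pth.r (Pth.l (Pth.r (Pth.l Pth.z))))
def l9 : Tr := Tr.L (Pth.r (Pth.l (Pth.r (Pth.r Pth.z))))
def l10 : Tr := Tr.L (Pth.r (Pth.r (Pth.l (Pth.l Pth.z))))
def l11 : Tr := Tr.L (Pth.r (Pth.r (Pth.l (Pth.r Pth.z))))
def l12 : Tr := Tr.L (Pth.r (Pth.r (Pth.r (Pth.l Pth.z))))
def l13 : Tr := Tr.L (Pth.r (Pth.r (Pth.r (Pth.r Pth.z))))
end T0
def b1_0 : Bx := Bx.mk (St.mk (I.pos (nat_lit 158449664) (nat_lit 234749952)) (I.mix (nat_lit 1753088) (nat_lit 55148544)) (I.mix (nat_lit 2080768) (nat_lit 68927488)) (I.pos (nat_lit 115490816) (nat_lit 256425984)) (I.mix (nat_lit 110575616) (nat_lit 73170944)) (I.mix (nat_lit 70385664) (nat_lit 66519040)) (I.mix (nat_lit 109428736) (nat_lit 102055936)))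
  false (nat_lit 0)
def b1_1 : Bx := Bx.mk (St.mk (I.mix (nat_lit 10813440) (nat_lit 125730816)) (I.mix (nat_lit 5898240) (nat_lit 26411008)) (I.mix (nat_lit 20578304) (nat_lit 9584640)) (I.pos (nat_lit 15532032) (nat_lit 94879744)) (I.mix (nat_lit 39485440) (nat_lit 41517056)) (I.mix (nat_lit 32882688) (nat_lit 25493504)) (I.mix (nat_lit 26263552) (nat_lit 20905984)))
  false (nat_lit 0)
def b1_2 : Bx := Bx.mk (St.mk (I.pos (nat_lit 101613568) (nat_lit 143900672)) (I.mix (nat_lit 45547520) (nat_lit 8912896)) (I.neg (nat_lit 4308992) (nat_lit 57999360)) (I.pos (nat_lit 60325888) (nat_lit 110411776)) (I.mix (nat_lit 99385344) (nat_lit 45203456)) (I.mix (nat_lit 39518208) (nat_lit 85098496)) (I.mix (nat_lit 30097408) (nat_lit 72744960)))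
  false (nat_lit 0)
def b1_3 : Bx := Bx.mk (St.mk (I.mix (nat_lit 20660224) (nat_lit 87769088)) (I.mix (nat_lit 24887296) (nat_lit 3964928)) (I.neg (nat_lit 802816) (nat_lit 23805952)) (I.pos (nat_lit 16547840) (nat_lit 63832064)) (I.mix (nat_lit 42614784) (nat_lit 19660800)) (I.mix (nat_lit 18563072) (nat_lit 34209792)) (I.mix (nat_lit 9158656) (nat_lit 18382848)))
  false (nat_lit 0)
def b1_4 : Bx := Bx.mk (St.mk (I.pos (nat_lit 191250432) (nat_lit 247234560)) (I.mix (nat_lit 13008896) (nat_lit 54509568)) (I.mix (nat_lit 63225856) (nat_lit 63356928)) (I.pos (nat_lit 192724992) (nat_lit 275120128)) (I.mix (nat_lit 106119168) (nat_lit 83312640)) (I.mix (nat_lit 86786048) (nat_lit 73236480)) (I.mix (nat_lit 144359424) (nat_lit 117374976)))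
  false (nat_lit 5933198)
def b1_5 : Bx := Bx.mk (St.mk (I.mix (nat_lit 24707072) (nat_lit 6275072)) (I.mix (nat_lit 3637248) (nat_lit 5439488)) (I.neg (nat_lit 1818624) (nat_lit 7389184)) (I.pos (nat_lit 17694720) (nat_lit 38780928)) (I.mix (nat_lit 9715712) (nat_lit 7471104)) (I.mix (nat_lit 6078464) (nat_lit 5734400)) (I.mix (nat_lit 1310720) (nat_lit 1638400)))
  false (nat_lit 0)
def b1_6 : Bx := Bx.mk (St.mk (I.pos (nat_lit 94388224) (nat_lit 125419520)) (I.mix (nat_lit 8847360) (nat_lit 12910592)) (I.neg (nat_lit 1409024) (nat_lit 23461888)) (I.pos (nat_lit 56475648) (nat_lit 95911936)) (I.mix (nat_lit 39911424) (nat_lit 24707072)) (I.mix (nat_lit 26869760) (nat_lit 24920064)) (I.mix (nat_lit 17924096) (nat_lit 20971520)))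
  false (nat_lit 0)
def b1_7 : Bx := Bx.mk (St.mk (I.pos (nat_lit 215810048) (nat_lit 254771200)) (I.mix (nat_lit 13697024) (nat_lit 16449536)) (I.neg (nat_lit 9617408) (nat_lit 70746112)) (I.pos (nat_lit 215138304) (nat_lit 294371328)) (I.mix (nat_lit 93405184) (nat_lit 23412736)) (I.mix (nat_lit 47005696) (nat_lit 51757056)) (I.mix (nat_lit 71172096) (nat_lit 100270080)))
  false (nat_lit 0)
def b1_8 : Bx := Bx.mk (St.mk (I.pos (nat_lit 100728832) (nat_lit 177995776)) (I.neg (nat_lit 1376256) (nat_lit 46432256)) (I.neg (nat_lit 11583488) (nat_lit 57835520)) (I.pos (nat_lit 72368128) (nat_lit 152043520)) (I.mix (nat_lit 78069760) (nat_lit 41517056)) (I.mix (nat_lit 36945920) (nat_lit 57884672)) (I.mix (nat_lit 30507008) (nat_lit 58556416)))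
  false (nat_lit 0)
def b1_9 : Bx := Bx.mk (St.mk (I.mix (nat_lit 21921792) (nat_lit 104185856)) (I.mix (nat_lit 26656768) (nat_lit 5357568)) (I.neg (nat_lit 802816) (nat_lit 24543232)) (I.pos (nat_lit 15630336) (nat_lit 76070912)) (I.mix (nat_lit 42156032) (nat_lit 25231360)) (I.mix (nat_lit 17793024) (nat_lit 29802496)) (I.mix (nat_lit 9453568) (nat_lit 18907136)))
  false (nat_lit 0)
def b1_10 : Bx := Bx.mk (St.mk (I.pos (nat_lit 169574400) (nat_lit 214974464)) (I.mix (nat_lit 10584064) (nat_lit 48300032)) (I.mix (nat_lit 14237696) (nat_lit 60391424)) (I.pos (nat_lit 140853248) (nat_lit 219807744)) (I.mix (nat_lit 116424704) (nat_lit 48562176)) (I.mix (nat_lit 106315776) (nat_lit 64225280)) (I.mix (nat_lit 114065408) (nat_lit 70107136)))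
  false (nat_lit 0)
def b1_11 : Bx := Bx.mk (St.mk (I.mix (nat_lit 24166400) (nat_lit 125304832)) (I.mix (nat_lit 13434880) (nat_lit 27869184)) (I.mix (nat_lit 18808832) (nat_lit 11976704)) (I.pos (nat_lit 15253504) (nat_lit 93995008)) (I.mix (nat_lit 43892736) (nat_lit 35766272)) (I.mix (nat_lit 40452096) (nat_lit 26361856)) (I.mix (nat_lit 23904256) (nat_lit 15237120)))
  false (nat_lit 0)
def b1_12 : Bx := Bx.mk (St.mk (I.pos (nat_lit 142835712) (nat_lit 209502208)) (I.mix (nat_lit 36929536) (nat_lit 11354112)) (I.mix (nat_lit 55525376) (nat_lit 6176768)) (I.pos (nat_lit 103743488) (nat_lit 201359360)) (I.mix (nat_lit 63209472) (nat_lit 64684032)) (I.mix (nat_lit 67321856) (nat_lit 61947904)) (I.mix (nat_lit 72843264) (nat_lit 61177856)))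
  false (nat_lit 20683291)
def b1_13 : Bx := Bx.mk (St.mk (I.pos (nat_lit 168624128) (nat_lit 209354752)) (I.mix (nat_lit 18874368) (nat_lit 24657920)) (I.mix (nat_lit 28622848) (nat_lit 27705344)) (I.pos (nat_lit 139165696) (nat_lit 202899456)) (I.mix (nat_lit 99385344) (nat_lit 70942720)) (I.mix (nat_lit 103071744) (nat_lit 69320704)) (I.mix (nat_lit 113065984) (nat_lit 72220672)))
  false (nat_lit 0)
def t1 : BTr := (BTr.n (BTr.n (BTr.n (BTr.b b1_0) (BTr.n (BTr.b b1_1) (BTr.b b1_2))) (BTr.n (BTr.n (BTr.b b1_3) (BTr.b b1_4)) (BTr.n (BTr.b b1_5) (BTr.b b1_6)))) (BTr.n (BTr.n (BTr.b b1_7) (BTr.n (BTr.b b1_8) (BTr.b b1_9))) (BTr.n (BTr.n (BTr.b b1_10) (BTr.b b1_11)) (BTr.n (BTr.b b1_12) (BTr.b b1_13)))))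
namespace T1
def l0 : Tr := Tr.L (Pth.l (Pth.l (Pth.l Pth.z)))
def l1 : Tr := Tr.L (Pth.l (Pth.l (Pth.r (Pth.l Pth.z))))
def l2 : Tr := Tr.L (Pth.l (Pth.l (Pth.r (Pth.r Pth.z))))
def l3 : Tr := Tr.L (Pth.l (Pth.r (Pth.l (Pth.l Pth.z))))
def l4 : Tr := Tr.L (Pth.l (Pth.r (Pth.l (Pth.r Pth.z))))
def l5 : Tr := Tr.L (Pth.l (Pth.r (Pth.r (Pth.l Pth.z))))
def l6 : Tr := Tr.L (Pth.l (Pth.r (Pth.r (Pth.r Pth.z))))
def l7 : Tr := Tr.L (Pth.r (Pth.l (Pth.l Pth.z)))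
def l8 : Tr := Tr.L (Pth.r (Pth.l (Pth.r (Pth.l Pth.z))))
def l9 : Tr := Tr.L (Pth.r (Pth.l (Pth.r (Pth.r Pth.z))))
def l10 : Tr := Tr.L (Pth.r (Pth.r (Pth.l (Pth.l Pth.z))))
def l11 : Tr := Tr.L (Pth.r (Pth.r (Pth.l (Pth.r Pth.z))))
def l12 : Tr := Tr.L (Pth.r (Pth.r (Pth.r (Pth.l Pth.z))))
def l13 : Tr := Tr.L (Pth.r (Pth.r (Pth.r (Pth.r Pth.z))))
end T1
def b2_0 : Bx := Bx.mk (St.mk (I.pos (nat_lit 137969664) (nat_lit 217399296)) (I.mix (nat_lit 2818048) (nat_lit 92602368)) (I.mix (nat_lit 2899968) (nat_lit 93716480)) (I.pos (nat_lit 368017408) (nat_lit 463536128)) (I.mix (nat_lit 160940032) (nat_lit 103432192)) (I.mix (nat_lit 92438528) (nat_lit 92897280)) (I.mix (nat_lit 114130944) (nat_lit 119537664)))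
  false (nat_lit 121348667)
def b2_1 : Bx := Bx.mk (St.mk (I.mix (nat_lit 55001088) (nat_lit 16334848)) (I.mix (nat_lit 15351808) (nat_lit 85311488)) (I.neg (nat_lit 42401792) (nat_lit 72105984)) (I.pos (nat_lit 259506176) (nat_lit 292667392)) (I.mix (nat_lit 49496064) (nat_lit 121012224)) (I.mix (nat_lit 87834624) (nat_lit 65601536)) (I.mix (nat_lit 47677440) (nat_lit 34684928)))
  true (nat_lit 0)
def b2_2 : Bx := Bx.mk (St.mk (I.pos (nat_lit 8470528) (nat_lit 54296576)) (I.neg (nat_lit 31670272) (nat_lit 85311488)) (I.neg (nat_lit 43827200) (nat_lit 72105984)) (I.pos (nat_lit 265125888) (nat_lit 292503552)) (I.mix (nat_lit 121028608) (nat_lit 49496064)) (I.mix (nat_lit 65601536) (nat_lit 80855040)) (I.mix (nat_lit 47677440) (nat_lit 34684928)))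
  false (nat_lit 26508804)
def b2_3 : Bx := Bx.mk (St.mk (I.pos (nat_lit 16498688) (nat_lit 124436480)) (I.neg (nat_lit 6094848) (nat_lit 88473600)) (I.neg (nat_lit 917504) (nat_lit 82722816)) (I.pos (nat_lit 263651328) (nat_lit 332906496)) (I.mix (nat_lit 128712704) (nat_lit 74874880)) (I.mix (nat_lit 74776576) (nat_lit 83181568)) (I.mix (nat_lit 81133568) (nat_lit 68304896)))
  false (nat_lit 64543833)
def b2_4 : Bx := Bx.mk (St.mk (I.pos (nat_lit 93143040) (nat_lit 183009280)) (I.mix (nat_lit 38944768) (nat_lit 82788352)) (I.mix (nat_lit 37781504) (nat_lit 92651520)) (I.pos (nat_lit 300040192) (nat_lit 420413440)) (I.mix (nat_lit 164495360) (nat_lit 81002496)) (I.mix (nat_lit 127156224) (nat_lit 99975168)) (I.mix (nat_lit 129728512) (nat_lit 126222336)))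
  false (nat_lit 102449984)
def b2_5 : Bx := Bx.mk (St.mk (I.neg (nat_lit 16498688) (nat_lit 124436480)) (I.pos (nat_lit 6078464) (nat_lit 88489984)) (I.neg (nat_lit 98304) (nat_lit 82739200)) (I.pos (nat_lit 263634944) (nat_lit 332906496)) (I.mix (nat_lit 74874880) (nat_lit 128712704)) (I.mix (nat_lit 83181568) (nat_lit 74792960)) (I.mix (nat_lit 81133568) (nat_lit 68321280)))
  true (nat_lit 0)
def b2_6 : Bx := Bx.mk (St.mk (I.pos (nat_lit 173031424) (nat_lit 290734080)) (I.mix (nat_lit 29753344) (nat_lit 59179008)) (I.mix (nat_lit 165216256) (nat_lit 26427392)) (I.pos (nat_lit 403816448) (nat_lit 579764224)) (I.mix (nat_lit 89145344) (nat_lit 90144768)) (I.mix (nat_lit 70467584) (nat_lit 64782336)) (I.mix (nat_lit 108953600) (nat_lit 107921408)))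
  false (nat_lit 81555097)
def b2_7 : Bx := Bx.mk (St.mk (I.mix (nat_lit 16269312) (nat_lit 44498944)) (I.mix (nat_lit 47480832) (nat_lit 15368192)) (I.neg (nat_lit 42762240) (nat_lit 59293696)) (I.pos (nat_lit 260210688) (nat_lit 278282240)) (I.mix (nat_lit 65208320) (nat_lit 42680320)) (I.mix (nat_lit 40894464) (nat_lit 44630016)) (I.mix (nat_lit 12861440) (nat_lit 16990208)))
  false (nat_lit 0)
def b2_8 : Bx := Bx.mk (St.mk (I.pos (nat_lit 153239552) (nat_lit 217382912)) (I.pos (nat_lit 22855680) (nat_lit 90439680)) (I.mix (nat_lit 18251776) (nat_lit 83902464)) (I.pos (nat_lit 394215424) (nat_lit 455999488)) (I.mix (nat_lit 133070848) (nat_lit 99205120)) (I.mix (nat_lit 94683136) (nat_lit 76365824)) (I.mix (nat_lit 141508608) (nat_lit 105070592)))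
  false (nat_lit 98740538)
def b2_9 : Bx := Bx.mk (St.mk (I.pos (nat_lit 10207232) (nat_lit 47382528)) (I.neg (nat_lit 22642688) (nat_lit 73842688)) (I.neg (nat_lit 44056576) (nat_lit 69484544)) (I.pos (nat_lit 265240576) (nat_lit 285458432)) (I.mix (nat_lit 113983488) (nat_lit 34078720)) (I.mix (nat_lit 46383104) (nat_lit 87834624)) (I.mix (nat_lit 32489472) (nat_lit 28884992)))
  false (nat_lit 0)
def t2 : BTr := (BTr.n (BTr.n (BTr.n (BTr.b b2_0) (BTr.b b2_1)) (BTr.n (BTr.b b2_2) (BTr.n (BTr.b b2_3) (BTr.b b2_4)))) (BTr.n (BTr.n (BTr.b b2_5) (BTr.b b2_6)) (BTr.n (BTr.b b2_7) (BTr.n (BTr.b b2_8) (BTr.b b2_9)))))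
namespace T2
def l0 : Tr := Tr.L (Pth.l (Pth.l (Pth.l Pth.z)))
def l1 : Tr := Tr.L (Pth.l (Pth.l (Pth.r Pth.z)))
def l2 : Tr := Tr.L (Pth.l (Pth.r (Pth.l Pth.z)))
def l3 : Tr := Tr.L (Pth.l (Pth.r (Pth.r (Pth.l Pth.z))))
def l4 : Tr := Tr.L (Pth.l (Pth.r (Pth.r (Pth.r Pth.z))))
def l5 : Tr := Tr.L (Pth.r (Pth.l (Pth.l Pth.z)))
def l6 : Tr := Tr.L (Pth.r (Pth.l (Pth.r Pth.z)))
def l7 : Tr := Tr.L (Pth.r (Pth.r (Pth.l Pth.z)))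
def l8 : Tr := Tr.L (Pth.r (Pth.r (Pth.r (Pth.l Pth.z))))
def l9 : Tr := Tr.L (Pth.r (Pth.r (Pth.r (Pth.r Pth.z))))
end T2
def b3_0 : Bx := Bx.mk (St.mk (I.pos (nat_lit 158646272) (nat_lit 227934208)) (I.mix (nat_lit 1441792) (nat_lit 42860544)) (I.mix (nat_lit 3080192) (nat_lit 101220352)) (I.pos (nat_lit 113377280) (nat_lit 216612864)) (I.mix (nat_lit 98418688) (nat_lit 54853632)) (I.mix (nat_lit 74366976) (nat_lit 60768256)) (I.mix (nat_lit 105775104) (nat_lit 75939840)))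
  false (nat_lit 20781765)
def b3_1 : Bx := Bx.mk (St.mk (I.pos (nat_lit 111247360) (nat_lit 177700864)) (I.neg (nat_lit 4177920) (nat_lit 55590912)) (I.mix (nat_lit 39550976) (nat_lit 19873792)) (I.pos (nat_lit 86392832) (nat_lit 144834560)) (I.mix (nat_lit 77987840) (nat_lit 59129856)) (I.mix (nat_lit 49102848) (nat_lit 59113472)) (I.mix (nat_lit 44990464) (nat_lit 57966592)))
  false (nat_lit 45639685)
def b3_2 : Bx := Bx.mk (St.mk (I.mix (nat_lit 10240000) (nat_lit 100401152)) (I.mix (nat_lit 26968064) (nat_lit 2375680)) (I.mix (nat_lit 8798208) (nat_lit 11862016)) (I.pos (nat_lit 16220160) (nat_lit 71942144)) (I.mix (nat_lit 29212672) (nat_lit 35078144)) (I.mix (nat_lit 20856832) (nat_lit 26935296)) (I.mix (nat_lit 10878976) (nat_lit 16416768)))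
  false (nat_lit 0)
def b3_3 : Bx := Bx.mk (St.mk (I.pos (nat_lit 160006144) (nat_lit 202473472)) (I.mix (nat_lit 13959168) (nat_lit 38600704)) (I.pos (nat_lit 17285120) (nat_lit 89260032)) (I.pos (nat_lit 117456896) (nat_lit 183549952)) (I.mix (nat_lit 120782848) (nat_lit 47333376)) (I.mix (nat_lit 111230976) (nat_lit 60915712)) (I.mix (nat_lit 127713280) (nat_lit 53067776)))
  false (nat_lit 18783489)
def b3_4 : Bx := Bx.mk (St.mk (I.mix (nat_lit 22315008) (nat_lit 118145024)) (I.mix (nat_lit 12468224) (nat_lit 28884992)) (I.mix (nat_lit 98304) (nat_lit 34406400)) (I.pos (nat_lit 15728640) (nat_lit 85704704)) (I.mix (nat_lit 61571072) (nat_lit 34209792)) (I.mix (nat_lit 52019200) (nat_lit 28065792)) (I.mix (nat_lit 34406400) (nat_lit 15548416)))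
  false (nat_lit 0)
def b3_5 : Bx := Bx.mk (St.mk (I.pos (nat_lit 159105024) (nat_lit 204816384)) (I.mix (nat_lit 40665088) (nat_lit 11780096)) (I.mix (nat_lit 15745024) (nat_lit 54968320)) (I.pos (nat_lit 117391360) (nat_lit 188006400)) (I.mix (nat_lit 102678528) (nat_lit 80953344)) (I.mix (nat_lit 100270080) (nat_lit 66846720)) (I.mix (nat_lit 105152512) (nat_lit 68452352)))
  false (nat_lit 64301622)
def b3_6 : Bx := Bx.mk (St.mk (I.mix (nat_lit 28147712) (nat_lit 110034944)) (I.mix (nat_lit 16629760) (nat_lit 4341760)) (I.mix (nat_lit 278528) (nat_lit 12107776)) (I.pos (nat_lit 16449536) (nat_lit 74776576)) (I.mix (nat_lit 27967488) (nat_lit 20463616)) (I.mix (nat_lit 17383424) (nat_lit 20545536)) (I.mix (nat_lit 11288576) (nat_lit 10616832)))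
  false (nat_lit 0)
def b3_7 : Bx := Bx.mk (St.mk (I.pos (nat_lit 140214272) (nat_lit 178651136)) (I.neg (nat_lit 1720320) (nat_lit 36159488)) (I.mix (nat_lit 11091968) (nat_lit 26361856)) (I.pos (nat_lit 102973440) (nat_lit 152027136)) (I.mix (nat_lit 66879488) (nat_lit 48087040)) (I.mix (nat_lit 35160064) (nat_lit 49741824)) (I.mix (nat_lit 40189952) (nat_lit 44744704)))
  false (nat_lit 0)
def b3_8 : Bx := Bx.mk (St.mk (I.pos (nat_lit 155910144) (nat_lit 188301312)) (I.neg (nat_lit 7389184) (nat_lit 35618816)) (I.mix (nat_lit 11780096) (nat_lit 23003136)) (I.pos (nat_lit 117063680) (nat_lit 166641664)) (I.mix (nat_lit 41730048) (nat_lit 36241408)) (I.mix (nat_lit 33636352) (nat_lit 27049984)) (I.mix (nat_lit 33964032) (nat_lit 27017216)))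
  false (nat_lit 0)
def b3_9 : Bx := Bx.mk (St.mk (I.pos (nat_lit 64471040) (nat_lit 132038656)) (I.mix (nat_lit 8208384) (nat_lit 19562496)) (I.pos (nat_lit 688128) (nat_lit 26689536)) (I.pos (nat_lit 35749888) (nat_lit 100990976)) (I.mix (nat_lit 36782080) (nat_lit 22577152)) (I.mix (nat_lit 23871488) (nat_lit 16252928)) (I.mix (nat_lit 18989056) (nat_lit 11911168)))
  false (nat_lit 0)
def b3_10 : Bx := Bx.mk (St.mk (I.pos (nat_lit 105627648) (nat_lit 153763840)) (I.mix (nat_lit 53886976) (nat_lit 10027008)) (I.mix (nat_lit 35110912) (nat_lit 21053440)) (I.pos (nat_lit 62177280) (nat_lit 123879424)) (I.mix (nat_lit 81510400) (nat_lit 47153152)) (I.mix (nat_lit 40206336) (nat_lit 66633728)) (I.mix (nat_lit 30638080) (nat_lit 49676288)))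
  false (nat_lit 31983284)
def b3_11 : Bx := Bx.mk (St.mk (I.mix (nat_lit 22888448) (nat_lit 94240768)) (I.mix (nat_lit 27049984) (nat_lit 4210688)) (I.mix (nat_lit 7831552) (nat_lit 8585216)) (I.pos (nat_lit 16285696) (nat_lit 69009408)) (I.mix (nat_lit 30228480) (nat_lit 18956288)) (I.mix (nat_lit 16875520) (nat_lit 25952256)) (I.mix (nat_lit 7880704) (nat_lit 12173312)))
  false (nat_lit 0)
def b3_12 : Bx := Bx.mk (St.mk (I.pos (nat_lit 186793984) (nat_lit 283508736)) (I.mix (nat_lit 24969216) (nat_lit 32489472)) (I.mix (nat_lit 16711680) (nat_lit 90472448)) (I.pos (nat_lit 169115648) (nat_lit 341262336)) (I.mix (nat_lit 87408640) (nat_lit 62668800)) (I.mix (nat_lit 66895872) (nat_lit 47824896)) (I.mix (nat_lit 112492544) (nat_lit 79790080)))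
  false (nat_lit 48016730)
def b3_13 : Bx := Bx.mk (St.mk (I.pos (nat_lit 180748288) (nat_lit 227639296)) (I.pos (nat_lit 5816320) (nat_lit 42024960)) (I.pos (nat_lit 34586624) (nat_lit 100777984)) (I.pos (nat_lit 162185216) (nat_lit 214843392)) (I.mix (nat_lit 97157120) (nat_lit 68501504)) (I.mix (nat_lit 82755584) (nat_lit 62291968)) (I.mix (nat_lit 126484480) (nat_lit 79020032)))
  false (nat_lit 27083099)
def t3 : BTr := (BTr.n (BTr.n (BTr.n (BTr.b b3_0) (BTr.n (BTr.b b3_1) (BTr.b b3_2))) (BTr.n (BTr.n (BTr.b b3_3) (BTr.b b3_4)) (BTr.n (BTr.b b3_5) (BTr.b b3_6)))) (BTr.n (BTr.n (BTr.b b3_7) (BTr.n (BTr.b b3_8) (BTr.b b3_9))) (BTr.n (BTr.n (BTr.b b3_10) (BTr.b b3_11)) (BTr.n (BTr.b b3_12) (BTr.b b3_13)))))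
namespace T3
def l0 : Tr := Tr.L (Pth.l (Pth.l (Pth.l Pth.z)))
def l1 : Tr := Tr.L (Pth.l (Pth.l (Pth.r (Pth.l Pth.z))))
def l2 : Tr := Tr.L (Pth.l (Pth.l (Pth.r (Pth.r Pth.z))))
def l3 : Tr := Tr.L (Pth.l (Pth.r (Pth.l (Pth.l Pth.z))))
def l4 : Tr := Tr.L (Pth.l (Pth.r (Pth.l (Pth.r Pth.z))))
def l5 : Tr := Tr.L (Pth.l (Pth.r (Pth.r (Pth.l Pth.z))))
def l6 : Tr := Tr.L (Pth.l (Pth.r (Pth.r (Pth.r Pth.z))))
def l7 : Tr := Tr.L (Pth.r (Pth.l (Pth.l Pth.z)))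
def l8 : Tr := Tr.L (Pth.r (Pth.l (Pth.r (Pth.l Pth.z))))
def l9 : Tr := Tr.L (Pth.r (Pth.l (Pth.r (Pth.r Pth.z))))
def l10 : Tr := Tr.L (Pth.r (Pth.r (Pth.l (Pth.l Pth.z))))
def l11 : Tr := Tr.L (Pth.r (Pth.r (Pth.l (Pth.r Pth.z))))
def l12 : Tr := Tr.L (Pth.r (Pth.r (Pth.r (Pth.l Pth.z))))
def l13 : Tr := Tr.L (Pth.r (Pth.r (Pth.r (Pth.r Pth.z))))
end T3
def b4_0 : Bx := Bx.mk (St.mk (I.pos (nat_lit 134529024) (nat_lit 217513984)) (I.mix (nat_lit 2719744) (nat_lit 88784896)) (I.mix (nat_lit 3293184) (nat_lit 106741760)) (I.pos (nat_lit 364691456) (nat_lit 453345280)) (I.mix (nat_lit 164184064) (nat_lit 92078080)) (I.mix (nat_lit 95354880) (nat_lit 85458944)) (I.mix (nat_lit 109379584) (nat_lit 111804416)))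
  false (nat_lit 135316106)
def b4_1 : Bx := Bx.mk (St.mk (I.pos (nat_lit 21757952) (nat_lit 124862464)) (I.neg (nat_lit 8060928) (nat_lit 91635712)) (I.mix (nat_lit 72499200) (nat_lit 13156352)) (I.pos (nat_lit 267567104) (nat_lit 332660736)) (I.mix (nat_lit 124502016) (nat_lit 80625664)) (I.mix (nat_lit 79478784) (nat_lit 80445440)) (I.mix (nat_lit 82313216) (nat_lit 65978368)))
  false (nat_lit 74637323)
def b4_2 : Bx := Bx.mk (St.mk (I.pos (nat_lit 89325568) (nat_lit 180273152)) (I.mix (nat_lit 38076416) (nat_lit 81707008)) (I.mix (nat_lit 22151168) (nat_lit 105168896)) (I.pos (nat_lit 300417024) (nat_lit 415645696)) (I.mix (nat_lit 165462016) (nat_lit 78725120)) (I.mix (nat_lit 127991808) (nat_lit 98811904)) (I.mix (nat_lit 133693440) (nat_lit 124796928)))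
  false (nat_lit 124533785)
def b4_3 : Bx := Bx.mk (St.mk (I.neg (nat_lit 21757952) (nat_lit 129499136)) (I.pos (nat_lit 4407296) (nat_lit 91635712)) (I.mix (nat_lit 72499200) (nat_lit 17268736)) (I.pos (nat_lit 267567104) (nat_lit 336625664)) (I.mix (nat_lit 80625664) (nat_lit 124551168)) (I.mix (nat_lit 80445440) (nat_lit 79478784)) (I.mix (nat_lit 82329600) (nat_lit 65978368)))
  true (nat_lit 0)
def b4_4 : Bx := Bx.mk (St.mk (I.mix (nat_lit 53903360) (nat_lit 13189120)) (I.mix (nat_lit 12910592) (nat_lit 84639744)) (I.neg (nat_lit 31653888) (nat_lit 59949056)) (I.pos (nat_lit 261341184) (nat_lit 293535744)) (I.mix (nat_lit 55050240) (nat_lit 112803840)) (I.mix (nat_lit 82411520) (nat_lit 63635456)) (I.mix (nat_lit 41385984) (nat_lit 30801920)))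
  true (nat_lit 0)
def b4_5 : Bx := Bx.mk (St.mk (I.pos (nat_lit 12926976) (nat_lit 53166080)) (I.neg (nat_lit 33226752) (nat_lit 86212608)) (I.neg (nat_lit 33259520) (nat_lit 59949056)) (I.pos (nat_lit 268173312) (nat_lit 294404096)) (I.mix (nat_lit 112803840) (nat_lit 55050240)) (I.mix (nat_lit 63635456) (nat_lit 75481088)) (I.mix (nat_lit 41385984) (nat_lit 30801920)))
  false (nat_lit 29365380)
def b4_6 : Bx := Bx.mk (St.mk (I.pos (nat_lit 176128000) (nat_lit 289259520)) (I.mix (nat_lit 25362432) (nat_lit 61325312)) (I.mix (nat_lit 129384448) (nat_lit 45858816)) (I.pos (nat_lit 402030592) (nat_lit 575815680)) (I.mix (nat_lit 92585984) (nat_lit 84295680)) (I.mix (nat_lit 68108288) (nat_lit 62980096)) (I.mix (nat_lit 108331008) (nat_lit 94208000)))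
  false (nat_lit 104042946)
def b4_7 : Bx := Bx.mk (St.mk (I.mix (nat_lit 13189120) (nat_lit 48480256)) (I.mix (nat_lit 50561024) (nat_lit 11911168)) (I.neg (nat_lit 31932416) (nat_lit 47857664)) (I.pos (nat_lit 262111232) (nat_lit 281214976)) (I.mix (nat_lit 64421888) (nat_lit 44302336)) (I.mix (nat_lit 40960000) (nat_lit 43679744)) (I.mix (nat_lit 13221888) (nat_lit 15056896)))
  false (nat_lit 0)
def b4_8 : Bx := Bx.mk (St.mk (I.pos (nat_lit 150241280) (nat_lit 206782464)) (I.pos (nat_lit 23429120) (nat_lit 85704704)) (I.pos (nat_lit 1572864) (nat_lit 96124928)) (I.pos (nat_lit 385597440) (nat_lit 443088896)) (I.mix (nat_lit 133103616) (nat_lit 91013120)) (I.mix (nat_lit 95305728) (nat_lit 68534272)) (I.mix (nat_lit 134184960) (nat_lit 91586560)))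
  false (nat_lit 93261282)
def b4_9 : Bx := Bx.mk (St.mk (I.pos (nat_lit 16089088) (nat_lit 51314688)) (I.neg (nat_lit 23494656) (nat_lit 73498624)) (I.neg (nat_lit 32702464) (nat_lit 57278464)) (I.pos (nat_lit 268255232) (nat_lit 287424512)) (I.mix (nat_lit 102776832) (nat_lit 51183616)) (I.mix (nat_lit 43876352) (nat_lit 82411520)) (I.mix (nat_lit 29753344) (nat_lit 25673728)))
  false (nat_lit 0)
def t4 : BTr := (BTr.n (BTr.n (BTr.n (BTr.b b4_0) (BTr.b b4_1)) (BTr.n (BTr.b b4_2) (BTr.n (BTr.b b4_3) (BTr.b b4_4)))) (BTr.n (BTr.n (BTr.b b4_5) (BTr.b b4_6)) (BTr.n (BTr.b b4_7) (BTr.n (BTr.b b4_8) (BTr.b b4_9)))))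
namespace T4
def l0 : Tr := Tr.L (Pth.l (Pth.l (Pth.l Pth.z)))
def l1 : Tr := Tr.L (Pth.l (Pth.l (Pth.r Pth.z)))
def l2 : Tr := Tr.L (Pth.l (Pth.r (Pth.l Pth.z)))
def l3 : Tr := Tr.L (Pth.l (Pth.r (Pth.r (Pth.l Pth.z))))
def l4 : Tr := Tr.L (Pth.l (Pth.r (Pth.r (Pth.r Pth.z))))
def l5 : Tr := Tr.L (Pth.r (Pth.l (Pth.l Pth.z)))
def l6 : Tr := Tr.L (Pth.r (Pth.l (Pth.r Pth.z)))
def l7 : Tr := Tr.L (Pth.r (Pth.r (Pth.l Pth.z)))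
def l8 : Tr := Tr.L (Pth.r (Pth.r (Pth.r (Pth.l Pth.z))))
def l9 : Tr := Tr.L (Pth.r (Pth.r (Pth.r (Pth.r Pth.z))))
end T4
def b5_0 : Bx := Bx.mk (St.mk (I.pos (nat_lit 152535040) (nat_lit 223756288)) (I.mix (nat_lit 1556480) (nat_lit 46219264)) (I.mix (nat_lit 3309568) (nat_lit 108511232)) (I.pos (nat_lit 139755520) (nat_lit 241680384)) (I.mix (nat_lit 105971712) (nat_lit 54689792)) (I.mix (nat_lit 78823424) (nat_lit 62472192)) (I.mix (nat_lit 108232704) (nat_lit 74301440)))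
  false (nat_lit 30184457)
def b5_1 : Bx := Bx.mk (St.mk (I.pos (nat_lit 103530496) (nat_lit 172916736)) (I.neg (nat_lit 5160960) (nat_lit 60555264)) (I.mix (nat_lit 37797888) (nat_lit 27033600)) (I.pos (nat_lit 102137856) (nat_lit 164184064)) (I.mix (nat_lit 77758464) (nat_lit 64077824)) (I.mix (nat_lit 49315840) (nat_lit 57884672)) (I.mix (nat_lit 44531712) (nat_lit 55640064)))
  false (nat_lit 67943821)
def b5_2 : Bx := Bx.mk (St.mk (I.mix (nat_lit 18939904) (nat_lit 81018880)) (I.mix (nat_lit 31555584) (nat_lit 3719168)) (I.mix (nat_lit 5013504) (nat_lit 17072128)) (I.pos (nat_lit 41893888) (nat_lit 87506944)) (I.mix (nat_lit 31178752) (nat_lit 43974656)) (I.mix (nat_lit 25673728) (nat_lit 33308672)) (I.mix (nat_lit 11812864) (nat_lit 17645568)))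
  false (nat_lit 0)
def b5_3 : Bx := Bx.mk (St.mk (I.pos (nat_lit 153174016) (nat_lit 199360512)) (I.mix (nat_lit 12156928) (nat_lit 44400640)) (I.pos (nat_lit 24723456) (nat_lit 100368384)) (I.pos (nat_lit 133890048) (nat_lit 204226560)) (I.mix (nat_lit 129728512) (nat_lit 48365568)) (I.mix (nat_lit 115785728) (nat_lit 66338816)) (I.mix (nat_lit 127778816) (nat_lit 54394880)))
  false (nat_lit 33362569)
def b5_4 : Bx := Bx.mk (St.mk (I.mix (nat_lit 35028992) (nat_lit 102072320)) (I.mix (nat_lit 12337152) (nat_lit 30670848)) (I.pos (nat_lit 1474560) (nat_lit 35651584)) (I.pos (nat_lit 41467904) (nat_lit 100302848)) (I.mix (nat_lit 67272704) (nat_lit 35733504)) (I.mix (nat_lit 54231040) (nat_lit 29966336)) (I.mix (nat_lit 31342592) (nat_lit 17088512)))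
  false (nat_lit 0)
def b5_5 : Bx := Bx.mk (St.mk (I.pos (nat_lit 134971392) (nat_lit 174014464)) (I.neg (nat_lit 2048000) (nat_lit 38977536)) (I.mix (nat_lit 5996544) (nat_lit 34750464)) (I.pos (nat_lit 120324096) (nat_lit 172228608)) (I.mix (nat_lit 64356352) (nat_lit 58343424)) (I.mix (nat_lit 39583744) (nat_lit 54640640)) (I.mix (nat_lit 43401216) (nat_lit 45318144)))
  false (nat_lit 42955885)
def b5_6 : Bx := Bx.mk (St.mk (I.mix (nat_lit 44859392) (nat_lit 84279296)) (I.mix (nat_lit 12386304) (nat_lit 7847936)) (I.pos (nat_lit 3260416) (nat_lit 17924096)) (I.pos (nat_lit 42369024) (nat_lit 89178112)) (I.mix (nat_lit 22953984) (nat_lit 19398656)) (I.mix (nat_lit 16252928) (nat_lit 17498112)) (I.mix (nat_lit 7602176) (nat_lit 8257536)))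
  false (nat_lit 0)
def b5_7 : Bx := Bx.mk (St.mk (I.pos (nat_lit 150077440) (nat_lit 186761216)) (I.neg (nat_lit 7241728) (nat_lit 39043072)) (I.mix (nat_lit 8601600) (nat_lit 30474240)) (I.pos (nat_lit 133496832) (nat_lit 191217664)) (I.mix (nat_lit 55590912) (nat_lit 58212352)) (I.mix (nat_lit 54968320) (nat_lit 43302912)) (I.mix (nat_lit 52281344) (nat_lit 43008000)))
  false (nat_lit 27422854)
def b5_8 : Bx := Bx.mk (St.mk (I.pos (nat_lit 152338432) (nat_lit 197787648)) (I.mix (nat_lit 40943616) (nat_lit 15253504)) (I.mix (nat_lit 8454144) (nat_lit 65273856)) (I.pos (nat_lit 133906432) (nat_lit 201605120)) (I.mix (nat_lit 111673344) (nat_lit 74956800)) (I.mix (nat_lit 104660992) (nat_lit 68386816)) (I.mix (nat_lit 107069440) (nat_lit 60391424)))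
  false (nat_lit 63680567)
def b5_9 : Bx := Bx.mk (St.mk (I.mix (nat_lit 7962624) (nat_lit 119865344)) (I.mix (nat_lit 7225344) (nat_lit 23150592)) (I.pos (nat_lit 2490368) (nat_lit 29114368)) (I.pos (nat_lit 40927232) (nat_lit 115212288)) (I.mix (nat_lit 40288256) (nat_lit 23494656)) (I.mix (nat_lit 26689536) (nat_lit 18202624)) (I.mix (nat_lit 18677760) (nat_lit 12566528)))
  false (nat_lit 0)
def b5_10 : Bx := Bx.mk (St.mk (I.pos (nat_lit 93470720) (nat_lit 144277504)) (I.mix (nat_lit 58179584) (nat_lit 9519104)) (I.mix (nat_lit 32571392) (nat_lit 21757952)) (I.pos (nat_lit 78807040) (nat_lit 139444224)) (I.mix (nat_lit 76972032) (nat_lit 52969472)) (I.mix (nat_lit 46006272) (nat_lit 63946752)) (I.mix (nat_lit 31440896) (nat_lit 44679168)))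
  false (nat_lit 51652268)
def b5_11 : Bx := Bx.mk (St.mk (I.mix (nat_lit 36274176) (nat_lit 75644928)) (I.mix (nat_lit 30457856) (nat_lit 4964352)) (I.mix (nat_lit 3801088) (nat_lit 13451264)) (I.pos (nat_lit 41910272) (nat_lit 84574208)) (I.mix (nat_lit 20987904) (nat_lit 27787264)) (I.mix (nat_lit 14827520) (nat_lit 22069248)) (I.mix (nat_lit 6520832) (nat_lit 5799936)))
  false (nat_lit 0)
def b5_12 : Bx := Bx.mk (St.mk (I.pos (nat_lit 188596224) (nat_lit 283836416)) (I.mix (nat_lit 21020672) (nat_lit 35176448)) (I.mix (nat_lit 6160384) (nat_lit 96944128)) (I.pos (nat_lit 195117056) (nat_lit 363675648)) (I.mix (nat_lit 90456064) (nat_lit 65863680)) (I.mix (nat_lit 65798144) (nat_lit 47972352)) (I.mix (nat_lit 109051904) (nat_lit 79413248)))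
  false (nat_lit 49481839)
def b5_13 : Bx := Bx.mk (St.mk (I.pos (nat_lit 175538176) (nat_lit 223428608)) (I.pos (nat_lit 6635520) (nat_lit 44498944)) (I.pos (nat_lit 39550976) (nat_lit 106610688)) (I.pos (nat_lit 179126272) (nat_lit 233226240)) (I.mix (nat_lit 107397120) (nat_lit 70451200)) (I.mix (nat_lit 86065152) (nat_lit 61931520)) (I.mix (nat_lit 127664128) (nat_lit 75350016)))
  false (nat_lit 30674585)
def t5 : BTr := (BTr.n (BTr.n (BTr.n (BTr.b b5_0) (BTr.n (BTr.b b5_1) (BTr.b b5_2))) (BTr.n (BTr.n (BTr.b b5_3) (BTr.b b5_4)) (BTr.n (BTr.b b5_5) (BTr.b b5_6)))) (BTr.n (BTr.n (BTr.b b5_7) (BTr.n (BTr.b b5_8) (BTr.b b5_9))) (BTr.n (BTr.n (BTr.b b5_10) (BTr.b b5_11)) (BTr.n (BTr.b b5_12) (BTr.b b5_13)))))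
namespace T5
def l0 : Tr := Tr.L (Pth.l (Pth.l (Pth.l Pth.z)))
def l1 : Tr := Tr.L (Pth.l (Pth.l (Pth.r (Pth.l Pth.z))))
def l2 : Tr := Tr.L (Pth.l (Pth.l (Pth.r (Pth.r Pth.z))))
def l3 : Tr := Tr.L (Pth.l (Pth.r (Pth.l (Pth.l Pth.z))))
def l4 : Tr := Tr.L (Pth.l (Pth.r (Pth.l (Pth.r Pth.z))))
def l5 : Tr := Tr.L (Pth.l (Pth.r (Pth.r (Pth.l Pth.z))))
def l6 : Tr := Tr.L (Pth.l (Pth.r (Pth.r (Pth.r Pth.z))))
def l7 : Tr := Tr.L (Pth.r (Pth.l (Pth.l Pth.z)))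
def l8 : Tr := Tr.L (Pth.r (Pth.l (Pth.r (Pth.l Pth.z))))
def l9 : Tr := Tr.L (Pth.r (Pth.l (Pth.r (Pth.r Pth.z))))
def l10 : Tr := Tr.L (Pth.r (Pth.r (Pth.l (Pth.l Pth.z))))
def l11 : Tr := Tr.L (Pth.r (Pth.r (Pth.l (Pth.r Pth.z))))
def l12 : Tr := Tr.L (Pth.r (Pth.r (Pth.r (Pth.l Pth.z))))
def l13 : Tr := Tr.L (Pth.r (Pth.r (Pth.r (Pth.r Pth.z))))
end T5
theorem bx0_0 : BoxOK sI cl4 cl7 cl9 t2 t4 b0_0 :=
  box_mk (TrL.c (I.pos (nat_lit 0) (nat_lit 0)) (xa (xb (xa (xb T2.l0 T2.l0) T2.l0) (xa (xb T2.l0 T2.l0) (xb T2.l0 (xa T2.l0 T2.l0)))) (xb (xa T2.l0 T2.l0) (xa (xb T2.l0 (xa T2.l0 T2.l0)) (xb T2.l0 (xa T2.l0 T2.l0)))))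
  (TrL.c (I.pos (nat_lit 0) (nat_lit 0)) (xa (xb T4.l1 T4.l1) (xb T4.l1 (xa T4.l1 T4.l1)))
  (TrL.c (I.pos (nat_lit 0) (nat_lit 0)) (xa T2.l1 (xb T2.l1 T2.l1))
  (TrL.c (I.pos (nat_lit 0) (nat_lit 0)) (xa (xb T4.l2 T4.l2) (xb (xa T4.l2 T4.l2) (xa (xb T4.l2 T4.l2) (xb (xa T4.l2 T4.l2) (xa T4.l2 (xd T4.l2 T4.l2))))))
  (TrL.c (I.pos (nat_lit 0) (nat_lit 0)) (xa T2.l2 (xb T2.l2 T2.l2))
  (TrL.c (I.pos (nat_lit 0) (nat_lit 0)) (xa (xb T4.l3 T4.l3) (xb T4.l3 (xa T4.l3 T4.l3)))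
  TrL.n)))))) (by decide +kernel)
theorem bx0_1 : BoxOK sI cl4 cl7 cl9 t2 t4 b0_1 :=
  box_mk (TrL.c (I.pos (nat_lit 0) (nat_lit 0)) (xa (xa (xb (xa T2.l6 T2.l6) (xa T2.l6 T2.l6)) T2.l6) (xa T2.l6 (xb T2.l6 (xa T2.l6 T2.l6))))
  (TrL.c (I.pos (nat_lit 0) (nat_lit 0)) (xa T4.l1 T4.l1)
  (TrL.c (I.pos (nat_lit 0) (nat_lit 0)) T2.l1
  (TrL.c (I.pos (nat_lit 0) (nat_lit 0)) T4.l2
  (TrL.c (I.pos (nat_lit 0) (nat_lit 0)) T2.l7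
  (TrL.c (I.pos (nat_lit 0) (nat_lit 0)) T4.l3
  TrL.n)))))) (by decide +kernel)
theorem bx0_2 : BoxOK sI cl4 cl7 cl9 t2 t4 b0_2 :=
  box_mk (TrL.c (I.pos (nat_lit 0) (nat_lit 0)) (xb (xa (xb T2.l6 T2.l6) (xb T2.l6 T2.l6)) (xa (xb T2.l6 T2.l6) T2.l6))
  (TrL.c (I.pos (nat_lit 0) (nat_lit 0)) T4.l1
  (TrL.c (I.pos (nat_lit 0) (nat_lit 0)) T2.l1
  (TrL.c (I.pos (nat_lit 0) (nat_lit 0)) T4.l2
  (TrL.c (I.pos (nat_lit 0) (nat_lit 0)) T2.l7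
  (TrL.c (I.pos (nat_lit 0) (nat_lit 0)) T4.l3
  TrL.n)))))) (by decide +kernel)
theorem bx0_3 : BoxOK sI cl4 cl7 cl9 t2 t4 b0_3 :=
  box_mk (TrL.c (I.pos (nat_lit 0) (nat_lit 0)) (xa (xa (xb (xa (xb (xa T2.l6 T2.l6) T2.l6) T2.l6) T2.l6) T2.l6) T2.l6)
  (TrL.c (I.pos (nat_lit 0) (nat_lit 0)) (xa T4.l2 T4.l1)
  (TrL.c (I.pos (nat_lit 0) (nat_lit 0)) T2.l1
  (TrL.c (I.pos (nat_lit 0) (nat_lit 0)) (xa T4.l1 T4.l2)
  (TrL.c (I.pos (nat_lit 0) (nat_lit 0)) T2.l7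
  (TrL.c (I.pos (nat_lit 0) (nat_lit 0)) (xa T4.l3 T4.l3)
  TrL.n)))))) (by decide +kernel)
theorem bx0_4 : BoxOK sI cl4 cl7 cl9 t2 t4 b0_4 :=
  box_mk (TrL.c (I.pos (nat_lit 0) (nat_lit 0)) T2.l6
  (TrL.c (I.pos (nat_lit 0) (nat_lit 0)) T4.l1
  (TrL.c (I.pos (nat_lit 0) (nat_lit 0)) T2.l1
  (TrL.c (I.pos (nat_lit 0) (nat_lit 0)) T4.l2
  (TrL.c (I.pos (nat_lit 0) (nat_lit 0)) T2.l7
  (TrL.c (I.pos (nat_lit 0) (nat_lit 0)) T4.l3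
  TrL.n)))))) (by decide +kernel)
theorem bx0_5 : BoxOK sI cl4 cl7 cl9 t2 t4 b0_5 :=
  box_mk (TrL.c (I.pos (nat_lit 0) (nat_lit 0)) (xa (xa (xa (xb (xa T2.l6 T2.l6) T2.l6) T2.l6) T2.l6) T2.l6)
  (TrL.c (I.pos (nat_lit 0) (nat_lit 0)) T4.l1
  (TrL.c (I.pos (nat_lit 0) (nat_lit 0)) T2.l1
  (TrL.c (I.pos (nat_lit 0) (nat_lit 0)) T4.l2
  (TrL.c (I.pos (nat_lit 0) (nat_lit 0)) T2.l7
  (TrL.c (I.pos (nat_lit 0) (nat_lit 0)) T4.l3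
  TrL.n)))))) (by decide +kernel)
theorem bx0_6 : BoxOK sI cl4 cl7 cl9 t2 t4 b0_6 :=
  box_mk (TrL.c (I.pos (nat_lit 0) (nat_lit 0)) (xa T2.l0 T2.l4)
  (TrL.c (I.pos (nat_lit 0) (nat_lit 0)) (xa T4.l1 T4.l1)
  (TrL.c (I.pos (nat_lit 0) (nat_lit 0)) T2.l1
  (TrL.c (I.pos (nat_lit 0) (nat_lit 0)) (xa T4.l2 (xb T4.l0 T4.l2))
  (TrL.c (I.pos (nat_lit 0) (nat_lit 0)) T2.l3
  (TrL.c (I.pos (nat_lit 0) (nat_lit 0)) (xa T4.l3 T4.l3)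
  TrL.n)))))) (by decide +kernel)
theorem bx0_7 : BoxOK sI cl4 cl7 cl9 t2 t4 b0_7 :=
  box_mk (TrL.c (I.pos (nat_lit 0) (nat_lit 0)) (xb (xa (xb (xa T2.l0 T2.l0) (xa (xb T2.l0 T2.l0) T2.l0)) (xb (xa T2.l0 T2.l0) (xa T2.l0 T2.l0))) (xa (xb (xa (xb T2.l0 T2.l0) (xb T2.l0 T2.l0)) (xa (xb (xa T2.l0 T2.l0) (xa T2.l0 T2.l0)) (xb (xa T2.l0 T2.l0) (xa T2.l0 T2.l0)))) (xb (xa (xb T2.l0 T2.l0) (xb T2.l0 T2.l0)) (xa (xb T2.l0 (xa T2.l0 T2.l0)) (xb (xa T2.l0 T2.l0) (xa T2.l0 T2.l0))))))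
  (TrL.c (I.pos (nat_lit 0) (nat_lit 0)) (xb (xa T4.l1 T4.l1) (xa T4.l1 (xb T4.l1 T4.l1)))
  (TrL.c (I.pos (nat_lit 0) (nat_lit 0)) (xc (xb T2.l5 (xa T2.l1 T2.l5)) (xb T2.l5 (xa T2.l1 T2.l5)))
  (TrL.c (I.pos (nat_lit 0) (nat_lit 0)) (xb (xa (xb (xc T4.l2 T4.l2) T4.l2) (xb (xc (xa (xb T4.l2 T4.l2) (xb (xd T4.l2 T4.l2) (xd T4.l2 T4.l2))) (xa T4.l2 (xd (xb (xe T4.l2 T4.l2) T4.l2) (xb (xe T4.l2 T4.l2) T4.l2)))) (xc (xa T4.l2 (xd T4.l2 T4.l2)) (xa T4.l2 (xd T4.l2 T4.l2))))) (xa (xb T4.l2 (xc T4.l2 T4.l2)) (xb (xc (xa T4.l2 (xd T4.l2 T4.l2)) (xa T4.l2 (xd (xb T4.l2 T4.l2) T4.l2))) (xc (xa T4.l2 (xd (xb T4.l2 T4.l2) (xb T4.l2 T4.l2))) (xa (xd T4.l2 T4.l2) (xd (xb (xe T4.l2 T4.l2) (xe T4.l2 T4.l2)) (xb T4.l2 (xe T4.l2 T4.l2))))))))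
  (TrL.c (I.pos (nat_lit 0) (nat_lit 0)) (xc (xb T2.l3 (xa T2.l2 T2.l3)) (xb T2.l3 (xa T2.l2 T2.l3)))
  (TrL.c (I.pos (nat_lit 0) (nat_lit 0)) (xb (xa T4.l3 T4.l3) (xa T4.l3 (xb T4.l3 T4.l3)))
  TrL.n)))))) (by decide +kernel)
theorem bx0_8 : BoxOK sI cl4 cl7 cl9 t2 t4 b0_8 :=
  box_mk (TrL.c (I.pos (nat_lit 0) (nat_lit 0)) (xa (xb (xa T2.l6 T2.l6) T2.l6) (xb (xa T2.l6 T2.l6) (xa T2.l6 T2.l8)))
  (TrL.c (I.pos (nat_lit 0) (nat_lit 0)) T4.l1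
  (TrL.c (I.pos (nat_lit 0) (nat_lit 0)) T2.l1
  (TrL.c (I.pos (nat_lit 0) (nat_lit 0)) T4.l2
  (TrL.c (I.pos (nat_lit 0) (nat_lit 0)) T2.l7
  (TrL.c (I.pos (nat_lit 0) (nat_lit 0)) T4.l3
  TrL.n)))))) (by decide +kernel)
theorem bx0_9 : BoxOK sI cl4 cl7 cl9 t2 t4 b0_9 :=
  box_mk (TrL.c (I.pos (nat_lit 0) (nat_lit 0)) (xa (xa (xb T2.l6 T2.l6) T2.l6) T2.l6)
  (TrL.c (I.pos (nat_lit 0) (nat_lit 0)) (xa T4.l2 T4.l1)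
  (TrL.c (I.pos (nat_lit 0) (nat_lit 0)) T2.l1
  (TrL.c (I.pos (nat_lit 0) (nat_lit 0)) (xa T4.l2 T4.l2)
  (TrL.c (I.pos (nat_lit 0) (nat_lit 0)) T2.l7
  (TrL.c (I.pos (nat_lit 0) (nat_lit 0)) T4.l3
  TrL.n)))))) (by decide +kernel)
theorem bx0_10 : BoxOK sI cl4 cl7 cl9 t2 t4 b0_10 :=
  box_mk (TrL.c (I.pos (nat_lit 0) (nat_lit 0)) (xb (xa (xb T2.l8 T2.l8) (xb T2.l8 T2.l8)) (xa (xb (xa T2.l8 T2.l8) (xa T2.l8 T2.l8)) (xb (xa T2.l8 T2.l8) (xa T2.l8 T2.l8))))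
  (TrL.c (I.pos (nat_lit 0) (nat_lit 0)) (xb T4.l1 (xa T4.l1 T4.l1))
  (TrL.c (I.pos (nat_lit 0) (nat_lit 0)) (xb T2.l1 T2.l1)
  (TrL.c (I.pos (nat_lit 0) (nat_lit 0)) (xb (xa T4.l2 (xb T4.l2 T4.l2)) (xa (xb T4.l2 T4.l2) (xb (xa T4.l2 (xc T4.l2 T4.l2)) (xa T4.l2 (xd T4.l2 T4.l2)))))
  (TrL.c (I.pos (nat_lit 0) (nat_lit 0)) (xb T2.l3 T2.l9)
  (TrL.c (I.pos (nat_lit 0) (nat_lit 0)) (xb T4.l3 (xa T4.l3 T4.l3))
  TrL.n)))))) (by decide +kernel)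
theorem bx0_11 : BoxOK sI cl4 cl7 cl9 t2 t4 b0_11 :=
  box_mk (TrL.c (I.pos (nat_lit 0) (nat_lit 0)) (xa (xa (xb (xa (xb (xa (xb T2.l6 T2.l6) T2.l6) T2.l6) T2.l6) (xa (xb T2.l6 (xa (xb T2.l6 (xa T2.l6 T2.l6)) (xb T2.l6 T2.l6))) (xb T2.l6 (xa T2.l6 T2.l6)))) (xb T2.l6 T2.l6)) (xa T2.l6 (xb T2.l6 (xa T2.l6 (xb T2.l6 T2.l6)))))
  (TrL.c (I.pos (nat_lit 0) (nat_lit 0)) (xa (xa T4.l2 T4.l1) T4.l1)
  (TrL.c (I.pos (nat_lit 0) (nat_lit 0)) (xa T2.l1 T2.l1)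
  (TrL.c (I.pos (nat_lit 0) (nat_lit 0)) (xa T4.l2 T4.l2)
  (TrL.c (I.pos (nat_lit 0) (nat_lit 0)) (xa T2.l7 T2.l7)
  (TrL.c (I.pos (nat_lit 0) (nat_lit 0)) (xa T4.l3 T4.l3)
  TrL.n)))))) (by decide +kernel)
theorem bx0_12 : BoxOK sI cl4 cl7 cl9 t2 t4 b0_12 :=
  box_mk (TrL.c (I.pos (nat_lit 0) (nat_lit 0)) (xa (xb (xa T2.l8 T2.l8) (xa T2.l8 T2.l8)) T2.l0)
  (TrL.c (I.pos (nat_lit 0) (nat_lit 0)) T4.l1
  (TrL.c (I.pos (nat_lit 0) (nat_lit 0)) (xa T2.l1 T2.l1)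
  (TrL.c (I.pos (nat_lit 0) (nat_lit 0)) (xa T4.l2 (xb T4.l2 T4.l2))
  (TrL.c (I.pos (nat_lit 0) (nat_lit 0)) (xa T2.l3 T2.l3)
  (TrL.c (I.pos (nat_lit 0) (nat_lit 0)) T4.l3
  TrL.n)))))) (by decide +kernel)
theorem bx0_13 : BoxOK sI cl4 cl7 cl9 t2 t4 b0_13 :=
  box_mk (TrL.c (I.pos (nat_lit 0) (nat_lit 0)) (xb (xa T2.l8 T2.l8) (xa T2.l8 (xa T2.l8 T2.l8)))
  (TrL.c (I.pos (nat_lit 0) (nat_lit 0)) T4.l1
  (TrL.c (I.pos (nat_lit 0) (nat_lit 0)) T2.l5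
  (TrL.c (I.pos (nat_lit 0) (nat_lit 0)) (xb (xa T4.l2 (xb T4.l2 T4.l2)) T4.l2)
  (TrL.c (I.pos (nat_lit 0) (nat_lit 0)) T2.l3
  (TrL.c (I.pos (nat_lit 0) (nat_lit 0)) T4.l3
  TrL.n)))))) (by decide +kernel)
theorem sv0 : StarV sI cl4 cl7 cl9 t2 t4 t0 :=
  (bt_n (bt_n (bt_n (bt_b bx0_0) (bt_n (bt_b bx0_1) (bt_b bx0_2))) (bt_n (bt_n (bt_b bx0_3) (bt_b bx0_4)) (bt_n (bt_b bx0_5) (bt_b bx0_6)))) (bt_n (bt_n (bt_b bx0_7) (bt_n (bt_b bx0_8) (bt_b bx0_9))) (bt_n (bt_n (bt_b bx0_10) (bt_b bx0_11)) (bt_n (bt_b bx0_12) (bt_b bx0_13)))))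
def S0 : StarD := StarD.mk cl4 cl7 cl9 2 4 t0
theorem bx1_0 : BoxOK sI cl4 cl9 cl7 t4 t2 b1_0 :=
  box_mk (TrL.c (I.pos (nat_lit 0) (nat_lit 0)) (xa (xb (xa (xb T4.l0 T4.l0) T4.l0) (xa (xb T4.l0 (xa T4.l0 T4.l0)) (xb T4.l0 (xa T4.l0 T4.l0)))) (xb (xa T4.l0 T4.l0) (xa (xb T4.l0 (xa T4.l0 T4.l0)) (xb T4.l0 (xa T4.l0 T4.l0)))))
  (TrL.c (I.pos (nat_lit 0) (nat_lit 0)) (xa (xb T2.l3 T2.l3) (xb T2.l3 (xa T2.l3 T2.l3)))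
  (TrL.c (I.pos (nat_lit 0) (nat_lit 0)) (xa T4.l4 (xb T4.l4 T4.l4))
  (TrL.c (I.pos (nat_lit 0) (nat_lit 0)) (xa T2.l4 (xb T2.l4 (xa T2.l4 (xb T2.l4 (xa T2.l4 T2.l4)))))
  (TrL.c (I.pos (nat_lit 0) (nat_lit 0)) (xa T4.l5 (xb T4.l5 T4.l5))
  (TrL.c (I.pos (nat_lit 0) (nat_lit 0)) (xa (xb T2.l5 T2.l5) (xb T2.l5 (xa T2.l5 T2.l5)))
  TrL.n)))))) (by decide +kernel)
theorem bx1_1 : BoxOK sI cl4 cl9 cl7 t4 t2 b1_1 :=
  box_mk (TrL.c (I.pos (nat_lit 0) (nat_lit 0)) (xa (xa T4.l6 T4.l6) (xa T4.l6 (xa T4.l6 T4.l6)))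
  (TrL.c (I.pos (nat_lit 0) (nat_lit 0)) (xa T2.l3 T2.l3)
  (TrL.c (I.pos (nat_lit 0) (nat_lit 0)) T4.l4
  (TrL.c (I.pos (nat_lit 0) (nat_lit 0)) (xa T2.l4 T2.l4)
  (TrL.c (I.pos (nat_lit 0) (nat_lit 0)) T4.l7
  (TrL.c (I.pos (nat_lit 0) (nat_lit 0)) (xa T2.l5 T2.l5)
  TrL.n)))))) (by decide +kernel)
theorem bx1_2 : BoxOK sI cl4 cl9 cl7 t4 t2 b1_2 :=
  box_mk (TrL.c (I.pos (nat_lit 0) (nat_lit 0)) (xb (xa (xb T4.l6 T4.l6) T4.l6) (xa (xb T4.l6 T4.l6) T4.l6))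
  (TrL.c (I.pos (nat_lit 0) (nat_lit 0)) T2.l3
  (TrL.c (I.pos (nat_lit 0) (nat_lit 0)) T4.l4
  (TrL.c (I.pos (nat_lit 0) (nat_lit 0)) T2.l4
  (TrL.c (I.pos (nat_lit 0) (nat_lit 0)) T4.l7
  (TrL.c (I.pos (nat_lit 0) (nat_lit 0)) T2.l5
  TrL.n)))))) (by decide +kernel)
theorem bx1_3 : BoxOK sI cl4 cl9 cl7 t4 t2 b1_3 :=
  box_mk (TrL.c (I.pos (nat_lit 0) (nat_lit 0)) (xa (xa (xb (xa (xb T4.l6 T4.l6) T4.l6) T4.l6) T4.l6) T4.l6)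
  (TrL.c (I.pos (nat_lit 0) (nat_lit 0)) (xa T2.l3 T2.l3)
  (TrL.c (I.pos (nat_lit 0) (nat_lit 0)) T4.l4
  (TrL.c (I.pos (nat_lit 0) (nat_lit 0)) (xa T2.l4 T2.l4)
  (TrL.c (I.pos (nat_lit 0) (nat_lit 0)) T4.l7
  (TrL.c (I.pos (nat_lit 0) (nat_lit 0)) (xa T2.l5 T2.l5)
  TrL.n)))))) (by decide +kernel)
theorem bx1_4 : BoxOK sI cl4 cl9 cl7 t4 t2 b1_4 :=
  box_mk (TrL.c (I.pos (nat_lit 0) (nat_lit 0)) (xb (xa (xb (xa T4.l0 T4.l0) (xa T4.l0 T4.l0)) (xb (xa T4.l0 T4.l2) (xa T4.l0 T4.l2))) (xa (xb (xa (xb T4.l0 T4.l0) (xb T4.l0 T4.l0)) (xa (xb T4.l0 (xa T4.l0 T4.l0)) (xb T4.l0 (xa T4.l0 T4.l0)))) (xb (xa (xb T4.l0 T4.l0) (xb T4.l0 T4.l0)) (xa (xb T4.l0 (xa T4.l0 T4.l0)) (xb (xa T4.l0 T4.l0) (xa T4.l0 T4.l0))))))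
  (TrL.c (I.pos (nat_lit 0) (nat_lit 0)) (xb (xa T2.l3 (xb T2.l3 T2.l3)) (xa (xb T2.l3 T2.l3) (xa T2.l3 T2.l3)))
  (TrL.c (I.pos (nat_lit 0) (nat_lit 0)) (xa (xc T4.l4 T4.l4) (xc T4.l3 (xb T4.l3 T4.l3)))
  (TrL.c (I.pos (nat_lit 0) (nat_lit 0)) (xb (xa (xb (xc T2.l4 T2.l4) T2.l4) (xb (xa (xc T2.l4 T2.l4) (xc (xd T2.l4 T2.l4) (xd (xb T2.l4 T2.l4) (xb T2.l4 T2.l4)))) (xc (xa T2.l4 (xd T2.l4 T2.l4)) (xa T2.l4 (xd T2.l4 T2.l4))))) (xa (xb T2.l4 (xc T2.l4 T2.l4)) (xb (xc (xa T2.l4 (xd T2.l4 T2.l4)) (xa T2.l4 (xd T2.l4 T2.l4))) (xc (xa T2.l4 (xd (xb T2.l4 T2.l4) (xb T2.l4 T2.l4))) (xa (xd T2.l4 T2.l4) (xd (xb T2.l4 T2.l4) (xb T2.l4 T2.l4)))))))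
  (TrL.c (I.pos (nat_lit 0) (nat_lit 0)) (xa (xc T4.l5 T4.l5) (xc T4.l1 (xb T4.l1 T4.l1)))
  (TrL.c (I.pos (nat_lit 0) (nat_lit 0)) (xb (xa T2.l5 (xb T2.l5 T2.l5)) (xa (xb T2.l5 T2.l5) (xa T2.l5 T2.l5)))
  TrL.n)))))) (by decide +kernel)
theorem bx1_5 : BoxOK sI cl4 cl9 cl7 t4 t2 b1_5 :=
  box_mk (TrL.c (I.pos (nat_lit 0) (nat_lit 0)) T4.l6
  (TrL.c (I.pos (nat_lit 0) (nat_lit 0)) T2.l3
  (TrL.c (I.pos (nat_lit 0) (nat_lit 0)) T4.l4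
  (TrL.c (I.pos (nat_lit 0) (nat_lit 0)) T2.l4
  (TrL.c (I.pos (nat_lit 0) (nat_lit 0)) T4.l7
  (TrL.c (I.pos (nat_lit 0) (nat_lit 0)) T2.l5
  TrL.n)))))) (by decide +kernel)
theorem bx1_6 : BoxOK sI cl4 cl9 cl7 t4 t2 b1_6 :=
  box_mk (TrL.c (I.pos (nat_lit 0) (nat_lit 0)) T4.l6
  (TrL.c (I.pos (nat_lit 0) (nat_lit 0)) T2.l3
  (TrL.c (I.pos (nat_lit 0) (nat_lit 0)) T4.l4
  (TrL.c (I.pos (nat_lit 0) (nat_lit 0)) T2.l4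
  (TrL.c (I.pos (nat_lit 0) (nat_lit 0)) T4.l7
  (TrL.c (I.pos (nat_lit 0) (nat_lit 0)) T2.l5
  TrL.n)))))) (by decide +kernel)
theorem bx1_7 : BoxOK sI cl4 cl9 cl7 t4 t2 b1_7 :=
  box_mk (TrL.c (I.pos (nat_lit 0) (nat_lit 0)) (xa T4.l0 T4.l2)
  (TrL.c (I.pos (nat_lit 0) (nat_lit 0)) (xa T2.l3 T2.l3)
  (TrL.c (I.pos (nat_lit 0) (nat_lit 0)) T4.l3
  (TrL.c (I.pos (nat_lit 0) (nat_lit 0)) (xa T2.l4 (xb T2.l0 (xa T2.l4 (xd T2.l4 T2.l4))))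
  (TrL.c (I.pos (nat_lit 0) (nat_lit 0)) T4.l1
  (TrL.c (I.pos (nat_lit 0) (nat_lit 0)) (xa T2.l5 T2.l5)
  TrL.n)))))) (by decide +kernel)
theorem bx1_8 : BoxOK sI cl4 cl9 cl7 t4 t2 b1_8 :=
  box_mk (TrL.c (I.pos (nat_lit 0) (nat_lit 0)) (xa (xb (xa T4.l6 T4.l6) T4.l6) (xb (xa T4.l6 T4.l0) T4.l0))
  (TrL.c (I.pos (nat_lit 0) (nat_lit 0)) T2.l3
  (TrL.c (I.pos (nat_lit 0) (nat_lit 0)) T4.l4
  (TrL.c (I.pos (nat_lit 0) (nat_lit 0)) T2.l4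
  (TrL.c (I.pos (nat_lit 0) (nat_lit 0)) T4.l7
  (TrL.c (I.pos (nat_lit 0) (nat_lit 0)) T2.l5
  TrL.n)))))) (by decide +kernel)
theorem bx1_9 : BoxOK sI cl4 cl9 cl7 t4 t2 b1_9 :=
  box_mk (TrL.c (I.pos (nat_lit 0) (nat_lit 0)) (xa (xa (xb (xa (xb (xa T4.l6 T4.l6) T4.l6) T4.l6) T4.l6) T4.l6) T4.l6)
  (TrL.c (I.pos (nat_lit 0) (nat_lit 0)) (xa T2.l3 T2.l3)
  (TrL.c (I.pos (nat_lit 0) (nat_lit 0)) T4.l4
  (TrL.c (I.pos (nat_lit 0) (nat_lit 0)) (xa T2.l4 T2.l4)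
  (TrL.c (I.pos (nat_lit 0) (nat_lit 0)) (xa T4.l7 T4.l7)
  (TrL.c (I.pos (nat_lit 0) (nat_lit 0)) (xa T2.l5 T2.l5)
  TrL.n)))))) (by decide +kernel)
theorem bx1_10 : BoxOK sI cl4 cl9 cl7 t4 t2 b1_10 :=
  box_mk (TrL.c (I.pos (nat_lit 0) (nat_lit 0)) (xb (xa (xb T4.l8 T4.l8) (xb T4.l8 T4.l8)) (xa (xb (xa T4.l8 T4.l8) (xa T4.l8 T4.l8)) (xb (xa T4.l8 T4.l8) (xa T4.l8 T4.l8))))
  (TrL.c (I.pos (nat_lit 0) (nat_lit 0)) (xb T2.l3 (xa T2.l3 T2.l3))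
  (TrL.c (I.pos (nat_lit 0) (nat_lit 0)) (xb T4.l4 T4.l4)
  (TrL.c (I.pos (nat_lit 0) (nat_lit 0)) (xb (xa T2.l4 T2.l4) (xa T2.l4 (xb T2.l4 (xa T2.l4 T2.l4))))
  (TrL.c (I.pos (nat_lit 0) (nat_lit 0)) (xb T4.l9 T4.l9)
  (TrL.c (I.pos (nat_lit 0) (nat_lit 0)) (xb T2.l5 (xa T2.l5 T2.l5))
  TrL.n)))))) (by decide +kernel)
theorem bx1_11 : BoxOK sI cl4 cl9 cl7 t4 t2 b1_11 :=
  box_mk (TrL.c (I.pos (nat_lit 0) (nat_lit 0)) (xa (xa (xb (xa (xb T4.l6 T4.l6) T4.l6) (xa (xb T4.l6 (xa (xb T4.l6 T4.l6) T4.l6)) T4.l6)) T4.l6) (xa T4.l6 (xb T4.l6 (xa T4.l6 (xb T4.l6 T4.l6)))))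
  (TrL.c (I.pos (nat_lit 0) (nat_lit 0)) (xa (xa T2.l3 T2.l3) T2.l3)
  (TrL.c (I.pos (nat_lit 0) (nat_lit 0)) (xa T4.l4 T4.l4)
  (TrL.c (I.pos (nat_lit 0) (nat_lit 0)) (xa (xa T2.l3 T2.l4) T2.l4)
  (TrL.c (I.pos (nat_lit 0) (nat_lit 0)) (xa T4.l7 T4.l7)
  (TrL.c (I.pos (nat_lit 0) (nat_lit 0)) (xa (xa T2.l5 T2.l5) T2.l5)
  TrL.n)))))) (by decide +kernel)
theorem bx1_12 : BoxOK sI cl4 cl9 cl7 t4 t2 b1_12 :=
  box_mk (TrL.c (I.pos (nat_lit 0) (nat_lit 0)) (xa T4.l0 T4.l0)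
  (TrL.c (I.pos (nat_lit 0) (nat_lit 0)) T2.l3
  (TrL.c (I.pos (nat_lit 0) (nat_lit 0)) (xa T4.l4 T4.l4)
  (TrL.c (I.pos (nat_lit 0) (nat_lit 0)) (xa T2.l4 (xb (xa T2.l4 T2.l4) T2.l4))
  (TrL.c (I.pos (nat_lit 0) (nat_lit 0)) (xa T4.l9 T4.l1)
  (TrL.c (I.pos (nat_lit 0) (nat_lit 0)) T2.l5
  TrL.n)))))) (by decide +kernel)
theorem bx1_13 : BoxOK sI cl4 cl9 cl7 t4 t2 b1_13 :=
  box_mk (TrL.c (I.pos (nat_lit 0) (nat_lit 0)) (xb (xa T4.l8 T4.l8) (xa (xb T4.l8 T4.l8) T4.l8))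
  (TrL.c (I.pos (nat_lit 0) (nat_lit 0)) T2.l3
  (TrL.c (I.pos (nat_lit 0) (nat_lit 0)) T4.l3
  (TrL.c (I.pos (nat_lit 0) (nat_lit 0)) (xb (xa T2.l4 (xb T2.l4 T2.l4)) T2.l4)
  (TrL.c (I.pos (nat_lit 0) (nat_lit 0)) T4.l1
  (TrL.c (I.pos (nat_lit 0) (nat_lit 0)) T2.l5
  TrL.n)))))) (by decide +kernel)
theorem sv1 : StarV sI cl4 cl9 cl7 t4 t2 t1 :=
  (bt_n (bt_n (bt_n (bt_b bx1_0) (bt_n (bt_b bx1_1) (bt_b bx1_2))) (bt_n (bt_n (bt_b bx1_3) (bt_b bx1_4)) (bt_n (bt_b bx1_5) (bt_b bx1_6)))) (bt_n (bt_n (bt_b bx1_7) (bt_n (bt_b bx1_8) (bt_b bx1_9))) (bt_n (bt_n (bt_b bx1_10) (bt_b bx1_11)) (bt_n (bt_b bx1_12) (bt_b bx1_13)))))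
def S1 : StarD := StarD.mk cl4 cl9 cl7 4 2 t1
theorem bx2_0 : BoxOK sI cl7 cl4 cl9 t0 t5 b2_0 :=
  box_mk (TrL.c (I.pos (nat_lit 0) (nat_lit 0)) (xb (xa (xb T0.l0 T0.l0) T0.l0) (xa (xb (xa T0.l0 T0.l0) (xa T0.l0 T0.l0)) (xa (xb T0.l0 T0.l0) (xb T0.l0 T0.l0))))
  (TrL.c (I.pos (nat_lit 0) (nat_lit 0)) (xb T5.l1 (xa T5.l1 T5.l1))
  (TrL.c (I.pos (nat_lit 0) (nat_lit 111196574)) (xR T0.l1 (xR T0.l1 (xR T0.l1 T0.l1)))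
  (TrL.c (I.pos (nat_lit 0) (nat_lit 77433728)) (xR T5.l2 (xR T5.l2 T5.l2))
  (TrL.c (I.pos (nat_lit 0) (nat_lit 0)) (xb (xa (xk (xb T5.l3 T5.l3) T5.l8) (xk (xb T5.l3 T5.l3) (xb T5.l3 T5.l3))) (xa (xk (xb T5.l3 T5.l3) T5.l3) (xk (xb T5.l3 T5.l3) (xb T5.l3 T5.l3))))
  (TrL.c (I.pos (nat_lit 0) (nat_lit 0)) T0.l2
  (TrL.c (I.mix (nat_lit 29511666) (nat_lit 77433728)) (xR T5.l4 (xR T5.l4 (xR T5.l4 T5.l4)))
  (TrL.c (I.mix (nat_lit 29511666) (nat_lit 46070178)) (xR T0.l3 (xR T0.l3 T0.l3))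
  TrL.n)))))))) (by decide +kernel)
theorem bx2_1 : BoxOK sI cl7 cl4 cl9 t0 t5 b2_1 :=
  box_mk (TrL.c (I.pos (nat_lit 0) (nat_lit 0)) T5.l5
  (TrL.c (I.pos (nat_lit 0) (nat_lit 0)) T0.l4
  (TrL.c (I.mix (nat_lit 29511666) (nat_lit 77433728)) (xR T5.l6 (xR T5.l4 (xb T5.l4 T5.l4)))
  (TrL.c (I.mix (nat_lit 29511666) (nat_lit 46070178)) (xR (xR T0.l5 T0.l5) T0.l11)
  TrL.n)))) (by decide +kernel)
theorem bx2_2 : BoxOK sI cl7 cl4 cl9 t0 t5 b2_2 :=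
  box_mk (TrL.c (I.pos (nat_lit 0) (nat_lit 0)) (xb (xa (xb T0.l6 T0.l7) T0.l7) T0.l7)
  (TrL.c (I.pos (nat_lit 0) (nat_lit 0)) T5.l1
  (TrL.c (I.pos (nat_lit 0) (nat_lit 111196574)) (xR T0.l1 (xR T0.l1 (xR T0.l1 T0.l1)))
  (TrL.c (I.pos (nat_lit 0) (nat_lit 77433728)) (xR T5.l4 T5.l4)
  (TrL.c (I.pos (nat_lit 0) (nat_lit 0)) T5.l7
  (TrL.c (I.pos (nat_lit 0) (nat_lit 0)) T0.l2
  (TrL.c (I.mix (nat_lit 29511666) (nat_lit 77433728)) T5.l4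
  (TrL.c (I.mix (nat_lit 29511666) (nat_lit 46070178)) T0.l11
  TrL.n)))))))) (by decide +kernel)
theorem bx2_3 : BoxOK sI cl7 cl4 cl9 t0 t5 b2_3 :=
  box_mk (TrL.c (I.pos (nat_lit 0) (nat_lit 0)) (xa (xb (xa (xb (xa T0.l7 T0.l7) T0.l7) (xb T0.l7 T0.l7)) (xa (xb T0.l7 (xa T0.l7 T0.l7)) T0.l7)) (xb (xa T0.l7 T0.l7) T0.l7))
  (TrL.c (I.pos (nat_lit 0) (nat_lit 0)) (xa T5.l1 T5.l1)
  (TrL.c (I.pos (nat_lit 0) (nat_lit 111196574)) (xR T0.l1 (xR T0.l1 (xb (xR T0.l1 T0.l1) T0.l1)))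
  (TrL.c (I.pos (nat_lit 0) (nat_lit 77433728)) (xR T5.l4 (xR T5.l2 T5.l2))
  (TrL.c (I.pos (nat_lit 0) (nat_lit 0)) (xa (xb T5.l8 T5.l8) (xb (xk T5.l8 T5.l8) T5.l8))
  (TrL.c (I.pos (nat_lit 0) (nat_lit 0)) T0.l2
  (TrL.c (I.mix (nat_lit 29511666) (nat_lit 77433728)) (xR T5.l4 (xR T5.l4 (xR T5.l4 T5.l4)))
  (TrL.c (I.mix (nat_lit 29511666) (nat_lit 46070178)) T0.l11
  TrL.n)))))))) (by decide +kernel)
theorem bx2_4 : BoxOK sI cl7 cl4 cl9 t0 t5 b2_4 :=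
  box_mk (TrL.c (I.pos (nat_lit 0) (nat_lit 0)) (xb (xa (xb T0.l7 T0.l7) (xb T0.l7 T0.l7)) (xa (xb (xa T0.l7 T0.l7) (xa (xb T0.l7 T0.l7) (xb T0.l7 T0.l7))) (xb T0.l7 (xa T0.l7 T0.l7))))
  (TrL.c (I.pos (nat_lit 0) (nat_lit 0)) (xb (xa T5.l1 T5.l1) (xa T5.l1 T5.l1))
  (TrL.c (I.pos (nat_lit 0) (nat_lit 111196574)) (xR T0.l1 (xR T0.l1 (xb T0.l1 (xR T0.l1 T0.l1))))
  (TrL.c (I.pos (nat_lit 0) (nat_lit 77433728)) (xR T5.l2 (xR T5.l2 T5.l2))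
  (TrL.c (I.pos (nat_lit 0) (nat_lit 0)) (xb (xa (xb T5.l8 T5.l8) (xk (xb T5.l8 T5.l8) (xb T5.l8 T5.l8))) (xa (xk T5.l8 (xb T5.l8 T5.l8)) (xk (xb T5.l3 T5.l3) (xb T5.l3 T5.l3))))
  (TrL.c (I.pos (nat_lit 0) (nat_lit 0)) T0.l2
  (TrL.c (I.mix (nat_lit 29511666) (nat_lit 77433728)) (xR T5.l4 (xR T5.l4 (xR T5.l4 T5.l4)))
  (TrL.c (I.mix (nat_lit 29511666) (nat_lit 46070178)) (xR T0.l3 (xR T0.l3 T0.l3))
  TrL.n)))))))) (by decide +kernel)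
theorem bx2_5 : BoxOK sI cl7 cl4 cl9 t0 t5 b2_5 :=
  box_mk (TrL.c (I.pos (nat_lit 0) (nat_lit 0)) (xa T5.l1 T5.l1)
  (TrL.c (I.pos (nat_lit 0) (nat_lit 0)) T0.l4
  (TrL.c (I.mix (nat_lit 29511666) (nat_lit 77433728)) (xR (xR T5.l6 T5.l6) (xR T5.l2 (xR T5.l2 T5.l2)))
  (TrL.c (I.mix (nat_lit 29511666) (nat_lit 46070178)) (xR (xR T0.l5 T0.l5) T0.l1)
  TrL.n)))) (by decide +kernel)
theorem bx2_6 : BoxOK sI cl7 cl4 cl9 t0 t5 b2_6 :=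
  box_mk (TrL.c (I.pos (nat_lit 0) (nat_lit 0)) (xa (xb T0.l0 (xa T0.l0 T0.l0)) (xb (xa T0.l0 T0.l0) (xa T0.l0 T0.l0)))
  (TrL.c (I.pos (nat_lit 0) (nat_lit 0)) (xa T5.l1 (xb T5.l1 (xk T5.l1 T5.l1)))
  (TrL.c (I.pos (nat_lit 0) (nat_lit 111196574)) (xR (xR T0.l1 T0.l1) (xR T0.l1 (xR T0.l1 (xa T0.l1 T0.l1))))
  (TrL.c (I.pos (nat_lit 0) (nat_lit 77433728)) (xR (xR T5.l2 T5.l2) (xR T5.l2 (xR T5.l2 T5.l2)))
  (TrL.c (I.pos (nat_lit 0) (nat_lit 0)) (xa (xb (xk (xa (xb T5.l3 T5.l3) (xb (xk T5.l3 T5.l3) T5.l3)) (xa (xb T5.l3 T5.l3) (xb (xk T5.l3 T5.l3) T5.l3))) (xk T5.l3 T5.l3)) (xb (xk (xa (xb (xk T5.l3 T5.l3) T5.l3) (xb (xk (xa T5.l3 T5.l3) (xa T5.l3 T5.l3)) (xk (xa T5.l3 T5.l3) T5.l3))) (xa (xb (xk T5.l3 T5.l3) T5.l3) (xb (xk (xa T5.l3 T5.l3) (xa T5.l3 T5.l3)) (xk T5.l3 T5.l3)))) (xk (xa (xb T5.l3 T5.l3) (xb (xk (xa T5.l3 T5.l3)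 T5.l3) (xk (xa T5.l3 T5.l3) (xa T5.l3 T5.l3)))) (xa (xb T5.l3 T5.l3) (xb (xk T5.l3 T5.l3) (xk (xa T5.l3 T5.l3) (xa T5.l3 T5.l3)))))))
  (TrL.c (I.pos (nat_lit 0) (nat_lit 0)) (xk (xa T0.l2 T0.l2) (xa T0.l2 T0.l2))
  (TrL.c (I.mix (nat_lit 29511666) (nat_lit 77433728)) (xR (xR T5.l4 T5.l4) (xR T5.l4 (xR T5.l4 (xk (xb T5.l4 T5.l4) T5.l4))))
  (TrL.c (I.mix (nat_lit 29511666) (nat_lit 46070178)) (xR (xR T0.l3 T0.l3) (xR T0.l3 T0.l3))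
  TrL.n)))))))) (by decide +kernel)
theorem bx2_7 : BoxOK sI cl7 cl4 cl9 t0 t5 b2_7 :=
  box_mk (TrL.c (I.pos (nat_lit 0) (nat_lit 0)) (xb (xa (xb (xa T0.l6 T0.l6) T0.l6) T0.l6) (xa (xb T0.l6 (xa T0.l6 T0.l6)) (xb T0.l6 T0.l6)))
  (TrL.c (I.pos (nat_lit 0) (nat_lit 0)) T5.l5
  (TrL.c (I.pos (nat_lit 0) (nat_lit 111196574)) (xR T0.l1 (xR T0.l1 (xR T0.l1 T0.l4)))
  (TrL.c (I.pos (nat_lit 0) (nat_lit 77433728)) T5.l4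
  (TrL.c (I.pos (nat_lit 0) (nat_lit 0)) T5.l7
  (TrL.c (I.pos (nat_lit 0) (nat_lit 0)) T0.l2
  (TrL.c (I.mix (nat_lit 29511666) (nat_lit 77433728)) (xR T5.l4 T5.l4)
  (TrL.c (I.mix (nat_lit 29511666) (nat_lit 46070178)) T0.l11
  TrL.n)))))))) (by decide +kernel)
theorem bx2_8 : BoxOK sI cl7 cl4 cl9 t0 t5 b2_8 :=
  box_mk (TrL.c (I.pos (nat_lit 0) (nat_lit 0)) (xa (xb T0.l0 (xb T0.l0 T0.l0)) (xb T0.l0 (xa T0.l0 T0.l0)))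
  (TrL.c (I.pos (nat_lit 0) (nat_lit 0)) (xk T5.l1 T5.l1)
  (TrL.c (I.pos (nat_lit 0) (nat_lit 111196574)) (xR T0.l1 (xR T0.l1 T0.l1))
  (TrL.c (I.pos (nat_lit 0) (nat_lit 77433728)) (xR T5.l2 T5.l2)
  (TrL.c (I.pos (nat_lit 0) (nat_lit 0)) (xb (xk T5.l3 T5.l3) (xk (xa T5.l3 T5.l3) (xa T5.l3 T5.l3)))
  (TrL.c (I.pos (nat_lit 0) (nat_lit 0)) T0.l2
  (TrL.c (I.mix (nat_lit 29511666) (nat_lit 77433728)) (xR T5.l4 (xR T5.l4 T5.l4))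
  (TrL.c (I.mix (nat_lit 29511666) (nat_lit 46070178)) (xR T0.l3 T0.l3)
  TrL.n)))))))) (by decide +kernel)
theorem bx2_9 : BoxOK sI cl7 cl4 cl9 t0 t5 b2_9 :=
  box_mk (TrL.c (I.pos (nat_lit 0) (nat_lit 0)) (xb (xa T0.l6 T0.l7) T0.l7)
  (TrL.c (I.pos (nat_lit 0) (nat_lit 0)) T5.l1
  (TrL.c (I.pos (nat_lit 0) (nat_lit 111196574)) (xR T0.l1 T0.l1)
  (TrL.c (I.pos (nat_lit 0) (nat_lit 77433728)) T5.l4
  (TrL.c (I.pos (nat_lit 0) (nat_lit 0)) T5.l7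
  (TrL.c (I.pos (nat_lit 0) (nat_lit 0)) T0.l2
  (TrL.c (I.mix (nat_lit 29511666) (nat_lit 77433728)) T5.l4
  (TrL.c (I.mix (nat_lit 29511666) (nat_lit 46070178)) T0.l3
  TrL.n)))))))) (by decide +kernel)
theorem sv2 : StarV sI cl7 cl4 cl9 t0 t5 t2 :=
  (bt_n (bt_n (bt_n (bt_b bx2_0) (bt_b bx2_1)) (bt_n (bt_b bx2_2) (bt_n (bt_b bx2_3) (bt_b bx2_4)))) (bt_n (bt_n (bt_b bx2_5) (bt_b bx2_6)) (bt_n (bt_b bx2_7) (bt_n (bt_b bx2_8) (bt_b bx2_9)))))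
def S2 : StarD := StarD.mk cl7 cl4 cl9 0 5 t2
theorem bx3_0 : BoxOK sI cl7 cl9 cl4 t5 t0 b3_0 :=
  box_mk (TrL.c (I.pos (nat_lit 0) (nat_lit 0)) (xa (xb (xa (xb T5.l0 (xc T5.l0 T5.l0)) (xb T5.l0 T5.l0)) (xa (xb (xc T5.l0 T5.l0) (xa (xc T5.l0 T5.l0) (xc T5.l0 T5.l0))) (xb T5.l0 (xa T5.l0 T5.l0)))) (xb (xa T5.l0 T5.l0) (xa (xb T5.l0 (xa T5.l0 T5.l0)) (xb T5.l0 (xa T5.l0 T5.l0)))))
  (TrL.c (I.pos (nat_lit 0) (nat_lit 0)) (xa (xk T0.l8 T0.l8) (xk T0.l8 T0.l8))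
  (TrL.c (I.pos (nat_lit 0) (nat_lit 111196574)) (xR (xR T5.l4 T5.l4) (xR T5.l4 (xR T5.l4 T5.l4)))
  (TrL.c (I.pos (nat_lit 0) (nat_lit 77433728)) (xR (xR T0.l9 T0.l9) (xR T0.l9 (xR T0.l9 T0.l9)))
  (TrL.c (I.pos (nat_lit 0) (nat_lit 0)) (xa (xk T0.l13 (xb T0.l13 T0.l10)) (xk (xb T0.l10 T0.l10) T0.l10))
  (TrL.c (I.pos (nat_lit 0) (nat_lit 0)) T5.l10
  (TrL.c (I.mix (nat_lit 29511666) (nat_lit 77433728)) (xR T0.l11 (xR T0.l11 (xR T0.l11 T0.l11)))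
  (TrL.c (I.mix (nat_lit 29511666) (nat_lit 46070178)) (xR (xR T5.l11 T5.l11) T5.l2)
  TrL.n)))))))) (by decide +kernel)
theorem bx3_1 : BoxOK sI cl7 cl9 cl4 t5 t0 b3_1 :=
  box_mk (TrL.c (I.pos (nat_lit 0) (nat_lit 0)) (xa (xb (xa T5.l12 T5.l12) (xa T5.l12 T5.l12)) (xb (xa T5.l12 T5.l0) (xa T5.l12 T5.l0)))
  (TrL.c (I.pos (nat_lit 0) (nat_lit 0)) (xa T0.l8 (xb T0.l8 T0.l8))
  (TrL.c (I.pos (nat_lit 0) (nat_lit 111196574)) (xR (xR T5.l4 T5.l9) (xR T5.l9 (xR T5.l9 T5.l9)))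
  (TrL.c (I.pos (nat_lit 0) (nat_lit 77433728)) (xR (xR T0.l9 T0.l9) T0.l9)
  (TrL.c (I.pos (nat_lit 0) (nat_lit 0)) (xa (xb (xk T0.l12 T0.l12) T0.l12) (xk (xb T0.l12 T0.l12) (xb T0.l12 T0.l12)))
  (TrL.c (I.pos (nat_lit 0) (nat_lit 0)) T5.l10
  (TrL.c (I.mix (nat_lit 29511666) (nat_lit 77433728)) (xR T0.l11 (xR T0.l11 T0.l11))
  (TrL.c (I.mix (nat_lit 29511666) (nat_lit 46070178)) (xR T5.l11 T5.l2)
  TrL.n)))))))) (by decide +kernel)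
theorem bx3_2 : BoxOK sI cl7 cl9 cl4 t5 t0 b3_2 :=
  box_mk (TrL.c (I.pos (nat_lit 0) (nat_lit 0)) (xa T5.l12 T5.l12)
  (TrL.c (I.pos (nat_lit 0) (nat_lit 0)) (xa T0.l8 T0.l8)
  (TrL.c (I.pos (nat_lit 0) (nat_lit 111196574)) (xR T5.l4 T5.l9)
  (TrL.c (I.pos (nat_lit 0) (nat_lit 77433728)) (xR T0.l9 (xR T0.l9 T0.l9))
  (TrL.c (I.pos (nat_lit 0) (nat_lit 0)) (xa (xa T0.l8 T0.l12) (xa T0.l12 T0.l12))
  (TrL.c (I.pos (nat_lit 0) (nat_lit 0)) T5.l10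
  (TrL.c (I.mix (nat_lit 29511666) (nat_lit 77433728)) (xR T0.l11 (xR T0.l11 (xa T0.l11 T0.l11)))
  (TrL.c (I.mix (nat_lit 29511666) (nat_lit 46070178)) T5.l11
  TrL.n)))))))) (by decide +kernel)
theorem bx3_3 : BoxOK sI cl7 cl9 cl4 t5 t0 b3_3 :=
  box_mk (TrL.c (I.pos (nat_lit 0) (nat_lit 0)) (xb (xa (xb T5.l13 (xa T5.l13 T5.l13)) (xb T5.l13 T5.l13)) (xa (xb (xa T5.l13 T5.l13) (xa T5.l13 T5.l13)) (xb (xa T5.l13 T5.l13) (xa T5.l13 T5.l13))))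
  (TrL.c (I.pos (nat_lit 0) (nat_lit 0)) (xk (xb T0.l8 T0.l8) (xb T0.l8 T0.l8))
  (TrL.c (I.pos (nat_lit 0) (nat_lit 111196574)) (xR (xR T5.l4 T5.l4) (xR T5.l4 (xR T5.l4 T5.l4)))
  (TrL.c (I.pos (nat_lit 0) (nat_lit 77433728)) (xR (xR T0.l9 T0.l9) (xR T0.l9 (xR T0.l9 T0.l9)))
  (TrL.c (I.pos (nat_lit 0) (nat_lit 0)) (xk (xb (xa T0.l13 T0.l13) T0.l13) (xb T0.l13 T0.l13))
  (TrL.c (I.pos (nat_lit 0) (nat_lit 0)) T5.l10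
  (TrL.c (I.mix (nat_lit 29511666) (nat_lit 77433728)) (xR T0.l11 (xR T0.l11 (xR T0.l11 T0.l11)))
  (TrL.c (I.mix (nat_lit 29511666) (nat_lit 46070178)) (xR (xR T5.l11 T5.l11) T5.l2)
  TrL.n)))))))) (by decide +kernel)
theorem bx3_4 : BoxOK sI cl7 cl9 cl4 t5 t0 b3_4 :=
  box_mk (TrL.c (I.pos (nat_lit 0) (nat_lit 0)) (xa (xa (xb (xa (xb T5.l12 T5.l12) T5.l12) (xa (xb T5.l12 (xa T5.l12 T5.l12)) (xb T5.l12 T5.l12))) (xb (xa T5.l12 T5.l12) (xa T5.l12 T5.l12))) (xa (xb T5.l12 (xa T5.l12 (xb T5.l12 (xa T5.l12 T5.l12)))) (xb T5.l12 (xa (xb T5.l12 (xa T5.l12 T5.l12)) (xb T5.l12 (xa T5.l12 T5.l12))))))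
  (TrL.c (I.pos (nat_lit 0) (nat_lit 0)) (xa (xa T0.l8 T0.l8) (xa T0.l8 T0.l8))
  (TrL.c (I.pos (nat_lit 0) (nat_lit 111196574)) (xR T5.l4 (xa (xR T5.l9 (xR T5.l9 T5.l9)) T5.l9))
  (TrL.c (I.pos (nat_lit 0) (nat_lit 77433728)) (xR T0.l9 (xR T0.l9 T0.l9))
  (TrL.c (I.pos (nat_lit 0) (nat_lit 0)) (xa (xa T0.l12 T0.l12) T0.l12)
  (TrL.c (I.pos (nat_lit 0) (nat_lit 0)) T5.l10
  (TrL.c (I.mix (nat_lit 29511666) (nat_lit 77433728)) (xR T0.l11 (xR T0.l11 (xa T0.l11 T0.l11)))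
  (TrL.c (I.mix (nat_lit 29511666) (nat_lit 46070178)) T5.l11
  TrL.n)))))))) (by decide +kernel)
theorem bx3_5 : BoxOK sI cl7 cl9 cl4 t5 t0 b3_5 :=
  box_mk (TrL.c (I.pos (nat_lit 0) (nat_lit 0)) (xb (xa (xb (xa T5.l13 T5.l13) T5.l13) (xb (xa T5.l0 T5.l0) T5.l13)) (xa (xb T5.l13 T5.l13) (xb T5.l13 T5.l13)))
  (TrL.c (I.pos (nat_lit 0) (nat_lit 0)) (xb (xk T0.l8 T0.l8) (xk T0.l8 T0.l8))
  (TrL.c (I.pos (nat_lit 0) (nat_lit 111196574)) (xR (xR T5.l4 T5.l9) (xR T5.l4 T5.l4))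
  (TrL.c (I.pos (nat_lit 0) (nat_lit 77433728)) (xR (xR T0.l9 T0.l9) (xR T0.l9 T0.l9))
  (TrL.c (I.pos (nat_lit 0) (nat_lit 0)) (xk (xb (xa T0.l13 T0.l13) T0.l13) (xb (xa T0.l13 T0.l13) T0.l13))
  (TrL.c (I.pos (nat_lit 0) (nat_lit 0)) T5.l10
  (TrL.c (I.mix (nat_lit 29511666) (nat_lit 77433728)) (xR T0.l11 (xR T0.l11 (xR T0.l11 T0.l11)))
  (TrL.c (I.mix (nat_lit 29511666) (nat_lit 46070178)) (xR (xR T5.l11 T5.l11) T5.l2)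
  TrL.n)))))))) (by decide +kernel)
theorem bx3_6 : BoxOK sI cl7 cl9 cl4 t5 t0 b3_6 :=
  box_mk (TrL.c (I.pos (nat_lit 0) (nat_lit 0)) (xa (xa T5.l12 T5.l12) (xa T5.l12 T5.l12))
  (TrL.c (I.pos (nat_lit 0) (nat_lit 0)) (xa T0.l8 T0.l8)
  (TrL.c (I.pos (nat_lit 0) (nat_lit 111196574)) (xR T5.l4 (xR T5.l9 (xa T5.l9 T5.l9)))
  (TrL.c (I.pos (nat_lit 0) (nat_lit 77433728)) (xR T0.l11 (xR T0.l9 T0.l9))
  (TrL.c (I.pos (nat_lit 0) (nat_lit 0)) (xa (xa T0.l12 T0.l12) T0.l12)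
  (TrL.c (I.pos (nat_lit 0) (nat_lit 0)) T5.l10
  (TrL.c (I.mix (nat_lit 29511666) (nat_lit 77433728)) (xR T0.l11 (xR T0.l11 (xa T0.l11 T0.l11)))
  (TrL.c (I.mix (nat_lit 29511666) (nat_lit 46070178)) T5.l4
  TrL.n)))))))) (by decide +kernel)
theorem bx3_7 : BoxOK sI cl7 cl9 cl4 t5 t0 b3_7 :=
  box_mk (TrL.c (I.pos (nat_lit 0) (nat_lit 0)) (xa (xb T5.l12 T5.l12) T5.l0)
  (TrL.c (I.pos (nat_lit 0) (nat_lit 0)) T0.l8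
  (TrL.c (I.pos (nat_lit 0) (nat_lit 111196574)) (xR (xR T5.l4 T5.l9) T5.l9)
  (TrL.c (I.pos (nat_lit 0) (nat_lit 77433728)) (xR (xR T0.l9 T0.l9) T0.l9)
  (TrL.c (I.pos (nat_lit 0) (nat_lit 0)) (xk T0.l12 T0.l12)
  (TrL.c (I.pos (nat_lit 0) (nat_lit 0)) T5.l10
  (TrL.c (I.mix (nat_lit 29511666) (nat_lit 77433728)) (xR T0.l11 T0.l11)
  (TrL.c (I.mix (nat_lit 29511666) (nat_lit 46070178)) (xR T5.l11 T5.l11)
  TrL.n)))))))) (by decide +kernel)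
theorem bx3_8 : BoxOK sI cl7 cl9 cl4 t5 t0 b3_8 :=
  box_mk (TrL.c (I.pos (nat_lit 0) (nat_lit 0)) (xa T5.l13 T5.l13)
  (TrL.c (I.pos (nat_lit 0) (nat_lit 0)) T0.l8
  (TrL.c (I.pos (nat_lit 0) (nat_lit 111196574)) (xR (xR T5.l4 T5.l9) T5.l9)
  (TrL.c (I.pos (nat_lit 0) (nat_lit 77433728)) (xR (xR T0.l9 T0.l9) T0.l9)
  (TrL.c (I.pos (nat_lit 0) (nat_lit 0)) (xk T0.l13 T0.l13)
  (TrL.c (I.pos (nat_lit 0) (nat_lit 0)) T5.l10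
  (TrL.c (I.mix (nat_lit 29511666) (nat_lit 77433728)) (xR T0.l11 T0.l11)
  (TrL.c (I.mix (nat_lit 29511666) (nat_lit 46070178)) (xR T5.l11 T5.l11)
  TrL.n)))))))) (by decide +kernel)
theorem bx3_9 : BoxOK sI cl7 cl9 cl4 t5 t0 b3_9 :=
  box_mk (TrL.c (I.pos (nat_lit 0) (nat_lit 0)) (xa (xa T5.l12 T5.l12) (xa T5.l12 T5.l12))
  (TrL.c (I.pos (nat_lit 0) (nat_lit 0)) (xa T0.l8 T0.l8)
  (TrL.c (I.pos (nat_lit 0) (nat_lit 111196574)) (xR T5.l4 T5.l9)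
  (TrL.c (I.pos (nat_lit 0) (nat_lit 77433728)) (xR T0.l9 T0.l9)
  (TrL.c (I.pos (nat_lit 0) (nat_lit 0)) T0.l12
  (TrL.c (I.pos (nat_lit 0) (nat_lit 0)) T5.l10
  (TrL.c (I.mix (nat_lit 29511666) (nat_lit 77433728)) (xR T0.l11 T0.l11)
  (TrL.c (I.mix (nat_lit 29511666) (nat_lit 46070178)) T5.l11
  TrL.n)))))))) (by decide +kernel)
theorem bx3_10 : BoxOK sI cl7 cl9 cl4 t5 t0 b3_10 :=
  box_mk (TrL.c (I.pos (nat_lit 0) (nat_lit 0)) (xb (xa T5.l12 T5.l12) (xa (xb T5.l12 T5.l12) T5.l12))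
  (TrL.c (I.pos (nat_lit 0) (nat_lit 0)) (xb T0.l8 T0.l8)
  (TrL.c (I.pos (nat_lit 0) (nat_lit 111196574)) (xR (xR T5.l4 T5.l9) (xR T5.l9 (xR T5.l9 T5.l9)))
  (TrL.c (I.pos (nat_lit 0) (nat_lit 77433728)) (xR T0.l9 T0.l9)
  (TrL.c (I.pos (nat_lit 0) (nat_lit 0)) (xb (xa (xk T0.l12 T0.l12) (xk T0.l12 T0.l12)) (xk T0.l12 T0.l12))
  (TrL.c (I.pos (nat_lit 0) (nat_lit 0)) T5.l10
  (TrL.c (I.mix (nat_lit 29511666) (nat_lit 77433728)) (xR T0.l11 (xR T0.l11 T0.l11))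
  (TrL.c (I.mix (nat_lit 29511666) (nat_lit 46070178)) (xR T5.l11 T5.l2)
  TrL.n)))))))) (by decide +kernel)
theorem bx3_11 : BoxOK sI cl7 cl9 cl4 t5 t0 b3_11 :=
  box_mk (TrL.c (I.pos (nat_lit 0) (nat_lit 0)) (xa (xa (xb (xa T5.l12 T5.l12) T5.l12) T5.l12) T5.l12)
  (TrL.c (I.pos (nat_lit 0) (nat_lit 0)) (xa T0.l8 T0.l8)
  (TrL.c (I.pos (nat_lit 0) (nat_lit 111196574)) (xR T5.l4 (xR T5.l9 (xa T5.l9 T5.l9)))
  (TrL.c (I.pos (nat_lit 0) (nat_lit 77433728)) (xR T0.l11 (xR T0.l9 T0.l9))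
  (TrL.c (I.pos (nat_lit 0) (nat_lit 0)) (xa (xa T0.l8 T0.l12) (xa T0.l12 T0.l12))
  (TrL.c (I.pos (nat_lit 0) (nat_lit 0)) T5.l10
  (TrL.c (I.mix (nat_lit 29511666) (nat_lit 77433728)) (xR T0.l11 (xR T0.l11 (xa T0.l11 T0.l11)))
  (TrL.c (I.mix (nat_lit 29511666) (nat_lit 46070178)) T5.l4
  TrL.n)))))))) (by decide +kernel)
theorem c3_12_0 : chkTag sI cl7 cl9 cl4 t5 b3_12 (tg true true false RT.r2) (I.pos (nat_lit 0) (nat_lit 0))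
  (xa (xb (xa (xb T5.l0 T5.l0) (xb T5.l0 T5.l0)) (xa (xb (xa T5.l0 T5.l0) (xa T5.l0 T5.l0)) (xa (xb T5.l0 T5.l0) (xb T5.l0 T5.l0)))) (xa (xb (xa T5.l0 T5.l0) (xa (xb T5.l0 T5.l0) (xb T5.l0 T5.l0))) (xb (xa (xb T5.l0 T5.l0) (xb (xc T5.l0 T5.l0) (xc T5.l0 T5.l0))) (xa (xb T5.l0 T5.l0) (xb (xc T5.l0 (xk T5.l0 T5.l0)) (xc T5.l0 (xk T5.l0 T5.l0))))))) = true := by decide +kernel
theorem c3_12_1 : chkTag sI cl7 cl9 cl4 t0 b3_12 (tg true false false RT.r3) (I.pos (nat_lit 0) (nat_lit 0))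
  (xa (xb (xk T0.l8 T0.l8) (xk T0.l8 T0.l8)) (xk (xb T0.l8 (xa T0.l8 T0.l8)) (xb T0.l8 (xa T0.l8 T0.l8)))) = true := by decide +kernel
theorem c3_12_2 : chkTag sI cl7 cl9 cl4 t5 b3_12 (Tag.mk true true false RT.tl RT.r4) (I.pos (nat_lit 0) (nat_lit 111196574))
  (xR (xR T5.l4 (xR T5.l9 T5.l4)) (xR T5.l4 (xR T5.l4 T5.l4))) = true := by decide +kernel
theorem c3_12_3 : chkTag sI cl7 cl9 cl4 t0 b3_12 (Tag.mk true false false RT.tl RT.r5) (I.pos (nat_lit 0) (nat_lit 77433728))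
  (xR (xR T0.l3 (xR T0.l9 T0.l9)) (xR T0.l9 (xa T0.l9 (xR T0.l9 T0.l9)))) = true := by decide +kernel
theorem c3_12_4 : chkTag sI cl7 cl9 cl4 t0 b3_12 (tg false false false RT.r3) (I.pos (nat_lit 0) (nat_lit 0))
  (xa (xb (xk (xa T0.l13 (xb T0.l10 T0.l10)) (xa T0.l13 (xb T0.l10 T0.l10))) (xk (xa T0.l10 T0.l10) T0.l10)) (xb (xk (xa (xb T0.l10 T0.l10) (xk (xb T0.l10 T0.l10) (xb T0.l10 T0.l10))) (xa (xb T0.l10 T0.l10) (xb (xk T0.l10 T0.l10) (xk T0.l10 T0.l10)))) (xk (xa T0.l10 (xb (xk T0.l10 T0.l10) (xk T0.l10 T0.l10))) (xa T0.l10 (xb (xk T0.l10 T0.l10) (xk T0.l10 T0.l10)))))) = true := by decide +kernel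
theorem c3_12_5 : chkTag sI cl7 cl9 cl4 t5 b3_12 (tg false true false RT.r4) (I.pos (nat_lit 0) (nat_lit 0))
  (xk (xa T5.l10 (xb T5.l1 T5.l10)) (xa T5.l10 (xb T5.l1 T5.l10))) = true := by decide +kernel
theorem c3_12_6 : chkTag sI cl7 cl9 cl4 t0 b3_12 (Tag.mk false false false RT.tl RT.r5) (I.mix (nat_lit 29511666) (nat_lit 77433728))
  (xR T0.l11 (xR T0.l11 (xR T0.l11 (xk (xa T0.l11 T0.l11) T0.l11)))) = true := by decide +kernel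
theorem c3_12_7 : chkTag sI cl7 cl9 cl4 t5 b3_12 (Tag.mk false true false RT.tl RT.r6) (I.mix (nat_lit 29511666) (nat_lit 46070178))
  (xR (xR T5.l11 T5.l11) (xR T5.l2 (xR T5.l2 T5.l2))) = true := by decide +kernel
theorem bx3_12 : BoxOK sI cl7 cl9 cl4 t5 t0 b3_12 :=
  box_mk' [(tg true true false RT.r2), (tg true false false RT.r3), (Tag.mk true true false RT.tl RT.r4), (Tag.mk true false false RT.tl RT.r5), (tg false false false RT.r3), (tg false true false RT.r4), (Tag.mk false false false RT.tl RT.r5), (Tag.mk false true false RT.tl RT.r6)] rfl (allL_c (ex_mk c3_12_0) (allL_c (ex_mk c3_12_1) (allL_c (ex_mk c3_12_2) (allL_c (ex_mk c3_12_3) (allL_c (ex_mk c3_12_4) (allL_c (ex_mk c3_12_5) (allL_c (ex_mk c3_12_6) (allL_c (ex_mk c3_12_7) allL_n))))))))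
theorem bx3_13 : BoxOK sI cl7 cl9 cl4 t5 t0 b3_13 :=
  box_mk (TrL.c (I.pos (nat_lit 0) (nat_lit 0)) (xa (xb (xa T5.l0 T5.l0) (xa (xb T5.l0 T5.l0) (xb T5.l0 T5.l0))) (xb (xa T5.l0 T5.l0) (xa (xb T5.l0 T5.l0) (xb T5.l0 T5.l0))))
  (TrL.c (I.pos (nat_lit 0) (nat_lit 0)) (xk (xa T0.l8 T0.l8) T0.l8)
  (TrL.c (I.pos (nat_lit 0) (nat_lit 111196574)) (xR (xR T5.l4 T5.l9) (xR T5.l4 (xR T5.l4 T5.l4)))
  (TrL.c (I.pos (nat_lit 0) (nat_lit 77433728)) (xR (xR T0.l9 T0.l9) (xR T0.l9 (xR T0.l9 T0.l9)))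
  (TrL.c (I.pos (nat_lit 0) (nat_lit 0)) (xk (xa T0.l10 T0.l10) T0.l10)
  (TrL.c (I.pos (nat_lit 0) (nat_lit 0)) T5.l10
  (TrL.c (I.mix (nat_lit 29511666) (nat_lit 77433728)) (xR T0.l11 (xR T0.l11 (xR T0.l11 T0.l11)))
  (TrL.c (I.mix (nat_lit 29511666) (nat_lit 46070178)) (xR (xR T5.l11 T5.l11) T5.l2)
  TrL.n)))))))) (by decide +kernel)
theorem sv3 : StarV sI cl7 cl9 cl4 t5 t0 t3 :=
  (bt_n (bt_n (bt_n (bt_b bx3_0) (bt_n (bt_b bx3_1) (bt_b bx3_2))) (bt_n (bt_n (bt_b bx3_3) (bt_b bx3_4)) (bt_n (bt_b bx3_5) (bt_b bx3_6)))) (bt_n (bt_n (bt_b bx3_7) (bt_n (bt_b bx3_8) (bt_b bx3_9))) (bt_n (bt_n (bt_b bx3_10) (bt_b bx3_11)) (bt_n (bt_b bx3_12) (bt_b bx3_13)))))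
def S3 : StarD := StarD.mk cl7 cl9 cl4 5 0 t3
theorem bx4_0 : BoxOK sI cl9 cl4 cl7 t1 t3 b4_0 :=
  box_mk (TrL.c (I.pos (nat_lit 0) (nat_lit 0)) (xa (xb (xb T1.l0 T1.l0) (xb (xa T1.l0 T1.l0) (xa T1.l0 T1.l0))) (xb T1.l0 (xa (xb T1.l0 T1.l0) (xb T1.l0 T1.l0))))
  (TrL.c (I.pos (nat_lit 0) (nat_lit 0)) (xa T3.l1 (xb T3.l1 T3.l1))
  (TrL.c (I.pos (nat_lit 0) (nat_lit 124588530)) (xR T1.l11 (xR T1.l1 (xR T1.l1 T1.l1)))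
  (TrL.c (I.pos (nat_lit 0) (nat_lit 96881482)) (xR T3.l2 (xR T3.l2 (xR T3.l2 T3.l2)))
  (TrL.c (I.pos (nat_lit 0) (nat_lit 0)) (xb (xa (xk T3.l3 T3.l3) (xk (xb T3.l3 T3.l3) (xb T3.l3 T3.l3))) (xa (xk T3.l3 T3.l3) (xk (xb T3.l3 T3.l3) (xb T3.l3 T3.l3))))
  (TrL.c (I.pos (nat_lit 0) (nat_lit 0)) T1.l2
  (TrL.c (I.mix (nat_lit 17240550) (nat_lit 96881482)) (xR T3.l4 (xR T3.l4 (xR T3.l4 T3.l4)))
  (TrL.c (I.mix (nat_lit 17240550) (nat_lit 71940500)) (xR T1.l3 (xR T1.l3 T1.l3))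
  TrL.n)))))))) (by decide +kernel)
theorem bx4_1 : BoxOK sI cl9 cl4 cl7 t1 t3 b4_1 :=
  box_mk (TrL.c (I.pos (nat_lit 0) (nat_lit 0)) (xa (xb (xb (xa T1.l4 T1.l4) T1.l4) (xa (xb T1.l4 T1.l4) T1.l4)) (xb T1.l4 T1.l4))
  (TrL.c (I.pos (nat_lit 0) (nat_lit 0)) (xa T3.l1 T3.l1)
  (TrL.c (I.pos (nat_lit 0) (nat_lit 124588530)) (xR T1.l1 (xR T1.l1 (xR T1.l1 T1.l1)))
  (TrL.c (I.pos (nat_lit 0) (nat_lit 96881482)) (xR T3.l4 (xR T3.l2 (xR T3.l2 T3.l6)))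
  (TrL.c (I.pos (nat_lit 0) (nat_lit 0)) (xa T3.l5 (xb T3.l5 T3.l5))
  (TrL.c (I.pos (nat_lit 0) (nat_lit 0)) T1.l2
  (TrL.c (I.mix (nat_lit 17240550) (nat_lit 96881482)) (xR T3.l4 (xR T3.l4 (xR T3.l4 T3.l4)))
  (TrL.c (I.mix (nat_lit 17240550) (nat_lit 71940500)) T1.l11
  TrL.n)))))))) (by decide +kernel)
theorem bx4_2 : BoxOK sI cl9 cl4 cl7 t1 t3 b4_2 :=
  box_mk (TrL.c (I.pos (nat_lit 0) (nat_lit 0)) (xb (xa (xb T1.l4 T1.l4) (xb T1.l4 T1.l4)) (xa (xb (xa T1.l4 T1.l4) (xa (xb T1.l4 T1.l4) (xb T1.l4 T1.l4))) (xb (xa T1.l4 T1.l4) (xa T1.l4 T1.l4))))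
  (TrL.c (I.pos (nat_lit 0) (nat_lit 0)) (xb T3.l1 (xa T3.l1 T3.l1))
  (TrL.c (I.pos (nat_lit 0) (nat_lit 124588530)) (xR T1.l1 (xR T1.l1 (xb T1.l1 (xR T1.l1 T1.l1))))
  (TrL.c (I.pos (nat_lit 0) (nat_lit 96881482)) (xR T3.l2 (xR T3.l2 (xR T3.l2 T3.l2)))
  (TrL.c (I.pos (nat_lit 0) (nat_lit 0)) (xb (xa (xb T3.l5 T3.l5) (xk (xb T3.l5 T3.l5) (xb T3.l5 T3.l5))) (xa (xk (xb T3.l5 T3.l5) (xb T3.l5 T3.l5)) (xk (xb T3.l3 T3.l3) (xb T3.l3 T3.l3))))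
  (TrL.c (I.pos (nat_lit 0) (nat_lit 0)) T1.l2
  (TrL.c (I.mix (nat_lit 17240550) (nat_lit 96881482)) (xR T3.l4 (xR T3.l4 (xR T3.l4 T3.l4)))
  (TrL.c (I.mix (nat_lit 17240550) (nat_lit 71940500)) (xR T1.l3 (xR T1.l3 T1.l3))
  TrL.n)))))))) (by decide +kernel)
theorem bx4_3 : BoxOK sI cl9 cl4 cl7 t1 t3 b4_3 :=
  box_mk (TrL.c (I.pos (nat_lit 0) (nat_lit 0)) (xa T3.l1 T3.l7)
  (TrL.c (I.pos (nat_lit 0) (nat_lit 0)) T1.l6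
  (TrL.c (I.mix (nat_lit 17240550) (nat_lit 96881482)) (xR T3.l6 (xR T3.l6 (xR T3.l6 T3.l6)))
  (TrL.c (I.mix (nat_lit 17240550) (nat_lit 71940500)) (xR (xR T1.l11 T1.l1) T1.l1)
  TrL.n)))) (by decide +kernel)
theorem bx4_4 : BoxOK sI cl9 cl4 cl7 t1 t3 b4_4 :=
  box_mk (TrL.c (I.pos (nat_lit 0) (nat_lit 0)) T3.l7
  (TrL.c (I.pos (nat_lit 0) (nat_lit 0)) T1.l6
  (TrL.c (I.mix (nat_lit 17240550) (nat_lit 96881482)) (xR (xR T3.l6 T3.l6) (xR T3.l6 T3.l4))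
  (TrL.c (I.mix (nat_lit 17240550) (nat_lit 71940500)) (xR T1.l11 T1.l1)
  TrL.n)))) (by decide +kernel)
theorem bx4_5 : BoxOK sI cl9 cl4 cl7 t1 t3 b4_5 :=
  box_mk (TrL.c (I.pos (nat_lit 0) (nat_lit 0)) (xb (xa T1.l7 T1.l4) T1.l4)
  (TrL.c (I.pos (nat_lit 0) (nat_lit 0)) T3.l1
  (TrL.c (I.pos (nat_lit 0) (nat_lit 124588530)) (xR T1.l1 T1.l1)
  (TrL.c (I.pos (nat_lit 0) (nat_lit 96881482)) T3.l4
  (TrL.c (I.pos (nat_lit 0) (nat_lit 0)) T3.l5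
  (TrL.c (I.pos (nat_lit 0) (nat_lit 0)) T1.l2
  (TrL.c (I.mix (nat_lit 17240550) (nat_lit 96881482)) T3.l4
  (TrL.c (I.mix (nat_lit 17240550) (nat_lit 71940500)) T1.l3
  TrL.n)))))))) (by decide +kernel)
theorem bx4_6 : BoxOK sI cl9 cl4 cl7 t1 t3 b4_6 :=
  box_mk (TrL.c (I.pos (nat_lit 0) (nat_lit 0)) (xa (xb T1.l0 (xa T1.l0 T1.l0)) (xb T1.l0 (xa T1.l0 T1.l0)))
  (TrL.c (I.pos (nat_lit 0) (nat_lit 0)) (xa T3.l1 (xb T3.l10 (xk T3.l1 T3.l1)))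
  (TrL.c (I.pos (nat_lit 0) (nat_lit 124588530)) (xR T1.l11 (xR T1.l1 (xR T1.l1 T1.l11)))
  (TrL.c (I.pos (nat_lit 0) (nat_lit 96881482)) (xR T3.l11 (xR T3.l2 (xR T3.l2 T3.l2)))
  (TrL.c (I.pos (nat_lit 0) (nat_lit 0)) (xa (xb (xk (xa (xb T3.l3 T3.l3) (xb (xk T3.l3 T3.l3) T3.l3)) (xa T3.l3 (xb T3.l3 T3.l3))) (xk (xa T3.l3 T3.l3) T3.l3)) (xb (xk (xa (xb (xk T3.l3 T3.l3) T3.l3) (xb (xk (xa T3.l3 T3.l3) (xa T3.l3 T3.l3)) (xk (xa T3.l3 T3.l3) T3.l3))) (xa (xb (xk T3.l3 T3.l3) T3.l3) (xb (xk (xa T3.l3 T3.l3) (xa T3.l3 T3.l3)) (xk T3.l3 T3.l3)))) (xk (xa (xb T3.l3 T3.l3) (xb (xk (xa T3.l3 T3.l3) T3.l3) (xk (xa T3.l3 T3.l3) (xa T3.l3 T3.l3)))) (xa (xb T3.l3 T3.l3) (xb (xk T3.l3 T3.l3) (xk (xa T3.l3 T3.l3) (xa T3.l3 T3.l3)))))))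
  (TrL.c (I.pos (nat_lit 0) (nat_lit 0)) (xk T1.l2 T1.l2)
  (TrL.c (I.mix (nat_lit 17240550) (nat_lit 96881482)) (xR T3.l4 (xR T3.l4 (xR T3.l4 (xk T3.l4 T3.l4))))
  (TrL.c (I.mix (nat_lit 17240550) (nat_lit 71940500)) (xR T1.l3 (xR T1.l3 T1.l3))
  TrL.n)))))))) (by decide +kernel)
theorem bx4_7 : BoxOK sI cl9 cl4 cl7 t1 t3 b4_7 :=
  box_mk (TrL.c (I.pos (nat_lit 0) (nat_lit 0)) (xb (xa (xb T1.l7 T1.l7) T1.l7) (xa (xb T1.l7 T1.l7) T1.l7))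
  (TrL.c (I.pos (nat_lit 0) (nat_lit 0)) T3.l7
  (TrL.c (I.pos (nat_lit 0) (nat_lit 124588530)) (xR T1.l1 (xR T1.l1 (xR T1.l1 T1.l1)))
  (TrL.c (I.pos (nat_lit 0) (nat_lit 96881482)) T3.l4
  (TrL.c (I.pos (nat_lit 0) (nat_lit 0)) T3.l8
  (TrL.c (I.pos (nat_lit 0) (nat_lit 0)) T1.l2
  (TrL.c (I.mix (nat_lit 17240550) (nat_lit 96881482)) (xR T3.l4 T3.l4)
  (TrL.c (I.mix (nat_lit 17240550) (nat_lit 71940500)) T1.l3
  TrL.n)))))))) (by decide +kernel)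
theorem bx4_8 : BoxOK sI cl9 cl4 cl7 t1 t3 b4_8 :=
  box_mk (TrL.c (I.pos (nat_lit 0) (nat_lit 0)) (xa (xb T1.l0 (xb T1.l0 T1.l0)) (xb T1.l0 (xb T1.l0 T1.l0)))
  (TrL.c (I.pos (nat_lit 0) (nat_lit 0)) (xk T3.l1 T3.l1)
  (TrL.c (I.pos (nat_lit 0) (nat_lit 124588530)) (xR T1.l1 (xR T1.l1 T1.l1))
  (TrL.c (I.pos (nat_lit 0) (nat_lit 96881482)) (xR T3.l2 T3.l2)
  (TrL.c (I.pos (nat_lit 0) (nat_lit 0)) (xk (xb T3.l3 (xa T3.l3 T3.l3)) (xb T3.l3 (xa T3.l3 T3.l3)))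
  (TrL.c (I.pos (nat_lit 0) (nat_lit 0)) T1.l2
  (TrL.c (I.mix (nat_lit 17240550) (nat_lit 96881482)) (xR T3.l4 T3.l4)
  (TrL.c (I.mix (nat_lit 17240550) (nat_lit 71940500)) (xR T1.l3 T1.l3)
  TrL.n)))))))) (by decide +kernel)
theorem bx4_9 : BoxOK sI cl9 cl4 cl7 t1 t3 b4_9 :=
  box_mk (TrL.c (I.pos (nat_lit 0) (nat_lit 0)) (xb T1.l4 T1.l4)
  (TrL.c (I.pos (nat_lit 0) (nat_lit 0)) T3.l1
  (TrL.c (I.pos (nat_lit 0) (nat_lit 124588530)) (xR T1.l1 T1.l1)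
  (TrL.c (I.pos (nat_lit 0) (nat_lit 96881482)) T3.l4
  (TrL.c (I.pos (nat_lit 0) (nat_lit 0)) T3.l5
  (TrL.c (I.pos (nat_lit 0) (nat_lit 0)) T1.l2
  (TrL.c (I.mix (nat_lit 17240550) (nat_lit 96881482)) T3.l4
  (TrL.c (I.mix (nat_lit 17240550) (nat_lit 71940500)) T1.l3
  TrL.n)))))))) (by decide +kernel)
theorem sv4 : StarV sI cl9 cl4 cl7 t1 t3 t4 :=
  (bt_n (bt_n (bt_n (bt_b bx4_0) (bt_b bx4_1)) (bt_n (bt_b bx4_2) (bt_n (bt_b bx4_3) (bt_b bx4_4)))) (bt_n (bt_n (bt_b bx4_5) (bt_b bx4_6)) (bt_n (bt_b bx4_7) (bt_n (bt_b bx4_8) (bt_b bx4_9)))))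
def S4 : StarD := StarD.mk cl9 cl4 cl7 1 3 t4
theorem bx5_0 : BoxOK sI cl9 cl7 cl4 t3 t1 b5_0 :=
  box_mk (TrL.c (I.pos (nat_lit 0) (nat_lit 0)) (xa (xb (xa (xb T3.l0 (xc T3.l0 T3.l0)) (xb T3.l0 T3.l0)) (xa (xb (xc T3.l0 T3.l0) (xa (xc T3.l0 T3.l0) (xc T3.l0 T3.l0))) (xb T3.l0 (xa T3.l0 T3.l0)))) (xb (xa (xb T3.l0 T3.l0) T3.l0) (xa (xb T3.l0 (xc T3.l0 T3.l0)) (xb T3.l0 (xc T3.l0 T3.l0)))))
  (TrL.c (I.pos (nat_lit 0) (nat_lit 0)) (xa (xk T1.l8 T1.l8) (xk T1.l8 T1.l8))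
  (TrL.c (I.pos (nat_lit 0) (nat_lit 124588530)) (xR T3.l4 (xR T3.l4 (xR T3.l4 T3.l4)))
  (TrL.c (I.pos (nat_lit 0) (nat_lit 96881482)) (xR T1.l9 (xR T1.l9 (xR T1.l9 T1.l9)))
  (TrL.c (I.pos (nat_lit 0) (nat_lit 0)) (xa (xk T1.l13 T1.l13) (xk (xb T1.l10 T1.l10) (xb T1.l10 T1.l10)))
  (TrL.c (I.pos (nat_lit 0) (nat_lit 0)) T3.l10
  (TrL.c (I.mix (nat_lit 17240550) (nat_lit 96881482)) (xR T1.l11 (xR T1.l11 (xR T1.l11 T1.l11)))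
  (TrL.c (I.mix (nat_lit 17240550) (nat_lit 71940500)) (xR T3.l11 T3.l11)
  TrL.n)))))))) (by decide +kernel)
theorem bx5_1 : BoxOK sI cl9 cl7 cl4 t3 t1 b5_1 :=
  box_mk (TrL.c (I.pos (nat_lit 0) (nat_lit 0)) (xa (xb (xa T3.l12 T3.l12) (xa T3.l12 T3.l12)) (xb (xa T3.l12 T3.l12) (xa T3.l12 T3.l12)))
  (TrL.c (I.pos (nat_lit 0) (nat_lit 0)) (xa T1.l8 T1.l8)
  (TrL.c (I.pos (nat_lit 0) (nat_lit 124588530)) (xR T3.l4 (xR T3.l4 (xR T3.l9 T3.l9)))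
  (TrL.c (I.pos (nat_lit 0) (nat_lit 96881482)) (xR T1.l9 T1.l9)
  (TrL.c (I.pos (nat_lit 0) (nat_lit 0)) (xa (xb (xk T1.l12 T1.l12) T1.l12) (xk (xb T1.l12 T1.l12) (xb T1.l12 T1.l12)))
  (TrL.c (I.pos (nat_lit 0) (nat_lit 0)) T3.l10
  (TrL.c (I.mix (nat_lit 17240550) (nat_lit 96881482)) (xR T1.l11 (xR T1.l11 T1.l11))
  (TrL.c (I.mix (nat_lit 17240550) (nat_lit 71940500)) (xR T3.l11 T3.l2)
  TrL.n)))))))) (by decide +kernel)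
theorem bx5_2 : BoxOK sI cl9 cl7 cl4 t3 t1 b5_2 :=
  box_mk (TrL.c (I.pos (nat_lit 0) (nat_lit 0)) (xa T3.l12 T3.l12)
  (TrL.c (I.pos (nat_lit 0) (nat_lit 0)) (xa T1.l8 T1.l8)
  (TrL.c (I.pos (nat_lit 0) (nat_lit 124588530)) (xR T3.l4 (xR T3.l4 T3.l9))
  (TrL.c (I.pos (nat_lit 0) (nat_lit 96881482)) (xR T1.l9 T1.l9)
  (TrL.c (I.pos (nat_lit 0) (nat_lit 0)) (xa T1.l12 T1.l12)
  (TrL.c (I.pos (nat_lit 0) (nat_lit 0)) T3.l10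
  (TrL.c (I.mix (nat_lit 17240550) (nat_lit 96881482)) (xR T1.l11 (xR T1.l11 T1.l11))
  (TrL.c (I.mix (nat_lit 17240550) (nat_lit 71940500)) T3.l4
  TrL.n)))))))) (by decide +kernel)
theorem bx5_3 : BoxOK sI cl9 cl7 cl4 t3 t1 b5_3 :=
  box_mk (TrL.c (I.pos (nat_lit 0) (nat_lit 0)) (xb (xa (xb T3.l13 (xa T3.l13 T3.l13)) (xb T3.l13 T3.l13)) (xa (xb (xa T3.l13 T3.l13) (xa (xb T3.l13 T3.l13) T3.l13)) (xb (xa T3.l13 T3.l13) (xa T3.l13 T3.l13))))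
  (TrL.c (I.pos (nat_lit 0) (nat_lit 0)) (xb (xk T1.l8 T1.l8) (xk T1.l8 T1.l8))
  (TrL.c (I.pos (nat_lit 0) (nat_lit 124588530)) (xR T3.l4 (xR T3.l4 (xR T3.l4 T3.l4)))
  (TrL.c (I.pos (nat_lit 0) (nat_lit 96881482)) (xR T1.l9 (xR T1.l9 (xR T1.l9 T1.l9)))
  (TrL.c (I.pos (nat_lit 0) (nat_lit 0)) (xb (xk T1.l13 T1.l13) (xk T1.l13 T1.l13))
  (TrL.c (I.pos (nat_lit 0) (nat_lit 0)) T3.l10
  (TrL.c (I.mix (nat_lit 17240550) (nat_lit 96881482)) (xR T1.l11 (xR T1.l11 (xR T1.l11 T1.l11)))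
  (TrL.c (I.mix (nat_lit 17240550) (nat_lit 71940500)) (xR T3.l11 (xR T3.l11 T3.l2))
  TrL.n)))))))) (by decide +kernel)
theorem bx5_4 : BoxOK sI cl9 cl7 cl4 t3 t1 b5_4 :=
  box_mk (TrL.c (I.pos (nat_lit 0) (nat_lit 0)) (xa (xa (xb (xa (xb T3.l12 T3.l12) T3.l12) (xa (xb T3.l12 (xa T3.l12 T3.l12)) (xb T3.l12 T3.l12))) (xb T3.l12 (xa T3.l12 T3.l12))) (xa (xb T3.l12 (xa T3.l12 T3.l12)) (xb T3.l12 (xa T3.l12 (xb T3.l12 T3.l12)))))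
  (TrL.c (I.pos (nat_lit 0) (nat_lit 0)) (xa (xa T1.l12 T1.l8) (xa T1.l8 T1.l8))
  (TrL.c (I.pos (nat_lit 0) (nat_lit 124588530)) (xR T3.l4 (xR T3.l4 (xa (xR T3.l9 T3.l9) T3.l9)))
  (TrL.c (I.pos (nat_lit 0) (nat_lit 96881482)) (xR T1.l9 (xR T1.l9 T1.l9))
  (TrL.c (I.pos (nat_lit 0) (nat_lit 0)) (xa (xa T1.l12 T1.l12) (xa T1.l12 T1.l12))
  (TrL.c (I.pos (nat_lit 0) (nat_lit 0)) T3.l10
  (TrL.c (I.mix (nat_lit 17240550) (nat_lit 96881482)) (xR T1.l11 (xR T1.l11 (xR T1.l11 T1.l11)))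
  (TrL.c (I.mix (nat_lit 17240550) (nat_lit 71940500)) (xR T3.l11 T3.l4)
  TrL.n)))))))) (by decide +kernel)
theorem bx5_5 : BoxOK sI cl9 cl7 cl4 t3 t1 b5_5 :=
  box_mk (TrL.c (I.pos (nat_lit 0) (nat_lit 0)) (xa T3.l12 T3.l12)
  (TrL.c (I.pos (nat_lit 0) (nat_lit 0)) T1.l8
  (TrL.c (I.pos (nat_lit 0) (nat_lit 124588530)) (xR T3.l4 (xR T3.l4 T3.l9))
  (TrL.c (I.pos (nat_lit 0) (nat_lit 96881482)) (xR T1.l9 T1.l9)
  (TrL.c (I.pos (nat_lit 0) (nat_lit 0)) (xk T1.l12 T1.l12)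
  (TrL.c (I.pos (nat_lit 0) (nat_lit 0)) T3.l10
  (TrL.c (I.mix (nat_lit 17240550) (nat_lit 96881482)) (xR T1.l11 T1.l11)
  (TrL.c (I.mix (nat_lit 17240550) (nat_lit 71940500)) (xR T3.l11 T3.l11)
  TrL.n)))))))) (by decide +kernel)
theorem bx5_6 : BoxOK sI cl9 cl7 cl4 t3 t1 b5_6 :=
  box_mk (TrL.c (I.pos (nat_lit 0) (nat_lit 0)) (xa T3.l12 T3.l12)
  (TrL.c (I.pos (nat_lit 0) (nat_lit 0)) (xa T1.l12 T1.l8)
  (TrL.c (I.pos (nat_lit 0) (nat_lit 124588530)) (xR T3.l4 (xR T3.l4 T3.l9))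
  (TrL.c (I.pos (nat_lit 0) (nat_lit 96881482)) (xR T1.l9 (xR T1.l9 T1.l9))
  (TrL.c (I.pos (nat_lit 0) (nat_lit 0)) (xa T1.l12 T1.l12)
  (TrL.c (I.pos (nat_lit 0) (nat_lit 0)) T3.l10
  (TrL.c (I.mix (nat_lit 17240550) (nat_lit 96881482)) (xR T1.l11 (xR T1.l11 (xR T1.l11 T1.l11)))
  (TrL.c (I.mix (nat_lit 17240550) (nat_lit 71940500)) T3.l4
  TrL.n)))))))) (by decide +kernel)
theorem bx5_7 : BoxOK sI cl9 cl7 cl4 t3 t1 b5_7 :=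
  box_mk (TrL.c (I.pos (nat_lit 0) (nat_lit 0)) (xa T3.l13 T3.l13)
  (TrL.c (I.pos (nat_lit 0) (nat_lit 0)) T1.l8
  (TrL.c (I.pos (nat_lit 0) (nat_lit 124588530)) (xR T3.l4 (xR T3.l4 T3.l9))
  (TrL.c (I.pos (nat_lit 0) (nat_lit 96881482)) (xR T1.l9 T1.l9)
  (TrL.c (I.pos (nat_lit 0) (nat_lit 0)) (xk T1.l13 T1.l13)
  (TrL.c (I.pos (nat_lit 0) (nat_lit 0)) T3.l10
  (TrL.c (I.mix (nat_lit 17240550) (nat_lit 96881482)) (xR T1.l11 T1.l11)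
  (TrL.c (I.mix (nat_lit 17240550) (nat_lit 71940500)) (xR T3.l11 T3.l11)
  TrL.n)))))))) (by decide +kernel)
theorem bx5_8 : BoxOK sI cl9 cl7 cl4 t3 t1 b5_8 :=
  box_mk (TrL.c (I.pos (nat_lit 0) (nat_lit 0)) (xb (xa (xb (xa T3.l13 T3.l13) T3.l13) (xb (xa T3.l0 T3.l0) T3.l13)) (xa (xb T3.l13 T3.l13) (xb T3.l13 T3.l13)))
  (TrL.c (I.pos (nat_lit 0) (nat_lit 0)) (xb T1.l8 T1.l8)
  (TrL.c (I.pos (nat_lit 0) (nat_lit 124588530)) (xR T3.l4 (xR T3.l4 T3.l4))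
  (TrL.c (I.pos (nat_lit 0) (nat_lit 96881482)) (xR T1.l9 (xR T1.l9 T1.l9))
  (TrL.c (I.pos (nat_lit 0) (nat_lit 0)) (xk (xb (xa T1.l13 T1.l13) T1.l13) (xb (xa T1.l13 T1.l13) T1.l13))
  (TrL.c (I.pos (nat_lit 0) (nat_lit 0)) T3.l10
  (TrL.c (I.mix (nat_lit 17240550) (nat_lit 96881482)) (xR T1.l11 (xR T1.l11 (xR T1.l11 T1.l11)))
  (TrL.c (I.mix (nat_lit 17240550) (nat_lit 71940500)) (xR T3.l11 T3.l2)
  TrL.n)))))))) (by decide +kernel)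
theorem bx5_9 : BoxOK sI cl9 cl7 cl4 t3 t1 b5_9 :=
  box_mk (TrL.c (I.pos (nat_lit 0) (nat_lit 0)) (xa (xa T3.l12 T3.l12) (xa T3.l12 (xb T3.l12 (xa T3.l12 T3.l12))))
  (TrL.c (I.pos (nat_lit 0) (nat_lit 0)) (xa T1.l8 T1.l8)
  (TrL.c (I.pos (nat_lit 0) (nat_lit 124588530)) (xR T3.l4 (xR T3.l4 T3.l9))
  (TrL.c (I.pos (nat_lit 0) (nat_lit 96881482)) T1.l9
  (TrL.c (I.pos (nat_lit 0) (nat_lit 0)) (xa T1.l12 T1.l12)
  (TrL.c (I.pos (nat_lit 0) (nat_lit 0)) T3.l10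
  (TrL.c (I.mix (nat_lit 17240550) (nat_lit 96881482)) (xR T1.l11 T1.l11)
  (TrL.c (I.mix (nat_lit 17240550) (nat_lit 71940500)) T3.l4
  TrL.n)))))))) (by decide +kernel)
theorem bx5_10 : BoxOK sI cl9 cl7 cl4 t3 t1 b5_10 :=
  box_mk (TrL.c (I.pos (nat_lit 0) (nat_lit 0)) (xb (xa T3.l12 (xb T3.l12 T3.l12)) (xa T3.l12 T3.l12))
  (TrL.c (I.pos (nat_lit 0) (nat_lit 0)) (xb T1.l8 T1.l8)
  (TrL.c (I.pos (nat_lit 0) (nat_lit 124588530)) (xR T3.l4 (xR T3.l4 (xR T3.l9 T3.l9)))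
  (TrL.c (I.pos (nat_lit 0) (nat_lit 96881482)) (xR T1.l9 T1.l9)
  (TrL.c (I.pos (nat_lit 0) (nat_lit 0)) (xb (xa (xk T1.l12 T1.l12) (xk T1.l12 T1.l12)) (xk T1.l12 T1.l12))
  (TrL.c (I.pos (nat_lit 0) (nat_lit 0)) T3.l10
  (TrL.c (I.mix (nat_lit 17240550) (nat_lit 96881482)) (xR T1.l11 T1.l11)
  (TrL.c (I.mix (nat_lit 17240550) (nat_lit 71940500)) T3.l4
  TrL.n)))))))) (by decide +kernel)
theorem bx5_11 : BoxOK sI cl9 cl7 cl4 t3 t1 b5_11 :=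
  box_mk (TrL.c (I.pos (nat_lit 0) (nat_lit 0)) (xa (xa (xb (xa T3.l12 T3.l12) T3.l12) T3.l12) T3.l12)
  (TrL.c (I.pos (nat_lit 0) (nat_lit 0)) (xa T1.l12 T1.l8)
  (TrL.c (I.pos (nat_lit 0) (nat_lit 124588530)) (xR T3.l4 (xR T3.l4 (xa T3.l9 T3.l9)))
  (TrL.c (I.pos (nat_lit 0) (nat_lit 96881482)) (xR T1.l9 (xR T1.l9 T1.l9))
  (TrL.c (I.pos (nat_lit 0) (nat_lit 0)) (xa (xa T1.l12 T1.l12) T1.l12)
  (TrL.c (I.pos (nat_lit 0) (nat_lit 0)) T3.l10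
  (TrL.c (I.mix (nat_lit 17240550) (nat_lit 96881482)) (xR T1.l11 (xR T1.l11 (xa T1.l11 T1.l11)))
  (TrL.c (I.mix (nat_lit 17240550) (nat_lit 71940500)) T3.l4
  TrL.n)))))))) (by decide +kernel)
theorem bx5_12 : BoxOK sI cl9 cl7 cl4 t3 t1 b5_12 :=
  box_mk (TrL.c (I.pos (nat_lit 0) (nat_lit 0)) (xa (xa (xb (xb T3.l0 T3.l0) (xa (xb T3.l0 T3.l0) (xb T3.l0 T3.l0))) (xb (xb T3.l0 T3.l0) (xa (xb T3.l0 T3.l0) (xb T3.l0 T3.l0)))) (xa (xb (xa T3.l0 T3.l0) (xa (xb T3.l0 T3.l0) (xb T3.l0 T3.l0))) (xb (xa T3.l0 (xb T3.l0 T3.l0)) (xa (xb T3.l0 T3.l0) (xb T3.l0 (xc T3.l0 T3.l0))))))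
  (TrL.c (I.pos (nat_lit 0) (nat_lit 0)) (xa (xk (xb T1.l8 T1.l8) T1.l8) (xk (xb T1.l8 T1.l8) (xb T1.l8 T1.l2)))
  (TrL.c (I.pos (nat_lit 0) (nat_lit 124588530)) (xR (xR T3.l4 T3.l4) (xR T3.l4 T3.l4))
  (TrL.c (I.pos (nat_lit 0) (nat_lit 96881482)) (xR T1.l9 (xR T1.l9 (xR T1.l9 T1.l9)))
  (TrL.c (I.pos (nat_lit 0) (nat_lit 0)) (xa (xk (xb (xa T1.l10 T1.l10) T1.l10) (xb (xa T1.l10 T1.l10) T1.l10)) (xb (xk (xa (xb T1.l10 T1.l10) (xk (xb T1.l10 T1.l10) (xb T1.l10 T1.l10))) (xa (xb T1.l10 T1.l10) (xb (xk T1.l10 T1.l10) (xk T1.l10 T1.l10)))) (xk (xa T1.l10 (xk (xb T1.l10 T1.l10) (xb T1.l10 T1.l10))) (xa T1.l10 (xb (xk T1.l10 T1.l10) (xk T1.l10 T1.l10))))))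
  (TrL.c (I.pos (nat_lit 0) (nat_lit 0)) (xk (xa T3.l10 T3.l10) (xa T3.l10 T3.l10))
  (TrL.c (I.mix (nat_lit 17240550) (nat_lit 96881482)) (xR T1.l11 (xR T1.l11 (xR T1.l11 (xk (xR T1.l11 T1.l11) T1.l11))))
  (TrL.c (I.mix (nat_lit 17240550) (nat_lit 71940500)) (xR T3.l11 (xR T3.l11 (xR T3.l11 T3.l11)))
  TrL.n)))))))) (by decide +kernel)
theorem bx5_13 : BoxOK sI cl9 cl7 cl4 t3 t1 b5_13 :=
  box_mk (TrL.c (I.pos (nat_lit 0) (nat_lit 0)) (xa (xb (xa T3.l0 T3.l0) (xa (xb T3.l0 T3.l0) (xb T3.l0 T3.l0))) (xb (xa T3.l0 T3.l0) (xa (xb T3.l0 T3.l0) (xb T3.l0 T3.l0))))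
  (TrL.c (I.pos (nat_lit 0) (nat_lit 0)) (xk T1.l8 T1.l8)
  (TrL.c (I.pos (nat_lit 0) (nat_lit 124588530)) (xR T3.l4 (xR T3.l4 (xR T3.l4 T3.l4)))
  (TrL.c (I.pos (nat_lit 0) (nat_lit 96881482)) (xR T1.l9 (xR T1.l9 (xR T1.l9 T1.l9)))
  (TrL.c (I.pos (nat_lit 0) (nat_lit 0)) (xk (xa T1.l10 T1.l10) (xa T1.l10 T1.l10))
  (TrL.c (I.pos (nat_lit 0) (nat_lit 0)) T3.l10
  (TrL.c (I.mix (nat_lit 17240550) (nat_lit 96881482)) (xR T1.l11 (xR T1.l11 (xR T1.l11 T1.l11)))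
  (TrL.c (I.mix (nat_lit 17240550) (nat_lit 71940500)) (xR T3.l11 T3.l2)
  TrL.n)))))))) (by decide +kernel)
theorem sv5 : StarV sI cl9 cl7 cl4 t3 t1 t5 :=
  (bt_n (bt_n (bt_n (bt_b bx5_0) (bt_n (bt_b bx5_1) (bt_b bx5_2))) (bt_n (bt_n (bt_b bx5_3) (bt_b bx5_4)) (bt_n (bt_b bx5_5) (bt_b bx5_6)))) (bt_n (bt_n (bt_b bx5_7) (bt_n (bt_b bx5_8) (bt_b bx5_9))) (bt_n (bt_n (bt_b bx5_10) (bt_b bx5_11)) (bt_n (bt_b bx5_12) (bt_b bx5_13)))))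
def S5 : StarD := StarD.mk cl9 cl7 cl4 3 1 t5
def G : List StarD := [S0, S1, S2, S3, S4, S5]
theorem so0 : StarOK sI G S0 :=
  star_mk (by decide) (by decide) rfl rfl rfl rfl rfl rfl (rfl : _ = t2) (rfl : _ = t4)
  (st_mk (Pth.l (Pth.l (Pth.l Pth.z))) (nat_lit 145955857) (nat_lit 169595185) (by decide +kernel))
  (st_mk (Pth.l (Pth.l (Pth.l Pth.z))) (nat_lit 184327474) (nat_lit 208680436) (by decide +kernel))
  (st_mk (Pth.l (Pth.l (Pth.l Pth.z))) (nat_lit 229730878) (nat_lit 255054427) (by decide +kernel)) sv0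
theorem so1 : StarOK sI G S1 :=
  star_mk (by decide) (by decide) rfl rfl rfl rfl rfl rfl (rfl : _ = t4) (rfl : _ = t2)
  (st_mk (Pth.l (Pth.l (Pth.l Pth.z))) (nat_lit 119418251) (nat_lit 139095598) (by decide +kernel))
  (st_mk (Pth.l (Pth.l (Pth.l Pth.z))) (nat_lit 155611292) (nat_lit 179749226) (by decide +kernel))
  (st_mk (Pth.l (Pth.l (Pth.l Pth.z))) (nat_lit 200768561) (nat_lit 225868828) (by decide +kernel)) sv1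
theorem so2 : StarOK sI G S2 :=
  star_mk (by decide) (by decide) rfl rfl rfl rfl rfl rfl (rfl : _ = t0) (rfl : _ = t5)
  (st_mk (Pth.l (Pth.l (Pth.l Pth.z))) (nat_lit 370647437) (nat_lit 375225636) (by decide +kernel))
  (st_mk (Pth.l (Pth.l (Pth.l Pth.z))) (nat_lit 406849347) (nat_lit 412050940) (by decide +kernel))
  (st_mk (Pth.l (Pth.l (Pth.l Pth.z))) (nat_lit 448778057) (nat_lit 454780810) (by decide +kernel)) sv2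
theorem so3 : StarOK sI G S3 :=
  star_mk (by decide) (by decide) rfl rfl rfl rfl rfl rfl (rfl : _ = t5) (rfl : _ = t0)
  (st_mk (Pth.l (Pth.l (Pth.l Pth.z))) (nat_lit 116303603) (nat_lit 135220865) (by decide +kernel))
  (st_mk (Pth.l (Pth.l (Pth.l Pth.z))) (nat_lit 152054387) (nat_lit 171457684) (by decide +kernel))
  (st_mk (Pth.l (Pth.l (Pth.l Pth.z))) (nat_lit 191717367) (nat_lit 215565587) (by decide +kernel)) sv3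
theorem so4 : StarOK sI G S4 :=
  star_mk (by decide) (by decide) rfl rfl rfl rfl rfl rfl (rfl : _ = t1) (rfl : _ = t3)
  (st_mk (Pth.l (Pth.l (Pth.l Pth.z))) (nat_lit 367171245) (nat_lit 371663005) (by decide +kernel))
  (st_mk (Pth.l (Pth.l (Pth.l Pth.z))) (nat_lit 402655991) (nat_lit 407739414) (by decide +kernel))
  (st_mk (Pth.l (Pth.l (Pth.l Pth.z))) (nat_lit 443668471) (nat_lit 449507369) (by decide +kernel)) sv4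
theorem so5 : StarOK sI G S5 :=
  star_mk (by decide) (by decide) rfl rfl rfl rfl rfl rfl (rfl : _ = t3) (rfl : _ = t1)
  (st_mk (Pth.l (Pth.l (Pth.l Pth.z))) (nat_lit 140756371) (nat_lit 163378182) (by decide +kernel))
  (st_mk (Pth.l (Pth.l (Pth.l Pth.z))) (nat_lit 176074220) (nat_lit 199160339) (by decide +kernel))
  (st_mk (Pth.l (Pth.l (Pth.l Pth.z))) (nat_lit 216942234) (nat_lit 240675438) (by decide +kernel)) sv5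
theorem ok : GroupOK (nat_lit 209321984) (nat_lit 238944256) G := grp_mk (allS_c so0 (allS_c so1 (allS_c so2 (allS_c so3 (allS_c so4 (allS_c so5 allS_n))))))
theorem cov : GCov G cl4 cl7 cl9 := cov_mk
  ⟨0, by decide, rfl, rfl, rfl⟩ ⟨1, by decide, rfl, rfl, rfl⟩ ⟨2, by decide, rfl, rfl, rfl⟩ ⟨3, by decide, rfl, rfl, rfl⟩ ⟨4, by decide, rfl, rfl, rfl⟩ ⟨5, by decide, rfl, rfl, rfl⟩
end Q145_3


end Pool.Agent.Helper6.MONO
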