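import Pool.Agent.Helper6.MONO.Cert.C20

/-!
Certificate data (generated).
-/

set_option autoImplicit false
set_option linter.all false
noncomputable section
namespace Pool.Agent.Helper6.MONO


namespace Q145_4
def sI : I := I.pos (nat_lit 238878720) (nat_lit 268435456)
def b0_0 : Bx := Bx.mk (St.mk (I.pos (nat_lit 158482432) (nat_lit 234569728)) (I.mix (nat_lit 1949696) (nat_lit 63127552)) (I.mix (nat_lit 7520256) (nat_lit 66830336)) (I.pos (nat_lit 144228352) (nat_lit 289898496)) (I.mix (nat_lit 139476992) (nat_lit 103350272)) (I.mix (nat_lit 86065152) (nat_lit 87392256)) (I.mix (nat_lit 139542528) (nat_lit 140558336)))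
  false (nat_lit 24191634)
def b0_1 : Bx := Bx.mk (St.mk (I.mix (nat_lit 18677760) (nat_lit 115621888)) (I.mix (nat_lit 6684672) (nat_lit 32063488)) (I.mix (nat_lit 27148288) (nat_lit 4849664)) (I.pos (nat_lit 40976384) (nat_lit 112328704)) (I.mix (nat_lit 48283648) (nat_lit 61734912)) (I.mix (nat_lit 46022656) (nat_lit 38076416)) (I.mix (nat_lit 32587776) (nat_lit 23937024)))
  false (nat_lit 0)
def b0_2 : Bx := Bx.mk (St.mk (I.pos (nat_lit 85049344) (nat_lit 131629056)) (I.mix (nat_lit 47513600) (nat_lit 10436608)) (I.neg (nat_lit 9256960) (nat_lit 64897024)) (I.pos (nat_lit 72630272) (nat_lit 126222336)) (I.mix (nat_lit 119521280) (nat_lit 56918016)) (I.mix (nat_lit 50511872) (nat_lit 103071744)) (I.mix (nat_lit 33243136) (nat_lit 79249408)))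
  false (nat_lit 17353451)
def b0_3 : Bx := Bx.mk (St.mk (I.mix (nat_lit 34062336) (nat_lit 63815680)) (I.mix (nat_lit 29147136) (nat_lit 4161536)) (I.neg (nat_lit 3883008) (nat_lit 26968064)) (I.pos (nat_lit 41975808) (nat_lit 78495744)) (I.mix (nat_lit 55607296) (nat_lit 27361280)) (I.mix (nat_lit 24559616) (nat_lit 41746432)) (I.mix (nat_lit 10928128) (nat_lit 17940480)))
  false (nat_lit 1717217)
def b0_4 : Bx := Bx.mk (St.mk (I.pos (nat_lit 78282752) (nat_lit 112459776)) (I.mix (nat_lit 10420224) (nat_lit 14761984)) (I.neg (nat_lit 6127616) (nat_lit 30900224)) (I.pos (nat_lit 70828032) (nat_lit 111034368)) (I.mix (nat_lit 51200000) (nat_lit 37404672)) (I.mix (nat_lit 36208640) (nat_lit 33308672)) (I.mix (nat_lit 22528000) (nat_lit 25346048)))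
  false (nat_lit 0)
def b0_5 : Bx := Bx.mk (St.mk (I.mix (nat_lit 43008000) (nat_lit 50069504)) (I.mix (nat_lit 6291456) (nat_lit 9420800)) (I.neg (nat_lit 6750208) (nat_lit 16613376)) (I.pos (nat_lit 42500096) (nat_lit 71663616)) (I.mix (nat_lit 25559040) (nat_lit 22183936)) (I.mix (nat_lit 19628032) (nat_lit 18481152)) (I.mix (nat_lit 5242880) (nat_lit 6717440)))
  false (nat_lit 0)
def b0_6 : Bx := Bx.mk (St.mk (I.pos (nat_lit 208683008) (nat_lit 255164416)) (I.mix (nat_lit 14483456) (nat_lit 17399808)) (I.neg (nat_lit 22265856) (nat_lit 88834048)) (I.pos (nat_lit 229343232) (nat_lit 322453504)) (I.mix (nat_lit 108806144) (nat_lit 40189952)) (I.mix (nat_lit 60375040) (nat_lit 63291392)) (I.mix (nat_lit 86196224) (nat_lit 119799808)))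
  false (nat_lit 18303254)
def b0_7 : Bx := Bx.mk (St.mk (I.pos (nat_lit 188891136) (nat_lit 247349248)) (I.mix (nat_lit 14139392) (nat_lit 60375040)) (I.mix (nat_lit 80691200) (nat_lit 57753600)) (I.pos (nat_lit 215056384) (nat_lit 307036160)) (I.mix (nat_lit 124223488) (nat_lit 110723072)) (I.mix (nat_lit 105381888) (nat_lit 92438528)) (I.mix (nat_lit 179290112) (nat_lit 143818752)))
  false (nat_lit 39261049)
def b0_8 : Bx := Bx.mk (St.mk (I.pos (nat_lit 93634560) (nat_lit 170344448)) (I.neg (nat_lit 2260992) (nat_lit 48496640)) (I.neg (nat_lit 15040512) (nat_lit 62144512)) (I.pos (nat_lit 86622208) (nat_lit 173588480)) (I.mix (nat_lit 86753280) (nat_lit 50774016)) (I.mix (nat_lit 42352640) (nat_lit 67207168)) (I.mix (nat_lit 32079872) (nat_lit 63881216)))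
  false (nat_lit 6891832)
def b0_9 : Bx := Bx.mk (St.mk (I.mix (nat_lit 22167552) (nat_lit 83836928)) (I.mix (nat_lit 29442048) (nat_lit 5193728)) (I.neg (nat_lit 3915776) (nat_lit 27885568)) (I.pos (nat_lit 41107456) (nat_lit 89538560)) (I.mix (nat_lit 53477376) (nat_lit 32997376)) (I.mix (nat_lit 24756224) (nat_lit 37994496)) (I.mix (nat_lit 12763136) (nat_lit 21331968)))
  false (nat_lit 4020008)
def b0_10 : Bx := Bx.mk (St.mk (I.pos (nat_lit 164036608) (nat_lit 216924160)) (I.mix (nat_lit 8798208) (nat_lit 56524800)) (I.mix (nat_lit 18923520) (nat_lit 59604992)) (I.pos (nat_lit 162545664) (nat_lit 253116416)) (I.mix (nat_lit 142770176) (nat_lit 74186752)) (I.mix (nat_lit 125566976) (nat_lit 90210304)) (I.mix (nat_lit 124272640) (nat_lit 91176960)))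
  false (nat_lit 15802415)
def b0_11 : Bx := Bx.mk (St.mk (I.mix (nat_lit 37142528) (nat_lit 113000448)) (I.mix (nat_lit 11911168) (nat_lit 33193984)) (I.mix (nat_lit 20774912) (nat_lit 7290880)) (I.pos (nat_lit 40435712) (nat_lit 110460928)) (I.mix (nat_lit 50610176) (nat_lit 50790400)) (I.mix (nat_lit 47480832) (nat_lit 35094528)) (I.mix (nat_lit 25264128) (nat_lit 18169856)))
  false (nat_lit 11966414)
def b0_12 : Bx := Bx.mk (St.mk (I.pos (nat_lit 136511488) (nat_lit 210026496)) (I.mix (nat_lit 33325056) (nat_lit 15351808)) (I.mix (nat_lit 55558144) (nat_lit 2981888)) (I.pos (nat_lit 121274368) (nat_lit 227639296)) (I.mix (nat_lit 82051072) (nat_lit 84377600)) (I.mix (nat_lit 84410368) (nat_lit 78626816)) (I.mix (nat_lit 86261760) (nat_lit 72843264)))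
  false (nat_lit 44497574)
def b0_13 : Bx := Bx.mk (St.mk (I.pos (nat_lit 164364288) (nat_lit 211124224)) (I.mix (nat_lit 17940480) (nat_lit 27787264)) (I.mix (nat_lit 35078144) (nat_lit 23232512)) (I.pos (nat_lit 163217408) (nat_lit 231849984)) (I.mix (nat_lit 99336192) (nat_lit 100777984)) (I.mix (nat_lit 119570432) (nat_lit 92618752)) (I.mix (nat_lit 126140416) (nat_lit 89341952)))
  false (nat_lit 51275147)
def t0 : BTr := (BTr.n (BTr.n (BTr.n (BTr.b b0_0) (BTr.n (BTr.b b0_1) (BTr.b b0_2))) (BTr.n (BTr.n (BTr.b b0_3) (BTr.b b0_4)) (BTr.n (BTr.b b0_5) (BTr.b b0_6)))) (BTr.n (BTr.n (BTr.b b0_7) (BTr.n (BTr.b b0_8) (BTr.b b0_9))) (BTr.n (BTr.n (BTr.b b0_10) (BTr.b b0_11)) (BTr.n (BTr.b b0_12) (BTr.b b0_13)))))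
namespace T0
def l0 : Tr := Tr.L (Pth.l (Pth.l (Pth.l Pth.z)))
def l1 : Tr := Tr.L (Pth.l (Pth.l (Pth.r (Pth.l Pth.z))))
def l2 : Tr := Tr.L (Pth.l (Pth.l (Pth.r (Pth.r Pth.z))))
def l3 : Tr := Tr.L (Pth.l (Pth.r (Pth.l (Pth.l Pth.z))))
def l4 : Tr := Tr.L (Pth.l (Pth.r (Pth.l (Pth.r Pth.z))))
def l5 : Tr := Tr.L (Pth.l (Pth.r (Pth.r (Pth.l Pth.z))))
def l6 : Tr := Tr.L (Pth.l (Pth.r (Pth.r (Pth.r Pth.z))))
def l7 : Tr := Tr.L (Pth.r (Pth.l (Pth.l Pth.z)))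
def l8 : Tr := Tr.L (Pth.r (Pth.l (Pth.r (Pth.l Pth.z))))
def l9 : Tr := Tr.L (Pth.r (Pth.l (Pth.r (Pth.r Pth.z))))
def l10 : Tr := Tr.L (Pth.r (Pth.r (Pth.l (Pth.l Pth.z))))
def l11 : Tr := Tr.L (Pth.r (Pth.r (Pth.l (Pth.r Pth.z))))
def l12 : Tr := Tr.L (Pth.r (Pth.r (Pth.r (Pth.l Pth.z))))
def l13 : Tr := Tr.L (Pth.r (Pth.r (Pth.r (Pth.r Pth.z))))
end T0
def b1_0 : Bx := Bx.mk (St.mk (I.pos (nat_lit 158449664) (nat_lit 235143168)) (I.mix (nat_lit 1769472) (nat_lit 55885824)) (I.mix (nat_lit 2097152) (nat_lit 68714496)) (I.pos (nat_lit 115703808) (nat_lit 259440640)) (I.mix (nat_lit 129499136) (nat_lit 92930048)) (I.mix (nat_lit 81313792) (nat_lit 80789504)) (I.mix (nat_lit 129826816) (nat_lit 125321216)))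
  false (nat_lit 37433479)
def b1_1 : Bx := Bx.mk (St.mk (I.mix (nat_lit 10797056) (nat_lit 126435328)) (I.mix (nat_lit 6258688) (nat_lit 27115520)) (I.mix (nat_lit 20758528) (nat_lit 8830976)) (I.pos (nat_lit 15466496) (nat_lit 94896128)) (I.mix (nat_lit 47300608) (nat_lit 50249728)) (I.mix (nat_lit 38469632) (nat_lit 31916032)) (I.mix (nat_lit 30474240) (nat_lit 24772608)))
  false (nat_lit 0)
def b1_2 : Bx := Bx.mk (St.mk (I.pos (nat_lit 98861056) (nat_lit 142082048)) (I.mix (nat_lit 42237952) (nat_lit 9715712)) (I.neg (nat_lit 4308992) (nat_lit 57344000)) (I.pos (nat_lit 58785792) (nat_lit 110772224)) (I.mix (nat_lit 110051328) (nat_lit 58408960)) (I.mix (nat_lit 48267264) (nat_lit 97992704)) (I.mix (nat_lit 36192256) (nat_lit 81575936)))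
  false (nat_lit 27687321)
def b1_3 : Bx := Bx.mk (St.mk (I.mix (nat_lit 20905984) (nat_lit 86392832)) (I.mix (nat_lit 24641536) (nat_lit 3801088)) (I.neg (nat_lit 819200) (nat_lit 23592960)) (I.pos (nat_lit 16531456) (nat_lit 63029248)) (I.mix (nat_lit 49610752) (nat_lit 24559616)) (I.mix (nat_lit 21102592) (nat_lit 39862272)) (I.mix (nat_lit 10469376) (nat_lit 20987904)))
  false (nat_lit 0)
def b1_4 : Bx := Bx.mk (St.mk (I.pos (nat_lit 188530688) (nat_lit 247054336)) (I.mix (nat_lit 13418496) (nat_lit 54067200)) (I.mix (nat_lit 63340544) (nat_lit 63406080)) (I.pos (nat_lit 190578688) (nat_lit 277397504)) (I.mix (nat_lit 122503168) (nat_lit 102744064)) (I.mix (nat_lit 101957632) (nat_lit 88326144)) (I.mix (nat_lit 170459136) (nat_lit 140656640)))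
  false (nat_lit 60141789)
def b1_5 : Bx := Bx.mk (St.mk (I.pos (nat_lit 93011968) (nat_lit 125239296)) (I.mix (nat_lit 8978432) (nat_lit 13238272)) (I.neg (nat_lit 1392640) (nat_lit 23396352)) (I.pos (nat_lit 56016896) (nat_lit 95731712)) (I.mix (nat_lit 47448064) (nat_lit 30556160)) (I.mix (nat_lit 31309824) (nat_lit 29835264)) (I.mix (nat_lit 21446656) (nat_lit 24805376)))
  false (nat_lit 0)
def b1_6 : Bx := Bx.mk (St.mk (I.mix (nat_lit 27017216) (nat_lit 73121792)) (I.mix (nat_lit 3604480) (nat_lit 5472256)) (I.neg (nat_lit 1753088) (nat_lit 10010624)) (I.pos (nat_lit 17154048) (nat_lit 55263232)) (I.mix (nat_lit 15073280) (nat_lit 11501568)) (I.mix (nat_lit 10567680) (nat_lit 10125312)) (I.mix (nat_lit 1802240) (nat_lit 2179072)))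
  false (nat_lit 0)
def b1_7 : Bx := Bx.mk (St.mk (I.pos (nat_lit 211566592) (nat_lit 254279680)) (I.mix (nat_lit 14172160) (nat_lit 16629760)) (I.neg (nat_lit 9453568) (nat_lit 70320128)) (I.pos (nat_lit 209534976) (nat_lit 293994496)) (I.mix (nat_lit 110706688) (nat_lit 30916608)) (I.mix (nat_lit 58490880) (nat_lit 61964288)) (I.mix (nat_lit 88375296) (nat_lit 117047296)))
  false (nat_lit 0)
def b1_8 : Bx := Bx.mk (St.mk (I.pos (nat_lit 99237888) (nat_lit 179257344)) (I.neg (nat_lit 491520) (nat_lit 45498368)) (I.neg (nat_lit 11698176) (nat_lit 56492032)) (I.pos (nat_lit 70811648) (nat_lit 158908416)) (I.mix (nat_lit 82378752) (nat_lit 52215808)) (I.mix (nat_lit 44040192) (nat_lit 65552384)) (I.mix (nat_lit 36618240) (nat_lit 65421312)))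
  false (nat_lit 26272953)
def b1_9 : Bx := Bx.mk (St.mk (I.mix (nat_lit 18071552) (nat_lit 104251392)) (I.mix (nat_lit 25198592) (nat_lit 4227072)) (I.neg (nat_lit 819200) (nat_lit 23511040)) (I.pos (nat_lit 15826944) (nat_lit 76201984)) (I.mix (nat_lit 43745280) (nat_lit 30457856)) (I.mix (nat_lit 20447232) (nat_lit 34160640)) (I.mix (nat_lit 10993664) (nat_lit 21544960)))
  false (nat_lit 0)
def b1_10 : Bx := Bx.mk (St.mk (I.pos (nat_lit 167903232) (nat_lit 214581248)) (I.mix (nat_lit 10928128) (nat_lit 47579136)) (I.mix (nat_lit 14532608) (nat_lit 59686912)) (I.pos (nat_lit 139149312) (nat_lit 220299264)) (I.mix (nat_lit 132923392) (nat_lit 65912832)) (I.mix (nat_lit 117702656) (nat_lit 75792384)) (I.mix (nat_lit 125730816) (nat_lit 82034688)))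
  false (nat_lit 0)
def b1_11 : Bx := Bx.mk (St.mk (I.mix (nat_lit 24313856) (nat_lit 125468672)) (I.mix (nat_lit 13565952) (nat_lit 28033024)) (I.mix (nat_lit 18841600) (nat_lit 12091392)) (I.pos (nat_lit 15204352) (nat_lit 94224384)) (I.mix (nat_lit 50872320) (nat_lit 45023232)) (I.mix (nat_lit 46284800) (nat_lit 33144832)) (I.mix (nat_lit 27295744) (nat_lit 19267584)))
  false (nat_lit 18594930)
def b1_12 : Bx := Bx.mk (St.mk (I.pos (nat_lit 141082624) (nat_lit 211075072)) (I.mix (nat_lit 32735232) (nat_lit 11370496)) (I.mix (nat_lit 49512448) (nat_lit 6389760)) (I.pos (nat_lit 102465536) (nat_lit 203505664)) (I.mix (nat_lit 80265216) (nat_lit 80642048)) (I.mix (nat_lit 83230720) (nat_lit 77135872)) (I.mix (nat_lit 89948160) (nat_lit 76775424)))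
  false (nat_lit 69418582)
def b1_13 : Bx := Bx.mk (St.mk (I.pos (nat_lit 167231488) (nat_lit 211124224)) (I.mix (nat_lit 20545536) (nat_lit 23576576)) (I.mix (nat_lit 30638080) (nat_lit 26411008)) (I.pos (nat_lit 137592832) (nat_lit 205127680)) (I.mix (nat_lit 113246208) (nat_lit 92078080)) (I.mix (nat_lit 116899840) (nat_lit 88096768)) (I.mix (nat_lit 128942080) (nat_lit 92078080)))
  false (nat_lit 9987000)
def t1 : BTr := (BTr.n (BTr.n (BTr.n (BTr.b b1_0) (BTr.n (BTr.b b1_1) (BTr.b b1_2))) (BTr.n (BTr.n (BTr.b b1_3) (BTr.b b1_4)) (BTr.n (BTr.b b1_5) (BTr.b b1_6)))) (BTr.n (BTr.n (BTr.b b1_7) (BTr.n (BTr.b b1_8) (BTr.b b1_9))) (BTr.n (BTr.n (BTr.b b1_10) (BTr.b b1_11)) (BTr.n (BTr.b b1_12) (BTr.b b1_13)))))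
namespace T1
def l0 : Tr := Tr.L (Pth.l (Pth.l (Pth.l Pth.z)))
def l1 : Tr := Tr.L (Pth.l (Pth.l (Pth.r (Pth.l Pth.z))))
def l2 : Tr := Tr.L (Pth.l (Pth.l (Pth.r (Pth.r Pth.z))))
def l3 : Tr := Tr.L (Pth.l (Pth.r (Pth.l (Pth.l Pth.z))))
def l4 : Tr := Tr.L (Pth.l (Pth.r (Pth.l (Pth.r Pth.z))))
def l5 : Tr := Tr.L (Pth.l (Pth.r (Pth.r (Pth.l Pth.z))))
def l6 : Tr := Tr.L (Pth.l (Pth.r (Pth.r (Pth.r Pth.z))))
def l7 : Tr := Tr.L (Pth.r (Pth.l (Pth.l Pth.z)))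
def l8 : Tr := Tr.L (Pth.r (Pth.l (Pth.r (Pth.l Pth.z))))
def l9 : Tr := Tr.L (Pth.r (Pth.l (Pth.r (Pth.r Pth.z))))
def l10 : Tr := Tr.L (Pth.r (Pth.r (Pth.l (Pth.l Pth.z))))
def l11 : Tr := Tr.L (Pth.r (Pth.r (Pth.l (Pth.r Pth.z))))
def l12 : Tr := Tr.L (Pth.r (Pth.r (Pth.r (Pth.l Pth.z))))
def l13 : Tr := Tr.L (Pth.r (Pth.r (Pth.r (Pth.r Pth.z))))
end T1
def b2_0 : Bx := Bx.mk (St.mk (I.pos (nat_lit 134807552) (nat_lit 217448448)) (I.mix (nat_lit 2834432) (nat_lit 93667328)) (I.mix (nat_lit 2916352) (nat_lit 94732288)) (I.pos (nat_lit 368328704) (nat_lit 467533824)) (I.mix (nat_lit 194723840) (nat_lit 126238720)) (I.mix (nat_lit 108838912) (nat_lit 112001024)) (I.mix (nat_lit 138248192) (nat_lit 148258816)))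
  false (nat_lit 139436041)
def b2_1 : Bx := Bx.mk (St.mk (I.mix (nat_lit 53526528) (nat_lit 17530880)) (I.mix (nat_lit 15548416) (nat_lit 85983232)) (I.neg (nat_lit 42057728) (nat_lit 73465856)) (I.pos (nat_lit 258785280) (nat_lit 293371904)) (I.mix (nat_lit 58179584) (nat_lit 144244736)) (I.mix (nat_lit 102793216) (nat_lit 80822272)) (I.mix (nat_lit 57278464) (nat_lit 43024384)))
  true (nat_lit 21055460)
def b2_2 : Bx := Bx.mk (St.mk (I.pos (nat_lit 5259264) (nat_lit 52936704)) (I.neg (nat_lit 30965760) (nat_lit 85983232)) (I.neg (nat_lit 43466752) (nat_lit 73465856)) (I.pos (nat_lit 263995392) (nat_lit 293208064)) (I.mix (nat_lit 144244736) (nat_lit 55050240)) (I.mix (nat_lit 80822272) (nat_lit 96878592)) (I.mix (nat_lit 57278464) (nat_lit 43024384)))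
  false (nat_lit 80838402)
def b2_3 : Bx := Bx.mk (St.mk (I.pos (nat_lit 13025280) (nat_lit 125255680)) (I.neg (nat_lit 7290880) (nat_lit 89145344)) (I.neg (nat_lit 1589248) (nat_lit 84066304)) (I.pos (nat_lit 263618560) (nat_lit 333856768)) (I.mix (nat_lit 148062208) (nat_lit 89718784)) (I.mix (nat_lit 91865088) (nat_lit 98566144)) (I.mix (nat_lit 97075200) (nat_lit 80740352)))
  false (nat_lit 127460449)
def b2_4 : Bx := Bx.mk (St.mk (I.pos (nat_lit 91308032) (nat_lit 183943168)) (I.mix (nat_lit 37617664) (nat_lit 82493440)) (I.mix (nat_lit 36683776) (nat_lit 93323264)) (I.pos (nat_lit 301039616) (nat_lit 426901504)) (I.mix (nat_lit 189530112) (nat_lit 102694912)) (I.mix (nat_lit 146702336) (nat_lit 120111104)) (I.mix (nat_lit 151994368) (nat_lit 153665536)))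
  false (nat_lit 86822526)
def b2_5 : Bx := Bx.mk (St.mk (I.neg (nat_lit 13008896) (nat_lit 125255680)) (I.pos (nat_lit 7290880) (nat_lit 89161728)) (I.neg (nat_lit 311296) (nat_lit 84066304)) (I.pos (nat_lit 263618560) (nat_lit 333856768)) (I.mix (nat_lit 89718784) (nat_lit 148078592)) (I.mix (nat_lit 98582528) (nat_lit 91865088)) (I.mix (nat_lit 97091584) (nat_lit 80756736)))
  true (nat_lit 96542577)
def b2_6 : Bx := Bx.mk (St.mk (I.pos (nat_lit 170082304) (nat_lit 292077568)) (I.mix (nat_lit 29687808) (nat_lit 60080128)) (I.mix (nat_lit 164560896) (nat_lit 26361856)) (I.pos (nat_lit 401604608) (nat_lit 581386240)) (I.mix (nat_lit 102973440) (nat_lit 112984064)) (I.mix (nat_lit 82821120) (nat_lit 78528512)) (I.mix (nat_lit 127582208) (nat_lit 118243328)))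
  false (nat_lit 132535895)
def b2_7 : Bx := Bx.mk (St.mk (I.mix (nat_lit 17530880) (nat_lit 45318144)) (I.mix (nat_lit 47955968) (nat_lit 15548416)) (I.neg (nat_lit 42352640) (nat_lit 59523072)) (I.pos (nat_lit 259112960) (nat_lit 278577152)) (I.mix (nat_lit 78462976) (nat_lit 49594368)) (I.mix (nat_lit 47890432) (nat_lit 52477952)) (I.mix (nat_lit 15302656) (nat_lit 19480576)))
  false (nat_lit 0)
def b2_8 : Bx := Bx.mk (St.mk (I.pos (nat_lit 150765568) (nat_lit 218251264)) (I.pos (nat_lit 21905408) (nat_lit 90832896)) (I.mix (nat_lit 19120128) (nat_lit 84836352)) (I.pos (nat_lit 393101312) (nat_lit 460472320)) (I.mix (nat_lit 150339584) (nat_lit 125452288)) (I.mix (nat_lit 113197056) (nat_lit 94765056)) (I.mix (nat_lit 168869888) (nat_lit 129302528)))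
  false (nat_lit 129364611)
def b2_9 : Bx := Bx.mk (St.mk (I.pos (nat_lit 6815744) (nat_lit 48316416)) (I.neg (nat_lit 22052864) (nat_lit 74416128)) (I.neg (nat_lit 43728896) (nat_lit 70500352)) (I.pos (nat_lit 264126464) (nat_lit 286343168)) (I.mix (nat_lit 134135808) (nat_lit 58179584)) (I.mix (nat_lit 59686912) (nat_lit 102793216)) (I.mix (nat_lit 39845888) (nat_lit 35700736)))
  false (nat_lit 43580356)
def t2 : BTr := (BTr.n (BTr.n (BTr.n (BTr.b b2_0) (BTr.b b2_1)) (BTr.n (BTr.b b2_2) (BTr.n (BTr.b b2_3) (BTr.b b2_4)))) (BTr.n (BTr.n (BTr.b b2_5) (BTr.b b2_6)) (BTr.n (BTr.b b2_7) (BTr.n (BTr.b b2_8) (BTr.b b2_9)))))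
namespace T2
def l0 : Tr := Tr.L (Pth.l (Pth.l (Pth.l Pth.z)))
def l1 : Tr := Tr.L (Pth.l (Pth.l (Pth.r Pth.z)))
def l2 : Tr := Tr.L (Pth.l (Pth.r (Pth.l Pth.z)))
def l3 : Tr := Tr.L (Pth.l (Pth.r (Pth.r (Pth.l Pth.z))))
def l4 : Tr := Tr.L (Pth.l (Pth.r (Pth.r (Pth.r Pth.z))))
def l5 : Tr := Tr.L (Pth.r (Pth.l (Pth.l Pth.z)))
def l6 : Tr := Tr.L (Pth.r (Pth.l (Pth.r Pth.z)))
def l7 : Tr := Tr.L (Pth.r (Pth.r (Pth.l Pth.z)))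
def l8 : Tr := Tr.L (Pth.r (Pth.r (Pth.r (Pth.l Pth.z))))
def l9 : Tr := Tr.L (Pth.r (Pth.r (Pth.r (Pth.r Pth.z))))
end T2
def b3_0 : Bx := Bx.mk (St.mk (I.pos (nat_lit 158679040) (nat_lit 226590720)) (I.mix (nat_lit 1441792) (nat_lit 42745856)) (I.mix (nat_lit 3063808) (nat_lit 100646912)) (I.pos (nat_lit 113442816) (nat_lit 216956928)) (I.mix (nat_lit 112525312) (nat_lit 63684608)) (I.mix (nat_lit 83525632) (nat_lit 69386240)) (I.mix (nat_lit 117063680) (nat_lit 87097344)))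
  false (nat_lit 13130685)
def b3_1 : Bx := Bx.mk (St.mk (I.pos (nat_lit 112558080) (nat_lit 177471488)) (I.neg (nat_lit 3489792) (nat_lit 55934976)) (I.mix (nat_lit 39944192) (nat_lit 20185088)) (I.pos (nat_lit 87818240) (nat_lit 145899520)) (I.mix (nat_lit 87244800) (nat_lit 72269824)) (I.mix (nat_lit 58179584) (nat_lit 67010560)) (I.mix (nat_lit 54509568) (nat_lit 67895296)))
  false (nat_lit 88318833)
def b3_2 : Bx := Bx.mk (St.mk (I.mix (nat_lit 10240000) (nat_lit 100352000)) (I.mix (nat_lit 27181056) (nat_lit 2539520)) (I.mix (nat_lit 8896512) (nat_lit 12042240)) (I.pos (nat_lit 16154624) (nat_lit 72679424)) (I.mix (nat_lit 35176448) (nat_lit 41517056)) (I.mix (nat_lit 25100288) (nat_lit 31506432)) (I.mix (nat_lit 12910592) (nat_lit 18939904)))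
  false (nat_lit 0)
def b3_3 : Bx := Bx.mk (St.mk (I.pos (nat_lit 156762112) (nat_lit 201424896)) (I.mix (nat_lit 15220736) (nat_lit 37257216)) (I.pos (nat_lit 15941632) (nat_lit 88653824)) (I.pos (nat_lit 114458624) (nat_lit 181878784)) (I.mix (nat_lit 135757824) (nat_lit 62586880)) (I.mix (nat_lit 123371520) (nat_lit 69632000)) (I.mix (nat_lit 135528448) (nat_lit 60260352)))
  false (nat_lit 40744337)
def b3_4 : Bx := Bx.mk (St.mk (I.mix (nat_lit 22642688) (nat_lit 117981184)) (I.mix (nat_lit 12894208) (nat_lit 26656768)) (I.mix (nat_lit 98304) (nat_lit 32342016)) (I.pos (nat_lit 15712256) (nat_lit 85508096)) (I.mix (nat_lit 72466432) (nat_lit 41533440)) (I.mix (nat_lit 60784640) (nat_lit 33767424)) (I.mix (nat_lit 39354368) (nat_lit 18759680)))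
  false (nat_lit 0)
def b3_5 : Bx := Bx.mk (St.mk (I.pos (nat_lit 156975104) (nat_lit 203702272)) (I.mix (nat_lit 41811968) (nat_lit 11960320)) (I.mix (nat_lit 16973824) (nat_lit 54509568)) (I.pos (nat_lit 115326976) (nat_lit 184582144)) (I.mix (nat_lit 118571008) (nat_lit 89538560)) (I.mix (nat_lit 117014528) (nat_lit 77938688)) (I.mix (nat_lit 117243904) (nat_lit 75137024)))
  false (nat_lit 79093260)
def b3_6 : Bx := Bx.mk (St.mk (I.mix (nat_lit 28295168) (nat_lit 103038976)) (I.mix (nat_lit 16564224) (nat_lit 4374528)) (I.mix (nat_lit 245760) (nat_lit 12206080)) (I.pos (nat_lit 16416768) (nat_lit 74498048)) (I.mix (nat_lit 33718272) (nat_lit 25018368)) (I.mix (nat_lit 21102592) (nat_lit 24150016)) (I.mix (nat_lit 13434880) (nat_lit 12468224)))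
  false (nat_lit 0)
def b3_7 : Bx := Bx.mk (St.mk (I.pos (nat_lit 138543104) (nat_lit 179142656)) (I.neg (nat_lit 1097728) (nat_lit 36847616)) (I.mix (nat_lit 10993664) (nat_lit 26755072)) (I.pos (nat_lit 101892096) (nat_lit 151928832)) (I.mix (nat_lit 79921152) (nat_lit 60833792)) (I.mix (nat_lit 43335680) (nat_lit 60440576)) (I.mix (nat_lit 48594944) (nat_lit 54673408)))
  false (nat_lit 35180541)
def b3_8 : Bx := Bx.mk (St.mk (I.pos (nat_lit 154714112) (nat_lit 190005248)) (I.neg (nat_lit 7192576) (nat_lit 36143104)) (I.mix (nat_lit 12206080) (nat_lit 23298048)) (I.pos (nat_lit 116555776) (nat_lit 168542208)) (I.mix (nat_lit 49135616) (nat_lit 43302912)) (I.mix (nat_lit 39600128) (nat_lit 31113216)) (I.mix (nat_lit 39845888) (nat_lit 31031296)))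
  false (nat_lit 0)
def b3_9 : Bx := Bx.mk (St.mk (I.pos (nat_lit 73252864) (nat_lit 132071424)) (I.mix (nat_lit 8273920) (nat_lit 19693568)) (I.pos (nat_lit 720896) (nat_lit 26574848)) (I.pos (nat_lit 39518208) (nat_lit 101089280)) (I.mix (nat_lit 43253760) (nat_lit 27164672)) (I.mix (nat_lit 28229632) (nat_lit 20021248)) (I.mix (nat_lit 22134784) (nat_lit 14041088)))
  false (nat_lit 0)
def b3_10 : Bx := Bx.mk (St.mk (I.pos (nat_lit 104955904) (nat_lit 154075136)) (I.mix (nat_lit 54460416) (nat_lit 10305536)) (I.mix (nat_lit 35373056) (nat_lit 21364736)) (I.pos (nat_lit 61767680) (nat_lit 123944960)) (I.mix (nat_lit 92602368) (nat_lit 60637184)) (I.mix (nat_lit 50413568) (nat_lit 75841536)) (I.mix (nat_lit 38420480) (nat_lit 55869440)))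
  false (nat_lit 44073689)
def b3_11 : Bx := Bx.mk (St.mk (I.mix (nat_lit 22855680) (nat_lit 93585408)) (I.mix (nat_lit 27344896) (nat_lit 4210688)) (I.mix (nat_lit 7831552) (nat_lit 8257536)) (I.pos (nat_lit 16252928) (nat_lit 68780032)) (I.mix (nat_lit 34865152) (nat_lit 23330816)) (I.mix (nat_lit 19841024) (nat_lit 28327936)) (I.mix (nat_lit 9224192) (nat_lit 13287424)))
  false (nat_lit 0)
def b3_12 : Bx := Bx.mk (St.mk (I.pos (nat_lit 185122816) (nat_lit 284606464)) (I.mix (nat_lit 25378816) (nat_lit 32702464)) (I.mix (nat_lit 17530880) (nat_lit 90931200)) (I.pos (nat_lit 167624704) (nat_lit 343736320)) (I.mix (nat_lit 102498304) (nat_lit 76677120)) (I.mix (nat_lit 81068032) (nat_lit 58195968)) (I.mix (nat_lit 136445952) (nat_lit 97533952)))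
  false (nat_lit 76822414)
def b3_13 : Bx := Bx.mk (St.mk (I.pos (nat_lit 179372032) (nat_lit 227508224)) (I.pos (nat_lit 5046272) (nat_lit 42008576)) (I.pos (nat_lit 32997376) (nat_lit 100401152)) (I.pos (nat_lit 159383552) (nat_lit 214876160)) (I.mix (nat_lit 117014528) (nat_lit 85573632)) (I.mix (nat_lit 92717056) (nat_lit 73007104)) (I.mix (nat_lit 138838016) (nat_lit 94896128)))
  false (nat_lit 36513528)
def t3 : BTr := (BTr.n (BTr.n (BTr.n (BTr.b b3_0) (BTr.n (BTr.b b3_1) (BTr.b b3_2))) (BTr.n (BTr.n (BTr.b b3_3) (BTr.b b3_4)) (BTr.n (BTr.b b3_5) (BTr.b b3_6)))) (BTr.n (BTr.n (BTr.b b3_7) (BTr.n (BTr.b b3_8) (BTr.b b3_9))) (BTr.n (BTr.n (BTr.b b3_10) (BTr.b b3_11)) (BTr.n (BTr.b b3_12) (BTr.b b3_13)))))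
namespace T3
def l0 : Tr := Tr.L (Pth.l (Pth.l (Pth.l Pth.z)))
def l1 : Tr := Tr.L (Pth.l (Pth.l (Pth.r (Pth.l Pth.z))))
def l2 : Tr := Tr.L (Pth.l (Pth.l (Pth.r (Pth.r Pth.z))))
def l3 : Tr := Tr.L (Pth.l (Pth.r (Pth.l (Pth.l Pth.z))))
def l4 : Tr := Tr.L (Pth.l (Pth.r (Pth.l (Pth.r Pth.z))))
def l5 : Tr := Tr.L (Pth.l (Pth.r (Pth.r (Pth.l Pth.z))))
def l6 : Tr := Tr.L (Pth.l (Pth.r (Pth.r (Pth.r Pth.z))))
def l7 : Tr := Tr.L (Pth.r (Pth.l (Pth.l Pth.z)))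
def l8 : Tr := Tr.L (Pth.r (Pth.l (Pth.r (Pth.l Pth.z))))
def l9 : Tr := Tr.L (Pth.r (Pth.l (Pth.r (Pth.r Pth.z))))
def l10 : Tr := Tr.L (Pth.r (Pth.r (Pth.l (Pth.l Pth.z))))
def l11 : Tr := Tr.L (Pth.r (Pth.r (Pth.l (Pth.r Pth.z))))
def l12 : Tr := Tr.L (Pth.r (Pth.r (Pth.r (Pth.l Pth.z))))
def l13 : Tr := Tr.L (Pth.r (Pth.r (Pth.r (Pth.r Pth.z))))
end T3
def b4_0 : Bx := Bx.mk (St.mk (I.pos (nat_lit 129400832) (nat_lit 217612288)) (I.mix (nat_lit 2719744) (nat_lit 89702400)) (I.mix (nat_lit 3293184) (nat_lit 107446272)) (I.pos (nat_lit 364838912) (nat_lit 456605696)) (I.mix (nat_lit 198017024) (nat_lit 117211136)) (I.mix (nat_lit 111083520) (nat_lit 104808448)) (I.mix (nat_lit 128778240) (nat_lit 138821632)))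
  false (nat_lit 156565976)
def b4_1 : Bx := Bx.mk (St.mk (I.pos (nat_lit 18808832) (nat_lit 125304832)) (I.neg (nat_lit 7962624) (nat_lit 92520448)) (I.mix (nat_lit 73269248) (nat_lit 13205504)) (I.pos (nat_lit 268107776) (nat_lit 333479936)) (I.mix (nat_lit 143818752) (nat_lit 102285312)) (I.mix (nat_lit 95027200) (nat_lit 93880320)) (I.mix (nat_lit 95649792) (nat_lit 78446592)))
  false (nat_lit 180187240)
def b4_2 : Bx := Bx.mk (St.mk (I.pos (nat_lit 87916544) (nat_lit 179863552)) (I.mix (nat_lit 38223872) (nat_lit 80330752)) (I.mix (nat_lit 22609920) (nat_lit 105791488)) (I.pos (nat_lit 298139648) (nat_lit 417775616)) (I.mix (nat_lit 190627840) (nat_lit 98467840)) (I.mix (nat_lit 144850944) (nat_lit 117997568)) (I.mix (nat_lit 150618112) (nat_lit 151814144)))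
  false (nat_lit 95112383)
def b4_3 : Bx := Bx.mk (St.mk (I.neg (nat_lit 18808832) (nat_lit 130285568)) (I.pos (nat_lit 4276224) (nat_lit 92520448)) (I.mix (nat_lit 73220096) (nat_lit 17383424)) (I.pos (nat_lit 268091392) (nat_lit 337641472)) (I.mix (nat_lit 102301696) (nat_lit 143818752)) (I.mix (nat_lit 93896704) (nat_lit 95043584)) (I.mix (nat_lit 95666176) (nat_lit 78446592)))
  true (nat_lit 75192637)
def b4_4 : Bx := Bx.mk (St.mk (I.mix (nat_lit 56410112) (nat_lit 14254080)) (I.mix (nat_lit 12713984) (nat_lit 87687168)) (I.neg (nat_lit 31424512) (nat_lit 61702144)) (I.pos (nat_lit 261079040) (nat_lit 295927808)) (I.mix (nat_lit 71647232) (nat_lit 136495104)) (I.mix (nat_lit 94650368) (nat_lit 84213760)) (I.mix (nat_lit 56508416) (nat_lit 37994496)))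
  true (nat_lit 16121366)
def b4_5 : Bx := Bx.mk (St.mk (I.pos (nat_lit 9945088) (nat_lit 55656448)) (I.neg (nat_lit 32686080) (nat_lit 87687168)) (I.neg (nat_lit 32964608) (nat_lit 61702144)) (I.pos (nat_lit 267517952) (nat_lit 295927808)) (I.mix (nat_lit 136495104) (nat_lit 71647232)) (I.mix (nat_lit 84213760) (nat_lit 94322688)) (I.mix (nat_lit 56508416) (nat_lit 37994496)))
  false (nat_lit 127508597)
def b4_6 : Bx := Bx.mk (St.mk (I.pos (nat_lit 173129728) (nat_lit 290930688)) (I.mix (nat_lit 23560192) (nat_lit 61603840)) (I.mix (nat_lit 125370368) (nat_lit 46465024)) (I.pos (nat_lit 402374656) (nat_lit 578158592)) (I.mix (nat_lit 107659264) (nat_lit 102252544)) (I.mix (nat_lit 77168640) (nat_lit 76906496)) (I.mix (nat_lit 123371520) (nat_lit 114917376)))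
  false (nat_lit 153492152)
def b4_7 : Bx := Bx.mk (St.mk (I.mix (nat_lit 14254080) (nat_lit 48742400)) (I.mix (nat_lit 51232768) (nat_lit 11747328)) (I.neg (nat_lit 31621120) (nat_lit 48070656)) (I.pos (nat_lit 261341184) (nat_lit 281837568)) (I.mix (nat_lit 75513856) (nat_lit 49545216)) (I.mix (nat_lit 48480256) (nat_lit 49741824)) (I.mix (nat_lit 15695872) (nat_lit 16973824)))
  false (nat_lit 0)
def b4_8 : Bx := Bx.mk (St.mk (I.pos (nat_lit 148094976) (nat_lit 208764928)) (I.pos (nat_lit 25264128) (nat_lit 86048768)) (I.pos (nat_lit 3833856) (nat_lit 96256000)) (I.pos (nat_lit 383778816) (nat_lit 446087168)) (I.mix (nat_lit 155713536) (nat_lit 113098752)) (I.mix (nat_lit 109969408) (nat_lit 82345984)) (I.mix (nat_lit 155697152) (nat_lit 117997568)))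
  false (nat_lit 92444295)
def b4_9 : Bx := Bx.mk (St.mk (I.pos (nat_lit 13336576) (nat_lit 52248576)) (I.neg (nat_lit 23904256) (nat_lit 73826304)) (I.neg (nat_lit 32718848) (nat_lit 58114048)) (I.pos (nat_lit 267763712) (nat_lit 288522240)) (I.mix (nat_lit 118947840) (nat_lit 61849600)) (I.mix (nat_lit 55083008) (nat_lit 94650368)) (I.mix (nat_lit 35553280) (nat_lit 31129600)))
  false (nat_lit 83544112)
def t4 : BTr := (BTr.n (BTr.n (BTr.n (BTr.b b4_0) (BTr.b b4_1)) (BTr.n (BTr.b b4_2) (BTr.n (BTr.b b4_3) (BTr.b b4_4)))) (BTr.n (BTr.n (BTr.b b4_5) (BTr.b b4_6)) (BTr.n (BTr.b b4_7) (BTr.n (BTr.b b4_8) (BTr.b b4_9)))))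
namespace T4
def l0 : Tr := Tr.L (Pth.l (Pth.l (Pth.l Pth.z)))
def l1 : Tr := Tr.L (Pth.l (Pth.l (Pth.r Pth.z)))
def l2 : Tr := Tr.L (Pth.l (Pth.r (Pth.l Pth.z)))
def l3 : Tr := Tr.L (Pth.l (Pth.r (Pth.r (Pth.l Pth.z))))
def l4 : Tr := Tr.L (Pth.l (Pth.r (Pth.r (Pth.r Pth.z))))
def l5 : Tr := Tr.L (Pth.r (Pth.l (Pth.l Pth.z)))
def l6 : Tr := Tr.L (Pth.r (Pth.l (Pth.r Pth.z)))
def l7 : Tr := Tr.L (Pth.r (Pth.r (Pth.l Pth.z)))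
def l8 : Tr := Tr.L (Pth.r (Pth.r (Pth.r (Pth.l Pth.z))))
def l9 : Tr := Tr.L (Pth.r (Pth.r (Pth.r (Pth.r Pth.z))))
end T4
def b5_0 : Bx := Bx.mk (St.mk (I.pos (nat_lit 158318592) (nat_lit 223264768)) (I.mix (nat_lit 1556480) (nat_lit 46415872)) (I.mix (nat_lit 3293184) (nat_lit 108396544)) (I.pos (nat_lit 139804672) (nat_lit 241926144)) (I.mix (nat_lit 120389632) (nat_lit 67551232)) (I.mix (nat_lit 87146496) (nat_lit 72548352)) (I.mix (nat_lit 118341632) (nat_lit 86949888)))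
  false (nat_lit 18961327)
def b5_1 : Bx := Bx.mk (St.mk (I.pos (nat_lit 103366656) (nat_lit 172670976)) (I.neg (nat_lit 4505600) (nat_lit 61472768)) (I.mix (nat_lit 38682624) (nat_lit 27541504)) (I.pos (nat_lit 105709568) (nat_lit 169721856)) (I.mix (nat_lit 93683712) (nat_lit 78594048)) (I.mix (nat_lit 60112896) (nat_lit 68976640)) (I.mix (nat_lit 54755328) (nat_lit 66224128)))
  false (nat_lit 138865050)
def b5_2 : Bx := Bx.mk (St.mk (I.mix (nat_lit 18710528) (nat_lit 81444864)) (I.mix (nat_lit 31850496) (nat_lit 4112384)) (I.mix (nat_lit 5160960) (nat_lit 17154048)) (I.pos (nat_lit 41811968) (nat_lit 87703552)) (I.mix (nat_lit 37306368) (nat_lit 49414144)) (I.mix (nat_lit 30097408) (nat_lit 37093376)) (I.mix (nat_lit 13713408) (nat_lit 19759104)))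
  false (nat_lit 51291871)
def b5_3 : Bx := Bx.mk (St.mk (I.pos (nat_lit 149897216) (nat_lit 198230016)) (I.mix (nat_lit 12812288) (nat_lit 43286528)) (I.pos (nat_lit 23691264) (nat_lit 98828288)) (I.pos (nat_lit 130301952) (nat_lit 201867264)) (I.mix (nat_lit 148029440) (nat_lit 61538304)) (I.mix (nat_lit 130449408) (nat_lit 77774848)) (I.mix (nat_lit 138805248) (nat_lit 65437696)))
  false (nat_lit 53018364)
def b5_4 : Bx := Bx.mk (St.mk (I.mix (nat_lit 35389440) (nat_lit 101515264)) (I.mix (nat_lit 12697600) (nat_lit 30867456)) (I.pos (nat_lit 1458176) (nat_lit 35799040)) (I.pos (nat_lit 41566208) (nat_lit 100401152)) (I.mix (nat_lit 79282176) (nat_lit 43679744)) (I.mix (nat_lit 63520768) (nat_lit 36798464)) (I.mix (nat_lit 36241408) (nat_lit 20545536)))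
  false (nat_lit 34199566)
def b5_5 : Bx := Bx.mk (St.mk (I.pos (nat_lit 134922240) (nat_lit 174424064)) (I.neg (nat_lit 2064384) (nat_lit 38731776)) (I.mix (nat_lit 5701632) (nat_lit 34455552)) (I.pos (nat_lit 119914496) (nat_lit 172457984)) (I.mix (nat_lit 65748992) (nat_lit 61997056)) (I.mix (nat_lit 39370752) (nat_lit 54099968)) (I.mix (nat_lit 43188224) (nat_lit 50839552)))
  false (nat_lit 86637518)
def b5_6 : Bx := Bx.mk (St.mk (I.mix (nat_lit 45285376) (nat_lit 84099072)) (I.mix (nat_lit 12206080) (nat_lit 7815168)) (I.pos (nat_lit 3325952) (nat_lit 16777216)) (I.pos (nat_lit 42254336) (nat_lit 88932352)) (I.mix (nat_lit 25247744) (nat_lit 21970944)) (I.mix (nat_lit 17285120) (nat_lit 18579456)) (I.mix (nat_lit 7585792) (nat_lit 8863744)))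
  false (nat_lit 0)
def b5_7 : Bx := Bx.mk (St.mk (I.pos (nat_lit 148832256) (nat_lit 188301312)) (I.neg (nat_lit 6881280) (nat_lit 40075264)) (I.mix (nat_lit 9568256) (nat_lit 31113216)) (I.pos (nat_lit 132792320) (nat_lit 192643072)) (I.mix (nat_lit 70893568) (nat_lit 69156864)) (I.mix (nat_lit 67502080) (nat_lit 52035584)) (I.mix (nat_lit 64339968) (nat_lit 50495488)))
  false (nat_lit 79140583)
def b5_8 : Bx := Bx.mk (St.mk (I.pos (nat_lit 149651456) (nat_lit 200163328)) (I.mix (nat_lit 41779200) (nat_lit 20267008)) (I.mix (nat_lit 9322496) (nat_lit 68435968)) (I.pos (nat_lit 131399680) (nat_lit 204144640)) (I.mix (nat_lit 129892352) (nat_lit 91701248)) (I.mix (nat_lit 120897536) (nat_lit 82706432)) (I.mix (nat_lit 122322944) (nat_lit 72187904)))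
  false (nat_lit 67537615)
def b5_9 : Bx := Bx.mk (St.mk (I.mix (nat_lit 8306688) (nat_lit 120307712)) (I.mix (nat_lit 7323648) (nat_lit 23232512)) (I.pos (nat_lit 2703360) (nat_lit 29016064)) (I.pos (nat_lit 40812544) (nat_lit 115507200)) (I.mix (nat_lit 46940160) (nat_lit 28246016)) (I.mix (nat_lit 30523392) (nat_lit 22200320)) (I.mix (nat_lit 21168128) (nat_lit 15204352)))
  false (nat_lit 0)
def b5_10 : Bx := Bx.mk (St.mk (I.pos (nat_lit 93077504) (nat_lit 147849216)) (I.mix (nat_lit 58834944) (nat_lit 9666560)) (I.mix (nat_lit 32915456) (nat_lit 21905408)) (I.pos (nat_lit 78413824) (nat_lit 143278080)) (I.mix (nat_lit 88506368) (nat_lit 64634880)) (I.mix (nat_lit 52953088) (nat_lit 71319552)) (I.mix (nat_lit 35979264) (nat_lit 49872896)))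
  false (nat_lit 90757618)
def b5_11 : Bx := Bx.mk (St.mk (I.mix (nat_lit 36159488) (nat_lit 75284480)) (I.mix (nat_lit 32079872) (nat_lit 4915200)) (I.mix (nat_lit 3719168) (nat_lit 13582336)) (I.pos (nat_lit 41746432) (nat_lit 84492288)) (I.mix (nat_lit 33505280) (nat_lit 33308672)) (I.mix (nat_lit 22708224) (nat_lit 27688960)) (I.mix (nat_lit 8830976) (nat_lit 10895360)))
  false (nat_lit 20928869)
def b5_12 : Bx := Bx.mk (St.mk (I.pos (nat_lit 185352192) (nat_lit 284262400)) (I.mix (nat_lit 21250048) (nat_lit 35258368)) (I.mix (nat_lit 6373376) (nat_lit 96944128)) (I.pos (nat_lit 191414272) (nat_lit 364347392)) (I.mix (nat_lit 104595456) (nat_lit 76693504)) (I.mix (nat_lit 78381056) (nat_lit 55705600)) (I.mix (nat_lit 130416640) (nat_lit 92323840)))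
  false (nat_lit 53536969)
def b5_13 : Bx := Bx.mk (St.mk (I.pos (nat_lit 174080000) (nat_lit 222937088)) (I.pos (nat_lit 5799936) (nat_lit 44089344)) (I.pos (nat_lit 37896192) (nat_lit 105447424)) (I.pos (nat_lit 176324608) (nat_lit 231604224)) (I.mix (nat_lit 122454016) (nat_lit 83099648)) (I.mix (nat_lit 92995584) (nat_lit 69337088)) (I.mix (nat_lit 137412608) (nat_lit 84803584)))
  false (nat_lit 27458006)
def t5 : BTr := (BTr.n (BTr.n (BTr.n (BTr.b b5_0) (BTr.n (BTr.b b5_1) (BTr.b b5_2))) (BTr.n (BTr.n (BTr.b b5_3) (BTr.b b5_4)) (BTr.n (BTr.b b5_5) (BTr.b b5_6)))) (BTr.n (BTr.n (BTr.b b5_7) (BTr.n (BTr.b b5_8) (BTr.b b5_9))) (BTr.n (BTr.n (BTr.b b5_10) (BTr.b b5_11)) (BTr.n (BTr.b b5_12) (BTr.b b5_13)))))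
namespace T5
def l0 : Tr := Tr.L (Pth.l (Pth.l (Pth.l Pth.z)))
def l1 : Tr := Tr.L (Pth.l (Pth.l (Pth.r (Pth.l Pth.z))))
def l2 : Tr := Tr.L (Pth.l (Pth.l (Pth.r (Pth.r Pth.z))))
def l3 : Tr := Tr.L (Pth.l (Pth.r (Pth.l (Pth.l Pth.z))))
def l4 : Tr := Tr.L (Pth.l (Pth.r (Pth.l (Pth.r Pth.z))))
def l5 : Tr := Tr.L (Pth.l (Pth.r (Pth.r (Pth.l Pth.z))))
def l6 : Tr := Tr.L (Pth.l (Pth.r (Pth.r (Pth.r Pth.z))))
def l7 : Tr := Tr.L (Pth.r (Pth.l (Pth.l Pth.z)))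
def l8 : Tr := Tr.L (Pth.r (Pth.l (Pth.r (Pth.l Pth.z))))
def l9 : Tr := Tr.L (Pth.r (Pth.l (Pth.r (Pth.r Pth.z))))
def l10 : Tr := Tr.L (Pth.r (Pth.r (Pth.l (Pth.l Pth.z))))
def l11 : Tr := Tr.L (Pth.r (Pth.r (Pth.l (Pth.r Pth.z))))
def l12 : Tr := Tr.L (Pth.r (Pth.r (Pth.r (Pth.l Pth.z))))
def l13 : Tr := Tr.L (Pth.r (Pth.r (Pth.r (Pth.r Pth.z))))
end T5
theorem bx0_0 : BoxOK sI cl4 cl7 cl9 t2 t4 b0_0 :=
  box_mk (TrL.c (I.pos (nat_lit 0) (nat_lit 0)) (xa (xb (xa (xb T2.l0 T2.l0) T2.l0) (xa (xb (xa T2.l0 T2.l0) (xa T2.l0 T2.l0)) (xb T2.l0 (xa T2.l0 T2.l0)))) (xb (xa T2.l0 (xb T2.l0 T2.l0)) (xa (xb T2.l0 (xa T2.l0 (xb T2.l0 T2.l0))) (xb T2.l0 (xa (xb T2.l0 T2.l0) (xb T2.l0 T2.l0))))))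
  (TrL.c (I.pos (nat_lit 0) (nat_lit 0)) (xa (xb T4.l1 T4.l1) (xb T4.l1 (xa T4.l1 T4.l1)))
  (TrL.c (I.pos (nat_lit 0) (nat_lit 0)) (xa T2.l1 (xb T2.l1 T2.l1))
  (TrL.c (I.pos (nat_lit 0) (nat_lit 0)) (xa (xb T4.l2 (xa T4.l2 T4.l2)) (xb (xa T4.l2 (xb T4.l2 (xa T4.l2 T4.l2))) (xa (xb T4.l2 (xa T4.l2 T4.l2)) (xb (xa T4.l2 (xd T4.l2 T4.l2)) (xa (xd T4.l2 T4.l2) (xd (xe T4.l2 T4.l2) (xc T4.l2 T4.l2)))))))
  (TrL.c (I.pos (nat_lit 0) (nat_lit 0)) (xa T2.l2 (xb T2.l2 T2.l2))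
  (TrL.c (I.pos (nat_lit 0) (nat_lit 0)) (xa (xb T4.l3 T4.l3) (xb T4.l3 (xa T4.l3 T4.l3)))
  TrL.n)))))) (by decide +kernel)
theorem bx0_1 : BoxOK sI cl4 cl7 cl9 t2 t4 b0_1 :=
  box_mk (TrL.c (I.pos (nat_lit 0) (nat_lit 0)) (xa (xa (xb (xa (xb (xa T2.l6 T2.l6) T2.l6) T2.l6) (xa (xb T2.l6 T2.l6) T2.l6)) T2.l6) (xa T2.l6 (xb T2.l6 (xa T2.l6 T2.l6))))
  (TrL.c (I.pos (nat_lit 0) (nat_lit 0)) (xa T4.l1 T4.l1)
  (TrL.c (I.pos (nat_lit 0) (nat_lit 0)) T2.l1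
  (TrL.c (I.pos (nat_lit 0) (nat_lit 0)) T4.l2
  (TrL.c (I.pos (nat_lit 0) (nat_lit 0)) T2.l7
  (TrL.c (I.pos (nat_lit 0) (nat_lit 0)) T4.l3
  TrL.n)))))) (by decide +kernel)
theorem bx0_2 : BoxOK sI cl4 cl7 cl9 t2 t4 b0_2 :=
  box_mk (TrL.c (I.pos (nat_lit 0) (nat_lit 0)) (xb (xa (xb T2.l6 T2.l6) (xb T2.l6 T2.l6)) (xa (xb T2.l6 T2.l6) T2.l6))
  (TrL.c (I.pos (nat_lit 0) (nat_lit 0)) T4.l1
  (TrL.c (I.pos (nat_lit 0) (nat_lit 0)) T2.l1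
  (TrL.c (I.pos (nat_lit 0) (nat_lit 0)) T4.l2
  (TrL.c (I.pos (nat_lit 0) (nat_lit 0)) T2.l7
  (TrL.c (I.pos (nat_lit 0) (nat_lit 0)) T4.l3
  TrL.n)))))) (by decide +kernel)
theorem bx0_3 : BoxOK sI cl4 cl7 cl9 t2 t4 b0_3 :=
  box_mk (TrL.c (I.pos (nat_lit 0) (nat_lit 0)) (xa (xa (xb (xa (xb (xa T2.l6 T2.l6) T2.l6) T2.l6) T2.l6) T2.l6) T2.l6)
  (TrL.c (I.pos (nat_lit 0) (nat_lit 0)) (xa T4.l2 T4.l1)
  (TrL.c (I.pos (nat_lit 0) (nat_lit 0)) T2.l1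
  (TrL.c (I.pos (nat_lit 0) (nat_lit 0)) (xa T4.l1 T4.l2)
  (TrL.c (I.pos (nat_lit 0) (nat_lit 0)) T2.l7
  (TrL.c (I.pos (nat_lit 0) (nat_lit 0)) (xa T4.l3 T4.l3)
  TrL.n)))))) (by decide +kernel)
theorem bx0_4 : BoxOK sI cl4 cl7 cl9 t2 t4 b0_4 :=
  box_mk (TrL.c (I.pos (nat_lit 0) (nat_lit 0)) T2.l6
  (TrL.c (I.pos (nat_lit 0) (nat_lit 0)) T4.l1
  (TrL.c (I.pos (nat_lit 0) (nat_lit 0)) T2.l1
  (TrL.c (I.pos (nat_lit 0) (nat_lit 0)) T4.l2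
  (TrL.c (I.pos (nat_lit 0) (nat_lit 0)) T2.l7
  (TrL.c (I.pos (nat_lit 0) (nat_lit 0)) T4.l3
  TrL.n)))))) (by decide +kernel)
theorem bx0_5 : BoxOK sI cl4 cl7 cl9 t2 t4 b0_5 :=
  box_mk (TrL.c (I.pos (nat_lit 0) (nat_lit 0)) (xa (xa (xb (xa (xa T2.l6 T2.l6) T2.l6) T2.l6) T2.l6) T2.l6)
  (TrL.c (I.pos (nat_lit 0) (nat_lit 0)) T4.l1
  (TrL.c (I.pos (nat_lit 0) (nat_lit 0)) T2.l1
  (TrL.c (I.pos (nat_lit 0) (nat_lit 0)) T4.l2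
  (TrL.c (I.pos (nat_lit 0) (nat_lit 0)) T2.l7
  (TrL.c (I.pos (nat_lit 0) (nat_lit 0)) T4.l3
  TrL.n)))))) (by decide +kernel)
theorem bx0_6 : BoxOK sI cl4 cl7 cl9 t2 t4 b0_6 :=
  box_mk (TrL.c (I.pos (nat_lit 0) (nat_lit 0)) (xa T2.l0 T2.l4)
  (TrL.c (I.pos (nat_lit 0) (nat_lit 0)) (xa T4.l1 T4.l1)
  (TrL.c (I.pos (nat_lit 0) (nat_lit 0)) T2.l5
  (TrL.c (I.pos (nat_lit 0) (nat_lit 0)) (xa T4.l2 (xb T4.l0 T4.l2))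
  (TrL.c (I.pos (nat_lit 0) (nat_lit 0)) T2.l3
  (TrL.c (I.pos (nat_lit 0) (nat_lit 0)) (xa T4.l3 T4.l3)
  TrL.n)))))) (by decide +kernel)
theorem c0_7_0 : chkTag sI cl4 cl7 cl9 t2 b0_7 (tg true true false RT.r2) (I.pos (nat_lit 0) (nat_lit 0))
  (xb (xa (xb (xa (xb T2.l0 T2.l0) T2.l0) (xa (xb T2.l0 T2.l0) (xb T2.l0 T2.l0))) (xb (xa T2.l0 T2.l4) (xa T2.l0 T2.l4))) (xa (xb (xa (xb (xc T2.l0 T2.l0) (xc T2.l0 T2.l0)) (xb T2.l0 (xc T2.l0 T2.l0))) (xa (xb (xa T2.l0 T2.l0) (xa (xc T2.l0 T2.l0) (xc T2.l0 T2.l0))) (xb (xa T2.l0 T2.l0) (xa T2.l0 T2.l0)))) (xb (xa (xb T2.l0 T2.l0) (xb T2.l0 T2.l0)) (xa (xb (xa T2.l0 T2.l0) (xa T2.l0 T2.l0)) (xb (xa T2.l0 T2.l0) (xa T2.l0 (xc T2.l0 T2.l0))))))) = true := by decide +kernel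
theorem c0_7_1 : chkTag sI cl4 cl7 cl9 t4 b0_7 (tg true false false RT.r3) (I.pos (nat_lit 0) (nat_lit 0))
  (xb (xa T4.l1 (xb T4.l1 T4.l1)) (xa (xb T4.l1 T4.l1) (xb T4.l1 (xc T4.l1 T4.l1)))) = true := by decide +kernel
theorem c0_7_2 : chkTag sI cl4 cl7 cl9 t2 b0_7 (tg true true true RT.r4) (I.pos (nat_lit 0) (nat_lit 0))
  (xc (xb T2.l5 (xa T2.l1 T2.l5)) (xb T2.l5 (xa T2.l1 T2.l5))) = true := by decide +kernel
theorem c0_7_3 : chkTag sI cl4 cl7 cl9 t4 b0_7 (tg false false false RT.r3) (I.pos (nat_lit 0) (nat_lit 0))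
  (xb (xa (xb (xc (xa T4.l2 T4.l2) (xa T4.l2 T4.l2)) (xc T4.l2 T4.l2)) (xb (xc (xa (xb (xd T4.l2 T4.l2) T4.l2) (xd (xb (xe T4.l2 T4.l2) T4.l2) (xb (xe T4.l2 T4.l2) T4.l2))) (xa (xb (xd T4.l2 T4.l2) T4.l2) (xd (xb (xe T4.l2 T4.l2) T4.l2) (xb (xe T4.l2 T4.l2) T4.l2)))) (xc (xa T4.l2 (xd (xb T4.l2 T4.l2) (xb T4.l2 T4.l2))) (xa T4.l2 (xd T4.l2 T4.l2))))) (xa (xb (xc T4.l2 T4.l2) (xc T4.l2 (xa T4.l2 T4.l2))) (xb (xc (xa T4.l2 (xd (xb T4.l2 (xe T4.l2 T4.l2)) (xb T4.l2 (xe T4.l2 T4.l2)))) (xa (xd T4.l2 T4.l2) (xd (xb T4.l2 T4.l2) (xb T4.l2 T4.l2)))) (xc (xa (xb T4.l2 (xd T4.l2 T4.l2)) (xb (xd (xe T4.l2 T4.l2) (xe T4.l2 T4.l2)) (xd (xe T4.l2 T4.l2) (xe T4.l2 T4.l2)))) (xa (xd (xb T4.l2 T4.l2) (xb T4.l2 T4.l2)) (xd (xb (xe T4.l2 T4.l2) (xe T4.l2 T4.l2)) (xb (xe T4.l2 T4.l2) (xe T4.l2 T4.l2)))))))) = true := by decide +kernel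
theorem c0_7_4 : chkTag sI cl4 cl7 cl9 t2 b0_7 (tg false true false RT.r4) (I.pos (nat_lit 0) (nat_lit 0))
  (xc (xb T2.l3 (xa T2.l2 T2.l3)) (xb T2.l3 (xa T2.l2 T2.l3))) = true := by decide +kernel
theorem c0_7_5 : chkTag sI cl4 cl7 cl9 t4 b0_7 (tg false false true RT.r5) (I.pos (nat_lit 0) (nat_lit 0))
  (xb (xa T4.l3 (xb T4.l3 T4.l3)) (xa (xb T4.l3 T4.l3) (xb T4.l3 (xc T4.l3 T4.l3)))) = true := by decide +kernel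
theorem bx0_7 : BoxOK sI cl4 cl7 cl9 t2 t4 b0_7 :=
  box_mk' [(tg true true false RT.r2), (tg true false false RT.r3), (tg true true true RT.r4), (tg false false false RT.r3), (tg false true false RT.r4), (tg false false true RT.r5)] rfl (allL_c (ex_mk c0_7_0) (allL_c (ex_mk c0_7_1) (allL_c (ex_mk c0_7_2) (allL_c (ex_mk c0_7_3) (allL_c (ex_mk c0_7_4) (allL_c (ex_mk c0_7_5) allL_n))))))
theorem bx0_8 : BoxOK sI cl4 cl7 cl9 t2 t4 b0_8 :=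
  box_mk (TrL.c (I.pos (nat_lit 0) (nat_lit 0)) (xa (xb (xa T2.l6 T2.l6) T2.l6) (xb (xa T2.l6 T2.l6) (xa T2.l6 T2.l8)))
  (TrL.c (I.pos (nat_lit 0) (nat_lit 0)) T4.l1
  (TrL.c (I.pos (nat_lit 0) (nat_lit 0)) T2.l1
  (TrL.c (I.pos (nat_lit 0) (nat_lit 0)) T4.l2
  (TrL.c (I.pos (nat_lit 0) (nat_lit 0)) T2.l7
  (TrL.c (I.pos (nat_lit 0) (nat_lit 0)) T4.l3
  TrL.n)))))) (by decide +kernel)
theorem bx0_9 : BoxOK sI cl4 cl7 cl9 t2 t4 b0_9 :=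
  box_mk (TrL.c (I.pos (nat_lit 0) (nat_lit 0)) (xa (xa (xb T2.l6 T2.l6) T2.l6) T2.l6)
  (TrL.c (I.pos (nat_lit 0) (nat_lit 0)) (xa T4.l2 T4.l1)
  (TrL.c (I.pos (nat_lit 0) (nat_lit 0)) T2.l1
  (TrL.c (I.pos (nat_lit 0) (nat_lit 0)) (xa T4.l2 T4.l2)
  (TrL.c (I.pos (nat_lit 0) (nat_lit 0)) T2.l7
  (TrL.c (I.pos (nat_lit 0) (nat_lit 0)) T4.l3
  TrL.n)))))) (by decide +kernel)
theorem bx0_10 : BoxOK sI cl4 cl7 cl9 t2 t4 b0_10 :=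
  box_mk (TrL.c (I.pos (nat_lit 0) (nat_lit 0)) (xb (xa (xb T2.l8 T2.l8) (xb (xa T2.l8 T2.l8) (xa T2.l8 T2.l8))) (xa (xb (xa T2.l8 T2.l8) (xa T2.l8 T2.l8)) (xb (xa T2.l8 T2.l8) (xa (xb T2.l8 T2.l8) (xb T2.l8 T2.l8)))))
  (TrL.c (I.pos (nat_lit 0) (nat_lit 0)) (xb (xa T4.l1 T4.l1) (xa T4.l1 T4.l1))
  (TrL.c (I.pos (nat_lit 0) (nat_lit 0)) (xb T2.l5 T2.l1)
  (TrL.c (I.pos (nat_lit 0) (nat_lit 0)) (xb (xa T4.l2 (xb T4.l2 (xa T4.l2 T4.l2))) (xa (xb T4.l2 T4.l2) (xb (xa T4.l2 (xc T4.l2 (xd T4.l2 T4.l2))) (xa (xc T4.l2 T4.l2) (xc T4.l2 (xd T4.l2 T4.l2))))))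
  (TrL.c (I.pos (nat_lit 0) (nat_lit 0)) (xb T2.l3 T2.l9)
  (TrL.c (I.pos (nat_lit 0) (nat_lit 0)) (xb (xa T4.l3 T4.l3) (xa T4.l3 T4.l3))
  TrL.n)))))) (by decide +kernel)
theorem bx0_11 : BoxOK sI cl4 cl7 cl9 t2 t4 b0_11 :=
  box_mk (TrL.c (I.pos (nat_lit 0) (nat_lit 0)) (xa (xa (xb (xa (xb (xa (xb T2.l6 T2.l6) T2.l6) T2.l6) T2.l6) (xa (xb T2.l6 (xa (xb T2.l6 (xa T2.l6 T2.l6)) T2.l6)) (xb T2.l6 T2.l6))) (xb T2.l6 T2.l6)) (xa T2.l6 (xb T2.l6 (xa T2.l6 (xb T2.l6 T2.l6)))))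
  (TrL.c (I.pos (nat_lit 0) (nat_lit 0)) (xa (xa T4.l2 T4.l1) T4.l1)
  (TrL.c (I.pos (nat_lit 0) (nat_lit 0)) (xa T2.l1 T2.l1)
  (TrL.c (I.pos (nat_lit 0) (nat_lit 0)) (xa (xa T4.l2 T4.l2) T4.l2)
  (TrL.c (I.pos (nat_lit 0) (nat_lit 0)) (xa T2.l7 T2.l7)
  (TrL.c (I.pos (nat_lit 0) (nat_lit 0)) (xa (xa T4.l3 T4.l3) T4.l3)
  TrL.n)))))) (by decide +kernel)
theorem bx0_12 : BoxOK sI cl4 cl7 cl9 t2 t4 b0_12 :=
  box_mk (TrL.c (I.pos (nat_lit 0) (nat_lit 0)) (xa (xb (xa T2.l8 T2.l8) (xa T2.l8 T2.l8)) T2.l0)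
  (TrL.c (I.pos (nat_lit 0) (nat_lit 0)) (xa T4.l1 T4.l1)
  (TrL.c (I.pos (nat_lit 0) (nat_lit 0)) T2.l5
  (TrL.c (I.pos (nat_lit 0) (nat_lit 0)) (xa T4.l2 (xb (xa T4.l2 T4.l2) T4.l2))
  (TrL.c (I.pos (nat_lit 0) (nat_lit 0)) T2.l3
  (TrL.c (I.pos (nat_lit 0) (nat_lit 0)) (xa T4.l3 T4.l3)
  TrL.n)))))) (by decide +kernel)
theorem bx0_13 : BoxOK sI cl4 cl7 cl9 t2 t4 b0_13 :=
  box_mk (TrL.c (I.pos (nat_lit 0) (nat_lit 0)) (xb (xa T2.l0 T2.l0) (xa (xa T2.l8 T2.l8) T2.l0))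
  (TrL.c (I.pos (nat_lit 0) (nat_lit 0)) T4.l1
  (TrL.c (I.pos (nat_lit 0) (nat_lit 0)) T2.l5
  (TrL.c (I.pos (nat_lit 0) (nat_lit 0)) (xb (xa (xb T4.l2 T4.l2) (xa T4.l2 (xb T4.l2 T4.l2))) T4.l2)
  (TrL.c (I.pos (nat_lit 0) (nat_lit 0)) T2.l3
  (TrL.c (I.pos (nat_lit 0) (nat_lit 0)) T4.l3
  TrL.n)))))) (by decide +kernel)
theorem sv0 : StarV sI cl4 cl7 cl9 t2 t4 t0 :=
  (bt_n (bt_n (bt_n (bt_b bx0_0) (bt_n (bt_b bx0_1) (bt_b bx0_2))) (bt_n (bt_n (bt_b bx0_3) (bt_b bx0_4)) (bt_n (bt_b bx0_5) (bt_b bx0_6)))) (bt_n (bt_n (bt_b bx0_7) (bt_n (bt_b bx0_8) (bt_b bx0_9))) (bt_n (bt_n (bt_b bx0_10) (bt_b bx0_11)) (bt_n (bt_b bx0_12) (bt_b bx0_13)))))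
def S0 : StarD := StarD.mk cl4 cl7 cl9 2 4 t0
theorem bx1_0 : BoxOK sI cl4 cl9 cl7 t4 t2 b1_0 :=
  box_mk (TrL.c (I.pos (nat_lit 0) (nat_lit 0)) (xa (xb (xa (xb T4.l0 T4.l0) T4.l0) (xa (xb (xa T4.l0 T4.l0) (xa T4.l0 T4.l0)) (xb T4.l0 (xa T4.l0 T4.l0)))) (xb (xa T4.l0 (xb T4.l0 T4.l0)) (xa (xb T4.l0 (xa (xb T4.l0 T4.l0) (xb T4.l0 T4.l0))) (xb T4.l0 (xa (xb T4.l0 T4.l0) (xb T4.l0 T4.l0))))))
  (TrL.c (I.pos (nat_lit 0) (nat_lit 0)) (xa (xb T2.l3 (xa T2.l3 T2.l3)) (xb T2.l3 (xa T2.l3 T2.l3)))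
  (TrL.c (I.pos (nat_lit 0) (nat_lit 0)) (xa T4.l4 T4.l4)
  (TrL.c (I.pos (nat_lit 0) (nat_lit 0)) (xa T2.l4 (xb (xa T2.l4 T2.l4) (xa T2.l4 (xb T2.l4 (xa T2.l4 T2.l4)))))
  (TrL.c (I.pos (nat_lit 0) (nat_lit 0)) (xa T4.l5 T4.l5)
  (TrL.c (I.pos (nat_lit 0) (nat_lit 0)) (xa (xb T2.l5 (xa T2.l5 T2.l5)) (xb T2.l5 (xa T2.l5 T2.l5)))
  TrL.n)))))) (by decide +kernel)
theorem bx1_1 : BoxOK sI cl4 cl9 cl7 t4 t2 b1_1 :=
  box_mk (TrL.c (I.pos (nat_lit 0) (nat_lit 0)) (xa (xa (xb T4.l6 T4.l6) T4.l6) (xa T4.l6 (xb T4.l6 (xa T4.l6 T4.l6))))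
  (TrL.c (I.pos (nat_lit 0) (nat_lit 0)) (xa T2.l3 T2.l3)
  (TrL.c (I.pos (nat_lit 0) (nat_lit 0)) T4.l4
  (TrL.c (I.pos (nat_lit 0) (nat_lit 0)) (xa T2.l4 T2.l4)
  (TrL.c (I.pos (nat_lit 0) (nat_lit 0)) T4.l7
  (TrL.c (I.pos (nat_lit 0) (nat_lit 0)) (xa T2.l5 T2.l5)
  TrL.n)))))) (by decide +kernel)
theorem bx1_2 : BoxOK sI cl4 cl9 cl7 t4 t2 b1_2 :=
  box_mk (TrL.c (I.pos (nat_lit 0) (nat_lit 0)) (xb (xa (xb T4.l6 T4.l6) T4.l6) (xa (xb T4.l6 T4.l6) T4.l6))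
  (TrL.c (I.pos (nat_lit 0) (nat_lit 0)) T2.l3
  (TrL.c (I.pos (nat_lit 0) (nat_lit 0)) T4.l4
  (TrL.c (I.pos (nat_lit 0) (nat_lit 0)) T2.l4
  (TrL.c (I.pos (nat_lit 0) (nat_lit 0)) T4.l7
  (TrL.c (I.pos (nat_lit 0) (nat_lit 0)) T2.l5
  TrL.n)))))) (by decide +kernel)
theorem bx1_3 : BoxOK sI cl4 cl9 cl7 t4 t2 b1_3 :=
  box_mk (TrL.c (I.pos (nat_lit 0) (nat_lit 0)) (xa (xa (xb (xa (xb (xa T4.l6 T4.l6) T4.l6) T4.l6) T4.l6) T4.l6) T4.l6)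
  (TrL.c (I.pos (nat_lit 0) (nat_lit 0)) (xa T2.l3 T2.l3)
  (TrL.c (I.pos (nat_lit 0) (nat_lit 0)) T4.l4
  (TrL.c (I.pos (nat_lit 0) (nat_lit 0)) (xa T2.l4 T2.l4)
  (TrL.c (I.pos (nat_lit 0) (nat_lit 0)) T4.l7
  (TrL.c (I.pos (nat_lit 0) (nat_lit 0)) (xa T2.l5 T2.l5)
  TrL.n)))))) (by decide +kernel)
theorem c1_4_0 : chkTag sI cl4 cl9 cl7 t4 b1_4 (tg true true false RT.r2) (I.pos (nat_lit 0) (nat_lit 0))
  (xb (xa (xb (xa T4.l0 T4.l0) (xa (xb T4.l0 T4.l0) T4.l0)) (xb (xa T4.l0 T4.l2) (xa T4.l0 (xb T4.l0 T4.l0)))) (xa (xb (xa (xb T4.l0 (xa T4.l0 T4.l0)) (xb T4.l0 T4.l0)) (xa (xb (xa T4.l0 T4.l0) (xa T4.l0 T4.l0)) (xb (xa T4.l0 T4.l0) (xa T4.l0 T4.l0)))) (xb (xa (xb T4.l0 T4.l0) (xb T4.l0 T4.l0)) (xa (xb (xa T4.l0 T4.l0) (xa T4.l0 T4.l0)) (xb (xa T4.l0 T4.l0) (xa T4.l0 (xc T4.l0 T4.l0))))))) = true := by decide +kernel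
theorem c1_4_1 : chkTag sI cl4 cl9 cl7 t2 b1_4 (tg true false false RT.r3) (I.pos (nat_lit 0) (nat_lit 0))
  (xa (xb T2.l3 (xb T2.l3 T2.l3)) (xb (xb T2.l3 T2.l3) (xa T2.l3 (xb T2.l3 T2.l3)))) = true := by decide +kernel
theorem c1_4_2 : chkTag sI cl4 cl9 cl7 t4 b1_4 (tg true true true RT.r4) (I.pos (nat_lit 0) (nat_lit 0))
  (xc (xa T4.l4 T4.l3) (xa T4.l4 (xb T4.l3 T4.l4))) = true := by decide +kernel
theorem c1_4_3 : chkTag sI cl4 cl9 cl7 t2 b1_4 (tg false false false RT.r3) (I.pos (nat_lit 0) (nat_lit 0))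
  (xb (xa (xb (xc T2.l4 T2.l4) T2.l4) (xb (xa (xc T2.l4 T2.l4) (xc (xd (xb T2.l4 T2.l4) (xb T2.l4 T2.l4)) (xd (xb (xa T2.l4 T2.l4) T2.l4) (xb T2.l4 T2.l4)))) (xc (xa T2.l4 (xd T2.l4 T2.l4)) (xa T2.l4 (xd T2.l4 T2.l4))))) (xa (xb T2.l4 (xc T2.l4 T2.l4)) (xb (xc (xa T2.l4 (xd T2.l4 (xb T2.l4 T2.l4))) (xa T2.l4 (xd T2.l4 T2.l4))) (xc (xa T2.l4 (xd (xb T2.l4 T2.l4) (xb T2.l4 T2.l4))) (xa (xd T2.l4 T2.l4) (xd (xb T2.l4 (xa T2.l4 T2.l4)) (xb T2.l4 T2.l4))))))) = true := by decide +kernel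
theorem c1_4_4 : chkTag sI cl4 cl9 cl7 t4 b1_4 (tg false true false RT.r4) (I.pos (nat_lit 0) (nat_lit 0))
  (xc (xa T4.l5 T4.l1) (xa T4.l5 (xb T4.l1 T4.l5))) = true := by decide +kernel
theorem c1_4_5 : chkTag sI cl4 cl9 cl7 t2 b1_4 (tg false false true RT.r5) (I.pos (nat_lit 0) (nat_lit 0))
  (xb (xa T2.l5 (xb T2.l5 T2.l5)) (xa (xb T2.l5 T2.l5) (xa T2.l5 (xb T2.l5 T2.l5)))) = true := by decide +kernel
theorem bx1_4 : BoxOK sI cl4 cl9 cl7 t4 t2 b1_4 :=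
  box_mk' [(tg true true false RT.r2), (tg true false false RT.r3), (tg true true true RT.r4), (tg false false false RT.r3), (tg false true false RT.r4), (tg false false true RT.r5)] rfl (allL_c (ex_mk c1_4_0) (allL_c (ex_mk c1_4_1) (allL_c (ex_mk c1_4_2) (allL_c (ex_mk c1_4_3) (allL_c (ex_mk c1_4_4) (allL_c (ex_mk c1_4_5) allL_n))))))
theorem bx1_5 : BoxOK sI cl4 cl9 cl7 t4 t2 b1_5 :=
  box_mk (TrL.c (I.pos (nat_lit 0) (nat_lit 0)) T4.l6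
  (TrL.c (I.pos (nat_lit 0) (nat_lit 0)) T2.l3
  (TrL.c (I.pos (nat_lit 0) (nat_lit 0)) T4.l4
  (TrL.c (I.pos (nat_lit 0) (nat_lit 0)) T2.l4
  (TrL.c (I.pos (nat_lit 0) (nat_lit 0)) T4.l7
  (TrL.c (I.pos (nat_lit 0) (nat_lit 0)) T2.l5
  TrL.n)))))) (by decide +kernel)
theorem bx1_6 : BoxOK sI cl4 cl9 cl7 t4 t2 b1_6 :=
  box_mk (TrL.c (I.pos (nat_lit 0) (nat_lit 0)) (xa (xa T4.l6 T4.l6) T4.l6)
  (TrL.c (I.pos (nat_lit 0) (nat_lit 0)) T2.l3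
  (TrL.c (I.pos (nat_lit 0) (nat_lit 0)) T4.l4
  (TrL.c (I.pos (nat_lit 0) (nat_lit 0)) T2.l4
  (TrL.c (I.pos (nat_lit 0) (nat_lit 0)) T4.l7
  (TrL.c (I.pos (nat_lit 0) (nat_lit 0)) T2.l5
  TrL.n)))))) (by decide +kernel)
theorem bx1_7 : BoxOK sI cl4 cl9 cl7 t4 t2 b1_7 :=
  box_mk (TrL.c (I.pos (nat_lit 0) (nat_lit 0)) (xa T4.l0 T4.l2)
  (TrL.c (I.pos (nat_lit 0) (nat_lit 0)) (xa T2.l3 T2.l3)
  (TrL.c (I.pos (nat_lit 0) (nat_lit 0)) T4.l3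
  (TrL.c (I.pos (nat_lit 0) (nat_lit 0)) (xa T2.l4 (xb (xa T2.l4 T2.l0) T2.l4))
  (TrL.c (I.pos (nat_lit 0) (nat_lit 0)) T4.l1
  (TrL.c (I.pos (nat_lit 0) (nat_lit 0)) (xa T2.l5 T2.l5)
  TrL.n)))))) (by decide +kernel)
theorem bx1_8 : BoxOK sI cl4 cl9 cl7 t4 t2 b1_8 :=
  box_mk (TrL.c (I.pos (nat_lit 0) (nat_lit 0)) (xa (xb (xa T4.l6 T4.l6) T4.l6) (xb (xa T4.l6 T4.l0) T4.l0))
  (TrL.c (I.pos (nat_lit 0) (nat_lit 0)) T2.l3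
  (TrL.c (I.pos (nat_lit 0) (nat_lit 0)) T4.l4
  (TrL.c (I.pos (nat_lit 0) (nat_lit 0)) T2.l4
  (TrL.c (I.pos (nat_lit 0) (nat_lit 0)) (xa T4.l7 T4.l7)
  (TrL.c (I.pos (nat_lit 0) (nat_lit 0)) T2.l5
  TrL.n)))))) (by decide +kernel)
theorem bx1_9 : BoxOK sI cl4 cl9 cl7 t4 t2 b1_9 :=
  box_mk (TrL.c (I.pos (nat_lit 0) (nat_lit 0)) (xa (xa (xb (xa (xb T4.l6 T4.l6) T4.l6) T4.l6) T4.l6) T4.l6)
  (TrL.c (I.pos (nat_lit 0) (nat_lit 0)) (xa T2.l3 T2.l3)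
  (TrL.c (I.pos (nat_lit 0) (nat_lit 0)) T4.l4
  (TrL.c (I.pos (nat_lit 0) (nat_lit 0)) (xa T2.l4 T2.l4)
  (TrL.c (I.pos (nat_lit 0) (nat_lit 0)) T4.l7
  (TrL.c (I.pos (nat_lit 0) (nat_lit 0)) (xa T2.l5 T2.l5)
  TrL.n)))))) (by decide +kernel)
theorem bx1_10 : BoxOK sI cl4 cl9 cl7 t4 t2 b1_10 :=
  box_mk (TrL.c (I.pos (nat_lit 0) (nat_lit 0)) (xb (xa (xb T4.l8 T4.l8) (xb (xa T4.l8 T4.l8) (xa T4.l8 T4.l8))) (xa (xb (xa T4.l8 T4.l8) (xa T4.l8 T4.l8)) (xb (xa T4.l8 T4.l8) (xa T4.l8 (xb T4.l8 T4.l8)))))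
  (TrL.c (I.pos (nat_lit 0) (nat_lit 0)) (xb T2.l3 (xa T2.l3 T2.l3))
  (TrL.c (I.pos (nat_lit 0) (nat_lit 0)) (xb T4.l4 T4.l4)
  (TrL.c (I.pos (nat_lit 0) (nat_lit 0)) (xb (xa T2.l4 T2.l4) (xa T2.l4 (xb T2.l4 T2.l4)))
  (TrL.c (I.pos (nat_lit 0) (nat_lit 0)) (xb T4.l9 T4.l9)
  (TrL.c (I.pos (nat_lit 0) (nat_lit 0)) (xb T2.l5 (xa T2.l5 T2.l5))
  TrL.n)))))) (by decide +kernel)
theorem bx1_11 : BoxOK sI cl4 cl9 cl7 t4 t2 b1_11 :=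
  box_mk (TrL.c (I.pos (nat_lit 0) (nat_lit 0)) (xa (xa (xb (xa (xb (xa (xb T4.l6 T4.l6) T4.l6) T4.l6) T4.l6) (xa (xb T4.l6 (xa (xb T4.l6 T4.l6) T4.l6)) T4.l6)) (xb T4.l6 T4.l6)) (xa T4.l6 (xb T4.l6 (xa T4.l6 (xb T4.l6 T4.l6)))))
  (TrL.c (I.pos (nat_lit 0) (nat_lit 0)) (xa (xa T2.l3 T2.l3) T2.l3)
  (TrL.c (I.pos (nat_lit 0) (nat_lit 0)) (xa T4.l4 T4.l4)
  (TrL.c (I.pos (nat_lit 0) (nat_lit 0)) (xa (xa T2.l4 T2.l4) T2.l4)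
  (TrL.c (I.pos (nat_lit 0) (nat_lit 0)) (xa T4.l7 T4.l7)
  (TrL.c (I.pos (nat_lit 0) (nat_lit 0)) (xa (xa T2.l5 T2.l5) T2.l5)
  TrL.n)))))) (by decide +kernel)
theorem bx1_12 : BoxOK sI cl4 cl9 cl7 t4 t2 b1_12 :=
  box_mk (TrL.c (I.pos (nat_lit 0) (nat_lit 0)) (xa (xb T4.l0 T4.l0) T4.l0)
  (TrL.c (I.pos (nat_lit 0) (nat_lit 0)) (xa T2.l3 T2.l3)
  (TrL.c (I.pos (nat_lit 0) (nat_lit 0)) T4.l4
  (TrL.c (I.pos (nat_lit 0) (nat_lit 0)) (xa T2.l4 (xb T2.l4 T2.l4))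
  (TrL.c (I.pos (nat_lit 0) (nat_lit 0)) (xa T4.l9 T4.l1)
  (TrL.c (I.pos (nat_lit 0) (nat_lit 0)) (xa T2.l5 T2.l5)
  TrL.n)))))) (by decide +kernel)
theorem bx1_13 : BoxOK sI cl4 cl9 cl7 t4 t2 b1_13 :=
  box_mk (TrL.c (I.pos (nat_lit 0) (nat_lit 0)) (xb (xa T4.l8 (xb T4.l8 T4.l8)) (xa (xb T4.l8 T4.l8) (xa T4.l8 T4.l8)))
  (TrL.c (I.pos (nat_lit 0) (nat_lit 0)) T2.l3
  (TrL.c (I.pos (nat_lit 0) (nat_lit 0)) T4.l3
  (TrL.c (I.pos (nat_lit 0) (nat_lit 0)) (xb (xa T2.l4 (xa T2.l4 (xb T2.l4 T2.l4))) T2.l4)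
  (TrL.c (I.pos (nat_lit 0) (nat_lit 0)) T4.l1
  (TrL.c (I.pos (nat_lit 0) (nat_lit 0)) T2.l5
  TrL.n)))))) (by decide +kernel)
theorem sv1 : StarV sI cl4 cl9 cl7 t4 t2 t1 :=
  (bt_n (bt_n (bt_n (bt_b bx1_0) (bt_n (bt_b bx1_1) (bt_b bx1_2))) (bt_n (bt_n (bt_b bx1_3) (bt_b bx1_4)) (bt_n (bt_b bx1_5) (bt_b bx1_6)))) (bt_n (bt_n (bt_b bx1_7) (bt_n (bt_b bx1_8) (bt_b bx1_9))) (bt_n (bt_n (bt_b bx1_10) (bt_b bx1_11)) (bt_n (bt_b bx1_12) (bt_b bx1_13)))))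
def S1 : StarD := StarD.mk cl4 cl9 cl7 4 2 t1
theorem bx2_0 : BoxOK sI cl7 cl4 cl9 t0 t5 b2_0 :=
  box_mk (TrL.c (I.pos (nat_lit 0) (nat_lit 0)) (xb (xa T0.l0 T0.l0) (xa (xb (xa T0.l0 T0.l0) (xa T0.l0 T0.l0)) (xb (xa T0.l0 T0.l0) (xa (xb T0.l0 T0.l0) (xb T0.l0 T0.l0)))))
  (TrL.c (I.pos (nat_lit 0) (nat_lit 0)) (xb T5.l1 (xa T5.l1 T5.l1))
  (TrL.c (I.pos (nat_lit 0) (nat_lit 111196574)) (xR T0.l1 (xR T0.l1 (xR T0.l1 T0.l1)))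
  (TrL.c (I.pos (nat_lit 0) (nat_lit 77433728)) (xR T5.l2 (xR T5.l2 (xR T5.l2 T5.l2)))
  (TrL.c (I.pos (nat_lit 0) (nat_lit 0)) (xb (xa (xk T5.l8 T5.l8) (xk (xb (xa T5.l3 T5.l3) T5.l3) (xb T5.l3 T5.l3))) (xa (xk (xb T5.l3 (xb T5.l3 T5.l3)) (xb T5.l3 (xb T5.l3 (xa T5.l3 T5.l3)))) (xk (xb (xb T5.l3 (xa T5.l3 T5.l3)) (xb (xa T5.l3 (xk T5.l3 T5.l3)) (xa (xk T5.l3 T5.l3) (xk (xs T5.l3 T5.l3) (xs T5.l3 (xa T5.l3 T5.l3)))))) (xb (xa T5.l3 (xb T5.l3 (xk T5.l3 T5.l3))) (xa (xb T5.l3 (xk T5.l3 (xs T5.l3 T5.l3))) (xb (xk (xs T5.l3 T5.l3) (xs T5.l3 T5.l3)) (xk (xs (xa T5.l3 T5.l3) (xa T5.l3 (xe T5.l3 T5.l3))) (xs (xa T5.l3 T5.l3) (xa T5.l3 (xe T5.l3 T5.l3))))))))))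
  (TrL.c (I.pos (nat_lit 0) (nat_lit 0)) T0.l2
  (TrL.c (I.mix (nat_lit 29511666) (nat_lit 77433728)) (xR T5.l4 (xR T5.l4 (xR T5.l4 T5.l4)))
  (TrL.c (I.mix (nat_lit 29511666) (nat_lit 46070178)) (xR T0.l3 (xR T0.l3 T0.l3))
  TrL.n)))))))) (by decide +kernel)
theorem bx2_1 : BoxOK sI cl7 cl4 cl9 t0 t5 b2_1 :=
  box_mk (TrL.c (I.pos (nat_lit 0) (nat_lit 0)) (xb T5.l5 T5.l5)
  (TrL.c (I.pos (nat_lit 0) (nat_lit 0)) T0.l4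
  (TrL.c (I.mix (nat_lit 29511666) (nat_lit 77433728)) (xR (xR T5.l6 T5.l6) (xR T5.l4 (xb T5.l4 T5.l4)))
  (TrL.c (I.mix (nat_lit 29511666) (nat_lit 46070178)) (xR (xR T0.l5 T0.l5) T0.l1)
  TrL.n)))) (by decide +kernel)
theorem bx2_2 : BoxOK sI cl7 cl4 cl9 t0 t5 b2_2 :=
  box_mk (TrL.c (I.pos (nat_lit 0) (nat_lit 0)) (xb (xa (xb T0.l6 T0.l7) T0.l7) (xa (xb T0.l7 T0.l7) T0.l7))
  (TrL.c (I.pos (nat_lit 0) (nat_lit 0)) T5.l1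
  (TrL.c (I.pos (nat_lit 0) (nat_lit 111196574)) (xR T0.l1 (xR T0.l1 (xR T0.l1 T0.l1)))
  (TrL.c (I.pos (nat_lit 0) (nat_lit 77433728)) (xR T5.l4 T5.l4)
  (TrL.c (I.pos (nat_lit 0) (nat_lit 0)) T5.l7
  (TrL.c (I.pos (nat_lit 0) (nat_lit 0)) T0.l2
  (TrL.c (I.mix (nat_lit 29511666) (nat_lit 77433728)) T5.l4
  (TrL.c (I.mix (nat_lit 29511666) (nat_lit 46070178)) T0.l11
  TrL.n)))))))) (by decide +kernel)
theorem bx2_3 : BoxOK sI cl7 cl4 cl9 t0 t5 b2_3 :=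
  box_mk (TrL.c (I.pos (nat_lit 0) (nat_lit 0)) (xa (xb (xa (xb (xa T0.l7 T0.l7) T0.l7) (xb T0.l7 T0.l7)) (xa (xb T0.l7 (xa T0.l7 T0.l7)) T0.l7)) (xb (xa T0.l7 T0.l7) T0.l7))
  (TrL.c (I.pos (nat_lit 0) (nat_lit 0)) (xa T5.l1 T5.l1)
  (TrL.c (I.pos (nat_lit 0) (nat_lit 111196574)) (xR T0.l11 (xR T0.l1 (xb (xR T0.l1 T0.l1) T0.l1)))
  (TrL.c (I.pos (nat_lit 0) (nat_lit 77433728)) (xR T5.l4 (xR T5.l2 T5.l2))
  (TrL.c (I.pos (nat_lit 0) (nat_lit 0)) (xa (xb T5.l8 T5.l8) (xb (xk T5.l8 T5.l8) T5.l8))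
  (TrL.c (I.pos (nat_lit 0) (nat_lit 0)) T0.l2
  (TrL.c (I.mix (nat_lit 29511666) (nat_lit 77433728)) (xR T5.l4 (xR T5.l4 (xR T5.l4 T5.l4)))
  (TrL.c (I.mix (nat_lit 29511666) (nat_lit 46070178)) T0.l11
  TrL.n)))))))) (by decide +kernel)
theorem c2_4_0 : chkTag sI cl7 cl4 cl9 t0 b2_4 (tg true true false RT.r2) (I.pos (nat_lit 0) (nat_lit 0))
  (xb (xa (xb T0.l7 T0.l7) (xb (xa T0.l7 T0.l0) (xa T0.l7 T0.l7))) (xa (xb (xa T0.l7 T0.l7) (xa (xb T0.l7 T0.l7) (xb T0.l7 T0.l7))) (xb (xa T0.l7 T0.l7) (xa (xb T0.l7 T0.l7) (xb T0.l7 T0.l7))))) = true := by decide +kernel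
theorem c2_4_1 : chkTag sI cl7 cl4 cl9 t5 b2_4 (tg true false false RT.r3) (I.pos (nat_lit 0) (nat_lit 0))
  (xb (xa T5.l1 T5.l1) (xa T5.l1 T5.l1)) = true := by decide +kernel
theorem c2_4_2 : chkTag sI cl7 cl4 cl9 t0 b2_4 (Tag.mk true true false RT.tl RT.r4) (I.pos (nat_lit 0) (nat_lit 111196574))
  (xR T0.l1 (xR T0.l1 (xb T0.l1 (xR T0.l1 T0.l1)))) = true := by decide +kernel
theorem c2_4_3 : chkTag sI cl7 cl4 cl9 t5 b2_4 (Tag.mk true false false RT.tl RT.r5) (I.pos (nat_lit 0) (nat_lit 77433728))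
  (xR T5.l2 (xR T5.l2 (xb T5.l2 T5.l2))) = true := by decide +kernel
def rc2_4_4_l : Tr := (xa (xb (xk T5.l8 T5.l8) T5.l8) (xb (xk (xa T5.l8 T5.l8) T5.l8) (xk (xb T5.l8 T5.l8) (xb T5.l8 (xa T5.l3 T5.l3)))))
theorem qc2_4_4_l : chkTr (tg false false false RT.r3) b2_4 t5 rc2_4_4_l
  (upd lo Co.b (rc sI cl7 cl4 cl9 b2_4 (I.pos (nat_lit 0) (nat_lit 0)))) = true := by decide +kernel
def rc2_4_4_rl : Tr := (xk (xb (xb T5.l8 (xa T5.l8 T5.l3)) (xb (xa T5.l3 (xk T5.l3 T5.l3)) (xa (xk T5.l3 T5.l3) (xk (xb T5.l3 (xs T5.l3 T5.l3)) (xb T5.l3 (xs T5.l3 (xa T5.l3 T5.l3))))))) (xb (xb T5.l8 (xa T5.l8 T5.l3)) (xb (xa (xk T5.l3 T5.l3) (xk T5.l3 (xb T5.l3 T5.l3))) (xa (xk (xb T5.l3 T5.l3) (xb T5.l3 (xs T5.l3 T5.l3))) (xk (xb (xs T5.l3 T5.l3) (xs T5.l3 (xa T5.l3 (xe T5.l3 T5.l3)))) (xb (xs T5.l3 (xa T5.l3 T5.l3)) (xs (xa T5.l3 T5.l3) (xa T5.l3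 (xe (xk T5.l3 T5.l3) T5.l3)))))))))
theorem qc2_4_4_rl : chkTr (tg false false false RT.r3) b2_4 t5 rc2_4_4_rl
  (upd lo Co.a (upd hi Co.b (rc sI cl7 cl4 cl9 b2_4 (I.pos (nat_lit 0) (nat_lit 0))))) = true := by decide +kernel
def rc2_4_4_rrl : Tr := (xb (xb (xa T5.l3 T5.l3) (xa T5.l3 (xk (xb T5.l3 T5.l3) (xb T5.l3 (xa T5.l0 T5.l3))))) (xb (xa (xk (xb T5.l3 T5.l3) (xb T5.l3 (xa T5.l3 T5.l0))) (xk (xb (xa T5.l3 (xs T5.l3 T5.l3)) (xs (xa T5.l0 T5.l3) (xa T5.l0 (xe T5.l0 T5.l0)))) (xb (xa T5.l3 (xs T5.l3 T5.l3)) (xa (xs T5.l0 T5.l0) (xs (xe T5.l0 T5.l0) (xe T5.l0 T5.l0)))))) (xa (xk (xb (xs T5.l3 (xa T5.l3 T5.l3)) (xs (xa T5.l3 (xe T5.l3 T5.l0)) (xa T5.l3 (xe (xk T5.l3 T5.l3) T5.l3)))) (xb (xs (xa T5.l3 T5.l0) (xa T5.l3 T5.l0)) (xs (xa T5.l0 T5.l0) (xa (xe T5.l3 T5.l3) (xe (xk T5.l0 T5.l0) T5.l0))))) (xk (xb (xs (xa T5.l0 (xe T5.l0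 T5.l0)) (xa T5.l0 (xe T5.l0 T5.l0))) (xs (xa T5.l0 (xe T5.l0 T5.l0)) (xa (xe (xk (xb T5.l0 T5.l3) T5.l0) (xk T5.l3 T5.l0)) (xe (xk (xb T5.l0 (xs T5.l0 (xa T5.l0 T5.l0))) T5.l0) (xk (xb T5.l0 T5.l0) T5.l0))))) (xb (xs (xa T5.l0 (xe T5.l0 T5.l0)) (xa T5.l0 (xe T5.l0 T5.l0))) (xs (xa T5.l0 (xe T5.l0 T5.l0)) (xa T5.l0 (xe T5.l0 T5.l0))))))))
theorem qc2_4_4_rrl : chkTr (tg false false false RT.r3) b2_4 t5 rc2_4_4_rrl
  (upd lo Co.k (upd hi Co.a (upd hi Co.b (rc sI cl7 cl4 cl9 b2_4 (I.pos (nat_lit 0) (nat_lit 0)))))) = true := by decide +kernel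
def rc2_4_4_rrr : Tr := (xb (xb (xa T5.l3 (xk T5.l3 T5.l3)) (xa (xk T5.l3 T5.l3) (xk (xb T5.l3 (xa T5.l0 T5.l3)) (xb T5.l3 (xa T5.l0 (xs T5.l0 T5.l0)))))) (xb (xa (xk (xb T5.l3 (xa T5.l3 T5.l0)) (xb (xa T5.l3 T5.l3) (xa (xs T5.l3 T5.l3) (xs T5.l0 (xe T5.l0 T5.l0))))) (xk (xb (xa T5.l0 (xs T5.l3 T5.l0)) (xa T5.l0 (xs (xe T5.l0 T5.l0) T5.l0))) (xb (xa T5.l0 (xs T5.l0 T5.l0)) (xa T5.l0 (xs T5.l0 T5.l0))))) (xa (xk (xb (xs (xa T5.l3 T5.l0) (xa (xe T5.l3 T5.l3) T5.l0)) (xs (xa T5.l0 T5.l0) (xa (xe (xk T5.l0 T5.l0) (xk T5.l0 T5.l0)) T5.l0))) (xb (xs (xa T5.l3 T5.l0) (xa (xe T5.l3 T5.l3) T5.l0)) (xs (xa (xe T5.l0 T5.l0) T5.l0) (xa (xe (xk T5.l0 T5.l0) (xk T5.l0 T5.l0)) (xe (xk T5.l0 T5.l0) (xk T5.l0 T5.l0)))))) (xk (xb (xs (xa T5.l0 (xe T5.l0 T5.l0)) (xa T5.l0 (xe T5.l0 T5.l0))) (xs (xa T5.l0 (xe T5.l0 T5.l0)) (xa T5.l0 (xe T5.l0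 T5.l0)))) (xb (xs (xa T5.l0 T5.l0) (xa T5.l0 T5.l0)) (xs (xa T5.l0 T5.l0) (xa (xe (xk T5.l0 T5.l0) (xk T5.l0 T5.l0)) (xe (xk T5.l0 T5.l0) (xk T5.l0 T5.l0)))))))))
theorem qc2_4_4_rrr : chkTr (tg false false false RT.r3) b2_4 t5 rc2_4_4_rrr
  (upd hi Co.k (upd hi Co.a (upd hi Co.b (rc sI cl7 cl4 cl9 b2_4 (I.pos (nat_lit 0) (nat_lit 0)))))) = true := by decide +kernel
theorem qc2_4_4_rr : chkTr (tg false false false RT.r3) b2_4 t5 (Tr.N Co.k rc2_4_4_rrl rc2_4_4_rrr)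
  (upd hi Co.a (upd hi Co.b (rc sI cl7 cl4 cl9 b2_4 (I.pos (nat_lit 0) (nat_lit 0))))) = true := tr_split qc2_4_4_rrl qc2_4_4_rrr
theorem qc2_4_4_r : chkTr (tg false false false RT.r3) b2_4 t5 (Tr.N Co.a rc2_4_4_rl (Tr.N Co.k rc2_4_4_rrl rc2_4_4_rrr))
  (upd hi Co.b (rc sI cl7 cl4 cl9 b2_4 (I.pos (nat_lit 0) (nat_lit 0)))) = true := tr_split qc2_4_4_rl qc2_4_4_rr
theorem qc2_4_4_ : chkTr (tg false false false RT.r3) b2_4 t5 (Tr.N Co.b rc2_4_4_l (Tr.N Co.a rc2_4_4_rl (Tr.N Co.k rc2_4_4_rrl rc2_4_4_rrr)))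
  (rc sI cl7 cl4 cl9 b2_4 (I.pos (nat_lit 0) (nat_lit 0))) = true := tr_split qc2_4_4_l qc2_4_4_r
theorem c2_4_4 : chkTag sI cl7 cl4 cl9 t5 b2_4 (tg false false false RT.r3) (I.pos (nat_lit 0) (nat_lit 0))
  (Tr.N Co.b rc2_4_4_l (Tr.N Co.a rc2_4_4_rl (Tr.N Co.k rc2_4_4_rrl rc2_4_4_rrr))) = true := tag_mk (by decide +kernel) qc2_4_4_
theorem c2_4_5 : chkTag sI cl7 cl4 cl9 t0 b2_4 (tg false true false RT.r4) (I.pos (nat_lit 0) (nat_lit 0))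
  (xb T0.l2 T0.l2) = true := by decide +kernel
theorem c2_4_6 : chkTag sI cl7 cl4 cl9 t5 b2_4 (Tag.mk false false false RT.tl RT.r5) (I.mix (nat_lit 29511666) (nat_lit 77433728))
  (xR T5.l4 (xR T5.l4 (xR T5.l4 T5.l4))) = true := by decide +kernel
theorem c2_4_7 : chkTag sI cl7 cl4 cl9 t0 b2_4 (Tag.mk false true false RT.tl RT.r6) (I.mix (nat_lit 29511666) (nat_lit 46070178))
  (xR T0.l3 (xR T0.l3 T0.l3)) = true := by decide +kernel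
theorem bx2_4 : BoxOK sI cl7 cl4 cl9 t0 t5 b2_4 :=
  box_mk' [(tg true true false RT.r2), (tg true false false RT.r3), (Tag.mk true true false RT.tl RT.r4), (Tag.mk true false false RT.tl RT.r5), (tg false false false RT.r3), (tg false true false RT.r4), (Tag.mk false false false RT.tl RT.r5), (Tag.mk false true false RT.tl RT.r6)] rfl (allL_c (ex_mk c2_4_0) (allL_c (ex_mk c2_4_1) (allL_c (ex_mk c2_4_2) (allL_c (ex_mk c2_4_3) (allL_c (ex_mk c2_4_4) (allL_c (ex_mk c2_4_5) (allL_c (ex_mk c2_4_6) (allL_c (ex_mk c2_4_7) allL_n))))))))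
theorem bx2_5 : BoxOK sI cl7 cl4 cl9 t0 t5 b2_5 :=
  box_mk (TrL.c (I.pos (nat_lit 0) (nat_lit 0)) (xa T5.l1 T5.l1)
  (TrL.c (I.pos (nat_lit 0) (nat_lit 0)) T0.l4
  (TrL.c (I.mix (nat_lit 29511666) (nat_lit 77433728)) (xR (xR (xk (xR T5.l6 T5.l6) T5.l6) T5.l4) (xR T5.l2 (xR T5.l2 T5.l2)))
  (TrL.c (I.mix (nat_lit 29511666) (nat_lit 46070178)) (xR (xR T0.l5 T0.l5) T0.l1)
  TrL.n)))) (by decide +kernel)
theorem bx2_6 : BoxOK sI cl7 cl4 cl9 t0 t5 b2_6 :=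
  box_mk (TrL.c (I.pos (nat_lit 0) (nat_lit 0)) (xa (xb (xa (xb T0.l0 T0.l0) T0.l0) (xa T0.l0 T0.l0)) (xb (xa T0.l0 (xb T0.l0 T0.l0)) (xa T0.l0 (xb T0.l0 T0.l0))))
  (TrL.c (I.pos (nat_lit 0) (nat_lit 0)) (xa T5.l1 (xb T5.l10 (xk T5.l1 T5.l1)))
  (TrL.c (I.pos (nat_lit 0) (nat_lit 111196574)) (xR (xR T0.l1 T0.l1) (xR T0.l1 (xR T0.l1 (xa T0.l1 T0.l1))))
  (TrL.c (I.pos (nat_lit 0) (nat_lit 77433728)) (xR (xR T5.l2 T5.l2) (xR T5.l2 (xR T5.l2 T5.l2)))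
  (TrL.c (I.pos (nat_lit 0) (nat_lit 0)) (xa (xb (xk (xa (xb T5.l3 T5.l3) (xb (xk T5.l3 T5.l3) T5.l3)) (xa (xb T5.l3 T5.l3) (xb (xk T5.l3 T5.l3) T5.l3))) (xk (xa T5.l3 T5.l3) (xa T5.l3 T5.l3))) (xb (xk (xa (xb (xk (xa T5.l3 T5.l3) (xa T5.l3 T5.l3)) T5.l3) (xb (xk (xa T5.l3 (xb T5.l3 T5.l3)) (xa T5.l3 T5.l3)) (xk (xa T5.l3 T5.l3) (xa T5.l3 T5.l3)))) (xa (xb (xk (xa T5.l3 T5.l3) (xa T5.l3 T5.l3)) T5.l3) (xb (xk (xa T5.l3 T5.l3) (xa T5.l3 (xb T5.l3 T5.l3))) (xk T5.l3 T5.l3)))) (xk (xa (xb T5.l3 T5.l3) (xb (xk (xa T5.l3 T5.l3) T5.l3) (xk (xa T5.l3 T5.l3) (xa T5.l3 T5.l3)))) (xa (xb T5.l3 T5.l3) (xb (xk T5.l3 T5.l3) (xk (xa T5.l3 T5.l3) (xa T5.l3 T5.l3)))))))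
  (TrL.c (I.pos (nat_lit 0) (nat_lit 0)) (xa T0.l2 (xb T0.l2 T0.l2))
  (TrL.c (I.mix (nat_lit 29511666) (nat_lit 77433728)) (xR (xR T5.l4 T5.l4) (xR T5.l4 (xR (xk T5.l4 T5.l4) (xk (xb T5.l4 T5.l4) T5.l4))))
  (TrL.c (I.mix (nat_lit 29511666) (nat_lit 46070178)) (xR (xR T0.l3 T0.l3) (xR T0.l3 (xR T0.l3 T0.l9)))
  TrL.n)))))))) (by decide +kernel)
theorem bx2_7 : BoxOK sI cl7 cl4 cl9 t0 t5 b2_7 :=
  box_mk (TrL.c (I.pos (nat_lit 0) (nat_lit 0)) (xb (xa (xb (xa T0.l6 T0.l6) T0.l6) T0.l6) (xa (xb T0.l6 (xa T0.l6 T0.l6)) (xb T0.l6 T0.l6)))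
  (TrL.c (I.pos (nat_lit 0) (nat_lit 0)) T5.l5
  (TrL.c (I.pos (nat_lit 0) (nat_lit 111196574)) (xR T0.l1 (xR T0.l1 (xb T0.l1 T0.l1)))
  (TrL.c (I.pos (nat_lit 0) (nat_lit 77433728)) T5.l4
  (TrL.c (I.pos (nat_lit 0) (nat_lit 0)) T5.l7
  (TrL.c (I.pos (nat_lit 0) (nat_lit 0)) T0.l2
  (TrL.c (I.mix (nat_lit 29511666) (nat_lit 77433728)) (xR T5.l4 T5.l4)
  (TrL.c (I.mix (nat_lit 29511666) (nat_lit 46070178)) T0.l11
  TrL.n)))))))) (by decide +kernel)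
theorem bx2_8 : BoxOK sI cl7 cl4 cl9 t0 t5 b2_8 :=
  box_mk (TrL.c (I.pos (nat_lit 0) (nat_lit 0)) (xa (xb T0.l0 (xb T0.l0 (xa T0.l0 T0.l0))) (xb T0.l0 (xa T0.l0 T0.l0)))
  (TrL.c (I.pos (nat_lit 0) (nat_lit 0)) (xk T5.l1 T5.l1)
  (TrL.c (I.pos (nat_lit 0) (nat_lit 111196574)) (xR T0.l1 (xR T0.l1 T0.l1))
  (TrL.c (I.pos (nat_lit 0) (nat_lit 77433728)) (xR T5.l2 (xR T5.l2 T5.l2))
  (TrL.c (I.pos (nat_lit 0) (nat_lit 0)) (xb (xk (xa T5.l3 T5.l3) (xa T5.l3 T5.l3)) (xk (xa T5.l3 (xb T5.l3 (xk T5.l3 T5.l3))) (xa T5.l3 (xb T5.l3 (xk (xa T5.l3 T5.l3) (xa T5.l3 T5.l3))))))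
  (TrL.c (I.pos (nat_lit 0) (nat_lit 0)) T0.l2
  (TrL.c (I.mix (nat_lit 29511666) (nat_lit 77433728)) (xR T5.l4 (xR T5.l4 T5.l4))
  (TrL.c (I.mix (nat_lit 29511666) (nat_lit 46070178)) (xR T0.l3 T0.l3)
  TrL.n)))))))) (by decide +kernel)
theorem bx2_9 : BoxOK sI cl7 cl4 cl9 t0 t5 b2_9 :=
  box_mk (TrL.c (I.pos (nat_lit 0) (nat_lit 0)) (xb (xa T0.l6 T0.l7) T0.l7)
  (TrL.c (I.pos (nat_lit 0) (nat_lit 0)) T5.l1
  (TrL.c (I.pos (nat_lit 0) (nat_lit 111196574)) (xR T0.l1 T0.l1)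
  (TrL.c (I.pos (nat_lit 0) (nat_lit 77433728)) (xR T5.l2 T5.l2)
  (TrL.c (I.pos (nat_lit 0) (nat_lit 0)) T5.l7
  (TrL.c (I.pos (nat_lit 0) (nat_lit 0)) T0.l2
  (TrL.c (I.mix (nat_lit 29511666) (nat_lit 77433728)) T5.l4
  (TrL.c (I.mix (nat_lit 29511666) (nat_lit 46070178)) T0.l11
  TrL.n)))))))) (by decide +kernel)
theorem sv2 : StarV sI cl7 cl4 cl9 t0 t5 t2 :=
  (bt_n (bt_n (bt_n (bt_b bx2_0) (bt_b bx2_1)) (bt_n (bt_b bx2_2) (bt_n (bt_b bx2_3) (bt_b bx2_4)))) (bt_n (bt_n (bt_b bx2_5) (bt_b bx2_6)) (bt_n (bt_b bx2_7) (bt_n (bt_b bx2_8) (bt_b bx2_9)))))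
def S2 : StarD := StarD.mk cl7 cl4 cl9 0 5 t2
theorem c3_0_0 : chkTag sI cl7 cl9 cl4 t5 b3_0 (tg true true false RT.r2) (I.pos (nat_lit 0) (nat_lit 0))
  (xa (xb (xa (xb (xa T5.l0 T5.l0) (xc T5.l0 T5.l0)) (xb (xa T5.l0 (xb T5.l0 T5.l0)) (xa T5.l0 T5.l0))) (xa (xb (xc (xa T5.l0 T5.l0) T5.l0) (xa (xc T5.l0 T5.l0) (xc T5.l0 T5.l0))) (xb (xc T5.l0 T5.l0) (xa (xc T5.l0 T5.l0) T5.l0)))) (xb (xa (xb (xa T5.l0 (xb (xc T5.l0 T5.l0) T5.l0)) (xa T5.l0 (xb T5.l0 T5.l0))) (xb (xa (xb T5.l0 T5.l0) (xb (xc T5.l0 (xk T5.l0 T5.l0)) (xc T5.l0 (xs T5.l0 T5.l0)))) (xa (xb (xc T5.l0 (xs T5.l0 T5.l0)) (xc T5.l0 T5.l0)) (xb (xc T5.l0 (xs T5.l0 T5.l0)) (xc T5.l0 (xs T5.l0 T5.l0)))))) (xa (xb (xa T5.l0 (xb T5.l0 T5.l0)) (xc T5.l0 (xa T5.l0 T5.l0))) (xb (xa (xb T5.l0 T5.l0) (xb (xc T5.l0 T5.l0) T5.l0)) (xc T5.l0 (xa T5.l0 T5.l0)))))) = true := by decide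 +kernel
theorem c3_0_1 : chkTag sI cl7 cl9 cl4 t0 b3_0 (tg true false false RT.r3) (I.pos (nat_lit 0) (nat_lit 0))
  (xa (xk (xb T0.l8 T0.l8) T0.l8) (xk (xb T0.l8 T0.l8) T0.l8)) = true := by decide +kernel
theorem c3_0_2 : chkTag sI cl7 cl9 cl4 t5 b3_0 (Tag.mk true true false RT.tl RT.r4) (I.pos (nat_lit 0) (nat_lit 111196574))
  (xR (xR T5.l4 T5.l9) (xR T5.l4 (xR T5.l4 T5.l4))) = true := by decide +kernel
theorem c3_0_3 : chkTag sI cl7 cl9 cl4 t0 b3_0 (Tag.mk true false false RT.tl RT.r5) (I.pos (nat_lit 0) (nat_lit 77433728))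
  (xR (xR T0.l9 T0.l9) (xR T0.l9 (xR T0.l9 T0.l9))) = true := by decide +kernel
theorem c3_0_4 : chkTag sI cl7 cl9 cl4 t0 b3_0 (tg false false false RT.r3) (I.pos (nat_lit 0) (nat_lit 0))
  (xa (xk (xb T0.l13 T0.l10) (xb T0.l13 T0.l10)) (xk (xb T0.l10 (xb T0.l10 (xa T0.l10 (xk T0.l10 T0.l10)))) (xb T0.l10 (xb T0.l10 (xa T0.l10 (xk (xb T0.l10 T0.l10) (xb T0.l10 (xa T0.l10 T0.l10)))))))) = true := by decide +kernel
theorem c3_0_5 : chkTag sI cl7 cl9 cl4 t5 b3_0 (tg false true false RT.r4) (I.pos (nat_lit 0) (nat_lit 0))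
  T5.l10 = true := by decide +kernel
theorem c3_0_6 : chkTag sI cl7 cl9 cl4 t0 b3_0 (Tag.mk false false false RT.tl RT.r5) (I.mix (nat_lit 29511666) (nat_lit 77433728))
  (xR T0.l11 (xR T0.l11 (xR T0.l11 T0.l11))) = true := by decide +kernel
theorem c3_0_7 : chkTag sI cl7 cl9 cl4 t5 b3_0 (Tag.mk false true false RT.tl RT.r6) (I.mix (nat_lit 29511666) (nat_lit 46070178))
  (xR T5.l11 T5.l2) = true := by decide +kernel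
theorem bx3_0 : BoxOK sI cl7 cl9 cl4 t5 t0 b3_0 :=
  box_mk' [(tg true true false RT.r2), (tg true false false RT.r3), (Tag.mk true true false RT.tl RT.r4), (Tag.mk true false false RT.tl RT.r5), (tg false false false RT.r3), (tg false true false RT.r4), (Tag.mk false false false RT.tl RT.r5), (Tag.mk false true false RT.tl RT.r6)] rfl (allL_c (ex_mk c3_0_0) (allL_c (ex_mk c3_0_1) (allL_c (ex_mk c3_0_2) (allL_c (ex_mk c3_0_3) (allL_c (ex_mk c3_0_4) (allL_c (ex_mk c3_0_5) (allL_c (ex_mk c3_0_6) (allL_c (ex_mk c3_0_7) allL_n))))))))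
theorem bx3_1 : BoxOK sI cl7 cl9 cl4 t5 t0 b3_1 :=
  box_mk (TrL.c (I.pos (nat_lit 0) (nat_lit 0)) (xa (xb (xa T5.l12 T5.l12) (xa T5.l12 T5.l12)) (xb (xa T5.l12 T5.l0) (xa T5.l12 T5.l0)))
  (TrL.c (I.pos (nat_lit 0) (nat_lit 0)) (xa (xb T0.l8 T0.l8) (xb T0.l8 T0.l8))
  (TrL.c (I.pos (nat_lit 0) (nat_lit 111196574)) (xR (xR T5.l4 T5.l9) (xR T5.l9 (xR T5.l9 T5.l9)))
  (TrL.c (I.pos (nat_lit 0) (nat_lit 77433728)) (xR (xR T0.l9 T0.l9) T0.l9)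
  (TrL.c (I.pos (nat_lit 0) (nat_lit 0)) (xa (xb (xk T0.l12 T0.l12) T0.l12) (xk (xb T0.l12 T0.l13) (xb T0.l12 T0.l13)))
  (TrL.c (I.pos (nat_lit 0) (nat_lit 0)) T5.l10
  (TrL.c (I.mix (nat_lit 29511666) (nat_lit 77433728)) (xR T0.l11 (xR T0.l11 (xR T0.l11 T0.l11)))
  (TrL.c (I.mix (nat_lit 29511666) (nat_lit 46070178)) (xR T5.l11 T5.l11)
  TrL.n)))))))) (by decide +kernel)
theorem bx3_2 : BoxOK sI cl7 cl9 cl4 t5 t0 b3_2 :=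
  box_mk (TrL.c (I.pos (nat_lit 0) (nat_lit 0)) (xa T5.l12 T5.l12)
  (TrL.c (I.pos (nat_lit 0) (nat_lit 0)) (xa T0.l8 T0.l8)
  (TrL.c (I.pos (nat_lit 0) (nat_lit 111196574)) (xR T5.l4 (xR T5.l9 T5.l9))
  (TrL.c (I.pos (nat_lit 0) (nat_lit 77433728)) (xR T0.l9 (xR T0.l9 T0.l9))
  (TrL.c (I.pos (nat_lit 0) (nat_lit 0)) (xa (xa T0.l8 T0.l12) (xa T0.l12 T0.l12))
  (TrL.c (I.pos (nat_lit 0) (nat_lit 0)) T5.l10
  (TrL.c (I.mix (nat_lit 29511666) (nat_lit 77433728)) (xR T0.l11 (xR T0.l11 (xa T0.l11 T0.l11)))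
  (TrL.c (I.mix (nat_lit 29511666) (nat_lit 46070178)) T5.l11
  TrL.n)))))))) (by decide +kernel)
theorem bx3_3 : BoxOK sI cl7 cl9 cl4 t5 t0 b3_3 :=
  box_mk (TrL.c (I.pos (nat_lit 0) (nat_lit 0)) (xb (xa (xb (xa (xb T5.l13 T5.l13) (xb T5.l13 T5.l13)) (xa T5.l13 T5.l13)) (xb (xa (xb T5.l13 T5.l13) (xb T5.l0 (xa T5.l0 T5.l0))) (xa T5.l13 T5.l13))) (xa (xb (xa T5.l13 T5.l13) (xa (xb T5.l13 T5.l13) (xb T5.l13 T5.l13))) (xb (xa T5.l13 T5.l13) (xa (xb T5.l13 T5.l13) (xk T5.l13 T5.l13)))))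
  (TrL.c (I.pos (nat_lit 0) (nat_lit 0)) (xb (xk T0.l8 T0.l8) (xk T0.l8 T0.l8))
  (TrL.c (I.pos (nat_lit 0) (nat_lit 111196574)) (xR (xR T5.l4 T5.l4) (xR T5.l4 (xR T5.l4 T5.l4)))
  (TrL.c (I.pos (nat_lit 0) (nat_lit 77433728)) (xR (xR T0.l9 T0.l9) (xR T0.l9 (xR T0.l9 T0.l9)))
  (TrL.c (I.pos (nat_lit 0) (nat_lit 0)) (xb (xk (xa T0.l13 T0.l13) (xa T0.l13 T0.l13)) (xk T0.l10 T0.l10))
  (TrL.c (I.pos (nat_lit 0) (nat_lit 0)) T5.l10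
  (TrL.c (I.mix (nat_lit 29511666) (nat_lit 77433728)) (xR T0.l11 (xR T0.l11 (xR T0.l11 T0.l11)))
  (TrL.c (I.mix (nat_lit 29511666) (nat_lit 46070178)) (xR T5.l11 T5.l2)
  TrL.n)))))))) (by decide +kernel)
theorem bx3_4 : BoxOK sI cl7 cl9 cl4 t5 t0 b3_4 :=
  box_mk (TrL.c (I.pos (nat_lit 0) (nat_lit 0)) (xa (xa (xb (xa (xb T5.l12 T5.l12) T5.l12) (xa (xb T5.l12 (xa T5.l12 T5.l12)) (xb T5.l12 T5.l12))) (xb T5.l12 (xa T5.l12 T5.l12))) (xa (xb T5.l12 (xa T5.l12 T5.l12)) (xb T5.l12 (xa (xb T5.l12 (xa T5.l12 T5.l12)) (xb T5.l12 (xa T5.l12 T5.l12))))))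
  (TrL.c (I.pos (nat_lit 0) (nat_lit 0)) (xa (xa T0.l8 T0.l8) (xa T0.l8 T0.l8))
  (TrL.c (I.pos (nat_lit 0) (nat_lit 111196574)) (xR T5.l4 (xa T5.l9 T5.l9))
  (TrL.c (I.pos (nat_lit 0) (nat_lit 77433728)) (xR T0.l9 (xR T0.l9 T0.l9))
  (TrL.c (I.pos (nat_lit 0) (nat_lit 0)) (xa (xa T0.l12 T0.l12) T0.l12)
  (TrL.c (I.pos (nat_lit 0) (nat_lit 0)) T5.l10
  (TrL.c (I.mix (nat_lit 29511666) (nat_lit 77433728)) (xR T0.l11 (xR T0.l11 (xa T0.l11 T0.l11)))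
  (TrL.c (I.mix (nat_lit 29511666) (nat_lit 46070178)) T5.l11
  TrL.n)))))))) (by decide +kernel)
theorem bx3_5 : BoxOK sI cl7 cl9 cl4 t5 t0 b3_5 :=
  box_mk (TrL.c (I.pos (nat_lit 0) (nat_lit 0)) (xb (xa (xb (xa (xb (xa (xs T5.l0 T5.l0) (xs T5.l0 T5.l0)) (xa (xs T5.l0 T5.l0) (xs T5.l0 T5.l0))) (xb (xa (xs T5.l0 (xc T5.l0 T5.l0)) (xs T5.l0 (xc T5.l0 T5.l0))) (xa (xs T5.l0 T5.l0) (xs T5.l0 T5.l0)))) (xa (xb T5.l13 T5.l13) (xb (xa T5.l0 T5.l0) (xa T5.l0 T5.l0)))) (xb (xa (xb (xa T5.l0 T5.l0) (xa (xs T5.l0 T5.l0) (xs T5.l0 T5.l0))) (xb (xa T5.l0 T5.l0) (xa (xs T5.l0 T5.l0) (xs T5.l0 T5.l0)))) (xa (xb T5.l0 T5.l0) (xb T5.l0 T5.l0)))) (xa (xb (xa T5.l13 T5.l13) (xa T5.l13 T5.l13)) (xb (xa T5.l13 T5.l13) (xa T5.l13 T5.l13))))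
  (TrL.c (I.pos (nat_lit 0) (nat_lit 0)) (xb (xk T0.l8 T0.l8) (xk T0.l8 T0.l8))
  (TrL.c (I.pos (nat_lit 0) (nat_lit 111196574)) (xR (xR T5.l4 T5.l9) (xR T5.l4 T5.l4))
  (TrL.c (I.pos (nat_lit 0) (nat_lit 77433728)) (xR (xR T0.l9 T0.l9) (xR T0.l9 (xR T0.l9 T0.l9)))
  (TrL.c (I.pos (nat_lit 0) (nat_lit 0)) (xb (xk (xa T0.l13 T0.l13) (xa T0.l13 T0.l13)) (xk (xa T0.l13 T0.l13) (xa T0.l13 T0.l13)))
  (TrL.c (I.pos (nat_lit 0) (nat_lit 0)) T5.l10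
  (TrL.c (I.mix (nat_lit 29511666) (nat_lit 77433728)) (xR T0.l11 (xR T0.l11 (xR T0.l11 T0.l11)))
  (TrL.c (I.mix (nat_lit 29511666) (nat_lit 46070178)) (xR (xR T5.l11 T5.l11) T5.l2)
  TrL.n)))))))) (by decide +kernel)
theorem bx3_6 : BoxOK sI cl7 cl9 cl4 t5 t0 b3_6 :=
  box_mk (TrL.c (I.pos (nat_lit 0) (nat_lit 0)) (xa (xa T5.l12 T5.l12) (xa T5.l12 T5.l12))
  (TrL.c (I.pos (nat_lit 0) (nat_lit 0)) (xa T0.l8 T0.l8)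
  (TrL.c (I.pos (nat_lit 0) (nat_lit 111196574)) (xR T5.l4 (xR T5.l9 (xa T5.l9 T5.l9)))
  (TrL.c (I.pos (nat_lit 0) (nat_lit 77433728)) (xR T0.l11 (xR T0.l9 T0.l9))
  (TrL.c (I.pos (nat_lit 0) (nat_lit 0)) (xa (xa T0.l12 T0.l12) T0.l12)
  (TrL.c (I.pos (nat_lit 0) (nat_lit 0)) T5.l10
  (TrL.c (I.mix (nat_lit 29511666) (nat_lit 77433728)) (xR T0.l11 (xR T0.l11 (xa T0.l11 T0.l11)))
  (TrL.c (I.mix (nat_lit 29511666) (nat_lit 46070178)) T5.l4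
  TrL.n)))))))) (by decide +kernel)
theorem bx3_7 : BoxOK sI cl7 cl9 cl4 t5 t0 b3_7 :=
  box_mk (TrL.c (I.pos (nat_lit 0) (nat_lit 0)) (xa (xb T5.l12 T5.l12) (xb T5.l0 T5.l0))
  (TrL.c (I.pos (nat_lit 0) (nat_lit 0)) T0.l8
  (TrL.c (I.pos (nat_lit 0) (nat_lit 111196574)) (xR (xR T5.l4 T5.l9) T5.l9)
  (TrL.c (I.pos (nat_lit 0) (nat_lit 77433728)) (xR (xR T0.l9 T0.l9) T0.l9)
  (TrL.c (I.pos (nat_lit 0) (nat_lit 0)) (xk (xb T0.l12 T0.l13) (xb T0.l12 T0.l13))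
  (TrL.c (I.pos (nat_lit 0) (nat_lit 0)) T5.l10
  (TrL.c (I.mix (nat_lit 29511666) (nat_lit 77433728)) (xR T0.l11 T0.l1)
  (TrL.c (I.mix (nat_lit 29511666) (nat_lit 46070178)) (xR T5.l11 T5.l11)
  TrL.n)))))))) (by decide +kernel)
theorem bx3_8 : BoxOK sI cl7 cl9 cl4 t5 t0 b3_8 :=
  box_mk (TrL.c (I.pos (nat_lit 0) (nat_lit 0)) (xa T5.l0 T5.l13)
  (TrL.c (I.pos (nat_lit 0) (nat_lit 0)) T0.l8
  (TrL.c (I.pos (nat_lit 0) (nat_lit 111196574)) (xR (xR T5.l4 T5.l9) T5.l9)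
  (TrL.c (I.pos (nat_lit 0) (nat_lit 77433728)) (xR (xR T0.l9 T0.l9) T0.l9)
  (TrL.c (I.pos (nat_lit 0) (nat_lit 0)) (xk T0.l13 T0.l13)
  (TrL.c (I.pos (nat_lit 0) (nat_lit 0)) T5.l10
  (TrL.c (I.mix (nat_lit 29511666) (nat_lit 77433728)) (xR T0.l11 T0.l1)
  (TrL.c (I.mix (nat_lit 29511666) (nat_lit 46070178)) (xR T5.l11 T5.l11)
  TrL.n)))))))) (by decide +kernel)
theorem bx3_9 : BoxOK sI cl7 cl9 cl4 t5 t0 b3_9 :=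
  box_mk (TrL.c (I.pos (nat_lit 0) (nat_lit 0)) (xa (xb T5.l12 T5.l12) (xb T5.l12 (xa T5.l12 T5.l12)))
  (TrL.c (I.pos (nat_lit 0) (nat_lit 0)) (xa T0.l8 T0.l8)
  (TrL.c (I.pos (nat_lit 0) (nat_lit 111196574)) (xR T5.l4 T5.l9)
  (TrL.c (I.pos (nat_lit 0) (nat_lit 77433728)) (xR T0.l9 T0.l9)
  (TrL.c (I.pos (nat_lit 0) (nat_lit 0)) T0.l12
  (TrL.c (I.pos (nat_lit 0) (nat_lit 0)) T5.l10
  (TrL.c (I.mix (nat_lit 29511666) (nat_lit 77433728)) (xR T0.l11 T0.l11)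
  (TrL.c (I.mix (nat_lit 29511666) (nat_lit 46070178)) T5.l11
  TrL.n)))))))) (by decide +kernel)
theorem bx3_10 : BoxOK sI cl7 cl9 cl4 t5 t0 b3_10 :=
  box_mk (TrL.c (I.pos (nat_lit 0) (nat_lit 0)) (xb (xa (xb (xb (xa T5.l12 T5.l12) T5.l12) T5.l12) (xb (xb (xa T5.l0 T5.l0) T5.l12) T5.l12)) (xa (xb T5.l12 T5.l12) (xb T5.l12 T5.l12)))
  (TrL.c (I.pos (nat_lit 0) (nat_lit 0)) (xb (xk T0.l8 T0.l8) T0.l8)
  (TrL.c (I.pos (nat_lit 0) (nat_lit 111196574)) (xR (xR T5.l4 T5.l9) (xR T5.l9 (xR T5.l9 T5.l9)))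
  (TrL.c (I.pos (nat_lit 0) (nat_lit 77433728)) (xR (xR T0.l9 T0.l9) T0.l9)
  (TrL.c (I.pos (nat_lit 0) (nat_lit 0)) (xb (xa (xk T0.l12 T0.l12) (xk T0.l12 T0.l12)) (xk T0.l12 T0.l12))
  (TrL.c (I.pos (nat_lit 0) (nat_lit 0)) T5.l10
  (TrL.c (I.mix (nat_lit 29511666) (nat_lit 77433728)) (xR T0.l11 (xR T0.l11 T0.l11))
  (TrL.c (I.mix (nat_lit 29511666) (nat_lit 46070178)) (xR T5.l11 T5.l11)
  TrL.n)))))))) (by decide +kernel)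
theorem bx3_11 : BoxOK sI cl7 cl9 cl4 t5 t0 b3_11 :=
  box_mk (TrL.c (I.pos (nat_lit 0) (nat_lit 0)) (xa (xa (xb (xa T5.l12 T5.l12) T5.l12) T5.l12) T5.l12)
  (TrL.c (I.pos (nat_lit 0) (nat_lit 0)) (xa T0.l8 T0.l8)
  (TrL.c (I.pos (nat_lit 0) (nat_lit 111196574)) (xR T5.l4 (xR T5.l4 (xa T5.l9 T5.l9)))
  (TrL.c (I.pos (nat_lit 0) (nat_lit 77433728)) (xR T0.l11 (xR T0.l9 T0.l9))
  (TrL.c (I.pos (nat_lit 0) (nat_lit 0)) (xa (xa T0.l8 T0.l12) (xa T0.l12 T0.l12))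
  (TrL.c (I.pos (nat_lit 0) (nat_lit 0)) T5.l10
  (TrL.c (I.mix (nat_lit 29511666) (nat_lit 77433728)) (xR T0.l11 (xR T0.l11 (xa T0.l9 T0.l11)))
  (TrL.c (I.mix (nat_lit 29511666) (nat_lit 46070178)) T5.l4
  TrL.n)))))))) (by decide +kernel)
theorem c3_12_0 : chkTag sI cl7 cl9 cl4 t5 b3_12 (tg true true false RT.r2) (I.pos (nat_lit 0) (nat_lit 0))
  (xa (xb (xa (xb (xa T5.l0 T5.l0) (xa T5.l0 T5.l0)) (xb (xa T5.l0 T5.l0) (xa T5.l0 T5.l0))) (xa (xb (xa T5.l0 T5.l0) (xa (xc T5.l0 T5.l0) (xc T5.l0 T5.l0))) (xb (xa T5.l0 T5.l0) (xa (xc T5.l0 T5.l0) (xc T5.l0 T5.l0))))) (xa (xb (xa (xb T5.l0 T5.l0) (xb (xc T5.l0 (xb T5.l0 T5.l0)) (xc T5.l0 (xb T5.l0 T5.l3)))) (xa (xb (xc T5.l0 T5.l0) (xc T5.l0 (xk T5.l0 T5.l0))) (xb (xc (xk T5.l0 T5.l0) (xk T5.l3 T5.l0)) (xc (xk T5.l3 T5.l0) (xk T5.l3 (xb T5.l0 T5.l0)))))) (xb (xa (xb (xb (xc (xa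 T5.l0 T5.l0) (xa T5.l0 (xk T5.l3 T5.l0))) (xc T5.l3 (xa T5.l0 T5.l3))) (xb (xc T5.l3 (xa T5.l0 T5.l3)) (xc T5.l3 T5.l3))) (xb (xc (xb (xa T5.l3 (xk T5.l3 T5.l0)) (xa T5.l3 T5.l3)) (xk (xb (xa T5.l3 T5.l3) T5.l3) (xb (xa T5.l0 (xs T5.l0 T5.l0)) (xa T5.l0 T5.l3)))) (xc (xb T5.l3 T5.l3) (xk (xb T5.l3 T5.l3) (xb T5.l3 T5.l3))))) (xa (xb (xb T5.l3 T5.l3) (xc T5.l3 (xb T5.l3 T5.l3))) (xb (xc T5.l3 (xk (xa T5.l3 T5.l3) (xb T5.l3 T5.l3))) (xc (xk T5.l3 T5.l3) (xk (xa T5.l3 T5.l3) T5.l3))))))) = true := by decide +kernel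
theorem c3_12_1 : chkTag sI cl7 cl9 cl4 t0 b3_12 (tg true false false RT.r3) (I.pos (nat_lit 0) (nat_lit 0))
  (xa (xb (xk (xa T0.l8 T0.l8) T0.l8) (xk (xa T0.l8 T0.l8) (xa T0.l8 T0.l8))) (xk (xb (xa T0.l2 T0.l2) (xa T0.l2 T0.l2)) (xb T0.l2 (xa T0.l2 T0.l2)))) = true := by decide +kernel
theorem c3_12_2 : chkTag sI cl7 cl9 cl4 t5 b3_12 (Tag.mk true true false RT.tl RT.r4) (I.pos (nat_lit 0) (nat_lit 111196574))
  (xR (xR T5.l4 (xR T5.l9 T5.l4)) (xR T5.l4 (xR T5.l4 T5.l4))) = true := by decide +kernel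
theorem c3_12_3 : chkTag sI cl7 cl9 cl4 t0 b3_12 (Tag.mk true false false RT.tl RT.r5) (I.pos (nat_lit 0) (nat_lit 77433728))
  (xR (xR (xR T0.l3 T0.l9) (xR T0.l9 T0.l9)) (xR T0.l9 (xa T0.l9 (xR T0.l9 T0.l9)))) = true := by decide +kernel
theorem c3_12_4 : chkTag sI cl7 cl9 cl4 t0 b3_12 (tg false false false RT.r3) (I.pos (nat_lit 0) (nat_lit 0))
  (xa (xb (xk (xa T0.l13 (xb T0.l10 T0.l10)) (xa T0.l13 (xb T0.l10 T0.l10))) (xk (xa T0.l10 T0.l10) T0.l10)) (xb (xk (xa (xb T0.l10 T0.l10) (xb (xk T0.l10 T0.l10) (xk T0.l10 T0.l10))) (xa (xb T0.l10 T0.l10) (xb (xk T0.l10 T0.l10) (xk T0.l10 T0.l10)))) (xk (xa (xb T0.l10 T0.l10) (xb (xk T0.l10 T0.l10) (xk T0.l10 T0.l10))) (xa T0.l10 (xb (xk T0.l10 T0.l10) (xk T0.l10 T0.l10)))))) = true := by decide +kernel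
theorem c3_12_5 : chkTag sI cl7 cl9 cl4 t5 b3_12 (tg false true false RT.r4) (I.pos (nat_lit 0) (nat_lit 0))
  (xk (xa T5.l10 (xb T5.l1 T5.l10)) (xa T5.l10 (xb T5.l10 T5.l10))) = true := by decide +kernel
theorem c3_12_6 : chkTag sI cl7 cl9 cl4 t0 b3_12 (Tag.mk false false false RT.tl RT.r5) (I.mix (nat_lit 29511666) (nat_lit 77433728))
  (xR (xR T0.l11 T0.l11) (xR T0.l11 (xR T0.l11 (xk (xa T0.l11 T0.l11) T0.l11)))) = true := by decide +kernel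
theorem c3_12_7 : chkTag sI cl7 cl9 cl4 t5 b3_12 (Tag.mk false true false RT.tl RT.r6) (I.mix (nat_lit 29511666) (nat_lit 46070178))
  (xR (xR T5.l11 T5.l11) (xR T5.l11 (xR T5.l11 T5.l11))) = true := by decide +kernel
theorem bx3_12 : BoxOK sI cl7 cl9 cl4 t5 t0 b3_12 :=
  box_mk' [(tg true true false RT.r2), (tg true false false RT.r3), (Tag.mk true true false RT.tl RT.r4), (Tag.mk true false false RT.tl RT.r5), (tg false false false RT.r3), (tg false true false RT.r4), (Tag.mk false false false RT.tl RT.r5), (Tag.mk false true false RT.tl RT.r6)] rfl (allL_c (ex_mk c3_12_0) (allL_c (ex_mk c3_12_1) (allL_c (ex_mk c3_12_2) (allL_c (ex_mk c3_12_3) (allL_c (ex_mk c3_12_4) (allL_c (ex_mk c3_12_5) (allL_c (ex_mk c3_12_6) (allL_c (ex_mk c3_12_7) allL_n))))))))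
theorem bx3_13 : BoxOK sI cl7 cl9 cl4 t5 t0 b3_13 :=
  box_mk (TrL.c (I.pos (nat_lit 0) (nat_lit 0)) (xa (xb (xa (xb (xb T5.l0 T5.l0) (xb (xa (xs T5.l0 T5.l0) (xs T5.l0 T5.l0)) (xa T5.l0 (xs T5.l0 T5.l0)))) (xb (xb T5.l0 T5.l0) (xb T5.l0 T5.l0))) (xa (xb (xb T5.l0 T5.l0) (xk T5.l0 T5.l0)) (xb (xb T5.l0 T5.l0) (xk T5.l0 T5.l0)))) (xb (xa (xb (xa (xb T5.l0 T5.l0) (xb T5.l0 T5.l0)) (xa T5.l0 (xb T5.l0 T5.l0))) (xb (xa (xb T5.l0 T5.l0) (xb T5.l0 T5.l0)) (xa (xb T5.l0 T5.l0) (xb T5.l0 T5.l0)))) (xa (xb (xb T5.l0 T5.l0) (xk T5.l0 (xs T5.l0 T5.l0))) (xb (xa (xs T5.l0 T5.l0) (xs T5.l0 T5.l0)) (xk T5.l0 (xs T5.l0 T5.l0))))))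
  (TrL.c (I.pos (nat_lit 0) (nat_lit 0)) (xk (xa T0.l8 T0.l8) (xa T0.l8 T0.l8))
  (TrL.c (I.pos (nat_lit 0) (nat_lit 111196574)) (xR (xR T5.l4 T5.l9) (xR T5.l4 (xR T5.l4 T5.l4)))
  (TrL.c (I.pos (nat_lit 0) (nat_lit 77433728)) (xR (xR T0.l9 T0.l9) (xR T0.l9 (xR T0.l9 T0.l9)))
  (TrL.c (I.pos (nat_lit 0) (nat_lit 0)) (xk (xa T0.l10 (xb T0.l10 T0.l10)) (xa T0.l10 (xb T0.l10 T0.l10)))
  (TrL.c (I.pos (nat_lit 0) (nat_lit 0)) T5.l10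
  (TrL.c (I.mix (nat_lit 29511666) (nat_lit 77433728)) (xR T0.l11 (xR T0.l11 (xR T0.l11 T0.l11)))
  (TrL.c (I.mix (nat_lit 29511666) (nat_lit 46070178)) (xR T5.l11 T5.l2)
  TrL.n)))))))) (by decide +kernel)
theorem sv3 : StarV sI cl7 cl9 cl4 t5 t0 t3 :=
  (bt_n (bt_n (bt_n (bt_b bx3_0) (bt_n (bt_b bx3_1) (bt_b bx3_2))) (bt_n (bt_n (bt_b bx3_3) (bt_b bx3_4)) (bt_n (bt_b bx3_5) (bt_b bx3_6)))) (bt_n (bt_n (bt_b bx3_7) (bt_n (bt_b bx3_8) (bt_b bx3_9))) (bt_n (bt_n (bt_b bx3_10) (bt_b bx3_11)) (bt_n (bt_b bx3_12) (bt_b bx3_13)))))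
def S3 : StarD := StarD.mk cl7 cl9 cl4 5 0 t3
theorem bx4_0 : BoxOK sI cl9 cl4 cl7 t1 t3 b4_0 :=
  box_mk (TrL.c (I.pos (nat_lit 0) (nat_lit 0)) (xa (xb (xb T1.l0 T1.l4) (xb (xa T1.l4 T1.l0) (xa (xb T1.l0 T1.l0) (xb T1.l0 T1.l0)))) (xb (xa T1.l0 T1.l0) (xa (xb T1.l0 (xb T1.l0 T1.l0)) (xb T1.l0 (xa T1.l0 T1.l0)))))
  (TrL.c (I.pos (nat_lit 0) (nat_lit 0)) (xa (xb T3.l1 T3.l1) (xb T3.l1 (xk T3.l1 T3.l1)))
  (TrL.c (I.pos (nat_lit 0) (nat_lit 124588530)) (xR T1.l11 (xR T1.l1 (xR T1.l1 T1.l1)))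
  (TrL.c (I.pos (nat_lit 0) (nat_lit 96881482)) (xR T3.l2 (xR T3.l2 (xR T3.l2 T3.l2)))
  (TrL.c (I.pos (nat_lit 0) (nat_lit 0)) (xb (xa (xk T3.l3 T3.l3) (xk (xb T3.l3 T3.l3) (xb T3.l3 T3.l3))) (xa (xk (xb T3.l3 (xa T3.l3 T3.l3)) (xb T3.l3 (xa T3.l3 (xb T3.l3 T3.l3)))) (xk (xb (xa T3.l3 (xb T3.l3 T3.l3)) (xa (xb T3.l3 (xk T3.l3 T3.l3)) (xk (xb T3.l3 (xs T3.l3 T3.l3)) (xb T3.l3 (xs T3.l3 T3.l3))))) (xb (xa T3.l3 (xb T3.l3 T3.l3)) (xa (xk (xb T3.l3 T3.l3) (xb T3.l3 T3.l3)) (xk (xb T3.l3 (xs T3.l3 (xa T3.l3 T3.l3))) (xb (xa T3.l3 T3.l3) (xs (xa T3.l3 T3.l3) (xa T3.l3 (xb T3.l3 T3.l3))))))))))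
  (TrL.c (I.pos (nat_lit 0) (nat_lit 0)) T1.l2
  (TrL.c (I.mix (nat_lit 17240550) (nat_lit 96881482)) (xR T3.l4 (xR T3.l4 (xR T3.l4 T3.l4)))
  (TrL.c (I.mix (nat_lit 17240550) (nat_lit 71940500)) (xR T1.l3 (xR T1.l3 T1.l3))
  TrL.n)))))))) (by decide +kernel)
theorem bx4_1 : BoxOK sI cl9 cl4 cl7 t1 t3 b4_1 :=
  box_mk (TrL.c (I.pos (nat_lit 0) (nat_lit 0)) (xb (xa (xb (xa T1.l4 T1.l4) T1.l4) T1.l4) (xa (xa (xb T1.l4 T1.l4) T1.l4) T1.l4))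
  (TrL.c (I.pos (nat_lit 0) (nat_lit 0)) (xa T3.l1 T3.l1)
  (TrL.c (I.pos (nat_lit 0) (nat_lit 124588530)) (xR T1.l11 (xR T1.l1 (xR T1.l1 T1.l1)))
  (TrL.c (I.pos (nat_lit 0) (nat_lit 96881482)) (xR T3.l4 (xR T3.l4 (xR T3.l2 T3.l6)))
  (TrL.c (I.pos (nat_lit 0) (nat_lit 0)) (xa (xb T3.l5 T3.l5) (xb (xk T3.l5 T3.l5) T3.l5))
  (TrL.c (I.pos (nat_lit 0) (nat_lit 0)) T1.l2
  (TrL.c (I.mix (nat_lit 17240550) (nat_lit 96881482)) (xR T3.l4 (xR T3.l4 (xR T3.l4 T3.l4)))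
  (TrL.c (I.mix (nat_lit 17240550) (nat_lit 71940500)) T1.l11
  TrL.n)))))))) (by decide +kernel)
theorem c4_2_0 : chkTag sI cl9 cl4 cl7 t1 b4_2 (tg true true false RT.r2) (I.pos (nat_lit 0) (nat_lit 0))
  (xb (xa (xb (xb (xa (xb (xa T1.l4 T1.l4) T1.l4) (xb T1.l4 T1.l4)) T1.l4) T1.l4) (xb (xb (xa (xb T1.l4 T1.l0) T1.l0) T1.l0) T1.l4)) (xa (xb (xa T1.l4 T1.l4) (xa (xb T1.l4 T1.l4) (xb T1.l4 T1.l4))) (xb (xa T1.l4 T1.l4) (xa (xb T1.l4 T1.l4) (xb T1.l4 T1.l4))))) = true := by decide +kernel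
theorem c4_2_1 : chkTag sI cl9 cl4 cl7 t3 b4_2 (tg true false false RT.r3) (I.pos (nat_lit 0) (nat_lit 0))
  (xb (xa T3.l1 T3.l1) (xa T3.l1 T3.l1)) = true := by decide +kernel
theorem c4_2_2 : chkTag sI cl9 cl4 cl7 t1 b4_2 (Tag.mk true true false RT.tl RT.r4) (I.pos (nat_lit 0) (nat_lit 124588530))
  (xR T1.l1 (xR T1.l1 (xb T1.l1 (xR T1.l1 T1.l1)))) = true := by decide +kernel
theorem c4_2_3 : chkTag sI cl9 cl4 cl7 t3 b4_2 (Tag.mk true false false RT.tl RT.r5) (I.pos (nat_lit 0) (nat_lit 96881482))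
  (xR T3.l2 (xR T3.l2 (xR T3.l2 T3.l2))) = true := by decide +kernel
def rc4_2_4_l : Tr := (xa (xb T3.l5 (xk (xb T3.l5 T3.l5) (xb T3.l5 (xa T3.l5 T3.l5)))) (xk (xb (xb T3.l5 T3.l5) (xb (xa T3.l3 T3.l3) T3.l3)) (xb (xb T3.l5 (xa T3.l5 T3.l5)) (xb (xa T3.l3 T3.l3) T3.l3))))
theorem qc4_2_4_l : chkTr (tg false false false RT.r3) b4_2 t3 rc4_2_4_l
  (upd lo Co.b (rc sI cl9 cl4 cl7 b4_2 (I.pos (nat_lit 0) (nat_lit 0)))) = true := by decide +kernel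
def rc4_2_4_rl : Tr := (xk (xb (xb (xa T3.l5 T3.l3) (xa T3.l3 T3.l3)) (xb (xa T3.l3 (xk T3.l3 T3.l3)) (xa (xk T3.l3 (xb T3.l3 T3.l3)) (xk (xb T3.l3 (xs T3.l3 (xa T3.l3 T3.l3))) (xb (xa T3.l3 T3.l3) (xs T3.l3 (xa T3.l3 (xe T3.l3 T3.l3)))))))) (xb (xb (xa (xk T3.l5 T3.l5) T3.l3) (xa (xk T3.l3 T3.l3) T3.l3)) (xb (xa T3.l3 (xk (xb T3.l3 T3.l3) (xb T3.l3 (xa T3.l3 T3.l3)))) (xa (xk (xb T3.l3 (xs T3.l3 T3.l3)) (xb T3.l3 (xs T3.l3 (xa T3.l3 T3.l3)))) (xk (xb (xa T3.l3 (xs T3.l3 T3.l3)) (xa (xs T3.l3 T3.l3) (xs T3.l3 (xe (xk T3.l3 T3.l3) T3.l3)))) (xb (xa T3.l3 (xs T3.l3 (xe T3.l3 T3.l3))) (xa (xs T3.l3 (xe T3.l3 T3.l3)) (xs (xe T3.l3 T3.l3) (xe (xc (xk T3.l3 T3.l3) (xk T3.l3 T3.l3)) (xc T3.l3 T3.l3))))))))))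
theorem qc4_2_4_rl : chkTr (tg false false false RT.r3) b4_2 t3 rc4_2_4_rl
  (upd lo Co.a (upd hi Co.b (rc sI cl9 cl4 cl7 b4_2 (I.pos (nat_lit 0) (nat_lit 0))))) = true := by decide +kernel
def rc4_2_4_rrl : Tr := (xk (xb (xa T3.l3 T3.l3) (xa (xk T3.l3 T3.l3) (xk (xb T3.l3 T3.l3) (xb T3.l3 (xa T3.l3 T3.l3))))) (xb (xa T3.l3 (xk T3.l3 T3.l3)) (xa (xk T3.l3 (xb T3.l3 T3.l3)) (xk (xb T3.l3 (xa T3.l3 (xs T3.l3 T3.l3))) (xb (xa T3.l3 T3.l3) (xa T3.l3 (xs T3.l3 (xe T3.l3 T3.l3))))))))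
theorem qc4_2_4_rrl : chkTr (tg false false false RT.r3) b4_2 t3 rc4_2_4_rrl
  (upd lo Co.b (upd hi Co.a (upd hi Co.b (rc sI cl9 cl4 cl7 b4_2 (I.pos (nat_lit 0) (nat_lit 0)))))) = true := by decide +kernel
def rc4_2_4_rrrl : Tr := (xb (xa (xk (xb T3.l3 (xa T3.l3 T3.l3)) (xb T3.l3 (xa T3.l3 (xs T3.l3 T3.l3)))) (xk (xb (xa T3.l3 (xs T3.l0 T3.l0)) (xa (xs T3.l3 T3.l3) (xs T3.l0 T3.l0))) (xb (xa T3.l3 (xs T3.l0 T3.l0)) (xa (xs T3.l3 (xe T3.l3 T3.l3)) (xs T3.l0 T3.l0))))) (xa (xk (xb (xa T3.l3 (xs T3.l3 (xe T3.l3 T3.l3))) (xs (xa T3.l3 (xe T3.l3 T3.l3)) (xa (xe T3.l3 T3.l3) (xe (xk T3.l0 (xc T3.l0 T3.l0)) (xk T3.l0 T3.l3))))) (xb (xa (xs T3.l3 T3.l3) (xs T3.l3 (xe (xk T3.l3 T3.l3) T3.l3))) (xa (xs (xe T3.l3 T3.l3) (xe (xk T3.l3 T3.l3) (xk T3.l3 T3.l3))) (xs (xe (xk T3.l0 T3.l0) (xk T3.l0 T3.l0)) (xe (xk (xc T3.l0 T3.l3) (xc T3.l0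 (xb T3.l3 T3.l0))) (xk (xc T3.l0 T3.l3) (xc T3.l0 T3.l3))))))) (xk (xb (xa T3.l0 (xs T3.l0 T3.l0)) (xs (xa T3.l0 T3.l0) (xa T3.l0 T3.l0))) (xb (xa (xs T3.l0 (xe T3.l0 T3.l0)) (xs T3.l0 T3.l0)) (xa T3.l0 (xs T3.l0 T3.l0))))))
theorem qc4_2_4_rrrl : chkTr (tg false false false RT.r3) b4_2 t3 rc4_2_4_rrrl
  (upd lo Co.k (upd hi Co.b (upd hi Co.a (upd hi Co.b (rc sI cl9 cl4 cl7 b4_2 (I.pos (nat_lit 0) (nat_lit 0))))))) = true := by decide +kernel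
def rc4_2_4_rrrrll : Tr := (xk (xb (xa T3.l3 T3.l3) (xa T3.l3 (xs T3.l3 (xe T3.l3 T3.l3)))) (xb (xa T3.l3 (xs T3.l3 T3.l3)) (xa (xs T3.l3 T3.l3) (xs T3.l3 (xe (xk T3.l3 T3.l3) T3.l3)))))
theorem qc4_2_4_rrrrll : chkTr (tg false false false RT.r3) b4_2 t3 rc4_2_4_rrrrll
  (upd lo Co.b (upd lo Co.a (upd hi Co.k (upd hi Co.b (upd hi Co.a (upd hi Co.b (rc sI cl9 cl4 cl7 b4_2 (I.pos (nat_lit 0) (nat_lit 0))))))))) = true := by decide +kernel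
def rc4_2_4_rrrrlrl : Tr := (xb (xa (xs T3.l3 (xe T3.l3 T3.l3)) (xs (xe T3.l3 T3.l3) (xe (xk T3.l3 (xc T3.l0 T3.l3)) (xk T3.l3 T3.l3)))) (xa (xs (xe (xk T3.l3 T3.l3) T3.l3) (xe (xk (xc T3.l0 T3.l3) (xc T3.l0 T3.l3)) (xk (xc T3.l0 T3.l3) (xc T3.l0 T3.l3)))) (xs (xe (xk (xc T3.l0 T3.l3) (xc T3.l0 T3.l3)) (xk (xc T3.l0 T3.l3) (xc T3.l0 T3.l3))) (xe (xk (xc T3.l0 (xb T3.l3 T3.l0)) (xc T3.l0 (xb T3.l3 (xa T3.l0 T3.l0)))) (xk (xc T3.l0 (xb T3.l3 T3.l3)) (xc T3.l0 (xb T3.l3 (xa T3.l3 T3.l0))))))))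
theorem qc4_2_4_rrrrlrl : chkTr (tg false false false RT.r3) b4_2 t3 rc4_2_4_rrrrlrl
  (upd lo Co.k (upd hi Co.b (upd lo Co.a (upd hi Co.k (upd hi Co.b (upd hi Co.a (upd hi Co.b (rc sI cl9 cl4 cl7 b4_2 (I.pos (nat_lit 0) (nat_lit 0)))))))))) = true := by decide +kernel
def rc4_2_4_rrrrlrr : Tr := (xb (xa (xs (xe T3.l3 T3.l3) (xe (xk T3.l3 T3.l3) (xc T3.l3 T3.l3))) (xs (xe (xk T3.l3 T3.l3) (xk T3.l3 T3.l3)) (xe (xk (xc T3.l0 T3.l3) (xc T3.l0 (xb T3.l3 T3.l3))) (xk (xc T3.l0 T3.l3) (xc T3.l0 T3.l3))))) (xa (xs (xe (xk T3.l3 (xc T3.l0 T3.l3)) (xk T3.l3 (xc T3.l0 T3.l3))) (xe (xk (xc (xb T3.l0 T3.l0) (xb T3.l3 T3.l3)) (xc (xb T3.l0 T3.l0) (xb T3.l3 (xa T3.l3 T3.l3)))) (xk (xc (xb T3.l0 T3.l0) T3.l3) (xc (xb T3.l3 T3.l0) (xb T3.l3 T3.l3))))) (xs (xe (xk (xc T3.l0 (xb T3.l3 T3.l0)) (xc T3.l0 (xb T3.l3 T3.l0))) (xk (xc T3.l0 T3.l3)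 (xc T3.l0 (xb T3.l3 T3.l3)))) (xe (xk (xc T3.l0 (xb (xa T3.l3 T3.l0) (xa T3.l3 T3.l0))) (xc T3.l0 (xb (xa T3.l3 T3.l0) (xa (xs T3.l3 T3.l3) T3.l0)))) (xk (xc T3.l0 (xb T3.l3 (xa T3.l3 T3.l0))) (xc T3.l0 (xb (xa T3.l3 T3.l0) (xa T3.l3 T3.l0))))))))
theorem qc4_2_4_rrrrlrr : chkTr (tg false false false RT.r3) b4_2 t3 rc4_2_4_rrrrlrr
  (upd hi Co.k (upd hi Co.b (upd lo Co.a (upd hi Co.k (upd hi Co.b (upd hi Co.a (upd hi Co.b (rc sI cl9 cl4 cl7 b4_2 (I.pos (nat_lit 0) (nat_lit 0)))))))))) = true := by decide +kernel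
theorem qc4_2_4_rrrrlr : chkTr (tg false false false RT.r3) b4_2 t3 (Tr.N Co.k rc4_2_4_rrrrlrl rc4_2_4_rrrrlrr)
  (upd hi Co.b (upd lo Co.a (upd hi Co.k (upd hi Co.b (upd hi Co.a (upd hi Co.b (rc sI cl9 cl4 cl7 b4_2 (I.pos (nat_lit 0) (nat_lit 0))))))))) = true := tr_split qc4_2_4_rrrrlrl qc4_2_4_rrrrlrr
theorem qc4_2_4_rrrrl : chkTr (tg false false false RT.r3) b4_2 t3 (Tr.N Co.b rc4_2_4_rrrrll (Tr.N Co.k rc4_2_4_rrrrlrl rc4_2_4_rrrrlrr))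
  (upd lo Co.a (upd hi Co.k (upd hi Co.b (upd hi Co.a (upd hi Co.b (rc sI cl9 cl4 cl7 b4_2 (I.pos (nat_lit 0) (nat_lit 0)))))))) = true := tr_split qc4_2_4_rrrrll qc4_2_4_rrrrlr
def rc4_2_4_rrrrr : Tr := (xb (xk (xb (xa (xs T3.l3 T3.l3) (xs T3.l0 (xe T3.l0 T3.l0))) (xa (xs (xe T3.l3 T3.l3) (xe (xk T3.l0 T3.l3) (xk T3.l3 T3.l3))) T3.l0)) (xb (xa (xs T3.l3 (xe T3.l3 T3.l3)) (xs (xe T3.l0 T3.l0) (xe (xk T3.l0 T3.l0) (xk T3.l0 T3.l0)))) (xa (xs (xe (xk T3.l0 T3.l3) T3.l3) (xe (xk (xc T3.l0 T3.l3) (xc T3.l0 T3.l3)) (xk T3.l3 (xc T3.l0 T3.l3)))) T3.l0))) (xk (xb (xa (xs (xe T3.l0 T3.l0) (xe (xk T3.l0 T3.l0) (xk T3.l0 T3.l0))) (xs T3.l0 T3.l0)) (xa (xs T3.l0 T3.l0) (xs T3.l0 (xe T3.l0 T3.l0)))) (xb (xa (xs (xe (xk T3.l0 T3.l0) (xk T3.l0 T3.l0)) (xe (xk T3.l0 T3.l0) (xk T3.l0 T3.l0))) (xs T3.l0 T3.l0)) (xa (xs T3.l0 (xe T3.l0 T3.l0))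 (xs (xe T3.l0 T3.l0) (xe (xk T3.l0 T3.l0) (xk T3.l0 T3.l0)))))))
theorem qc4_2_4_rrrrr : chkTr (tg false false false RT.r3) b4_2 t3 rc4_2_4_rrrrr
  (upd hi Co.a (upd hi Co.k (upd hi Co.b (upd hi Co.a (upd hi Co.b (rc sI cl9 cl4 cl7 b4_2 (I.pos (nat_lit 0) (nat_lit 0)))))))) = true := by decide +kernel
theorem qc4_2_4_rrrr : chkTr (tg false false false RT.r3) b4_2 t3 (Tr.N Co.a (Tr.N Co.b rc4_2_4_rrrrll (Tr.N Co.k rc4_2_4_rrrrlrl rc4_2_4_rrrrlrr)) rc4_2_4_rrrrr)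
  (upd hi Co.k (upd hi Co.b (upd hi Co.a (upd hi Co.b (rc sI cl9 cl4 cl7 b4_2 (I.pos (nat_lit 0) (nat_lit 0))))))) = true := tr_split qc4_2_4_rrrrl qc4_2_4_rrrrr
theorem qc4_2_4_rrr : chkTr (tg false false false RT.r3) b4_2 t3 (Tr.N Co.k rc4_2_4_rrrl (Tr.N Co.a (Tr.N Co.b rc4_2_4_rrrrll (Tr.N Co.k rc4_2_4_rrrrlrl rc4_2_4_rrrrlrr)) rc4_2_4_rrrrr))
  (upd hi Co.b (upd hi Co.a (upd hi Co.b (rc sI cl9 cl4 cl7 b4_2 (I.pos (nat_lit 0) (nat_lit 0)))))) = true := tr_split qc4_2_4_rrrl qc4_2_4_rrrr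
theorem qc4_2_4_rr : chkTr (tg false false false RT.r3) b4_2 t3 (Tr.N Co.b rc4_2_4_rrl (Tr.N Co.k rc4_2_4_rrrl (Tr.N Co.a (Tr.N Co.b rc4_2_4_rrrrll (Tr.N Co.k rc4_2_4_rrrrlrl rc4_2_4_rrrrlrr)) rc4_2_4_rrrrr)))
  (upd hi Co.a (upd hi Co.b (rc sI cl9 cl4 cl7 b4_2 (I.pos (nat_lit 0) (nat_lit 0))))) = true := tr_split qc4_2_4_rrl qc4_2_4_rrr
theorem qc4_2_4_r : chkTr (tg false false false RT.r3) b4_2 t3 (Tr.N Co.a rc4_2_4_rl (Tr.N Co.b rc4_2_4_rrl (Tr.N Co.k rc4_2_4_rrrl (Tr.N Co.a (Tr.N Co.b rc4_2_4_rrrrll (Tr.N Co.k rc4_2_4_rrrrlrl rc4_2_4_rrrrlrr)) rc4_2_4_rrrrr))))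
  (upd hi Co.b (rc sI cl9 cl4 cl7 b4_2 (I.pos (nat_lit 0) (nat_lit 0)))) = true := tr_split qc4_2_4_rl qc4_2_4_rr
theorem qc4_2_4_ : chkTr (tg false false false RT.r3) b4_2 t3 (Tr.N Co.b rc4_2_4_l (Tr.N Co.a rc4_2_4_rl (Tr.N Co.b rc4_2_4_rrl (Tr.N Co.k rc4_2_4_rrrl (Tr.N Co.a (Tr.N Co.b rc4_2_4_rrrrll (Tr.N Co.k rc4_2_4_rrrrlrl rc4_2_4_rrrrlrr)) rc4_2_4_rrrrr)))))
  (rc sI cl9 cl4 cl7 b4_2 (I.pos (nat_lit 0) (nat_lit 0))) = true := tr_split qc4_2_4_l qc4_2_4_r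
theorem c4_2_4 : chkTag sI cl9 cl4 cl7 t3 b4_2 (tg false false false RT.r3) (I.pos (nat_lit 0) (nat_lit 0))
  (Tr.N Co.b rc4_2_4_l (Tr.N Co.a rc4_2_4_rl (Tr.N Co.b rc4_2_4_rrl (Tr.N Co.k rc4_2_4_rrrl (Tr.N Co.a (Tr.N Co.b rc4_2_4_rrrrll (Tr.N Co.k rc4_2_4_rrrrlrl rc4_2_4_rrrrlrr)) rc4_2_4_rrrrr))))) = true := tag_mk (by decide +kernel) qc4_2_4_
theorem c4_2_5 : chkTag sI cl9 cl4 cl7 t1 b4_2 (tg false true false RT.r4) (I.pos (nat_lit 0) (nat_lit 0))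
  (xb T1.l2 T1.l2) = true := by decide +kernel
theorem c4_2_6 : chkTag sI cl9 cl4 cl7 t3 b4_2 (Tag.mk false false false RT.tl RT.r5) (I.mix (nat_lit 17240550) (nat_lit 96881482))
  (xR T3.l4 (xR T3.l4 (xR T3.l4 T3.l4))) = true := by decide +kernel
theorem c4_2_7 : chkTag sI cl9 cl4 cl7 t1 b4_2 (Tag.mk false true false RT.tl RT.r6) (I.mix (nat_lit 17240550) (nat_lit 71940500))
  (xR T1.l3 (xR T1.l3 T1.l3)) = true := by decide +kernel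
theorem bx4_2 : BoxOK sI cl9 cl4 cl7 t1 t3 b4_2 :=
  box_mk' [(tg true true false RT.r2), (tg true false false RT.r3), (Tag.mk true true false RT.tl RT.r4), (Tag.mk true false false RT.tl RT.r5), (tg false false false RT.r3), (tg false true false RT.r4), (Tag.mk false false false RT.tl RT.r5), (Tag.mk false true false RT.tl RT.r6)] rfl (allL_c (ex_mk c4_2_0) (allL_c (ex_mk c4_2_1) (allL_c (ex_mk c4_2_2) (allL_c (ex_mk c4_2_3) (allL_c (ex_mk c4_2_4) (allL_c (ex_mk c4_2_5) (allL_c (ex_mk c4_2_6) (allL_c (ex_mk c4_2_7) allL_n))))))))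
theorem bx4_3 : BoxOK sI cl9 cl4 cl7 t1 t3 b4_3 :=
  box_mk (TrL.c (I.pos (nat_lit 0) (nat_lit 0)) (xa T3.l1 T3.l7)
  (TrL.c (I.pos (nat_lit 0) (nat_lit 0)) T1.l5
  (TrL.c (I.mix (nat_lit 17240550) (nat_lit 96881482)) (xR T3.l6 (xR T3.l6 (xR T3.l6 T3.l6)))
  (TrL.c (I.mix (nat_lit 17240550) (nat_lit 71940500)) (xR (xR T1.l6 T1.l1) T1.l1)
  TrL.n)))) (by decide +kernel)
theorem bx4_4 : BoxOK sI cl9 cl4 cl7 t1 t3 b4_4 :=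
  box_mk (TrL.c (I.pos (nat_lit 0) (nat_lit 0)) T3.l7
  (TrL.c (I.pos (nat_lit 0) (nat_lit 0)) T1.l5
  (TrL.c (I.mix (nat_lit 17240550) (nat_lit 96881482)) (xR (xR T3.l6 T3.l6) (xR T3.l6 T3.l4))
  (TrL.c (I.mix (nat_lit 17240550) (nat_lit 71940500)) (xR T1.l11 T1.l1)
  TrL.n)))) (by decide +kernel)
theorem bx4_5 : BoxOK sI cl9 cl4 cl7 t1 t3 b4_5 :=
  box_mk (TrL.c (I.pos (nat_lit 0) (nat_lit 0)) (xb (xa T1.l7 T1.l4) T1.l4)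
  (TrL.c (I.pos (nat_lit 0) (nat_lit 0)) T3.l1
  (TrL.c (I.pos (nat_lit 0) (nat_lit 124588530)) (xR T1.l1 T1.l1)
  (TrL.c (I.pos (nat_lit 0) (nat_lit 96881482)) T3.l4
  (TrL.c (I.pos (nat_lit 0) (nat_lit 0)) T3.l5
  (TrL.c (I.pos (nat_lit 0) (nat_lit 0)) T1.l2
  (TrL.c (I.mix (nat_lit 17240550) (nat_lit 96881482)) T3.l4
  (TrL.c (I.mix (nat_lit 17240550) (nat_lit 71940500)) T1.l9
  TrL.n)))))))) (by decide +kernel)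
theorem bx4_6 : BoxOK sI cl9 cl4 cl7 t1 t3 b4_6 :=
  box_mk (TrL.c (I.pos (nat_lit 0) (nat_lit 0)) (xa (xb T1.l0 (xa T1.l0 T1.l0)) (xb (xa T1.l0 T1.l0) (xa T1.l0 T1.l0)))
  (TrL.c (I.pos (nat_lit 0) (nat_lit 0)) (xa T3.l1 (xk (xb T3.l1 T3.l1) T3.l10))
  (TrL.c (I.pos (nat_lit 0) (nat_lit 124588530)) (xR T1.l11 (xR T1.l1 (xR T1.l1 (xa T1.l1 T1.l11))))
  (TrL.c (I.pos (nat_lit 0) (nat_lit 96881482)) (xR T3.l11 (xR T3.l2 (xR T3.l2 T3.l2)))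
  (TrL.c (I.pos (nat_lit 0) (nat_lit 0)) (xa (xb (xk (xa (xb T3.l3 T3.l3) (xb (xk T3.l3 T3.l3) T3.l3)) (xa (xb T3.l3 T3.l3) (xb (xk T3.l3 T3.l3) T3.l3))) (xk (xa T3.l3 T3.l3) (xa T3.l3 T3.l3))) (xb (xk (xa (xb (xk T3.l3 T3.l3) T3.l3) (xb (xk (xa T3.l3 T3.l3) (xa T3.l3 T3.l3)) (xk (xa T3.l3 T3.l3) T3.l3))) (xa (xb (xk T3.l3 T3.l3) T3.l3) (xb (xk (xa T3.l3 T3.l3) (xa T3.l3 T3.l3)) (xk T3.l3 T3.l3)))) (xk (xa (xb T3.l3 T3.l3) (xb (xk (xa T3.l3 T3.l3) (xa T3.l3 T3.l3)) (xk (xa T3.l3 T3.l3) (xa T3.l3 T3.l3)))) (xa (xb T3.l3 T3.l3) (xb (xk T3.l3 T3.l3) (xk (xa T3.l3 T3.l3) (xa T3.l3 (xb T3.l3 T3.l3))))))))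
  (TrL.c (I.pos (nat_lit 0) (nat_lit 0)) (xa T1.l2 (xb T1.l2 T1.l2))
  (TrL.c (I.mix (nat_lit 17240550) (nat_lit 96881482)) (xR T3.l4 (xR T3.l4 (xR T3.l4 (xk (xb T3.l4 T3.l4) T3.l4))))
  (TrL.c (I.mix (nat_lit 17240550) (nat_lit 71940500)) (xR T1.l3 (xR T1.l3 (xR T1.l3 T1.l3)))
  TrL.n)))))))) (by decide +kernel)
theorem bx4_7 : BoxOK sI cl9 cl4 cl7 t1 t3 b4_7 :=
  box_mk (TrL.c (I.pos (nat_lit 0) (nat_lit 0)) (xb (xa (xb T1.l7 T1.l7) T1.l7) (xa (xb T1.l7 T1.l7) T1.l7))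
  (TrL.c (I.pos (nat_lit 0) (nat_lit 0)) T3.l7
  (TrL.c (I.pos (nat_lit 0) (nat_lit 124588530)) (xR T1.l1 (xR T1.l1 (xR T1.l1 T1.l1)))
  (TrL.c (I.pos (nat_lit 0) (nat_lit 96881482)) T3.l4
  (TrL.c (I.pos (nat_lit 0) (nat_lit 0)) T3.l8
  (TrL.c (I.pos (nat_lit 0) (nat_lit 0)) T1.l2
  (TrL.c (I.mix (nat_lit 17240550) (nat_lit 96881482)) (xR T3.l4 T3.l4)
  (TrL.c (I.mix (nat_lit 17240550) (nat_lit 71940500)) T1.l11
  TrL.n)))))))) (by decide +kernel)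
theorem bx4_8 : BoxOK sI cl9 cl4 cl7 t1 t3 b4_8 :=
  box_mk (TrL.c (I.pos (nat_lit 0) (nat_lit 0)) (xa (xb T1.l0 (xb T1.l0 (xa T1.l0 T1.l0))) (xb T1.l0 (xa T1.l0 T1.l0)))
  (TrL.c (I.pos (nat_lit 0) (nat_lit 0)) (xk T3.l1 T3.l1)
  (TrL.c (I.pos (nat_lit 0) (nat_lit 124588530)) (xR T1.l1 T1.l1)
  (TrL.c (I.pos (nat_lit 0) (nat_lit 96881482)) (xR T3.l2 T3.l2)
  (TrL.c (I.pos (nat_lit 0) (nat_lit 0)) (xb (xk (xa T3.l3 (xb T3.l3 (xk T3.l3 T3.l3))) (xa T3.l3 (xb T3.l3 (xk T3.l3 (xa T3.l0 T3.l0))))) (xk (xa (xb T3.l3 (xk (xa T3.l3 T3.l0) (xa T3.l3 T3.l0))) (xb (xk (xa T3.l0 (xb T3.l0 T3.l0)) (xa T3.l0 T3.l0)) (xk (xa T3.l0 (xb T3.l0 T3.l0)) (xa T3.l0 (xb T3.l0 T3.l0))))) (xa (xb (xk T3.l3 T3.l3) (xk (xa T3.l3 T3.l0) (xa (xb T3.l3 T3.l3) T3.l0))) (xb (xk (xa T3.l0 T3.l0) (xa T3.l0 T3.l0)) (xk (xa T3.l0 T3.l0) (xa T3.l0 (xb T3.l0 T3.l0)))))))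
  (TrL.c (I.pos (nat_lit 0) (nat_lit 0)) T1.l2
  (TrL.c (I.mix (nat_lit 17240550) (nat_lit 96881482)) (xR T3.l4 T3.l4)
  (TrL.c (I.mix (nat_lit 17240550) (nat_lit 71940500)) (xR T1.l3 T1.l3)
  TrL.n)))))))) (by decide +kernel)
theorem bx4_9 : BoxOK sI cl9 cl4 cl7 t1 t3 b4_9 :=
  box_mk (TrL.c (I.pos (nat_lit 0) (nat_lit 0)) (xb T1.l4 T1.l4)
  (TrL.c (I.pos (nat_lit 0) (nat_lit 0)) T3.l1
  (TrL.c (I.pos (nat_lit 0) (nat_lit 124588530)) (xR T1.l1 T1.l1)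
  (TrL.c (I.pos (nat_lit 0) (nat_lit 96881482)) T3.l4
  (TrL.c (I.pos (nat_lit 0) (nat_lit 0)) T3.l5
  (TrL.c (I.pos (nat_lit 0) (nat_lit 0)) T1.l2
  (TrL.c (I.mix (nat_lit 17240550) (nat_lit 96881482)) T3.l4
  (TrL.c (I.mix (nat_lit 17240550) (nat_lit 71940500)) T1.l3
  TrL.n)))))))) (by decide +kernel)
theorem sv4 : StarV sI cl9 cl4 cl7 t1 t3 t4 :=
  (bt_n (bt_n (bt_n (bt_b bx4_0) (bt_b bx4_1)) (bt_n (bt_b bx4_2) (bt_n (bt_b bx4_3) (bt_b bx4_4)))) (bt_n (bt_n (bt_b bx4_5) (bt_b bx4_6)) (bt_n (bt_b bx4_7) (bt_n (bt_b bx4_8) (bt_b bx4_9)))))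
def S4 : StarD := StarD.mk cl9 cl4 cl7 1 3 t4
theorem c5_0_0 : chkTag sI cl9 cl7 cl4 t3 b5_0 (tg true true false RT.r2) (I.pos (nat_lit 0) (nat_lit 0))
  (xa (xb (xa (xb (xc T3.l0 (xb T3.l0 T3.l0)) (xc T3.l0 T3.l0)) (xb (xc T3.l0 (xa T3.l0 T3.l0)) (xc T3.l0 (xa T3.l0 T3.l0)))) (xa (xb (xb (xc T3.l0 T3.l0) (xc T3.l0 T3.l0)) (xc (xb (xa T3.l0 T3.l0) T3.l13) (xa T3.l0 T3.l0))) (xb (xc T3.l0 (xb T3.l0 T3.l0)) (xc (xb T3.l0 T3.l0) (xa T3.l0 T3.l0))))) (xb (xa (xb (xa (xc T3.l0 T3.l0) (xc T3.l0 (xb T3.l0 T3.l0))) (xa (xc T3.l0 T3.l0) (xc (xb T3.l0 T3.l0) T3.l0))) (xb (xa (xc T3.l0 (xb T3.l0 T3.l0)) (xc T3.l0 (xb T3.l0 T3.l0))) (xa (xc T3.l0 (xb T3.l0 T3.l0)) (xc T3.l0 (xb T3.l0 T3.l0))))) (xa (xb (xa (xb T3.l0 T3.l0) (xb T3.l0 T3.l0)) (xc T3.l0 (xa T3.l0 T3.l0))) (xb (xa (xb T3.l0 T3.l0) (xc T3.l0 (xb T3.l0 T3.l0))) (xc T3.l0 (xa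 T3.l0 (xb T3.l0 T3.l0))))))) = true := by decide +kernel
theorem c5_0_1 : chkTag sI cl9 cl7 cl4 t1 b5_0 (tg true false false RT.r3) (I.pos (nat_lit 0) (nat_lit 0))
  (xa (xk T1.l8 T1.l8) (xk T1.l8 T1.l8)) = true := by decide +kernel
theorem c5_0_2 : chkTag sI cl9 cl7 cl4 t3 b5_0 (Tag.mk true true false RT.tl RT.r4) (I.pos (nat_lit 0) (nat_lit 124588530))
  (xR T3.l4 (xR T3.l4 (xR T3.l4 T3.l4))) = true := by decide +kernel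
theorem c5_0_3 : chkTag sI cl9 cl7 cl4 t1 b5_0 (Tag.mk true false false RT.tl RT.r5) (I.pos (nat_lit 0) (nat_lit 96881482))
  (xR T1.l9 (xR T1.l9 (xR T1.l9 T1.l9))) = true := by decide +kernel
theorem c5_0_4 : chkTag sI cl9 cl7 cl4 t1 b5_0 (tg false false false RT.r3) (I.pos (nat_lit 0) (nat_lit 0))
  (xa (xk (xb T1.l13 (xb T1.l10 (xa T1.l10 T1.l10))) (xb T1.l13 (xb T1.l13 (xa T1.l10 (xb T1.l10 (xk T1.l10 T1.l10)))))) (xk (xb T1.l10 (xb (xa T1.l10 (xk T1.l10 T1.l10)) (xa (xk T1.l10 (xb T1.l10 T1.l10)) (xk (xb T1.l10 (xa T1.l10 (xd T1.l10 T1.l10))) (xb (xa T1.l10 T1.l10) (xa (xd T1.l10 T1.l10) (xd (xs T1.l10 (xk T1.l10 T1.l10)) (xs T1.l10 (xk T1.l10 T1.l10))))))))) (xb (xb T1.l10 T1.l10) (xb (xa T1.l10 (xk T1.l10 (xb T1.l10 T1.l10))) (xa (xk (xb T1.l10 (xa T1.l10 (xd T1.l10 T1.l10))) (xb (xa T1.l10 T1.l10) (xa T1.l10 (xd T1.l10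 (xs T1.l10 T1.l10))))) (xk (xb (xa T1.l10 (xd T1.l10 T1.l10)) (xa (xd (xs T1.l10 T1.l10) (xs T1.l10 T1.l10)) (xd (xs T1.l10 (xk T1.l10 (xb T1.l10 T1.l10))) (xs T1.l10 (xk T1.l10 (xb T1.l10 T1.l10)))))) (xb (xa (xd T1.l10 T1.l10) (xd (xs T1.l10 T1.l10) (xs T1.l10 T1.l10))) (xa (xd (xs T1.l10 (xk T1.l10 T1.l10)) (xs T1.l10 (xk T1.l10 T1.l10))) (xd (xs (xk T1.l10 T1.l10) (xk (xb T1.l10 (xc T1.l10 T1.l10)) (xc (xb T1.l10 T1.l10) T1.l10))) (xs (xk T1.l10 T1.l10) (xk (xc (xb T1.l10 T1.l10) T1.l10) (xc (xb T1.l10 (xa T1.l10 T1.l10)) T1.l10)))))))))))) = true := by decide +kernel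
theorem c5_0_5 : chkTag sI cl9 cl7 cl4 t3 b5_0 (tg false true false RT.r4) (I.pos (nat_lit 0) (nat_lit 0))
  T3.l10 = true := by decide +kernel
theorem c5_0_6 : chkTag sI cl9 cl7 cl4 t1 b5_0 (Tag.mk false false false RT.tl RT.r5) (I.mix (nat_lit 17240550) (nat_lit 96881482))
  (xR T1.l11 (xR T1.l11 (xR T1.l11 T1.l11))) = true := by decide +kernel
theorem c5_0_7 : chkTag sI cl9 cl7 cl4 t3 b5_0 (Tag.mk false true false RT.tl RT.r6) (I.mix (nat_lit 17240550) (nat_lit 71940500))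
  (xR T3.l11 T3.l11) = true := by decide +kernel
theorem bx5_0 : BoxOK sI cl9 cl7 cl4 t3 t1 b5_0 :=
  box_mk' [(tg true true false RT.r2), (tg true false false RT.r3), (Tag.mk true true false RT.tl RT.r4), (Tag.mk true false false RT.tl RT.r5), (tg false false false RT.r3), (tg false true false RT.r4), (Tag.mk false false false RT.tl RT.r5), (Tag.mk false true false RT.tl RT.r6)] rfl (allL_c (ex_mk c5_0_0) (allL_c (ex_mk c5_0_1) (allL_c (ex_mk c5_0_2) (allL_c (ex_mk c5_0_3) (allL_c (ex_mk c5_0_4) (allL_c (ex_mk c5_0_5) (allL_c (ex_mk c5_0_6) (allL_c (ex_mk c5_0_7) allL_n))))))))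
theorem bx5_1 : BoxOK sI cl9 cl7 cl4 t3 t1 b5_1 :=
  box_mk (TrL.c (I.pos (nat_lit 0) (nat_lit 0)) (xa (xb (xa T3.l12 T3.l12) (xa T3.l12 T3.l12)) (xb (xa T3.l12 T3.l0) (xa T3.l12 T3.l12)))
  (TrL.c (I.pos (nat_lit 0) (nat_lit 0)) (xa T1.l8 (xb T1.l8 T1.l8))
  (TrL.c (I.pos (nat_lit 0) (nat_lit 124588530)) (xR T3.l4 (xR T3.l4 (xR T3.l4 T3.l9)))
  (TrL.c (I.pos (nat_lit 0) (nat_lit 96881482)) (xR T1.l9 (xR T1.l9 T1.l9))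
  (TrL.c (I.pos (nat_lit 0) (nat_lit 0)) (xa (xk (xb T1.l12 T1.l12) (xb T1.l12 T1.l12)) (xb (xk T1.l12 T1.l12) (xk T1.l13 T1.l12)))
  (TrL.c (I.pos (nat_lit 0) (nat_lit 0)) T3.l10
  (TrL.c (I.mix (nat_lit 17240550) (nat_lit 96881482)) (xR T1.l11 T1.l11)
  (TrL.c (I.mix (nat_lit 17240550) (nat_lit 71940500)) (xR T3.l11 T3.l2)
  TrL.n)))))))) (by decide +kernel)
theorem bx5_2 : BoxOK sI cl9 cl7 cl4 t3 t1 b5_2 :=
  box_mk (TrL.c (I.pos (nat_lit 0) (nat_lit 0)) (xa T3.l12 T3.l12)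
  (TrL.c (I.pos (nat_lit 0) (nat_lit 0)) (xa T1.l8 T1.l8)
  (TrL.c (I.pos (nat_lit 0) (nat_lit 124588530)) (xR T3.l4 (xR T3.l4 T3.l9))
  (TrL.c (I.pos (nat_lit 0) (nat_lit 96881482)) (xR T1.l9 (xR T1.l9 T1.l9))
  (TrL.c (I.pos (nat_lit 0) (nat_lit 0)) (xa T1.l8 (xa T1.l12 T1.l12))
  (TrL.c (I.pos (nat_lit 0) (nat_lit 0)) T3.l10
  (TrL.c (I.mix (nat_lit 17240550) (nat_lit 96881482)) (xR T1.l11 (xR T1.l11 (xR T1.l11 T1.l11)))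
  (TrL.c (I.mix (nat_lit 17240550) (nat_lit 71940500)) T3.l4
  TrL.n)))))))) (by decide +kernel)
theorem bx5_3 : BoxOK sI cl9 cl7 cl4 t3 t1 b5_3 :=
  box_mk (TrL.c (I.pos (nat_lit 0) (nat_lit 0)) (xb (xa (xb (xa (xb (xa T3.l13 T3.l13) T3.l13) (xb (xa (xc T3.l0 T3.l0) (xc T3.l0 T3.l0)) (xa T3.l13 T3.l0))) (xa (xb T3.l13 T3.l13) (xb T3.l13 T3.l13))) (xb (xa (xb (xa T3.l0 T3.l0) (xa T3.l0 T3.l0)) (xb T3.l0 T3.l0)) (xa (xb T3.l13 T3.l13) (xb T3.l0 T3.l0)))) (xa (xb (xa T3.l13 (xb T3.l13 T3.l13)) (xa (xb T3.l13 T3.l13) (xb T3.l13 T3.l13))) (xa (xb (xb T3.l13 T3.l13) (xb T3.l13 T3.l13)) (xb (xb T3.l13 T3.l13) (xk T3.l13 T3.l13)))))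
  (TrL.c (I.pos (nat_lit 0) (nat_lit 0)) (xb (xk T1.l8 T1.l8) (xk T1.l8 T1.l8))
  (TrL.c (I.pos (nat_lit 0) (nat_lit 124588530)) (xR T3.l4 (xR T3.l4 (xR T3.l4 T3.l4)))
  (TrL.c (I.pos (nat_lit 0) (nat_lit 96881482)) (xR T1.l9 (xR T1.l9 (xR T1.l9 T1.l9)))
  (TrL.c (I.pos (nat_lit 0) (nat_lit 0)) (xb (xk (xa T1.l13 T1.l13) (xa T1.l13 T1.l13)) (xk (xb T1.l10 (xa T1.l10 T1.l10)) (xb T1.l10 (xa T1.l13 (xb T1.l10 T1.l10)))))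
  (TrL.c (I.pos (nat_lit 0) (nat_lit 0)) T3.l10
  (TrL.c (I.mix (nat_lit 17240550) (nat_lit 96881482)) (xR T1.l11 (xR T1.l11 (xR T1.l11 T1.l11)))
  (TrL.c (I.mix (nat_lit 17240550) (nat_lit 71940500)) (xR T3.l11 (xR T3.l11 T3.l2))
  TrL.n)))))))) (by decide +kernel)
theorem bx5_4 : BoxOK sI cl9 cl7 cl4 t3 t1 b5_4 :=
  box_mk (TrL.c (I.pos (nat_lit 0) (nat_lit 0)) (xa (xa (xb (xa T3.l12 T3.l12) (xa (xb T3.l12 (xa T3.l12 T3.l12)) (xb T3.l12 T3.l12))) (xb T3.l12 (xa T3.l12 T3.l12))) (xa (xb T3.l12 (xa T3.l12 T3.l12)) (xb T3.l12 (xa T3.l12 (xb T3.l12 T3.l12)))))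
  (TrL.c (I.pos (nat_lit 0) (nat_lit 0)) (xa (xa T1.l8 T1.l8) (xa T1.l8 T1.l8))
  (TrL.c (I.pos (nat_lit 0) (nat_lit 124588530)) (xR T3.l4 (xR T3.l4 (xa (xR T3.l9 T3.l9) T3.l9)))
  (TrL.c (I.pos (nat_lit 0) (nat_lit 96881482)) (xR T1.l9 (xR T1.l9 (xa T1.l9 T1.l9)))
  (TrL.c (I.pos (nat_lit 0) (nat_lit 0)) (xa (xa T1.l12 T1.l12) T1.l12)
  (TrL.c (I.pos (nat_lit 0) (nat_lit 0)) T3.l10
  (TrL.c (I.mix (nat_lit 17240550) (nat_lit 96881482)) (xR T1.l11 (xR T1.l11 (xR T1.l11 T1.l11)))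
  (TrL.c (I.mix (nat_lit 17240550) (nat_lit 71940500)) (xR T3.l11 T3.l4)
  TrL.n)))))))) (by decide +kernel)
theorem bx5_5 : BoxOK sI cl9 cl7 cl4 t3 t1 b5_5 :=
  box_mk (TrL.c (I.pos (nat_lit 0) (nat_lit 0)) (xa T3.l12 T3.l13)
  (TrL.c (I.pos (nat_lit 0) (nat_lit 0)) T1.l8
  (TrL.c (I.pos (nat_lit 0) (nat_lit 124588530)) (xR T3.l4 (xR T3.l4 T3.l4))
  (TrL.c (I.pos (nat_lit 0) (nat_lit 96881482)) (xR T1.l9 T1.l9)
  (TrL.c (I.pos (nat_lit 0) (nat_lit 0)) (xk T1.l12 T1.l12)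
  (TrL.c (I.pos (nat_lit 0) (nat_lit 0)) T3.l10
  (TrL.c (I.mix (nat_lit 17240550) (nat_lit 96881482)) (xR T1.l11 T1.l11)
  (TrL.c (I.mix (nat_lit 17240550) (nat_lit 71940500)) (xR T3.l11 T3.l11)
  TrL.n)))))))) (by decide +kernel)
theorem bx5_6 : BoxOK sI cl9 cl7 cl4 t3 t1 b5_6 :=
  box_mk (TrL.c (I.pos (nat_lit 0) (nat_lit 0)) (xa T3.l12 T3.l12)
  (TrL.c (I.pos (nat_lit 0) (nat_lit 0)) (xa T1.l8 T1.l8)
  (TrL.c (I.pos (nat_lit 0) (nat_lit 124588530)) (xR T3.l4 (xR T3.l4 T3.l9))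
  (TrL.c (I.pos (nat_lit 0) (nat_lit 96881482)) (xR T1.l9 (xR T1.l9 (xa T1.l9 T1.l9)))
  (TrL.c (I.pos (nat_lit 0) (nat_lit 0)) (xa T1.l8 T1.l12)
  (TrL.c (I.pos (nat_lit 0) (nat_lit 0)) T3.l10
  (TrL.c (I.mix (nat_lit 17240550) (nat_lit 96881482)) (xR T1.l11 (xR T1.l11 T1.l11))
  (TrL.c (I.mix (nat_lit 17240550) (nat_lit 71940500)) T3.l4
  TrL.n)))))))) (by decide +kernel)
theorem bx5_7 : BoxOK sI cl9 cl7 cl4 t3 t1 b5_7 :=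
  box_mk (TrL.c (I.pos (nat_lit 0) (nat_lit 0)) (xa T3.l13 T3.l13)
  (TrL.c (I.pos (nat_lit 0) (nat_lit 0)) T1.l8
  (TrL.c (I.pos (nat_lit 0) (nat_lit 124588530)) (xR T3.l4 (xR T3.l4 T3.l4))
  (TrL.c (I.pos (nat_lit 0) (nat_lit 96881482)) (xR T1.l9 T1.l9)
  (TrL.c (I.pos (nat_lit 0) (nat_lit 0)) (xk T1.l13 T1.l13)
  (TrL.c (I.pos (nat_lit 0) (nat_lit 0)) T3.l10
  (TrL.c (I.mix (nat_lit 17240550) (nat_lit 96881482)) (xR T1.l11 T1.l11)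
  (TrL.c (I.mix (nat_lit 17240550) (nat_lit 71940500)) (xR T3.l11 T3.l11)
  TrL.n)))))))) (by decide +kernel)
def rc5_8_0_ll : Tr := (xb (xa (xb (xa (xc (xs T3.l0 (xb (xd T3.l0 T3.l0) T3.l0)) (xs (xb T3.l0 T3.l0) (xb (xk T3.l0 (xd T3.l0 T3.l0)) (xk T3.l0 T3.l0)))) (xc (xs T3.l0 (xb (xd T3.l0 T3.l0) T3.l0)) (xs (xb T3.l0 T3.l0) (xb (xk T3.l0 (xd T3.l0 T3.l0)) (xk T3.l0 T3.l0))))) (xa (xc (xb T3.l0 T3.l0) (xs T3.l0 (xb T3.l0 T3.l0))) (xc (xs T3.l0 T3.l0) (xs T3.l0 (xb T3.l0 T3.l0))))) (xb (xa (xc (xs T3.l0 (xb (xk T3.l0 (xd T3.l0 T3.l0)) T3.l0)) (xs (xb T3.l0 T3.l0) (xb (xk T3.l0 (xd T3.l0 T3.l0)) (xk T3.l0 T3.l0)))) (xs (xc T3.l0 (xb T3.l0 T3.l0)) (xc (xb (xk T3.l0 (xd T3.l0 T3.l0)) (xk T3.l0 T3.l0)) (xb (xk T3.l0 (xd T3.l0 T3.l0)) (xk T3.l0 T3.l0))))) (xa (xc (xs T3.l0 T3.l0) (xs T3.l0 (xb T3.l0 T3.l0))) (xc (xs T3.l0 (xb T3.l0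 T3.l0)) (xs T3.l0 (xb T3.l0 T3.l0)))))) (xa (xb (xa (xc T3.l0 T3.l0) (xc T3.l0 T3.l0)) (xa (xc T3.l0 T3.l0) T3.l0)) (xb (xa (xc T3.l0 T3.l0) (xc T3.l0 (xs T3.l0 T3.l0))) (xa T3.l0 T3.l0))))
theorem qc5_8_0_ll : chkTr (tg true true false RT.r2) b5_8 t3 rc5_8_0_ll
  (upd lo Co.a (upd lo Co.b (rc sI cl9 cl7 cl4 b5_8 (I.pos (nat_lit 0) (nat_lit 0))))) = true := by decide +kernel
def rc5_8_0_lrl : Tr := (xa (xb (xa (xs (xc (xb T3.l0 T3.l0) (xb T3.l0 T3.l0)) (xc (xb (xk T3.l0 (xd T3.l0 T3.l0)) (xk T3.l0 T3.l0)) (xb (xk (xd T3.l0 T3.l0) (xd T3.l0 T3.l0)) (xk T3.l0 T3.l0)))) (xs (xc (xb T3.l0 T3.l0) (xb T3.l0 T3.l0)) (xc (xb (xk T3.l0 (xd T3.l0 T3.l0)) (xk T3.l0 T3.l0)) (xb (xk (xd T3.l0 T3.l0) (xd T3.l0 T3.l0)) (xk T3.l0 (xd T3.l0 T3.l0)))))) (xa (xc (xs T3.l0 (xb T3.l0 T3.l0)) (xs T3.l0 (xb (xk T3.l0 T3.l0) T3.l0))) (xc (xs T3.l0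 (xb T3.l0 T3.l0)) (xs T3.l0 (xb (xk T3.l0 T3.l0) T3.l0))))) (xb (xa (xs (xc (xb T3.l0 T3.l0) (xk T3.l0 (xb T3.l0 T3.l0))) (xc (xb (xk T3.l0 (xd T3.l0 T3.l0)) (xk T3.l0 T3.l0)) (xk (xb (xd T3.l0 T3.l0) T3.l0) (xb (xd T3.l0 (xa T3.l0 T3.l0)) (xd T3.l0 T3.l0))))) (xs (xc (xb T3.l0 T3.l0) (xk T3.l0 (xb T3.l0 T3.l0))) (xc (xb (xk T3.l0 (xd T3.l0 T3.l0)) (xk T3.l0 T3.l0)) (xk (xb (xd T3.l0 T3.l0) T3.l0) (xb (xd T3.l0 (xa T3.l0 T3.l0)) (xd T3.l0 T3.l0)))))) (xa (xs (xc T3.l0 T3.l0) (xc (xb T3.l0 T3.l0) (xb (xk T3.l0 T3.l0) T3.l0))) (xs (xc T3.l0 T3.l0) (xc (xb T3.l0 T3.l0) (xk T3.l0 (xb T3.l0 T3.l0)))))))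
theorem qc5_8_0_lrl : chkTr (tg true true false RT.r2) b5_8 t3 rc5_8_0_lrl
  (upd lo Co.b (upd hi Co.a (upd lo Co.b (rc sI cl9 cl7 cl4 b5_8 (I.pos (nat_lit 0) (nat_lit 0)))))) = true := by decide +kernel
def rc5_8_0_lrr : Tr := (xa (xb (xa (xc T3.l0 (xs T3.l0 T3.l0)) (xc T3.l0 (xs T3.l0 T3.l0))) (xa T3.l0 T3.l0)) (xb (xa (xc T3.l0 (xs T3.l0 T3.l0)) (xc T3.l0 (xs T3.l0 T3.l0))) (xa (xc T3.l0 T3.l0) (xc T3.l0 T3.l0))))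
theorem qc5_8_0_lrr : chkTr (tg true true false RT.r2) b5_8 t3 rc5_8_0_lrr
  (upd hi Co.b (upd hi Co.a (upd lo Co.b (rc sI cl9 cl7 cl4 b5_8 (I.pos (nat_lit 0) (nat_lit 0)))))) = true := by decide +kernel
theorem qc5_8_0_lr : chkTr (tg true true false RT.r2) b5_8 t3 (Tr.N Co.b rc5_8_0_lrl rc5_8_0_lrr)
  (upd hi Co.a (upd lo Co.b (rc sI cl9 cl7 cl4 b5_8 (I.pos (nat_lit 0) (nat_lit 0))))) = true := tr_split qc5_8_0_lrl qc5_8_0_lrr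
theorem qc5_8_0_l : chkTr (tg true true false RT.r2) b5_8 t3 (Tr.N Co.a rc5_8_0_ll (Tr.N Co.b rc5_8_0_lrl rc5_8_0_lrr))
  (upd lo Co.b (rc sI cl9 cl7 cl4 b5_8 (I.pos (nat_lit 0) (nat_lit 0)))) = true := tr_split qc5_8_0_ll qc5_8_0_lr
def rc5_8_0_r : Tr := (xa (xb (xa (xb (xa (xc T3.l0 T3.l0) T3.l0) (xa T3.l0 T3.l0)) (xb (xa T3.l0 T3.l0) T3.l0)) (xa (xb (xa (xc T3.l0 T3.l0) T3.l0) (xa (xc T3.l0 T3.l0) T3.l0)) (xb (xa T3.l0 T3.l0) (xa T3.l0 T3.l0)))) (xb (xa (xb T3.l0 T3.l0) (xb (xa T3.l0 T3.l0) T3.l0)) (xa (xb T3.l0 (xa T3.l0 T3.l0)) (xb T3.l0 T3.l0))))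
theorem qc5_8_0_r : chkTr (tg true true false RT.r2) b5_8 t3 rc5_8_0_r
  (upd hi Co.b (rc sI cl9 cl7 cl4 b5_8 (I.pos (nat_lit 0) (nat_lit 0)))) = true := by decide +kernel
theorem qc5_8_0_ : chkTr (tg true true false RT.r2) b5_8 t3 (Tr.N Co.b (Tr.N Co.a rc5_8_0_ll (Tr.N Co.b rc5_8_0_lrl rc5_8_0_lrr)) rc5_8_0_r)
  (rc sI cl9 cl7 cl4 b5_8 (I.pos (nat_lit 0) (nat_lit 0))) = true := tr_split qc5_8_0_l qc5_8_0_r
theorem c5_8_0 : chkTag sI cl9 cl7 cl4 t3 b5_8 (tg true true false RT.r2) (I.pos (nat_lit 0) (nat_lit 0))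
  (Tr.N Co.b (Tr.N Co.a rc5_8_0_ll (Tr.N Co.b rc5_8_0_lrl rc5_8_0_lrr)) rc5_8_0_r) = true := tag_mk (by decide +kernel) qc5_8_0_
theorem c5_8_1 : chkTag sI cl9 cl7 cl4 t1 b5_8 (tg true false false RT.r3) (I.pos (nat_lit 0) (nat_lit 0))
  (xb (xk T1.l8 T1.l8) (xk T1.l8 T1.l8)) = true := by decide +kernel
theorem c5_8_2 : chkTag sI cl9 cl7 cl4 t3 b5_8 (Tag.mk true true false RT.tl RT.r4) (I.pos (nat_lit 0) (nat_lit 124588530))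
  (xR T3.l4 (xR T3.l4 (xR T3.l4 T3.l4))) = true := by decide +kernel
theorem c5_8_3 : chkTag sI cl9 cl7 cl4 t1 b5_8 (Tag.mk true false false RT.tl RT.r5) (I.pos (nat_lit 0) (nat_lit 96881482))
  (xR T1.l9 (xR T1.l9 (xR T1.l9 T1.l9))) = true := by decide +kernel
theorem c5_8_4 : chkTag sI cl9 cl7 cl4 t1 b5_8 (tg false false false RT.r3) (I.pos (nat_lit 0) (nat_lit 0))
  (xb (xk (xa T1.l13 T1.l13) (xa T1.l13 T1.l13)) (xk T1.l13 T1.l13)) = true := by decide +kernel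
theorem c5_8_5 : chkTag sI cl9 cl7 cl4 t3 b5_8 (tg false true false RT.r4) (I.pos (nat_lit 0) (nat_lit 0))
  T3.l10 = true := by decide +kernel
theorem c5_8_6 : chkTag sI cl9 cl7 cl4 t1 b5_8 (Tag.mk false false false RT.tl RT.r5) (I.mix (nat_lit 17240550) (nat_lit 96881482))
  (xR T1.l11 (xR T1.l11 (xR T1.l11 T1.l11))) = true := by decide +kernel
theorem c5_8_7 : chkTag sI cl9 cl7 cl4 t3 b5_8 (Tag.mk false true false RT.tl RT.r6) (I.mix (nat_lit 17240550) (nat_lit 71940500))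
  (xR T3.l11 T3.l2) = true := by decide +kernel
theorem bx5_8 : BoxOK sI cl9 cl7 cl4 t3 t1 b5_8 :=
  box_mk' [(tg true true false RT.r2), (tg true false false RT.r3), (Tag.mk true true false RT.tl RT.r4), (Tag.mk true false false RT.tl RT.r5), (tg false false false RT.r3), (tg false true false RT.r4), (Tag.mk false false false RT.tl RT.r5), (Tag.mk false true false RT.tl RT.r6)] rfl (allL_c (ex_mk c5_8_0) (allL_c (ex_mk c5_8_1) (allL_c (ex_mk c5_8_2) (allL_c (ex_mk c5_8_3) (allL_c (ex_mk c5_8_4) (allL_c (ex_mk c5_8_5) (allL_c (ex_mk c5_8_6) (allL_c (ex_mk c5_8_7) allL_n))))))))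
theorem bx5_9 : BoxOK sI cl9 cl7 cl4 t3 t1 b5_9 :=
  box_mk (TrL.c (I.pos (nat_lit 0) (nat_lit 0)) (xa (xa T3.l12 T3.l12) (xa T3.l12 (xb T3.l12 (xa T3.l12 T3.l12))))
  (TrL.c (I.pos (nat_lit 0) (nat_lit 0)) (xa (xa T1.l8 T1.l8) (xa T1.l8 T1.l8))
  (TrL.c (I.pos (nat_lit 0) (nat_lit 124588530)) (xR T3.l4 (xR T3.l4 T3.l9))
  (TrL.c (I.pos (nat_lit 0) (nat_lit 96881482)) (xR T1.l9 T1.l9)
  (TrL.c (I.pos (nat_lit 0) (nat_lit 0)) (xa T1.l12 T1.l12)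
  (TrL.c (I.pos (nat_lit 0) (nat_lit 0)) T3.l10
  (TrL.c (I.mix (nat_lit 17240550) (nat_lit 96881482)) (xR T1.l11 T1.l11)
  (TrL.c (I.mix (nat_lit 17240550) (nat_lit 71940500)) T3.l4
  TrL.n)))))))) (by decide +kernel)
theorem bx5_10 : BoxOK sI cl9 cl7 cl4 t3 t1 b5_10 :=
  box_mk (TrL.c (I.pos (nat_lit 0) (nat_lit 0)) (xb (xa (xb (xb (xa T3.l12 T3.l12) T3.l12) T3.l12) (xb (xa (xb T3.l0 T3.l12) T3.l0) T3.l12)) (xa T3.l12 T3.l12))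
  (TrL.c (I.pos (nat_lit 0) (nat_lit 0)) (xb T1.l8 T1.l8)
  (TrL.c (I.pos (nat_lit 0) (nat_lit 124588530)) (xR T3.l4 (xR T3.l4 (xR T3.l4 T3.l9)))
  (TrL.c (I.pos (nat_lit 0) (nat_lit 96881482)) (xR T1.l9 T1.l9)
  (TrL.c (I.pos (nat_lit 0) (nat_lit 0)) (xb (xa (xk T1.l12 T1.l12) (xk T1.l12 T1.l12)) (xa T1.l12 T1.l12))
  (TrL.c (I.pos (nat_lit 0) (nat_lit 0)) T3.l10
  (TrL.c (I.mix (nat_lit 17240550) (nat_lit 96881482)) (xR T1.l11 T1.l11)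
  (TrL.c (I.mix (nat_lit 17240550) (nat_lit 71940500)) T3.l4
  TrL.n)))))))) (by decide +kernel)
theorem bx5_11 : BoxOK sI cl9 cl7 cl4 t3 t1 b5_11 :=
  box_mk (TrL.c (I.pos (nat_lit 0) (nat_lit 0)) (xa (xa (xb (xa T3.l12 T3.l12) T3.l12) T3.l12) T3.l12)
  (TrL.c (I.pos (nat_lit 0) (nat_lit 0)) (xa T1.l12 T1.l8)
  (TrL.c (I.pos (nat_lit 0) (nat_lit 124588530)) (xR T3.l4 (xR T3.l4 (xa T3.l9 T3.l9)))
  (TrL.c (I.pos (nat_lit 0) (nat_lit 96881482)) (xR T1.l11 (xR T1.l11 T1.l11))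
  (TrL.c (I.pos (nat_lit 0) (nat_lit 0)) (xa (xa T1.l8 T1.l8) (xa T1.l12 T1.l12))
  (TrL.c (I.pos (nat_lit 0) (nat_lit 0)) T3.l10
  (TrL.c (I.mix (nat_lit 17240550) (nat_lit 96881482)) (xR T1.l11 (xR T1.l11 (xa T1.l11 T1.l11)))
  (TrL.c (I.mix (nat_lit 17240550) (nat_lit 71940500)) T3.l4
  TrL.n)))))))) (by decide +kernel)
theorem c5_12_0 : chkTag sI cl9 cl7 cl4 t3 b5_12 (tg true true false RT.r2) (I.pos (nat_lit 0) (nat_lit 0))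
  (xa (xa (xb (xb (xa T3.l0 T3.l0) (xa T3.l0 T3.l0)) (xb (xa T3.l0 T3.l0) (xa T3.l0 T3.l0))) (xb (xb (xa (xb T3.l0 T3.l0) (xb T3.l0 T3.l0)) (xa T3.l0 T3.l0)) (xa (xb T3.l0 T3.l0) (xb T3.l0 T3.l0)))) (xa (xb (xa (xb (xb T3.l0 T3.l0) T3.l0) (xb (xb T3.l0 T3.l0) T3.l0)) (xa (xb T3.l0 T3.l0) (xb T3.l0 T3.l0))) (xb (xa (xb (xb (xc T3.l0 T3.l0) T3.l0) (xb T3.l0 T3.l0)) (xb (xb (xc T3.l0 T3.l0) T3.l0) (xc T3.l0 (xb T3.l0 T3.l0)))) (xa (xb T3.l0 (xc T3.l0 T3.l0)) (xb (xc T3.l0 (xb T3.l0 T3.l0)) (xc (xb T3.l0 T3.l0) (xk (xb T3.l0 T3.l0) T3.l0))))))) = true := by decide +kernel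
theorem c5_12_1 : chkTag sI cl9 cl7 cl4 t1 b5_12 (tg true false false RT.r3) (I.pos (nat_lit 0) (nat_lit 0))
  (xa (xk (xb T1.l8 T1.l8) (xb T1.l8 T1.l8)) (xk (xb T1.l2 (xa T1.l8 T1.l8)) (xb T1.l8 (xa T1.l8 T1.l8)))) = true := by decide +kernel
theorem c5_12_2 : chkTag sI cl9 cl7 cl4 t3 b5_12 (Tag.mk true true false RT.tl RT.r4) (I.pos (nat_lit 0) (nat_lit 124588530))
  (xR (xR T3.l4 T3.l4) (xR T3.l4 (xR T3.l4 T3.l4))) = true := by decide +kernel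
theorem c5_12_3 : chkTag sI cl9 cl7 cl4 t1 b5_12 (Tag.mk true false false RT.tl RT.r5) (I.pos (nat_lit 0) (nat_lit 96881482))
  (xR (xR T1.l9 T1.l9) (xR T1.l9 (xR T1.l9 (xa T1.l9 T1.l9)))) = true := by decide +kernel
theorem c5_12_4 : chkTag sI cl9 cl7 cl4 t1 b5_12 (tg false false false RT.r3) (I.pos (nat_lit 0) (nat_lit 0))
  (xa (xk (xb (xa T1.l10 T1.l10) (xa T1.l10 T1.l10)) (xb (xa T1.l10 T1.l10) T1.l10)) (xb (xk (xa (xb T1.l10 T1.l10) (xk (xb T1.l10 T1.l10) (xb T1.l10 T1.l10))) (xa (xb T1.l10 T1.l10) (xb (xk T1.l10 T1.l10) (xk T1.l10 T1.l10)))) (xk (xa (xb T1.l10 T1.l10) (xb (xk T1.l10 T1.l10) (xk T1.l10 (xa T1.l10 T1.l10)))) (xa (xb T1.l10 T1.l10) (xb (xk T1.l10 T1.l10) (xk (xa T1.l10 T1.l10) (xa T1.l10 (xb T1.l10 T1.l10)))))))) = true := by decide +kernel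
theorem c5_12_5 : chkTag sI cl9 cl7 cl4 t3 b5_12 (tg false true false RT.r4) (I.pos (nat_lit 0) (nat_lit 0))
  (xk (xa T3.l10 T3.l10) (xa T3.l10 T3.l10)) = true := by decide +kernel
theorem c5_12_6 : chkTag sI cl9 cl7 cl4 t1 b5_12 (Tag.mk false false false RT.tl RT.r5) (I.mix (nat_lit 17240550) (nat_lit 96881482))
  (xR T1.l11 (xR T1.l11 (xR T1.l11 (xk (xR T1.l11 T1.l11) T1.l11)))) = true := by decide +kernel
theorem c5_12_7 : chkTag sI cl9 cl7 cl4 t3 b5_12 (Tag.mk false true false RT.tl RT.r6) (I.mix (nat_lit 17240550) (nat_lit 71940500))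
  (xR T3.l11 (xR T3.l11 (xR T3.l11 T3.l11))) = true := by decide +kernel
theorem bx5_12 : BoxOK sI cl9 cl7 cl4 t3 t1 b5_12 :=
  box_mk' [(tg true true false RT.r2), (tg true false false RT.r3), (Tag.mk true true false RT.tl RT.r4), (Tag.mk true false false RT.tl RT.r5), (tg false false false RT.r3), (tg false true false RT.r4), (Tag.mk false false false RT.tl RT.r5), (Tag.mk false true false RT.tl RT.r6)] rfl (allL_c (ex_mk c5_12_0) (allL_c (ex_mk c5_12_1) (allL_c (ex_mk c5_12_2) (allL_c (ex_mk c5_12_3) (allL_c (ex_mk c5_12_4) (allL_c (ex_mk c5_12_5) (allL_c (ex_mk c5_12_6) (allL_c (ex_mk c5_12_7) allL_n))))))))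
theorem c5_13_0 : chkTag sI cl9 cl7 cl4 t3 b5_13 (tg true true false RT.r2) (I.pos (nat_lit 0) (nat_lit 0))
  (xa (xb (xa (xb (xb (xa T3.l0 T3.l0) (xa T3.l0 T3.l0)) (xb (xa T3.l0 T3.l0) (xa T3.l0 T3.l0))) (xb (xb (xa T3.l0 (xs T3.l0 T3.l0)) (xa T3.l0 T3.l0)) (xb (xa T3.l0 T3.l0) (xa T3.l0 T3.l0)))) (xa (xb (xb (xa T3.l0 T3.l0) (xa T3.l0 T3.l0)) (xb (xs T3.l0 T3.l0) (xs T3.l0 T3.l0))) (xb (xb (xa T3.l0 T3.l0) (xa T3.l0 T3.l0)) (xb (xs T3.l0 T3.l0) (xs T3.l0 T3.l0))))) (xb (xa (xb (xa (xb (xs T3.l0 T3.l0) (xs T3.l0 T3.l0)) (xb (xs T3.l0 T3.l0) (xs T3.l0 T3.l0))) (xb (xa T3.l0 (xs T3.l0 T3.l0)) (xa T3.l0 (xs T3.l0 T3.l0)))) (xb (xa (xb (xs T3.l0 (xk T3.l0 T3.l0)) (xs T3.l0 T3.l0)) (xb (xs T3.l0 (xk T3.l0 T3.l0)) (xs T3.l0 (xk T3.l0 T3.l0)))) (xa (xb (xs T3.l0 T3.l0) (xs T3.l0 T3.l0)) (xb (xs T3.l0 T3.l0) (xs T3.l0 T3.l0))))) (xa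 (xb (xb (xa T3.l0 T3.l0) (xs T3.l0 (xa T3.l0 T3.l0))) (xs (xb T3.l0 T3.l0) (xb (xa T3.l0 T3.l0) T3.l0))) (xb (xa (xs T3.l0 (xb T3.l0 T3.l0)) (xs T3.l0 (xb T3.l0 T3.l0))) (xs (xa T3.l0 T3.l0) (xb (xa T3.l0 T3.l0) (xa T3.l0 T3.l0))))))) = true := by decide +kernel
theorem c5_13_1 : chkTag sI cl9 cl7 cl4 t1 b5_13 (tg true false false RT.r3) (I.pos (nat_lit 0) (nat_lit 0))
  (xk (xa T1.l8 T1.l8) (xa T1.l8 T1.l8)) = true := by decide +kernel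
theorem c5_13_2 : chkTag sI cl9 cl7 cl4 t3 b5_13 (Tag.mk true true false RT.tl RT.r4) (I.pos (nat_lit 0) (nat_lit 124588530))
  (xR T3.l4 (xR T3.l4 (xR T3.l4 T3.l4))) = true := by decide +kernel
theorem c5_13_3 : chkTag sI cl9 cl7 cl4 t1 b5_13 (Tag.mk true false false RT.tl RT.r5) (I.pos (nat_lit 0) (nat_lit 96881482))
  (xR T1.l9 (xR T1.l9 (xR T1.l9 T1.l9))) = true := by decide +kernel
theorem c5_13_4 : chkTag sI cl9 cl7 cl4 t1 b5_13 (tg false false false RT.r3) (I.pos (nat_lit 0) (nat_lit 0))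
  (xk (xa (xb T1.l10 T1.l10) (xb T1.l10 (xb T1.l10 (xk T1.l10 T1.l10)))) (xb T1.l10 (xa (xb T1.l10 T1.l10) (xb T1.l10 (xa T1.l10 (xk T1.l10 (xb T1.l10 T1.l10))))))) = true := by decide +kernel
theorem c5_13_5 : chkTag sI cl9 cl7 cl4 t3 b5_13 (tg false true false RT.r4) (I.pos (nat_lit 0) (nat_lit 0))
  T3.l10 = true := by decide +kernel
theorem c5_13_6 : chkTag sI cl9 cl7 cl4 t1 b5_13 (Tag.mk false false false RT.tl RT.r5) (I.mix (nat_lit 17240550) (nat_lit 96881482))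
  (xR T1.l11 (xR T1.l11 T1.l11)) = true := by decide +kernel
theorem c5_13_7 : chkTag sI cl9 cl7 cl4 t3 b5_13 (Tag.mk false true false RT.tl RT.r6) (I.mix (nat_lit 17240550) (nat_lit 71940500))
  (xR T3.l11 T3.l2) = true := by decide +kernel
theorem bx5_13 : BoxOK sI cl9 cl7 cl4 t3 t1 b5_13 :=
  box_mk' [(tg true true false RT.r2), (tg true false false RT.r3), (Tag.mk true true false RT.tl RT.r4), (Tag.mk true false false RT.tl RT.r5), (tg false false false RT.r3), (tg false true false RT.r4), (Tag.mk false false false RT.tl RT.r5), (Tag.mk false true false RT.tl RT.r6)] rfl (allL_c (ex_mk c5_13_0) (allL_c (ex_mk c5_13_1) (allL_c (ex_mk c5_13_2) (allL_c (ex_mk c5_13_3) (allL_c (ex_mk c5_13_4) (allL_c (ex_mk c5_13_5) (allL_c (ex_mk c5_13_6) (allL_c (ex_mk c5_13_7) allL_n))))))))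
theorem sv5 : StarV sI cl9 cl7 cl4 t3 t1 t5 :=
  (bt_n (bt_n (bt_n (bt_b bx5_0) (bt_n (bt_b bx5_1) (bt_b bx5_2))) (bt_n (bt_n (bt_b bx5_3) (bt_b bx5_4)) (bt_n (bt_b bx5_5) (bt_b bx5_6)))) (bt_n (bt_n (bt_b bx5_7) (bt_n (bt_b bx5_8) (bt_b bx5_9))) (bt_n (bt_n (bt_b bx5_10) (bt_b bx5_11)) (bt_n (bt_b bx5_12) (bt_b bx5_13)))))
def S5 : StarD := StarD.mk cl9 cl7 cl4 3 1 t5
def G : List StarD := [S0, S1, S2, S3, S4, S5]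
theorem so0 : StarOK sI G S0 :=
  star_mk (by decide) (by decide) rfl rfl rfl rfl rfl rfl (rfl : _ = t2) (rfl : _ = t4)
  (st_mk (Pth.l (Pth.l (Pth.l Pth.z))) (nat_lit 146359031) (nat_lit 170113211) (by decide +kernel))
  (st_mk (Pth.l (Pth.l (Pth.l Pth.z))) (nat_lit 184981448) (nat_lit 209491007) (by decide +kernel))
  (st_mk (Pth.l (Pth.l (Pth.l Pth.z))) (nat_lit 230771403) (nat_lit 256311777) (by decide +kernel)) sv0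
theorem so1 : StarOK sI G S1 :=
  star_mk (by decide) (by decide) rfl rfl rfl rfl rfl rfl (rfl : _ = t4) (rfl : _ = t2)
  (st_mk (Pth.l (Pth.l (Pth.l Pth.z))) (nat_lit 119708228) (nat_lit 139484255) (by decide +kernel))
  (st_mk (Pth.l (Pth.l (Pth.l Pth.z))) (nat_lit 156127585) (nat_lit 180405273) (by decide +kernel))
  (st_mk (Pth.l (Pth.l (Pth.l Pth.z))) (nat_lit 201649695) (nat_lit 226949278) (by decide +kernel)) sv1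
theorem so2 : StarOK sI G S2 :=
  star_mk (by decide) (by decide) rfl rfl rfl rfl rfl rfl (rfl : _ = t0) (rfl : _ = t5)
  (st_mk (Pth.l (Pth.l (Pth.l Pth.z))) (nat_lit 371057451) (nat_lit 375799150) (by decide +kernel))
  (st_mk (Pth.l (Pth.l (Pth.l Pth.z))) (nat_lit 407345008) (nat_lit 412746637) (by decide +kernel))
  (st_mk (Pth.l (Pth.l (Pth.l Pth.z))) (nat_lit 449383525) (nat_lit 455634059) (by decide +kernel)) sv2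
theorem so3 : StarOK sI G S3 :=
  star_mk (by decide) (by decide) rfl rfl rfl rfl rfl rfl (rfl : _ = t5) (rfl : _ = t0)
  (st_mk (Pth.l (Pth.l (Pth.l Pth.z))) (nat_lit 116380383) (nat_lit 135352731) (by decide +kernel))
  (st_mk (Pth.l (Pth.l (Pth.l Pth.z))) (nat_lit 152186106) (nat_lit 171672302) (by decide +kernel))
  (st_mk (Pth.l (Pth.l (Pth.l Pth.z))) (nat_lit 191932136) (nat_lit 215903397) (by decide +kernel)) sv3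
theorem so4 : StarOK sI G S4 :=
  star_mk (by decide) (by decide) rfl rfl rfl rfl rfl rfl (rfl : _ = t1) (rfl : _ = t3)
  (st_mk (Pth.l (Pth.l (Pth.l Pth.z))) (nat_lit 367354299) (nat_lit 372010601) (by decide +kernel))
  (st_mk (Pth.l (Pth.l (Pth.l Pth.z))) (nat_lit 402876416) (nat_lit 408159322) (by decide +kernel))
  (st_mk (Pth.l (Pth.l (Pth.l Pth.z))) (nat_lit 443936498) (nat_lit 450019879) (by decide +kernel)) sv4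
theorem so5 : StarOK sI G S5 :=
  star_mk (by decide) (by decide) rfl rfl rfl rfl rfl rfl (rfl : _ = t3) (rfl : _ = t1)
  (st_mk (Pth.l (Pth.l (Pth.l Pth.z))) (nat_lit 140804028) (nat_lit 163484692) (by decide +kernel))
  (st_mk (Pth.l (Pth.l (Pth.l Pth.z))) (nat_lit 176148444) (nat_lit 199320424) (by decide +kernel))
  (st_mk (Pth.l (Pth.l (Pth.l Pth.z))) (nat_lit 217054641) (nat_lit 240911805) (by decide +kernel)) sv5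
theorem ok : GroupOK (nat_lit 238878720) (nat_lit 268435456) G := grp_mk (allS_c so0 (allS_c so1 (allS_c so2 (allS_c so3 (allS_c so4 (allS_c so5 allS_n))))))
theorem cov : GCov G cl4 cl7 cl9 := cov_mk
  ⟨0, by decide, rfl, rfl, rfl⟩ ⟨1, by decide, rfl, rfl, rfl⟩ ⟨2, by decide, rfl, rfl, rfl⟩ ⟨3, by decide, rfl, rfl, rfl⟩ ⟨4, by decide, rfl, rfl, rfl⟩ ⟨5, by decide, rfl, rfl, rfl⟩
end Q145_4

namespace Q146_0
def sI : I := I.pos (nat_lit 0) (nat_lit 91291648)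
def b0_0 : Bx := Bx.mk (St.mk (I.pos (nat_lit 157499392) (nat_lit 264454144)) (I.mix (nat_lit 28491776) (nat_lit 72433664)) (I.mix (nat_lit 129630208) (nat_lit 77250560)) (I.pos (nat_lit 139411456) (nat_lit 335822848)) (I.mix (nat_lit 100171776) (nat_lit 70189056)) (I.mix (nat_lit 88309760) (nat_lit 84377600)) (I.mix (nat_lit 145571840) (nat_lit 169541632)))
  false (nat_lit 3180254)
def b0_1 : Bx := Bx.mk (St.mk (I.mix (nat_lit 19906560) (nat_lit 115916800)) (I.mix (nat_lit 11059200) (nat_lit 36700160)) (I.mix (nat_lit 33570816) (nat_lit 5488640)) (I.pos (nat_lit 40747008) (nat_lit 113475584)) (I.mix (nat_lit 29065216) (nat_lit 37175296)) (I.mix (nat_lit 39190528) (nat_lit 28311552)) (I.mix (nat_lit 29229056) (nat_lit 23871488)))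
  false (nat_lit 0)
def b0_2 : Bx := Bx.mk (St.mk (I.pos (nat_lit 96714752) (nat_lit 139067392)) (I.mix (nat_lit 59408384) (nat_lit 12435456)) (I.neg (nat_lit 8617984) (nat_lit 78331904)) (I.pos (nat_lit 80396288) (nat_lit 135774208)) (I.mix (nat_lit 101482496) (nat_lit 30162944)) (I.mix (nat_lit 54820864) (nat_lit 108462080)) (I.mix (nat_lit 39272448) (nat_lit 92749824)))
  false (nat_lit 0)
def b0_3 : Bx := Bx.mk (St.mk (I.mix (nat_lit 33898496) (nat_lit 66158592)) (I.mix (nat_lit 30949376) (nat_lit 6914048)) (I.neg (nat_lit 4194304) (nat_lit 29392896)) (I.pos (nat_lit 41811968) (nat_lit 80445440)) (I.mix (nat_lit 37830656) (nat_lit 13729792)) (I.mix (nat_lit 20054016) (nat_lit 33243136)) (I.mix (nat_lit 9355264) (nat_lit 16056320)))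
  false (nat_lit 0)
def b0_4 : Bx := Bx.mk (St.mk (I.pos (nat_lit 91226112) (nat_lit 112361472)) (I.mix (nat_lit 10141696) (nat_lit 9207808)) (I.neg (nat_lit 10158080) (nat_lit 32849920)) (I.pos (nat_lit 77266944) (nat_lit 112050176)) (I.mix (nat_lit 24772608) (nat_lit 16842752)) (I.mix (nat_lit 19955712) (nat_lit 20234240)) (I.mix (nat_lit 14974976) (nat_lit 19152896)))
  false (nat_lit 0)
def b0_5 : Bx := Bx.mk (St.mk (I.mix (nat_lit 40288256) (nat_lit 49823744)) (I.mix (nat_lit 6373376) (nat_lit 8355840)) (I.neg (nat_lit 6946816) (nat_lit 18595840)) (I.pos (nat_lit 42942464) (nat_lit 73318400)) (I.mix (nat_lit 14794752) (nat_lit 12107776)) (I.mix (nat_lit 12959744) (nat_lit 15941632)) (I.mix (nat_lit 4423680) (nat_lit 4833280)))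
  false (nat_lit 0)
def b0_6 : Bx := Bx.mk (St.mk (I.pos (nat_lit 89276416) (nat_lit 169295872)) (I.mix (nat_lit 68993024) (nat_lit 10715136)) (I.neg (nat_lit 16711680) (nat_lit 86048768)) (I.pos (nat_lit 90456064) (nat_lit 173244416)) (I.mix (nat_lit 103972864) (nat_lit 52396032)) (I.mix (nat_lit 62210048) (nat_lit 96518144)) (I.mix (nat_lit 42418176) (nat_lit 90800128)))
  false (nat_lit 0)
def b0_7 : Bx := Bx.mk (St.mk (I.mix (nat_lit 26214400) (nat_lit 82083840)) (I.mix (nat_lit 35274752) (nat_lit 5521408)) (I.neg (nat_lit 4358144) (nat_lit 34488320)) (I.pos (nat_lit 40566784) (nat_lit 89620480)) (I.mix (nat_lit 41943040) (nat_lit 28770304)) (I.mix (nat_lit 27557888) (nat_lit 45170688)) (I.mix (nat_lit 15024128) (nat_lit 25952256)))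
  false (nat_lit 0)
def b0_8 : Bx := Bx.mk (St.mk (I.mix (nat_lit 35438592) (nat_lit 114212864)) (I.mix (nat_lit 13975552) (nat_lit 36716544)) (I.mix (nat_lit 24281088) (nat_lit 8126464)) (I.pos (nat_lit 39682048) (nat_lit 109559808)) (I.mix (nat_lit 39616512) (nat_lit 34734080)) (I.mix (nat_lit 56492032) (nat_lit 37912576)) (I.mix (nat_lit 30883840) (nat_lit 20299776)))
  false (nat_lit 0)
def b0_9 : Bx := Bx.mk (St.mk (I.pos (nat_lit 147390464) (nat_lit 225738752)) (I.mix (nat_lit 37109760) (nat_lit 72171520)) (I.mix (nat_lit 63963136) (nat_lit 73220096)) (I.pos (nat_lit 129695744) (nat_lit 253771776)) (I.mix (nat_lit 130269184) (nat_lit 66830336)) (I.mix (nat_lit 160514048) (nat_lit 98140160)) (I.mix (nat_lit 168001536) (nat_lit 102203392)))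
  false (nat_lit 12475536)
def t0 : BTr := (BTr.n (BTr.n (BTr.n (BTr.b b0_0) (BTr.b b0_1)) (BTr.n (BTr.b b0_2) (BTr.n (BTr.b b0_3) (BTr.b b0_4)))) (BTr.n (BTr.n (BTr.b b0_5) (BTr.b b0_6)) (BTr.n (BTr.b b0_7) (BTr.n (BTr.b b0_8) (BTr.b b0_9)))))
namespace T0
def l0 : Tr := Tr.L (Pth.l (Pth.l (Pth.l Pth.z)))
def l1 : Tr := Tr.L (Pth.l (Pth.l (Pth.r Pth.z)))
def l2 : Tr := Tr.L (Pth.l (Pth.r (Pth.l Pth.z)))
def l3 : Tr := Tr.L (Pth.l (Pth.r (Pth.r (Pth.l Pth.z))))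
def l4 : Tr := Tr.L (Pth.l (Pth.r (Pth.r (Pth.r Pth.z))))
def l5 : Tr := Tr.L (Pth.r (Pth.l (Pth.l Pth.z)))
def l6 : Tr := Tr.L (Pth.r (Pth.l (Pth.r Pth.z)))
def l7 : Tr := Tr.L (Pth.r (Pth.r (Pth.l Pth.z)))
def l8 : Tr := Tr.L (Pth.r (Pth.r (Pth.r (Pth.l Pth.z))))
def l9 : Tr := Tr.L (Pth.r (Pth.r (Pth.r (Pth.r Pth.z))))
end T0
def b1_0 : Bx := Bx.mk (St.mk (I.pos (nat_lit 157548544) (nat_lit 263176192)) (I.mix (nat_lit 24805376) (nat_lit 59555840)) (I.mix (nat_lit 89292800) (nat_lit 76627968)) (I.pos (nat_lit 92110848) (nat_lit 283131904)) (I.mix (nat_lit 90882048) (nat_lit 68222976)) (I.mix (nat_lit 88309760) (nat_lit 71745536)) (I.mix (nat_lit 145113088) (nat_lit 143245312)))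
  false (nat_lit 0)
def b1_1 : Bx := Bx.mk (St.mk (I.mix (nat_lit 8683520) (nat_lit 138493952)) (I.mix (nat_lit 8437760) (nat_lit 26001408)) (I.mix (nat_lit 20611072) (nat_lit 14008320)) (I.mix (nat_lit 3080192) (nat_lit 86949888)) (I.mix (nat_lit 23478272) (nat_lit 27754496)) (I.mix (nat_lit 29671424) (nat_lit 20807680)) (I.mix (nat_lit 26312704) (nat_lit 18808832)))
  false (nat_lit 0)
def b1_2 : Bx := Bx.mk (St.mk (I.pos (nat_lit 120274944) (nat_lit 156958720)) (I.mix (nat_lit 49741824) (nat_lit 9994240)) (I.neg (nat_lit 425984) (nat_lit 65093632)) (I.pos (nat_lit 55148544) (nat_lit 108544000)) (I.mix (nat_lit 91947008) (nat_lit 27295744)) (I.mix (nat_lit 47923200) (nat_lit 106987520)) (I.mix (nat_lit 39927808) (nat_lit 104759296)))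
  false (nat_lit 0)
def b1_3 : Bx := Bx.mk (St.mk (I.mix (nat_lit 11943936) (nat_lit 105103360)) (I.mix (nat_lit 23412736) (nat_lit 1490944)) (I.mix (nat_lit 23724032) (nat_lit 1245184)) (I.mix (nat_lit 2211840) (nat_lit 57032704)) (I.mix (nat_lit 35258368) (nat_lit 12681216)) (I.mix (nat_lit 19595264) (nat_lit 37175296)) (I.mix (nat_lit 11616256) (nat_lit 24625152)))
  false (nat_lit 0)
def b1_4 : Bx := Bx.mk (St.mk (I.mix (nat_lit 13795328) (nat_lit 92258304)) (I.mix (nat_lit 1900544) (nat_lit 2523136)) (I.mix (nat_lit 8011776) (nat_lit 786432)) (I.mix (nat_lit 1949696) (nat_lit 47677440)) (I.mix (nat_lit 4947968) (nat_lit 2424832)) (I.mix (nat_lit 2752512) (nat_lit 2965504)) (I.mix (nat_lit 819200) (nat_lit 1441792)))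
  false (nat_lit 0)
def b1_5 : Bx := Bx.mk (St.mk (I.pos (nat_lit 115195904) (nat_lit 134578176)) (I.mix (nat_lit 7782400) (nat_lit 6963200)) (I.neg (nat_lit 2228224) (nat_lit 20004864)) (I.pos (nat_lit 51920896) (nat_lit 84983808)) (I.mix (nat_lit 21168128) (nat_lit 12140544)) (I.mix (nat_lit 15220736) (nat_lit 17907712)) (I.mix (nat_lit 13287424) (nat_lit 18333696)))
  false (nat_lit 0)
def b1_6 : Bx := Bx.mk (St.mk (I.pos (nat_lit 113541120) (nat_lit 183582720)) (I.mix (nat_lit 59621376) (nat_lit 9469952)) (I.neg (nat_lit 9879552) (nat_lit 72040448)) (I.pos (nat_lit 67534848) (nat_lit 144343040)) (I.mix (nat_lit 87916544) (nat_lit 48070656)) (I.mix (nat_lit 53231616) (nat_lit 84410368)) (I.mix (nat_lit 47611904) (nat_lit 91668480)))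
  false (nat_lit 0)
def b1_7 : Bx := Bx.mk (St.mk (I.mix (nat_lit 9584640) (nat_lit 116965376)) (I.mix (nat_lit 26869760) (nat_lit 6160384)) (I.mix (nat_lit 25739264) (nat_lit 1294336)) (I.mix (nat_lit 2506752) (nat_lit 66928640)) (I.mix (nat_lit 31817728) (nat_lit 27148288)) (I.mix (nat_lit 25526272) (nat_lit 38486016)) (I.mix (nat_lit 14843904) (nat_lit 27918336)))
  false (nat_lit 0)
def b1_8 : Bx := Bx.mk (St.mk (I.pos (nat_lit 152764416) (nat_lit 225001472)) (I.mix (nat_lit 43696128) (nat_lit 59817984)) (I.mix (nat_lit 63422464) (nat_lit 76939264)) (I.pos (nat_lit 96813056) (nat_lit 206422016)) (I.mix (nat_lit 127074304) (nat_lit 61276160)) (I.mix (nat_lit 162725888) (nat_lit 83476480)) (I.mix (nat_lit 194281472) (nat_lit 96288768)))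
  false (nat_lit 0)
def b1_9 : Bx := Bx.mk (St.mk (I.mix (nat_lit 13746176) (nat_lit 138690560)) (I.mix (nat_lit 14385152) (nat_lit 31784960)) (I.mix (nat_lit 18989056) (nat_lit 17809408)) (I.mix (nat_lit 3014656) (nat_lit 84705280)) (I.mix (nat_lit 44023808) (nat_lit 27361280)) (I.mix (nat_lit 53067776) (nat_lit 34193408)) (I.mix (nat_lit 37093376) (nat_lit 23117824)))
  false (nat_lit 0)
def t1 : BTr := (BTr.n (BTr.n (BTr.n (BTr.b b1_0) (BTr.b b1_1)) (BTr.n (BTr.b b1_2) (BTr.n (BTr.b b1_3) (BTr.b b1_4)))) (BTr.n (BTr.n (BTr.b b1_5) (BTr.b b1_6)) (BTr.n (BTr.b b1_7) (BTr.n (BTr.b b1_8) (BTr.b b1_9)))))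
namespace T1
def l0 : Tr := Tr.L (Pth.l (Pth.l (Pth.l Pth.z)))
def l1 : Tr := Tr.L (Pth.l (Pth.l (Pth.r Pth.z)))
def l2 : Tr := Tr.L (Pth.l (Pth.r (Pth.l Pth.z)))
def l3 : Tr := Tr.L (Pth.l (Pth.r (Pth.r (Pth.l Pth.z))))
def l4 : Tr := Tr.L (Pth.l (Pth.r (Pth.r (Pth.r Pth.z))))
def l5 : Tr := Tr.L (Pth.r (Pth.l (Pth.l Pth.z)))
def l6 : Tr := Tr.L (Pth.r (Pth.l (Pth.r Pth.z)))
def l7 : Tr := Tr.L (Pth.r (Pth.r (Pth.l Pth.z)))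
def l8 : Tr := Tr.L (Pth.r (Pth.r (Pth.r (Pth.l Pth.z))))
def l9 : Tr := Tr.L (Pth.r (Pth.r (Pth.r (Pth.r Pth.z))))
end T1
def b2_0 : Bx := Bx.mk (St.mk (I.pos (nat_lit 147521536) (nat_lit 286687232)) (I.mix (nat_lit 35569664) (nat_lit 100335616)) (I.mix (nat_lit 192806912) (nat_lit 98091008)) (I.pos (nat_lit 361529344) (nat_lit 578469888)) (I.mix (nat_lit 116604928) (nat_lit 96206848)) (I.mix (nat_lit 122961920) (nat_lit 87326720)) (I.mix (nat_lit 179879936) (nat_lit 133922816)))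
  false (nat_lit 121631170)
def b2_1 : Bx := Bx.mk (St.mk (I.mix (nat_lit 60850176) (nat_lit 13434880)) (I.mix (nat_lit 17825792) (nat_lit 93618176)) (I.neg (nat_lit 45481984) (nat_lit 74301440)) (I.pos (nat_lit 264486912) (nat_lit 290062336)) (I.mix (nat_lit 46645248) (nat_lit 93634560)) (I.mix (nat_lit 99205120) (nat_lit 63700992)) (I.mix (nat_lit 35651584) (nat_lit 31391744)))
  true (nat_lit 0)
def b2_2 : Bx := Bx.mk (St.mk (I.mix (nat_lit 13434880) (nat_lit 60850176)) (I.mix (nat_lit 93618176) (nat_lit 17825792)) (I.neg (nat_lit 45481984) (nat_lit 74301440)) (I.pos (nat_lit 264486912) (nat_lit 290062336)) (I.mix (nat_lit 93634560) (nat_lit 46645248)) (I.mix (nat_lit 63700992) (nat_lit 99205120)) (I.mix (nat_lit 35651584) (nat_lit 31342592)))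
  false (nat_lit 0)
def b2_3 : Bx := Bx.mk (St.mk (I.pos (nat_lit 25231360) (nat_lit 118407168)) (I.neg (nat_lit 3801088) (nat_lit 95617024)) (I.neg (nat_lit 6258688) (nat_lit 90144768)) (I.pos (nat_lit 263241728) (nat_lit 330186752)) (I.mix (nat_lit 100597760) (nat_lit 74465280)) (I.mix (nat_lit 64716800) (nat_lit 113688576)) (I.mix (nat_lit 65765376) (nat_lit 90177536)))
  false (nat_lit 0)
def b2_4 : Bx := Bx.mk (St.mk (I.pos (nat_lit 100368384) (nat_lit 196165632)) (I.mix (nat_lit 40108032) (nat_lit 101138432)) (I.mix (nat_lit 44744704) (nat_lit 98369536)) (I.pos (nat_lit 305233920) (nat_lit 421068800)) (I.mix (nat_lit 130564096) (nat_lit 77529088)) (I.mix (nat_lit 165117952) (nat_lit 96829440)) (I.mix (nat_lit 161710080) (nat_lit 112099328)))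
  false (nat_lit 67173060)
def b2_5 : Bx := Bx.mk (St.mk (I.neg (nat_lit 25214976) (nat_lit 118407168)) (I.pos (nat_lit 3801088) (nat_lit 95617024)) (I.neg (nat_lit 6258688) (nat_lit 90144768)) (I.pos (nat_lit 263225344) (nat_lit 330186752)) (I.mix (nat_lit 74465280) (nat_lit 100597760)) (I.mix (nat_lit 113688576) (nat_lit 64733184)) (I.mix (nat_lit 65765376) (nat_lit 90177536)))
  true (nat_lit 0)
def t2 : BTr := (BTr.n (BTr.n (BTr.b b2_0) (BTr.n (BTr.b b2_1) (BTr.b b2_2))) (BTr.n (BTr.b b2_3) (BTr.n (BTr.b b2_4) (BTr.b b2_5))))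
namespace T2
def l0 : Tr := Tr.L (Pth.l (Pth.l Pth.z))
def l1 : Tr := Tr.L (Pth.l (Pth.r (Pth.l Pth.z)))
def l2 : Tr := Tr.L (Pth.l (Pth.r (Pth.r Pth.z)))
def l3 : Tr := Tr.L (Pth.r (Pth.l Pth.z))
def l4 : Tr := Tr.L (Pth.r (Pth.r (Pth.l Pth.z)))
def l5 : Tr := Tr.L (Pth.r (Pth.r (Pth.r Pth.z)))
end T2
def b3_0 : Bx := Bx.mk (St.mk (I.pos (nat_lit 156975104) (nat_lit 282394624)) (I.mix (nat_lit 22511616) (nat_lit 48480256)) (I.mix (nat_lit 6209536) (nat_lit 115671040)) (I.pos (nat_lit 89899008) (nat_lit 316112896)) (I.mix (nat_lit 96845824) (nat_lit 70434816)) (I.mix (nat_lit 110788608) (nat_lit 79446016)) (I.mix (nat_lit 176553984) (nat_lit 110198784)))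
  false (nat_lit 18173042)
def b3_1 : Bx := Bx.mk (St.mk (I.pos (nat_lit 127451136) (nat_lit 179339264)) (I.neg (nat_lit 2850816) (nat_lit 60964864)) (I.mix (nat_lit 47808512) (nat_lit 17530880)) (I.pos (nat_lit 78102528) (nat_lit 133152768)) (I.mix (nat_lit 71041024) (nat_lit 42549248)) (I.mix (nat_lit 42876928) (nat_lit 60391424)) (I.mix (nat_lit 39501824) (nat_lit 63111168)))
  false (nat_lit 0)
def b3_2 : Bx := Bx.mk (St.mk (I.mix (nat_lit 7700480) (nat_lit 114868224)) (I.mix (nat_lit 26722304) (nat_lit 3883008)) (I.mix (nat_lit 11567104) (nat_lit 11829248)) (I.mix (nat_lit 2408448) (nat_lit 63668224)) (I.mix (nat_lit 22085632) (nat_lit 23543808)) (I.mix (nat_lit 17235968) (nat_lit 24395776)) (I.mix (nat_lit 11780096) (nat_lit 17383424)))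
  false (nat_lit 0)
def b3_3 : Bx := Bx.mk (St.mk (I.pos (nat_lit 165199872) (nat_lit 215515136)) (I.mix (nat_lit 42237952) (nat_lit 53821440)) (I.mix (nat_lit 23592960) (nat_lit 113623040)) (I.pos (nat_lit 106348544) (nat_lit 187596800)) (I.mix (nat_lit 132104192) (nat_lit 56459264)) (I.mix (nat_lit 166559744) (nat_lit 80445440)) (I.mix (nat_lit 220200960) (nat_lit 86425600)))
  false (nat_lit 32566313)
def b3_4 : Bx := Bx.mk (St.mk (I.mix (nat_lit 13090816) (nat_lit 133152768)) (I.mix (nat_lit 14303232) (nat_lit 31670272)) (I.mix (nat_lit 1703936) (nat_lit 37666816)) (I.mix (nat_lit 2883584) (nat_lit 80003072)) (I.mix (nat_lit 55001088) (nat_lit 23117824)) (I.mix (nat_lit 61095936) (nat_lit 33013760)) (I.mix (nat_lit 48463872) (nat_lit 21250048)))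
  false (nat_lit 0)
def b3_5 : Bx := Bx.mk (St.mk (I.mix (nat_lit 14614528) (nat_lit 115998720)) (I.mix (nat_lit 15073280) (nat_lit 4276224)) (I.mix (nat_lit 1916928) (nat_lit 12812288)) (I.mix (nat_lit 2457600) (nat_lit 65208320)) (I.mix (nat_lit 17727488) (nat_lit 12664832)) (I.mix (nat_lit 15663104) (nat_lit 15548416)) (I.mix (nat_lit 11960320) (nat_lit 9732096)))
  false (nat_lit 0)
def b3_6 : Bx := Bx.mk (St.mk (I.pos (nat_lit 157237248) (nat_lit 182616064)) (I.neg (nat_lit 2146304) (nat_lit 35192832)) (I.mix (nat_lit 13549568) (nat_lit 23609344)) (I.pos (nat_lit 98222080) (nat_lit 139165696)) (I.mix (nat_lit 39190528) (nat_lit 25477120)) (I.mix (nat_lit 28295168) (nat_lit 33964032)) (I.mix (nat_lit 36388864) (nat_lit 33964032)))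
  false (nat_lit 0)
def b3_7 : Bx := Bx.mk (St.mk (I.pos (nat_lit 50413568) (nat_lit 140984320)) (I.mix (nat_lit 7618560) (nat_lit 24707072)) (I.pos (nat_lit 327680) (nat_lit 33832960)) (I.pos (nat_lit 11354112) (nat_lit 90112000)) (I.mix (nat_lit 35782656) (nat_lit 28819456)) (I.mix (nat_lit 43843584) (nat_lit 26656768)) (I.mix (nat_lit 38404096) (nat_lit 20021248)))
  false (nat_lit 0)
def b3_8 : Bx := Bx.mk (St.mk (I.pos (nat_lit 117702656) (nat_lit 168673280)) (I.mix (nat_lit 58507264) (nat_lit 9715712)) (I.mix (nat_lit 41418752) (nat_lit 21479424)) (I.pos (nat_lit 53166080) (nat_lit 120111104)) (I.mix (nat_lit 81117184) (nat_lit 36012032)) (I.mix (nat_lit 49119232) (nat_lit 93437952)) (I.mix (nat_lit 41353216) (nat_lit 77348864)))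
  false (nat_lit 0)
def b3_9 : Bx := Bx.mk (St.mk (I.mix (nat_lit 12681216) (nat_lit 110395392)) (I.mix (nat_lit 25296896) (nat_lit 4227072)) (I.mix (nat_lit 9666560) (nat_lit 9453568)) (I.mix (nat_lit 2080768) (nat_lit 60014592)) (I.mix (nat_lit 27705344) (nat_lit 18087936)) (I.mix (nat_lit 20496384) (nat_lit 33832960)) (I.mix (nat_lit 11567104) (nat_lit 19316736)))
  false (nat_lit 0)
def t3 : BTr := (BTr.n (BTr.n (BTr.n (BTr.b b3_0) (BTr.b b3_1)) (BTr.n (BTr.b b3_2) (BTr.n (BTr.b b3_3) (BTr.b b3_4)))) (BTr.n (BTr.n (BTr.b b3_5) (BTr.b b3_6)) (BTr.n (BTr.b b3_7) (BTr.n (BTr.b b3_8) (BTr.b b3_9)))))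
namespace T3
def l0 : Tr := Tr.L (Pth.l (Pth.l (Pth.l Pth.z)))
def l1 : Tr := Tr.L (Pth.l (Pth.l (Pth.r Pth.z)))
def l2 : Tr := Tr.L (Pth.l (Pth.r (Pth.l Pth.z)))
def l3 : Tr := Tr.L (Pth.l (Pth.r (Pth.r (Pth.l Pth.z))))
def l4 : Tr := Tr.L (Pth.l (Pth.r (Pth.r (Pth.r Pth.z))))
def l5 : Tr := Tr.L (Pth.r (Pth.l (Pth.l Pth.z)))
def l6 : Tr := Tr.L (Pth.r (Pth.l (Pth.r Pth.z)))
def l7 : Tr := Tr.L (Pth.r (Pth.r (Pth.l Pth.z)))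
def l8 : Tr := Tr.L (Pth.r (Pth.r (Pth.r (Pth.l Pth.z))))
def l9 : Tr := Tr.L (Pth.r (Pth.r (Pth.r (Pth.r Pth.z))))
end T3
def b4_0 : Bx := Bx.mk (St.mk (I.pos (nat_lit 141099008) (nat_lit 282001408)) (I.mix (nat_lit 20987904) (nat_lit 94633984)) (I.mix (nat_lit 115720192) (nat_lit 121405440)) (I.pos (nat_lit 358563840) (nat_lit 559972352)) (I.mix (nat_lit 124928000) (nat_lit 98811904)) (I.mix (nat_lit 136167424) (nat_lit 83230720)) (I.mix (nat_lit 187678720) (nat_lit 109019136)))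
  false (nat_lit 131768736)
def b4_1 : Bx := Bx.mk (St.mk (I.pos (nat_lit 29933568) (nat_lit 125714432)) (I.neg (nat_lit 2637824) (nat_lit 102170624)) (I.mix (nat_lit 72941568) (nat_lit 23920640)) (I.pos (nat_lit 264192000) (nat_lit 331644928)) (I.mix (nat_lit 96894976) (nat_lit 72630272)) (I.mix (nat_lit 75005952) (nat_lit 97828864)) (I.mix (nat_lit 67928064) (nat_lit 76169216)))
  false (nat_lit 3208174)
def b4_2 : Bx := Bx.mk (St.mk (I.pos (nat_lit 95043584) (nat_lit 191414272)) (I.mix (nat_lit 41795584) (nat_lit 102121472)) (I.mix (nat_lit 19120128) (nat_lit 129171456)) (I.pos (nat_lit 300056576) (nat_lit 410484736)) (I.mix (nat_lit 147587072) (nat_lit 69451776)) (I.mix (nat_lit 162496512) (nat_lit 98566144)) (I.mix (nat_lit 157990912) (nat_lit 119734272)))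
  false (nat_lit 129111771)
def b4_3 : Bx := Bx.mk (St.mk (I.neg (nat_lit 29917184) (nat_lit 125730816)) (I.pos (nat_lit 2637824) (nat_lit 102170624)) (I.mix (nat_lit 72941568) (nat_lit 23937024)) (I.pos (nat_lit 264192000) (nat_lit 331644928)) (I.mix (nat_lit 72630272) (nat_lit 96911360)) (I.mix (nat_lit 97828864) (nat_lit 75005952)) (I.mix (nat_lit 67928064) (nat_lit 76169216)))
  true (nat_lit 0)
def b4_4 : Bx := Bx.mk (St.mk (I.mix (nat_lit 65748992) (nat_lit 8519680)) (I.mix (nat_lit 11075584) (nat_lit 93782016)) (I.neg (nat_lit 26443776) (nat_lit 52133888)) (I.pos (nat_lit 265289728) (nat_lit 290095104)) (I.mix (nat_lit 52264960) (nat_lit 83410944)) (I.mix (nat_lit 97468416) (nat_lit 61079552)) (I.mix (nat_lit 31490048) (nat_lit 27197440)))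
  true (nat_lit 0)
def b4_5 : Bx := Bx.mk (St.mk (I.mix (nat_lit 8519680) (nat_lit 65748992)) (I.mix (nat_lit 93782016) (nat_lit 11075584)) (I.neg (nat_lit 26460160) (nat_lit 52133888)) (I.pos (nat_lit 265289728) (nat_lit 290095104)) (I.mix (nat_lit 83410944) (nat_lit 52264960)) (I.mix (nat_lit 61079552) (nat_lit 97484800)) (I.mix (nat_lit 31490048) (nat_lit 27197440)))
  false (nat_lit 0)
def t4 : BTr := (BTr.n (BTr.n (BTr.b b4_0) (BTr.n (BTr.b b4_1) (BTr.b b4_2))) (BTr.n (BTr.b b4_3) (BTr.n (BTr.b b4_4) (BTr.b b4_5))))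
namespace T4
def l0 : Tr := Tr.L (Pth.l (Pth.l Pth.z))
def l1 : Tr := Tr.L (Pth.l (Pth.r (Pth.l Pth.z)))
def l2 : Tr := Tr.L (Pth.l (Pth.r (Pth.r Pth.z)))
def l3 : Tr := Tr.L (Pth.r (Pth.l Pth.z))
def l4 : Tr := Tr.L (Pth.r (Pth.r (Pth.l Pth.z)))
def l5 : Tr := Tr.L (Pth.r (Pth.r (Pth.r Pth.z)))
end T4
def b5_0 : Bx := Bx.mk (St.mk (I.pos (nat_lit 157073408) (nat_lit 279068672)) (I.mix (nat_lit 17334272) (nat_lit 53772288)) (I.mix (nat_lit 3768320) (nat_lit 128057344)) (I.pos (nat_lit 135774208) (nat_lit 351404032)) (I.mix (nat_lit 106364928) (nat_lit 71303168)) (I.mix (nat_lit 119422976) (nat_lit 75661312)) (I.mix (nat_lit 181583872) (nat_lit 97009664)))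
  false (nat_lit 40081370)
def b5_1 : Bx := Bx.mk (St.mk (I.pos (nat_lit 111427584) (nat_lit 168509440)) (I.neg (nat_lit 5472256) (nat_lit 69943296)) (I.mix (nat_lit 44498944) (nat_lit 28966912)) (I.pos (nat_lit 105512960) (nat_lit 165380096)) (I.mix (nat_lit 72794112) (nat_lit 48267264)) (I.mix (nat_lit 43761664) (nat_lit 60817408)) (I.mix (nat_lit 43368448) (nat_lit 56672256)))
  false (nat_lit 1937589)
def b5_2 : Bx := Bx.mk (St.mk (I.mix (nat_lit 18415616) (nat_lit 80756736)) (I.mix (nat_lit 35307520) (nat_lit 3489792)) (I.mix (nat_lit 5128192) (nat_lit 18726912)) (I.pos (nat_lit 41385984) (nat_lit 87736320)) (I.mix (nat_lit 23363584) (nat_lit 29949952)) (I.mix (nat_lit 23379968) (nat_lit 30081024)) (I.mix (nat_lit 12173312) (nat_lit 16433152)))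
  false (nat_lit 0)
def b5_3 : Bx := Bx.mk (St.mk (I.pos (nat_lit 154288128) (nat_lit 212172800)) (I.mix (nat_lit 44662784) (nat_lit 66158592)) (I.mix (nat_lit 13434880) (nat_lit 134873088)) (I.pos (nat_lit 134905856) (nat_lit 225886208)) (I.mix (nat_lit 147308544) (nat_lit 56311808)) (I.mix (nat_lit 173408256) (nat_lit 92667904)) (I.mix (nat_lit 214351872) (nat_lit 92291072)))
  false (nat_lit 38123365)
def b5_4 : Bx := Bx.mk (St.mk (I.mix (nat_lit 35258368) (nat_lit 104185856)) (I.mix (nat_lit 15302656) (nat_lit 37978112)) (I.pos (nat_lit 1245184) (nat_lit 42500096)) (I.pos (nat_lit 40599552) (nat_lit 102727680)) (I.mix (nat_lit 57458688) (nat_lit 23216128)) (I.mix (nat_lit 57688064) (nat_lit 35094528)) (I.mix (nat_lit 36618240) (nat_lit 21020672)))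
  false (nat_lit 0)
def b5_5 : Bx := Bx.mk (St.mk (I.pos (nat_lit 145784832) (nat_lit 172834816)) (I.neg (nat_lit 2211840) (nat_lit 38617088)) (I.mix (nat_lit 4767744) (nat_lit 37502976)) (I.pos (nat_lit 127139840) (nat_lit 172015616)) (I.mix (nat_lit 39436288) (nat_lit 34734080)) (I.mix (nat_lit 33325056) (nat_lit 40042496)) (I.mix (nat_lit 40632320) (nat_lit 35962880)))
  false (nat_lit 0)
def b5_6 : Bx := Bx.mk (St.mk (I.mix (nat_lit 41615360) (nat_lit 83329024)) (I.mix (nat_lit 16105472) (nat_lit 8208384)) (I.pos (nat_lit 2654208) (nat_lit 20283392)) (I.pos (nat_lit 42582016) (nat_lit 88670208)) (I.mix (nat_lit 20643840) (nat_lit 16400384)) (I.mix (nat_lit 21250048) (nat_lit 18563072)) (I.mix (nat_lit 12517376) (nat_lit 9142272)))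
  false (nat_lit 0)
def b5_7 : Bx := Bx.mk (St.mk (I.mix (nat_lit 27410432) (nat_lit 117981184)) (I.mix (nat_lit 7356416) (nat_lit 33849344)) (I.pos (nat_lit 2686976) (nat_lit 40157184)) (I.pos (nat_lit 40042496) (nat_lit 113442816)) (I.mix (nat_lit 46841856) (nat_lit 32161792)) (I.mix (nat_lit 50315264) (nat_lit 30654464)) (I.mix (nat_lit 35995648) (nat_lit 20480000)))
  false (nat_lit 0)
def b5_8 : Bx := Bx.mk (St.mk (I.pos (nat_lit 96796672) (nat_lit 156467200)) (I.mix (nat_lit 69566464) (nat_lit 9715712)) (I.mix (nat_lit 37863424) (nat_lit 23920640)) (I.pos (nat_lit 80740352) (nat_lit 149700608)) (I.mix (nat_lit 80068608) (nat_lit 39436288)) (I.mix (nat_lit 57933824) (nat_lit 87834624)) (I.mix (nat_lit 39895040) (nat_lit 59703296)))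
  false (nat_lit 2987675)
def b5_9 : Bx := Bx.mk (St.mk (I.mix (nat_lit 26214400) (nat_lit 74694656)) (I.neg (nat_lit 2670592) (nat_lit 32227328)) (I.mix (nat_lit 2670592) (nat_lit 15482880)) (I.pos (nat_lit 41156608) (nat_lit 83214336)) (I.mix (nat_lit 24887296) (nat_lit 23150592)) (I.mix (nat_lit 22888448) (nat_lit 34897920)) (I.mix (nat_lit 8749056) (nat_lit 13189120)))
  false (nat_lit 0)
def t5 : BTr := (BTr.n (BTr.n (BTr.n (BTr.b b5_0) (BTr.b b5_1)) (BTr.n (BTr.b b5_2) (BTr.n (BTr.b b5_3) (BTr.b b5_4)))) (BTr.n (BTr.n (BTr.b b5_5) (BTr.b b5_6)) (BTr.n (BTr.b b5_7) (BTr.n (BTr.b b5_8) (BTr.b b5_9)))))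
namespace T5
def l0 : Tr := Tr.L (Pth.l (Pth.l (Pth.l Pth.z)))
def l1 : Tr := Tr.L (Pth.l (Pth.l (Pth.r Pth.z)))
def l2 : Tr := Tr.L (Pth.l (Pth.r (Pth.l Pth.z)))
def l3 : Tr := Tr.L (Pth.l (Pth.r (Pth.r (Pth.l Pth.z))))
def l4 : Tr := Tr.L (Pth.l (Pth.r (Pth.r (Pth.r Pth.z))))
def l5 : Tr := Tr.L (Pth.r (Pth.l (Pth.l Pth.z)))
def l6 : Tr := Tr.L (Pth.r (Pth.l (Pth.r Pth.z)))
def l7 : Tr := Tr.L (Pth.r (Pth.r (Pth.l Pth.z)))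
def l8 : Tr := Tr.L (Pth.r (Pth.r (Pth.r (Pth.l Pth.z))))
def l9 : Tr := Tr.L (Pth.r (Pth.r (Pth.r (Pth.r Pth.z))))
end T5
theorem bx0_0 : BoxOK sI cl4 cl7 cl13 t2 t4 b0_0 :=
  box_mk (TrL.c (I.pos (nat_lit 0) (nat_lit 0)) (xa (xb T2.l0 (xa T2.l0 T2.l0)) (xb T2.l0 (xa T2.l0 T2.l0)))
  (TrL.c (I.pos (nat_lit 0) (nat_lit 0)) T4.l1
  (TrL.c (I.pos (nat_lit 0) (nat_lit 0)) T2.l1
  (TrL.c (I.pos (nat_lit 0) (nat_lit 0)) (xa T4.l2 (xb (xa T4.l2 (xb (xs T4.l2 T4.l2) T4.l2)) (xa T4.l2 (xs T4.l2 (xb T4.l2 (xa T4.l2 T4.l2))))))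
  (TrL.c (I.pos (nat_lit 0) (nat_lit 0)) T2.l2
  (TrL.c (I.pos (nat_lit 0) (nat_lit 0)) T4.l3
  TrL.n)))))) (by decide +kernel)
theorem bx0_1 : BoxOK sI cl4 cl7 cl13 t2 t4 b0_1 :=
  box_mk (TrL.c (I.pos (nat_lit 0) (nat_lit 0)) T2.l0
  (TrL.c (I.pos (nat_lit 0) (nat_lit 0)) T4.l1
  (TrL.c (I.pos (nat_lit 0) (nat_lit 0)) T2.l1
  (TrL.c (I.pos (nat_lit 0) (nat_lit 0)) T4.l2
  (TrL.c (I.pos (nat_lit 0) (nat_lit 0)) T2.l2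
  (TrL.c (I.pos (nat_lit 0) (nat_lit 0)) T4.l3
  TrL.n)))))) (by decide +kernel)
theorem bx0_2 : BoxOK sI cl4 cl7 cl13 t2 t4 b0_2 :=
  box_mk (TrL.c (I.pos (nat_lit 0) (nat_lit 0)) T2.l0
  (TrL.c (I.pos (nat_lit 0) (nat_lit 0)) T4.l1
  (TrL.c (I.pos (nat_lit 0) (nat_lit 0)) T2.l1
  (TrL.c (I.pos (nat_lit 0) (nat_lit 0)) T4.l2
  (TrL.c (I.pos (nat_lit 0) (nat_lit 0)) T2.l2
  (TrL.c (I.pos (nat_lit 0) (nat_lit 0)) T4.l3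
  TrL.n)))))) (by decide +kernel)
theorem bx0_3 : BoxOK sI cl4 cl7 cl13 t2 t4 b0_3 :=
  box_mk (TrL.c (I.pos (nat_lit 0) (nat_lit 0)) (xa (xa T2.l0 T2.l0) T2.l0)
  (TrL.c (I.pos (nat_lit 0) (nat_lit 0)) T4.l1
  (TrL.c (I.pos (nat_lit 0) (nat_lit 0)) T2.l1
  (TrL.c (I.pos (nat_lit 0) (nat_lit 0)) T4.l2
  (TrL.c (I.pos (nat_lit 0) (nat_lit 0)) T2.l2
  (TrL.c (I.pos (nat_lit 0) (nat_lit 0)) T4.l3
  TrL.n)))))) (by decide +kernel)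
theorem bx0_4 : BoxOK sI cl4 cl7 cl13 t2 t4 b0_4 :=
  box_mk (TrL.c (I.pos (nat_lit 0) (nat_lit 0)) T2.l0
  (TrL.c (I.pos (nat_lit 0) (nat_lit 0)) T4.l1
  (TrL.c (I.pos (nat_lit 0) (nat_lit 0)) T2.l1
  (TrL.c (I.pos (nat_lit 0) (nat_lit 0)) T4.l2
  (TrL.c (I.pos (nat_lit 0) (nat_lit 0)) T2.l2
  (TrL.c (I.pos (nat_lit 0) (nat_lit 0)) T4.l3
  TrL.n)))))) (by decide +kernel)
theorem bx0_5 : BoxOK sI cl4 cl7 cl13 t2 t4 b0_5 :=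
  box_mk (TrL.c (I.pos (nat_lit 0) (nat_lit 0)) T2.l0
  (TrL.c (I.pos (nat_lit 0) (nat_lit 0)) T4.l1
  (TrL.c (I.pos (nat_lit 0) (nat_lit 0)) T2.l1
  (TrL.c (I.pos (nat_lit 0) (nat_lit 0)) T4.l2
  (TrL.c (I.pos (nat_lit 0) (nat_lit 0)) T2.l2
  (TrL.c (I.pos (nat_lit 0) (nat_lit 0)) T4.l3
  TrL.n)))))) (by decide +kernel)
theorem bx0_6 : BoxOK sI cl4 cl7 cl13 t2 t4 b0_6 :=
  box_mk (TrL.c (I.pos (nat_lit 0) (nat_lit 0)) T2.l0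
  (TrL.c (I.pos (nat_lit 0) (nat_lit 0)) T4.l1
  (TrL.c (I.pos (nat_lit 0) (nat_lit 0)) T2.l1
  (TrL.c (I.pos (nat_lit 0) (nat_lit 0)) T4.l2
  (TrL.c (I.pos (nat_lit 0) (nat_lit 0)) T2.l2
  (TrL.c (I.pos (nat_lit 0) (nat_lit 0)) T4.l3
  TrL.n)))))) (by decide +kernel)
theorem bx0_7 : BoxOK sI cl4 cl7 cl13 t2 t4 b0_7 :=
  box_mk (TrL.c (I.pos (nat_lit 0) (nat_lit 0)) (xa (xa (xb T2.l0 T2.l0) T2.l0) T2.l0)
  (TrL.c (I.pos (nat_lit 0) (nat_lit 0)) T4.l1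
  (TrL.c (I.pos (nat_lit 0) (nat_lit 0)) T2.l1
  (TrL.c (I.pos (nat_lit 0) (nat_lit 0)) T4.l2
  (TrL.c (I.pos (nat_lit 0) (nat_lit 0)) T2.l2
  (TrL.c (I.pos (nat_lit 0) (nat_lit 0)) T4.l3
  TrL.n)))))) (by decide +kernel)
theorem bx0_8 : BoxOK sI cl4 cl7 cl13 t2 t4 b0_8 :=
  box_mk (TrL.c (I.pos (nat_lit 0) (nat_lit 0)) (xa (xa (xb T2.l0 (xa T2.l0 T2.l0)) T2.l0) T2.l0)
  (TrL.c (I.pos (nat_lit 0) (nat_lit 0)) T4.l1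
  (TrL.c (I.pos (nat_lit 0) (nat_lit 0)) T2.l1
  (TrL.c (I.pos (nat_lit 0) (nat_lit 0)) T4.l2
  (TrL.c (I.pos (nat_lit 0) (nat_lit 0)) T2.l2
  (TrL.c (I.pos (nat_lit 0) (nat_lit 0)) T4.l3
  TrL.n)))))) (by decide +kernel)
theorem bx0_9 : BoxOK sI cl4 cl7 cl13 t2 t4 b0_9 :=
  box_mk (TrL.c (I.pos (nat_lit 0) (nat_lit 0)) (xb (xa T2.l0 T2.l0) (xa (xa T2.l0 T2.l0) (xa T2.l0 T2.l0)))
  (TrL.c (I.pos (nat_lit 0) (nat_lit 0)) T4.l1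
  (TrL.c (I.pos (nat_lit 0) (nat_lit 0)) T2.l1
  (TrL.c (I.pos (nat_lit 0) (nat_lit 0)) (xb (xa T4.l2 T4.l2) (xa T4.l2 (xs T4.l2 (xb T4.l2 T4.l2))))
  (TrL.c (I.pos (nat_lit 0) (nat_lit 0)) T2.l2
  (TrL.c (I.pos (nat_lit 0) (nat_lit 0)) T4.l3
  TrL.n)))))) (by decide +kernel)
theorem sv0 : StarV sI cl4 cl7 cl13 t2 t4 t0 :=
  (bt_n (bt_n (bt_n (bt_b bx0_0) (bt_b bx0_1)) (bt_n (bt_b bx0_2) (bt_n (bt_b bx0_3) (bt_b bx0_4)))) (bt_n (bt_n (bt_b bx0_5) (bt_b bx0_6)) (bt_n (bt_b bx0_7) (bt_n (bt_b bx0_8) (bt_b bx0_9)))))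
def S0 : StarD := StarD.mk cl4 cl7 cl13 2 4 t0
theorem bx1_0 : BoxOK sI cl4 cl13 cl7 t4 t2 b1_0 :=
  box_mk (TrL.c (I.pos (nat_lit 0) (nat_lit 0)) (xa (xb T4.l0 (xa T4.l0 T4.l0)) (xb (xa T4.l0 T4.l0) (xa T4.l0 T4.l0)))
  (TrL.c (I.pos (nat_lit 0) (nat_lit 0)) (xa T2.l3 T2.l3)
  (TrL.c (I.pos (nat_lit 0) (nat_lit 0)) T4.l4
  (TrL.c (I.pos (nat_lit 0) (nat_lit 0)) (xa T2.l4 (xb (xa T2.l4 (xb T2.l4 T2.l4)) (xa T2.l4 (xs T2.l4 (xb T2.l4 T2.l4)))))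
  (TrL.c (I.pos (nat_lit 0) (nat_lit 0)) T4.l5
  (TrL.c (I.pos (nat_lit 0) (nat_lit 0)) (xa T2.l5 T2.l5)
  TrL.n)))))) (by decide +kernel)
theorem bx1_1 : BoxOK sI cl4 cl13 cl7 t4 t2 b1_1 :=
  box_mk (TrL.c (I.pos (nat_lit 0) (nat_lit 0)) T4.l0
  (TrL.c (I.pos (nat_lit 0) (nat_lit 0)) T2.l3
  (TrL.c (I.pos (nat_lit 0) (nat_lit 0)) T4.l4
  (TrL.c (I.pos (nat_lit 0) (nat_lit 0)) T2.l4
  (TrL.c (I.pos (nat_lit 0) (nat_lit 0)) T4.l5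
  (TrL.c (I.pos (nat_lit 0) (nat_lit 0)) T2.l5
  TrL.n)))))) (by decide +kernel)
theorem bx1_2 : BoxOK sI cl4 cl13 cl7 t4 t2 b1_2 :=
  box_mk (TrL.c (I.pos (nat_lit 0) (nat_lit 0)) T4.l0
  (TrL.c (I.pos (nat_lit 0) (nat_lit 0)) T2.l3
  (TrL.c (I.pos (nat_lit 0) (nat_lit 0)) T4.l4
  (TrL.c (I.pos (nat_lit 0) (nat_lit 0)) T2.l4
  (TrL.c (I.pos (nat_lit 0) (nat_lit 0)) T4.l5
  (TrL.c (I.pos (nat_lit 0) (nat_lit 0)) T2.l5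
  TrL.n)))))) (by decide +kernel)
theorem bx1_3 : BoxOK sI cl4 cl13 cl7 t4 t2 b1_3 :=
  box_mk (TrL.c (I.pos (nat_lit 0) (nat_lit 0)) (xa T4.l0 T4.l0)
  (TrL.c (I.pos (nat_lit 0) (nat_lit 0)) T2.l3
  (TrL.c (I.pos (nat_lit 0) (nat_lit 0)) T4.l4
  (TrL.c (I.pos (nat_lit 0) (nat_lit 0)) T2.l4
  (TrL.c (I.pos (nat_lit 0) (nat_lit 0)) T4.l5
  (TrL.c (I.pos (nat_lit 0) (nat_lit 0)) T2.l5
  TrL.n)))))) (by decide +kernel)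
theorem bx1_4 : BoxOK sI cl4 cl13 cl7 t4 t2 b1_4 :=
  box_mk (TrL.c (I.pos (nat_lit 0) (nat_lit 0)) T4.l0
  (TrL.c (I.pos (nat_lit 0) (nat_lit 0)) T2.l3
  (TrL.c (I.pos (nat_lit 0) (nat_lit 0)) T4.l4
  (TrL.c (I.pos (nat_lit 0) (nat_lit 0)) T2.l4
  (TrL.c (I.pos (nat_lit 0) (nat_lit 0)) T4.l5
  (TrL.c (I.pos (nat_lit 0) (nat_lit 0)) T2.l5
  TrL.n)))))) (by decide +kernel)
theorem bx1_5 : BoxOK sI cl4 cl13 cl7 t4 t2 b1_5 :=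
  box_mk (TrL.c (I.pos (nat_lit 0) (nat_lit 0)) T4.l0
  (TrL.c (I.pos (nat_lit 0) (nat_lit 0)) T2.l3
  (TrL.c (I.pos (nat_lit 0) (nat_lit 0)) T4.l4
  (TrL.c (I.pos (nat_lit 0) (nat_lit 0)) T2.l4
  (TrL.c (I.pos (nat_lit 0) (nat_lit 0)) T4.l5
  (TrL.c (I.pos (nat_lit 0) (nat_lit 0)) T2.l5
  TrL.n)))))) (by decide +kernel)
theorem bx1_6 : BoxOK sI cl4 cl13 cl7 t4 t2 b1_6 :=
  box_mk (TrL.c (I.pos (nat_lit 0) (nat_lit 0)) T4.l0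
  (TrL.c (I.pos (nat_lit 0) (nat_lit 0)) T2.l3
  (TrL.c (I.pos (nat_lit 0) (nat_lit 0)) T4.l4
  (TrL.c (I.pos (nat_lit 0) (nat_lit 0)) T2.l4
  (TrL.c (I.pos (nat_lit 0) (nat_lit 0)) T4.l5
  (TrL.c (I.pos (nat_lit 0) (nat_lit 0)) T2.l5
  TrL.n)))))) (by decide +kernel)
theorem bx1_7 : BoxOK sI cl4 cl13 cl7 t4 t2 b1_7 :=
  box_mk (TrL.c (I.pos (nat_lit 0) (nat_lit 0)) (xa (xa (xa (xb T4.l0 T4.l0) T4.l0) T4.l0) T4.l0)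
  (TrL.c (I.pos (nat_lit 0) (nat_lit 0)) T2.l3
  (TrL.c (I.pos (nat_lit 0) (nat_lit 0)) T4.l4
  (TrL.c (I.pos (nat_lit 0) (nat_lit 0)) T2.l4
  (TrL.c (I.pos (nat_lit 0) (nat_lit 0)) T4.l5
  (TrL.c (I.pos (nat_lit 0) (nat_lit 0)) T2.l5
  TrL.n)))))) (by decide +kernel)
theorem bx1_8 : BoxOK sI cl4 cl13 cl7 t4 t2 b1_8 :=
  box_mk (TrL.c (I.pos (nat_lit 0) (nat_lit 0)) (xb (xa T4.l0 T4.l0) (xa (xa T4.l0 T4.l0) (xa T4.l0 T4.l0)))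
  (TrL.c (I.pos (nat_lit 0) (nat_lit 0)) T2.l3
  (TrL.c (I.pos (nat_lit 0) (nat_lit 0)) T4.l4
  (TrL.c (I.pos (nat_lit 0) (nat_lit 0)) (xb (xa T2.l4 T2.l4) (xa T2.l4 T2.l4))
  (TrL.c (I.pos (nat_lit 0) (nat_lit 0)) T4.l5
  (TrL.c (I.pos (nat_lit 0) (nat_lit 0)) T2.l5
  TrL.n)))))) (by decide +kernel)
theorem bx1_9 : BoxOK sI cl4 cl13 cl7 t4 t2 b1_9 :=
  box_mk (TrL.c (I.pos (nat_lit 0) (nat_lit 0)) (xa (xa T4.l0 T4.l0) T4.l0)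
  (TrL.c (I.pos (nat_lit 0) (nat_lit 0)) T2.l3
  (TrL.c (I.pos (nat_lit 0) (nat_lit 0)) T4.l4
  (TrL.c (I.pos (nat_lit 0) (nat_lit 0)) (xa T2.l4 T2.l4)
  (TrL.c (I.pos (nat_lit 0) (nat_lit 0)) T4.l5
  (TrL.c (I.pos (nat_lit 0) (nat_lit 0)) T2.l5
  TrL.n)))))) (by decide +kernel)
theorem sv1 : StarV sI cl4 cl13 cl7 t4 t2 t1 :=
  (bt_n (bt_n (bt_n (bt_b bx1_0) (bt_b bx1_1)) (bt_n (bt_b bx1_2) (bt_n (bt_b bx1_3) (bt_b bx1_4)))) (bt_n (bt_n (bt_b bx1_5) (bt_b bx1_6)) (bt_n (bt_b bx1_7) (bt_n (bt_b bx1_8) (bt_b bx1_9)))))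
def S1 : StarD := StarD.mk cl4 cl13 cl7 4 2 t1
theorem bx2_0 : BoxOK sI cl7 cl4 cl13 t0 t5 b2_0 :=
  box_mk (TrL.c (I.pos (nat_lit 0) (nat_lit 0)) (xa (xb T0.l0 T0.l0) (xb T0.l0 T0.l0))
  (TrL.c (I.pos (nat_lit 0) (nat_lit 0)) T5.l1
  (TrL.c (I.pos (nat_lit 0) (nat_lit 111196574)) (xR T0.l1 (xR T0.l1 T0.l8))
  (TrL.c (I.pos (nat_lit 0) (nat_lit 77433728)) (xR T5.l2 T5.l2)
  (TrL.c (I.pos (nat_lit 0) (nat_lit 0)) (xa (xb (xk T5.l3 T5.l3) T5.l3) (xb (xk (xa T5.l3 (xb T5.l3 T5.l3)) (xa T5.l3 (xb T5.l3 T5.l3))) (xk (xa T5.l3 (xs (xk T5.l3 T5.l3) (xb T5.l3 T5.l3))) (xa T5.l3 (xs (xk T5.l3 T5.l3) (xb T5.l3 T5.l3))))))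
  (TrL.c (I.pos (nat_lit 0) (nat_lit 0)) T0.l2
  (TrL.c (I.mix (nat_lit 29511666) (nat_lit 77433728)) (xR T5.l4 (xR T5.l4 T5.l4))
  (TrL.c (I.mix (nat_lit 29511666) (nat_lit 46070178)) (xR T0.l3 T0.l7)
  TrL.n)))))))) (by decide +kernel)
theorem bx2_1 : BoxOK sI cl7 cl4 cl13 t0 t5 b2_1 :=
  box_mk (TrL.c (I.pos (nat_lit 0) (nat_lit 0)) T5.l5
  (TrL.c (I.pos (nat_lit 0) (nat_lit 0)) T0.l1
  (TrL.c (I.mix (nat_lit 29511666) (nat_lit 77433728)) (xR T5.l6 T5.l4)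
  (TrL.c (I.mix (nat_lit 29511666) (nat_lit 46070178)) (xR T0.l5 T0.l1)
  TrL.n)))) (by decide +kernel)
theorem bx2_2 : BoxOK sI cl7 cl4 cl13 t0 t5 b2_2 :=
  box_mk (TrL.c (I.pos (nat_lit 0) (nat_lit 0)) (xb (xa (xs (xb T0.l0 T0.l0) T0.l0) T0.l0) T0.l0)
  (TrL.c (I.pos (nat_lit 0) (nat_lit 0)) T5.l5
  (TrL.c (I.pos (nat_lit 0) (nat_lit 111196574)) T0.l1
  (TrL.c (I.pos (nat_lit 0) (nat_lit 77433728)) T5.l4
  (TrL.c (I.pos (nat_lit 0) (nat_lit 0)) T5.l3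
  (TrL.c (I.pos (nat_lit 0) (nat_lit 0)) T0.l2
  (TrL.c (I.mix (nat_lit 29511666) (nat_lit 77433728)) T5.l4
  (TrL.c (I.mix (nat_lit 29511666) (nat_lit 46070178)) T0.l8
  TrL.n)))))))) (by decide +kernel)
theorem bx2_3 : BoxOK sI cl7 cl4 cl13 t0 t5 b2_3 :=
  box_mk (TrL.c (I.pos (nat_lit 0) (nat_lit 0)) (xa (xb (xa T0.l0 T0.l0) T0.l0) T0.l0)
  (TrL.c (I.pos (nat_lit 0) (nat_lit 0)) T5.l1
  (TrL.c (I.pos (nat_lit 0) (nat_lit 111196574)) (xR T0.l1 T0.l1)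
  (TrL.c (I.pos (nat_lit 0) (nat_lit 77433728)) (xR T5.l4 T5.l6)
  (TrL.c (I.pos (nat_lit 0) (nat_lit 0)) T5.l3
  (TrL.c (I.pos (nat_lit 0) (nat_lit 0)) T0.l2
  (TrL.c (I.mix (nat_lit 29511666) (nat_lit 77433728)) (xR T5.l4 T5.l4)
  (TrL.c (I.mix (nat_lit 29511666) (nat_lit 46070178)) T0.l8
  TrL.n)))))))) (by decide +kernel)
theorem bx2_4 : BoxOK sI cl7 cl4 cl13 t0 t5 b2_4 :=
  box_mk (TrL.c (I.pos (nat_lit 0) (nat_lit 0)) (xb (xa T0.l0 T0.l0) (xa T0.l0 T0.l0))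
  (TrL.c (I.pos (nat_lit 0) (nat_lit 0)) T5.l1
  (TrL.c (I.pos (nat_lit 0) (nat_lit 111196574)) (xR T0.l1 T0.l1)
  (TrL.c (I.pos (nat_lit 0) (nat_lit 77433728)) (xR T5.l2 T5.l2)
  (TrL.c (I.pos (nat_lit 0) (nat_lit 0)) (xb (xa T5.l3 T5.l3) T5.l3)
  (TrL.c (I.pos (nat_lit 0) (nat_lit 0)) T0.l2
  (TrL.c (I.mix (nat_lit 29511666) (nat_lit 77433728)) (xR T5.l4 T5.l4)
  (TrL.c (I.mix (nat_lit 29511666) (nat_lit 46070178)) (xR T0.l3 T0.l7)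
  TrL.n)))))))) (by decide +kernel)
theorem bx2_5 : BoxOK sI cl7 cl4 cl13 t0 t5 b2_5 :=
  box_mk (TrL.c (I.pos (nat_lit 0) (nat_lit 0)) T5.l1
  (TrL.c (I.pos (nat_lit 0) (nat_lit 0)) T0.l1
  (TrL.c (I.mix (nat_lit 29511666) (nat_lit 77433728)) (xR T5.l6 T5.l6)
  (TrL.c (I.mix (nat_lit 29511666) (nat_lit 46070178)) (xR T0.l5 T0.l1)
  TrL.n)))) (by decide +kernel)
theorem sv2 : StarV sI cl7 cl4 cl13 t0 t5 t2 :=
  (bt_n (bt_n (bt_b bx2_0) (bt_n (bt_b bx2_1) (bt_b bx2_2))) (bt_n (bt_b bx2_3) (bt_n (bt_b bx2_4) (bt_b bx2_5))))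
def S2 : StarD := StarD.mk cl7 cl4 cl13 0 5 t2
theorem bx3_0 : BoxOK sI cl7 cl13 cl4 t5 t0 b3_0 :=
  box_mk (TrL.c (I.pos (nat_lit 0) (nat_lit 0)) (xa (xa (xb T5.l0 (xs T5.l0 T5.l0)) (xb (xs T5.l0 T5.l0) T5.l0)) (xa (xs T5.l0 (xb T5.l0 T5.l0)) (xs T5.l0 (xb (xb T5.l0 T5.l0) T5.l3))))
  (TrL.c (I.pos (nat_lit 0) (nat_lit 0)) T0.l6
  (TrL.c (I.pos (nat_lit 0) (nat_lit 111196574)) (xR (xR T5.l7 T5.l7) (xR T5.l7 T5.l7))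
  (TrL.c (I.pos (nat_lit 0) (nat_lit 77433728)) (xR T0.l7 T0.l7)
  (TrL.c (I.pos (nat_lit 0) (nat_lit 0)) (xa (xa T0.l9 T0.l9) (xa (xb T0.l9 T0.l9) (xk (xb T0.l9 T0.l9) (xb T0.l9 T0.l9))))
  (TrL.c (I.pos (nat_lit 0) (nat_lit 0)) T5.l8
  (TrL.c (I.mix (nat_lit 29511666) (nat_lit 77433728)) (xR T0.l8 (xR T0.l8 T0.l8))
  (TrL.c (I.mix (nat_lit 29511666) (nat_lit 46070178)) (xR T5.l9 T5.l9)
  TrL.n)))))))) (by decide +kernel)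
theorem bx3_1 : BoxOK sI cl7 cl13 cl4 t5 t0 b3_1 :=
  box_mk (TrL.c (I.pos (nat_lit 0) (nat_lit 0)) T5.l0
  (TrL.c (I.pos (nat_lit 0) (nat_lit 0)) T0.l6
  (TrL.c (I.pos (nat_lit 0) (nat_lit 111196574)) (xR T5.l7 T5.l7)
  (TrL.c (I.pos (nat_lit 0) (nat_lit 77433728)) (xR T0.l7 T0.l7)
  (TrL.c (I.pos (nat_lit 0) (nat_lit 0)) T0.l9
  (TrL.c (I.pos (nat_lit 0) (nat_lit 0)) T5.l8
  (TrL.c (I.mix (nat_lit 29511666) (nat_lit 77433728)) (xR T0.l8 T0.l8)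
  (TrL.c (I.mix (nat_lit 29511666) (nat_lit 46070178)) T5.l4
  TrL.n)))))))) (by decide +kernel)
theorem bx3_2 : BoxOK sI cl7 cl13 cl4 t5 t0 b3_2 :=
  box_mk (TrL.c (I.pos (nat_lit 0) (nat_lit 0)) (xa (xa T5.l0 T5.l0) T5.l0)
  (TrL.c (I.pos (nat_lit 0) (nat_lit 0)) T0.l6
  (TrL.c (I.pos (nat_lit 0) (nat_lit 111196574)) T5.l7
  (TrL.c (I.pos (nat_lit 0) (nat_lit 77433728)) (xR T0.l7 T0.l7)
  (TrL.c (I.pos (nat_lit 0) (nat_lit 0)) (xa T0.l9 T0.l9)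
  (TrL.c (I.pos (nat_lit 0) (nat_lit 0)) T5.l8
  (TrL.c (I.mix (nat_lit 29511666) (nat_lit 77433728)) (xR T0.l8 T0.l8)
  (TrL.c (I.mix (nat_lit 29511666) (nat_lit 46070178)) T5.l4
  TrL.n)))))))) (by decide +kernel)
theorem bx3_3 : BoxOK sI cl7 cl13 cl4 t5 t0 b3_3 :=
  box_mk (TrL.c (I.pos (nat_lit 0) (nat_lit 0)) (xb (xa T5.l0 T5.l0) (xa (xs T5.l0 (xb T5.l0 T5.l0)) (xs T5.l0 T5.l0)))
  (TrL.c (I.pos (nat_lit 0) (nat_lit 0)) T0.l6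
  (TrL.c (I.pos (nat_lit 0) (nat_lit 111196574)) (xR T5.l7 (xR T5.l7 T5.l7))
  (TrL.c (I.pos (nat_lit 0) (nat_lit 77433728)) (xR T0.l7 T0.l7)
  (TrL.c (I.pos (nat_lit 0) (nat_lit 0)) (xb (xk T0.l9 T0.l9) T0.l9)
  (TrL.c (I.pos (nat_lit 0) (nat_lit 0)) T5.l8
  (TrL.c (I.mix (nat_lit 29511666) (nat_lit 77433728)) (xR T0.l8 T0.l8)
  (TrL.c (I.mix (nat_lit 29511666) (nat_lit 46070178)) (xR T5.l9 T5.l9)
  TrL.n)))))))) (by decide +kernel)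
theorem bx3_4 : BoxOK sI cl7 cl13 cl4 t5 t0 b3_4 :=
  box_mk (TrL.c (I.pos (nat_lit 0) (nat_lit 0)) (xa T5.l0 (xa T5.l0 T5.l0))
  (TrL.c (I.pos (nat_lit 0) (nat_lit 0)) (xa T0.l6 T0.l6)
  (TrL.c (I.pos (nat_lit 0) (nat_lit 111196574)) (xR T5.l7 T5.l7)
  (TrL.c (I.pos (nat_lit 0) (nat_lit 77433728)) (xR T0.l7 T0.l7)
  (TrL.c (I.pos (nat_lit 0) (nat_lit 0)) (xa T0.l9 T0.l9)
  (TrL.c (I.pos (nat_lit 0) (nat_lit 0)) T5.l8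
  (TrL.c (I.mix (nat_lit 29511666) (nat_lit 77433728)) (xR T0.l8 T0.l8)
  (TrL.c (I.mix (nat_lit 29511666) (nat_lit 46070178)) T5.l4
  TrL.n)))))))) (by decide +kernel)
theorem bx3_5 : BoxOK sI cl7 cl13 cl4 t5 t0 b3_5 :=
  box_mk (TrL.c (I.pos (nat_lit 0) (nat_lit 0)) (xa T5.l0 T5.l0)
  (TrL.c (I.pos (nat_lit 0) (nat_lit 0)) T0.l6
  (TrL.c (I.pos (nat_lit 0) (nat_lit 111196574)) T5.l7
  (TrL.c (I.pos (nat_lit 0) (nat_lit 77433728)) (xR T0.l7 T0.l7)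
  (TrL.c (I.pos (nat_lit 0) (nat_lit 0)) (xa T0.l9 T0.l9)
  (TrL.c (I.pos (nat_lit 0) (nat_lit 0)) T5.l8
  (TrL.c (I.mix (nat_lit 29511666) (nat_lit 77433728)) T0.l8
  (TrL.c (I.mix (nat_lit 29511666) (nat_lit 46070178)) T5.l4
  TrL.n)))))))) (by decide +kernel)
theorem bx3_6 : BoxOK sI cl7 cl13 cl4 t5 t0 b3_6 :=
  box_mk (TrL.c (I.pos (nat_lit 0) (nat_lit 0)) T5.l0
  (TrL.c (I.pos (nat_lit 0) (nat_lit 0)) T0.l6
  (TrL.c (I.pos (nat_lit 0) (nat_lit 111196574)) (xR T5.l7 T5.l7)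
  (TrL.c (I.pos (nat_lit 0) (nat_lit 77433728)) (xR T0.l7 T0.l7)
  (TrL.c (I.pos (nat_lit 0) (nat_lit 0)) T0.l9
  (TrL.c (I.pos (nat_lit 0) (nat_lit 0)) T5.l8
  (TrL.c (I.mix (nat_lit 29511666) (nat_lit 77433728)) (xR T0.l8 T0.l8)
  (TrL.c (I.mix (nat_lit 29511666) (nat_lit 46070178)) T5.l9
  TrL.n)))))))) (by decide +kernel)
theorem bx3_7 : BoxOK sI cl7 cl13 cl4 t5 t0 b3_7 :=
  box_mk (TrL.c (I.pos (nat_lit 0) (nat_lit 0)) (xa T5.l0 T5.l0)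
  (TrL.c (I.pos (nat_lit 0) (nat_lit 0)) T0.l6
  (TrL.c (I.pos (nat_lit 0) (nat_lit 111196574)) (xR T5.l7 T5.l7)
  (TrL.c (I.pos (nat_lit 0) (nat_lit 77433728)) T0.l7
  (TrL.c (I.pos (nat_lit 0) (nat_lit 0)) T0.l9
  (TrL.c (I.pos (nat_lit 0) (nat_lit 0)) T5.l8
  (TrL.c (I.mix (nat_lit 29511666) (nat_lit 77433728)) (xR T0.l8 T0.l8)
  (TrL.c (I.mix (nat_lit 29511666) (nat_lit 46070178)) T5.l4
  TrL.n)))))))) (by decide +kernel)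
theorem bx3_8 : BoxOK sI cl7 cl13 cl4 t5 t0 b3_8 :=
  box_mk (TrL.c (I.pos (nat_lit 0) (nat_lit 0)) T5.l0
  (TrL.c (I.pos (nat_lit 0) (nat_lit 0)) T0.l6
  (TrL.c (I.pos (nat_lit 0) (nat_lit 111196574)) (xR T5.l7 T5.l7)
  (TrL.c (I.pos (nat_lit 0) (nat_lit 77433728)) (xR T0.l7 T0.l7)
  (TrL.c (I.pos (nat_lit 0) (nat_lit 0)) T0.l9
  (TrL.c (I.pos (nat_lit 0) (nat_lit 0)) T5.l8
  (TrL.c (I.mix (nat_lit 29511666) (nat_lit 77433728)) (xR T0.l8 T0.l8)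
  (TrL.c (I.mix (nat_lit 29511666) (nat_lit 46070178)) T5.l4
  TrL.n)))))))) (by decide +kernel)
theorem bx3_9 : BoxOK sI cl7 cl13 cl4 t5 t0 b3_9 :=
  box_mk (TrL.c (I.pos (nat_lit 0) (nat_lit 0)) (xa (xa T5.l0 T5.l0) T5.l0)
  (TrL.c (I.pos (nat_lit 0) (nat_lit 0)) T0.l6
  (TrL.c (I.pos (nat_lit 0) (nat_lit 111196574)) (xR T5.l7 T5.l7)
  (TrL.c (I.pos (nat_lit 0) (nat_lit 77433728)) (xR T0.l7 T0.l7)
  (TrL.c (I.pos (nat_lit 0) (nat_lit 0)) (xa T0.l9 T0.l9)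
  (TrL.c (I.pos (nat_lit 0) (nat_lit 0)) T5.l8
  (TrL.c (I.mix (nat_lit 29511666) (nat_lit 77433728)) T0.l8
  (TrL.c (I.mix (nat_lit 29511666) (nat_lit 46070178)) T5.l4
  TrL.n)))))))) (by decide +kernel)
theorem sv3 : StarV sI cl7 cl13 cl4 t5 t0 t3 :=
  (bt_n (bt_n (bt_n (bt_b bx3_0) (bt_b bx3_1)) (bt_n (bt_b bx3_2) (bt_n (bt_b bx3_3) (bt_b bx3_4)))) (bt_n (bt_n (bt_b bx3_5) (bt_b bx3_6)) (bt_n (bt_b bx3_7) (bt_n (bt_b bx3_8) (bt_b bx3_9)))))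
def S3 : StarD := StarD.mk cl7 cl13 cl4 5 0 t3
theorem bx4_0 : BoxOK sI cl13 cl4 cl7 t1 t3 b4_0 :=
  box_mk (TrL.c (I.pos (nat_lit 0) (nat_lit 0)) (xa (xb T1.l0 (xa T1.l0 T1.l0)) (xa T1.l0 T1.l0))
  (TrL.c (I.pos (nat_lit 0) (nat_lit 0)) T3.l1
  (TrL.c (I.pos (nat_lit 0) (nat_lit 134217730)) (xR T1.l9 T1.l9)
  (TrL.c (I.pos (nat_lit 0) (nat_lit 110514882)) (xR T3.l2 (xR T3.l2 T3.l2))
  (TrL.c (I.pos (nat_lit 0) (nat_lit 0)) (xa (xb T3.l3 T3.l3) (xa (xk (xb T3.l3 (xs T3.l3 T3.l3)) (xb T3.l3 (xs T3.l3 (xb T3.l3 T3.l3)))) (xk (xb (xs T3.l3 T3.l3) (xs (xk T3.l3 T3.l3) (xb T3.l3 (xs (xk T3.l3 T3.l3) (xa T3.l3 (xk T3.l3 (xs T3.l3 T3.l3))))))) (xb (xs T3.l3 T3.l3) (xs (xk (xs T3.l3 T3.l3) (xs T3.l3 T3.l3)) (xb T3.l3 (xa (xs T3.l3 (xk T3.l3 T3.l3)) (xk (xs T3.l3 (xs T3.l3 (xb T3.l3 T3.l3))) (xs (xs T3.l3 T3.l3) (xs T3.l3 (xb T3.l3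 T3.l3)))))))))))
  (TrL.c (I.pos (nat_lit 0) (nat_lit 0)) T1.l2
  (TrL.c (I.mix (nat_lit 8088324) (nat_lit 110514882)) (xR T3.l4 (xR T3.l4 T3.l4))
  (TrL.c (I.mix (nat_lit 8088324) (nat_lit 89478486)) (xR T1.l3 T1.l3)
  TrL.n)))))))) (by decide +kernel)
theorem bx4_1 : BoxOK sI cl13 cl4 cl7 t1 t3 b4_1 :=
  box_mk (TrL.c (I.pos (nat_lit 0) (nat_lit 0)) (xa (xb T1.l0 T1.l0) T1.l0)
  (TrL.c (I.pos (nat_lit 0) (nat_lit 0)) T3.l1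
  (TrL.c (I.pos (nat_lit 0) (nat_lit 134217730)) (xR T1.l1 T1.l9)
  (TrL.c (I.pos (nat_lit 0) (nat_lit 110514882)) (xR T3.l2 T3.l5)
  (TrL.c (I.pos (nat_lit 0) (nat_lit 0)) T3.l3
  (TrL.c (I.pos (nat_lit 0) (nat_lit 0)) T1.l2
  (TrL.c (I.mix (nat_lit 8088324) (nat_lit 110514882)) T3.l4
  (TrL.c (I.mix (nat_lit 8088324) (nat_lit 89478486)) T1.l7
  TrL.n)))))))) (by decide +kernel)
theorem bx4_2 : BoxOK sI cl13 cl4 cl7 t1 t3 b4_2 :=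
  box_mk (TrL.c (I.pos (nat_lit 0) (nat_lit 0)) (xa (xb T1.l0 T1.l0) (xb T1.l0 T1.l0))
  (TrL.c (I.pos (nat_lit 0) (nat_lit 0)) T3.l1
  (TrL.c (I.pos (nat_lit 0) (nat_lit 134217730)) (xR T1.l1 (xR T1.l1 T1.l1))
  (TrL.c (I.pos (nat_lit 0) (nat_lit 110514882)) (xR T3.l2 T3.l2)
  (TrL.c (I.pos (nat_lit 0) (nat_lit 0)) (xb T3.l3 T3.l3)
  (TrL.c (I.pos (nat_lit 0) (nat_lit 0)) T1.l2
  (TrL.c (I.mix (nat_lit 8088324) (nat_lit 110514882)) (xR T3.l4 T3.l4)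
  (TrL.c (I.mix (nat_lit 8088324) (nat_lit 89478486)) T1.l3
  TrL.n)))))))) (by decide +kernel)
theorem bx4_3 : BoxOK sI cl13 cl4 cl7 t1 t3 b4_3 :=
  box_mk (TrL.c (I.pos (nat_lit 0) (nat_lit 0)) T3.l1
  (TrL.c (I.pos (nat_lit 0) (nat_lit 0)) T1.l9
  (TrL.c (I.mix (nat_lit 8088324) (nat_lit 110514882)) (xR T3.l5 T3.l5)
  (TrL.c (I.mix (nat_lit 8088324) (nat_lit 89478486)) (xR T1.l9 T1.l1)
  TrL.n)))) (by decide +kernel)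
theorem bx4_4 : BoxOK sI cl13 cl4 cl7 t1 t3 b4_4 :=
  box_mk (TrL.c (I.pos (nat_lit 0) (nat_lit 0)) T3.l6
  (TrL.c (I.pos (nat_lit 0) (nat_lit 0)) T1.l1
  (TrL.c (I.mix (nat_lit 8088324) (nat_lit 110514882)) (xR T3.l5 T3.l4)
  (TrL.c (I.mix (nat_lit 8088324) (nat_lit 89478486)) T1.l9
  TrL.n)))) (by decide +kernel)
theorem bx4_5 : BoxOK sI cl13 cl4 cl7 t1 t3 b4_5 :=
  box_mk (TrL.c (I.pos (nat_lit 0) (nat_lit 0)) (xb (xa T1.l0 T1.l0) T1.l0)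
  (TrL.c (I.pos (nat_lit 0) (nat_lit 0)) T3.l6
  (TrL.c (I.pos (nat_lit 0) (nat_lit 134217730)) (xR T1.l1 (xR T1.l1 T1.l1))
  (TrL.c (I.pos (nat_lit 0) (nat_lit 110514882)) T3.l4
  (TrL.c (I.pos (nat_lit 0) (nat_lit 0)) T3.l3
  (TrL.c (I.pos (nat_lit 0) (nat_lit 0)) T1.l2
  (TrL.c (I.mix (nat_lit 8088324) (nat_lit 110514882)) T3.l4
  (TrL.c (I.mix (nat_lit 8088324) (nat_lit 89478486)) T1.l9
  TrL.n)))))))) (by decide +kernel)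
theorem sv4 : StarV sI cl13 cl4 cl7 t1 t3 t4 :=
  (bt_n (bt_n (bt_b bx4_0) (bt_n (bt_b bx4_1) (bt_b bx4_2))) (bt_n (bt_b bx4_3) (bt_n (bt_b bx4_4) (bt_b bx4_5))))
def S4 : StarD := StarD.mk cl13 cl4 cl7 1 3 t4
theorem bx5_0 : BoxOK sI cl13 cl7 cl4 t3 t1 b5_0 :=
  box_mk (TrL.c (I.pos (nat_lit 0) (nat_lit 0)) (xa (xa T3.l0 (xb T3.l0 T3.l0)) (xa (xb T3.l0 T3.l0) (xb T3.l0 T3.l0)))
  (TrL.c (I.pos (nat_lit 0) (nat_lit 0)) T1.l6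
  (TrL.c (I.pos (nat_lit 0) (nat_lit 134217730)) (xR T3.l4 (xR T3.l4 T3.l4))
  (TrL.c (I.pos (nat_lit 0) (nat_lit 110514882)) (xR T1.l9 (xR T1.l7 T1.l7))
  (TrL.c (I.pos (nat_lit 0) (nat_lit 0)) (xa (xa T1.l8 T1.l8) (xk (xa T1.l8 (xb T1.l8 (xs T1.l8 (xb T1.l8 (xs T1.l8 (xa T1.l8 T1.l8)))))) (xa T1.l8 (xb T1.l8 (xs T1.l8 (xb T1.l8 (xs T1.l8 (xa T1.l8 (xk T1.l8 (xb T1.l8 T1.l8))))))))))
  (TrL.c (I.pos (nat_lit 0) (nat_lit 0)) T3.l8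
  (TrL.c (I.mix (nat_lit 8088324) (nat_lit 110514882)) (xR T1.l9 (xR T1.l9 T1.l9))
  (TrL.c (I.mix (nat_lit 8088324) (nat_lit 89478486)) (xR T3.l9 T3.l9)
  TrL.n)))))))) (by decide +kernel)
theorem bx5_1 : BoxOK sI cl13 cl7 cl4 t3 t1 b5_1 :=
  box_mk (TrL.c (I.pos (nat_lit 0) (nat_lit 0)) T3.l0
  (TrL.c (I.pos (nat_lit 0) (nat_lit 0)) T1.l6
  (TrL.c (I.pos (nat_lit 0) (nat_lit 134217730)) (xR T3.l4 T3.l4)
  (TrL.c (I.pos (nat_lit 0) (nat_lit 110514882)) (xR T1.l7 T1.l7)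
  (TrL.c (I.pos (nat_lit 0) (nat_lit 0)) T1.l8
  (TrL.c (I.pos (nat_lit 0) (nat_lit 0)) T3.l8
  (TrL.c (I.mix (nat_lit 8088324) (nat_lit 110514882)) T1.l9
  (TrL.c (I.mix (nat_lit 8088324) (nat_lit 89478486)) T3.l9
  TrL.n)))))))) (by decide +kernel)
theorem bx5_2 : BoxOK sI cl13 cl7 cl4 t3 t1 b5_2 :=
  box_mk (TrL.c (I.pos (nat_lit 0) (nat_lit 0)) (xa T3.l0 T3.l0)
  (TrL.c (I.pos (nat_lit 0) (nat_lit 0)) T1.l6
  (TrL.c (I.pos (nat_lit 0) (nat_lit 134217730)) (xR T3.l2 T3.l7)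
  (TrL.c (I.pos (nat_lit 0) (nat_lit 110514882)) T1.l7
  (TrL.c (I.pos (nat_lit 0) (nat_lit 0)) T1.l8
  (TrL.c (I.pos (nat_lit 0) (nat_lit 0)) T3.l8
  (TrL.c (I.mix (nat_lit 8088324) (nat_lit 110514882)) T1.l9
  (TrL.c (I.mix (nat_lit 8088324) (nat_lit 89478486)) T3.l9
  TrL.n)))))))) (by decide +kernel)
theorem bx5_3 : BoxOK sI cl13 cl7 cl4 t3 t1 b5_3 :=
  box_mk (TrL.c (I.pos (nat_lit 0) (nat_lit 0)) (xb (xa T3.l0 (xs T3.l0 T3.l0)) (xa (xs T3.l0 (xb T3.l0 T3.l0)) (xs T3.l0 T3.l0)))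
  (TrL.c (I.pos (nat_lit 0) (nat_lit 0)) T1.l6
  (TrL.c (I.pos (nat_lit 0) (nat_lit 134217730)) (xR T3.l4 (xR T3.l7 T3.l7))
  (TrL.c (I.pos (nat_lit 0) (nat_lit 110514882)) (xR T1.l7 T1.l7)
  (TrL.c (I.pos (nat_lit 0) (nat_lit 0)) (xb (xa T1.l8 T1.l8) (xb T1.l8 (xs T1.l8 (xa T1.l8 (xk (xs T1.l8 T1.l8) (xs T1.l8 (xb T1.l8 (xa T1.l8 (xk T1.l8 T1.l8)))))))))
  (TrL.c (I.pos (nat_lit 0) (nat_lit 0)) T3.l8
  (TrL.c (I.mix (nat_lit 8088324) (nat_lit 110514882)) (xR T1.l9 (xR T1.l9 T1.l9))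
  (TrL.c (I.mix (nat_lit 8088324) (nat_lit 89478486)) (xR T3.l9 T3.l9)
  TrL.n)))))))) (by decide +kernel)
theorem bx5_4 : BoxOK sI cl13 cl7 cl4 t3 t1 b5_4 :=
  box_mk (TrL.c (I.pos (nat_lit 0) (nat_lit 0)) (xa (xa T3.l0 T3.l0) T3.l0)
  (TrL.c (I.pos (nat_lit 0) (nat_lit 0)) T1.l6
  (TrL.c (I.pos (nat_lit 0) (nat_lit 134217730)) (xR T3.l4 T3.l7)
  (TrL.c (I.pos (nat_lit 0) (nat_lit 110514882)) (xR T1.l7 T1.l7)
  (TrL.c (I.pos (nat_lit 0) (nat_lit 0)) T1.l8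
  (TrL.c (I.pos (nat_lit 0) (nat_lit 0)) T3.l8
  (TrL.c (I.mix (nat_lit 8088324) (nat_lit 110514882)) (xR T1.l9 T1.l9)
  (TrL.c (I.mix (nat_lit 8088324) (nat_lit 89478486)) T3.l9
  TrL.n)))))))) (by decide +kernel)
theorem bx5_5 : BoxOK sI cl13 cl7 cl4 t3 t1 b5_5 :=
  box_mk (TrL.c (I.pos (nat_lit 0) (nat_lit 0)) T3.l0
  (TrL.c (I.pos (nat_lit 0) (nat_lit 0)) T1.l6
  (TrL.c (I.pos (nat_lit 0) (nat_lit 134217730)) (xR T3.l4 T3.l4)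
  (TrL.c (I.pos (nat_lit 0) (nat_lit 110514882)) (xR T1.l7 T1.l7)
  (TrL.c (I.pos (nat_lit 0) (nat_lit 0)) T1.l8
  (TrL.c (I.pos (nat_lit 0) (nat_lit 0)) T3.l8
  (TrL.c (I.mix (nat_lit 8088324) (nat_lit 110514882)) T1.l9
  (TrL.c (I.mix (nat_lit 8088324) (nat_lit 89478486)) T3.l9
  TrL.n)))))))) (by decide +kernel)
theorem bx5_6 : BoxOK sI cl13 cl7 cl4 t3 t1 b5_6 :=
  box_mk (TrL.c (I.pos (nat_lit 0) (nat_lit 0)) (xa (xa T3.l0 T3.l0) T3.l0)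
  (TrL.c (I.pos (nat_lit 0) (nat_lit 0)) T1.l6
  (TrL.c (I.pos (nat_lit 0) (nat_lit 134217730)) (xR T3.l2 T3.l7)
  (TrL.c (I.pos (nat_lit 0) (nat_lit 110514882)) T1.l9
  (TrL.c (I.pos (nat_lit 0) (nat_lit 0)) T1.l8
  (TrL.c (I.pos (nat_lit 0) (nat_lit 0)) T3.l8
  (TrL.c (I.mix (nat_lit 8088324) (nat_lit 110514882)) (xR T1.l9 T1.l9)
  (TrL.c (I.mix (nat_lit 8088324) (nat_lit 89478486)) T3.l9
  TrL.n)))))))) (by decide +kernel)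
theorem bx5_7 : BoxOK sI cl13 cl7 cl4 t3 t1 b5_7 :=
  box_mk (TrL.c (I.pos (nat_lit 0) (nat_lit 0)) (xa T3.l0 T3.l0)
  (TrL.c (I.pos (nat_lit 0) (nat_lit 0)) T1.l6
  (TrL.c (I.pos (nat_lit 0) (nat_lit 134217730)) (xR T3.l4 T3.l7)
  (TrL.c (I.pos (nat_lit 0) (nat_lit 110514882)) (xR T1.l7 T1.l7)
  (TrL.c (I.pos (nat_lit 0) (nat_lit 0)) T1.l8
  (TrL.c (I.pos (nat_lit 0) (nat_lit 0)) T3.l8
  (TrL.c (I.mix (nat_lit 8088324) (nat_lit 110514882)) (xR T1.l9 T1.l9)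
  (TrL.c (I.mix (nat_lit 8088324) (nat_lit 89478486)) T3.l9
  TrL.n)))))))) (by decide +kernel)
theorem bx5_8 : BoxOK sI cl13 cl7 cl4 t3 t1 b5_8 :=
  box_mk (TrL.c (I.pos (nat_lit 0) (nat_lit 0)) T3.l0
  (TrL.c (I.pos (nat_lit 0) (nat_lit 0)) T1.l6
  (TrL.c (I.pos (nat_lit 0) (nat_lit 134217730)) (xR T3.l4 T3.l4)
  (TrL.c (I.pos (nat_lit 0) (nat_lit 110514882)) (xR T1.l7 T1.l7)
  (TrL.c (I.pos (nat_lit 0) (nat_lit 0)) T1.l8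
  (TrL.c (I.pos (nat_lit 0) (nat_lit 0)) T3.l8
  (TrL.c (I.mix (nat_lit 8088324) (nat_lit 110514882)) T1.l9
  (TrL.c (I.mix (nat_lit 8088324) (nat_lit 89478486)) T3.l9
  TrL.n)))))))) (by decide +kernel)
theorem bx5_9 : BoxOK sI cl13 cl7 cl4 t3 t1 b5_9 :=
  box_mk (TrL.c (I.pos (nat_lit 0) (nat_lit 0)) (xa T3.l0 T3.l0)
  (TrL.c (I.pos (nat_lit 0) (nat_lit 0)) T1.l6
  (TrL.c (I.pos (nat_lit 0) (nat_lit 134217730)) (xR T3.l2 T3.l7)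
  (TrL.c (I.pos (nat_lit 0) (nat_lit 110514882)) T1.l7
  (TrL.c (I.pos (nat_lit 0) (nat_lit 0)) T1.l8
  (TrL.c (I.pos (nat_lit 0) (nat_lit 0)) T3.l8
  (TrL.c (I.mix (nat_lit 8088324) (nat_lit 110514882)) T1.l9
  (TrL.c (I.mix (nat_lit 8088324) (nat_lit 89478486)) T3.l9
  TrL.n)))))))) (by decide +kernel)
theorem sv5 : StarV sI cl13 cl7 cl4 t3 t1 t5 :=
  (bt_n (bt_n (bt_n (bt_b bx5_0) (bt_b bx5_1)) (bt_n (bt_b bx5_2) (bt_n (bt_b bx5_3) (bt_b bx5_4)))) (bt_n (bt_n (bt_b bx5_5) (bt_b bx5_6)) (bt_n (bt_b bx5_7) (bt_n (bt_b bx5_8) (bt_b bx5_9)))))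
def S5 : StarD := StarD.mk cl13 cl7 cl4 3 1 t5
def G : List StarD := [S0, S1, S2, S3, S4, S5]
theorem so0 : StarOK sI G S0 :=
  star_mk (by decide) (by decide) rfl rfl rfl rfl rfl rfl (rfl : _ = t2) (rfl : _ = t4)
  (st_mk (Pth.l (Pth.l (Pth.l Pth.z))) (nat_lit 143084613) (nat_lit 166871085) (by decide +kernel))
  (st_mk (Pth.l (Pth.l (Pth.l Pth.z))) (nat_lit 179730062) (nat_lit 204463408) (by decide +kernel))
  (st_mk (Pth.l (Pth.l (Pth.l Pth.z))) (nat_lit 222532553) (nat_lit 248600602) (by decide +kernel)) sv0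
theorem so1 : StarOK sI G S1 :=
  star_mk (by decide) (by decide) rfl rfl rfl rfl rfl rfl (rfl : _ = t4) (rfl : _ = t2)
  (st_mk (Pth.l (Pth.l (Pth.l Pth.z))) (nat_lit 97523917) (nat_lit 117014094) (by decide +kernel))
  (st_mk (Pth.l (Pth.l (Pth.l Pth.z))) (nat_lit 133904590) (nat_lit 154254330) (by decide +kernel))
  (st_mk (Pth.l (Pth.l (Pth.l Pth.z))) (nat_lit 176496105) (nat_lit 198109580) (by decide +kernel)) sv1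
theorem so2 : StarOK sI G S2 :=
  star_mk (by decide) (by decide) rfl rfl rfl rfl rfl rfl (rfl : _ = t0) (rfl : _ = t5)
  (st_mk (Pth.l (Pth.l Pth.z)) (nat_lit 367648159) (nat_lit 372147857) (by decide +kernel))
  (st_mk (Pth.l (Pth.l Pth.z)) (nat_lit 403230357) (nat_lit 408325176) (by decide +kernel))
  (st_mk (Pth.l (Pth.l Pth.z)) (nat_lit 444367003) (nat_lit 450222371) (by decide +kernel)) sv2
theorem so3 : StarOK sI G S3 :=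
  star_mk (by decide) (by decide) rfl rfl rfl rfl rfl rfl (rfl : _ = t5) (rfl : _ = t0)
  (st_mk (Pth.l (Pth.l (Pth.l Pth.z))) (nat_lit 96314933) (nat_lit 115017061) (by decide +kernel))
  (st_mk (Pth.l (Pth.l (Pth.l Pth.z))) (nat_lit 131627031) (nat_lit 150749162) (by decide +kernel))
  (st_mk (Pth.l (Pth.l (Pth.l Pth.z))) (nat_lit 172533474) (nat_lit 192269225) (by decide +kernel)) sv3
theorem so4 : StarOK sI G S4 :=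
  star_mk (by decide) (by decide) rfl rfl rfl rfl rfl rfl (rfl : _ = t1) (rfl : _ = t3)
  (st_mk (Pth.l (Pth.l Pth.z)) (nat_lit 364798899) (nat_lit 367266133) (by decide +kernel))
  (st_mk (Pth.l (Pth.l Pth.z)) (nat_lit 399695508) (nat_lit 402550235) (by decide +kernel))
  (st_mk (Pth.l (Pth.l Pth.z)) (nat_lit 439960827) (nat_lit 443307397) (by decide +kernel)) sv4
theorem so5 : StarOK sI G S5 :=
  star_mk (by decide) (by decide) rfl rfl rfl rfl rfl rfl (rfl : _ = t3) (rfl : _ = t1)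
  (st_mk (Pth.l (Pth.l (Pth.l Pth.z))) (nat_lit 141873768) (nat_lit 160303713) (by decide +kernel))
  (st_mk (Pth.l (Pth.l (Pth.l Pth.z))) (nat_lit 174891329) (nat_lit 197370282) (by decide +kernel))
  (st_mk (Pth.l (Pth.l (Pth.l Pth.z))) (nat_lit 215156648) (nat_lit 238043891) (by decide +kernel)) sv5
theorem ok : GroupOK (nat_lit 0) (nat_lit 91291648) G := grp_mk (allS_c so0 (allS_c so1 (allS_c so2 (allS_c so3 (allS_c so4 (allS_c so5 allS_n))))))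
theorem cov : GCov G cl4 cl7 cl13 := cov_mk
  ⟨0, by decide, rfl, rfl, rfl⟩ ⟨1, by decide, rfl, rfl, rfl⟩ ⟨2, by decide, rfl, rfl, rfl⟩ ⟨3, by decide, rfl, rfl, rfl⟩ ⟨4, by decide, rfl, rfl, rfl⟩ ⟨5, by decide, rfl, rfl, rfl⟩
end Q146_0


end Pool.Agent.Helper6.MONO
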