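import Pool.Agent.Helper6.MONO.Cert.C04

/-!
Certificate data (generated).
-/

set_option autoImplicit false
set_option linter.all false
noncomputable section
namespace Pool.Agent.Helper6.MONO


namespace Q146_1
def sI : I := I.pos (nat_lit 91226112) (nat_lit 150339584)
def b0_0 : Bx := Bx.mk (St.mk (I.pos (nat_lit 158220288) (nat_lit 240009216)) (I.mix (nat_lit 2244608) (nat_lit 67862528)) (I.mix (nat_lit 9830400) (nat_lit 65830912)) (I.pos (nat_lit 142049280) (nat_lit 284655616)) (I.mix (nat_lit 96649216) (nat_lit 63946752)) (I.mix (nat_lit 65290240) (nat_lit 59162624)) (I.mix (nat_lit 96534528) (nat_lit 90030080)))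
  false (nat_lit 5209681)
def b0_1 : Bx := Bx.mk (St.mk (I.mix (nat_lit 23920640) (nat_lit 116867072)) (I.mix (nat_lit 8519680) (nat_lit 35831808)) (I.mix (nat_lit 31031296) (nat_lit 4325376)) (I.pos (nat_lit 38387712) (nat_lit 113590272)) (I.mix (nat_lit 35684352) (nat_lit 45744128)) (I.mix (nat_lit 40452096) (nat_lit 28082176)) (I.mix (nat_lit 29556736) (nat_lit 23429120)))
  false (nat_lit 0)
def b0_2 : Bx := Bx.mk (St.mk (I.pos (nat_lit 93847552) (nat_lit 137969664)) (I.mix (nat_lit 55246848) (nat_lit 10813440)) (I.neg (nat_lit 10043392) (nat_lit 74678272)) (I.pos (nat_lit 77152256) (nat_lit 133857280)) (I.mix (nat_lit 94126080) (nat_lit 36765696)) (I.mix (nat_lit 42205184) (nat_lit 83279872)) (I.mix (nat_lit 27852800) (nat_lit 71614464)))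
  false (nat_lit 0)
def b0_3 : Bx := Bx.mk (St.mk (I.mix (nat_lit 34848768) (nat_lit 68321280)) (I.mix (nat_lit 30081024) (nat_lit 5423104)) (I.neg (nat_lit 4063232) (nat_lit 28934144)) (I.pos (nat_lit 39813120) (nat_lit 80838656)) (I.mix (nat_lit 40861696) (nat_lit 19628032)) (I.mix (nat_lit 20807680) (nat_lit 35274752)) (I.mix (nat_lit 10616832) (nat_lit 16449536)))
  false (nat_lit 0)
def b0_4 : Bx := Bx.mk (St.mk (I.pos (nat_lit 88801280) (nat_lit 112787456)) (I.mix (nat_lit 10534912) (nat_lit 9240576)) (I.neg (nat_lit 9945088) (nat_lit 33177600)) (I.pos (nat_lit 75218944) (nat_lit 111853568)) (I.mix (nat_lit 30801920) (nat_lit 22134784)) (I.mix (nat_lit 22839296) (nat_lit 23265280)) (I.mix (nat_lit 16367616) (nat_lit 21168128)))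
  false (nat_lit 0)
def b0_5 : Bx := Bx.mk (St.mk (I.mix (nat_lit 43630592) (nat_lit 51412992)) (I.mix (nat_lit 7323648) (nat_lit 10141696)) (I.neg (nat_lit 5947392) (nat_lit 19333120)) (I.pos (nat_lit 41238528) (nat_lit 75005952)) (I.mix (nat_lit 21282816) (nat_lit 17432576)) (I.mix (nat_lit 18202624) (nat_lit 17334272)) (I.mix (nat_lit 7716864) (nat_lit 9011200)))
  false (nat_lit 0)
def b0_6 : Bx := Bx.mk (St.mk (I.pos (nat_lit 218726400) (nat_lit 261357568)) (I.mix (nat_lit 17842176) (nat_lit 18153472)) (I.neg (nat_lit 25804800) (nat_lit 104480768)) (I.pos (nat_lit 243548160) (nat_lit 330448896)) (I.mix (nat_lit 85999616) (nat_lit 26886144)) (I.mix (nat_lit 55214080) (nat_lit 57884672)) (I.mix (nat_lit 82624512) (nat_lit 116703232)))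
  false (nat_lit 0)
def b0_7 : Bx := Bx.mk (St.mk (I.pos (nat_lit 192905216) (nat_lit 254820352)) (I.mix (nat_lit 19005440) (nat_lit 67616768)) (I.mix (nat_lit 98975744) (nat_lit 61538304)) (I.pos (nat_lit 220168192) (nat_lit 311541760)) (I.mix (nat_lit 99352576) (nat_lit 75661312)) (I.mix (nat_lit 84557824) (nat_lit 75464704)) (I.mix (nat_lit 135036928) (nat_lit 147619840)))
  false (nat_lit 4070027)
def b0_8 : Bx := Bx.mk (St.mk (I.pos (nat_lit 83394560) (nat_lit 170655744)) (I.mix (nat_lit 61259776) (nat_lit 6619136)) (I.neg (nat_lit 16416768) (nat_lit 77955072)) (I.pos (nat_lit 84312064) (nat_lit 173522944)) (I.mix (nat_lit 96305152) (nat_lit 47693824)) (I.mix (nat_lit 50511872) (nat_lit 73924608)) (I.mix (nat_lit 37945344) (nat_lit 72843264)))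
  false (nat_lit 0)
def b0_9 : Bx := Bx.mk (St.mk (I.mix (nat_lit 31703040) (nat_lit 83312640)) (I.mix (nat_lit 34177024) (nat_lit 6832128)) (I.neg (nat_lit 3670016) (nat_lit 33931264)) (I.pos (nat_lit 38551552) (nat_lit 89964544)) (I.mix (nat_lit 43843584) (nat_lit 30326784)) (I.mix (nat_lit 24805376) (nat_lit 40992768)) (I.mix (nat_lit 13746176) (nat_lit 23724032)))
  false (nat_lit 0)
def b0_10 : Bx := Bx.mk (St.mk (I.pos (nat_lit 168689664) (nat_lit 224346112)) (I.mix (nat_lit 13795328) (nat_lit 65748992)) (I.mix (nat_lit 29868032) (nat_lit 66027520)) (I.pos (nat_lit 162185216) (nat_lit 256638976)) (I.mix (nat_lit 118882304) (nat_lit 50331648)) (I.mix (nat_lit 122257408) (nat_lit 74530816)) (I.mix (nat_lit 122503168) (nat_lit 75661312)))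
  false (nat_lit 0)
def b0_11 : Bx := Bx.mk (St.mk (I.mix (nat_lit 37093376) (nat_lit 119095296)) (I.mix (nat_lit 14581760) (nat_lit 38617088)) (I.mix (nat_lit 25935872) (nat_lit 9043968)) (I.pos (nat_lit 38944768) (nat_lit 112115712)) (I.mix (nat_lit 41582592) (nat_lit 38912000)) (I.mix (nat_lit 48234496) (nat_lit 33505280)) (I.mix (nat_lit 24969216) (nat_lit 19005440)))
  false (nat_lit 0)
def b0_12 : Bx := Bx.mk (St.mk (I.pos (nat_lit 141918208) (nat_lit 211976192)) (I.mix (nat_lit 38600704) (nat_lit 21299200)) (I.mix (nat_lit 65814528) (nat_lit 6520832)) (I.pos (nat_lit 125566976) (nat_lit 229900288)) (I.mix (nat_lit 63176704) (nat_lit 62095360)) (I.mix (nat_lit 70959104) (nat_lit 65781760)) (I.mix (nat_lit 71598080) (nat_lit 62439424)))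
  false (nat_lit 0)
def b0_13 : Bx := Bx.mk (St.mk (I.pos (nat_lit 170786816) (nat_lit 212975616)) (I.mix (nat_lit 17448960) (nat_lit 37781504)) (I.mix (nat_lit 38617088) (nat_lit 31309824)) (I.pos (nat_lit 167985152) (nat_lit 230735872)) (I.mix (nat_lit 98435072) (nat_lit 70500352)) (I.mix (nat_lit 119062528) (nat_lit 73678848)) (I.mix (nat_lit 125714432) (nat_lit 68911104)))
  false (nat_lit 0)
def t0 : BTr := (BTr.n (BTr.n (BTr.n (BTr.b b0_0) (BTr.n (BTr.b b0_1) (BTr.b b0_2))) (BTr.n (BTr.n (BTr.b b0_3) (BTr.b b0_4)) (BTr.n (BTr.b b0_5) (BTr.b b0_6)))) (BTr.n (BTr.n (BTr.b b0_7) (BTr.n (BTr.b b0_8) (BTr.b b0_9))) (BTr.n (BTr.n (BTr.b b0_10) (BTr.b b0_11)) (BTr.n (BTr.b b0_12) (BTr.b b0_13)))))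
namespace T0
def l0 : Tr := Tr.L (Pth.l (Pth.l (Pth.l Pth.z)))
def l1 : Tr := Tr.L (Pth.l (Pth.l (Pth.r (Pth.l Pth.z))))
def l2 : Tr := Tr.L (Pth.l (Pth.l (Pth.r (Pth.r Pth.z))))
def l3 : Tr := Tr.L (Pth.l (Pth.r (Pth.l (Pth.l Pth.z))))
def l4 : Tr := Tr.L (Pth.l (Pth.r (Pth.l (Pth.r Pth.z))))
def l5 : Tr := Tr.L (Pth.l (Pth.r (Pth.r (Pth.l Pth.z))))
def l6 : Tr := Tr.L (Pth.l (Pth.r (Pth.r (Pth.r Pth.z))))
def l7 : Tr := Tr.L (Pth.r (Pth.l (Pth.l Pth.z)))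
def l8 : Tr := Tr.L (Pth.r (Pth.l (Pth.r (Pth.l Pth.z))))
def l9 : Tr := Tr.L (Pth.r (Pth.l (Pth.r (Pth.r Pth.z))))
def l10 : Tr := Tr.L (Pth.r (Pth.r (Pth.l (Pth.l Pth.z))))
def l11 : Tr := Tr.L (Pth.r (Pth.r (Pth.l (Pth.r Pth.z))))
def l12 : Tr := Tr.L (Pth.r (Pth.r (Pth.r (Pth.l Pth.z))))
def l13 : Tr := Tr.L (Pth.r (Pth.r (Pth.r (Pth.r Pth.z))))
end T0
def b1_0 : Bx := Bx.mk (St.mk (I.pos (nat_lit 158121984) (nat_lit 243269632)) (I.mix (nat_lit 1916928) (nat_lit 56803328)) (I.mix (nat_lit 2441216) (nat_lit 74350592)) (I.pos (nat_lit 93995008) (nat_lit 239828992)) (I.mix (nat_lit 90243072) (nat_lit 58376192)) (I.mix (nat_lit 65896448) (nat_lit 57819136)) (I.mix (nat_lit 97763328) (nat_lit 82149376)))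
  false (nat_lit 0)
def b1_1 : Bx := Bx.mk (St.mk (I.mix (nat_lit 11845632) (nat_lit 139034624)) (I.mix (nat_lit 6356992) (nat_lit 26198016)) (I.mix (nat_lit 18448384) (nat_lit 13451264)) (I.mix (nat_lit 3112960) (nat_lit 87588864)) (I.mix (nat_lit 29868032) (nat_lit 34979840)) (I.mix (nat_lit 32489472) (nat_lit 23101440)) (I.mix (nat_lit 27574272) (nat_lit 18677760)))
  false (nat_lit 0)
def b1_2 : Bx := Bx.mk (St.mk (I.pos (nat_lit 116670464) (nat_lit 156270592)) (I.mix (nat_lit 47284224) (nat_lit 9158656)) (I.neg (nat_lit 1638400) (nat_lit 62685184)) (I.pos (nat_lit 52445184) (nat_lit 107921408)) (I.mix (nat_lit 87556096) (nat_lit 32309248)) (I.mix (nat_lit 36519936) (nat_lit 82001920)) (I.mix (nat_lit 28360704) (nat_lit 79839232)))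
  false (nat_lit 0)
def b1_3 : Bx := Bx.mk (St.mk (I.mix (nat_lit 11960320) (nat_lit 105431040)) (I.mix (nat_lit 22872064) (nat_lit 1654784)) (I.mix (nat_lit 23674880) (nat_lit 1245184)) (I.mix (nat_lit 2228224) (nat_lit 57294848)) (I.mix (nat_lit 33046528) (nat_lit 15040512)) (I.mix (nat_lit 15237120) (nat_lit 33128448)) (I.mix (nat_lit 8978432) (nat_lit 21315584)))
  false (nat_lit 0)
def b1_4 : Bx := Bx.mk (St.mk (I.pos (nat_lit 196820992) (nat_lit 254181376)) (I.mix (nat_lit 16973824) (nat_lit 57278464)) (I.mix (nat_lit 65585152) (nat_lit 73400320)) (I.pos (nat_lit 177831936) (nat_lit 260734976)) (I.mix (nat_lit 93388800) (nat_lit 72056832)) (I.mix (nat_lit 84738048) (nat_lit 65945600)) (I.mix (nat_lit 137281536) (nat_lit 119603200)))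
  false (nat_lit 0)
def b1_5 : Bx := Bx.mk (St.mk (I.mix (nat_lit 13844480) (nat_lit 43040768)) (I.mix (nat_lit 2310144) (nat_lit 3407872)) (I.mix (nat_lit 4423680) (nat_lit 688128)) (I.mix (nat_lit 1261568) (nat_lit 24248320)) (I.mix (nat_lit 6848512) (nat_lit 4833280)) (I.mix (nat_lit 5554176) (nat_lit 5242880)) (I.mix (nat_lit 1769472) (nat_lit 1916928)))
  false (nat_lit 0)
def b1_6 : Bx := Bx.mk (St.mk (I.pos (nat_lit 113115136) (nat_lit 134725632)) (I.mix (nat_lit 8093696) (nat_lit 7110656)) (I.neg (nat_lit 2179072) (nat_lit 20283392)) (I.pos (nat_lit 50577408) (nat_lit 85229568)) (I.mix (nat_lit 24608768) (nat_lit 15040512)) (I.mix (nat_lit 15859712) (nat_lit 17727488)) (I.mix (nat_lit 13369344) (nat_lit 17809408)))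
  false (nat_lit 0)
def b1_7 : Bx := Bx.mk (St.mk (I.pos (nat_lit 220135424) (nat_lit 260341760)) (I.mix (nat_lit 16334848) (nat_lit 18006016)) (I.neg (nat_lit 3670016) (nat_lit 70057984)) (I.pos (nat_lit 204128256) (nat_lit 278888448)) (I.mix (nat_lit 75628544) (nat_lit 22020096)) (I.mix (nat_lit 45285376) (nat_lit 45596672)) (I.mix (nat_lit 70877184) (nat_lit 87031808)))
  false (nat_lit 0)
def b1_8 : Bx := Bx.mk (St.mk (I.pos (nat_lit 107266048) (nat_lit 185384960)) (I.mix (nat_lit 54509568) (nat_lit 7356416)) (I.neg (nat_lit 7782400) (nat_lit 65863680)) (I.pos (nat_lit 62537728) (nat_lit 146423808)) (I.mix (nat_lit 84344832) (nat_lit 48594944)) (I.mix (nat_lit 47742976) (nat_lit 73039872)) (I.mix (nat_lit 42909696) (nat_lit 77905920)))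
  false (nat_lit 0)
def b1_9 : Bx := Bx.mk (St.mk (I.mix (nat_lit 15777792) (nat_lit 118325248)) (I.mix (nat_lit 27869184) (nat_lit 9535488)) (I.mix (nat_lit 27017216) (nat_lit 1343488)) (I.mix (nat_lit 2523136) (nat_lit 67534848)) (I.mix (nat_lit 37011456) (nat_lit 27213824)) (I.mix (nat_lit 24297472) (nat_lit 31555584)) (I.mix (nat_lit 13959168) (nat_lit 22888448)))
  false (nat_lit 0)
def b1_10 : Bx := Bx.mk (St.mk (I.pos (nat_lit 174850048) (nat_lit 223707136)) (I.mix (nat_lit 18710528) (nat_lit 53002240)) (I.mix (nat_lit 23265280) (nat_lit 68960256)) (I.pos (nat_lit 122060800) (nat_lit 206192640)) (I.mix (nat_lit 113197056) (nat_lit 43548672)) (I.mix (nat_lit 116785152) (nat_lit 67158016)) (I.mix (nat_lit 133251072) (nat_lit 74252288)))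
  false (nat_lit 0)
def b1_11 : Bx := Bx.mk (St.mk (I.mix (nat_lit 15056896) (nat_lit 142131200)) (I.mix (nat_lit 14663680) (nat_lit 34242560)) (I.mix (nat_lit 19234816) (nat_lit 19677184)) (I.mix (nat_lit 3063808) (nat_lit 86376448)) (I.mix (nat_lit 46727168) (nat_lit 33193984)) (I.mix (nat_lit 46759936) (nat_lit 31997952)) (I.mix (nat_lit 32194560) (nat_lit 20676608)))
  false (nat_lit 0)
def b1_12 : Bx := Bx.mk (St.mk (I.pos (nat_lit 149405696) (nat_lit 214220800)) (I.mix (nat_lit 42532864) (nat_lit 14172160)) (I.mix (nat_lit 62275584) (nat_lit 10960896)) (I.pos (nat_lit 93569024) (nat_lit 187645952)) (I.mix (nat_lit 66093056) (nat_lit 56115200)) (I.mix (nat_lit 64667648) (nat_lit 62259200)) (I.mix (nat_lit 70795264) (nat_lit 65896448)))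
  false (nat_lit 0)
def b1_13 : Bx := Bx.mk (St.mk (I.pos (nat_lit 176390144) (nat_lit 213925888)) (I.mix (nat_lit 21463040) (nat_lit 29769728)) (I.mix (nat_lit 30588928) (nat_lit 36470784)) (I.pos (nat_lit 127336448) (nat_lit 187203584)) (I.mix (nat_lit 99565568) (nat_lit 66109440)) (I.mix (nat_lit 119406592) (nat_lit 69779456)) (I.mix (nat_lit 138936320) (nat_lit 75907072)))
  false (nat_lit 0)
def t1 : BTr := (BTr.n (BTr.n (BTr.n (BTr.b b1_0) (BTr.n (BTr.b b1_1) (BTr.b b1_2))) (BTr.n (BTr.n (BTr.b b1_3) (BTr.b b1_4)) (BTr.n (BTr.b b1_5) (BTr.b b1_6)))) (BTr.n (BTr.n (BTr.b b1_7) (BTr.n (BTr.b b1_8) (BTr.b b1_9))) (BTr.n (BTr.n (BTr.b b1_10) (BTr.b b1_11)) (BTr.n (BTr.b b1_12) (BTr.b b1_13)))))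
namespace T1
def l0 : Tr := Tr.L (Pth.l (Pth.l (Pth.l Pth.z)))
def l1 : Tr := Tr.L (Pth.l (Pth.l (Pth.r (Pth.l Pth.z))))
def l2 : Tr := Tr.L (Pth.l (Pth.l (Pth.r (Pth.r Pth.z))))
def l3 : Tr := Tr.L (Pth.l (Pth.r (Pth.l (Pth.l Pth.z))))
def l4 : Tr := Tr.L (Pth.l (Pth.r (Pth.l (Pth.r Pth.z))))
def l5 : Tr := Tr.L (Pth.l (Pth.r (Pth.r (Pth.l Pth.z))))
def l6 : Tr := Tr.L (Pth.l (Pth.r (Pth.r (Pth.r Pth.z))))
def l7 : Tr := Tr.L (Pth.r (Pth.l (Pth.l Pth.z)))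
def l8 : Tr := Tr.L (Pth.r (Pth.l (Pth.r (Pth.l Pth.z))))
def l9 : Tr := Tr.L (Pth.r (Pth.l (Pth.r (Pth.r Pth.z))))
def l10 : Tr := Tr.L (Pth.r (Pth.r (Pth.l (Pth.l Pth.z))))
def l11 : Tr := Tr.L (Pth.r (Pth.r (Pth.l (Pth.r Pth.z))))
def l12 : Tr := Tr.L (Pth.r (Pth.r (Pth.r (Pth.l Pth.z))))
def l13 : Tr := Tr.L (Pth.r (Pth.r (Pth.r (Pth.r Pth.z))))
end T1
def b2_0 : Bx := Bx.mk (St.mk (I.pos (nat_lit 142229504) (nat_lit 220217344)) (I.mix (nat_lit 3211264) (nat_lit 100810752)) (I.mix (nat_lit 3063808) (nat_lit 95748096)) (I.pos (nat_lit 366231552) (nat_lit 457572352)) (I.mix (nat_lit 131612672) (nat_lit 78888960)) (I.mix (nat_lit 88539136) (nat_lit 80166912)) (I.mix (nat_lit 102875136) (nat_lit 101629952)))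
  false (nat_lit 124941194)
def b2_1 : Bx := Bx.mk (St.mk (I.mix (nat_lit 56754176) (nat_lit 17203200)) (I.mix (nat_lit 17956864) (nat_lit 91095040)) (I.neg (nat_lit 46415872) (nat_lit 74940416)) (I.pos (nat_lit 261881856) (nat_lit 289882112)) (I.mix (nat_lit 43499520) (nat_lit 99483648)) (I.mix (nat_lit 86736896) (nat_lit 56737792)) (I.mix (nat_lit 36405248) (nat_lit 30441472)))
  true (nat_lit 0)
def b2_2 : Bx := Bx.mk (St.mk (I.pos (nat_lit 13484032) (nat_lit 55853056)) (I.neg (nat_lit 30326784) (nat_lit 89686016)) (I.neg (nat_lit 47202304) (nat_lit 74924032)) (I.pos (nat_lit 265732096) (nat_lit 289767424)) (I.mix (nat_lit 99368960) (nat_lit 39370752)) (I.mix (nat_lit 56393728) (nat_lit 72794112)) (I.mix (nat_lit 36405248) (nat_lit 30441472)))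
  false (nat_lit 0)
def b2_3 : Bx := Bx.mk (St.mk (I.pos (nat_lit 16941056) (nat_lit 121323520)) (I.neg (nat_lit 409600) (nat_lit 97550336)) (I.neg (nat_lit 3932160) (nat_lit 91766784)) (I.pos (nat_lit 259784704) (nat_lit 329809920)) (I.mix (nat_lit 118587392) (nat_lit 67633152)) (I.mix (nat_lit 71090176) (nat_lit 86081536)) (I.mix (nat_lit 71122944) (nat_lit 70893568)))
  false (nat_lit 15364227)
def b2_4 : Bx := Bx.mk (St.mk (I.pos (nat_lit 95846400) (nat_lit 191922176)) (I.mix (nat_lit 41467904) (nat_lit 94240768)) (I.mix (nat_lit 46661632) (nat_lit 95797248)) (I.pos (nat_lit 302170112) (nat_lit 423100416)) (I.mix (nat_lit 146030592) (nat_lit 72237056)) (I.mix (nat_lit 131465216) (nat_lit 95043584)) (I.mix (nat_lit 132481024) (nat_lit 113917952)))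
  false (nat_lit 114271517)
def b2_5 : Bx := Bx.mk (St.mk (I.neg (nat_lit 16924672) (nat_lit 121323520)) (I.pos (nat_lit 409600) (nat_lit 97550336)) (I.neg (nat_lit 3932160) (nat_lit 91766784)) (I.pos (nat_lit 259784704) (nat_lit 329809920)) (I.mix (nat_lit 67633152) (nat_lit 118587392)) (I.mix (nat_lit 86081536) (nat_lit 71090176)) (I.mix (nat_lit 71122944) (nat_lit 70893568)))
  true (nat_lit 0)
def b2_6 : Bx := Bx.mk (St.mk (I.pos (nat_lit 177831936) (nat_lit 290783232)) (I.mix (nat_lit 34127872) (nat_lit 65241088)) (I.mix (nat_lit 184238080) (nat_lit 30294016)) (I.pos (nat_lit 405028864) (nat_lit 582713344)) (I.mix (nat_lit 87621632) (nat_lit 71237632)) (I.mix (nat_lit 75251712) (nat_lit 62980096)) (I.mix (nat_lit 131366912) (nat_lit 132071424)))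
  false (nat_lit 120459516)
def b2_7 : Bx := Bx.mk (St.mk (I.mix (nat_lit 16809984) (nat_lit 43466752)) (I.mix (nat_lit 49152000) (nat_lit 16744448)) (I.neg (nat_lit 46727168) (nat_lit 63995904)) (I.pos (nat_lit 262111232) (nat_lit 278102016)) (I.mix (nat_lit 54263808) (nat_lit 42532864)) (I.mix (nat_lit 40534016) (nat_lit 46301184)) (I.mix (nat_lit 11812864) (nat_lit 17563648)))
  false (nat_lit 0)
def b2_8 : Bx := Bx.mk (St.mk (I.pos (nat_lit 157417472) (nat_lit 221315072)) (I.pos (nat_lit 20955136) (nat_lit 98058240)) (I.mix (nat_lit 27492352) (nat_lit 85458944)) (I.pos (nat_lit 393740288) (nat_lit 451821568)) (I.mix (nat_lit 109477888) (nat_lit 90701824)) (I.mix (nat_lit 96616448) (nat_lit 72564736)) (I.mix (nat_lit 139853824) (nat_lit 93634560)))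
  false (nat_lit 117419774)
def b2_9 : Bx := Bx.mk (St.mk (I.pos (nat_lit 16613376) (nat_lit 48398336)) (I.neg (nat_lit 21200896) (nat_lit 78217216)) (I.neg (nat_lit 48201728) (nat_lit 72908800)) (I.pos (nat_lit 265666560) (nat_lit 284721152)) (I.mix (nat_lit 98189312) (nat_lit 41238528)) (I.mix (nat_lit 45219840) (nat_lit 86736896)) (I.mix (nat_lit 25575424) (nat_lit 25444352)))
  false (nat_lit 0)
def t2 : BTr := (BTr.n (BTr.n (BTr.n (BTr.b b2_0) (BTr.b b2_1)) (BTr.n (BTr.b b2_2) (BTr.n (BTr.b b2_3) (BTr.b b2_4)))) (BTr.n (BTr.n (BTr.b b2_5) (BTr.b b2_6)) (BTr.n (BTr.b b2_7) (BTr.n (BTr.b b2_8) (BTr.b b2_9)))))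
namespace T2
def l0 : Tr := Tr.L (Pth.l (Pth.l (Pth.l Pth.z)))
def l1 : Tr := Tr.L (Pth.l (Pth.l (Pth.r Pth.z)))
def l2 : Tr := Tr.L (Pth.l (Pth.r (Pth.l Pth.z)))
def l3 : Tr := Tr.L (Pth.l (Pth.r (Pth.r (Pth.l Pth.z))))
def l4 : Tr := Tr.L (Pth.l (Pth.r (Pth.r (Pth.r Pth.z))))
def l5 : Tr := Tr.L (Pth.r (Pth.l (Pth.l Pth.z)))
def l6 : Tr := Tr.L (Pth.r (Pth.l (Pth.r Pth.z)))
def l7 : Tr := Tr.L (Pth.r (Pth.r (Pth.l Pth.z)))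
def l8 : Tr := Tr.L (Pth.r (Pth.r (Pth.r (Pth.l Pth.z))))
def l9 : Tr := Tr.L (Pth.r (Pth.r (Pth.r (Pth.r Pth.z))))
end T2
def b3_0 : Bx := Bx.mk (St.mk (I.pos (nat_lit 158269440) (nat_lit 238338048)) (I.mix (nat_lit 1589248) (nat_lit 45580288)) (I.mix (nat_lit 3473408) (nat_lit 109969408)) (I.pos (nat_lit 93061120) (nat_lit 214188032)) (I.mix (nat_lit 97665024) (nat_lit 58736640)) (I.mix (nat_lit 84508672) (nat_lit 70336512)) (I.mix (nat_lit 127287296) (nat_lit 93208576)))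
  false (nat_lit 27222759)
def b3_1 : Bx := Bx.mk (St.mk (I.pos (nat_lit 121815040) (nat_lit 180436992)) (I.neg (nat_lit 901120) (nat_lit 56721408)) (I.mix (nat_lit 42876928) (nat_lit 18563072)) (I.pos (nat_lit 75120640) (nat_lit 133447680)) (I.mix (nat_lit 72695808) (nat_lit 53346304)) (I.mix (nat_lit 50839552) (nat_lit 67895296)) (I.mix (nat_lit 42696704) (nat_lit 69156864)))
  false (nat_lit 43666034)
def b3_2 : Bx := Bx.mk (St.mk (I.mix (nat_lit 9879552) (nat_lit 116277248)) (I.mix (nat_lit 27000832) (nat_lit 4784128)) (I.mix (nat_lit 11354112) (nat_lit 12533760)) (I.mix (nat_lit 2424832) (nat_lit 64389120)) (I.mix (nat_lit 23887872) (nat_lit 29032448)) (I.mix (nat_lit 18448384) (nat_lit 26116096)) (I.mix (nat_lit 11698176) (nat_lit 18087936)))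
  false (nat_lit 0)
def b3_3 : Bx := Bx.mk (St.mk (I.pos (nat_lit 169033728) (nat_lit 213729280)) (I.mix (nat_lit 15843328) (nat_lit 48119808)) (I.pos (nat_lit 12468224) (nat_lit 104792064)) (I.pos (nat_lit 110706688) (nat_lit 183664640)) (I.mix (nat_lit 129253376) (nat_lit 40960000)) (I.mix (nat_lit 131055616) (nat_lit 64946176)) (I.mix (nat_lit 169459712) (nat_lit 58966016)))
  false (nat_lit 0)
def b3_4 : Bx := Bx.mk (St.mk (I.mix (nat_lit 13910016) (nat_lit 135921664)) (I.mix (nat_lit 13664256) (nat_lit 33718272)) (I.mix (nat_lit 1703936) (nat_lit 39337984)) (I.mix (nat_lit 2916352) (nat_lit 81264640)) (I.mix (nat_lit 58621952) (nat_lit 29409280)) (I.mix (nat_lit 52068352) (nat_lit 29491200)) (I.mix (nat_lit 40927232) (nat_lit 17694720)))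
  false (nat_lit 0)
def b3_5 : Bx := Bx.mk (St.mk (I.pos (nat_lit 167690240) (nat_lit 209993728)) (I.mix (nat_lit 41418752) (nat_lit 24788992)) (I.mix (nat_lit 18726912) (nat_lit 70123520)) (I.pos (nat_lit 105431040) (nat_lit 176062464)) (I.mix (nat_lit 98844672) (nat_lit 64241664)) (I.mix (nat_lit 110346240) (nat_lit 65208320)) (I.mix (nat_lit 133545984) (nat_lit 65519616)))
  false (nat_lit 38948942)
def b3_6 : Bx := Bx.mk (St.mk (I.mix (nat_lit 16678912) (nat_lit 116883456)) (I.mix (nat_lit 16171008) (nat_lit 6193152)) (I.mix (nat_lit 2179072) (nat_lit 14237696)) (I.mix (nat_lit 2473984) (nat_lit 65765376)) (I.mix (nat_lit 21430272) (nat_lit 15974400)) (I.mix (nat_lit 15728640) (nat_lit 17432576)) (I.mix (nat_lit 11714560) (nat_lit 10665984)))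
  false (nat_lit 0)
def b3_7 : Bx := Bx.mk (St.mk (I.pos (nat_lit 153632768) (nat_lit 183353344)) (I.neg (nat_lit 1376256) (nat_lit 35520512)) (I.mix (nat_lit 13303808) (nat_lit 24117248)) (I.pos (nat_lit 95666176) (nat_lit 139476992)) (I.mix (nat_lit 45416448) (nat_lit 31784960)) (I.mix (nat_lit 27934720) (nat_lit 36241408)) (I.mix (nat_lit 34734080) (nat_lit 34340864)))
  false (nat_lit 0)
def b3_8 : Bx := Bx.mk (St.mk (I.pos (nat_lit 164200448) (nat_lit 189497344)) (I.neg (nat_lit 7094272) (nat_lit 34750464)) (I.mix (nat_lit 13729792) (nat_lit 20381696)) (I.pos (nat_lit 105906176) (nat_lit 150667264)) (I.mix (nat_lit 29900800) (nat_lit 27295744)) (I.mix (nat_lit 23461888) (nat_lit 22249472)) (I.mix (nat_lit 23773184) (nat_lit 24084480)))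
  false (nat_lit 0)
def b3_9 : Bx := Bx.mk (St.mk (I.mix (nat_lit 18546688) (nat_lit 144261120)) (I.mix (nat_lit 8093696) (nat_lit 22626304)) (I.mix (nat_lit 1507328) (nat_lit 32538624)) (I.mix (nat_lit 3227648) (nat_lit 91504640)) (I.mix (nat_lit 37552128) (nat_lit 31178752)) (I.mix (nat_lit 39026688) (nat_lit 27607040)) (I.mix (nat_lit 33898496) (nat_lit 20447232)))
  false (nat_lit 0)
def b3_10 : Bx := Bx.mk (St.mk (I.pos (nat_lit 116178944) (nat_lit 168099840)) (I.mix (nat_lit 56606720) (nat_lit 9912320)) (I.mix (nat_lit 40419328) (nat_lit 21725184)) (I.pos (nat_lit 52117504) (nat_lit 120700928)) (I.mix (nat_lit 79101952) (nat_lit 37502976)) (I.mix (nat_lit 38993920) (nat_lit 73203712)) (I.mix (nat_lit 32669696) (nat_lit 62537728)))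
  false (nat_lit 5545005)
def b3_11 : Bx := Bx.mk (St.mk (I.pos (nat_lit 34963456) (nat_lit 110280704)) (I.mix (nat_lit 25116672) (nat_lit 4374528)) (I.mix (nat_lit 9715712) (nat_lit 9551872)) (I.pos (nat_lit 3932160) (nat_lit 60653568)) (I.mix (nat_lit 27639808) (nat_lit 17121280)) (I.mix (nat_lit 17039360) (nat_lit 30212096)) (I.mix (nat_lit 9764864) (nat_lit 16973824)))
  false (nat_lit 0)
def b3_12 : Bx := Bx.mk (St.mk (I.pos (nat_lit 193937408) (nat_lit 283787264)) (I.mix (nat_lit 23429120) (nat_lit 34177024)) (I.mix (nat_lit 8585216) (nat_lit 95911936)) (I.pos (nat_lit 161382400) (nat_lit 318767104)) (I.mix (nat_lit 84459520) (nat_lit 57081856)) (I.mix (nat_lit 62062592) (nat_lit 47644672)) (I.mix (nat_lit 103612416) (nat_lit 78397440)))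
  false (nat_lit 62226269)
def b3_13 : Bx := Bx.mk (St.mk (I.pos (nat_lit 184647680) (nat_lit 236437504)) (I.pos (nat_lit 3932160) (nat_lit 45711360)) (I.pos (nat_lit 32276480) (nat_lit 109821952)) (I.pos (nat_lit 151748608) (nat_lit 209321984)) (I.mix (nat_lit 94846976) (nat_lit 69828608)) (I.mix (nat_lit 93110272) (nat_lit 71467008)) (I.mix (nat_lit 139542528) (nat_lit 95617024)))
  false (nat_lit 41524320)
def t3 : BTr := (BTr.n (BTr.n (BTr.n (BTr.b b3_0) (BTr.n (BTr.b b3_1) (BTr.b b3_2))) (BTr.n (BTr.n (BTr.b b3_3) (BTr.b b3_4)) (BTr.n (BTr.b b3_5) (BTr.b b3_6)))) (BTr.n (BTr.n (BTr.b b3_7) (BTr.n (BTr.b b3_8) (BTr.b b3_9))) (BTr.n (BTr.n (BTr.b b3_10) (BTr.b b3_11)) (BTr.n (BTr.b b3_12) (BTr.b b3_13)))))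
namespace T3
def l0 : Tr := Tr.L (Pth.l (Pth.l (Pth.l Pth.z)))
def l1 : Tr := Tr.L (Pth.l (Pth.l (Pth.r (Pth.l Pth.z))))
def l2 : Tr := Tr.L (Pth.l (Pth.l (Pth.r (Pth.r Pth.z))))
def l3 : Tr := Tr.L (Pth.l (Pth.r (Pth.l (Pth.l Pth.z))))
def l4 : Tr := Tr.L (Pth.l (Pth.r (Pth.l (Pth.r Pth.z))))
def l5 : Tr := Tr.L (Pth.l (Pth.r (Pth.r (Pth.l Pth.z))))
def l6 : Tr := Tr.L (Pth.l (Pth.r (Pth.r (Pth.r Pth.z))))
def l7 : Tr := Tr.L (Pth.r (Pth.l (Pth.l Pth.z)))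
def l8 : Tr := Tr.L (Pth.r (Pth.l (Pth.r (Pth.l Pth.z))))
def l9 : Tr := Tr.L (Pth.r (Pth.l (Pth.r (Pth.r Pth.z))))
def l10 : Tr := Tr.L (Pth.r (Pth.r (Pth.l (Pth.l Pth.z))))
def l11 : Tr := Tr.L (Pth.r (Pth.r (Pth.l (Pth.r Pth.z))))
def l12 : Tr := Tr.L (Pth.r (Pth.r (Pth.r (Pth.l Pth.z))))
def l13 : Tr := Tr.L (Pth.r (Pth.r (Pth.r (Pth.r Pth.z))))
end T3
def b4_0 : Bx := Bx.mk (St.mk (I.pos (nat_lit 133234688) (nat_lit 217677824)) (I.mix (nat_lit 3031040) (nat_lit 95092736)) (I.mix (nat_lit 3768320) (nat_lit 120225792)) (I.pos (nat_lit 359006208) (nat_lit 446808064)) (I.mix (nat_lit 141230080) (nat_lit 75546624)) (I.mix (nat_lit 94699520) (nat_lit 75694080)) (I.mix (nat_lit 106627072) (nat_lit 96092160)))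
  false (nat_lit 111407294)
def b4_1 : Bx := Bx.mk (St.mk (I.pos (nat_lit 25640960) (nat_lit 129155072)) (I.neg (nat_lit 1359872) (nat_lit 98140160)) (I.mix (nat_lit 69861376) (nat_lit 24166400)) (I.pos (nat_lit 264880128) (nat_lit 333201408)) (I.mix (nat_lit 106250240) (nat_lit 71663616)) (I.mix (nat_lit 72810496) (nat_lit 78512128)) (I.mix (nat_lit 67239936) (nat_lit 63078400)))
  false (nat_lit 26034180)
def b4_2 : Bx := Bx.mk (St.mk (I.pos (nat_lit 92274688) (nat_lit 188743680)) (I.mix (nat_lit 45940736) (nat_lit 93110272)) (I.mix (nat_lit 23674880) (nat_lit 122421248)) (I.pos (nat_lit 297943040) (nat_lit 413351936)) (I.mix (nat_lit 162725888) (nat_lit 65339392)) (I.mix (nat_lit 140673024) (nat_lit 96501760)) (I.mix (nat_lit 143851520) (nat_lit 119898112)))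
  false (nat_lit 115904198)
def b4_3 : Bx := Bx.mk (St.mk (I.neg (nat_lit 25640960) (nat_lit 129155072)) (I.pos (nat_lit 1359872) (nat_lit 98140160)) (I.mix (nat_lit 69877760) (nat_lit 24166400)) (I.pos (nat_lit 264880128) (nat_lit 333201408)) (I.mix (nat_lit 71663616) (nat_lit 106266624)) (I.mix (nat_lit 78512128) (nat_lit 72810496)) (I.mix (nat_lit 67239936) (nat_lit 63078400)))
  true (nat_lit 0)
def b4_4 : Bx := Bx.mk (St.mk (I.mix (nat_lit 62128128) (nat_lit 12189696)) (I.mix (nat_lit 13271040) (nat_lit 91078656)) (I.neg (nat_lit 26640384) (nat_lit 53362688)) (I.pos (nat_lit 263667712) (nat_lit 291667968)) (I.mix (nat_lit 45907968) (nat_lit 87080960)) (I.mix (nat_lit 81248256) (nat_lit 49479680)) (I.mix (nat_lit 28753920) (nat_lit 22249472)))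
  true (nat_lit 0)
def b4_5 : Bx := Bx.mk (St.mk (I.pos (nat_lit 19529728) (nat_lit 61210624)) (I.neg (nat_lit 31916032) (nat_lit 89767936)) (I.neg (nat_lit 28590080) (nat_lit 53313536)) (I.pos (nat_lit 268943360) (nat_lit 291520512)) (I.mix (nat_lit 86179840) (nat_lit 35307520)) (I.mix (nat_lit 49479680) (nat_lit 63275008)) (I.mix (nat_lit 28721152) (nat_lit 20758528)))
  false (nat_lit 0)
def b4_6 : Bx := Bx.mk (St.mk (I.pos (nat_lit 170655744) (nat_lit 287014912)) (I.mix (nat_lit 25214976) (nat_lit 67960832)) (I.mix (nat_lit 121913344) (nat_lit 72695808)) (I.pos (nat_lit 396279808) (nat_lit 568164352)) (I.mix (nat_lit 84066304) (nat_lit 71188480)) (I.mix (nat_lit 72204288) (nat_lit 55771136)) (I.mix (nat_lit 122896384) (nat_lit 88834048)))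
  false (nat_lit 115333903)
def b4_7 : Bx := Bx.mk (St.mk (I.mix (nat_lit 11845632) (nat_lit 50233344)) (I.mix (nat_lit 54525952) (nat_lit 12206080)) (I.neg (nat_lit 26918912) (nat_lit 43794432)) (I.pos (nat_lit 263929856) (nat_lit 280248320)) (I.mix (nat_lit 50528256) (nat_lit 43483136)) (I.mix (nat_lit 41697280) (nat_lit 42516480)) (I.mix (nat_lit 12566528) (nat_lit 13991936)))
  false (nat_lit 0)
def b4_8 : Bx := Bx.mk (St.mk (I.pos (nat_lit 151076864) (nat_lit 210829312)) (I.pos (nat_lit 30605312) (nat_lit 91521024)) (I.pos (nat_lit 26509312) (nat_lit 110264320)) (I.pos (nat_lit 378748928) (nat_lit 434241536)) (I.mix (nat_lit 115572736) (nat_lit 86130688)) (I.mix (nat_lit 101629952) (nat_lit 69140480)) (I.mix (nat_lit 135987200) (nat_lit 88604672)))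
  false (nat_lit 84552063)
def b4_9 : Bx := Bx.mk (St.mk (I.pos (nat_lit 24625152) (nat_lit 54804480)) (I.neg (nat_lit 22478848) (nat_lit 78413824)) (I.neg (nat_lit 27525120) (nat_lit 51544064)) (I.pos (nat_lit 269090816) (nat_lit 286015488)) (I.mix (nat_lit 87080960) (nat_lit 45907968)) (I.mix (nat_lit 44711936) (nat_lit 81248256)) (I.mix (nat_lit 23805952) (nat_lit 22249472)))
  false (nat_lit 0)
def t4 : BTr := (BTr.n (BTr.n (BTr.n (BTr.b b4_0) (BTr.b b4_1)) (BTr.n (BTr.b b4_2) (BTr.n (BTr.b b4_3) (BTr.b b4_4)))) (BTr.n (BTr.n (BTr.b b4_5) (BTr.b b4_6)) (BTr.n (BTr.b b4_7) (BTr.n (BTr.b b4_8) (BTr.b b4_9)))))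
namespace T4
def l0 : Tr := Tr.L (Pth.l (Pth.l (Pth.l Pth.z)))
def l1 : Tr := Tr.L (Pth.l (Pth.l (Pth.r Pth.z)))
def l2 : Tr := Tr.L (Pth.l (Pth.r (Pth.l Pth.z)))
def l3 : Tr := Tr.L (Pth.l (Pth.r (Pth.r (Pth.l Pth.z))))
def l4 : Tr := Tr.L (Pth.l (Pth.r (Pth.r (Pth.r Pth.z))))
def l5 : Tr := Tr.L (Pth.r (Pth.l (Pth.l Pth.z)))
def l6 : Tr := Tr.L (Pth.r (Pth.l (Pth.r Pth.z)))
def l7 : Tr := Tr.L (Pth.r (Pth.r (Pth.l Pth.z)))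
def l8 : Tr := Tr.L (Pth.r (Pth.r (Pth.r (Pth.l Pth.z))))
def l9 : Tr := Tr.L (Pth.r (Pth.r (Pth.r (Pth.r Pth.z))))
end T4
def b5_0 : Bx := Bx.mk (St.mk (I.pos (nat_lit 150306816) (nat_lit 232505344)) (I.mix (nat_lit 1785856) (nat_lit 51970048)) (I.mix (nat_lit 3883008) (nat_lit 124207104)) (I.pos (nat_lit 138821632) (nat_lit 246628352)) (I.mix (nat_lit 107642880) (nat_lit 61636608)) (I.mix (nat_lit 91684864) (nat_lit 74563584)) (I.mix (nat_lit 127844352) (nat_lit 91537408)))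
  false (nat_lit 55990048)
def b5_1 : Bx := Bx.mk (St.mk (I.pos (nat_lit 106479616) (nat_lit 170639360)) (I.neg (nat_lit 2539520) (nat_lit 64045056)) (I.mix (nat_lit 39223296) (nat_lit 32063488)) (I.pos (nat_lit 103268352) (nat_lit 166543360)) (I.mix (nat_lit 70254592) (nat_lit 58785792)) (I.mix (nat_lit 47841280) (nat_lit 62554112)) (I.mix (nat_lit 41418752) (nat_lit 56786944)))
  false (nat_lit 52138018)
def b5_2 : Bx := Bx.mk (St.mk (I.mix (nat_lit 20987904) (nat_lit 82755584)) (I.mix (nat_lit 33701888) (nat_lit 6963200)) (I.mix (nat_lit 4440064) (nat_lit 20578304)) (I.pos (nat_lit 39157760) (nat_lit 89210880)) (I.mix (nat_lit 27017216) (nat_lit 36503552)) (I.mix (nat_lit 21495808) (nat_lit 31227904)) (I.mix (nat_lit 12713984) (nat_lit 16728064)))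
  false (nat_lit 0)
def b5_3 : Bx := Bx.mk (St.mk (I.pos (nat_lit 158613504) (nat_lit 208830464)) (I.mix (nat_lit 11632640) (nat_lit 58195968)) (I.pos (nat_lit 27918336) (nat_lit 123994112)) (I.pos (nat_lit 139001856) (nat_lit 219725824)) (I.mix (nat_lit 142278656) (nat_lit 41402368)) (I.mix (nat_lit 138739712) (nat_lit 75218944)) (I.mix (nat_lit 167444480) (nat_lit 63176704)))
  false (nat_lit 67893996)
def b5_4 : Bx := Bx.mk (St.mk (I.mix (nat_lit 35241984) (nat_lit 106037248)) (I.mix (nat_lit 13729792) (nat_lit 38748160)) (I.pos (nat_lit 1327104) (nat_lit 43089920)) (I.pos (nat_lit 39698432) (nat_lit 103940096)) (I.mix (nat_lit 58195968) (nat_lit 30310400)) (I.mix (nat_lit 53575680) (nat_lit 30310400)) (I.mix (nat_lit 32129024) (nat_lit 18546688)))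
  false (nat_lit 0)
def b5_5 : Bx := Bx.mk (St.mk (I.pos (nat_lit 142508032) (nat_lit 174276608)) (I.neg (nat_lit 1687552) (nat_lit 38764544)) (I.mix (nat_lit 4096000) (nat_lit 38322176)) (I.pos (nat_lit 124010496) (nat_lit 173015040)) (I.mix (nat_lit 47235072) (nat_lit 43237376)) (I.mix (nat_lit 34226176) (nat_lit 43810816)) (I.mix (nat_lit 40484864) (nat_lit 37306368)))
  false (nat_lit 12839093)
def b5_6 : Bx := Bx.mk (St.mk (I.mix (nat_lit 43958272) (nat_lit 84983808)) (I.mix (nat_lit 13533184) (nat_lit 8568832)) (I.pos (nat_lit 2834432) (nat_lit 21561344)) (I.pos (nat_lit 41517056) (nat_lit 89260032)) (I.mix (nat_lit 22773760) (nat_lit 20250624)) (I.mix (nat_lit 17825792) (nat_lit 19070976)) (I.mix (nat_lit 11091968) (nat_lit 9764864)))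
  false (nat_lit 0)
def b5_7 : Bx := Bx.mk (St.mk (I.pos (nat_lit 153223168) (nat_lit 184090624)) (I.neg (nat_lit 7094272) (nat_lit 37945344)) (I.mix (nat_lit 4767744) (nat_lit 33046528)) (I.pos (nat_lit 134152192) (nat_lit 187400192)) (I.mix (nat_lit 32964608) (nat_lit 39829504)) (I.mix (nat_lit 37552128) (nat_lit 29409280)) (I.mix (nat_lit 36093952) (nat_lit 30490624)))
  false (nat_lit 0)
def b5_8 : Bx := Bx.mk (St.mk (I.pos (nat_lit 157188096) (nat_lit 199114752)) (I.mix (nat_lit 43941888) (nat_lit 30195712)) (I.mix (nat_lit 7979008) (nat_lit 86163456)) (I.pos (nat_lit 134430720) (nat_lit 203014144)) (I.mix (nat_lit 111165440) (nat_lit 68845568)) (I.mix (nat_lit 116916224) (nat_lit 63668224)) (I.mix (nat_lit 135020544) (nat_lit 61505536)))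
  false (nat_lit 70596204)
def b5_9 : Bx := Bx.mk (St.mk (I.mix (nat_lit 35045376) (nat_lit 119603200)) (I.mix (nat_lit 7864320) (nat_lit 33914880)) (I.pos (nat_lit 1916928) (nat_lit 41648128)) (I.pos (nat_lit 36569088) (nat_lit 114917376)) (I.mix (nat_lit 52510720) (nat_lit 35192832)) (I.mix (nat_lit 45809664) (nat_lit 31555584)) (I.mix (nat_lit 33570816) (nat_lit 21839872)))
  false (nat_lit 0)
def b5_10 : Bx := Bx.mk (St.mk (I.pos (nat_lit 94896128) (nat_lit 156254208)) (I.mix (nat_lit 67796992) (nat_lit 10190848)) (I.mix (nat_lit 37142528) (nat_lit 24444928)) (I.pos (nat_lit 79593472) (nat_lit 151650304)) (I.mix (nat_lit 77938688) (nat_lit 42500096)) (I.mix (nat_lit 43565056) (nat_lit 73662464)) (I.mix (nat_lit 30588928) (nat_lit 51871744)))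
  false (nat_lit 39657612)
def b5_11 : Bx := Bx.mk (St.mk (I.mix (nat_lit 35749888) (nat_lit 72892416)) (I.mix (nat_lit 26640384) (nat_lit 5488640)) (I.mix (nat_lit 1490944) (nat_lit 18432000)) (I.pos (nat_lit 40484864) (nat_lit 81117184)) (I.mix (nat_lit 27721728) (nat_lit 30801920)) (I.mix (nat_lit 23216128) (nat_lit 32604160)) (I.mix (nat_lit 12058624) (nat_lit 12746752)))
  false (nat_lit 0)
def b5_12 : Bx := Bx.mk (St.mk (I.pos (nat_lit 185614336) (nat_lit 281772032)) (I.mix (nat_lit 17219584) (nat_lit 41041920)) (I.pos (nat_lit 5718016) (nat_lit 111689728)) (I.pos (nat_lit 191086592) (nat_lit 355368960)) (I.mix (nat_lit 78184448) (nat_lit 64126976)) (I.mix (nat_lit 64143360) (nat_lit 48660480)) (I.mix (nat_lit 107642880) (nat_lit 79970304)))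
  false (nat_lit 62532116)
def b5_13 : Bx := Bx.mk (St.mk (I.pos (nat_lit 175259648) (nat_lit 229343232)) (I.pos (nat_lit 5734400) (nat_lit 49889280)) (I.pos (nat_lit 41533440) (nat_lit 120422400)) (I.pos (nat_lit 180994048) (nat_lit 240484352)) (I.mix (nat_lit 96894976) (nat_lit 71860224)) (I.mix (nat_lit 98074624) (nat_lit 69582848)) (I.mix (nat_lit 139542528) (nat_lit 85409792)))
  false (nat_lit 35158343)
def t5 : BTr := (BTr.n (BTr.n (BTr.n (BTr.b b5_0) (BTr.n (BTr.b b5_1) (BTr.b b5_2))) (BTr.n (BTr.n (BTr.b b5_3) (BTr.b b5_4)) (BTr.n (BTr.b b5_5) (BTr.b b5_6)))) (BTr.n (BTr.n (BTr.b b5_7) (BTr.n (BTr.b b5_8) (BTr.b b5_9))) (BTr.n (BTr.n (BTr.b b5_10) (BTr.b b5_11)) (BTr.n (BTr.b b5_12) (BTr.b b5_13)))))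
namespace T5
def l0 : Tr := Tr.L (Pth.l (Pth.l (Pth.l Pth.z)))
def l1 : Tr := Tr.L (Pth.l (Pth.l (Pth.r (Pth.l Pth.z))))
def l2 : Tr := Tr.L (Pth.l (Pth.l (Pth.r (Pth.r Pth.z))))
def l3 : Tr := Tr.L (Pth.l (Pth.r (Pth.l (Pth.l Pth.z))))
def l4 : Tr := Tr.L (Pth.l (Pth.r (Pth.l (Pth.r Pth.z))))
def l5 : Tr := Tr.L (Pth.l (Pth.r (Pth.r (Pth.l Pth.z))))
def l6 : Tr := Tr.L (Pth.l (Pth.r (Pth.r (Pth.r Pth.z))))
def l7 : Tr := Tr.L (Pth.r (Pth.l (Pth.l Pth.z)))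
def l8 : Tr := Tr.L (Pth.r (Pth.l (Pth.r (Pth.l Pth.z))))
def l9 : Tr := Tr.L (Pth.r (Pth.l (Pth.r (Pth.r Pth.z))))
def l10 : Tr := Tr.L (Pth.r (Pth.r (Pth.l (Pth.l Pth.z))))
def l11 : Tr := Tr.L (Pth.r (Pth.r (Pth.l (Pth.r Pth.z))))
def l12 : Tr := Tr.L (Pth.r (Pth.r (Pth.r (Pth.l Pth.z))))
def l13 : Tr := Tr.L (Pth.r (Pth.r (Pth.r (Pth.r Pth.z))))
end T5
theorem bx0_0 : BoxOK sI cl4 cl7 cl13 t2 t4 b0_0 :=
  box_mk (TrL.c (I.pos (nat_lit 0) (nat_lit 0)) (xa (xb T2.l0 (xa T2.l0 T2.l0)) (xb T2.l0 (xa T2.l0 T2.l0)))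
  (TrL.c (I.pos (nat_lit 0) (nat_lit 0)) T4.l1
  (TrL.c (I.pos (nat_lit 0) (nat_lit 0)) T2.l1
  (TrL.c (I.pos (nat_lit 0) (nat_lit 0)) T4.l2
  (TrL.c (I.pos (nat_lit 0) (nat_lit 0)) T2.l2
  (TrL.c (I.pos (nat_lit 0) (nat_lit 0)) T4.l3
  TrL.n)))))) (by decide +kernel)
theorem bx0_1 : BoxOK sI cl4 cl7 cl13 t2 t4 b0_1 :=
  box_mk (TrL.c (I.pos (nat_lit 0) (nat_lit 0)) (xa (xa T2.l6 T2.l6) (xa T2.l6 T2.l6))
  (TrL.c (I.pos (nat_lit 0) (nat_lit 0)) T4.l1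
  (TrL.c (I.pos (nat_lit 0) (nat_lit 0)) T2.l1
  (TrL.c (I.pos (nat_lit 0) (nat_lit 0)) T4.l2
  (TrL.c (I.pos (nat_lit 0) (nat_lit 0)) T2.l7
  (TrL.c (I.pos (nat_lit 0) (nat_lit 0)) T4.l3
  TrL.n)))))) (by decide +kernel)
theorem bx0_2 : BoxOK sI cl4 cl7 cl13 t2 t4 b0_2 :=
  box_mk (TrL.c (I.pos (nat_lit 0) (nat_lit 0)) (xb T2.l6 (xa (xb T2.l6 T2.l6) T2.l6))
  (TrL.c (I.pos (nat_lit 0) (nat_lit 0)) T4.l1
  (TrL.c (I.pos (nat_lit 0) (nat_lit 0)) T2.l1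
  (TrL.c (I.pos (nat_lit 0) (nat_lit 0)) T4.l2
  (TrL.c (I.pos (nat_lit 0) (nat_lit 0)) T2.l7
  (TrL.c (I.pos (nat_lit 0) (nat_lit 0)) T4.l3
  TrL.n)))))) (by decide +kernel)
theorem bx0_3 : BoxOK sI cl4 cl7 cl13 t2 t4 b0_3 :=
  box_mk (TrL.c (I.pos (nat_lit 0) (nat_lit 0)) (xa (xa (xb (xa T2.l6 T2.l6) T2.l6) T2.l6) T2.l6)
  (TrL.c (I.pos (nat_lit 0) (nat_lit 0)) T4.l1
  (TrL.c (I.pos (nat_lit 0) (nat_lit 0)) T2.l1
  (TrL.c (I.pos (nat_lit 0) (nat_lit 0)) T4.l2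
  (TrL.c (I.pos (nat_lit 0) (nat_lit 0)) T2.l7
  (TrL.c (I.pos (nat_lit 0) (nat_lit 0)) T4.l3
  TrL.n)))))) (by decide +kernel)
theorem bx0_4 : BoxOK sI cl4 cl7 cl13 t2 t4 b0_4 :=
  box_mk (TrL.c (I.pos (nat_lit 0) (nat_lit 0)) T2.l6
  (TrL.c (I.pos (nat_lit 0) (nat_lit 0)) T4.l1
  (TrL.c (I.pos (nat_lit 0) (nat_lit 0)) T2.l1
  (TrL.c (I.pos (nat_lit 0) (nat_lit 0)) T4.l2
  (TrL.c (I.pos (nat_lit 0) (nat_lit 0)) T2.l7
  (TrL.c (I.pos (nat_lit 0) (nat_lit 0)) T4.l3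
  TrL.n)))))) (by decide +kernel)
theorem bx0_5 : BoxOK sI cl4 cl7 cl13 t2 t4 b0_5 :=
  box_mk (TrL.c (I.pos (nat_lit 0) (nat_lit 0)) (xa (xa T2.l6 T2.l6) T2.l6)
  (TrL.c (I.pos (nat_lit 0) (nat_lit 0)) T4.l1
  (TrL.c (I.pos (nat_lit 0) (nat_lit 0)) T2.l1
  (TrL.c (I.pos (nat_lit 0) (nat_lit 0)) T4.l2
  (TrL.c (I.pos (nat_lit 0) (nat_lit 0)) T2.l7
  (TrL.c (I.pos (nat_lit 0) (nat_lit 0)) T4.l3
  TrL.n)))))) (by decide +kernel)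
theorem bx0_6 : BoxOK sI cl4 cl7 cl13 t2 t4 b0_6 :=
  box_mk (TrL.c (I.pos (nat_lit 0) (nat_lit 0)) T2.l0
  (TrL.c (I.pos (nat_lit 0) (nat_lit 0)) T4.l1
  (TrL.c (I.pos (nat_lit 0) (nat_lit 0)) T2.l1
  (TrL.c (I.pos (nat_lit 0) (nat_lit 0)) T4.l2
  (TrL.c (I.pos (nat_lit 0) (nat_lit 0)) T2.l3
  (TrL.c (I.pos (nat_lit 0) (nat_lit 0)) T4.l3
  TrL.n)))))) (by decide +kernel)
theorem bx0_7 : BoxOK sI cl4 cl7 cl13 t2 t4 b0_7 :=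
  box_mk (TrL.c (I.pos (nat_lit 0) (nat_lit 0)) (xb (xa (xb T2.l0 T2.l0) (xb T2.l0 T2.l0)) (xa (xb T2.l0 (xa T2.l0 T2.l0)) (xb T2.l0 (xa T2.l0 T2.l0))))
  (TrL.c (I.pos (nat_lit 0) (nat_lit 0)) (xb T4.l1 (xa T4.l1 T4.l1))
  (TrL.c (I.pos (nat_lit 0) (nat_lit 0)) T2.l5
  (TrL.c (I.pos (nat_lit 0) (nat_lit 0)) (xb (xa T4.l2 (xb (xa T4.l2 T4.l2) T4.l2)) (xa T4.l2 (xb T4.l2 (xa T4.l2 T4.l2))))
  (TrL.c (I.pos (nat_lit 0) (nat_lit 0)) T2.l3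
  (TrL.c (I.pos (nat_lit 0) (nat_lit 0)) (xb T4.l3 (xa T4.l3 T4.l3))
  TrL.n)))))) (by decide +kernel)
theorem bx0_8 : BoxOK sI cl4 cl7 cl13 t2 t4 b0_8 :=
  box_mk (TrL.c (I.pos (nat_lit 0) (nat_lit 0)) (xa (xb (xa (xb T2.l6 T2.l6) T2.l6) (xa T2.l6 T2.l6)) (xb (xa T2.l6 T2.l6) T2.l6))
  (TrL.c (I.pos (nat_lit 0) (nat_lit 0)) T4.l1
  (TrL.c (I.pos (nat_lit 0) (nat_lit 0)) T2.l1
  (TrL.c (I.pos (nat_lit 0) (nat_lit 0)) (xa T4.l2 T4.l2)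
  (TrL.c (I.pos (nat_lit 0) (nat_lit 0)) T2.l7
  (TrL.c (I.pos (nat_lit 0) (nat_lit 0)) T4.l3
  TrL.n)))))) (by decide +kernel)
theorem bx0_9 : BoxOK sI cl4 cl7 cl13 t2 t4 b0_9 :=
  box_mk (TrL.c (I.pos (nat_lit 0) (nat_lit 0)) (xa (xa (xb (xa T2.l6 T2.l6) T2.l6) T2.l6) T2.l6)
  (TrL.c (I.pos (nat_lit 0) (nat_lit 0)) T4.l1
  (TrL.c (I.pos (nat_lit 0) (nat_lit 0)) T2.l1
  (TrL.c (I.pos (nat_lit 0) (nat_lit 0)) T4.l2
  (TrL.c (I.pos (nat_lit 0) (nat_lit 0)) T2.l7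
  (TrL.c (I.pos (nat_lit 0) (nat_lit 0)) T4.l3
  TrL.n)))))) (by decide +kernel)
theorem bx0_10 : BoxOK sI cl4 cl7 cl13 t2 t4 b0_10 :=
  box_mk (TrL.c (I.pos (nat_lit 0) (nat_lit 0)) (xb (xa (xb T2.l8 T2.l8) T2.l8) (xa (xb T2.l8 (xa T2.l8 T2.l8)) (xb T2.l8 T2.l8)))
  (TrL.c (I.pos (nat_lit 0) (nat_lit 0)) (xb T4.l1 T4.l1)
  (TrL.c (I.pos (nat_lit 0) (nat_lit 0)) T2.l1
  (TrL.c (I.pos (nat_lit 0) (nat_lit 0)) (xb T4.l2 (xa T4.l2 (xb T4.l2 (xa T4.l2 T4.l2))))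
  (TrL.c (I.pos (nat_lit 0) (nat_lit 0)) T2.l9
  (TrL.c (I.pos (nat_lit 0) (nat_lit 0)) (xb T4.l3 T4.l3)
  TrL.n)))))) (by decide +kernel)
theorem bx0_11 : BoxOK sI cl4 cl7 cl13 t2 t4 b0_11 :=
  box_mk (TrL.c (I.pos (nat_lit 0) (nat_lit 0)) (xa (xa (xb (xa T2.l6 T2.l6) (xa T2.l6 T2.l6)) (xb T2.l6 T2.l6)) (xa T2.l6 (xb T2.l6 (xa T2.l6 T2.l6))))
  (TrL.c (I.pos (nat_lit 0) (nat_lit 0)) (xa T4.l1 T4.l1)
  (TrL.c (I.pos (nat_lit 0) (nat_lit 0)) T2.l1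
  (TrL.c (I.pos (nat_lit 0) (nat_lit 0)) (xa T4.l2 T4.l2)
  (TrL.c (I.pos (nat_lit 0) (nat_lit 0)) T2.l7
  (TrL.c (I.pos (nat_lit 0) (nat_lit 0)) (xa T4.l3 T4.l3)
  TrL.n)))))) (by decide +kernel)
theorem bx0_12 : BoxOK sI cl4 cl7 cl13 t2 t4 b0_12 :=
  box_mk (TrL.c (I.pos (nat_lit 0) (nat_lit 0)) (xa (xb T2.l8 T2.l8) T2.l8)
  (TrL.c (I.pos (nat_lit 0) (nat_lit 0)) T4.l1
  (TrL.c (I.pos (nat_lit 0) (nat_lit 0)) T2.l1
  (TrL.c (I.pos (nat_lit 0) (nat_lit 0)) (xa T4.l2 T4.l2)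
  (TrL.c (I.pos (nat_lit 0) (nat_lit 0)) T2.l9
  (TrL.c (I.pos (nat_lit 0) (nat_lit 0)) T4.l3
  TrL.n)))))) (by decide +kernel)
theorem bx0_13 : BoxOK sI cl4 cl7 cl13 t2 t4 b0_13 :=
  box_mk (TrL.c (I.pos (nat_lit 0) (nat_lit 0)) (xb T2.l8 T2.l8)
  (TrL.c (I.pos (nat_lit 0) (nat_lit 0)) T4.l1
  (TrL.c (I.pos (nat_lit 0) (nat_lit 0)) T2.l1
  (TrL.c (I.pos (nat_lit 0) (nat_lit 0)) (xb T4.l2 T4.l2)
  (TrL.c (I.pos (nat_lit 0) (nat_lit 0)) T2.l3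
  (TrL.c (I.pos (nat_lit 0) (nat_lit 0)) T4.l3
  TrL.n)))))) (by decide +kernel)
theorem sv0 : StarV sI cl4 cl7 cl13 t2 t4 t0 :=
  (bt_n (bt_n (bt_n (bt_b bx0_0) (bt_n (bt_b bx0_1) (bt_b bx0_2))) (bt_n (bt_n (bt_b bx0_3) (bt_b bx0_4)) (bt_n (bt_b bx0_5) (bt_b bx0_6)))) (bt_n (bt_n (bt_b bx0_7) (bt_n (bt_b bx0_8) (bt_b bx0_9))) (bt_n (bt_n (bt_b bx0_10) (bt_b bx0_11)) (bt_n (bt_b bx0_12) (bt_b bx0_13)))))
def S0 : StarD := StarD.mk cl4 cl7 cl13 2 4 t0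
theorem bx1_0 : BoxOK sI cl4 cl13 cl7 t4 t2 b1_0 :=
  box_mk (TrL.c (I.pos (nat_lit 0) (nat_lit 0)) (xa (xb T4.l0 (xa T4.l0 T4.l0)) (xb T4.l0 (xa T4.l0 T4.l0)))
  (TrL.c (I.pos (nat_lit 0) (nat_lit 0)) T2.l3
  (TrL.c (I.pos (nat_lit 0) (nat_lit 0)) T4.l4
  (TrL.c (I.pos (nat_lit 0) (nat_lit 0)) (xa T2.l4 T2.l4)
  (TrL.c (I.pos (nat_lit 0) (nat_lit 0)) T4.l5
  (TrL.c (I.pos (nat_lit 0) (nat_lit 0)) T2.l5
  TrL.n)))))) (by decide +kernel)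
theorem bx1_1 : BoxOK sI cl4 cl13 cl7 t4 t2 b1_1 :=
  box_mk (TrL.c (I.pos (nat_lit 0) (nat_lit 0)) (xa T4.l6 (xa T4.l6 T4.l6))
  (TrL.c (I.pos (nat_lit 0) (nat_lit 0)) (xa T2.l3 T2.l3)
  (TrL.c (I.pos (nat_lit 0) (nat_lit 0)) T4.l4
  (TrL.c (I.pos (nat_lit 0) (nat_lit 0)) T2.l4
  (TrL.c (I.pos (nat_lit 0) (nat_lit 0)) T4.l7
  (TrL.c (I.pos (nat_lit 0) (nat_lit 0)) (xa T2.l5 T2.l5)
  TrL.n)))))) (by decide +kernel)
theorem bx1_2 : BoxOK sI cl4 cl13 cl7 t4 t2 b1_2 :=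
  box_mk (TrL.c (I.pos (nat_lit 0) (nat_lit 0)) (xb T4.l6 (xa T4.l6 T4.l6))
  (TrL.c (I.pos (nat_lit 0) (nat_lit 0)) T2.l3
  (TrL.c (I.pos (nat_lit 0) (nat_lit 0)) T4.l4
  (TrL.c (I.pos (nat_lit 0) (nat_lit 0)) T2.l4
  (TrL.c (I.pos (nat_lit 0) (nat_lit 0)) T4.l7
  (TrL.c (I.pos (nat_lit 0) (nat_lit 0)) T2.l5
  TrL.n)))))) (by decide +kernel)
theorem bx1_3 : BoxOK sI cl4 cl13 cl7 t4 t2 b1_3 :=
  box_mk (TrL.c (I.pos (nat_lit 0) (nat_lit 0)) T4.l6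
  (TrL.c (I.pos (nat_lit 0) (nat_lit 0)) T2.l3
  (TrL.c (I.pos (nat_lit 0) (nat_lit 0)) T4.l4
  (TrL.c (I.pos (nat_lit 0) (nat_lit 0)) T2.l4
  (TrL.c (I.pos (nat_lit 0) (nat_lit 0)) T4.l7
  (TrL.c (I.pos (nat_lit 0) (nat_lit 0)) T2.l5
  TrL.n)))))) (by decide +kernel)
theorem bx1_4 : BoxOK sI cl4 cl13 cl7 t4 t2 b1_4 :=
  box_mk (TrL.c (I.pos (nat_lit 0) (nat_lit 0)) (xb (xa (xb T4.l0 T4.l0) T4.l2) (xa (xb T4.l0 (xa T4.l0 T4.l0)) (xa T4.l0 T4.l2)))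
  (TrL.c (I.pos (nat_lit 0) (nat_lit 0)) (xb T2.l3 T2.l3)
  (TrL.c (I.pos (nat_lit 0) (nat_lit 0)) T4.l3
  (TrL.c (I.pos (nat_lit 0) (nat_lit 0)) (xb (xa T2.l4 (xb (xa T2.l4 T2.l4) T2.l4)) (xa T2.l4 (xb T2.l4 (xa T2.l4 T2.l4))))
  (TrL.c (I.pos (nat_lit 0) (nat_lit 0)) T4.l1
  (TrL.c (I.pos (nat_lit 0) (nat_lit 0)) (xb T2.l5 T2.l5)
  TrL.n)))))) (by decide +kernel)
theorem bx1_5 : BoxOK sI cl4 cl13 cl7 t4 t2 b1_5 :=
  box_mk (TrL.c (I.pos (nat_lit 0) (nat_lit 0)) T4.l6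
  (TrL.c (I.pos (nat_lit 0) (nat_lit 0)) T2.l3
  (TrL.c (I.pos (nat_lit 0) (nat_lit 0)) T4.l4
  (TrL.c (I.pos (nat_lit 0) (nat_lit 0)) T2.l4
  (TrL.c (I.pos (nat_lit 0) (nat_lit 0)) T4.l7
  (TrL.c (I.pos (nat_lit 0) (nat_lit 0)) T2.l5
  TrL.n)))))) (by decide +kernel)
theorem bx1_6 : BoxOK sI cl4 cl13 cl7 t4 t2 b1_6 :=
  box_mk (TrL.c (I.pos (nat_lit 0) (nat_lit 0)) T4.l6
  (TrL.c (I.pos (nat_lit 0) (nat_lit 0)) T2.l3
  (TrL.c (I.pos (nat_lit 0) (nat_lit 0)) T4.l4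
  (TrL.c (I.pos (nat_lit 0) (nat_lit 0)) T2.l4
  (TrL.c (I.pos (nat_lit 0) (nat_lit 0)) T4.l7
  (TrL.c (I.pos (nat_lit 0) (nat_lit 0)) T2.l5
  TrL.n)))))) (by decide +kernel)
theorem bx1_7 : BoxOK sI cl4 cl13 cl7 t4 t2 b1_7 :=
  box_mk (TrL.c (I.pos (nat_lit 0) (nat_lit 0)) T4.l0
  (TrL.c (I.pos (nat_lit 0) (nat_lit 0)) T2.l3
  (TrL.c (I.pos (nat_lit 0) (nat_lit 0)) T4.l3
  (TrL.c (I.pos (nat_lit 0) (nat_lit 0)) T2.l0
  (TrL.c (I.pos (nat_lit 0) (nat_lit 0)) T4.l1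
  (TrL.c (I.pos (nat_lit 0) (nat_lit 0)) T2.l5
  TrL.n)))))) (by decide +kernel)
theorem bx1_8 : BoxOK sI cl4 cl13 cl7 t4 t2 b1_8 :=
  box_mk (TrL.c (I.pos (nat_lit 0) (nat_lit 0)) (xa (xb (xa (xb T4.l6 T4.l6) T4.l6) (xa (xb T4.l6 T4.l6) T4.l6)) T4.l0)
  (TrL.c (I.pos (nat_lit 0) (nat_lit 0)) T2.l3
  (TrL.c (I.pos (nat_lit 0) (nat_lit 0)) T4.l4
  (TrL.c (I.pos (nat_lit 0) (nat_lit 0)) T2.l4
  (TrL.c (I.pos (nat_lit 0) (nat_lit 0)) T4.l7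
  (TrL.c (I.pos (nat_lit 0) (nat_lit 0)) T2.l5
  TrL.n)))))) (by decide +kernel)
theorem bx1_9 : BoxOK sI cl4 cl13 cl7 t4 t2 b1_9 :=
  box_mk (TrL.c (I.pos (nat_lit 0) (nat_lit 0)) (xa (xa (xb (xa T4.l6 T4.l6) T4.l6) T4.l6) T4.l6)
  (TrL.c (I.pos (nat_lit 0) (nat_lit 0)) T2.l3
  (TrL.c (I.pos (nat_lit 0) (nat_lit 0)) T4.l4
  (TrL.c (I.pos (nat_lit 0) (nat_lit 0)) (xa T2.l4 T2.l4)
  (TrL.c (I.pos (nat_lit 0) (nat_lit 0)) T4.l7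
  (TrL.c (I.pos (nat_lit 0) (nat_lit 0)) T2.l5
  TrL.n)))))) (by decide +kernel)
theorem bx1_10 : BoxOK sI cl4 cl13 cl7 t4 t2 b1_10 :=
  box_mk (TrL.c (I.pos (nat_lit 0) (nat_lit 0)) (xb (xa (xb T4.l8 T4.l8) T4.l8) (xa (xb T4.l8 T4.l8) (xb T4.l8 T4.l8)))
  (TrL.c (I.pos (nat_lit 0) (nat_lit 0)) (xb T2.l3 T2.l3)
  (TrL.c (I.pos (nat_lit 0) (nat_lit 0)) T4.l4
  (TrL.c (I.pos (nat_lit 0) (nat_lit 0)) (xb T2.l4 (xa T2.l4 (xb T2.l4 (xa T2.l4 T2.l4))))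
  (TrL.c (I.pos (nat_lit 0) (nat_lit 0)) T4.l9
  (TrL.c (I.pos (nat_lit 0) (nat_lit 0)) (xb T2.l5 T2.l5)
  TrL.n)))))) (by decide +kernel)
theorem bx1_11 : BoxOK sI cl4 cl13 cl7 t4 t2 b1_11 :=
  box_mk (TrL.c (I.pos (nat_lit 0) (nat_lit 0)) (xa (xa (xb T4.l6 (xa T4.l6 T4.l6)) (xb T4.l6 T4.l6)) (xa T4.l6 (xb T4.l6 (xa T4.l6 T4.l6))))
  (TrL.c (I.pos (nat_lit 0) (nat_lit 0)) (xa T2.l3 T2.l3)
  (TrL.c (I.pos (nat_lit 0) (nat_lit 0)) T4.l4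
  (TrL.c (I.pos (nat_lit 0) (nat_lit 0)) (xa T2.l4 T2.l4)
  (TrL.c (I.pos (nat_lit 0) (nat_lit 0)) T4.l7
  (TrL.c (I.pos (nat_lit 0) (nat_lit 0)) (xa T2.l5 T2.l5)
  TrL.n)))))) (by decide +kernel)
theorem bx1_12 : BoxOK sI cl4 cl13 cl7 t4 t2 b1_12 :=
  box_mk (TrL.c (I.pos (nat_lit 0) (nat_lit 0)) (xa T4.l0 T4.l0)
  (TrL.c (I.pos (nat_lit 0) (nat_lit 0)) T2.l3
  (TrL.c (I.pos (nat_lit 0) (nat_lit 0)) T4.l4
  (TrL.c (I.pos (nat_lit 0) (nat_lit 0)) (xa T2.l4 T2.l4)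
  (TrL.c (I.pos (nat_lit 0) (nat_lit 0)) T4.l9
  (TrL.c (I.pos (nat_lit 0) (nat_lit 0)) T2.l5
  TrL.n)))))) (by decide +kernel)
theorem bx1_13 : BoxOK sI cl4 cl13 cl7 t4 t2 b1_13 :=
  box_mk (TrL.c (I.pos (nat_lit 0) (nat_lit 0)) (xb (xa T4.l8 T4.l8) (xa T4.l8 T4.l8))
  (TrL.c (I.pos (nat_lit 0) (nat_lit 0)) T2.l3
  (TrL.c (I.pos (nat_lit 0) (nat_lit 0)) T4.l3
  (TrL.c (I.pos (nat_lit 0) (nat_lit 0)) (xb T2.l4 T2.l4)
  (TrL.c (I.pos (nat_lit 0) (nat_lit 0)) T4.l1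
  (TrL.c (I.pos (nat_lit 0) (nat_lit 0)) T2.l5
  TrL.n)))))) (by decide +kernel)
theorem sv1 : StarV sI cl4 cl13 cl7 t4 t2 t1 :=
  (bt_n (bt_n (bt_n (bt_b bx1_0) (bt_n (bt_b bx1_1) (bt_b bx1_2))) (bt_n (bt_n (bt_b bx1_3) (bt_b bx1_4)) (bt_n (bt_b bx1_5) (bt_b bx1_6)))) (bt_n (bt_n (bt_b bx1_7) (bt_n (bt_b bx1_8) (bt_b bx1_9))) (bt_n (bt_n (bt_b bx1_10) (bt_b bx1_11)) (bt_n (bt_b bx1_12) (bt_b bx1_13)))))
def S1 : StarD := StarD.mk cl4 cl13 cl7 4 2 t1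
theorem bx2_0 : BoxOK sI cl7 cl4 cl13 t0 t5 b2_0 :=
  box_mk (TrL.c (I.pos (nat_lit 0) (nat_lit 0)) (xa (xb T0.l0 T0.l7) (xb T0.l0 T0.l0))
  (TrL.c (I.pos (nat_lit 0) (nat_lit 0)) T5.l1
  (TrL.c (I.pos (nat_lit 0) (nat_lit 111196574)) (xR T0.l1 T0.l1)
  (TrL.c (I.pos (nat_lit 0) (nat_lit 77433728)) (xR T5.l2 T5.l2)
  (TrL.c (I.pos (nat_lit 0) (nat_lit 0)) (xb (xa T5.l8 T5.l3) (xa (xk T5.l3 T5.l3) (xk T5.l3 T5.l3)))
  (TrL.c (I.pos (nat_lit 0) (nat_lit 0)) T0.l2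
  (TrL.c (I.mix (nat_lit 29511666) (nat_lit 77433728)) (xR T5.l4 T5.l4)
  (TrL.c (I.mix (nat_lit 29511666) (nat_lit 46070178)) T0.l3
  TrL.n)))))))) (by decide +kernel)
theorem bx2_1 : BoxOK sI cl7 cl4 cl13 t0 t5 b2_1 :=
  box_mk (TrL.c (I.pos (nat_lit 0) (nat_lit 0)) T5.l5
  (TrL.c (I.pos (nat_lit 0) (nat_lit 0)) T0.l4
  (TrL.c (I.mix (nat_lit 29511666) (nat_lit 77433728)) (xR T5.l6 T5.l4)
  (TrL.c (I.mix (nat_lit 29511666) (nat_lit 46070178)) T0.l5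
  TrL.n)))) (by decide +kernel)
theorem bx2_2 : BoxOK sI cl7 cl4 cl13 t0 t5 b2_2 :=
  box_mk (TrL.c (I.pos (nat_lit 0) (nat_lit 0)) (xb T0.l7 T0.l7)
  (TrL.c (I.pos (nat_lit 0) (nat_lit 0)) T5.l1
  (TrL.c (I.pos (nat_lit 0) (nat_lit 111196574)) T0.l1
  (TrL.c (I.pos (nat_lit 0) (nat_lit 77433728)) T5.l2
  (TrL.c (I.pos (nat_lit 0) (nat_lit 0)) T5.l8
  (TrL.c (I.pos (nat_lit 0) (nat_lit 0)) T0.l2
  (TrL.c (I.mix (nat_lit 29511666) (nat_lit 77433728)) T5.l4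
  (TrL.c (I.mix (nat_lit 29511666) (nat_lit 46070178)) T0.l3
  TrL.n)))))))) (by decide +kernel)
theorem bx2_3 : BoxOK sI cl7 cl4 cl13 t0 t5 b2_3 :=
  box_mk (TrL.c (I.pos (nat_lit 0) (nat_lit 0)) (xa (xb (xa (xb T0.l7 T0.l7) T0.l7) (xa T0.l7 T0.l7)) T0.l7)
  (TrL.c (I.pos (nat_lit 0) (nat_lit 0)) T5.l1
  (TrL.c (I.pos (nat_lit 0) (nat_lit 111196574)) (xR T0.l1 T0.l1)
  (TrL.c (I.pos (nat_lit 0) (nat_lit 77433728)) T5.l2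
  (TrL.c (I.pos (nat_lit 0) (nat_lit 0)) (xa T5.l8 (xb T5.l8 T5.l8))
  (TrL.c (I.pos (nat_lit 0) (nat_lit 0)) T0.l2
  (TrL.c (I.mix (nat_lit 29511666) (nat_lit 77433728)) (xR T5.l4 T5.l4)
  (TrL.c (I.mix (nat_lit 29511666) (nat_lit 46070178)) T0.l9
  TrL.n)))))))) (by decide +kernel)
theorem bx2_4 : BoxOK sI cl7 cl4 cl13 t0 t5 b2_4 :=
  box_mk (TrL.c (I.pos (nat_lit 0) (nat_lit 0)) (xb (xa (xb T0.l7 T0.l7) T0.l7) (xa (xb (xa T0.l7 T0.l7) (xa T0.l7 T0.l7)) (xb T0.l7 T0.l7)))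
  (TrL.c (I.pos (nat_lit 0) (nat_lit 0)) (xb T5.l1 T5.l1)
  (TrL.c (I.pos (nat_lit 0) (nat_lit 111196574)) (xR T0.l1 (xR T0.l1 T0.l1))
  (TrL.c (I.pos (nat_lit 0) (nat_lit 77433728)) (xR T5.l2 T5.l2)
  (TrL.c (I.pos (nat_lit 0) (nat_lit 0)) (xb (xa T5.l8 (xk (xb T5.l8 T5.l8) (xb T5.l8 T5.l8))) (xa T5.l8 (xk T5.l3 T5.l3)))
  (TrL.c (I.pos (nat_lit 0) (nat_lit 0)) T0.l2
  (TrL.c (I.mix (nat_lit 29511666) (nat_lit 77433728)) (xR T5.l4 T5.l4)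
  (TrL.c (I.mix (nat_lit 29511666) (nat_lit 46070178)) T0.l9
  TrL.n)))))))) (by decide +kernel)
theorem bx2_5 : BoxOK sI cl7 cl4 cl13 t0 t5 b2_5 :=
  box_mk (TrL.c (I.pos (nat_lit 0) (nat_lit 0)) T5.l1
  (TrL.c (I.pos (nat_lit 0) (nat_lit 0)) T0.l1
  (TrL.c (I.mix (nat_lit 29511666) (nat_lit 77433728)) (xR T5.l6 T5.l2)
  (TrL.c (I.mix (nat_lit 29511666) (nat_lit 46070178)) T0.l5
  TrL.n)))) (by decide +kernel)
theorem bx2_6 : BoxOK sI cl7 cl4 cl13 t0 t5 b2_6 :=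
  box_mk (TrL.c (I.pos (nat_lit 0) (nat_lit 0)) (xa (xb T0.l0 T0.l0) (xb T0.l0 T0.l0))
  (TrL.c (I.pos (nat_lit 0) (nat_lit 0)) T5.l1
  (TrL.c (I.pos (nat_lit 0) (nat_lit 111196574)) (xR T0.l1 T0.l1)
  (TrL.c (I.pos (nat_lit 0) (nat_lit 77433728)) (xR T5.l2 T5.l2)
  (TrL.c (I.pos (nat_lit 0) (nat_lit 0)) (xa (xb (xk (xa T5.l3 T5.l3) (xa T5.l3 T5.l3)) T5.l3) (xb (xk (xa T5.l3 T5.l3) (xa T5.l3 T5.l3)) (xk (xa T5.l3 T5.l3) (xa T5.l3 T5.l3))))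
  (TrL.c (I.pos (nat_lit 0) (nat_lit 0)) (xa T0.l2 T0.l2)
  (TrL.c (I.mix (nat_lit 29511666) (nat_lit 77433728)) (xR T5.l4 (xR T5.l4 T5.l4))
  (TrL.c (I.mix (nat_lit 29511666) (nat_lit 46070178)) T0.l3
  TrL.n)))))))) (by decide +kernel)
theorem bx2_7 : BoxOK sI cl7 cl4 cl13 t0 t5 b2_7 :=
  box_mk (TrL.c (I.pos (nat_lit 0) (nat_lit 0)) (xb (xa (xb T0.l6 T0.l6) T0.l6) (xa T0.l6 T0.l6))
  (TrL.c (I.pos (nat_lit 0) (nat_lit 0)) T5.l5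
  (TrL.c (I.pos (nat_lit 0) (nat_lit 111196574)) T0.l1
  (TrL.c (I.pos (nat_lit 0) (nat_lit 77433728)) T5.l2
  (TrL.c (I.pos (nat_lit 0) (nat_lit 0)) T5.l7
  (TrL.c (I.pos (nat_lit 0) (nat_lit 0)) T0.l2
  (TrL.c (I.mix (nat_lit 29511666) (nat_lit 77433728)) T5.l4
  (TrL.c (I.mix (nat_lit 29511666) (nat_lit 46070178)) T0.l3
  TrL.n)))))))) (by decide +kernel)
theorem bx2_8 : BoxOK sI cl7 cl4 cl13 t0 t5 b2_8 :=
  box_mk (TrL.c (I.pos (nat_lit 0) (nat_lit 0)) (xa T0.l7 (xb T0.l0 T0.l0))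
  (TrL.c (I.pos (nat_lit 0) (nat_lit 0)) T5.l1
  (TrL.c (I.pos (nat_lit 0) (nat_lit 111196574)) (xR T0.l1 T0.l1)
  (TrL.c (I.pos (nat_lit 0) (nat_lit 77433728)) (xR T5.l2 T5.l2)
  (TrL.c (I.pos (nat_lit 0) (nat_lit 0)) (xk T5.l3 T5.l3)
  (TrL.c (I.pos (nat_lit 0) (nat_lit 0)) T0.l2
  (TrL.c (I.mix (nat_lit 29511666) (nat_lit 77433728)) (xR T5.l4 T5.l4)
  (TrL.c (I.mix (nat_lit 29511666) (nat_lit 46070178)) T0.l3
  TrL.n)))))))) (by decide +kernel)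
theorem bx2_9 : BoxOK sI cl7 cl4 cl13 t0 t5 b2_9 :=
  box_mk (TrL.c (I.pos (nat_lit 0) (nat_lit 0)) T0.l7
  (TrL.c (I.pos (nat_lit 0) (nat_lit 0)) T5.l1
  (TrL.c (I.pos (nat_lit 0) (nat_lit 111196574)) T0.l1
  (TrL.c (I.pos (nat_lit 0) (nat_lit 77433728)) T5.l2
  (TrL.c (I.pos (nat_lit 0) (nat_lit 0)) T5.l8
  (TrL.c (I.pos (nat_lit 0) (nat_lit 0)) T0.l2
  (TrL.c (I.mix (nat_lit 29511666) (nat_lit 77433728)) T5.l4
  (TrL.c (I.mix (nat_lit 29511666) (nat_lit 46070178)) T0.l3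
  TrL.n)))))))) (by decide +kernel)
theorem sv2 : StarV sI cl7 cl4 cl13 t0 t5 t2 :=
  (bt_n (bt_n (bt_n (bt_b bx2_0) (bt_b bx2_1)) (bt_n (bt_b bx2_2) (bt_n (bt_b bx2_3) (bt_b bx2_4)))) (bt_n (bt_n (bt_b bx2_5) (bt_b bx2_6)) (bt_n (bt_b bx2_7) (bt_n (bt_b bx2_8) (bt_b bx2_9)))))
def S2 : StarD := StarD.mk cl7 cl4 cl13 0 5 t2
theorem bx3_0 : BoxOK sI cl7 cl13 cl4 t5 t0 b3_0 :=
  box_mk (TrL.c (I.pos (nat_lit 0) (nat_lit 0)) (xa (xa (xb T5.l0 (xs T5.l0 T5.l0)) (xb T5.l0 T5.l0)) (xa (xb T5.l0 T5.l0) (xb T5.l0 T5.l0)))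
  (TrL.c (I.pos (nat_lit 0) (nat_lit 0)) (xa T0.l8 T0.l8)
  (TrL.c (I.pos (nat_lit 0) (nat_lit 111196574)) (xR T5.l9 T5.l9)
  (TrL.c (I.pos (nat_lit 0) (nat_lit 77433728)) (xR T0.l9 T0.l9)
  (TrL.c (I.pos (nat_lit 0) (nat_lit 0)) (xa T0.l10 (xk T0.l10 T0.l10))
  (TrL.c (I.pos (nat_lit 0) (nat_lit 0)) T5.l10
  (TrL.c (I.mix (nat_lit 29511666) (nat_lit 77433728)) (xR T0.l11 T0.l11)
  (TrL.c (I.mix (nat_lit 29511666) (nat_lit 46070178)) T5.l11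
  TrL.n)))))))) (by decide +kernel)
theorem bx3_1 : BoxOK sI cl7 cl13 cl4 t5 t0 b3_1 :=
  box_mk (TrL.c (I.pos (nat_lit 0) (nat_lit 0)) (xa (xb (xa T5.l12 T5.l12) T5.l12) T5.l0)
  (TrL.c (I.pos (nat_lit 0) (nat_lit 0)) T0.l8
  (TrL.c (I.pos (nat_lit 0) (nat_lit 111196574)) T5.l9
  (TrL.c (I.pos (nat_lit 0) (nat_lit 77433728)) (xR T0.l9 T0.l9)
  (TrL.c (I.pos (nat_lit 0) (nat_lit 0)) (xa T0.l12 (xb (xk T0.l12 T0.l12) T0.l12))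
  (TrL.c (I.pos (nat_lit 0) (nat_lit 0)) T5.l10
  (TrL.c (I.mix (nat_lit 29511666) (nat_lit 77433728)) (xR T0.l11 T0.l11)
  (TrL.c (I.mix (nat_lit 29511666) (nat_lit 46070178)) T5.l11
  TrL.n)))))))) (by decide +kernel)
theorem bx3_2 : BoxOK sI cl7 cl13 cl4 t5 t0 b3_2 :=
  box_mk (TrL.c (I.pos (nat_lit 0) (nat_lit 0)) (xa (xa (xb (xa T5.l12 T5.l12) T5.l12) T5.l12) T5.l12)
  (TrL.c (I.pos (nat_lit 0) (nat_lit 0)) (xa T0.l8 T0.l8)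
  (TrL.c (I.pos (nat_lit 0) (nat_lit 111196574)) T5.l9
  (TrL.c (I.pos (nat_lit 0) (nat_lit 77433728)) (xR T0.l9 T0.l9)
  (TrL.c (I.pos (nat_lit 0) (nat_lit 0)) (xa T0.l12 T0.l12)
  (TrL.c (I.pos (nat_lit 0) (nat_lit 0)) T5.l10
  (TrL.c (I.mix (nat_lit 29511666) (nat_lit 77433728)) T0.l11
  (TrL.c (I.mix (nat_lit 29511666) (nat_lit 46070178)) T5.l11
  TrL.n)))))))) (by decide +kernel)
theorem bx3_3 : BoxOK sI cl7 cl13 cl4 t5 t0 b3_3 :=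
  box_mk (TrL.c (I.pos (nat_lit 0) (nat_lit 0)) (xb (xa (xb T5.l13 (xa T5.l13 T5.l13)) (xb T5.l13 T5.l13)) (xa (xs (xb T5.l13 T5.l13) (xb T5.l13 T5.l13)) (xs T5.l13 (xb T5.l13 T5.l13))))
  (TrL.c (I.pos (nat_lit 0) (nat_lit 0)) (xb T0.l8 T0.l8)
  (TrL.c (I.pos (nat_lit 0) (nat_lit 111196574)) (xR T5.l9 (xR T5.l9 T5.l9))
  (TrL.c (I.pos (nat_lit 0) (nat_lit 77433728)) (xR T0.l9 T0.l9)
  (TrL.c (I.pos (nat_lit 0) (nat_lit 0)) (xk (xb (xa T0.l13 T0.l13) (xa T0.l13 T0.l13)) (xb (xa T0.l13 T0.l13) (xa T0.l13 T0.l13)))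
  (TrL.c (I.pos (nat_lit 0) (nat_lit 0)) T5.l10
  (TrL.c (I.mix (nat_lit 29511666) (nat_lit 77433728)) (xR T0.l11 (xR T0.l11 T0.l11))
  (TrL.c (I.mix (nat_lit 29511666) (nat_lit 46070178)) (xR T5.l11 T5.l11)
  TrL.n)))))))) (by decide +kernel)
theorem bx3_4 : BoxOK sI cl7 cl13 cl4 t5 t0 b3_4 :=
  box_mk (TrL.c (I.pos (nat_lit 0) (nat_lit 0)) (xa (xa (xb (xa T5.l12 T5.l12) (xa T5.l12 T5.l12)) (xb T5.l12 (xa T5.l12 T5.l12))) (xa (xb T5.l12 (xa T5.l12 T5.l12)) (xa T5.l12 T5.l12)))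
  (TrL.c (I.pos (nat_lit 0) (nat_lit 0)) (xa T0.l8 T0.l8)
  (TrL.c (I.pos (nat_lit 0) (nat_lit 111196574)) T5.l9
  (TrL.c (I.pos (nat_lit 0) (nat_lit 77433728)) (xR T0.l9 T0.l9)
  (TrL.c (I.pos (nat_lit 0) (nat_lit 0)) (xa T0.l12 T0.l12)
  (TrL.c (I.pos (nat_lit 0) (nat_lit 0)) T5.l10
  (TrL.c (I.mix (nat_lit 29511666) (nat_lit 77433728)) (xR T0.l11 T0.l11)
  (TrL.c (I.mix (nat_lit 29511666) (nat_lit 46070178)) T5.l11
  TrL.n)))))))) (by decide +kernel)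
theorem bx3_5 : BoxOK sI cl7 cl13 cl4 t5 t0 b3_5 :=
  box_mk (TrL.c (I.pos (nat_lit 0) (nat_lit 0)) (xb (xa T5.l13 T5.l13) (xa T5.l13 T5.l13))
  (TrL.c (I.pos (nat_lit 0) (nat_lit 0)) T0.l8
  (TrL.c (I.pos (nat_lit 0) (nat_lit 111196574)) (xR T5.l9 T5.l9)
  (TrL.c (I.pos (nat_lit 0) (nat_lit 77433728)) (xR T0.l9 T0.l9)
  (TrL.c (I.pos (nat_lit 0) (nat_lit 0)) (xk (xb (xa T0.l13 T0.l13) T0.l13) (xb (xa T0.l13 T0.l13) T0.l13))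
  (TrL.c (I.pos (nat_lit 0) (nat_lit 0)) T5.l10
  (TrL.c (I.mix (nat_lit 29511666) (nat_lit 77433728)) (xR T0.l11 T0.l11)
  (TrL.c (I.mix (nat_lit 29511666) (nat_lit 46070178)) T5.l11
  TrL.n)))))))) (by decide +kernel)
theorem bx3_6 : BoxOK sI cl7 cl13 cl4 t5 t0 b3_6 :=
  box_mk (TrL.c (I.pos (nat_lit 0) (nat_lit 0)) (xa T5.l12 T5.l12)
  (TrL.c (I.pos (nat_lit 0) (nat_lit 0)) T0.l8
  (TrL.c (I.pos (nat_lit 0) (nat_lit 111196574)) T5.l9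
  (TrL.c (I.pos (nat_lit 0) (nat_lit 77433728)) (xR T0.l9 T0.l9)
  (TrL.c (I.pos (nat_lit 0) (nat_lit 0)) (xa T0.l12 T0.l12)
  (TrL.c (I.pos (nat_lit 0) (nat_lit 0)) T5.l10
  (TrL.c (I.mix (nat_lit 29511666) (nat_lit 77433728)) T0.l11
  (TrL.c (I.mix (nat_lit 29511666) (nat_lit 46070178)) T5.l11
  TrL.n)))))))) (by decide +kernel)
theorem bx3_7 : BoxOK sI cl7 cl13 cl4 t5 t0 b3_7 :=
  box_mk (TrL.c (I.pos (nat_lit 0) (nat_lit 0)) T5.l12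
  (TrL.c (I.pos (nat_lit 0) (nat_lit 0)) T0.l8
  (TrL.c (I.pos (nat_lit 0) (nat_lit 111196574)) T5.l9
  (TrL.c (I.pos (nat_lit 0) (nat_lit 77433728)) T0.l9
  (TrL.c (I.pos (nat_lit 0) (nat_lit 0)) T0.l12
  (TrL.c (I.pos (nat_lit 0) (nat_lit 0)) T5.l10
  (TrL.c (I.mix (nat_lit 29511666) (nat_lit 77433728)) (xR T0.l11 T0.l11)
  (TrL.c (I.mix (nat_lit 29511666) (nat_lit 46070178)) T5.l11
  TrL.n)))))))) (by decide +kernel)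
theorem bx3_8 : BoxOK sI cl7 cl13 cl4 t5 t0 b3_8 :=
  box_mk (TrL.c (I.pos (nat_lit 0) (nat_lit 0)) T5.l13
  (TrL.c (I.pos (nat_lit 0) (nat_lit 0)) T0.l8
  (TrL.c (I.pos (nat_lit 0) (nat_lit 111196574)) T5.l9
  (TrL.c (I.pos (nat_lit 0) (nat_lit 77433728)) (xR T0.l9 T0.l9)
  (TrL.c (I.pos (nat_lit 0) (nat_lit 0)) T0.l13
  (TrL.c (I.pos (nat_lit 0) (nat_lit 0)) T5.l10
  (TrL.c (I.mix (nat_lit 29511666) (nat_lit 77433728)) (xR T0.l11 T0.l11)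
  (TrL.c (I.mix (nat_lit 29511666) (nat_lit 46070178)) T5.l11
  TrL.n)))))))) (by decide +kernel)
theorem bx3_9 : BoxOK sI cl7 cl13 cl4 t5 t0 b3_9 :=
  box_mk (TrL.c (I.pos (nat_lit 0) (nat_lit 0)) (xa (xa (xa T5.l12 T5.l12) T5.l12) (xa T5.l12 (xa T5.l12 T5.l12)))
  (TrL.c (I.pos (nat_lit 0) (nat_lit 0)) (xa T0.l8 T0.l8)
  (TrL.c (I.pos (nat_lit 0) (nat_lit 111196574)) T5.l9
  (TrL.c (I.pos (nat_lit 0) (nat_lit 77433728)) (xR T0.l9 T0.l9)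
  (TrL.c (I.pos (nat_lit 0) (nat_lit 0)) (xa T0.l12 T0.l12)
  (TrL.c (I.pos (nat_lit 0) (nat_lit 0)) T5.l10
  (TrL.c (I.mix (nat_lit 29511666) (nat_lit 77433728)) (xR T0.l11 T0.l11)
  (TrL.c (I.mix (nat_lit 29511666) (nat_lit 46070178)) T5.l11
  TrL.n)))))))) (by decide +kernel)
theorem bx3_10 : BoxOK sI cl7 cl13 cl4 t5 t0 b3_10 :=
  box_mk (TrL.c (I.pos (nat_lit 0) (nat_lit 0)) (xb (xa T5.l12 T5.l12) (xa T5.l12 T5.l12))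
  (TrL.c (I.pos (nat_lit 0) (nat_lit 0)) T0.l8
  (TrL.c (I.pos (nat_lit 0) (nat_lit 111196574)) T5.l9
  (TrL.c (I.pos (nat_lit 0) (nat_lit 77433728)) T0.l9
  (TrL.c (I.pos (nat_lit 0) (nat_lit 0)) (xb (xa T0.l12 T0.l12) (xa T0.l12 T0.l12))
  (TrL.c (I.pos (nat_lit 0) (nat_lit 0)) T5.l10
  (TrL.c (I.mix (nat_lit 29511666) (nat_lit 77433728)) (xR T0.l11 T0.l11)
  (TrL.c (I.mix (nat_lit 29511666) (nat_lit 46070178)) T5.l11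
  TrL.n)))))))) (by decide +kernel)
theorem bx3_11 : BoxOK sI cl7 cl13 cl4 t5 t0 b3_11 :=
  box_mk (TrL.c (I.pos (nat_lit 0) (nat_lit 0)) T5.l12
  (TrL.c (I.pos (nat_lit 0) (nat_lit 0)) T0.l8
  (TrL.c (I.pos (nat_lit 0) (nat_lit 111196574)) T5.l9
  (TrL.c (I.pos (nat_lit 0) (nat_lit 77433728)) T0.l9
  (TrL.c (I.pos (nat_lit 0) (nat_lit 0)) T0.l12
  (TrL.c (I.pos (nat_lit 0) (nat_lit 0)) T5.l10
  (TrL.c (I.mix (nat_lit 29511666) (nat_lit 77433728)) T0.l11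
  (TrL.c (I.mix (nat_lit 29511666) (nat_lit 46070178)) T5.l11
  TrL.n)))))))) (by decide +kernel)
theorem bx3_12 : BoxOK sI cl7 cl13 cl4 t5 t0 b3_12 :=
  box_mk (TrL.c (I.pos (nat_lit 0) (nat_lit 0)) (xa (xa T5.l0 T5.l0) (xa T5.l0 (xb T5.l0 T5.l0)))
  (TrL.c (I.pos (nat_lit 0) (nat_lit 0)) (xa T0.l8 T0.l8)
  (TrL.c (I.pos (nat_lit 0) (nat_lit 111196574)) (xR T5.l9 T5.l4)
  (TrL.c (I.pos (nat_lit 0) (nat_lit 77433728)) (xR T0.l9 T0.l9)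
  (TrL.c (I.pos (nat_lit 0) (nat_lit 0)) (xa (xb (xk (xa T0.l10 T0.l10) T0.l10) T0.l10) (xk (xb (xa T0.l10 T0.l10) (xa T0.l10 T0.l10)) (xb (xa T0.l10 T0.l10) (xa T0.l10 T0.l10))))
  (TrL.c (I.pos (nat_lit 0) (nat_lit 0)) T5.l10
  (TrL.c (I.mix (nat_lit 29511666) (nat_lit 77433728)) (xR T0.l11 (xR T0.l11 T0.l11))
  (TrL.c (I.mix (nat_lit 29511666) (nat_lit 46070178)) (xR T5.l11 T5.l2)
  TrL.n)))))))) (by decide +kernel)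
theorem bx3_13 : BoxOK sI cl7 cl13 cl4 t5 t0 b3_13 :=
  box_mk (TrL.c (I.pos (nat_lit 0) (nat_lit 0)) (xa (xb T5.l0 (xa T5.l0 T5.l0)) (xb T5.l0 (xs T5.l0 T5.l0)))
  (TrL.c (I.pos (nat_lit 0) (nat_lit 0)) T0.l8
  (TrL.c (I.pos (nat_lit 0) (nat_lit 111196574)) (xR T5.l9 T5.l9)
  (TrL.c (I.pos (nat_lit 0) (nat_lit 77433728)) (xR T0.l9 T0.l9)
  (TrL.c (I.pos (nat_lit 0) (nat_lit 0)) (xk (xa T0.l10 T0.l10) (xa T0.l10 T0.l10))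
  (TrL.c (I.pos (nat_lit 0) (nat_lit 0)) T5.l10
  (TrL.c (I.mix (nat_lit 29511666) (nat_lit 77433728)) (xR T0.l11 (xR T0.l11 T0.l11))
  (TrL.c (I.mix (nat_lit 29511666) (nat_lit 46070178)) (xR T5.l11 T5.l11)
  TrL.n)))))))) (by decide +kernel)
theorem sv3 : StarV sI cl7 cl13 cl4 t5 t0 t3 :=
  (bt_n (bt_n (bt_n (bt_b bx3_0) (bt_n (bt_b bx3_1) (bt_b bx3_2))) (bt_n (bt_n (bt_b bx3_3) (bt_b bx3_4)) (bt_n (bt_b bx3_5) (bt_b bx3_6)))) (bt_n (bt_n (bt_b bx3_7) (bt_n (bt_b bx3_8) (bt_b bx3_9))) (bt_n (bt_n (bt_b bx3_10) (bt_b bx3_11)) (bt_n (bt_b bx3_12) (bt_b bx3_13)))))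
def S3 : StarD := StarD.mk cl7 cl13 cl4 5 0 t3
theorem bx4_0 : BoxOK sI cl13 cl4 cl7 t1 t3 b4_0 :=
  box_mk (TrL.c (I.pos (nat_lit 0) (nat_lit 0)) (xa (xb T1.l0 T1.l4) (xb T1.l0 (xa T1.l0 T1.l0)))
  (TrL.c (I.pos (nat_lit 0) (nat_lit 0)) T3.l1
  (TrL.c (I.pos (nat_lit 0) (nat_lit 134217730)) (xR T1.l1 T1.l1)
  (TrL.c (I.pos (nat_lit 0) (nat_lit 110514882)) (xR T3.l2 T3.l2)
  (TrL.c (I.pos (nat_lit 0) (nat_lit 0)) (xb (xa T3.l5 (xk T3.l3 T3.l3)) (xa (xk T3.l3 T3.l3) (xk T3.l3 T3.l3)))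
  (TrL.c (I.pos (nat_lit 0) (nat_lit 0)) T1.l2
  (TrL.c (I.mix (nat_lit 8088324) (nat_lit 110514882)) (xR T3.l4 T3.l4)
  (TrL.c (I.mix (nat_lit 8088324) (nat_lit 89478486)) T1.l9
  TrL.n)))))))) (by decide +kernel)
theorem bx4_1 : BoxOK sI cl13 cl4 cl7 t1 t3 b4_1 :=
  box_mk (TrL.c (I.pos (nat_lit 0) (nat_lit 0)) (xa (xb (xa (xb T1.l4 T1.l4) T1.l4) T1.l4) T1.l4)
  (TrL.c (I.pos (nat_lit 0) (nat_lit 0)) T3.l1
  (TrL.c (I.pos (nat_lit 0) (nat_lit 134217730)) (xR T1.l1 T1.l11)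
  (TrL.c (I.pos (nat_lit 0) (nat_lit 110514882)) (xR T3.l2 T3.l2)
  (TrL.c (I.pos (nat_lit 0) (nat_lit 0)) (xa T3.l5 T3.l5)
  (TrL.c (I.pos (nat_lit 0) (nat_lit 0)) T1.l2
  (TrL.c (I.mix (nat_lit 8088324) (nat_lit 110514882)) T3.l4
  (TrL.c (I.mix (nat_lit 8088324) (nat_lit 89478486)) T1.l9
  TrL.n)))))))) (by decide +kernel)
theorem bx4_2 : BoxOK sI cl13 cl4 cl7 t1 t3 b4_2 :=
  box_mk (TrL.c (I.pos (nat_lit 0) (nat_lit 0)) (xb (xa (xb T1.l4 T1.l4) T1.l4) (xa (xb T1.l4 (xa T1.l4 T1.l4)) (xb T1.l4 (xa T1.l4 T1.l4))))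
  (TrL.c (I.pos (nat_lit 0) (nat_lit 0)) T3.l1
  (TrL.c (I.pos (nat_lit 0) (nat_lit 134217730)) (xR T1.l1 (xR T1.l1 T1.l1))
  (TrL.c (I.pos (nat_lit 0) (nat_lit 110514882)) (xR T3.l2 T3.l2)
  (TrL.c (I.pos (nat_lit 0) (nat_lit 0)) (xb (xa T3.l5 (xk T3.l5 T3.l5)) (xa T3.l5 (xk T3.l3 T3.l3)))
  (TrL.c (I.pos (nat_lit 0) (nat_lit 0)) T1.l2
  (TrL.c (I.mix (nat_lit 8088324) (nat_lit 110514882)) (xR T3.l4 (xR T3.l4 T3.l4))
  (TrL.c (I.mix (nat_lit 8088324) (nat_lit 89478486)) (xR T1.l3 T1.l3)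
  TrL.n)))))))) (by decide +kernel)
theorem bx4_3 : BoxOK sI cl13 cl4 cl7 t1 t3 b4_3 :=
  box_mk (TrL.c (I.pos (nat_lit 0) (nat_lit 0)) T3.l1
  (TrL.c (I.pos (nat_lit 0) (nat_lit 0)) T1.l1
  (TrL.c (I.mix (nat_lit 8088324) (nat_lit 110514882)) (xR T3.l6 T3.l6)
  (TrL.c (I.mix (nat_lit 8088324) (nat_lit 89478486)) (xR T1.l5 T1.l1)
  TrL.n)))) (by decide +kernel)
theorem bx4_4 : BoxOK sI cl13 cl4 cl7 t1 t3 b4_4 :=
  box_mk (TrL.c (I.pos (nat_lit 0) (nat_lit 0)) T3.l7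
  (TrL.c (I.pos (nat_lit 0) (nat_lit 0)) T1.l6
  (TrL.c (I.mix (nat_lit 8088324) (nat_lit 110514882)) (xR T3.l6 T3.l6)
  (TrL.c (I.mix (nat_lit 8088324) (nat_lit 89478486)) T1.l9
  TrL.n)))) (by decide +kernel)
theorem bx4_5 : BoxOK sI cl13 cl4 cl7 t1 t3 b4_5 :=
  box_mk (TrL.c (I.pos (nat_lit 0) (nat_lit 0)) T1.l4
  (TrL.c (I.pos (nat_lit 0) (nat_lit 0)) T3.l1
  (TrL.c (I.pos (nat_lit 0) (nat_lit 134217730)) T1.l1
  (TrL.c (I.pos (nat_lit 0) (nat_lit 110514882)) T3.l4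
  (TrL.c (I.pos (nat_lit 0) (nat_lit 0)) T3.l5
  (TrL.c (I.pos (nat_lit 0) (nat_lit 0)) T1.l2
  (TrL.c (I.mix (nat_lit 8088324) (nat_lit 110514882)) T3.l4
  (TrL.c (I.mix (nat_lit 8088324) (nat_lit 89478486)) T1.l1
  TrL.n)))))))) (by decide +kernel)
theorem bx4_6 : BoxOK sI cl13 cl4 cl7 t1 t3 b4_6 :=
  box_mk (TrL.c (I.pos (nat_lit 0) (nat_lit 0)) (xa (xb T1.l0 T1.l0) (xb T1.l0 T1.l0))
  (TrL.c (I.pos (nat_lit 0) (nat_lit 0)) T3.l1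
  (TrL.c (I.pos (nat_lit 0) (nat_lit 134217730)) (xR T1.l1 T1.l11)
  (TrL.c (I.pos (nat_lit 0) (nat_lit 110514882)) (xR T3.l2 T3.l2)
  (TrL.c (I.pos (nat_lit 0) (nat_lit 0)) (xa (xb (xk (xa T3.l3 T3.l3) T3.l3) (xk T3.l3 T3.l3)) (xb (xk (xa T3.l3 T3.l3) (xa T3.l3 T3.l3)) (xk (xa T3.l3 T3.l3) (xa T3.l3 T3.l3))))
  (TrL.c (I.pos (nat_lit 0) (nat_lit 0)) (xa T1.l2 T1.l2)
  (TrL.c (I.mix (nat_lit 8088324) (nat_lit 110514882)) (xR T3.l4 (xR T3.l4 T3.l4))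
  (TrL.c (I.mix (nat_lit 8088324) (nat_lit 89478486)) T1.l9
  TrL.n)))))))) (by decide +kernel)
theorem bx4_7 : BoxOK sI cl13 cl4 cl7 t1 t3 b4_7 :=
  box_mk (TrL.c (I.pos (nat_lit 0) (nat_lit 0)) (xb T1.l7 T1.l7)
  (TrL.c (I.pos (nat_lit 0) (nat_lit 0)) T3.l7
  (TrL.c (I.pos (nat_lit 0) (nat_lit 134217730)) T1.l1
  (TrL.c (I.pos (nat_lit 0) (nat_lit 110514882)) T3.l4
  (TrL.c (I.pos (nat_lit 0) (nat_lit 0)) T3.l8
  (TrL.c (I.pos (nat_lit 0) (nat_lit 0)) T1.l2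
  (TrL.c (I.mix (nat_lit 8088324) (nat_lit 110514882)) T3.l4
  (TrL.c (I.mix (nat_lit 8088324) (nat_lit 89478486)) T1.l1
  TrL.n)))))))) (by decide +kernel)
theorem bx4_8 : BoxOK sI cl13 cl4 cl7 t1 t3 b4_8 :=
  box_mk (TrL.c (I.pos (nat_lit 0) (nat_lit 0)) (xa T1.l0 T1.l0)
  (TrL.c (I.pos (nat_lit 0) (nat_lit 0)) T3.l1
  (TrL.c (I.pos (nat_lit 0) (nat_lit 134217730)) (xR T1.l1 T1.l1)
  (TrL.c (I.pos (nat_lit 0) (nat_lit 110514882)) (xR T3.l2 T3.l2)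
  (TrL.c (I.pos (nat_lit 0) (nat_lit 0)) (xk T3.l3 T3.l3)
  (TrL.c (I.pos (nat_lit 0) (nat_lit 0)) T1.l2
  (TrL.c (I.mix (nat_lit 8088324) (nat_lit 110514882)) T3.l4
  (TrL.c (I.mix (nat_lit 8088324) (nat_lit 89478486)) T1.l3
  TrL.n)))))))) (by decide +kernel)
theorem bx4_9 : BoxOK sI cl13 cl4 cl7 t1 t3 b4_9 :=
  box_mk (TrL.c (I.pos (nat_lit 0) (nat_lit 0)) T1.l4
  (TrL.c (I.pos (nat_lit 0) (nat_lit 0)) T3.l1
  (TrL.c (I.pos (nat_lit 0) (nat_lit 134217730)) T1.l1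
  (TrL.c (I.pos (nat_lit 0) (nat_lit 110514882)) T3.l2
  (TrL.c (I.pos (nat_lit 0) (nat_lit 0)) T3.l5
  (TrL.c (I.pos (nat_lit 0) (nat_lit 0)) T1.l2
  (TrL.c (I.mix (nat_lit 8088324) (nat_lit 110514882)) T3.l4
  (TrL.c (I.mix (nat_lit 8088324) (nat_lit 89478486)) T1.l1
  TrL.n)))))))) (by decide +kernel)
theorem sv4 : StarV sI cl13 cl4 cl7 t1 t3 t4 :=
  (bt_n (bt_n (bt_n (bt_b bx4_0) (bt_b bx4_1)) (bt_n (bt_b bx4_2) (bt_n (bt_b bx4_3) (bt_b bx4_4)))) (bt_n (bt_n (bt_b bx4_5) (bt_b bx4_6)) (bt_n (bt_b bx4_7) (bt_n (bt_b bx4_8) (bt_b bx4_9)))))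
def S4 : StarD := StarD.mk cl13 cl4 cl7 1 3 t4
theorem bx5_0 : BoxOK sI cl13 cl7 cl4 t3 t1 b5_0 :=
  box_mk (TrL.c (I.pos (nat_lit 0) (nat_lit 0)) (xa (xa (xb T3.l0 (xs T3.l0 T3.l0)) (xb T3.l0 T3.l0)) (xa (xb T3.l0 T3.l0) T3.l0))
  (TrL.c (I.pos (nat_lit 0) (nat_lit 0)) (xa T1.l8 T1.l8)
  (TrL.c (I.pos (nat_lit 0) (nat_lit 134217730)) (xR T3.l9 (xR T3.l9 T3.l9))
  (TrL.c (I.pos (nat_lit 0) (nat_lit 110514882)) (xR T1.l9 T1.l9)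
  (TrL.c (I.pos (nat_lit 0) (nat_lit 0)) (xa (xk T1.l10 T1.l10) (xk T1.l10 T1.l10))
  (TrL.c (I.pos (nat_lit 0) (nat_lit 0)) T3.l10
  (TrL.c (I.mix (nat_lit 8088324) (nat_lit 110514882)) (xR T1.l11 T1.l11)
  (TrL.c (I.mix (nat_lit 8088324) (nat_lit 89478486)) (xR T3.l2 T3.l11)
  TrL.n)))))))) (by decide +kernel)
theorem bx5_1 : BoxOK sI cl13 cl7 cl4 t3 t1 b5_1 :=
  box_mk (TrL.c (I.pos (nat_lit 0) (nat_lit 0)) (xa (xb T3.l12 T3.l12) T3.l0)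
  (TrL.c (I.pos (nat_lit 0) (nat_lit 0)) T1.l8
  (TrL.c (I.pos (nat_lit 0) (nat_lit 134217730)) (xR T3.l9 T3.l9)
  (TrL.c (I.pos (nat_lit 0) (nat_lit 110514882)) (xR T1.l9 T1.l9)
  (TrL.c (I.pos (nat_lit 0) (nat_lit 0)) (xa T1.l12 (xb T1.l12 T1.l12))
  (TrL.c (I.pos (nat_lit 0) (nat_lit 0)) T3.l10
  (TrL.c (I.mix (nat_lit 8088324) (nat_lit 110514882)) (xR T1.l11 T1.l11)
  (TrL.c (I.mix (nat_lit 8088324) (nat_lit 89478486)) T3.l2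
  TrL.n)))))))) (by decide +kernel)
theorem bx5_2 : BoxOK sI cl13 cl7 cl4 t3 t1 b5_2 :=
  box_mk (TrL.c (I.pos (nat_lit 0) (nat_lit 0)) (xa T3.l12 T3.l12)
  (TrL.c (I.pos (nat_lit 0) (nat_lit 0)) T1.l8
  (TrL.c (I.pos (nat_lit 0) (nat_lit 134217730)) T3.l9
  (TrL.c (I.pos (nat_lit 0) (nat_lit 110514882)) T1.l9
  (TrL.c (I.pos (nat_lit 0) (nat_lit 0)) T1.l12
  (TrL.c (I.pos (nat_lit 0) (nat_lit 0)) T3.l10
  (TrL.c (I.mix (nat_lit 8088324) (nat_lit 110514882)) T1.l11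
  (TrL.c (I.mix (nat_lit 8088324) (nat_lit 89478486)) T3.l4
  TrL.n)))))))) (by decide +kernel)
theorem bx5_3 : BoxOK sI cl13 cl7 cl4 t3 t1 b5_3 :=
  box_mk (TrL.c (I.pos (nat_lit 0) (nat_lit 0)) (xa (xb (xb T3.l13 T3.l13) (xs (xa T3.l13 T3.l13) (xb T3.l13 T3.l13))) (xb (xb T3.l13 T3.l13) (xs T3.l13 (xb T3.l13 T3.l13))))
  (TrL.c (I.pos (nat_lit 0) (nat_lit 0)) T1.l8
  (TrL.c (I.pos (nat_lit 0) (nat_lit 134217730)) (xR T3.l9 (xR T3.l9 T3.l9))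
  (TrL.c (I.pos (nat_lit 0) (nat_lit 110514882)) (xR T1.l9 (xR T1.l9 T1.l9))
  (TrL.c (I.pos (nat_lit 0) (nat_lit 0)) (xk (xb T1.l13 T1.l13) (xb T1.l13 T1.l13))
  (TrL.c (I.pos (nat_lit 0) (nat_lit 0)) T3.l10
  (TrL.c (I.mix (nat_lit 8088324) (nat_lit 110514882)) (xR T1.l11 (xR T1.l11 T1.l11))
  (TrL.c (I.mix (nat_lit 8088324) (nat_lit 89478486)) (xR T3.l2 T3.l11)
  TrL.n)))))))) (by decide +kernel)
theorem bx5_4 : BoxOK sI cl13 cl7 cl4 t3 t1 b5_4 :=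
  box_mk (TrL.c (I.pos (nat_lit 0) (nat_lit 0)) (xa (xa (xb (xa T3.l12 T3.l12) (xa T3.l12 T3.l12)) (xb T3.l12 T3.l12)) (xa (xb T3.l12 (xa T3.l12 T3.l12)) (xb T3.l12 (xa T3.l12 T3.l12))))
  (TrL.c (I.pos (nat_lit 0) (nat_lit 0)) (xa T1.l8 T1.l8)
  (TrL.c (I.pos (nat_lit 0) (nat_lit 134217730)) T3.l9
  (TrL.c (I.pos (nat_lit 0) (nat_lit 110514882)) T1.l9
  (TrL.c (I.pos (nat_lit 0) (nat_lit 0)) (xa T1.l12 T1.l12)
  (TrL.c (I.pos (nat_lit 0) (nat_lit 0)) T3.l10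
  (TrL.c (I.mix (nat_lit 8088324) (nat_lit 110514882)) (xR T1.l11 T1.l11)
  (TrL.c (I.mix (nat_lit 8088324) (nat_lit 89478486)) T3.l4
  TrL.n)))))))) (by decide +kernel)
theorem bx5_5 : BoxOK sI cl13 cl7 cl4 t3 t1 b5_5 :=
  box_mk (TrL.c (I.pos (nat_lit 0) (nat_lit 0)) T3.l12
  (TrL.c (I.pos (nat_lit 0) (nat_lit 0)) T1.l8
  (TrL.c (I.pos (nat_lit 0) (nat_lit 134217730)) (xR T3.l9 T3.l9)
  (TrL.c (I.pos (nat_lit 0) (nat_lit 110514882)) (xR T1.l9 T1.l9)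
  (TrL.c (I.pos (nat_lit 0) (nat_lit 0)) T1.l12
  (TrL.c (I.pos (nat_lit 0) (nat_lit 0)) T3.l10
  (TrL.c (I.mix (nat_lit 8088324) (nat_lit 110514882)) T1.l11
  (TrL.c (I.mix (nat_lit 8088324) (nat_lit 89478486)) T3.l2
  TrL.n)))))))) (by decide +kernel)
theorem bx5_6 : BoxOK sI cl13 cl7 cl4 t3 t1 b5_6 :=
  box_mk (TrL.c (I.pos (nat_lit 0) (nat_lit 0)) (xa (xa T3.l12 T3.l12) T3.l12)
  (TrL.c (I.pos (nat_lit 0) (nat_lit 0)) T1.l8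
  (TrL.c (I.pos (nat_lit 0) (nat_lit 134217730)) T3.l9
  (TrL.c (I.pos (nat_lit 0) (nat_lit 110514882)) T1.l9
  (TrL.c (I.pos (nat_lit 0) (nat_lit 0)) T1.l12
  (TrL.c (I.pos (nat_lit 0) (nat_lit 0)) T3.l10
  (TrL.c (I.mix (nat_lit 8088324) (nat_lit 110514882)) (xR T1.l11 T1.l11)
  (TrL.c (I.mix (nat_lit 8088324) (nat_lit 89478486)) T3.l4
  TrL.n)))))))) (by decide +kernel)
theorem bx5_7 : BoxOK sI cl13 cl7 cl4 t3 t1 b5_7 :=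
  box_mk (TrL.c (I.pos (nat_lit 0) (nat_lit 0)) T3.l13
  (TrL.c (I.pos (nat_lit 0) (nat_lit 0)) T1.l8
  (TrL.c (I.pos (nat_lit 0) (nat_lit 134217730)) (xR T3.l9 T3.l9)
  (TrL.c (I.pos (nat_lit 0) (nat_lit 110514882)) (xR T1.l9 T1.l9)
  (TrL.c (I.pos (nat_lit 0) (nat_lit 0)) T1.l13
  (TrL.c (I.pos (nat_lit 0) (nat_lit 0)) T3.l10
  (TrL.c (I.mix (nat_lit 8088324) (nat_lit 110514882)) (xR T1.l11 T1.l11)
  (TrL.c (I.mix (nat_lit 8088324) (nat_lit 89478486)) T3.l2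
  TrL.n)))))))) (by decide +kernel)
theorem bx5_8 : BoxOK sI cl13 cl7 cl4 t3 t1 b5_8 :=
  box_mk (TrL.c (I.pos (nat_lit 0) (nat_lit 0)) (xb (xa T3.l13 T3.l13) (xa T3.l13 T3.l13))
  (TrL.c (I.pos (nat_lit 0) (nat_lit 0)) T1.l8
  (TrL.c (I.pos (nat_lit 0) (nat_lit 134217730)) (xR T3.l9 T3.l9)
  (TrL.c (I.pos (nat_lit 0) (nat_lit 110514882)) (xR T1.l9 T1.l9)
  (TrL.c (I.pos (nat_lit 0) (nat_lit 0)) (xk (xb T1.l13 T1.l13) (xb T1.l13 T1.l13))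
  (TrL.c (I.pos (nat_lit 0) (nat_lit 0)) T3.l10
  (TrL.c (I.mix (nat_lit 8088324) (nat_lit 110514882)) (xR T1.l11 T1.l11)
  (TrL.c (I.mix (nat_lit 8088324) (nat_lit 89478486)) T3.l2
  TrL.n)))))))) (by decide +kernel)
theorem bx5_9 : BoxOK sI cl13 cl7 cl4 t3 t1 b5_9 :=
  box_mk (TrL.c (I.pos (nat_lit 0) (nat_lit 0)) (xa (xa (xb T3.l12 (xa T3.l12 T3.l12)) T3.l12) (xa (xb T3.l12 (xa T3.l12 T3.l12)) (xa T3.l12 T3.l12)))
  (TrL.c (I.pos (nat_lit 0) (nat_lit 0)) (xa T1.l8 T1.l8)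
  (TrL.c (I.pos (nat_lit 0) (nat_lit 134217730)) T3.l9
  (TrL.c (I.pos (nat_lit 0) (nat_lit 110514882)) T1.l9
  (TrL.c (I.pos (nat_lit 0) (nat_lit 0)) (xa T1.l12 T1.l12)
  (TrL.c (I.pos (nat_lit 0) (nat_lit 0)) T3.l10
  (TrL.c (I.mix (nat_lit 8088324) (nat_lit 110514882)) (xR T1.l11 T1.l11)
  (TrL.c (I.mix (nat_lit 8088324) (nat_lit 89478486)) T3.l4
  TrL.n)))))))) (by decide +kernel)
theorem bx5_10 : BoxOK sI cl13 cl7 cl4 t3 t1 b5_10 :=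
  box_mk (TrL.c (I.pos (nat_lit 0) (nat_lit 0)) (xb (xa T3.l12 T3.l12) (xa T3.l12 T3.l12))
  (TrL.c (I.pos (nat_lit 0) (nat_lit 0)) T1.l8
  (TrL.c (I.pos (nat_lit 0) (nat_lit 134217730)) (xR T3.l9 T3.l9)
  (TrL.c (I.pos (nat_lit 0) (nat_lit 110514882)) (xR T1.l9 T1.l9)
  (TrL.c (I.pos (nat_lit 0) (nat_lit 0)) (xb (xa T1.l12 T1.l12) T1.l12)
  (TrL.c (I.pos (nat_lit 0) (nat_lit 0)) T3.l10
  (TrL.c (I.mix (nat_lit 8088324) (nat_lit 110514882)) T1.l11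
  (TrL.c (I.mix (nat_lit 8088324) (nat_lit 89478486)) T3.l2
  TrL.n)))))))) (by decide +kernel)
theorem bx5_11 : BoxOK sI cl13 cl7 cl4 t3 t1 b5_11 :=
  box_mk (TrL.c (I.pos (nat_lit 0) (nat_lit 0)) (xa (xa (xb T3.l12 T3.l12) T3.l12) T3.l12)
  (TrL.c (I.pos (nat_lit 0) (nat_lit 0)) T1.l8
  (TrL.c (I.pos (nat_lit 0) (nat_lit 134217730)) T3.l9
  (TrL.c (I.pos (nat_lit 0) (nat_lit 110514882)) T1.l9
  (TrL.c (I.pos (nat_lit 0) (nat_lit 0)) T1.l12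
  (TrL.c (I.pos (nat_lit 0) (nat_lit 0)) T3.l10
  (TrL.c (I.mix (nat_lit 8088324) (nat_lit 110514882)) T1.l11
  (TrL.c (I.mix (nat_lit 8088324) (nat_lit 89478486)) T3.l4
  TrL.n)))))))) (by decide +kernel)
theorem bx5_12 : BoxOK sI cl13 cl7 cl4 t3 t1 b5_12 :=
  box_mk (TrL.c (I.pos (nat_lit 0) (nat_lit 0)) (xa (xa T3.l0 T3.l0) (xa T3.l0 T3.l0))
  (TrL.c (I.pos (nat_lit 0) (nat_lit 0)) (xa T1.l8 T1.l8)
  (TrL.c (I.pos (nat_lit 0) (nat_lit 134217730)) (xR T3.l9 T3.l4)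
  (TrL.c (I.pos (nat_lit 0) (nat_lit 110514882)) (xR T1.l9 (xR T1.l9 T1.l9))
  (TrL.c (I.pos (nat_lit 0) (nat_lit 0)) (xa (xk (xb T1.l10 T1.l10) (xb T1.l10 T1.l10)) (xk (xb (xa T1.l10 T1.l10) (xa T1.l10 T1.l10)) (xb (xa T1.l10 T1.l10) (xa T1.l10 T1.l10))))
  (TrL.c (I.pos (nat_lit 0) (nat_lit 0)) T3.l10
  (TrL.c (I.mix (nat_lit 8088324) (nat_lit 110514882)) (xR T1.l11 (xR T1.l11 T1.l11))
  (TrL.c (I.mix (nat_lit 8088324) (nat_lit 89478486)) (xR T3.l2 T3.l11)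
  TrL.n)))))))) (by decide +kernel)
theorem bx5_13 : BoxOK sI cl13 cl7 cl4 t3 t1 b5_13 :=
  box_mk (TrL.c (I.pos (nat_lit 0) (nat_lit 0)) (xa (xb T3.l0 T3.l0) (xb T3.l0 T3.l0))
  (TrL.c (I.pos (nat_lit 0) (nat_lit 0)) T1.l8
  (TrL.c (I.pos (nat_lit 0) (nat_lit 134217730)) (xR T3.l9 T3.l9)
  (TrL.c (I.pos (nat_lit 0) (nat_lit 110514882)) (xR T1.l9 T1.l9)
  (TrL.c (I.pos (nat_lit 0) (nat_lit 0)) (xk T1.l10 T1.l10)
  (TrL.c (I.pos (nat_lit 0) (nat_lit 0)) T3.l10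
  (TrL.c (I.mix (nat_lit 8088324) (nat_lit 110514882)) (xR T1.l11 T1.l11)
  (TrL.c (I.mix (nat_lit 8088324) (nat_lit 89478486)) (xR T3.l2 T3.l11)
  TrL.n)))))))) (by decide +kernel)
theorem sv5 : StarV sI cl13 cl7 cl4 t3 t1 t5 :=
  (bt_n (bt_n (bt_n (bt_b bx5_0) (bt_n (bt_b bx5_1) (bt_b bx5_2))) (bt_n (bt_n (bt_b bx5_3) (bt_b bx5_4)) (bt_n (bt_b bx5_5) (bt_b bx5_6)))) (bt_n (bt_n (bt_b bx5_7) (bt_n (bt_b bx5_8) (bt_b bx5_9))) (bt_n (bt_n (bt_b bx5_10) (bt_b bx5_11)) (bt_n (bt_b bx5_12) (bt_b bx5_13)))))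
def S5 : StarD := StarD.mk cl13 cl7 cl4 3 1 t5
def G : List StarD := [S0, S1, S2, S3, S4, S5]
theorem so0 : StarOK sI G S0 :=
  star_mk (by decide) (by decide) rfl rfl rfl rfl rfl rfl (rfl : _ = t2) (rfl : _ = t4)
  (st_mk (Pth.l (Pth.l (Pth.l Pth.z))) (nat_lit 144198189) (nat_lit 167808551) (by decide +kernel))
  (st_mk (Pth.l (Pth.l (Pth.l Pth.z))) (nat_lit 181500965) (nat_lit 205906240) (by decide +kernel))
  (st_mk (Pth.l (Pth.l (Pth.l Pth.z))) (nat_lit 225281971) (nat_lit 250792728) (by decide +kernel)) sv0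
theorem so1 : StarOK sI G S1 :=
  star_mk (by decide) (by decide) rfl rfl rfl rfl rfl rfl (rfl : _ = t4) (rfl : _ = t2)
  (st_mk (Pth.l (Pth.l (Pth.l Pth.z))) (nat_lit 98126990) (nat_lit 117566387) (by decide +kernel))
  (st_mk (Pth.l (Pth.l (Pth.l Pth.z))) (nat_lit 135057258) (nat_lit 155238704) (by decide +kernel))
  (st_mk (Pth.l (Pth.l (Pth.l Pth.z))) (nat_lit 178536870) (nat_lit 199780822) (by decide +kernel)) sv1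
theorem so2 : StarOK sI G S2 :=
  star_mk (by decide) (by decide) rfl rfl rfl rfl rfl rfl (rfl : _ = t0) (rfl : _ = t5)
  (st_mk (Pth.l (Pth.l (Pth.l Pth.z))) (nat_lit 368828017) (nat_lit 373218812) (by decide +kernel))
  (st_mk (Pth.l (Pth.l (Pth.l Pth.z))) (nat_lit 404652580) (nat_lit 409620144) (by decide +kernel))
  (st_mk (Pth.l (Pth.l (Pth.l Pth.z))) (nat_lit 446098486) (nat_lit 451804656) (by decide +kernel)) sv2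
theorem so3 : StarOK sI G S3 :=
  star_mk (by decide) (by decide) rfl rfl rfl rfl rfl rfl (rfl : _ = t5) (rfl : _ = t0)
  (st_mk (Pth.l (Pth.l (Pth.l Pth.z))) (nat_lit 96481462) (nat_lit 115211163) (by decide +kernel))
  (st_mk (Pth.l (Pth.l (Pth.l Pth.z))) (nat_lit 131938205) (nat_lit 151086264) (by decide +kernel))
  (st_mk (Pth.l (Pth.l (Pth.l Pth.z))) (nat_lit 173069648) (nat_lit 192823774) (by decide +kernel)) sv3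
theorem so4 : StarOK sI G S4 :=
  star_mk (by decide) (by decide) rfl rfl rfl rfl rfl rfl (rfl : _ = t1) (rfl : _ = t3)
  (st_mk (Pth.l (Pth.l (Pth.l Pth.z))) (nat_lit 364798899) (nat_lit 367585648) (by decide +kernel))
  (st_mk (Pth.l (Pth.l (Pth.l Pth.z))) (nat_lit 399695508) (nat_lit 402934599) (by decide +kernel))
  (st_mk (Pth.l (Pth.l (Pth.l Pth.z))) (nat_lit 439960827) (nat_lit 443774231) (by decide +kernel)) sv4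
theorem so5 : StarOK sI G S5 :=
  star_mk (by decide) (by decide) rfl rfl rfl rfl rfl rfl (rfl : _ = t3) (rfl : _ = t1)
  (st_mk (Pth.l (Pth.l (Pth.l Pth.z))) (nat_lit 141873768) (nat_lit 160402039) (by decide +kernel))
  (st_mk (Pth.l (Pth.l (Pth.l Pth.z))) (nat_lit 174891329) (nat_lit 197517061) (by decide +kernel))
  (st_mk (Pth.l (Pth.l (Pth.l Pth.z))) (nat_lit 215156648) (nat_lit 238258888) (by decide +kernel)) sv5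
theorem ok : GroupOK (nat_lit 91226112) (nat_lit 150339584) G := grp_mk (allS_c so0 (allS_c so1 (allS_c so2 (allS_c so3 (allS_c so4 (allS_c so5 allS_n))))))
theorem cov : GCov G cl4 cl7 cl13 := cov_mk
  ⟨0, by decide, rfl, rfl, rfl⟩ ⟨1, by decide, rfl, rfl, rfl⟩ ⟨2, by decide, rfl, rfl, rfl⟩ ⟨3, by decide, rfl, rfl, rfl⟩ ⟨4, by decide, rfl, rfl, rfl⟩ ⟨5, by decide, rfl, rfl, rfl⟩
end Q146_1

namespace Q146_2
def sI : I := I.pos (nat_lit 150274048) (nat_lit 209387520)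
def b0_0 : Bx := Bx.mk (St.mk (I.pos (nat_lit 160514048) (nat_lit 235126784)) (I.mix (nat_lit 278528) (nat_lit 63635456)) (I.mix (nat_lit 5308416) (nat_lit 58966016)) (I.pos (nat_lit 146800640) (nat_lit 282771456)) (I.mix (nat_lit 94879744) (nat_lit 64946176)) (I.mix (nat_lit 57589760) (nat_lit 57425920)) (I.mix (nat_lit 91914240) (nat_lit 88260608)))
  false (nat_lit 19307033)
def b0_1 : Bx := Bx.mk (St.mk (I.mix (nat_lit 15286272) (nat_lit 111788032)) (I.mix (nat_lit 6733824) (nat_lit 30343168)) (I.mix (nat_lit 29589504) (nat_lit 2686976)) (I.pos (nat_lit 42795008) (nat_lit 110133248)) (I.mix (nat_lit 38273024) (nat_lit 48201728)) (I.mix (nat_lit 39321600) (nat_lit 28835840)) (I.mix (nat_lit 28311552) (nat_lit 21856256)))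
  false (nat_lit 0)
def b0_2 : Bx := Bx.mk (St.mk (I.pos (nat_lit 89604096) (nat_lit 133496832)) (I.mix (nat_lit 47464448) (nat_lit 9420800)) (I.neg (nat_lit 11812864) (nat_lit 65404928)) (I.pos (nat_lit 75038720) (nat_lit 127746048)) (I.mix (nat_lit 90079232) (nat_lit 40435712)) (I.mix (nat_lit 41582592) (nat_lit 80412672)) (I.mix (nat_lit 28524544) (nat_lit 66404352)))
  false (nat_lit 0)
def b0_3 : Bx := Bx.mk (St.mk (I.mix (nat_lit 30998528) (nat_lit 63586304)) (I.mix (nat_lit 28082176) (nat_lit 4325376)) (I.neg (nat_lit 4800512) (nat_lit 27721728)) (I.pos (nat_lit 42319872) (nat_lit 78675968)) (I.mix (nat_lit 39649280) (nat_lit 19300352)) (I.mix (nat_lit 17858560) (nat_lit 32079872)) (I.mix (nat_lit 8077312) (nat_lit 14630912)))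
  false (nat_lit 0)
def b0_4 : Bx := Bx.mk (St.mk (I.pos (nat_lit 80248832) (nat_lit 114229248)) (I.mix (nat_lit 12173312) (nat_lit 15368192)) (I.neg (nat_lit 6864896) (nat_lit 34603008)) (I.pos (nat_lit 71663616) (nat_lit 112459776)) (I.mix (nat_lit 37322752) (nat_lit 28131328)) (I.mix (nat_lit 27262976) (nat_lit 26099712)) (I.mix (nat_lit 18644992) (nat_lit 23363584)))
  false (nat_lit 0)
def b0_5 : Bx := Bx.mk (St.mk (I.mix (nat_lit 40747008) (nat_lit 49168384)) (I.mix (nat_lit 6537216) (nat_lit 10289152)) (I.neg (nat_lit 6832128) (nat_lit 18874368)) (I.pos (nat_lit 42614784) (nat_lit 72040448)) (I.mix (nat_lit 19103744) (nat_lit 16957440)) (I.mix (nat_lit 14925824) (nat_lit 14778368)) (I.mix (nat_lit 4341760) (nat_lit 5832704)))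
  false (nat_lit 0)
def b0_6 : Bx := Bx.mk (St.mk (I.pos (nat_lit 210239488) (nat_lit 260063232)) (I.mix (nat_lit 19087360) (nat_lit 16941056)) (I.neg (nat_lit 31211520) (nat_lit 104448000)) (I.pos (nat_lit 232112128) (nat_lit 326369280)) (I.mix (nat_lit 97419264) (nat_lit 42303488)) (I.mix (nat_lit 66158592) (nat_lit 59801600)) (I.mix (nat_lit 97746944) (nat_lit 118652928)))
  false (nat_lit 0)
def b0_7 : Bx := Bx.mk (St.mk (I.pos (nat_lit 201998336) (nat_lit 252002304)) (I.mix (nat_lit 15876096) (nat_lit 31277056)) (I.neg (nat_lit 901120) (nat_lit 92291072)) (I.pos (nat_lit 222412800) (nat_lit 305987584)) (I.mix (nat_lit 110821376) (nat_lit 49037312)) (I.mix (nat_lit 69730304) (nat_lit 77692928)) (I.mix (nat_lit 105136128) (nat_lit 144818176)))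
  false (nat_lit 15295095)
def b0_8 : Bx := Bx.mk (St.mk (I.pos (nat_lit 96878592) (nat_lit 169541632)) (I.neg (nat_lit 1081344) (nat_lit 49135616)) (I.neg (nat_lit 15826944) (nat_lit 66879488)) (I.pos (nat_lit 90226688) (nat_lit 174047232)) (I.mix (nat_lit 76693504) (nat_lit 43352064)) (I.mix (nat_lit 34586624) (nat_lit 62193664)) (I.mix (nat_lit 26034176) (nat_lit 60735488)))
  false (nat_lit 0)
def b0_9 : Bx := Bx.mk (St.mk (I.mix (nat_lit 26624000) (nat_lit 79970304)) (I.mix (nat_lit 30359552) (nat_lit 2408448)) (I.neg (nat_lit 4833280) (nat_lit 29687808)) (I.pos (nat_lit 41385984) (nat_lit 87621632)) (I.mix (nat_lit 43827200) (nat_lit 30195712)) (I.mix (nat_lit 21331968) (nat_lit 38518784)) (I.mix (nat_lit 11108352) (nat_lit 21872640)))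
  false (nat_lit 0)
def b0_10 : Bx := Bx.mk (St.mk (I.pos (nat_lit 166625280) (nat_lit 219676672)) (I.mix (nat_lit 9568256) (nat_lit 60801024)) (I.mix (nat_lit 23691264) (nat_lit 61292544)) (I.pos (nat_lit 165822464) (nat_lit 253689856)) (I.mix (nat_lit 123584512) (nat_lit 55738368)) (I.mix (nat_lit 110854144) (nat_lit 78839808)) (I.mix (nat_lit 108838912) (nat_lit 81182720)))
  false (nat_lit 33621286)
def b0_11 : Bx := Bx.mk (St.mk (I.mix (nat_lit 32620544) (nat_lit 113180672)) (I.mix (nat_lit 12943360) (nat_lit 32178176)) (I.mix (nat_lit 24199168) (nat_lit 5079040)) (I.pos (nat_lit 41451520) (nat_lit 110428160)) (I.mix (nat_lit 42418176) (nat_lit 40812544)) (I.mix (nat_lit 48332800) (nat_lit 29573120)) (I.mix (nat_lit 25165824) (nat_lit 15941632)))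
  false (nat_lit 0)
def b0_12 : Bx := Bx.mk (St.mk (I.pos (nat_lit 192643072) (nat_lit 247693312)) (I.pos (nat_lit 6275072) (nat_lit 59293696)) (I.mix (nat_lit 37076992) (nat_lit 53379072)) (I.pos (nat_lit 216743936) (nat_lit 305315840)) (I.mix (nat_lit 97107968) (nat_lit 92667904)) (I.mix (nat_lit 92602368) (nat_lit 77414400)) (I.mix (nat_lit 155336704) (nat_lit 117047296)))
  false (nat_lit 24005470)
def b0_13 : Bx := Bx.mk (St.mk (I.pos (nat_lit 169361408) (nat_lit 209158144)) (I.mix (nat_lit 25100288) (nat_lit 15974400)) (I.neg (nat_lit 32768) (nat_lit 50102272)) (I.pos (nat_lit 162103296) (nat_lit 224477184)) (I.mix (nat_lit 61308928) (nat_lit 64716800)) (I.mix (nat_lit 64274432) (nat_lit 62078976)) (I.mix (nat_lit 65159168) (nat_lit 57065472)))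
  false (nat_lit 0)
def b0_14 : Bx := Bx.mk (St.mk (I.pos (nat_lit 145440768) (nat_lit 193773568)) (I.mix (nat_lit 36405248) (nat_lit 3751936)) (I.neg (nat_lit 8339456) (nat_lit 63127552)) (I.pos (nat_lit 128729088) (nat_lit 204406784)) (I.mix (nat_lit 39256064) (nat_lit 22970368)) (I.mix (nat_lit 20135936) (nat_lit 25886720)) (I.mix (nat_lit 20987904) (nat_lit 31080448)))
  false (nat_lit 0)
def b0_15 : Bx := Bx.mk (St.mk (I.pos (nat_lit 166035456) (nat_lit 213139456)) (I.mix (nat_lit 15810560) (nat_lit 34848768)) (I.mix (nat_lit 38617088) (nat_lit 28114944)) (I.pos (nat_lit 165675008) (nat_lit 232767488)) (I.mix (nat_lit 107872256) (nat_lit 78528512)) (I.mix (nat_lit 123944960) (nat_lit 77971456)) (I.mix (nat_lit 130220032) (nat_lit 75235328)))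
  false (nat_lit 4254790)
def b0_16 : Bx := Bx.mk (St.mk (I.pos (nat_lit 140738560) (nat_lit 192806912)) (I.mix (nat_lit 36585472) (nat_lit 10076160)) (I.neg (nat_lit 3194880) (nat_lit 62078976)) (I.pos (nat_lit 125435904) (nat_lit 203210752)) (I.mix (nat_lit 58294272) (nat_lit 32489472)) (I.mix (nat_lit 42909696) (nat_lit 35127296)) (I.mix (nat_lit 43794432) (nat_lit 40550400)))
  false (nat_lit 0)
def b0_17 : Bx := Bx.mk (St.mk (I.pos (nat_lit 173129728) (nat_lit 208437248)) (I.mix (nat_lit 18546688) (nat_lit 18694144)) (I.mix (nat_lit 41713664) (nat_lit 4554752)) (I.pos (nat_lit 169328640) (nat_lit 223428608)) (I.mix (nat_lit 60932096) (nat_lit 57212928)) (I.mix (nat_lit 58621952) (nat_lit 57671680)) (I.mix (nat_lit 57376768) (nat_lit 54624256)))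
  false (nat_lit 0)
def b0_18 : Bx := Bx.mk (St.mk (I.pos (nat_lit 163790848) (nat_lit 193773568)) (I.mix (nat_lit 19988480) (nat_lit 11157504)) (I.neg (nat_lit 1916928) (nat_lit 41484288)) (I.pos (nat_lit 151453696) (nat_lit 204587008)) (I.mix (nat_lit 41795584) (nat_lit 26001408)) (I.mix (nat_lit 30883840) (nat_lit 28311552)) (I.mix (nat_lit 30523392) (nat_lit 29507584)))
  false (nat_lit 0)
def b0_19 : Bx := Bx.mk (St.mk (I.pos (nat_lit 166002688) (nat_lit 206127104)) (I.mix (nat_lit 28475392) (nat_lit 17055744)) (I.mix (nat_lit 53428224) (nat_lit 2195456)) (I.pos (nat_lit 154877952) (nat_lit 219070464)) (I.mix (nat_lit 67289088) (nat_lit 56164352)) (I.mix (nat_lit 64274432) (nat_lit 62455808)) (I.mix (nat_lit 64618496) (nat_lit 61472768)))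
  false (nat_lit 0)
def b0_20 : Bx := Bx.mk (St.mk (I.pos (nat_lit 138608640) (nat_lit 192675840)) (I.mix (nat_lit 40189952) (nat_lit 3948544)) (I.neg (nat_lit 7995392) (nat_lit 67633152)) (I.pos (nat_lit 122699776) (nat_lit 202817536)) (I.mix (nat_lit 44204032) (nat_lit 18612224)) (I.mix (nat_lit 19447808) (nat_lit 26918912)) (I.mix (nat_lit 20152320) (nat_lit 33718272)))
  false (nat_lit 0)
def t0 : BTr := (BTr.n (BTr.n (BTr.n (BTr.n (BTr.b b0_0) (BTr.b b0_1)) (BTr.n (BTr.b b0_2) (BTr.n (BTr.b b0_3) (BTr.b b0_4)))) (BTr.n (BTr.n (BTr.b b0_5) (BTr.b b0_6)) (BTr.n (BTr.b b0_7) (BTr.n (BTr.b b0_8) (BTr.b b0_9))))) (BTr.n (BTr.n (BTr.n (BTr.b b0_10) (BTr.b b0_11)) (BTr.n (BTr.b b0_12) (BTr.n (BTr.b b0_13) (BTr.b b0_14)))) (BTr.n (BTr.n (BTr.b b0_15) (BTr.n (BTr.b b0_16) (BTr.b b0_17))) (BTr.n (BTr.b b0_18) (BTr.n (BTr.b b0_19) (BTr.b b0_20))))))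
namespace T0
def l0 : Tr := Tr.L (Pth.l (Pth.l (Pth.l (Pth.l Pth.z))))
def l1 : Tr := Tr.L (Pth.l (Pth.l (Pth.l (Pth.r Pth.z))))
def l2 : Tr := Tr.L (Pth.l (Pth.l (Pth.r (Pth.l Pth.z))))
def l3 : Tr := Tr.L (Pth.l (Pth.l (Pth.r (Pth.r (Pth.l Pth.z)))))
def l4 : Tr := Tr.L (Pth.l (Pth.l (Pth.r (Pth.r (Pth.r Pth.z)))))
def l5 : Tr := Tr.L (Pth.l (Pth.r (Pth.l (Pth.l Pth.z))))
def l6 : Tr := Tr.L (Pth.l (Pth.r (Pth.l (Pth.r Pth.z))))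
def l7 : Tr := Tr.L (Pth.l (Pth.r (Pth.r (Pth.l Pth.z))))
def l8 : Tr := Tr.L (Pth.l (Pth.r (Pth.r (Pth.r (Pth.l Pth.z)))))
def l9 : Tr := Tr.L (Pth.l (Pth.r (Pth.r (Pth.r (Pth.r Pth.z)))))
def l10 : Tr := Tr.L (Pth.r (Pth.l (Pth.l (Pth.l Pth.z))))
def l11 : Tr := Tr.L (Pth.r (Pth.l (Pth.l (Pth.r Pth.z))))
def l12 : Tr := Tr.L (Pth.r (Pth.l (Pth.r (Pth.l Pth.z))))
def l13 : Tr := Tr.L (Pth.r (Pth.l (Pth.r (Pth.r (Pth.l Pth.z)))))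
def l14 : Tr := Tr.L (Pth.r (Pth.l (Pth.r (Pth.r (Pth.r Pth.z)))))
def l15 : Tr := Tr.L (Pth.r (Pth.r (Pth.l (Pth.l Pth.z))))
def l16 : Tr := Tr.L (Pth.r (Pth.r (Pth.l (Pth.r (Pth.l Pth.z)))))
def l17 : Tr := Tr.L (Pth.r (Pth.r (Pth.l (Pth.r (Pth.r Pth.z)))))
def l18 : Tr := Tr.L (Pth.r (Pth.r (Pth.r (Pth.l Pth.z))))
def l19 : Tr := Tr.L (Pth.r (Pth.r (Pth.r (Pth.r (Pth.l Pth.z)))))
def l20 : Tr := Tr.L (Pth.r (Pth.r (Pth.r (Pth.r (Pth.r Pth.z)))))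
end T0
def b1_0 : Bx := Bx.mk (St.mk (I.pos (nat_lit 160514048) (nat_lit 238043136)) (I.mix (nat_lit 278528) (nat_lit 54476800)) (I.mix (nat_lit 278528) (nat_lit 66043904)) (I.pos (nat_lit 98500608) (nat_lit 235978752)) (I.mix (nat_lit 86491136) (nat_lit 58785792)) (I.mix (nat_lit 58933248) (nat_lit 54427648)) (I.mix (nat_lit 90324992) (nat_lit 81051648)))
  false (nat_lit 0)
def b1_1 : Bx := Bx.mk (St.mk (I.mix (nat_lit 3751936) (nat_lit 133857280)) (I.mix (nat_lit 5439488) (nat_lit 22790144)) (I.mix (nat_lit 17088512) (nat_lit 11354112)) (I.mix (nat_lit 557056) (nat_lit 84262912)) (I.mix (nat_lit 32210944) (nat_lit 35127296)) (I.mix (nat_lit 30343168) (nat_lit 23281664)) (I.mix (nat_lit 26443776) (nat_lit 19709952)))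
  false (nat_lit 0)
def b1_2 : Bx := Bx.mk (St.mk (I.pos (nat_lit 113131520) (nat_lit 152371200)) (I.mix (nat_lit 40665088) (nat_lit 8241152)) (I.neg (nat_lit 3112960) (nat_lit 56344576)) (I.pos (nat_lit 51396608) (nat_lit 103006208)) (I.mix (nat_lit 85000192) (nat_lit 43745280)) (I.mix (nat_lit 38649856) (nat_lit 83607552)) (I.mix (nat_lit 30982144) (nat_lit 76890112)))
  false (nat_lit 0)
def b1_3 : Bx := Bx.mk (St.mk (I.mix (nat_lit 8650752) (nat_lit 103383040)) (I.mix (nat_lit 21512192) (nat_lit 1179648)) (I.mix (nat_lit 22265856) (nat_lit 557056)) (I.mix (nat_lit 557056) (nat_lit 56066048)) (I.mix (nat_lit 34324480) (nat_lit 13287424)) (I.mix (nat_lit 14057472) (nat_lit 31539200)) (I.mix (nat_lit 7389184) (nat_lit 19857408)))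
  false (nat_lit 0)
def b1_4 : Bx := Bx.mk (St.mk (I.pos (nat_lit 205176832) (nat_lit 252526592)) (I.mix (nat_lit 13844480) (nat_lit 29245440)) (I.mix (nat_lit 59850752) (nat_lit 21282816)) (I.pos (nat_lit 182960128) (nat_lit 257818624)) (I.mix (nat_lit 99942400) (nat_lit 41598976)) (I.mix (nat_lit 61898752) (nat_lit 65748992)) (I.mix (nat_lit 94273536) (nat_lit 119652352)))
  false (nat_lit 0)
def b1_5 : Bx := Bx.mk (St.mk (I.pos (nat_lit 195985408) (nat_lit 246628352)) (I.pos (nat_lit 1802240) (nat_lit 50937856)) (I.mix (nat_lit 21954560) (nat_lit 63963136)) (I.pos (nat_lit 175702016) (nat_lit 253968384)) (I.mix (nat_lit 96157696) (nat_lit 81739776)) (I.mix (nat_lit 90701824) (nat_lit 71680000)) (I.mix (nat_lit 148144128) (nat_lit 113852416)))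
  false (nat_lit 16024755)
def b1_6 : Bx := Bx.mk (St.mk (I.mix (nat_lit 11845632) (nat_lit 17235968)) (I.mix (nat_lit 2097152) (nat_lit 3047424)) (I.mix (nat_lit 3244032) (nat_lit 557056)) (I.mix (nat_lit 557056) (nat_lit 18300928)) (I.mix (nat_lit 5767168) (nat_lit 4161536)) (I.mix (nat_lit 4177920) (nat_lit 4128768)) (I.mix (nat_lit 851968) (nat_lit 950272)))
  false (nat_lit 0)
def b1_7 : Bx := Bx.mk (St.mk (I.pos (nat_lit 110657536) (nat_lit 135413760)) (I.mix (nat_lit 9748480) (nat_lit 8192000)) (I.neg (nat_lit 1982464) (nat_lit 22052864)) (I.pos (nat_lit 49807360) (nat_lit 85983232)) (I.mix (nat_lit 32030720) (nat_lit 19873792)) (I.mix (nat_lit 20594688) (nat_lit 20905984)) (I.mix (nat_lit 17137664) (nat_lit 20545536)))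
  false (nat_lit 0)
def b1_8 : Bx := Bx.mk (St.mk (I.pos (nat_lit 212992000) (nat_lit 258293760)) (I.mix (nat_lit 16564224) (nat_lit 14090240)) (I.neg (nat_lit 10223616) (nat_lit 66289664)) (I.pos (nat_lit 194707456) (nat_lit 275693568)) (I.mix (nat_lit 92930048) (nat_lit 23724032)) (I.mix (nat_lit 51183616) (nat_lit 54722560)) (I.mix (nat_lit 79527936) (nat_lit 103776256)))
  false (nat_lit 0)
def b1_9 : Bx := Bx.mk (St.mk (I.pos (nat_lit 112869376) (nat_lit 183451648)) (I.mix (nat_lit 44171264) (nat_lit 163840)) (I.neg (nat_lit 9486336) (nat_lit 56279040)) (I.pos (nat_lit 64372736) (nat_lit 144195584)) (I.mix (nat_lit 69287936) (nat_lit 40681472)) (I.mix (nat_lit 36732928) (nat_lit 57327616)) (I.mix (nat_lit 33095680) (nat_lit 60751872)))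
  false (nat_lit 11898977)
def b1_10 : Bx := Bx.mk (St.mk (I.mix (nat_lit 6553600) (nat_lit 113868800)) (I.mix (nat_lit 23265280) (nat_lit 3997696)) (I.mix (nat_lit 22937600) (nat_lit 557056)) (I.mix (nat_lit 557056) (nat_lit 65339392)) (I.mix (nat_lit 33996800) (nat_lit 25968640)) (I.mix (nat_lit 19054592) (nat_lit 30736384)) (I.mix (nat_lit 11681792) (nat_lit 22003712)))
  false (nat_lit 0)
def b1_11 : Bx := Bx.mk (St.mk (I.pos (nat_lit 174587904) (nat_lit 223510528)) (I.mix (nat_lit 11681792) (nat_lit 48087040)) (I.mix (nat_lit 14254080) (nat_lit 63389696)) (I.pos (nat_lit 126943232) (nat_lit 204980224)) (I.mix (nat_lit 118734848) (nat_lit 47808512)) (I.mix (nat_lit 107216896) (nat_lit 63406080)) (I.mix (nat_lit 118767616) (nat_lit 71139328)))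
  false (nat_lit 0)
def b1_12 : Bx := Bx.mk (St.mk (I.mix (nat_lit 9814016) (nat_lit 134463488)) (I.mix (nat_lit 13844480) (nat_lit 26689536)) (I.mix (nat_lit 18563072) (nat_lit 14909440)) (I.mix (nat_lit 557056) (nat_lit 84049920)) (I.mix (nat_lit 43696128) (nat_lit 33800192)) (I.mix (nat_lit 44613632) (nat_lit 27951104)) (I.mix (nat_lit 30752768) (nat_lit 19660800)))
  false (nat_lit 0)
def b1_13 : Bx := Bx.mk (St.mk (I.pos (nat_lit 172638208) (nat_lit 210976768)) (I.mix (nat_lit 33325056) (nat_lit 13254656)) (I.mix (nat_lit 49299456) (nat_lit 9191424)) (I.pos (nat_lit 119062528) (nat_lit 182173696)) (I.mix (nat_lit 65224704) (nat_lit 59277312)) (I.mix (nat_lit 61587456) (nat_lit 59244544)) (I.mix (nat_lit 67780608) (nat_lit 62881792)))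
  false (nat_lit 33162701)
def b1_14 : Bx := Bx.mk (St.mk (I.pos (nat_lit 154894336) (nat_lit 193200128)) (I.neg (nat_lit 3031040) (nat_lit 34684928)) (I.neg (nat_lit 8159232) (nat_lit 51396608)) (I.pos (nat_lit 97665024) (nat_lit 158285824)) (I.mix (nat_lit 37306368) (nat_lit 23724032)) (I.mix (nat_lit 21823488) (nat_lit 27017216)) (I.mix (nat_lit 24559616) (nat_lit 31588352)))
  false (nat_lit 0)
def b1_15 : Bx := Bx.mk (St.mk (I.pos (nat_lit 172752896) (nat_lit 215023616)) (I.mix (nat_lit 23117824) (nat_lit 26460160)) (I.mix (nat_lit 33570816) (nat_lit 32194560)) (I.pos (nat_lit 123568128) (nat_lit 189562880)) (I.mix (nat_lit 106921984) (nat_lit 75366400)) (I.mix (nat_lit 115015680) (nat_lit 77922304)) (I.mix (nat_lit 131579904) (nat_lit 84623360)))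
  false (nat_lit 11317370)
def b1_16 : Bx := Bx.mk (St.mk (I.pos (nat_lit 149274624) (nat_lit 195067904)) (I.mix (nat_lit 34521088) (nat_lit 4292608)) (I.neg (nat_lit 1507328) (nat_lit 50413568)) (I.pos (nat_lit 93405184) (nat_lit 161021952)) (I.mix (nat_lit 55984128) (nat_lit 24199168)) (I.mix (nat_lit 35995648) (nat_lit 32800768)) (I.mix (nat_lit 39550976) (nat_lit 37912576)))
  false (nat_lit 0)
def b1_17 : Bx := Bx.mk (St.mk (I.pos (nat_lit 150142976) (nat_lit 200114176)) (I.mix (nat_lit 33947648) (nat_lit 7585792)) (I.mix (nat_lit 49758208) (nat_lit 2277376)) (I.pos (nat_lit 94027776) (nat_lit 166871040)) (I.mix (nat_lit 48906240) (nat_lit 22708224)) (I.mix (nat_lit 29376512) (nat_lit 30572544)) (I.mix (nat_lit 31309824) (nat_lit 34783232)))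
  false (nat_lit 0)
def b1_18 : Bx := Bx.mk (St.mk (I.pos (nat_lit 171130880) (nat_lit 207405056)) (I.mix (nat_lit 33275904) (nat_lit 13451264)) (I.mix (nat_lit 49512448) (nat_lit 9846784)) (I.pos (nat_lit 116310016) (nat_lit 177324032)) (I.mix (nat_lit 68583424) (nat_lit 50610176)) (I.mix (nat_lit 60948480) (nat_lit 59326464)) (I.mix (nat_lit 68091904) (nat_lit 62881792)))
  false (nat_lit 25218209)
def t1 : BTr := (BTr.n (BTr.n (BTr.n (BTr.n (BTr.b b1_0) (BTr.b b1_1)) (BTr.n (BTr.b b1_2) (BTr.b b1_3))) (BTr.n (BTr.n (BTr.b b1_4) (BTr.b b1_5)) (BTr.n (BTr.b b1_6) (BTr.n (BTr.b b1_7) (BTr.b b1_8))))) (BTr.n (BTr.n (BTr.n (BTr.b b1_9) (BTr.b b1_10)) (BTr.n (BTr.b b1_11) (BTr.n (BTr.b b1_12) (BTr.b b1_13)))) (BTr.n (BTr.n (BTr.b b1_14) (BTr.b b1_15)) (BTr.n (BTr.b b1_16) (BTr.n (BTr.b b1_17) (BTr.b b1_18))))))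
namespace T1
def l0 : Tr := Tr.L (Pth.l (Pth.l (Pth.l (Pth.l Pth.z))))
def l1 : Tr := Tr.L (Pth.l (Pth.l (Pth.l (Pth.r Pth.z))))
def l2 : Tr := Tr.L (Pth.l (Pth.l (Pth.r (Pth.l Pth.z))))
def l3 : Tr := Tr.L (Pth.l (Pth.l (Pth.r (Pth.r Pth.z))))
def l4 : Tr := Tr.L (Pth.l (Pth.r (Pth.l (Pth.l Pth.z))))
def l5 : Tr := Tr.L (Pth.l (Pth.r (Pth.l (Pth.r Pth.z))))
def l6 : Tr := Tr.L (Pth.l (Pth.r (Pth.r (Pth.l Pth.z))))
def l7 : Tr := Tr.L (Pth.l (Pth.r (Pth.r (Pth.r (Pth.l Pth.z)))))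
def l8 : Tr := Tr.L (Pth.l (Pth.r (Pth.r (Pth.r (Pth.r Pth.z)))))
def l9 : Tr := Tr.L (Pth.r (Pth.l (Pth.l (Pth.l Pth.z))))
def l10 : Tr := Tr.L (Pth.r (Pth.l (Pth.l (Pth.r Pth.z))))
def l11 : Tr := Tr.L (Pth.r (Pth.l (Pth.r (Pth.l Pth.z))))
def l12 : Tr := Tr.L (Pth.r (Pth.l (Pth.r (Pth.r (Pth.l Pth.z)))))
def l13 : Tr := Tr.L (Pth.r (Pth.l (Pth.r (Pth.r (Pth.r Pth.z)))))
def l14 : Tr := Tr.L (Pth.r (Pth.r (Pth.l (Pth.l Pth.z))))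
def l15 : Tr := Tr.L (Pth.r (Pth.r (Pth.l (Pth.r Pth.z))))
def l16 : Tr := Tr.L (Pth.r (Pth.r (Pth.r (Pth.l Pth.z))))
def l17 : Tr := Tr.L (Pth.r (Pth.r (Pth.r (Pth.r (Pth.l Pth.z)))))
def l18 : Tr := Tr.L (Pth.r (Pth.r (Pth.r (Pth.r (Pth.r Pth.z)))))
end T1
def b2_0 : Bx := Bx.mk (St.mk (I.pos (nat_lit 146636800) (nat_lit 216940544)) (I.mix (nat_lit 278528) (nat_lit 91766784)) (I.mix (nat_lit 278528) (nat_lit 85573632)) (I.pos (nat_lit 369573888) (nat_lit 463175680)) (I.mix (nat_lit 141017088) (nat_lit 78544896)) (I.mix (nat_lit 81461248) (nat_lit 78856192)) (I.mix (nat_lit 102760448) (nat_lit 111935488)))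
  false (nat_lit 128939061)
def b2_1 : Bx := Bx.mk (St.mk (I.mix (nat_lit 57606144) (nat_lit 17563648)) (I.mix (nat_lit 17072128) (nat_lit 84410368)) (I.neg (nat_lit 46907392) (nat_lit 75350016)) (I.pos (nat_lit 259031040) (nat_lit 291667968)) (I.mix (nat_lit 52854784) (nat_lit 112738304)) (I.mix (nat_lit 88653824) (nat_lit 66076672)) (I.mix (nat_lit 42172416) (nat_lit 32178176)))
  true (nat_lit 0)
def b2_2 : Bx := Bx.mk (St.mk (I.pos (nat_lit 7094272) (nat_lit 57606144)) (I.neg (nat_lit 31752192) (nat_lit 84410368)) (I.neg (nat_lit 46989312) (nat_lit 75350016)) (I.pos (nat_lit 263995392) (nat_lit 291667968)) (I.mix (nat_lit 110788608) (nat_lit 40861696)) (I.mix (nat_lit 65011712) (nat_lit 78413824)) (I.mix (nat_lit 41484288) (nat_lit 32178176)))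
  false (nat_lit 3652263)
def b2_3 : Bx := Bx.mk (St.mk (I.pos (nat_lit 16596992) (nat_lit 127352832)) (I.neg (nat_lit 8323072) (nat_lit 87244800)) (I.neg (nat_lit 6275072) (nat_lit 82378752)) (I.pos (nat_lit 261914624) (nat_lit 332480512)) (I.mix (nat_lit 112525312) (nat_lit 68206592)) (I.mix (nat_lit 67796992) (nat_lit 83771392)) (I.mix (nat_lit 70025216) (nat_lit 67747840)))
  false (nat_lit 46536900)
def b2_4 : Bx := Bx.mk (St.mk (I.pos (nat_lit 92258304) (nat_lit 194412544)) (I.mix (nat_lit 41074688) (nat_lit 85737472)) (I.mix (nat_lit 45187072) (nat_lit 89145344)) (I.pos (nat_lit 296681472) (nat_lit 431308800)) (I.mix (nat_lit 160202752) (nat_lit 89964544)) (I.mix (nat_lit 135856128) (nat_lit 99729408)) (I.mix (nat_lit 133349376) (nat_lit 122290176)))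
  false (nat_lit 109897761)
def b2_5 : Bx := Bx.mk (St.mk (I.neg (nat_lit 16580608) (nat_lit 127352832)) (I.pos (nat_lit 8323072) (nat_lit 87244800)) (I.neg (nat_lit 6275072) (nat_lit 82395136)) (I.pos (nat_lit 261914624) (nat_lit 332496896)) (I.mix (nat_lit 68206592) (nat_lit 112525312)) (I.mix (nat_lit 78659584) (nat_lit 67796992)) (I.mix (nat_lit 70041600) (nat_lit 67715072)))
  true (nat_lit 0)
def b2_6 : Bx := Bx.mk (St.mk (I.pos (nat_lit 210599936) (nat_lit 283869184)) (I.mix (nat_lit 16826368) (nat_lit 60407808)) (I.mix (nat_lit 147439616) (nat_lit 8257536)) (I.pos (nat_lit 452526080) (nat_lit 565297152)) (I.mix (nat_lit 64618496) (nat_lit 63553536)) (I.mix (nat_lit 60997632) (nat_lit 52117504)) (I.mix (nat_lit 93749248) (nat_lit 98369536)))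
  false (nat_lit 91788196)
def b2_7 : Bx := Bx.mk (St.mk (I.mix (nat_lit 12091392) (nat_lit 23773184)) (I.mix (nat_lit 35635200) (nat_lit 7143424)) (I.neg (nat_lit 48988160) (nat_lit 62668800)) (I.pos (nat_lit 259948544) (nat_lit 271777792)) (I.mix (nat_lit 40566784) (nat_lit 23724032)) (I.mix (nat_lit 21823488) (nat_lit 26066944)) (I.mix (nat_lit 5570560) (nat_lit 10960896)))
  false (nat_lit 0)
def b2_8 : Bx := Bx.mk (St.mk (I.pos (nat_lit 192282624) (nat_lit 239091712)) (I.pos (nat_lit 7241728) (nat_lit 54509568)) (I.mix (nat_lit 66961408) (nat_lit 7913472)) (I.pos (nat_lit 422330368) (nat_lit 480100352)) (I.mix (nat_lit 80592896) (nat_lit 80150528)) (I.mix (nat_lit 68288512) (nat_lit 60080128)) (I.mix (nat_lit 98451456) (nat_lit 95059968)))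
  false (nat_lit 66865786)
def b2_9 : Bx := Bx.mk (St.mk (I.pos (nat_lit 10272768) (nat_lit 35061760)) (I.neg (nat_lit 8912896) (nat_lit 38600704)) (I.neg (nat_lit 46940160) (nat_lit 62636032)) (I.pos (nat_lit 261652480) (nat_lit 274219008)) (I.mix (nat_lit 57081856) (nat_lit 37421056)) (I.mix (nat_lit 36388864) (nat_lit 40697856)) (I.mix (nat_lit 10158080) (nat_lit 16351232)))
  false (nat_lit 0)
def b2_10 : Bx := Bx.mk (St.mk (I.pos (nat_lit 233914368) (nat_lit 277643264)) (I.mix (nat_lit 30507008) (nat_lit 24739840)) (I.neg (nat_lit 54165504) (nat_lit 174522368)) (I.pos (nat_lit 475643904) (nat_lit 553336832)) (I.mix (nat_lit 71352320) (nat_lit 39288832)) (I.mix (nat_lit 37453824) (nat_lit 49102848)) (I.mix (nat_lit 58966016) (nat_lit 104071168)))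
  false (nat_lit 47244060)
def b2_11 : Bx := Bx.mk (St.mk (I.mix (nat_lit 9584640) (nat_lit 19595264)) (I.mix (nat_lit 18546688) (nat_lit 14745600)) (I.neg (nat_lit 49037312) (nat_lit 61079552)) (I.pos (nat_lit 260161536) (nat_lit 269336576)) (I.mix (nat_lit 24150016) (nat_lit 25149440)) (I.mix (nat_lit 16646144) (nat_lit 17203200)) (I.mix (nat_lit 1835008) (nat_lit 8486912)))
  false (nat_lit 0)
def b2_12 : Bx := Bx.mk (St.mk (I.pos (nat_lit 250118144) (nat_lit 283787264)) (I.mix (nat_lit 29605888) (nat_lit 7815168)) (I.neg (nat_lit 88555520) (nat_lit 181010432)) (I.pos (nat_lit 498401280) (nat_lit 565362688)) (I.mix (nat_lit 50921472) (nat_lit 20037632)) (I.mix (nat_lit 26148864) (nat_lit 32505856)) (I.mix (nat_lit 37912576) (nat_lit 74416128)))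
  false (nat_lit 0)
def b2_13 : Bx := Bx.mk (St.mk (I.mix (nat_lit 12648448) (nat_lit 13008896)) (I.mix (nat_lit 15466496) (nat_lit 12976128)) (I.neg (nat_lit 49758208) (nat_lit 60686336)) (I.pos (nat_lit 260308992) (nat_lit 268681216)) (I.mix (nat_lit 17317888) (nat_lit 14499840)) (I.mix (nat_lit 9977856) (nat_lit 10289152)) (I.mix (nat_lit 212992) (nat_lit 6782976)))
  false (nat_lit 0)
def b2_14 : Bx := Bx.mk (St.mk (I.pos (nat_lit 177160192) (nat_lit 222642176)) (I.pos (nat_lit 17661952) (nat_lit 57819136)) (I.mix (nat_lit 38436864) (nat_lit 22511616)) (I.pos (nat_lit 406716416) (nat_lit 452296704)) (I.mix (nat_lit 81330176) (nat_lit 51347456)) (I.mix (nat_lit 53116928) (nat_lit 43319296)) (I.mix (nat_lit 69599232) (nat_lit 69632000)))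
  false (nat_lit 39461152)
def b2_15 : Bx := Bx.mk (St.mk (I.pos (nat_lit 11255808) (nat_lit 44875776)) (I.neg (nat_lit 9011200) (nat_lit 49823744)) (I.neg (nat_lit 46759936) (nat_lit 64536576)) (I.pos (nat_lit 261750784) (nat_lit 278446080)) (I.mix (nat_lit 51183616) (nat_lit 38502400)) (I.mix (nat_lit 36126720) (nat_lit 36945920)) (I.mix (nat_lit 12091392) (nat_lit 17022976)))
  false (nat_lit 0)
def b2_16 : Bx := Bx.mk (St.mk (I.mix (nat_lit 9453568) (nat_lit 23838720)) (I.mix (nat_lit 22986752) (nat_lit 14761984)) (I.neg (nat_lit 48955392) (nat_lit 61374464)) (I.pos (nat_lit 260112384) (nat_lit 270008320)) (I.mix (nat_lit 27312128) (nat_lit 28852224)) (I.mix (nat_lit 21594112) (nat_lit 19398656)) (I.mix (nat_lit 3112960) (nat_lit 9240576)))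
  false (nat_lit 0)
def b2_17 : Bx := Bx.mk (St.mk (I.pos (nat_lit 194609152) (nat_lit 291848192)) (I.mix (nat_lit 30572544) (nat_lit 65503232)) (I.mix (nat_lit 178683904) (nat_lit 19415040)) (I.pos (nat_lit 432226304) (nat_lit 581451776)) (I.mix (nat_lit 83591168) (nat_lit 72908800)) (I.mix (nat_lit 75005952) (nat_lit 59031552)) (I.mix (nat_lit 122748928) (nat_lit 117325824)))
  false (nat_lit 104351416)
def b2_18 : Bx := Bx.mk (St.mk (I.pos (nat_lit 7995392) (nat_lit 24199168)) (I.neg (nat_lit 14270464) (nat_lit 33144832)) (I.neg (nat_lit 48939008) (nat_lit 62210048)) (I.pos (nat_lit 261390336) (nat_lit 272023552)) (I.mix (nat_lit 31670272) (nat_lit 12402688)) (I.mix (nat_lit 14794752) (nat_lit 19415040)) (I.mix (nat_lit 3932160) (nat_lit 9781248)))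
  false (nat_lit 0)
def b2_19 : Bx := Bx.mk (St.mk (I.pos (nat_lit 159465472) (nat_lit 218841088)) (I.pos (nat_lit 25395200) (nat_lit 91111424)) (I.mix (nat_lit 17956864) (nat_lit 79118336)) (I.pos (nat_lit 395722752) (nat_lit 456769536)) (I.mix (nat_lit 119701504) (nat_lit 96583680)) (I.mix (nat_lit 95027200) (nat_lit 75726848)) (I.mix (nat_lit 137543680) (nat_lit 101236736)))
  false (nat_lit 124223651)
def b2_20 : Bx := Bx.mk (St.mk (I.pos (nat_lit 9961472) (nat_lit 45056000)) (I.neg (nat_lit 21151744) (nat_lit 75366400)) (I.neg (nat_lit 47300608) (nat_lit 73777152)) (I.pos (nat_lit 263864320) (nat_lit 284704768)) (I.mix (nat_lit 113688576) (nat_lit 50003968)) (I.mix (nat_lit 49053696) (nat_lit 88653824)) (I.mix (nat_lit 30932992) (nat_lit 28966912)))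
  false (nat_lit 0)
def b2_21 : Bx := Bx.mk (St.mk (I.mix (nat_lit 14434304) (nat_lit 28475392)) (I.mix (nat_lit 41680896) (nat_lit 12697600)) (I.neg (nat_lit 49152000) (nat_lit 63225856)) (I.pos (nat_lit 259964928) (nat_lit 272744448)) (I.mix (nat_lit 42729472) (nat_lit 28622848)) (I.mix (nat_lit 20725760) (nat_lit 29753344)) (I.mix (nat_lit 5193728) (nat_lit 10567680)))
  false (nat_lit 0)
def b2_22 : Bx := Bx.mk (St.mk (I.pos (nat_lit 241729536) (nat_lit 270778368)) (I.neg (nat_lit 212992) (nat_lit 28934144)) (I.neg (nat_lit 100040704) (nat_lit 170115072)) (I.pos (nat_lit 482820096) (nat_lit 538853376)) (I.mix (nat_lit 77987840) (nat_lit 30064640)) (I.mix (nat_lit 42549248) (nat_lit 60080128)) (I.mix (nat_lit 58195968) (nat_lit 121143296)))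
  false (nat_lit 441276)
def t2 : BTr := (BTr.n (BTr.n (BTr.n (BTr.n (BTr.b b2_0) (BTr.b b2_1)) (BTr.n (BTr.b b2_2) (BTr.n (BTr.b b2_3) (BTr.b b2_4)))) (BTr.n (BTr.n (BTr.b b2_5) (BTr.n (BTr.b b2_6) (BTr.b b2_7))) (BTr.n (BTr.b b2_8) (BTr.n (BTr.b b2_9) (BTr.b b2_10))))) (BTr.n (BTr.n (BTr.n (BTr.b b2_11) (BTr.n (BTr.b b2_12) (BTr.b b2_13))) (BTr.n (BTr.b b2_14) (BTr.n (BTr.b b2_15) (BTr.b b2_16)))) (BTr.n (BTr.n (BTr.b b2_17) (BTr.n (BTr.b b2_18) (BTr.b b2_19))) (BTr.n (BTr.b b2_20) (BTr.n (BTr.b b2_21) (BTr.b b2_22))))))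
namespace T2
def l0 : Tr := Tr.L (Pth.l (Pth.l (Pth.l (Pth.l Pth.z))))
def l1 : Tr := Tr.L (Pth.l (Pth.l (Pth.l (Pth.r Pth.z))))
def l2 : Tr := Tr.L (Pth.l (Pth.l (Pth.r (Pth.l Pth.z))))
def l3 : Tr := Tr.L (Pth.l (Pth.l (Pth.r (Pth.r (Pth.l Pth.z)))))
def l4 : Tr := Tr.L (Pth.l (Pth.l (Pth.r (Pth.r (Pth.r Pth.z)))))
def l5 : Tr := Tr.L (Pth.l (Pth.r (Pth.l (Pth.l Pth.z))))
def l6 : Tr := Tr.L (Pth.l (Pth.r (Pth.l (Pth.r (Pth.l Pth.z)))))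
def l7 : Tr := Tr.L (Pth.l (Pth.r (Pth.l (Pth.r (Pth.r Pth.z)))))
def l8 : Tr := Tr.L (Pth.l (Pth.r (Pth.r (Pth.l Pth.z))))
def l9 : Tr := Tr.L (Pth.l (Pth.r (Pth.r (Pth.r (Pth.l Pth.z)))))
def l10 : Tr := Tr.L (Pth.l (Pth.r (Pth.r (Pth.r (Pth.r Pth.z)))))
def l11 : Tr := Tr.L (Pth.r (Pth.l (Pth.l (Pth.l Pth.z))))
def l12 : Tr := Tr.L (Pth.r (Pth.l (Pth.l (Pth.r (Pth.l Pth.z)))))
def l13 : Tr := Tr.L (Pth.r (Pth.l (Pth.l (Pth.r (Pth.r Pth.z)))))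
def l14 : Tr := Tr.L (Pth.r (Pth.l (Pth.r (Pth.l Pth.z))))
def l15 : Tr := Tr.L (Pth.r (Pth.l (Pth.r (Pth.r (Pth.l Pth.z)))))
def l16 : Tr := Tr.L (Pth.r (Pth.l (Pth.r (Pth.r (Pth.r Pth.z)))))
def l17 : Tr := Tr.L (Pth.r (Pth.r (Pth.l (Pth.l Pth.z))))
def l18 : Tr := Tr.L (Pth.r (Pth.r (Pth.l (Pth.r (Pth.l Pth.z)))))
def l19 : Tr := Tr.L (Pth.r (Pth.r (Pth.l (Pth.r (Pth.r Pth.z)))))
def l20 : Tr := Tr.L (Pth.r (Pth.r (Pth.r (Pth.l Pth.z))))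
def l21 : Tr := Tr.L (Pth.r (Pth.r (Pth.r (Pth.r (Pth.l Pth.z)))))
def l22 : Tr := Tr.L (Pth.r (Pth.r (Pth.r (Pth.r (Pth.r Pth.z)))))
end T2
def b3_0 : Bx := Bx.mk (St.mk (I.pos (nat_lit 160514048) (nat_lit 234635264)) (I.mix (nat_lit 278528) (nat_lit 41811968)) (I.mix (nat_lit 278528) (nat_lit 110166016)) (I.pos (nat_lit 96567296) (nat_lit 201408512)) (I.mix (nat_lit 89014272) (nat_lit 44875776)) (I.mix (nat_lit 70680576) (nat_lit 56197120)) (I.mix (nat_lit 103677952) (nat_lit 70107136)))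
  false (nat_lit 11416839)
def b3_1 : Bx := Bx.mk (St.mk (I.pos (nat_lit 124764160) (nat_lit 178995200)) (I.neg (nat_lit 4177920) (nat_lit 52117504)) (I.mix (nat_lit 37847040) (nat_lit 17301504)) (I.pos (nat_lit 77037568) (nat_lit 131989504)) (I.mix (nat_lit 64798720) (nat_lit 53755904)) (I.mix (nat_lit 45989888) (nat_lit 55754752)) (I.mix (nat_lit 43925504) (nat_lit 58769408)))
  false (nat_lit 25731866)
def b3_2 : Bx := Bx.mk (St.mk (I.mix (nat_lit 4341760) (nat_lit 111968256)) (I.mix (nat_lit 23724032) (nat_lit 1638400)) (I.mix (nat_lit 9830400) (nat_lit 10371072)) (I.mix (nat_lit 557056) (nat_lit 61800448)) (I.mix (nat_lit 27754496) (nat_lit 29802496)) (I.mix (nat_lit 19251200) (nat_lit 25739264)) (I.mix (nat_lit 11960320) (nat_lit 17727488)))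
  false (nat_lit 0)
def b3_3 : Bx := Bx.mk (St.mk (I.pos (nat_lit 164118528) (nat_lit 210255872)) (I.mix (nat_lit 17465344) (nat_lit 42614784)) (I.pos (nat_lit 12615680) (nat_lit 96501760)) (I.pos (nat_lit 103825408) (nat_lit 178028544)) (I.mix (nat_lit 131809280) (nat_lit 50823168)) (I.mix (nat_lit 128598016) (nat_lit 59293696)) (I.mix (nat_lit 154255360) (nat_lit 49315840)))
  false (nat_lit 32432468)
def b3_4 : Bx := Bx.mk (St.mk (I.mix (nat_lit 9388032) (nat_lit 127221760)) (I.mix (nat_lit 12517376) (nat_lit 25362432)) (I.mix (nat_lit 557056) (nat_lit 33341440)) (I.mix (nat_lit 557056) (nat_lit 75907072)) (I.mix (nat_lit 54657024) (nat_lit 33046528)) (I.mix (nat_lit 52101120) (nat_lit 28229632)) (I.mix (nat_lit 39206912) (nat_lit 17563648)))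
  false (nat_lit 0)
def b3_5 : Bx := Bx.mk (St.mk (I.pos (nat_lit 166051840) (nat_lit 211124224)) (I.mix (nat_lit 39845888) (nat_lit 6307840)) (I.mix (nat_lit 16777216) (nat_lit 45924352)) (I.pos (nat_lit 109477888) (nat_lit 175243264)) (I.mix (nat_lit 59490304) (nat_lit 70156288)) (I.mix (nat_lit 64864256) (nat_lit 60588032)) (I.mix (nat_lit 62816256) (nat_lit 64651264)))
  false (nat_lit 43995862)
def b3_6 : Bx := Bx.mk (St.mk (I.pos (nat_lit 164118528) (nat_lit 211091456)) (I.mix (nat_lit 30113792) (nat_lit 23068672)) (I.mix (nat_lit 1032192) (nat_lit 66863104)) (I.pos (nat_lit 102449152) (nat_lit 176013312)) (I.mix (nat_lit 117866496) (nat_lit 74661888)) (I.mix (nat_lit 120340480) (nat_lit 69812224)) (I.mix (nat_lit 140460032) (nat_lit 66322432)))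
  false (nat_lit 64697565)
def b3_7 : Bx := Bx.mk (St.mk (I.mix (nat_lit 10813440) (nat_lit 22282240)) (I.mix (nat_lit 1720320) (nat_lit 1064960)) (I.mix (nat_lit 557056) (nat_lit 3391488)) (I.mix (nat_lit 557056) (nat_lit 19136512)) (I.mix (nat_lit 3014656) (nat_lit 1556480)) (I.mix (nat_lit 1392640) (nat_lit 1671168)) (I.mix (nat_lit 835584) (nat_lit 737280)))
  false (nat_lit 0)
def b3_8 : Bx := Bx.mk (St.mk (I.pos (nat_lit 149127168) (nat_lit 186286080)) (I.mix (nat_lit 38125568) (nat_lit 868352)) (I.mix (nat_lit 14811136) (nat_lit 27541504)) (I.pos (nat_lit 93487104) (nat_lit 141950976)) (I.mix (nat_lit 58490880) (nat_lit 43335680)) (I.mix (nat_lit 33423360) (nat_lit 45694976)) (I.mix (nat_lit 40337408) (nat_lit 43253760)))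
  false (nat_lit 826695)
def b3_9 : Bx := Bx.mk (St.mk (I.pos (nat_lit 162512896) (nat_lit 189579264)) (I.neg (nat_lit 9502720) (nat_lit 32620544)) (I.mix (nat_lit 11649024) (nat_lit 16302080)) (I.pos (nat_lit 105545728) (nat_lit 151191552)) (I.mix (nat_lit 26984448) (nat_lit 20660224)) (I.mix (nat_lit 16171008) (nat_lit 15777792)) (I.mix (nat_lit 15400960) (nat_lit 15826944)))
  false (nat_lit 0)
def b3_10 : Bx := Bx.mk (St.mk (I.pos (nat_lit 65454080) (nat_lit 139722752)) (I.mix (nat_lit 7274496) (nat_lit 20103168)) (I.pos (nat_lit 1245184) (nat_lit 28540928)) (I.pos (nat_lit 19841024) (nat_lit 89014272)) (I.mix (nat_lit 36552704) (nat_lit 31752192)) (I.mix (nat_lit 36831232) (nat_lit 22740992)) (I.mix (nat_lit 32030720) (nat_lit 16990208)))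
  false (nat_lit 0)
def b3_11 : Bx := Bx.mk (St.mk (I.pos (nat_lit 116654080) (nat_lit 164413440)) (I.mix (nat_lit 49250304) (nat_lit 8978432)) (I.mix (nat_lit 34734080) (nat_lit 21151744)) (I.pos (nat_lit 53280768) (nat_lit 121389056)) (I.mix (nat_lit 73007104) (nat_lit 45924352)) (I.mix (nat_lit 41336832) (nat_lit 71696384)) (I.mix (nat_lit 34979840) (nat_lit 60850176)))
  false (nat_lit 0)
def b3_12 : Bx := Bx.mk (St.mk (I.mix (nat_lit 30720000) (nat_lit 106807296)) (I.mix (nat_lit 24592384) (nat_lit 3915776)) (I.mix (nat_lit 9437184) (nat_lit 9519104)) (I.mix (nat_lit 5242880) (nat_lit 58425344)) (I.mix (nat_lit 28213248) (nat_lit 21725184)) (I.mix (nat_lit 17350656) (nat_lit 27967488)) (I.mix (nat_lit 9994240) (nat_lit 16023552)))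
  false (nat_lit 0)
def b3_13 : Bx := Bx.mk (St.mk (I.pos (nat_lit 199278592) (nat_lit 239566848)) (I.mix (nat_lit 1949696) (nat_lit 24592384)) (I.pos (nat_lit 23560192) (nat_lit 75333632)) (I.pos (nat_lit 166068224) (nat_lit 221249536)) (I.mix (nat_lit 77234176) (nat_lit 26722304)) (I.mix (nat_lit 49872896) (nat_lit 32096256)) (I.mix (nat_lit 81723392) (nat_lit 41828352)))
  false (nat_lit 0)
def b3_14 : Bx := Bx.mk (St.mk (I.pos (nat_lit 218513408) (nat_lit 271532032)) (I.mix (nat_lit 20430848) (nat_lit 23625728)) (I.pos (nat_lit 16384) (nat_lit 78413824)) (I.pos (nat_lit 195313664) (nat_lit 292274176)) (I.mix (nat_lit 62963712) (nat_lit 28966912)) (I.mix (nat_lit 35127296) (nat_lit 38469632)) (I.mix (nat_lit 64045056) (nat_lit 54116352)))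
  false (nat_lit 0)
def b3_15 : Bx := Bx.mk (St.mk (I.pos (nat_lit 186155008) (nat_lit 232488960)) (I.pos (nat_lit 7159808) (nat_lit 42139648)) (I.pos (nat_lit 37765120) (nat_lit 102727680)) (I.pos (nat_lit 147996672) (nat_lit 204210176)) (I.mix (nat_lit 98009088) (nat_lit 73154560)) (I.mix (nat_lit 87359488) (nat_lit 67108864)) (I.mix (nat_lit 139739136) (nat_lit 89669632)))
  false (nat_lit 23900001)
def b3_16 : Bx := Bx.mk (St.mk (I.pos (nat_lit 217956352) (nat_lit 284491776)) (I.mix (nat_lit 19709952) (nat_lit 33947648)) (I.pos (nat_lit 2621440) (nat_lit 96174080)) (I.pos (nat_lit 192479232) (nat_lit 317849600)) (I.mix (nat_lit 70696960) (nat_lit 68943872)) (I.mix (nat_lit 70680576) (nat_lit 53608448)) (I.mix (nat_lit 124485632) (nat_lit 83345408)))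
  false (nat_lit 72595763)
def b3_17 : Bx := Bx.mk (St.mk (I.pos (nat_lit 245317632) (nat_lit 281198592)) (I.mix (nat_lit 24592384) (nat_lit 14565376)) (I.mix (nat_lit 9420800) (nat_lit 65683456)) (I.pos (nat_lit 236568576) (nat_lit 312688640)) (I.mix (nat_lit 44482560) (nat_lit 27508736)) (I.mix (nat_lit 28704768) (nat_lit 30588928)) (I.mix (nat_lit 51953664) (nat_lit 45088768)))
  false (nat_lit 0)
def b3_18 : Bx := Bx.mk (St.mk (I.pos (nat_lit 201179136) (nat_lit 244334592)) (I.mix (nat_lit 6356992) (nat_lit 27770880)) (I.pos (nat_lit 17039360) (nat_lit 82952192)) (I.pos (nat_lit 169639936) (nat_lit 230178816)) (I.mix (nat_lit 80920576) (nat_lit 43991040)) (I.mix (nat_lit 56426496) (nat_lit 43696128)) (I.mix (nat_lit 92553216) (nat_lit 65765376)))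
  false (nat_lit 2344332)
def b3_19 : Bx := Bx.mk (St.mk (I.pos (nat_lit 201179136) (nat_lit 233619456)) (I.pos (nat_lit 7487488) (nat_lit 26116096)) (I.pos (nat_lit 39665664) (nat_lit 76103680)) (I.pos (nat_lit 167952384) (nat_lit 207028224)) (I.mix (nat_lit 67600384) (nat_lit 19185664)) (I.mix (nat_lit 40599552) (nat_lit 25788416)) (I.mix (nat_lit 66797568) (nat_lit 31883264)))
  false (nat_lit 0)
def b3_20 : Bx := Bx.mk (St.mk (I.pos (nat_lit 212516864) (nat_lit 245563392)) (I.pos (nat_lit 8028160) (nat_lit 30179328)) (I.pos (nat_lit 40517632) (nat_lit 87687168)) (I.pos (nat_lit 184582144) (nat_lit 232505344)) (I.mix (nat_lit 60882944) (nat_lit 25411584)) (I.mix (nat_lit 42090496) (nat_lit 24674304)) (I.mix (nat_lit 73531392) (nat_lit 35028992)))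
  false (nat_lit 0)
def b3_21 : Bx := Bx.mk (St.mk (I.pos (nat_lit 239599616) (nat_lit 274743296)) (I.mix (nat_lit 23527424) (nat_lit 13598720)) (I.mix (nat_lit 5292032) (nat_lit 63062016)) (I.pos (nat_lit 227983360) (nat_lit 297926656)) (I.mix (nat_lit 60096512) (nat_lit 34209792)) (I.mix (nat_lit 35323904) (nat_lit 37896192)) (I.mix (nat_lit 65011712) (nat_lit 54525952)))
  false (nat_lit 5207424)
def t3 : BTr := (BTr.n (BTr.n (BTr.n (BTr.n (BTr.b b3_0) (BTr.b b3_1)) (BTr.n (BTr.b b3_2) (BTr.n (BTr.b b3_3) (BTr.b b3_4)))) (BTr.n (BTr.n (BTr.b b3_5) (BTr.n (BTr.b b3_6) (BTr.b b3_7))) (BTr.n (BTr.b b3_8) (BTr.n (BTr.b b3_9) (BTr.b b3_10))))) (BTr.n (BTr.n (BTr.n (BTr.b b3_11) (BTr.b b3_12)) (BTr.n (BTr.b b3_13) (BTr.n (BTr.b b3_14) (BTr.b b3_15)))) (BTr.n (BTr.n (BTr.b b3_16) (BTr.n (BTr.b b3_17) (BTr.b b3_18))) (BTr.n (BTr.b b3_19) (BTr.n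 (BTr.b b3_20) (BTr.b b3_21))))))
namespace T3
def l0 : Tr := Tr.L (Pth.l (Pth.l (Pth.l (Pth.l Pth.z))))
def l1 : Tr := Tr.L (Pth.l (Pth.l (Pth.l (Pth.r Pth.z))))
def l2 : Tr := Tr.L (Pth.l (Pth.l (Pth.r (Pth.l Pth.z))))
def l3 : Tr := Tr.L (Pth.l (Pth.l (Pth.r (Pth.r (Pth.l Pth.z)))))
def l4 : Tr := Tr.L (Pth.l (Pth.l (Pth.r (Pth.r (Pth.r Pth.z)))))
def l5 : Tr := Tr.L (Pth.l (Pth.r (Pth.l (Pth.l Pth.z))))
def l6 : Tr := Tr.L (Pth.l (Pth.r (Pth.l (Pth.r (Pth.l Pth.z)))))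
def l7 : Tr := Tr.L (Pth.l (Pth.r (Pth.l (Pth.r (Pth.r Pth.z)))))
def l8 : Tr := Tr.L (Pth.l (Pth.r (Pth.r (Pth.l Pth.z))))
def l9 : Tr := Tr.L (Pth.l (Pth.r (Pth.r (Pth.r (Pth.l Pth.z)))))
def l10 : Tr := Tr.L (Pth.l (Pth.r (Pth.r (Pth.r (Pth.r Pth.z)))))
def l11 : Tr := Tr.L (Pth.r (Pth.l (Pth.l (Pth.l Pth.z))))
def l12 : Tr := Tr.L (Pth.r (Pth.l (Pth.l (Pth.r Pth.z))))
def l13 : Tr := Tr.L (Pth.r (Pth.l (Pth.r (Pth.l Pth.z))))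
def l14 : Tr := Tr.L (Pth.r (Pth.l (Pth.r (Pth.r (Pth.l Pth.z)))))
def l15 : Tr := Tr.L (Pth.r (Pth.l (Pth.r (Pth.r (Pth.r Pth.z)))))
def l16 : Tr := Tr.L (Pth.r (Pth.r (Pth.l (Pth.l Pth.z))))
def l17 : Tr := Tr.L (Pth.r (Pth.r (Pth.l (Pth.r (Pth.l Pth.z)))))
def l18 : Tr := Tr.L (Pth.r (Pth.r (Pth.l (Pth.r (Pth.r Pth.z)))))
def l19 : Tr := Tr.L (Pth.r (Pth.r (Pth.r (Pth.l Pth.z))))
def l20 : Tr := Tr.L (Pth.r (Pth.r (Pth.r (Pth.r (Pth.l Pth.z)))))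
def l21 : Tr := Tr.L (Pth.r (Pth.r (Pth.r (Pth.r (Pth.r Pth.z)))))
end T3
def b4_0 : Bx := Bx.mk (St.mk (I.pos (nat_lit 138051584) (nat_lit 215302144)) (I.mix (nat_lit 278528) (nat_lit 86949888)) (I.mix (nat_lit 278528) (nat_lit 111558656)) (I.pos (nat_lit 364249088) (nat_lit 447823872)) (I.mix (nat_lit 148471808) (nat_lit 73187328)) (I.mix (nat_lit 85655552) (nat_lit 73826304)) (I.mix (nat_lit 104579072) (nat_lit 101564416)))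
  false (nat_lit 161676648)
def b4_1 : Bx := Bx.mk (St.mk (I.pos (nat_lit 24657920) (nat_lit 131612672)) (I.neg (nat_lit 4751360) (nat_lit 90374144)) (I.mix (nat_lit 62357504) (nat_lit 21381120)) (I.pos (nat_lit 267730944) (nat_lit 333004800)) (I.mix (nat_lit 103890944) (nat_lit 77856768)) (I.mix (nat_lit 72351744) (nat_lit 74743808)) (I.mix (nat_lit 69189632) (nat_lit 61718528)))
  false (nat_lit 60663886)
def b4_2 : Bx := Bx.mk (St.mk (I.pos (nat_lit 93143040) (nat_lit 186499072)) (I.mix (nat_lit 41598976) (nat_lit 82886656)) (I.mix (nat_lit 20267008) (nat_lit 115834880)) (I.pos (nat_lit 297549824) (nat_lit 417284096)) (I.mix (nat_lit 168312832) (nat_lit 81362944)) (I.mix (nat_lit 142049280) (nat_lit 101367808)) (I.mix (nat_lit 135397376) (nat_lit 125026304)))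
  false (nat_lit 130163646)
def b4_3 : Bx := Bx.mk (St.mk (I.neg (nat_lit 24641536) (nat_lit 131612672)) (I.pos (nat_lit 4751360) (nat_lit 90390528)) (I.mix (nat_lit 62373888) (nat_lit 21381120)) (I.pos (nat_lit 267730944) (nat_lit 333004800)) (I.mix (nat_lit 77856768) (nat_lit 103890944)) (I.mix (nat_lit 74760192) (nat_lit 72351744)) (I.mix (nat_lit 69189632) (nat_lit 61718528)))
  true (nat_lit 0)
def b4_4 : Bx := Bx.mk (St.mk (I.mix (nat_lit 55853056) (nat_lit 13352960)) (I.mix (nat_lit 13549568) (nat_lit 87490560)) (I.neg (nat_lit 27361280) (nat_lit 54476800)) (I.pos (nat_lit 261668864) (nat_lit 293126144)) (I.mix (nat_lit 61325312) (nat_lit 102383616)) (I.mix (nat_lit 84180992) (nat_lit 68517888)) (I.mix (nat_lit 41287680) (nat_lit 28213248)))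
  true (nat_lit 0)
def b4_5 : Bx := Bx.mk (St.mk (I.pos (nat_lit 13811712) (nat_lit 55853056)) (I.neg (nat_lit 34226176) (nat_lit 87490560)) (I.neg (nat_lit 32538624) (nat_lit 54476800)) (I.pos (nat_lit 268533760) (nat_lit 293126144)) (I.mix (nat_lit 102645760) (nat_lit 51789824)) (I.mix (nat_lit 69894144) (nat_lit 78217216)) (I.mix (nat_lit 41271296) (nat_lit 28934144)))
  false (nat_lit 33136382)
def b4_6 : Bx := Bx.mk (St.mk (I.pos (nat_lit 196411392) (nat_lit 282214400)) (I.mix (nat_lit 10125312) (nat_lit 60686336)) (I.mix (nat_lit 94208000) (nat_lit 55672832)) (I.pos (nat_lit 432488448) (nat_lit 556154880)) (I.mix (nat_lit 59211776) (nat_lit 56360960)) (I.mix (nat_lit 46186496) (nat_lit 35930112)) (I.mix (nat_lit 71385088) (nat_lit 57835520)))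
  false (nat_lit 125475623)
def b4_7 : Bx := Bx.mk (St.mk (I.mix (nat_lit 7307264) (nat_lit 33980416)) (I.mix (nat_lit 46268416) (nat_lit 3407872)) (I.neg (nat_lit 30031872) (nat_lit 43171840)) (I.pos (nat_lit 263028736) (nat_lit 275709952)) (I.mix (nat_lit 31260672) (nat_lit 15335424)) (I.mix (nat_lit 12730368) (nat_lit 16564224)) (I.mix (nat_lit 5652480) (nat_lit 5996544)))
  false (nat_lit 0)
def b4_8 : Bx := Bx.mk (St.mk (I.pos (nat_lit 182042624) (nat_lit 227393536)) (I.pos (nat_lit 13385728) (nat_lit 56885248)) (I.mix (nat_lit 13451264) (nat_lit 53100544)) (I.pos (nat_lit 408076288) (nat_lit 459341824)) (I.mix (nat_lit 84426752) (nat_lit 72384512)) (I.mix (nat_lit 63160320) (nat_lit 61816832)) (I.mix (nat_lit 86736896) (nat_lit 91766784)))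
  false (nat_lit 97491982)
def b4_9 : Bx := Bx.mk (St.mk (I.pos (nat_lit 18169856) (nat_lit 42024960)) (I.neg (nat_lit 15613952) (nat_lit 44859392)) (I.neg (nat_lit 27115520) (nat_lit 42450944)) (I.pos (nat_lit 266387456) (nat_lit 277315584)) (I.mix (nat_lit 56475648) (nat_lit 37371904)) (I.mix (nat_lit 40452096) (nat_lit 38895616)) (I.mix (nat_lit 12451840) (nat_lit 13123584)))
  false (nat_lit 0)
def b4_10 : Bx := Bx.mk (St.mk (I.pos (nat_lit 234684416) (nat_lit 274792448)) (I.mix (nat_lit 19202048) (nat_lit 28311552)) (I.neg (nat_lit 11059200) (nat_lit 109461504)) (I.pos (nat_lit 477085696) (nat_lit 543309824)) (I.mix (nat_lit 45318144) (nat_lit 41451520)) (I.mix (nat_lit 35684352) (nat_lit 35897344)) (I.mix (nat_lit 54640640) (nat_lit 63881216)))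
  false (nat_lit 58083118)
def b4_11 : Bx := Bx.mk (St.mk (I.mix (nat_lit 5292032) (nat_lit 27934720)) (I.mix (nat_lit 28131328) (nat_lit 8224768)) (I.neg (nat_lit 29507584) (nat_lit 41385984)) (I.pos (nat_lit 263110656) (nat_lit 272089088)) (I.mix (nat_lit 23265280) (nat_lit 18350080)) (I.mix (nat_lit 14123008) (nat_lit 14794752)) (I.mix (nat_lit 3604480) (nat_lit 5636096)))
  false (nat_lit 0)
def b4_12 : Bx := Bx.mk (St.mk (I.pos (nat_lit 256491520) (nat_lit 275070976)) (I.mix (nat_lit 6881280) (nat_lit 10272768)) (I.neg (nat_lit 45088768) (nat_lit 92209152)) (I.pos (nat_lit 510984192) (nat_lit 544882688)) (I.mix (nat_lit 7520256) (nat_lit 6209536)) (I.mix (nat_lit 3997696) (nat_lit 3096576)) (I.mix (nat_lit 4603904) (nat_lit 7569408)))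
  false (nat_lit 0)
def b4_13 : Bx := Bx.mk (St.mk (I.pos (nat_lit 182861824) (nat_lit 223117312)) (I.pos (nat_lit 12746752) (nat_lit 52445184)) (I.mix (nat_lit 15925248) (nat_lit 47398912)) (I.pos (nat_lit 407519232) (nat_lit 453181440)) (I.mix (nat_lit 78970880) (nat_lit 44859392)) (I.mix (nat_lit 56983552) (nat_lit 44908544)) (I.mix (nat_lit 74268672) (nat_lit 69304320)))
  false (nat_lit 63758398)
def b4_14 : Bx := Bx.mk (St.mk (I.pos (nat_lit 18399232) (nat_lit 49512448)) (I.neg (nat_lit 14221312) (nat_lit 52150272)) (I.neg (nat_lit 27295744) (nat_lit 43286528)) (I.pos (nat_lit 266371072) (nat_lit 281018368)) (I.mix (nat_lit 46841856) (nat_lit 40730624)) (I.mix (nat_lit 35504128) (nat_lit 35373056)) (I.mix (nat_lit 12304384) (nat_lit 13664256)))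
  false (nat_lit 0)
def b4_15 : Bx := Bx.mk (St.mk (I.pos (nat_lit 201080832) (nat_lit 275267584)) (I.mix (nat_lit 18710528) (nat_lit 50167808)) (I.mix (nat_lit 108199936) (nat_lit 34291712)) (I.pos (nat_lit 436371456) (nat_lit 543916032)) (I.mix (nat_lit 55836672) (nat_lit 44908544)) (I.mix (nat_lit 40321024) (nat_lit 44662784)) (I.mix (nat_lit 60735488) (nat_lit 80707584)))
  false (nat_lit 126083904)
def b4_16 : Bx := Bx.mk (St.mk (I.mix (nat_lit 3833856) (nat_lit 32784384)) (I.mix (nat_lit 35913728) (nat_lit 7471104)) (I.neg (nat_lit 29294592) (nat_lit 41648128)) (I.pos (nat_lit 263127040) (nat_lit 273661952)) (I.mix (nat_lit 24920064) (nat_lit 21528576)) (I.mix (nat_lit 17465344) (nat_lit 16154624)) (I.mix (nat_lit 4440064) (nat_lit 5898240)))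
  false (nat_lit 0)
def b4_17 : Bx := Bx.mk (St.mk (I.pos (nat_lit 151650304) (nat_lit 205176832)) (I.pos (nat_lit 31178752) (nat_lit 84770816)) (I.pos (nat_lit 25313280) (nat_lit 104497152)) (I.pos (nat_lit 382910464) (nat_lit 435060736)) (I.mix (nat_lit 123584512) (nat_lit 87998464)) (I.mix (nat_lit 99074048) (nat_lit 65716224)) (I.mix (nat_lit 132366336) (nat_lit 98287616)))
  false (nat_lit 125158651)
def b4_18 : Bx := Bx.mk (St.mk (I.pos (nat_lit 20332544) (nat_lit 53788672)) (I.neg (nat_lit 26329088) (nat_lit 78118912)) (I.neg (nat_lit 28557312) (nat_lit 52543488)) (I.pos (nat_lit 269058048) (nat_lit 288129024)) (I.mix (nat_lit 98697216) (nat_lit 61177856)) (I.mix (nat_lit 56573952) (nat_lit 84180992)) (I.mix (nat_lit 28065792) (nat_lit 25001984)))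
  false (nat_lit 15530134)
def b4_19 : Bx := Bx.mk (St.mk (I.pos (nat_lit 194625536) (nat_lit 286457856)) (I.mix (nat_lit 16138240) (nat_lit 63012864)) (I.mix (nat_lit 105021440) (nat_lit 58212352)) (I.pos (nat_lit 429572096) (nat_lit 564690944)) (I.mix (nat_lit 65961984) (nat_lit 74989568)) (I.mix (nat_lit 71204864) (nat_lit 48627712)) (I.mix (nat_lit 114868224) (nat_lit 82395136)))
  false (nat_lit 148632844)
def b4_20 : Bx := Bx.mk (St.mk (I.mix (nat_lit 9535488) (nat_lit 35487744)) (I.mix (nat_lit 46039040) (nat_lit 6963200)) (I.neg (nat_lit 29868032) (nat_lit 43302912)) (I.pos (nat_lit 263012352) (nat_lit 275595264)) (I.mix (nat_lit 40140800) (nat_lit 25198592)) (I.mix (nat_lit 19759104) (nat_lit 28737536)) (I.mix (nat_lit 6864896) (nat_lit 8208384)))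
  false (nat_lit 0)
def t4 : BTr := (BTr.n (BTr.n (BTr.n (BTr.n (BTr.b b4_0) (BTr.b b4_1)) (BTr.n (BTr.b b4_2) (BTr.n (BTr.b b4_3) (BTr.b b4_4)))) (BTr.n (BTr.n (BTr.b b4_5) (BTr.b b4_6)) (BTr.n (BTr.b b4_7) (BTr.n (BTr.b b4_8) (BTr.b b4_9))))) (BTr.n (BTr.n (BTr.n (BTr.b b4_10) (BTr.b b4_11)) (BTr.n (BTr.b b4_12) (BTr.n (BTr.b b4_13) (BTr.b b4_14)))) (BTr.n (BTr.n (BTr.b b4_15) (BTr.n (BTr.b b4_16) (BTr.b b4_17))) (BTr.n (BTr.b b4_18) (BTr.n (BTr.b b4_19) (BTr.b b4_20))))))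
namespace T4
def l0 : Tr := Tr.L (Pth.l (Pth.l (Pth.l (Pth.l Pth.z))))
def l1 : Tr := Tr.L (Pth.l (Pth.l (Pth.l (Pth.r Pth.z))))
def l2 : Tr := Tr.L (Pth.l (Pth.l (Pth.r (Pth.l Pth.z))))
def l3 : Tr := Tr.L (Pth.l (Pth.l (Pth.r (Pth.r (Pth.l Pth.z)))))
def l4 : Tr := Tr.L (Pth.l (Pth.l (Pth.r (Pth.r (Pth.r Pth.z)))))
def l5 : Tr := Tr.L (Pth.l (Pth.r (Pth.l (Pth.l Pth.z))))
def l6 : Tr := Tr.L (Pth.l (Pth.r (Pth.l (Pth.r Pth.z))))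
def l7 : Tr := Tr.L (Pth.l (Pth.r (Pth.r (Pth.l Pth.z))))
def l8 : Tr := Tr.L (Pth.l (Pth.r (Pth.r (Pth.r (Pth.l Pth.z)))))
def l9 : Tr := Tr.L (Pth.l (Pth.r (Pth.r (Pth.r (Pth.r Pth.z)))))
def l10 : Tr := Tr.L (Pth.r (Pth.l (Pth.l (Pth.l Pth.z))))
def l11 : Tr := Tr.L (Pth.r (Pth.l (Pth.l (Pth.r Pth.z))))
def l12 : Tr := Tr.L (Pth.r (Pth.l (Pth.r (Pth.l Pth.z))))
def l13 : Tr := Tr.L (Pth.r (Pth.l (Pth.r (Pth.r (Pth.l Pth.z)))))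
def l14 : Tr := Tr.L (Pth.r (Pth.l (Pth.r (Pth.r (Pth.r Pth.z)))))
def l15 : Tr := Tr.L (Pth.r (Pth.r (Pth.l (Pth.l Pth.z))))
def l16 : Tr := Tr.L (Pth.r (Pth.r (Pth.l (Pth.r (Pth.l Pth.z)))))
def l17 : Tr := Tr.L (Pth.r (Pth.r (Pth.l (Pth.r (Pth.r Pth.z)))))
def l18 : Tr := Tr.L (Pth.r (Pth.r (Pth.r (Pth.l Pth.z))))
def l19 : Tr := Tr.L (Pth.r (Pth.r (Pth.r (Pth.r (Pth.l Pth.z)))))
def l20 : Tr := Tr.L (Pth.r (Pth.r (Pth.r (Pth.r (Pth.r Pth.z)))))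
end T4
def b5_0 : Bx := Bx.mk (St.mk (I.pos (nat_lit 160514048) (nat_lit 227098624)) (I.mix (nat_lit 278528) (nat_lit 48168960)) (I.mix (nat_lit 278528) (nat_lit 116686848)) (I.pos (nat_lit 141852672) (nat_lit 237961216)) (I.mix (nat_lit 99008512) (nat_lit 51740672)) (I.mix (nat_lit 75956224) (nat_lit 62095360)) (I.mix (nat_lit 104841216) (nat_lit 73269248)))
  false (nat_lit 38536855)
def b5_1 : Bx := Bx.mk (St.mk (I.pos (nat_lit 110198784) (nat_lit 168869888)) (I.neg (nat_lit 5898240) (nat_lit 59670528)) (I.mix (nat_lit 35078144) (nat_lit 29458432)) (I.pos (nat_lit 105316352) (nat_lit 164708352)) (I.mix (nat_lit 64880640) (nat_lit 61243392)) (I.mix (nat_lit 48431104) (nat_lit 56623104)) (I.mix (nat_lit 43155456) (nat_lit 55214080)))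
  false (nat_lit 23184398)
def b5_2 : Bx := Bx.mk (St.mk (I.mix (nat_lit 16891904) (nat_lit 79216640)) (I.mix (nat_lit 31883264) (nat_lit 3211264)) (I.mix (nat_lit 3948544) (nat_lit 18284544)) (I.pos (nat_lit 42418176) (nat_lit 86392832)) (I.mix (nat_lit 26853376) (nat_lit 36798464)) (I.mix (nat_lit 21250048) (nat_lit 28835840)) (I.mix (nat_lit 11452416) (nat_lit 15925248)))
  false (nat_lit 2895732)
def b5_3 : Bx := Bx.mk (St.mk (I.pos (nat_lit 153239552) (nat_lit 206045184)) (I.mix (nat_lit 10944512) (nat_lit 52559872)) (I.pos (nat_lit 28164096) (nat_lit 114032640)) (I.pos (nat_lit 132694016) (nat_lit 214122496)) (I.mix (nat_lit 144343040) (nat_lit 50593792)) (I.mix (nat_lit 127188992) (nat_lit 70795264)) (I.mix (nat_lit 149946368) (nat_lit 55590912)))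
  false (nat_lit 48087466)
def b5_4 : Bx := Bx.mk (St.mk (I.mix (nat_lit 31621120) (nat_lit 99434496)) (I.mix (nat_lit 12189696) (nat_lit 31031296)) (I.pos (nat_lit 2441216) (nat_lit 37470208)) (I.pos (nat_lit 42713088) (nat_lit 99778560)) (I.mix (nat_lit 58179584) (nat_lit 32456704)) (I.mix (nat_lit 51101696) (nat_lit 29589504)) (I.mix (nat_lit 30261248) (nat_lit 16695296)))
  false (nat_lit 0)
def b5_5 : Bx := Bx.mk (St.mk (I.pos (nat_lit 138870784) (nat_lit 178110464)) (I.neg (nat_lit 196608) (nat_lit 41680896)) (I.mix (nat_lit 4882432) (nat_lit 41484288)) (I.pos (nat_lit 121438208) (nat_lit 176029696)) (I.mix (nat_lit 52527104) (nat_lit 54018048)) (I.mix (nat_lit 34979840) (nat_lit 44449792)) (I.mix (nat_lit 40681472) (nat_lit 40550400)))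
  false (nat_lit 6103487)
def b5_6 : Bx := Bx.mk (St.mk (I.mix (nat_lit 42106880) (nat_lit 83918848)) (I.mix (nat_lit 18186240) (nat_lit 8011776)) (I.pos (nat_lit 2490368) (nat_lit 20135936)) (I.pos (nat_lit 43106304) (nat_lit 88850432)) (I.mix (nat_lit 26984448) (nat_lit 24018944)) (I.mix (nat_lit 18956288) (nat_lit 21118976)) (I.mix (nat_lit 11550720) (nat_lit 10534912)))
  false (nat_lit 0)
def b5_7 : Bx := Bx.mk (St.mk (I.pos (nat_lit 153157632) (nat_lit 187351040)) (I.neg (nat_lit 9830400) (nat_lit 40271872)) (I.mix (nat_lit 6701056) (nat_lit 29966336)) (I.pos (nat_lit 135004160) (nat_lit 189939712)) (I.mix (nat_lit 47038464) (nat_lit 53182464)) (I.mix (nat_lit 49807360) (nat_lit 39567360)) (I.mix (nat_lit 47300608) (nat_lit 39272448)))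
  false (nat_lit 13366791)
def b5_8 : Bx := Bx.mk (St.mk (I.pos (nat_lit 157319168) (nat_lit 202080256)) (I.mix (nat_lit 40599552) (nat_lit 5914624)) (I.mix (nat_lit 4128768) (nat_lit 54280192)) (I.pos (nat_lit 138379264) (nat_lit 208175104)) (I.mix (nat_lit 57835520) (nat_lit 73416704)) (I.mix (nat_lit 66224128) (nat_lit 64733184)) (I.mix (nat_lit 61128704) (nat_lit 63143936)))
  false (nat_lit 42754042)
def b5_9 : Bx := Bx.mk (St.mk (I.pos (nat_lit 151404544) (nat_lit 201555968)) (I.mix (nat_lit 30130176) (nat_lit 28131328)) (I.pos (nat_lit 8585216) (nat_lit 83705856)) (I.pos (nat_lit 129335296) (nat_lit 203751424)) (I.mix (nat_lit 134938624) (nat_lit 81920000)) (I.mix (nat_lit 132612096) (nat_lit 80232448)) (I.mix (nat_lit 143998976) (nat_lit 70156288)))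
  false (nat_lit 69201934)
def b5_10 : Bx := Bx.mk (St.mk (I.mix (nat_lit 32997376) (nat_lit 116457472)) (I.mix (nat_lit 8404992) (nat_lit 25591808)) (I.pos (nat_lit 3686400) (nat_lit 31916032)) (I.pos (nat_lit 36257792) (nat_lit 112787456)) (I.mix (nat_lit 40845312) (nat_lit 33751040)) (I.mix (nat_lit 40910848) (nat_lit 22675456)) (I.mix (nat_lit 28803072) (nat_lit 15171584)))
  false (nat_lit 0)
def b5_11 : Bx := Bx.mk (St.mk (I.pos (nat_lit 95518720) (nat_lit 147980288)) (I.mix (nat_lit 59768832) (nat_lit 11550720)) (I.mix (nat_lit 31883264) (nat_lit 25722880)) (I.pos (nat_lit 79101952) (nat_lit 142868480)) (I.mix (nat_lit 73940992) (nat_lit 51118080)) (I.mix (nat_lit 44646400) (nat_lit 74399744)) (I.mix (nat_lit 30294016) (nat_lit 52199424)))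
  false (nat_lit 0)
def b5_12 : Bx := Bx.mk (St.mk (I.mix (nat_lit 24952832) (nat_lit 73105408)) (I.mix (nat_lit 32538624) (nat_lit 5095424)) (I.mix (nat_lit 2867200) (nat_lit 14254080)) (I.pos (nat_lit 41910272) (nat_lit 84721664)) (I.mix (nat_lit 28459008) (nat_lit 28704768)) (I.mix (nat_lit 19120128) (nat_lit 31703040)) (I.mix (nat_lit 7798784) (nat_lit 11714560)))
  false (nat_lit 0)
def b5_13 : Bx := Bx.mk (St.mk (I.pos (nat_lit 193118208) (nat_lit 234242048)) (I.pos (nat_lit 1294336) (nat_lit 27983872)) (I.pos (nat_lit 34537472) (nat_lit 87130112)) (I.pos (nat_lit 197115904) (nat_lit 252985344)) (I.mix (nat_lit 81362944) (nat_lit 36945920)) (I.mix (nat_lit 56295424) (nat_lit 37224448)) (I.mix (nat_lit 87752704) (nat_lit 49201152)))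
  false (nat_lit 0)
def b5_14 : Bx := Bx.mk (St.mk (I.pos (nat_lit 209715200) (nat_lit 272547840)) (I.mix (nat_lit 14712832) (nat_lit 27361280)) (I.pos (nat_lit 10665984) (nat_lit 88866816)) (I.pos (nat_lit 221151232) (nat_lit 335298560)) (I.mix (nat_lit 53854208) (nat_lit 31686656)) (I.mix (nat_lit 32636928) (nat_lit 33652736)) (I.mix (nat_lit 58408960) (nat_lit 50757632)))
  false (nat_lit 2541711)
def b5_15 : Bx := Bx.mk (St.mk (I.pos (nat_lit 177471488) (nat_lit 225017856)) (I.pos (nat_lit 9895936) (nat_lit 46792704)) (I.pos (nat_lit 47955968) (nat_lit 114868224)) (I.pos (nat_lit 177750016) (nat_lit 234618880)) (I.mix (nat_lit 99532800) (nat_lit 76464128)) (I.mix (nat_lit 93126656) (nat_lit 64339968)) (I.mix (nat_lit 139395072) (nat_lit 77807616)))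
  false (nat_lit 39422976)
def b5_16 : Bx := Bx.mk (St.mk (I.pos (nat_lit 205062144) (nat_lit 280412160)) (I.mix (nat_lit 10862592) (nat_lit 36995072)) (I.pos (nat_lit 15106048) (nat_lit 105234432)) (I.pos (nat_lit 214188032) (nat_lit 352419840)) (I.mix (nat_lit 65847296) (nat_lit 68239360)) (I.mix (nat_lit 68911104) (nat_lit 51609600)) (I.mix (nat_lit 113803264) (nat_lit 81985536)))
  false (nat_lit 38514689)
def b5_17 : Bx := Bx.mk (St.mk (I.pos (nat_lit 201867264) (nat_lit 237518848)) (I.pos (nat_lit 12517376) (nat_lit 35225600)) (I.pos (nat_lit 52903936) (nat_lit 100352000)) (I.pos (nat_lit 210092032) (nat_lit 258523136)) (I.mix (nat_lit 64372736) (nat_lit 24264704)) (I.mix (nat_lit 43040768) (nat_lit 23609344)) (I.mix (nat_lit 73154560) (nat_lit 30900224)))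
  false (nat_lit 0)
def b5_18 : Bx := Bx.mk (St.mk (I.pos (nat_lit 195264512) (nat_lit 237912064)) (I.pos (nat_lit 245760) (nat_lit 32833536)) (I.pos (nat_lit 32276480) (nat_lit 97206272)) (I.pos (nat_lit 199868416) (nat_lit 259457024)) (I.mix (nat_lit 77135872) (nat_lit 48480256)) (I.mix (nat_lit 55377920) (nat_lit 46284800)) (I.mix (nat_lit 86425600) (nat_lit 65585152)))
  false (nat_lit 9499288)
def b5_19 : Bx := Bx.mk (St.mk (I.pos (nat_lit 237125632) (nat_lit 284377088)) (I.mix (nat_lit 27262976) (nat_lit 19398656)) (I.mix (nat_lit 7094272) (nat_lit 79134720)) (I.pos (nat_lit 261128192) (nat_lit 357203968)) (I.mix (nat_lit 47251456) (nat_lit 38436864)) (I.mix (nat_lit 34308096) (nat_lit 36225024)) (I.mix (nat_lit 60932096) (nat_lit 53493760)))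
  false (nat_lit 17321341)
def b5_20 : Bx := Bx.mk (St.mk (I.pos (nat_lit 191479808) (nat_lit 227966976)) (I.pos (nat_lit 6979584) (nat_lit 31784960)) (I.pos (nat_lit 43433984) (nat_lit 92602368)) (I.pos (nat_lit 196296704) (nat_lit 239763456)) (I.mix (nat_lit 72253440) (nat_lit 27738112)) (I.mix (nat_lit 46366720) (nat_lit 28295168)) (I.mix (nat_lit 72613888) (nat_lit 33783808)))
  false (nat_lit 0)
def t5 : BTr := (BTr.n (BTr.n (BTr.n (BTr.n (BTr.b b5_0) (BTr.b b5_1)) (BTr.n (BTr.b b5_2) (BTr.n (BTr.b b5_3) (BTr.b b5_4)))) (BTr.n (BTr.n (BTr.b b5_5) (BTr.b b5_6)) (BTr.n (BTr.b b5_7) (BTr.n (BTr.b b5_8) (BTr.b b5_9))))) (BTr.n (BTr.n (BTr.n (BTr.b b5_10) (BTr.b b5_11)) (BTr.n (BTr.b b5_12) (BTr.n (BTr.b b5_13) (BTr.b b5_14)))) (BTr.n (BTr.n (BTr.b b5_15) (BTr.n (BTr.b b5_16) (BTr.b b5_17))) (BTr.n (BTr.b b5_18) (BTr.n (BTr.b b5_19) (BTr.b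 b5_20))))))
namespace T5
def l0 : Tr := Tr.L (Pth.l (Pth.l (Pth.l (Pth.l Pth.z))))
def l1 : Tr := Tr.L (Pth.l (Pth.l (Pth.l (Pth.r Pth.z))))
def l2 : Tr := Tr.L (Pth.l (Pth.l (Pth.r (Pth.l Pth.z))))
def l3 : Tr := Tr.L (Pth.l (Pth.l (Pth.r (Pth.r (Pth.l Pth.z)))))
def l4 : Tr := Tr.L (Pth.l (Pth.l (Pth.r (Pth.r (Pth.r Pth.z)))))
def l5 : Tr := Tr.L (Pth.l (Pth.r (Pth.l (Pth.l Pth.z))))
def l6 : Tr := Tr.L (Pth.l (Pth.r (Pth.l (Pth.r Pth.z))))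
def l7 : Tr := Tr.L (Pth.l (Pth.r (Pth.r (Pth.l Pth.z))))
def l8 : Tr := Tr.L (Pth.l (Pth.r (Pth.r (Pth.r (Pth.l Pth.z)))))
def l9 : Tr := Tr.L (Pth.l (Pth.r (Pth.r (Pth.r (Pth.r Pth.z)))))
def l10 : Tr := Tr.L (Pth.r (Pth.l (Pth.l (Pth.l Pth.z))))
def l11 : Tr := Tr.L (Pth.r (Pth.l (Pth.l (Pth.r Pth.z))))
def l12 : Tr := Tr.L (Pth.r (Pth.l (Pth.r (Pth.l Pth.z))))
def l13 : Tr := Tr.L (Pth.r (Pth.l (Pth.r (Pth.r (Pth.l Pth.z)))))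
def l14 : Tr := Tr.L (Pth.r (Pth.l (Pth.r (Pth.r (Pth.r Pth.z)))))
def l15 : Tr := Tr.L (Pth.r (Pth.r (Pth.l (Pth.l Pth.z))))
def l16 : Tr := Tr.L (Pth.r (Pth.r (Pth.l (Pth.r (Pth.l Pth.z)))))
def l17 : Tr := Tr.L (Pth.r (Pth.r (Pth.l (Pth.r (Pth.r Pth.z)))))
def l18 : Tr := Tr.L (Pth.r (Pth.r (Pth.r (Pth.l Pth.z))))
def l19 : Tr := Tr.L (Pth.r (Pth.r (Pth.r (Pth.r (Pth.l Pth.z)))))
def l20 : Tr := Tr.L (Pth.r (Pth.r (Pth.r (Pth.r (Pth.r Pth.z)))))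
end T5
theorem bx0_0 : BoxOK sI cl4 cl7 cl13 t2 t4 b0_0 :=
  box_mk (TrL.c (I.pos (nat_lit 0) (nat_lit 0)) (xa (xb T2.l0 (xa (xb T2.l0 (xa T2.l0 T2.l0)) (xb T2.l0 (xa T2.l0 T2.l0)))) (xb (xa T2.l0 T2.l0) (xa (xb T2.l0 (xa T2.l0 T2.l0)) (xb T2.l0 (xa (xs T2.l0 T2.l0) (xs T2.l0 T2.l0))))))
  (TrL.c (I.pos (nat_lit 0) (nat_lit 0)) (xa T4.l1 (xb T4.l1 (xa T4.l1 T4.l1)))
  (TrL.c (I.pos (nat_lit 0) (nat_lit 0)) T2.l1
  (TrL.c (I.pos (nat_lit 0) (nat_lit 0)) (xa T4.l2 (xb T4.l2 T4.l2))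
  (TrL.c (I.pos (nat_lit 0) (nat_lit 0)) (xa T2.l2 T2.l2)
  (TrL.c (I.pos (nat_lit 0) (nat_lit 0)) (xa T4.l3 (xb T4.l3 (xa T4.l3 T4.l3)))
  TrL.n)))))) (by decide +kernel)
theorem bx0_1 : BoxOK sI cl4 cl7 cl13 t2 t4 b0_1 :=
  box_mk (TrL.c (I.pos (nat_lit 0) (nat_lit 0)) (xa (xa (xb T2.l17 T2.l17) T2.l17) (xa T2.l17 T2.l17))
  (TrL.c (I.pos (nat_lit 0) (nat_lit 0)) T4.l1
  (TrL.c (I.pos (nat_lit 0) (nat_lit 0)) T2.l1
  (TrL.c (I.pos (nat_lit 0) (nat_lit 0)) T4.l2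
  (TrL.c (I.pos (nat_lit 0) (nat_lit 0)) (xa T2.l7 T2.l7)
  (TrL.c (I.pos (nat_lit 0) (nat_lit 0)) T4.l3
  TrL.n)))))) (by decide +kernel)
theorem bx0_2 : BoxOK sI cl4 cl7 cl13 t2 t4 b0_2 :=
  box_mk (TrL.c (I.pos (nat_lit 0) (nat_lit 0)) (xb (xa (xb T2.l8 T2.l8) T2.l8) (xa (xb T2.l8 T2.l8) T2.l8))
  (TrL.c (I.pos (nat_lit 0) (nat_lit 0)) T4.l1
  (TrL.c (I.pos (nat_lit 0) (nat_lit 0)) T2.l1
  (TrL.c (I.pos (nat_lit 0) (nat_lit 0)) T4.l2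
  (TrL.c (I.pos (nat_lit 0) (nat_lit 0)) T2.l9
  (TrL.c (I.pos (nat_lit 0) (nat_lit 0)) T4.l3
  TrL.n)))))) (by decide +kernel)
theorem bx0_3 : BoxOK sI cl4 cl7 cl13 t2 t4 b0_3 :=
  box_mk (TrL.c (I.pos (nat_lit 0) (nat_lit 0)) (xa (xa (xb T2.l17 T2.l17) T2.l17) T2.l6)
  (TrL.c (I.pos (nat_lit 0) (nat_lit 0)) T4.l1
  (TrL.c (I.pos (nat_lit 0) (nat_lit 0)) T2.l1
  (TrL.c (I.pos (nat_lit 0) (nat_lit 0)) T4.l2
  (TrL.c (I.pos (nat_lit 0) (nat_lit 0)) T2.l11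
  (TrL.c (I.pos (nat_lit 0) (nat_lit 0)) T4.l3
  TrL.n)))))) (by decide +kernel)
theorem bx0_4 : BoxOK sI cl4 cl7 cl13 t2 t4 b0_4 :=
  box_mk (TrL.c (I.pos (nat_lit 0) (nat_lit 0)) T2.l17
  (TrL.c (I.pos (nat_lit 0) (nat_lit 0)) T4.l1
  (TrL.c (I.pos (nat_lit 0) (nat_lit 0)) T2.l1
  (TrL.c (I.pos (nat_lit 0) (nat_lit 0)) T4.l2
  (TrL.c (I.pos (nat_lit 0) (nat_lit 0)) T2.l7
  (TrL.c (I.pos (nat_lit 0) (nat_lit 0)) T4.l3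
  TrL.n)))))) (by decide +kernel)
theorem bx0_5 : BoxOK sI cl4 cl7 cl13 t2 t4 b0_5 :=
  box_mk (TrL.c (I.pos (nat_lit 0) (nat_lit 0)) (xa (xa T2.l17 T2.l10) T2.l6)
  (TrL.c (I.pos (nat_lit 0) (nat_lit 0)) T4.l1
  (TrL.c (I.pos (nat_lit 0) (nat_lit 0)) T2.l1
  (TrL.c (I.pos (nat_lit 0) (nat_lit 0)) T4.l2
  (TrL.c (I.pos (nat_lit 0) (nat_lit 0)) T2.l21
  (TrL.c (I.pos (nat_lit 0) (nat_lit 0)) T4.l3
  TrL.n)))))) (by decide +kernel)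
theorem bx0_6 : BoxOK sI cl4 cl7 cl13 t2 t4 b0_6 :=
  box_mk (TrL.c (I.pos (nat_lit 0) (nat_lit 0)) (xa T2.l0 T2.l4)
  (TrL.c (I.pos (nat_lit 0) (nat_lit 0)) (xa T4.l1 T4.l1)
  (TrL.c (I.pos (nat_lit 0) (nat_lit 0)) T2.l1
  (TrL.c (I.pos (nat_lit 0) (nat_lit 0)) (xa T4.l2 (xb (xa T4.l2 T4.l2) T4.l2))
  (TrL.c (I.pos (nat_lit 0) (nat_lit 0)) T2.l2
  (TrL.c (I.pos (nat_lit 0) (nat_lit 0)) (xa T4.l3 T4.l3)
  TrL.n)))))) (by decide +kernel)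
theorem bx0_7 : BoxOK sI cl4 cl7 cl13 t2 t4 b0_7 :=
  box_mk (TrL.c (I.pos (nat_lit 0) (nat_lit 0)) (xa (xb T2.l0 (xa T2.l0 T2.l0)) T2.l4)
  (TrL.c (I.pos (nat_lit 0) (nat_lit 0)) (xa T4.l1 T4.l1)
  (TrL.c (I.pos (nat_lit 0) (nat_lit 0)) T2.l1
  (TrL.c (I.pos (nat_lit 0) (nat_lit 0)) (xa T4.l2 (xb T4.l2 T4.l2))
  (TrL.c (I.pos (nat_lit 0) (nat_lit 0)) T2.l2
  (TrL.c (I.pos (nat_lit 0) (nat_lit 0)) (xa T4.l3 T4.l3)
  TrL.n)))))) (by decide +kernel)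
theorem bx0_8 : BoxOK sI cl4 cl7 cl13 t2 t4 b0_8 :=
  box_mk (TrL.c (I.pos (nat_lit 0) (nat_lit 0)) (xa (xb (xa T2.l8 T2.l8) T2.l8) (xb (xa (xb T2.l14 T2.l14) T2.l14) (xa (xb T2.l14 T2.l14) T2.l14)))
  (TrL.c (I.pos (nat_lit 0) (nat_lit 0)) T4.l1
  (TrL.c (I.pos (nat_lit 0) (nat_lit 0)) T2.l1
  (TrL.c (I.pos (nat_lit 0) (nat_lit 0)) T4.l2
  (TrL.c (I.pos (nat_lit 0) (nat_lit 0)) T2.l15
  (TrL.c (I.pos (nat_lit 0) (nat_lit 0)) T4.l3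
  TrL.n)))))) (by decide +kernel)
theorem bx0_9 : BoxOK sI cl4 cl7 cl13 t2 t4 b0_9 :=
  box_mk (TrL.c (I.pos (nat_lit 0) (nat_lit 0)) (xa (xa (xb (xa T2.l22 T2.l22) T2.l17) T2.l17) T2.l17)
  (TrL.c (I.pos (nat_lit 0) (nat_lit 0)) T4.l1
  (TrL.c (I.pos (nat_lit 0) (nat_lit 0)) T2.l1
  (TrL.c (I.pos (nat_lit 0) (nat_lit 0)) T4.l2
  (TrL.c (I.pos (nat_lit 0) (nat_lit 0)) (xa T2.l16 T2.l16)
  (TrL.c (I.pos (nat_lit 0) (nat_lit 0)) T4.l3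
  TrL.n)))))) (by decide +kernel)
theorem bx0_10 : BoxOK sI cl4 cl7 cl13 t2 t4 b0_10 :=
  box_mk (TrL.c (I.pos (nat_lit 0) (nat_lit 0)) (xb (xa (xb T2.l19 T2.l19) (xb (xa T2.l19 T2.l19) (xa T2.l19 T2.l19))) (xa (xb (xa T2.l19 T2.l19) (xa (xb T2.l19 T2.l19) T2.l19)) (xb (xa T2.l19 (xb T2.l19 T2.l19)) (xa (xb T2.l19 T2.l19) (xs T2.l19 (xb T2.l19 T2.l19))))))
  (TrL.c (I.pos (nat_lit 0) (nat_lit 0)) (xb (xa T4.l1 T4.l1) (xa T4.l1 T4.l1))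
  (TrL.c (I.pos (nat_lit 0) (nat_lit 0)) (xb T2.l1 T2.l1)
  (TrL.c (I.pos (nat_lit 0) (nat_lit 0)) (xb T4.l2 (xa T4.l2 (xb T4.l2 T4.l2)))
  (TrL.c (I.pos (nat_lit 0) (nat_lit 0)) (xb T2.l20 T2.l20)
  (TrL.c (I.pos (nat_lit 0) (nat_lit 0)) (xb (xa T4.l3 T4.l3) (xa T4.l3 T4.l3))
  TrL.n)))))) (by decide +kernel)
theorem bx0_11 : BoxOK sI cl4 cl7 cl13 t2 t4 b0_11 :=
  box_mk (TrL.c (I.pos (nat_lit 0) (nat_lit 0)) (xa (xa (xb (xa (xb T2.l17 T2.l17) T2.l17) (xa (xb T2.l17 T2.l17) T2.l17)) (xb T2.l17 (xa T2.l17 T2.l17))) (xa T2.l17 T2.l17))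
  (TrL.c (I.pos (nat_lit 0) (nat_lit 0)) (xa T4.l1 T4.l1)
  (TrL.c (I.pos (nat_lit 0) (nat_lit 0)) T2.l1
  (TrL.c (I.pos (nat_lit 0) (nat_lit 0)) (xa T4.l2 T4.l2)
  (TrL.c (I.pos (nat_lit 0) (nat_lit 0)) (xa T2.l21 (xa T2.l21 T2.l21))
  (TrL.c (I.pos (nat_lit 0) (nat_lit 0)) (xa T4.l3 T4.l3)
  TrL.n)))))) (by decide +kernel)
theorem bx0_12 : BoxOK sI cl4 cl7 cl13 t2 t4 b0_12 :=
  box_mk (TrL.c (I.pos (nat_lit 0) (nat_lit 0)) (xa (xb (xa (xb T2.l0 T2.l0) (xb T2.l0 T2.l0)) (xa (xb T2.l0 (xs T2.l0 T2.l0)) (xb T2.l0 (xs T2.l0 T2.l0)))) (xb (xa T2.l4 T2.l4) (xa (xb T2.l0 (xs T2.l0 T2.l0)) (xb (xs T2.l0 T2.l0) (xs T2.l0 (xa T2.l0 T2.l0))))))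
  (TrL.c (I.pos (nat_lit 0) (nat_lit 0)) (xa T4.l1 (xb T4.l1 (xa T4.l1 T4.l1)))
  (TrL.c (I.pos (nat_lit 0) (nat_lit 0)) (xa T2.l1 T2.l1)
  (TrL.c (I.pos (nat_lit 0) (nat_lit 0)) (xa T4.l2 (xb (xa T4.l2 T4.l2) (xa T4.l2 (xb T4.l2 (xs T4.l2 T4.l2)))))
  (TrL.c (I.pos (nat_lit 0) (nat_lit 0)) (xa T2.l2 T2.l3)
  (TrL.c (I.pos (nat_lit 0) (nat_lit 0)) (xa T4.l3 (xb T4.l3 (xa T4.l3 T4.l3)))
  TrL.n)))))) (by decide +kernel)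
theorem bx0_13 : BoxOK sI cl4 cl7 cl13 t2 t4 b0_13 :=
  box_mk (TrL.c (I.pos (nat_lit 0) (nat_lit 0)) (xb T2.l19 T2.l19)
  (TrL.c (I.pos (nat_lit 0) (nat_lit 0)) T4.l1
  (TrL.c (I.pos (nat_lit 0) (nat_lit 0)) T2.l1
  (TrL.c (I.pos (nat_lit 0) (nat_lit 0)) T4.l2
  (TrL.c (I.pos (nat_lit 0) (nat_lit 0)) T2.l3
  (TrL.c (I.pos (nat_lit 0) (nat_lit 0)) T4.l3
  TrL.n)))))) (by decide +kernel)
theorem bx0_14 : BoxOK sI cl4 cl7 cl13 t2 t4 b0_14 :=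
  box_mk (TrL.c (I.pos (nat_lit 0) (nat_lit 0)) (xa (xb T2.l14 T2.l19) T2.l19)
  (TrL.c (I.pos (nat_lit 0) (nat_lit 0)) T4.l1
  (TrL.c (I.pos (nat_lit 0) (nat_lit 0)) T2.l1
  (TrL.c (I.pos (nat_lit 0) (nat_lit 0)) T4.l2
  (TrL.c (I.pos (nat_lit 0) (nat_lit 0)) T2.l20
  (TrL.c (I.pos (nat_lit 0) (nat_lit 0)) T4.l3
  TrL.n)))))) (by decide +kernel)
theorem bx0_15 : BoxOK sI cl4 cl7 cl13 t2 t4 b0_15 :=
  box_mk (TrL.c (I.pos (nat_lit 0) (nat_lit 0)) (xb (xa (xb T2.l19 T2.l19) (xb T2.l19 T2.l19)) (xa (xa (xb T2.l19 T2.l19) T2.l19) (xa T2.l19 T2.l19)))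
  (TrL.c (I.pos (nat_lit 0) (nat_lit 0)) (xb T4.l1 (xa T4.l1 T4.l1))
  (TrL.c (I.pos (nat_lit 0) (nat_lit 0)) T2.l1
  (TrL.c (I.pos (nat_lit 0) (nat_lit 0)) (xb (xa T4.l2 T4.l2) T4.l2)
  (TrL.c (I.pos (nat_lit 0) (nat_lit 0)) T2.l3
  (TrL.c (I.pos (nat_lit 0) (nat_lit 0)) (xb T4.l3 (xa T4.l3 T4.l3))
  TrL.n)))))) (by decide +kernel)
theorem bx0_16 : BoxOK sI cl4 cl7 cl13 t2 t4 b0_16 :=
  box_mk (TrL.c (I.pos (nat_lit 0) (nat_lit 0)) (xa (xb T2.l14 T2.l19) (xb T2.l19 T2.l19))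
  (TrL.c (I.pos (nat_lit 0) (nat_lit 0)) T4.l1
  (TrL.c (I.pos (nat_lit 0) (nat_lit 0)) T2.l1
  (TrL.c (I.pos (nat_lit 0) (nat_lit 0)) T4.l2
  (TrL.c (I.pos (nat_lit 0) (nat_lit 0)) T2.l20
  (TrL.c (I.pos (nat_lit 0) (nat_lit 0)) T4.l3
  TrL.n)))))) (by decide +kernel)
theorem bx0_17 : BoxOK sI cl4 cl7 cl13 t2 t4 b0_17 :=
  box_mk (TrL.c (I.pos (nat_lit 0) (nat_lit 0)) T2.l19
  (TrL.c (I.pos (nat_lit 0) (nat_lit 0)) T4.l1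
  (TrL.c (I.pos (nat_lit 0) (nat_lit 0)) T2.l1
  (TrL.c (I.pos (nat_lit 0) (nat_lit 0)) T4.l2
  (TrL.c (I.pos (nat_lit 0) (nat_lit 0)) T2.l20
  (TrL.c (I.pos (nat_lit 0) (nat_lit 0)) T4.l3
  TrL.n)))))) (by decide +kernel)
theorem bx0_18 : BoxOK sI cl4 cl7 cl13 t2 t4 b0_18 :=
  box_mk (TrL.c (I.pos (nat_lit 0) (nat_lit 0)) T2.l19
  (TrL.c (I.pos (nat_lit 0) (nat_lit 0)) T4.l1
  (TrL.c (I.pos (nat_lit 0) (nat_lit 0)) T2.l1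
  (TrL.c (I.pos (nat_lit 0) (nat_lit 0)) T4.l2
  (TrL.c (I.pos (nat_lit 0) (nat_lit 0)) T2.l20
  (TrL.c (I.pos (nat_lit 0) (nat_lit 0)) T4.l3
  TrL.n)))))) (by decide +kernel)
theorem bx0_19 : BoxOK sI cl4 cl7 cl13 t2 t4 b0_19 :=
  box_mk (TrL.c (I.pos (nat_lit 0) (nat_lit 0)) (xb T2.l19 T2.l19)
  (TrL.c (I.pos (nat_lit 0) (nat_lit 0)) T4.l1
  (TrL.c (I.pos (nat_lit 0) (nat_lit 0)) T2.l1
  (TrL.c (I.pos (nat_lit 0) (nat_lit 0)) T4.l2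
  (TrL.c (I.pos (nat_lit 0) (nat_lit 0)) T2.l3
  (TrL.c (I.pos (nat_lit 0) (nat_lit 0)) T4.l3
  TrL.n)))))) (by decide +kernel)
theorem bx0_20 : BoxOK sI cl4 cl7 cl13 t2 t4 b0_20 :=
  box_mk (TrL.c (I.pos (nat_lit 0) (nat_lit 0)) (xa (xb T2.l14 T2.l19) (xb (xa T2.l19 T2.l19) T2.l19))
  (TrL.c (I.pos (nat_lit 0) (nat_lit 0)) T4.l1
  (TrL.c (I.pos (nat_lit 0) (nat_lit 0)) T2.l1
  (TrL.c (I.pos (nat_lit 0) (nat_lit 0)) T4.l2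
  (TrL.c (I.pos (nat_lit 0) (nat_lit 0)) T2.l20
  (TrL.c (I.pos (nat_lit 0) (nat_lit 0)) T4.l3
  TrL.n)))))) (by decide +kernel)
theorem sv0 : StarV sI cl4 cl7 cl13 t2 t4 t0 :=
  (bt_n (bt_n (bt_n (bt_n (bt_b bx0_0) (bt_b bx0_1)) (bt_n (bt_b bx0_2) (bt_n (bt_b bx0_3) (bt_b bx0_4)))) (bt_n (bt_n (bt_b bx0_5) (bt_b bx0_6)) (bt_n (bt_b bx0_7) (bt_n (bt_b bx0_8) (bt_b bx0_9))))) (bt_n (bt_n (bt_n (bt_b bx0_10) (bt_b bx0_11)) (bt_n (bt_b bx0_12) (bt_n (bt_b bx0_13) (bt_b bx0_14)))) (bt_n (bt_n (bt_b bx0_15) (bt_n (bt_b bx0_16) (bt_b bx0_17))) (bt_n (bt_b bx0_18) (bt_n (bt_b bx0_19) (bt_b bx0_20))))))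
def S0 : StarD := StarD.mk cl4 cl7 cl13 2 4 t0
theorem bx1_0 : BoxOK sI cl4 cl13 cl7 t4 t2 b1_0 :=
  box_mk (TrL.c (I.pos (nat_lit 0) (nat_lit 0)) (xa (xb (xa T4.l0 T4.l0) (xa (xb T4.l0 (xa (xs T4.l0 T4.l0) T4.l0)) (xb T4.l0 (xa T4.l0 (xs T4.l0 T4.l0))))) (xb (xa T4.l0 T4.l0) (xa (xb T4.l0 (xa (xs T4.l0 T4.l0) (xs T4.l0 T4.l0))) (xb T4.l0 (xa (xs T4.l0 T4.l0) (xs T4.l0 T4.l0))))))
  (TrL.c (I.pos (nat_lit 0) (nat_lit 0)) (xa T2.l3 (xb T2.l3 (xa T2.l3 T2.l3)))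
  (TrL.c (I.pos (nat_lit 0) (nat_lit 0)) T4.l4
  (TrL.c (I.pos (nat_lit 0) (nat_lit 0)) (xa T2.l4 T2.l4)
  (TrL.c (I.pos (nat_lit 0) (nat_lit 0)) (xa T4.l5 T4.l5)
  (TrL.c (I.pos (nat_lit 0) (nat_lit 0)) (xa T2.l5 (xb T2.l5 (xa T2.l5 T2.l5)))
  TrL.n)))))) (by decide +kernel)
theorem bx1_1 : BoxOK sI cl4 cl13 cl7 t4 t2 b1_1 :=
  box_mk (TrL.c (I.pos (nat_lit 0) (nat_lit 0)) (xa (xa T4.l19 T4.l19) (xa T4.l19 (xa T4.l6 T4.l19)))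
  (TrL.c (I.pos (nat_lit 0) (nat_lit 0)) T2.l3
  (TrL.c (I.pos (nat_lit 0) (nat_lit 0)) T4.l4
  (TrL.c (I.pos (nat_lit 0) (nat_lit 0)) T2.l4
  (TrL.c (I.pos (nat_lit 0) (nat_lit 0)) T4.l20
  (TrL.c (I.pos (nat_lit 0) (nat_lit 0)) T2.l5
  TrL.n)))))) (by decide +kernel)
theorem bx1_2 : BoxOK sI cl4 cl13 cl7 t4 t2 b1_2 :=
  box_mk (TrL.c (I.pos (nat_lit 0) (nat_lit 0)) (xb (xa (xb T4.l8 T4.l8) T4.l8) (xa (xb T4.l8 T4.l8) T4.l8))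
  (TrL.c (I.pos (nat_lit 0) (nat_lit 0)) T2.l3
  (TrL.c (I.pos (nat_lit 0) (nat_lit 0)) T4.l4
  (TrL.c (I.pos (nat_lit 0) (nat_lit 0)) T2.l4
  (TrL.c (I.pos (nat_lit 0) (nat_lit 0)) T4.l9
  (TrL.c (I.pos (nat_lit 0) (nat_lit 0)) T2.l5
  TrL.n)))))) (by decide +kernel)
theorem bx1_3 : BoxOK sI cl4 cl13 cl7 t4 t2 b1_3 :=
  box_mk (TrL.c (I.pos (nat_lit 0) (nat_lit 0)) (xa (xa (xa T4.l10 T4.l10) T4.l10) T4.l6)
  (TrL.c (I.pos (nat_lit 0) (nat_lit 0)) (xa T2.l3 T2.l3)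
  (TrL.c (I.pos (nat_lit 0) (nat_lit 0)) T4.l4
  (TrL.c (I.pos (nat_lit 0) (nat_lit 0)) T2.l4
  (TrL.c (I.pos (nat_lit 0) (nat_lit 0)) T4.l11
  (TrL.c (I.pos (nat_lit 0) (nat_lit 0)) (xa T2.l5 T2.l5)
  TrL.n)))))) (by decide +kernel)
theorem bx1_4 : BoxOK sI cl4 cl13 cl7 t4 t2 b1_4 :=
  box_mk (TrL.c (I.pos (nat_lit 0) (nat_lit 0)) (xa (xb T4.l0 (xa T4.l0 T4.l0)) (xb T4.l2 T4.l2))
  (TrL.c (I.pos (nat_lit 0) (nat_lit 0)) (xa T2.l3 T2.l3)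
  (TrL.c (I.pos (nat_lit 0) (nat_lit 0)) T4.l3
  (TrL.c (I.pos (nat_lit 0) (nat_lit 0)) (xa T2.l4 (xb T2.l4 T2.l4))
  (TrL.c (I.pos (nat_lit 0) (nat_lit 0)) T4.l1
  (TrL.c (I.pos (nat_lit 0) (nat_lit 0)) (xa T2.l5 T2.l5)
  TrL.n)))))) (by decide +kernel)
theorem bx1_5 : BoxOK sI cl4 cl13 cl7 t4 t2 b1_5 :=
  box_mk (TrL.c (I.pos (nat_lit 0) (nat_lit 0)) (xa (xb (xa (xb T4.l0 T4.l0) (xb T4.l0 T4.l0)) (xa (xb (xs T4.l0 (xa T4.l0 T4.l0)) (xs T4.l0 (xa T4.l0 T4.l0))) (xb (xs T4.l0 T4.l0) (xs T4.l0 (xa T4.l0 T4.l0))))) (xb (xa T4.l2 T4.l2) (xa (xb (xs T4.l0 T4.l0) (xs T4.l0 (xa T4.l0 T4.l0))) (xb (xs T4.l0 T4.l0) (xs T4.l0 (xa T4.l0 T4.l0))))))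
  (TrL.c (I.pos (nat_lit 0) (nat_lit 0)) (xa (xb T2.l3 T2.l3) (xb T2.l3 (xa T2.l3 (xs T2.l3 T2.l3))))
  (TrL.c (I.pos (nat_lit 0) (nat_lit 0)) (xa T4.l4 T4.l4)
  (TrL.c (I.pos (nat_lit 0) (nat_lit 0)) (xa T2.l4 (xb (xa T2.l4 (xb T2.l4 T2.l4)) (xa T2.l4 (xb T2.l4 T2.l4))))
  (TrL.c (I.pos (nat_lit 0) (nat_lit 0)) (xa T4.l1 T4.l5)
  (TrL.c (I.pos (nat_lit 0) (nat_lit 0)) (xa (xb T2.l5 T2.l5) (xb (xa T2.l5 T2.l5) (xa T2.l5 (xs T2.l5 T2.l5))))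
  TrL.n)))))) (by decide +kernel)
theorem bx1_6 : BoxOK sI cl4 cl13 cl7 t4 t2 b1_6 :=
  box_mk (TrL.c (I.pos (nat_lit 0) (nat_lit 0)) T4.l19
  (TrL.c (I.pos (nat_lit 0) (nat_lit 0)) T2.l3
  (TrL.c (I.pos (nat_lit 0) (nat_lit 0)) T4.l4
  (TrL.c (I.pos (nat_lit 0) (nat_lit 0)) T2.l4
  (TrL.c (I.pos (nat_lit 0) (nat_lit 0)) T4.l11
  (TrL.c (I.pos (nat_lit 0) (nat_lit 0)) T2.l5
  TrL.n)))))) (by decide +kernel)
theorem bx1_7 : BoxOK sI cl4 cl13 cl7 t4 t2 b1_7 :=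
  box_mk (TrL.c (I.pos (nat_lit 0) (nat_lit 0)) T4.l19
  (TrL.c (I.pos (nat_lit 0) (nat_lit 0)) T2.l3
  (TrL.c (I.pos (nat_lit 0) (nat_lit 0)) T4.l4
  (TrL.c (I.pos (nat_lit 0) (nat_lit 0)) T2.l4
  (TrL.c (I.pos (nat_lit 0) (nat_lit 0)) T4.l7
  (TrL.c (I.pos (nat_lit 0) (nat_lit 0)) T2.l5
  TrL.n)))))) (by decide +kernel)
theorem bx1_8 : BoxOK sI cl4 cl13 cl7 t4 t2 b1_8 :=
  box_mk (TrL.c (I.pos (nat_lit 0) (nat_lit 0)) (xa T4.l0 T4.l2)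
  (TrL.c (I.pos (nat_lit 0) (nat_lit 0)) (xa T2.l3 T2.l3)
  (TrL.c (I.pos (nat_lit 0) (nat_lit 0)) T4.l3
  (TrL.c (I.pos (nat_lit 0) (nat_lit 0)) (xa T2.l4 T2.l4)
  (TrL.c (I.pos (nat_lit 0) (nat_lit 0)) T4.l1
  (TrL.c (I.pos (nat_lit 0) (nat_lit 0)) (xa T2.l5 T2.l5)
  TrL.n)))))) (by decide +kernel)
theorem bx1_9 : BoxOK sI cl4 cl13 cl7 t4 t2 b1_9 :=
  box_mk (TrL.c (I.pos (nat_lit 0) (nat_lit 0)) (xa (xb (xa T4.l13 T4.l8) T4.l8) T4.l0)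
  (TrL.c (I.pos (nat_lit 0) (nat_lit 0)) T2.l3
  (TrL.c (I.pos (nat_lit 0) (nat_lit 0)) T4.l4
  (TrL.c (I.pos (nat_lit 0) (nat_lit 0)) T2.l4
  (TrL.c (I.pos (nat_lit 0) (nat_lit 0)) T4.l14
  (TrL.c (I.pos (nat_lit 0) (nat_lit 0)) T2.l5
  TrL.n)))))) (by decide +kernel)
theorem bx1_10 : BoxOK sI cl4 cl13 cl7 t4 t2 b1_10 :=
  box_mk (TrL.c (I.pos (nat_lit 0) (nat_lit 0)) (xa (xa (xb T4.l15 T4.l15) T4.l15) T4.l19)
  (TrL.c (I.pos (nat_lit 0) (nat_lit 0)) (xa T2.l3 T2.l3)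
  (TrL.c (I.pos (nat_lit 0) (nat_lit 0)) T4.l4
  (TrL.c (I.pos (nat_lit 0) (nat_lit 0)) T2.l4
  (TrL.c (I.pos (nat_lit 0) (nat_lit 0)) (xa T4.l16 T4.l16)
  (TrL.c (I.pos (nat_lit 0) (nat_lit 0)) (xa T2.l5 T2.l5)
  TrL.n)))))) (by decide +kernel)
theorem bx1_11 : BoxOK sI cl4 cl13 cl7 t4 t2 b1_11 :=
  box_mk (TrL.c (I.pos (nat_lit 0) (nat_lit 0)) (xb (xa (xb (xa T4.l17 T4.l17) (xa T4.l17 T4.l17)) (xb (xa T4.l17 T4.l2) (xa T4.l17 T4.l2))) (xa (xb (xa (xb T4.l17 T4.l17) T4.l17) (xa (xs T4.l17 (xb T4.l17 T4.l17)) (xs T4.l17 T4.l17))) (xb (xa T4.l17 (xs T4.l17 T4.l2)) (xa (xs T4.l17 (xb T4.l17 T4.l17)) (xs T4.l17 (xb T4.l17 T4.l17))))))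
  (TrL.c (I.pos (nat_lit 0) (nat_lit 0)) (xb (xa T2.l3 T2.l3) (xa T2.l3 (xb T2.l3 T2.l3)))
  (TrL.c (I.pos (nat_lit 0) (nat_lit 0)) (xb T4.l4 T4.l4)
  (TrL.c (I.pos (nat_lit 0) (nat_lit 0)) (xb T2.l4 (xa T2.l4 (xb T2.l4 T2.l4)))
  (TrL.c (I.pos (nat_lit 0) (nat_lit 0)) (xb T4.l18 T4.l18)
  (TrL.c (I.pos (nat_lit 0) (nat_lit 0)) (xb (xa T2.l5 T2.l5) (xa T2.l5 (xb T2.l5 T2.l5)))
  TrL.n)))))) (by decide +kernel)
theorem bx1_12 : BoxOK sI cl4 cl13 cl7 t4 t2 b1_12 :=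
  box_mk (TrL.c (I.pos (nat_lit 0) (nat_lit 0)) (xa (xa (xb (xa T4.l19 T4.l19) (xa T4.l19 T4.l19)) T4.l19) (xa (xb T4.l19 T4.l19) (xb (xa T4.l19 T4.l19) (xa T4.l19 T4.l19))))
  (TrL.c (I.pos (nat_lit 0) (nat_lit 0)) (xa T2.l3 T2.l3)
  (TrL.c (I.pos (nat_lit 0) (nat_lit 0)) T4.l4
  (TrL.c (I.pos (nat_lit 0) (nat_lit 0)) T2.l4
  (TrL.c (I.pos (nat_lit 0) (nat_lit 0)) (xa T4.l20 T4.l20)
  (TrL.c (I.pos (nat_lit 0) (nat_lit 0)) (xa T2.l5 T2.l5)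
  TrL.n)))))) (by decide +kernel)
theorem bx1_13 : BoxOK sI cl4 cl13 cl7 t4 t2 b1_13 :=
  box_mk (TrL.c (I.pos (nat_lit 0) (nat_lit 0)) T4.l0
  (TrL.c (I.pos (nat_lit 0) (nat_lit 0)) T2.l3
  (TrL.c (I.pos (nat_lit 0) (nat_lit 0)) T4.l4
  (TrL.c (I.pos (nat_lit 0) (nat_lit 0)) T2.l4
  (TrL.c (I.pos (nat_lit 0) (nat_lit 0)) T4.l18
  (TrL.c (I.pos (nat_lit 0) (nat_lit 0)) T2.l5
  TrL.n)))))) (by decide +kernel)
theorem bx1_14 : BoxOK sI cl4 cl13 cl7 t4 t2 b1_14 :=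
  box_mk (TrL.c (I.pos (nat_lit 0) (nat_lit 0)) T4.l0
  (TrL.c (I.pos (nat_lit 0) (nat_lit 0)) T2.l3
  (TrL.c (I.pos (nat_lit 0) (nat_lit 0)) T4.l4
  (TrL.c (I.pos (nat_lit 0) (nat_lit 0)) T2.l4
  (TrL.c (I.pos (nat_lit 0) (nat_lit 0)) T4.l18
  (TrL.c (I.pos (nat_lit 0) (nat_lit 0)) T2.l5
  TrL.n)))))) (by decide +kernel)
theorem bx1_15 : BoxOK sI cl4 cl13 cl7 t4 t2 b1_15 :=
  box_mk (TrL.c (I.pos (nat_lit 0) (nat_lit 0)) (xb (xa (xb T4.l17 T4.l17) (xb (xa T4.l17 T4.l2) (xa T4.l17 T4.l17))) (xa (xb T4.l17 (xa T4.l17 T4.l17)) (xb (xa T4.l17 T4.l17) (xa T4.l17 (xs T4.l17 T4.l17)))))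
  (TrL.c (I.pos (nat_lit 0) (nat_lit 0)) (xb T2.l3 T2.l3)
  (TrL.c (I.pos (nat_lit 0) (nat_lit 0)) T4.l4
  (TrL.c (I.pos (nat_lit 0) (nat_lit 0)) (xb (xa T2.l4 (xb T2.l4 T2.l4)) T2.l4)
  (TrL.c (I.pos (nat_lit 0) (nat_lit 0)) (xb T4.l18 T4.l18)
  (TrL.c (I.pos (nat_lit 0) (nat_lit 0)) (xb (xa T2.l5 T2.l5) (xa T2.l5 T2.l5))
  TrL.n)))))) (by decide +kernel)
theorem bx1_16 : BoxOK sI cl4 cl13 cl7 t4 t2 b1_16 :=
  box_mk (TrL.c (I.pos (nat_lit 0) (nat_lit 0)) T4.l0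
  (TrL.c (I.pos (nat_lit 0) (nat_lit 0)) T2.l3
  (TrL.c (I.pos (nat_lit 0) (nat_lit 0)) T4.l4
  (TrL.c (I.pos (nat_lit 0) (nat_lit 0)) T2.l4
  (TrL.c (I.pos (nat_lit 0) (nat_lit 0)) T4.l1
  (TrL.c (I.pos (nat_lit 0) (nat_lit 0)) T2.l5
  TrL.n)))))) (by decide +kernel)
theorem bx1_17 : BoxOK sI cl4 cl13 cl7 t4 t2 b1_17 :=
  box_mk (TrL.c (I.pos (nat_lit 0) (nat_lit 0)) (xa T4.l0 T4.l0)
  (TrL.c (I.pos (nat_lit 0) (nat_lit 0)) T2.l3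
  (TrL.c (I.pos (nat_lit 0) (nat_lit 0)) T4.l4
  (TrL.c (I.pos (nat_lit 0) (nat_lit 0)) T2.l4
  (TrL.c (I.pos (nat_lit 0) (nat_lit 0)) T4.l1
  (TrL.c (I.pos (nat_lit 0) (nat_lit 0)) T2.l5
  TrL.n)))))) (by decide +kernel)
theorem bx1_18 : BoxOK sI cl4 cl13 cl7 t4 t2 b1_18 :=
  box_mk (TrL.c (I.pos (nat_lit 0) (nat_lit 0)) T4.l0
  (TrL.c (I.pos (nat_lit 0) (nat_lit 0)) T2.l3
  (TrL.c (I.pos (nat_lit 0) (nat_lit 0)) T4.l4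
  (TrL.c (I.pos (nat_lit 0) (nat_lit 0)) T2.l4
  (TrL.c (I.pos (nat_lit 0) (nat_lit 0)) T4.l18
  (TrL.c (I.pos (nat_lit 0) (nat_lit 0)) T2.l5
  TrL.n)))))) (by decide +kernel)
theorem sv1 : StarV sI cl4 cl13 cl7 t4 t2 t1 :=
  (bt_n (bt_n (bt_n (bt_n (bt_b bx1_0) (bt_b bx1_1)) (bt_n (bt_b bx1_2) (bt_b bx1_3))) (bt_n (bt_n (bt_b bx1_4) (bt_b bx1_5)) (bt_n (bt_b bx1_6) (bt_n (bt_b bx1_7) (bt_b bx1_8))))) (bt_n (bt_n (bt_n (bt_b bx1_9) (bt_b bx1_10)) (bt_n (bt_b bx1_11) (bt_n (bt_b bx1_12) (bt_b bx1_13)))) (bt_n (bt_n (bt_b bx1_14) (bt_b bx1_15)) (bt_n (bt_b bx1_16) (bt_n (bt_b bx1_17) (bt_b bx1_18))))))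
def S1 : StarD := StarD.mk cl4 cl13 cl7 4 2 t1
theorem bx2_0 : BoxOK sI cl7 cl4 cl13 t0 t5 b2_0 :=
  box_mk (TrL.c (I.pos (nat_lit 0) (nat_lit 0)) (xb (xa T0.l12 T0.l0) (xa (xb T0.l12 (xa (xs T0.l0 T0.l0) T0.l0)) (xb T0.l0 (xa T0.l0 (xs T0.l0 T0.l0)))))
  (TrL.c (I.pos (nat_lit 0) (nat_lit 0)) (xb T5.l1 (xk T5.l1 T5.l1))
  (TrL.c (I.pos (nat_lit 0) (nat_lit 111196574)) (xR (xR T0.l1 T0.l1) (xR T0.l1 (xR T0.l1 T0.l1)))
  (TrL.c (I.pos (nat_lit 0) (nat_lit 77433728)) (xR (xR T5.l2 T5.l2) (xR T5.l2 T5.l2))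
  (TrL.c (I.pos (nat_lit 0) (nat_lit 0)) (xb (xk T5.l3 T5.l3) (xk T5.l3 T5.l3))
  (TrL.c (I.pos (nat_lit 0) (nat_lit 0)) (xb T0.l2 T0.l2)
  (TrL.c (I.mix (nat_lit 29511666) (nat_lit 77433728)) (xR (xR (xR T5.l4 T5.l4) T5.l4) (xR T5.l4 (xR T5.l4 T5.l4)))
  (TrL.c (I.mix (nat_lit 29511666) (nat_lit 46070178)) (xR T0.l3 T0.l9)
  TrL.n)))))))) (by decide +kernel)
theorem bx2_1 : BoxOK sI cl7 cl4 cl13 t0 t5 b2_1 :=
  box_mk (TrL.c (I.pos (nat_lit 0) (nat_lit 0)) (xb T5.l5 T5.l5)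
  (TrL.c (I.pos (nat_lit 0) (nat_lit 0)) T0.l4
  (TrL.c (I.mix (nat_lit 29511666) (nat_lit 77433728)) (xR T5.l6 (xR T5.l6 (xR T5.l6 T5.l6)))
  (TrL.c (I.mix (nat_lit 29511666) (nat_lit 46070178)) (xR T0.l5 T0.l11)
  TrL.n)))) (by decide +kernel)
theorem bx2_2 : BoxOK sI cl7 cl4 cl13 t0 t5 b2_2 :=
  box_mk (TrL.c (I.pos (nat_lit 0) (nat_lit 0)) (xb (xa T0.l6 T0.l6) T0.l7)
  (TrL.c (I.pos (nat_lit 0) (nat_lit 0)) T5.l5
  (TrL.c (I.pos (nat_lit 0) (nat_lit 111196574)) (xR T0.l11 T0.l1)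
  (TrL.c (I.pos (nat_lit 0) (nat_lit 77433728)) (xR T5.l4 T5.l4)
  (TrL.c (I.pos (nat_lit 0) (nat_lit 0)) (xk T5.l7 T5.l7)
  (TrL.c (I.pos (nat_lit 0) (nat_lit 0)) T0.l2
  (TrL.c (I.mix (nat_lit 29511666) (nat_lit 77433728)) T5.l4
  (TrL.c (I.mix (nat_lit 29511666) (nat_lit 46070178)) T0.l11
  TrL.n)))))))) (by decide +kernel)
theorem bx2_3 : BoxOK sI cl7 cl4 cl13 t0 t5 b2_3 :=
  box_mk (TrL.c (I.pos (nat_lit 0) (nat_lit 0)) (xa (xb (xa T0.l7 T0.l7) (xa (xb T0.l7 T0.l7) T0.l7)) (xb (xa T0.l7 T0.l7) (xa T0.l7 T0.l7)))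
  (TrL.c (I.pos (nat_lit 0) (nat_lit 0)) (xa T5.l1 T5.l1)
  (TrL.c (I.pos (nat_lit 0) (nat_lit 111196574)) (xR (xR T0.l5 T0.l1) (xR T0.l1 (xR T0.l1 T0.l1)))
  (TrL.c (I.pos (nat_lit 0) (nat_lit 77433728)) (xR (xR T5.l4 T5.l2) (xR T5.l2 (xR T5.l2 T5.l2)))
  (TrL.c (I.pos (nat_lit 0) (nat_lit 0)) (xa T5.l8 (xb T5.l8 T5.l9))
  (TrL.c (I.pos (nat_lit 0) (nat_lit 0)) T0.l2
  (TrL.c (I.mix (nat_lit 29511666) (nat_lit 77433728)) (xR T5.l10 (xR T5.l4 T5.l4))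
  (TrL.c (I.mix (nat_lit 29511666) (nat_lit 46070178)) T0.l11
  TrL.n)))))))) (by decide +kernel)
theorem bx2_4 : BoxOK sI cl7 cl4 cl13 t0 t5 b2_4 :=
  box_mk (TrL.c (I.pos (nat_lit 0) (nat_lit 0)) (xb (xa (xb (xa T0.l12 T0.l12) T0.l12) (xb (xa T0.l12 T0.l12) (xa T0.l12 T0.l12))) (xa (xb (xa T0.l12 T0.l12) (xa (xb T0.l12 T0.l12) (xb T0.l12 T0.l12))) (xb (xa T0.l12 T0.l12) (xa (xb T0.l12 (xa T0.l12 T0.l12)) (xa T0.l12 (xb T0.l12 T0.l12))))))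
  (TrL.c (I.pos (nat_lit 0) (nat_lit 0)) (xb (xa T5.l1 T5.l1) (xa T5.l1 (xk T5.l1 T5.l1)))
  (TrL.c (I.pos (nat_lit 0) (nat_lit 111196574)) (xR (xR T0.l11 T0.l1) (xR T0.l1 (xb T0.l1 (xR T0.l1 T0.l1))))
  (TrL.c (I.pos (nat_lit 0) (nat_lit 77433728)) (xR (xR T5.l2 T5.l2) (xR (xR T5.l2 T5.l2) (xb (xR T5.l2 T5.l2) (xk (xR T5.l2 T5.l2) T5.l2))))
  (TrL.c (I.pos (nat_lit 0) (nat_lit 0)) (xb (xa T5.l9 (xk (xb T5.l9 T5.l9) T5.l9)) (xa (xb T5.l9 T5.l9) (xk (xb T5.l9 (xs T5.l3 T5.l3)) (xb T5.l9 (xs T5.l3 (xb T5.l3 T5.l3))))))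
  (TrL.c (I.pos (nat_lit 0) (nat_lit 0)) (xb T0.l2 T0.l2)
  (TrL.c (I.mix (nat_lit 29511666) (nat_lit 77433728)) (xR (xR (xR T5.l4 T5.l4) T5.l4) (xR T5.l4 (xb (xR T5.l4 T5.l4) (xR T5.l4 T5.l4))))
  (TrL.c (I.mix (nat_lit 29511666) (nat_lit 46070178)) (xR (xR T0.l3 T0.l3) (xR T0.l3 T0.l9))
  TrL.n)))))))) (by decide +kernel)
theorem bx2_5 : BoxOK sI cl7 cl4 cl13 t0 t5 b2_5 :=
  box_mk (TrL.c (I.pos (nat_lit 0) (nat_lit 0)) (xa T5.l1 T5.l1)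
  (TrL.c (I.pos (nat_lit 0) (nat_lit 0)) T0.l1
  (TrL.c (I.mix (nat_lit 29511666) (nat_lit 77433728)) (xR (xR T5.l6 T5.l4) (xR T5.l6 (xR T5.l6 T5.l6)))
  (TrL.c (I.mix (nat_lit 29511666) (nat_lit 46070178)) (xR (xR T0.l5 T0.l5) T0.l11)
  TrL.n)))) (by decide +kernel)
theorem bx2_6 : BoxOK sI cl7 cl4 cl13 t0 t5 b2_6 :=
  box_mk (TrL.c (I.pos (nat_lit 0) (nat_lit 0)) (xa (xb T0.l0 T0.l0) (xb T0.l0 T0.l0))
  (TrL.c (I.pos (nat_lit 0) (nat_lit 0)) (xb (xk T5.l1 T5.l1) (xk T5.l1 T5.l1))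
  (TrL.c (I.pos (nat_lit 0) (nat_lit 111196574)) (xR (xR T0.l11 T0.l1) (xR T0.l1 T0.l11))
  (TrL.c (I.pos (nat_lit 0) (nat_lit 77433728)) (xR (xR T5.l2 T5.l2) T5.l2)
  (TrL.c (I.pos (nat_lit 0) (nat_lit 0)) (xb (xk (xa T5.l3 T5.l3) (xa T5.l3 T5.l3)) (xk (xa T5.l3 T5.l3) (xa T5.l3 T5.l3)))
  (TrL.c (I.pos (nat_lit 0) (nat_lit 0)) (xk T0.l2 T0.l2)
  (TrL.c (I.mix (nat_lit 29511666) (nat_lit 77433728)) (xR (xR (xR T5.l4 T5.l4) T5.l4) (xR T5.l4 (xR T5.l4 (xk T5.l4 T5.l4))))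
  (TrL.c (I.mix (nat_lit 29511666) (nat_lit 46070178)) (xR (xR T0.l3 T0.l3) T0.l3)
  TrL.n)))))))) (by decide +kernel)
theorem bx2_7 : BoxOK sI cl7 cl4 cl13 t0 t5 b2_7 :=
  box_mk (TrL.c (I.pos (nat_lit 0) (nat_lit 0)) T0.l6
  (TrL.c (I.pos (nat_lit 0) (nat_lit 0)) T5.l5
  (TrL.c (I.pos (nat_lit 0) (nat_lit 111196574)) (xR T0.l1 T0.l1)
  (TrL.c (I.pos (nat_lit 0) (nat_lit 77433728)) (xR T5.l2 T5.l4)
  (TrL.c (I.pos (nat_lit 0) (nat_lit 0)) T5.l7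
  (TrL.c (I.pos (nat_lit 0) (nat_lit 0)) T0.l2
  (TrL.c (I.mix (nat_lit 29511666) (nat_lit 77433728)) (xR T5.l6 T5.l4)
  (TrL.c (I.mix (nat_lit 29511666) (nat_lit 46070178)) T0.l11
  TrL.n)))))))) (by decide +kernel)
theorem bx2_8 : BoxOK sI cl7 cl4 cl13 t0 t5 b2_8 :=
  box_mk (TrL.c (I.pos (nat_lit 0) (nat_lit 0)) T0.l0
  (TrL.c (I.pos (nat_lit 0) (nat_lit 0)) T5.l1
  (TrL.c (I.pos (nat_lit 0) (nat_lit 111196574)) (xR (xR T0.l1 T0.l1) T0.l1)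
  (TrL.c (I.pos (nat_lit 0) (nat_lit 77433728)) (xR T5.l12 T5.l2)
  (TrL.c (I.pos (nat_lit 0) (nat_lit 0)) T5.l3
  (TrL.c (I.pos (nat_lit 0) (nat_lit 0)) T0.l2
  (TrL.c (I.mix (nat_lit 29511666) (nat_lit 77433728)) (xR (xR (xR T5.l4 T5.l4) T5.l4) T5.l4)
  (TrL.c (I.mix (nat_lit 29511666) (nat_lit 46070178)) (xR T0.l3 T0.l3)
  TrL.n)))))))) (by decide +kernel)
theorem bx2_9 : BoxOK sI cl7 cl4 cl13 t0 t5 b2_9 :=
  box_mk (TrL.c (I.pos (nat_lit 0) (nat_lit 0)) T0.l6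
  (TrL.c (I.pos (nat_lit 0) (nat_lit 0)) T5.l5
  (TrL.c (I.pos (nat_lit 0) (nat_lit 111196574)) (xR T0.l1 T0.l1)
  (TrL.c (I.pos (nat_lit 0) (nat_lit 77433728)) (xR T5.l2 T5.l2)
  (TrL.c (I.pos (nat_lit 0) (nat_lit 0)) T5.l7
  (TrL.c (I.pos (nat_lit 0) (nat_lit 0)) T0.l2
  (TrL.c (I.mix (nat_lit 29511666) (nat_lit 77433728)) T5.l4
  (TrL.c (I.mix (nat_lit 29511666) (nat_lit 46070178)) T0.l3
  TrL.n)))))))) (by decide +kernel)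
theorem bx2_10 : BoxOK sI cl7 cl4 cl13 t0 t5 b2_10 :=
  box_mk (TrL.c (I.pos (nat_lit 0) (nat_lit 0)) T0.l0
  (TrL.c (I.pos (nat_lit 0) (nat_lit 0)) T5.l1
  (TrL.c (I.pos (nat_lit 0) (nat_lit 111196574)) (xR (xR T0.l11 T0.l1) T0.l1)
  (TrL.c (I.pos (nat_lit 0) (nat_lit 77433728)) (xR (xR T5.l2 T5.l2) T5.l2)
  (TrL.c (I.pos (nat_lit 0) (nat_lit 0)) (xk (xb T5.l3 T5.l3) T5.l3)
  (TrL.c (I.pos (nat_lit 0) (nat_lit 0)) T0.l2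
  (TrL.c (I.mix (nat_lit 29511666) (nat_lit 77433728)) (xR (xR (xR T5.l4 T5.l4) T5.l4) (xR T5.l4 (xR T5.l4 T5.l4)))
  (TrL.c (I.mix (nat_lit 29511666) (nat_lit 46070178)) (xR T0.l9 T0.l3)
  TrL.n)))))))) (by decide +kernel)
theorem bx2_11 : BoxOK sI cl7 cl4 cl13 t0 t5 b2_11 :=
  box_mk (TrL.c (I.pos (nat_lit 0) (nat_lit 0)) T0.l6
  (TrL.c (I.pos (nat_lit 0) (nat_lit 0)) T5.l5
  (TrL.c (I.pos (nat_lit 0) (nat_lit 111196574)) (xR T0.l1 (xR T0.l1 T0.l1))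
  (TrL.c (I.pos (nat_lit 0) (nat_lit 77433728)) T5.l4
  (TrL.c (I.pos (nat_lit 0) (nat_lit 0)) T5.l7
  (TrL.c (I.pos (nat_lit 0) (nat_lit 0)) T0.l2
  (TrL.c (I.mix (nat_lit 29511666) (nat_lit 77433728)) T5.l6
  (TrL.c (I.mix (nat_lit 29511666) (nat_lit 46070178)) T0.l5
  TrL.n)))))))) (by decide +kernel)
theorem bx2_12 : BoxOK sI cl7 cl4 cl13 t0 t5 b2_12 :=
  box_mk (TrL.c (I.pos (nat_lit 0) (nat_lit 0)) T0.l0
  (TrL.c (I.pos (nat_lit 0) (nat_lit 0)) T5.l1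
  (TrL.c (I.pos (nat_lit 0) (nat_lit 111196574)) (xR (xR T0.l11 T0.l1) T0.l1)
  (TrL.c (I.pos (nat_lit 0) (nat_lit 77433728)) (xR (xR T5.l2 T5.l2) T5.l2)
  (TrL.c (I.pos (nat_lit 0) (nat_lit 0)) (xk T5.l3 T5.l3)
  (TrL.c (I.pos (nat_lit 0) (nat_lit 0)) T0.l2
  (TrL.c (I.mix (nat_lit 29511666) (nat_lit 77433728)) (xR (xR (xR T5.l4 T5.l4) T5.l4) (xR T5.l4 (xR T5.l4 T5.l4)))
  (TrL.c (I.mix (nat_lit 29511666) (nat_lit 46070178)) (xR T0.l9 T0.l3)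
  TrL.n)))))))) (by decide +kernel)
theorem bx2_13 : BoxOK sI cl7 cl4 cl13 t0 t5 b2_13 :=
  box_mk (TrL.c (I.pos (nat_lit 0) (nat_lit 0)) T0.l6
  (TrL.c (I.pos (nat_lit 0) (nat_lit 0)) T5.l5
  (TrL.c (I.pos (nat_lit 0) (nat_lit 111196574)) (xR T0.l1 (xR T0.l1 T0.l1))
  (TrL.c (I.pos (nat_lit 0) (nat_lit 77433728)) T5.l4
  (TrL.c (I.pos (nat_lit 0) (nat_lit 0)) T5.l7
  (TrL.c (I.pos (nat_lit 0) (nat_lit 0)) T0.l2
  (TrL.c (I.mix (nat_lit 29511666) (nat_lit 77433728)) T5.l6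
  (TrL.c (I.mix (nat_lit 29511666) (nat_lit 46070178)) T0.l5
  TrL.n)))))))) (by decide +kernel)
theorem bx2_14 : BoxOK sI cl7 cl4 cl13 t0 t5 b2_14 :=
  box_mk (TrL.c (I.pos (nat_lit 0) (nat_lit 0)) T0.l0
  (TrL.c (I.pos (nat_lit 0) (nat_lit 0)) T5.l1
  (TrL.c (I.pos (nat_lit 0) (nat_lit 111196574)) (xR T0.l11 T0.l1)
  (TrL.c (I.pos (nat_lit 0) (nat_lit 77433728)) (xR T5.l12 T5.l2)
  (TrL.c (I.pos (nat_lit 0) (nat_lit 0)) T5.l3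
  (TrL.c (I.pos (nat_lit 0) (nat_lit 0)) T0.l2
  (TrL.c (I.mix (nat_lit 29511666) (nat_lit 77433728)) (xR (xR T5.l4 T5.l4) T5.l4)
  (TrL.c (I.mix (nat_lit 29511666) (nat_lit 46070178)) (xR T0.l3 T0.l3)
  TrL.n)))))))) (by decide +kernel)
theorem bx2_15 : BoxOK sI cl7 cl4 cl13 t0 t5 b2_15 :=
  box_mk (TrL.c (I.pos (nat_lit 0) (nat_lit 0)) T0.l6
  (TrL.c (I.pos (nat_lit 0) (nat_lit 0)) T5.l5
  (TrL.c (I.pos (nat_lit 0) (nat_lit 111196574)) (xR T0.l1 T0.l1)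
  (TrL.c (I.pos (nat_lit 0) (nat_lit 77433728)) (xR T5.l2 T5.l2)
  (TrL.c (I.pos (nat_lit 0) (nat_lit 0)) T5.l7
  (TrL.c (I.pos (nat_lit 0) (nat_lit 0)) T0.l2
  (TrL.c (I.mix (nat_lit 29511666) (nat_lit 77433728)) (xR T5.l4 T5.l4)
  (TrL.c (I.mix (nat_lit 29511666) (nat_lit 46070178)) T0.l3
  TrL.n)))))))) (by decide +kernel)
theorem bx2_16 : BoxOK sI cl7 cl4 cl13 t0 t5 b2_16 :=
  box_mk (TrL.c (I.pos (nat_lit 0) (nat_lit 0)) T0.l6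
  (TrL.c (I.pos (nat_lit 0) (nat_lit 0)) T5.l5
  (TrL.c (I.pos (nat_lit 0) (nat_lit 111196574)) (xR T0.l1 (xR T0.l1 T0.l1))
  (TrL.c (I.pos (nat_lit 0) (nat_lit 77433728)) T5.l4
  (TrL.c (I.pos (nat_lit 0) (nat_lit 0)) T5.l7
  (TrL.c (I.pos (nat_lit 0) (nat_lit 0)) T0.l2
  (TrL.c (I.mix (nat_lit 29511666) (nat_lit 77433728)) T5.l6
  (TrL.c (I.mix (nat_lit 29511666) (nat_lit 46070178)) T0.l11
  TrL.n)))))))) (by decide +kernel)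
theorem bx2_17 : BoxOK sI cl7 cl4 cl13 t0 t5 b2_17 :=
  box_mk (TrL.c (I.pos (nat_lit 0) (nat_lit 0)) (xa (xb (xa T0.l0 T0.l0) (xa (xb T0.l0 (xc T0.l0 T0.l0)) (xb T0.l0 (xc T0.l0 T0.l0)))) (xb (xa T0.l0 T0.l0) (xa T0.l10 T0.l10)))
  (TrL.c (I.pos (nat_lit 0) (nat_lit 0)) (xa (xb T5.l1 T5.l1) (xb T5.l11 (xk T5.l1 T5.l1)))
  (TrL.c (I.pos (nat_lit 0) (nat_lit 111196574)) (xR (xR T0.l11 T0.l1) (xR T0.l1 (xR T0.l1 (xa T0.l1 T0.l11))))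
  (TrL.c (I.pos (nat_lit 0) (nat_lit 77433728)) (xR (xR T5.l2 T5.l2) (xR T5.l2 T5.l2))
  (TrL.c (I.pos (nat_lit 0) (nat_lit 0)) (xa (xb (xk (xb T5.l3 T5.l3) (xb T5.l3 T5.l3)) (xk T5.l3 T5.l3)) (xb (xk (xb (xa T5.l3 (xk T5.l3 T5.l3)) T5.l3) (xb (xa T5.l3 T5.l3) T5.l3)) (xk (xb (xa T5.l3 T5.l3) (xa T5.l3 (xk T5.l3 T5.l3))) (xb T5.l3 (xa T5.l3 (xk T5.l3 T5.l3))))))
  (TrL.c (I.pos (nat_lit 0) (nat_lit 0)) (xk (xb T0.l2 T0.l2) (xb T0.l2 T0.l2))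
  (TrL.c (I.mix (nat_lit 29511666) (nat_lit 77433728)) (xR (xR (xR T5.l4 T5.l4) T5.l4) (xR T5.l4 (xR T5.l4 (xk (xb (xa T5.l4 T5.l4) (xa T5.l4 T5.l4)) T5.l4))))
  (TrL.c (I.mix (nat_lit 29511666) (nat_lit 46070178)) (xR (xR T0.l3 T0.l3) T0.l9)
  TrL.n)))))))) (by decide +kernel)
theorem bx2_18 : BoxOK sI cl7 cl4 cl13 t0 t5 b2_18 :=
  box_mk (TrL.c (I.pos (nat_lit 0) (nat_lit 0)) T0.l6
  (TrL.c (I.pos (nat_lit 0) (nat_lit 0)) T5.l5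
  (TrL.c (I.pos (nat_lit 0) (nat_lit 111196574)) (xR T0.l1 T0.l1)
  (TrL.c (I.pos (nat_lit 0) (nat_lit 77433728)) T5.l4
  (TrL.c (I.pos (nat_lit 0) (nat_lit 0)) T5.l7
  (TrL.c (I.pos (nat_lit 0) (nat_lit 0)) T0.l2
  (TrL.c (I.mix (nat_lit 29511666) (nat_lit 77433728)) T5.l4
  (TrL.c (I.mix (nat_lit 29511666) (nat_lit 46070178)) T0.l3
  TrL.n)))))))) (by decide +kernel)
theorem bx2_19 : BoxOK sI cl7 cl4 cl13 t0 t5 b2_19 :=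
  box_mk (TrL.c (I.pos (nat_lit 0) (nat_lit 0)) (xa (xb T0.l12 (xb T0.l12 (xa T0.l12 T0.l0))) (xb (xa T0.l0 T0.l0) (xa (xb T0.l0 T0.l0) (xb T0.l0 (xs T0.l0 T0.l0)))))
  (TrL.c (I.pos (nat_lit 0) (nat_lit 0)) (xk T5.l1 T5.l1)
  (TrL.c (I.pos (nat_lit 0) (nat_lit 111196574)) (xR T0.l11 (xR T0.l1 T0.l1))
  (TrL.c (I.pos (nat_lit 0) (nat_lit 77433728)) (xR (xR T5.l2 T5.l2) (xR T5.l2 T5.l2))
  (TrL.c (I.pos (nat_lit 0) (nat_lit 0)) (xk (xb T5.l3 T5.l3) T5.l3)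
  (TrL.c (I.pos (nat_lit 0) (nat_lit 0)) T0.l2
  (TrL.c (I.mix (nat_lit 29511666) (nat_lit 77433728)) (xR (xR T5.l4 T5.l4) (xR T5.l4 T5.l4))
  (TrL.c (I.mix (nat_lit 29511666) (nat_lit 46070178)) (xR T0.l3 T0.l9)
  TrL.n)))))))) (by decide +kernel)
theorem bx2_20 : BoxOK sI cl7 cl4 cl13 t0 t5 b2_20 :=
  box_mk (TrL.c (I.pos (nat_lit 0) (nat_lit 0)) (xb T0.l7 T0.l7)
  (TrL.c (I.pos (nat_lit 0) (nat_lit 0)) T5.l1
  (TrL.c (I.pos (nat_lit 0) (nat_lit 111196574)) (xR T0.l3 T0.l1)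
  (TrL.c (I.pos (nat_lit 0) (nat_lit 77433728)) (xR T5.l4 T5.l4)
  (TrL.c (I.pos (nat_lit 0) (nat_lit 0)) T5.l8
  (TrL.c (I.pos (nat_lit 0) (nat_lit 0)) T0.l2
  (TrL.c (I.mix (nat_lit 29511666) (nat_lit 77433728)) T5.l4
  (TrL.c (I.mix (nat_lit 29511666) (nat_lit 46070178)) T0.l3
  TrL.n)))))))) (by decide +kernel)
theorem bx2_21 : BoxOK sI cl7 cl4 cl13 t0 t5 b2_21 :=
  box_mk (TrL.c (I.pos (nat_lit 0) (nat_lit 0)) T0.l6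
  (TrL.c (I.pos (nat_lit 0) (nat_lit 0)) T5.l5
  (TrL.c (I.pos (nat_lit 0) (nat_lit 111196574)) (xR T0.l1 (xR T0.l1 (xR T0.l1 T0.l1)))
  (TrL.c (I.pos (nat_lit 0) (nat_lit 77433728)) (xR T5.l4 T5.l4)
  (TrL.c (I.pos (nat_lit 0) (nat_lit 0)) T5.l7
  (TrL.c (I.pos (nat_lit 0) (nat_lit 0)) T0.l2
  (TrL.c (I.mix (nat_lit 29511666) (nat_lit 77433728)) (xR T5.l6 T5.l4)
  (TrL.c (I.mix (nat_lit 29511666) (nat_lit 46070178)) T0.l11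
  TrL.n)))))))) (by decide +kernel)
theorem bx2_22 : BoxOK sI cl7 cl4 cl13 t0 t5 b2_22 :=
  box_mk (TrL.c (I.pos (nat_lit 0) (nat_lit 0)) T0.l0
  (TrL.c (I.pos (nat_lit 0) (nat_lit 0)) T5.l1
  (TrL.c (I.pos (nat_lit 0) (nat_lit 111196574)) (xR (xR T0.l11 T0.l1) T0.l1)
  (TrL.c (I.pos (nat_lit 0) (nat_lit 77433728)) (xR (xR T5.l2 T5.l2) T5.l2)
  (TrL.c (I.pos (nat_lit 0) (nat_lit 0)) (xk T5.l3 T5.l3)
  (TrL.c (I.pos (nat_lit 0) (nat_lit 0)) T0.l2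
  (TrL.c (I.mix (nat_lit 29511666) (nat_lit 77433728)) (xR (xR (xR T5.l4 T5.l4) T5.l4) (xR T5.l4 T5.l4))
  (TrL.c (I.mix (nat_lit 29511666) (nat_lit 46070178)) (xR T0.l9 T0.l3)
  TrL.n)))))))) (by decide +kernel)
theorem sv2 : StarV sI cl7 cl4 cl13 t0 t5 t2 :=
  (bt_n (bt_n (bt_n (bt_n (bt_b bx2_0) (bt_b bx2_1)) (bt_n (bt_b bx2_2) (bt_n (bt_b bx2_3) (bt_b bx2_4)))) (bt_n (bt_n (bt_b bx2_5) (bt_n (bt_b bx2_6) (bt_b bx2_7))) (bt_n (bt_b bx2_8) (bt_n (bt_b bx2_9) (bt_b bx2_10))))) (bt_n (bt_n (bt_n (bt_b bx2_11) (bt_n (bt_b bx2_12) (bt_b bx2_13))) (bt_n (bt_b bx2_14) (bt_n (bt_b bx2_15) (bt_b bx2_16)))) (bt_n (bt_n (bt_b bx2_17) (bt_n (bt_b bx2_18) (bt_b bx2_19))) (bt_n (bt_b bx2_20) (bt_n (bt_b bx2_21) (bt_b bx2_22))))))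
def S2 : StarD := StarD.mk cl7 cl4 cl13 0 5 t2
theorem bx3_0 : BoxOK sI cl7 cl13 cl4 t5 t0 b3_0 :=
  box_mk (TrL.c (I.pos (nat_lit 0) (nat_lit 0)) (xa (xa (xb (xa (xc T5.l0 T5.l0) T5.l0) (xs (xa T5.l0 T5.l0) (xa (xb T5.l0 T5.l0) (xb T5.l0 T5.l0)))) (xb (xa T5.l0 T5.l0) (xs (xa T5.l0 T5.l0) (xa (xb T5.l0 T5.l0) T5.l15)))) (xa (xb (xa T5.l0 T5.l0) (xs (xa T5.l0 T5.l0) (xa (xb T5.l0 T5.l0) T5.l0))) (xb (xs T5.l0 T5.l0) (xs (xa T5.l0 T5.l0) (xa T5.l0 T5.l0)))))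
  (TrL.c (I.pos (nat_lit 0) (nat_lit 0)) (xa (xk (xb T0.l8 T0.l8) (xb T0.l8 T0.l8)) (xk (xb T0.l8 T0.l8) T0.l8))
  (TrL.c (I.pos (nat_lit 0) (nat_lit 111196574)) (xR (xR T5.l10 T5.l10) (xR T5.l10 (xR T5.l10 (xa T5.l10 T5.l4))))
  (TrL.c (I.pos (nat_lit 0) (nat_lit 77433728)) (xR (xR T0.l9 T0.l9) (xR T0.l9 (xR T0.l9 T0.l9)))
  (TrL.c (I.pos (nat_lit 0) (nat_lit 0)) (xa (xk T0.l10 T0.l10) (xk T0.l10 T0.l10))
  (TrL.c (I.pos (nat_lit 0) (nat_lit 0)) T5.l11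
  (TrL.c (I.mix (nat_lit 29511666) (nat_lit 77433728)) (xR (xR (xR T0.l11 T0.l11) T0.l11) (xR T0.l11 T0.l11))
  (TrL.c (I.mix (nat_lit 29511666) (nat_lit 46070178)) (xR (xR T5.l12 T5.l12) T5.l12)
  TrL.n)))))))) (by decide +kernel)
theorem bx3_1 : BoxOK sI cl7 cl13 cl4 t5 t0 b3_1 :=
  box_mk (TrL.c (I.pos (nat_lit 0) (nat_lit 0)) (xa (xb (xa (xb T5.l13 T5.l13) (xb T5.l13 T5.l13)) (xa (xb T5.l13 T5.l13) T5.l13)) (xb T5.l0 (xa T5.l13 T5.l0)))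
  (TrL.c (I.pos (nat_lit 0) (nat_lit 0)) (xa T0.l8 T0.l8)
  (TrL.c (I.pos (nat_lit 0) (nat_lit 111196574)) (xR T5.l10 T5.l10)
  (TrL.c (I.pos (nat_lit 0) (nat_lit 77433728)) (xR (xR T0.l9 T0.l9) (xR T0.l9 T0.l9))
  (TrL.c (I.pos (nat_lit 0) (nat_lit 0)) (xk (xa T0.l13 (xb T0.l13 T0.l13)) (xa T0.l13 (xb T0.l13 T0.l13)))
  (TrL.c (I.pos (nat_lit 0) (nat_lit 0)) T5.l11
  (TrL.c (I.mix (nat_lit 29511666) (nat_lit 77433728)) (xR T0.l11 T0.l11)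
  (TrL.c (I.mix (nat_lit 29511666) (nat_lit 46070178)) (xR T5.l12 T5.l12)
  TrL.n)))))))) (by decide +kernel)
theorem bx3_2 : BoxOK sI cl7 cl13 cl4 t5 t0 b3_2 :=
  box_mk (TrL.c (I.pos (nat_lit 0) (nat_lit 0)) (xa (xa T5.l14 T5.l14) (xa T5.l16 T5.l16))
  (TrL.c (I.pos (nat_lit 0) (nat_lit 0)) (xa T0.l8 T0.l8)
  (TrL.c (I.pos (nat_lit 0) (nat_lit 111196574)) (xR (xR T5.l10 T5.l10) (xR T5.l10 T5.l10))
  (TrL.c (I.pos (nat_lit 0) (nat_lit 77433728)) (xR T0.l11 (xR T0.l3 (xa T0.l9 T0.l9)))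
  (TrL.c (I.pos (nat_lit 0) (nat_lit 0)) (xa T0.l14 T0.l16)
  (TrL.c (I.pos (nat_lit 0) (nat_lit 0)) T5.l11
  (TrL.c (I.mix (nat_lit 29511666) (nat_lit 77433728)) (xR T0.l11 T0.l11)
  (TrL.c (I.mix (nat_lit 29511666) (nat_lit 46070178)) T5.l4
  TrL.n)))))))) (by decide +kernel)
theorem bx3_3 : BoxOK sI cl7 cl13 cl4 t5 t0 b3_3 :=
  box_mk (TrL.c (I.pos (nat_lit 0) (nat_lit 0)) (xb (xa (xb (xa (xs T5.l15 T5.l15) T5.l15) (xa (xs T5.l15 T5.l15) T5.l15)) (xb (xa T5.l15 (xs T5.l15 T5.l15)) (xa T5.l15 (xs T5.l15 T5.l15)))) (xa (xb (xa (xs T5.l15 T5.l15) (xs T5.l15 T5.l15)) (xa (xs T5.l15 (xb T5.l15 T5.l15)) (xs T5.l15 (xb T5.l15 T5.l15)))) (xa (xb (xs T5.l15 T5.l15) (xs T5.l15 (xb T5.l15 T5.l15))) (xb (xs T5.l15 (xc T5.l15 T5.l15)) (xs T5.l15 (xb T5.l15 T5.l15))))))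
  (TrL.c (I.pos (nat_lit 0) (nat_lit 0)) (xb (xk (xa T0.l8 T0.l8) (xa T0.l8 T0.l8)) (xk (xa T0.l8 T0.l8) (xa T0.l8 T0.l8)))
  (TrL.c (I.pos (nat_lit 0) (nat_lit 111196574)) (xR (xR T5.l10 T5.l10) (xR T5.l10 (xR T5.l10 (xb T5.l10 (xR T5.l10 T5.l10)))))
  (TrL.c (I.pos (nat_lit 0) (nat_lit 77433728)) (xR (xR T0.l9 T0.l9) (xR T0.l9 (xR T0.l9 T0.l9)))
  (TrL.c (I.pos (nat_lit 0) (nat_lit 0)) (xb (xk (xa T0.l15 T0.l15) (xa T0.l15 T0.l15)) (xk (xa T0.l15 T0.l15) T0.l15))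
  (TrL.c (I.pos (nat_lit 0) (nat_lit 0)) (xk T5.l11 T5.l11)
  (TrL.c (I.mix (nat_lit 29511666) (nat_lit 77433728)) (xR T0.l11 (xR T0.l11 (xR T0.l11 T0.l11)))
  (TrL.c (I.mix (nat_lit 29511666) (nat_lit 46070178)) (xR (xR T5.l12 T5.l12) (xR T5.l12 T5.l12))
  TrL.n)))))))) (by decide +kernel)
theorem bx3_4 : BoxOK sI cl7 cl13 cl4 t5 t0 b3_4 :=
  box_mk (TrL.c (I.pos (nat_lit 0) (nat_lit 0)) (xa (xa (xb T5.l16 (xa T5.l16 T5.l16)) (xb T5.l16 T5.l16)) (xa (xb T5.l16 (xa T5.l16 T5.l16)) (xb (xa T5.l16 T5.l16) (xa T5.l16 T5.l16))))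
  (TrL.c (I.pos (nat_lit 0) (nat_lit 0)) (xa (xa T0.l8 T0.l8) (xa T0.l8 T0.l8))
  (TrL.c (I.pos (nat_lit 0) (nat_lit 111196574)) (xR (xR T5.l10 T5.l10) (xR T5.l10 T5.l10))
  (TrL.c (I.pos (nat_lit 0) (nat_lit 77433728)) (xR (xR T0.l3 T0.l3) (xa (xR T0.l9 T0.l9) T0.l9))
  (TrL.c (I.pos (nat_lit 0) (nat_lit 0)) (xa T0.l16 (xa T0.l16 T0.l16))
  (TrL.c (I.pos (nat_lit 0) (nat_lit 0)) T5.l11
  (TrL.c (I.mix (nat_lit 29511666) (nat_lit 77433728)) (xR (xR T0.l11 T0.l11) T0.l11)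
  (TrL.c (I.mix (nat_lit 29511666) (nat_lit 46070178)) (xR T5.l6 T5.l12)
  TrL.n)))))))) (by decide +kernel)
theorem bx3_5 : BoxOK sI cl7 cl13 cl4 t5 t0 b3_5 :=
  box_mk (TrL.c (I.pos (nat_lit 0) (nat_lit 0)) (xa (xb (xa T5.l0 T5.l0) T5.l15) (xb (xa T5.l0 T5.l0) (xa T5.l15 T5.l0)))
  (TrL.c (I.pos (nat_lit 0) (nat_lit 0)) (xk (xa T0.l8 T0.l8) T0.l8)
  (TrL.c (I.pos (nat_lit 0) (nat_lit 111196574)) (xR (xR T5.l10 T5.l10) (xR T5.l10 (xR T5.l10 T5.l10)))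
  (TrL.c (I.pos (nat_lit 0) (nat_lit 77433728)) (xR (xR T0.l9 T0.l9) T0.l9)
  (TrL.c (I.pos (nat_lit 0) (nat_lit 0)) (xk (xa T0.l15 T0.l15) (xa T0.l15 T0.l15))
  (TrL.c (I.pos (nat_lit 0) (nat_lit 0)) T5.l11
  (TrL.c (I.mix (nat_lit 29511666) (nat_lit 77433728)) (xR (xR T0.l11 T0.l11) (xR T0.l11 T0.l11))
  (TrL.c (I.mix (nat_lit 29511666) (nat_lit 46070178)) (xR T5.l12 T5.l12)
  TrL.n)))))))) (by decide +kernel)
theorem bx3_6 : BoxOK sI cl7 cl13 cl4 t5 t0 b3_6 :=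
  box_mk (TrL.c (I.pos (nat_lit 0) (nat_lit 0)) (xa (xb (xa (xb T5.l15 T5.l15) (xb T5.l15 T5.l15)) (xa (xb T5.l15 T5.l15) (xb T5.l15 (xs T5.l15 T5.l15)))) (xb (xa (xb T5.l15 T5.l15) (xb T5.l15 T5.l15)) (xa (xb T5.l15 (xs T5.l15 T5.l15)) (xb T5.l15 (xs T5.l15 T5.l15)))))
  (TrL.c (I.pos (nat_lit 0) (nat_lit 0)) (xb (xk (xa T0.l8 T0.l8) T0.l8) (xk (xa T0.l8 T0.l8) T0.l8))
  (TrL.c (I.pos (nat_lit 0) (nat_lit 111196574)) (xR (xR T5.l10 T5.l10) (xR T5.l10 (xR T5.l4 (xb T5.l4 T5.l10))))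
  (TrL.c (I.pos (nat_lit 0) (nat_lit 77433728)) (xR (xR T0.l9 T0.l9) (xR T0.l9 (xR T0.l9 T0.l9)))
  (TrL.c (I.pos (nat_lit 0) (nat_lit 0)) (xk (xb (xa T0.l15 T0.l15) T0.l15) (xb (xa T0.l15 (xb T0.l15 T0.l15)) T0.l15))
  (TrL.c (I.pos (nat_lit 0) (nat_lit 0)) T5.l11
  (TrL.c (I.mix (nat_lit 29511666) (nat_lit 77433728)) (xR T0.l11 (xR T0.l11 (xR T0.l11 T0.l11)))
  (TrL.c (I.mix (nat_lit 29511666) (nat_lit 46070178)) (xR (xR T5.l12 T5.l12) (xR T5.l12 T5.l12))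
  TrL.n)))))))) (by decide +kernel)
theorem bx3_7 : BoxOK sI cl7 cl13 cl4 t5 t0 b3_7 :=
  box_mk (TrL.c (I.pos (nat_lit 0) (nat_lit 0)) T5.l16
  (TrL.c (I.pos (nat_lit 0) (nat_lit 0)) T0.l8
  (TrL.c (I.pos (nat_lit 0) (nat_lit 111196574)) T5.l10
  (TrL.c (I.pos (nat_lit 0) (nat_lit 77433728)) T0.l9
  (TrL.c (I.pos (nat_lit 0) (nat_lit 0)) T0.l8
  (TrL.c (I.pos (nat_lit 0) (nat_lit 0)) T5.l11
  (TrL.c (I.mix (nat_lit 29511666) (nat_lit 77433728)) (xR T0.l11 T0.l11)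
  (TrL.c (I.mix (nat_lit 29511666) (nat_lit 46070178)) T5.l4
  TrL.n)))))))) (by decide +kernel)
theorem bx3_8 : BoxOK sI cl7 cl13 cl4 t5 t0 b3_8 :=
  box_mk (TrL.c (I.pos (nat_lit 0) (nat_lit 0)) (xa (xb T5.l0 (xa T5.l20 T5.l20)) T5.l0)
  (TrL.c (I.pos (nat_lit 0) (nat_lit 0)) T0.l8
  (TrL.c (I.pos (nat_lit 0) (nat_lit 111196574)) (xR T5.l10 T5.l10)
  (TrL.c (I.pos (nat_lit 0) (nat_lit 77433728)) (xR (xR T0.l9 T0.l9) T0.l9)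
  (TrL.c (I.pos (nat_lit 0) (nat_lit 0)) (xk T0.l17 T0.l17)
  (TrL.c (I.pos (nat_lit 0) (nat_lit 0)) T5.l11
  (TrL.c (I.mix (nat_lit 29511666) (nat_lit 77433728)) (xR T0.l11 T0.l11)
  (TrL.c (I.mix (nat_lit 29511666) (nat_lit 46070178)) (xR T5.l12 T5.l12)
  TrL.n)))))))) (by decide +kernel)
theorem bx3_9 : BoxOK sI cl7 cl13 cl4 t5 t0 b3_9 :=
  box_mk (TrL.c (I.pos (nat_lit 0) (nat_lit 0)) T5.l0
  (TrL.c (I.pos (nat_lit 0) (nat_lit 0)) T0.l8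
  (TrL.c (I.pos (nat_lit 0) (nat_lit 111196574)) (xR T5.l10 T5.l10)
  (TrL.c (I.pos (nat_lit 0) (nat_lit 77433728)) (xR (xR T0.l9 T0.l9) T0.l9)
  (TrL.c (I.pos (nat_lit 0) (nat_lit 0)) T0.l15
  (TrL.c (I.pos (nat_lit 0) (nat_lit 0)) T5.l11
  (TrL.c (I.mix (nat_lit 29511666) (nat_lit 77433728)) (xR T0.l11 T0.l11)
  (TrL.c (I.mix (nat_lit 29511666) (nat_lit 46070178)) (xR T5.l12 T5.l12)
  TrL.n)))))))) (by decide +kernel)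
theorem bx3_10 : BoxOK sI cl7 cl13 cl4 t5 t0 b3_10 :=
  box_mk (TrL.c (I.pos (nat_lit 0) (nat_lit 0)) (xa (xa T5.l16 T5.l16) (xa T5.l16 (xb T5.l17 T5.l17)))
  (TrL.c (I.pos (nat_lit 0) (nat_lit 0)) (xa T0.l8 T0.l8)
  (TrL.c (I.pos (nat_lit 0) (nat_lit 111196574)) (xR T5.l10 T5.l10)
  (TrL.c (I.pos (nat_lit 0) (nat_lit 77433728)) (xR T0.l9 T0.l9)
  (TrL.c (I.pos (nat_lit 0) (nat_lit 0)) (xa T0.l16 (xk T0.l18 T0.l18))
  (TrL.c (I.pos (nat_lit 0) (nat_lit 0)) T5.l11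
  (TrL.c (I.mix (nat_lit 29511666) (nat_lit 77433728)) (xR T0.l11 T0.l11)
  (TrL.c (I.mix (nat_lit 29511666) (nat_lit 46070178)) (xR T5.l4 T5.l12)
  TrL.n)))))))) (by decide +kernel)
theorem bx3_11 : BoxOK sI cl7 cl13 cl4 t5 t0 b3_11 :=
  box_mk (TrL.c (I.pos (nat_lit 0) (nat_lit 0)) (xb (xa (xb (xa T5.l18 T5.l18) T5.l18) (xb (xa T5.l18 T5.l0) (xa T5.l18 T5.l0))) (xa (xb T5.l18 (xa T5.l18 T5.l18)) (xb (xa T5.l18 T5.l18) (xa T5.l18 T5.l18))))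
  (TrL.c (I.pos (nat_lit 0) (nat_lit 0)) (xb T0.l8 T0.l8)
  (TrL.c (I.pos (nat_lit 0) (nat_lit 111196574)) (xR T5.l10 (xR T5.l10 T5.l10))
  (TrL.c (I.pos (nat_lit 0) (nat_lit 77433728)) (xR (xR T0.l9 T0.l9) T0.l9)
  (TrL.c (I.pos (nat_lit 0) (nat_lit 0)) (xk (xb (xa T0.l19 T0.l19) T0.l19) (xb (xa T0.l19 T0.l19) T0.l19))
  (TrL.c (I.pos (nat_lit 0) (nat_lit 0)) T5.l11
  (TrL.c (I.mix (nat_lit 29511666) (nat_lit 77433728)) (xR T0.l11 T0.l11)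
  (TrL.c (I.mix (nat_lit 29511666) (nat_lit 46070178)) (xR T5.l12 T5.l12)
  TrL.n)))))))) (by decide +kernel)
theorem bx3_12 : BoxOK sI cl7 cl13 cl4 t5 t0 b3_12 :=
  box_mk (TrL.c (I.pos (nat_lit 0) (nat_lit 0)) (xa (xa (xa T5.l19 T5.l19) (xa T5.l19 T5.l19)) (xa T5.l16 T5.l16))
  (TrL.c (I.pos (nat_lit 0) (nat_lit 0)) (xa T0.l8 T0.l8)
  (TrL.c (I.pos (nat_lit 0) (nat_lit 111196574)) (xR (xR T5.l10 T5.l4) (xR T5.l4 (xa (xR T5.l10 T5.l10) T5.l10)))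
  (TrL.c (I.pos (nat_lit 0) (nat_lit 77433728)) (xR T0.l11 (xa T0.l11 T0.l9))
  (TrL.c (I.pos (nat_lit 0) (nat_lit 0)) (xa (xa T0.l20 T0.l20) T0.l16)
  (TrL.c (I.pos (nat_lit 0) (nat_lit 0)) T5.l11
  (TrL.c (I.mix (nat_lit 29511666) (nat_lit 77433728)) (xR (xR T0.l11 T0.l11) (xR T0.l11 (xa T0.l11 T0.l11)))
  (TrL.c (I.mix (nat_lit 29511666) (nat_lit 46070178)) T5.l6
  TrL.n)))))))) (by decide +kernel)
theorem bx3_13 : BoxOK sI cl7 cl13 cl4 t5 t0 b3_13 :=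
  box_mk (TrL.c (I.pos (nat_lit 0) (nat_lit 0)) (xa T5.l0 T5.l0)
  (TrL.c (I.pos (nat_lit 0) (nat_lit 0)) (xk T0.l8 T0.l8)
  (TrL.c (I.pos (nat_lit 0) (nat_lit 111196574)) (xR (xR T5.l10 T5.l10) (xR T5.l10 T5.l4))
  (TrL.c (I.pos (nat_lit 0) (nat_lit 77433728)) (xR (xR T0.l9 T0.l9) (xR T0.l9 T0.l9))
  (TrL.c (I.pos (nat_lit 0) (nat_lit 0)) T0.l10
  (TrL.c (I.pos (nat_lit 0) (nat_lit 0)) T5.l11
  (TrL.c (I.mix (nat_lit 29511666) (nat_lit 77433728)) (xR (xR T0.l11 T0.l11) T0.l11)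
  (TrL.c (I.mix (nat_lit 29511666) (nat_lit 46070178)) (xR T5.l12 T5.l12)
  TrL.n)))))))) (by decide +kernel)
theorem bx3_14 : BoxOK sI cl7 cl13 cl4 t5 t0 b3_14 :=
  box_mk (TrL.c (I.pos (nat_lit 0) (nat_lit 0)) (xa (xb T5.l0 (xa T5.l0 T5.l0)) (xb (xa T5.l3 T5.l3) (xa (xs T5.l0 T5.l0) T5.l3)))
  (TrL.c (I.pos (nat_lit 0) (nat_lit 0)) (xk (xa T0.l2 T0.l2) (xa T0.l8 T0.l2))
  (TrL.c (I.pos (nat_lit 0) (nat_lit 111196574)) (xR (xR T5.l10 T5.l10) (xR T5.l10 T5.l4))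
  (TrL.c (I.pos (nat_lit 0) (nat_lit 77433728)) (xR (xR T0.l9 (xR T0.l9 T0.l9)) (xR T0.l9 T0.l9))
  (TrL.c (I.pos (nat_lit 0) (nat_lit 0)) (xk (xa T0.l10 T0.l10) (xa T0.l10 T0.l10))
  (TrL.c (I.pos (nat_lit 0) (nat_lit 0)) (xk T5.l11 T5.l11)
  (TrL.c (I.mix (nat_lit 29511666) (nat_lit 77433728)) (xR (xR (xR T0.l11 T0.l11) T0.l11) (xR T0.l11 (xR T0.l11 T0.l11)))
  (TrL.c (I.mix (nat_lit 29511666) (nat_lit 46070178)) (xR (xR T5.l12 T5.l12) T5.l2)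
  TrL.n)))))))) (by decide +kernel)
theorem bx3_15 : BoxOK sI cl7 cl13 cl4 t5 t0 b3_15 :=
  box_mk (TrL.c (I.pos (nat_lit 0) (nat_lit 0)) (xa (xb (xa (xs T5.l0 (xb T5.l0 T5.l0)) (xs T5.l0 (xb T5.l0 T5.l0))) (xa (xs T5.l15 (xb T5.l15 (xk T5.l15 T5.l15))) (xs T5.l15 (xb T5.l15 (xk T5.l15 T5.l15))))) (xb (xa (xs T5.l0 (xb T5.l0 T5.l0)) (xs T5.l0 (xb T5.l0 T5.l0))) (xs (xa (xb T5.l0 T5.l15) (xb T5.l0 T5.l0)) (xa (xb (xk T5.l0 T5.l0) (xk T5.l0 T5.l0)) (xb (xk T5.l0 T5.l0) (xk T5.l3 T5.l0))))))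
  (TrL.c (I.pos (nat_lit 0) (nat_lit 0)) (xk (xa (xb T0.l8 T0.l8) (xb T0.l8 T0.l8)) (xa T0.l8 T0.l8))
  (TrL.c (I.pos (nat_lit 0) (nat_lit 111196574)) (xR (xR T5.l10 T5.l10) (xR T5.l4 (xR T5.l4 T5.l4)))
  (TrL.c (I.pos (nat_lit 0) (nat_lit 77433728)) (xR (xR T0.l9 T0.l9) (xR T0.l9 (xR T0.l9 (xk T0.l9 T0.l9))))
  (TrL.c (I.pos (nat_lit 0) (nat_lit 0)) (xk (xa T0.l10 T0.l10) (xa T0.l10 T0.l10))
  (TrL.c (I.pos (nat_lit 0) (nat_lit 0)) T5.l11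
  (TrL.c (I.mix (nat_lit 29511666) (nat_lit 77433728)) (xR T0.l11 (xR T0.l11 (xR T0.l11 (xk T0.l11 T0.l11))))
  (TrL.c (I.mix (nat_lit 29511666) (nat_lit 46070178)) (xR T5.l12 (xR T5.l12 T5.l12))
  TrL.n)))))))) (by decide +kernel)
theorem bx3_16 : BoxOK sI cl7 cl13 cl4 t5 t0 b3_16 :=
  box_mk (TrL.c (I.pos (nat_lit 0) (nat_lit 0)) (xa (xb (xa (xb (xs T5.l0 T5.l0) (xs T5.l0 T5.l0)) (xb (xs T5.l0 T5.l0) (xs T5.l0 T5.l0))) (xa (xb (xs T5.l0 T5.l0) (xs T5.l0 (xa T5.l0 T5.l0))) (xs (xb T5.l0 T5.l0) (xb (xa T5.l0 T5.l0) (xa T5.l0 T5.l0))))) (xb (xa T5.l3 (xs T5.l3 (xb T5.l3 T5.l3))) (xa (xs T5.l3 T5.l3) (xs T5.l3 (xb T5.l3 (xa T5.l3 T5.l3))))))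
  (TrL.c (I.pos (nat_lit 0) (nat_lit 0)) (xa (xk (xb T0.l2 T0.l2) (xb T0.l8 (xa T0.l8 T0.l8))) (xk (xb T0.l2 T0.l2) T0.l2))
  (TrL.c (I.pos (nat_lit 0) (nat_lit 111196574)) (xR (xR T5.l10 T5.l10) (xR T5.l4 (xR T5.l4 T5.l4)))
  (TrL.c (I.pos (nat_lit 0) (nat_lit 77433728)) (xR (xR T0.l9 (xR T0.l9 T0.l9)) (xR T0.l9 (xR T0.l9 (xk T0.l9 T0.l9))))
  (TrL.c (I.pos (nat_lit 0) (nat_lit 0)) (xa (xb (xk (xa T0.l10 T0.l10) (xa T0.l10 T0.l10)) (xk T0.l10 T0.l10)) (xb (xk (xa T0.l10 (xk (xb T0.l10 T0.l10) (xb T0.l10 T0.l10))) (xa T0.l10 (xb (xk T0.l10 T0.l10) T0.l10))) (xk (xa T0.l10 (xk (xb T0.l10 T0.l10) T0.l10)) (xa T0.l10 (xk T0.l10 (xb T0.l10 T0.l10))))))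
  (TrL.c (I.pos (nat_lit 0) (nat_lit 0)) (xk (xb T5.l1 T5.l11) (xa T5.l11 (xb T5.l11 T5.l11)))
  (TrL.c (I.mix (nat_lit 29511666) (nat_lit 77433728)) (xR (xR (xR T0.l11 T0.l11) T0.l11) (xR T0.l11 (xR T0.l11 (xk (xR T0.l11 T0.l11) T0.l11))))
  (TrL.c (I.mix (nat_lit 29511666) (nat_lit 46070178)) (xR (xR (xR T5.l12 T5.l12) T5.l12) (xR T5.l12 T5.l2))
  TrL.n)))))))) (by decide +kernel)
theorem bx3_17 : BoxOK sI cl7 cl13 cl4 t5 t0 b3_17 :=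
  box_mk (TrL.c (I.pos (nat_lit 0) (nat_lit 0)) (xa (xb T5.l3 (xa T5.l0 T5.l3)) (xb (xs T5.l3 T5.l3) (xs T5.l3 T5.l3)))
  (TrL.c (I.pos (nat_lit 0) (nat_lit 0)) (xk T0.l2 T0.l2)
  (TrL.c (I.pos (nat_lit 0) (nat_lit 111196574)) (xR (xR T5.l10 T5.l10) (xR T5.l10 T5.l4))
  (TrL.c (I.pos (nat_lit 0) (nat_lit 77433728)) (xR (xR T0.l9 (xR T0.l9 T0.l9)) (xR T0.l9 T0.l9))
  (TrL.c (I.pos (nat_lit 0) (nat_lit 0)) (xk (xb (xa T0.l10 (xk T0.l10 T0.l10)) T0.l10) (xb (xa T0.l10 (xk T0.l10 T0.l10)) T0.l10))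
  (TrL.c (I.pos (nat_lit 0) (nat_lit 0)) (xk T5.l1 T5.l1)
  (TrL.c (I.mix (nat_lit 29511666) (nat_lit 77433728)) (xR (xR (xR T0.l11 T0.l11) T0.l11) (xR T0.l11 (xR T0.l11 T0.l11)))
  (TrL.c (I.mix (nat_lit 29511666) (nat_lit 46070178)) (xR (xR T5.l12 T5.l12) T5.l2)
  TrL.n)))))))) (by decide +kernel)
theorem bx3_18 : BoxOK sI cl7 cl13 cl4 t5 t0 b3_18 :=
  box_mk (TrL.c (I.pos (nat_lit 0) (nat_lit 0)) (xa (xb T5.l0 T5.l0) (xb T5.l0 T5.l0))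
  (TrL.c (I.pos (nat_lit 0) (nat_lit 0)) (xk (xa T0.l8 T0.l8) T0.l8)
  (TrL.c (I.pos (nat_lit 0) (nat_lit 111196574)) (xR (xR T5.l10 T5.l10) (xR T5.l10 T5.l4))
  (TrL.c (I.pos (nat_lit 0) (nat_lit 77433728)) (xR (xR T0.l9 T0.l9) (xR T0.l9 T0.l9))
  (TrL.c (I.pos (nat_lit 0) (nat_lit 0)) T0.l10
  (TrL.c (I.pos (nat_lit 0) (nat_lit 0)) T5.l11
  (TrL.c (I.mix (nat_lit 29511666) (nat_lit 77433728)) (xR (xR T0.l11 T0.l11) T0.l11)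
  (TrL.c (I.mix (nat_lit 29511666) (nat_lit 46070178)) (xR T5.l12 T5.l12)
  TrL.n)))))))) (by decide +kernel)
theorem bx3_19 : BoxOK sI cl7 cl13 cl4 t5 t0 b3_19 :=
  box_mk (TrL.c (I.pos (nat_lit 0) (nat_lit 0)) T5.l0
  (TrL.c (I.pos (nat_lit 0) (nat_lit 0)) T0.l8
  (TrL.c (I.pos (nat_lit 0) (nat_lit 111196574)) (xR (xR T5.l10 T5.l10) (xR T5.l10 T5.l10))
  (TrL.c (I.pos (nat_lit 0) (nat_lit 77433728)) (xR (xR T0.l9 T0.l9) (xR T0.l9 T0.l9))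
  (TrL.c (I.pos (nat_lit 0) (nat_lit 0)) T0.l10
  (TrL.c (I.pos (nat_lit 0) (nat_lit 0)) T5.l11
  (TrL.c (I.mix (nat_lit 29511666) (nat_lit 77433728)) (xR T0.l11 T0.l11)
  (TrL.c (I.mix (nat_lit 29511666) (nat_lit 46070178)) (xR T5.l12 T5.l12)
  TrL.n)))))))) (by decide +kernel)
theorem bx3_20 : BoxOK sI cl7 cl13 cl4 t5 t0 b3_20 :=
  box_mk (TrL.c (I.pos (nat_lit 0) (nat_lit 0)) (xa T5.l0 T5.l0)
  (TrL.c (I.pos (nat_lit 0) (nat_lit 0)) (xk T0.l8 T0.l8)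
  (TrL.c (I.pos (nat_lit 0) (nat_lit 111196574)) (xR (xR T5.l10 T5.l10) (xR T5.l10 T5.l4))
  (TrL.c (I.pos (nat_lit 0) (nat_lit 77433728)) (xR (xR T0.l9 T0.l9) (xR T0.l9 T0.l9))
  (TrL.c (I.pos (nat_lit 0) (nat_lit 0)) T0.l10
  (TrL.c (I.pos (nat_lit 0) (nat_lit 0)) T5.l11
  (TrL.c (I.mix (nat_lit 29511666) (nat_lit 77433728)) (xR T0.l11 T0.l11)
  (TrL.c (I.mix (nat_lit 29511666) (nat_lit 46070178)) (xR T5.l12 T5.l12)
  TrL.n)))))))) (by decide +kernel)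
theorem bx3_21 : BoxOK sI cl7 cl13 cl4 t5 t0 b3_21 :=
  box_mk (TrL.c (I.pos (nat_lit 0) (nat_lit 0)) (xa (xb T5.l0 T5.l0) (xb T5.l3 T5.l3))
  (TrL.c (I.pos (nat_lit 0) (nat_lit 0)) (xk T0.l2 T0.l2)
  (TrL.c (I.pos (nat_lit 0) (nat_lit 111196574)) (xR (xR T5.l10 T5.l10) (xR T5.l10 T5.l4))
  (TrL.c (I.pos (nat_lit 0) (nat_lit 77433728)) (xR (xR T0.l9 (xR T0.l9 T0.l9)) (xR T0.l9 T0.l9))
  (TrL.c (I.pos (nat_lit 0) (nat_lit 0)) (xk (xb (xa T0.l10 T0.l10) T0.l10) (xb (xa T0.l10 T0.l10) T0.l10))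
  (TrL.c (I.pos (nat_lit 0) (nat_lit 0)) (xk T5.l11 T5.l11)
  (TrL.c (I.mix (nat_lit 29511666) (nat_lit 77433728)) (xR (xR (xR T0.l11 T0.l11) T0.l11) (xR T0.l11 T0.l11))
  (TrL.c (I.mix (nat_lit 29511666) (nat_lit 46070178)) (xR (xR T5.l12 T5.l12) T5.l2)
  TrL.n)))))))) (by decide +kernel)
theorem sv3 : StarV sI cl7 cl13 cl4 t5 t0 t3 :=
  (bt_n (bt_n (bt_n (bt_n (bt_b bx3_0) (bt_b bx3_1)) (bt_n (bt_b bx3_2) (bt_n (bt_b bx3_3) (bt_b bx3_4)))) (bt_n (bt_n (bt_b bx3_5) (bt_n (bt_b bx3_6) (bt_b bx3_7))) (bt_n (bt_b bx3_8) (bt_n (bt_b bx3_9) (bt_b bx3_10))))) (bt_n (bt_n (bt_n (bt_b bx3_11) (bt_b bx3_12)) (bt_n (bt_b bx3_13) (bt_n (bt_b bx3_14) (bt_b bx3_15)))) (bt_n (bt_n (bt_b bx3_16) (bt_n (bt_b bx3_17) (bt_b bx3_18))) (bt_n (bt_b bx3_19) (bt_n (bt_b bx3_20) (bt_b bx3_21))))))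
def S3 : StarD := StarD.mk cl7 cl13 cl4 5 0 t3
theorem bx4_0 : BoxOK sI cl13 cl4 cl7 t1 t3 b4_0 :=
  box_mk (TrL.c (I.pos (nat_lit 0) (nat_lit 0)) (xa (xb T1.l5 (xb T1.l5 (xa T1.l5 (xs T1.l0 T1.l0)))) (xb (xa T1.l0 T1.l0) (xa (xb T1.l0 (xs T1.l0 T1.l0)) (xb T1.l0 (xs T1.l0 T1.l0)))))
  (TrL.c (I.pos (nat_lit 0) (nat_lit 0)) (xa T3.l1 (xb T3.l1 T3.l1))
  (TrL.c (I.pos (nat_lit 0) (nat_lit 134217730)) (xR T1.l12 (xR T1.l1 T1.l12))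
  (TrL.c (I.pos (nat_lit 0) (nat_lit 110514882)) (xR T3.l4 (xR T3.l2 T3.l2))
  (TrL.c (I.pos (nat_lit 0) (nat_lit 0)) (xb (xa T3.l3 (xk T3.l3 T3.l3)) (xa T3.l3 (xk T3.l3 T3.l3)))
  (TrL.c (I.pos (nat_lit 0) (nat_lit 0)) T1.l2
  (TrL.c (I.mix (nat_lit 8088324) (nat_lit 110514882)) (xR (xR T3.l4 T3.l4) (xR T3.l4 (xR T3.l4 T3.l4)))
  (TrL.c (I.mix (nat_lit 8088324) (nat_lit 89478486)) (xR T1.l3 (xR T1.l3 (xR T1.l3 T1.l3)))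
  TrL.n)))))))) (by decide +kernel)
theorem bx4_1 : BoxOK sI cl13 cl4 cl7 t1 t3 b4_1 :=
  box_mk (TrL.c (I.pos (nat_lit 0) (nat_lit 0)) (xa (xb (xa T1.l4 T1.l4) (xa T1.l4 T1.l4)) (xb (xa T1.l4 T1.l4) T1.l4))
  (TrL.c (I.pos (nat_lit 0) (nat_lit 0)) (xa T3.l1 T3.l1)
  (TrL.c (I.pos (nat_lit 0) (nat_lit 134217730)) (xR T1.l12 (xR T1.l1 T1.l12))
  (TrL.c (I.pos (nat_lit 0) (nat_lit 110514882)) (xR T3.l4 (xR T3.l4 (xR T3.l2 T3.l2)))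
  (TrL.c (I.pos (nat_lit 0) (nat_lit 0)) (xa T3.l5 (xb (xk T3.l5 T3.l5) T3.l5))
  (TrL.c (I.pos (nat_lit 0) (nat_lit 0)) T1.l2
  (TrL.c (I.mix (nat_lit 8088324) (nat_lit 110514882)) (xR T3.l4 T3.l4)
  (TrL.c (I.mix (nat_lit 8088324) (nat_lit 89478486)) (xR T1.l12 T1.l10)
  TrL.n)))))))) (by decide +kernel)
theorem bx4_2 : BoxOK sI cl13 cl4 cl7 t1 t3 b4_2 :=
  box_mk (TrL.c (I.pos (nat_lit 0) (nat_lit 0)) (xb (xa (xb T1.l5 T1.l5) (xb (xa T1.l5 T1.l5) T1.l5)) (xa (xb T1.l5 (xa (xb T1.l5 T1.l5) (xb T1.l5 T1.l5))) (xa (xb T1.l5 (xb T1.l5 T1.l5)) (xb T1.l5 (xb T1.l5 (xs T1.l5 T1.l5))))))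
  (TrL.c (I.pos (nat_lit 0) (nat_lit 0)) (xb (xa T3.l1 T3.l1) (xa T3.l1 (xk T3.l1 T3.l1)))
  (TrL.c (I.pos (nat_lit 0) (nat_lit 134217730)) (xR T1.l12 (xR T1.l1 (xR T1.l1 (xb T1.l1 T1.l1))))
  (TrL.c (I.pos (nat_lit 0) (nat_lit 110514882)) (xR T3.l4 (xR T3.l2 (xR T3.l2 T3.l2)))
  (TrL.c (I.pos (nat_lit 0) (nat_lit 0)) (xb (xa T3.l6 (xk T3.l6 T3.l6)) (xa (xb T3.l6 (xk T3.l3 T3.l3)) (xk (xb (xb T3.l3 T3.l3) (xs T3.l3 (xb T3.l3 T3.l3))) (xb T3.l3 (xs T3.l3 (xb T3.l3 (xa T3.l3 T3.l3)))))))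
  (TrL.c (I.pos (nat_lit 0) (nat_lit 0)) (xb T1.l2 T1.l2)
  (TrL.c (I.mix (nat_lit 8088324) (nat_lit 110514882)) (xR (xR T3.l4 T3.l4) (xR T3.l4 (xR T3.l4 T3.l4)))
  (TrL.c (I.mix (nat_lit 8088324) (nat_lit 89478486)) (xR T1.l12 (xR T1.l3 (xb T1.l10 T1.l3)))
  TrL.n)))))))) (by decide +kernel)
theorem bx4_3 : BoxOK sI cl13 cl4 cl7 t1 t3 b4_3 :=
  box_mk (TrL.c (I.pos (nat_lit 0) (nat_lit 0)) (xa T3.l1 T3.l1)
  (TrL.c (I.pos (nat_lit 0) (nat_lit 0)) T1.l1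
  (TrL.c (I.mix (nat_lit 8088324) (nat_lit 110514882)) (xR T3.l12 (xR T3.l4 (xR T3.l2 T3.l2)))
  (TrL.c (I.mix (nat_lit 8088324) (nat_lit 89478486)) (xR (xR T1.l6 T1.l1) T1.l1)
  TrL.n)))) (by decide +kernel)
theorem bx4_4 : BoxOK sI cl13 cl4 cl7 t1 t3 b4_4 :=
  box_mk (TrL.c (I.pos (nat_lit 0) (nat_lit 0)) T3.l8
  (TrL.c (I.pos (nat_lit 0) (nat_lit 0)) T1.l7
  (TrL.c (I.mix (nat_lit 8088324) (nat_lit 110514882)) (xR T3.l12 T3.l4)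
  (TrL.c (I.mix (nat_lit 8088324) (nat_lit 89478486)) (xR (xR T1.l6 T1.l1) T1.l1)
  TrL.n)))) (by decide +kernel)
theorem bx4_5 : BoxOK sI cl13 cl4 cl7 t1 t3 b4_5 :=
  box_mk (TrL.c (I.pos (nat_lit 0) (nat_lit 0)) (xb T1.l8 T1.l4)
  (TrL.c (I.pos (nat_lit 0) (nat_lit 0)) T3.l1
  (TrL.c (I.pos (nat_lit 0) (nat_lit 134217730)) (xR T1.l10 T1.l12)
  (TrL.c (I.pos (nat_lit 0) (nat_lit 110514882)) (xR T3.l4 T3.l4)
  (TrL.c (I.pos (nat_lit 0) (nat_lit 0)) T3.l5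
  (TrL.c (I.pos (nat_lit 0) (nat_lit 0)) T1.l2
  (TrL.c (I.mix (nat_lit 8088324) (nat_lit 110514882)) T3.l4
  (TrL.c (I.mix (nat_lit 8088324) (nat_lit 89478486)) T1.l12
  TrL.n)))))))) (by decide +kernel)
theorem bx4_6 : BoxOK sI cl13 cl4 cl7 t1 t3 b4_6 :=
  box_mk (TrL.c (I.pos (nat_lit 0) (nat_lit 0)) (xa (xb T1.l0 T1.l0) (xb T1.l0 T1.l0))
  (TrL.c (I.pos (nat_lit 0) (nat_lit 0)) (xa T3.l1 (xk T3.l1 T3.l1))
  (TrL.c (I.pos (nat_lit 0) (nat_lit 134217730)) (xR T1.l12 T1.l12)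
  (TrL.c (I.pos (nat_lit 0) (nat_lit 110514882)) (xR T3.l12 (xR T3.l2 T3.l2))
  (TrL.c (I.pos (nat_lit 0) (nat_lit 0)) (xa (xb (xk T3.l3 T3.l3) T3.l3) (xk (xb T3.l3 T3.l3) (xb T3.l3 T3.l3)))
  (TrL.c (I.pos (nat_lit 0) (nat_lit 0)) (xk T1.l2 T1.l2)
  (TrL.c (I.mix (nat_lit 8088324) (nat_lit 110514882)) (xR (xR T3.l4 T3.l4) (xR T3.l4 (xR T3.l4 (xR T3.l4 T3.l4))))
  (TrL.c (I.mix (nat_lit 8088324) (nat_lit 89478486)) (xR T1.l3 T1.l3)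
  TrL.n)))))))) (by decide +kernel)
theorem bx4_7 : BoxOK sI cl13 cl4 cl7 t1 t3 b4_7 :=
  box_mk (TrL.c (I.pos (nat_lit 0) (nat_lit 0)) T1.l8
  (TrL.c (I.pos (nat_lit 0) (nat_lit 0)) T3.l8
  (TrL.c (I.pos (nat_lit 0) (nat_lit 134217730)) (xR T1.l1 (xR T1.l1 T1.l1))
  (TrL.c (I.pos (nat_lit 0) (nat_lit 110514882)) T3.l4
  (TrL.c (I.pos (nat_lit 0) (nat_lit 0)) T3.l9
  (TrL.c (I.pos (nat_lit 0) (nat_lit 0)) T1.l2
  (TrL.c (I.mix (nat_lit 8088324) (nat_lit 110514882)) (xR T3.l4 T3.l4)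
  (TrL.c (I.mix (nat_lit 8088324) (nat_lit 89478486)) (xR T1.l12 T1.l1)
  TrL.n)))))))) (by decide +kernel)
theorem bx4_8 : BoxOK sI cl13 cl4 cl7 t1 t3 b4_8 :=
  box_mk (TrL.c (I.pos (nat_lit 0) (nat_lit 0)) T1.l0
  (TrL.c (I.pos (nat_lit 0) (nat_lit 0)) T3.l1
  (TrL.c (I.pos (nat_lit 0) (nat_lit 134217730)) (xR T1.l12 T1.l1)
  (TrL.c (I.pos (nat_lit 0) (nat_lit 110514882)) (xR T3.l4 T3.l2)
  (TrL.c (I.pos (nat_lit 0) (nat_lit 0)) T3.l3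
  (TrL.c (I.pos (nat_lit 0) (nat_lit 0)) T1.l2
  (TrL.c (I.mix (nat_lit 8088324) (nat_lit 110514882)) (xR (xR T3.l4 T3.l4) T3.l4)
  (TrL.c (I.mix (nat_lit 8088324) (nat_lit 89478486)) (xR T1.l3 T1.l3)
  TrL.n)))))))) (by decide +kernel)
theorem bx4_9 : BoxOK sI cl13 cl4 cl7 t1 t3 b4_9 :=
  box_mk (TrL.c (I.pos (nat_lit 0) (nat_lit 0)) T1.l8
  (TrL.c (I.pos (nat_lit 0) (nat_lit 0)) T3.l1
  (TrL.c (I.pos (nat_lit 0) (nat_lit 134217730)) T1.l12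
  (TrL.c (I.pos (nat_lit 0) (nat_lit 110514882)) T3.l4
  (TrL.c (I.pos (nat_lit 0) (nat_lit 0)) T3.l5
  (TrL.c (I.pos (nat_lit 0) (nat_lit 0)) T1.l2
  (TrL.c (I.mix (nat_lit 8088324) (nat_lit 110514882)) (xR T3.l4 T3.l4)
  (TrL.c (I.mix (nat_lit 8088324) (nat_lit 89478486)) T1.l12
  TrL.n)))))))) (by decide +kernel)
theorem bx4_10 : BoxOK sI cl13 cl4 cl7 t1 t3 b4_10 :=
  box_mk (TrL.c (I.pos (nat_lit 0) (nat_lit 0)) T1.l0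
  (TrL.c (I.pos (nat_lit 0) (nat_lit 0)) T3.l1
  (TrL.c (I.pos (nat_lit 0) (nat_lit 134217730)) (xR T1.l12 T1.l1)
  (TrL.c (I.pos (nat_lit 0) (nat_lit 110514882)) (xR T3.l4 T3.l2)
  (TrL.c (I.pos (nat_lit 0) (nat_lit 0)) (xk T3.l3 T3.l3)
  (TrL.c (I.pos (nat_lit 0) (nat_lit 0)) T1.l2
  (TrL.c (I.mix (nat_lit 8088324) (nat_lit 110514882)) (xR (xR T3.l4 T3.l4) (xR T3.l4 (xR T3.l4 T3.l4)))
  (TrL.c (I.mix (nat_lit 8088324) (nat_lit 89478486)) T1.l3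
  TrL.n)))))))) (by decide +kernel)
theorem bx4_11 : BoxOK sI cl13 cl4 cl7 t1 t3 b4_11 :=
  box_mk (TrL.c (I.pos (nat_lit 0) (nat_lit 0)) T1.l8
  (TrL.c (I.pos (nat_lit 0) (nat_lit 0)) T3.l8
  (TrL.c (I.pos (nat_lit 0) (nat_lit 134217730)) (xR T1.l1 (xR T1.l1 T1.l1))
  (TrL.c (I.pos (nat_lit 0) (nat_lit 110514882)) T3.l4
  (TrL.c (I.pos (nat_lit 0) (nat_lit 0)) T3.l9
  (TrL.c (I.pos (nat_lit 0) (nat_lit 0)) T1.l2
  (TrL.c (I.mix (nat_lit 8088324) (nat_lit 110514882)) (xR T3.l4 T3.l4)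
  (TrL.c (I.mix (nat_lit 8088324) (nat_lit 89478486)) (xR T1.l12 T1.l1)
  TrL.n)))))))) (by decide +kernel)
theorem bx4_12 : BoxOK sI cl13 cl4 cl7 t1 t3 b4_12 :=
  box_mk (TrL.c (I.pos (nat_lit 0) (nat_lit 0)) T1.l0
  (TrL.c (I.pos (nat_lit 0) (nat_lit 0)) T3.l1
  (TrL.c (I.pos (nat_lit 0) (nat_lit 134217730)) (xR T1.l12 T1.l1)
  (TrL.c (I.pos (nat_lit 0) (nat_lit 110514882)) (xR T3.l4 T3.l2)
  (TrL.c (I.pos (nat_lit 0) (nat_lit 0)) T3.l3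
  (TrL.c (I.pos (nat_lit 0) (nat_lit 0)) T1.l2
  (TrL.c (I.mix (nat_lit 8088324) (nat_lit 110514882)) (xR (xR T3.l4 T3.l4) (xR T3.l4 T3.l4))
  (TrL.c (I.mix (nat_lit 8088324) (nat_lit 89478486)) T1.l3
  TrL.n)))))))) (by decide +kernel)
theorem bx4_13 : BoxOK sI cl13 cl4 cl7 t1 t3 b4_13 :=
  box_mk (TrL.c (I.pos (nat_lit 0) (nat_lit 0)) T1.l0
  (TrL.c (I.pos (nat_lit 0) (nat_lit 0)) T3.l1
  (TrL.c (I.pos (nat_lit 0) (nat_lit 134217730)) (xR T1.l12 T1.l1)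
  (TrL.c (I.pos (nat_lit 0) (nat_lit 110514882)) (xR T3.l4 T3.l2)
  (TrL.c (I.pos (nat_lit 0) (nat_lit 0)) T3.l3
  (TrL.c (I.pos (nat_lit 0) (nat_lit 0)) T1.l2
  (TrL.c (I.mix (nat_lit 8088324) (nat_lit 110514882)) (xR (xR T3.l4 T3.l4) T3.l4)
  (TrL.c (I.mix (nat_lit 8088324) (nat_lit 89478486)) T1.l3
  TrL.n)))))))) (by decide +kernel)
theorem bx4_14 : BoxOK sI cl13 cl4 cl7 t1 t3 b4_14 :=
  box_mk (TrL.c (I.pos (nat_lit 0) (nat_lit 0)) T1.l8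
  (TrL.c (I.pos (nat_lit 0) (nat_lit 0)) T3.l1
  (TrL.c (I.pos (nat_lit 0) (nat_lit 134217730)) (xR T1.l1 T1.l1)
  (TrL.c (I.pos (nat_lit 0) (nat_lit 110514882)) T3.l4
  (TrL.c (I.pos (nat_lit 0) (nat_lit 0)) T3.l5
  (TrL.c (I.pos (nat_lit 0) (nat_lit 0)) T1.l2
  (TrL.c (I.mix (nat_lit 8088324) (nat_lit 110514882)) (xR T3.l4 T3.l4)
  (TrL.c (I.mix (nat_lit 8088324) (nat_lit 89478486)) T1.l12
  TrL.n)))))))) (by decide +kernel)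
theorem bx4_15 : BoxOK sI cl13 cl4 cl7 t1 t3 b4_15 :=
  box_mk (TrL.c (I.pos (nat_lit 0) (nat_lit 0)) (xa T1.l0 T1.l0)
  (TrL.c (I.pos (nat_lit 0) (nat_lit 0)) (xk T3.l1 T3.l1)
  (TrL.c (I.pos (nat_lit 0) (nat_lit 134217730)) (xR T1.l12 T1.l12)
  (TrL.c (I.pos (nat_lit 0) (nat_lit 110514882)) (xR T3.l4 (xR T3.l2 T3.l2))
  (TrL.c (I.pos (nat_lit 0) (nat_lit 0)) (xk (xa T3.l3 (xb T3.l3 T3.l3)) (xa T3.l3 T3.l3))
  (TrL.c (I.pos (nat_lit 0) (nat_lit 0)) T1.l2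
  (TrL.c (I.mix (nat_lit 8088324) (nat_lit 110514882)) (xR (xR T3.l4 T3.l4) (xR T3.l4 (xR T3.l4 (xR T3.l4 T3.l4))))
  (TrL.c (I.mix (nat_lit 8088324) (nat_lit 89478486)) (xR T1.l3 T1.l3)
  TrL.n)))))))) (by decide +kernel)
theorem bx4_16 : BoxOK sI cl13 cl4 cl7 t1 t3 b4_16 :=
  box_mk (TrL.c (I.pos (nat_lit 0) (nat_lit 0)) T1.l8
  (TrL.c (I.pos (nat_lit 0) (nat_lit 0)) T3.l8
  (TrL.c (I.pos (nat_lit 0) (nat_lit 134217730)) (xR T1.l1 (xR T1.l1 T1.l1))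
  (TrL.c (I.pos (nat_lit 0) (nat_lit 110514882)) T3.l4
  (TrL.c (I.pos (nat_lit 0) (nat_lit 0)) T3.l9
  (TrL.c (I.pos (nat_lit 0) (nat_lit 0)) T1.l2
  (TrL.c (I.mix (nat_lit 8088324) (nat_lit 110514882)) (xR T3.l4 T3.l4)
  (TrL.c (I.mix (nat_lit 8088324) (nat_lit 89478486)) (xR T1.l12 T1.l1)
  TrL.n)))))))) (by decide +kernel)
theorem bx4_17 : BoxOK sI cl13 cl4 cl7 t1 t3 b4_17 :=
  box_mk (TrL.c (I.pos (nat_lit 0) (nat_lit 0)) (xa (xb T1.l0 (xa T1.l5 T1.l5)) (xb (xa T1.l0 T1.l0) (xs T1.l0 (xa T1.l0 T1.l0))))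
  (TrL.c (I.pos (nat_lit 0) (nat_lit 0)) (xk T3.l1 T3.l1)
  (TrL.c (I.pos (nat_lit 0) (nat_lit 134217730)) (xR T1.l12 T1.l1)
  (TrL.c (I.pos (nat_lit 0) (nat_lit 110514882)) (xR T3.l4 T3.l2)
  (TrL.c (I.pos (nat_lit 0) (nat_lit 0)) (xk T3.l3 (xb T3.l3 T3.l3))
  (TrL.c (I.pos (nat_lit 0) (nat_lit 0)) T1.l2
  (TrL.c (I.mix (nat_lit 8088324) (nat_lit 110514882)) (xR (xR T3.l4 T3.l4) T3.l4)
  (TrL.c (I.mix (nat_lit 8088324) (nat_lit 89478486)) (xR T1.l3 T1.l3)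
  TrL.n)))))))) (by decide +kernel)
theorem bx4_18 : BoxOK sI cl13 cl4 cl7 t1 t3 b4_18 :=
  box_mk (TrL.c (I.pos (nat_lit 0) (nat_lit 0)) T1.l4
  (TrL.c (I.pos (nat_lit 0) (nat_lit 0)) T3.l1
  (TrL.c (I.pos (nat_lit 0) (nat_lit 134217730)) (xR T1.l10 T1.l1)
  (TrL.c (I.pos (nat_lit 0) (nat_lit 110514882)) T3.l4
  (TrL.c (I.pos (nat_lit 0) (nat_lit 0)) T3.l5
  (TrL.c (I.pos (nat_lit 0) (nat_lit 0)) T1.l2
  (TrL.c (I.mix (nat_lit 8088324) (nat_lit 110514882)) T3.l4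
  (TrL.c (I.mix (nat_lit 8088324) (nat_lit 89478486)) T1.l12
  TrL.n)))))))) (by decide +kernel)
theorem bx4_19 : BoxOK sI cl13 cl4 cl7 t1 t3 b4_19 :=
  box_mk (TrL.c (I.pos (nat_lit 0) (nat_lit 0)) (xa (xb T1.l0 (xa T1.l0 T1.l0)) (xb T1.l0 (xa T1.l0 T1.l0)))
  (TrL.c (I.pos (nat_lit 0) (nat_lit 0)) (xa T3.l1 (xk T3.l1 T3.l1))
  (TrL.c (I.pos (nat_lit 0) (nat_lit 134217730)) (xR (xR T1.l12 T1.l1) T1.l12)
  (TrL.c (I.pos (nat_lit 0) (nat_lit 110514882)) (xR T3.l12 (xR T3.l2 (xR T3.l2 T3.l2)))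
  (TrL.c (I.pos (nat_lit 0) (nat_lit 0)) (xa (xb (xk T3.l3 T3.l3) (xk T3.l3 T3.l3)) (xb (xk (xa T3.l3 (xb T3.l3 T3.l3)) (xa T3.l3 T3.l3)) (xk (xa T3.l3 (xb T3.l3 T3.l3)) (xa T3.l3 T3.l3))))
  (TrL.c (I.pos (nat_lit 0) (nat_lit 0)) (xk T1.l2 T1.l2)
  (TrL.c (I.mix (nat_lit 8088324) (nat_lit 110514882)) (xR (xR T3.l4 T3.l4) (xR T3.l4 (xR T3.l4 (xk (xR T3.l4 T3.l4) T3.l4))))
  (TrL.c (I.mix (nat_lit 8088324) (nat_lit 89478486)) (xR T1.l3 (xR T1.l3 (xR T1.l3 T1.l3)))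
  TrL.n)))))))) (by decide +kernel)
theorem bx4_20 : BoxOK sI cl13 cl4 cl7 t1 t3 b4_20 :=
  box_mk (TrL.c (I.pos (nat_lit 0) (nat_lit 0)) (xb T1.l8 T1.l8)
  (TrL.c (I.pos (nat_lit 0) (nat_lit 0)) T3.l8
  (TrL.c (I.pos (nat_lit 0) (nat_lit 134217730)) (xR T1.l1 (xR T1.l1 T1.l12))
  (TrL.c (I.pos (nat_lit 0) (nat_lit 110514882)) T3.l4
  (TrL.c (I.pos (nat_lit 0) (nat_lit 0)) T3.l9
  (TrL.c (I.pos (nat_lit 0) (nat_lit 0)) T1.l2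
  (TrL.c (I.mix (nat_lit 8088324) (nat_lit 110514882)) (xR T3.l4 T3.l4)
  (TrL.c (I.mix (nat_lit 8088324) (nat_lit 89478486)) (xR T1.l12 T1.l1)
  TrL.n)))))))) (by decide +kernel)
theorem sv4 : StarV sI cl13 cl4 cl7 t1 t3 t4 :=
  (bt_n (bt_n (bt_n (bt_n (bt_b bx4_0) (bt_b bx4_1)) (bt_n (bt_b bx4_2) (bt_n (bt_b bx4_3) (bt_b bx4_4)))) (bt_n (bt_n (bt_b bx4_5) (bt_b bx4_6)) (bt_n (bt_b bx4_7) (bt_n (bt_b bx4_8) (bt_b bx4_9))))) (bt_n (bt_n (bt_n (bt_b bx4_10) (bt_b bx4_11)) (bt_n (bt_b bx4_12) (bt_n (bt_b bx4_13) (bt_b bx4_14)))) (bt_n (bt_n (bt_b bx4_15) (bt_n (bt_b bx4_16) (bt_b bx4_17))) (bt_n (bt_b bx4_18) (bt_n (bt_b bx4_19) (bt_b bx4_20))))))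
def S4 : StarD := StarD.mk cl13 cl4 cl7 1 3 t4
theorem bx5_0 : BoxOK sI cl13 cl7 cl4 t3 t1 b5_0 :=
  box_mk (TrL.c (I.pos (nat_lit 0) (nat_lit 0)) (xa (xb (xa T3.l15 T3.l15) (xa (xs T3.l15 (xb T3.l15 T3.l15)) (xs T3.l15 (xb T3.l0 T3.l15)))) (xb (xa T3.l0 T3.l0) (xa (xs T3.l0 (xb T3.l0 T3.l0)) (xs T3.l0 (xb T3.l0 T3.l0)))))
  (TrL.c (I.pos (nat_lit 0) (nat_lit 0)) (xa (xk T1.l9 T1.l9) (xk T1.l9 T1.l9))
  (TrL.c (I.pos (nat_lit 0) (nat_lit 134217730)) (xR (xR T3.l4 T3.l4) (xR T3.l4 (xR T3.l10 (xR T3.l10 T3.l10))))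
  (TrL.c (I.pos (nat_lit 0) (nat_lit 110514882)) (xR (xR T1.l10 T1.l10) (xR T1.l10 (xR T1.l10 T1.l10)))
  (TrL.c (I.pos (nat_lit 0) (nat_lit 0)) (xa (xk T1.l11 T1.l11) (xk (xb T1.l11 T1.l11) (xb T1.l11 (xb T1.l11 T1.l11))))
  (TrL.c (I.pos (nat_lit 0) (nat_lit 0)) T3.l11
  (TrL.c (I.mix (nat_lit 8088324) (nat_lit 110514882)) (xR T1.l12 (xR T1.l12 T1.l12))
  (TrL.c (I.mix (nat_lit 8088324) (nat_lit 89478486)) (xR T3.l12 T3.l12)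
  TrL.n)))))))) (by decide +kernel)
theorem bx5_1 : BoxOK sI cl13 cl7 cl4 t3 t1 b5_1 :=
  box_mk (TrL.c (I.pos (nat_lit 0) (nat_lit 0)) (xa (xb (xa T3.l18 T3.l18) T3.l18) (xb (xa T3.l13 T3.l0) (xa T3.l13 T3.l0)))
  (TrL.c (I.pos (nat_lit 0) (nat_lit 0)) (xa T1.l9 T1.l9)
  (TrL.c (I.pos (nat_lit 0) (nat_lit 134217730)) (xR (xR T3.l4 T3.l4) (xR T3.l4 T3.l10))
  (TrL.c (I.pos (nat_lit 0) (nat_lit 110514882)) (xR T1.l12 (xR T1.l10 T1.l10))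
  (TrL.c (I.pos (nat_lit 0) (nat_lit 0)) (xa (xb T1.l13 T1.l13) (xk T1.l13 T1.l13))
  (TrL.c (I.pos (nat_lit 0) (nat_lit 0)) T3.l11
  (TrL.c (I.mix (nat_lit 8088324) (nat_lit 110514882)) (xR T1.l12 T1.l12)
  (TrL.c (I.mix (nat_lit 8088324) (nat_lit 89478486)) T3.l12
  TrL.n)))))))) (by decide +kernel)
theorem bx5_2 : BoxOK sI cl13 cl7 cl4 t3 t1 b5_2 :=
  box_mk (TrL.c (I.pos (nat_lit 0) (nat_lit 0)) (xa (xa T3.l14 T3.l14) T3.l16)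
  (TrL.c (I.pos (nat_lit 0) (nat_lit 0)) (xa T1.l9 T1.l9)
  (TrL.c (I.pos (nat_lit 0) (nat_lit 134217730)) (xR T3.l4 (xR T3.l4 T3.l10))
  (TrL.c (I.pos (nat_lit 0) (nat_lit 110514882)) (xR T1.l10 T1.l12)
  (TrL.c (I.pos (nat_lit 0) (nat_lit 0)) (xa T1.l9 T1.l16)
  (TrL.c (I.pos (nat_lit 0) (nat_lit 0)) T3.l11
  (TrL.c (I.mix (nat_lit 8088324) (nat_lit 110514882)) (xR T1.l12 T1.l12)
  (TrL.c (I.mix (nat_lit 8088324) (nat_lit 89478486)) T3.l12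
  TrL.n)))))))) (by decide +kernel)
theorem bx5_3 : BoxOK sI cl13 cl7 cl4 t3 t1 b5_3 :=
  box_mk (TrL.c (I.pos (nat_lit 0) (nat_lit 0)) (xa (xb (xb (xa T3.l15 T3.l15) (xa T3.l15 T3.l15)) (xb (xa (xs T3.l15 T3.l15) (xs T3.l15 T3.l15)) (xa (xs T3.l15 (xc T3.l15 T3.l15)) (xs T3.l15 (xc T3.l15 T3.l15))))) (xb (xa T3.l15 (xb T3.l15 T3.l15)) (xa (xb T3.l15 (xs T3.l15 T3.l15)) (xb (xs T3.l15 T3.l15) (xs T3.l15 (xk T3.l15 T3.l15))))))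
  (TrL.c (I.pos (nat_lit 0) (nat_lit 0)) (xb (xk (xa T1.l9 T1.l9) T1.l9) (xk (xa T1.l9 T1.l9) (xa T1.l9 T1.l9)))
  (TrL.c (I.pos (nat_lit 0) (nat_lit 134217730)) (xR (xR T3.l4 T3.l4) (xR T3.l4 (xR T3.l10 (xR T3.l10 T3.l10))))
  (TrL.c (I.pos (nat_lit 0) (nat_lit 110514882)) (xR T1.l12 (xR T1.l10 (xR T1.l10 T1.l10)))
  (TrL.c (I.pos (nat_lit 0) (nat_lit 0)) (xb (xk T1.l15 T1.l15) (xk (xa (xb T1.l11 T1.l11) (xb T1.l11 (xs T1.l11 (xa T1.l11 T1.l11)))) (xa (xb T1.l11 (xs T1.l11 (xa T1.l11 T1.l11))) (xb T1.l11 (xs T1.l11 (xa T1.l11 (xb T1.l11 (xk T1.l11 T1.l11))))))))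
  (TrL.c (I.pos (nat_lit 0) (nat_lit 0)) T3.l11
  (TrL.c (I.mix (nat_lit 8088324) (nat_lit 110514882)) (xR T1.l12 (xR T1.l12 (xR T1.l12 T1.l12)))
  (TrL.c (I.mix (nat_lit 8088324) (nat_lit 89478486)) (xR T3.l12 (xR T3.l12 (xR T3.l12 T3.l12)))
  TrL.n)))))))) (by decide +kernel)
theorem bx5_4 : BoxOK sI cl13 cl7 cl4 t3 t1 b5_4 :=
  box_mk (TrL.c (I.pos (nat_lit 0) (nat_lit 0)) (xa (xa (xb T3.l16 T3.l16) T3.l16) (xa (xb T3.l16 T3.l16) (xb T3.l16 T3.l16)))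
  (TrL.c (I.pos (nat_lit 0) (nat_lit 0)) (xa T1.l9 (xa T1.l9 T1.l9))
  (TrL.c (I.pos (nat_lit 0) (nat_lit 134217730)) (xR T3.l4 (xR T3.l4 (xa T3.l10 T3.l10)))
  (TrL.c (I.pos (nat_lit 0) (nat_lit 110514882)) (xR T1.l10 (xR T1.l10 (xR T1.l10 T1.l10)))
  (TrL.c (I.pos (nat_lit 0) (nat_lit 0)) (xa T1.l16 (xa T1.l16 T1.l16))
  (TrL.c (I.pos (nat_lit 0) (nat_lit 0)) T3.l11
  (TrL.c (I.mix (nat_lit 8088324) (nat_lit 110514882)) (xR (xR T1.l12 T1.l12) T1.l12)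
  (TrL.c (I.mix (nat_lit 8088324) (nat_lit 89478486)) T3.l12
  TrL.n)))))))) (by decide +kernel)
theorem bx5_5 : BoxOK sI cl13 cl7 cl4 t3 t1 b5_5 :=
  box_mk (TrL.c (I.pos (nat_lit 0) (nat_lit 0)) (xa (xb T3.l13 (xa T3.l19 T3.l19)) T3.l0)
  (TrL.c (I.pos (nat_lit 0) (nat_lit 0)) T1.l9
  (TrL.c (I.pos (nat_lit 0) (nat_lit 134217730)) (xR (xR T3.l4 T3.l4) (xR T3.l4 T3.l10))
  (TrL.c (I.pos (nat_lit 0) (nat_lit 110514882)) (xR T1.l12 (xR T1.l10 T1.l10))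
  (TrL.c (I.pos (nat_lit 0) (nat_lit 0)) (xk T1.l13 T1.l13)
  (TrL.c (I.pos (nat_lit 0) (nat_lit 0)) T3.l11
  (TrL.c (I.mix (nat_lit 8088324) (nat_lit 110514882)) (xR T1.l12 T1.l12)
  (TrL.c (I.mix (nat_lit 8088324) (nat_lit 89478486)) (xR T3.l12 T3.l12)
  TrL.n)))))))) (by decide +kernel)
theorem bx5_6 : BoxOK sI cl13 cl7 cl4 t3 t1 b5_6 :=
  box_mk (TrL.c (I.pos (nat_lit 0) (nat_lit 0)) (xa (xa (xa T3.l17 T3.l17) T3.l14) T3.l16)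
  (TrL.c (I.pos (nat_lit 0) (nat_lit 0)) (xa T1.l9 T1.l9)
  (TrL.c (I.pos (nat_lit 0) (nat_lit 134217730)) (xR T3.l4 (xR T3.l4 (xa T3.l10 T3.l10)))
  (TrL.c (I.pos (nat_lit 0) (nat_lit 110514882)) (xR T1.l10 (xR T1.l10 (xR T1.l10 T1.l10)))
  (TrL.c (I.pos (nat_lit 0) (nat_lit 0)) (xa T1.l9 T1.l16)
  (TrL.c (I.pos (nat_lit 0) (nat_lit 0)) T3.l11
  (TrL.c (I.mix (nat_lit 8088324) (nat_lit 110514882)) (xR (xR T1.l12 T1.l12) T1.l12)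
  (TrL.c (I.mix (nat_lit 8088324) (nat_lit 89478486)) (xR T3.l12 T3.l4)
  TrL.n)))))))) (by decide +kernel)
theorem bx5_7 : BoxOK sI cl13 cl7 cl4 t3 t1 b5_7 :=
  box_mk (TrL.c (I.pos (nat_lit 0) (nat_lit 0)) T3.l0
  (TrL.c (I.pos (nat_lit 0) (nat_lit 0)) T1.l9
  (TrL.c (I.pos (nat_lit 0) (nat_lit 134217730)) (xR (xR T3.l4 T3.l4) (xR T3.l4 T3.l10))
  (TrL.c (I.pos (nat_lit 0) (nat_lit 110514882)) (xR T1.l12 (xR T1.l10 T1.l10))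
  (TrL.c (I.pos (nat_lit 0) (nat_lit 0)) T1.l15
  (TrL.c (I.pos (nat_lit 0) (nat_lit 0)) T3.l11
  (TrL.c (I.mix (nat_lit 8088324) (nat_lit 110514882)) (xR T1.l12 T1.l12)
  (TrL.c (I.mix (nat_lit 8088324) (nat_lit 89478486)) (xR T3.l12 T3.l12)
  TrL.n)))))))) (by decide +kernel)
theorem bx5_8 : BoxOK sI cl13 cl7 cl4 t3 t1 b5_8 :=
  box_mk (TrL.c (I.pos (nat_lit 0) (nat_lit 0)) (xa (xb T3.l0 T3.l15) (xb T3.l0 T3.l15))
  (TrL.c (I.pos (nat_lit 0) (nat_lit 0)) (xk T1.l9 T1.l9)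
  (TrL.c (I.pos (nat_lit 0) (nat_lit 134217730)) (xR (xR T3.l4 T3.l4) (xR T3.l4 T3.l10))
  (TrL.c (I.pos (nat_lit 0) (nat_lit 110514882)) (xR T1.l12 (xR T1.l10 T1.l10))
  (TrL.c (I.pos (nat_lit 0) (nat_lit 0)) (xk T1.l15 T1.l15)
  (TrL.c (I.pos (nat_lit 0) (nat_lit 0)) T3.l11
  (TrL.c (I.mix (nat_lit 8088324) (nat_lit 110514882)) (xR T1.l12 T1.l12)
  (TrL.c (I.mix (nat_lit 8088324) (nat_lit 89478486)) (xR T3.l12 T3.l12)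
  TrL.n)))))))) (by decide +kernel)
theorem bx5_9 : BoxOK sI cl13 cl7 cl4 t3 t1 b5_9 :=
  box_mk (TrL.c (I.pos (nat_lit 0) (nat_lit 0)) (xa (xb (xa (xb (xs T3.l15 T3.l15) T3.l15) (xb (xs T3.l15 (xb T3.l15 T3.l15)) T3.l15)) (xa (xb T3.l15 T3.l15) (xb T3.l15 T3.l15))) (xb (xa (xb (xs T3.l15 (xb T3.l15 T3.l15)) T3.l15) (xb (xs T3.l15 (xb T3.l15 T3.l15)) T3.l15)) (xa (xb T3.l15 T3.l15) (xb T3.l15 T3.l15))))
  (TrL.c (I.pos (nat_lit 0) (nat_lit 0)) (xb (xk T1.l9 T1.l9) (xk T1.l9 T1.l9))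
  (TrL.c (I.pos (nat_lit 0) (nat_lit 134217730)) (xR (xR T3.l4 T3.l4) (xR T3.l4 (xR T3.l10 (xR T3.l10 T3.l4))))
  (TrL.c (I.pos (nat_lit 0) (nat_lit 110514882)) (xR T1.l12 (xR T1.l10 (xR T1.l10 T1.l10)))
  (TrL.c (I.pos (nat_lit 0) (nat_lit 0)) (xk (xb (xa T1.l15 T1.l15) T1.l15) (xb (xa T1.l15 T1.l15) T1.l15))
  (TrL.c (I.pos (nat_lit 0) (nat_lit 0)) (xk T3.l11 T3.l11)
  (TrL.c (I.mix (nat_lit 8088324) (nat_lit 110514882)) (xR T1.l12 (xR T1.l12 (xR T1.l12 T1.l12)))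
  (TrL.c (I.mix (nat_lit 8088324) (nat_lit 89478486)) (xR T3.l12 (xR T3.l12 (xR T3.l12 T3.l12)))
  TrL.n)))))))) (by decide +kernel)
theorem bx5_10 : BoxOK sI cl13 cl7 cl4 t3 t1 b5_10 :=
  box_mk (TrL.c (I.pos (nat_lit 0) (nat_lit 0)) (xa (xa T3.l16 T3.l16) (xa T3.l16 (xa T3.l16 (xb T3.l20 T3.l20))))
  (TrL.c (I.pos (nat_lit 0) (nat_lit 0)) (xa T1.l9 (xa T1.l9 T1.l9))
  (TrL.c (I.pos (nat_lit 0) (nat_lit 134217730)) (xR T3.l4 (xR T3.l4 T3.l10))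
  (TrL.c (I.pos (nat_lit 0) (nat_lit 110514882)) (xR T1.l10 (xR T1.l10 (xR T1.l10 T1.l10)))
  (TrL.c (I.pos (nat_lit 0) (nat_lit 0)) (xa T1.l16 (xa T1.l17 T1.l17))
  (TrL.c (I.pos (nat_lit 0) (nat_lit 0)) T3.l11
  (TrL.c (I.mix (nat_lit 8088324) (nat_lit 110514882)) (xR (xR T1.l12 T1.l12) T1.l12)
  (TrL.c (I.mix (nat_lit 8088324) (nat_lit 89478486)) T3.l12
  TrL.n)))))))) (by decide +kernel)
theorem bx5_11 : BoxOK sI cl13 cl7 cl4 t3 t1 b5_11 :=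
  box_mk (TrL.c (I.pos (nat_lit 0) (nat_lit 0)) (xb (xa (xb T3.l18 T3.l18) (xb T3.l18 T3.l18)) (xa (xb T3.l18 (xa T3.l18 T3.l18)) (xb T3.l18 T3.l18)))
  (TrL.c (I.pos (nat_lit 0) (nat_lit 0)) (xb T1.l9 T1.l9)
  (TrL.c (I.pos (nat_lit 0) (nat_lit 134217730)) (xR T3.l4 (xR T3.l4 T3.l10))
  (TrL.c (I.pos (nat_lit 0) (nat_lit 110514882)) (xR T1.l12 (xR T1.l10 T1.l10))
  (TrL.c (I.pos (nat_lit 0) (nat_lit 0)) (xb (xk (xa T1.l18 T1.l18) (xa T1.l18 T1.l18)) T1.l18)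
  (TrL.c (I.pos (nat_lit 0) (nat_lit 0)) T3.l11
  (TrL.c (I.mix (nat_lit 8088324) (nat_lit 110514882)) (xR T1.l12 T1.l12)
  (TrL.c (I.mix (nat_lit 8088324) (nat_lit 89478486)) T3.l12
  TrL.n)))))))) (by decide +kernel)
theorem bx5_12 : BoxOK sI cl13 cl7 cl4 t3 t1 b5_12 :=
  box_mk (TrL.c (I.pos (nat_lit 0) (nat_lit 0)) (xa (xa T3.l21 T3.l21) T3.l16)
  (TrL.c (I.pos (nat_lit 0) (nat_lit 0)) (xa T1.l9 T1.l9)
  (TrL.c (I.pos (nat_lit 0) (nat_lit 134217730)) (xR T3.l4 (xR T3.l4 T3.l10))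
  (TrL.c (I.pos (nat_lit 0) (nat_lit 110514882)) (xR T1.l10 T1.l12)
  (TrL.c (I.pos (nat_lit 0) (nat_lit 0)) (xa T1.l9 T1.l16)
  (TrL.c (I.pos (nat_lit 0) (nat_lit 0)) T3.l11
  (TrL.c (I.mix (nat_lit 8088324) (nat_lit 110514882)) (xR (xR T1.l12 T1.l12) T1.l12)
  (TrL.c (I.mix (nat_lit 8088324) (nat_lit 89478486)) (xR T3.l12 T3.l4)
  TrL.n)))))))) (by decide +kernel)
theorem bx5_13 : BoxOK sI cl13 cl7 cl4 t3 t1 b5_13 :=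
  box_mk (TrL.c (I.pos (nat_lit 0) (nat_lit 0)) T3.l0
  (TrL.c (I.pos (nat_lit 0) (nat_lit 0)) T1.l9
  (TrL.c (I.pos (nat_lit 0) (nat_lit 134217730)) (xR (xR T3.l4 T3.l4) (xR T3.l4 T3.l10))
  (TrL.c (I.pos (nat_lit 0) (nat_lit 110514882)) (xR (xR T1.l10 T1.l10) (xR T1.l10 T1.l10))
  (TrL.c (I.pos (nat_lit 0) (nat_lit 0)) T1.l11
  (TrL.c (I.pos (nat_lit 0) (nat_lit 0)) T3.l11
  (TrL.c (I.mix (nat_lit 8088324) (nat_lit 110514882)) (xR T1.l12 T1.l12)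
  (TrL.c (I.mix (nat_lit 8088324) (nat_lit 89478486)) (xR T3.l12 T3.l12)
  TrL.n)))))))) (by decide +kernel)
theorem bx5_14 : BoxOK sI cl13 cl7 cl4 t3 t1 b5_14 :=
  box_mk (TrL.c (I.pos (nat_lit 0) (nat_lit 0)) (xa T3.l0 (xb T3.l0 T3.l0))
  (TrL.c (I.pos (nat_lit 0) (nat_lit 0)) (xa T1.l9 (xk T1.l9 T1.l9))
  (TrL.c (I.pos (nat_lit 0) (nat_lit 134217730)) (xR (xR T3.l4 T3.l4) (xR T3.l4 (xR T3.l10 T3.l10)))
  (TrL.c (I.pos (nat_lit 0) (nat_lit 110514882)) (xR (xR T1.l12 T1.l10) (xR T1.l10 T1.l10))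
  (TrL.c (I.pos (nat_lit 0) (nat_lit 0)) (xk (xa T1.l11 T1.l11) T1.l11)
  (TrL.c (I.pos (nat_lit 0) (nat_lit 0)) (xk T3.l11 T3.l11)
  (TrL.c (I.mix (nat_lit 8088324) (nat_lit 110514882)) (xR T1.l12 (xR T1.l12 (xR T1.l12 T1.l12)))
  (TrL.c (I.mix (nat_lit 8088324) (nat_lit 89478486)) (xR T3.l12 T3.l2)
  TrL.n)))))))) (by decide +kernel)
theorem bx5_15 : BoxOK sI cl13 cl7 cl4 t3 t1 b5_15 :=
  box_mk (TrL.c (I.pos (nat_lit 0) (nat_lit 0)) (xa (xb (xa (xs T3.l0 T3.l15) (xs T3.l0 T3.l0)) (xs T3.l15 (xa T3.l15 T3.l15))) (xb (xa (xs T3.l0 T3.l0) (xs T3.l0 T3.l0)) (xs (xa T3.l15 T3.l0) (xa (xb T3.l0 (xk T3.l0 T3.l0)) (xb T3.l0 T3.l0)))))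
  (TrL.c (I.pos (nat_lit 0) (nat_lit 0)) (xk (xa T1.l9 T1.l9) (xa T1.l9 T1.l9))
  (TrL.c (I.pos (nat_lit 0) (nat_lit 134217730)) (xR (xR T3.l4 T3.l4) (xR T3.l4 (xR T3.l10 T3.l10)))
  (TrL.c (I.pos (nat_lit 0) (nat_lit 110514882)) (xR T1.l12 (xR T1.l10 T1.l10))
  (TrL.c (I.pos (nat_lit 0) (nat_lit 0)) (xk (xa T1.l11 T1.l11) (xb T1.l11 T1.l11))
  (TrL.c (I.pos (nat_lit 0) (nat_lit 0)) T3.l11
  (TrL.c (I.mix (nat_lit 8088324) (nat_lit 110514882)) (xR T1.l12 (xR T1.l12 T1.l12))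
  (TrL.c (I.mix (nat_lit 8088324) (nat_lit 89478486)) (xR T3.l12 T3.l12)
  TrL.n)))))))) (by decide +kernel)
theorem bx5_16 : BoxOK sI cl13 cl7 cl4 t3 t1 b5_16 :=
  box_mk (TrL.c (I.pos (nat_lit 0) (nat_lit 0)) (xa (xb (xa (xb T3.l0 T3.l0) (xb T3.l0 T3.l0)) (xa (xs T3.l0 (xb T3.l0 T3.l0)) (xs T3.l0 (xb T3.l0 T3.l0)))) (xa (xb (xs T3.l0 T3.l0) (xs T3.l0 (xb T3.l0 T3.l0))) (xb (xs T3.l0 T3.l0) (xs T3.l0 (xa T3.l0 T3.l0)))))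
  (TrL.c (I.pos (nat_lit 0) (nat_lit 0)) (xa (xk T1.l9 T1.l9) (xk (xb T1.l9 T1.l9) (xb T1.l9 T1.l9)))
  (TrL.c (I.pos (nat_lit 0) (nat_lit 134217730)) (xR (xR T3.l4 T3.l4) (xR T3.l4 (xR T3.l10 T3.l4)))
  (TrL.c (I.pos (nat_lit 0) (nat_lit 110514882)) (xR (xR T1.l12 T1.l10) (xR T1.l10 (xR T1.l10 (xR T1.l10 T1.l10))))
  (TrL.c (I.pos (nat_lit 0) (nat_lit 0)) (xa (xk (xb T1.l11 T1.l11) (xb T1.l11 T1.l11)) (xk (xb (xa T1.l11 (xk T1.l11 T1.l11)) (xa T1.l11 T1.l11)) (xb (xa T1.l11 T1.l11) (xa T1.l11 (xk T1.l11 T1.l11)))))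
  (TrL.c (I.pos (nat_lit 0) (nat_lit 0)) (xk T3.l11 T3.l11)
  (TrL.c (I.mix (nat_lit 8088324) (nat_lit 110514882)) (xR T1.l12 (xR T1.l12 (xR T1.l12 (xR T1.l12 T1.l12))))
  (TrL.c (I.mix (nat_lit 8088324) (nat_lit 89478486)) (xR T3.l12 (xR T3.l12 T3.l2))
  TrL.n)))))))) (by decide +kernel)
theorem bx5_17 : BoxOK sI cl13 cl7 cl4 t3 t1 b5_17 :=
  box_mk (TrL.c (I.pos (nat_lit 0) (nat_lit 0)) T3.l0
  (TrL.c (I.pos (nat_lit 0) (nat_lit 0)) T1.l9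
  (TrL.c (I.pos (nat_lit 0) (nat_lit 134217730)) (xR (xR T3.l4 T3.l4) (xR T3.l4 T3.l10))
  (TrL.c (I.pos (nat_lit 0) (nat_lit 110514882)) (xR (xR T1.l10 T1.l10) (xR T1.l10 T1.l10))
  (TrL.c (I.pos (nat_lit 0) (nat_lit 0)) T1.l11
  (TrL.c (I.pos (nat_lit 0) (nat_lit 0)) T3.l11
  (TrL.c (I.mix (nat_lit 8088324) (nat_lit 110514882)) (xR T1.l12 T1.l12)
  (TrL.c (I.mix (nat_lit 8088324) (nat_lit 89478486)) (xR T3.l12 T3.l12)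
  TrL.n)))))))) (by decide +kernel)
theorem bx5_18 : BoxOK sI cl13 cl7 cl4 t3 t1 b5_18 :=
  box_mk (TrL.c (I.pos (nat_lit 0) (nat_lit 0)) (xa T3.l0 T3.l0)
  (TrL.c (I.pos (nat_lit 0) (nat_lit 0)) (xk T1.l9 T1.l9)
  (TrL.c (I.pos (nat_lit 0) (nat_lit 134217730)) (xR (xR T3.l4 T3.l4) (xR T3.l4 T3.l10))
  (TrL.c (I.pos (nat_lit 0) (nat_lit 110514882)) (xR (xR T1.l10 T1.l10) (xR T1.l10 T1.l10))
  (TrL.c (I.pos (nat_lit 0) (nat_lit 0)) T1.l11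
  (TrL.c (I.pos (nat_lit 0) (nat_lit 0)) T3.l11
  (TrL.c (I.mix (nat_lit 8088324) (nat_lit 110514882)) (xR T1.l12 T1.l12)
  (TrL.c (I.mix (nat_lit 8088324) (nat_lit 89478486)) (xR T3.l12 T3.l12)
  TrL.n)))))))) (by decide +kernel)
theorem bx5_19 : BoxOK sI cl13 cl7 cl4 t3 t1 b5_19 :=
  box_mk (TrL.c (I.pos (nat_lit 0) (nat_lit 0)) (xa T3.l0 (xb T3.l0 T3.l0))
  (TrL.c (I.pos (nat_lit 0) (nat_lit 0)) (xk (xa T1.l9 T1.l9) (xa T1.l9 T1.l2))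
  (TrL.c (I.pos (nat_lit 0) (nat_lit 134217730)) (xR (xR T3.l4 T3.l4) (xR T3.l4 T3.l4))
  (TrL.c (I.pos (nat_lit 0) (nat_lit 110514882)) (xR (xR T1.l12 T1.l10) (xR T1.l10 T1.l10))
  (TrL.c (I.pos (nat_lit 0) (nat_lit 0)) (xk (xb (xa T1.l11 (xk T1.l11 T1.l11)) (xa T1.l11 (xk T1.l11 T1.l11))) (xb (xa T1.l11 T1.l11) (xa T1.l11 T1.l11)))
  (TrL.c (I.pos (nat_lit 0) (nat_lit 0)) (xk T3.l11 T3.l11)
  (TrL.c (I.mix (nat_lit 8088324) (nat_lit 110514882)) (xR T1.l12 (xR T1.l12 (xR T1.l12 (xR T1.l12 T1.l12))))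
  (TrL.c (I.mix (nat_lit 8088324) (nat_lit 89478486)) (xR T3.l12 T3.l2)
  TrL.n)))))))) (by decide +kernel)
theorem bx5_20 : BoxOK sI cl13 cl7 cl4 t3 t1 b5_20 :=
  box_mk (TrL.c (I.pos (nat_lit 0) (nat_lit 0)) T3.l0
  (TrL.c (I.pos (nat_lit 0) (nat_lit 0)) T1.l9
  (TrL.c (I.pos (nat_lit 0) (nat_lit 134217730)) (xR (xR T3.l4 T3.l4) (xR T3.l4 T3.l10))
  (TrL.c (I.pos (nat_lit 0) (nat_lit 110514882)) (xR T1.l12 (xR T1.l10 T1.l10))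
  (TrL.c (I.pos (nat_lit 0) (nat_lit 0)) T1.l11
  (TrL.c (I.pos (nat_lit 0) (nat_lit 0)) T3.l11
  (TrL.c (I.mix (nat_lit 8088324) (nat_lit 110514882)) (xR T1.l12 T1.l12)
  (TrL.c (I.mix (nat_lit 8088324) (nat_lit 89478486)) (xR T3.l12 T3.l12)
  TrL.n)))))))) (by decide +kernel)
theorem sv5 : StarV sI cl13 cl7 cl4 t3 t1 t5 :=
  (bt_n (bt_n (bt_n (bt_n (bt_b bx5_0) (bt_b bx5_1)) (bt_n (bt_b bx5_2) (bt_n (bt_b bx5_3) (bt_b bx5_4)))) (bt_n (bt_n (bt_b bx5_5) (bt_b bx5_6)) (bt_n (bt_b bx5_7) (bt_n (bt_b bx5_8) (bt_b bx5_9))))) (bt_n (bt_n (bt_n (bt_b bx5_10) (bt_b bx5_11)) (bt_n (bt_b bx5_12) (bt_n (bt_b bx5_13) (bt_b bx5_14)))) (bt_n (bt_n (bt_b bx5_15) (bt_n (bt_b bx5_16) (bt_b bx5_17))) (bt_n (bt_b bx5_18) (bt_n (bt_b bx5_19) (bt_b bx5_20))))))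
def S5 : StarD := StarD.mk cl13 cl7 cl4 3 1 t5
def G : List StarD := [S0, S1, S2, S3, S4, S5]
theorem so0 : StarOK sI G S0 :=
  star_mk (by decide) (by decide) rfl rfl rfl rfl rfl rfl (rfl : _ = t2) (rfl : _ = t4)
  (st_mk (Pth.l (Pth.l (Pth.l (Pth.l Pth.z)))) (nat_lit 146800640) (nat_lit 168768257) (by decide +kernel))
  (st_mk (Pth.l (Pth.l (Pth.l (Pth.l Pth.z)))) (nat_lit 182685394) (nat_lit 207392358) (by decide +kernel))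
  (st_mk (Pth.l (Pth.l (Pth.l (Pth.l Pth.z)))) (nat_lit 227136922) (nat_lit 253067832) (by decide +kernel)) sv0
theorem so1 : StarOK sI G S1 :=
  star_mk (by decide) (by decide) rfl rfl rfl rfl rfl rfl (rfl : _ = t4) (rfl : _ = t2)
  (st_mk (Pth.l (Pth.l (Pth.l (Pth.l Pth.z)))) (nat_lit 98525431) (nat_lit 118129516) (by decide +kernel))
  (st_mk (Pth.l (Pth.l (Pth.l (Pth.l Pth.z)))) (nat_lit 135825141) (nat_lit 156249440) (by decide +kernel))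
  (st_mk (Pth.l (Pth.l (Pth.l (Pth.l Pth.z)))) (nat_lit 179910360) (nat_lit 201511993) (by decide +kernel)) sv1
theorem so2 : StarOK sI G S2 :=
  star_mk (by decide) (by decide) rfl rfl rfl rfl rfl rfl (rfl : _ = t0) (rfl : _ = t5)
  (st_mk (Pth.l (Pth.l (Pth.l (Pth.l Pth.z)))) (nat_lit 369599868) (nat_lit 374302359) (by decide +kernel))
  (st_mk (Pth.l (Pth.l (Pth.l (Pth.l Pth.z)))) (nat_lit 405583974) (nat_lit 410931921) (by decide +kernel))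
  (st_mk (Pth.l (Pth.l (Pth.l (Pth.l Pth.z)))) (nat_lit 447233817) (nat_lit 453409749) (by decide +kernel)) sv2
theorem so3 : StarOK sI G S3 :=
  star_mk (by decide) (by decide) rfl rfl rfl rfl rfl rfl (rfl : _ = t5) (rfl : _ = t0)
  (st_mk (Pth.l (Pth.l (Pth.l (Pth.l Pth.z)))) (nat_lit 96589864) (nat_lit 115406600) (by decide +kernel))
  (st_mk (Pth.l (Pth.l (Pth.l (Pth.l Pth.z)))) (nat_lit 132141193) (nat_lit 151426442) (by decide +kernel))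
  (st_mk (Pth.l (Pth.l (Pth.l (Pth.l Pth.z)))) (nat_lit 173420280) (nat_lit 193384871) (by decide +kernel)) sv3
theorem so4 : StarOK sI G S4 :=
  star_mk (by decide) (by decide) rfl rfl rfl rfl rfl rfl (rfl : _ = t1) (rfl : _ = t3)
  (st_mk (Pth.l (Pth.l (Pth.l (Pth.l Pth.z)))) (nat_lit 364798899) (nat_lit 367906283) (by decide +kernel))
  (st_mk (Pth.l (Pth.l (Pth.l (Pth.l Pth.z)))) (nat_lit 399695508) (nat_lit 403320441) (by decide +kernel))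
  (st_mk (Pth.l (Pth.l (Pth.l (Pth.l Pth.z)))) (nat_lit 439960827) (nat_lit 444243047) (by decide +kernel)) sv4
theorem so5 : StarOK sI G S5 :=
  star_mk (by decide) (by decide) rfl rfl rfl rfl rfl rfl (rfl : _ = t3) (rfl : _ = t1)
  (st_mk (Pth.l (Pth.l (Pth.l (Pth.l Pth.z)))) (nat_lit 141852672) (nat_lit 162379657) (by decide +kernel))
  (st_mk (Pth.l (Pth.l (Pth.l (Pth.l Pth.z)))) (nat_lit 174891329) (nat_lit 197664285) (by decide +kernel))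
  (st_mk (Pth.l (Pth.l (Pth.l (Pth.l Pth.z)))) (nat_lit 215156648) (nat_lit 237961216) (by decide +kernel)) sv5
theorem ok : GroupOK (nat_lit 150274048) (nat_lit 209387520) G := grp_mk (allS_c so0 (allS_c so1 (allS_c so2 (allS_c so3 (allS_c so4 (allS_c so5 allS_n))))))
theorem cov : GCov G cl4 cl7 cl13 := cov_mk
  ⟨0, by decide, rfl, rfl, rfl⟩ ⟨1, by decide, rfl, rfl, rfl⟩ ⟨2, by decide, rfl, rfl, rfl⟩ ⟨3, by decide, rfl, rfl, rfl⟩ ⟨4, by decide, rfl, rfl, rfl⟩ ⟨5, by decide, rfl, rfl, rfl⟩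
end Q146_2


end Pool.Agent.Helper6.MONO
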