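import Pool.Agent.Helper6.MONO.Cert.C60

/-!
Certificate data (generated).
-/

set_option autoImplicit false
set_option linter.all false
noncomputable section
namespace Pool.Agent.Helper6.MONO


namespace Q146_3
def sI : I := I.pos (nat_lit 209321984) (nat_lit 238944256)
def b0_0 : Bx := Bx.mk (St.mk (I.pos (nat_lit 158449664) (nat_lit 234225664)) (I.mix (nat_lit 1949696) (nat_lit 62504960)) (I.mix (nat_lit 9322496) (nat_lit 61308928)) (I.pos (nat_lit 143572992) (nat_lit 286195712)) (I.mix (nat_lit 109182976) (nat_lit 74022912)) (I.mix (nat_lit 66650112) (nat_lit 65536000)) (I.mix (nat_lit 104038400) (nat_lit 103333888)))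
  false (nat_lit 36084806)
def b0_1 : Bx := Bx.mk (St.mk (I.mix (nat_lit 17989632) (nat_lit 115376128)) (I.mix (nat_lit 6569984) (nat_lit 30883840)) (I.mix (nat_lit 29032448) (nat_lit 3014656)) (I.pos (nat_lit 40894464) (nat_lit 111509504)) (I.mix (nat_lit 40714240) (nat_lit 49053696)) (I.mix (nat_lit 37355520) (nat_lit 28508160)) (I.mix (nat_lit 26738688) (nat_lit 21823488)))
  false (nat_lit 0)
def b0_2 : Bx := Bx.mk (St.mk (I.pos (nat_lit 88145920) (nat_lit 132481024)) (I.mix (nat_lit 47644672) (nat_lit 9093120)) (I.neg (nat_lit 10616832) (nat_lit 64716800)) (I.pos (nat_lit 73875456) (nat_lit 123437056)) (I.mix (nat_lit 98713600) (nat_lit 43253760)) (I.mix (nat_lit 39747584) (nat_lit 85639168)) (I.mix (nat_lit 26312704) (nat_lit 69632000)))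
  false (nat_lit 0)
def b0_3 : Bx := Bx.mk (St.mk (I.mix (nat_lit 33456128) (nat_lit 64274432)) (I.mix (nat_lit 28295168) (nat_lit 4128768)) (I.neg (nat_lit 4521984) (nat_lit 27705344)) (I.pos (nat_lit 41910272) (nat_lit 77725696)) (I.mix (nat_lit 46104576) (nat_lit 20103168)) (I.mix (nat_lit 19218432) (nat_lit 34799616)) (I.mix (nat_lit 8896512) (nat_lit 15548416)))
  false (nat_lit 0)
def b0_4 : Bx := Bx.mk (St.mk (I.pos (nat_lit 80642048) (nat_lit 113033216)) (I.mix (nat_lit 9879552) (nat_lit 13910016)) (I.neg (nat_lit 6995968) (nat_lit 32456704)) (I.pos (nat_lit 71516160) (nat_lit 111329280)) (I.mix (nat_lit 38699008) (nat_lit 28819456)) (I.mix (nat_lit 26935296) (nat_lit 25264128)) (I.mix (nat_lit 17891328) (nat_lit 22036480)))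
  false (nat_lit 0)
def b0_5 : Bx := Bx.mk (St.mk (I.mix (nat_lit 42008576) (nat_lit 50233344)) (I.mix (nat_lit 5881856) (nat_lit 8896512)) (I.neg (nat_lit 7421952) (nat_lit 17760256)) (I.pos (nat_lit 42434560) (nat_lit 71483392)) (I.mix (nat_lit 20119552) (nat_lit 17678336)) (I.mix (nat_lit 15761408) (nat_lit 14860288)) (I.mix (nat_lit 4161536) (nat_lit 5914624)))
  false (nat_lit 0)
def b0_6 : Bx := Bx.mk (St.mk (I.pos (nat_lit 213581824) (nat_lit 256196608)) (I.mix (nat_lit 13778944) (nat_lit 16416768)) (I.neg (nat_lit 27918336) (nat_lit 93077504)) (I.pos (nat_lit 234209280) (nat_lit 321732608)) (I.mix (nat_lit 93454336) (nat_lit 27230208)) (I.mix (nat_lit 49577984) (nat_lit 53723136)) (I.mix (nat_lit 67387392) (nat_lit 107888640)))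
  false (nat_lit 0)
def b0_7 : Bx := Bx.mk (St.mk (I.pos (nat_lit 191496192) (nat_lit 248184832)) (I.mix (nat_lit 13189120) (nat_lit 60637184)) (I.mix (nat_lit 84606976) (nat_lit 52658176)) (I.pos (nat_lit 218775552) (nat_lit 304414720)) (I.mix (nat_lit 102596608) (nat_lit 90439680)) (I.mix (nat_lit 86654976) (nat_lit 73875456)) (I.mix (nat_lit 144867328) (nat_lit 123256832)))
  false (nat_lit 32047089)
def b0_8 : Bx := Bx.mk (St.mk (I.pos (nat_lit 87572480) (nat_lit 168148992)) (I.neg (nat_lit 2916352) (nat_lit 48300032)) (I.neg (nat_lit 18563072) (nat_lit 64503808)) (I.pos (nat_lit 84377600) (nat_lit 169951232)) (I.mix (nat_lit 79970304) (nat_lit 43515904)) (I.mix (nat_lit 35930112) (nat_lit 64864256)) (I.mix (nat_lit 25739264) (nat_lit 63438848)))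
  false (nat_lit 0)
def b0_9 : Bx := Bx.mk (St.mk (I.mix (nat_lit 27836416) (nat_lit 82673664)) (I.mix (nat_lit 30277632) (nat_lit 5226496)) (I.neg (nat_lit 4603904) (nat_lit 29851648)) (I.pos (nat_lit 40927232) (nat_lit 88489984)) (I.mix (nat_lit 48267264) (nat_lit 26148864)) (I.mix (nat_lit 20283392) (nat_lit 34537472)) (I.mix (nat_lit 10354688) (nat_lit 19464192)))
  false (nat_lit 0)
def b0_10 : Bx := Bx.mk (St.mk (I.pos (nat_lit 167313408) (nat_lit 217874432)) (I.mix (nat_lit 8962048) (nat_lit 56573952)) (I.mix (nat_lit 23281664) (nat_lit 55590912)) (I.pos (nat_lit 165429248) (nat_lit 252821504)) (I.mix (nat_lit 117211136) (nat_lit 54329344)) (I.mix (nat_lit 106397696) (nat_lit 69599232)) (I.mix (nat_lit 105070592) (nat_lit 70352896)))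
  false (nat_lit 27822831)
def b0_11 : Bx := Bx.mk (St.mk (I.mix (nat_lit 36077568) (nat_lit 112918528)) (I.mix (nat_lit 11812864) (nat_lit 32260096)) (I.mix (nat_lit 22233088) (nat_lit 4947968)) (I.pos (nat_lit 40009728) (nat_lit 109903872)) (I.mix (nat_lit 39911424) (nat_lit 45203456)) (I.mix (nat_lit 43794432) (nat_lit 30310400)) (I.mix (nat_lit 23592960) (nat_lit 15482880)))
  false (nat_lit 0)
def b0_12 : Bx := Bx.mk (St.mk (I.pos (nat_lit 140132352) (nat_lit 209207296)) (I.mix (nat_lit 33193984) (nat_lit 15745024)) (I.mix (nat_lit 58228736) (nat_lit 1425408)) (I.pos (nat_lit 123518976) (nat_lit 225591296)) (I.mix (nat_lit 68468736) (nat_lit 67059712)) (I.mix (nat_lit 68632576) (nat_lit 61669376)) (I.mix (nat_lit 70270976) (nat_lit 56442880)))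
  false (nat_lit 0)
def b0_13 : Bx := Bx.mk (St.mk (I.pos (nat_lit 168345600) (nat_lit 212713472)) (I.mix (nat_lit 15974400) (nat_lit 29507584)) (I.mix (nat_lit 36143104) (nat_lit 21315584)) (I.pos (nat_lit 167723008) (nat_lit 233324544)) (I.mix (nat_lit 93372416) (nat_lit 88604672)) (I.mix (nat_lit 111722496) (nat_lit 82591744)) (I.mix (nat_lit 117407744) (nat_lit 77217792)))
  false (nat_lit 8531613)
def t0 : BTr := (BTr.n (BTr.n (BTr.n (BTr.b b0_0) (BTr.n (BTr.b b0_1) (BTr.b b0_2))) (BTr.n (BTr.n (BTr.b b0_3) (BTr.b b0_4)) (BTr.n (BTr.b b0_5) (BTr.b b0_6)))) (BTr.n (BTr.n (BTr.b b0_7) (BTr.n (BTr.b b0_8) (BTr.b b0_9))) (BTr.n (BTr.n (BTr.b b0_10) (BTr.b b0_11)) (BTr.n (BTr.b b0_12) (BTr.b b0_13)))))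
namespace T0
def l0 : Tr := Tr.L (Pth.l (Pth.l (Pth.l Pth.z)))
def l1 : Tr := Tr.L (Pth.l (Pth.l (Pth.r (Pth.l Pth.z))))
def l2 : Tr := Tr.L (Pth.l (Pth.l (Pth.r (Pth.r Pth.z))))
def l3 : Tr := Tr.L (Pth.l (Pth.r (Pth.l (Pth.l Pth.z))))
def l4 : Tr := Tr.L (Pth.l (Pth.r (Pth.l (Pth.r Pth.z))))
def l5 : Tr := Tr.L (Pth.l (Pth.r (Pth.r (Pth.l Pth.z))))
def l6 : Tr := Tr.L (Pth.l (Pth.r (Pth.r (Pth.r Pth.z))))
def l7 : Tr := Tr.L (Pth.r (Pth.l (Pth.l Pth.z)))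
def l8 : Tr := Tr.L (Pth.r (Pth.l (Pth.r (Pth.l Pth.z))))
def l9 : Tr := Tr.L (Pth.r (Pth.l (Pth.r (Pth.r Pth.z))))
def l10 : Tr := Tr.L (Pth.r (Pth.r (Pth.l (Pth.l Pth.z))))
def l11 : Tr := Tr.L (Pth.r (Pth.r (Pth.l (Pth.r Pth.z))))
def l12 : Tr := Tr.L (Pth.r (Pth.r (Pth.r (Pth.l Pth.z))))
def l13 : Tr := Tr.L (Pth.r (Pth.r (Pth.r (Pth.r Pth.z))))
end T0
def b1_0 : Bx := Bx.mk (St.mk (I.pos (nat_lit 158384128) (nat_lit 236503040)) (I.mix (nat_lit 1638400) (nat_lit 50954240)) (I.mix (nat_lit 2048000) (nat_lit 67190784)) (I.pos (nat_lit 94961664) (nat_lit 236929024)) (I.mix (nat_lit 100876288) (nat_lit 66174976)) (I.mix (nat_lit 65781760) (nat_lit 61374464)) (I.mix (nat_lit 101482496) (nat_lit 91963392)))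
  false (nat_lit 11223628)
def b1_1 : Bx := Bx.mk (St.mk (I.mix (nat_lit 7749632) (nat_lit 135872512)) (I.mix (nat_lit 5128192) (nat_lit 23199744)) (I.mix (nat_lit 17137664) (nat_lit 10551296)) (I.mix (nat_lit 2998272) (nat_lit 83935232)) (I.mix (nat_lit 35684352) (nat_lit 39583744)) (I.mix (nat_lit 31571968) (nat_lit 24772608)) (I.mix (nat_lit 26869760) (nat_lit 19333120)))
  false (nat_lit 0)
def b1_2 : Bx := Bx.mk (St.mk (I.pos (nat_lit 111853568) (nat_lit 150323200)) (I.mix (nat_lit 40878080) (nat_lit 8257536)) (I.neg (nat_lit 2441216) (nat_lit 53641216)) (I.pos (nat_lit 50446336) (nat_lit 99745792)) (I.mix (nat_lit 92258304) (nat_lit 42745856)) (I.mix (nat_lit 36192256) (nat_lit 79740928)) (I.mix (nat_lit 29786112) (nat_lit 73826304)))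
  false (nat_lit 787943)
def b1_3 : Bx := Bx.mk (St.mk (I.mix (nat_lit 11894784) (nat_lit 103383040)) (I.mix (nat_lit 21610496) (nat_lit 3489792)) (I.mix (nat_lit 22364160) (nat_lit 1179648)) (I.mix (nat_lit 2162688) (nat_lit 55361536)) (I.mix (nat_lit 40058880) (nat_lit 18104320)) (I.mix (nat_lit 15941632) (nat_lit 31834112)) (I.mix (nat_lit 8716288) (nat_lit 20348928)))
  false (nat_lit 0)
def b1_4 : Bx := Bx.mk (St.mk (I.pos (nat_lit 195248128) (nat_lit 248578048)) (I.mix (nat_lit 12861440) (nat_lit 50266112)) (I.mix (nat_lit 56868864) (nat_lit 62849024)) (I.pos (nat_lit 177324032) (nat_lit 253689856)) (I.mix (nat_lit 100335616) (nat_lit 76693504)) (I.mix (nat_lit 80510976) (nat_lit 68321280)) (I.mix (nat_lit 133120000) (nat_lit 109019136)))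
  false (nat_lit 21249332)
def b1_5 : Bx := Bx.mk (St.mk (I.mix (nat_lit 14532608) (nat_lit 100057088)) (I.mix (nat_lit 1720320) (nat_lit 2523136)) (I.mix (nat_lit 8339456) (nat_lit 802816)) (I.mix (nat_lit 1998848) (nat_lit 49381376)) (I.mix (nat_lit 7405568) (nat_lit 3178496)) (I.mix (nat_lit 2785280) (nat_lit 2621440)) (I.mix (nat_lit 950272) (nat_lit 1900544)))
  false (nat_lit 0)
def b1_6 : Bx := Bx.mk (St.mk (I.pos (nat_lit 105840640) (nat_lit 134758400)) (I.mix (nat_lit 7864320) (nat_lit 11649024)) (I.mix (nat_lit 19988480) (nat_lit 212992)) (I.pos (nat_lit 46678016) (nat_lit 85147648)) (I.mix (nat_lit 31703040) (nat_lit 19628032)) (I.mix (nat_lit 19578880) (nat_lit 19693568)) (I.mix (nat_lit 15777792) (nat_lit 19136512)))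
  false (nat_lit 0)
def b1_7 : Bx := Bx.mk (St.mk (I.pos (nat_lit 212926464) (nat_lit 254754816)) (I.mix (nat_lit 13533184) (nat_lit 14827520)) (I.neg (nat_lit 5734400) (nat_lit 63717376)) (I.pos (nat_lit 193888256) (nat_lit 272121856)) (I.mix (nat_lit 90062848) (nat_lit 20955136)) (I.mix (nat_lit 46022656) (nat_lit 49987584)) (I.mix (nat_lit 69074944) (nat_lit 94191616)))
  false (nat_lit 0)
def b1_8 : Bx := Bx.mk (St.mk (I.pos (nat_lit 111149056) (nat_lit 182894592)) (I.neg (nat_lit 720896) (nat_lit 43417600)) (I.neg (nat_lit 9371648) (nat_lit 54460416)) (I.pos (nat_lit 61767680) (nat_lit 140640256)) (I.mix (nat_lit 72089600) (nat_lit 41549824)) (I.mix (nat_lit 36667392) (nat_lit 59539456)) (I.mix (nat_lit 31817728) (nat_lit 63127552)))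
  false (nat_lit 11655414)
def b1_9 : Bx := Bx.mk (St.mk (I.pos (nat_lit 4308992) (nat_lit 116752384)) (I.mix (nat_lit 24002560) (nat_lit 3620864)) (I.mix (nat_lit 22872064) (nat_lit 1097728)) (I.mix (nat_lit 1835008) (nat_lit 66912256)) (I.mix (nat_lit 38993920) (nat_lit 21987328)) (I.mix (nat_lit 17367040) (nat_lit 26951680)) (I.mix (nat_lit 10092544) (nat_lit 19415040)))
  false (nat_lit 0)
def b1_10 : Bx := Bx.mk (St.mk (I.pos (nat_lit 173981696) (nat_lit 216186880)) (I.mix (nat_lit 12959744) (nat_lit 43171840)) (I.mix (nat_lit 16416768) (nat_lit 57262080)) (I.pos (nat_lit 125370368) (nat_lit 200228864)) (I.mix (nat_lit 110329856) (nat_lit 45400064)) (I.mix (nat_lit 99729408) (nat_lit 59392000)) (I.mix (nat_lit 111542272) (nat_lit 67010560)))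
  false (nat_lit 0)
def b1_11 : Bx := Bx.mk (St.mk (I.mix (nat_lit 13778944) (nat_lit 135774208)) (I.mix (nat_lit 14139392) (nat_lit 26673152)) (I.mix (nat_lit 18874368) (nat_lit 14565376)) (I.mix (nat_lit 3014656) (nat_lit 84508672)) (I.mix (nat_lit 44220416) (nat_lit 33292288)) (I.mix (nat_lit 38010880) (nat_lit 25182208)) (I.mix (nat_lit 25952256) (nat_lit 16990208)))
  false (nat_lit 0)
def b1_12 : Bx := Bx.mk (St.mk (I.pos (nat_lit 152403968) (nat_lit 212090880)) (I.mix (nat_lit 35700736) (nat_lit 9912320)) (I.mix (nat_lit 52887552) (nat_lit 6733824)) (I.pos (nat_lit 93847552) (nat_lit 185647104)) (I.mix (nat_lit 61161472) (nat_lit 59899904)) (I.mix (nat_lit 62472192) (nat_lit 57753600)) (I.mix (nat_lit 69615616) (nat_lit 59047936)))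
  false (nat_lit 35622519)
def b1_13 : Bx := Bx.mk (St.mk (I.pos (nat_lit 173768704) (nat_lit 211697664)) (I.mix (nat_lit 19628032) (nat_lit 21823488)) (I.mix (nat_lit 27934720) (nat_lit 26230784)) (I.pos (nat_lit 124682240) (nat_lit 186236928)) (I.mix (nat_lit 90947584) (nat_lit 65224704)) (I.mix (nat_lit 95567872) (nat_lit 64815104)) (I.mix (nat_lit 108953600) (nat_lit 69992448)))
  false (nat_lit 0)
def t1 : BTr := (BTr.n (BTr.n (BTr.n (BTr.b b1_0) (BTr.n (BTr.b b1_1) (BTr.b b1_2))) (BTr.n (BTr.n (BTr.b b1_3) (BTr.b b1_4)) (BTr.n (BTr.b b1_5) (BTr.b b1_6)))) (BTr.n (BTr.n (BTr.b b1_7) (BTr.n (BTr.b b1_8) (BTr.b b1_9))) (BTr.n (BTr.n (BTr.b b1_10) (BTr.b b1_11)) (BTr.n (BTr.b b1_12) (BTr.b b1_13)))))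
namespace T1
def l0 : Tr := Tr.L (Pth.l (Pth.l (Pth.l Pth.z)))
def l1 : Tr := Tr.L (Pth.l (Pth.l (Pth.r (Pth.l Pth.z))))
def l2 : Tr := Tr.L (Pth.l (Pth.l (Pth.r (Pth.r Pth.z))))
def l3 : Tr := Tr.L (Pth.l (Pth.r (Pth.l (Pth.l Pth.z))))
def l4 : Tr := Tr.L (Pth.l (Pth.r (Pth.l (Pth.r Pth.z))))
def l5 : Tr := Tr.L (Pth.l (Pth.r (Pth.r (Pth.l Pth.z))))
def l6 : Tr := Tr.L (Pth.l (Pth.r (Pth.r (Pth.r Pth.z))))
def l7 : Tr := Tr.L (Pth.r (Pth.l (Pth.l Pth.z)))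
def l8 : Tr := Tr.L (Pth.r (Pth.l (Pth.r (Pth.l Pth.z))))
def l9 : Tr := Tr.L (Pth.r (Pth.l (Pth.r (Pth.r Pth.z))))
def l10 : Tr := Tr.L (Pth.r (Pth.r (Pth.l (Pth.l Pth.z))))
def l11 : Tr := Tr.L (Pth.r (Pth.r (Pth.l (Pth.r Pth.z))))
def l12 : Tr := Tr.L (Pth.r (Pth.r (Pth.r (Pth.l Pth.z))))
def l13 : Tr := Tr.L (Pth.r (Pth.r (Pth.r (Pth.r Pth.z))))
end T1
def b2_0 : Bx := Bx.mk (St.mk (I.pos (nat_lit 141705216) (nat_lit 217333760)) (I.mix (nat_lit 2850816) (nat_lit 93421568)) (I.mix (nat_lit 2719744) (nat_lit 87244800)) (I.pos (nat_lit 367656960) (nat_lit 465846272)) (I.mix (nat_lit 153927680) (nat_lit 96616448)) (I.mix (nat_lit 87834624) (nat_lit 86425600)) (I.mix (nat_lit 106479616) (nat_lit 111067136)))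
  false (nat_lit 124044296)
def b2_1 : Bx := Bx.mk (St.mk (I.mix (nat_lit 52985856) (nat_lit 15876096)) (I.mix (nat_lit 14925824) (nat_lit 83689472)) (I.neg (nat_lit 46333952) (nat_lit 75874304)) (I.pos (nat_lit 257818624) (nat_lit 290013184)) (I.mix (nat_lit 48644096) (nat_lit 116768768)) (I.mix (nat_lit 84230144) (nat_lit 62636032)) (I.mix (nat_lit 44761088) (nat_lit 33669120)))
  true (nat_lit 0)
def b2_2 : Bx := Bx.mk (St.mk (I.pos (nat_lit 7503872) (nat_lit 52314112)) (I.neg (nat_lit 31129600) (nat_lit 83689472)) (I.neg (nat_lit 47710208) (nat_lit 75874304)) (I.pos (nat_lit 263012352) (nat_lit 289849344)) (I.mix (nat_lit 116768768) (nat_lit 48807936)) (I.mix (nat_lit 62717952) (nat_lit 76775424)) (I.mix (nat_lit 44761088) (nat_lit 33685504)))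
  false (nat_lit 31276548)
def b2_3 : Bx := Bx.mk (St.mk (I.pos (nat_lit 15695872) (nat_lit 122994688)) (I.neg (nat_lit 9256960) (nat_lit 86851584)) (I.neg (nat_lit 7028736) (nat_lit 86179840)) (I.pos (nat_lit 261570560) (nat_lit 328892416)) (I.mix (nat_lit 124911616) (nat_lit 68698112)) (I.mix (nat_lit 69124096) (nat_lit 80609280)) (I.mix (nat_lit 75890688) (nat_lit 66650112)))
  false (nat_lit 62196053)
def b2_4 : Bx := Bx.mk (St.mk (I.pos (nat_lit 95682560) (nat_lit 185434112)) (I.mix (nat_lit 35504128) (nat_lit 84049920)) (I.mix (nat_lit 40730624) (nat_lit 86114304)) (I.pos (nat_lit 299253760) (nat_lit 422887424)) (I.mix (nat_lit 155418624) (nat_lit 78495744)) (I.mix (nat_lit 119963648) (nat_lit 94420992)) (I.mix (nat_lit 124420096) (nat_lit 118538240)))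
  false (nat_lit 126591863)
def b2_5 : Bx := Bx.mk (St.mk (I.neg (nat_lit 15695872) (nat_lit 122994688)) (I.pos (nat_lit 9256960) (nat_lit 86851584)) (I.neg (nat_lit 7127040) (nat_lit 86179840)) (I.pos (nat_lit 261554176) (nat_lit 328892416)) (I.mix (nat_lit 68714496) (nat_lit 124911616)) (I.mix (nat_lit 80609280) (nat_lit 69124096)) (I.mix (nat_lit 75890688) (nat_lit 66666496)))
  true (nat_lit 0)
def b2_6 : Bx := Bx.mk (St.mk (I.pos (nat_lit 176898048) (nat_lit 289914880)) (I.mix (nat_lit 28934144) (nat_lit 58523648)) (I.mix (nat_lit 171245568) (nat_lit 19120128)) (I.pos (nat_lit 406011904) (nat_lit 574455808)) (I.mix (nat_lit 86048768) (nat_lit 87785472)) (I.mix (nat_lit 67469312) (nat_lit 61456384)) (I.mix (nat_lit 102498304) (nat_lit 110903296)))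
  false (nat_lit 87513505)
def b2_7 : Bx := Bx.mk (St.mk (I.mix (nat_lit 15810560) (nat_lit 42663936)) (I.mix (nat_lit 46120960) (nat_lit 15122432)) (I.neg (nat_lit 46678016) (nat_lit 63373312)) (I.pos (nat_lit 258473984) (nat_lit 276267008)) (I.mix (nat_lit 63291392) (nat_lit 40812544)) (I.mix (nat_lit 38256640) (nat_lit 42713088)) (I.mix (nat_lit 12517376) (nat_lit 17793024)))
  false (nat_lit 0)
def b2_8 : Bx := Bx.mk (St.mk (I.pos (nat_lit 156286976) (nat_lit 218759168)) (I.pos (nat_lit 23724032) (nat_lit 90521600)) (I.mix (nat_lit 24428544) (nat_lit 76660736)) (I.pos (nat_lit 396869632) (nat_lit 457555968)) (I.mix (nat_lit 133480448) (nat_lit 94928896)) (I.mix (nat_lit 90423296) (nat_lit 72237056)) (I.mix (nat_lit 134774784) (nat_lit 108265472)))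
  false (nat_lit 107510511)
def b2_9 : Bx := Bx.mk (St.mk (I.pos (nat_lit 9355264) (nat_lit 46989312)) (I.neg (nat_lit 22200320) (nat_lit 72646656)) (I.neg (nat_lit 47939584) (nat_lit 73269248)) (I.pos (nat_lit 263241728) (nat_lit 283213824)) (I.mix (nat_lit 110657536) (nat_lit 38191104)) (I.mix (nat_lit 42860544) (nat_lit 84230144)) (I.mix (nat_lit 30441472) (nat_lit 29097984)))
  false (nat_lit 0)
def t2 : BTr := (BTr.n (BTr.n (BTr.n (BTr.b b2_0) (BTr.b b2_1)) (BTr.n (BTr.b b2_2) (BTr.n (BTr.b b2_3) (BTr.b b2_4)))) (BTr.n (BTr.n (BTr.b b2_5) (BTr.b b2_6)) (BTr.n (BTr.b b2_7) (BTr.n (BTr.b b2_8) (BTr.b b2_9)))))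
namespace T2
def l0 : Tr := Tr.L (Pth.l (Pth.l (Pth.l Pth.z)))
def l1 : Tr := Tr.L (Pth.l (Pth.l (Pth.r Pth.z)))
def l2 : Tr := Tr.L (Pth.l (Pth.r (Pth.l Pth.z)))
def l3 : Tr := Tr.L (Pth.l (Pth.r (Pth.r (Pth.l Pth.z))))
def l4 : Tr := Tr.L (Pth.l (Pth.r (Pth.r (Pth.r Pth.z))))
def l5 : Tr := Tr.L (Pth.r (Pth.l (Pth.l Pth.z)))
def l6 : Tr := Tr.L (Pth.r (Pth.l (Pth.r Pth.z)))
def l7 : Tr := Tr.L (Pth.r (Pth.r (Pth.l Pth.z)))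
def l8 : Tr := Tr.L (Pth.r (Pth.r (Pth.r (Pth.l Pth.z))))
def l9 : Tr := Tr.L (Pth.r (Pth.r (Pth.r (Pth.r Pth.z))))
end T2
def b3_0 : Bx := Bx.mk (St.mk (I.pos (nat_lit 158547968) (nat_lit 230948864)) (I.mix (nat_lit 1376256) (nat_lit 39747584)) (I.mix (nat_lit 2998272) (nat_lit 97583104)) (I.pos (nat_lit 93765632) (nat_lit 199819264)) (I.mix (nat_lit 93290496) (nat_lit 54673408)) (I.mix (nat_lit 72876032) (nat_lit 56754176)) (I.mix (nat_lit 108593152) (nat_lit 71974912)))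
  false (nat_lit 25132239)
def b3_1 : Bx := Bx.mk (St.mk (I.pos (nat_lit 121028608) (nat_lit 178257920)) (I.neg (nat_lit 3964928) (nat_lit 52281344)) (I.mix (nat_lit 38256640) (nat_lit 17121280)) (I.pos (nat_lit 76251136) (nat_lit 131235840)) (I.mix (nat_lit 72630272) (nat_lit 54362112)) (I.mix (nat_lit 46448640) (nat_lit 54476800)) (I.mix (nat_lit 43565056) (nat_lit 55902208)))
  false (nat_lit 60919080)
def b3_2 : Bx := Bx.mk (St.mk (I.mix (nat_lit 7192576) (nat_lit 114098176)) (I.mix (nat_lit 23969792) (nat_lit 1441792)) (I.mix (nat_lit 9781248) (nat_lit 10125312)) (I.mix (nat_lit 2392064) (nat_lit 63094784)) (I.mix (nat_lit 27885568) (nat_lit 30736384)) (I.mix (nat_lit 18956288) (nat_lit 24346624)) (I.mix (nat_lit 11468800) (nat_lit 16564224)))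
  false (nat_lit 0)
def b3_3 : Bx := Bx.mk (St.mk (I.pos (nat_lit 165478400) (nat_lit 204816384)) (I.mix (nat_lit 14483456) (nat_lit 34717696)) (I.pos (nat_lit 14417920) (nat_lit 83361792)) (I.pos (nat_lit 104873984) (nat_lit 167542784)) (I.mix (nat_lit 115474432) (nat_lit 42795008)) (I.mix (nat_lit 103219200) (nat_lit 53493760)) (I.mix (nat_lit 123174912) (nat_lit 45268992)))
  false (nat_lit 23161124)
def b3_4 : Bx := Bx.mk (St.mk (I.mix (nat_lit 13287424) (nat_lit 129482752)) (I.mix (nat_lit 12451840) (nat_lit 27754496)) (I.mix (nat_lit 1441792) (nat_lit 35094528)) (I.mix (nat_lit 2768896) (nat_lit 76562432)) (I.mix (nat_lit 58589184) (nat_lit 32440320)) (I.mix (nat_lit 49790976) (nat_lit 26820608)) (I.mix (nat_lit 37732352) (nat_lit 16154624)))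
  false (nat_lit 0)
def b3_5 : Bx := Bx.mk (St.mk (I.pos (nat_lit 165281792) (nat_lit 209059840)) (I.mix (nat_lit 39649280) (nat_lit 15695872)) (I.mix (nat_lit 17154048) (nat_lit 56246272)) (I.pos (nat_lit 105578496) (nat_lit 174358528)) (I.mix (nat_lit 110559232) (nat_lit 77135872)) (I.mix (nat_lit 105414656) (nat_lit 63225856)) (I.mix (nat_lit 123240448) (nat_lit 65830912)))
  false (nat_lit 76908304)
def b3_6 : Bx := Bx.mk (St.mk (I.mix (nat_lit 14532608) (nat_lit 125042688)) (I.mix (nat_lit 15564800) (nat_lit 1589248)) (I.mix (nat_lit 1671168) (nat_lit 10665984)) (I.mix (nat_lit 2473984) (nat_lit 65978368)) (I.mix (nat_lit 25133056) (nat_lit 17956864)) (I.mix (nat_lit 14893056) (nat_lit 18448384)) (I.mix (nat_lit 11157504) (nat_lit 10977280)))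
  false (nat_lit 0)
def b3_7 : Bx := Bx.mk (St.mk (I.pos (nat_lit 146751488) (nat_lit 183255040)) (I.neg (nat_lit 1818624) (nat_lit 34553856)) (I.mix (nat_lit 13074432) (nat_lit 23035904)) (I.pos (nat_lit 91799552) (nat_lit 138067968)) (I.mix (nat_lit 61898752) (nat_lit 41877504)) (I.mix (nat_lit 31555584) (nat_lit 45662208)) (I.mix (nat_lit 37552128) (nat_lit 42565632)))
  false (nat_lit 14529179)
def b3_8 : Bx := Bx.mk (St.mk (I.pos (nat_lit 161710080) (nat_lit 192282624)) (I.neg (nat_lit 7503872) (nat_lit 34439168)) (I.mix (nat_lit 12910592) (nat_lit 20119552)) (I.pos (nat_lit 105496576) (nat_lit 152911872)) (I.mix (nat_lit 38846464) (nat_lit 33718272)) (I.mix (nat_lit 27475968) (nat_lit 24985600)) (I.mix (nat_lit 26984448) (nat_lit 25526272)))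
  false (nat_lit 0)
def b3_9 : Bx := Bx.mk (St.mk (I.pos (nat_lit 78856192) (nat_lit 141033472)) (I.mix (nat_lit 7389184) (nat_lit 17170432)) (I.pos (nat_lit 901120) (nat_lit 25739264)) (I.pos (nat_lit 26476544) (nat_lit 90439680)) (I.mix (nat_lit 32014336) (nat_lit 20987904)) (I.mix (nat_lit 21856256) (nat_lit 15237120)) (I.mix (nat_lit 19480576) (nat_lit 11927552)))
  false (nat_lit 0)
def b3_10 : Bx := Bx.mk (St.mk (I.pos (nat_lit 115785728) (nat_lit 160628736)) (I.mix (nat_lit 49577984) (nat_lit 9355264)) (I.mix (nat_lit 33898496) (nat_lit 21528576)) (I.pos (nat_lit 51838976) (nat_lit 112279552)) (I.mix (nat_lit 78774272) (nat_lit 45072384)) (I.mix (nat_lit 38076416) (nat_lit 64897024)) (I.mix (nat_lit 31506432) (nat_lit 51363840)))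
  false (nat_lit 39959619)
def b3_11 : Bx := Bx.mk (St.mk (I.mix (nat_lit 19136512) (nat_lit 108920832)) (I.mix (nat_lit 24313856) (nat_lit 3670016)) (I.mix (nat_lit 8863744) (nat_lit 8912896)) (I.mix (nat_lit 3145728) (nat_lit 60145664)) (I.mix (nat_lit 30392320) (nat_lit 17563648)) (I.mix (nat_lit 15925248) (nat_lit 24428544)) (I.mix (nat_lit 8601600) (nat_lit 13713408)))
  false (nat_lit 0)
def b3_12 : Bx := Bx.mk (St.mk (I.pos (nat_lit 196739072) (nat_lit 282722304)) (I.mix (nat_lit 23298048) (nat_lit 30081024)) (I.mix (nat_lit 10518528) (nat_lit 87867392)) (I.pos (nat_lit 157040640) (nat_lit 318717952)) (I.mix (nat_lit 85786624) (nat_lit 59080704)) (I.mix (nat_lit 62849024) (nat_lit 45039616)) (I.mix (nat_lit 104742912) (nat_lit 74842112)))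
  false (nat_lit 49210473)
def b3_13 : Bx := Bx.mk (St.mk (I.pos (nat_lit 185516032) (nat_lit 230506496)) (I.pos (nat_lit 5111808) (nat_lit 39157760)) (I.pos (nat_lit 33488896) (nat_lit 97189888)) (I.pos (nat_lit 148193280) (nat_lit 198590464)) (I.mix (nat_lit 98713600) (nat_lit 64847872)) (I.mix (nat_lit 78610432) (nat_lit 58851328)) (I.mix (nat_lit 120979456) (nat_lit 76464128)))
  false (nat_lit 35893288)
def t3 : BTr := (BTr.n (BTr.n (BTr.n (BTr.b b3_0) (BTr.n (BTr.b b3_1) (BTr.b b3_2))) (BTr.n (BTr.n (BTr.b b3_3) (BTr.b b3_4)) (BTr.n (BTr.b b3_5) (BTr.b b3_6)))) (BTr.n (BTr.n (BTr.b b3_7) (BTr.n (BTr.b b3_8) (BTr.b b3_9))) (BTr.n (BTr.n (BTr.b b3_10) (BTr.b b3_11)) (BTr.n (BTr.b b3_12) (BTr.b b3_13)))))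
namespace T3
def l0 : Tr := Tr.L (Pth.l (Pth.l (Pth.l Pth.z)))
def l1 : Tr := Tr.L (Pth.l (Pth.l (Pth.r (Pth.l Pth.z))))
def l2 : Tr := Tr.L (Pth.l (Pth.l (Pth.r (Pth.r Pth.z))))
def l3 : Tr := Tr.L (Pth.l (Pth.r (Pth.l (Pth.l Pth.z))))
def l4 : Tr := Tr.L (Pth.l (Pth.r (Pth.l (Pth.r Pth.z))))
def l5 : Tr := Tr.L (Pth.l (Pth.r (Pth.r (Pth.l Pth.z))))
def l6 : Tr := Tr.L (Pth.l (Pth.r (Pth.r (Pth.r Pth.z))))
def l7 : Tr := Tr.L (Pth.r (Pth.l (Pth.l Pth.z)))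
def l8 : Tr := Tr.L (Pth.r (Pth.l (Pth.r (Pth.l Pth.z))))
def l9 : Tr := Tr.L (Pth.r (Pth.l (Pth.r (Pth.r Pth.z))))
def l10 : Tr := Tr.L (Pth.r (Pth.r (Pth.l (Pth.l Pth.z))))
def l11 : Tr := Tr.L (Pth.r (Pth.r (Pth.l (Pth.r Pth.z))))
def l12 : Tr := Tr.L (Pth.r (Pth.r (Pth.r (Pth.l Pth.z))))
def l13 : Tr := Tr.L (Pth.r (Pth.r (Pth.r (Pth.r Pth.z))))
end T3
def b4_0 : Bx := Bx.mk (St.mk (I.pos (nat_lit 133595136) (nat_lit 217513984)) (I.mix (nat_lit 2670592) (nat_lit 86835200)) (I.mix (nat_lit 3407872) (nat_lit 110477312)) (I.pos (nat_lit 361840640) (nat_lit 448692224)) (I.mix (nat_lit 157794304) (nat_lit 85327872)) (I.mix (nat_lit 91914240) (nat_lit 79839232)) (I.mix (nat_lit 102121472) (nat_lit 103301120)))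
  false (nat_lit 154661938)
def b4_1 : Bx := Bx.mk (St.mk (I.pos (nat_lit 24281088) (nat_lit 129695744)) (I.neg (nat_lit 8617984) (nat_lit 91652096)) (I.mix (nat_lit 66617344) (nat_lit 20086784)) (I.pos (nat_lit 267976704) (nat_lit 334774272)) (I.mix (nat_lit 118489088) (nat_lit 75251712)) (I.mix (nat_lit 77004800) (nat_lit 75071488)) (I.mix (nat_lit 77692928) (nat_lit 60735488)))
  false (nat_lit 88685002)
def b4_2 : Bx := Bx.mk (St.mk (I.pos (nat_lit 91176960) (nat_lit 178749440)) (I.mix (nat_lit 37519360) (nat_lit 80822272)) (I.mix (nat_lit 15728640) (nat_lit 110903296)) (I.pos (nat_lit 298172416) (nat_lit 409862144)) (I.mix (nat_lit 165330944) (nat_lit 79839232)) (I.mix (nat_lit 123650048) (nat_lit 96108544)) (I.mix (nat_lit 127451136) (nat_lit 121962496)))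
  false (nat_lit 141552947)
def b4_3 : Bx := Bx.mk (St.mk (I.neg (nat_lit 24264704) (nat_lit 129777664)) (I.pos (nat_lit 4456448) (nat_lit 91652096)) (I.mix (nat_lit 66617344) (nat_lit 22904832)) (I.pos (nat_lit 267976704) (nat_lit 335118336)) (I.mix (nat_lit 75268096) (nat_lit 118489088)) (I.mix (nat_lit 75071488) (nat_lit 77004800)) (I.mix (nat_lit 77692928) (nat_lit 60669952)))
  true (nat_lit 22264172)
def b4_4 : Bx := Bx.mk (St.mk (I.mix (nat_lit 57720832) (nat_lit 11780096)) (I.mix (nat_lit 9764864) (nat_lit 84099072)) (I.neg (nat_lit 27131904) (nat_lit 54706176)) (I.pos (nat_lit 261046272) (nat_lit 293273600)) (I.mix (nat_lit 55738368) (nat_lit 105136128)) (I.mix (nat_lit 78151680) (nat_lit 62259200)) (I.mix (nat_lit 37683200) (nat_lit 31162368)))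
  true (nat_lit 0)
def b4_5 : Bx := Bx.mk (St.mk (I.pos (nat_lit 14958592) (nat_lit 56819712)) (I.neg (nat_lit 33751040) (nat_lit 85540864)) (I.neg (nat_lit 28721152) (nat_lit 54689792)) (I.pos (nat_lit 268386304) (nat_lit 293568512)) (I.mix (nat_lit 105136128) (nat_lit 55738368)) (I.mix (nat_lit 62259200) (nat_lit 74465280)) (I.mix (nat_lit 37683200) (nat_lit 31178752)))
  false (nat_lit 36251710)
def b4_6 : Bx := Bx.mk (St.mk (I.pos (nat_lit 183320576) (nat_lit 288112640)) (I.mix (nat_lit 18825216) (nat_lit 63078400)) (I.mix (nat_lit 107085824) (nat_lit 59244544)) (I.pos (nat_lit 409780224) (nat_lit 568721408)) (I.mix (nat_lit 84967424) (nat_lit 77938688)) (I.mix (nat_lit 65339392) (nat_lit 59637760)) (I.mix (nat_lit 103923712) (nat_lit 88506368)))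
  false (nat_lit 136038308)
def b4_7 : Bx := Bx.mk (St.mk (I.mix (nat_lit 10993664) (nat_lit 49922048)) (I.mix (nat_lit 52035584) (nat_lit 8830976)) (I.neg (nat_lit 27443200) (nat_lit 43597824)) (I.pos (nat_lit 261832704) (nat_lit 281329664)) (I.mix (nat_lit 60964864) (nat_lit 43286528)) (I.mix (nat_lit 38764544) (nat_lit 40697856)) (I.mix (nat_lit 13189120) (nat_lit 14204928)))
  false (nat_lit 0)
def b4_8 : Bx := Bx.mk (St.mk (I.pos (nat_lit 149798912) (nat_lit 205881344)) (I.pos (nat_lit 24608768) (nat_lit 82935808)) (I.pos (nat_lit 11124736) (nat_lit 99745792)) (I.pos (nat_lit 380452864) (nat_lit 435093504)) (I.mix (nat_lit 128565248) (nat_lit 85131264)) (I.mix (nat_lit 91996160) (nat_lit 63094784)) (I.mix (nat_lit 125616128) (nat_lit 85540864)))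
  false (nat_lit 118406992)
def b4_9 : Bx := Bx.mk (St.mk (I.pos (nat_lit 19546112) (nat_lit 55263232)) (I.neg (nat_lit 24838144) (nat_lit 74170368)) (I.neg (nat_lit 28049408) (nat_lit 51920896)) (I.pos (nat_lit 268795904) (nat_lit 287113216)) (I.mix (nat_lit 96763904) (nat_lit 54280192)) (I.mix (nat_lit 46661632) (nat_lit 78151680)) (I.mix (nat_lit 27230208) (nat_lit 24231936)))
  false (nat_lit 28604174)
def t4 : BTr := (BTr.n (BTr.n (BTr.n (BTr.b b4_0) (BTr.b b4_1)) (BTr.n (BTr.b b4_2) (BTr.n (BTr.b b4_3) (BTr.b b4_4)))) (BTr.n (BTr.n (BTr.b b4_5) (BTr.b b4_6)) (BTr.n (BTr.b b4_7) (BTr.n (BTr.b b4_8) (BTr.b b4_9)))))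
namespace T4
def l0 : Tr := Tr.L (Pth.l (Pth.l (Pth.l Pth.z)))
def l1 : Tr := Tr.L (Pth.l (Pth.l (Pth.r Pth.z)))
def l2 : Tr := Tr.L (Pth.l (Pth.r (Pth.l Pth.z)))
def l3 : Tr := Tr.L (Pth.l (Pth.r (Pth.r (Pth.l Pth.z))))
def l4 : Tr := Tr.L (Pth.l (Pth.r (Pth.r (Pth.r Pth.z))))
def l5 : Tr := Tr.L (Pth.r (Pth.l (Pth.l Pth.z)))
def l6 : Tr := Tr.L (Pth.r (Pth.l (Pth.r Pth.z)))
def l7 : Tr := Tr.L (Pth.r (Pth.r (Pth.l Pth.z)))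
def l8 : Tr := Tr.L (Pth.r (Pth.r (Pth.r (Pth.l Pth.z))))
def l9 : Tr := Tr.L (Pth.r (Pth.r (Pth.r (Pth.r Pth.z))))
end T4
def b5_0 : Bx := Bx.mk (St.mk (I.pos (nat_lit 153518080) (nat_lit 224624640)) (I.mix (nat_lit 1540096) (nat_lit 45826048)) (I.mix (nat_lit 3375104) (nat_lit 110690304)) (I.pos (nat_lit 139018240) (nat_lit 239550464)) (I.mix (nat_lit 102563840) (nat_lit 53936128)) (I.mix (nat_lit 76939264) (nat_lit 60899328)) (I.mix (nat_lit 107757568) (nat_lit 70959104)))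
  false (nat_lit 41213411)
def b5_1 : Bx := Bx.mk (St.mk (I.pos (nat_lit 106168320) (nat_lit 173752320)) (I.neg (nat_lit 5308416) (nat_lit 60293120)) (I.mix (nat_lit 33734656) (nat_lit 29884416)) (I.pos (nat_lit 103383040) (nat_lit 164937728)) (I.mix (nat_lit 70991872) (nat_lit 61620224)) (I.mix (nat_lit 46727168) (nat_lit 53723136)) (I.mix (nat_lit 40550400) (nat_lit 51625984)))
  false (nat_lit 72241753)
def b5_2 : Bx := Bx.mk (St.mk (I.mix (nat_lit 18415616) (nat_lit 81362944)) (I.mix (nat_lit 31244288) (nat_lit 3670016)) (I.mix (nat_lit 3358720) (nat_lit 18399232)) (I.pos (nat_lit 41648128) (nat_lit 87343104)) (I.mix (nat_lit 29442048) (nat_lit 43040768)) (I.mix (nat_lit 23691264) (nat_lit 31916032)) (I.mix (nat_lit 11616256) (nat_lit 16728064)))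
  false (nat_lit 3738727)
def b5_3 : Bx := Bx.mk (St.mk (I.pos (nat_lit 154320896) (nat_lit 199196672)) (I.mix (nat_lit 11354112) (nat_lit 43368448)) (I.pos (nat_lit 27230208) (nat_lit 101564416)) (I.pos (nat_lit 132907008) (nat_lit 201310208)) (I.mix (nat_lit 124518400) (nat_lit 46186496)) (I.mix (nat_lit 111034368) (nat_lit 62668800)) (I.mix (nat_lit 124780544) (nat_lit 50806784)))
  false (nat_lit 45545517)
def b5_4 : Bx := Bx.mk (St.mk (I.mix (nat_lit 35274752) (nat_lit 101515264)) (I.mix (nat_lit 12189696) (nat_lit 29966336)) (I.pos (nat_lit 2179072) (nat_lit 36634624)) (I.pos (nat_lit 41222144) (nat_lit 99205120)) (I.mix (nat_lit 65142784) (nat_lit 33980416)) (I.mix (nat_lit 52232192) (nat_lit 28442624)) (I.mix (nat_lit 31064064) (nat_lit 15990784)))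
  false (nat_lit 0)
def b5_5 : Bx := Bx.mk (St.mk (I.pos (nat_lit 137756672) (nat_lit 174882816)) (I.neg (nat_lit 2850816) (nat_lit 38486016)) (I.mix (nat_lit 2490368) (nat_lit 37257216)) (I.pos (nat_lit 121257984) (nat_lit 172294144)) (I.mix (nat_lit 60637184) (nat_lit 56836096)) (I.mix (nat_lit 37994496) (nat_lit 52183040)) (I.mix (nat_lit 42598400) (nat_lit 42663936)))
  false (nat_lit 45739660)
def b5_6 : Bx := Bx.mk (St.mk (I.mix (nat_lit 44630016) (nat_lit 84475904)) (I.mix (nat_lit 12124160) (nat_lit 7651328)) (I.pos (nat_lit 4177920) (nat_lit 19251200)) (I.pos (nat_lit 42074112) (nat_lit 88883200)) (I.mix (nat_lit 21741568) (nat_lit 19251200)) (I.mix (nat_lit 15499264) (nat_lit 16728064)) (I.mix (nat_lit 7716864) (nat_lit 8028160)))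
  false (nat_lit 0)
def b5_7 : Bx := Bx.mk (St.mk (I.pos (nat_lit 151683072) (nat_lit 187203584)) (I.neg (nat_lit 7405568) (nat_lit 38223872)) (I.mix (nat_lit 4620288) (nat_lit 33112064)) (I.pos (nat_lit 133201920) (nat_lit 190464000)) (I.mix (nat_lit 51052544) (nat_lit 57671680)) (I.mix (nat_lit 51773440) (nat_lit 41877504)) (I.mix (nat_lit 48644096) (nat_lit 41320448)))
  false (nat_lit 42145129)
def b5_8 : Bx := Bx.mk (St.mk (I.pos (nat_lit 153042944) (nat_lit 197967872)) (I.mix (nat_lit 39944192) (nat_lit 18972672)) (I.mix (nat_lit 4243456) (nat_lit 70877184)) (I.pos (nat_lit 133005312) (nat_lit 200228864)) (I.mix (nat_lit 108494848) (nat_lit 71745536)) (I.mix (nat_lit 98615296) (nat_lit 64897024)) (I.mix (nat_lit 104448000) (nat_lit 56754176)))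
  false (nat_lit 86314314)
def b5_9 : Bx := Bx.mk (St.mk (I.mix (nat_lit 8306688) (nat_lit 118915072)) (I.mix (nat_lit 6668288) (nat_lit 22921216)) (I.pos (nat_lit 3833856) (nat_lit 30441472)) (I.pos (nat_lit 40665088) (nat_lit 113721344)) (I.mix (nat_lit 38256640) (nat_lit 23658496)) (I.mix (nat_lit 25657344) (nat_lit 17891328)) (I.mix (nat_lit 18333696) (nat_lit 12107776)))
  false (nat_lit 0)
def b5_10 : Bx := Bx.mk (St.mk (I.pos (nat_lit 94830592) (nat_lit 148357120)) (I.mix (nat_lit 58834944) (nat_lit 9633792)) (I.mix (nat_lit 30687232) (nat_lit 24051712)) (I.pos (nat_lit 79298560) (nat_lit 140492800)) (I.mix (nat_lit 72843264) (nat_lit 56868864)) (I.mix (nat_lit 47235072) (nat_lit 61964288)) (I.mix (nat_lit 30867456) (nat_lit 43270144)))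
  false (nat_lit 76281504)
def b5_11 : Bx := Bx.mk (St.mk (I.mix (nat_lit 35553280) (nat_lit 76365824)) (I.mix (nat_lit 30294016) (nat_lit 4472832)) (I.mix (nat_lit 2244608) (nat_lit 14516224)) (I.pos (nat_lit 41615360) (nat_lit 84525056)) (I.mix (nat_lit 19808256) (nat_lit 28196864)) (I.mix (nat_lit 14467072) (nat_lit 22757376)) (I.mix (nat_lit 6701056) (nat_lit 5931008)))
  false (nat_lit 0)
def b5_12 : Bx := Bx.mk (St.mk (I.pos (nat_lit 189382656) (nat_lit 283115520)) (I.mix (nat_lit 19251200) (nat_lit 35979264)) (I.pos (nat_lit 2768896) (nat_lit 101040128)) (I.pos (nat_lit 192888832) (nat_lit 356220928)) (I.mix (nat_lit 85409792) (nat_lit 66338816)) (I.mix (nat_lit 62423040) (nat_lit 47661056)) (I.mix (nat_lit 102334464) (nat_lit 76808192)))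
  false (nat_lit 76338150)
def b5_13 : Bx := Bx.mk (St.mk (I.pos (nat_lit 174325760) (nat_lit 222494720)) (I.pos (nat_lit 6668288) (nat_lit 42778624)) (I.pos (nat_lit 42450944) (nat_lit 106872832)) (I.pos (nat_lit 175669248) (nat_lit 228229120)) (I.mix (nat_lit 108232704) (nat_lit 66715648)) (I.mix (nat_lit 86507520) (nat_lit 56672256)) (I.mix (nat_lit 126779392) (nat_lit 66650112)))
  false (nat_lit 42559448)
def t5 : BTr := (BTr.n (BTr.n (BTr.n (BTr.b b5_0) (BTr.n (BTr.b b5_1) (BTr.b b5_2))) (BTr.n (BTr.n (BTr.b b5_3) (BTr.b b5_4)) (BTr.n (BTr.b b5_5) (BTr.b b5_6)))) (BTr.n (BTr.n (BTr.b b5_7) (BTr.n (BTr.b b5_8) (BTr.b b5_9))) (BTr.n (BTr.n (BTr.b b5_10) (BTr.b b5_11)) (BTr.n (BTr.b b5_12) (BTr.b b5_13)))))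
namespace T5
def l0 : Tr := Tr.L (Pth.l (Pth.l (Pth.l Pth.z)))
def l1 : Tr := Tr.L (Pth.l (Pth.l (Pth.r (Pth.l Pth.z))))
def l2 : Tr := Tr.L (Pth.l (Pth.l (Pth.r (Pth.r Pth.z))))
def l3 : Tr := Tr.L (Pth.l (Pth.r (Pth.l (Pth.l Pth.z))))
def l4 : Tr := Tr.L (Pth.l (Pth.r (Pth.l (Pth.r Pth.z))))
def l5 : Tr := Tr.L (Pth.l (Pth.r (Pth.r (Pth.l Pth.z))))
def l6 : Tr := Tr.L (Pth.l (Pth.r (Pth.r (Pth.r Pth.z))))
def l7 : Tr := Tr.L (Pth.r (Pth.l (Pth.l Pth.z)))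
def l8 : Tr := Tr.L (Pth.r (Pth.l (Pth.r (Pth.l Pth.z))))
def l9 : Tr := Tr.L (Pth.r (Pth.l (Pth.r (Pth.r Pth.z))))
def l10 : Tr := Tr.L (Pth.r (Pth.r (Pth.l (Pth.l Pth.z))))
def l11 : Tr := Tr.L (Pth.r (Pth.r (Pth.l (Pth.r Pth.z))))
def l12 : Tr := Tr.L (Pth.r (Pth.r (Pth.r (Pth.l Pth.z))))
def l13 : Tr := Tr.L (Pth.r (Pth.r (Pth.r (Pth.r Pth.z))))
end T5
theorem bx0_0 : BoxOK sI cl4 cl7 cl13 t2 t4 b0_0 :=
  box_mk (TrL.c (I.pos (nat_lit 0) (nat_lit 0)) (xa (xb (xa (xb T2.l0 T2.l0) T2.l0) (xa (xb T2.l0 T2.l0) (xb T2.l0 (xa T2.l0 T2.l0)))) (xb (xa T2.l0 T2.l0) (xa (xb T2.l0 (xa T2.l0 T2.l0)) (xb T2.l0 (xa T2.l0 T2.l0)))))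
  (TrL.c (I.pos (nat_lit 0) (nat_lit 0)) (xa (xb T4.l1 T4.l1) (xb T4.l1 T4.l1))
  (TrL.c (I.pos (nat_lit 0) (nat_lit 0)) (xa T2.l1 (xb T2.l1 T2.l1))
  (TrL.c (I.pos (nat_lit 0) (nat_lit 0)) (xa (xb T4.l2 T4.l2) (xb (xa T4.l2 T4.l2) (xa T4.l2 (xb T4.l2 (xa T4.l2 (xd T4.l2 T4.l2))))))
  (TrL.c (I.pos (nat_lit 0) (nat_lit 0)) (xa T2.l2 (xb T2.l2 T2.l2))
  (TrL.c (I.pos (nat_lit 0) (nat_lit 0)) (xa (xb T4.l3 T4.l3) (xb T4.l3 T4.l3))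
  TrL.n)))))) (by decide +kernel)
theorem bx0_1 : BoxOK sI cl4 cl7 cl13 t2 t4 b0_1 :=
  box_mk (TrL.c (I.pos (nat_lit 0) (nat_lit 0)) (xa (xa (xb T2.l6 (xa T2.l6 T2.l6)) T2.l6) (xa T2.l6 (xb T2.l6 (xa T2.l6 T2.l6))))
  (TrL.c (I.pos (nat_lit 0) (nat_lit 0)) T4.l1
  (TrL.c (I.pos (nat_lit 0) (nat_lit 0)) T2.l1
  (TrL.c (I.pos (nat_lit 0) (nat_lit 0)) T4.l2
  (TrL.c (I.pos (nat_lit 0) (nat_lit 0)) T2.l7
  (TrL.c (I.pos (nat_lit 0) (nat_lit 0)) T4.l3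
  TrL.n)))))) (by decide +kernel)
theorem bx0_2 : BoxOK sI cl4 cl7 cl13 t2 t4 b0_2 :=
  box_mk (TrL.c (I.pos (nat_lit 0) (nat_lit 0)) (xb (xa (xb T2.l6 T2.l6) (xb T2.l6 T2.l6)) (xa (xb T2.l6 T2.l6) T2.l6))
  (TrL.c (I.pos (nat_lit 0) (nat_lit 0)) T4.l1
  (TrL.c (I.pos (nat_lit 0) (nat_lit 0)) T2.l1
  (TrL.c (I.pos (nat_lit 0) (nat_lit 0)) T4.l2
  (TrL.c (I.pos (nat_lit 0) (nat_lit 0)) T2.l7
  (TrL.c (I.pos (nat_lit 0) (nat_lit 0)) T4.l3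
  TrL.n)))))) (by decide +kernel)
theorem bx0_3 : BoxOK sI cl4 cl7 cl13 t2 t4 b0_3 :=
  box_mk (TrL.c (I.pos (nat_lit 0) (nat_lit 0)) (xa (xa (xb (xa (xb (xa T2.l6 T2.l6) T2.l6) T2.l6) T2.l6) T2.l6) T2.l6)
  (TrL.c (I.pos (nat_lit 0) (nat_lit 0)) (xa T4.l2 T4.l1)
  (TrL.c (I.pos (nat_lit 0) (nat_lit 0)) T2.l1
  (TrL.c (I.pos (nat_lit 0) (nat_lit 0)) (xa T4.l1 T4.l2)
  (TrL.c (I.pos (nat_lit 0) (nat_lit 0)) T2.l7
  (TrL.c (I.pos (nat_lit 0) (nat_lit 0)) T4.l3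
  TrL.n)))))) (by decide +kernel)
theorem bx0_4 : BoxOK sI cl4 cl7 cl13 t2 t4 b0_4 :=
  box_mk (TrL.c (I.pos (nat_lit 0) (nat_lit 0)) T2.l6
  (TrL.c (I.pos (nat_lit 0) (nat_lit 0)) T4.l1
  (TrL.c (I.pos (nat_lit 0) (nat_lit 0)) T2.l1
  (TrL.c (I.pos (nat_lit 0) (nat_lit 0)) T4.l2
  (TrL.c (I.pos (nat_lit 0) (nat_lit 0)) T2.l7
  (TrL.c (I.pos (nat_lit 0) (nat_lit 0)) T4.l3
  TrL.n)))))) (by decide +kernel)
theorem bx0_5 : BoxOK sI cl4 cl7 cl13 t2 t4 b0_5 :=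
  box_mk (TrL.c (I.pos (nat_lit 0) (nat_lit 0)) (xa (xa (xa (xb (xa T2.l6 T2.l6) T2.l6) T2.l6) T2.l6) T2.l6)
  (TrL.c (I.pos (nat_lit 0) (nat_lit 0)) T4.l1
  (TrL.c (I.pos (nat_lit 0) (nat_lit 0)) T2.l1
  (TrL.c (I.pos (nat_lit 0) (nat_lit 0)) T4.l2
  (TrL.c (I.pos (nat_lit 0) (nat_lit 0)) T2.l7
  (TrL.c (I.pos (nat_lit 0) (nat_lit 0)) T4.l3
  TrL.n)))))) (by decide +kernel)
theorem bx0_6 : BoxOK sI cl4 cl7 cl13 t2 t4 b0_6 :=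
  box_mk (TrL.c (I.pos (nat_lit 0) (nat_lit 0)) (xa T2.l0 T2.l4)
  (TrL.c (I.pos (nat_lit 0) (nat_lit 0)) T4.l1
  (TrL.c (I.pos (nat_lit 0) (nat_lit 0)) T2.l1
  (TrL.c (I.pos (nat_lit 0) (nat_lit 0)) (xa T4.l2 (xb T4.l0 T4.l2))
  (TrL.c (I.pos (nat_lit 0) (nat_lit 0)) T2.l3
  (TrL.c (I.pos (nat_lit 0) (nat_lit 0)) T4.l3
  TrL.n)))))) (by decide +kernel)
theorem bx0_7 : BoxOK sI cl4 cl7 cl13 t2 t4 b0_7 :=
  box_mk (TrL.c (I.pos (nat_lit 0) (nat_lit 0)) (xb (xa (xb (xa T2.l0 T2.l0) (xa T2.l8 T2.l0)) (xb (xa T2.l0 T2.l4) (xa T2.l0 T2.l0))) (xa (xb (xa (xb T2.l0 T2.l0) (xb T2.l0 T2.l0)) (xa (xb (xc T2.l0 T2.l0) (xa T2.l0 T2.l0)) (xb (xc T2.l0 T2.l0) (xa T2.l0 T2.l0)))) (xb (xa (xb T2.l0 T2.l0) (xb T2.l0 T2.l0)) (xa (xb T2.l0 (xa T2.l0 T2.l0)) (xb (xa T2.l0 T2.l0) (xa T2.l0 T2.l0))))))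
  (TrL.c (I.pos (nat_lit 0) (nat_lit 0)) (xb (xa T4.l1 T4.l1) (xa T4.l1 (xb T4.l1 T4.l1)))
  (TrL.c (I.pos (nat_lit 0) (nat_lit 0)) (xc (xb T2.l5 (xa T2.l1 T2.l5)) (xb T2.l5 (xa T2.l1 T2.l5)))
  (TrL.c (I.pos (nat_lit 0) (nat_lit 0)) (xb (xa (xb (xc T4.l2 T4.l2) T4.l2) (xb (xc (xa (xb T4.l2 T4.l2) (xb (xd T4.l2 T4.l2) (xd T4.l2 T4.l2))) (xa T4.l2 (xd (xe T4.l2 T4.l2) (xb (xe T4.l2 T4.l2) T4.l2)))) (xc (xa T4.l2 (xd T4.l2 T4.l2)) (xa T4.l2 (xd T4.l2 T4.l2))))) (xa (xb T4.l2 (xc T4.l2 (xa T4.l2 T4.l2))) (xb (xc (xa T4.l2 (xd T4.l2 T4.l2)) (xa T4.l2 (xd T4.l2 T4.l2))) (xc (xa (xb T4.l2 T4.l2) (xd (xe T4.l2 T4.l2) (xe T4.l2 T4.l2))) (xa (xd T4.l2 T4.l2) (xd (xe T4.l2 T4.l2) (xe T4.l2 T4.l2)))))))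
  (TrL.c (I.pos (nat_lit 0) (nat_lit 0)) (xc (xb T2.l3 (xa T2.l2 T2.l3)) (xb T2.l3 (xa T2.l2 T2.l3)))
  (TrL.c (I.pos (nat_lit 0) (nat_lit 0)) (xb (xa T4.l3 T4.l3) (xa T4.l3 (xb T4.l3 T4.l3)))
  TrL.n)))))) (by decide +kernel)
theorem bx0_8 : BoxOK sI cl4 cl7 cl13 t2 t4 b0_8 :=
  box_mk (TrL.c (I.pos (nat_lit 0) (nat_lit 0)) (xa (xb (xa T2.l6 T2.l6) T2.l6) (xb (xa T2.l6 T2.l6) (xa T2.l6 T2.l6)))
  (TrL.c (I.pos (nat_lit 0) (nat_lit 0)) T4.l1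
  (TrL.c (I.pos (nat_lit 0) (nat_lit 0)) T2.l1
  (TrL.c (I.pos (nat_lit 0) (nat_lit 0)) T4.l2
  (TrL.c (I.pos (nat_lit 0) (nat_lit 0)) T2.l7
  (TrL.c (I.pos (nat_lit 0) (nat_lit 0)) T4.l3
  TrL.n)))))) (by decide +kernel)
theorem bx0_9 : BoxOK sI cl4 cl7 cl13 t2 t4 b0_9 :=
  box_mk (TrL.c (I.pos (nat_lit 0) (nat_lit 0)) (xa (xa (xb (xa T2.l6 T2.l6) T2.l6) T2.l6) T2.l6)
  (TrL.c (I.pos (nat_lit 0) (nat_lit 0)) (xa T4.l2 T4.l1)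
  (TrL.c (I.pos (nat_lit 0) (nat_lit 0)) T2.l1
  (TrL.c (I.pos (nat_lit 0) (nat_lit 0)) (xa T4.l1 T4.l2)
  (TrL.c (I.pos (nat_lit 0) (nat_lit 0)) T2.l7
  (TrL.c (I.pos (nat_lit 0) (nat_lit 0)) T4.l3
  TrL.n)))))) (by decide +kernel)
theorem bx0_10 : BoxOK sI cl4 cl7 cl13 t2 t4 b0_10 :=
  box_mk (TrL.c (I.pos (nat_lit 0) (nat_lit 0)) (xb (xa (xb T2.l8 T2.l8) (xb T2.l8 T2.l8)) (xa (xb (xa T2.l8 T2.l8) (xa T2.l8 T2.l8)) (xb (xa T2.l8 T2.l8) (xa T2.l8 T2.l8))))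
  (TrL.c (I.pos (nat_lit 0) (nat_lit 0)) (xb T4.l1 (xa T4.l1 T4.l1))
  (TrL.c (I.pos (nat_lit 0) (nat_lit 0)) (xb T2.l1 T2.l1)
  (TrL.c (I.pos (nat_lit 0) (nat_lit 0)) (xb (xa T4.l2 (xb T4.l2 T4.l2)) (xa (xb T4.l2 T4.l2) (xb (xa T4.l2 T4.l2) (xa T4.l2 (xd T4.l2 T4.l2)))))
  (TrL.c (I.pos (nat_lit 0) (nat_lit 0)) (xb T2.l3 T2.l9)
  (TrL.c (I.pos (nat_lit 0) (nat_lit 0)) (xb T4.l3 (xa T4.l3 T4.l3))
  TrL.n)))))) (by decide +kernel)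
theorem bx0_11 : BoxOK sI cl4 cl7 cl13 t2 t4 b0_11 :=
  box_mk (TrL.c (I.pos (nat_lit 0) (nat_lit 0)) (xa (xa (xb (xa (xb (xa (xb T2.l6 T2.l6) T2.l6) T2.l6) T2.l6) (xa (xb T2.l6 (xa (xb T2.l6 (xa T2.l6 T2.l6)) (xb T2.l6 T2.l6))) (xb T2.l6 (xa T2.l6 T2.l6)))) (xb T2.l6 (xa T2.l6 T2.l6))) (xa T2.l6 (xb T2.l6 (xa T2.l6 (xb T2.l6 T2.l6)))))
  (TrL.c (I.pos (nat_lit 0) (nat_lit 0)) (xa T4.l1 T4.l1)
  (TrL.c (I.pos (nat_lit 0) (nat_lit 0)) (xa T2.l1 T2.l1)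
  (TrL.c (I.pos (nat_lit 0) (nat_lit 0)) (xa T4.l2 T4.l2)
  (TrL.c (I.pos (nat_lit 0) (nat_lit 0)) (xa T2.l7 T2.l7)
  (TrL.c (I.pos (nat_lit 0) (nat_lit 0)) (xa T4.l3 T4.l3)
  TrL.n)))))) (by decide +kernel)
theorem bx0_12 : BoxOK sI cl4 cl7 cl13 t2 t4 b0_12 :=
  box_mk (TrL.c (I.pos (nat_lit 0) (nat_lit 0)) (xa (xb (xa T2.l8 T2.l8) (xa T2.l8 T2.l8)) (xb (xa T2.l8 T2.l0) T2.l8))
  (TrL.c (I.pos (nat_lit 0) (nat_lit 0)) T4.l1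
  (TrL.c (I.pos (nat_lit 0) (nat_lit 0)) T2.l1
  (TrL.c (I.pos (nat_lit 0) (nat_lit 0)) (xa T4.l2 T4.l2)
  (TrL.c (I.pos (nat_lit 0) (nat_lit 0)) (xa T2.l3 T2.l3)
  (TrL.c (I.pos (nat_lit 0) (nat_lit 0)) T4.l3
  TrL.n)))))) (by decide +kernel)
theorem bx0_13 : BoxOK sI cl4 cl7 cl13 t2 t4 b0_13 :=
  box_mk (TrL.c (I.pos (nat_lit 0) (nat_lit 0)) (xb (xa T2.l8 T2.l8) (xa T2.l8 (xa T2.l8 T2.l8)))
  (TrL.c (I.pos (nat_lit 0) (nat_lit 0)) T4.l1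
  (TrL.c (I.pos (nat_lit 0) (nat_lit 0)) T2.l5
  (TrL.c (I.pos (nat_lit 0) (nat_lit 0)) (xb (xa (xb T4.l2 T4.l2) (xb (xa T4.l2 T4.l2) T4.l2)) T4.l2)
  (TrL.c (I.pos (nat_lit 0) (nat_lit 0)) T2.l3
  (TrL.c (I.pos (nat_lit 0) (nat_lit 0)) T4.l3
  TrL.n)))))) (by decide +kernel)
theorem sv0 : StarV sI cl4 cl7 cl13 t2 t4 t0 :=
  (bt_n (bt_n (bt_n (bt_b bx0_0) (bt_n (bt_b bx0_1) (bt_b bx0_2))) (bt_n (bt_n (bt_b bx0_3) (bt_b bx0_4)) (bt_n (bt_b bx0_5) (bt_b bx0_6)))) (bt_n (bt_n (bt_b bx0_7) (bt_n (bt_b bx0_8) (bt_b bx0_9))) (bt_n (bt_n (bt_b bx0_10) (bt_b bx0_11)) (bt_n (bt_b bx0_12) (bt_b bx0_13)))))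
def S0 : StarD := StarD.mk cl4 cl7 cl13 2 4 t0
theorem bx1_0 : BoxOK sI cl4 cl13 cl7 t4 t2 b1_0 :=
  box_mk (TrL.c (I.pos (nat_lit 0) (nat_lit 0)) (xa (xb (xa (xb T4.l0 T4.l0) T4.l0) (xa (xb T4.l0 (xa T4.l0 T4.l0)) (xb T4.l0 (xa T4.l0 T4.l0)))) (xb (xa T4.l0 T4.l0) (xa (xb T4.l0 (xa T4.l0 T4.l0)) (xb T4.l0 (xa T4.l0 T4.l0)))))
  (TrL.c (I.pos (nat_lit 0) (nat_lit 0)) (xa (xb T2.l3 T2.l3) (xb T2.l3 (xa T2.l3 T2.l3)))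
  (TrL.c (I.pos (nat_lit 0) (nat_lit 0)) (xa T4.l4 (xb T4.l4 T4.l4))
  (TrL.c (I.pos (nat_lit 0) (nat_lit 0)) (xa T2.l4 (xb T2.l4 (xa T2.l4 (xb T2.l4 T2.l4))))
  (TrL.c (I.pos (nat_lit 0) (nat_lit 0)) (xa T4.l5 (xb T4.l5 T4.l5))
  (TrL.c (I.pos (nat_lit 0) (nat_lit 0)) (xa (xb T2.l5 T2.l5) (xb T2.l5 (xa T2.l5 T2.l5)))
  TrL.n)))))) (by decide +kernel)
theorem bx1_1 : BoxOK sI cl4 cl13 cl7 t4 t2 b1_1 :=
  box_mk (TrL.c (I.pos (nat_lit 0) (nat_lit 0)) (xa (xa T4.l6 T4.l6) (xa T4.l6 (xa T4.l6 T4.l6)))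
  (TrL.c (I.pos (nat_lit 0) (nat_lit 0)) (xa T2.l3 T2.l3)
  (TrL.c (I.pos (nat_lit 0) (nat_lit 0)) T4.l4
  (TrL.c (I.pos (nat_lit 0) (nat_lit 0)) (xa T2.l4 T2.l4)
  (TrL.c (I.pos (nat_lit 0) (nat_lit 0)) (xa T4.l7 T4.l7)
  (TrL.c (I.pos (nat_lit 0) (nat_lit 0)) (xa T2.l5 T2.l5)
  TrL.n)))))) (by decide +kernel)
theorem bx1_2 : BoxOK sI cl4 cl13 cl7 t4 t2 b1_2 :=
  box_mk (TrL.c (I.pos (nat_lit 0) (nat_lit 0)) (xb (xa T4.l6 T4.l0) (xa (xb T4.l6 T4.l6) T4.l6))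
  (TrL.c (I.pos (nat_lit 0) (nat_lit 0)) T2.l3
  (TrL.c (I.pos (nat_lit 0) (nat_lit 0)) T4.l4
  (TrL.c (I.pos (nat_lit 0) (nat_lit 0)) T2.l4
  (TrL.c (I.pos (nat_lit 0) (nat_lit 0)) T4.l7
  (TrL.c (I.pos (nat_lit 0) (nat_lit 0)) T2.l5
  TrL.n)))))) (by decide +kernel)
theorem bx1_3 : BoxOK sI cl4 cl13 cl7 t4 t2 b1_3 :=
  box_mk (TrL.c (I.pos (nat_lit 0) (nat_lit 0)) (xa (xa (xb (xa (xb T4.l6 T4.l6) T4.l6) T4.l6) T4.l6) T4.l6)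
  (TrL.c (I.pos (nat_lit 0) (nat_lit 0)) (xa T2.l3 T2.l3)
  (TrL.c (I.pos (nat_lit 0) (nat_lit 0)) T4.l4
  (TrL.c (I.pos (nat_lit 0) (nat_lit 0)) (xa T2.l4 T2.l4)
  (TrL.c (I.pos (nat_lit 0) (nat_lit 0)) T4.l7
  (TrL.c (I.pos (nat_lit 0) (nat_lit 0)) (xa T2.l5 T2.l5)
  TrL.n)))))) (by decide +kernel)
theorem bx1_4 : BoxOK sI cl4 cl13 cl7 t4 t2 b1_4 :=
  box_mk (TrL.c (I.pos (nat_lit 0) (nat_lit 0)) (xb (xa (xb (xa T4.l0 T4.l0) (xa T4.l0 T4.l0)) (xb (xa T4.l0 T4.l2) (xa T4.l0 T4.l2))) (xa (xb (xa (xb T4.l0 T4.l0) (xb T4.l0 T4.l0)) (xa (xb T4.l0 T4.l0) (xb T4.l0 T4.l0))) (xb (xa (xb T4.l0 T4.l0) (xb T4.l0 T4.l0)) (xa (xb T4.l0 T4.l0) (xb (xa T4.l0 T4.l0) (xa T4.l0 T4.l0))))))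
  (TrL.c (I.pos (nat_lit 0) (nat_lit 0)) (xb (xa T2.l3 (xb T2.l3 T2.l3)) (xa (xb T2.l3 T2.l3) (xa T2.l3 T2.l3)))
  (TrL.c (I.pos (nat_lit 0) (nat_lit 0)) (xa T4.l4 (xc T4.l3 T4.l3))
  (TrL.c (I.pos (nat_lit 0) (nat_lit 0)) (xb (xa (xb (xc T2.l4 T2.l4) T2.l4) (xb (xa (xc T2.l4 T2.l4) (xc (xd T2.l4 T2.l4) (xd (xb T2.l4 T2.l4) (xb T2.l4 T2.l4)))) (xc (xa T2.l4 T2.l4) (xa T2.l4 (xd T2.l4 T2.l4))))) (xa (xb T2.l4 (xc T2.l4 T2.l4)) (xb (xc (xa T2.l4 (xd T2.l4 T2.l4)) (xa T2.l4 (xd T2.l4 T2.l4))) (xc (xa T2.l4 (xd T2.l4 T2.l4)) (xa (xd T2.l4 T2.l4) (xd (xb T2.l4 T2.l4) (xb T2.l4 T2.l4)))))))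
  (TrL.c (I.pos (nat_lit 0) (nat_lit 0)) (xa T4.l5 (xc T4.l1 T4.l1))
  (TrL.c (I.pos (nat_lit 0) (nat_lit 0)) (xb (xa T2.l5 (xb T2.l5 T2.l5)) (xa (xb T2.l5 T2.l5) (xa T2.l5 T2.l5)))
  TrL.n)))))) (by decide +kernel)
theorem bx1_5 : BoxOK sI cl4 cl13 cl7 t4 t2 b1_5 :=
  box_mk (TrL.c (I.pos (nat_lit 0) (nat_lit 0)) T4.l6
  (TrL.c (I.pos (nat_lit 0) (nat_lit 0)) T2.l3
  (TrL.c (I.pos (nat_lit 0) (nat_lit 0)) T4.l4
  (TrL.c (I.pos (nat_lit 0) (nat_lit 0)) T2.l4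
  (TrL.c (I.pos (nat_lit 0) (nat_lit 0)) T4.l7
  (TrL.c (I.pos (nat_lit 0) (nat_lit 0)) T2.l5
  TrL.n)))))) (by decide +kernel)
theorem bx1_6 : BoxOK sI cl4 cl13 cl7 t4 t2 b1_6 :=
  box_mk (TrL.c (I.pos (nat_lit 0) (nat_lit 0)) T4.l6
  (TrL.c (I.pos (nat_lit 0) (nat_lit 0)) T2.l3
  (TrL.c (I.pos (nat_lit 0) (nat_lit 0)) T4.l4
  (TrL.c (I.pos (nat_lit 0) (nat_lit 0)) T2.l4
  (TrL.c (I.pos (nat_lit 0) (nat_lit 0)) T4.l7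
  (TrL.c (I.pos (nat_lit 0) (nat_lit 0)) T2.l5
  TrL.n)))))) (by decide +kernel)
theorem bx1_7 : BoxOK sI cl4 cl13 cl7 t4 t2 b1_7 :=
  box_mk (TrL.c (I.pos (nat_lit 0) (nat_lit 0)) (xa T4.l0 T4.l2)
  (TrL.c (I.pos (nat_lit 0) (nat_lit 0)) (xa T2.l3 T2.l3)
  (TrL.c (I.pos (nat_lit 0) (nat_lit 0)) T4.l3
  (TrL.c (I.pos (nat_lit 0) (nat_lit 0)) (xa T2.l4 (xb T2.l0 (xa T2.l4 (xd T2.l4 T2.l4))))
  (TrL.c (I.pos (nat_lit 0) (nat_lit 0)) T4.l1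
  (TrL.c (I.pos (nat_lit 0) (nat_lit 0)) (xa T2.l5 T2.l5)
  TrL.n)))))) (by decide +kernel)
theorem bx1_8 : BoxOK sI cl4 cl13 cl7 t4 t2 b1_8 :=
  box_mk (TrL.c (I.pos (nat_lit 0) (nat_lit 0)) (xa (xb (xa T4.l6 T4.l6) T4.l6) T4.l0)
  (TrL.c (I.pos (nat_lit 0) (nat_lit 0)) T2.l3
  (TrL.c (I.pos (nat_lit 0) (nat_lit 0)) T4.l4
  (TrL.c (I.pos (nat_lit 0) (nat_lit 0)) T2.l4
  (TrL.c (I.pos (nat_lit 0) (nat_lit 0)) T4.l7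
  (TrL.c (I.pos (nat_lit 0) (nat_lit 0)) T2.l5
  TrL.n)))))) (by decide +kernel)
theorem bx1_9 : BoxOK sI cl4 cl13 cl7 t4 t2 b1_9 :=
  box_mk (TrL.c (I.pos (nat_lit 0) (nat_lit 0)) (xa T4.l6 T4.l6)
  (TrL.c (I.pos (nat_lit 0) (nat_lit 0)) (xa T2.l3 T2.l3)
  (TrL.c (I.pos (nat_lit 0) (nat_lit 0)) T4.l4
  (TrL.c (I.pos (nat_lit 0) (nat_lit 0)) (xa T2.l4 T2.l4)
  (TrL.c (I.pos (nat_lit 0) (nat_lit 0)) T4.l7
  (TrL.c (I.pos (nat_lit 0) (nat_lit 0)) (xa T2.l5 T2.l5)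
  TrL.n)))))) (by decide +kernel)
theorem bx1_10 : BoxOK sI cl4 cl13 cl7 t4 t2 b1_10 :=
  box_mk (TrL.c (I.pos (nat_lit 0) (nat_lit 0)) (xb (xa (xb T4.l8 T4.l8) (xb T4.l8 T4.l8)) (xa (xb (xa T4.l8 T4.l8) (xa T4.l8 T4.l8)) (xb (xa T4.l8 T4.l8) (xa T4.l8 T4.l8))))
  (TrL.c (I.pos (nat_lit 0) (nat_lit 0)) (xb T2.l3 (xa T2.l3 T2.l3))
  (TrL.c (I.pos (nat_lit 0) (nat_lit 0)) T4.l4
  (TrL.c (I.pos (nat_lit 0) (nat_lit 0)) (xb (xa T2.l4 T2.l4) (xa T2.l4 (xb T2.l4 (xa T2.l4 T2.l4))))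
  (TrL.c (I.pos (nat_lit 0) (nat_lit 0)) T4.l9
  (TrL.c (I.pos (nat_lit 0) (nat_lit 0)) (xb T2.l5 (xa T2.l5 T2.l5))
  TrL.n)))))) (by decide +kernel)
theorem bx1_11 : BoxOK sI cl4 cl13 cl7 t4 t2 b1_11 :=
  box_mk (TrL.c (I.pos (nat_lit 0) (nat_lit 0)) (xa (xa (xb (xa (xb T4.l6 T4.l6) T4.l6) (xa (xb T4.l6 (xa T4.l6 T4.l6)) T4.l6)) (xb T4.l6 T4.l6)) (xa T4.l6 (xb T4.l6 (xa T4.l6 (xb T4.l6 T4.l6)))))
  (TrL.c (I.pos (nat_lit 0) (nat_lit 0)) (xa (xa T2.l3 T2.l3) T2.l3)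
  (TrL.c (I.pos (nat_lit 0) (nat_lit 0)) (xa T4.l4 T4.l4)
  (TrL.c (I.pos (nat_lit 0) (nat_lit 0)) (xa (xa T2.l4 T2.l4) T2.l4)
  (TrL.c (I.pos (nat_lit 0) (nat_lit 0)) (xa T4.l7 T4.l7)
  (TrL.c (I.pos (nat_lit 0) (nat_lit 0)) (xa (xa T2.l5 T2.l5) T2.l5)
  TrL.n)))))) (by decide +kernel)
theorem bx1_12 : BoxOK sI cl4 cl13 cl7 t4 t2 b1_12 :=
  box_mk (TrL.c (I.pos (nat_lit 0) (nat_lit 0)) (xa T4.l0 T4.l0)
  (TrL.c (I.pos (nat_lit 0) (nat_lit 0)) T2.l3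
  (TrL.c (I.pos (nat_lit 0) (nat_lit 0)) T4.l4
  (TrL.c (I.pos (nat_lit 0) (nat_lit 0)) (xa T2.l4 (xb T2.l0 T2.l4))
  (TrL.c (I.pos (nat_lit 0) (nat_lit 0)) T4.l9
  (TrL.c (I.pos (nat_lit 0) (nat_lit 0)) T2.l5
  TrL.n)))))) (by decide +kernel)
theorem bx1_13 : BoxOK sI cl4 cl13 cl7 t4 t2 b1_13 :=
  box_mk (TrL.c (I.pos (nat_lit 0) (nat_lit 0)) (xb (xa T4.l8 T4.l8) (xa T4.l8 T4.l8))
  (TrL.c (I.pos (nat_lit 0) (nat_lit 0)) T2.l3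
  (TrL.c (I.pos (nat_lit 0) (nat_lit 0)) T4.l4
  (TrL.c (I.pos (nat_lit 0) (nat_lit 0)) (xb (xa T2.l4 (xb T2.l4 T2.l4)) T2.l4)
  (TrL.c (I.pos (nat_lit 0) (nat_lit 0)) T4.l1
  (TrL.c (I.pos (nat_lit 0) (nat_lit 0)) T2.l5
  TrL.n)))))) (by decide +kernel)
theorem sv1 : StarV sI cl4 cl13 cl7 t4 t2 t1 :=
  (bt_n (bt_n (bt_n (bt_b bx1_0) (bt_n (bt_b bx1_1) (bt_b bx1_2))) (bt_n (bt_n (bt_b bx1_3) (bt_b bx1_4)) (bt_n (bt_b bx1_5) (bt_b bx1_6)))) (bt_n (bt_n (bt_b bx1_7) (bt_n (bt_b bx1_8) (bt_b bx1_9))) (bt_n (bt_n (bt_b bx1_10) (bt_b bx1_11)) (bt_n (bt_b bx1_12) (bt_b bx1_13)))))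
def S1 : StarD := StarD.mk cl4 cl13 cl7 4 2 t1
theorem bx2_0 : BoxOK sI cl7 cl4 cl13 t0 t5 b2_0 :=
  box_mk (TrL.c (I.pos (nat_lit 0) (nat_lit 0)) (xb (xa T0.l7 T0.l0) (xa (xb T0.l7 (xa T0.l0 T0.l0)) (xb T0.l0 (xa T0.l0 T0.l0))))
  (TrL.c (I.pos (nat_lit 0) (nat_lit 0)) (xb T5.l1 (xk T5.l1 T5.l1))
  (TrL.c (I.pos (nat_lit 0) (nat_lit 111196574)) (xR T0.l1 (xR T0.l1 (xR T0.l1 T0.l1)))
  (TrL.c (I.pos (nat_lit 0) (nat_lit 77433728)) (xR T5.l2 (xR T5.l2 T5.l2))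
  (TrL.c (I.pos (nat_lit 0) (nat_lit 0)) (xb (xk (xa T5.l8 (xb T5.l3 T5.l3)) (xa T5.l8 (xb T5.l3 T5.l3))) (xa (xk (xb T5.l3 T5.l3) T5.l3) (xk (xb T5.l3 T5.l3) (xb T5.l3 T5.l3))))
  (TrL.c (I.pos (nat_lit 0) (nat_lit 0)) T0.l2
  (TrL.c (I.mix (nat_lit 29511666) (nat_lit 77433728)) (xR T5.l4 (xR T5.l4 (xR T5.l4 T5.l4)))
  (TrL.c (I.mix (nat_lit 29511666) (nat_lit 46070178)) (xR T0.l3 (xR T0.l3 T0.l9))
  TrL.n)))))))) (by decide +kernel)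
theorem bx2_1 : BoxOK sI cl7 cl4 cl13 t0 t5 b2_1 :=
  box_mk (TrL.c (I.pos (nat_lit 0) (nat_lit 0)) T5.l5
  (TrL.c (I.pos (nat_lit 0) (nat_lit 0)) T0.l4
  (TrL.c (I.mix (nat_lit 29511666) (nat_lit 77433728)) (xR T5.l6 (xR T5.l4 (xb T5.l4 T5.l4)))
  (TrL.c (I.mix (nat_lit 29511666) (nat_lit 46070178)) (xR (xR T0.l5 T0.l5) T0.l1)
  TrL.n)))) (by decide +kernel)
theorem bx2_2 : BoxOK sI cl7 cl4 cl13 t0 t5 b2_2 :=
  box_mk (TrL.c (I.pos (nat_lit 0) (nat_lit 0)) (xb (xa (xb T0.l6 T0.l7) T0.l7) (xa (xb T0.l7 T0.l7) T0.l7))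
  (TrL.c (I.pos (nat_lit 0) (nat_lit 0)) T5.l1
  (TrL.c (I.pos (nat_lit 0) (nat_lit 111196574)) (xR T0.l1 (xR T0.l1 T0.l1))
  (TrL.c (I.pos (nat_lit 0) (nat_lit 77433728)) (xR T5.l4 T5.l4)
  (TrL.c (I.pos (nat_lit 0) (nat_lit 0)) T5.l7
  (TrL.c (I.pos (nat_lit 0) (nat_lit 0)) T0.l2
  (TrL.c (I.mix (nat_lit 29511666) (nat_lit 77433728)) T5.l4
  (TrL.c (I.mix (nat_lit 29511666) (nat_lit 46070178)) T0.l11
  TrL.n)))))))) (by decide +kernel)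
theorem bx2_3 : BoxOK sI cl7 cl4 cl13 t0 t5 b2_3 :=
  box_mk (TrL.c (I.pos (nat_lit 0) (nat_lit 0)) (xa (xb (xa (xb (xa T0.l7 T0.l7) T0.l7) (xb T0.l7 T0.l7)) (xa (xb T0.l7 (xa T0.l7 T0.l7)) T0.l7)) (xb (xa T0.l7 T0.l7) T0.l7))
  (TrL.c (I.pos (nat_lit 0) (nat_lit 0)) (xa T5.l1 T5.l1)
  (TrL.c (I.pos (nat_lit 0) (nat_lit 111196574)) (xR T0.l1 (xR T0.l1 (xR T0.l1 T0.l1)))
  (TrL.c (I.pos (nat_lit 0) (nat_lit 77433728)) (xR T5.l4 (xR T5.l2 T5.l2))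
  (TrL.c (I.pos (nat_lit 0) (nat_lit 0)) (xa (xb T5.l8 T5.l8) (xb (xk T5.l8 T5.l8) T5.l8))
  (TrL.c (I.pos (nat_lit 0) (nat_lit 0)) T0.l2
  (TrL.c (I.mix (nat_lit 29511666) (nat_lit 77433728)) (xR T5.l4 (xR T5.l4 (xR T5.l4 T5.l4)))
  (TrL.c (I.mix (nat_lit 29511666) (nat_lit 46070178)) T0.l11
  TrL.n)))))))) (by decide +kernel)
theorem bx2_4 : BoxOK sI cl7 cl4 cl13 t0 t5 b2_4 :=
  box_mk (TrL.c (I.pos (nat_lit 0) (nat_lit 0)) (xb (xa (xb T0.l7 T0.l7) (xb T0.l7 T0.l7)) (xa (xb (xa T0.l7 T0.l7) (xa T0.l7 T0.l7)) (xb T0.l7 (xa T0.l7 T0.l7))))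
  (TrL.c (I.pos (nat_lit 0) (nat_lit 0)) (xb (xa T5.l1 T5.l1) (xa T5.l1 T5.l1))
  (TrL.c (I.pos (nat_lit 0) (nat_lit 111196574)) (xR T0.l1 (xR T0.l1 (xb T0.l1 (xR T0.l1 T0.l1))))
  (TrL.c (I.pos (nat_lit 0) (nat_lit 77433728)) (xR T5.l2 (xR T5.l2 T5.l2))
  (TrL.c (I.pos (nat_lit 0) (nat_lit 0)) (xb (xa (xb T5.l8 T5.l8) (xk (xb T5.l8 T5.l8) (xb T5.l8 T5.l8))) (xa (xk T5.l8 T5.l8) (xk (xb T5.l3 T5.l3) (xb T5.l3 T5.l3))))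
  (TrL.c (I.pos (nat_lit 0) (nat_lit 0)) T0.l2
  (TrL.c (I.mix (nat_lit 29511666) (nat_lit 77433728)) (xR T5.l4 (xR T5.l4 (xR T5.l4 T5.l4)))
  (TrL.c (I.mix (nat_lit 29511666) (nat_lit 46070178)) (xR T0.l3 (xR T0.l3 T0.l3))
  TrL.n)))))))) (by decide +kernel)
theorem bx2_5 : BoxOK sI cl7 cl4 cl13 t0 t5 b2_5 :=
  box_mk (TrL.c (I.pos (nat_lit 0) (nat_lit 0)) (xa T5.l1 T5.l1)
  (TrL.c (I.pos (nat_lit 0) (nat_lit 0)) T0.l1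
  (TrL.c (I.mix (nat_lit 29511666) (nat_lit 77433728)) (xR (xR T5.l6 T5.l6) (xR T5.l2 (xR T5.l2 T5.l2)))
  (TrL.c (I.mix (nat_lit 29511666) (nat_lit 46070178)) (xR (xR T0.l5 T0.l5) T0.l1)
  TrL.n)))) (by decide +kernel)
theorem bx2_6 : BoxOK sI cl7 cl4 cl13 t0 t5 b2_6 :=
  box_mk (TrL.c (I.pos (nat_lit 0) (nat_lit 0)) (xa (xb T0.l0 (xa T0.l0 T0.l0)) (xb T0.l0 (xa T0.l0 T0.l0)))
  (TrL.c (I.pos (nat_lit 0) (nat_lit 0)) (xa (xb T5.l1 T5.l1) (xb T5.l1 (xk T5.l1 T5.l1)))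
  (TrL.c (I.pos (nat_lit 0) (nat_lit 111196574)) (xR T0.l11 (xR T0.l1 (xR T0.l1 (xa T0.l1 T0.l1))))
  (TrL.c (I.pos (nat_lit 0) (nat_lit 77433728)) (xR (xR T5.l2 T5.l2) (xR T5.l2 (xR T5.l2 T5.l2)))
  (TrL.c (I.pos (nat_lit 0) (nat_lit 0)) (xa (xb (xk (xa (xb T5.l3 T5.l3) (xb (xk T5.l3 T5.l3) T5.l3)) (xa (xb T5.l3 T5.l3) (xb (xk T5.l3 T5.l3) T5.l3))) (xk T5.l3 T5.l3)) (xb (xk (xa (xb (xk T5.l3 T5.l3) T5.l3) (xb (xk (xa T5.l3 T5.l3) (xa T5.l3 T5.l3)) (xk (xa T5.l3 T5.l3) T5.l3))) (xa (xb (xk T5.l3 T5.l3) T5.l3) (xb (xk (xa T5.l3 T5.l3) (xa T5.l3 T5.l3)) (xk T5.l3 T5.l3)))) (xk (xa (xb T5.l3 T5.l3) (xb (xk (xa T5.l3 T5.l3) T5.l3) (xk (xa T5.l3 T5.l3) (xa T5.l3 T5.l3)))) (xa (xb T5.l3 T5.l3) (xb (xk T5.l3 T5.l3) (xk (xa T5.l3 T5.l3) (xa T5.l3 T5.l3)))))))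
  (TrL.c (I.pos (nat_lit 0) (nat_lit 0)) (xk (xa T0.l2 T0.l2) T0.l2)
  (TrL.c (I.mix (nat_lit 29511666) (nat_lit 77433728)) (xR (xR T5.l4 T5.l4) (xR T5.l4 (xR T5.l4 (xk (xb T5.l4 T5.l4) T5.l4))))
  (TrL.c (I.mix (nat_lit 29511666) (nat_lit 46070178)) (xR (xR T0.l3 T0.l3) (xR T0.l3 T0.l9))
  TrL.n)))))))) (by decide +kernel)
theorem bx2_7 : BoxOK sI cl7 cl4 cl13 t0 t5 b2_7 :=
  box_mk (TrL.c (I.pos (nat_lit 0) (nat_lit 0)) (xb (xa (xb (xa T0.l6 T0.l6) T0.l6) T0.l6) (xa (xb T0.l6 (xa T0.l6 T0.l6)) (xb T0.l6 T0.l6)))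
  (TrL.c (I.pos (nat_lit 0) (nat_lit 0)) T5.l5
  (TrL.c (I.pos (nat_lit 0) (nat_lit 111196574)) (xR T0.l1 (xR T0.l1 (xR T0.l1 T0.l4)))
  (TrL.c (I.pos (nat_lit 0) (nat_lit 77433728)) T5.l4
  (TrL.c (I.pos (nat_lit 0) (nat_lit 0)) T5.l7
  (TrL.c (I.pos (nat_lit 0) (nat_lit 0)) T0.l2
  (TrL.c (I.mix (nat_lit 29511666) (nat_lit 77433728)) (xR T5.l4 T5.l4)
  (TrL.c (I.mix (nat_lit 29511666) (nat_lit 46070178)) T0.l11
  TrL.n)))))))) (by decide +kernel)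
theorem bx2_8 : BoxOK sI cl7 cl4 cl13 t0 t5 b2_8 :=
  box_mk (TrL.c (I.pos (nat_lit 0) (nat_lit 0)) (xa (xb T0.l0 (xb T0.l0 T0.l0)) (xb T0.l0 (xb T0.l0 (xa T0.l0 T0.l0))))
  (TrL.c (I.pos (nat_lit 0) (nat_lit 0)) (xk T5.l1 T5.l1)
  (TrL.c (I.pos (nat_lit 0) (nat_lit 111196574)) (xR T0.l1 (xR T0.l1 T0.l1))
  (TrL.c (I.pos (nat_lit 0) (nat_lit 77433728)) (xR T5.l2 T5.l2)
  (TrL.c (I.pos (nat_lit 0) (nat_lit 0)) (xb (xk T5.l3 T5.l3) (xk (xa T5.l3 T5.l3) (xa T5.l3 T5.l3)))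
  (TrL.c (I.pos (nat_lit 0) (nat_lit 0)) T0.l2
  (TrL.c (I.mix (nat_lit 29511666) (nat_lit 77433728)) (xR T5.l4 (xR T5.l4 T5.l4))
  (TrL.c (I.mix (nat_lit 29511666) (nat_lit 46070178)) (xR T0.l3 T0.l3)
  TrL.n)))))))) (by decide +kernel)
theorem bx2_9 : BoxOK sI cl7 cl4 cl13 t0 t5 b2_9 :=
  box_mk (TrL.c (I.pos (nat_lit 0) (nat_lit 0)) (xb (xa T0.l6 T0.l7) T0.l7)
  (TrL.c (I.pos (nat_lit 0) (nat_lit 0)) T5.l1
  (TrL.c (I.pos (nat_lit 0) (nat_lit 111196574)) (xR T0.l1 T0.l1)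
  (TrL.c (I.pos (nat_lit 0) (nat_lit 77433728)) T5.l4
  (TrL.c (I.pos (nat_lit 0) (nat_lit 0)) T5.l7
  (TrL.c (I.pos (nat_lit 0) (nat_lit 0)) T0.l2
  (TrL.c (I.mix (nat_lit 29511666) (nat_lit 77433728)) T5.l4
  (TrL.c (I.mix (nat_lit 29511666) (nat_lit 46070178)) T0.l3
  TrL.n)))))))) (by decide +kernel)
theorem sv2 : StarV sI cl7 cl4 cl13 t0 t5 t2 :=
  (bt_n (bt_n (bt_n (bt_b bx2_0) (bt_b bx2_1)) (bt_n (bt_b bx2_2) (bt_n (bt_b bx2_3) (bt_b bx2_4)))) (bt_n (bt_n (bt_b bx2_5) (bt_b bx2_6)) (bt_n (bt_b bx2_7) (bt_n (bt_b bx2_8) (bt_b bx2_9)))))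
def S2 : StarD := StarD.mk cl7 cl4 cl13 0 5 t2
theorem bx3_0 : BoxOK sI cl7 cl13 cl4 t5 t0 b3_0 :=
  box_mk (TrL.c (I.pos (nat_lit 0) (nat_lit 0)) (xa (xb (xa (xb T5.l0 (xa T5.l0 T5.l0)) (xb T5.l0 T5.l0)) (xa (xb (xa T5.l0 T5.l0) (xa (xc T5.l0 T5.l0) (xc T5.l0 T5.l0))) (xb (xa T5.l0 T5.l0) (xa (xc T5.l0 T5.l0) T5.l0)))) (xa (xb (xa T5.l0 T5.l0) (xa (xb T5.l0 T5.l0) (xb T5.l0 T5.l0))) (xb (xa T5.l0 (xb T5.l0 T5.l0)) (xa (xb T5.l0 T5.l0) (xb T5.l0 T5.l0)))))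
  (TrL.c (I.pos (nat_lit 0) (nat_lit 0)) (xa (xk T0.l8 T0.l8) (xk T0.l8 T0.l8))
  (TrL.c (I.pos (nat_lit 0) (nat_lit 111196574)) (xR (xR T5.l4 T5.l9) (xR T5.l4 (xR T5.l4 T5.l4)))
  (TrL.c (I.pos (nat_lit 0) (nat_lit 77433728)) (xR (xR T0.l9 T0.l9) (xR T0.l9 (xR T0.l9 T0.l9)))
  (TrL.c (I.pos (nat_lit 0) (nat_lit 0)) (xa (xk (xb T0.l10 T0.l10) (xb T0.l13 T0.l10)) (xk (xb T0.l10 T0.l10) T0.l10))
  (TrL.c (I.pos (nat_lit 0) (nat_lit 0)) T5.l10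
  (TrL.c (I.mix (nat_lit 29511666) (nat_lit 77433728)) (xR T0.l11 (xR T0.l11 (xR T0.l11 T0.l1)))
  (TrL.c (I.mix (nat_lit 29511666) (nat_lit 46070178)) (xR (xR T5.l11 T5.l11) T5.l2)
  TrL.n)))))))) (by decide +kernel)
theorem bx3_1 : BoxOK sI cl7 cl13 cl4 t5 t0 b3_1 :=
  box_mk (TrL.c (I.pos (nat_lit 0) (nat_lit 0)) (xa (xb (xa T5.l12 T5.l12) (xa T5.l12 T5.l12)) (xb (xa T5.l0 T5.l0) (xa T5.l12 T5.l0)))
  (TrL.c (I.pos (nat_lit 0) (nat_lit 0)) (xa T0.l8 T0.l8)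
  (TrL.c (I.pos (nat_lit 0) (nat_lit 111196574)) (xR (xR T5.l4 T5.l9) (xR T5.l9 (xR T5.l9 T5.l9)))
  (TrL.c (I.pos (nat_lit 0) (nat_lit 77433728)) (xR (xR T0.l9 T0.l9) T0.l9)
  (TrL.c (I.pos (nat_lit 0) (nat_lit 0)) (xa (xk (xb T0.l12 T0.l12) (xb T0.l12 T0.l12)) (xk (xb T0.l12 T0.l12) (xb T0.l12 T0.l12)))
  (TrL.c (I.pos (nat_lit 0) (nat_lit 0)) T5.l10
  (TrL.c (I.mix (nat_lit 29511666) (nat_lit 77433728)) (xR T0.l11 (xR T0.l11 (xR T0.l11 T0.l11)))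
  (TrL.c (I.mix (nat_lit 29511666) (nat_lit 46070178)) (xR T5.l11 T5.l2)
  TrL.n)))))))) (by decide +kernel)
theorem bx3_2 : BoxOK sI cl7 cl13 cl4 t5 t0 b3_2 :=
  box_mk (TrL.c (I.pos (nat_lit 0) (nat_lit 0)) (xa T5.l12 T5.l12)
  (TrL.c (I.pos (nat_lit 0) (nat_lit 0)) (xa T0.l8 T0.l8)
  (TrL.c (I.pos (nat_lit 0) (nat_lit 111196574)) (xR T5.l4 (xR T5.l9 T5.l9))
  (TrL.c (I.pos (nat_lit 0) (nat_lit 77433728)) (xR T0.l9 (xR T0.l9 T0.l9))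
  (TrL.c (I.pos (nat_lit 0) (nat_lit 0)) (xa (xa T0.l12 T0.l12) (xa T0.l12 T0.l12))
  (TrL.c (I.pos (nat_lit 0) (nat_lit 0)) T5.l10
  (TrL.c (I.mix (nat_lit 29511666) (nat_lit 77433728)) (xR T0.l11 (xR T0.l11 (xa T0.l11 T0.l11)))
  (TrL.c (I.mix (nat_lit 29511666) (nat_lit 46070178)) T5.l11
  TrL.n)))))))) (by decide +kernel)
theorem bx3_3 : BoxOK sI cl7 cl13 cl4 t5 t0 b3_3 :=
  box_mk (TrL.c (I.pos (nat_lit 0) (nat_lit 0)) (xb (xa (xb T5.l13 T5.l13) (xb T5.l13 T5.l13)) (xa (xb (xa T5.l13 T5.l13) (xa T5.l13 T5.l13)) (xb T5.l13 (xa T5.l13 T5.l13))))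
  (TrL.c (I.pos (nat_lit 0) (nat_lit 0)) (xk T0.l8 T0.l8)
  (TrL.c (I.pos (nat_lit 0) (nat_lit 111196574)) (xR (xR T5.l4 T5.l4) (xR T5.l4 (xR T5.l4 T5.l4)))
  (TrL.c (I.pos (nat_lit 0) (nat_lit 77433728)) (xR (xR T0.l9 T0.l9) (xR T0.l9 (xR T0.l9 T0.l9)))
  (TrL.c (I.pos (nat_lit 0) (nat_lit 0)) (xk (xb T0.l13 T0.l10) (xb T0.l13 T0.l13))
  (TrL.c (I.pos (nat_lit 0) (nat_lit 0)) T5.l10
  (TrL.c (I.mix (nat_lit 29511666) (nat_lit 77433728)) (xR T0.l11 (xR T0.l11 (xR T0.l11 T0.l11)))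
  (TrL.c (I.mix (nat_lit 29511666) (nat_lit 46070178)) (xR (xR T5.l11 T5.l11) T5.l2)
  TrL.n)))))))) (by decide +kernel)
theorem bx3_4 : BoxOK sI cl7 cl13 cl4 t5 t0 b3_4 :=
  box_mk (TrL.c (I.pos (nat_lit 0) (nat_lit 0)) (xa (xa (xb (xa (xb T5.l12 (xa T5.l12 T5.l12)) (xb T5.l12 T5.l12)) (xa (xb (xa T5.l12 T5.l12) (xa (xb T5.l12 T5.l12) T5.l12)) (xb T5.l12 (xa T5.l12 T5.l12)))) (xb (xa T5.l12 T5.l12) (xa T5.l12 T5.l12))) (xa (xb (xa T5.l12 T5.l12) (xa (xb T5.l12 (xa T5.l12 T5.l12)) (xb T5.l12 (xa T5.l12 T5.l12)))) (xb T5.l12 (xa (xb T5.l12 (xa T5.l12 T5.l12)) (xa T5.l12 T5.l12)))))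
  (TrL.c (I.pos (nat_lit 0) (nat_lit 0)) (xa (xa (xb T0.l8 T0.l8) T0.l8) (xa T0.l8 T0.l8))
  (TrL.c (I.pos (nat_lit 0) (nat_lit 111196574)) (xR T5.l4 (xa (xR T5.l9 T5.l9) T5.l9))
  (TrL.c (I.pos (nat_lit 0) (nat_lit 77433728)) (xR T0.l9 (xR T0.l9 T0.l9))
  (TrL.c (I.pos (nat_lit 0) (nat_lit 0)) (xa (xa T0.l12 T0.l12) (xa T0.l12 T0.l12))
  (TrL.c (I.pos (nat_lit 0) (nat_lit 0)) T5.l10
  (TrL.c (I.mix (nat_lit 29511666) (nat_lit 77433728)) (xR T0.l11 (xR T0.l11 (xa T0.l11 T0.l11)))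
  (TrL.c (I.mix (nat_lit 29511666) (nat_lit 46070178)) T5.l11
  TrL.n)))))))) (by decide +kernel)
theorem bx3_5 : BoxOK sI cl7 cl13 cl4 t5 t0 b3_5 :=
  box_mk (TrL.c (I.pos (nat_lit 0) (nat_lit 0)) (xb (xa (xb (xa T5.l13 (xb T5.l13 T5.l13)) T5.l13) (xb (xa (xb T5.l13 T5.l13) (xb T5.l13 T5.l13)) (xa T5.l13 T5.l13))) (xa (xb (xa T5.l13 T5.l13) (xa T5.l13 T5.l13)) (xb T5.l13 (xa T5.l13 T5.l13))))
  (TrL.c (I.pos (nat_lit 0) (nat_lit 0)) (xb (xk T0.l8 T0.l8) (xk T0.l8 T0.l8))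
  (TrL.c (I.pos (nat_lit 0) (nat_lit 111196574)) (xR (xR T5.l4 T5.l4) (xR T5.l4 (xR T5.l4 T5.l4)))
  (TrL.c (I.pos (nat_lit 0) (nat_lit 77433728)) (xR (xR T0.l9 T0.l9) (xR T0.l9 (xR T0.l9 T0.l9)))
  (TrL.c (I.pos (nat_lit 0) (nat_lit 0)) (xk (xb (xa T0.l13 T0.l13) T0.l13) (xb (xa T0.l13 T0.l13) T0.l13))
  (TrL.c (I.pos (nat_lit 0) (nat_lit 0)) T5.l10
  (TrL.c (I.mix (nat_lit 29511666) (nat_lit 77433728)) (xR T0.l11 (xR T0.l11 (xR T0.l11 T0.l11)))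
  (TrL.c (I.mix (nat_lit 29511666) (nat_lit 46070178)) (xR (xR T5.l11 T5.l11) T5.l2)
  TrL.n)))))))) (by decide +kernel)
theorem bx3_6 : BoxOK sI cl7 cl13 cl4 t5 t0 b3_6 :=
  box_mk (TrL.c (I.pos (nat_lit 0) (nat_lit 0)) (xa T5.l12 (xa T5.l12 T5.l12))
  (TrL.c (I.pos (nat_lit 0) (nat_lit 0)) (xa T0.l8 T0.l8)
  (TrL.c (I.pos (nat_lit 0) (nat_lit 111196574)) (xR T5.l4 (xR T5.l9 T5.l9))
  (TrL.c (I.pos (nat_lit 0) (nat_lit 77433728)) (xR T0.l9 (xR T0.l9 T0.l9))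
  (TrL.c (I.pos (nat_lit 0) (nat_lit 0)) (xa (xa T0.l12 T0.l12) T0.l12)
  (TrL.c (I.pos (nat_lit 0) (nat_lit 0)) T5.l10
  (TrL.c (I.mix (nat_lit 29511666) (nat_lit 77433728)) (xR T0.l11 (xR T0.l11 (xa T0.l11 T0.l11)))
  (TrL.c (I.mix (nat_lit 29511666) (nat_lit 46070178)) T5.l11
  TrL.n)))))))) (by decide +kernel)
theorem bx3_7 : BoxOK sI cl7 cl13 cl4 t5 t0 b3_7 :=
  box_mk (TrL.c (I.pos (nat_lit 0) (nat_lit 0)) (xa (xb T5.l12 T5.l12) T5.l0)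
  (TrL.c (I.pos (nat_lit 0) (nat_lit 0)) T0.l8
  (TrL.c (I.pos (nat_lit 0) (nat_lit 111196574)) (xR (xR T5.l4 T5.l9) T5.l9)
  (TrL.c (I.pos (nat_lit 0) (nat_lit 77433728)) (xR (xR T0.l9 T0.l9) T0.l9)
  (TrL.c (I.pos (nat_lit 0) (nat_lit 0)) (xk T0.l12 T0.l12)
  (TrL.c (I.pos (nat_lit 0) (nat_lit 0)) T5.l10
  (TrL.c (I.mix (nat_lit 29511666) (nat_lit 77433728)) (xR T0.l11 T0.l1)
  (TrL.c (I.mix (nat_lit 29511666) (nat_lit 46070178)) (xR T5.l11 T5.l11)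
  TrL.n)))))))) (by decide +kernel)
theorem bx3_8 : BoxOK sI cl7 cl13 cl4 t5 t0 b3_8 :=
  box_mk (TrL.c (I.pos (nat_lit 0) (nat_lit 0)) T5.l0
  (TrL.c (I.pos (nat_lit 0) (nat_lit 0)) T0.l8
  (TrL.c (I.pos (nat_lit 0) (nat_lit 111196574)) (xR (xR T5.l4 T5.l9) T5.l9)
  (TrL.c (I.pos (nat_lit 0) (nat_lit 77433728)) (xR (xR T0.l9 T0.l9) T0.l9)
  (TrL.c (I.pos (nat_lit 0) (nat_lit 0)) (xk T0.l13 T0.l13)
  (TrL.c (I.pos (nat_lit 0) (nat_lit 0)) T5.l10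
  (TrL.c (I.mix (nat_lit 29511666) (nat_lit 77433728)) (xR T0.l11 T0.l1)
  (TrL.c (I.mix (nat_lit 29511666) (nat_lit 46070178)) (xR T5.l11 T5.l11)
  TrL.n)))))))) (by decide +kernel)
theorem bx3_9 : BoxOK sI cl7 cl13 cl4 t5 t0 b3_9 :=
  box_mk (TrL.c (I.pos (nat_lit 0) (nat_lit 0)) (xa (xa T5.l12 T5.l12) (xa T5.l12 T5.l12))
  (TrL.c (I.pos (nat_lit 0) (nat_lit 0)) (xa T0.l8 T0.l8)
  (TrL.c (I.pos (nat_lit 0) (nat_lit 111196574)) (xR T5.l4 T5.l9)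
  (TrL.c (I.pos (nat_lit 0) (nat_lit 77433728)) (xR T0.l9 T0.l9)
  (TrL.c (I.pos (nat_lit 0) (nat_lit 0)) T0.l12
  (TrL.c (I.pos (nat_lit 0) (nat_lit 0)) T5.l10
  (TrL.c (I.mix (nat_lit 29511666) (nat_lit 77433728)) (xR T0.l11 T0.l11)
  (TrL.c (I.mix (nat_lit 29511666) (nat_lit 46070178)) T5.l11
  TrL.n)))))))) (by decide +kernel)
theorem bx3_10 : BoxOK sI cl7 cl13 cl4 t5 t0 b3_10 :=
  box_mk (TrL.c (I.pos (nat_lit 0) (nat_lit 0)) (xb (xa (xb T5.l12 T5.l12) (xb T5.l12 T5.l12)) (xa (xb T5.l12 T5.l12) T5.l12))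
  (TrL.c (I.pos (nat_lit 0) (nat_lit 0)) (xb T0.l8 T0.l8)
  (TrL.c (I.pos (nat_lit 0) (nat_lit 111196574)) (xR (xR T5.l4 T5.l9) (xR T5.l9 (xR T5.l9 T5.l9)))
  (TrL.c (I.pos (nat_lit 0) (nat_lit 77433728)) (xR (xR T0.l9 T0.l9) T0.l9)
  (TrL.c (I.pos (nat_lit 0) (nat_lit 0)) (xb (xk (xa T0.l12 T0.l12) (xa T0.l12 T0.l12)) (xk T0.l12 T0.l12))
  (TrL.c (I.pos (nat_lit 0) (nat_lit 0)) T5.l10
  (TrL.c (I.mix (nat_lit 29511666) (nat_lit 77433728)) (xR T0.l11 (xR T0.l11 T0.l11))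
  (TrL.c (I.mix (nat_lit 29511666) (nat_lit 46070178)) (xR T5.l11 T5.l2)
  TrL.n)))))))) (by decide +kernel)
theorem bx3_11 : BoxOK sI cl7 cl13 cl4 t5 t0 b3_11 :=
  box_mk (TrL.c (I.pos (nat_lit 0) (nat_lit 0)) (xa (xa (xb (xa T5.l12 T5.l12) T5.l12) T5.l12) (xa T5.l12 T5.l12))
  (TrL.c (I.pos (nat_lit 0) (nat_lit 0)) (xa (xa T0.l8 T0.l8) T0.l8)
  (TrL.c (I.pos (nat_lit 0) (nat_lit 111196574)) (xR T5.l4 (xR T5.l4 (xa T5.l9 T5.l9)))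
  (TrL.c (I.pos (nat_lit 0) (nat_lit 77433728)) (xR T0.l11 (xR T0.l9 T0.l9))
  (TrL.c (I.pos (nat_lit 0) (nat_lit 0)) (xa (xa T0.l8 T0.l12) (xa T0.l12 T0.l12))
  (TrL.c (I.pos (nat_lit 0) (nat_lit 0)) T5.l10
  (TrL.c (I.mix (nat_lit 29511666) (nat_lit 77433728)) (xR T0.l11 (xR T0.l11 (xa T0.l11 T0.l11)))
  (TrL.c (I.mix (nat_lit 29511666) (nat_lit 46070178)) T5.l4
  TrL.n)))))))) (by decide +kernel)
theorem bx3_12 : BoxOK sI cl7 cl13 cl4 t5 t0 b3_12 :=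
  box_mk (TrL.c (I.pos (nat_lit 0) (nat_lit 0)) (xa (xb (xa (xb T5.l0 T5.l0) (xb T5.l0 T5.l0)) (xa (xb T5.l0 (xa T5.l0 T5.l0)) (xa (xb T5.l0 T5.l0) (xb T5.l0 T5.l0)))) (xa (xb (xb T5.l0 T5.l0) (xa (xb T5.l0 T5.l0) (xb T5.l0 T5.l0))) (xb (xa (xb T5.l0 T5.l0) (xb (xc T5.l0 T5.l0) (xc T5.l0 T5.l0))) (xa (xb T5.l0 T5.l0) (xb (xc T5.l0 (xk T5.l0 T5.l0)) (xc T5.l0 (xk T5.l0 T5.l0)))))))
  (TrL.c (I.pos (nat_lit 0) (nat_lit 0)) (xa (xb (xk T0.l8 T0.l8) (xk T0.l8 T0.l8)) (xk (xb T0.l8 (xa T0.l8 T0.l8)) (xb T0.l8 T0.l2)))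
  (TrL.c (I.pos (nat_lit 0) (nat_lit 111196574)) (xR (xR T5.l4 (xR T5.l9 T5.l9)) (xR T5.l4 (xR T5.l4 T5.l4)))
  (TrL.c (I.pos (nat_lit 0) (nat_lit 77433728)) (xR (xR T0.l9 (xR T0.l9 T0.l9)) (xR T0.l9 (xR T0.l9 T0.l9)))
  (TrL.c (I.pos (nat_lit 0) (nat_lit 0)) (xa (xb (xk (xa T0.l13 (xb T0.l10 T0.l10)) (xa T0.l13 (xb T0.l10 T0.l10))) (xk T0.l10 T0.l10)) (xb (xk (xa (xb T0.l10 T0.l10) (xk (xb T0.l10 T0.l10) (xb T0.l10 T0.l10))) (xa (xb T0.l10 T0.l10) (xk (xb T0.l10 T0.l10) (xb T0.l10 T0.l10)))) (xk (xa T0.l10 (xb (xk T0.l10 T0.l10) (xk T0.l10 T0.l10))) (xa T0.l10 (xb (xk T0.l10 T0.l10) (xk T0.l10 T0.l10))))))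
  (TrL.c (I.pos (nat_lit 0) (nat_lit 0)) (xk (xa T5.l10 (xb T5.l1 T5.l10)) (xa T5.l10 (xb T5.l10 T5.l10)))
  (TrL.c (I.mix (nat_lit 29511666) (nat_lit 77433728)) (xR T0.l11 (xR T0.l11 (xR T0.l11 (xk (xa T0.l11 T0.l11) T0.l11))))
  (TrL.c (I.mix (nat_lit 29511666) (nat_lit 46070178)) (xR (xR T5.l11 T5.l11) (xR T5.l2 T5.l2))
  TrL.n)))))))) (by decide +kernel)
theorem bx3_13 : BoxOK sI cl7 cl13 cl4 t5 t0 b3_13 :=
  box_mk (TrL.c (I.pos (nat_lit 0) (nat_lit 0)) (xa (xb (xa T5.l0 T5.l0) (xa (xb T5.l0 T5.l0) (xb T5.l0 T5.l0))) (xb (xa T5.l0 T5.l0) (xa (xb T5.l0 T5.l0) (xb T5.l0 T5.l0))))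
  (TrL.c (I.pos (nat_lit 0) (nat_lit 0)) (xk (xa T0.l8 T0.l8) T0.l8)
  (TrL.c (I.pos (nat_lit 0) (nat_lit 111196574)) (xR (xR T5.l4 T5.l9) (xR T5.l4 (xR T5.l4 T5.l4)))
  (TrL.c (I.pos (nat_lit 0) (nat_lit 77433728)) (xR (xR T0.l9 T0.l9) (xR T0.l9 (xR T0.l9 T0.l9)))
  (TrL.c (I.pos (nat_lit 0) (nat_lit 0)) (xk (xa T0.l10 T0.l10) (xa T0.l10 T0.l10))
  (TrL.c (I.pos (nat_lit 0) (nat_lit 0)) T5.l10
  (TrL.c (I.mix (nat_lit 29511666) (nat_lit 77433728)) (xR T0.l11 (xR T0.l11 (xR T0.l11 T0.l11)))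
  (TrL.c (I.mix (nat_lit 29511666) (nat_lit 46070178)) (xR (xR T5.l11 T5.l11) T5.l2)
  TrL.n)))))))) (by decide +kernel)
theorem sv3 : StarV sI cl7 cl13 cl4 t5 t0 t3 :=
  (bt_n (bt_n (bt_n (bt_b bx3_0) (bt_n (bt_b bx3_1) (bt_b bx3_2))) (bt_n (bt_n (bt_b bx3_3) (bt_b bx3_4)) (bt_n (bt_b bx3_5) (bt_b bx3_6)))) (bt_n (bt_n (bt_b bx3_7) (bt_n (bt_b bx3_8) (bt_b bx3_9))) (bt_n (bt_n (bt_b bx3_10) (bt_b bx3_11)) (bt_n (bt_b bx3_12) (bt_b bx3_13)))))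
def S3 : StarD := StarD.mk cl7 cl13 cl4 5 0 t3
theorem bx4_0 : BoxOK sI cl13 cl4 cl7 t1 t3 b4_0 :=
  box_mk (TrL.c (I.pos (nat_lit 0) (nat_lit 0)) (xa (xb (xb T1.l0 T1.l0) (xa (xb T1.l0 T1.l0) (xb T1.l0 T1.l0))) (xb T1.l0 (xa (xb T1.l0 T1.l0) (xb T1.l0 T1.l0))))
  (TrL.c (I.pos (nat_lit 0) (nat_lit 0)) (xa T3.l1 (xb T3.l1 T3.l1))
  (TrL.c (I.pos (nat_lit 0) (nat_lit 134217730)) (xR T1.l1 (xR T1.l1 (xR T1.l1 T1.l1)))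
  (TrL.c (I.pos (nat_lit 0) (nat_lit 110514882)) (xR T3.l2 (xR T3.l2 T3.l2))
  (TrL.c (I.pos (nat_lit 0) (nat_lit 0)) (xb (xa (xk T3.l5 T3.l5) (xk (xb T3.l3 T3.l3) (xb T3.l3 T3.l3))) (xa (xk T3.l3 T3.l3) (xk (xb T3.l3 T3.l3) (xb T3.l3 T3.l3))))
  (TrL.c (I.pos (nat_lit 0) (nat_lit 0)) T1.l2
  (TrL.c (I.mix (nat_lit 8088324) (nat_lit 110514882)) (xR T3.l4 (xR T3.l4 (xR T3.l4 T3.l4)))
  (TrL.c (I.mix (nat_lit 8088324) (nat_lit 89478486)) (xR T1.l3 (xR T1.l3 T1.l3))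
  TrL.n)))))))) (by decide +kernel)
theorem bx4_1 : BoxOK sI cl13 cl4 cl7 t1 t3 b4_1 :=
  box_mk (TrL.c (I.pos (nat_lit 0) (nat_lit 0)) (xa (xb (xa (xb T1.l4 T1.l4) T1.l4) (xa T1.l4 T1.l4)) (xb T1.l4 T1.l4))
  (TrL.c (I.pos (nat_lit 0) (nat_lit 0)) (xa T3.l1 T3.l1)
  (TrL.c (I.pos (nat_lit 0) (nat_lit 134217730)) (xR T1.l1 (xR T1.l1 (xR T1.l1 T1.l1)))
  (TrL.c (I.pos (nat_lit 0) (nat_lit 110514882)) (xR T3.l4 (xR T3.l4 (xR T3.l2 T3.l2)))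
  (TrL.c (I.pos (nat_lit 0) (nat_lit 0)) (xa (xb T3.l5 T3.l5) (xb T3.l5 T3.l5))
  (TrL.c (I.pos (nat_lit 0) (nat_lit 0)) T1.l2
  (TrL.c (I.mix (nat_lit 8088324) (nat_lit 110514882)) (xR T3.l4 (xR T3.l4 (xR T3.l4 T3.l4)))
  (TrL.c (I.mix (nat_lit 8088324) (nat_lit 89478486)) T1.l11
  TrL.n)))))))) (by decide +kernel)
theorem bx4_2 : BoxOK sI cl13 cl4 cl7 t1 t3 b4_2 :=
  box_mk (TrL.c (I.pos (nat_lit 0) (nat_lit 0)) (xb (xa (xb T1.l4 T1.l4) (xb T1.l4 T1.l4)) (xa (xb (xa T1.l4 T1.l4) (xa (xb T1.l4 T1.l4) (xb T1.l4 T1.l4))) (xb (xa T1.l4 T1.l4) (xa T1.l4 T1.l4))))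
  (TrL.c (I.pos (nat_lit 0) (nat_lit 0)) (xb T3.l1 (xa T3.l1 T3.l1))
  (TrL.c (I.pos (nat_lit 0) (nat_lit 134217730)) (xR T1.l1 (xR T1.l1 (xR T1.l1 T1.l1)))
  (TrL.c (I.pos (nat_lit 0) (nat_lit 110514882)) (xR T3.l2 (xR T3.l2 (xR T3.l2 T3.l2)))
  (TrL.c (I.pos (nat_lit 0) (nat_lit 0)) (xb (xa T3.l5 (xk (xb T3.l5 T3.l5) (xb T3.l5 T3.l5))) (xa (xk (xb T3.l5 T3.l3) (xb T3.l5 (xb T3.l5 T3.l3))) (xk (xb T3.l5 (xb T3.l3 T3.l3)) (xb (xb T3.l3 T3.l3) (xb T3.l3 T3.l3)))))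
  (TrL.c (I.pos (nat_lit 0) (nat_lit 0)) T1.l2
  (TrL.c (I.mix (nat_lit 8088324) (nat_lit 110514882)) (xR T3.l4 (xR T3.l4 (xR T3.l4 T3.l4)))
  (TrL.c (I.mix (nat_lit 8088324) (nat_lit 89478486)) (xR T1.l3 (xR T1.l3 T1.l3))
  TrL.n)))))))) (by decide +kernel)
theorem bx4_3 : BoxOK sI cl13 cl4 cl7 t1 t3 b4_3 :=
  box_mk (TrL.c (I.pos (nat_lit 0) (nat_lit 0)) (xa T3.l1 T3.l7)
  (TrL.c (I.pos (nat_lit 0) (nat_lit 0)) T1.l1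
  (TrL.c (I.mix (nat_lit 8088324) (nat_lit 110514882)) (xR T3.l11 (xR T3.l4 (xR T3.l6 T3.l6)))
  (TrL.c (I.mix (nat_lit 8088324) (nat_lit 89478486)) (xR T1.l11 T1.l1)
  TrL.n)))) (by decide +kernel)
theorem bx4_4 : BoxOK sI cl13 cl4 cl7 t1 t3 b4_4 :=
  box_mk (TrL.c (I.pos (nat_lit 0) (nat_lit 0)) T3.l7
  (TrL.c (I.pos (nat_lit 0) (nat_lit 0)) T1.l6
  (TrL.c (I.mix (nat_lit 8088324) (nat_lit 110514882)) (xR T3.l4 T3.l4)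
  (TrL.c (I.mix (nat_lit 8088324) (nat_lit 89478486)) (xR T1.l3 T1.l1)
  TrL.n)))) (by decide +kernel)
theorem bx4_5 : BoxOK sI cl13 cl4 cl7 t1 t3 b4_5 :=
  box_mk (TrL.c (I.pos (nat_lit 0) (nat_lit 0)) (xb T1.l7 T1.l4)
  (TrL.c (I.pos (nat_lit 0) (nat_lit 0)) T3.l1
  (TrL.c (I.pos (nat_lit 0) (nat_lit 134217730)) (xR T1.l1 T1.l1)
  (TrL.c (I.pos (nat_lit 0) (nat_lit 110514882)) T3.l4
  (TrL.c (I.pos (nat_lit 0) (nat_lit 0)) T3.l5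
  (TrL.c (I.pos (nat_lit 0) (nat_lit 0)) T1.l2
  (TrL.c (I.mix (nat_lit 8088324) (nat_lit 110514882)) T3.l4
  (TrL.c (I.mix (nat_lit 8088324) (nat_lit 89478486)) T1.l3
  TrL.n)))))))) (by decide +kernel)
theorem bx4_6 : BoxOK sI cl13 cl4 cl7 t1 t3 b4_6 :=
  box_mk (TrL.c (I.pos (nat_lit 0) (nat_lit 0)) (xa (xb T1.l0 (xa T1.l0 T1.l0)) (xb T1.l0 (xa T1.l0 T1.l0)))
  (TrL.c (I.pos (nat_lit 0) (nat_lit 0)) (xa T3.l1 (xk T3.l1 T3.l10))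
  (TrL.c (I.pos (nat_lit 0) (nat_lit 134217730)) (xR T1.l11 T1.l11)
  (TrL.c (I.pos (nat_lit 0) (nat_lit 110514882)) (xR T3.l4 (xR T3.l2 (xR T3.l2 T3.l2)))
  (TrL.c (I.pos (nat_lit 0) (nat_lit 0)) (xa (xb (xk (xa (xb T3.l3 T3.l3) (xb T3.l3 T3.l3)) (xa T3.l3 (xb T3.l3 T3.l3))) (xk T3.l3 T3.l3)) (xb (xk (xa (xb (xk T3.l3 T3.l3) T3.l3) (xb (xk (xa T3.l3 T3.l3) T3.l3) (xk T3.l3 T3.l3))) (xa (xb (xk T3.l3 T3.l3) T3.l3) (xb (xk T3.l3 (xa T3.l3 T3.l3)) (xk T3.l3 T3.l3)))) (xk (xa (xb T3.l3 T3.l3) (xb (xk T3.l3 T3.l3) (xk T3.l3 T3.l3))) (xa (xb T3.l3 T3.l3) (xb (xk T3.l3 T3.l3) (xk T3.l3 T3.l3))))))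
  (TrL.c (I.pos (nat_lit 0) (nat_lit 0)) (xk T1.l2 T1.l2)
  (TrL.c (I.mix (nat_lit 8088324) (nat_lit 110514882)) (xR T3.l4 (xR T3.l4 (xR T3.l4 (xk T3.l4 T3.l4))))
  (TrL.c (I.mix (nat_lit 8088324) (nat_lit 89478486)) (xR T1.l3 (xR T1.l3 T1.l3))
  TrL.n)))))))) (by decide +kernel)
theorem bx4_7 : BoxOK sI cl13 cl4 cl7 t1 t3 b4_7 :=
  box_mk (TrL.c (I.pos (nat_lit 0) (nat_lit 0)) (xb (xa (xb T1.l7 T1.l7) T1.l7) (xa T1.l7 T1.l7))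
  (TrL.c (I.pos (nat_lit 0) (nat_lit 0)) T3.l7
  (TrL.c (I.pos (nat_lit 0) (nat_lit 134217730)) (xR T1.l1 (xR T1.l1 T1.l11))
  (TrL.c (I.pos (nat_lit 0) (nat_lit 110514882)) T3.l4
  (TrL.c (I.pos (nat_lit 0) (nat_lit 0)) T3.l8
  (TrL.c (I.pos (nat_lit 0) (nat_lit 0)) T1.l2
  (TrL.c (I.mix (nat_lit 8088324) (nat_lit 110514882)) T3.l4
  (TrL.c (I.mix (nat_lit 8088324) (nat_lit 89478486)) T1.l3
  TrL.n)))))))) (by decide +kernel)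
theorem bx4_8 : BoxOK sI cl13 cl4 cl7 t1 t3 b4_8 :=
  box_mk (TrL.c (I.pos (nat_lit 0) (nat_lit 0)) (xa (xb T1.l0 T1.l0) (xb T1.l0 T1.l0))
  (TrL.c (I.pos (nat_lit 0) (nat_lit 0)) T3.l1
  (TrL.c (I.pos (nat_lit 0) (nat_lit 134217730)) (xR T1.l1 T1.l1)
  (TrL.c (I.pos (nat_lit 0) (nat_lit 110514882)) (xR T3.l2 T3.l2)
  (TrL.c (I.pos (nat_lit 0) (nat_lit 0)) (xk (xb T3.l3 T3.l3) (xb T3.l3 T3.l3))
  (TrL.c (I.pos (nat_lit 0) (nat_lit 0)) T1.l2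
  (TrL.c (I.mix (nat_lit 8088324) (nat_lit 110514882)) (xR T3.l4 T3.l4)
  (TrL.c (I.mix (nat_lit 8088324) (nat_lit 89478486)) T1.l3
  TrL.n)))))))) (by decide +kernel)
theorem bx4_9 : BoxOK sI cl13 cl4 cl7 t1 t3 b4_9 :=
  box_mk (TrL.c (I.pos (nat_lit 0) (nat_lit 0)) T1.l4
  (TrL.c (I.pos (nat_lit 0) (nat_lit 0)) T3.l1
  (TrL.c (I.pos (nat_lit 0) (nat_lit 134217730)) T1.l11
  (TrL.c (I.pos (nat_lit 0) (nat_lit 110514882)) T3.l4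
  (TrL.c (I.pos (nat_lit 0) (nat_lit 0)) T3.l5
  (TrL.c (I.pos (nat_lit 0) (nat_lit 0)) T1.l2
  (TrL.c (I.mix (nat_lit 8088324) (nat_lit 110514882)) T3.l4
  (TrL.c (I.mix (nat_lit 8088324) (nat_lit 89478486)) T1.l3
  TrL.n)))))))) (by decide +kernel)
theorem sv4 : StarV sI cl13 cl4 cl7 t1 t3 t4 :=
  (bt_n (bt_n (bt_n (bt_b bx4_0) (bt_b bx4_1)) (bt_n (bt_b bx4_2) (bt_n (bt_b bx4_3) (bt_b bx4_4)))) (bt_n (bt_n (bt_b bx4_5) (bt_b bx4_6)) (bt_n (bt_b bx4_7) (bt_n (bt_b bx4_8) (bt_b bx4_9)))))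
def S4 : StarD := StarD.mk cl13 cl4 cl7 1 3 t4
theorem bx5_0 : BoxOK sI cl13 cl7 cl4 t3 t1 b5_0 :=
  box_mk (TrL.c (I.pos (nat_lit 0) (nat_lit 0)) (xa (xb (xa (xc T3.l0 T3.l0) T3.l0) (xa (xb (xc T3.l0 T3.l0) (xc T3.l0 (xa T3.l0 T3.l0))) (xb T3.l0 (xc T3.l0 (xa T3.l0 T3.l0))))) (xb (xa T3.l0 (xb T3.l0 T3.l0)) (xa (xb T3.l0 (xc T3.l0 T3.l0)) (xb T3.l0 (xc T3.l0 T3.l0)))))
  (TrL.c (I.pos (nat_lit 0) (nat_lit 0)) (xa (xk T1.l8 T1.l8) (xk T1.l8 T1.l8))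
  (TrL.c (I.pos (nat_lit 0) (nat_lit 134217730)) (xR T3.l4 (xR T3.l4 (xR T3.l4 T3.l4)))
  (TrL.c (I.pos (nat_lit 0) (nat_lit 110514882)) (xR T1.l3 (xR T1.l9 (xR T1.l9 T1.l9)))
  (TrL.c (I.pos (nat_lit 0) (nat_lit 0)) (xa (xk T1.l10 T1.l13) (xk (xb T1.l10 T1.l10) (xb T1.l10 (xb T1.l10 (xa T1.l10 T1.l10)))))
  (TrL.c (I.pos (nat_lit 0) (nat_lit 0)) T3.l10
  (TrL.c (I.mix (nat_lit 8088324) (nat_lit 110514882)) (xR T1.l11 (xR T1.l11 (xR T1.l11 T1.l11)))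
  (TrL.c (I.mix (nat_lit 8088324) (nat_lit 89478486)) (xR T3.l11 T3.l11)
  TrL.n)))))))) (by decide +kernel)
theorem bx5_1 : BoxOK sI cl13 cl7 cl4 t3 t1 b5_1 :=
  box_mk (TrL.c (I.pos (nat_lit 0) (nat_lit 0)) (xa (xb (xa T3.l12 T3.l12) (xa T3.l12 T3.l12)) (xb (xa T3.l12 T3.l0) (xa T3.l12 T3.l0)))
  (TrL.c (I.pos (nat_lit 0) (nat_lit 0)) (xa T1.l8 T1.l8)
  (TrL.c (I.pos (nat_lit 0) (nat_lit 134217730)) (xR T3.l4 (xR T3.l4 (xR T3.l9 T3.l4)))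
  (TrL.c (I.pos (nat_lit 0) (nat_lit 110514882)) (xR T1.l3 (xR T1.l9 T1.l9))
  (TrL.c (I.pos (nat_lit 0) (nat_lit 0)) (xa (xb (xk T1.l12 T1.l12) T1.l12) (xk (xb T1.l12 T1.l12) (xb T1.l12 T1.l12)))
  (TrL.c (I.pos (nat_lit 0) (nat_lit 0)) T3.l10
  (TrL.c (I.mix (nat_lit 8088324) (nat_lit 110514882)) (xR T1.l11 (xR T1.l11 T1.l11))
  (TrL.c (I.mix (nat_lit 8088324) (nat_lit 89478486)) T3.l4
  TrL.n)))))))) (by decide +kernel)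
theorem bx5_2 : BoxOK sI cl13 cl7 cl4 t3 t1 b5_2 :=
  box_mk (TrL.c (I.pos (nat_lit 0) (nat_lit 0)) (xa T3.l12 T3.l12)
  (TrL.c (I.pos (nat_lit 0) (nat_lit 0)) (xa T1.l8 T1.l8)
  (TrL.c (I.pos (nat_lit 0) (nat_lit 134217730)) (xR T3.l4 (xR T3.l4 T3.l9))
  (TrL.c (I.pos (nat_lit 0) (nat_lit 110514882)) T1.l11
  (TrL.c (I.pos (nat_lit 0) (nat_lit 0)) (xa T1.l12 T1.l12)
  (TrL.c (I.pos (nat_lit 0) (nat_lit 0)) T3.l10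
  (TrL.c (I.mix (nat_lit 8088324) (nat_lit 110514882)) (xR T1.l11 T1.l11)
  (TrL.c (I.mix (nat_lit 8088324) (nat_lit 89478486)) T3.l4
  TrL.n)))))))) (by decide +kernel)
theorem bx5_3 : BoxOK sI cl13 cl7 cl4 t3 t1 b5_3 :=
  box_mk (TrL.c (I.pos (nat_lit 0) (nat_lit 0)) (xb (xa (xb T3.l13 T3.l13) (xb T3.l13 T3.l13)) (xa (xb (xa T3.l13 T3.l13) (xa T3.l13 T3.l13)) (xb (xa T3.l13 T3.l13) (xa T3.l13 T3.l13))))
  (TrL.c (I.pos (nat_lit 0) (nat_lit 0)) (xk T1.l8 T1.l8)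
  (TrL.c (I.pos (nat_lit 0) (nat_lit 134217730)) (xR T3.l4 (xR T3.l4 (xR T3.l4 T3.l4)))
  (TrL.c (I.pos (nat_lit 0) (nat_lit 110514882)) (xR T1.l3 (xR T1.l9 (xR T1.l9 T1.l9)))
  (TrL.c (I.pos (nat_lit 0) (nat_lit 0)) (xk (xb T1.l13 T1.l10) (xb T1.l13 T1.l13))
  (TrL.c (I.pos (nat_lit 0) (nat_lit 0)) T3.l10
  (TrL.c (I.mix (nat_lit 8088324) (nat_lit 110514882)) (xR T1.l11 (xR T1.l11 (xR T1.l11 T1.l11)))
  (TrL.c (I.mix (nat_lit 8088324) (nat_lit 89478486)) (xR T3.l11 (xR T3.l11 T3.l11))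
  TrL.n)))))))) (by decide +kernel)
theorem bx5_4 : BoxOK sI cl13 cl7 cl4 t3 t1 b5_4 :=
  box_mk (TrL.c (I.pos (nat_lit 0) (nat_lit 0)) (xa (xa (xb (xa (xb T3.l12 T3.l12) T3.l12) (xa (xb T3.l12 (xa T3.l12 T3.l12)) (xb T3.l12 T3.l12))) (xb T3.l12 (xa T3.l12 T3.l12))) (xa (xb T3.l12 (xa T3.l12 T3.l12)) (xb T3.l12 (xa T3.l12 (xb T3.l12 T3.l12)))))
  (TrL.c (I.pos (nat_lit 0) (nat_lit 0)) (xa (xa T1.l12 T1.l8) (xa T1.l8 T1.l8))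
  (TrL.c (I.pos (nat_lit 0) (nat_lit 134217730)) (xR T3.l4 (xR T3.l4 (xa (xR T3.l9 T3.l9) T3.l9)))
  (TrL.c (I.pos (nat_lit 0) (nat_lit 110514882)) (xR T1.l3 (xR T1.l9 (xR T1.l9 T1.l9)))
  (TrL.c (I.pos (nat_lit 0) (nat_lit 0)) (xa (xa T1.l8 T1.l12) (xa T1.l12 T1.l12))
  (TrL.c (I.pos (nat_lit 0) (nat_lit 0)) T3.l10
  (TrL.c (I.mix (nat_lit 8088324) (nat_lit 110514882)) (xR T1.l11 T1.l11)
  (TrL.c (I.mix (nat_lit 8088324) (nat_lit 89478486)) T3.l4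
  TrL.n)))))))) (by decide +kernel)
theorem bx5_5 : BoxOK sI cl13 cl7 cl4 t3 t1 b5_5 :=
  box_mk (TrL.c (I.pos (nat_lit 0) (nat_lit 0)) (xa T3.l12 T3.l0)
  (TrL.c (I.pos (nat_lit 0) (nat_lit 0)) T1.l8
  (TrL.c (I.pos (nat_lit 0) (nat_lit 134217730)) (xR T3.l4 (xR T3.l4 T3.l4))
  (TrL.c (I.pos (nat_lit 0) (nat_lit 110514882)) (xR T1.l3 (xR T1.l9 T1.l9))
  (TrL.c (I.pos (nat_lit 0) (nat_lit 0)) (xk T1.l12 T1.l12)
  (TrL.c (I.pos (nat_lit 0) (nat_lit 0)) T3.l10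
  (TrL.c (I.mix (nat_lit 8088324) (nat_lit 110514882)) (xR T1.l11 T1.l11)
  (TrL.c (I.mix (nat_lit 8088324) (nat_lit 89478486)) T3.l4
  TrL.n)))))))) (by decide +kernel)
theorem bx5_6 : BoxOK sI cl13 cl7 cl4 t3 t1 b5_6 :=
  box_mk (TrL.c (I.pos (nat_lit 0) (nat_lit 0)) (xa (xa T3.l12 T3.l12) T3.l12)
  (TrL.c (I.pos (nat_lit 0) (nat_lit 0)) (xa T1.l12 T1.l8)
  (TrL.c (I.pos (nat_lit 0) (nat_lit 134217730)) (xR T3.l4 (xR T3.l4 T3.l9))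
  (TrL.c (I.pos (nat_lit 0) (nat_lit 110514882)) (xR T1.l1 (xR T1.l9 (xR T1.l9 T1.l9)))
  (TrL.c (I.pos (nat_lit 0) (nat_lit 0)) (xa T1.l8 T1.l12)
  (TrL.c (I.pos (nat_lit 0) (nat_lit 0)) T3.l10
  (TrL.c (I.mix (nat_lit 8088324) (nat_lit 110514882)) (xR T1.l11 T1.l11)
  (TrL.c (I.mix (nat_lit 8088324) (nat_lit 89478486)) T3.l4
  TrL.n)))))))) (by decide +kernel)
theorem bx5_7 : BoxOK sI cl13 cl7 cl4 t3 t1 b5_7 :=
  box_mk (TrL.c (I.pos (nat_lit 0) (nat_lit 0)) (xa T3.l13 T3.l13)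
  (TrL.c (I.pos (nat_lit 0) (nat_lit 0)) T1.l8
  (TrL.c (I.pos (nat_lit 0) (nat_lit 134217730)) (xR T3.l4 (xR T3.l4 T3.l4))
  (TrL.c (I.pos (nat_lit 0) (nat_lit 110514882)) (xR T1.l3 (xR T1.l9 T1.l9))
  (TrL.c (I.pos (nat_lit 0) (nat_lit 0)) (xk T1.l13 T1.l13)
  (TrL.c (I.pos (nat_lit 0) (nat_lit 0)) T3.l10
  (TrL.c (I.mix (nat_lit 8088324) (nat_lit 110514882)) (xR T1.l11 T1.l11)
  (TrL.c (I.mix (nat_lit 8088324) (nat_lit 89478486)) T3.l4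
  TrL.n)))))))) (by decide +kernel)
theorem bx5_8 : BoxOK sI cl13 cl7 cl4 t3 t1 b5_8 :=
  box_mk (TrL.c (I.pos (nat_lit 0) (nat_lit 0)) (xb (xa (xb T3.l13 T3.l13) (xb (xa T3.l0 T3.l0) T3.l13)) (xa (xb T3.l13 T3.l13) (xb T3.l13 T3.l13)))
  (TrL.c (I.pos (nat_lit 0) (nat_lit 0)) (xb T1.l8 T1.l8)
  (TrL.c (I.pos (nat_lit 0) (nat_lit 134217730)) (xR T3.l4 (xR T3.l4 T3.l4))
  (TrL.c (I.pos (nat_lit 0) (nat_lit 110514882)) (xR T1.l3 (xR T1.l9 (xR T1.l9 T1.l9)))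
  (TrL.c (I.pos (nat_lit 0) (nat_lit 0)) (xk (xb (xa T1.l13 T1.l13) T1.l13) (xb (xa T1.l13 T1.l13) T1.l13))
  (TrL.c (I.pos (nat_lit 0) (nat_lit 0)) T3.l10
  (TrL.c (I.mix (nat_lit 8088324) (nat_lit 110514882)) (xR T1.l11 (xR T1.l11 (xR T1.l11 T1.l11)))
  (TrL.c (I.mix (nat_lit 8088324) (nat_lit 89478486)) (xR T3.l11 T3.l2)
  TrL.n)))))))) (by decide +kernel)
theorem bx5_9 : BoxOK sI cl13 cl7 cl4 t3 t1 b5_9 :=
  box_mk (TrL.c (I.pos (nat_lit 0) (nat_lit 0)) (xa (xa T3.l12 T3.l12) (xa (xb T3.l12 T3.l12) (xa T3.l12 T3.l12)))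
  (TrL.c (I.pos (nat_lit 0) (nat_lit 0)) (xa T1.l8 T1.l8)
  (TrL.c (I.pos (nat_lit 0) (nat_lit 134217730)) (xR T3.l4 (xR T3.l4 T3.l9))
  (TrL.c (I.pos (nat_lit 0) (nat_lit 110514882)) (xR T1.l3 (xR T1.l9 T1.l9))
  (TrL.c (I.pos (nat_lit 0) (nat_lit 0)) (xa T1.l12 T1.l12)
  (TrL.c (I.pos (nat_lit 0) (nat_lit 0)) T3.l10
  (TrL.c (I.mix (nat_lit 8088324) (nat_lit 110514882)) (xR T1.l11 T1.l11)
  (TrL.c (I.mix (nat_lit 8088324) (nat_lit 89478486)) T3.l11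
  TrL.n)))))))) (by decide +kernel)
theorem bx5_10 : BoxOK sI cl13 cl7 cl4 t3 t1 b5_10 :=
  box_mk (TrL.c (I.pos (nat_lit 0) (nat_lit 0)) (xb (xa (xb T3.l12 T3.l12) T3.l12) (xa T3.l12 T3.l12))
  (TrL.c (I.pos (nat_lit 0) (nat_lit 0)) (xb T1.l8 T1.l8)
  (TrL.c (I.pos (nat_lit 0) (nat_lit 134217730)) (xR T3.l4 (xR T3.l4 (xR T3.l9 T3.l9)))
  (TrL.c (I.pos (nat_lit 0) (nat_lit 110514882)) (xR T1.l3 (xR T1.l9 T1.l9))
  (TrL.c (I.pos (nat_lit 0) (nat_lit 0)) (xb (xa (xk T1.l12 T1.l12) (xk T1.l12 T1.l12)) (xa T1.l12 T1.l12))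
  (TrL.c (I.pos (nat_lit 0) (nat_lit 0)) T3.l10
  (TrL.c (I.mix (nat_lit 8088324) (nat_lit 110514882)) (xR T1.l11 T1.l11)
  (TrL.c (I.mix (nat_lit 8088324) (nat_lit 89478486)) T3.l4
  TrL.n)))))))) (by decide +kernel)
theorem bx5_11 : BoxOK sI cl13 cl7 cl4 t3 t1 b5_11 :=
  box_mk (TrL.c (I.pos (nat_lit 0) (nat_lit 0)) (xa (xa (xb (xa T3.l12 T3.l12) T3.l12) T3.l12) T3.l12)
  (TrL.c (I.pos (nat_lit 0) (nat_lit 0)) (xa T1.l8 T1.l8)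
  (TrL.c (I.pos (nat_lit 0) (nat_lit 134217730)) (xR T3.l4 (xR T3.l4 (xa T3.l9 T3.l9)))
  (TrL.c (I.pos (nat_lit 0) (nat_lit 110514882)) T1.l11
  (TrL.c (I.pos (nat_lit 0) (nat_lit 0)) (xa T1.l8 T1.l12)
  (TrL.c (I.pos (nat_lit 0) (nat_lit 0)) T3.l10
  (TrL.c (I.mix (nat_lit 8088324) (nat_lit 110514882)) (xR T1.l11 (xR T1.l11 T1.l11))
  (TrL.c (I.mix (nat_lit 8088324) (nat_lit 89478486)) T3.l4
  TrL.n)))))))) (by decide +kernel)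
theorem bx5_12 : BoxOK sI cl13 cl7 cl4 t3 t1 b5_12 :=
  box_mk (TrL.c (I.pos (nat_lit 0) (nat_lit 0)) (xa (xa (xb (xb T3.l0 T3.l0) (xb T3.l0 (xa T3.l0 T3.l0))) (xb (xb T3.l0 T3.l0) (xa (xb T3.l0 T3.l0) T3.l0))) (xa (xb (xa T3.l0 T3.l0) (xa T3.l0 T3.l0)) (xb T3.l0 (xa T3.l0 T3.l0))))
  (TrL.c (I.pos (nat_lit 0) (nat_lit 0)) (xa (xk (xb T1.l8 T1.l8) T1.l8) (xk (xb T1.l8 T1.l8) (xb T1.l8 T1.l8)))
  (TrL.c (I.pos (nat_lit 0) (nat_lit 134217730)) (xR (xR T3.l4 T3.l4) (xR T3.l4 T3.l4))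
  (TrL.c (I.pos (nat_lit 0) (nat_lit 110514882)) (xR T1.l11 (xR (xR T1.l9 T1.l9) (xR T1.l9 T1.l9)))
  (TrL.c (I.pos (nat_lit 0) (nat_lit 0)) (xa (xk (xb (xa T1.l10 T1.l10) T1.l10) (xb (xa T1.l10 T1.l10) T1.l10)) (xk (xb (xa (xb T1.l10 T1.l10) (xk (xb T1.l10 T1.l10) (xb T1.l10 T1.l10))) (xa (xk T1.l10 T1.l10) (xk (xb T1.l10 T1.l10) (xb T1.l10 T1.l10)))) (xb (xa (xb T1.l10 T1.l10) (xk (xb T1.l10 T1.l10) (xb T1.l10 T1.l10))) (xa T1.l10 (xk (xb T1.l10 T1.l10) (xb T1.l10 T1.l10))))))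
  (TrL.c (I.pos (nat_lit 0) (nat_lit 0)) (xk (xa T3.l10 T3.l10) (xa T3.l10 T3.l10))
  (TrL.c (I.mix (nat_lit 8088324) (nat_lit 110514882)) (xR T1.l11 (xR T1.l11 (xR T1.l11 (xk (xa T1.l11 T1.l11) T1.l11))))
  (TrL.c (I.mix (nat_lit 8088324) (nat_lit 89478486)) (xR T3.l11 (xR T3.l11 (xR T3.l11 T3.l11)))
  TrL.n)))))))) (by decide +kernel)
theorem bx5_13 : BoxOK sI cl13 cl7 cl4 t3 t1 b5_13 :=
  box_mk (TrL.c (I.pos (nat_lit 0) (nat_lit 0)) (xa (xb (xa T3.l0 T3.l0) (xa T3.l13 T3.l0)) (xb (xa T3.l0 T3.l0) (xa T3.l0 T3.l0)))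
  (TrL.c (I.pos (nat_lit 0) (nat_lit 0)) (xk T1.l8 T1.l8)
  (TrL.c (I.pos (nat_lit 0) (nat_lit 134217730)) (xR T3.l4 (xR T3.l4 T3.l4))
  (TrL.c (I.pos (nat_lit 0) (nat_lit 110514882)) (xR T1.l3 (xR T1.l9 (xR T1.l9 T1.l9)))
  (TrL.c (I.pos (nat_lit 0) (nat_lit 0)) (xk (xa T1.l10 T1.l10) (xa T1.l10 T1.l10))
  (TrL.c (I.pos (nat_lit 0) (nat_lit 0)) T3.l10
  (TrL.c (I.mix (nat_lit 8088324) (nat_lit 110514882)) (xR T1.l11 (xR T1.l11 T1.l11))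
  (TrL.c (I.mix (nat_lit 8088324) (nat_lit 89478486)) (xR T3.l11 T3.l2)
  TrL.n)))))))) (by decide +kernel)
theorem sv5 : StarV sI cl13 cl7 cl4 t3 t1 t5 :=
  (bt_n (bt_n (bt_n (bt_b bx5_0) (bt_n (bt_b bx5_1) (bt_b bx5_2))) (bt_n (bt_n (bt_b bx5_3) (bt_b bx5_4)) (bt_n (bt_b bx5_5) (bt_b bx5_6)))) (bt_n (bt_n (bt_b bx5_7) (bt_n (bt_b bx5_8) (bt_b bx5_9))) (bt_n (bt_n (bt_b bx5_10) (bt_b bx5_11)) (bt_n (bt_b bx5_12) (bt_b bx5_13)))))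
def S5 : StarD := StarD.mk cl13 cl7 cl4 3 1 t5
def G : List StarD := [S0, S1, S2, S3, S4, S5]
theorem so0 : StarOK sI G S0 :=
  star_mk (by decide) (by decide) rfl rfl rfl rfl rfl rfl (rfl : _ = t2) (rfl : _ = t4)
  (st_mk (Pth.l (Pth.l (Pth.l Pth.z))) (nat_lit 145692607) (nat_lit 169257311) (by decide +kernel))
  (st_mk (Pth.l (Pth.l (Pth.l Pth.z))) (nat_lit 183901622) (nat_lit 208153280) (by decide +kernel))
  (st_mk (Pth.l (Pth.l (Pth.l Pth.z))) (nat_lit 229055625) (nat_lit 254239718) (by decide +kernel)) sv0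
theorem so1 : StarOK sI G S1 :=
  star_mk (by decide) (by decide) rfl rfl rfl rfl rfl rfl (rfl : _ = t4) (rfl : _ = t2)
  (st_mk (Pth.l (Pth.l (Pth.l Pth.z))) (nat_lit 98930464) (nat_lit 118415589) (by decide +kernel))
  (st_mk (Pth.l (Pth.l (Pth.l Pth.z))) (nat_lit 136611047) (nat_lit 156765694) (by decide +kernel))
  (st_mk (Pth.l (Pth.l (Pth.l Pth.z))) (nat_lit 179449086) (nat_lit 204281398) (by decide +kernel)) sv1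
theorem so2 : StarOK sI G S2 :=
  star_mk (by decide) (by decide) rfl rfl rfl rfl rfl rfl (rfl : _ = t0) (rfl : _ = t5)
  (st_mk (Pth.l (Pth.l (Pth.l Pth.z))) (nat_lit 370378254) (nat_lit 374849550) (by decide +kernel))
  (st_mk (Pth.l (Pth.l (Pth.l Pth.z))) (nat_lit 406524057) (nat_lit 411594980) (by decide +kernel))
  (st_mk (Pth.l (Pth.l (Pth.l Pth.z))) (nat_lit 448380879) (nat_lit 454221947) (by decide +kernel)) sv2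
theorem so3 : StarOK sI G S3 :=
  star_mk (by decide) (by decide) rfl rfl rfl rfl rfl rfl (rfl : _ = t5) (rfl : _ = t0)
  (st_mk (Pth.l (Pth.l (Pth.l Pth.z))) (nat_lit 96698754) (nat_lit 115504933) (by decide +kernel))
  (st_mk (Pth.l (Pth.l (Pth.l Pth.z))) (nat_lit 132345435) (nat_lit 151597892) (by decide +kernel))
  (st_mk (Pth.l (Pth.l (Pth.l Pth.z))) (nat_lit 173773778) (nat_lit 193668236) (by decide +kernel)) sv3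
theorem so4 : StarOK sI G S4 :=
  star_mk (by decide) (by decide) rfl rfl rfl rfl rfl rfl (rfl : _ = t1) (rfl : _ = t3)
  (st_mk (Pth.l (Pth.l (Pth.l Pth.z))) (nat_lit 364798899) (nat_lit 368067201) (by decide +kernel))
  (st_mk (Pth.l (Pth.l (Pth.l Pth.z))) (nat_lit 399695508) (nat_lit 403514135) (by decide +kernel))
  (st_mk (Pth.l (Pth.l (Pth.l Pth.z))) (nat_lit 439960827) (nat_lit 444478464) (by decide +kernel)) sv4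
theorem so5 : StarOK sI G S5 :=
  star_mk (by decide) (by decide) rfl rfl rfl rfl rfl rfl (rfl : _ = t3) (rfl : _ = t1)
  (st_mk (Pth.l (Pth.l (Pth.l Pth.z))) (nat_lit 139994720) (nat_lit 162429088) (by decide +kernel))
  (st_mk (Pth.l (Pth.l (Pth.l Pth.z))) (nat_lit 174891329) (nat_lit 197738147) (by decide +kernel))
  (st_mk (Pth.l (Pth.l (Pth.l Pth.z))) (nat_lit 215156648) (nat_lit 238582986) (by decide +kernel)) sv5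
theorem ok : GroupOK (nat_lit 209321984) (nat_lit 238944256) G := grp_mk (allS_c so0 (allS_c so1 (allS_c so2 (allS_c so3 (allS_c so4 (allS_c so5 allS_n))))))
theorem cov : GCov G cl4 cl7 cl13 := cov_mk
  ⟨0, by decide, rfl, rfl, rfl⟩ ⟨1, by decide, rfl, rfl, rfl⟩ ⟨2, by decide, rfl, rfl, rfl⟩ ⟨3, by decide, rfl, rfl, rfl⟩ ⟨4, by decide, rfl, rfl, rfl⟩ ⟨5, by decide, rfl, rfl, rfl⟩
end Q146_3


end Pool.Agent.Helper6.MONO
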