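import Pool.Agent.Helper6.MONO.Asm

/-!
Certificate data (generated).
-/

set_option autoImplicit false
set_option linter.all false
noncomputable section
namespace Pool.Agent.Helper6.MONO


namespace Q146_4
def sI : I := I.pos (nat_lit 238878720) (nat_lit 268435456)
def b0_0 : Bx := Bx.mk (St.mk (I.pos (nat_lit 158449664) (nat_lit 235143168)) (I.mix (nat_lit 1966080) (nat_lit 63160320)) (I.mix (nat_lit 10207232) (nat_lit 62078976)) (I.pos (nat_lit 143867904) (nat_lit 290160640)) (I.mix (nat_lit 129302528) (nat_lit 94306304)) (I.mix (nat_lit 77283328) (nat_lit 79593472)) (I.mix (nat_lit 126238720) (nat_lit 126976000)))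
  false (nat_lit 28059440)
def b0_1 : Bx := Bx.mk (St.mk (I.mix (nat_lit 18055168) (nat_lit 113442816)) (I.mix (nat_lit 6520832) (nat_lit 31621120)) (I.mix (nat_lit 28508160) (nat_lit 3112960)) (I.pos (nat_lit 40697856) (nat_lit 110804992)) (I.mix (nat_lit 45121536) (nat_lit 58621952)) (I.mix (nat_lit 42860544) (nat_lit 34783232)) (I.mix (nat_lit 30064640) (nat_lit 23298048)))
  false (nat_lit 6175586)
def b0_2 : Bx := Bx.mk (St.mk (I.pos (nat_lit 85688320) (nat_lit 130629632)) (I.mix (nat_lit 45940736) (nat_lit 9846784)) (I.neg (nat_lit 10452992) (nat_lit 65634304)) (I.pos (nat_lit 71860224) (nat_lit 124420096)) (I.mix (nat_lit 112787456) (nat_lit 52510720)) (I.mix (nat_lit 46219264) (nat_lit 96501760)) (I.mix (nat_lit 30490624) (nat_lit 76120064)))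
  false (nat_lit 19416011)
def b0_3 : Bx := Bx.mk (St.mk (I.mix (nat_lit 34160640) (nat_lit 63553536)) (I.mix (nat_lit 28622848) (nat_lit 4046848)) (I.neg (nat_lit 4390912) (nat_lit 27869184)) (I.pos (nat_lit 41713664) (nat_lit 77709312)) (I.mix (nat_lit 52887552) (nat_lit 24805376)) (I.mix (nat_lit 23265280) (nat_lit 39305216)) (I.mix (nat_lit 10502144) (nat_lit 17448960)))
  false (nat_lit 11266742)
def b0_4 : Bx := Bx.mk (St.mk (I.pos (nat_lit 79216640) (nat_lit 113049600)) (I.mix (nat_lit 10010624) (nat_lit 14286848)) (I.neg (nat_lit 6914048) (nat_lit 32292864)) (I.pos (nat_lit 70664192) (nat_lit 111165440)) (I.mix (nat_lit 47824896) (nat_lit 35504128)) (I.mix (nat_lit 33603584) (nat_lit 31375360)) (I.mix (nat_lit 20545536) (nat_lit 24526848)))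
  false (nat_lit 0)
def b0_5 : Bx := Bx.mk (St.mk (I.mix (nat_lit 42434560) (nat_lit 50413568)) (I.mix (nat_lit 6094848) (nat_lit 9142272)) (I.neg (nat_lit 7372800) (nat_lit 17711104)) (I.pos (nat_lit 42188800) (nat_lit 71335936)) (I.mix (nat_lit 23724032) (nat_lit 20774912)) (I.mix (nat_lit 18071552) (nat_lit 17317888)) (I.mix (nat_lit 4751360) (nat_lit 6586368)))
  false (nat_lit 0)
def b0_6 : Bx := Bx.mk (St.mk (I.pos (nat_lit 210370560) (nat_lit 255852544)) (I.mix (nat_lit 13959168) (nat_lit 16760832)) (I.neg (nat_lit 27328512) (nat_lit 92356608)) (I.pos (nat_lit 229687296) (nat_lit 320946176)) (I.mix (nat_lit 103809024) (nat_lit 34390016)) (I.mix (nat_lit 56967168) (nat_lit 59359232)) (I.mix (nat_lit 75513856) (nat_lit 114802688)))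
  false (nat_lit 0)
def b0_7 : Bx := Bx.mk (St.mk (I.pos (nat_lit 188678144) (nat_lit 248086528)) (I.mix (nat_lit 13697024) (nat_lit 60784640)) (I.mix (nat_lit 84475904) (nat_lit 52592640)) (I.pos (nat_lit 216449024) (nat_lit 306397184)) (I.mix (nat_lit 118472704) (nat_lit 101253120)) (I.mix (nat_lit 94601216) (nat_lit 83755008)) (I.mix (nat_lit 161054720) (nat_lit 135561216)))
  false (nat_lit 38622140)
def b0_8 : Bx := Bx.mk (St.mk (I.pos (nat_lit 93224960) (nat_lit 168411136)) (I.neg (nat_lit 3178496) (nat_lit 47628288)) (I.neg (nat_lit 18186240) (nat_lit 63930368)) (I.pos (nat_lit 85442560) (nat_lit 169902080)) (I.mix (nat_lit 86097920) (nat_lit 46841856)) (I.mix (nat_lit 39747584) (nat_lit 63078400)) (I.mix (nat_lit 28344320) (nat_lit 60293120)))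
  false (nat_lit 11935330)
def b0_9 : Bx := Bx.mk (St.mk (I.mix (nat_lit 29048832) (nat_lit 82771968)) (I.mix (nat_lit 29048832) (nat_lit 4390912)) (I.neg (nat_lit 4669440) (nat_lit 28835840)) (I.pos (nat_lit 40812544) (nat_lit 88408064)) (I.mix (nat_lit 52183040) (nat_lit 31358976)) (I.mix (nat_lit 24297472) (nat_lit 36225024)) (I.mix (nat_lit 12238848) (nat_lit 20660224)))
  false (nat_lit 17970436)
def b0_10 : Bx := Bx.mk (St.mk (I.pos (nat_lit 165167104) (nat_lit 218480640)) (I.mix (nat_lit 9486336) (nat_lit 56786944)) (I.mix (nat_lit 23347200) (nat_lit 56066048)) (I.pos (nat_lit 163840000) (nat_lit 254853120)) (I.mix (nat_lit 135249920) (nat_lit 72089600)) (I.mix (nat_lit 122355712) (nat_lit 85540864)) (I.mix (nat_lit 120848384) (nat_lit 86343680)))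
  false (nat_lit 19174904)
def b0_11 : Bx := Bx.mk (St.mk (I.mix (nat_lit 36274176) (nat_lit 114900992)) (I.mix (nat_lit 11583488) (nat_lit 32768000)) (I.mix (nat_lit 22282240) (nat_lit 5242880)) (I.pos (nat_lit 39747584) (nat_lit 111771648)) (I.mix (nat_lit 48300032) (nat_lit 51216384)) (I.mix (nat_lit 45744128) (nat_lit 34144256)) (I.mix (nat_lit 24657920) (nat_lit 17416192)))
  false (nat_lit 22239212)
def b0_12 : Bx := Bx.mk (St.mk (I.pos (nat_lit 138575872) (nat_lit 211386368)) (I.mix (nat_lit 33472512) (nat_lit 15990784)) (I.mix (nat_lit 58507264) (nat_lit 98304)) (I.pos (nat_lit 122028032) (nat_lit 227704832)) (I.mix (nat_lit 79560704) (nat_lit 79953920)) (I.mix (nat_lit 82952192) (nat_lit 73465856)) (I.mix (nat_lit 85049344) (nat_lit 67796992)))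
  false (nat_lit 38382868)
def b0_13 : Bx := Bx.mk (St.mk (I.pos (nat_lit 166363136) (nat_lit 214220800)) (I.mix (nat_lit 17842176) (nat_lit 28934144)) (I.mix (nat_lit 39010304) (nat_lit 20824064)) (I.pos (nat_lit 165822464) (nat_lit 235077632)) (I.mix (nat_lit 96256000) (nat_lit 102023168)) (I.mix (nat_lit 117571584) (nat_lit 92667904)) (I.mix (nat_lit 122355712) (nat_lit 86999040)))
  false (nat_lit 63173914)
def t0 : BTr := (BTr.n (BTr.n (BTr.n (BTr.b b0_0) (BTr.n (BTr.b b0_1) (BTr.b b0_2))) (BTr.n (BTr.n (BTr.b b0_3) (BTr.b b0_4)) (BTr.n (BTr.b b0_5) (BTr.b b0_6)))) (BTr.n (BTr.n (BTr.b b0_7) (BTr.n (BTr.b b0_8) (BTr.b b0_9))) (BTr.n (BTr.n (BTr.b b0_10) (BTr.b b0_11)) (BTr.n (BTr.b b0_12) (BTr.b b0_13)))))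
namespace T0
def l0 : Tr := Tr.L (Pth.l (Pth.l (Pth.l Pth.z)))
def l1 : Tr := Tr.L (Pth.l (Pth.l (Pth.r (Pth.l Pth.z))))
def l2 : Tr := Tr.L (Pth.l (Pth.l (Pth.r (Pth.r Pth.z))))
def l3 : Tr := Tr.L (Pth.l (Pth.r (Pth.l (Pth.l Pth.z))))
def l4 : Tr := Tr.L (Pth.l (Pth.r (Pth.l (Pth.r Pth.z))))
def l5 : Tr := Tr.L (Pth.l (Pth.r (Pth.r (Pth.l Pth.z))))
def l6 : Tr := Tr.L (Pth.l (Pth.r (Pth.r (Pth.r Pth.z))))
def l7 : Tr := Tr.L (Pth.r (Pth.l (Pth.l Pth.z)))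
def l8 : Tr := Tr.L (Pth.r (Pth.l (Pth.r (Pth.l Pth.z))))
def l9 : Tr := Tr.L (Pth.r (Pth.l (Pth.r (Pth.r Pth.z))))
def l10 : Tr := Tr.L (Pth.r (Pth.r (Pth.l (Pth.l Pth.z))))
def l11 : Tr := Tr.L (Pth.r (Pth.r (Pth.l (Pth.r Pth.z))))
def l12 : Tr := Tr.L (Pth.r (Pth.r (Pth.r (Pth.l Pth.z))))
def l13 : Tr := Tr.L (Pth.r (Pth.r (Pth.r (Pth.r Pth.z))))
end T0
def b1_0 : Bx := Bx.mk (St.mk (I.pos (nat_lit 158384128) (nat_lit 237289472)) (I.mix (nat_lit 1654784) (nat_lit 52363264)) (I.mix (nat_lit 2048000) (nat_lit 68419584)) (I.pos (nat_lit 95141888) (nat_lit 240041984)) (I.mix (nat_lit 123715584) (nat_lit 85393408)) (I.mix (nat_lit 78888960) (nat_lit 78282752)) (I.mix (nat_lit 122191872) (nat_lit 119390208)))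
  false (nat_lit 19100063)
def b1_1 : Bx := Bx.mk (St.mk (I.mix (nat_lit 7749632) (nat_lit 136101888)) (I.mix (nat_lit 5455872) (nat_lit 23871488)) (I.mix (nat_lit 17235968) (nat_lit 10829824)) (I.mix (nat_lit 3014656) (nat_lit 84197376)) (I.mix (nat_lit 42221568) (nat_lit 45367296)) (I.mix (nat_lit 35913728) (nat_lit 28524544)) (I.mix (nat_lit 30294016) (nat_lit 22790144)))
  false (nat_lit 0)
def b1_2 : Bx := Bx.mk (St.mk (I.pos (nat_lit 108888064) (nat_lit 150519808)) (I.mix (nat_lit 40845312) (nat_lit 8896512)) (I.neg (nat_lit 2359296) (nat_lit 53542912)) (I.pos (nat_lit 49020928) (nat_lit 100581376)) (I.mix (nat_lit 105938944) (nat_lit 53706752)) (I.mix (nat_lit 44187648) (nat_lit 89686016)) (I.mix (nat_lit 35897344) (nat_lit 81166336)))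
  false (nat_lit 24839102)
def b1_3 : Bx := Bx.mk (St.mk (I.mix (nat_lit 11845632) (nat_lit 101728256)) (I.mix (nat_lit 21364736) (nat_lit 3637248)) (I.mix (nat_lit 22118400) (nat_lit 1179648)) (I.mix (nat_lit 2129920) (nat_lit 53985280)) (I.mix (nat_lit 44466176) (nat_lit 22380544)) (I.mix (nat_lit 18464768) (nat_lit 35930112)) (I.mix (nat_lit 9977856) (nat_lit 22495232)))
  false (nat_lit 0)
def b1_4 : Bx := Bx.mk (St.mk (I.pos (nat_lit 192364544) (nat_lit 247480320)) (I.mix (nat_lit 12288000) (nat_lit 50511872)) (I.mix (nat_lit 54706176) (nat_lit 62799872)) (I.pos (nat_lit 175161344) (nat_lit 255574016)) (I.mix (nat_lit 110854144) (nat_lit 90210304)) (I.mix (nat_lit 92078080) (nat_lit 77889536)) (I.mix (nat_lit 152616960) (nat_lit 125353984)))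
  false (nat_lit 28838813)
def b1_5 : Bx := Bx.mk (St.mk (I.mix (nat_lit 14843904) (nat_lit 101564416)) (I.mix (nat_lit 4472832) (nat_lit 3817472)) (I.mix (nat_lit 10567680) (nat_lit 868352)) (I.mix (nat_lit 2048000) (nat_lit 51281920)) (I.mix (nat_lit 14237696) (nat_lit 7618560)) (I.mix (nat_lit 7176192) (nat_lit 7127040)) (I.mix (nat_lit 3964928) (nat_lit 5226496)))
  false (nat_lit 0)
def b1_6 : Bx := Bx.mk (St.mk (I.pos (nat_lit 105824256) (nat_lit 134791168)) (I.mix (nat_lit 7979008) (nat_lit 11321344)) (I.mix (nat_lit 20103168) (nat_lit 180224)) (I.pos (nat_lit 46350336) (nat_lit 85147648)) (I.mix (nat_lit 31195136) (nat_lit 18137088)) (I.mix (nat_lit 18038784) (nat_lit 17072128)) (I.mix (nat_lit 14057472) (nat_lit 16613376)))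
  false (nat_lit 0)
def b1_7 : Bx := Bx.mk (St.mk (I.pos (nat_lit 209354752) (nat_lit 253706240)) (I.mix (nat_lit 13139968) (nat_lit 15171584)) (I.neg (nat_lit 5357568) (nat_lit 60719104)) (I.pos (nat_lit 189693952) (nat_lit 271482880)) (I.mix (nat_lit 100892672) (nat_lit 31866880)) (I.mix (nat_lit 54935552) (nat_lit 55934976)) (I.mix (nat_lit 83099648) (nat_lit 103727104)))
  false (nat_lit 0)
def b1_8 : Bx := Bx.mk (St.mk (I.pos (nat_lit 108642304) (nat_lit 182943744)) (I.mix (nat_lit 43253760) (nat_lit 49152)) (I.neg (nat_lit 10600448) (nat_lit 53133312)) (I.pos (nat_lit 62849024) (nat_lit 139329536)) (I.mix (nat_lit 79986688) (nat_lit 45678592)) (I.mix (nat_lit 41205760) (nat_lit 58982400)) (I.mix (nat_lit 36044800) (nat_lit 61145088)))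
  false (nat_lit 18181601)
def b1_9 : Bx := Bx.mk (St.mk (I.pos (nat_lit 4177920) (nat_lit 116981760)) (I.mix (nat_lit 22511616) (nat_lit 3751936)) (I.mix (nat_lit 22495232) (nat_lit 1081344)) (I.mix (nat_lit 1835008) (nat_lit 67043328)) (I.mix (nat_lit 38731776) (nat_lit 26345472)) (I.mix (nat_lit 20774912) (nat_lit 30375936)) (I.mix (nat_lit 12140544) (nat_lit 21708800)))
  false (nat_lit 0)
def b1_10 : Bx := Bx.mk (St.mk (I.pos (nat_lit 171589632) (nat_lit 214433792)) (I.mix (nat_lit 12288000) (nat_lit 42024960)) (I.mix (nat_lit 15040512) (nat_lit 56967168)) (I.pos (nat_lit 123076608) (nat_lit 198672384)) (I.mix (nat_lit 122585088) (nat_lit 56410112)) (I.mix (nat_lit 107429888) (nat_lit 65175552)) (I.mix (nat_lit 119603200) (nat_lit 73482240)))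
  false (nat_lit 0)
def b1_11 : Bx := Bx.mk (St.mk (I.mix (nat_lit 13680640) (nat_lit 135348224)) (I.mix (nat_lit 13500416) (nat_lit 25411584)) (I.mix (nat_lit 18268160) (nat_lit 13975552)) (I.mix (nat_lit 3014656) (nat_lit 84410368)) (I.mix (nat_lit 50069504) (nat_lit 41091072)) (I.mix (nat_lit 42860544) (nat_lit 30982144)) (I.mix (nat_lit 29147136) (nat_lit 20873216)))
  false (nat_lit 10164258)
def b1_12 : Bx := Bx.mk (St.mk (I.pos (nat_lit 146702336) (nat_lit 212418560)) (I.mix (nat_lit 36110336) (nat_lit 9977856)) (I.mix (nat_lit 53444608) (nat_lit 6701056)) (I.pos (nat_lit 90423296) (nat_lit 186400768)) (I.mix (nat_lit 73515008) (nat_lit 71876608)) (I.mix (nat_lit 74842112) (nat_lit 68747264)) (I.mix (nat_lit 83509248) (nat_lit 70713344)))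
  false (nat_lit 47634930)
def b1_13 : Bx := Bx.mk (St.mk (I.pos (nat_lit 172195840) (nat_lit 213270528)) (I.mix (nat_lit 20889600) (nat_lit 20955136)) (I.mix (nat_lit 29605888) (nat_lit 25133056)) (I.pos (nat_lit 123305984) (nat_lit 188448768)) (I.mix (nat_lit 103956480) (nat_lit 82739200)) (I.mix (nat_lit 108249088) (nat_lit 80379904)) (I.mix (nat_lit 122912768) (nat_lit 87080960)))
  false (nat_lit 40202671)
def t1 : BTr := (BTr.n (BTr.n (BTr.n (BTr.b b1_0) (BTr.n (BTr.b b1_1) (BTr.b b1_2))) (BTr.n (BTr.n (BTr.b b1_3) (BTr.b b1_4)) (BTr.n (BTr.b b1_5) (BTr.b b1_6)))) (BTr.n (BTr.n (BTr.b b1_7) (BTr.n (BTr.b b1_8) (BTr.b b1_9))) (BTr.n (BTr.n (BTr.b b1_10) (BTr.b b1_11)) (BTr.n (BTr.b b1_12) (BTr.b b1_13)))))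
namespace T1
def l0 : Tr := Tr.L (Pth.l (Pth.l (Pth.l Pth.z)))
def l1 : Tr := Tr.L (Pth.l (Pth.l (Pth.r (Pth.l Pth.z))))
def l2 : Tr := Tr.L (Pth.l (Pth.l (Pth.r (Pth.r Pth.z))))
def l3 : Tr := Tr.L (Pth.l (Pth.r (Pth.l (Pth.l Pth.z))))
def l4 : Tr := Tr.L (Pth.l (Pth.r (Pth.l (Pth.r Pth.z))))
def l5 : Tr := Tr.L (Pth.l (Pth.r (Pth.r (Pth.l Pth.z))))
def l6 : Tr := Tr.L (Pth.l (Pth.r (Pth.r (Pth.r Pth.z))))
def l7 : Tr := Tr.L (Pth.r (Pth.l (Pth.l Pth.z)))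
def l8 : Tr := Tr.L (Pth.r (Pth.l (Pth.r (Pth.l Pth.z))))
def l9 : Tr := Tr.L (Pth.r (Pth.l (Pth.r (Pth.r Pth.z))))
def l10 : Tr := Tr.L (Pth.r (Pth.r (Pth.l (Pth.l Pth.z))))
def l11 : Tr := Tr.L (Pth.r (Pth.r (Pth.l (Pth.r Pth.z))))
def l12 : Tr := Tr.L (Pth.r (Pth.r (Pth.r (Pth.l Pth.z))))
def l13 : Tr := Tr.L (Pth.r (Pth.r (Pth.r (Pth.r Pth.z))))
end T1
def b2_0 : Bx := Bx.mk (St.mk (I.pos (nat_lit 138330112) (nat_lit 217432064)) (I.mix (nat_lit 2850816) (nat_lit 94044160)) (I.mix (nat_lit 2736128) (nat_lit 88506368)) (I.pos (nat_lit 367968256) (nat_lit 469942272)) (I.mix (nat_lit 179666944) (nat_lit 117571584)) (I.mix (nat_lit 100499456) (nat_lit 102809600)) (I.mix (nat_lit 127041536) (nat_lit 133611520)))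
  false (nat_lit 155975775)
def b2_1 : Bx := Bx.mk (St.mk (I.mix (nat_lit 51838976) (nat_lit 17104896)) (I.mix (nat_lit 15204352) (nat_lit 84410368)) (I.neg (nat_lit 45924352) (nat_lit 77037568)) (I.pos (nat_lit 256491520) (nat_lit 290717696)) (I.mix (nat_lit 56541184) (nat_lit 136871936)) (I.mix (nat_lit 98549760) (nat_lit 71401472)) (I.mix (nat_lit 52658176) (nat_lit 41828352)))
  true (nat_lit 41667862)
def b2_2 : Bx := Bx.mk (St.mk (I.pos (nat_lit 4276224) (nat_lit 51232768)) (I.neg (nat_lit 30408704) (nat_lit 84410368)) (I.neg (nat_lit 47202304) (nat_lit 77037568)) (I.pos (nat_lit 261619712) (nat_lit 290570240)) (I.mix (nat_lit 136921088) (nat_lit 53198848)) (I.mix (nat_lit 72679424) (nat_lit 90619904)) (I.mix (nat_lit 53215232) (nat_lit 41828352)))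
  false (nat_lit 67282495)
def b2_3 : Bx := Bx.mk (St.mk (I.pos (nat_lit 12140544) (nat_lit 123633664)) (I.neg (nat_lit 9207808) (nat_lit 87605248)) (I.neg (nat_lit 6979584) (nat_lit 87326720)) (I.pos (nat_lit 261111808) (nat_lit 329416704)) (I.mix (nat_lit 139444224) (nat_lit 83263488)) (I.mix (nat_lit 81936384) (nat_lit 91504640)) (I.mix (nat_lit 87588864) (nat_lit 75513856)))
  false (nat_lit 107973115)
def b2_4 : Bx := Bx.mk (St.mk (I.pos (nat_lit 94945280) (nat_lit 184860672)) (I.mix (nat_lit 35602432) (nat_lit 82427904)) (I.mix (nat_lit 40992768) (nat_lit 86687744)) (I.pos (nat_lit 298516480) (nat_lit 425115648)) (I.mix (nat_lit 175210496) (nat_lit 98140160)) (I.mix (nat_lit 134021120) (nat_lit 109805568)) (I.mix (nat_lit 137625600) (nat_lit 138297344)))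
  false (nat_lit 103398996)
def b2_5 : Bx := Bx.mk (St.mk (I.neg (nat_lit 12124160) (nat_lit 123633664)) (I.pos (nat_lit 9207808) (nat_lit 87605248)) (I.neg (nat_lit 7077888) (nat_lit 87343104)) (I.pos (nat_lit 261111808) (nat_lit 329416704)) (I.mix (nat_lit 83279872) (nat_lit 139444224)) (I.mix (nat_lit 91504640) (nat_lit 81936384)) (I.mix (nat_lit 87605248) (nat_lit 75464704)))
  true (nat_lit 87132666)
def b2_6 : Bx := Bx.mk (St.mk (I.pos (nat_lit 174129152) (nat_lit 291160064)) (I.mix (nat_lit 29016064) (nat_lit 59899904)) (I.mix (nat_lit 170917888) (nat_lit 19021824)) (I.pos (nat_lit 404127744) (nat_lit 575619072)) (I.mix (nat_lit 95764480) (nat_lit 107200512)) (I.mix (nat_lit 77725696) (nat_lit 72744960)) (I.mix (nat_lit 119062528) (nat_lit 118964224)))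
  false (nat_lit 143655164)
def b2_7 : Bx := Bx.mk (St.mk (I.mix (nat_lit 17104896) (nat_lit 43483136)) (I.mix (nat_lit 46497792) (nat_lit 15171584)) (I.neg (nat_lit 46284800) (nat_lit 63455232)) (I.pos (nat_lit 257179648) (nat_lit 276168704)) (I.mix (nat_lit 74072064) (nat_lit 44990464)) (I.mix (nat_lit 43876352) (nat_lit 49020928)) (I.mix (nat_lit 13467648) (nat_lit 19791872)))
  false (nat_lit 0)
def b2_8 : Bx := Bx.mk (St.mk (I.pos (nat_lit 153812992) (nat_lit 219791360)) (I.pos (nat_lit 22495232) (nat_lit 91439104)) (I.mix (nat_lit 25444352) (nat_lit 78004224)) (I.pos (nat_lit 395476992) (nat_lit 462372864)) (I.mix (nat_lit 147210240) (nat_lit 119635968)) (I.mix (nat_lit 107921408) (nat_lit 90030080)) (I.mix (nat_lit 161300480) (nat_lit 122716160)))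
  false (nat_lit 140438354)
def b2_9 : Bx := Bx.mk (St.mk (I.pos (nat_lit 5685248) (nat_lit 46399488)) (I.neg (nat_lit 22822912) (nat_lit 73646080)) (I.neg (nat_lit 47497216) (nat_lit 74366976)) (I.pos (nat_lit 262045696) (nat_lit 284131328)) (I.mix (nat_lit 129957888) (nat_lit 56393728)) (I.mix (nat_lit 55459840) (nat_lit 98549760)) (I.mix (nat_lit 37535744) (nat_lit 35913728)))
  false (nat_lit 36389424)
def t2 : BTr := (BTr.n (BTr.n (BTr.n (BTr.b b2_0) (BTr.b b2_1)) (BTr.n (BTr.b b2_2) (BTr.n (BTr.b b2_3) (BTr.b b2_4)))) (BTr.n (BTr.n (BTr.b b2_5) (BTr.b b2_6)) (BTr.n (BTr.b b2_7) (BTr.n (BTr.b b2_8) (BTr.b b2_9)))))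
namespace T2
def l0 : Tr := Tr.L (Pth.l (Pth.l (Pth.l Pth.z)))
def l1 : Tr := Tr.L (Pth.l (Pth.l (Pth.r Pth.z)))
def l2 : Tr := Tr.L (Pth.l (Pth.r (Pth.l Pth.z)))
def l3 : Tr := Tr.L (Pth.l (Pth.r (Pth.r (Pth.l Pth.z))))
def l4 : Tr := Tr.L (Pth.l (Pth.r (Pth.r (Pth.r Pth.z))))
def l5 : Tr := Tr.L (Pth.r (Pth.l (Pth.l Pth.z)))
def l6 : Tr := Tr.L (Pth.r (Pth.l (Pth.r Pth.z)))
def l7 : Tr := Tr.L (Pth.r (Pth.r (Pth.l Pth.z)))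
def l8 : Tr := Tr.L (Pth.r (Pth.r (Pth.r (Pth.l Pth.z))))
def l9 : Tr := Tr.L (Pth.r (Pth.r (Pth.r (Pth.r Pth.z))))
end T2
def b3_0 : Bx := Bx.mk (St.mk (I.pos (nat_lit 158564352) (nat_lit 231047168)) (I.mix (nat_lit 1359872) (nat_lit 40599552)) (I.mix (nat_lit 2949120) (nat_lit 98353152)) (I.pos (nat_lit 93831168) (nat_lit 199753728)) (I.mix (nat_lit 101679104) (nat_lit 62439424)) (I.mix (nat_lit 75579392) (nat_lit 68845568)) (I.mix (nat_lit 110542848) (nat_lit 88506368)))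
  false (nat_lit 21113267)
def b3_1 : Bx := Bx.mk (St.mk (I.pos (nat_lit 117686272) (nat_lit 178749440)) (I.neg (nat_lit 3293184) (nat_lit 52707328)) (I.mix (nat_lit 39124992) (nat_lit 17530880)) (I.pos (nat_lit 74874880) (nat_lit 132202496)) (I.mix (nat_lit 86933504) (nat_lit 64241664)) (I.mix (nat_lit 54165504) (nat_lit 60882944)) (I.mix (nat_lit 49971200) (nat_lit 63733760)))
  false (nat_lit 75953031)
def b3_2 : Bx := Bx.mk (St.mk (I.mix (nat_lit 7208960) (nat_lit 114278400)) (I.mix (nat_lit 24150016) (nat_lit 1687552)) (I.mix (nat_lit 9912320) (nat_lit 10321920)) (I.mix (nat_lit 2408448) (nat_lit 63406080)) (I.mix (nat_lit 32882688) (nat_lit 35209216)) (I.mix (nat_lit 21790720) (nat_lit 27656192)) (I.mix (nat_lit 13615104) (nat_lit 18612224)))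
  false (nat_lit 0)
def b3_3 : Bx := Bx.mk (St.mk (I.pos (nat_lit 162381824) (nat_lit 204308480)) (I.mix (nat_lit 15335424) (nat_lit 33390592)) (I.pos (nat_lit 13533184) (nat_lit 81690624)) (I.pos (nat_lit 101810176) (nat_lit 166543360)) (I.mix (nat_lit 129253376) (nat_lit 57622528)) (I.mix (nat_lit 110034944) (nat_lit 65617920)) (I.mix (nat_lit 128696320) (nat_lit 57360384)))
  false (nat_lit 38105269)
def b3_4 : Bx := Bx.mk (St.mk (I.mix (nat_lit 13336576) (nat_lit 129253376)) (I.mix (nat_lit 12845056) (nat_lit 26132480)) (I.mix (nat_lit 1441792) (nat_lit 33669120)) (I.mix (nat_lit 2768896) (nat_lit 75907072)) (I.mix (nat_lit 67567616) (nat_lit 39682048)) (I.mix (nat_lit 56606720) (nat_lit 31162368)) (I.mix (nat_lit 41943040) (nat_lit 19431424)))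
  false (nat_lit 6499015)
def b3_5 : Bx := Bx.mk (St.mk (I.pos (nat_lit 161284096) (nat_lit 207863808)) (I.mix (nat_lit 40992768) (nat_lit 14909440)) (I.mix (nat_lit 18415616) (nat_lit 55083008)) (I.pos (nat_lit 99516416) (nat_lit 170786816)) (I.mix (nat_lit 108331008) (nat_lit 84279296)) (I.mix (nat_lit 106283008) (nat_lit 70074368)) (I.mix (nat_lit 115654656) (nat_lit 71827456)))
  false (nat_lit 83730530)
def b3_6 : Bx := Bx.mk (St.mk (I.mix (nat_lit 15679488) (nat_lit 127270912)) (I.mix (nat_lit 15941632) (nat_lit 2211840)) (I.mix (nat_lit 1736704) (nat_lit 11108352)) (I.mix (nat_lit 2588672) (nat_lit 69976064)) (I.mix (nat_lit 29818880) (nat_lit 21741568)) (I.mix (nat_lit 17924096) (nat_lit 21413888)) (I.mix (nat_lit 13189120) (nat_lit 12664832)))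
  false (nat_lit 0)
def b3_7 : Bx := Bx.mk (St.mk (I.pos (nat_lit 144424960) (nat_lit 183762944)) (I.neg (nat_lit 1458176) (nat_lit 35061760)) (I.mix (nat_lit 12025856) (nat_lit 23347200)) (I.pos (nat_lit 90374144) (nat_lit 138100736)) (I.mix (nat_lit 73170944) (nat_lit 51920896)) (I.mix (nat_lit 37502976) (nat_lit 52871168)) (I.mix (nat_lit 43171840) (nat_lit 49037312)))
  false (nat_lit 24882330)
def b3_8 : Bx := Bx.mk (St.mk (I.pos (nat_lit 160399360) (nat_lit 193921024)) (I.neg (nat_lit 7274496) (nat_lit 34914304)) (I.mix (nat_lit 13287424) (nat_lit 20512768)) (I.pos (nat_lit 104300544) (nat_lit 154583040)) (I.mix (nat_lit 46137344) (nat_lit 41123840)) (I.mix (nat_lit 37339136) (nat_lit 29327360)) (I.mix (nat_lit 37584896) (nat_lit 29786112)))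
  false (nat_lit 0)
def b3_9 : Bx := Bx.mk (St.mk (I.pos (nat_lit 78282752) (nat_lit 141295616)) (I.mix (nat_lit 7684096) (nat_lit 17285120)) (I.pos (nat_lit 835584) (nat_lit 25772032)) (I.pos (nat_lit 26198016) (nat_lit 90619904)) (I.mix (nat_lit 36225024) (nat_lit 24952832)) (I.mix (nat_lit 24297472) (nat_lit 17317888)) (I.mix (nat_lit 21643264) (nat_lit 13434880)))
  false (nat_lit 0)
def b3_10 : Bx := Bx.mk (St.mk (I.pos (nat_lit 114999296) (nat_lit 161234944)) (I.mix (nat_lit 48988160) (nat_lit 10010624)) (I.mix (nat_lit 33570816) (nat_lit 22315008)) (I.pos (nat_lit 51429376) (nat_lit 111591424)) (I.mix (nat_lit 86704128) (nat_lit 56672256)) (I.mix (nat_lit 46759936) (nat_lit 70811648)) (I.mix (nat_lit 38715392) (nat_lit 56213504)))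
  false (nat_lit 42906325)
def b3_11 : Bx := Bx.mk (St.mk (I.pos (nat_lit 51085312) (nat_lit 107462656)) (I.mix (nat_lit 24264704) (nat_lit 3866624)) (I.mix (nat_lit 8781824) (nat_lit 8880128)) (I.pos (nat_lit 8601600) (nat_lit 59686912)) (I.mix (nat_lit 34029568) (nat_lit 20316160)) (I.mix (nat_lit 17907712) (nat_lit 26673152)) (I.mix (nat_lit 9781248) (nat_lit 14942208)))
  false (nat_lit 0)
def b3_12 : Bx := Bx.mk (St.mk (I.pos (nat_lit 190414848) (nat_lit 284016640)) (I.mix (nat_lit 24248320) (nat_lit 30441472)) (I.mix (nat_lit 12140544) (nat_lit 88358912)) (I.pos (nat_lit 153747456) (nat_lit 321339392)) (I.mix (nat_lit 101482496) (nat_lit 71516160)) (I.mix (nat_lit 75022336) (nat_lit 54001664)) (I.mix (nat_lit 124846080) (nat_lit 89882624)))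
  false (nat_lit 68626814)
def b3_13 : Bx := Bx.mk (St.mk (I.pos (nat_lit 182779904) (nat_lit 229916672)) (I.pos (nat_lit 4620288) (nat_lit 39059456)) (I.pos (nat_lit 32374784) (nat_lit 95944704)) (I.pos (nat_lit 145145856) (nat_lit 197902336)) (I.mix (nat_lit 106332160) (nat_lit 76922880)) (I.mix (nat_lit 86032384) (nat_lit 67207168)) (I.mix (nat_lit 131481600) (nat_lit 87244800)))
  false (nat_lit 49685123)
def t3 : BTr := (BTr.n (BTr.n (BTr.n (BTr.b b3_0) (BTr.n (BTr.b b3_1) (BTr.b b3_2))) (BTr.n (BTr.n (BTr.b b3_3) (BTr.b b3_4)) (BTr.n (BTr.b b3_5) (BTr.b b3_6)))) (BTr.n (BTr.n (BTr.b b3_7) (BTr.n (BTr.b b3_8) (BTr.b b3_9))) (BTr.n (BTr.n (BTr.b b3_10) (BTr.b b3_11)) (BTr.n (BTr.b b3_12) (BTr.b b3_13)))))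
namespace T3
def l0 : Tr := Tr.L (Pth.l (Pth.l (Pth.l Pth.z)))
def l1 : Tr := Tr.L (Pth.l (Pth.l (Pth.r (Pth.l Pth.z))))
def l2 : Tr := Tr.L (Pth.l (Pth.l (Pth.r (Pth.r Pth.z))))
def l3 : Tr := Tr.L (Pth.l (Pth.r (Pth.l (Pth.l Pth.z))))
def l4 : Tr := Tr.L (Pth.l (Pth.r (Pth.l (Pth.r Pth.z))))
def l5 : Tr := Tr.L (Pth.l (Pth.r (Pth.r (Pth.l Pth.z))))
def l6 : Tr := Tr.L (Pth.l (Pth.r (Pth.r (Pth.r Pth.z))))
def l7 : Tr := Tr.L (Pth.r (Pth.l (Pth.l Pth.z)))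
def l8 : Tr := Tr.L (Pth.r (Pth.l (Pth.r (Pth.l Pth.z))))
def l9 : Tr := Tr.L (Pth.r (Pth.l (Pth.r (Pth.r Pth.z))))
def l10 : Tr := Tr.L (Pth.r (Pth.r (Pth.l (Pth.l Pth.z))))
def l11 : Tr := Tr.L (Pth.r (Pth.r (Pth.l (Pth.r Pth.z))))
def l12 : Tr := Tr.L (Pth.r (Pth.r (Pth.r (Pth.l Pth.z))))
def l13 : Tr := Tr.L (Pth.r (Pth.r (Pth.r (Pth.r Pth.z))))
end T3
def b4_0 : Bx := Bx.mk (St.mk (I.pos (nat_lit 130072576) (nat_lit 217612288)) (I.mix (nat_lit 2670592) (nat_lit 88260608)) (I.mix (nat_lit 3407872) (nat_lit 111542272)) (I.pos (nat_lit 361807872) (nat_lit 451821568)) (I.mix (nat_lit 181207040) (nat_lit 113950720)) (I.mix (nat_lit 104235008) (nat_lit 101629952)) (I.mix (nat_lit 124944384) (nat_lit 132481024)))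
  false (nat_lit 137615769)
def b4_1 : Bx := Bx.mk (St.mk (I.pos (nat_lit 21823488) (nat_lit 130793472)) (I.neg (nat_lit 8486912) (nat_lit 92585984)) (I.mix (nat_lit 68534272) (nat_lit 20201472)) (I.pos (nat_lit 267714560) (nat_lit 335937536)) (I.mix (nat_lit 134414336) (nat_lit 94699520)) (I.mix (nat_lit 90144768) (nat_lit 87425024)) (I.mix (nat_lit 90406912) (nat_lit 72712192)))
  false (nat_lit 144419941)
def b4_2 : Bx := Bx.mk (St.mk (I.pos (nat_lit 89587712) (nat_lit 178487296)) (I.mix (nat_lit 37765120) (nat_lit 79183872)) (I.mix (nat_lit 15695872) (nat_lit 109920256)) (I.pos (nat_lit 297451520) (nat_lit 412057600)) (I.mix (nat_lit 181731328) (nat_lit 96550912)) (I.mix (nat_lit 137707520) (nat_lit 105480192)) (I.mix (nat_lit 140640256) (nat_lit 136675328)))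
  false (nat_lit 104530158)
def b4_3 : Bx := Bx.mk (St.mk (I.neg (nat_lit 21839872) (nat_lit 130777088)) (I.pos (nat_lit 4390912) (nat_lit 92585984)) (I.mix (nat_lit 68534272) (nat_lit 22986752)) (I.pos (nat_lit 267714560) (nat_lit 336216064)) (I.mix (nat_lit 94699520) (nat_lit 134430720)) (I.mix (nat_lit 87425024) (nat_lit 90144768)) (I.mix (nat_lit 90406912) (nat_lit 72679424)))
  true (nat_lit 75748519)
def b4_4 : Bx := Bx.mk (St.mk (I.mix (nat_lit 57425920) (nat_lit 12484608)) (I.mix (nat_lit 9814016) (nat_lit 84508672)) (I.neg (nat_lit 26968064) (nat_lit 56115200)) (I.pos (nat_lit 260308992) (nat_lit 294682624)) (I.mix (nat_lit 65224704) (nat_lit 128598016)) (I.mix (nat_lit 87080960) (nat_lit 71892992)) (I.mix (nat_lit 47923200) (nat_lit 33619968)))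
  true (nat_lit 2554221)
def b4_5 : Bx := Bx.mk (St.mk (I.pos (nat_lit 12025856) (nat_lit 56541184)) (I.neg (nat_lit 33226752) (nat_lit 85114880)) (I.neg (nat_lit 28606464) (nat_lit 56115200)) (I.pos (nat_lit 267829248) (nat_lit 295223296)) (I.mix (nat_lit 128598016) (nat_lit 65224704)) (I.mix (nat_lit 71892992) (nat_lit 86163456)) (I.mix (nat_lit 47923200) (nat_lit 33619968)))
  false (nat_lit 71301425)
def b4_6 : Bx := Bx.mk (St.mk (I.pos (nat_lit 181125120) (nat_lit 289062912)) (I.mix (nat_lit 18677760) (nat_lit 62881792)) (I.mix (nat_lit 106086400) (nat_lit 58408960)) (I.pos (nat_lit 408059904) (nat_lit 569556992)) (I.mix (nat_lit 99909632) (nat_lit 97009664)) (I.mix (nat_lit 76546048) (nat_lit 71450624)) (I.mix (nat_lit 115245056) (nat_lit 105775104)))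
  false (nat_lit 156289684)
def b4_7 : Bx := Bx.mk (St.mk (I.mix (nat_lit 11599872) (nat_lit 50921472)) (I.mix (nat_lit 52674560) (nat_lit 8880128)) (I.neg (nat_lit 27148288) (nat_lit 43696128)) (I.pos (nat_lit 261128192) (nat_lit 282001408)) (I.mix (nat_lit 72286208) (nat_lit 49364992)) (I.mix (nat_lit 45662208) (nat_lit 47808512)) (I.mix (nat_lit 14811136) (nat_lit 15974400)))
  false (nat_lit 0)
def b4_8 : Bx := Bx.mk (St.mk (I.pos (nat_lit 147849216) (nat_lit 207224832)) (I.pos (nat_lit 24690688) (nat_lit 83279872)) (I.pos (nat_lit 10731520) (nat_lit 99303424)) (I.pos (nat_lit 378535936) (nat_lit 437862400)) (I.mix (nat_lit 146309120) (nat_lit 102023168)) (I.mix (nat_lit 102580224) (nat_lit 71778304)) (I.mix (nat_lit 140935168) (nat_lit 105594880)))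
  false (nat_lit 123368901)
def b4_9 : Bx := Bx.mk (St.mk (I.pos (nat_lit 16990208) (nat_lit 53493760)) (I.neg (nat_lit 25837568) (nat_lit 74219520)) (I.neg (nat_lit 27770880) (nat_lit 52625408)) (I.pos (nat_lit 268353536) (nat_lit 287948800)) (I.mix (nat_lit 108380160) (nat_lit 58982400)) (I.mix (nat_lit 50839552) (nat_lit 87097344)) (I.mix (nat_lit 31096832) (nat_lit 28196864)))
  false (nat_lit 19521135)
def t4 : BTr := (BTr.n (BTr.n (BTr.n (BTr.b b4_0) (BTr.b b4_1)) (BTr.n (BTr.b b4_2) (BTr.n (BTr.b b4_3) (BTr.b b4_4)))) (BTr.n (BTr.n (BTr.b b4_5) (BTr.b b4_6)) (BTr.n (BTr.b b4_7) (BTr.n (BTr.b b4_8) (BTr.b b4_9)))))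
namespace T4
def l0 : Tr := Tr.L (Pth.l (Pth.l (Pth.l Pth.z)))
def l1 : Tr := Tr.L (Pth.l (Pth.l (Pth.r Pth.z)))
def l2 : Tr := Tr.L (Pth.l (Pth.r (Pth.l Pth.z)))
def l3 : Tr := Tr.L (Pth.l (Pth.r (Pth.r (Pth.l Pth.z))))
def l4 : Tr := Tr.L (Pth.l (Pth.r (Pth.r (Pth.r Pth.z))))
def l5 : Tr := Tr.L (Pth.r (Pth.l (Pth.l Pth.z)))
def l6 : Tr := Tr.L (Pth.r (Pth.l (Pth.r Pth.z)))
def l7 : Tr := Tr.L (Pth.r (Pth.r (Pth.l Pth.z)))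
def l8 : Tr := Tr.L (Pth.r (Pth.r (Pth.r (Pth.l Pth.z))))
def l9 : Tr := Tr.L (Pth.r (Pth.r (Pth.r (Pth.r Pth.z))))
end T4
def b5_0 : Bx := Bx.mk (St.mk (I.pos (nat_lit 149602304) (nat_lit 224067584)) (I.mix (nat_lit 1540096) (nat_lit 46432256)) (I.mix (nat_lit 3358720) (nat_lit 111083520)) (I.pos (nat_lit 139018240) (nat_lit 239665152)) (I.mix (nat_lit 113590272) (nat_lit 64143360)) (I.mix (nat_lit 83722240) (nat_lit 73138176)) (I.mix (nat_lit 116555776) (nat_lit 86228992)))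
  false (nat_lit 31569907)
def b5_1 : Bx := Bx.mk (St.mk (I.pos (nat_lit 106020864) (nat_lit 169230336)) (I.neg (nat_lit 5308416) (nat_lit 61063168)) (I.mix (nat_lit 35799040) (nat_lit 30031872)) (I.pos (nat_lit 106807296) (nat_lit 165167104)) (I.mix (nat_lit 86130688) (nat_lit 73203712)) (I.mix (nat_lit 55230464) (nat_lit 62046208)) (I.mix (nat_lit 49610752) (nat_lit 59490304)))
  false (nat_lit 142085597)
def b5_2 : Bx := Bx.mk (St.mk (I.mix (nat_lit 18366464) (nat_lit 82083840)) (I.mix (nat_lit 31621120) (nat_lit 3768320)) (I.mix (nat_lit 3489792) (nat_lit 18530304)) (I.pos (nat_lit 41484288) (nat_lit 87752704)) (I.mix (nat_lit 34947072) (nat_lit 49446912)) (I.mix (nat_lit 28672000) (nat_lit 34504704)) (I.mix (nat_lit 13287424) (nat_lit 18153472)))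
  false (nat_lit 53083923)
def b5_3 : Bx := Bx.mk (St.mk (I.pos (nat_lit 151060480) (nat_lit 198213632)) (I.mix (nat_lit 11665408) (nat_lit 42270720)) (I.pos (nat_lit 27541504) (nat_lit 101072896)) (I.pos (nat_lit 129269760) (nat_lit 198721536)) (I.mix (nat_lit 140771328) (nat_lit 57901056)) (I.mix (nat_lit 122191872) (nat_lit 73318400)) (I.mix (nat_lit 132415488) (nat_lit 59801600)))
  false (nat_lit 74365425)
def b5_4 : Bx := Bx.mk (St.mk (I.mix (nat_lit 35815424) (nat_lit 101023744)) (I.mix (nat_lit 12402688) (nat_lit 30294016)) (I.pos (nat_lit 2179072) (nat_lit 36765696)) (I.pos (nat_lit 41058304) (nat_lit 99205120)) (I.mix (nat_lit 75464704) (nat_lit 40517632)) (I.mix (nat_lit 59850752) (nat_lit 34160640)) (I.mix (nat_lit 34963456) (nat_lit 18874368)))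
  false (nat_lit 28370565)
def b5_5 : Bx := Bx.mk (St.mk (I.pos (nat_lit 136839168) (nat_lit 175702016)) (I.neg (nat_lit 2555904) (nat_lit 38764544)) (I.mix (nat_lit 2310144) (nat_lit 37568512)) (I.pos (nat_lit 119750656) (nat_lit 172670976)) (I.mix (nat_lit 70172672) (nat_lit 69615616)) (I.mix (nat_lit 44974080) (nat_lit 60391424)) (I.mix (nat_lit 48824320) (nat_lit 49561600)))
  false (nat_lit 104811635)
def b5_6 : Bx := Bx.mk (St.mk (I.mix (nat_lit 45203456) (nat_lit 84770816)) (I.mix (nat_lit 12124160) (nat_lit 7716864)) (I.pos (nat_lit 4194304) (nat_lit 18317312)) (I.pos (nat_lit 41926656) (nat_lit 88965120)) (I.mix (nat_lit 24330240) (nat_lit 21594112)) (I.mix (nat_lit 16662528) (nat_lit 17514496)) (I.mix (nat_lit 8208384) (nat_lit 8765440)))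
  false (nat_lit 0)
def b5_7 : Bx := Bx.mk (St.mk (I.pos (nat_lit 150634496) (nat_lit 188907520)) (I.neg (nat_lit 6995968) (nat_lit 39239680)) (I.mix (nat_lit 5521408) (nat_lit 33701888)) (I.pos (nat_lit 132268032) (nat_lit 191889408)) (I.mix (nat_lit 64471040) (nat_lit 67076096)) (I.mix (nat_lit 61947904) (nat_lit 49496064)) (I.mix (nat_lit 57999360) (nat_lit 47579136)))
  false (nat_lit 94917057)
def b5_8 : Bx := Bx.mk (St.mk (I.pos (nat_lit 150880256) (nat_lit 200294400)) (I.mix (nat_lit 40730624) (nat_lit 20316160)) (I.mix (nat_lit 4997120) (nat_lit 70762496)) (I.pos (nat_lit 130695168) (nat_lit 202571776)) (I.mix (nat_lit 123305984) (nat_lit 86949888)) (I.mix (nat_lit 111411200) (nat_lit 76775424)) (I.mix (nat_lit 115032064) (nat_lit 66994176)))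
  false (nat_lit 72671594)
def b5_9 : Bx := Bx.mk (St.mk (I.pos (nat_lit 64176128) (nat_lit 116850688)) (I.mix (nat_lit 5455872) (nat_lit 22937600)) (I.pos (nat_lit 3899392) (nat_lit 30310400)) (I.pos (nat_lit 63045632) (nat_lit 113115136)) (I.mix (nat_lit 44597248) (nat_lit 27000832)) (I.mix (nat_lit 30228480) (nat_lit 21168128)) (I.mix (nat_lit 21217280) (nat_lit 14139392)))
  false (nat_lit 0)
def b5_10 : Bx := Bx.mk (St.mk (I.pos (nat_lit 94404608) (nat_lit 148963328)) (I.mix (nat_lit 59195392) (nat_lit 8650752)) (I.mix (nat_lit 30670848) (nat_lit 23199744)) (I.pos (nat_lit 78921728) (nat_lit 145571840)) (I.mix (nat_lit 84312064) (nat_lit 65126400)) (I.mix (nat_lit 52609024) (nat_lit 67993600)) (I.mix (nat_lit 34570240) (nat_lit 46759936)))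
  false (nat_lit 106340783)
def b5_11 : Bx := Bx.mk (St.mk (I.mix (nat_lit 36339712) (nat_lit 82149376)) (I.mix (nat_lit 31997952) (nat_lit 4374528)) (I.mix (nat_lit 2506752) (nat_lit 14614528)) (I.pos (nat_lit 41402368) (nat_lit 85852160)) (I.mix (nat_lit 31621120) (nat_lit 32931840)) (I.mix (nat_lit 21512192) (nat_lit 27099136)) (I.mix (nat_lit 8257536) (nat_lit 10534912)))
  false (nat_lit 25925221)
def b5_12 : Bx := Bx.mk (St.mk (I.pos (nat_lit 187072512) (nat_lit 283803648)) (I.mix (nat_lit 14974976) (nat_lit 34979840)) (I.pos (nat_lit 9224192) (nat_lit 98893824)) (I.pos (nat_lit 189661184) (nat_lit 357040128)) (I.mix (nat_lit 98877440) (nat_lit 76627968)) (I.mix (nat_lit 73220096) (nat_lit 55066624)) (I.mix (nat_lit 118030336) (nat_lit 88424448)))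
  false (nat_lit 56875076)
def b5_13 : Bx := Bx.mk (St.mk (I.pos (nat_lit 174063616) (nat_lit 222904320)) (I.pos (nat_lit 6602752) (nat_lit 42844160)) (I.pos (nat_lit 42336256) (nat_lit 106397696)) (I.pos (nat_lit 172965888) (nat_lit 228048896)) (I.mix (nat_lit 111771648) (nat_lit 78528512)) (I.mix (nat_lit 89227264) (nat_lit 66338816)) (I.mix (nat_lit 129515520) (nat_lit 78282752)))
  false (nat_lit 30460512)
def t5 : BTr := (BTr.n (BTr.n (BTr.n (BTr.b b5_0) (BTr.n (BTr.b b5_1) (BTr.b b5_2))) (BTr.n (BTr.n (BTr.b b5_3) (BTr.b b5_4)) (BTr.n (BTr.b b5_5) (BTr.b b5_6)))) (BTr.n (BTr.n (BTr.b b5_7) (BTr.n (BTr.b b5_8) (BTr.b b5_9))) (BTr.n (BTr.n (BTr.b b5_10) (BTr.b b5_11)) (BTr.n (BTr.b b5_12) (BTr.b b5_13)))))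
namespace T5
def l0 : Tr := Tr.L (Pth.l (Pth.l (Pth.l Pth.z)))
def l1 : Tr := Tr.L (Pth.l (Pth.l (Pth.r (Pth.l Pth.z))))
def l2 : Tr := Tr.L (Pth.l (Pth.l (Pth.r (Pth.r Pth.z))))
def l3 : Tr := Tr.L (Pth.l (Pth.r (Pth.l (Pth.l Pth.z))))
def l4 : Tr := Tr.L (Pth.l (Pth.r (Pth.l (Pth.r Pth.z))))
def l5 : Tr := Tr.L (Pth.l (Pth.r (Pth.r (Pth.l Pth.z))))
def l6 : Tr := Tr.L (Pth.l (Pth.r (Pth.r (Pth.r Pth.z))))
def l7 : Tr := Tr.L (Pth.r (Pth.l (Pth.l Pth.z)))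
def l8 : Tr := Tr.L (Pth.r (Pth.l (Pth.r (Pth.l Pth.z))))
def l9 : Tr := Tr.L (Pth.r (Pth.l (Pth.r (Pth.r Pth.z))))
def l10 : Tr := Tr.L (Pth.r (Pth.r (Pth.l (Pth.l Pth.z))))
def l11 : Tr := Tr.L (Pth.r (Pth.r (Pth.l (Pth.r Pth.z))))
def l12 : Tr := Tr.L (Pth.r (Pth.r (Pth.r (Pth.l Pth.z))))
def l13 : Tr := Tr.L (Pth.r (Pth.r (Pth.r (Pth.r Pth.z))))
end T5
theorem bx0_0 : BoxOK sI cl4 cl7 cl13 t2 t4 b0_0 :=
  box_mk (TrL.c (I.pos (nat_lit 0) (nat_lit 0)) (xa (xb (xa (xb T2.l0 T2.l0) T2.l0) (xa (xb T2.l0 (xa T2.l0 T2.l0)) (xb T2.l0 (xa T2.l0 T2.l0)))) (xb (xa T2.l0 T2.l0) (xa (xb T2.l0 (xa T2.l0 T2.l0)) (xb T2.l0 (xa (xb T2.l0 T2.l0) (xb T2.l0 T2.l0))))))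
  (TrL.c (I.pos (nat_lit 0) (nat_lit 0)) (xa (xb T4.l1 T4.l1) (xb T4.l1 (xa T4.l1 T4.l1)))
  (TrL.c (I.pos (nat_lit 0) (nat_lit 0)) (xa T2.l1 (xb T2.l1 T2.l1))
  (TrL.c (I.pos (nat_lit 0) (nat_lit 0)) (xa (xb T4.l2 T4.l2) (xb (xa T4.l2 (xb T4.l2 T4.l2)) (xa (xb T4.l2 T4.l2) (xb (xa T4.l2 (xd T4.l2 T4.l2)) (xa (xd T4.l2 T4.l2) (xd (xe T4.l2 T4.l2) (xe T4.l2 T4.l2)))))))
  (TrL.c (I.pos (nat_lit 0) (nat_lit 0)) (xa T2.l2 (xb T2.l2 T2.l2))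
  (TrL.c (I.pos (nat_lit 0) (nat_lit 0)) (xa (xb T4.l3 T4.l3) (xb T4.l3 (xa T4.l3 T4.l3)))
  TrL.n)))))) (by decide +kernel)
theorem bx0_1 : BoxOK sI cl4 cl7 cl13 t2 t4 b0_1 :=
  box_mk (TrL.c (I.pos (nat_lit 0) (nat_lit 0)) (xa (xa (xb (xa (xb T2.l6 T2.l6) T2.l6) (xa T2.l6 T2.l6)) T2.l6) (xa T2.l6 (xb T2.l6 (xa T2.l6 T2.l6))))
  (TrL.c (I.pos (nat_lit 0) (nat_lit 0)) T4.l1
  (TrL.c (I.pos (nat_lit 0) (nat_lit 0)) T2.l1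
  (TrL.c (I.pos (nat_lit 0) (nat_lit 0)) T4.l2
  (TrL.c (I.pos (nat_lit 0) (nat_lit 0)) T2.l7
  (TrL.c (I.pos (nat_lit 0) (nat_lit 0)) T4.l3
  TrL.n)))))) (by decide +kernel)
theorem bx0_2 : BoxOK sI cl4 cl7 cl13 t2 t4 b0_2 :=
  box_mk (TrL.c (I.pos (nat_lit 0) (nat_lit 0)) (xb (xa (xb T2.l6 T2.l6) (xb T2.l6 T2.l6)) (xa (xb T2.l6 T2.l6) T2.l6))
  (TrL.c (I.pos (nat_lit 0) (nat_lit 0)) T4.l1
  (TrL.c (I.pos (nat_lit 0) (nat_lit 0)) T2.l1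
  (TrL.c (I.pos (nat_lit 0) (nat_lit 0)) T4.l2
  (TrL.c (I.pos (nat_lit 0) (nat_lit 0)) T2.l7
  (TrL.c (I.pos (nat_lit 0) (nat_lit 0)) T4.l3
  TrL.n)))))) (by decide +kernel)
theorem bx0_3 : BoxOK sI cl4 cl7 cl13 t2 t4 b0_3 :=
  box_mk (TrL.c (I.pos (nat_lit 0) (nat_lit 0)) (xa (xa (xb (xa (xb (xa T2.l6 T2.l6) T2.l6) T2.l6) T2.l6) T2.l6) T2.l6)
  (TrL.c (I.pos (nat_lit 0) (nat_lit 0)) (xa T4.l2 T4.l1)
  (TrL.c (I.pos (nat_lit 0) (nat_lit 0)) T2.l1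
  (TrL.c (I.pos (nat_lit 0) (nat_lit 0)) (xa T4.l1 T4.l2)
  (TrL.c (I.pos (nat_lit 0) (nat_lit 0)) T2.l7
  (TrL.c (I.pos (nat_lit 0) (nat_lit 0)) (xa T4.l3 T4.l3)
  TrL.n)))))) (by decide +kernel)
theorem bx0_4 : BoxOK sI cl4 cl7 cl13 t2 t4 b0_4 :=
  box_mk (TrL.c (I.pos (nat_lit 0) (nat_lit 0)) T2.l6
  (TrL.c (I.pos (nat_lit 0) (nat_lit 0)) T4.l1
  (TrL.c (I.pos (nat_lit 0) (nat_lit 0)) T2.l1
  (TrL.c (I.pos (nat_lit 0) (nat_lit 0)) T4.l2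
  (TrL.c (I.pos (nat_lit 0) (nat_lit 0)) T2.l7
  (TrL.c (I.pos (nat_lit 0) (nat_lit 0)) T4.l3
  TrL.n)))))) (by decide +kernel)
theorem bx0_5 : BoxOK sI cl4 cl7 cl13 t2 t4 b0_5 :=
  box_mk (TrL.c (I.pos (nat_lit 0) (nat_lit 0)) (xa (xa (xa (xb (xa T2.l6 T2.l6) T2.l6) T2.l6) T2.l6) T2.l6)
  (TrL.c (I.pos (nat_lit 0) (nat_lit 0)) T4.l1
  (TrL.c (I.pos (nat_lit 0) (nat_lit 0)) T2.l1
  (TrL.c (I.pos (nat_lit 0) (nat_lit 0)) T4.l2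
  (TrL.c (I.pos (nat_lit 0) (nat_lit 0)) T2.l7
  (TrL.c (I.pos (nat_lit 0) (nat_lit 0)) T4.l3
  TrL.n)))))) (by decide +kernel)
theorem bx0_6 : BoxOK sI cl4 cl7 cl13 t2 t4 b0_6 :=
  box_mk (TrL.c (I.pos (nat_lit 0) (nat_lit 0)) (xa T2.l0 T2.l4)
  (TrL.c (I.pos (nat_lit 0) (nat_lit 0)) (xa T4.l1 T4.l1)
  (TrL.c (I.pos (nat_lit 0) (nat_lit 0)) T2.l5
  (TrL.c (I.pos (nat_lit 0) (nat_lit 0)) (xa T4.l2 (xb T4.l0 T4.l2))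
  (TrL.c (I.pos (nat_lit 0) (nat_lit 0)) T2.l3
  (TrL.c (I.pos (nat_lit 0) (nat_lit 0)) (xa T4.l3 T4.l3)
  TrL.n)))))) (by decide +kernel)
theorem c0_7_0 : chkTag sI cl4 cl7 cl13 t2 b0_7 (tg true true false RT.r2) (I.pos (nat_lit 0) (nat_lit 0))
  (xb (xa (xb (xa T2.l0 T2.l0) (xa (xb T2.l0 T2.l0) T2.l0)) (xb (xa T2.l0 T2.l4) (xa T2.l0 (xb T2.l0 T2.l0)))) (xa (xb (xa (xb T2.l0 (xc T2.l0 T2.l0)) (xb T2.l0 T2.l0)) (xa (xb (xc T2.l0 T2.l0) (xa T2.l0 T2.l0)) (xb (xa T2.l0 T2.l0) (xa T2.l0 T2.l0)))) (xb (xa (xb T2.l0 T2.l0) (xb T2.l0 T2.l0)) (xa (xb T2.l0 (xa T2.l0 T2.l0)) (xb (xa T2.l0 T2.l0) (xa T2.l0 T2.l0)))))) = true := by decide +kernel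
theorem c0_7_1 : chkTag sI cl4 cl7 cl13 t4 b0_7 (tg true false false RT.r3) (I.pos (nat_lit 0) (nat_lit 0))
  (xb (xa T4.l1 (xb T4.l1 T4.l1)) (xa T4.l1 (xb T4.l1 T4.l1))) = true := by decide +kernel
theorem c0_7_2 : chkTag sI cl4 cl7 cl13 t2 b0_7 (tg true true true RT.r4) (I.pos (nat_lit 0) (nat_lit 0))
  (xc (xb T2.l5 (xa T2.l1 T2.l5)) (xb T2.l5 (xa T2.l1 T2.l5))) = true := by decide +kernel
theorem c0_7_3 : chkTag sI cl4 cl7 cl13 t4 b0_7 (tg false false false RT.r3) (I.pos (nat_lit 0) (nat_lit 0))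
  (xb (xa (xb (xc (xa T4.l2 T4.l2) (xa T4.l2 T4.l2)) (xc T4.l2 T4.l2)) (xb (xc (xa (xb (xd T4.l2 T4.l2) T4.l2) (xb (xd (xe T4.l2 T4.l2) (xe T4.l2 T4.l2)) (xd T4.l2 (xe T4.l2 T4.l2)))) (xa (xb (xd T4.l2 T4.l2) T4.l2) (xd (xe (xb T4.l2 T4.l2) T4.l2) (xe (xb T4.l2 T4.l2) T4.l2)))) (xc (xa T4.l2 (xd T4.l2 (xe T4.l2 T4.l2))) (xa T4.l2 (xd T4.l2 T4.l2))))) (xa (xb (xc T4.l2 T4.l2) (xc T4.l2 (xa T4.l2 T4.l2))) (xb (xc (xa T4.l2 (xd (xe T4.l2 T4.l2) (xb T4.l2 (xe T4.l2 T4.l2)))) (xa T4.l2 (xd (xe T4.l2 T4.l2) (xe T4.l2 T4.l2)))) (xc (xa (xb T4.l2 (xd T4.l2 T4.l2)) (xb (xd (xe T4.l2 T4.l2) (xe T4.l2 T4.l2)) (xd (xe T4.l2 T4.l2) (xe T4.l2 T4.l2)))) (xa (xd T4.l2 T4.l2) (xd (xe (xb T4.l2 T4.l2) (xb T4.l2 T4.l2)) (xe (xb T4.l2 T4.l2) (xb T4.l2 T4.l2)))))))) = true := by decide +kernel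
theorem c0_7_4 : chkTag sI cl4 cl7 cl13 t2 b0_7 (tg false true false RT.r4) (I.pos (nat_lit 0) (nat_lit 0))
  (xc (xb T2.l3 (xa T2.l2 T2.l3)) (xb T2.l3 (xa T2.l2 T2.l3))) = true := by decide +kernel
theorem c0_7_5 : chkTag sI cl4 cl7 cl13 t4 b0_7 (tg false false true RT.r5) (I.pos (nat_lit 0) (nat_lit 0))
  (xb (xa T4.l3 (xb T4.l3 T4.l3)) (xa T4.l3 (xb T4.l3 T4.l3))) = true := by decide +kernel
theorem bx0_7 : BoxOK sI cl4 cl7 cl13 t2 t4 b0_7 :=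
  box_mk' [(tg true true false RT.r2), (tg true false false RT.r3), (tg true true true RT.r4), (tg false false false RT.r3), (tg false true false RT.r4), (tg false false true RT.r5)] rfl (allL_c (ex_mk c0_7_0) (allL_c (ex_mk c0_7_1) (allL_c (ex_mk c0_7_2) (allL_c (ex_mk c0_7_3) (allL_c (ex_mk c0_7_4) (allL_c (ex_mk c0_7_5) allL_n))))))
theorem bx0_8 : BoxOK sI cl4 cl7 cl13 t2 t4 b0_8 :=
  box_mk (TrL.c (I.pos (nat_lit 0) (nat_lit 0)) (xa (xb (xa T2.l6 T2.l6) T2.l6) (xb (xa T2.l6 T2.l6) (xa T2.l6 T2.l6)))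
  (TrL.c (I.pos (nat_lit 0) (nat_lit 0)) T4.l1
  (TrL.c (I.pos (nat_lit 0) (nat_lit 0)) T2.l1
  (TrL.c (I.pos (nat_lit 0) (nat_lit 0)) T4.l2
  (TrL.c (I.pos (nat_lit 0) (nat_lit 0)) T2.l7
  (TrL.c (I.pos (nat_lit 0) (nat_lit 0)) T4.l3
  TrL.n)))))) (by decide +kernel)
theorem bx0_9 : BoxOK sI cl4 cl7 cl13 t2 t4 b0_9 :=
  box_mk (TrL.c (I.pos (nat_lit 0) (nat_lit 0)) (xa (xa (xb (xa T2.l6 T2.l6) T2.l6) T2.l6) T2.l6)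
  (TrL.c (I.pos (nat_lit 0) (nat_lit 0)) (xa T4.l2 T4.l1)
  (TrL.c (I.pos (nat_lit 0) (nat_lit 0)) T2.l1
  (TrL.c (I.pos (nat_lit 0) (nat_lit 0)) (xa T4.l1 T4.l2)
  (TrL.c (I.pos (nat_lit 0) (nat_lit 0)) T2.l7
  (TrL.c (I.pos (nat_lit 0) (nat_lit 0)) T4.l3
  TrL.n)))))) (by decide +kernel)
theorem bx0_10 : BoxOK sI cl4 cl7 cl13 t2 t4 b0_10 :=
  box_mk (TrL.c (I.pos (nat_lit 0) (nat_lit 0)) (xb (xa (xb T2.l8 T2.l8) (xb (xa T2.l8 T2.l8) (xa T2.l8 T2.l8))) (xa (xb (xa T2.l8 T2.l8) (xa T2.l8 T2.l8)) (xb (xa T2.l8 T2.l8) (xa T2.l8 (xb T2.l8 T2.l8)))))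
  (TrL.c (I.pos (nat_lit 0) (nat_lit 0)) (xb (xa T4.l1 T4.l1) (xa T4.l1 T4.l1))
  (TrL.c (I.pos (nat_lit 0) (nat_lit 0)) (xb T2.l5 T2.l1)
  (TrL.c (I.pos (nat_lit 0) (nat_lit 0)) (xb (xa T4.l2 (xb T4.l2 (xa T4.l2 T4.l2))) (xa (xb T4.l2 T4.l2) (xb (xa T4.l2 (xc T4.l2 (xd T4.l2 T4.l2))) (xa (xc T4.l2 T4.l2) (xc (xd T4.l2 T4.l2) (xd T4.l2 T4.l2))))))
  (TrL.c (I.pos (nat_lit 0) (nat_lit 0)) (xb T2.l3 T2.l9)
  (TrL.c (I.pos (nat_lit 0) (nat_lit 0)) (xb (xa T4.l3 T4.l3) (xa T4.l3 T4.l3))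
  TrL.n)))))) (by decide +kernel)
theorem bx0_11 : BoxOK sI cl4 cl7 cl13 t2 t4 b0_11 :=
  box_mk (TrL.c (I.pos (nat_lit 0) (nat_lit 0)) (xa (xa (xb (xa (xb (xa (xb T2.l6 T2.l6) T2.l6) T2.l6) T2.l6) (xa (xb T2.l6 (xa (xb T2.l6 (xa T2.l6 T2.l6)) T2.l6)) (xb T2.l6 T2.l6))) (xb T2.l6 T2.l6)) (xa T2.l6 (xb T2.l6 (xa T2.l6 (xb T2.l6 T2.l6)))))
  (TrL.c (I.pos (nat_lit 0) (nat_lit 0)) (xa (xa T4.l2 T4.l1) T4.l1)
  (TrL.c (I.pos (nat_lit 0) (nat_lit 0)) (xa T2.l1 T2.l1)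
  (TrL.c (I.pos (nat_lit 0) (nat_lit 0)) (xa T4.l2 T4.l2)
  (TrL.c (I.pos (nat_lit 0) (nat_lit 0)) (xa T2.l7 T2.l7)
  (TrL.c (I.pos (nat_lit 0) (nat_lit 0)) (xa (xa T4.l3 T4.l3) T4.l3)
  TrL.n)))))) (by decide +kernel)
theorem bx0_12 : BoxOK sI cl4 cl7 cl13 t2 t4 b0_12 :=
  box_mk (TrL.c (I.pos (nat_lit 0) (nat_lit 0)) (xa (xb (xa T2.l8 T2.l8) (xa T2.l8 T2.l8)) (xb (xa T2.l8 T2.l0) T2.l8))
  (TrL.c (I.pos (nat_lit 0) (nat_lit 0)) T4.l1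
  (TrL.c (I.pos (nat_lit 0) (nat_lit 0)) (xa T2.l1 T2.l5)
  (TrL.c (I.pos (nat_lit 0) (nat_lit 0)) (xa T4.l2 (xb (xa T4.l2 T4.l2) T4.l2))
  (TrL.c (I.pos (nat_lit 0) (nat_lit 0)) (xa T2.l3 T2.l3)
  (TrL.c (I.pos (nat_lit 0) (nat_lit 0)) T4.l3
  TrL.n)))))) (by decide +kernel)
theorem bx0_13 : BoxOK sI cl4 cl7 cl13 t2 t4 b0_13 :=
  box_mk (TrL.c (I.pos (nat_lit 0) (nat_lit 0)) (xb (xa T2.l0 T2.l0) (xa (xa T2.l8 T2.l8) T2.l0))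
  (TrL.c (I.pos (nat_lit 0) (nat_lit 0)) T4.l1
  (TrL.c (I.pos (nat_lit 0) (nat_lit 0)) T2.l5
  (TrL.c (I.pos (nat_lit 0) (nat_lit 0)) (xb (xa (xb T4.l2 T4.l2) (xa T4.l2 (xb T4.l2 T4.l2))) T4.l2)
  (TrL.c (I.pos (nat_lit 0) (nat_lit 0)) T2.l3
  (TrL.c (I.pos (nat_lit 0) (nat_lit 0)) T4.l3
  TrL.n)))))) (by decide +kernel)
theorem sv0 : StarV sI cl4 cl7 cl13 t2 t4 t0 :=
  (bt_n (bt_n (bt_n (bt_b bx0_0) (bt_n (bt_b bx0_1) (bt_b bx0_2))) (bt_n (bt_n (bt_b bx0_3) (bt_b bx0_4)) (bt_n (bt_b bx0_5) (bt_b bx0_6)))) (bt_n (bt_n (bt_b bx0_7) (bt_n (bt_b bx0_8) (bt_b bx0_9))) (bt_n (bt_n (bt_b bx0_10) (bt_b bx0_11)) (bt_n (bt_b bx0_12) (bt_b bx0_13)))))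
def S0 : StarD := StarD.mk cl4 cl7 cl13 2 4 t0
theorem bx1_0 : BoxOK sI cl4 cl13 cl7 t4 t2 b1_0 :=
  box_mk (TrL.c (I.pos (nat_lit 0) (nat_lit 0)) (xa (xb (xa (xb T4.l0 T4.l0) (xb T4.l0 T4.l0)) (xa (xb (xa T4.l0 T4.l0) (xa T4.l0 T4.l0)) (xb T4.l0 (xa T4.l0 T4.l0)))) (xb (xa T4.l0 (xb T4.l0 T4.l0)) (xa (xb T4.l0 (xa (xb T4.l0 T4.l0) (xb T4.l0 T4.l0))) (xb (xa T4.l0 T4.l0) (xa (xb T4.l0 T4.l0) (xb T4.l0 T4.l0))))))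
  (TrL.c (I.pos (nat_lit 0) (nat_lit 0)) (xa (xb T2.l3 (xa T2.l3 T2.l3)) (xb T2.l3 (xa T2.l3 T2.l3)))
  (TrL.c (I.pos (nat_lit 0) (nat_lit 0)) (xa T4.l4 (xb T4.l4 T4.l4))
  (TrL.c (I.pos (nat_lit 0) (nat_lit 0)) (xa (xb T2.l4 T2.l4) (xb (xa T2.l4 (xb T2.l4 T2.l4)) (xa (xb T2.l4 T2.l4) (xb (xa T2.l4 (xd T2.l4 T2.l4)) (xa (xd T2.l4 T2.l4) (xd T2.l4 T2.l4))))))
  (TrL.c (I.pos (nat_lit 0) (nat_lit 0)) (xa T4.l5 (xb T4.l5 T4.l5))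
  (TrL.c (I.pos (nat_lit 0) (nat_lit 0)) (xa (xb T2.l5 (xa T2.l5 T2.l5)) (xb T2.l5 (xa T2.l5 T2.l5)))
  TrL.n)))))) (by decide +kernel)
theorem bx1_1 : BoxOK sI cl4 cl13 cl7 t4 t2 b1_1 :=
  box_mk (TrL.c (I.pos (nat_lit 0) (nat_lit 0)) (xa (xa T4.l6 T4.l6) (xa T4.l6 (xa T4.l6 T4.l6)))
  (TrL.c (I.pos (nat_lit 0) (nat_lit 0)) (xa T2.l3 T2.l3)
  (TrL.c (I.pos (nat_lit 0) (nat_lit 0)) (xa T4.l4 T4.l4)
  (TrL.c (I.pos (nat_lit 0) (nat_lit 0)) (xa T2.l4 T2.l4)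
  (TrL.c (I.pos (nat_lit 0) (nat_lit 0)) (xa T4.l7 T4.l7)
  (TrL.c (I.pos (nat_lit 0) (nat_lit 0)) (xa T2.l5 T2.l5)
  TrL.n)))))) (by decide +kernel)
theorem bx1_2 : BoxOK sI cl4 cl13 cl7 t4 t2 b1_2 :=
  box_mk (TrL.c (I.pos (nat_lit 0) (nat_lit 0)) (xb (xa T4.l6 T4.l0) (xa (xb T4.l6 T4.l6) T4.l6))
  (TrL.c (I.pos (nat_lit 0) (nat_lit 0)) T2.l3
  (TrL.c (I.pos (nat_lit 0) (nat_lit 0)) T4.l4
  (TrL.c (I.pos (nat_lit 0) (nat_lit 0)) T2.l4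
  (TrL.c (I.pos (nat_lit 0) (nat_lit 0)) T4.l7
  (TrL.c (I.pos (nat_lit 0) (nat_lit 0)) T2.l5
  TrL.n)))))) (by decide +kernel)
theorem bx1_3 : BoxOK sI cl4 cl13 cl7 t4 t2 b1_3 :=
  box_mk (TrL.c (I.pos (nat_lit 0) (nat_lit 0)) (xa (xa (xb (xa (xb T4.l6 T4.l6) T4.l6) T4.l6) T4.l6) T4.l6)
  (TrL.c (I.pos (nat_lit 0) (nat_lit 0)) (xa T2.l3 T2.l3)
  (TrL.c (I.pos (nat_lit 0) (nat_lit 0)) T4.l4
  (TrL.c (I.pos (nat_lit 0) (nat_lit 0)) (xa T2.l4 T2.l4)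
  (TrL.c (I.pos (nat_lit 0) (nat_lit 0)) T4.l7
  (TrL.c (I.pos (nat_lit 0) (nat_lit 0)) (xa T2.l5 T2.l5)
  TrL.n)))))) (by decide +kernel)
theorem bx1_4 : BoxOK sI cl4 cl13 cl7 t4 t2 b1_4 :=
  box_mk (TrL.c (I.pos (nat_lit 0) (nat_lit 0)) (xb (xa (xb (xa T4.l0 T4.l0) (xa T4.l0 T4.l0)) (xb (xa T4.l0 T4.l2) (xa T4.l0 T4.l2))) (xa (xb (xa (xb T4.l0 T4.l0) (xb T4.l0 T4.l0)) (xa (xb (xa T4.l0 T4.l0) (xa T4.l0 T4.l0)) (xb T4.l0 (xa T4.l0 T4.l0)))) (xb (xa (xb T4.l0 T4.l0) (xb (xa T4.l0 T4.l0) (xa T4.l0 T4.l0))) (xa (xb T4.l0 (xa T4.l0 T4.l0)) (xb (xa T4.l0 T4.l0) (xa T4.l0 (xd T4.l0 T4.l0)))))))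
  (TrL.c (I.pos (nat_lit 0) (nat_lit 0)) (xa (xb T2.l3 (xb T2.l3 T2.l3)) (xb (xb T2.l3 T2.l3) (xa T2.l3 (xb T2.l3 T2.l3))))
  (TrL.c (I.pos (nat_lit 0) (nat_lit 0)) (xa (xc T4.l4 T4.l4) (xc T4.l3 T4.l3))
  (TrL.c (I.pos (nat_lit 0) (nat_lit 0)) (xb (xa (xb T2.l4 T2.l4) (xb (xa (xc T2.l4 T2.l4) (xc (xd T2.l4 T2.l4) (xd (xb T2.l4 T2.l4) (xb T2.l4 T2.l4)))) (xc (xa T2.l4 (xd T2.l4 T2.l4)) (xa T2.l4 (xd T2.l4 T2.l4))))) (xa (xb T2.l4 (xc T2.l4 T2.l4)) (xb (xc (xa T2.l4 (xd T2.l4 T2.l4)) (xa T2.l4 (xd T2.l4 T2.l4))) (xc (xa T2.l4 (xd (xb T2.l4 T2.l4) (xb T2.l4 T2.l4))) (xa (xd T2.l4 T2.l4) (xd (xb T2.l4 T2.l4) (xb T2.l4 T2.l4)))))))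
  (TrL.c (I.pos (nat_lit 0) (nat_lit 0)) (xa (xc T4.l5 T4.l5) (xc T4.l1 T4.l1))
  (TrL.c (I.pos (nat_lit 0) (nat_lit 0)) (xa (xb T2.l5 (xb T2.l5 T2.l5)) (xb (xb T2.l5 T2.l5) (xa T2.l5 (xb T2.l5 T2.l5))))
  TrL.n)))))) (by decide +kernel)
theorem bx1_5 : BoxOK sI cl4 cl13 cl7 t4 t2 b1_5 :=
  box_mk (TrL.c (I.pos (nat_lit 0) (nat_lit 0)) T4.l6
  (TrL.c (I.pos (nat_lit 0) (nat_lit 0)) T2.l3
  (TrL.c (I.pos (nat_lit 0) (nat_lit 0)) T4.l4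
  (TrL.c (I.pos (nat_lit 0) (nat_lit 0)) T2.l4
  (TrL.c (I.pos (nat_lit 0) (nat_lit 0)) T4.l7
  (TrL.c (I.pos (nat_lit 0) (nat_lit 0)) T2.l5
  TrL.n)))))) (by decide +kernel)
theorem bx1_6 : BoxOK sI cl4 cl13 cl7 t4 t2 b1_6 :=
  box_mk (TrL.c (I.pos (nat_lit 0) (nat_lit 0)) T4.l6
  (TrL.c (I.pos (nat_lit 0) (nat_lit 0)) T2.l3
  (TrL.c (I.pos (nat_lit 0) (nat_lit 0)) T4.l4
  (TrL.c (I.pos (nat_lit 0) (nat_lit 0)) T2.l4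
  (TrL.c (I.pos (nat_lit 0) (nat_lit 0)) T4.l7
  (TrL.c (I.pos (nat_lit 0) (nat_lit 0)) T2.l5
  TrL.n)))))) (by decide +kernel)
theorem bx1_7 : BoxOK sI cl4 cl13 cl7 t4 t2 b1_7 :=
  box_mk (TrL.c (I.pos (nat_lit 0) (nat_lit 0)) (xa T4.l0 T4.l2)
  (TrL.c (I.pos (nat_lit 0) (nat_lit 0)) (xa T2.l3 T2.l3)
  (TrL.c (I.pos (nat_lit 0) (nat_lit 0)) T4.l3
  (TrL.c (I.pos (nat_lit 0) (nat_lit 0)) (xa T2.l4 (xb (xa T2.l4 T2.l0) (xa T2.l4 (xd T2.l4 T2.l4))))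
  (TrL.c (I.pos (nat_lit 0) (nat_lit 0)) T4.l1
  (TrL.c (I.pos (nat_lit 0) (nat_lit 0)) (xa T2.l5 T2.l5)
  TrL.n)))))) (by decide +kernel)
theorem bx1_8 : BoxOK sI cl4 cl13 cl7 t4 t2 b1_8 :=
  box_mk (TrL.c (I.pos (nat_lit 0) (nat_lit 0)) (xa (xb (xa T4.l6 T4.l6) T4.l6) T4.l0)
  (TrL.c (I.pos (nat_lit 0) (nat_lit 0)) T2.l3
  (TrL.c (I.pos (nat_lit 0) (nat_lit 0)) T4.l4
  (TrL.c (I.pos (nat_lit 0) (nat_lit 0)) T2.l4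
  (TrL.c (I.pos (nat_lit 0) (nat_lit 0)) T4.l7
  (TrL.c (I.pos (nat_lit 0) (nat_lit 0)) T2.l5
  TrL.n)))))) (by decide +kernel)
theorem bx1_9 : BoxOK sI cl4 cl13 cl7 t4 t2 b1_9 :=
  box_mk (TrL.c (I.pos (nat_lit 0) (nat_lit 0)) (xa T4.l6 T4.l6)
  (TrL.c (I.pos (nat_lit 0) (nat_lit 0)) (xa T2.l3 T2.l3)
  (TrL.c (I.pos (nat_lit 0) (nat_lit 0)) T4.l4
  (TrL.c (I.pos (nat_lit 0) (nat_lit 0)) (xa T2.l4 T2.l4)
  (TrL.c (I.pos (nat_lit 0) (nat_lit 0)) T4.l7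
  (TrL.c (I.pos (nat_lit 0) (nat_lit 0)) (xa T2.l5 T2.l5)
  TrL.n)))))) (by decide +kernel)
theorem bx1_10 : BoxOK sI cl4 cl13 cl7 t4 t2 b1_10 :=
  box_mk (TrL.c (I.pos (nat_lit 0) (nat_lit 0)) (xb (xa (xb T4.l8 T4.l8) (xb (xa T4.l8 T4.l8) (xa T4.l8 T4.l8))) (xa (xb (xa T4.l8 T4.l8) (xa T4.l8 T4.l8)) (xb (xa T4.l8 T4.l8) (xa T4.l8 T4.l8))))
  (TrL.c (I.pos (nat_lit 0) (nat_lit 0)) (xb T2.l3 (xa T2.l3 T2.l3))
  (TrL.c (I.pos (nat_lit 0) (nat_lit 0)) T4.l4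
  (TrL.c (I.pos (nat_lit 0) (nat_lit 0)) (xb (xa T2.l4 T2.l4) (xa T2.l4 (xb T2.l4 T2.l4)))
  (TrL.c (I.pos (nat_lit 0) (nat_lit 0)) T4.l9
  (TrL.c (I.pos (nat_lit 0) (nat_lit 0)) (xb T2.l5 (xa T2.l5 T2.l5))
  TrL.n)))))) (by decide +kernel)
theorem bx1_11 : BoxOK sI cl4 cl13 cl7 t4 t2 b1_11 :=
  box_mk (TrL.c (I.pos (nat_lit 0) (nat_lit 0)) (xa (xa (xb (xa (xb T4.l6 T4.l6) T4.l6) (xa (xb T4.l6 (xa T4.l6 T4.l6)) T4.l6)) T4.l6) (xa T4.l6 (xb T4.l6 (xa T4.l6 (xb T4.l6 T4.l6)))))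
  (TrL.c (I.pos (nat_lit 0) (nat_lit 0)) (xa (xa T2.l3 T2.l3) T2.l3)
  (TrL.c (I.pos (nat_lit 0) (nat_lit 0)) (xa T4.l4 T4.l4)
  (TrL.c (I.pos (nat_lit 0) (nat_lit 0)) (xa (xa T2.l4 T2.l4) T2.l4)
  (TrL.c (I.pos (nat_lit 0) (nat_lit 0)) (xa T4.l7 T4.l7)
  (TrL.c (I.pos (nat_lit 0) (nat_lit 0)) (xa (xa T2.l5 T2.l5) T2.l5)
  TrL.n)))))) (by decide +kernel)
theorem bx1_12 : BoxOK sI cl4 cl13 cl7 t4 t2 b1_12 :=
  box_mk (TrL.c (I.pos (nat_lit 0) (nat_lit 0)) (xa T4.l0 T4.l0)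
  (TrL.c (I.pos (nat_lit 0) (nat_lit 0)) (xa T2.l3 T2.l3)
  (TrL.c (I.pos (nat_lit 0) (nat_lit 0)) (xa T4.l4 T4.l4)
  (TrL.c (I.pos (nat_lit 0) (nat_lit 0)) (xa T2.l4 (xb (xa T2.l4 T2.l0) T2.l4))
  (TrL.c (I.pos (nat_lit 0) (nat_lit 0)) (xa T4.l1 T4.l1)
  (TrL.c (I.pos (nat_lit 0) (nat_lit 0)) (xa T2.l5 T2.l5)
  TrL.n)))))) (by decide +kernel)
theorem bx1_13 : BoxOK sI cl4 cl13 cl7 t4 t2 b1_13 :=
  box_mk (TrL.c (I.pos (nat_lit 0) (nat_lit 0)) (xb (xa (xb T4.l8 T4.l8) (xb T4.l0 T4.l8)) (xa (xb T4.l8 T4.l8) (xb T4.l8 (xa T4.l8 T4.l8))))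
  (TrL.c (I.pos (nat_lit 0) (nat_lit 0)) T2.l3
  (TrL.c (I.pos (nat_lit 0) (nat_lit 0)) T4.l3
  (TrL.c (I.pos (nat_lit 0) (nat_lit 0)) (xb (xa T2.l4 (xa T2.l4 (xb T2.l4 T2.l4))) T2.l4)
  (TrL.c (I.pos (nat_lit 0) (nat_lit 0)) T4.l1
  (TrL.c (I.pos (nat_lit 0) (nat_lit 0)) T2.l5
  TrL.n)))))) (by decide +kernel)
theorem sv1 : StarV sI cl4 cl13 cl7 t4 t2 t1 :=
  (bt_n (bt_n (bt_n (bt_b bx1_0) (bt_n (bt_b bx1_1) (bt_b bx1_2))) (bt_n (bt_n (bt_b bx1_3) (bt_b bx1_4)) (bt_n (bt_b bx1_5) (bt_b bx1_6)))) (bt_n (bt_n (bt_b bx1_7) (bt_n (bt_b bx1_8) (bt_b bx1_9))) (bt_n (bt_n (bt_b bx1_10) (bt_b bx1_11)) (bt_n (bt_b bx1_12) (bt_b bx1_13)))))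
def S1 : StarD := StarD.mk cl4 cl13 cl7 4 2 t1
theorem bx2_0 : BoxOK sI cl7 cl4 cl13 t0 t5 b2_0 :=
  box_mk (TrL.c (I.pos (nat_lit 0) (nat_lit 0)) (xb (xa (xb T0.l0 T0.l0) T0.l0) (xa (xb (xa T0.l0 T0.l0) (xa T0.l0 T0.l0)) (xb T0.l0 (xa T0.l0 (xb T0.l0 T0.l0)))))
  (TrL.c (I.pos (nat_lit 0) (nat_lit 0)) (xb T5.l1 (xa T5.l1 T5.l1))
  (TrL.c (I.pos (nat_lit 0) (nat_lit 111196574)) (xR T0.l1 (xR T0.l1 (xR T0.l1 T0.l1)))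
  (TrL.c (I.pos (nat_lit 0) (nat_lit 77433728)) (xR T5.l2 (xR T5.l2 T5.l2))
  (TrL.c (I.pos (nat_lit 0) (nat_lit 0)) (xb (xa (xk T5.l8 T5.l8) (xk (xb T5.l3 T5.l3) (xb T5.l3 T5.l3))) (xa (xk (xb T5.l3 T5.l3) (xb T5.l3 (xb T5.l8 T5.l3))) (xk (xb T5.l3 (xb (xa T5.l8 T5.l3) (xa T5.l3 (xk T5.l3 T5.l3)))) (xb (xb T5.l3 T5.l3) (xb (xa T5.l3 (xk T5.l8 T5.l8)) (xa (xk T5.l8 T5.l8) (xk (xs T5.l3 T5.l8) (xs T5.l3 T5.l3))))))))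
  (TrL.c (I.pos (nat_lit 0) (nat_lit 0)) T0.l2
  (TrL.c (I.mix (nat_lit 29511666) (nat_lit 77433728)) (xR T5.l4 (xR T5.l4 (xR T5.l4 T5.l4)))
  (TrL.c (I.mix (nat_lit 29511666) (nat_lit 46070178)) (xR T0.l3 (xR T0.l3 T0.l3))
  TrL.n)))))))) (by decide +kernel)
theorem bx2_1 : BoxOK sI cl7 cl4 cl13 t0 t5 b2_1 :=
  box_mk (TrL.c (I.pos (nat_lit 0) (nat_lit 0)) T5.l5
  (TrL.c (I.pos (nat_lit 0) (nat_lit 0)) T0.l4
  (TrL.c (I.mix (nat_lit 29511666) (nat_lit 77433728)) (xR (xR T5.l6 T5.l6) (xR T5.l4 (xb T5.l2 T5.l4)))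
  (TrL.c (I.mix (nat_lit 29511666) (nat_lit 46070178)) (xR T0.l5 T0.l1)
  TrL.n)))) (by decide +kernel)
theorem bx2_2 : BoxOK sI cl7 cl4 cl13 t0 t5 b2_2 :=
  box_mk (TrL.c (I.pos (nat_lit 0) (nat_lit 0)) (xb (xa (xb T0.l6 T0.l7) T0.l7) (xa (xb T0.l7 T0.l7) T0.l7))
  (TrL.c (I.pos (nat_lit 0) (nat_lit 0)) T5.l1
  (TrL.c (I.pos (nat_lit 0) (nat_lit 111196574)) (xR T0.l1 (xR T0.l1 (xR T0.l1 T0.l1)))
  (TrL.c (I.pos (nat_lit 0) (nat_lit 77433728)) (xR T5.l4 T5.l4)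
  (TrL.c (I.pos (nat_lit 0) (nat_lit 0)) T5.l7
  (TrL.c (I.pos (nat_lit 0) (nat_lit 0)) T0.l2
  (TrL.c (I.mix (nat_lit 29511666) (nat_lit 77433728)) (xR T5.l4 T5.l4)
  (TrL.c (I.mix (nat_lit 29511666) (nat_lit 46070178)) T0.l11
  TrL.n)))))))) (by decide +kernel)
theorem bx2_3 : BoxOK sI cl7 cl4 cl13 t0 t5 b2_3 :=
  box_mk (TrL.c (I.pos (nat_lit 0) (nat_lit 0)) (xa (xb (xa (xb (xa T0.l7 T0.l7) T0.l7) (xb T0.l7 T0.l7)) (xa (xb T0.l7 (xa T0.l7 T0.l7)) T0.l7)) (xb (xa T0.l7 T0.l7) T0.l7))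
  (TrL.c (I.pos (nat_lit 0) (nat_lit 0)) (xa T5.l1 T5.l1)
  (TrL.c (I.pos (nat_lit 0) (nat_lit 111196574)) (xR T0.l11 (xR T0.l1 (xb (xR T0.l1 T0.l1) T0.l1)))
  (TrL.c (I.pos (nat_lit 0) (nat_lit 77433728)) (xR T5.l4 (xR T5.l2 T5.l2))
  (TrL.c (I.pos (nat_lit 0) (nat_lit 0)) (xa (xb T5.l8 T5.l8) (xb (xk T5.l8 T5.l8) T5.l8))
  (TrL.c (I.pos (nat_lit 0) (nat_lit 0)) T0.l2
  (TrL.c (I.mix (nat_lit 29511666) (nat_lit 77433728)) (xR T5.l4 (xR T5.l4 (xR T5.l4 T5.l4)))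
  (TrL.c (I.mix (nat_lit 29511666) (nat_lit 46070178)) T0.l11
  TrL.n)))))))) (by decide +kernel)
theorem c2_4_0 : chkTag sI cl7 cl4 cl13 t0 b2_4 (tg true true false RT.r2) (I.pos (nat_lit 0) (nat_lit 0))
  (xb (xa (xb T0.l7 T0.l7) (xb T0.l7 T0.l7)) (xa (xb (xa T0.l7 T0.l7) (xa (xb T0.l7 T0.l7) T0.l7)) (xb (xa T0.l7 T0.l7) (xa T0.l7 (xb T0.l7 T0.l7))))) = true := by decide +kernel
theorem c2_4_1 : chkTag sI cl7 cl4 cl13 t5 b2_4 (tg true false false RT.r3) (I.pos (nat_lit 0) (nat_lit 0))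
  (xb (xa T5.l1 T5.l1) (xa T5.l1 T5.l1)) = true := by decide +kernel
theorem c2_4_2 : chkTag sI cl7 cl4 cl13 t0 b2_4 (Tag.mk true true false RT.tl RT.r4) (I.pos (nat_lit 0) (nat_lit 111196574))
  (xR T0.l1 (xR T0.l1 (xb T0.l1 (xR T0.l1 T0.l1)))) = true := by decide +kernel
theorem c2_4_3 : chkTag sI cl7 cl4 cl13 t5 b2_4 (Tag.mk true false false RT.tl RT.r5) (I.pos (nat_lit 0) (nat_lit 77433728))
  (xR T5.l2 (xR T5.l2 (xb T5.l2 T5.l2))) = true := by decide +kernel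
def rc2_4_4_l : Tr := (xa (xb (xk T5.l8 T5.l8) T5.l8) (xk (xb (xa T5.l8 T5.l8) T5.l8) (xb T5.l8 T5.l8)))
theorem qc2_4_4_l : chkTr (tg false false false RT.r3) b2_4 t5 rc2_4_4_l
  (upd lo Co.b (rc sI cl7 cl4 cl13 b2_4 (I.pos (nat_lit 0) (nat_lit 0)))) = true := by decide +kernel
def rc2_4_4_rl : Tr := (xk (xb T5.l8 (xb T5.l8 (xa T5.l3 (xk T5.l3 (xb T5.l8 T5.l8))))) (xb T5.l8 (xb (xa T5.l8 T5.l3) (xa T5.l8 (xk (xb T5.l3 (xs T5.l8 T5.l8)) (xb T5.l3 (xs T5.l3 T5.l3)))))))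
theorem qc2_4_4_rl : chkTr (tg false false false RT.r3) b2_4 t5 rc2_4_4_rl
  (upd lo Co.a (upd hi Co.b (rc sI cl7 cl4 cl13 b2_4 (I.pos (nat_lit 0) (nat_lit 0))))) = true := by decide +kernel
def rc2_4_4_rr : Tr := (xk (xb (xb T5.l3 (xa T5.l3 (xk T5.l3 T5.l3))) (xb (xa (xk T5.l8 T5.l8) (xk (xb T5.l3 (xe T5.l8 T5.l8)) (xb T5.l3 (xs T5.l3 (xe T5.l0 T5.l0))))) (xa (xk (xb T5.l3 (xs T5.l0 T5.l0)) (xb (xs T5.l8 T5.l8) T5.l0)) (xk (xb (xs (xe T5.l8 T5.l0) (xe T5.l0 T5.l0)) (xs (xe (xa T5.l0 T5.l0) T5.l0) (xe (xa T5.l0 T5.l0) T5.l0))) (xb (xs (xe T5.l0 T5.l0) (xe T5.l0 T5.l0)) (xs (xe T5.l0 T5.l0) (xe T5.l0 T5.l0))))))) (xb (xb (xa T5.l8 T5.l8) (xa T5.l3 (xk T5.l3 (xb T5.l3 T5.l3)))) (xb (xa (xk (xb T5.l8 T5.l8) (xb T5.l3 (xs T5.l8 T5.l8))) (xk (xb (xe T5.l0 T5.l0) (xs (xe T5.l0 T5.l0) (xe T5.l0 T5.l0))) (xb (xe T5.l0 T5.l0) (xs (xa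 T5.l0 T5.l0) T5.l0)))) (xa (xk (xb (xs T5.l3 (xe T5.l8 T5.l8)) (xs T5.l0 (xe T5.l0 T5.l0))) (xb (xs T5.l3 (xa T5.l3 T5.l0)) (xs (xa T5.l3 T5.l0) (xa (xe T5.l8 T5.l8) (xe (xk T5.l0 T5.l0) (xk T5.l0 T5.l0)))))) (xk (xb (xs (xe T5.l0 T5.l0) (xe T5.l0 T5.l0)) (xs (xe T5.l0 T5.l0) (xe T5.l0 T5.l0))) (xb (xs (xa T5.l0 T5.l0) (xa T5.l0 T5.l0)) (xs (xa T5.l0 T5.l0) (xa (xe (xk T5.l0 T5.l0) (xk T5.l0 T5.l0)) (xe (xk T5.l0 T5.l0) (xk T5.l0 T5.l0))))))))))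
theorem qc2_4_4_rr : chkTr (tg false false false RT.r3) b2_4 t5 rc2_4_4_rr
  (upd hi Co.a (upd hi Co.b (rc sI cl7 cl4 cl13 b2_4 (I.pos (nat_lit 0) (nat_lit 0))))) = true := by decide +kernel
theorem qc2_4_4_r : chkTr (tg false false false RT.r3) b2_4 t5 (Tr.N Co.a rc2_4_4_rl rc2_4_4_rr)
  (upd hi Co.b (rc sI cl7 cl4 cl13 b2_4 (I.pos (nat_lit 0) (nat_lit 0)))) = true := tr_split qc2_4_4_rl qc2_4_4_rr
theorem qc2_4_4_ : chkTr (tg false false false RT.r3) b2_4 t5 (Tr.N Co.b rc2_4_4_l (Tr.N Co.a rc2_4_4_rl rc2_4_4_rr))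
  (rc sI cl7 cl4 cl13 b2_4 (I.pos (nat_lit 0) (nat_lit 0))) = true := tr_split qc2_4_4_l qc2_4_4_r
theorem c2_4_4 : chkTag sI cl7 cl4 cl13 t5 b2_4 (tg false false false RT.r3) (I.pos (nat_lit 0) (nat_lit 0))
  (Tr.N Co.b rc2_4_4_l (Tr.N Co.a rc2_4_4_rl rc2_4_4_rr)) = true := tag_mk (by decide +kernel) qc2_4_4_
theorem c2_4_5 : chkTag sI cl7 cl4 cl13 t0 b2_4 (tg false true false RT.r4) (I.pos (nat_lit 0) (nat_lit 0))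
  (xb T0.l2 T0.l2) = true := by decide +kernel
theorem c2_4_6 : chkTag sI cl7 cl4 cl13 t5 b2_4 (Tag.mk false false false RT.tl RT.r5) (I.mix (nat_lit 29511666) (nat_lit 77433728))
  (xR T5.l4 (xR T5.l4 (xR T5.l4 T5.l4))) = true := by decide +kernel
theorem c2_4_7 : chkTag sI cl7 cl4 cl13 t0 b2_4 (Tag.mk false true false RT.tl RT.r6) (I.mix (nat_lit 29511666) (nat_lit 46070178))
  (xR T0.l3 (xR T0.l3 T0.l3)) = true := by decide +kernel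
theorem bx2_4 : BoxOK sI cl7 cl4 cl13 t0 t5 b2_4 :=
  box_mk' [(tg true true false RT.r2), (tg true false false RT.r3), (Tag.mk true true false RT.tl RT.r4), (Tag.mk true false false RT.tl RT.r5), (tg false false false RT.r3), (tg false true false RT.r4), (Tag.mk false false false RT.tl RT.r5), (Tag.mk false true false RT.tl RT.r6)] rfl (allL_c (ex_mk c2_4_0) (allL_c (ex_mk c2_4_1) (allL_c (ex_mk c2_4_2) (allL_c (ex_mk c2_4_3) (allL_c (ex_mk c2_4_4) (allL_c (ex_mk c2_4_5) (allL_c (ex_mk c2_4_6) (allL_c (ex_mk c2_4_7) allL_n))))))))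
theorem bx2_5 : BoxOK sI cl7 cl4 cl13 t0 t5 b2_5 :=
  box_mk (TrL.c (I.pos (nat_lit 0) (nat_lit 0)) (xa T5.l1 T5.l1)
  (TrL.c (I.pos (nat_lit 0) (nat_lit 0)) T0.l4
  (TrL.c (I.mix (nat_lit 29511666) (nat_lit 77433728)) (xR (xR (xk T5.l6 T5.l6) T5.l6) (xR T5.l2 (xR T5.l2 T5.l2)))
  (TrL.c (I.mix (nat_lit 29511666) (nat_lit 46070178)) (xR (xR T0.l5 T0.l5) T0.l1)
  TrL.n)))) (by decide +kernel)
theorem bx2_6 : BoxOK sI cl7 cl4 cl13 t0 t5 b2_6 :=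
  box_mk (TrL.c (I.pos (nat_lit 0) (nat_lit 0)) (xa (xb (xa (xb T0.l0 T0.l0) T0.l0) (xa T0.l0 T0.l0)) (xb (xa T0.l0 T0.l0) (xa T0.l0 T0.l0)))
  (TrL.c (I.pos (nat_lit 0) (nat_lit 0)) (xa T5.l1 (xb T5.l10 (xk T5.l1 T5.l1)))
  (TrL.c (I.pos (nat_lit 0) (nat_lit 111196574)) (xR T0.l11 (xR T0.l1 (xR T0.l1 (xa T0.l1 T0.l1))))
  (TrL.c (I.pos (nat_lit 0) (nat_lit 77433728)) (xR (xR T5.l2 T5.l2) (xR T5.l2 (xR T5.l2 T5.l2)))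
  (TrL.c (I.pos (nat_lit 0) (nat_lit 0)) (xa (xb (xk (xa (xb T5.l3 T5.l3) (xb (xk T5.l3 T5.l3) T5.l3)) (xa (xb T5.l3 T5.l3) (xb (xk T5.l3 T5.l3) T5.l3))) (xk (xa T5.l3 T5.l3) (xa T5.l3 T5.l3))) (xb (xk (xa (xb (xk (xa T5.l3 T5.l3) (xa T5.l3 T5.l3)) T5.l3) (xb (xk (xa T5.l3 (xb T5.l3 T5.l3)) (xa T5.l3 T5.l3)) (xk (xa T5.l3 T5.l3) T5.l3))) (xa (xb (xk (xa T5.l3 T5.l3) (xa T5.l3 T5.l3)) T5.l3) (xb (xk (xa T5.l3 T5.l3) (xa T5.l3 T5.l3)) (xk T5.l3 T5.l3)))) (xk (xa (xb T5.l3 T5.l3) (xb (xk (xa T5.l3 T5.l3) T5.l3) (xk (xa T5.l3 T5.l3) (xa T5.l3 T5.l3)))) (xa (xb T5.l3 T5.l3) (xb (xk T5.l3 T5.l3) (xk (xa T5.l3 T5.l3) (xa T5.l3 T5.l3)))))))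
  (TrL.c (I.pos (nat_lit 0) (nat_lit 0)) (xa T0.l2 (xb T0.l2 T0.l2))
  (TrL.c (I.mix (nat_lit 29511666) (nat_lit 77433728)) (xR (xR T5.l4 T5.l4) (xR T5.l4 (xR T5.l4 (xk (xb T5.l4 T5.l4) T5.l4))))
  (TrL.c (I.mix (nat_lit 29511666) (nat_lit 46070178)) (xR (xR T0.l3 T0.l3) (xR T0.l3 T0.l9))
  TrL.n)))))))) (by decide +kernel)
theorem bx2_7 : BoxOK sI cl7 cl4 cl13 t0 t5 b2_7 :=
  box_mk (TrL.c (I.pos (nat_lit 0) (nat_lit 0)) (xb (xa (xb (xa T0.l6 T0.l6) T0.l6) T0.l6) (xa (xb T0.l6 (xa T0.l6 T0.l6)) (xb T0.l6 T0.l6)))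
  (TrL.c (I.pos (nat_lit 0) (nat_lit 0)) T5.l5
  (TrL.c (I.pos (nat_lit 0) (nat_lit 111196574)) (xR T0.l1 (xR T0.l1 (xR T0.l1 T0.l4)))
  (TrL.c (I.pos (nat_lit 0) (nat_lit 77433728)) T5.l4
  (TrL.c (I.pos (nat_lit 0) (nat_lit 0)) T5.l7
  (TrL.c (I.pos (nat_lit 0) (nat_lit 0)) T0.l2
  (TrL.c (I.mix (nat_lit 29511666) (nat_lit 77433728)) (xR T5.l4 T5.l4)
  (TrL.c (I.mix (nat_lit 29511666) (nat_lit 46070178)) T0.l11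
  TrL.n)))))))) (by decide +kernel)
theorem bx2_8 : BoxOK sI cl7 cl4 cl13 t0 t5 b2_8 :=
  box_mk (TrL.c (I.pos (nat_lit 0) (nat_lit 0)) (xa (xb T0.l0 (xb T0.l0 (xa T0.l0 T0.l0))) (xb T0.l0 (xa T0.l0 (xb T0.l0 T0.l0))))
  (TrL.c (I.pos (nat_lit 0) (nat_lit 0)) (xk T5.l1 T5.l1)
  (TrL.c (I.pos (nat_lit 0) (nat_lit 111196574)) (xR T0.l1 (xR T0.l1 T0.l1))
  (TrL.c (I.pos (nat_lit 0) (nat_lit 77433728)) (xR T5.l2 (xR T5.l2 T5.l2))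
  (TrL.c (I.pos (nat_lit 0) (nat_lit 0)) (xb (xk (xa T5.l3 T5.l3) (xa T5.l3 T5.l3)) (xk (xa T5.l3 (xb T5.l3 (xk T5.l3 (xa T5.l8 T5.l3)))) (xa (xb T5.l3 T5.l3) (xb T5.l3 (xk (xa T5.l3 T5.l3) (xa T5.l3 (xb T5.l3 T5.l3)))))))
  (TrL.c (I.pos (nat_lit 0) (nat_lit 0)) T0.l2
  (TrL.c (I.mix (nat_lit 29511666) (nat_lit 77433728)) (xR T5.l4 (xR T5.l4 T5.l4))
  (TrL.c (I.mix (nat_lit 29511666) (nat_lit 46070178)) (xR T0.l3 T0.l3)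
  TrL.n)))))))) (by decide +kernel)
theorem bx2_9 : BoxOK sI cl7 cl4 cl13 t0 t5 b2_9 :=
  box_mk (TrL.c (I.pos (nat_lit 0) (nat_lit 0)) (xb (xa (xb T0.l6 T0.l7) T0.l7) T0.l7)
  (TrL.c (I.pos (nat_lit 0) (nat_lit 0)) T5.l1
  (TrL.c (I.pos (nat_lit 0) (nat_lit 111196574)) (xR T0.l1 (xR T0.l1 T0.l1))
  (TrL.c (I.pos (nat_lit 0) (nat_lit 77433728)) (xR T5.l2 T5.l2)
  (TrL.c (I.pos (nat_lit 0) (nat_lit 0)) T5.l7
  (TrL.c (I.pos (nat_lit 0) (nat_lit 0)) T0.l2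
  (TrL.c (I.mix (nat_lit 29511666) (nat_lit 77433728)) T5.l4
  (TrL.c (I.mix (nat_lit 29511666) (nat_lit 46070178)) T0.l11
  TrL.n)))))))) (by decide +kernel)
theorem sv2 : StarV sI cl7 cl4 cl13 t0 t5 t2 :=
  (bt_n (bt_n (bt_n (bt_b bx2_0) (bt_b bx2_1)) (bt_n (bt_b bx2_2) (bt_n (bt_b bx2_3) (bt_b bx2_4)))) (bt_n (bt_n (bt_b bx2_5) (bt_b bx2_6)) (bt_n (bt_b bx2_7) (bt_n (bt_b bx2_8) (bt_b bx2_9)))))
def S2 : StarD := StarD.mk cl7 cl4 cl13 0 5 t2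
theorem c3_0_0 : chkTag sI cl7 cl13 cl4 t5 b3_0 (tg true true false RT.r2) (I.pos (nat_lit 0) (nat_lit 0))
  (xa (xb (xa (xb (xa T5.l0 T5.l0) (xc T5.l0 T5.l0)) (xb (xa T5.l0 (xc T5.l0 (xb T5.l0 T5.l0))) (xa T5.l13 (xc T5.l13 T5.l13)))) (xa (xb (xc (xa T5.l0 T5.l0) T5.l0) (xa (xc T5.l0 T5.l0) (xc T5.l0 T5.l0))) (xb (xc T5.l0 (xa T5.l0 T5.l0)) (xa (xc T5.l0 T5.l0) (xc T5.l0 T5.l0))))) (xb (xa (xb (xa (xc T5.l0 T5.l0) (xc T5.l0 (xb (xd T5.l0 T5.l0) T5.l0))) (xa (xc T5.l0 T5.l0) (xc T5.l0 (xb T5.l0 T5.l0)))) (xb (xa (xc T5.l0 (xb (xs T5.l0 T5.l0) T5.l0)) (xc (xb (xd T5.l0 T5.l0) (xs T5.l0 T5.l0)) (xb (xs T5.l0 (xd (xk T5.l0 T5.l0) (xk T5.l0 T5.l0))) (xs T5.l0 (xd T5.l0 T5.l0))))) (xa (xc T5.l0 (xb T5.l0 T5.l0)) (xc (xb T5.l0 T5.l0) (xb (xs T5.l0 T5.l0) (xs T5.l0 T5.l0)))))) (xa (xb (xa (xc T5.l0 T5.l0) (xc T5.l0 T5.l0)) (xa (xc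 T5.l0 T5.l0) (xc T5.l0 T5.l0))) (xb (xa (xc T5.l0 (xb T5.l0 T5.l0)) (xc T5.l0 (xb T5.l0 T5.l0))) (xa (xc T5.l0 T5.l0) (xc T5.l0 (xb T5.l0 T5.l0))))))) = true := by decide +kernel
theorem c3_0_1 : chkTag sI cl7 cl13 cl4 t0 b3_0 (tg true false false RT.r3) (I.pos (nat_lit 0) (nat_lit 0))
  (xa (xk (xb T0.l8 T0.l8) (xb T0.l8 T0.l8)) (xk (xb T0.l8 T0.l8) (xb T0.l8 T0.l8))) = true := by decide +kernel
theorem c3_0_2 : chkTag sI cl7 cl13 cl4 t5 b3_0 (Tag.mk true true false RT.tl RT.r4) (I.pos (nat_lit 0) (nat_lit 111196574))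
  (xR (xR T5.l4 T5.l4) (xR T5.l4 (xR T5.l4 (xa T5.l4 T5.l4)))) = true := by decide +kernel
theorem c3_0_3 : chkTag sI cl7 cl13 cl4 t0 b3_0 (Tag.mk true false false RT.tl RT.r5) (I.pos (nat_lit 0) (nat_lit 77433728))
  (xR (xR T0.l9 T0.l9) (xR T0.l9 (xR T0.l9 T0.l9))) = true := by decide +kernel
theorem c3_0_4 : chkTag sI cl7 cl13 cl4 t0 b3_0 (tg false false false RT.r3) (I.pos (nat_lit 0) (nat_lit 0))
  (xa (xk (xb T0.l13 T0.l10) (xb T0.l13 T0.l10)) (xk (xb T0.l10 (xb T0.l10 T0.l10)) (xb T0.l10 (xb T0.l10 (xa T0.l10 T0.l10))))) = true := by decide +kernel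
theorem c3_0_5 : chkTag sI cl7 cl13 cl4 t5 b3_0 (tg false true false RT.r4) (I.pos (nat_lit 0) (nat_lit 0))
  T5.l10 = true := by decide +kernel
theorem c3_0_6 : chkTag sI cl7 cl13 cl4 t0 b3_0 (Tag.mk false false false RT.tl RT.r5) (I.mix (nat_lit 29511666) (nat_lit 77433728))
  (xR T0.l11 (xR T0.l11 (xR T0.l11 T0.l11))) = true := by decide +kernel
theorem c3_0_7 : chkTag sI cl7 cl13 cl4 t5 b3_0 (Tag.mk false true false RT.tl RT.r6) (I.mix (nat_lit 29511666) (nat_lit 46070178))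
  (xR T5.l11 T5.l2) = true := by decide +kernel
theorem bx3_0 : BoxOK sI cl7 cl13 cl4 t5 t0 b3_0 :=
  box_mk' [(tg true true false RT.r2), (tg true false false RT.r3), (Tag.mk true true false RT.tl RT.r4), (Tag.mk true false false RT.tl RT.r5), (tg false false false RT.r3), (tg false true false RT.r4), (Tag.mk false false false RT.tl RT.r5), (Tag.mk false true false RT.tl RT.r6)] rfl (allL_c (ex_mk c3_0_0) (allL_c (ex_mk c3_0_1) (allL_c (ex_mk c3_0_2) (allL_c (ex_mk c3_0_3) (allL_c (ex_mk c3_0_4) (allL_c (ex_mk c3_0_5) (allL_c (ex_mk c3_0_6) (allL_c (ex_mk c3_0_7) allL_n))))))))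
theorem bx3_1 : BoxOK sI cl7 cl13 cl4 t5 t0 b3_1 :=
  box_mk (TrL.c (I.pos (nat_lit 0) (nat_lit 0)) (xa (xb (xa T5.l12 T5.l12) (xa T5.l12 T5.l12)) (xb (xa T5.l0 T5.l0) (xa T5.l12 T5.l0)))
  (TrL.c (I.pos (nat_lit 0) (nat_lit 0)) (xa (xb T0.l8 T0.l8) (xb T0.l8 T0.l8))
  (TrL.c (I.pos (nat_lit 0) (nat_lit 111196574)) (xR (xR T5.l4 T5.l4) (xR T5.l4 (xR T5.l4 T5.l9)))
  (TrL.c (I.pos (nat_lit 0) (nat_lit 77433728)) (xR (xR T0.l9 T0.l9) T0.l9)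
  (TrL.c (I.pos (nat_lit 0) (nat_lit 0)) (xa (xb (xk T0.l12 T0.l12) T0.l12) (xk (xb (xa T0.l12 T0.l12) T0.l12) (xb T0.l12 T0.l12)))
  (TrL.c (I.pos (nat_lit 0) (nat_lit 0)) T5.l10
  (TrL.c (I.mix (nat_lit 29511666) (nat_lit 77433728)) (xR T0.l11 (xR T0.l11 (xR T0.l11 T0.l11)))
  (TrL.c (I.mix (nat_lit 29511666) (nat_lit 46070178)) (xR T5.l11 T5.l11)
  TrL.n)))))))) (by decide +kernel)
theorem bx3_2 : BoxOK sI cl7 cl13 cl4 t5 t0 b3_2 :=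
  box_mk (TrL.c (I.pos (nat_lit 0) (nat_lit 0)) (xa (xa (xb (xa T5.l12 T5.l12) T5.l12) T5.l12) (xa T5.l12 T5.l12))
  (TrL.c (I.pos (nat_lit 0) (nat_lit 0)) (xa T0.l8 T0.l8)
  (TrL.c (I.pos (nat_lit 0) (nat_lit 111196574)) (xR T5.l4 (xR T5.l4 (xa T5.l9 (xR T5.l4 T5.l9))))
  (TrL.c (I.pos (nat_lit 0) (nat_lit 77433728)) (xR T0.l11 (xR T0.l9 T0.l9))
  (TrL.c (I.pos (nat_lit 0) (nat_lit 0)) (xa (xa T0.l12 T0.l12) (xa T0.l12 T0.l12))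
  (TrL.c (I.pos (nat_lit 0) (nat_lit 0)) T5.l10
  (TrL.c (I.mix (nat_lit 29511666) (nat_lit 77433728)) (xR T0.l11 (xR T0.l11 (xa T0.l11 T0.l11)))
  (TrL.c (I.mix (nat_lit 29511666) (nat_lit 46070178)) T5.l4
  TrL.n)))))))) (by decide +kernel)
theorem bx3_3 : BoxOK sI cl7 cl13 cl4 t5 t0 b3_3 :=
  box_mk (TrL.c (I.pos (nat_lit 0) (nat_lit 0)) (xb (xa (xb (xa T5.l13 T5.l13) (xa T5.l13 T5.l13)) (xb (xa (xb T5.l13 T5.l13) (xb T5.l13 T5.l13)) (xa T5.l13 T5.l13))) (xa (xb (xa T5.l13 T5.l13) (xa (xc T5.l13 T5.l13) T5.l13)) (xb (xa T5.l13 T5.l13) (xa T5.l13 (xk T5.l13 T5.l13)))))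
  (TrL.c (I.pos (nat_lit 0) (nat_lit 0)) (xb (xk T0.l8 T0.l8) (xk T0.l8 T0.l8))
  (TrL.c (I.pos (nat_lit 0) (nat_lit 111196574)) (xR (xR T5.l4 T5.l4) (xR T5.l4 (xR T5.l4 T5.l4)))
  (TrL.c (I.pos (nat_lit 0) (nat_lit 77433728)) (xR (xR T0.l9 T0.l9) (xR T0.l9 (xR T0.l9 T0.l9)))
  (TrL.c (I.pos (nat_lit 0) (nat_lit 0)) (xk (xb (xa T0.l13 T0.l13) T0.l10) (xb (xa T0.l13 T0.l13) T0.l10))
  (TrL.c (I.pos (nat_lit 0) (nat_lit 0)) T5.l10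
  (TrL.c (I.mix (nat_lit 29511666) (nat_lit 77433728)) (xR T0.l11 (xR T0.l11 (xR T0.l11 T0.l11)))
  (TrL.c (I.mix (nat_lit 29511666) (nat_lit 46070178)) (xR (xR T5.l11 T5.l11) T5.l2)
  TrL.n)))))))) (by decide +kernel)
theorem bx3_4 : BoxOK sI cl7 cl13 cl4 t5 t0 b3_4 :=
  box_mk (TrL.c (I.pos (nat_lit 0) (nat_lit 0)) (xa (xa (xb (xa (xb T5.l12 (xa T5.l12 T5.l12)) (xb T5.l12 T5.l12)) (xa (xb (xa T5.l12 T5.l12) (xa (xb T5.l12 T5.l12) T5.l12)) (xb T5.l12 (xa T5.l12 T5.l12)))) (xb (xa T5.l12 T5.l12) (xa T5.l12 (xb T5.l12 T5.l12)))) (xa (xb T5.l12 (xa (xb T5.l12 (xa T5.l12 T5.l12)) (xb T5.l12 (xa T5.l12 T5.l12)))) (xb T5.l12 (xa (xb T5.l12 (xa T5.l12 T5.l12)) (xb T5.l12 (xa T5.l12 T5.l12))))))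
  (TrL.c (I.pos (nat_lit 0) (nat_lit 0)) (xa (xa (xb T0.l8 T0.l8) T0.l8) (xa T0.l8 T0.l8))
  (TrL.c (I.pos (nat_lit 0) (nat_lit 111196574)) (xR T5.l4 (xR T5.l4 (xa (xR T5.l9 T5.l9) (xR T5.l4 T5.l9))))
  (TrL.c (I.pos (nat_lit 0) (nat_lit 77433728)) (xR (xR T0.l9 T0.l9) (xR T0.l9 (xa T0.l9 T0.l9)))
  (TrL.c (I.pos (nat_lit 0) (nat_lit 0)) (xa (xa T0.l12 T0.l12) T0.l12)
  (TrL.c (I.pos (nat_lit 0) (nat_lit 0)) T5.l10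
  (TrL.c (I.mix (nat_lit 29511666) (nat_lit 77433728)) (xR T0.l11 (xR T0.l11 (xa T0.l11 T0.l11)))
  (TrL.c (I.mix (nat_lit 29511666) (nat_lit 46070178)) T5.l11
  TrL.n)))))))) (by decide +kernel)
theorem bx3_5 : BoxOK sI cl7 cl13 cl4 t5 t0 b3_5 :=
  box_mk (TrL.c (I.pos (nat_lit 0) (nat_lit 0)) (xb (xa (xb (xa (xb (xa T5.l13 T5.l13) (xa T5.l0 T5.l0)) (xb (xa T5.l0 (xc T5.l13 T5.l13)) (xa T5.l0 (xc T5.l0 T5.l0)))) (xa T5.l13 T5.l13)) (xb (xa (xb (xa T5.l0 (xs T5.l0 T5.l0)) (xa (xc T5.l0 T5.l0) (xc T5.l0 T5.l0))) (xb (xa T5.l0 (xs T5.l13 (xc T5.l0 T5.l0))) (xa (xc (xs T5.l0 (xd T5.l0 T5.l0)) (xs T5.l0 (xd T5.l0 (xb T5.l0 T5.l0)))) (xs (xc T5.l0 T5.l0) (xc (xd T5.l0 T5.l0) (xd T5.l0 (xb T5.l0 T5.l0))))))) (xa T5.l13 (xb T5.l13 T5.l13)))) (xa (xb (xa T5.l13 T5.l13) (xa T5.l13 T5.l13)) (xb (xa T5.l13 T5.l13) (xa T5.l13 T5.l13))))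
  (TrL.c (I.pos (nat_lit 0) (nat_lit 0)) (xb (xk T0.l8 T0.l8) (xk T0.l8 T0.l8))
  (TrL.c (I.pos (nat_lit 0) (nat_lit 111196574)) (xR (xR T5.l4 T5.l4) (xR T5.l4 (xR T5.l4 T5.l4)))
  (TrL.c (I.pos (nat_lit 0) (nat_lit 77433728)) (xR (xR T0.l9 T0.l9) (xR T0.l9 (xR T0.l9 T0.l9)))
  (TrL.c (I.pos (nat_lit 0) (nat_lit 0)) (xb (xk (xa T0.l13 T0.l13) (xa T0.l13 T0.l13)) (xk (xa T0.l13 T0.l13) (xa T0.l13 T0.l13)))
  (TrL.c (I.pos (nat_lit 0) (nat_lit 0)) T5.l10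
  (TrL.c (I.mix (nat_lit 29511666) (nat_lit 77433728)) (xR T0.l11 (xR T0.l11 (xR T0.l11 T0.l11)))
  (TrL.c (I.mix (nat_lit 29511666) (nat_lit 46070178)) (xR (xR T5.l11 T5.l11) T5.l2)
  TrL.n)))))))) (by decide +kernel)
theorem bx3_6 : BoxOK sI cl7 cl13 cl4 t5 t0 b3_6 :=
  box_mk (TrL.c (I.pos (nat_lit 0) (nat_lit 0)) (xa (xa T5.l12 T5.l12) (xa T5.l12 T5.l12))
  (TrL.c (I.pos (nat_lit 0) (nat_lit 0)) (xa T0.l8 T0.l8)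
  (TrL.c (I.pos (nat_lit 0) (nat_lit 111196574)) (xR T5.l4 (xR T5.l4 (xa T5.l9 (xR T5.l4 T5.l9))))
  (TrL.c (I.pos (nat_lit 0) (nat_lit 77433728)) (xR (xR T0.l9 T0.l9) (xR T0.l9 (xa T0.l9 T0.l9)))
  (TrL.c (I.pos (nat_lit 0) (nat_lit 0)) (xa (xa T0.l12 T0.l12) T0.l12)
  (TrL.c (I.pos (nat_lit 0) (nat_lit 0)) T5.l10
  (TrL.c (I.mix (nat_lit 29511666) (nat_lit 77433728)) (xR T0.l11 (xR T0.l11 (xa T0.l11 T0.l11)))
  (TrL.c (I.mix (nat_lit 29511666) (nat_lit 46070178)) T5.l4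
  TrL.n)))))))) (by decide +kernel)
theorem bx3_7 : BoxOK sI cl7 cl13 cl4 t5 t0 b3_7 :=
  box_mk (TrL.c (I.pos (nat_lit 0) (nat_lit 0)) (xa (xb T5.l12 T5.l12) T5.l0)
  (TrL.c (I.pos (nat_lit 0) (nat_lit 0)) T0.l8
  (TrL.c (I.pos (nat_lit 0) (nat_lit 111196574)) (xR (xR T5.l4 T5.l4) (xR T5.l4 (xR T5.l4 T5.l9)))
  (TrL.c (I.pos (nat_lit 0) (nat_lit 77433728)) (xR (xR T0.l9 T0.l9) T0.l9)
  (TrL.c (I.pos (nat_lit 0) (nat_lit 0)) (xk (xa T0.l12 T0.l13) (xa T0.l12 T0.l13))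
  (TrL.c (I.pos (nat_lit 0) (nat_lit 0)) T5.l10
  (TrL.c (I.mix (nat_lit 29511666) (nat_lit 77433728)) (xR T0.l11 T0.l1)
  (TrL.c (I.mix (nat_lit 29511666) (nat_lit 46070178)) (xR T5.l11 T5.l11)
  TrL.n)))))))) (by decide +kernel)
theorem bx3_8 : BoxOK sI cl7 cl13 cl4 t5 t0 b3_8 :=
  box_mk (TrL.c (I.pos (nat_lit 0) (nat_lit 0)) (xa T5.l13 T5.l13)
  (TrL.c (I.pos (nat_lit 0) (nat_lit 0)) T0.l8
  (TrL.c (I.pos (nat_lit 0) (nat_lit 111196574)) (xR (xR T5.l4 T5.l4) (xR T5.l4 T5.l4))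
  (TrL.c (I.pos (nat_lit 0) (nat_lit 77433728)) (xR (xR T0.l9 T0.l9) T0.l9)
  (TrL.c (I.pos (nat_lit 0) (nat_lit 0)) (xk T0.l13 T0.l13)
  (TrL.c (I.pos (nat_lit 0) (nat_lit 0)) T5.l10
  (TrL.c (I.mix (nat_lit 29511666) (nat_lit 77433728)) (xR T0.l11 T0.l1)
  (TrL.c (I.mix (nat_lit 29511666) (nat_lit 46070178)) (xR T5.l11 T5.l11)
  TrL.n)))))))) (by decide +kernel)
theorem bx3_9 : BoxOK sI cl7 cl13 cl4 t5 t0 b3_9 :=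
  box_mk (TrL.c (I.pos (nat_lit 0) (nat_lit 0)) (xa (xa T5.l12 T5.l12) (xa T5.l12 T5.l12))
  (TrL.c (I.pos (nat_lit 0) (nat_lit 0)) (xa T0.l8 T0.l8)
  (TrL.c (I.pos (nat_lit 0) (nat_lit 111196574)) (xR T5.l4 (xR T5.l4 (xR T5.l4 T5.l9)))
  (TrL.c (I.pos (nat_lit 0) (nat_lit 77433728)) (xR T0.l9 T0.l9)
  (TrL.c (I.pos (nat_lit 0) (nat_lit 0)) T0.l12
  (TrL.c (I.pos (nat_lit 0) (nat_lit 0)) T5.l10
  (TrL.c (I.mix (nat_lit 29511666) (nat_lit 77433728)) (xR T0.l11 T0.l11)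
  (TrL.c (I.mix (nat_lit 29511666) (nat_lit 46070178)) T5.l11
  TrL.n)))))))) (by decide +kernel)
theorem bx3_10 : BoxOK sI cl7 cl13 cl4 t5 t0 b3_10 :=
  box_mk (TrL.c (I.pos (nat_lit 0) (nat_lit 0)) (xb (xa (xb (xb T5.l12 T5.l12) T5.l12) (xb (xb T5.l0 T5.l12) T5.l12)) (xa (xb T5.l12 T5.l12) (xb T5.l12 T5.l12)))
  (TrL.c (I.pos (nat_lit 0) (nat_lit 0)) (xb (xk T0.l8 T0.l8) T0.l8)
  (TrL.c (I.pos (nat_lit 0) (nat_lit 111196574)) (xR (xR T5.l4 T5.l4) (xR T5.l4 (xR T5.l4 T5.l9)))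
  (TrL.c (I.pos (nat_lit 0) (nat_lit 77433728)) (xR (xR T0.l9 T0.l9) T0.l9)
  (TrL.c (I.pos (nat_lit 0) (nat_lit 0)) (xb (xa (xk T0.l12 T0.l12) (xk T0.l12 T0.l12)) (xk T0.l12 T0.l12))
  (TrL.c (I.pos (nat_lit 0) (nat_lit 0)) T5.l10
  (TrL.c (I.mix (nat_lit 29511666) (nat_lit 77433728)) (xR T0.l11 (xR T0.l11 T0.l11))
  (TrL.c (I.mix (nat_lit 29511666) (nat_lit 46070178)) (xR T5.l11 T5.l11)
  TrL.n)))))))) (by decide +kernel)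
theorem bx3_11 : BoxOK sI cl7 cl13 cl4 t5 t0 b3_11 :=
  box_mk (TrL.c (I.pos (nat_lit 0) (nat_lit 0)) (xa T5.l12 T5.l12)
  (TrL.c (I.pos (nat_lit 0) (nat_lit 0)) T0.l8
  (TrL.c (I.pos (nat_lit 0) (nat_lit 111196574)) (xR T5.l4 (xR T5.l4 (xR T5.l4 T5.l9)))
  (TrL.c (I.pos (nat_lit 0) (nat_lit 77433728)) (xR T0.l9 T0.l9)
  (TrL.c (I.pos (nat_lit 0) (nat_lit 0)) (xa T0.l12 T0.l12)
  (TrL.c (I.pos (nat_lit 0) (nat_lit 0)) T5.l10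
  (TrL.c (I.mix (nat_lit 29511666) (nat_lit 77433728)) (xR T0.l11 T0.l11)
  (TrL.c (I.mix (nat_lit 29511666) (nat_lit 46070178)) T5.l11
  TrL.n)))))))) (by decide +kernel)
theorem c3_12_0 : chkTag sI cl7 cl13 cl4 t5 b3_12 (tg true true false RT.r2) (I.pos (nat_lit 0) (nat_lit 0))
  (xa (xb (xa (xb (xa T5.l0 T5.l0) (xa T5.l0 T5.l0)) (xb (xa T5.l0 T5.l0) (xa T5.l0 T5.l0))) (xa (xb (xa T5.l0 T5.l0) (xa (xc T5.l0 T5.l0) (xc T5.l0 T5.l0))) (xb (xa T5.l0 T5.l0) (xa (xc T5.l0 T5.l0) (xc T5.l0 T5.l0))))) (xa (xb (xa (xb T5.l0 T5.l0) (xb T5.l0 T5.l0)) (xa (xb T5.l0 (xc T5.l0 T5.l0)) (xb T5.l0 (xc T5.l0 T5.l0)))) (xb (xa (xb (xb T5.l0 (xc T5.l0 T5.l0)) T5.l0) (xb (xc T5.l0 T5.l0) (xc T5.l0 T5.l0))) (xa (xb T5.l0 (xc T5.l0 T5.l0)) (xb (xc T5.l0 (xk T5.l0 T5.l0)) (xc T5.l0 (xk (xa T5.l0 T5.l0) T5.l0))))))) = true := by decide +kernel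
theorem c3_12_1 : chkTag sI cl7 cl13 cl4 t0 b3_12 (tg true false false RT.r3) (I.pos (nat_lit 0) (nat_lit 0))
  (xa (xb (xk (xa T0.l8 T0.l8) T0.l8) (xk (xa T0.l8 T0.l8) T0.l8)) (xk (xb (xa T0.l2 T0.l2) (xa T0.l2 T0.l2)) (xb (xa T0.l8 T0.l2) (xa T0.l2 T0.l2)))) = true := by decide +kernel
theorem c3_12_2 : chkTag sI cl7 cl13 cl4 t5 b3_12 (Tag.mk true true false RT.tl RT.r4) (I.pos (nat_lit 0) (nat_lit 111196574))
  (xR (xR T5.l4 (xR T5.l4 T5.l4)) (xR T5.l4 (xR T5.l4 T5.l4))) = true := by decide +kernel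
theorem c3_12_3 : chkTag sI cl7 cl13 cl4 t0 b3_12 (Tag.mk true false false RT.tl RT.r5) (I.pos (nat_lit 0) (nat_lit 77433728))
  (xR (xR T0.l9 (xR T0.l9 T0.l9)) (xR T0.l9 (xa T0.l9 (xR T0.l9 T0.l9)))) = true := by decide +kernel
theorem c3_12_4 : chkTag sI cl7 cl13 cl4 t0 b3_12 (tg false false false RT.r3) (I.pos (nat_lit 0) (nat_lit 0))
  (xa (xb (xk (xa T0.l13 (xb T0.l10 T0.l10)) (xa T0.l10 (xb T0.l10 T0.l10))) (xk T0.l10 T0.l10)) (xb (xk (xa (xb T0.l10 T0.l10) (xk (xb T0.l10 T0.l10) (xb T0.l10 T0.l10))) (xa (xb T0.l10 T0.l10) (xb (xk T0.l10 T0.l10) (xk T0.l10 T0.l10)))) (xk (xa (xb T0.l10 T0.l10) (xb (xk T0.l10 T0.l10) (xk T0.l10 T0.l10))) (xa T0.l10 (xb (xk T0.l10 T0.l10) (xk T0.l10 T0.l10)))))) = true := by decide +kernel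
theorem c3_12_5 : chkTag sI cl7 cl13 cl4 t5 b3_12 (tg false true false RT.r4) (I.pos (nat_lit 0) (nat_lit 0))
  (xk (xa T5.l10 (xb T5.l10 T5.l10)) (xa T5.l10 (xb T5.l10 T5.l10))) = true := by decide +kernel
theorem c3_12_6 : chkTag sI cl7 cl13 cl4 t0 b3_12 (Tag.mk false false false RT.tl RT.r5) (I.mix (nat_lit 29511666) (nat_lit 77433728))
  (xR T0.l11 (xR T0.l11 (xR T0.l11 (xk (xa T0.l11 T0.l11) T0.l11)))) = true := by decide +kernel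
theorem c3_12_7 : chkTag sI cl7 cl13 cl4 t5 b3_12 (Tag.mk false true false RT.tl RT.r6) (I.mix (nat_lit 29511666) (nat_lit 46070178))
  (xR (xR T5.l11 T5.l11) (xR T5.l11 (xR T5.l11 T5.l11))) = true := by decide +kernel
theorem bx3_12 : BoxOK sI cl7 cl13 cl4 t5 t0 b3_12 :=
  box_mk' [(tg true true false RT.r2), (tg true false false RT.r3), (Tag.mk true true false RT.tl RT.r4), (Tag.mk true false false RT.tl RT.r5), (tg false false false RT.r3), (tg false true false RT.r4), (Tag.mk false false false RT.tl RT.r5), (Tag.mk false true false RT.tl RT.r6)] rfl (allL_c (ex_mk c3_12_0) (allL_c (ex_mk c3_12_1) (allL_c (ex_mk c3_12_2) (allL_c (ex_mk c3_12_3) (allL_c (ex_mk c3_12_4) (allL_c (ex_mk c3_12_5) (allL_c (ex_mk c3_12_6) (allL_c (ex_mk c3_12_7) allL_n))))))))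
theorem bx3_13 : BoxOK sI cl7 cl13 cl4 t5 t0 b3_13 :=
  box_mk (TrL.c (I.pos (nat_lit 0) (nat_lit 0)) (xa (xb (xa (xb T5.l0 T5.l0) (xb T5.l0 T5.l0)) (xa (xb T5.l0 (xa T5.l0 T5.l0)) (xb T5.l0 (xk T5.l0 T5.l0)))) (xb (xa (xb T5.l0 T5.l0) (xb T5.l0 (xa T5.l0 T5.l0))) (xa (xb T5.l0 (xk T5.l0 T5.l0)) (xb T5.l0 (xk T5.l0 T5.l0)))))
  (TrL.c (I.pos (nat_lit 0) (nat_lit 0)) (xk (xa T0.l8 T0.l8) (xa T0.l8 T0.l8))
  (TrL.c (I.pos (nat_lit 0) (nat_lit 111196574)) (xR (xR T5.l4 T5.l4) (xR T5.l4 (xR T5.l4 T5.l4)))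
  (TrL.c (I.pos (nat_lit 0) (nat_lit 77433728)) (xR (xR T0.l9 T0.l9) (xR T0.l9 (xR T0.l9 T0.l9)))
  (TrL.c (I.pos (nat_lit 0) (nat_lit 0)) (xk (xa T0.l10 T0.l10) T0.l10)
  (TrL.c (I.pos (nat_lit 0) (nat_lit 0)) T5.l10
  (TrL.c (I.mix (nat_lit 29511666) (nat_lit 77433728)) (xR T0.l11 (xR T0.l11 (xR T0.l11 T0.l11)))
  (TrL.c (I.mix (nat_lit 29511666) (nat_lit 46070178)) (xR T5.l11 T5.l2)
  TrL.n)))))))) (by decide +kernel)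
theorem sv3 : StarV sI cl7 cl13 cl4 t5 t0 t3 :=
  (bt_n (bt_n (bt_n (bt_b bx3_0) (bt_n (bt_b bx3_1) (bt_b bx3_2))) (bt_n (bt_n (bt_b bx3_3) (bt_b bx3_4)) (bt_n (bt_b bx3_5) (bt_b bx3_6)))) (bt_n (bt_n (bt_b bx3_7) (bt_n (bt_b bx3_8) (bt_b bx3_9))) (bt_n (bt_n (bt_b bx3_10) (bt_b bx3_11)) (bt_n (bt_b bx3_12) (bt_b bx3_13)))))
def S3 : StarD := StarD.mk cl7 cl13 cl4 5 0 t3
theorem c4_0_0 : chkTag sI cl13 cl4 cl7 t1 b4_0 (tg true true false RT.r2) (I.pos (nat_lit 0) (nat_lit 0))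
  (xa (xb (xb T1.l0 T1.l0) (xb (xa T1.l0 T1.l0) (xa T1.l0 T1.l0))) (xb T1.l0 (xa (xb T1.l0 (xb T1.l0 T1.l0)) (xb T1.l0 (xb T1.l0 T1.l0))))) = true := by decide +kernel
theorem c4_0_1 : chkTag sI cl13 cl4 cl7 t3 b4_0 (tg true false false RT.r3) (I.pos (nat_lit 0) (nat_lit 0))
  (xa (xb T3.l1 T3.l1) (xb T3.l1 T3.l1)) = true := by decide +kernel
theorem c4_0_2 : chkTag sI cl13 cl4 cl7 t1 b4_0 (Tag.mk true true false RT.tl RT.r4) (I.pos (nat_lit 0) (nat_lit 134217730))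
  (xR T1.l1 (xR T1.l1 (xR T1.l1 T1.l1))) = true := by decide +kernel
theorem c4_0_3 : chkTag sI cl13 cl4 cl7 t3 b4_0 (Tag.mk true false false RT.tl RT.r5) (I.pos (nat_lit 0) (nat_lit 110514882))
  (xR T3.l2 (xR T3.l2 (xR T3.l2 T3.l2))) = true := by decide +kernel
def rc4_0_4_l : Tr := (xa (xk (xb T3.l3 T3.l3) (xb T3.l3 T3.l3)) (xk (xb T3.l3 (xa T3.l3 T3.l3)) (xb T3.l3 (xa T3.l3 (xb T3.l3 T3.l3)))))
theorem qc4_0_4_l : chkTr (tg false false false RT.r3) b4_0 t3 rc4_0_4_l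
  (upd lo Co.b (rc sI cl13 cl4 cl7 b4_0 (I.pos (nat_lit 0) (nat_lit 0)))) = true := by decide +kernel
def rc4_0_4_rl : Tr := (xk (xb (xa T3.l3 T3.l3) (xa (xb T3.l3 T3.l3) (xb T3.l3 (xk T3.l3 (xs T3.l3 T3.l3))))) (xb (xa T3.l3 (xb T3.l3 T3.l3)) (xa (xb T3.l3 (xk T3.l3 T3.l3)) (xb (xk T3.l3 T3.l3) (xk (xs T3.l3 (xa T3.l3 T3.l3)) (xs T3.l3 (xa T3.l3 T3.l3)))))))
theorem qc4_0_4_rl : chkTr (tg false false false RT.r3) b4_0 t3 rc4_0_4_rl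
  (upd lo Co.a (upd hi Co.b (rc sI cl13 cl4 cl7 b4_0 (I.pos (nat_lit 0) (nat_lit 0))))) = true := by decide +kernel
def rc4_0_4_rrl : Tr := (xb (xa (xb T3.l3 (xk T3.l3 T3.l3)) (xb (xk T3.l3 T3.l3) (xk (xa T3.l3 T3.l3) (xa T3.l3 (xs T3.l3 T3.l3))))) (xa (xk (xb (xa T3.l3 T3.l3) (xs (xa T3.l0 T3.l3) (xa T3.l0 (xb T3.l0 T3.l0)))) (xb (xa T3.l0 T3.l3) (xs (xa T3.l0 T3.l3) (xa T3.l0 (xb T3.l0 T3.l0))))) (xk (xb (xa (xs T3.l3 T3.l3) (xs T3.l3 (xb T3.l3 T3.l3))) (xs (xa (xb T3.l3 T3.l3) (xb T3.l3 (xe T3.l3 T3.l3))) (xa (xb T3.l3 (xe T3.l0 T3.l0)) (xb (xe T3.l3 T3.l3) (xe (xk T3.l0 T3.l0) (xk T3.l0 T3.l0)))))) (xb (xa (xs T3.l3 T3.l3) (xs (xb T3.l3 T3.l3) (xb T3.l3 (xe T3.l0 T3.l0)))) (xa (xs (xb T3.l3 (xe T3.l0 T3.l0)) (xb (xe T3.l0 T3.l0) (xe T3.l0 T3.l0))) (xs (xb (xe T3.l3 T3.l3) (xe (xk T3.l0 T3.l0) (xk T3.l0 T3.l0))) (xb (xe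 (xk T3.l0 T3.l0) T3.l0) (xe (xk T3.l0 T3.l0) T3.l0))))))))
theorem qc4_0_4_rrl : chkTr (tg false false false RT.r3) b4_0 t3 rc4_0_4_rrl
  (upd lo Co.k (upd hi Co.a (upd hi Co.b (rc sI cl13 cl4 cl7 b4_0 (I.pos (nat_lit 0) (nat_lit 0)))))) = true := by decide +kernel
def rc4_0_4_rrr : Tr := (xb (xa (xb T3.l3 (xk T3.l3 T3.l3)) (xk (xb T3.l3 (xa T3.l3 (xs T3.l3 T3.l3))) (xb (xa T3.l3 T3.l3) (xa (xs T3.l3 T3.l3) (xs T3.l3 (xb T3.l3 T3.l3)))))) (xa (xk (xb (xa T3.l3 (xs T3.l0 T3.l0)) (xs (xa T3.l0 T3.l0) (xa T3.l0 T3.l0))) (xb (xa T3.l3 T3.l0) (xs (xa T3.l0 T3.l0) (xa T3.l0 T3.l0)))) (xk (xb (xa (xs T3.l3 (xb T3.l0 T3.l0)) (xs (xb T3.l3 (xe T3.l0 T3.l0)) (xb T3.l3 (xe T3.l0 T3.l0)))) (xa (xs (xb T3.l0 T3.l0) (xb T3.l0 T3.l0)) (xs (xb (xe T3.l0 T3.l0) (xe T3.l0 T3.l0)) (xb (xe T3.l0 T3.l0) (xe T3.l0 T3.l0))))) (xb (xa (xs (xb T3.l0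 T3.l0) (xb T3.l0 T3.l0)) (xs (xb T3.l3 (xe T3.l0 T3.l0)) (xb (xe T3.l0 T3.l0) (xe T3.l0 T3.l0)))) (xa (xs (xb T3.l0 T3.l0) (xb T3.l0 T3.l0)) (xk (xs (xb T3.l0 T3.l0) (xb T3.l0 T3.l0)) (xs (xb T3.l0 T3.l0) (xb T3.l0 (xe T3.l0 T3.l0)))))))))
theorem qc4_0_4_rrr : chkTr (tg false false false RT.r3) b4_0 t3 rc4_0_4_rrr
  (upd hi Co.k (upd hi Co.a (upd hi Co.b (rc sI cl13 cl4 cl7 b4_0 (I.pos (nat_lit 0) (nat_lit 0)))))) = true := by decide +kernel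
theorem qc4_0_4_rr : chkTr (tg false false false RT.r3) b4_0 t3 (Tr.N Co.k rc4_0_4_rrl rc4_0_4_rrr)
  (upd hi Co.a (upd hi Co.b (rc sI cl13 cl4 cl7 b4_0 (I.pos (nat_lit 0) (nat_lit 0))))) = true := tr_split qc4_0_4_rrl qc4_0_4_rrr
theorem qc4_0_4_r : chkTr (tg false false false RT.r3) b4_0 t3 (Tr.N Co.a rc4_0_4_rl (Tr.N Co.k rc4_0_4_rrl rc4_0_4_rrr))
  (upd hi Co.b (rc sI cl13 cl4 cl7 b4_0 (I.pos (nat_lit 0) (nat_lit 0)))) = true := tr_split qc4_0_4_rl qc4_0_4_rr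
theorem qc4_0_4_ : chkTr (tg false false false RT.r3) b4_0 t3 (Tr.N Co.b rc4_0_4_l (Tr.N Co.a rc4_0_4_rl (Tr.N Co.k rc4_0_4_rrl rc4_0_4_rrr)))
  (rc sI cl13 cl4 cl7 b4_0 (I.pos (nat_lit 0) (nat_lit 0))) = true := tr_split qc4_0_4_l qc4_0_4_r
theorem c4_0_4 : chkTag sI cl13 cl4 cl7 t3 b4_0 (tg false false false RT.r3) (I.pos (nat_lit 0) (nat_lit 0))
  (Tr.N Co.b rc4_0_4_l (Tr.N Co.a rc4_0_4_rl (Tr.N Co.k rc4_0_4_rrl rc4_0_4_rrr))) = true := tag_mk (by decide +kernel) qc4_0_4_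
theorem c4_0_5 : chkTag sI cl13 cl4 cl7 t1 b4_0 (tg false true false RT.r4) (I.pos (nat_lit 0) (nat_lit 0))
  (xb T1.l2 T1.l2) = true := by decide +kernel
theorem c4_0_6 : chkTag sI cl13 cl4 cl7 t3 b4_0 (Tag.mk false false false RT.tl RT.r5) (I.mix (nat_lit 8088324) (nat_lit 110514882))
  (xR T3.l4 (xR T3.l4 (xR T3.l4 T3.l4))) = true := by decide +kernel
theorem c4_0_7 : chkTag sI cl13 cl4 cl7 t1 b4_0 (Tag.mk false true false RT.tl RT.r6) (I.mix (nat_lit 8088324) (nat_lit 89478486))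
  (xR T1.l3 (xR T1.l3 T1.l3)) = true := by decide +kernel
theorem bx4_0 : BoxOK sI cl13 cl4 cl7 t1 t3 b4_0 :=
  box_mk' [(tg true true false RT.r2), (tg true false false RT.r3), (Tag.mk true true false RT.tl RT.r4), (Tag.mk true false false RT.tl RT.r5), (tg false false false RT.r3), (tg false true false RT.r4), (Tag.mk false false false RT.tl RT.r5), (Tag.mk false true false RT.tl RT.r6)] rfl (allL_c (ex_mk c4_0_0) (allL_c (ex_mk c4_0_1) (allL_c (ex_mk c4_0_2) (allL_c (ex_mk c4_0_3) (allL_c (ex_mk c4_0_4) (allL_c (ex_mk c4_0_5) (allL_c (ex_mk c4_0_6) (allL_c (ex_mk c4_0_7) allL_n))))))))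
theorem bx4_1 : BoxOK sI cl13 cl4 cl7 t1 t3 b4_1 :=
  box_mk (TrL.c (I.pos (nat_lit 0) (nat_lit 0)) (xa (xb (xa (xb T1.l4 T1.l4) T1.l4) (xa (xb T1.l4 T1.l4) T1.l4)) (xb T1.l4 T1.l4))
  (TrL.c (I.pos (nat_lit 0) (nat_lit 0)) (xa T3.l1 T3.l1)
  (TrL.c (I.pos (nat_lit 0) (nat_lit 134217730)) (xR T1.l1 (xR T1.l1 (xR T1.l1 T1.l1)))
  (TrL.c (I.pos (nat_lit 0) (nat_lit 110514882)) (xR T3.l4 (xR T3.l4 (xR T3.l2 T3.l2)))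
  (TrL.c (I.pos (nat_lit 0) (nat_lit 0)) (xa (xb T3.l5 T3.l5) (xb (xk T3.l5 T3.l5) T3.l5))
  (TrL.c (I.pos (nat_lit 0) (nat_lit 0)) T1.l2
  (TrL.c (I.mix (nat_lit 8088324) (nat_lit 110514882)) (xR T3.l4 (xR T3.l4 (xR T3.l4 T3.l4)))
  (TrL.c (I.mix (nat_lit 8088324) (nat_lit 89478486)) T1.l11
  TrL.n)))))))) (by decide +kernel)
theorem c4_2_0 : chkTag sI cl13 cl4 cl7 t1 b4_2 (tg true true false RT.r2) (I.pos (nat_lit 0) (nat_lit 0))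
  (xb (xa (xb T1.l4 T1.l4) (xb T1.l4 T1.l4)) (xa (xb (xa T1.l4 T1.l4) (xa (xb T1.l4 T1.l4) (xb T1.l4 T1.l4))) (xb (xa T1.l4 T1.l4) (xa (xb T1.l4 T1.l4) (xb T1.l4 T1.l4))))) = true := by decide +kernel
theorem c4_2_1 : chkTag sI cl13 cl4 cl7 t3 b4_2 (tg true false false RT.r3) (I.pos (nat_lit 0) (nat_lit 0))
  (xb (xa T3.l1 T3.l1) (xa T3.l1 T3.l1)) = true := by decide +kernel
theorem c4_2_2 : chkTag sI cl13 cl4 cl7 t1 b4_2 (Tag.mk true true false RT.tl RT.r4) (I.pos (nat_lit 0) (nat_lit 134217730))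
  (xR T1.l1 (xR T1.l1 (xR T1.l1 T1.l1))) = true := by decide +kernel
theorem c4_2_3 : chkTag sI cl13 cl4 cl7 t3 b4_2 (Tag.mk true false false RT.tl RT.r5) (I.pos (nat_lit 0) (nat_lit 110514882))
  (xR T3.l2 (xR T3.l2 (xR T3.l2 T3.l2))) = true := by decide +kernel
def rc4_2_4_l : Tr := (xa (xb T3.l5 (xk (xb T3.l5 T3.l5) (xb T3.l5 T3.l5))) (xk (xb T3.l5 (xb (xa T3.l3 T3.l3) T3.l3)) (xb (xb T3.l5 T3.l5) (xb (xa T3.l3 T3.l3) T3.l3))))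
theorem qc4_2_4_l : chkTr (tg false false false RT.r3) b4_2 t3 rc4_2_4_l
  (upd lo Co.b (rc sI cl13 cl4 cl7 b4_2 (I.pos (nat_lit 0) (nat_lit 0)))) = true := by decide +kernel
def rc4_2_4_rl : Tr := (xk (xb (xb (xa T3.l5 T3.l3) (xa (xk T3.l3 T3.l3) T3.l3)) (xb (xa T3.l3 T3.l3) (xa (xk T3.l3 T3.l3) (xk (xb T3.l3 T3.l3) (xb T3.l3 (xa T3.l3 T3.l3)))))) (xb (xb (xa T3.l5 T3.l3) (xa (xk T3.l3 (xb T3.l3 T3.l3)) T3.l3)) (xb (xa T3.l3 (xk T3.l3 T3.l3)) (xa (xk T3.l3 (xb T3.l3 T3.l3)) (xk (xb T3.l3 (xa T3.l3 (xs T3.l3 T3.l3))) (xb (xa T3.l3 T3.l3) (xa T3.l3 (xs T3.l3 (xc T3.l3 T3.l3)))))))))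
theorem qc4_2_4_rl : chkTr (tg false false false RT.r3) b4_2 t3 rc4_2_4_rl
  (upd lo Co.a (upd hi Co.b (rc sI cl13 cl4 cl7 b4_2 (I.pos (nat_lit 0) (nat_lit 0))))) = true := by decide +kernel
def rc4_2_4_rrl : Tr := (xk (xb T3.l3 (xa T3.l3 (xk T3.l3 (xb T3.l3 T3.l3)))) (xb (xa T3.l3 T3.l3) (xa (xk T3.l3 T3.l3) (xk (xb T3.l3 T3.l3) (xb T3.l3 (xa T3.l3 T3.l3))))))
theorem qc4_2_4_rrl : chkTr (tg false false false RT.r3) b4_2 t3 rc4_2_4_rrl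
  (upd lo Co.b (upd hi Co.a (upd hi Co.b (rc sI cl13 cl4 cl7 b4_2 (I.pos (nat_lit 0) (nat_lit 0)))))) = true := by decide +kernel
def rc4_2_4_rrrl : Tr := (xa (xb (xk T3.l3 (xb T3.l3 T3.l3)) (xk (xb (xa T3.l3 T3.l3) (xa (xs T3.l3 T3.l3) (xs T3.l3 (xe T3.l3 T3.l3)))) (xb (xa T3.l3 (xs T3.l3 T3.l3)) (xa (xs T3.l3 T3.l3) (xs T3.l3 (xe (xc T3.l3 T3.l3) (xc T3.l3 T3.l3))))))) (xb (xk (xb T3.l3 (xa T3.l3 (xs T3.l3 T3.l3))) (xb (xa T3.l3 T3.l3) (xa (xs T3.l3 T3.l3) (xs T3.l3 (xe T3.l3 T3.l3))))) (xk (xb (xa (xs T3.l3 T3.l3) (xs T3.l0 (xe T3.l0 T3.l0))) (xa (xs (xe T3.l3 T3.l3) (xe (xk T3.l0 T3.l3) (xk T3.l3 T3.l3))) (xs T3.l0 T3.l0))) (xb (xa (xs T3.l3 (xe T3.l3 T3.l3)) (xs (xe T3.l0 T3.l0) (xe (xk T3.l0 T3.l0) (xk T3.l0 T3.l0)))) (xa (xs (xe (xk T3.l0 T3.l3) (xk T3.l0 T3.l3)) (xe (xk (xc T3.l0 T3.l3) (xc T3.l0 T3.l3)) (xk T3.l3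 (xc T3.l0 T3.l3)))) (xs T3.l0 (xe T3.l0 T3.l0)))))))
theorem qc4_2_4_rrrl : chkTr (tg false false false RT.r3) b4_2 t3 rc4_2_4_rrrl
  (upd lo Co.k (upd hi Co.b (upd hi Co.a (upd hi Co.b (rc sI cl13 cl4 cl7 b4_2 (I.pos (nat_lit 0) (nat_lit 0))))))) = true := by decide +kernel
def rc4_2_4_rrrrl : Tr := (xb (xk (xb T3.l3 (xa T3.l3 T3.l3)) (xb T3.l3 (xa T3.l3 (xs T3.l3 T3.l3)))) (xk (xb (xa T3.l3 (xs T3.l3 (xc T3.l3 T3.l3))) (xa (xs T3.l3 (xc T3.l3 T3.l3)) (xs (xe T3.l3 T3.l3) (xc (xe (xk T3.l0 T3.l0) T3.l3) (xe (xk T3.l3 T3.l3) T3.l3))))) (xb (xa (xs T3.l3 T3.l3) (xs T3.l3 (xc (xe T3.l3 T3.l3) T3.l3))) (xa (xs (xc T3.l3 T3.l3) (xc (xe T3.l3 T3.l3) (xe T3.l3 T3.l3))) (xs (xc (xe T3.l3 T3.l3) (xe T3.l3 T3.l3)) (xc (xe (xk T3.l3 (xb T3.l3 T3.l0)) (xk T3.l3 T3.l3)) (xe (xk T3.l3 T3.l3) (xk T3.l3 T3.l3))))))))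
theorem qc4_2_4_rrrrl : chkTr (tg false false false RT.r3) b4_2 t3 rc4_2_4_rrrrl
  (upd lo Co.a (upd hi Co.k (upd hi Co.b (upd hi Co.a (upd hi Co.b (rc sI cl13 cl4 cl7 b4_2 (I.pos (nat_lit 0) (nat_lit 0)))))))) = true := by decide +kernel
def rc4_2_4_rrrrrl : Tr := (xk (xb (xa T3.l3 (xs T3.l3 T3.l3)) (xa (xs T3.l3 T3.l3) (xs T3.l3 (xe (xc T3.l0 T3.l3) T3.l3)))) (xb (xa T3.l3 (xs T3.l3 (xc T3.l0 T3.l3))) (xa (xs T3.l3 (xc T3.l3 T3.l3)) (xs (xe T3.l3 T3.l3) (xc T3.l0 (xe T3.l3 T3.l3))))))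
theorem qc4_2_4_rrrrrl : chkTr (tg false false false RT.r3) b4_2 t3 rc4_2_4_rrrrrl
  (upd lo Co.b (upd hi Co.a (upd hi Co.k (upd hi Co.b (upd hi Co.a (upd hi Co.b (rc sI cl13 cl4 cl7 b4_2 (I.pos (nat_lit 0) (nat_lit 0))))))))) = true := by decide +kernel
def rc4_2_4_rrrrrr : Tr := (xk (xb (xa (xs (xe T3.l3 T3.l3) (xc (xe T3.l0 T3.l0) (xe T3.l3 T3.l3))) (xs (xe (xk T3.l0 T3.l0) (xc T3.l0 T3.l3)) (xe (xc T3.l0 (xk T3.l0 T3.l0)) (xc T3.l0 (xk T3.l0 T3.l0))))) (xa (xs (xe (xc T3.l0 (xk T3.l3 T3.l3)) (xc T3.l0 T3.l3)) (xe (xc T3.l0 (xk T3.l3 (xb T3.l3 T3.l3))) (xc T3.l0 (xk T3.l3 (xb T3.l3 T3.l3))))) (xs T3.l0 (xe (xc T3.l0 T3.l0) (xc T3.l0 T3.l0))))) (xb (xa (xs (xe (xc T3.l0 T3.l3) T3.l3) (xc (xe (xk T3.l0 T3.l0) (xk T3.l0 T3.l0)) (xe (xk T3.l3 T3.l3) T3.l3))) (xs (xe (xc T3.l0 (xk T3.l0 T3.l0)) (xc T3.l0 (xk T3.l0 T3.l0))) (xc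 T3.l0 (xe (xk T3.l0 T3.l0) (xk T3.l0 (xa T3.l0 T3.l0)))))) (xa (xs (xe (xc T3.l0 (xk T3.l3 T3.l3)) (xc T3.l0 (xk T3.l3 T3.l3))) (xc T3.l0 (xe (xk (xb T3.l3 (xa T3.l3 T3.l0)) (xb T3.l3 (xa T3.l3 T3.l0))) (xk (xb T3.l3 T3.l3) (xb T3.l3 (xa T3.l3 T3.l0)))))) (xs (xe T3.l0 T3.l0) (xc (xe T3.l0 T3.l0) (xe (xk T3.l0 T3.l0) (xk T3.l0 T3.l0)))))))
theorem qc4_2_4_rrrrrr : chkTr (tg false false false RT.r3) b4_2 t3 rc4_2_4_rrrrrr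
  (upd hi Co.b (upd hi Co.a (upd hi Co.k (upd hi Co.b (upd hi Co.a (upd hi Co.b (rc sI cl13 cl4 cl7 b4_2 (I.pos (nat_lit 0) (nat_lit 0))))))))) = true := by decide +kernel
theorem qc4_2_4_rrrrr : chkTr (tg false false false RT.r3) b4_2 t3 (Tr.N Co.b rc4_2_4_rrrrrl rc4_2_4_rrrrrr)
  (upd hi Co.a (upd hi Co.k (upd hi Co.b (upd hi Co.a (upd hi Co.b (rc sI cl13 cl4 cl7 b4_2 (I.pos (nat_lit 0) (nat_lit 0)))))))) = true := tr_split qc4_2_4_rrrrrl qc4_2_4_rrrrrr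
theorem qc4_2_4_rrrr : chkTr (tg false false false RT.r3) b4_2 t3 (Tr.N Co.a rc4_2_4_rrrrl (Tr.N Co.b rc4_2_4_rrrrrl rc4_2_4_rrrrrr))
  (upd hi Co.k (upd hi Co.b (upd hi Co.a (upd hi Co.b (rc sI cl13 cl4 cl7 b4_2 (I.pos (nat_lit 0) (nat_lit 0))))))) = true := tr_split qc4_2_4_rrrrl qc4_2_4_rrrrr
theorem qc4_2_4_rrr : chkTr (tg false false false RT.r3) b4_2 t3 (Tr.N Co.k rc4_2_4_rrrl (Tr.N Co.a rc4_2_4_rrrrl (Tr.N Co.b rc4_2_4_rrrrrl rc4_2_4_rrrrrr)))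
  (upd hi Co.b (upd hi Co.a (upd hi Co.b (rc sI cl13 cl4 cl7 b4_2 (I.pos (nat_lit 0) (nat_lit 0)))))) = true := tr_split qc4_2_4_rrrl qc4_2_4_rrrr
theorem qc4_2_4_rr : chkTr (tg false false false RT.r3) b4_2 t3 (Tr.N Co.b rc4_2_4_rrl (Tr.N Co.k rc4_2_4_rrrl (Tr.N Co.a rc4_2_4_rrrrl (Tr.N Co.b rc4_2_4_rrrrrl rc4_2_4_rrrrrr))))
  (upd hi Co.a (upd hi Co.b (rc sI cl13 cl4 cl7 b4_2 (I.pos (nat_lit 0) (nat_lit 0))))) = true := tr_split qc4_2_4_rrl qc4_2_4_rrr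
theorem qc4_2_4_r : chkTr (tg false false false RT.r3) b4_2 t3 (Tr.N Co.a rc4_2_4_rl (Tr.N Co.b rc4_2_4_rrl (Tr.N Co.k rc4_2_4_rrrl (Tr.N Co.a rc4_2_4_rrrrl (Tr.N Co.b rc4_2_4_rrrrrl rc4_2_4_rrrrrr)))))
  (upd hi Co.b (rc sI cl13 cl4 cl7 b4_2 (I.pos (nat_lit 0) (nat_lit 0)))) = true := tr_split qc4_2_4_rl qc4_2_4_rr
theorem qc4_2_4_ : chkTr (tg false false false RT.r3) b4_2 t3 (Tr.N Co.b rc4_2_4_l (Tr.N Co.a rc4_2_4_rl (Tr.N Co.b rc4_2_4_rrl (Tr.N Co.k rc4_2_4_rrrl (Tr.N Co.a rc4_2_4_rrrrl (Tr.N Co.b rc4_2_4_rrrrrl rc4_2_4_rrrrrr))))))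
  (rc sI cl13 cl4 cl7 b4_2 (I.pos (nat_lit 0) (nat_lit 0))) = true := tr_split qc4_2_4_l qc4_2_4_r
theorem c4_2_4 : chkTag sI cl13 cl4 cl7 t3 b4_2 (tg false false false RT.r3) (I.pos (nat_lit 0) (nat_lit 0))
  (Tr.N Co.b rc4_2_4_l (Tr.N Co.a rc4_2_4_rl (Tr.N Co.b rc4_2_4_rrl (Tr.N Co.k rc4_2_4_rrrl (Tr.N Co.a rc4_2_4_rrrrl (Tr.N Co.b rc4_2_4_rrrrrl rc4_2_4_rrrrrr)))))) = true := tag_mk (by decide +kernel) qc4_2_4_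
theorem c4_2_5 : chkTag sI cl13 cl4 cl7 t1 b4_2 (tg false true false RT.r4) (I.pos (nat_lit 0) (nat_lit 0))
  (xb T1.l2 T1.l2) = true := by decide +kernel
theorem c4_2_6 : chkTag sI cl13 cl4 cl7 t3 b4_2 (Tag.mk false false false RT.tl RT.r5) (I.mix (nat_lit 8088324) (nat_lit 110514882))
  (xR T3.l4 (xR T3.l4 (xR T3.l4 T3.l4))) = true := by decide +kernel
theorem c4_2_7 : chkTag sI cl13 cl4 cl7 t1 b4_2 (Tag.mk false true false RT.tl RT.r6) (I.mix (nat_lit 8088324) (nat_lit 89478486))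
  (xR T1.l3 (xR T1.l3 T1.l3)) = true := by decide +kernel
theorem bx4_2 : BoxOK sI cl13 cl4 cl7 t1 t3 b4_2 :=
  box_mk' [(tg true true false RT.r2), (tg true false false RT.r3), (Tag.mk true true false RT.tl RT.r4), (Tag.mk true false false RT.tl RT.r5), (tg false false false RT.r3), (tg false true false RT.r4), (Tag.mk false false false RT.tl RT.r5), (Tag.mk false true false RT.tl RT.r6)] rfl (allL_c (ex_mk c4_2_0) (allL_c (ex_mk c4_2_1) (allL_c (ex_mk c4_2_2) (allL_c (ex_mk c4_2_3) (allL_c (ex_mk c4_2_4) (allL_c (ex_mk c4_2_5) (allL_c (ex_mk c4_2_6) (allL_c (ex_mk c4_2_7) allL_n))))))))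
theorem bx4_3 : BoxOK sI cl13 cl4 cl7 t1 t3 b4_3 :=
  box_mk (TrL.c (I.pos (nat_lit 0) (nat_lit 0)) (xa T3.l1 T3.l7)
  (TrL.c (I.pos (nat_lit 0) (nat_lit 0)) T1.l1
  (TrL.c (I.mix (nat_lit 8088324) (nat_lit 110514882)) (xR T3.l6 (xR T3.l4 (xR T3.l6 T3.l6)))
  (TrL.c (I.mix (nat_lit 8088324) (nat_lit 89478486)) (xR T1.l5 T1.l1)
  TrL.n)))) (by decide +kernel)
theorem bx4_4 : BoxOK sI cl13 cl4 cl7 t1 t3 b4_4 :=
  box_mk (TrL.c (I.pos (nat_lit 0) (nat_lit 0)) T3.l7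
  (TrL.c (I.pos (nat_lit 0) (nat_lit 0)) T1.l2
  (TrL.c (I.mix (nat_lit 8088324) (nat_lit 110514882)) (xR T3.l4 T3.l4)
  (TrL.c (I.mix (nat_lit 8088324) (nat_lit 89478486)) (xR T1.l5 T1.l1)
  TrL.n)))) (by decide +kernel)
theorem bx4_5 : BoxOK sI cl13 cl4 cl7 t1 t3 b4_5 :=
  box_mk (TrL.c (I.pos (nat_lit 0) (nat_lit 0)) (xb T1.l7 T1.l4)
  (TrL.c (I.pos (nat_lit 0) (nat_lit 0)) T3.l1
  (TrL.c (I.pos (nat_lit 0) (nat_lit 134217730)) (xR T1.l1 T1.l1)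
  (TrL.c (I.pos (nat_lit 0) (nat_lit 110514882)) T3.l4
  (TrL.c (I.pos (nat_lit 0) (nat_lit 0)) T3.l5
  (TrL.c (I.pos (nat_lit 0) (nat_lit 0)) T1.l2
  (TrL.c (I.mix (nat_lit 8088324) (nat_lit 110514882)) T3.l4
  (TrL.c (I.mix (nat_lit 8088324) (nat_lit 89478486)) T1.l3
  TrL.n)))))))) (by decide +kernel)
theorem bx4_6 : BoxOK sI cl13 cl4 cl7 t1 t3 b4_6 :=
  box_mk (TrL.c (I.pos (nat_lit 0) (nat_lit 0)) (xa (xb T1.l0 T1.l0) (xb T1.l0 (xa T1.l0 T1.l0)))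
  (TrL.c (I.pos (nat_lit 0) (nat_lit 0)) (xa T3.l1 (xb T3.l10 (xk T3.l1 T3.l1)))
  (TrL.c (I.pos (nat_lit 0) (nat_lit 134217730)) (xR T1.l11 (xR T1.l1 T1.l11))
  (TrL.c (I.pos (nat_lit 0) (nat_lit 110514882)) (xR T3.l4 (xR T3.l2 (xR T3.l2 T3.l2)))
  (TrL.c (I.pos (nat_lit 0) (nat_lit 0)) (xa (xb (xk (xa T3.l3 (xb T3.l3 T3.l3)) (xa T3.l3 (xb T3.l3 T3.l3))) (xk T3.l3 (xb T3.l3 T3.l3))) (xb (xk (xa (xb (xk T3.l3 T3.l3) T3.l3) (xb (xk (xa T3.l3 T3.l3) T3.l3) (xk (xa T3.l3 T3.l3) T3.l3))) (xa (xb (xk T3.l3 T3.l3) T3.l3) (xb (xk T3.l3 T3.l3) (xk T3.l3 T3.l3)))) (xk (xa (xb T3.l3 T3.l3) (xb (xk T3.l3 T3.l3) (xk (xb T3.l3 T3.l3) (xb T3.l3 (xa T3.l3 T3.l3))))) (xa (xb T3.l3 (xb T3.l3 T3.l3)) (xb (xk T3.l3 T3.l3) (xk (xa T3.l3 (xb T3.l3 T3.l3)) (xa (xb T3.l3 T3.l3) (xb T3.l3 (xs T3.l3 T3.l3)))))))))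
  (TrL.c (I.pos (nat_lit 0) (nat_lit 0)) (xk T1.l2 T1.l2)
  (TrL.c (I.mix (nat_lit 8088324) (nat_lit 110514882)) (xR T3.l4 (xR T3.l4 (xR T3.l4 (xk T3.l4 T3.l4))))
  (TrL.c (I.mix (nat_lit 8088324) (nat_lit 89478486)) (xR T1.l3 (xR T1.l3 (xR T1.l3 T1.l3)))
  TrL.n)))))))) (by decide +kernel)
theorem bx4_7 : BoxOK sI cl13 cl4 cl7 t1 t3 b4_7 :=
  box_mk (TrL.c (I.pos (nat_lit 0) (nat_lit 0)) (xb (xa (xb T1.l7 T1.l7) T1.l7) (xa (xb T1.l7 T1.l7) T1.l7))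
  (TrL.c (I.pos (nat_lit 0) (nat_lit 0)) T3.l7
  (TrL.c (I.pos (nat_lit 0) (nat_lit 134217730)) (xR T1.l1 (xR T1.l1 T1.l11))
  (TrL.c (I.pos (nat_lit 0) (nat_lit 110514882)) T3.l4
  (TrL.c (I.pos (nat_lit 0) (nat_lit 0)) T3.l8
  (TrL.c (I.pos (nat_lit 0) (nat_lit 0)) T1.l2
  (TrL.c (I.mix (nat_lit 8088324) (nat_lit 110514882)) T3.l4
  (TrL.c (I.mix (nat_lit 8088324) (nat_lit 89478486)) T1.l3
  TrL.n)))))))) (by decide +kernel)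
theorem bx4_8 : BoxOK sI cl13 cl4 cl7 t1 t3 b4_8 :=
  box_mk (TrL.c (I.pos (nat_lit 0) (nat_lit 0)) (xa (xb T1.l0 T1.l0) (xb T1.l0 T1.l0))
  (TrL.c (I.pos (nat_lit 0) (nat_lit 0)) (xk T3.l1 T3.l1)
  (TrL.c (I.pos (nat_lit 0) (nat_lit 134217730)) (xR T1.l1 T1.l1)
  (TrL.c (I.pos (nat_lit 0) (nat_lit 110514882)) (xR T3.l2 T3.l2)
  (TrL.c (I.pos (nat_lit 0) (nat_lit 0)) (xb (xk T3.l3 (xa T3.l3 T3.l3)) (xk (xa T3.l3 (xb T3.l3 (xk T3.l3 T3.l3))) (xa (xb T3.l3 T3.l3) (xb T3.l3 (xk (xa T3.l0 T3.l0) (xa T3.l0 T3.l0))))))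
  (TrL.c (I.pos (nat_lit 0) (nat_lit 0)) T1.l2
  (TrL.c (I.mix (nat_lit 8088324) (nat_lit 110514882)) (xR T3.l4 T3.l4)
  (TrL.c (I.mix (nat_lit 8088324) (nat_lit 89478486)) (xR T1.l3 T1.l3)
  TrL.n)))))))) (by decide +kernel)
theorem bx4_9 : BoxOK sI cl13 cl4 cl7 t1 t3 b4_9 :=
  box_mk (TrL.c (I.pos (nat_lit 0) (nat_lit 0)) (xb T1.l7 T1.l4)
  (TrL.c (I.pos (nat_lit 0) (nat_lit 0)) T3.l1
  (TrL.c (I.pos (nat_lit 0) (nat_lit 134217730)) (xR T1.l1 T1.l1)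
  (TrL.c (I.pos (nat_lit 0) (nat_lit 110514882)) T3.l4
  (TrL.c (I.pos (nat_lit 0) (nat_lit 0)) T3.l5
  (TrL.c (I.pos (nat_lit 0) (nat_lit 0)) T1.l2
  (TrL.c (I.mix (nat_lit 8088324) (nat_lit 110514882)) T3.l4
  (TrL.c (I.mix (nat_lit 8088324) (nat_lit 89478486)) T1.l3
  TrL.n)))))))) (by decide +kernel)
theorem sv4 : StarV sI cl13 cl4 cl7 t1 t3 t4 :=
  (bt_n (bt_n (bt_n (bt_b bx4_0) (bt_b bx4_1)) (bt_n (bt_b bx4_2) (bt_n (bt_b bx4_3) (bt_b bx4_4)))) (bt_n (bt_n (bt_b bx4_5) (bt_b bx4_6)) (bt_n (bt_b bx4_7) (bt_n (bt_b bx4_8) (bt_b bx4_9)))))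
def S4 : StarD := StarD.mk cl13 cl4 cl7 1 3 t4
theorem c5_0_0 : chkTag sI cl13 cl7 cl4 t3 b5_0 (tg true true false RT.r2) (I.pos (nat_lit 0) (nat_lit 0))
  (xa (xb (xa (xb (xc T3.l0 (xa T3.l0 T3.l0)) (xc T3.l0 (xa T3.l0 T3.l0))) (xb (xa (xc T3.l0 T3.l0) (xc T3.l0 (xb T3.l0 T3.l0))) (xa (xc T3.l0 T3.l0) (xc T3.l0 T3.l0)))) (xa (xb (xc T3.l0 (xa T3.l0 T3.l0)) (xc (xa T3.l0 T3.l0) (xa T3.l0 T3.l0))) (xb (xc T3.l0 (xa T3.l0 T3.l0)) (xc (xa T3.l0 T3.l0) (xa T3.l0 T3.l0))))) (xb (xa (xc (xb (xa T3.l0 T3.l0) (xa T3.l0 T3.l0)) (xb (xa (xb T3.l0 T3.l0) (xb T3.l0 T3.l0)) (xa (xb T3.l0 T3.l0) (xb T3.l0 T3.l0)))) (xc (xb (xa T3.l0 T3.l0) (xa T3.l0 T3.l0)) (xb (xa (xb T3.l0 T3.l0) (xb (xk T3.l0 T3.l0) T3.l0)) (xa (xb T3.l0 T3.l0) (xb T3.l0 T3.l0))))) (xa (xb (xc (xa T3.l0 T3.l0) (xa T3.l0 (xb T3.l0 T3.l0))) (xc (xa T3.l0 T3.l0) (xa (xb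 T3.l0 T3.l0) (xb T3.l0 T3.l0)))) (xb (xc (xa T3.l0 T3.l0) (xa (xb T3.l0 T3.l0) (xb T3.l0 T3.l0))) (xc (xa T3.l0 T3.l0) (xa (xb T3.l0 T3.l0) (xb T3.l0 T3.l0))))))) = true := by decide +kernel
theorem c5_0_1 : chkTag sI cl13 cl7 cl4 t1 b5_0 (tg true false false RT.r3) (I.pos (nat_lit 0) (nat_lit 0))
  (xa (xk T1.l8 T1.l8) (xk T1.l8 (xb T1.l8 T1.l8))) = true := by decide +kernel
theorem c5_0_2 : chkTag sI cl13 cl7 cl4 t3 b5_0 (Tag.mk true true false RT.tl RT.r4) (I.pos (nat_lit 0) (nat_lit 134217730))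
  (xR T3.l4 (xR T3.l4 (xR T3.l4 T3.l4))) = true := by decide +kernel
theorem c5_0_3 : chkTag sI cl13 cl7 cl4 t1 b5_0 (Tag.mk true false false RT.tl RT.r5) (I.pos (nat_lit 0) (nat_lit 110514882))
  (xR T1.l3 (xR T1.l9 (xR T1.l9 T1.l9))) = true := by decide +kernel
def rc5_0_4_l : Tr := (xk (xb (xb T1.l13 T1.l10) (xb T1.l10 (xa T1.l10 T1.l10))) (xb (xb T1.l13 T1.l10) (xb (xa T1.l10 T1.l10) (xa T1.l10 (xb T1.l10 (xk T1.l10 T1.l10))))))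
theorem qc5_0_4_l : chkTr (tg false false false RT.r3) b5_0 t1 rc5_0_4_l
  (upd lo Co.a (rc sI cl13 cl7 cl4 b5_0 (I.pos (nat_lit 0) (nat_lit 0)))) = true := by decide +kernel
def rc5_0_4_rl : Tr := (xb (xb T1.l10 T1.l10) (xb (xa T1.l10 (xk T1.l10 (xb T1.l10 T1.l10))) (xa (xk (xb T1.l10 T1.l10) (xb T1.l10 (xa T1.l10 T1.l10))) (xk (xb (xa T1.l10 (xd T1.l10 T1.l10)) (xa (xd T1.l10 T1.l10) (xd (xs T1.l10 (xk T1.l10 T1.l10)) (xs T1.l10 (xk T1.l10 T1.l10))))) (xb (xa T1.l10 (xd T1.l10 T1.l10)) (xa (xd (xs T1.l10 T1.l10) (xs T1.l10 T1.l10)) (xd (xs (xk T1.l10 T1.l10) (xk (xc T1.l10 T1.l10) (xc T1.l10 T1.l10))) (xs (xk T1.l10 T1.l10) (xc (xk T1.l10 T1.l10) T1.l10)))))))))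
theorem qc5_0_4_rl : chkTr (tg false false false RT.r3) b5_0 t1 rc5_0_4_rl
  (upd lo Co.k (upd hi Co.a (rc sI cl13 cl7 cl4 b5_0 (I.pos (nat_lit 0) (nat_lit 0))))) = true := by decide +kernel
def rc5_0_4_rrl : Tr := (xb T1.l10 (xa T1.l10 T1.l10))
theorem qc5_0_4_rrl : chkTr (tg false false false RT.r3) b5_0 t1 rc5_0_4_rrl
  (upd lo Co.b (upd hi Co.k (upd hi Co.a (rc sI cl13 cl7 cl4 b5_0 (I.pos (nat_lit 0) (nat_lit 0)))))) = true := by decide +kernel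
def rc5_0_4_rrrl : Tr := (xa (xb T1.l10 T1.l10) (xk (xb T1.l10 (xa T1.l10 T1.l10)) (xb T1.l10 (xa T1.l10 (xd T1.l10 T1.l10)))))
theorem qc5_0_4_rrrl : chkTr (tg false false false RT.r3) b5_0 t1 rc5_0_4_rrrl
  (upd lo Co.b (upd hi Co.b (upd hi Co.k (upd hi Co.a (rc sI cl13 cl7 cl4 b5_0 (I.pos (nat_lit 0) (nat_lit 0))))))) = true := by decide +kernel
def rc5_0_4_rrrrl : Tr := (xk (xb T1.l10 (xa T1.l10 (xd T1.l10 T1.l10))) (xb (xa T1.l10 T1.l10) (xa (xd T1.l10 T1.l10) (xd (xs T1.l10 T1.l10) (xs T1.l10 (xc T1.l10 T1.l10))))))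
theorem qc5_0_4_rrrrl : chkTr (tg false false false RT.r3) b5_0 t1 rc5_0_4_rrrrl
  (upd lo Co.a (upd hi Co.b (upd hi Co.b (upd hi Co.k (upd hi Co.a (rc sI cl13 cl7 cl4 b5_0 (I.pos (nat_lit 0) (nat_lit 0)))))))) = true := by decide +kernel
def rc5_0_4_rrrrr : Tr := (xk (xb (xa (xd T1.l10 T1.l10) (xd (xs T1.l10 (xc T1.l10 T1.l10)) (xs T1.l10 (xc T1.l10 T1.l10)))) (xa (xd (xs T1.l10 (xc (xk T1.l10 T1.l10) T1.l10)) (xs T1.l10 (xc (xk T1.l10 T1.l10) T1.l10))) (xd (xs (xc (xk T1.l10 T1.l10) T1.l10) (xc (xk (xb T1.l10 T1.l10) (xb T1.l10 (xa T1.l10 T1.l10))) (xk T1.l10 T1.l10))) (xs (xc (xk T1.l10 T1.l10) T1.l10) (xc (xk (xb T1.l10 T1.l10) (xb T1.l10 (xa T1.l10 T1.l10))) (xk T1.l10 T1.l10)))))) (xb (xa (xd T1.l10 (xc T1.l10 T1.l10)) (xd (xs T1.l10 (xc (xk T1.l10 T1.l10) T1.l10)) (xc (xs T1.l10 (xk T1.l10 T1.l10)) T1.l10))) (xa (xd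 (xs (xc T1.l10 T1.l10) (xc (xk T1.l10 (xb T1.l10 T1.l10)) T1.l10)) (xs (xc T1.l10 T1.l10) (xc (xk T1.l10 (xb T1.l10 T1.l10)) T1.l10))) (xd (xs (xc (xk T1.l10 (xa T1.l10 T1.l10)) (xk T1.l10 T1.l10)) (xc (xk (xb T1.l10 (xa T1.l10 T1.l10)) (xa (xb T1.l10 T1.l10) (xb T1.l10 (xd T1.l10 T1.l10)))) (xk (xb T1.l10 T1.l10) (xb T1.l10 T1.l10)))) (xs (xc (xk (xa T1.l10 T1.l10) (xa T1.l10 T1.l10)) (xk T1.l10 T1.l10)) (xc (xk (xb T1.l10 (xa T1.l10 (xd T1.l10 T1.l10))) (xa (xb T1.l10 T1.l10) (xb T1.l10 (xd T1.l10 T1.l10)))) (xk (xb T1.l10 T1.l10) (xb T1.l10 T1.l10))))))))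
theorem qc5_0_4_rrrrr : chkTr (tg false false false RT.r3) b5_0 t1 rc5_0_4_rrrrr
  (upd hi Co.a (upd hi Co.b (upd hi Co.b (upd hi Co.k (upd hi Co.a (rc sI cl13 cl7 cl4 b5_0 (I.pos (nat_lit 0) (nat_lit 0)))))))) = true := by decide +kernel
theorem qc5_0_4_rrrr : chkTr (tg false false false RT.r3) b5_0 t1 (Tr.N Co.a rc5_0_4_rrrrl rc5_0_4_rrrrr)
  (upd hi Co.b (upd hi Co.b (upd hi Co.k (upd hi Co.a (rc sI cl13 cl7 cl4 b5_0 (I.pos (nat_lit 0) (nat_lit 0))))))) = true := tr_split qc5_0_4_rrrrl qc5_0_4_rrrrr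
theorem qc5_0_4_rrr : chkTr (tg false false false RT.r3) b5_0 t1 (Tr.N Co.b rc5_0_4_rrrl (Tr.N Co.a rc5_0_4_rrrrl rc5_0_4_rrrrr))
  (upd hi Co.b (upd hi Co.k (upd hi Co.a (rc sI cl13 cl7 cl4 b5_0 (I.pos (nat_lit 0) (nat_lit 0)))))) = true := tr_split qc5_0_4_rrrl qc5_0_4_rrrr
theorem qc5_0_4_rr : chkTr (tg false false false RT.r3) b5_0 t1 (Tr.N Co.b rc5_0_4_rrl (Tr.N Co.b rc5_0_4_rrrl (Tr.N Co.a rc5_0_4_rrrrl rc5_0_4_rrrrr)))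
  (upd hi Co.k (upd hi Co.a (rc sI cl13 cl7 cl4 b5_0 (I.pos (nat_lit 0) (nat_lit 0))))) = true := tr_split qc5_0_4_rrl qc5_0_4_rrr
theorem qc5_0_4_r : chkTr (tg false false false RT.r3) b5_0 t1 (Tr.N Co.k rc5_0_4_rl (Tr.N Co.b rc5_0_4_rrl (Tr.N Co.b rc5_0_4_rrrl (Tr.N Co.a rc5_0_4_rrrrl rc5_0_4_rrrrr))))
  (upd hi Co.a (rc sI cl13 cl7 cl4 b5_0 (I.pos (nat_lit 0) (nat_lit 0)))) = true := tr_split qc5_0_4_rl qc5_0_4_rr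
theorem qc5_0_4_ : chkTr (tg false false false RT.r3) b5_0 t1 (Tr.N Co.a rc5_0_4_l (Tr.N Co.k rc5_0_4_rl (Tr.N Co.b rc5_0_4_rrl (Tr.N Co.b rc5_0_4_rrrl (Tr.N Co.a rc5_0_4_rrrrl rc5_0_4_rrrrr)))))
  (rc sI cl13 cl7 cl4 b5_0 (I.pos (nat_lit 0) (nat_lit 0))) = true := tr_split qc5_0_4_l qc5_0_4_r
theorem c5_0_4 : chkTag sI cl13 cl7 cl4 t1 b5_0 (tg false false false RT.r3) (I.pos (nat_lit 0) (nat_lit 0))
  (Tr.N Co.a rc5_0_4_l (Tr.N Co.k rc5_0_4_rl (Tr.N Co.b rc5_0_4_rrl (Tr.N Co.b rc5_0_4_rrrl (Tr.N Co.a rc5_0_4_rrrrl rc5_0_4_rrrrr))))) = true := tag_mk (by decide +kernel) qc5_0_4_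
theorem c5_0_5 : chkTag sI cl13 cl7 cl4 t3 b5_0 (tg false true false RT.r4) (I.pos (nat_lit 0) (nat_lit 0))
  (xb T3.l10 (xa T3.l10 (xk T3.l10 (xb T3.l10 T3.l10)))) = true := by decide +kernel
theorem c5_0_6 : chkTag sI cl13 cl7 cl4 t1 b5_0 (Tag.mk false false false RT.tl RT.r5) (I.mix (nat_lit 8088324) (nat_lit 110514882))
  (xR T1.l11 (xR T1.l11 (xR T1.l11 T1.l11))) = true := by decide +kernel
theorem c5_0_7 : chkTag sI cl13 cl7 cl4 t3 b5_0 (Tag.mk false true false RT.tl RT.r6) (I.mix (nat_lit 8088324) (nat_lit 89478486))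
  (xR T3.l4 (xR T3.l2 T3.l11)) = true := by decide +kernel
theorem bx5_0 : BoxOK sI cl13 cl7 cl4 t3 t1 b5_0 :=
  box_mk' [(tg true true false RT.r2), (tg true false false RT.r3), (Tag.mk true true false RT.tl RT.r4), (Tag.mk true false false RT.tl RT.r5), (tg false false false RT.r3), (tg false true false RT.r4), (Tag.mk false false false RT.tl RT.r5), (Tag.mk false true false RT.tl RT.r6)] rfl (allL_c (ex_mk c5_0_0) (allL_c (ex_mk c5_0_1) (allL_c (ex_mk c5_0_2) (allL_c (ex_mk c5_0_3) (allL_c (ex_mk c5_0_4) (allL_c (ex_mk c5_0_5) (allL_c (ex_mk c5_0_6) (allL_c (ex_mk c5_0_7) allL_n))))))))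
theorem bx5_1 : BoxOK sI cl13 cl7 cl4 t3 t1 b5_1 :=
  box_mk (TrL.c (I.pos (nat_lit 0) (nat_lit 0)) (xa (xb T3.l12 T3.l12) (xb (xa T3.l12 T3.l12) (xa T3.l12 T3.l12)))
  (TrL.c (I.pos (nat_lit 0) (nat_lit 0)) (xa T1.l8 T1.l8)
  (TrL.c (I.pos (nat_lit 0) (nat_lit 134217730)) (xR T3.l4 (xR T3.l4 (xR T3.l9 T3.l4)))
  (TrL.c (I.pos (nat_lit 0) (nat_lit 110514882)) (xR T1.l3 (xR T1.l9 T1.l9))
  (TrL.c (I.pos (nat_lit 0) (nat_lit 0)) (xa (xb (xk T1.l12 T1.l12) T1.l12) (xb (xk T1.l12 T1.l12) (xk T1.l12 T1.l12)))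
  (TrL.c (I.pos (nat_lit 0) (nat_lit 0)) T3.l10
  (TrL.c (I.mix (nat_lit 8088324) (nat_lit 110514882)) (xR T1.l11 T1.l11)
  (TrL.c (I.mix (nat_lit 8088324) (nat_lit 89478486)) T3.l4
  TrL.n)))))))) (by decide +kernel)
theorem bx5_2 : BoxOK sI cl13 cl7 cl4 t3 t1 b5_2 :=
  box_mk (TrL.c (I.pos (nat_lit 0) (nat_lit 0)) (xa T3.l12 T3.l12)
  (TrL.c (I.pos (nat_lit 0) (nat_lit 0)) (xa T1.l8 T1.l8)
  (TrL.c (I.pos (nat_lit 0) (nat_lit 134217730)) (xR T3.l4 (xR T3.l4 T3.l9))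
  (TrL.c (I.pos (nat_lit 0) (nat_lit 110514882)) T1.l11
  (TrL.c (I.pos (nat_lit 0) (nat_lit 0)) (xa T1.l12 T1.l12)
  (TrL.c (I.pos (nat_lit 0) (nat_lit 0)) T3.l10
  (TrL.c (I.mix (nat_lit 8088324) (nat_lit 110514882)) (xR T1.l11 (xR T1.l11 T1.l11))
  (TrL.c (I.mix (nat_lit 8088324) (nat_lit 89478486)) T3.l4
  TrL.n)))))))) (by decide +kernel)
theorem bx5_3 : BoxOK sI cl13 cl7 cl4 t3 t1 b5_3 :=
  box_mk (TrL.c (I.pos (nat_lit 0) (nat_lit 0)) (xb (xa (xb (xa (xb T3.l13 T3.l13) (xb T3.l13 T3.l13)) (xa T3.l13 T3.l13)) (xb (xa (xb T3.l0 T3.l0) (xb T3.l0 T3.l0)) (xa (xb T3.l0 T3.l13) (xb T3.l0 T3.l0)))) (xa (xb (xa T3.l13 T3.l13) (xa (xc T3.l13 T3.l13) T3.l13)) (xa (xb T3.l13 T3.l13) (xb T3.l13 T3.l13))))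
  (TrL.c (I.pos (nat_lit 0) (nat_lit 0)) (xk (xb T1.l8 T1.l8) (xb T1.l8 T1.l8))
  (TrL.c (I.pos (nat_lit 0) (nat_lit 134217730)) (xR T3.l4 (xR T3.l4 (xR T3.l4 T3.l4)))
  (TrL.c (I.pos (nat_lit 0) (nat_lit 110514882)) (xR T1.l3 (xR T1.l9 (xR T1.l9 T1.l9)))
  (TrL.c (I.pos (nat_lit 0) (nat_lit 0)) (xk (xb T1.l13 (xb T1.l10 T1.l10)) (xb (xb T1.l13 T1.l13) (xb (xa T1.l10 T1.l10) (xa T1.l10 T1.l10))))
  (TrL.c (I.pos (nat_lit 0) (nat_lit 0)) T3.l10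
  (TrL.c (I.mix (nat_lit 8088324) (nat_lit 110514882)) (xR T1.l11 (xR T1.l11 (xR T1.l11 T1.l11)))
  (TrL.c (I.mix (nat_lit 8088324) (nat_lit 89478486)) (xR T3.l4 (xR T3.l2 T3.l2))
  TrL.n)))))))) (by decide +kernel)
theorem bx5_4 : BoxOK sI cl13 cl7 cl4 t3 t1 b5_4 :=
  box_mk (TrL.c (I.pos (nat_lit 0) (nat_lit 0)) (xa (xa (xb (xa (xb T3.l12 T3.l12) T3.l12) (xa (xb T3.l12 (xa T3.l12 T3.l12)) (xb T3.l12 T3.l12))) (xb T3.l12 (xa T3.l12 T3.l12))) (xa (xb T3.l12 (xa T3.l12 T3.l12)) (xb T3.l12 (xa (xb T3.l12 T3.l12) (xb T3.l12 T3.l12)))))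
  (TrL.c (I.pos (nat_lit 0) (nat_lit 0)) (xa (xa T1.l12 T1.l8) (xa T1.l8 T1.l8))
  (TrL.c (I.pos (nat_lit 0) (nat_lit 134217730)) (xR T3.l4 (xR T3.l4 (xa (xR T3.l9 T3.l9) T3.l9)))
  (TrL.c (I.pos (nat_lit 0) (nat_lit 110514882)) (xR T1.l3 (xR T1.l9 (xR T1.l9 T1.l9)))
  (TrL.c (I.pos (nat_lit 0) (nat_lit 0)) (xa (xa T1.l12 T1.l12) T1.l12)
  (TrL.c (I.pos (nat_lit 0) (nat_lit 0)) T3.l10
  (TrL.c (I.mix (nat_lit 8088324) (nat_lit 110514882)) (xR T1.l11 (xR T1.l11 (xR T1.l11 T1.l11)))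
  (TrL.c (I.mix (nat_lit 8088324) (nat_lit 89478486)) T3.l4
  TrL.n)))))))) (by decide +kernel)
theorem bx5_5 : BoxOK sI cl13 cl7 cl4 t3 t1 b5_5 :=
  box_mk (TrL.c (I.pos (nat_lit 0) (nat_lit 0)) (xa T3.l12 T3.l0)
  (TrL.c (I.pos (nat_lit 0) (nat_lit 0)) T1.l8
  (TrL.c (I.pos (nat_lit 0) (nat_lit 134217730)) (xR T3.l4 (xR T3.l4 T3.l4))
  (TrL.c (I.pos (nat_lit 0) (nat_lit 110514882)) (xR T1.l3 (xR T1.l9 T1.l9))
  (TrL.c (I.pos (nat_lit 0) (nat_lit 0)) (xk T1.l12 T1.l12)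
  (TrL.c (I.pos (nat_lit 0) (nat_lit 0)) T3.l10
  (TrL.c (I.mix (nat_lit 8088324) (nat_lit 110514882)) (xR T1.l11 T1.l11)
  (TrL.c (I.mix (nat_lit 8088324) (nat_lit 89478486)) T3.l4
  TrL.n)))))))) (by decide +kernel)
theorem bx5_6 : BoxOK sI cl13 cl7 cl4 t3 t1 b5_6 :=
  box_mk (TrL.c (I.pos (nat_lit 0) (nat_lit 0)) (xa T3.l12 T3.l12)
  (TrL.c (I.pos (nat_lit 0) (nat_lit 0)) (xa T1.l12 T1.l8)
  (TrL.c (I.pos (nat_lit 0) (nat_lit 134217730)) (xR T3.l4 (xR T3.l4 T3.l9))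
  (TrL.c (I.pos (nat_lit 0) (nat_lit 110514882)) (xR T1.l1 (xR T1.l9 (xR T1.l9 T1.l9)))
  (TrL.c (I.pos (nat_lit 0) (nat_lit 0)) (xa T1.l12 T1.l12)
  (TrL.c (I.pos (nat_lit 0) (nat_lit 0)) T3.l10
  (TrL.c (I.mix (nat_lit 8088324) (nat_lit 110514882)) (xR T1.l11 T1.l11)
  (TrL.c (I.mix (nat_lit 8088324) (nat_lit 89478486)) T3.l4
  TrL.n)))))))) (by decide +kernel)
theorem bx5_7 : BoxOK sI cl13 cl7 cl4 t3 t1 b5_7 :=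
  box_mk (TrL.c (I.pos (nat_lit 0) (nat_lit 0)) (xa T3.l13 T3.l13)
  (TrL.c (I.pos (nat_lit 0) (nat_lit 0)) T1.l8
  (TrL.c (I.pos (nat_lit 0) (nat_lit 134217730)) (xR T3.l4 (xR T3.l4 T3.l4))
  (TrL.c (I.pos (nat_lit 0) (nat_lit 110514882)) (xR T1.l3 (xR T1.l9 T1.l9))
  (TrL.c (I.pos (nat_lit 0) (nat_lit 0)) (xk T1.l13 T1.l13)
  (TrL.c (I.pos (nat_lit 0) (nat_lit 0)) T3.l10
  (TrL.c (I.mix (nat_lit 8088324) (nat_lit 110514882)) (xR T1.l11 T1.l11)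
  (TrL.c (I.mix (nat_lit 8088324) (nat_lit 89478486)) (xR T3.l4 T3.l2)
  TrL.n)))))))) (by decide +kernel)
def rc5_8_0_ll : Tr := (xb (xa (xb (xa (xc (xs T3.l0 (xb (xd T3.l0 T3.l0) T3.l0)) (xs (xb T3.l0 T3.l0) (xb (xk T3.l0 (xd T3.l0 T3.l0)) (xk T3.l0 T3.l0)))) (xc (xs T3.l0 (xb (xk T3.l0 T3.l0) T3.l0)) (xs (xb T3.l0 T3.l0) (xb (xk T3.l0 (xd T3.l0 T3.l0)) (xk T3.l0 T3.l0))))) (xa (xc (xs T3.l0 T3.l0) (xs T3.l0 (xb T3.l0 T3.l0))) (xc (xs T3.l0 T3.l0) (xs T3.l0 (xb T3.l0 T3.l0))))) (xb (xa (xc (xs T3.l0 (xb (xk T3.l0 T3.l0) T3.l0)) (xs (xb T3.l0 T3.l0) (xb (xk T3.l0 (xd T3.l0 T3.l0)) (xk T3.l0 T3.l0)))) (xc (xs T3.l0 (xb (xk T3.l0 (xd T3.l0 T3.l0)) T3.l0)) (xs (xb T3.l0 T3.l0) (xb (xk T3.l0 (xd T3.l0 T3.l0)) (xk T3.l0 T3.l0))))) (xa (xc (xs T3.l0 T3.l0) (xs T3.l0 (xb T3.l0 T3.l0))) (xc (xs T3.l0 (xb T3.l0 T3.l0)) (xs T3.l0 (xb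 (xk T3.l0 T3.l0) T3.l0)))))) (xa (xb (xa (xc T3.l0 T3.l0) (xc T3.l0 T3.l0)) (xa T3.l0 T3.l0)) (xb (xa (xc T3.l0 (xs T3.l0 T3.l0)) (xc T3.l0 (xs T3.l0 T3.l0))) (xa T3.l0 T3.l0))))
theorem qc5_8_0_ll : chkTr (tg true true false RT.r2) b5_8 t3 rc5_8_0_ll
  (upd lo Co.a (upd lo Co.b (rc sI cl13 cl7 cl4 b5_8 (I.pos (nat_lit 0) (nat_lit 0))))) = true := by decide +kernel
def rc5_8_0_lrl : Tr := (xa (xb (xa (xc (xs (xb T3.l0 T3.l0) (xb (xk T3.l0 (xd T3.l0 T3.l0)) (xk T3.l0 T3.l0))) (xs (xb T3.l0 T3.l0) (xb (xk T3.l0 (xd T3.l0 T3.l0)) (xk T3.l0 T3.l0)))) (xc (xs (xb T3.l0 T3.l0) (xb (xk T3.l0 (xd T3.l0 T3.l0)) (xk T3.l0 T3.l0))) (xs (xk T3.l0 (xb T3.l0 T3.l0)) (xk (xb (xd T3.l0 T3.l0) T3.l0) (xb (xd T3.l0 T3.l0) (xd T3.l0 T3.l0)))))) (xa (xc (xs T3.l0 (xb T3.l0 T3.l0)) (xs T3.l0 (xb (xk T3.l0 T3.l0) T3.l0))) (xc (xs T3.l0 (xb T3.l0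 T3.l0)) (xs T3.l0 (xk T3.l0 (xb T3.l0 T3.l0)))))) (xb (xa (xc (xs (xk T3.l0 T3.l0) (xb (xk T3.l0 (xd T3.l0 T3.l0)) (xk T3.l0 T3.l0))) (xs (xk T3.l0 (xb T3.l0 T3.l0)) (xk (xb (xd T3.l0 T3.l0) T3.l0) (xb (xd T3.l0 T3.l0) (xd T3.l0 T3.l0))))) (xc (xs (xk T3.l0 T3.l0) (xk (xb T3.l0 T3.l0) (xb (xd T3.l0 T3.l0) T3.l0))) (xs (xk T3.l0 (xb T3.l0 T3.l0)) (xk (xb (xd T3.l0 T3.l0) T3.l0) (xb (xd T3.l0 (xc T3.l0 T3.l0)) (xd T3.l0 T3.l0)))))) (xa (xc (xs T3.l0 (xb T3.l0 T3.l0)) (xs T3.l0 (xk T3.l0 (xb T3.l0 T3.l0)))) (xc (xs T3.l0 (xk T3.l0 T3.l0)) (xs T3.l0 (xk T3.l0 (xb T3.l0 T3.l0)))))))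
theorem qc5_8_0_lrl : chkTr (tg true true false RT.r2) b5_8 t3 rc5_8_0_lrl
  (upd lo Co.b (upd hi Co.a (upd lo Co.b (rc sI cl13 cl7 cl4 b5_8 (I.pos (nat_lit 0) (nat_lit 0)))))) = true := by decide +kernel
def rc5_8_0_lrr : Tr := (xa (xb (xa (xc T3.l0 (xs T3.l0 T3.l0)) (xc T3.l0 (xs T3.l0 T3.l0))) (xa (xc T3.l0 T3.l0) (xc T3.l0 T3.l0))) (xb (xa (xc T3.l0 (xs T3.l0 T3.l0)) (xc T3.l0 (xs T3.l0 T3.l0))) (xa (xc T3.l0 T3.l0) (xc T3.l0 T3.l0))))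
theorem qc5_8_0_lrr : chkTr (tg true true false RT.r2) b5_8 t3 rc5_8_0_lrr
  (upd hi Co.b (upd hi Co.a (upd lo Co.b (rc sI cl13 cl7 cl4 b5_8 (I.pos (nat_lit 0) (nat_lit 0)))))) = true := by decide +kernel
theorem qc5_8_0_lr : chkTr (tg true true false RT.r2) b5_8 t3 (Tr.N Co.b rc5_8_0_lrl rc5_8_0_lrr)
  (upd hi Co.a (upd lo Co.b (rc sI cl13 cl7 cl4 b5_8 (I.pos (nat_lit 0) (nat_lit 0))))) = true := tr_split qc5_8_0_lrl qc5_8_0_lrr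
theorem qc5_8_0_l : chkTr (tg true true false RT.r2) b5_8 t3 (Tr.N Co.a rc5_8_0_ll (Tr.N Co.b rc5_8_0_lrl rc5_8_0_lrr))
  (upd lo Co.b (rc sI cl13 cl7 cl4 b5_8 (I.pos (nat_lit 0) (nat_lit 0)))) = true := tr_split qc5_8_0_ll qc5_8_0_lr
def rc5_8_0_r : Tr := (xa (xb (xa (xb T3.l0 T3.l0) (xb T3.l0 T3.l0)) (xa (xb (xc T3.l0 T3.l0) (xa T3.l0 T3.l0)) (xb T3.l0 (xa T3.l0 T3.l0)))) (xb (xa (xb (xa T3.l0 T3.l0) T3.l0) (xb (xa T3.l0 T3.l0) T3.l0)) (xa (xb T3.l0 (xa T3.l0 T3.l0)) (xb T3.l0 T3.l0))))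
theorem qc5_8_0_r : chkTr (tg true true false RT.r2) b5_8 t3 rc5_8_0_r
  (upd hi Co.b (rc sI cl13 cl7 cl4 b5_8 (I.pos (nat_lit 0) (nat_lit 0)))) = true := by decide +kernel
theorem qc5_8_0_ : chkTr (tg true true false RT.r2) b5_8 t3 (Tr.N Co.b (Tr.N Co.a rc5_8_0_ll (Tr.N Co.b rc5_8_0_lrl rc5_8_0_lrr)) rc5_8_0_r)
  (rc sI cl13 cl7 cl4 b5_8 (I.pos (nat_lit 0) (nat_lit 0))) = true := tr_split qc5_8_0_l qc5_8_0_r
theorem c5_8_0 : chkTag sI cl13 cl7 cl4 t3 b5_8 (tg true true false RT.r2) (I.pos (nat_lit 0) (nat_lit 0))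
  (Tr.N Co.b (Tr.N Co.a rc5_8_0_ll (Tr.N Co.b rc5_8_0_lrl rc5_8_0_lrr)) rc5_8_0_r) = true := tag_mk (by decide +kernel) qc5_8_0_
theorem c5_8_1 : chkTag sI cl13 cl7 cl4 t1 b5_8 (tg true false false RT.r3) (I.pos (nat_lit 0) (nat_lit 0))
  (xb (xk T1.l8 T1.l8) (xk T1.l8 T1.l8)) = true := by decide +kernel
theorem c5_8_2 : chkTag sI cl13 cl7 cl4 t3 b5_8 (Tag.mk true true false RT.tl RT.r4) (I.pos (nat_lit 0) (nat_lit 134217730))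
  (xR T3.l4 (xR T3.l4 (xR T3.l4 T3.l4))) = true := by decide +kernel
theorem c5_8_3 : chkTag sI cl13 cl7 cl4 t1 b5_8 (Tag.mk true false false RT.tl RT.r5) (I.pos (nat_lit 0) (nat_lit 110514882))
  (xR T1.l3 (xR T1.l9 (xR T1.l9 T1.l9))) = true := by decide +kernel
theorem c5_8_4 : chkTag sI cl13 cl7 cl4 t1 b5_8 (tg false false false RT.r3) (I.pos (nat_lit 0) (nat_lit 0))
  (xb (xk (xa T1.l13 T1.l13) (xa T1.l13 T1.l13)) (xk T1.l13 (xb T1.l13 T1.l10))) = true := by decide +kernel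
theorem c5_8_5 : chkTag sI cl13 cl7 cl4 t3 b5_8 (tg false true false RT.r4) (I.pos (nat_lit 0) (nat_lit 0))
  T3.l10 = true := by decide +kernel
theorem c5_8_6 : chkTag sI cl13 cl7 cl4 t1 b5_8 (Tag.mk false false false RT.tl RT.r5) (I.mix (nat_lit 8088324) (nat_lit 110514882))
  (xR T1.l11 (xR T1.l11 (xR T1.l11 T1.l11))) = true := by decide +kernel
theorem c5_8_7 : chkTag sI cl13 cl7 cl4 t3 b5_8 (Tag.mk false true false RT.tl RT.r6) (I.mix (nat_lit 8088324) (nat_lit 89478486))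
  (xR T3.l4 T3.l2) = true := by decide +kernel
theorem bx5_8 : BoxOK sI cl13 cl7 cl4 t3 t1 b5_8 :=
  box_mk' [(tg true true false RT.r2), (tg true false false RT.r3), (Tag.mk true true false RT.tl RT.r4), (Tag.mk true false false RT.tl RT.r5), (tg false false false RT.r3), (tg false true false RT.r4), (Tag.mk false false false RT.tl RT.r5), (Tag.mk false true false RT.tl RT.r6)] rfl (allL_c (ex_mk c5_8_0) (allL_c (ex_mk c5_8_1) (allL_c (ex_mk c5_8_2) (allL_c (ex_mk c5_8_3) (allL_c (ex_mk c5_8_4) (allL_c (ex_mk c5_8_5) (allL_c (ex_mk c5_8_6) (allL_c (ex_mk c5_8_7) allL_n))))))))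
theorem bx5_9 : BoxOK sI cl13 cl7 cl4 t3 t1 b5_9 :=
  box_mk (TrL.c (I.pos (nat_lit 0) (nat_lit 0)) (xa T3.l12 T3.l12)
  (TrL.c (I.pos (nat_lit 0) (nat_lit 0)) T1.l8
  (TrL.c (I.pos (nat_lit 0) (nat_lit 134217730)) (xR T3.l4 (xR T3.l4 T3.l9))
  (TrL.c (I.pos (nat_lit 0) (nat_lit 110514882)) (xR T1.l3 T1.l9)
  (TrL.c (I.pos (nat_lit 0) (nat_lit 0)) T1.l12
  (TrL.c (I.pos (nat_lit 0) (nat_lit 0)) T3.l10
  (TrL.c (I.mix (nat_lit 8088324) (nat_lit 110514882)) T1.l11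
  (TrL.c (I.mix (nat_lit 8088324) (nat_lit 89478486)) T3.l4
  TrL.n)))))))) (by decide +kernel)
theorem bx5_10 : BoxOK sI cl13 cl7 cl4 t3 t1 b5_10 :=
  box_mk (TrL.c (I.pos (nat_lit 0) (nat_lit 0)) (xb (xa (xb T3.l12 T3.l12) (xb (xa T3.l12 T3.l0) T3.l12)) (xa T3.l12 T3.l12))
  (TrL.c (I.pos (nat_lit 0) (nat_lit 0)) (xb T1.l8 T1.l8)
  (TrL.c (I.pos (nat_lit 0) (nat_lit 134217730)) (xR T3.l4 (xR T3.l4 (xR T3.l9 T3.l9)))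
  (TrL.c (I.pos (nat_lit 0) (nat_lit 110514882)) (xR T1.l3 (xR T1.l9 T1.l9))
  (TrL.c (I.pos (nat_lit 0) (nat_lit 0)) (xb (xa (xk T1.l12 T1.l12) (xk T1.l12 T1.l12)) (xa T1.l12 T1.l12))
  (TrL.c (I.pos (nat_lit 0) (nat_lit 0)) T3.l10
  (TrL.c (I.mix (nat_lit 8088324) (nat_lit 110514882)) (xR T1.l11 T1.l11)
  (TrL.c (I.mix (nat_lit 8088324) (nat_lit 89478486)) T3.l4
  TrL.n)))))))) (by decide +kernel)
theorem bx5_11 : BoxOK sI cl13 cl7 cl4 t3 t1 b5_11 :=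
  box_mk (TrL.c (I.pos (nat_lit 0) (nat_lit 0)) (xa (xa (xb (xa T3.l12 T3.l12) T3.l12) T3.l12) T3.l12)
  (TrL.c (I.pos (nat_lit 0) (nat_lit 0)) (xa T1.l12 T1.l8)
  (TrL.c (I.pos (nat_lit 0) (nat_lit 134217730)) (xR T3.l4 (xR T3.l4 (xa T3.l9 T3.l9)))
  (TrL.c (I.pos (nat_lit 0) (nat_lit 110514882)) (xR T1.l1 (xR T1.l11 (xR T1.l11 T1.l11)))
  (TrL.c (I.pos (nat_lit 0) (nat_lit 0)) (xa (xa T1.l12 T1.l12) T1.l12)
  (TrL.c (I.pos (nat_lit 0) (nat_lit 0)) T3.l10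
  (TrL.c (I.mix (nat_lit 8088324) (nat_lit 110514882)) (xR T1.l11 (xR T1.l11 (xa T1.l11 T1.l11)))
  (TrL.c (I.mix (nat_lit 8088324) (nat_lit 89478486)) T3.l4
  TrL.n)))))))) (by decide +kernel)
theorem c5_12_0 : chkTag sI cl13 cl7 cl4 t3 b5_12 (tg true true false RT.r2) (I.pos (nat_lit 0) (nat_lit 0))
  (xa (xa (xb (xa (xb (xb T3.l0 T3.l0) T3.l0) (xb (xb T3.l0 T3.l0) T3.l0)) (xa (xb T3.l0 T3.l0) (xb T3.l0 T3.l0))) (xb (xa (xb (xb T3.l0 T3.l0) (xb T3.l0 T3.l0)) (xb (xb (xc T3.l0 T3.l0) T3.l0) (xb T3.l0 T3.l0))) (xa (xb T3.l0 T3.l0) (xb (xb T3.l0 T3.l0) (xb T3.l0 T3.l0))))) (xa (xb (xa (xb (xb (xc T3.l0 T3.l0) (xc T3.l0 T3.l0)) (xb T3.l0 T3.l0)) (xb (xb (xc T3.l0 (xk T3.l0 T3.l0)) (xc T3.l0 T3.l0)) (xb T3.l0 T3.l0))) (xa (xb (xb T3.l0 T3.l0) (xb T3.l0 T3.l0)) (xb (xb T3.l0 T3.l0) (xb T3.l0 T3.l0)))) (xb (xa (xb (xb (xc T3.l0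 (xk T3.l0 T3.l0)) (xc T3.l0 (xk T3.l0 T3.l0))) (xb (xc T3.l0 T3.l0) (xc T3.l0 T3.l0))) (xb (xb (xk (xc T3.l0 T3.l0) (xc T3.l0 T3.l0)) (xc T3.l0 (xk T3.l0 T3.l0))) (xb (xc T3.l0 T3.l0) (xc T3.l0 T3.l0)))) (xa (xb (xb (xc T3.l0 T3.l0) T3.l0) (xb T3.l0 (xc T3.l0 T3.l0))) (xb (xb (xc T3.l0 T3.l0) (xc T3.l0 T3.l0)) (xb (xk T3.l0 T3.l0) (xs T3.l0 T3.l0))))))) = true := by decide +kernel
theorem c5_12_1 : chkTag sI cl13 cl7 cl4 t1 b5_12 (tg true false false RT.r3) (I.pos (nat_lit 0) (nat_lit 0))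
  (xa (xk (xb T1.l8 T1.l8) T1.l8) (xk (xa T1.l8 T1.l8) (xa T1.l8 T1.l2))) = true := by decide +kernel
theorem c5_12_2 : chkTag sI cl13 cl7 cl4 t3 b5_12 (Tag.mk true true false RT.tl RT.r4) (I.pos (nat_lit 0) (nat_lit 134217730))
  (xR (xR T3.l4 T3.l4) (xR T3.l4 T3.l4)) = true := by decide +kernel
theorem c5_12_3 : chkTag sI cl13 cl7 cl4 t1 b5_12 (Tag.mk true false false RT.tl RT.r5) (I.pos (nat_lit 0) (nat_lit 110514882))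
  (xR (xR T1.l3 T1.l9) (xR T1.l9 (xR T1.l9 (xa T1.l9 T1.l9)))) = true := by decide +kernel
theorem c5_12_4 : chkTag sI cl13 cl7 cl4 t1 b5_12 (tg false false false RT.r3) (I.pos (nat_lit 0) (nat_lit 0))
  (xa (xk (xb (xa T1.l10 T1.l10) T1.l10) (xb (xa T1.l10 T1.l10) T1.l10)) (xk (xb (xa (xk T1.l10 T1.l10) (xk (xb T1.l10 T1.l10) (xb T1.l10 T1.l10))) (xa (xk T1.l10 T1.l10) (xk (xb T1.l10 (xa T1.l10 (xb T1.l10 T1.l10))) (xb T1.l10 (xa T1.l10 (xb T1.l10 T1.l10)))))) (xb (xa (xk T1.l10 T1.l10) (xk (xb T1.l10 T1.l10) (xb T1.l10 T1.l10))) (xa (xb T1.l10 (xa T1.l10 T1.l10)) (xk (xb T1.l10 (xa T1.l10 (xb T1.l10 (xd T1.l10 T1.l10)))) (xb (xa T1.l10 T1.l10) (xa (xb T1.l10 T1.l10) (xb T1.l10 (xd (xa T1.l10 T1.l10) (xa T1.l10 T1.l10)))))))))) = true := by decide +kernel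
theorem c5_12_5 : chkTag sI cl13 cl7 cl4 t3 b5_12 (tg false true false RT.r4) (I.pos (nat_lit 0) (nat_lit 0))
  (xk (xa T3.l10 T3.l10) (xa T3.l10 (xb T3.l10 T3.l10))) = true := by decide +kernel
theorem c5_12_6 : chkTag sI cl13 cl7 cl4 t1 b5_12 (Tag.mk false false false RT.tl RT.r5) (I.mix (nat_lit 8088324) (nat_lit 110514882))
  (xR T1.l11 (xR T1.l11 (xR T1.l11 (xk (xR T1.l11 T1.l11) T1.l11)))) = true := by decide +kernel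
theorem c5_12_7 : chkTag sI cl13 cl7 cl4 t3 b5_12 (Tag.mk false true false RT.tl RT.r6) (I.mix (nat_lit 8088324) (nat_lit 89478486))
  (xR T3.l4 (xR T3.l2 (xR T3.l11 T3.l11))) = true := by decide +kernel
theorem bx5_12 : BoxOK sI cl13 cl7 cl4 t3 t1 b5_12 :=
  box_mk' [(tg true true false RT.r2), (tg true false false RT.r3), (Tag.mk true true false RT.tl RT.r4), (Tag.mk true false false RT.tl RT.r5), (tg false false false RT.r3), (tg false true false RT.r4), (Tag.mk false false false RT.tl RT.r5), (Tag.mk false true false RT.tl RT.r6)] rfl (allL_c (ex_mk c5_12_0) (allL_c (ex_mk c5_12_1) (allL_c (ex_mk c5_12_2) (allL_c (ex_mk c5_12_3) (allL_c (ex_mk c5_12_4) (allL_c (ex_mk c5_12_5) (allL_c (ex_mk c5_12_6) (allL_c (ex_mk c5_12_7) allL_n))))))))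
def rc5_13_0_l : Tr := (xb (xa (xb (xa (xb (xc T3.l0 T3.l0) (xs T3.l0 T3.l0)) (xb (xs T3.l0 (xc T3.l0 T3.l0)) (xs T3.l0 (xc T3.l0 T3.l0)))) (xa (xb (xs T3.l0 T3.l0) (xs T3.l0 T3.l0)) (xb (xs T3.l0 T3.l0) (xs T3.l0 T3.l0)))) (xb (xa (xb (xs T3.l0 (xc T3.l0 T3.l0)) (xs T3.l0 (xc T3.l0 T3.l0))) (xb (xs T3.l0 (xc T3.l0 T3.l0)) (xs T3.l0 (xk T3.l0 T3.l0)))) (xa (xb (xs T3.l0 (xc T3.l0 T3.l0)) (xs T3.l0 T3.l0)) (xb (xs T3.l0 (xk T3.l0 T3.l0)) (xs T3.l0 (xk T3.l0 T3.l0)))))) (xa (xb (xa (xb (xs T3.l0 T3.l0) (xs T3.l0 T3.l0)) (xb (xs T3.l0 T3.l0) (xs T3.l0 T3.l0))) (xs (xa T3.l0 T3.l0) (xa (xb T3.l0 T3.l0) (xb T3.l0 T3.l0)))) (xb (xa (xs T3.l0 (xb T3.l0 T3.l0)) (xs T3.l0 (xb T3.l0 T3.l0))) (xs (xa T3.l0 T3.l0) (xa (xb T3.l0 T3.l0) (xb T3.l0 T3.l0))))))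
theorem qc5_13_0_l : chkTr (tg true true false RT.r2) b5_13 t3 rc5_13_0_l
  (upd lo Co.a (rc sI cl13 cl7 cl4 b5_13 (I.pos (nat_lit 0) (nat_lit 0)))) = true := by decide +kernel
def rc5_13_0_rl : Tr := (xa (xb (xa (xb (xs T3.l0 (xk T3.l0 (xc T3.l0 T3.l0))) (xs T3.l0 (xk T3.l0 T3.l0))) (xb (xs T3.l0 (xk T3.l0 (xc T3.l0 T3.l0))) (xs T3.l0 (xk T3.l0 (xc T3.l0 T3.l0))))) (xa (xb (xs T3.l0 (xk T3.l0 T3.l0)) (xs T3.l0 (xk T3.l0 T3.l0))) (xs (xb T3.l0 T3.l0) (xb (xk T3.l0 T3.l0) (xk T3.l0 T3.l0))))) (xb (xa (xb (xs (xk T3.l0 T3.l0) (xk T3.l0 (xc T3.l0 T3.l0))) (xs T3.l0 (xk T3.l0 (xc T3.l0 T3.l0)))) (xb (xs (xk T3.l0 T3.l0) (xk T3.l0 (xc T3.l0 T3.l0))) (xs (xk T3.l0 T3.l0) (xk T3.l0 (xc T3.l0 T3.l0))))) (xa (xs (xb T3.l0 T3.l0) (xb (xk T3.l0 T3.l0) (xk T3.l0 T3.l0))) (xs (xb T3.l0 T3.l0) (xb (xk T3.l0 (xc T3.l0 T3.l0)) (xk T3.l0 T3.l0))))))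
theorem qc5_13_0_rl : chkTr (tg true true false RT.r2) b5_13 t3 rc5_13_0_rl
  (upd lo Co.b (upd hi Co.a (rc sI cl13 cl7 cl4 b5_13 (I.pos (nat_lit 0) (nat_lit 0))))) = true := by decide +kernel
def rc5_13_0_rr : Tr := (xa (xb (xa (xs (xb T3.l0 T3.l0) (xb (xk T3.l0 T3.l0) (xk T3.l0 T3.l0))) (xs (xb T3.l0 T3.l0) (xb (xk T3.l0 T3.l0) (xk T3.l0 T3.l0)))) (xs (xa T3.l0 (xb T3.l0 T3.l0)) (xa (xb T3.l0 T3.l0) (xb (xk T3.l0 T3.l0) (xk T3.l0 T3.l0))))) (xb (xa (xs (xb T3.l0 T3.l0) (xb (xk T3.l0 T3.l0) (xk T3.l0 T3.l0))) (xs (xb T3.l0 T3.l0) (xb (xk T3.l0 T3.l0) (xk T3.l0 T3.l0)))) (xs (xa (xb T3.l0 T3.l0) (xb T3.l0 T3.l0)) (xa (xb (xk T3.l0 T3.l0) (xk T3.l0 T3.l0)) (xb (xk T3.l0 T3.l0) (xk T3.l0 T3.l0))))))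
theorem qc5_13_0_rr : chkTr (tg true true false RT.r2) b5_13 t3 rc5_13_0_rr
  (upd hi Co.b (upd hi Co.a (rc sI cl13 cl7 cl4 b5_13 (I.pos (nat_lit 0) (nat_lit 0))))) = true := by decide +kernel
theorem qc5_13_0_r : chkTr (tg true true false RT.r2) b5_13 t3 (Tr.N Co.b rc5_13_0_rl rc5_13_0_rr)
  (upd hi Co.a (rc sI cl13 cl7 cl4 b5_13 (I.pos (nat_lit 0) (nat_lit 0)))) = true := tr_split qc5_13_0_rl qc5_13_0_rr
theorem qc5_13_0_ : chkTr (tg true true false RT.r2) b5_13 t3 (Tr.N Co.a rc5_13_0_l (Tr.N Co.b rc5_13_0_rl rc5_13_0_rr))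
  (rc sI cl13 cl7 cl4 b5_13 (I.pos (nat_lit 0) (nat_lit 0))) = true := tr_split qc5_13_0_l qc5_13_0_r
theorem c5_13_0 : chkTag sI cl13 cl7 cl4 t3 b5_13 (tg true true false RT.r2) (I.pos (nat_lit 0) (nat_lit 0))
  (Tr.N Co.a rc5_13_0_l (Tr.N Co.b rc5_13_0_rl rc5_13_0_rr)) = true := tag_mk (by decide +kernel) qc5_13_0_
theorem c5_13_1 : chkTag sI cl13 cl7 cl4 t1 b5_13 (tg true false false RT.r3) (I.pos (nat_lit 0) (nat_lit 0))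
  (xk (xb T1.l8 T1.l8) (xb T1.l8 T1.l8)) = true := by decide +kernel
theorem c5_13_2 : chkTag sI cl13 cl7 cl4 t3 b5_13 (Tag.mk true true false RT.tl RT.r4) (I.pos (nat_lit 0) (nat_lit 134217730))
  (xR T3.l4 (xR T3.l4 T3.l4)) = true := by decide +kernel
theorem c5_13_3 : chkTag sI cl13 cl7 cl4 t1 b5_13 (Tag.mk true false false RT.tl RT.r5) (I.pos (nat_lit 0) (nat_lit 110514882))
  (xR T1.l3 (xR T1.l9 T1.l9)) = true := by decide +kernel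
theorem c5_13_4 : chkTag sI cl13 cl7 cl4 t1 b5_13 (tg false false false RT.r3) (I.pos (nat_lit 0) (nat_lit 0))
  (xk (xa (xb T1.l10 T1.l10) (xb T1.l10 (xb T1.l10 (xa T1.l10 (xk T1.l10 T1.l10))))) (xa (xb T1.l10 (xb T1.l10 T1.l10)) (xb T1.l10 (xb (xa T1.l10 T1.l10) (xa (xk T1.l10 T1.l10) (xk (xb T1.l10 T1.l10) (xb T1.l10 (xd T1.l10 T1.l10)))))))) = true := by decide +kernel
theorem c5_13_5 : chkTag sI cl13 cl7 cl4 t3 b5_13 (tg false true false RT.r4) (I.pos (nat_lit 0) (nat_lit 0))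
  T3.l10 = true := by decide +kernel
theorem c5_13_6 : chkTag sI cl13 cl7 cl4 t1 b5_13 (Tag.mk false false false RT.tl RT.r5) (I.mix (nat_lit 8088324) (nat_lit 110514882))
  (xR T1.l11 (xR T1.l11 T1.l11)) = true := by decide +kernel
theorem c5_13_7 : chkTag sI cl13 cl7 cl4 t3 b5_13 (Tag.mk false true false RT.tl RT.r6) (I.mix (nat_lit 8088324) (nat_lit 89478486))
  (xR T3.l4 T3.l2) = true := by decide +kernel
theorem bx5_13 : BoxOK sI cl13 cl7 cl4 t3 t1 b5_13 :=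
  box_mk' [(tg true true false RT.r2), (tg true false false RT.r3), (Tag.mk true true false RT.tl RT.r4), (Tag.mk true false false RT.tl RT.r5), (tg false false false RT.r3), (tg false true false RT.r4), (Tag.mk false false false RT.tl RT.r5), (Tag.mk false true false RT.tl RT.r6)] rfl (allL_c (ex_mk c5_13_0) (allL_c (ex_mk c5_13_1) (allL_c (ex_mk c5_13_2) (allL_c (ex_mk c5_13_3) (allL_c (ex_mk c5_13_4) (allL_c (ex_mk c5_13_5) (allL_c (ex_mk c5_13_6) (allL_c (ex_mk c5_13_7) allL_n))))))))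
theorem sv5 : StarV sI cl13 cl7 cl4 t3 t1 t5 :=
  (bt_n (bt_n (bt_n (bt_b bx5_0) (bt_n (bt_b bx5_1) (bt_b bx5_2))) (bt_n (bt_n (bt_b bx5_3) (bt_b bx5_4)) (bt_n (bt_b bx5_5) (bt_b bx5_6)))) (bt_n (bt_n (bt_b bx5_7) (bt_n (bt_b bx5_8) (bt_b bx5_9))) (bt_n (bt_n (bt_b bx5_10) (bt_b bx5_11)) (bt_n (bt_b bx5_12) (bt_b bx5_13)))))
def S5 : StarD := StarD.mk cl13 cl7 cl4 3 1 t5
def G : List StarD := [S0, S1, S2, S3, S4, S5]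
theorem so0 : StarOK sI G S0 :=
  star_mk (by decide) (by decide) rfl rfl rfl rfl rfl rfl (rfl : _ = t2) (rfl : _ = t4)
  (st_mk (Pth.l (Pth.l (Pth.l Pth.z))) (nat_lit 146076455) (nat_lit 169751221) (by decide +kernel))
  (st_mk (Pth.l (Pth.l (Pth.l Pth.z))) (nat_lit 184522868) (nat_lit 208924290) (by decide +kernel))
  (st_mk (Pth.l (Pth.l (Pth.l Pth.z))) (nat_lit 230041311) (nat_lit 255432097) (by decide +kernel)) sv0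
theorem so1 : StarOK sI G S1 :=
  star_mk (by decide) (by decide) rfl rfl rfl rfl rfl rfl (rfl : _ = t4) (rfl : _ = t2)
  (st_mk (Pth.l (Pth.l (Pth.l Pth.z))) (nat_lit 99135746) (nat_lit 118703888) (by decide +kernel))
  (st_mk (Pth.l (Pth.l (Pth.l Pth.z))) (nat_lit 137011460) (nat_lit 157287907) (by decide +kernel))
  (st_mk (Pth.l (Pth.l (Pth.l Pth.z))) (nat_lit 180176254) (nat_lit 205186361) (by decide +kernel)) sv1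
theorem so2 : StarOK sI G S2 :=
  star_mk (by decide) (by decide) rfl rfl rfl rfl rfl rfl (rfl : _ = t0) (rfl : _ = t5)
  (st_mk (Pth.l (Pth.l (Pth.l Pth.z))) (nat_lit 370770367) (nat_lit 375398779) (by decide +kernel))
  (st_mk (Pth.l (Pth.l (Pth.l Pth.z))) (nat_lit 406997931) (nat_lit 412260923) (by decide +kernel))
  (st_mk (Pth.l (Pth.l (Pth.l Pth.z))) (nat_lit 448959524) (nat_lit 455038277) (by decide +kernel)) sv2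
theorem so3 : StarOK sI G S3 :=
  star_mk (by decide) (by decide) rfl rfl rfl rfl rfl rfl (rfl : _ = t5) (rfl : _ = t0)
  (st_mk (Pth.l (Pth.l (Pth.l Pth.z))) (nat_lit 96753443) (nat_lit 115603388) (by decide +kernel))
  (st_mk (Pth.l (Pth.l (Pth.l Pth.z))) (nat_lit 132448145) (nat_lit 151769751) (by decide +kernel))
  (st_mk (Pth.l (Pth.l (Pth.l Pth.z))) (nat_lit 173951813) (nat_lit 193952664) (by decide +kernel)) sv3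
theorem so4 : StarOK sI G S4 :=
  star_mk (by decide) (by decide) rfl rfl rfl rfl rfl rfl (rfl : _ = t1) (rfl : _ = t3)
  (st_mk (Pth.l (Pth.l (Pth.l Pth.z))) (nat_lit 364798899) (nat_lit 368228044) (by decide +kernel))
  (st_mk (Pth.l (Pth.l (Pth.l Pth.z))) (nat_lit 399695508) (nat_lit 403707772) (by decide +kernel))
  (st_mk (Pth.l (Pth.l (Pth.l Pth.z))) (nat_lit 439960827) (nat_lit 444713860) (by decide +kernel)) sv4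
theorem so5 : StarOK sI G S5 :=
  star_mk (by decide) (by decide) rfl rfl rfl rfl rfl rfl (rfl : _ = t3) (rfl : _ = t1)
  (st_mk (Pth.l (Pth.l (Pth.l Pth.z))) (nat_lit 139994720) (nat_lit 162478471) (by decide +kernel))
  (st_mk (Pth.l (Pth.l (Pth.l Pth.z))) (nat_lit 174891329) (nat_lit 197811957) (by decide +kernel))
  (st_mk (Pth.l (Pth.l (Pth.l Pth.z))) (nat_lit 215156648) (nat_lit 238691257) (by decide +kernel)) sv5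
theorem ok : GroupOK (nat_lit 238878720) (nat_lit 268435456) G := grp_mk (allS_c so0 (allS_c so1 (allS_c so2 (allS_c so3 (allS_c so4 (allS_c so5 allS_n))))))
theorem cov : GCov G cl4 cl7 cl13 := cov_mk
  ⟨0, by decide, rfl, rfl, rfl⟩ ⟨1, by decide, rfl, rfl, rfl⟩ ⟨2, by decide, rfl, rfl, rfl⟩ ⟨3, by decide, rfl, rfl, rfl⟩ ⟨4, by decide, rfl, rfl, rfl⟩ ⟨5, by decide, rfl, rfl, rfl⟩
end Q146_4

namespace Q155_0
def sI : I := I.pos (nat_lit 0) (nat_lit 91291648)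
def b0_0 : Bx := Bx.mk (St.mk (I.pos (nat_lit 154599424) (nat_lit 265469952)) (I.mix (nat_lit 27869184) (nat_lit 65896448)) (I.mix (nat_lit 112361472) (nat_lit 80396288)) (I.pos (nat_lit 106414080) (nat_lit 310001664)) (I.mix (nat_lit 102236160) (nat_lit 72187904)) (I.mix (nat_lit 95649792) (nat_lit 87883776)) (I.mix (nat_lit 157908992) (nat_lit 171753472)))
  false (nat_lit 0)
def b0_1 : Bx := Bx.mk (St.mk (I.mix (nat_lit 14974976) (nat_lit 132792320)) (I.mix (nat_lit 10076160) (nat_lit 30949376)) (I.mix (nat_lit 27033600) (nat_lit 10518528)) (I.pos (nat_lit 13352960) (nat_lit 99696640)) (I.mix (nat_lit 27541504) (nat_lit 33472512)) (I.mix (nat_lit 36716544) (nat_lit 26836992)) (I.mix (nat_lit 29687808) (nat_lit 23887872)))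
  false (nat_lit 0)
def b0_2 : Bx := Bx.mk (St.mk (I.pos (nat_lit 109445120) (nat_lit 149831680)) (I.mix (nat_lit 54214656) (nat_lit 12435456)) (I.neg (nat_lit 1998848) (nat_lit 71532544)) (I.pos (nat_lit 63766528) (nat_lit 119783424)) (I.mix (nat_lit 98910208) (nat_lit 31653888)) (I.mix (nat_lit 56033280) (nat_lit 112754688)) (I.mix (nat_lit 42696704) (nat_lit 103694336)))
  false (nat_lit 0)
def b0_3 : Bx := Bx.mk (St.mk (I.mix (nat_lit 23347200) (nat_lit 91914240)) (I.mix (nat_lit 26591232) (nat_lit 2637824)) (I.neg (nat_lit 425984) (nat_lit 26705920)) (I.pos (nat_lit 15138816) (nat_lit 66781184)) (I.mix (nat_lit 36831232) (nat_lit 13205504)) (I.mix (nat_lit 19972096) (nat_lit 36798464)) (I.mix (nat_lit 10731520) (nat_lit 21299200)))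
  false (nat_lit 0)
def b0_4 : Bx := Bx.mk (St.mk (I.pos (nat_lit 104792064) (nat_lit 125927424)) (I.mix (nat_lit 9388032) (nat_lit 8339456)) (I.neg (nat_lit 4784128) (nat_lit 26230784)) (I.pos (nat_lit 61112320) (nat_lit 96894976)) (I.mix (nat_lit 20430848) (nat_lit 11780096)) (I.mix (nat_lit 13762560) (nat_lit 14483456)) (I.mix (nat_lit 11141120) (nat_lit 14696448)))
  false (nat_lit 0)
def b0_5 : Bx := Bx.mk (St.mk (I.mix (nat_lit 28213248) (nat_lit 84066304)) (I.mix (nat_lit 3850240) (nat_lit 5111808)) (I.neg (nat_lit 1802240) (nat_lit 12091392)) (I.pos (nat_lit 15925248) (nat_lit 59604992)) (I.mix (nat_lit 6602752) (nat_lit 4947968)) (I.mix (nat_lit 4849664) (nat_lit 4866048)) (I.mix (nat_lit 1130496) (nat_lit 1916928)))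
  false (nat_lit 0)
def b0_6 : Bx := Bx.mk (St.mk (I.pos (nat_lit 101711872) (nat_lit 178913280)) (I.mix (nat_lit 64946176) (nat_lit 12828672)) (I.neg (nat_lit 11190272) (nat_lit 81936384)) (I.pos (nat_lit 77021184) (nat_lit 157777920)) (I.mix (nat_lit 104267776) (nat_lit 56328192)) (I.mix (nat_lit 67387392) (nat_lit 101793792)) (I.mix (nat_lit 50774016) (nat_lit 98009088)))
  false (nat_lit 0)
def b0_7 : Bx := Bx.mk (St.mk (I.mix (nat_lit 17661952) (nat_lit 105414656)) (I.mix (nat_lit 31440896) (nat_lit 7913472)) (I.neg (nat_lit 131072) (nat_lit 30932992)) (I.pos (nat_lit 14106624) (nat_lit 76726272)) (I.mix (nat_lit 41664512) (nat_lit 28835840)) (I.mix (nat_lit 28491776) (nat_lit 42958848)) (I.mix (nat_lit 15630336) (nat_lit 27901952)))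
  false (nat_lit 0)
def b0_8 : Bx := Bx.mk (St.mk (I.mix (nat_lit 27148288) (nat_lit 131334144)) (I.mix (nat_lit 14663680) (nat_lit 34488320)) (I.mix (nat_lit 21577728) (nat_lit 14467072)) (I.pos (nat_lit 13320192) (nat_lit 95977472)) (I.mix (nat_lit 46645248) (nat_lit 34996224)) (I.mix (nat_lit 59588608) (nat_lit 43532288)) (I.mix (nat_lit 36438016) (nat_lit 25362432)))
  false (nat_lit 0)
def b0_9 : Bx := Bx.mk (St.mk (I.pos (nat_lit 149405696) (nat_lit 227082240)) (I.mix (nat_lit 46628864) (nat_lit 67715072)) (I.mix (nat_lit 72679424) (nat_lit 78479360)) (I.pos (nat_lit 111525888) (nat_lit 228900864)) (I.mix (nat_lit 142016512) (nat_lit 69468160)) (I.mix (nat_lit 184647680) (nat_lit 112590848)) (I.mix (nat_lit 209780736) (nat_lit 126484480)))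
  false (nat_lit 0)
def t0 : BTr := (BTr.n (BTr.n (BTr.n (BTr.b b0_0) (BTr.b b0_1)) (BTr.n (BTr.b b0_2) (BTr.n (BTr.b b0_3) (BTr.b b0_4)))) (BTr.n (BTr.n (BTr.b b0_5) (BTr.b b0_6)) (BTr.n (BTr.b b0_7) (BTr.n (BTr.b b0_8) (BTr.b b0_9)))))
namespace T0
def l0 : Tr := Tr.L (Pth.l (Pth.l (Pth.l Pth.z)))
def l1 : Tr := Tr.L (Pth.l (Pth.l (Pth.r Pth.z)))
def l2 : Tr := Tr.L (Pth.l (Pth.r (Pth.l Pth.z)))
def l3 : Tr := Tr.L (Pth.l (Pth.r (Pth.r (Pth.l Pth.z))))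
def l4 : Tr := Tr.L (Pth.l (Pth.r (Pth.r (Pth.r Pth.z))))
def l5 : Tr := Tr.L (Pth.r (Pth.l (Pth.l Pth.z)))
def l6 : Tr := Tr.L (Pth.r (Pth.l (Pth.r Pth.z)))
def l7 : Tr := Tr.L (Pth.r (Pth.r (Pth.l Pth.z)))
def l8 : Tr := Tr.L (Pth.r (Pth.r (Pth.r (Pth.l Pth.z))))
def l9 : Tr := Tr.L (Pth.r (Pth.r (Pth.r (Pth.r Pth.z))))
end T0
def b1_0 : Bx := Bx.mk (St.mk (I.pos (nat_lit 142704640) (nat_lit 286736384)) (I.mix (nat_lit 28672000) (nat_lit 98353152)) (I.mix (nat_lit 156401664) (nat_lit 110395392)) (I.pos (nat_lit 354222080) (nat_lit 571801600)) (I.mix (nat_lit 126582784) (nat_lit 108412928)) (I.mix (nat_lit 146800640) (nat_lit 95846400)) (I.mix (nat_lit 207339520) (nat_lit 131891200)))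
  false (nat_lit 123932690)
def b1_1 : Bx := Bx.mk (St.mk (I.pos (nat_lit 25001984) (nat_lit 123650048)) (I.neg (nat_lit 3670016) (nat_lit 103038976)) (I.mix (nat_lit 85868544) (nat_lit 7897088)) (I.pos (nat_lit 261799936) (nat_lit 331694080)) (I.mix (nat_lit 107003904) (nat_lit 81035264)) (I.mix (nat_lit 79888384) (nat_lit 119488512)) (I.mix (nat_lit 74743808) (nat_lit 94158848)))
  false (nat_lit 10180695)
def b1_2 : Bx := Bx.mk (St.mk (I.mix (nat_lit 65126400) (nat_lit 12419072)) (I.mix (nat_lit 16302080) (nat_lit 94650368)) (I.neg (nat_lit 35094528) (nat_lit 63471616)) (I.pos (nat_lit 263913472) (nat_lit 290390016)) (I.mix (nat_lit 56197120) (nat_lit 95830016)) (I.mix (nat_lit 109838336) (nat_lit 67043328)) (I.mix (nat_lit 35651584) (nat_lit 30916608)))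
  true (nat_lit 0)
def b1_3 : Bx := Bx.mk (St.mk (I.pos (nat_lit 95551488) (nat_lit 194920448)) (I.mix (nat_lit 41287680) (nat_lit 103153664)) (I.mix (nat_lit 33161216) (nat_lit 115736576)) (I.pos (nat_lit 299286528) (nat_lit 416825344)) (I.mix (nat_lit 146800640) (nat_lit 84000768)) (I.mix (nat_lit 187138048) (nat_lit 106807296)) (I.mix (nat_lit 183713792) (nat_lit 126222336)))
  false (nat_lit 87627202)
def b1_4 : Bx := Bx.mk (St.mk (I.mix (nat_lit 12419072) (nat_lit 65142784)) (I.mix (nat_lit 94650368) (nat_lit 16302080)) (I.neg (nat_lit 35094528) (nat_lit 63471616)) (I.pos (nat_lit 263913472) (nat_lit 290390016)) (I.mix (nat_lit 95830016) (nat_lit 56197120)) (I.mix (nat_lit 67043328) (nat_lit 109789184)) (I.mix (nat_lit 35651584) (nat_lit 30916608)))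
  false (nat_lit 0)
def b1_5 : Bx := Bx.mk (St.mk (I.neg (nat_lit 24985600) (nat_lit 123666432)) (I.pos (nat_lit 3670016) (nat_lit 103055360)) (I.mix (nat_lit 85868544) (nat_lit 9338880)) (I.pos (nat_lit 261767168) (nat_lit 331694080)) (I.mix (nat_lit 81035264) (nat_lit 107003904)) (I.mix (nat_lit 119488512) (nat_lit 79904768)) (I.mix (nat_lit 74743808) (nat_lit 94158848)))
  true (nat_lit 0)
def t1 : BTr := (BTr.n (BTr.n (BTr.b b1_0) (BTr.n (BTr.b b1_1) (BTr.b b1_2))) (BTr.n (BTr.b b1_3) (BTr.n (BTr.b b1_4) (BTr.b b1_5))))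
namespace T1
def l0 : Tr := Tr.L (Pth.l (Pth.l Pth.z))
def l1 : Tr := Tr.L (Pth.l (Pth.r (Pth.l Pth.z)))
def l2 : Tr := Tr.L (Pth.l (Pth.r (Pth.r Pth.z)))
def l3 : Tr := Tr.L (Pth.r (Pth.l Pth.z))
def l4 : Tr := Tr.L (Pth.r (Pth.r (Pth.l Pth.z)))
def l5 : Tr := Tr.L (Pth.r (Pth.r (Pth.r Pth.z)))
end T1
def b2_0 : Bx := Bx.mk (St.mk (I.pos (nat_lit 153616384) (nat_lit 283049984)) (I.mix (nat_lit 25116672) (nat_lit 53084160)) (I.mix (nat_lit 7520256) (nat_lit 125829120)) (I.pos (nat_lit 103071744) (nat_lit 333168640)) (I.mix (nat_lit 115687424) (nat_lit 88211456)) (I.mix (nat_lit 131268608) (nat_lit 93978624)) (I.mix (nat_lit 198590464) (nat_lit 127893504)))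
  false (nat_lit 42890713)
def b2_1 : Bx := Bx.mk (St.mk (I.pos (nat_lit 120242176) (nat_lit 177569792)) (I.neg (nat_lit 3276800) (nat_lit 65011712)) (I.mix (nat_lit 46792704) (nat_lit 30113792)) (I.pos (nat_lit 90243072) (nat_lit 151404544)) (I.mix (nat_lit 74727424) (nat_lit 48005120)) (I.mix (nat_lit 44072960) (nat_lit 65077248)) (I.mix (nat_lit 45088768) (nat_lit 65650688)))
  false (nat_lit 20114083)
def b2_2 : Bx := Bx.mk (St.mk (I.mix (nat_lit 16203776) (nat_lit 105594880)) (I.mix (nat_lit 31014912) (nat_lit 5963776)) (I.mix (nat_lit 9224192) (nat_lit 17285120)) (I.pos (nat_lit 14336000) (nat_lit 76021760)) (I.mix (nat_lit 24772608) (nat_lit 26968064)) (I.mix (nat_lit 22364160) (nat_lit 28950528)) (I.mix (nat_lit 12173312) (nat_lit 18300928)))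
  false (nat_lit 0)
def b2_3 : Bx := Bx.mk (St.mk (I.pos (nat_lit 160743424) (nat_lit 215547904)) (I.mix (nat_lit 41910272) (nat_lit 61669376)) (I.mix (nat_lit 18677760) (nat_lit 128221184)) (I.pos (nat_lit 119767040) (nat_lit 205504512)) (I.mix (nat_lit 144867328) (nat_lit 64995328)) (I.mix (nat_lit 180355072) (nat_lit 96813056)) (I.mix (nat_lit 236519424) (nat_lit 101810176)))
  false (nat_lit 44986845)
def b2_4 : Bx := Bx.mk (St.mk (I.mix (nat_lit 25444352) (nat_lit 124403712)) (I.mix (nat_lit 15794176) (nat_lit 36929536)) (I.mix (nat_lit 901120) (nat_lit 41959424)) (I.pos (nat_lit 13762560) (nat_lit 89800704)) (I.mix (nat_lit 61308928) (nat_lit 26968064)) (I.mix (nat_lit 67108864) (nat_lit 39550976)) (I.mix (nat_lit 47628288) (nat_lit 24412160)))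
  false (nat_lit 0)
def b2_5 : Bx := Bx.mk (St.mk (I.pos (nat_lit 152600576) (nat_lit 178520064)) (I.neg (nat_lit 2506752) (nat_lit 37453824)) (I.mix (nat_lit 9846784) (nat_lit 30408704)) (I.pos (nat_lit 110837760) (nat_lit 152616960)) (I.mix (nat_lit 41091072) (nat_lit 32538624)) (I.mix (nat_lit 34013184) (nat_lit 39288832)) (I.mix (nat_lit 42614784) (nat_lit 37699584)))
  false (nat_lit 0)
def b2_6 : Bx := Bx.mk (St.mk (I.mix (nat_lit 28557312) (nat_lit 115113984)) (I.mix (nat_lit 15695872) (nat_lit 5144576)) (I.mix (nat_lit 180224) (nat_lit 16875520)) (I.pos (nat_lit 14630912) (nat_lit 79314944)) (I.mix (nat_lit 13287424) (nat_lit 9633792)) (I.mix (nat_lit 9093120) (nat_lit 9797632)) (I.mix (nat_lit 6586368) (nat_lit 5390336)))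
  false (nat_lit 0)
def b2_7 : Bx := Bx.mk (St.mk (I.pos (nat_lit 38617088) (nat_lit 132710400)) (I.mix (nat_lit 8634368) (nat_lit 29196288)) (I.pos (nat_lit 1261568) (nat_lit 37683200)) (I.pos (nat_lit 22364160) (nat_lit 100941824)) (I.mix (nat_lit 46006272) (nat_lit 31440896)) (I.mix (nat_lit 48513024) (nat_lit 31244288)) (I.mix (nat_lit 38600704) (nat_lit 21331968)))
  false (nat_lit 0)
def b2_8 : Bx := Bx.mk (St.mk (I.pos (nat_lit 108281856) (nat_lit 164446208)) (I.mix (nat_lit 64897024) (nat_lit 12304384)) (I.mix (nat_lit 40583168) (nat_lit 25395200)) (I.pos (nat_lit 62980096) (nat_lit 131842048)) (I.mix (nat_lit 88440832) (nat_lit 44400640)) (I.mix (nat_lit 66551808) (nat_lit 103022592)) (I.mix (nat_lit 50348032) (nat_lit 76840960)))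
  false (nat_lit 29468531)
def b2_9 : Bx := Bx.mk (St.mk (I.mix (nat_lit 32047104) (nat_lit 99483648)) (I.mix (nat_lit 28868608) (nat_lit 5226496)) (I.mix (nat_lit 7225344) (nat_lit 11206656)) (I.pos (nat_lit 14204928) (nat_lit 70385664)) (I.mix (nat_lit 29278208) (nat_lit 22740992)) (I.mix (nat_lit 26181632) (nat_lit 35897344)) (I.mix (nat_lit 12517376) (nat_lit 17448960)))
  false (nat_lit 0)
def t2 : BTr := (BTr.n (BTr.n (BTr.n (BTr.b b2_0) (BTr.b b2_1)) (BTr.n (BTr.b b2_2) (BTr.n (BTr.b b2_3) (BTr.b b2_4)))) (BTr.n (BTr.n (BTr.b b2_5) (BTr.b b2_6)) (BTr.n (BTr.b b2_7) (BTr.n (BTr.b b2_8) (BTr.b b2_9)))))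
namespace T2
def l0 : Tr := Tr.L (Pth.l (Pth.l (Pth.l Pth.z)))
def l1 : Tr := Tr.L (Pth.l (Pth.l (Pth.r Pth.z)))
def l2 : Tr := Tr.L (Pth.l (Pth.r (Pth.l Pth.z)))
def l3 : Tr := Tr.L (Pth.l (Pth.r (Pth.r (Pth.l Pth.z))))
def l4 : Tr := Tr.L (Pth.l (Pth.r (Pth.r (Pth.r Pth.z))))
def l5 : Tr := Tr.L (Pth.r (Pth.l (Pth.l Pth.z)))
def l6 : Tr := Tr.L (Pth.r (Pth.l (Pth.r Pth.z)))
def l7 : Tr := Tr.L (Pth.r (Pth.r (Pth.l Pth.z)))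
def l8 : Tr := Tr.L (Pth.r (Pth.r (Pth.r (Pth.l Pth.z))))
def l9 : Tr := Tr.L (Pth.r (Pth.r (Pth.r (Pth.r Pth.z))))
end T2
theorem bx0_0 : BoxOK sI cl4 cl9 cl9 t1 t1 b0_0 :=
  box_mk (TrL.c (I.pos (nat_lit 0) (nat_lit 0)) (xa (xb T1.l0 (xa T1.l0 T1.l0)) (xb T1.l0 (xa T1.l0 T1.l0)))
  (TrL.c (I.pos (nat_lit 0) (nat_lit 0)) T1.l1
  (TrL.c (I.pos (nat_lit 0) (nat_lit 0)) T1.l2
  (TrL.c (I.pos (nat_lit 0) (nat_lit 0)) (xa T1.l3 (xb (xa T1.l3 (xb T1.l3 T1.l3)) (xa T1.l3 (xs T1.l3 (xb T1.l3 T1.l3)))))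
  (TrL.c (I.pos (nat_lit 0) (nat_lit 0)) T1.l4
  (TrL.c (I.pos (nat_lit 0) (nat_lit 0)) T1.l5
  TrL.n)))))) (by decide +kernel)
theorem bx0_1 : BoxOK sI cl4 cl9 cl9 t1 t1 b0_1 :=
  box_mk (TrL.c (I.pos (nat_lit 0) (nat_lit 0)) T1.l0
  (TrL.c (I.pos (nat_lit 0) (nat_lit 0)) T1.l1
  (TrL.c (I.pos (nat_lit 0) (nat_lit 0)) T1.l2
  (TrL.c (I.pos (nat_lit 0) (nat_lit 0)) T1.l3
  (TrL.c (I.pos (nat_lit 0) (nat_lit 0)) T1.l4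
  (TrL.c (I.pos (nat_lit 0) (nat_lit 0)) T1.l5
  TrL.n)))))) (by decide +kernel)
theorem bx0_2 : BoxOK sI cl4 cl9 cl9 t1 t1 b0_2 :=
  box_mk (TrL.c (I.pos (nat_lit 0) (nat_lit 0)) T1.l0
  (TrL.c (I.pos (nat_lit 0) (nat_lit 0)) T1.l1
  (TrL.c (I.pos (nat_lit 0) (nat_lit 0)) T1.l2
  (TrL.c (I.pos (nat_lit 0) (nat_lit 0)) T1.l3
  (TrL.c (I.pos (nat_lit 0) (nat_lit 0)) T1.l4
  (TrL.c (I.pos (nat_lit 0) (nat_lit 0)) T1.l5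
  TrL.n)))))) (by decide +kernel)
theorem bx0_3 : BoxOK sI cl4 cl9 cl9 t1 t1 b0_3 :=
  box_mk (TrL.c (I.pos (nat_lit 0) (nat_lit 0)) (xa T1.l0 T1.l0)
  (TrL.c (I.pos (nat_lit 0) (nat_lit 0)) T1.l1
  (TrL.c (I.pos (nat_lit 0) (nat_lit 0)) T1.l2
  (TrL.c (I.pos (nat_lit 0) (nat_lit 0)) T1.l3
  (TrL.c (I.pos (nat_lit 0) (nat_lit 0)) T1.l4
  (TrL.c (I.pos (nat_lit 0) (nat_lit 0)) T1.l5
  TrL.n)))))) (by decide +kernel)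
theorem bx0_4 : BoxOK sI cl4 cl9 cl9 t1 t1 b0_4 :=
  box_mk (TrL.c (I.pos (nat_lit 0) (nat_lit 0)) T1.l0
  (TrL.c (I.pos (nat_lit 0) (nat_lit 0)) T1.l1
  (TrL.c (I.pos (nat_lit 0) (nat_lit 0)) T1.l2
  (TrL.c (I.pos (nat_lit 0) (nat_lit 0)) T1.l3
  (TrL.c (I.pos (nat_lit 0) (nat_lit 0)) T1.l4
  (TrL.c (I.pos (nat_lit 0) (nat_lit 0)) T1.l5
  TrL.n)))))) (by decide +kernel)
theorem bx0_5 : BoxOK sI cl4 cl9 cl9 t1 t1 b0_5 :=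
  box_mk (TrL.c (I.pos (nat_lit 0) (nat_lit 0)) T1.l0
  (TrL.c (I.pos (nat_lit 0) (nat_lit 0)) T1.l1
  (TrL.c (I.pos (nat_lit 0) (nat_lit 0)) T1.l2
  (TrL.c (I.pos (nat_lit 0) (nat_lit 0)) T1.l3
  (TrL.c (I.pos (nat_lit 0) (nat_lit 0)) T1.l4
  (TrL.c (I.pos (nat_lit 0) (nat_lit 0)) T1.l5
  TrL.n)))))) (by decide +kernel)
theorem bx0_6 : BoxOK sI cl4 cl9 cl9 t1 t1 b0_6 :=
  box_mk (TrL.c (I.pos (nat_lit 0) (nat_lit 0)) T1.l0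
  (TrL.c (I.pos (nat_lit 0) (nat_lit 0)) T1.l1
  (TrL.c (I.pos (nat_lit 0) (nat_lit 0)) T1.l2
  (TrL.c (I.pos (nat_lit 0) (nat_lit 0)) T1.l3
  (TrL.c (I.pos (nat_lit 0) (nat_lit 0)) T1.l4
  (TrL.c (I.pos (nat_lit 0) (nat_lit 0)) T1.l5
  TrL.n)))))) (by decide +kernel)
theorem bx0_7 : BoxOK sI cl4 cl9 cl9 t1 t1 b0_7 :=
  box_mk (TrL.c (I.pos (nat_lit 0) (nat_lit 0)) (xa T1.l0 T1.l0)
  (TrL.c (I.pos (nat_lit 0) (nat_lit 0)) T1.l1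
  (TrL.c (I.pos (nat_lit 0) (nat_lit 0)) T1.l2
  (TrL.c (I.pos (nat_lit 0) (nat_lit 0)) T1.l3
  (TrL.c (I.pos (nat_lit 0) (nat_lit 0)) T1.l4
  (TrL.c (I.pos (nat_lit 0) (nat_lit 0)) T1.l5
  TrL.n)))))) (by decide +kernel)
theorem bx0_8 : BoxOK sI cl4 cl9 cl9 t1 t1 b0_8 :=
  box_mk (TrL.c (I.pos (nat_lit 0) (nat_lit 0)) (xa (xa T1.l0 T1.l0) T1.l0)
  (TrL.c (I.pos (nat_lit 0) (nat_lit 0)) T1.l1
  (TrL.c (I.pos (nat_lit 0) (nat_lit 0)) T1.l2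
  (TrL.c (I.pos (nat_lit 0) (nat_lit 0)) T1.l3
  (TrL.c (I.pos (nat_lit 0) (nat_lit 0)) T1.l4
  (TrL.c (I.pos (nat_lit 0) (nat_lit 0)) T1.l5
  TrL.n)))))) (by decide +kernel)
theorem bx0_9 : BoxOK sI cl4 cl9 cl9 t1 t1 b0_9 :=
  box_mk (TrL.c (I.pos (nat_lit 0) (nat_lit 0)) (xb (xa T1.l0 T1.l0) (xa (xa T1.l0 T1.l0) (xa T1.l0 T1.l0)))
  (TrL.c (I.pos (nat_lit 0) (nat_lit 0)) T1.l1
  (TrL.c (I.pos (nat_lit 0) (nat_lit 0)) T1.l2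
  (TrL.c (I.pos (nat_lit 0) (nat_lit 0)) (xb (xa T1.l3 T1.l3) (xa T1.l3 T1.l3))
  (TrL.c (I.pos (nat_lit 0) (nat_lit 0)) T1.l4
  (TrL.c (I.pos (nat_lit 0) (nat_lit 0)) T1.l5
  TrL.n)))))) (by decide +kernel)
theorem sv0 : StarV sI cl4 cl9 cl9 t1 t1 t0 :=
  (bt_n (bt_n (bt_n (bt_b bx0_0) (bt_b bx0_1)) (bt_n (bt_b bx0_2) (bt_n (bt_b bx0_3) (bt_b bx0_4)))) (bt_n (bt_n (bt_b bx0_5) (bt_b bx0_6)) (bt_n (bt_b bx0_7) (bt_n (bt_b bx0_8) (bt_b bx0_9)))))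
def S0 : StarD := StarD.mk cl4 cl9 cl9 1 1 t0
theorem bx1_0 : BoxOK sI cl9 cl4 cl9 t0 t2 b1_0 :=
  box_mk (TrL.c (I.pos (nat_lit 0) (nat_lit 0)) (xa (xb T0.l0 T0.l0) (xb T0.l0 T0.l0))
  (TrL.c (I.pos (nat_lit 0) (nat_lit 0)) T2.l1
  (TrL.c (I.pos (nat_lit 0) (nat_lit 124588530)) (xR T0.l1 T0.l8)
  (TrL.c (I.pos (nat_lit 0) (nat_lit 96881482)) (xR T2.l2 T2.l2)
  (TrL.c (I.pos (nat_lit 0) (nat_lit 0)) (xa (xb T2.l3 (xk T2.l3 T2.l3)) (xb (xk (xa T2.l3 (xb T2.l3 T2.l3)) (xa T2.l3 (xb T2.l3 T2.l3))) (xa (xs T2.l3 (xk (xb T2.l3 T2.l3) (xb T2.l3 (xk T2.l3 (xa T2.l3 T2.l3))))) (xs (xk (xk T2.l3 (xa T2.l3 (xs T2.l3 T2.l3))) (xs T2.l3 (xk T2.l3 (xb T2.l3 (xs T2.l3 T2.l3))))) (xk (xb T2.l3 (xs (xk T2.l3 (xa T2.l3 T2.l3)) (xa (xk T2.l3 T2.l3) (xk (xb T2.l3 (xa T2.l3 (xs T2.l3 T2.l3))) (xb T2.l3 (xs T2.l3 (xe T2.l0 T2.l0))))))) (xb (xa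 T2.l3 (xk T2.l3 T2.l3)) (xs (xa T2.l3 (xk (xb T2.l3 (xs T2.l3 T2.l3)) (xs T2.l3 (xb T2.l3 T2.l3)))) (xa (xk T2.l3 (xb T2.l3 T2.l3)) (xk (xb T2.l3 (xs T2.l3 (xk T2.l3 (xe T2.l3 T2.l3)))) (xb T2.l3 (xs (xa T2.l3 (xk T2.l3 T2.l3)) (xa T2.l3 (xk (xe T2.l0 T2.l0) (xc T2.l3 T2.l3))))))))))))))
  (TrL.c (I.pos (nat_lit 0) (nat_lit 0)) T0.l2
  (TrL.c (I.mix (nat_lit 17240550) (nat_lit 96881482)) (xR T2.l4 T2.l4)
  (TrL.c (I.mix (nat_lit 17240550) (nat_lit 71940500)) T0.l7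
  TrL.n)))))))) (by decide +kernel)
theorem bx1_1 : BoxOK sI cl9 cl4 cl9 t0 t2 b1_1 :=
  box_mk (TrL.c (I.pos (nat_lit 0) (nat_lit 0)) (xa (xb T0.l0 T0.l0) T0.l0)
  (TrL.c (I.pos (nat_lit 0) (nat_lit 0)) T2.l1
  (TrL.c (I.pos (nat_lit 0) (nat_lit 124588530)) (xR T0.l1 T0.l1)
  (TrL.c (I.pos (nat_lit 0) (nat_lit 96881482)) (xR T2.l2 T2.l4)
  (TrL.c (I.pos (nat_lit 0) (nat_lit 0)) T2.l3
  (TrL.c (I.pos (nat_lit 0) (nat_lit 0)) T0.l2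
  (TrL.c (I.mix (nat_lit 17240550) (nat_lit 96881482)) T2.l4
  (TrL.c (I.mix (nat_lit 17240550) (nat_lit 71940500)) T0.l8
  TrL.n)))))))) (by decide +kernel)
theorem bx1_2 : BoxOK sI cl9 cl4 cl9 t0 t2 b1_2 :=
  box_mk (TrL.c (I.pos (nat_lit 0) (nat_lit 0)) T2.l5
  (TrL.c (I.pos (nat_lit 0) (nat_lit 0)) T0.l1
  (TrL.c (I.mix (nat_lit 17240550) (nat_lit 96881482)) T2.l4
  (TrL.c (I.mix (nat_lit 17240550) (nat_lit 71940500)) T0.l8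
  TrL.n)))) (by decide +kernel)
theorem bx1_3 : BoxOK sI cl9 cl4 cl9 t0 t2 b1_3 :=
  box_mk (TrL.c (I.pos (nat_lit 0) (nat_lit 0)) (xb (xa T0.l0 T0.l0) (xa T0.l0 T0.l0))
  (TrL.c (I.pos (nat_lit 0) (nat_lit 0)) T2.l1
  (TrL.c (I.pos (nat_lit 0) (nat_lit 124588530)) (xR T0.l1 T0.l8)
  (TrL.c (I.pos (nat_lit 0) (nat_lit 96881482)) (xR T2.l2 T2.l2)
  (TrL.c (I.pos (nat_lit 0) (nat_lit 0)) (xb T2.l3 (xs T2.l3 (xb T2.l3 (xa T2.l0 (xk T2.l0 (xs T2.l3 T2.l3))))))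
  (TrL.c (I.pos (nat_lit 0) (nat_lit 0)) T0.l2
  (TrL.c (I.mix (nat_lit 17240550) (nat_lit 96881482)) T2.l4
  (TrL.c (I.mix (nat_lit 17240550) (nat_lit 71940500)) (xR T0.l3 T0.l7)
  TrL.n)))))))) (by decide +kernel)
theorem bx1_4 : BoxOK sI cl9 cl4 cl9 t0 t2 b1_4 :=
  box_mk (TrL.c (I.pos (nat_lit 0) (nat_lit 0)) (xb (xa (xa T0.l0 T0.l0) T0.l0) T0.l0)
  (TrL.c (I.pos (nat_lit 0) (nat_lit 0)) T2.l5
  (TrL.c (I.pos (nat_lit 0) (nat_lit 124588530)) T0.l1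
  (TrL.c (I.pos (nat_lit 0) (nat_lit 96881482)) T2.l4
  (TrL.c (I.pos (nat_lit 0) (nat_lit 0)) T2.l3
  (TrL.c (I.pos (nat_lit 0) (nat_lit 0)) T0.l2
  (TrL.c (I.mix (nat_lit 17240550) (nat_lit 96881482)) T2.l4
  (TrL.c (I.mix (nat_lit 17240550) (nat_lit 71940500)) T0.l8
  TrL.n)))))))) (by decide +kernel)
theorem bx1_5 : BoxOK sI cl9 cl4 cl9 t0 t2 b1_5 :=
  box_mk (TrL.c (I.pos (nat_lit 0) (nat_lit 0)) T2.l1
  (TrL.c (I.pos (nat_lit 0) (nat_lit 0)) T0.l1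
  (TrL.c (I.mix (nat_lit 17240550) (nat_lit 96881482)) (xR T2.l4 T2.l4)
  (TrL.c (I.mix (nat_lit 17240550) (nat_lit 71940500)) T0.l8
  TrL.n)))) (by decide +kernel)
theorem sv1 : StarV sI cl9 cl4 cl9 t0 t2 t1 :=
  (bt_n (bt_n (bt_b bx1_0) (bt_n (bt_b bx1_1) (bt_b bx1_2))) (bt_n (bt_b bx1_3) (bt_n (bt_b bx1_4) (bt_b bx1_5))))
def S1 : StarD := StarD.mk cl9 cl4 cl9 0 2 t1
theorem bx2_0 : BoxOK sI cl9 cl9 cl4 t2 t0 b2_0 :=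
  box_mk (TrL.c (I.pos (nat_lit 0) (nat_lit 0)) (xa (xa (xb (xs T2.l0 (xb T2.l0 T2.l0)) (xs T2.l0 T2.l0)) (xb (xs T2.l0 (xb T2.l0 T2.l0)) (xs T2.l0 (xb T2.l0 T2.l0)))) (xa (xb (xs T2.l0 (xb (xa T2.l0 T2.l3) T2.l0)) (xs T2.l0 (xb T2.l0 T2.l0))) (xb (xs T2.l0 (xb (xa (xs T2.l0 T2.l0) (xs T2.l3 (xb T2.l0 T2.l0))) (xa T2.l3 T2.l3))) (xs T2.l0 (xb (xs T2.l0 T2.l0) (xs T2.l0 T2.l0))))))
  (TrL.c (I.pos (nat_lit 0) (nat_lit 0)) T0.l6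
  (TrL.c (I.pos (nat_lit 0) (nat_lit 124588530)) (xR T2.l4 (xR T2.l4 T2.l7))
  (TrL.c (I.pos (nat_lit 0) (nat_lit 96881482)) (xR T0.l7 T0.l7)
  (TrL.c (I.pos (nat_lit 0) (nat_lit 0)) (xa (xa T0.l9 T0.l9) (xa (xb T0.l9 T0.l9) (xk (xb T0.l9 (xs T0.l9 (xb T0.l9 (xs T0.l9 T0.l9)))) (xb T0.l9 (xs T0.l9 (xb T0.l9 (xs T0.l9 (xa T0.l9 (xk T0.l9 T0.l9)))))))))
  (TrL.c (I.pos (nat_lit 0) (nat_lit 0)) T2.l8
  (TrL.c (I.mix (nat_lit 17240550) (nat_lit 96881482)) (xR T0.l8 (xR T0.l8 T0.l8))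
  (TrL.c (I.mix (nat_lit 17240550) (nat_lit 71940500)) (xR T2.l9 T2.l9)
  TrL.n)))))))) (by decide +kernel)
theorem bx2_1 : BoxOK sI cl9 cl9 cl4 t2 t0 b2_1 :=
  box_mk (TrL.c (I.pos (nat_lit 0) (nat_lit 0)) T2.l0
  (TrL.c (I.pos (nat_lit 0) (nat_lit 0)) T0.l6
  (TrL.c (I.pos (nat_lit 0) (nat_lit 124588530)) (xR T2.l4 T2.l7)
  (TrL.c (I.pos (nat_lit 0) (nat_lit 96881482)) (xR T0.l7 T0.l7)
  (TrL.c (I.pos (nat_lit 0) (nat_lit 0)) T0.l9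
  (TrL.c (I.pos (nat_lit 0) (nat_lit 0)) T2.l8
  (TrL.c (I.mix (nat_lit 17240550) (nat_lit 96881482)) (xR T0.l8 T0.l8)
  (TrL.c (I.mix (nat_lit 17240550) (nat_lit 71940500)) T2.l2
  TrL.n)))))))) (by decide +kernel)
theorem bx2_2 : BoxOK sI cl9 cl9 cl4 t2 t0 b2_2 :=
  box_mk (TrL.c (I.pos (nat_lit 0) (nat_lit 0)) (xa T2.l0 T2.l0)
  (TrL.c (I.pos (nat_lit 0) (nat_lit 0)) T0.l6
  (TrL.c (I.pos (nat_lit 0) (nat_lit 124588530)) (xR T2.l4 T2.l7)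
  (TrL.c (I.pos (nat_lit 0) (nat_lit 96881482)) T0.l7
  (TrL.c (I.pos (nat_lit 0) (nat_lit 0)) T0.l9
  (TrL.c (I.pos (nat_lit 0) (nat_lit 0)) T2.l8
  (TrL.c (I.mix (nat_lit 17240550) (nat_lit 96881482)) T0.l8
  (TrL.c (I.mix (nat_lit 17240550) (nat_lit 71940500)) T2.l9
  TrL.n)))))))) (by decide +kernel)
theorem bx2_3 : BoxOK sI cl9 cl9 cl4 t2 t0 b2_3 :=
  box_mk (TrL.c (I.pos (nat_lit 0) (nat_lit 0)) (xb (xa (xs T2.l0 (xb T2.l0 T2.l0)) (xs T2.l0 (xb T2.l0 T2.l0))) (xa T2.l0 (xs T2.l0 T2.l0)))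
  (TrL.c (I.pos (nat_lit 0) (nat_lit 0)) T0.l6
  (TrL.c (I.pos (nat_lit 0) (nat_lit 124588530)) (xR T2.l4 (xR T2.l7 T2.l7))
  (TrL.c (I.pos (nat_lit 0) (nat_lit 96881482)) (xR T0.l7 T0.l7)
  (TrL.c (I.pos (nat_lit 0) (nat_lit 0)) (xb (xa T0.l9 T0.l9) (xb T0.l9 (xs T0.l9 T0.l9)))
  (TrL.c (I.pos (nat_lit 0) (nat_lit 0)) T2.l8
  (TrL.c (I.mix (nat_lit 17240550) (nat_lit 96881482)) (xR T0.l8 T0.l8)
  (TrL.c (I.mix (nat_lit 17240550) (nat_lit 71940500)) (xR T2.l9 T2.l9)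
  TrL.n)))))))) (by decide +kernel)
theorem bx2_4 : BoxOK sI cl9 cl9 cl4 t2 t0 b2_4 :=
  box_mk (TrL.c (I.pos (nat_lit 0) (nat_lit 0)) (xa T2.l0 (xa T2.l0 T2.l0))
  (TrL.c (I.pos (nat_lit 0) (nat_lit 0)) T0.l6
  (TrL.c (I.pos (nat_lit 0) (nat_lit 124588530)) (xR T2.l4 T2.l7)
  (TrL.c (I.pos (nat_lit 0) (nat_lit 96881482)) T0.l7
  (TrL.c (I.pos (nat_lit 0) (nat_lit 0)) (xa T0.l9 T0.l9)
  (TrL.c (I.pos (nat_lit 0) (nat_lit 0)) T2.l8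
  (TrL.c (I.mix (nat_lit 17240550) (nat_lit 96881482)) T0.l8
  (TrL.c (I.mix (nat_lit 17240550) (nat_lit 71940500)) T2.l9
  TrL.n)))))))) (by decide +kernel)
theorem bx2_5 : BoxOK sI cl9 cl9 cl4 t2 t0 b2_5 :=
  box_mk (TrL.c (I.pos (nat_lit 0) (nat_lit 0)) T2.l0
  (TrL.c (I.pos (nat_lit 0) (nat_lit 0)) T0.l6
  (TrL.c (I.pos (nat_lit 0) (nat_lit 124588530)) (xR T2.l4 T2.l7)
  (TrL.c (I.pos (nat_lit 0) (nat_lit 96881482)) (xR T0.l7 T0.l7)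
  (TrL.c (I.pos (nat_lit 0) (nat_lit 0)) T0.l9
  (TrL.c (I.pos (nat_lit 0) (nat_lit 0)) T2.l8
  (TrL.c (I.mix (nat_lit 17240550) (nat_lit 96881482)) (xR T0.l8 T0.l8)
  (TrL.c (I.mix (nat_lit 17240550) (nat_lit 71940500)) T2.l2
  TrL.n)))))))) (by decide +kernel)
theorem bx2_6 : BoxOK sI cl9 cl9 cl4 t2 t0 b2_6 :=
  box_mk (TrL.c (I.pos (nat_lit 0) (nat_lit 0)) (xa T2.l0 T2.l0)
  (TrL.c (I.pos (nat_lit 0) (nat_lit 0)) T0.l6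
  (TrL.c (I.pos (nat_lit 0) (nat_lit 124588530)) (xR T2.l4 T2.l7)
  (TrL.c (I.pos (nat_lit 0) (nat_lit 96881482)) T0.l7
  (TrL.c (I.pos (nat_lit 0) (nat_lit 0)) T0.l9
  (TrL.c (I.pos (nat_lit 0) (nat_lit 0)) T2.l8
  (TrL.c (I.mix (nat_lit 17240550) (nat_lit 96881482)) T0.l8
  (TrL.c (I.mix (nat_lit 17240550) (nat_lit 71940500)) T2.l9
  TrL.n)))))))) (by decide +kernel)
theorem bx2_7 : BoxOK sI cl9 cl9 cl4 t2 t0 b2_7 :=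
  box_mk (TrL.c (I.pos (nat_lit 0) (nat_lit 0)) (xa T2.l0 T2.l0)
  (TrL.c (I.pos (nat_lit 0) (nat_lit 0)) T0.l6
  (TrL.c (I.pos (nat_lit 0) (nat_lit 124588530)) (xR T2.l4 T2.l7)
  (TrL.c (I.pos (nat_lit 0) (nat_lit 96881482)) T0.l7
  (TrL.c (I.pos (nat_lit 0) (nat_lit 0)) T0.l9
  (TrL.c (I.pos (nat_lit 0) (nat_lit 0)) T2.l8
  (TrL.c (I.mix (nat_lit 17240550) (nat_lit 96881482)) T0.l8
  (TrL.c (I.mix (nat_lit 17240550) (nat_lit 71940500)) T2.l9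
  TrL.n)))))))) (by decide +kernel)
theorem bx2_8 : BoxOK sI cl9 cl9 cl4 t2 t0 b2_8 :=
  box_mk (TrL.c (I.pos (nat_lit 0) (nat_lit 0)) T2.l0
  (TrL.c (I.pos (nat_lit 0) (nat_lit 0)) T0.l6
  (TrL.c (I.pos (nat_lit 0) (nat_lit 124588530)) (xR T2.l4 T2.l7)
  (TrL.c (I.pos (nat_lit 0) (nat_lit 96881482)) (xR T0.l7 T0.l7)
  (TrL.c (I.pos (nat_lit 0) (nat_lit 0)) T0.l9
  (TrL.c (I.pos (nat_lit 0) (nat_lit 0)) T2.l8
  (TrL.c (I.mix (nat_lit 17240550) (nat_lit 96881482)) (xR T0.l8 T0.l8)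
  (TrL.c (I.mix (nat_lit 17240550) (nat_lit 71940500)) T2.l2
  TrL.n)))))))) (by decide +kernel)
theorem bx2_9 : BoxOK sI cl9 cl9 cl4 t2 t0 b2_9 :=
  box_mk (TrL.c (I.pos (nat_lit 0) (nat_lit 0)) (xa (xa T2.l0 T2.l0) T2.l0)
  (TrL.c (I.pos (nat_lit 0) (nat_lit 0)) T0.l6
  (TrL.c (I.pos (nat_lit 0) (nat_lit 124588530)) (xR T2.l4 T2.l7)
  (TrL.c (I.pos (nat_lit 0) (nat_lit 96881482)) T0.l7
  (TrL.c (I.pos (nat_lit 0) (nat_lit 0)) T0.l9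
  (TrL.c (I.pos (nat_lit 0) (nat_lit 0)) T2.l8
  (TrL.c (I.mix (nat_lit 17240550) (nat_lit 96881482)) (xR T0.l8 T0.l8)
  (TrL.c (I.mix (nat_lit 17240550) (nat_lit 71940500)) T2.l4
  TrL.n)))))))) (by decide +kernel)
theorem sv2 : StarV sI cl9 cl9 cl4 t2 t0 t2 :=
  (bt_n (bt_n (bt_n (bt_b bx2_0) (bt_b bx2_1)) (bt_n (bt_b bx2_2) (bt_n (bt_b bx2_3) (bt_b bx2_4)))) (bt_n (bt_n (bt_b bx2_5) (bt_b bx2_6)) (bt_n (bt_b bx2_7) (bt_n (bt_b bx2_8) (bt_b bx2_9)))))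
def S2 : StarD := StarD.mk cl9 cl9 cl4 2 0 t2
def G : List StarD := [S0, S1, S2]
theorem so0 : StarOK sI G S0 :=
  star_mk (by decide) (by decide) rfl rfl rfl rfl rfl rfl (rfl : _ = t1) (rfl : _ = t1)
  (st_mk (Pth.l (Pth.l (Pth.l Pth.z))) (nat_lit 117319447) (nat_lit 137002572) (by decide +kernel))
  (st_mk (Pth.l (Pth.l (Pth.l Pth.z))) (nat_lit 153806142) (nat_lit 174378406) (by decide +kernel))
  (st_mk (Pth.l (Pth.l (Pth.l Pth.z))) (nat_lit 194591302) (nat_lit 220203038) (by decide +kernel)) sv0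
theorem so1 : StarOK sI G S1 :=
  star_mk (by decide) (by decide) rfl rfl rfl rfl rfl rfl (rfl : _ = t0) (rfl : _ = t2)
  (st_mk (Pth.l (Pth.l Pth.z)) (nat_lit 366339661) (nat_lit 369207551) (by decide +kernel))
  (st_mk (Pth.l (Pth.l Pth.z)) (nat_lit 401546410) (nat_lit 404887715) (by decide +kernel))
  (st_mk (Pth.l (Pth.l Pth.z)) (nat_lit 441668387) (nat_lit 446686157) (by decide +kernel)) sv1
theorem so2 : StarOK sI G S2 :=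
  star_mk (by decide) (by decide) rfl rfl rfl rfl rfl rfl (rfl : _ = t2) (rfl : _ = t0)
  (st_mk (Pth.l (Pth.l (Pth.l Pth.z))) (nat_lit 115381759) (nat_lit 133934718) (by decide +kernel))
  (st_mk (Pth.l (Pth.l (Pth.l Pth.z))) (nat_lit 150481373) (nat_lit 169376889) (by decide +kernel))
  (st_mk (Pth.l (Pth.l (Pth.l Pth.z))) (nat_lit 191047685) (nat_lit 210434456) (by decide +kernel)) sv2
theorem ok : GroupOK (nat_lit 0) (nat_lit 91291648) G := grp_mk (allS_c so0 (allS_c so1 (allS_c so2 allS_n)))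
theorem cov : GCov G cl4 cl9 cl9 := cov_mk
  ⟨0, by decide, rfl, rfl, rfl⟩ ⟨0, by decide, rfl, rfl, rfl⟩ ⟨1, by decide, rfl, rfl, rfl⟩ ⟨2, by decide, rfl, rfl, rfl⟩ ⟨1, by decide, rfl, rfl, rfl⟩ ⟨2, by decide, rfl, rfl, rfl⟩
end Q155_0


end Pool.Agent.Helper6.MONO
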