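import Pool.Agent.Helper6.MONO.Cert.C01

/-!
Certificate data (generated).
-/

set_option autoImplicit false
set_option linter.all false
noncomputable section
namespace Pool.Agent.Helper6.MONO


namespace Q155_1
def sI : I := I.pos (nat_lit 91226112) (nat_lit 150339584)
def b0_0 : Bx := Bx.mk (St.mk (I.pos (nat_lit 158154752) (nat_lit 242565120)) (I.mix (nat_lit 2064384) (nat_lit 66617344)) (I.mix (nat_lit 2310144) (nat_lit 74825728)) (I.pos (nat_lit 114016256) (nat_lit 258916352)) (I.mix (nat_lit 119783424) (nat_lit 78888960)) (I.mix (nat_lit 94437376) (nat_lit 75841536)) (I.mix (nat_lit 138182656) (nat_lit 117981184)))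
  false (nat_lit 9312859)
def b0_1 : Bx := Bx.mk (St.mk (I.mix (nat_lit 18415616) (nat_lit 129777664)) (I.mix (nat_lit 7127040) (nat_lit 28229632)) (I.mix (nat_lit 23789568) (nat_lit 7766016)) (I.pos (nat_lit 14155776) (nat_lit 98025472)) (I.mix (nat_lit 33767424) (nat_lit 41566208)) (I.mix (nat_lit 40697856) (nat_lit 28000256)) (I.mix (nat_lit 31817728) (nat_lit 24100864)))
  false (nat_lit 0)
def b0_2 : Bx := Bx.mk (St.mk (I.pos (nat_lit 107266048) (nat_lit 148389888)) (I.mix (nat_lit 50429952) (nat_lit 9666560)) (I.neg (nat_lit 5095424) (nat_lit 67600384)) (I.pos (nat_lit 62242816) (nat_lit 117833728)) (I.mix (nat_lit 95879168) (nat_lit 37912576)) (I.mix (nat_lit 42975232) (nat_lit 90472448)) (I.mix (nat_lit 32161792) (nat_lit 82247680)))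
  false (nat_lit 0)
def b0_3 : Bx := Bx.mk (St.mk (I.mix (nat_lit 20496384) (nat_lit 89473024)) (I.mix (nat_lit 25296896) (nat_lit 2555904)) (I.neg (nat_lit 1064960) (nat_lit 25870336)) (I.pos (nat_lit 16187392) (nat_lit 65617920)) (I.mix (nat_lit 38273024) (nat_lit 17498112)) (I.mix (nat_lit 17924096) (nat_lit 35356672)) (I.mix (nat_lit 9666560) (nat_lit 19922944)))
  false (nat_lit 0)
def b0_4 : Bx := Bx.mk (St.mk (I.pos (nat_lit 194265088) (nat_lit 255164416)) (I.mix (nat_lit 17924096) (nat_lit 62111744)) (I.mix (nat_lit 81444864) (nat_lit 67796992)) (I.pos (nat_lit 196116480) (nat_lit 282820608)) (I.mix (nat_lit 105922560) (nat_lit 88080384)) (I.mix (nat_lit 107134976) (nat_lit 84836352)) (I.mix (nat_lit 175243264) (nat_lit 156270592)))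
  false (nat_lit 31486734)
def b0_5 : Bx := Bx.mk (St.mk (I.pos (nat_lit 103055360) (nat_lit 125485056)) (I.mix (nat_lit 9027584) (nat_lit 7929856)) (I.neg (nat_lit 5242880) (nat_lit 25739264)) (I.pos (nat_lit 60375040) (nat_lit 95846400)) (I.mix (nat_lit 28409856) (nat_lit 20201472)) (I.mix (nat_lit 20824064) (nat_lit 22511616)) (I.mix (nat_lit 16596992) (nat_lit 21381120)))
  false (nat_lit 0)
def b0_6 : Bx := Bx.mk (St.mk (I.mix (nat_lit 27131904) (nat_lit 74907648)) (I.mix (nat_lit 3981312) (nat_lit 7651328)) (I.neg (nat_lit 1605632) (nat_lit 12795904)) (I.pos (nat_lit 16302080) (nat_lit 57622528)) (I.mix (nat_lit 18726912) (nat_lit 14254080)) (I.mix (nat_lit 15679488) (nat_lit 15941632)) (I.mix (nat_lit 7618560) (nat_lit 8847360)))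
  false (nat_lit 0)
def b0_7 : Bx := Bx.mk (St.mk (I.pos (nat_lit 221118464) (nat_lit 260849664)) (I.mix (nat_lit 17186816) (nat_lit 19070976)) (I.neg (nat_lit 13139968) (nat_lit 85409792)) (I.pos (nat_lit 222855168) (nat_lit 300417024)) (I.mix (nat_lit 76070912) (nat_lit 27181056)) (I.mix (nat_lit 49119232) (nat_lit 48529408)) (I.mix (nat_lit 76267520) (nat_lit 95698944)))
  false (nat_lit 0)
def b0_8 : Bx := Bx.mk (St.mk (I.pos (nat_lit 97206272) (nat_lit 178651136)) (I.mix (nat_lit 57180160) (nat_lit 7389184)) (I.neg (nat_lit 10747904) (nat_lit 81510400)) (I.pos (nat_lit 71057408) (nat_lit 156663808)) (I.mix (nat_lit 93372416) (nat_lit 52740096)) (I.mix (nat_lit 57819136) (nat_lit 81018880)) (I.mix (nat_lit 47480832) (nat_lit 84279296)))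
  false (nat_lit 15202191)
def b0_9 : Bx := Bx.mk (St.mk (I.mix (nat_lit 26968064) (nat_lit 103596032)) (I.mix (nat_lit 30294016) (nat_lit 7634944)) (I.neg (nat_lit 589824) (nat_lit 30048256)) (I.pos (nat_lit 14336000) (nat_lit 75743232)) (I.mix (nat_lit 47235072) (nat_lit 38567936)) (I.mix (nat_lit 31686656) (nat_lit 48250880)) (I.mix (nat_lit 20627456) (nat_lit 32178176)))
  false (nat_lit 6441828)
def b0_10 : Bx := Bx.mk (St.mk (I.pos (nat_lit 171425792) (nat_lit 225755136)) (I.mix (nat_lit 16318464) (nat_lit 60604416)) (I.mix (nat_lit 26329088) (nat_lit 69861376)) (I.pos (nat_lit 139460608) (nat_lit 228786176)) (I.mix (nat_lit 135020544) (nat_lit 72204288)) (I.mix (nat_lit 158269440) (nat_lit 104038400)) (I.mix (nat_lit 170491904) (nat_lit 110510080)))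
  false (nat_lit 0)
def b0_11 : Bx := Bx.mk (St.mk (I.mix (nat_lit 24641536) (nat_lit 132661248)) (I.mix (nat_lit 14974976) (nat_lit 35831808)) (I.mix (nat_lit 21872640) (nat_lit 15482880)) (I.pos (nat_lit 15155200) (nat_lit 96698368)) (I.mix (nat_lit 48087040) (nat_lit 43302912)) (I.mix (nat_lit 56082432) (nat_lit 38830080)) (I.mix (nat_lit 34013184) (nat_lit 23281664)))
  false (nat_lit 1303861)
def b0_12 : Bx := Bx.mk (St.mk (I.pos (nat_lit 146325504) (nat_lit 214761472)) (I.mix (nat_lit 45367296) (nat_lit 17514496)) (I.mix (nat_lit 70991872) (nat_lit 9191424)) (I.pos (nat_lit 107216896) (nat_lit 205733888)) (I.mix (nat_lit 82067456) (nat_lit 69484544)) (I.mix (nat_lit 84099072) (nat_lit 81117184)) (I.mix (nat_lit 87949312) (nat_lit 82526208)))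
  false (nat_lit 37276545)
def b0_13 : Bx := Bx.mk (St.mk (I.pos (nat_lit 174145536) (nat_lit 215728128)) (I.mix (nat_lit 21102592) (nat_lit 34799616)) (I.mix (nat_lit 35586048) (nat_lit 35766272)) (I.pos (nat_lit 144834560) (nat_lit 206077952)) (I.mix (nat_lit 116080640) (nat_lit 95223808)) (I.mix (nat_lit 147079168) (nat_lit 104022016)) (I.mix (nat_lit 161644544) (nat_lit 108511232)))
  false (nat_lit 2704360)
def t0 : BTr := (BTr.n (BTr.n (BTr.n (BTr.b b0_0) (BTr.n (BTr.b b0_1) (BTr.b b0_2))) (BTr.n (BTr.n (BTr.b b0_3) (BTr.b b0_4)) (BTr.n (BTr.b b0_5) (BTr.b b0_6)))) (BTr.n (BTr.n (BTr.b b0_7) (BTr.n (BTr.b b0_8) (BTr.b b0_9))) (BTr.n (BTr.n (BTr.b b0_10) (BTr.b b0_11)) (BTr.n (BTr.b b0_12) (BTr.b b0_13)))))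
namespace T0
def l0 : Tr := Tr.L (Pth.l (Pth.l (Pth.l Pth.z)))
def l1 : Tr := Tr.L (Pth.l (Pth.l (Pth.r (Pth.l Pth.z))))
def l2 : Tr := Tr.L (Pth.l (Pth.l (Pth.r (Pth.r Pth.z))))
def l3 : Tr := Tr.L (Pth.l (Pth.r (Pth.l (Pth.l Pth.z))))
def l4 : Tr := Tr.L (Pth.l (Pth.r (Pth.l (Pth.r Pth.z))))
def l5 : Tr := Tr.L (Pth.l (Pth.r (Pth.r (Pth.l Pth.z))))
def l6 : Tr := Tr.L (Pth.l (Pth.r (Pth.r (Pth.r Pth.z))))
def l7 : Tr := Tr.L (Pth.r (Pth.l (Pth.l Pth.z)))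
def l8 : Tr := Tr.L (Pth.r (Pth.l (Pth.r (Pth.l Pth.z))))
def l9 : Tr := Tr.L (Pth.r (Pth.l (Pth.r (Pth.r Pth.z))))
def l10 : Tr := Tr.L (Pth.r (Pth.r (Pth.l (Pth.l Pth.z))))
def l11 : Tr := Tr.L (Pth.r (Pth.r (Pth.l (Pth.r Pth.z))))
def l12 : Tr := Tr.L (Pth.r (Pth.r (Pth.r (Pth.l Pth.z))))
def l13 : Tr := Tr.L (Pth.r (Pth.r (Pth.r (Pth.r Pth.z))))
end T0
def b1_0 : Bx := Bx.mk (St.mk (I.pos (nat_lit 135282688) (nat_lit 220135424)) (I.mix (nat_lit 3145728) (nat_lit 103825408)) (I.mix (nat_lit 3440640) (nat_lit 112099328)) (I.pos (nat_lit 363839488) (nat_lit 452624384)) (I.mix (nat_lit 158056448) (nat_lit 105971712)) (I.mix (nat_lit 113606656) (nat_lit 97124352)) (I.mix (nat_lit 136609792) (nat_lit 124387328)))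
  false (nat_lit 165228260)
def b1_1 : Bx := Bx.mk (St.mk (I.pos (nat_lit 21250048) (nat_lit 124583936)) (I.neg (nat_lit 1507328) (nat_lit 97894400)) (I.mix (nat_lit 80805888) (nat_lit 8732672)) (I.pos (nat_lit 262324224) (nat_lit 334462976)) (I.mix (nat_lit 123748352) (nat_lit 83722240)) (I.mix (nat_lit 82804736) (nat_lit 104775680)) (I.mix (nat_lit 79822848) (nat_lit 85016576)))
  false (nat_lit 77967910)
def b1_2 : Bx := Bx.mk (St.mk (I.mix (nat_lit 59359232) (nat_lit 14565376)) (I.mix (nat_lit 15204352) (nat_lit 90669056)) (I.neg (nat_lit 36765696) (nat_lit 64028672)) (I.pos (nat_lit 262864896) (nat_lit 290668544)) (I.mix (nat_lit 53297152) (nat_lit 105299968)) (I.mix (nat_lit 101515264) (nat_lit 62537728)) (I.mix (nat_lit 34521088) (nat_lit 28884992)))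
  true (nat_lit 0)
def b1_3 : Bx := Bx.mk (St.mk (I.pos (nat_lit 94470144) (nat_lit 189251584)) (I.mix (nat_lit 45088768) (nat_lit 94502912)) (I.mix (nat_lit 36356096) (nat_lit 110411776)) (I.pos (nat_lit 300793856) (nat_lit 416727040)) (I.mix (nat_lit 166707200) (nat_lit 90341376)) (I.mix (nat_lit 175194112) (nat_lit 114556928)) (I.mix (nat_lit 166641664) (nat_lit 134905856)))
  false (nat_lit 86378791)
def b1_4 : Bx := Bx.mk (St.mk (I.pos (nat_lit 16171008) (nat_lit 55312384)) (I.neg (nat_lit 31391744) (nat_lit 86720512)) (I.neg (nat_lit 39780352) (nat_lit 63700992)) (I.pos (nat_lit 267485184) (nat_lit 288882688)) (I.mix (nat_lit 104235008) (nat_lit 40075264)) (I.mix (nat_lit 60817408) (nat_lit 84393984)) (I.mix (nat_lit 34521088) (nat_lit 24690688)))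
  false (nat_lit 10644162)
def b1_5 : Bx := Bx.mk (St.mk (I.neg (nat_lit 21250048) (nat_lit 124583936)) (I.pos (nat_lit 1507328) (nat_lit 97894400)) (I.mix (nat_lit 80805888) (nat_lit 8749056)) (I.pos (nat_lit 262324224) (nat_lit 334462976)) (I.mix (nat_lit 83738624) (nat_lit 123699200)) (I.mix (nat_lit 104775680) (nat_lit 82870272)) (I.mix (nat_lit 79773696) (nat_lit 85016576)))
  true (nat_lit 10672327)
def b1_6 : Bx := Bx.mk (St.mk (I.pos (nat_lit 173129728) (nat_lit 289128448)) (I.mix (nat_lit 31604736) (nat_lit 69222400)) (I.mix (nat_lit 156860416) (nat_lit 52641792)) (I.pos (nat_lit 399196160) (nat_lit 574849024)) (I.mix (nat_lit 95830016) (nat_lit 75268096)) (I.mix (nat_lit 82608128) (nat_lit 68419584)) (I.mix (nat_lit 140247040) (nat_lit 133840896)))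
  false (nat_lit 149503061)
def b1_7 : Bx := Bx.mk (St.mk (I.mix (nat_lit 14188544) (nat_lit 46743552)) (I.mix (nat_lit 52019200) (nat_lit 14483456)) (I.neg (nat_lit 36749312) (nat_lit 53788672)) (I.pos (nat_lit 263110656) (nat_lit 279134208)) (I.mix (nat_lit 55001088) (nat_lit 45334528)) (I.mix (nat_lit 44466176) (nat_lit 47792128)) (I.mix (nat_lit 13451264) (nat_lit 16941056)))
  false (nat_lit 0)
def b1_8 : Bx := Bx.mk (St.mk (I.pos (nat_lit 151339008) (nat_lit 220004352)) (I.pos (nat_lit 18022400) (nat_lit 95846400)) (I.mix (nat_lit 11730944) (nat_lit 99565568)) (I.pos (nat_lit 385581056) (nat_lit 444776448)) (I.mix (nat_lit 149569536) (nat_lit 109658112)) (I.mix (nat_lit 134627328) (nat_lit 95502336)) (I.mix (nat_lit 182861824) (nat_lit 130531328)))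
  false (nat_lit 106673837)
def b1_9 : Bx := Bx.mk (St.mk (I.pos (nat_lit 20463616) (nat_lit 51740672)) (I.neg (nat_lit 22364160) (nat_lit 78987264)) (I.neg (nat_lit 37912576) (nat_lit 62308352)) (I.pos (nat_lit 267534336) (nat_lit 285392896)) (I.mix (nat_lit 105299968) (nat_lit 53297152)) (I.mix (nat_lit 62537728) (nat_lit 101531648)) (I.mix (nat_lit 30195712) (nat_lit 28884992)))
  false (nat_lit 6124216)
def t1 : BTr := (BTr.n (BTr.n (BTr.n (BTr.b b1_0) (BTr.b b1_1)) (BTr.n (BTr.b b1_2) (BTr.n (BTr.b b1_3) (BTr.b b1_4)))) (BTr.n (BTr.n (BTr.b b1_5) (BTr.b b1_6)) (BTr.n (BTr.b b1_7) (BTr.n (BTr.b b1_8) (BTr.b b1_9)))))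
namespace T1
def l0 : Tr := Tr.L (Pth.l (Pth.l (Pth.l Pth.z)))
def l1 : Tr := Tr.L (Pth.l (Pth.l (Pth.r Pth.z)))
def l2 : Tr := Tr.L (Pth.l (Pth.r (Pth.l Pth.z)))
def l3 : Tr := Tr.L (Pth.l (Pth.r (Pth.r (Pth.l Pth.z))))
def l4 : Tr := Tr.L (Pth.l (Pth.r (Pth.r (Pth.r Pth.z))))
def l5 : Tr := Tr.L (Pth.r (Pth.l (Pth.l Pth.z)))
def l6 : Tr := Tr.L (Pth.r (Pth.l (Pth.r Pth.z)))
def l7 : Tr := Tr.L (Pth.r (Pth.r (Pth.l Pth.z)))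
def l8 : Tr := Tr.L (Pth.r (Pth.r (Pth.r (Pth.l Pth.z))))
def l9 : Tr := Tr.L (Pth.r (Pth.r (Pth.r (Pth.r Pth.z))))
end T1
def b2_0 : Bx := Bx.mk (St.mk (I.pos (nat_lit 152305664) (nat_lit 236322816)) (I.mix (nat_lit 1654784) (nat_lit 48939008)) (I.mix (nat_lit 3637248) (nat_lit 117030912)) (I.pos (nat_lit 112279552) (nat_lit 228556800)) (I.mix (nat_lit 119521280) (nat_lit 77660160)) (I.mix (nat_lit 111853568) (nat_lit 90701824)) (I.mix (nat_lit 164675584) (nat_lit 118751232)))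
  false (nat_lit 19306325)
def b2_1 : Bx := Bx.mk (St.mk (I.pos (nat_lit 115720192) (nat_lit 176521216)) (I.neg (nat_lit 1900544) (nat_lit 60063744)) (I.mix (nat_lit 41222144) (nat_lit 24723456)) (I.pos (nat_lit 86769664) (nat_lit 147357696)) (I.mix (nat_lit 79069184) (nat_lit 60653568)) (I.mix (nat_lit 53788672) (nat_lit 74776576)) (I.mix (nat_lit 49463296) (nat_lit 73498624)))
  false (nat_lit 82981476)
def b2_2 : Bx := Bx.mk (St.mk (I.mix (nat_lit 17481728) (nat_lit 102252544)) (I.mix (nat_lit 29573120) (nat_lit 5111808)) (I.mix (nat_lit 8552448) (nat_lit 15859712)) (I.pos (nat_lit 15171584) (nat_lit 73580544)) (I.mix (nat_lit 28213248) (nat_lit 37453824)) (I.mix (nat_lit 26443776) (nat_lit 35160064)) (I.mix (nat_lit 14139392) (nat_lit 21397504)))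
  false (nat_lit 0)
def b2_3 : Bx := Bx.mk (St.mk (I.pos (nat_lit 165543936) (nat_lit 211648512)) (I.mix (nat_lit 17219584) (nat_lit 53133312)) (I.pos (nat_lit 17940480) (nat_lit 114704384)) (I.pos (nat_lit 119848960) (nat_lit 198541312)) (I.mix (nat_lit 142442496) (nat_lit 62488576)) (I.mix (nat_lit 152829952) (nat_lit 84082688)) (I.mix (nat_lit 184811520) (nat_lit 74760192)))
  false (nat_lit 42569874)
def b2_4 : Bx := Bx.mk (St.mk (I.mix (nat_lit 22380544) (nat_lit 123371520)) (I.mix (nat_lit 13647872) (nat_lit 35422208)) (I.mix (nat_lit 262144) (nat_lit 41205760)) (I.pos (nat_lit 15253504) (nat_lit 89997312)) (I.mix (nat_lit 61800448) (nat_lit 33128448)) (I.mix (nat_lit 59785216) (nat_lit 32587776)) (I.mix (nat_lit 40632320) (nat_lit 19939328)))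
  false (nat_lit 0)
def b2_5 : Bx := Bx.mk (St.mk (I.pos (nat_lit 159612928) (nat_lit 209174528)) (I.mix (nat_lit 42762240) (nat_lit 30408704)) (I.mix (nat_lit 13303808) (nat_lit 82968576)) (I.pos (nat_lit 115048448) (nat_lit 190136320)) (I.mix (nat_lit 135561216) (nat_lit 87506944)) (I.mix (nat_lit 156368896) (nat_lit 90521600)) (I.mix (nat_lit 180502528) (nat_lit 84344832)))
  false (nat_lit 70323004)
def b2_6 : Bx := Bx.mk (St.mk (I.pos (nat_lit 149291008) (nat_lit 179765248)) (I.neg (nat_lit 1900544) (nat_lit 36896768)) (I.mix (nat_lit 8945664) (nat_lit 30556160)) (I.pos (nat_lit 107462656) (nat_lit 153485312)) (I.mix (nat_lit 48168960) (nat_lit 40812544)) (I.mix (nat_lit 35078144) (nat_lit 43057152)) (I.mix (nat_lit 42450944) (nat_lit 39616512)))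
  false (nat_lit 17722074)
def b2_7 : Bx := Bx.mk (St.mk (I.mix (nat_lit 28229632) (nat_lit 103841792)) (I.mix (nat_lit 16629760) (nat_lit 6619136)) (I.mix (nat_lit 360448) (nat_lit 17465344)) (I.pos (nat_lit 15826944) (nat_lit 74825728)) (I.mix (nat_lit 22888448) (nat_lit 18169856)) (I.mix (nat_lit 17629184) (nat_lit 19349504)) (I.mix (nat_lit 11943936) (nat_lit 10534912)))
  false (nat_lit 0)
def b2_8 : Bx := Bx.mk (St.mk (I.pos (nat_lit 159891456) (nat_lit 185319424)) (I.neg (nat_lit 7159808) (nat_lit 35504128)) (I.mix (nat_lit 8519680) (nat_lit 26198016)) (I.pos (nat_lit 117686272) (nat_lit 163889152)) (I.mix (nat_lit 28688384) (nat_lit 28409856)) (I.mix (nat_lit 22790144) (nat_lit 22675456)) (I.mix (nat_lit 23265280) (nat_lit 23592960)))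
  false (nat_lit 0)
def b2_9 : Bx := Bx.mk (St.mk (I.mix (nat_lit 25493504) (nat_lit 133595136)) (I.mix (nat_lit 8077312) (nat_lit 26656768)) (I.pos (nat_lit 114688) (nat_lit 36290560)) (I.pos (nat_lit 13221888) (nat_lit 100368384)) (I.mix (nat_lit 48300032) (nat_lit 38436864)) (I.mix (nat_lit 50905088) (nat_lit 35454976)) (I.mix (nat_lit 40796160) (nat_lit 24231936)))
  false (nat_lit 0)
def b2_10 : Bx := Bx.mk (St.mk (I.pos (nat_lit 107741184) (nat_lit 163250176)) (I.mix (nat_lit 61341696) (nat_lit 10240000)) (I.mix (nat_lit 38305792) (nat_lit 23625728)) (I.pos (nat_lit 63209472) (nat_lit 133070848)) (I.mix (nat_lit 82018304) (nat_lit 50462720)) (I.mix (nat_lit 51298304) (nat_lit 78577664)) (I.mix (nat_lit 38731776) (nat_lit 61800448)))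
  false (nat_lit 72600103)
def b2_11 : Bx := Bx.mk (St.mk (I.mix (nat_lit 22544384) (nat_lit 97665024)) (I.mix (nat_lit 27934720) (nat_lit 4653056)) (I.mix (nat_lit 6995968) (nat_lit 15351808)) (I.pos (nat_lit 16171008) (nat_lit 69681152)) (I.mix (nat_lit 31539200) (nat_lit 31457280)) (I.mix (nat_lit 26247168) (nat_lit 36601856)) (I.mix (nat_lit 12615680) (nat_lit 17530880)))
  false (nat_lit 0)
def b2_12 : Bx := Bx.mk (St.mk (I.pos (nat_lit 189956096) (nat_lit 282361856)) (I.mix (nat_lit 21282816) (nat_lit 40026112)) (I.mix (nat_lit 393216) (nat_lit 110264320)) (I.pos (nat_lit 172851200) (nat_lit 332152832)) (I.mix (nat_lit 89800704) (nat_lit 61718528)) (I.mix (nat_lit 73170944) (nat_lit 53592064)) (I.mix (nat_lit 118128640) (nat_lit 84410368)))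
  false (nat_lit 76343476)
def b2_13 : Bx := Bx.mk (St.mk (I.pos (nat_lit 178225152) (nat_lit 234848256)) (I.pos (nat_lit 4521984) (nat_lit 48922624)) (I.pos (nat_lit 36241408) (nat_lit 117604352)) (I.pos (nat_lit 163430400) (nat_lit 222298112)) (I.mix (nat_lit 123682816) (nat_lit 87736320)) (I.mix (nat_lit 126107648) (nat_lit 86114304)) (I.mix (nat_lit 188071936) (nat_lit 113229824)))
  false (nat_lit 30722760)
def t2 : BTr := (BTr.n (BTr.n (BTr.n (BTr.b b2_0) (BTr.n (BTr.b b2_1) (BTr.b b2_2))) (BTr.n (BTr.n (BTr.b b2_3) (BTr.b b2_4)) (BTr.n (BTr.b b2_5) (BTr.b b2_6)))) (BTr.n (BTr.n (BTr.b b2_7) (BTr.n (BTr.b b2_8) (BTr.b b2_9))) (BTr.n (BTr.n (BTr.b b2_10) (BTr.b b2_11)) (BTr.n (BTr.b b2_12) (BTr.b b2_13)))))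
namespace T2
def l0 : Tr := Tr.L (Pth.l (Pth.l (Pth.l Pth.z)))
def l1 : Tr := Tr.L (Pth.l (Pth.l (Pth.r (Pth.l Pth.z))))
def l2 : Tr := Tr.L (Pth.l (Pth.l (Pth.r (Pth.r Pth.z))))
def l3 : Tr := Tr.L (Pth.l (Pth.r (Pth.l (Pth.l Pth.z))))
def l4 : Tr := Tr.L (Pth.l (Pth.r (Pth.l (Pth.r Pth.z))))
def l5 : Tr := Tr.L (Pth.l (Pth.r (Pth.r (Pth.l Pth.z))))
def l6 : Tr := Tr.L (Pth.l (Pth.r (Pth.r (Pth.r Pth.z))))
def l7 : Tr := Tr.L (Pth.r (Pth.l (Pth.l Pth.z)))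
def l8 : Tr := Tr.L (Pth.r (Pth.l (Pth.r (Pth.l Pth.z))))
def l9 : Tr := Tr.L (Pth.r (Pth.l (Pth.r (Pth.r Pth.z))))
def l10 : Tr := Tr.L (Pth.r (Pth.r (Pth.l (Pth.l Pth.z))))
def l11 : Tr := Tr.L (Pth.r (Pth.r (Pth.l (Pth.r Pth.z))))
def l12 : Tr := Tr.L (Pth.r (Pth.r (Pth.r (Pth.l Pth.z))))
def l13 : Tr := Tr.L (Pth.r (Pth.r (Pth.r (Pth.r Pth.z))))
end T2
theorem bx0_0 : BoxOK sI cl4 cl9 cl9 t1 t1 b0_0 :=
  box_mk (TrL.c (I.pos (nat_lit 0) (nat_lit 0)) (xa (xb T1.l0 T1.l0) (xb T1.l0 T1.l0))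
  (TrL.c (I.pos (nat_lit 0) (nat_lit 0)) T1.l1
  (TrL.c (I.pos (nat_lit 0) (nat_lit 0)) T1.l2
  (TrL.c (I.pos (nat_lit 0) (nat_lit 0)) (xa T1.l3 (xb T1.l3 T1.l3))
  (TrL.c (I.pos (nat_lit 0) (nat_lit 0)) T1.l4
  (TrL.c (I.pos (nat_lit 0) (nat_lit 0)) T1.l5
  TrL.n)))))) (by decide +kernel)
theorem bx0_1 : BoxOK sI cl4 cl9 cl9 t1 t1 b0_1 :=
  box_mk (TrL.c (I.pos (nat_lit 0) (nat_lit 0)) (xa T1.l6 (xa T1.l6 T1.l6))
  (TrL.c (I.pos (nat_lit 0) (nat_lit 0)) T1.l1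
  (TrL.c (I.pos (nat_lit 0) (nat_lit 0)) T1.l2
  (TrL.c (I.pos (nat_lit 0) (nat_lit 0)) T1.l3
  (TrL.c (I.pos (nat_lit 0) (nat_lit 0)) T1.l7
  (TrL.c (I.pos (nat_lit 0) (nat_lit 0)) T1.l5
  TrL.n)))))) (by decide +kernel)
theorem bx0_2 : BoxOK sI cl4 cl9 cl9 t1 t1 b0_2 :=
  box_mk (TrL.c (I.pos (nat_lit 0) (nat_lit 0)) (xb T1.l6 T1.l6)
  (TrL.c (I.pos (nat_lit 0) (nat_lit 0)) T1.l1
  (TrL.c (I.pos (nat_lit 0) (nat_lit 0)) T1.l2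
  (TrL.c (I.pos (nat_lit 0) (nat_lit 0)) T1.l3
  (TrL.c (I.pos (nat_lit 0) (nat_lit 0)) T1.l7
  (TrL.c (I.pos (nat_lit 0) (nat_lit 0)) T1.l5
  TrL.n)))))) (by decide +kernel)
theorem bx0_3 : BoxOK sI cl4 cl9 cl9 t1 t1 b0_3 :=
  box_mk (TrL.c (I.pos (nat_lit 0) (nat_lit 0)) T1.l6
  (TrL.c (I.pos (nat_lit 0) (nat_lit 0)) T1.l1
  (TrL.c (I.pos (nat_lit 0) (nat_lit 0)) T1.l2
  (TrL.c (I.pos (nat_lit 0) (nat_lit 0)) T1.l3
  (TrL.c (I.pos (nat_lit 0) (nat_lit 0)) T1.l7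
  (TrL.c (I.pos (nat_lit 0) (nat_lit 0)) T1.l5
  TrL.n)))))) (by decide +kernel)
theorem bx0_4 : BoxOK sI cl4 cl9 cl9 t1 t1 b0_4 :=
  box_mk (TrL.c (I.pos (nat_lit 0) (nat_lit 0)) (xa (xb T1.l0 T1.l0) (xb T1.l0 T1.l0))
  (TrL.c (I.pos (nat_lit 0) (nat_lit 0)) T1.l1
  (TrL.c (I.pos (nat_lit 0) (nat_lit 0)) T1.l5
  (TrL.c (I.pos (nat_lit 0) (nat_lit 0)) (xb (xa T1.l3 (xb T1.l3 T1.l3)) (xa T1.l3 (xb T1.l3 T1.l3)))
  (TrL.c (I.pos (nat_lit 0) (nat_lit 0)) T1.l1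
  (TrL.c (I.pos (nat_lit 0) (nat_lit 0)) T1.l5
  TrL.n)))))) (by decide +kernel)
theorem bx0_5 : BoxOK sI cl4 cl9 cl9 t1 t1 b0_5 :=
  box_mk (TrL.c (I.pos (nat_lit 0) (nat_lit 0)) T1.l6
  (TrL.c (I.pos (nat_lit 0) (nat_lit 0)) T1.l1
  (TrL.c (I.pos (nat_lit 0) (nat_lit 0)) T1.l2
  (TrL.c (I.pos (nat_lit 0) (nat_lit 0)) T1.l3
  (TrL.c (I.pos (nat_lit 0) (nat_lit 0)) T1.l7
  (TrL.c (I.pos (nat_lit 0) (nat_lit 0)) T1.l5
  TrL.n)))))) (by decide +kernel)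
theorem bx0_6 : BoxOK sI cl4 cl9 cl9 t1 t1 b0_6 :=
  box_mk (TrL.c (I.pos (nat_lit 0) (nat_lit 0)) T1.l6
  (TrL.c (I.pos (nat_lit 0) (nat_lit 0)) T1.l1
  (TrL.c (I.pos (nat_lit 0) (nat_lit 0)) T1.l2
  (TrL.c (I.pos (nat_lit 0) (nat_lit 0)) T1.l3
  (TrL.c (I.pos (nat_lit 0) (nat_lit 0)) T1.l7
  (TrL.c (I.pos (nat_lit 0) (nat_lit 0)) T1.l5
  TrL.n)))))) (by decide +kernel)
theorem bx0_7 : BoxOK sI cl4 cl9 cl9 t1 t1 b0_7 :=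
  box_mk (TrL.c (I.pos (nat_lit 0) (nat_lit 0)) T1.l0
  (TrL.c (I.pos (nat_lit 0) (nat_lit 0)) T1.l1
  (TrL.c (I.pos (nat_lit 0) (nat_lit 0)) T1.l5
  (TrL.c (I.pos (nat_lit 0) (nat_lit 0)) T1.l0
  (TrL.c (I.pos (nat_lit 0) (nat_lit 0)) T1.l1
  (TrL.c (I.pos (nat_lit 0) (nat_lit 0)) T1.l5
  TrL.n)))))) (by decide +kernel)
theorem bx0_8 : BoxOK sI cl4 cl9 cl9 t1 t1 b0_8 :=
  box_mk (TrL.c (I.pos (nat_lit 0) (nat_lit 0)) (xa (xb T1.l6 T1.l6) (xb T1.l6 T1.l6))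
  (TrL.c (I.pos (nat_lit 0) (nat_lit 0)) T1.l1
  (TrL.c (I.pos (nat_lit 0) (nat_lit 0)) T1.l2
  (TrL.c (I.pos (nat_lit 0) (nat_lit 0)) T1.l3
  (TrL.c (I.pos (nat_lit 0) (nat_lit 0)) T1.l7
  (TrL.c (I.pos (nat_lit 0) (nat_lit 0)) T1.l5
  TrL.n)))))) (by decide +kernel)
theorem bx0_9 : BoxOK sI cl4 cl9 cl9 t1 t1 b0_9 :=
  box_mk (TrL.c (I.pos (nat_lit 0) (nat_lit 0)) (xa (xa (xb (xa T1.l6 T1.l6) T1.l6) T1.l6) T1.l6)
  (TrL.c (I.pos (nat_lit 0) (nat_lit 0)) T1.l1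
  (TrL.c (I.pos (nat_lit 0) (nat_lit 0)) T1.l2
  (TrL.c (I.pos (nat_lit 0) (nat_lit 0)) T1.l3
  (TrL.c (I.pos (nat_lit 0) (nat_lit 0)) T1.l7
  (TrL.c (I.pos (nat_lit 0) (nat_lit 0)) T1.l5
  TrL.n)))))) (by decide +kernel)
theorem bx0_10 : BoxOK sI cl4 cl9 cl9 t1 t1 b0_10 :=
  box_mk (TrL.c (I.pos (nat_lit 0) (nat_lit 0)) (xb T1.l8 (xa T1.l8 T1.l8))
  (TrL.c (I.pos (nat_lit 0) (nat_lit 0)) T1.l1
  (TrL.c (I.pos (nat_lit 0) (nat_lit 0)) T1.l2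
  (TrL.c (I.pos (nat_lit 0) (nat_lit 0)) (xb T1.l3 T1.l3)
  (TrL.c (I.pos (nat_lit 0) (nat_lit 0)) T1.l9
  (TrL.c (I.pos (nat_lit 0) (nat_lit 0)) T1.l5
  TrL.n)))))) (by decide +kernel)
theorem bx0_11 : BoxOK sI cl4 cl9 cl9 t1 t1 b0_11 :=
  box_mk (TrL.c (I.pos (nat_lit 0) (nat_lit 0)) (xa (xa (xb T1.l6 (xa T1.l6 T1.l6)) (xb T1.l6 T1.l6)) (xa T1.l6 (xb T1.l6 T1.l6)))
  (TrL.c (I.pos (nat_lit 0) (nat_lit 0)) T1.l1
  (TrL.c (I.pos (nat_lit 0) (nat_lit 0)) T1.l2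
  (TrL.c (I.pos (nat_lit 0) (nat_lit 0)) (xa T1.l3 T1.l3)
  (TrL.c (I.pos (nat_lit 0) (nat_lit 0)) T1.l7
  (TrL.c (I.pos (nat_lit 0) (nat_lit 0)) T1.l5
  TrL.n)))))) (by decide +kernel)
theorem bx0_12 : BoxOK sI cl4 cl9 cl9 t1 t1 b0_12 :=
  box_mk (TrL.c (I.pos (nat_lit 0) (nat_lit 0)) (xa T1.l8 T1.l0)
  (TrL.c (I.pos (nat_lit 0) (nat_lit 0)) T1.l1
  (TrL.c (I.pos (nat_lit 0) (nat_lit 0)) T1.l2
  (TrL.c (I.pos (nat_lit 0) (nat_lit 0)) T1.l3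
  (TrL.c (I.pos (nat_lit 0) (nat_lit 0)) T1.l1
  (TrL.c (I.pos (nat_lit 0) (nat_lit 0)) T1.l5
  TrL.n)))))) (by decide +kernel)
theorem bx0_13 : BoxOK sI cl4 cl9 cl9 t1 t1 b0_13 :=
  box_mk (TrL.c (I.pos (nat_lit 0) (nat_lit 0)) T1.l8
  (TrL.c (I.pos (nat_lit 0) (nat_lit 0)) T1.l1
  (TrL.c (I.pos (nat_lit 0) (nat_lit 0)) T1.l5
  (TrL.c (I.pos (nat_lit 0) (nat_lit 0)) T1.l3
  (TrL.c (I.pos (nat_lit 0) (nat_lit 0)) T1.l1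
  (TrL.c (I.pos (nat_lit 0) (nat_lit 0)) T1.l5
  TrL.n)))))) (by decide +kernel)
theorem sv0 : StarV sI cl4 cl9 cl9 t1 t1 t0 :=
  (bt_n (bt_n (bt_n (bt_b bx0_0) (bt_n (bt_b bx0_1) (bt_b bx0_2))) (bt_n (bt_n (bt_b bx0_3) (bt_b bx0_4)) (bt_n (bt_b bx0_5) (bt_b bx0_6)))) (bt_n (bt_n (bt_b bx0_7) (bt_n (bt_b bx0_8) (bt_b bx0_9))) (bt_n (bt_n (bt_b bx0_10) (bt_b bx0_11)) (bt_n (bt_b bx0_12) (bt_b bx0_13)))))
def S0 : StarD := StarD.mk cl4 cl9 cl9 1 1 t0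
theorem bx1_0 : BoxOK sI cl9 cl4 cl9 t0 t2 b1_0 :=
  box_mk (TrL.c (I.pos (nat_lit 0) (nat_lit 0)) (xa T0.l0 T0.l0)
  (TrL.c (I.pos (nat_lit 0) (nat_lit 0)) T2.l1
  (TrL.c (I.pos (nat_lit 0) (nat_lit 124588530)) (xR T0.l1 T0.l11)
  (TrL.c (I.pos (nat_lit 0) (nat_lit 96881482)) T2.l2
  (TrL.c (I.pos (nat_lit 0) (nat_lit 0)) (xb T2.l3 (xa T2.l5 (xk T2.l3 T2.l3)))
  (TrL.c (I.pos (nat_lit 0) (nat_lit 0)) T0.l2
  (TrL.c (I.mix (nat_lit 17240550) (nat_lit 96881482)) (xR T2.l4 T2.l4)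
  (TrL.c (I.mix (nat_lit 17240550) (nat_lit 71940500)) T0.l9
  TrL.n)))))))) (by decide +kernel)
theorem bx1_1 : BoxOK sI cl9 cl4 cl9 t0 t2 b1_1 :=
  box_mk (TrL.c (I.pos (nat_lit 0) (nat_lit 0)) (xa (xb T0.l4 T0.l4) T0.l4)
  (TrL.c (I.pos (nat_lit 0) (nat_lit 0)) T2.l1
  (TrL.c (I.pos (nat_lit 0) (nat_lit 124588530)) (xR T0.l1 T0.l1)
  (TrL.c (I.pos (nat_lit 0) (nat_lit 96881482)) T2.l2
  (TrL.c (I.pos (nat_lit 0) (nat_lit 0)) T2.l5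
  (TrL.c (I.pos (nat_lit 0) (nat_lit 0)) T0.l2
  (TrL.c (I.mix (nat_lit 17240550) (nat_lit 96881482)) T2.l4
  (TrL.c (I.mix (nat_lit 17240550) (nat_lit 71940500)) T0.l9
  TrL.n)))))))) (by decide +kernel)
theorem bx1_2 : BoxOK sI cl9 cl4 cl9 t0 t2 b1_2 :=
  box_mk (TrL.c (I.pos (nat_lit 0) (nat_lit 0)) T2.l6
  (TrL.c (I.pos (nat_lit 0) (nat_lit 0)) T0.l5
  (TrL.c (I.mix (nat_lit 17240550) (nat_lit 96881482)) (xR T2.l7 T2.l4)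
  (TrL.c (I.mix (nat_lit 17240550) (nat_lit 71940500)) T0.l9
  TrL.n)))) (by decide +kernel)
theorem bx1_3 : BoxOK sI cl9 cl4 cl9 t0 t2 b1_3 :=
  box_mk (TrL.c (I.pos (nat_lit 0) (nat_lit 0)) (xb (xa T0.l4 T0.l4) (xa T0.l4 T0.l4))
  (TrL.c (I.pos (nat_lit 0) (nat_lit 0)) T2.l1
  (TrL.c (I.pos (nat_lit 0) (nat_lit 124588530)) (xR T0.l1 T0.l11)
  (TrL.c (I.pos (nat_lit 0) (nat_lit 96881482)) T2.l2
  (TrL.c (I.pos (nat_lit 0) (nat_lit 0)) (xb (xb T2.l5 T2.l5) (xb (xa T2.l5 (xk T2.l3 (xs T2.l3 T2.l3))) (xa (xk T2.l3 (xs T2.l3 T2.l3)) (xk (xs (xb T2.l3 (xa T2.l0 T2.l0)) (xb (xa T2.l3 T2.l0) (xa T2.l3 T2.l0))) (xs (xb T2.l3 (xa T2.l3 T2.l0)) (xb (xa T2.l3 T2.l0) (xa (xs T2.l3 (xk T2.l0 T2.l0)) (xs T2.l0 T2.l0))))))))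
  (TrL.c (I.pos (nat_lit 0) (nat_lit 0)) T0.l2
  (TrL.c (I.mix (nat_lit 17240550) (nat_lit 96881482)) (xR T2.l4 T2.l4)
  (TrL.c (I.mix (nat_lit 17240550) (nat_lit 71940500)) T0.l9
  TrL.n)))))))) (by decide +kernel)
theorem bx1_4 : BoxOK sI cl9 cl4 cl9 t0 t2 b1_4 :=
  box_mk (TrL.c (I.pos (nat_lit 0) (nat_lit 0)) T0.l4
  (TrL.c (I.pos (nat_lit 0) (nat_lit 0)) T2.l1
  (TrL.c (I.pos (nat_lit 0) (nat_lit 124588530)) T0.l1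
  (TrL.c (I.pos (nat_lit 0) (nat_lit 96881482)) T2.l2
  (TrL.c (I.pos (nat_lit 0) (nat_lit 0)) T2.l5
  (TrL.c (I.pos (nat_lit 0) (nat_lit 0)) T0.l2
  (TrL.c (I.mix (nat_lit 17240550) (nat_lit 96881482)) T2.l4
  (TrL.c (I.mix (nat_lit 17240550) (nat_lit 71940500)) T0.l1
  TrL.n)))))))) (by decide +kernel)
theorem bx1_5 : BoxOK sI cl9 cl4 cl9 t0 t2 b1_5 :=
  box_mk (TrL.c (I.pos (nat_lit 0) (nat_lit 0)) T2.l1
  (TrL.c (I.pos (nat_lit 0) (nat_lit 0)) T0.l1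
  (TrL.c (I.mix (nat_lit 17240550) (nat_lit 96881482)) (xR T2.l7 T2.l2)
  (TrL.c (I.mix (nat_lit 17240550) (nat_lit 71940500)) T0.l6
  TrL.n)))) (by decide +kernel)
theorem bx1_6 : BoxOK sI cl9 cl4 cl9 t0 t2 b1_6 :=
  box_mk (TrL.c (I.pos (nat_lit 0) (nat_lit 0)) (xa T0.l0 T0.l0)
  (TrL.c (I.pos (nat_lit 0) (nat_lit 0)) T2.l1
  (TrL.c (I.pos (nat_lit 0) (nat_lit 124588530)) (xR T0.l1 T0.l11)
  (TrL.c (I.pos (nat_lit 0) (nat_lit 96881482)) (xR T2.l2 T2.l2)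
  (TrL.c (I.pos (nat_lit 0) (nat_lit 0)) (xa (xb T2.l3 T2.l3) (xb (xk (xa T2.l3 T2.l3) (xa T2.l3 T2.l3)) (xk (xa T2.l3 T2.l3) (xa T2.l3 T2.l3))))
  (TrL.c (I.pos (nat_lit 0) (nat_lit 0)) T0.l2
  (TrL.c (I.mix (nat_lit 17240550) (nat_lit 96881482)) (xR T2.l4 T2.l4)
  (TrL.c (I.mix (nat_lit 17240550) (nat_lit 71940500)) T0.l9
  TrL.n)))))))) (by decide +kernel)
theorem bx1_7 : BoxOK sI cl9 cl4 cl9 t0 t2 b1_7 :=
  box_mk (TrL.c (I.pos (nat_lit 0) (nat_lit 0)) (xb T0.l7 T0.l7)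
  (TrL.c (I.pos (nat_lit 0) (nat_lit 0)) T2.l6
  (TrL.c (I.pos (nat_lit 0) (nat_lit 124588530)) T0.l1
  (TrL.c (I.pos (nat_lit 0) (nat_lit 96881482)) T2.l2
  (TrL.c (I.pos (nat_lit 0) (nat_lit 0)) T2.l5
  (TrL.c (I.pos (nat_lit 0) (nat_lit 0)) T0.l2
  (TrL.c (I.mix (nat_lit 17240550) (nat_lit 96881482)) T2.l4
  (TrL.c (I.mix (nat_lit 17240550) (nat_lit 71940500)) T0.l9
  TrL.n)))))))) (by decide +kernel)
theorem bx1_8 : BoxOK sI cl9 cl4 cl9 t0 t2 b1_8 :=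
  box_mk (TrL.c (I.pos (nat_lit 0) (nat_lit 0)) T0.l0
  (TrL.c (I.pos (nat_lit 0) (nat_lit 0)) T2.l1
  (TrL.c (I.pos (nat_lit 0) (nat_lit 124588530)) (xR T0.l1 T0.l1)
  (TrL.c (I.pos (nat_lit 0) (nat_lit 96881482)) T2.l2
  (TrL.c (I.pos (nat_lit 0) (nat_lit 0)) (xk (xb T2.l3 (xa T2.l3 (xs T2.l3 (xb T2.l0 (xk T2.l0 T2.l0))))) (xb T2.l3 (xa (xs T2.l3 T2.l3) (xs (xb T2.l0 T2.l3) (xb T2.l0 T2.l0)))))
  (TrL.c (I.pos (nat_lit 0) (nat_lit 0)) T0.l2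
  (TrL.c (I.mix (nat_lit 17240550) (nat_lit 96881482)) (xR T2.l4 T2.l4)
  (TrL.c (I.mix (nat_lit 17240550) (nat_lit 71940500)) T0.l9
  TrL.n)))))))) (by decide +kernel)
theorem bx1_9 : BoxOK sI cl9 cl4 cl9 t0 t2 b1_9 :=
  box_mk (TrL.c (I.pos (nat_lit 0) (nat_lit 0)) T0.l4
  (TrL.c (I.pos (nat_lit 0) (nat_lit 0)) T2.l1
  (TrL.c (I.pos (nat_lit 0) (nat_lit 124588530)) T0.l1
  (TrL.c (I.pos (nat_lit 0) (nat_lit 96881482)) T2.l2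
  (TrL.c (I.pos (nat_lit 0) (nat_lit 0)) T2.l5
  (TrL.c (I.pos (nat_lit 0) (nat_lit 0)) T0.l2
  (TrL.c (I.mix (nat_lit 17240550) (nat_lit 96881482)) T2.l4
  (TrL.c (I.mix (nat_lit 17240550) (nat_lit 71940500)) T0.l1
  TrL.n)))))))) (by decide +kernel)
theorem sv1 : StarV sI cl9 cl4 cl9 t0 t2 t1 :=
  (bt_n (bt_n (bt_n (bt_b bx1_0) (bt_b bx1_1)) (bt_n (bt_b bx1_2) (bt_n (bt_b bx1_3) (bt_b bx1_4)))) (bt_n (bt_n (bt_b bx1_5) (bt_b bx1_6)) (bt_n (bt_b bx1_7) (bt_n (bt_b bx1_8) (bt_b bx1_9)))))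
def S1 : StarD := StarD.mk cl9 cl4 cl9 0 2 t1
theorem bx2_0 : BoxOK sI cl9 cl9 cl4 t2 t0 b2_0 :=
  box_mk (TrL.c (I.pos (nat_lit 0) (nat_lit 0)) (xa (xa (xb (xb T2.l0 T2.l0) (xs T2.l0 T2.l0)) (xb (xb T2.l0 T2.l0) (xs T2.l0 T2.l0))) (xa (xb (xb T2.l0 T2.l0) (xs T2.l0 (xb T2.l0 T2.l0))) (xb (xs T2.l0 (xb T2.l0 T2.l0)) (xs T2.l0 (xb T2.l0 T2.l0)))))
  (TrL.c (I.pos (nat_lit 0) (nat_lit 0)) T0.l8
  (TrL.c (I.pos (nat_lit 0) (nat_lit 124588530)) (xR T2.l9 T2.l9)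
  (TrL.c (I.pos (nat_lit 0) (nat_lit 96881482)) (xR T0.l9 T0.l9)
  (TrL.c (I.pos (nat_lit 0) (nat_lit 0)) (xa (xb T0.l10 T0.l10) (xb T0.l10 (xk (xa T0.l10 (xb T0.l10 (xs T0.l10 T0.l10))) (xa T0.l13 (xb T0.l10 (xs T0.l10 (xk T0.l10 (xa T0.l10 T0.l10))))))))
  (TrL.c (I.pos (nat_lit 0) (nat_lit 0)) T2.l10
  (TrL.c (I.mix (nat_lit 17240550) (nat_lit 96881482)) (xR T0.l11 T0.l11)
  (TrL.c (I.mix (nat_lit 17240550) (nat_lit 71940500)) T2.l11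
  TrL.n)))))))) (by decide +kernel)
theorem bx2_1 : BoxOK sI cl9 cl9 cl4 t2 t0 b2_1 :=
  box_mk (TrL.c (I.pos (nat_lit 0) (nat_lit 0)) (xa T2.l12 T2.l0)
  (TrL.c (I.pos (nat_lit 0) (nat_lit 0)) T0.l8
  (TrL.c (I.pos (nat_lit 0) (nat_lit 124588530)) (xR T2.l9 T2.l9)
  (TrL.c (I.pos (nat_lit 0) (nat_lit 96881482)) T0.l9
  (TrL.c (I.pos (nat_lit 0) (nat_lit 0)) T0.l12
  (TrL.c (I.pos (nat_lit 0) (nat_lit 0)) T2.l10
  (TrL.c (I.mix (nat_lit 17240550) (nat_lit 96881482)) (xR T0.l11 T0.l11)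
  (TrL.c (I.mix (nat_lit 17240550) (nat_lit 71940500)) T2.l11
  TrL.n)))))))) (by decide +kernel)
theorem bx2_2 : BoxOK sI cl9 cl9 cl4 t2 t0 b2_2 :=
  box_mk (TrL.c (I.pos (nat_lit 0) (nat_lit 0)) (xa (xa T2.l12 T2.l12) T2.l12)
  (TrL.c (I.pos (nat_lit 0) (nat_lit 0)) T0.l8
  (TrL.c (I.pos (nat_lit 0) (nat_lit 124588530)) T2.l9
  (TrL.c (I.pos (nat_lit 0) (nat_lit 96881482)) T0.l9
  (TrL.c (I.pos (nat_lit 0) (nat_lit 0)) T0.l12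
  (TrL.c (I.pos (nat_lit 0) (nat_lit 0)) T2.l10
  (TrL.c (I.mix (nat_lit 17240550) (nat_lit 96881482)) T0.l11
  (TrL.c (I.mix (nat_lit 17240550) (nat_lit 71940500)) T2.l11
  TrL.n)))))))) (by decide +kernel)
theorem bx2_3 : BoxOK sI cl9 cl9 cl4 t2 t0 b2_3 :=
  box_mk (TrL.c (I.pos (nat_lit 0) (nat_lit 0)) (xb (xa T2.l0 (xb T2.l0 T2.l0)) (xa T2.l13 (xb T2.l0 T2.l13)))
  (TrL.c (I.pos (nat_lit 0) (nat_lit 0)) T0.l8
  (TrL.c (I.pos (nat_lit 0) (nat_lit 124588530)) (xR T2.l9 T2.l9)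
  (TrL.c (I.pos (nat_lit 0) (nat_lit 96881482)) T0.l9
  (TrL.c (I.pos (nat_lit 0) (nat_lit 0)) (xk (xb T0.l10 T0.l10) (xb T0.l13 (xb T0.l10 T0.l10)))
  (TrL.c (I.pos (nat_lit 0) (nat_lit 0)) T2.l10
  (TrL.c (I.mix (nat_lit 17240550) (nat_lit 96881482)) (xR T0.l11 T0.l11)
  (TrL.c (I.mix (nat_lit 17240550) (nat_lit 71940500)) T2.l11
  TrL.n)))))))) (by decide +kernel)
theorem bx2_4 : BoxOK sI cl9 cl9 cl4 t2 t0 b2_4 :=
  box_mk (TrL.c (I.pos (nat_lit 0) (nat_lit 0)) (xa (xa (xb T2.l12 (xa T2.l12 T2.l12)) (xb T2.l12 T2.l12)) (xa (xb T2.l12 T2.l12) (xb T2.l12 T2.l12)))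
  (TrL.c (I.pos (nat_lit 0) (nat_lit 0)) T0.l8
  (TrL.c (I.pos (nat_lit 0) (nat_lit 124588530)) T2.l9
  (TrL.c (I.pos (nat_lit 0) (nat_lit 96881482)) T0.l9
  (TrL.c (I.pos (nat_lit 0) (nat_lit 0)) (xa T0.l12 T0.l12)
  (TrL.c (I.pos (nat_lit 0) (nat_lit 0)) T2.l10
  (TrL.c (I.mix (nat_lit 17240550) (nat_lit 96881482)) (xR T0.l11 T0.l11)
  (TrL.c (I.mix (nat_lit 17240550) (nat_lit 71940500)) T2.l11
  TrL.n)))))))) (by decide +kernel)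
theorem bx2_5 : BoxOK sI cl9 cl9 cl4 t2 t0 b2_5 :=
  box_mk (TrL.c (I.pos (nat_lit 0) (nat_lit 0)) (xb (xa (xb T2.l0 T2.l0) (xb (xs T2.l0 T2.l0) T2.l0)) (xa (xb T2.l0 T2.l0) T2.l0))
  (TrL.c (I.pos (nat_lit 0) (nat_lit 0)) T0.l8
  (TrL.c (I.pos (nat_lit 0) (nat_lit 124588530)) (xR T2.l9 T2.l9)
  (TrL.c (I.pos (nat_lit 0) (nat_lit 96881482)) T0.l9
  (TrL.c (I.pos (nat_lit 0) (nat_lit 0)) (xk T0.l13 T0.l13)
  (TrL.c (I.pos (nat_lit 0) (nat_lit 0)) T2.l10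
  (TrL.c (I.mix (nat_lit 17240550) (nat_lit 96881482)) (xR T0.l11 T0.l11)
  (TrL.c (I.mix (nat_lit 17240550) (nat_lit 71940500)) T2.l11
  TrL.n)))))))) (by decide +kernel)
theorem bx2_6 : BoxOK sI cl9 cl9 cl4 t2 t0 b2_6 :=
  box_mk (TrL.c (I.pos (nat_lit 0) (nat_lit 0)) T2.l12
  (TrL.c (I.pos (nat_lit 0) (nat_lit 0)) T0.l8
  (TrL.c (I.pos (nat_lit 0) (nat_lit 124588530)) (xR T2.l9 T2.l9)
  (TrL.c (I.pos (nat_lit 0) (nat_lit 96881482)) T0.l9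
  (TrL.c (I.pos (nat_lit 0) (nat_lit 0)) T0.l12
  (TrL.c (I.pos (nat_lit 0) (nat_lit 0)) T2.l10
  (TrL.c (I.mix (nat_lit 17240550) (nat_lit 96881482)) (xR T0.l11 T0.l11)
  (TrL.c (I.mix (nat_lit 17240550) (nat_lit 71940500)) T2.l11
  TrL.n)))))))) (by decide +kernel)
theorem bx2_7 : BoxOK sI cl9 cl9 cl4 t2 t0 b2_7 :=
  box_mk (TrL.c (I.pos (nat_lit 0) (nat_lit 0)) (xa T2.l12 T2.l12)
  (TrL.c (I.pos (nat_lit 0) (nat_lit 0)) T0.l8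
  (TrL.c (I.pos (nat_lit 0) (nat_lit 124588530)) T2.l9
  (TrL.c (I.pos (nat_lit 0) (nat_lit 96881482)) T0.l9
  (TrL.c (I.pos (nat_lit 0) (nat_lit 0)) T0.l12
  (TrL.c (I.pos (nat_lit 0) (nat_lit 0)) T2.l10
  (TrL.c (I.mix (nat_lit 17240550) (nat_lit 96881482)) T0.l11
  (TrL.c (I.mix (nat_lit 17240550) (nat_lit 71940500)) T2.l11
  TrL.n)))))))) (by decide +kernel)
theorem bx2_8 : BoxOK sI cl9 cl9 cl4 t2 t0 b2_8 :=
  box_mk (TrL.c (I.pos (nat_lit 0) (nat_lit 0)) T2.l13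
  (TrL.c (I.pos (nat_lit 0) (nat_lit 0)) T0.l8
  (TrL.c (I.pos (nat_lit 0) (nat_lit 124588530)) (xR T2.l9 T2.l9)
  (TrL.c (I.pos (nat_lit 0) (nat_lit 96881482)) T0.l9
  (TrL.c (I.pos (nat_lit 0) (nat_lit 0)) T0.l13
  (TrL.c (I.pos (nat_lit 0) (nat_lit 0)) T2.l10
  (TrL.c (I.mix (nat_lit 17240550) (nat_lit 96881482)) (xR T0.l11 T0.l11)
  (TrL.c (I.mix (nat_lit 17240550) (nat_lit 71940500)) T2.l11
  TrL.n)))))))) (by decide +kernel)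
theorem bx2_9 : BoxOK sI cl9 cl9 cl4 t2 t0 b2_9 :=
  box_mk (TrL.c (I.pos (nat_lit 0) (nat_lit 0)) (xa (xa (xa T2.l12 T2.l12) T2.l12) (xa T2.l12 T2.l12))
  (TrL.c (I.pos (nat_lit 0) (nat_lit 0)) T0.l8
  (TrL.c (I.pos (nat_lit 0) (nat_lit 124588530)) T2.l9
  (TrL.c (I.pos (nat_lit 0) (nat_lit 96881482)) T0.l9
  (TrL.c (I.pos (nat_lit 0) (nat_lit 0)) (xa T0.l12 T0.l12)
  (TrL.c (I.pos (nat_lit 0) (nat_lit 0)) T2.l10
  (TrL.c (I.mix (nat_lit 17240550) (nat_lit 96881482)) (xR T0.l11 T0.l11)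
  (TrL.c (I.mix (nat_lit 17240550) (nat_lit 71940500)) T2.l11
  TrL.n)))))))) (by decide +kernel)
theorem bx2_10 : BoxOK sI cl9 cl9 cl4 t2 t0 b2_10 :=
  box_mk (TrL.c (I.pos (nat_lit 0) (nat_lit 0)) (xb T2.l12 T2.l12)
  (TrL.c (I.pos (nat_lit 0) (nat_lit 0)) T0.l8
  (TrL.c (I.pos (nat_lit 0) (nat_lit 124588530)) (xR T2.l9 T2.l9)
  (TrL.c (I.pos (nat_lit 0) (nat_lit 96881482)) T0.l9
  (TrL.c (I.pos (nat_lit 0) (nat_lit 0)) T0.l12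
  (TrL.c (I.pos (nat_lit 0) (nat_lit 0)) T2.l10
  (TrL.c (I.mix (nat_lit 17240550) (nat_lit 96881482)) (xR T0.l11 T0.l11)
  (TrL.c (I.mix (nat_lit 17240550) (nat_lit 71940500)) T2.l11
  TrL.n)))))))) (by decide +kernel)
theorem bx2_11 : BoxOK sI cl9 cl9 cl4 t2 t0 b2_11 :=
  box_mk (TrL.c (I.pos (nat_lit 0) (nat_lit 0)) (xa (xa T2.l12 T2.l12) T2.l12)
  (TrL.c (I.pos (nat_lit 0) (nat_lit 0)) T0.l8
  (TrL.c (I.pos (nat_lit 0) (nat_lit 124588530)) T2.l9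
  (TrL.c (I.pos (nat_lit 0) (nat_lit 96881482)) T0.l9
  (TrL.c (I.pos (nat_lit 0) (nat_lit 0)) T0.l12
  (TrL.c (I.pos (nat_lit 0) (nat_lit 0)) T2.l10
  (TrL.c (I.mix (nat_lit 17240550) (nat_lit 96881482)) T0.l11
  (TrL.c (I.mix (nat_lit 17240550) (nat_lit 71940500)) T2.l4
  TrL.n)))))))) (by decide +kernel)
theorem bx2_12 : BoxOK sI cl9 cl9 cl4 t2 t0 b2_12 :=
  box_mk (TrL.c (I.pos (nat_lit 0) (nat_lit 0)) (xa T2.l0 T2.l0)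
  (TrL.c (I.pos (nat_lit 0) (nat_lit 0)) T0.l8
  (TrL.c (I.pos (nat_lit 0) (nat_lit 124588530)) (xR T2.l9 T2.l4)
  (TrL.c (I.pos (nat_lit 0) (nat_lit 96881482)) (xR T0.l9 T0.l9)
  (TrL.c (I.pos (nat_lit 0) (nat_lit 0)) (xa T0.l10 (xk (xb T0.l10 T0.l10) (xb T0.l10 T0.l10)))
  (TrL.c (I.pos (nat_lit 0) (nat_lit 0)) T2.l10
  (TrL.c (I.mix (nat_lit 17240550) (nat_lit 96881482)) (xR T0.l11 T0.l11)
  (TrL.c (I.mix (nat_lit 17240550) (nat_lit 71940500)) T2.l11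
  TrL.n)))))))) (by decide +kernel)
theorem bx2_13 : BoxOK sI cl9 cl9 cl4 t2 t0 b2_13 :=
  box_mk (TrL.c (I.pos (nat_lit 0) (nat_lit 0)) (xa (xb (xs T2.l0 (xa T2.l0 T2.l0)) (xs T2.l0 (xa T2.l0 T2.l0))) (xb (xs T2.l0 (xa T2.l0 T2.l0)) (xs T2.l0 (xa T2.l0 T2.l0))))
  (TrL.c (I.pos (nat_lit 0) (nat_lit 0)) T0.l8
  (TrL.c (I.pos (nat_lit 0) (nat_lit 124588530)) (xR T2.l9 T2.l9)
  (TrL.c (I.pos (nat_lit 0) (nat_lit 96881482)) (xR T0.l9 T0.l9)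
  (TrL.c (I.pos (nat_lit 0) (nat_lit 0)) (xb T0.l10 (xa T0.l10 (xk T0.l10 (xs T0.l10 T0.l10))))
  (TrL.c (I.pos (nat_lit 0) (nat_lit 0)) T2.l10
  (TrL.c (I.mix (nat_lit 17240550) (nat_lit 96881482)) (xR T0.l11 T0.l11)
  (TrL.c (I.mix (nat_lit 17240550) (nat_lit 71940500)) T2.l11
  TrL.n)))))))) (by decide +kernel)
theorem sv2 : StarV sI cl9 cl9 cl4 t2 t0 t2 :=
  (bt_n (bt_n (bt_n (bt_b bx2_0) (bt_n (bt_b bx2_1) (bt_b bx2_2))) (bt_n (bt_n (bt_b bx2_3) (bt_b bx2_4)) (bt_n (bt_b bx2_5) (bt_b bx2_6)))) (bt_n (bt_n (bt_b bx2_7) (bt_n (bt_b bx2_8) (bt_b bx2_9))) (bt_n (bt_n (bt_b bx2_10) (bt_b bx2_11)) (bt_n (bt_b bx2_12) (bt_b bx2_13)))))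
def S2 : StarD := StarD.mk cl9 cl9 cl4 2 0 t2
def G : List StarD := [S0, S1, S2]
theorem so0 : StarOK sI G S0 :=
  star_mk (by decide) (by decide) rfl rfl rfl rfl rfl rfl (rfl : _ = t1) (rfl : _ = t1)
  (st_mk (Pth.l (Pth.l (Pth.l Pth.z))) (nat_lit 118117669) (nat_lit 137702211) (by decide +kernel))
  (st_mk (Pth.l (Pth.l (Pth.l Pth.z))) (nat_lit 155196707) (nat_lit 175538060) (by decide +kernel))
  (st_mk (Pth.l (Pth.l (Pth.l Pth.z))) (nat_lit 196900873) (nat_lit 222069372) (by decide +kernel)) sv0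
theorem so1 : StarOK sI G S1 :=
  star_mk (by decide) (by decide) rfl rfl rfl rfl rfl rfl (rfl : _ = t0) (rfl : _ = t2)
  (st_mk (Pth.l (Pth.l (Pth.l Pth.z))) (nat_lit 366869248) (nat_lit 369857714) (by decide +kernel))
  (st_mk (Pth.l (Pth.l (Pth.l Pth.z))) (nat_lit 402183295) (nat_lit 405671611) (by decide +kernel))
  (st_mk (Pth.l (Pth.l (Pth.l Pth.z))) (nat_lit 442441663) (nat_lit 447640763) (by decide +kernel)) sv1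
theorem so2 : StarOK sI G S2 :=
  star_mk (by decide) (by decide) rfl rfl rfl rfl rfl rfl (rfl : _ = t2) (rfl : _ = t0)
  (st_mk (Pth.l (Pth.l (Pth.l Pth.z))) (nat_lit 115481633) (nat_lit 134085536) (by decide +kernel))
  (st_mk (Pth.l (Pth.l (Pth.l Pth.z))) (nat_lit 150651052) (nat_lit 169619739) (by decide +kernel))
  (st_mk (Pth.l (Pth.l (Pth.l Pth.z))) (nat_lit 191321210) (nat_lit 210811892) (by decide +kernel)) sv2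
theorem ok : GroupOK (nat_lit 91226112) (nat_lit 150339584) G := grp_mk (allS_c so0 (allS_c so1 (allS_c so2 allS_n)))
theorem cov : GCov G cl4 cl9 cl9 := cov_mk
  ⟨0, by decide, rfl, rfl, rfl⟩ ⟨0, by decide, rfl, rfl, rfl⟩ ⟨1, by decide, rfl, rfl, rfl⟩ ⟨2, by decide, rfl, rfl, rfl⟩ ⟨1, by decide, rfl, rfl, rfl⟩ ⟨2, by decide, rfl, rfl, rfl⟩
end Q155_1

namespace Q155_2
def sI : I := I.pos (nat_lit 150274048) (nat_lit 209387520)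
def b0_0 : Bx := Bx.mk (St.mk (I.pos (nat_lit 160514048) (nat_lit 237355008)) (I.mix (nat_lit 278528) (nat_lit 58179584)) (I.mix (nat_lit 278528) (nat_lit 64274432)) (I.pos (nat_lit 118620160) (nat_lit 254951424)) (I.mix (nat_lit 99958784) (nat_lit 58081280)) (I.mix (nat_lit 63848448) (nat_lit 56639488)) (I.mix (nat_lit 90587136) (nat_lit 81362944)))
  false (nat_lit 5833279)
def b0_1 : Bx := Bx.mk (St.mk (I.mix (nat_lit 10534912) (nat_lit 124862464)) (I.mix (nat_lit 5455872) (nat_lit 26918912)) (I.mix (nat_lit 22249472) (nat_lit 7880704)) (I.pos (nat_lit 17334272) (nat_lit 94830592)) (I.mix (nat_lit 35340288) (nat_lit 45826048)) (I.mix (nat_lit 38174720) (nat_lit 27475968)) (I.mix (nat_lit 29507584) (nat_lit 19447808)))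
  false (nat_lit 0)
def b0_2 : Bx := Bx.mk (St.mk (I.pos (nat_lit 103497728) (nat_lit 141426688)) (I.mix (nat_lit 42876928) (nat_lit 7716864)) (I.neg (nat_lit 7110656) (nat_lit 57982976)) (I.pos (nat_lit 60948480) (nat_lit 108789760)) (I.mix (nat_lit 90882048) (nat_lit 42123264)) (I.mix (nat_lit 39108608) (nat_lit 87605248)) (I.mix (nat_lit 27705344) (nat_lit 75513856)))
  false (nat_lit 2970920)
def b0_3 : Bx := Bx.mk (St.mk (I.mix (nat_lit 17055744) (nat_lit 85393408)) (I.mix (nat_lit 23920640) (nat_lit 1327104)) (I.neg (nat_lit 1769472) (nat_lit 24707072)) (I.pos (nat_lit 17596416) (nat_lit 63356928)) (I.mix (nat_lit 40173568) (nat_lit 18661376)) (I.mix (nat_lit 17514496) (nat_lit 35717120)) (I.mix (nat_lit 8830976) (nat_lit 19382272)))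
  false (nat_lit 0)
def b0_4 : Bx := Bx.mk (St.mk (I.pos (nat_lit 193839104) (nat_lit 252133376)) (I.mix (nat_lit 13991936) (nat_lit 56934400)) (I.mix (nat_lit 72630272) (nat_lit 61472768)) (I.pos (nat_lit 195264512) (nat_lit 277348352)) (I.mix (nat_lit 101498880) (nat_lit 85475328)) (I.mix (nat_lit 87097344) (nat_lit 72515584)) (I.mix (nat_lit 146096128) (nat_lit 121389056)))
  false (nat_lit 19455097)
def b0_5 : Bx := Bx.mk (St.mk (I.pos (nat_lit 101646336) (nat_lit 124682240)) (I.mix (nat_lit 8306688) (nat_lit 7340032)) (I.neg (nat_lit 5849088) (nat_lit 24805376)) (I.pos (nat_lit 60047360) (nat_lit 94486528)) (I.mix (nat_lit 32817152) (nat_lit 21725184)) (I.mix (nat_lit 22233088) (nat_lit 21905408)) (I.mix (nat_lit 16744448) (nat_lit 20545536)))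
  false (nat_lit 0)
def b0_6 : Bx := Bx.mk (St.mk (I.mix (nat_lit 24035328) (nat_lit 28540928)) (I.mix (nat_lit 3457024) (nat_lit 5013504)) (I.neg (nat_lit 2277376) (nat_lit 8110080)) (I.pos (nat_lit 17907712) (nat_lit 39829504)) (I.mix (nat_lit 11829248) (nat_lit 8863744)) (I.mix (nat_lit 8781824) (nat_lit 8241152)) (I.mix (nat_lit 2260992) (nat_lit 2588672)))
  false (nat_lit 0)
def b0_7 : Bx := Bx.mk (St.mk (I.pos (nat_lit 214417408) (nat_lit 257277952)) (I.mix (nat_lit 14680064) (nat_lit 15548416)) (I.neg (nat_lit 16039936) (nat_lit 79790080)) (I.pos (nat_lit 213532672) (nat_lit 295354368)) (I.mix (nat_lit 92061696) (nat_lit 27787264)) (I.mix (nat_lit 55083008) (nat_lit 53690368)) (I.mix (nat_lit 81625088) (nat_lit 102432768)))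
  false (nat_lit 0)
def b0_8 : Bx := Bx.mk (St.mk (I.pos (nat_lit 107593728) (nat_lit 176570368)) (I.neg (nat_lit 2736128) (nat_lit 45563904)) (I.neg (nat_lit 14303232) (nat_lit 61145088)) (I.pos (nat_lit 73383936) (nat_lit 154238976)) (I.mix (nat_lit 75923456) (nat_lit 41353216)) (I.mix (nat_lit 41254912) (nat_lit 58802176)) (I.mix (nat_lit 34291712) (nat_lit 60375040)))
  false (nat_lit 6164295)
def b0_9 : Bx := Bx.mk (St.mk (I.mix (nat_lit 15761408) (nat_lit 99794944)) (I.mix (nat_lit 27705344) (nat_lit 4521984)) (I.neg (nat_lit 1589248) (nat_lit 27066368)) (I.pos (nat_lit 17022976) (nat_lit 73646080)) (I.mix (nat_lit 42778624) (nat_lit 29229056)) (I.mix (nat_lit 23904256) (nat_lit 34455552)) (I.mix (nat_lit 12861440) (nat_lit 21938176)))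
  false (nat_lit 5605031)
def b0_10 : Bx := Bx.mk (St.mk (I.pos (nat_lit 173735936) (nat_lit 218742784)) (I.mix (nat_lit 10027008) (nat_lit 50380800)) (I.mix (nat_lit 17760256) (nat_lit 58916864)) (I.pos (nat_lit 142950400) (nat_lit 222167040)) (I.mix (nat_lit 115458048) (nat_lit 52772864)) (I.mix (nat_lit 118030336) (nat_lit 70828032)) (I.mix (nat_lit 128991232) (nat_lit 77119488)))
  false (nat_lit 0)
def b0_11 : Bx := Bx.mk (St.mk (I.mix (nat_lit 19496960) (nat_lit 126320640)) (I.mix (nat_lit 13451264) (nat_lit 30146560)) (I.mix (nat_lit 20676608) (nat_lit 11616256)) (I.pos (nat_lit 17367040) (nat_lit 93077504)) (I.mix (nat_lit 48824320) (nat_lit 40402944)) (I.mix (nat_lit 46891008) (nat_lit 33587200)) (I.mix (nat_lit 28360704) (nat_lit 19873792)))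
  false (nat_lit 9937152)
def b0_12 : Bx := Bx.mk (St.mk (I.pos (nat_lit 148078592) (nat_lit 211255296)) (I.mix (nat_lit 36192256) (nat_lit 12615680)) (I.mix (nat_lit 57933824) (nat_lit 3670016)) (I.pos (nat_lit 107462656) (nat_lit 201179136)) (I.mix (nat_lit 62423040) (nat_lit 61423616)) (I.mix (nat_lit 61505536) (nat_lit 60489728)) (I.mix (nat_lit 66142208) (nat_lit 60719104)))
  false (nat_lit 25432621)
def b0_13 : Bx := Bx.mk (St.mk (I.pos (nat_lit 172244992) (nat_lit 212090880)) (I.mix (nat_lit 17776640) (nat_lit 28246016)) (I.mix (nat_lit 30982144) (nat_lit 27836416)) (I.pos (nat_lit 143654912) (nat_lit 204718080)) (I.mix (nat_lit 99876864) (nat_lit 77447168)) (I.mix (nat_lit 113885184) (nat_lit 75726848)) (I.mix (nat_lit 127483904) (nat_lit 77529088)))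
  false (nat_lit 6564971)
def t0 : BTr := (BTr.n (BTr.n (BTr.n (BTr.b b0_0) (BTr.n (BTr.b b0_1) (BTr.b b0_2))) (BTr.n (BTr.n (BTr.b b0_3) (BTr.b b0_4)) (BTr.n (BTr.b b0_5) (BTr.b b0_6)))) (BTr.n (BTr.n (BTr.b b0_7) (BTr.n (BTr.b b0_8) (BTr.b b0_9))) (BTr.n (BTr.n (BTr.b b0_10) (BTr.b b0_11)) (BTr.n (BTr.b b0_12) (BTr.b b0_13)))))
namespace T0
def l0 : Tr := Tr.L (Pth.l (Pth.l (Pth.l Pth.z)))
def l1 : Tr := Tr.L (Pth.l (Pth.l (Pth.r (Pth.l Pth.z))))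
def l2 : Tr := Tr.L (Pth.l (Pth.l (Pth.r (Pth.r Pth.z))))
def l3 : Tr := Tr.L (Pth.l (Pth.r (Pth.l (Pth.l Pth.z))))
def l4 : Tr := Tr.L (Pth.l (Pth.r (Pth.l (Pth.r Pth.z))))
def l5 : Tr := Tr.L (Pth.l (Pth.r (Pth.r (Pth.l Pth.z))))
def l6 : Tr := Tr.L (Pth.l (Pth.r (Pth.r (Pth.r Pth.z))))
def l7 : Tr := Tr.L (Pth.r (Pth.l (Pth.l Pth.z)))
def l8 : Tr := Tr.L (Pth.r (Pth.l (Pth.r (Pth.l Pth.z))))
def l9 : Tr := Tr.L (Pth.r (Pth.l (Pth.r (Pth.r Pth.z))))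
def l10 : Tr := Tr.L (Pth.r (Pth.r (Pth.l (Pth.l Pth.z))))
def l11 : Tr := Tr.L (Pth.r (Pth.r (Pth.l (Pth.r Pth.z))))
def l12 : Tr := Tr.L (Pth.r (Pth.r (Pth.r (Pth.l Pth.z))))
def l13 : Tr := Tr.L (Pth.r (Pth.r (Pth.r (Pth.r Pth.z))))
end T0
def b1_0 : Bx := Bx.mk (St.mk (I.pos (nat_lit 141262848) (nat_lit 215302144)) (I.mix (nat_lit 278528) (nat_lit 90652672)) (I.mix (nat_lit 278528) (nat_lit 99713024)) (I.pos (nat_lit 366657536) (nat_lit 454311936)) (I.mix (nat_lit 137281536) (nat_lit 81494016)) (I.mix (nat_lit 85508096) (nat_lit 75055104)) (I.mix (nat_lit 99008512) (nat_lit 105070592)))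
  false (nat_lit 161894869)
def b1_1 : Bx := Bx.mk (St.mk (I.pos (nat_lit 23265280) (nat_lit 122404864)) (I.neg (nat_lit 8224768) (nat_lit 88801280)) (I.mix (nat_lit 76038144) (nat_lit 4931584)) (I.pos (nat_lit 266321920) (nat_lit 329760768)) (I.mix (nat_lit 110116864) (nat_lit 66289664)) (I.mix (nat_lit 70795264) (nat_lit 76955648)) (I.mix (nat_lit 73826304) (nat_lit 64454656)))
  false (nat_lit 58490906)
def b1_2 : Bx := Bx.mk (St.mk (I.mix (nat_lit 56246272) (nat_lit 11763712)) (I.mix (nat_lit 10338304) (nat_lit 87097344)) (I.neg (nat_lit 37535744) (nat_lit 65421312)) (I.pos (nat_lit 261832704) (nat_lit 291782656)) (I.mix (nat_lit 53297152) (nat_lit 109887488)) (I.mix (nat_lit 84295680) (nat_lit 65536000)) (I.mix (nat_lit 42909696) (nat_lit 29868032)))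
  true (nat_lit 0)
def b1_3 : Bx := Bx.mk (St.mk (I.pos (nat_lit 95469568) (nat_lit 188186624)) (I.mix (nat_lit 36732928) (nat_lit 88326144)) (I.mix (nat_lit 28540928) (nat_lit 106561536)) (I.pos (nat_lit 303284224) (nat_lit 420954112)) (I.mix (nat_lit 171130880) (nat_lit 80232448)) (I.mix (nat_lit 138215424) (nat_lit 103399424)) (I.mix (nat_lit 138739712) (nat_lit 130449408)))
  false (nat_lit 110562830)
def b1_4 : Bx := Bx.mk (St.mk (I.pos (nat_lit 13926400) (nat_lit 55492608)) (I.neg (nat_lit 33996800) (nat_lit 87097344)) (I.neg (nat_lit 38223872) (nat_lit 65421312)) (I.pos (nat_lit 266633216) (nat_lit 292061184)) (I.mix (nat_lit 109887488) (nat_lit 37781504)) (I.mix (nat_lit 65536000) (nat_lit 77185024)) (I.mix (nat_lit 42909696) (nat_lit 32948224)))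
  false (nat_lit 11310531)
def b1_5 : Bx := Bx.mk (St.mk (I.neg (nat_lit 23248896) (nat_lit 122421248)) (I.pos (nat_lit 8224768) (nat_lit 88801280)) (I.mix (nat_lit 76054528) (nat_lit 4931584)) (I.pos (nat_lit 266321920) (nat_lit 329777152)) (I.mix (nat_lit 66289664) (nat_lit 110133248)) (I.mix (nat_lit 76972032) (nat_lit 70860800)) (I.mix (nat_lit 73826304) (nat_lit 64454656)))
  true (nat_lit 30597425)
def b1_6 : Bx := Bx.mk (St.mk (I.pos (nat_lit 172474368) (nat_lit 286932992)) (I.mix (nat_lit 23330816) (nat_lit 62128128)) (I.mix (nat_lit 137592832) (nat_lit 39895040)) (I.pos (nat_lit 401637376) (nat_lit 570048512)) (I.mix (nat_lit 87605248) (nat_lit 77479936)) (I.mix (nat_lit 70500352) (nat_lit 61325312)) (I.mix (nat_lit 120881152) (nat_lit 99319808)))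
  false (nat_lit 159550241)
def b1_7 : Bx := Bx.mk (St.mk (I.mix (nat_lit 11763712) (nat_lit 45318144)) (I.mix (nat_lit 48676864) (nat_lit 10338304)) (I.neg (nat_lit 37535744) (nat_lit 53264384)) (I.pos (nat_lit 261718016) (nat_lit 278953984)) (I.mix (nat_lit 58114048) (nat_lit 36700160)) (I.mix (nat_lit 38699008) (nat_lit 40042496)) (I.mix (nat_lit 11436032) (nat_lit 14450688)))
  false (nat_lit 0)
def b1_8 : Bx := Bx.mk (St.mk (I.pos (nat_lit 155697152) (nat_lit 211238912)) (I.pos (nat_lit 23871488) (nat_lit 87130112)) (I.mix (nat_lit 5341184) (nat_lit 88932352)) (I.pos (nat_lit 389611520) (nat_lit 443072512)) (I.mix (nat_lit 125763584) (nat_lit 89505792)) (I.mix (nat_lit 95895552) (nat_lit 69107712)) (I.mix (nat_lit 137592832) (nat_lit 96665600)))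
  false (nat_lit 131999041)
def b1_9 : Bx := Bx.mk (St.mk (I.pos (nat_lit 17367040) (nat_lit 47611904)) (I.neg (nat_lit 24969216) (nat_lit 73596928)) (I.neg (nat_lit 38486016) (nat_lit 62341120)) (I.pos (nat_lit 266747904) (nat_lit 285442048)) (I.mix (nat_lit 100106240) (nat_lit 53297152)) (I.mix (nat_lit 53231616) (nat_lit 84295680)) (I.mix (nat_lit 28229632) (nat_lit 26558464)))
  false (nat_lit 11855067)
def t1 : BTr := (BTr.n (BTr.n (BTr.n (BTr.b b1_0) (BTr.b b1_1)) (BTr.n (BTr.b b1_2) (BTr.n (BTr.b b1_3) (BTr.b b1_4)))) (BTr.n (BTr.n (BTr.b b1_5) (BTr.b b1_6)) (BTr.n (BTr.b b1_7) (BTr.n (BTr.b b1_8) (BTr.b b1_9)))))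
namespace T1
def l0 : Tr := Tr.L (Pth.l (Pth.l (Pth.l Pth.z)))
def l1 : Tr := Tr.L (Pth.l (Pth.l (Pth.r Pth.z)))
def l2 : Tr := Tr.L (Pth.l (Pth.r (Pth.l Pth.z)))
def l3 : Tr := Tr.L (Pth.l (Pth.r (Pth.r (Pth.l Pth.z))))
def l4 : Tr := Tr.L (Pth.l (Pth.r (Pth.r (Pth.r Pth.z))))
def l5 : Tr := Tr.L (Pth.r (Pth.l (Pth.l Pth.z)))
def l6 : Tr := Tr.L (Pth.r (Pth.l (Pth.r Pth.z)))
def l7 : Tr := Tr.L (Pth.r (Pth.r (Pth.l Pth.z)))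
def l8 : Tr := Tr.L (Pth.r (Pth.r (Pth.r (Pth.l Pth.z))))
def l9 : Tr := Tr.L (Pth.r (Pth.r (Pth.r (Pth.r Pth.z))))
end T1
def b2_0 : Bx := Bx.mk (St.mk (I.pos (nat_lit 156745728) (nat_lit 231849984)) (I.mix (nat_lit 278528) (nat_lit 45514752)) (I.mix (nat_lit 278528) (nat_lit 110723072)) (I.pos (nat_lit 115523584) (nat_lit 218759168)) (I.mix (nat_lit 123994112) (nat_lit 75300864)) (I.mix (nat_lit 104103936) (nat_lit 81985536)) (I.mix (nat_lit 145620992) (nat_lit 102268928)))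
  false (nat_lit 26786010)
def b2_1 : Bx := Bx.mk (St.mk (I.pos (nat_lit 120422400) (nat_lit 178028544)) (I.neg (nat_lit 5734400) (nat_lit 54968320)) (I.mix (nat_lit 35192832) (nat_lit 22560768)) (I.pos (nat_lit 89620480) (nat_lit 151666688)) (I.mix (nat_lit 63012864) (nat_lit 57802752)) (I.mix (nat_lit 46088192) (nat_lit 55820288)) (I.mix (nat_lit 43663360) (nat_lit 57131008)))
  false (nat_lit 107919458)
def b2_2 : Bx := Bx.mk (St.mk (I.mix (nat_lit 10190848) (nat_lit 98844672)) (I.mix (nat_lit 27361280) (nat_lit 1933312)) (I.mix (nat_lit 7274496) (nat_lit 13713408)) (I.pos (nat_lit 17416192) (nat_lit 71417856)) (I.mix (nat_lit 27230208) (nat_lit 36093952)) (I.mix (nat_lit 21184512) (nat_lit 28868608)) (I.mix (nat_lit 10551296) (nat_lit 17580032)))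
  false (nat_lit 3155448)
def b2_3 : Bx := Bx.mk (St.mk (I.pos (nat_lit 162725888) (nat_lit 207536128)) (I.mix (nat_lit 12812288) (nat_lit 43040768)) (I.pos (nat_lit 21250048) (nat_lit 100171776)) (I.pos (nat_lit 115802112) (nat_lit 187596800)) (I.mix (nat_lit 131792896) (nat_lit 43073536)) (I.mix (nat_lit 118161408) (nat_lit 61669376)) (I.mix (nat_lit 147963904) (nat_lit 52396032)))
  false (nat_lit 60873600)
def b2_4 : Bx := Bx.mk (St.mk (I.mix (nat_lit 18644992) (nat_lit 117915648)) (I.mix (nat_lit 11796480) (nat_lit 31129600)) (I.pos (nat_lit 1146880) (nat_lit 37994496)) (I.pos (nat_lit 17481728) (nat_lit 86556672)) (I.mix (nat_lit 60637184) (nat_lit 33243136)) (I.mix (nat_lit 56393728) (nat_lit 29343744)) (I.mix (nat_lit 37584896) (nat_lit 16662528)))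
  false (nat_lit 702662)
def b2_5 : Bx := Bx.mk (St.mk (I.pos (nat_lit 160366592) (nat_lit 203571200)) (I.mix (nat_lit 38404096) (nat_lit 22773760)) (I.mix (nat_lit 9699328) (nat_lit 71663616)) (I.pos (nat_lit 114589696) (nat_lit 184516608)) (I.mix (nat_lit 127188992) (nat_lit 74137600)) (I.mix (nat_lit 127713280) (nat_lit 71073792)) (I.mix (nat_lit 144965632) (nat_lit 63995904)))
  false (nat_lit 63161590)
def b2_6 : Bx := Bx.mk (St.mk (I.pos (nat_lit 146833408) (nat_lit 179322880)) (I.neg (nat_lit 2801664) (nat_lit 35848192)) (I.mix (nat_lit 7127040) (nat_lit 29147136)) (I.pos (nat_lit 106201088) (nat_lit 151797760)) (I.mix (nat_lit 55492608) (nat_lit 44859392)) (I.mix (nat_lit 33832960) (nat_lit 46235648)) (I.mix (nat_lit 39960576) (nat_lit 40779776)))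
  false (nat_lit 52236744)
def b2_7 : Bx := Bx.mk (St.mk (I.mix (nat_lit 23871488) (nat_lit 99844096)) (I.mix (nat_lit 15515648) (nat_lit 4292608)) (I.pos (nat_lit 688128) (nat_lit 15876096)) (I.pos (nat_lit 17825792) (nat_lit 72892416)) (I.mix (nat_lit 24035328) (nat_lit 19857408)) (I.mix (nat_lit 16171008) (nat_lit 18661376)) (I.mix (nat_lit 11337728) (nat_lit 10108928)))
  false (nat_lit 0)
def b2_8 : Bx := Bx.mk (St.mk (I.pos (nat_lit 159301632) (nat_lit 191201280)) (I.neg (nat_lit 8028160) (nat_lit 37322752)) (I.mix (nat_lit 10240000) (nat_lit 25362432)) (I.pos (nat_lit 118128640) (nat_lit 170115072)) (I.mix (nat_lit 46661632) (nat_lit 46940160)) (I.mix (nat_lit 47497216) (nat_lit 35110912)) (I.mix (nat_lit 47087616) (nat_lit 36601856)))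
  false (nat_lit 10392063)
def b2_9 : Bx := Bx.mk (St.mk (I.mix (nat_lit 15958016) (nat_lit 129597440)) (I.mix (nat_lit 7045120) (nat_lit 23199744)) (I.pos (nat_lit 1294336) (nat_lit 31604736)) (I.pos (nat_lit 17055744) (nat_lit 97828864)) (I.mix (nat_lit 44171264) (nat_lit 33669120)) (I.mix (nat_lit 40632320) (nat_lit 28180480)) (I.mix (nat_lit 31948800) (nat_lit 18726912)))
  false (nat_lit 0)
def b2_10 : Bx := Bx.mk (St.mk (I.pos (nat_lit 108363776) (nat_lit 155795456)) (I.mix (nat_lit 50987008) (nat_lit 8437760)) (I.mix (nat_lit 30556160) (nat_lit 22118400)) (I.pos (nat_lit 64585728) (nat_lit 123813888)) (I.mix (nat_lit 70844416) (nat_lit 50790400)) (I.mix (nat_lit 43237376) (nat_lit 66977792)) (I.mix (nat_lit 32030720) (nat_lit 51953664)))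
  false (nat_lit 66246172)
def b2_11 : Bx := Bx.mk (St.mk (I.pos (nat_lit 184270848) (nat_lit 281067520)) (I.mix (nat_lit 18972672) (nat_lit 34963456)) (I.pos (nat_lit 2310144) (nat_lit 99352576)) (I.pos (nat_lit 168574976) (nat_lit 330121216)) (I.mix (nat_lit 97468416) (nat_lit 62750720)) (I.mix (nat_lit 67174400) (nat_lit 48267264)) (I.mix (nat_lit 110034944) (nat_lit 79855616)))
  false (nat_lit 79446712)
def b2_12 : Bx := Bx.mk (St.mk (I.mix (nat_lit 19021824) (nat_lit 94175232)) (I.mix (nat_lit 27033600) (nat_lit 4407296)) (I.mix (nat_lit 6307840) (nat_lit 10567680)) (I.pos (nat_lit 17580032) (nat_lit 68222976)) (I.mix (nat_lit 30441472) (nat_lit 23134208)) (I.mix (nat_lit 19480576) (nat_lit 28000256)) (I.mix (nat_lit 9453568) (nat_lit 12615680)))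
  false (nat_lit 0)
def b2_13 : Bx := Bx.mk (St.mk (I.pos (nat_lit 177504256) (nat_lit 231178240)) (I.pos (nat_lit 6504448) (nat_lit 45137920)) (I.pos (nat_lit 39518208) (nat_lit 110510080)) (I.pos (nat_lit 159481856) (nat_lit 217284608)) (I.mix (nat_lit 108756992) (nat_lit 83722240)) (I.mix (nat_lit 101662720) (nat_lit 72728576)) (I.mix (nat_lit 153223168) (nat_lit 90963968)))
  false (nat_lit 50944535)
def t2 : BTr := (BTr.n (BTr.n (BTr.n (BTr.b b2_0) (BTr.n (BTr.b b2_1) (BTr.b b2_2))) (BTr.n (BTr.n (BTr.b b2_3) (BTr.b b2_4)) (BTr.n (BTr.b b2_5) (BTr.b b2_6)))) (BTr.n (BTr.n (BTr.b b2_7) (BTr.n (BTr.b b2_8) (BTr.b b2_9))) (BTr.n (BTr.n (BTr.b b2_10) (BTr.b b2_11)) (BTr.n (BTr.b b2_12) (BTr.b b2_13)))))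
namespace T2
def l0 : Tr := Tr.L (Pth.l (Pth.l (Pth.l Pth.z)))
def l1 : Tr := Tr.L (Pth.l (Pth.l (Pth.r (Pth.l Pth.z))))
def l2 : Tr := Tr.L (Pth.l (Pth.l (Pth.r (Pth.r Pth.z))))
def l3 : Tr := Tr.L (Pth.l (Pth.r (Pth.l (Pth.l Pth.z))))
def l4 : Tr := Tr.L (Pth.l (Pth.r (Pth.l (Pth.r Pth.z))))
def l5 : Tr := Tr.L (Pth.l (Pth.r (Pth.r (Pth.l Pth.z))))
def l6 : Tr := Tr.L (Pth.l (Pth.r (Pth.r (Pth.r Pth.z))))
def l7 : Tr := Tr.L (Pth.r (Pth.l (Pth.l Pth.z)))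
def l8 : Tr := Tr.L (Pth.r (Pth.l (Pth.r (Pth.l Pth.z))))
def l9 : Tr := Tr.L (Pth.r (Pth.l (Pth.r (Pth.r Pth.z))))
def l10 : Tr := Tr.L (Pth.r (Pth.r (Pth.l (Pth.l Pth.z))))
def l11 : Tr := Tr.L (Pth.r (Pth.r (Pth.l (Pth.r Pth.z))))
def l12 : Tr := Tr.L (Pth.r (Pth.r (Pth.r (Pth.l Pth.z))))
def l13 : Tr := Tr.L (Pth.r (Pth.r (Pth.r (Pth.r Pth.z))))
end T2
theorem bx0_0 : BoxOK sI cl4 cl9 cl9 t1 t1 b0_0 :=
  box_mk (TrL.c (I.pos (nat_lit 0) (nat_lit 0)) (xa (xb (xa (xb T1.l0 T1.l0) T1.l0) (xa (xb T1.l0 (xa T1.l0 T1.l0)) (xb T1.l0 (xa T1.l0 T1.l0)))) (xb (xa T1.l0 T1.l0) (xa (xb T1.l0 (xa T1.l0 T1.l0)) (xb T1.l0 (xa T1.l0 T1.l0)))))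
  (TrL.c (I.pos (nat_lit 0) (nat_lit 0)) (xa (xb T1.l1 T1.l1) (xb T1.l1 (xa T1.l1 T1.l1)))
  (TrL.c (I.pos (nat_lit 0) (nat_lit 0)) T1.l2
  (TrL.c (I.pos (nat_lit 0) (nat_lit 0)) (xa T1.l3 T1.l3)
  (TrL.c (I.pos (nat_lit 0) (nat_lit 0)) (xa (xb T1.l4 T1.l4) T1.l4)
  (TrL.c (I.pos (nat_lit 0) (nat_lit 0)) (xa (xb T1.l5 T1.l5) (xb T1.l5 (xa T1.l5 T1.l5)))
  TrL.n)))))) (by decide +kernel)
theorem bx0_1 : BoxOK sI cl4 cl9 cl9 t1 t1 b0_1 :=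
  box_mk (TrL.c (I.pos (nat_lit 0) (nat_lit 0)) (xa (xa T1.l6 T1.l6) (xa T1.l6 (xa T1.l6 T1.l6)))
  (TrL.c (I.pos (nat_lit 0) (nat_lit 0)) (xa T1.l1 T1.l1)
  (TrL.c (I.pos (nat_lit 0) (nat_lit 0)) T1.l2
  (TrL.c (I.pos (nat_lit 0) (nat_lit 0)) T1.l3
  (TrL.c (I.pos (nat_lit 0) (nat_lit 0)) T1.l7
  (TrL.c (I.pos (nat_lit 0) (nat_lit 0)) (xa T1.l5 T1.l5)
  TrL.n)))))) (by decide +kernel)
theorem bx0_2 : BoxOK sI cl4 cl9 cl9 t1 t1 b0_2 :=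
  box_mk (TrL.c (I.pos (nat_lit 0) (nat_lit 0)) (xb (xa T1.l6 T1.l6) (xa T1.l6 T1.l6))
  (TrL.c (I.pos (nat_lit 0) (nat_lit 0)) T1.l1
  (TrL.c (I.pos (nat_lit 0) (nat_lit 0)) T1.l2
  (TrL.c (I.pos (nat_lit 0) (nat_lit 0)) T1.l3
  (TrL.c (I.pos (nat_lit 0) (nat_lit 0)) T1.l7
  (TrL.c (I.pos (nat_lit 0) (nat_lit 0)) T1.l5
  TrL.n)))))) (by decide +kernel)
theorem bx0_3 : BoxOK sI cl4 cl9 cl9 t1 t1 b0_3 :=
  box_mk (TrL.c (I.pos (nat_lit 0) (nat_lit 0)) (xa (xa (xb T1.l6 T1.l6) T1.l6) T1.l6)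
  (TrL.c (I.pos (nat_lit 0) (nat_lit 0)) (xa T1.l1 T1.l1)
  (TrL.c (I.pos (nat_lit 0) (nat_lit 0)) T1.l2
  (TrL.c (I.pos (nat_lit 0) (nat_lit 0)) (xa T1.l3 T1.l3)
  (TrL.c (I.pos (nat_lit 0) (nat_lit 0)) T1.l7
  (TrL.c (I.pos (nat_lit 0) (nat_lit 0)) (xa T1.l5 T1.l5)
  TrL.n)))))) (by decide +kernel)
theorem bx0_4 : BoxOK sI cl4 cl9 cl9 t1 t1 b0_4 :=
  box_mk (TrL.c (I.pos (nat_lit 0) (nat_lit 0)) (xb (xa (xb (xa (xb T1.l8 T1.l8) (xb T1.l0 T1.l0)) (xa (xb T1.l8 T1.l8) (xb T1.l0 T1.l0))) (xb T1.l3 T1.l3)) (xa (xb (xa (xb (xa T1.l0 T1.l0) (xa T1.l0 T1.l0)) (xb (xa T1.l0 T1.l0) (xs T1.l0 (xa T1.l0 T1.l0)))) (xa (xb (xs T1.l0 (xa T1.l0 T1.l0)) (xs T1.l0 (xa (xc T1.l0 T1.l0) T1.l0))) (xs (xb T1.l0 T1.l0) (xb (xa T1.l0 T1.l0) (xa T1.l0 T1.l0))))) (xa (xb (xb T1.l3 T1.l3) (xs (xb T1.l0 T1.l0) (xb T1.l3 (xa T1.l0 T1.l3)))) (xb T1.l3 (xs (xa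 T1.l0 T1.l3) (xb T1.l3 (xa T1.l3 T1.l3)))))))
  (TrL.c (I.pos (nat_lit 0) (nat_lit 0)) (xa (xb T1.l1 (xb T1.l1 T1.l1)) (xb (xb T1.l1 T1.l1) (xa T1.l1 (xb T1.l1 T1.l1))))
  (TrL.c (I.pos (nat_lit 0) (nat_lit 0)) (xc (xa (xb T1.l2 T1.l2) T1.l5) (xa T1.l2 (xb T1.l2 T1.l2)))
  (TrL.c (I.pos (nat_lit 0) (nat_lit 0)) (xb (xa T1.l3 (xb (xa T1.l3 (xc T1.l3 T1.l3)) (xa T1.l3 (xc T1.l3 T1.l3)))) (xa T1.l3 (xb (xa T1.l3 (xc T1.l3 T1.l3)) (xa T1.l3 (xc T1.l3 T1.l3)))))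
  (TrL.c (I.pos (nat_lit 0) (nat_lit 0)) (xa (xb T1.l1 T1.l4) (xb T1.l1 (xc T1.l1 T1.l4)))
  (TrL.c (I.pos (nat_lit 0) (nat_lit 0)) (xa (xb T1.l5 (xb T1.l5 T1.l5)) (xb (xb T1.l5 T1.l5) (xa T1.l5 (xb T1.l5 T1.l5))))
  TrL.n)))))) (by decide +kernel)
theorem bx0_5 : BoxOK sI cl4 cl9 cl9 t1 t1 b0_5 :=
  box_mk (TrL.c (I.pos (nat_lit 0) (nat_lit 0)) T1.l6
  (TrL.c (I.pos (nat_lit 0) (nat_lit 0)) T1.l1
  (TrL.c (I.pos (nat_lit 0) (nat_lit 0)) T1.l2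
  (TrL.c (I.pos (nat_lit 0) (nat_lit 0)) T1.l3
  (TrL.c (I.pos (nat_lit 0) (nat_lit 0)) T1.l7
  (TrL.c (I.pos (nat_lit 0) (nat_lit 0)) T1.l5
  TrL.n)))))) (by decide +kernel)
theorem bx0_6 : BoxOK sI cl4 cl9 cl9 t1 t1 b0_6 :=
  box_mk (TrL.c (I.pos (nat_lit 0) (nat_lit 0)) T1.l6
  (TrL.c (I.pos (nat_lit 0) (nat_lit 0)) T1.l1
  (TrL.c (I.pos (nat_lit 0) (nat_lit 0)) T1.l2
  (TrL.c (I.pos (nat_lit 0) (nat_lit 0)) T1.l3
  (TrL.c (I.pos (nat_lit 0) (nat_lit 0)) T1.l7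
  (TrL.c (I.pos (nat_lit 0) (nat_lit 0)) T1.l5
  TrL.n)))))) (by decide +kernel)
theorem bx0_7 : BoxOK sI cl4 cl9 cl9 t1 t1 b0_7 :=
  box_mk (TrL.c (I.pos (nat_lit 0) (nat_lit 0)) (xa T1.l0 T1.l3)
  (TrL.c (I.pos (nat_lit 0) (nat_lit 0)) (xa T1.l1 T1.l1)
  (TrL.c (I.pos (nat_lit 0) (nat_lit 0)) T1.l5
  (TrL.c (I.pos (nat_lit 0) (nat_lit 0)) (xa T1.l3 (xb T1.l3 T1.l3))
  (TrL.c (I.pos (nat_lit 0) (nat_lit 0)) T1.l1
  (TrL.c (I.pos (nat_lit 0) (nat_lit 0)) (xa T1.l5 T1.l5)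
  TrL.n)))))) (by decide +kernel)
theorem bx0_8 : BoxOK sI cl4 cl9 cl9 t1 t1 b0_8 :=
  box_mk (TrL.c (I.pos (nat_lit 0) (nat_lit 0)) (xa (xb T1.l6 T1.l6) (xb (xa T1.l6 T1.l6) (xa T1.l6 T1.l6)))
  (TrL.c (I.pos (nat_lit 0) (nat_lit 0)) T1.l1
  (TrL.c (I.pos (nat_lit 0) (nat_lit 0)) T1.l2
  (TrL.c (I.pos (nat_lit 0) (nat_lit 0)) T1.l3
  (TrL.c (I.pos (nat_lit 0) (nat_lit 0)) (xa T1.l7 T1.l1)
  (TrL.c (I.pos (nat_lit 0) (nat_lit 0)) T1.l5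
  TrL.n)))))) (by decide +kernel)
theorem bx0_9 : BoxOK sI cl4 cl9 cl9 t1 t1 b0_9 :=
  box_mk (TrL.c (I.pos (nat_lit 0) (nat_lit 0)) (xa (xa (xb (xa T1.l6 T1.l6) T1.l6) T1.l6) T1.l6)
  (TrL.c (I.pos (nat_lit 0) (nat_lit 0)) (xa T1.l1 T1.l1)
  (TrL.c (I.pos (nat_lit 0) (nat_lit 0)) (xa T1.l2 T1.l2)
  (TrL.c (I.pos (nat_lit 0) (nat_lit 0)) (xa T1.l3 T1.l3)
  (TrL.c (I.pos (nat_lit 0) (nat_lit 0)) (xa T1.l7 T1.l7)
  (TrL.c (I.pos (nat_lit 0) (nat_lit 0)) (xa T1.l5 T1.l5)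
  TrL.n)))))) (by decide +kernel)
theorem bx0_10 : BoxOK sI cl4 cl9 cl9 t1 t1 b0_10 :=
  box_mk (TrL.c (I.pos (nat_lit 0) (nat_lit 0)) (xb (xa (xb T1.l8 T1.l8) (xb T1.l8 T1.l8)) (xa (xb (xa T1.l8 T1.l8) (xa T1.l8 T1.l8)) (xb (xa T1.l8 T1.l8) (xa T1.l8 T1.l8))))
  (TrL.c (I.pos (nat_lit 0) (nat_lit 0)) (xb (xa T1.l1 T1.l1) (xa T1.l1 T1.l1))
  (TrL.c (I.pos (nat_lit 0) (nat_lit 0)) (xb T1.l2 T1.l2)
  (TrL.c (I.pos (nat_lit 0) (nat_lit 0)) (xb T1.l3 (xa T1.l3 T1.l3))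
  (TrL.c (I.pos (nat_lit 0) (nat_lit 0)) (xb T1.l9 T1.l9)
  (TrL.c (I.pos (nat_lit 0) (nat_lit 0)) (xb (xa T1.l5 T1.l5) (xa T1.l5 T1.l5))
  TrL.n)))))) (by decide +kernel)
theorem bx0_11 : BoxOK sI cl4 cl9 cl9 t1 t1 b0_11 :=
  box_mk (TrL.c (I.pos (nat_lit 0) (nat_lit 0)) (xa (xa (xb (xa (xb T1.l6 T1.l6) T1.l6) (xa (xb T1.l6 (xa T1.l6 T1.l6)) T1.l6)) (xb T1.l6 T1.l6)) (xa T1.l6 (xb T1.l6 (xa T1.l6 T1.l6))))
  (TrL.c (I.pos (nat_lit 0) (nat_lit 0)) (xa (xa T1.l1 T1.l1) T1.l1)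
  (TrL.c (I.pos (nat_lit 0) (nat_lit 0)) (xa T1.l2 T1.l2)
  (TrL.c (I.pos (nat_lit 0) (nat_lit 0)) (xa T1.l3 T1.l3)
  (TrL.c (I.pos (nat_lit 0) (nat_lit 0)) (xa T1.l7 T1.l7)
  (TrL.c (I.pos (nat_lit 0) (nat_lit 0)) (xa (xa T1.l5 T1.l5) T1.l5)
  TrL.n)))))) (by decide +kernel)
theorem bx0_12 : BoxOK sI cl4 cl9 cl9 t1 t1 b0_12 :=
  box_mk (TrL.c (I.pos (nat_lit 0) (nat_lit 0)) (xa (xb (xa T1.l8 T1.l8) (xa T1.l0 T1.l8)) T1.l0)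
  (TrL.c (I.pos (nat_lit 0) (nat_lit 0)) T1.l1
  (TrL.c (I.pos (nat_lit 0) (nat_lit 0)) T1.l2
  (TrL.c (I.pos (nat_lit 0) (nat_lit 0)) T1.l3
  (TrL.c (I.pos (nat_lit 0) (nat_lit 0)) (xa T1.l9 T1.l1)
  (TrL.c (I.pos (nat_lit 0) (nat_lit 0)) T1.l5
  TrL.n)))))) (by decide +kernel)
theorem bx0_13 : BoxOK sI cl4 cl9 cl9 t1 t1 b0_13 :=
  box_mk (TrL.c (I.pos (nat_lit 0) (nat_lit 0)) (xb (xa T1.l8 T1.l8) (xa (xb T1.l8 T1.l8) (xb T1.l8 T1.l8)))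
  (TrL.c (I.pos (nat_lit 0) (nat_lit 0)) (xb T1.l1 T1.l1)
  (TrL.c (I.pos (nat_lit 0) (nat_lit 0)) T1.l2
  (TrL.c (I.pos (nat_lit 0) (nat_lit 0)) (xb (xa T1.l3 T1.l3) T1.l3)
  (TrL.c (I.pos (nat_lit 0) (nat_lit 0)) T1.l9
  (TrL.c (I.pos (nat_lit 0) (nat_lit 0)) (xb T1.l5 T1.l5)
  TrL.n)))))) (by decide +kernel)
theorem sv0 : StarV sI cl4 cl9 cl9 t1 t1 t0 :=
  (bt_n (bt_n (bt_n (bt_b bx0_0) (bt_n (bt_b bx0_1) (bt_b bx0_2))) (bt_n (bt_n (bt_b bx0_3) (bt_b bx0_4)) (bt_n (bt_b bx0_5) (bt_b bx0_6)))) (bt_n (bt_n (bt_b bx0_7) (bt_n (bt_b bx0_8) (bt_b bx0_9))) (bt_n (bt_n (bt_b bx0_10) (bt_b bx0_11)) (bt_n (bt_b bx0_12) (bt_b bx0_13)))))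
def S0 : StarD := StarD.mk cl4 cl9 cl9 1 1 t0
theorem bx1_0 : BoxOK sI cl9 cl4 cl9 t0 t2 b1_0 :=
  box_mk (TrL.c (I.pos (nat_lit 0) (nat_lit 0)) (xb (xa T0.l4 T0.l0) (xa (xb T0.l4 (xa T0.l4 T0.l4)) (xa T0.l0 T0.l0)))
  (TrL.c (I.pos (nat_lit 0) (nat_lit 0)) (xk (xb T2.l1 T2.l1) (xb T2.l1 T2.l1))
  (TrL.c (I.pos (nat_lit 0) (nat_lit 124588530)) (xR (xR T0.l1 T0.l1) (xR T0.l1 T0.l1))
  (TrL.c (I.pos (nat_lit 0) (nat_lit 96881482)) (xR T2.l2 T2.l2)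
  (TrL.c (I.pos (nat_lit 0) (nat_lit 0)) (xb (xa T2.l5 (xk T2.l3 T2.l3)) (xa T2.l5 (xk T2.l3 T2.l3)))
  (TrL.c (I.pos (nat_lit 0) (nat_lit 0)) T0.l2
  (TrL.c (I.mix (nat_lit 17240550) (nat_lit 96881482)) (xR (xR T2.l4 T2.l4) (xR T2.l4 T2.l4))
  (TrL.c (I.mix (nat_lit 17240550) (nat_lit 71940500)) (xR T0.l11 T0.l3)
  TrL.n)))))))) (by decide +kernel)
theorem bx1_1 : BoxOK sI cl9 cl4 cl9 t0 t2 b1_1 :=
  box_mk (TrL.c (I.pos (nat_lit 0) (nat_lit 0)) (xa (xb (xa T0.l4 T0.l4) T0.l4) T0.l4)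
  (TrL.c (I.pos (nat_lit 0) (nat_lit 0)) (xa T2.l1 T2.l1)
  (TrL.c (I.pos (nat_lit 0) (nat_lit 124588530)) (xR (xR T0.l1 T0.l1) (xR T0.l1 T0.l1))
  (TrL.c (I.pos (nat_lit 0) (nat_lit 96881482)) (xR (xR T2.l4 T2.l4) (xR T2.l4 T2.l7))
  (TrL.c (I.pos (nat_lit 0) (nat_lit 0)) (xa T2.l5 (xb T2.l5 T2.l5))
  (TrL.c (I.pos (nat_lit 0) (nat_lit 0)) T0.l2
  (TrL.c (I.mix (nat_lit 17240550) (nat_lit 96881482)) (xR T2.l4 (xR T2.l4 T2.l4))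
  (TrL.c (I.mix (nat_lit 17240550) (nat_lit 71940500)) T0.l11
  TrL.n)))))))) (by decide +kernel)
theorem bx1_2 : BoxOK sI cl9 cl4 cl9 t0 t2 b1_2 :=
  box_mk (TrL.c (I.pos (nat_lit 0) (nat_lit 0)) T2.l6
  (TrL.c (I.pos (nat_lit 0) (nat_lit 0)) T0.l5
  (TrL.c (I.mix (nat_lit 17240550) (nat_lit 96881482)) (xR (xR T2.l7 T2.l7) (xR T2.l7 T2.l7))
  (TrL.c (I.mix (nat_lit 17240550) (nat_lit 71940500)) (xR T0.l6 T0.l1)
  TrL.n)))) (by decide +kernel)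
theorem bx1_3 : BoxOK sI cl9 cl4 cl9 t0 t2 b1_3 :=
  box_mk (TrL.c (I.pos (nat_lit 0) (nat_lit 0)) (xb (xa (xb T0.l4 T0.l4) (xb T0.l4 T0.l4)) (xa (xb (xa T0.l4 T0.l4) (xa (xb T0.l4 T0.l4) T0.l4)) (xb (xa T0.l4 T0.l4) (xa T0.l4 T0.l4))))
  (TrL.c (I.pos (nat_lit 0) (nat_lit 0)) (xb (xa T2.l1 T2.l1) (xa T2.l1 (xk T2.l1 T2.l1)))
  (TrL.c (I.pos (nat_lit 0) (nat_lit 124588530)) (xR (xR T0.l1 T0.l1) (xR T0.l1 T0.l1))
  (TrL.c (I.pos (nat_lit 0) (nat_lit 96881482)) (xR (xR T2.l2 T2.l2) (xR T2.l2 T2.l2))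
  (TrL.c (I.pos (nat_lit 0) (nat_lit 0)) (xb (xa T2.l5 (xk T2.l5 T2.l5)) (xa (xk (xb T2.l5 (xb T2.l3 (xs T2.l3 (xa T2.l3 T2.l3)))) (xb T2.l5 (xb (xs T2.l3 T2.l5) (xs T2.l3 (xa T2.l3 T2.l3))))) (xk (xb (xb T2.l5 (xs T2.l3 T2.l3)) (xs (xb T2.l3 (xa T2.l3 T2.l0)) (xb (xa T2.l3 (xk T2.l3 T2.l3)) (xa (xk T2.l3 (xs T2.l3 T2.l3)) (xk T2.l0 T2.l0))))) (xb (xb T2.l3 (xs T2.l3 (xa T2.l3 T2.l3))) (xs (xb (xa T2.l3 (xk T2.l3 T2.l3)) (xa (xk T2.l3 T2.l3) (xk T2.l0 T2.l0))) (xb (xa T2.l3 (xk (xs T2.l3 T2.l3) (xs T2.l3 (xb T2.l3 T2.l3)))) (xa (xk (xs T2.l3 T2.l3) (xs T2.l3 (xb T2.l3 T2.l3))) (xk T2.l0 T2.l0))))))))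
  (TrL.c (I.pos (nat_lit 0) (nat_lit 0)) T0.l2
  (TrL.c (I.mix (nat_lit 17240550) (nat_lit 96881482)) (xR (xR T2.l4 T2.l4) (xR T2.l4 T2.l4))
  (TrL.c (I.mix (nat_lit 17240550) (nat_lit 71940500)) (xR T0.l11 (xR T0.l3 T0.l3))
  TrL.n)))))))) (by decide +kernel)
theorem bx1_4 : BoxOK sI cl9 cl4 cl9 t0 t2 b1_4 :=
  box_mk (TrL.c (I.pos (nat_lit 0) (nat_lit 0)) (xb T0.l7 T0.l4)
  (TrL.c (I.pos (nat_lit 0) (nat_lit 0)) T2.l1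
  (TrL.c (I.pos (nat_lit 0) (nat_lit 124588530)) (xR T0.l1 (xR T0.l1 T0.l1))
  (TrL.c (I.pos (nat_lit 0) (nat_lit 96881482)) (xR T2.l4 T2.l4)
  (TrL.c (I.pos (nat_lit 0) (nat_lit 0)) T2.l8
  (TrL.c (I.pos (nat_lit 0) (nat_lit 0)) T0.l2
  (TrL.c (I.mix (nat_lit 17240550) (nat_lit 96881482)) (xR T2.l4 T2.l4)
  (TrL.c (I.mix (nat_lit 17240550) (nat_lit 71940500)) T0.l11
  TrL.n)))))))) (by decide +kernel)
theorem bx1_5 : BoxOK sI cl9 cl4 cl9 t0 t2 b1_5 :=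
  box_mk (TrL.c (I.pos (nat_lit 0) (nat_lit 0)) (xa T2.l1 T2.l1)
  (TrL.c (I.pos (nat_lit 0) (nat_lit 0)) T0.l1
  (TrL.c (I.mix (nat_lit 17240550) (nat_lit 96881482)) (xR (xR T2.l7 T2.l7) (xR T2.l7 T2.l7))
  (TrL.c (I.mix (nat_lit 17240550) (nat_lit 71940500)) (xR T0.l6 T0.l1)
  TrL.n)))) (by decide +kernel)
theorem bx1_6 : BoxOK sI cl9 cl4 cl9 t0 t2 b1_6 :=
  box_mk (TrL.c (I.pos (nat_lit 0) (nat_lit 0)) (xa (xb T0.l0 (xa T0.l0 T0.l0)) (xb T0.l0 (xa T0.l0 T0.l0)))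
  (TrL.c (I.pos (nat_lit 0) (nat_lit 0)) (xa (xb T2.l1 T2.l1) (xk (xb T2.l1 T2.l1) (xb T2.l1 T2.l1)))
  (TrL.c (I.pos (nat_lit 0) (nat_lit 124588530)) (xR (xR T0.l1 T0.l1) T0.l11)
  (TrL.c (I.pos (nat_lit 0) (nat_lit 96881482)) (xR (xR T2.l2 T2.l2) (xR T2.l2 T2.l2))
  (TrL.c (I.pos (nat_lit 0) (nat_lit 0)) (xa (xb (xk (xa T2.l3 T2.l3) (xa T2.l3 T2.l3)) (xk T2.l3 T2.l3)) (xb (xk (xa T2.l0 (xb T2.l0 T2.l3)) (xa (xb T2.l3 T2.l3) (xb T2.l0 T2.l3))) (xk (xa T2.l3 (xb (xk T2.l3 T2.l3) (xk T2.l3 T2.l3))) (xa T2.l3 (xb T2.l3 T2.l3)))))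
  (TrL.c (I.pos (nat_lit 0) (nat_lit 0)) (xk (xa T0.l2 T0.l2) (xa T0.l2 T0.l2))
  (TrL.c (I.mix (nat_lit 17240550) (nat_lit 96881482)) (xR (xR T2.l4 T2.l4) (xR T2.l4 (xR T2.l4 T2.l4)))
  (TrL.c (I.mix (nat_lit 17240550) (nat_lit 71940500)) (xR T0.l3 T0.l9)
  TrL.n)))))))) (by decide +kernel)
theorem bx1_7 : BoxOK sI cl9 cl4 cl9 t0 t2 b1_7 :=
  box_mk (TrL.c (I.pos (nat_lit 0) (nat_lit 0)) (xb (xa T0.l7 T0.l7) (xa T0.l7 T0.l7))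
  (TrL.c (I.pos (nat_lit 0) (nat_lit 0)) T2.l6
  (TrL.c (I.pos (nat_lit 0) (nat_lit 124588530)) (xR T0.l1 (xR T0.l1 T0.l1))
  (TrL.c (I.pos (nat_lit 0) (nat_lit 96881482)) (xR T2.l4 T2.l4)
  (TrL.c (I.pos (nat_lit 0) (nat_lit 0)) T2.l8
  (TrL.c (I.pos (nat_lit 0) (nat_lit 0)) T0.l2
  (TrL.c (I.mix (nat_lit 17240550) (nat_lit 96881482)) (xR T2.l7 T2.l4)
  (TrL.c (I.mix (nat_lit 17240550) (nat_lit 71940500)) (xR T0.l11 T0.l1)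
  TrL.n)))))))) (by decide +kernel)
theorem bx1_8 : BoxOK sI cl9 cl4 cl9 t0 t2 b1_8 :=
  box_mk (TrL.c (I.pos (nat_lit 0) (nat_lit 0)) (xa (xb T0.l0 T0.l4) (xb T0.l0 T0.l0))
  (TrL.c (I.pos (nat_lit 0) (nat_lit 0)) (xk T2.l1 T2.l1)
  (TrL.c (I.pos (nat_lit 0) (nat_lit 124588530)) (xR (xR T0.l1 T0.l1) T0.l1)
  (TrL.c (I.pos (nat_lit 0) (nat_lit 96881482)) (xR T2.l2 T2.l2)
  (TrL.c (I.pos (nat_lit 0) (nat_lit 0)) (xk (xb T2.l3 T2.l3) (xb T2.l3 (xa T2.l3 (xs T2.l0 T2.l3))))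
  (TrL.c (I.pos (nat_lit 0) (nat_lit 0)) T0.l2
  (TrL.c (I.mix (nat_lit 17240550) (nat_lit 96881482)) (xR (xR T2.l4 T2.l4) T2.l4)
  (TrL.c (I.mix (nat_lit 17240550) (nat_lit 71940500)) (xR T0.l11 T0.l3)
  TrL.n)))))))) (by decide +kernel)
theorem bx1_9 : BoxOK sI cl9 cl4 cl9 t0 t2 b1_9 :=
  box_mk (TrL.c (I.pos (nat_lit 0) (nat_lit 0)) T0.l4
  (TrL.c (I.pos (nat_lit 0) (nat_lit 0)) T2.l1
  (TrL.c (I.pos (nat_lit 0) (nat_lit 124588530)) (xR T0.l1 T0.l1)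
  (TrL.c (I.pos (nat_lit 0) (nat_lit 96881482)) (xR T2.l4 T2.l4)
  (TrL.c (I.pos (nat_lit 0) (nat_lit 0)) T2.l5
  (TrL.c (I.pos (nat_lit 0) (nat_lit 0)) T0.l2
  (TrL.c (I.mix (nat_lit 17240550) (nat_lit 96881482)) (xR T2.l4 T2.l4)
  (TrL.c (I.mix (nat_lit 17240550) (nat_lit 71940500)) T0.l11
  TrL.n)))))))) (by decide +kernel)
theorem sv1 : StarV sI cl9 cl4 cl9 t0 t2 t1 :=
  (bt_n (bt_n (bt_n (bt_b bx1_0) (bt_b bx1_1)) (bt_n (bt_b bx1_2) (bt_n (bt_b bx1_3) (bt_b bx1_4)))) (bt_n (bt_n (bt_b bx1_5) (bt_b bx1_6)) (bt_n (bt_b bx1_7) (bt_n (bt_b bx1_8) (bt_b bx1_9)))))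
def S1 : StarD := StarD.mk cl9 cl4 cl9 0 2 t1
theorem c2_0_0 : chkTag sI cl9 cl9 cl4 t2 b2_0 (tg true true false RT.r2) (I.pos (nat_lit 0) (nat_lit 0))
  (xa (xa (xb (xb (xs T2.l0 (xa T2.l0 T2.l0)) (xs T2.l0 (xa T2.l0 T2.l0))) (xs (xb T2.l0 T2.l0) (xb (xa T2.l0 T2.l0) (xa T2.l0 T2.l0)))) (xb (xb (xs T2.l0 (xa (xc T2.l0 T2.l0) (xc T2.l0 T2.l0))) (xs T2.l0 (xa T2.l0 (xc T2.l0 T2.l0)))) (xs (xb T2.l0 T2.l0) (xb (xa T2.l0 (xb T2.l0 T2.l0)) (xa T2.l0 (xb T2.l0 T2.l0)))))) (xa (xb (xb (xs T2.l0 (xa (xc T2.l0 (xb T2.l0 T2.l0)) (xc T2.l0 (xb T2.l0 T2.l0)))) (xs T2.l0 (xa (xc T2.l0 T2.l0) (xc T2.l0 (xb T2.l0 T2.l0))))) (xs (xb T2.l0 T2.l0) (xb (xa (xb T2.l0 T2.l0) (xb T2.l0 T2.l0)) (xa (xs T2.l0 T2.l0) (xs T2.l0 T2.l0))))) (xb (xb (xs (xa T2.l0 T2.l0) (xa (xc T2.l0 (xb T2.l0 T2.l0)) (xc T2.l0 (xb (xs T2.l0 T2.l0) T2.l0)))) (xs (xa T2.l0 T2.l0)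 (xa (xc T2.l0 (xb T2.l0 T2.l0)) (xc T2.l0 (xb T2.l0 T2.l0))))) (xs (xb (xa T2.l0 T2.l0) (xa T2.l0 T2.l0)) (xb (xa (xs T2.l0 (xc T2.l0 T2.l0)) (xs T2.l0 (xc T2.l0 T2.l0))) (xa (xs T2.l0 (xb T2.l0 T2.l0)) (xs T2.l0 (xc T2.l0 T2.l0)))))))) = true := by decide +kernel
theorem c2_0_1 : chkTag sI cl9 cl9 cl4 t0 b2_0 (tg true false false RT.r3) (I.pos (nat_lit 0) (nat_lit 0))
  (xa (xk (xb T0.l8 T0.l8) (xb T0.l8 T0.l8)) (xk (xb T0.l8 T0.l8) (xb T0.l8 T0.l8))) = true := by decide +kernel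
theorem c2_0_2 : chkTag sI cl9 cl9 cl4 t2 b2_0 (Tag.mk true true false RT.tl RT.r4) (I.pos (nat_lit 0) (nat_lit 124588530))
  (xR (xR T2.l9 T2.l9) (xR T2.l9 (xR T2.l9 T2.l9))) = true := by decide +kernel
theorem c2_0_3 : chkTag sI cl9 cl9 cl4 t0 b2_0 (Tag.mk true false false RT.tl RT.r5) (I.pos (nat_lit 0) (nat_lit 96881482))
  (xR (xR T0.l9 T0.l9) (xR T0.l9 T0.l9)) = true := by decide +kernel
theorem c2_0_4 : chkTag sI cl9 cl9 cl4 t0 b2_0 (tg false false false RT.r3) (I.pos (nat_lit 0) (nat_lit 0))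
  (xa (xk (xb T0.l13 T0.l13) (xb T0.l13 (xb T0.l10 T0.l10))) (xk (xb (xa T0.l10 T0.l10) (xa (xb T0.l10 T0.l10) (xb T0.l10 (xs T0.l10 (xk T0.l10 (xb T0.l10 (xa T0.l10 T0.l10))))))) (xb (xa T0.l10 T0.l10) (xb (xa T0.l13 (xs T0.l10 T0.l10)) (xa (xs T0.l10 (xk T0.l10 T0.l10)) (xs (xk T0.l10 T0.l10) (xk (xa T0.l10 (xb T0.l10 (xd T0.l10 T0.l10))) (xa (xb T0.l10 T0.l10) (xb T0.l10 (xd T0.l10 T0.l10)))))))))) = true := by decide +kernel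
theorem c2_0_5 : chkTag sI cl9 cl9 cl4 t2 b2_0 (tg false true false RT.r4) (I.pos (nat_lit 0) (nat_lit 0))
  (xk T2.l10 T2.l10) = true := by decide +kernel
theorem c2_0_6 : chkTag sI cl9 cl9 cl4 t0 b2_0 (Tag.mk false false false RT.tl RT.r5) (I.mix (nat_lit 17240550) (nat_lit 96881482))
  (xR T0.l11 (xR T0.l11 T0.l11)) = true := by decide +kernel
theorem c2_0_7 : chkTag sI cl9 cl9 cl4 t2 b2_0 (Tag.mk false true false RT.tl RT.r6) (I.mix (nat_lit 17240550) (nat_lit 71940500))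
  (xR T2.l12 (xR T2.l12 T2.l12)) = true := by decide +kernel
theorem bx2_0 : BoxOK sI cl9 cl9 cl4 t2 t0 b2_0 :=
  box_mk' [(tg true true false RT.r2), (tg true false false RT.r3), (Tag.mk true true false RT.tl RT.r4), (Tag.mk true false false RT.tl RT.r5), (tg false false false RT.r3), (tg false true false RT.r4), (Tag.mk false false false RT.tl RT.r5), (Tag.mk false true false RT.tl RT.r6)] rfl (allL_c (ex_mk c2_0_0) (allL_c (ex_mk c2_0_1) (allL_c (ex_mk c2_0_2) (allL_c (ex_mk c2_0_3) (allL_c (ex_mk c2_0_4) (allL_c (ex_mk c2_0_5) (allL_c (ex_mk c2_0_6) (allL_c (ex_mk c2_0_7) allL_n))))))))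
theorem bx2_1 : BoxOK sI cl9 cl9 cl4 t2 t0 b2_1 :=
  box_mk (TrL.c (I.pos (nat_lit 0) (nat_lit 0)) (xa (xb T2.l11 T2.l11) T2.l11)
  (TrL.c (I.pos (nat_lit 0) (nat_lit 0)) (xa T0.l8 T0.l8)
  (TrL.c (I.pos (nat_lit 0) (nat_lit 124588530)) (xR (xR T2.l9 T2.l9) T2.l9)
  (TrL.c (I.pos (nat_lit 0) (nat_lit 96881482)) (xR (xR T0.l9 T0.l9) T0.l9)
  (TrL.c (I.pos (nat_lit 0) (nat_lit 0)) (xa (xb T0.l12 T0.l12) (xk T0.l12 T0.l12))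
  (TrL.c (I.pos (nat_lit 0) (nat_lit 0)) T2.l10
  (TrL.c (I.mix (nat_lit 17240550) (nat_lit 96881482)) (xR T0.l11 T0.l11)
  (TrL.c (I.mix (nat_lit 17240550) (nat_lit 71940500)) (xR T2.l12 T2.l12)
  TrL.n)))))))) (by decide +kernel)
theorem bx2_2 : BoxOK sI cl9 cl9 cl4 t2 t0 b2_2 :=
  box_mk (TrL.c (I.pos (nat_lit 0) (nat_lit 0)) (xa T2.l11 T2.l11)
  (TrL.c (I.pos (nat_lit 0) (nat_lit 0)) (xa T0.l8 T0.l8)
  (TrL.c (I.pos (nat_lit 0) (nat_lit 124588530)) (xR T2.l9 T2.l9)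
  (TrL.c (I.pos (nat_lit 0) (nat_lit 96881482)) (xR T0.l9 (xR T0.l9 T0.l9))
  (TrL.c (I.pos (nat_lit 0) (nat_lit 0)) (xa T0.l12 T0.l12)
  (TrL.c (I.pos (nat_lit 0) (nat_lit 0)) T2.l10
  (TrL.c (I.mix (nat_lit 17240550) (nat_lit 96881482)) (xR T0.l11 T0.l11)
  (TrL.c (I.mix (nat_lit 17240550) (nat_lit 71940500)) T2.l12
  TrL.n)))))))) (by decide +kernel)
theorem bx2_3 : BoxOK sI cl9 cl9 cl4 t2 t0 b2_3 :=
  box_mk (TrL.c (I.pos (nat_lit 0) (nat_lit 0)) (xa (xb T2.l13 (xb T2.l13 T2.l13)) (xb T2.l13 (xb T2.l13 T2.l13)))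
  (TrL.c (I.pos (nat_lit 0) (nat_lit 0)) (xk (xb T0.l8 (xa T0.l8 T0.l8)) (xb T0.l8 T0.l8))
  (TrL.c (I.pos (nat_lit 0) (nat_lit 124588530)) (xR (xR T2.l9 T2.l9) (xR T2.l9 T2.l9))
  (TrL.c (I.pos (nat_lit 0) (nat_lit 96881482)) (xR (xR T0.l9 T0.l9) (xR T0.l9 T0.l9))
  (TrL.c (I.pos (nat_lit 0) (nat_lit 0)) (xk (xb T0.l13 T0.l13) (xb T0.l13 T0.l13))
  (TrL.c (I.pos (nat_lit 0) (nat_lit 0)) T2.l10
  (TrL.c (I.mix (nat_lit 17240550) (nat_lit 96881482)) (xR T0.l11 (xR T0.l11 T0.l11))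
  (TrL.c (I.mix (nat_lit 17240550) (nat_lit 71940500)) (xR T2.l12 (xR T2.l12 T2.l2))
  TrL.n)))))))) (by decide +kernel)
theorem bx2_4 : BoxOK sI cl9 cl9 cl4 t2 t0 b2_4 :=
  box_mk (TrL.c (I.pos (nat_lit 0) (nat_lit 0)) (xa (xa (xb (xa T2.l11 T2.l11) (xa (xb T2.l11 T2.l11) T2.l11)) (xb T2.l11 (xa T2.l11 T2.l11))) (xa (xb T2.l11 (xa T2.l11 T2.l11)) (xb T2.l11 (xa T2.l11 T2.l11))))
  (TrL.c (I.pos (nat_lit 0) (nat_lit 0)) (xa (xa T0.l8 T0.l8) (xa T0.l8 T0.l8))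
  (TrL.c (I.pos (nat_lit 0) (nat_lit 124588530)) (xR T2.l9 (xR T2.l9 T2.l9))
  (TrL.c (I.pos (nat_lit 0) (nat_lit 96881482)) (xR T0.l9 (xR T0.l9 T0.l9))
  (TrL.c (I.pos (nat_lit 0) (nat_lit 0)) (xa (xa T0.l12 T0.l12) T0.l12)
  (TrL.c (I.pos (nat_lit 0) (nat_lit 0)) T2.l10
  (TrL.c (I.mix (nat_lit 17240550) (nat_lit 96881482)) (xR (xR T0.l11 T0.l11) T0.l11)
  (TrL.c (I.mix (nat_lit 17240550) (nat_lit 71940500)) (xR T2.l7 T2.l12)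
  TrL.n)))))))) (by decide +kernel)
theorem bx2_5 : BoxOK sI cl9 cl9 cl4 t2 t0 b2_5 :=
  box_mk (TrL.c (I.pos (nat_lit 0) (nat_lit 0)) (xb (xa (xb (xs T2.l0 (xa T2.l0 (xb T2.l0 T2.l0))) (xs T2.l0 T2.l0)) (xb (xs T2.l0 (xa (xb T2.l0 T2.l0) (xb T2.l0 T2.l0))) (xs T2.l0 T2.l0))) (xa (xb T2.l0 T2.l0) (xb T2.l0 T2.l0)))
  (TrL.c (I.pos (nat_lit 0) (nat_lit 0)) (xb (xk T0.l8 T0.l8) (xk T0.l8 T0.l8))
  (TrL.c (I.pos (nat_lit 0) (nat_lit 124588530)) (xR (xR T2.l9 T2.l9) (xR T2.l9 T2.l4))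
  (TrL.c (I.pos (nat_lit 0) (nat_lit 96881482)) (xR (xR T0.l9 T0.l9) (xR T0.l9 T0.l9))
  (TrL.c (I.pos (nat_lit 0) (nat_lit 0)) (xk (xb (xa T0.l13 T0.l13) T0.l13) (xb (xa T0.l13 T0.l13) T0.l13))
  (TrL.c (I.pos (nat_lit 0) (nat_lit 0)) T2.l10
  (TrL.c (I.mix (nat_lit 17240550) (nat_lit 96881482)) (xR T0.l11 (xR T0.l11 T0.l11))
  (TrL.c (I.mix (nat_lit 17240550) (nat_lit 71940500)) (xR T2.l12 (xR T2.l12 T2.l2))
  TrL.n)))))))) (by decide +kernel)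
theorem bx2_6 : BoxOK sI cl9 cl9 cl4 t2 t0 b2_6 :=
  box_mk (TrL.c (I.pos (nat_lit 0) (nat_lit 0)) T2.l11
  (TrL.c (I.pos (nat_lit 0) (nat_lit 0)) T0.l8
  (TrL.c (I.pos (nat_lit 0) (nat_lit 124588530)) (xR (xR T2.l9 T2.l9) T2.l9)
  (TrL.c (I.pos (nat_lit 0) (nat_lit 96881482)) (xR (xR T0.l9 T0.l9) T0.l9)
  (TrL.c (I.pos (nat_lit 0) (nat_lit 0)) (xk T0.l12 T0.l12)
  (TrL.c (I.pos (nat_lit 0) (nat_lit 0)) T2.l10
  (TrL.c (I.mix (nat_lit 17240550) (nat_lit 96881482)) (xR T0.l11 T0.l11)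
  (TrL.c (I.mix (nat_lit 17240550) (nat_lit 71940500)) (xR T2.l12 T2.l12)
  TrL.n)))))))) (by decide +kernel)
theorem bx2_7 : BoxOK sI cl9 cl9 cl4 t2 t0 b2_7 :=
  box_mk (TrL.c (I.pos (nat_lit 0) (nat_lit 0)) (xa T2.l11 T2.l11)
  (TrL.c (I.pos (nat_lit 0) (nat_lit 0)) (xa T0.l8 T0.l8)
  (TrL.c (I.pos (nat_lit 0) (nat_lit 124588530)) (xR T2.l9 T2.l9)
  (TrL.c (I.pos (nat_lit 0) (nat_lit 96881482)) (xR T0.l9 (xR T0.l9 T0.l9))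
  (TrL.c (I.pos (nat_lit 0) (nat_lit 0)) (xa T0.l12 T0.l12)
  (TrL.c (I.pos (nat_lit 0) (nat_lit 0)) T2.l10
  (TrL.c (I.mix (nat_lit 17240550) (nat_lit 96881482)) (xR (xR T0.l11 T0.l11) T0.l11)
  (TrL.c (I.mix (nat_lit 17240550) (nat_lit 71940500)) T2.l7
  TrL.n)))))))) (by decide +kernel)
theorem bx2_8 : BoxOK sI cl9 cl9 cl4 t2 t0 b2_8 :=
  box_mk (TrL.c (I.pos (nat_lit 0) (nat_lit 0)) T2.l0
  (TrL.c (I.pos (nat_lit 0) (nat_lit 0)) T0.l8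
  (TrL.c (I.pos (nat_lit 0) (nat_lit 124588530)) (xR (xR T2.l9 T2.l9) T2.l9)
  (TrL.c (I.pos (nat_lit 0) (nat_lit 96881482)) (xR (xR T0.l9 T0.l9) T0.l9)
  (TrL.c (I.pos (nat_lit 0) (nat_lit 0)) (xk T0.l13 T0.l13)
  (TrL.c (I.pos (nat_lit 0) (nat_lit 0)) T2.l10
  (TrL.c (I.mix (nat_lit 17240550) (nat_lit 96881482)) (xR T0.l11 T0.l11)
  (TrL.c (I.mix (nat_lit 17240550) (nat_lit 71940500)) (xR T2.l12 T2.l12)
  TrL.n)))))))) (by decide +kernel)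
theorem bx2_9 : BoxOK sI cl9 cl9 cl4 t2 t0 b2_9 :=
  box_mk (TrL.c (I.pos (nat_lit 0) (nat_lit 0)) (xa (xa (xa T2.l11 T2.l11) T2.l11) (xa (xa T2.l11 T2.l11) (xa T2.l11 T2.l11)))
  (TrL.c (I.pos (nat_lit 0) (nat_lit 0)) (xa (xa T0.l8 T0.l8) (xa T0.l8 T0.l8))
  (TrL.c (I.pos (nat_lit 0) (nat_lit 124588530)) (xR T2.l9 T2.l9)
  (TrL.c (I.pos (nat_lit 0) (nat_lit 96881482)) (xR T0.l9 (xR T0.l9 T0.l9))
  (TrL.c (I.pos (nat_lit 0) (nat_lit 0)) (xa T0.l12 T0.l12)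
  (TrL.c (I.pos (nat_lit 0) (nat_lit 0)) T2.l10
  (TrL.c (I.mix (nat_lit 17240550) (nat_lit 96881482)) (xR (xR T0.l11 T0.l11) T0.l11)
  (TrL.c (I.mix (nat_lit 17240550) (nat_lit 71940500)) (xR T2.l7 T2.l12)
  TrL.n)))))))) (by decide +kernel)
theorem bx2_10 : BoxOK sI cl9 cl9 cl4 t2 t0 b2_10 :=
  box_mk (TrL.c (I.pos (nat_lit 0) (nat_lit 0)) (xb (xa T2.l11 T2.l11) (xa T2.l11 T2.l11))
  (TrL.c (I.pos (nat_lit 0) (nat_lit 0)) (xb T0.l8 T0.l8)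
  (TrL.c (I.pos (nat_lit 0) (nat_lit 124588530)) (xR (xR T2.l9 T2.l9) T2.l9)
  (TrL.c (I.pos (nat_lit 0) (nat_lit 96881482)) (xR (xR T0.l9 T0.l9) T0.l9)
  (TrL.c (I.pos (nat_lit 0) (nat_lit 0)) (xb (xk T0.l12 T0.l12) (xk T0.l12 T0.l12))
  (TrL.c (I.pos (nat_lit 0) (nat_lit 0)) T2.l10
  (TrL.c (I.mix (nat_lit 17240550) (nat_lit 96881482)) (xR T0.l11 T0.l11)
  (TrL.c (I.mix (nat_lit 17240550) (nat_lit 71940500)) (xR T2.l12 T2.l12)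
  TrL.n)))))))) (by decide +kernel)
theorem bx2_11 : BoxOK sI cl9 cl9 cl4 t2 t0 b2_11 :=
  box_mk (TrL.c (I.pos (nat_lit 0) (nat_lit 0)) (xa (xa T2.l0 (xb T2.l0 T2.l0)) (xa (xb T2.l0 T2.l0) (xb T2.l0 (xa T2.l0 T2.l0))))
  (TrL.c (I.pos (nat_lit 0) (nat_lit 0)) (xa (xk (xb T0.l8 T0.l8) T0.l8) (xk (xa (xb T0.l8 T0.l8) (xb T0.l2 T0.l2)) (xb T0.l8 (xa T0.l8 T0.l8))))
  (TrL.c (I.pos (nat_lit 0) (nat_lit 124588530)) (xR (xR T2.l9 T2.l9) (xR T2.l9 T2.l4))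
  (TrL.c (I.pos (nat_lit 0) (nat_lit 96881482)) (xR (xR T0.l9 T0.l9) (xR T0.l9 T0.l9))
  (TrL.c (I.pos (nat_lit 0) (nat_lit 0)) (xa (xk (xb (xa T0.l10 T0.l10) (xa T0.l10 T0.l10)) (xb (xa T0.l10 T0.l10) T0.l10)) (xk (xb (xa T0.l10 (xk T0.l10 T0.l10)) (xa T0.l10 (xk (xb T0.l10 T0.l10) (xa T0.l10 T0.l10)))) (xb (xa T0.l10 (xk T0.l10 T0.l10)) (xa T0.l10 (xk (xa T0.l10 T0.l10) (xa T0.l10 T0.l10))))))
  (TrL.c (I.pos (nat_lit 0) (nat_lit 0)) (xk (xa T2.l10 (xb T2.l10 T2.l10)) (xa T2.l10 (xb T2.l10 T2.l10)))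
  (TrL.c (I.mix (nat_lit 17240550) (nat_lit 96881482)) (xR T0.l11 (xR T0.l11 (xR T0.l11 T0.l11)))
  (TrL.c (I.mix (nat_lit 17240550) (nat_lit 71940500)) (xR T2.l12 (xR T2.l12 T2.l12))
  TrL.n)))))))) (by decide +kernel)
theorem bx2_12 : BoxOK sI cl9 cl9 cl4 t2 t0 b2_12 :=
  box_mk (TrL.c (I.pos (nat_lit 0) (nat_lit 0)) (xa (xa (xb T2.l11 T2.l11) T2.l11) T2.l11)
  (TrL.c (I.pos (nat_lit 0) (nat_lit 0)) (xa T0.l8 T0.l8)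
  (TrL.c (I.pos (nat_lit 0) (nat_lit 124588530)) (xR T2.l9 T2.l9)
  (TrL.c (I.pos (nat_lit 0) (nat_lit 96881482)) (xR T0.l9 (xR T0.l9 T0.l9))
  (TrL.c (I.pos (nat_lit 0) (nat_lit 0)) (xa T0.l12 T0.l12)
  (TrL.c (I.pos (nat_lit 0) (nat_lit 0)) T2.l10
  (TrL.c (I.mix (nat_lit 17240550) (nat_lit 96881482)) (xR T0.l11 (xR T0.l11 T0.l11))
  (TrL.c (I.mix (nat_lit 17240550) (nat_lit 71940500)) (xR T2.l12 T2.l12)
  TrL.n)))))))) (by decide +kernel)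
theorem bx2_13 : BoxOK sI cl9 cl9 cl4 t2 t0 b2_13 :=
  box_mk (TrL.c (I.pos (nat_lit 0) (nat_lit 0)) (xa (xb (xa (xs T2.l0 T2.l0) (xs T2.l0 T2.l0)) (xa (xs T2.l0 T2.l0) (xs T2.l0 T2.l0))) (xb (xa (xs T2.l0 (xb T2.l0 T2.l0)) (xs T2.l0 (xb T2.l0 T2.l0))) (xs (xa T2.l0 T2.l0) (xa (xb T2.l0 T2.l0) (xb T2.l0 T2.l0)))))
  (TrL.c (I.pos (nat_lit 0) (nat_lit 0)) (xa (xk T0.l8 T0.l8) (xk T0.l8 T0.l8))
  (TrL.c (I.pos (nat_lit 0) (nat_lit 124588530)) (xR (xR T2.l9 T2.l9) (xR T2.l9 (xR T2.l9 T2.l9)))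
  (TrL.c (I.pos (nat_lit 0) (nat_lit 96881482)) (xR (xR T0.l9 T0.l9) (xR T0.l9 T0.l9))
  (TrL.c (I.pos (nat_lit 0) (nat_lit 0)) (xk (xa T0.l10 T0.l10) (xa T0.l10 T0.l10))
  (TrL.c (I.pos (nat_lit 0) (nat_lit 0)) T2.l10
  (TrL.c (I.mix (nat_lit 17240550) (nat_lit 96881482)) (xR T0.l11 (xR T0.l11 T0.l11))
  (TrL.c (I.mix (nat_lit 17240550) (nat_lit 71940500)) (xR T2.l12 (xR T2.l12 T2.l12))
  TrL.n)))))))) (by decide +kernel)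
theorem sv2 : StarV sI cl9 cl9 cl4 t2 t0 t2 :=
  (bt_n (bt_n (bt_n (bt_b bx2_0) (bt_n (bt_b bx2_1) (bt_b bx2_2))) (bt_n (bt_n (bt_b bx2_3) (bt_b bx2_4)) (bt_n (bt_b bx2_5) (bt_b bx2_6)))) (bt_n (bt_n (bt_b bx2_7) (bt_n (bt_b bx2_8) (bt_b bx2_9))) (bt_n (bt_n (bt_b bx2_10) (bt_b bx2_11)) (bt_n (bt_b bx2_12) (bt_b bx2_13)))))
def S2 : StarD := StarD.mk cl9 cl9 cl4 2 0 t2
def G : List StarD := [S0, S1, S2]
theorem so0 : StarOK sI G S0 :=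
  star_mk (by decide) (by decide) rfl rfl rfl rfl rfl rfl (rfl : _ = t1) (rfl : _ = t1)
  (st_mk (Pth.l (Pth.l (Pth.l Pth.z))) (nat_lit 118646163) (nat_lit 138416724) (by decide +kernel))
  (st_mk (Pth.l (Pth.l (Pth.l Pth.z))) (nat_lit 154245417) (nat_lit 178609164) (by decide +kernel))
  (st_mk (Pth.l (Pth.l (Pth.l Pth.z))) (nat_lit 198456346) (nat_lit 224003551) (by decide +kernel)) sv0
theorem so1 : StarOK sI G S1 :=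
  star_mk (by decide) (by decide) rfl rfl rfl rfl rfl rfl (rfl : _ = t0) (rfl : _ = t2)
  (st_mk (Pth.l (Pth.l (Pth.l Pth.z))) (nat_lit 367213674) (nat_lit 370512512) (by decide +kernel))
  (st_mk (Pth.l (Pth.l (Pth.l Pth.z))) (nat_lit 402060827) (nat_lit 406998531) (by decide +kernel))
  (st_mk (Pth.l (Pth.l (Pth.l Pth.z))) (nat_lit 442945084) (nat_lit 448603660) (by decide +kernel)) sv1
theorem so2 : StarOK sI G S2 :=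
  star_mk (by decide) (by decide) rfl rfl rfl rfl rfl rfl (rfl : _ = t2) (rfl : _ = t0)
  (st_mk (Pth.l (Pth.l (Pth.l Pth.z))) (nat_lit 115546462) (nat_lit 134237043) (by decide +kernel))
  (st_mk (Pth.l (Pth.l (Pth.l Pth.z))) (nat_lit 150761288) (nat_lit 169864001) (by decide +kernel))
  (st_mk (Pth.l (Pth.l (Pth.l Pth.z))) (nat_lit 191499091) (nat_lit 211192078) (by decide +kernel)) sv2
theorem ok : GroupOK (nat_lit 150274048) (nat_lit 209387520) G := grp_mk (allS_c so0 (allS_c so1 (allS_c so2 allS_n)))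
theorem cov : GCov G cl4 cl9 cl9 := cov_mk
  ⟨0, by decide, rfl, rfl, rfl⟩ ⟨0, by decide, rfl, rfl, rfl⟩ ⟨1, by decide, rfl, rfl, rfl⟩ ⟨2, by decide, rfl, rfl, rfl⟩ ⟨1, by decide, rfl, rfl, rfl⟩ ⟨2, by decide, rfl, rfl, rfl⟩
end Q155_2

namespace Q155_3
def sI : I := I.pos (nat_lit 209321984) (nat_lit 268435456)
def b0_0 : Bx := Bx.mk (St.mk (I.pos (nat_lit 158416896) (nat_lit 235339776)) (I.mix (nat_lit 1769472) (nat_lit 54738944)) (I.mix (nat_lit 1966080) (nat_lit 64569344)) (I.pos (nat_lit 115146752) (nat_lit 259096576)) (I.mix (nat_lit 112787456) (nat_lit 66912256)) (I.mix (nat_lit 62701568) (nat_lit 59490304)) (I.mix (nat_lit 95682560) (nat_lit 97533952)))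
  false (nat_lit 526394)
def b0_1 : Bx := Bx.mk (St.mk (I.mix (nat_lit 25198592) (nat_lit 129581056)) (I.mix (nat_lit 6602752) (nat_lit 30425088)) (I.mix (nat_lit 23150592) (nat_lit 9158656)) (I.pos (nat_lit 13926400) (nat_lit 97501184)) (I.mix (nat_lit 44204032) (nat_lit 53460992)) (I.mix (nat_lit 38780928) (nat_lit 35143680)) (I.mix (nat_lit 28590080) (nat_lit 24313856)))
  false (nat_lit 0)
def b0_2 : Bx := Bx.mk (St.mk (I.pos (nat_lit 100859904) (nat_lit 141508608)) (I.mix (nat_lit 40091648) (nat_lit 8847360)) (I.neg (nat_lit 5980160) (nat_lit 54394880)) (I.pos (nat_lit 58605568) (nat_lit 109608960)) (I.mix (nat_lit 90652672) (nat_lit 45236224)) (I.mix (nat_lit 40337408) (nat_lit 74350592)) (I.mix (nat_lit 29851648) (nat_lit 64864256)))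
  false (nat_lit 0)
def b0_3 : Bx := Bx.mk (St.mk (I.mix (nat_lit 23003136) (nat_lit 88539136)) (I.mix (nat_lit 26329088) (nat_lit 2048000)) (I.neg (nat_lit 1048576) (nat_lit 26148864)) (I.pos (nat_lit 15810560) (nat_lit 65273856)) (I.mix (nat_lit 50937856) (nat_lit 22249472)) (I.mix (nat_lit 22822912) (nat_lit 36044800)) (I.mix (nat_lit 11862016) (nat_lit 21118976)))
  false (nat_lit 0)
def b0_4 : Bx := Bx.mk (St.mk (I.pos (nat_lit 199278592) (nat_lit 248725504)) (I.mix (nat_lit 11829248) (nat_lit 28000256)) (I.mix (nat_lit 66961408) (nat_lit 6291456)) (I.pos (nat_lit 194723840) (nat_lit 275349504)) (I.mix (nat_lit 102023168) (nat_lit 41959424)) (I.mix (nat_lit 59326464) (nat_lit 61751296)) (I.mix (nat_lit 94289920) (nat_lit 114851840)))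
  false (nat_lit 0)
def b0_5 : Bx := Bx.mk (St.mk (I.pos (nat_lit 99483648) (nat_lit 125485056)) (I.mix (nat_lit 8650752) (nat_lit 7847936)) (I.neg (nat_lit 5341184) (nat_lit 25165824)) (I.pos (nat_lit 57950208) (nat_lit 95518720)) (I.mix (nat_lit 36241408) (nat_lit 27721728)) (I.mix (nat_lit 23855104) (nat_lit 23150592)) (I.mix (nat_lit 17547264) (nat_lit 21118976)))
  false (nat_lit 0)
def b0_6 : Bx := Bx.mk (St.mk (I.mix (nat_lit 29392896) (nat_lit 74285056)) (I.mix (nat_lit 5144576) (nat_lit 7946240)) (I.neg (nat_lit 1556480) (nat_lit 13090816)) (I.pos (nat_lit 16646144) (nat_lit 57098240)) (I.mix (nat_lit 19988480) (nat_lit 13959168)) (I.mix (nat_lit 12730368) (nat_lit 12320768)) (I.mix (nat_lit 5799936) (nat_lit 6963200)))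
  false (nat_lit 0)
def b0_7 : Bx := Bx.mk (St.mk (I.pos (nat_lit 194068480) (nat_lit 244645888)) (I.pos (nat_lit 8077312) (nat_lit 51675136)) (I.mix (nat_lit 20692992) (nat_lit 54312960)) (I.pos (nat_lit 193806336) (nat_lit 276873216)) (I.mix (nat_lit 94535680) (nat_lit 77824000)) (I.mix (nat_lit 78348288) (nat_lit 61112320)) (I.mix (nat_lit 132497408) (nat_lit 93126656)))
  false (nat_lit 0)
def b0_8 : Bx := Bx.mk (St.mk (I.pos (nat_lit 215236608) (nat_lit 255475712)) (I.mix (nat_lit 12877824) (nat_lit 11403264)) (I.neg (nat_lit 22528000) (nat_lit 74612736)) (I.pos (nat_lit 211386368) (nat_lit 293961728)) (I.mix (nat_lit 85737472) (nat_lit 19070976)) (I.mix (nat_lit 45416448) (nat_lit 44220416)) (I.mix (nat_lit 66617344) (nat_lit 87146496)))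
  false (nat_lit 0)
def b0_9 : Bx := Bx.mk (St.mk (I.pos (nat_lit 99926016) (nat_lit 177045504)) (I.neg (nat_lit 3489792) (nat_lit 43220992)) (I.neg (nat_lit 15122432) (nat_lit 55967744)) (I.pos (nat_lit 69664768) (nat_lit 151977984)) (I.mix (nat_lit 76169216) (nat_lit 36601856)) (I.mix (nat_lit 35880960) (nat_lit 53575680)) (I.mix (nat_lit 29327360) (nat_lit 54722560)))
  false (nat_lit 0)
def b0_10 : Bx := Bx.mk (St.mk (I.mix (nat_lit 30801920) (nat_lit 103809024)) (I.mix (nat_lit 27049984) (nat_lit 8454144)) (I.neg (nat_lit 720896) (nat_lit 28688384)) (I.pos (nat_lit 13795328) (nat_lit 75399168)) (I.mix (nat_lit 50429952) (nat_lit 41566208)) (I.mix (nat_lit 28082176) (nat_lit 43008000)) (I.mix (nat_lit 17760256) (nat_lit 28999680)))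
  false (nat_lit 0)
def b0_11 : Bx := Bx.mk (St.mk (I.pos (nat_lit 171180032) (nat_lit 216367104)) (I.mix (nat_lit 10272768) (nat_lit 48005120)) (I.mix (nat_lit 17776640) (nat_lit 56557568)) (I.pos (nat_lit 142065664) (nat_lit 221986816)) (I.mix (nat_lit 129220608) (nat_lit 54329344)) (I.mix (nat_lit 97337344) (nat_lit 70369280)) (I.mix (nat_lit 102350848) (nat_lit 79462400)))
  false (nat_lit 0)
def b0_12 : Bx := Bx.mk (St.mk (I.mix (nat_lit 27951104) (nat_lit 126418944)) (I.mix (nat_lit 15761408) (nat_lit 30490624)) (I.mix (nat_lit 25247744) (nat_lit 11960320)) (I.pos (nat_lit 14876672) (nat_lit 95043584)) (I.mix (nat_lit 48922624) (nat_lit 44859392)) (I.mix (nat_lit 46039040) (nat_lit 34226176)) (I.mix (nat_lit 25870336) (nat_lit 18989056)))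
  false (nat_lit 1008520)
def b0_13 : Bx := Bx.mk (St.mk (I.pos (nat_lit 173359104) (nat_lit 211501056)) (I.mix (nat_lit 26476544) (nat_lit 10715136)) (I.mix (nat_lit 45236224) (nat_lit 2260992)) (I.pos (nat_lit 140492800) (nat_lit 204079104)) (I.mix (nat_lit 58048512) (nat_lit 60129280)) (I.mix (nat_lit 60604416) (nat_lit 55427072)) (I.mix (nat_lit 65142784) (nat_lit 54280192)))
  false (nat_lit 16085824)
def b0_14 : Bx := Bx.mk (St.mk (I.pos (nat_lit 149192704) (nat_lit 191692800)) (I.neg (nat_lit 2523136) (nat_lit 33079296)) (I.neg (nat_lit 10862592) (nat_lit 51920896)) (I.pos (nat_lit 109608960) (nat_lit 173129728)) (I.mix (nat_lit 36732928) (nat_lit 32030720)) (I.mix (nat_lit 25706496) (nat_lit 29376512)) (I.mix (nat_lit 28524544) (nat_lit 31440896)))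
  false (nat_lit 0)
def b0_15 : Bx := Bx.mk (St.mk (I.pos (nat_lit 173785088) (nat_lit 212451328)) (I.mix (nat_lit 15204352) (nat_lit 24494080)) (I.mix (nat_lit 29016064) (nat_lit 23396352)) (I.pos (nat_lit 144343040) (nat_lit 206716928)) (I.mix (nat_lit 90046464) (nat_lit 62455808)) (I.mix (nat_lit 90324992) (nat_lit 63471616)) (I.mix (nat_lit 100466688) (nat_lit 66502656)))
  false (nat_lit 0)
def b0_16 : Bx := Bx.mk (St.mk (I.pos (nat_lit 144621568) (nat_lit 191496192)) (I.mix (nat_lit 30720000) (nat_lit 6815744)) (I.neg (nat_lit 1507328) (nat_lit 47808512)) (I.pos (nat_lit 104775680) (nat_lit 173539328)) (I.mix (nat_lit 59457536) (nat_lit 31031296)) (I.mix (nat_lit 44417024) (nat_lit 33718272)) (I.mix (nat_lit 48283648) (nat_lit 37257216)))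
  false (nat_lit 0)
def b0_17 : Bx := Bx.mk (St.mk (I.pos (nat_lit 146456576) (nat_lit 194691072)) (I.mix (nat_lit 31932416) (nat_lit 6127616)) (I.neg (nat_lit 1261568) (nat_lit 50544640)) (I.pos (nat_lit 105496576) (nat_lit 177061888)) (I.mix (nat_lit 52641792) (nat_lit 28196864)) (I.mix (nat_lit 35209216) (nat_lit 32980992)) (I.mix (nat_lit 37322752) (nat_lit 36913152)))
  false (nat_lit 0)
def b0_18 : Bx := Bx.mk (St.mk (I.pos (nat_lit 170819584) (nat_lit 205881344)) (I.mix (nat_lit 27852800) (nat_lit 10076160)) (I.mix (nat_lit 46923776) (nat_lit 1310720)) (I.pos (nat_lit 136478720) (nat_lit 195182592)) (I.mix (nat_lit 61997056) (nat_lit 51036160)) (I.mix (nat_lit 58540032) (nat_lit 50806784)) (I.mix (nat_lit 63160320) (nat_lit 51380224)))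
  false (nat_lit 8443128)
def t0 : BTr := (BTr.n (BTr.n (BTr.n (BTr.n (BTr.b b0_0) (BTr.b b0_1)) (BTr.n (BTr.b b0_2) (BTr.b b0_3))) (BTr.n (BTr.n (BTr.b b0_4) (BTr.b b0_5)) (BTr.n (BTr.b b0_6) (BTr.n (BTr.b b0_7) (BTr.b b0_8))))) (BTr.n (BTr.n (BTr.n (BTr.b b0_9) (BTr.b b0_10)) (BTr.n (BTr.b b0_11) (BTr.n (BTr.b b0_12) (BTr.b b0_13)))) (BTr.n (BTr.n (BTr.b b0_14) (BTr.b b0_15)) (BTr.n (BTr.b b0_16) (BTr.n (BTr.b b0_17) (BTr.b b0_18))))))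
namespace T0
def l0 : Tr := Tr.L (Pth.l (Pth.l (Pth.l (Pth.l Pth.z))))
def l1 : Tr := Tr.L (Pth.l (Pth.l (Pth.l (Pth.r Pth.z))))
def l2 : Tr := Tr.L (Pth.l (Pth.l (Pth.r (Pth.l Pth.z))))
def l3 : Tr := Tr.L (Pth.l (Pth.l (Pth.r (Pth.r Pth.z))))
def l4 : Tr := Tr.L (Pth.l (Pth.r (Pth.l (Pth.l Pth.z))))
def l5 : Tr := Tr.L (Pth.l (Pth.r (Pth.l (Pth.r Pth.z))))
def l6 : Tr := Tr.L (Pth.l (Pth.r (Pth.r (Pth.l Pth.z))))
def l7 : Tr := Tr.L (Pth.l (Pth.r (Pth.r (Pth.r (Pth.l Pth.z)))))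
def l8 : Tr := Tr.L (Pth.l (Pth.r (Pth.r (Pth.r (Pth.r Pth.z)))))
def l9 : Tr := Tr.L (Pth.r (Pth.l (Pth.l (Pth.l Pth.z))))
def l10 : Tr := Tr.L (Pth.r (Pth.l (Pth.l (Pth.r Pth.z))))
def l11 : Tr := Tr.L (Pth.r (Pth.l (Pth.r (Pth.l Pth.z))))
def l12 : Tr := Tr.L (Pth.r (Pth.l (Pth.r (Pth.r (Pth.l Pth.z)))))
def l13 : Tr := Tr.L (Pth.r (Pth.l (Pth.r (Pth.r (Pth.r Pth.z)))))
def l14 : Tr := Tr.L (Pth.r (Pth.r (Pth.l (Pth.l Pth.z))))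
def l15 : Tr := Tr.L (Pth.r (Pth.r (Pth.l (Pth.r Pth.z))))
def l16 : Tr := Tr.L (Pth.r (Pth.r (Pth.r (Pth.l Pth.z))))
def l17 : Tr := Tr.L (Pth.r (Pth.r (Pth.r (Pth.r (Pth.l Pth.z)))))
def l18 : Tr := Tr.L (Pth.r (Pth.r (Pth.r (Pth.r (Pth.r Pth.z)))))
end T0
def b1_0 : Bx := Bx.mk (St.mk (I.pos (nat_lit 136101888) (nat_lit 217415680)) (I.mix (nat_lit 2736128) (nat_lit 89587712)) (I.mix (nat_lit 3014656) (nat_lit 97665024)) (I.pos (nat_lit 364380160) (nat_lit 459718656)) (I.mix (nat_lit 158793728) (nat_lit 98910208)) (I.mix (nat_lit 79642624) (nat_lit 81985536)) (I.mix (nat_lit 103874560) (nat_lit 103055360)))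
  false (nat_lit 149402199)
def b1_1 : Bx := Bx.mk (St.mk (I.pos (nat_lit 17973248) (nat_lit 126353408)) (I.neg (nat_lit 6979584) (nat_lit 87883776)) (I.mix (nat_lit 71925760) (nat_lit 6291456)) (I.pos (nat_lit 265175040) (nat_lit 333807616)) (I.mix (nat_lit 117178368) (nat_lit 78970880)) (I.mix (nat_lit 65748992) (nat_lit 76775424)) (I.mix (nat_lit 68747264) (nat_lit 65732608)))
  false (nat_lit 59812130)
def b1_2 : Bx := Bx.mk (St.mk (I.mix (nat_lit 54427648) (nat_lit 15581184)) (I.mix (nat_lit 14204928) (nat_lit 83361792)) (I.neg (nat_lit 36683776) (nat_lit 66486272)) (I.pos (nat_lit 258998272) (nat_lit 292864000)) (I.mix (nat_lit 46858240) (nat_lit 119275520)) (I.mix (nat_lit 86425600) (nat_lit 54247424)) (I.mix (nat_lit 42778624) (nat_lit 29081600)))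
  true (nat_lit 0)
def b1_3 : Bx := Bx.mk (St.mk (I.pos (nat_lit 92684288) (nat_lit 181944320)) (I.mix (nat_lit 32030720) (nat_lit 76103680)) (I.mix (nat_lit 24854528) (nat_lit 94601216)) (I.pos (nat_lit 299499520) (nat_lit 419905536)) (I.mix (nat_lit 153845760) (nat_lit 68796416)) (I.mix (nat_lit 120406016) (nat_lit 77660160)) (I.mix (nat_lit 116719616) (nat_lit 104120320)))
  false (nat_lit 102171756)
def b1_4 : Bx := Bx.mk (St.mk (I.pos (nat_lit 8732672) (nat_lit 54427648)) (I.neg (nat_lit 33538048) (nat_lit 83361792)) (I.neg (nat_lit 39600128) (nat_lit 66486272)) (I.pos (nat_lit 264421376) (nat_lit 292864000)) (I.mix (nat_lit 119275520) (nat_lit 33996800)) (I.mix (nat_lit 54214656) (nat_lit 75857920)) (I.mix (nat_lit 42778624) (nat_lit 29081600)))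
  false (nat_lit 9747268)
def b1_5 : Bx := Bx.mk (St.mk (I.neg (nat_lit 17973248) (nat_lit 126353408)) (I.pos (nat_lit 5701632) (nat_lit 87883776)) (I.mix (nat_lit 71925760) (nat_lit 8339456)) (I.pos (nat_lit 265175040) (nat_lit 333807616)) (I.mix (nat_lit 78987264) (nat_lit 117243904)) (I.mix (nat_lit 76791808) (nat_lit 65748992)) (I.mix (nat_lit 68763648) (nat_lit 65732608)))
  true (nat_lit 0)
def b1_6 : Bx := Bx.mk (St.mk (I.pos (nat_lit 201490432) (nat_lit 291946496)) (I.mix (nat_lit 19775488) (nat_lit 61456384)) (I.mix (nat_lit 132005888) (nat_lit 38649856)) (I.pos (nat_lit 441810944) (nat_lit 577585152)) (I.mix (nat_lit 71073792) (nat_lit 75317248)) (I.mix (nat_lit 67387392) (nat_lit 61390848)) (I.mix (nat_lit 109281280) (nat_lit 108134400)))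
  false (nat_lit 121513558)
def b1_7 : Bx := Bx.mk (St.mk (I.mix (nat_lit 15089664) (nat_lit 27983872)) (I.mix (nat_lit 41058304) (nat_lit 9469952)) (I.neg (nat_lit 38731776) (nat_lit 53592064)) (I.pos (nat_lit 259457024) (nat_lit 273367040)) (I.mix (nat_lit 50085888) (nat_lit 29032448)) (I.mix (nat_lit 25952256) (nat_lit 28524544)) (I.mix (nat_lit 8437760) (nat_lit 10125312)))
  false (nat_lit 0)
def b1_8 : Bx := Bx.mk (St.mk (I.pos (nat_lit 187203584) (nat_lit 232144896)) (I.pos (nat_lit 12369920) (nat_lit 53395456)) (I.mix (nat_lit 35422208) (nat_lit 29638656)) (I.pos (nat_lit 416792576) (nat_lit 471089152)) (I.mix (nat_lit 86032384) (nat_lit 79380480)) (I.mix (nat_lit 63897600) (nat_lit 56459264)) (I.mix (nat_lit 90980352) (nat_lit 83132416)))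
  false (nat_lit 86040261)
def b1_9 : Bx := Bx.mk (St.mk (I.pos (nat_lit 12304384) (nat_lit 37863424)) (I.neg (nat_lit 13271040) (nat_lit 41189376)) (I.neg (nat_lit 37208064) (nat_lit 52887552)) (I.pos (nat_lit 262520832) (nat_lit 275283968)) (I.mix (nat_lit 63471616) (nat_lit 40730624)) (I.mix (nat_lit 37715968) (nat_lit 41664512)) (I.mix (nat_lit 12189696) (nat_lit 15794176)))
  false (nat_lit 0)
def b1_10 : Bx := Bx.mk (St.mk (I.pos (nat_lit 249036800) (nat_lit 273940480)) (I.mix (nat_lit 24281088) (nat_lit 753664)) (I.neg (nat_lit 82739200) (nat_lit 137854976)) (I.pos (nat_lit 493076480) (nat_lit 540491776)) (I.mix (nat_lit 60456960) (nat_lit 26165248)) (I.mix (nat_lit 37535744) (nat_lit 39518208)) (I.mix (nat_lit 50790400) (nat_lit 77152256)))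
  false (nat_lit 2057709)
def b1_11 : Bx := Bx.mk (St.mk (I.mix (nat_lit 6684672) (nat_lit 21282816)) (I.mix (nat_lit 22724608) (nat_lit 11616256)) (I.neg (nat_lit 38584320) (nat_lit 51363840)) (I.pos (nat_lit 259719168) (nat_lit 269762560)) (I.mix (nat_lit 22953984) (nat_lit 24477696)) (I.mix (nat_lit 15515648) (nat_lit 16941056)) (I.mix (nat_lit 2342912) (nat_lit 7110656)))
  false (nat_lit 0)
def b1_12 : Bx := Bx.mk (St.mk (I.pos (nat_lit 265879552) (nat_lit 275038208)) (I.neg (nat_lit 5685248) (nat_lit 13303808)) (I.neg (nat_lit 95780864) (nat_lit 124928000)) (I.pos (nat_lit 523321344) (nat_lit 543162368)) (I.mix (nat_lit 16941056) (nat_lit 1048576)) (I.mix (nat_lit 5898240) (nat_lit 5816320)) (I.mix (nat_lit 4292608) (nat_lit 17612800)))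
  false (nat_lit 0)
def b1_13 : Bx := Bx.mk (St.mk (I.mix (nat_lit 7061504) (nat_lit 7782400)) (I.mix (nat_lit 8257536) (nat_lit 6914048)) (I.neg (nat_lit 39927808) (nat_lit 50642944)) (I.pos (nat_lit 259981312) (nat_lit 267567104)) (I.mix (nat_lit 5914624) (nat_lit 4636672)) (I.mix (nat_lit 2113536) (nat_lit 3358720)) (I.mix (nat_lit 229376) (nat_lit 4538368)))
  false (nat_lit 0)
def b1_14 : Bx := Bx.mk (St.mk (I.pos (nat_lit 168476672) (nat_lit 226017280)) (I.pos (nat_lit 11354112) (nat_lit 50888704)) (I.mix (nat_lit 37404672) (nat_lit 27738112)) (I.pos (nat_lit 397426688) (nat_lit 459325440)) (I.mix (nat_lit 90587136) (nat_lit 46219264)) (I.mix (nat_lit 56786944) (nat_lit 42205184)) (I.mix (nat_lit 72269824) (nat_lit 65323008)))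
  false (nat_lit 66518357)
def b1_15 : Bx := Bx.mk (St.mk (I.pos (nat_lit 15171584) (nat_lit 46120960)) (I.neg (nat_lit 12959744) (nat_lit 49086464)) (I.neg (nat_lit 36978688) (nat_lit 53821440)) (I.pos (nat_lit 262569984) (nat_lit 279658496)) (I.mix (nat_lit 50774016) (nat_lit 38617088)) (I.mix (nat_lit 30130176) (nat_lit 34471936)) (I.mix (nat_lit 12025856) (nat_lit 14909440)))
  false (nat_lit 0)
def b1_16 : Bx := Bx.mk (St.mk (I.pos (nat_lit 211009536) (nat_lit 281755648)) (I.mix (nat_lit 29622272) (nat_lit 36044800)) (I.neg (nat_lit 6111232) (nat_lit 148324352)) (I.pos (nat_lit 445956096) (nat_lit 555352064)) (I.mix (nat_lit 81854464) (nat_lit 49364992)) (I.mix (nat_lit 51593216) (nat_lit 62472192)) (I.mix (nat_lit 78528512) (nat_lit 118439936)))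
  false (nat_lit 103056133)
def b1_17 : Bx := Bx.mk (St.mk (I.mix (nat_lit 10027008) (nat_lit 27623424)) (I.mix (nat_lit 29835264) (nat_lit 14204928)) (I.neg (nat_lit 38486016) (nat_lit 51888128)) (I.pos (nat_lit 259637248) (nat_lit 271089664)) (I.mix (nat_lit 38518784) (nat_lit 33996800)) (I.mix (nat_lit 25346048) (nat_lit 24002560)) (I.mix (nat_lit 5816320) (nat_lit 9551872)))
  false (nat_lit 0)
def b1_18 : Bx := Bx.mk (St.mk (I.pos (nat_lit 151830528) (nat_lit 209813504)) (I.pos (nat_lit 24854528) (nat_lit 86261760)) (I.mix (nat_lit 3948544) (nat_lit 88064000)) (I.pos (nat_lit 388300800) (nat_lit 447250432)) (I.mix (nat_lit 128483328) (nat_lit 102596608)) (I.mix (nat_lit 89948160) (nat_lit 73302016)) (I.mix (nat_lit 131776512) (nat_lit 97828864)))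
  false (nat_lit 127182081)
def b1_19 : Bx := Bx.mk (St.mk (I.pos (nat_lit 13467648) (nat_lit 46923776)) (I.neg (nat_lit 26378240) (nat_lit 72515584)) (I.neg (nat_lit 38158336) (nat_lit 63651840)) (I.pos (nat_lit 265289728) (nat_lit 286769152)) (I.mix (nat_lit 115605504) (nat_lit 46858240)) (I.mix (nat_lit 46907392) (nat_lit 86425600)) (I.mix (nat_lit 33472512) (nat_lit 28475392)))
  false (nat_lit 0)
def b1_20 : Bx := Bx.mk (St.mk (I.pos (nat_lit 205684736) (nat_lit 293208064)) (I.mix (nat_lit 24641536) (nat_lit 61341696)) (I.mix (nat_lit 140230656) (nat_lit 36814848)) (I.pos (nat_lit 446971904) (nat_lit 579616768)) (I.mix (nat_lit 84836352) (nat_lit 78020608)) (I.mix (nat_lit 75464704) (nat_lit 58671104)) (I.mix (nat_lit 122961920) (nat_lit 107528192)))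
  false (nat_lit 126696644)
def b1_21 : Bx := Bx.mk (St.mk (I.mix (nat_lit 15581184) (nat_lit 28753920)) (I.mix (nat_lit 40583168) (nat_lit 12107776)) (I.neg (nat_lit 38633472) (nat_lit 53657600)) (I.pos (nat_lit 259293184) (nat_lit 273121280)) (I.mix (nat_lit 50839552) (nat_lit 34455552)) (I.mix (nat_lit 24297472) (nat_lit 31588352)) (I.mix (nat_lit 7831552) (nat_lit 10338304)))
  false (nat_lit 0)
def t1 : BTr := (BTr.n (BTr.n (BTr.n (BTr.n (BTr.b b1_0) (BTr.b b1_1)) (BTr.n (BTr.b b1_2) (BTr.n (BTr.b b1_3) (BTr.b b1_4)))) (BTr.n (BTr.n (BTr.b b1_5) (BTr.n (BTr.b b1_6) (BTr.b b1_7))) (BTr.n (BTr.b b1_8) (BTr.n (BTr.b b1_9) (BTr.b b1_10))))) (BTr.n (BTr.n (BTr.n (BTr.b b1_11) (BTr.b b1_12)) (BTr.n (BTr.b b1_13) (BTr.n (BTr.b b1_14) (BTr.b b1_15)))) (BTr.n (BTr.n (BTr.b b1_16) (BTr.n (BTr.b b1_17) (BTr.b b1_18))) (BTr.n (BTr.b b1_19)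 (BTr.n (BTr.b b1_20) (BTr.b b1_21))))))
namespace T1
def l0 : Tr := Tr.L (Pth.l (Pth.l (Pth.l (Pth.l Pth.z))))
def l1 : Tr := Tr.L (Pth.l (Pth.l (Pth.l (Pth.r Pth.z))))
def l2 : Tr := Tr.L (Pth.l (Pth.l (Pth.r (Pth.l Pth.z))))
def l3 : Tr := Tr.L (Pth.l (Pth.l (Pth.r (Pth.r (Pth.l Pth.z)))))
def l4 : Tr := Tr.L (Pth.l (Pth.l (Pth.r (Pth.r (Pth.r Pth.z)))))
def l5 : Tr := Tr.L (Pth.l (Pth.r (Pth.l (Pth.l Pth.z))))
def l6 : Tr := Tr.L (Pth.l (Pth.r (Pth.l (Pth.r (Pth.l Pth.z)))))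
def l7 : Tr := Tr.L (Pth.l (Pth.r (Pth.l (Pth.r (Pth.r Pth.z)))))
def l8 : Tr := Tr.L (Pth.l (Pth.r (Pth.r (Pth.l Pth.z))))
def l9 : Tr := Tr.L (Pth.l (Pth.r (Pth.r (Pth.r (Pth.l Pth.z)))))
def l10 : Tr := Tr.L (Pth.l (Pth.r (Pth.r (Pth.r (Pth.r Pth.z)))))
def l11 : Tr := Tr.L (Pth.r (Pth.l (Pth.l (Pth.l Pth.z))))
def l12 : Tr := Tr.L (Pth.r (Pth.l (Pth.l (Pth.r Pth.z))))
def l13 : Tr := Tr.L (Pth.r (Pth.l (Pth.r (Pth.l Pth.z))))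
def l14 : Tr := Tr.L (Pth.r (Pth.l (Pth.r (Pth.r (Pth.l Pth.z)))))
def l15 : Tr := Tr.L (Pth.r (Pth.l (Pth.r (Pth.r (Pth.r Pth.z)))))
def l16 : Tr := Tr.L (Pth.r (Pth.r (Pth.l (Pth.l Pth.z))))
def l17 : Tr := Tr.L (Pth.r (Pth.r (Pth.l (Pth.r (Pth.l Pth.z)))))
def l18 : Tr := Tr.L (Pth.r (Pth.r (Pth.l (Pth.r (Pth.r Pth.z)))))
def l19 : Tr := Tr.L (Pth.r (Pth.r (Pth.r (Pth.l Pth.z))))
def l20 : Tr := Tr.L (Pth.r (Pth.r (Pth.r (Pth.r (Pth.l Pth.z)))))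
def l21 : Tr := Tr.L (Pth.r (Pth.r (Pth.r (Pth.r (Pth.r Pth.z)))))
end T1
def b2_0 : Bx := Bx.mk (St.mk (I.pos (nat_lit 153812992) (nat_lit 227622912)) (I.mix (nat_lit 1392640) (nat_lit 41811968)) (I.mix (nat_lit 3112960) (nat_lit 101187584)) (I.pos (nat_lit 112721920) (nat_lit 214466560)) (I.mix (nat_lit 106086400) (nat_lit 56606720)) (I.mix (nat_lit 74563584) (nat_lit 60440576)) (I.mix (nat_lit 103628800) (nat_lit 73302016)))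
  false (nat_lit 24497062)
def b2_1 : Bx := Bx.mk (St.mk (I.pos (nat_lit 115490816) (nat_lit 178454528)) (I.neg (nat_lit 4849664) (nat_lit 53411840)) (I.mix (nat_lit 33800192) (nat_lit 22691840)) (I.pos (nat_lit 89128960) (nat_lit 152715264)) (I.mix (nat_lit 71467008) (nat_lit 53657600)) (I.mix (nat_lit 39895040) (nat_lit 50708480)) (I.mix (nat_lit 39862272) (nat_lit 50020352)))
  false (nat_lit 38106431)
def b2_2 : Bx := Bx.mk (St.mk (I.mix (nat_lit 26722304) (nat_lit 103006208)) (I.mix (nat_lit 31391744) (nat_lit 4816896)) (I.mix (nat_lit 8552448) (nat_lit 15712256)) (I.pos (nat_lit 15024128) (nat_lit 73580544)) (I.mix (nat_lit 31178752) (nat_lit 47448064)) (I.mix (nat_lit 27983872) (nat_lit 32620544)) (I.mix (nat_lit 13205504) (nat_lit 18792448)))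
  false (nat_lit 25562238)
def b2_3 : Bx := Bx.mk (St.mk (I.pos (nat_lit 160989184) (nat_lit 202260480)) (I.mix (nat_lit 12976128) (nat_lit 37928960)) (I.pos (nat_lit 21053440) (nat_lit 90816512)) (I.pos (nat_lit 115867648) (nat_lit 180748288)) (I.mix (nat_lit 121126912) (nat_lit 41435136)) (I.mix (nat_lit 97435648) (nat_lit 54755328)) (I.mix (nat_lit 120930304) (nat_lit 43089920)))
  false (nat_lit 35055792)
def b2_4 : Bx := Bx.mk (St.mk (I.mix (nat_lit 26181632) (nat_lit 118669312)) (I.mix (nat_lit 12910592) (nat_lit 30277632)) (I.pos (nat_lit 0) (nat_lit 37568512)) (I.pos (nat_lit 14893056) (nat_lit 86802432)) (I.mix (nat_lit 74760192) (nat_lit 41746432)) (I.mix (nat_lit 60588032) (nat_lit 34471936)) (I.mix (nat_lit 40845312) (nat_lit 20365312)))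
  false (nat_lit 27465762)
def b2_5 : Bx := Bx.mk (St.mk (I.pos (nat_lit 163627008) (nat_lit 203505664)) (I.mix (nat_lit 37322752) (nat_lit 393216)) (I.mix (nat_lit 8290304) (nat_lit 39550976)) (I.pos (nat_lit 121274368) (nat_lit 182927360)) (I.mix (nat_lit 56426496) (nat_lit 72384512)) (I.mix (nat_lit 61194240) (nat_lit 58212352)) (I.mix (nat_lit 57376768) (nat_lit 60440576)))
  false (nat_lit 66987150)
def b2_6 : Bx := Bx.mk (St.mk (I.pos (nat_lit 141606912) (nat_lit 179503104)) (I.neg (nat_lit 3457024) (nat_lit 35586048)) (I.mix (nat_lit 7520256) (nat_lit 27394048)) (I.pos (nat_lit 102711296) (nat_lit 153026560)) (I.mix (nat_lit 65863680) (nat_lit 48726016)) (I.mix (nat_lit 35749888) (nat_lit 46465024)) (I.mix (nat_lit 40042496) (nat_lit 39108608)))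
  false (nat_lit 19325489)
def b2_7 : Bx := Bx.mk (St.mk (I.mix (nat_lit 34553856) (nat_lit 104726528)) (I.mix (nat_lit 17481728) (nat_lit 8339456)) (I.mix (nat_lit 327680) (nat_lit 17432576)) (I.pos (nat_lit 15466496) (nat_lit 75055104)) (I.mix (nat_lit 34160640) (nat_lit 27967488)) (I.mix (nat_lit 23166976) (nat_lit 23805952)) (I.mix (nat_lit 14729216) (nat_lit 12517376)))
  false (nat_lit 0)
def b2_8 : Bx := Bx.mk (St.mk (I.pos (nat_lit 159596544) (nat_lit 200278016)) (I.mix (nat_lit 22413312) (nat_lit 16187392)) (I.pos (nat_lit 10878976) (nat_lit 61095936)) (I.pos (nat_lit 115736576) (nat_lit 174718976)) (I.mix (nat_lit 97370112) (nat_lit 61554688)) (I.mix (nat_lit 91897856) (nat_lit 51331072)) (I.mix (nat_lit 103415808) (nat_lit 45268992)))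
  false (nat_lit 52936518)
def b2_9 : Bx := Bx.mk (St.mk (I.pos (nat_lit 157564928) (nat_lit 193150976)) (I.neg (nat_lit 9863168) (nat_lit 37453824)) (I.mix (nat_lit 10174464) (nat_lit 22003712)) (I.pos (nat_lit 116899840) (nat_lit 172113920)) (I.mix (nat_lit 47382528) (nat_lit 45727744)) (I.mix (nat_lit 41959424) (nat_lit 29818880)) (I.mix (nat_lit 39321600) (nat_lit 28966912)))
  false (nat_lit 17490089)
def b2_10 : Bx := Bx.mk (St.mk (I.mix (nat_lit 28508160) (nat_lit 134578176)) (I.mix (nat_lit 9060352) (nat_lit 25608192)) (I.pos (nat_lit 245760) (nat_lit 34930688)) (I.pos (nat_lit 12697600) (nat_lit 100515840)) (I.mix (nat_lit 53264384) (nat_lit 40648704)) (I.mix (nat_lit 44449792) (nat_lit 33767424)) (I.mix (nat_lit 35323904) (nat_lit 22560768)))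
  false (nat_lit 12901616)
def b2_11 : Bx := Bx.mk (St.mk (I.pos (nat_lit 105971712) (nat_lit 155549696)) (I.mix (nat_lit 50577408) (nat_lit 10928128)) (I.mix (nat_lit 30654464) (nat_lit 24510464)) (I.pos (nat_lit 62455808) (nat_lit 130301952)) (I.mix (nat_lit 78692352) (nat_lit 43909120)) (I.mix (nat_lit 38748160) (nat_lit 59736064)) (I.mix (nat_lit 30130176) (nat_lit 45596672)))
  false (nat_lit 14484919)
def b2_12 : Bx := Bx.mk (St.mk (I.mix (nat_lit 18104320) (nat_lit 100286464)) (I.mix (nat_lit 28180480) (nat_lit 4751360)) (I.mix (nat_lit 6766592) (nat_lit 15663104)) (I.pos (nat_lit 15941632) (nat_lit 69566464)) (I.mix (nat_lit 37158912) (nat_lit 43483136)) (I.mix (nat_lit 30605312) (nat_lit 30097408)) (I.mix (nat_lit 13877248) (nat_lit 13451264)))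
  false (nat_lit 23004640)
def b2_13 : Bx := Bx.mk (St.mk (I.pos (nat_lit 188088320) (nat_lit 235274240)) (I.mix (nat_lit 622592) (nat_lit 22839296)) (I.pos (nat_lit 28065792) (nat_lit 73891840)) (I.pos (nat_lit 166985728) (nat_lit 229670912)) (I.mix (nat_lit 79527936) (nat_lit 35225600)) (I.mix (nat_lit 50970624) (nat_lit 32964608)) (I.mix (nat_lit 79331328) (nat_lit 42237952)))
  false (nat_lit 10353901)
def b2_14 : Bx := Bx.mk (St.mk (I.pos (nat_lit 216465408) (nat_lit 277708800)) (I.mix (nat_lit 22855680) (nat_lit 21725184)) (I.mix (nat_lit 5472256) (nat_lit 74874880)) (I.pos (nat_lit 203554816) (nat_lit 323076096)) (I.mix (nat_lit 62439424) (nat_lit 29458432)) (I.mix (nat_lit 31375360) (nat_lit 43139072)) (I.mix (nat_lit 56868864) (nat_lit 66306048)))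
  false (nat_lit 14970514)
def b2_15 : Bx := Bx.mk (St.mk (I.pos (nat_lit 180469760) (nat_lit 225525760)) (I.pos (nat_lit 7176192) (nat_lit 39485440)) (I.pos (nat_lit 40550400) (nat_lit 98123776)) (I.pos (nat_lit 156467200) (nat_lit 209158144)) (I.mix (nat_lit 91078656) (nat_lit 59424768)) (I.mix (nat_lit 70828032) (nat_lit 51691520)) (I.mix (nat_lit 109494272) (nat_lit 63520768)))
  false (nat_lit 37411475)
def b2_16 : Bx := Bx.mk (St.mk (I.pos (nat_lit 212516864) (nat_lit 285540352)) (I.mix (nat_lit 14909440) (nat_lit 32423936)) (I.pos (nat_lit 7585792) (nat_lit 93306880)) (I.pos (nat_lit 196788224) (nat_lit 338984960)) (I.mix (nat_lit 64552960) (nat_lit 78708736)) (I.mix (nat_lit 77398016) (nat_lit 58114048)) (I.mix (nat_lit 126337024) (nat_lit 96436224)))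
  false (nat_lit 92844708)
def b2_17 : Bx := Bx.mk (St.mk (I.pos (nat_lit 196395008) (nat_lit 228966400)) (I.pos (nat_lit 9240576) (nat_lit 23937024)) (I.pos (nat_lit 45154304) (nat_lit 75284480)) (I.pos (nat_lit 172900352) (nat_lit 216236032)) (I.mix (nat_lit 67141632) (nat_lit 26001408)) (I.mix (nat_lit 41074688) (nat_lit 23969792)) (I.mix (nat_lit 66633728) (nat_lit 28311552)))
  false (nat_lit 0)
def b2_18 : Bx := Bx.mk (St.mk (I.pos (nat_lit 261062656) (nat_lit 281935872)) (I.neg (nat_lit 573440) (nat_lit 15646720)) (I.pos (nat_lit 5341184) (nat_lit 40288256)) (I.pos (nat_lit 278724608) (nat_lit 331710464)) (I.mix (nat_lit 36175872) (nat_lit 34078720)) (I.mix (nat_lit 31244288) (nat_lit 31981568)) (I.mix (nat_lit 55377920) (nat_lit 52150272)))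
  false (nat_lit 936090)
def b2_19 : Bx := Bx.mk (St.mk (I.pos (nat_lit 207405056) (nat_lit 283262976)) (I.mix (nat_lit 3014656) (nat_lit 30752768)) (I.pos (nat_lit 29409280) (nat_lit 89817088)) (I.pos (nat_lit 189104128) (nat_lit 333758464)) (I.mix (nat_lit 62947328) (nat_lit 37126144)) (I.mix (nat_lit 40976384) (nat_lit 27181056)) (I.mix (nat_lit 67420160) (nat_lit 43991040)))
  false (nat_lit 27061661)
def b2_20 : Bx := Bx.mk (St.mk (I.pos (nat_lit 196575232) (nat_lit 236863488)) (I.mix (nat_lit 524288) (nat_lit 27262976)) (I.pos (nat_lit 28131328) (nat_lit 83394560)) (I.pos (nat_lit 177192960) (nat_lit 233783296)) (I.mix (nat_lit 74383360) (nat_lit 42958848)) (I.mix (nat_lit 50790400) (nat_lit 35438592)) (I.mix (nat_lit 80822272) (nat_lit 47251456)))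
  false (nat_lit 27954610)
def b2_21 : Bx := Bx.mk (St.mk (I.pos (nat_lit 252887040) (nat_lit 270254080)) (I.neg (nat_lit 1196032) (nat_lit 18251776)) (I.pos (nat_lit 2080768) (nat_lit 36061184)) (I.pos (nat_lit 264732672) (nat_lit 307953664)) (I.mix (nat_lit 57229312) (nat_lit 23986176)) (I.mix (nat_lit 33832960) (nat_lit 36618240)) (I.mix (nat_lit 61374464) (nat_lit 56737792)))
  false (nat_lit 0)
def t2 : BTr := (BTr.n (BTr.n (BTr.n (BTr.n (BTr.b b2_0) (BTr.b b2_1)) (BTr.n (BTr.b b2_2) (BTr.n (BTr.b b2_3) (BTr.b b2_4)))) (BTr.n (BTr.n (BTr.b b2_5) (BTr.n (BTr.b b2_6) (BTr.b b2_7))) (BTr.n (BTr.b b2_8) (BTr.n (BTr.b b2_9) (BTr.b b2_10))))) (BTr.n (BTr.n (BTr.n (BTr.b b2_11) (BTr.b b2_12)) (BTr.n (BTr.b b2_13) (BTr.n (BTr.b b2_14) (BTr.b b2_15)))) (BTr.n (BTr.n (BTr.b b2_16) (BTr.n (BTr.b b2_17) (BTr.b b2_18))) (BTr.n (BTr.b b2_19)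 (BTr.n (BTr.b b2_20) (BTr.b b2_21))))))
namespace T2
def l0 : Tr := Tr.L (Pth.l (Pth.l (Pth.l (Pth.l Pth.z))))
def l1 : Tr := Tr.L (Pth.l (Pth.l (Pth.l (Pth.r Pth.z))))
def l2 : Tr := Tr.L (Pth.l (Pth.l (Pth.r (Pth.l Pth.z))))
def l3 : Tr := Tr.L (Pth.l (Pth.l (Pth.r (Pth.r (Pth.l Pth.z)))))
def l4 : Tr := Tr.L (Pth.l (Pth.l (Pth.r (Pth.r (Pth.r Pth.z)))))
def l5 : Tr := Tr.L (Pth.l (Pth.r (Pth.l (Pth.l Pth.z))))
def l6 : Tr := Tr.L (Pth.l (Pth.r (Pth.l (Pth.r (Pth.l Pth.z)))))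
def l7 : Tr := Tr.L (Pth.l (Pth.r (Pth.l (Pth.r (Pth.r Pth.z)))))
def l8 : Tr := Tr.L (Pth.l (Pth.r (Pth.r (Pth.l Pth.z))))
def l9 : Tr := Tr.L (Pth.l (Pth.r (Pth.r (Pth.r (Pth.l Pth.z)))))
def l10 : Tr := Tr.L (Pth.l (Pth.r (Pth.r (Pth.r (Pth.r Pth.z)))))
def l11 : Tr := Tr.L (Pth.r (Pth.l (Pth.l (Pth.l Pth.z))))
def l12 : Tr := Tr.L (Pth.r (Pth.l (Pth.l (Pth.r Pth.z))))
def l13 : Tr := Tr.L (Pth.r (Pth.l (Pth.r (Pth.l Pth.z))))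
def l14 : Tr := Tr.L (Pth.r (Pth.l (Pth.r (Pth.r (Pth.l Pth.z)))))
def l15 : Tr := Tr.L (Pth.r (Pth.l (Pth.r (Pth.r (Pth.r Pth.z)))))
def l16 : Tr := Tr.L (Pth.r (Pth.r (Pth.l (Pth.l Pth.z))))
def l17 : Tr := Tr.L (Pth.r (Pth.r (Pth.l (Pth.r (Pth.l Pth.z)))))
def l18 : Tr := Tr.L (Pth.r (Pth.r (Pth.l (Pth.r (Pth.r Pth.z)))))
def l19 : Tr := Tr.L (Pth.r (Pth.r (Pth.r (Pth.l Pth.z))))
def l20 : Tr := Tr.L (Pth.r (Pth.r (Pth.r (Pth.r (Pth.l Pth.z)))))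
def l21 : Tr := Tr.L (Pth.r (Pth.r (Pth.r (Pth.r (Pth.r Pth.z)))))
end T2
theorem bx0_0 : BoxOK sI cl4 cl9 cl9 t1 t1 b0_0 :=
  box_mk (TrL.c (I.pos (nat_lit 0) (nat_lit 0)) (xa (xb (xa (xb T1.l0 (xa T1.l0 T1.l0)) (xb T1.l0 T1.l0)) (xa (xb (xa (xb T1.l0 T1.l0) T1.l0) (xa (xb T1.l0 T1.l0) (xb T1.l0 T1.l0))) (xb T1.l0 (xa T1.l0 (xb T1.l0 T1.l0))))) (xb (xa T1.l0 (xb T1.l0 T1.l0)) (xa (xb T1.l0 (xa (xs T1.l0 (xb T1.l0 T1.l0)) (xs T1.l0 (xb T1.l0 T1.l0)))) (xb T1.l0 (xa (xs T1.l0 (xb T1.l0 T1.l0)) (xs T1.l0 (xb T1.l0 T1.l0)))))))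
  (TrL.c (I.pos (nat_lit 0) (nat_lit 0)) (xa (xb T1.l1 (xa T1.l1 T1.l1)) (xb T1.l1 (xa T1.l1 (xb T1.l1 T1.l1))))
  (TrL.c (I.pos (nat_lit 0) (nat_lit 0)) (xa T1.l2 (xb T1.l2 (xa T1.l2 T1.l2)))
  (TrL.c (I.pos (nat_lit 0) (nat_lit 0)) (xa (xb T1.l3 T1.l3) (xb (xa T1.l3 (xb (xa T1.l3 (xd T1.l3 T1.l3)) T1.l3)) (xa (xb T1.l3 (xa T1.l3 (xd T1.l3 T1.l3))) (xb (xd (xa T1.l3 T1.l3) T1.l3) (xd (xa (xs T1.l3 T1.l3) (xs T1.l3 (xe T1.l3 T1.l3))) (xa (xs T1.l3 T1.l3) (xs T1.l3 (xe T1.l3 T1.l3))))))))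
  (TrL.c (I.pos (nat_lit 0) (nat_lit 0)) (xa (xb T1.l4 T1.l4) (xb T1.l1 (xa T1.l4 T1.l4)))
  (TrL.c (I.pos (nat_lit 0) (nat_lit 0)) (xa (xb T1.l5 (xa T1.l5 T1.l5)) (xb T1.l5 (xa T1.l5 (xb T1.l5 T1.l5))))
  TrL.n)))))) (by decide +kernel)
theorem bx0_1 : BoxOK sI cl4 cl9 cl9 t1 t1 b0_1 :=
  box_mk (TrL.c (I.pos (nat_lit 0) (nat_lit 0)) (xa (xa (xb (xa (xb (xa (xb (xa T1.l6 T1.l6) T1.l6) T1.l6) (xa (xb T1.l6 T1.l6) T1.l6)) (xb T1.l6 T1.l6)) (xa (xb (xa (xb T1.l6 T1.l6) T1.l6) (xa (xb (xa T1.l6 T1.l6) (xa T1.l6 T1.l6)) (xb T1.l6 (xa T1.l6 T1.l6)))) (xb T1.l6 (xa (xb T1.l6 T1.l20) T1.l20)))) (xb (xa T1.l6 T1.l6) (xa (xb T1.l6 (xa T1.l20 T1.l6)) T1.l20))) (xa (xb T1.l6 T1.l20) (xb (xa T1.l6 (xb T1.l8 T1.l6)) (xa T1.l6 (xa T1.l6 (xb T1.l6 T1.l6))))))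
  (TrL.c (I.pos (nat_lit 0) (nat_lit 0)) (xa T1.l1 T1.l1)
  (TrL.c (I.pos (nat_lit 0) (nat_lit 0)) (xa T1.l2 T1.l2)
  (TrL.c (I.pos (nat_lit 0) (nat_lit 0)) (xa (xa T1.l1 T1.l3) T1.l3)
  (TrL.c (I.pos (nat_lit 0) (nat_lit 0)) (xa T1.l7 (xa T1.l7 T1.l7))
  (TrL.c (I.pos (nat_lit 0) (nat_lit 0)) (xa T1.l5 T1.l5)
  TrL.n)))))) (by decide +kernel)
theorem bx0_2 : BoxOK sI cl4 cl9 cl9 t1 t1 b0_2 :=
  box_mk (TrL.c (I.pos (nat_lit 0) (nat_lit 0)) (xb (xa (xb T1.l8 T1.l8) (xb T1.l8 T1.l8)) (xa (xb T1.l8 (xa T1.l8 T1.l8)) (xb T1.l8 (xa T1.l8 T1.l8))))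
  (TrL.c (I.pos (nat_lit 0) (nat_lit 0)) T1.l1
  (TrL.c (I.pos (nat_lit 0) (nat_lit 0)) T1.l2
  (TrL.c (I.pos (nat_lit 0) (nat_lit 0)) T1.l3
  (TrL.c (I.pos (nat_lit 0) (nat_lit 0)) T1.l9
  (TrL.c (I.pos (nat_lit 0) (nat_lit 0)) T1.l5
  TrL.n)))))) (by decide +kernel)
theorem bx0_3 : BoxOK sI cl4 cl9 cl9 t1 t1 b0_3 :=
  box_mk (TrL.c (I.pos (nat_lit 0) (nat_lit 0)) (xa (xa (xb T1.l16 T1.l20) T1.l6) T1.l6)
  (TrL.c (I.pos (nat_lit 0) (nat_lit 0)) (xa T1.l1 T1.l1)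
  (TrL.c (I.pos (nat_lit 0) (nat_lit 0)) T1.l2
  (TrL.c (I.pos (nat_lit 0) (nat_lit 0)) (xa (xa T1.l1 T1.l3) T1.l3)
  (TrL.c (I.pos (nat_lit 0) (nat_lit 0)) T1.l17
  (TrL.c (I.pos (nat_lit 0) (nat_lit 0)) (xa T1.l5 T1.l5)
  TrL.n)))))) (by decide +kernel)
theorem bx0_4 : BoxOK sI cl4 cl9 cl9 t1 t1 b0_4 :=
  box_mk (TrL.c (I.pos (nat_lit 0) (nat_lit 0)) (xa (xb (xa T1.l0 T1.l0) (xa T1.l0 T1.l0)) (xb (xa T1.l0 T1.l3) (xa T1.l0 (xb T1.l0 T1.l0))))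
  (TrL.c (I.pos (nat_lit 0) (nat_lit 0)) (xa T1.l1 (xb T1.l1 T1.l1))
  (TrL.c (I.pos (nat_lit 0) (nat_lit 0)) T1.l5
  (TrL.c (I.pos (nat_lit 0) (nat_lit 0)) (xa T1.l3 (xb (xa T1.l3 (xb (xd T1.l3 (xc T1.l3 T1.l3)) T1.l3)) (xa T1.l3 (xb T1.l3 (xd (xc T1.l3 T1.l3) (xc T1.l3 T1.l3))))))
  (TrL.c (I.pos (nat_lit 0) (nat_lit 0)) T1.l1
  (TrL.c (I.pos (nat_lit 0) (nat_lit 0)) (xa T1.l5 (xb T1.l5 T1.l5))
  TrL.n)))))) (by decide +kernel)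
theorem bx0_5 : BoxOK sI cl4 cl9 cl9 t1 t1 b0_5 :=
  box_mk (TrL.c (I.pos (nat_lit 0) (nat_lit 0)) T1.l6
  (TrL.c (I.pos (nat_lit 0) (nat_lit 0)) T1.l1
  (TrL.c (I.pos (nat_lit 0) (nat_lit 0)) T1.l2
  (TrL.c (I.pos (nat_lit 0) (nat_lit 0)) T1.l3
  (TrL.c (I.pos (nat_lit 0) (nat_lit 0)) T1.l7
  (TrL.c (I.pos (nat_lit 0) (nat_lit 0)) T1.l5
  TrL.n)))))) (by decide +kernel)
theorem bx0_6 : BoxOK sI cl4 cl9 cl9 t1 t1 b0_6 :=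
  box_mk (TrL.c (I.pos (nat_lit 0) (nat_lit 0)) (xa (xa (xa (xb T1.l16 T1.l20) T1.l6) T1.l6) T1.l6)
  (TrL.c (I.pos (nat_lit 0) (nat_lit 0)) T1.l1
  (TrL.c (I.pos (nat_lit 0) (nat_lit 0)) T1.l2
  (TrL.c (I.pos (nat_lit 0) (nat_lit 0)) (xa T1.l1 T1.l3)
  (TrL.c (I.pos (nat_lit 0) (nat_lit 0)) T1.l7
  (TrL.c (I.pos (nat_lit 0) (nat_lit 0)) T1.l5
  TrL.n)))))) (by decide +kernel)
theorem c0_7_0 : chkTag sI cl4 cl9 cl9 t1 b0_7 (tg true true false RT.r2) (I.pos (nat_lit 0) (nat_lit 0))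
  (xa (xb (xa (xb T1.l0 (xa T1.l0 T1.l0)) (xb T1.l0 (xa T1.l0 T1.l0))) (xa (xb (xa T1.l0 T1.l0) (xs T1.l0 (xa T1.l0 T1.l0))) (xb (xs T1.l0 (xa T1.l0 T1.l0)) (xs T1.l0 (xa T1.l0 T1.l0))))) (xb (xa (xb T1.l0 (xa T1.l0 T1.l0)) (xb T1.l0 (xs T1.l0 T1.l0))) (xa (xb (xs T1.l0 (xa T1.l0 T1.l0)) (xs T1.l0 (xa T1.l0 T1.l0))) (xb (xs T1.l0 (xa T1.l0 T1.l0)) (xs (xa T1.l0 T1.l0) (xa T1.l0 T1.l0)))))) = true := by decide +kernel
theorem c0_7_1 : chkTag sI cl4 cl9 cl9 t1 b0_7 (tg true false false RT.r3) (I.pos (nat_lit 0) (nat_lit 0))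
  (xa (xb T1.l1 (xa T1.l1 T1.l1)) (xb T1.l1 (xa T1.l1 T1.l1))) = true := by decide +kernel
theorem c0_7_2 : chkTag sI cl4 cl9 cl9 t1 b0_7 (tg true true true RT.r4) (I.pos (nat_lit 0) (nat_lit 0))
  (xa (xb T1.l2 T1.l2) T1.l5) = true := by decide +kernel
theorem c0_7_3 : chkTag sI cl4 cl9 cl9 t1 b0_7 (tg false false false RT.r3) (I.pos (nat_lit 0) (nat_lit 0))
  (xa (xb (xa T1.l3 (xb (xd T1.l3 T1.l3) (xd T1.l3 T1.l3))) (xa T1.l3 (xb T1.l3 T1.l3))) (xb (xa (xb (xd (xc T1.l3 T1.l3) (xc T1.l3 T1.l3)) (xd (xc T1.l3 T1.l3) (xc T1.l3 T1.l3))) (xb (xd (xc (xe T1.l3 T1.l3) (xe T1.l3 T1.l3)) (xc (xe T1.l3 T1.l3) (xe T1.l3 T1.l3))) (xd (xc (xe T1.l3 T1.l3) (xs T1.l3 T1.l3)) (xc (xe T1.l3 T1.l3) (xs T1.l3 T1.l3))))) (xa (xb (xd T1.l3 T1.l3) (xd T1.l3 T1.l3)) (xb (xd (xs T1.l3 (xc T1.l3 (xe T1.l3 T1.l3))) (xc (xs T1.l3 T1.l3) T1.l3)) (xd (xs (xe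 (xc T1.l3 T1.l3) T1.l3) (xc (xe T1.l3 T1.l3) (xe T1.l3 T1.l3))) (xs (xc (xe T1.l3 T1.l3) T1.l3) (xc (xe T1.l3 T1.l3) (xe T1.l3 T1.l3)))))))) = true := by decide +kernel
theorem c0_7_4 : chkTag sI cl4 cl9 cl9 t1 b0_7 (tg false true false RT.r4) (I.pos (nat_lit 0) (nat_lit 0))
  (xa (xb T1.l1 T1.l4) T1.l1) = true := by decide +kernel
theorem c0_7_5 : chkTag sI cl4 cl9 cl9 t1 b0_7 (tg false false true RT.r5) (I.pos (nat_lit 0) (nat_lit 0))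
  (xa (xb T1.l5 (xa T1.l5 T1.l5)) (xb T1.l5 (xa T1.l5 T1.l5))) = true := by decide +kernel
theorem bx0_7 : BoxOK sI cl4 cl9 cl9 t1 t1 b0_7 :=
  box_mk' [(tg true true false RT.r2), (tg true false false RT.r3), (tg true true true RT.r4), (tg false false false RT.r3), (tg false true false RT.r4), (tg false false true RT.r5)] rfl (allL_c (ex_mk c0_7_0) (allL_c (ex_mk c0_7_1) (allL_c (ex_mk c0_7_2) (allL_c (ex_mk c0_7_3) (allL_c (ex_mk c0_7_4) (allL_c (ex_mk c0_7_5) allL_n))))))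
theorem bx0_8 : BoxOK sI cl4 cl9 cl9 t1 t1 b0_8 :=
  box_mk (TrL.c (I.pos (nat_lit 0) (nat_lit 0)) (xa T1.l0 T1.l3)
  (TrL.c (I.pos (nat_lit 0) (nat_lit 0)) (xa T1.l1 T1.l1)
  (TrL.c (I.pos (nat_lit 0) (nat_lit 0)) T1.l5
  (TrL.c (I.pos (nat_lit 0) (nat_lit 0)) (xa T1.l3 (xb (xa T1.l0 (xd T1.l0 T1.l0)) (xa T1.l3 (xd T1.l3 T1.l3))))
  (TrL.c (I.pos (nat_lit 0) (nat_lit 0)) T1.l1
  (TrL.c (I.pos (nat_lit 0) (nat_lit 0)) (xa T1.l5 T1.l5)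
  TrL.n)))))) (by decide +kernel)
theorem bx0_9 : BoxOK sI cl4 cl9 cl9 t1 t1 b0_9 :=
  box_mk (TrL.c (I.pos (nat_lit 0) (nat_lit 0)) (xa (xb (xa (xb T1.l14 T1.l8) (xb T1.l14 T1.l8)) (xa T1.l8 T1.l8)) (xb (xa (xb T1.l14 T1.l14) T1.l14) (xa (xa T1.l8 T1.l0) T1.l0)))
  (TrL.c (I.pos (nat_lit 0) (nat_lit 0)) T1.l1
  (TrL.c (I.pos (nat_lit 0) (nat_lit 0)) T1.l2
  (TrL.c (I.pos (nat_lit 0) (nat_lit 0)) (xa T1.l3 T1.l3)
  (TrL.c (I.pos (nat_lit 0) (nat_lit 0)) (xa T1.l15 T1.l1)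
  (TrL.c (I.pos (nat_lit 0) (nat_lit 0)) T1.l5
  TrL.n)))))) (by decide +kernel)
theorem bx0_10 : BoxOK sI cl4 cl9 cl9 t1 t1 b0_10 :=
  box_mk (TrL.c (I.pos (nat_lit 0) (nat_lit 0)) (xa (xa (xb (xa (xb (xa (xb (xs T1.l16 T1.l16) (xa T1.l16 T1.l16)) (xb T1.l16 T1.l16)) (xa (xb T1.l16 T1.l16) T1.l16)) (xb T1.l16 T1.l16)) (xa (xb (xa (xb T1.l16 T1.l20) T1.l16) (xa T1.l20 T1.l6)) T1.l6)) (xb (xa T1.l16 T1.l16) T1.l6)) (xa T1.l20 (xb (xa T1.l16 T1.l6) T1.l6)))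
  (TrL.c (I.pos (nat_lit 0) (nat_lit 0)) (xa (xa T1.l3 T1.l1) T1.l1)
  (TrL.c (I.pos (nat_lit 0) (nat_lit 0)) (xa T1.l2 T1.l2)
  (TrL.c (I.pos (nat_lit 0) (nat_lit 0)) (xa (xa T1.l1 T1.l3) T1.l3)
  (TrL.c (I.pos (nat_lit 0) (nat_lit 0)) (xa T1.l17 T1.l17)
  (TrL.c (I.pos (nat_lit 0) (nat_lit 0)) (xa (xa T1.l5 T1.l5) T1.l5)
  TrL.n)))))) (by decide +kernel)
theorem bx0_11 : BoxOK sI cl4 cl9 cl9 t1 t1 b0_11 :=
  box_mk (TrL.c (I.pos (nat_lit 0) (nat_lit 0)) (xb (xa (xb (xa T1.l18 T1.l18) (xa T1.l18 T1.l18)) (xb (xa T1.l18 T1.l18) (xa T1.l18 T1.l18))) (xa (xb (xa (xb T1.l18 T1.l18) (xb T1.l18 T1.l18)) (xa (xb T1.l18 (xs T1.l18 T1.l18)) (xb T1.l18 (xs T1.l18 T1.l18)))) (xb (xa T1.l18 (xb T1.l18 T1.l18)) (xa (xb T1.l18 (xs T1.l18 T1.l18)) (xb (xs T1.l18 T1.l18) (xs T1.l18 T1.l18))))))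
  (TrL.c (I.pos (nat_lit 0) (nat_lit 0)) (xb (xa T1.l1 T1.l1) (xa (xb T1.l1 T1.l1) (xb T1.l1 T1.l1)))
  (TrL.c (I.pos (nat_lit 0) (nat_lit 0)) (xb (xa T1.l2 T1.l2) (xa T1.l2 T1.l2))
  (TrL.c (I.pos (nat_lit 0) (nat_lit 0)) (xb (xa (xb (xa T1.l3 T1.l3) T1.l3) (xb (xa (xd T1.l3 T1.l3) (xd T1.l3 T1.l3)) (xa T1.l3 (xd (xc T1.l3 T1.l3) (xc T1.l3 T1.l3))))) (xa (xb T1.l3 (xa T1.l3 (xd T1.l3 T1.l3))) (xb (xa (xd T1.l3 T1.l3) (xd (xc T1.l3 (xe T1.l3 T1.l3)) (xc T1.l3 (xe T1.l3 T1.l3)))) (xa (xd (xc T1.l3 T1.l3) (xc T1.l3 T1.l3)) (xd (xc (xs T1.l3 T1.l3) (xs (xe T1.l3 T1.l3) (xe T1.l3 T1.l3))) (xc (xs T1.l3 T1.l3) (xs T1.l3 (xe T1.l3 T1.l3))))))))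
  (TrL.c (I.pos (nat_lit 0) (nat_lit 0)) (xb (xa T1.l19 T1.l19) (xa T1.l19 T1.l19))
  (TrL.c (I.pos (nat_lit 0) (nat_lit 0)) (xb (xa T1.l5 T1.l5) (xa (xb T1.l5 T1.l5) (xb T1.l5 T1.l5)))
  TrL.n)))))) (by decide +kernel)
theorem bx0_12 : BoxOK sI cl4 cl9 cl9 t1 t1 b0_12 :=
  box_mk (TrL.c (I.pos (nat_lit 0) (nat_lit 0)) (xa (xa (xb (xa (xb (xa (xb (xa T1.l20 T1.l20) T1.l20) T1.l20) (xa T1.l20 T1.l20)) (xb T1.l20 T1.l20)) (xa (xb (xa T1.l20 T1.l20) (xa (xb T1.l20 (xa T1.l20 T1.l20)) (xb T1.l20 (xa T1.l20 T1.l20)))) (xb T1.l20 (xa (xb T1.l20 (xa T1.l20 T1.l20)) (xb T1.l20 (xa T1.l20 T1.l20)))))) (xb T1.l20 (xa (xb T1.l20 (xa (xb T1.l20 T1.l20) (xb T1.l20 T1.l20))) (xb T1.l20 (xa T1.l20 T1.l20))))) (xa (xb T1.l20 (xa T1.l20 T1.l20)) (xb (xa T1.l20 (xb T1.l8 T1.l6)) (xa T1.l20 (xb T1.l6 (xa T1.l20 T1.l6))))))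
  (TrL.c (I.pos (nat_lit 0) (nat_lit 0)) (xa (xa (xb T1.l1 T1.l1) T1.l1) T1.l1)
  (TrL.c (I.pos (nat_lit 0) (nat_lit 0)) (xa T1.l2 T1.l2)
  (TrL.c (I.pos (nat_lit 0) (nat_lit 0)) (xa (xa T1.l1 T1.l3) T1.l3)
  (TrL.c (I.pos (nat_lit 0) (nat_lit 0)) (xa T1.l21 (xa T1.l21 T1.l21))
  (TrL.c (I.pos (nat_lit 0) (nat_lit 0)) (xa (xa (xb T1.l5 T1.l5) T1.l5) T1.l5)
  TrL.n)))))) (by decide +kernel)
theorem bx0_13 : BoxOK sI cl4 cl9 cl9 t1 t1 b0_13 :=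
  box_mk (TrL.c (I.pos (nat_lit 0) (nat_lit 0)) T1.l0
  (TrL.c (I.pos (nat_lit 0) (nat_lit 0)) T1.l1
  (TrL.c (I.pos (nat_lit 0) (nat_lit 0)) T1.l2
  (TrL.c (I.pos (nat_lit 0) (nat_lit 0)) (xb (xa T1.l3 (xb T1.l3 T1.l3)) T1.l3)
  (TrL.c (I.pos (nat_lit 0) (nat_lit 0)) T1.l1
  (TrL.c (I.pos (nat_lit 0) (nat_lit 0)) T1.l5
  TrL.n)))))) (by decide +kernel)
theorem bx0_14 : BoxOK sI cl4 cl9 cl9 t1 t1 b0_14 :=
  box_mk (TrL.c (I.pos (nat_lit 0) (nat_lit 0)) (xa (xb T1.l0 T1.l0) T1.l18)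
  (TrL.c (I.pos (nat_lit 0) (nat_lit 0)) T1.l1
  (TrL.c (I.pos (nat_lit 0) (nat_lit 0)) T1.l2
  (TrL.c (I.pos (nat_lit 0) (nat_lit 0)) T1.l3
  (TrL.c (I.pos (nat_lit 0) (nat_lit 0)) T1.l1
  (TrL.c (I.pos (nat_lit 0) (nat_lit 0)) T1.l5
  TrL.n)))))) (by decide +kernel)
theorem bx0_15 : BoxOK sI cl4 cl9 cl9 t1 t1 b0_15 :=
  box_mk (TrL.c (I.pos (nat_lit 0) (nat_lit 0)) (xb (xa T1.l18 (xb T1.l18 T1.l18)) (xa T1.l18 (xb T1.l18 T1.l18)))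
  (TrL.c (I.pos (nat_lit 0) (nat_lit 0)) T1.l1
  (TrL.c (I.pos (nat_lit 0) (nat_lit 0)) T1.l5
  (TrL.c (I.pos (nat_lit 0) (nat_lit 0)) (xb (xa (xb (xa T1.l3 (xd T1.l3 T1.l3)) T1.l3) (xb (xa (xd T1.l3 T1.l3) (xd T1.l3 T1.l3)) T1.l3)) T1.l3)
  (TrL.c (I.pos (nat_lit 0) (nat_lit 0)) T1.l1
  (TrL.c (I.pos (nat_lit 0) (nat_lit 0)) T1.l5
  TrL.n)))))) (by decide +kernel)
theorem bx0_16 : BoxOK sI cl4 cl9 cl9 t1 t1 b0_16 :=
  box_mk (TrL.c (I.pos (nat_lit 0) (nat_lit 0)) (xa (xb (xa T1.l14 T1.l18) T1.l0) T1.l18)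
  (TrL.c (I.pos (nat_lit 0) (nat_lit 0)) T1.l1
  (TrL.c (I.pos (nat_lit 0) (nat_lit 0)) T1.l2
  (TrL.c (I.pos (nat_lit 0) (nat_lit 0)) T1.l3
  (TrL.c (I.pos (nat_lit 0) (nat_lit 0)) T1.l1
  (TrL.c (I.pos (nat_lit 0) (nat_lit 0)) T1.l5
  TrL.n)))))) (by decide +kernel)
theorem bx0_17 : BoxOK sI cl4 cl9 cl9 t1 t1 b0_17 :=
  box_mk (TrL.c (I.pos (nat_lit 0) (nat_lit 0)) (xa (xb (xa T1.l18 T1.l18) T1.l0) T1.l18)
  (TrL.c (I.pos (nat_lit 0) (nat_lit 0)) T1.l1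
  (TrL.c (I.pos (nat_lit 0) (nat_lit 0)) T1.l2
  (TrL.c (I.pos (nat_lit 0) (nat_lit 0)) T1.l3
  (TrL.c (I.pos (nat_lit 0) (nat_lit 0)) T1.l1
  (TrL.c (I.pos (nat_lit 0) (nat_lit 0)) T1.l5
  TrL.n)))))) (by decide +kernel)
theorem bx0_18 : BoxOK sI cl4 cl9 cl9 t1 t1 b0_18 :=
  box_mk (TrL.c (I.pos (nat_lit 0) (nat_lit 0)) T1.l0
  (TrL.c (I.pos (nat_lit 0) (nat_lit 0)) T1.l1
  (TrL.c (I.pos (nat_lit 0) (nat_lit 0)) T1.l2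
  (TrL.c (I.pos (nat_lit 0) (nat_lit 0)) (xb T1.l3 T1.l3)
  (TrL.c (I.pos (nat_lit 0) (nat_lit 0)) T1.l1
  (TrL.c (I.pos (nat_lit 0) (nat_lit 0)) T1.l5
  TrL.n)))))) (by decide +kernel)
theorem sv0 : StarV sI cl4 cl9 cl9 t1 t1 t0 :=
  (bt_n (bt_n (bt_n (bt_n (bt_b bx0_0) (bt_b bx0_1)) (bt_n (bt_b bx0_2) (bt_b bx0_3))) (bt_n (bt_n (bt_b bx0_4) (bt_b bx0_5)) (bt_n (bt_b bx0_6) (bt_n (bt_b bx0_7) (bt_b bx0_8))))) (bt_n (bt_n (bt_n (bt_b bx0_9) (bt_b bx0_10)) (bt_n (bt_b bx0_11) (bt_n (bt_b bx0_12) (bt_b bx0_13)))) (bt_n (bt_n (bt_b bx0_14) (bt_b bx0_15)) (bt_n (bt_b bx0_16) (bt_n (bt_b bx0_17) (bt_b bx0_18))))))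
def S0 : StarD := StarD.mk cl4 cl9 cl9 1 1 t0
theorem bx1_0 : BoxOK sI cl9 cl4 cl9 t0 t2 b1_0 :=
  box_mk (TrL.c (I.pos (nat_lit 0) (nat_lit 0)) (xb (xa (xb T0.l0 (xa T0.l0 T0.l0)) (xb T0.l0 T0.l0)) (xa (xb (xa (xb T0.l0 T0.l0) T0.l0) (xa (xb (xs T0.l0 T0.l0) (xs T0.l0 (xa T0.l0 T0.l0))) (xb (xs T0.l0 T0.l0) (xs T0.l0 (xa T0.l0 T0.l0))))) (xb (xa T0.l0 T0.l0) (xa (xs (xb T0.l0 T0.l0) (xb T0.l0 (xa T0.l0 T0.l0))) (xs (xb T0.l0 T0.l0) (xb T0.l0 T0.l0))))))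
  (TrL.c (I.pos (nat_lit 0) (nat_lit 0)) (xb (xa T2.l1 T2.l1) (xa (xk T2.l1 T2.l1) (xk T2.l1 T2.l1)))
  (TrL.c (I.pos (nat_lit 0) (nat_lit 124588530)) (xR T0.l1 T0.l1)
  (TrL.c (I.pos (nat_lit 0) (nat_lit 96881482)) T2.l2
  (TrL.c (I.pos (nat_lit 0) (nat_lit 0)) (xb (xa (xk (xb (xa T2.l3 T2.l3) T2.l3) (xb T2.l8 T2.l3)) (xk (xb (xa T2.l8 (xk T2.l3 T2.l3)) (xa T2.l3 (xk T2.l3 T2.l3))) (xb (xa T2.l3 (xk T2.l3 T2.l3)) (xa T2.l3 T2.l3)))) (xa (xk (xb T2.l3 (xa T2.l3 T2.l3)) (xb T2.l3 (xa T2.l3 T2.l3))) (xk (xb (xa T2.l3 (xk T2.l3 T2.l3)) (xa T2.l3 (xk T2.l3 T2.l3))) (xb (xa T2.l3 (xk T2.l3 T2.l3)) (xa T2.l3 (xk T2.l3 T2.l3))))))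
  (TrL.c (I.pos (nat_lit 0) (nat_lit 0)) (xb T0.l2 T0.l2)
  (TrL.c (I.mix (nat_lit 17240550) (nat_lit 96881482)) (xR T2.l4 T2.l4)
  (TrL.c (I.mix (nat_lit 17240550) (nat_lit 71940500)) T0.l10
  TrL.n)))))))) (by decide +kernel)
theorem bx1_1 : BoxOK sI cl9 cl4 cl9 t0 t2 b1_1 :=
  box_mk (TrL.c (I.pos (nat_lit 0) (nat_lit 0)) (xa (xb (xa (xb (xb (xa T0.l4 T0.l4) (xa T0.l4 T0.l4)) (xa T0.l4 T0.l4)) (xb T0.l4 T0.l4)) (xa (xb (xa T0.l4 T0.l4) (xa T0.l4 T0.l4)) (xb T0.l4 (xa T0.l4 T0.l4)))) (xb (xa T0.l4 T0.l4) (xa (xb T0.l4 T0.l4) T0.l4)))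
  (TrL.c (I.pos (nat_lit 0) (nat_lit 0)) (xa T2.l1 T2.l1)
  (TrL.c (I.pos (nat_lit 0) (nat_lit 124588530)) T0.l1
  (TrL.c (I.pos (nat_lit 0) (nat_lit 96881482)) T2.l7
  (TrL.c (I.pos (nat_lit 0) (nat_lit 0)) (xa (xb (xk T2.l5 T2.l5) T2.l5) (xb (xk (xa T2.l5 T2.l5) (xa T2.l5 T2.l5)) (xk (xb T2.l5 T2.l5) (xa T2.l5 T2.l5))))
  (TrL.c (I.pos (nat_lit 0) (nat_lit 0)) T0.l2
  (TrL.c (I.mix (nat_lit 17240550) (nat_lit 96881482)) T2.l4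
  (TrL.c (I.mix (nat_lit 17240550) (nat_lit 71940500)) T0.l10
  TrL.n)))))))) (by decide +kernel)
theorem bx1_2 : BoxOK sI cl9 cl4 cl9 t0 t2 b1_2 :=
  box_mk (TrL.c (I.pos (nat_lit 0) (nat_lit 0)) (xb T2.l6 T2.l6)
  (TrL.c (I.pos (nat_lit 0) (nat_lit 0)) T0.l5
  (TrL.c (I.mix (nat_lit 17240550) (nat_lit 96881482)) T2.l7
  (TrL.c (I.mix (nat_lit 17240550) (nat_lit 71940500)) T0.l10
  TrL.n)))) (by decide +kernel)
theorem bx1_3 : BoxOK sI cl9 cl4 cl9 t0 t2 b1_3 :=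
  box_mk (TrL.c (I.pos (nat_lit 0) (nat_lit 0)) (xb (xa (xb (xa T0.l7 T0.l7) T0.l7) (xb (xa T0.l7 T0.l7) (xa T0.l7 T0.l7))) (xa (xb (xa T0.l7 T0.l7) (xa (xb T0.l7 (xa T0.l7 T0.l7)) (xb T0.l7 (xa T0.l7 T0.l7)))) (xb (xa T0.l7 (xb T0.l7 T0.l7)) (xa (xb T0.l7 (xa T0.l7 T0.l7)) (xb T0.l7 (xa T0.l7 T0.l7))))))
  (TrL.c (I.pos (nat_lit 0) (nat_lit 0)) (xb (xa T2.l1 T2.l1) (xa (xk T2.l1 T2.l1) (xk T2.l1 T2.l1)))
  (TrL.c (I.pos (nat_lit 0) (nat_lit 124588530)) (xR T0.l1 T0.l1)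
  (TrL.c (I.pos (nat_lit 0) (nat_lit 96881482)) T2.l2
  (TrL.c (I.pos (nat_lit 0) (nat_lit 0)) (xb (xa (xk (xb T2.l8 T2.l8) (xb T2.l8 T2.l8)) (xk (xb (xa T2.l8 (xk T2.l8 T2.l8)) (xa T2.l8 T2.l8)) (xb (xa T2.l8 T2.l8) T2.l8))) (xa (xk (xb T2.l8 T2.l8) (xb T2.l8 (xb T2.l8 T2.l8))) (xk (xb (xa T2.l8 T2.l8) (xa (xb T2.l3 T2.l3) T2.l3)) (xb (xa T2.l8 T2.l8) (xa (xb T2.l3 T2.l3) (xb T2.l3 T2.l3))))))
  (TrL.c (I.pos (nat_lit 0) (nat_lit 0)) (xb T0.l2 T0.l2)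
  (TrL.c (I.mix (nat_lit 17240550) (nat_lit 96881482)) (xR T2.l4 T2.l4)
  (TrL.c (I.mix (nat_lit 17240550) (nat_lit 71940500)) T0.l10
  TrL.n)))))))) (by decide +kernel)
theorem bx1_4 : BoxOK sI cl9 cl4 cl9 t0 t2 b1_4 :=
  box_mk (TrL.c (I.pos (nat_lit 0) (nat_lit 0)) (xb (xa (xb (xs T0.l8 T0.l8) (xa T0.l8 T0.l4)) T0.l4) (xa (xb T0.l4 T0.l4) T0.l4))
  (TrL.c (I.pos (nat_lit 0) (nat_lit 0)) T2.l6
  (TrL.c (I.pos (nat_lit 0) (nat_lit 124588530)) T0.l1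
  (TrL.c (I.pos (nat_lit 0) (nat_lit 96881482)) T2.l4
  (TrL.c (I.pos (nat_lit 0) (nat_lit 0)) (xk T2.l5 T2.l5)
  (TrL.c (I.pos (nat_lit 0) (nat_lit 0)) T0.l2
  (TrL.c (I.mix (nat_lit 17240550) (nat_lit 96881482)) T2.l4
  (TrL.c (I.mix (nat_lit 17240550) (nat_lit 71940500)) T0.l1
  TrL.n)))))))) (by decide +kernel)
theorem bx1_5 : BoxOK sI cl9 cl4 cl9 t0 t2 b1_5 :=
  box_mk (TrL.c (I.pos (nat_lit 0) (nat_lit 0)) (xa T2.l1 T2.l6)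
  (TrL.c (I.pos (nat_lit 0) (nat_lit 0)) T0.l1
  (TrL.c (I.mix (nat_lit 17240550) (nat_lit 96881482)) T2.l7
  (TrL.c (I.mix (nat_lit 17240550) (nat_lit 71940500)) T0.l10
  TrL.n)))) (by decide +kernel)
theorem bx1_6 : BoxOK sI cl9 cl4 cl9 t0 t2 b1_6 :=
  box_mk (TrL.c (I.pos (nat_lit 0) (nat_lit 0)) (xa (xb T0.l0 (xa T0.l0 T0.l0)) (xb T0.l0 (xa T0.l0 (xb T0.l0 T0.l0))))
  (TrL.c (I.pos (nat_lit 0) (nat_lit 0)) (xa (xb T2.l1 T2.l1) (xk (xb T2.l1 T2.l1) (xb T2.l11 T2.l1)))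
  (TrL.c (I.pos (nat_lit 0) (nat_lit 124588530)) (xR T0.l1 T0.l1)
  (TrL.c (I.pos (nat_lit 0) (nat_lit 96881482)) (xR T2.l2 T2.l2)
  (TrL.c (I.pos (nat_lit 0) (nat_lit 0)) (xa (xb (xk (xb (xa (xk T2.l3 T2.l3) (xk T2.l3 T2.l3)) (xa T2.l3 T2.l3)) (xb (xa (xk T2.l3 T2.l3) T2.l0) T2.l3)) (xk (xa T2.l3 (xb T2.l3 T2.l3)) (xa T2.l3 (xb T2.l3 T2.l3)))) (xb (xk (xa (xb (xk (xa T2.l3 T2.l3) T2.l3) T2.l3) (xb (xk (xa T2.l3 (xb T2.l3 T2.l3)) (xa T2.l3 T2.l3)) (xk (xa T2.l3 (xb T2.l3 T2.l3)) (xa T2.l3 T2.l3)))) (xb (xa (xk T2.l3 T2.l3) (xk (xa T2.l3 T2.l3) (xa T2.l3 T2.l3))) (xa T2.l3 (xk T2.l3 T2.l3)))) (xk (xa (xb (xk T2.l3 T2.l3) (xk (xs T2.l3 T2.l3) T2.l3)) (xb (xk (xs (xa T2.l3 T2.l3) (xa T2.l3 T2.l3)) (xs T2.l3 T2.l3)) (xk (xs (xa T2.l3 T2.l3) (xa T2.l3 T2.l3)) (xs T2.l3 (xa T2.l3 T2.l3))))) (xa (xb (xk T2.l3 T2.l3) (xk T2.l3 T2.l3)) (xb (xk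 (xa T2.l3 (xs T2.l3 T2.l3)) (xa T2.l3 T2.l3)) (xk (xs T2.l3 (xa T2.l3 T2.l3)) (xs T2.l3 (xa T2.l3 T2.l3))))))))
  (TrL.c (I.pos (nat_lit 0) (nat_lit 0)) (xk (xb T0.l2 T0.l2) (xb T0.l2 T0.l2))
  (TrL.c (I.mix (nat_lit 17240550) (nat_lit 96881482)) (xR T2.l4 (xR T2.l4 (xR T2.l4 T2.l4)))
  (TrL.c (I.mix (nat_lit 17240550) (nat_lit 71940500)) T0.l3
  TrL.n)))))))) (by decide +kernel)
theorem bx1_7 : BoxOK sI cl9 cl4 cl9 t0 t2 b1_7 :=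
  box_mk (TrL.c (I.pos (nat_lit 0) (nat_lit 0)) (xb (xa (xb (xa T0.l8 T0.l8) T0.l8) T0.l8) (xa (xb T0.l8 T0.l8) T0.l8))
  (TrL.c (I.pos (nat_lit 0) (nat_lit 0)) T2.l1
  (TrL.c (I.pos (nat_lit 0) (nat_lit 124588530)) T0.l1
  (TrL.c (I.pos (nat_lit 0) (nat_lit 96881482)) T2.l2
  (TrL.c (I.pos (nat_lit 0) (nat_lit 0)) T2.l9
  (TrL.c (I.pos (nat_lit 0) (nat_lit 0)) T0.l2
  (TrL.c (I.mix (nat_lit 17240550) (nat_lit 96881482)) T2.l4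
  (TrL.c (I.mix (nat_lit 17240550) (nat_lit 71940500)) T0.l1
  TrL.n)))))))) (by decide +kernel)
theorem bx1_8 : BoxOK sI cl9 cl4 cl9 t0 t2 b1_8 :=
  box_mk (TrL.c (I.pos (nat_lit 0) (nat_lit 0)) T0.l0
  (TrL.c (I.pos (nat_lit 0) (nat_lit 0)) T2.l1
  (TrL.c (I.pos (nat_lit 0) (nat_lit 124588530)) T0.l1
  (TrL.c (I.pos (nat_lit 0) (nat_lit 96881482)) T2.l2
  (TrL.c (I.pos (nat_lit 0) (nat_lit 0)) (xk T2.l3 T2.l3)
  (TrL.c (I.pos (nat_lit 0) (nat_lit 0)) T0.l2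
  (TrL.c (I.mix (nat_lit 17240550) (nat_lit 96881482)) T2.l4
  (TrL.c (I.mix (nat_lit 17240550) (nat_lit 71940500)) T0.l3
  TrL.n)))))))) (by decide +kernel)
theorem bx1_9 : BoxOK sI cl9 cl4 cl9 t0 t2 b1_9 :=
  box_mk (TrL.c (I.pos (nat_lit 0) (nat_lit 0)) T0.l8
  (TrL.c (I.pos (nat_lit 0) (nat_lit 0)) T2.l1
  (TrL.c (I.pos (nat_lit 0) (nat_lit 124588530)) T0.l1
  (TrL.c (I.pos (nat_lit 0) (nat_lit 96881482)) T2.l2
  (TrL.c (I.pos (nat_lit 0) (nat_lit 0)) T2.l9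
  (TrL.c (I.pos (nat_lit 0) (nat_lit 0)) T0.l2
  (TrL.c (I.mix (nat_lit 17240550) (nat_lit 96881482)) T2.l4
  (TrL.c (I.mix (nat_lit 17240550) (nat_lit 71940500)) T0.l3
  TrL.n)))))))) (by decide +kernel)
theorem bx1_10 : BoxOK sI cl9 cl4 cl9 t0 t2 b1_10 :=
  box_mk (TrL.c (I.pos (nat_lit 0) (nat_lit 0)) T0.l0
  (TrL.c (I.pos (nat_lit 0) (nat_lit 0)) T2.l11
  (TrL.c (I.pos (nat_lit 0) (nat_lit 124588530)) (xR T0.l1 T0.l1)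
  (TrL.c (I.pos (nat_lit 0) (nat_lit 96881482)) T2.l2
  (TrL.c (I.pos (nat_lit 0) (nat_lit 0)) (xk T2.l0 T2.l0)
  (TrL.c (I.pos (nat_lit 0) (nat_lit 0)) T0.l2
  (TrL.c (I.mix (nat_lit 17240550) (nat_lit 96881482)) (xR T2.l4 T2.l4)
  (TrL.c (I.mix (nat_lit 17240550) (nat_lit 71940500)) T0.l3
  TrL.n)))))))) (by decide +kernel)
theorem bx1_11 : BoxOK sI cl9 cl4 cl9 t0 t2 b1_11 :=
  box_mk (TrL.c (I.pos (nat_lit 0) (nat_lit 0)) (xb T0.l8 T0.l8)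
  (TrL.c (I.pos (nat_lit 0) (nat_lit 0)) T2.l1
  (TrL.c (I.pos (nat_lit 0) (nat_lit 124588530)) T0.l1
  (TrL.c (I.pos (nat_lit 0) (nat_lit 96881482)) T2.l2
  (TrL.c (I.pos (nat_lit 0) (nat_lit 0)) T2.l9
  (TrL.c (I.pos (nat_lit 0) (nat_lit 0)) T0.l2
  (TrL.c (I.mix (nat_lit 17240550) (nat_lit 96881482)) T2.l4
  (TrL.c (I.mix (nat_lit 17240550) (nat_lit 71940500)) T0.l3
  TrL.n)))))))) (by decide +kernel)
theorem bx1_12 : BoxOK sI cl9 cl4 cl9 t0 t2 b1_12 :=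
  box_mk (TrL.c (I.pos (nat_lit 0) (nat_lit 0)) T0.l0
  (TrL.c (I.pos (nat_lit 0) (nat_lit 0)) T2.l1
  (TrL.c (I.pos (nat_lit 0) (nat_lit 124588530)) (xR T0.l1 T0.l1)
  (TrL.c (I.pos (nat_lit 0) (nat_lit 96881482)) T2.l2
  (TrL.c (I.pos (nat_lit 0) (nat_lit 0)) T2.l0
  (TrL.c (I.pos (nat_lit 0) (nat_lit 0)) T0.l2
  (TrL.c (I.mix (nat_lit 17240550) (nat_lit 96881482)) (xR T2.l4 T2.l4)
  (TrL.c (I.mix (nat_lit 17240550) (nat_lit 71940500)) T0.l3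
  TrL.n)))))))) (by decide +kernel)
theorem bx1_13 : BoxOK sI cl9 cl4 cl9 t0 t2 b1_13 :=
  box_mk (TrL.c (I.pos (nat_lit 0) (nat_lit 0)) T0.l8
  (TrL.c (I.pos (nat_lit 0) (nat_lit 0)) T2.l1
  (TrL.c (I.pos (nat_lit 0) (nat_lit 124588530)) T0.l1
  (TrL.c (I.pos (nat_lit 0) (nat_lit 96881482)) T2.l2
  (TrL.c (I.pos (nat_lit 0) (nat_lit 0)) T2.l9
  (TrL.c (I.pos (nat_lit 0) (nat_lit 0)) T0.l2
  (TrL.c (I.mix (nat_lit 17240550) (nat_lit 96881482)) T2.l4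
  (TrL.c (I.mix (nat_lit 17240550) (nat_lit 71940500)) T0.l3
  TrL.n)))))))) (by decide +kernel)
theorem bx1_14 : BoxOK sI cl9 cl4 cl9 t0 t2 b1_14 :=
  box_mk (TrL.c (I.pos (nat_lit 0) (nat_lit 0)) T0.l0
  (TrL.c (I.pos (nat_lit 0) (nat_lit 0)) T2.l1
  (TrL.c (I.pos (nat_lit 0) (nat_lit 124588530)) T0.l1
  (TrL.c (I.pos (nat_lit 0) (nat_lit 96881482)) T2.l2
  (TrL.c (I.pos (nat_lit 0) (nat_lit 0)) (xk T2.l3 T2.l3)
  (TrL.c (I.pos (nat_lit 0) (nat_lit 0)) T0.l2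
  (TrL.c (I.mix (nat_lit 17240550) (nat_lit 96881482)) T2.l4
  (TrL.c (I.mix (nat_lit 17240550) (nat_lit 71940500)) T0.l3
  TrL.n)))))))) (by decide +kernel)
theorem bx1_15 : BoxOK sI cl9 cl4 cl9 t0 t2 b1_15 :=
  box_mk (TrL.c (I.pos (nat_lit 0) (nat_lit 0)) (xb T0.l8 T0.l4)
  (TrL.c (I.pos (nat_lit 0) (nat_lit 0)) T2.l1
  (TrL.c (I.pos (nat_lit 0) (nat_lit 124588530)) T0.l1
  (TrL.c (I.pos (nat_lit 0) (nat_lit 96881482)) T2.l2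
  (TrL.c (I.pos (nat_lit 0) (nat_lit 0)) T2.l9
  (TrL.c (I.pos (nat_lit 0) (nat_lit 0)) T0.l2
  (TrL.c (I.mix (nat_lit 17240550) (nat_lit 96881482)) T2.l4
  (TrL.c (I.mix (nat_lit 17240550) (nat_lit 71940500)) T0.l3
  TrL.n)))))))) (by decide +kernel)
theorem bx1_16 : BoxOK sI cl9 cl4 cl9 t0 t2 b1_16 :=
  box_mk (TrL.c (I.pos (nat_lit 0) (nat_lit 0)) (xa T0.l0 T0.l0)
  (TrL.c (I.pos (nat_lit 0) (nat_lit 0)) (xk T2.l11 (xb T2.l1 T2.l1))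
  (TrL.c (I.pos (nat_lit 0) (nat_lit 124588530)) (xR T0.l1 T0.l1)
  (TrL.c (I.pos (nat_lit 0) (nat_lit 96881482)) T2.l2
  (TrL.c (I.pos (nat_lit 0) (nat_lit 0)) (xb (xa (xk (xk (xa T2.l3 T2.l3) (xb T2.l0 T2.l3)) (xa (xb (xk T2.l3 T2.l3) T2.l3) (xb T2.l0 T2.l3))) (xk (xk (xa (xb T2.l0 T2.l3) (xb (xs T2.l0 T2.l3) T2.l3)) (xa T2.l3 (xb T2.l3 T2.l3))) (xa (xk T2.l3 (xb T2.l0 T2.l3)) (xb (xk (xs T2.l3 T2.l3) (xs T2.l0 T2.l3)) T2.l3)))) (xa (xk T2.l3 T2.l3) (xk (xk (xa T2.l3 (xb T2.l3 T2.l3)) (xa T2.l3 T2.l3)) (xb (xa T2.l3 T2.l3) (xa T2.l3 T2.l3)))))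
  (TrL.c (I.pos (nat_lit 0) (nat_lit 0)) (xk (xb T0.l2 T0.l2) T0.l2)
  (TrL.c (I.mix (nat_lit 17240550) (nat_lit 96881482)) (xR T2.l4 (xR T2.l4 T2.l4))
  (TrL.c (I.mix (nat_lit 17240550) (nat_lit 71940500)) T0.l3
  TrL.n)))))))) (by decide +kernel)
theorem bx1_17 : BoxOK sI cl9 cl4 cl9 t0 t2 b1_17 :=
  box_mk (TrL.c (I.pos (nat_lit 0) (nat_lit 0)) (xb T0.l8 (xa (xb T0.l8 T0.l8) (xb T0.l8 T0.l8)))
  (TrL.c (I.pos (nat_lit 0) (nat_lit 0)) T2.l1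
  (TrL.c (I.pos (nat_lit 0) (nat_lit 124588530)) T0.l1
  (TrL.c (I.pos (nat_lit 0) (nat_lit 96881482)) T2.l2
  (TrL.c (I.pos (nat_lit 0) (nat_lit 0)) T2.l9
  (TrL.c (I.pos (nat_lit 0) (nat_lit 0)) T0.l2
  (TrL.c (I.mix (nat_lit 17240550) (nat_lit 96881482)) T2.l4
  (TrL.c (I.mix (nat_lit 17240550) (nat_lit 71940500)) T0.l1
  TrL.n)))))))) (by decide +kernel)
theorem bx1_18 : BoxOK sI cl9 cl4 cl9 t0 t2 b1_18 :=
  box_mk (TrL.c (I.pos (nat_lit 0) (nat_lit 0)) (xa (xb (xb T0.l0 T0.l0) (xa (xb T0.l0 T0.l0) (xb T0.l0 T0.l0))) (xb T0.l0 (xa (xb T0.l0 T0.l0) (xb T0.l0 T0.l0))))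
  (TrL.c (I.pos (nat_lit 0) (nat_lit 0)) (xk (xb T2.l1 T2.l1) (xb T2.l1 T2.l1))
  (TrL.c (I.pos (nat_lit 0) (nat_lit 124588530)) T0.l1
  (TrL.c (I.pos (nat_lit 0) (nat_lit 96881482)) T2.l2
  (TrL.c (I.pos (nat_lit 0) (nat_lit 0)) (xk (xb (xa T2.l3 (xk T2.l3 T2.l3)) (xa (xk T2.l3 T2.l3) (xk T2.l3 T2.l3))) (xb (xa T2.l3 T2.l3) (xa (xk T2.l3 T2.l3) (xk T2.l3 T2.l3))))
  (TrL.c (I.pos (nat_lit 0) (nat_lit 0)) T0.l2
  (TrL.c (I.mix (nat_lit 17240550) (nat_lit 96881482)) T2.l4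
  (TrL.c (I.mix (nat_lit 17240550) (nat_lit 71940500)) T0.l3
  TrL.n)))))))) (by decide +kernel)
theorem bx1_19 : BoxOK sI cl9 cl4 cl9 t0 t2 b1_19 :=
  box_mk (TrL.c (I.pos (nat_lit 0) (nat_lit 0)) (xb (xa (xb T0.l4 T0.l4) T0.l4) T0.l4)
  (TrL.c (I.pos (nat_lit 0) (nat_lit 0)) T2.l1
  (TrL.c (I.pos (nat_lit 0) (nat_lit 124588530)) T0.l1
  (TrL.c (I.pos (nat_lit 0) (nat_lit 96881482)) T2.l2
  (TrL.c (I.pos (nat_lit 0) (nat_lit 0)) T2.l5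
  (TrL.c (I.pos (nat_lit 0) (nat_lit 0)) T0.l2
  (TrL.c (I.mix (nat_lit 17240550) (nat_lit 96881482)) T2.l4
  (TrL.c (I.mix (nat_lit 17240550) (nat_lit 71940500)) T0.l1
  TrL.n)))))))) (by decide +kernel)
theorem c1_20_0 : chkTag sI cl9 cl4 cl9 t0 b1_20 (tg true true false RT.r2) (I.pos (nat_lit 0) (nat_lit 0))
  (xa (xb T0.l0 (xa (xb T0.l0 T0.l0) (xb T0.l0 T0.l0))) (xb T0.l0 (xa (xb T0.l0 T0.l0) (xb T0.l0 (xc T0.l0 T0.l0))))) = true := by decide +kernel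
theorem c1_20_1 : chkTag sI cl9 cl4 cl9 t2 b1_20 (tg true false false RT.r3) (I.pos (nat_lit 0) (nat_lit 0))
  (xa (xb T2.l1 T2.l1) (xk (xb T2.l1 T2.l1) (xb T2.l11 T2.l1))) = true := by decide +kernel
theorem c1_20_2 : chkTag sI cl9 cl4 cl9 t0 b1_20 (Tag.mk true true false RT.tl RT.r4) (I.pos (nat_lit 0) (nat_lit 124588530))
  (xR T0.l1 T0.l1) = true := by decide +kernel
theorem c1_20_3 : chkTag sI cl9 cl4 cl9 t2 b1_20 (Tag.mk true false false RT.tl RT.r5) (I.pos (nat_lit 0) (nat_lit 96881482))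
  (xR T2.l2 T2.l2) = true := by decide +kernel
def rc1_20_4_l : Tr := (xa (xk (xb (xa (xk (xb T2.l3 T2.l3) (xb T2.l3 T2.l3)) (xk (xb T2.l0 T2.l3) (xb T2.l0 T2.l3))) (xa T2.l3 T2.l3)) (xb (xa (xk (xb T2.l3 T2.l3) (xb T2.l3 T2.l3)) (xk (xb T2.l3 T2.l3) T2.l0)) (xa T2.l3 T2.l3))) (xk (xb (xa (xk (xa T2.l3 (xb T2.l3 T2.l3)) (xb (xa T2.l3 T2.l3) T2.l3)) (xk (xb (xa T2.l3 T2.l3) (xa T2.l3 T2.l3)) (xb (xa T2.l3 T2.l3) T2.l3))) (xa (xk T2.l3 T2.l3) (xk (xb T2.l3 T2.l3) (xb T2.l3 T2.l3)))) (xb (xa (xk (xa T2.l3 (xb T2.l3 T2.l3)) (xa T2.l3 (xb T2.l3 T2.l3))) (xk (xa (xb T2.l3 T2.l3) (xb T2.l3 T2.l3)) (xa (xb T2.l3 T2.l3) (xb T2.l3 T2.l3)))) (xa (xk T2.l3 T2.l3) (xk (xa T2.l3 T2.l3) T2.l3)))))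
theorem qc1_20_4_l : chkTr (tg false false false RT.r3) b1_20 t2 rc1_20_4_l
  (upd lo Co.b (rc sI cl9 cl4 cl9 b1_20 (I.pos (nat_lit 0) (nat_lit 0)))) = true := by decide +kernel
def rc1_20_4_r : Tr := (xa (xk (xb T2.l3 (xa T2.l3 T2.l3)) (xb T2.l3 (xa T2.l3 T2.l3))) (xk (xa (xb (xk T2.l3 T2.l3) (xk (xs T2.l3 T2.l3) (xs T2.l3 T2.l3))) (xb (xk (xb T2.l3 (xs T2.l3 T2.l3)) (xs (xa T2.l3 T2.l3) (xa T2.l3 T2.l3))) (xk (xs (xb T2.l3 T2.l3) (xb T2.l3 T2.l3)) (xs (xa T2.l3 T2.l3) (xb T2.l3 T2.l3))))) (xa (xb (xk T2.l3 T2.l3) (xk (xs T2.l3 T2.l3) T2.l3)) (xb (xk (xs T2.l3 T2.l3) (xs T2.l3 T2.l3)) (xk (xs (xa T2.l3 T2.l3) (xa T2.l3 T2.l3)) (xs (xa T2.l3 T2.l3) (xa T2.l3 T2.l3)))))))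
theorem qc1_20_4_r : chkTr (tg false false false RT.r3) b1_20 t2 rc1_20_4_r
  (upd hi Co.b (rc sI cl9 cl4 cl9 b1_20 (I.pos (nat_lit 0) (nat_lit 0)))) = true := by decide +kernel
theorem qc1_20_4_ : chkTr (tg false false false RT.r3) b1_20 t2 (Tr.N Co.b rc1_20_4_l rc1_20_4_r)
  (rc sI cl9 cl4 cl9 b1_20 (I.pos (nat_lit 0) (nat_lit 0))) = true := tr_split qc1_20_4_l qc1_20_4_r
theorem c1_20_4 : chkTag sI cl9 cl4 cl9 t2 b1_20 (tg false false false RT.r3) (I.pos (nat_lit 0) (nat_lit 0))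
  (Tr.N Co.b rc1_20_4_l rc1_20_4_r) = true := tag_mk (by decide +kernel) qc1_20_4_
theorem c1_20_5 : chkTag sI cl9 cl4 cl9 t0 b1_20 (tg false true false RT.r4) (I.pos (nat_lit 0) (nat_lit 0))
  (xb (xk (xa T0.l2 T0.l2) (xa T0.l2 T0.l2)) (xk T0.l2 T0.l2)) = true := by decide +kernel
theorem c1_20_6 : chkTag sI cl9 cl4 cl9 t2 b1_20 (Tag.mk false false false RT.tl RT.r5) (I.mix (nat_lit 17240550) (nat_lit 96881482))
  (xR T2.l4 (xR T2.l4 (xR T2.l4 T2.l4))) = true := by decide +kernel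
theorem c1_20_7 : chkTag sI cl9 cl4 cl9 t0 b1_20 (Tag.mk false true false RT.tl RT.r6) (I.mix (nat_lit 17240550) (nat_lit 71940500))
  T0.l3 = true := by decide +kernel
theorem bx1_20 : BoxOK sI cl9 cl4 cl9 t0 t2 b1_20 :=
  box_mk' [(tg true true false RT.r2), (tg true false false RT.r3), (Tag.mk true true false RT.tl RT.r4), (Tag.mk true false false RT.tl RT.r5), (tg false false false RT.r3), (tg false true false RT.r4), (Tag.mk false false false RT.tl RT.r5), (Tag.mk false true false RT.tl RT.r6)] rfl (allL_c (ex_mk c1_20_0) (allL_c (ex_mk c1_20_1) (allL_c (ex_mk c1_20_2) (allL_c (ex_mk c1_20_3) (allL_c (ex_mk c1_20_4) (allL_c (ex_mk c1_20_5) (allL_c (ex_mk c1_20_6) (allL_c (ex_mk c1_20_7) allL_n))))))))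
theorem bx1_21 : BoxOK sI cl9 cl4 cl9 t0 t2 b1_21 :=
  box_mk (TrL.c (I.pos (nat_lit 0) (nat_lit 0)) (xb (xa (xb (xa T0.l8 T0.l8) T0.l8) T0.l8) (xa (xb T0.l8 (xa T0.l8 T0.l8)) (xb T0.l8 T0.l8)))
  (TrL.c (I.pos (nat_lit 0) (nat_lit 0)) T2.l6
  (TrL.c (I.pos (nat_lit 0) (nat_lit 124588530)) T0.l1
  (TrL.c (I.pos (nat_lit 0) (nat_lit 96881482)) T2.l2
  (TrL.c (I.pos (nat_lit 0) (nat_lit 0)) T2.l9
  (TrL.c (I.pos (nat_lit 0) (nat_lit 0)) T0.l2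
  (TrL.c (I.mix (nat_lit 17240550) (nat_lit 96881482)) T2.l4
  (TrL.c (I.mix (nat_lit 17240550) (nat_lit 71940500)) T0.l1
  TrL.n)))))))) (by decide +kernel)
theorem sv1 : StarV sI cl9 cl4 cl9 t0 t2 t1 :=
  (bt_n (bt_n (bt_n (bt_n (bt_b bx1_0) (bt_b bx1_1)) (bt_n (bt_b bx1_2) (bt_n (bt_b bx1_3) (bt_b bx1_4)))) (bt_n (bt_n (bt_b bx1_5) (bt_n (bt_b bx1_6) (bt_b bx1_7))) (bt_n (bt_b bx1_8) (bt_n (bt_b bx1_9) (bt_b bx1_10))))) (bt_n (bt_n (bt_n (bt_b bx1_11) (bt_b bx1_12)) (bt_n (bt_b bx1_13) (bt_n (bt_b bx1_14) (bt_b bx1_15)))) (bt_n (bt_n (bt_b bx1_16) (bt_n (bt_b bx1_17) (bt_b bx1_18))) (bt_n (bt_b bx1_19) (bt_n (bt_b bx1_20) (bt_b bx1_21))))))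
def S1 : StarD := StarD.mk cl9 cl4 cl9 0 2 t1
theorem c2_0_0 : chkTag sI cl9 cl9 cl4 t2 b2_0 (tg true true false RT.r2) (I.pos (nat_lit 0) (nat_lit 0))
  (xa (xb (xa (xb (xc (xa T2.l0 T2.l0) (xa T2.l0 T2.l0)) (xc (xa (xs T2.l0 T2.l0) T2.l0) (xa T2.l0 T2.l0))) (xb (xc T2.l0 (xs T2.l0 T2.l0)) (xc T2.l0 (xa T2.l0 T2.l0)))) (xa (xb (xc (xa (xs T2.l0 T2.l0) (xs T2.l0 T2.l0)) (xa (xs T2.l0 T2.l0) (xs T2.l0 T2.l0))) (xc (xa (xs (xk T2.l0 T2.l0) (xk T2.l0 T2.l0)) (xs T2.l0 (xk T2.l0 T2.l0))) (xa (xs (xk T2.l0 T2.l0) (xk T2.l0 T2.l0)) (xs (xk T2.l0 T2.l0) (xk T2.l0 T2.l0))))) (xb (xc (xa T2.l0 T2.l0) (xa (xs T2.l0 T2.l0) T2.l0)) (xs (xa (xc T2.l0 (xk T2.l0 T2.l0)) (xc T2.l0 T2.l0)) (xc (xa T2.l0 T2.l0) (xa (xk T2.l0 T2.l0) T2.l0)))))) (xb (xa (xb (xc T2.l0 (xs T2.l0 (xa T2.l0 T2.l0))) (xc T2.l0 (xa T2.l0 T2.l0))) (xb (xs T2.l0 (xa (xc T2.l0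 T2.l0) (xc T2.l0 T2.l0))) (xc (xs T2.l0 T2.l0) (xs T2.l0 (xa T2.l0 T2.l0))))) (xa (xb (xc (xa T2.l0 T2.l0) (xa T2.l0 T2.l0)) (xs (xa T2.l0 T2.l0) (xc (xa T2.l0 T2.l0) (xa T2.l0 T2.l0)))) (xs (xb (xa T2.l0 T2.l0) (xa T2.l0 T2.l0)) (xb (xc T2.l0 (xa T2.l0 T2.l0)) (xc (xa T2.l0 T2.l0) (xa T2.l0 T2.l0))))))) = true := by decide +kernel
theorem c2_0_1 : chkTag sI cl9 cl9 cl4 t0 b2_0 (tg true false false RT.r3) (I.pos (nat_lit 0) (nat_lit 0))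
  (xa (xk (xa T0.l9 T0.l9) (xb T0.l9 (xa T0.l9 T0.l9))) (xk (xb T0.l9 (xa T0.l9 T0.l9)) (xb T0.l9 T0.l9))) = true := by decide +kernel
theorem c2_0_2 : chkTag sI cl9 cl9 cl4 t2 b2_0 (Tag.mk true true false RT.tl RT.r4) (I.pos (nat_lit 0) (nat_lit 124588530))
  (xR T2.l10 T2.l10) = true := by decide +kernel
theorem c2_0_3 : chkTag sI cl9 cl9 cl4 t0 b2_0 (Tag.mk true false false RT.tl RT.r5) (I.pos (nat_lit 0) (nat_lit 96881482))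
  (xR T0.l10 T0.l10) = true := by decide +kernel
theorem c2_0_4 : chkTag sI cl9 cl9 cl4 t0 b2_0 (tg false false false RT.r3) (I.pos (nat_lit 0) (nat_lit 0))
  (xa (xk (xb T0.l15 (xa T0.l11 T0.l11)) (xb T0.l15 (xa T0.l11 T0.l11))) (xk (xb (xa T0.l11 T0.l11) (xa T0.l11 (xb T0.l11 T0.l11))) (xb T0.l11 (xa T0.l11 (xb T0.l11 (xs T0.l11 T0.l11)))))) = true := by decide +kernel
theorem c2_0_5 : chkTag sI cl9 cl9 cl4 t2 b2_0 (tg false true false RT.r4) (I.pos (nat_lit 0) (nat_lit 0))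
  (xk T2.l11 T2.l11) = true := by decide +kernel
theorem c2_0_6 : chkTag sI cl9 cl9 cl4 t0 b2_0 (Tag.mk false false false RT.tl RT.r5) (I.mix (nat_lit 17240550) (nat_lit 96881482))
  (xR T0.l12 (xR T0.l12 T0.l12)) = true := by decide +kernel
theorem c2_0_7 : chkTag sI cl9 cl9 cl4 t2 b2_0 (Tag.mk false true false RT.tl RT.r6) (I.mix (nat_lit 17240550) (nat_lit 71940500))
  T2.l12 = true := by decide +kernel
theorem bx2_0 : BoxOK sI cl9 cl9 cl4 t2 t0 b2_0 :=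
  box_mk' [(tg true true false RT.r2), (tg true false false RT.r3), (Tag.mk true true false RT.tl RT.r4), (Tag.mk true false false RT.tl RT.r5), (tg false false false RT.r3), (tg false true false RT.r4), (Tag.mk false false false RT.tl RT.r5), (Tag.mk false true false RT.tl RT.r6)] rfl (allL_c (ex_mk c2_0_0) (allL_c (ex_mk c2_0_1) (allL_c (ex_mk c2_0_2) (allL_c (ex_mk c2_0_3) (allL_c (ex_mk c2_0_4) (allL_c (ex_mk c2_0_5) (allL_c (ex_mk c2_0_6) (allL_c (ex_mk c2_0_7) allL_n))))))))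
theorem bx2_1 : BoxOK sI cl9 cl9 cl4 t2 t0 b2_1 :=
  box_mk (TrL.c (I.pos (nat_lit 0) (nat_lit 0)) (xa (xb (xa (xb T2.l13 T2.l13) (xb T2.l13 T2.l13)) (xa (xb (xa T2.l13 T2.l13) (xa T2.l20 T2.l13)) (xb T2.l13 (xa T2.l13 T2.l13)))) (xb (xa (xb T2.l0 T2.l13) T2.l0) (xa (xb T2.l13 (xa T2.l13 T2.l0)) T2.l0)))
  (TrL.c (I.pos (nat_lit 0) (nat_lit 0)) (xa (xb T0.l9 T0.l9) (xk T0.l9 T0.l9))
  (TrL.c (I.pos (nat_lit 0) (nat_lit 124588530)) (xR T2.l10 T2.l10)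
  (TrL.c (I.pos (nat_lit 0) (nat_lit 96881482)) T0.l10
  (TrL.c (I.pos (nat_lit 0) (nat_lit 0)) (xa (xk (xb (xa T0.l13 T0.l13) T0.l13) (xb (xa T0.l13 T0.l13) T0.l13)) (xk (xb (xa T0.l13 T0.l13) (xk T0.l15 T0.l13)) (xb (xa T0.l13 T0.l13) (xa T0.l13 T0.l15))))
  (TrL.c (I.pos (nat_lit 0) (nat_lit 0)) T2.l11
  (TrL.c (I.mix (nat_lit 17240550) (nat_lit 96881482)) T0.l12
  (TrL.c (I.mix (nat_lit 17240550) (nat_lit 71940500)) T2.l12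
  TrL.n)))))))) (by decide +kernel)
theorem bx2_2 : BoxOK sI cl9 cl9 cl4 t2 t0 b2_2 :=
  box_mk (TrL.c (I.pos (nat_lit 0) (nat_lit 0)) (xa (xa (xb (xa (xb T2.l14 T2.l14) (xb T2.l14 T2.l14)) (xa (xb (xa T2.l14 T2.l14) T2.l16) T2.l16)) (xb (xa T2.l16 T2.l16) T2.l16)) (xa (xb (xa T2.l16 T2.l16) (xa T2.l16 T2.l16)) (xb (xa (xb T2.l14 T2.l14) (xb T2.l14 T2.l14)) (xa T2.l16 T2.l16))))
  (TrL.c (I.pos (nat_lit 0) (nat_lit 0)) (xa (xa T0.l16 T0.l9) (xa T0.l9 T0.l9))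
  (TrL.c (I.pos (nat_lit 0) (nat_lit 124588530)) T2.l10
  (TrL.c (I.pos (nat_lit 0) (nat_lit 96881482)) T0.l10
  (TrL.c (I.pos (nat_lit 0) (nat_lit 0)) (xa (xa (xk T0.l9 T0.l9) (xb (xk T0.l14 T0.l14) T0.l17)) (xa (xb (xk T0.l14 T0.l14) T0.l16) (xk (xb T0.l14 T0.l14) (xb T0.l14 T0.l14))))
  (TrL.c (I.pos (nat_lit 0) (nat_lit 0)) T2.l11
  (TrL.c (I.mix (nat_lit 17240550) (nat_lit 96881482)) T0.l12
  (TrL.c (I.mix (nat_lit 17240550) (nat_lit 71940500)) T2.l4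
  TrL.n)))))))) (by decide +kernel)
theorem bx2_3 : BoxOK sI cl9 cl9 cl4 t2 t0 b2_3 :=
  box_mk (TrL.c (I.pos (nat_lit 0) (nat_lit 0)) (xb (xa (xb (xa (xc T2.l15 T2.l15) (xs T2.l15 T2.l15)) (xa (xs T2.l15 (xc T2.l15 T2.l15)) (xs T2.l15 T2.l15))) (xb (xa (xs T2.l15 T2.l15) T2.l15) (xa (xs T2.l15 T2.l15) (xs T2.l15 T2.l15)))) (xa (xb (xa (xs (xc T2.l15 T2.l15) (xc (xb T2.l15 T2.l15) T2.l15)) (xs (xc T2.l15 T2.l15) (xc T2.l15 T2.l15))) (xa (xs (xk (xc T2.l15 T2.l15) (xc T2.l15 T2.l15)) (xc (xb T2.l15 (xk T2.l15 T2.l15)) (xk (xb T2.l15 T2.l15) T2.l15))) (xs (xk T2.l15 T2.l15) (xk (xc T2.l15 T2.l15) (xc T2.l15 T2.l15))))) (xb (xa (xs T2.l15 (xc T2.l15 T2.l15)) (xs T2.l15 (xc T2.l15 T2.l15))) (xa (xs (xk T2.l15 T2.l15) (xc (xk T2.l15 T2.l15) (xk T2.l15 T2.l15))) (xs (xk T2.l15 T2.l15) (xc T2.l15 (xk T2.l15 T2.l15)))))))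
  (TrL.c (I.pos (nat_lit 0) (nat_lit 0)) (xk (xb T0.l9 (xa T0.l9 T0.l9)) (xb T0.l9 (xa T0.l9 T0.l9)))
  (TrL.c (I.pos (nat_lit 0) (nat_lit 124588530)) (xR T2.l10 T2.l10)
  (TrL.c (I.pos (nat_lit 0) (nat_lit 96881482)) T0.l10
  (TrL.c (I.pos (nat_lit 0) (nat_lit 0)) (xk (xb (xa T0.l15 T0.l11) (xa T0.l11 T0.l11)) (xb (xa T0.l15 T0.l11) (xa T0.l11 T0.l15)))
  (TrL.c (I.pos (nat_lit 0) (nat_lit 0)) T2.l11
  (TrL.c (I.mix (nat_lit 17240550) (nat_lit 96881482)) (xR T0.l12 T0.l12)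
  (TrL.c (I.mix (nat_lit 17240550) (nat_lit 71940500)) T2.l12
  TrL.n)))))))) (by decide +kernel)
theorem c2_4_0 : chkTag sI cl9 cl9 cl4 t2 b2_4 (tg true true false RT.r2) (I.pos (nat_lit 0) (nat_lit 0))
  (xa (xa (xb (xa (xb (xa T2.l16 T2.l16) (xa T2.l16 T2.l16)) (xb (xa T2.l16 T2.l16) T2.l16)) (xa (xb (xa (xb T2.l16 T2.l16) T2.l16) (xa (xb (xc T2.l16 T2.l16) (xc T2.l16 T2.l16)) (xb T2.l16 T2.l16))) (xb T2.l16 (xa T2.l16 T2.l16)))) (xb (xa (xb T2.l16 T2.l16) (xb (xa T2.l16 T2.l16) T2.l16)) (xa (xb T2.l16 (xa T2.l16 T2.l16)) (xb (xa T2.l16 T2.l16) (xa T2.l16 T2.l16))))) (xa (xb (xa (xb (xa T2.l16 T2.l16) T2.l16) (xb (xa T2.l16 T2.l16) (xa T2.l16 T2.l16))) (xa (xb (xa T2.l16 T2.l16) (xa (xb T2.l16 T2.l16) (xb T2.l16 T2.l16))) (xb (xa T2.l16 T2.l16) (xa (xb T2.l16 T2.l16) (xb T2.l16 (xs T2.l16 T2.l16)))))) (xb (xa (xb (xa T2.l16 T2.l16)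 (xa T2.l16 T2.l16)) (xb (xa T2.l16 T2.l16) (xa T2.l16 T2.l16))) (xa (xb (xa T2.l16 (xb T2.l16 T2.l16)) (xa (xs T2.l16 (xb T2.l16 T2.l16)) (xs (xb T2.l16 T2.l16) (xb T2.l16 T2.l16)))) (xb (xa (xb T2.l16 T2.l16) (xb T2.l16 T2.l16)) (xa (xs (xb T2.l16 T2.l16) (xb T2.l16 T2.l16)) (xs (xb T2.l16 T2.l16) (xb T2.l16 T2.l16)))))))) = true := by decide +kernel
theorem c2_4_1 : chkTag sI cl9 cl9 cl4 t0 b2_4 (tg true false false RT.r3) (I.pos (nat_lit 0) (nat_lit 0))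
  (xa (xa (xb T0.l9 (xk T0.l9 T0.l9)) (xb T0.l9 (xk T0.l9 T0.l9))) (xa (xb T0.l9 (xk T0.l9 T0.l9)) (xk T0.l9 T0.l9))) = true := by decide +kernel
theorem c2_4_2 : chkTag sI cl9 cl9 cl4 t2 b2_4 (Tag.mk true true false RT.tl RT.r4) (I.pos (nat_lit 0) (nat_lit 124588530))
  T2.l10 = true := by decide +kernel
theorem c2_4_3 : chkTag sI cl9 cl9 cl4 t0 b2_4 (Tag.mk true false false RT.tl RT.r5) (I.pos (nat_lit 0) (nat_lit 96881482))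
  T0.l10 = true := by decide +kernel
theorem c2_4_4 : chkTag sI cl9 cl9 cl4 t0 b2_4 (tg false false false RT.r3) (I.pos (nat_lit 0) (nat_lit 0))
  (xa (xa (xk T0.l16 T0.l16) (xb (xk T0.l16 T0.l16) T0.l16)) (xa (xb (xk T0.l16 T0.l16) T0.l16) (xb (xk T0.l16 T0.l16) T0.l16))) = true := by decide +kernel
theorem c2_4_5 : chkTag sI cl9 cl9 cl4 t2 b2_4 (tg false true false RT.r4) (I.pos (nat_lit 0) (nat_lit 0))
  T2.l11 = true := by decide +kernel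
theorem c2_4_6 : chkTag sI cl9 cl9 cl4 t0 b2_4 (Tag.mk false false false RT.tl RT.r5) (I.mix (nat_lit 17240550) (nat_lit 96881482))
  T0.l12 = true := by decide +kernel
theorem c2_4_7 : chkTag sI cl9 cl9 cl4 t2 b2_4 (Tag.mk false true false RT.tl RT.r6) (I.mix (nat_lit 17240550) (nat_lit 71940500))
  T2.l2 = true := by decide +kernel
theorem bx2_4 : BoxOK sI cl9 cl9 cl4 t2 t0 b2_4 :=
  box_mk' [(tg true true false RT.r2), (tg true false false RT.r3), (Tag.mk true true false RT.tl RT.r4), (Tag.mk true false false RT.tl RT.r5), (tg false false false RT.r3), (tg false true false RT.r4), (Tag.mk false false false RT.tl RT.r5), (Tag.mk false true false RT.tl RT.r6)] rfl (allL_c (ex_mk c2_4_0) (allL_c (ex_mk c2_4_1) (allL_c (ex_mk c2_4_2) (allL_c (ex_mk c2_4_3) (allL_c (ex_mk c2_4_4) (allL_c (ex_mk c2_4_5) (allL_c (ex_mk c2_4_6) (allL_c (ex_mk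 c2_4_7) allL_n))))))))
theorem bx2_5 : BoxOK sI cl9 cl9 cl4 t2 t0 b2_5 :=
  box_mk (TrL.c (I.pos (nat_lit 0) (nat_lit 0)) (xa (xb T2.l0 T2.l0) (xb T2.l0 T2.l0))
  (TrL.c (I.pos (nat_lit 0) (nat_lit 0)) (xk T0.l9 T0.l9)
  (TrL.c (I.pos (nat_lit 0) (nat_lit 124588530)) (xR T2.l10 T2.l10)
  (TrL.c (I.pos (nat_lit 0) (nat_lit 96881482)) T0.l10
  (TrL.c (I.pos (nat_lit 0) (nat_lit 0)) (xk (xa (xb T0.l15 T0.l15) (xb T0.l15 T0.l15)) (xa (xb T0.l15 T0.l15) (xb T0.l15 T0.l15)))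
  (TrL.c (I.pos (nat_lit 0) (nat_lit 0)) T2.l11
  (TrL.c (I.mix (nat_lit 17240550) (nat_lit 96881482)) (xR T0.l12 T0.l12)
  (TrL.c (I.mix (nat_lit 17240550) (nat_lit 71940500)) T2.l12
  TrL.n)))))))) (by decide +kernel)
theorem bx2_6 : BoxOK sI cl9 cl9 cl4 t2 t0 b2_6 :=
  box_mk (TrL.c (I.pos (nat_lit 0) (nat_lit 0)) (xa (xb T2.l13 (xa T2.l20 T2.l0)) T2.l0)
  (TrL.c (I.pos (nat_lit 0) (nat_lit 0)) T0.l9
  (TrL.c (I.pos (nat_lit 0) (nat_lit 124588530)) (xR T2.l10 T2.l10)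
  (TrL.c (I.pos (nat_lit 0) (nat_lit 96881482)) T0.l10
  (TrL.c (I.pos (nat_lit 0) (nat_lit 0)) (xk (xa T0.l13 T0.l15) (xa T0.l13 T0.l15))
  (TrL.c (I.pos (nat_lit 0) (nat_lit 0)) T2.l11
  (TrL.c (I.mix (nat_lit 17240550) (nat_lit 96881482)) T0.l12
  (TrL.c (I.mix (nat_lit 17240550) (nat_lit 71940500)) T2.l12
  TrL.n)))))))) (by decide +kernel)
theorem bx2_7 : BoxOK sI cl9 cl9 cl4 t2 t0 b2_7 :=
  box_mk (TrL.c (I.pos (nat_lit 0) (nat_lit 0)) (xa (xa (xa (xb (xa T2.l14 T2.l14) (xa T2.l18 T2.l16)) T2.l16) T2.l16) (xa T2.l16 (xa T2.l16 T2.l16)))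
  (TrL.c (I.pos (nat_lit 0) (nat_lit 0)) (xa (xa T0.l16 T0.l9) (xa T0.l9 T0.l9))
  (TrL.c (I.pos (nat_lit 0) (nat_lit 124588530)) T2.l10
  (TrL.c (I.pos (nat_lit 0) (nat_lit 96881482)) T0.l10
  (TrL.c (I.pos (nat_lit 0) (nat_lit 0)) (xa (xa T0.l9 T0.l17) (xa T0.l16 T0.l17))
  (TrL.c (I.pos (nat_lit 0) (nat_lit 0)) T2.l11
  (TrL.c (I.mix (nat_lit 17240550) (nat_lit 96881482)) T0.l12
  (TrL.c (I.mix (nat_lit 17240550) (nat_lit 71940500)) T2.l4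
  TrL.n)))))))) (by decide +kernel)
theorem bx2_8 : BoxOK sI cl9 cl9 cl4 t2 t0 b2_8 :=
  box_mk (TrL.c (I.pos (nat_lit 0) (nat_lit 0)) (xa (xb (xa (xb T2.l15 T2.l15) (xb T2.l15 T2.l15)) (xa (xb T2.l15 (xs T2.l15 T2.l15)) (xb T2.l15 T2.l15))) (xb (xa (xb T2.l15 T2.l15) (xb T2.l0 T2.l0)) (xa (xb T2.l15 T2.l15) (xb T2.l15 T2.l15))))
  (TrL.c (I.pos (nat_lit 0) (nat_lit 0)) (xk (xb T0.l9 T0.l9) (xb T0.l9 T0.l9))
  (TrL.c (I.pos (nat_lit 0) (nat_lit 124588530)) (xR T2.l10 T2.l10)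
  (TrL.c (I.pos (nat_lit 0) (nat_lit 96881482)) T0.l10
  (TrL.c (I.pos (nat_lit 0) (nat_lit 0)) (xk (xa T0.l15 (xb T0.l15 T0.l15)) (xa T0.l15 T0.l15))
  (TrL.c (I.pos (nat_lit 0) (nat_lit 0)) T2.l11
  (TrL.c (I.mix (nat_lit 17240550) (nat_lit 96881482)) (xR T0.l12 T0.l12)
  (TrL.c (I.mix (nat_lit 17240550) (nat_lit 71940500)) T2.l12
  TrL.n)))))))) (by decide +kernel)
theorem bx2_9 : BoxOK sI cl9 cl9 cl4 t2 t0 b2_9 :=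
  box_mk (TrL.c (I.pos (nat_lit 0) (nat_lit 0)) (xa T2.l0 T2.l0)
  (TrL.c (I.pos (nat_lit 0) (nat_lit 0)) T0.l9
  (TrL.c (I.pos (nat_lit 0) (nat_lit 124588530)) (xR T2.l10 T2.l10)
  (TrL.c (I.pos (nat_lit 0) (nat_lit 96881482)) T0.l10
  (TrL.c (I.pos (nat_lit 0) (nat_lit 0)) (xk (xa T0.l13 T0.l15) (xa T0.l15 T0.l15))
  (TrL.c (I.pos (nat_lit 0) (nat_lit 0)) T2.l11
  (TrL.c (I.mix (nat_lit 17240550) (nat_lit 96881482)) T0.l12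
  (TrL.c (I.mix (nat_lit 17240550) (nat_lit 71940500)) T2.l12
  TrL.n)))))))) (by decide +kernel)
theorem bx2_10 : BoxOK sI cl9 cl9 cl4 t2 t0 b2_10 :=
  box_mk (TrL.c (I.pos (nat_lit 0) (nat_lit 0)) (xa (xa (xb (xa (xb T2.l16 T2.l16) T2.l16) (xa (xb T2.l16 (xa (xb T2.l16 T2.l16) T2.l16)) T2.l16)) (xb (xa T2.l16 T2.l16) (xa (xb T2.l16 T2.l16) (xb T2.l16 T2.l16)))) (xa (xb (xa (xb T2.l16 T2.l16) (xb T2.l16 T2.l16)) (xa (xa T2.l16 T2.l16) (xa (xb T2.l16 T2.l16) (xb T2.l16 T2.l16)))) (xa (xb (xb T2.l16 T2.l16) (xa (xb T2.l16 T2.l16) (xb T2.l16 T2.l16))) (xb (xa (xb T2.l19 T2.l19) (xb T2.l19 T2.l19)) (xa (xb T2.l19 (xa T2.l16 T2.l19)) (xb T2.l19 (xa T2.l19 T2.l19)))))))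
  (TrL.c (I.pos (nat_lit 0) (nat_lit 0)) (xa (xa (xk T0.l9 T0.l9) (xk T0.l9 T0.l9)) (xa (xk T0.l9 T0.l9) (xk T0.l9 T0.l9)))
  (TrL.c (I.pos (nat_lit 0) (nat_lit 124588530)) T2.l10
  (TrL.c (I.pos (nat_lit 0) (nat_lit 96881482)) T0.l10
  (TrL.c (I.pos (nat_lit 0) (nat_lit 0)) (xa (xa T0.l9 (xb T0.l17 T0.l17)) (xa (xk T0.l17 T0.l17) (xk (xb T0.l17 T0.l17) T0.l17)))
  (TrL.c (I.pos (nat_lit 0) (nat_lit 0)) (xa T2.l11 T2.l11)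
  (TrL.c (I.mix (nat_lit 17240550) (nat_lit 96881482)) T0.l12
  (TrL.c (I.mix (nat_lit 17240550) (nat_lit 71940500)) T2.l2
  TrL.n)))))))) (by decide +kernel)
theorem bx2_11 : BoxOK sI cl9 cl9 cl4 t2 t0 b2_11 :=
  box_mk (TrL.c (I.pos (nat_lit 0) (nat_lit 0)) (xb (xa (xb (xa T2.l20 T2.l20) (xa T2.l20 T2.l20)) (xb (xa T2.l13 T2.l0) (xa T2.l20 T2.l20))) (xa (xb (xa (xb T2.l20 T2.l16) T2.l20) (xa (xb T2.l16 T2.l16) (xb T2.l20 (xc T2.l20 T2.l20)))) (xb (xa T2.l20 T2.l20) (xa (xb T2.l20 T2.l20) (xb T2.l20 T2.l20)))))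
  (TrL.c (I.pos (nat_lit 0) (nat_lit 0)) (xb (xk T0.l9 T0.l9) T0.l9)
  (TrL.c (I.pos (nat_lit 0) (nat_lit 124588530)) (xR T2.l10 T2.l10)
  (TrL.c (I.pos (nat_lit 0) (nat_lit 96881482)) T0.l10
  (TrL.c (I.pos (nat_lit 0) (nat_lit 0)) (xb (xk (xa (xb T0.l18 T0.l18) (xb T0.l18 T0.l18)) (xa (xb T0.l18 T0.l18) (xb T0.l18 T0.l18))) (xk (xa T0.l18 T0.l18) (xa T0.l18 T0.l18)))
  (TrL.c (I.pos (nat_lit 0) (nat_lit 0)) T2.l11
  (TrL.c (I.mix (nat_lit 17240550) (nat_lit 96881482)) T0.l12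
  (TrL.c (I.mix (nat_lit 17240550) (nat_lit 71940500)) T2.l12
  TrL.n)))))))) (by decide +kernel)
theorem bx2_12 : BoxOK sI cl9 cl9 cl4 t2 t0 b2_12 :=
  box_mk (TrL.c (I.pos (nat_lit 0) (nat_lit 0)) (xa (xa (xb (xa (xb T2.l21 T2.l21) T2.l16) T2.l16) (xb T2.l16 T2.l16)) (xa (xb (xa T2.l16 T2.l16) T2.l16) (xb (xa T2.l16 T2.l16) (xa T2.l16 T2.l16))))
  (TrL.c (I.pos (nat_lit 0) (nat_lit 0)) (xa (xa T0.l16 T0.l9) (xa T0.l9 T0.l9))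
  (TrL.c (I.pos (nat_lit 0) (nat_lit 124588530)) T2.l10
  (TrL.c (I.pos (nat_lit 0) (nat_lit 96881482)) T0.l10
  (TrL.c (I.pos (nat_lit 0) (nat_lit 0)) (xa (xa T0.l9 (xb (xk T0.l14 T0.l14) T0.l16)) (xa (xk T0.l16 T0.l16) (xk T0.l16 T0.l16)))
  (TrL.c (I.pos (nat_lit 0) (nat_lit 0)) T2.l11
  (TrL.c (I.mix (nat_lit 17240550) (nat_lit 96881482)) T0.l12
  (TrL.c (I.mix (nat_lit 17240550) (nat_lit 71940500)) T2.l2
  TrL.n)))))))) (by decide +kernel)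
theorem bx2_13 : BoxOK sI cl9 cl9 cl4 t2 t0 b2_13 :=
  box_mk (TrL.c (I.pos (nat_lit 0) (nat_lit 0)) (xa T2.l0 T2.l0)
  (TrL.c (I.pos (nat_lit 0) (nat_lit 0)) (xk T0.l9 T0.l9)
  (TrL.c (I.pos (nat_lit 0) (nat_lit 124588530)) (xR T2.l10 T2.l10)
  (TrL.c (I.pos (nat_lit 0) (nat_lit 96881482)) (xR T0.l10 T0.l10)
  (TrL.c (I.pos (nat_lit 0) (nat_lit 0)) (xk T0.l11 T0.l11)
  (TrL.c (I.pos (nat_lit 0) (nat_lit 0)) T2.l11
  (TrL.c (I.mix (nat_lit 17240550) (nat_lit 96881482)) (xR T0.l12 T0.l12)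
  (TrL.c (I.mix (nat_lit 17240550) (nat_lit 71940500)) T2.l12
  TrL.n)))))))) (by decide +kernel)
theorem bx2_14 : BoxOK sI cl9 cl9 cl4 t2 t0 b2_14 :=
  box_mk (TrL.c (I.pos (nat_lit 0) (nat_lit 0)) (xa (xb T2.l0 T2.l0) (xb (xa T2.l0 T2.l0) (xa T2.l0 (xb T2.l0 T2.l0))))
  (TrL.c (I.pos (nat_lit 0) (nat_lit 0)) (xa (xk T0.l9 T0.l9) (xk (xb T0.l9 T0.l9) (xb T0.l9 T0.l9)))
  (TrL.c (I.pos (nat_lit 0) (nat_lit 124588530)) (xR T2.l10 T2.l10)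
  (TrL.c (I.pos (nat_lit 0) (nat_lit 96881482)) (xR T0.l10 (xR T0.l10 T0.l10))
  (TrL.c (I.pos (nat_lit 0) (nat_lit 0)) (xa (xk (xb (xa T0.l11 T0.l11) T0.l11) (xb (xa T0.l11 T0.l11) T0.l11)) (xk (xb (xa T0.l11 (xk T0.l11 T0.l11)) (xa T0.l11 (xk T0.l11 T0.l11))) (xb (xa (xk T0.l11 T0.l11) (xk T0.l11 T0.l11)) (xa T0.l11 T0.l11))))
  (TrL.c (I.pos (nat_lit 0) (nat_lit 0)) (xk (xa T2.l11 T2.l1) (xa T2.l11 T2.l11))
  (TrL.c (I.mix (nat_lit 17240550) (nat_lit 96881482)) (xR T0.l12 (xR T0.l12 (xR T0.l12 T0.l12)))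
  (TrL.c (I.mix (nat_lit 17240550) (nat_lit 71940500)) T2.l12
  TrL.n)))))))) (by decide +kernel)
theorem bx2_15 : BoxOK sI cl9 cl9 cl4 t2 t0 b2_15 :=
  box_mk (TrL.c (I.pos (nat_lit 0) (nat_lit 0)) (xa (xb (xa (xs T2.l0 T2.l0) T2.l0) (xa (xs T2.l0 (xb T2.l0 T2.l0)) (xs T2.l0 (xb T2.l0 T2.l0)))) (xb (xa T2.l0 T2.l0) (xa (xs T2.l0 (xb T2.l0 T2.l0)) (xs T2.l0 (xb T2.l0 T2.l0)))))
  (TrL.c (I.pos (nat_lit 0) (nat_lit 0)) (xk (xa T0.l9 T0.l9) (xa T0.l9 T0.l9))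
  (TrL.c (I.pos (nat_lit 0) (nat_lit 124588530)) (xR T2.l10 T2.l10)
  (TrL.c (I.pos (nat_lit 0) (nat_lit 96881482)) (xR T0.l10 T0.l10)
  (TrL.c (I.pos (nat_lit 0) (nat_lit 0)) (xk (xa T0.l11 T0.l11) T0.l11)
  (TrL.c (I.pos (nat_lit 0) (nat_lit 0)) T2.l11
  (TrL.c (I.mix (nat_lit 17240550) (nat_lit 96881482)) (xR T0.l12 T0.l12)
  (TrL.c (I.mix (nat_lit 17240550) (nat_lit 71940500)) T2.l12
  TrL.n)))))))) (by decide +kernel)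
theorem c2_16_0 : chkTag sI cl9 cl9 cl4 t2 b2_16 (tg true true false RT.r2) (I.pos (nat_lit 0) (nat_lit 0))
  (xa (xb (xa (xb (xa T2.l0 T2.l0) (xa T2.l0 T2.l0)) (xb (xa T2.l0 T2.l0) (xa T2.l0 T2.l0))) (xa (xb (xa (xs T2.l0 T2.l0) (xs T2.l0 T2.l0)) (xs (xa T2.l0 T2.l0) (xa (xc T2.l0 T2.l0) (xc T2.l0 T2.l0)))) (xb (xa (xs T2.l0 T2.l0) (xs T2.l0 T2.l0)) (xs (xa T2.l0 T2.l0) (xa (xc T2.l0 T2.l0) (xc T2.l0 T2.l0)))))) (xb (xa (xb (xa T2.l0 T2.l0) (xa T2.l0 T2.l0)) (xb T2.l0 (xs T2.l0 T2.l0))) (xa (xs (xb T2.l0 (xa T2.l0 T2.l0)) (xb (xa T2.l0 T2.l0) (xa T2.l0 T2.l0))) (xs (xa (xb T2.l0 T2.l0) T2.l0) (xb (xa T2.l0 T2.l0) (xa T2.l0 T2.l0)))))) = true := by decide +kernel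
theorem c2_16_1 : chkTag sI cl9 cl9 cl4 t0 b2_16 (tg true false false RT.r3) (I.pos (nat_lit 0) (nat_lit 0))
  (xa (xk (xb T0.l9 (xa T0.l9 T0.l9)) (xb T0.l9 (xa T0.l9 T0.l9))) (xk (xb (xa T0.l9 T0.l9) (xa T0.l9 T0.l9)) (xb T0.l9 (xa T0.l9 T0.l2)))) = true := by decide +kernel
theorem c2_16_2 : chkTag sI cl9 cl9 cl4 t2 b2_16 (Tag.mk true true false RT.tl RT.r4) (I.pos (nat_lit 0) (nat_lit 124588530))
  (xR T2.l10 (xR T2.l10 T2.l4)) = true := by decide +kernel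
theorem c2_16_3 : chkTag sI cl9 cl9 cl4 t0 b2_16 (Tag.mk true false false RT.tl RT.r5) (I.pos (nat_lit 0) (nat_lit 96881482))
  (xR T0.l10 (xR T0.l10 T0.l10)) = true := by decide +kernel
theorem c2_16_4 : chkTag sI cl9 cl9 cl4 t0 b2_16 (tg false false false RT.r3) (I.pos (nat_lit 0) (nat_lit 0))
  (xa (xk (xb (xa (xk T0.l11 T0.l11) (xk T0.l11 T0.l11)) (xa T0.l11 T0.l11)) (xb (xa (xk T0.l11 T0.l11) (xk T0.l11 T0.l11)) T0.l11)) (xk (xb (xa (xk (xb T0.l11 T0.l11) (xb T0.l11 T0.l11)) (xk (xb (xa T0.l11 T0.l11) T0.l11) (xb (xa T0.l11 T0.l11) T0.l11))) (xa (xk T0.l11 T0.l11) (xk (xb T0.l11 (xa T0.l11 T0.l11)) (xb T0.l11 (xa T0.l11 T0.l11))))) (xb (xa (xk (xb T0.l11 T0.l11) (xb T0.l11 T0.l11)) (xk (xb (xa T0.l11 T0.l11) T0.l11) (xb (xa T0.l11 T0.l11) T0.l11))) (xa (xk T0.l11 T0.l11) (xk (xb T0.l11 (xa T0.l11 T0.l11)) (xb T0.l11 (xa T0.l11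 T0.l11))))))) = true := by decide +kernel
theorem c2_16_5 : chkTag sI cl9 cl9 cl4 t2 b2_16 (tg false true false RT.r4) (I.pos (nat_lit 0) (nat_lit 0))
  (xk (xa T2.l11 (xb T2.l1 T2.l11)) (xa T2.l11 (xb T2.l11 T2.l11))) = true := by decide +kernel
theorem c2_16_6 : chkTag sI cl9 cl9 cl4 t0 b2_16 (Tag.mk false false false RT.tl RT.r5) (I.mix (nat_lit 17240550) (nat_lit 96881482))
  (xR T0.l12 (xR T0.l12 (xR T0.l12 T0.l12))) = true := by decide +kernel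
theorem c2_16_7 : chkTag sI cl9 cl9 cl4 t2 b2_16 (Tag.mk false true false RT.tl RT.r6) (I.mix (nat_lit 17240550) (nat_lit 71940500))
  T2.l12 = true := by decide +kernel
theorem bx2_16 : BoxOK sI cl9 cl9 cl4 t2 t0 b2_16 :=
  box_mk' [(tg true true false RT.r2), (tg true false false RT.r3), (Tag.mk true true false RT.tl RT.r4), (Tag.mk true false false RT.tl RT.r5), (tg false false false RT.r3), (tg false true false RT.r4), (Tag.mk false false false RT.tl RT.r5), (Tag.mk false true false RT.tl RT.r6)] rfl (allL_c (ex_mk c2_16_0) (allL_c (ex_mk c2_16_1) (allL_c (ex_mk c2_16_2) (allL_c (ex_mk c2_16_3) (allL_c (ex_mk c2_16_4) (allL_c (ex_mk c2_16_5) (allL_c (ex_mk c2_16_6) (allL_c (ex_mk c2_16_7) allL_n))))))))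
theorem bx2_17 : BoxOK sI cl9 cl9 cl4 t2 t0 b2_17 :=
  box_mk (TrL.c (I.pos (nat_lit 0) (nat_lit 0)) T2.l0
  (TrL.c (I.pos (nat_lit 0) (nat_lit 0)) T0.l9
  (TrL.c (I.pos (nat_lit 0) (nat_lit 124588530)) (xR T2.l10 T2.l10)
  (TrL.c (I.pos (nat_lit 0) (nat_lit 96881482)) (xR T0.l10 T0.l10)
  (TrL.c (I.pos (nat_lit 0) (nat_lit 0)) T0.l11
  (TrL.c (I.pos (nat_lit 0) (nat_lit 0)) T2.l11
  (TrL.c (I.mix (nat_lit 17240550) (nat_lit 96881482)) (xR T0.l12 T0.l12)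
  (TrL.c (I.mix (nat_lit 17240550) (nat_lit 71940500)) T2.l12
  TrL.n)))))))) (by decide +kernel)
theorem bx2_18 : BoxOK sI cl9 cl9 cl4 t2 t0 b2_18 :=
  box_mk (TrL.c (I.pos (nat_lit 0) (nat_lit 0)) T2.l0
  (TrL.c (I.pos (nat_lit 0) (nat_lit 0)) T0.l2
  (TrL.c (I.pos (nat_lit 0) (nat_lit 124588530)) (xR T2.l10 T2.l10)
  (TrL.c (I.pos (nat_lit 0) (nat_lit 96881482)) (xR T0.l10 T0.l10)
  (TrL.c (I.pos (nat_lit 0) (nat_lit 0)) (xk T0.l0 T0.l0)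
  (TrL.c (I.pos (nat_lit 0) (nat_lit 0)) T2.l11
  (TrL.c (I.mix (nat_lit 17240550) (nat_lit 96881482)) (xR T0.l12 (xR T0.l12 T0.l12))
  (TrL.c (I.mix (nat_lit 17240550) (nat_lit 71940500)) T2.l12
  TrL.n)))))))) (by decide +kernel)
theorem bx2_19 : BoxOK sI cl9 cl9 cl4 t2 t0 b2_19 :=
  box_mk (TrL.c (I.pos (nat_lit 0) (nat_lit 0)) (xa (xa T2.l0 T2.l0) (xa (xb T2.l0 T2.l0) (xb (xa T2.l0 T2.l0) (xs T2.l0 (xa T2.l0 T2.l0)))))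
  (TrL.c (I.pos (nat_lit 0) (nat_lit 0)) (xa (xk T0.l9 T0.l9) (xk (xa T0.l9 T0.l9) (xa T0.l9 T0.l2)))
  (TrL.c (I.pos (nat_lit 0) (nat_lit 124588530)) (xR T2.l10 (xR T2.l10 T2.l10))
  (TrL.c (I.pos (nat_lit 0) (nat_lit 96881482)) (xR T0.l10 (xR T0.l10 T0.l10))
  (TrL.c (I.pos (nat_lit 0) (nat_lit 0)) (xa (xk T0.l11 T0.l11) (xk (xa T0.l11 (xb T0.l11 (xk T0.l11 T0.l11))) (xa T0.l11 (xb T0.l11 (xk T0.l11 T0.l11)))))
  (TrL.c (I.pos (nat_lit 0) (nat_lit 0)) (xk (xa T2.l11 T2.l11) T2.l11)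
  (TrL.c (I.mix (nat_lit 17240550) (nat_lit 96881482)) (xR T0.l12 (xR T0.l12 (xR T0.l12 T0.l12)))
  (TrL.c (I.mix (nat_lit 17240550) (nat_lit 71940500)) T2.l12
  TrL.n)))))))) (by decide +kernel)
theorem bx2_20 : BoxOK sI cl9 cl9 cl4 t2 t0 b2_20 :=
  box_mk (TrL.c (I.pos (nat_lit 0) (nat_lit 0)) (xa T2.l0 T2.l0)
  (TrL.c (I.pos (nat_lit 0) (nat_lit 0)) (xk T0.l9 T0.l9)
  (TrL.c (I.pos (nat_lit 0) (nat_lit 124588530)) (xR T2.l10 T2.l10)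
  (TrL.c (I.pos (nat_lit 0) (nat_lit 96881482)) (xR T0.l10 T0.l10)
  (TrL.c (I.pos (nat_lit 0) (nat_lit 0)) (xk T0.l11 T0.l11)
  (TrL.c (I.pos (nat_lit 0) (nat_lit 0)) T2.l11
  (TrL.c (I.mix (nat_lit 17240550) (nat_lit 96881482)) (xR T0.l12 T0.l12)
  (TrL.c (I.mix (nat_lit 17240550) (nat_lit 71940500)) T2.l12
  TrL.n)))))))) (by decide +kernel)
theorem bx2_21 : BoxOK sI cl9 cl9 cl4 t2 t0 b2_21 :=
  box_mk (TrL.c (I.pos (nat_lit 0) (nat_lit 0)) T2.l0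
  (TrL.c (I.pos (nat_lit 0) (nat_lit 0)) T0.l9
  (TrL.c (I.pos (nat_lit 0) (nat_lit 124588530)) (xR T2.l10 T2.l10)
  (TrL.c (I.pos (nat_lit 0) (nat_lit 96881482)) (xR T0.l10 T0.l10)
  (TrL.c (I.pos (nat_lit 0) (nat_lit 0)) (xk T0.l11 T0.l11)
  (TrL.c (I.pos (nat_lit 0) (nat_lit 0)) T2.l11
  (TrL.c (I.mix (nat_lit 17240550) (nat_lit 96881482)) (xR T0.l12 (xR T0.l12 T0.l12))
  (TrL.c (I.mix (nat_lit 17240550) (nat_lit 71940500)) T2.l12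
  TrL.n)))))))) (by decide +kernel)
theorem sv2 : StarV sI cl9 cl9 cl4 t2 t0 t2 :=
  (bt_n (bt_n (bt_n (bt_n (bt_b bx2_0) (bt_b bx2_1)) (bt_n (bt_b bx2_2) (bt_n (bt_b bx2_3) (bt_b bx2_4)))) (bt_n (bt_n (bt_b bx2_5) (bt_n (bt_b bx2_6) (bt_b bx2_7))) (bt_n (bt_b bx2_8) (bt_n (bt_b bx2_9) (bt_b bx2_10))))) (bt_n (bt_n (bt_n (bt_b bx2_11) (bt_b bx2_12)) (bt_n (bt_b bx2_13) (bt_n (bt_b bx2_14) (bt_b bx2_15)))) (bt_n (bt_n (bt_b bx2_16) (bt_n (bt_b bx2_17) (bt_b bx2_18))) (bt_n (bt_b bx2_19) (bt_n (bt_b bx2_20) (bt_b bx2_21))))))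
def S2 : StarD := StarD.mk cl9 cl9 cl4 2 0 t2
def G : List StarD := [S0, S1, S2]
theorem so0 : StarOK sI G S0 :=
  star_mk (by decide) (by decide) rfl rfl rfl rfl rfl rfl (rfl : _ = t1) (rfl : _ = t1)
  (st_mk (Pth.l (Pth.l (Pth.l (Pth.l Pth.z)))) (nat_lit 119184332) (nat_lit 139146721) (by decide +kernel))
  (st_mk (Pth.l (Pth.l (Pth.l (Pth.l Pth.z)))) (nat_lit 155196136) (nat_lit 179835381) (by decide +kernel))
  (st_mk (Pth.l (Pth.l (Pth.l (Pth.l Pth.z)))) (nat_lit 200062904) (nat_lit 226010417) (by decide +kernel)) sv0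
theorem so1 : StarOK sI G S1 :=
  star_mk (by decide) (by decide) rfl rfl rfl rfl rfl rfl (rfl : _ = t0) (rfl : _ = t2)
  (st_mk (Pth.l (Pth.l (Pth.l (Pth.l Pth.z)))) (nat_lit 367022531) (nat_lit 371708881) (by decide +kernel))
  (st_mk (Pth.l (Pth.l (Pth.l (Pth.l Pth.z)))) (nat_lit 402476949) (nat_lit 407794824) (by decide +kernel))
  (st_mk (Pth.l (Pth.l (Pth.l (Pth.l Pth.z)))) (nat_lit 443450809) (nat_lit 449574985) (by decide +kernel)) sv1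
theorem so2 : StarOK sI G S2 :=
  star_mk (by decide) (by decide) rfl rfl rfl rfl rfl rfl (rfl : _ = t2) (rfl : _ = t0)
  (st_mk (Pth.l (Pth.l (Pth.l (Pth.l Pth.z)))) (nat_lit 115611436) (nat_lit 134389244) (by decide +kernel))
  (st_mk (Pth.l (Pth.l (Pth.l (Pth.l Pth.z)))) (nat_lit 150871846) (nat_lit 170109692) (by decide +kernel))
  (st_mk (Pth.l (Pth.l (Pth.l (Pth.l Pth.z)))) (nat_lit 191677634) (nat_lit 211575053) (by decide +kernel)) sv2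
theorem ok : GroupOK (nat_lit 209321984) (nat_lit 268435456) G := grp_mk (allS_c so0 (allS_c so1 (allS_c so2 allS_n)))
theorem cov : GCov G cl4 cl9 cl9 := cov_mk
  ⟨0, by decide, rfl, rfl, rfl⟩ ⟨0, by decide, rfl, rfl, rfl⟩ ⟨1, by decide, rfl, rfl, rfl⟩ ⟨2, by decide, rfl, rfl, rfl⟩ ⟨1, by decide, rfl, rfl, rfl⟩ ⟨2, by decide, rfl, rfl, rfl⟩
end Q155_3

namespace Q156_0
def sI : I := I.pos (nat_lit 0) (nat_lit 91291648)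
def b0_0 : Bx := Bx.mk (St.mk (I.pos (nat_lit 154501120) (nat_lit 267239424)) (I.mix (nat_lit 33832960) (nat_lit 60145664)) (I.mix (nat_lit 125960192) (nat_lit 70467584)) (I.pos (nat_lit 106135552) (nat_lit 313409536)) (I.mix (nat_lit 80232448) (nat_lit 61915136)) (I.mix (nat_lit 75677696) (nat_lit 70533120)) (I.mix (nat_lit 123076608) (nat_lit 154550272)))
  false (nat_lit 0)
def b0_1 : Bx := Bx.mk (St.mk (I.mix (nat_lit 17858560) (nat_lit 134004736)) (I.mix (nat_lit 11026432) (nat_lit 31784960)) (I.mix (nat_lit 30392320) (nat_lit 10207232)) (I.pos (nat_lit 13238272) (nat_lit 100614144)) (I.mix (nat_lit 23691264) (nat_lit 29671424)) (I.mix (nat_lit 30441472) (nat_lit 21118976)) (I.mix (nat_lit 24625152) (nat_lit 20709376)))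
  false (nat_lit 0)
def b0_2 : Bx := Bx.mk (St.mk (I.pos (nat_lit 108003328) (nat_lit 149651456)) (I.mix (nat_lit 55410688) (nat_lit 14057472)) (I.neg (nat_lit 2539520) (nat_lit 75317248)) (I.pos (nat_lit 62914560) (nat_lit 120815616)) (I.mix (nat_lit 99237888) (nat_lit 24231936)) (I.mix (nat_lit 46563328) (nat_lit 103890944)) (I.mix (nat_lit 34717696) (nat_lit 100122624)))
  false (nat_lit 0)
def b0_3 : Bx := Bx.mk (St.mk (I.mix (nat_lit 23740416) (nat_lit 93749248)) (I.mix (nat_lit 27443200) (nat_lit 3620864)) (I.neg (nat_lit 589824) (nat_lit 28672000)) (I.pos (nat_lit 15056896) (nat_lit 67616768)) (I.mix (nat_lit 36192256) (nat_lit 11517952)) (I.mix (nat_lit 18350080) (nat_lit 33275904)) (I.mix (nat_lit 9830400) (nat_lit 19824640)))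
  false (nat_lit 0)
def b0_4 : Bx := Bx.mk (St.mk (I.pos (nat_lit 103972864) (nat_lit 127057920)) (I.mix (nat_lit 11583488) (nat_lit 10371072)) (I.neg (nat_lit 4603904) (nat_lit 30048256)) (I.pos (nat_lit 60440576) (nat_lit 98074624)) (I.mix (nat_lit 23281664) (nat_lit 16252928)) (I.mix (nat_lit 18366464) (nat_lit 20398080)) (I.mix (nat_lit 15122432) (nat_lit 20496384)))
  false (nat_lit 0)
def b0_5 : Bx := Bx.mk (St.mk (I.mix (nat_lit 28573696) (nat_lit 82657280)) (I.mix (nat_lit 5980160) (nat_lit 5341184)) (I.neg (nat_lit 1933312) (nat_lit 15351808)) (I.pos (nat_lit 15843328) (nat_lit 60358656)) (I.mix (nat_lit 10682368) (nat_lit 7012352)) (I.mix (nat_lit 6799360) (nat_lit 6553600)) (I.mix (nat_lit 3637248) (nat_lit 4882432)))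
  false (nat_lit 0)
def b0_6 : Bx := Bx.mk (St.mk (I.pos (nat_lit 104873984) (nat_lit 177651712)) (I.mix (nat_lit 57081856) (nat_lit 5210112)) (I.neg (nat_lit 15892480) (nat_lit 72531968)) (I.pos (nat_lit 75137024) (nat_lit 156991488)) (I.mix (nat_lit 84180992) (nat_lit 50069504)) (I.mix (nat_lit 49348608) (nat_lit 88752128)) (I.mix (nat_lit 42500096) (nat_lit 92798976)))
  false (nat_lit 4035553)
def b0_7 : Bx := Bx.mk (St.mk (I.mix (nat_lit 18448384) (nat_lit 118013952)) (I.mix (nat_lit 30687232) (nat_lit 6668288)) (I.neg (nat_lit 409600) (nat_lit 30621696)) (I.pos (nat_lit 14073856) (nat_lit 76218368)) (I.mix (nat_lit 38436864) (nat_lit 24461312)) (I.mix (nat_lit 22167552) (nat_lit 38109184)) (I.mix (nat_lit 11599872) (nat_lit 24739840)))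
  false (nat_lit 0)
def b0_8 : Bx := Bx.mk (St.mk (I.mix (nat_lit 27803648) (nat_lit 143474688)) (I.mix (nat_lit 15515648) (nat_lit 35799040)) (I.mix (nat_lit 23576576) (nat_lit 13533184)) (I.pos (nat_lit 13172736) (nat_lit 97124352)) (I.mix (nat_lit 40763392) (nat_lit 35749888)) (I.mix (nat_lit 53395456) (nat_lit 39862272)) (I.mix (nat_lit 32407552) (nat_lit 22888448)))
  false (nat_lit 0)
def b0_9 : Bx := Bx.mk (St.mk (I.pos (nat_lit 149520384) (nat_lit 230424576)) (I.mix (nat_lit 40665088) (nat_lit 66207744)) (I.mix (nat_lit 65748992) (nat_lit 72564736)) (I.pos (nat_lit 110673920) (nat_lit 235175936)) (I.mix (nat_lit 117555200) (nat_lit 57507840)) (I.mix (nat_lit 142491648) (nat_lit 90308608)) (I.mix (nat_lit 161234944) (nat_lit 100564992)))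
  false (nat_lit 8296342)
def t0 : BTr := (BTr.n (BTr.n (BTr.n (BTr.b b0_0) (BTr.b b0_1)) (BTr.n (BTr.b b0_2) (BTr.n (BTr.b b0_3) (BTr.b b0_4)))) (BTr.n (BTr.n (BTr.b b0_5) (BTr.b b0_6)) (BTr.n (BTr.b b0_7) (BTr.n (BTr.b b0_8) (BTr.b b0_9)))))
namespace T0
def l0 : Tr := Tr.L (Pth.l (Pth.l (Pth.l Pth.z)))
def l1 : Tr := Tr.L (Pth.l (Pth.l (Pth.r Pth.z)))
def l2 : Tr := Tr.L (Pth.l (Pth.r (Pth.l Pth.z)))
def l3 : Tr := Tr.L (Pth.l (Pth.r (Pth.r (Pth.l Pth.z))))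
def l4 : Tr := Tr.L (Pth.l (Pth.r (Pth.r (Pth.r Pth.z))))
def l5 : Tr := Tr.L (Pth.r (Pth.l (Pth.l Pth.z)))
def l6 : Tr := Tr.L (Pth.r (Pth.l (Pth.r Pth.z)))
def l7 : Tr := Tr.L (Pth.r (Pth.r (Pth.l Pth.z)))
def l8 : Tr := Tr.L (Pth.r (Pth.r (Pth.r (Pth.l Pth.z))))
def l9 : Tr := Tr.L (Pth.r (Pth.r (Pth.r (Pth.r Pth.z))))
end T0
def b1_0 : Bx := Bx.mk (St.mk (I.pos (nat_lit 154451968) (nat_lit 268288000)) (I.mix (nat_lit 32555008) (nat_lit 56459264)) (I.mix (nat_lit 115228672) (nat_lit 70729728)) (I.pos (nat_lit 86212608) (nat_lit 296075264)) (I.mix (nat_lit 78168064) (nat_lit 57622528)) (I.mix (nat_lit 75399168) (nat_lit 67682304)) (I.mix (nat_lit 126828544) (nat_lit 144932864)))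
  false (nat_lit 0)
def b1_1 : Bx := Bx.mk (St.mk (I.mix (nat_lit 12025856) (nat_lit 143392768)) (I.mix (nat_lit 10387456) (nat_lit 25706496)) (I.mix (nat_lit 25657344) (nat_lit 13369344)) (I.mix (nat_lit 5685248) (nat_lit 90685440)) (I.mix (nat_lit 22446080) (nat_lit 25395200)) (I.mix (nat_lit 24363008) (nat_lit 19759104)) (I.mix (nat_lit 21217280) (nat_lit 20135936)))
  false (nat_lit 0)
def b1_2 : Bx := Bx.mk (St.mk (I.pos (nat_lit 118325248) (nat_lit 157532160)) (I.mix (nat_lit 52674560) (nat_lit 13418496)) (I.mix (nat_lit 71647232) (nat_lit 884736)) (I.pos (nat_lit 52920320) (nat_lit 111181824)) (I.mix (nat_lit 94158848) (nat_lit 22872064)) (I.mix (nat_lit 44072960) (nat_lit 101466112)) (I.mix (nat_lit 36126720) (nat_lit 102449152)))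
  false (nat_lit 0)
def b1_3 : Bx := Bx.mk (St.mk (I.mix (nat_lit 15400960) (nat_lit 111198208)) (I.mix (nat_lit 25231360) (nat_lit 2326528)) (I.mix (nat_lit 26689536) (nat_lit 2064384)) (I.mix (nat_lit 3981312) (nat_lit 60506112)) (I.mix (nat_lit 34848768) (nat_lit 11468800)) (I.mix (nat_lit 18792448) (nat_lit 35684352)) (I.mix (nat_lit 11026432) (nat_lit 24248320)))
  false (nat_lit 0)
def b1_4 : Bx := Bx.mk (St.mk (I.mix (nat_lit 18169856) (nat_lit 118308864)) (I.mix (nat_lit 2228224) (nat_lit 2932736)) (I.mix (nat_lit 10928128) (nat_lit 1179648)) (I.mix (nat_lit 3833856) (nat_lit 57950208)) (I.mix (nat_lit 5816320) (nat_lit 2719744)) (I.mix (nat_lit 2834432) (nat_lit 2719744)) (I.mix (nat_lit 966656) (nat_lit 1933312)))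
  false (nat_lit 0)
def b1_5 : Bx := Bx.mk (St.mk (I.pos (nat_lit 114032640) (nat_lit 136249344)) (I.mix (nat_lit 10829824) (nat_lit 9256960)) (I.neg (nat_lit 1736704) (nat_lit 25182208)) (I.pos (nat_lit 50462720) (nat_lit 87441408)) (I.mix (nat_lit 21823488) (nat_lit 13238272)) (I.mix (nat_lit 15859712) (nat_lit 19202048)) (I.mix (nat_lit 13844480) (nat_lit 19955712)))
  false (nat_lit 0)
def b1_6 : Bx := Bx.mk (St.mk (I.pos (nat_lit 115687424) (nat_lit 183566336)) (I.mix (nat_lit 53821440) (nat_lit 3801088)) (I.neg (nat_lit 10305536) (nat_lit 66453504)) (I.pos (nat_lit 66043904) (nat_lit 143736832)) (I.mix (nat_lit 75431936) (nat_lit 53575680)) (I.mix (nat_lit 50790400) (nat_lit 91291648)) (I.mix (nat_lit 44974080) (nat_lit 98992128)))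
  false (nat_lit 0)
def b1_7 : Bx := Bx.mk (St.mk (I.mix (nat_lit 13402112) (nat_lit 119259136)) (I.mix (nat_lit 27820032) (nat_lit 7340032)) (I.mix (nat_lit 27705344) (nat_lit 2031616)) (I.mix (nat_lit 4423680) (nat_lit 68222976)) (I.mix (nat_lit 32866304) (nat_lit 24887296)) (I.mix (nat_lit 20742144) (nat_lit 36847616)) (I.mix (nat_lit 12189696) (nat_lit 26886144)))
  false (nat_lit 0)
def b1_8 : Bx := Bx.mk (St.mk (I.pos (nat_lit 157712384) (nat_lit 227868672)) (I.mix (nat_lit 36454400) (nat_lit 60768256)) (I.mix (nat_lit 57475072) (nat_lit 74416128)) (I.pos (nat_lit 99368960) (nat_lit 212893696)) (I.mix (nat_lit 115064832) (nat_lit 55263232)) (I.mix (nat_lit 141312000) (nat_lit 81100800)) (I.mix (nat_lit 169295872) (nat_lit 94732288)))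
  false (nat_lit 0)
def b1_9 : Bx := Bx.mk (St.mk (I.mix (nat_lit 18186240) (nat_lit 142786560)) (I.mix (nat_lit 16203776) (nat_lit 33865728)) (I.mix (nat_lit 22167552) (nat_lit 17252352)) (I.mix (nat_lit 5537792) (nat_lit 87949312)) (I.mix (nat_lit 42254336) (nat_lit 28196864)) (I.mix (nat_lit 53297152) (nat_lit 35127296)) (I.mix (nat_lit 37158912) (nat_lit 23314432)))
  false (nat_lit 0)
def t1 : BTr := (BTr.n (BTr.n (BTr.n (BTr.b b1_0) (BTr.b b1_1)) (BTr.n (BTr.b b1_2) (BTr.n (BTr.b b1_3) (BTr.b b1_4)))) (BTr.n (BTr.n (BTr.b b1_5) (BTr.b b1_6)) (BTr.n (BTr.b b1_7) (BTr.n (BTr.b b1_8) (BTr.b b1_9)))))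
namespace T1
def l0 : Tr := Tr.L (Pth.l (Pth.l (Pth.l Pth.z)))
def l1 : Tr := Tr.L (Pth.l (Pth.l (Pth.r Pth.z)))
def l2 : Tr := Tr.L (Pth.l (Pth.r (Pth.l Pth.z)))
def l3 : Tr := Tr.L (Pth.l (Pth.r (Pth.r (Pth.l Pth.z))))
def l4 : Tr := Tr.L (Pth.l (Pth.r (Pth.r (Pth.r Pth.z))))
def l5 : Tr := Tr.L (Pth.r (Pth.l (Pth.l Pth.z)))
def l6 : Tr := Tr.L (Pth.r (Pth.l (Pth.r Pth.z)))
def l7 : Tr := Tr.L (Pth.r (Pth.r (Pth.l Pth.z)))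
def l8 : Tr := Tr.L (Pth.r (Pth.r (Pth.r (Pth.l Pth.z))))
def l9 : Tr := Tr.L (Pth.r (Pth.r (Pth.r (Pth.r Pth.z))))
end T1
def b2_0 : Bx := Bx.mk (St.mk (I.pos (nat_lit 147013632) (nat_lit 294420480)) (I.mix (nat_lit 29097984) (nat_lit 95731712)) (I.mix (nat_lit 168558592) (nat_lit 104235008)) (I.pos (nat_lit 353386496) (nat_lit 584286208)) (I.mix (nat_lit 98074624) (nat_lit 89505792)) (I.mix (nat_lit 114442240) (nat_lit 76660736)) (I.mix (nat_lit 165986304) (nat_lit 115376128)))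
  false (nat_lit 162696418)
def b2_1 : Bx := Bx.mk (St.mk (I.mix (nat_lit 65437696) (nat_lit 18448384)) (I.mix (nat_lit 20332544) (nat_lit 95141888)) (I.neg (nat_lit 38862848) (nat_lit 68206592)) (I.pos (nat_lit 262619136) (nat_lit 290930688)) (I.mix (nat_lit 44859392) (nat_lit 88457216)) (I.mix (nat_lit 92766208) (nat_lit 57753600)) (I.mix (nat_lit 32538624) (nat_lit 27344896)))
  true (nat_lit 0)
def b2_2 : Bx := Bx.mk (St.mk (I.mix (nat_lit 18448384) (nat_lit 65437696)) (I.mix (nat_lit 95141888) (nat_lit 20332544)) (I.neg (nat_lit 38879232) (nat_lit 68206592)) (I.pos (nat_lit 262619136) (nat_lit 290930688)) (I.mix (nat_lit 88457216) (nat_lit 44859392)) (I.mix (nat_lit 57753600) (nat_lit 92766208)) (I.mix (nat_lit 32538624) (nat_lit 27344896)))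
  false (nat_lit 0)
def b2_3 : Bx := Bx.mk (St.mk (I.pos (nat_lit 28409856) (nat_lit 130678784)) (I.neg (nat_lit 4128768) (nat_lit 94846976)) (I.mix (nat_lit 84590592) (nat_lit 4063232)) (I.pos (nat_lit 263536640) (nat_lit 331874304)) (I.mix (nat_lit 83361792) (nat_lit 65404928)) (I.mix (nat_lit 58408960) (nat_lit 88834048)) (I.mix (nat_lit 58769408) (nat_lit 70500352)))
  false (nat_lit 0)
def b2_4 : Bx := Bx.mk (St.mk (I.pos (nat_lit 89423872) (nat_lit 196771840)) (I.mix (nat_lit 46186496) (nat_lit 102416384)) (I.mix (nat_lit 40583168) (nat_lit 107839488)) (I.pos (nat_lit 291094528) (nat_lit 420380672)) (I.mix (nat_lit 124452864) (nat_lit 64192512)) (I.mix (nat_lit 143196160) (nat_lit 88670208)) (I.mix (nat_lit 140722176) (nat_lit 107151360)))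
  false (nat_lit 107252796)
def b2_5 : Bx := Bx.mk (St.mk (I.neg (nat_lit 28393472) (nat_lit 130662400)) (I.pos (nat_lit 4128768) (nat_lit 94846976)) (I.mix (nat_lit 84590592) (nat_lit 4063232)) (I.pos (nat_lit 263536640) (nat_lit 331890688)) (I.mix (nat_lit 65421312) (nat_lit 84623360)) (I.mix (nat_lit 88834048) (nat_lit 58228736)) (I.mix (nat_lit 58802176) (nat_lit 70500352)))
  true (nat_lit 0)
def t2 : BTr := (BTr.n (BTr.n (BTr.b b2_0) (BTr.n (BTr.b b2_1) (BTr.b b2_2))) (BTr.n (BTr.b b2_3) (BTr.n (BTr.b b2_4) (BTr.b b2_5))))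
namespace T2
def l0 : Tr := Tr.L (Pth.l (Pth.l Pth.z))
def l1 : Tr := Tr.L (Pth.l (Pth.r (Pth.l Pth.z)))
def l2 : Tr := Tr.L (Pth.l (Pth.r (Pth.r Pth.z)))
def l3 : Tr := Tr.L (Pth.r (Pth.l Pth.z))
def l4 : Tr := Tr.L (Pth.r (Pth.r (Pth.l Pth.z)))
def l5 : Tr := Tr.L (Pth.r (Pth.r (Pth.r Pth.z)))
end T2
def b3_0 : Bx := Bx.mk (St.mk (I.pos (nat_lit 153272320) (nat_lit 288997376)) (I.mix (nat_lit 33341440) (nat_lit 46186496)) (I.mix (nat_lit 18481152) (nat_lit 122142720)) (I.pos (nat_lit 83066880) (nat_lit 325468160)) (I.mix (nat_lit 81756160) (nat_lit 65667072)) (I.mix (nat_lit 103006208) (nat_lit 70336512)) (I.mix (nat_lit 159744000) (nat_lit 97042432)))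
  false (nat_lit 46035971)
def b3_1 : Bx := Bx.mk (St.mk (I.pos (nat_lit 127123456) (nat_lit 181813248)) (I.neg (nat_lit 3670016) (nat_lit 62078976)) (I.mix (nat_lit 46727168) (nat_lit 20234240)) (I.pos (nat_lit 78446592) (nat_lit 136298496)) (I.mix (nat_lit 66224128) (nat_lit 40943616)) (I.mix (nat_lit 39665664) (nat_lit 56737792)) (I.mix (nat_lit 37224448) (nat_lit 58294272)))
  false (nat_lit 15723814)
def b3_2 : Bx := Bx.mk (St.mk (I.mix (nat_lit 12533760) (nat_lit 118325248)) (I.mix (nat_lit 27836416) (nat_lit 2146304)) (I.mix (nat_lit 11272192) (nat_lit 12173312)) (I.mix (nat_lit 4259840) (nat_lit 65355776)) (I.mix (nat_lit 20267008) (nat_lit 20938752)) (I.mix (nat_lit 15351808) (nat_lit 20922368)) (I.mix (nat_lit 9617408) (nat_lit 15122432)))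
  false (nat_lit 0)
def b3_3 : Bx := Bx.mk (St.mk (I.pos (nat_lit 164102144) (nat_lit 218169344)) (I.mix (nat_lit 42450944) (nat_lit 58343424)) (I.mix (nat_lit 21463040) (nat_lit 124649472)) (I.pos (nat_lit 106725376) (nat_lit 186777600)) (I.mix (nat_lit 133873664) (nat_lit 44433408)) (I.mix (nat_lit 163348480) (nat_lit 73646080)) (I.mix (nat_lit 218005504) (nat_lit 76922880)))
  false (nat_lit 22260408)
def b3_4 : Bx := Bx.mk (St.mk (I.mix (nat_lit 17186816) (nat_lit 136364032)) (I.mix (nat_lit 16744448) (nat_lit 33554432)) (I.mix (nat_lit 2850816) (nat_lit 40599552)) (I.mix (nat_lit 5210112) (nat_lit 82149376)) (I.mix (nat_lit 55050240) (nat_lit 21577728)) (I.mix (nat_lit 58884096) (nat_lit 32325632)) (I.mix (nat_lit 47857664) (nat_lit 20316160)))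
  false (nat_lit 0)
def b3_5 : Bx := Bx.mk (St.mk (I.mix (nat_lit 18857984) (nat_lit 126271488)) (I.mix (nat_lit 14221312) (nat_lit 4603904)) (I.mix (nat_lit 1458176) (nat_lit 15843328)) (I.mix (nat_lit 4440064) (nat_lit 68648960)) (I.mix (nat_lit 13484032) (nat_lit 10895360)) (I.mix (nat_lit 8601600) (nat_lit 10272768)) (I.mix (nat_lit 7749632) (nat_lit 6602752)))
  false (nat_lit 0)
def b3_6 : Bx := Bx.mk (St.mk (I.pos (nat_lit 47153152) (nat_lit 143654912)) (I.mix (nat_lit 10452992) (nat_lit 26476544)) (I.pos (nat_lit 360448) (nat_lit 37257216)) (I.pos (nat_lit 12517376) (nat_lit 92291072)) (I.mix (nat_lit 37486592) (nat_lit 31031296)) (I.mix (nat_lit 45989888) (nat_lit 26017792)) (I.mix (nat_lit 40189952) (nat_lit 19283968)))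
  false (nat_lit 0)
def b3_7 : Bx := Bx.mk (St.mk (I.pos (nat_lit 116244480) (nat_lit 173293568)) (I.mix (nat_lit 65306624) (nat_lit 14368768)) (I.mix (nat_lit 42778624) (nat_lit 28622848)) (I.pos (nat_lit 51134464) (nat_lit 123633664)) (I.mix (nat_lit 83656704) (nat_lit 37912576)) (I.mix (nat_lit 51494912) (nat_lit 90341376)) (I.mix (nat_lit 42205184) (nat_lit 73072640)))
  false (nat_lit 16781090)
def b3_8 : Bx := Bx.mk (St.mk (I.pos (nat_lit 2752512) (nat_lit 113950720)) (I.mix (nat_lit 27934720) (nat_lit 4767744)) (I.mix (nat_lit 9715712) (nat_lit 10485760)) (I.mix (nat_lit 4423680) (nat_lit 62308352)) (I.mix (nat_lit 25493504) (nat_lit 19251200)) (I.mix (nat_lit 19021824) (nat_lit 34979840)) (I.mix (nat_lit 10633216) (nat_lit 19939328)))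
  false (nat_lit 0)
def b3_9 : Bx := Bx.mk (St.mk (I.pos (nat_lit 157483008) (nat_lit 185237504)) (I.neg (nat_lit 1130496) (nat_lit 37847040)) (I.mix (nat_lit 11960320) (nat_lit 29687808)) (I.pos (nat_lit 98615296) (nat_lit 143540224)) (I.mix (nat_lit 38993920) (nat_lit 29327360)) (I.mix (nat_lit 29851648) (nat_lit 35717120)) (I.mix (nat_lit 38600704) (nat_lit 33832960)))
  false (nat_lit 0)
def t3 : BTr := (BTr.n (BTr.n (BTr.n (BTr.b b3_0) (BTr.b b3_1)) (BTr.n (BTr.b b3_2) (BTr.n (BTr.b b3_3) (BTr.b b3_4)))) (BTr.n (BTr.n (BTr.b b3_5) (BTr.b b3_6)) (BTr.n (BTr.b b3_7) (BTr.n (BTr.b b3_8) (BTr.b b3_9)))))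
namespace T3
def l0 : Tr := Tr.L (Pth.l (Pth.l (Pth.l Pth.z)))
def l1 : Tr := Tr.L (Pth.l (Pth.l (Pth.r Pth.z)))
def l2 : Tr := Tr.L (Pth.l (Pth.r (Pth.l Pth.z)))
def l3 : Tr := Tr.L (Pth.l (Pth.r (Pth.r (Pth.l Pth.z))))
def l4 : Tr := Tr.L (Pth.l (Pth.r (Pth.r (Pth.r Pth.z))))
def l5 : Tr := Tr.L (Pth.r (Pth.l (Pth.l Pth.z)))
def l6 : Tr := Tr.L (Pth.r (Pth.l (Pth.r Pth.z)))
def l7 : Tr := Tr.L (Pth.r (Pth.r (Pth.l Pth.z)))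
def l8 : Tr := Tr.L (Pth.r (Pth.r (Pth.r (Pth.l Pth.z))))
def l9 : Tr := Tr.L (Pth.r (Pth.r (Pth.r (Pth.r Pth.z))))
end T3
def b4_0 : Bx := Bx.mk (St.mk (I.pos (nat_lit 152911872) (nat_lit 295387136)) (I.mix (nat_lit 24133632) (nat_lit 91783168)) (I.mix (nat_lit 139608064) (nat_lit 109756416)) (I.pos (nat_lit 351911936) (nat_lit 582811648)) (I.mix (nat_lit 100745216) (nat_lit 87293952)) (I.mix (nat_lit 113180672) (nat_lit 76054528)) (I.mix (nat_lit 162693120) (nat_lit 106414080)))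
  false (nat_lit 150166418)
def b4_1 : Bx := Bx.mk (St.mk (I.pos (nat_lit 29523968) (nat_lit 131973120)) (I.neg (nat_lit 4161536) (nat_lit 95944704)) (I.mix (nat_lit 73973760) (nat_lit 15351808)) (I.pos (nat_lit 264028160) (nat_lit 332185600)) (I.mix (nat_lit 89489408) (nat_lit 67059712)) (I.mix (nat_lit 61964288) (nat_lit 88522752)) (I.mix (nat_lit 58753024) (nat_lit 70418432)))
  false (nat_lit 0)
def b4_2 : Bx := Bx.mk (St.mk (I.pos (nat_lit 89702400) (nat_lit 193445888)) (I.mix (nat_lit 46350336) (nat_lit 100745216)) (I.mix (nat_lit 29949952) (nat_lit 119504896)) (I.pos (nat_lit 291078144) (nat_lit 414154752)) (I.mix (nat_lit 128876544) (nat_lit 64061440)) (I.mix (nat_lit 147701760) (nat_lit 89456640)) (I.mix (nat_lit 145473536) (nat_lit 109936640)))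
  false (nat_lit 101808899)
def b4_3 : Bx := Bx.mk (St.mk (I.neg (nat_lit 29523968) (nat_lit 131956736)) (I.pos (nat_lit 4177920) (nat_lit 95928320)) (I.mix (nat_lit 73973760) (nat_lit 15351808)) (I.pos (nat_lit 264028160) (nat_lit 332185600)) (I.mix (nat_lit 67059712) (nat_lit 89489408)) (I.mix (nat_lit 88522752) (nat_lit 61964288)) (I.mix (nat_lit 58753024) (nat_lit 70418432)))
  true (nat_lit 0)
def b4_4 : Bx := Bx.mk (St.mk (I.mix (nat_lit 67780608) (nat_lit 17629184)) (I.mix (nat_lit 18923520) (nat_lit 98729984)) (I.neg (nat_lit 29573120) (nat_lit 59097088)) (I.pos (nat_lit 262881280) (nat_lit 290209792)) (I.mix (nat_lit 43827200) (nat_lit 81362944)) (I.mix (nat_lit 90128384) (nat_lit 56213504)) (I.mix (nat_lit 31162368) (nat_lit 26181632)))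
  true (nat_lit 0)
def b4_5 : Bx := Bx.mk (St.mk (I.mix (nat_lit 17629184) (nat_lit 67780608)) (I.mix (nat_lit 98729984) (nat_lit 18923520)) (I.neg (nat_lit 29573120) (nat_lit 59097088)) (I.pos (nat_lit 262864896) (nat_lit 290242560)) (I.mix (nat_lit 81362944) (nat_lit 43827200)) (I.mix (nat_lit 56213504) (nat_lit 90128384)) (I.mix (nat_lit 31162368) (nat_lit 26181632)))
  false (nat_lit 0)
def t4 : BTr := (BTr.n (BTr.n (BTr.b b4_0) (BTr.n (BTr.b b4_1) (BTr.b b4_2))) (BTr.n (BTr.b b4_3) (BTr.n (BTr.b b4_4) (BTr.b b4_5))))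
namespace T4
def l0 : Tr := Tr.L (Pth.l (Pth.l Pth.z))
def l1 : Tr := Tr.L (Pth.l (Pth.r (Pth.l Pth.z)))
def l2 : Tr := Tr.L (Pth.l (Pth.r (Pth.r Pth.z)))
def l3 : Tr := Tr.L (Pth.r (Pth.l Pth.z))
def l4 : Tr := Tr.L (Pth.r (Pth.r (Pth.l Pth.z)))
def l5 : Tr := Tr.L (Pth.r (Pth.r (Pth.r Pth.z)))
end T4
def b5_0 : Bx := Bx.mk (St.mk (I.pos (nat_lit 153321472) (nat_lit 288260096)) (I.mix (nat_lit 16957440) (nat_lit 47726592)) (I.mix (nat_lit 7061504) (nat_lit 120356864)) (I.pos (nat_lit 102203392) (nat_lit 342982656)) (I.mix (nat_lit 86425600) (nat_lit 66404352)) (I.mix (nat_lit 104054784) (nat_lit 69304320)) (I.mix (nat_lit 158351360) (nat_lit 92389376)))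
  false (nat_lit 48637817)
def b5_1 : Bx := Bx.mk (St.mk (I.pos (nat_lit 120274944) (nat_lit 177045504)) (I.neg (nat_lit 5079040) (nat_lit 66437120)) (I.mix (nat_lit 46415872) (nat_lit 26542080)) (I.pos (nat_lit 89800704) (nat_lit 149782528)) (I.mix (nat_lit 68026368) (nat_lit 44597248)) (I.mix (nat_lit 39829504) (nat_lit 56311808)) (I.mix (nat_lit 36995072) (nat_lit 56197120)))
  false (nat_lit 28531573)
def b5_2 : Bx := Bx.mk (St.mk (I.mix (nat_lit 16908288) (nat_lit 106577920)) (I.mix (nat_lit 31047680) (nat_lit 7553024)) (I.mix (nat_lit 8962048) (nat_lit 19283968)) (I.pos (nat_lit 14270464) (nat_lit 76529664)) (I.mix (nat_lit 20561920) (nat_lit 25296896)) (I.mix (nat_lit 17367040) (nat_lit 24821760)) (I.mix (nat_lit 8994816) (nat_lit 15564800)))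
  false (nat_lit 0)
def b5_3 : Bx := Bx.mk (St.mk (I.pos (nat_lit 159105024) (nat_lit 215318528)) (I.mix (nat_lit 44662784) (nat_lit 63143936)) (I.mix (nat_lit 19939328) (nat_lit 133758976)) (I.pos (nat_lit 115539968) (nat_lit 205733888)) (I.mix (nat_lit 139460608) (nat_lit 49217536)) (I.mix (nat_lit 165871616) (nat_lit 77824000)) (I.mix (nat_lit 228442112) (nat_lit 80150528)))
  false (nat_lit 49829298)
def b5_4 : Bx := Bx.mk (St.mk (I.mix (nat_lit 25640960) (nat_lit 124928000)) (I.mix (nat_lit 17317888) (nat_lit 35979264)) (I.mix (nat_lit 753664) (nat_lit 42418176)) (I.pos (nat_lit 13713408) (nat_lit 89817088)) (I.mix (nat_lit 56623104) (nat_lit 21839872)) (I.mix (nat_lit 56082432) (nat_lit 32669696)) (I.mix (nat_lit 41123840) (nat_lit 19447808)))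
  false (nat_lit 0)
def b5_5 : Bx := Bx.mk (St.mk (I.pos (nat_lit 153141248) (nat_lit 181059584)) (I.neg (nat_lit 2113536) (nat_lit 38256640)) (I.mix (nat_lit 10485760) (nat_lit 34865152)) (I.pos (nat_lit 110559232) (nat_lit 156942336)) (I.mix (nat_lit 38453248) (nat_lit 33636352)) (I.mix (nat_lit 31391744) (nat_lit 37912576)) (I.mix (nat_lit 39878656) (nat_lit 34668544)))
  false (nat_lit 0)
def b5_6 : Bx := Bx.mk (St.mk (I.mix (nat_lit 30277632) (nat_lit 108265472)) (I.mix (nat_lit 14057472) (nat_lit 5767168)) (I.pos (nat_lit 1196032) (nat_lit 15794176)) (I.pos (nat_lit 14729216) (nat_lit 76775424)) (I.mix (nat_lit 7503872) (nat_lit 10567680)) (I.mix (nat_lit 5767168) (nat_lit 9175040)) (I.mix (nat_lit 4997120) (nat_lit 6094848)))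
  false (nat_lit 0)
def b5_7 : Bx := Bx.mk (St.mk (I.pos (nat_lit 38813696) (nat_lit 132005888)) (I.mix (nat_lit 8323072) (nat_lit 30359552)) (I.pos (nat_lit 2064384) (nat_lit 39960576)) (I.pos (nat_lit 25165824) (nat_lit 101597184)) (I.mix (nat_lit 47513600) (nat_lit 31080448)) (I.mix (nat_lit 47284224) (nat_lit 27492352)) (I.mix (nat_lit 37781504) (nat_lit 18169856)))
  false (nat_lit 0)
def b5_8 : Bx := Bx.mk (St.mk (I.pos (nat_lit 108494848) (nat_lit 169263104)) (I.mix (nat_lit 69943296) (nat_lit 13680640)) (I.mix (nat_lit 40583168) (nat_lit 28622848)) (I.pos (nat_lit 61194240) (nat_lit 135512064)) (I.mix (nat_lit 81264640) (nat_lit 47087616)) (I.mix (nat_lit 64045056) (nat_lit 90505216)) (I.mix (nat_lit 46596096) (nat_lit 65863680)))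
  false (nat_lit 39763865)
def b5_9 : Bx := Bx.mk (St.mk (I.mix (nat_lit 50528256) (nat_lit 102137856)) (I.mix (nat_lit 29720576) (nat_lit 5455872)) (I.mix (nat_lit 6242304) (nat_lit 11698176)) (I.pos (nat_lit 10043392) (nat_lit 71008256)) (I.mix (nat_lit 25116672) (nat_lit 23363584)) (I.mix (nat_lit 23674880) (nat_lit 34045952)) (I.mix (nat_lit 11075584) (nat_lit 16547840)))
  false (nat_lit 0)
def t5 : BTr := (BTr.n (BTr.n (BTr.n (BTr.b b5_0) (BTr.b b5_1)) (BTr.n (BTr.b b5_2) (BTr.n (BTr.b b5_3) (BTr.b b5_4)))) (BTr.n (BTr.n (BTr.b b5_5) (BTr.b b5_6)) (BTr.n (BTr.b b5_7) (BTr.n (BTr.b b5_8) (BTr.b b5_9)))))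
namespace T5
def l0 : Tr := Tr.L (Pth.l (Pth.l (Pth.l Pth.z)))
def l1 : Tr := Tr.L (Pth.l (Pth.l (Pth.r Pth.z)))
def l2 : Tr := Tr.L (Pth.l (Pth.r (Pth.l Pth.z)))
def l3 : Tr := Tr.L (Pth.l (Pth.r (Pth.r (Pth.l Pth.z))))
def l4 : Tr := Tr.L (Pth.l (Pth.r (Pth.r (Pth.r Pth.z))))
def l5 : Tr := Tr.L (Pth.r (Pth.l (Pth.l Pth.z)))
def l6 : Tr := Tr.L (Pth.r (Pth.l (Pth.r Pth.z)))
def l7 : Tr := Tr.L (Pth.r (Pth.r (Pth.l Pth.z)))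
def l8 : Tr := Tr.L (Pth.r (Pth.r (Pth.r (Pth.l Pth.z))))
def l9 : Tr := Tr.L (Pth.r (Pth.r (Pth.r (Pth.r Pth.z))))
end T5
theorem bx0_0 : BoxOK sI cl4 cl9 cl13 t2 t4 b0_0 :=
  box_mk (TrL.c (I.pos (nat_lit 0) (nat_lit 0)) (xa (xb T2.l0 (xa (xb T2.l0 T2.l0) T2.l0)) (xb (xa T2.l0 T2.l4) (xa (xb T2.l0 T2.l0) T2.l4)))
  (TrL.c (I.pos (nat_lit 0) (nat_lit 0)) (xa T4.l1 T4.l1)
  (TrL.c (I.pos (nat_lit 0) (nat_lit 0)) T2.l1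
  (TrL.c (I.pos (nat_lit 0) (nat_lit 0)) (xa T4.l2 (xb (xa T4.l2 (xb (xs T4.l2 (xa T4.l2 T4.l2)) T4.l2)) (xa T4.l2 (xs T4.l2 (xb T4.l2 (xa T4.l2 T4.l2))))))
  (TrL.c (I.pos (nat_lit 0) (nat_lit 0)) T2.l2
  (TrL.c (I.pos (nat_lit 0) (nat_lit 0)) (xa T4.l3 T4.l3)
  TrL.n)))))) (by decide +kernel)
theorem bx0_1 : BoxOK sI cl4 cl9 cl13 t2 t4 b0_1 :=
  box_mk (TrL.c (I.pos (nat_lit 0) (nat_lit 0)) T2.l0
  (TrL.c (I.pos (nat_lit 0) (nat_lit 0)) T4.l1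
  (TrL.c (I.pos (nat_lit 0) (nat_lit 0)) T2.l1
  (TrL.c (I.pos (nat_lit 0) (nat_lit 0)) T4.l2
  (TrL.c (I.pos (nat_lit 0) (nat_lit 0)) T2.l2
  (TrL.c (I.pos (nat_lit 0) (nat_lit 0)) T4.l3
  TrL.n)))))) (by decide +kernel)
theorem bx0_2 : BoxOK sI cl4 cl9 cl13 t2 t4 b0_2 :=
  box_mk (TrL.c (I.pos (nat_lit 0) (nat_lit 0)) T2.l0
  (TrL.c (I.pos (nat_lit 0) (nat_lit 0)) T4.l1
  (TrL.c (I.pos (nat_lit 0) (nat_lit 0)) T2.l1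
  (TrL.c (I.pos (nat_lit 0) (nat_lit 0)) T4.l2
  (TrL.c (I.pos (nat_lit 0) (nat_lit 0)) T2.l2
  (TrL.c (I.pos (nat_lit 0) (nat_lit 0)) T4.l3
  TrL.n)))))) (by decide +kernel)
theorem bx0_3 : BoxOK sI cl4 cl9 cl13 t2 t4 b0_3 :=
  box_mk (TrL.c (I.pos (nat_lit 0) (nat_lit 0)) (xa T2.l0 T2.l0)
  (TrL.c (I.pos (nat_lit 0) (nat_lit 0)) T4.l1
  (TrL.c (I.pos (nat_lit 0) (nat_lit 0)) T2.l1
  (TrL.c (I.pos (nat_lit 0) (nat_lit 0)) T4.l2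
  (TrL.c (I.pos (nat_lit 0) (nat_lit 0)) T2.l2
  (TrL.c (I.pos (nat_lit 0) (nat_lit 0)) T4.l3
  TrL.n)))))) (by decide +kernel)
theorem bx0_4 : BoxOK sI cl4 cl9 cl13 t2 t4 b0_4 :=
  box_mk (TrL.c (I.pos (nat_lit 0) (nat_lit 0)) T2.l0
  (TrL.c (I.pos (nat_lit 0) (nat_lit 0)) T4.l1
  (TrL.c (I.pos (nat_lit 0) (nat_lit 0)) T2.l1
  (TrL.c (I.pos (nat_lit 0) (nat_lit 0)) T4.l2
  (TrL.c (I.pos (nat_lit 0) (nat_lit 0)) T2.l2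
  (TrL.c (I.pos (nat_lit 0) (nat_lit 0)) T4.l3
  TrL.n)))))) (by decide +kernel)
theorem bx0_5 : BoxOK sI cl4 cl9 cl13 t2 t4 b0_5 :=
  box_mk (TrL.c (I.pos (nat_lit 0) (nat_lit 0)) T2.l0
  (TrL.c (I.pos (nat_lit 0) (nat_lit 0)) T4.l1
  (TrL.c (I.pos (nat_lit 0) (nat_lit 0)) T2.l1
  (TrL.c (I.pos (nat_lit 0) (nat_lit 0)) T4.l2
  (TrL.c (I.pos (nat_lit 0) (nat_lit 0)) T2.l2
  (TrL.c (I.pos (nat_lit 0) (nat_lit 0)) T4.l3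
  TrL.n)))))) (by decide +kernel)
theorem bx0_6 : BoxOK sI cl4 cl9 cl13 t2 t4 b0_6 :=
  box_mk (TrL.c (I.pos (nat_lit 0) (nat_lit 0)) T2.l0
  (TrL.c (I.pos (nat_lit 0) (nat_lit 0)) T4.l1
  (TrL.c (I.pos (nat_lit 0) (nat_lit 0)) T2.l1
  (TrL.c (I.pos (nat_lit 0) (nat_lit 0)) T4.l2
  (TrL.c (I.pos (nat_lit 0) (nat_lit 0)) T2.l2
  (TrL.c (I.pos (nat_lit 0) (nat_lit 0)) T4.l3
  TrL.n)))))) (by decide +kernel)
theorem bx0_7 : BoxOK sI cl4 cl9 cl13 t2 t4 b0_7 :=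
  box_mk (TrL.c (I.pos (nat_lit 0) (nat_lit 0)) (xa T2.l0 T2.l0)
  (TrL.c (I.pos (nat_lit 0) (nat_lit 0)) T4.l1
  (TrL.c (I.pos (nat_lit 0) (nat_lit 0)) T2.l1
  (TrL.c (I.pos (nat_lit 0) (nat_lit 0)) T4.l2
  (TrL.c (I.pos (nat_lit 0) (nat_lit 0)) T2.l2
  (TrL.c (I.pos (nat_lit 0) (nat_lit 0)) T4.l3
  TrL.n)))))) (by decide +kernel)
theorem bx0_8 : BoxOK sI cl4 cl9 cl13 t2 t4 b0_8 :=
  box_mk (TrL.c (I.pos (nat_lit 0) (nat_lit 0)) (xa (xa (xb T2.l0 T2.l0) T2.l0) T2.l0)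
  (TrL.c (I.pos (nat_lit 0) (nat_lit 0)) (xa T4.l1 T4.l1)
  (TrL.c (I.pos (nat_lit 0) (nat_lit 0)) T2.l1
  (TrL.c (I.pos (nat_lit 0) (nat_lit 0)) T4.l2
  (TrL.c (I.pos (nat_lit 0) (nat_lit 0)) T2.l2
  (TrL.c (I.pos (nat_lit 0) (nat_lit 0)) (xa T4.l3 T4.l3)
  TrL.n)))))) (by decide +kernel)
theorem bx0_9 : BoxOK sI cl4 cl9 cl13 t2 t4 b0_9 :=
  box_mk (TrL.c (I.pos (nat_lit 0) (nat_lit 0)) (xa (xb (xa T2.l0 T2.l0) (xa (xb T2.l0 T2.l0) T2.l0)) (xb (xa T2.l0 T2.l0) (xa T2.l0 (xb T2.l0 T2.l0))))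
  (TrL.c (I.pos (nat_lit 0) (nat_lit 0)) (xb T4.l1 T4.l1)
  (TrL.c (I.pos (nat_lit 0) (nat_lit 0)) T2.l1
  (TrL.c (I.pos (nat_lit 0) (nat_lit 0)) (xb (xa T4.l2 (xb (xa T4.l2 T4.l2) T4.l2)) (xa T4.l2 (xa T4.l2 (xs T4.l2 (xb T4.l2 T4.l2)))))
  (TrL.c (I.pos (nat_lit 0) (nat_lit 0)) T2.l2
  (TrL.c (I.pos (nat_lit 0) (nat_lit 0)) (xb T4.l3 T4.l3)
  TrL.n)))))) (by decide +kernel)
theorem sv0 : StarV sI cl4 cl9 cl13 t2 t4 t0 :=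
  (bt_n (bt_n (bt_n (bt_b bx0_0) (bt_b bx0_1)) (bt_n (bt_b bx0_2) (bt_n (bt_b bx0_3) (bt_b bx0_4)))) (bt_n (bt_n (bt_b bx0_5) (bt_b bx0_6)) (bt_n (bt_b bx0_7) (bt_n (bt_b bx0_8) (bt_b bx0_9)))))
def S0 : StarD := StarD.mk cl4 cl9 cl13 2 4 t0
theorem bx1_0 : BoxOK sI cl4 cl13 cl9 t4 t2 b1_0 :=
  box_mk (TrL.c (I.pos (nat_lit 0) (nat_lit 0)) (xa (xb T4.l0 (xa (xb T4.l0 T4.l0) T4.l0)) (xa (xb T4.l0 (xs T4.l0 (xb T4.l0 T4.l0))) (xb T4.l2 T4.l2)))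
  (TrL.c (I.pos (nat_lit 0) (nat_lit 0)) (xa T2.l3 (xb T2.l3 T2.l3))
  (TrL.c (I.pos (nat_lit 0) (nat_lit 0)) T4.l4
  (TrL.c (I.pos (nat_lit 0) (nat_lit 0)) (xa T2.l4 (xb (xa T2.l4 (xb (xs T2.l4 (xa T2.l4 T2.l4)) T2.l4)) (xa T2.l4 (xs T2.l4 (xb T2.l4 (xa T2.l4 T2.l4))))))
  (TrL.c (I.pos (nat_lit 0) (nat_lit 0)) T4.l5
  (TrL.c (I.pos (nat_lit 0) (nat_lit 0)) (xa T2.l5 (xb T2.l5 T2.l5))
  TrL.n)))))) (by decide +kernel)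
theorem bx1_1 : BoxOK sI cl4 cl13 cl9 t4 t2 b1_1 :=
  box_mk (TrL.c (I.pos (nat_lit 0) (nat_lit 0)) (xa T4.l0 T4.l0)
  (TrL.c (I.pos (nat_lit 0) (nat_lit 0)) T2.l3
  (TrL.c (I.pos (nat_lit 0) (nat_lit 0)) T4.l4
  (TrL.c (I.pos (nat_lit 0) (nat_lit 0)) T2.l4
  (TrL.c (I.pos (nat_lit 0) (nat_lit 0)) T4.l5
  (TrL.c (I.pos (nat_lit 0) (nat_lit 0)) T2.l5
  TrL.n)))))) (by decide +kernel)
theorem bx1_2 : BoxOK sI cl4 cl13 cl9 t4 t2 b1_2 :=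
  box_mk (TrL.c (I.pos (nat_lit 0) (nat_lit 0)) T4.l0
  (TrL.c (I.pos (nat_lit 0) (nat_lit 0)) T2.l3
  (TrL.c (I.pos (nat_lit 0) (nat_lit 0)) T4.l4
  (TrL.c (I.pos (nat_lit 0) (nat_lit 0)) T2.l4
  (TrL.c (I.pos (nat_lit 0) (nat_lit 0)) T4.l5
  (TrL.c (I.pos (nat_lit 0) (nat_lit 0)) T2.l5
  TrL.n)))))) (by decide +kernel)
theorem bx1_3 : BoxOK sI cl4 cl13 cl9 t4 t2 b1_3 :=
  box_mk (TrL.c (I.pos (nat_lit 0) (nat_lit 0)) (xa T4.l0 T4.l0)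
  (TrL.c (I.pos (nat_lit 0) (nat_lit 0)) T2.l3
  (TrL.c (I.pos (nat_lit 0) (nat_lit 0)) T4.l4
  (TrL.c (I.pos (nat_lit 0) (nat_lit 0)) T2.l4
  (TrL.c (I.pos (nat_lit 0) (nat_lit 0)) T4.l5
  (TrL.c (I.pos (nat_lit 0) (nat_lit 0)) T2.l5
  TrL.n)))))) (by decide +kernel)
theorem bx1_4 : BoxOK sI cl4 cl13 cl9 t4 t2 b1_4 :=
  box_mk (TrL.c (I.pos (nat_lit 0) (nat_lit 0)) T4.l0
  (TrL.c (I.pos (nat_lit 0) (nat_lit 0)) T2.l3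
  (TrL.c (I.pos (nat_lit 0) (nat_lit 0)) T4.l4
  (TrL.c (I.pos (nat_lit 0) (nat_lit 0)) T2.l4
  (TrL.c (I.pos (nat_lit 0) (nat_lit 0)) T4.l5
  (TrL.c (I.pos (nat_lit 0) (nat_lit 0)) T2.l5
  TrL.n)))))) (by decide +kernel)
theorem bx1_5 : BoxOK sI cl4 cl13 cl9 t4 t2 b1_5 :=
  box_mk (TrL.c (I.pos (nat_lit 0) (nat_lit 0)) T4.l0
  (TrL.c (I.pos (nat_lit 0) (nat_lit 0)) T2.l3
  (TrL.c (I.pos (nat_lit 0) (nat_lit 0)) T4.l4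
  (TrL.c (I.pos (nat_lit 0) (nat_lit 0)) T2.l4
  (TrL.c (I.pos (nat_lit 0) (nat_lit 0)) T4.l5
  (TrL.c (I.pos (nat_lit 0) (nat_lit 0)) T2.l5
  TrL.n)))))) (by decide +kernel)
theorem bx1_6 : BoxOK sI cl4 cl13 cl9 t4 t2 b1_6 :=
  box_mk (TrL.c (I.pos (nat_lit 0) (nat_lit 0)) T4.l0
  (TrL.c (I.pos (nat_lit 0) (nat_lit 0)) T2.l3
  (TrL.c (I.pos (nat_lit 0) (nat_lit 0)) T4.l4
  (TrL.c (I.pos (nat_lit 0) (nat_lit 0)) T2.l4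
  (TrL.c (I.pos (nat_lit 0) (nat_lit 0)) T4.l5
  (TrL.c (I.pos (nat_lit 0) (nat_lit 0)) T2.l5
  TrL.n)))))) (by decide +kernel)
theorem bx1_7 : BoxOK sI cl4 cl13 cl9 t4 t2 b1_7 :=
  box_mk (TrL.c (I.pos (nat_lit 0) (nat_lit 0)) (xa (xa T4.l0 T4.l0) T4.l0)
  (TrL.c (I.pos (nat_lit 0) (nat_lit 0)) T2.l3
  (TrL.c (I.pos (nat_lit 0) (nat_lit 0)) T4.l4
  (TrL.c (I.pos (nat_lit 0) (nat_lit 0)) T2.l4
  (TrL.c (I.pos (nat_lit 0) (nat_lit 0)) T4.l5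
  (TrL.c (I.pos (nat_lit 0) (nat_lit 0)) T2.l5
  TrL.n)))))) (by decide +kernel)
theorem bx1_8 : BoxOK sI cl4 cl13 cl9 t4 t2 b1_8 :=
  box_mk (TrL.c (I.pos (nat_lit 0) (nat_lit 0)) (xa (xb (xa T4.l0 T4.l0) (xa (xb T4.l0 T4.l0) T4.l0)) (xb (xa T4.l0 T4.l0) (xa T4.l0 T4.l0)))
  (TrL.c (I.pos (nat_lit 0) (nat_lit 0)) (xb T2.l3 T2.l3)
  (TrL.c (I.pos (nat_lit 0) (nat_lit 0)) T4.l4
  (TrL.c (I.pos (nat_lit 0) (nat_lit 0)) (xb (xa T2.l4 (xb T2.l4 T2.l4)) (xa T2.l4 (xa T2.l4 (xs T2.l4 (xb T2.l4 T2.l4)))))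
  (TrL.c (I.pos (nat_lit 0) (nat_lit 0)) T4.l5
  (TrL.c (I.pos (nat_lit 0) (nat_lit 0)) (xb T2.l5 T2.l5)
  TrL.n)))))) (by decide +kernel)
theorem bx1_9 : BoxOK sI cl4 cl13 cl9 t4 t2 b1_9 :=
  box_mk (TrL.c (I.pos (nat_lit 0) (nat_lit 0)) (xa T4.l0 T4.l0)
  (TrL.c (I.pos (nat_lit 0) (nat_lit 0)) (xa T2.l3 T2.l3)
  (TrL.c (I.pos (nat_lit 0) (nat_lit 0)) T4.l4
  (TrL.c (I.pos (nat_lit 0) (nat_lit 0)) T2.l4
  (TrL.c (I.pos (nat_lit 0) (nat_lit 0)) T4.l5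
  (TrL.c (I.pos (nat_lit 0) (nat_lit 0)) (xa T2.l5 T2.l5)
  TrL.n)))))) (by decide +kernel)
theorem sv1 : StarV sI cl4 cl13 cl9 t4 t2 t1 :=
  (bt_n (bt_n (bt_n (bt_b bx1_0) (bt_b bx1_1)) (bt_n (bt_b bx1_2) (bt_n (bt_b bx1_3) (bt_b bx1_4)))) (bt_n (bt_n (bt_b bx1_5) (bt_b bx1_6)) (bt_n (bt_b bx1_7) (bt_n (bt_b bx1_8) (bt_b bx1_9)))))
def S1 : StarD := StarD.mk cl4 cl13 cl9 4 2 t1
theorem bx2_0 : BoxOK sI cl9 cl4 cl13 t0 t5 b2_0 :=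
  box_mk (TrL.c (I.pos (nat_lit 0) (nat_lit 0)) (xa (xb T0.l0 (xa T0.l0 T0.l0)) (xb T0.l9 (xa T0.l0 T0.l9)))
  (TrL.c (I.pos (nat_lit 0) (nat_lit 0)) T5.l1
  (TrL.c (I.pos (nat_lit 0) (nat_lit 124588530)) (xR T0.l1 T0.l8)
  (TrL.c (I.pos (nat_lit 0) (nat_lit 96881482)) (xR T5.l2 (xR T5.l2 T5.l2))
  (TrL.c (I.pos (nat_lit 0) (nat_lit 0)) (xa (xb (xa T5.l3 T5.l3) (xa T5.l3 T5.l3)) (xb (xk (xa T5.l3 (xb (xs T5.l3 T5.l3) T5.l3)) (xa T5.l3 (xs (xb T5.l3 T5.l3) (xb T5.l3 T5.l3)))) (xk (xa T5.l3 (xs (xk T5.l3 T5.l3) (xb T5.l3 T5.l3))) (xa T5.l3 (xs (xa T5.l3 T5.l3) (xb T5.l3 T5.l3))))))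
  (TrL.c (I.pos (nat_lit 0) (nat_lit 0)) (xa T0.l2 T0.l2)
  (TrL.c (I.mix (nat_lit 17240550) (nat_lit 96881482)) (xR T5.l4 (xR T5.l4 T5.l4))
  (TrL.c (I.mix (nat_lit 17240550) (nat_lit 71940500)) T0.l7
  TrL.n)))))))) (by decide +kernel)
theorem bx2_1 : BoxOK sI cl9 cl4 cl13 t0 t5 b2_1 :=
  box_mk (TrL.c (I.pos (nat_lit 0) (nat_lit 0)) T5.l5
  (TrL.c (I.pos (nat_lit 0) (nat_lit 0)) T0.l1
  (TrL.c (I.mix (nat_lit 17240550) (nat_lit 96881482)) T5.l4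
  (TrL.c (I.mix (nat_lit 17240550) (nat_lit 71940500)) T0.l8
  TrL.n)))) (by decide +kernel)
theorem bx2_2 : BoxOK sI cl9 cl4 cl13 t0 t5 b2_2 :=
  box_mk (TrL.c (I.pos (nat_lit 0) (nat_lit 0)) (xb (xa (xs (xa T0.l0 T0.l0) (xb (xa T0.l0 T0.l0) T0.l0)) T0.l0) T0.l0)
  (TrL.c (I.pos (nat_lit 0) (nat_lit 0)) T5.l5
  (TrL.c (I.pos (nat_lit 0) (nat_lit 124588530)) (xR T0.l1 (xR T0.l1 T0.l1))
  (TrL.c (I.pos (nat_lit 0) (nat_lit 96881482)) T5.l4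
  (TrL.c (I.pos (nat_lit 0) (nat_lit 0)) T5.l3
  (TrL.c (I.pos (nat_lit 0) (nat_lit 0)) T0.l2
  (TrL.c (I.mix (nat_lit 17240550) (nat_lit 96881482)) T5.l4
  (TrL.c (I.mix (nat_lit 17240550) (nat_lit 71940500)) T0.l8
  TrL.n)))))))) (by decide +kernel)
theorem bx2_3 : BoxOK sI cl9 cl4 cl13 t0 t5 b2_3 :=
  box_mk (TrL.c (I.pos (nat_lit 0) (nat_lit 0)) (xa (xb T0.l0 T0.l0) T0.l0)
  (TrL.c (I.pos (nat_lit 0) (nat_lit 0)) T5.l1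
  (TrL.c (I.pos (nat_lit 0) (nat_lit 124588530)) (xR T0.l1 T0.l8)
  (TrL.c (I.pos (nat_lit 0) (nat_lit 96881482)) T5.l4
  (TrL.c (I.pos (nat_lit 0) (nat_lit 0)) (xa T5.l3 T5.l3)
  (TrL.c (I.pos (nat_lit 0) (nat_lit 0)) T0.l2
  (TrL.c (I.mix (nat_lit 17240550) (nat_lit 96881482)) (xR T5.l4 T5.l4)
  (TrL.c (I.mix (nat_lit 17240550) (nat_lit 71940500)) T0.l1
  TrL.n)))))))) (by decide +kernel)
theorem bx2_4 : BoxOK sI cl9 cl4 cl13 t0 t5 b2_4 :=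
  box_mk (TrL.c (I.pos (nat_lit 0) (nat_lit 0)) (xb (xa (xb T0.l0 T0.l0) T0.l0) (xa (xb T0.l0 T0.l0) (xa T0.l0 T0.l0)))
  (TrL.c (I.pos (nat_lit 0) (nat_lit 0)) T5.l1
  (TrL.c (I.pos (nat_lit 0) (nat_lit 124588530)) T0.l8
  (TrL.c (I.pos (nat_lit 0) (nat_lit 96881482)) (xR T5.l2 T5.l2)
  (TrL.c (I.pos (nat_lit 0) (nat_lit 0)) (xb (xa T5.l3 (xk T5.l3 T5.l3)) T5.l3)
  (TrL.c (I.pos (nat_lit 0) (nat_lit 0)) T0.l2
  (TrL.c (I.mix (nat_lit 17240550) (nat_lit 96881482)) (xR T5.l4 T5.l4)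
  (TrL.c (I.mix (nat_lit 17240550) (nat_lit 71940500)) T0.l7
  TrL.n)))))))) (by decide +kernel)
theorem bx2_5 : BoxOK sI cl9 cl4 cl13 t0 t5 b2_5 :=
  box_mk (TrL.c (I.pos (nat_lit 0) (nat_lit 0)) T5.l1
  (TrL.c (I.pos (nat_lit 0) (nat_lit 0)) T0.l1
  (TrL.c (I.mix (nat_lit 17240550) (nat_lit 96881482)) (xR T5.l4 T5.l4)
  (TrL.c (I.mix (nat_lit 17240550) (nat_lit 71940500)) T0.l8
  TrL.n)))) (by decide +kernel)
theorem sv2 : StarV sI cl9 cl4 cl13 t0 t5 t2 :=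
  (bt_n (bt_n (bt_b bx2_0) (bt_n (bt_b bx2_1) (bt_b bx2_2))) (bt_n (bt_b bx2_3) (bt_n (bt_b bx2_4) (bt_b bx2_5))))
def S2 : StarD := StarD.mk cl9 cl4 cl13 0 5 t2
theorem bx3_0 : BoxOK sI cl9 cl13 cl4 t5 t0 b3_0 :=
  box_mk (TrL.c (I.pos (nat_lit 0) (nat_lit 0)) (xa (xa (xb (xs T5.l0 T5.l0) (xs (xa T5.l0 T5.l0) (xa T5.l0 T5.l0))) (xb (xs T5.l0 T5.l0) (xs T5.l0 (xa T5.l0 T5.l0)))) (xa (xb (xs T5.l0 T5.l0) (xs T5.l0 (xa T5.l0 T5.l0))) (xs T5.l0 (xb (xb T5.l0 T5.l0) (xa T5.l0 T5.l0)))))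
  (TrL.c (I.pos (nat_lit 0) (nat_lit 0)) (xa T0.l6 T0.l6)
  (TrL.c (I.pos (nat_lit 0) (nat_lit 124588530)) (xR T5.l4 (xR T5.l4 T5.l7))
  (TrL.c (I.pos (nat_lit 0) (nat_lit 96881482)) (xR T0.l7 (xR T0.l7 T0.l7))
  (TrL.c (I.pos (nat_lit 0) (nat_lit 0)) (xa (xa T0.l9 (xb T0.l9 T0.l9)) (xa (xb (xk T0.l9 T0.l9) T0.l9) (xb (xk (xa T0.l9 (xb T0.l9 T0.l9)) (xa T0.l9 (xb T0.l9 T0.l9))) (xk (xa T0.l9 (xk T0.l9 T0.l9)) (xa T0.l9 (xk T0.l9 T0.l9))))))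
  (TrL.c (I.pos (nat_lit 0) (nat_lit 0)) T5.l8
  (TrL.c (I.mix (nat_lit 17240550) (nat_lit 96881482)) (xR T0.l8 (xR T0.l8 T0.l8))
  (TrL.c (I.mix (nat_lit 17240550) (nat_lit 71940500)) (xR T5.l9 T5.l9)
  TrL.n)))))))) (by decide +kernel)
theorem bx3_1 : BoxOK sI cl9 cl13 cl4 t5 t0 b3_1 :=
  box_mk (TrL.c (I.pos (nat_lit 0) (nat_lit 0)) T5.l0
  (TrL.c (I.pos (nat_lit 0) (nat_lit 0)) T0.l6
  (TrL.c (I.pos (nat_lit 0) (nat_lit 124588530)) (xR T5.l4 T5.l4)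
  (TrL.c (I.pos (nat_lit 0) (nat_lit 96881482)) (xR T0.l7 T0.l7)
  (TrL.c (I.pos (nat_lit 0) (nat_lit 0)) T0.l9
  (TrL.c (I.pos (nat_lit 0) (nat_lit 0)) T5.l8
  (TrL.c (I.mix (nat_lit 17240550) (nat_lit 96881482)) (xR T0.l8 T0.l8)
  (TrL.c (I.mix (nat_lit 17240550) (nat_lit 71940500)) T5.l2
  TrL.n)))))))) (by decide +kernel)
theorem bx3_2 : BoxOK sI cl9 cl13 cl4 t5 t0 b3_2 :=
  box_mk (TrL.c (I.pos (nat_lit 0) (nat_lit 0)) (xa (xa (xa T5.l0 T5.l0) T5.l0) T5.l0)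
  (TrL.c (I.pos (nat_lit 0) (nat_lit 0)) (xa T0.l6 T0.l6)
  (TrL.c (I.pos (nat_lit 0) (nat_lit 124588530)) (xR T5.l2 T5.l7)
  (TrL.c (I.pos (nat_lit 0) (nat_lit 96881482)) (xR T0.l7 T0.l7)
  (TrL.c (I.pos (nat_lit 0) (nat_lit 0)) (xa T0.l9 T0.l9)
  (TrL.c (I.pos (nat_lit 0) (nat_lit 0)) T5.l8
  (TrL.c (I.mix (nat_lit 17240550) (nat_lit 96881482)) T0.l8
  (TrL.c (I.mix (nat_lit 17240550) (nat_lit 71940500)) T5.l9
  TrL.n)))))))) (by decide +kernel)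
theorem bx3_3 : BoxOK sI cl9 cl13 cl4 t5 t0 b3_3 :=
  box_mk (TrL.c (I.pos (nat_lit 0) (nat_lit 0)) (xb (xa (xs T5.l0 (xb T5.l0 T5.l0)) (xs T5.l0 (xb T5.l0 T5.l0))) (xa (xs (xa T5.l0 T5.l0) (xb T5.l0 (xa T5.l0 T5.l0))) (xs (xa T5.l0 T5.l0) (xb T5.l0 (xa T5.l0 T5.l0)))))
  (TrL.c (I.pos (nat_lit 0) (nat_lit 0)) T0.l6
  (TrL.c (I.pos (nat_lit 0) (nat_lit 124588530)) (xR T5.l4 (xR T5.l7 T5.l7))
  (TrL.c (I.pos (nat_lit 0) (nat_lit 96881482)) (xR T0.l7 (xR T0.l7 T0.l7))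
  (TrL.c (I.pos (nat_lit 0) (nat_lit 0)) (xb (xk (xa T0.l9 T0.l9) (xa T0.l9 T0.l9)) (xk (xa T0.l9 T0.l9) (xa T0.l9 T0.l9)))
  (TrL.c (I.pos (nat_lit 0) (nat_lit 0)) T5.l8
  (TrL.c (I.mix (nat_lit 17240550) (nat_lit 96881482)) (xR T0.l8 (xR T0.l8 T0.l8))
  (TrL.c (I.mix (nat_lit 17240550) (nat_lit 71940500)) (xR T5.l9 T5.l9)
  TrL.n)))))))) (by decide +kernel)
theorem bx3_4 : BoxOK sI cl9 cl13 cl4 t5 t0 b3_4 :=
  box_mk (TrL.c (I.pos (nat_lit 0) (nat_lit 0)) (xa (xa T5.l0 T5.l0) (xa T5.l0 T5.l0))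
  (TrL.c (I.pos (nat_lit 0) (nat_lit 0)) (xa T0.l6 T0.l6)
  (TrL.c (I.pos (nat_lit 0) (nat_lit 124588530)) (xR T5.l4 T5.l7)
  (TrL.c (I.pos (nat_lit 0) (nat_lit 96881482)) (xR T0.l7 T0.l7)
  (TrL.c (I.pos (nat_lit 0) (nat_lit 0)) (xa T0.l9 T0.l9)
  (TrL.c (I.pos (nat_lit 0) (nat_lit 0)) T5.l8
  (TrL.c (I.mix (nat_lit 17240550) (nat_lit 96881482)) T0.l8
  (TrL.c (I.mix (nat_lit 17240550) (nat_lit 71940500)) T5.l4
  TrL.n)))))))) (by decide +kernel)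
theorem bx3_5 : BoxOK sI cl9 cl13 cl4 t5 t0 b3_5 :=
  box_mk (TrL.c (I.pos (nat_lit 0) (nat_lit 0)) (xa T5.l0 T5.l0)
  (TrL.c (I.pos (nat_lit 0) (nat_lit 0)) (xa T0.l6 T0.l6)
  (TrL.c (I.pos (nat_lit 0) (nat_lit 124588530)) (xR T5.l4 T5.l7)
  (TrL.c (I.pos (nat_lit 0) (nat_lit 96881482)) T0.l7
  (TrL.c (I.pos (nat_lit 0) (nat_lit 0)) (xa T0.l9 T0.l9)
  (TrL.c (I.pos (nat_lit 0) (nat_lit 0)) T5.l8
  (TrL.c (I.mix (nat_lit 17240550) (nat_lit 96881482)) T0.l8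
  (TrL.c (I.mix (nat_lit 17240550) (nat_lit 71940500)) T5.l9
  TrL.n)))))))) (by decide +kernel)
theorem bx3_6 : BoxOK sI cl9 cl13 cl4 t5 t0 b3_6 :=
  box_mk (TrL.c (I.pos (nat_lit 0) (nat_lit 0)) (xa T5.l0 T5.l0)
  (TrL.c (I.pos (nat_lit 0) (nat_lit 0)) T0.l6
  (TrL.c (I.pos (nat_lit 0) (nat_lit 124588530)) (xR T5.l4 T5.l7)
  (TrL.c (I.pos (nat_lit 0) (nat_lit 96881482)) T0.l7
  (TrL.c (I.pos (nat_lit 0) (nat_lit 0)) T0.l9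
  (TrL.c (I.pos (nat_lit 0) (nat_lit 0)) T5.l8
  (TrL.c (I.mix (nat_lit 17240550) (nat_lit 96881482)) T0.l8
  (TrL.c (I.mix (nat_lit 17240550) (nat_lit 71940500)) T5.l2
  TrL.n)))))))) (by decide +kernel)
theorem bx3_7 : BoxOK sI cl9 cl13 cl4 t5 t0 b3_7 :=
  box_mk (TrL.c (I.pos (nat_lit 0) (nat_lit 0)) (xa T5.l0 T5.l0)
  (TrL.c (I.pos (nat_lit 0) (nat_lit 0)) T0.l6
  (TrL.c (I.pos (nat_lit 0) (nat_lit 124588530)) (xR T5.l4 T5.l7)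
  (TrL.c (I.pos (nat_lit 0) (nat_lit 96881482)) (xR T0.l7 T0.l7)
  (TrL.c (I.pos (nat_lit 0) (nat_lit 0)) T0.l9
  (TrL.c (I.pos (nat_lit 0) (nat_lit 0)) T5.l8
  (TrL.c (I.mix (nat_lit 17240550) (nat_lit 96881482)) (xR T0.l8 T0.l8)
  (TrL.c (I.mix (nat_lit 17240550) (nat_lit 71940500)) T5.l2
  TrL.n)))))))) (by decide +kernel)
theorem bx3_8 : BoxOK sI cl9 cl13 cl4 t5 t0 b3_8 :=
  box_mk (TrL.c (I.pos (nat_lit 0) (nat_lit 0)) (xa T5.l0 T5.l0)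
  (TrL.c (I.pos (nat_lit 0) (nat_lit 0)) T0.l6
  (TrL.c (I.pos (nat_lit 0) (nat_lit 124588530)) (xR T5.l2 T5.l7)
  (TrL.c (I.pos (nat_lit 0) (nat_lit 96881482)) T0.l7
  (TrL.c (I.pos (nat_lit 0) (nat_lit 0)) (xa T0.l9 T0.l9)
  (TrL.c (I.pos (nat_lit 0) (nat_lit 0)) T5.l8
  (TrL.c (I.mix (nat_lit 17240550) (nat_lit 96881482)) T0.l8
  (TrL.c (I.mix (nat_lit 17240550) (nat_lit 71940500)) T5.l9
  TrL.n)))))))) (by decide +kernel)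
theorem bx3_9 : BoxOK sI cl9 cl13 cl4 t5 t0 b3_9 :=
  box_mk (TrL.c (I.pos (nat_lit 0) (nat_lit 0)) T5.l0
  (TrL.c (I.pos (nat_lit 0) (nat_lit 0)) T0.l6
  (TrL.c (I.pos (nat_lit 0) (nat_lit 124588530)) (xR T5.l4 T5.l7)
  (TrL.c (I.pos (nat_lit 0) (nat_lit 96881482)) (xR T0.l7 T0.l7)
  (TrL.c (I.pos (nat_lit 0) (nat_lit 0)) T0.l9
  (TrL.c (I.pos (nat_lit 0) (nat_lit 0)) T5.l8
  (TrL.c (I.mix (nat_lit 17240550) (nat_lit 96881482)) T0.l1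
  (TrL.c (I.mix (nat_lit 17240550) (nat_lit 71940500)) T5.l2
  TrL.n)))))))) (by decide +kernel)
theorem sv3 : StarV sI cl9 cl13 cl4 t5 t0 t3 :=
  (bt_n (bt_n (bt_n (bt_b bx3_0) (bt_b bx3_1)) (bt_n (bt_b bx3_2) (bt_n (bt_b bx3_3) (bt_b bx3_4)))) (bt_n (bt_n (bt_b bx3_5) (bt_b bx3_6)) (bt_n (bt_b bx3_7) (bt_n (bt_b bx3_8) (bt_b bx3_9)))))
def S3 : StarD := StarD.mk cl9 cl13 cl4 5 0 t3
theorem bx4_0 : BoxOK sI cl13 cl4 cl9 t1 t3 b4_0 :=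
  box_mk (TrL.c (I.pos (nat_lit 0) (nat_lit 0)) (xa (xb T1.l0 (xa T1.l0 T1.l0)) (xa (xb T1.l0 T1.l0) T1.l8))
  (TrL.c (I.pos (nat_lit 0) (nat_lit 0)) T3.l1
  (TrL.c (I.pos (nat_lit 0) (nat_lit 134217730)) (xR T1.l1 T1.l9)
  (TrL.c (I.pos (nat_lit 0) (nat_lit 110514882)) (xR T3.l2 (xR T3.l2 T3.l2))
  (TrL.c (I.pos (nat_lit 0) (nat_lit 0)) (xa (xb (xk T3.l3 T3.l3) (xk T3.l3 T3.l3)) (xk (xb (xa T3.l3 (xs (xk T3.l3 T3.l3) (xb T3.l3 T3.l3))) (xa T3.l3 (xs (xk T3.l3 T3.l3) (xb T3.l3 T3.l3)))) (xb (xa T3.l3 (xs (xb T3.l3 T3.l3) (xb T3.l3 T3.l3))) (xa T3.l3 (xs (xk T3.l3 T3.l3) (xb T3.l3 (xa T3.l3 (xk T3.l3 T3.l3))))))))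
  (TrL.c (I.pos (nat_lit 0) (nat_lit 0)) (xa T1.l2 T1.l2)
  (TrL.c (I.mix (nat_lit 8088324) (nat_lit 110514882)) (xR T3.l4 (xR T3.l4 T3.l4))
  (TrL.c (I.mix (nat_lit 8088324) (nat_lit 89478486)) (xR T1.l3 T1.l3)
  TrL.n)))))))) (by decide +kernel)
theorem bx4_1 : BoxOK sI cl13 cl4 cl9 t1 t3 b4_1 :=
  box_mk (TrL.c (I.pos (nat_lit 0) (nat_lit 0)) (xa T1.l0 T1.l0)
  (TrL.c (I.pos (nat_lit 0) (nat_lit 0)) T3.l1
  (TrL.c (I.pos (nat_lit 0) (nat_lit 134217730)) T1.l9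
  (TrL.c (I.pos (nat_lit 0) (nat_lit 110514882)) T3.l4
  (TrL.c (I.pos (nat_lit 0) (nat_lit 0)) (xa T3.l3 T3.l0)
  (TrL.c (I.pos (nat_lit 0) (nat_lit 0)) T1.l2
  (TrL.c (I.mix (nat_lit 8088324) (nat_lit 110514882)) T3.l4
  (TrL.c (I.mix (nat_lit 8088324) (nat_lit 89478486)) T1.l1
  TrL.n)))))))) (by decide +kernel)
theorem bx4_2 : BoxOK sI cl13 cl4 cl9 t1 t3 b4_2 :=
  box_mk (TrL.c (I.pos (nat_lit 0) (nat_lit 0)) (xb (xa (xb T1.l0 T1.l0) T1.l0) (xa (xa T1.l0 T1.l0) (xa T1.l0 T1.l0)))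
  (TrL.c (I.pos (nat_lit 0) (nat_lit 0)) T3.l1
  (TrL.c (I.pos (nat_lit 0) (nat_lit 134217730)) (xR T1.l1 T1.l9)
  (TrL.c (I.pos (nat_lit 0) (nat_lit 110514882)) (xR T3.l2 (xR T3.l2 T3.l2))
  (TrL.c (I.pos (nat_lit 0) (nat_lit 0)) (xb (xa T3.l3 T3.l0) T3.l3)
  (TrL.c (I.pos (nat_lit 0) (nat_lit 0)) T1.l2
  (TrL.c (I.mix (nat_lit 8088324) (nat_lit 110514882)) (xR T3.l4 T3.l4)
  (TrL.c (I.mix (nat_lit 8088324) (nat_lit 89478486)) T1.l7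
  TrL.n)))))))) (by decide +kernel)
theorem bx4_3 : BoxOK sI cl13 cl4 cl9 t1 t3 b4_3 :=
  box_mk (TrL.c (I.pos (nat_lit 0) (nat_lit 0)) T3.l1
  (TrL.c (I.pos (nat_lit 0) (nat_lit 0)) T1.l1
  (TrL.c (I.mix (nat_lit 8088324) (nat_lit 110514882)) (xR T3.l5 T3.l4)
  (TrL.c (I.mix (nat_lit 8088324) (nat_lit 89478486)) T1.l9
  TrL.n)))) (by decide +kernel)
theorem bx4_4 : BoxOK sI cl13 cl4 cl9 t1 t3 b4_4 :=
  box_mk (TrL.c (I.pos (nat_lit 0) (nat_lit 0)) T3.l9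
  (TrL.c (I.pos (nat_lit 0) (nat_lit 0)) T1.l1
  (TrL.c (I.mix (nat_lit 8088324) (nat_lit 110514882)) T3.l4
  (TrL.c (I.mix (nat_lit 8088324) (nat_lit 89478486)) T1.l7
  TrL.n)))) (by decide +kernel)
theorem bx4_5 : BoxOK sI cl13 cl4 cl9 t1 t3 b4_5 :=
  box_mk (TrL.c (I.pos (nat_lit 0) (nat_lit 0)) (xb (xa (xs T1.l0 (xb (xa T1.l0 T1.l0) T1.l0)) T1.l0) T1.l0)
  (TrL.c (I.pos (nat_lit 0) (nat_lit 0)) T3.l9
  (TrL.c (I.pos (nat_lit 0) (nat_lit 134217730)) (xR T1.l1 T1.l1)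
  (TrL.c (I.pos (nat_lit 0) (nat_lit 110514882)) T3.l4
  (TrL.c (I.pos (nat_lit 0) (nat_lit 0)) T3.l3
  (TrL.c (I.pos (nat_lit 0) (nat_lit 0)) T1.l2
  (TrL.c (I.mix (nat_lit 8088324) (nat_lit 110514882)) T3.l4
  (TrL.c (I.mix (nat_lit 8088324) (nat_lit 89478486)) T1.l1
  TrL.n)))))))) (by decide +kernel)
theorem sv4 : StarV sI cl13 cl4 cl9 t1 t3 t4 :=
  (bt_n (bt_n (bt_b bx4_0) (bt_n (bt_b bx4_1) (bt_b bx4_2))) (bt_n (bt_b bx4_3) (bt_n (bt_b bx4_4) (bt_b bx4_5))))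
def S4 : StarD := StarD.mk cl13 cl4 cl9 1 3 t4
theorem bx5_0 : BoxOK sI cl13 cl9 cl4 t3 t1 b5_0 :=
  box_mk (TrL.c (I.pos (nat_lit 0) (nat_lit 0)) (xa (xa (xb T3.l0 (xs T3.l0 T3.l0)) (xs T3.l0 (xb T3.l0 T3.l0))) (xa (xs T3.l0 (xb T3.l0 T3.l0)) (xs T3.l0 (xb (xb T3.l3 T3.l3) T3.l0))))
  (TrL.c (I.pos (nat_lit 0) (nat_lit 0)) (xa T1.l6 T1.l6)
  (TrL.c (I.pos (nat_lit 0) (nat_lit 134217730)) (xR T3.l4 (xR T3.l4 T3.l4))
  (TrL.c (I.pos (nat_lit 0) (nat_lit 110514882)) (xR T1.l7 (xR T1.l7 T1.l7))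
  (TrL.c (I.pos (nat_lit 0) (nat_lit 0)) (xa (xa T1.l8 T1.l8) (xa (xk T1.l8 T1.l8) (xk (xb (xa T1.l8 T1.l8) (xk (xa T1.l8 T1.l8) (xa T1.l8 T1.l8))) (xb (xa T1.l8 T1.l8) (xa T1.l8 (xk T1.l8 T1.l8))))))
  (TrL.c (I.pos (nat_lit 0) (nat_lit 0)) T3.l7
  (TrL.c (I.mix (nat_lit 8088324) (nat_lit 110514882)) (xR T1.l9 (xR T1.l9 T1.l9))
  (TrL.c (I.mix (nat_lit 8088324) (nat_lit 89478486)) (xR T3.l2 (xR T3.l8 T3.l8))
  TrL.n)))))))) (by decide +kernel)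
theorem bx5_1 : BoxOK sI cl13 cl9 cl4 t3 t1 b5_1 :=
  box_mk (TrL.c (I.pos (nat_lit 0) (nat_lit 0)) T3.l0
  (TrL.c (I.pos (nat_lit 0) (nat_lit 0)) T1.l6
  (TrL.c (I.pos (nat_lit 0) (nat_lit 134217730)) (xR T3.l4 T3.l4)
  (TrL.c (I.pos (nat_lit 0) (nat_lit 110514882)) (xR T1.l7 T1.l7)
  (TrL.c (I.pos (nat_lit 0) (nat_lit 0)) T1.l8
  (TrL.c (I.pos (nat_lit 0) (nat_lit 0)) T3.l7
  (TrL.c (I.mix (nat_lit 8088324) (nat_lit 110514882)) T1.l9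
  (TrL.c (I.mix (nat_lit 8088324) (nat_lit 89478486)) T3.l2
  TrL.n)))))))) (by decide +kernel)
theorem bx5_2 : BoxOK sI cl13 cl9 cl4 t3 t1 b5_2 :=
  box_mk (TrL.c (I.pos (nat_lit 0) (nat_lit 0)) (xa T3.l0 T3.l0)
  (TrL.c (I.pos (nat_lit 0) (nat_lit 0)) T1.l6
  (TrL.c (I.pos (nat_lit 0) (nat_lit 134217730)) (xR T3.l4 T3.l6)
  (TrL.c (I.pos (nat_lit 0) (nat_lit 110514882)) T1.l7
  (TrL.c (I.pos (nat_lit 0) (nat_lit 0)) (xa T1.l8 T1.l8)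
  (TrL.c (I.pos (nat_lit 0) (nat_lit 0)) T3.l7
  (TrL.c (I.mix (nat_lit 8088324) (nat_lit 110514882)) T1.l9
  (TrL.c (I.mix (nat_lit 8088324) (nat_lit 89478486)) T3.l4
  TrL.n)))))))) (by decide +kernel)
theorem bx5_3 : BoxOK sI cl13 cl9 cl4 t3 t1 b5_3 :=
  box_mk (TrL.c (I.pos (nat_lit 0) (nat_lit 0)) (xb (xa (xs T3.l0 (xb T3.l0 T3.l0)) (xs T3.l0 T3.l0)) (xa (xs (xa T3.l0 T3.l0) (xb T3.l0 (xa T3.l0 T3.l0))) (xs T3.l0 (xb T3.l0 (xa T3.l0 T3.l0)))))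
  (TrL.c (I.pos (nat_lit 0) (nat_lit 0)) T1.l6
  (TrL.c (I.pos (nat_lit 0) (nat_lit 134217730)) (xR T3.l4 (xR T3.l6 T3.l6))
  (TrL.c (I.pos (nat_lit 0) (nat_lit 110514882)) (xR T1.l7 (xR T1.l7 T1.l7))
  (TrL.c (I.pos (nat_lit 0) (nat_lit 0)) (xb (xa (xk T1.l8 T1.l8) (xk T1.l8 T1.l8)) (xk (xa T1.l8 T1.l8) (xa T1.l8 T1.l8)))
  (TrL.c (I.pos (nat_lit 0) (nat_lit 0)) T3.l7
  (TrL.c (I.mix (nat_lit 8088324) (nat_lit 110514882)) (xR T1.l9 (xR T1.l9 T1.l9))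
  (TrL.c (I.mix (nat_lit 8088324) (nat_lit 89478486)) (xR T3.l2 T3.l8)
  TrL.n)))))))) (by decide +kernel)
theorem bx5_4 : BoxOK sI cl13 cl9 cl4 t3 t1 b5_4 :=
  box_mk (TrL.c (I.pos (nat_lit 0) (nat_lit 0)) (xa T3.l0 (xa T3.l0 T3.l0))
  (TrL.c (I.pos (nat_lit 0) (nat_lit 0)) (xa T1.l6 T1.l6)
  (TrL.c (I.pos (nat_lit 0) (nat_lit 134217730)) (xR T3.l4 T3.l6)
  (TrL.c (I.pos (nat_lit 0) (nat_lit 110514882)) (xR T1.l7 T1.l7)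
  (TrL.c (I.pos (nat_lit 0) (nat_lit 0)) (xa T1.l8 T1.l8)
  (TrL.c (I.pos (nat_lit 0) (nat_lit 0)) T3.l7
  (TrL.c (I.mix (nat_lit 8088324) (nat_lit 110514882)) T1.l9
  (TrL.c (I.mix (nat_lit 8088324) (nat_lit 89478486)) T3.l4
  TrL.n)))))))) (by decide +kernel)
theorem bx5_5 : BoxOK sI cl13 cl9 cl4 t3 t1 b5_5 :=
  box_mk (TrL.c (I.pos (nat_lit 0) (nat_lit 0)) T3.l0
  (TrL.c (I.pos (nat_lit 0) (nat_lit 0)) T1.l6
  (TrL.c (I.pos (nat_lit 0) (nat_lit 134217730)) (xR T3.l4 T3.l4)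
  (TrL.c (I.pos (nat_lit 0) (nat_lit 110514882)) (xR T1.l7 T1.l7)
  (TrL.c (I.pos (nat_lit 0) (nat_lit 0)) T1.l8
  (TrL.c (I.pos (nat_lit 0) (nat_lit 0)) T3.l7
  (TrL.c (I.mix (nat_lit 8088324) (nat_lit 110514882)) T1.l9
  (TrL.c (I.mix (nat_lit 8088324) (nat_lit 89478486)) T3.l2
  TrL.n)))))))) (by decide +kernel)
theorem bx5_6 : BoxOK sI cl13 cl9 cl4 t3 t1 b5_6 :=
  box_mk (TrL.c (I.pos (nat_lit 0) (nat_lit 0)) (xa T3.l0 T3.l0)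
  (TrL.c (I.pos (nat_lit 0) (nat_lit 0)) T1.l6
  (TrL.c (I.pos (nat_lit 0) (nat_lit 134217730)) (xR T3.l4 T3.l6)
  (TrL.c (I.pos (nat_lit 0) (nat_lit 110514882)) T1.l7
  (TrL.c (I.pos (nat_lit 0) (nat_lit 0)) (xa T1.l8 T1.l8)
  (TrL.c (I.pos (nat_lit 0) (nat_lit 0)) T3.l7
  (TrL.c (I.mix (nat_lit 8088324) (nat_lit 110514882)) T1.l9
  (TrL.c (I.mix (nat_lit 8088324) (nat_lit 89478486)) T3.l4
  TrL.n)))))))) (by decide +kernel)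
theorem bx5_7 : BoxOK sI cl13 cl9 cl4 t3 t1 b5_7 :=
  box_mk (TrL.c (I.pos (nat_lit 0) (nat_lit 0)) (xa T3.l0 T3.l0)
  (TrL.c (I.pos (nat_lit 0) (nat_lit 0)) T1.l6
  (TrL.c (I.pos (nat_lit 0) (nat_lit 134217730)) (xR T3.l4 T3.l6)
  (TrL.c (I.pos (nat_lit 0) (nat_lit 110514882)) (xR T1.l7 T1.l7)
  (TrL.c (I.pos (nat_lit 0) (nat_lit 0)) T1.l8
  (TrL.c (I.pos (nat_lit 0) (nat_lit 0)) T3.l7
  (TrL.c (I.mix (nat_lit 8088324) (nat_lit 110514882)) T1.l9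
  (TrL.c (I.mix (nat_lit 8088324) (nat_lit 89478486)) T3.l2
  TrL.n)))))))) (by decide +kernel)
theorem bx5_8 : BoxOK sI cl13 cl9 cl4 t3 t1 b5_8 :=
  box_mk (TrL.c (I.pos (nat_lit 0) (nat_lit 0)) (xa T3.l0 T3.l0)
  (TrL.c (I.pos (nat_lit 0) (nat_lit 0)) T1.l6
  (TrL.c (I.pos (nat_lit 0) (nat_lit 134217730)) (xR T3.l4 T3.l4)
  (TrL.c (I.pos (nat_lit 0) (nat_lit 110514882)) (xR T1.l7 T1.l7)
  (TrL.c (I.pos (nat_lit 0) (nat_lit 0)) (xb (xa T1.l8 T1.l8) T1.l8)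
  (TrL.c (I.pos (nat_lit 0) (nat_lit 0)) T3.l7
  (TrL.c (I.mix (nat_lit 8088324) (nat_lit 110514882)) T1.l9
  (TrL.c (I.mix (nat_lit 8088324) (nat_lit 89478486)) T3.l2
  TrL.n)))))))) (by decide +kernel)
theorem bx5_9 : BoxOK sI cl13 cl9 cl4 t3 t1 b5_9 :=
  box_mk (TrL.c (I.pos (nat_lit 0) (nat_lit 0)) (xa (xa T3.l0 T3.l0) T3.l0)
  (TrL.c (I.pos (nat_lit 0) (nat_lit 0)) (xa T1.l0 T1.l6)
  (TrL.c (I.pos (nat_lit 0) (nat_lit 134217730)) (xR T3.l4 T3.l6)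
  (TrL.c (I.pos (nat_lit 0) (nat_lit 110514882)) T1.l9
  (TrL.c (I.pos (nat_lit 0) (nat_lit 0)) (xa T1.l6 T1.l8)
  (TrL.c (I.pos (nat_lit 0) (nat_lit 0)) T3.l7
  (TrL.c (I.mix (nat_lit 8088324) (nat_lit 110514882)) (xR T1.l9 T1.l9)
  (TrL.c (I.mix (nat_lit 8088324) (nat_lit 89478486)) T3.l4
  TrL.n)))))))) (by decide +kernel)
theorem sv5 : StarV sI cl13 cl9 cl4 t3 t1 t5 :=
  (bt_n (bt_n (bt_n (bt_b bx5_0) (bt_b bx5_1)) (bt_n (bt_b bx5_2) (bt_n (bt_b bx5_3) (bt_b bx5_4)))) (bt_n (bt_n (bt_b bx5_5) (bt_b bx5_6)) (bt_n (bt_b bx5_7) (bt_n (bt_b bx5_8) (bt_b bx5_9)))))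
def S5 : StarD := StarD.mk cl13 cl9 cl4 3 1 t5
def G : List StarD := [S0, S1, S2, S3, S4, S5]
theorem so0 : StarOK sI G S0 :=
  star_mk (by decide) (by decide) rfl rfl rfl rfl rfl rfl (rfl : _ = t2) (rfl : _ = t4)
  (st_mk (Pth.l (Pth.l (Pth.l Pth.z))) (nat_lit 117226788) (nat_lit 136844021) (by decide +kernel))
  (st_mk (Pth.l (Pth.l (Pth.l Pth.z))) (nat_lit 153645538) (nat_lit 174116628) (by decide +kernel))
  (st_mk (Pth.l (Pth.l (Pth.l Pth.z))) (nat_lit 194326194) (nat_lit 219783760) (by decide +kernel)) sv0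
theorem so1 : StarOK sI G S1 :=
  star_mk (by decide) (by decide) rfl rfl rfl rfl rfl rfl (rfl : _ = t4) (rfl : _ = t2)
  (st_mk (Pth.l (Pth.l (Pth.l Pth.z))) (nat_lit 97437071) (nat_lit 116857788) (by decide +kernel))
  (st_mk (Pth.l (Pth.l (Pth.l Pth.z))) (nat_lit 133739528) (nat_lit 153976955) (by decide +kernel))
  (st_mk (Pth.l (Pth.l (Pth.l Pth.z))) (nat_lit 176205867) (nat_lit 197641220) (by decide +kernel)) sv1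
theorem so2 : StarOK sI G S2 :=
  star_mk (by decide) (by decide) rfl rfl rfl rfl rfl rfl (rfl : _ = t0) (rfl : _ = t5)
  (st_mk (Pth.l (Pth.l Pth.z)) (nat_lit 366277446) (nat_lit 369058966) (by decide +kernel))
  (st_mk (Pth.l (Pth.l Pth.z)) (nat_lit 401471614) (nat_lit 404708645) (by decide +kernel))
  (st_mk (Pth.l (Pth.l Pth.z)) (nat_lit 442114477) (nat_lit 445931329) (by decide +kernel)) sv2
theorem so3 : StarOK sI G S3 :=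
  star_mk (by decide) (by decide) rfl rfl rfl rfl rfl rfl (rfl : _ = t5) (rfl : _ = t0)
  (st_mk (Pth.l (Pth.l (Pth.l Pth.z))) (nat_lit 96040353) (nat_lit 114541641) (by decide +kernel))
  (st_mk (Pth.l (Pth.l (Pth.l Pth.z))) (nat_lit 131115677) (nat_lit 149926621) (by decide +kernel))
  (st_mk (Pth.l (Pth.l (Pth.l Pth.z))) (nat_lit 171655830) (nat_lit 190922156) (by decide +kernel)) sv3
theorem so4 : StarOK sI G S4 :=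
  star_mk (by decide) (by decide) rfl rfl rfl rfl rfl rfl (rfl : _ = t1) (rfl : _ = t3)
  (st_mk (Pth.l (Pth.l Pth.z)) (nat_lit 364798899) (nat_lit 367174787) (by decide +kernel))
  (st_mk (Pth.l (Pth.l Pth.z)) (nat_lit 399695508) (nat_lit 402440374) (by decide +kernel))
  (st_mk (Pth.l (Pth.l Pth.z)) (nat_lit 439960827) (nat_lit 443173998) (by decide +kernel)) sv4
theorem so5 : StarOK sI G S5 :=
  star_mk (by decide) (by decide) rfl rfl rfl rfl rfl rfl (rfl : _ = t3) (rfl : _ = t1)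
  (st_mk (Pth.l (Pth.l (Pth.l Pth.z))) (nat_lit 115089857) (nat_lit 133456749) (by decide +kernel))
  (st_mk (Pth.l (Pth.l (Pth.l Pth.z))) (nat_lit 149986467) (nat_lit 168609229) (by decide +kernel))
  (st_mk (Pth.l (Pth.l (Pth.l Pth.z))) (nat_lit 190251785) (nat_lit 209244939) (by decide +kernel)) sv5
theorem ok : GroupOK (nat_lit 0) (nat_lit 91291648) G := grp_mk (allS_c so0 (allS_c so1 (allS_c so2 (allS_c so3 (allS_c so4 (allS_c so5 allS_n))))))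
theorem cov : GCov G cl4 cl9 cl13 := cov_mk
  ⟨0, by decide, rfl, rfl, rfl⟩ ⟨1, by decide, rfl, rfl, rfl⟩ ⟨2, by decide, rfl, rfl, rfl⟩ ⟨3, by decide, rfl, rfl, rfl⟩ ⟨4, by decide, rfl, rfl, rfl⟩ ⟨5, by decide, rfl, rfl, rfl⟩
end Q156_0


end Pool.Agent.Helper6.MONO
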