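import Pool.Agent.Helper6.MONO.Cert.C28

/-!
Certificate data (generated).
-/

set_option autoImplicit false
set_option linter.all false
noncomputable section
namespace Pool.Agent.Helper6.MONO


namespace Q156_1
def sI : I := I.pos (nat_lit 91226112) (nat_lit 150339584)
def b0_0 : Bx := Bx.mk (St.mk (I.pos (nat_lit 155795456) (nat_lit 244498432)) (I.mix (nat_lit 4096000) (nat_lit 67698688)) (I.mix (nat_lit 5931008) (nat_lit 68239360)) (I.pos (nat_lit 109772800) (nat_lit 263225344)) (I.mix (nat_lit 94961664) (nat_lit 61030400)) (I.mix (nat_lit 68173824) (nat_lit 59785216)) (I.mix (nat_lit 94814208) (nat_lit 86261760)))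
  false (nat_lit 15141794)
def b0_1 : Bx := Bx.mk (St.mk (I.mix (nat_lit 22446080) (nat_lit 137166848)) (I.mix (nat_lit 8454144) (nat_lit 30146560)) (I.mix (nat_lit 26198016) (nat_lit 8339456)) (I.pos (nat_lit 11812864) (nat_lit 100237312)) (I.mix (nat_lit 33800192) (nat_lit 41680896)) (I.mix (nat_lit 38354944) (nat_lit 26918912)) (I.mix (nat_lit 29720576) (nat_lit 23756800)))
  false (nat_lit 0)
def b0_2 : Bx := Bx.mk (St.mk (I.pos (nat_lit 106397696) (nat_lit 148930560)) (I.mix (nat_lit 50823168) (nat_lit 11550720)) (I.neg (nat_lit 4210688) (nat_lit 70270976)) (I.pos (nat_lit 60391424) (nat_lit 118407168)) (I.mix (nat_lit 94683136) (nat_lit 37044224)) (I.mix (nat_lit 41746432) (nat_lit 88801280)) (I.mix (nat_lit 30162944) (nat_lit 82444288)))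
  false (nat_lit 0)
def b0_3 : Bx := Bx.mk (St.mk (I.mix (nat_lit 23855104) (nat_lit 92291072)) (I.mix (nat_lit 25935872) (nat_lit 5849088)) (I.neg (nat_lit 606208) (nat_lit 27426816)) (I.pos (nat_lit 14729216) (nat_lit 66666496)) (I.mix (nat_lit 35913728) (nat_lit 17907712)) (I.mix (nat_lit 16908288) (nat_lit 33030144)) (I.mix (nat_lit 9224192) (nat_lit 18989056)))
  false (nat_lit 0)
def b0_4 : Bx := Bx.mk (St.mk (I.pos (nat_lit 102727680) (nat_lit 126238720)) (I.mix (nat_lit 9633792) (nat_lit 8372224)) (I.neg (nat_lit 5586944) (nat_lit 28065792)) (I.pos (nat_lit 59293696) (nat_lit 96878592)) (I.mix (nat_lit 28098560) (nat_lit 19218432)) (I.mix (nat_lit 20185088) (nat_lit 20856832)) (I.mix (nat_lit 15990784) (nat_lit 20447232)))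
  false (nat_lit 0)
def b0_5 : Bx := Bx.mk (St.mk (I.mix (nat_lit 29409280) (nat_lit 78888960)) (I.mix (nat_lit 5668864) (nat_lit 5881856)) (I.neg (nat_lit 1703936) (nat_lit 14843904)) (I.pos (nat_lit 15106048) (nat_lit 58638336)) (I.mix (nat_lit 12632064) (nat_lit 9486336)) (I.mix (nat_lit 9617408) (nat_lit 9125888)) (I.mix (nat_lit 4833280) (nat_lit 5505024)))
  false (nat_lit 0)
def b0_6 : Bx := Bx.mk (St.mk (I.pos (nat_lit 220512256) (nat_lit 261849088)) (I.mix (nat_lit 17350656) (nat_lit 17727488)) (I.neg (nat_lit 15630336) (nat_lit 91750400)) (I.pos (nat_lit 219168768) (nat_lit 302825472)) (I.mix (nat_lit 71712768) (nat_lit 22904832)) (I.mix (nat_lit 43646976) (nat_lit 46759936)) (I.mix (nat_lit 65683456) (nat_lit 97255424)))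
  false (nat_lit 0)
def b0_7 : Bx := Bx.mk (St.mk (I.pos (nat_lit 194609152) (nat_lit 257490944)) (I.mix (nat_lit 20905984) (nat_lit 64684032)) (I.mix (nat_lit 91832320) (nat_lit 67567616)) (I.pos (nat_lit 195461120) (nat_lit 285851648)) (I.mix (nat_lit 99680256) (nat_lit 79036416)) (I.mix (nat_lit 89128960) (nat_lit 75661312)) (I.mix (nat_lit 144179200) (nat_lit 146489344)))
  false (nat_lit 13870942)
def b0_8 : Bx := Bx.mk (St.mk (I.pos (nat_lit 95076352) (nat_lit 179781632)) (I.mix (nat_lit 60096512) (nat_lit 8978432)) (I.neg (nat_lit 10174464) (nat_lit 75071488)) (I.pos (nat_lit 68075520) (nat_lit 156942336)) (I.mix (nat_lit 93405184) (nat_lit 52166656)) (I.mix (nat_lit 53035008) (nat_lit 80871424)) (I.mix (nat_lit 41828352) (nat_lit 83951616)))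
  false (nat_lit 28210356)
def b0_9 : Bx := Bx.mk (St.mk (I.mix (nat_lit 26476544) (nat_lit 106446848)) (I.mix (nat_lit 31342592) (nat_lit 8994816)) (I.mix (nat_lit 31768576) (nat_lit 16384)) (I.pos (nat_lit 12468224) (nat_lit 76857344)) (I.mix (nat_lit 41926656) (nat_lit 31506432)) (I.mix (nat_lit 25722880) (nat_lit 40861696)) (I.mix (nat_lit 14057472) (nat_lit 26705920)))
  false (nat_lit 12513000)
def b0_10 : Bx := Bx.mk (St.mk (I.pos (nat_lit 173686784) (nat_lit 228524032)) (I.mix (nat_lit 14712832) (nat_lit 60588032)) (I.mix (nat_lit 28917760) (nat_lit 66682880)) (I.pos (nat_lit 142934016) (nat_lit 231505920)) (I.mix (nat_lit 119324672) (nat_lit 51363840)) (I.mix (nat_lit 125927424) (nat_lit 76267520)) (I.mix (nat_lit 135757824) (nat_lit 82296832)))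
  false (nat_lit 8129042)
def b0_11 : Bx := Bx.mk (St.mk (I.mix (nat_lit 28688384) (nat_lit 137773056)) (I.mix (nat_lit 16416768) (nat_lit 37060608)) (I.mix (nat_lit 24395776) (nat_lit 14827520)) (I.pos (nat_lit 12763136) (nat_lit 99303424)) (I.mix (nat_lit 46235648) (nat_lit 38699008)) (I.mix (nat_lit 55951360) (nat_lit 36372480)) (I.mix (nat_lit 32538624) (nat_lit 20905984)))
  false (nat_lit 16526228)
def b0_12 : Bx := Bx.mk (St.mk (I.pos (nat_lit 147439616) (nat_lit 217792512)) (I.mix (nat_lit 39616512) (nat_lit 21118976)) (I.mix (nat_lit 64864256) (nat_lit 10551296)) (I.pos (nat_lit 105054208) (nat_lit 211337216)) (I.mix (nat_lit 69140480) (nat_lit 62013440)) (I.mix (nat_lit 71254016) (nat_lit 66977792)) (I.mix (nat_lit 75579392) (nat_lit 67715072)))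
  false (nat_lit 0)
def b0_13 : Bx := Bx.mk (St.mk (I.pos (nat_lit 174800896) (nat_lit 217497600)) (I.mix (nat_lit 19890176) (nat_lit 35667968)) (I.mix (nat_lit 38256640) (nat_lit 33374208)) (I.pos (nat_lit 144539648) (nat_lit 211009536)) (I.mix (nat_lit 103366656) (nat_lit 73695232)) (I.mix (nat_lit 130514944) (nat_lit 78348288)) (I.mix (nat_lit 144130048) (nat_lit 79757312)))
  false (nat_lit 0)
def t0 : BTr := (BTr.n (BTr.n (BTr.n (BTr.b b0_0) (BTr.n (BTr.b b0_1) (BTr.b b0_2))) (BTr.n (BTr.n (BTr.b b0_3) (BTr.b b0_4)) (BTr.n (BTr.b b0_5) (BTr.b b0_6)))) (BTr.n (BTr.n (BTr.b b0_7) (BTr.n (BTr.b b0_8) (BTr.b b0_9))) (BTr.n (BTr.n (BTr.b b0_10) (BTr.b b0_11)) (BTr.n (BTr.b b0_12) (BTr.b b0_13)))))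
namespace T0
def l0 : Tr := Tr.L (Pth.l (Pth.l (Pth.l Pth.z)))
def l1 : Tr := Tr.L (Pth.l (Pth.l (Pth.r (Pth.l Pth.z))))
def l2 : Tr := Tr.L (Pth.l (Pth.l (Pth.r (Pth.r Pth.z))))
def l3 : Tr := Tr.L (Pth.l (Pth.r (Pth.l (Pth.l Pth.z))))
def l4 : Tr := Tr.L (Pth.l (Pth.r (Pth.l (Pth.r Pth.z))))
def l5 : Tr := Tr.L (Pth.l (Pth.r (Pth.r (Pth.l Pth.z))))
def l6 : Tr := Tr.L (Pth.l (Pth.r (Pth.r (Pth.r Pth.z))))
def l7 : Tr := Tr.L (Pth.r (Pth.l (Pth.l Pth.z)))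
def l8 : Tr := Tr.L (Pth.r (Pth.l (Pth.r (Pth.l Pth.z))))
def l9 : Tr := Tr.L (Pth.r (Pth.l (Pth.r (Pth.r Pth.z))))
def l10 : Tr := Tr.L (Pth.r (Pth.r (Pth.l (Pth.l Pth.z))))
def l11 : Tr := Tr.L (Pth.r (Pth.r (Pth.l (Pth.r Pth.z))))
def l12 : Tr := Tr.L (Pth.r (Pth.r (Pth.r (Pth.l Pth.z))))
def l13 : Tr := Tr.L (Pth.r (Pth.r (Pth.r (Pth.r Pth.z))))
end T0
def b1_0 : Bx := Bx.mk (St.mk (I.pos (nat_lit 155713536) (nat_lit 245858304)) (I.mix (nat_lit 3833856) (nat_lit 63094784)) (I.mix (nat_lit 4423680) (nat_lit 73498624)) (I.pos (nat_lit 89735168) (nat_lit 244465664)) (I.mix (nat_lit 98238464) (nat_lit 59785216)) (I.mix (nat_lit 70549504) (nat_lit 59899904)) (I.mix (nat_lit 101449728) (nat_lit 84541440)))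
  false (nat_lit 0)
def b1_1 : Bx := Bx.mk (St.mk (I.mix (nat_lit 18710528) (nat_lit 148733952)) (I.mix (nat_lit 7438336) (nat_lit 27459584)) (I.mix (nat_lit 21086208) (nat_lit 12550144)) (I.mix (nat_lit 5652480) (nat_lit 90177536)) (I.mix (nat_lit 30769152) (nat_lit 37945344)) (I.mix (nat_lit 35323904) (nat_lit 25133056)) (I.mix (nat_lit 29556736) (nat_lit 20103168)))
  false (nat_lit 0)
def b1_2 : Bx := Bx.mk (St.mk (I.pos (nat_lit 115720192) (nat_lit 156975104)) (I.mix (nat_lit 47923200) (nat_lit 10715136)) (I.neg (nat_lit 950272) (nat_lit 65650688)) (I.pos (nat_lit 50495488) (nat_lit 108609536)) (I.mix (nat_lit 93634560) (nat_lit 34684928)) (I.mix (nat_lit 40730624) (nat_lit 92078080)) (I.mix (nat_lit 30490624) (nat_lit 90488832)))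
  false (nat_lit 0)
def b1_3 : Bx := Bx.mk (St.mk (I.mix (nat_lit 15319040) (nat_lit 109723648)) (I.mix (nat_lit 23429120) (nat_lit 5259264)) (I.mix (nat_lit 25296896) (nat_lit 1982464)) (I.mix (nat_lit 3866624) (nat_lit 58589184)) (I.mix (nat_lit 35192832) (nat_lit 16433152)) (I.mix (nat_lit 15728640) (nat_lit 31096832)) (I.mix (nat_lit 9027584) (nat_lit 20545536)))
  false (nat_lit 0)
def b1_4 : Bx := Bx.mk (St.mk (I.pos (nat_lit 194822144) (nat_lit 257064960)) (I.mix (nat_lit 19496960) (nat_lit 60702720)) (I.mix (nat_lit 76333056) (nat_lit 72794112)) (I.pos (nat_lit 177340416) (nat_lit 264814592)) (I.mix (nat_lit 96583680) (nat_lit 79888384)) (I.mix (nat_lit 90718208) (nat_lit 71024640)) (I.mix (nat_lit 145571840) (nat_lit 134004736)))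
  false (nat_lit 16636195)
def b1_5 : Bx := Bx.mk (St.mk (I.mix (nat_lit 15433728) (nat_lit 44711936)) (I.mix (nat_lit 2621440) (nat_lit 3538944)) (I.mix (nat_lit 5111808) (nat_lit 851968)) (I.mix (nat_lit 1966080) (nat_lit 24903680)) (I.mix (nat_lit 6602752) (nat_lit 4128768)) (I.mix (nat_lit 4571136) (nat_lit 4603904)) (I.mix (nat_lit 1458176) (nat_lit 1802240)))
  false (nat_lit 0)
def b1_6 : Bx := Bx.mk (St.mk (I.pos (nat_lit 113016832) (nat_lit 135610368)) (I.mix (nat_lit 8863744) (nat_lit 7438336)) (I.neg (nat_lit 2719744) (nat_lit 23085056)) (I.pos (nat_lit 49577984) (nat_lit 86491136)) (I.mix (nat_lit 24494080) (nat_lit 15925248)) (I.mix (nat_lit 16744448) (nat_lit 17874944)) (I.mix (nat_lit 14237696) (nat_lit 18350080)))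
  false (nat_lit 0)
def b1_7 : Bx := Bx.mk (St.mk (I.pos (nat_lit 220708864) (nat_lit 262275072)) (I.mix (nat_lit 17661952) (nat_lit 18579456)) (I.neg (nat_lit 5783552) (nat_lit 76693504)) (I.pos (nat_lit 202997760) (nat_lit 281624576)) (I.mix (nat_lit 75710464) (nat_lit 26214400)) (I.mix (nat_lit 48103424) (nat_lit 47579136)) (I.mix (nat_lit 75726848) (nat_lit 92340224)))
  false (nat_lit 0)
def b1_8 : Bx := Bx.mk (St.mk (I.pos (nat_lit 104906752) (nat_lit 185745408)) (I.mix (nat_lit 55377920) (nat_lit 9633792)) (I.neg (nat_lit 8306688) (nat_lit 67633152)) (I.pos (nat_lit 59375616) (nat_lit 145571840)) (I.mix (nat_lit 89948160) (nat_lit 49856512)) (I.mix (nat_lit 50970624) (nat_lit 76578816)) (I.mix (nat_lit 43024384) (nat_lit 82051072)))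
  false (nat_lit 19226805)
def b1_9 : Bx := Bx.mk (St.mk (I.mix (nat_lit 20037632) (nat_lit 122322944)) (I.mix (nat_lit 28966912) (nat_lit 11124736)) (I.mix (nat_lit 28901376) (nat_lit 2195456)) (I.mix (nat_lit 4440064) (nat_lit 68550656)) (I.mix (nat_lit 39747584) (nat_lit 31309824)) (I.mix (nat_lit 26312704) (nat_lit 37896192)) (I.mix (nat_lit 15073280) (nat_lit 27394048)))
  false (nat_lit 2817812)
def b1_10 : Bx := Bx.mk (St.mk (I.pos (nat_lit 174833664) (nat_lit 228327424)) (I.mix (nat_lit 19955712) (nat_lit 55590912)) (I.mix (nat_lit 28393472) (nat_lit 67862528)) (I.pos (nat_lit 122028032) (nat_lit 211337216)) (I.mix (nat_lit 119308288) (nat_lit 49938432)) (I.mix (nat_lit 127434752) (nat_lit 74366976)) (I.mix (nat_lit 145080320) (nat_lit 83197952)))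
  false (nat_lit 0)
def b1_11 : Bx := Bx.mk (St.mk (I.mix (nat_lit 19333120) (nat_lit 148340736)) (I.mix (nat_lit 16220160) (nat_lit 35651584)) (I.mix (nat_lit 22134784) (nat_lit 18907136)) (I.mix (nat_lit 5619712) (nat_lit 89456640)) (I.mix (nat_lit 49954816) (nat_lit 37355520)) (I.mix (nat_lit 54951936) (nat_lit 37715968)) (I.mix (nat_lit 36208640) (nat_lit 23953408)))
  false (nat_lit 6176615)
def b1_12 : Bx := Bx.mk (St.mk (I.pos (nat_lit 151715840) (nat_lit 219545600)) (I.mix (nat_lit 38158336) (nat_lit 17874944)) (I.mix (nat_lit 59326464) (nat_lit 11714560)) (I.pos (nat_lit 92356608) (nat_lit 194428928)) (I.mix (nat_lit 68337664) (nat_lit 59129856)) (I.mix (nat_lit 68829184) (nat_lit 65290240)) (I.mix (nat_lit 75923456) (nat_lit 68304896)))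
  false (nat_lit 26029332)
def b1_13 : Bx := Bx.mk (St.mk (I.pos (nat_lit 177274880) (nat_lit 218300416)) (I.mix (nat_lit 22265856) (nat_lit 32489472)) (I.mix (nat_lit 35520512) (nat_lit 35815424)) (I.pos (nat_lit 127696896) (nat_lit 192823296)) (I.mix (nat_lit 101482496) (nat_lit 70828032)) (I.mix (nat_lit 125730816) (nat_lit 77250560)) (I.mix (nat_lit 145326080) (nat_lit 83591168)))
  false (nat_lit 0)
def t1 : BTr := (BTr.n (BTr.n (BTr.n (BTr.b b1_0) (BTr.n (BTr.b b1_1) (BTr.b b1_2))) (BTr.n (BTr.n (BTr.b b1_3) (BTr.b b1_4)) (BTr.n (BTr.b b1_5) (BTr.b b1_6)))) (BTr.n (BTr.n (BTr.b b1_7) (BTr.n (BTr.b b1_8) (BTr.b b1_9))) (BTr.n (BTr.n (BTr.b b1_10) (BTr.b b1_11)) (BTr.n (BTr.b b1_12) (BTr.b b1_13)))))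
namespace T1
def l0 : Tr := Tr.L (Pth.l (Pth.l (Pth.l Pth.z)))
def l1 : Tr := Tr.L (Pth.l (Pth.l (Pth.r (Pth.l Pth.z))))
def l2 : Tr := Tr.L (Pth.l (Pth.l (Pth.r (Pth.r Pth.z))))
def l3 : Tr := Tr.L (Pth.l (Pth.r (Pth.l (Pth.l Pth.z))))
def l4 : Tr := Tr.L (Pth.l (Pth.r (Pth.l (Pth.r Pth.z))))
def l5 : Tr := Tr.L (Pth.l (Pth.r (Pth.r (Pth.l Pth.z))))
def l6 : Tr := Tr.L (Pth.l (Pth.r (Pth.r (Pth.r Pth.z))))
def l7 : Tr := Tr.L (Pth.r (Pth.l (Pth.l Pth.z)))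
def l8 : Tr := Tr.L (Pth.r (Pth.l (Pth.r (Pth.l Pth.z))))
def l9 : Tr := Tr.L (Pth.r (Pth.l (Pth.r (Pth.r Pth.z))))
def l10 : Tr := Tr.L (Pth.r (Pth.r (Pth.l (Pth.l Pth.z))))
def l11 : Tr := Tr.L (Pth.r (Pth.r (Pth.l (Pth.r Pth.z))))
def l12 : Tr := Tr.L (Pth.r (Pth.r (Pth.r (Pth.l Pth.z))))
def l13 : Tr := Tr.L (Pth.r (Pth.r (Pth.r (Pth.r Pth.z))))
end T1
def b2_0 : Bx := Bx.mk (St.mk (I.pos (nat_lit 139001856) (nat_lit 223182848)) (I.mix (nat_lit 6012928) (nat_lit 101580800)) (I.mix (nat_lit 6242304) (nat_lit 105742336)) (I.pos (nat_lit 361070592) (nat_lit 457867264)) (I.mix (nat_lit 141099008) (nat_lit 82411520)) (I.mix (nat_lit 95715328) (nat_lit 85164032)) (I.mix (nat_lit 109428736) (nat_lit 107544576)))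
  false (nat_lit 161331417)
def b2_1 : Bx := Bx.mk (St.mk (I.mix (nat_lit 61014016) (nat_lit 16580608)) (I.mix (nat_lit 18169856) (nat_lit 93372416)) (I.neg (nat_lit 39862272) (nat_lit 69402624)) (I.pos (nat_lit 260800512) (nat_lit 290619392)) (I.mix (nat_lit 45072384) (nat_lit 97484800)) (I.mix (nat_lit 83214336) (nat_lit 58032128)) (I.mix (nat_lit 35913728) (nat_lit 29622272)))
  true (nat_lit 0)
def b2_2 : Bx := Bx.mk (St.mk (I.pos (nat_lit 12615680) (nat_lit 59359232)) (I.neg (nat_lit 28835840) (nat_lit 90701824)) (I.neg (nat_lit 40763392) (nat_lit 69353472)) (I.pos (nat_lit 265355264) (nat_lit 290357248)) (I.mix (nat_lit 97271808) (nat_lit 41320448)) (I.mix (nat_lit 57344000) (nat_lit 71122944)) (I.mix (nat_lit 35913728) (nat_lit 29622272)))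
  false (nat_lit 2324572)
def b2_3 : Bx := Bx.mk (St.mk (I.pos (nat_lit 16809984) (nat_lit 125779968)) (I.mix (nat_lit 103546880) (nat_lit 1212416)) (I.mix (nat_lit 87834624) (nat_lit 4210688)) (I.pos (nat_lit 258736128) (nat_lit 330629120)) (I.mix (nat_lit 116588544) (nat_lit 73252864)) (I.mix (nat_lit 74366976) (nat_lit 93978624)) (I.mix (nat_lit 73482240) (nat_lit 75399168)))
  false (nat_lit 47877982)
def b2_4 : Bx := Bx.mk (St.mk (I.pos (nat_lit 94257152) (nat_lit 193560576)) (I.mix (nat_lit 44384256) (nat_lit 98009088)) (I.mix (nat_lit 42287104) (nat_lit 107970560)) (I.pos (nat_lit 297418752) (nat_lit 422150144)) (I.mix (nat_lit 155090944) (nat_lit 75104256)) (I.mix (nat_lit 144998400) (nat_lit 103137280)) (I.mix (nat_lit 142147584) (nat_lit 123813888)))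
  false (nat_lit 115105287)
def b2_5 : Bx := Bx.mk (St.mk (I.neg (nat_lit 16793600) (nat_lit 125779968)) (I.mix (nat_lit 1277952) (nat_lit 103546880)) (I.mix (nat_lit 87834624) (nat_lit 4210688)) (I.pos (nat_lit 258719744) (nat_lit 330645504)) (I.mix (nat_lit 73269248) (nat_lit 116588544)) (I.mix (nat_lit 93978624) (nat_lit 74366976)) (I.mix (nat_lit 73482240) (nat_lit 75415552)))
  true (nat_lit 0)
def b2_6 : Bx := Bx.mk (St.mk (I.pos (nat_lit 171966464) (nat_lit 292093952)) (I.mix (nat_lit 31457280) (nat_lit 68780032)) (I.mix (nat_lit 165298176) (nat_lit 50135040)) (I.pos (nat_lit 395476992) (nat_lit 578043904)) (I.mix (nat_lit 88850432) (nat_lit 73007104)) (I.mix (nat_lit 81936384) (nat_lit 65781760)) (I.mix (nat_lit 141623296) (nat_lit 122634240)))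
  false (nat_lit 161535453)
def b2_7 : Bx := Bx.mk (St.mk (I.mix (nat_lit 15941632) (nat_lit 47742976)) (I.mix (nat_lit 53460992) (nat_lit 15908864)) (I.neg (nat_lit 40468480) (nat_lit 58769408)) (I.pos (nat_lit 261652480) (nat_lit 278691840)) (I.mix (nat_lit 56492032) (nat_lit 44613632)) (I.mix (nat_lit 44498944) (nat_lit 46841856)) (I.mix (nat_lit 13352960) (nat_lit 16941056)))
  false (nat_lit 0)
def b2_8 : Bx := Bx.mk (St.mk (I.pos (nat_lit 154730496) (nat_lit 218038272)) (I.pos (nat_lit 18857984) (nat_lit 97042432)) (I.mix (nat_lit 19562496) (nat_lit 94978048)) (I.pos (nat_lit 386203648) (nat_lit 444596224)) (I.mix (nat_lit 114982912) (nat_lit 90030080)) (I.mix (nat_lit 101040128) (nat_lit 72499200)) (I.mix (nat_lit 144539648) (nat_lit 95911936)))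
  false (nat_lit 139881025)
def b2_9 : Bx := Bx.mk (St.mk (I.pos (nat_lit 19218432) (nat_lit 51412992)) (I.neg (nat_lit 21184512) (nat_lit 79593472)) (I.neg (nat_lit 41402368) (nat_lit 67387392)) (I.pos (nat_lit 265846784) (nat_lit 285016064)) (I.mix (nat_lit 94420992) (nat_lit 44335104)) (I.mix (nat_lit 47415296) (nat_lit 82608128)) (I.mix (nat_lit 25624576) (nat_lit 24756224)))
  false (nat_lit 0)
def t2 : BTr := (BTr.n (BTr.n (BTr.n (BTr.b b2_0) (BTr.b b2_1)) (BTr.n (BTr.b b2_2) (BTr.n (BTr.b b2_3) (BTr.b b2_4)))) (BTr.n (BTr.n (BTr.b b2_5) (BTr.b b2_6)) (BTr.n (BTr.b b2_7) (BTr.n (BTr.b b2_8) (BTr.b b2_9)))))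
namespace T2
def l0 : Tr := Tr.L (Pth.l (Pth.l (Pth.l Pth.z)))
def l1 : Tr := Tr.L (Pth.l (Pth.l (Pth.r Pth.z)))
def l2 : Tr := Tr.L (Pth.l (Pth.r (Pth.l Pth.z)))
def l3 : Tr := Tr.L (Pth.l (Pth.r (Pth.r (Pth.l Pth.z))))
def l4 : Tr := Tr.L (Pth.l (Pth.r (Pth.r (Pth.r Pth.z))))
def l5 : Tr := Tr.L (Pth.r (Pth.l (Pth.l Pth.z)))
def l6 : Tr := Tr.L (Pth.r (Pth.l (Pth.r Pth.z)))
def l7 : Tr := Tr.L (Pth.r (Pth.r (Pth.l Pth.z)))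
def l8 : Tr := Tr.L (Pth.r (Pth.r (Pth.r (Pth.l Pth.z))))
def l9 : Tr := Tr.L (Pth.r (Pth.r (Pth.r (Pth.r Pth.z))))
end T2
def b3_0 : Bx := Bx.mk (St.mk (I.pos (nat_lit 155975680) (nat_lit 241172480)) (I.mix (nat_lit 2899968) (nat_lit 46612480)) (I.mix (nat_lit 7012352) (nat_lit 119373824)) (I.pos (nat_lit 89456640) (nat_lit 214007808)) (I.mix (nat_lit 101515264) (nat_lit 62046208)) (I.mix (nat_lit 91308032) (nat_lit 73433088)) (I.mix (nat_lit 136495104) (nat_lit 95977472)))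
  false (nat_lit 23066433)
def b3_1 : Bx := Bx.mk (St.mk (I.pos (nat_lit 122404864) (nat_lit 183255040)) (I.mix (nat_lit 57835520) (nat_lit 65536)) (I.mix (nat_lit 42024960) (nat_lit 23789568)) (I.pos (nat_lit 74563584) (nat_lit 135954432)) (I.mix (nat_lit 74252288) (nat_lit 56639488)) (I.mix (nat_lit 52740096) (nat_lit 69058560)) (I.mix (nat_lit 45531136) (nat_lit 69402624)))
  false (nat_lit 60293085)
def b3_2 : Bx := Bx.mk (St.mk (I.mix (nat_lit 13549568) (nat_lit 124911616)) (I.mix (nat_lit 27820032) (nat_lit 5685248)) (I.mix (nat_lit 10534912) (nat_lit 14729216)) (I.mix (nat_lit 4407296) (nat_lit 68042752)) (I.mix (nat_lit 24215552) (nat_lit 30375936)) (I.mix (nat_lit 19562496) (nat_lit 26968064)) (I.mix (nat_lit 12763136) (nat_lit 18497536)))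
  false (nat_lit 0)
def b3_3 : Bx := Bx.mk (St.mk (I.pos (nat_lit 168116224) (nat_lit 215171072)) (I.mix (nat_lit 17481728) (nat_lit 49676288)) (I.pos (nat_lit 13615104) (nat_lit 109936640)) (I.pos (nat_lit 104071168) (nat_lit 184762368)) (I.mix (nat_lit 136921088) (nat_lit 46153728)) (I.mix (nat_lit 143589376) (nat_lit 71712768)) (I.mix (nat_lit 186368000) (nat_lit 64421888)))
  false (nat_lit 36600253)
def b3_4 : Bx := Bx.mk (St.mk (I.mix (nat_lit 18235392) (nat_lit 140361728)) (I.mix (nat_lit 15024128) (nat_lit 34717696)) (I.mix (nat_lit 2916352) (nat_lit 41746432)) (I.mix (nat_lit 5259264) (nat_lit 83099648)) (I.mix (nat_lit 62570496) (nat_lit 31375360)) (I.mix (nat_lit 58343424) (nat_lit 32669696)) (I.mix (nat_lit 46563328) (nat_lit 19120128)))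
  false (nat_lit 2331510)
def b3_5 : Bx := Bx.mk (St.mk (I.pos (nat_lit 167231488) (nat_lit 210370560)) (I.mix (nat_lit 41779200) (nat_lit 24756224)) (I.mix (nat_lit 17432576) (nat_lit 73285632)) (I.pos (nat_lit 102907904) (nat_lit 176177152)) (I.mix (nat_lit 112984064) (nat_lit 67846144)) (I.mix (nat_lit 126533632) (nat_lit 67239936)) (I.mix (nat_lit 156106752) (nat_lit 69074944)))
  false (nat_lit 61459012)
def b3_6 : Bx := Bx.mk (St.mk (I.mix (nat_lit 20873216) (nat_lit 125976576)) (I.mix (nat_lit 16941056) (nat_lit 5423104)) (I.mix (nat_lit 1376256) (nat_lit 14516224)) (I.mix (nat_lit 4489216) (nat_lit 69419008)) (I.mix (nat_lit 22364160) (nat_lit 17481728)) (I.mix (nat_lit 16990208) (nat_lit 18153472)) (I.mix (nat_lit 12861440) (nat_lit 10682368)))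
  false (nat_lit 0)
def b3_7 : Bx := Bx.mk (St.mk (I.pos (nat_lit 154632192) (nat_lit 185827328)) (I.neg (nat_lit 507904) (nat_lit 36552704)) (I.mix (nat_lit 11108352) (nat_lit 29278208)) (I.pos (nat_lit 94863360) (nat_lit 142049280)) (I.mix (nat_lit 44335104) (nat_lit 35749888)) (I.mix (nat_lit 29982720) (nat_lit 37715968)) (I.mix (nat_lit 37601280) (nat_lit 34816000)))
  false (nat_lit 16075720)
def b3_8 : Bx := Bx.mk (St.mk (I.pos (nat_lit 164315136) (nat_lit 190873600)) (I.neg (nat_lit 5832704) (nat_lit 35356672)) (I.mix (nat_lit 11075584) (nat_lit 24985600)) (I.pos (nat_lit 104185856) (nat_lit 151912448)) (I.mix (nat_lit 29868032) (nat_lit 29343744)) (I.mix (nat_lit 24477696) (nat_lit 23576576)) (I.mix (nat_lit 25362432) (nat_lit 25264128)))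
  false (nat_lit 0)
def b3_9 : Bx := Bx.mk (St.mk (I.mix (nat_lit 23560192) (nat_lit 147554304)) (I.mix (nat_lit 7847936) (nat_lit 22839296)) (I.mix (nat_lit 2506752) (nat_lit 34406400)) (I.mix (nat_lit 5799936) (nat_lit 92585984)) (I.mix (nat_lit 38682624) (nat_lit 36306944)) (I.mix (nat_lit 47464448) (nat_lit 31653888)) (I.mix (nat_lit 41091072) (nat_lit 23429120)))
  false (nat_lit 0)
def b3_10 : Bx := Bx.mk (St.mk (I.pos (nat_lit 116195328) (nat_lit 171180032)) (I.mix (nat_lit 59342848) (nat_lit 11681792)) (I.mix (nat_lit 39878656) (nat_lit 25903104)) (I.pos (nat_lit 50774016) (nat_lit 124387328)) (I.mix (nat_lit 83066880) (nat_lit 43450368)) (I.mix (nat_lit 44023808) (nat_lit 79298560)) (I.mix (nat_lit 36651008) (nat_lit 65273856)))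
  false (nat_lit 47368808)
def b3_11 : Bx := Bx.mk (St.mk (I.pos (nat_lit 33112064) (nat_lit 113475584)) (I.mix (nat_lit 26034176) (nat_lit 5521408)) (I.mix (nat_lit 8929280) (nat_lit 11517952)) (I.pos (nat_lit 2326528) (nat_lit 62767104)) (I.mix (nat_lit 27787264) (nat_lit 20004864)) (I.mix (nat_lit 19300352) (nat_lit 32096256)) (I.mix (nat_lit 10698752) (nat_lit 17694720)))
  false (nat_lit 0)
def b3_12 : Bx := Bx.mk (St.mk (I.pos (nat_lit 191119360) (nat_lit 284377088)) (I.mix (nat_lit 19841024) (nat_lit 36667392)) (I.pos (nat_lit 2244608) (nat_lit 104087552)) (I.pos (nat_lit 154058752) (nat_lit 315523072)) (I.mix (nat_lit 84230144) (nat_lit 62586880)) (I.mix (nat_lit 66732032) (nat_lit 50282496)) (I.mix (nat_lit 111804416) (nat_lit 83345408)))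
  false (nat_lit 67221011)
def b3_13 : Bx := Bx.mk (St.mk (I.pos (nat_lit 183533568) (nat_lit 236961792)) (I.pos (nat_lit 2506752) (nat_lit 45400064)) (I.pos (nat_lit 32702464) (nat_lit 113115136)) (I.pos (nat_lit 148062208) (nat_lit 206848000)) (I.mix (nat_lit 96026624) (nat_lit 72040448)) (I.mix (nat_lit 99254272) (nat_lit 72204288)) (I.mix (nat_lit 154566656) (nat_lit 95059968)))
  false (nat_lit 43090842)
def t3 : BTr := (BTr.n (BTr.n (BTr.n (BTr.b b3_0) (BTr.n (BTr.b b3_1) (BTr.b b3_2))) (BTr.n (BTr.n (BTr.b b3_3) (BTr.b b3_4)) (BTr.n (BTr.b b3_5) (BTr.b b3_6)))) (BTr.n (BTr.n (BTr.b b3_7) (BTr.n (BTr.b b3_8) (BTr.b b3_9))) (BTr.n (BTr.n (BTr.b b3_10) (BTr.b b3_11)) (BTr.n (BTr.b b3_12) (BTr.b b3_13)))))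
namespace T3
def l0 : Tr := Tr.L (Pth.l (Pth.l (Pth.l Pth.z)))
def l1 : Tr := Tr.L (Pth.l (Pth.l (Pth.r (Pth.l Pth.z))))
def l2 : Tr := Tr.L (Pth.l (Pth.l (Pth.r (Pth.r Pth.z))))
def l3 : Tr := Tr.L (Pth.l (Pth.r (Pth.l (Pth.l Pth.z))))
def l4 : Tr := Tr.L (Pth.l (Pth.r (Pth.l (Pth.r Pth.z))))
def l5 : Tr := Tr.L (Pth.l (Pth.r (Pth.r (Pth.l Pth.z))))
def l6 : Tr := Tr.L (Pth.l (Pth.r (Pth.r (Pth.r Pth.z))))
def l7 : Tr := Tr.L (Pth.r (Pth.l (Pth.l Pth.z)))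
def l8 : Tr := Tr.L (Pth.r (Pth.l (Pth.r (Pth.l Pth.z))))
def l9 : Tr := Tr.L (Pth.r (Pth.l (Pth.r (Pth.r Pth.z))))
def l10 : Tr := Tr.L (Pth.r (Pth.r (Pth.l (Pth.l Pth.z))))
def l11 : Tr := Tr.L (Pth.r (Pth.r (Pth.l (Pth.r Pth.z))))
def l12 : Tr := Tr.L (Pth.r (Pth.r (Pth.r (Pth.l Pth.z))))
def l13 : Tr := Tr.L (Pth.r (Pth.r (Pth.r (Pth.r Pth.z))))
end T3
def b4_0 : Bx := Bx.mk (St.mk (I.pos (nat_lit 134676480) (nat_lit 221937664)) (I.mix (nat_lit 5881856) (nat_lit 99205120)) (I.mix (nat_lit 6815744) (nat_lit 115785728)) (I.pos (nat_lit 359301120) (nat_lit 452345856)) (I.mix (nat_lit 140132352) (nat_lit 85213184)) (I.mix (nat_lit 98926592) (nat_lit 83836928)) (I.mix (nat_lit 106528768) (nat_lit 106070016)))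
  false (nat_lit 163204649)
def b4_1 : Bx := Bx.mk (St.mk (I.pos (nat_lit 20840448) (nat_lit 127909888)) (I.mix (nat_lit 103120896) (nat_lit 638976)) (I.mix (nat_lit 78069760) (nat_lit 17104896)) (I.pos (nat_lit 260964352) (nat_lit 334168064)) (I.mix (nat_lit 110116864) (nat_lit 72417280)) (I.mix (nat_lit 74514432) (nat_lit 86097920)) (I.mix (nat_lit 71385088) (nat_lit 68648960)))
  false (nat_lit 59717999)
def b4_2 : Bx := Bx.mk (St.mk (I.pos (nat_lit 92782592) (nat_lit 193429504)) (I.mix (nat_lit 48316416) (nat_lit 97648640)) (I.mix (nat_lit 34062336) (nat_lit 120012800)) (I.pos (nat_lit 297025536) (nat_lit 419348480)) (I.mix (nat_lit 162496512) (nat_lit 73170944)) (I.mix (nat_lit 144850944) (nat_lit 102481920)) (I.mix (nat_lit 146866176) (nat_lit 125255680)))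
  false (nat_lit 122532656)
def b4_3 : Bx := Bx.mk (St.mk (I.neg (nat_lit 20840448) (nat_lit 127909888)) (I.mix (nat_lit 638976) (nat_lit 103120896)) (I.mix (nat_lit 78069760) (nat_lit 17104896)) (I.pos (nat_lit 260931584) (nat_lit 334184448)) (I.mix (nat_lit 72433664) (nat_lit 110116864)) (I.mix (nat_lit 86097920) (nat_lit 74514432)) (I.mix (nat_lit 71401472) (nat_lit 68648960)))
  true (nat_lit 0)
def b4_4 : Bx := Bx.mk (St.mk (I.mix (nat_lit 58359808) (nat_lit 14680064)) (I.mix (nat_lit 16039936) (nat_lit 92913664)) (I.neg (nat_lit 31440896) (nat_lit 60538880)) (I.pos (nat_lit 261652480) (nat_lit 289095680)) (I.mix (nat_lit 44908544) (nat_lit 93274112)) (I.mix (nat_lit 87867392) (nat_lit 50102272)) (I.mix (nat_lit 29392896) (nat_lit 25133056)))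
  true (nat_lit 0)
def b4_5 : Bx := Bx.mk (St.mk (I.pos (nat_lit 15499264) (nat_lit 56655872)) (I.neg (nat_lit 29556736) (nat_lit 90341376)) (I.neg (nat_lit 37126144) (nat_lit 60227584)) (I.pos (nat_lit 266846208) (nat_lit 288800768)) (I.mix (nat_lit 93274112) (nat_lit 32538624)) (I.mix (nat_lit 50102272) (nat_lit 69500928)) (I.mix (nat_lit 29442048) (nat_lit 19677184)))
  false (nat_lit 0)
def b4_6 : Bx := Bx.mk (St.mk (I.pos (nat_lit 168411136) (nat_lit 290308096)) (I.mix (nat_lit 28000256) (nat_lit 71041024)) (I.mix (nat_lit 139411456) (nat_lit 68730880)) (I.pos (nat_lit 389578752) (nat_lit 571817984)) (I.mix (nat_lit 94666752) (nat_lit 77217792)) (I.mix (nat_lit 81510400) (nat_lit 59654144)) (I.mix (nat_lit 140083200) (nat_lit 107331584)))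
  false (nat_lit 162516188)
def b4_7 : Bx := Bx.mk (St.mk (I.mix (nat_lit 13828096) (nat_lit 50364416)) (I.mix (nat_lit 55508992) (nat_lit 13910016)) (I.neg (nat_lit 32030720) (nat_lit 50053120)) (I.pos (nat_lit 262422528) (nat_lit 279642112)) (I.mix (nat_lit 54525952) (nat_lit 43515904)) (I.mix (nat_lit 43040768) (nat_lit 45498368)) (I.mix (nat_lit 13074432) (nat_lit 15089664)))
  false (nat_lit 0)
def b4_8 : Bx := Bx.mk (St.mk (I.pos (nat_lit 151470080) (nat_lit 213745664)) (I.pos (nat_lit 29704192) (nat_lit 94126080)) (I.pos (nat_lit 17612800) (nat_lit 105021440)) (I.pos (nat_lit 379568128) (nat_lit 438239232)) (I.mix (nat_lit 119324672) (nat_lit 91586560)) (I.mix (nat_lit 108085248) (nat_lit 72974336)) (I.mix (nat_lit 150700032) (nat_lit 95780864)))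
  false (nat_lit 123835092)
def b4_9 : Bx := Bx.mk (St.mk (I.pos (nat_lit 22347776) (nat_lit 54001664)) (I.neg (nat_lit 22855680) (nat_lit 80314368)) (I.neg (nat_lit 32800768) (nat_lit 58130432)) (I.pos (nat_lit 267534336) (nat_lit 285638656)) (I.mix (nat_lit 93143040) (nat_lit 44777472)) (I.mix (nat_lit 47693824) (nat_lit 87867392)) (I.mix (nat_lit 25329664) (nat_lit 25149440)))
  false (nat_lit 0)
def t4 : BTr := (BTr.n (BTr.n (BTr.n (BTr.b b4_0) (BTr.b b4_1)) (BTr.n (BTr.b b4_2) (BTr.n (BTr.b b4_3) (BTr.b b4_4)))) (BTr.n (BTr.n (BTr.b b4_5) (BTr.b b4_6)) (BTr.n (BTr.b b4_7) (BTr.n (BTr.b b4_8) (BTr.b b4_9)))))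
namespace T4
def l0 : Tr := Tr.L (Pth.l (Pth.l (Pth.l Pth.z)))
def l1 : Tr := Tr.L (Pth.l (Pth.l (Pth.r Pth.z)))
def l2 : Tr := Tr.L (Pth.l (Pth.r (Pth.l Pth.z)))
def l3 : Tr := Tr.L (Pth.l (Pth.r (Pth.r (Pth.l Pth.z))))
def l4 : Tr := Tr.L (Pth.l (Pth.r (Pth.r (Pth.r Pth.z))))
def l5 : Tr := Tr.L (Pth.r (Pth.l (Pth.l Pth.z)))
def l6 : Tr := Tr.L (Pth.r (Pth.l (Pth.r Pth.z)))
def l7 : Tr := Tr.L (Pth.r (Pth.r (Pth.l Pth.z)))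
def l8 : Tr := Tr.L (Pth.r (Pth.r (Pth.r (Pth.l Pth.z))))
def l9 : Tr := Tr.L (Pth.r (Pth.r (Pth.r (Pth.r Pth.z))))
end T4
def b5_0 : Bx := Bx.mk (St.mk (I.pos (nat_lit 156172288) (nat_lit 237912064)) (I.mix (nat_lit 3080192) (nat_lit 49774592)) (I.mix (nat_lit 7241728) (nat_lit 123355136)) (I.pos (nat_lit 108707840) (nat_lit 227934208)) (I.mix (nat_lit 106889216) (nat_lit 63717376)) (I.mix (nat_lit 93519872) (nat_lit 75988992)) (I.mix (nat_lit 139329536) (nat_lit 96370688)))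
  false (nat_lit 30616808)
def b5_1 : Bx := Bx.mk (St.mk (I.pos (nat_lit 115884032) (nat_lit 179240960)) (I.neg (nat_lit 245760) (nat_lit 61063168)) (I.mix (nat_lit 40501248) (nat_lit 29769728)) (I.pos (nat_lit 86097920) (nat_lit 149667840)) (I.mix (nat_lit 73154560) (nat_lit 58933248)) (I.mix (nat_lit 51265536) (nat_lit 67796992)) (I.mix (nat_lit 45056000) (nat_lit 65159168)))
  false (nat_lit 63732003)
def b5_2 : Bx := Bx.mk (St.mk (I.mix (nat_lit 19005440) (nat_lit 109182976)) (I.mix (nat_lit 30457856) (nat_lit 5881856)) (I.mix (nat_lit 7897088) (nat_lit 17727488)) (I.pos (nat_lit 13484032) (nat_lit 76234752)) (I.mix (nat_lit 24543232) (nat_lit 33210368)) (I.mix (nat_lit 20414464) (nat_lit 29294592)) (I.mix (nat_lit 13205504) (nat_lit 17874944)))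
  false (nat_lit 0)
def b5_3 : Bx := Bx.mk (St.mk (I.pos (nat_lit 164790272) (nat_lit 212959232)) (I.mix (nat_lit 16138240) (nat_lit 53706752)) (I.pos (nat_lit 19087360) (nat_lit 118128640)) (I.pos (nat_lit 115376128) (nat_lit 199737344)) (I.mix (nat_lit 141148160) (nat_lit 46497792)) (I.mix (nat_lit 143065088) (nat_lit 74678272)) (I.mix (nat_lit 181436416) (nat_lit 64471040)))
  false (nat_lit 56967256)
def b5_4 : Bx := Bx.mk (St.mk (I.mix (nat_lit 26968064) (nat_lit 127270912)) (I.mix (nat_lit 15155200) (nat_lit 36388864)) (I.mix (nat_lit 1163264) (nat_lit 43483136)) (I.pos (nat_lit 13074432) (nat_lit 91652096)) (I.mix (nat_lit 61341696) (nat_lit 31096832)) (I.mix (nat_lit 56819712) (nat_lit 32063488)) (I.mix (nat_lit 39387136) (nat_lit 18644992)))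
  false (nat_lit 0)
def b5_5 : Bx := Bx.mk (St.mk (I.pos (nat_lit 149618688) (nat_lit 181665792)) (I.neg (nat_lit 1114112) (nat_lit 37814272)) (I.mix (nat_lit 7372800) (nat_lit 34783232)) (I.pos (nat_lit 106201088) (nat_lit 155533312)) (I.mix (nat_lit 46530560) (nat_lit 40419328)) (I.mix (nat_lit 32145408) (nat_lit 42287104)) (I.mix (nat_lit 39665664) (nat_lit 36847616)))
  false (nat_lit 20637517)
def b5_6 : Bx := Bx.mk (St.mk (I.mix (nat_lit 32358400) (nat_lit 111706112)) (I.mix (nat_lit 17481728) (nat_lit 7225344)) (I.mix (nat_lit 606208) (nat_lit 19267584)) (I.pos (nat_lit 13991936) (nat_lit 77824000)) (I.mix (nat_lit 24199168) (nat_lit 19824640)) (I.mix (nat_lit 19677184) (nat_lit 20643840)) (I.mix (nat_lit 13418496) (nat_lit 11075584)))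
  false (nat_lit 0)
def b5_7 : Bx := Bx.mk (St.mk (I.pos (nat_lit 159924224) (nat_lit 190889984)) (I.neg (nat_lit 6062080) (nat_lit 38158336)) (I.mix (nat_lit 9011200) (nat_lit 30212096)) (I.pos (nat_lit 115949568) (nat_lit 169869312)) (I.mix (nat_lit 33161216) (nat_lit 34177024)) (I.mix (nat_lit 32997376) (nat_lit 25198592)) (I.mix (nat_lit 32391168) (nat_lit 26099712)))
  false (nat_lit 0)
def b5_8 : Bx := Bx.mk (St.mk (I.pos (nat_lit 163201024) (nat_lit 207421440)) (I.mix (nat_lit 45367296) (nat_lit 27377664)) (I.mix (nat_lit 13811712) (nat_lit 80445440)) (I.pos (nat_lit 114819072) (nat_lit 189333504)) (I.mix (nat_lit 115507200) (nat_lit 70664192)) (I.mix (nat_lit 126763008) (nat_lit 69369856)) (I.mix (nat_lit 152551424) (nat_lit 70877184)))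
  false (nat_lit 86130022)
def b5_9 : Bx := Bx.mk (St.mk (I.mix (nat_lit 30343168) (nat_lit 137232384)) (I.mix (nat_lit 8224768) (nat_lit 28852224)) (I.mix (nat_lit 802816) (nat_lit 39763968)) (I.pos (nat_lit 10649600) (nat_lit 101761024)) (I.mix (nat_lit 43991040) (nat_lit 38256640)) (I.mix (nat_lit 51134464) (nat_lit 32915456)) (I.mix (nat_lit 41156608) (nat_lit 22659072)))
  false (nat_lit 0)
def b5_10 : Bx := Bx.mk (St.mk (I.pos (nat_lit 107216896) (nat_lit 165838848)) (I.mix (nat_lit 63340544) (nat_lit 12746752)) (I.mix (nat_lit 37863424) (nat_lit 27934720)) (I.pos (nat_lit 61620224) (nat_lit 136003584)) (I.mix (nat_lit 79478784) (nat_lit 44171264)) (I.mix (nat_lit 43614208) (nat_lit 77234176)) (I.mix (nat_lit 32456704) (nat_lit 60653568)))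
  false (nat_lit 49974912)
def b5_11 : Bx := Bx.mk (St.mk (I.mix (nat_lit 21397504) (nat_lit 101859328)) (I.neg (nat_lit 262144) (nat_lit 28491776)) (I.mix (nat_lit 6258688) (nat_lit 10944512)) (I.pos (nat_lit 14565376) (nat_lit 71319552)) (I.mix (nat_lit 27410432) (nat_lit 21086208)) (I.mix (nat_lit 19251200) (nat_lit 32997376)) (I.mix (nat_lit 9568256) (nat_lit 15466496)))
  false (nat_lit 0)
def b5_12 : Bx := Bx.mk (St.mk (I.pos (nat_lit 186368000) (nat_lit 283705344)) (I.mix (nat_lit 18923520) (nat_lit 39190528)) (I.pos (nat_lit 5619712) (nat_lit 110247936)) (I.pos (nat_lit 165052416) (nat_lit 330678272)) (I.mix (nat_lit 86769664) (nat_lit 67780608)) (I.mix (nat_lit 70516736) (nat_lit 52707328)) (I.mix (nat_lit 118046720) (nat_lit 86736896)))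
  false (nat_lit 75816080)
def b5_13 : Bx := Bx.mk (St.mk (I.pos (nat_lit 179650560) (nat_lit 234274816)) (I.pos (nat_lit 2867200) (nat_lit 47382528)) (I.pos (nat_lit 36159488) (nat_lit 118423552)) (I.pos (nat_lit 160120832) (nat_lit 220119040)) (I.mix (nat_lit 98828288) (nat_lit 74842112)) (I.mix (nat_lit 104693760) (nat_lit 73007104)) (I.mix (nat_lit 160071680) (nat_lit 92995584)))
  false (nat_lit 33831135)
def t5 : BTr := (BTr.n (BTr.n (BTr.n (BTr.b b5_0) (BTr.n (BTr.b b5_1) (BTr.b b5_2))) (BTr.n (BTr.n (BTr.b b5_3) (BTr.b b5_4)) (BTr.n (BTr.b b5_5) (BTr.b b5_6)))) (BTr.n (BTr.n (BTr.b b5_7) (BTr.n (BTr.b b5_8) (BTr.b b5_9))) (BTr.n (BTr.n (BTr.b b5_10) (BTr.b b5_11)) (BTr.n (BTr.b b5_12) (BTr.b b5_13)))))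
namespace T5
def l0 : Tr := Tr.L (Pth.l (Pth.l (Pth.l Pth.z)))
def l1 : Tr := Tr.L (Pth.l (Pth.l (Pth.r (Pth.l Pth.z))))
def l2 : Tr := Tr.L (Pth.l (Pth.l (Pth.r (Pth.r Pth.z))))
def l3 : Tr := Tr.L (Pth.l (Pth.r (Pth.l (Pth.l Pth.z))))
def l4 : Tr := Tr.L (Pth.l (Pth.r (Pth.l (Pth.r Pth.z))))
def l5 : Tr := Tr.L (Pth.l (Pth.r (Pth.r (Pth.l Pth.z))))
def l6 : Tr := Tr.L (Pth.l (Pth.r (Pth.r (Pth.r Pth.z))))
def l7 : Tr := Tr.L (Pth.r (Pth.l (Pth.l Pth.z)))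
def l8 : Tr := Tr.L (Pth.r (Pth.l (Pth.r (Pth.l Pth.z))))
def l9 : Tr := Tr.L (Pth.r (Pth.l (Pth.r (Pth.r Pth.z))))
def l10 : Tr := Tr.L (Pth.r (Pth.r (Pth.l (Pth.l Pth.z))))
def l11 : Tr := Tr.L (Pth.r (Pth.r (Pth.l (Pth.r Pth.z))))
def l12 : Tr := Tr.L (Pth.r (Pth.r (Pth.r (Pth.l Pth.z))))
def l13 : Tr := Tr.L (Pth.r (Pth.r (Pth.r (Pth.r Pth.z))))
end T5
theorem bx0_0 : BoxOK sI cl4 cl9 cl13 t2 t4 b0_0 :=
  box_mk (TrL.c (I.pos (nat_lit 0) (nat_lit 0)) (xa (xb T2.l0 (xa T2.l0 T2.l0)) (xb T2.l0 (xa T2.l0 T2.l0)))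
  (TrL.c (I.pos (nat_lit 0) (nat_lit 0)) T4.l1
  (TrL.c (I.pos (nat_lit 0) (nat_lit 0)) T2.l1
  (TrL.c (I.pos (nat_lit 0) (nat_lit 0)) T4.l2
  (TrL.c (I.pos (nat_lit 0) (nat_lit 0)) T2.l2
  (TrL.c (I.pos (nat_lit 0) (nat_lit 0)) T4.l3
  TrL.n)))))) (by decide +kernel)
theorem bx0_1 : BoxOK sI cl4 cl9 cl13 t2 t4 b0_1 :=
  box_mk (TrL.c (I.pos (nat_lit 0) (nat_lit 0)) (xa (xa T2.l6 T2.l6) (xa T2.l6 T2.l6))
  (TrL.c (I.pos (nat_lit 0) (nat_lit 0)) T4.l1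
  (TrL.c (I.pos (nat_lit 0) (nat_lit 0)) T2.l1
  (TrL.c (I.pos (nat_lit 0) (nat_lit 0)) T4.l2
  (TrL.c (I.pos (nat_lit 0) (nat_lit 0)) T2.l7
  (TrL.c (I.pos (nat_lit 0) (nat_lit 0)) T4.l3
  TrL.n)))))) (by decide +kernel)
theorem bx0_2 : BoxOK sI cl4 cl9 cl13 t2 t4 b0_2 :=
  box_mk (TrL.c (I.pos (nat_lit 0) (nat_lit 0)) (xb T2.l6 (xa T2.l6 T2.l6))
  (TrL.c (I.pos (nat_lit 0) (nat_lit 0)) T4.l1
  (TrL.c (I.pos (nat_lit 0) (nat_lit 0)) T2.l1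
  (TrL.c (I.pos (nat_lit 0) (nat_lit 0)) T4.l2
  (TrL.c (I.pos (nat_lit 0) (nat_lit 0)) T2.l7
  (TrL.c (I.pos (nat_lit 0) (nat_lit 0)) T4.l3
  TrL.n)))))) (by decide +kernel)
theorem bx0_3 : BoxOK sI cl4 cl9 cl13 t2 t4 b0_3 :=
  box_mk (TrL.c (I.pos (nat_lit 0) (nat_lit 0)) T2.l6
  (TrL.c (I.pos (nat_lit 0) (nat_lit 0)) T4.l1
  (TrL.c (I.pos (nat_lit 0) (nat_lit 0)) T2.l1
  (TrL.c (I.pos (nat_lit 0) (nat_lit 0)) T4.l2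
  (TrL.c (I.pos (nat_lit 0) (nat_lit 0)) T2.l7
  (TrL.c (I.pos (nat_lit 0) (nat_lit 0)) T4.l3
  TrL.n)))))) (by decide +kernel)
theorem bx0_4 : BoxOK sI cl4 cl9 cl13 t2 t4 b0_4 :=
  box_mk (TrL.c (I.pos (nat_lit 0) (nat_lit 0)) T2.l6
  (TrL.c (I.pos (nat_lit 0) (nat_lit 0)) T4.l1
  (TrL.c (I.pos (nat_lit 0) (nat_lit 0)) T2.l1
  (TrL.c (I.pos (nat_lit 0) (nat_lit 0)) T4.l2
  (TrL.c (I.pos (nat_lit 0) (nat_lit 0)) T2.l7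
  (TrL.c (I.pos (nat_lit 0) (nat_lit 0)) T4.l3
  TrL.n)))))) (by decide +kernel)
theorem bx0_5 : BoxOK sI cl4 cl9 cl13 t2 t4 b0_5 :=
  box_mk (TrL.c (I.pos (nat_lit 0) (nat_lit 0)) T2.l6
  (TrL.c (I.pos (nat_lit 0) (nat_lit 0)) T4.l1
  (TrL.c (I.pos (nat_lit 0) (nat_lit 0)) T2.l1
  (TrL.c (I.pos (nat_lit 0) (nat_lit 0)) T4.l2
  (TrL.c (I.pos (nat_lit 0) (nat_lit 0)) T2.l7
  (TrL.c (I.pos (nat_lit 0) (nat_lit 0)) T4.l3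
  TrL.n)))))) (by decide +kernel)
theorem bx0_6 : BoxOK sI cl4 cl9 cl13 t2 t4 b0_6 :=
  box_mk (TrL.c (I.pos (nat_lit 0) (nat_lit 0)) T2.l0
  (TrL.c (I.pos (nat_lit 0) (nat_lit 0)) T4.l1
  (TrL.c (I.pos (nat_lit 0) (nat_lit 0)) T2.l1
  (TrL.c (I.pos (nat_lit 0) (nat_lit 0)) T4.l2
  (TrL.c (I.pos (nat_lit 0) (nat_lit 0)) T2.l2
  (TrL.c (I.pos (nat_lit 0) (nat_lit 0)) T4.l3
  TrL.n)))))) (by decide +kernel)
theorem bx0_7 : BoxOK sI cl4 cl9 cl13 t2 t4 b0_7 :=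
  box_mk (TrL.c (I.pos (nat_lit 0) (nat_lit 0)) (xb (xa T2.l0 T2.l0) (xa (xb T2.l0 T2.l0) (xb T2.l0 T2.l0)))
  (TrL.c (I.pos (nat_lit 0) (nat_lit 0)) (xb T4.l1 T4.l1)
  (TrL.c (I.pos (nat_lit 0) (nat_lit 0)) T2.l5
  (TrL.c (I.pos (nat_lit 0) (nat_lit 0)) (xb (xa T4.l2 (xb (xa T4.l2 T4.l2) T4.l2)) (xa T4.l2 (xb T4.l2 (xa T4.l2 T4.l2))))
  (TrL.c (I.pos (nat_lit 0) (nat_lit 0)) T2.l3
  (TrL.c (I.pos (nat_lit 0) (nat_lit 0)) (xb T4.l3 T4.l3)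
  TrL.n)))))) (by decide +kernel)
theorem bx0_8 : BoxOK sI cl4 cl9 cl13 t2 t4 b0_8 :=
  box_mk (TrL.c (I.pos (nat_lit 0) (nat_lit 0)) (xa (xb (xa T2.l6 T2.l6) (xa T2.l6 T2.l6)) (xb (xa T2.l6 T2.l6) T2.l6))
  (TrL.c (I.pos (nat_lit 0) (nat_lit 0)) T4.l1
  (TrL.c (I.pos (nat_lit 0) (nat_lit 0)) T2.l1
  (TrL.c (I.pos (nat_lit 0) (nat_lit 0)) T4.l2
  (TrL.c (I.pos (nat_lit 0) (nat_lit 0)) T2.l7
  (TrL.c (I.pos (nat_lit 0) (nat_lit 0)) T4.l3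
  TrL.n)))))) (by decide +kernel)
theorem bx0_9 : BoxOK sI cl4 cl9 cl13 t2 t4 b0_9 :=
  box_mk (TrL.c (I.pos (nat_lit 0) (nat_lit 0)) (xa (xa (xb (xa T2.l6 T2.l6) T2.l6) T2.l6) T2.l6)
  (TrL.c (I.pos (nat_lit 0) (nat_lit 0)) T4.l1
  (TrL.c (I.pos (nat_lit 0) (nat_lit 0)) T2.l1
  (TrL.c (I.pos (nat_lit 0) (nat_lit 0)) T4.l2
  (TrL.c (I.pos (nat_lit 0) (nat_lit 0)) T2.l7
  (TrL.c (I.pos (nat_lit 0) (nat_lit 0)) T4.l3
  TrL.n)))))) (by decide +kernel)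
theorem bx0_10 : BoxOK sI cl4 cl9 cl13 t2 t4 b0_10 :=
  box_mk (TrL.c (I.pos (nat_lit 0) (nat_lit 0)) (xb (xa T2.l8 T2.l8) (xa (xb T2.l8 T2.l8) (xb T2.l8 T2.l8)))
  (TrL.c (I.pos (nat_lit 0) (nat_lit 0)) T4.l1
  (TrL.c (I.pos (nat_lit 0) (nat_lit 0)) T2.l5
  (TrL.c (I.pos (nat_lit 0) (nat_lit 0)) (xb T4.l2 (xa T4.l2 (xb T4.l2 T4.l2)))
  (TrL.c (I.pos (nat_lit 0) (nat_lit 0)) T2.l3
  (TrL.c (I.pos (nat_lit 0) (nat_lit 0)) T4.l3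
  TrL.n)))))) (by decide +kernel)
theorem bx0_11 : BoxOK sI cl4 cl9 cl13 t2 t4 b0_11 :=
  box_mk (TrL.c (I.pos (nat_lit 0) (nat_lit 0)) (xa (xa (xb T2.l6 (xa T2.l6 T2.l6)) (xb T2.l6 (xa T2.l6 T2.l6))) (xa T2.l6 (xb T2.l6 (xa T2.l6 T2.l6))))
  (TrL.c (I.pos (nat_lit 0) (nat_lit 0)) (xa T4.l1 T4.l1)
  (TrL.c (I.pos (nat_lit 0) (nat_lit 0)) T2.l1
  (TrL.c (I.pos (nat_lit 0) (nat_lit 0)) (xa T4.l2 T4.l2)
  (TrL.c (I.pos (nat_lit 0) (nat_lit 0)) T2.l7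
  (TrL.c (I.pos (nat_lit 0) (nat_lit 0)) (xa T4.l3 T4.l3)
  TrL.n)))))) (by decide +kernel)
theorem bx0_12 : BoxOK sI cl4 cl9 cl13 t2 t4 b0_12 :=
  box_mk (TrL.c (I.pos (nat_lit 0) (nat_lit 0)) (xa (xb T2.l8 T2.l0) T2.l8)
  (TrL.c (I.pos (nat_lit 0) (nat_lit 0)) T4.l1
  (TrL.c (I.pos (nat_lit 0) (nat_lit 0)) T2.l1
  (TrL.c (I.pos (nat_lit 0) (nat_lit 0)) T4.l2
  (TrL.c (I.pos (nat_lit 0) (nat_lit 0)) T2.l9
  (TrL.c (I.pos (nat_lit 0) (nat_lit 0)) T4.l3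
  TrL.n)))))) (by decide +kernel)
theorem bx0_13 : BoxOK sI cl4 cl9 cl13 t2 t4 b0_13 :=
  box_mk (TrL.c (I.pos (nat_lit 0) (nat_lit 0)) (xb T2.l8 (xa T2.l8 T2.l8))
  (TrL.c (I.pos (nat_lit 0) (nat_lit 0)) T4.l1
  (TrL.c (I.pos (nat_lit 0) (nat_lit 0)) T2.l5
  (TrL.c (I.pos (nat_lit 0) (nat_lit 0)) (xb T4.l2 T4.l2)
  (TrL.c (I.pos (nat_lit 0) (nat_lit 0)) T2.l3
  (TrL.c (I.pos (nat_lit 0) (nat_lit 0)) T4.l3
  TrL.n)))))) (by decide +kernel)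
theorem sv0 : StarV sI cl4 cl9 cl13 t2 t4 t0 :=
  (bt_n (bt_n (bt_n (bt_b bx0_0) (bt_n (bt_b bx0_1) (bt_b bx0_2))) (bt_n (bt_n (bt_b bx0_3) (bt_b bx0_4)) (bt_n (bt_b bx0_5) (bt_b bx0_6)))) (bt_n (bt_n (bt_b bx0_7) (bt_n (bt_b bx0_8) (bt_b bx0_9))) (bt_n (bt_n (bt_b bx0_10) (bt_b bx0_11)) (bt_n (bt_b bx0_12) (bt_b bx0_13)))))
def S0 : StarD := StarD.mk cl4 cl9 cl13 2 4 t0
theorem bx1_0 : BoxOK sI cl4 cl13 cl9 t4 t2 b1_0 :=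
  box_mk (TrL.c (I.pos (nat_lit 0) (nat_lit 0)) (xa (xb (xa T4.l0 T4.l0) (xa T4.l0 T4.l0)) (xb T4.l0 (xa T4.l0 T4.l0)))
  (TrL.c (I.pos (nat_lit 0) (nat_lit 0)) T2.l3
  (TrL.c (I.pos (nat_lit 0) (nat_lit 0)) T4.l4
  (TrL.c (I.pos (nat_lit 0) (nat_lit 0)) (xa T2.l4 T2.l4)
  (TrL.c (I.pos (nat_lit 0) (nat_lit 0)) T4.l5
  (TrL.c (I.pos (nat_lit 0) (nat_lit 0)) T2.l5
  TrL.n)))))) (by decide +kernel)
theorem bx1_1 : BoxOK sI cl4 cl13 cl9 t4 t2 b1_1 :=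
  box_mk (TrL.c (I.pos (nat_lit 0) (nat_lit 0)) (xa T4.l6 (xa T4.l6 T4.l6))
  (TrL.c (I.pos (nat_lit 0) (nat_lit 0)) (xa T2.l3 T2.l3)
  (TrL.c (I.pos (nat_lit 0) (nat_lit 0)) T4.l4
  (TrL.c (I.pos (nat_lit 0) (nat_lit 0)) T2.l4
  (TrL.c (I.pos (nat_lit 0) (nat_lit 0)) T4.l7
  (TrL.c (I.pos (nat_lit 0) (nat_lit 0)) (xa T2.l5 T2.l5)
  TrL.n)))))) (by decide +kernel)
theorem bx1_2 : BoxOK sI cl4 cl13 cl9 t4 t2 b1_2 :=
  box_mk (TrL.c (I.pos (nat_lit 0) (nat_lit 0)) (xb (xa T4.l6 T4.l6) (xa T4.l6 T4.l6))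
  (TrL.c (I.pos (nat_lit 0) (nat_lit 0)) T2.l3
  (TrL.c (I.pos (nat_lit 0) (nat_lit 0)) T4.l4
  (TrL.c (I.pos (nat_lit 0) (nat_lit 0)) T2.l4
  (TrL.c (I.pos (nat_lit 0) (nat_lit 0)) T4.l7
  (TrL.c (I.pos (nat_lit 0) (nat_lit 0)) T2.l5
  TrL.n)))))) (by decide +kernel)
theorem bx1_3 : BoxOK sI cl4 cl13 cl9 t4 t2 b1_3 :=
  box_mk (TrL.c (I.pos (nat_lit 0) (nat_lit 0)) T4.l6
  (TrL.c (I.pos (nat_lit 0) (nat_lit 0)) T2.l3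
  (TrL.c (I.pos (nat_lit 0) (nat_lit 0)) T4.l4
  (TrL.c (I.pos (nat_lit 0) (nat_lit 0)) T2.l4
  (TrL.c (I.pos (nat_lit 0) (nat_lit 0)) T4.l7
  (TrL.c (I.pos (nat_lit 0) (nat_lit 0)) T2.l5
  TrL.n)))))) (by decide +kernel)
theorem bx1_4 : BoxOK sI cl4 cl13 cl9 t4 t2 b1_4 :=
  box_mk (TrL.c (I.pos (nat_lit 0) (nat_lit 0)) (xa (xb (xb T4.l0 T4.l0) (xb T4.l0 T4.l0)) (xb T4.l2 (xa T4.l0 T4.l2)))
  (TrL.c (I.pos (nat_lit 0) (nat_lit 0)) (xb T2.l3 T2.l3)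
  (TrL.c (I.pos (nat_lit 0) (nat_lit 0)) T4.l3
  (TrL.c (I.pos (nat_lit 0) (nat_lit 0)) (xb (xa T2.l4 (xb (xa T2.l4 T2.l4) T2.l4)) (xa T2.l4 (xa T2.l4 (xb T2.l4 T2.l4))))
  (TrL.c (I.pos (nat_lit 0) (nat_lit 0)) T4.l1
  (TrL.c (I.pos (nat_lit 0) (nat_lit 0)) (xb T2.l5 T2.l5)
  TrL.n)))))) (by decide +kernel)
theorem bx1_5 : BoxOK sI cl4 cl13 cl9 t4 t2 b1_5 :=
  box_mk (TrL.c (I.pos (nat_lit 0) (nat_lit 0)) T4.l6
  (TrL.c (I.pos (nat_lit 0) (nat_lit 0)) T2.l3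
  (TrL.c (I.pos (nat_lit 0) (nat_lit 0)) T4.l4
  (TrL.c (I.pos (nat_lit 0) (nat_lit 0)) T2.l4
  (TrL.c (I.pos (nat_lit 0) (nat_lit 0)) T4.l7
  (TrL.c (I.pos (nat_lit 0) (nat_lit 0)) T2.l5
  TrL.n)))))) (by decide +kernel)
theorem bx1_6 : BoxOK sI cl4 cl13 cl9 t4 t2 b1_6 :=
  box_mk (TrL.c (I.pos (nat_lit 0) (nat_lit 0)) T4.l6
  (TrL.c (I.pos (nat_lit 0) (nat_lit 0)) T2.l3
  (TrL.c (I.pos (nat_lit 0) (nat_lit 0)) T4.l4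
  (TrL.c (I.pos (nat_lit 0) (nat_lit 0)) T2.l4
  (TrL.c (I.pos (nat_lit 0) (nat_lit 0)) T4.l7
  (TrL.c (I.pos (nat_lit 0) (nat_lit 0)) T2.l5
  TrL.n)))))) (by decide +kernel)
theorem bx1_7 : BoxOK sI cl4 cl13 cl9 t4 t2 b1_7 :=
  box_mk (TrL.c (I.pos (nat_lit 0) (nat_lit 0)) T4.l0
  (TrL.c (I.pos (nat_lit 0) (nat_lit 0)) T2.l3
  (TrL.c (I.pos (nat_lit 0) (nat_lit 0)) T4.l3
  (TrL.c (I.pos (nat_lit 0) (nat_lit 0)) T2.l0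
  (TrL.c (I.pos (nat_lit 0) (nat_lit 0)) T4.l1
  (TrL.c (I.pos (nat_lit 0) (nat_lit 0)) T2.l5
  TrL.n)))))) (by decide +kernel)
theorem bx1_8 : BoxOK sI cl4 cl13 cl9 t4 t2 b1_8 :=
  box_mk (TrL.c (I.pos (nat_lit 0) (nat_lit 0)) (xa (xb (xa T4.l6 T4.l6) (xa T4.l6 T4.l6)) (xb T4.l6 T4.l6))
  (TrL.c (I.pos (nat_lit 0) (nat_lit 0)) T2.l3
  (TrL.c (I.pos (nat_lit 0) (nat_lit 0)) T4.l4
  (TrL.c (I.pos (nat_lit 0) (nat_lit 0)) T2.l4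
  (TrL.c (I.pos (nat_lit 0) (nat_lit 0)) T4.l7
  (TrL.c (I.pos (nat_lit 0) (nat_lit 0)) T2.l5
  TrL.n)))))) (by decide +kernel)
theorem bx1_9 : BoxOK sI cl4 cl13 cl9 t4 t2 b1_9 :=
  box_mk (TrL.c (I.pos (nat_lit 0) (nat_lit 0)) (xa (xa (xb (xa T4.l6 T4.l6) T4.l6) T4.l6) T4.l6)
  (TrL.c (I.pos (nat_lit 0) (nat_lit 0)) T2.l3
  (TrL.c (I.pos (nat_lit 0) (nat_lit 0)) T4.l4
  (TrL.c (I.pos (nat_lit 0) (nat_lit 0)) T2.l4
  (TrL.c (I.pos (nat_lit 0) (nat_lit 0)) T4.l7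
  (TrL.c (I.pos (nat_lit 0) (nat_lit 0)) T2.l5
  TrL.n)))))) (by decide +kernel)
theorem bx1_10 : BoxOK sI cl4 cl13 cl9 t4 t2 b1_10 :=
  box_mk (TrL.c (I.pos (nat_lit 0) (nat_lit 0)) (xb (xa T4.l8 T4.l8) (xa (xb T4.l8 T4.l8) (xb T4.l8 T4.l8)))
  (TrL.c (I.pos (nat_lit 0) (nat_lit 0)) T2.l3
  (TrL.c (I.pos (nat_lit 0) (nat_lit 0)) T4.l4
  (TrL.c (I.pos (nat_lit 0) (nat_lit 0)) (xb T2.l4 (xa T2.l4 (xb T2.l4 T2.l4)))
  (TrL.c (I.pos (nat_lit 0) (nat_lit 0)) T4.l9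
  (TrL.c (I.pos (nat_lit 0) (nat_lit 0)) T2.l5
  TrL.n)))))) (by decide +kernel)
theorem bx1_11 : BoxOK sI cl4 cl13 cl9 t4 t2 b1_11 :=
  box_mk (TrL.c (I.pos (nat_lit 0) (nat_lit 0)) (xa (xa (xb T4.l6 (xa T4.l6 T4.l6)) (xb T4.l6 T4.l6)) (xa T4.l6 (xb T4.l6 (xa T4.l6 T4.l6))))
  (TrL.c (I.pos (nat_lit 0) (nat_lit 0)) (xa T2.l3 T2.l3)
  (TrL.c (I.pos (nat_lit 0) (nat_lit 0)) T4.l4
  (TrL.c (I.pos (nat_lit 0) (nat_lit 0)) (xa T2.l4 T2.l4)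
  (TrL.c (I.pos (nat_lit 0) (nat_lit 0)) T4.l7
  (TrL.c (I.pos (nat_lit 0) (nat_lit 0)) (xa T2.l5 T2.l5)
  TrL.n)))))) (by decide +kernel)
theorem bx1_12 : BoxOK sI cl4 cl13 cl9 t4 t2 b1_12 :=
  box_mk (TrL.c (I.pos (nat_lit 0) (nat_lit 0)) T4.l0
  (TrL.c (I.pos (nat_lit 0) (nat_lit 0)) T2.l3
  (TrL.c (I.pos (nat_lit 0) (nat_lit 0)) T4.l4
  (TrL.c (I.pos (nat_lit 0) (nat_lit 0)) T2.l4
  (TrL.c (I.pos (nat_lit 0) (nat_lit 0)) T4.l9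
  (TrL.c (I.pos (nat_lit 0) (nat_lit 0)) T2.l5
  TrL.n)))))) (by decide +kernel)
theorem bx1_13 : BoxOK sI cl4 cl13 cl9 t4 t2 b1_13 :=
  box_mk (TrL.c (I.pos (nat_lit 0) (nat_lit 0)) (xb T4.l8 (xa T4.l8 T4.l8))
  (TrL.c (I.pos (nat_lit 0) (nat_lit 0)) T2.l3
  (TrL.c (I.pos (nat_lit 0) (nat_lit 0)) T4.l3
  (TrL.c (I.pos (nat_lit 0) (nat_lit 0)) (xb T2.l4 T2.l4)
  (TrL.c (I.pos (nat_lit 0) (nat_lit 0)) T4.l1
  (TrL.c (I.pos (nat_lit 0) (nat_lit 0)) T2.l5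
  TrL.n)))))) (by decide +kernel)
theorem sv1 : StarV sI cl4 cl13 cl9 t4 t2 t1 :=
  (bt_n (bt_n (bt_n (bt_b bx1_0) (bt_n (bt_b bx1_1) (bt_b bx1_2))) (bt_n (bt_n (bt_b bx1_3) (bt_b bx1_4)) (bt_n (bt_b bx1_5) (bt_b bx1_6)))) (bt_n (bt_n (bt_b bx1_7) (bt_n (bt_b bx1_8) (bt_b bx1_9))) (bt_n (bt_n (bt_b bx1_10) (bt_b bx1_11)) (bt_n (bt_b bx1_12) (bt_b bx1_13)))))
def S1 : StarD := StarD.mk cl4 cl13 cl9 4 2 t1
theorem bx2_0 : BoxOK sI cl9 cl4 cl13 t0 t5 b2_0 :=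
  box_mk (TrL.c (I.pos (nat_lit 0) (nat_lit 0)) (xa T0.l7 (xb T0.l0 T0.l0))
  (TrL.c (I.pos (nat_lit 0) (nat_lit 0)) T5.l1
  (TrL.c (I.pos (nat_lit 0) (nat_lit 124588530)) (xR T0.l1 T0.l1)
  (TrL.c (I.pos (nat_lit 0) (nat_lit 96881482)) (xR T5.l2 T5.l2)
  (TrL.c (I.pos (nat_lit 0) (nat_lit 0)) (xb (xa T5.l3 T5.l3) (xa T5.l3 (xk T5.l3 T5.l3)))
  (TrL.c (I.pos (nat_lit 0) (nat_lit 0)) T0.l2
  (TrL.c (I.mix (nat_lit 17240550) (nat_lit 96881482)) (xR T5.l4 T5.l4)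
  (TrL.c (I.mix (nat_lit 17240550) (nat_lit 71940500)) T0.l9
  TrL.n)))))))) (by decide +kernel)
theorem bx2_1 : BoxOK sI cl9 cl4 cl13 t0 t5 b2_1 :=
  box_mk (TrL.c (I.pos (nat_lit 0) (nat_lit 0)) T5.l5
  (TrL.c (I.pos (nat_lit 0) (nat_lit 0)) T0.l4
  (TrL.c (I.mix (nat_lit 17240550) (nat_lit 96881482)) (xR T5.l6 T5.l6)
  (TrL.c (I.mix (nat_lit 17240550) (nat_lit 71940500)) T0.l9
  TrL.n)))) (by decide +kernel)
theorem bx2_2 : BoxOK sI cl9 cl4 cl13 t0 t5 b2_2 :=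
  box_mk (TrL.c (I.pos (nat_lit 0) (nat_lit 0)) T0.l7
  (TrL.c (I.pos (nat_lit 0) (nat_lit 0)) T5.l1
  (TrL.c (I.pos (nat_lit 0) (nat_lit 124588530)) T0.l1
  (TrL.c (I.pos (nat_lit 0) (nat_lit 96881482)) T5.l2
  (TrL.c (I.pos (nat_lit 0) (nat_lit 0)) T5.l8
  (TrL.c (I.pos (nat_lit 0) (nat_lit 0)) T0.l2
  (TrL.c (I.mix (nat_lit 17240550) (nat_lit 96881482)) T5.l4
  (TrL.c (I.mix (nat_lit 17240550) (nat_lit 71940500)) T0.l3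
  TrL.n)))))))) (by decide +kernel)
theorem bx2_3 : BoxOK sI cl9 cl4 cl13 t0 t5 b2_3 :=
  box_mk (TrL.c (I.pos (nat_lit 0) (nat_lit 0)) (xa (xb (xa (xb T0.l7 T0.l7) T0.l7) T0.l7) T0.l7)
  (TrL.c (I.pos (nat_lit 0) (nat_lit 0)) T5.l1
  (TrL.c (I.pos (nat_lit 0) (nat_lit 124588530)) (xR T0.l1 T0.l1)
  (TrL.c (I.pos (nat_lit 0) (nat_lit 96881482)) (xR T5.l2 T5.l2)
  (TrL.c (I.pos (nat_lit 0) (nat_lit 0)) (xa T5.l8 T5.l8)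
  (TrL.c (I.pos (nat_lit 0) (nat_lit 0)) T0.l2
  (TrL.c (I.mix (nat_lit 17240550) (nat_lit 96881482)) (xR T5.l4 T5.l4)
  (TrL.c (I.mix (nat_lit 17240550) (nat_lit 71940500)) T0.l9
  TrL.n)))))))) (by decide +kernel)
theorem bx2_4 : BoxOK sI cl9 cl4 cl13 t0 t5 b2_4 :=
  box_mk (TrL.c (I.pos (nat_lit 0) (nat_lit 0)) (xb (xa T0.l7 T0.l7) (xa (xb T0.l7 T0.l7) T0.l7))
  (TrL.c (I.pos (nat_lit 0) (nat_lit 0)) T5.l1
  (TrL.c (I.pos (nat_lit 0) (nat_lit 124588530)) (xR T0.l1 T0.l1)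
  (TrL.c (I.pos (nat_lit 0) (nat_lit 96881482)) (xR T5.l2 T5.l2)
  (TrL.c (I.pos (nat_lit 0) (nat_lit 0)) (xb (xa T5.l8 (xk T5.l8 T5.l8)) (xa (xb T5.l8 (xk T5.l3 T5.l3)) (xk (xb T5.l3 (xs T5.l3 (xb T5.l3 (xa T5.l0 T5.l3)))) (xb T5.l3 (xs T5.l3 (xb T5.l3 (xa T5.l0 (xs T5.l3 T5.l3))))))))
  (TrL.c (I.pos (nat_lit 0) (nat_lit 0)) T0.l2
  (TrL.c (I.mix (nat_lit 17240550) (nat_lit 96881482)) (xR T5.l4 T5.l4)
  (TrL.c (I.mix (nat_lit 17240550) (nat_lit 71940500)) T0.l9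
  TrL.n)))))))) (by decide +kernel)
theorem bx2_5 : BoxOK sI cl9 cl4 cl13 t0 t5 b2_5 :=
  box_mk (TrL.c (I.pos (nat_lit 0) (nat_lit 0)) T5.l1
  (TrL.c (I.pos (nat_lit 0) (nat_lit 0)) T0.l1
  (TrL.c (I.mix (nat_lit 17240550) (nat_lit 96881482)) (xR T5.l6 T5.l6)
  (TrL.c (I.mix (nat_lit 17240550) (nat_lit 71940500)) T0.l11
  TrL.n)))) (by decide +kernel)
theorem bx2_6 : BoxOK sI cl9 cl4 cl13 t0 t5 b2_6 :=
  box_mk (TrL.c (I.pos (nat_lit 0) (nat_lit 0)) (xa (xb T0.l0 T0.l0) (xb T0.l0 T0.l0))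
  (TrL.c (I.pos (nat_lit 0) (nat_lit 0)) T5.l1
  (TrL.c (I.pos (nat_lit 0) (nat_lit 124588530)) (xR T0.l1 T0.l11)
  (TrL.c (I.pos (nat_lit 0) (nat_lit 96881482)) (xR T5.l2 T5.l2)
  (TrL.c (I.pos (nat_lit 0) (nat_lit 0)) (xa (xb (xk (xa T5.l3 T5.l3) (xa T5.l3 T5.l3)) T5.l3) (xb (xk (xa T5.l3 T5.l3) (xa T5.l3 T5.l3)) (xk (xa T5.l3 T5.l3) (xa T5.l3 T5.l3))))
  (TrL.c (I.pos (nat_lit 0) (nat_lit 0)) T0.l2
  (TrL.c (I.mix (nat_lit 17240550) (nat_lit 96881482)) (xR T5.l4 T5.l4)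
  (TrL.c (I.mix (nat_lit 17240550) (nat_lit 71940500)) T0.l9
  TrL.n)))))))) (by decide +kernel)
theorem bx2_7 : BoxOK sI cl9 cl4 cl13 t0 t5 b2_7 :=
  box_mk (TrL.c (I.pos (nat_lit 0) (nat_lit 0)) (xb (xa T0.l6 T0.l6) (xa T0.l6 T0.l6))
  (TrL.c (I.pos (nat_lit 0) (nat_lit 0)) T5.l5
  (TrL.c (I.pos (nat_lit 0) (nat_lit 124588530)) T0.l1
  (TrL.c (I.pos (nat_lit 0) (nat_lit 96881482)) T5.l2
  (TrL.c (I.pos (nat_lit 0) (nat_lit 0)) T5.l7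
  (TrL.c (I.pos (nat_lit 0) (nat_lit 0)) T0.l2
  (TrL.c (I.mix (nat_lit 17240550) (nat_lit 96881482)) T5.l4
  (TrL.c (I.mix (nat_lit 17240550) (nat_lit 71940500)) T0.l3
  TrL.n)))))))) (by decide +kernel)
theorem bx2_8 : BoxOK sI cl9 cl4 cl13 t0 t5 b2_8 :=
  box_mk (TrL.c (I.pos (nat_lit 0) (nat_lit 0)) (xa T0.l7 T0.l0)
  (TrL.c (I.pos (nat_lit 0) (nat_lit 0)) T5.l1
  (TrL.c (I.pos (nat_lit 0) (nat_lit 124588530)) (xR T0.l1 T0.l1)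
  (TrL.c (I.pos (nat_lit 0) (nat_lit 96881482)) (xR T5.l2 T5.l2)
  (TrL.c (I.pos (nat_lit 0) (nat_lit 0)) (xk T5.l3 T5.l3)
  (TrL.c (I.pos (nat_lit 0) (nat_lit 0)) T0.l2
  (TrL.c (I.mix (nat_lit 17240550) (nat_lit 96881482)) T5.l4
  (TrL.c (I.mix (nat_lit 17240550) (nat_lit 71940500)) T0.l9
  TrL.n)))))))) (by decide +kernel)
theorem bx2_9 : BoxOK sI cl9 cl4 cl13 t0 t5 b2_9 :=
  box_mk (TrL.c (I.pos (nat_lit 0) (nat_lit 0)) T0.l7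
  (TrL.c (I.pos (nat_lit 0) (nat_lit 0)) T5.l1
  (TrL.c (I.pos (nat_lit 0) (nat_lit 124588530)) T0.l1
  (TrL.c (I.pos (nat_lit 0) (nat_lit 96881482)) T5.l2
  (TrL.c (I.pos (nat_lit 0) (nat_lit 0)) T5.l8
  (TrL.c (I.pos (nat_lit 0) (nat_lit 0)) T0.l2
  (TrL.c (I.mix (nat_lit 17240550) (nat_lit 96881482)) T5.l4
  (TrL.c (I.mix (nat_lit 17240550) (nat_lit 71940500)) T0.l3
  TrL.n)))))))) (by decide +kernel)
theorem sv2 : StarV sI cl9 cl4 cl13 t0 t5 t2 :=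
  (bt_n (bt_n (bt_n (bt_b bx2_0) (bt_b bx2_1)) (bt_n (bt_b bx2_2) (bt_n (bt_b bx2_3) (bt_b bx2_4)))) (bt_n (bt_n (bt_b bx2_5) (bt_b bx2_6)) (bt_n (bt_b bx2_7) (bt_n (bt_b bx2_8) (bt_b bx2_9)))))
def S2 : StarD := StarD.mk cl9 cl4 cl13 0 5 t2
theorem bx3_0 : BoxOK sI cl9 cl13 cl4 t5 t0 b3_0 :=
  box_mk (TrL.c (I.pos (nat_lit 0) (nat_lit 0)) (xa (xa (xb T5.l0 (xs T5.l0 T5.l0)) (xb T5.l0 T5.l0)) (xa (xb T5.l0 (xs T5.l0 T5.l0)) (xb (xb T5.l0 T5.l0) (xs T5.l0 (xb T5.l0 T5.l0)))))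
  (TrL.c (I.pos (nat_lit 0) (nat_lit 0)) T0.l8
  (TrL.c (I.pos (nat_lit 0) (nat_lit 124588530)) (xR T5.l9 T5.l9)
  (TrL.c (I.pos (nat_lit 0) (nat_lit 96881482)) (xR T0.l9 T0.l9)
  (TrL.c (I.pos (nat_lit 0) (nat_lit 0)) (xa (xk T0.l10 T0.l10) (xk (xb T0.l10 T0.l10) (xb T0.l10 (xa T0.l13 T0.l10))))
  (TrL.c (I.pos (nat_lit 0) (nat_lit 0)) T5.l10
  (TrL.c (I.mix (nat_lit 17240550) (nat_lit 96881482)) (xR T0.l11 T0.l11)
  (TrL.c (I.mix (nat_lit 17240550) (nat_lit 71940500)) (xR T5.l11 T5.l11)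
  TrL.n)))))))) (by decide +kernel)
theorem bx3_1 : BoxOK sI cl9 cl13 cl4 t5 t0 b3_1 :=
  box_mk (TrL.c (I.pos (nat_lit 0) (nat_lit 0)) (xa (xb T5.l12 T5.l12) T5.l0)
  (TrL.c (I.pos (nat_lit 0) (nat_lit 0)) T0.l8
  (TrL.c (I.pos (nat_lit 0) (nat_lit 124588530)) T5.l9
  (TrL.c (I.pos (nat_lit 0) (nat_lit 96881482)) T0.l9
  (TrL.c (I.pos (nat_lit 0) (nat_lit 0)) (xa T0.l12 (xk T0.l12 T0.l12))
  (TrL.c (I.pos (nat_lit 0) (nat_lit 0)) T5.l10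
  (TrL.c (I.mix (nat_lit 17240550) (nat_lit 96881482)) (xR T0.l11 T0.l11)
  (TrL.c (I.mix (nat_lit 17240550) (nat_lit 71940500)) T5.l2
  TrL.n)))))))) (by decide +kernel)
theorem bx3_2 : BoxOK sI cl9 cl13 cl4 t5 t0 b3_2 :=
  box_mk (TrL.c (I.pos (nat_lit 0) (nat_lit 0)) (xa (xa (xb T5.l12 T5.l12) T5.l12) T5.l12)
  (TrL.c (I.pos (nat_lit 0) (nat_lit 0)) T0.l8
  (TrL.c (I.pos (nat_lit 0) (nat_lit 124588530)) T5.l9
  (TrL.c (I.pos (nat_lit 0) (nat_lit 96881482)) T0.l9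
  (TrL.c (I.pos (nat_lit 0) (nat_lit 0)) (xa T0.l12 T0.l12)
  (TrL.c (I.pos (nat_lit 0) (nat_lit 0)) T5.l10
  (TrL.c (I.mix (nat_lit 17240550) (nat_lit 96881482)) T0.l11
  (TrL.c (I.mix (nat_lit 17240550) (nat_lit 71940500)) T5.l4
  TrL.n)))))))) (by decide +kernel)
theorem bx3_3 : BoxOK sI cl9 cl13 cl4 t5 t0 b3_3 :=
  box_mk (TrL.c (I.pos (nat_lit 0) (nat_lit 0)) (xb (xa T5.l13 T5.l13) (xa (xs T5.l13 (xb T5.l13 T5.l13)) (xs T5.l13 T5.l13)))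
  (TrL.c (I.pos (nat_lit 0) (nat_lit 0)) T0.l8
  (TrL.c (I.pos (nat_lit 0) (nat_lit 124588530)) (xR T5.l9 T5.l9)
  (TrL.c (I.pos (nat_lit 0) (nat_lit 96881482)) (xR T0.l9 T0.l9)
  (TrL.c (I.pos (nat_lit 0) (nat_lit 0)) (xk (xb T0.l13 T0.l13) (xb T0.l13 T0.l13))
  (TrL.c (I.pos (nat_lit 0) (nat_lit 0)) T5.l10
  (TrL.c (I.mix (nat_lit 17240550) (nat_lit 96881482)) (xR T0.l11 T0.l11)
  (TrL.c (I.mix (nat_lit 17240550) (nat_lit 71940500)) (xR T5.l11 T5.l11)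
  TrL.n)))))))) (by decide +kernel)
theorem bx3_4 : BoxOK sI cl9 cl13 cl4 t5 t0 b3_4 :=
  box_mk (TrL.c (I.pos (nat_lit 0) (nat_lit 0)) (xa (xa (xb (xa T5.l12 T5.l12) (xa T5.l12 T5.l12)) (xb T5.l12 (xa T5.l12 T5.l12))) (xa (xb T5.l12 (xa T5.l12 T5.l12)) (xa T5.l12 T5.l12)))
  (TrL.c (I.pos (nat_lit 0) (nat_lit 0)) (xa T0.l8 T0.l8)
  (TrL.c (I.pos (nat_lit 0) (nat_lit 124588530)) T5.l9
  (TrL.c (I.pos (nat_lit 0) (nat_lit 96881482)) T0.l9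
  (TrL.c (I.pos (nat_lit 0) (nat_lit 0)) (xa T0.l12 T0.l12)
  (TrL.c (I.pos (nat_lit 0) (nat_lit 0)) T5.l10
  (TrL.c (I.mix (nat_lit 17240550) (nat_lit 96881482)) T0.l11
  (TrL.c (I.mix (nat_lit 17240550) (nat_lit 71940500)) T5.l4
  TrL.n)))))))) (by decide +kernel)
theorem bx3_5 : BoxOK sI cl9 cl13 cl4 t5 t0 b3_5 :=
  box_mk (TrL.c (I.pos (nat_lit 0) (nat_lit 0)) (xb (xa T5.l13 (xb T5.l13 T5.l13)) (xa T5.l13 T5.l13))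
  (TrL.c (I.pos (nat_lit 0) (nat_lit 0)) T0.l8
  (TrL.c (I.pos (nat_lit 0) (nat_lit 124588530)) (xR T5.l9 T5.l9)
  (TrL.c (I.pos (nat_lit 0) (nat_lit 96881482)) (xR T0.l9 T0.l9)
  (TrL.c (I.pos (nat_lit 0) (nat_lit 0)) (xk (xb T0.l13 T0.l13) (xb T0.l13 T0.l13))
  (TrL.c (I.pos (nat_lit 0) (nat_lit 0)) T5.l10
  (TrL.c (I.mix (nat_lit 17240550) (nat_lit 96881482)) (xR T0.l11 T0.l11)
  (TrL.c (I.mix (nat_lit 17240550) (nat_lit 71940500)) (xR T5.l11 T5.l2)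
  TrL.n)))))))) (by decide +kernel)
theorem bx3_6 : BoxOK sI cl9 cl13 cl4 t5 t0 b3_6 :=
  box_mk (TrL.c (I.pos (nat_lit 0) (nat_lit 0)) (xa T5.l12 T5.l12)
  (TrL.c (I.pos (nat_lit 0) (nat_lit 0)) T0.l8
  (TrL.c (I.pos (nat_lit 0) (nat_lit 124588530)) T5.l9
  (TrL.c (I.pos (nat_lit 0) (nat_lit 96881482)) T0.l9
  (TrL.c (I.pos (nat_lit 0) (nat_lit 0)) (xa T0.l12 T0.l12)
  (TrL.c (I.pos (nat_lit 0) (nat_lit 0)) T5.l10
  (TrL.c (I.mix (nat_lit 17240550) (nat_lit 96881482)) T0.l11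
  (TrL.c (I.mix (nat_lit 17240550) (nat_lit 71940500)) T5.l4
  TrL.n)))))))) (by decide +kernel)
theorem bx3_7 : BoxOK sI cl9 cl13 cl4 t5 t0 b3_7 :=
  box_mk (TrL.c (I.pos (nat_lit 0) (nat_lit 0)) T5.l12
  (TrL.c (I.pos (nat_lit 0) (nat_lit 0)) T0.l8
  (TrL.c (I.pos (nat_lit 0) (nat_lit 124588530)) T5.l9
  (TrL.c (I.pos (nat_lit 0) (nat_lit 96881482)) T0.l9
  (TrL.c (I.pos (nat_lit 0) (nat_lit 0)) T0.l12
  (TrL.c (I.pos (nat_lit 0) (nat_lit 0)) T5.l10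
  (TrL.c (I.mix (nat_lit 17240550) (nat_lit 96881482)) (xR T0.l11 T0.l11)
  (TrL.c (I.mix (nat_lit 17240550) (nat_lit 71940500)) T5.l2
  TrL.n)))))))) (by decide +kernel)
theorem bx3_8 : BoxOK sI cl9 cl13 cl4 t5 t0 b3_8 :=
  box_mk (TrL.c (I.pos (nat_lit 0) (nat_lit 0)) T5.l13
  (TrL.c (I.pos (nat_lit 0) (nat_lit 0)) T0.l8
  (TrL.c (I.pos (nat_lit 0) (nat_lit 124588530)) T5.l9
  (TrL.c (I.pos (nat_lit 0) (nat_lit 96881482)) T0.l9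
  (TrL.c (I.pos (nat_lit 0) (nat_lit 0)) T0.l13
  (TrL.c (I.pos (nat_lit 0) (nat_lit 0)) T5.l10
  (TrL.c (I.mix (nat_lit 17240550) (nat_lit 96881482)) (xR T0.l11 T0.l11)
  (TrL.c (I.mix (nat_lit 17240550) (nat_lit 71940500)) T5.l2
  TrL.n)))))))) (by decide +kernel)
theorem bx3_9 : BoxOK sI cl9 cl13 cl4 t5 t0 b3_9 :=
  box_mk (TrL.c (I.pos (nat_lit 0) (nat_lit 0)) (xa (xa (xa T5.l12 T5.l12) T5.l12) (xa T5.l12 T5.l12))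
  (TrL.c (I.pos (nat_lit 0) (nat_lit 0)) (xa T0.l8 T0.l8)
  (TrL.c (I.pos (nat_lit 0) (nat_lit 124588530)) T5.l9
  (TrL.c (I.pos (nat_lit 0) (nat_lit 96881482)) T0.l9
  (TrL.c (I.pos (nat_lit 0) (nat_lit 0)) (xa T0.l12 T0.l12)
  (TrL.c (I.pos (nat_lit 0) (nat_lit 0)) T5.l10
  (TrL.c (I.mix (nat_lit 17240550) (nat_lit 96881482)) T0.l11
  (TrL.c (I.mix (nat_lit 17240550) (nat_lit 71940500)) T5.l4
  TrL.n)))))))) (by decide +kernel)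
theorem bx3_10 : BoxOK sI cl9 cl13 cl4 t5 t0 b3_10 :=
  box_mk (TrL.c (I.pos (nat_lit 0) (nat_lit 0)) (xb (xa T5.l12 T5.l12) (xa T5.l12 T5.l12))
  (TrL.c (I.pos (nat_lit 0) (nat_lit 0)) T0.l8
  (TrL.c (I.pos (nat_lit 0) (nat_lit 124588530)) T5.l9
  (TrL.c (I.pos (nat_lit 0) (nat_lit 96881482)) T0.l9
  (TrL.c (I.pos (nat_lit 0) (nat_lit 0)) (xb (xa T0.l12 T0.l12) T0.l12)
  (TrL.c (I.pos (nat_lit 0) (nat_lit 0)) T5.l10
  (TrL.c (I.mix (nat_lit 17240550) (nat_lit 96881482)) (xR T0.l11 T0.l11)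
  (TrL.c (I.mix (nat_lit 17240550) (nat_lit 71940500)) T5.l2
  TrL.n)))))))) (by decide +kernel)
theorem bx3_11 : BoxOK sI cl9 cl13 cl4 t5 t0 b3_11 :=
  box_mk (TrL.c (I.pos (nat_lit 0) (nat_lit 0)) (xa T5.l12 T5.l12)
  (TrL.c (I.pos (nat_lit 0) (nat_lit 0)) T0.l8
  (TrL.c (I.pos (nat_lit 0) (nat_lit 124588530)) T5.l9
  (TrL.c (I.pos (nat_lit 0) (nat_lit 96881482)) T0.l9
  (TrL.c (I.pos (nat_lit 0) (nat_lit 0)) T0.l12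
  (TrL.c (I.pos (nat_lit 0) (nat_lit 0)) T5.l10
  (TrL.c (I.mix (nat_lit 17240550) (nat_lit 96881482)) T0.l11
  (TrL.c (I.mix (nat_lit 17240550) (nat_lit 71940500)) T5.l2
  TrL.n)))))))) (by decide +kernel)
theorem bx3_12 : BoxOK sI cl9 cl13 cl4 t5 t0 b3_12 :=
  box_mk (TrL.c (I.pos (nat_lit 0) (nat_lit 0)) (xa (xa T5.l0 T5.l0) (xa T5.l0 T5.l0))
  (TrL.c (I.pos (nat_lit 0) (nat_lit 0)) T0.l8
  (TrL.c (I.pos (nat_lit 0) (nat_lit 124588530)) (xR T5.l9 T5.l4)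
  (TrL.c (I.pos (nat_lit 0) (nat_lit 96881482)) (xR T0.l9 T0.l9)
  (TrL.c (I.pos (nat_lit 0) (nat_lit 0)) (xa (xk (xb T0.l10 T0.l10) (xb T0.l10 T0.l10)) (xk (xb (xa T0.l10 T0.l10) (xa T0.l10 T0.l10)) (xb (xa T0.l10 T0.l10) (xa T0.l10 T0.l10))))
  (TrL.c (I.pos (nat_lit 0) (nat_lit 0)) T5.l10
  (TrL.c (I.mix (nat_lit 17240550) (nat_lit 96881482)) (xR T0.l11 T0.l11)
  (TrL.c (I.mix (nat_lit 17240550) (nat_lit 71940500)) (xR T5.l11 T5.l11)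
  TrL.n)))))))) (by decide +kernel)
theorem bx3_13 : BoxOK sI cl9 cl13 cl4 t5 t0 b3_13 :=
  box_mk (TrL.c (I.pos (nat_lit 0) (nat_lit 0)) (xa (xb T5.l0 T5.l0) (xb T5.l0 T5.l0))
  (TrL.c (I.pos (nat_lit 0) (nat_lit 0)) T0.l8
  (TrL.c (I.pos (nat_lit 0) (nat_lit 124588530)) (xR T5.l9 T5.l9)
  (TrL.c (I.pos (nat_lit 0) (nat_lit 96881482)) (xR T0.l9 T0.l9)
  (TrL.c (I.pos (nat_lit 0) (nat_lit 0)) (xa T0.l10 (xk T0.l10 T0.l10))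
  (TrL.c (I.pos (nat_lit 0) (nat_lit 0)) T5.l10
  (TrL.c (I.mix (nat_lit 17240550) (nat_lit 96881482)) (xR T0.l11 T0.l11)
  (TrL.c (I.mix (nat_lit 17240550) (nat_lit 71940500)) (xR T5.l11 T5.l2)
  TrL.n)))))))) (by decide +kernel)
theorem sv3 : StarV sI cl9 cl13 cl4 t5 t0 t3 :=
  (bt_n (bt_n (bt_n (bt_b bx3_0) (bt_n (bt_b bx3_1) (bt_b bx3_2))) (bt_n (bt_n (bt_b bx3_3) (bt_b bx3_4)) (bt_n (bt_b bx3_5) (bt_b bx3_6)))) (bt_n (bt_n (bt_b bx3_7) (bt_n (bt_b bx3_8) (bt_b bx3_9))) (bt_n (bt_n (bt_b bx3_10) (bt_b bx3_11)) (bt_n (bt_b bx3_12) (bt_b bx3_13)))))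
def S3 : StarD := StarD.mk cl9 cl13 cl4 5 0 t3
theorem bx4_0 : BoxOK sI cl13 cl4 cl9 t1 t3 b4_0 :=
  box_mk (TrL.c (I.pos (nat_lit 0) (nat_lit 0)) (xa (xb T1.l0 T1.l4) (xb T1.l0 T1.l0))
  (TrL.c (I.pos (nat_lit 0) (nat_lit 0)) T3.l1
  (TrL.c (I.pos (nat_lit 0) (nat_lit 134217730)) (xR T1.l1 T1.l1)
  (TrL.c (I.pos (nat_lit 0) (nat_lit 110514882)) (xR T3.l2 T3.l2)
  (TrL.c (I.pos (nat_lit 0) (nat_lit 0)) (xb (xa T3.l3 (xk T3.l3 T3.l3)) (xa T3.l3 (xk T3.l3 T3.l3)))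
  (TrL.c (I.pos (nat_lit 0) (nat_lit 0)) T1.l2
  (TrL.c (I.mix (nat_lit 8088324) (nat_lit 110514882)) T3.l4
  (TrL.c (I.mix (nat_lit 8088324) (nat_lit 89478486)) T1.l9
  TrL.n)))))))) (by decide +kernel)
theorem bx4_1 : BoxOK sI cl13 cl4 cl9 t1 t3 b4_1 :=
  box_mk (TrL.c (I.pos (nat_lit 0) (nat_lit 0)) (xa (xb (xa T1.l4 T1.l4) T1.l4) T1.l4)
  (TrL.c (I.pos (nat_lit 0) (nat_lit 0)) T3.l1
  (TrL.c (I.pos (nat_lit 0) (nat_lit 134217730)) T1.l11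
  (TrL.c (I.pos (nat_lit 0) (nat_lit 110514882)) (xR T3.l2 T3.l2)
  (TrL.c (I.pos (nat_lit 0) (nat_lit 0)) (xa T3.l5 T3.l5)
  (TrL.c (I.pos (nat_lit 0) (nat_lit 0)) T1.l2
  (TrL.c (I.mix (nat_lit 8088324) (nat_lit 110514882)) T3.l4
  (TrL.c (I.mix (nat_lit 8088324) (nat_lit 89478486)) T1.l9
  TrL.n)))))))) (by decide +kernel)
theorem bx4_2 : BoxOK sI cl13 cl4 cl9 t1 t3 b4_2 :=
  box_mk (TrL.c (I.pos (nat_lit 0) (nat_lit 0)) (xb (xa T1.l4 T1.l4) (xa (xb T1.l4 T1.l4) (xb T1.l4 T1.l4)))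
  (TrL.c (I.pos (nat_lit 0) (nat_lit 0)) T3.l1
  (TrL.c (I.pos (nat_lit 0) (nat_lit 134217730)) (xR T1.l1 T1.l1)
  (TrL.c (I.pos (nat_lit 0) (nat_lit 110514882)) (xR T3.l2 T3.l2)
  (TrL.c (I.pos (nat_lit 0) (nat_lit 0)) (xb (xa T3.l5 (xk T3.l5 T3.l5)) (xa (xb T3.l5 T3.l3) (xk (xb T3.l3 (xs T3.l3 (xb T3.l3 (xa T3.l3 T3.l3)))) (xb T3.l3 (xs T3.l3 (xb T3.l3 (xa T3.l3 (xs T3.l3 T3.l3))))))))
  (TrL.c (I.pos (nat_lit 0) (nat_lit 0)) T1.l2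
  (TrL.c (I.mix (nat_lit 8088324) (nat_lit 110514882)) (xR T3.l4 T3.l4)
  (TrL.c (I.mix (nat_lit 8088324) (nat_lit 89478486)) T1.l9
  TrL.n)))))))) (by decide +kernel)
theorem bx4_3 : BoxOK sI cl13 cl4 cl9 t1 t3 b4_3 :=
  box_mk (TrL.c (I.pos (nat_lit 0) (nat_lit 0)) T3.l1
  (TrL.c (I.pos (nat_lit 0) (nat_lit 0)) T1.l11
  (TrL.c (I.mix (nat_lit 8088324) (nat_lit 110514882)) (xR T3.l6 T3.l6)
  (TrL.c (I.mix (nat_lit 8088324) (nat_lit 89478486)) T1.l1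
  TrL.n)))) (by decide +kernel)
theorem bx4_4 : BoxOK sI cl13 cl4 cl9 t1 t3 b4_4 :=
  box_mk (TrL.c (I.pos (nat_lit 0) (nat_lit 0)) T3.l7
  (TrL.c (I.pos (nat_lit 0) (nat_lit 0)) T1.l11
  (TrL.c (I.mix (nat_lit 8088324) (nat_lit 110514882)) T3.l4
  (TrL.c (I.mix (nat_lit 8088324) (nat_lit 89478486)) T1.l1
  TrL.n)))) (by decide +kernel)
theorem bx4_5 : BoxOK sI cl13 cl4 cl9 t1 t3 b4_5 :=
  box_mk (TrL.c (I.pos (nat_lit 0) (nat_lit 0)) T1.l4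
  (TrL.c (I.pos (nat_lit 0) (nat_lit 0)) T3.l1
  (TrL.c (I.pos (nat_lit 0) (nat_lit 134217730)) T1.l1
  (TrL.c (I.pos (nat_lit 0) (nat_lit 110514882)) T3.l2
  (TrL.c (I.pos (nat_lit 0) (nat_lit 0)) T3.l5
  (TrL.c (I.pos (nat_lit 0) (nat_lit 0)) T1.l2
  (TrL.c (I.mix (nat_lit 8088324) (nat_lit 110514882)) T3.l4
  (TrL.c (I.mix (nat_lit 8088324) (nat_lit 89478486)) T1.l3
  TrL.n)))))))) (by decide +kernel)
theorem bx4_6 : BoxOK sI cl13 cl4 cl9 t1 t3 b4_6 :=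
  box_mk (TrL.c (I.pos (nat_lit 0) (nat_lit 0)) (xa (xb T1.l0 T1.l0) (xb T1.l0 T1.l0))
  (TrL.c (I.pos (nat_lit 0) (nat_lit 0)) T3.l1
  (TrL.c (I.pos (nat_lit 0) (nat_lit 134217730)) (xR T1.l1 T1.l1)
  (TrL.c (I.pos (nat_lit 0) (nat_lit 110514882)) (xR T3.l2 T3.l2)
  (TrL.c (I.pos (nat_lit 0) (nat_lit 0)) (xa (xb (xk (xa T3.l3 T3.l3) (xa T3.l3 T3.l3)) T3.l3) (xb (xk (xa T3.l3 T3.l3) (xa T3.l3 T3.l3)) (xk (xa T3.l3 T3.l3) (xa T3.l3 (xb T3.l3 T3.l3)))))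
  (TrL.c (I.pos (nat_lit 0) (nat_lit 0)) T1.l2
  (TrL.c (I.mix (nat_lit 8088324) (nat_lit 110514882)) (xR T3.l4 T3.l4)
  (TrL.c (I.mix (nat_lit 8088324) (nat_lit 89478486)) T1.l9
  TrL.n)))))))) (by decide +kernel)
theorem bx4_7 : BoxOK sI cl13 cl4 cl9 t1 t3 b4_7 :=
  box_mk (TrL.c (I.pos (nat_lit 0) (nat_lit 0)) (xb (xa T1.l7 T1.l7) (xa T1.l7 T1.l7))
  (TrL.c (I.pos (nat_lit 0) (nat_lit 0)) T3.l7
  (TrL.c (I.pos (nat_lit 0) (nat_lit 134217730)) T1.l1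
  (TrL.c (I.pos (nat_lit 0) (nat_lit 110514882)) T3.l2
  (TrL.c (I.pos (nat_lit 0) (nat_lit 0)) T3.l8
  (TrL.c (I.pos (nat_lit 0) (nat_lit 0)) T1.l2
  (TrL.c (I.mix (nat_lit 8088324) (nat_lit 110514882)) T3.l4
  (TrL.c (I.mix (nat_lit 8088324) (nat_lit 89478486)) T1.l3
  TrL.n)))))))) (by decide +kernel)
theorem bx4_8 : BoxOK sI cl13 cl4 cl9 t1 t3 b4_8 :=
  box_mk (TrL.c (I.pos (nat_lit 0) (nat_lit 0)) (xa T1.l0 T1.l0)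
  (TrL.c (I.pos (nat_lit 0) (nat_lit 0)) T3.l1
  (TrL.c (I.pos (nat_lit 0) (nat_lit 134217730)) (xR T1.l1 T1.l1)
  (TrL.c (I.pos (nat_lit 0) (nat_lit 110514882)) (xR T3.l2 T3.l2)
  (TrL.c (I.pos (nat_lit 0) (nat_lit 0)) (xk T3.l3 (xb T3.l3 T3.l3))
  (TrL.c (I.pos (nat_lit 0) (nat_lit 0)) T1.l2
  (TrL.c (I.mix (nat_lit 8088324) (nat_lit 110514882)) T3.l4
  (TrL.c (I.mix (nat_lit 8088324) (nat_lit 89478486)) T1.l9
  TrL.n)))))))) (by decide +kernel)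
theorem bx4_9 : BoxOK sI cl13 cl4 cl9 t1 t3 b4_9 :=
  box_mk (TrL.c (I.pos (nat_lit 0) (nat_lit 0)) T1.l4
  (TrL.c (I.pos (nat_lit 0) (nat_lit 0)) T3.l1
  (TrL.c (I.pos (nat_lit 0) (nat_lit 134217730)) T1.l1
  (TrL.c (I.pos (nat_lit 0) (nat_lit 110514882)) T3.l2
  (TrL.c (I.pos (nat_lit 0) (nat_lit 0)) T3.l5
  (TrL.c (I.pos (nat_lit 0) (nat_lit 0)) T1.l2
  (TrL.c (I.mix (nat_lit 8088324) (nat_lit 110514882)) T3.l4
  (TrL.c (I.mix (nat_lit 8088324) (nat_lit 89478486)) T1.l3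
  TrL.n)))))))) (by decide +kernel)
theorem sv4 : StarV sI cl13 cl4 cl9 t1 t3 t4 :=
  (bt_n (bt_n (bt_n (bt_b bx4_0) (bt_b bx4_1)) (bt_n (bt_b bx4_2) (bt_n (bt_b bx4_3) (bt_b bx4_4)))) (bt_n (bt_n (bt_b bx4_5) (bt_b bx4_6)) (bt_n (bt_b bx4_7) (bt_n (bt_b bx4_8) (bt_b bx4_9)))))
def S4 : StarD := StarD.mk cl13 cl4 cl9 1 3 t4
theorem bx5_0 : BoxOK sI cl13 cl9 cl4 t3 t1 b5_0 :=
  box_mk (TrL.c (I.pos (nat_lit 0) (nat_lit 0)) (xa (xa (xb T3.l0 (xs T3.l0 T3.l0)) (xb T3.l0 T3.l0)) (xa (xb T3.l0 (xs T3.l0 T3.l0)) (xb (xb T3.l0 T3.l0) (xs T3.l0 T3.l0))))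
  (TrL.c (I.pos (nat_lit 0) (nat_lit 0)) T1.l8
  (TrL.c (I.pos (nat_lit 0) (nat_lit 134217730)) (xR T3.l9 (xR T3.l9 T3.l9))
  (TrL.c (I.pos (nat_lit 0) (nat_lit 110514882)) (xR T1.l9 T1.l9)
  (TrL.c (I.pos (nat_lit 0) (nat_lit 0)) (xa (xk T1.l10 T1.l10) (xk (xb T1.l10 (xa T1.l13 (xb T1.l10 T1.l10))) (xb T1.l10 (xa T1.l13 (xb T1.l10 (xs T1.l10 (xk T1.l10 T1.l10)))))))
  (TrL.c (I.pos (nat_lit 0) (nat_lit 0)) T3.l10
  (TrL.c (I.mix (nat_lit 8088324) (nat_lit 110514882)) (xR T1.l11 T1.l11)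
  (TrL.c (I.mix (nat_lit 8088324) (nat_lit 89478486)) (xR T3.l2 T3.l11)
  TrL.n)))))))) (by decide +kernel)
theorem bx5_1 : BoxOK sI cl13 cl9 cl4 t3 t1 b5_1 :=
  box_mk (TrL.c (I.pos (nat_lit 0) (nat_lit 0)) (xa (xb T3.l12 T3.l12) T3.l0)
  (TrL.c (I.pos (nat_lit 0) (nat_lit 0)) T1.l8
  (TrL.c (I.pos (nat_lit 0) (nat_lit 134217730)) (xR T3.l9 T3.l9)
  (TrL.c (I.pos (nat_lit 0) (nat_lit 110514882)) (xR T1.l9 T1.l9)
  (TrL.c (I.pos (nat_lit 0) (nat_lit 0)) (xa T1.l12 (xb T1.l12 T1.l12))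
  (TrL.c (I.pos (nat_lit 0) (nat_lit 0)) T3.l10
  (TrL.c (I.mix (nat_lit 8088324) (nat_lit 110514882)) T1.l11
  (TrL.c (I.mix (nat_lit 8088324) (nat_lit 89478486)) T3.l2
  TrL.n)))))))) (by decide +kernel)
theorem bx5_2 : BoxOK sI cl13 cl9 cl4 t3 t1 b5_2 :=
  box_mk (TrL.c (I.pos (nat_lit 0) (nat_lit 0)) (xa (xa (xb T3.l12 T3.l12) T3.l12) T3.l12)
  (TrL.c (I.pos (nat_lit 0) (nat_lit 0)) T1.l8
  (TrL.c (I.pos (nat_lit 0) (nat_lit 134217730)) T3.l9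
  (TrL.c (I.pos (nat_lit 0) (nat_lit 110514882)) T1.l9
  (TrL.c (I.pos (nat_lit 0) (nat_lit 0)) (xa T1.l12 T1.l12)
  (TrL.c (I.pos (nat_lit 0) (nat_lit 0)) T3.l10
  (TrL.c (I.mix (nat_lit 8088324) (nat_lit 110514882)) T1.l11
  (TrL.c (I.mix (nat_lit 8088324) (nat_lit 89478486)) T3.l2
  TrL.n)))))))) (by decide +kernel)
theorem bx5_3 : BoxOK sI cl13 cl9 cl4 t3 t1 b5_3 :=
  box_mk (TrL.c (I.pos (nat_lit 0) (nat_lit 0)) (xb (xa T3.l13 T3.l13) (xa (xs T3.l13 (xb T3.l13 T3.l13)) (xs T3.l13 T3.l13)))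
  (TrL.c (I.pos (nat_lit 0) (nat_lit 0)) T1.l8
  (TrL.c (I.pos (nat_lit 0) (nat_lit 134217730)) (xR T3.l9 T3.l9)
  (TrL.c (I.pos (nat_lit 0) (nat_lit 110514882)) (xR T1.l9 T1.l9)
  (TrL.c (I.pos (nat_lit 0) (nat_lit 0)) (xk (xb T1.l13 T1.l13) (xb T1.l13 (xa T1.l13 T1.l13)))
  (TrL.c (I.pos (nat_lit 0) (nat_lit 0)) T3.l10
  (TrL.c (I.mix (nat_lit 8088324) (nat_lit 110514882)) (xR T1.l11 T1.l11)
  (TrL.c (I.mix (nat_lit 8088324) (nat_lit 89478486)) (xR T3.l2 T3.l11)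
  TrL.n)))))))) (by decide +kernel)
theorem bx5_4 : BoxOK sI cl13 cl9 cl4 t3 t1 b5_4 :=
  box_mk (TrL.c (I.pos (nat_lit 0) (nat_lit 0)) (xa (xa (xb (xa T3.l12 T3.l12) (xa T3.l12 T3.l12)) (xb T3.l12 (xa T3.l12 T3.l12))) (xa (xb T3.l12 (xa T3.l12 T3.l12)) (xb T3.l12 (xa T3.l12 T3.l12))))
  (TrL.c (I.pos (nat_lit 0) (nat_lit 0)) (xa T1.l8 T1.l8)
  (TrL.c (I.pos (nat_lit 0) (nat_lit 134217730)) T3.l9
  (TrL.c (I.pos (nat_lit 0) (nat_lit 110514882)) T1.l9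
  (TrL.c (I.pos (nat_lit 0) (nat_lit 0)) (xa T1.l12 T1.l12)
  (TrL.c (I.pos (nat_lit 0) (nat_lit 0)) T3.l10
  (TrL.c (I.mix (nat_lit 8088324) (nat_lit 110514882)) T1.l11
  (TrL.c (I.mix (nat_lit 8088324) (nat_lit 89478486)) T3.l2
  TrL.n)))))))) (by decide +kernel)
theorem bx5_5 : BoxOK sI cl13 cl9 cl4 t3 t1 b5_5 :=
  box_mk (TrL.c (I.pos (nat_lit 0) (nat_lit 0)) T3.l12
  (TrL.c (I.pos (nat_lit 0) (nat_lit 0)) T1.l8
  (TrL.c (I.pos (nat_lit 0) (nat_lit 134217730)) (xR T3.l9 T3.l9)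
  (TrL.c (I.pos (nat_lit 0) (nat_lit 110514882)) (xR T1.l9 T1.l9)
  (TrL.c (I.pos (nat_lit 0) (nat_lit 0)) T1.l12
  (TrL.c (I.pos (nat_lit 0) (nat_lit 0)) T3.l10
  (TrL.c (I.mix (nat_lit 8088324) (nat_lit 110514882)) T1.l11
  (TrL.c (I.mix (nat_lit 8088324) (nat_lit 89478486)) T3.l2
  TrL.n)))))))) (by decide +kernel)
theorem bx5_6 : BoxOK sI cl13 cl9 cl4 t3 t1 b5_6 :=
  box_mk (TrL.c (I.pos (nat_lit 0) (nat_lit 0)) (xa (xa T3.l12 T3.l12) T3.l12)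
  (TrL.c (I.pos (nat_lit 0) (nat_lit 0)) T1.l8
  (TrL.c (I.pos (nat_lit 0) (nat_lit 134217730)) T3.l9
  (TrL.c (I.pos (nat_lit 0) (nat_lit 110514882)) T1.l9
  (TrL.c (I.pos (nat_lit 0) (nat_lit 0)) (xa T1.l12 T1.l12)
  (TrL.c (I.pos (nat_lit 0) (nat_lit 0)) T3.l10
  (TrL.c (I.mix (nat_lit 8088324) (nat_lit 110514882)) T1.l11
  (TrL.c (I.mix (nat_lit 8088324) (nat_lit 89478486)) T3.l2
  TrL.n)))))))) (by decide +kernel)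
theorem bx5_7 : BoxOK sI cl13 cl9 cl4 t3 t1 b5_7 :=
  box_mk (TrL.c (I.pos (nat_lit 0) (nat_lit 0)) T3.l13
  (TrL.c (I.pos (nat_lit 0) (nat_lit 0)) T1.l8
  (TrL.c (I.pos (nat_lit 0) (nat_lit 134217730)) (xR T3.l9 T3.l9)
  (TrL.c (I.pos (nat_lit 0) (nat_lit 110514882)) (xR T1.l9 T1.l9)
  (TrL.c (I.pos (nat_lit 0) (nat_lit 0)) T1.l13
  (TrL.c (I.pos (nat_lit 0) (nat_lit 0)) T3.l10
  (TrL.c (I.mix (nat_lit 8088324) (nat_lit 110514882)) T1.l11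
  (TrL.c (I.mix (nat_lit 8088324) (nat_lit 89478486)) T3.l2
  TrL.n)))))))) (by decide +kernel)
theorem bx5_8 : BoxOK sI cl13 cl9 cl4 t3 t1 b5_8 :=
  box_mk (TrL.c (I.pos (nat_lit 0) (nat_lit 0)) (xb (xa T3.l13 (xb T3.l0 T3.l0)) (xa T3.l13 T3.l13))
  (TrL.c (I.pos (nat_lit 0) (nat_lit 0)) T1.l8
  (TrL.c (I.pos (nat_lit 0) (nat_lit 134217730)) (xR T3.l9 T3.l4)
  (TrL.c (I.pos (nat_lit 0) (nat_lit 110514882)) (xR T1.l9 T1.l9)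
  (TrL.c (I.pos (nat_lit 0) (nat_lit 0)) (xk (xb T1.l13 T1.l13) (xb T1.l13 T1.l13))
  (TrL.c (I.pos (nat_lit 0) (nat_lit 0)) T3.l10
  (TrL.c (I.mix (nat_lit 8088324) (nat_lit 110514882)) (xR T1.l11 T1.l11)
  (TrL.c (I.mix (nat_lit 8088324) (nat_lit 89478486)) (xR T3.l2 T3.l2)
  TrL.n)))))))) (by decide +kernel)
theorem bx5_9 : BoxOK sI cl13 cl9 cl4 t3 t1 b5_9 :=
  box_mk (TrL.c (I.pos (nat_lit 0) (nat_lit 0)) (xa (xa (xa (xb T3.l12 T3.l12) T3.l12) T3.l12) (xa (xa T3.l12 T3.l12) (xa T3.l12 T3.l12)))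
  (TrL.c (I.pos (nat_lit 0) (nat_lit 0)) (xa T1.l8 T1.l8)
  (TrL.c (I.pos (nat_lit 0) (nat_lit 134217730)) T3.l9
  (TrL.c (I.pos (nat_lit 0) (nat_lit 110514882)) T1.l9
  (TrL.c (I.pos (nat_lit 0) (nat_lit 0)) (xa T1.l12 T1.l12)
  (TrL.c (I.pos (nat_lit 0) (nat_lit 0)) T3.l10
  (TrL.c (I.mix (nat_lit 8088324) (nat_lit 110514882)) T1.l11
  (TrL.c (I.mix (nat_lit 8088324) (nat_lit 89478486)) T3.l2
  TrL.n)))))))) (by decide +kernel)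
theorem bx5_10 : BoxOK sI cl13 cl9 cl4 t3 t1 b5_10 :=
  box_mk (TrL.c (I.pos (nat_lit 0) (nat_lit 0)) (xb (xa T3.l12 T3.l12) (xa T3.l12 T3.l12))
  (TrL.c (I.pos (nat_lit 0) (nat_lit 0)) T1.l8
  (TrL.c (I.pos (nat_lit 0) (nat_lit 134217730)) (xR T3.l9 T3.l9)
  (TrL.c (I.pos (nat_lit 0) (nat_lit 110514882)) (xR T1.l9 T1.l9)
  (TrL.c (I.pos (nat_lit 0) (nat_lit 0)) (xb (xa T1.l12 T1.l12) T1.l12)
  (TrL.c (I.pos (nat_lit 0) (nat_lit 0)) T3.l10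
  (TrL.c (I.mix (nat_lit 8088324) (nat_lit 110514882)) T1.l11
  (TrL.c (I.mix (nat_lit 8088324) (nat_lit 89478486)) T3.l2
  TrL.n)))))))) (by decide +kernel)
theorem bx5_11 : BoxOK sI cl13 cl9 cl4 t3 t1 b5_11 :=
  box_mk (TrL.c (I.pos (nat_lit 0) (nat_lit 0)) (xa (xa T3.l12 T3.l12) T3.l12)
  (TrL.c (I.pos (nat_lit 0) (nat_lit 0)) T1.l8
  (TrL.c (I.pos (nat_lit 0) (nat_lit 134217730)) T3.l9
  (TrL.c (I.pos (nat_lit 0) (nat_lit 110514882)) T1.l9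
  (TrL.c (I.pos (nat_lit 0) (nat_lit 0)) (xa T1.l12 T1.l12)
  (TrL.c (I.pos (nat_lit 0) (nat_lit 0)) T3.l10
  (TrL.c (I.mix (nat_lit 8088324) (nat_lit 110514882)) T1.l11
  (TrL.c (I.mix (nat_lit 8088324) (nat_lit 89478486)) T3.l2
  TrL.n)))))))) (by decide +kernel)
theorem bx5_12 : BoxOK sI cl13 cl9 cl4 t3 t1 b5_12 :=
  box_mk (TrL.c (I.pos (nat_lit 0) (nat_lit 0)) (xa (xa T3.l0 T3.l0) (xa T3.l0 T3.l0))
  (TrL.c (I.pos (nat_lit 0) (nat_lit 0)) T1.l8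
  (TrL.c (I.pos (nat_lit 0) (nat_lit 134217730)) (xR T3.l9 T3.l4)
  (TrL.c (I.pos (nat_lit 0) (nat_lit 110514882)) (xR T1.l9 T1.l9)
  (TrL.c (I.pos (nat_lit 0) (nat_lit 0)) (xa (xk (xb T1.l10 T1.l10) (xb T1.l10 T1.l10)) (xk (xb (xa T1.l10 T1.l10) (xa T1.l10 T1.l10)) (xb (xa T1.l10 T1.l10) (xa T1.l10 T1.l10))))
  (TrL.c (I.pos (nat_lit 0) (nat_lit 0)) T3.l10
  (TrL.c (I.mix (nat_lit 8088324) (nat_lit 110514882)) (xR T1.l11 T1.l11)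
  (TrL.c (I.mix (nat_lit 8088324) (nat_lit 89478486)) (xR T3.l2 T3.l11)
  TrL.n)))))))) (by decide +kernel)
theorem bx5_13 : BoxOK sI cl13 cl9 cl4 t3 t1 b5_13 :=
  box_mk (TrL.c (I.pos (nat_lit 0) (nat_lit 0)) (xa (xb (xs T3.l0 T3.l0) (xs T3.l0 T3.l0)) (xb (xs T3.l0 (xa T3.l0 T3.l0)) (xs T3.l13 (xa T3.l0 T3.l0))))
  (TrL.c (I.pos (nat_lit 0) (nat_lit 0)) T1.l8
  (TrL.c (I.pos (nat_lit 0) (nat_lit 134217730)) (xR T3.l9 (xR T3.l9 T3.l9))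
  (TrL.c (I.pos (nat_lit 0) (nat_lit 110514882)) (xR T1.l9 T1.l9)
  (TrL.c (I.pos (nat_lit 0) (nat_lit 0)) (xa T1.l10 (xk T1.l10 T1.l10))
  (TrL.c (I.pos (nat_lit 0) (nat_lit 0)) T3.l10
  (TrL.c (I.mix (nat_lit 8088324) (nat_lit 110514882)) (xR T1.l11 T1.l11)
  (TrL.c (I.mix (nat_lit 8088324) (nat_lit 89478486)) (xR T3.l2 T3.l11)
  TrL.n)))))))) (by decide +kernel)
theorem sv5 : StarV sI cl13 cl9 cl4 t3 t1 t5 :=
  (bt_n (bt_n (bt_n (bt_b bx5_0) (bt_n (bt_b bx5_1) (bt_b bx5_2))) (bt_n (bt_n (bt_b bx5_3) (bt_b bx5_4)) (bt_n (bt_b bx5_5) (bt_b bx5_6)))) (bt_n (bt_n (bt_b bx5_7) (bt_n (bt_b bx5_8) (bt_b bx5_9))) (bt_n (bt_n (bt_b bx5_10) (bt_b bx5_11)) (bt_n (bt_b bx5_12) (bt_b bx5_13)))))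
def S5 : StarD := StarD.mk cl13 cl9 cl4 3 1 t5
def G : List StarD := [S0, S1, S2, S3, S4, S5]
theorem so0 : StarOK sI G S0 :=
  star_mk (by decide) (by decide) rfl rfl rfl rfl rfl rfl (rfl : _ = t2) (rfl : _ = t4)
  (st_mk (Pth.l (Pth.l (Pth.l Pth.z))) (nat_lit 117990166) (nat_lit 137513829) (by decide +kernel))
  (st_mk (Pth.l (Pth.l (Pth.l Pth.z))) (nat_lit 154973732) (nat_lit 175225087) (by decide +kernel))
  (st_mk (Pth.l (Pth.l (Pth.l Pth.z))) (nat_lit 196528797) (nat_lit 221564218) (by decide +kernel)) sv0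
theorem so1 : StarOK sI G S1 :=
  star_mk (by decide) (by decide) rfl rfl rfl rfl rfl rfl (rfl : _ = t4) (rfl : _ = t2)
  (st_mk (Pth.l (Pth.l (Pth.l Pth.z))) (nat_lit 98007796) (nat_lit 117380978) (by decide +kernel))
  (st_mk (Pth.l (Pth.l (Pth.l Pth.z))) (nat_lit 134828536) (nat_lit 154907488) (by decide +kernel))
  (st_mk (Pth.l (Pth.l (Pth.l Pth.z))) (nat_lit 178129950) (nat_lit 199216892) (by decide +kernel)) sv1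
theorem so2 : StarOK sI G S2 :=
  star_mk (by decide) (by decide) rfl rfl rfl rfl rfl rfl (rfl : _ = t0) (rfl : _ = t5)
  (st_mk (Pth.l (Pth.l (Pth.l Pth.z))) (nat_lit 366785416) (nat_lit 369683533) (by decide +kernel))
  (st_mk (Pth.l (Pth.l (Pth.l Pth.z))) (nat_lit 402082454) (nat_lit 405461549) (by decide +kernel))
  (st_mk (Pth.l (Pth.l (Pth.l Pth.z))) (nat_lit 442319193) (nat_lit 447384878) (by decide +kernel)) sv2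
theorem so3 : StarOK sI G S3 :=
  star_mk (by decide) (by decide) rfl rfl rfl rfl rfl rfl (rfl : _ = t5) (rfl : _ = t0)
  (st_mk (Pth.l (Pth.l (Pth.l Pth.z))) (nat_lit 96111757) (nat_lit 114654705) (by decide +kernel))
  (st_mk (Pth.l (Pth.l (Pth.l Pth.z))) (nat_lit 131248450) (nat_lit 150121838) (by decide +kernel))
  (st_mk (Pth.l (Pth.l (Pth.l Pth.z))) (nat_lit 171883300) (nat_lit 191241092) (by decide +kernel)) sv3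
theorem so4 : StarOK sI G S4 :=
  star_mk (by decide) (by decide) rfl rfl rfl rfl rfl rfl (rfl : _ = t1) (rfl : _ = t3)
  (st_mk (Pth.l (Pth.l (Pth.l Pth.z))) (nat_lit 364798899) (nat_lit 367478945) (by decide +kernel))
  (st_mk (Pth.l (Pth.l (Pth.l Pth.z))) (nat_lit 399695508) (nat_lit 402806226) (by decide +kernel))
  (st_mk (Pth.l (Pth.l (Pth.l Pth.z))) (nat_lit 439960827) (nat_lit 443618293) (by decide +kernel)) sv4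
theorem so5 : StarOK sI G S5 :=
  star_mk (by decide) (by decide) rfl rfl rfl rfl rfl rfl (rfl : _ = t3) (rfl : _ = t1)
  (st_mk (Pth.l (Pth.l (Pth.l Pth.z))) (nat_lit 115089857) (nat_lit 133527252) (by decide +kernel))
  (st_mk (Pth.l (Pth.l (Pth.l Pth.z))) (nat_lit 149986467) (nat_lit 168722274) (by decide +kernel))
  (st_mk (Pth.l (Pth.l (Pth.l Pth.z))) (nat_lit 190251785) (nat_lit 209419769) (by decide +kernel)) sv5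
theorem ok : GroupOK (nat_lit 91226112) (nat_lit 150339584) G := grp_mk (allS_c so0 (allS_c so1 (allS_c so2 (allS_c so3 (allS_c so4 (allS_c so5 allS_n))))))
theorem cov : GCov G cl4 cl9 cl13 := cov_mk
  ⟨0, by decide, rfl, rfl, rfl⟩ ⟨1, by decide, rfl, rfl, rfl⟩ ⟨2, by decide, rfl, rfl, rfl⟩ ⟨3, by decide, rfl, rfl, rfl⟩ ⟨4, by decide, rfl, rfl, rfl⟩ ⟨5, by decide, rfl, rfl, rfl⟩
end Q156_1

namespace Q156_2
def sI : I := I.pos (nat_lit 150274048) (nat_lit 209387520)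
def b0_0 : Bx := Bx.mk (St.mk (I.pos (nat_lit 158318592) (nat_lit 237387776)) (I.mix (nat_lit 1835008) (nat_lit 54558720)) (I.mix (nat_lit 2441216) (nat_lit 58736640)) (I.pos (nat_lit 114475008) (nat_lit 256704512)) (I.mix (nat_lit 82051072) (nat_lit 54132736)) (I.mix (nat_lit 50216960) (nat_lit 47513600)) (I.mix (nat_lit 77938688) (nat_lit 71581696)))
  false (nat_lit 20178311)
def b0_1 : Bx := Bx.mk (St.mk (I.mix (nat_lit 12746752) (nat_lit 128679936)) (I.mix (nat_lit 6045696) (nat_lit 25329664)) (I.mix (nat_lit 24477696) (nat_lit 6553600)) (I.pos (nat_lit 15319040) (nat_lit 96600064)) (I.mix (nat_lit 29392896) (nat_lit 35389440)) (I.mix (nat_lit 28147712) (nat_lit 21168128)) (I.mix (nat_lit 23117824) (nat_lit 18055168)))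
  false (nat_lit 0)
def b0_2 : Bx := Bx.mk (St.mk (I.pos (nat_lit 104710144) (nat_lit 141524992)) (I.mix (nat_lit 42319872) (nat_lit 8257536)) (I.neg (nat_lit 6733824) (nat_lit 59015168)) (I.pos (nat_lit 60211200) (nat_lit 108183552)) (I.mix (nat_lit 81657856) (nat_lit 33308672)) (I.mix (nat_lit 33488896) (nat_lit 74547200)) (I.mix (nat_lit 24051712) (nat_lit 67878912)))
  false (nat_lit 0)
def b0_3 : Bx := Bx.mk (St.mk (I.mix (nat_lit 20611072) (nat_lit 87638016)) (I.mix (nat_lit 24018944) (nat_lit 4210688)) (I.neg (nat_lit 1409024) (nat_lit 25788416)) (I.pos (nat_lit 16400384) (nat_lit 63766528)) (I.mix (nat_lit 36093952) (nat_lit 14942208)) (I.mix (nat_lit 14516224) (nat_lit 29229056)) (I.mix (nat_lit 7110656) (nat_lit 16859136)))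
  false (nat_lit 0)
def b0_4 : Bx := Bx.mk (St.mk (I.pos (nat_lit 97271808) (nat_lit 125599744)) (I.mix (nat_lit 8601600) (nat_lit 11681792)) (I.neg (nat_lit 4030464) (nat_lit 26738688)) (I.pos (nat_lit 56934400) (nat_lit 95404032)) (I.mix (nat_lit 31948800) (nat_lit 21561344)) (I.mix (nat_lit 21626880) (nat_lit 21364736)) (I.mix (nat_lit 16105472) (nat_lit 20529152)))
  false (nat_lit 0)
def b0_5 : Bx := Bx.mk (St.mk (I.mix (nat_lit 25952256) (nat_lit 74448896)) (I.mix (nat_lit 4276224) (nat_lit 4964352)) (I.neg (nat_lit 2260992) (nat_lit 13549568)) (I.pos (nat_lit 16793600) (nat_lit 55803904)) (I.mix (nat_lit 11337728) (nat_lit 7798784)) (I.mix (nat_lit 7356416) (nat_lit 6979584)) (I.mix (nat_lit 2605056) (nat_lit 4374528)))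
  false (nat_lit 0)
def b0_6 : Bx := Bx.mk (St.mk (I.pos (nat_lit 217759744) (nat_lit 259850240)) (I.mix (nat_lit 14712832) (nat_lit 17678336)) (I.neg (nat_lit 19038208) (nat_lit 84705280)) (I.pos (nat_lit 214532096) (nat_lit 297533440)) (I.mix (nat_lit 87752704) (nat_lit 32030720)) (I.mix (nat_lit 48873472) (nat_lit 52641792)) (I.mix (nat_lit 71876608) (nat_lit 104824832)))
  false (nat_lit 0)
def b0_7 : Bx := Bx.mk (St.mk (I.pos (nat_lit 198377472) (nat_lit 252461056)) (I.mix (nat_lit 13729792) (nat_lit 54493184)) (I.mix (nat_lit 76906496) (nat_lit 55574528)) (I.pos (nat_lit 195788800) (nat_lit 278298624)) (I.mix (nat_lit 95961088) (nat_lit 78774272)) (I.mix (nat_lit 78479360) (nat_lit 67158016)) (I.mix (nat_lit 129417216) (nat_lit 116736000)))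
  false (nat_lit 24672808)
def b0_8 : Bx := Bx.mk (St.mk (I.pos (nat_lit 112001024) (nat_lit 176291840)) (I.neg (nat_lit 3588096) (nat_lit 42860544)) (I.neg (nat_lit 16809984) (nat_lit 59080704)) (I.pos (nat_lit 71598080) (nat_lit 152813568)) (I.mix (nat_lit 66273280) (nat_lit 36192256)) (I.mix (nat_lit 30294016) (nat_lit 54345728)) (I.mix (nat_lit 24412160) (nat_lit 56901632)))
  false (nat_lit 0)
def b0_9 : Bx := Bx.mk (St.mk (I.mix (nat_lit 17940480) (nat_lit 102088704)) (I.mix (nat_lit 23805952) (nat_lit 3588096)) (I.neg (nat_lit 1409024) (nat_lit 24952832)) (I.pos (nat_lit 15777792) (nat_lit 74121216)) (I.mix (nat_lit 36077568) (nat_lit 24084480)) (I.mix (nat_lit 16105472) (nat_lit 31047680)) (I.mix (nat_lit 8339456) (nat_lit 19955712)))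
  false (nat_lit 0)
def b0_10 : Bx := Bx.mk (St.mk (I.pos (nat_lit 174194688) (nat_lit 220332032)) (I.mix (nat_lit 12058624) (nat_lit 50839552)) (I.mix (nat_lit 23691264) (nat_lit 56180736)) (I.pos (nat_lit 143867904) (nat_lit 224215040)) (I.mix (nat_lit 107266048) (nat_lit 43745280)) (I.mix (nat_lit 99336192) (nat_lit 58933248)) (I.mix (nat_lit 106283008) (nat_lit 64258048)))
  false (nat_lit 14336926)
def b0_11 : Bx := Bx.mk (St.mk (I.mix (nat_lit 23003136) (nat_lit 127451136)) (I.mix (nat_lit 11780096) (nat_lit 27738112)) (I.mix (nat_lit 20283392) (nat_lit 8667136)) (I.pos (nat_lit 15073280) (nat_lit 94535680)) (I.mix (nat_lit 38518784) (nat_lit 34881536)) (I.mix (nat_lit 42205184) (nat_lit 25657344)) (I.mix (nat_lit 24444928) (nat_lit 14909440)))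
  false (nat_lit 0)
def b0_12 : Bx := Bx.mk (St.mk (I.pos (nat_lit 149340160) (nat_lit 213352448)) (I.mix (nat_lit 35880960) (nat_lit 14745600)) (I.mix (nat_lit 60276736) (nat_lit 3063808)) (I.pos (nat_lit 106446848) (nat_lit 204423168)) (I.mix (nat_lit 62062592) (nat_lit 58392576)) (I.mix (nat_lit 59834368) (nat_lit 57524224)) (I.mix (nat_lit 64192512) (nat_lit 59637760)))
  false (nat_lit 9216904)
def b0_13 : Bx := Bx.mk (St.mk (I.pos (nat_lit 174030848) (nat_lit 214941696)) (I.mix (nat_lit 17448960) (nat_lit 29425664)) (I.mix (nat_lit 33931264) (nat_lit 25903104)) (I.pos (nat_lit 146128896) (nat_lit 208486400)) (I.mix (nat_lit 98287616) (nat_lit 77479936)) (I.mix (nat_lit 111230976) (nat_lit 75923456)) (I.mix (nat_lit 122880000) (nat_lit 76644352)))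
  false (nat_lit 2400116)
def t0 : BTr := (BTr.n (BTr.n (BTr.n (BTr.b b0_0) (BTr.n (BTr.b b0_1) (BTr.b b0_2))) (BTr.n (BTr.n (BTr.b b0_3) (BTr.b b0_4)) (BTr.n (BTr.b b0_5) (BTr.b b0_6)))) (BTr.n (BTr.n (BTr.b b0_7) (BTr.n (BTr.b b0_8) (BTr.b b0_9))) (BTr.n (BTr.n (BTr.b b0_10) (BTr.b b0_11)) (BTr.n (BTr.b b0_12) (BTr.b b0_13)))))
namespace T0
def l0 : Tr := Tr.L (Pth.l (Pth.l (Pth.l Pth.z)))
def l1 : Tr := Tr.L (Pth.l (Pth.l (Pth.r (Pth.l Pth.z))))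
def l2 : Tr := Tr.L (Pth.l (Pth.l (Pth.r (Pth.r Pth.z))))
def l3 : Tr := Tr.L (Pth.l (Pth.r (Pth.l (Pth.l Pth.z))))
def l4 : Tr := Tr.L (Pth.l (Pth.r (Pth.l (Pth.r Pth.z))))
def l5 : Tr := Tr.L (Pth.l (Pth.r (Pth.r (Pth.l Pth.z))))
def l6 : Tr := Tr.L (Pth.l (Pth.r (Pth.r (Pth.r Pth.z))))
def l7 : Tr := Tr.L (Pth.r (Pth.l (Pth.l Pth.z)))
def l8 : Tr := Tr.L (Pth.r (Pth.l (Pth.r (Pth.l Pth.z))))
def l9 : Tr := Tr.L (Pth.r (Pth.l (Pth.r (Pth.r Pth.z))))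
def l10 : Tr := Tr.L (Pth.r (Pth.r (Pth.l (Pth.l Pth.z))))
def l11 : Tr := Tr.L (Pth.r (Pth.r (Pth.l (Pth.r Pth.z))))
def l12 : Tr := Tr.L (Pth.r (Pth.r (Pth.r (Pth.l Pth.z))))
def l13 : Tr := Tr.L (Pth.r (Pth.r (Pth.r (Pth.r Pth.z))))
end T0
def b1_0 : Bx := Bx.mk (St.mk (I.pos (nat_lit 158302208) (nat_lit 236994560)) (I.mix (nat_lit 1703936) (nat_lit 49496064)) (I.mix (nat_lit 1982464) (nat_lit 61358080)) (I.pos (nat_lit 94404608) (nat_lit 235175936)) (I.mix (nat_lit 79839232) (nat_lit 43433984)) (I.mix (nat_lit 49512448) (nat_lit 45907968)) (I.mix (nat_lit 73859072) (nat_lit 63963136)))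
  false (nat_lit 0)
def b1_1 : Bx := Bx.mk (St.mk (I.mix (nat_lit 7733248) (nat_lit 138166272)) (I.mix (nat_lit 5472256) (nat_lit 21790720)) (I.mix (nat_lit 19464192) (nat_lit 9404416)) (I.mix (nat_lit 3063808) (nat_lit 86376448)) (I.mix (nat_lit 27492352) (nat_lit 31817728)) (I.mix (nat_lit 25821184) (nat_lit 20103168)) (I.mix (nat_lit 23085056) (nat_lit 17104896)))
  false (nat_lit 0)
def b1_2 : Bx := Bx.mk (St.mk (I.pos (nat_lit 114458624) (nat_lit 150667264)) (I.mix (nat_lit 38731776) (nat_lit 7946240)) (I.neg (nat_lit 3407872) (nat_lit 53608448)) (I.pos (nat_lit 50872320) (nat_lit 98992128)) (I.mix (nat_lit 80183296) (nat_lit 32555008)) (I.mix (nat_lit 32997376) (nat_lit 71237632)) (I.mix (nat_lit 26411008) (nat_lit 68648960)))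
  false (nat_lit 0)
def b1_3 : Bx := Bx.mk (St.mk (I.mix (nat_lit 11894784) (nat_lit 103415808)) (I.mix (nat_lit 21217280) (nat_lit 1785856)) (I.mix (nat_lit 23511040) (nat_lit 1245184)) (I.mix (nat_lit 2162688) (nat_lit 55279616)) (I.mix (nat_lit 34717696) (nat_lit 13795328)) (I.mix (nat_lit 13025280) (nat_lit 28606464)) (I.mix (nat_lit 7225344) (nat_lit 18661376)))
  false (nat_lit 0)
def b1_4 : Bx := Bx.mk (St.mk (I.pos (nat_lit 200032256) (nat_lit 252018688)) (I.mix (nat_lit 12828672) (nat_lit 51101696)) (I.mix (nat_lit 63455232) (nat_lit 60309504)) (I.pos (nat_lit 178454528) (nat_lit 257933312)) (I.mix (nat_lit 91668480) (nat_lit 75055104)) (I.mix (nat_lit 77430784) (nat_lit 66813952)) (I.mix (nat_lit 127451136) (nat_lit 106266624)))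
  false (nat_lit 3430007)
def b1_5 : Bx := Bx.mk (St.mk (I.mix (nat_lit 14090240) (nat_lit 92258304)) (I.mix (nat_lit 3768320) (nat_lit 2457600)) (I.mix (nat_lit 10534912) (nat_lit 868352)) (I.mix (nat_lit 1933312) (nat_lit 47431680)) (I.mix (nat_lit 11157504) (nat_lit 4308992)) (I.mix (nat_lit 5832704) (nat_lit 6193152)) (I.mix (nat_lit 3031040) (nat_lit 4669440)))
  false (nat_lit 0)
def b1_6 : Bx := Bx.mk (St.mk (I.pos (nat_lit 107626496) (nat_lit 134807552)) (I.mix (nat_lit 7798784) (nat_lit 10731520)) (I.neg (nat_lit 1228800) (nat_lit 21676032)) (I.pos (nat_lit 47349760) (nat_lit 84852736)) (I.mix (nat_lit 29474816) (nat_lit 18153472)) (I.mix (nat_lit 19087360) (nat_lit 19054592)) (I.mix (nat_lit 15269888) (nat_lit 19152896)))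
  false (nat_lit 0)
def b1_7 : Bx := Bx.mk (St.mk (I.pos (nat_lit 216530944) (nat_lit 258686976)) (I.mix (nat_lit 14499840) (nat_lit 16613376)) (I.neg (nat_lit 10141696) (nat_lit 70926336)) (I.pos (nat_lit 197754880) (nat_lit 275333120)) (I.mix (nat_lit 86884352) (nat_lit 22429696)) (I.mix (nat_lit 48267264) (nat_lit 49659904)) (I.mix (nat_lit 71974912) (nat_lit 95551488)))
  false (nat_lit 0)
def b1_8 : Bx := Bx.mk (St.mk (I.pos (nat_lit 120242176) (nat_lit 182616064)) (I.neg (nat_lit 2555904) (nat_lit 41861120)) (I.neg (nat_lit 12468224) (nat_lit 54034432)) (I.pos (nat_lit 62636032) (nat_lit 142065664)) (I.mix (nat_lit 63930368) (nat_lit 34471936)) (I.mix (nat_lit 30769152) (nat_lit 52101120)) (I.mix (nat_lit 26935296) (nat_lit 55853056)))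
  false (nat_lit 0)
def b1_9 : Bx := Bx.mk (St.mk (I.mix (nat_lit 9207808) (nat_lit 116326400)) (I.mix (nat_lit 21610496) (nat_lit 3309568)) (I.mix (nat_lit 22396928) (nat_lit 1179648)) (I.mix (nat_lit 2473984) (nat_lit 65978368)) (I.mix (nat_lit 33030144) (nat_lit 22986752)) (I.mix (nat_lit 16711680) (nat_lit 28442624)) (I.mix (nat_lit 9912320) (nat_lit 20594688)))
  false (nat_lit 0)
def b1_10 : Bx := Bx.mk (St.mk (I.pos (nat_lit 176865280) (nat_lit 219234304)) (I.mix (nat_lit 13189120) (nat_lit 46366720)) (I.mix (nat_lit 20037632) (nat_lit 57032704)) (I.pos (nat_lit 127778816) (nat_lit 202850304)) (I.mix (nat_lit 105971712) (nat_lit 43302912)) (I.mix (nat_lit 98942976) (nat_lit 57311232)) (I.mix (nat_lit 111280128) (nat_lit 64192512)))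
  false (nat_lit 0)
def b1_11 : Bx := Bx.mk (St.mk (I.mix (nat_lit 13484032) (nat_lit 136855552)) (I.mix (nat_lit 13156352) (nat_lit 25296896)) (I.mix (nat_lit 19660800) (nat_lit 12304384)) (I.mix (nat_lit 3031040) (nat_lit 84738048)) (I.mix (nat_lit 39337984) (nat_lit 32210944)) (I.mix (nat_lit 40976384) (nat_lit 24723456)) (I.mix (nat_lit 27492352) (nat_lit 16859136)))
  false (nat_lit 0)
def b1_12 : Bx := Bx.mk (St.mk (I.pos (nat_lit 153010176) (nat_lit 213024768)) (I.mix (nat_lit 35012608) (nat_lit 10600448)) (I.mix (nat_lit 55066624) (nat_lit 5046272)) (I.pos (nat_lit 93536256) (nat_lit 185876480)) (I.mix (nat_lit 62406656) (nat_lit 53379072)) (I.mix (nat_lit 58097664) (nat_lit 57163776)) (I.mix (nat_lit 64602112) (nat_lit 60899328)))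
  false (nat_lit 1775521)
def b1_13 : Bx := Bx.mk (St.mk (I.pos (nat_lit 176177152) (nat_lit 214958080)) (I.mix (nat_lit 18841600) (nat_lit 26263552)) (I.mix (nat_lit 30507008) (nat_lit 28049408)) (I.pos (nat_lit 128368640) (nat_lit 189546496)) (I.mix (nat_lit 97157120) (nat_lit 70631424)) (I.mix (nat_lit 105775104) (nat_lit 70533120)) (I.mix (nat_lit 120733696) (nat_lit 75218944)))
  false (nat_lit 1488011)
def t1 : BTr := (BTr.n (BTr.n (BTr.n (BTr.b b1_0) (BTr.n (BTr.b b1_1) (BTr.b b1_2))) (BTr.n (BTr.n (BTr.b b1_3) (BTr.b b1_4)) (BTr.n (BTr.b b1_5) (BTr.b b1_6)))) (BTr.n (BTr.n (BTr.b b1_7) (BTr.n (BTr.b b1_8) (BTr.b b1_9))) (BTr.n (BTr.n (BTr.b b1_10) (BTr.b b1_11)) (BTr.n (BTr.b b1_12) (BTr.b b1_13)))))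
namespace T1
def l0 : Tr := Tr.L (Pth.l (Pth.l (Pth.l Pth.z)))
def l1 : Tr := Tr.L (Pth.l (Pth.l (Pth.r (Pth.l Pth.z))))
def l2 : Tr := Tr.L (Pth.l (Pth.l (Pth.r (Pth.r Pth.z))))
def l3 : Tr := Tr.L (Pth.l (Pth.r (Pth.l (Pth.l Pth.z))))
def l4 : Tr := Tr.L (Pth.l (Pth.r (Pth.l (Pth.r Pth.z))))
def l5 : Tr := Tr.L (Pth.l (Pth.r (Pth.r (Pth.l Pth.z))))
def l6 : Tr := Tr.L (Pth.l (Pth.r (Pth.r (Pth.r Pth.z))))
def l7 : Tr := Tr.L (Pth.r (Pth.l (Pth.l Pth.z)))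
def l8 : Tr := Tr.L (Pth.r (Pth.l (Pth.r (Pth.l Pth.z))))
def l9 : Tr := Tr.L (Pth.r (Pth.l (Pth.r (Pth.r Pth.z))))
def l10 : Tr := Tr.L (Pth.r (Pth.r (Pth.l (Pth.l Pth.z))))
def l11 : Tr := Tr.L (Pth.r (Pth.r (Pth.l (Pth.r Pth.z))))
def l12 : Tr := Tr.L (Pth.r (Pth.r (Pth.r (Pth.l Pth.z))))
def l13 : Tr := Tr.L (Pth.r (Pth.r (Pth.r (Pth.r Pth.z))))
end T1
def b2_0 : Bx := Bx.mk (St.mk (I.pos (nat_lit 143458304) (nat_lit 217300992)) (I.mix (nat_lit 2834432) (nat_lit 89538560)) (I.mix (nat_lit 2965504) (nat_lit 94191616)) (I.pos (nat_lit 363970560) (nat_lit 456507392)) (I.mix (nat_lit 138821632) (nat_lit 71614464)) (I.mix (nat_lit 80084992) (nat_lit 71925760)) (I.mix (nat_lit 92995584) (nat_lit 96468992)))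
  false (nat_lit 152675871)
def b2_1 : Bx := Bx.mk (St.mk (I.mix (nat_lit 57966592) (nat_lit 12959744)) (I.mix (nat_lit 12484608) (nat_lit 86802432)) (I.neg (nat_lit 41025536) (nat_lit 69664768)) (I.pos (nat_lit 259653632) (nat_lit 291078144)) (I.mix (nat_lit 50774016) (nat_lit 106708992)) (I.mix (nat_lit 77414400) (nat_lit 59654144)) (I.mix (nat_lit 39780352) (nat_lit 29458432)))
  true (nat_lit 0)
def b2_2 : Bx := Bx.mk (St.mk (I.pos (nat_lit 12779520) (nat_lit 57229312)) (I.neg (nat_lit 32047104) (nat_lit 85884928)) (I.neg (nat_lit 42008576) (nat_lit 69648384)) (I.pos (nat_lit 264273920) (nat_lit 290947072)) (I.mix (nat_lit 106708992) (nat_lit 44843008)) (I.mix (nat_lit 59654144) (nat_lit 73842688)) (I.mix (nat_lit 39845888) (nat_lit 29458432)))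
  false (nat_lit 5829577)
def b2_3 : Bx := Bx.mk (St.mk (I.pos (nat_lit 21528576) (nat_lit 121372672)) (I.neg (nat_lit 8945664) (nat_lit 87064576)) (I.neg (nat_lit 425984) (nat_lit 79183872)) (I.pos (nat_lit 263880704) (nat_lit 327630848)) (I.mix (nat_lit 104218624) (nat_lit 59195392)) (I.mix (nat_lit 61784064) (nat_lit 71434240)) (I.mix (nat_lit 66977792) (nat_lit 58507264)))
  false (nat_lit 47214940)
def b2_4 : Bx := Bx.mk (St.mk (I.pos (nat_lit 97566720) (nat_lit 189890560)) (I.mix (nat_lit 36749312) (nat_lit 87130112)) (I.mix (nat_lit 34832384) (nat_lit 96796672)) (I.pos (nat_lit 301662208) (nat_lit 424476672)) (I.mix (nat_lit 150306816) (nat_lit 77791232)) (I.mix (nat_lit 119259136) (nat_lit 94224384)) (I.mix (nat_lit 123043840) (nat_lit 117374976)))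
  false (nat_lit 123652663)
def b2_5 : Bx := Bx.mk (St.mk (I.neg (nat_lit 21528576) (nat_lit 121372672)) (I.pos (nat_lit 8945664) (nat_lit 87064576)) (I.neg (nat_lit 425984) (nat_lit 79183872)) (I.pos (nat_lit 263864320) (nat_lit 327647232)) (I.mix (nat_lit 59195392) (nat_lit 104218624)) (I.mix (nat_lit 71434240) (nat_lit 61784064)) (I.mix (nat_lit 66977792) (nat_lit 58507264)))
  true (nat_lit 0)
def b2_6 : Bx := Bx.mk (St.mk (I.pos (nat_lit 177045504) (nat_lit 288669696)) (I.mix (nat_lit 24035328) (nat_lit 61603840)) (I.mix (nat_lit 149159936) (nat_lit 33996800)) (I.pos (nat_lit 402210816) (nat_lit 570064896)) (I.mix (nat_lit 70418432) (nat_lit 69976064)) (I.mix (nat_lit 62177280) (nat_lit 51642368)) (I.mix (nat_lit 103481344) (nat_lit 93241344)))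
  false (nat_lit 137283673)
def b2_7 : Bx := Bx.mk (St.mk (I.mix (nat_lit 12582912) (nat_lit 44498944)) (I.mix (nat_lit 48431104) (nat_lit 11370496)) (I.neg (nat_lit 41353216) (nat_lit 58015744)) (I.pos (nat_lit 259899392) (nat_lit 277872640)) (I.mix (nat_lit 53608448) (nat_lit 32636928)) (I.mix (nat_lit 32555008) (nat_lit 36175872)) (I.mix (nat_lit 10600448) (nat_lit 14303232)))
  false (nat_lit 0)
def b2_8 : Bx := Bx.mk (St.mk (I.pos (nat_lit 160235520) (nat_lit 212779008)) (I.pos (nat_lit 24543232) (nat_lit 86228992)) (I.mix (nat_lit 11665408) (nat_lit 82411520)) (I.pos (nat_lit 391921664) (nat_lit 444989440)) (I.mix (nat_lit 116277248) (nat_lit 79659008)) (I.mix (nat_lit 85704704) (nat_lit 61407232)) (I.mix (nat_lit 119996416) (nat_lit 94076928)))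
  false (nat_lit 136389361)
def b2_9 : Bx := Bx.mk (St.mk (I.pos (nat_lit 15974400) (nat_lit 50364416)) (I.neg (nat_lit 23937024) (nat_lit 74366976)) (I.neg (nat_lit 42106880) (nat_lit 67010560)) (I.pos (nat_lit 264699904) (nat_lit 284491776)) (I.mix (nat_lit 96452608) (nat_lit 50774016)) (I.mix (nat_lit 52396032) (nat_lit 77414400)) (I.mix (nat_lit 25575424) (nat_lit 25116672)))
  false (nat_lit 0)
def t2 : BTr := (BTr.n (BTr.n (BTr.n (BTr.b b2_0) (BTr.b b2_1)) (BTr.n (BTr.b b2_2) (BTr.n (BTr.b b2_3) (BTr.b b2_4)))) (BTr.n (BTr.n (BTr.b b2_5) (BTr.b b2_6)) (BTr.n (BTr.b b2_7) (BTr.n (BTr.b b2_8) (BTr.b b2_9)))))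
namespace T2
def l0 : Tr := Tr.L (Pth.l (Pth.l (Pth.l Pth.z)))
def l1 : Tr := Tr.L (Pth.l (Pth.l (Pth.r Pth.z)))
def l2 : Tr := Tr.L (Pth.l (Pth.r (Pth.l Pth.z)))
def l3 : Tr := Tr.L (Pth.l (Pth.r (Pth.r (Pth.l Pth.z))))
def l4 : Tr := Tr.L (Pth.l (Pth.r (Pth.r (Pth.r Pth.z))))
def l5 : Tr := Tr.L (Pth.r (Pth.l (Pth.l Pth.z)))
def l6 : Tr := Tr.L (Pth.r (Pth.l (Pth.r Pth.z)))
def l7 : Tr := Tr.L (Pth.r (Pth.r (Pth.l Pth.z)))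
def l8 : Tr := Tr.L (Pth.r (Pth.r (Pth.r (Pth.l Pth.z))))
def l9 : Tr := Tr.L (Pth.r (Pth.r (Pth.r (Pth.r Pth.z))))
end T2
def b3_0 : Bx := Bx.mk (St.mk (I.pos (nat_lit 158449664) (nat_lit 232259584)) (I.mix (nat_lit 1409024) (nat_lit 40501248)) (I.mix (nat_lit 3211264) (nat_lit 102662144)) (I.pos (nat_lit 93093888) (nat_lit 201310208)) (I.mix (nat_lit 80035840) (nat_lit 41517056)) (I.mix (nat_lit 61734912) (nat_lit 53133312)) (I.mix (nat_lit 95387648) (nat_lit 65077248)))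
  false (nat_lit 9759968)
def b3_1 : Bx := Bx.mk (St.mk (I.pos (nat_lit 128909312) (nat_lit 184254464)) (I.neg (nat_lit 4767744) (nat_lit 50970624)) (I.mix (nat_lit 34029568) (nat_lit 21233664)) (I.pos (nat_lit 78856192) (nat_lit 139739136)) (I.mix (nat_lit 60014592) (nat_lit 50642944)) (I.mix (nat_lit 43499520) (nat_lit 49774592)) (I.mix (nat_lit 41697280) (nat_lit 52183040)))
  false (nat_lit 23004466)
def b3_2 : Bx := Bx.mk (St.mk (I.mix (nat_lit 7143424) (nat_lit 115425280)) (I.mix (nat_lit 23740416) (nat_lit 1572864)) (I.mix (nat_lit 8273920) (nat_lit 11763712)) (I.mix (nat_lit 2408448) (nat_lit 63520768)) (I.mix (nat_lit 25116672) (nat_lit 29442048)) (I.mix (nat_lit 18366464) (nat_lit 23019520)) (I.mix (nat_lit 10928128) (nat_lit 15892480)))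
  false (nat_lit 0)
def b3_3 : Bx := Bx.mk (St.mk (I.pos (nat_lit 168656896) (nat_lit 210288640)) (I.mix (nat_lit 13615104) (nat_lit 40697856)) (I.pos (nat_lit 17711104) (nat_lit 95993856)) (I.pos (nat_lit 104366080) (nat_lit 174751744)) (I.mix (nat_lit 127598592) (nat_lit 46383104)) (I.mix (nat_lit 114524160) (nat_lit 56475648)) (I.mix (nat_lit 150831104) (nat_lit 46022656)))
  false (nat_lit 13243556)
def b3_4 : Bx := Bx.mk (St.mk (I.mix (nat_lit 13303808) (nat_lit 131006464)) (I.mix (nat_lit 12140544) (nat_lit 24231936)) (I.mix (nat_lit 1540096) (nat_lit 33898496)) (I.mix (nat_lit 2801664) (nat_lit 77348864)) (I.mix (nat_lit 50495488) (nat_lit 27312128)) (I.mix (nat_lit 44630016) (nat_lit 24625152)) (I.mix (nat_lit 34848768) (nat_lit 15368192)))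
  false (nat_lit 0)
def b3_5 : Bx := Bx.mk (St.mk (I.pos (nat_lit 165478400) (nat_lit 207585280)) (I.mix (nat_lit 38420480) (nat_lit 20332544)) (I.mix (nat_lit 12648448) (nat_lit 66633728)) (I.pos (nat_lit 102236160) (nat_lit 170655744)) (I.mix (nat_lit 116768768) (nat_lit 69271552)) (I.mix (nat_lit 115539968) (nat_lit 67092480)) (I.mix (nat_lit 136626176) (nat_lit 61669376)))
  false (nat_lit 57770547)
def b3_6 : Bx := Bx.mk (St.mk (I.mix (nat_lit 14893056) (nat_lit 116801536)) (I.mix (nat_lit 12173312) (nat_lit 3178496)) (I.mix (nat_lit 950272) (nat_lit 13778944)) (I.mix (nat_lit 2457600) (nat_lit 65273856)) (I.mix (nat_lit 19316736) (nat_lit 15482880)) (I.mix (nat_lit 12124160) (nat_lit 14303232)) (I.mix (nat_lit 9961472) (nat_lit 8601600)))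
  false (nat_lit 0)
def b3_7 : Bx := Bx.mk (St.mk (I.pos (nat_lit 152420352) (nat_lit 184254464)) (I.neg (nat_lit 2572288) (nat_lit 34816000)) (I.mix (nat_lit 8912896) (nat_lit 26116096)) (I.pos (nat_lit 93634560) (nat_lit 139329536)) (I.mix (nat_lit 52592640) (nat_lit 39780352)) (I.mix (nat_lit 30064640) (nat_lit 42270720)) (I.mix (nat_lit 36847616) (nat_lit 37994496)))
  false (nat_lit 0)
def b3_8 : Bx := Bx.mk (St.mk (I.pos (nat_lit 164118528) (nat_lit 196263936)) (I.neg (nat_lit 7258112) (nat_lit 36749312)) (I.mix (nat_lit 12091392) (nat_lit 23150592)) (I.pos (nat_lit 105054208) (nat_lit 157958144)) (I.mix (nat_lit 40910848) (nat_lit 43024384)) (I.mix (nat_lit 39485440) (nat_lit 30638080)) (I.mix (nat_lit 38993920) (nat_lit 32915456)))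
  false (nat_lit 7433835)
def b3_9 : Bx := Bx.mk (St.mk (I.pos (nat_lit 81362944) (nat_lit 139821056)) (I.mix (nat_lit 5799936) (nat_lit 17907712)) (I.pos (nat_lit 2605056) (nat_lit 27934720)) (I.pos (nat_lit 27295744) (nat_lit 88784896)) (I.mix (nat_lit 32096256) (nat_lit 27459584)) (I.mix (nat_lit 33243136) (nat_lit 19742720)) (I.mix (nat_lit 28884992) (nat_lit 14483456)))
  false (nat_lit 0)
def b3_10 : Bx := Bx.mk (St.mk (I.pos (nat_lit 118226944) (nat_lit 162217984)) (I.mix (nat_lit 49053696) (nat_lit 8863744)) (I.mix (nat_lit 31080448) (nat_lit 23298048)) (I.pos (nat_lit 52936704) (nat_lit 112689152)) (I.mix (nat_lit 67878912) (nat_lit 47955968)) (I.mix (nat_lit 40812544) (nat_lit 65323008)) (I.mix (nat_lit 33079296) (nat_lit 54689792)))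
  false (nat_lit 0)
def b3_11 : Bx := Bx.mk (St.mk (I.pos (nat_lit 26279936) (nat_lit 109543424)) (I.mix (nat_lit 23887872) (nat_lit 1441792)) (I.mix (nat_lit 7634944) (nat_lit 8437760)) (I.pos (nat_lit 1097728) (nat_lit 60293120)) (I.mix (nat_lit 25575424) (nat_lit 22085632)) (I.mix (nat_lit 15941632) (nat_lit 25378816)) (I.mix (nat_lit 8765440) (nat_lit 14254080)))
  false (nat_lit 0)
def b3_12 : Bx := Bx.mk (St.mk (I.pos (nat_lit 197804032) (nat_lit 281870336)) (I.mix (nat_lit 18219008) (nat_lit 31293440)) (I.pos (nat_lit 5865472) (nat_lit 95584256)) (I.pos (nat_lit 157990912) (nat_lit 310460416)) (I.mix (nat_lit 71221248) (nat_lit 55148544)) (I.mix (nat_lit 55902208) (nat_lit 40747008)) (I.mix (nat_lit 98598912) (nat_lit 65929216)))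
  false (nat_lit 48716545)
def b3_13 : Bx := Bx.mk (St.mk (I.pos (nat_lit 187908096) (nat_lit 230146048)) (I.pos (nat_lit 6225920) (nat_lit 39321600)) (I.pos (nat_lit 39518208) (nat_lit 101335040)) (I.pos (nat_lit 146571264) (nat_lit 197984256)) (I.mix (nat_lit 85704704) (nat_lit 62128128)) (I.mix (nat_lit 76775424) (nat_lit 57344000)) (I.mix (nat_lit 120176640) (nat_lit 73482240)))
  false (nat_lit 10537121)
def t3 : BTr := (BTr.n (BTr.n (BTr.n (BTr.b b3_0) (BTr.n (BTr.b b3_1) (BTr.b b3_2))) (BTr.n (BTr.n (BTr.b b3_3) (BTr.b b3_4)) (BTr.n (BTr.b b3_5) (BTr.b b3_6)))) (BTr.n (BTr.n (BTr.b b3_7) (BTr.n (BTr.b b3_8) (BTr.b b3_9))) (BTr.n (BTr.n (BTr.b b3_10) (BTr.b b3_11)) (BTr.n (BTr.b b3_12) (BTr.b b3_13)))))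
namespace T3
def l0 : Tr := Tr.L (Pth.l (Pth.l (Pth.l Pth.z)))
def l1 : Tr := Tr.L (Pth.l (Pth.l (Pth.r (Pth.l Pth.z))))
def l2 : Tr := Tr.L (Pth.l (Pth.l (Pth.r (Pth.r Pth.z))))
def l3 : Tr := Tr.L (Pth.l (Pth.r (Pth.l (Pth.l Pth.z))))
def l4 : Tr := Tr.L (Pth.l (Pth.r (Pth.l (Pth.r Pth.z))))
def l5 : Tr := Tr.L (Pth.l (Pth.r (Pth.r (Pth.l Pth.z))))
def l6 : Tr := Tr.L (Pth.l (Pth.r (Pth.r (Pth.r Pth.z))))
def l7 : Tr := Tr.L (Pth.r (Pth.l (Pth.l Pth.z)))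
def l8 : Tr := Tr.L (Pth.r (Pth.l (Pth.r (Pth.l Pth.z))))
def l9 : Tr := Tr.L (Pth.r (Pth.l (Pth.r (Pth.r Pth.z))))
def l10 : Tr := Tr.L (Pth.r (Pth.r (Pth.l (Pth.l Pth.z))))
def l11 : Tr := Tr.L (Pth.r (Pth.r (Pth.l (Pth.r Pth.z))))
def l12 : Tr := Tr.L (Pth.r (Pth.r (Pth.r (Pth.l Pth.z))))
def l13 : Tr := Tr.L (Pth.r (Pth.r (Pth.r (Pth.r Pth.z))))
end T3
def b4_0 : Bx := Bx.mk (St.mk (I.pos (nat_lit 146571264) (nat_lit 217284608)) (I.mix (nat_lit 2752512) (nat_lit 87228416)) (I.mix (nat_lit 3178496) (nat_lit 102105088)) (I.pos (nat_lit 361775104) (nat_lit 450002944)) (I.mix (nat_lit 135397376) (nat_lit 67158016)) (I.mix (nat_lit 80920576) (nat_lit 70107136)) (I.mix (nat_lit 89899008) (nat_lit 94535680)))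
  false (nat_lit 143658798)
def b4_1 : Bx := Bx.mk (St.mk (I.pos (nat_lit 24887296) (nat_lit 125059072)) (I.neg (nat_lit 7503872) (nat_lit 88473600)) (I.mix (nat_lit 70303744) (nat_lit 12386304)) (I.pos (nat_lit 266256384) (nat_lit 329662464)) (I.mix (nat_lit 100188160) (nat_lit 61374464)) (I.mix (nat_lit 63848448) (nat_lit 69255168)) (I.mix (nat_lit 65880064) (nat_lit 55197696)))
  false (nat_lit 36971409)
def b4_2 : Bx := Bx.mk (St.mk (I.pos (nat_lit 95731712) (nat_lit 187793408)) (I.mix (nat_lit 38633472) (nat_lit 87146496)) (I.mix (nat_lit 25247744) (nat_lit 110100480)) (I.pos (nat_lit 300335104) (nat_lit 418922496)) (I.mix (nat_lit 157548544) (nat_lit 78053376)) (I.mix (nat_lit 124977152) (nat_lit 98566144)) (I.mix (nat_lit 125321216) (nat_lit 122011648)))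
  false (nat_lit 137507354)
def b4_3 : Bx := Bx.mk (St.mk (I.neg (nat_lit 24870912) (nat_lit 125059072)) (I.pos (nat_lit 7503872) (nat_lit 88473600)) (I.mix (nat_lit 70303744) (nat_lit 12386304)) (I.pos (nat_lit 266223616) (nat_lit 329678848)) (I.mix (nat_lit 61374464) (nat_lit 100204544)) (I.mix (nat_lit 69255168) (nat_lit 63848448)) (I.mix (nat_lit 65880064) (nat_lit 55197696)))
  true (nat_lit 0)
def b4_4 : Bx := Bx.mk (St.mk (I.mix (nat_lit 58998784) (nat_lit 10731520)) (I.mix (nat_lit 9781248) (nat_lit 88293376)) (I.neg (nat_lit 32571392) (nat_lit 60538880)) (I.pos (nat_lit 260931584) (nat_lit 292044800)) (I.mix (nat_lit 51560448) (nat_lit 102039552)) (I.mix (nat_lit 75464704) (nat_lit 60588032)) (I.mix (nat_lit 38289408) (nat_lit 26099712)))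
  true (nat_lit 0)
def b4_5 : Bx := Bx.mk (St.mk (I.pos (nat_lit 15843328) (nat_lit 58228736)) (I.neg (nat_lit 32997376) (nat_lit 87474176)) (I.neg (nat_lit 33816576) (nat_lit 60506112)) (I.pos (nat_lit 266321920) (nat_lit 291880960)) (I.mix (nat_lit 101416960) (nat_lit 46219264)) (I.mix (nat_lit 62357504) (nat_lit 69222400)) (I.mix (nat_lit 38273024) (nat_lit 26099712)))
  false (nat_lit 19394072)
def b4_6 : Bx := Bx.mk (St.mk (I.pos (nat_lit 185171968) (nat_lit 286457856)) (I.mix (nat_lit 19152896) (nat_lit 63160320)) (I.mix (nat_lit 120848384) (nat_lit 49364992)) (I.pos (nat_lit 410173440) (nat_lit 564232192)) (I.mix (nat_lit 70975488) (nat_lit 65830912)) (I.mix (nat_lit 62881792) (nat_lit 50331648)) (I.mix (nat_lit 102285312) (nat_lit 79773696)))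
  false (nat_lit 136101770)
def b4_7 : Bx := Bx.mk (St.mk (I.mix (nat_lit 10403840) (nat_lit 47759360)) (I.mix (nat_lit 51281920) (nat_lit 8716288)) (I.neg (nat_lit 32899072) (nat_lit 49168384)) (I.pos (nat_lit 261160960) (nat_lit 279478272)) (I.mix (nat_lit 52412416) (nat_lit 33898496)) (I.mix (nat_lit 32129024) (nat_lit 35749888)) (I.mix (nat_lit 10813440) (nat_lit 12795904)))
  false (nat_lit 0)
def b4_8 : Bx := Bx.mk (St.mk (I.pos (nat_lit 157679616) (nat_lit 211550208)) (I.pos (nat_lit 25280512) (nat_lit 83656704)) (I.pos (nat_lit 4112384) (nat_lit 93224960)) (I.pos (nat_lit 384155648) (nat_lit 436912128)) (I.mix (nat_lit 112394240) (nat_lit 77856768)) (I.mix (nat_lit 86310912) (nat_lit 58163200)) (I.mix (nat_lit 118194176) (nat_lit 87801856)))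
  false (nat_lit 110075177)
def b4_9 : Bx := Bx.mk (St.mk (I.pos (nat_lit 19939328) (nat_lit 52772864)) (I.neg (nat_lit 25395200) (nat_lit 74350592)) (I.neg (nat_lit 33292288) (nat_lit 57573376)) (I.pos (nat_lit 266928128) (nat_lit 285442048)) (I.mix (nat_lit 91701248) (nat_lit 51560448)) (I.mix (nat_lit 50364416) (nat_lit 75464704)) (I.mix (nat_lit 24772608) (nat_lit 23314432)))
  false (nat_lit 0)
def t4 : BTr := (BTr.n (BTr.n (BTr.n (BTr.b b4_0) (BTr.b b4_1)) (BTr.n (BTr.b b4_2) (BTr.n (BTr.b b4_3) (BTr.b b4_4)))) (BTr.n (BTr.n (BTr.b b4_5) (BTr.b b4_6)) (BTr.n (BTr.b b4_7) (BTr.n (BTr.b b4_8) (BTr.b b4_9)))))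
namespace T4
def l0 : Tr := Tr.L (Pth.l (Pth.l (Pth.l Pth.z)))
def l1 : Tr := Tr.L (Pth.l (Pth.l (Pth.r Pth.z)))
def l2 : Tr := Tr.L (Pth.l (Pth.r (Pth.l Pth.z)))
def l3 : Tr := Tr.L (Pth.l (Pth.r (Pth.r (Pth.l Pth.z))))
def l4 : Tr := Tr.L (Pth.l (Pth.r (Pth.r (Pth.r Pth.z))))
def l5 : Tr := Tr.L (Pth.r (Pth.l (Pth.l Pth.z)))
def l6 : Tr := Tr.L (Pth.r (Pth.l (Pth.r Pth.z)))
def l7 : Tr := Tr.L (Pth.r (Pth.r (Pth.l Pth.z)))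
def l8 : Tr := Tr.L (Pth.r (Pth.r (Pth.r (Pth.l Pth.z))))
def l9 : Tr := Tr.L (Pth.r (Pth.r (Pth.r (Pth.r Pth.z))))
end T4
def b5_0 : Bx := Bx.mk (St.mk (I.pos (nat_lit 158498816) (nat_lit 230326272)) (I.mix (nat_lit 1474560) (nat_lit 42385408)) (I.mix (nat_lit 3391488) (nat_lit 107200512)) (I.pos (nat_lit 112132096) (nat_lit 216514560)) (I.mix (nat_lit 82706432) (nat_lit 44285952)) (I.mix (nat_lit 63356928) (nat_lit 54771712)) (I.mix (nat_lit 94322688) (nat_lit 65798144)))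
  false (nat_lit 27214921)
def b5_1 : Bx := Bx.mk (St.mk (I.pos (nat_lit 122060800) (nat_lit 176357376)) (I.neg (nat_lit 5619712) (nat_lit 52985856)) (I.mix (nat_lit 32342016) (nat_lit 24887296)) (I.pos (nat_lit 91045888) (nat_lit 146604032)) (I.mix (nat_lit 57376768) (nat_lit 51871744)) (I.mix (nat_lit 41369600) (nat_lit 48267264)) (I.mix (nat_lit 39436288) (nat_lit 48824320)))
  false (nat_lit 35409584)
def b5_2 : Bx := Bx.mk (St.mk (I.mix (nat_lit 12386304) (nat_lit 101613568)) (I.mix (nat_lit 26607616) (nat_lit 2015232)) (I.mix (nat_lit 5799936) (nat_lit 14893056)) (I.pos (nat_lit 16007168) (nat_lit 72564736)) (I.mix (nat_lit 24018944) (nat_lit 32423936)) (I.mix (nat_lit 18841600) (nat_lit 24428544)) (I.mix (nat_lit 9682944) (nat_lit 14893056)))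
  false (nat_lit 0)
def b5_3 : Bx := Bx.mk (St.mk (I.pos (nat_lit 163168256) (nat_lit 208224256)) (I.mix (nat_lit 12238848) (nat_lit 44810240)) (I.pos (nat_lit 23166976) (nat_lit 103923712)) (I.pos (nat_lit 114819072) (nat_lit 190152704)) (I.mix (nat_lit 129400832) (nat_lit 40894464)) (I.mix (nat_lit 112721920) (nat_lit 60686336)) (I.mix (nat_lit 141639680) (nat_lit 48087040)))
  false (nat_lit 53926087)
def b5_4 : Bx := Bx.mk (St.mk (I.mix (nat_lit 22446080) (nat_lit 119357440)) (I.mix (nat_lit 12238848) (nat_lit 25821184)) (I.pos (nat_lit 475136) (nat_lit 35274752)) (I.pos (nat_lit 15564800) (nat_lit 85753856)) (I.mix (nat_lit 53035008) (nat_lit 27033600)) (I.mix (nat_lit 45416448) (nat_lit 24543232)) (I.mix (nat_lit 32063488) (nat_lit 13926400)))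
  false (nat_lit 0)
def b5_5 : Bx := Bx.mk (St.mk (I.pos (nat_lit 148733952) (nat_lit 179912704)) (I.neg (nat_lit 3244032) (nat_lit 34897920)) (I.mix (nat_lit 5455872) (nat_lit 30375936)) (I.pos (nat_lit 104988672) (nat_lit 153419776)) (I.mix (nat_lit 47054848) (nat_lit 38912000)) (I.mix (nat_lit 28803072) (nat_lit 38551552)) (I.mix (nat_lit 35635200) (nat_lit 35373056)))
  false (nat_lit 2656873)
def b5_6 : Bx := Bx.mk (St.mk (I.mix (nat_lit 27115520) (nat_lit 103596032)) (I.mix (nat_lit 15187968) (nat_lit 4292608)) (I.pos (nat_lit 1196032) (nat_lit 16924672)) (I.pos (nat_lit 16269312) (nat_lit 74268672)) (I.mix (nat_lit 22020096) (nat_lit 19103744)) (I.mix (nat_lit 14925824) (nat_lit 17252352)) (I.mix (nat_lit 10911744) (nat_lit 9486336)))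
  false (nat_lit 0)
def b5_7 : Bx := Bx.mk (St.mk (I.pos (nat_lit 159711232) (nat_lit 192987136)) (I.neg (nat_lit 7241728) (nat_lit 37240832)) (I.mix (nat_lit 7307264) (nat_lit 28639232)) (I.pos (nat_lit 116424704) (nat_lit 171491328)) (I.mix (nat_lit 40632320) (nat_lit 45301760)) (I.mix (nat_lit 40812544) (nat_lit 32161792)) (I.mix (nat_lit 39157760) (nat_lit 33095680)))
  false (nat_lit 473121)
def b5_8 : Bx := Bx.mk (St.mk (I.pos (nat_lit 160759808) (nat_lit 204193792)) (I.mix (nat_lit 38551552) (nat_lit 22822912)) (I.mix (nat_lit 7405568) (nat_lit 74170368)) (I.pos (nat_lit 113639424) (nat_lit 183713792)) (I.mix (nat_lit 120061952) (nat_lit 69337088)) (I.mix (nat_lit 116834304) (nat_lit 67649536)) (I.mix (nat_lit 134938624) (nat_lit 59834368)))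
  false (nat_lit 49364604)
def b5_9 : Bx := Bx.mk (St.mk (I.pos (nat_lit 80478208) (nat_lit 129482752)) (I.mix (nat_lit 5095424) (nat_lit 19808256)) (I.pos (nat_lit 4341760) (nat_lit 29802496)) (I.pos (nat_lit 46071808) (nat_lit 97665024)) (I.mix (nat_lit 35356672) (nat_lit 29114368)) (I.mix (nat_lit 35979264) (nat_lit 19087360)) (I.mix (nat_lit 28426240) (nat_lit 12320768)))
  false (nat_lit 0)
def b5_10 : Bx := Bx.mk (St.mk (I.pos (nat_lit 110657536) (nat_lit 157466624)) (I.mix (nat_lit 54067200) (nat_lit 7634944)) (I.mix (nat_lit 30130176) (nat_lit 23396352)) (I.pos (nat_lit 63782912) (nat_lit 125960192)) (I.mix (nat_lit 67485696) (nat_lit 50675712)) (I.mix (nat_lit 43024384) (nat_lit 66387968)) (I.mix (nat_lit 31195136) (nat_lit 51085312)))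
  false (nat_lit 37273877)
def b5_11 : Bx := Bx.mk (St.mk (I.pos (nat_lit 199262208) (nat_lit 281149440)) (I.mix (nat_lit 14958592) (nat_lit 33521664)) (I.pos (nat_lit 12632064) (nat_lit 99565568)) (I.pos (nat_lit 176488448) (nat_lit 325599232)) (I.mix (nat_lit 74399744) (nat_lit 58195968)) (I.mix (nat_lit 57376768) (nat_lit 42860544)) (I.mix (nat_lit 100204544) (nat_lit 68403200)))
  false (nat_lit 29312703)
def b5_12 : Bx := Bx.mk (St.mk (I.pos (nat_lit 184074240) (nat_lit 226983936)) (I.pos (nat_lit 6979584) (nat_lit 40878080)) (I.pos (nat_lit 43450368) (nat_lit 105758720)) (I.pos (nat_lit 158498816) (nat_lit 210649088)) (I.mix (nat_lit 90488832) (nat_lit 64618496)) (I.mix (nat_lit 81182720) (nat_lit 56639488)) (I.mix (nat_lit 124387328) (nat_lit 69500928)))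
  false (nat_lit 21985069)
def b5_13 : Bx := Bx.mk (St.mk (I.mix (nat_lit 17170432) (nat_lit 96583680)) (I.mix (nat_lit 26705920) (nat_lit 3620864)) (I.mix (nat_lit 5193728) (nat_lit 9125888)) (I.pos (nat_lit 16121856) (nat_lit 69156864)) (I.mix (nat_lit 24870912) (nat_lit 24543232)) (I.mix (nat_lit 16793600) (nat_lit 26705920)) (I.mix (nat_lit 7536640) (nat_lit 12582912)))
  false (nat_lit 0)
def t5 : BTr := (BTr.n (BTr.n (BTr.n (BTr.b b5_0) (BTr.n (BTr.b b5_1) (BTr.b b5_2))) (BTr.n (BTr.n (BTr.b b5_3) (BTr.b b5_4)) (BTr.n (BTr.b b5_5) (BTr.b b5_6)))) (BTr.n (BTr.n (BTr.b b5_7) (BTr.n (BTr.b b5_8) (BTr.b b5_9))) (BTr.n (BTr.n (BTr.b b5_10) (BTr.b b5_11)) (BTr.n (BTr.b b5_12) (BTr.b b5_13)))))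
namespace T5
def l0 : Tr := Tr.L (Pth.l (Pth.l (Pth.l Pth.z)))
def l1 : Tr := Tr.L (Pth.l (Pth.l (Pth.r (Pth.l Pth.z))))
def l2 : Tr := Tr.L (Pth.l (Pth.l (Pth.r (Pth.r Pth.z))))
def l3 : Tr := Tr.L (Pth.l (Pth.r (Pth.l (Pth.l Pth.z))))
def l4 : Tr := Tr.L (Pth.l (Pth.r (Pth.l (Pth.r Pth.z))))
def l5 : Tr := Tr.L (Pth.l (Pth.r (Pth.r (Pth.l Pth.z))))
def l6 : Tr := Tr.L (Pth.l (Pth.r (Pth.r (Pth.r Pth.z))))
def l7 : Tr := Tr.L (Pth.r (Pth.l (Pth.l Pth.z)))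
def l8 : Tr := Tr.L (Pth.r (Pth.l (Pth.r (Pth.l Pth.z))))
def l9 : Tr := Tr.L (Pth.r (Pth.l (Pth.r (Pth.r Pth.z))))
def l10 : Tr := Tr.L (Pth.r (Pth.r (Pth.l (Pth.l Pth.z))))
def l11 : Tr := Tr.L (Pth.r (Pth.r (Pth.l (Pth.r Pth.z))))
def l12 : Tr := Tr.L (Pth.r (Pth.r (Pth.r (Pth.l Pth.z))))
def l13 : Tr := Tr.L (Pth.r (Pth.r (Pth.r (Pth.r Pth.z))))
end T5
theorem bx0_0 : BoxOK sI cl4 cl9 cl13 t2 t4 b0_0 :=
  box_mk (TrL.c (I.pos (nat_lit 0) (nat_lit 0)) (xa (xb T2.l0 (xa (xb T2.l0 (xa T2.l0 T2.l0)) (xb T2.l0 (xa T2.l0 T2.l0)))) (xb T2.l0 (xa (xb T2.l0 (xa T2.l0 T2.l0)) (xb T2.l0 (xa T2.l0 T2.l0)))))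
  (TrL.c (I.pos (nat_lit 0) (nat_lit 0)) (xa T4.l1 (xb T4.l1 (xa T4.l1 T4.l1)))
  (TrL.c (I.pos (nat_lit 0) (nat_lit 0)) T2.l1
  (TrL.c (I.pos (nat_lit 0) (nat_lit 0)) T4.l2
  (TrL.c (I.pos (nat_lit 0) (nat_lit 0)) (xa T2.l2 T2.l2)
  (TrL.c (I.pos (nat_lit 0) (nat_lit 0)) (xa T4.l3 (xb T4.l3 (xa T4.l3 T4.l3)))
  TrL.n)))))) (by decide +kernel)
theorem bx0_1 : BoxOK sI cl4 cl9 cl13 t2 t4 b0_1 :=
  box_mk (TrL.c (I.pos (nat_lit 0) (nat_lit 0)) (xa (xa T2.l6 T2.l6) (xa T2.l6 (xa T2.l6 T2.l6)))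
  (TrL.c (I.pos (nat_lit 0) (nat_lit 0)) (xa T4.l1 T4.l1)
  (TrL.c (I.pos (nat_lit 0) (nat_lit 0)) T2.l1
  (TrL.c (I.pos (nat_lit 0) (nat_lit 0)) T4.l2
  (TrL.c (I.pos (nat_lit 0) (nat_lit 0)) T2.l7
  (TrL.c (I.pos (nat_lit 0) (nat_lit 0)) (xa T4.l3 T4.l3)
  TrL.n)))))) (by decide +kernel)
theorem bx0_2 : BoxOK sI cl4 cl9 cl13 t2 t4 b0_2 :=
  box_mk (TrL.c (I.pos (nat_lit 0) (nat_lit 0)) (xb (xa T2.l6 T2.l6) (xa T2.l6 T2.l6))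
  (TrL.c (I.pos (nat_lit 0) (nat_lit 0)) T4.l1
  (TrL.c (I.pos (nat_lit 0) (nat_lit 0)) T2.l1
  (TrL.c (I.pos (nat_lit 0) (nat_lit 0)) T4.l2
  (TrL.c (I.pos (nat_lit 0) (nat_lit 0)) T2.l7
  (TrL.c (I.pos (nat_lit 0) (nat_lit 0)) T4.l3
  TrL.n)))))) (by decide +kernel)
theorem bx0_3 : BoxOK sI cl4 cl9 cl13 t2 t4 b0_3 :=
  box_mk (TrL.c (I.pos (nat_lit 0) (nat_lit 0)) (xa (xa (xb (xa T2.l6 T2.l6) T2.l6) T2.l6) T2.l6)
  (TrL.c (I.pos (nat_lit 0) (nat_lit 0)) (xa T4.l1 T4.l1)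
  (TrL.c (I.pos (nat_lit 0) (nat_lit 0)) T2.l1
  (TrL.c (I.pos (nat_lit 0) (nat_lit 0)) (xa T4.l2 T4.l2)
  (TrL.c (I.pos (nat_lit 0) (nat_lit 0)) T2.l7
  (TrL.c (I.pos (nat_lit 0) (nat_lit 0)) (xa T4.l3 T4.l3)
  TrL.n)))))) (by decide +kernel)
theorem bx0_4 : BoxOK sI cl4 cl9 cl13 t2 t4 b0_4 :=
  box_mk (TrL.c (I.pos (nat_lit 0) (nat_lit 0)) T2.l6
  (TrL.c (I.pos (nat_lit 0) (nat_lit 0)) T4.l1
  (TrL.c (I.pos (nat_lit 0) (nat_lit 0)) T2.l1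
  (TrL.c (I.pos (nat_lit 0) (nat_lit 0)) T4.l2
  (TrL.c (I.pos (nat_lit 0) (nat_lit 0)) T2.l7
  (TrL.c (I.pos (nat_lit 0) (nat_lit 0)) T4.l3
  TrL.n)))))) (by decide +kernel)
theorem bx0_5 : BoxOK sI cl4 cl9 cl13 t2 t4 b0_5 :=
  box_mk (TrL.c (I.pos (nat_lit 0) (nat_lit 0)) T2.l6
  (TrL.c (I.pos (nat_lit 0) (nat_lit 0)) T4.l1
  (TrL.c (I.pos (nat_lit 0) (nat_lit 0)) T2.l1
  (TrL.c (I.pos (nat_lit 0) (nat_lit 0)) T4.l2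
  (TrL.c (I.pos (nat_lit 0) (nat_lit 0)) T2.l7
  (TrL.c (I.pos (nat_lit 0) (nat_lit 0)) T4.l3
  TrL.n)))))) (by decide +kernel)
theorem bx0_6 : BoxOK sI cl4 cl9 cl13 t2 t4 b0_6 :=
  box_mk (TrL.c (I.pos (nat_lit 0) (nat_lit 0)) (xa T2.l0 T2.l4)
  (TrL.c (I.pos (nat_lit 0) (nat_lit 0)) (xa T4.l1 T4.l1)
  (TrL.c (I.pos (nat_lit 0) (nat_lit 0)) T2.l1
  (TrL.c (I.pos (nat_lit 0) (nat_lit 0)) (xa T4.l2 T4.l2)
  (TrL.c (I.pos (nat_lit 0) (nat_lit 0)) T2.l2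
  (TrL.c (I.pos (nat_lit 0) (nat_lit 0)) (xa T4.l3 T4.l3)
  TrL.n)))))) (by decide +kernel)
theorem bx0_7 : BoxOK sI cl4 cl9 cl13 t2 t4 b0_7 :=
  box_mk (TrL.c (I.pos (nat_lit 0) (nat_lit 0)) (xb (xa (xb (xa T2.l0 T2.l0) (xa T2.l0 T2.l0)) (xb T2.l4 T2.l4)) (xa (xb (xa (xb T2.l0 T2.l0) (xb T2.l0 T2.l0)) (xa (xb (xs T2.l0 T2.l0) (xs T2.l0 T2.l0)) (xs T2.l0 (xb T2.l0 T2.l0)))) (xb (xa T2.l4 T2.l4) (xa (xs T2.l0 (xb T2.l0 T2.l0)) (xs T2.l0 (xb T2.l0 T2.l0))))))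
  (TrL.c (I.pos (nat_lit 0) (nat_lit 0)) (xb (xa T4.l1 (xb T4.l1 T4.l1)) (xa (xb T4.l1 (xc T4.l1 T4.l1)) (xa T4.l1 (xb T4.l1 T4.l1))))
  (TrL.c (I.pos (nat_lit 0) (nat_lit 0)) (xc (xa T2.l1 T2.l5) (xb T2.l5 T2.l1))
  (TrL.c (I.pos (nat_lit 0) (nat_lit 0)) (xb (xa T4.l2 (xb (xa T4.l2 T4.l2) (xa T4.l2 T4.l2))) (xa T4.l2 (xb (xc T4.l2 T4.l2) (xc (xa T4.l2 (xs T4.l2 T4.l2)) (xa T4.l2 (xs T4.l2 T4.l2))))))
  (TrL.c (I.pos (nat_lit 0) (nat_lit 0)) (xc (xa T2.l2 T2.l3) (xb T2.l3 T2.l2))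
  (TrL.c (I.pos (nat_lit 0) (nat_lit 0)) (xb (xa T4.l3 (xb T4.l3 T4.l3)) (xa (xb T4.l3 (xc T4.l3 T4.l3)) (xa T4.l3 (xb T4.l3 T4.l3))))
  TrL.n)))))) (by decide +kernel)
theorem bx0_8 : BoxOK sI cl4 cl9 cl13 t2 t4 b0_8 :=
  box_mk (TrL.c (I.pos (nat_lit 0) (nat_lit 0)) (xa (xb (xa T2.l6 T2.l6) T2.l6) (xb (xa T2.l6 T2.l8) (xa T2.l6 T2.l6)))
  (TrL.c (I.pos (nat_lit 0) (nat_lit 0)) T4.l1
  (TrL.c (I.pos (nat_lit 0) (nat_lit 0)) T2.l1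
  (TrL.c (I.pos (nat_lit 0) (nat_lit 0)) T4.l2
  (TrL.c (I.pos (nat_lit 0) (nat_lit 0)) T2.l7
  (TrL.c (I.pos (nat_lit 0) (nat_lit 0)) T4.l3
  TrL.n)))))) (by decide +kernel)
theorem bx0_9 : BoxOK sI cl4 cl9 cl13 t2 t4 b0_9 :=
  box_mk (TrL.c (I.pos (nat_lit 0) (nat_lit 0)) (xa (xa (xb T2.l6 T2.l6) T2.l6) T2.l6)
  (TrL.c (I.pos (nat_lit 0) (nat_lit 0)) (xa T4.l1 T4.l1)
  (TrL.c (I.pos (nat_lit 0) (nat_lit 0)) T2.l1
  (TrL.c (I.pos (nat_lit 0) (nat_lit 0)) T4.l2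
  (TrL.c (I.pos (nat_lit 0) (nat_lit 0)) T2.l7
  (TrL.c (I.pos (nat_lit 0) (nat_lit 0)) (xa T4.l3 T4.l3)
  TrL.n)))))) (by decide +kernel)
theorem bx0_10 : BoxOK sI cl4 cl9 cl13 t2 t4 b0_10 :=
  box_mk (TrL.c (I.pos (nat_lit 0) (nat_lit 0)) (xb (xa (xb T2.l8 T2.l8) (xb (xa T2.l8 T2.l4) (xa T2.l8 T2.l8))) (xa (xb (xa T2.l8 T2.l8) (xa (xb T2.l8 T2.l8) T2.l8)) (xb (xa T2.l8 (xb T2.l8 T2.l8)) (xa (xs T2.l8 T2.l8) (xs T2.l8 (xb T2.l8 T2.l8))))))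
  (TrL.c (I.pos (nat_lit 0) (nat_lit 0)) (xb (xa T4.l1 T4.l1) (xa T4.l1 T4.l1))
  (TrL.c (I.pos (nat_lit 0) (nat_lit 0)) T2.l1
  (TrL.c (I.pos (nat_lit 0) (nat_lit 0)) (xb T4.l2 (xa T4.l2 (xb T4.l2 T4.l2)))
  (TrL.c (I.pos (nat_lit 0) (nat_lit 0)) T2.l9
  (TrL.c (I.pos (nat_lit 0) (nat_lit 0)) (xb (xa T4.l3 T4.l3) (xa T4.l3 T4.l3))
  TrL.n)))))) (by decide +kernel)
theorem bx0_11 : BoxOK sI cl4 cl9 cl13 t2 t4 b0_11 :=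
  box_mk (TrL.c (I.pos (nat_lit 0) (nat_lit 0)) (xa (xa (xb (xa T2.l6 T2.l6) (xa (xb T2.l6 T2.l6) T2.l6)) (xb T2.l6 T2.l6)) (xa T2.l6 (xb T2.l6 (xa T2.l6 T2.l6))))
  (TrL.c (I.pos (nat_lit 0) (nat_lit 0)) (xa T4.l1 T4.l1)
  (TrL.c (I.pos (nat_lit 0) (nat_lit 0)) (xa T2.l1 T2.l1)
  (TrL.c (I.pos (nat_lit 0) (nat_lit 0)) (xa T4.l2 T4.l2)
  (TrL.c (I.pos (nat_lit 0) (nat_lit 0)) (xa T2.l7 T2.l7)
  (TrL.c (I.pos (nat_lit 0) (nat_lit 0)) (xa T4.l3 T4.l3)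
  TrL.n)))))) (by decide +kernel)
theorem bx0_12 : BoxOK sI cl4 cl9 cl13 t2 t4 b0_12 :=
  box_mk (TrL.c (I.pos (nat_lit 0) (nat_lit 0)) (xa (xb (xa T2.l8 T2.l8) T2.l0) T2.l0)
  (TrL.c (I.pos (nat_lit 0) (nat_lit 0)) T4.l1
  (TrL.c (I.pos (nat_lit 0) (nat_lit 0)) T2.l1
  (TrL.c (I.pos (nat_lit 0) (nat_lit 0)) T4.l2
  (TrL.c (I.pos (nat_lit 0) (nat_lit 0)) T2.l9
  (TrL.c (I.pos (nat_lit 0) (nat_lit 0)) T4.l3
  TrL.n)))))) (by decide +kernel)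
theorem bx0_13 : BoxOK sI cl4 cl9 cl13 t2 t4 b0_13 :=
  box_mk (TrL.c (I.pos (nat_lit 0) (nat_lit 0)) (xb (xa (xb T2.l8 T2.l8) (xb T2.l8 T2.l8)) (xa (xb T2.l8 (xa T2.l8 T2.l8)) (xb T2.l8 (xa T2.l8 T2.l8))))
  (TrL.c (I.pos (nat_lit 0) (nat_lit 0)) (xb T4.l1 T4.l1)
  (TrL.c (I.pos (nat_lit 0) (nat_lit 0)) T2.l1
  (TrL.c (I.pos (nat_lit 0) (nat_lit 0)) (xb (xa T4.l2 T4.l2) T4.l2)
  (TrL.c (I.pos (nat_lit 0) (nat_lit 0)) T2.l9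
  (TrL.c (I.pos (nat_lit 0) (nat_lit 0)) (xb T4.l3 T4.l3)
  TrL.n)))))) (by decide +kernel)
theorem sv0 : StarV sI cl4 cl9 cl13 t2 t4 t0 :=
  (bt_n (bt_n (bt_n (bt_b bx0_0) (bt_n (bt_b bx0_1) (bt_b bx0_2))) (bt_n (bt_n (bt_b bx0_3) (bt_b bx0_4)) (bt_n (bt_b bx0_5) (bt_b bx0_6)))) (bt_n (bt_n (bt_b bx0_7) (bt_n (bt_b bx0_8) (bt_b bx0_9))) (bt_n (bt_n (bt_b bx0_10) (bt_b bx0_11)) (bt_n (bt_b bx0_12) (bt_b bx0_13)))))
def S0 : StarD := StarD.mk cl4 cl9 cl13 2 4 t0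
theorem bx1_0 : BoxOK sI cl4 cl13 cl9 t4 t2 b1_0 :=
  box_mk (TrL.c (I.pos (nat_lit 0) (nat_lit 0)) (xa (xb T4.l0 (xa (xb T4.l0 (xa T4.l0 T4.l0)) (xb T4.l0 (xa T4.l0 T4.l0)))) (xb (xa T4.l0 (xb T4.l0 T4.l2)) (xa (xb T4.l0 (xa T4.l0 T4.l0)) (xb (xa T4.l0 T4.l0) (xa T4.l0 T4.l2)))))
  (TrL.c (I.pos (nat_lit 0) (nat_lit 0)) (xa T2.l3 (xb T2.l3 (xa T2.l3 T2.l3)))
  (TrL.c (I.pos (nat_lit 0) (nat_lit 0)) T4.l4
  (TrL.c (I.pos (nat_lit 0) (nat_lit 0)) T2.l4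
  (TrL.c (I.pos (nat_lit 0) (nat_lit 0)) (xa T4.l5 T4.l5)
  (TrL.c (I.pos (nat_lit 0) (nat_lit 0)) (xa T2.l5 (xb T2.l5 (xa T2.l5 T2.l5)))
  TrL.n)))))) (by decide +kernel)
theorem bx1_1 : BoxOK sI cl4 cl13 cl9 t4 t2 b1_1 :=
  box_mk (TrL.c (I.pos (nat_lit 0) (nat_lit 0)) (xa (xa T4.l6 T4.l6) (xa T4.l6 (xa T4.l6 T4.l6)))
  (TrL.c (I.pos (nat_lit 0) (nat_lit 0)) (xa T2.l3 T2.l3)
  (TrL.c (I.pos (nat_lit 0) (nat_lit 0)) T4.l4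
  (TrL.c (I.pos (nat_lit 0) (nat_lit 0)) (xa T2.l4 T2.l4)
  (TrL.c (I.pos (nat_lit 0) (nat_lit 0)) T4.l7
  (TrL.c (I.pos (nat_lit 0) (nat_lit 0)) (xa T2.l5 T2.l5)
  TrL.n)))))) (by decide +kernel)
theorem bx1_2 : BoxOK sI cl4 cl13 cl9 t4 t2 b1_2 :=
  box_mk (TrL.c (I.pos (nat_lit 0) (nat_lit 0)) (xb (xa T4.l6 T4.l6) (xa T4.l6 T4.l6))
  (TrL.c (I.pos (nat_lit 0) (nat_lit 0)) T2.l3
  (TrL.c (I.pos (nat_lit 0) (nat_lit 0)) T4.l4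
  (TrL.c (I.pos (nat_lit 0) (nat_lit 0)) T2.l4
  (TrL.c (I.pos (nat_lit 0) (nat_lit 0)) T4.l7
  (TrL.c (I.pos (nat_lit 0) (nat_lit 0)) T2.l5
  TrL.n)))))) (by decide +kernel)
theorem bx1_3 : BoxOK sI cl4 cl13 cl9 t4 t2 b1_3 :=
  box_mk (TrL.c (I.pos (nat_lit 0) (nat_lit 0)) (xa (xa (xb T4.l6 T4.l6) T4.l6) T4.l6)
  (TrL.c (I.pos (nat_lit 0) (nat_lit 0)) (xa T2.l3 T2.l3)
  (TrL.c (I.pos (nat_lit 0) (nat_lit 0)) T4.l4
  (TrL.c (I.pos (nat_lit 0) (nat_lit 0)) (xa T2.l4 T2.l4)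
  (TrL.c (I.pos (nat_lit 0) (nat_lit 0)) T4.l7
  (TrL.c (I.pos (nat_lit 0) (nat_lit 0)) (xa T2.l5 T2.l5)
  TrL.n)))))) (by decide +kernel)
theorem bx1_4 : BoxOK sI cl4 cl13 cl9 t4 t2 b1_4 :=
  box_mk (TrL.c (I.pos (nat_lit 0) (nat_lit 0)) (xb (xa (xb (xa (xb T4.l0 T4.l0) T4.l2) (xa (xb T4.l0 T4.l0) T4.l0)) (xb T4.l2 T4.l2)) (xa (xb (xa (xb T4.l0 T4.l0) (xb T4.l0 T4.l0)) (xa (xs T4.l0 (xb T4.l0 T4.l0)) (xs T4.l0 (xb T4.l0 T4.l0)))) (xa (xb T4.l2 (xs T4.l0 (xb T4.l0 T4.l0))) (xb T4.l2 (xs T4.l2 (xa T4.l2 T4.l2))))))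
  (TrL.c (I.pos (nat_lit 0) (nat_lit 0)) (xb (xa T2.l3 (xb T2.l3 T2.l3)) (xa (xb T2.l3 (xc T2.l3 T2.l3)) (xa (xb T2.l3 T2.l3) (xb T2.l3 T2.l3))))
  (TrL.c (I.pos (nat_lit 0) (nat_lit 0)) (xc (xa T4.l4 T4.l3) (xb T4.l4 T4.l4))
  (TrL.c (I.pos (nat_lit 0) (nat_lit 0)) (xb (xa T2.l4 (xb (xc (xa T2.l4 T2.l4) (xa T2.l4 T2.l4)) (xa T2.l4 T2.l4))) (xa T2.l4 (xb (xa T2.l4 (xc T2.l4 T2.l4)) (xc (xa T2.l4 T2.l4) (xa T2.l4 (xd T2.l4 T2.l4))))))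
  (TrL.c (I.pos (nat_lit 0) (nat_lit 0)) (xc (xa T4.l5 T4.l1) (xa T4.l5 T4.l5))
  (TrL.c (I.pos (nat_lit 0) (nat_lit 0)) (xb (xa T2.l5 (xb T2.l5 T2.l5)) (xa (xb T2.l5 (xc T2.l5 T2.l5)) (xa (xb T2.l5 T2.l5) (xb T2.l5 T2.l5))))
  TrL.n)))))) (by decide +kernel)
theorem bx1_5 : BoxOK sI cl4 cl13 cl9 t4 t2 b1_5 :=
  box_mk (TrL.c (I.pos (nat_lit 0) (nat_lit 0)) T4.l6
  (TrL.c (I.pos (nat_lit 0) (nat_lit 0)) T2.l3
  (TrL.c (I.pos (nat_lit 0) (nat_lit 0)) T4.l4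
  (TrL.c (I.pos (nat_lit 0) (nat_lit 0)) T2.l4
  (TrL.c (I.pos (nat_lit 0) (nat_lit 0)) T4.l7
  (TrL.c (I.pos (nat_lit 0) (nat_lit 0)) T2.l5
  TrL.n)))))) (by decide +kernel)
theorem bx1_6 : BoxOK sI cl4 cl13 cl9 t4 t2 b1_6 :=
  box_mk (TrL.c (I.pos (nat_lit 0) (nat_lit 0)) T4.l6
  (TrL.c (I.pos (nat_lit 0) (nat_lit 0)) T2.l3
  (TrL.c (I.pos (nat_lit 0) (nat_lit 0)) T4.l4
  (TrL.c (I.pos (nat_lit 0) (nat_lit 0)) T2.l4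
  (TrL.c (I.pos (nat_lit 0) (nat_lit 0)) T4.l7
  (TrL.c (I.pos (nat_lit 0) (nat_lit 0)) T2.l5
  TrL.n)))))) (by decide +kernel)
theorem bx1_7 : BoxOK sI cl4 cl13 cl9 t4 t2 b1_7 :=
  box_mk (TrL.c (I.pos (nat_lit 0) (nat_lit 0)) (xa (xb T4.l0 T4.l0) T4.l2)
  (TrL.c (I.pos (nat_lit 0) (nat_lit 0)) (xa T2.l3 (xb T2.l3 T2.l3))
  (TrL.c (I.pos (nat_lit 0) (nat_lit 0)) T4.l3
  (TrL.c (I.pos (nat_lit 0) (nat_lit 0)) (xa T2.l4 (xb (xa T2.l4 T2.l4) T2.l4))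
  (TrL.c (I.pos (nat_lit 0) (nat_lit 0)) T4.l1
  (TrL.c (I.pos (nat_lit 0) (nat_lit 0)) (xa T2.l5 (xb T2.l5 T2.l5))
  TrL.n)))))) (by decide +kernel)
theorem bx1_8 : BoxOK sI cl4 cl13 cl9 t4 t2 b1_8 :=
  box_mk (TrL.c (I.pos (nat_lit 0) (nat_lit 0)) (xa (xb (xa T4.l6 T4.l6) T4.l6) T4.l0)
  (TrL.c (I.pos (nat_lit 0) (nat_lit 0)) T2.l3
  (TrL.c (I.pos (nat_lit 0) (nat_lit 0)) T4.l4
  (TrL.c (I.pos (nat_lit 0) (nat_lit 0)) T2.l4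
  (TrL.c (I.pos (nat_lit 0) (nat_lit 0)) T4.l7
  (TrL.c (I.pos (nat_lit 0) (nat_lit 0)) T2.l5
  TrL.n)))))) (by decide +kernel)
theorem bx1_9 : BoxOK sI cl4 cl13 cl9 t4 t2 b1_9 :=
  box_mk (TrL.c (I.pos (nat_lit 0) (nat_lit 0)) (xa (xa (xa T4.l6 T4.l6) T4.l6) T4.l6)
  (TrL.c (I.pos (nat_lit 0) (nat_lit 0)) (xa T2.l3 T2.l3)
  (TrL.c (I.pos (nat_lit 0) (nat_lit 0)) T4.l4
  (TrL.c (I.pos (nat_lit 0) (nat_lit 0)) (xa T2.l4 T2.l4)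
  (TrL.c (I.pos (nat_lit 0) (nat_lit 0)) T4.l7
  (TrL.c (I.pos (nat_lit 0) (nat_lit 0)) (xa T2.l5 T2.l5)
  TrL.n)))))) (by decide +kernel)
theorem bx1_10 : BoxOK sI cl4 cl13 cl9 t4 t2 b1_10 :=
  box_mk (TrL.c (I.pos (nat_lit 0) (nat_lit 0)) (xb (xa (xb (xa T4.l8 T4.l8) (xa T4.l8 T4.l8)) (xb (xa T4.l8 T4.l2) (xa T4.l8 T4.l8))) (xa (xb (xa T4.l8 T4.l8) (xa (xb T4.l8 T4.l8) (xs T4.l8 T4.l8))) (xb (xa T4.l8 (xb T4.l8 T4.l8)) (xa (xs T4.l8 (xb T4.l8 T4.l8)) (xs T4.l8 (xb T4.l8 T4.l8))))))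
  (TrL.c (I.pos (nat_lit 0) (nat_lit 0)) (xb (xa T2.l3 T2.l3) (xa T2.l3 T2.l3))
  (TrL.c (I.pos (nat_lit 0) (nat_lit 0)) T4.l4
  (TrL.c (I.pos (nat_lit 0) (nat_lit 0)) (xb T2.l4 (xa T2.l4 (xb T2.l4 T2.l4)))
  (TrL.c (I.pos (nat_lit 0) (nat_lit 0)) T4.l9
  (TrL.c (I.pos (nat_lit 0) (nat_lit 0)) (xb (xa T2.l5 T2.l5) (xa T2.l5 T2.l5))
  TrL.n)))))) (by decide +kernel)
theorem bx1_11 : BoxOK sI cl4 cl13 cl9 t4 t2 b1_11 :=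
  box_mk (TrL.c (I.pos (nat_lit 0) (nat_lit 0)) (xa (xa (xb (xa T4.l6 T4.l6) (xa T4.l6 T4.l6)) (xb T4.l6 T4.l6)) (xa T4.l6 (xb T4.l6 (xa T4.l6 T4.l6))))
  (TrL.c (I.pos (nat_lit 0) (nat_lit 0)) (xa (xa T2.l3 T2.l3) T2.l3)
  (TrL.c (I.pos (nat_lit 0) (nat_lit 0)) (xa T4.l4 T4.l4)
  (TrL.c (I.pos (nat_lit 0) (nat_lit 0)) (xa T2.l4 T2.l4)
  (TrL.c (I.pos (nat_lit 0) (nat_lit 0)) (xa T4.l7 T4.l7)
  (TrL.c (I.pos (nat_lit 0) (nat_lit 0)) (xa (xa T2.l5 T2.l5) T2.l5)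
  TrL.n)))))) (by decide +kernel)
theorem bx1_12 : BoxOK sI cl4 cl13 cl9 t4 t2 b1_12 :=
  box_mk (TrL.c (I.pos (nat_lit 0) (nat_lit 0)) (xa T4.l0 T4.l0)
  (TrL.c (I.pos (nat_lit 0) (nat_lit 0)) T2.l3
  (TrL.c (I.pos (nat_lit 0) (nat_lit 0)) T4.l4
  (TrL.c (I.pos (nat_lit 0) (nat_lit 0)) T2.l4
  (TrL.c (I.pos (nat_lit 0) (nat_lit 0)) T4.l9
  (TrL.c (I.pos (nat_lit 0) (nat_lit 0)) T2.l5
  TrL.n)))))) (by decide +kernel)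
theorem bx1_13 : BoxOK sI cl4 cl13 cl9 t4 t2 b1_13 :=
  box_mk (TrL.c (I.pos (nat_lit 0) (nat_lit 0)) (xb (xa (xb T4.l8 T4.l8) (xb (xa T4.l8 T4.l2) (xa T4.l8 T4.l8))) (xa (xb T4.l8 (xa T4.l8 T4.l8)) (xb (xa T4.l8 T4.l8) (xa T4.l8 T4.l8))))
  (TrL.c (I.pos (nat_lit 0) (nat_lit 0)) (xb T2.l3 T2.l3)
  (TrL.c (I.pos (nat_lit 0) (nat_lit 0)) T4.l4
  (TrL.c (I.pos (nat_lit 0) (nat_lit 0)) (xb (xa T2.l4 T2.l4) T2.l4)
  (TrL.c (I.pos (nat_lit 0) (nat_lit 0)) T4.l9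
  (TrL.c (I.pos (nat_lit 0) (nat_lit 0)) (xb T2.l5 T2.l5)
  TrL.n)))))) (by decide +kernel)
theorem sv1 : StarV sI cl4 cl13 cl9 t4 t2 t1 :=
  (bt_n (bt_n (bt_n (bt_b bx1_0) (bt_n (bt_b bx1_1) (bt_b bx1_2))) (bt_n (bt_n (bt_b bx1_3) (bt_b bx1_4)) (bt_n (bt_b bx1_5) (bt_b bx1_6)))) (bt_n (bt_n (bt_b bx1_7) (bt_n (bt_b bx1_8) (bt_b bx1_9))) (bt_n (bt_n (bt_b bx1_10) (bt_b bx1_11)) (bt_n (bt_b bx1_12) (bt_b bx1_13)))))
def S1 : StarD := StarD.mk cl4 cl13 cl9 4 2 t1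
theorem bx2_0 : BoxOK sI cl9 cl4 cl13 t0 t5 b2_0 :=
  box_mk (TrL.c (I.pos (nat_lit 0) (nat_lit 0)) (xb (xa T0.l7 (xb T0.l0 T0.l0)) (xa (xb T0.l7 (xa (xs T0.l7 T0.l7) (xs T0.l0 T0.l7))) (xb (xa T0.l0 T0.l0) (xa (xs T0.l0 T0.l0) (xs T0.l0 (xb T0.l0 T0.l0))))))
  (TrL.c (I.pos (nat_lit 0) (nat_lit 0)) (xk (xb T5.l1 (xa T5.l1 T5.l1)) (xb T5.l1 T5.l1))
  (TrL.c (I.pos (nat_lit 0) (nat_lit 124588530)) (xR T0.l1 (xR T0.l1 (xR T0.l1 T0.l1)))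
  (TrL.c (I.pos (nat_lit 0) (nat_lit 96881482)) (xR T5.l2 (xR T5.l2 T5.l2))
  (TrL.c (I.pos (nat_lit 0) (nat_lit 0)) (xb (xk (xa T5.l3 T5.l3) (xa T5.l3 T5.l3)) (xk (xa T5.l3 T5.l3) (xa T5.l3 T5.l3)))
  (TrL.c (I.pos (nat_lit 0) (nat_lit 0)) T0.l2
  (TrL.c (I.mix (nat_lit 17240550) (nat_lit 96881482)) (xR T5.l4 (xR T5.l4 (xR T5.l4 T5.l4)))
  (TrL.c (I.mix (nat_lit 17240550) (nat_lit 71940500)) (xR T0.l3 (xR T0.l3 (xR T0.l3 T0.l3)))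
  TrL.n)))))))) (by decide +kernel)
theorem bx2_1 : BoxOK sI cl9 cl4 cl13 t0 t5 b2_1 :=
  box_mk (TrL.c (I.pos (nat_lit 0) (nat_lit 0)) (xb T5.l5 T5.l5)
  (TrL.c (I.pos (nat_lit 0) (nat_lit 0)) T0.l4
  (TrL.c (I.mix (nat_lit 17240550) (nat_lit 96881482)) (xR (xR T5.l6 T5.l6) (xR T5.l6 (xR T5.l6 T5.l6)))
  (TrL.c (I.mix (nat_lit 17240550) (nat_lit 71940500)) (xR T0.l11 T0.l1)
  TrL.n)))) (by decide +kernel)
theorem bx2_2 : BoxOK sI cl9 cl4 cl13 t0 t5 b2_2 :=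
  box_mk (TrL.c (I.pos (nat_lit 0) (nat_lit 0)) (xb (xa T0.l6 T0.l6) T0.l7)
  (TrL.c (I.pos (nat_lit 0) (nat_lit 0)) T5.l5
  (TrL.c (I.pos (nat_lit 0) (nat_lit 124588530)) (xR T0.l1 T0.l1)
  (TrL.c (I.pos (nat_lit 0) (nat_lit 96881482)) T5.l4
  (TrL.c (I.pos (nat_lit 0) (nat_lit 0)) T5.l8
  (TrL.c (I.pos (nat_lit 0) (nat_lit 0)) T0.l2
  (TrL.c (I.mix (nat_lit 17240550) (nat_lit 96881482)) T5.l4
  (TrL.c (I.mix (nat_lit 17240550) (nat_lit 71940500)) T0.l11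
  TrL.n)))))))) (by decide +kernel)
theorem bx2_3 : BoxOK sI cl9 cl4 cl13 t0 t5 b2_3 :=
  box_mk (TrL.c (I.pos (nat_lit 0) (nat_lit 0)) (xa (xb (xa T0.l7 T0.l7) (xa T0.l7 T0.l7)) T0.l7)
  (TrL.c (I.pos (nat_lit 0) (nat_lit 0)) (xa T5.l1 T5.l1)
  (TrL.c (I.pos (nat_lit 0) (nat_lit 124588530)) (xR T0.l1 (xR T0.l1 (xR T0.l1 (xa T0.l1 T0.l1))))
  (TrL.c (I.pos (nat_lit 0) (nat_lit 96881482)) (xR T5.l4 (xR T5.l4 (xR T5.l2 T5.l6)))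
  (TrL.c (I.pos (nat_lit 0) (nat_lit 0)) (xa T5.l8 (xb T5.l8 T5.l8))
  (TrL.c (I.pos (nat_lit 0) (nat_lit 0)) T0.l2
  (TrL.c (I.mix (nat_lit 17240550) (nat_lit 96881482)) (xR T5.l4 (xR T5.l4 (xR T5.l4 T5.l4)))
  (TrL.c (I.mix (nat_lit 17240550) (nat_lit 71940500)) T0.l11
  TrL.n)))))))) (by decide +kernel)
theorem bx2_4 : BoxOK sI cl9 cl4 cl13 t0 t5 b2_4 :=
  box_mk (TrL.c (I.pos (nat_lit 0) (nat_lit 0)) (xb (xa (xb T0.l7 T0.l7) (xb (xa T0.l7 T0.l7) (xa T0.l7 T0.l7))) (xa (xb T0.l7 (xa T0.l7 (xb T0.l7 T0.l7))) (xb (xa T0.l7 T0.l7) (xa (xb T0.l7 (xs T0.l7 T0.l7)) (xb T0.l7 (xs T0.l7 T0.l7))))))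
  (TrL.c (I.pos (nat_lit 0) (nat_lit 0)) (xb (xa T5.l1 T5.l1) (xa T5.l1 (xk T5.l1 T5.l1)))
  (TrL.c (I.pos (nat_lit 0) (nat_lit 124588530)) (xR T0.l1 (xR T0.l1 (xb (xR T0.l1 T0.l1) (xR T0.l1 (xa T0.l1 T0.l1)))))
  (TrL.c (I.pos (nat_lit 0) (nat_lit 96881482)) (xR T5.l2 (xR T5.l2 (xR T5.l2 T5.l2)))
  (TrL.c (I.pos (nat_lit 0) (nat_lit 0)) (xb (xa T5.l8 (xk T5.l8 T5.l8)) (xa T5.l8 (xk (xb T5.l8 (xs T5.l8 T5.l8)) (xb T5.l8 (xs T5.l8 (xb T5.l8 T5.l8))))))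
  (TrL.c (I.pos (nat_lit 0) (nat_lit 0)) (xb T0.l2 T0.l2)
  (TrL.c (I.mix (nat_lit 17240550) (nat_lit 96881482)) (xR T5.l4 (xR T5.l4 (xR T5.l4 (xb T5.l4 T5.l4))))
  (TrL.c (I.mix (nat_lit 17240550) (nat_lit 71940500)) (xR T0.l3 (xR T0.l3 (xb T0.l9 T0.l9)))
  TrL.n)))))))) (by decide +kernel)
theorem bx2_5 : BoxOK sI cl9 cl4 cl13 t0 t5 b2_5 :=
  box_mk (TrL.c (I.pos (nat_lit 0) (nat_lit 0)) (xa T5.l1 T5.l1)
  (TrL.c (I.pos (nat_lit 0) (nat_lit 0)) T0.l4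
  (TrL.c (I.mix (nat_lit 17240550) (nat_lit 96881482)) (xR T5.l6 (xR T5.l6 (xR T5.l6 T5.l6)))
  (TrL.c (I.mix (nat_lit 17240550) (nat_lit 71940500)) (xR (xR T0.l5 T0.l1) T0.l1)
  TrL.n)))) (by decide +kernel)
theorem bx2_6 : BoxOK sI cl9 cl4 cl13 t0 t5 b2_6 :=
  box_mk (TrL.c (I.pos (nat_lit 0) (nat_lit 0)) (xa (xb (xa T0.l0 T0.l0) (xa (xb T0.l0 T0.l0) (xb T0.l0 T0.l0))) (xb (xa T0.l0 T0.l0) (xa (xb T0.l0 T0.l0) (xb T0.l0 T0.l10))))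
  (TrL.c (I.pos (nat_lit 0) (nat_lit 0)) (xa (xb T5.l1 T5.l1) (xk (xb T5.l1 T5.l1) T5.l10))
  (TrL.c (I.pos (nat_lit 0) (nat_lit 124588530)) (xR T0.l11 (xR T0.l1 (xR T0.l1 T0.l11)))
  (TrL.c (I.pos (nat_lit 0) (nat_lit 96881482)) (xR T5.l2 (xR T5.l2 (xR T5.l2 T5.l2)))
  (TrL.c (I.pos (nat_lit 0) (nat_lit 0)) (xa (xb (xk (xa T5.l3 T5.l3) (xa T5.l3 T5.l3)) (xk T5.l3 T5.l3)) (xb (xk (xa T5.l3 (xb T5.l3 T5.l3)) (xa T5.l3 (xb T5.l3 T5.l3))) (xk (xa T5.l3 (xb T5.l3 T5.l3)) (xa T5.l3 (xb T5.l3 T5.l3)))))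
  (TrL.c (I.pos (nat_lit 0) (nat_lit 0)) (xk (xa T0.l2 T0.l2) (xa T0.l2 T0.l2))
  (TrL.c (I.mix (nat_lit 17240550) (nat_lit 96881482)) (xR T5.l4 (xR T5.l4 (xR T5.l4 (xk (xb T5.l4 (xa T5.l4 T5.l4)) T5.l4))))
  (TrL.c (I.mix (nat_lit 17240550) (nat_lit 71940500)) (xR T0.l3 (xR T0.l3 (xR T0.l3 T0.l3)))
  TrL.n)))))))) (by decide +kernel)
theorem bx2_7 : BoxOK sI cl9 cl4 cl13 t0 t5 b2_7 :=
  box_mk (TrL.c (I.pos (nat_lit 0) (nat_lit 0)) (xb (xa T0.l6 T0.l6) T0.l6)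
  (TrL.c (I.pos (nat_lit 0) (nat_lit 0)) T5.l5
  (TrL.c (I.pos (nat_lit 0) (nat_lit 124588530)) T0.l1
  (TrL.c (I.pos (nat_lit 0) (nat_lit 96881482)) T5.l4
  (TrL.c (I.pos (nat_lit 0) (nat_lit 0)) T5.l7
  (TrL.c (I.pos (nat_lit 0) (nat_lit 0)) T0.l2
  (TrL.c (I.mix (nat_lit 17240550) (nat_lit 96881482)) T5.l4
  (TrL.c (I.mix (nat_lit 17240550) (nat_lit 71940500)) T0.l3
  TrL.n)))))))) (by decide +kernel)
theorem bx2_8 : BoxOK sI cl9 cl4 cl13 t0 t5 b2_8 :=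
  box_mk (TrL.c (I.pos (nat_lit 0) (nat_lit 0)) (xa (xb T0.l7 (xb T0.l7 (xa T0.l7 T0.l0))) (xb (xb T0.l0 T0.l0) (xb (xa T0.l0 T0.l0) (xa T0.l0 T0.l0))))
  (TrL.c (I.pos (nat_lit 0) (nat_lit 0)) (xk T5.l1 T5.l1)
  (TrL.c (I.pos (nat_lit 0) (nat_lit 124588530)) (xR T0.l1 T0.l11)
  (TrL.c (I.pos (nat_lit 0) (nat_lit 96881482)) (xR T5.l2 T5.l2)
  (TrL.c (I.pos (nat_lit 0) (nat_lit 0)) (xk T5.l3 T5.l3)
  (TrL.c (I.pos (nat_lit 0) (nat_lit 0)) T0.l2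
  (TrL.c (I.mix (nat_lit 17240550) (nat_lit 96881482)) (xR T5.l4 (xR T5.l4 T5.l4))
  (TrL.c (I.mix (nat_lit 17240550) (nat_lit 71940500)) (xR T0.l3 T0.l3)
  TrL.n)))))))) (by decide +kernel)
theorem bx2_9 : BoxOK sI cl9 cl4 cl13 t0 t5 b2_9 :=
  box_mk (TrL.c (I.pos (nat_lit 0) (nat_lit 0)) (xb T0.l6 T0.l7)
  (TrL.c (I.pos (nat_lit 0) (nat_lit 0)) T5.l1
  (TrL.c (I.pos (nat_lit 0) (nat_lit 124588530)) (xR T0.l1 T0.l1)
  (TrL.c (I.pos (nat_lit 0) (nat_lit 96881482)) T5.l4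
  (TrL.c (I.pos (nat_lit 0) (nat_lit 0)) T5.l8
  (TrL.c (I.pos (nat_lit 0) (nat_lit 0)) T0.l2
  (TrL.c (I.mix (nat_lit 17240550) (nat_lit 96881482)) T5.l4
  (TrL.c (I.mix (nat_lit 17240550) (nat_lit 71940500)) T0.l3
  TrL.n)))))))) (by decide +kernel)
theorem sv2 : StarV sI cl9 cl4 cl13 t0 t5 t2 :=
  (bt_n (bt_n (bt_n (bt_b bx2_0) (bt_b bx2_1)) (bt_n (bt_b bx2_2) (bt_n (bt_b bx2_3) (bt_b bx2_4)))) (bt_n (bt_n (bt_b bx2_5) (bt_b bx2_6)) (bt_n (bt_b bx2_7) (bt_n (bt_b bx2_8) (bt_b bx2_9)))))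
def S2 : StarD := StarD.mk cl9 cl4 cl13 0 5 t2
theorem bx3_0 : BoxOK sI cl9 cl13 cl4 t5 t0 b3_0 :=
  box_mk (TrL.c (I.pos (nat_lit 0) (nat_lit 0)) (xa (xa (xb (xc (xa T5.l0 T5.l0) (xa T5.l0 T5.l0)) (xs (xa (xb T5.l0 T5.l0) T5.l0) (xa (xb T5.l0 T5.l0) (xc T5.l0 T5.l0)))) (xb (xa T5.l12 T5.l12) (xs (xa T5.l0 T5.l0) (xa (xc T5.l0 T5.l0) T5.l12)))) (xa (xb (xa (xc T5.l0 T5.l0) (xc T5.l0 T5.l0)) (xs (xa T5.l0 T5.l0) (xa (xc T5.l0 T5.l0) (xc T5.l0 T5.l0)))) (xb (xa T5.l0 T5.l0) (xs (xa T5.l0 T5.l0) (xa (xc T5.l0 T5.l0) (xc T5.l0 T5.l0))))))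
  (TrL.c (I.pos (nat_lit 0) (nat_lit 0)) (xa (xk (xa T0.l8 T0.l8) (xb T0.l8 (xa T0.l8 T0.l8))) (xk (xa T0.l8 (xb T0.l8 T0.l8)) (xb T0.l8 (xa T0.l8 T0.l8))))
  (TrL.c (I.pos (nat_lit 0) (nat_lit 124588530)) (xR T5.l4 (xR T5.l4 (xR T5.l4 T5.l4)))
  (TrL.c (I.pos (nat_lit 0) (nat_lit 96881482)) (xR T0.l9 (xR T0.l9 (xR T0.l9 (xk T0.l9 T0.l9))))
  (TrL.c (I.pos (nat_lit 0) (nat_lit 0)) (xa (xk T0.l13 T0.l10) (xk T0.l10 T0.l10))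
  (TrL.c (I.pos (nat_lit 0) (nat_lit 0)) T5.l10
  (TrL.c (I.mix (nat_lit 17240550) (nat_lit 96881482)) (xR T0.l11 (xR T0.l11 T0.l11))
  (TrL.c (I.mix (nat_lit 17240550) (nat_lit 71940500)) (xR T5.l13 T5.l2)
  TrL.n)))))))) (by decide +kernel)
theorem bx3_1 : BoxOK sI cl9 cl13 cl4 t5 t0 b3_1 :=
  box_mk (TrL.c (I.pos (nat_lit 0) (nat_lit 0)) (xa (xb (xa T5.l11 T5.l11) (xa T5.l11 T5.l11)) (xb T5.l0 (xa T5.l0 T5.l0)))
  (TrL.c (I.pos (nat_lit 0) (nat_lit 0)) (xa (xk T0.l8 T0.l8) (xk T0.l8 T0.l8))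
  (TrL.c (I.pos (nat_lit 0) (nat_lit 124588530)) (xR T5.l4 (xR T5.l4 T5.l4))
  (TrL.c (I.pos (nat_lit 0) (nat_lit 96881482)) (xR T0.l9 (xR T0.l9 T0.l9))
  (TrL.c (I.pos (nat_lit 0) (nat_lit 0)) (xa (xk T0.l12 T0.l12) (xk (xb T0.l12 T0.l12) T0.l12))
  (TrL.c (I.pos (nat_lit 0) (nat_lit 0)) T5.l10
  (TrL.c (I.mix (nat_lit 17240550) (nat_lit 96881482)) (xR T0.l11 (xR T0.l11 T0.l11))
  (TrL.c (I.mix (nat_lit 17240550) (nat_lit 71940500)) (xR T5.l13 T5.l2)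
  TrL.n)))))))) (by decide +kernel)
theorem bx3_2 : BoxOK sI cl9 cl13 cl4 t5 t0 b3_2 :=
  box_mk (TrL.c (I.pos (nat_lit 0) (nat_lit 0)) (xa (xa T5.l11 T5.l11) (xa T5.l11 T5.l11))
  (TrL.c (I.pos (nat_lit 0) (nat_lit 0)) (xa T0.l8 T0.l8)
  (TrL.c (I.pos (nat_lit 0) (nat_lit 124588530)) (xR T5.l4 (xR T5.l4 (xa (xR T5.l9 T5.l9) (xR T5.l4 T5.l9))))
  (TrL.c (I.pos (nat_lit 0) (nat_lit 96881482)) (xR T0.l9 (xR T0.l9 (xR T0.l9 T0.l9)))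
  (TrL.c (I.pos (nat_lit 0) (nat_lit 0)) (xa T0.l12 T0.l12)
  (TrL.c (I.pos (nat_lit 0) (nat_lit 0)) T5.l10
  (TrL.c (I.mix (nat_lit 17240550) (nat_lit 96881482)) (xR T0.l11 (xR T0.l11 (xa T0.l11 T0.l11)))
  (TrL.c (I.mix (nat_lit 17240550) (nat_lit 71940500)) T5.l4
  TrL.n)))))))) (by decide +kernel)
theorem bx3_3 : BoxOK sI cl9 cl13 cl4 t5 t0 b3_3 :=
  box_mk (TrL.c (I.pos (nat_lit 0) (nat_lit 0)) (xb (xa (xb (xa T5.l12 T5.l12) (xa T5.l12 T5.l12)) (xb (xa T5.l12 (xs T5.l12 T5.l12)) (xa T5.l12 (xs T5.l12 T5.l12)))) (xa (xb (xa (xs T5.l12 T5.l12) (xs T5.l12 T5.l12)) (xa (xs T5.l12 (xc T5.l12 T5.l12)) (xs T5.l12 (xc T5.l12 T5.l12)))) (xa (xb (xs T5.l12 T5.l12) (xs T5.l12 T5.l12)) (xs T5.l12 (xb (xc T5.l12 T5.l12) (xk T5.l12 T5.l12))))))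
  (TrL.c (I.pos (nat_lit 0) (nat_lit 0)) (xk (xb (xa T0.l8 T0.l8) (xa T0.l8 T0.l8)) (xb (xa T0.l8 T0.l8) (xa T0.l8 T0.l8)))
  (TrL.c (I.pos (nat_lit 0) (nat_lit 124588530)) (xR T5.l4 (xR T5.l4 (xR T5.l4 (xR T5.l9 T5.l9))))
  (TrL.c (I.pos (nat_lit 0) (nat_lit 96881482)) (xR T0.l9 (xR T0.l9 (xR T0.l9 T0.l9)))
  (TrL.c (I.pos (nat_lit 0) (nat_lit 0)) (xk (xb T0.l13 T0.l13) (xb T0.l13 (xb T0.l13 T0.l13)))
  (TrL.c (I.pos (nat_lit 0) (nat_lit 0)) T5.l10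
  (TrL.c (I.mix (nat_lit 17240550) (nat_lit 96881482)) (xR T0.l11 (xR T0.l11 (xR T0.l11 T0.l11)))
  (TrL.c (I.mix (nat_lit 17240550) (nat_lit 71940500)) (xR T5.l13 (xR T5.l13 (xR T5.l13 T5.l13)))
  TrL.n)))))))) (by decide +kernel)
theorem bx3_4 : BoxOK sI cl9 cl13 cl4 t5 t0 b3_4 :=
  box_mk (TrL.c (I.pos (nat_lit 0) (nat_lit 0)) (xa (xa (xb T5.l11 (xa T5.l11 T5.l11)) (xb T5.l11 (xa T5.l11 T5.l11))) (xa (xa T5.l11 (xb T5.l11 T5.l11)) (xa (xb T5.l11 T5.l11) (xb T5.l11 T5.l11))))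
  (TrL.c (I.pos (nat_lit 0) (nat_lit 0)) (xa (xa T0.l8 T0.l8) (xa T0.l8 (xk T0.l8 T0.l8)))
  (TrL.c (I.pos (nat_lit 0) (nat_lit 124588530)) (xR T5.l4 (xR T5.l4 (xa T5.l9 (xR T5.l4 T5.l9))))
  (TrL.c (I.pos (nat_lit 0) (nat_lit 96881482)) (xR T0.l9 (xR T0.l9 (xa T0.l9 T0.l9)))
  (TrL.c (I.pos (nat_lit 0) (nat_lit 0)) (xa (xa T0.l12 T0.l12) T0.l12)
  (TrL.c (I.pos (nat_lit 0) (nat_lit 0)) (xa T5.l10 T5.l10)
  (TrL.c (I.mix (nat_lit 17240550) (nat_lit 96881482)) (xR T0.l11 (xR T0.l11 (xa T0.l11 T0.l11)))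
  (TrL.c (I.mix (nat_lit 17240550) (nat_lit 71940500)) T5.l4
  TrL.n)))))))) (by decide +kernel)
theorem bx3_5 : BoxOK sI cl9 cl13 cl4 t5 t0 b3_5 :=
  box_mk (TrL.c (I.pos (nat_lit 0) (nat_lit 0)) (xb (xa (xb (xa T5.l12 T5.l12) (xa T5.l12 T5.l12)) (xb (xa (xs T5.l12 T5.l12) (xs T5.l12 (xb T5.l12 T5.l12))) (xa T5.l12 T5.l12))) (xa (xb (xa T5.l12 T5.l12) (xa (xs T5.l12 T5.l12) (xs T5.l12 T5.l12))) (xb (xa T5.l12 T5.l12) (xa T5.l12 T5.l12))))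
  (TrL.c (I.pos (nat_lit 0) (nat_lit 0)) (xb (xk (xa T0.l8 T0.l8) T0.l8) (xk (xa T0.l8 T0.l8) (xa T0.l8 T0.l8)))
  (TrL.c (I.pos (nat_lit 0) (nat_lit 124588530)) (xR T5.l4 (xR T5.l4 (xR T5.l4 T5.l4)))
  (TrL.c (I.pos (nat_lit 0) (nat_lit 96881482)) (xR T0.l9 (xR T0.l9 (xR T0.l9 T0.l9)))
  (TrL.c (I.pos (nat_lit 0) (nat_lit 0)) (xk (xb (xa T0.l13 T0.l13) T0.l13) (xb (xa T0.l13 T0.l13) T0.l13))
  (TrL.c (I.pos (nat_lit 0) (nat_lit 0)) T5.l10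
  (TrL.c (I.mix (nat_lit 17240550) (nat_lit 96881482)) (xR T0.l11 (xR T0.l11 (xR T0.l11 (xk T0.l11 T0.l11))))
  (TrL.c (I.mix (nat_lit 17240550) (nat_lit 71940500)) (xR T5.l13 (xR T5.l13 (xR T5.l13 T5.l13)))
  TrL.n)))))))) (by decide +kernel)
theorem bx3_6 : BoxOK sI cl9 cl13 cl4 t5 t0 b3_6 :=
  box_mk (TrL.c (I.pos (nat_lit 0) (nat_lit 0)) (xa T5.l11 (xa T5.l11 T5.l11))
  (TrL.c (I.pos (nat_lit 0) (nat_lit 0)) (xa T0.l8 T0.l8)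
  (TrL.c (I.pos (nat_lit 0) (nat_lit 124588530)) (xR T5.l4 (xR T5.l4 (xa T5.l9 (xR T5.l4 T5.l9))))
  (TrL.c (I.pos (nat_lit 0) (nat_lit 96881482)) (xR T0.l9 (xR T0.l9 T0.l9))
  (TrL.c (I.pos (nat_lit 0) (nat_lit 0)) (xa T0.l12 T0.l12)
  (TrL.c (I.pos (nat_lit 0) (nat_lit 0)) T5.l10
  (TrL.c (I.mix (nat_lit 17240550) (nat_lit 96881482)) (xR T0.l11 (xR T0.l11 (xa T0.l11 T0.l11)))
  (TrL.c (I.mix (nat_lit 17240550) (nat_lit 71940500)) T5.l4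
  TrL.n)))))))) (by decide +kernel)
theorem bx3_7 : BoxOK sI cl9 cl13 cl4 t5 t0 b3_7 :=
  box_mk (TrL.c (I.pos (nat_lit 0) (nat_lit 0)) (xa (xb T5.l0 T5.l0) T5.l0)
  (TrL.c (I.pos (nat_lit 0) (nat_lit 0)) T0.l8
  (TrL.c (I.pos (nat_lit 0) (nat_lit 124588530)) (xR T5.l4 (xR T5.l4 T5.l4))
  (TrL.c (I.pos (nat_lit 0) (nat_lit 96881482)) (xR T0.l9 T0.l9)
  (TrL.c (I.pos (nat_lit 0) (nat_lit 0)) (xk T0.l12 T0.l12)
  (TrL.c (I.pos (nat_lit 0) (nat_lit 0)) T5.l10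
  (TrL.c (I.mix (nat_lit 17240550) (nat_lit 96881482)) (xR T0.l11 T0.l11)
  (TrL.c (I.mix (nat_lit 17240550) (nat_lit 71940500)) (xR T5.l13 T5.l2)
  TrL.n)))))))) (by decide +kernel)
theorem bx3_8 : BoxOK sI cl9 cl13 cl4 t5 t0 b3_8 :=
  box_mk (TrL.c (I.pos (nat_lit 0) (nat_lit 0)) T5.l0
  (TrL.c (I.pos (nat_lit 0) (nat_lit 0)) T0.l8
  (TrL.c (I.pos (nat_lit 0) (nat_lit 124588530)) (xR T5.l4 (xR T5.l4 T5.l4))
  (TrL.c (I.pos (nat_lit 0) (nat_lit 96881482)) (xR T0.l9 T0.l9)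
  (TrL.c (I.pos (nat_lit 0) (nat_lit 0)) (xk T0.l13 T0.l13)
  (TrL.c (I.pos (nat_lit 0) (nat_lit 0)) T5.l10
  (TrL.c (I.mix (nat_lit 17240550) (nat_lit 96881482)) (xR T0.l11 T0.l11)
  (TrL.c (I.mix (nat_lit 17240550) (nat_lit 71940500)) (xR T5.l13 T5.l2)
  TrL.n)))))))) (by decide +kernel)
theorem bx3_9 : BoxOK sI cl9 cl13 cl4 t5 t0 b3_9 :=
  box_mk (TrL.c (I.pos (nat_lit 0) (nat_lit 0)) (xa T5.l11 (xa T5.l11 T5.l11))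
  (TrL.c (I.pos (nat_lit 0) (nat_lit 0)) (xa T0.l8 T0.l8)
  (TrL.c (I.pos (nat_lit 0) (nat_lit 124588530)) (xR T5.l4 (xR T5.l4 (xR T5.l4 T5.l9)))
  (TrL.c (I.pos (nat_lit 0) (nat_lit 96881482)) (xR T0.l9 T0.l9)
  (TrL.c (I.pos (nat_lit 0) (nat_lit 0)) T0.l12
  (TrL.c (I.pos (nat_lit 0) (nat_lit 0)) T5.l10
  (TrL.c (I.mix (nat_lit 17240550) (nat_lit 96881482)) (xR T0.l11 T0.l11)
  (TrL.c (I.mix (nat_lit 17240550) (nat_lit 71940500)) T5.l4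
  TrL.n)))))))) (by decide +kernel)
theorem bx3_10 : BoxOK sI cl9 cl13 cl4 t5 t0 b3_10 :=
  box_mk (TrL.c (I.pos (nat_lit 0) (nat_lit 0)) (xb (xa (xb T5.l11 T5.l11) (xb (xa T5.l11 T5.l11) (xa T5.l11 T5.l11))) (xa (xb T5.l11 T5.l11) (xb T5.l11 T5.l11)))
  (TrL.c (I.pos (nat_lit 0) (nat_lit 0)) (xb (xk T0.l8 T0.l8) T0.l8)
  (TrL.c (I.pos (nat_lit 0) (nat_lit 124588530)) (xR T5.l4 (xR T5.l4 (xR T5.l4 T5.l9)))
  (TrL.c (I.pos (nat_lit 0) (nat_lit 96881482)) (xR T0.l9 (xR T0.l9 T0.l9))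
  (TrL.c (I.pos (nat_lit 0) (nat_lit 0)) (xb (xk (xa T0.l12 T0.l12) T0.l12) (xk T0.l12 T0.l12))
  (TrL.c (I.pos (nat_lit 0) (nat_lit 0)) T5.l10
  (TrL.c (I.mix (nat_lit 17240550) (nat_lit 96881482)) (xR T0.l11 (xR T0.l11 T0.l11))
  (TrL.c (I.mix (nat_lit 17240550) (nat_lit 71940500)) (xR T5.l13 T5.l2)
  TrL.n)))))))) (by decide +kernel)
theorem bx3_11 : BoxOK sI cl9 cl13 cl4 t5 t0 b3_11 :=
  box_mk (TrL.c (I.pos (nat_lit 0) (nat_lit 0)) (xa T5.l11 T5.l11)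
  (TrL.c (I.pos (nat_lit 0) (nat_lit 0)) (xa T0.l8 T0.l8)
  (TrL.c (I.pos (nat_lit 0) (nat_lit 124588530)) (xR T5.l4 (xR T5.l4 (xR T5.l4 T5.l9)))
  (TrL.c (I.pos (nat_lit 0) (nat_lit 96881482)) (xR T0.l9 T0.l9)
  (TrL.c (I.pos (nat_lit 0) (nat_lit 0)) (xa T0.l12 T0.l12)
  (TrL.c (I.pos (nat_lit 0) (nat_lit 0)) T5.l10
  (TrL.c (I.mix (nat_lit 17240550) (nat_lit 96881482)) (xR T0.l11 T0.l11)
  (TrL.c (I.mix (nat_lit 17240550) (nat_lit 71940500)) T5.l4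
  TrL.n)))))))) (by decide +kernel)
theorem c3_12_0 : chkTag sI cl9 cl13 cl4 t5 b3_12 (tg true true false RT.r2) (I.pos (nat_lit 0) (nat_lit 0))
  (xa (xa (xb (xa (xb T5.l0 T5.l0) (xb T5.l0 T5.l0)) (xa (xb T5.l0 (xs T5.l0 T5.l0)) (xb (xs T5.l0 T5.l0) (xs T5.l0 T5.l0)))) (xb (xa (xb T5.l0 T5.l0) (xb T5.l0 T5.l0)) (xa (xs T5.l0 (xb T5.l0 T5.l0)) (xs T5.l0 (xb T5.l0 T5.l0))))) (xa (xb (xa (xb T5.l0 T5.l0) (xb T5.l0 T5.l0)) (xs (xa T5.l0 T5.l0) (xa (xb T5.l0 T5.l0) (xb T5.l0 T5.l0)))) (xb (xa (xs T5.l0 T5.l0) (xs T5.l0 T5.l0)) (xs (xa T5.l0 T5.l0) (xa T5.l3 (xb T5.l0 T5.l0)))))) = true := by decide +kernel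
theorem c3_12_1 : chkTag sI cl9 cl13 cl4 t0 b3_12 (tg true false false RT.r3) (I.pos (nat_lit 0) (nat_lit 0))
  (xa (xk (xb (xa T0.l8 T0.l8) (xa T0.l8 T0.l8)) (xb T0.l8 T0.l8)) (xk (xa (xb T0.l2 T0.l2) (xb T0.l2 T0.l2)) (xa (xb T0.l8 T0.l8) (xb T0.l2 T0.l2)))) = true := by decide +kernel
theorem c3_12_2 : chkTag sI cl9 cl13 cl4 t5 b3_12 (Tag.mk true true false RT.tl RT.r4) (I.pos (nat_lit 0) (nat_lit 124588530))
  (xR (xR T5.l4 T5.l4) (xR T5.l4 T5.l4)) = true := by decide +kernel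
theorem c3_12_3 : chkTag sI cl9 cl13 cl4 t0 b3_12 (Tag.mk true false false RT.tl RT.r5) (I.pos (nat_lit 0) (nat_lit 96881482))
  (xR (xR T0.l9 T0.l9) (xR T0.l9 (xR T0.l9 (xa T0.l9 (xk T0.l9 T0.l9))))) = true := by decide +kernel
theorem c3_12_4 : chkTag sI cl9 cl13 cl4 t0 b3_12 (tg false false false RT.r3) (I.pos (nat_lit 0) (nat_lit 0))
  (xa (xk (xb (xa T0.l10 T0.l10) T0.l10) (xb (xa T0.l10 T0.l10) T0.l10)) (xk (xb (xa T0.l10 (xk (xb T0.l10 T0.l10) T0.l10)) (xa T0.l10 (xk (xb T0.l10 T0.l10) (xb T0.l10 T0.l10)))) (xb (xa T0.l10 (xk T0.l10 T0.l10)) (xa T0.l10 (xk T0.l10 T0.l10))))) = true := by decide +kernel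
theorem c3_12_5 : chkTag sI cl9 cl13 cl4 t5 b3_12 (tg false true false RT.r4) (I.pos (nat_lit 0) (nat_lit 0))
  (xk (xa T5.l10 T5.l10) (xa T5.l10 T5.l10)) = true := by decide +kernel
theorem c3_12_6 : chkTag sI cl9 cl13 cl4 t0 b3_12 (Tag.mk false false false RT.tl RT.r5) (I.mix (nat_lit 17240550) (nat_lit 96881482))
  (xR T0.l11 (xR T0.l11 (xR T0.l11 (xk (xR T0.l11 T0.l11) T0.l11)))) = true := by decide +kernel
theorem c3_12_7 : chkTag sI cl9 cl13 cl4 t5 b3_12 (Tag.mk false true false RT.tl RT.r6) (I.mix (nat_lit 17240550) (nat_lit 71940500))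
  (xR (xR T5.l13 T5.l13) (xR T5.l13 (xR T5.l13 T5.l13))) = true := by decide +kernel
theorem bx3_12 : BoxOK sI cl9 cl13 cl4 t5 t0 b3_12 :=
  box_mk' [(tg true true false RT.r2), (tg true false false RT.r3), (Tag.mk true true false RT.tl RT.r4), (Tag.mk true false false RT.tl RT.r5), (tg false false false RT.r3), (tg false true false RT.r4), (Tag.mk false false false RT.tl RT.r5), (Tag.mk false true false RT.tl RT.r6)] rfl (allL_c (ex_mk c3_12_0) (allL_c (ex_mk c3_12_1) (allL_c (ex_mk c3_12_2) (allL_c (ex_mk c3_12_3) (allL_c (ex_mk c3_12_4) (allL_c (ex_mk c3_12_5) (allL_c (ex_mk c3_12_6) (allL_c (ex_mk c3_12_7) allL_n))))))))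
theorem bx3_13 : BoxOK sI cl9 cl13 cl4 t5 t0 b3_13 :=
  box_mk (TrL.c (I.pos (nat_lit 0) (nat_lit 0)) (xa (xb (xa T5.l12 (xs T5.l0 T5.l12)) (xs (xa T5.l12 T5.l12) (xa T5.l12 (xb T5.l12 T5.l12)))) (xb (xa (xs T5.l0 (xb T5.l0 T5.l0)) (xs T5.l0 (xb T5.l0 T5.l0))) (xs (xa (xb T5.l0 T5.l12) (xk T5.l0 T5.l0)) (xa (xb (xk T5.l0 T5.l0) (xk T5.l0 T5.l0)) (xb (xk T5.l0 T5.l0) (xk T5.l0 T5.l0))))))
  (TrL.c (I.pos (nat_lit 0) (nat_lit 0)) (xk (xa T0.l8 T0.l8) (xa T0.l8 T0.l8))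
  (TrL.c (I.pos (nat_lit 0) (nat_lit 124588530)) (xR T5.l4 (xR T5.l4 (xR T5.l4 T5.l4)))
  (TrL.c (I.pos (nat_lit 0) (nat_lit 96881482)) (xR T0.l9 (xR T0.l9 (xR T0.l9 T0.l9)))
  (TrL.c (I.pos (nat_lit 0) (nat_lit 0)) (xk (xa T0.l10 T0.l10) (xa T0.l10 T0.l10))
  (TrL.c (I.pos (nat_lit 0) (nat_lit 0)) T5.l10
  (TrL.c (I.mix (nat_lit 17240550) (nat_lit 96881482)) (xR T0.l11 (xR T0.l11 (xR T0.l11 T0.l11)))
  (TrL.c (I.mix (nat_lit 17240550) (nat_lit 71940500)) (xR T5.l13 T5.l2)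
  TrL.n)))))))) (by decide +kernel)
theorem sv3 : StarV sI cl9 cl13 cl4 t5 t0 t3 :=
  (bt_n (bt_n (bt_n (bt_b bx3_0) (bt_n (bt_b bx3_1) (bt_b bx3_2))) (bt_n (bt_n (bt_b bx3_3) (bt_b bx3_4)) (bt_n (bt_b bx3_5) (bt_b bx3_6)))) (bt_n (bt_n (bt_b bx3_7) (bt_n (bt_b bx3_8) (bt_b bx3_9))) (bt_n (bt_n (bt_b bx3_10) (bt_b bx3_11)) (bt_n (bt_b bx3_12) (bt_b bx3_13)))))
def S3 : StarD := StarD.mk cl9 cl13 cl4 5 0 t3
theorem bx4_0 : BoxOK sI cl13 cl4 cl9 t1 t3 b4_0 :=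
  box_mk (TrL.c (I.pos (nat_lit 0) (nat_lit 0)) (xb (xa (xb T1.l4 T1.l4) (xb T1.l0 (xa T1.l0 T1.l0))) (xa (xb T1.l4 (xa T1.l4 T1.l4)) (xb (xa T1.l0 T1.l0) (xa (xs T1.l0 T1.l0) (xs T1.l0 T1.l0)))))
  (TrL.c (I.pos (nat_lit 0) (nat_lit 0)) (xk (xb T3.l1 T3.l1) T3.l1)
  (TrL.c (I.pos (nat_lit 0) (nat_lit 134217730)) (xR T1.l1 (xR T1.l1 T1.l11))
  (TrL.c (I.pos (nat_lit 0) (nat_lit 110514882)) (xR T3.l2 (xR T3.l2 T3.l2))
  (TrL.c (I.pos (nat_lit 0) (nat_lit 0)) (xb (xk T3.l3 T3.l3) (xk (xa T3.l3 T3.l3) T3.l3))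
  (TrL.c (I.pos (nat_lit 0) (nat_lit 0)) T1.l2
  (TrL.c (I.mix (nat_lit 8088324) (nat_lit 110514882)) (xR T3.l4 (xR T3.l4 (xR T3.l4 T3.l4)))
  (TrL.c (I.mix (nat_lit 8088324) (nat_lit 89478486)) (xR T1.l3 (xR T1.l3 (xR T1.l3 T1.l3)))
  TrL.n)))))))) (by decide +kernel)
theorem bx4_1 : BoxOK sI cl13 cl4 cl9 t1 t3 b4_1 :=
  box_mk (TrL.c (I.pos (nat_lit 0) (nat_lit 0)) (xa (xb (xa T1.l4 T1.l4) (xa T1.l4 T1.l4)) T1.l4)
  (TrL.c (I.pos (nat_lit 0) (nat_lit 0)) (xa T3.l1 T3.l1)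
  (TrL.c (I.pos (nat_lit 0) (nat_lit 134217730)) (xR T1.l1 (xR T1.l1 (xR T1.l1 (xa T1.l1 T1.l1))))
  (TrL.c (I.pos (nat_lit 0) (nat_lit 110514882)) (xR T3.l4 (xR T3.l4 (xR T3.l2 T3.l2)))
  (TrL.c (I.pos (nat_lit 0) (nat_lit 0)) (xa T3.l5 (xb T3.l5 T3.l5))
  (TrL.c (I.pos (nat_lit 0) (nat_lit 0)) T1.l2
  (TrL.c (I.mix (nat_lit 8088324) (nat_lit 110514882)) (xR T3.l4 (xR T3.l4 T3.l4))
  (TrL.c (I.mix (nat_lit 8088324) (nat_lit 89478486)) T1.l11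
  TrL.n)))))))) (by decide +kernel)
theorem bx4_2 : BoxOK sI cl13 cl4 cl9 t1 t3 b4_2 :=
  box_mk (TrL.c (I.pos (nat_lit 0) (nat_lit 0)) (xb (xa (xb T1.l4 T1.l4) (xb (xa T1.l4 T1.l4) (xa T1.l4 T1.l4))) (xa (xb (xa T1.l4 T1.l4) (xa (xb T1.l4 T1.l4) (xb T1.l4 T1.l4))) (xb (xa T1.l4 (xb T1.l4 T1.l4)) (xa (xb T1.l4 (xs T1.l4 T1.l4)) (xb T1.l4 (xs T1.l4 T1.l4))))))
  (TrL.c (I.pos (nat_lit 0) (nat_lit 0)) (xb (xa T3.l1 T3.l1) (xa T3.l1 (xk T3.l1 T3.l1)))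
  (TrL.c (I.pos (nat_lit 0) (nat_lit 134217730)) (xR T1.l1 (xR T1.l1 (xb T1.l11 (xR T1.l1 (xa T1.l11 T1.l1)))))
  (TrL.c (I.pos (nat_lit 0) (nat_lit 110514882)) (xR T3.l2 (xR T3.l2 (xR T3.l2 T3.l2)))
  (TrL.c (I.pos (nat_lit 0) (nat_lit 0)) (xb (xa T3.l5 (xk T3.l5 T3.l5)) (xa (xb T3.l5 (xk T3.l5 T3.l5)) (xk (xb T3.l3 T3.l3) (xb T3.l3 (xs T3.l3 T3.l3)))))
  (TrL.c (I.pos (nat_lit 0) (nat_lit 0)) (xb T1.l2 T1.l2)
  (TrL.c (I.mix (nat_lit 8088324) (nat_lit 110514882)) (xR T3.l4 (xR T3.l4 (xb (xR T3.l4 T3.l4) (xR T3.l4 T3.l4))))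
  (TrL.c (I.mix (nat_lit 8088324) (nat_lit 89478486)) (xR T1.l3 (xR T1.l3 (xb T1.l9 (xR T1.l3 T1.l3))))
  TrL.n)))))))) (by decide +kernel)
theorem bx4_3 : BoxOK sI cl13 cl4 cl9 t1 t3 b4_3 :=
  box_mk (TrL.c (I.pos (nat_lit 0) (nat_lit 0)) (xa T3.l1 T3.l1)
  (TrL.c (I.pos (nat_lit 0) (nat_lit 0)) T1.l6
  (TrL.c (I.mix (nat_lit 8088324) (nat_lit 110514882)) (xR T3.l6 (xR T3.l6 (xR T3.l6 T3.l2)))
  (TrL.c (I.mix (nat_lit 8088324) (nat_lit 89478486)) (xR T1.l11 T1.l1)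
  TrL.n)))) (by decide +kernel)
theorem bx4_4 : BoxOK sI cl13 cl4 cl9 t1 t3 b4_4 :=
  box_mk (TrL.c (I.pos (nat_lit 0) (nat_lit 0)) T3.l7
  (TrL.c (I.pos (nat_lit 0) (nat_lit 0)) T1.l6
  (TrL.c (I.mix (nat_lit 8088324) (nat_lit 110514882)) (xR T3.l6 (xR T3.l4 T3.l4))
  (TrL.c (I.mix (nat_lit 8088324) (nat_lit 89478486)) (xR T1.l3 T1.l1)
  TrL.n)))) (by decide +kernel)
theorem bx4_5 : BoxOK sI cl13 cl4 cl9 t1 t3 b4_5 :=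
  box_mk (TrL.c (I.pos (nat_lit 0) (nat_lit 0)) (xb T1.l7 T1.l4)
  (TrL.c (I.pos (nat_lit 0) (nat_lit 0)) T3.l1
  (TrL.c (I.pos (nat_lit 0) (nat_lit 134217730)) (xR T1.l1 T1.l1)
  (TrL.c (I.pos (nat_lit 0) (nat_lit 110514882)) T3.l4
  (TrL.c (I.pos (nat_lit 0) (nat_lit 0)) T3.l5
  (TrL.c (I.pos (nat_lit 0) (nat_lit 0)) T1.l2
  (TrL.c (I.mix (nat_lit 8088324) (nat_lit 110514882)) T3.l4
  (TrL.c (I.mix (nat_lit 8088324) (nat_lit 89478486)) T1.l9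
  TrL.n)))))))) (by decide +kernel)
theorem bx4_6 : BoxOK sI cl13 cl4 cl9 t1 t3 b4_6 :=
  box_mk (TrL.c (I.pos (nat_lit 0) (nat_lit 0)) (xa (xb (xa T1.l0 T1.l0) (xa (xb T1.l0 T1.l0) (xb T1.l0 T1.l0))) (xb (xa T1.l0 T1.l0) (xa (xb T1.l0 T1.l0) (xb T1.l0 (xa T1.l0 T1.l0)))))
  (TrL.c (I.pos (nat_lit 0) (nat_lit 0)) (xa T3.l1 (xk (xb T3.l1 T3.l1) T3.l1))
  (TrL.c (I.pos (nat_lit 0) (nat_lit 134217730)) (xR T1.l11 (xR T1.l1 T1.l11))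
  (TrL.c (I.pos (nat_lit 0) (nat_lit 110514882)) (xR T3.l4 (xR T3.l2 (xR T3.l2 T3.l2)))
  (TrL.c (I.pos (nat_lit 0) (nat_lit 0)) (xa (xb (xk T3.l3 T3.l3) (xk T3.l3 T3.l3)) (xb (xk (xa T3.l3 (xb T3.l3 T3.l3)) (xa T3.l3 T3.l3)) (xk (xa T3.l3 (xb T3.l3 T3.l3)) (xa T3.l3 T3.l3))))
  (TrL.c (I.pos (nat_lit 0) (nat_lit 0)) (xk (xa T1.l2 T1.l2) T1.l2)
  (TrL.c (I.mix (nat_lit 8088324) (nat_lit 110514882)) (xR T3.l4 (xR T3.l4 (xR T3.l4 (xk (xR T3.l4 T3.l4) T3.l4))))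
  (TrL.c (I.mix (nat_lit 8088324) (nat_lit 89478486)) (xR T1.l3 (xR T1.l3 (xR T1.l3 T1.l3)))
  TrL.n)))))))) (by decide +kernel)
theorem bx4_7 : BoxOK sI cl13 cl4 cl9 t1 t3 b4_7 :=
  box_mk (TrL.c (I.pos (nat_lit 0) (nat_lit 0)) (xb T1.l7 T1.l7)
  (TrL.c (I.pos (nat_lit 0) (nat_lit 0)) T3.l1
  (TrL.c (I.pos (nat_lit 0) (nat_lit 134217730)) (xR T1.l1 T1.l1)
  (TrL.c (I.pos (nat_lit 0) (nat_lit 110514882)) T3.l4
  (TrL.c (I.pos (nat_lit 0) (nat_lit 0)) T3.l8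
  (TrL.c (I.pos (nat_lit 0) (nat_lit 0)) T1.l2
  (TrL.c (I.mix (nat_lit 8088324) (nat_lit 110514882)) T3.l4
  (TrL.c (I.mix (nat_lit 8088324) (nat_lit 89478486)) T1.l11
  TrL.n)))))))) (by decide +kernel)
theorem bx4_8 : BoxOK sI cl13 cl4 cl9 t1 t3 b4_8 :=
  box_mk (TrL.c (I.pos (nat_lit 0) (nat_lit 0)) (xa (xb T1.l4 (xa T1.l4 T1.l4)) (xb (xa T1.l0 T1.l0) (xa (xb T1.l0 T1.l0) (xb T1.l0 T1.l0))))
  (TrL.c (I.pos (nat_lit 0) (nat_lit 0)) (xk T3.l1 T3.l1)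
  (TrL.c (I.pos (nat_lit 0) (nat_lit 134217730)) (xR T1.l1 T1.l11)
  (TrL.c (I.pos (nat_lit 0) (nat_lit 110514882)) (xR T3.l2 T3.l2)
  (TrL.c (I.pos (nat_lit 0) (nat_lit 0)) (xk T3.l3 T3.l3)
  (TrL.c (I.pos (nat_lit 0) (nat_lit 0)) T1.l2
  (TrL.c (I.mix (nat_lit 8088324) (nat_lit 110514882)) (xR T3.l4 T3.l4)
  (TrL.c (I.mix (nat_lit 8088324) (nat_lit 89478486)) (xR T1.l3 T1.l3)
  TrL.n)))))))) (by decide +kernel)
theorem bx4_9 : BoxOK sI cl13 cl4 cl9 t1 t3 b4_9 :=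
  box_mk (TrL.c (I.pos (nat_lit 0) (nat_lit 0)) T1.l4
  (TrL.c (I.pos (nat_lit 0) (nat_lit 0)) T3.l1
  (TrL.c (I.pos (nat_lit 0) (nat_lit 134217730)) T1.l11
  (TrL.c (I.pos (nat_lit 0) (nat_lit 110514882)) T3.l4
  (TrL.c (I.pos (nat_lit 0) (nat_lit 0)) T3.l5
  (TrL.c (I.pos (nat_lit 0) (nat_lit 0)) T1.l2
  (TrL.c (I.mix (nat_lit 8088324) (nat_lit 110514882)) T3.l4
  (TrL.c (I.mix (nat_lit 8088324) (nat_lit 89478486)) T1.l9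
  TrL.n)))))))) (by decide +kernel)
theorem sv4 : StarV sI cl13 cl4 cl9 t1 t3 t4 :=
  (bt_n (bt_n (bt_n (bt_b bx4_0) (bt_b bx4_1)) (bt_n (bt_b bx4_2) (bt_n (bt_b bx4_3) (bt_b bx4_4)))) (bt_n (bt_n (bt_b bx4_5) (bt_b bx4_6)) (bt_n (bt_b bx4_7) (bt_n (bt_b bx4_8) (bt_b bx4_9)))))
def S4 : StarD := StarD.mk cl13 cl4 cl9 1 3 t4
theorem bx5_0 : BoxOK sI cl13 cl9 cl4 t3 t1 b5_0 :=
  box_mk (TrL.c (I.pos (nat_lit 0) (nat_lit 0)) (xa (xb (xa (xc T3.l0 T3.l0) (xc T3.l0 T3.l13)) (xa (xs (xb T3.l0 (xc T3.l0 T3.l0)) (xb (xc T3.l0 T3.l0) (xc T3.l0 T3.l0))) (xs (xc T3.l0 T3.l0) (xc T3.l13 (xb T3.l0 T3.l0))))) (xa (xb (xc T3.l0 (xs T3.l0 T3.l0)) (xs (xc T3.l0 T3.l0) (xc (xb T3.l0 T3.l0) (xb T3.l0 T3.l0)))) (xb (xs T3.l0 T3.l0) (xs (xa T3.l0 T3.l0) (xc T3.l0 (xb T3.l0 T3.l0))))))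
  (TrL.c (I.pos (nat_lit 0) (nat_lit 0)) (xa (xk (xb T1.l8 T1.l8) T1.l8) (xk (xb T1.l8 T1.l8) T1.l8))
  (TrL.c (I.pos (nat_lit 0) (nat_lit 134217730)) (xR T3.l4 (xR T3.l4 (xR T3.l4 T3.l4)))
  (TrL.c (I.pos (nat_lit 0) (nat_lit 110514882)) (xR T1.l11 (xR T1.l9 (xR T1.l9 (xk (xR T1.l9 T1.l9) T1.l9))))
  (TrL.c (I.pos (nat_lit 0) (nat_lit 0)) (xa (xk T1.l10 T1.l10) (xk T1.l10 T1.l10))
  (TrL.c (I.pos (nat_lit 0) (nat_lit 0)) T3.l10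
  (TrL.c (I.mix (nat_lit 8088324) (nat_lit 110514882)) (xR T1.l11 (xR T1.l11 T1.l11))
  (TrL.c (I.mix (nat_lit 8088324) (nat_lit 89478486)) (xR T3.l4 T3.l11)
  TrL.n)))))))) (by decide +kernel)
theorem bx5_1 : BoxOK sI cl13 cl9 cl4 t3 t1 b5_1 :=
  box_mk (TrL.c (I.pos (nat_lit 0) (nat_lit 0)) (xa (xb (xa T3.l12 T3.l12) (xa T3.l12 T3.l12)) (xb T3.l0 (xa T3.l12 T3.l0)))
  (TrL.c (I.pos (nat_lit 0) (nat_lit 0)) (xa T1.l8 T1.l8)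
  (TrL.c (I.pos (nat_lit 0) (nat_lit 134217730)) (xR T3.l4 (xR T3.l4 T3.l4))
  (TrL.c (I.pos (nat_lit 0) (nat_lit 110514882)) (xR T1.l9 (xR T1.l9 T1.l9))
  (TrL.c (I.pos (nat_lit 0) (nat_lit 0)) (xk (xa T1.l12 T1.l12) (xa T1.l12 T1.l12))
  (TrL.c (I.pos (nat_lit 0) (nat_lit 0)) T3.l10
  (TrL.c (I.mix (nat_lit 8088324) (nat_lit 110514882)) (xR T1.l11 T1.l11)
  (TrL.c (I.mix (nat_lit 8088324) (nat_lit 89478486)) T3.l4
  TrL.n)))))))) (by decide +kernel)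
theorem bx5_2 : BoxOK sI cl13 cl9 cl4 t3 t1 b5_2 :=
  box_mk (TrL.c (I.pos (nat_lit 0) (nat_lit 0)) (xa (xa T3.l12 T3.l12) T3.l12)
  (TrL.c (I.pos (nat_lit 0) (nat_lit 0)) (xa T1.l8 T1.l8)
  (TrL.c (I.pos (nat_lit 0) (nat_lit 134217730)) (xR T3.l4 (xR T3.l4 (xR T3.l4 (xa T3.l9 T3.l9))))
  (TrL.c (I.pos (nat_lit 0) (nat_lit 110514882)) (xR T1.l9 (xR T1.l9 (xR T1.l9 T1.l9)))
  (TrL.c (I.pos (nat_lit 0) (nat_lit 0)) (xa T1.l12 T1.l12)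
  (TrL.c (I.pos (nat_lit 0) (nat_lit 0)) T3.l10
  (TrL.c (I.mix (nat_lit 8088324) (nat_lit 110514882)) (xR T1.l11 (xR T1.l11 T1.l11))
  (TrL.c (I.mix (nat_lit 8088324) (nat_lit 89478486)) T3.l4
  TrL.n)))))))) (by decide +kernel)
theorem bx5_3 : BoxOK sI cl13 cl9 cl4 t3 t1 b5_3 :=
  box_mk (TrL.c (I.pos (nat_lit 0) (nat_lit 0)) (xb (xa (xb (xa T3.l13 T3.l13) (xa T3.l13 T3.l13)) (xb (xa T3.l13 T3.l13) (xa T3.l13 (xs T3.l13 T3.l13)))) (xa (xb (xa (xs T3.l13 T3.l13) (xs T3.l13 T3.l13)) (xa (xs T3.l13 (xc T3.l13 T3.l13)) (xs T3.l13 (xc T3.l13 T3.l13)))) (xa (xb (xs T3.l13 T3.l13) (xs T3.l13 T3.l13)) (xs T3.l13 (xb T3.l13 (xk T3.l13 T3.l13))))))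
  (TrL.c (I.pos (nat_lit 0) (nat_lit 0)) (xk (xb (xa T1.l8 T1.l8) (xa T1.l8 T1.l8)) (xb T1.l8 (xa T1.l8 T1.l8)))
  (TrL.c (I.pos (nat_lit 0) (nat_lit 134217730)) (xR T3.l4 (xR T3.l4 (xR T3.l4 (xR T3.l9 T3.l9))))
  (TrL.c (I.pos (nat_lit 0) (nat_lit 110514882)) (xR T1.l11 (xR T1.l9 (xR T1.l9 T1.l9)))
  (TrL.c (I.pos (nat_lit 0) (nat_lit 0)) (xk (xb T1.l13 T1.l13) (xb T1.l13 T1.l13))
  (TrL.c (I.pos (nat_lit 0) (nat_lit 0)) T3.l10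
  (TrL.c (I.mix (nat_lit 8088324) (nat_lit 110514882)) (xR T1.l11 (xR T1.l11 (xR T1.l11 T1.l11)))
  (TrL.c (I.mix (nat_lit 8088324) (nat_lit 89478486)) (xR T3.l4 (xR T3.l11 (xR T3.l11 T3.l11)))
  TrL.n)))))))) (by decide +kernel)
theorem bx5_4 : BoxOK sI cl13 cl9 cl4 t3 t1 b5_4 :=
  box_mk (TrL.c (I.pos (nat_lit 0) (nat_lit 0)) (xa (xa (xb T3.l12 (xa T3.l12 T3.l12)) (xb T3.l12 T3.l12)) (xa (xb T3.l12 (xa T3.l12 T3.l12)) (xa T3.l12 T3.l12)))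
  (TrL.c (I.pos (nat_lit 0) (nat_lit 0)) (xa (xa T1.l8 T1.l8) (xa T1.l8 T1.l8))
  (TrL.c (I.pos (nat_lit 0) (nat_lit 134217730)) (xR T3.l4 (xR T3.l4 (xa T3.l9 T3.l9)))
  (TrL.c (I.pos (nat_lit 0) (nat_lit 110514882)) (xR T1.l9 (xR T1.l9 (xa T1.l9 T1.l9)))
  (TrL.c (I.pos (nat_lit 0) (nat_lit 0)) (xa (xa T1.l12 T1.l12) T1.l12)
  (TrL.c (I.pos (nat_lit 0) (nat_lit 0)) T3.l10
  (TrL.c (I.mix (nat_lit 8088324) (nat_lit 110514882)) (xR T1.l11 (xR T1.l11 (xR T1.l11 (xa T1.l11 T1.l11))))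
  (TrL.c (I.mix (nat_lit 8088324) (nat_lit 89478486)) T3.l4
  TrL.n)))))))) (by decide +kernel)
theorem bx5_5 : BoxOK sI cl13 cl9 cl4 t3 t1 b5_5 :=
  box_mk (TrL.c (I.pos (nat_lit 0) (nat_lit 0)) (xa T3.l12 T3.l0)
  (TrL.c (I.pos (nat_lit 0) (nat_lit 0)) T1.l8
  (TrL.c (I.pos (nat_lit 0) (nat_lit 134217730)) (xR T3.l4 (xR T3.l4 T3.l4))
  (TrL.c (I.pos (nat_lit 0) (nat_lit 110514882)) (xR T1.l9 (xR T1.l9 T1.l9))
  (TrL.c (I.pos (nat_lit 0) (nat_lit 0)) (xk T1.l12 T1.l12)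
  (TrL.c (I.pos (nat_lit 0) (nat_lit 0)) T3.l10
  (TrL.c (I.mix (nat_lit 8088324) (nat_lit 110514882)) (xR T1.l11 T1.l11)
  (TrL.c (I.mix (nat_lit 8088324) (nat_lit 89478486)) T3.l4
  TrL.n)))))))) (by decide +kernel)
theorem bx5_6 : BoxOK sI cl13 cl9 cl4 t3 t1 b5_6 :=
  box_mk (TrL.c (I.pos (nat_lit 0) (nat_lit 0)) (xa (xa T3.l12 T3.l12) T3.l12)
  (TrL.c (I.pos (nat_lit 0) (nat_lit 0)) (xa T1.l8 T1.l8)
  (TrL.c (I.pos (nat_lit 0) (nat_lit 134217730)) (xR T3.l4 (xR T3.l4 (xa T3.l9 T3.l9)))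
  (TrL.c (I.pos (nat_lit 0) (nat_lit 110514882)) (xR T1.l9 (xR T1.l9 (xR T1.l9 T1.l9)))
  (TrL.c (I.pos (nat_lit 0) (nat_lit 0)) (xa T1.l12 T1.l12)
  (TrL.c (I.pos (nat_lit 0) (nat_lit 0)) T3.l10
  (TrL.c (I.mix (nat_lit 8088324) (nat_lit 110514882)) (xR T1.l11 (xR T1.l11 T1.l11))
  (TrL.c (I.mix (nat_lit 8088324) (nat_lit 89478486)) T3.l4
  TrL.n)))))))) (by decide +kernel)
theorem bx5_7 : BoxOK sI cl13 cl9 cl4 t3 t1 b5_7 :=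
  box_mk (TrL.c (I.pos (nat_lit 0) (nat_lit 0)) T3.l0
  (TrL.c (I.pos (nat_lit 0) (nat_lit 0)) T1.l8
  (TrL.c (I.pos (nat_lit 0) (nat_lit 134217730)) (xR T3.l4 (xR T3.l4 T3.l4))
  (TrL.c (I.pos (nat_lit 0) (nat_lit 110514882)) (xR T1.l9 (xR T1.l9 T1.l9))
  (TrL.c (I.pos (nat_lit 0) (nat_lit 0)) (xk T1.l13 T1.l13)
  (TrL.c (I.pos (nat_lit 0) (nat_lit 0)) T3.l10
  (TrL.c (I.mix (nat_lit 8088324) (nat_lit 110514882)) (xR T1.l11 T1.l11)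
  (TrL.c (I.mix (nat_lit 8088324) (nat_lit 89478486)) (xR T3.l4 T3.l11)
  TrL.n)))))))) (by decide +kernel)
theorem bx5_8 : BoxOK sI cl13 cl9 cl4 t3 t1 b5_8 :=
  box_mk (TrL.c (I.pos (nat_lit 0) (nat_lit 0)) (xb (xa (xb (xa (xs T3.l13 T3.l13) (xs T3.l13 T3.l13)) (xa T3.l13 T3.l13)) (xb (xa (xs T3.l13 T3.l13) (xs T3.l13 T3.l13)) (xa T3.l13 T3.l13))) (xa (xb (xa T3.l13 T3.l13) (xa (xs T3.l13 T3.l13) (xs T3.l13 T3.l13))) (xb (xa T3.l13 T3.l13) (xa (xs T3.l13 T3.l13) T3.l13))))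
  (TrL.c (I.pos (nat_lit 0) (nat_lit 0)) (xb (xk T1.l8 T1.l8) (xk (xa T1.l8 T1.l8) T1.l8))
  (TrL.c (I.pos (nat_lit 0) (nat_lit 134217730)) (xR T3.l4 (xR T3.l4 T3.l4))
  (TrL.c (I.pos (nat_lit 0) (nat_lit 110514882)) (xR T1.l11 (xR T1.l9 (xR T1.l9 T1.l9)))
  (TrL.c (I.pos (nat_lit 0) (nat_lit 0)) (xk (xb (xa T1.l13 T1.l13) T1.l13) (xb (xa T1.l13 T1.l13) T1.l13))
  (TrL.c (I.pos (nat_lit 0) (nat_lit 0)) T3.l10
  (TrL.c (I.mix (nat_lit 8088324) (nat_lit 110514882)) (xR T1.l11 (xR T1.l11 (xR T1.l11 (xk T1.l11 T1.l11))))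
  (TrL.c (I.mix (nat_lit 8088324) (nat_lit 89478486)) (xR T3.l4 (xR T3.l11 (xR T3.l11 T3.l11)))
  TrL.n)))))))) (by decide +kernel)
theorem bx5_9 : BoxOK sI cl13 cl9 cl4 t3 t1 b5_9 :=
  box_mk (TrL.c (I.pos (nat_lit 0) (nat_lit 0)) (xa T3.l12 T3.l12)
  (TrL.c (I.pos (nat_lit 0) (nat_lit 0)) (xa T1.l8 T1.l8)
  (TrL.c (I.pos (nat_lit 0) (nat_lit 134217730)) (xR T3.l4 (xR T3.l4 T3.l9))
  (TrL.c (I.pos (nat_lit 0) (nat_lit 110514882)) (xR T1.l9 T1.l9)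
  (TrL.c (I.pos (nat_lit 0) (nat_lit 0)) T1.l12
  (TrL.c (I.pos (nat_lit 0) (nat_lit 0)) T3.l10
  (TrL.c (I.mix (nat_lit 8088324) (nat_lit 110514882)) T1.l11
  (TrL.c (I.mix (nat_lit 8088324) (nat_lit 89478486)) T3.l4
  TrL.n)))))))) (by decide +kernel)
theorem bx5_10 : BoxOK sI cl13 cl9 cl4 t3 t1 b5_10 :=
  box_mk (TrL.c (I.pos (nat_lit 0) (nat_lit 0)) (xb (xa (xb T3.l12 T3.l12) (xb T3.l12 T3.l12)) (xa (xb T3.l12 T3.l12) (xb T3.l12 T3.l12)))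
  (TrL.c (I.pos (nat_lit 0) (nat_lit 0)) (xb (xk T1.l8 T1.l8) T1.l8)
  (TrL.c (I.pos (nat_lit 0) (nat_lit 134217730)) (xR T3.l4 (xR T3.l4 T3.l4))
  (TrL.c (I.pos (nat_lit 0) (nat_lit 110514882)) (xR T1.l9 (xR T1.l9 T1.l9))
  (TrL.c (I.pos (nat_lit 0) (nat_lit 0)) (xb (xk T1.l12 T1.l12) (xk T1.l12 T1.l12))
  (TrL.c (I.pos (nat_lit 0) (nat_lit 0)) T3.l10
  (TrL.c (I.mix (nat_lit 8088324) (nat_lit 110514882)) (xR T1.l11 T1.l11)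
  (TrL.c (I.mix (nat_lit 8088324) (nat_lit 89478486)) T3.l4
  TrL.n)))))))) (by decide +kernel)
theorem bx5_11 : BoxOK sI cl13 cl9 cl4 t3 t1 b5_11 :=
  box_mk (TrL.c (I.pos (nat_lit 0) (nat_lit 0)) (xa (xa (xb (xb (xa T3.l0 T3.l0) (xa T3.l0 T3.l0)) (xs (xa T3.l0 T3.l0) (xa (xb T3.l0 T3.l0) (xb T3.l0 T3.l0)))) (xb (xa (xb T3.l0 T3.l0) (xb T3.l0 T3.l0)) (xs (xa T3.l0 T3.l0) (xa (xb T3.l0 T3.l0) (xb T3.l0 T3.l0))))) (xa (xb (xa (xb T3.l0 T3.l0) (xs T3.l0 T3.l0)) (xs (xa T3.l0 T3.l0) (xa (xb T3.l0 T3.l0) (xb T3.l0 T3.l0)))) (xb (xa (xs T3.l0 T3.l0) (xs T3.l0 T3.l0)) (xs T3.l0 (xa T3.l0 T3.l0)))))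
  (TrL.c (I.pos (nat_lit 0) (nat_lit 0)) (xa (xk (xb T1.l8 (xa T1.l8 T1.l8)) (xb T1.l8 T1.l8)) (xk (xa (xb T1.l2 T1.l2) (xb T1.l2 T1.l2)) (xa T1.l8 (xb T1.l8 T1.l8))))
  (TrL.c (I.pos (nat_lit 0) (nat_lit 134217730)) (xR (xR T3.l4 T3.l4) (xR T3.l4 T3.l4))
  (TrL.c (I.pos (nat_lit 0) (nat_lit 110514882)) (xR T1.l11 (xR (xR T1.l9 T1.l9) (xR T1.l9 (xa T1.l9 (xR T1.l9 T1.l9)))))
  (TrL.c (I.pos (nat_lit 0) (nat_lit 0)) (xa (xk (xb (xa T1.l10 T1.l10) T1.l10) (xb (xa T1.l10 T1.l10) T1.l10)) (xk (xb (xa T1.l10 (xk T1.l10 T1.l10)) (xa T1.l10 (xk T1.l10 T1.l10))) (xb (xa T1.l10 (xk T1.l10 T1.l10)) (xa T1.l10 (xk T1.l10 T1.l10)))))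
  (TrL.c (I.pos (nat_lit 0) (nat_lit 0)) (xk (xa T3.l10 T3.l10) (xa T3.l10 T3.l10))
  (TrL.c (I.mix (nat_lit 8088324) (nat_lit 110514882)) (xR T1.l11 (xR T1.l11 (xR T1.l11 (xk (xR T1.l11 T1.l11) T1.l11))))
  (TrL.c (I.mix (nat_lit 8088324) (nat_lit 89478486)) (xR T3.l4 (xR T3.l11 (xR T3.l11 T3.l11)))
  TrL.n)))))))) (by decide +kernel)
theorem bx5_12 : BoxOK sI cl13 cl9 cl4 t3 t1 b5_12 :=
  box_mk (TrL.c (I.pos (nat_lit 0) (nat_lit 0)) (xa (xb (xa T3.l13 (xs T3.l0 T3.l13)) (xs T3.l13 (xa T3.l13 (xb T3.l13 T3.l13)))) (xb (xa (xs T3.l0 (xk T3.l0 T3.l0)) (xs T3.l0 T3.l0)) (xs (xa T3.l13 (xk T3.l0 T3.l0)) (xa (xb T3.l0 (xk T3.l0 T3.l0)) (xk (xb T3.l0 T3.l0) T3.l0)))))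
  (TrL.c (I.pos (nat_lit 0) (nat_lit 0)) (xk (xa T1.l8 T1.l8) (xa T1.l8 T1.l8))
  (TrL.c (I.pos (nat_lit 0) (nat_lit 134217730)) (xR T3.l4 (xR T3.l4 T3.l4))
  (TrL.c (I.pos (nat_lit 0) (nat_lit 110514882)) (xR T1.l11 (xR T1.l9 (xR T1.l9 T1.l9)))
  (TrL.c (I.pos (nat_lit 0) (nat_lit 0)) (xk (xa T1.l10 T1.l10) T1.l10)
  (TrL.c (I.pos (nat_lit 0) (nat_lit 0)) T3.l10
  (TrL.c (I.mix (nat_lit 8088324) (nat_lit 110514882)) (xR T1.l11 (xR T1.l11 T1.l11))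
  (TrL.c (I.mix (nat_lit 8088324) (nat_lit 89478486)) (xR T3.l4 T3.l2)
  TrL.n)))))))) (by decide +kernel)
theorem bx5_13 : BoxOK sI cl13 cl9 cl4 t3 t1 b5_13 :=
  box_mk (TrL.c (I.pos (nat_lit 0) (nat_lit 0)) (xa (xa T3.l12 T3.l12) T3.l12)
  (TrL.c (I.pos (nat_lit 0) (nat_lit 0)) (xa T1.l8 T1.l8)
  (TrL.c (I.pos (nat_lit 0) (nat_lit 134217730)) (xR T3.l4 (xR T3.l4 (xa (xR T3.l9 T3.l9) T3.l9)))
  (TrL.c (I.pos (nat_lit 0) (nat_lit 110514882)) (xR T1.l9 (xR T1.l9 (xR T1.l9 T1.l9)))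
  (TrL.c (I.pos (nat_lit 0) (nat_lit 0)) (xa T1.l12 T1.l12)
  (TrL.c (I.pos (nat_lit 0) (nat_lit 0)) T3.l10
  (TrL.c (I.mix (nat_lit 8088324) (nat_lit 110514882)) (xR T1.l11 (xR T1.l11 (xR T1.l11 T1.l11)))
  (TrL.c (I.mix (nat_lit 8088324) (nat_lit 89478486)) T3.l4
  TrL.n)))))))) (by decide +kernel)
theorem sv5 : StarV sI cl13 cl9 cl4 t3 t1 t5 :=
  (bt_n (bt_n (bt_n (bt_b bx5_0) (bt_n (bt_b bx5_1) (bt_b bx5_2))) (bt_n (bt_n (bt_b bx5_3) (bt_b bx5_4)) (bt_n (bt_b bx5_5) (bt_b bx5_6)))) (bt_n (bt_n (bt_b bx5_7) (bt_n (bt_b bx5_8) (bt_b bx5_9))) (bt_n (bt_n (bt_b bx5_10) (bt_b bx5_11)) (bt_n (bt_b bx5_12) (bt_b bx5_13)))))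
def S5 : StarD := StarD.mk cl13 cl9 cl4 3 1 t5
def G : List StarD := [S0, S1, S2, S3, S4, S5]
theorem so0 : StarOK sI G S0 :=
  star_mk (by decide) (by decide) rfl rfl rfl rfl rfl rfl (rfl : _ = t2) (rfl : _ = t4)
  (st_mk (Pth.l (Pth.l (Pth.l Pth.z))) (nat_lit 118495091) (nat_lit 138197267) (by decide +kernel))
  (st_mk (Pth.l (Pth.l (Pth.l Pth.z))) (nat_lit 153979628) (nat_lit 178242187) (by decide +kernel))
  (st_mk (Pth.l (Pth.l (Pth.l Pth.z))) (nat_lit 198009504) (nat_lit 223406378) (by decide +kernel)) sv0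
theorem so1 : StarOK sI G S1 :=
  star_mk (by decide) (by decide) rfl rfl rfl rfl rfl rfl (rfl : _ = t4) (rfl : _ = t2)
  (st_mk (Pth.l (Pth.l (Pth.l Pth.z))) (nat_lit 98384452) (nat_lit 117913889) (by decide +kernel))
  (st_mk (Pth.l (Pth.l (Pth.l Pth.z))) (nat_lit 135552857) (nat_lit 155861566) (by decide +kernel))
  (st_mk (Pth.l (Pth.l (Pth.l Pth.z))) (nat_lit 179422024) (nat_lit 200845793) (by decide +kernel)) sv1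
theorem so2 : StarOK sI G S2 :=
  star_mk (by decide) (by decide) rfl rfl rfl rfl rfl rfl (rfl : _ = t0) (rfl : _ = t5)
  (st_mk (Pth.l (Pth.l (Pth.l Pth.z))) (nat_lit 367115719) (nat_lit 370312379) (by decide +kernel))
  (st_mk (Pth.l (Pth.l (Pth.l Pth.z))) (nat_lit 401942955) (nat_lit 406756999) (by decide +kernel))
  (st_mk (Pth.l (Pth.l (Pth.l Pth.z))) (nat_lit 442801869) (nat_lit 448309200) (by decide +kernel)) sv2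
theorem so3 : StarOK sI G S3 :=
  star_mk (by decide) (by decide) rfl rfl rfl rfl rfl rfl (rfl : _ = t5) (rfl : _ = t0)
  (st_mk (Pth.l (Pth.l (Pth.l Pth.z))) (nat_lit 96158088) (nat_lit 114768221) (by decide +kernel))
  (st_mk (Pth.l (Pth.l (Pth.l Pth.z))) (nat_lit 131334676) (nat_lit 150318085) (by decide +kernel))
  (st_mk (Pth.l (Pth.l (Pth.l Pth.z))) (nat_lit 172031178) (nat_lit 191562193) (by decide +kernel)) sv3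
theorem so4 : StarOK sI G S4 :=
  star_mk (by decide) (by decide) rfl rfl rfl rfl rfl rfl (rfl : _ = t1) (rfl : _ = t3)
  (st_mk (Pth.l (Pth.l (Pth.l Pth.z))) (nat_lit 364798899) (nat_lit 367784118) (by decide +kernel))
  (st_mk (Pth.l (Pth.l (Pth.l Pth.z))) (nat_lit 399695508) (nat_lit 403173416) (by decide +kernel))
  (st_mk (Pth.l (Pth.l (Pth.l Pth.z))) (nat_lit 439960827) (nat_lit 444064383) (by decide +kernel)) sv4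
theorem so5 : StarOK sI G S5 :=
  star_mk (by decide) (by decide) rfl rfl rfl rfl rfl rfl (rfl : _ = t3) (rfl : _ = t1)
  (st_mk (Pth.l (Pth.l (Pth.l Pth.z))) (nat_lit 115089857) (nat_lit 133597904) (by decide +kernel))
  (st_mk (Pth.l (Pth.l (Pth.l Pth.z))) (nat_lit 149986467) (nat_lit 168835625) (by decide +kernel))
  (st_mk (Pth.l (Pth.l (Pth.l Pth.z))) (nat_lit 190251785) (nat_lit 209595188) (by decide +kernel)) sv5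
theorem ok : GroupOK (nat_lit 150274048) (nat_lit 209387520) G := grp_mk (allS_c so0 (allS_c so1 (allS_c so2 (allS_c so3 (allS_c so4 (allS_c so5 allS_n))))))
theorem cov : GCov G cl4 cl9 cl13 := cov_mk
  ⟨0, by decide, rfl, rfl, rfl⟩ ⟨1, by decide, rfl, rfl, rfl⟩ ⟨2, by decide, rfl, rfl, rfl⟩ ⟨3, by decide, rfl, rfl, rfl⟩ ⟨4, by decide, rfl, rfl, rfl⟩ ⟨5, by decide, rfl, rfl, rfl⟩
end Q156_2


end Pool.Agent.Helper6.MONO
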