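import Pool.Agent.Helper6.MONO.Asm

/-!
Certificate data (generated).
-/

set_option autoImplicit false
set_option linter.all false
noncomputable section
namespace Pool.Agent.Helper6.MONO


namespace Q156_3
def sI : I := I.pos (nat_lit 209321984) (nat_lit 268435456)
def b0_0 : Bx := Bx.mk (St.mk (I.pos (nat_lit 160514048) (nat_lit 237305856)) (I.mix (nat_lit 278528) (nat_lit 55689216)) (I.mix (nat_lit 278528) (nat_lit 58097664)) (I.pos (nat_lit 118996992) (nat_lit 261734400)) (I.mix (nat_lit 104595456) (nat_lit 64159744)) (I.mix (nat_lit 63045632) (nat_lit 57638912)) (I.mix (nat_lit 94945280) (nat_lit 92667904)))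
  false (nat_lit 64254342)
def b0_1 : Bx := Bx.mk (St.mk (I.mix (nat_lit 8339456) (nat_lit 121946112)) (I.pos (nat_lit 1720320) (nat_lit 25460736)) (I.mix (nat_lit 10108928) (nat_lit 5931008)) (I.pos (nat_lit 17448960) (nat_lit 91013120)) (I.mix (nat_lit 29016064) (nat_lit 38289408)) (I.mix (nat_lit 24264704) (nat_lit 22986752)) (I.mix (nat_lit 19005440) (nat_lit 14942208)))
  false (nat_lit 0)
def b0_2 : Bx := Bx.mk (St.mk (I.pos (nat_lit 101482496) (nat_lit 140689408)) (I.neg (nat_lit 4997120) (nat_lit 40140800)) (I.neg (nat_lit 16269312) (nat_lit 57950208)) (I.pos (nat_lit 58146816) (nat_lit 107642880)) (I.mix (nat_lit 85590016) (nat_lit 25870336)) (I.mix (nat_lit 29097984) (nat_lit 70057984)) (I.mix (nat_lit 17432576) (nat_lit 62390272)))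
  false (nat_lit 0)
def b0_3 : Bx := Bx.mk (St.mk (I.mix (nat_lit 17448960) (nat_lit 83787776)) (I.neg (nat_lit 1736704) (nat_lit 23281664)) (I.neg (nat_lit 2064384) (nat_lit 24952832)) (I.pos (nat_lit 17596416) (nat_lit 61571072)) (I.mix (nat_lit 41336832) (nat_lit 12845056)) (I.mix (nat_lit 15482880) (nat_lit 30851072)) (I.mix (nat_lit 6914048) (nat_lit 17530880)))
  false (nat_lit 0)
def b0_4 : Bx := Bx.mk (St.mk (I.pos (nat_lit 101138432) (nat_lit 124256256)) (I.mix (nat_lit 5308416) (nat_lit 4096000)) (I.neg (nat_lit 8273920) (nat_lit 22872064)) (I.pos (nat_lit 58916864) (nat_lit 93552640)) (I.mix (nat_lit 29425664) (nat_lit 18235392)) (I.mix (nat_lit 19234816) (nat_lit 19578880)) (I.mix (nat_lit 13484032) (nat_lit 18350080)))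
  false (nat_lit 0)
def b0_5 : Bx := Bx.mk (St.mk (I.mix (nat_lit 21413888) (nat_lit 71319552)) (I.mix (nat_lit 2801664) (nat_lit 2211840)) (I.neg (nat_lit 2555904) (nat_lit 12484608)) (I.pos (nat_lit 17940480) (nat_lit 54181888)) (I.mix (nat_lit 10272768) (nat_lit 4243456)) (I.mix (nat_lit 5619712) (nat_lit 4521984)) (I.mix (nat_lit 2375680) (nat_lit 3670016)))
  false (nat_lit 0)
def b0_6 : Bx := Bx.mk (St.mk (I.pos (nat_lit 212582400) (nat_lit 257556480)) (I.mix (nat_lit 14663680) (nat_lit 13123584)) (I.neg (nat_lit 24821760) (nat_lit 84623360)) (I.pos (nat_lit 208175104) (nat_lit 293126144)) (I.mix (nat_lit 97517568) (nat_lit 46891008)) (I.mix (nat_lit 61997056) (nat_lit 61112320)) (I.mix (nat_lit 90177536) (nat_lit 115228672)))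
  false (nat_lit 29133542)
def b0_7 : Bx := Bx.mk (St.mk (I.mix (nat_lit 3833856) (nat_lit 124223488)) (I.mix (nat_lit 5357568) (nat_lit 4161536)) (I.neg (nat_lit 2523136) (nat_lit 22888448)) (I.pos (nat_lit 17596416) (nat_lit 93536256)) (I.mix (nat_lit 30277632) (nat_lit 18972672)) (I.mix (nat_lit 20250624) (nat_lit 20070400)) (I.mix (nat_lit 13877248) (nat_lit 18595840)))
  false (nat_lit 0)
def b0_8 : Bx := Bx.mk (St.mk (I.pos (nat_lit 110067712) (nat_lit 133791744)) (I.mix (nat_lit 5292032) (nat_lit 6651904)) (I.neg (nat_lit 8044544) (nat_lit 25231360)) (I.pos (nat_lit 64045056) (nat_lit 102580224)) (I.mix (nat_lit 28688384) (nat_lit 28672000)) (I.mix (nat_lit 24199168) (nat_lit 25673728)) (I.mix (nat_lit 18939904) (nat_lit 21250048)))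
  false (nat_lit 0)
def b0_9 : Bx := Bx.mk (St.mk (I.mix (nat_lit 17121280) (nat_lit 77774848)) (I.mix (nat_lit 2719744) (nat_lit 3309568)) (I.neg (nat_lit 2539520) (nat_lit 13189120)) (I.pos (nat_lit 17711104) (nat_lit 57950208)) (I.mix (nat_lit 9601024) (nat_lit 10895360)) (I.mix (nat_lit 7487488) (nat_lit 8028160)) (I.mix (nat_lit 3686400) (nat_lit 4997120)))
  false (nat_lit 0)
def b0_10 : Bx := Bx.mk (St.mk (I.pos (nat_lit 206766080) (nat_lit 246841344)) (I.mix (nat_lit 12730368) (nat_lit 26591232)) (I.neg (nat_lit 1638400) (nat_lit 73154560)) (I.pos (nat_lit 202915840) (nat_lit 265355264)) (I.mix (nat_lit 104792064) (nat_lit 44941312)) (I.mix (nat_lit 59097088) (nat_lit 61669376)) (I.mix (nat_lit 83591168) (nat_lit 114933760)))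
  false (nat_lit 56897608)
def b0_11 : Bx := Bx.mk (St.mk (I.mix (nat_lit 5472256) (nat_lit 121552896)) (I.mix (nat_lit 4833280) (nat_lit 10190848)) (I.neg (nat_lit 2490368) (nat_lit 22200320)) (I.pos (nat_lit 17563648) (nat_lit 89718784)) (I.mix (nat_lit 33636352) (nat_lit 18137088)) (I.mix (nat_lit 20889600) (nat_lit 20889600)) (I.mix (nat_lit 13713408) (nat_lit 18857984)))
  false (nat_lit 0)
def b0_12 : Bx := Bx.mk (St.mk (I.pos (nat_lit 113901568) (nat_lit 136134656)) (I.mix (nat_lit 13254656) (nat_lit 6455296)) (I.neg (nat_lit 8388608) (nat_lit 33406976)) (I.pos (nat_lit 65585152) (nat_lit 104660992)) (I.mix (nat_lit 30867456) (nat_lit 34471936)) (I.mix (nat_lit 28409856) (nat_lit 28590080)) (I.mix (nat_lit 22167552) (nat_lit 22872064)))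
  false (nat_lit 0)
def b0_13 : Bx := Bx.mk (St.mk (I.mix (nat_lit 16842752) (nat_lit 79216640)) (I.mix (nat_lit 7258112) (nat_lit 2883584)) (I.neg (nat_lit 2506752) (nat_lit 15974400)) (I.pos (nat_lit 17661952) (nat_lit 59047936)) (I.mix (nat_lit 9076736) (nat_lit 12517376)) (I.mix (nat_lit 8683520) (nat_lit 7684096)) (I.mix (nat_lit 4440064) (nat_lit 4538368)))
  false (nat_lit 0)
def b0_14 : Bx := Bx.mk (St.mk (I.pos (nat_lit 194641920) (nat_lit 240648192)) (I.pos (nat_lit 8142848) (nat_lit 53149696)) (I.mix (nat_lit 22773760) (nat_lit 52150272)) (I.pos (nat_lit 200179712) (nat_lit 265224192)) (I.mix (nat_lit 101613568) (nat_lit 75366400)) (I.mix (nat_lit 73203712) (nat_lit 59588608)) (I.mix (nat_lit 121208832) (nat_lit 97550336)))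
  false (nat_lit 64435420)
def b0_15 : Bx := Bx.mk (St.mk (I.mix (nat_lit 12107776) (nat_lit 122372096)) (I.pos (nat_lit 573440) (nat_lit 22921216)) (I.mix (nat_lit 13910016) (nat_lit 1916928)) (I.pos (nat_lit 16007168) (nat_lit 91258880)) (I.mix (nat_lit 28999680) (nat_lit 40058880)) (I.mix (nat_lit 29933568) (nat_lit 22970368)) (I.mix (nat_lit 23855104) (nat_lit 15564800)))
  false (nat_lit 0)
def b0_16 : Bx := Bx.mk (St.mk (I.pos (nat_lit 103989248) (nat_lit 134627328)) (I.neg (nat_lit 2539520) (nat_lit 25411584)) (I.neg (nat_lit 14139392) (nat_lit 45023232)) (I.pos (nat_lit 59490304) (nat_lit 102973440)) (I.mix (nat_lit 78512128) (nat_lit 31391744)) (I.mix (nat_lit 28999680) (nat_lit 70041600)) (I.mix (nat_lit 18546688) (nat_lit 60948480)))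
  false (nat_lit 0)
def b0_17 : Bx := Bx.mk (St.mk (I.pos (nat_lit 99958784) (nat_lit 121012224)) (I.mix (nat_lit 4096000) (nat_lit 10027008)) (I.neg (nat_lit 4833280) (nat_lit 21397504)) (I.pos (nat_lit 58359808) (nat_lit 89243648)) (I.mix (nat_lit 25575424) (nat_lit 9093120)) (I.mix (nat_lit 12992512) (nat_lit 13451264)) (I.mix (nat_lit 7946240) (nat_lit 13336576)))
  false (nat_lit 0)
def b0_18 : Bx := Bx.mk (St.mk (I.mix (nat_lit 22446080) (nat_lit 5586944)) (I.mix (nat_lit 1540096) (nat_lit 4440064)) (I.neg (nat_lit 2588672) (nat_lit 8519680)) (I.pos (nat_lit 17924096) (nat_lit 37863424)) (I.mix (nat_lit 6881280) (nat_lit 3538944)) (I.mix (nat_lit 3260416) (nat_lit 3358720)) (I.mix (nat_lit 802816) (nat_lit 1474560)))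
  false (nat_lit 0)
def b0_19 : Bx := Bx.mk (St.mk (I.pos (nat_lit 107364352) (nat_lit 152272896)) (I.neg (nat_lit 7290880) (nat_lit 41353216)) (I.neg (nat_lit 26476544) (nat_lit 55263232)) (I.pos (nat_lit 70696960) (nat_lit 110493696)) (I.mix (nat_lit 73203712) (nat_lit 27312128)) (I.mix (nat_lit 30621696) (nat_lit 50626560)) (I.mix (nat_lit 22872064) (nat_lit 51511296)))
  false (nat_lit 0)
def b0_20 : Bx := Bx.mk (St.mk (I.mix (nat_lit 15024128) (nat_lit 90226688)) (I.mix (nat_lit 23412736) (nat_lit 655360)) (I.neg (nat_lit 1933312) (nat_lit 24739840)) (I.pos (nat_lit 17317888) (nat_lit 63225856)) (I.mix (nat_lit 39583744) (nat_lit 21889024)) (I.mix (nat_lit 18513920) (nat_lit 25903104)) (I.mix (nat_lit 9338880) (nat_lit 16646144)))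
  false (nat_lit 0)
def b0_21 : Bx := Bx.mk (St.mk (I.pos (nat_lit 171393024) (nat_lit 217907200)) (I.mix (nat_lit 10977280) (nat_lit 50331648)) (I.mix (nat_lit 22151168) (nat_lit 55525376)) (I.pos (nat_lit 142901248) (nat_lit 222855168)) (I.mix (nat_lit 129236992) (nat_lit 58458112)) (I.mix (nat_lit 102121472) (nat_lit 71303168)) (I.mix (nat_lit 106610688) (nat_lit 77447168)))
  false (nat_lit 10828035)
def b0_22 : Bx := Bx.mk (St.mk (I.mix (nat_lit 14843904) (nat_lit 125042688)) (I.mix (nat_lit 2015232) (nat_lit 27164672)) (I.mix (nat_lit 11714560) (nat_lit 8208384)) (I.pos (nat_lit 17383424) (nat_lit 93011968)) (I.mix (nat_lit 40468480) (nat_lit 30867456)) (I.mix (nat_lit 34668544) (nat_lit 27492352)) (I.mix (nat_lit 18513920) (nat_lit 16089088)))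
  false (nat_lit 0)
def b0_23 : Bx := Bx.mk (St.mk (I.mix (nat_lit 23314432) (nat_lit 78594048)) (I.neg (nat_lit 704512) (nat_lit 14614528)) (I.neg (nat_lit 2211840) (nat_lit 20152320)) (I.pos (nat_lit 17055744) (nat_lit 58638336)) (I.mix (nat_lit 37978112) (nat_lit 15548416)) (I.mix (nat_lit 14925824) (nat_lit 31391744)) (I.mix (nat_lit 6946816) (nat_lit 17416192)))
  false (nat_lit 0)
def b0_24 : Bx := Bx.mk (St.mk (I.pos (nat_lit 118063104) (nat_lit 155385856)) (I.neg (nat_lit 2850816) (nat_lit 33619968)) (I.neg (nat_lit 20463616) (nat_lit 47579136)) (I.pos (nat_lit 82067456) (nat_lit 116162560)) (I.mix (nat_lit 60882944) (nat_lit 19546112)) (I.mix (nat_lit 15532032) (nat_lit 38912000)) (I.mix (nat_lit 11763712) (nat_lit 42172416)))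
  false (nat_lit 0)
def b0_25 : Bx := Bx.mk (St.mk (I.mix (nat_lit 11091968) (nat_lit 94715904)) (I.mix (nat_lit 15499264) (nat_lit 884736)) (I.neg (nat_lit 1949696) (nat_lit 20299776)) (I.pos (nat_lit 17350656) (nat_lit 65306624)) (I.mix (nat_lit 28459008) (nat_lit 11780096)) (I.mix (nat_lit 10010624) (nat_lit 17842176)) (I.mix (nat_lit 4997120) (nat_lit 12189696)))
  false (nat_lit 0)
def b0_26 : Bx := Bx.mk (St.mk (I.pos (nat_lit 175128576) (nat_lit 211501056)) (I.mix (nat_lit 23986176) (nat_lit 11026432)) (I.neg (nat_lit 458752) (nat_lit 46743552)) (I.pos (nat_lit 141672448) (nat_lit 202096640)) (I.mix (nat_lit 61423616) (nat_lit 62324736)) (I.mix (nat_lit 59441152) (nat_lit 55820288)) (I.mix (nat_lit 64045056) (nat_lit 55066624)))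
  false (nat_lit 0)
def b0_27 : Bx := Bx.mk (St.mk (I.mix (nat_lit 14729216) (nat_lit 118063104)) (I.mix (nat_lit 7585792) (nat_lit 12173312)) (I.neg (nat_lit 1458176) (nat_lit 18169856)) (I.pos (nat_lit 17203200) (nat_lit 86507520)) (I.mix (nat_lit 22855680) (nat_lit 29589504)) (I.mix (nat_lit 22806528) (nat_lit 20480000)) (I.mix (nat_lit 13549568) (nat_lit 11468800)))
  false (nat_lit 0)
def b0_28 : Bx := Bx.mk (St.mk (I.pos (nat_lit 128827392) (nat_lit 170868736)) (I.neg (nat_lit 3588096) (nat_lit 35454976)) (I.neg (nat_lit 16678912) (nat_lit 53886976)) (I.pos (nat_lit 89702400) (nat_lit 145391616)) (I.mix (nat_lit 47202304) (nat_lit 9977856)) (I.mix (nat_lit 10371072) (nat_lit 25133056)) (I.mix (nat_lit 10141696) (nat_lit 31686656)))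
  false (nat_lit 0)
def b0_29 : Bx := Bx.mk (St.mk (I.mix (nat_lit 6602752) (nat_lit 97779712)) (I.mix (nat_lit 13762560) (nat_lit 2506752)) (I.neg (nat_lit 1916928) (nat_lit 20168704)) (I.pos (nat_lit 17481728) (nat_lit 71122944)) (I.mix (nat_lit 16859136) (nat_lit 3801088)) (I.mix (nat_lit 3801088) (nat_lit 8159232)) (I.mix (nat_lit 1900544) (nat_lit 6897664)))
  false (nat_lit 0)
def b0_30 : Bx := Bx.mk (St.mk (I.pos (nat_lit 150224896) (nat_lit 195215360)) (I.mix (nat_lit 35094528) (nat_lit 589824)) (I.neg (nat_lit 9338880) (nat_lit 59604992)) (I.pos (nat_lit 108609536) (nat_lit 179421184)) (I.mix (nat_lit 40697856) (nat_lit 23756800)) (I.mix (nat_lit 19595264) (nat_lit 24657920)) (I.mix (nat_lit 21495808) (nat_lit 30785536)))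
  false (nat_lit 0)
def b0_31 : Bx := Bx.mk (St.mk (I.mix (nat_lit 18120704) (nat_lit 109035520)) (I.mix (nat_lit 10043392) (nat_lit 6504448)) (I.neg (nat_lit 1884160) (nat_lit 19595264)) (I.pos (nat_lit 17383424) (nat_lit 79511552)) (I.mix (nat_lit 11517952) (nat_lit 13254656)) (I.mix (nat_lit 8142848) (nat_lit 7946240)) (I.mix (nat_lit 4800512) (nat_lit 5554176)))
  false (nat_lit 0)
def b0_32 : Bx := Bx.mk (St.mk (I.pos (nat_lit 111476736) (nat_lit 150962176)) (I.neg (nat_lit 6144000) (nat_lit 41353216)) (I.neg (nat_lit 23511040) (nat_lit 55410688)) (I.pos (nat_lit 77135872) (nat_lit 110166016)) (I.mix (nat_lit 71991296) (nat_lit 40648704)) (I.mix (nat_lit 33357824) (nat_lit 54853632)) (I.mix (nat_lit 26689536) (nat_lit 56229888)))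
  false (nat_lit 0)
def b0_33 : Bx := Bx.mk (St.mk (I.mix (nat_lit 12861440) (nat_lit 90210304)) (I.mix (nat_lit 22413312) (nat_lit 196608)) (I.neg (nat_lit 2064384) (nat_lit 24297472)) (I.pos (nat_lit 16580608) (nat_lit 63569920)) (I.mix (nat_lit 38207488) (nat_lit 27508736)) (I.mix (nat_lit 17940480) (nat_lit 32096256)) (I.mix (nat_lit 9191424) (nat_lit 20578304)))
  false (nat_lit 0)
def b0_34 : Bx := Bx.mk (St.mk (I.pos (nat_lit 171294720) (nat_lit 217595904)) (I.mix (nat_lit 16580608) (nat_lit 27590656)) (I.mix (nat_lit 34734080) (nat_lit 23511040)) (I.pos (nat_lit 143540224) (nat_lit 210599936)) (I.mix (nat_lit 108511232) (nat_lit 81084416)) (I.mix (nat_lit 112607232) (nat_lit 73777152)) (I.mix (nat_lit 121110528) (nat_lit 76562432)))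
  false (nat_lit 8155943)
def b0_35 : Bx := Bx.mk (St.mk (I.pos (nat_lit 27443200) (nat_lit 120668160)) (I.mix (nat_lit 4620288) (nat_lit 19398656)) (I.mix (nat_lit 15204352) (nat_lit 2998272)) (I.pos (nat_lit 20889600) (nat_lit 88653824)) (I.mix (nat_lit 43417600) (nat_lit 37928960)) (I.mix (nat_lit 42401792) (nat_lit 26705920)) (I.mix (nat_lit 24166400) (nat_lit 15810560)))
  false (nat_lit 0)
def b0_36 : Bx := Bx.mk (St.mk (I.pos (nat_lit 125353984) (nat_lit 174702592)) (I.neg (nat_lit 6307840) (nat_lit 38895616)) (I.neg (nat_lit 19316736) (nat_lit 58343424)) (I.pos (nat_lit 86900736) (nat_lit 149979136)) (I.mix (nat_lit 49545216) (nat_lit 27787264)) (I.mix (nat_lit 18841600) (nat_lit 36470784)) (I.mix (nat_lit 19218432) (nat_lit 43630592)))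
  false (nat_lit 0)
def b0_37 : Bx := Bx.mk (St.mk (I.mix (nat_lit 6684672) (nat_lit 99155968)) (I.mix (nat_lit 17367040) (nat_lit 1966080)) (I.neg (nat_lit 1916928) (nat_lit 22659072)) (I.pos (nat_lit 17465344) (nat_lit 72155136)) (I.mix (nat_lit 20054016) (nat_lit 13926400)) (I.mix (nat_lit 7651328) (nat_lit 15024128)) (I.mix (nat_lit 4489216) (nat_lit 11206656)))
  false (nat_lit 0)
def b0_38 : Bx := Bx.mk (St.mk (I.pos (nat_lit 146997248) (nat_lit 196018176)) (I.mix (nat_lit 32800768) (nat_lit 7323648)) (I.neg (nat_lit 3112960) (nat_lit 54935552)) (I.pos (nat_lit 106430464) (nat_lit 179879936)) (I.mix (nat_lit 53002240) (nat_lit 27869184)) (I.mix (nat_lit 37568512) (nat_lit 29442048)) (I.mix (nat_lit 39288832) (nat_lit 32833536)))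
  false (nat_lit 0)
def b0_39 : Bx := Bx.mk (St.mk (I.mix (nat_lit 18759680) (nat_lit 108920832)) (I.mix (nat_lit 9650176) (nat_lit 9142272)) (I.neg (nat_lit 1654784) (nat_lit 18317312)) (I.pos (nat_lit 17580032) (nat_lit 79314944)) (I.mix (nat_lit 19185664) (nat_lit 10649600)) (I.mix (nat_lit 12910592) (nat_lit 8781824)) (I.mix (nat_lit 7323648) (nat_lit 6897664)))
  false (nat_lit 0)
def b0_40 : Bx := Bx.mk (St.mk (I.pos (nat_lit 140165120) (nat_lit 173441024)) (I.neg (nat_lit 5242880) (nat_lit 33226752)) (I.neg (nat_lit 17547264) (nat_lit 55296000)) (I.pos (nat_lit 99516416) (nat_lit 148865024)) (I.mix (nat_lit 36569088) (nat_lit 8798208)) (I.mix (nat_lit 8519680) (nat_lit 20627456)) (I.mix (nat_lit 8110080) (nat_lit 27295744)))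
  false (nat_lit 0)
def b0_41 : Bx := Bx.mk (St.mk (I.pos (nat_lit 147800064) (nat_lit 193085440)) (I.mix (nat_lit 33767424) (nat_lit 425984)) (I.neg (nat_lit 10010624) (nat_lit 57065472)) (I.pos (nat_lit 106414080) (nat_lit 177618944)) (I.mix (nat_lit 36110336) (nat_lit 10354688)) (I.mix (nat_lit 11894784) (nat_lit 18382848)) (I.mix (nat_lit 12206080) (nat_lit 24510464)))
  false (nat_lit 0)
def b0_42 : Bx := Bx.mk (St.mk (I.pos (nat_lit 118538240) (nat_lit 148602880)) (I.neg (nat_lit 9158656) (nat_lit 32768000)) (I.neg (nat_lit 26132480) (nat_lit 46759936)) (I.pos (nat_lit 84393984) (nat_lit 110821376)) (I.mix (nat_lit 44417024) (nat_lit 4079616)) (I.mix (nat_lit 6520832) (nat_lit 24903680)) (I.mix (nat_lit 2637824) (nat_lit 28131328)))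
  false (nat_lit 0)
def b0_43 : Bx := Bx.mk (St.mk (I.pos (nat_lit 180453376) (nat_lit 208715776)) (I.mix (nat_lit 13893632) (nat_lit 10977280)) (I.neg (nat_lit 196608) (nat_lit 31916032)) (I.pos (nat_lit 150863872) (nat_lit 198967296)) (I.mix (nat_lit 36470784) (nat_lit 27131904)) (I.mix (nat_lit 28540928) (nat_lit 24788992)) (I.mix (nat_lit 28704768) (nat_lit 23855104)))
  false (nat_lit 0)
def b0_44 : Bx := Bx.mk (St.mk (I.pos (nat_lit 72056832) (nat_lit 116523008)) (I.mix (nat_lit 4096000) (nat_lit 12337152)) (I.neg (nat_lit 1376256) (nat_lit 14630912)) (I.pos (nat_lit 37847040) (nat_lit 85737472)) (I.mix (nat_lit 12304384) (nat_lit 14614528)) (I.mix (nat_lit 10715136) (nat_lit 8749056)) (I.mix (nat_lit 5963776) (nat_lit 4947968)))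
  false (nat_lit 0)
def b0_45 : Bx := Bx.mk (St.mk (I.pos (nat_lit 51576832) (nat_lit 98091008)) (I.mix (nat_lit 16089088) (nat_lit 458752)) (I.neg (nat_lit 3670016) (nat_lit 21315584)) (I.pos (nat_lit 28278784) (nat_lit 71663616)) (I.mix (nat_lit 15532032) (nat_lit 10092544)) (I.mix (nat_lit 7700480) (nat_lit 10387456)) (I.mix (nat_lit 4374528) (nat_lit 8159232)))
  false (nat_lit 0)
def b0_46 : Bx := Bx.mk (St.mk (I.pos (nat_lit 44072960) (nat_lit 110755840)) (I.mix (nat_lit 8699904) (nat_lit 9764864)) (I.neg (nat_lit 1900544) (nat_lit 18153472)) (I.pos (nat_lit 25247744) (nat_lit 80429056)) (I.mix (nat_lit 15073280) (nat_lit 10223616)) (I.mix (nat_lit 9486336) (nat_lit 8896512)) (I.mix (nat_lit 5128192) (nat_lit 6799360)))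
  false (nat_lit 0)
def b0_47 : Bx := Bx.mk (St.mk (I.pos (nat_lit 118816768) (nat_lit 155713536)) (I.neg (nat_lit 4014080) (nat_lit 36372480)) (I.neg (nat_lit 21135360) (nat_lit 52707328)) (I.pos (nat_lit 82460672) (nat_lit 119439360)) (I.mix (nat_lit 56639488) (nat_lit 22790144)) (I.mix (nat_lit 20054016) (nat_lit 38305792)) (I.mix (nat_lit 16826368) (nat_lit 41385984)))
  false (nat_lit 0)
def b0_48 : Bx := Bx.mk (St.mk (I.mix (nat_lit 9682944) (nat_lit 95993856)) (I.mix (nat_lit 15499264) (nat_lit 393216)) (I.neg (nat_lit 1949696) (nat_lit 20316160)) (I.pos (nat_lit 17383424) (nat_lit 65470464)) (I.mix (nat_lit 25640960) (nat_lit 13516800)) (I.mix (nat_lit 11780096) (nat_lit 17334272)) (I.mix (nat_lit 6324224) (nat_lit 11927552)))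
  false (nat_lit 0)
def b0_49 : Bx := Bx.mk (St.mk (I.pos (nat_lit 171409408) (nat_lit 209666048)) (I.mix (nat_lit 25280512) (nat_lit 10289152)) (I.neg (nat_lit 1474560) (nat_lit 48529408)) (I.pos (nat_lit 134823936) (nat_lit 198557696)) (I.mix (nat_lit 69140480) (nat_lit 51200000)) (I.mix (nat_lit 58998784) (nat_lit 56950784)) (I.mix (nat_lit 62750720) (nat_lit 60686336)))
  false (nat_lit 0)
def b0_50 : Bx := Bx.mk (St.mk (I.mix (nat_lit 23805952) (nat_lit 117063680)) (I.mix (nat_lit 7225344) (nat_lit 10977280)) (I.neg (nat_lit 2015232) (nat_lit 17711104)) (I.pos (nat_lit 15548416) (nat_lit 85606400)) (I.mix (nat_lit 25067520) (nat_lit 24166400)) (I.mix (nat_lit 22036480) (nat_lit 20545536)) (I.mix (nat_lit 12861440) (nat_lit 12533760)))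
  false (nat_lit 0)
def b0_51 : Bx := Bx.mk (St.mk (I.pos (nat_lit 140345344) (nat_lit 171556864)) (I.neg (nat_lit 3162112) (nat_lit 31768576)) (I.neg (nat_lit 16220160) (nat_lit 53788672)) (I.pos (nat_lit 97697792) (nat_lit 146309120)) (I.mix (nat_lit 41025536) (nat_lit 11763712)) (I.mix (nat_lit 10010624) (nat_lit 24592384)) (I.mix (nat_lit 10092544) (nat_lit 31621120)))
  false (nat_lit 0)
def b0_52 : Bx := Bx.mk (St.mk (I.pos (nat_lit 148963328) (nat_lit 191905792)) (I.neg (nat_lit 2555904) (nat_lit 35749888)) (I.neg (nat_lit 13139968) (nat_lit 60473344)) (I.pos (nat_lit 107708416) (nat_lit 172900352)) (I.mix (nat_lit 42926080) (nat_lit 17825792)) (I.mix (nat_lit 18661376) (nat_lit 23576576)) (I.mix (nat_lit 20480000) (nat_lit 30392320)))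
  false (nat_lit 0)
def b0_53 : Bx := Bx.mk (St.mk (I.pos (nat_lit 68452352) (nat_lit 108675072)) (I.mix (nat_lit 10780672) (nat_lit 5849088)) (I.neg (nat_lit 3440640) (nat_lit 19759104)) (I.pos (nat_lit 40943616) (nat_lit 79249408)) (I.mix (nat_lit 12369920) (nat_lit 11550720)) (I.mix (nat_lit 8339456) (nat_lit 8192000)) (I.mix (nat_lit 4816896) (nat_lit 6144000)))
  false (nat_lit 0)
def b0_54 : Bx := Bx.mk (St.mk (I.pos (nat_lit 148832256) (nat_lit 198574080)) (I.mix (nat_lit 31703040) (nat_lit 7684096)) (I.neg (nat_lit 2867200) (nat_lit 53772288)) (I.pos (nat_lit 107806720) (nat_lit 183074816)) (I.mix (nat_lit 48054272) (nat_lit 20463616)) (I.mix (nat_lit 25837568) (nat_lit 28360704)) (I.mix (nat_lit 25608192) (nat_lit 34422784)))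
  false (nat_lit 0)
def b0_55 : Bx := Bx.mk (St.mk (I.pos (nat_lit 124928000) (nat_lit 172572672)) (I.neg (nat_lit 6520832) (nat_lit 38141952)) (I.neg (nat_lit 19415040) (nat_lit 60604416)) (I.pos (nat_lit 85884928) (nat_lit 147144704)) (I.mix (nat_lit 49889280) (nat_lit 14008320)) (I.mix (nat_lit 12894208) (nat_lit 29900800)) (I.mix (nat_lit 11747328) (nat_lit 35454976)))
  false (nat_lit 0)
def b0_56 : Bx := Bx.mk (St.mk (I.pos (nat_lit 48594944) (nat_lit 99893248)) (I.mix (nat_lit 10420224) (nat_lit 2899968)) (I.neg (nat_lit 3440640) (nat_lit 19021824)) (I.pos (nat_lit 28049408) (nat_lit 72843264)) (I.mix (nat_lit 12451840) (nat_lit 6045696)) (I.mix (nat_lit 4259840) (nat_lit 6930432)) (I.mix (nat_lit 1703936) (nat_lit 5849088)))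
  false (nat_lit 0)
def b0_57 : Bx := Bx.mk (St.mk (I.pos (nat_lit 76857344) (nat_lit 109166592)) (I.mix (nat_lit 10518528) (nat_lit 6668288)) (I.neg (nat_lit 3211264) (nat_lit 19185664)) (I.pos (nat_lit 40812544) (nat_lit 79757312)) (I.mix (nat_lit 10027008) (nat_lit 6782976)) (I.mix (nat_lit 5160960) (nat_lit 5144576)) (I.mix (nat_lit 2834432) (nat_lit 4718592)))
  false (nat_lit 0)
def b0_58 : Bx := Bx.mk (St.mk (I.pos (nat_lit 45826048) (nat_lit 94175232)) (I.mix (nat_lit 14745600) (nat_lit 2555904)) (I.neg (nat_lit 3309568) (nat_lit 20774912)) (I.pos (nat_lit 26935296) (nat_lit 67944448)) (I.mix (nat_lit 13172736) (nat_lit 4964352)) (I.mix (nat_lit 3407872) (nat_lit 6651904)) (I.mix (nat_lit 1359872) (nat_lit 6111232)))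
  false (nat_lit 0)
def t0 : BTr := (BTr.n (BTr.n (BTr.n (BTr.n (BTr.n (BTr.b b0_0) (BTr.n (BTr.b b0_1) (BTr.b b0_2))) (BTr.n (BTr.n (BTr.b b0_3) (BTr.b b0_4)) (BTr.n (BTr.b b0_5) (BTr.b b0_6)))) (BTr.n (BTr.n (BTr.b b0_7) (BTr.n (BTr.b b0_8) (BTr.b b0_9))) (BTr.n (BTr.n (BTr.b b0_10) (BTr.b b0_11)) (BTr.n (BTr.b b0_12) (BTr.b b0_13))))) (BTr.n (BTr.n (BTr.n (BTr.b b0_14) (BTr.n (BTr.b b0_15) (BTr.b b0_16))) (BTr.n (BTr.n (BTr.b b0_17) (BTr.b b0_18)) (BTr.n (BTr.b b0_19) (BTr.b b0_20)))) (BTr.n (BTr.n (BTr.n (BTr.b b0_21) (BTr.b b0_22)) (BTr.n (BTr.b b0_23) (BTr.b b0_24))) (BTr.n (BTr.n (BTr.b b0_25) (BTr.b b0_26)) (BTr.n (BTr.b b0_27) (BTr.b b0_28)))))) (BTr.n (BTr.n (BTr.n (BTr.n (BTr.b b0_29) (BTr.n (BTr.b b0_30) (BTr.b b0_31))) (BTr.n (BTr.n (BTr.b b0_32) (BTr.b b0_33)) (BTr.n (BTr.b b0_34) (BTr.b b0_35)))) (BTr.n (BTr.n (BTr.n (BTr.b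 b0_36) (BTr.b b0_37)) (BTr.n (BTr.b b0_38) (BTr.b b0_39))) (BTr.n (BTr.n (BTr.b b0_40) (BTr.b b0_41)) (BTr.n (BTr.b b0_42) (BTr.b b0_43))))) (BTr.n (BTr.n (BTr.n (BTr.b b0_44) (BTr.n (BTr.b b0_45) (BTr.b b0_46))) (BTr.n (BTr.n (BTr.b b0_47) (BTr.b b0_48)) (BTr.n (BTr.b b0_49) (BTr.b b0_50)))) (BTr.n (BTr.n (BTr.n (BTr.b b0_51) (BTr.b b0_52)) (BTr.n (BTr.b b0_53) (BTr.b b0_54))) (BTr.n (BTr.n (BTr.b b0_55) (BTr.b b0_56)) (BTr.n (BTr.b b0_57) (BTr.b b0_58)))))))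
namespace T0
def l0 : Tr := Tr.L (Pth.l (Pth.l (Pth.l (Pth.l (Pth.l Pth.z)))))
def l1 : Tr := Tr.L (Pth.l (Pth.l (Pth.l (Pth.l (Pth.r (Pth.l Pth.z))))))
def l2 : Tr := Tr.L (Pth.l (Pth.l (Pth.l (Pth.l (Pth.r (Pth.r Pth.z))))))
def l3 : Tr := Tr.L (Pth.l (Pth.l (Pth.l (Pth.r (Pth.l (Pth.l Pth.z))))))
def l4 : Tr := Tr.L (Pth.l (Pth.l (Pth.l (Pth.r (Pth.l (Pth.r Pth.z))))))
def l5 : Tr := Tr.L (Pth.l (Pth.l (Pth.l (Pth.r (Pth.r (Pth.l Pth.z))))))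
def l6 : Tr := Tr.L (Pth.l (Pth.l (Pth.l (Pth.r (Pth.r (Pth.r Pth.z))))))
def l7 : Tr := Tr.L (Pth.l (Pth.l (Pth.r (Pth.l (Pth.l Pth.z)))))
def l8 : Tr := Tr.L (Pth.l (Pth.l (Pth.r (Pth.l (Pth.r (Pth.l Pth.z))))))
def l9 : Tr := Tr.L (Pth.l (Pth.l (Pth.r (Pth.l (Pth.r (Pth.r Pth.z))))))
def l10 : Tr := Tr.L (Pth.l (Pth.l (Pth.r (Pth.r (Pth.l (Pth.l Pth.z))))))
def l11 : Tr := Tr.L (Pth.l (Pth.l (Pth.r (Pth.r (Pth.l (Pth.r Pth.z))))))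
def l12 : Tr := Tr.L (Pth.l (Pth.l (Pth.r (Pth.r (Pth.r (Pth.l Pth.z))))))
def l13 : Tr := Tr.L (Pth.l (Pth.l (Pth.r (Pth.r (Pth.r (Pth.r Pth.z))))))
def l14 : Tr := Tr.L (Pth.l (Pth.r (Pth.l (Pth.l (Pth.l Pth.z)))))
def l15 : Tr := Tr.L (Pth.l (Pth.r (Pth.l (Pth.l (Pth.r (Pth.l Pth.z))))))
def l16 : Tr := Tr.L (Pth.l (Pth.r (Pth.l (Pth.l (Pth.r (Pth.r Pth.z))))))
def l17 : Tr := Tr.L (Pth.l (Pth.r (Pth.l (Pth.r (Pth.l (Pth.l Pth.z))))))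
def l18 : Tr := Tr.L (Pth.l (Pth.r (Pth.l (Pth.r (Pth.l (Pth.r Pth.z))))))
def l19 : Tr := Tr.L (Pth.l (Pth.r (Pth.l (Pth.r (Pth.r (Pth.l Pth.z))))))
def l20 : Tr := Tr.L (Pth.l (Pth.r (Pth.l (Pth.r (Pth.r (Pth.r Pth.z))))))
def l21 : Tr := Tr.L (Pth.l (Pth.r (Pth.r (Pth.l (Pth.l (Pth.l Pth.z))))))
def l22 : Tr := Tr.L (Pth.l (Pth.r (Pth.r (Pth.l (Pth.l (Pth.r Pth.z))))))
def l23 : Tr := Tr.L (Pth.l (Pth.r (Pth.r (Pth.l (Pth.r (Pth.l Pth.z))))))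
def l24 : Tr := Tr.L (Pth.l (Pth.r (Pth.r (Pth.l (Pth.r (Pth.r Pth.z))))))
def l25 : Tr := Tr.L (Pth.l (Pth.r (Pth.r (Pth.r (Pth.l (Pth.l Pth.z))))))
def l26 : Tr := Tr.L (Pth.l (Pth.r (Pth.r (Pth.r (Pth.l (Pth.r Pth.z))))))
def l27 : Tr := Tr.L (Pth.l (Pth.r (Pth.r (Pth.r (Pth.r (Pth.l Pth.z))))))
def l28 : Tr := Tr.L (Pth.l (Pth.r (Pth.r (Pth.r (Pth.r (Pth.r Pth.z))))))
def l29 : Tr := Tr.L (Pth.r (Pth.l (Pth.l (Pth.l (Pth.l Pth.z)))))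
def l30 : Tr := Tr.L (Pth.r (Pth.l (Pth.l (Pth.l (Pth.r (Pth.l Pth.z))))))
def l31 : Tr := Tr.L (Pth.r (Pth.l (Pth.l (Pth.l (Pth.r (Pth.r Pth.z))))))
def l32 : Tr := Tr.L (Pth.r (Pth.l (Pth.l (Pth.r (Pth.l (Pth.l Pth.z))))))
def l33 : Tr := Tr.L (Pth.r (Pth.l (Pth.l (Pth.r (Pth.l (Pth.r Pth.z))))))
def l34 : Tr := Tr.L (Pth.r (Pth.l (Pth.l (Pth.r (Pth.r (Pth.l Pth.z))))))
def l35 : Tr := Tr.L (Pth.r (Pth.l (Pth.l (Pth.r (Pth.r (Pth.r Pth.z))))))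
def l36 : Tr := Tr.L (Pth.r (Pth.l (Pth.r (Pth.l (Pth.l (Pth.l Pth.z))))))
def l37 : Tr := Tr.L (Pth.r (Pth.l (Pth.r (Pth.l (Pth.l (Pth.r Pth.z))))))
def l38 : Tr := Tr.L (Pth.r (Pth.l (Pth.r (Pth.l (Pth.r (Pth.l Pth.z))))))
def l39 : Tr := Tr.L (Pth.r (Pth.l (Pth.r (Pth.l (Pth.r (Pth.r Pth.z))))))
def l40 : Tr := Tr.L (Pth.r (Pth.l (Pth.r (Pth.r (Pth.l (Pth.l Pth.z))))))
def l41 : Tr := Tr.L (Pth.r (Pth.l (Pth.r (Pth.r (Pth.l (Pth.r Pth.z))))))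
def l42 : Tr := Tr.L (Pth.r (Pth.l (Pth.r (Pth.r (Pth.r (Pth.l Pth.z))))))
def l43 : Tr := Tr.L (Pth.r (Pth.l (Pth.r (Pth.r (Pth.r (Pth.r Pth.z))))))
def l44 : Tr := Tr.L (Pth.r (Pth.r (Pth.l (Pth.l (Pth.l Pth.z)))))
def l45 : Tr := Tr.L (Pth.r (Pth.r (Pth.l (Pth.l (Pth.r (Pth.l Pth.z))))))
def l46 : Tr := Tr.L (Pth.r (Pth.r (Pth.l (Pth.l (Pth.r (Pth.r Pth.z))))))
def l47 : Tr := Tr.L (Pth.r (Pth.r (Pth.l (Pth.r (Pth.l (Pth.l Pth.z))))))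
def l48 : Tr := Tr.L (Pth.r (Pth.r (Pth.l (Pth.r (Pth.l (Pth.r Pth.z))))))
def l49 : Tr := Tr.L (Pth.r (Pth.r (Pth.l (Pth.r (Pth.r (Pth.l Pth.z))))))
def l50 : Tr := Tr.L (Pth.r (Pth.r (Pth.l (Pth.r (Pth.r (Pth.r Pth.z))))))
def l51 : Tr := Tr.L (Pth.r (Pth.r (Pth.r (Pth.l (Pth.l (Pth.l Pth.z))))))
def l52 : Tr := Tr.L (Pth.r (Pth.r (Pth.r (Pth.l (Pth.l (Pth.r Pth.z))))))
def l53 : Tr := Tr.L (Pth.r (Pth.r (Pth.r (Pth.l (Pth.r (Pth.l Pth.z))))))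
def l54 : Tr := Tr.L (Pth.r (Pth.r (Pth.r (Pth.l (Pth.r (Pth.r Pth.z))))))
def l55 : Tr := Tr.L (Pth.r (Pth.r (Pth.r (Pth.r (Pth.l (Pth.l Pth.z))))))
def l56 : Tr := Tr.L (Pth.r (Pth.r (Pth.r (Pth.r (Pth.l (Pth.r Pth.z))))))
def l57 : Tr := Tr.L (Pth.r (Pth.r (Pth.r (Pth.r (Pth.r (Pth.l Pth.z))))))
def l58 : Tr := Tr.L (Pth.r (Pth.r (Pth.r (Pth.r (Pth.r (Pth.r Pth.z))))))
end T0
def b1_0 : Bx := Bx.mk (St.mk (I.pos (nat_lit 160514048) (nat_lit 236732416)) (I.mix (nat_lit 278528) (nat_lit 51085312)) (I.mix (nat_lit 278528) (nat_lit 61210624)) (I.pos (nat_lit 98746368) (nat_lit 237895680)) (I.mix (nat_lit 99876864) (nat_lit 64192512)) (I.mix (nat_lit 60948480) (nat_lit 59899904)) (I.mix (nat_lit 93028352) (nat_lit 91865088)))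
  false (nat_lit 49068620)
def b1_1 : Bx := Bx.mk (St.mk (I.mix (nat_lit 3588096) (nat_lit 131153920)) (I.mix (nat_lit 557056) (nat_lit 22593536)) (I.mix (nat_lit 5586944) (nat_lit 9289728)) (I.mix (nat_lit 557056) (nat_lit 79904768)) (I.mix (nat_lit 27492352) (nat_lit 32866304)) (I.mix (nat_lit 21790720) (nat_lit 20856832)) (I.mix (nat_lit 18530304) (nat_lit 15630336)))
  false (nat_lit 0)
def b1_2 : Bx := Bx.mk (St.mk (I.pos (nat_lit 110886912) (nat_lit 148701184)) (I.neg (nat_lit 3457024) (nat_lit 38305792)) (I.neg (nat_lit 11272192) (nat_lit 53542912)) (I.pos (nat_lit 49037312) (nat_lit 98025472)) (I.mix (nat_lit 89128960) (nat_lit 26148864)) (I.mix (nat_lit 28655616) (nat_lit 71942144)) (I.mix (nat_lit 19136512) (nat_lit 68157440)))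
  false (nat_lit 0)
def b1_3 : Bx := Bx.mk (St.mk (I.mix (nat_lit 8650752) (nat_lit 99450880)) (I.mix (nat_lit 20594688) (nat_lit 557056)) (I.mix (nat_lit 22659072) (nat_lit 557056)) (I.mix (nat_lit 557056) (nat_lit 52822016)) (I.mix (nat_lit 38486016) (nat_lit 11911168)) (I.mix (nat_lit 13385728) (nat_lit 29982720)) (I.mix (nat_lit 6455296) (nat_lit 19693568)))
  false (nat_lit 0)
def b1_4 : Bx := Bx.mk (St.mk (I.pos (nat_lit 207470592) (nat_lit 246054912)) (I.mix (nat_lit 13058048) (nat_lit 25165824)) (I.mix (nat_lit 63094784) (nat_lit 7241728)) (I.pos (nat_lit 187269120) (nat_lit 244678656)) (I.mix (nat_lit 98729984) (nat_lit 36143104)) (I.mix (nat_lit 52281344) (nat_lit 58884096)) (I.mix (nat_lit 76414976) (nat_lit 106430464)))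
  false (nat_lit 39118996)
def b1_5 : Bx := Bx.mk (St.mk (I.pos (nat_lit 29589504) (nat_lit 131399680)) (I.mix (nat_lit 4292608) (nat_lit 9125888)) (I.mix (nat_lit 17367040) (nat_lit 65536)) (I.pos (nat_lit 3342336) (nat_lit 79478784)) (I.mix (nat_lit 31113216) (nat_lit 15237120)) (I.mix (nat_lit 18055168) (nat_lit 19267584)) (I.mix (nat_lit 13156352) (nat_lit 18317312)))
  false (nat_lit 0)
def b1_6 : Bx := Bx.mk (St.mk (I.pos (nat_lit 123584512) (nat_lit 144818176)) (I.mix (nat_lit 12386304) (nat_lit 5980160)) (I.neg (nat_lit 5062656) (nat_lit 28573696)) (I.pos (nat_lit 56229888) (nat_lit 95010816)) (I.mix (nat_lit 28409856) (nat_lit 32555008)) (I.mix (nat_lit 27721728) (nat_lit 26165248)) (I.mix (nat_lit 23904256) (nat_lit 21839872)))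
  false (nat_lit 0)
def b1_7 : Bx := Bx.mk (St.mk (I.mix (nat_lit 8650752) (nat_lit 95453184)) (I.mix (nat_lit 6291456) (nat_lit 2424832)) (I.mix (nat_lit 12861440) (nat_lit 557056)) (I.mix (nat_lit 557056) (nat_lit 50495488)) (I.mix (nat_lit 6848512) (nat_lit 10878976)) (I.mix (nat_lit 6848512) (nat_lit 6340608)) (I.mix (nat_lit 4161536) (nat_lit 3817472)))
  false (nat_lit 0)
def b1_8 : Bx := Bx.mk (St.mk (I.pos (nat_lit 195788800) (nat_lit 240484352)) (I.pos (nat_lit 6848512) (nat_lit 49512448)) (I.mix (nat_lit 14286848) (nat_lit 56590336)) (I.pos (nat_lit 181501952) (nat_lit 244875264)) (I.mix (nat_lit 101318656) (nat_lit 75431936)) (I.mix (nat_lit 77889536) (nat_lit 57507840)) (I.mix (nat_lit 128991232) (nat_lit 93339648)))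
  false (nat_lit 50217556)
def b1_9 : Bx := Bx.mk (St.mk (I.pos (nat_lit 71647232) (nat_lit 131874816)) (I.pos (nat_lit 1867776) (nat_lit 20496384)) (I.mix (nat_lit 9519104) (nat_lit 6160384)) (I.pos (nat_lit 20430848) (nat_lit 80576512)) (I.mix (nat_lit 28999680) (nat_lit 35504128)) (I.mix (nat_lit 27607040) (nat_lit 20529152)) (I.mix (nat_lit 23969792) (nat_lit 15695872)))
  false (nat_lit 0)
def b1_10 : Bx := Bx.mk (St.mk (I.pos (nat_lit 113901568) (nat_lit 143179776)) (I.neg (nat_lit 2015232) (nat_lit 23183360)) (I.neg (nat_lit 10256384) (nat_lit 39534592)) (I.pos (nat_lit 50462720) (nat_lit 93339648)) (I.mix (nat_lit 73744384) (nat_lit 32407552)) (I.mix (nat_lit 26525696) (nat_lit 67911680)) (I.mix (nat_lit 19185664) (nat_lit 62767104)))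
  false (nat_lit 0)
def b1_11 : Bx := Bx.mk (St.mk (I.mix (nat_lit 10813440) (nat_lit 44466176)) (I.mix (nat_lit 983040) (nat_lit 2260992)) (I.mix (nat_lit 4308992) (nat_lit 557056)) (I.mix (nat_lit 557056) (nat_lit 23232512)) (I.mix (nat_lit 5685248) (nat_lit 3932160)) (I.mix (nat_lit 3915776) (nat_lit 4014080)) (I.mix (nat_lit 655360) (nat_lit 868352)))
  false (nat_lit 0)
def b1_12 : Bx := Bx.mk (St.mk (I.pos (nat_lit 111476736) (nat_lit 133529600)) (I.mix (nat_lit 4734976) (nat_lit 3522560)) (I.neg (nat_lit 5144576) (nat_lit 17940480)) (I.pos (nat_lit 49610752) (nat_lit 83247104)) (I.mix (nat_lit 27967488) (nat_lit 14827520)) (I.mix (nat_lit 17219584) (nat_lit 17563648)) (I.mix (nat_lit 13287424) (nat_lit 17317888)))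
  false (nat_lit 0)
def b1_13 : Bx := Bx.mk (St.mk (I.pos (nat_lit 214384640) (nat_lit 256491520)) (I.mix (nat_lit 13778944) (nat_lit 12468224)) (I.neg (nat_lit 16367616) (nat_lit 69795840)) (I.pos (nat_lit 194920448) (nat_lit 271368192)) (I.mix (nat_lit 93143040) (nat_lit 38469632)) (I.mix (nat_lit 54984704) (nat_lit 55607296)) (I.mix (nat_lit 83197952) (nat_lit 104906752)))
  false (nat_lit 10525254)
def b1_14 : Bx := Bx.mk (St.mk (I.pos (nat_lit 83804160) (nat_lit 134119424)) (I.mix (nat_lit 4800512) (nat_lit 3604480)) (I.neg (nat_lit 3047424) (nat_lit 18071552)) (I.pos (nat_lit 27607040) (nat_lit 83476480)) (I.mix (nat_lit 28327936) (nat_lit 15859712)) (I.mix (nat_lit 17907712) (nat_lit 18087936)) (I.mix (nat_lit 13664256) (nat_lit 17580032)))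
  false (nat_lit 0)
def b1_15 : Bx := Bx.mk (St.mk (I.pos (nat_lit 120029184) (nat_lit 142491648)) (I.mix (nat_lit 4636672) (nat_lit 6127616)) (I.neg (nat_lit 4751360) (nat_lit 20054016)) (I.pos (nat_lit 54657024) (nat_lit 92717056)) (I.mix (nat_lit 26525696) (nat_lit 27066368)) (I.mix (nat_lit 22609920) (nat_lit 23576576)) (I.mix (nat_lit 19611648) (nat_lit 20299776)))
  false (nat_lit 0)
def b1_16 : Bx := Bx.mk (St.mk (I.pos (nat_lit 64700416) (nat_lit 94289920)) (I.mix (nat_lit 2293760) (nat_lit 2883584)) (I.neg (nat_lit 1392640) (nat_lit 9961472)) (I.pos (nat_lit 14909440) (nat_lit 49709056)) (I.mix (nat_lit 7700480) (nat_lit 8716288)) (I.mix (nat_lit 5177344) (nat_lit 6635520)) (I.mix (nat_lit 3031040) (nat_lit 4161536)))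
  false (nat_lit 0)
def b1_17 : Bx := Bx.mk (St.mk (I.pos (nat_lit 114851840) (nat_lit 159219712)) (I.neg (nat_lit 5783552) (nat_lit 40026112)) (I.neg (nat_lit 22675456) (nat_lit 51462144)) (I.pos (nat_lit 60473344) (nat_lit 101548032)) (I.mix (nat_lit 69386240) (nat_lit 31506432)) (I.mix (nat_lit 31932416) (nat_lit 48955392)) (I.mix (nat_lit 27312128) (nat_lit 49643520)))
  false (nat_lit 0)
def b1_18 : Bx := Bx.mk (St.mk (I.mix (nat_lit 5849088) (nat_lit 105660416)) (I.mix (nat_lit 22364160) (nat_lit 1867776)) (I.mix (nat_lit 22380544) (nat_lit 557056)) (I.mix (nat_lit 557056) (nat_lit 54231040)) (I.mix (nat_lit 36487168) (nat_lit 20316160)) (I.mix (nat_lit 16285696) (nat_lit 23707648)) (I.mix (nat_lit 9404416) (nat_lit 16875520)))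
  false (nat_lit 0)
def b1_19 : Bx := Bx.mk (St.mk (I.pos (nat_lit 174227456) (nat_lit 217923584)) (I.mix (nat_lit 12058624) (nat_lit 44974080)) (I.mix (nat_lit 18628608) (nat_lit 56262656)) (I.pos (nat_lit 126976000) (nat_lit 203538432)) (I.mix (nat_lit 120471552) (nat_lit 54099968)) (I.mix (nat_lit 94797824) (nat_lit 62472192)) (I.mix (nat_lit 104939520) (nat_lit 67993600)))
  false (nat_lit 0)
def b1_20 : Bx := Bx.mk (St.mk (I.mix (nat_lit 8683520) (nat_lit 133971968)) (I.mix (nat_lit 3440640) (nat_lit 24494080)) (I.mix (nat_lit 9207808) (nat_lit 11632640)) (I.mix (nat_lit 557056) (nat_lit 82542592)) (I.mix (nat_lit 40419328) (nat_lit 25722880)) (I.mix (nat_lit 33062912) (nat_lit 24477696)) (I.mix (nat_lit 21315584) (nat_lit 16515072)))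
  false (nat_lit 0)
def b1_21 : Bx := Bx.mk (St.mk (I.pos (nat_lit 126287872) (nat_lit 162938880)) (I.neg (nat_lit 2113536) (nat_lit 31719424)) (I.neg (nat_lit 16941056) (nat_lit 42827776)) (I.pos (nat_lit 73367552) (nat_lit 106299392)) (I.mix (nat_lit 56786944) (nat_lit 18235392)) (I.mix (nat_lit 13959168) (nat_lit 37519360)) (I.mix (nat_lit 11567104) (nat_lit 41009152)))
  false (nat_lit 0)
def b1_22 : Bx := Bx.mk (St.mk (I.pos (nat_lit 75218944) (nat_lit 106004480)) (I.mix (nat_lit 14483456) (nat_lit 1474560)) (I.neg (nat_lit 4194304) (nat_lit 17416192)) (I.pos (nat_lit 25804800) (nat_lit 55427072)) (I.mix (nat_lit 25280512) (nat_lit 10895360)) (I.mix (nat_lit 7798784) (nat_lit 16482304)) (I.mix (nat_lit 4341760) (nat_lit 12337152)))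
  false (nat_lit 0)
def b1_23 : Bx := Bx.mk (St.mk (I.pos (nat_lit 176947200) (nat_lit 213876736)) (I.mix (nat_lit 25886720) (nat_lit 7962624)) (I.mix (nat_lit 43892736) (nat_lit 1163264)) (I.pos (nat_lit 125714432) (nat_lit 185057280)) (I.mix (nat_lit 66666496) (nat_lit 60014592)) (I.mix (nat_lit 59457536) (nat_lit 56377344)) (I.mix (nat_lit 66617344) (nat_lit 58605568)))
  false (nat_lit 0)
def b1_24 : Bx := Bx.mk (St.mk (I.pos (nat_lit 21020672) (nat_lit 129089536)) (I.mix (nat_lit 9076736) (nat_lit 10452992)) (I.mix (nat_lit 16089088) (nat_lit 393216)) (I.pos (nat_lit 1163264) (nat_lit 76988416)) (I.mix (nat_lit 22659072) (nat_lit 27066368)) (I.mix (nat_lit 21561344) (nat_lit 19365888)) (I.mix (nat_lit 14401536) (nat_lit 12304384)))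
  false (nat_lit 0)
def b1_25 : Bx := Bx.mk (St.mk (I.pos (nat_lit 136904704) (nat_lit 176472064)) (I.neg (nat_lit 3178496) (nat_lit 33292288)) (I.neg (nat_lit 13484032) (nat_lit 48529408)) (I.pos (nat_lit 81199104) (nat_lit 133447680)) (I.mix (nat_lit 47742976) (nat_lit 8486912)) (I.mix (nat_lit 10764288) (nat_lit 25673728)) (I.mix (nat_lit 11108352) (nat_lit 31670272)))
  false (nat_lit 0)
def b1_26 : Bx := Bx.mk (St.mk (I.pos (nat_lit 48283648) (nat_lit 110673920)) (I.mix (nat_lit 12369920) (nat_lit 2277376)) (I.neg (nat_lit 573440) (nat_lit 17285120)) (I.pos (nat_lit 9502720) (nat_lit 62013440)) (I.mix (nat_lit 16121856) (nat_lit 4096000)) (I.mix (nat_lit 4603904) (nat_lit 7602176)) (I.mix (nat_lit 2719744) (nat_lit 6750208)))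
  false (nat_lit 0)
def b1_27 : Bx := Bx.mk (St.mk (I.pos (nat_lit 154009600) (nat_lit 196476928)) (I.neg (nat_lit 1507328) (nat_lit 34848768)) (I.neg (nat_lit 8912896) (nat_lit 55246848)) (I.pos (nat_lit 96141312) (nat_lit 161906688)) (I.mix (nat_lit 40304640) (nat_lit 26050560)) (I.mix (nat_lit 21823488) (nat_lit 26279936)) (I.mix (nat_lit 24576000) (nat_lit 30572544)))
  false (nat_lit 0)
def b1_28 : Bx := Bx.mk (St.mk (I.pos (nat_lit 5783552) (nat_lit 119734272)) (I.mix (nat_lit 10895360) (nat_lit 2850816)) (I.mix (nat_lit 17350656) (nat_lit 540672)) (I.mix (nat_lit 393216) (nat_lit 69091328)) (I.mix (nat_lit 10797056) (nat_lit 9699328)) (I.mix (nat_lit 6537216) (nat_lit 7143424)) (I.mix (nat_lit 4571136) (nat_lit 5931008)))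
  false (nat_lit 0)
def b1_29 : Bx := Bx.mk (St.mk (I.pos (nat_lit 119848960) (nat_lit 159449088)) (I.neg (nat_lit 4014080) (nat_lit 40304640)) (I.neg (nat_lit 20037632) (nat_lit 52264960)) (I.pos (nat_lit 68124672) (nat_lit 101056512)) (I.mix (nat_lit 68141056) (nat_lit 42254336)) (I.mix (nat_lit 34996224) (nat_lit 53837824)) (I.mix (nat_lit 30507008) (nat_lit 56295424)))
  false (nat_lit 0)
def b1_30 : Bx := Bx.mk (St.mk (I.mix (nat_lit 10207232) (nat_lit 105824256)) (I.mix (nat_lit 20447232) (nat_lit 1212416)) (I.mix (nat_lit 21594112) (nat_lit 98304)) (I.mix (nat_lit 557056) (nat_lit 54689792)) (I.mix (nat_lit 34766848) (nat_lit 25001984)) (I.mix (nat_lit 16859136) (nat_lit 28999680)) (I.mix (nat_lit 10092544) (nat_lit 20742144)))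
  false (nat_lit 0)
def b1_31 : Bx := Bx.mk (St.mk (I.pos (nat_lit 172802048) (nat_lit 217923584)) (I.mix (nat_lit 18006016) (nat_lit 24821760)) (I.mix (nat_lit 30507008) (nat_lit 25968640)) (I.pos (nat_lit 124829696) (nat_lit 191807488)) (I.mix (nat_lit 110460928) (nat_lit 81182720)) (I.mix (nat_lit 115064832) (nat_lit 75235328)) (I.mix (nat_lit 127549440) (nat_lit 83722240)))
  false (nat_lit 13749898)
def b1_32 : Bx := Bx.mk (St.mk (I.pos (nat_lit 51658752) (nat_lit 130940928)) (I.mix (nat_lit 6078464) (nat_lit 18120704)) (I.mix (nat_lit 12451840) (nat_lit 6045696)) (I.pos (nat_lit 9535488) (nat_lit 78774272)) (I.mix (nat_lit 45776896) (nat_lit 34586624)) (I.mix (nat_lit 43679744) (nat_lit 25968640)) (I.mix (nat_lit 28753920) (nat_lit 18104320)))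
  false (nat_lit 0)
def b1_33 : Bx := Bx.mk (St.mk (I.pos (nat_lit 133775360) (nat_lit 181354496)) (I.neg (nat_lit 4636672) (nat_lit 37584896)) (I.neg (nat_lit 14712832) (nat_lit 55574528)) (I.pos (nat_lit 78446592) (nat_lit 140197888)) (I.mix (nat_lit 49381376) (nat_lit 26165248)) (I.mix (nat_lit 18464768) (nat_lit 38584320)) (I.mix (nat_lit 20054016) (nat_lit 47267840)))
  false (nat_lit 0)
def b1_34 : Bx := Bx.mk (St.mk (I.pos (nat_lit 35733504) (nat_lit 117719040)) (I.mix (nat_lit 15810560) (nat_lit 2605056)) (I.neg (nat_lit 114688) (nat_lit 20463616)) (I.pos (nat_lit 5193728) (nat_lit 66568192)) (I.mix (nat_lit 18825216) (nat_lit 13107200)) (I.mix (nat_lit 7536640) (nat_lit 13844480)) (I.mix (nat_lit 5177344) (nat_lit 11206656)))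
  false (nat_lit 0)
def b1_35 : Bx := Bx.mk (St.mk (I.pos (nat_lit 149979136) (nat_lit 195854336)) (I.mix (nat_lit 32620544) (nat_lit 4440064)) (I.neg (nat_lit 2637824) (nat_lit 51412992)) (I.pos (nat_lit 92880896) (nat_lit 161349632)) (I.mix (nat_lit 56836096) (nat_lit 23625728)) (I.mix (nat_lit 34783232) (nat_lit 29392896)) (I.mix (nat_lit 37634048) (nat_lit 35028992)))
  false (nat_lit 0)
def b1_36 : Bx := Bx.mk (St.mk (I.mix (nat_lit 9388032) (nat_lit 119717888)) (I.mix (nat_lit 10321920) (nat_lit 5537792)) (I.mix (nat_lit 16547840) (nat_lit 557056)) (I.mix (nat_lit 557056) (nat_lit 69500928)) (I.mix (nat_lit 18595840) (nat_lit 8994816)) (I.mix (nat_lit 11681792) (nat_lit 8486912)) (I.mix (nat_lit 7569408) (nat_lit 7159808)))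
  false (nat_lit 0)
def b1_37 : Bx := Bx.mk (St.mk (I.pos (nat_lit 131661824) (nat_lit 158466048)) (I.neg (nat_lit 7651328) (nat_lit 30457856)) (I.neg (nat_lit 21512192) (nat_lit 40763392)) (I.pos (nat_lit 73039872) (nat_lit 98566144)) (I.mix (nat_lit 43384832) (nat_lit 5455872)) (I.mix (nat_lit 7782400) (nat_lit 24412160)) (I.mix (nat_lit 5079040) (nat_lit 28000256)))
  false (nat_lit 0)
def b1_38 : Bx := Bx.mk (St.mk (I.pos (nat_lit 179077120) (nat_lit 213876736)) (I.mix (nat_lit 21348352) (nat_lit 12713984)) (I.mix (nat_lit 34750464) (nat_lit 6389760)) (I.pos (nat_lit 127713280) (nat_lit 187564032)) (I.mix (nat_lit 53510144) (nat_lit 40812544)) (I.mix (nat_lit 44695552) (nat_lit 42106880)) (I.mix (nat_lit 46792704) (nat_lit 44154880)))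
  false (nat_lit 0)
def b1_39 : Bx := Bx.mk (St.mk (I.pos (nat_lit 67387392) (nat_lit 127401984)) (I.mix (nat_lit 5931008) (nat_lit 10829824)) (I.neg (nat_lit 65536) (nat_lit 12156928)) (I.pos (nat_lit 16580608) (nat_lit 76021760)) (I.mix (nat_lit 14663680) (nat_lit 15155200)) (I.mix (nat_lit 11960320) (nat_lit 10747904)) (I.mix (nat_lit 7569408) (nat_lit 7061504)))
  false (nat_lit 0)
def b1_40 : Bx := Bx.mk (St.mk (I.pos (nat_lit 137297920) (nat_lit 178569216)) (I.neg (nat_lit 4587520) (nat_lit 34603008)) (I.neg (nat_lit 14221312) (nat_lit 50544640)) (I.pos (nat_lit 81395712) (nat_lit 136691712)) (I.mix (nat_lit 39337984) (nat_lit 8945664)) (I.mix (nat_lit 8978432) (nat_lit 20578304)) (I.mix (nat_lit 9158656) (nat_lit 26378240)))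
  false (nat_lit 0)
def b1_41 : Bx := Bx.mk (St.mk (I.pos (nat_lit 90439680) (nat_lit 108724224)) (I.neg (nat_lit 901120) (nat_lit 13074432)) (I.neg (nat_lit 5013504) (nat_lit 17940480)) (I.pos (nat_lit 32718848) (nat_lit 59523072)) (I.mix (nat_lit 10600448) (nat_lit 1687552)) (I.mix (nat_lit 1540096) (nat_lit 4751360)) (I.mix (nat_lit 901120) (nat_lit 4833280)))
  false (nat_lit 0)
def b1_42 : Bx := Bx.mk (St.mk (I.pos (nat_lit 152600576) (nat_lit 191922176)) (I.neg (nat_lit 2932736) (nat_lit 32882688)) (I.neg (nat_lit 10010624) (nat_lit 51937280)) (I.pos (nat_lit 94699520) (nat_lit 156073984)) (I.mix (nat_lit 36192256) (nat_lit 8634368)) (I.mix (nat_lit 11354112) (nat_lit 17170432)) (I.mix (nat_lit 12173312) (nat_lit 22642688)))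
  false (nat_lit 0)
def b1_43 : Bx := Bx.mk (St.mk (I.pos (nat_lit 87883776) (nat_lit 119308288)) (I.mix (nat_lit 12500992) (nat_lit 5619712)) (I.neg (nat_lit 1884160) (nat_lit 19005440)) (I.pos (nat_lit 30326784) (nat_lit 68976640)) (I.mix (nat_lit 13959168) (nat_lit 9256960)) (I.mix (nat_lit 7290880) (nat_lit 7094272)) (I.mix (nat_lit 4374528) (nat_lit 6307840)))
  false (nat_lit 0)
def b1_44 : Bx := Bx.mk (St.mk (I.pos (nat_lit 88113152) (nat_lit 107479040)) (I.neg (nat_lit 2080768) (nat_lit 14647296)) (I.neg (nat_lit 6160384) (nat_lit 18563072)) (I.pos (nat_lit 31768576) (nat_lit 57884672)) (I.mix (nat_lit 13844480) (nat_lit 4734976)) (I.mix (nat_lit 3915776) (nat_lit 7520256)) (I.mix (nat_lit 2392064) (nat_lit 6668288)))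
  false (nat_lit 0)
def b1_45 : Bx := Bx.mk (St.mk (I.pos (nat_lit 159875072) (nat_lit 198443008)) (I.mix (nat_lit 28639232) (nat_lit 5046272)) (I.neg (nat_lit 2310144) (nat_lit 45727744)) (I.pos (nat_lit 103333888) (nat_lit 164429824)) (I.mix (nat_lit 46317568) (nat_lit 13582336)) (I.mix (nat_lit 19808256) (nat_lit 23199744)) (I.mix (nat_lit 18710528) (nat_lit 27164672)))
  false (nat_lit 0)
def b1_46 : Bx := Bx.mk (St.mk (I.pos (nat_lit 127188992) (nat_lit 164118528)) (I.neg (nat_lit 2752512) (nat_lit 34963456)) (I.neg (nat_lit 17301504) (nat_lit 48250880)) (I.pos (nat_lit 73564160) (nat_lit 110592000)) (I.mix (nat_lit 54853632) (nat_lit 21725184)) (I.mix (nat_lit 17285120) (nat_lit 38273024)) (I.mix (nat_lit 15646720) (nat_lit 42352640)))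
  false (nat_lit 0)
def b1_47 : Bx := Bx.mk (St.mk (I.pos (nat_lit 75759616) (nat_lit 106037248)) (I.mix (nat_lit 14188544) (nat_lit 1212416)) (I.neg (nat_lit 4292608) (nat_lit 17760256)) (I.pos (nat_lit 25935872) (nat_lit 55541760)) (I.mix (nat_lit 24231936) (nat_lit 12877824)) (I.mix (nat_lit 10141696) (nat_lit 17022976)) (I.mix (nat_lit 6307840) (nat_lit 12845056)))
  false (nat_lit 0)
def b1_48 : Bx := Bx.mk (St.mk (I.pos (nat_lit 173588480) (nat_lit 211058688)) (I.mix (nat_lit 27820032) (nat_lit 6914048)) (I.neg (nat_lit 917504) (nat_lit 46661632)) (I.pos (nat_lit 119095296) (nat_lit 182304768)) (I.mix (nat_lit 69713920) (nat_lit 51183616)) (I.mix (nat_lit 60784640) (nat_lit 51625984)) (I.mix (nat_lit 68321280) (nat_lit 53313536)))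
  false (nat_lit 0)
def b1_49 : Bx := Bx.mk (St.mk (I.pos (nat_lit 88997888) (nat_lit 128237568)) (I.mix (nat_lit 8781824) (nat_lit 9453568)) (I.neg (nat_lit 737280) (nat_lit 15695872)) (I.pos (nat_lit 28803072) (nat_lit 76267520)) (I.mix (nat_lit 25542656) (nat_lit 24576000)) (I.mix (nat_lit 22511616) (nat_lit 19005440)) (I.mix (nat_lit 15040512) (nat_lit 13041664)))
  false (nat_lit 0)
def b1_50 : Bx := Bx.mk (St.mk (I.pos (nat_lit 59686912) (nat_lit 94666752)) (I.neg (nat_lit 1196032) (nat_lit 12582912)) (I.neg (nat_lit 2555904) (nat_lit 17055744)) (I.pos (nat_lit 13680640) (nat_lit 49807360)) (I.mix (nat_lit 34848768) (nat_lit 15712256)) (I.mix (nat_lit 14008320) (nat_lit 30326784)) (I.mix (nat_lit 6995968) (nat_lit 19283968)))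
  false (nat_lit 0)
def b1_51 : Bx := Bx.mk (St.mk (I.mix (nat_lit 10551296) (nat_lit 97189888)) (I.mix (nat_lit 2555904) (nat_lit 1982464)) (I.mix (nat_lit 9895936) (nat_lit 557056)) (I.mix (nat_lit 557056) (nat_lit 48136192)) (I.mix (nat_lit 10059776) (nat_lit 4325376)) (I.mix (nat_lit 5586944) (nat_lit 4472832)) (I.mix (nat_lit 2867200) (nat_lit 3620864)))
  false (nat_lit 0)
def b1_52 : Bx := Bx.mk (St.mk (I.pos (nat_lit 110002176) (nat_lit 130269184)) (I.pos (nat_lit 262144) (nat_lit 9207808)) (I.neg (nat_lit 1949696) (nat_lit 12107776)) (I.pos (nat_lit 49102848) (nat_lit 78331904)) (I.mix (nat_lit 15613952) (nat_lit 4603904)) (I.mix (nat_lit 6078464) (nat_lit 6488064)) (I.mix (nat_lit 3653632) (nat_lit 6586368)))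
  false (nat_lit 0)
def b1_53 : Bx := Bx.mk (St.mk (I.pos (nat_lit 133201920) (nat_lit 166674432)) (I.neg (nat_lit 7618560) (nat_lit 36372480)) (I.neg (nat_lit 20774912) (nat_lit 51200000)) (I.pos (nat_lit 77643776) (nat_lit 114950144)) (I.mix (nat_lit 42024960) (nat_lit 4702208)) (I.mix (nat_lit 7307264) (nat_lit 22331392)) (I.mix (nat_lit 5652480) (nat_lit 27131904)))
  false (nat_lit 0)
def b1_54 : Bx := Bx.mk (St.mk (I.pos (nat_lit 93323264) (nat_lit 120209408)) (I.mix (nat_lit 7602176) (nat_lit 6258688)) (I.neg (nat_lit 1015808) (nat_lit 14385152)) (I.pos (nat_lit 32391168) (nat_lit 69795840)) (I.mix (nat_lit 11321344) (nat_lit 4882432)) (I.mix (nat_lit 5636096) (nat_lit 4456448)) (I.mix (nat_lit 3194880) (nat_lit 3948544)))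
  false (nat_lit 0)
def b1_55 : Bx := Bx.mk (St.mk (I.pos (nat_lit 136708096) (nat_lit 177733632)) (I.neg (nat_lit 2703360) (nat_lit 33243136)) (I.neg (nat_lit 12779520) (nat_lit 48709632)) (I.pos (nat_lit 81117184) (nat_lit 135430144)) (I.mix (nat_lit 45088768) (nat_lit 9814016)) (I.mix (nat_lit 10027008) (nat_lit 25870336)) (I.mix (nat_lit 10502144) (nat_lit 31948800)))
  false (nat_lit 0)
def b1_56 : Bx := Bx.mk (St.mk (I.pos (nat_lit 81739776) (nat_lit 111198208)) (I.mix (nat_lit 13172736) (nat_lit 3588096)) (I.neg (nat_lit 2768896) (nat_lit 18857984)) (I.pos (nat_lit 28278784) (nat_lit 62636032)) (I.mix (nat_lit 17743872) (nat_lit 7094272)) (I.mix (nat_lit 5652480) (nat_lit 9764864)) (I.mix (nat_lit 3080192) (nat_lit 8568832)))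
  false (nat_lit 0)
def b1_57 : Bx := Bx.mk (St.mk (I.pos (nat_lit 150863872) (nat_lit 196018176)) (I.neg (nat_lit 425984) (nat_lit 36028416)) (I.neg (nat_lit 9175040) (nat_lit 56672256)) (I.pos (nat_lit 92946432) (nat_lit 161415168)) (I.mix (nat_lit 42500096) (nat_lit 22429696)) (I.mix (nat_lit 22151168) (nat_lit 24657920)) (I.mix (nat_lit 25001984) (nat_lit 30015488)))
  false (nat_lit 0)
def b1_58 : Bx := Bx.mk (St.mk (I.pos (nat_lit 74530816) (nat_lit 120061952)) (I.mix (nat_lit 13549568) (nat_lit 4931584)) (I.neg (nat_lit 1556480) (nat_lit 20054016)) (I.pos (nat_lit 21446656) (nat_lit 69386240)) (I.mix (nat_lit 15237120) (nat_lit 12451840)) (I.mix (nat_lit 9240576) (nat_lit 9043968)) (I.mix (nat_lit 5947392) (nat_lit 7389184)))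
  false (nat_lit 0)
def t1 : BTr := (BTr.n (BTr.n (BTr.n (BTr.n (BTr.n (BTr.b b1_0) (BTr.n (BTr.b b1_1) (BTr.b b1_2))) (BTr.n (BTr.n (BTr.b b1_3) (BTr.b b1_4)) (BTr.n (BTr.b b1_5) (BTr.b b1_6)))) (BTr.n (BTr.n (BTr.b b1_7) (BTr.n (BTr.b b1_8) (BTr.b b1_9))) (BTr.n (BTr.n (BTr.b b1_10) (BTr.b b1_11)) (BTr.n (BTr.b b1_12) (BTr.b b1_13))))) (BTr.n (BTr.n (BTr.n (BTr.b b1_14) (BTr.n (BTr.b b1_15) (BTr.b b1_16))) (BTr.n (BTr.n (BTr.b b1_17) (BTr.b b1_18)) (BTr.n (BTr.b b1_19) (BTr.b b1_20)))) (BTr.n (BTr.n (BTr.n (BTr.b b1_21) (BTr.b b1_22)) (BTr.n (BTr.b b1_23) (BTr.b b1_24))) (BTr.n (BTr.n (BTr.b b1_25) (BTr.b b1_26)) (BTr.n (BTr.b b1_27) (BTr.b b1_28)))))) (BTr.n (BTr.n (BTr.n (BTr.n (BTr.b b1_29) (BTr.n (BTr.b b1_30) (BTr.b b1_31))) (BTr.n (BTr.n (BTr.b b1_32) (BTr.b b1_33)) (BTr.n (BTr.b b1_34) (BTr.b b1_35)))) (BTr.n (BTr.n (BTr.n (BTr.b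 b1_36) (BTr.b b1_37)) (BTr.n (BTr.b b1_38) (BTr.b b1_39))) (BTr.n (BTr.n (BTr.b b1_40) (BTr.b b1_41)) (BTr.n (BTr.b b1_42) (BTr.b b1_43))))) (BTr.n (BTr.n (BTr.n (BTr.b b1_44) (BTr.n (BTr.b b1_45) (BTr.b b1_46))) (BTr.n (BTr.n (BTr.b b1_47) (BTr.b b1_48)) (BTr.n (BTr.b b1_49) (BTr.b b1_50)))) (BTr.n (BTr.n (BTr.n (BTr.b b1_51) (BTr.b b1_52)) (BTr.n (BTr.b b1_53) (BTr.b b1_54))) (BTr.n (BTr.n (BTr.b b1_55) (BTr.b b1_56)) (BTr.n (BTr.b b1_57) (BTr.b b1_58)))))))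
namespace T1
def l0 : Tr := Tr.L (Pth.l (Pth.l (Pth.l (Pth.l (Pth.l Pth.z)))))
def l1 : Tr := Tr.L (Pth.l (Pth.l (Pth.l (Pth.l (Pth.r (Pth.l Pth.z))))))
def l2 : Tr := Tr.L (Pth.l (Pth.l (Pth.l (Pth.l (Pth.r (Pth.r Pth.z))))))
def l3 : Tr := Tr.L (Pth.l (Pth.l (Pth.l (Pth.r (Pth.l (Pth.l Pth.z))))))
def l4 : Tr := Tr.L (Pth.l (Pth.l (Pth.l (Pth.r (Pth.l (Pth.r Pth.z))))))
def l5 : Tr := Tr.L (Pth.l (Pth.l (Pth.l (Pth.r (Pth.r (Pth.l Pth.z))))))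
def l6 : Tr := Tr.L (Pth.l (Pth.l (Pth.l (Pth.r (Pth.r (Pth.r Pth.z))))))
def l7 : Tr := Tr.L (Pth.l (Pth.l (Pth.r (Pth.l (Pth.l Pth.z)))))
def l8 : Tr := Tr.L (Pth.l (Pth.l (Pth.r (Pth.l (Pth.r (Pth.l Pth.z))))))
def l9 : Tr := Tr.L (Pth.l (Pth.l (Pth.r (Pth.l (Pth.r (Pth.r Pth.z))))))
def l10 : Tr := Tr.L (Pth.l (Pth.l (Pth.r (Pth.r (Pth.l (Pth.l Pth.z))))))
def l11 : Tr := Tr.L (Pth.l (Pth.l (Pth.r (Pth.r (Pth.l (Pth.r Pth.z))))))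
def l12 : Tr := Tr.L (Pth.l (Pth.l (Pth.r (Pth.r (Pth.r (Pth.l Pth.z))))))
def l13 : Tr := Tr.L (Pth.l (Pth.l (Pth.r (Pth.r (Pth.r (Pth.r Pth.z))))))
def l14 : Tr := Tr.L (Pth.l (Pth.r (Pth.l (Pth.l (Pth.l Pth.z)))))
def l15 : Tr := Tr.L (Pth.l (Pth.r (Pth.l (Pth.l (Pth.r (Pth.l Pth.z))))))
def l16 : Tr := Tr.L (Pth.l (Pth.r (Pth.l (Pth.l (Pth.r (Pth.r Pth.z))))))
def l17 : Tr := Tr.L (Pth.l (Pth.r (Pth.l (Pth.r (Pth.l (Pth.l Pth.z))))))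
def l18 : Tr := Tr.L (Pth.l (Pth.r (Pth.l (Pth.r (Pth.l (Pth.r Pth.z))))))
def l19 : Tr := Tr.L (Pth.l (Pth.r (Pth.l (Pth.r (Pth.r (Pth.l Pth.z))))))
def l20 : Tr := Tr.L (Pth.l (Pth.r (Pth.l (Pth.r (Pth.r (Pth.r Pth.z))))))
def l21 : Tr := Tr.L (Pth.l (Pth.r (Pth.r (Pth.l (Pth.l (Pth.l Pth.z))))))
def l22 : Tr := Tr.L (Pth.l (Pth.r (Pth.r (Pth.l (Pth.l (Pth.r Pth.z))))))
def l23 : Tr := Tr.L (Pth.l (Pth.r (Pth.r (Pth.l (Pth.r (Pth.l Pth.z))))))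
def l24 : Tr := Tr.L (Pth.l (Pth.r (Pth.r (Pth.l (Pth.r (Pth.r Pth.z))))))
def l25 : Tr := Tr.L (Pth.l (Pth.r (Pth.r (Pth.r (Pth.l (Pth.l Pth.z))))))
def l26 : Tr := Tr.L (Pth.l (Pth.r (Pth.r (Pth.r (Pth.l (Pth.r Pth.z))))))
def l27 : Tr := Tr.L (Pth.l (Pth.r (Pth.r (Pth.r (Pth.r (Pth.l Pth.z))))))
def l28 : Tr := Tr.L (Pth.l (Pth.r (Pth.r (Pth.r (Pth.r (Pth.r Pth.z))))))
def l29 : Tr := Tr.L (Pth.r (Pth.l (Pth.l (Pth.l (Pth.l Pth.z)))))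
def l30 : Tr := Tr.L (Pth.r (Pth.l (Pth.l (Pth.l (Pth.r (Pth.l Pth.z))))))
def l31 : Tr := Tr.L (Pth.r (Pth.l (Pth.l (Pth.l (Pth.r (Pth.r Pth.z))))))
def l32 : Tr := Tr.L (Pth.r (Pth.l (Pth.l (Pth.r (Pth.l (Pth.l Pth.z))))))
def l33 : Tr := Tr.L (Pth.r (Pth.l (Pth.l (Pth.r (Pth.l (Pth.r Pth.z))))))
def l34 : Tr := Tr.L (Pth.r (Pth.l (Pth.l (Pth.r (Pth.r (Pth.l Pth.z))))))
def l35 : Tr := Tr.L (Pth.r (Pth.l (Pth.l (Pth.r (Pth.r (Pth.r Pth.z))))))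
def l36 : Tr := Tr.L (Pth.r (Pth.l (Pth.r (Pth.l (Pth.l (Pth.l Pth.z))))))
def l37 : Tr := Tr.L (Pth.r (Pth.l (Pth.r (Pth.l (Pth.l (Pth.r Pth.z))))))
def l38 : Tr := Tr.L (Pth.r (Pth.l (Pth.r (Pth.l (Pth.r (Pth.l Pth.z))))))
def l39 : Tr := Tr.L (Pth.r (Pth.l (Pth.r (Pth.l (Pth.r (Pth.r Pth.z))))))
def l40 : Tr := Tr.L (Pth.r (Pth.l (Pth.r (Pth.r (Pth.l (Pth.l Pth.z))))))
def l41 : Tr := Tr.L (Pth.r (Pth.l (Pth.r (Pth.r (Pth.l (Pth.r Pth.z))))))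
def l42 : Tr := Tr.L (Pth.r (Pth.l (Pth.r (Pth.r (Pth.r (Pth.l Pth.z))))))
def l43 : Tr := Tr.L (Pth.r (Pth.l (Pth.r (Pth.r (Pth.r (Pth.r Pth.z))))))
def l44 : Tr := Tr.L (Pth.r (Pth.r (Pth.l (Pth.l (Pth.l Pth.z)))))
def l45 : Tr := Tr.L (Pth.r (Pth.r (Pth.l (Pth.l (Pth.r (Pth.l Pth.z))))))
def l46 : Tr := Tr.L (Pth.r (Pth.r (Pth.l (Pth.l (Pth.r (Pth.r Pth.z))))))
def l47 : Tr := Tr.L (Pth.r (Pth.r (Pth.l (Pth.r (Pth.l (Pth.l Pth.z))))))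
def l48 : Tr := Tr.L (Pth.r (Pth.r (Pth.l (Pth.r (Pth.l (Pth.r Pth.z))))))
def l49 : Tr := Tr.L (Pth.r (Pth.r (Pth.l (Pth.r (Pth.r (Pth.l Pth.z))))))
def l50 : Tr := Tr.L (Pth.r (Pth.r (Pth.l (Pth.r (Pth.r (Pth.r Pth.z))))))
def l51 : Tr := Tr.L (Pth.r (Pth.r (Pth.r (Pth.l (Pth.l (Pth.l Pth.z))))))
def l52 : Tr := Tr.L (Pth.r (Pth.r (Pth.r (Pth.l (Pth.l (Pth.r Pth.z))))))
def l53 : Tr := Tr.L (Pth.r (Pth.r (Pth.r (Pth.l (Pth.r (Pth.l Pth.z))))))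
def l54 : Tr := Tr.L (Pth.r (Pth.r (Pth.r (Pth.l (Pth.r (Pth.r Pth.z))))))
def l55 : Tr := Tr.L (Pth.r (Pth.r (Pth.r (Pth.r (Pth.l (Pth.l Pth.z))))))
def l56 : Tr := Tr.L (Pth.r (Pth.r (Pth.r (Pth.r (Pth.l (Pth.r Pth.z))))))
def l57 : Tr := Tr.L (Pth.r (Pth.r (Pth.r (Pth.r (Pth.r (Pth.l Pth.z))))))
def l58 : Tr := Tr.L (Pth.r (Pth.r (Pth.r (Pth.r (Pth.r (Pth.r Pth.z))))))
end T1
def b2_0 : Bx := Bx.mk (St.mk (I.pos (nat_lit 137969664) (nat_lit 215302144)) (I.mix (nat_lit 278528) (nat_lit 89391104)) (I.mix (nat_lit 278528) (nat_lit 91619328)) (I.pos (nat_lit 366886912) (nat_lit 461438976)) (I.mix (nat_lit 144769024) (nat_lit 92536832)) (I.mix (nat_lit 74170368) (nat_lit 77594624)) (I.mix (nat_lit 100384768) (nat_lit 97779712)))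
  false (nat_lit 139252693)
def b2_1 : Bx := Bx.mk (St.mk (I.neg (nat_lit 7798784) (nat_lit 56344576)) (I.pos (nat_lit 32325632) (nat_lit 82853888)) (I.neg (nat_lit 41648128) (nat_lit 70156288)) (I.pos (nat_lit 262946816) (nat_lit 292388864)) (I.mix (nat_lit 41009152) (nat_lit 119554048)) (I.mix (nat_lit 78643200) (nat_lit 58343424)) (I.mix (nat_lit 42008576) (nat_lit 32292864)))
  true (nat_lit 0)
def b2_2 : Bx := Bx.mk (St.mk (I.pos (nat_lit 7798784) (nat_lit 56344576)) (I.neg (nat_lit 32325632) (nat_lit 82853888)) (I.neg (nat_lit 41648128) (nat_lit 70156288)) (I.pos (nat_lit 262946816) (nat_lit 292388864)) (I.mix (nat_lit 119554048) (nat_lit 41009152)) (I.mix (nat_lit 58343424) (nat_lit 78643200)) (I.mix (nat_lit 42008576) (nat_lit 32309248)))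
  false (nat_lit 70015852)
def b2_3 : Bx := Bx.mk (St.mk (I.pos (nat_lit 17301504) (nat_lit 78839808)) (I.neg (nat_lit 40910848) (nat_lit 86622208)) (I.neg (nat_lit 28655616) (nat_lit 75120640)) (I.pos (nat_lit 263094272) (nat_lit 307232768)) (I.mix (nat_lit 115441664) (nat_lit 67862528)) (I.mix (nat_lit 62832640) (nat_lit 69746688)) (I.mix (nat_lit 65748992) (nat_lit 58032128)))
  false (nat_lit 111714489)
def b2_4 : Bx := Bx.mk (St.mk (I.pos (nat_lit 123928576) (nat_lit 188170240)) (I.pos (nat_lit 15990784) (nat_lit 79118336)) (I.pos (nat_lit 15106048) (nat_lit 90767360)) (I.pos (nat_lit 336297984) (nat_lit 427917312)) (I.mix (nat_lit 160890880) (nat_lit 60719104)) (I.mix (nat_lit 123338752) (nat_lit 86671360)) (I.mix (nat_lit 123977728) (nat_lit 110329856)))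
  false (nat_lit 159258475)
def b2_5 : Bx := Bx.mk (St.mk (I.neg (nat_lit 17301504) (nat_lit 78839808)) (I.pos (nat_lit 40894464) (nat_lit 85573632)) (I.neg (nat_lit 28655616) (nat_lit 75120640)) (I.pos (nat_lit 263077888) (nat_lit 307249152)) (I.mix (nat_lit 67878912) (nat_lit 115441664)) (I.mix (nat_lit 69746688) (nat_lit 62832640)) (I.mix (nat_lit 65748992) (nat_lit 58048512)))
  true (nat_lit 0)
def b2_6 : Bx := Bx.mk (St.mk (I.pos (nat_lit 205537280) (nat_lit 284786688)) (I.mix (nat_lit 11157504) (nat_lit 59277312)) (I.mix (nat_lit 130252800) (nat_lit 22839296)) (I.pos (nat_lit 445825024) (nat_lit 560922624)) (I.mix (nat_lit 54657024) (nat_lit 61440000)) (I.mix (nat_lit 50069504) (nat_lit 44908544)) (I.mix (nat_lit 76791808) (nat_lit 82395136)))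
  false (nat_lit 139941468)
def b2_7 : Bx := Bx.mk (St.mk (I.mix (nat_lit 27344896) (nat_lit 10485760)) (I.mix (nat_lit 4374528) (nat_lit 36962304)) (I.neg (nat_lit 43188224) (nat_lit 56967168)) (I.pos (nat_lit 258293760) (nat_lit 271089664)) (I.mix (nat_lit 17399808) (nat_lit 39387136)) (I.mix (nat_lit 20561920) (nat_lit 17432576)) (I.mix (nat_lit 5177344) (nat_lit 8945664)))
  true (nat_lit 0)
def b2_8 : Bx := Bx.mk (St.mk (I.mix (nat_lit 10485760) (nat_lit 27344896)) (I.mix (nat_lit 36962304) (nat_lit 4374528)) (I.neg (nat_lit 43188224) (nat_lit 56967168)) (I.pos (nat_lit 258293760) (nat_lit 271089664)) (I.mix (nat_lit 39387136) (nat_lit 17399808)) (I.mix (nat_lit 17432576) (nat_lit 20561920)) (I.mix (nat_lit 5177344) (nat_lit 8945664)))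
  false (nat_lit 0)
def b2_9 : Bx := Bx.mk (St.mk (I.pos (nat_lit 189267968) (nat_lit 231817216)) (I.pos (nat_lit 12025856) (nat_lit 53837824)) (I.mix (nat_lit 43417600) (nat_lit 18235392)) (I.pos (nat_lit 417923072) (nat_lit 465387520)) (I.mix (nat_lit 70385664) (nat_lit 72351744)) (I.mix (nat_lit 57524224) (nat_lit 47841280)) (I.mix (nat_lit 78938112) (nat_lit 70877184)))
  false (nat_lit 112080900)
def b2_10 : Bx := Bx.mk (St.mk (I.neg (nat_lit 14237696) (nat_lit 36683776)) (I.pos (nat_lit 13729792) (nat_lit 37453824)) (I.neg (nat_lit 41025536) (nat_lit 56410112)) (I.pos (nat_lit 260997120) (nat_lit 273612800)) (I.mix (nat_lit 31145984) (nat_lit 53788672)) (I.mix (nat_lit 35700736) (nat_lit 29671424)) (I.mix (nat_lit 9551872) (nat_lit 15319040)))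
  true (nat_lit 0)
def b2_11 : Bx := Bx.mk (St.mk (I.pos (nat_lit 14237696) (nat_lit 36683776)) (I.neg (nat_lit 13729792) (nat_lit 37453824)) (I.neg (nat_lit 41025536) (nat_lit 56410112)) (I.pos (nat_lit 260997120) (nat_lit 273612800)) (I.mix (nat_lit 53788672) (nat_lit 31145984)) (I.mix (nat_lit 29671424) (nat_lit 35700736)) (I.mix (nat_lit 9551872) (nat_lit 15319040)))
  false (nat_lit 0)
def b2_12 : Bx := Bx.mk (St.mk (I.pos (nat_lit 227655680) (nat_lit 275890176)) (I.mix (nat_lit 23003136) (nat_lit 30851072)) (I.neg (nat_lit 28753920) (nat_lit 146538496)) (I.pos (nat_lit 466763776) (nat_lit 543834112)) (I.mix (nat_lit 61194240) (nat_lit 42991616)) (I.mix (nat_lit 40943616) (nat_lit 40583168)) (I.mix (nat_lit 58621952) (nat_lit 78528512)))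
  false (nat_lit 100613544)
def b2_13 : Bx := Bx.mk (St.mk (I.mix (nat_lit 23887872) (nat_lit 8142848)) (I.mix (nat_lit 9814016) (nat_lit 22069248)) (I.neg (nat_lit 42909696) (nat_lit 55312384)) (I.pos (nat_lit 258293760) (nat_lit 268435456)) (I.mix (nat_lit 21921792) (nat_lit 25870336)) (I.mix (nat_lit 16957440) (nat_lit 14073856)) (I.mix (nat_lit 2392064) (nat_lit 8388608)))
  true (nat_lit 0)
def b2_14 : Bx := Bx.mk (St.mk (I.mix (nat_lit 8142848) (nat_lit 23887872)) (I.mix (nat_lit 22069248) (nat_lit 9814016)) (I.neg (nat_lit 42909696) (nat_lit 55312384)) (I.pos (nat_lit 258293760) (nat_lit 268435456)) (I.mix (nat_lit 25870336) (nat_lit 21921792)) (I.mix (nat_lit 14073856) (nat_lit 16957440)) (I.mix (nat_lit 2392064) (nat_lit 8388608)))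
  false (nat_lit 0)
def b2_15 : Bx := Bx.mk (St.mk (I.pos (nat_lit 206553088) (nat_lit 231981056)) (I.pos (nat_lit 26869760) (nat_lit 49364992)) (I.mix (nat_lit 23920640) (nat_lit 9601024)) (I.pos (nat_lit 446676992) (nat_lit 468811776)) (I.mix (nat_lit 32243712) (nat_lit 20758528)) (I.mix (nat_lit 20971520) (nat_lit 12763136)) (I.mix (nat_lit 26984448) (nat_lit 17760256)))
  false (nat_lit 33165641)
def b2_16 : Bx := Bx.mk (St.mk (I.neg (nat_lit 11681792) (nat_lit 24543232)) (I.pos (nat_lit 20889600) (nat_lit 33341440)) (I.neg (nat_lit 43958272) (nat_lit 56147968)) (I.pos (nat_lit 260947968) (nat_lit 270991360)) (I.mix (nat_lit 2031616) (nat_lit 25985024)) (I.mix (nat_lit 12468224) (nat_lit 5292032)) (I.mix (nat_lit 2523136) (nat_lit 7159808)))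
  true (nat_lit 0)
def b2_17 : Bx := Bx.mk (St.mk (I.pos (nat_lit 11681792) (nat_lit 24543232)) (I.neg (nat_lit 20889600) (nat_lit 33341440)) (I.neg (nat_lit 43958272) (nat_lit 56147968)) (I.pos (nat_lit 260947968) (nat_lit 270991360)) (I.mix (nat_lit 25985024) (nat_lit 2031616)) (I.mix (nat_lit 5292032) (nat_lit 12468224)) (I.mix (nat_lit 2523136) (nat_lit 7159808)))
  false (nat_lit 0)
def b2_18 : Bx := Bx.mk (St.mk (I.pos (nat_lit 256344064) (nat_lit 276905984)) (I.mix (nat_lit 14434304) (nat_lit 5324800)) (I.neg (nat_lit 80625664) (nat_lit 135380992)) (I.pos (nat_lit 502743040) (nat_lit 545701888)) (I.mix (nat_lit 23068672) (nat_lit 9732096)) (I.mix (nat_lit 12828672) (nat_lit 10190848)) (I.mix (nat_lit 14467072) (nat_lit 26755072)))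
  false (nat_lit 0)
def b2_19 : Bx := Bx.mk (St.mk (I.mix (nat_lit 6914048) (nat_lit 6127616)) (I.mix (nat_lit 6307840) (nat_lit 7225344)) (I.neg (nat_lit 43745280) (nat_lit 54575104)) (I.pos (nat_lit 258441216) (nat_lit 266223616)) (I.mix (nat_lit 6291456) (nat_lit 7176192)) (I.mix (nat_lit 5029888) (nat_lit 3211264)) (I.pos (nat_lit 278528) (nat_lit 5701632)))
  true (nat_lit 0)
def b2_20 : Bx := Bx.mk (St.mk (I.mix (nat_lit 6127616) (nat_lit 6914048)) (I.mix (nat_lit 7225344) (nat_lit 6307840)) (I.neg (nat_lit 43745280) (nat_lit 54575104)) (I.pos (nat_lit 258441216) (nat_lit 266223616)) (I.mix (nat_lit 7176192) (nat_lit 6291456)) (I.mix (nat_lit 3211264) (nat_lit 5029888)) (I.pos (nat_lit 278528) (nat_lit 5701632)))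
  false (nat_lit 0)
def b2_21 : Bx := Bx.mk (St.mk (I.pos (nat_lit 174702592) (nat_lit 227868672)) (I.pos (nat_lit 13598720) (nat_lit 56328192)) (I.mix (nat_lit 39583744) (nat_lit 30048256)) (I.pos (nat_lit 403144704) (nat_lit 456294400)) (I.mix (nat_lit 80723968) (nat_lit 52985856)) (I.mix (nat_lit 53936128) (nat_lit 42663936)) (I.mix (nat_lit 67649536) (nat_lit 67338240)))
  false (nat_lit 114971760)
def b2_22 : Bx := Bx.mk (St.mk (I.neg (nat_lit 15941632) (nat_lit 43466752)) (I.pos (nat_lit 14974976) (nat_lit 47153152)) (I.neg (nat_lit 41254912) (nat_lit 57524224)) (I.pos (nat_lit 261603328) (nat_lit 277463040)) (I.mix (nat_lit 36257792) (nat_lit 47071232)) (I.mix (nat_lit 33013760) (nat_lit 31227904)) (I.mix (nat_lit 9863168) (nat_lit 15171584)))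
  true (nat_lit 0)
def b2_23 : Bx := Bx.mk (St.mk (I.pos (nat_lit 15941632) (nat_lit 43466752)) (I.neg (nat_lit 14974976) (nat_lit 47153152)) (I.neg (nat_lit 41254912) (nat_lit 57524224)) (I.pos (nat_lit 261603328) (nat_lit 277463040)) (I.mix (nat_lit 47071232) (nat_lit 36257792)) (I.mix (nat_lit 31227904) (nat_lit 33013760)) (I.mix (nat_lit 9863168) (nat_lit 15171584)))
  false (nat_lit 0)
def b2_24 : Bx := Bx.mk (St.mk (I.mix (nat_lit 25149440) (nat_lit 7176192)) (I.mix (nat_lit 9748480) (nat_lit 26804224)) (I.neg (nat_lit 43024384) (nat_lit 55656448)) (I.pos (nat_lit 258473984) (nat_lit 269041664)) (I.mix (nat_lit 24920064) (nat_lit 27131904)) (I.mix (nat_lit 17563648) (nat_lit 18448384)) (I.mix (nat_lit 3211264) (nat_lit 8617984)))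
  true (nat_lit 0)
def b2_25 : Bx := Bx.mk (St.mk (I.mix (nat_lit 7176192) (nat_lit 25165824)) (I.mix (nat_lit 26804224) (nat_lit 9748480)) (I.neg (nat_lit 43024384) (nat_lit 55656448)) (I.pos (nat_lit 258473984) (nat_lit 269041664)) (I.mix (nat_lit 27131904) (nat_lit 24920064)) (I.mix (nat_lit 18448384) (nat_lit 17563648)) (I.mix (nat_lit 3211264) (nat_lit 8617984)))
  false (nat_lit 0)
def b2_26 : Bx := Bx.mk (St.mk (I.pos (nat_lit 202833920) (nat_lit 289095680)) (I.mix (nat_lit 20545536) (nat_lit 61702144)) (I.mix (nat_lit 147275776) (nat_lit 25903104)) (I.pos (nat_lit 447774720) (nat_lit 569278464)) (I.mix (nat_lit 61587456) (nat_lit 78987264)) (I.mix (nat_lit 63193088) (nat_lit 46481408)) (I.mix (nat_lit 102809600) (nat_lit 76234752)))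
  false (nat_lit 139495614)
def b2_27 : Bx := Bx.mk (St.mk (I.mix (nat_lit 25575424) (nat_lit 12206080)) (I.mix (nat_lit 8224768) (nat_lit 38404096)) (I.neg (nat_lit 43417600) (nat_lit 57294848)) (I.pos (nat_lit 258359296) (nat_lit 271155200)) (I.mix (nat_lit 22315008) (nat_lit 45056000)) (I.mix (nat_lit 27181056) (nat_lit 18595840)) (I.mix (nat_lit 5619712) (nat_lit 9895936)))
  true (nat_lit 0)
def b2_28 : Bx := Bx.mk (St.mk (I.mix (nat_lit 12206080) (nat_lit 25575424)) (I.mix (nat_lit 38404096) (nat_lit 8224768)) (I.neg (nat_lit 43417600) (nat_lit 57294848)) (I.pos (nat_lit 258359296) (nat_lit 271155200)) (I.mix (nat_lit 45056000) (nat_lit 22315008)) (I.mix (nat_lit 18595840) (nat_lit 27181056)) (I.mix (nat_lit 5619712) (nat_lit 9895936)))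
  false (nat_lit 0)
def b2_29 : Bx := Bx.mk (St.mk (I.pos (nat_lit 64192512) (nat_lit 117669888)) (I.neg (nat_lit 17055744) (nat_lit 59834368)) (I.neg (nat_lit 6733824) (nat_lit 52019200)) (I.pos (nat_lit 281624576) (nat_lit 326631424)) (I.mix (nat_lit 46399488) (nat_lit 27279360)) (I.mix (nat_lit 22265856) (nat_lit 22626304)) (I.mix (nat_lit 21250048) (nat_lit 18120704)))
  false (nat_lit 0)
def b2_30 : Bx := Bx.mk (St.mk (I.pos (nat_lit 99909632) (nat_lit 149880832)) (I.mix (nat_lit 26820608) (nat_lit 22167552)) (I.mix (nat_lit 24002560) (nat_lit 30326784)) (I.pos (nat_lit 305905664) (nat_lit 359546880)) (I.mix (nat_lit 37879808) (nat_lit 18399232)) (I.mix (nat_lit 19906560) (nat_lit 20201472)) (I.mix (nat_lit 18432000) (nat_lit 18464768)))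
  false (nat_lit 0)
def b2_31 : Bx := Bx.mk (St.mk (I.neg (nat_lit 64176128) (nat_lit 117669888)) (I.pos (nat_lit 17055744) (nat_lit 59834368)) (I.neg (nat_lit 6733824) (nat_lit 52019200)) (I.pos (nat_lit 281608192) (nat_lit 326631424)) (I.mix (nat_lit 27279360) (nat_lit 46399488)) (I.mix (nat_lit 22626304) (nat_lit 22265856)) (I.mix (nat_lit 21250048) (nat_lit 18120704)))
  true (nat_lit 0)
def b2_32 : Bx := Bx.mk (St.mk (I.pos (nat_lit 51331072) (nat_lit 84312064)) (I.neg (nat_lit 23805952) (nat_lit 54460416)) (I.neg (nat_lit 18972672) (nat_lit 51052544)) (I.pos (nat_lit 273367040) (nat_lit 303808512)) (I.mix (nat_lit 63193088) (nat_lit 48660480)) (I.mix (nat_lit 34881536) (nat_lit 45105152)) (I.mix (nat_lit 32423936) (nat_lit 36962304)))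
  false (nat_lit 0)
def b2_33 : Bx := Bx.mk (St.mk (I.pos (nat_lit 133529600) (nat_lit 166068224)) (I.mix (nat_lit 7897088) (nat_lit 24035328)) (I.mix (nat_lit 14614528) (nat_lit 29245440)) (I.pos (nat_lit 338493440) (nat_lit 376045568)) (I.mix (nat_lit 72990720) (nat_lit 51265536)) (I.mix (nat_lit 57589760) (nat_lit 50118656)) (I.mix (nat_lit 54116352) (nat_lit 46546944)))
  false (nat_lit 17199975)
def b2_34 : Bx := Bx.mk (St.mk (I.neg (nat_lit 51314688) (nat_lit 84328448)) (I.pos (nat_lit 23805952) (nat_lit 54460416)) (I.neg (nat_lit 18972672) (nat_lit 51052544)) (I.pos (nat_lit 273367040) (nat_lit 303808512)) (I.mix (nat_lit 48660480) (nat_lit 63193088)) (I.mix (nat_lit 45105152) (nat_lit 34881536)) (I.mix (nat_lit 32423936) (nat_lit 36978688)))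
  true (nat_lit 0)
def b2_35 : Bx := Bx.mk (St.mk (I.pos (nat_lit 73236480) (nat_lit 113868800)) (I.neg (nat_lit 11010048) (nat_lit 45514752)) (I.neg (nat_lit 2785280) (nat_lit 40534016)) (I.pos (nat_lit 286359552) (nat_lit 322125824)) (I.mix (nat_lit 27951104) (nat_lit 22429696)) (I.mix (nat_lit 14565376) (nat_lit 19726336)) (I.mix (nat_lit 13729792) (nat_lit 16465920)))
  false (nat_lit 0)
def b2_36 : Bx := Bx.mk (St.mk (I.pos (nat_lit 103743488) (nat_lit 143736832)) (I.mix (nat_lit 33390592) (nat_lit 5685248)) (I.mix (nat_lit 31457280) (nat_lit 14352384)) (I.pos (nat_lit 308002816) (nat_lit 350765056)) (I.mix (nat_lit 30932992) (nat_lit 20725760)) (I.mix (nat_lit 19955712) (nat_lit 16482304)) (I.mix (nat_lit 18153472) (nat_lit 14123008)))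
  false (nat_lit 0)
def b2_37 : Bx := Bx.mk (St.mk (I.neg (nat_lit 73220096) (nat_lit 113868800)) (I.pos (nat_lit 11010048) (nat_lit 45514752)) (I.neg (nat_lit 2785280) (nat_lit 40550400)) (I.pos (nat_lit 286359552) (nat_lit 322125824)) (I.mix (nat_lit 22429696) (nat_lit 27951104)) (I.mix (nat_lit 19726336) (nat_lit 14565376)) (I.mix (nat_lit 13729792) (nat_lit 16465920)))
  true (nat_lit 0)
def b2_38 : Bx := Bx.mk (St.mk (I.pos (nat_lit 94126080) (nat_lit 114278400)) (I.neg (nat_lit 16547840) (nat_lit 35389440)) (I.neg (nat_lit 5931008) (nat_lit 31375360)) (I.pos (nat_lit 300613632) (nat_lit 322764800)) (I.mix (nat_lit 9650176) (nat_lit 1933312)) (I.mix (nat_lit 1687552) (nat_lit 2932736)) (I.mix (nat_lit 2015232) (nat_lit 2375680)))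
  false (nat_lit 0)
def b2_39 : Bx := Bx.mk (St.mk (I.pos (nat_lit 103890944) (nat_lit 123387904)) (I.neg (nat_lit 9453568) (nat_lit 27836416)) (I.mix (nat_lit 25034752) (nat_lit 720896)) (I.pos (nat_lit 308248576) (nat_lit 330301440)) (I.mix (nat_lit 7831552) (nat_lit 1802240)) (I.mix (nat_lit 2342912) (nat_lit 2015232)) (I.mix (nat_lit 2523136) (nat_lit 1572864)))
  false (nat_lit 0)
def b2_40 : Bx := Bx.mk (St.mk (I.neg (nat_lit 94126080) (nat_lit 114278400)) (I.pos (nat_lit 16547840) (nat_lit 35405824)) (I.neg (nat_lit 5931008) (nat_lit 31375360)) (I.pos (nat_lit 300613632) (nat_lit 322764800)) (I.mix (nat_lit 1933312) (nat_lit 9650176)) (I.mix (nat_lit 2932736) (nat_lit 1687552)) (I.mix (nat_lit 2015232) (nat_lit 2375680)))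
  true (nat_lit 0)
def b2_41 : Bx := Bx.mk (St.mk (I.pos (nat_lit 40943616) (nat_lit 81166336)) (I.neg (nat_lit 25313280) (nat_lit 59736064)) (I.neg (nat_lit 20496384) (nat_lit 55197696)) (I.pos (nat_lit 269516800) (nat_lit 302006272)) (I.mix (nat_lit 69238784) (nat_lit 33062912)) (I.mix (nat_lit 30523392) (nat_lit 41189376)) (I.mix (nat_lit 31145984) (nat_lit 31555584)))
  false (nat_lit 18243)
def b2_42 : Bx := Bx.mk (St.mk (I.pos (nat_lit 135462912) (nat_lit 173834240)) (I.mix (nat_lit 6062080) (nat_lit 34930688)) (I.mix (nat_lit 13058048) (nat_lit 38830080)) (I.pos (nat_lit 340869120) (nat_lit 388956160)) (I.mix (nat_lit 56131584) (nat_lit 61292544)) (I.mix (nat_lit 50069504) (nat_lit 50413568)) (I.mix (nat_lit 50429952) (nat_lit 44580864)))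
  false (nat_lit 35498466)
def b2_43 : Bx := Bx.mk (St.mk (I.neg (nat_lit 40943616) (nat_lit 81166336)) (I.pos (nat_lit 25313280) (nat_lit 59736064)) (I.neg (nat_lit 20496384) (nat_lit 55197696)) (I.pos (nat_lit 269516800) (nat_lit 302022656)) (I.mix (nat_lit 33062912) (nat_lit 69238784)) (I.mix (nat_lit 41189376) (nat_lit 30523392)) (I.mix (nat_lit 31145984) (nat_lit 31555584)))
  true (nat_lit 0)
def b2_44 : Bx := Bx.mk (St.mk (I.pos (nat_lit 69058560) (nat_lit 114262016)) (I.neg (nat_lit 10534912) (nat_lit 48791552)) (I.neg (nat_lit 2490368) (nat_lit 43728896)) (I.pos (nat_lit 283541504) (nat_lit 322748416)) (I.mix (nat_lit 39157760) (nat_lit 21397504)) (I.mix (nat_lit 18006016) (nat_lit 20758528)) (I.mix (nat_lit 16760832) (nat_lit 16842752)))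
  false (nat_lit 0)
def b2_45 : Bx := Bx.mk (St.mk (I.pos (nat_lit 102940672) (nat_lit 147718144)) (I.mix (nat_lit 33964032) (nat_lit 8388608)) (I.mix (nat_lit 31850496) (nat_lit 16744448)) (I.pos (nat_lit 307412992) (nat_lit 354025472)) (I.mix (nat_lit 30081024) (nat_lit 28983296)) (I.mix (nat_lit 21135360) (nat_lit 22740992)) (I.mix (nat_lit 19660800) (nat_lit 19595264)))
  false (nat_lit 0)
def b2_46 : Bx := Bx.mk (St.mk (I.neg (nat_lit 69042176) (nat_lit 114262016)) (I.pos (nat_lit 10534912) (nat_lit 48791552)) (I.neg (nat_lit 2490368) (nat_lit 43745280)) (I.pos (nat_lit 283525120) (nat_lit 322748416)) (I.mix (nat_lit 21397504) (nat_lit 39157760)) (I.mix (nat_lit 20758528) (nat_lit 18006016)) (I.mix (nat_lit 16760832) (nat_lit 16842752)))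
  true (nat_lit 0)
def b2_47 : Bx := Bx.mk (St.mk (I.pos (nat_lit 29736960) (nat_lit 75350016)) (I.neg (nat_lit 31424512) (nat_lit 82067456)) (I.neg (nat_lit 25313280) (nat_lit 71532544)) (I.pos (nat_lit 266993664) (nat_lit 304627712)) (I.mix (nat_lit 113065984) (nat_lit 73252864)) (I.mix (nat_lit 57556992) (nat_lit 80871424)) (I.mix (nat_lit 60702720) (nat_lit 65585152)))
  false (nat_lit 93090056)
def b2_48 : Bx := Bx.mk (St.mk (I.pos (nat_lit 126763008) (nat_lit 180764672)) (I.pos (nat_lit 5636096) (nat_lit 66158592)) (I.mix (nat_lit 2899968) (nat_lit 78348288)) (I.pos (nat_lit 340983808) (nat_lit 405356544)) (I.mix (nat_lit 151945216) (nat_lit 103612416)) (I.mix (nat_lit 130547712) (nat_lit 94306304)) (I.mix (nat_lit 125763584) (nat_lit 100352000)))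
  false (nat_lit 97964169)
def b2_49 : Bx := Bx.mk (St.mk (I.neg (nat_lit 29736960) (nat_lit 75350016)) (I.pos (nat_lit 31424512) (nat_lit 82067456)) (I.neg (nat_lit 25313280) (nat_lit 71548928)) (I.pos (nat_lit 266993664) (nat_lit 304627712)) (I.mix (nat_lit 73203712) (nat_lit 113065984)) (I.mix (nat_lit 80871424) (nat_lit 57556992)) (I.mix (nat_lit 60702720) (nat_lit 65585152)))
  true (nat_lit 0)
def b2_50 : Bx := Bx.mk (St.mk (I.pos (nat_lit 62472192) (nat_lit 119619584)) (I.neg (nat_lit 13287424) (nat_lit 60145664)) (I.neg (nat_lit 4521984) (nat_lit 51822592)) (I.pos (nat_lit 281280512) (nat_lit 328253440)) (I.mix (nat_lit 50921472) (nat_lit 35602432)) (I.mix (nat_lit 22347776) (nat_lit 32030720)) (I.mix (nat_lit 21856256) (nat_lit 25591808)))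
  false (nat_lit 0)
def b2_51 : Bx := Bx.mk (St.mk (I.pos (nat_lit 97697792) (nat_lit 150257664)) (I.mix (nat_lit 30769152) (nat_lit 24068096)) (I.mix (nat_lit 28688384) (nat_lit 32194560)) (I.pos (nat_lit 304218112) (nat_lit 359907328)) (I.mix (nat_lit 48250880) (nat_lit 32505856)) (I.mix (nat_lit 37306368) (nat_lit 26443776)) (I.mix (nat_lit 34078720) (nat_lit 23871488)))
  false (nat_lit 0)
def b2_52 : Bx := Bx.mk (St.mk (I.neg (nat_lit 62472192) (nat_lit 119619584)) (I.pos (nat_lit 13287424) (nat_lit 60145664)) (I.neg (nat_lit 4521984) (nat_lit 51822592)) (I.pos (nat_lit 281264128) (nat_lit 328253440)) (I.mix (nat_lit 35602432) (nat_lit 50921472)) (I.mix (nat_lit 32030720) (nat_lit 22347776)) (I.mix (nat_lit 21856256) (nat_lit 25591808)))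
  true (nat_lit 0)
def b2_53 : Bx := Bx.mk (St.mk (I.pos (nat_lit 233799680) (nat_lit 274202624)) (I.mix (nat_lit 22069248) (nat_lit 22544384)) (I.neg (nat_lit 47382528) (nat_lit 144424960)) (I.pos (nat_lit 469417984) (nat_lit 540311552)) (I.mix (nat_lit 67223552) (nat_lit 46940160)) (I.mix (nat_lit 42696704) (nat_lit 49414144)) (I.mix (nat_lit 60506112) (nat_lit 93863936)))
  false (nat_lit 90366122)
def b2_54 : Bx := Bx.mk (St.mk (I.pos (nat_lit 154009600) (nat_lit 214515712)) (I.pos (nat_lit 26247168) (nat_lit 87375872)) (I.mix (nat_lit 7274496) (nat_lit 82329600)) (I.pos (nat_lit 389431296) (nat_lit 451280896)) (I.mix (nat_lit 132825088) (nat_lit 105136128)) (I.mix (nat_lit 95600640) (nat_lit 74760192)) (I.mix (nat_lit 135495680) (nat_lit 99958784)))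
  false (nat_lit 117852929)
def b2_55 : Bx := Bx.mk (St.mk (I.neg (nat_lit 9928704) (nat_lit 47284224)) (I.pos (nat_lit 24395776) (nat_lit 73351168)) (I.neg (nat_lit 41811968) (nat_lit 68075520)) (I.pos (nat_lit 263340032) (nat_lit 285130752)) (I.mix (nat_lit 63078400) (nat_lit 119848960)) (I.mix (nat_lit 90505216) (nat_lit 56688640)) (I.mix (nat_lit 33390592) (nat_lit 31719424)))
  true (nat_lit 0)
def b2_56 : Bx := Bx.mk (St.mk (I.pos (nat_lit 9928704) (nat_lit 47284224)) (I.neg (nat_lit 24395776) (nat_lit 73351168)) (I.neg (nat_lit 41811968) (nat_lit 68075520)) (I.pos (nat_lit 263340032) (nat_lit 285147136)) (I.mix (nat_lit 119848960) (nat_lit 63078400)) (I.mix (nat_lit 56688640) (nat_lit 90505216)) (I.mix (nat_lit 33390592) (nat_lit 31719424)))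
  false (nat_lit 56656190)
def b2_57 : Bx := Bx.mk (St.mk (I.pos (nat_lit 65421312) (nat_lit 83165184)) (I.neg (nat_lit 36814848) (nat_lit 52166656)) (I.neg (nat_lit 25624576) (nat_lit 46301184)) (I.pos (nat_lit 282836992) (nat_lit 302252032)) (I.mix (nat_lit 27492352) (nat_lit 2801664)) (I.mix (nat_lit 5537792) (nat_lit 11763712)) (I.mix (nat_lit 7651328) (nat_lit 8486912)))
  false (nat_lit 0)
def b2_58 : Bx := Bx.mk (St.mk (I.pos (nat_lit 133529600) (nat_lit 148717568)) (I.pos (nat_lit 3637248) (nat_lit 17743872)) (I.mix (nat_lit 81920) (nat_lit 24707072)) (I.pos (nat_lit 338001920) (nat_lit 359563264)) (I.mix (nat_lit 17481728) (nat_lit 7569408)) (I.mix (nat_lit 11714560) (nat_lit 7733248)) (I.mix (nat_lit 12091392) (nat_lit 6782976)))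
  false (nat_lit 0)
def b2_59 : Bx := Bx.mk (St.mk (I.neg (nat_lit 65421312) (nat_lit 83165184)) (I.pos (nat_lit 36814848) (nat_lit 52166656)) (I.neg (nat_lit 25624576) (nat_lit 46301184)) (I.pos (nat_lit 282820608) (nat_lit 302252032)) (I.mix (nat_lit 2818048) (nat_lit 27492352)) (I.mix (nat_lit 11780096) (nat_lit 5537792)) (I.mix (nat_lit 7651328) (nat_lit 8486912)))
  true (nat_lit 0)
def t2 : BTr := (BTr.n (BTr.n (BTr.n (BTr.n (BTr.n (BTr.b b2_0) (BTr.n (BTr.b b2_1) (BTr.b b2_2))) (BTr.n (BTr.n (BTr.b b2_3) (BTr.b b2_4)) (BTr.n (BTr.b b2_5) (BTr.b b2_6)))) (BTr.n (BTr.n (BTr.n (BTr.b b2_7) (BTr.b b2_8)) (BTr.n (BTr.b b2_9) (BTr.b b2_10))) (BTr.n (BTr.n (BTr.b b2_11) (BTr.b b2_12)) (BTr.n (BTr.b b2_13) (BTr.b b2_14))))) (BTr.n (BTr.n (BTr.n (BTr.b b2_15) (BTr.n (BTr.b b2_16) (BTr.b b2_17))) (BTr.n (BTr.n (BTr.b b2_18) (BTr.b b2_19)) (BTr.n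 (BTr.b b2_20) (BTr.b b2_21)))) (BTr.n (BTr.n (BTr.n (BTr.b b2_22) (BTr.b b2_23)) (BTr.n (BTr.b b2_24) (BTr.b b2_25))) (BTr.n (BTr.n (BTr.b b2_26) (BTr.b b2_27)) (BTr.n (BTr.b b2_28) (BTr.b b2_29)))))) (BTr.n (BTr.n (BTr.n (BTr.n (BTr.b b2_30) (BTr.n (BTr.b b2_31) (BTr.b b2_32))) (BTr.n (BTr.n (BTr.b b2_33) (BTr.b b2_34)) (BTr.n (BTr.b b2_35) (BTr.b b2_36)))) (BTr.n (BTr.n (BTr.n (BTr.b b2_37) (BTr.b b2_38)) (BTr.n (BTr.b b2_39) (BTr.b b2_40))) (BTr.n (BTr.n (BTr.b b2_41) (BTr.b b2_42)) (BTr.n (BTr.b b2_43) (BTr.b b2_44))))) (BTr.n (BTr.n (BTr.n (BTr.b b2_45) (BTr.n (BTr.b b2_46) (BTr.b b2_47))) (BTr.n (BTr.n (BTr.b b2_48) (BTr.b b2_49)) (BTr.n (BTr.b b2_50) (BTr.b b2_51)))) (BTr.n (BTr.n (BTr.n (BTr.b b2_52) (BTr.b b2_53)) (BTr.n (BTr.b b2_54) (BTr.b b2_55))) (BTr.n (BTr.n (BTr.b b2_56) (BTr.b b2_57)) (BTr.n (BTr.b b2_58) (BTr.b b2_59)))))))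
namespace T2
def l0 : Tr := Tr.L (Pth.l (Pth.l (Pth.l (Pth.l (Pth.l Pth.z)))))
def l1 : Tr := Tr.L (Pth.l (Pth.l (Pth.l (Pth.l (Pth.r (Pth.l Pth.z))))))
def l2 : Tr := Tr.L (Pth.l (Pth.l (Pth.l (Pth.l (Pth.r (Pth.r Pth.z))))))
def l3 : Tr := Tr.L (Pth.l (Pth.l (Pth.l (Pth.r (Pth.l (Pth.l Pth.z))))))
def l4 : Tr := Tr.L (Pth.l (Pth.l (Pth.l (Pth.r (Pth.l (Pth.r Pth.z))))))
def l5 : Tr := Tr.L (Pth.l (Pth.l (Pth.l (Pth.r (Pth.r (Pth.l Pth.z))))))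
def l6 : Tr := Tr.L (Pth.l (Pth.l (Pth.l (Pth.r (Pth.r (Pth.r Pth.z))))))
def l7 : Tr := Tr.L (Pth.l (Pth.l (Pth.r (Pth.l (Pth.l (Pth.l Pth.z))))))
def l8 : Tr := Tr.L (Pth.l (Pth.l (Pth.r (Pth.l (Pth.l (Pth.r Pth.z))))))
def l9 : Tr := Tr.L (Pth.l (Pth.l (Pth.r (Pth.l (Pth.r (Pth.l Pth.z))))))
def l10 : Tr := Tr.L (Pth.l (Pth.l (Pth.r (Pth.l (Pth.r (Pth.r Pth.z))))))
def l11 : Tr := Tr.L (Pth.l (Pth.l (Pth.r (Pth.r (Pth.l (Pth.l Pth.z))))))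
def l12 : Tr := Tr.L (Pth.l (Pth.l (Pth.r (Pth.r (Pth.l (Pth.r Pth.z))))))
def l13 : Tr := Tr.L (Pth.l (Pth.l (Pth.r (Pth.r (Pth.r (Pth.l Pth.z))))))
def l14 : Tr := Tr.L (Pth.l (Pth.l (Pth.r (Pth.r (Pth.r (Pth.r Pth.z))))))
def l15 : Tr := Tr.L (Pth.l (Pth.r (Pth.l (Pth.l (Pth.l Pth.z)))))
def l16 : Tr := Tr.L (Pth.l (Pth.r (Pth.l (Pth.l (Pth.r (Pth.l Pth.z))))))
def l17 : Tr := Tr.L (Pth.l (Pth.r (Pth.l (Pth.l (Pth.r (Pth.r Pth.z))))))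
def l18 : Tr := Tr.L (Pth.l (Pth.r (Pth.l (Pth.r (Pth.l (Pth.l Pth.z))))))
def l19 : Tr := Tr.L (Pth.l (Pth.r (Pth.l (Pth.r (Pth.l (Pth.r Pth.z))))))
def l20 : Tr := Tr.L (Pth.l (Pth.r (Pth.l (Pth.r (Pth.r (Pth.l Pth.z))))))
def l21 : Tr := Tr.L (Pth.l (Pth.r (Pth.l (Pth.r (Pth.r (Pth.r Pth.z))))))
def l22 : Tr := Tr.L (Pth.l (Pth.r (Pth.r (Pth.l (Pth.l (Pth.l Pth.z))))))
def l23 : Tr := Tr.L (Pth.l (Pth.r (Pth.r (Pth.l (Pth.l (Pth.r Pth.z))))))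
def l24 : Tr := Tr.L (Pth.l (Pth.r (Pth.r (Pth.l (Pth.r (Pth.l Pth.z))))))
def l25 : Tr := Tr.L (Pth.l (Pth.r (Pth.r (Pth.l (Pth.r (Pth.r Pth.z))))))
def l26 : Tr := Tr.L (Pth.l (Pth.r (Pth.r (Pth.r (Pth.l (Pth.l Pth.z))))))
def l27 : Tr := Tr.L (Pth.l (Pth.r (Pth.r (Pth.r (Pth.l (Pth.r Pth.z))))))
def l28 : Tr := Tr.L (Pth.l (Pth.r (Pth.r (Pth.r (Pth.r (Pth.l Pth.z))))))
def l29 : Tr := Tr.L (Pth.l (Pth.r (Pth.r (Pth.r (Pth.r (Pth.r Pth.z))))))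
def l30 : Tr := Tr.L (Pth.r (Pth.l (Pth.l (Pth.l (Pth.l Pth.z)))))
def l31 : Tr := Tr.L (Pth.r (Pth.l (Pth.l (Pth.l (Pth.r (Pth.l Pth.z))))))
def l32 : Tr := Tr.L (Pth.r (Pth.l (Pth.l (Pth.l (Pth.r (Pth.r Pth.z))))))
def l33 : Tr := Tr.L (Pth.r (Pth.l (Pth.l (Pth.r (Pth.l (Pth.l Pth.z))))))
def l34 : Tr := Tr.L (Pth.r (Pth.l (Pth.l (Pth.r (Pth.l (Pth.r Pth.z))))))
def l35 : Tr := Tr.L (Pth.r (Pth.l (Pth.l (Pth.r (Pth.r (Pth.l Pth.z))))))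
def l36 : Tr := Tr.L (Pth.r (Pth.l (Pth.l (Pth.r (Pth.r (Pth.r Pth.z))))))
def l37 : Tr := Tr.L (Pth.r (Pth.l (Pth.r (Pth.l (Pth.l (Pth.l Pth.z))))))
def l38 : Tr := Tr.L (Pth.r (Pth.l (Pth.r (Pth.l (Pth.l (Pth.r Pth.z))))))
def l39 : Tr := Tr.L (Pth.r (Pth.l (Pth.r (Pth.l (Pth.r (Pth.l Pth.z))))))
def l40 : Tr := Tr.L (Pth.r (Pth.l (Pth.r (Pth.l (Pth.r (Pth.r Pth.z))))))
def l41 : Tr := Tr.L (Pth.r (Pth.l (Pth.r (Pth.r (Pth.l (Pth.l Pth.z))))))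
def l42 : Tr := Tr.L (Pth.r (Pth.l (Pth.r (Pth.r (Pth.l (Pth.r Pth.z))))))
def l43 : Tr := Tr.L (Pth.r (Pth.l (Pth.r (Pth.r (Pth.r (Pth.l Pth.z))))))
def l44 : Tr := Tr.L (Pth.r (Pth.l (Pth.r (Pth.r (Pth.r (Pth.r Pth.z))))))
def l45 : Tr := Tr.L (Pth.r (Pth.r (Pth.l (Pth.l (Pth.l Pth.z)))))
def l46 : Tr := Tr.L (Pth.r (Pth.r (Pth.l (Pth.l (Pth.r (Pth.l Pth.z))))))
def l47 : Tr := Tr.L (Pth.r (Pth.r (Pth.l (Pth.l (Pth.r (Pth.r Pth.z))))))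
def l48 : Tr := Tr.L (Pth.r (Pth.r (Pth.l (Pth.r (Pth.l (Pth.l Pth.z))))))
def l49 : Tr := Tr.L (Pth.r (Pth.r (Pth.l (Pth.r (Pth.l (Pth.r Pth.z))))))
def l50 : Tr := Tr.L (Pth.r (Pth.r (Pth.l (Pth.r (Pth.r (Pth.l Pth.z))))))
def l51 : Tr := Tr.L (Pth.r (Pth.r (Pth.l (Pth.r (Pth.r (Pth.r Pth.z))))))
def l52 : Tr := Tr.L (Pth.r (Pth.r (Pth.r (Pth.l (Pth.l (Pth.l Pth.z))))))
def l53 : Tr := Tr.L (Pth.r (Pth.r (Pth.r (Pth.l (Pth.l (Pth.r Pth.z))))))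
def l54 : Tr := Tr.L (Pth.r (Pth.r (Pth.r (Pth.l (Pth.r (Pth.l Pth.z))))))
def l55 : Tr := Tr.L (Pth.r (Pth.r (Pth.r (Pth.l (Pth.r (Pth.r Pth.z))))))
def l56 : Tr := Tr.L (Pth.r (Pth.r (Pth.r (Pth.r (Pth.l (Pth.l Pth.z))))))
def l57 : Tr := Tr.L (Pth.r (Pth.r (Pth.r (Pth.r (Pth.l (Pth.r Pth.z))))))
def l58 : Tr := Tr.L (Pth.r (Pth.r (Pth.r (Pth.r (Pth.r (Pth.l Pth.z))))))
def l59 : Tr := Tr.L (Pth.r (Pth.r (Pth.r (Pth.r (Pth.r (Pth.r Pth.z))))))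
end T2
def b3_0 : Bx := Bx.mk (St.mk (I.pos (nat_lit 160514048) (nat_lit 229769216)) (I.mix (nat_lit 278528) (nat_lit 38567936)) (I.mix (nat_lit 278528) (nat_lit 97779712)) (I.pos (nat_lit 96190464) (nat_lit 194412544)) (I.mix (nat_lit 90619904) (nat_lit 50315264)) (I.mix (nat_lit 66322432) (nat_lit 54362112)) (I.mix (nat_lit 99581952) (nat_lit 65470464)))
  false (nat_lit 20396174)
def b3_1 : Bx := Bx.mk (St.mk (I.pos (nat_lit 123076608) (nat_lit 169525248)) (I.neg (nat_lit 12943360) (nat_lit 49643520)) (I.neg (nat_lit 5488640) (nat_lit 32456704)) (I.pos (nat_lit 77807616) (nat_lit 122945536)) (I.mix (nat_lit 68976640) (nat_lit 42860544)) (I.mix (nat_lit 36716544) (nat_lit 42106880)) (I.mix (nat_lit 34750464) (nat_lit 40255488)))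
  false (nat_lit 4281913)
def b3_2 : Bx := Bx.mk (St.mk (I.mix (nat_lit 3702784) (nat_lit 110575616)) (I.mix (nat_lit 23625728) (nat_lit 557056)) (I.mix (nat_lit 8290304) (nat_lit 4063232)) (I.mix (nat_lit 557056) (nat_lit 60571648)) (I.mix (nat_lit 23740416) (nat_lit 27885568)) (I.mix (nat_lit 17416192) (nat_lit 17743872)) (I.mix (nat_lit 10420224) (nat_lit 12140544)))
  false (nat_lit 0)
def b3_3 : Bx := Bx.mk (St.mk (I.pos (nat_lit 165199872) (nat_lit 208109568)) (I.mix (nat_lit 16793600) (nat_lit 36683776)) (I.pos (nat_lit 14680064) (nat_lit 92225536)) (I.pos (nat_lit 102416384) (nat_lit 171442176)) (I.mix (nat_lit 127516672) (nat_lit 55115776)) (I.mix (nat_lit 100827136) (nat_lit 59604992)) (I.mix (nat_lit 128385024) (nat_lit 46972928)))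
  false (nat_lit 49470911)
def b3_4 : Bx := Bx.mk (St.mk (I.mix (nat_lit 9388032) (nat_lit 126353408)) (I.mix (nat_lit 4620288) (nat_lit 23773184)) (I.mix (nat_lit 557056) (nat_lit 33423360)) (I.mix (nat_lit 557056) (nat_lit 74301440)) (I.mix (nat_lit 54624256) (nat_lit 20856832)) (I.mix (nat_lit 44089344) (nat_lit 21970944)) (I.mix (nat_lit 33931264) (nat_lit 12206080)))
  false (nat_lit 0)
def b3_5 : Bx := Bx.mk (St.mk (I.pos (nat_lit 145080320) (nat_lit 177553408)) (I.neg (nat_lit 5505024) (nat_lit 34750464)) (I.mix (nat_lit 12713984) (nat_lit 18497536)) (I.pos (nat_lit 90636288) (nat_lit 128450560)) (I.mix (nat_lit 53575680) (nat_lit 28753920)) (I.mix (nat_lit 27377664) (nat_lit 36634624)) (I.mix (nat_lit 33210368) (nat_lit 31457280)))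
  false (nat_lit 0)
def b3_6 : Bx := Bx.mk (St.mk (I.pos (nat_lit 10846208) (nat_lit 110919680)) (I.mix (nat_lit 13287424) (nat_lit 1310720)) (I.mix (nat_lit 475136) (nat_lit 11075584)) (I.pos (nat_lit 114688) (nat_lit 60588032)) (I.mix (nat_lit 22315008) (nat_lit 14123008)) (I.mix (nat_lit 13959168) (nat_lit 14876672)) (I.mix (nat_lit 10797056) (nat_lit 8404992)))
  false (nat_lit 0)
def b3_7 : Bx := Bx.mk (St.mk (I.pos (nat_lit 169410560) (nat_lit 205864960)) (I.mix (nat_lit 38207488) (nat_lit 1114112)) (I.mix (nat_lit 12009472) (nat_lit 40206336)) (I.pos (nat_lit 111853568) (nat_lit 167165952)) (I.mix (nat_lit 58310656) (nat_lit 69763072)) (I.mix (nat_lit 58523648) (nat_lit 53477376)) (I.mix (nat_lit 55459840) (nat_lit 56524800)))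
  false (nat_lit 68196028)
def b3_8 : Bx := Bx.mk (St.mk (I.pos (nat_lit 6127616) (nat_lit 121733120)) (I.mix (nat_lit 11190272) (nat_lit 5783552)) (I.mix (nat_lit 540672) (nat_lit 17334272)) (I.mix (nat_lit 393216) (nat_lit 70516736)) (I.mix (nat_lit 19185664) (nat_lit 27328512)) (I.mix (nat_lit 19333120) (nat_lit 20299776)) (I.mix (nat_lit 12484608) (nat_lit 13844480)))
  false (nat_lit 0)
def b3_9 : Bx := Bx.mk (St.mk (I.pos (nat_lit 135036928) (nat_lit 172130304)) (I.neg (nat_lit 13434880) (nat_lit 49315840)) (I.mix (nat_lit 31490048) (nat_lit 1097728)) (I.pos (nat_lit 88047616) (nat_lit 125370368)) (I.mix (nat_lit 67010560) (nat_lit 52248576)) (I.mix (nat_lit 40550400) (nat_lit 49430528)) (I.mix (nat_lit 35618816) (nat_lit 50954240)))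
  false (nat_lit 25992327)
def b3_10 : Bx := Bx.mk (St.mk (I.pos (nat_lit 60342272) (nat_lit 110755840)) (I.neg (nat_lit 2179072) (nat_lit 21086208)) (I.mix (nat_lit 5963776) (nat_lit 6029312)) (I.pos (nat_lit 14352384) (nat_lit 61014016)) (I.mix (nat_lit 23183360) (nat_lit 28311552)) (I.mix (nat_lit 16367616) (nat_lit 21610496)) (I.mix (nat_lit 10141696) (nat_lit 15220736)))
  false (nat_lit 0)
def b3_11 : Bx := Bx.mk (St.mk (I.pos (nat_lit 164249600) (nat_lit 204881920)) (I.mix (nat_lit 23494656) (nat_lit 13942784)) (I.pos (nat_lit 7487488) (nat_lit 59228160)) (I.pos (nat_lit 102121472) (nat_lit 165314560)) (I.mix (nat_lit 109412352) (nat_lit 73482240)) (I.mix (nat_lit 111394816) (nat_lit 65093632)) (I.mix (nat_lit 123207680) (nat_lit 52133888)))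
  false (nat_lit 88269440)
def b3_12 : Bx := Bx.mk (St.mk (I.pos (nat_lit 64290816) (nat_lit 122011648)) (I.mix (nat_lit 5750784) (nat_lit 14286848)) (I.pos (nat_lit 1720320) (nat_lit 24576000)) (I.pos (nat_lit 14876672) (nat_lit 70320128)) (I.mix (nat_lit 51347456) (nat_lit 26820608)) (I.mix (nat_lit 45940736) (nat_lit 22757376)) (I.mix (nat_lit 34324480) (nat_lit 12533760)))
  false (nat_lit 0)
def b3_13 : Bx := Bx.mk (St.mk (I.mix (nat_lit 10665984) (nat_lit 118390784)) (I.mix (nat_lit 10338304) (nat_lit 1425408)) (I.mix (nat_lit 557056) (nat_lit 11157504)) (I.mix (nat_lit 557056) (nat_lit 64159744)) (I.mix (nat_lit 22478848) (nat_lit 14237696)) (I.mix (nat_lit 14041088) (nat_lit 14925824)) (I.mix (nat_lit 10829824) (nat_lit 8437760)))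
  false (nat_lit 0)
def b3_14 : Bx := Bx.mk (St.mk (I.pos (nat_lit 152305664) (nat_lit 182517760)) (I.neg (nat_lit 5701632) (nat_lit 28819456)) (I.mix (nat_lit 3620864) (nat_lit 19824640)) (I.pos (nat_lit 93274112) (nat_lit 137871360)) (I.mix (nat_lit 47513600) (nat_lit 31588352)) (I.mix (nat_lit 26148864) (nat_lit 35651584)) (I.mix (nat_lit 32309248) (nat_lit 31375360)))
  false (nat_lit 0)
def b3_15 : Bx := Bx.mk (St.mk (I.mix (nat_lit 20332544) (nat_lit 111329280)) (I.mix (nat_lit 9256960) (nat_lit 1736704)) (I.mix (nat_lit 540672) (nat_lit 11534336)) (I.mix (nat_lit 3391488) (nat_lit 61210624)) (I.mix (nat_lit 20201472) (nat_lit 15007744)) (I.mix (nat_lit 13287424) (nat_lit 14925824)) (I.mix (nat_lit 10387456) (nat_lit 8699904)))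
  false (nat_lit 0)
def b3_16 : Bx := Bx.mk (St.mk (I.pos (nat_lit 74170368) (nat_lit 111230976)) (I.mix (nat_lit 8880128) (nat_lit 1441792)) (I.pos (nat_lit 1343488) (nat_lit 10338304)) (I.pos (nat_lit 21610496) (nat_lit 61325312)) (I.mix (nat_lit 14024704) (nat_lit 9289728)) (I.mix (nat_lit 7880704) (nat_lit 9076736)) (I.mix (nat_lit 6619136) (nat_lit 5357568)))
  false (nat_lit 0)
def b3_17 : Bx := Bx.mk (St.mk (I.pos (nat_lit 164331520) (nat_lit 198049792)) (I.neg (nat_lit 10387456) (nat_lit 37044224)) (I.mix (nat_lit 12140544) (nat_lit 19890176)) (I.pos (nat_lit 106299392) (nat_lit 159268864)) (I.mix (nat_lit 57262080) (nat_lit 54362112)) (I.mix (nat_lit 50593792) (nat_lit 42090496)) (I.mix (nat_lit 49872896) (nat_lit 45268992)))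
  false (nat_lit 39516876)
def b3_18 : Bx := Bx.mk (St.mk (I.pos (nat_lit 79151104) (nat_lit 119717888)) (I.mix (nat_lit 11354112) (nat_lit 786432)) (I.pos (nat_lit 1015808) (nat_lit 12304384)) (I.pos (nat_lit 22495232) (nat_lit 68976640)) (I.mix (nat_lit 18333696) (nat_lit 23052288)) (I.mix (nat_lit 17907712) (nat_lit 17039360)) (I.mix (nat_lit 11862016) (nat_lit 11649024)))
  false (nat_lit 0)
def b3_19 : Bx := Bx.mk (St.mk (I.pos (nat_lit 33193984) (nat_lit 126713856)) (I.pos (nat_lit 98304) (nat_lit 17350656)) (I.pos (nat_lit 360448) (nat_lit 26984448)) (I.pos (nat_lit 5111808) (nat_lit 71204864)) (I.mix (nat_lit 29163520) (nat_lit 19152896)) (I.mix (nat_lit 21397504) (nat_lit 14860288)) (I.mix (nat_lit 18989056) (nat_lit 10584064)))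
  false (nat_lit 0)
def b3_20 : Bx := Bx.mk (St.mk (I.pos (nat_lit 124813312) (nat_lit 162299904)) (I.neg (nat_lit 6717440) (nat_lit 47677440)) (I.mix (nat_lit 30572544) (nat_lit 901120)) (I.pos (nat_lit 63651840) (nat_lit 118407168)) (I.mix (nat_lit 76644352) (nat_lit 29425664)) (I.mix (nat_lit 31637504) (nat_lit 55246848)) (I.mix (nat_lit 26263552) (nat_lit 43532288)))
  false (nat_lit 0)
def b3_21 : Bx := Bx.mk (St.mk (I.mix (nat_lit 8650752) (nat_lit 107151360)) (I.mix (nat_lit 23576576) (nat_lit 557056)) (I.mix (nat_lit 7307264) (nat_lit 4374528)) (I.mix (nat_lit 557056) (nat_lit 58540032)) (I.mix (nat_lit 27721728) (nat_lit 17973248)) (I.mix (nat_lit 15794176) (nat_lit 21217280)) (I.mix (nat_lit 8749056) (nat_lit 11223040)))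
  false (nat_lit 0)
def b3_22 : Bx := Bx.mk (St.mk (I.pos (nat_lit 197787648) (nat_lit 237748224)) (I.mix (nat_lit 1769472) (nat_lit 22216704)) (I.pos (nat_lit 26542080) (nat_lit 73826304)) (I.pos (nat_lit 159367168) (nat_lit 211894272)) (I.mix (nat_lit 75628544) (nat_lit 34275328)) (I.mix (nat_lit 50954240) (nat_lit 27623424)) (I.mix (nat_lit 80445440) (nat_lit 34013184)))
  false (nat_lit 12583579)
def b3_23 : Bx := Bx.mk (St.mk (I.pos (nat_lit 92995584) (nat_lit 127582208)) (I.pos (nat_lit 229376) (nat_lit 10502144)) (I.pos (nat_lit 5718016) (nat_lit 21381120)) (I.pos (nat_lit 37437440) (nat_lit 72728576)) (I.mix (nat_lit 28262400) (nat_lit 12599296)) (I.mix (nat_lit 18366464) (nat_lit 11452416)) (I.mix (nat_lit 16629760) (nat_lit 8044544)))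
  false (nat_lit 0)
def b3_24 : Bx := Bx.mk (St.mk (I.pos (nat_lit 130908160) (nat_lit 160333824)) (I.neg (nat_lit 1933312) (nat_lit 23183360)) (I.mix (nat_lit 7602176) (nat_lit 13254656)) (I.pos (nat_lit 64897024) (nat_lit 108871680)) (I.mix (nat_lit 29818880) (nat_lit 37060608)) (I.mix (nat_lit 28540928) (nat_lit 28540928)) (I.mix (nat_lit 21774336) (nat_lit 24018944)))
  false (nat_lit 0)
def b3_25 : Bx := Bx.mk (St.mk (I.pos (nat_lit 66813952) (nat_lit 103563264)) (I.neg (nat_lit 475136) (nat_lit 10387456)) (I.mix (nat_lit 16384) (nat_lit 6946816)) (I.pos (nat_lit 16154624) (nat_lit 55754752)) (I.mix (nat_lit 6356992) (nat_lit 10354688)) (I.mix (nat_lit 4194304) (nat_lit 5767168)) (I.mix (nat_lit 2211840) (nat_lit 3244032)))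
  false (nat_lit 0)
def b3_26 : Bx := Bx.mk (St.mk (I.pos (nat_lit 217088000) (nat_lit 270729216)) (I.mix (nat_lit 15630336) (nat_lit 19660800)) (I.pos (nat_lit 9502720) (nat_lit 74924032)) (I.pos (nat_lit 187662336) (nat_lit 287408128)) (I.mix (nat_lit 54820864) (nat_lit 23494656)) (I.mix (nat_lit 28819456) (nat_lit 28377088)) (I.mix (nat_lit 54067200) (nat_lit 39616512)))
  false (nat_lit 16039878)
def b3_27 : Bx := Bx.mk (St.mk (I.pos (nat_lit 13139968) (nat_lit 135921664)) (I.mix (nat_lit 4702208) (nat_lit 6946816)) (I.mix (nat_lit 442368) (nat_lit 18743296)) (I.pos (nat_lit 425984) (nat_lit 84606976)) (I.mix (nat_lit 14925824) (nat_lit 7192576)) (I.mix (nat_lit 7946240) (nat_lit 7389184)) (I.mix (nat_lit 8208384) (nat_lit 5324800)))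
  false (nat_lit 0)
def b3_28 : Bx := Bx.mk (St.mk (I.pos (nat_lit 121864192) (nat_lit 149012480)) (I.mix (nat_lit 12435456) (nat_lit 7143424)) (I.pos (nat_lit 1064960) (nat_lit 21872640)) (I.pos (nat_lit 55508992) (nat_lit 96485376)) (I.mix (nat_lit 13385728) (nat_lit 20856832)) (I.mix (nat_lit 11845632) (nat_lit 12025856)) (I.mix (nat_lit 10305536) (nat_lit 9371648)))
  false (nat_lit 0)
def b3_29 : Bx := Bx.mk (St.mk (I.mix (nat_lit 8830976) (nat_lit 94699520)) (I.mix (nat_lit 4112384) (nat_lit 2539520)) (I.mix (nat_lit 557056) (nat_lit 9404416)) (I.mix (nat_lit 557056) (nat_lit 49512448)) (I.mix (nat_lit 2392064) (nat_lit 4767744)) (I.mix (nat_lit 1949696) (nat_lit 2048000)) (I.mix (nat_lit 1605632) (nat_lit 1277952)))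
  false (nat_lit 0)
def b3_30 : Bx := Bx.mk (St.mk (I.pos (nat_lit 184565760) (nat_lit 230260736)) (I.pos (nat_lit 7700480) (nat_lit 39174144)) (I.pos (nat_lit 42434560) (nat_lit 99696640)) (I.pos (nat_lit 141426688) (nat_lit 195772416)) (I.mix (nat_lit 92864512) (nat_lit 72859648)) (I.mix (nat_lit 79183872) (nat_lit 62472192)) (I.mix (nat_lit 120061952) (nat_lit 79511552)))
  false (nat_lit 36337376)
def b3_31 : Bx := Bx.mk (St.mk (I.mix (nat_lit 4964352) (nat_lit 126828544)) (I.mix (nat_lit 557056) (nat_lit 17809408)) (I.mix (nat_lit 557056) (nat_lit 27901952)) (I.mix (nat_lit 557056) (nat_lit 71286784)) (I.mix (nat_lit 37912576) (nat_lit 31424512)) (I.mix (nat_lit 33619968) (nat_lit 21495808)) (I.mix (nat_lit 28000256) (nat_lit 15663104)))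
  false (nat_lit 0)
def b3_32 : Bx := Bx.mk (St.mk (I.pos (nat_lit 126189568) (nat_lit 161267712)) (I.neg (nat_lit 4997120) (nat_lit 36536320)) (I.mix (nat_lit 19759104) (nat_lit 5554176)) (I.pos (nat_lit 62275584) (nat_lit 111820800)) (I.mix (nat_lit 73613312) (nat_lit 48250880)) (I.mix (nat_lit 37322752) (nat_lit 68960256)) (I.mix (nat_lit 31080448) (nat_lit 56836096)))
  false (nat_lit 0)
def b3_33 : Bx := Bx.mk (St.mk (I.pos (nat_lit 28393472) (nat_lit 104382464)) (I.mix (nat_lit 16678912) (nat_lit 163840)) (I.mix (nat_lit 3325952) (nat_lit 5554176)) (I.pos (nat_lit 2523136) (nat_lit 56213504)) (I.mix (nat_lit 28622848) (nat_lit 22003712)) (I.mix (nat_lit 15663104) (nat_lit 26591232)) (I.mix (nat_lit 8896512) (nat_lit 14630912)))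
  false (nat_lit 0)
def b3_34 : Bx := Bx.mk (St.mk (I.pos (nat_lit 214499328) (nat_lit 283246592)) (I.mix (nat_lit 14270464) (nat_lit 30375936)) (I.pos (nat_lit 13254656) (nat_lit 96911360)) (I.pos (nat_lit 182026240) (nat_lit 311410688)) (I.mix (nat_lit 64929792) (nat_lit 73908224)) (I.mix (nat_lit 68796416) (nat_lit 46317568)) (I.mix (nat_lit 117784576) (nat_lit 71548928)))
  false (nat_lit 103105384)
def b3_35 : Bx := Bx.mk (St.mk (I.pos (nat_lit 37306368) (nat_lit 138788864)) (I.mix (nat_lit 4194304) (nat_lit 12550144)) (I.pos (nat_lit 131072) (nat_lit 24559616)) (I.pos (nat_lit 5472256) (nat_lit 87293952)) (I.mix (nat_lit 18710528) (nat_lit 19087360)) (I.mix (nat_lit 16351232) (nat_lit 10256384)) (I.mix (nat_lit 15581184) (nat_lit 8388608)))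
  false (nat_lit 0)
def b3_36 : Bx := Bx.mk (St.mk (I.pos (nat_lit 118112256) (nat_lit 148946944)) (I.mix (nat_lit 17891328) (nat_lit 7028736)) (I.mix (nat_lit 2588672) (nat_lit 21069824)) (I.pos (nat_lit 53592064) (nat_lit 96157696)) (I.mix (nat_lit 26902528) (nat_lit 20332544)) (I.mix (nat_lit 12845056) (nat_lit 22282240)) (I.mix (nat_lit 12189696) (nat_lit 16367616)))
  false (nat_lit 0)
def b3_37 : Bx := Bx.mk (St.mk (I.mix (nat_lit 9322496) (nat_lit 96403456)) (I.mix (nat_lit 7454720) (nat_lit 1949696)) (I.mix (nat_lit 557056) (nat_lit 8830976)) (I.mix (nat_lit 557056) (nat_lit 50806784)) (I.mix (nat_lit 5668864) (nat_lit 3391488)) (I.mix (nat_lit 1441792) (nat_lit 4702208)) (I.mix (nat_lit 1474560) (nat_lit 2523136)))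
  false (nat_lit 0)
def b3_38 : Bx := Bx.mk (St.mk (I.pos (nat_lit 196018176) (nat_lit 231473152)) (I.pos (nat_lit 6733824) (nat_lit 22462464)) (I.pos (nat_lit 39354368) (nat_lit 74072064)) (I.pos (nat_lit 158466048) (nat_lit 198262784)) (I.mix (nat_lit 61046784) (nat_lit 15237120)) (I.mix (nat_lit 35291136) (nat_lit 17776640)) (I.mix (nat_lit 61161472) (nat_lit 18169856)))
  false (nat_lit 0)
def b3_39 : Bx := Bx.mk (St.mk (I.pos (nat_lit 132382720) (nat_lit 156794880)) (I.neg (nat_lit 6111232) (nat_lit 23445504)) (I.mix (nat_lit 8192000) (nat_lit 5865472)) (I.pos (nat_lit 67207168) (nat_lit 106987520)) (I.mix (nat_lit 24313856) (nat_lit 21610496)) (I.mix (nat_lit 18513920) (nat_lit 18923520)) (I.mix (nat_lit 15024128) (nat_lit 15597568)))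
  false (nat_lit 0)
def b3_40 : Bx := Bx.mk (St.mk (I.pos (nat_lit 80084992) (nat_lit 102121472)) (I.neg (nat_lit 1998848) (nat_lit 10895360)) (I.mix (nat_lit 278528) (nat_lit 5636096)) (I.pos (nat_lit 23609344) (nat_lit 54870016)) (I.mix (nat_lit 7012352) (nat_lit 9142272)) (I.mix (nat_lit 5472256) (nat_lit 6193152)) (I.mix (nat_lit 2981888) (nat_lit 3489792)))
  false (nat_lit 0)
def b3_41 : Bx := Bx.mk (St.mk (I.pos (nat_lit 253296640) (nat_lit 276135936)) (I.mix (nat_lit 14680064) (nat_lit 7667712)) (I.pos (nat_lit 10731520) (nat_lit 58376192)) (I.pos (nat_lit 242843648) (nat_lit 298401792)) (I.mix (nat_lit 36536320) (nat_lit 24969216)) (I.mix (nat_lit 24887296) (nat_lit 22151168)) (I.mix (nat_lit 46202880) (nat_lit 31784960)))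
  false (nat_lit 27515227)
def b3_42 : Bx := Bx.mk (St.mk (I.pos (nat_lit 68337664) (nat_lit 137576448)) (I.mix (nat_lit 3883008) (nat_lit 5554176)) (I.pos (nat_lit 1327104) (nat_lit 17940480)) (I.pos (nat_lit 18300928) (nat_lit 86327296)) (I.mix (nat_lit 8503296) (nat_lit 6291456)) (I.mix (nat_lit 5210112) (nat_lit 4620288)) (I.mix (nat_lit 5668864) (nat_lit 3424256)))
  false (nat_lit 0)
def b3_43 : Bx := Bx.mk (St.mk (I.pos (nat_lit 120307712) (nat_lit 147783680)) (I.mix (nat_lit 13238272) (nat_lit 6946816)) (I.pos (nat_lit 606208) (nat_lit 21266432)) (I.pos (nat_lit 54591488) (nat_lit 95272960)) (I.mix (nat_lit 13303808) (nat_lit 14204928)) (I.mix (nat_lit 8028160) (nat_lit 10027008)) (I.mix (nat_lit 7913472) (nat_lit 7225344)))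
  false (nat_lit 0)
def b3_44 : Bx := Bx.mk (St.mk (I.pos (nat_lit 50921472) (nat_lit 70156288)) (I.mix (nat_lit 4653056) (nat_lit 2408448)) (I.pos (nat_lit 180224) (nat_lit 6733824)) (I.pos (nat_lit 9420800) (nat_lit 34783232)) (I.mix (nat_lit 2555904) (nat_lit 2965504)) (I.mix (nat_lit 1261568) (nat_lit 1785856)) (I.mix (nat_lit 1179648) (nat_lit 933888)))
  false (nat_lit 0)
def b3_45 : Bx := Bx.mk (St.mk (I.pos (nat_lit 209485824) (nat_lit 253247488)) (I.pos (nat_lit 8028160) (nat_lit 29081600)) (I.pos (nat_lit 42663936) (nat_lit 89751552)) (I.pos (nat_lit 175570944) (nat_lit 246890496)) (I.mix (nat_lit 59359232) (nat_lit 27705344)) (I.mix (nat_lit 39272448) (nat_lit 23642112)) (I.mix (nat_lit 68239360) (nat_lit 31834112)))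
  false (nat_lit 0)
def b3_46 : Bx := Bx.mk (St.mk (I.pos (nat_lit 200081408) (nat_lit 241385472)) (I.mix (nat_lit 1474560) (nat_lit 24756224)) (I.pos (nat_lit 26656768) (nat_lit 80068608)) (I.pos (nat_lit 162922496) (nat_lit 219250688)) (I.mix (nat_lit 70238208) (nat_lit 41910272)) (I.mix (nat_lit 51789824) (nat_lit 33275904)) (I.mix (nat_lit 82984960) (nat_lit 45711360)))
  false (nat_lit 31877992)
def b3_47 : Bx := Bx.mk (St.mk (I.pos (nat_lit 93175808) (nat_lit 128417792)) (I.pos (nat_lit 262144) (nat_lit 9928704)) (I.pos (nat_lit 5439488) (nat_lit 21020672)) (I.pos (nat_lit 37748736) (nat_lit 73629696)) (I.mix (nat_lit 26345472) (nat_lit 15761408)) (I.mix (nat_lit 19709952) (nat_lit 13139968)) (I.mix (nat_lit 17825792) (nat_lit 10010624)))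
  false (nat_lit 0)
def b3_48 : Bx := Bx.mk (St.mk (I.pos (nat_lit 130170880) (nat_lit 159039488)) (I.neg (nat_lit 1998848) (nat_lit 21970944)) (I.mix (nat_lit 5390336) (nat_lit 12845056)) (I.pos (nat_lit 64077824) (nat_lit 107773952)) (I.mix (nat_lit 33456128) (nat_lit 34734080)) (I.mix (nat_lit 26361856) (nat_lit 29933568)) (I.mix (nat_lit 21561344) (nat_lit 25231360)))
  false (nat_lit 0)
def b3_49 : Bx := Bx.mk (St.mk (I.pos (nat_lit 100958208) (nat_lit 133382144)) (I.pos (nat_lit 344064) (nat_lit 12271616)) (I.pos (nat_lit 5767168) (nat_lit 24494080)) (I.pos (nat_lit 41336832) (nat_lit 81412096)) (I.mix (nat_lit 18792448) (nat_lit 12648448)) (I.mix (nat_lit 13205504) (nat_lit 9322496)) (I.mix (nat_lit 12746752) (nat_lit 7274496)))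
  false (nat_lit 0)
def b3_50 : Bx := Bx.mk (St.mk (I.pos (nat_lit 85868544) (nat_lit 101892096)) (I.neg (nat_lit 819200) (nat_lit 9568256)) (I.pos (nat_lit 147456) (nat_lit 7192576)) (I.pos (nat_lit 27049984) (nat_lit 54607872)) (I.mix (nat_lit 7979008) (nat_lit 10928128)) (I.mix (nat_lit 5570560) (nat_lit 7389184)) (I.mix (nat_lit 3063808) (nat_lit 4423680)))
  false (nat_lit 0)
def b3_51 : Bx := Bx.mk (St.mk (I.pos (nat_lit 248758272) (nat_lit 273580032)) (I.mix (nat_lit 18792448) (nat_lit 4718592)) (I.pos (nat_lit 5488640) (nat_lit 52772864)) (I.pos (nat_lit 236322816) (nat_lit 292814848)) (I.mix (nat_lit 48267264) (nat_lit 25985024)) (I.mix (nat_lit 29409280) (nat_lit 26296320)) (I.mix (nat_lit 54984704) (nat_lit 36143104)))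
  false (nat_lit 0)
def b3_52 : Bx := Bx.mk (St.mk (I.pos (nat_lit 102072320) (nat_lit 137150464)) (I.mix (nat_lit 6668288) (nat_lit 9076736)) (I.pos (nat_lit 2801664) (nat_lit 22085632)) (I.pos (nat_lit 42450944) (nat_lit 85770240)) (I.mix (nat_lit 18710528) (nat_lit 10223616)) (I.mix (nat_lit 10797056) (nat_lit 8028160)) (I.mix (nat_lit 11173888) (nat_lit 5816320)))
  false (nat_lit 0)
def b3_53 : Bx := Bx.mk (St.mk (I.pos (nat_lit 120897536) (nat_lit 148635648)) (I.mix (nat_lit 11894784) (nat_lit 8028160)) (I.pos (nat_lit 1277952) (nat_lit 22724608)) (I.pos (nat_lit 54886400) (nat_lit 96534528)) (I.mix (nat_lit 14745600) (nat_lit 19103744)) (I.mix (nat_lit 10731520) (nat_lit 12500992)) (I.mix (nat_lit 9650176) (nat_lit 9666560)))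
  false (nat_lit 0)
def b3_54 : Bx := Bx.mk (St.mk (I.pos (nat_lit 124780544) (nat_lit 148619264)) (I.neg (nat_lit 294912) (nat_lit 16826368)) (I.mix (nat_lit 3047424) (nat_lit 13484032)) (I.pos (nat_lit 57966592) (nat_lit 97599488)) (I.mix (nat_lit 12910592) (nat_lit 9682944)) (I.mix (nat_lit 6356992) (nat_lit 9715712)) (I.mix (nat_lit 5980160) (nat_lit 6979584)))
  false (nat_lit 0)
def t3 : BTr := (BTr.n (BTr.n (BTr.n (BTr.n (BTr.n (BTr.b b3_0) (BTr.n (BTr.b b3_1) (BTr.b b3_2))) (BTr.n (BTr.b b3_3) (BTr.n (BTr.b b3_4) (BTr.b b3_5)))) (BTr.n (BTr.n (BTr.b b3_6) (BTr.n (BTr.b b3_7) (BTr.b b3_8))) (BTr.n (BTr.n (BTr.b b3_9) (BTr.b b3_10)) (BTr.n (BTr.b b3_11) (BTr.b b3_12))))) (BTr.n (BTr.n (BTr.n (BTr.b b3_13) (BTr.n (BTr.b b3_14) (BTr.b b3_15))) (BTr.n (BTr.n (BTr.b b3_16) (BTr.b b3_17)) (BTr.n (BTr.b b3_18) (BTr.b b3_19)))) (BTr.n (BTr.n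 (BTr.b b3_20) (BTr.n (BTr.b b3_21) (BTr.b b3_22))) (BTr.n (BTr.n (BTr.b b3_23) (BTr.b b3_24)) (BTr.n (BTr.b b3_25) (BTr.b b3_26)))))) (BTr.n (BTr.n (BTr.n (BTr.n (BTr.b b3_27) (BTr.n (BTr.b b3_28) (BTr.b b3_29))) (BTr.n (BTr.n (BTr.b b3_30) (BTr.b b3_31)) (BTr.n (BTr.b b3_32) (BTr.b b3_33)))) (BTr.n (BTr.n (BTr.b b3_34) (BTr.n (BTr.b b3_35) (BTr.b b3_36))) (BTr.n (BTr.n (BTr.b b3_37) (BTr.b b3_38)) (BTr.n (BTr.b b3_39) (BTr.b b3_40))))) (BTr.n (BTr.n (BTr.n (BTr.b b3_41) (BTr.n (BTr.b b3_42) (BTr.b b3_43))) (BTr.n (BTr.n (BTr.b b3_44) (BTr.b b3_45)) (BTr.n (BTr.b b3_46) (BTr.b b3_47)))) (BTr.n (BTr.n (BTr.b b3_48) (BTr.n (BTr.b b3_49) (BTr.b b3_50))) (BTr.n (BTr.n (BTr.b b3_51) (BTr.b b3_52)) (BTr.n (BTr.b b3_53) (BTr.b b3_54)))))))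
namespace T3
def l0 : Tr := Tr.L (Pth.l (Pth.l (Pth.l (Pth.l (Pth.l Pth.z)))))
def l1 : Tr := Tr.L (Pth.l (Pth.l (Pth.l (Pth.l (Pth.r (Pth.l Pth.z))))))
def l2 : Tr := Tr.L (Pth.l (Pth.l (Pth.l (Pth.l (Pth.r (Pth.r Pth.z))))))
def l3 : Tr := Tr.L (Pth.l (Pth.l (Pth.l (Pth.r (Pth.l Pth.z)))))
def l4 : Tr := Tr.L (Pth.l (Pth.l (Pth.l (Pth.r (Pth.r (Pth.l Pth.z))))))
def l5 : Tr := Tr.L (Pth.l (Pth.l (Pth.l (Pth.r (Pth.r (Pth.r Pth.z))))))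
def l6 : Tr := Tr.L (Pth.l (Pth.l (Pth.r (Pth.l (Pth.l Pth.z)))))
def l7 : Tr := Tr.L (Pth.l (Pth.l (Pth.r (Pth.l (Pth.r (Pth.l Pth.z))))))
def l8 : Tr := Tr.L (Pth.l (Pth.l (Pth.r (Pth.l (Pth.r (Pth.r Pth.z))))))
def l9 : Tr := Tr.L (Pth.l (Pth.l (Pth.r (Pth.r (Pth.l (Pth.l Pth.z))))))
def l10 : Tr := Tr.L (Pth.l (Pth.l (Pth.r (Pth.r (Pth.l (Pth.r Pth.z))))))
def l11 : Tr := Tr.L (Pth.l (Pth.l (Pth.r (Pth.r (Pth.r (Pth.l Pth.z))))))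
def l12 : Tr := Tr.L (Pth.l (Pth.l (Pth.r (Pth.r (Pth.r (Pth.r Pth.z))))))
def l13 : Tr := Tr.L (Pth.l (Pth.r (Pth.l (Pth.l (Pth.l Pth.z)))))
def l14 : Tr := Tr.L (Pth.l (Pth.r (Pth.l (Pth.l (Pth.r (Pth.l Pth.z))))))
def l15 : Tr := Tr.L (Pth.l (Pth.r (Pth.l (Pth.l (Pth.r (Pth.r Pth.z))))))
def l16 : Tr := Tr.L (Pth.l (Pth.r (Pth.l (Pth.r (Pth.l (Pth.l Pth.z))))))
def l17 : Tr := Tr.L (Pth.l (Pth.r (Pth.l (Pth.r (Pth.l (Pth.r Pth.z))))))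
def l18 : Tr := Tr.L (Pth.l (Pth.r (Pth.l (Pth.r (Pth.r (Pth.l Pth.z))))))
def l19 : Tr := Tr.L (Pth.l (Pth.r (Pth.l (Pth.r (Pth.r (Pth.r Pth.z))))))
def l20 : Tr := Tr.L (Pth.l (Pth.r (Pth.r (Pth.l (Pth.l Pth.z)))))
def l21 : Tr := Tr.L (Pth.l (Pth.r (Pth.r (Pth.l (Pth.r (Pth.l Pth.z))))))
def l22 : Tr := Tr.L (Pth.l (Pth.r (Pth.r (Pth.l (Pth.r (Pth.r Pth.z))))))
def l23 : Tr := Tr.L (Pth.l (Pth.r (Pth.r (Pth.r (Pth.l (Pth.l Pth.z))))))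
def l24 : Tr := Tr.L (Pth.l (Pth.r (Pth.r (Pth.r (Pth.l (Pth.r Pth.z))))))
def l25 : Tr := Tr.L (Pth.l (Pth.r (Pth.r (Pth.r (Pth.r (Pth.l Pth.z))))))
def l26 : Tr := Tr.L (Pth.l (Pth.r (Pth.r (Pth.r (Pth.r (Pth.r Pth.z))))))
def l27 : Tr := Tr.L (Pth.r (Pth.l (Pth.l (Pth.l (Pth.l Pth.z)))))
def l28 : Tr := Tr.L (Pth.r (Pth.l (Pth.l (Pth.l (Pth.r (Pth.l Pth.z))))))
def l29 : Tr := Tr.L (Pth.r (Pth.l (Pth.l (Pth.l (Pth.r (Pth.r Pth.z))))))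
def l30 : Tr := Tr.L (Pth.r (Pth.l (Pth.l (Pth.r (Pth.l (Pth.l Pth.z))))))
def l31 : Tr := Tr.L (Pth.r (Pth.l (Pth.l (Pth.r (Pth.l (Pth.r Pth.z))))))
def l32 : Tr := Tr.L (Pth.r (Pth.l (Pth.l (Pth.r (Pth.r (Pth.l Pth.z))))))
def l33 : Tr := Tr.L (Pth.r (Pth.l (Pth.l (Pth.r (Pth.r (Pth.r Pth.z))))))
def l34 : Tr := Tr.L (Pth.r (Pth.l (Pth.r (Pth.l (Pth.l Pth.z)))))
def l35 : Tr := Tr.L (Pth.r (Pth.l (Pth.r (Pth.l (Pth.r (Pth.l Pth.z))))))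
def l36 : Tr := Tr.L (Pth.r (Pth.l (Pth.r (Pth.l (Pth.r (Pth.r Pth.z))))))
def l37 : Tr := Tr.L (Pth.r (Pth.l (Pth.r (Pth.r (Pth.l (Pth.l Pth.z))))))
def l38 : Tr := Tr.L (Pth.r (Pth.l (Pth.r (Pth.r (Pth.l (Pth.r Pth.z))))))
def l39 : Tr := Tr.L (Pth.r (Pth.l (Pth.r (Pth.r (Pth.r (Pth.l Pth.z))))))
def l40 : Tr := Tr.L (Pth.r (Pth.l (Pth.r (Pth.r (Pth.r (Pth.r Pth.z))))))
def l41 : Tr := Tr.L (Pth.r (Pth.r (Pth.l (Pth.l (Pth.l Pth.z)))))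
def l42 : Tr := Tr.L (Pth.r (Pth.r (Pth.l (Pth.l (Pth.r (Pth.l Pth.z))))))
def l43 : Tr := Tr.L (Pth.r (Pth.r (Pth.l (Pth.l (Pth.r (Pth.r Pth.z))))))
def l44 : Tr := Tr.L (Pth.r (Pth.r (Pth.l (Pth.r (Pth.l (Pth.l Pth.z))))))
def l45 : Tr := Tr.L (Pth.r (Pth.r (Pth.l (Pth.r (Pth.l (Pth.r Pth.z))))))
def l46 : Tr := Tr.L (Pth.r (Pth.r (Pth.l (Pth.r (Pth.r (Pth.l Pth.z))))))
def l47 : Tr := Tr.L (Pth.r (Pth.r (Pth.l (Pth.r (Pth.r (Pth.r Pth.z))))))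
def l48 : Tr := Tr.L (Pth.r (Pth.r (Pth.r (Pth.l (Pth.l Pth.z)))))
def l49 : Tr := Tr.L (Pth.r (Pth.r (Pth.r (Pth.l (Pth.r (Pth.l Pth.z))))))
def l50 : Tr := Tr.L (Pth.r (Pth.r (Pth.r (Pth.l (Pth.r (Pth.r Pth.z))))))
def l51 : Tr := Tr.L (Pth.r (Pth.r (Pth.r (Pth.r (Pth.l (Pth.l Pth.z))))))
def l52 : Tr := Tr.L (Pth.r (Pth.r (Pth.r (Pth.r (Pth.l (Pth.r Pth.z))))))
def l53 : Tr := Tr.L (Pth.r (Pth.r (Pth.r (Pth.r (Pth.r (Pth.l Pth.z))))))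
def l54 : Tr := Tr.L (Pth.r (Pth.r (Pth.r (Pth.r (Pth.r (Pth.r Pth.z))))))
end T3
def b4_0 : Bx := Bx.mk (St.mk (I.pos (nat_lit 140181504) (nat_lit 215302144)) (I.mix (nat_lit 278528) (nat_lit 86884352)) (I.mix (nat_lit 278528) (nat_lit 101793792)) (I.pos (nat_lit 364249088) (nat_lit 453672960)) (I.mix (nat_lit 148914176) (nat_lit 89784320)) (I.mix (nat_lit 79560704) (nat_lit 79609856)) (I.mix (nat_lit 96419840) (nat_lit 101466112)))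
  false (nat_lit 129905939)
def b4_1 : Bx := Bx.mk (St.mk (I.pos (nat_lit 21282816) (nat_lit 81756160)) (I.neg (nat_lit 42270720) (nat_lit 88047616)) (I.neg (nat_lit 20185088) (nat_lit 65994752)) (I.pos (nat_lit 266256384) (nat_lit 309903360)) (I.mix (nat_lit 107282432) (nat_lit 70811648)) (I.mix (nat_lit 64012288) (nat_lit 63422464)) (I.mix (nat_lit 63488000) (nat_lit 52658176)))
  false (nat_lit 104797593)
def b4_2 : Bx := Bx.mk (St.mk (I.pos (nat_lit 120668160) (nat_lit 185384960)) (I.pos (nat_lit 15597568) (nat_lit 78774272)) (I.pos (nat_lit 26198016) (nat_lit 103317504)) (I.pos (nat_lit 330072064) (nat_lit 421330944)) (I.mix (nat_lit 169148416) (nat_lit 58376192)) (I.mix (nat_lit 126484480) (nat_lit 81264640)) (I.mix (nat_lit 125911040) (nat_lit 105807872)))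
  false (nat_lit 167996703)
def b4_3 : Bx := Bx.mk (St.mk (I.neg (nat_lit 21282816) (nat_lit 81756160)) (I.pos (nat_lit 42270720) (nat_lit 88047616)) (I.neg (nat_lit 20185088) (nat_lit 65994752)) (I.pos (nat_lit 266190848) (nat_lit 309919744)) (I.mix (nat_lit 70828032) (nat_lit 107298816)) (I.mix (nat_lit 63438848) (nat_lit 64012288)) (I.mix (nat_lit 63504384) (nat_lit 52674560)))
  true (nat_lit 0)
def b4_4 : Bx := Bx.mk (St.mk (I.neg (nat_lit 11206656) (nat_lit 57786368)) (I.pos (nat_lit 33472512) (nat_lit 84017152)) (I.neg (nat_lit 33914880) (nat_lit 61145088)) (I.pos (nat_lit 265551872) (nat_lit 294223872)) (I.mix (nat_lit 46710784) (nat_lit 114622464)) (I.mix (nat_lit 78626816) (nat_lit 60276736)) (I.mix (nat_lit 41140224) (nat_lit 30769152)))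
  true (nat_lit 0)
def b4_5 : Bx := Bx.mk (St.mk (I.pos (nat_lit 11206656) (nat_lit 57786368)) (I.neg (nat_lit 33472512) (nat_lit 84017152)) (I.neg (nat_lit 33914880) (nat_lit 61145088)) (I.pos (nat_lit 265551872) (nat_lit 294223872)) (I.mix (nat_lit 114573312) (nat_lit 46710784)) (I.mix (nat_lit 60276736) (nat_lit 78626816)) (I.mix (nat_lit 41140224) (nat_lit 30769152)))
  false (nat_lit 65215220)
def b4_6 : Bx := Bx.mk (St.mk (I.pos (nat_lit 69730304) (nat_lit 120700928)) (I.neg (nat_lit 16449536) (nat_lit 59129856)) (I.mix (nat_lit 40665088) (nat_lit 4194304)) (I.pos (nat_lit 285540352) (nat_lit 328024064)) (I.mix (nat_lit 43794432) (nat_lit 30425088)) (I.mix (nat_lit 24510464) (nat_lit 21872640)) (I.mix (nat_lit 22200320) (nat_lit 16793600)))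
  false (nat_lit 0)
def b4_7 : Bx := Bx.mk (St.mk (I.pos (nat_lit 98910208) (nat_lit 147357696)) (I.mix (nat_lit 27639808) (nat_lit 19578880)) (I.mix (nat_lit 14237696) (nat_lit 39518208)) (I.pos (nat_lit 304627712) (nat_lit 354746368)) (I.mix (nat_lit 43581440) (nat_lit 26312704)) (I.mix (nat_lit 26607616) (nat_lit 27049984)) (I.mix (nat_lit 24559616) (nat_lit 23412736)))
  false (nat_lit 0)
def b4_8 : Bx := Bx.mk (St.mk (I.neg (nat_lit 69713920) (nat_lit 120717312)) (I.pos (nat_lit 16449536) (nat_lit 59129856)) (I.mix (nat_lit 40665088) (nat_lit 4194304)) (I.pos (nat_lit 285540352) (nat_lit 328040448)) (I.mix (nat_lit 30425088) (nat_lit 43794432)) (I.mix (nat_lit 21872640) (nat_lit 24510464)) (I.mix (nat_lit 22200320) (nat_lit 16793600)))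
  true (nat_lit 0)
def b4_9 : Bx := Bx.mk (St.mk (I.pos (nat_lit 56950784) (nat_lit 87818240)) (I.neg (nat_lit 23986176) (nat_lit 53444608)) (I.neg (nat_lit 9142272) (nat_lit 39059456)) (I.pos (nat_lit 277348352) (nat_lit 305725440)) (I.mix (nat_lit 57769984) (nat_lit 45072384)) (I.mix (nat_lit 32292864) (nat_lit 41254912)) (I.mix (nat_lit 29949952) (nat_lit 32292864)))
  false (nat_lit 0)
def b4_10 : Bx := Bx.mk (St.mk (I.pos (nat_lit 130891776) (nat_lit 162840576)) (I.mix (nat_lit 9879552) (nat_lit 20905984)) (I.mix (nat_lit 3358720) (nat_lit 38715392)) (I.pos (nat_lit 333283328) (nat_lit 371048448)) (I.mix (nat_lit 68288512) (nat_lit 50446336)) (I.mix (nat_lit 53362688) (nat_lit 47251456)) (I.mix (nat_lit 49594368) (nat_lit 43384832)))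
  false (nat_lit 25983186)
def b4_11 : Bx := Bx.mk (St.mk (I.neg (nat_lit 56950784) (nat_lit 87818240)) (I.pos (nat_lit 23986176) (nat_lit 53444608)) (I.neg (nat_lit 9142272) (nat_lit 39059456)) (I.pos (nat_lit 277348352) (nat_lit 305725440)) (I.mix (nat_lit 45072384) (nat_lit 57769984)) (I.mix (nat_lit 41271296) (nat_lit 32292864)) (I.mix (nat_lit 29949952) (nat_lit 32292864)))
  true (nat_lit 0)
def b4_12 : Bx := Bx.mk (St.mk (I.pos (nat_lit 79986688) (nat_lit 118161408)) (I.neg (nat_lit 9781248) (nat_lit 44433408)) (I.mix (nat_lit 29032448) (nat_lit 9830400)) (I.pos (nat_lit 291241984) (nat_lit 325746688)) (I.mix (nat_lit 26918912) (nat_lit 23068672)) (I.mix (nat_lit 15073280) (nat_lit 20185088)) (I.mix (nat_lit 13942784) (nat_lit 15892480)))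
  false (nat_lit 0)
def b4_13 : Bx := Bx.mk (St.mk (I.pos (nat_lit 101466112) (nat_lit 141197312)) (I.mix (nat_lit 35225600) (nat_lit 720896)) (I.mix (nat_lit 21757952) (nat_lit 21348352)) (I.pos (nat_lit 306462720) (nat_lit 346030080)) (I.mix (nat_lit 29163520) (nat_lit 24199168)) (I.mix (nat_lit 21184512) (nat_lit 16580608)) (I.mix (nat_lit 19070976) (nat_lit 14254080)))
  false (nat_lit 0)
def b4_14 : Bx := Bx.mk (St.mk (I.neg (nat_lit 79970304) (nat_lit 118161408)) (I.pos (nat_lit 9781248) (nat_lit 44711936)) (I.mix (nat_lit 29229056) (nat_lit 9830400)) (I.pos (nat_lit 291241984) (nat_lit 325681152)) (I.mix (nat_lit 23068672) (nat_lit 26918912)) (I.mix (nat_lit 20185088) (nat_lit 15564800)) (I.mix (nat_lit 14024704) (nat_lit 15892480)))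
  true (nat_lit 0)
def b4_15 : Bx := Bx.mk (St.mk (I.pos (nat_lit 71090176) (nat_lit 89374720)) (I.neg (nat_lit 36274176) (nat_lit 51855360)) (I.neg (nat_lit 14942208) (nat_lit 35569664)) (I.pos (nat_lit 287014912) (nat_lit 306282496)) (I.mix (nat_lit 26279936) (nat_lit 11321344)) (I.mix (nat_lit 9076736) (nat_lit 13025280)) (I.mix (nat_lit 9748480) (nat_lit 9535488)))
  false (nat_lit 0)
def b4_16 : Bx := Bx.mk (St.mk (I.pos (nat_lit 128139264) (nat_lit 145211392)) (I.pos (nat_lit 360448) (nat_lit 15220736)) (I.pos (nat_lit 8470528) (nat_lit 34471936)) (I.pos (nat_lit 330317824) (nat_lit 354516992)) (I.mix (nat_lit 24444928) (nat_lit 9797632)) (I.mix (nat_lit 14139392) (nat_lit 10141696)) (I.mix (nat_lit 14647296) (nat_lit 9322496)))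
  false (nat_lit 0)
def b4_17 : Bx := Bx.mk (St.mk (I.neg (nat_lit 71073792) (nat_lit 89374720)) (I.pos (nat_lit 36274176) (nat_lit 51855360)) (I.neg (nat_lit 14942208) (nat_lit 35569664)) (I.pos (nat_lit 287014912) (nat_lit 306282496)) (I.mix (nat_lit 11321344) (nat_lit 26279936)) (I.mix (nat_lit 13025280) (nat_lit 9076736)) (I.mix (nat_lit 9748480) (nat_lit 9535488)))
  true (nat_lit 0)
def b4_18 : Bx := Bx.mk (St.mk (I.pos (nat_lit 85327872) (nat_lit 118112256)) (I.neg (nat_lit 12910592) (nat_lit 43532288)) (I.mix (nat_lit 27918336) (nat_lit 6537216)) (I.pos (nat_lit 295419904) (nat_lit 326139904)) (I.mix (nat_lit 15302656) (nat_lit 7553024)) (I.mix (nat_lit 4227072) (nat_lit 6848512)) (I.mix (nat_lit 4603904) (nat_lit 4685824)))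
  false (nat_lit 0)
def b4_19 : Bx := Bx.mk (St.mk (I.pos (nat_lit 100909056) (nat_lit 133562368)) (I.neg (nat_lit 1359872) (nat_lit 31653888)) (I.mix (nat_lit 17547264) (nat_lit 19365888)) (I.pos (nat_lit 306888704) (nat_lit 338427904)) (I.mix (nat_lit 12697600) (nat_lit 8257536)) (I.mix (nat_lit 6668288) (nat_lit 4472832)) (I.mix (nat_lit 6455296) (nat_lit 3375104)))
  false (nat_lit 0)
def b4_20 : Bx := Bx.mk (St.mk (I.neg (nat_lit 85327872) (nat_lit 118751232)) (I.pos (nat_lit 12910592) (nat_lit 43532288)) (I.mix (nat_lit 27918336) (nat_lit 6537216)) (I.pos (nat_lit 295403520) (nat_lit 326074368)) (I.mix (nat_lit 7553024) (nat_lit 15302656)) (I.mix (nat_lit 6848512) (nat_lit 4227072)) (I.mix (nat_lit 4603904) (nat_lit 4685824)))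
  true (nat_lit 0)
def b4_21 : Bx := Bx.mk (St.mk (I.pos (nat_lit 46891008) (nat_lit 85934080)) (I.neg (nat_lit 24363008) (nat_lit 59015168)) (I.neg (nat_lit 10436608) (nat_lit 44187648)) (I.pos (nat_lit 273580032) (nat_lit 305102848)) (I.mix (nat_lit 65994752) (nat_lit 35684352)) (I.mix (nat_lit 30490624) (nat_lit 40157184)) (I.mix (nat_lit 29769728) (nat_lit 29917184)))
  false (nat_lit 0)
def b4_22 : Bx := Bx.mk (St.mk (I.pos (nat_lit 132202496) (nat_lit 171294720)) (I.mix (nat_lit 7536640) (nat_lit 33947648)) (I.mix (nat_lit 1441792) (nat_lit 50724864)) (I.pos (nat_lit 335331328) (nat_lit 385400832)) (I.mix (nat_lit 59080704) (nat_lit 58392576)) (I.mix (nat_lit 49872896) (nat_lit 49709056)) (I.mix (nat_lit 47874048) (nat_lit 45056000)))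
  false (nat_lit 56895021)
def b4_23 : Bx := Bx.mk (St.mk (I.neg (nat_lit 46874624) (nat_lit 85934080)) (I.pos (nat_lit 24363008) (nat_lit 59015168)) (I.neg (nat_lit 10436608) (nat_lit 44187648)) (I.pos (nat_lit 273563648) (nat_lit 305102848)) (I.mix (nat_lit 35684352) (nat_lit 66011136)) (I.mix (nat_lit 40157184) (nat_lit 30490624)) (I.mix (nat_lit 29769728) (nat_lit 29933568)))
  true (nat_lit 0)
def b4_24 : Bx := Bx.mk (St.mk (I.pos (nat_lit 103022592) (nat_lit 143163392)) (I.mix (nat_lit 34930688) (nat_lit 5685248)) (I.mix (nat_lit 21463040) (nat_lit 25935872)) (I.pos (nat_lit 307888128) (nat_lit 348848128)) (I.mix (nat_lit 29097984) (nat_lit 31375360)) (I.mix (nat_lit 23511040) (nat_lit 24084480)) (I.mix (nat_lit 21266432) (nat_lit 20971520)))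
  false (nat_lit 0)
def b4_25 : Bx := Bx.mk (St.mk (I.pos (nat_lit 68812800) (nat_lit 122830848)) (I.neg (nat_lit 12025856) (nat_lit 58769408)) (I.mix (nat_lit 40222720) (nat_lit 8044544)) (I.pos (nat_lit 286244864) (nat_lit 329760768)) (I.mix (nat_lit 45826048) (nat_lit 38125568)) (I.mix (nat_lit 24051712) (nat_lit 28737536)) (I.mix (nat_lit 21463040) (nat_lit 22151168)))
  false (nat_lit 0)
def b4_26 : Bx := Bx.mk (St.mk (I.pos (nat_lit 96780288) (nat_lit 145637376)) (I.mix (nat_lit 32571392) (nat_lit 21315584)) (I.mix (nat_lit 18907136) (nat_lit 41402368)) (I.pos (nat_lit 303120384) (nat_lit 354598912)) (I.mix (nat_lit 50511872) (nat_lit 31817728)) (I.mix (nat_lit 34963456) (nat_lit 26722304)) (I.mix (nat_lit 31866880) (nat_lit 24117248)))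
  false (nat_lit 0)
def b4_27 : Bx := Bx.mk (St.mk (I.neg (nat_lit 68812800) (nat_lit 122830848)) (I.pos (nat_lit 12025856) (nat_lit 58785792)) (I.mix (nat_lit 40222720) (nat_lit 8044544)) (I.pos (nat_lit 286228480) (nat_lit 329760768)) (I.mix (nat_lit 38125568) (nat_lit 45826048)) (I.mix (nat_lit 28737536) (nat_lit 24051712)) (I.mix (nat_lit 21463040) (nat_lit 22151168)))
  true (nat_lit 0)
def b4_28 : Bx := Bx.mk (St.mk (I.pos (nat_lit 199327744) (nat_lit 283901952)) (I.mix (nat_lit 5505024) (nat_lit 60702720)) (I.mix (nat_lit 102268928) (nat_lit 43302912)) (I.pos (nat_lit 437420032) (nat_lit 557285376)) (I.mix (nat_lit 50905088) (nat_lit 59179008)) (I.mix (nat_lit 40861696) (nat_lit 39813120)) (I.mix (nat_lit 67321856) (nat_lit 65601536)))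
  false (nat_lit 129910730)
def b4_29 : Bx := Bx.mk (St.mk (I.mix (nat_lit 29048832) (nat_lit 8929280)) (I.mix (nat_lit 2342912) (nat_lit 39682048)) (I.neg (nat_lit 35258368) (nat_lit 48496640)) (I.pos (nat_lit 260079616) (nat_lit 272875520)) (I.mix (nat_lit 11665408) (nat_lit 34521088)) (I.mix (nat_lit 15548416) (nat_lit 12910592)) (I.mix (nat_lit 5210112) (nat_lit 6684672)))
  true (nat_lit 0)
def b4_30 : Bx := Bx.mk (St.mk (I.mix (nat_lit 8929280) (nat_lit 29065216)) (I.mix (nat_lit 39682048) (nat_lit 2342912)) (I.neg (nat_lit 35258368) (nat_lit 48496640)) (I.pos (nat_lit 260079616) (nat_lit 272875520)) (I.mix (nat_lit 34521088) (nat_lit 11665408)) (I.mix (nat_lit 12910592) (nat_lit 15548416)) (I.mix (nat_lit 5210112) (nat_lit 6684672)))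
  false (nat_lit 0)
def b4_31 : Bx := Bx.mk (St.mk (I.pos (nat_lit 184205312) (nat_lit 227278848)) (I.pos (nat_lit 14221312) (nat_lit 55083008)) (I.mix (nat_lit 21856256) (nat_lit 38518784)) (I.pos (nat_lit 411893760) (nat_lit 456638464)) (I.mix (nat_lit 73433088) (nat_lit 74121216)) (I.mix (nat_lit 57966592) (nat_lit 48250880)) (I.mix (nat_lit 80789504) (nat_lit 68911104)))
  false (nat_lit 104919386)
def b4_32 : Bx := Bx.mk (St.mk (I.neg (nat_lit 17793024) (nat_lit 39895040)) (I.pos (nat_lit 16220160) (nat_lit 40222720)) (I.neg (nat_lit 32636928) (nat_lit 47792128)) (I.pos (nat_lit 263634944) (nat_lit 275464192)) (I.mix (nat_lit 31948800) (nat_lit 56066048)) (I.mix (nat_lit 37093376) (nat_lit 31145984)) (I.mix (nat_lit 10895360) (nat_lit 13942784)))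
  true (nat_lit 0)
def b4_33 : Bx := Bx.mk (St.mk (I.pos (nat_lit 17793024) (nat_lit 39895040)) (I.neg (nat_lit 16220160) (nat_lit 40222720)) (I.neg (nat_lit 32636928) (nat_lit 47792128)) (I.pos (nat_lit 263634944) (nat_lit 275464192)) (I.mix (nat_lit 56066048) (nat_lit 31948800)) (I.mix (nat_lit 31145984) (nat_lit 37093376)) (I.mix (nat_lit 10895360) (nat_lit 13942784)))
  false (nat_lit 0)
def b4_34 : Bx := Bx.mk (St.mk (I.pos (nat_lit 222347264) (nat_lit 274956288)) (I.mix (nat_lit 18268160) (nat_lit 36864000)) (I.neg (nat_lit 1572864) (nat_lit 118407168)) (I.pos (nat_lit 460767232) (nat_lit 540327936)) (I.mix (nat_lit 49430528) (nat_lit 48414720)) (I.mix (nat_lit 38928384) (nat_lit 35864576)) (I.mix (nat_lit 57114624) (nat_lit 64094208)))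
  false (nat_lit 115486529)
def b4_35 : Bx := Bx.mk (St.mk (I.mix (nat_lit 27017216) (nat_lit 5931008)) (I.mix (nat_lit 7454720) (nat_lit 27164672)) (I.neg (nat_lit 34553856) (nat_lit 46891008)) (I.pos (nat_lit 260063232) (nat_lit 270139392)) (I.mix (nat_lit 19234816) (nat_lit 26738688)) (I.mix (nat_lit 15990784) (nat_lit 13352960)) (I.mix (nat_lit 3375104) (nat_lit 7028736)))
  true (nat_lit 0)
def b4_36 : Bx := Bx.mk (St.mk (I.mix (nat_lit 5931008) (nat_lit 27017216)) (I.mix (nat_lit 27164672) (nat_lit 7454720)) (I.neg (nat_lit 34553856) (nat_lit 46891008)) (I.pos (nat_lit 260063232) (nat_lit 270139392)) (I.mix (nat_lit 26738688) (nat_lit 19234816)) (I.mix (nat_lit 13352960) (nat_lit 15990784)) (I.mix (nat_lit 3375104) (nat_lit 7028736)))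
  false (nat_lit 0)
def b4_37 : Bx := Bx.mk (St.mk (I.pos (nat_lit 255967232) (nat_lit 275464192)) (I.mix (nat_lit 7061504) (nat_lit 10436608)) (I.neg (nat_lit 54755328) (nat_lit 103350272)) (I.pos (nat_lit 504365056) (nat_lit 541966336)) (I.mix (nat_lit 8880128) (nat_lit 7847936)) (I.mix (nat_lit 5144576) (nat_lit 3571712)) (I.mix (nat_lit 5111808) (nat_lit 10518528)))
  false (nat_lit 9129273)
def b4_38 : Bx := Bx.mk (St.mk (I.mix (nat_lit 10469376) (nat_lit 4603904)) (I.mix (nat_lit 3375104) (nat_lit 11911168)) (I.neg (nat_lit 35913728) (nat_lit 46055424)) (I.pos (nat_lit 260276224) (nat_lit 267141120)) (I.mix (nat_lit 2490368) (nat_lit 5832704)) (I.mix (nat_lit 2539520) (nat_lit 1441792)) (I.mix (nat_lit 196608) (nat_lit 3670016)))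
  true (nat_lit 0)
def b4_39 : Bx := Bx.mk (St.mk (I.mix (nat_lit 4603904) (nat_lit 10469376)) (I.mix (nat_lit 11911168) (nat_lit 3375104)) (I.neg (nat_lit 35913728) (nat_lit 46055424)) (I.pos (nat_lit 260276224) (nat_lit 267141120)) (I.mix (nat_lit 5832704) (nat_lit 2490368)) (I.mix (nat_lit 1441792) (nat_lit 2539520)) (I.mix (nat_lit 196608) (nat_lit 3670016)))
  false (nat_lit 0)
def b4_40 : Bx := Bx.mk (St.mk (I.pos (nat_lit 203489280) (nat_lit 224591872)) (I.pos (nat_lit 31834112) (nat_lit 49037312)) (I.pos (nat_lit 1114112) (nat_lit 28295168)) (I.pos (nat_lit 440598528) (nat_lit 457867264)) (I.mix (nat_lit 22413312) (nat_lit 5439488)) (I.mix (nat_lit 10797056) (nat_lit 3031040)) (I.mix (nat_lit 11943936) (nat_lit 3063808)))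
  false (nat_lit 10692404)
def b4_41 : Bx := Bx.mk (St.mk (I.pos (nat_lit 178569216) (nat_lit 224083968)) (I.pos (nat_lit 14974976) (nat_lit 53133312)) (I.mix (nat_lit 20070400) (nat_lit 38649856)) (I.pos (nat_lit 405258240) (nat_lit 451166208)) (I.mix (nat_lit 86736896) (nat_lit 54738944)) (I.mix (nat_lit 54640640) (nat_lit 41893888)) (I.mix (nat_lit 70238208) (nat_lit 64241664)))
  false (nat_lit 96974641)
def b4_42 : Bx := Bx.mk (St.mk (I.neg (nat_lit 18710528) (nat_lit 47235072)) (I.pos (nat_lit 16859136) (nat_lit 50135040)) (I.neg (nat_lit 32882688) (nat_lit 48693248)) (I.pos (nat_lit 264208384) (nat_lit 279789568)) (I.mix (nat_lit 39092224) (nat_lit 46465024)) (I.mix (nat_lit 32636928) (nat_lit 32374784)) (I.mix (nat_lit 10649600) (nat_lit 14008320)))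
  true (nat_lit 0)
def b4_43 : Bx := Bx.mk (St.mk (I.pos (nat_lit 18710528) (nat_lit 47235072)) (I.neg (nat_lit 16859136) (nat_lit 50135040)) (I.neg (nat_lit 32882688) (nat_lit 48693248)) (I.pos (nat_lit 264208384) (nat_lit 279789568)) (I.mix (nat_lit 46465024) (nat_lit 39092224)) (I.mix (nat_lit 32374784) (nat_lit 32636928)) (I.mix (nat_lit 10649600) (nat_lit 14008320)))
  false (nat_lit 0)
def b4_44 : Bx := Bx.mk (St.mk (I.pos (nat_lit 212189184) (nat_lit 276168704)) (I.mix (nat_lit 19152896) (nat_lit 42303488)) (I.mix (nat_lit 120864768) (nat_lit 11436032)) (I.pos (nat_lit 448593920) (nat_lit 542310400)) (I.mix (nat_lit 59113472) (nat_lit 47398912)) (I.mix (nat_lit 40370176) (nat_lit 44498944)) (I.mix (nat_lit 57901056) (nat_lit 80986112)))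
  false (nat_lit 123741606)
def b4_45 : Bx := Bx.mk (St.mk (I.mix (nat_lit 28655616) (nat_lit 5767168)) (I.mix (nat_lit 7356416) (nat_lit 32047104)) (I.neg (nat_lit 34488320) (nat_lit 47104000)) (I.pos (nat_lit 260046848) (nat_lit 271368192)) (I.mix (nat_lit 21839872) (nat_lit 26361856)) (I.mix (nat_lit 16236544) (nat_lit 16236544)) (I.mix (nat_lit 3948544) (nat_lit 6979584)))
  true (nat_lit 0)
def b4_46 : Bx := Bx.mk (St.mk (I.mix (nat_lit 5767168) (nat_lit 28655616)) (I.mix (nat_lit 32047104) (nat_lit 7356416)) (I.neg (nat_lit 34488320) (nat_lit 47104000)) (I.pos (nat_lit 260046848) (nat_lit 271368192)) (I.mix (nat_lit 26361856) (nat_lit 21839872)) (I.mix (nat_lit 16236544) (nat_lit 16236544)) (I.mix (nat_lit 3948544) (nat_lit 6979584)))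
  false (nat_lit 0)
def b4_47 : Bx := Bx.mk (St.mk (I.pos (nat_lit 152354816) (nat_lit 205144064)) (I.pos (nat_lit 34013184) (nat_lit 83968000)) (I.pos (nat_lit 20905984) (nat_lit 93077504)) (I.pos (nat_lit 381566976) (nat_lit 440762368)) (I.mix (nat_lit 140066816) (nat_lit 96550912)) (I.mix (nat_lit 102006784) (nat_lit 68239360)) (I.mix (nat_lit 137166848) (nat_lit 100777984)))
  false (nat_lit 112065654)
def b4_48 : Bx := Bx.mk (St.mk (I.neg (nat_lit 14467072) (nat_lit 51593216)) (I.pos (nat_lit 25214976) (nat_lit 75300864)) (I.neg (nat_lit 33095680) (nat_lit 58867712)) (I.pos (nat_lit 266158080) (nat_lit 286998528)) (I.mix (nat_lit 68878336) (nat_lit 111001600)) (I.mix (nat_lit 84639744) (nat_lit 59195392)) (I.mix (nat_lit 30818304) (nat_lit 28819456)))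
  true (nat_lit 0)
def b4_49 : Bx := Bx.mk (St.mk (I.pos (nat_lit 14467072) (nat_lit 51593216)) (I.neg (nat_lit 25214976) (nat_lit 75300864)) (I.neg (nat_lit 33095680) (nat_lit 58867712)) (I.pos (nat_lit 266158080) (nat_lit 286998528)) (I.mix (nat_lit 111001600) (nat_lit 68878336)) (I.mix (nat_lit 59195392) (nat_lit 84639744)) (I.mix (nat_lit 30818304) (nat_lit 28819456)))
  false (nat_lit 80858288)
def b4_50 : Bx := Bx.mk (St.mk (I.pos (nat_lit 198311936) (nat_lit 288309248)) (I.mix (nat_lit 13664256) (nat_lit 62111744)) (I.mix (nat_lit 112427008) (nat_lit 46366720)) (I.pos (nat_lit 437272576) (nat_lit 565592064)) (I.mix (nat_lit 65830912) (nat_lit 76922880)) (I.mix (nat_lit 59572224) (nat_lit 41107456)) (I.mix (nat_lit 97189888) (nat_lit 62521344)))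
  false (nat_lit 129379585)
def b4_51 : Bx := Bx.mk (St.mk (I.mix (nat_lit 29982720) (nat_lit 10420224)) (I.mix (nat_lit 5029888) (nat_lit 41123840)) (I.neg (nat_lit 35045376) (nat_lit 48889856)) (I.pos (nat_lit 260079616) (nat_lit 272924672)) (I.mix (nat_lit 22478848) (nat_lit 42745856)) (I.mix (nat_lit 28082176) (nat_lit 18120704)) (I.mix (nat_lit 6242304) (nat_lit 8798208)))
  true (nat_lit 0)
def b4_52 : Bx := Bx.mk (St.mk (I.mix (nat_lit 10420224) (nat_lit 29982720)) (I.mix (nat_lit 41123840) (nat_lit 5029888)) (I.neg (nat_lit 35045376) (nat_lit 48889856)) (I.pos (nat_lit 260079616) (nat_lit 272924672)) (I.mix (nat_lit 42745856) (nat_lit 22478848)) (I.mix (nat_lit 18120704) (nat_lit 28082176)) (I.mix (nat_lit 6242304) (nat_lit 8798208)))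
  false (nat_lit 0)
def b4_53 : Bx := Bx.mk (St.mk (I.pos (nat_lit 77922304) (nat_lit 117178368)) (I.neg (nat_lit 10108928) (nat_lit 43433984)) (I.mix (nat_lit 28393472) (nat_lit 9682944)) (I.pos (nat_lit 289947648) (nat_lit 323534848)) (I.mix (nat_lit 32391168) (nat_lit 23117824)) (I.mix (nat_lit 19546112) (nat_lit 21037056)) (I.mix (nat_lit 17661952) (nat_lit 16302080)))
  false (nat_lit 0)
def b4_54 : Bx := Bx.mk (St.mk (I.neg (nat_lit 77905920) (nat_lit 117178368)) (I.pos (nat_lit 10092544) (nat_lit 43433984)) (I.mix (nat_lit 28393472) (nat_lit 9682944)) (I.pos (nat_lit 289947648) (nat_lit 323534848)) (I.mix (nat_lit 23134208) (nat_lit 32391168)) (I.mix (nat_lit 21037056) (nat_lit 19546112)) (I.mix (nat_lit 17661952) (nat_lit 16302080)))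
  true (nat_lit 0)
def b4_55 : Bx := Bx.mk (St.mk (I.pos (nat_lit 34177024) (nat_lit 78462976)) (I.neg (nat_lit 32817152) (nat_lit 83673088)) (I.neg (nat_lit 16515072) (nat_lit 62193664)) (I.pos (nat_lit 270942208) (nat_lit 308379648)) (I.mix (nat_lit 105512960) (nat_lit 83984384)) (I.mix (nat_lit 62210048) (nat_lit 78118912)) (I.mix (nat_lit 59228160) (nat_lit 66240512)))
  false (nat_lit 102052460)
def b4_56 : Bx := Bx.mk (St.mk (I.pos (nat_lit 122667008) (nat_lit 177700864)) (I.pos (nat_lit 5423104) (nat_lit 65650688)) (I.pos (nat_lit 9732096) (nat_lit 90816512)) (I.pos (nat_lit 333201408) (nat_lit 399376384)) (I.mix (nat_lit 166461440) (nat_lit 96829440)) (I.mix (nat_lit 141099008) (nat_lit 90963968)) (I.mix (nat_lit 135462912) (nat_lit 98156544)))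
  false (nat_lit 95624703)
def b4_57 : Bx := Bx.mk (St.mk (I.neg (nat_lit 34160640) (nat_lit 78462976)) (I.pos (nat_lit 32817152) (nat_lit 83673088)) (I.neg (nat_lit 16515072) (nat_lit 62210048)) (I.pos (nat_lit 270942208) (nat_lit 308396032)) (I.mix (nat_lit 84000768) (nat_lit 105512960)) (I.mix (nat_lit 78135296) (nat_lit 62210048)) (I.mix (nat_lit 59228160) (nat_lit 66240512)))
  true (nat_lit 0)
def b4_58 : Bx := Bx.mk (St.mk (I.neg (nat_lit 16809984) (nat_lit 28016640)) (I.pos (nat_lit 24100864) (nat_lit 36044800)) (I.neg (nat_lit 35635200) (nat_lit 47579136)) (I.pos (nat_lit 263618560) (nat_lit 272990208)) (I.mix (nat_lit 1654784) (nat_lit 20332544)) (I.mix (nat_lit 10256384) (nat_lit 4931584)) (I.mix (nat_lit 2899968) (nat_lit 5455872)))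
  true (nat_lit 0)
def b4_59 : Bx := Bx.mk (St.mk (I.pos (nat_lit 16809984) (nat_lit 28016640)) (I.neg (nat_lit 24100864) (nat_lit 36044800)) (I.neg (nat_lit 35635200) (nat_lit 47579136)) (I.pos (nat_lit 263618560) (nat_lit 272990208)) (I.mix (nat_lit 20332544) (nat_lit 1654784)) (I.mix (nat_lit 4931584) (nat_lit 10256384)) (I.mix (nat_lit 2899968) (nat_lit 5455872)))
  false (nat_lit 0)
def t4 : BTr := (BTr.n (BTr.n (BTr.n (BTr.n (BTr.n (BTr.b b4_0) (BTr.n (BTr.b b4_1) (BTr.b b4_2))) (BTr.n (BTr.n (BTr.b b4_3) (BTr.b b4_4)) (BTr.n (BTr.b b4_5) (BTr.b b4_6)))) (BTr.n (BTr.n (BTr.n (BTr.b b4_7) (BTr.b b4_8)) (BTr.n (BTr.b b4_9) (BTr.b b4_10))) (BTr.n (BTr.n (BTr.b b4_11) (BTr.b b4_12)) (BTr.n (BTr.b b4_13) (BTr.b b4_14))))) (BTr.n (BTr.n (BTr.n (BTr.b b4_15) (BTr.n (BTr.b b4_16) (BTr.b b4_17))) (BTr.n (BTr.n (BTr.b b4_18) (BTr.b b4_19)) (BTr.n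 (BTr.b b4_20) (BTr.b b4_21)))) (BTr.n (BTr.n (BTr.n (BTr.b b4_22) (BTr.b b4_23)) (BTr.n (BTr.b b4_24) (BTr.b b4_25))) (BTr.n (BTr.n (BTr.b b4_26) (BTr.b b4_27)) (BTr.n (BTr.b b4_28) (BTr.b b4_29)))))) (BTr.n (BTr.n (BTr.n (BTr.n (BTr.b b4_30) (BTr.n (BTr.b b4_31) (BTr.b b4_32))) (BTr.n (BTr.n (BTr.b b4_33) (BTr.b b4_34)) (BTr.n (BTr.b b4_35) (BTr.b b4_36)))) (BTr.n (BTr.n (BTr.n (BTr.b b4_37) (BTr.b b4_38)) (BTr.n (BTr.b b4_39) (BTr.b b4_40))) (BTr.n (BTr.n (BTr.b b4_41) (BTr.b b4_42)) (BTr.n (BTr.b b4_43) (BTr.b b4_44))))) (BTr.n (BTr.n (BTr.n (BTr.b b4_45) (BTr.n (BTr.b b4_46) (BTr.b b4_47))) (BTr.n (BTr.n (BTr.b b4_48) (BTr.b b4_49)) (BTr.n (BTr.b b4_50) (BTr.b b4_51)))) (BTr.n (BTr.n (BTr.n (BTr.b b4_52) (BTr.b b4_53)) (BTr.n (BTr.b b4_54) (BTr.b b4_55))) (BTr.n (BTr.n (BTr.b b4_56) (BTr.b b4_57)) (BTr.n (BTr.b b4_58) (BTr.b b4_59)))))))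
namespace T4
def l0 : Tr := Tr.L (Pth.l (Pth.l (Pth.l (Pth.l (Pth.l Pth.z)))))
def l1 : Tr := Tr.L (Pth.l (Pth.l (Pth.l (Pth.l (Pth.r (Pth.l Pth.z))))))
def l2 : Tr := Tr.L (Pth.l (Pth.l (Pth.l (Pth.l (Pth.r (Pth.r Pth.z))))))
def l3 : Tr := Tr.L (Pth.l (Pth.l (Pth.l (Pth.r (Pth.l (Pth.l Pth.z))))))
def l4 : Tr := Tr.L (Pth.l (Pth.l (Pth.l (Pth.r (Pth.l (Pth.r Pth.z))))))
def l5 : Tr := Tr.L (Pth.l (Pth.l (Pth.l (Pth.r (Pth.r (Pth.l Pth.z))))))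
def l6 : Tr := Tr.L (Pth.l (Pth.l (Pth.l (Pth.r (Pth.r (Pth.r Pth.z))))))
def l7 : Tr := Tr.L (Pth.l (Pth.l (Pth.r (Pth.l (Pth.l (Pth.l Pth.z))))))
def l8 : Tr := Tr.L (Pth.l (Pth.l (Pth.r (Pth.l (Pth.l (Pth.r Pth.z))))))
def l9 : Tr := Tr.L (Pth.l (Pth.l (Pth.r (Pth.l (Pth.r (Pth.l Pth.z))))))
def l10 : Tr := Tr.L (Pth.l (Pth.l (Pth.r (Pth.l (Pth.r (Pth.r Pth.z))))))
def l11 : Tr := Tr.L (Pth.l (Pth.l (Pth.r (Pth.r (Pth.l (Pth.l Pth.z))))))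
def l12 : Tr := Tr.L (Pth.l (Pth.l (Pth.r (Pth.r (Pth.l (Pth.r Pth.z))))))
def l13 : Tr := Tr.L (Pth.l (Pth.l (Pth.r (Pth.r (Pth.r (Pth.l Pth.z))))))
def l14 : Tr := Tr.L (Pth.l (Pth.l (Pth.r (Pth.r (Pth.r (Pth.r Pth.z))))))
def l15 : Tr := Tr.L (Pth.l (Pth.r (Pth.l (Pth.l (Pth.l Pth.z)))))
def l16 : Tr := Tr.L (Pth.l (Pth.r (Pth.l (Pth.l (Pth.r (Pth.l Pth.z))))))
def l17 : Tr := Tr.L (Pth.l (Pth.r (Pth.l (Pth.l (Pth.r (Pth.r Pth.z))))))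
def l18 : Tr := Tr.L (Pth.l (Pth.r (Pth.l (Pth.r (Pth.l (Pth.l Pth.z))))))
def l19 : Tr := Tr.L (Pth.l (Pth.r (Pth.l (Pth.r (Pth.l (Pth.r Pth.z))))))
def l20 : Tr := Tr.L (Pth.l (Pth.r (Pth.l (Pth.r (Pth.r (Pth.l Pth.z))))))
def l21 : Tr := Tr.L (Pth.l (Pth.r (Pth.l (Pth.r (Pth.r (Pth.r Pth.z))))))
def l22 : Tr := Tr.L (Pth.l (Pth.r (Pth.r (Pth.l (Pth.l (Pth.l Pth.z))))))
def l23 : Tr := Tr.L (Pth.l (Pth.r (Pth.r (Pth.l (Pth.l (Pth.r Pth.z))))))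
def l24 : Tr := Tr.L (Pth.l (Pth.r (Pth.r (Pth.l (Pth.r (Pth.l Pth.z))))))
def l25 : Tr := Tr.L (Pth.l (Pth.r (Pth.r (Pth.l (Pth.r (Pth.r Pth.z))))))
def l26 : Tr := Tr.L (Pth.l (Pth.r (Pth.r (Pth.r (Pth.l (Pth.l Pth.z))))))
def l27 : Tr := Tr.L (Pth.l (Pth.r (Pth.r (Pth.r (Pth.l (Pth.r Pth.z))))))
def l28 : Tr := Tr.L (Pth.l (Pth.r (Pth.r (Pth.r (Pth.r (Pth.l Pth.z))))))
def l29 : Tr := Tr.L (Pth.l (Pth.r (Pth.r (Pth.r (Pth.r (Pth.r Pth.z))))))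
def l30 : Tr := Tr.L (Pth.r (Pth.l (Pth.l (Pth.l (Pth.l Pth.z)))))
def l31 : Tr := Tr.L (Pth.r (Pth.l (Pth.l (Pth.l (Pth.r (Pth.l Pth.z))))))
def l32 : Tr := Tr.L (Pth.r (Pth.l (Pth.l (Pth.l (Pth.r (Pth.r Pth.z))))))
def l33 : Tr := Tr.L (Pth.r (Pth.l (Pth.l (Pth.r (Pth.l (Pth.l Pth.z))))))
def l34 : Tr := Tr.L (Pth.r (Pth.l (Pth.l (Pth.r (Pth.l (Pth.r Pth.z))))))
def l35 : Tr := Tr.L (Pth.r (Pth.l (Pth.l (Pth.r (Pth.r (Pth.l Pth.z))))))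
def l36 : Tr := Tr.L (Pth.r (Pth.l (Pth.l (Pth.r (Pth.r (Pth.r Pth.z))))))
def l37 : Tr := Tr.L (Pth.r (Pth.l (Pth.r (Pth.l (Pth.l (Pth.l Pth.z))))))
def l38 : Tr := Tr.L (Pth.r (Pth.l (Pth.r (Pth.l (Pth.l (Pth.r Pth.z))))))
def l39 : Tr := Tr.L (Pth.r (Pth.l (Pth.r (Pth.l (Pth.r (Pth.l Pth.z))))))
def l40 : Tr := Tr.L (Pth.r (Pth.l (Pth.r (Pth.l (Pth.r (Pth.r Pth.z))))))
def l41 : Tr := Tr.L (Pth.r (Pth.l (Pth.r (Pth.r (Pth.l (Pth.l Pth.z))))))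
def l42 : Tr := Tr.L (Pth.r (Pth.l (Pth.r (Pth.r (Pth.l (Pth.r Pth.z))))))
def l43 : Tr := Tr.L (Pth.r (Pth.l (Pth.r (Pth.r (Pth.r (Pth.l Pth.z))))))
def l44 : Tr := Tr.L (Pth.r (Pth.l (Pth.r (Pth.r (Pth.r (Pth.r Pth.z))))))
def l45 : Tr := Tr.L (Pth.r (Pth.r (Pth.l (Pth.l (Pth.l Pth.z)))))
def l46 : Tr := Tr.L (Pth.r (Pth.r (Pth.l (Pth.l (Pth.r (Pth.l Pth.z))))))
def l47 : Tr := Tr.L (Pth.r (Pth.r (Pth.l (Pth.l (Pth.r (Pth.r Pth.z))))))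
def l48 : Tr := Tr.L (Pth.r (Pth.r (Pth.l (Pth.r (Pth.l (Pth.l Pth.z))))))
def l49 : Tr := Tr.L (Pth.r (Pth.r (Pth.l (Pth.r (Pth.l (Pth.r Pth.z))))))
def l50 : Tr := Tr.L (Pth.r (Pth.r (Pth.l (Pth.r (Pth.r (Pth.l Pth.z))))))
def l51 : Tr := Tr.L (Pth.r (Pth.r (Pth.l (Pth.r (Pth.r (Pth.r Pth.z))))))
def l52 : Tr := Tr.L (Pth.r (Pth.r (Pth.r (Pth.l (Pth.l (Pth.l Pth.z))))))
def l53 : Tr := Tr.L (Pth.r (Pth.r (Pth.r (Pth.l (Pth.l (Pth.r Pth.z))))))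
def l54 : Tr := Tr.L (Pth.r (Pth.r (Pth.r (Pth.l (Pth.r (Pth.l Pth.z))))))
def l55 : Tr := Tr.L (Pth.r (Pth.r (Pth.r (Pth.l (Pth.r (Pth.r Pth.z))))))
def l56 : Tr := Tr.L (Pth.r (Pth.r (Pth.r (Pth.r (Pth.l (Pth.l Pth.z))))))
def l57 : Tr := Tr.L (Pth.r (Pth.r (Pth.r (Pth.r (Pth.l (Pth.r Pth.z))))))
def l58 : Tr := Tr.L (Pth.r (Pth.r (Pth.r (Pth.r (Pth.r (Pth.l Pth.z))))))
def l59 : Tr := Tr.L (Pth.r (Pth.r (Pth.r (Pth.r (Pth.r (Pth.r Pth.z))))))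
end T4
def b5_0 : Bx := Bx.mk (St.mk (I.pos (nat_lit 160514048) (nat_lit 227901440)) (I.mix (nat_lit 278528) (nat_lit 41189376)) (I.mix (nat_lit 278528) (nat_lit 104005632)) (I.pos (nat_lit 115064832) (nat_lit 209797120)) (I.mix (nat_lit 98729984) (nat_lit 52002816)) (I.mix (nat_lit 72400896) (nat_lit 57786368)) (I.mix (nat_lit 107642880) (nat_lit 67665920)))
  false (nat_lit 23704867)
def b5_1 : Bx := Bx.mk (St.mk (I.pos (nat_lit 116490240) (nat_lit 164986880)) (I.neg (nat_lit 15728640) (nat_lit 53788672)) (I.neg (nat_lit 3325952) (nat_lit 32063488)) (I.pos (nat_lit 89571328) (nat_lit 137314304)) (I.mix (nat_lit 70172672) (nat_lit 44646400)) (I.mix (nat_lit 36634624) (nat_lit 40271872)) (I.mix (nat_lit 35602432) (nat_lit 36749312)))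
  false (nat_lit 13215994)
def b5_2 : Bx := Bx.mk (St.mk (I.mix (nat_lit 9551872) (nat_lit 97730560)) (I.neg (nat_lit 1687552) (nat_lit 26214400)) (I.mix (nat_lit 5750784) (nat_lit 7684096)) (I.pos (nat_lit 17465344) (nat_lit 70352896)) (I.mix (nat_lit 23986176) (nat_lit 32751616)) (I.mix (nat_lit 19218432) (nat_lit 19415040)) (I.mix (nat_lit 9191424) (nat_lit 11894784)))
  false (nat_lit 26812209)
def b5_3 : Bx := Bx.mk (St.mk (I.pos (nat_lit 157417472) (nat_lit 205979648)) (I.mix (nat_lit 16138240) (nat_lit 41074688)) (I.pos (nat_lit 18759680) (nat_lit 100384768)) (I.pos (nat_lit 108871680) (nat_lit 185319424)) (I.mix (nat_lit 137199616) (nat_lit 53886976)) (I.mix (nat_lit 106102784) (nat_lit 62521344)) (I.mix (nat_lit 131842048) (nat_lit 47546368)))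
  false (nat_lit 60095548)
def b5_4 : Bx := Bx.mk (St.mk (I.mix (nat_lit 18219008) (nat_lit 114606080)) (I.mix (nat_lit 1916928) (nat_lit 24969216)) (I.pos (nat_lit 1425408) (nat_lit 34406400)) (I.pos (nat_lit 17416192) (nat_lit 83050496)) (I.mix (nat_lit 57622528) (nat_lit 21118976)) (I.mix (nat_lit 45137920) (nat_lit 24166400)) (I.mix (nat_lit 31080448) (nat_lit 11796480)))
  false (nat_lit 12470330)
def b5_5 : Bx := Bx.mk (St.mk (I.pos (nat_lit 147226624) (nat_lit 178913280)) (I.neg (nat_lit 5980160) (nat_lit 29704192)) (I.pos (nat_lit 393216) (nat_lit 25231360)) (I.pos (nat_lit 104579072) (nat_lit 151814144)) (I.mix (nat_lit 48414720) (nat_lit 37289984)) (I.mix (nat_lit 29179904) (nat_lit 38912000)) (I.mix (nat_lit 34521088) (nat_lit 32587776)))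
  false (nat_lit 0)
def b5_6 : Bx := Bx.mk (St.mk (I.mix (nat_lit 21708800) (nat_lit 98402304)) (I.mix (nat_lit 9486336) (nat_lit 2654208)) (I.pos (nat_lit 1900544) (nat_lit 14630912)) (I.pos (nat_lit 17760256) (nat_lit 70828032)) (I.mix (nat_lit 21594112) (nat_lit 17694720)) (I.mix (nat_lit 14860288) (nat_lit 16711680)) (I.mix (nat_lit 10452992) (nat_lit 8667136)))
  false (nat_lit 0)
def b5_7 : Bx := Bx.mk (St.mk (I.pos (nat_lit 160088064) (nat_lit 195117056)) (I.neg (nat_lit 10371072) (nat_lit 37584896)) (I.mix (nat_lit 7323648) (nat_lit 25952256)) (I.pos (nat_lit 117702656) (nat_lit 172851200)) (I.mix (nat_lit 56967168) (nat_lit 57098240)) (I.mix (nat_lit 52264960) (nat_lit 43958272)) (I.mix (nat_lit 49774592) (nat_lit 44957696)))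
  false (nat_lit 48321062)
def b5_8 : Bx := Bx.mk (St.mk (I.mix (nat_lit 17367040) (nat_lit 107085824)) (I.mix (nat_lit 11370496) (nat_lit 1949696)) (I.pos (nat_lit 1900544) (nat_lit 15384576)) (I.pos (nat_lit 17547264) (nat_lit 77692928)) (I.mix (nat_lit 19382272) (nat_lit 24428544)) (I.mix (nat_lit 19283968) (nat_lit 16498688)) (I.mix (nat_lit 11780096) (nat_lit 9682944)))
  false (nat_lit 0)
def b5_9 : Bx := Bx.mk (St.mk (I.pos (nat_lit 140312576) (nat_lit 173424640)) (I.neg (nat_lit 6193152) (nat_lit 36503552)) (I.mix (nat_lit 9158656) (nat_lit 23805952)) (I.pos (nat_lit 102318080) (nat_lit 142163968)) (I.mix (nat_lit 54755328) (nat_lit 34144256)) (I.mix (nat_lit 29491200) (nat_lit 39780352)) (I.mix (nat_lit 34193408) (nat_lit 32129024)))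
  false (nat_lit 0)
def b5_10 : Bx := Bx.mk (St.mk (I.pos (nat_lit 38780928) (nat_lit 97550336)) (I.mix (nat_lit 13893632) (nat_lit 1474560)) (I.pos (nat_lit 1622016) (nat_lit 14106624)) (I.pos (nat_lit 23953408) (nat_lit 70008832)) (I.mix (nat_lit 24166400) (nat_lit 16105472)) (I.mix (nat_lit 14778368) (nat_lit 16973824)) (I.mix (nat_lit 10338304) (nat_lit 8404992)))
  false (nat_lit 0)
def b5_11 : Bx := Bx.mk (St.mk (I.pos (nat_lit 165904384) (nat_lit 202997760)) (I.mix (nat_lit 38502400) (nat_lit 1589248)) (I.mix (nat_lit 6832128) (nat_lit 46219264)) (I.pos (nat_lit 123338752) (nat_lit 180961280)) (I.mix (nat_lit 59162624) (nat_lit 72466432)) (I.mix (nat_lit 60243968) (nat_lit 53706752)) (I.mix (nat_lit 55377920) (nat_lit 53919744)))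
  false (nat_lit 67350686)
def b5_12 : Bx := Bx.mk (St.mk (I.mix (nat_lit 17137664) (nat_lit 109199360)) (I.mix (nat_lit 11239424) (nat_lit 6225920)) (I.pos (nat_lit 1851392) (nat_lit 20103168)) (I.pos (nat_lit 17514496) (nat_lit 79183872)) (I.mix (nat_lit 20512768) (nat_lit 28835840)) (I.mix (nat_lit 20922368) (nat_lit 20824064)) (I.mix (nat_lit 12468224) (nat_lit 12451840)))
  false (nat_lit 8682248)
def b5_13 : Bx := Bx.mk (St.mk (I.pos (nat_lit 129761280) (nat_lit 167985152)) (I.neg (nat_lit 15335424) (nat_lit 52117504)) (I.mix (nat_lit 29196288) (nat_lit 4866048)) (I.pos (nat_lit 100433920) (nat_lit 138739712)) (I.mix (nat_lit 67108864) (nat_lit 52215808)) (I.mix (nat_lit 39583744) (nat_lit 48349184)) (I.mix (nat_lit 36618240) (nat_lit 48218112)))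
  false (nat_lit 30790080)
def b5_14 : Bx := Bx.mk (St.mk (I.pos (nat_lit 5865472) (nat_lit 97599488)) (I.neg (nat_lit 950272) (nat_lit 22970368)) (I.mix (nat_lit 2981888) (nat_lit 9420800)) (I.pos (nat_lit 17006592) (nat_lit 70451200)) (I.mix (nat_lit 22773760) (nat_lit 32374784)) (I.mix (nat_lit 18415616) (nat_lit 23363584)) (I.mix (nat_lit 9453568) (nat_lit 14483456)))
  false (nat_lit 31029756)
def b5_15 : Bx := Bx.mk (St.mk (I.pos (nat_lit 158531584) (nat_lit 201998336)) (I.mix (nat_lit 22511616) (nat_lit 18153472)) (I.pos (nat_lit 11829248) (nat_lit 68370432)) (I.pos (nat_lit 112410624) (nat_lit 179421184)) (I.mix (nat_lit 118210560) (nat_lit 73646080)) (I.mix (nat_lit 110329856) (nat_lit 69795840)) (I.mix (nat_lit 120471552) (nat_lit 54444032)))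
  false (nat_lit 79035697)
def b5_16 : Bx := Bx.mk (St.mk (I.mix (nat_lit 27508736) (nat_lit 108691456)) (I.mix (nat_lit 4734976) (nat_lit 16105472)) (I.pos (nat_lit 1228800) (nat_lit 27688960)) (I.pos (nat_lit 15695872) (nat_lit 78741504)) (I.mix (nat_lit 54034432) (nat_lit 25870336)) (I.mix (nat_lit 46628864) (nat_lit 24051712)) (I.mix (nat_lit 31293440) (nat_lit 12402688)))
  false (nat_lit 16746926)
def b5_17 : Bx := Bx.mk (St.mk (I.mix (nat_lit 22937600) (nat_lit 97304576)) (I.mix (nat_lit 13959168) (nat_lit 2310144)) (I.pos (nat_lit 1638400) (nat_lit 14204928)) (I.pos (nat_lit 17743872) (nat_lit 69910528)) (I.mix (nat_lit 24166400) (nat_lit 16678912)) (I.mix (nat_lit 15368192) (nat_lit 17088512)) (I.mix (nat_lit 10567680) (nat_lit 8454144)))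
  false (nat_lit 0)
def b5_18 : Bx := Bx.mk (St.mk (I.pos (nat_lit 39616512) (nat_lit 115523584)) (I.pos (nat_lit 3047424) (nat_lit 20594688)) (I.pos (nat_lit 5226496) (nat_lit 30048256)) (I.pos (nat_lit 32374784) (nat_lit 80855040)) (I.mix (nat_lit 41549824) (nat_lit 25460736)) (I.mix (nat_lit 28983296) (nat_lit 22003712)) (I.mix (nat_lit 22577152) (nat_lit 13991936)))
  false (nat_lit 0)
def b5_19 : Bx := Bx.mk (St.mk (I.pos (nat_lit 117374976) (nat_lit 157712384)) (I.neg (nat_lit 8208384) (nat_lit 53870592)) (I.mix (nat_lit 30212096) (nat_lit 1736704)) (I.pos (nat_lit 75988992) (nat_lit 131039232)) (I.mix (nat_lit 78069760) (nat_lit 33275904)) (I.mix (nat_lit 38256640) (nat_lit 57147392)) (I.mix (nat_lit 28590080) (nat_lit 40927232)))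
  false (nat_lit 16088836)
def b5_20 : Bx := Bx.mk (St.mk (I.pos (nat_lit 63946752) (nat_lit 98762752)) (I.mix (nat_lit 9175040) (nat_lit 1556480)) (I.pos (nat_lit 2932736) (nat_lit 14368768)) (I.pos (nat_lit 34242560) (nat_lit 71090176)) (I.mix (nat_lit 16924672) (nat_lit 13729792)) (I.mix (nat_lit 10846208) (nat_lit 12304384)) (I.mix (nat_lit 7864320) (nat_lit 6127616)))
  false (nat_lit 0)
def b5_21 : Bx := Bx.mk (St.mk (I.mix (nat_lit 18464768) (nat_lit 94224384)) (I.neg (nat_lit 2490368) (nat_lit 26820608)) (I.mix (nat_lit 5046272) (nat_lit 7913472)) (I.pos (nat_lit 17006592) (nat_lit 68272128)) (I.mix (nat_lit 26869760) (nat_lit 22380544)) (I.mix (nat_lit 18186240) (nat_lit 21266432)) (I.mix (nat_lit 8175616) (nat_lit 9175040)))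
  false (nat_lit 27021122)
def b5_22 : Bx := Bx.mk (St.mk (I.pos (nat_lit 194314240) (nat_lit 234536960)) (I.pos (nat_lit 835584) (nat_lit 22560768)) (I.pos (nat_lit 33456128) (nat_lit 77201408)) (I.pos (nat_lit 171900928) (nat_lit 224886784)) (I.mix (nat_lit 79740928) (nat_lit 35553280)) (I.mix (nat_lit 51904512) (nat_lit 29556736)) (I.mix (nat_lit 81756160) (nat_lit 35930112)))
  false (nat_lit 12797725)
def b5_23 : Bx := Bx.mk (St.mk (I.pos (nat_lit 82247680) (nat_lit 116719616)) (I.pos (nat_lit 753664) (nat_lit 12091392)) (I.pos (nat_lit 7290880) (nat_lit 23625728)) (I.pos (nat_lit 47824896) (nat_lit 82411520)) (I.mix (nat_lit 31096832) (nat_lit 14073856)) (I.mix (nat_lit 20152320) (nat_lit 12599296)) (I.mix (nat_lit 16728064) (nat_lit 8257536)))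
  false (nat_lit 0)
def b5_24 : Bx := Bx.mk (St.mk (I.pos (nat_lit 123387904) (nat_lit 153698304)) (I.neg (nat_lit 3227648) (nat_lit 26099712)) (I.mix (nat_lit 7061504) (nat_lit 13467648)) (I.pos (nat_lit 77021184) (nat_lit 120324096)) (I.mix (nat_lit 30375936) (nat_lit 39419904)) (I.mix (nat_lit 29868032) (nat_lit 29016064)) (I.mix (nat_lit 20758528) (nat_lit 22822912)))
  false (nat_lit 0)
def b5_25 : Bx := Bx.mk (St.mk (I.pos (nat_lit 7602176) (nat_lit 64028672)) (I.neg (nat_lit 655360) (nat_lit 8880128)) (I.pos (nat_lit 1392640) (nat_lit 7995392)) (I.pos (nat_lit 18251776) (nat_lit 50855936)) (I.mix (nat_lit 8863744) (nat_lit 14827520)) (I.mix (nat_lit 7864320) (nat_lit 10174464)) (I.mix (nat_lit 2736128) (nat_lit 3751936)))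
  false (nat_lit 0)
def b5_26 : Bx := Bx.mk (St.mk (I.pos (nat_lit 214761472) (nat_lit 272269312)) (I.mix (nat_lit 14123008) (nat_lit 20922368)) (I.pos (nat_lit 13910016) (nat_lit 80396288)) (I.pos (nat_lit 198344704) (nat_lit 306626560)) (I.mix (nat_lit 51888128) (nat_lit 27787264)) (I.mix (nat_lit 30408704) (nat_lit 26361856)) (I.mix (nat_lit 56180736) (nat_lit 37453824)))
  false (nat_lit 27377259)
def b5_27 : Bx := Bx.mk (St.mk (I.pos (nat_lit 84656128) (nat_lit 126468096)) (I.mix (nat_lit 4423680) (nat_lit 9650176)) (I.pos (nat_lit 4390912) (nat_lit 22708224)) (I.pos (nat_lit 45989888) (nat_lit 94486528)) (I.mix (nat_lit 16859136) (nat_lit 7962624)) (I.mix (nat_lit 8536064) (nat_lit 7077888)) (I.mix (nat_lit 8486912) (nat_lit 4800512)))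
  false (nat_lit 0)
def b5_28 : Bx := Bx.mk (St.mk (I.pos (nat_lit 113131520) (nat_lit 143097856)) (I.mix (nat_lit 15843328) (nat_lit 6914048)) (I.pos (nat_lit 917504) (nat_lit 22872064)) (I.pos (nat_lit 66224128) (nat_lit 108462080)) (I.mix (nat_lit 13664256) (nat_lit 22020096)) (I.mix (nat_lit 11665408) (nat_lit 12386304)) (I.mix (nat_lit 9306112) (nat_lit 8749056)))
  false (nat_lit 0)
def b5_29 : Bx := Bx.mk (St.mk (I.pos (nat_lit 15155200) (nat_lit 83312640)) (I.mix (nat_lit 8142848) (nat_lit 3571712)) (I.pos (nat_lit 1441792) (nat_lit 11206656)) (I.pos (nat_lit 18890752) (nat_lit 60915712)) (I.mix (nat_lit 6111232) (nat_lit 10764288)) (I.mix (nat_lit 5242880) (nat_lit 5685248)) (I.mix (nat_lit 2818048) (nat_lit 2621440)))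
  false (nat_lit 0)
def b5_30 : Bx := Bx.mk (St.mk (I.pos (nat_lit 180813824) (nat_lit 226099200)) (I.pos (nat_lit 10289152) (nat_lit 40157184)) (I.pos (nat_lit 47726592) (nat_lit 103022592)) (I.pos (nat_lit 153092096) (nat_lit 206323712)) (I.mix (nat_lit 94994432) (nat_lit 69386240)) (I.mix (nat_lit 78135296) (nat_lit 59752448)) (I.mix (nat_lit 121733120) (nat_lit 72630272)))
  false (nat_lit 39301682)
def b5_31 : Bx := Bx.mk (St.mk (I.pos (nat_lit 31555584) (nat_lit 114966528)) (I.pos (nat_lit 2228224) (nat_lit 19415040)) (I.pos (nat_lit 3375104) (nat_lit 29163520)) (I.pos (nat_lit 22691840) (nat_lit 80150528)) (I.mix (nat_lit 41172992) (nat_lit 31293440)) (I.mix (nat_lit 33816576) (nat_lit 20201472)) (I.mix (nat_lit 26820608) (nat_lit 12943360)))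
  false (nat_lit 2164955)
def b5_32 : Bx := Bx.mk (St.mk (I.pos (nat_lit 119242752) (nat_lit 155713536)) (I.neg (nat_lit 7159808) (nat_lit 39043072)) (I.mix (nat_lit 18268160) (nat_lit 6537216)) (I.pos (nat_lit 75743232) (nat_lit 123781120)) (I.mix (nat_lit 70647808) (nat_lit 49561600)) (I.mix (nat_lit 39174144) (nat_lit 66043904)) (I.mix (nat_lit 29196288) (nat_lit 49774592)))
  false (nat_lit 17139475)
def b5_33 : Bx := Bx.mk (St.mk (I.mix (nat_lit 7127040) (nat_lit 88653824)) (I.neg (nat_lit 1540096) (nat_lit 18644992)) (I.mix (nat_lit 1458176) (nat_lit 6651904)) (I.pos (nat_lit 17367040) (nat_lit 64585728)) (I.mix (nat_lit 27541504) (nat_lit 24969216)) (I.mix (nat_lit 16416768) (nat_lit 26361856)) (I.mix (nat_lit 7503872) (nat_lit 12025856)))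
  false (nat_lit 3048258)
def b5_34 : Bx := Bx.mk (St.mk (I.pos (nat_lit 208420864) (nat_lit 281067520)) (I.mix (nat_lit 7716864) (nat_lit 33308672)) (I.pos (nat_lit 22495232) (nat_lit 100859904)) (I.pos (nat_lit 190611456) (nat_lit 324780032)) (I.mix (nat_lit 62078976) (nat_lit 72974336)) (I.mix (nat_lit 66797568) (nat_lit 45367296)) (I.mix (nat_lit 110084096) (nat_lit 70221824)))
  false (nat_lit 74717260)
def b5_35 : Bx := Bx.mk (St.mk (I.pos (nat_lit 76808192) (nat_lit 128565248)) (I.mix (nat_lit 2883584) (nat_lit 14532608)) (I.pos (nat_lit 4636672) (nat_lit 26738688)) (I.pos (nat_lit 42876928) (nat_lit 96272384)) (I.mix (nat_lit 20971520) (nat_lit 20086784)) (I.mix (nat_lit 17612800) (nat_lit 10371072)) (I.mix (nat_lit 15548416) (nat_lit 7716864)))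
  false (nat_lit 0)
def b5_36 : Bx := Bx.mk (St.mk (I.pos (nat_lit 109543424) (nat_lit 143474688)) (I.mix (nat_lit 21397504) (nat_lit 6258688)) (I.mix (nat_lit 2916352) (nat_lit 21413888)) (I.pos (nat_lit 64634880) (nat_lit 108265472)) (I.mix (nat_lit 27918336) (nat_lit 22986752)) (I.mix (nat_lit 13451264) (nat_lit 24068096)) (I.mix (nat_lit 11436032) (nat_lit 16334848)))
  false (nat_lit 0)
def b5_37 : Bx := Bx.mk (St.mk (I.pos (nat_lit 3375104) (nat_lit 82034688)) (I.mix (nat_lit 10420224) (nat_lit 2211840)) (I.pos (nat_lit 1032192) (nat_lit 10485760)) (I.pos (nat_lit 18022400) (nat_lit 60882944)) (I.mix (nat_lit 11354112) (nat_lit 9486336)) (I.mix (nat_lit 5308416) (nat_lit 10158080)) (I.mix (nat_lit 2965504) (nat_lit 4505600)))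
  false (nat_lit 0)
def b5_38 : Bx := Bx.mk (St.mk (I.pos (nat_lit 251723776) (nat_lit 278495232)) (I.mix (nat_lit 12795904) (nat_lit 11091968)) (I.pos (nat_lit 15466496) (nat_lit 67534848)) (I.pos (nat_lit 255164416) (nat_lit 319586304)) (I.mix (nat_lit 31227904) (nat_lit 25444352)) (I.mix (nat_lit 23412736) (nat_lit 20496384)) (I.mix (nat_lit 43778048) (nat_lit 30343168)))
  false (nat_lit 0)
def b5_39 : Bx := Bx.mk (St.mk (I.pos (nat_lit 125157376) (nat_lit 150536192)) (I.neg (nat_lit 7897088) (nat_lit 26148864)) (I.mix (nat_lit 7553024) (nat_lit 6619136)) (I.pos (nat_lit 79380480) (nat_lit 119193600)) (I.mix (nat_lit 23756800) (nat_lit 21987328)) (I.mix (nat_lit 18071552) (nat_lit 18743296)) (I.mix (nat_lit 13123584) (nat_lit 14417920)))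
  false (nat_lit 0)
def b5_40 : Bx := Bx.mk (St.mk (I.pos (nat_lit 205258752) (nat_lit 280117248)) (I.mix (nat_lit 5144576) (nat_lit 30818304)) (I.pos (nat_lit 26574848) (nat_lit 94191616)) (I.pos (nat_lit 185024512) (nat_lit 323436544)) (I.mix (nat_lit 61571072) (nat_lit 53608448)) (I.mix (nat_lit 46940160) (nat_lit 43745280)) (I.mix (nat_lit 81821696) (nat_lit 65994752)))
  false (nat_lit 46878496)
def b5_41 : Bx := Bx.mk (St.mk (I.pos (nat_lit 88604672) (nat_lit 127287296)) (I.mix (nat_lit 1900544) (nat_lit 14860288)) (I.pos (nat_lit 5226496) (nat_lit 27475968)) (I.pos (nat_lit 47431680) (nat_lit 95272960)) (I.mix (nat_lit 17727488) (nat_lit 14581760)) (I.mix (nat_lit 12238848) (nat_lit 10403840)) (I.mix (nat_lit 10993664) (nat_lit 7651328)))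
  false (nat_lit 0)
def b5_42 : Bx := Bx.mk (St.mk (I.pos (nat_lit 110804992) (nat_lit 144277504)) (I.mix (nat_lit 20955136) (nat_lit 4898816)) (I.mix (nat_lit 3194880) (nat_lit 20250624)) (I.pos (nat_lit 65290240) (nat_lit 109740032)) (I.mix (nat_lit 21413888) (nat_lit 20578304)) (I.mix (nat_lit 13746176) (nat_lit 17711104)) (I.mix (nat_lit 11517952) (nat_lit 11599872)))
  false (nat_lit 0)
def b5_43 : Bx := Bx.mk (St.mk (I.pos (nat_lit 1507328) (nat_lit 82837504)) (I.mix (nat_lit 10813440) (nat_lit 1523712)) (I.pos (nat_lit 1048576) (nat_lit 10125312)) (I.pos (nat_lit 17989632) (nat_lit 60735488)) (I.mix (nat_lit 6373376) (nat_lit 7340032)) (I.mix (nat_lit 3686400) (nat_lit 4702208)) (I.mix (nat_lit 2162688) (nat_lit 1982464)))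
  false (nat_lit 0)
def b5_44 : Bx := Bx.mk (St.mk (I.pos (nat_lit 195362816) (nat_lit 238600192)) (I.pos (nat_lit 704512) (nat_lit 27148288)) (I.pos (nat_lit 32718848) (nat_lit 86409216)) (I.pos (nat_lit 173572096) (nat_lit 231096320)) (I.mix (nat_lit 73809920) (nat_lit 43810816)) (I.mix (nat_lit 50839552) (nat_lit 36880384)) (I.mix (nat_lit 80642048) (nat_lit 49709056)))
  false (nat_lit 21083697)
def b5_45 : Bx := Bx.mk (St.mk (I.pos (nat_lit 83263488) (nat_lit 117063680)) (I.pos (nat_lit 950272) (nat_lit 11730944)) (I.pos (nat_lit 7421952) (nat_lit 23347200)) (I.pos (nat_lit 48300032) (nat_lit 82821120)) (I.mix (nat_lit 27557888) (nat_lit 16973824)) (I.mix (nat_lit 19808256) (nat_lit 14843904)) (I.mix (nat_lit 16449536) (nat_lit 10436608)))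
  false (nat_lit 0)
def b5_46 : Bx := Bx.mk (St.mk (I.pos (nat_lit 122552320) (nat_lit 152207360)) (I.neg (nat_lit 3506176) (nat_lit 24526848)) (I.mix (nat_lit 4849664) (nat_lit 12861440)) (I.pos (nat_lit 76038144) (nat_lit 118734848)) (I.mix (nat_lit 32735232) (nat_lit 32686080)) (I.mix (nat_lit 28262400) (nat_lit 28475392)) (I.mix (nat_lit 21348352) (nat_lit 22151168)))
  false (nat_lit 0)
def b5_47 : Bx := Bx.mk (St.mk (I.pos (nat_lit 242171904) (nat_lit 274169856)) (I.mix (nat_lit 15613952) (nat_lit 19054592)) (I.pos (nat_lit 11943936) (nat_lit 83902464)) (I.pos (nat_lit 240615424) (nat_lit 310607872)) (I.mix (nat_lit 43876352) (nat_lit 31817728)) (I.mix (nat_lit 30621696) (nat_lit 24690688)) (I.mix (nat_lit 56688640) (nat_lit 35422208)))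
  false (nat_lit 26125564)
def b5_48 : Bx := Bx.mk (St.mk (I.pos (nat_lit 88178688) (nat_lit 127827968)) (I.mix (nat_lit 4407296) (nat_lit 4915200)) (I.pos (nat_lit 4259840) (nat_lit 16957440)) (I.pos (nat_lit 47529984) (nat_lit 95666176)) (I.mix (nat_lit 11239424) (nat_lit 8224768)) (I.mix (nat_lit 7602176) (nat_lit 6078464)) (I.mix (nat_lit 7225344) (nat_lit 4358144)))
  false (nat_lit 0)
def b5_49 : Bx := Bx.mk (St.mk (I.pos (nat_lit 112443392) (nat_lit 142622720)) (I.mix (nat_lit 15368192) (nat_lit 7471104)) (I.pos (nat_lit 1163264) (nat_lit 23412736)) (I.pos (nat_lit 65830912) (nat_lit 108019712)) (I.mix (nat_lit 15155200) (nat_lit 19677184)) (I.mix (nat_lit 10518528) (nat_lit 12713984)) (I.mix (nat_lit 8765440) (nat_lit 8978432)))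
  false (nat_lit 0)
def b5_50 : Bx := Bx.mk (St.mk (I.mix (nat_lit 294912) (nat_lit 82329600)) (I.mix (nat_lit 7847936) (nat_lit 3801088)) (I.pos (nat_lit 1507328) (nat_lit 11370496)) (I.pos (nat_lit 17416192) (nat_lit 60391424)) (I.mix (nat_lit 6897664) (nat_lit 9666560)) (I.mix (nat_lit 4816896) (nat_lit 5881856)) (I.mix (nat_lit 2719744) (nat_lit 2686976)))
  false (nat_lit 0)
def b5_51 : Bx := Bx.mk (St.mk (I.pos (nat_lit 90423296) (nat_lit 129236992)) (I.mix (nat_lit 3801088) (nat_lit 2457600)) (I.pos (nat_lit 4341760) (nat_lit 17088512)) (I.pos (nat_lit 48611328) (nat_lit 96960512)) (I.mix (nat_lit 6275072) (nat_lit 5619712)) (I.mix (nat_lit 4325376) (nat_lit 3932160)) (I.mix (nat_lit 4390912) (nat_lit 2752512)))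
  false (nat_lit 0)
def b5_52 : Bx := Bx.mk (St.mk (I.pos (nat_lit 111001600) (nat_lit 143474688)) (I.mix (nat_lit 17694720) (nat_lit 6930432)) (I.pos (nat_lit 0) (nat_lit 22495232)) (I.pos (nat_lit 65044480) (nat_lit 108658688)) (I.mix (nat_lit 12632064) (nat_lit 15138816)) (I.mix (nat_lit 7700480) (nat_lit 10125312)) (I.mix (nat_lit 7028736) (nat_lit 6569984)))
  false (nat_lit 0)
def b5_53 : Bx := Bx.mk (St.mk (I.pos (nat_lit 3358720) (nat_lit 86392832)) (I.mix (nat_lit 8994816) (nat_lit 3571712)) (I.pos (nat_lit 1507328) (nat_lit 11288576)) (I.pos (nat_lit 18006016) (nat_lit 61931520)) (I.mix (nat_lit 4980736) (nat_lit 6455296)) (I.mix (nat_lit 2850816) (nat_lit 3866624)) (I.mix (nat_lit 1933312) (nat_lit 1605632)))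
  false (nat_lit 0)
def b5_54 : Bx := Bx.mk (St.mk (I.pos (nat_lit 7225344) (nat_lit 38486016)) (I.neg (nat_lit 524288) (nat_lit 6602752)) (I.pos (nat_lit 1474560) (nat_lit 6619136)) (I.pos (nat_lit 18219008) (nat_lit 41336832)) (I.mix (nat_lit 4767744) (nat_lit 7471104)) (I.mix (nat_lit 3309568) (nat_lit 4915200)) (I.mix (nat_lit 1228800) (nat_lit 1392640)))
  false (nat_lit 0)
def t5 : BTr := (BTr.n (BTr.n (BTr.n (BTr.n (BTr.n (BTr.b b5_0) (BTr.n (BTr.b b5_1) (BTr.b b5_2))) (BTr.n (BTr.b b5_3) (BTr.n (BTr.b b5_4) (BTr.b b5_5)))) (BTr.n (BTr.n (BTr.b b5_6) (BTr.n (BTr.b b5_7) (BTr.b b5_8))) (BTr.n (BTr.n (BTr.b b5_9) (BTr.b b5_10)) (BTr.n (BTr.b b5_11) (BTr.b b5_12))))) (BTr.n (BTr.n (BTr.n (BTr.b b5_13) (BTr.n (BTr.b b5_14) (BTr.b b5_15))) (BTr.n (BTr.n (BTr.b b5_16) (BTr.b b5_17)) (BTr.n (BTr.b b5_18) (BTr.b b5_19)))) (BTr.n (BTr.n (BTr.b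 b5_20) (BTr.n (BTr.b b5_21) (BTr.b b5_22))) (BTr.n (BTr.n (BTr.b b5_23) (BTr.b b5_24)) (BTr.n (BTr.b b5_25) (BTr.b b5_26)))))) (BTr.n (BTr.n (BTr.n (BTr.n (BTr.b b5_27) (BTr.n (BTr.b b5_28) (BTr.b b5_29))) (BTr.n (BTr.n (BTr.b b5_30) (BTr.b b5_31)) (BTr.n (BTr.b b5_32) (BTr.b b5_33)))) (BTr.n (BTr.n (BTr.b b5_34) (BTr.n (BTr.b b5_35) (BTr.b b5_36))) (BTr.n (BTr.n (BTr.b b5_37) (BTr.b b5_38)) (BTr.n (BTr.b b5_39) (BTr.b b5_40))))) (BTr.n (BTr.n (BTr.n (BTr.b b5_41) (BTr.n (BTr.b b5_42) (BTr.b b5_43))) (BTr.n (BTr.n (BTr.b b5_44) (BTr.b b5_45)) (BTr.n (BTr.b b5_46) (BTr.b b5_47)))) (BTr.n (BTr.n (BTr.b b5_48) (BTr.n (BTr.b b5_49) (BTr.b b5_50))) (BTr.n (BTr.n (BTr.b b5_51) (BTr.b b5_52)) (BTr.n (BTr.b b5_53) (BTr.b b5_54)))))))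
namespace T5
def l0 : Tr := Tr.L (Pth.l (Pth.l (Pth.l (Pth.l (Pth.l Pth.z)))))
def l1 : Tr := Tr.L (Pth.l (Pth.l (Pth.l (Pth.l (Pth.r (Pth.l Pth.z))))))
def l2 : Tr := Tr.L (Pth.l (Pth.l (Pth.l (Pth.l (Pth.r (Pth.r Pth.z))))))
def l3 : Tr := Tr.L (Pth.l (Pth.l (Pth.l (Pth.r (Pth.l Pth.z)))))
def l4 : Tr := Tr.L (Pth.l (Pth.l (Pth.l (Pth.r (Pth.r (Pth.l Pth.z))))))
def l5 : Tr := Tr.L (Pth.l (Pth.l (Pth.l (Pth.r (Pth.r (Pth.r Pth.z))))))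
def l6 : Tr := Tr.L (Pth.l (Pth.l (Pth.r (Pth.l (Pth.l Pth.z)))))
def l7 : Tr := Tr.L (Pth.l (Pth.l (Pth.r (Pth.l (Pth.r (Pth.l Pth.z))))))
def l8 : Tr := Tr.L (Pth.l (Pth.l (Pth.r (Pth.l (Pth.r (Pth.r Pth.z))))))
def l9 : Tr := Tr.L (Pth.l (Pth.l (Pth.r (Pth.r (Pth.l (Pth.l Pth.z))))))
def l10 : Tr := Tr.L (Pth.l (Pth.l (Pth.r (Pth.r (Pth.l (Pth.r Pth.z))))))
def l11 : Tr := Tr.L (Pth.l (Pth.l (Pth.r (Pth.r (Pth.r (Pth.l Pth.z))))))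
def l12 : Tr := Tr.L (Pth.l (Pth.l (Pth.r (Pth.r (Pth.r (Pth.r Pth.z))))))
def l13 : Tr := Tr.L (Pth.l (Pth.r (Pth.l (Pth.l (Pth.l Pth.z)))))
def l14 : Tr := Tr.L (Pth.l (Pth.r (Pth.l (Pth.l (Pth.r (Pth.l Pth.z))))))
def l15 : Tr := Tr.L (Pth.l (Pth.r (Pth.l (Pth.l (Pth.r (Pth.r Pth.z))))))
def l16 : Tr := Tr.L (Pth.l (Pth.r (Pth.l (Pth.r (Pth.l (Pth.l Pth.z))))))
def l17 : Tr := Tr.L (Pth.l (Pth.r (Pth.l (Pth.r (Pth.l (Pth.r Pth.z))))))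
def l18 : Tr := Tr.L (Pth.l (Pth.r (Pth.l (Pth.r (Pth.r (Pth.l Pth.z))))))
def l19 : Tr := Tr.L (Pth.l (Pth.r (Pth.l (Pth.r (Pth.r (Pth.r Pth.z))))))
def l20 : Tr := Tr.L (Pth.l (Pth.r (Pth.r (Pth.l (Pth.l Pth.z)))))
def l21 : Tr := Tr.L (Pth.l (Pth.r (Pth.r (Pth.l (Pth.r (Pth.l Pth.z))))))
def l22 : Tr := Tr.L (Pth.l (Pth.r (Pth.r (Pth.l (Pth.r (Pth.r Pth.z))))))
def l23 : Tr := Tr.L (Pth.l (Pth.r (Pth.r (Pth.r (Pth.l (Pth.l Pth.z))))))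
def l24 : Tr := Tr.L (Pth.l (Pth.r (Pth.r (Pth.r (Pth.l (Pth.r Pth.z))))))
def l25 : Tr := Tr.L (Pth.l (Pth.r (Pth.r (Pth.r (Pth.r (Pth.l Pth.z))))))
def l26 : Tr := Tr.L (Pth.l (Pth.r (Pth.r (Pth.r (Pth.r (Pth.r Pth.z))))))
def l27 : Tr := Tr.L (Pth.r (Pth.l (Pth.l (Pth.l (Pth.l Pth.z)))))
def l28 : Tr := Tr.L (Pth.r (Pth.l (Pth.l (Pth.l (Pth.r (Pth.l Pth.z))))))
def l29 : Tr := Tr.L (Pth.r (Pth.l (Pth.l (Pth.l (Pth.r (Pth.r Pth.z))))))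
def l30 : Tr := Tr.L (Pth.r (Pth.l (Pth.l (Pth.r (Pth.l (Pth.l Pth.z))))))
def l31 : Tr := Tr.L (Pth.r (Pth.l (Pth.l (Pth.r (Pth.l (Pth.r Pth.z))))))
def l32 : Tr := Tr.L (Pth.r (Pth.l (Pth.l (Pth.r (Pth.r (Pth.l Pth.z))))))
def l33 : Tr := Tr.L (Pth.r (Pth.l (Pth.l (Pth.r (Pth.r (Pth.r Pth.z))))))
def l34 : Tr := Tr.L (Pth.r (Pth.l (Pth.r (Pth.l (Pth.l Pth.z)))))
def l35 : Tr := Tr.L (Pth.r (Pth.l (Pth.r (Pth.l (Pth.r (Pth.l Pth.z))))))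
def l36 : Tr := Tr.L (Pth.r (Pth.l (Pth.r (Pth.l (Pth.r (Pth.r Pth.z))))))
def l37 : Tr := Tr.L (Pth.r (Pth.l (Pth.r (Pth.r (Pth.l (Pth.l Pth.z))))))
def l38 : Tr := Tr.L (Pth.r (Pth.l (Pth.r (Pth.r (Pth.l (Pth.r Pth.z))))))
def l39 : Tr := Tr.L (Pth.r (Pth.l (Pth.r (Pth.r (Pth.r (Pth.l Pth.z))))))
def l40 : Tr := Tr.L (Pth.r (Pth.l (Pth.r (Pth.r (Pth.r (Pth.r Pth.z))))))
def l41 : Tr := Tr.L (Pth.r (Pth.r (Pth.l (Pth.l (Pth.l Pth.z)))))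
def l42 : Tr := Tr.L (Pth.r (Pth.r (Pth.l (Pth.l (Pth.r (Pth.l Pth.z))))))
def l43 : Tr := Tr.L (Pth.r (Pth.r (Pth.l (Pth.l (Pth.r (Pth.r Pth.z))))))
def l44 : Tr := Tr.L (Pth.r (Pth.r (Pth.l (Pth.r (Pth.l (Pth.l Pth.z))))))
def l45 : Tr := Tr.L (Pth.r (Pth.r (Pth.l (Pth.r (Pth.l (Pth.r Pth.z))))))
def l46 : Tr := Tr.L (Pth.r (Pth.r (Pth.l (Pth.r (Pth.r (Pth.l Pth.z))))))
def l47 : Tr := Tr.L (Pth.r (Pth.r (Pth.l (Pth.r (Pth.r (Pth.r Pth.z))))))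
def l48 : Tr := Tr.L (Pth.r (Pth.r (Pth.r (Pth.l (Pth.l Pth.z)))))
def l49 : Tr := Tr.L (Pth.r (Pth.r (Pth.r (Pth.l (Pth.r (Pth.l Pth.z))))))
def l50 : Tr := Tr.L (Pth.r (Pth.r (Pth.r (Pth.l (Pth.r (Pth.r Pth.z))))))
def l51 : Tr := Tr.L (Pth.r (Pth.r (Pth.r (Pth.r (Pth.l (Pth.l Pth.z))))))
def l52 : Tr := Tr.L (Pth.r (Pth.r (Pth.r (Pth.r (Pth.l (Pth.r Pth.z))))))
def l53 : Tr := Tr.L (Pth.r (Pth.r (Pth.r (Pth.r (Pth.r (Pth.l Pth.z))))))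
def l54 : Tr := Tr.L (Pth.r (Pth.r (Pth.r (Pth.r (Pth.r (Pth.r Pth.z))))))
end T5
theorem bx0_0 : BoxOK sI cl4 cl9 cl13 t2 t4 b0_0 :=
  box_mk (TrL.c (I.pos (nat_lit 0) (nat_lit 0)) (xa (xb (xa T2.l54 T2.l0) (xa (xb (xa T2.l0 T2.l0) (xa (xb T2.l0 T2.l0) (xb T2.l0 T2.l0))) (xb T2.l0 (xa T2.l0 (xb T2.l0 T2.l0))))) (xb (xa T2.l0 (xb T2.l0 T2.l0)) (xa (xb T2.l0 (xa (xb T2.l0 (xs T2.l0 T2.l0)) (xs T2.l0 (xb T2.l0 T2.l0)))) (xb (xa T2.l0 T2.l0) (xa (xs (xb T2.l0 T2.l0) (xb T2.l0 (xd T2.l0 T2.l0))) (xs (xb T2.l0 T2.l0) (xb T2.l0 (xd T2.l0 T2.l0))))))))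
  (TrL.c (I.pos (nat_lit 0) (nat_lit 0)) (xa (xb T4.l55 (xa T4.l1 T4.l1)) (xb T4.l1 (xa T4.l1 (xb T4.l1 T4.l1))))
  (TrL.c (I.pos (nat_lit 0) (nat_lit 0)) (xa T2.l1 T2.l1)
  (TrL.c (I.pos (nat_lit 0) (nat_lit 0)) (xa (xb T4.l56 (xa T4.l2 T4.l2)) (xb T4.l2 (xa T4.l2 (xb T4.l2 (xa T4.l2 T4.l2)))))
  (TrL.c (I.pos (nat_lit 0) (nat_lit 0)) (xa T2.l2 T2.l2)
  (TrL.c (I.pos (nat_lit 0) (nat_lit 0)) (xa (xb T4.l57 (xa T4.l3 T4.l3)) (xb T4.l3 (xa T4.l3 (xb T4.l3 T4.l3))))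
  TrL.n)))))) (by decide +kernel)
theorem bx0_1 : BoxOK sI cl4 cl9 cl13 t2 t4 b0_1 :=
  box_mk (TrL.c (I.pos (nat_lit 0) (nat_lit 0)) (xa (xa (xa T2.l6 T2.l6) T2.l26) (xa T2.l6 (xa T2.l6 T2.l6)))
  (TrL.c (I.pos (nat_lit 0) (nat_lit 0)) (xa T4.l25 T4.l6)
  (TrL.c (I.pos (nat_lit 0) (nat_lit 0)) (xa T2.l7 T2.l27)
  (TrL.c (I.pos (nat_lit 0) (nat_lit 0)) (xa T4.l7 T4.l26)
  (TrL.c (I.pos (nat_lit 0) (nat_lit 0)) (xa T2.l8 T2.l28)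
  (TrL.c (I.pos (nat_lit 0) (nat_lit 0)) (xa T4.l27 T4.l8)
  TrL.n)))))) (by decide +kernel)
theorem bx0_2 : BoxOK sI cl4 cl9 cl13 t2 t4 b0_2 :=
  box_mk (TrL.c (I.pos (nat_lit 0) (nat_lit 0)) (xb (xa T2.l9 T2.l9) (xa T2.l9 T2.l9))
  (TrL.c (I.pos (nat_lit 0) (nat_lit 0)) T4.l9
  (TrL.c (I.pos (nat_lit 0) (nat_lit 0)) T2.l10
  (TrL.c (I.pos (nat_lit 0) (nat_lit 0)) T4.l10
  (TrL.c (I.pos (nat_lit 0) (nat_lit 0)) T2.l11
  (TrL.c (I.pos (nat_lit 0) (nat_lit 0)) T4.l11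
  TrL.n)))))) (by decide +kernel)
theorem bx0_3 : BoxOK sI cl4 cl9 cl13 t2 t4 b0_3 :=
  box_mk (TrL.c (I.pos (nat_lit 0) (nat_lit 0)) (xa (xa T2.l12 T2.l6) T2.l6)
  (TrL.c (I.pos (nat_lit 0) (nat_lit 0)) (xa T4.l12 T4.l6)
  (TrL.c (I.pos (nat_lit 0) (nat_lit 0)) T2.l13
  (TrL.c (I.pos (nat_lit 0) (nat_lit 0)) (xa T4.l13 T4.l7)
  (TrL.c (I.pos (nat_lit 0) (nat_lit 0)) T2.l14
  (TrL.c (I.pos (nat_lit 0) (nat_lit 0)) (xa T4.l14 T4.l8)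
  TrL.n)))))) (by decide +kernel)
theorem bx0_4 : BoxOK sI cl4 cl9 cl13 t2 t4 b0_4 :=
  box_mk (TrL.c (I.pos (nat_lit 0) (nat_lit 0)) T2.l6
  (TrL.c (I.pos (nat_lit 0) (nat_lit 0)) T4.l6
  (TrL.c (I.pos (nat_lit 0) (nat_lit 0)) T2.l7
  (TrL.c (I.pos (nat_lit 0) (nat_lit 0)) T4.l7
  (TrL.c (I.pos (nat_lit 0) (nat_lit 0)) T2.l8
  (TrL.c (I.pos (nat_lit 0) (nat_lit 0)) T4.l8
  TrL.n)))))) (by decide +kernel)
theorem bx0_5 : BoxOK sI cl4 cl9 cl13 t2 t4 b0_5 :=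
  box_mk (TrL.c (I.pos (nat_lit 0) (nat_lit 0)) T2.l26
  (TrL.c (I.pos (nat_lit 0) (nat_lit 0)) T4.l18
  (TrL.c (I.pos (nat_lit 0) (nat_lit 0)) T2.l13
  (TrL.c (I.pos (nat_lit 0) (nat_lit 0)) T4.l19
  (TrL.c (I.pos (nat_lit 0) (nat_lit 0)) T2.l14
  (TrL.c (I.pos (nat_lit 0) (nat_lit 0)) T4.l20
  TrL.n)))))) (by decide +kernel)
theorem bx0_6 : BoxOK sI cl4 cl9 cl13 t2 t4 b0_6 :=
  box_mk (TrL.c (I.pos (nat_lit 0) (nat_lit 0)) (xa (xb (xa T2.l0 T2.l0) (xa T2.l0 T2.l0)) (xb T2.l4 (xa T2.l0 T2.l4)))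
  (TrL.c (I.pos (nat_lit 0) (nat_lit 0)) (xa T4.l1 (xb T4.l1 T4.l1))
  (TrL.c (I.pos (nat_lit 0) (nat_lit 0)) T2.l5
  (TrL.c (I.pos (nat_lit 0) (nat_lit 0)) (xa (xb T4.l2 T4.l2) (xb (xa T4.l2 T4.l2) (xa T4.l2 T4.l2)))
  (TrL.c (I.pos (nat_lit 0) (nat_lit 0)) T2.l3
  (TrL.c (I.pos (nat_lit 0) (nat_lit 0)) (xa T4.l3 (xb T4.l3 T4.l3))
  TrL.n)))))) (by decide +kernel)
theorem bx0_7 : BoxOK sI cl4 cl9 cl13 t2 t4 b0_7 :=
  box_mk (TrL.c (I.pos (nat_lit 0) (nat_lit 0)) (xa T2.l6 (xa T2.l6 T2.l6))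
  (TrL.c (I.pos (nat_lit 0) (nat_lit 0)) (xa T4.l6 T4.l6)
  (TrL.c (I.pos (nat_lit 0) (nat_lit 0)) (xa T2.l7 T2.l7)
  (TrL.c (I.pos (nat_lit 0) (nat_lit 0)) (xa T4.l13 T4.l7)
  (TrL.c (I.pos (nat_lit 0) (nat_lit 0)) (xa T2.l8 T2.l8)
  (TrL.c (I.pos (nat_lit 0) (nat_lit 0)) (xa T4.l8 T4.l8)
  TrL.n)))))) (by decide +kernel)
theorem bx0_8 : BoxOK sI cl4 cl9 cl13 t2 t4 b0_8 :=
  box_mk (TrL.c (I.pos (nat_lit 0) (nat_lit 0)) T2.l9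
  (TrL.c (I.pos (nat_lit 0) (nat_lit 0)) T4.l9
  (TrL.c (I.pos (nat_lit 0) (nat_lit 0)) T2.l10
  (TrL.c (I.pos (nat_lit 0) (nat_lit 0)) T4.l10
  (TrL.c (I.pos (nat_lit 0) (nat_lit 0)) T2.l11
  (TrL.c (I.pos (nat_lit 0) (nat_lit 0)) T4.l11
  TrL.n)))))) (by decide +kernel)
theorem bx0_9 : BoxOK sI cl4 cl9 cl13 t2 t4 b0_9 :=
  box_mk (TrL.c (I.pos (nat_lit 0) (nat_lit 0)) T2.l26
  (TrL.c (I.pos (nat_lit 0) (nat_lit 0)) T4.l12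
  (TrL.c (I.pos (nat_lit 0) (nat_lit 0)) T2.l13
  (TrL.c (I.pos (nat_lit 0) (nat_lit 0)) T4.l13
  (TrL.c (I.pos (nat_lit 0) (nat_lit 0)) T2.l14
  (TrL.c (I.pos (nat_lit 0) (nat_lit 0)) T4.l14
  TrL.n)))))) (by decide +kernel)
theorem bx0_10 : BoxOK sI cl4 cl9 cl13 t2 t4 b0_10 :=
  box_mk (TrL.c (I.pos (nat_lit 0) (nat_lit 0)) (xa (xb (xa T2.l0 T2.l0) (xa T2.l0 T2.l0)) (xb (xa T2.l0 T2.l0) (xa T2.l0 T2.l0)))
  (TrL.c (I.pos (nat_lit 0) (nat_lit 0)) (xa T4.l1 (xb T4.l1 T4.l1))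
  (TrL.c (I.pos (nat_lit 0) (nat_lit 0)) T2.l1
  (TrL.c (I.pos (nat_lit 0) (nat_lit 0)) (xb (xa T4.l2 T4.l2) T4.l2)
  (TrL.c (I.pos (nat_lit 0) (nat_lit 0)) T2.l2
  (TrL.c (I.pos (nat_lit 0) (nat_lit 0)) (xa T4.l3 (xb T4.l3 T4.l3))
  TrL.n)))))) (by decide +kernel)
theorem bx0_11 : BoxOK sI cl4 cl9 cl13 t2 t4 b0_11 :=
  box_mk (TrL.c (I.pos (nat_lit 0) (nat_lit 0)) (xa T2.l6 (xa T2.l6 T2.l6))
  (TrL.c (I.pos (nat_lit 0) (nat_lit 0)) (xa T4.l12 T4.l6)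
  (TrL.c (I.pos (nat_lit 0) (nat_lit 0)) (xa T2.l7 T2.l7)
  (TrL.c (I.pos (nat_lit 0) (nat_lit 0)) (xa T4.l13 T4.l7)
  (TrL.c (I.pos (nat_lit 0) (nat_lit 0)) (xa T2.l8 T2.l8)
  (TrL.c (I.pos (nat_lit 0) (nat_lit 0)) (xa T4.l14 T4.l8)
  TrL.n)))))) (by decide +kernel)
theorem bx0_12 : BoxOK sI cl4 cl9 cl13 t2 t4 b0_12 :=
  box_mk (TrL.c (I.pos (nat_lit 0) (nat_lit 0)) T2.l9
  (TrL.c (I.pos (nat_lit 0) (nat_lit 0)) T4.l21
  (TrL.c (I.pos (nat_lit 0) (nat_lit 0)) T2.l10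
  (TrL.c (I.pos (nat_lit 0) (nat_lit 0)) T4.l10
  (TrL.c (I.pos (nat_lit 0) (nat_lit 0)) T2.l11
  (TrL.c (I.pos (nat_lit 0) (nat_lit 0)) T4.l23
  TrL.n)))))) (by decide +kernel)
theorem bx0_13 : BoxOK sI cl4 cl9 cl13 t2 t4 b0_13 :=
  box_mk (TrL.c (I.pos (nat_lit 0) (nat_lit 0)) T2.l26
  (TrL.c (I.pos (nat_lit 0) (nat_lit 0)) T4.l12
  (TrL.c (I.pos (nat_lit 0) (nat_lit 0)) T2.l13
  (TrL.c (I.pos (nat_lit 0) (nat_lit 0)) T4.l13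
  (TrL.c (I.pos (nat_lit 0) (nat_lit 0)) T2.l14
  (TrL.c (I.pos (nat_lit 0) (nat_lit 0)) T4.l14
  TrL.n)))))) (by decide +kernel)
theorem bx0_14 : BoxOK sI cl4 cl9 cl13 t2 t4 b0_14 :=
  box_mk (TrL.c (I.pos (nat_lit 0) (nat_lit 0)) (xa (xb (xa (xb T2.l0 T2.l54) (xb T2.l0 (xs T2.l0 T2.l0))) (xa (xb (xs T2.l0 T2.l54) (xs T2.l0 (xb T2.l0 T2.l0))) (xb (xs T2.l0 (xb T2.l0 T2.l0)) (xs T2.l0 (xb T2.l0 T2.l0))))) (xb (xa (xb T2.l0 (xs T2.l0 T2.l0)) (xb T2.l0 (xs T2.l0 T2.l0))) (xa (xb (xs T2.l0 (xa T2.l0 T2.l0)) (xs T2.l0 (xa T2.l0 T2.l0))) (xb (xs T2.l0 (xa T2.l0 T2.l0)) (xs T2.l0 (xa (xb T2.l0 T2.l0) (xb T2.l0 T2.l0)))))))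
  (TrL.c (I.pos (nat_lit 0) (nat_lit 0)) (xa (xb T4.l1 (xa T4.l1 T4.l1)) (xb (xa T4.l1 T4.l1) (xa T4.l1 T4.l1)))
  (TrL.c (I.pos (nat_lit 0) (nat_lit 0)) T2.l1
  (TrL.c (I.pos (nat_lit 0) (nat_lit 0)) (xa (xb T4.l2 T4.l2) (xb (xa T4.l2 (xb T4.l2 T4.l2)) (xb (xa T4.l2 T4.l2) (xa T4.l2 T4.l2))))
  (TrL.c (I.pos (nat_lit 0) (nat_lit 0)) T2.l2
  (TrL.c (I.pos (nat_lit 0) (nat_lit 0)) (xa (xb T4.l3 (xa T4.l3 T4.l3)) (xb (xa T4.l3 T4.l3) (xa T4.l3 T4.l3)))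
  TrL.n)))))) (by decide +kernel)
theorem bx0_15 : BoxOK sI cl4 cl9 cl13 t2 t4 b0_15 :=
  box_mk (TrL.c (I.pos (nat_lit 0) (nat_lit 0)) (xa (xa (xa T2.l6 T2.l6) T2.l26) (xa T2.l6 T2.l26))
  (TrL.c (I.pos (nat_lit 0) (nat_lit 0)) (xa T4.l6 T4.l6)
  (TrL.c (I.pos (nat_lit 0) (nat_lit 0)) (xa T2.l27 T2.l27)
  (TrL.c (I.pos (nat_lit 0) (nat_lit 0)) (xa T4.l7 T4.l7)
  (TrL.c (I.pos (nat_lit 0) (nat_lit 0)) (xa T2.l28 T2.l28)
  (TrL.c (I.pos (nat_lit 0) (nat_lit 0)) (xa T4.l8 T4.l8)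
  TrL.n)))))) (by decide +kernel)
theorem bx0_16 : BoxOK sI cl4 cl9 cl13 t2 t4 b0_16 :=
  box_mk (TrL.c (I.pos (nat_lit 0) (nat_lit 0)) (xa T2.l9 T2.l9)
  (TrL.c (I.pos (nat_lit 0) (nat_lit 0)) T4.l9
  (TrL.c (I.pos (nat_lit 0) (nat_lit 0)) T2.l10
  (TrL.c (I.pos (nat_lit 0) (nat_lit 0)) T4.l10
  (TrL.c (I.pos (nat_lit 0) (nat_lit 0)) T2.l11
  (TrL.c (I.pos (nat_lit 0) (nat_lit 0)) T4.l11
  TrL.n)))))) (by decide +kernel)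
theorem bx0_17 : BoxOK sI cl4 cl9 cl13 t2 t4 b0_17 :=
  box_mk (TrL.c (I.pos (nat_lit 0) (nat_lit 0)) T2.l6
  (TrL.c (I.pos (nat_lit 0) (nat_lit 0)) T4.l6
  (TrL.c (I.pos (nat_lit 0) (nat_lit 0)) T2.l7
  (TrL.c (I.pos (nat_lit 0) (nat_lit 0)) T4.l7
  (TrL.c (I.pos (nat_lit 0) (nat_lit 0)) T2.l8
  (TrL.c (I.pos (nat_lit 0) (nat_lit 0)) T4.l8
  TrL.n)))))) (by decide +kernel)
theorem bx0_18 : BoxOK sI cl4 cl9 cl13 t2 t4 b0_18 :=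
  box_mk (TrL.c (I.pos (nat_lit 0) (nat_lit 0)) T2.l26
  (TrL.c (I.pos (nat_lit 0) (nat_lit 0)) T4.l7
  (TrL.c (I.pos (nat_lit 0) (nat_lit 0)) T2.l19
  (TrL.c (I.pos (nat_lit 0) (nat_lit 0)) T4.l6
  (TrL.c (I.pos (nat_lit 0) (nat_lit 0)) T2.l20
  (TrL.c (I.pos (nat_lit 0) (nat_lit 0)) T4.l20
  TrL.n)))))) (by decide +kernel)
theorem bx0_19 : BoxOK sI cl4 cl9 cl13 t2 t4 b0_19 :=
  box_mk (TrL.c (I.pos (nat_lit 0) (nat_lit 0)) (xa (xb T2.l21 T2.l9) (xb T2.l21 T2.l21))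
  (TrL.c (I.pos (nat_lit 0) (nat_lit 0)) T4.l21
  (TrL.c (I.pos (nat_lit 0) (nat_lit 0)) T2.l22
  (TrL.c (I.pos (nat_lit 0) (nat_lit 0)) (xa T4.l22 T4.l22)
  (TrL.c (I.pos (nat_lit 0) (nat_lit 0)) T2.l23
  (TrL.c (I.pos (nat_lit 0) (nat_lit 0)) T4.l23
  TrL.n)))))) (by decide +kernel)
theorem bx0_20 : BoxOK sI cl4 cl9 cl13 t2 t4 b0_20 :=
  box_mk (TrL.c (I.pos (nat_lit 0) (nat_lit 0)) (xa (xa T2.l53 T2.l53) (xa T2.l6 T2.l6))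
  (TrL.c (I.pos (nat_lit 0) (nat_lit 0)) (xa T4.l53 T4.l6)
  (TrL.c (I.pos (nat_lit 0) (nat_lit 0)) T2.l24
  (TrL.c (I.pos (nat_lit 0) (nat_lit 0)) (xa T4.l24 T4.l24)
  (TrL.c (I.pos (nat_lit 0) (nat_lit 0)) T2.l25
  (TrL.c (I.pos (nat_lit 0) (nat_lit 0)) (xa T4.l54 T4.l8)
  TrL.n)))))) (by decide +kernel)
theorem bx0_21 : BoxOK sI cl4 cl9 cl13 t2 t4 b0_21 :=
  box_mk (TrL.c (I.pos (nat_lit 0) (nat_lit 0)) (xb (xa (xb T2.l54 (xa T2.l54 T2.l54)) (xb (xa T2.l54 T2.l54) (xa T2.l54 T2.l54))) (xa (xb (xa (xb T2.l54 T2.l54) T2.l54) (xa (xb T2.l54 (xs T2.l54 T2.l54)) (xb T2.l54 (xs T2.l54 T2.l54)))) (xb (xa T2.l54 (xb T2.l54 T2.l54)) (xa (xb T2.l54 (xs T2.l54 T2.l54)) (xb T2.l54 (xs T2.l54 (xa T2.l54 T2.l54)))))))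
  (TrL.c (I.pos (nat_lit 0) (nat_lit 0)) (xb (xa T4.l55 T4.l55) (xa T4.l55 (xb T4.l55 T4.l55)))
  (TrL.c (I.pos (nat_lit 0) (nat_lit 0)) (xb T2.l55 T2.l55)
  (TrL.c (I.pos (nat_lit 0) (nat_lit 0)) (xb T4.l56 (xa (xb T4.l56 T4.l56) (xb T4.l56 T4.l56)))
  (TrL.c (I.pos (nat_lit 0) (nat_lit 0)) (xb T2.l56 T2.l56)
  (TrL.c (I.pos (nat_lit 0) (nat_lit 0)) (xb (xa T4.l57 T4.l57) (xa T4.l57 (xb T4.l57 T4.l57)))
  TrL.n)))))) (by decide +kernel)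
theorem bx0_22 : BoxOK sI cl4 cl9 cl13 t2 t4 b0_22 :=
  box_mk (TrL.c (I.pos (nat_lit 0) (nat_lit 0)) (xa (xa (xb T2.l26 T2.l26) T2.l26) (xa T2.l26 (xa T2.l26 T2.l26)))
  (TrL.c (I.pos (nat_lit 0) (nat_lit 0)) (xa T4.l25 (xa T4.l25 T4.l25))
  (TrL.c (I.pos (nat_lit 0) (nat_lit 0)) (xa T2.l27 T2.l27)
  (TrL.c (I.pos (nat_lit 0) (nat_lit 0)) (xa T4.l26 (xa T4.l26 T4.l26))
  (TrL.c (I.pos (nat_lit 0) (nat_lit 0)) (xa T2.l28 T2.l28)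
  (TrL.c (I.pos (nat_lit 0) (nat_lit 0)) (xa T4.l27 (xa T4.l27 T4.l27))
  TrL.n)))))) (by decide +kernel)
theorem bx0_23 : BoxOK sI cl4 cl9 cl13 t2 t4 b0_23 :=
  box_mk (TrL.c (I.pos (nat_lit 0) (nat_lit 0)) (xa (xa T2.l12 T2.l12) T2.l6)
  (TrL.c (I.pos (nat_lit 0) (nat_lit 0)) (xa T4.l26 T4.l12)
  (TrL.c (I.pos (nat_lit 0) (nat_lit 0)) T2.l13
  (TrL.c (I.pos (nat_lit 0) (nat_lit 0)) (xa T4.l13 T4.l7)
  (TrL.c (I.pos (nat_lit 0) (nat_lit 0)) T2.l14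
  (TrL.c (I.pos (nat_lit 0) (nat_lit 0)) (xa T4.l14 T4.l14)
  TrL.n)))))) (by decide +kernel)
theorem bx0_24 : BoxOK sI cl4 cl9 cl13 t2 t4 b0_24 :=
  box_mk (TrL.c (I.pos (nat_lit 0) (nat_lit 0)) (xa T2.l21 T2.l21)
  (TrL.c (I.pos (nat_lit 0) (nat_lit 0)) T4.l21
  (TrL.c (I.pos (nat_lit 0) (nat_lit 0)) T2.l22
  (TrL.c (I.pos (nat_lit 0) (nat_lit 0)) T4.l22
  (TrL.c (I.pos (nat_lit 0) (nat_lit 0)) T2.l23
  (TrL.c (I.pos (nat_lit 0) (nat_lit 0)) T4.l23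
  TrL.n)))))) (by decide +kernel)
theorem bx0_25 : BoxOK sI cl4 cl9 cl13 t2 t4 b0_25 :=
  box_mk (TrL.c (I.pos (nat_lit 0) (nat_lit 0)) (xa T2.l12 T2.l6)
  (TrL.c (I.pos (nat_lit 0) (nat_lit 0)) (xa T4.l53 T4.l6)
  (TrL.c (I.pos (nat_lit 0) (nat_lit 0)) T2.l24
  (TrL.c (I.pos (nat_lit 0) (nat_lit 0)) (xa T4.l24 T4.l24)
  (TrL.c (I.pos (nat_lit 0) (nat_lit 0)) T2.l25
  (TrL.c (I.pos (nat_lit 0) (nat_lit 0)) (xa T4.l54 T4.l8)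
  TrL.n)))))) (by decide +kernel)
theorem bx0_26 : BoxOK sI cl4 cl9 cl13 t2 t4 b0_26 :=
  box_mk (TrL.c (I.pos (nat_lit 0) (nat_lit 0)) T2.l0
  (TrL.c (I.pos (nat_lit 0) (nat_lit 0)) (xa T4.l55 T4.l55)
  (TrL.c (I.pos (nat_lit 0) (nat_lit 0)) T2.l55
  (TrL.c (I.pos (nat_lit 0) (nat_lit 0)) (xb (xa T4.l56 T4.l56) T4.l56)
  (TrL.c (I.pos (nat_lit 0) (nat_lit 0)) T2.l56
  (TrL.c (I.pos (nat_lit 0) (nat_lit 0)) (xa T4.l57 T4.l57)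
  TrL.n)))))) (by decide +kernel)
theorem bx0_27 : BoxOK sI cl4 cl9 cl13 t2 t4 b0_27 :=
  box_mk (TrL.c (I.pos (nat_lit 0) (nat_lit 0)) (xa (xa T2.l26 T2.l26) (xa T2.l26 T2.l6))
  (TrL.c (I.pos (nat_lit 0) (nat_lit 0)) (xa T4.l25 T4.l6)
  (TrL.c (I.pos (nat_lit 0) (nat_lit 0)) (xa T2.l27 T2.l27)
  (TrL.c (I.pos (nat_lit 0) (nat_lit 0)) (xa T4.l26 T4.l7)
  (TrL.c (I.pos (nat_lit 0) (nat_lit 0)) (xa T2.l28 T2.l28)
  (TrL.c (I.pos (nat_lit 0) (nat_lit 0)) (xa T4.l27 T4.l8)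
  TrL.n)))))) (by decide +kernel)
theorem bx0_28 : BoxOK sI cl4 cl9 cl13 t2 t4 b0_28 :=
  box_mk (TrL.c (I.pos (nat_lit 0) (nat_lit 0)) (xa T2.l21 (xb T2.l21 T2.l21))
  (TrL.c (I.pos (nat_lit 0) (nat_lit 0)) T4.l21
  (TrL.c (I.pos (nat_lit 0) (nat_lit 0)) T2.l22
  (TrL.c (I.pos (nat_lit 0) (nat_lit 0)) T4.l22
  (TrL.c (I.pos (nat_lit 0) (nat_lit 0)) T2.l23
  (TrL.c (I.pos (nat_lit 0) (nat_lit 0)) T4.l23
  TrL.n)))))) (by decide +kernel)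
theorem bx0_29 : BoxOK sI cl4 cl9 cl13 t2 t4 b0_29 :=
  box_mk (TrL.c (I.pos (nat_lit 0) (nat_lit 0)) (xa T2.l12 T2.l6)
  (TrL.c (I.pos (nat_lit 0) (nat_lit 0)) (xa T4.l53 T4.l6)
  (TrL.c (I.pos (nat_lit 0) (nat_lit 0)) T2.l24
  (TrL.c (I.pos (nat_lit 0) (nat_lit 0)) T4.l26
  (TrL.c (I.pos (nat_lit 0) (nat_lit 0)) T2.l25
  (TrL.c (I.pos (nat_lit 0) (nat_lit 0)) (xa T4.l54 T4.l8)
  TrL.n)))))) (by decide +kernel)
theorem bx0_30 : BoxOK sI cl4 cl9 cl13 t2 t4 b0_30 :=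
  box_mk (TrL.c (I.pos (nat_lit 0) (nat_lit 0)) (xa (xb T2.l21 T2.l54) T2.l0)
  (TrL.c (I.pos (nat_lit 0) (nat_lit 0)) (xa T4.l55 T4.l55)
  (TrL.c (I.pos (nat_lit 0) (nat_lit 0)) T2.l55
  (TrL.c (I.pos (nat_lit 0) (nat_lit 0)) (xa T4.l56 T4.l56)
  (TrL.c (I.pos (nat_lit 0) (nat_lit 0)) T2.l56
  (TrL.c (I.pos (nat_lit 0) (nat_lit 0)) (xa T4.l57 T4.l57)
  TrL.n)))))) (by decide +kernel)
theorem bx0_31 : BoxOK sI cl4 cl9 cl13 t2 t4 b0_31 :=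
  box_mk (TrL.c (I.pos (nat_lit 0) (nat_lit 0)) (xa T2.l26 T2.l6)
  (TrL.c (I.pos (nat_lit 0) (nat_lit 0)) (xa T4.l25 T4.l25)
  (TrL.c (I.pos (nat_lit 0) (nat_lit 0)) (xa T2.l27 T2.l27)
  (TrL.c (I.pos (nat_lit 0) (nat_lit 0)) (xa T4.l26 T4.l26)
  (TrL.c (I.pos (nat_lit 0) (nat_lit 0)) (xa T2.l28 T2.l28)
  (TrL.c (I.pos (nat_lit 0) (nat_lit 0)) (xa T4.l27 T4.l27)
  TrL.n)))))) (by decide +kernel)
theorem bx0_32 : BoxOK sI cl4 cl9 cl13 t2 t4 b0_32 :=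
  box_mk (TrL.c (I.pos (nat_lit 0) (nat_lit 0)) (xb (xa T2.l21 T2.l21) (xa T2.l9 T2.l21))
  (TrL.c (I.pos (nat_lit 0) (nat_lit 0)) T4.l21
  (TrL.c (I.pos (nat_lit 0) (nat_lit 0)) T2.l22
  (TrL.c (I.pos (nat_lit 0) (nat_lit 0)) T4.l22
  (TrL.c (I.pos (nat_lit 0) (nat_lit 0)) T2.l23
  (TrL.c (I.pos (nat_lit 0) (nat_lit 0)) T4.l23
  TrL.n)))))) (by decide +kernel)
theorem bx0_33 : BoxOK sI cl4 cl9 cl13 t2 t4 b0_33 :=
  box_mk (TrL.c (I.pos (nat_lit 0) (nat_lit 0)) (xa (xa T2.l53 T2.l53) (xa T2.l6 T2.l6))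
  (TrL.c (I.pos (nat_lit 0) (nat_lit 0)) (xa T4.l53 T4.l6)
  (TrL.c (I.pos (nat_lit 0) (nat_lit 0)) T2.l24
  (TrL.c (I.pos (nat_lit 0) (nat_lit 0)) (xa T4.l24 T4.l24)
  (TrL.c (I.pos (nat_lit 0) (nat_lit 0)) T2.l25
  (TrL.c (I.pos (nat_lit 0) (nat_lit 0)) (xa T4.l54 T4.l8)
  TrL.n)))))) (by decide +kernel)
theorem bx0_34 : BoxOK sI cl4 cl9 cl13 t2 t4 b0_34 :=
  box_mk (TrL.c (I.pos (nat_lit 0) (nat_lit 0)) (xb (xa (xa T2.l54 T2.l54) (xb (xa T2.l54 T2.l54) (xa T2.l54 T2.l54))) (xa (xa (xb T2.l54 T2.l54) (xb T2.l54 T2.l54)) (xa (xb T2.l54 T2.l54) (xb T2.l54 (xa T2.l54 T2.l54)))))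
  (TrL.c (I.pos (nat_lit 0) (nat_lit 0)) (xb (xa T4.l55 T4.l55) (xa T4.l55 T4.l55))
  (TrL.c (I.pos (nat_lit 0) (nat_lit 0)) T2.l55
  (TrL.c (I.pos (nat_lit 0) (nat_lit 0)) (xb (xa T4.l56 T4.l56) T4.l56)
  (TrL.c (I.pos (nat_lit 0) (nat_lit 0)) T2.l56
  (TrL.c (I.pos (nat_lit 0) (nat_lit 0)) (xb (xa T4.l57 T4.l57) (xa T4.l57 T4.l57))
  TrL.n)))))) (by decide +kernel)
theorem bx0_35 : BoxOK sI cl4 cl9 cl13 t2 t4 b0_35 :=
  box_mk (TrL.c (I.pos (nat_lit 0) (nat_lit 0)) (xa (xa T2.l26 T2.l26) (xa T2.l26 T2.l26))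
  (TrL.c (I.pos (nat_lit 0) (nat_lit 0)) (xa T4.l25 T4.l25)
  (TrL.c (I.pos (nat_lit 0) (nat_lit 0)) T2.l27
  (TrL.c (I.pos (nat_lit 0) (nat_lit 0)) (xa T4.l26 T4.l26)
  (TrL.c (I.pos (nat_lit 0) (nat_lit 0)) T2.l28
  (TrL.c (I.pos (nat_lit 0) (nat_lit 0)) (xa T4.l27 T4.l27)
  TrL.n)))))) (by decide +kernel)
theorem bx0_36 : BoxOK sI cl4 cl9 cl13 t2 t4 b0_36 :=
  box_mk (TrL.c (I.pos (nat_lit 0) (nat_lit 0)) (xa T2.l21 (xb (xa T2.l21 T2.l21) (xa T2.l21 T2.l21)))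
  (TrL.c (I.pos (nat_lit 0) (nat_lit 0)) (xa T4.l21 T4.l21)
  (TrL.c (I.pos (nat_lit 0) (nat_lit 0)) T2.l22
  (TrL.c (I.pos (nat_lit 0) (nat_lit 0)) (xa T4.l22 T4.l22)
  (TrL.c (I.pos (nat_lit 0) (nat_lit 0)) T2.l23
  (TrL.c (I.pos (nat_lit 0) (nat_lit 0)) (xa T4.l23 T4.l23)
  TrL.n)))))) (by decide +kernel)
theorem bx0_37 : BoxOK sI cl4 cl9 cl13 t2 t4 b0_37 :=
  box_mk (TrL.c (I.pos (nat_lit 0) (nat_lit 0)) (xa T2.l26 T2.l6)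
  (TrL.c (I.pos (nat_lit 0) (nat_lit 0)) (xa T4.l53 T4.l6)
  (TrL.c (I.pos (nat_lit 0) (nat_lit 0)) T2.l24
  (TrL.c (I.pos (nat_lit 0) (nat_lit 0)) (xa T4.l24 T4.l7)
  (TrL.c (I.pos (nat_lit 0) (nat_lit 0)) T2.l25
  (TrL.c (I.pos (nat_lit 0) (nat_lit 0)) (xa T4.l54 T4.l8)
  TrL.n)))))) (by decide +kernel)
theorem bx0_38 : BoxOK sI cl4 cl9 cl13 t2 t4 b0_38 :=
  box_mk (TrL.c (I.pos (nat_lit 0) (nat_lit 0)) (xa (xb T2.l21 (xa T2.l54 T2.l54)) T2.l0)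
  (TrL.c (I.pos (nat_lit 0) (nat_lit 0)) (xa T4.l55 T4.l55)
  (TrL.c (I.pos (nat_lit 0) (nat_lit 0)) T2.l55
  (TrL.c (I.pos (nat_lit 0) (nat_lit 0)) (xa T4.l56 T4.l56)
  (TrL.c (I.pos (nat_lit 0) (nat_lit 0)) T2.l56
  (TrL.c (I.pos (nat_lit 0) (nat_lit 0)) (xa T4.l57 T4.l57)
  TrL.n)))))) (by decide +kernel)
theorem bx0_39 : BoxOK sI cl4 cl9 cl13 t2 t4 b0_39 :=
  box_mk (TrL.c (I.pos (nat_lit 0) (nat_lit 0)) (xa T2.l26 T2.l6)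
  (TrL.c (I.pos (nat_lit 0) (nat_lit 0)) (xa T4.l25 T4.l25)
  (TrL.c (I.pos (nat_lit 0) (nat_lit 0)) (xa T2.l27 T2.l27)
  (TrL.c (I.pos (nat_lit 0) (nat_lit 0)) (xa T4.l26 T4.l26)
  (TrL.c (I.pos (nat_lit 0) (nat_lit 0)) (xa T2.l28 T2.l28)
  (TrL.c (I.pos (nat_lit 0) (nat_lit 0)) (xa T4.l27 T4.l27)
  TrL.n)))))) (by decide +kernel)
theorem bx0_40 : BoxOK sI cl4 cl9 cl13 t2 t4 b0_40 :=
  box_mk (TrL.c (I.pos (nat_lit 0) (nat_lit 0)) (xa T2.l21 (xb T2.l21 T2.l21))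
  (TrL.c (I.pos (nat_lit 0) (nat_lit 0)) T4.l21
  (TrL.c (I.pos (nat_lit 0) (nat_lit 0)) T2.l22
  (TrL.c (I.pos (nat_lit 0) (nat_lit 0)) T4.l22
  (TrL.c (I.pos (nat_lit 0) (nat_lit 0)) T2.l23
  (TrL.c (I.pos (nat_lit 0) (nat_lit 0)) T4.l23
  TrL.n)))))) (by decide +kernel)
theorem bx0_41 : BoxOK sI cl4 cl9 cl13 t2 t4 b0_41 :=
  box_mk (TrL.c (I.pos (nat_lit 0) (nat_lit 0)) (xa (xb T2.l21 T2.l54) T2.l0)
  (TrL.c (I.pos (nat_lit 0) (nat_lit 0)) (xa T4.l55 T4.l55)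
  (TrL.c (I.pos (nat_lit 0) (nat_lit 0)) T2.l55
  (TrL.c (I.pos (nat_lit 0) (nat_lit 0)) T4.l56
  (TrL.c (I.pos (nat_lit 0) (nat_lit 0)) T2.l56
  (TrL.c (I.pos (nat_lit 0) (nat_lit 0)) (xa T4.l57 T4.l57)
  TrL.n)))))) (by decide +kernel)
theorem bx0_42 : BoxOK sI cl4 cl9 cl13 t2 t4 b0_42 :=
  box_mk (TrL.c (I.pos (nat_lit 0) (nat_lit 0)) T2.l21
  (TrL.c (I.pos (nat_lit 0) (nat_lit 0)) T4.l21
  (TrL.c (I.pos (nat_lit 0) (nat_lit 0)) T2.l22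
  (TrL.c (I.pos (nat_lit 0) (nat_lit 0)) T4.l22
  (TrL.c (I.pos (nat_lit 0) (nat_lit 0)) T2.l23
  (TrL.c (I.pos (nat_lit 0) (nat_lit 0)) T4.l23
  TrL.n)))))) (by decide +kernel)
theorem bx0_43 : BoxOK sI cl4 cl9 cl13 t2 t4 b0_43 :=
  box_mk (TrL.c (I.pos (nat_lit 0) (nat_lit 0)) T2.l54
  (TrL.c (I.pos (nat_lit 0) (nat_lit 0)) T4.l55
  (TrL.c (I.pos (nat_lit 0) (nat_lit 0)) T2.l55
  (TrL.c (I.pos (nat_lit 0) (nat_lit 0)) T4.l56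
  (TrL.c (I.pos (nat_lit 0) (nat_lit 0)) T2.l56
  (TrL.c (I.pos (nat_lit 0) (nat_lit 0)) T4.l57
  TrL.n)))))) (by decide +kernel)
theorem bx0_44 : BoxOK sI cl4 cl9 cl13 t2 t4 b0_44 :=
  box_mk (TrL.c (I.pos (nat_lit 0) (nat_lit 0)) T2.l26
  (TrL.c (I.pos (nat_lit 0) (nat_lit 0)) T4.l25
  (TrL.c (I.pos (nat_lit 0) (nat_lit 0)) T2.l27
  (TrL.c (I.pos (nat_lit 0) (nat_lit 0)) T4.l26
  (TrL.c (I.pos (nat_lit 0) (nat_lit 0)) T2.l28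
  (TrL.c (I.pos (nat_lit 0) (nat_lit 0)) T4.l27
  TrL.n)))))) (by decide +kernel)
theorem bx0_45 : BoxOK sI cl4 cl9 cl13 t2 t4 b0_45 :=
  box_mk (TrL.c (I.pos (nat_lit 0) (nat_lit 0)) T2.l6
  (TrL.c (I.pos (nat_lit 0) (nat_lit 0)) T4.l6
  (TrL.c (I.pos (nat_lit 0) (nat_lit 0)) T2.l24
  (TrL.c (I.pos (nat_lit 0) (nat_lit 0)) T4.l24
  (TrL.c (I.pos (nat_lit 0) (nat_lit 0)) T2.l25
  (TrL.c (I.pos (nat_lit 0) (nat_lit 0)) T4.l8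
  TrL.n)))))) (by decide +kernel)
theorem bx0_46 : BoxOK sI cl4 cl9 cl13 t2 t4 b0_46 :=
  box_mk (TrL.c (I.pos (nat_lit 0) (nat_lit 0)) (xa T2.l26 T2.l26)
  (TrL.c (I.pos (nat_lit 0) (nat_lit 0)) T4.l25
  (TrL.c (I.pos (nat_lit 0) (nat_lit 0)) T2.l27
  (TrL.c (I.pos (nat_lit 0) (nat_lit 0)) T4.l26
  (TrL.c (I.pos (nat_lit 0) (nat_lit 0)) T2.l28
  (TrL.c (I.pos (nat_lit 0) (nat_lit 0)) T4.l27
  TrL.n)))))) (by decide +kernel)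
theorem bx0_47 : BoxOK sI cl4 cl9 cl13 t2 t4 b0_47 :=
  box_mk (TrL.c (I.pos (nat_lit 0) (nat_lit 0)) T2.l21
  (TrL.c (I.pos (nat_lit 0) (nat_lit 0)) T4.l21
  (TrL.c (I.pos (nat_lit 0) (nat_lit 0)) T2.l22
  (TrL.c (I.pos (nat_lit 0) (nat_lit 0)) T4.l22
  (TrL.c (I.pos (nat_lit 0) (nat_lit 0)) T2.l23
  (TrL.c (I.pos (nat_lit 0) (nat_lit 0)) T4.l23
  TrL.n)))))) (by decide +kernel)
theorem bx0_48 : BoxOK sI cl4 cl9 cl13 t2 t4 b0_48 :=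
  box_mk (TrL.c (I.pos (nat_lit 0) (nat_lit 0)) (xa T2.l12 T2.l6)
  (TrL.c (I.pos (nat_lit 0) (nat_lit 0)) (xa T4.l53 T4.l6)
  (TrL.c (I.pos (nat_lit 0) (nat_lit 0)) T2.l24
  (TrL.c (I.pos (nat_lit 0) (nat_lit 0)) (xa T4.l24 T4.l24)
  (TrL.c (I.pos (nat_lit 0) (nat_lit 0)) T2.l25
  (TrL.c (I.pos (nat_lit 0) (nat_lit 0)) (xa T4.l54 T4.l8)
  TrL.n)))))) (by decide +kernel)
theorem bx0_49 : BoxOK sI cl4 cl9 cl13 t2 t4 b0_49 :=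
  box_mk (TrL.c (I.pos (nat_lit 0) (nat_lit 0)) (xb T2.l54 T2.l54)
  (TrL.c (I.pos (nat_lit 0) (nat_lit 0)) (xa T4.l55 T4.l55)
  (TrL.c (I.pos (nat_lit 0) (nat_lit 0)) T2.l55
  (TrL.c (I.pos (nat_lit 0) (nat_lit 0)) (xb (xa T4.l56 T4.l56) T4.l56)
  (TrL.c (I.pos (nat_lit 0) (nat_lit 0)) T2.l56
  (TrL.c (I.pos (nat_lit 0) (nat_lit 0)) (xa T4.l57 T4.l57)
  TrL.n)))))) (by decide +kernel)
theorem bx0_50 : BoxOK sI cl4 cl9 cl13 t2 t4 b0_50 :=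
  box_mk (TrL.c (I.pos (nat_lit 0) (nat_lit 0)) (xa (xa T2.l26 T2.l26) (xa T2.l26 T2.l26))
  (TrL.c (I.pos (nat_lit 0) (nat_lit 0)) (xa T4.l25 T4.l6)
  (TrL.c (I.pos (nat_lit 0) (nat_lit 0)) (xa T2.l27 T2.l27)
  (TrL.c (I.pos (nat_lit 0) (nat_lit 0)) (xa T4.l26 T4.l7)
  (TrL.c (I.pos (nat_lit 0) (nat_lit 0)) (xa T2.l28 T2.l28)
  (TrL.c (I.pos (nat_lit 0) (nat_lit 0)) (xa T4.l27 T4.l27)
  TrL.n)))))) (by decide +kernel)
theorem bx0_51 : BoxOK sI cl4 cl9 cl13 t2 t4 b0_51 :=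
  box_mk (TrL.c (I.pos (nat_lit 0) (nat_lit 0)) (xa T2.l21 (xb T2.l21 T2.l21))
  (TrL.c (I.pos (nat_lit 0) (nat_lit 0)) T4.l21
  (TrL.c (I.pos (nat_lit 0) (nat_lit 0)) T2.l22
  (TrL.c (I.pos (nat_lit 0) (nat_lit 0)) T4.l22
  (TrL.c (I.pos (nat_lit 0) (nat_lit 0)) T2.l23
  (TrL.c (I.pos (nat_lit 0) (nat_lit 0)) T4.l23
  TrL.n)))))) (by decide +kernel)
theorem bx0_52 : BoxOK sI cl4 cl9 cl13 t2 t4 b0_52 :=
  box_mk (TrL.c (I.pos (nat_lit 0) (nat_lit 0)) (xa (xb T2.l21 T2.l54) (xb (xa T2.l54 T2.l54) T2.l54))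
  (TrL.c (I.pos (nat_lit 0) (nat_lit 0)) (xa T4.l21 T4.l55)
  (TrL.c (I.pos (nat_lit 0) (nat_lit 0)) T2.l55
  (TrL.c (I.pos (nat_lit 0) (nat_lit 0)) (xa T4.l22 T4.l56)
  (TrL.c (I.pos (nat_lit 0) (nat_lit 0)) T2.l56
  (TrL.c (I.pos (nat_lit 0) (nat_lit 0)) (xa T4.l23 T4.l57)
  TrL.n)))))) (by decide +kernel)
theorem bx0_53 : BoxOK sI cl4 cl9 cl13 t2 t4 b0_53 :=
  box_mk (TrL.c (I.pos (nat_lit 0) (nat_lit 0)) T2.l26
  (TrL.c (I.pos (nat_lit 0) (nat_lit 0)) T4.l25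
  (TrL.c (I.pos (nat_lit 0) (nat_lit 0)) T2.l27
  (TrL.c (I.pos (nat_lit 0) (nat_lit 0)) T4.l26
  (TrL.c (I.pos (nat_lit 0) (nat_lit 0)) T2.l28
  (TrL.c (I.pos (nat_lit 0) (nat_lit 0)) T4.l27
  TrL.n)))))) (by decide +kernel)
theorem bx0_54 : BoxOK sI cl4 cl9 cl13 t2 t4 b0_54 :=
  box_mk (TrL.c (I.pos (nat_lit 0) (nat_lit 0)) (xa (xb (xa T2.l21 T2.l54) T2.l0) T2.l54)
  (TrL.c (I.pos (nat_lit 0) (nat_lit 0)) (xa T4.l55 T4.l55)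
  (TrL.c (I.pos (nat_lit 0) (nat_lit 0)) T2.l55
  (TrL.c (I.pos (nat_lit 0) (nat_lit 0)) (xa T4.l56 T4.l56)
  (TrL.c (I.pos (nat_lit 0) (nat_lit 0)) T2.l56
  (TrL.c (I.pos (nat_lit 0) (nat_lit 0)) (xa T4.l57 T4.l57)
  TrL.n)))))) (by decide +kernel)
theorem bx0_55 : BoxOK sI cl4 cl9 cl13 t2 t4 b0_55 :=
  box_mk (TrL.c (I.pos (nat_lit 0) (nat_lit 0)) (xa T2.l21 (xb T2.l21 T2.l21))
  (TrL.c (I.pos (nat_lit 0) (nat_lit 0)) (xa T4.l21 T4.l21)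
  (TrL.c (I.pos (nat_lit 0) (nat_lit 0)) T2.l22
  (TrL.c (I.pos (nat_lit 0) (nat_lit 0)) (xa T4.l22 T4.l22)
  (TrL.c (I.pos (nat_lit 0) (nat_lit 0)) T2.l23
  (TrL.c (I.pos (nat_lit 0) (nat_lit 0)) (xa T4.l23 T4.l23)
  TrL.n)))))) (by decide +kernel)
theorem bx0_56 : BoxOK sI cl4 cl9 cl13 t2 t4 b0_56 :=
  box_mk (TrL.c (I.pos (nat_lit 0) (nat_lit 0)) T2.l6
  (TrL.c (I.pos (nat_lit 0) (nat_lit 0)) T4.l6
  (TrL.c (I.pos (nat_lit 0) (nat_lit 0)) T2.l24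
  (TrL.c (I.pos (nat_lit 0) (nat_lit 0)) T4.l7
  (TrL.c (I.pos (nat_lit 0) (nat_lit 0)) T2.l25
  (TrL.c (I.pos (nat_lit 0) (nat_lit 0)) T4.l8
  TrL.n)))))) (by decide +kernel)
theorem bx0_57 : BoxOK sI cl4 cl9 cl13 t2 t4 b0_57 :=
  box_mk (TrL.c (I.pos (nat_lit 0) (nat_lit 0)) T2.l26
  (TrL.c (I.pos (nat_lit 0) (nat_lit 0)) T4.l25
  (TrL.c (I.pos (nat_lit 0) (nat_lit 0)) T2.l27
  (TrL.c (I.pos (nat_lit 0) (nat_lit 0)) T4.l26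
  (TrL.c (I.pos (nat_lit 0) (nat_lit 0)) T2.l28
  (TrL.c (I.pos (nat_lit 0) (nat_lit 0)) T4.l27
  TrL.n)))))) (by decide +kernel)
theorem bx0_58 : BoxOK sI cl4 cl9 cl13 t2 t4 b0_58 :=
  box_mk (TrL.c (I.pos (nat_lit 0) (nat_lit 0)) T2.l6
  (TrL.c (I.pos (nat_lit 0) (nat_lit 0)) T4.l6
  (TrL.c (I.pos (nat_lit 0) (nat_lit 0)) T2.l24
  (TrL.c (I.pos (nat_lit 0) (nat_lit 0)) T4.l24
  (TrL.c (I.pos (nat_lit 0) (nat_lit 0)) T2.l25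
  (TrL.c (I.pos (nat_lit 0) (nat_lit 0)) T4.l8
  TrL.n)))))) (by decide +kernel)
theorem sv0 : StarV sI cl4 cl9 cl13 t2 t4 t0 :=
  (bt_n (bt_n (bt_n (bt_n (bt_n (bt_b bx0_0) (bt_n (bt_b bx0_1) (bt_b bx0_2))) (bt_n (bt_n (bt_b bx0_3) (bt_b bx0_4)) (bt_n (bt_b bx0_5) (bt_b bx0_6)))) (bt_n (bt_n (bt_b bx0_7) (bt_n (bt_b bx0_8) (bt_b bx0_9))) (bt_n (bt_n (bt_b bx0_10) (bt_b bx0_11)) (bt_n (bt_b bx0_12) (bt_b bx0_13))))) (bt_n (bt_n (bt_n (bt_b bx0_14) (bt_n (bt_b bx0_15) (bt_b bx0_16))) (bt_n (bt_n (bt_b bx0_17) (bt_b bx0_18)) (bt_n (bt_b bx0_19) (bt_b bx0_20)))) (bt_n (bt_n (bt_n (bt_b bx0_21) (bt_b bx0_22)) (bt_n (bt_b bx0_23) (bt_b bx0_24))) (bt_n (bt_n (bt_b bx0_25) (bt_b bx0_26)) (bt_n (bt_b bx0_27) (bt_b bx0_28)))))) (bt_n (bt_n (bt_n (bt_n (bt_b bx0_29) (bt_n (bt_b bx0_30) (bt_b bx0_31))) (bt_n (bt_n (bt_b bx0_32) (bt_b bx0_33)) (bt_n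 (bt_b bx0_34) (bt_b bx0_35)))) (bt_n (bt_n (bt_n (bt_b bx0_36) (bt_b bx0_37)) (bt_n (bt_b bx0_38) (bt_b bx0_39))) (bt_n (bt_n (bt_b bx0_40) (bt_b bx0_41)) (bt_n (bt_b bx0_42) (bt_b bx0_43))))) (bt_n (bt_n (bt_n (bt_b bx0_44) (bt_n (bt_b bx0_45) (bt_b bx0_46))) (bt_n (bt_n (bt_b bx0_47) (bt_b bx0_48)) (bt_n (bt_b bx0_49) (bt_b bx0_50)))) (bt_n (bt_n (bt_n (bt_b bx0_51) (bt_b bx0_52)) (bt_n (bt_b bx0_53) (bt_b bx0_54))) (bt_n (bt_n (bt_b bx0_55) (bt_b bx0_56)) (bt_n (bt_b bx0_57) (bt_b bx0_58)))))))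
def S0 : StarD := StarD.mk cl4 cl9 cl13 2 4 t0
theorem bx1_0 : BoxOK sI cl4 cl13 cl9 t4 t2 b1_0 :=
  box_mk (TrL.c (I.pos (nat_lit 0) (nat_lit 0)) (xa (xb (xa (xb T4.l0 (xa T4.l0 T4.l0)) (xb T4.l0 T4.l0)) (xa (xb (xa T4.l0 T4.l0) (xa (xb T4.l0 T4.l0) (xb T4.l0 T4.l0))) (xb T4.l0 (xa (xs T4.l0 T4.l0) (xs T4.l0 (xb T4.l0 T4.l0)))))) (xb (xa T4.l0 (xb (xa T4.l0 T4.l0) (xa T4.l0 (xb T4.l0 T4.l0)))) (xa (xb (xa T4.l0 T4.l0) (xa (xs T4.l0 (xb T4.l0 T4.l0)) (xs T4.l0 (xb T4.l0 (xd T4.l0 T4.l0))))) (xb (xa T4.l0 (xs T4.l0 (xb T4.l0 T4.l0))) (xa (xs (xb T4.l0 T4.l0) (xb T4.l0 (xd T4.l0 T4.l0))) (xs (xb T4.l0 T4.l0) (xb T4.l0 (xd T4.l0 T4.l0))))))))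
  (TrL.c (I.pos (nat_lit 0) (nat_lit 0)) (xa (xb (xa T2.l3 T2.l3) (xa T2.l3 T2.l3)) (xb T2.l3 (xa T2.l3 (xb T2.l3 T2.l3))))
  (TrL.c (I.pos (nat_lit 0) (nat_lit 0)) (xa T4.l4 T4.l4)
  (TrL.c (I.pos (nat_lit 0) (nat_lit 0)) (xa (xb T2.l48 (xa T2.l4 T2.l4)) (xb T2.l4 (xa T2.l4 (xb T2.l4 (xd T2.l4 T2.l4)))))
  (TrL.c (I.pos (nat_lit 0) (nat_lit 0)) (xa T4.l5 T4.l5)
  (TrL.c (I.pos (nat_lit 0) (nat_lit 0)) (xa (xb (xa T2.l5 T2.l5) (xa T2.l5 T2.l5)) (xb T2.l5 (xa T2.l5 (xb T2.l5 (xa T2.l5 T2.l5)))))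
  TrL.n)))))) (by decide +kernel)
theorem bx1_1 : BoxOK sI cl4 cl13 cl9 t4 t2 b1_1 :=
  box_mk (TrL.c (I.pos (nat_lit 0) (nat_lit 0)) (xa (xa (xa T4.l28 T4.l28) T4.l28) (xa T4.l28 (xa T4.l28 T4.l50)))
  (TrL.c (I.pos (nat_lit 0) (nat_lit 0)) (xa T2.l50 (xa T2.l29 T2.l29))
  (TrL.c (I.pos (nat_lit 0) (nat_lit 0)) (xa T4.l51 T4.l51)
  (TrL.c (I.pos (nat_lit 0) (nat_lit 0)) (xa T2.l51 T2.l51)
  (TrL.c (I.pos (nat_lit 0) (nat_lit 0)) (xa T4.l52 T4.l52)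
  (TrL.c (I.pos (nat_lit 0) (nat_lit 0)) (xa T2.l52 (xa T2.l31 T2.l31))
  TrL.n)))))) (by decide +kernel)
theorem bx1_2 : BoxOK sI cl4 cl13 cl9 t4 t2 b1_2 :=
  box_mk (TrL.c (I.pos (nat_lit 0) (nat_lit 0)) (xb (xa T4.l31 T4.l31) (xa T4.l31 T4.l31))
  (TrL.c (I.pos (nat_lit 0) (nat_lit 0)) T2.l32
  (TrL.c (I.pos (nat_lit 0) (nat_lit 0)) T4.l32
  (TrL.c (I.pos (nat_lit 0) (nat_lit 0)) T2.l33
  (TrL.c (I.pos (nat_lit 0) (nat_lit 0)) T4.l33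
  (TrL.c (I.pos (nat_lit 0) (nat_lit 0)) T2.l34
  TrL.n)))))) (by decide +kernel)
theorem bx1_3 : BoxOK sI cl4 cl13 cl9 t4 t2 b1_3 :=
  box_mk (TrL.c (I.pos (nat_lit 0) (nat_lit 0)) (xa (xa T4.l34 T4.l28) T4.l28)
  (TrL.c (I.pos (nat_lit 0) (nat_lit 0)) (xa T2.l35 T2.l29)
  (TrL.c (I.pos (nat_lit 0) (nat_lit 0)) T4.l35
  (TrL.c (I.pos (nat_lit 0) (nat_lit 0)) (xa T2.l36 T2.l51)
  (TrL.c (I.pos (nat_lit 0) (nat_lit 0)) T4.l36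
  (TrL.c (I.pos (nat_lit 0) (nat_lit 0)) (xa T2.l37 T2.l31)
  TrL.n)))))) (by decide +kernel)
theorem bx1_4 : BoxOK sI cl4 cl13 cl9 t4 t2 b1_4 :=
  box_mk (TrL.c (I.pos (nat_lit 0) (nat_lit 0)) (xa (xb T4.l0 T4.l0) (xb (xa T4.l0 T4.l2) (xa T4.l0 (xb T4.l2 (xs T4.l0 T4.l2)))))
  (TrL.c (I.pos (nat_lit 0) (nat_lit 0)) (xa (xb T2.l3 T2.l3) (xb T2.l3 T2.l3))
  (TrL.c (I.pos (nat_lit 0) (nat_lit 0)) T4.l4
  (TrL.c (I.pos (nat_lit 0) (nat_lit 0)) (xb (xa T2.l4 T2.l4) T2.l4)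
  (TrL.c (I.pos (nat_lit 0) (nat_lit 0)) T4.l5
  (TrL.c (I.pos (nat_lit 0) (nat_lit 0)) (xa (xb T2.l5 T2.l5) (xb T2.l5 T2.l5))
  TrL.n)))))) (by decide +kernel)
theorem bx1_5 : BoxOK sI cl4 cl13 cl9 t4 t2 b1_5 :=
  box_mk (TrL.c (I.pos (nat_lit 0) (nat_lit 0)) (xa T4.l28 (xa T4.l28 T4.l28))
  (TrL.c (I.pos (nat_lit 0) (nat_lit 0)) (xa T2.l29 T2.l29)
  (TrL.c (I.pos (nat_lit 0) (nat_lit 0)) T4.l51
  (TrL.c (I.pos (nat_lit 0) (nat_lit 0)) (xa T2.l30 T2.l51)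
  (TrL.c (I.pos (nat_lit 0) (nat_lit 0)) T4.l52
  (TrL.c (I.pos (nat_lit 0) (nat_lit 0)) (xa T2.l31 T2.l31)
  TrL.n)))))) (by decide +kernel)
theorem bx1_6 : BoxOK sI cl4 cl13 cl9 t4 t2 b1_6 :=
  box_mk (TrL.c (I.pos (nat_lit 0) (nat_lit 0)) T4.l31
  (TrL.c (I.pos (nat_lit 0) (nat_lit 0)) T2.l41
  (TrL.c (I.pos (nat_lit 0) (nat_lit 0)) T4.l32
  (TrL.c (I.pos (nat_lit 0) (nat_lit 0)) T2.l33
  (TrL.c (I.pos (nat_lit 0) (nat_lit 0)) T4.l33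
  (TrL.c (I.pos (nat_lit 0) (nat_lit 0)) T2.l43
  TrL.n)))))) (by decide +kernel)
theorem bx1_7 : BoxOK sI cl4 cl13 cl9 t4 t2 b1_7 :=
  box_mk (TrL.c (I.pos (nat_lit 0) (nat_lit 0)) T4.l50
  (TrL.c (I.pos (nat_lit 0) (nat_lit 0)) (xa T2.l44 T2.l29)
  (TrL.c (I.pos (nat_lit 0) (nat_lit 0)) T4.l51
  (TrL.c (I.pos (nat_lit 0) (nat_lit 0)) (xa T2.l36 T2.l36)
  (TrL.c (I.pos (nat_lit 0) (nat_lit 0)) T4.l52
  (TrL.c (I.pos (nat_lit 0) (nat_lit 0)) (xa T2.l46 T2.l31)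
  TrL.n)))))) (by decide +kernel)
theorem bx1_8 : BoxOK sI cl4 cl13 cl9 t4 t2 b1_8 :=
  box_mk (TrL.c (I.pos (nat_lit 0) (nat_lit 0)) (xa (xb (xa (xb T4.l47 T4.l47) (xb T4.l0 (xs T4.l0 T4.l0))) (xa (xb (xs T4.l0 T4.l47) (xs T4.l0 (xa T4.l0 T4.l0))) (xb (xs T4.l0 (xa T4.l0 T4.l0)) (xs T4.l0 (xa T4.l0 T4.l0))))) (xb (xa (xb T4.l0 (xs T4.l0 T4.l0)) (xb (xa T4.l0 T4.l2) (xs T4.l0 (xa T4.l0 T4.l2)))) (xa (xb (xs T4.l0 (xa T4.l0 T4.l0)) (xs T4.l0 (xa T4.l0 (xb T4.l0 T4.l0)))) (xb (xs T4.l0 (xd (xa T4.l0 T4.l0) (xa T4.l0 T4.l0))) (xs (xa T4.l0 T4.l0) (xa (xd T4.l0 T4.l0) (xd T4.l0 T4.l0)))))))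
  (TrL.c (I.pos (nat_lit 0) (nat_lit 0)) (xa (xb T2.l3 (xa T2.l3 T2.l3)) (xb (xa T2.l3 T2.l3) (xa T2.l3 T2.l3)))
  (TrL.c (I.pos (nat_lit 0) (nat_lit 0)) T4.l4
  (TrL.c (I.pos (nat_lit 0) (nat_lit 0)) (xa (xb T2.l48 T2.l4) (xb (xa T2.l4 T2.l4) (xa T2.l4 (xd T2.l4 T2.l4))))
  (TrL.c (I.pos (nat_lit 0) (nat_lit 0)) T4.l5
  (TrL.c (I.pos (nat_lit 0) (nat_lit 0)) (xa (xb T2.l5 (xa T2.l5 T2.l5)) (xb (xa T2.l5 T2.l5) (xa T2.l5 T2.l5)))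
  TrL.n)))))) (by decide +kernel)
theorem bx1_9 : BoxOK sI cl4 cl13 cl9 t4 t2 b1_9 :=
  box_mk (TrL.c (I.pos (nat_lit 0) (nat_lit 0)) (xa T4.l28 T4.l50)
  (TrL.c (I.pos (nat_lit 0) (nat_lit 0)) T2.l29
  (TrL.c (I.pos (nat_lit 0) (nat_lit 0)) T4.l51
  (TrL.c (I.pos (nat_lit 0) (nat_lit 0)) T2.l51
  (TrL.c (I.pos (nat_lit 0) (nat_lit 0)) T4.l52
  (TrL.c (I.pos (nat_lit 0) (nat_lit 0)) T2.l31
  TrL.n)))))) (by decide +kernel)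
theorem bx1_10 : BoxOK sI cl4 cl13 cl9 t4 t2 b1_10 :=
  box_mk (TrL.c (I.pos (nat_lit 0) (nat_lit 0)) (xa T4.l31 T4.l31)
  (TrL.c (I.pos (nat_lit 0) (nat_lit 0)) T2.l32
  (TrL.c (I.pos (nat_lit 0) (nat_lit 0)) T4.l32
  (TrL.c (I.pos (nat_lit 0) (nat_lit 0)) T2.l33
  (TrL.c (I.pos (nat_lit 0) (nat_lit 0)) T4.l33
  (TrL.c (I.pos (nat_lit 0) (nat_lit 0)) T2.l34
  TrL.n)))))) (by decide +kernel)
theorem bx1_11 : BoxOK sI cl4 cl13 cl9 t4 t2 b1_11 :=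
  box_mk (TrL.c (I.pos (nat_lit 0) (nat_lit 0)) T4.l50
  (TrL.c (I.pos (nat_lit 0) (nat_lit 0)) T2.l44
  (TrL.c (I.pos (nat_lit 0) (nat_lit 0)) T4.l35
  (TrL.c (I.pos (nat_lit 0) (nat_lit 0)) T2.l36
  (TrL.c (I.pos (nat_lit 0) (nat_lit 0)) T4.l36
  (TrL.c (I.pos (nat_lit 0) (nat_lit 0)) T2.l46
  TrL.n)))))) (by decide +kernel)
theorem bx1_12 : BoxOK sI cl4 cl13 cl9 t4 t2 b1_12 :=
  box_mk (TrL.c (I.pos (nat_lit 0) (nat_lit 0)) T4.l28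
  (TrL.c (I.pos (nat_lit 0) (nat_lit 0)) T2.l29
  (TrL.c (I.pos (nat_lit 0) (nat_lit 0)) T4.l29
  (TrL.c (I.pos (nat_lit 0) (nat_lit 0)) T2.l30
  (TrL.c (I.pos (nat_lit 0) (nat_lit 0)) T4.l30
  (TrL.c (I.pos (nat_lit 0) (nat_lit 0)) T2.l31
  TrL.n)))))) (by decide +kernel)
theorem bx1_13 : BoxOK sI cl4 cl13 cl9 t4 t2 b1_13 :=
  box_mk (TrL.c (I.pos (nat_lit 0) (nat_lit 0)) (xa (xb T4.l0 T4.l0) (xb T4.l2 (xa T4.l2 T4.l2)))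
  (TrL.c (I.pos (nat_lit 0) (nat_lit 0)) (xa T2.l3 (xb T2.l3 T2.l3))
  (TrL.c (I.pos (nat_lit 0) (nat_lit 0)) T4.l3
  (TrL.c (I.pos (nat_lit 0) (nat_lit 0)) (xa T2.l4 (xb (xa T2.l4 T2.l4) (xa T2.l4 T2.l4)))
  (TrL.c (I.pos (nat_lit 0) (nat_lit 0)) T4.l1
  (TrL.c (I.pos (nat_lit 0) (nat_lit 0)) (xa T2.l5 (xb T2.l5 T2.l5))
  TrL.n)))))) (by decide +kernel)
theorem bx1_14 : BoxOK sI cl4 cl13 cl9 t4 t2 b1_14 :=
  box_mk (TrL.c (I.pos (nat_lit 0) (nat_lit 0)) (xa T4.l28 T4.l50)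
  (TrL.c (I.pos (nat_lit 0) (nat_lit 0)) T2.l50
  (TrL.c (I.pos (nat_lit 0) (nat_lit 0)) T4.l29
  (TrL.c (I.pos (nat_lit 0) (nat_lit 0)) T2.l51
  (TrL.c (I.pos (nat_lit 0) (nat_lit 0)) T4.l30
  (TrL.c (I.pos (nat_lit 0) (nat_lit 0)) T2.l31
  TrL.n)))))) (by decide +kernel)
theorem bx1_15 : BoxOK sI cl4 cl13 cl9 t4 t2 b1_15 :=
  box_mk (TrL.c (I.pos (nat_lit 0) (nat_lit 0)) T4.l31
  (TrL.c (I.pos (nat_lit 0) (nat_lit 0)) T2.l32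
  (TrL.c (I.pos (nat_lit 0) (nat_lit 0)) T4.l32
  (TrL.c (I.pos (nat_lit 0) (nat_lit 0)) T2.l33
  (TrL.c (I.pos (nat_lit 0) (nat_lit 0)) T4.l33
  (TrL.c (I.pos (nat_lit 0) (nat_lit 0)) T2.l34
  TrL.n)))))) (by decide +kernel)
theorem bx1_16 : BoxOK sI cl4 cl13 cl9 t4 t2 b1_16 :=
  box_mk (TrL.c (I.pos (nat_lit 0) (nat_lit 0)) T4.l28
  (TrL.c (I.pos (nat_lit 0) (nat_lit 0)) T2.l35
  (TrL.c (I.pos (nat_lit 0) (nat_lit 0)) T4.l35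
  (TrL.c (I.pos (nat_lit 0) (nat_lit 0)) T2.l36
  (TrL.c (I.pos (nat_lit 0) (nat_lit 0)) T4.l36
  (TrL.c (I.pos (nat_lit 0) (nat_lit 0)) T2.l37
  TrL.n)))))) (by decide +kernel)
theorem bx1_17 : BoxOK sI cl4 cl13 cl9 t4 t2 b1_17 :=
  box_mk (TrL.c (I.pos (nat_lit 0) (nat_lit 0)) (xa (xb T4.l41 T4.l31) (xb T4.l41 T4.l41))
  (TrL.c (I.pos (nat_lit 0) (nat_lit 0)) (xa T2.l32 T2.l41)
  (TrL.c (I.pos (nat_lit 0) (nat_lit 0)) T4.l42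
  (TrL.c (I.pos (nat_lit 0) (nat_lit 0)) (xa T2.l42 T2.l42)
  (TrL.c (I.pos (nat_lit 0) (nat_lit 0)) T4.l43
  (TrL.c (I.pos (nat_lit 0) (nat_lit 0)) (xa T2.l34 T2.l43)
  TrL.n)))))) (by decide +kernel)
theorem bx1_18 : BoxOK sI cl4 cl13 cl9 t4 t2 b1_18 :=
  box_mk (TrL.c (I.pos (nat_lit 0) (nat_lit 0)) (xa (xa T4.l44 T4.l44) T4.l50)
  (TrL.c (I.pos (nat_lit 0) (nat_lit 0)) (xa T2.l44 T2.l29)
  (TrL.c (I.pos (nat_lit 0) (nat_lit 0)) (xa T4.l45 T4.l45)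
  (TrL.c (I.pos (nat_lit 0) (nat_lit 0)) (xa T2.l45 T2.l51)
  (TrL.c (I.pos (nat_lit 0) (nat_lit 0)) (xa T4.l46 T4.l46)
  (TrL.c (I.pos (nat_lit 0) (nat_lit 0)) (xa T2.l46 T2.l31)
  TrL.n)))))) (by decide +kernel)
theorem bx1_19 : BoxOK sI cl4 cl13 cl9 t4 t2 b1_19 :=
  box_mk (TrL.c (I.pos (nat_lit 0) (nat_lit 0)) (xb (xa (xb T4.l47 T4.l47) (xb (xa T4.l47 (xb T4.l47 T4.l47)) (xa T4.l47 (xb T4.l47 T4.l47)))) (xa (xb (xa T4.l47 T4.l47) (xa (xb T4.l47 (xs T4.l47 T4.l47)) (xb T4.l47 (xs T4.l47 T4.l47)))) (xb (xa T4.l47 (xb T4.l47 (xs T4.l47 T4.l47))) (xa (xb T4.l47 (xs T4.l47 (xa T4.l47 T4.l47))) (xb (xs T4.l47 T4.l47) (xs T4.l47 (xa T4.l47 T4.l47)))))))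
  (TrL.c (I.pos (nat_lit 0) (nat_lit 0)) (xb (xa T2.l47 T2.l47) (xa (xb T2.l47 T2.l47) (xb T2.l47 T2.l47)))
  (TrL.c (I.pos (nat_lit 0) (nat_lit 0)) T4.l48
  (TrL.c (I.pos (nat_lit 0) (nat_lit 0)) (xb T2.l48 (xa T2.l48 (xb T2.l48 T2.l48)))
  (TrL.c (I.pos (nat_lit 0) (nat_lit 0)) T4.l49
  (TrL.c (I.pos (nat_lit 0) (nat_lit 0)) (xb (xa T2.l49 T2.l49) (xa (xb T2.l49 T2.l49) (xb T2.l49 T2.l49)))
  TrL.n)))))) (by decide +kernel)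
theorem bx1_20 : BoxOK sI cl4 cl13 cl9 t4 t2 b1_20 :=
  box_mk (TrL.c (I.pos (nat_lit 0) (nat_lit 0)) (xa (xa (xb T4.l50 T4.l50) T4.l50) (xa T4.l50 (xa T4.l50 (xb T4.l50 T4.l50))))
  (TrL.c (I.pos (nat_lit 0) (nat_lit 0)) (xa T2.l50 (xa T2.l50 T2.l50))
  (TrL.c (I.pos (nat_lit 0) (nat_lit 0)) (xa T4.l51 T4.l51)
  (TrL.c (I.pos (nat_lit 0) (nat_lit 0)) (xa T2.l51 (xa T2.l51 T2.l51))
  (TrL.c (I.pos (nat_lit 0) (nat_lit 0)) (xa T4.l52 T4.l52)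
  (TrL.c (I.pos (nat_lit 0) (nat_lit 0)) (xa T2.l52 (xa T2.l52 T2.l52))
  TrL.n)))))) (by decide +kernel)
theorem bx1_21 : BoxOK sI cl4 cl13 cl9 t4 t2 b1_21 :=
  box_mk (TrL.c (I.pos (nat_lit 0) (nat_lit 0)) (xa T4.l41 T4.l0)
  (TrL.c (I.pos (nat_lit 0) (nat_lit 0)) T2.l41
  (TrL.c (I.pos (nat_lit 0) (nat_lit 0)) T4.l42
  (TrL.c (I.pos (nat_lit 0) (nat_lit 0)) T2.l42
  (TrL.c (I.pos (nat_lit 0) (nat_lit 0)) T4.l43
  (TrL.c (I.pos (nat_lit 0) (nat_lit 0)) T2.l43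
  TrL.n)))))) (by decide +kernel)
theorem bx1_22 : BoxOK sI cl4 cl13 cl9 t4 t2 b1_22 :=
  box_mk (TrL.c (I.pos (nat_lit 0) (nat_lit 0)) T4.l28
  (TrL.c (I.pos (nat_lit 0) (nat_lit 0)) T2.l44
  (TrL.c (I.pos (nat_lit 0) (nat_lit 0)) T4.l45
  (TrL.c (I.pos (nat_lit 0) (nat_lit 0)) T2.l45
  (TrL.c (I.pos (nat_lit 0) (nat_lit 0)) T4.l46
  (TrL.c (I.pos (nat_lit 0) (nat_lit 0)) T2.l46
  TrL.n)))))) (by decide +kernel)
theorem bx1_23 : BoxOK sI cl4 cl13 cl9 t4 t2 b1_23 :=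
  box_mk (TrL.c (I.pos (nat_lit 0) (nat_lit 0)) (xa T4.l0 T4.l0)
  (TrL.c (I.pos (nat_lit 0) (nat_lit 0)) (xa T2.l47 T2.l47)
  (TrL.c (I.pos (nat_lit 0) (nat_lit 0)) T4.l48
  (TrL.c (I.pos (nat_lit 0) (nat_lit 0)) (xa T2.l48 T2.l48)
  (TrL.c (I.pos (nat_lit 0) (nat_lit 0)) T4.l49
  (TrL.c (I.pos (nat_lit 0) (nat_lit 0)) (xa T2.l49 T2.l49)
  TrL.n)))))) (by decide +kernel)
theorem bx1_24 : BoxOK sI cl4 cl13 cl9 t4 t2 b1_24 :=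
  box_mk (TrL.c (I.pos (nat_lit 0) (nat_lit 0)) (xa T4.l50 (xa T4.l50 T4.l50))
  (TrL.c (I.pos (nat_lit 0) (nat_lit 0)) (xa T2.l50 T2.l50)
  (TrL.c (I.pos (nat_lit 0) (nat_lit 0)) T4.l51
  (TrL.c (I.pos (nat_lit 0) (nat_lit 0)) (xa T2.l51 T2.l51)
  (TrL.c (I.pos (nat_lit 0) (nat_lit 0)) T4.l52
  (TrL.c (I.pos (nat_lit 0) (nat_lit 0)) (xa T2.l52 T2.l52)
  TrL.n)))))) (by decide +kernel)
theorem bx1_25 : BoxOK sI cl4 cl13 cl9 t4 t2 b1_25 :=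
  box_mk (TrL.c (I.pos (nat_lit 0) (nat_lit 0)) (xa (xb T4.l41 T4.l41) T4.l0)
  (TrL.c (I.pos (nat_lit 0) (nat_lit 0)) T2.l41
  (TrL.c (I.pos (nat_lit 0) (nat_lit 0)) T4.l42
  (TrL.c (I.pos (nat_lit 0) (nat_lit 0)) (xa T2.l42 T2.l42)
  (TrL.c (I.pos (nat_lit 0) (nat_lit 0)) T4.l43
  (TrL.c (I.pos (nat_lit 0) (nat_lit 0)) T2.l43
  TrL.n)))))) (by decide +kernel)
theorem bx1_26 : BoxOK sI cl4 cl13 cl9 t4 t2 b1_26 :=
  box_mk (TrL.c (I.pos (nat_lit 0) (nat_lit 0)) T4.l28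
  (TrL.c (I.pos (nat_lit 0) (nat_lit 0)) T2.l29
  (TrL.c (I.pos (nat_lit 0) (nat_lit 0)) T4.l45
  (TrL.c (I.pos (nat_lit 0) (nat_lit 0)) T2.l30
  (TrL.c (I.pos (nat_lit 0) (nat_lit 0)) T4.l46
  (TrL.c (I.pos (nat_lit 0) (nat_lit 0)) T2.l31
  TrL.n)))))) (by decide +kernel)
theorem bx1_27 : BoxOK sI cl4 cl13 cl9 t4 t2 b1_27 :=
  box_mk (TrL.c (I.pos (nat_lit 0) (nat_lit 0)) T4.l0
  (TrL.c (I.pos (nat_lit 0) (nat_lit 0)) (xa T2.l47 T2.l47)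
  (TrL.c (I.pos (nat_lit 0) (nat_lit 0)) T4.l48
  (TrL.c (I.pos (nat_lit 0) (nat_lit 0)) T2.l48
  (TrL.c (I.pos (nat_lit 0) (nat_lit 0)) T4.l49
  (TrL.c (I.pos (nat_lit 0) (nat_lit 0)) (xa T2.l49 T2.l49)
  TrL.n)))))) (by decide +kernel)
theorem bx1_28 : BoxOK sI cl4 cl13 cl9 t4 t2 b1_28 :=
  box_mk (TrL.c (I.pos (nat_lit 0) (nat_lit 0)) (xa T4.l50 T4.l50)
  (TrL.c (I.pos (nat_lit 0) (nat_lit 0)) (xa T2.l50 T2.l50)
  (TrL.c (I.pos (nat_lit 0) (nat_lit 0)) T4.l51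
  (TrL.c (I.pos (nat_lit 0) (nat_lit 0)) T2.l51
  (TrL.c (I.pos (nat_lit 0) (nat_lit 0)) T4.l52
  (TrL.c (I.pos (nat_lit 0) (nat_lit 0)) (xa T2.l52 T2.l52)
  TrL.n)))))) (by decide +kernel)
theorem bx1_29 : BoxOK sI cl4 cl13 cl9 t4 t2 b1_29 :=
  box_mk (TrL.c (I.pos (nat_lit 0) (nat_lit 0)) (xa (xb T4.l41 T4.l41) (xb T4.l41 T4.l0))
  (TrL.c (I.pos (nat_lit 0) (nat_lit 0)) (xb T2.l41 T2.l41)
  (TrL.c (I.pos (nat_lit 0) (nat_lit 0)) T4.l42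
  (TrL.c (I.pos (nat_lit 0) (nat_lit 0)) (xb T2.l42 T2.l42)
  (TrL.c (I.pos (nat_lit 0) (nat_lit 0)) T4.l43
  (TrL.c (I.pos (nat_lit 0) (nat_lit 0)) (xb T2.l43 T2.l43)
  TrL.n)))))) (by decide +kernel)
theorem bx1_30 : BoxOK sI cl4 cl13 cl9 t4 t2 b1_30 :=
  box_mk (TrL.c (I.pos (nat_lit 0) (nat_lit 0)) (xa (xa T4.l44 T4.l44) T4.l50)
  (TrL.c (I.pos (nat_lit 0) (nat_lit 0)) (xa T2.l44 T2.l29)
  (TrL.c (I.pos (nat_lit 0) (nat_lit 0)) (xa T4.l45 T4.l45)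
  (TrL.c (I.pos (nat_lit 0) (nat_lit 0)) (xa T2.l45 T2.l51)
  (TrL.c (I.pos (nat_lit 0) (nat_lit 0)) (xa T4.l46 T4.l46)
  (TrL.c (I.pos (nat_lit 0) (nat_lit 0)) (xa T2.l46 T2.l31)
  TrL.n)))))) (by decide +kernel)
theorem bx1_31 : BoxOK sI cl4 cl13 cl9 t4 t2 b1_31 :=
  box_mk (TrL.c (I.pos (nat_lit 0) (nat_lit 0)) (xa (xb (xa T4.l47 T4.l47) (xa (xb T4.l47 T4.l47) (xb T4.l47 T4.l47))) (xb (xa (xb T4.l47 T4.l47) (xb T4.l47 T4.l47)) (xa (xb T4.l47 T4.l47) (xb T4.l47 (xs T4.l47 T4.l47)))))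
  (TrL.c (I.pos (nat_lit 0) (nat_lit 0)) (xa (xb T2.l47 T2.l47) (xb T2.l47 T2.l47))
  (TrL.c (I.pos (nat_lit 0) (nat_lit 0)) T4.l48
  (TrL.c (I.pos (nat_lit 0) (nat_lit 0)) (xb (xa T2.l48 T2.l48) (xa T2.l48 T2.l48))
  (TrL.c (I.pos (nat_lit 0) (nat_lit 0)) T4.l49
  (TrL.c (I.pos (nat_lit 0) (nat_lit 0)) (xa (xb T2.l49 T2.l49) (xb T2.l49 T2.l49))
  TrL.n)))))) (by decide +kernel)
theorem bx1_32 : BoxOK sI cl4 cl13 cl9 t4 t2 b1_32 :=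
  box_mk (TrL.c (I.pos (nat_lit 0) (nat_lit 0)) (xa T4.l50 (xa T4.l50 T4.l50))
  (TrL.c (I.pos (nat_lit 0) (nat_lit 0)) (xa T2.l50 T2.l50)
  (TrL.c (I.pos (nat_lit 0) (nat_lit 0)) T4.l51
  (TrL.c (I.pos (nat_lit 0) (nat_lit 0)) (xa T2.l51 T2.l51)
  (TrL.c (I.pos (nat_lit 0) (nat_lit 0)) T4.l52
  (TrL.c (I.pos (nat_lit 0) (nat_lit 0)) (xa T2.l52 T2.l52)
  TrL.n)))))) (by decide +kernel)
theorem bx1_33 : BoxOK sI cl4 cl13 cl9 t4 t2 b1_33 :=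
  box_mk (TrL.c (I.pos (nat_lit 0) (nat_lit 0)) (xa (xb T4.l41 T4.l41) T4.l0)
  (TrL.c (I.pos (nat_lit 0) (nat_lit 0)) (xa T2.l41 T2.l41)
  (TrL.c (I.pos (nat_lit 0) (nat_lit 0)) T4.l42
  (TrL.c (I.pos (nat_lit 0) (nat_lit 0)) (xa T2.l42 T2.l48)
  (TrL.c (I.pos (nat_lit 0) (nat_lit 0)) T4.l43
  (TrL.c (I.pos (nat_lit 0) (nat_lit 0)) (xa T2.l43 T2.l43)
  TrL.n)))))) (by decide +kernel)
theorem bx1_34 : BoxOK sI cl4 cl13 cl9 t4 t2 b1_34 :=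
  box_mk (TrL.c (I.pos (nat_lit 0) (nat_lit 0)) (xa T4.l44 T4.l28)
  (TrL.c (I.pos (nat_lit 0) (nat_lit 0)) T2.l29
  (TrL.c (I.pos (nat_lit 0) (nat_lit 0)) T4.l45
  (TrL.c (I.pos (nat_lit 0) (nat_lit 0)) T2.l51
  (TrL.c (I.pos (nat_lit 0) (nat_lit 0)) T4.l46
  (TrL.c (I.pos (nat_lit 0) (nat_lit 0)) T2.l31
  TrL.n)))))) (by decide +kernel)
theorem bx1_35 : BoxOK sI cl4 cl13 cl9 t4 t2 b1_35 :=
  box_mk (TrL.c (I.pos (nat_lit 0) (nat_lit 0)) (xa T4.l0 T4.l0)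
  (TrL.c (I.pos (nat_lit 0) (nat_lit 0)) (xa T2.l47 T2.l47)
  (TrL.c (I.pos (nat_lit 0) (nat_lit 0)) T4.l48
  (TrL.c (I.pos (nat_lit 0) (nat_lit 0)) T2.l48
  (TrL.c (I.pos (nat_lit 0) (nat_lit 0)) T4.l49
  (TrL.c (I.pos (nat_lit 0) (nat_lit 0)) (xa T2.l49 T2.l49)
  TrL.n)))))) (by decide +kernel)
theorem bx1_36 : BoxOK sI cl4 cl13 cl9 t4 t2 b1_36 :=
  box_mk (TrL.c (I.pos (nat_lit 0) (nat_lit 0)) (xa (xa T4.l50 T4.l50) T4.l50)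
  (TrL.c (I.pos (nat_lit 0) (nat_lit 0)) (xa T2.l50 T2.l50)
  (TrL.c (I.pos (nat_lit 0) (nat_lit 0)) (xa T4.l51 T4.l51)
  (TrL.c (I.pos (nat_lit 0) (nat_lit 0)) (xa T2.l51 T2.l51)
  (TrL.c (I.pos (nat_lit 0) (nat_lit 0)) (xa T4.l52 T4.l52)
  (TrL.c (I.pos (nat_lit 0) (nat_lit 0)) (xa T2.l52 T2.l52)
  TrL.n)))))) (by decide +kernel)
theorem bx1_37 : BoxOK sI cl4 cl13 cl9 t4 t2 b1_37 :=
  box_mk (TrL.c (I.pos (nat_lit 0) (nat_lit 0)) T4.l41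
  (TrL.c (I.pos (nat_lit 0) (nat_lit 0)) T2.l41
  (TrL.c (I.pos (nat_lit 0) (nat_lit 0)) T4.l42
  (TrL.c (I.pos (nat_lit 0) (nat_lit 0)) T2.l42
  (TrL.c (I.pos (nat_lit 0) (nat_lit 0)) T4.l43
  (TrL.c (I.pos (nat_lit 0) (nat_lit 0)) T2.l43
  TrL.n)))))) (by decide +kernel)
theorem bx1_38 : BoxOK sI cl4 cl13 cl9 t4 t2 b1_38 :=
  box_mk (TrL.c (I.pos (nat_lit 0) (nat_lit 0)) T4.l0
  (TrL.c (I.pos (nat_lit 0) (nat_lit 0)) (xb T2.l47 T2.l47)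
  (TrL.c (I.pos (nat_lit 0) (nat_lit 0)) T4.l48
  (TrL.c (I.pos (nat_lit 0) (nat_lit 0)) T2.l48
  (TrL.c (I.pos (nat_lit 0) (nat_lit 0)) T4.l49
  (TrL.c (I.pos (nat_lit 0) (nat_lit 0)) (xb T2.l49 T2.l49)
  TrL.n)))))) (by decide +kernel)
theorem bx1_39 : BoxOK sI cl4 cl13 cl9 t4 t2 b1_39 :=
  box_mk (TrL.c (I.pos (nat_lit 0) (nat_lit 0)) (xa T4.l50 T4.l50)
  (TrL.c (I.pos (nat_lit 0) (nat_lit 0)) T2.l50
  (TrL.c (I.pos (nat_lit 0) (nat_lit 0)) T4.l51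
  (TrL.c (I.pos (nat_lit 0) (nat_lit 0)) T2.l51
  (TrL.c (I.pos (nat_lit 0) (nat_lit 0)) T4.l52
  (TrL.c (I.pos (nat_lit 0) (nat_lit 0)) T2.l52
  TrL.n)))))) (by decide +kernel)
theorem bx1_40 : BoxOK sI cl4 cl13 cl9 t4 t2 b1_40 :=
  box_mk (TrL.c (I.pos (nat_lit 0) (nat_lit 0)) (xa (xb T4.l41 T4.l41) T4.l0)
  (TrL.c (I.pos (nat_lit 0) (nat_lit 0)) (xa T2.l41 T2.l41)
  (TrL.c (I.pos (nat_lit 0) (nat_lit 0)) T4.l42
  (TrL.c (I.pos (nat_lit 0) (nat_lit 0)) (xa T2.l42 T2.l48)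
  (TrL.c (I.pos (nat_lit 0) (nat_lit 0)) T4.l43
  (TrL.c (I.pos (nat_lit 0) (nat_lit 0)) (xa T2.l43 T2.l43)
  TrL.n)))))) (by decide +kernel)
theorem bx1_41 : BoxOK sI cl4 cl13 cl9 t4 t2 b1_41 :=
  box_mk (TrL.c (I.pos (nat_lit 0) (nat_lit 0)) T4.l28
  (TrL.c (I.pos (nat_lit 0) (nat_lit 0)) T2.l44
  (TrL.c (I.pos (nat_lit 0) (nat_lit 0)) T4.l45
  (TrL.c (I.pos (nat_lit 0) (nat_lit 0)) T2.l45
  (TrL.c (I.pos (nat_lit 0) (nat_lit 0)) T4.l46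
  (TrL.c (I.pos (nat_lit 0) (nat_lit 0)) T2.l46
  TrL.n)))))) (by decide +kernel)
theorem bx1_42 : BoxOK sI cl4 cl13 cl9 t4 t2 b1_42 :=
  box_mk (TrL.c (I.pos (nat_lit 0) (nat_lit 0)) T4.l0
  (TrL.c (I.pos (nat_lit 0) (nat_lit 0)) (xa T2.l47 T2.l47)
  (TrL.c (I.pos (nat_lit 0) (nat_lit 0)) T4.l48
  (TrL.c (I.pos (nat_lit 0) (nat_lit 0)) T2.l48
  (TrL.c (I.pos (nat_lit 0) (nat_lit 0)) T4.l49
  (TrL.c (I.pos (nat_lit 0) (nat_lit 0)) (xa T2.l49 T2.l49)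
  TrL.n)))))) (by decide +kernel)
theorem bx1_43 : BoxOK sI cl4 cl13 cl9 t4 t2 b1_43 :=
  box_mk (TrL.c (I.pos (nat_lit 0) (nat_lit 0)) T4.l50
  (TrL.c (I.pos (nat_lit 0) (nat_lit 0)) T2.l50
  (TrL.c (I.pos (nat_lit 0) (nat_lit 0)) T4.l51
  (TrL.c (I.pos (nat_lit 0) (nat_lit 0)) T2.l51
  (TrL.c (I.pos (nat_lit 0) (nat_lit 0)) T4.l52
  (TrL.c (I.pos (nat_lit 0) (nat_lit 0)) T2.l52
  TrL.n)))))) (by decide +kernel)
theorem bx1_44 : BoxOK sI cl4 cl13 cl9 t4 t2 b1_44 :=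
  box_mk (TrL.c (I.pos (nat_lit 0) (nat_lit 0)) T4.l28
  (TrL.c (I.pos (nat_lit 0) (nat_lit 0)) T2.l44
  (TrL.c (I.pos (nat_lit 0) (nat_lit 0)) T4.l45
  (TrL.c (I.pos (nat_lit 0) (nat_lit 0)) T2.l45
  (TrL.c (I.pos (nat_lit 0) (nat_lit 0)) T4.l46
  (TrL.c (I.pos (nat_lit 0) (nat_lit 0)) T2.l46
  TrL.n)))))) (by decide +kernel)
theorem bx1_45 : BoxOK sI cl4 cl13 cl9 t4 t2 b1_45 :=
  box_mk (TrL.c (I.pos (nat_lit 0) (nat_lit 0)) T4.l0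
  (TrL.c (I.pos (nat_lit 0) (nat_lit 0)) T2.l47
  (TrL.c (I.pos (nat_lit 0) (nat_lit 0)) T4.l48
  (TrL.c (I.pos (nat_lit 0) (nat_lit 0)) T2.l48
  (TrL.c (I.pos (nat_lit 0) (nat_lit 0)) T4.l49
  (TrL.c (I.pos (nat_lit 0) (nat_lit 0)) T2.l49
  TrL.n)))))) (by decide +kernel)
theorem bx1_46 : BoxOK sI cl4 cl13 cl9 t4 t2 b1_46 :=
  box_mk (TrL.c (I.pos (nat_lit 0) (nat_lit 0)) (xa T4.l41 T4.l0)
  (TrL.c (I.pos (nat_lit 0) (nat_lit 0)) T2.l41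
  (TrL.c (I.pos (nat_lit 0) (nat_lit 0)) T4.l42
  (TrL.c (I.pos (nat_lit 0) (nat_lit 0)) T2.l42
  (TrL.c (I.pos (nat_lit 0) (nat_lit 0)) T4.l43
  (TrL.c (I.pos (nat_lit 0) (nat_lit 0)) T2.l43
  TrL.n)))))) (by decide +kernel)
theorem bx1_47 : BoxOK sI cl4 cl13 cl9 t4 t2 b1_47 :=
  box_mk (TrL.c (I.pos (nat_lit 0) (nat_lit 0)) T4.l28
  (TrL.c (I.pos (nat_lit 0) (nat_lit 0)) T2.l44
  (TrL.c (I.pos (nat_lit 0) (nat_lit 0)) T4.l45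
  (TrL.c (I.pos (nat_lit 0) (nat_lit 0)) T2.l45
  (TrL.c (I.pos (nat_lit 0) (nat_lit 0)) T4.l46
  (TrL.c (I.pos (nat_lit 0) (nat_lit 0)) T2.l46
  TrL.n)))))) (by decide +kernel)
theorem bx1_48 : BoxOK sI cl4 cl13 cl9 t4 t2 b1_48 :=
  box_mk (TrL.c (I.pos (nat_lit 0) (nat_lit 0)) (xa T4.l0 T4.l0)
  (TrL.c (I.pos (nat_lit 0) (nat_lit 0)) (xa T2.l47 T2.l47)
  (TrL.c (I.pos (nat_lit 0) (nat_lit 0)) T4.l48
  (TrL.c (I.pos (nat_lit 0) (nat_lit 0)) (xa T2.l48 T2.l48)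
  (TrL.c (I.pos (nat_lit 0) (nat_lit 0)) T4.l49
  (TrL.c (I.pos (nat_lit 0) (nat_lit 0)) (xa T2.l49 T2.l49)
  TrL.n)))))) (by decide +kernel)
theorem bx1_49 : BoxOK sI cl4 cl13 cl9 t4 t2 b1_49 :=
  box_mk (TrL.c (I.pos (nat_lit 0) (nat_lit 0)) T4.l50
  (TrL.c (I.pos (nat_lit 0) (nat_lit 0)) T2.l50
  (TrL.c (I.pos (nat_lit 0) (nat_lit 0)) T4.l51
  (TrL.c (I.pos (nat_lit 0) (nat_lit 0)) T2.l51
  (TrL.c (I.pos (nat_lit 0) (nat_lit 0)) T4.l52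
  (TrL.c (I.pos (nat_lit 0) (nat_lit 0)) T2.l52
  TrL.n)))))) (by decide +kernel)
theorem bx1_50 : BoxOK sI cl4 cl13 cl9 t4 t2 b1_50 :=
  box_mk (TrL.c (I.pos (nat_lit 0) (nat_lit 0)) T4.l28
  (TrL.c (I.pos (nat_lit 0) (nat_lit 0)) T2.l29
  (TrL.c (I.pos (nat_lit 0) (nat_lit 0)) T4.l35
  (TrL.c (I.pos (nat_lit 0) (nat_lit 0)) T2.l30
  (TrL.c (I.pos (nat_lit 0) (nat_lit 0)) T4.l36
  (TrL.c (I.pos (nat_lit 0) (nat_lit 0)) T2.l31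
  TrL.n)))))) (by decide +kernel)
theorem bx1_51 : BoxOK sI cl4 cl13 cl9 t4 t2 b1_51 :=
  box_mk (TrL.c (I.pos (nat_lit 0) (nat_lit 0)) T4.l50
  (TrL.c (I.pos (nat_lit 0) (nat_lit 0)) (xa T2.l44 T2.l29)
  (TrL.c (I.pos (nat_lit 0) (nat_lit 0)) T4.l51
  (TrL.c (I.pos (nat_lit 0) (nat_lit 0)) T2.l51
  (TrL.c (I.pos (nat_lit 0) (nat_lit 0)) T4.l52
  (TrL.c (I.pos (nat_lit 0) (nat_lit 0)) (xa T2.l46 T2.l31)
  TrL.n)))))) (by decide +kernel)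
theorem bx1_52 : BoxOK sI cl4 cl13 cl9 t4 t2 b1_52 :=
  box_mk (TrL.c (I.pos (nat_lit 0) (nat_lit 0)) T4.l28
  (TrL.c (I.pos (nat_lit 0) (nat_lit 0)) T2.l29
  (TrL.c (I.pos (nat_lit 0) (nat_lit 0)) T4.l29
  (TrL.c (I.pos (nat_lit 0) (nat_lit 0)) T2.l30
  (TrL.c (I.pos (nat_lit 0) (nat_lit 0)) T4.l30
  (TrL.c (I.pos (nat_lit 0) (nat_lit 0)) T2.l31
  TrL.n)))))) (by decide +kernel)
theorem bx1_53 : BoxOK sI cl4 cl13 cl9 t4 t2 b1_53 :=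
  box_mk (TrL.c (I.pos (nat_lit 0) (nat_lit 0)) (xa T4.l41 T4.l0)
  (TrL.c (I.pos (nat_lit 0) (nat_lit 0)) T2.l41
  (TrL.c (I.pos (nat_lit 0) (nat_lit 0)) T4.l42
  (TrL.c (I.pos (nat_lit 0) (nat_lit 0)) T2.l42
  (TrL.c (I.pos (nat_lit 0) (nat_lit 0)) T4.l43
  (TrL.c (I.pos (nat_lit 0) (nat_lit 0)) T2.l43
  TrL.n)))))) (by decide +kernel)
theorem bx1_54 : BoxOK sI cl4 cl13 cl9 t4 t2 b1_54 :=
  box_mk (TrL.c (I.pos (nat_lit 0) (nat_lit 0)) T4.l50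
  (TrL.c (I.pos (nat_lit 0) (nat_lit 0)) T2.l50
  (TrL.c (I.pos (nat_lit 0) (nat_lit 0)) T4.l51
  (TrL.c (I.pos (nat_lit 0) (nat_lit 0)) T2.l51
  (TrL.c (I.pos (nat_lit 0) (nat_lit 0)) T4.l52
  (TrL.c (I.pos (nat_lit 0) (nat_lit 0)) T2.l52
  TrL.n)))))) (by decide +kernel)
theorem bx1_55 : BoxOK sI cl4 cl13 cl9 t4 t2 b1_55 :=
  box_mk (TrL.c (I.pos (nat_lit 0) (nat_lit 0)) (xa (xb T4.l41 T4.l41) T4.l0)
  (TrL.c (I.pos (nat_lit 0) (nat_lit 0)) (xa T2.l41 T2.l41)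
  (TrL.c (I.pos (nat_lit 0) (nat_lit 0)) T4.l42
  (TrL.c (I.pos (nat_lit 0) (nat_lit 0)) (xb T2.l42 T2.l42)
  (TrL.c (I.pos (nat_lit 0) (nat_lit 0)) T4.l43
  (TrL.c (I.pos (nat_lit 0) (nat_lit 0)) (xa T2.l43 T2.l43)
  TrL.n)))))) (by decide +kernel)
theorem bx1_56 : BoxOK sI cl4 cl13 cl9 t4 t2 b1_56 :=
  box_mk (TrL.c (I.pos (nat_lit 0) (nat_lit 0)) T4.l28
  (TrL.c (I.pos (nat_lit 0) (nat_lit 0)) T2.l44
  (TrL.c (I.pos (nat_lit 0) (nat_lit 0)) T4.l45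
  (TrL.c (I.pos (nat_lit 0) (nat_lit 0)) T2.l30
  (TrL.c (I.pos (nat_lit 0) (nat_lit 0)) T4.l46
  (TrL.c (I.pos (nat_lit 0) (nat_lit 0)) T2.l46
  TrL.n)))))) (by decide +kernel)
theorem bx1_57 : BoxOK sI cl4 cl13 cl9 t4 t2 b1_57 :=
  box_mk (TrL.c (I.pos (nat_lit 0) (nat_lit 0)) T4.l0
  (TrL.c (I.pos (nat_lit 0) (nat_lit 0)) (xa T2.l41 T2.l47)
  (TrL.c (I.pos (nat_lit 0) (nat_lit 0)) T4.l48
  (TrL.c (I.pos (nat_lit 0) (nat_lit 0)) (xa T2.l48 T2.l48)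
  (TrL.c (I.pos (nat_lit 0) (nat_lit 0)) T4.l49
  (TrL.c (I.pos (nat_lit 0) (nat_lit 0)) (xa T2.l43 T2.l49)
  TrL.n)))))) (by decide +kernel)
theorem bx1_58 : BoxOK sI cl4 cl13 cl9 t4 t2 b1_58 :=
  box_mk (TrL.c (I.pos (nat_lit 0) (nat_lit 0)) T4.l50
  (TrL.c (I.pos (nat_lit 0) (nat_lit 0)) T2.l50
  (TrL.c (I.pos (nat_lit 0) (nat_lit 0)) T4.l51
  (TrL.c (I.pos (nat_lit 0) (nat_lit 0)) T2.l51
  (TrL.c (I.pos (nat_lit 0) (nat_lit 0)) T4.l52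
  (TrL.c (I.pos (nat_lit 0) (nat_lit 0)) T2.l52
  TrL.n)))))) (by decide +kernel)
theorem sv1 : StarV sI cl4 cl13 cl9 t4 t2 t1 :=
  (bt_n (bt_n (bt_n (bt_n (bt_n (bt_b bx1_0) (bt_n (bt_b bx1_1) (bt_b bx1_2))) (bt_n (bt_n (bt_b bx1_3) (bt_b bx1_4)) (bt_n (bt_b bx1_5) (bt_b bx1_6)))) (bt_n (bt_n (bt_b bx1_7) (bt_n (bt_b bx1_8) (bt_b bx1_9))) (bt_n (bt_n (bt_b bx1_10) (bt_b bx1_11)) (bt_n (bt_b bx1_12) (bt_b bx1_13))))) (bt_n (bt_n (bt_n (bt_b bx1_14) (bt_n (bt_b bx1_15) (bt_b bx1_16))) (bt_n (bt_n (bt_b bx1_17) (bt_b bx1_18)) (bt_n (bt_b bx1_19) (bt_b bx1_20)))) (bt_n (bt_n (bt_n (bt_b bx1_21) (bt_b bx1_22)) (bt_n (bt_b bx1_23) (bt_b bx1_24))) (bt_n (bt_n (bt_b bx1_25) (bt_b bx1_26)) (bt_n (bt_b bx1_27) (bt_b bx1_28)))))) (bt_n (bt_n (bt_n (bt_n (bt_b bx1_29) (bt_n (bt_b bx1_30) (bt_b bx1_31))) (bt_n (bt_n (bt_b bx1_32) (bt_b bx1_33)) (bt_n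 (bt_b bx1_34) (bt_b bx1_35)))) (bt_n (bt_n (bt_n (bt_b bx1_36) (bt_b bx1_37)) (bt_n (bt_b bx1_38) (bt_b bx1_39))) (bt_n (bt_n (bt_b bx1_40) (bt_b bx1_41)) (bt_n (bt_b bx1_42) (bt_b bx1_43))))) (bt_n (bt_n (bt_n (bt_b bx1_44) (bt_n (bt_b bx1_45) (bt_b bx1_46))) (bt_n (bt_n (bt_b bx1_47) (bt_b bx1_48)) (bt_n (bt_b bx1_49) (bt_b bx1_50)))) (bt_n (bt_n (bt_n (bt_b bx1_51) (bt_b bx1_52)) (bt_n (bt_b bx1_53) (bt_b bx1_54))) (bt_n (bt_n (bt_b bx1_55) (bt_b bx1_56)) (bt_n (bt_b bx1_57) (bt_b bx1_58)))))))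
def S1 : StarD := StarD.mk cl4 cl13 cl9 4 2 t1
theorem bx2_0 : BoxOK sI cl9 cl4 cl13 t0 t5 b2_0 :=
  box_mk (TrL.c (I.pos (nat_lit 0) (nat_lit 0)) (xb (xa T0.l0 T0.l0) (xa (xb (xa T0.l0 T0.l0) (xa (xb T0.l14 (xs T0.l0 T0.l0)) (xs T0.l0 (xb T0.l0 T0.l0)))) (xb (xa T0.l0 T0.l0) (xa (xs T0.l0 (xb T0.l0 T0.l0)) (xs (xk T0.l0 T0.l0) (xb T0.l0 (xk T0.l0 T0.l0)))))))
  (TrL.c (I.pos (nat_lit 0) (nat_lit 0)) (xb (xk T5.l1 T5.l1) (xk (xa T5.l13 T5.l1) (xa T5.l1 T5.l1)))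
  (TrL.c (I.pos (nat_lit 0) (nat_lit 124588530)) (xR T0.l15 (xR T0.l15 (xR T0.l1 (xb T0.l1 T0.l1))))
  (TrL.c (I.pos (nat_lit 0) (nat_lit 96881482)) (xR (xR T5.l2 T5.l14) (xR T5.l14 (xR T5.l2 T5.l2)))
  (TrL.c (I.pos (nat_lit 0) (nat_lit 0)) (xb (xk (xa T5.l3 T5.l3) (xa T5.l3 T5.l3)) (xa (xk (xb T5.l3 T5.l3) (xb T5.l3 (xa T5.l3 T5.l3))) (xk (xb T5.l3 (xa (xk T5.l3 T5.l3) (xs T5.l3 (xk T5.l3 T5.l3)))) (xb (xa T5.l3 T5.l3) (xa (xk T5.l3 (xs T5.l3 T5.l3)) (xs (xk T5.l3 T5.l3) (xk (xb T5.l3 T5.l3) (xb T5.l3 T5.l3))))))))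
  (TrL.c (I.pos (nat_lit 0) (nat_lit 0)) (xb T0.l2 T0.l2)
  (TrL.c (I.mix (nat_lit 17240550) (nat_lit 96881482)) (xR T5.l16 (xR T5.l4 (xR T5.l4 (xk T5.l4 T5.l4))))
  (TrL.c (I.mix (nat_lit 17240550) (nat_lit 71940500)) (xR T0.l23 (xR T0.l3 (xR T0.l3 T0.l3)))
  TrL.n)))))))) (by decide +kernel)
theorem bx2_1 : BoxOK sI cl9 cl4 cl13 t0 t5 b2_1 :=
  box_mk (TrL.c (I.pos (nat_lit 0) (nat_lit 0)) T5.l5
  (TrL.c (I.pos (nat_lit 0) (nat_lit 0)) T0.l7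
  (TrL.c (I.mix (nat_lit 17240550) (nat_lit 96881482)) (xR T5.l16 (xR T5.l6 (xR T5.l6 T5.l6)))
  (TrL.c (I.mix (nat_lit 17240550) (nat_lit 71940500)) (xR T0.l50 T0.l7)
  TrL.n)))) (by decide +kernel)
theorem bx2_2 : BoxOK sI cl9 cl4 cl13 t0 t5 b2_2 :=
  box_mk (TrL.c (I.pos (nat_lit 0) (nat_lit 0)) (xb (xa T0.l6 T0.l10) T0.l6)
  (TrL.c (I.pos (nat_lit 0) (nat_lit 0)) T5.l5
  (TrL.c (I.pos (nat_lit 0) (nat_lit 124588530)) (xR T0.l27 (xR T0.l7 (xR T0.l7 T0.l7)))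
  (TrL.c (I.pos (nat_lit 0) (nat_lit 96881482)) (xR T5.l16 (xR T5.l6 (xR T5.l6 T5.l6)))
  (TrL.c (I.pos (nat_lit 0) (nat_lit 0)) T5.l7
  (TrL.c (I.pos (nat_lit 0) (nat_lit 0)) T0.l8
  (TrL.c (I.mix (nat_lit 17240550) (nat_lit 96881482)) (xR T5.l16 (xR T5.l8 (xR T5.l8 T5.l8)))
  (TrL.c (I.mix (nat_lit 17240550) (nat_lit 71940500)) T0.l50
  TrL.n)))))))) (by decide +kernel)
theorem bx2_3 : BoxOK sI cl9 cl4 cl13 t0 t5 b2_3 :=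
  box_mk (TrL.c (I.pos (nat_lit 0) (nat_lit 0)) (xa (xb T0.l10 T0.l10) (xb T0.l10 T0.l10))
  (TrL.c (I.pos (nat_lit 0) (nat_lit 0)) T5.l9
  (TrL.c (I.pos (nat_lit 0) (nat_lit 124588530)) (xR T0.l50 (xR T0.l11 (xR T0.l11 T0.l11)))
  (TrL.c (I.pos (nat_lit 0) (nat_lit 96881482)) (xR (xR T5.l6 T5.l6) (xR T5.l6 (xR T5.l10 T5.l10)))
  (TrL.c (I.pos (nat_lit 0) (nat_lit 0)) T5.l11
  (TrL.c (I.pos (nat_lit 0) (nat_lit 0)) T0.l12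
  (TrL.c (I.mix (nat_lit 17240550) (nat_lit 96881482)) (xR T5.l16 (xR T5.l12 (xR T5.l12 T5.l12)))
  (TrL.c (I.mix (nat_lit 17240550) (nat_lit 71940500)) T0.l50
  TrL.n)))))))) (by decide +kernel)
theorem bx2_4 : BoxOK sI cl9 cl4 cl13 t0 t5 b2_4 :=
  box_mk (TrL.c (I.pos (nat_lit 0) (nat_lit 0)) (xa (xb T0.l14 (xa (xb T0.l14 T0.l14) (xb T0.l14 T0.l14))) (xb (xa T0.l14 T0.l14) (xa (xb T0.l14 T0.l14) (xb T0.l14 (xs T0.l14 T0.l14)))))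
  (TrL.c (I.pos (nat_lit 0) (nat_lit 0)) (xk (xb T5.l13 T5.l13) T5.l13)
  (TrL.c (I.pos (nat_lit 0) (nat_lit 124588530)) (xR T0.l15 (xR T0.l15 (xR T0.l15 T0.l15)))
  (TrL.c (I.pos (nat_lit 0) (nat_lit 96881482)) (xR (xR T5.l2 T5.l14) (xR T5.l14 (xR T5.l14 T5.l14)))
  (TrL.c (I.pos (nat_lit 0) (nat_lit 0)) (xb (xk T5.l15 T5.l15) (xk (xa T5.l15 (xk T5.l15 T5.l15)) (xa T5.l15 (xb T5.l15 (xk T5.l15 T5.l15)))))
  (TrL.c (I.pos (nat_lit 0) (nat_lit 0)) T0.l16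
  (TrL.c (I.mix (nat_lit 17240550) (nat_lit 96881482)) (xR T5.l16 (xR T5.l16 (xR T5.l16 T5.l16)))
  (TrL.c (I.mix (nat_lit 17240550) (nat_lit 71940500)) (xR T0.l23 (xR T0.l23 T0.l33))
  TrL.n)))))))) (by decide +kernel)
theorem bx2_5 : BoxOK sI cl9 cl4 cl13 t0 t5 b2_5 :=
  box_mk (TrL.c (I.pos (nat_lit 0) (nat_lit 0)) T5.l9
  (TrL.c (I.pos (nat_lit 0) (nat_lit 0)) T0.l11
  (TrL.c (I.mix (nat_lit 17240550) (nat_lit 96881482)) (xR T5.l16 (xR T5.l17 (xR T5.l17 T5.l17)))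
  (TrL.c (I.mix (nat_lit 17240550) (nat_lit 71940500)) (xR T0.l50 T0.l7)
  TrL.n)))) (by decide +kernel)
theorem bx2_6 : BoxOK sI cl9 cl4 cl13 t0 t5 b2_6 :=
  box_mk (TrL.c (I.pos (nat_lit 0) (nat_lit 0)) (xa T0.l0 T0.l0)
  (TrL.c (I.pos (nat_lit 0) (nat_lit 0)) (xk (xa T5.l1 T5.l1) (xa T5.l1 T5.l1))
  (TrL.c (I.pos (nat_lit 0) (nat_lit 124588530)) (xR (xR T0.l15 T0.l1) (xR T0.l1 T0.l22))
  (TrL.c (I.pos (nat_lit 0) (nat_lit 96881482)) (xR (xR T5.l2 T5.l2) (xR T5.l2 (xR T5.l2 T5.l2)))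
  (TrL.c (I.pos (nat_lit 0) (nat_lit 0)) (xb (xa (xk T5.l3 T5.l3) (xk (xb T5.l3 T5.l3) T5.l3)) (xa T5.l3 (xk (xa T5.l3 T5.l3) (xb T5.l3 (xa T5.l3 T5.l3)))))
  (TrL.c (I.pos (nat_lit 0) (nat_lit 0)) (xk T0.l2 T0.l2)
  (TrL.c (I.mix (nat_lit 17240550) (nat_lit 96881482)) (xR (xR T5.l4 T5.l4) (xR T5.l4 (xR T5.l4 (xk (xR T5.l4 T5.l4) T5.l4))))
  (TrL.c (I.mix (nat_lit 17240550) (nat_lit 71940500)) (xR T0.l23 (xR T0.l3 T0.l3))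
  TrL.n)))))))) (by decide +kernel)
theorem bx2_7 : BoxOK sI cl9 cl4 cl13 t0 t5 b2_7 :=
  box_mk (TrL.c (I.pos (nat_lit 0) (nat_lit 0)) T5.l5
  (TrL.c (I.pos (nat_lit 0) (nat_lit 0)) T0.l4
  (TrL.c (I.mix (nat_lit 17240550) (nat_lit 96881482)) (xR T5.l6 T5.l12)
  (TrL.c (I.mix (nat_lit 17240550) (nat_lit 71940500)) T0.l50
  TrL.n)))) (by decide +kernel)
theorem bx2_8 : BoxOK sI cl9 cl4 cl13 t0 t5 b2_8 :=
  box_mk (TrL.c (I.pos (nat_lit 0) (nat_lit 0)) T0.l6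
  (TrL.c (I.pos (nat_lit 0) (nat_lit 0)) T5.l5
  (TrL.c (I.pos (nat_lit 0) (nat_lit 124588530)) (xR T0.l9 (xR T0.l7 (xR T0.l7 T0.l7)))
  (TrL.c (I.pos (nat_lit 0) (nat_lit 96881482)) (xR T5.l6 T5.l12)
  (TrL.c (I.pos (nat_lit 0) (nat_lit 0)) T5.l7
  (TrL.c (I.pos (nat_lit 0) (nat_lit 0)) T0.l8
  (TrL.c (I.mix (nat_lit 17240550) (nat_lit 96881482)) (xR T5.l6 (xR T5.l8 T5.l8))
  (TrL.c (I.mix (nat_lit 17240550) (nat_lit 71940500)) T0.l50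
  TrL.n)))))))) (by decide +kernel)
theorem bx2_9 : BoxOK sI cl9 cl4 cl13 t0 t5 b2_9 :=
  box_mk (TrL.c (I.pos (nat_lit 0) (nat_lit 0)) T0.l0
  (TrL.c (I.pos (nat_lit 0) (nat_lit 0)) T5.l1
  (TrL.c (I.pos (nat_lit 0) (nat_lit 124588530)) (xR T0.l15 (xR T0.l1 T0.l1))
  (TrL.c (I.pos (nat_lit 0) (nat_lit 96881482)) (xR (xR T5.l2 T5.l2) (xR T5.l2 T5.l2))
  (TrL.c (I.pos (nat_lit 0) (nat_lit 0)) T5.l3
  (TrL.c (I.pos (nat_lit 0) (nat_lit 0)) T0.l2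
  (TrL.c (I.mix (nat_lit 17240550) (nat_lit 96881482)) (xR T5.l16 (xR T5.l4 T5.l4))
  (TrL.c (I.mix (nat_lit 17240550) (nat_lit 71940500)) (xR T0.l23 T0.l3)
  TrL.n)))))))) (by decide +kernel)
theorem bx2_10 : BoxOK sI cl9 cl4 cl13 t0 t5 b2_10 :=
  box_mk (TrL.c (I.pos (nat_lit 0) (nat_lit 0)) T5.l5
  (TrL.c (I.pos (nat_lit 0) (nat_lit 0)) T0.l4
  (TrL.c (I.mix (nat_lit 17240550) (nat_lit 96881482)) (xR T5.l6 T5.l8)
  (TrL.c (I.mix (nat_lit 17240550) (nat_lit 71940500)) T0.l50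
  TrL.n)))) (by decide +kernel)
theorem bx2_11 : BoxOK sI cl9 cl4 cl13 t0 t5 b2_11 :=
  box_mk (TrL.c (I.pos (nat_lit 0) (nat_lit 0)) T0.l6
  (TrL.c (I.pos (nat_lit 0) (nat_lit 0)) T5.l5
  (TrL.c (I.pos (nat_lit 0) (nat_lit 124588530)) (xR T0.l9 T0.l7)
  (TrL.c (I.pos (nat_lit 0) (nat_lit 96881482)) (xR T5.l6 T5.l8)
  (TrL.c (I.pos (nat_lit 0) (nat_lit 0)) T5.l7
  (TrL.c (I.pos (nat_lit 0) (nat_lit 0)) T0.l8
  (TrL.c (I.mix (nat_lit 17240550) (nat_lit 96881482)) (xR T5.l6 T5.l12)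
  (TrL.c (I.mix (nat_lit 17240550) (nat_lit 71940500)) T0.l31
  TrL.n)))))))) (by decide +kernel)
theorem bx2_12 : BoxOK sI cl9 cl4 cl13 t0 t5 b2_12 :=
  box_mk (TrL.c (I.pos (nat_lit 0) (nat_lit 0)) T0.l0
  (TrL.c (I.pos (nat_lit 0) (nat_lit 0)) (xk T5.l1 T5.l1)
  (TrL.c (I.pos (nat_lit 0) (nat_lit 124588530)) (xR (xR T0.l15 T0.l1) T0.l22)
  (TrL.c (I.pos (nat_lit 0) (nat_lit 96881482)) (xR (xR T5.l2 T5.l2) (xR T5.l2 T5.l2))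
  (TrL.c (I.pos (nat_lit 0) (nat_lit 0)) (xk (xb (xa T5.l3 T5.l3) T5.l3) (xb (xa T5.l3 T5.l3) T5.l3))
  (TrL.c (I.pos (nat_lit 0) (nat_lit 0)) T0.l2
  (TrL.c (I.mix (nat_lit 17240550) (nat_lit 96881482)) (xR T5.l16 (xR T5.l4 (xR T5.l4 (xk T5.l4 T5.l4))))
  (TrL.c (I.mix (nat_lit 17240550) (nat_lit 71940500)) (xR T0.l23 T0.l20)
  TrL.n)))))))) (by decide +kernel)
theorem bx2_13 : BoxOK sI cl9 cl4 cl13 t0 t5 b2_13 :=
  box_mk (TrL.c (I.pos (nat_lit 0) (nat_lit 0)) T5.l5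
  (TrL.c (I.pos (nat_lit 0) (nat_lit 0)) T0.l4
  (TrL.c (I.mix (nat_lit 17240550) (nat_lit 96881482)) (xR T5.l6 T5.l8)
  (TrL.c (I.mix (nat_lit 17240550) (nat_lit 71940500)) T0.l50
  TrL.n)))) (by decide +kernel)
theorem bx2_14 : BoxOK sI cl9 cl4 cl13 t0 t5 b2_14 :=
  box_mk (TrL.c (I.pos (nat_lit 0) (nat_lit 0)) T0.l6
  (TrL.c (I.pos (nat_lit 0) (nat_lit 0)) T5.l5
  (TrL.c (I.pos (nat_lit 0) (nat_lit 124588530)) (xR T0.l7 (xR T0.l7 (xR T0.l7 T0.l7)))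
  (TrL.c (I.pos (nat_lit 0) (nat_lit 96881482)) (xR T5.l6 T5.l8)
  (TrL.c (I.pos (nat_lit 0) (nat_lit 0)) T5.l7
  (TrL.c (I.pos (nat_lit 0) (nat_lit 0)) T0.l8
  (TrL.c (I.mix (nat_lit 17240550) (nat_lit 96881482)) (xR T5.l6 T5.l12)
  (TrL.c (I.mix (nat_lit 17240550) (nat_lit 71940500)) T0.l50
  TrL.n)))))))) (by decide +kernel)
theorem bx2_15 : BoxOK sI cl9 cl4 cl13 t0 t5 b2_15 :=
  box_mk (TrL.c (I.pos (nat_lit 0) (nat_lit 0)) T0.l0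
  (TrL.c (I.pos (nat_lit 0) (nat_lit 0)) T5.l1
  (TrL.c (I.pos (nat_lit 0) (nat_lit 124588530)) (xR T0.l15 T0.l22)
  (TrL.c (I.pos (nat_lit 0) (nat_lit 96881482)) (xR (xR T5.l2 T5.l2) (xR T5.l2 T5.l2))
  (TrL.c (I.pos (nat_lit 0) (nat_lit 0)) T5.l3
  (TrL.c (I.pos (nat_lit 0) (nat_lit 0)) T0.l2
  (TrL.c (I.mix (nat_lit 17240550) (nat_lit 96881482)) (xR T5.l16 (xR T5.l4 T5.l4))
  (TrL.c (I.mix (nat_lit 17240550) (nat_lit 71940500)) (xR T0.l3 T0.l3)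
  TrL.n)))))))) (by decide +kernel)
theorem bx2_16 : BoxOK sI cl9 cl4 cl13 t0 t5 b2_16 :=
  box_mk (TrL.c (I.pos (nat_lit 0) (nat_lit 0)) T5.l5
  (TrL.c (I.pos (nat_lit 0) (nat_lit 0)) T0.l4
  (TrL.c (I.mix (nat_lit 17240550) (nat_lit 96881482)) (xR T5.l6 T5.l8)
  (TrL.c (I.mix (nat_lit 17240550) (nat_lit 71940500)) T0.l50
  TrL.n)))) (by decide +kernel)
theorem bx2_17 : BoxOK sI cl9 cl4 cl13 t0 t5 b2_17 :=
  box_mk (TrL.c (I.pos (nat_lit 0) (nat_lit 0)) T0.l6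
  (TrL.c (I.pos (nat_lit 0) (nat_lit 0)) T5.l5
  (TrL.c (I.pos (nat_lit 0) (nat_lit 124588530)) (xR T0.l7 T0.l7)
  (TrL.c (I.pos (nat_lit 0) (nat_lit 96881482)) (xR T5.l6 T5.l8)
  (TrL.c (I.pos (nat_lit 0) (nat_lit 0)) T5.l7
  (TrL.c (I.pos (nat_lit 0) (nat_lit 0)) T0.l8
  (TrL.c (I.mix (nat_lit 17240550) (nat_lit 96881482)) (xR T5.l6 T5.l8)
  (TrL.c (I.mix (nat_lit 17240550) (nat_lit 71940500)) T0.l31
  TrL.n)))))))) (by decide +kernel)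
theorem bx2_18 : BoxOK sI cl9 cl4 cl13 t0 t5 b2_18 :=
  box_mk (TrL.c (I.pos (nat_lit 0) (nat_lit 0)) T0.l0
  (TrL.c (I.pos (nat_lit 0) (nat_lit 0)) T5.l1
  (TrL.c (I.pos (nat_lit 0) (nat_lit 124588530)) (xR (xR T0.l15 T0.l1) T0.l22)
  (TrL.c (I.pos (nat_lit 0) (nat_lit 96881482)) (xR (xR T5.l2 T5.l2) T5.l2)
  (TrL.c (I.pos (nat_lit 0) (nat_lit 0)) T5.l0
  (TrL.c (I.pos (nat_lit 0) (nat_lit 0)) T0.l2
  (TrL.c (I.mix (nat_lit 17240550) (nat_lit 96881482)) (xR T5.l16 (xR T5.l4 (xR T5.l4 T5.l4)))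
  (TrL.c (I.mix (nat_lit 17240550) (nat_lit 71940500)) (xR T0.l23 T0.l20)
  TrL.n)))))))) (by decide +kernel)
theorem bx2_19 : BoxOK sI cl9 cl4 cl13 t0 t5 b2_19 :=
  box_mk (TrL.c (I.pos (nat_lit 0) (nat_lit 0)) T5.l5
  (TrL.c (I.pos (nat_lit 0) (nat_lit 0)) T0.l4
  (TrL.c (I.mix (nat_lit 17240550) (nat_lit 96881482)) (xR T5.l6 T5.l8)
  (TrL.c (I.mix (nat_lit 17240550) (nat_lit 71940500)) T0.l50
  TrL.n)))) (by decide +kernel)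
theorem bx2_20 : BoxOK sI cl9 cl4 cl13 t0 t5 b2_20 :=
  box_mk (TrL.c (I.pos (nat_lit 0) (nat_lit 0)) T0.l6
  (TrL.c (I.pos (nat_lit 0) (nat_lit 0)) T5.l5
  (TrL.c (I.pos (nat_lit 0) (nat_lit 124588530)) (xR T0.l7 (xR T0.l7 T0.l7))
  (TrL.c (I.pos (nat_lit 0) (nat_lit 96881482)) (xR T5.l6 T5.l8)
  (TrL.c (I.pos (nat_lit 0) (nat_lit 0)) T5.l7
  (TrL.c (I.pos (nat_lit 0) (nat_lit 0)) T0.l8
  (TrL.c (I.mix (nat_lit 17240550) (nat_lit 96881482)) (xR T5.l6 T5.l8)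
  (TrL.c (I.mix (nat_lit 17240550) (nat_lit 71940500)) T0.l50
  TrL.n)))))))) (by decide +kernel)
theorem bx2_21 : BoxOK sI cl9 cl4 cl13 t0 t5 b2_21 :=
  box_mk (TrL.c (I.pos (nat_lit 0) (nat_lit 0)) T0.l0
  (TrL.c (I.pos (nat_lit 0) (nat_lit 0)) T5.l1
  (TrL.c (I.pos (nat_lit 0) (nat_lit 124588530)) (xR T0.l15 (xR T0.l1 T0.l1))
  (TrL.c (I.pos (nat_lit 0) (nat_lit 96881482)) (xR (xR T5.l2 T5.l2) (xR T5.l2 T5.l2))
  (TrL.c (I.pos (nat_lit 0) (nat_lit 0)) T5.l3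
  (TrL.c (I.pos (nat_lit 0) (nat_lit 0)) T0.l2
  (TrL.c (I.mix (nat_lit 17240550) (nat_lit 96881482)) (xR T5.l16 (xR T5.l4 T5.l4))
  (TrL.c (I.mix (nat_lit 17240550) (nat_lit 71940500)) (xR T0.l23 T0.l3)
  TrL.n)))))))) (by decide +kernel)
theorem bx2_22 : BoxOK sI cl9 cl4 cl13 t0 t5 b2_22 :=
  box_mk (TrL.c (I.pos (nat_lit 0) (nat_lit 0)) T5.l5
  (TrL.c (I.pos (nat_lit 0) (nat_lit 0)) T0.l4
  (TrL.c (I.mix (nat_lit 17240550) (nat_lit 96881482)) (xR T5.l6 T5.l8)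
  (TrL.c (I.mix (nat_lit 17240550) (nat_lit 71940500)) T0.l50
  TrL.n)))) (by decide +kernel)
theorem bx2_23 : BoxOK sI cl9 cl4 cl13 t0 t5 b2_23 :=
  box_mk (TrL.c (I.pos (nat_lit 0) (nat_lit 0)) T0.l6
  (TrL.c (I.pos (nat_lit 0) (nat_lit 0)) T5.l5
  (TrL.c (I.pos (nat_lit 0) (nat_lit 124588530)) (xR T0.l11 T0.l7)
  (TrL.c (I.pos (nat_lit 0) (nat_lit 96881482)) (xR T5.l8 T5.l8)
  (TrL.c (I.pos (nat_lit 0) (nat_lit 0)) T5.l7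
  (TrL.c (I.pos (nat_lit 0) (nat_lit 0)) T0.l8
  (TrL.c (I.mix (nat_lit 17240550) (nat_lit 96881482)) (xR T5.l6 T5.l12)
  (TrL.c (I.mix (nat_lit 17240550) (nat_lit 71940500)) T0.l31
  TrL.n)))))))) (by decide +kernel)
theorem bx2_24 : BoxOK sI cl9 cl4 cl13 t0 t5 b2_24 :=
  box_mk (TrL.c (I.pos (nat_lit 0) (nat_lit 0)) T5.l5
  (TrL.c (I.pos (nat_lit 0) (nat_lit 0)) T0.l4
  (TrL.c (I.mix (nat_lit 17240550) (nat_lit 96881482)) (xR T5.l6 T5.l8)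
  (TrL.c (I.mix (nat_lit 17240550) (nat_lit 71940500)) T0.l50
  TrL.n)))) (by decide +kernel)
theorem bx2_25 : BoxOK sI cl9 cl4 cl13 t0 t5 b2_25 :=
  box_mk (TrL.c (I.pos (nat_lit 0) (nat_lit 0)) T0.l6
  (TrL.c (I.pos (nat_lit 0) (nat_lit 0)) T5.l5
  (TrL.c (I.pos (nat_lit 0) (nat_lit 124588530)) (xR T0.l7 (xR T0.l7 (xR T0.l7 T0.l7)))
  (TrL.c (I.pos (nat_lit 0) (nat_lit 96881482)) (xR T5.l6 T5.l8)
  (TrL.c (I.pos (nat_lit 0) (nat_lit 0)) T5.l7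
  (TrL.c (I.pos (nat_lit 0) (nat_lit 0)) T0.l8
  (TrL.c (I.mix (nat_lit 17240550) (nat_lit 96881482)) (xR T5.l6 T5.l12)
  (TrL.c (I.mix (nat_lit 17240550) (nat_lit 71940500)) T0.l50
  TrL.n)))))))) (by decide +kernel)
theorem bx2_26 : BoxOK sI cl9 cl4 cl13 t0 t5 b2_26 :=
  box_mk (TrL.c (I.pos (nat_lit 0) (nat_lit 0)) (xa (xb T0.l0 (xa T0.l0 T0.l0)) (xb T0.l0 (xa T0.l0 T0.l0)))
  (TrL.c (I.pos (nat_lit 0) (nat_lit 0)) (xa (xb T5.l19 T5.l1) (xk (xb T5.l1 T5.l1) T5.l19))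
  (TrL.c (I.pos (nat_lit 0) (nat_lit 124588530)) (xR (xR T0.l15 T0.l1) (xR T0.l1 (xR T0.l1 T0.l22)))
  (TrL.c (I.pos (nat_lit 0) (nat_lit 96881482)) (xR (xR (xR T5.l2 T5.l2) T5.l2) (xR T5.l2 (xR T5.l2 T5.l2)))
  (TrL.c (I.pos (nat_lit 0) (nat_lit 0)) (xb (xa (xk (xb T5.l3 T5.l3) (xb T5.l3 T5.l3)) (xk (xb (xa T5.l3 T5.l3) (xa T5.l3 T5.l3)) (xb (xa T5.l3 T5.l3) T5.l3))) (xa (xk T5.l3 T5.l3) (xk (xb (xa T5.l3 T5.l3) (xa T5.l3 (xk T5.l3 T5.l3))) (xb (xa T5.l3 T5.l3) (xa T5.l3 (xk T5.l3 (xs T5.l3 T5.l3)))))))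
  (TrL.c (I.pos (nat_lit 0) (nat_lit 0)) (xk (xb T0.l2 T0.l2) (xb T0.l2 T0.l2))
  (TrL.c (I.mix (nat_lit 17240550) (nat_lit 96881482)) (xR (xR T5.l4 T5.l4) (xR T5.l4 (xR T5.l4 (xk (xb (xR T5.l4 T5.l4) (xR T5.l4 T5.l4)) T5.l4))))
  (TrL.c (I.mix (nat_lit 17240550) (nat_lit 71940500)) (xR T0.l23 (xR T0.l3 (xR T0.l3 T0.l3)))
  TrL.n)))))))) (by decide +kernel)
theorem bx2_27 : BoxOK sI cl9 cl4 cl13 t0 t5 b2_27 :=
  box_mk (TrL.c (I.pos (nat_lit 0) (nat_lit 0)) T5.l5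
  (TrL.c (I.pos (nat_lit 0) (nat_lit 0)) T0.l4
  (TrL.c (I.mix (nat_lit 17240550) (nat_lit 96881482)) (xR T5.l16 T5.l12)
  (TrL.c (I.mix (nat_lit 17240550) (nat_lit 71940500)) T0.l50
  TrL.n)))) (by decide +kernel)
theorem bx2_28 : BoxOK sI cl9 cl4 cl13 t0 t5 b2_28 :=
  box_mk (TrL.c (I.pos (nat_lit 0) (nat_lit 0)) T0.l6
  (TrL.c (I.pos (nat_lit 0) (nat_lit 0)) T5.l5
  (TrL.c (I.pos (nat_lit 0) (nat_lit 124588530)) (xR T0.l9 (xR T0.l7 (xR T0.l7 T0.l7)))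
  (TrL.c (I.pos (nat_lit 0) (nat_lit 96881482)) (xR T5.l6 T5.l12)
  (TrL.c (I.pos (nat_lit 0) (nat_lit 0)) T5.l7
  (TrL.c (I.pos (nat_lit 0) (nat_lit 0)) T0.l8
  (TrL.c (I.mix (nat_lit 17240550) (nat_lit 96881482)) (xR T5.l6 (xR T5.l8 T5.l8))
  (TrL.c (I.mix (nat_lit 17240550) (nat_lit 71940500)) T0.l50
  TrL.n)))))))) (by decide +kernel)
theorem bx2_29 : BoxOK sI cl9 cl4 cl13 t0 t5 b2_29 :=
  box_mk (TrL.c (I.pos (nat_lit 0) (nat_lit 0)) (xa T0.l10 T0.l10)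
  (TrL.c (I.pos (nat_lit 0) (nat_lit 0)) T5.l9
  (TrL.c (I.pos (nat_lit 0) (nat_lit 124588530)) (xR T0.l27 (xR T0.l11 (xR T0.l11 T0.l11)))
  (TrL.c (I.pos (nat_lit 0) (nat_lit 96881482)) (xR (xR T5.l6 T5.l6) (xR T5.l10 (xR T5.l10 T5.l10)))
  (TrL.c (I.pos (nat_lit 0) (nat_lit 0)) T5.l11
  (TrL.c (I.pos (nat_lit 0) (nat_lit 0)) T0.l12
  (TrL.c (I.mix (nat_lit 17240550) (nat_lit 96881482)) (xR T5.l4 (xR T5.l12 (xR T5.l12 T5.l12)))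
  (TrL.c (I.mix (nat_lit 17240550) (nat_lit 71940500)) T0.l50
  TrL.n)))))))) (by decide +kernel)
theorem bx2_30 : BoxOK sI cl9 cl4 cl13 t0 t5 b2_30 :=
  box_mk (TrL.c (I.pos (nat_lit 0) (nat_lit 0)) (xb T0.l14 (xa T0.l14 T0.l14))
  (TrL.c (I.pos (nat_lit 0) (nat_lit 0)) T5.l13
  (TrL.c (I.pos (nat_lit 0) (nat_lit 124588530)) (xR T0.l15 (xR T0.l15 (xR T0.l15 T0.l15)))
  (TrL.c (I.pos (nat_lit 0) (nat_lit 96881482)) (xR (xR T5.l6 T5.l14) (xR T5.l14 (xR T5.l14 T5.l14)))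
  (TrL.c (I.pos (nat_lit 0) (nat_lit 0)) T5.l15
  (TrL.c (I.pos (nat_lit 0) (nat_lit 0)) T0.l16
  (TrL.c (I.mix (nat_lit 17240550) (nat_lit 96881482)) (xR T5.l16 (xR T5.l16 (xR T5.l16 T5.l16)))
  (TrL.c (I.mix (nat_lit 17240550) (nat_lit 71940500)) (xR T0.l23 T0.l20)
  TrL.n)))))))) (by decide +kernel)
theorem bx2_31 : BoxOK sI cl9 cl4 cl13 t0 t5 b2_31 :=
  box_mk (TrL.c (I.pos (nat_lit 0) (nat_lit 0)) T5.l9
  (TrL.c (I.pos (nat_lit 0) (nat_lit 0)) T0.l11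
  (TrL.c (I.mix (nat_lit 17240550) (nat_lit 96881482)) (xR (xR T5.l17 T5.l17) (xR T5.l17 (xR T5.l17 T5.l17)))
  (TrL.c (I.mix (nat_lit 17240550) (nat_lit 71940500)) (xR T0.l50 T0.l22)
  TrL.n)))) (by decide +kernel)
theorem bx2_32 : BoxOK sI cl9 cl4 cl13 t0 t5 b2_32 :=
  box_mk (TrL.c (I.pos (nat_lit 0) (nat_lit 0)) T0.l10
  (TrL.c (I.pos (nat_lit 0) (nat_lit 0)) T5.l9
  (TrL.c (I.pos (nat_lit 0) (nat_lit 124588530)) (xR T0.l22 (xR T0.l11 (xR T0.l11 T0.l11)))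
  (TrL.c (I.pos (nat_lit 0) (nat_lit 96881482)) (xR T5.l8 (xR T5.l10 T5.l10))
  (TrL.c (I.pos (nat_lit 0) (nat_lit 0)) T5.l11
  (TrL.c (I.pos (nat_lit 0) (nat_lit 0)) T0.l12
  (TrL.c (I.mix (nat_lit 17240550) (nat_lit 96881482)) (xR T5.l4 T5.l12)
  (TrL.c (I.mix (nat_lit 17240550) (nat_lit 71940500)) T0.l50
  TrL.n)))))))) (by decide +kernel)
theorem bx2_33 : BoxOK sI cl9 cl4 cl13 t0 t5 b2_33 :=
  box_mk (TrL.c (I.pos (nat_lit 0) (nat_lit 0)) T0.l14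
  (TrL.c (I.pos (nat_lit 0) (nat_lit 0)) T5.l13
  (TrL.c (I.pos (nat_lit 0) (nat_lit 124588530)) (xR T0.l15 (xR T0.l15 T0.l15))
  (TrL.c (I.pos (nat_lit 0) (nat_lit 96881482)) (xR (xR T5.l2 T5.l14) (xR T5.l14 T5.l14))
  (TrL.c (I.pos (nat_lit 0) (nat_lit 0)) T5.l15
  (TrL.c (I.pos (nat_lit 0) (nat_lit 0)) T0.l16
  (TrL.c (I.mix (nat_lit 17240550) (nat_lit 96881482)) (xR T5.l16 (xR T5.l16 T5.l16))
  (TrL.c (I.mix (nat_lit 17240550) (nat_lit 71940500)) (xR T0.l23 T0.l3)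
  TrL.n)))))))) (by decide +kernel)
theorem bx2_34 : BoxOK sI cl9 cl4 cl13 t0 t5 b2_34 :=
  box_mk (TrL.c (I.pos (nat_lit 0) (nat_lit 0)) T5.l9
  (TrL.c (I.pos (nat_lit 0) (nat_lit 0)) T0.l17
  (TrL.c (I.mix (nat_lit 17240550) (nat_lit 96881482)) (xR T5.l16 (xR T5.l17 T5.l17))
  (TrL.c (I.mix (nat_lit 17240550) (nat_lit 71940500)) (xR T0.l50 T0.l7)
  TrL.n)))) (by decide +kernel)
theorem bx2_35 : BoxOK sI cl9 cl4 cl13 t0 t5 b2_35 :=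
  box_mk (TrL.c (I.pos (nat_lit 0) (nat_lit 0)) T0.l10
  (TrL.c (I.pos (nat_lit 0) (nat_lit 0)) T5.l9
  (TrL.c (I.pos (nat_lit 0) (nat_lit 124588530)) (xR T0.l27 (xR T0.l11 T0.l11))
  (TrL.c (I.pos (nat_lit 0) (nat_lit 96881482)) (xR (xR T5.l6 T5.l6) (xR T5.l10 (xR T5.l10 T5.l10)))
  (TrL.c (I.pos (nat_lit 0) (nat_lit 0)) T5.l11
  (TrL.c (I.pos (nat_lit 0) (nat_lit 0)) T0.l12
  (TrL.c (I.mix (nat_lit 17240550) (nat_lit 96881482)) (xR T5.l4 (xR T5.l12 (xR T5.l12 T5.l12)))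
  (TrL.c (I.mix (nat_lit 17240550) (nat_lit 71940500)) T0.l31
  TrL.n)))))))) (by decide +kernel)
theorem bx2_36 : BoxOK sI cl9 cl4 cl13 t0 t5 b2_36 :=
  box_mk (TrL.c (I.pos (nat_lit 0) (nat_lit 0)) (xb T0.l14 T0.l14)
  (TrL.c (I.pos (nat_lit 0) (nat_lit 0)) T5.l13
  (TrL.c (I.pos (nat_lit 0) (nat_lit 124588530)) (xR T0.l15 (xR T0.l15 (xR T0.l15 T0.l15)))
  (TrL.c (I.pos (nat_lit 0) (nat_lit 96881482)) (xR (xR T5.l6 T5.l14) (xR T5.l14 (xR T5.l14 T5.l14)))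
  (TrL.c (I.pos (nat_lit 0) (nat_lit 0)) T5.l15
  (TrL.c (I.pos (nat_lit 0) (nat_lit 0)) T0.l16
  (TrL.c (I.mix (nat_lit 17240550) (nat_lit 96881482)) (xR T5.l16 (xR T5.l16 (xR T5.l16 T5.l16)))
  (TrL.c (I.mix (nat_lit 17240550) (nat_lit 71940500)) (xR T0.l23 T0.l20)
  TrL.n)))))))) (by decide +kernel)
theorem bx2_37 : BoxOK sI cl9 cl4 cl13 t0 t5 b2_37 :=
  box_mk (TrL.c (I.pos (nat_lit 0) (nat_lit 0)) T5.l9
  (TrL.c (I.pos (nat_lit 0) (nat_lit 0)) T0.l17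
  (TrL.c (I.mix (nat_lit 17240550) (nat_lit 96881482)) (xR (xR T5.l17 T5.l17) (xR T5.l17 (xR T5.l17 T5.l17)))
  (TrL.c (I.mix (nat_lit 17240550) (nat_lit 71940500)) (xR T0.l50 T0.l22)
  TrL.n)))) (by decide +kernel)
theorem bx2_38 : BoxOK sI cl9 cl4 cl13 t0 t5 b2_38 :=
  box_mk (TrL.c (I.pos (nat_lit 0) (nat_lit 0)) T0.l10
  (TrL.c (I.pos (nat_lit 0) (nat_lit 0)) T5.l9
  (TrL.c (I.pos (nat_lit 0) (nat_lit 124588530)) (xR T0.l15 (xR T0.l11 T0.l11))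
  (TrL.c (I.pos (nat_lit 0) (nat_lit 96881482)) (xR (xR T5.l6 T5.l6) (xR T5.l10 T5.l10))
  (TrL.c (I.pos (nat_lit 0) (nat_lit 0)) T5.l11
  (TrL.c (I.pos (nat_lit 0) (nat_lit 0)) T0.l12
  (TrL.c (I.mix (nat_lit 17240550) (nat_lit 96881482)) (xR T5.l12 (xR T5.l12 T5.l12))
  (TrL.c (I.mix (nat_lit 17240550) (nat_lit 71940500)) T0.l31
  TrL.n)))))))) (by decide +kernel)
theorem bx2_39 : BoxOK sI cl9 cl4 cl13 t0 t5 b2_39 :=
  box_mk (TrL.c (I.pos (nat_lit 0) (nat_lit 0)) T0.l14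
  (TrL.c (I.pos (nat_lit 0) (nat_lit 0)) T5.l13
  (TrL.c (I.pos (nat_lit 0) (nat_lit 124588530)) (xR T0.l15 (xR T0.l15 T0.l15))
  (TrL.c (I.pos (nat_lit 0) (nat_lit 96881482)) (xR (xR T5.l6 T5.l14) (xR T5.l14 T5.l14))
  (TrL.c (I.pos (nat_lit 0) (nat_lit 0)) T5.l15
  (TrL.c (I.pos (nat_lit 0) (nat_lit 0)) T0.l16
  (TrL.c (I.mix (nat_lit 17240550) (nat_lit 96881482)) (xR T5.l16 (xR T5.l16 T5.l16))
  (TrL.c (I.mix (nat_lit 17240550) (nat_lit 71940500)) T0.l31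
  TrL.n)))))))) (by decide +kernel)
theorem bx2_40 : BoxOK sI cl9 cl4 cl13 t0 t5 b2_40 :=
  box_mk (TrL.c (I.pos (nat_lit 0) (nat_lit 0)) T5.l9
  (TrL.c (I.pos (nat_lit 0) (nat_lit 0)) T0.l17
  (TrL.c (I.mix (nat_lit 17240550) (nat_lit 96881482)) (xR (xR T5.l17 T5.l17) (xR T5.l17 (xR T5.l17 T5.l17)))
  (TrL.c (I.mix (nat_lit 17240550) (nat_lit 71940500)) (xR T0.l50 T0.l15)
  TrL.n)))) (by decide +kernel)
theorem bx2_41 : BoxOK sI cl9 cl4 cl13 t0 t5 b2_41 :=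
  box_mk (TrL.c (I.pos (nat_lit 0) (nat_lit 0)) T0.l10
  (TrL.c (I.pos (nat_lit 0) (nat_lit 0)) T5.l9
  (TrL.c (I.pos (nat_lit 0) (nat_lit 124588530)) (xR T0.l27 (xR T0.l11 (xR T0.l11 T0.l11)))
  (TrL.c (I.pos (nat_lit 0) (nat_lit 96881482)) (xR T5.l12 (xR T5.l10 T5.l10))
  (TrL.c (I.pos (nat_lit 0) (nat_lit 0)) T5.l11
  (TrL.c (I.pos (nat_lit 0) (nat_lit 0)) T0.l12
  (TrL.c (I.mix (nat_lit 17240550) (nat_lit 96881482)) (xR T5.l16 T5.l12)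
  (TrL.c (I.mix (nat_lit 17240550) (nat_lit 71940500)) T0.l50
  TrL.n)))))))) (by decide +kernel)
theorem bx2_42 : BoxOK sI cl9 cl4 cl13 t0 t5 b2_42 :=
  box_mk (TrL.c (I.pos (nat_lit 0) (nat_lit 0)) T0.l14
  (TrL.c (I.pos (nat_lit 0) (nat_lit 0)) T5.l13
  (TrL.c (I.pos (nat_lit 0) (nat_lit 124588530)) (xR T0.l15 (xR T0.l15 T0.l15))
  (TrL.c (I.pos (nat_lit 0) (nat_lit 96881482)) (xR (xR T5.l2 T5.l14) (xR T5.l14 T5.l14))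
  (TrL.c (I.pos (nat_lit 0) (nat_lit 0)) T5.l15
  (TrL.c (I.pos (nat_lit 0) (nat_lit 0)) T0.l16
  (TrL.c (I.mix (nat_lit 17240550) (nat_lit 96881482)) (xR T5.l16 (xR T5.l16 T5.l16))
  (TrL.c (I.mix (nat_lit 17240550) (nat_lit 71940500)) (xR T0.l23 T0.l3)
  TrL.n)))))))) (by decide +kernel)
theorem bx2_43 : BoxOK sI cl9 cl4 cl13 t0 t5 b2_43 :=
  box_mk (TrL.c (I.pos (nat_lit 0) (nat_lit 0)) T5.l9
  (TrL.c (I.pos (nat_lit 0) (nat_lit 0)) T0.l11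
  (TrL.c (I.mix (nat_lit 17240550) (nat_lit 96881482)) (xR T5.l16 (xR T5.l17 T5.l8))
  (TrL.c (I.mix (nat_lit 17240550) (nat_lit 71940500)) (xR T0.l50 T0.l7)
  TrL.n)))) (by decide +kernel)
theorem bx2_44 : BoxOK sI cl9 cl4 cl13 t0 t5 b2_44 :=
  box_mk (TrL.c (I.pos (nat_lit 0) (nat_lit 0)) (xa T0.l10 T0.l10)
  (TrL.c (I.pos (nat_lit 0) (nat_lit 0)) T5.l9
  (TrL.c (I.pos (nat_lit 0) (nat_lit 124588530)) (xR T0.l27 (xR T0.l11 (xR T0.l11 T0.l11)))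
  (TrL.c (I.pos (nat_lit 0) (nat_lit 96881482)) (xR (xR T5.l6 T5.l6) (xR T5.l10 (xR T5.l10 T5.l10)))
  (TrL.c (I.pos (nat_lit 0) (nat_lit 0)) T5.l11
  (TrL.c (I.pos (nat_lit 0) (nat_lit 0)) T0.l12
  (TrL.c (I.mix (nat_lit 17240550) (nat_lit 96881482)) (xR T5.l4 (xR T5.l12 (xR T5.l12 T5.l12)))
  (TrL.c (I.mix (nat_lit 17240550) (nat_lit 71940500)) T0.l31
  TrL.n)))))))) (by decide +kernel)
theorem bx2_45 : BoxOK sI cl9 cl4 cl13 t0 t5 b2_45 :=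
  box_mk (TrL.c (I.pos (nat_lit 0) (nat_lit 0)) (xb T0.l14 T0.l14)
  (TrL.c (I.pos (nat_lit 0) (nat_lit 0)) T5.l13
  (TrL.c (I.pos (nat_lit 0) (nat_lit 124588530)) (xR T0.l15 (xR T0.l15 (xR T0.l15 T0.l15)))
  (TrL.c (I.pos (nat_lit 0) (nat_lit 96881482)) (xR (xR T5.l6 T5.l14) (xR T5.l14 (xR T5.l14 T5.l14)))
  (TrL.c (I.pos (nat_lit 0) (nat_lit 0)) T5.l15
  (TrL.c (I.pos (nat_lit 0) (nat_lit 0)) T0.l16
  (TrL.c (I.mix (nat_lit 17240550) (nat_lit 96881482)) (xR T5.l16 (xR T5.l16 (xR T5.l16 T5.l16)))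
  (TrL.c (I.mix (nat_lit 17240550) (nat_lit 71940500)) (xR T0.l23 T0.l20)
  TrL.n)))))))) (by decide +kernel)
theorem bx2_46 : BoxOK sI cl9 cl4 cl13 t0 t5 b2_46 :=
  box_mk (TrL.c (I.pos (nat_lit 0) (nat_lit 0)) T5.l9
  (TrL.c (I.pos (nat_lit 0) (nat_lit 0)) T0.l17
  (TrL.c (I.mix (nat_lit 17240550) (nat_lit 96881482)) (xR (xR T5.l17 T5.l17) (xR T5.l17 (xR T5.l17 T5.l17)))
  (TrL.c (I.mix (nat_lit 17240550) (nat_lit 71940500)) (xR T0.l50 T0.l22)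
  TrL.n)))) (by decide +kernel)
theorem bx2_47 : BoxOK sI cl9 cl4 cl13 t0 t5 b2_47 :=
  box_mk (TrL.c (I.pos (nat_lit 0) (nat_lit 0)) (xb (xa T0.l10 T0.l10) T0.l10)
  (TrL.c (I.pos (nat_lit 0) (nat_lit 0)) T5.l9
  (TrL.c (I.pos (nat_lit 0) (nat_lit 124588530)) (xR T0.l27 (xR T0.l11 (xR T0.l11 T0.l11)))
  (TrL.c (I.pos (nat_lit 0) (nat_lit 96881482)) (xR (xR T5.l6 T5.l6) (xR T5.l10 (xR T5.l10 T5.l17)))
  (TrL.c (I.pos (nat_lit 0) (nat_lit 0)) T5.l11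
  (TrL.c (I.pos (nat_lit 0) (nat_lit 0)) T0.l12
  (TrL.c (I.mix (nat_lit 17240550) (nat_lit 96881482)) (xR T5.l16 (xR T5.l12 (xR T5.l12 T5.l12)))
  (TrL.c (I.mix (nat_lit 17240550) (nat_lit 71940500)) T0.l50
  TrL.n)))))))) (by decide +kernel)
theorem bx2_48 : BoxOK sI cl9 cl4 cl13 t0 t5 b2_48 :=
  box_mk (TrL.c (I.pos (nat_lit 0) (nat_lit 0)) (xb (xa T0.l14 T0.l14) (xa (xb T0.l14 T0.l14) (xb T0.l14 (xa T0.l14 T0.l14))))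
  (TrL.c (I.pos (nat_lit 0) (nat_lit 0)) (xk T5.l13 T5.l13)
  (TrL.c (I.pos (nat_lit 0) (nat_lit 124588530)) (xR T0.l15 (xR T0.l15 (xR T0.l15 T0.l15)))
  (TrL.c (I.pos (nat_lit 0) (nat_lit 96881482)) (xR (xR T5.l2 T5.l14) (xR T5.l14 (xR T5.l14 T5.l14)))
  (TrL.c (I.pos (nat_lit 0) (nat_lit 0)) (xb (xk (xb T5.l15 (xa T5.l3 T5.l3)) (xb T5.l15 (xa T5.l3 T5.l3))) (xk (xb (xa T5.l3 T5.l3) (xa T5.l3 (xs T5.l3 (xk T5.l3 (xa T5.l3 T5.l3))))) (xa (xb T5.l3 (xs T5.l3 T5.l3)) (xb (xs T5.l3 T5.l3) (xs (xk T5.l3 T5.l3) (xk (xa T5.l3 (xb T5.l3 T5.l3)) (xa T5.l3 (xb T5.l3 T5.l3))))))))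
  (TrL.c (I.pos (nat_lit 0) (nat_lit 0)) T0.l16
  (TrL.c (I.mix (nat_lit 17240550) (nat_lit 96881482)) (xR T5.l16 (xR T5.l16 (xR T5.l16 T5.l16)))
  (TrL.c (I.mix (nat_lit 17240550) (nat_lit 71940500)) (xR T0.l23 T0.l33)
  TrL.n)))))))) (by decide +kernel)
theorem bx2_49 : BoxOK sI cl9 cl4 cl13 t0 t5 b2_49 :=
  box_mk (TrL.c (I.pos (nat_lit 0) (nat_lit 0)) T5.l9
  (TrL.c (I.pos (nat_lit 0) (nat_lit 0)) T0.l11
  (TrL.c (I.mix (nat_lit 17240550) (nat_lit 96881482)) (xR T5.l16 (xR T5.l17 (xR T5.l17 T5.l17)))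
  (TrL.c (I.mix (nat_lit 17240550) (nat_lit 71940500)) (xR T0.l50 T0.l7)
  TrL.n)))) (by decide +kernel)
theorem bx2_50 : BoxOK sI cl9 cl4 cl13 t0 t5 b2_50 :=
  box_mk (TrL.c (I.pos (nat_lit 0) (nat_lit 0)) (xa T0.l10 T0.l10)
  (TrL.c (I.pos (nat_lit 0) (nat_lit 0)) T5.l9
  (TrL.c (I.pos (nat_lit 0) (nat_lit 124588530)) (xR T0.l27 (xR T0.l11 (xR T0.l11 T0.l11)))
  (TrL.c (I.pos (nat_lit 0) (nat_lit 96881482)) (xR (xR T5.l6 T5.l12) (xR T5.l10 (xR T5.l10 T5.l10)))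
  (TrL.c (I.pos (nat_lit 0) (nat_lit 0)) T5.l11
  (TrL.c (I.pos (nat_lit 0) (nat_lit 0)) T0.l12
  (TrL.c (I.mix (nat_lit 17240550) (nat_lit 96881482)) (xR T5.l4 (xR T5.l12 (xR T5.l12 T5.l12)))
  (TrL.c (I.mix (nat_lit 17240550) (nat_lit 71940500)) (xR T0.l13 T0.l20)
  TrL.n)))))))) (by decide +kernel)
theorem bx2_51 : BoxOK sI cl9 cl4 cl13 t0 t5 b2_51 :=
  box_mk (TrL.c (I.pos (nat_lit 0) (nat_lit 0)) (xb (xa T0.l14 T0.l14) (xa T0.l14 T0.l14))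
  (TrL.c (I.pos (nat_lit 0) (nat_lit 0)) T5.l13
  (TrL.c (I.pos (nat_lit 0) (nat_lit 124588530)) (xR T0.l15 (xR T0.l15 (xR T0.l15 T0.l15)))
  (TrL.c (I.pos (nat_lit 0) (nat_lit 96881482)) (xR (xR T5.l6 T5.l14) (xR T5.l14 (xR T5.l14 T5.l14)))
  (TrL.c (I.pos (nat_lit 0) (nat_lit 0)) (xb T5.l15 T5.l15)
  (TrL.c (I.pos (nat_lit 0) (nat_lit 0)) T0.l16
  (TrL.c (I.mix (nat_lit 17240550) (nat_lit 96881482)) (xR T5.l16 (xR T5.l16 (xR T5.l16 T5.l16)))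
  (TrL.c (I.mix (nat_lit 17240550) (nat_lit 71940500)) (xR T0.l23 T0.l20)
  TrL.n)))))))) (by decide +kernel)
theorem bx2_52 : BoxOK sI cl9 cl4 cl13 t0 t5 b2_52 :=
  box_mk (TrL.c (I.pos (nat_lit 0) (nat_lit 0)) T5.l9
  (TrL.c (I.pos (nat_lit 0) (nat_lit 0)) T0.l11
  (TrL.c (I.mix (nat_lit 17240550) (nat_lit 96881482)) (xR (xR T5.l17 T5.l17) (xR T5.l17 (xR T5.l17 T5.l17)))
  (TrL.c (I.mix (nat_lit 17240550) (nat_lit 71940500)) (xR T0.l50 T0.l22)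
  TrL.n)))) (by decide +kernel)
theorem bx2_53 : BoxOK sI cl9 cl4 cl13 t0 t5 b2_53 :=
  box_mk (TrL.c (I.pos (nat_lit 0) (nat_lit 0)) T0.l0
  (TrL.c (I.pos (nat_lit 0) (nat_lit 0)) T5.l19
  (TrL.c (I.pos (nat_lit 0) (nat_lit 124588530)) (xR (xR T0.l15 T0.l1) T0.l22)
  (TrL.c (I.pos (nat_lit 0) (nat_lit 96881482)) (xR (xR T5.l2 T5.l2) (xR T5.l2 T5.l2))
  (TrL.c (I.pos (nat_lit 0) (nat_lit 0)) (xk (xb T5.l3 T5.l3) (xb T5.l3 T5.l3))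
  (TrL.c (I.pos (nat_lit 0) (nat_lit 0)) T0.l2
  (TrL.c (I.mix (nat_lit 17240550) (nat_lit 96881482)) (xR T5.l16 (xR T5.l4 (xR T5.l4 T5.l4)))
  (TrL.c (I.mix (nat_lit 17240550) (nat_lit 71940500)) (xR T0.l23 T0.l20)
  TrL.n)))))))) (by decide +kernel)
theorem bx2_54 : BoxOK sI cl9 cl4 cl13 t0 t5 b2_54 :=
  box_mk (TrL.c (I.pos (nat_lit 0) (nat_lit 0)) (xa (xb (xb T0.l0 T0.l0) (xa (xb T0.l0 T0.l0) (xb T0.l0 (xs T0.l0 T0.l0)))) (xb (xa T0.l0 T0.l0) (xa (xb T0.l0 (xs T0.l0 T0.l0)) (xb T0.l0 (xs T0.l0 T0.l0)))))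
  (TrL.c (I.pos (nat_lit 0) (nat_lit 0)) (xk (xb T5.l1 T5.l1) (xb T5.l1 T5.l1))
  (TrL.c (I.pos (nat_lit 0) (nat_lit 124588530)) (xR T0.l15 (xR T0.l1 (xR T0.l1 T0.l1)))
  (TrL.c (I.pos (nat_lit 0) (nat_lit 96881482)) (xR (xR T5.l2 T5.l2) (xR T5.l2 (xR T5.l2 T5.l2)))
  (TrL.c (I.pos (nat_lit 0) (nat_lit 0)) (xb (xk (xa T5.l3 (xb T5.l3 T5.l3)) (xa T5.l3 (xb T5.l3 T5.l3))) (xk (xa (xb T5.l3 (xs T5.l3 T5.l3)) (xb (xs T5.l3 (xk T5.l3 T5.l3)) (xk (xs T5.l3 (xa T5.l3 T5.l3)) (xs T5.l3 (xa T5.l3 (xb T5.l3 T5.l3)))))) (xa (xk (xb T5.l3 (xs T5.l3 T5.l3)) (xb T5.l3 (xs T5.l3 T5.l3))) (xb (xs T5.l3 (xk T5.l3 (xa T5.l0 T5.l3))) (xs (xk (xa T5.l3 T5.l3) (xa T5.l0 (xs T5.l3 T5.l3))) (xk (xa T5.l0 (xb T5.l3 (xs T5.l0 T5.l0))) (xa T5.l0 (xb T5.l0 T5.l0))))))))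
  (TrL.c (I.pos (nat_lit 0) (nat_lit 0)) T0.l2
  (TrL.c (I.mix (nat_lit 17240550) (nat_lit 96881482)) (xR T5.l16 (xR T5.l4 (xR T5.l4 T5.l4)))
  (TrL.c (I.mix (nat_lit 17240550) (nat_lit 71940500)) (xR T0.l23 (xR T0.l3 T0.l3))
  TrL.n)))))))) (by decide +kernel)
theorem bx2_55 : BoxOK sI cl9 cl4 cl13 t0 t5 b2_55 :=
  box_mk (TrL.c (I.pos (nat_lit 0) (nat_lit 0)) T5.l5
  (TrL.c (I.pos (nat_lit 0) (nat_lit 0)) T0.l7
  (TrL.c (I.mix (nat_lit 17240550) (nat_lit 96881482)) (xR T5.l16 (xR T5.l6 (xR T5.l6 T5.l6)))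
  (TrL.c (I.mix (nat_lit 17240550) (nat_lit 71940500)) (xR T0.l50 T0.l7)
  TrL.n)))) (by decide +kernel)
theorem bx2_56 : BoxOK sI cl9 cl4 cl13 t0 t5 b2_56 :=
  box_mk (TrL.c (I.pos (nat_lit 0) (nat_lit 0)) (xb T0.l6 T0.l6)
  (TrL.c (I.pos (nat_lit 0) (nat_lit 0)) T5.l5
  (TrL.c (I.pos (nat_lit 0) (nat_lit 124588530)) (xR T0.l27 (xR T0.l7 (xR T0.l7 T0.l7)))
  (TrL.c (I.pos (nat_lit 0) (nat_lit 96881482)) (xR T5.l12 (xR T5.l6 (xR T5.l6 T5.l6)))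
  (TrL.c (I.pos (nat_lit 0) (nat_lit 0)) T5.l7
  (TrL.c (I.pos (nat_lit 0) (nat_lit 0)) T0.l8
  (TrL.c (I.mix (nat_lit 17240550) (nat_lit 96881482)) (xR T5.l6 (xR T5.l8 (xR T5.l8 T5.l12)))
  (TrL.c (I.mix (nat_lit 17240550) (nat_lit 71940500)) T0.l50
  TrL.n)))))))) (by decide +kernel)
theorem bx2_57 : BoxOK sI cl9 cl4 cl13 t0 t5 b2_57 :=
  box_mk (TrL.c (I.pos (nat_lit 0) (nat_lit 0)) T0.l10
  (TrL.c (I.pos (nat_lit 0) (nat_lit 0)) T5.l9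
  (TrL.c (I.pos (nat_lit 0) (nat_lit 124588530)) (xR T0.l22 (xR T0.l11 T0.l11))
  (TrL.c (I.pos (nat_lit 0) (nat_lit 96881482)) (xR T5.l8 (xR T5.l10 T5.l10))
  (TrL.c (I.pos (nat_lit 0) (nat_lit 0)) T5.l11
  (TrL.c (I.pos (nat_lit 0) (nat_lit 0)) T0.l12
  (TrL.c (I.mix (nat_lit 17240550) (nat_lit 96881482)) (xR T5.l12 T5.l12)
  (TrL.c (I.mix (nat_lit 17240550) (nat_lit 71940500)) T0.l13
  TrL.n)))))))) (by decide +kernel)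
theorem bx2_58 : BoxOK sI cl9 cl4 cl13 t0 t5 b2_58 :=
  box_mk (TrL.c (I.pos (nat_lit 0) (nat_lit 0)) T0.l14
  (TrL.c (I.pos (nat_lit 0) (nat_lit 0)) T5.l13
  (TrL.c (I.pos (nat_lit 0) (nat_lit 124588530)) (xR T0.l15 T0.l15)
  (TrL.c (I.pos (nat_lit 0) (nat_lit 96881482)) (xR (xR T5.l2 T5.l14) (xR T5.l14 T5.l14))
  (TrL.c (I.pos (nat_lit 0) (nat_lit 0)) T5.l15
  (TrL.c (I.pos (nat_lit 0) (nat_lit 0)) T0.l16
  (TrL.c (I.mix (nat_lit 17240550) (nat_lit 96881482)) (xR T5.l16 T5.l16)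
  (TrL.c (I.mix (nat_lit 17240550) (nat_lit 71940500)) (xR T0.l23 T0.l23)
  TrL.n)))))))) (by decide +kernel)
theorem bx2_59 : BoxOK sI cl9 cl4 cl13 t0 t5 b2_59 :=
  box_mk (TrL.c (I.pos (nat_lit 0) (nat_lit 0)) T5.l9
  (TrL.c (I.pos (nat_lit 0) (nat_lit 0)) T0.l17
  (TrL.c (I.mix (nat_lit 17240550) (nat_lit 96881482)) (xR T5.l16 (xR T5.l17 T5.l17))
  (TrL.c (I.mix (nat_lit 17240550) (nat_lit 71940500)) (xR T0.l50 T0.l7)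
  TrL.n)))) (by decide +kernel)
theorem sv2 : StarV sI cl9 cl4 cl13 t0 t5 t2 :=
  (bt_n (bt_n (bt_n (bt_n (bt_n (bt_b bx2_0) (bt_n (bt_b bx2_1) (bt_b bx2_2))) (bt_n (bt_n (bt_b bx2_3) (bt_b bx2_4)) (bt_n (bt_b bx2_5) (bt_b bx2_6)))) (bt_n (bt_n (bt_n (bt_b bx2_7) (bt_b bx2_8)) (bt_n (bt_b bx2_9) (bt_b bx2_10))) (bt_n (bt_n (bt_b bx2_11) (bt_b bx2_12)) (bt_n (bt_b bx2_13) (bt_b bx2_14))))) (bt_n (bt_n (bt_n (bt_b bx2_15) (bt_n (bt_b bx2_16) (bt_b bx2_17))) (bt_n (bt_n (bt_b bx2_18) (bt_b bx2_19)) (bt_n (bt_b bx2_20) (bt_b bx2_21)))) (bt_n (bt_n (bt_n (bt_b bx2_22) (bt_b bx2_23)) (bt_n (bt_b bx2_24) (bt_b bx2_25))) (bt_n (bt_n (bt_b bx2_26) (bt_b bx2_27)) (bt_n (bt_b bx2_28) (bt_b bx2_29)))))) (bt_n (bt_n (bt_n (bt_n (bt_b bx2_30) (bt_n (bt_b bx2_31) (bt_b bx2_32))) (bt_n (bt_n (bt_b bx2_33) (bt_b bx2_34)) (bt_n (bt_b bx2_35) (bt_b bx2_36))))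 (bt_n (bt_n (bt_n (bt_b bx2_37) (bt_b bx2_38)) (bt_n (bt_b bx2_39) (bt_b bx2_40))) (bt_n (bt_n (bt_b bx2_41) (bt_b bx2_42)) (bt_n (bt_b bx2_43) (bt_b bx2_44))))) (bt_n (bt_n (bt_n (bt_b bx2_45) (bt_n (bt_b bx2_46) (bt_b bx2_47))) (bt_n (bt_n (bt_b bx2_48) (bt_b bx2_49)) (bt_n (bt_b bx2_50) (bt_b bx2_51)))) (bt_n (bt_n (bt_n (bt_b bx2_52) (bt_b bx2_53)) (bt_n (bt_b bx2_54) (bt_b bx2_55))) (bt_n (bt_n (bt_b bx2_56) (bt_b bx2_57)) (bt_n (bt_b bx2_58) (bt_b bx2_59)))))))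
def S2 : StarD := StarD.mk cl9 cl4 cl13 0 5 t2
theorem c3_0_0 : chkTag sI cl9 cl13 cl4 t5 b3_0 (tg true true false RT.r2) (I.pos (nat_lit 0) (nat_lit 0))
  (xa (xb (xa (xc (xb T5.l0 (xa T5.l0 T5.l0)) (xb T5.l0 T5.l0)) (xc T5.l0 (xb T5.l0 T5.l0))) (xa (xb (xc (xa T5.l0 T5.l0) (xa T5.l0 T5.l0)) (xc (xs (xa T5.l0 T5.l0) (xa T5.l0 T5.l0)) (xs (xa T5.l0 T5.l0) (xa T5.l0 T5.l0)))) (xc (xb (xs T5.l0 T5.l0) (xs T5.l0 T5.l30)) (xs (xa T5.l0 T5.l0) (xb T5.l0 (xa T5.l0 T5.l0)))))) (xa (xb (xc (xb T5.l0 T5.l0) (xb (xs T5.l0 T5.l0) (xs T5.l0 T5.l0))) (xs (xc T5.l0 T5.l0) (xc (xb T5.l0 T5.l0) (xb T5.l0 T5.l0)))) (xb (xc (xb T5.l0 T5.l0) (xb (xs T5.l0 T5.l0) (xs T5.l0 (xa T5.l0 T5.l0)))) (xs (xa T5.l0 T5.l0) (xc (xb T5.l0 T5.l0) (xb T5.l0 T5.l0)))))) = true := by decide +kernel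
theorem c3_0_1 : chkTag sI cl9 cl13 cl4 t0 b3_0 (tg true false false RT.r3) (I.pos (nat_lit 0) (nat_lit 0))
  (xa (xk (xb T0.l19 (xa T0.l19 T0.l19)) (xb T0.l19 (xa T0.l19 T0.l19))) (xk (xa (xb T0.l19 T0.l19) (xb T0.l19 T0.l19)) (xb T0.l19 (xa T0.l19 T0.l19)))) = true := by decide +kernel
theorem c3_0_2 : chkTag sI cl9 cl13 cl4 t5 b3_0 (Tag.mk true true false RT.tl RT.r4) (I.pos (nat_lit 0) (nat_lit 124588530))
  (xR T5.l16 (xR T5.l31 (xR T5.l18 (xa (xR T5.l18 T5.l18) T5.l18)))) = true := by decide +kernel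
theorem c3_0_3 : chkTag sI cl9 cl13 cl4 t0 b3_0 (Tag.mk true false false RT.tl RT.r5) (I.pos (nat_lit 0) (nat_lit 96881482))
  (xR (xR (xR T0.l20 T0.l20) T0.l20) (xR (xR T0.l20 T0.l20) (xR T0.l20 (xk T0.l20 T0.l20)))) = true := by decide +kernel
theorem c3_0_4 : chkTag sI cl9 cl13 cl4 t0 b3_0 (tg false false false RT.r3) (I.pos (nat_lit 0) (nat_lit 0))
  (xa (xk T0.l21 T0.l21) (xk (xb T0.l21 T0.l21) (xb T0.l21 (xb T0.l21 T0.l21)))) = true := by decide +kernel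
theorem c3_0_5 : chkTag sI cl9 cl13 cl4 t5 b3_0 (tg false true false RT.r4) (I.pos (nat_lit 0) (nat_lit 0))
  (xk T5.l19 T5.l19) = true := by decide +kernel
theorem c3_0_6 : chkTag sI cl9 cl13 cl4 t0 b3_0 (Tag.mk false false false RT.tl RT.r5) (I.mix (nat_lit 17240550) (nat_lit 96881482))
  (xR (xR (xR T0.l22 T0.l22) T0.l22) (xR T0.l35 (xR T0.l22 (xk T0.l22 T0.l22)))) = true := by decide +kernel
theorem c3_0_7 : chkTag sI cl9 cl13 cl4 t5 b3_0 (Tag.mk false true false RT.tl RT.r6) (I.mix (nat_lit 17240550) (nat_lit 71940500))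
  (xR (xR T5.l12 T5.l2) (xR T5.l21 T5.l21)) = true := by decide +kernel
theorem bx3_0 : BoxOK sI cl9 cl13 cl4 t5 t0 b3_0 :=
  box_mk' [(tg true true false RT.r2), (tg true false false RT.r3), (Tag.mk true true false RT.tl RT.r4), (Tag.mk true false false RT.tl RT.r5), (tg false false false RT.r3), (tg false true false RT.r4), (Tag.mk false false false RT.tl RT.r5), (Tag.mk false true false RT.tl RT.r6)] rfl (allL_c (ex_mk c3_0_0) (allL_c (ex_mk c3_0_1) (allL_c (ex_mk c3_0_2) (allL_c (ex_mk c3_0_3) (allL_c (ex_mk c3_0_4) (allL_c (ex_mk c3_0_5) (allL_c (ex_mk c3_0_6) (allL_c (ex_mk c3_0_7) allL_n))))))))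
theorem bx3_1 : BoxOK sI cl9 cl13 cl4 t5 t0 b3_1 :=
  box_mk (TrL.c (I.pos (nat_lit 0) (nat_lit 0)) (xa (xb (xa T5.l44 T5.l22) (xa T5.l22 T5.l22)) (xb (xa T5.l22 T5.l0) (xa T5.l22 T5.l0)))
  (TrL.c (I.pos (nat_lit 0) (nat_lit 0)) (xk (xa T0.l24 T0.l24) T0.l24)
  (TrL.c (I.pos (nat_lit 0) (nat_lit 124588530)) (xR T5.l16 (xR T5.l4 (xR T5.l4 (xR T5.l23 T5.l23))))
  (TrL.c (I.pos (nat_lit 0) (nat_lit 96881482)) (xR (xR T0.l25 T0.l37) (xR (xR T0.l25 T0.l25) (xR T0.l25 T0.l25)))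
  (TrL.c (I.pos (nat_lit 0) (nat_lit 0)) (xk (xa T0.l26 T0.l26) (xa T0.l26 T0.l26))
  (TrL.c (I.pos (nat_lit 0) (nat_lit 0)) T5.l24
  (TrL.c (I.mix (nat_lit 17240550) (nat_lit 96881482)) (xR (xR T0.l22 T0.l27) (xR T0.l27 (xR T0.l27 T0.l27)))
  (TrL.c (I.mix (nat_lit 17240550) (nat_lit 71940500)) (xR (xR T5.l6 T5.l25) (xR T5.l25 (xR T5.l14 T5.l14)))
  TrL.n)))))))) (by decide +kernel)
theorem bx3_2 : BoxOK sI cl9 cl13 cl4 t5 t0 b3_2 :=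
  box_mk (TrL.c (I.pos (nat_lit 0) (nat_lit 0)) (xa (xa T5.l26 T5.l34) (xa T5.l34 T5.l34))
  (TrL.c (I.pos (nat_lit 0) (nat_lit 0)) (xa T0.l28 (xa T0.l28 T0.l28))
  (TrL.c (I.pos (nat_lit 0) (nat_lit 124588530)) (xR T5.l16 (xR T5.l16 (xa (xR T5.l27 T5.l27) (xR T5.l4 T5.l35))))
  (TrL.c (I.pos (nat_lit 0) (nat_lit 96881482)) (xR (xR T0.l27 T0.l27) (xR (xa T0.l27 T0.l25) (xa T0.l37 T0.l37)))
  (TrL.c (I.pos (nat_lit 0) (nat_lit 0)) (xa T0.l30 (xa T0.l30 T0.l38))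
  (TrL.c (I.pos (nat_lit 0) (nat_lit 0)) T5.l28
  (TrL.c (I.mix (nat_lit 17240550) (nat_lit 96881482)) (xR T0.l39 (xa (xR T0.l31 (xR T0.l31 T0.l53)) (xR T0.l31 (xR T0.l31 T0.l31))))
  (TrL.c (I.mix (nat_lit 17240550) (nat_lit 71940500)) (xR T5.l17 (xR T5.l29 T5.l29))
  TrL.n)))))))) (by decide +kernel)
theorem c3_3_0 : chkTag sI cl9 cl13 cl4 t5 b3_3 (tg true true false RT.r2) (I.pos (nat_lit 0) (nat_lit 0))
  (xb (xa (xb (xa (xc (xs T5.l30 T5.l30) (xs T5.l30 (xb T5.l0 T5.l0))) (xc (xs T5.l0 T5.l30) (xs T5.l0 (xb T5.l0 T5.l0)))) (xa (xc T5.l30 T5.l30) (xs T5.l30 T5.l30))) (xb (xa (xs T5.l30 (xb T5.l0 T5.l0)) (xs T5.l30 (xc (xb T5.l0 T5.l0) (xb T5.l0 T5.l0)))) (xa (xs T5.l30 (xb T5.l30 T5.l30)) (xs T5.l30 (xc T5.l30 T5.l0))))) (xa (xb (xa (xs T5.l30 (xc T5.l30 T5.l30)) (xs T5.l30 (xc T5.l30 T5.l30))) (xa (xs (xc T5.l30 T5.l30) (xc (xb T5.l30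 T5.l30) (xb T5.l30 T5.l30))) (xs (xc T5.l30 T5.l30) (xc (xb T5.l30 T5.l30) (xb T5.l30 T5.l30))))) (xb (xa (xs T5.l30 (xc T5.l30 T5.l30)) (xs T5.l30 (xc T5.l30 (xk T5.l30 T5.l30)))) (xa (xs (xc T5.l30 T5.l30) (xc T5.l30 (xb T5.l30 T5.l30))) (xs (xc T5.l30 T5.l30) (xc (xb T5.l30 T5.l30) (xb T5.l30 (xk T5.l30 T5.l30)))))))) = true := by decide +kernel
theorem c3_3_1 : chkTag sI cl9 cl13 cl4 t0 b3_3 (tg true false false RT.r3) (I.pos (nat_lit 0) (nat_lit 0))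
  (xk (xb (xa T0.l32 T0.l32) (xa T0.l32 T0.l32)) (xb (xa T0.l32 T0.l32) (xa T0.l32 T0.l32))) = true := by decide +kernel
theorem c3_3_2 : chkTag sI cl9 cl13 cl4 t5 b3_3 (Tag.mk true true false RT.tl RT.r4) (I.pos (nat_lit 0) (nat_lit 124588530))
  (xR T5.l16 (xR T5.l31 (xR T5.l31 (xb (xR T5.l31 T5.l31) (xR T5.l31 T5.l31))))) = true := by decide +kernel
theorem c3_3_3 : chkTag sI cl9 cl13 cl4 t0 b3_3 (Tag.mk true false false RT.tl RT.r5) (I.pos (nat_lit 0) (nat_lit 96881482))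
  (xR (xR T0.l33 T0.l20) (xR (xR T0.l33 T0.l33) (xR T0.l33 T0.l33))) = true := by decide +kernel
theorem c3_3_4 : chkTag sI cl9 cl13 cl4 t0 b3_3 (tg false false false RT.r3) (I.pos (nat_lit 0) (nat_lit 0))
  (xk (xb (xa T0.l34 T0.l34) T0.l34) (xb T0.l34 T0.l34)) = true := by decide +kernel
theorem c3_3_5 : chkTag sI cl9 cl13 cl4 t5 b3_3 (tg false true false RT.r4) (I.pos (nat_lit 0) (nat_lit 0))
  T5.l32 = true := by decide +kernel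
theorem c3_3_6 : chkTag sI cl9 cl13 cl4 t0 b3_3 (Tag.mk false false false RT.tl RT.r5) (I.mix (nat_lit 17240550) (nat_lit 96881482))
  (xR (xR T0.l22 T0.l22) (xR T0.l35 (xR T0.l35 T0.l35))) = true := by decide +kernel
theorem c3_3_7 : chkTag sI cl9 cl13 cl4 t5 b3_3 (Tag.mk false true false RT.tl RT.r6) (I.mix (nat_lit 17240550) (nat_lit 71940500))
  (xR (xR T5.l12 T5.l33) (xR T5.l14 (xR T5.l33 T5.l33))) = true := by decide +kernel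
theorem bx3_3 : BoxOK sI cl9 cl13 cl4 t5 t0 b3_3 :=
  box_mk' [(tg true true false RT.r2), (tg true false false RT.r3), (Tag.mk true true false RT.tl RT.r4), (Tag.mk true false false RT.tl RT.r5), (tg false false false RT.r3), (tg false true false RT.r4), (Tag.mk false false false RT.tl RT.r5), (Tag.mk false true false RT.tl RT.r6)] rfl (allL_c (ex_mk c3_3_0) (allL_c (ex_mk c3_3_1) (allL_c (ex_mk c3_3_2) (allL_c (ex_mk c3_3_3) (allL_c (ex_mk c3_3_4) (allL_c (ex_mk c3_3_5) (allL_c (ex_mk c3_3_6) (allL_c (ex_mk c3_3_7) allL_n))))))))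
theorem bx3_4 : BoxOK sI cl9 cl13 cl4 t5 t0 b3_4 :=
  box_mk (TrL.c (I.pos (nat_lit 0) (nat_lit 0)) (xa (xa (xb T5.l34 T5.l34) (xa T5.l34 T5.l34)) (xa (xa T5.l34 (xb T5.l34 T5.l34)) (xa (xb T5.l34 T5.l34) (xb T5.l34 T5.l34))))
  (TrL.c (I.pos (nat_lit 0) (nat_lit 0)) (xa (xa T0.l36 T0.l36) (xa T0.l36 (xk T0.l36 T0.l36)))
  (TrL.c (I.pos (nat_lit 0) (nat_lit 124588530)) (xR T5.l16 (xR T5.l16 (xa (xR T5.l35 T5.l35) (xR T5.l35 T5.l35))))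
  (TrL.c (I.pos (nat_lit 0) (nat_lit 96881482)) (xR (xR T0.l27 (xR T0.l37 T0.l37)) (xa (xR T0.l37 (xR T0.l37 T0.l37)) (xR T0.l37 (xR T0.l37 T0.l37))))
  (TrL.c (I.pos (nat_lit 0) (nat_lit 0)) (xa (xa T0.l38 T0.l38) (xa T0.l38 T0.l38))
  (TrL.c (I.pos (nat_lit 0) (nat_lit 0)) T5.l36
  (TrL.c (I.mix (nat_lit 17240550) (nat_lit 96881482)) (xR (xR T0.l50 T0.l39) (xa (xR T0.l39 (xR T0.l39 T0.l39)) (xR T0.l27 (xR T0.l27 T0.l27))))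
  (TrL.c (I.mix (nat_lit 17240550) (nat_lit 71940500)) (xR (xR T5.l6 T5.l17) (xa (xR T5.l37 T5.l37) (xR T5.l37 T5.l37)))
  TrL.n)))))))) (by decide +kernel)
theorem bx3_5 : BoxOK sI cl9 cl13 cl4 t5 t0 b3_5 :=
  box_mk (TrL.c (I.pos (nat_lit 0) (nat_lit 0)) (xa (xb T5.l22 T5.l44) T5.l0)
  (TrL.c (I.pos (nat_lit 0) (nat_lit 0)) (xk T0.l24 T0.l24)
  (TrL.c (I.pos (nat_lit 0) (nat_lit 124588530)) (xR T5.l16 (xR T5.l4 (xR T5.l4 T5.l23)))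
  (TrL.c (I.pos (nat_lit 0) (nat_lit 96881482)) (xR (xR T0.l25 T0.l25) (xR T0.l25 (xR T0.l25 T0.l20)))
  (TrL.c (I.pos (nat_lit 0) (nat_lit 0)) (xk T0.l26 T0.l26)
  (TrL.c (I.pos (nat_lit 0) (nat_lit 0)) T5.l24
  (TrL.c (I.mix (nat_lit 17240550) (nat_lit 96881482)) (xR (xR T0.l27 T0.l27) (xR T0.l35 (xR T0.l27 T0.l27)))
  (TrL.c (I.mix (nat_lit 17240550) (nat_lit 71940500)) (xR (xR T5.l6 T5.l25) (xR T5.l2 T5.l14))
  TrL.n)))))))) (by decide +kernel)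
theorem bx3_6 : BoxOK sI cl9 cl13 cl4 t5 t0 b3_6 :=
  box_mk (TrL.c (I.pos (nat_lit 0) (nat_lit 0)) (xa T5.l34 T5.l34)
  (TrL.c (I.pos (nat_lit 0) (nat_lit 0)) (xa T0.l28 T0.l28)
  (TrL.c (I.pos (nat_lit 0) (nat_lit 124588530)) (xR T5.l16 (xR T5.l4 (xa T5.l35 T5.l35)))
  (TrL.c (I.pos (nat_lit 0) (nat_lit 96881482)) (xR (xR T0.l29 T0.l29) (xR T0.l37 T0.l37))
  (TrL.c (I.pos (nat_lit 0) (nat_lit 0)) (xa T0.l30 T0.l30)
  (TrL.c (I.pos (nat_lit 0) (nat_lit 0)) T5.l28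
  (TrL.c (I.mix (nat_lit 17240550) (nat_lit 96881482)) (xR T0.l39 (xR T0.l31 (xR T0.l31 T0.l31)))
  (TrL.c (I.mix (nat_lit 17240550) (nat_lit 71940500)) (xR T5.l17 T5.l37)
  TrL.n)))))))) (by decide +kernel)
theorem bx3_7 : BoxOK sI cl9 cl13 cl4 t5 t0 b3_7 :=
  box_mk (TrL.c (I.pos (nat_lit 0) (nat_lit 0)) (xa (xb T5.l0 T5.l0) (xb T5.l0 T5.l0))
  (TrL.c (I.pos (nat_lit 0) (nat_lit 0)) (xk (xb T0.l32 T0.l32) (xb T0.l32 T0.l32))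
  (TrL.c (I.pos (nat_lit 0) (nat_lit 124588530)) (xR T5.l16 (xR T5.l4 (xR T5.l31 T5.l31)))
  (TrL.c (I.pos (nat_lit 0) (nat_lit 96881482)) (xR (xR T0.l33 T0.l20) (xR (xR T0.l33 T0.l33) (xR T0.l33 T0.l33)))
  (TrL.c (I.pos (nat_lit 0) (nat_lit 0)) (xk (xb T0.l34 T0.l34) (xb T0.l34 T0.l34))
  (TrL.c (I.pos (nat_lit 0) (nat_lit 0)) T5.l32
  (TrL.c (I.mix (nat_lit 17240550) (nat_lit 96881482)) (xR (xR T0.l22 T0.l22) (xR T0.l35 (xR T0.l35 T0.l35)))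
  (TrL.c (I.mix (nat_lit 17240550) (nat_lit 71940500)) (xR (xR T5.l6 T5.l2) (xR T5.l2 T5.l14))
  TrL.n)))))))) (by decide +kernel)
theorem bx3_8 : BoxOK sI cl9 cl13 cl4 t5 t0 b3_8 :=
  box_mk (TrL.c (I.pos (nat_lit 0) (nat_lit 0)) (xa (xa T5.l34 T5.l34) (xa T5.l34 T5.l34))
  (TrL.c (I.pos (nat_lit 0) (nat_lit 0)) (xa T0.l36 (xa T0.l36 T0.l36))
  (TrL.c (I.pos (nat_lit 0) (nat_lit 124588530)) (xR T5.l16 (xR T5.l16 (xR T5.l35 (xa T5.l35 T5.l35))))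
  (TrL.c (I.pos (nat_lit 0) (nat_lit 96881482)) (xR (xR T0.l27 T0.l37) (xR T0.l37 (xR T0.l37 T0.l37)))
  (TrL.c (I.pos (nat_lit 0) (nat_lit 0)) (xa T0.l38 T0.l38)
  (TrL.c (I.pos (nat_lit 0) (nat_lit 0)) T5.l42
  (TrL.c (I.mix (nat_lit 17240550) (nat_lit 96881482)) (xR T0.l39 (xR T0.l39 (xa T0.l39 T0.l27)))
  (TrL.c (I.mix (nat_lit 17240550) (nat_lit 71940500)) (xR T5.l17 (xR T5.l37 T5.l37))
  TrL.n)))))))) (by decide +kernel)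
theorem bx3_9 : BoxOK sI cl9 cl13 cl4 t5 t0 b3_9 :=
  box_mk (TrL.c (I.pos (nat_lit 0) (nat_lit 0)) (xa (xb T5.l22 T5.l22) (xb T5.l0 T5.l0))
  (TrL.c (I.pos (nat_lit 0) (nat_lit 0)) (xk T0.l24 T0.l24)
  (TrL.c (I.pos (nat_lit 0) (nat_lit 124588530)) (xR T5.l16 (xR T5.l4 (xR T5.l4 T5.l23)))
  (TrL.c (I.pos (nat_lit 0) (nat_lit 96881482)) (xR (xR T0.l20 T0.l37) (xR (xR T0.l25 T0.l25) (xR T0.l25 T0.l25)))
  (TrL.c (I.pos (nat_lit 0) (nat_lit 0)) (xk (xa T0.l26 T0.l26) (xa T0.l26 T0.l26))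
  (TrL.c (I.pos (nat_lit 0) (nat_lit 0)) T5.l24
  (TrL.c (I.mix (nat_lit 17240550) (nat_lit 96881482)) (xR (xR T0.l27 T0.l27) (xR T0.l27 (xR T0.l27 T0.l27)))
  (TrL.c (I.mix (nat_lit 17240550) (nat_lit 71940500)) (xR (xR T5.l6 T5.l25) (xR T5.l14 T5.l14))
  TrL.n)))))))) (by decide +kernel)
theorem bx3_10 : BoxOK sI cl9 cl13 cl4 t5 t0 b3_10 :=
  box_mk (TrL.c (I.pos (nat_lit 0) (nat_lit 0)) (xa T5.l26 T5.l34)
  (TrL.c (I.pos (nat_lit 0) (nat_lit 0)) T0.l28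
  (TrL.c (I.pos (nat_lit 0) (nat_lit 124588530)) (xR T5.l16 (xR T5.l4 (xR T5.l4 T5.l27)))
  (TrL.c (I.pos (nat_lit 0) (nat_lit 96881482)) (xR T0.l50 T0.l37)
  (TrL.c (I.pos (nat_lit 0) (nat_lit 0)) T0.l38
  (TrL.c (I.pos (nat_lit 0) (nat_lit 0)) T5.l28
  (TrL.c (I.mix (nat_lit 17240550) (nat_lit 96881482)) (xR T0.l39 (xR T0.l31 (xR T0.l31 T0.l27)))
  (TrL.c (I.mix (nat_lit 17240550) (nat_lit 71940500)) (xR T5.l16 T5.l37)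
  TrL.n)))))))) (by decide +kernel)
theorem bx3_11 : BoxOK sI cl9 cl13 cl4 t5 t0 b3_11 :=
  box_mk (TrL.c (I.pos (nat_lit 0) (nat_lit 0)) (xa (xb (xa (xb T5.l30 T5.l30) (xb T5.l30 T5.l30)) (xa (xb T5.l30 T5.l30) (xb T5.l30 T5.l30))) (xb (xa (xb (xs T5.l0 (xb T5.l0 T5.l0)) T5.l30) (xb (xs T5.l0 (xb (xs T5.l0 (xa T5.l0 T5.l0)) (xs T5.l0 (xa T5.l0 T5.l0)))) T5.l30)) (xa (xb T5.l30 T5.l30) (xb T5.l30 T5.l30))))
  (TrL.c (I.pos (nat_lit 0) (nat_lit 0)) (xk (xb T0.l32 T0.l32) (xa T0.l32 T0.l32))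
  (TrL.c (I.pos (nat_lit 0) (nat_lit 124588530)) (xR T5.l16 (xR T5.l4 (xR T5.l31 (xR T5.l31 T5.l31))))
  (TrL.c (I.pos (nat_lit 0) (nat_lit 96881482)) (xR (xR T0.l33 T0.l20) (xR T0.l20 (xR T0.l33 T0.l33)))
  (TrL.c (I.pos (nat_lit 0) (nat_lit 0)) (xk (xa T0.l34 T0.l34) (xa T0.l34 T0.l34))
  (TrL.c (I.pos (nat_lit 0) (nat_lit 0)) T5.l32
  (TrL.c (I.mix (nat_lit 17240550) (nat_lit 96881482)) (xR (xR T0.l22 T0.l22) (xR T0.l35 (xR T0.l35 T0.l35)))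
  (TrL.c (I.mix (nat_lit 17240550) (nat_lit 71940500)) (xR (xR T5.l6 T5.l33) (xR T5.l2 (xR T5.l33 T5.l33)))
  TrL.n)))))))) (by decide +kernel)
theorem bx3_12 : BoxOK sI cl9 cl13 cl4 t5 t0 b3_12 :=
  box_mk (TrL.c (I.pos (nat_lit 0) (nat_lit 0)) (xa (xa T5.l34 T5.l34) (xa T5.l34 T5.l34))
  (TrL.c (I.pos (nat_lit 0) (nat_lit 0)) (xa T0.l36 T0.l36)
  (TrL.c (I.pos (nat_lit 0) (nat_lit 124588530)) (xR T5.l16 (xR T5.l4 (xR T5.l35 T5.l35)))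
  (TrL.c (I.pos (nat_lit 0) (nat_lit 96881482)) (xR (xR T0.l20 T0.l37) (xR T0.l37 T0.l37))
  (TrL.c (I.pos (nat_lit 0) (nat_lit 0)) T0.l38
  (TrL.c (I.pos (nat_lit 0) (nat_lit 0)) T5.l36
  (TrL.c (I.mix (nat_lit 17240550) (nat_lit 96881482)) (xR T0.l39 (xR T0.l39 T0.l27))
  (TrL.c (I.mix (nat_lit 17240550) (nat_lit 71940500)) (xR T5.l17 (xR T5.l37 T5.l14))
  TrL.n)))))))) (by decide +kernel)
theorem bx3_13 : BoxOK sI cl9 cl13 cl4 t5 t0 b3_13 :=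
  box_mk (TrL.c (I.pos (nat_lit 0) (nat_lit 0)) (xa (xa T5.l38 T5.l26) (xa T5.l34 T5.l34))
  (TrL.c (I.pos (nat_lit 0) (nat_lit 0)) (xa T0.l40 (xa T0.l28 T0.l36))
  (TrL.c (I.pos (nat_lit 0) (nat_lit 124588530)) (xR T5.l16 (xR T5.l16 (xa T5.l27 (xR T5.l4 T5.l35))))
  (TrL.c (I.pos (nat_lit 0) (nat_lit 96881482)) (xR (xR T0.l27 T0.l31) (xR (xR T0.l31 T0.l58) (xa T0.l37 T0.l37)))
  (TrL.c (I.pos (nat_lit 0) (nat_lit 0)) (xa T0.l52 T0.l38)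
  (TrL.c (I.pos (nat_lit 0) (nat_lit 0)) T5.l52
  (TrL.c (I.mix (nat_lit 17240550) (nat_lit 96881482)) (xR (xR T0.l39 T0.l27) (xR T0.l27 (xa T0.l31 T0.l46)))
  (TrL.c (I.mix (nat_lit 17240550) (nat_lit 71940500)) (xR T5.l17 (xa T5.l6 T5.l37))
  TrL.n)))))))) (by decide +kernel)
theorem bx3_14 : BoxOK sI cl9 cl13 cl4 t5 t0 b3_14 :=
  box_mk (TrL.c (I.pos (nat_lit 0) (nat_lit 0)) (xa (xb T5.l0 T5.l0) T5.l0)
  (TrL.c (I.pos (nat_lit 0) (nat_lit 0)) (xk T0.l24 T0.l32)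
  (TrL.c (I.pos (nat_lit 0) (nat_lit 124588530)) (xR T5.l16 (xR T5.l4 (xR T5.l4 T5.l18)))
  (TrL.c (I.pos (nat_lit 0) (nat_lit 96881482)) (xR (xR T0.l20 T0.l20) (xR T0.l20 (xR T0.l20 T0.l20)))
  (TrL.c (I.pos (nat_lit 0) (nat_lit 0)) (xk T0.l34 T0.l34)
  (TrL.c (I.pos (nat_lit 0) (nat_lit 0)) T5.l39
  (TrL.c (I.mix (nat_lit 17240550) (nat_lit 96881482)) (xR T0.l22 (xR T0.l35 (xR T0.l27 T0.l35)))
  (TrL.c (I.mix (nat_lit 17240550) (nat_lit 71940500)) (xR (xR T5.l6 T5.l2) (xR T5.l2 T5.l14))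
  TrL.n)))))))) (by decide +kernel)
theorem bx3_15 : BoxOK sI cl9 cl13 cl4 t5 t0 b3_15 :=
  box_mk (TrL.c (I.pos (nat_lit 0) (nat_lit 0)) (xa (xa T5.l38 T5.l26) T5.l34)
  (TrL.c (I.pos (nat_lit 0) (nat_lit 0)) (xa T0.l40 (xa T0.l28 T0.l28))
  (TrL.c (I.pos (nat_lit 0) (nat_lit 124588530)) (xR T5.l16 (xa (xR T5.l12 (xa T5.l48 T5.l27)) (xR T5.l4 T5.l35)))
  (TrL.c (I.pos (nat_lit 0) (nat_lit 96881482)) (xR (xR T0.l27 T0.l31) (xR (xR T0.l31 T0.l58) (xa T0.l37 T0.l37)))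
  (TrL.c (I.pos (nat_lit 0) (nat_lit 0)) (xa T0.l41 T0.l38)
  (TrL.c (I.pos (nat_lit 0) (nat_lit 0)) T5.l52
  (TrL.c (I.mix (nat_lit 17240550) (nat_lit 96881482)) (xR (xR T0.l39 T0.l27) (xR T0.l27 (xa (xR T0.l31 T0.l57) T0.l39)))
  (TrL.c (I.mix (nat_lit 17240550) (nat_lit 71940500)) (xR T5.l17 (xa T5.l6 T5.l37))
  TrL.n)))))))) (by decide +kernel)
theorem bx3_16 : BoxOK sI cl9 cl13 cl4 t5 t0 b3_16 :=
  box_mk (TrL.c (I.pos (nat_lit 0) (nat_lit 0)) T5.l34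
  (TrL.c (I.pos (nat_lit 0) (nat_lit 0)) T0.l28
  (TrL.c (I.pos (nat_lit 0) (nat_lit 124588530)) (xR T5.l16 (xR T5.l4 T5.l35))
  (TrL.c (I.pos (nat_lit 0) (nat_lit 96881482)) (xR (xR T0.l29 T0.l29) T0.l37)
  (TrL.c (I.pos (nat_lit 0) (nat_lit 0)) T0.l30
  (TrL.c (I.pos (nat_lit 0) (nat_lit 0)) T5.l28
  (TrL.c (I.mix (nat_lit 17240550) (nat_lit 96881482)) (xR T0.l39 (xR T0.l31 T0.l27))
  (TrL.c (I.mix (nat_lit 17240550) (nat_lit 71940500)) (xR T5.l16 T5.l14)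
  TrL.n)))))))) (by decide +kernel)
theorem bx3_17 : BoxOK sI cl9 cl13 cl4 t5 t0 b3_17 :=
  box_mk (TrL.c (I.pos (nat_lit 0) (nat_lit 0)) (xa T5.l0 T5.l0)
  (TrL.c (I.pos (nat_lit 0) (nat_lit 0)) (xk T0.l32 T0.l32)
  (TrL.c (I.pos (nat_lit 0) (nat_lit 124588530)) (xR T5.l16 (xR T5.l4 (xR T5.l31 T5.l31)))
  (TrL.c (I.pos (nat_lit 0) (nat_lit 96881482)) (xR (xR T0.l33 T0.l20) (xR T0.l25 (xR T0.l33 T0.l33)))
  (TrL.c (I.pos (nat_lit 0) (nat_lit 0)) (xk T0.l34 T0.l34)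
  (TrL.c (I.pos (nat_lit 0) (nat_lit 0)) T5.l32
  (TrL.c (I.mix (nat_lit 17240550) (nat_lit 96881482)) (xR (xR T0.l22 T0.l22) (xR T0.l35 (xR T0.l35 T0.l35)))
  (TrL.c (I.mix (nat_lit 17240550) (nat_lit 71940500)) (xR (xR T5.l6 T5.l2) (xR T5.l2 T5.l14))
  TrL.n)))))))) (by decide +kernel)
theorem bx3_18 : BoxOK sI cl9 cl13 cl4 t5 t0 b3_18 :=
  box_mk (TrL.c (I.pos (nat_lit 0) (nat_lit 0)) T5.l34
  (TrL.c (I.pos (nat_lit 0) (nat_lit 0)) T0.l36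
  (TrL.c (I.pos (nat_lit 0) (nat_lit 124588530)) (xR T5.l16 (xR T5.l4 (xR T5.l35 T5.l35)))
  (TrL.c (I.pos (nat_lit 0) (nat_lit 96881482)) (xR (xR T0.l20 T0.l37) T0.l37)
  (TrL.c (I.pos (nat_lit 0) (nat_lit 0)) T0.l38
  (TrL.c (I.pos (nat_lit 0) (nat_lit 0)) T5.l36
  (TrL.c (I.mix (nat_lit 17240550) (nat_lit 96881482)) (xR T0.l39 (xR T0.l39 T0.l27))
  (TrL.c (I.mix (nat_lit 17240550) (nat_lit 71940500)) (xR T5.l17 T5.l37)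
  TrL.n)))))))) (by decide +kernel)
theorem bx3_19 : BoxOK sI cl9 cl13 cl4 t5 t0 b3_19 :=
  box_mk (TrL.c (I.pos (nat_lit 0) (nat_lit 0)) (xa (xa T5.l40 T5.l34) (xa T5.l34 (xa T5.l40 T5.l40)))
  (TrL.c (I.pos (nat_lit 0) (nat_lit 0)) (xa T0.l55 (xa T0.l55 T0.l55))
  (TrL.c (I.pos (nat_lit 0) (nat_lit 124588530)) (xR T5.l16 (xR T5.l4 (xR T5.l4 T5.l41)))
  (TrL.c (I.pos (nat_lit 0) (nat_lit 96881482)) (xR (xR T0.l20 T0.l25) (xR T0.l25 (xa T0.l45 T0.l37)))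
  (TrL.c (I.pos (nat_lit 0) (nat_lit 0)) (xa T0.l54 T0.l54)
  (TrL.c (I.pos (nat_lit 0) (nat_lit 0)) T5.l42
  (TrL.c (I.mix (nat_lit 17240550) (nat_lit 96881482)) (xR (xR T0.l31 T0.l27) (xR T0.l27 (xR T0.l46 T0.l46)))
  (TrL.c (I.mix (nat_lit 17240550) (nat_lit 71940500)) (xR T5.l17 (xR T5.l43 T5.l37))
  TrL.n)))))))) (by decide +kernel)
theorem bx3_20 : BoxOK sI cl9 cl13 cl4 t5 t0 b3_20 :=
  box_mk (TrL.c (I.pos (nat_lit 0) (nat_lit 0)) (xb (xa T5.l44 (xb T5.l44 T5.l44)) (xa T5.l44 (xb T5.l44 T5.l44)))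
  (TrL.c (I.pos (nat_lit 0) (nat_lit 0)) (xk T0.l47 T0.l47)
  (TrL.c (I.pos (nat_lit 0) (nat_lit 124588530)) (xR T5.l16 (xR T5.l4 (xR T5.l4 T5.l45)))
  (TrL.c (I.pos (nat_lit 0) (nat_lit 96881482)) (xR (xR T0.l25 T0.l37) (xR (xR T0.l20 T0.l48) (xR T0.l48 T0.l48)))
  (TrL.c (I.pos (nat_lit 0) (nat_lit 0)) (xk (xb T0.l49 T0.l49) (xb T0.l49 T0.l49))
  (TrL.c (I.pos (nat_lit 0) (nat_lit 0)) T5.l46
  (TrL.c (I.mix (nat_lit 17240550) (nat_lit 96881482)) (xR (xR T0.l50 T0.l27) (xR T0.l27 (xR T0.l50 T0.l50)))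
  (TrL.c (I.mix (nat_lit 17240550) (nat_lit 71940500)) (xR (xR T5.l6 T5.l17) (xR T5.l14 T5.l14))
  TrL.n)))))))) (by decide +kernel)
theorem bx3_21 : BoxOK sI cl9 cl13 cl4 t5 t0 b3_21 :=
  box_mk (TrL.c (I.pos (nat_lit 0) (nat_lit 0)) (xa (xa T5.l47 T5.l34) (xa T5.l34 T5.l34))
  (TrL.c (I.pos (nat_lit 0) (nat_lit 0)) (xa T0.l51 (xa T0.l28 T0.l28))
  (TrL.c (I.pos (nat_lit 0) (nat_lit 124588530)) (xR T5.l16 (xR T5.l16 (xa (xa (xR T5.l48 T5.l48) T5.l35) (xR T5.l4 T5.l35))))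
  (TrL.c (I.pos (nat_lit 0) (nat_lit 96881482)) (xR (xR T0.l27 T0.l27) (xR (xR T0.l31 T0.l56) (xa (xk T0.l37 T0.l31) T0.l37)))
  (TrL.c (I.pos (nat_lit 0) (nat_lit 0)) (xa T0.l52 (xa T0.l30 T0.l38))
  (TrL.c (I.pos (nat_lit 0) (nat_lit 0)) T5.l49
  (TrL.c (I.mix (nat_lit 17240550) (nat_lit 96881482)) (xR (xR T0.l31 T0.l27) (xR T0.l31 (xa (xR T0.l31 T0.l53) (xR T0.l27 T0.l53))))
  (TrL.c (I.mix (nat_lit 17240550) (nat_lit 71940500)) (xR (xR T5.l6 T5.l50) (xR T5.l50 T5.l50))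
  TrL.n)))))))) (by decide +kernel)
theorem bx3_22 : BoxOK sI cl9 cl13 cl4 t5 t0 b3_22 :=
  box_mk (TrL.c (I.pos (nat_lit 0) (nat_lit 0)) (xa T5.l0 T5.l0)
  (TrL.c (I.pos (nat_lit 0) (nat_lit 0)) (xk (xa T0.l19 T0.l19) T0.l19)
  (TrL.c (I.pos (nat_lit 0) (nat_lit 124588530)) (xR T5.l16 (xR T5.l4 (xR T5.l18 T5.l18)))
  (TrL.c (I.pos (nat_lit 0) (nat_lit 96881482)) (xR (xR T0.l23 T0.l20) (xR T0.l20 T0.l20))
  (TrL.c (I.pos (nat_lit 0) (nat_lit 0)) T0.l21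
  (TrL.c (I.pos (nat_lit 0) (nat_lit 0)) T5.l19
  (TrL.c (I.mix (nat_lit 17240550) (nat_lit 96881482)) (xR (xR T0.l22 T0.l22) (xR T0.l22 (xR T0.l22 T0.l22)))
  (TrL.c (I.mix (nat_lit 17240550) (nat_lit 71940500)) (xR (xR T5.l21 T5.l21) T5.l14)
  TrL.n)))))))) (by decide +kernel)
theorem bx3_23 : BoxOK sI cl9 cl13 cl4 t5 t0 b3_23 :=
  box_mk (TrL.c (I.pos (nat_lit 0) (nat_lit 0)) (xa T5.l40 T5.l40)
  (TrL.c (I.pos (nat_lit 0) (nat_lit 0)) T0.l55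
  (TrL.c (I.pos (nat_lit 0) (nat_lit 124588530)) (xR T5.l16 (xR T5.l4 (xR T5.l4 T5.l41)))
  (TrL.c (I.pos (nat_lit 0) (nat_lit 96881482)) (xR T0.l33 T0.l37)
  (TrL.c (I.pos (nat_lit 0) (nat_lit 0)) T0.l54
  (TrL.c (I.pos (nat_lit 0) (nat_lit 0)) T5.l42
  (TrL.c (I.mix (nat_lit 17240550) (nat_lit 96881482)) (xR T0.l39 (xR T0.l27 T0.l27))
  (TrL.c (I.mix (nat_lit 17240550) (nat_lit 71940500)) (xR T5.l17 T5.l14)
  TrL.n)))))))) (by decide +kernel)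
theorem bx3_24 : BoxOK sI cl9 cl13 cl4 t5 t0 b3_24 :=
  box_mk (TrL.c (I.pos (nat_lit 0) (nat_lit 0)) (xa T5.l44 T5.l44)
  (TrL.c (I.pos (nat_lit 0) (nat_lit 0)) T0.l47
  (TrL.c (I.pos (nat_lit 0) (nat_lit 124588530)) (xR T5.l16 (xR T5.l4 (xR T5.l4 T5.l45)))
  (TrL.c (I.pos (nat_lit 0) (nat_lit 96881482)) (xR (xR T0.l48 T0.l48) (xR T0.l48 (xR T0.l48 T0.l48)))
  (TrL.c (I.pos (nat_lit 0) (nat_lit 0)) T0.l49
  (TrL.c (I.pos (nat_lit 0) (nat_lit 0)) T5.l46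
  (TrL.c (I.mix (nat_lit 17240550) (nat_lit 96881482)) (xR (xR T0.l50 T0.l22) (xR T0.l27 (xR T0.l50 T0.l50)))
  (TrL.c (I.mix (nat_lit 17240550) (nat_lit 71940500)) (xR (xR T5.l6 T5.l14) T5.l14)
  TrL.n)))))))) (by decide +kernel)
theorem bx3_25 : BoxOK sI cl9 cl13 cl4 t5 t0 b3_25 :=
  box_mk (TrL.c (I.pos (nat_lit 0) (nat_lit 0)) T5.l34
  (TrL.c (I.pos (nat_lit 0) (nat_lit 0)) T0.l28
  (TrL.c (I.pos (nat_lit 0) (nat_lit 124588530)) (xR T5.l16 (xR T5.l4 T5.l35))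
  (TrL.c (I.pos (nat_lit 0) (nat_lit 96881482)) (xR T0.l27 T0.l37)
  (TrL.c (I.pos (nat_lit 0) (nat_lit 0)) T0.l30
  (TrL.c (I.pos (nat_lit 0) (nat_lit 0)) T5.l49
  (TrL.c (I.mix (nat_lit 17240550) (nat_lit 96881482)) (xR T0.l31 (xR T0.l27 T0.l27))
  (TrL.c (I.mix (nat_lit 17240550) (nat_lit 71940500)) (xR T5.l12 T5.l29)
  TrL.n)))))))) (by decide +kernel)
theorem bx3_26 : BoxOK sI cl9 cl13 cl4 t5 t0 b3_26 :=
  box_mk (TrL.c (I.pos (nat_lit 0) (nat_lit 0)) (xa (xb T5.l0 T5.l0) (xb (xa T5.l0 (xs T5.l0 T5.l0)) (xa T5.l0 (xs T5.l0 T5.l3))))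
  (TrL.c (I.pos (nat_lit 0) (nat_lit 0)) (xk (xa (xb T0.l19 T0.l19) (xb T0.l2 T0.l2)) (xa (xb T0.l19 T0.l19) (xb T0.l19 T0.l19)))
  (TrL.c (I.pos (nat_lit 0) (nat_lit 124588530)) (xR (xR T5.l16 T5.l4) (xR T5.l4 (xR T5.l18 T5.l18)))
  (TrL.c (I.pos (nat_lit 0) (nat_lit 96881482)) (xR (xR (xR T0.l20 T0.l20) T0.l20) (xR (xR T0.l20 T0.l20) (xR T0.l20 T0.l20)))
  (TrL.c (I.pos (nat_lit 0) (nat_lit 0)) (xk (xa T0.l21 (xb (xa T0.l21 T0.l21) T0.l21)) (xa T0.l21 (xb (xa T0.l21 T0.l21) T0.l21)))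
  (TrL.c (I.pos (nat_lit 0) (nat_lit 0)) (xk T5.l19 T5.l19)
  (TrL.c (I.mix (nat_lit 17240550) (nat_lit 96881482)) (xR (xR T0.l22 T0.l22) (xR T0.l22 (xR T0.l22 T0.l22)))
  (TrL.c (I.mix (nat_lit 17240550) (nat_lit 71940500)) (xR (xR T5.l21 T5.l21) (xR T5.l21 T5.l21))
  TrL.n)))))))) (by decide +kernel)
theorem bx3_27 : BoxOK sI cl9 cl13 cl4 t5 t0 b3_27 :=
  box_mk (TrL.c (I.pos (nat_lit 0) (nat_lit 0)) (xa T5.l34 (xa T5.l40 (xa T5.l40 T5.l40)))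
  (TrL.c (I.pos (nat_lit 0) (nat_lit 0)) (xa T0.l55 (xa T0.l55 T0.l55))
  (TrL.c (I.pos (nat_lit 0) (nat_lit 124588530)) (xR T5.l16 (xR T5.l4 (xR T5.l4 (xa T5.l41 T5.l41))))
  (TrL.c (I.pos (nat_lit 0) (nat_lit 96881482)) (xR (xR T0.l27 T0.l29) (xR T0.l37 (xa T0.l45 T0.l37)))
  (TrL.c (I.pos (nat_lit 0) (nat_lit 0)) (xa T0.l54 T0.l54)
  (TrL.c (I.pos (nat_lit 0) (nat_lit 0)) T5.l42
  (TrL.c (I.mix (nat_lit 17240550) (nat_lit 96881482)) (xR (xR T0.l31 T0.l27) (xR T0.l27 (xa T0.l46 T0.l27)))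
  (TrL.c (I.mix (nat_lit 17240550) (nat_lit 71940500)) (xR T5.l17 (xR T5.l43 T5.l43))
  TrL.n)))))))) (by decide +kernel)
theorem bx3_28 : BoxOK sI cl9 cl13 cl4 t5 t0 b3_28 :=
  box_mk (TrL.c (I.pos (nat_lit 0) (nat_lit 0)) (xa T5.l44 T5.l44)
  (TrL.c (I.pos (nat_lit 0) (nat_lit 0)) T0.l47
  (TrL.c (I.pos (nat_lit 0) (nat_lit 124588530)) (xR T5.l16 (xR T5.l4 (xR T5.l4 T5.l35)))
  (TrL.c (I.pos (nat_lit 0) (nat_lit 96881482)) (xR (xR T0.l48 T0.l48) T0.l37)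
  (TrL.c (I.pos (nat_lit 0) (nat_lit 0)) T0.l49
  (TrL.c (I.pos (nat_lit 0) (nat_lit 0)) T5.l46
  (TrL.c (I.mix (nat_lit 17240550) (nat_lit 96881482)) (xR (xR T0.l50 T0.l22) (xR T0.l27 (xR T0.l50 T0.l50)))
  (TrL.c (I.mix (nat_lit 17240550) (nat_lit 71940500)) (xR (xR T5.l6 T5.l54) T5.l14)
  TrL.n)))))))) (by decide +kernel)
theorem bx3_29 : BoxOK sI cl9 cl13 cl4 t5 t0 b3_29 :=
  box_mk (TrL.c (I.pos (nat_lit 0) (nat_lit 0)) (xa T5.l47 T5.l34)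
  (TrL.c (I.pos (nat_lit 0) (nat_lit 0)) (xa T0.l51 T0.l36)
  (TrL.c (I.pos (nat_lit 0) (nat_lit 124588530)) (xR T5.l16 (xR T5.l16 (xa T5.l27 T5.l35)))
  (TrL.c (I.pos (nat_lit 0) (nat_lit 96881482)) (xR T0.l27 (xR T0.l29 T0.l37))
  (TrL.c (I.pos (nat_lit 0) (nat_lit 0)) (xa T0.l52 T0.l30)
  (TrL.c (I.pos (nat_lit 0) (nat_lit 0)) T5.l49
  (TrL.c (I.mix (nat_lit 17240550) (nat_lit 96881482)) (xR T0.l39 (xR T0.l27 (xR T0.l31 T0.l53)))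
  (TrL.c (I.mix (nat_lit 17240550) (nat_lit 71940500)) (xR T5.l16 T5.l29)
  TrL.n)))))))) (by decide +kernel)
theorem c3_30_0 : chkTag sI cl9 cl13 cl4 t5 b3_30 (tg true true false RT.r2) (I.pos (nat_lit 0) (nat_lit 0))
  (xa (xb (xa (xs T5.l0 (xb (xa T5.l0 T5.l0) (xa T5.l0 T5.l0))) (xs (xb T5.l0 T5.l0) (xb (xa T5.l0 (xs T5.l0 T5.l0)) (xa T5.l0 T5.l0)))) (xa (xs (xb T5.l0 (xk T5.l0 T5.l0)) (xb (xk T5.l0 T5.l0) (xk (xa T5.l0 T5.l0) T5.l0))) (xs (xb T5.l0 (xk T5.l0 T5.l0)) (xb (xk T5.l0 T5.l0) (xk (xa T5.l0 T5.l0) T5.l0))))) (xb (xa (xs (xb T5.l0 T5.l0) (xb (xa T5.l0 (xs T5.l0 T5.l0)) (xa T5.l0 (xs T5.l0 T5.l0)))) (xs (xb T5.l0 T5.l0) (xb (xa (xs T5.l0 T5.l0) (xs (xk T5.l0 T5.l0) (xk T5.l0 (xb T5.l0 T5.l0)))) (xa (xs T5.l0 T5.l0) (xs T5.l0 (xk T5.l0 T5.l0)))))) (xa (xs (xb T5.l0 (xk T5.l0 T5.l0)) (xb (xk T5.l0 (xs T5.l0 T5.l0)) (xk (xa T5.l0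 T5.l0) (xs T5.l0 T5.l0)))) (xs (xb T5.l0 (xk T5.l0 T5.l0)) (xb (xk (xs T5.l0 T5.l0) (xs T5.l0 (xa T5.l0 T5.l0))) (xk (xa T5.l0 T5.l0) (xs T5.l0 (xa T5.l0 T5.l0)))))))) = true := by decide +kernel
theorem c3_30_1 : chkTag sI cl9 cl13 cl4 t0 b3_30 (tg true false false RT.r3) (I.pos (nat_lit 0) (nat_lit 0))
  (xk (xa (xb T0.l19 T0.l19) (xb T0.l19 T0.l19)) (xa (xb T0.l19 T0.l19) (xb T0.l19 T0.l19))) = true := by decide +kernel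
theorem c3_30_2 : chkTag sI cl9 cl13 cl4 t5 b3_30 (Tag.mk true true false RT.tl RT.r4) (I.pos (nat_lit 0) (nat_lit 124588530))
  (xR T5.l16 (xR T5.l31 (xR T5.l18 (xR T5.l18 T5.l18)))) = true := by decide +kernel
theorem c3_30_3 : chkTag sI cl9 cl13 cl4 t0 b3_30 (Tag.mk true false false RT.tl RT.r5) (I.pos (nat_lit 0) (nat_lit 96881482))
  (xR (xR T0.l23 T0.l20) (xR T0.l20 (xR T0.l20 T0.l20))) = true := by decide +kernel
theorem c3_30_4 : chkTag sI cl9 cl13 cl4 t0 b3_30 (tg false false false RT.r3) (I.pos (nat_lit 0) (nat_lit 0))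
  (xk (xa T0.l21 T0.l21) (xa T0.l21 (xb T0.l21 T0.l21))) = true := by decide +kernel
theorem c3_30_5 : chkTag sI cl9 cl13 cl4 t5 b3_30 (tg false true false RT.r4) (I.pos (nat_lit 0) (nat_lit 0))
  T5.l19 = true := by decide +kernel
theorem c3_30_6 : chkTag sI cl9 cl13 cl4 t0 b3_30 (Tag.mk false false false RT.tl RT.r5) (I.mix (nat_lit 17240550) (nat_lit 96881482))
  (xR (xR T0.l22 T0.l22) (xR T0.l22 (xR T0.l22 T0.l22))) = true := by decide +kernel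
theorem c3_30_7 : chkTag sI cl9 cl13 cl4 t5 b3_30 (Tag.mk false true false RT.tl RT.r6) (I.mix (nat_lit 17240550) (nat_lit 71940500))
  (xR (xR T5.l21 T5.l21) (xR T5.l21 (xR T5.l21 T5.l21))) = true := by decide +kernel
theorem bx3_30 : BoxOK sI cl9 cl13 cl4 t5 t0 b3_30 :=
  box_mk' [(tg true true false RT.r2), (tg true false false RT.r3), (Tag.mk true true false RT.tl RT.r4), (Tag.mk true false false RT.tl RT.r5), (tg false false false RT.r3), (tg false true false RT.r4), (Tag.mk false false false RT.tl RT.r5), (Tag.mk false true false RT.tl RT.r6)] rfl (allL_c (ex_mk c3_30_0) (allL_c (ex_mk c3_30_1) (allL_c (ex_mk c3_30_2) (allL_c (ex_mk c3_30_3) (allL_c (ex_mk c3_30_4) (allL_c (ex_mk c3_30_5) (allL_c (ex_mk c3_30_6) (allL_c (ex_mk c3_30_7) allL_n))))))))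
theorem bx3_31 : BoxOK sI cl9 cl13 cl4 t5 t0 b3_31 :=
  box_mk (TrL.c (I.pos (nat_lit 0) (nat_lit 0)) (xa (xa T5.l34 T5.l34) (xa (xa T5.l40 T5.l40) (xa T5.l40 T5.l40)))
  (TrL.c (I.pos (nat_lit 0) (nat_lit 0)) (xa (xa T0.l36 T0.l36) (xa T0.l36 T0.l55))
  (TrL.c (I.pos (nat_lit 0) (nat_lit 124588530)) (xR T5.l16 (xR T5.l16 (xa (xR T5.l4 T5.l35) (xR T5.l4 T5.l35))))
  (TrL.c (I.pos (nat_lit 0) (nat_lit 96881482)) (xR (xR T0.l27 T0.l31) (xR (xR T0.l37 T0.l37) (xa (xR T0.l45 T0.l45) (xR T0.l20 T0.l37))))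
  (TrL.c (I.pos (nat_lit 0) (nat_lit 0)) (xa T0.l54 (xa T0.l54 T0.l38))
  (TrL.c (I.pos (nat_lit 0) (nat_lit 0)) T5.l42
  (TrL.c (I.mix (nat_lit 17240550) (nat_lit 96881482)) (xR (xR T0.l39 T0.l27) (xR T0.l27 (xa (xR T0.l46 T0.l46) T0.l27)))
  (TrL.c (I.mix (nat_lit 17240550) (nat_lit 71940500)) (xR T5.l17 (xR T5.l37 (xa T5.l6 T5.l14)))
  TrL.n)))))))) (by decide +kernel)
theorem bx3_32 : BoxOK sI cl9 cl13 cl4 t5 t0 b3_32 :=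
  box_mk (TrL.c (I.pos (nat_lit 0) (nat_lit 0)) (xa (xb T5.l44 T5.l44) (xb T5.l44 T5.l44))
  (TrL.c (I.pos (nat_lit 0) (nat_lit 0)) (xk T0.l47 T0.l47)
  (TrL.c (I.pos (nat_lit 0) (nat_lit 124588530)) (xR T5.l16 (xR T5.l4 (xR T5.l4 T5.l45)))
  (TrL.c (I.pos (nat_lit 0) (nat_lit 96881482)) (xR (xR T0.l20 T0.l20) (xR (xR T0.l48 T0.l48) (xR T0.l48 T0.l48)))
  (TrL.c (I.pos (nat_lit 0) (nat_lit 0)) (xk T0.l49 T0.l49)
  (TrL.c (I.pos (nat_lit 0) (nat_lit 0)) T5.l46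
  (TrL.c (I.mix (nat_lit 17240550) (nat_lit 96881482)) (xR (xR T0.l50 T0.l22) (xR T0.l27 (xR T0.l50 T0.l50)))
  (TrL.c (I.mix (nat_lit 17240550) (nat_lit 71940500)) (xR (xR T5.l6 T5.l14) (xR T5.l14 T5.l14))
  TrL.n)))))))) (by decide +kernel)
theorem bx3_33 : BoxOK sI cl9 cl13 cl4 t5 t0 b3_33 :=
  box_mk (TrL.c (I.pos (nat_lit 0) (nat_lit 0)) (xa T5.l34 T5.l34)
  (TrL.c (I.pos (nat_lit 0) (nat_lit 0)) (xa T0.l28 T0.l28)
  (TrL.c (I.pos (nat_lit 0) (nat_lit 124588530)) (xR T5.l16 (xR T5.l4 T5.l35))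
  (TrL.c (I.pos (nat_lit 0) (nat_lit 96881482)) (xR T0.l50 (xR T0.l31 T0.l37))
  (TrL.c (I.pos (nat_lit 0) (nat_lit 0)) (xa T0.l52 T0.l30)
  (TrL.c (I.pos (nat_lit 0) (nat_lit 0)) T5.l49
  (TrL.c (I.mix (nat_lit 17240550) (nat_lit 96881482)) (xR T0.l31 (xR T0.l27 (xR T0.l27 T0.l53)))
  (TrL.c (I.mix (nat_lit 17240550) (nat_lit 71940500)) (xR T5.l16 T5.l37)
  TrL.n)))))))) (by decide +kernel)
theorem c3_34_0 : chkTag sI cl9 cl13 cl4 t5 b3_34 (tg true true false RT.r2) (I.pos (nat_lit 0) (nat_lit 0))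
  (xa (xb (xa (xb (xa T5.l0 T5.l0) (xa T5.l0 T5.l0)) (xb (xa T5.l0 T5.l0) (xa T5.l0 T5.l0))) (xa (xb (xs T5.l0 (xa T5.l0 T5.l0)) (xs (xa T5.l0 T5.l0) (xa (xc T5.l0 T5.l0) (xc T5.l0 T5.l0)))) (xs (xb T5.l0 (xa T5.l0 T5.l0)) (xb (xa T5.l0 T5.l0) (xa (xc T5.l0 T5.l0) (xc T5.l0 T5.l0)))))) (xb (xa (xb (xa T5.l0 T5.l0) (xs T5.l0 T5.l0)) (xs (xb T5.l3 T5.l3) (xb (xa T5.l0 T5.l3) (xa T5.l0 T5.l3)))) (xa (xs (xb T5.l0 (xa T5.l0 T5.l0)) (xb (xa T5.l0 T5.l0) (xa T5.l0 T5.l0))) (xs (xa T5.l0 T5.l3) (xb (xa T5.l0 T5.l3) (xa T5.l3 (xk T5.l3 T5.l0))))))) = true := by decide +kernel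
theorem c3_34_1 : chkTag sI cl9 cl13 cl4 t0 b3_34 (tg true false false RT.r3) (I.pos (nat_lit 0) (nat_lit 0))
  (xa (xk (xb (xa T0.l19 T0.l2) (xa T0.l19 T0.l2)) (xb (xa T0.l19 T0.l19) (xa T0.l19 T0.l19))) (xk (xb (xa T0.l2 T0.l2) (xa T0.l2 (xk T0.l2 T0.l2))) (xb (xa T0.l19 T0.l2) (xa T0.l19 T0.l2)))) = true := by decide +kernel
theorem c3_34_2 : chkTag sI cl9 cl13 cl4 t5 b3_34 (Tag.mk true true false RT.tl RT.r4) (I.pos (nat_lit 0) (nat_lit 124588530))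
  (xR (xR T5.l16 T5.l4) (xR T5.l4 (xR T5.l4 (xa T5.l4 T5.l4)))) = true := by decide +kernel
theorem c3_34_3 : chkTag sI cl9 cl13 cl4 t0 b3_34 (Tag.mk true false false RT.tl RT.r5) (I.pos (nat_lit 0) (nat_lit 96881482))
  (xR (xR (xR T0.l23 T0.l20) (xR T0.l20 T0.l20)) (xR (xR T0.l20 T0.l20) (xR (xk T0.l20 T0.l20) (xk (xa T0.l20 T0.l20) T0.l20)))) = true := by decide +kernel
theorem c3_34_4 : chkTag sI cl9 cl13 cl4 t0 b3_34 (tg false false false RT.r3) (I.pos (nat_lit 0) (nat_lit 0))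
  (xa (xk (xb (xa T0.l21 T0.l21) T0.l21) (xb (xa T0.l21 T0.l21) T0.l21)) (xk (xb (xa (xk T0.l21 T0.l21) (xk T0.l21 T0.l21)) (xa T0.l21 (xk T0.l21 T0.l21))) (xb (xa T0.l21 (xk T0.l21 T0.l21)) (xa T0.l21 (xk T0.l21 T0.l21))))) = true := by decide +kernel
theorem c3_34_5 : chkTag sI cl9 cl13 cl4 t5 b3_34 (tg false true false RT.r4) (I.pos (nat_lit 0) (nat_lit 0))
  (xk (xa T5.l19 T5.l19) (xa T5.l19 T5.l19)) = true := by decide +kernel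
theorem c3_34_6 : chkTag sI cl9 cl13 cl4 t0 b3_34 (Tag.mk false false false RT.tl RT.r5) (I.mix (nat_lit 17240550) (nat_lit 96881482))
  (xR (xR (xR T0.l22 T0.l22) T0.l22) (xR (xR T0.l22 T0.l22) (xR T0.l22 (xk (xR T0.l22 T0.l22) T0.l22)))) = true := by decide +kernel
theorem c3_34_7 : chkTag sI cl9 cl13 cl4 t5 b3_34 (Tag.mk false true false RT.tl RT.r6) (I.mix (nat_lit 17240550) (nat_lit 71940500))
  (xR (xR T5.l21 T5.l21) (xR T5.l21 (xR T5.l21 T5.l21))) = true := by decide +kernel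
theorem bx3_34 : BoxOK sI cl9 cl13 cl4 t5 t0 b3_34 :=
  box_mk' [(tg true true false RT.r2), (tg true false false RT.r3), (Tag.mk true true false RT.tl RT.r4), (Tag.mk true false false RT.tl RT.r5), (tg false false false RT.r3), (tg false true false RT.r4), (Tag.mk false false false RT.tl RT.r5), (Tag.mk false true false RT.tl RT.r6)] rfl (allL_c (ex_mk c3_34_0) (allL_c (ex_mk c3_34_1) (allL_c (ex_mk c3_34_2) (allL_c (ex_mk c3_34_3) (allL_c (ex_mk c3_34_4) (allL_c (ex_mk c3_34_5) (allL_c (ex_mk c3_34_6) (allL_c (ex_mk c3_34_7) allL_n))))))))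
theorem bx3_35 : BoxOK sI cl9 cl13 cl4 t5 t0 b3_35 :=
  box_mk (TrL.c (I.pos (nat_lit 0) (nat_lit 0)) (xa (xa T5.l40 T5.l40) (xa T5.l40 (xa T5.l40 T5.l40)))
  (TrL.c (I.pos (nat_lit 0) (nat_lit 0)) (xa T0.l55 (xa T0.l55 T0.l55))
  (TrL.c (I.pos (nat_lit 0) (nat_lit 124588530)) (xR T5.l16 (xR T5.l4 (xR T5.l4 (xa T5.l41 T5.l41))))
  (TrL.c (I.pos (nat_lit 0) (nat_lit 96881482)) (xR (xR T0.l25 T0.l31) (xR T0.l37 (xa T0.l45 T0.l37)))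
  (TrL.c (I.pos (nat_lit 0) (nat_lit 0)) (xa T0.l54 T0.l54)
  (TrL.c (I.pos (nat_lit 0) (nat_lit 0)) T5.l42
  (TrL.c (I.mix (nat_lit 17240550) (nat_lit 96881482)) (xR (xR T0.l39 T0.l27) (xR T0.l27 (xR T0.l46 T0.l46)))
  (TrL.c (I.mix (nat_lit 17240550) (nat_lit 71940500)) (xR (xR T5.l6 T5.l43) (xR T5.l43 T5.l43))
  TrL.n)))))))) (by decide +kernel)
theorem bx3_36 : BoxOK sI cl9 cl13 cl4 t5 t0 b3_36 :=
  box_mk (TrL.c (I.pos (nat_lit 0) (nat_lit 0)) (xa T5.l44 T5.l44)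
  (TrL.c (I.pos (nat_lit 0) (nat_lit 0)) (xk T0.l47 T0.l47)
  (TrL.c (I.pos (nat_lit 0) (nat_lit 124588530)) (xR T5.l16 (xR T5.l4 (xR T5.l4 T5.l35)))
  (TrL.c (I.pos (nat_lit 0) (nat_lit 96881482)) (xR (xR T0.l48 T0.l48) (xR T0.l48 T0.l37))
  (TrL.c (I.pos (nat_lit 0) (nat_lit 0)) T0.l49
  (TrL.c (I.pos (nat_lit 0) (nat_lit 0)) T5.l46
  (TrL.c (I.mix (nat_lit 17240550) (nat_lit 96881482)) (xR (xR T0.l50 T0.l22) (xR T0.l27 (xR T0.l50 T0.l50)))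
  (TrL.c (I.mix (nat_lit 17240550) (nat_lit 71940500)) (xR (xR T5.l6 T5.l54) T5.l14)
  TrL.n)))))))) (by decide +kernel)
theorem bx3_37 : BoxOK sI cl9 cl13 cl4 t5 t0 b3_37 :=
  box_mk (TrL.c (I.pos (nat_lit 0) (nat_lit 0)) (xa T5.l47 T5.l34)
  (TrL.c (I.pos (nat_lit 0) (nat_lit 0)) (xa T0.l51 T0.l36)
  (TrL.c (I.pos (nat_lit 0) (nat_lit 124588530)) (xR T5.l16 (xR T5.l16 (xa T5.l27 T5.l35)))
  (TrL.c (I.pos (nat_lit 0) (nat_lit 96881482)) (xR T0.l27 (xR T0.l29 (xa T0.l56 T0.l29)))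
  (TrL.c (I.pos (nat_lit 0) (nat_lit 0)) (xa T0.l52 T0.l30)
  (TrL.c (I.pos (nat_lit 0) (nat_lit 0)) T5.l49
  (TrL.c (I.mix (nat_lit 17240550) (nat_lit 96881482)) (xR (xR T0.l31 T0.l27) (xR T0.l27 (xR T0.l31 T0.l53)))
  (TrL.c (I.mix (nat_lit 17240550) (nat_lit 71940500)) (xR T5.l16 T5.l29)
  TrL.n)))))))) (by decide +kernel)
theorem bx3_38 : BoxOK sI cl9 cl13 cl4 t5 t0 b3_38 :=
  box_mk (TrL.c (I.pos (nat_lit 0) (nat_lit 0)) T5.l0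
  (TrL.c (I.pos (nat_lit 0) (nat_lit 0)) (xk T0.l19 T0.l19)
  (TrL.c (I.pos (nat_lit 0) (nat_lit 124588530)) (xR T5.l16 (xR T5.l4 (xR T5.l18 T5.l18)))
  (TrL.c (I.pos (nat_lit 0) (nat_lit 96881482)) (xR (xR T0.l23 T0.l20) (xR T0.l20 T0.l20))
  (TrL.c (I.pos (nat_lit 0) (nat_lit 0)) T0.l21
  (TrL.c (I.pos (nat_lit 0) (nat_lit 0)) T5.l19
  (TrL.c (I.mix (nat_lit 17240550) (nat_lit 96881482)) (xR T0.l22 (xR T0.l22 (xR T0.l22 T0.l22)))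
  (TrL.c (I.mix (nat_lit 17240550) (nat_lit 71940500)) (xR (xR T5.l21 T5.l21) T5.l14)
  TrL.n)))))))) (by decide +kernel)
theorem bx3_39 : BoxOK sI cl9 cl13 cl4 t5 t0 b3_39 :=
  box_mk (TrL.c (I.pos (nat_lit 0) (nat_lit 0)) T5.l44
  (TrL.c (I.pos (nat_lit 0) (nat_lit 0)) T0.l47
  (TrL.c (I.pos (nat_lit 0) (nat_lit 124588530)) (xR T5.l16 (xR T5.l4 (xR T5.l4 T5.l45)))
  (TrL.c (I.pos (nat_lit 0) (nat_lit 96881482)) (xR (xR T0.l48 T0.l48) (xR T0.l48 T0.l37))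
  (TrL.c (I.pos (nat_lit 0) (nat_lit 0)) T0.l49
  (TrL.c (I.pos (nat_lit 0) (nat_lit 0)) T5.l46
  (TrL.c (I.mix (nat_lit 17240550) (nat_lit 96881482)) (xR (xR T0.l50 T0.l22) (xR T0.l27 T0.l27))
  (TrL.c (I.mix (nat_lit 17240550) (nat_lit 71940500)) (xR T5.l17 T5.l14)
  TrL.n)))))))) (by decide +kernel)
theorem bx3_40 : BoxOK sI cl9 cl13 cl4 t5 t0 b3_40 :=
  box_mk (TrL.c (I.pos (nat_lit 0) (nat_lit 0)) T5.l26
  (TrL.c (I.pos (nat_lit 0) (nat_lit 0)) T0.l28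
  (TrL.c (I.pos (nat_lit 0) (nat_lit 124588530)) (xR T5.l16 (xR T5.l4 T5.l35))
  (TrL.c (I.pos (nat_lit 0) (nat_lit 96881482)) (xR T0.l27 T0.l29)
  (TrL.c (I.pos (nat_lit 0) (nat_lit 0)) T0.l30
  (TrL.c (I.pos (nat_lit 0) (nat_lit 0)) T5.l49
  (TrL.c (I.mix (nat_lit 17240550) (nat_lit 96881482)) (xR T0.l31 T0.l27)
  (TrL.c (I.mix (nat_lit 17240550) (nat_lit 71940500)) (xR T5.l12 T5.l50)
  TrL.n)))))))) (by decide +kernel)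
theorem bx3_41 : BoxOK sI cl9 cl13 cl4 t5 t0 b3_41 :=
  box_mk (TrL.c (I.pos (nat_lit 0) (nat_lit 0)) (xa T5.l0 T5.l3)
  (TrL.c (I.pos (nat_lit 0) (nat_lit 0)) (xk T0.l2 T0.l2)
  (TrL.c (I.pos (nat_lit 0) (nat_lit 124588530)) (xR (xR T5.l16 T5.l4) (xR T5.l4 T5.l18))
  (TrL.c (I.pos (nat_lit 0) (nat_lit 96881482)) (xR (xR T0.l23 T0.l20) (xR T0.l20 (xR T0.l20 T0.l20)))
  (TrL.c (I.pos (nat_lit 0) (nat_lit 0)) (xk T0.l0 T0.l0)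
  (TrL.c (I.pos (nat_lit 0) (nat_lit 0)) T5.l19
  (TrL.c (I.mix (nat_lit 17240550) (nat_lit 96881482)) (xR (xR T0.l22 T0.l22) (xR T0.l22 (xR T0.l22 (xR T0.l22 T0.l22))))
  (TrL.c (I.mix (nat_lit 17240550) (nat_lit 71940500)) (xR (xR T5.l21 T5.l21) (xR T5.l21 T5.l21))
  TrL.n)))))))) (by decide +kernel)
theorem bx3_42 : BoxOK sI cl9 cl13 cl4 t5 t0 b3_42 :=
  box_mk (TrL.c (I.pos (nat_lit 0) (nat_lit 0)) (xa T5.l40 (xa T5.l40 T5.l40))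
  (TrL.c (I.pos (nat_lit 0) (nat_lit 0)) (xa T0.l55 T0.l55)
  (TrL.c (I.pos (nat_lit 0) (nat_lit 124588530)) (xR T5.l16 (xR T5.l4 (xR T5.l4 T5.l41)))
  (TrL.c (I.pos (nat_lit 0) (nat_lit 96881482)) (xR (xR T0.l20 T0.l20) T0.l37)
  (TrL.c (I.pos (nat_lit 0) (nat_lit 0)) (xa T0.l54 T0.l54)
  (TrL.c (I.pos (nat_lit 0) (nat_lit 0)) T5.l42
  (TrL.c (I.mix (nat_lit 17240550) (nat_lit 96881482)) (xR (xR T0.l31 T0.l22) (xR T0.l27 T0.l27))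
  (TrL.c (I.mix (nat_lit 17240550) (nat_lit 71940500)) (xR T5.l17 (xR T5.l43 T5.l43))
  TrL.n)))))))) (by decide +kernel)
theorem bx3_43 : BoxOK sI cl9 cl13 cl4 t5 t0 b3_43 :=
  box_mk (TrL.c (I.pos (nat_lit 0) (nat_lit 0)) (xa T5.l44 T5.l44)
  (TrL.c (I.pos (nat_lit 0) (nat_lit 0)) T0.l47
  (TrL.c (I.pos (nat_lit 0) (nat_lit 124588530)) (xR T5.l16 (xR T5.l4 (xR T5.l4 T5.l35)))
  (TrL.c (I.pos (nat_lit 0) (nat_lit 96881482)) (xR (xR T0.l48 T0.l48) T0.l37)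
  (TrL.c (I.pos (nat_lit 0) (nat_lit 0)) T0.l49
  (TrL.c (I.pos (nat_lit 0) (nat_lit 0)) T5.l46
  (TrL.c (I.mix (nat_lit 17240550) (nat_lit 96881482)) (xR (xR T0.l50 T0.l22) (xR T0.l27 (xR T0.l50 T0.l50)))
  (TrL.c (I.mix (nat_lit 17240550) (nat_lit 71940500)) (xR (xR T5.l6 T5.l54) T5.l14)
  TrL.n)))))))) (by decide +kernel)
theorem bx3_44 : BoxOK sI cl9 cl13 cl4 t5 t0 b3_44 :=
  box_mk (TrL.c (I.pos (nat_lit 0) (nat_lit 0)) T5.l26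
  (TrL.c (I.pos (nat_lit 0) (nat_lit 0)) T0.l51
  (TrL.c (I.pos (nat_lit 0) (nat_lit 124588530)) (xR T5.l4 (xR T5.l4 T5.l35))
  (TrL.c (I.pos (nat_lit 0) (nat_lit 96881482)) (xR T0.l20 T0.l29)
  (TrL.c (I.pos (nat_lit 0) (nat_lit 0)) T0.l52
  (TrL.c (I.pos (nat_lit 0) (nat_lit 0)) T5.l49
  (TrL.c (I.mix (nat_lit 17240550) (nat_lit 96881482)) (xR T0.l31 T0.l27)
  (TrL.c (I.mix (nat_lit 17240550) (nat_lit 71940500)) T5.l16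
  TrL.n)))))))) (by decide +kernel)
theorem bx3_45 : BoxOK sI cl9 cl13 cl4 t5 t0 b3_45 :=
  box_mk (TrL.c (I.pos (nat_lit 0) (nat_lit 0)) (xa T5.l0 (xa T5.l0 T5.l0))
  (TrL.c (I.pos (nat_lit 0) (nat_lit 0)) (xk (xa T0.l19 T0.l2) (xa T0.l19 T0.l19))
  (TrL.c (I.pos (nat_lit 0) (nat_lit 124588530)) (xR (xR T5.l16 T5.l4) (xR T5.l4 (xR T5.l18 T5.l18)))
  (TrL.c (I.pos (nat_lit 0) (nat_lit 96881482)) (xR (xR T0.l23 T0.l20) (xR T0.l20 (xR T0.l20 T0.l20)))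
  (TrL.c (I.pos (nat_lit 0) (nat_lit 0)) (xk T0.l21 T0.l21)
  (TrL.c (I.pos (nat_lit 0) (nat_lit 0)) T5.l19
  (TrL.c (I.mix (nat_lit 17240550) (nat_lit 96881482)) (xR (xR T0.l22 T0.l22) (xR T0.l22 (xR T0.l22 T0.l22)))
  (TrL.c (I.mix (nat_lit 17240550) (nat_lit 71940500)) (xR (xR T5.l21 T5.l21) (xR T5.l21 T5.l21))
  TrL.n)))))))) (by decide +kernel)
theorem bx3_46 : BoxOK sI cl9 cl13 cl4 t5 t0 b3_46 :=
  box_mk (TrL.c (I.pos (nat_lit 0) (nat_lit 0)) (xa T5.l0 T5.l0)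
  (TrL.c (I.pos (nat_lit 0) (nat_lit 0)) (xk (xa T0.l19 T0.l19) (xa T0.l19 T0.l19))
  (TrL.c (I.pos (nat_lit 0) (nat_lit 124588530)) (xR T5.l16 (xR T5.l4 (xR T5.l18 T5.l18)))
  (TrL.c (I.pos (nat_lit 0) (nat_lit 96881482)) (xR (xR T0.l23 T0.l20) (xR T0.l20 (xR T0.l20 T0.l20)))
  (TrL.c (I.pos (nat_lit 0) (nat_lit 0)) (xk T0.l21 T0.l21)
  (TrL.c (I.pos (nat_lit 0) (nat_lit 0)) T5.l19
  (TrL.c (I.mix (nat_lit 17240550) (nat_lit 96881482)) (xR (xR T0.l22 T0.l22) (xR T0.l22 (xR T0.l22 T0.l22)))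
  (TrL.c (I.mix (nat_lit 17240550) (nat_lit 71940500)) (xR (xR T5.l21 T5.l21) T5.l14)
  TrL.n)))))))) (by decide +kernel)
theorem bx3_47 : BoxOK sI cl9 cl13 cl4 t5 t0 b3_47 :=
  box_mk (TrL.c (I.pos (nat_lit 0) (nat_lit 0)) (xa T5.l40 T5.l40)
  (TrL.c (I.pos (nat_lit 0) (nat_lit 0)) T0.l55
  (TrL.c (I.pos (nat_lit 0) (nat_lit 124588530)) (xR T5.l16 (xR T5.l4 (xR T5.l4 T5.l41)))
  (TrL.c (I.pos (nat_lit 0) (nat_lit 96881482)) (xR T0.l33 T0.l37)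
  (TrL.c (I.pos (nat_lit 0) (nat_lit 0)) T0.l54
  (TrL.c (I.pos (nat_lit 0) (nat_lit 0)) T5.l42
  (TrL.c (I.mix (nat_lit 17240550) (nat_lit 96881482)) (xR T0.l39 (xR T0.l27 T0.l27))
  (TrL.c (I.mix (nat_lit 17240550) (nat_lit 71940500)) (xR T5.l17 T5.l14)
  TrL.n)))))))) (by decide +kernel)
theorem bx3_48 : BoxOK sI cl9 cl13 cl4 t5 t0 b3_48 :=
  box_mk (TrL.c (I.pos (nat_lit 0) (nat_lit 0)) (xa T5.l44 T5.l44)
  (TrL.c (I.pos (nat_lit 0) (nat_lit 0)) T0.l47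
  (TrL.c (I.pos (nat_lit 0) (nat_lit 124588530)) (xR T5.l16 (xR T5.l4 (xR T5.l4 T5.l45)))
  (TrL.c (I.pos (nat_lit 0) (nat_lit 96881482)) (xR (xR T0.l48 T0.l48) (xR T0.l48 (xR T0.l48 T0.l48)))
  (TrL.c (I.pos (nat_lit 0) (nat_lit 0)) T0.l49
  (TrL.c (I.pos (nat_lit 0) (nat_lit 0)) T5.l46
  (TrL.c (I.mix (nat_lit 17240550) (nat_lit 96881482)) (xR (xR T0.l50 T0.l22) (xR T0.l27 (xR T0.l50 T0.l50)))
  (TrL.c (I.mix (nat_lit 17240550) (nat_lit 71940500)) (xR (xR T5.l6 T5.l14) T5.l14)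
  TrL.n)))))))) (by decide +kernel)
theorem bx3_49 : BoxOK sI cl9 cl13 cl4 t5 t0 b3_49 :=
  box_mk (TrL.c (I.pos (nat_lit 0) (nat_lit 0)) (xa T5.l40 T5.l40)
  (TrL.c (I.pos (nat_lit 0) (nat_lit 0)) T0.l55
  (TrL.c (I.pos (nat_lit 0) (nat_lit 124588530)) (xR T5.l16 (xR T5.l4 (xR T5.l4 T5.l41)))
  (TrL.c (I.pos (nat_lit 0) (nat_lit 96881482)) (xR T0.l33 T0.l37)
  (TrL.c (I.pos (nat_lit 0) (nat_lit 0)) T0.l54
  (TrL.c (I.pos (nat_lit 0) (nat_lit 0)) T5.l42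
  (TrL.c (I.mix (nat_lit 17240550) (nat_lit 96881482)) (xR (xR T0.l31 T0.l22) (xR T0.l27 T0.l27))
  (TrL.c (I.mix (nat_lit 17240550) (nat_lit 71940500)) (xR T5.l17 T5.l14)
  TrL.n)))))))) (by decide +kernel)
theorem bx3_50 : BoxOK sI cl9 cl13 cl4 t5 t0 b3_50 :=
  box_mk (TrL.c (I.pos (nat_lit 0) (nat_lit 0)) T5.l26
  (TrL.c (I.pos (nat_lit 0) (nat_lit 0)) T0.l28
  (TrL.c (I.pos (nat_lit 0) (nat_lit 124588530)) (xR T5.l16 (xR T5.l4 T5.l35))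
  (TrL.c (I.pos (nat_lit 0) (nat_lit 96881482)) (xR T0.l27 T0.l29)
  (TrL.c (I.pos (nat_lit 0) (nat_lit 0)) T0.l30
  (TrL.c (I.pos (nat_lit 0) (nat_lit 0)) T5.l49
  (TrL.c (I.mix (nat_lit 17240550) (nat_lit 96881482)) (xR T0.l31 T0.l27)
  (TrL.c (I.mix (nat_lit 17240550) (nat_lit 71940500)) (xR T5.l12 T5.l14)
  TrL.n)))))))) (by decide +kernel)
theorem bx3_51 : BoxOK sI cl9 cl13 cl4 t5 t0 b3_51 :=
  box_mk (TrL.c (I.pos (nat_lit 0) (nat_lit 0)) (xa T5.l0 (xb T5.l0 T5.l0))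
  (TrL.c (I.pos (nat_lit 0) (nat_lit 0)) (xk T0.l2 T0.l2)
  (TrL.c (I.pos (nat_lit 0) (nat_lit 124588530)) (xR (xR T5.l16 T5.l4) (xR T5.l4 T5.l18))
  (TrL.c (I.pos (nat_lit 0) (nat_lit 96881482)) (xR (xR T0.l23 T0.l20) (xR T0.l20 (xR T0.l20 T0.l20)))
  (TrL.c (I.pos (nat_lit 0) (nat_lit 0)) (xk (xk T0.l21 T0.l21) (xa T0.l21 T0.l21))
  (TrL.c (I.pos (nat_lit 0) (nat_lit 0)) T5.l19
  (TrL.c (I.mix (nat_lit 17240550) (nat_lit 96881482)) (xR (xR T0.l22 T0.l22) (xR T0.l22 (xR T0.l22 (xR T0.l22 T0.l22))))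
  (TrL.c (I.mix (nat_lit 17240550) (nat_lit 71940500)) (xR (xR T5.l21 T5.l21) (xR T5.l21 T5.l21))
  TrL.n)))))))) (by decide +kernel)
theorem bx3_52 : BoxOK sI cl9 cl13 cl4 t5 t0 b3_52 :=
  box_mk (TrL.c (I.pos (nat_lit 0) (nat_lit 0)) (xa T5.l40 T5.l40)
  (TrL.c (I.pos (nat_lit 0) (nat_lit 0)) T0.l55
  (TrL.c (I.pos (nat_lit 0) (nat_lit 124588530)) (xR T5.l16 (xR T5.l4 (xR T5.l4 T5.l41)))
  (TrL.c (I.pos (nat_lit 0) (nat_lit 96881482)) (xR (xR T0.l20 T0.l20) T0.l37)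
  (TrL.c (I.pos (nat_lit 0) (nat_lit 0)) T0.l54
  (TrL.c (I.pos (nat_lit 0) (nat_lit 0)) T5.l42
  (TrL.c (I.mix (nat_lit 17240550) (nat_lit 96881482)) (xR (xR T0.l31 T0.l22) (xR T0.l27 T0.l27))
  (TrL.c (I.mix (nat_lit 17240550) (nat_lit 71940500)) (xR T5.l17 T5.l14)
  TrL.n)))))))) (by decide +kernel)
theorem bx3_53 : BoxOK sI cl9 cl13 cl4 t5 t0 b3_53 :=
  box_mk (TrL.c (I.pos (nat_lit 0) (nat_lit 0)) (xa T5.l44 T5.l44)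
  (TrL.c (I.pos (nat_lit 0) (nat_lit 0)) T0.l47
  (TrL.c (I.pos (nat_lit 0) (nat_lit 124588530)) (xR T5.l16 (xR T5.l4 (xR T5.l4 T5.l35)))
  (TrL.c (I.pos (nat_lit 0) (nat_lit 96881482)) (xR (xR T0.l48 T0.l48) T0.l37)
  (TrL.c (I.pos (nat_lit 0) (nat_lit 0)) T0.l49
  (TrL.c (I.pos (nat_lit 0) (nat_lit 0)) T5.l46
  (TrL.c (I.mix (nat_lit 17240550) (nat_lit 96881482)) (xR (xR T0.l50 T0.l22) (xR T0.l27 (xR T0.l50 T0.l50)))
  (TrL.c (I.mix (nat_lit 17240550) (nat_lit 71940500)) (xR (xR T5.l6 T5.l54) T5.l14)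
  TrL.n)))))))) (by decide +kernel)
theorem bx3_54 : BoxOK sI cl9 cl13 cl4 t5 t0 b3_54 :=
  box_mk (TrL.c (I.pos (nat_lit 0) (nat_lit 0)) T5.l44
  (TrL.c (I.pos (nat_lit 0) (nat_lit 0)) T0.l47
  (TrL.c (I.pos (nat_lit 0) (nat_lit 124588530)) (xR T5.l16 (xR T5.l4 (xR T5.l4 T5.l45)))
  (TrL.c (I.pos (nat_lit 0) (nat_lit 96881482)) (xR (xR T0.l48 T0.l48) T0.l37)
  (TrL.c (I.pos (nat_lit 0) (nat_lit 0)) T0.l49
  (TrL.c (I.pos (nat_lit 0) (nat_lit 0)) T5.l46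
  (TrL.c (I.mix (nat_lit 17240550) (nat_lit 96881482)) (xR (xR T0.l50 T0.l22) (xR T0.l27 T0.l27))
  (TrL.c (I.mix (nat_lit 17240550) (nat_lit 71940500)) (xR T5.l17 T5.l14)
  TrL.n)))))))) (by decide +kernel)
theorem sv3 : StarV sI cl9 cl13 cl4 t5 t0 t3 :=
  (bt_n (bt_n (bt_n (bt_n (bt_n (bt_b bx3_0) (bt_n (bt_b bx3_1) (bt_b bx3_2))) (bt_n (bt_b bx3_3) (bt_n (bt_b bx3_4) (bt_b bx3_5)))) (bt_n (bt_n (bt_b bx3_6) (bt_n (bt_b bx3_7) (bt_b bx3_8))) (bt_n (bt_n (bt_b bx3_9) (bt_b bx3_10)) (bt_n (bt_b bx3_11) (bt_b bx3_12))))) (bt_n (bt_n (bt_n (bt_b bx3_13) (bt_n (bt_b bx3_14) (bt_b bx3_15))) (bt_n (bt_n (bt_b bx3_16) (bt_b bx3_17)) (bt_n (bt_b bx3_18) (bt_b bx3_19)))) (bt_n (bt_n (bt_b bx3_20) (bt_n (bt_b bx3_21) (bt_b bx3_22))) (bt_n (bt_n (bt_b bx3_23) (bt_b bx3_24)) (bt_n (bt_b bx3_25) (bt_b bx3_26)))))) (bt_n (bt_n (bt_n (bt_n (bt_b bx3_27)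 (bt_n (bt_b bx3_28) (bt_b bx3_29))) (bt_n (bt_n (bt_b bx3_30) (bt_b bx3_31)) (bt_n (bt_b bx3_32) (bt_b bx3_33)))) (bt_n (bt_n (bt_b bx3_34) (bt_n (bt_b bx3_35) (bt_b bx3_36))) (bt_n (bt_n (bt_b bx3_37) (bt_b bx3_38)) (bt_n (bt_b bx3_39) (bt_b bx3_40))))) (bt_n (bt_n (bt_n (bt_b bx3_41) (bt_n (bt_b bx3_42) (bt_b bx3_43))) (bt_n (bt_n (bt_b bx3_44) (bt_b bx3_45)) (bt_n (bt_b bx3_46) (bt_b bx3_47)))) (bt_n (bt_n (bt_b bx3_48) (bt_n (bt_b bx3_49) (bt_b bx3_50))) (bt_n (bt_n (bt_b bx3_51) (bt_b bx3_52)) (bt_n (bt_b bx3_53) (bt_b bx3_54)))))))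
def S3 : StarD := StarD.mk cl9 cl13 cl4 5 0 t3
theorem c4_0_0 : chkTag sI cl13 cl4 cl9 t1 b4_0 (tg true true false RT.r2) (I.pos (nat_lit 0) (nat_lit 0))
  (xb (xa (xb T1.l0 T1.l0) (xb T1.l0 T1.l0)) (xa (xb (xa T1.l0 T1.l0) (xa (xs T1.l0 T1.l0) (xs T1.l0 (xb T1.l0 T1.l0)))) (xb (xa T1.l0 T1.l0) (xa (xs T1.l0 (xb T1.l0 T1.l0)) (xs (xk T1.l0 T1.l0) (xk T1.l0 T1.l0)))))) = true := by decide +kernel
theorem c4_0_1 : chkTag sI cl13 cl4 cl9 t3 b4_0 (tg true false false RT.r3) (I.pos (nat_lit 0) (nat_lit 0))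
  (xb (xk T3.l1 T3.l1) (xk (xa T3.l9 T3.l1) (xa T3.l1 T3.l1))) = true := by decide +kernel
theorem c4_0_2 : chkTag sI cl13 cl4 cl9 t1 b4_0 (Tag.mk true true false RT.tl RT.r4) (I.pos (nat_lit 0) (nat_lit 134217730))
  (xR T1.l20 (xR T1.l20 (xR T1.l1 (xb T1.l1 T1.l1)))) = true := by decide +kernel
theorem c4_0_3 : chkTag sI cl13 cl4 cl9 t3 b4_0 (Tag.mk true false false RT.tl RT.r5) (I.pos (nat_lit 0) (nat_lit 110514882))
  (xR (xR T3.l13 T3.l8) (xR T3.l33 (xR T3.l2 T3.l2))) = true := by decide +kernel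
theorem c4_0_4 : chkTag sI cl13 cl4 cl9 t3 b4_0 (tg false false false RT.r3) (I.pos (nat_lit 0) (nat_lit 0))
  (xb (xa T3.l3 (xk (xb T3.l3 T3.l3) (xb T3.l3 (xa T3.l3 T3.l3)))) (xa (xb (xk T3.l3 T3.l3) (xk (xa T3.l3 (xk T3.l3 (xs T3.l3 T3.l3))) (xa (xk T3.l3 T3.l3) (xs T3.l3 (xk T3.l3 (xb T3.l3 T3.l3)))))) (xk (xb (xa T3.l3 (xk (xb T3.l3 T3.l3) (xb T3.l3 T3.l3))) (xa (xs (xk T3.l3 T3.l3) (xk (xb T3.l3 T3.l3) (xb T3.l3 T3.l3))) (xs (xk (xb T3.l3 T3.l3) (xb T3.l3 (xa T3.l3 T3.l3))) (xb (xk T3.l3 T3.l3) (xk (xa T3.l3 (xk T3.l3 T3.l3)) (xa (xk T3.l3 T3.l3) (xk T3.l3 (xs T3.l3 T3.l3)))))))) (xb (xa (xk T3.l3 T3.l3) (xs T3.l3 (xk T3.l3 (xb T3.l3 T3.l3)))) (xa (xs (xk T3.l3 (xb T3.l3 T3.l3)) (xb (xk T3.l3 T3.l3) (xk (xa T3.l3 T3.l3) (xa T3.l3 (xk T3.l3 T3.l3))))) (xs (xb (xk T3.l3 T3.l3) (xk (xa T3.l3 (xk T3.l3 T3.l3)) (xa T3.l3 (xk T3.l3 (xs T3.l3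 T3.l3))))) (xb (xk (xa T3.l3 T3.l3) (xa T3.l3 (xk T3.l3 T3.l3))) (xk (xa (xk T3.l3 T3.l3) (xs T3.l3 (xk T3.l3 T3.l3))) (xa (xs T3.l3 (xk T3.l3 T3.l3)) (xs (xk T3.l3 T3.l3) (xk (xe T3.l3 T3.l3) (xe T3.l3 T3.l3)))))))))))) = true := by decide +kernel
theorem c4_0_5 : chkTag sI cl13 cl4 cl9 t1 b4_0 (tg false true false RT.r4) (I.pos (nat_lit 0) (nat_lit 0))
  (xb T1.l2 T1.l2) = true := by decide +kernel
theorem c4_0_6 : chkTag sI cl13 cl4 cl9 t3 b4_0 (Tag.mk false false false RT.tl RT.r5) (I.mix (nat_lit 8088324) (nat_lit 110514882))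
  (xR (xR T3.l4 T3.l4) (xR T3.l4 (xR T3.l4 (xb T3.l4 T3.l4)))) = true := by decide +kernel
theorem c4_0_7 : chkTag sI cl13 cl4 cl9 t1 b4_0 (Tag.mk false true false RT.tl RT.r6) (I.mix (nat_lit 8088324) (nat_lit 89478486))
  (xR T1.l30 (xR T1.l3 (xR T1.l3 T1.l3))) = true := by decide +kernel
theorem bx4_0 : BoxOK sI cl13 cl4 cl9 t1 t3 b4_0 :=
  box_mk' [(tg true true false RT.r2), (tg true false false RT.r3), (Tag.mk true true false RT.tl RT.r4), (Tag.mk true false false RT.tl RT.r5), (tg false false false RT.r3), (tg false true false RT.r4), (Tag.mk false false false RT.tl RT.r5), (Tag.mk false true false RT.tl RT.r6)] rfl (allL_c (ex_mk c4_0_0) (allL_c (ex_mk c4_0_1) (allL_c (ex_mk c4_0_2) (allL_c (ex_mk c4_0_3) (allL_c (ex_mk c4_0_4) (allL_c (ex_mk c4_0_5) (allL_c (ex_mk c4_0_6) (allL_c (ex_mk c4_0_7) allL_n))))))))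
theorem bx4_1 : BoxOK sI cl13 cl4 cl9 t1 t3 b4_1 :=
  box_mk (TrL.c (I.pos (nat_lit 0) (nat_lit 0)) (xa (xb T1.l4 T1.l4) (xb T1.l4 T1.l4))
  (TrL.c (I.pos (nat_lit 0) (nat_lit 0)) T3.l5
  (TrL.c (I.pos (nat_lit 0) (nat_lit 134217730)) (xR T1.l20 (xR T1.l5 (xR T1.l5 T1.l5)))
  (TrL.c (I.pos (nat_lit 0) (nat_lit 110514882)) (xR T3.l4 (xR T3.l8 (xR T3.l6 T3.l13)))
  (TrL.c (I.pos (nat_lit 0) (nat_lit 0)) T3.l7
  (TrL.c (I.pos (nat_lit 0) (nat_lit 0)) T1.l6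
  (TrL.c (I.mix (nat_lit 8088324) (nat_lit 110514882)) (xR T3.l4 (xR T3.l8 (xR T3.l8 T3.l8)))
  (TrL.c (I.mix (nat_lit 8088324) (nat_lit 89478486)) (xR T1.l7 T1.l24)
  TrL.n)))))))) (by decide +kernel)
theorem bx4_2 : BoxOK sI cl13 cl4 cl9 t1 t3 b4_2 :=
  box_mk (TrL.c (I.pos (nat_lit 0) (nat_lit 0)) (xa (xb T1.l8 (xa (xb T1.l8 T1.l8) (xb T1.l8 T1.l8))) (xb (xa T1.l8 T1.l8) (xa (xb T1.l8 T1.l8) (xb T1.l8 (xs T1.l8 T1.l8)))))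
  (TrL.c (I.pos (nat_lit 0) (nat_lit 0)) (xk (xb T3.l9 T3.l9) T3.l9)
  (TrL.c (I.pos (nat_lit 0) (nat_lit 134217730)) (xR T1.l20 (xR T1.l20 (xR T1.l9 T1.l9)))
  (TrL.c (I.pos (nat_lit 0) (nat_lit 110514882)) (xR (xR T3.l2 T3.l8) (xR T3.l33 (xR T3.l10 T3.l10)))
  (TrL.c (I.pos (nat_lit 0) (nat_lit 0)) (xb (xk T3.l11 (xa T3.l11 T3.l11)) (xk (xa (xk T3.l11 T3.l11) (xb T3.l11 (xa T3.l11 (xk T3.l11 (xs T3.l11 T3.l11))))) (xa (xb T3.l11 (xk T3.l11 T3.l11)) (xb (xk T3.l11 T3.l11) (xs (xk T3.l11 T3.l11) (xa T3.l11 (xk T3.l11 T3.l11)))))))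
  (TrL.c (I.pos (nat_lit 0) (nat_lit 0)) T1.l10
  (TrL.c (I.mix (nat_lit 8088324) (nat_lit 110514882)) (xR (xR T3.l4 T3.l4) (xR T3.l4 (xR T3.l12 T3.l12)))
  (TrL.c (I.mix (nat_lit 8088324) (nat_lit 89478486)) (xR T1.l30 (xR T1.l3 T1.l50))
  TrL.n)))))))) (by decide +kernel)
theorem bx4_3 : BoxOK sI cl13 cl4 cl9 t1 t3 b4_3 :=
  box_mk (TrL.c (I.pos (nat_lit 0) (nat_lit 0)) T3.l5
  (TrL.c (I.pos (nat_lit 0) (nat_lit 0)) T1.l5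
  (TrL.c (I.mix (nat_lit 8088324) (nat_lit 110514882)) (xR (xR T3.l15 T3.l4) (xR T3.l8 (xR T3.l13 T3.l13)))
  (TrL.c (I.mix (nat_lit 8088324) (nat_lit 89478486)) (xR (xR T1.l11 T1.l18) T1.l5)
  TrL.n)))) (by decide +kernel)
theorem bx4_4 : BoxOK sI cl13 cl4 cl9 t1 t3 b4_4 :=
  box_mk (TrL.c (I.pos (nat_lit 0) (nat_lit 0)) T3.l14
  (TrL.c (I.pos (nat_lit 0) (nat_lit 0)) T1.l14
  (TrL.c (I.mix (nat_lit 8088324) (nat_lit 110514882)) (xR (xR T3.l15 T3.l15) (xR T3.l8 (xR T3.l15 T3.l15)))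
  (TrL.c (I.mix (nat_lit 8088324) (nat_lit 89478486)) (xR (xR T1.l51 T1.l7) T1.l5)
  TrL.n)))) (by decide +kernel)
theorem bx4_5 : BoxOK sI cl13 cl4 cl9 t1 t3 b4_5 :=
  box_mk (TrL.c (I.pos (nat_lit 0) (nat_lit 0)) (xb (xa T1.l13 T1.l4) T1.l13)
  (TrL.c (I.pos (nat_lit 0) (nat_lit 0)) T3.l14
  (TrL.c (I.pos (nat_lit 0) (nat_lit 134217730)) (xR T1.l18 (xR T1.l5 (xR T1.l14 T1.l14)))
  (TrL.c (I.pos (nat_lit 0) (nat_lit 110514882)) (xR T3.l4 (xR T3.l8 (xR T3.l8 T3.l15)))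
  (TrL.c (I.pos (nat_lit 0) (nat_lit 0)) T3.l17
  (TrL.c (I.pos (nat_lit 0) (nat_lit 0)) T1.l15
  (TrL.c (I.mix (nat_lit 8088324) (nat_lit 110514882)) (xR T3.l4 (xR T3.l8 (xR T3.l18 T3.l18)))
  (TrL.c (I.mix (nat_lit 8088324) (nat_lit 89478486)) (xR T1.l7 T1.l24)
  TrL.n)))))))) (by decide +kernel)
theorem bx4_6 : BoxOK sI cl13 cl4 cl9 t1 t3 b4_6 :=
  box_mk (TrL.c (I.pos (nat_lit 0) (nat_lit 0)) (xa T1.l4 T1.l4)
  (TrL.c (I.pos (nat_lit 0) (nat_lit 0)) T3.l5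
  (TrL.c (I.pos (nat_lit 0) (nat_lit 134217730)) (xR T1.l20 (xR T1.l5 (xR T1.l5 T1.l5)))
  (TrL.c (I.pos (nat_lit 0) (nat_lit 110514882)) (xR T3.l13 (xR T3.l6 (xR T3.l6 T3.l6)))
  (TrL.c (I.pos (nat_lit 0) (nat_lit 0)) T3.l7
  (TrL.c (I.pos (nat_lit 0) (nat_lit 0)) T1.l6
  (TrL.c (I.mix (nat_lit 8088324) (nat_lit 110514882)) (xR T3.l4 (xR T3.l8 (xR T3.l8 T3.l8)))
  (TrL.c (I.mix (nat_lit 8088324) (nat_lit 89478486)) T1.l3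
  TrL.n)))))))) (by decide +kernel)
theorem bx4_7 : BoxOK sI cl13 cl4 cl9 t1 t3 b4_7 :=
  box_mk (TrL.c (I.pos (nat_lit 0) (nat_lit 0)) (xb T1.l8 T1.l8)
  (TrL.c (I.pos (nat_lit 0) (nat_lit 0)) T3.l9
  (TrL.c (I.pos (nat_lit 0) (nat_lit 134217730)) (xR T1.l20 (xR T1.l5 (xR T1.l20 T1.l9)))
  (TrL.c (I.pos (nat_lit 0) (nat_lit 110514882)) (xR T3.l13 (xR T3.l6 (xR T3.l10 T3.l10)))
  (TrL.c (I.pos (nat_lit 0) (nat_lit 0)) T3.l11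
  (TrL.c (I.pos (nat_lit 0) (nat_lit 0)) T1.l10
  (TrL.c (I.mix (nat_lit 8088324) (nat_lit 110514882)) (xR T3.l4 (xR T3.l4 (xR T3.l12 T3.l12)))
  (TrL.c (I.mix (nat_lit 8088324) (nat_lit 89478486)) T1.l30
  TrL.n)))))))) (by decide +kernel)
theorem bx4_8 : BoxOK sI cl13 cl4 cl9 t1 t3 b4_8 :=
  box_mk (TrL.c (I.pos (nat_lit 0) (nat_lit 0)) T3.l5
  (TrL.c (I.pos (nat_lit 0) (nat_lit 0)) T1.l5
  (TrL.c (I.mix (nat_lit 8088324) (nat_lit 110514882)) (xR T3.l15 (xR T3.l13 (xR T3.l13 T3.l6)))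
  (TrL.c (I.mix (nat_lit 8088324) (nat_lit 89478486)) (xR (xR T1.l11 T1.l1) T1.l5)
  TrL.n)))) (by decide +kernel)
theorem bx4_9 : BoxOK sI cl13 cl4 cl9 t1 t3 b4_9 :=
  box_mk (TrL.c (I.pos (nat_lit 0) (nat_lit 0)) T1.l4
  (TrL.c (I.pos (nat_lit 0) (nat_lit 0)) T3.l5
  (TrL.c (I.pos (nat_lit 0) (nat_lit 134217730)) (xR T1.l20 (xR T1.l5 (xR T1.l5 T1.l5)))
  (TrL.c (I.pos (nat_lit 0) (nat_lit 110514882)) (xR T3.l4 (xR T3.l6 T3.l8))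
  (TrL.c (I.pos (nat_lit 0) (nat_lit 0)) T3.l7
  (TrL.c (I.pos (nat_lit 0) (nat_lit 0)) T1.l6
  (TrL.c (I.mix (nat_lit 8088324) (nat_lit 110514882)) (xR T3.l4 T3.l8)
  (TrL.c (I.mix (nat_lit 8088324) (nat_lit 89478486)) T1.l3
  TrL.n)))))))) (by decide +kernel)
theorem bx4_10 : BoxOK sI cl13 cl4 cl9 t1 t3 b4_10 :=
  box_mk (TrL.c (I.pos (nat_lit 0) (nat_lit 0)) T1.l8
  (TrL.c (I.pos (nat_lit 0) (nat_lit 0)) T3.l9
  (TrL.c (I.pos (nat_lit 0) (nat_lit 134217730)) (xR T1.l20 (xR T1.l20 T1.l9))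
  (TrL.c (I.pos (nat_lit 0) (nat_lit 110514882)) (xR T3.l13 (xR T3.l6 T3.l10))
  (TrL.c (I.pos (nat_lit 0) (nat_lit 0)) T3.l11
  (TrL.c (I.pos (nat_lit 0) (nat_lit 0)) T1.l10
  (TrL.c (I.mix (nat_lit 8088324) (nat_lit 110514882)) (xR T3.l4 (xR T3.l4 T3.l12))
  (TrL.c (I.mix (nat_lit 8088324) (nat_lit 89478486)) T1.l3
  TrL.n)))))))) (by decide +kernel)
theorem bx4_11 : BoxOK sI cl13 cl4 cl9 t1 t3 b4_11 :=
  box_mk (TrL.c (I.pos (nat_lit 0) (nat_lit 0)) T3.l5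
  (TrL.c (I.pos (nat_lit 0) (nat_lit 0)) T1.l5
  (TrL.c (I.mix (nat_lit 8088324) (nat_lit 110514882)) (xR T3.l15 (xR T3.l13 T3.l8))
  (TrL.c (I.mix (nat_lit 8088324) (nat_lit 89478486)) (xR (xR T1.l11 T1.l1) T1.l5)
  TrL.n)))) (by decide +kernel)
theorem bx4_12 : BoxOK sI cl13 cl4 cl9 t1 t3 b4_12 :=
  box_mk (TrL.c (I.pos (nat_lit 0) (nat_lit 0)) T1.l4
  (TrL.c (I.pos (nat_lit 0) (nat_lit 0)) T3.l5
  (TrL.c (I.pos (nat_lit 0) (nat_lit 134217730)) (xR T1.l20 (xR T1.l5 (xR T1.l5 T1.l5)))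
  (TrL.c (I.pos (nat_lit 0) (nat_lit 110514882)) (xR T3.l13 (xR T3.l6 T3.l6))
  (TrL.c (I.pos (nat_lit 0) (nat_lit 0)) T3.l7
  (TrL.c (I.pos (nat_lit 0) (nat_lit 0)) T1.l6
  (TrL.c (I.mix (nat_lit 8088324) (nat_lit 110514882)) (xR T3.l4 (xR T3.l8 (xR T3.l8 T3.l8)))
  (TrL.c (I.mix (nat_lit 8088324) (nat_lit 89478486)) T1.l3
  TrL.n)))))))) (by decide +kernel)
theorem bx4_13 : BoxOK sI cl13 cl4 cl9 t1 t3 b4_13 :=
  box_mk (TrL.c (I.pos (nat_lit 0) (nat_lit 0)) T1.l8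
  (TrL.c (I.pos (nat_lit 0) (nat_lit 0)) T3.l9
  (TrL.c (I.pos (nat_lit 0) (nat_lit 134217730)) (xR T1.l20 (xR T1.l5 (xR T1.l5 T1.l9)))
  (TrL.c (I.pos (nat_lit 0) (nat_lit 110514882)) (xR T3.l13 (xR T3.l6 (xR T3.l10 T3.l10)))
  (TrL.c (I.pos (nat_lit 0) (nat_lit 0)) T3.l11
  (TrL.c (I.pos (nat_lit 0) (nat_lit 0)) T1.l10
  (TrL.c (I.mix (nat_lit 8088324) (nat_lit 110514882)) (xR T3.l4 (xR T3.l4 (xR T3.l12 T3.l12)))
  (TrL.c (I.mix (nat_lit 8088324) (nat_lit 89478486)) T1.l3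
  TrL.n)))))))) (by decide +kernel)
theorem bx4_14 : BoxOK sI cl13 cl4 cl9 t1 t3 b4_14 :=
  box_mk (TrL.c (I.pos (nat_lit 0) (nat_lit 0)) T3.l5
  (TrL.c (I.pos (nat_lit 0) (nat_lit 0)) T1.l52
  (TrL.c (I.mix (nat_lit 8088324) (nat_lit 110514882)) (xR T3.l15 (xR T3.l13 (xR T3.l13 T3.l6)))
  (TrL.c (I.mix (nat_lit 8088324) (nat_lit 89478486)) (xR (xR T1.l11 T1.l1) T1.l5)
  TrL.n)))) (by decide +kernel)
theorem bx4_15 : BoxOK sI cl13 cl4 cl9 t1 t3 b4_15 :=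
  box_mk (TrL.c (I.pos (nat_lit 0) (nat_lit 0)) T1.l4
  (TrL.c (I.pos (nat_lit 0) (nat_lit 0)) T3.l5
  (TrL.c (I.pos (nat_lit 0) (nat_lit 134217730)) (xR T1.l7 (xR T1.l5 T1.l5))
  (TrL.c (I.pos (nat_lit 0) (nat_lit 110514882)) (xR T3.l4 T3.l8)
  (TrL.c (I.pos (nat_lit 0) (nat_lit 0)) T3.l7
  (TrL.c (I.pos (nat_lit 0) (nat_lit 0)) T1.l6
  (TrL.c (I.mix (nat_lit 8088324) (nat_lit 110514882)) (xR T3.l4 T3.l8)
  (TrL.c (I.mix (nat_lit 8088324) (nat_lit 89478486)) T1.l7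
  TrL.n)))))))) (by decide +kernel)
theorem bx4_16 : BoxOK sI cl13 cl4 cl9 t1 t3 b4_16 :=
  box_mk (TrL.c (I.pos (nat_lit 0) (nat_lit 0)) T1.l8
  (TrL.c (I.pos (nat_lit 0) (nat_lit 0)) T3.l9
  (TrL.c (I.pos (nat_lit 0) (nat_lit 134217730)) (xR T1.l20 T1.l20)
  (TrL.c (I.pos (nat_lit 0) (nat_lit 110514882)) (xR T3.l13 (xR T3.l6 T3.l10))
  (TrL.c (I.pos (nat_lit 0) (nat_lit 0)) T3.l11
  (TrL.c (I.pos (nat_lit 0) (nat_lit 0)) T1.l10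
  (TrL.c (I.mix (nat_lit 8088324) (nat_lit 110514882)) (xR T3.l4 (xR T3.l4 T3.l12))
  (TrL.c (I.mix (nat_lit 8088324) (nat_lit 89478486)) T1.l3
  TrL.n)))))))) (by decide +kernel)
theorem bx4_17 : BoxOK sI cl13 cl4 cl9 t1 t3 b4_17 :=
  box_mk (TrL.c (I.pos (nat_lit 0) (nat_lit 0)) T3.l5
  (TrL.c (I.pos (nat_lit 0) (nat_lit 0)) T1.l52
  (TrL.c (I.mix (nat_lit 8088324) (nat_lit 110514882)) (xR T3.l15 T3.l8)
  (TrL.c (I.mix (nat_lit 8088324) (nat_lit 89478486)) (xR (xR T1.l11 T1.l11) T1.l5)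
  TrL.n)))) (by decide +kernel)
theorem bx4_18 : BoxOK sI cl13 cl4 cl9 t1 t3 b4_18 :=
  box_mk (TrL.c (I.pos (nat_lit 0) (nat_lit 0)) T1.l4
  (TrL.c (I.pos (nat_lit 0) (nat_lit 0)) T3.l5
  (TrL.c (I.pos (nat_lit 0) (nat_lit 134217730)) (xR T1.l20 (xR T1.l5 T1.l5))
  (TrL.c (I.pos (nat_lit 0) (nat_lit 110514882)) (xR T3.l13 (xR T3.l6 T3.l6))
  (TrL.c (I.pos (nat_lit 0) (nat_lit 0)) T3.l7
  (TrL.c (I.pos (nat_lit 0) (nat_lit 0)) T1.l6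
  (TrL.c (I.mix (nat_lit 8088324) (nat_lit 110514882)) (xR T3.l4 (xR T3.l8 (xR T3.l8 T3.l8)))
  (TrL.c (I.mix (nat_lit 8088324) (nat_lit 89478486)) T1.l3
  TrL.n)))))))) (by decide +kernel)
theorem bx4_19 : BoxOK sI cl13 cl4 cl9 t1 t3 b4_19 :=
  box_mk (TrL.c (I.pos (nat_lit 0) (nat_lit 0)) T1.l8
  (TrL.c (I.pos (nat_lit 0) (nat_lit 0)) T3.l9
  (TrL.c (I.pos (nat_lit 0) (nat_lit 134217730)) (xR T1.l20 (xR T1.l5 (xR T1.l5 T1.l9)))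
  (TrL.c (I.pos (nat_lit 0) (nat_lit 110514882)) (xR T3.l13 (xR T3.l6 (xR T3.l10 T3.l10)))
  (TrL.c (I.pos (nat_lit 0) (nat_lit 0)) T3.l11
  (TrL.c (I.pos (nat_lit 0) (nat_lit 0)) T1.l10
  (TrL.c (I.mix (nat_lit 8088324) (nat_lit 110514882)) (xR T3.l4 (xR T3.l4 (xR T3.l12 T3.l12)))
  (TrL.c (I.mix (nat_lit 8088324) (nat_lit 89478486)) T1.l3
  TrL.n)))))))) (by decide +kernel)
theorem bx4_20 : BoxOK sI cl13 cl4 cl9 t1 t3 b4_20 :=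
  box_mk (TrL.c (I.pos (nat_lit 0) (nat_lit 0)) T3.l5
  (TrL.c (I.pos (nat_lit 0) (nat_lit 0)) T1.l52
  (TrL.c (I.mix (nat_lit 8088324) (nat_lit 110514882)) (xR T3.l15 (xR T3.l13 T3.l6))
  (TrL.c (I.mix (nat_lit 8088324) (nat_lit 89478486)) (xR (xR T1.l11 T1.l1) T1.l5)
  TrL.n)))) (by decide +kernel)
theorem bx4_21 : BoxOK sI cl13 cl4 cl9 t1 t3 b4_21 :=
  box_mk (TrL.c (I.pos (nat_lit 0) (nat_lit 0)) T1.l4
  (TrL.c (I.pos (nat_lit 0) (nat_lit 0)) T3.l5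
  (TrL.c (I.pos (nat_lit 0) (nat_lit 134217730)) (xR T1.l20 (xR T1.l5 (xR T1.l5 T1.l5)))
  (TrL.c (I.pos (nat_lit 0) (nat_lit 110514882)) (xR T3.l4 (xR T3.l6 T3.l8))
  (TrL.c (I.pos (nat_lit 0) (nat_lit 0)) T3.l7
  (TrL.c (I.pos (nat_lit 0) (nat_lit 0)) T1.l6
  (TrL.c (I.mix (nat_lit 8088324) (nat_lit 110514882)) (xR T3.l4 T3.l8)
  (TrL.c (I.mix (nat_lit 8088324) (nat_lit 89478486)) T1.l3
  TrL.n)))))))) (by decide +kernel)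
theorem bx4_22 : BoxOK sI cl13 cl4 cl9 t1 t3 b4_22 :=
  box_mk (TrL.c (I.pos (nat_lit 0) (nat_lit 0)) T1.l8
  (TrL.c (I.pos (nat_lit 0) (nat_lit 0)) T3.l9
  (TrL.c (I.pos (nat_lit 0) (nat_lit 134217730)) (xR T1.l20 (xR T1.l20 T1.l9))
  (TrL.c (I.pos (nat_lit 0) (nat_lit 110514882)) (xR T3.l13 (xR T3.l6 T3.l10))
  (TrL.c (I.pos (nat_lit 0) (nat_lit 0)) T3.l11
  (TrL.c (I.pos (nat_lit 0) (nat_lit 0)) T1.l10
  (TrL.c (I.mix (nat_lit 8088324) (nat_lit 110514882)) (xR T3.l4 (xR T3.l4 T3.l12))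
  (TrL.c (I.mix (nat_lit 8088324) (nat_lit 89478486)) T1.l30
  TrL.n)))))))) (by decide +kernel)
theorem bx4_23 : BoxOK sI cl13 cl4 cl9 t1 t3 b4_23 :=
  box_mk (TrL.c (I.pos (nat_lit 0) (nat_lit 0)) T3.l5
  (TrL.c (I.pos (nat_lit 0) (nat_lit 0)) T1.l5
  (TrL.c (I.mix (nat_lit 8088324) (nat_lit 110514882)) (xR T3.l15 (xR T3.l13 T3.l8))
  (TrL.c (I.mix (nat_lit 8088324) (nat_lit 89478486)) (xR (xR T1.l11 T1.l1) T1.l5)
  TrL.n)))) (by decide +kernel)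
theorem bx4_24 : BoxOK sI cl13 cl4 cl9 t1 t3 b4_24 :=
  box_mk (TrL.c (I.pos (nat_lit 0) (nat_lit 0)) T1.l8
  (TrL.c (I.pos (nat_lit 0) (nat_lit 0)) T3.l9
  (TrL.c (I.pos (nat_lit 0) (nat_lit 134217730)) (xR T1.l20 (xR T1.l5 (xR T1.l20 T1.l9)))
  (TrL.c (I.pos (nat_lit 0) (nat_lit 110514882)) (xR T3.l13 (xR T3.l6 (xR T3.l10 T3.l10)))
  (TrL.c (I.pos (nat_lit 0) (nat_lit 0)) T3.l11
  (TrL.c (I.pos (nat_lit 0) (nat_lit 0)) T1.l10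
  (TrL.c (I.mix (nat_lit 8088324) (nat_lit 110514882)) (xR T3.l4 (xR T3.l4 (xR T3.l12 T3.l12)))
  (TrL.c (I.mix (nat_lit 8088324) (nat_lit 89478486)) T1.l3
  TrL.n)))))))) (by decide +kernel)
theorem bx4_25 : BoxOK sI cl13 cl4 cl9 t1 t3 b4_25 :=
  box_mk (TrL.c (I.pos (nat_lit 0) (nat_lit 0)) (xa T1.l4 T1.l4)
  (TrL.c (I.pos (nat_lit 0) (nat_lit 0)) T3.l5
  (TrL.c (I.pos (nat_lit 0) (nat_lit 134217730)) (xR T1.l20 (xR T1.l5 (xR T1.l5 T1.l32)))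
  (TrL.c (I.pos (nat_lit 0) (nat_lit 110514882)) (xR T3.l13 (xR T3.l6 (xR T3.l6 T3.l6)))
  (TrL.c (I.pos (nat_lit 0) (nat_lit 0)) T3.l7
  (TrL.c (I.pos (nat_lit 0) (nat_lit 0)) T1.l6
  (TrL.c (I.mix (nat_lit 8088324) (nat_lit 110514882)) (xR T3.l4 (xR T3.l8 (xR T3.l8 T3.l8)))
  (TrL.c (I.mix (nat_lit 8088324) (nat_lit 89478486)) T1.l3
  TrL.n)))))))) (by decide +kernel)
theorem bx4_26 : BoxOK sI cl13 cl4 cl9 t1 t3 b4_26 :=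
  box_mk (TrL.c (I.pos (nat_lit 0) (nat_lit 0)) (xb T1.l8 (xa T1.l8 T1.l8))
  (TrL.c (I.pos (nat_lit 0) (nat_lit 0)) T3.l9
  (TrL.c (I.pos (nat_lit 0) (nat_lit 134217730)) (xR T1.l20 (xR T1.l5 (xR T1.l20 T1.l9)))
  (TrL.c (I.pos (nat_lit 0) (nat_lit 110514882)) (xR T3.l13 (xR T3.l6 (xR T3.l10 T3.l10)))
  (TrL.c (I.pos (nat_lit 0) (nat_lit 0)) T3.l11
  (TrL.c (I.pos (nat_lit 0) (nat_lit 0)) T1.l10
  (TrL.c (I.mix (nat_lit 8088324) (nat_lit 110514882)) (xR T3.l4 (xR T3.l4 (xR T3.l12 T3.l12)))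
  (TrL.c (I.mix (nat_lit 8088324) (nat_lit 89478486)) T1.l30
  TrL.n)))))))) (by decide +kernel)
theorem bx4_27 : BoxOK sI cl13 cl4 cl9 t1 t3 b4_27 :=
  box_mk (TrL.c (I.pos (nat_lit 0) (nat_lit 0)) T3.l5
  (TrL.c (I.pos (nat_lit 0) (nat_lit 0)) T1.l5
  (TrL.c (I.mix (nat_lit 8088324) (nat_lit 110514882)) (xR T3.l15 (xR T3.l13 (xR T3.l13 T3.l6)))
  (TrL.c (I.mix (nat_lit 8088324) (nat_lit 89478486)) (xR (xR T1.l11 T1.l1) T1.l5)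
  TrL.n)))) (by decide +kernel)
theorem bx4_28 : BoxOK sI cl13 cl4 cl9 t1 t3 b4_28 :=
  box_mk (TrL.c (I.pos (nat_lit 0) (nat_lit 0)) (xa T1.l0 T1.l0)
  (TrL.c (I.pos (nat_lit 0) (nat_lit 0)) (xa (xk T3.l1 T3.l1) (xk T3.l1 T3.l1))
  (TrL.c (I.pos (nat_lit 0) (nat_lit 134217730)) (xR (xR T1.l20 T1.l1) (xR T1.l1 T1.l20))
  (TrL.c (I.pos (nat_lit 0) (nat_lit 110514882)) (xR (xR T3.l13 T3.l2) (xR T3.l2 (xR T3.l2 T3.l2)))
  (TrL.c (I.pos (nat_lit 0) (nat_lit 0)) (xa (xb (xk T3.l3 T3.l3) (xk T3.l3 T3.l3)) (xb (xk (xa T3.l3 T3.l3) T3.l3) (xk (xa T3.l3 (xb T3.l3 (xk T3.l3 T3.l3))) (xa (xb T3.l3 T3.l3) (xb T3.l3 (xk T3.l3 (xs T3.l3 T3.l3)))))))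
  (TrL.c (I.pos (nat_lit 0) (nat_lit 0)) (xk T1.l2 T1.l2)
  (TrL.c (I.mix (nat_lit 8088324) (nat_lit 110514882)) (xR (xR T3.l4 T3.l4) (xR T3.l4 (xR T3.l4 (xk T3.l4 T3.l4))))
  (TrL.c (I.mix (nat_lit 8088324) (nat_lit 89478486)) (xR T1.l3 (xR T1.l3 T1.l3))
  TrL.n)))))))) (by decide +kernel)
theorem bx4_29 : BoxOK sI cl13 cl4 cl9 t1 t3 b4_29 :=
  box_mk (TrL.c (I.pos (nat_lit 0) (nat_lit 0)) T3.l14
  (TrL.c (I.pos (nat_lit 0) (nat_lit 0)) T1.l12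
  (TrL.c (I.mix (nat_lit 8088324) (nat_lit 110514882)) (xR T3.l15 T3.l8)
  (TrL.c (I.mix (nat_lit 8088324) (nat_lit 89478486)) (xR T1.l51 T1.l51)
  TrL.n)))) (by decide +kernel)
theorem bx4_30 : BoxOK sI cl13 cl4 cl9 t1 t3 b4_30 :=
  box_mk (TrL.c (I.pos (nat_lit 0) (nat_lit 0)) T1.l13
  (TrL.c (I.pos (nat_lit 0) (nat_lit 0)) T3.l14
  (TrL.c (I.pos (nat_lit 0) (nat_lit 134217730)) (xR T1.l7 (xR T1.l5 T1.l14))
  (TrL.c (I.pos (nat_lit 0) (nat_lit 110514882)) (xR T3.l4 T3.l8)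
  (TrL.c (I.pos (nat_lit 0) (nat_lit 0)) T3.l17
  (TrL.c (I.pos (nat_lit 0) (nat_lit 0)) T1.l15
  (TrL.c (I.mix (nat_lit 8088324) (nat_lit 110514882)) (xR T3.l4 T3.l8)
  (TrL.c (I.mix (nat_lit 8088324) (nat_lit 89478486)) (xR T1.l11 T1.l5)
  TrL.n)))))))) (by decide +kernel)
theorem bx4_31 : BoxOK sI cl13 cl4 cl9 t1 t3 b4_31 :=
  box_mk (TrL.c (I.pos (nat_lit 0) (nat_lit 0)) T1.l0
  (TrL.c (I.pos (nat_lit 0) (nat_lit 0)) T3.l1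
  (TrL.c (I.pos (nat_lit 0) (nat_lit 134217730)) (xR T1.l20 T1.l20)
  (TrL.c (I.pos (nat_lit 0) (nat_lit 110514882)) (xR T3.l13 (xR T3.l2 T3.l2))
  (TrL.c (I.pos (nat_lit 0) (nat_lit 0)) (xk T3.l3 T3.l3)
  (TrL.c (I.pos (nat_lit 0) (nat_lit 0)) T1.l2
  (TrL.c (I.mix (nat_lit 8088324) (nat_lit 110514882)) (xR (xR T3.l4 T3.l4) (xR T3.l4 T3.l4))
  (TrL.c (I.mix (nat_lit 8088324) (nat_lit 89478486)) (xR T1.l3 T1.l3)
  TrL.n)))))))) (by decide +kernel)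
theorem bx4_32 : BoxOK sI cl13 cl4 cl9 t1 t3 b4_32 :=
  box_mk (TrL.c (I.pos (nat_lit 0) (nat_lit 0)) T3.l14
  (TrL.c (I.pos (nat_lit 0) (nat_lit 0)) T1.l12
  (TrL.c (I.mix (nat_lit 8088324) (nat_lit 110514882)) (xR T3.l15 T3.l8)
  (TrL.c (I.mix (nat_lit 8088324) (nat_lit 89478486)) (xR T1.l51 T1.l5)
  TrL.n)))) (by decide +kernel)
theorem bx4_33 : BoxOK sI cl13 cl4 cl9 t1 t3 b4_33 :=
  box_mk (TrL.c (I.pos (nat_lit 0) (nat_lit 0)) T1.l13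
  (TrL.c (I.pos (nat_lit 0) (nat_lit 0)) T3.l14
  (TrL.c (I.pos (nat_lit 0) (nat_lit 134217730)) (xR T1.l7 (xR T1.l5 T1.l14))
  (TrL.c (I.pos (nat_lit 0) (nat_lit 110514882)) (xR T3.l4 T3.l8)
  (TrL.c (I.pos (nat_lit 0) (nat_lit 0)) T3.l17
  (TrL.c (I.pos (nat_lit 0) (nat_lit 0)) T1.l15
  (TrL.c (I.mix (nat_lit 8088324) (nat_lit 110514882)) (xR T3.l4 T3.l8)
  (TrL.c (I.mix (nat_lit 8088324) (nat_lit 89478486)) T1.l30
  TrL.n)))))))) (by decide +kernel)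
theorem bx4_34 : BoxOK sI cl13 cl4 cl9 t1 t3 b4_34 :=
  box_mk (TrL.c (I.pos (nat_lit 0) (nat_lit 0)) T1.l0
  (TrL.c (I.pos (nat_lit 0) (nat_lit 0)) (xk T3.l1 T3.l1)
  (TrL.c (I.pos (nat_lit 0) (nat_lit 134217730)) (xR (xR T1.l20 T1.l1) T1.l20)
  (TrL.c (I.pos (nat_lit 0) (nat_lit 110514882)) (xR T3.l13 (xR T3.l2 T3.l2))
  (TrL.c (I.pos (nat_lit 0) (nat_lit 0)) (xk (xb (xa T3.l3 T3.l3) T3.l3) (xb (xa T3.l3 T3.l3) T3.l3))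
  (TrL.c (I.pos (nat_lit 0) (nat_lit 0)) T1.l2
  (TrL.c (I.mix (nat_lit 8088324) (nat_lit 110514882)) (xR (xR T3.l4 T3.l4) (xR T3.l4 (xR T3.l4 (xR T3.l4 T3.l4))))
  (TrL.c (I.mix (nat_lit 8088324) (nat_lit 89478486)) (xR T1.l3 T1.l18)
  TrL.n)))))))) (by decide +kernel)
theorem bx4_35 : BoxOK sI cl13 cl4 cl9 t1 t3 b4_35 :=
  box_mk (TrL.c (I.pos (nat_lit 0) (nat_lit 0)) T3.l14
  (TrL.c (I.pos (nat_lit 0) (nat_lit 0)) T1.l12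
  (TrL.c (I.mix (nat_lit 8088324) (nat_lit 110514882)) (xR T3.l15 T3.l8)
  (TrL.c (I.mix (nat_lit 8088324) (nat_lit 89478486)) (xR T1.l51 T1.l51)
  TrL.n)))) (by decide +kernel)
theorem bx4_36 : BoxOK sI cl13 cl4 cl9 t1 t3 b4_36 :=
  box_mk (TrL.c (I.pos (nat_lit 0) (nat_lit 0)) T1.l13
  (TrL.c (I.pos (nat_lit 0) (nat_lit 0)) T3.l14
  (TrL.c (I.pos (nat_lit 0) (nat_lit 134217730)) (xR T1.l7 (xR T1.l5 T1.l14))
  (TrL.c (I.pos (nat_lit 0) (nat_lit 110514882)) (xR T3.l4 T3.l8)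
  (TrL.c (I.pos (nat_lit 0) (nat_lit 0)) T3.l17
  (TrL.c (I.pos (nat_lit 0) (nat_lit 0)) T1.l15
  (TrL.c (I.mix (nat_lit 8088324) (nat_lit 110514882)) (xR T3.l4 T3.l8)
  (TrL.c (I.mix (nat_lit 8088324) (nat_lit 89478486)) (xR T1.l11 T1.l5)
  TrL.n)))))))) (by decide +kernel)
theorem bx4_37 : BoxOK sI cl13 cl4 cl9 t1 t3 b4_37 :=
  box_mk (TrL.c (I.pos (nat_lit 0) (nat_lit 0)) T1.l0
  (TrL.c (I.pos (nat_lit 0) (nat_lit 0)) T3.l1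
  (TrL.c (I.pos (nat_lit 0) (nat_lit 134217730)) (xR (xR T1.l20 T1.l1) T1.l20)
  (TrL.c (I.pos (nat_lit 0) (nat_lit 110514882)) (xR T3.l13 (xR T3.l2 T3.l2))
  (TrL.c (I.pos (nat_lit 0) (nat_lit 0)) T3.l3
  (TrL.c (I.pos (nat_lit 0) (nat_lit 0)) T1.l2
  (TrL.c (I.mix (nat_lit 8088324) (nat_lit 110514882)) (xR (xR T3.l4 T3.l4) (xR T3.l4 T3.l4))
  (TrL.c (I.mix (nat_lit 8088324) (nat_lit 89478486)) (xR T1.l3 T1.l18)
  TrL.n)))))))) (by decide +kernel)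
theorem bx4_38 : BoxOK sI cl13 cl4 cl9 t1 t3 b4_38 :=
  box_mk (TrL.c (I.pos (nat_lit 0) (nat_lit 0)) T3.l14
  (TrL.c (I.pos (nat_lit 0) (nat_lit 0)) T1.l12
  (TrL.c (I.mix (nat_lit 8088324) (nat_lit 110514882)) (xR T3.l15 T3.l8)
  (TrL.c (I.mix (nat_lit 8088324) (nat_lit 89478486)) T1.l51
  TrL.n)))) (by decide +kernel)
theorem bx4_39 : BoxOK sI cl13 cl4 cl9 t1 t3 b4_39 :=
  box_mk (TrL.c (I.pos (nat_lit 0) (nat_lit 0)) T1.l13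
  (TrL.c (I.pos (nat_lit 0) (nat_lit 0)) T3.l14
  (TrL.c (I.pos (nat_lit 0) (nat_lit 134217730)) (xR T1.l7 (xR T1.l5 T1.l14))
  (TrL.c (I.pos (nat_lit 0) (nat_lit 110514882)) (xR T3.l4 T3.l8)
  (TrL.c (I.pos (nat_lit 0) (nat_lit 0)) T3.l17
  (TrL.c (I.pos (nat_lit 0) (nat_lit 0)) T1.l15
  (TrL.c (I.mix (nat_lit 8088324) (nat_lit 110514882)) (xR T3.l4 T3.l8)
  (TrL.c (I.mix (nat_lit 8088324) (nat_lit 89478486)) T1.l30
  TrL.n)))))))) (by decide +kernel)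
theorem bx4_40 : BoxOK sI cl13 cl4 cl9 t1 t3 b4_40 :=
  box_mk (TrL.c (I.pos (nat_lit 0) (nat_lit 0)) T1.l0
  (TrL.c (I.pos (nat_lit 0) (nat_lit 0)) T3.l1
  (TrL.c (I.pos (nat_lit 0) (nat_lit 134217730)) (xR T1.l20 T1.l20)
  (TrL.c (I.pos (nat_lit 0) (nat_lit 110514882)) (xR T3.l13 (xR T3.l2 T3.l2))
  (TrL.c (I.pos (nat_lit 0) (nat_lit 0)) T3.l3
  (TrL.c (I.pos (nat_lit 0) (nat_lit 0)) T1.l2
  (TrL.c (I.mix (nat_lit 8088324) (nat_lit 110514882)) (xR (xR T3.l4 T3.l4) (xR T3.l4 T3.l4))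
  (TrL.c (I.mix (nat_lit 8088324) (nat_lit 89478486)) T1.l30
  TrL.n)))))))) (by decide +kernel)
theorem bx4_41 : BoxOK sI cl13 cl4 cl9 t1 t3 b4_41 :=
  box_mk (TrL.c (I.pos (nat_lit 0) (nat_lit 0)) T1.l0
  (TrL.c (I.pos (nat_lit 0) (nat_lit 0)) T3.l1
  (TrL.c (I.pos (nat_lit 0) (nat_lit 134217730)) (xR T1.l20 T1.l20)
  (TrL.c (I.pos (nat_lit 0) (nat_lit 110514882)) (xR T3.l13 (xR T3.l2 T3.l2))
  (TrL.c (I.pos (nat_lit 0) (nat_lit 0)) (xk T3.l3 T3.l3)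
  (TrL.c (I.pos (nat_lit 0) (nat_lit 0)) T1.l2
  (TrL.c (I.mix (nat_lit 8088324) (nat_lit 110514882)) (xR (xR T3.l4 T3.l4) (xR T3.l4 T3.l4))
  (TrL.c (I.mix (nat_lit 8088324) (nat_lit 89478486)) (xR T1.l3 T1.l3)
  TrL.n)))))))) (by decide +kernel)
theorem bx4_42 : BoxOK sI cl13 cl4 cl9 t1 t3 b4_42 :=
  box_mk (TrL.c (I.pos (nat_lit 0) (nat_lit 0)) T3.l14
  (TrL.c (I.pos (nat_lit 0) (nat_lit 0)) T1.l12
  (TrL.c (I.mix (nat_lit 8088324) (nat_lit 110514882)) (xR T3.l15 T3.l8)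
  (TrL.c (I.mix (nat_lit 8088324) (nat_lit 89478486)) (xR T1.l51 T1.l5)
  TrL.n)))) (by decide +kernel)
theorem bx4_43 : BoxOK sI cl13 cl4 cl9 t1 t3 b4_43 :=
  box_mk (TrL.c (I.pos (nat_lit 0) (nat_lit 0)) T1.l13
  (TrL.c (I.pos (nat_lit 0) (nat_lit 0)) T3.l14
  (TrL.c (I.pos (nat_lit 0) (nat_lit 134217730)) (xR T1.l7 (xR T1.l5 T1.l14))
  (TrL.c (I.pos (nat_lit 0) (nat_lit 110514882)) (xR T3.l4 T3.l8)
  (TrL.c (I.pos (nat_lit 0) (nat_lit 0)) T3.l17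
  (TrL.c (I.pos (nat_lit 0) (nat_lit 0)) T1.l15
  (TrL.c (I.mix (nat_lit 8088324) (nat_lit 110514882)) (xR T3.l4 T3.l8)
  (TrL.c (I.mix (nat_lit 8088324) (nat_lit 89478486)) (xR T1.l7 T1.l5)
  TrL.n)))))))) (by decide +kernel)
theorem bx4_44 : BoxOK sI cl13 cl4 cl9 t1 t3 b4_44 :=
  box_mk (TrL.c (I.pos (nat_lit 0) (nat_lit 0)) T1.l0
  (TrL.c (I.pos (nat_lit 0) (nat_lit 0)) (xk T3.l1 (xb T3.l1 T3.l1))
  (TrL.c (I.pos (nat_lit 0) (nat_lit 134217730)) (xR (xR T1.l20 T1.l1) T1.l20)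
  (TrL.c (I.pos (nat_lit 0) (nat_lit 110514882)) (xR T3.l13 (xR T3.l2 T3.l2))
  (TrL.c (I.pos (nat_lit 0) (nat_lit 0)) (xb (xk (xa T3.l3 T3.l3) (xa T3.l3 T3.l3)) (xk (xa T3.l3 T3.l3) (xa T3.l3 (xk T3.l3 T3.l3))))
  (TrL.c (I.pos (nat_lit 0) (nat_lit 0)) (xk T1.l2 T1.l2)
  (TrL.c (I.mix (nat_lit 8088324) (nat_lit 110514882)) (xR (xR T3.l4 T3.l4) (xR T3.l4 (xR T3.l4 (xR T3.l4 T3.l4))))
  (TrL.c (I.mix (nat_lit 8088324) (nat_lit 89478486)) (xR T1.l3 T1.l18)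
  TrL.n)))))))) (by decide +kernel)
theorem bx4_45 : BoxOK sI cl13 cl4 cl9 t1 t3 b4_45 :=
  box_mk (TrL.c (I.pos (nat_lit 0) (nat_lit 0)) T3.l14
  (TrL.c (I.pos (nat_lit 0) (nat_lit 0)) T1.l12
  (TrL.c (I.mix (nat_lit 8088324) (nat_lit 110514882)) (xR T3.l15 T3.l8)
  (TrL.c (I.mix (nat_lit 8088324) (nat_lit 89478486)) (xR T1.l51 T1.l51)
  TrL.n)))) (by decide +kernel)
theorem bx4_46 : BoxOK sI cl13 cl4 cl9 t1 t3 b4_46 :=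
  box_mk (TrL.c (I.pos (nat_lit 0) (nat_lit 0)) T1.l13
  (TrL.c (I.pos (nat_lit 0) (nat_lit 0)) T3.l14
  (TrL.c (I.pos (nat_lit 0) (nat_lit 134217730)) (xR T1.l7 (xR T1.l5 T1.l14))
  (TrL.c (I.pos (nat_lit 0) (nat_lit 110514882)) (xR T3.l4 T3.l8)
  (TrL.c (I.pos (nat_lit 0) (nat_lit 0)) T3.l17
  (TrL.c (I.pos (nat_lit 0) (nat_lit 0)) T1.l15
  (TrL.c (I.mix (nat_lit 8088324) (nat_lit 110514882)) (xR T3.l4 T3.l8)
  (TrL.c (I.mix (nat_lit 8088324) (nat_lit 89478486)) (xR T1.l11 T1.l5)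
  TrL.n)))))))) (by decide +kernel)
theorem bx4_47 : BoxOK sI cl13 cl4 cl9 t1 t3 b4_47 :=
  box_mk (TrL.c (I.pos (nat_lit 0) (nat_lit 0)) (xa (xb T1.l8 (xa (xb T1.l0 T1.l8) (xb T1.l0 T1.l0))) (xb (xa T1.l0 T1.l0) (xa (xb T1.l0 T1.l0) (xb T1.l0 (xs T1.l0 T1.l0)))))
  (TrL.c (I.pos (nat_lit 0) (nat_lit 0)) (xk T3.l1 T3.l1)
  (TrL.c (I.pos (nat_lit 0) (nat_lit 134217730)) (xR T1.l20 (xR T1.l1 (xR T1.l1 T1.l1)))
  (TrL.c (I.pos (nat_lit 0) (nat_lit 110514882)) (xR T3.l15 (xR T3.l33 (xR T3.l2 T3.l2)))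
  (TrL.c (I.pos (nat_lit 0) (nat_lit 0)) (xb (xk (xa T3.l3 (xb T3.l3 T3.l3)) (xa T3.l3 (xb T3.l3 (xs T3.l3 T3.l3)))) (xk (xa (xs T3.l3 (xb T3.l3 T3.l3)) (xs (xb T3.l3 (xk T3.l3 T3.l3)) (xk (xb T3.l3 (xa T3.l3 T3.l3)) (xb T3.l3 (xa T3.l3 (xs T3.l3 T3.l3)))))) (xa (xk (xs T3.l3 (xb T3.l3 T3.l3)) (xs T3.l3 (xb T3.l3 T3.l3))) (xb (xk (xs T3.l3 T3.l3) (xs T3.l3 (xa T3.l3 T3.l3))) (xs (xk (xa T3.l3 T3.l3) (xa T3.l0 (xs T3.l3 T3.l0))) (xk (xa T3.l0 (xs T3.l3 T3.l3)) (xa (xs T3.l0 T3.l3) (xs T3.l0 T3.l0))))))))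
  (TrL.c (I.pos (nat_lit 0) (nat_lit 0)) T1.l2
  (TrL.c (I.mix (nat_lit 8088324) (nat_lit 110514882)) (xR (xR T3.l4 T3.l4) (xR T3.l4 (xR T3.l4 T3.l4)))
  (TrL.c (I.mix (nat_lit 8088324) (nat_lit 89478486)) (xR T1.l30 (xR T1.l3 T1.l30))
  TrL.n)))))))) (by decide +kernel)
theorem bx4_48 : BoxOK sI cl13 cl4 cl9 t1 t3 b4_48 :=
  box_mk (TrL.c (I.pos (nat_lit 0) (nat_lit 0)) T3.l14
  (TrL.c (I.pos (nat_lit 0) (nat_lit 0)) T1.l14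
  (TrL.c (I.mix (nat_lit 8088324) (nat_lit 110514882)) (xR T3.l15 (xR T3.l8 (xR T3.l15 T3.l15)))
  (TrL.c (I.mix (nat_lit 8088324) (nat_lit 89478486)) (xR (xR T1.l51 T1.l7) T1.l5)
  TrL.n)))) (by decide +kernel)
theorem bx4_49 : BoxOK sI cl13 cl4 cl9 t1 t3 b4_49 :=
  box_mk (TrL.c (I.pos (nat_lit 0) (nat_lit 0)) (xb T1.l4 T1.l13)
  (TrL.c (I.pos (nat_lit 0) (nat_lit 0)) T3.l14
  (TrL.c (I.pos (nat_lit 0) (nat_lit 134217730)) (xR T1.l18 (xR T1.l5 (xR T1.l14 T1.l14)))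
  (TrL.c (I.pos (nat_lit 0) (nat_lit 110514882)) (xR T3.l4 (xR T3.l8 (xR T3.l6 T3.l15)))
  (TrL.c (I.pos (nat_lit 0) (nat_lit 0)) T3.l17
  (TrL.c (I.pos (nat_lit 0) (nat_lit 0)) T1.l15
  (TrL.c (I.mix (nat_lit 8088324) (nat_lit 110514882)) (xR T3.l4 (xR T3.l8 (xR T3.l18 T3.l18)))
  (TrL.c (I.mix (nat_lit 8088324) (nat_lit 89478486)) (xR T1.l7 T1.l5)
  TrL.n)))))))) (by decide +kernel)
theorem bx4_50 : BoxOK sI cl13 cl4 cl9 t1 t3 b4_50 :=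
  box_mk (TrL.c (I.pos (nat_lit 0) (nat_lit 0)) (xa (xb T1.l0 (xa T1.l0 T1.l0)) (xb T1.l0 (xa T1.l0 T1.l0)))
  (TrL.c (I.pos (nat_lit 0) (nat_lit 0)) (xa (xb T3.l1 (xk T3.l1 T3.l1)) (xk (xb T3.l1 T3.l1) T3.l20))
  (TrL.c (I.pos (nat_lit 0) (nat_lit 134217730)) (xR (xR T1.l20 T1.l1) (xR T1.l1 T1.l20))
  (TrL.c (I.pos (nat_lit 0) (nat_lit 110514882)) (xR (xR T3.l13 T3.l2) (xR T3.l21 (xR T3.l2 T3.l2)))
  (TrL.c (I.pos (nat_lit 0) (nat_lit 0)) (xa (xb (xk T3.l3 T3.l3) (xk T3.l3 (xa T3.l3 T3.l3))) (xb (xk (xb (xa T3.l3 T3.l3) (xa T3.l3 T3.l3)) (xa T3.l3 T3.l3)) (xk (xb (xa T3.l3 T3.l3) (xa (xk T3.l3 T3.l3) (xs (xk T3.l3 T3.l3) (xk T3.l3 (xa T3.l3 T3.l3))))) (xb (xa T3.l3 (xk T3.l3 T3.l3)) (xa (xk T3.l3 (xs T3.l3 T3.l3)) (xs (xk T3.l3 (xa T3.l3 T3.l3)) (xk (xa T3.l3 T3.l3) (xa T3.l3 (xb T3.l3 T3.l3)))))))))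
  (TrL.c (I.pos (nat_lit 0) (nat_lit 0)) (xk (xa T1.l2 T1.l2) T1.l2)
  (TrL.c (I.mix (nat_lit 8088324) (nat_lit 110514882)) (xR (xR (xR T3.l4 T3.l4) T3.l4) (xR T3.l4 (xR T3.l4 (xk (xR T3.l4 T3.l4) T3.l4))))
  (TrL.c (I.mix (nat_lit 8088324) (nat_lit 89478486)) (xR T1.l3 (xR T1.l3 (xR T1.l3 T1.l3)))
  TrL.n)))))))) (by decide +kernel)
theorem bx4_51 : BoxOK sI cl13 cl4 cl9 t1 t3 b4_51 :=
  box_mk (TrL.c (I.pos (nat_lit 0) (nat_lit 0)) T3.l14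
  (TrL.c (I.pos (nat_lit 0) (nat_lit 0)) T1.l12
  (TrL.c (I.mix (nat_lit 8088324) (nat_lit 110514882)) (xR T3.l15 T3.l8)
  (TrL.c (I.mix (nat_lit 8088324) (nat_lit 89478486)) (xR T1.l51 T1.l5)
  TrL.n)))) (by decide +kernel)
theorem bx4_52 : BoxOK sI cl13 cl4 cl9 t1 t3 b4_52 :=
  box_mk (TrL.c (I.pos (nat_lit 0) (nat_lit 0)) T1.l13
  (TrL.c (I.pos (nat_lit 0) (nat_lit 0)) T3.l14
  (TrL.c (I.pos (nat_lit 0) (nat_lit 134217730)) (xR T1.l7 (xR T1.l5 (xR T1.l14 T1.l14)))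
  (TrL.c (I.pos (nat_lit 0) (nat_lit 110514882)) (xR T3.l4 T3.l8)
  (TrL.c (I.pos (nat_lit 0) (nat_lit 0)) T3.l17
  (TrL.c (I.pos (nat_lit 0) (nat_lit 0)) T1.l15
  (TrL.c (I.mix (nat_lit 8088324) (nat_lit 110514882)) (xR T3.l4 T3.l8)
  (TrL.c (I.mix (nat_lit 8088324) (nat_lit 89478486)) (xR T1.l11 T1.l5)
  TrL.n)))))))) (by decide +kernel)
theorem bx4_53 : BoxOK sI cl13 cl4 cl9 t1 t3 b4_53 :=
  box_mk (TrL.c (I.pos (nat_lit 0) (nat_lit 0)) T1.l4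
  (TrL.c (I.pos (nat_lit 0) (nat_lit 0)) T3.l5
  (TrL.c (I.pos (nat_lit 0) (nat_lit 134217730)) (xR T1.l20 (xR T1.l5 (xR T1.l5 T1.l5)))
  (TrL.c (I.pos (nat_lit 0) (nat_lit 110514882)) (xR T3.l13 (xR T3.l6 T3.l6))
  (TrL.c (I.pos (nat_lit 0) (nat_lit 0)) T3.l7
  (TrL.c (I.pos (nat_lit 0) (nat_lit 0)) T1.l6
  (TrL.c (I.mix (nat_lit 8088324) (nat_lit 110514882)) (xR T3.l4 (xR T3.l8 (xR T3.l8 T3.l8)))
  (TrL.c (I.mix (nat_lit 8088324) (nat_lit 89478486)) T1.l3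
  TrL.n)))))))) (by decide +kernel)
theorem bx4_54 : BoxOK sI cl13 cl4 cl9 t1 t3 b4_54 :=
  box_mk (TrL.c (I.pos (nat_lit 0) (nat_lit 0)) T3.l5
  (TrL.c (I.pos (nat_lit 0) (nat_lit 0)) T1.l52
  (TrL.c (I.mix (nat_lit 8088324) (nat_lit 110514882)) (xR T3.l15 (xR T3.l13 (xR T3.l13 T3.l6)))
  (TrL.c (I.mix (nat_lit 8088324) (nat_lit 89478486)) (xR (xR T1.l11 T1.l1) T1.l5)
  TrL.n)))) (by decide +kernel)
theorem bx4_55 : BoxOK sI cl13 cl4 cl9 t1 t3 b4_55 :=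
  box_mk (TrL.c (I.pos (nat_lit 0) (nat_lit 0)) (xb T1.l4 T1.l4)
  (TrL.c (I.pos (nat_lit 0) (nat_lit 0)) T3.l5
  (TrL.c (I.pos (nat_lit 0) (nat_lit 134217730)) (xR T1.l20 (xR T1.l5 (xR T1.l5 T1.l5)))
  (TrL.c (I.pos (nat_lit 0) (nat_lit 110514882)) (xR T3.l4 (xR T3.l8 (xR T3.l6 T3.l6)))
  (TrL.c (I.pos (nat_lit 0) (nat_lit 0)) T3.l7
  (TrL.c (I.pos (nat_lit 0) (nat_lit 0)) T1.l6
  (TrL.c (I.mix (nat_lit 8088324) (nat_lit 110514882)) (xR T3.l4 (xR T3.l8 (xR T3.l8 T3.l8)))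
  (TrL.c (I.mix (nat_lit 8088324) (nat_lit 89478486)) (xR T1.l7 T1.l24)
  TrL.n)))))))) (by decide +kernel)
theorem bx4_56 : BoxOK sI cl13 cl4 cl9 t1 t3 b4_56 :=
  box_mk (TrL.c (I.pos (nat_lit 0) (nat_lit 0)) (xa (xb T1.l8 (xb T1.l8 T1.l8)) (xb T1.l8 (xb T1.l8 (xa T1.l8 T1.l8))))
  (TrL.c (I.pos (nat_lit 0) (nat_lit 0)) (xk T3.l9 T3.l9)
  (TrL.c (I.pos (nat_lit 0) (nat_lit 134217730)) (xR T1.l20 (xR T1.l20 (xR T1.l9 T1.l9)))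
  (TrL.c (I.pos (nat_lit 0) (nat_lit 110514882)) (xR T3.l15 (xR T3.l33 (xR T3.l10 T3.l10)))
  (TrL.c (I.pos (nat_lit 0) (nat_lit 0)) (xb (xk (xa T3.l3 (xb T3.l3 T3.l3)) (xa T3.l3 (xb T3.l3 T3.l3))) (xk (xa (xb T3.l3 (xs T3.l3 (xk T3.l3 T3.l3))) (xk (xb (xs T3.l3 T3.l3) (xs (xa T3.l3 T3.l3) (xa T3.l3 (xb T3.l3 (xs T3.l3 T3.l3))))) (xb (xs T3.l3 T3.l3) (xs (xa T3.l3 T3.l3) (xa (xb T3.l3 T3.l3) (xb T3.l3 (xs T3.l3 T3.l3))))))) (xa (xb (xs T3.l3 T3.l3) (xs (xk T3.l3 T3.l3) (xk (xa T3.l3 T3.l3) (xa T3.l3 (xb T3.l3 T3.l3))))) (xb (xs (xk T3.l3 T3.l3) (xk (xa T3.l3 T3.l3) (xa T3.l3 T3.l3))) (xk (xs (xa T3.l3 (xb T3.l3 T3.l3)) (xa (xb T3.l3 T3.l3) (xb T3.l3 (xs T3.l3 (xe T3.l3 T3.l3))))) (xs (xa T3.l3 (xb T3.l3 (xs T3.l3 T3.l3))) (xa (xb T3.l3 (xs T3.l3 T3.l3)) (xb (xs T3.l3 T3.l3) (xs (xe T3.l3 T3.l3) (xe (xk T3.l3 T3.l3) (xk T3.l3 T3.l3)))))))))))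
  (TrL.c (I.pos (nat_lit 0) (nat_lit 0)) T1.l10
  (TrL.c (I.mix (nat_lit 8088324) (nat_lit 110514882)) (xR (xR T3.l4 T3.l4) (xR T3.l4 (xR T3.l12 T3.l12)))
  (TrL.c (I.mix (nat_lit 8088324) (nat_lit 89478486)) (xR T1.l30 (xR T1.l3 T1.l50))
  TrL.n)))))))) (by decide +kernel)
theorem bx4_57 : BoxOK sI cl13 cl4 cl9 t1 t3 b4_57 :=
  box_mk (TrL.c (I.pos (nat_lit 0) (nat_lit 0)) T3.l5
  (TrL.c (I.pos (nat_lit 0) (nat_lit 0)) T1.l5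
  (TrL.c (I.mix (nat_lit 8088324) (nat_lit 110514882)) (xR T3.l15 (xR T3.l8 (xR T3.l13 T3.l13)))
  (TrL.c (I.mix (nat_lit 8088324) (nat_lit 89478486)) (xR (xR T1.l11 T1.l18) T1.l5)
  TrL.n)))) (by decide +kernel)
theorem bx4_58 : BoxOK sI cl13 cl4 cl9 t1 t3 b4_58 :=
  box_mk (TrL.c (I.pos (nat_lit 0) (nat_lit 0)) T3.l14
  (TrL.c (I.pos (nat_lit 0) (nat_lit 0)) T1.l12
  (TrL.c (I.mix (nat_lit 8088324) (nat_lit 110514882)) (xR T3.l15 T3.l8)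
  (TrL.c (I.mix (nat_lit 8088324) (nat_lit 89478486)) (xR T1.l51 T1.l51)
  TrL.n)))) (by decide +kernel)
theorem bx4_59 : BoxOK sI cl13 cl4 cl9 t1 t3 b4_59 :=
  box_mk (TrL.c (I.pos (nat_lit 0) (nat_lit 0)) T1.l13
  (TrL.c (I.pos (nat_lit 0) (nat_lit 0)) T3.l14
  (TrL.c (I.pos (nat_lit 0) (nat_lit 134217730)) (xR T1.l3 (xR T1.l5 T1.l14))
  (TrL.c (I.pos (nat_lit 0) (nat_lit 110514882)) (xR T3.l4 T3.l8)
  (TrL.c (I.pos (nat_lit 0) (nat_lit 0)) T3.l17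
  (TrL.c (I.pos (nat_lit 0) (nat_lit 0)) T1.l15
  (TrL.c (I.mix (nat_lit 8088324) (nat_lit 110514882)) (xR T3.l4 T3.l8)
  (TrL.c (I.mix (nat_lit 8088324) (nat_lit 89478486)) T1.l7
  TrL.n)))))))) (by decide +kernel)
theorem sv4 : StarV sI cl13 cl4 cl9 t1 t3 t4 :=
  (bt_n (bt_n (bt_n (bt_n (bt_n (bt_b bx4_0) (bt_n (bt_b bx4_1) (bt_b bx4_2))) (bt_n (bt_n (bt_b bx4_3) (bt_b bx4_4)) (bt_n (bt_b bx4_5) (bt_b bx4_6)))) (bt_n (bt_n (bt_n (bt_b bx4_7) (bt_b bx4_8)) (bt_n (bt_b bx4_9) (bt_b bx4_10))) (bt_n (bt_n (bt_b bx4_11) (bt_b bx4_12)) (bt_n (bt_b bx4_13) (bt_b bx4_14))))) (bt_n (bt_n (bt_n (bt_b bx4_15) (bt_n (bt_b bx4_16) (bt_b bx4_17))) (bt_n (bt_n (bt_b bx4_18) (bt_b bx4_19)) (bt_n (bt_b bx4_20) (bt_b bx4_21)))) (bt_n (bt_n (bt_n (bt_b bx4_22) (bt_b bx4_23)) (bt_n (bt_b bx4_24) (bt_b bx4_25))) (bt_n (bt_n (bt_b bx4_26) (bt_b bx4_27)) (bt_n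 (bt_b bx4_28) (bt_b bx4_29)))))) (bt_n (bt_n (bt_n (bt_n (bt_b bx4_30) (bt_n (bt_b bx4_31) (bt_b bx4_32))) (bt_n (bt_n (bt_b bx4_33) (bt_b bx4_34)) (bt_n (bt_b bx4_35) (bt_b bx4_36)))) (bt_n (bt_n (bt_n (bt_b bx4_37) (bt_b bx4_38)) (bt_n (bt_b bx4_39) (bt_b bx4_40))) (bt_n (bt_n (bt_b bx4_41) (bt_b bx4_42)) (bt_n (bt_b bx4_43) (bt_b bx4_44))))) (bt_n (bt_n (bt_n (bt_b bx4_45) (bt_n (bt_b bx4_46) (bt_b bx4_47))) (bt_n (bt_n (bt_b bx4_48) (bt_b bx4_49)) (bt_n (bt_b bx4_50) (bt_b bx4_51)))) (bt_n (bt_n (bt_n (bt_b bx4_52) (bt_b bx4_53)) (bt_n (bt_b bx4_54) (bt_b bx4_55))) (bt_n (bt_n (bt_b bx4_56) (bt_b bx4_57)) (bt_n (bt_b bx4_58) (bt_b bx4_59)))))))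
def S4 : StarD := StarD.mk cl13 cl4 cl9 1 3 t4
theorem c5_0_0 : chkTag sI cl13 cl9 cl4 t3 b5_0 (tg true true false RT.r2) (I.pos (nat_lit 0) (nat_lit 0))
  (xa (xb (xa (xc (xb T3.l0 (xs T3.l0 T3.l0)) (xb T3.l0 (xs T3.l0 T3.l0))) (xc (xb T3.l0 T3.l0) (xb (xs T3.l0 T3.l0) (xs T3.l0 T3.l0)))) (xa (xc (xb (xa T3.l30 T3.l30) (xs T3.l30 T3.l30)) (xb (xs T3.l0 (xa T3.l0 T3.l0)) (xs (xa T3.l30 T3.l0) (xa T3.l30 T3.l30)))) (xc (xb (xs T3.l0 T3.l0) (xs T3.l0 (xa T3.l0 T3.l0))) (xs (xb T3.l0 T3.l30) (xb (xa T3.l0 T3.l0) (xa T3.l30 T3.l0)))))) (xb (xa (xc (xb T3.l0 T3.l0) (xb (xs T3.l0 T3.l0) (xs T3.l0 T3.l0))) (xc (xb (xs T3.l0 T3.l0) (xs T3.l0 T3.l0)) (xb (xs T3.l0 (xa T3.l0 T3.l0)) (xs T3.l0 (xa T3.l0 T3.l0))))) (xa (xs (xc (xb T3.l0 T3.l0) (xb T3.l0 (xa T3.l0 T3.l0))) (xc (xb T3.l0 (xa T3.l0 T3.l0)) (xb (xa T3.l0 T3.l0) (xa T3.l0 T3.l0)))) (xs (xc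 (xb T3.l0 T3.l0) (xb T3.l0 T3.l0)) (xc (xb T3.l0 (xa T3.l0 T3.l0)) (xb (xa T3.l0 T3.l0) (xa T3.l0 T3.l0))))))) = true := by decide +kernel
theorem c5_0_1 : chkTag sI cl13 cl9 cl4 t1 b5_0 (tg true false false RT.r3) (I.pos (nat_lit 0) (nat_lit 0))
  (xa (xk (xa T1.l17 T1.l17) (xb T1.l17 T1.l29)) (xk (xb T1.l17 (xa T1.l17 T1.l17)) (xb T1.l17 T1.l17))) = true := by decide +kernel
theorem c5_0_2 : chkTag sI cl13 cl9 cl4 t3 b5_0 (Tag.mk true true false RT.tl RT.r4) (I.pos (nat_lit 0) (nat_lit 134217730))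
  (xR (xR T3.l4 T3.l4) (xR T3.l4 (xR T3.l31 (xa (xR T3.l31 T3.l31) (xR T3.l4 T3.l31))))) = true := by decide +kernel
theorem c5_0_3 : chkTag sI cl13 cl9 cl4 t1 b5_0 (Tag.mk true false false RT.tl RT.r5) (I.pos (nat_lit 0) (nat_lit 110514882))
  (xR (xR T1.l36 T1.l18) (xR (xR T1.l18 T1.l18) (xR T1.l18 (xk T1.l18 T1.l18)))) = true := by decide +kernel
theorem c5_0_4 : chkTag sI cl13 cl9 cl4 t1 b5_0 (tg false false false RT.r3) (I.pos (nat_lit 0) (nat_lit 0))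
  (xa (xk (xb T1.l19 T1.l19) (xb T1.l31 (xb T1.l19 (xa T1.l19 T1.l19)))) (xk (xb T1.l19 (xb T1.l19 (xa T1.l19 (xs T1.l19 (xk T1.l19 T1.l19))))) (xb T1.l19 (xb (xa T1.l19 T1.l19) (xa (xs T1.l19 T1.l19) (xs T1.l19 (xk (xb T1.l19 T1.l19) (xb T1.l19 (xa T1.l19 T1.l19))))))))) = true := by decide +kernel
theorem c5_0_5 : chkTag sI cl13 cl9 cl4 t3 b5_0 (tg false true false RT.r4) (I.pos (nat_lit 0) (nat_lit 0))
  (xk T3.l20 T3.l20) = true := by decide +kernel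
theorem c5_0_6 : chkTag sI cl13 cl9 cl4 t1 b5_0 (Tag.mk false false false RT.tl RT.r5) (I.mix (nat_lit 8088324) (nat_lit 110514882))
  (xR T1.l20 (xR (xR T1.l20 T1.l20) (xR T1.l20 (xk T1.l20 T1.l20)))) = true := by decide +kernel
theorem c5_0_7 : chkTag sI cl13 cl9 cl4 t3 b5_0 (Tag.mk false true false RT.tl RT.r6) (I.mix (nat_lit 8088324) (nat_lit 89478486))
  (xR T3.l13 (xR T3.l33 (xR T3.l21 T3.l21))) = true := by decide +kernel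
theorem bx5_0 : BoxOK sI cl13 cl9 cl4 t3 t1 b5_0 :=
  box_mk' [(tg true true false RT.r2), (tg true false false RT.r3), (Tag.mk true true false RT.tl RT.r4), (Tag.mk true false false RT.tl RT.r5), (tg false false false RT.r3), (tg false true false RT.r4), (Tag.mk false false false RT.tl RT.r5), (Tag.mk false true false RT.tl RT.r6)] rfl (allL_c (ex_mk c5_0_0) (allL_c (ex_mk c5_0_1) (allL_c (ex_mk c5_0_2) (allL_c (ex_mk c5_0_3) (allL_c (ex_mk c5_0_4) (allL_c (ex_mk c5_0_5) (allL_c (ex_mk c5_0_6) (allL_c (ex_mk c5_0_7) allL_n))))))))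
theorem bx5_1 : BoxOK sI cl13 cl9 cl4 t3 t1 b5_1 :=
  box_mk (TrL.c (I.pos (nat_lit 0) (nat_lit 0)) (xa (xb T3.l22 T3.l22) (xb (xa T3.l22 T3.l0) (xa T3.l22 T3.l22)))
  (TrL.c (I.pos (nat_lit 0) (nat_lit 0)) (xk T1.l21 T1.l21)
  (TrL.c (I.pos (nat_lit 0) (nat_lit 134217730)) (xR (xR T3.l4 T3.l4) (xR T3.l4 (xR T3.l4 (xR T3.l4 T3.l23))))
  (TrL.c (I.pos (nat_lit 0) (nat_lit 110514882)) (xR T1.l36 (xR T1.l34 (xR T1.l18 T1.l22)))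
  (TrL.c (I.pos (nat_lit 0) (nat_lit 0)) (xk (xa T1.l23 T1.l23) (xa T1.l23 T1.l23))
  (TrL.c (I.pos (nat_lit 0) (nat_lit 0)) T3.l24
  (TrL.c (I.mix (nat_lit 8088324) (nat_lit 110514882)) (xR T1.l20 (xR T1.l24 (xR T1.l24 T1.l24)))
  (TrL.c (I.mix (nat_lit 8088324) (nat_lit 89478486)) (xR T3.l4 T3.l8)
  TrL.n)))))))) (by decide +kernel)
theorem bx5_2 : BoxOK sI cl13 cl9 cl4 t3 t1 b5_2 :=
  box_mk (TrL.c (I.pos (nat_lit 0) (nat_lit 0)) (xa (xa T3.l26 T3.l34) (xa T3.l34 T3.l34))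
  (TrL.c (I.pos (nat_lit 0) (nat_lit 0)) (xa T1.l25 T1.l25)
  (TrL.c (I.pos (nat_lit 0) (nat_lit 134217730)) (xR T3.l4 (xa (xR T3.l27 (xR T3.l27 T3.l52)) T3.l35))
  (TrL.c (I.pos (nat_lit 0) (nat_lit 110514882)) (xR T1.l7 (xR T1.l24 (xa T1.l34 T1.l34)))
  (TrL.c (I.pos (nat_lit 0) (nat_lit 0)) (xa T1.l27 T1.l27)
  (TrL.c (I.pos (nat_lit 0) (nat_lit 0)) T3.l28
  (TrL.c (I.mix (nat_lit 8088324) (nat_lit 110514882)) (xR T1.l36 (xR T1.l24 (xa T1.l34 T1.l24)))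
  (TrL.c (I.mix (nat_lit 8088324) (nat_lit 89478486)) (xR T3.l4 T3.l8)
  TrL.n)))))))) (by decide +kernel)
theorem c5_3_0 : chkTag sI cl13 cl9 cl4 t3 b5_3 (tg true true false RT.r2) (I.pos (nat_lit 0) (nat_lit 0))
  (xb (xa (xb (xa (xc T3.l30 (xs T3.l30 T3.l30)) (xc T3.l30 (xs T3.l30 (xb T3.l30 T3.l30)))) (xa (xc T3.l30 T3.l30) (xc T3.l30 T3.l30))) (xb (xa (xs T3.l30 (xb T3.l30 T3.l30)) (xs T3.l30 (xc T3.l30 (xb T3.l0 T3.l0)))) (xa (xs T3.l30 T3.l30) (xs T3.l30 (xc T3.l30 (xk T3.l30 T3.l30)))))) (xa (xb (xa (xs T3.l30 (xc T3.l30 T3.l30)) (xs T3.l30 (xc T3.l30 T3.l30))) (xa (xs (xc T3.l30 T3.l30) (xc (xb T3.l30 T3.l30) (xb T3.l30 T3.l30))) (xs (xc T3.l30 T3.l30) (xc (xb T3.l30 T3.l30) (xb T3.l30 T3.l30))))) (xa (xb (xs T3.l30 T3.l30) (xs (xc T3.l30 T3.l30) (xc T3.l30 (xb T3.l30 T3.l30)))) (xb (xs T3.l30 (xc T3.l30 (xk T3.l30 T3.l30))) (xs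 (xc T3.l30 T3.l30) (xc (xb T3.l30 T3.l30) (xb (xk T3.l30 T3.l30) (xk T3.l30 T3.l30)))))))) = true := by decide +kernel
theorem c5_3_1 : chkTag sI cl13 cl9 cl4 t1 b5_3 (tg true false false RT.r3) (I.pos (nat_lit 0) (nat_lit 0))
  (xk (xb (xa T1.l29 T1.l29) (xa T1.l29 T1.l29)) (xb (xa T1.l29 T1.l29) (xa T1.l29 T1.l29))) = true := by decide +kernel
theorem c5_3_2 : chkTag sI cl13 cl9 cl4 t3 b5_3 (Tag.mk true true false RT.tl RT.r4) (I.pos (nat_lit 0) (nat_lit 134217730))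
  (xR (xR T3.l4 T3.l31) (xR T3.l31 (xR T3.l31 (xb (xR T3.l31 T3.l31) (xR T3.l31 T3.l31))))) = true := by decide +kernel
theorem c5_3_3 : chkTag sI cl13 cl9 cl4 t1 b5_3 (Tag.mk true false false RT.tl RT.r5) (I.pos (nat_lit 0) (nat_lit 110514882))
  (xR (xR T1.l30 T1.l18) (xR (xR T1.l30 T1.l30) (xR T1.l30 (xk T1.l30 T1.l30)))) = true := by decide +kernel
theorem c5_3_4 : chkTag sI cl13 cl9 cl4 t1 b5_3 (tg false false false RT.r3) (I.pos (nat_lit 0) (nat_lit 0))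
  (xb (xk T1.l31 T1.l31) (xk (xb T1.l31 (xa T1.l19 (xb T1.l19 T1.l19))) (xa (xb T1.l19 T1.l19) (xb T1.l31 (xa T1.l19 T1.l19))))) = true := by decide +kernel
theorem c5_3_5 : chkTag sI cl13 cl9 cl4 t3 b5_3 (tg false true false RT.r4) (I.pos (nat_lit 0) (nat_lit 0))
  T3.l32 = true := by decide +kernel
theorem c5_3_6 : chkTag sI cl13 cl9 cl4 t1 b5_3 (Tag.mk false false false RT.tl RT.r5) (I.mix (nat_lit 8088324) (nat_lit 110514882))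
  (xR T1.l20 (xR (xR T1.l20 T1.l32) (xR T1.l32 T1.l32))) = true := by decide +kernel
theorem c5_3_7 : chkTag sI cl13 cl9 cl4 t3 b5_3 (Tag.mk false true false RT.tl RT.r6) (I.mix (nat_lit 8088324) (nat_lit 89478486))
  (xR T3.l13 (xR T3.l33 (xR T3.l33 T3.l33))) = true := by decide +kernel
theorem bx5_3 : BoxOK sI cl13 cl9 cl4 t3 t1 b5_3 :=
  box_mk' [(tg true true false RT.r2), (tg true false false RT.r3), (Tag.mk true true false RT.tl RT.r4), (Tag.mk true false false RT.tl RT.r5), (tg false false false RT.r3), (tg false true false RT.r4), (Tag.mk false false false RT.tl RT.r5), (Tag.mk false true false RT.tl RT.r6)] rfl (allL_c (ex_mk c5_3_0) (allL_c (ex_mk c5_3_1) (allL_c (ex_mk c5_3_2) (allL_c (ex_mk c5_3_3) (allL_c (ex_mk c5_3_4) (allL_c (ex_mk c5_3_5) (allL_c (ex_mk c5_3_6) (allL_c (ex_mk c5_3_7) allL_n))))))))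
theorem bx5_4 : BoxOK sI cl13 cl9 cl4 t3 t1 b5_4 :=
  box_mk (TrL.c (I.pos (nat_lit 0) (nat_lit 0)) (xa (xa T3.l34 T3.l34) (xa (xa T3.l34 T3.l34) (xa T3.l34 (xb T3.l34 T3.l34))))
  (TrL.c (I.pos (nat_lit 0) (nat_lit 0)) (xa (xa T1.l33 T1.l33) (xa T1.l33 T1.l33))
  (TrL.c (I.pos (nat_lit 0) (nat_lit 134217730)) (xR T3.l4 (xa (xR T3.l35 (xR T3.l35 T3.l35)) (xR T3.l35 (xR T3.l35 T3.l35))))
  (TrL.c (I.pos (nat_lit 0) (nat_lit 110514882)) (xR T1.l7 (xa (xR T1.l34 (xR T1.l34 T1.l34)) (xR T1.l34 (xR T1.l34 T1.l34))))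
  (TrL.c (I.pos (nat_lit 0) (nat_lit 0)) (xa T1.l35 (xa T1.l35 T1.l35))
  (TrL.c (I.pos (nat_lit 0) (nat_lit 0)) T3.l36
  (TrL.c (I.mix (nat_lit 8088324) (nat_lit 110514882)) (xR (xR T1.l36 T1.l36) (xa (xR T1.l36 (xR T1.l36 T1.l36)) T1.l24))
  (TrL.c (I.mix (nat_lit 8088324) (nat_lit 89478486)) (xR T3.l13 T3.l8)
  TrL.n)))))))) (by decide +kernel)
theorem bx5_5 : BoxOK sI cl13 cl9 cl4 t3 t1 b5_5 :=
  box_mk (TrL.c (I.pos (nat_lit 0) (nat_lit 0)) (xa (xb T3.l22 T3.l22) T3.l0)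
  (TrL.c (I.pos (nat_lit 0) (nat_lit 0)) (xk T1.l21 T1.l29)
  (TrL.c (I.pos (nat_lit 0) (nat_lit 134217730)) (xR (xR T3.l4 T3.l4) (xR T3.l4 (xR T3.l4 T3.l19)))
  (TrL.c (I.pos (nat_lit 0) (nat_lit 110514882)) (xR T1.l36 (xR T1.l18 (xR T1.l3 T1.l18)))
  (TrL.c (I.pos (nat_lit 0) (nat_lit 0)) T1.l38
  (TrL.c (I.pos (nat_lit 0) (nat_lit 0)) T3.l39
  (TrL.c (I.mix (nat_lit 8088324) (nat_lit 110514882)) (xR T1.l20 (xR T1.l5 (xR T1.l39 T1.l32)))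
  (TrL.c (I.mix (nat_lit 8088324) (nat_lit 89478486)) (xR T3.l4 T3.l6)
  TrL.n)))))))) (by decide +kernel)
theorem bx5_6 : BoxOK sI cl13 cl9 cl4 t3 t1 b5_6 :=
  box_mk (TrL.c (I.pos (nat_lit 0) (nat_lit 0)) (xa (xa T3.l34 T3.l26) T3.l34)
  (TrL.c (I.pos (nat_lit 0) (nat_lit 0)) (xa T1.l40 T1.l33)
  (TrL.c (I.pos (nat_lit 0) (nat_lit 134217730)) (xR T3.l4 (xa T3.l35 T3.l35))
  (TrL.c (I.pos (nat_lit 0) (nat_lit 110514882)) (xR T1.l7 (xR T1.l24 (xa T1.l28 T1.l34)))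
  (TrL.c (I.pos (nat_lit 0) (nat_lit 0)) (xa T1.l35 T1.l35)
  (TrL.c (I.pos (nat_lit 0) (nat_lit 0)) T3.l43
  (TrL.c (I.mix (nat_lit 8088324) (nat_lit 110514882)) (xR (xR T1.l36 T1.l20) (xR T1.l24 (xR T1.l24 T1.l43)))
  (TrL.c (I.mix (nat_lit 8088324) (nat_lit 89478486)) (xR T3.l4 T3.l8)
  TrL.n)))))))) (by decide +kernel)
theorem bx5_7 : BoxOK sI cl13 cl9 cl4 t3 t1 b5_7 :=
  box_mk (TrL.c (I.pos (nat_lit 0) (nat_lit 0)) (xa T3.l0 T3.l0)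
  (TrL.c (I.pos (nat_lit 0) (nat_lit 0)) (xk T1.l29 T1.l29)
  (TrL.c (I.pos (nat_lit 0) (nat_lit 134217730)) (xR (xR T3.l4 T3.l31) (xR T3.l31 (xR T3.l31 T3.l31)))
  (TrL.c (I.pos (nat_lit 0) (nat_lit 110514882)) (xR (xR T1.l30 T1.l18) (xR T1.l34 (xR T1.l30 T1.l30)))
  (TrL.c (I.pos (nat_lit 0) (nat_lit 0)) (xk T1.l31 T1.l31)
  (TrL.c (I.pos (nat_lit 0) (nat_lit 0)) T3.l32
  (TrL.c (I.mix (nat_lit 8088324) (nat_lit 110514882)) (xR T1.l20 (xR T1.l32 (xR T1.l32 T1.l32)))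
  (TrL.c (I.mix (nat_lit 8088324) (nat_lit 89478486)) (xR T3.l13 (xR T3.l33 (xR T3.l33 T3.l33)))
  TrL.n)))))))) (by decide +kernel)
theorem bx5_8 : BoxOK sI cl13 cl9 cl4 t3 t1 b5_8 :=
  box_mk (TrL.c (I.pos (nat_lit 0) (nat_lit 0)) (xa (xa T3.l34 T3.l34) (xa T3.l34 T3.l34))
  (TrL.c (I.pos (nat_lit 0) (nat_lit 0)) (xa T1.l33 T1.l33)
  (TrL.c (I.pos (nat_lit 0) (nat_lit 134217730)) (xR T3.l4 (xR T3.l35 (xa T3.l35 T3.l35)))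
  (TrL.c (I.pos (nat_lit 0) (nat_lit 110514882)) (xR T1.l7 (xR T1.l34 (xR T1.l34 T1.l34)))
  (TrL.c (I.pos (nat_lit 0) (nat_lit 0)) (xa T1.l35 T1.l35)
  (TrL.c (I.pos (nat_lit 0) (nat_lit 0)) T3.l36
  (TrL.c (I.mix (nat_lit 8088324) (nat_lit 110514882)) (xR (xR T1.l36 T1.l36) (xR T1.l36 (xa T1.l36 T1.l24)))
  (TrL.c (I.mix (nat_lit 8088324) (nat_lit 89478486)) (xR T3.l4 T3.l8)
  TrL.n)))))))) (by decide +kernel)
theorem bx5_9 : BoxOK sI cl13 cl9 cl4 t3 t1 b5_9 :=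
  box_mk (TrL.c (I.pos (nat_lit 0) (nat_lit 0)) (xa (xb T3.l22 T3.l22) (xb T3.l0 T3.l0))
  (TrL.c (I.pos (nat_lit 0) (nat_lit 0)) (xk T1.l21 T1.l21)
  (TrL.c (I.pos (nat_lit 0) (nat_lit 134217730)) (xR (xR T3.l4 T3.l4) (xR T3.l4 (xR T3.l4 T3.l23)))
  (TrL.c (I.pos (nat_lit 0) (nat_lit 110514882)) (xR T1.l36 (xR T1.l18 (xR T1.l3 T1.l18)))
  (TrL.c (I.pos (nat_lit 0) (nat_lit 0)) (xk T1.l23 T1.l23)
  (TrL.c (I.pos (nat_lit 0) (nat_lit 0)) T3.l24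
  (TrL.c (I.mix (nat_lit 8088324) (nat_lit 110514882)) (xR T1.l20 (xR T1.l24 (xR T1.l24 T1.l24)))
  (TrL.c (I.mix (nat_lit 8088324) (nat_lit 89478486)) (xR T3.l4 T3.l8)
  TrL.n)))))))) (by decide +kernel)
theorem bx5_10 : BoxOK sI cl13 cl9 cl4 t3 t1 b5_10 :=
  box_mk (TrL.c (I.pos (nat_lit 0) (nat_lit 0)) T3.l34
  (TrL.c (I.pos (nat_lit 0) (nat_lit 0)) T1.l33
  (TrL.c (I.pos (nat_lit 0) (nat_lit 134217730)) (xR T3.l4 T3.l35)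
  (TrL.c (I.pos (nat_lit 0) (nat_lit 110514882)) (xR T1.l7 T1.l34)
  (TrL.c (I.pos (nat_lit 0) (nat_lit 0)) T1.l35
  (TrL.c (I.pos (nat_lit 0) (nat_lit 0)) T3.l28
  (TrL.c (I.mix (nat_lit 8088324) (nat_lit 110514882)) (xR T1.l20 T1.l24)
  (TrL.c (I.mix (nat_lit 8088324) (nat_lit 89478486)) T3.l13
  TrL.n)))))))) (by decide +kernel)
theorem bx5_11 : BoxOK sI cl13 cl9 cl4 t3 t1 b5_11 :=
  box_mk (TrL.c (I.pos (nat_lit 0) (nat_lit 0)) (xa (xb (xa T3.l0 T3.l0) (xa T3.l30 T3.l30)) (xb (xa T3.l0 T3.l0) T3.l0))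
  (TrL.c (I.pos (nat_lit 0) (nat_lit 0)) (xk T1.l29 T1.l29)
  (TrL.c (I.pos (nat_lit 0) (nat_lit 134217730)) (xR (xR T3.l4 T3.l31) (xR T3.l31 (xR T3.l31 T3.l31)))
  (TrL.c (I.pos (nat_lit 0) (nat_lit 110514882)) (xR (xR T1.l30 T1.l18) (xR (xR T1.l30 T1.l30) (xR T1.l30 T1.l30)))
  (TrL.c (I.pos (nat_lit 0) (nat_lit 0)) (xk T1.l31 (xb T1.l31 T1.l31))
  (TrL.c (I.pos (nat_lit 0) (nat_lit 0)) T3.l32
  (TrL.c (I.mix (nat_lit 8088324) (nat_lit 110514882)) (xR T1.l20 (xR T1.l24 (xR T1.l32 T1.l32)))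
  (TrL.c (I.mix (nat_lit 8088324) (nat_lit 89478486)) (xR T3.l13 (xR T3.l33 (xR T3.l33 T3.l33)))
  TrL.n)))))))) (by decide +kernel)
theorem bx5_12 : BoxOK sI cl13 cl9 cl4 t3 t1 b5_12 :=
  box_mk (TrL.c (I.pos (nat_lit 0) (nat_lit 0)) (xa (xa T3.l34 T3.l34) (xa T3.l34 T3.l34))
  (TrL.c (I.pos (nat_lit 0) (nat_lit 0)) (xa T1.l33 T1.l33)
  (TrL.c (I.pos (nat_lit 0) (nat_lit 134217730)) (xR T3.l4 (xR T3.l35 (xa T3.l35 T3.l35)))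
  (TrL.c (I.pos (nat_lit 0) (nat_lit 110514882)) (xR T1.l7 (xR T1.l28 (xR T1.l34 T1.l34)))
  (TrL.c (I.pos (nat_lit 0) (nat_lit 0)) (xa T1.l35 T1.l35)
  (TrL.c (I.pos (nat_lit 0) (nat_lit 0)) T3.l36
  (TrL.c (I.mix (nat_lit 8088324) (nat_lit 110514882)) (xR (xR T1.l36 T1.l36) (xa (xR T1.l36 T1.l58) (xR T1.l36 T1.l24)))
  (TrL.c (I.mix (nat_lit 8088324) (nat_lit 89478486)) (xR T3.l4 T3.l8)
  TrL.n)))))))) (by decide +kernel)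
theorem bx5_13 : BoxOK sI cl13 cl9 cl4 t3 t1 b5_13 :=
  box_mk (TrL.c (I.pos (nat_lit 0) (nat_lit 0)) (xa (xb T3.l22 T3.l22) (xb T3.l0 (xb T3.l22 T3.l22)))
  (TrL.c (I.pos (nat_lit 0) (nat_lit 0)) (xk T1.l21 T1.l21)
  (TrL.c (I.pos (nat_lit 0) (nat_lit 134217730)) (xR (xR T3.l4 T3.l4) (xR T3.l4 (xR T3.l4 T3.l23)))
  (TrL.c (I.pos (nat_lit 0) (nat_lit 110514882)) (xR T1.l36 (xR T1.l34 (xR T1.l18 T1.l30)))
  (TrL.c (I.pos (nat_lit 0) (nat_lit 0)) (xk (xb T1.l23 T1.l23) T1.l23)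
  (TrL.c (I.pos (nat_lit 0) (nat_lit 0)) T3.l24
  (TrL.c (I.mix (nat_lit 8088324) (nat_lit 110514882)) (xR T1.l20 (xR T1.l24 (xR T1.l24 T1.l24)))
  (TrL.c (I.mix (nat_lit 8088324) (nat_lit 89478486)) (xR T3.l4 T3.l8)
  TrL.n)))))))) (by decide +kernel)
theorem bx5_14 : BoxOK sI cl13 cl9 cl4 t3 t1 b5_14 :=
  box_mk (TrL.c (I.pos (nat_lit 0) (nat_lit 0)) (xa T3.l34 T3.l34)
  (TrL.c (I.pos (nat_lit 0) (nat_lit 0)) (xa T1.l33 T1.l25)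
  (TrL.c (I.pos (nat_lit 0) (nat_lit 134217730)) (xR T3.l4 (xR T3.l27 T3.l35))
  (TrL.c (I.pos (nat_lit 0) (nat_lit 110514882)) (xR T1.l7 (xR T1.l24 T1.l34))
  (TrL.c (I.pos (nat_lit 0) (nat_lit 0)) (xa T1.l27 T1.l27)
  (TrL.c (I.pos (nat_lit 0) (nat_lit 0)) T3.l28
  (TrL.c (I.mix (nat_lit 8088324) (nat_lit 110514882)) (xR T1.l36 (xR T1.l24 (xa T1.l34 T1.l24)))
  (TrL.c (I.mix (nat_lit 8088324) (nat_lit 89478486)) (xR T3.l4 T3.l8)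
  TrL.n)))))))) (by decide +kernel)
theorem bx5_15 : BoxOK sI cl13 cl9 cl4 t3 t1 b5_15 :=
  box_mk (TrL.c (I.pos (nat_lit 0) (nat_lit 0)) (xa (xb (xa (xb (xs T3.l30 (xb T3.l30 T3.l30)) (xs T3.l30 T3.l30)) (xb (xs T3.l30 (xb (xa T3.l0 T3.l0) (xa T3.l0 T3.l0))) (xs T3.l30 T3.l30))) (xa (xb T3.l30 T3.l30) (xb T3.l30 T3.l30))) (xb (xa (xb (xs T3.l30 (xb T3.l0 T3.l0)) (xs T3.l30 T3.l30)) (xb (xs T3.l0 (xb T3.l0 T3.l0)) (xs T3.l30 (xb T3.l0 T3.l30)))) (xa (xb T3.l30 T3.l30) (xb (xs T3.l30 T3.l30) (xs T3.l30 T3.l30)))))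
  (TrL.c (I.pos (nat_lit 0) (nat_lit 0)) (xk (xa T1.l29 T1.l29) (xa T1.l29 T1.l29))
  (TrL.c (I.pos (nat_lit 0) (nat_lit 134217730)) (xR (xR T3.l4 T3.l31) (xR T3.l31 (xR T3.l31 (xR T3.l31 T3.l31))))
  (TrL.c (I.pos (nat_lit 0) (nat_lit 110514882)) (xR (xR T1.l30 T1.l18) (xR (xR T1.l30 T1.l30) (xR T1.l30 T1.l30)))
  (TrL.c (I.pos (nat_lit 0) (nat_lit 0)) (xk (xa T1.l31 T1.l31) T1.l31)
  (TrL.c (I.pos (nat_lit 0) (nat_lit 0)) T3.l32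
  (TrL.c (I.mix (nat_lit 8088324) (nat_lit 110514882)) (xR T1.l20 (xR (xR T1.l32 T1.l32) (xR T1.l32 T1.l32)))
  (TrL.c (I.mix (nat_lit 8088324) (nat_lit 89478486)) (xR T3.l13 (xR T3.l33 (xR T3.l33 T3.l33)))
  TrL.n)))))))) (by decide +kernel)
theorem bx5_16 : BoxOK sI cl13 cl9 cl4 t3 t1 b5_16 :=
  box_mk (TrL.c (I.pos (nat_lit 0) (nat_lit 0)) (xa (xa T3.l34 T3.l34) (xa T3.l34 (xa T3.l34 T3.l34)))
  (TrL.c (I.pos (nat_lit 0) (nat_lit 0)) (xa T1.l33 (xa T1.l33 T1.l33))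
  (TrL.c (I.pos (nat_lit 0) (nat_lit 134217730)) (xR T3.l4 (xa (xR T3.l35 T3.l35) (xR T3.l35 (xR T3.l35 T3.l35))))
  (TrL.c (I.pos (nat_lit 0) (nat_lit 110514882)) (xR T1.l7 (xa (xR T1.l34 T1.l34) (xR T1.l34 T1.l34)))
  (TrL.c (I.pos (nat_lit 0) (nat_lit 0)) (xa T1.l35 T1.l35)
  (TrL.c (I.pos (nat_lit 0) (nat_lit 0)) T3.l36
  (TrL.c (I.mix (nat_lit 8088324) (nat_lit 110514882)) (xR (xR T1.l36 T1.l36) (xa (xR T1.l36 (xR T1.l36 T1.l36)) T1.l24))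
  (TrL.c (I.mix (nat_lit 8088324) (nat_lit 89478486)) (xR T3.l13 T3.l8)
  TrL.n)))))))) (by decide +kernel)
theorem bx5_17 : BoxOK sI cl13 cl9 cl4 t3 t1 b5_17 :=
  box_mk (TrL.c (I.pos (nat_lit 0) (nat_lit 0)) (xa (xa T3.l41 T3.l26) T3.l34)
  (TrL.c (I.pos (nat_lit 0) (nat_lit 0)) (xa T1.l40 T1.l33)
  (TrL.c (I.pos (nat_lit 0) (nat_lit 134217730)) (xR T3.l4 (xa (xR T3.l4 (xa T3.l35 T3.l27)) T3.l35))
  (TrL.c (I.pos (nat_lit 0) (nat_lit 110514882)) (xR T1.l7 (xR T1.l24 (xa T1.l34 T1.l34)))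
  (TrL.c (I.pos (nat_lit 0) (nat_lit 0)) (xa T1.l57 T1.l35)
  (TrL.c (I.pos (nat_lit 0) (nat_lit 0)) T3.l43
  (TrL.c (I.mix (nat_lit 8088324) (nat_lit 110514882)) (xR (xR T1.l36 T1.l20) (xR T1.l24 (xR T1.l36 T1.l43)))
  (TrL.c (I.mix (nat_lit 8088324) (nat_lit 89478486)) (xR T3.l4 T3.l8)
  TrL.n)))))))) (by decide +kernel)
theorem bx5_18 : BoxOK sI cl13 cl9 cl4 t3 t1 b5_18 :=
  box_mk (TrL.c (I.pos (nat_lit 0) (nat_lit 0)) (xa (xa T3.l34 T3.l34) (xa T3.l34 T3.l45))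
  (TrL.c (I.pos (nat_lit 0) (nat_lit 0)) (xa T1.l33 T1.l33)
  (TrL.c (I.pos (nat_lit 0) (nat_lit 134217730)) (xR T3.l4 (xR T3.l4 T3.l35))
  (TrL.c (I.pos (nat_lit 0) (nat_lit 110514882)) (xR T1.l7 (xR T1.l18 T1.l34))
  (TrL.c (I.pos (nat_lit 0) (nat_lit 0)) (xa T1.l35 T1.l35)
  (TrL.c (I.pos (nat_lit 0) (nat_lit 0)) T3.l36
  (TrL.c (I.mix (nat_lit 8088324) (nat_lit 110514882)) (xR T1.l20 T1.l24)
  (TrL.c (I.mix (nat_lit 8088324) (nat_lit 89478486)) T3.l13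
  TrL.n)))))))) (by decide +kernel)
theorem bx5_19 : BoxOK sI cl13 cl9 cl4 t3 t1 b5_19 :=
  box_mk (TrL.c (I.pos (nat_lit 0) (nat_lit 0)) (xb (xa T3.l46 (xb T3.l22 T3.l22)) (xa T3.l46 (xb T3.l46 T3.l46)))
  (TrL.c (I.pos (nat_lit 0) (nat_lit 0)) (xk T1.l46 T1.l46)
  (TrL.c (I.pos (nat_lit 0) (nat_lit 134217730)) (xR (xR T3.l4 T3.l4) (xR T3.l4 (xR T3.l4 T3.l47)))
  (TrL.c (I.pos (nat_lit 0) (nat_lit 110514882)) (xR T1.l36 (xR T1.l34 (xR T1.l18 T1.l47)))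
  (TrL.c (I.pos (nat_lit 0) (nat_lit 0)) (xk (xb T1.l48 T1.l48) (xb T1.l48 T1.l48))
  (TrL.c (I.pos (nat_lit 0) (nat_lit 0)) T3.l48
  (TrL.c (I.mix (nat_lit 8088324) (nat_lit 110514882)) (xR T1.l20 (xR T1.l24 (xR T1.l24 T1.l49)))
  (TrL.c (I.mix (nat_lit 8088324) (nat_lit 89478486)) (xR T3.l4 T3.l8)
  TrL.n)))))))) (by decide +kernel)
theorem bx5_20 : BoxOK sI cl13 cl9 cl4 t3 t1 b5_20 :=
  box_mk (TrL.c (I.pos (nat_lit 0) (nat_lit 0)) T3.l34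
  (TrL.c (I.pos (nat_lit 0) (nat_lit 0)) T1.l25
  (TrL.c (I.pos (nat_lit 0) (nat_lit 134217730)) (xR T3.l4 T3.l35)
  (TrL.c (I.pos (nat_lit 0) (nat_lit 110514882)) (xR T1.l7 T1.l34)
  (TrL.c (I.pos (nat_lit 0) (nat_lit 0)) T1.l27
  (TrL.c (I.pos (nat_lit 0) (nat_lit 0)) T3.l28
  (TrL.c (I.mix (nat_lit 8088324) (nat_lit 110514882)) (xR T1.l20 T1.l24)
  (TrL.c (I.mix (nat_lit 8088324) (nat_lit 89478486)) T3.l13
  TrL.n)))))))) (by decide +kernel)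
theorem bx5_21 : BoxOK sI cl13 cl9 cl4 t3 t1 b5_21 :=
  box_mk (TrL.c (I.pos (nat_lit 0) (nat_lit 0)) (xa (xa T3.l51 T3.l34) T3.l34)
  (TrL.c (I.pos (nat_lit 0) (nat_lit 0)) (xa T1.l55 T1.l55)
  (TrL.c (I.pos (nat_lit 0) (nat_lit 134217730)) (xR T3.l4 (xR T3.l4 (xR T3.l12 T3.l52)))
  (TrL.c (I.pos (nat_lit 0) (nat_lit 110514882)) (xR T1.l7 (xR T1.l24 (xR T1.l36 T1.l56)))
  (TrL.c (I.pos (nat_lit 0) (nat_lit 0)) (xa T1.l57 T1.l57)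
  (TrL.c (I.pos (nat_lit 0) (nat_lit 0)) T3.l53
  (TrL.c (I.mix (nat_lit 8088324) (nat_lit 110514882)) (xR (xR T1.l36 T1.l36) (xR T1.l24 (xR T1.l58 T1.l58)))
  (TrL.c (I.mix (nat_lit 8088324) (nat_lit 89478486)) (xR T3.l4 T3.l8)
  TrL.n)))))))) (by decide +kernel)
theorem bx5_22 : BoxOK sI cl13 cl9 cl4 t3 t1 b5_22 :=
  box_mk (TrL.c (I.pos (nat_lit 0) (nat_lit 0)) (xa T3.l0 T3.l0)
  (TrL.c (I.pos (nat_lit 0) (nat_lit 0)) (xk T1.l17 T1.l17)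
  (TrL.c (I.pos (nat_lit 0) (nat_lit 134217730)) (xR (xR T3.l4 T3.l4) (xR T3.l19 (xR T3.l19 T3.l19)))
  (TrL.c (I.pos (nat_lit 0) (nat_lit 110514882)) (xR (xR T1.l7 T1.l18) (xR T1.l34 (xR T1.l18 T1.l18)))
  (TrL.c (I.pos (nat_lit 0) (nat_lit 0)) T1.l19
  (TrL.c (I.pos (nat_lit 0) (nat_lit 0)) T3.l20
  (TrL.c (I.mix (nat_lit 8088324) (nat_lit 110514882)) (xR T1.l20 (xR T1.l20 (xR T1.l20 T1.l20)))
  (TrL.c (I.mix (nat_lit 8088324) (nat_lit 89478486)) (xR T3.l13 (xR T3.l21 T3.l21))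
  TrL.n)))))))) (by decide +kernel)
theorem bx5_23 : BoxOK sI cl13 cl9 cl4 t3 t1 b5_23 :=
  box_mk (TrL.c (I.pos (nat_lit 0) (nat_lit 0)) (xa T3.l45 T3.l45)
  (TrL.c (I.pos (nat_lit 0) (nat_lit 0)) T1.l33
  (TrL.c (I.pos (nat_lit 0) (nat_lit 134217730)) (xR T3.l4 T3.l35)
  (TrL.c (I.pos (nat_lit 0) (nat_lit 110514882)) (xR T1.l7 T1.l34)
  (TrL.c (I.pos (nat_lit 0) (nat_lit 0)) T1.l45
  (TrL.c (I.pos (nat_lit 0) (nat_lit 0)) T3.l36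
  (TrL.c (I.mix (nat_lit 8088324) (nat_lit 110514882)) (xR T1.l20 T1.l24)
  (TrL.c (I.mix (nat_lit 8088324) (nat_lit 89478486)) T3.l13
  TrL.n)))))))) (by decide +kernel)
theorem bx5_24 : BoxOK sI cl13 cl9 cl4 t3 t1 b5_24 :=
  box_mk (TrL.c (I.pos (nat_lit 0) (nat_lit 0)) (xa T3.l46 T3.l46)
  (TrL.c (I.pos (nat_lit 0) (nat_lit 0)) T1.l46
  (TrL.c (I.pos (nat_lit 0) (nat_lit 134217730)) (xR T3.l4 (xR T3.l4 (xR T3.l4 T3.l47)))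
  (TrL.c (I.pos (nat_lit 0) (nat_lit 110514882)) (xR T1.l36 (xR T1.l18 (xR T1.l3 T1.l47)))
  (TrL.c (I.pos (nat_lit 0) (nat_lit 0)) T1.l48
  (TrL.c (I.pos (nat_lit 0) (nat_lit 0)) T3.l48
  (TrL.c (I.mix (nat_lit 8088324) (nat_lit 110514882)) (xR T1.l20 (xR T1.l5 T1.l24))
  (TrL.c (I.mix (nat_lit 8088324) (nat_lit 89478486)) T3.l13
  TrL.n)))))))) (by decide +kernel)
theorem bx5_25 : BoxOK sI cl13 cl9 cl4 t3 t1 b5_25 :=
  box_mk (TrL.c (I.pos (nat_lit 0) (nat_lit 0)) T3.l34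
  (TrL.c (I.pos (nat_lit 0) (nat_lit 0)) T1.l55
  (TrL.c (I.pos (nat_lit 0) (nat_lit 134217730)) (xR T3.l4 T3.l27)
  (TrL.c (I.pos (nat_lit 0) (nat_lit 110514882)) (xR T1.l7 T1.l28)
  (TrL.c (I.pos (nat_lit 0) (nat_lit 0)) T1.l57
  (TrL.c (I.pos (nat_lit 0) (nat_lit 0)) T3.l53
  (TrL.c (I.mix (nat_lit 8088324) (nat_lit 110514882)) (xR T1.l7 T1.l24)
  (TrL.c (I.mix (nat_lit 8088324) (nat_lit 89478486)) T3.l4
  TrL.n)))))))) (by decide +kernel)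
theorem bx5_26 : BoxOK sI cl13 cl9 cl4 t3 t1 b5_26 :=
  box_mk (TrL.c (I.pos (nat_lit 0) (nat_lit 0)) (xa T3.l0 (xb (xa T3.l0 T3.l0) (xa T3.l0 T3.l0)))
  (TrL.c (I.pos (nat_lit 0) (nat_lit 0)) (xa (xk T1.l17 T1.l17) (xk (xb T1.l2 T1.l2) (xb T1.l17 T1.l17)))
  (TrL.c (I.pos (nat_lit 0) (nat_lit 134217730)) (xR (xR T3.l4 T3.l4) (xR T3.l19 (xR T3.l19 T3.l4)))
  (TrL.c (I.pos (nat_lit 0) (nat_lit 110514882)) (xR (xR T1.l36 T1.l36) (xR (xR T1.l18 T1.l18) (xR T1.l18 T1.l18)))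
  (TrL.c (I.pos (nat_lit 0) (nat_lit 0)) (xk (xa T1.l19 (xb (xa T1.l19 T1.l19) T1.l19)) (xa T1.l19 (xb (xa T1.l19 T1.l19) T1.l19)))
  (TrL.c (I.pos (nat_lit 0) (nat_lit 0)) (xk T3.l20 T3.l20)
  (TrL.c (I.mix (nat_lit 8088324) (nat_lit 110514882)) (xR (xR T1.l20 T1.l20) (xR (xR T1.l20 T1.l20) (xR T1.l20 (xR T1.l20 T1.l20))))
  (TrL.c (I.mix (nat_lit 8088324) (nat_lit 89478486)) (xR T3.l13 (xR T3.l21 (xR T3.l21 T3.l21)))
  TrL.n)))))))) (by decide +kernel)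
theorem bx5_27 : BoxOK sI cl13 cl9 cl4 t3 t1 b5_27 :=
  box_mk (TrL.c (I.pos (nat_lit 0) (nat_lit 0)) (xa T3.l45 T3.l45)
  (TrL.c (I.pos (nat_lit 0) (nat_lit 0)) T1.l53
  (TrL.c (I.pos (nat_lit 0) (nat_lit 134217730)) (xR T3.l4 T3.l35)
  (TrL.c (I.pos (nat_lit 0) (nat_lit 110514882)) (xR T1.l7 T1.l34)
  (TrL.c (I.pos (nat_lit 0) (nat_lit 0)) T1.l45
  (TrL.c (I.pos (nat_lit 0) (nat_lit 0)) T3.l54
  (TrL.c (I.mix (nat_lit 8088324) (nat_lit 110514882)) (xR T1.l20 T1.l24)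
  (TrL.c (I.mix (nat_lit 8088324) (nat_lit 89478486)) T3.l13
  TrL.n)))))))) (by decide +kernel)
theorem bx5_28 : BoxOK sI cl13 cl9 cl4 t3 t1 b5_28 :=
  box_mk (TrL.c (I.pos (nat_lit 0) (nat_lit 0)) (xa T3.l46 T3.l46)
  (TrL.c (I.pos (nat_lit 0) (nat_lit 0)) T1.l46
  (TrL.c (I.pos (nat_lit 0) (nat_lit 134217730)) (xR T3.l4 T3.l35)
  (TrL.c (I.pos (nat_lit 0) (nat_lit 110514882)) (xR T1.l7 (xR T1.l18 T1.l34))
  (TrL.c (I.pos (nat_lit 0) (nat_lit 0)) T1.l48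
  (TrL.c (I.pos (nat_lit 0) (nat_lit 0)) T3.l48
  (TrL.c (I.mix (nat_lit 8088324) (nat_lit 110514882)) (xR T1.l20 (xR T1.l5 T1.l24))
  (TrL.c (I.mix (nat_lit 8088324) (nat_lit 89478486)) T3.l13
  TrL.n)))))))) (by decide +kernel)
theorem bx5_29 : BoxOK sI cl13 cl9 cl4 t3 t1 b5_29 :=
  box_mk (TrL.c (I.pos (nat_lit 0) (nat_lit 0)) T3.l34
  (TrL.c (I.pos (nat_lit 0) (nat_lit 0)) T1.l33
  (TrL.c (I.pos (nat_lit 0) (nat_lit 134217730)) (xR T3.l4 T3.l35)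
  (TrL.c (I.pos (nat_lit 0) (nat_lit 110514882)) (xR T1.l7 T1.l34)
  (TrL.c (I.pos (nat_lit 0) (nat_lit 0)) T1.l57
  (TrL.c (I.pos (nat_lit 0) (nat_lit 0)) T3.l53
  (TrL.c (I.mix (nat_lit 8088324) (nat_lit 110514882)) (xR T1.l20 T1.l24)
  (TrL.c (I.mix (nat_lit 8088324) (nat_lit 89478486)) T3.l13
  TrL.n)))))))) (by decide +kernel)
theorem bx5_30 : BoxOK sI cl13 cl9 cl4 t3 t1 b5_30 :=
  box_mk (TrL.c (I.pos (nat_lit 0) (nat_lit 0)) (xa (xb (xa (xs (xb T3.l0 T3.l0) (xb T3.l0 (xa T3.l0 T3.l0))) (xs (xb T3.l0 T3.l0) (xb T3.l0 T3.l0))) (xa (xs (xb T3.l0 T3.l30) (xb (xs T3.l0 (xa T3.l0 T3.l0)) (xk T3.l30 (xs T3.l0 T3.l0)))) (xs (xb T3.l0 T3.l30) (xb (xs T3.l0 T3.l0) (xk (xs T3.l0 T3.l0) T3.l0))))) (xb (xa (xs T3.l0 (xk (xb T3.l0 T3.l0) (xb T3.l0 T3.l0))) (xs T3.l0 (xk (xb T3.l0 T3.l0) (xb T3.l0 T3.l0)))) (xa (xs (xk T3.l0 T3.l0) (xb (xk T3.l0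 T3.l0) (xk T3.l0 T3.l0))) (xs (xk T3.l0 T3.l0) (xk (xb T3.l0 T3.l0) (xb T3.l0 T3.l0))))))
  (TrL.c (I.pos (nat_lit 0) (nat_lit 0)) (xk (xa T1.l17 T1.l17) (xa T1.l17 T1.l17))
  (TrL.c (I.pos (nat_lit 0) (nat_lit 134217730)) (xR (xR T3.l4 T3.l4) (xR T3.l19 (xR T3.l4 (xR T3.l4 T3.l31))))
  (TrL.c (I.pos (nat_lit 0) (nat_lit 110514882)) (xR (xR T1.l30 T1.l18) (xR T1.l18 (xR T1.l18 T1.l18)))
  (TrL.c (I.pos (nat_lit 0) (nat_lit 0)) (xk (xa T1.l19 T1.l19) (xb T1.l19 (xa T1.l19 T1.l19)))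
  (TrL.c (I.pos (nat_lit 0) (nat_lit 0)) T3.l20
  (TrL.c (I.mix (nat_lit 8088324) (nat_lit 110514882)) (xR T1.l20 (xR T1.l20 (xR T1.l20 T1.l20)))
  (TrL.c (I.mix (nat_lit 8088324) (nat_lit 89478486)) (xR T3.l13 (xR T3.l21 T3.l21))
  TrL.n)))))))) (by decide +kernel)
theorem bx5_31 : BoxOK sI cl13 cl9 cl4 t3 t1 b5_31 :=
  box_mk (TrL.c (I.pos (nat_lit 0) (nat_lit 0)) (xa (xa T3.l34 T3.l34) (xa T3.l34 T3.l45))
  (TrL.c (I.pos (nat_lit 0) (nat_lit 0)) (xa T1.l33 T1.l33)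
  (TrL.c (I.pos (nat_lit 0) (nat_lit 134217730)) (xR T3.l4 (xR T3.l4 (xR T3.l4 T3.l49)))
  (TrL.c (I.pos (nat_lit 0) (nat_lit 110514882)) (xR T1.l7 (xR T1.l18 T1.l34))
  (TrL.c (I.pos (nat_lit 0) (nat_lit 0)) (xa T1.l35 T1.l35)
  (TrL.c (I.pos (nat_lit 0) (nat_lit 0)) T3.l36
  (TrL.c (I.mix (nat_lit 8088324) (nat_lit 110514882)) (xR T1.l20 T1.l24)
  (TrL.c (I.mix (nat_lit 8088324) (nat_lit 89478486)) T3.l13
  TrL.n)))))))) (by decide +kernel)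
theorem bx5_32 : BoxOK sI cl13 cl9 cl4 t3 t1 b5_32 :=
  box_mk (TrL.c (I.pos (nat_lit 0) (nat_lit 0)) (xa (xb T3.l46 T3.l46) (xb T3.l46 T3.l46))
  (TrL.c (I.pos (nat_lit 0) (nat_lit 0)) (xk T1.l46 T1.l46)
  (TrL.c (I.pos (nat_lit 0) (nat_lit 134217730)) (xR T3.l4 (xR T3.l4 (xR T3.l4 T3.l47)))
  (TrL.c (I.pos (nat_lit 0) (nat_lit 110514882)) (xR T1.l36 (xR T1.l18 (xR T1.l3 T1.l47)))
  (TrL.c (I.pos (nat_lit 0) (nat_lit 0)) (xk T1.l23 T1.l23)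
  (TrL.c (I.pos (nat_lit 0) (nat_lit 0)) T3.l48
  (TrL.c (I.mix (nat_lit 8088324) (nat_lit 110514882)) (xR T1.l20 (xR T1.l24 (xR T1.l24 T1.l49)))
  (TrL.c (I.mix (nat_lit 8088324) (nat_lit 89478486)) (xR T3.l4 T3.l8)
  TrL.n)))))))) (by decide +kernel)
theorem bx5_33 : BoxOK sI cl13 cl9 cl4 t3 t1 b5_33 :=
  box_mk (TrL.c (I.pos (nat_lit 0) (nat_lit 0)) (xa T3.l34 T3.l34)
  (TrL.c (I.pos (nat_lit 0) (nat_lit 0)) (xa T1.l33 T1.l55)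
  (TrL.c (I.pos (nat_lit 0) (nat_lit 134217730)) (xR T3.l4 (xR T3.l4 (xR T3.l4 T3.l52)))
  (TrL.c (I.pos (nat_lit 0) (nat_lit 110514882)) (xR T1.l7 (xR T1.l24 (xR T1.l18 T1.l34)))
  (TrL.c (I.pos (nat_lit 0) (nat_lit 0)) (xa T1.l57 T1.l57)
  (TrL.c (I.pos (nat_lit 0) (nat_lit 0)) T3.l53
  (TrL.c (I.mix (nat_lit 8088324) (nat_lit 110514882)) (xR T1.l36 (xR T1.l24 (xR T1.l58 T1.l58)))
  (TrL.c (I.mix (nat_lit 8088324) (nat_lit 89478486)) (xR T3.l4 T3.l8)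
  TrL.n)))))))) (by decide +kernel)
theorem c5_34_0 : chkTag sI cl13 cl9 cl4 t3 b5_34 (tg true true false RT.r2) (I.pos (nat_lit 0) (nat_lit 0))
  (xa (xb (xa (xb (xa T3.l0 T3.l0) (xa (xs T3.l0 T3.l0) (xs T3.l0 T3.l0))) (xa (xb T3.l0 T3.l0) (xb T3.l0 T3.l0))) (xa (xs (xa (xb T3.l0 T3.l0) (xb T3.l0 T3.l0)) (xa (xb T3.l0 (xc T3.l0 T3.l0)) (xb T3.l0 (xc T3.l0 T3.l0)))) (xs (xa T3.l0 T3.l0) (xa (xb T3.l0 (xc T3.l0 T3.l0)) (xb T3.l0 (xc T3.l0 T3.l0)))))) (xb (xa (xs T3.l0 (xa T3.l0 T3.l0)) (xs T3.l0 (xa T3.l0 T3.l0))) (xa (xs (xa T3.l0 T3.l0) (xa (xb T3.l0 T3.l0) (xb T3.l0 T3.l0))) (xs (xa T3.l0 T3.l0) (xa (xb T3.l0 T3.l0) (xb T3.l0 T3.l0)))))) = true := by decide +kernel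
theorem c5_34_1 : chkTag sI cl13 cl9 cl4 t1 b5_34 (tg true false false RT.r3) (I.pos (nat_lit 0) (nat_lit 0))
  (xa (xk (xb T1.l17 (xa T1.l17 T1.l17)) (xb T1.l17 T1.l17)) (xk (xa T1.l2 (xb T1.l2 T1.l2)) (xb (xa T1.l17 T1.l17) (xa T1.l17 T1.l17)))) = true := by decide +kernel
theorem c5_34_2 : chkTag sI cl13 cl9 cl4 t3 b5_34 (Tag.mk true true false RT.tl RT.r4) (I.pos (nat_lit 0) (nat_lit 134217730))
  (xR (xR T3.l4 T3.l4) (xR T3.l4 (xR T3.l4 (xa T3.l4 T3.l4)))) = true := by decide +kernel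
theorem c5_34_3 : chkTag sI cl13 cl9 cl4 t1 b5_34 (Tag.mk true false false RT.tl RT.r5) (I.pos (nat_lit 0) (nat_lit 110514882))
  (xR (xR T1.l36 (xR T1.l18 T1.l18)) (xR (xR T1.l18 T1.l18) (xR (xk T1.l18 T1.l18) (xk (xR T1.l18 T1.l18) T1.l18)))) = true := by decide +kernel
theorem c5_34_4 : chkTag sI cl13 cl9 cl4 t1 b5_34 (tg false false false RT.r3) (I.pos (nat_lit 0) (nat_lit 0))
  (xa (xk (xb T1.l19 T1.l19) (xb T1.l19 T1.l19)) (xk (xb (xa T1.l19 (xk T1.l19 T1.l19)) (xa T1.l19 (xk T1.l19 T1.l19))) (xb (xa T1.l19 (xk T1.l19 T1.l19)) (xa T1.l19 (xk T1.l19 T1.l19))))) = true := by decide +kernel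
theorem c5_34_5 : chkTag sI cl13 cl9 cl4 t3 b5_34 (tg false true false RT.r4) (I.pos (nat_lit 0) (nat_lit 0))
  (xk (xa T3.l20 T3.l20) (xa T3.l20 T3.l20)) = true := by decide +kernel
theorem c5_34_6 : chkTag sI cl13 cl9 cl4 t1 b5_34 (Tag.mk false false false RT.tl RT.r5) (I.mix (nat_lit 8088324) (nat_lit 110514882))
  (xR (xR T1.l20 T1.l20) (xR (xR T1.l20 T1.l20) (xR T1.l20 (xk (xR T1.l20 T1.l20) T1.l20)))) = true := by decide +kernel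
theorem c5_34_7 : chkTag sI cl13 cl9 cl4 t3 b5_34 (Tag.mk false true false RT.tl RT.r6) (I.mix (nat_lit 8088324) (nat_lit 89478486))
  (xR T3.l13 (xR T3.l21 (xR T3.l21 T3.l21))) = true := by decide +kernel
theorem bx5_34 : BoxOK sI cl13 cl9 cl4 t3 t1 b5_34 :=
  box_mk' [(tg true true false RT.r2), (tg true false false RT.r3), (Tag.mk true true false RT.tl RT.r4), (Tag.mk true false false RT.tl RT.r5), (tg false false false RT.r3), (tg false true false RT.r4), (Tag.mk false false false RT.tl RT.r5), (Tag.mk false true false RT.tl RT.r6)] rfl (allL_c (ex_mk c5_34_0) (allL_c (ex_mk c5_34_1) (allL_c (ex_mk c5_34_2) (allL_c (ex_mk c5_34_3) (allL_c (ex_mk c5_34_4) (allL_c (ex_mk c5_34_5) (allL_c (ex_mk c5_34_6) (allL_c (ex_mk c5_34_7) allL_n))))))))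
theorem bx5_35 : BoxOK sI cl13 cl9 cl4 t3 t1 b5_35 :=
  box_mk (TrL.c (I.pos (nat_lit 0) (nat_lit 0)) (xa T3.l34 (xa T3.l45 T3.l45))
  (TrL.c (I.pos (nat_lit 0) (nat_lit 0)) (xk T1.l33 T1.l33)
  (TrL.c (I.pos (nat_lit 0) (nat_lit 134217730)) (xR T3.l4 T3.l35)
  (TrL.c (I.pos (nat_lit 0) (nat_lit 110514882)) (xR T1.l7 (xR T1.l18 T1.l34))
  (TrL.c (I.pos (nat_lit 0) (nat_lit 0)) T1.l45
  (TrL.c (I.pos (nat_lit 0) (nat_lit 0)) T3.l54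
  (TrL.c (I.mix (nat_lit 8088324) (nat_lit 110514882)) (xR T1.l20 (xR T1.l5 T1.l24))
  (TrL.c (I.mix (nat_lit 8088324) (nat_lit 89478486)) T3.l13
  TrL.n)))))))) (by decide +kernel)
theorem bx5_36 : BoxOK sI cl13 cl9 cl4 t3 t1 b5_36 :=
  box_mk (TrL.c (I.pos (nat_lit 0) (nat_lit 0)) (xa T3.l46 T3.l46)
  (TrL.c (I.pos (nat_lit 0) (nat_lit 0)) T1.l46
  (TrL.c (I.pos (nat_lit 0) (nat_lit 134217730)) (xR T3.l4 (xR T3.l4 T3.l35))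
  (TrL.c (I.pos (nat_lit 0) (nat_lit 110514882)) (xR T1.l7 (xR T1.l18 T1.l34))
  (TrL.c (I.pos (nat_lit 0) (nat_lit 0)) T1.l48
  (TrL.c (I.pos (nat_lit 0) (nat_lit 0)) T3.l48
  (TrL.c (I.mix (nat_lit 8088324) (nat_lit 110514882)) (xR T1.l20 (xR T1.l5 T1.l24))
  (TrL.c (I.mix (nat_lit 8088324) (nat_lit 89478486)) T3.l13
  TrL.n)))))))) (by decide +kernel)
theorem bx5_37 : BoxOK sI cl13 cl9 cl4 t3 t1 b5_37 :=
  box_mk (TrL.c (I.pos (nat_lit 0) (nat_lit 0)) T3.l34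
  (TrL.c (I.pos (nat_lit 0) (nat_lit 0)) (xa T1.l55 T1.l55)
  (TrL.c (I.pos (nat_lit 0) (nat_lit 134217730)) (xR T3.l4 T3.l35)
  (TrL.c (I.pos (nat_lit 0) (nat_lit 110514882)) (xR T1.l7 T1.l34)
  (TrL.c (I.pos (nat_lit 0) (nat_lit 0)) T1.l57
  (TrL.c (I.pos (nat_lit 0) (nat_lit 0)) T3.l53
  (TrL.c (I.mix (nat_lit 8088324) (nat_lit 110514882)) (xR T1.l36 (xR T1.l24 T1.l58))
  (TrL.c (I.mix (nat_lit 8088324) (nat_lit 89478486)) T3.l13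
  TrL.n)))))))) (by decide +kernel)
theorem bx5_38 : BoxOK sI cl13 cl9 cl4 t3 t1 b5_38 :=
  box_mk (TrL.c (I.pos (nat_lit 0) (nat_lit 0)) (xa T3.l0 T3.l0)
  (TrL.c (I.pos (nat_lit 0) (nat_lit 0)) (xk T1.l2 T1.l17)
  (TrL.c (I.pos (nat_lit 0) (nat_lit 134217730)) (xR (xR T3.l4 T3.l4) (xR T3.l19 T3.l19))
  (TrL.c (I.pos (nat_lit 0) (nat_lit 110514882)) (xR (xR T1.l36 T1.l28) (xR (xR T1.l18 T1.l18) (xR T1.l18 T1.l18)))
  (TrL.c (I.pos (nat_lit 0) (nat_lit 0)) (xk (xa T1.l19 T1.l19) (xa T1.l19 T1.l19))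
  (TrL.c (I.pos (nat_lit 0) (nat_lit 0)) T3.l20
  (TrL.c (I.mix (nat_lit 8088324) (nat_lit 110514882)) (xR (xR T1.l20 T1.l20) (xR T1.l20 (xR T1.l20 (xR T1.l20 T1.l20))))
  (TrL.c (I.mix (nat_lit 8088324) (nat_lit 89478486)) (xR T3.l13 (xR T3.l21 T3.l2))
  TrL.n)))))))) (by decide +kernel)
theorem bx5_39 : BoxOK sI cl13 cl9 cl4 t3 t1 b5_39 :=
  box_mk (TrL.c (I.pos (nat_lit 0) (nat_lit 0)) T3.l46
  (TrL.c (I.pos (nat_lit 0) (nat_lit 0)) T1.l46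
  (TrL.c (I.pos (nat_lit 0) (nat_lit 134217730)) (xR T3.l4 (xR T3.l4 T3.l35))
  (TrL.c (I.pos (nat_lit 0) (nat_lit 110514882)) (xR T1.l36 (xR T1.l18 T1.l34))
  (TrL.c (I.pos (nat_lit 0) (nat_lit 0)) T1.l48
  (TrL.c (I.pos (nat_lit 0) (nat_lit 0)) T3.l48
  (TrL.c (I.mix (nat_lit 8088324) (nat_lit 110514882)) (xR T1.l20 (xR T1.l5 T1.l24))
  (TrL.c (I.mix (nat_lit 8088324) (nat_lit 89478486)) T3.l13
  TrL.n)))))))) (by decide +kernel)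
theorem bx5_40 : BoxOK sI cl13 cl9 cl4 t3 t1 b5_40 :=
  box_mk (TrL.c (I.pos (nat_lit 0) (nat_lit 0)) (xa (xa (xb T3.l0 (xa T3.l0 T3.l0)) (xb T3.l0 (xs T3.l0 (xa T3.l0 T3.l0)))) (xa (xb T3.l0 (xs T3.l0 T3.l0)) (xb (xa T3.l0 T3.l0) (xs T3.l0 (xa T3.l0 T3.l0)))))
  (TrL.c (I.pos (nat_lit 0) (nat_lit 0)) (xa (xk (xa T1.l17 T1.l17) (xa T1.l17 T1.l17)) (xk (xa T1.l2 (xb T1.l2 T1.l2)) (xa T1.l17 T1.l17)))
  (TrL.c (I.pos (nat_lit 0) (nat_lit 134217730)) (xR (xR T3.l4 T3.l4) (xR T3.l19 (xR T3.l4 T3.l4)))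
  (TrL.c (I.pos (nat_lit 0) (nat_lit 110514882)) (xR (xR T1.l36 (xR T1.l18 T1.l18)) (xR (xR T1.l18 T1.l18) (xR (xk T1.l18 T1.l18) (xR T1.l18 T1.l18))))
  (TrL.c (I.pos (nat_lit 0) (nat_lit 0)) (xa (xk T1.l19 T1.l19) (xk (xb (xa T1.l19 T1.l19) (xa T1.l19 (xk T1.l19 T1.l19))) (xb (xa T1.l19 T1.l19) (xa T1.l19 T1.l19))))
  (TrL.c (I.pos (nat_lit 0) (nat_lit 0)) (xk (xa T3.l20 T3.l20) T3.l20)
  (TrL.c (I.mix (nat_lit 8088324) (nat_lit 110514882)) (xR (xR T1.l20 T1.l20) (xR (xR T1.l20 T1.l20) (xR T1.l20 (xk (xR T1.l20 T1.l20) T1.l20))))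
  (TrL.c (I.mix (nat_lit 8088324) (nat_lit 89478486)) (xR T3.l13 (xR T3.l21 (xR T3.l21 T3.l21)))
  TrL.n)))))))) (by decide +kernel)
theorem bx5_41 : BoxOK sI cl13 cl9 cl4 t3 t1 b5_41 :=
  box_mk (TrL.c (I.pos (nat_lit 0) (nat_lit 0)) (xa T3.l45 T3.l45)
  (TrL.c (I.pos (nat_lit 0) (nat_lit 0)) T1.l53
  (TrL.c (I.pos (nat_lit 0) (nat_lit 134217730)) (xR T3.l4 T3.l35)
  (TrL.c (I.pos (nat_lit 0) (nat_lit 110514882)) (xR T1.l7 T1.l34)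
  (TrL.c (I.pos (nat_lit 0) (nat_lit 0)) T1.l45
  (TrL.c (I.pos (nat_lit 0) (nat_lit 0)) T3.l54
  (TrL.c (I.mix (nat_lit 8088324) (nat_lit 110514882)) (xR T1.l20 T1.l24)
  (TrL.c (I.mix (nat_lit 8088324) (nat_lit 89478486)) T3.l13
  TrL.n)))))))) (by decide +kernel)
theorem bx5_42 : BoxOK sI cl13 cl9 cl4 t3 t1 b5_42 :=
  box_mk (TrL.c (I.pos (nat_lit 0) (nat_lit 0)) (xa T3.l46 T3.l46)
  (TrL.c (I.pos (nat_lit 0) (nat_lit 0)) T1.l46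
  (TrL.c (I.pos (nat_lit 0) (nat_lit 134217730)) (xR T3.l4 T3.l35)
  (TrL.c (I.pos (nat_lit 0) (nat_lit 110514882)) (xR T1.l7 (xR T1.l18 T1.l34))
  (TrL.c (I.pos (nat_lit 0) (nat_lit 0)) T1.l48
  (TrL.c (I.pos (nat_lit 0) (nat_lit 0)) T3.l48
  (TrL.c (I.mix (nat_lit 8088324) (nat_lit 110514882)) (xR T1.l20 (xR T1.l5 T1.l24))
  (TrL.c (I.mix (nat_lit 8088324) (nat_lit 89478486)) T3.l13
  TrL.n)))))))) (by decide +kernel)
theorem bx5_43 : BoxOK sI cl13 cl9 cl4 t3 t1 b5_43 :=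
  box_mk (TrL.c (I.pos (nat_lit 0) (nat_lit 0)) T3.l34
  (TrL.c (I.pos (nat_lit 0) (nat_lit 0)) (xa T1.l55 T1.l55)
  (TrL.c (I.pos (nat_lit 0) (nat_lit 134217730)) (xR T3.l4 T3.l35)
  (TrL.c (I.pos (nat_lit 0) (nat_lit 110514882)) (xR T1.l7 T1.l34)
  (TrL.c (I.pos (nat_lit 0) (nat_lit 0)) T1.l57
  (TrL.c (I.pos (nat_lit 0) (nat_lit 0)) T3.l53
  (TrL.c (I.mix (nat_lit 8088324) (nat_lit 110514882)) (xR T1.l36 (xR T1.l24 T1.l58))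
  (TrL.c (I.mix (nat_lit 8088324) (nat_lit 89478486)) T3.l15
  TrL.n)))))))) (by decide +kernel)
theorem bx5_44 : BoxOK sI cl13 cl9 cl4 t3 t1 b5_44 :=
  box_mk (TrL.c (I.pos (nat_lit 0) (nat_lit 0)) (xa (xb T3.l0 T3.l0) (xb T3.l0 T3.l0))
  (TrL.c (I.pos (nat_lit 0) (nat_lit 0)) (xk (xa T1.l17 T1.l17) T1.l17)
  (TrL.c (I.pos (nat_lit 0) (nat_lit 134217730)) (xR (xR T3.l4 T3.l4) (xR T3.l19 (xR T3.l19 T3.l4)))
  (TrL.c (I.pos (nat_lit 0) (nat_lit 110514882)) (xR (xR T1.l7 T1.l18) (xR (xR T1.l18 T1.l18) (xR T1.l18 T1.l18)))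
  (TrL.c (I.pos (nat_lit 0) (nat_lit 0)) (xk T1.l19 T1.l19)
  (TrL.c (I.pos (nat_lit 0) (nat_lit 0)) T3.l20
  (TrL.c (I.mix (nat_lit 8088324) (nat_lit 110514882)) (xR T1.l20 (xR T1.l20 (xR T1.l20 T1.l20)))
  (TrL.c (I.mix (nat_lit 8088324) (nat_lit 89478486)) (xR T3.l13 (xR T3.l21 T3.l21))
  TrL.n)))))))) (by decide +kernel)
theorem bx5_45 : BoxOK sI cl13 cl9 cl4 t3 t1 b5_45 :=
  box_mk (TrL.c (I.pos (nat_lit 0) (nat_lit 0)) T3.l45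
  (TrL.c (I.pos (nat_lit 0) (nat_lit 0)) T1.l33
  (TrL.c (I.pos (nat_lit 0) (nat_lit 134217730)) (xR T3.l4 T3.l35)
  (TrL.c (I.pos (nat_lit 0) (nat_lit 110514882)) (xR T1.l7 T1.l34)
  (TrL.c (I.pos (nat_lit 0) (nat_lit 0)) T1.l45
  (TrL.c (I.pos (nat_lit 0) (nat_lit 0)) T3.l54
  (TrL.c (I.mix (nat_lit 8088324) (nat_lit 110514882)) (xR T1.l20 T1.l24)
  (TrL.c (I.mix (nat_lit 8088324) (nat_lit 89478486)) T3.l13
  TrL.n)))))))) (by decide +kernel)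
theorem bx5_46 : BoxOK sI cl13 cl9 cl4 t3 t1 b5_46 :=
  box_mk (TrL.c (I.pos (nat_lit 0) (nat_lit 0)) (xa T3.l46 T3.l46)
  (TrL.c (I.pos (nat_lit 0) (nat_lit 0)) T1.l46
  (TrL.c (I.pos (nat_lit 0) (nat_lit 134217730)) (xR T3.l4 (xR T3.l4 (xR T3.l4 T3.l47)))
  (TrL.c (I.pos (nat_lit 0) (nat_lit 110514882)) (xR T1.l36 (xR T1.l18 (xR T1.l3 T1.l47)))
  (TrL.c (I.pos (nat_lit 0) (nat_lit 0)) T1.l48
  (TrL.c (I.pos (nat_lit 0) (nat_lit 0)) T3.l48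
  (TrL.c (I.mix (nat_lit 8088324) (nat_lit 110514882)) (xR T1.l20 (xR T1.l5 T1.l24))
  (TrL.c (I.mix (nat_lit 8088324) (nat_lit 89478486)) T3.l13
  TrL.n)))))))) (by decide +kernel)
theorem bx5_47 : BoxOK sI cl13 cl9 cl4 t3 t1 b5_47 :=
  box_mk (TrL.c (I.pos (nat_lit 0) (nat_lit 0)) (xa T3.l0 (xb T3.l0 T3.l0))
  (TrL.c (I.pos (nat_lit 0) (nat_lit 0)) (xk (xa T1.l2 T1.l2) (xb T1.l17 T1.l17))
  (TrL.c (I.pos (nat_lit 0) (nat_lit 134217730)) (xR (xR T3.l4 T3.l4) (xR T3.l19 T3.l31))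
  (TrL.c (I.pos (nat_lit 0) (nat_lit 110514882)) (xR (xR T1.l36 T1.l36) (xR (xR T1.l18 T1.l18) (xR T1.l18 T1.l18)))
  (TrL.c (I.pos (nat_lit 0) (nat_lit 0)) (xk (xb (xa T1.l19 T1.l19) T1.l19) (xb (xa T1.l19 T1.l19) T1.l19))
  (TrL.c (I.pos (nat_lit 0) (nat_lit 0)) (xk T3.l20 T3.l20)
  (TrL.c (I.mix (nat_lit 8088324) (nat_lit 110514882)) (xR (xR T1.l20 T1.l20) (xR T1.l20 (xR T1.l20 (xR T1.l20 T1.l20))))
  (TrL.c (I.mix (nat_lit 8088324) (nat_lit 89478486)) (xR T3.l13 (xR T3.l21 T3.l2))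
  TrL.n)))))))) (by decide +kernel)
theorem bx5_48 : BoxOK sI cl13 cl9 cl4 t3 t1 b5_48 :=
  box_mk (TrL.c (I.pos (nat_lit 0) (nat_lit 0)) (xa T3.l45 T3.l45)
  (TrL.c (I.pos (nat_lit 0) (nat_lit 0)) T1.l53
  (TrL.c (I.pos (nat_lit 0) (nat_lit 134217730)) (xR T3.l4 T3.l35)
  (TrL.c (I.pos (nat_lit 0) (nat_lit 110514882)) (xR T1.l7 T1.l34)
  (TrL.c (I.pos (nat_lit 0) (nat_lit 0)) T1.l45
  (TrL.c (I.pos (nat_lit 0) (nat_lit 0)) T3.l54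
  (TrL.c (I.mix (nat_lit 8088324) (nat_lit 110514882)) (xR T1.l20 T1.l24)
  (TrL.c (I.mix (nat_lit 8088324) (nat_lit 89478486)) T3.l13
  TrL.n)))))))) (by decide +kernel)
theorem bx5_49 : BoxOK sI cl13 cl9 cl4 t3 t1 b5_49 :=
  box_mk (TrL.c (I.pos (nat_lit 0) (nat_lit 0)) (xa T3.l46 T3.l46)
  (TrL.c (I.pos (nat_lit 0) (nat_lit 0)) T1.l46
  (TrL.c (I.pos (nat_lit 0) (nat_lit 134217730)) (xR T3.l4 T3.l35)
  (TrL.c (I.pos (nat_lit 0) (nat_lit 110514882)) (xR T1.l7 (xR T1.l18 T1.l34))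
  (TrL.c (I.pos (nat_lit 0) (nat_lit 0)) T1.l48
  (TrL.c (I.pos (nat_lit 0) (nat_lit 0)) T3.l48
  (TrL.c (I.mix (nat_lit 8088324) (nat_lit 110514882)) (xR T1.l20 (xR T1.l5 T1.l24))
  (TrL.c (I.mix (nat_lit 8088324) (nat_lit 89478486)) T3.l13
  TrL.n)))))))) (by decide +kernel)
theorem bx5_50 : BoxOK sI cl13 cl9 cl4 t3 t1 b5_50 :=
  box_mk (TrL.c (I.pos (nat_lit 0) (nat_lit 0)) (xa T3.l26 T3.l34)
  (TrL.c (I.pos (nat_lit 0) (nat_lit 0)) (xa T1.l55 T1.l55)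
  (TrL.c (I.pos (nat_lit 0) (nat_lit 134217730)) (xR T3.l4 T3.l35)
  (TrL.c (I.pos (nat_lit 0) (nat_lit 110514882)) (xR T1.l7 T1.l34)
  (TrL.c (I.pos (nat_lit 0) (nat_lit 0)) T1.l57
  (TrL.c (I.pos (nat_lit 0) (nat_lit 0)) T3.l53
  (TrL.c (I.mix (nat_lit 8088324) (nat_lit 110514882)) (xR T1.l36 (xR T1.l24 T1.l36))
  (TrL.c (I.mix (nat_lit 8088324) (nat_lit 89478486)) T3.l15
  TrL.n)))))))) (by decide +kernel)
theorem bx5_51 : BoxOK sI cl13 cl9 cl4 t3 t1 b5_51 :=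
  box_mk (TrL.c (I.pos (nat_lit 0) (nat_lit 0)) (xa T3.l45 T3.l45)
  (TrL.c (I.pos (nat_lit 0) (nat_lit 0)) T1.l53
  (TrL.c (I.pos (nat_lit 0) (nat_lit 134217730)) (xR T3.l4 T3.l35)
  (TrL.c (I.pos (nat_lit 0) (nat_lit 110514882)) (xR T1.l7 T1.l34)
  (TrL.c (I.pos (nat_lit 0) (nat_lit 0)) T1.l45
  (TrL.c (I.pos (nat_lit 0) (nat_lit 0)) T3.l54
  (TrL.c (I.mix (nat_lit 8088324) (nat_lit 110514882)) (xR T1.l20 T1.l24)
  (TrL.c (I.mix (nat_lit 8088324) (nat_lit 89478486)) T3.l13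
  TrL.n)))))))) (by decide +kernel)
theorem bx5_52 : BoxOK sI cl13 cl9 cl4 t3 t1 b5_52 :=
  box_mk (TrL.c (I.pos (nat_lit 0) (nat_lit 0)) (xa T3.l46 T3.l46)
  (TrL.c (I.pos (nat_lit 0) (nat_lit 0)) T1.l46
  (TrL.c (I.pos (nat_lit 0) (nat_lit 134217730)) (xR T3.l4 T3.l35)
  (TrL.c (I.pos (nat_lit 0) (nat_lit 110514882)) (xR T1.l7 (xR T1.l18 T1.l34))
  (TrL.c (I.pos (nat_lit 0) (nat_lit 0)) T1.l48
  (TrL.c (I.pos (nat_lit 0) (nat_lit 0)) T3.l48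
  (TrL.c (I.mix (nat_lit 8088324) (nat_lit 110514882)) (xR T1.l20 (xR T1.l5 T1.l24))
  (TrL.c (I.mix (nat_lit 8088324) (nat_lit 89478486)) T3.l13
  TrL.n)))))))) (by decide +kernel)
theorem bx5_53 : BoxOK sI cl13 cl9 cl4 t3 t1 b5_53 :=
  box_mk (TrL.c (I.pos (nat_lit 0) (nat_lit 0)) (xa T3.l26 T3.l34)
  (TrL.c (I.pos (nat_lit 0) (nat_lit 0)) (xa T1.l55 T1.l55)
  (TrL.c (I.pos (nat_lit 0) (nat_lit 134217730)) (xR T3.l4 T3.l35)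
  (TrL.c (I.pos (nat_lit 0) (nat_lit 110514882)) (xR T1.l7 T1.l34)
  (TrL.c (I.pos (nat_lit 0) (nat_lit 0)) (xa T1.l57 T1.l57)
  (TrL.c (I.pos (nat_lit 0) (nat_lit 0)) T3.l53
  (TrL.c (I.mix (nat_lit 8088324) (nat_lit 110514882)) (xR T1.l36 (xR T1.l24 T1.l36))
  (TrL.c (I.mix (nat_lit 8088324) (nat_lit 89478486)) T3.l13
  TrL.n)))))))) (by decide +kernel)
theorem bx5_54 : BoxOK sI cl13 cl9 cl4 t3 t1 b5_54 :=
  box_mk (TrL.c (I.pos (nat_lit 0) (nat_lit 0)) T3.l26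
  (TrL.c (I.pos (nat_lit 0) (nat_lit 0)) T1.l55
  (TrL.c (I.pos (nat_lit 0) (nat_lit 134217730)) (xR T3.l4 T3.l27)
  (TrL.c (I.pos (nat_lit 0) (nat_lit 110514882)) T1.l36
  (TrL.c (I.pos (nat_lit 0) (nat_lit 0)) T1.l57
  (TrL.c (I.pos (nat_lit 0) (nat_lit 0)) T3.l53
  (TrL.c (I.mix (nat_lit 8088324) (nat_lit 110514882)) (xR T1.l7 T1.l24)
  (TrL.c (I.mix (nat_lit 8088324) (nat_lit 89478486)) T3.l4
  TrL.n)))))))) (by decide +kernel)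
theorem sv5 : StarV sI cl13 cl9 cl4 t3 t1 t5 :=
  (bt_n (bt_n (bt_n (bt_n (bt_n (bt_b bx5_0) (bt_n (bt_b bx5_1) (bt_b bx5_2))) (bt_n (bt_b bx5_3) (bt_n (bt_b bx5_4) (bt_b bx5_5)))) (bt_n (bt_n (bt_b bx5_6) (bt_n (bt_b bx5_7) (bt_b bx5_8))) (bt_n (bt_n (bt_b bx5_9) (bt_b bx5_10)) (bt_n (bt_b bx5_11) (bt_b bx5_12))))) (bt_n (bt_n (bt_n (bt_b bx5_13) (bt_n (bt_b bx5_14) (bt_b bx5_15))) (bt_n (bt_n (bt_b bx5_16) (bt_b bx5_17)) (bt_n (bt_b bx5_18) (bt_b bx5_19)))) (bt_n (bt_n (bt_b bx5_20) (bt_n (bt_b bx5_21) (bt_b bx5_22))) (bt_n (bt_n (bt_b bx5_23) (bt_b bx5_24)) (bt_n (bt_b bx5_25) (bt_b bx5_26)))))) (bt_n (bt_n (bt_n (bt_n (bt_b bx5_27) (bt_n (bt_b bx5_28) (bt_b bx5_29))) (bt_n (bt_n (bt_b bx5_30) (bt_b bx5_31)) (bt_n (bt_b bx5_32) (bt_b bx5_33)))) (bt_n (bt_n (bt_b bx5_34) (bt_n (bt_b bx5_35) (bt_b bx5_36))) (bt_n (bt_n (bt_b bx5_37) (bt_b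 bx5_38)) (bt_n (bt_b bx5_39) (bt_b bx5_40))))) (bt_n (bt_n (bt_n (bt_b bx5_41) (bt_n (bt_b bx5_42) (bt_b bx5_43))) (bt_n (bt_n (bt_b bx5_44) (bt_b bx5_45)) (bt_n (bt_b bx5_46) (bt_b bx5_47)))) (bt_n (bt_n (bt_b bx5_48) (bt_n (bt_b bx5_49) (bt_b bx5_50))) (bt_n (bt_n (bt_b bx5_51) (bt_b bx5_52)) (bt_n (bt_b bx5_53) (bt_b bx5_54)))))))
def S5 : StarD := StarD.mk cl13 cl9 cl4 3 1 t5
def G : List StarD := [S0, S1, S2, S3, S4, S5]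
theorem so0 : StarOK sI G S0 :=
  star_mk (by decide) (by decide) rfl rfl rfl rfl rfl rfl (rfl : _ = t2) (rfl : _ = t4)
  (st_mk (Pth.l (Pth.l (Pth.l (Pth.l (Pth.l Pth.z))))) (nat_lit 119008847) (nat_lit 138894868) (by decide +kernel))
  (st_mk (Pth.l (Pth.l (Pth.l (Pth.l (Pth.l Pth.z))))) (nat_lit 154885454) (nat_lit 179411363) (by decide +kernel))
  (st_mk (Pth.l (Pth.l (Pth.l (Pth.l (Pth.l Pth.z))))) (nat_lit 199536474) (nat_lit 225314432) (by decide +kernel)) sv0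
theorem so1 : StarOK sI G S1 :=
  star_mk (by decide) (by decide) rfl rfl rfl rfl rfl rfl (rfl : _ = t4) (rfl : _ = t2)
  (st_mk (Pth.l (Pth.l (Pth.l (Pth.l (Pth.l Pth.z))))) (nat_lit 98766997) (nat_lit 118456867) (by decide +kernel))
  (st_mk (Pth.l (Pth.l (Pth.l (Pth.l (Pth.l Pth.z))))) (nat_lit 136293209) (nat_lit 156840342) (by decide +kernel))
  (st_mk (Pth.l (Pth.l (Pth.l (Pth.l (Pth.l Pth.z))))) (nat_lit 178874212) (nat_lit 204410490) (by decide +kernel)) sv1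
theorem so2 : StarOK sI G S2 :=
  star_mk (by decide) (by decide) rfl rfl rfl rfl rfl rfl (rfl : _ = t0) (rfl : _ = t5)
  (st_mk (Pth.l (Pth.l (Pth.l (Pth.l (Pth.l Pth.z))))) (nat_lit 366910347) (nat_lit 371482428) (by decide +kernel))
  (st_mk (Pth.l (Pth.l (Pth.l (Pth.l (Pth.l Pth.z))))) (nat_lit 402341907) (nat_lit 407521335) (by decide +kernel))
  (st_mk (Pth.l (Pth.l (Pth.l (Pth.l (Pth.l Pth.z))))) (nat_lit 443286664) (nat_lit 449241288) (by decide +kernel)) sv2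
theorem so3 : StarOK sI G S3 :=
  star_mk (by decide) (by decide) rfl rfl rfl rfl rfl rfl (rfl : _ = t5) (rfl : _ = t0)
  (st_mk (Pth.l (Pth.l (Pth.l (Pth.l (Pth.l Pth.z))))) (nat_lit 96204507) (nat_lit 114882194) (by decide +kernel))
  (st_mk (Pth.l (Pth.l (Pth.l (Pth.l (Pth.l Pth.z))))) (nat_lit 131421128) (nat_lit 150515374) (by decide +kernel))
  (st_mk (Pth.l (Pth.l (Pth.l (Pth.l (Pth.l Pth.z))))) (nat_lit 172179566) (nat_lit 191885485) (by decide +kernel)) sv3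
theorem so4 : StarOK sI G S4 :=
  star_mk (by decide) (by decide) rfl rfl rfl rfl rfl rfl (rfl : _ = t1) (rfl : _ = t3)
  (st_mk (Pth.l (Pth.l (Pth.l (Pth.l (Pth.l Pth.z))))) (nat_lit 364798899) (nat_lit 368090311) (by decide +kernel))
  (st_mk (Pth.l (Pth.l (Pth.l (Pth.l (Pth.l Pth.z))))) (nat_lit 399695508) (nat_lit 403541955) (by decide +kernel))
  (st_mk (Pth.l (Pth.l (Pth.l (Pth.l (Pth.l Pth.z))))) (nat_lit 439960827) (nat_lit 444512281) (by decide +kernel)) sv4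
theorem so5 : StarOK sI G S5 :=
  star_mk (by decide) (by decide) rfl rfl rfl rfl rfl rfl (rfl : _ = t3) (rfl : _ = t1)
  (st_mk (Pth.l (Pth.l (Pth.l (Pth.l (Pth.l Pth.z))))) (nat_lit 115089857) (nat_lit 133668708) (by decide +kernel))
  (st_mk (Pth.l (Pth.l (Pth.l (Pth.l (Pth.l Pth.z))))) (nat_lit 149986467) (nat_lit 168949284) (by decide +kernel))
  (st_mk (Pth.l (Pth.l (Pth.l (Pth.l (Pth.l Pth.z))))) (nat_lit 190251785) (nat_lit 209771201) (by decide +kernel)) sv5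
theorem ok : GroupOK (nat_lit 209321984) (nat_lit 268435456) G := grp_mk (allS_c so0 (allS_c so1 (allS_c so2 (allS_c so3 (allS_c so4 (allS_c so5 allS_n))))))
theorem cov : GCov G cl4 cl9 cl13 := cov_mk
  ⟨0, by decide, rfl, rfl, rfl⟩ ⟨1, by decide, rfl, rfl, rfl⟩ ⟨2, by decide, rfl, rfl, rfl⟩ ⟨3, by decide, rfl, rfl, rfl⟩ ⟨4, by decide, rfl, rfl, rfl⟩ ⟨5, by decide, rfl, rfl, rfl⟩
end Q156_3


end Pool.Agent.Helper6.MONO
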