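import Pool.Agent.Helper6.MONO.Cert.C53

/-!
Certificate data (generated).
-/

set_option autoImplicit false
set_option linter.all false
noncomputable section
namespace Pool.Agent.Helper6.MONO


namespace Q166_0
def sI : I := I.pos (nat_lit 0) (nat_lit 91291648)
def b0_0 : Bx := Bx.mk (St.mk (I.pos (nat_lit 154599424) (nat_lit 265666560)) (I.mix (nat_lit 23789568) (nat_lit 56410112)) (I.mix (nat_lit 99663872) (nat_lit 67207168)) (I.pos (nat_lit 86589440) (nat_lit 288243712)) (I.mix (nat_lit 73154560) (nat_lit 52805632)) (I.mix (nat_lit 66371584) (nat_lit 60604416)) (I.mix (nat_lit 110116864) (nat_lit 121946112)))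
  false (nat_lit 0)
def b0_1 : Bx := Bx.mk (St.mk (I.mix (nat_lit 11911168) (nat_lit 142426112)) (I.mix (nat_lit 8536064) (nat_lit 26591232)) (I.mix (nat_lit 23986176) (nat_lit 10649600)) (I.mix (nat_lit 5603328) (nat_lit 89194496)) (I.mix (nat_lit 19546112) (nat_lit 21938176)) (I.mix (nat_lit 19595264) (nat_lit 16859136)) (I.mix (nat_lit 17137664) (nat_lit 17465344)))
  false (nat_lit 0)
def b0_2 : Bx := Bx.mk (St.mk (I.pos (nat_lit 120012800) (nat_lit 156139520)) (I.mix (nat_lit 48431104) (nat_lit 10469376)) (I.neg (nat_lit 1376256) (nat_lit 67780608)) (I.pos (nat_lit 53821440) (nat_lit 107560960)) (I.mix (nat_lit 86360064) (nat_lit 21151744)) (I.mix (nat_lit 39387136) (nat_lit 95961088)) (I.mix (nat_lit 31801344) (nat_lit 97746944)))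
  false (nat_lit 0)
def b0_3 : Bx := Bx.mk (St.mk (I.mix (nat_lit 15187968) (nat_lit 107528192)) (I.mix (nat_lit 22921216) (nat_lit 2162688)) (I.mix (nat_lit 25837568) (nat_lit 2015232)) (I.mix (nat_lit 3850240) (nat_lit 58097664)) (I.mix (nat_lit 33275904) (nat_lit 10125312)) (I.mix (nat_lit 16318464) (nat_lit 33177600)) (I.mix (nat_lit 9486336) (nat_lit 23052288)))
  false (nat_lit 0)
def b0_4 : Bx := Bx.mk (St.mk (I.pos (nat_lit 115507200) (nat_lit 135069696)) (I.mix (nat_lit 7520256) (nat_lit 6963200)) (I.neg (nat_lit 3833856) (nat_lit 23117824)) (I.pos (nat_lit 51150848) (nat_lit 85884928)) (I.mix (nat_lit 19152896) (nat_lit 11649024)) (I.mix (nat_lit 13910016) (nat_lit 15859712)) (I.mix (nat_lit 12025856) (nat_lit 17022976)))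
  false (nat_lit 0)
def b0_5 : Bx := Bx.mk (St.mk (I.mix (nat_lit 16482304) (nat_lit 95305728)) (I.mix (nat_lit 1802240) (nat_lit 2342912)) (I.mix (nat_lit 10125312) (nat_lit 1130496)) (I.mix (nat_lit 3342336) (nat_lit 49119232)) (I.mix (nat_lit 4915200) (nat_lit 2424832)) (I.mix (nat_lit 2605056) (nat_lit 2506752)) (I.mix (nat_lit 950272) (nat_lit 1867776)))
  false (nat_lit 0)
def b0_6 : Bx := Bx.mk (St.mk (I.pos (nat_lit 117243904) (nat_lit 182288384)) (I.mix (nat_lit 52101120) (nat_lit 4030464)) (I.neg (nat_lit 13090816) (nat_lit 66338816)) (I.pos (nat_lit 67190784) (nat_lit 141295616)) (I.mix (nat_lit 71729152) (nat_lit 40976384)) (I.mix (nat_lit 41271296) (nat_lit 77152256)) (I.mix (nat_lit 36913152) (nat_lit 84066304)))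
  false (nat_lit 0)
def b0_7 : Bx := Bx.mk (St.mk (I.mix (nat_lit 12845056) (nat_lit 118652928)) (I.mix (nat_lit 26951680) (nat_lit 6733824)) (I.mix (nat_lit 27852800) (nat_lit 2015232)) (I.mix (nat_lit 4374528) (nat_lit 67387392)) (I.mix (nat_lit 31801344) (nat_lit 21282816)) (I.mix (nat_lit 18989056) (nat_lit 32669696)) (I.mix (nat_lit 10289152) (nat_lit 23986176)))
  false (nat_lit 0)
def b0_8 : Bx := Bx.mk (St.mk (I.mix (nat_lit 17498112) (nat_lit 142442496)) (I.mix (nat_lit 13877248) (nat_lit 31866880)) (I.mix (nat_lit 21528576) (nat_lit 14630912)) (I.mix (nat_lit 5488640) (nat_lit 87228416)) (I.mix (nat_lit 37994496) (nat_lit 26886144)) (I.mix (nat_lit 47398912) (nat_lit 32473088)) (I.mix (nat_lit 32391168) (nat_lit 21594112)))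
  false (nat_lit 0)
def b0_9 : Bx := Bx.mk (St.mk (I.pos (nat_lit 159531008) (nat_lit 228491264)) (I.mix (nat_lit 35700736) (nat_lit 60801024)) (I.mix (nat_lit 57999360) (nat_lit 70385664)) (I.pos (nat_lit 99090432) (nat_lit 210272256)) (I.mix (nat_lit 110919680) (nat_lit 51249152)) (I.mix (nat_lit 135643136) (nat_lit 72990720)) (I.mix (nat_lit 159268864) (nat_lit 84312064)))
  false (nat_lit 0)
def t0 : BTr := (BTr.n (BTr.n (BTr.n (BTr.b b0_0) (BTr.b b0_1)) (BTr.n (BTr.b b0_2) (BTr.n (BTr.b b0_3) (BTr.b b0_4)))) (BTr.n (BTr.n (BTr.b b0_5) (BTr.b b0_6)) (BTr.n (BTr.b b0_7) (BTr.n (BTr.b b0_8) (BTr.b b0_9)))))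
namespace T0
def l0 : Tr := Tr.L (Pth.l (Pth.l (Pth.l Pth.z)))
def l1 : Tr := Tr.L (Pth.l (Pth.l (Pth.r Pth.z)))
def l2 : Tr := Tr.L (Pth.l (Pth.r (Pth.l Pth.z)))
def l3 : Tr := Tr.L (Pth.l (Pth.r (Pth.r (Pth.l Pth.z))))
def l4 : Tr := Tr.L (Pth.l (Pth.r (Pth.r (Pth.r Pth.z))))
def l5 : Tr := Tr.L (Pth.r (Pth.l (Pth.l Pth.z)))
def l6 : Tr := Tr.L (Pth.r (Pth.l (Pth.r Pth.z)))
def l7 : Tr := Tr.L (Pth.r (Pth.r (Pth.l Pth.z)))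
def l8 : Tr := Tr.L (Pth.r (Pth.r (Pth.r (Pth.l Pth.z))))
def l9 : Tr := Tr.L (Pth.r (Pth.r (Pth.r (Pth.r Pth.z))))
end T0
def b1_0 : Bx := Bx.mk (St.mk (I.pos (nat_lit 147079168) (nat_lit 284164096)) (I.mix (nat_lit 22167552) (nat_lit 94535680)) (I.mix (nat_lit 141312000) (nat_lit 106643456)) (I.pos (nat_lit 353091584) (nat_lit 562020352)) (I.mix (nat_lit 103350272) (nat_lit 80740352)) (I.mix (nat_lit 102645760) (nat_lit 66191360)) (I.mix (nat_lit 146014208) (nat_lit 88539136)))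
  false (nat_lit 108524071)
def b1_1 : Bx := Bx.mk (St.mk (I.pos (nat_lit 29999104) (nat_lit 120979456)) (I.neg (nat_lit 5603328) (nat_lit 94175232)) (I.mix (nat_lit 77299712) (nat_lit 6914048)) (I.pos (nat_lit 264110080) (nat_lit 325337088)) (I.mix (nat_lit 82460672) (nat_lit 62177280)) (I.mix (nat_lit 54132736) (nat_lit 88850432)) (I.mix (nat_lit 52740096) (nat_lit 69632000)))
  false (nat_lit 0)
def b1_2 : Bx := Bx.mk (St.mk (I.mix (nat_lit 64176128) (nat_lit 9256960)) (I.mix (nat_lit 12926976) (nat_lit 91291648)) (I.neg (nat_lit 35569664) (nat_lit 62816256)) (I.pos (nat_lit 263487488) (nat_lit 288768000)) (I.mix (nat_lit 40452096) (nat_lit 79364096)) (I.mix (nat_lit 84099072) (nat_lit 49102848)) (I.mix (nat_lit 27770880) (nat_lit 24035328)))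
  true (nat_lit 0)
def b1_3 : Bx := Bx.mk (St.mk (I.pos (nat_lit 100122624) (nat_lit 192380928)) (I.mix (nat_lit 38633472) (nat_lit 98598912)) (I.mix (nat_lit 30916608) (nat_lit 111050752)) (I.pos (nat_lit 301940736) (nat_lit 413745152)) (I.mix (nat_lit 117784576) (nat_lit 59899904)) (I.mix (nat_lit 137183232) (nat_lit 75890688)) (I.mix (nat_lit 135217152) (nat_lit 92815360)))
  false (nat_lit 88792491)
def b1_4 : Bx := Bx.mk (St.mk (I.mix (nat_lit 9256960) (nat_lit 64176128)) (I.mix (nat_lit 91291648) (nat_lit 12926976)) (I.neg (nat_lit 35569664) (nat_lit 62816256)) (I.pos (nat_lit 263487488) (nat_lit 288768000)) (I.mix (nat_lit 79364096) (nat_lit 40452096)) (I.mix (nat_lit 49102848) (nat_lit 84099072)) (I.mix (nat_lit 27770880) (nat_lit 24035328)))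
  false (nat_lit 0)
def b1_5 : Bx := Bx.mk (St.mk (I.neg (nat_lit 29999104) (nat_lit 120979456)) (I.pos (nat_lit 5603328) (nat_lit 94175232)) (I.mix (nat_lit 77316096) (nat_lit 6914048)) (I.pos (nat_lit 264093696) (nat_lit 325419008)) (I.mix (nat_lit 62177280) (nat_lit 82477056)) (I.mix (nat_lit 88801280) (nat_lit 54132736)) (I.mix (nat_lit 52756480) (nat_lit 69697536)))
  true (nat_lit 0)
def t1 : BTr := (BTr.n (BTr.n (BTr.b b1_0) (BTr.n (BTr.b b1_1) (BTr.b b1_2))) (BTr.n (BTr.b b1_3) (BTr.n (BTr.b b1_4) (BTr.b b1_5))))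
namespace T1
def l0 : Tr := Tr.L (Pth.l (Pth.l Pth.z))
def l1 : Tr := Tr.L (Pth.l (Pth.r (Pth.l Pth.z)))
def l2 : Tr := Tr.L (Pth.l (Pth.r (Pth.r Pth.z)))
def l3 : Tr := Tr.L (Pth.r (Pth.l Pth.z))
def l4 : Tr := Tr.L (Pth.r (Pth.r (Pth.l Pth.z)))
def l5 : Tr := Tr.L (Pth.r (Pth.r (Pth.r Pth.z)))
end T1
def b2_0 : Bx := Bx.mk (St.mk (I.pos (nat_lit 153714688) (nat_lit 281214976)) (I.mix (nat_lit 14729216) (nat_lit 45072384)) (I.mix (nat_lit 6422528) (nat_lit 116113408)) (I.pos (nat_lit 83869696) (nat_lit 307314688)) (I.mix (nat_lit 78807040) (nat_lit 59621376)) (I.mix (nat_lit 97959936) (nat_lit 63176704)) (I.mix (nat_lit 153059328) (nat_lit 83591168)))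
  false (nat_lit 25293735)
def b2_1 : Bx := Bx.mk (St.mk (I.pos (nat_lit 130809856) (nat_lit 184877056)) (I.neg (nat_lit 4407296) (nat_lit 59654144)) (I.mix (nat_lit 42303488) (nat_lit 26083328)) (I.pos (nat_lit 80822272) (nat_lit 133627904)) (I.mix (nat_lit 60342272) (nat_lit 36487168)) (I.mix (nat_lit 33112064) (nat_lit 48381952)) (I.mix (nat_lit 33357824) (nat_lit 49348608)))
  false (nat_lit 0)
def b2_2 : Bx := Bx.mk (St.mk (I.mix (nat_lit 10960896) (nat_lit 118177792)) (I.mix (nat_lit 26460160) (nat_lit 2244608)) (I.mix (nat_lit 9093120) (nat_lit 12861440)) (I.mix (nat_lit 4259840) (nat_lit 65372160)) (I.mix (nat_lit 18038784) (nat_lit 19415040)) (I.mix (nat_lit 14057472) (nat_lit 18726912)) (I.mix (nat_lit 8536064) (nat_lit 13516800)))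
  false (nat_lit 0)
def b2_3 : Bx := Bx.mk (St.mk (I.pos (nat_lit 167362560) (nat_lit 215973888)) (I.mix (nat_lit 40009728) (nat_lit 54607872)) (I.mix (nat_lit 16220160) (nat_lit 120963072)) (I.pos (nat_lit 108249088) (nat_lit 183173120)) (I.mix (nat_lit 123748352) (nat_lit 47792128)) (I.mix (nat_lit 148766720) (nat_lit 62668800)) (I.mix (nat_lit 205602816) (nat_lit 64634880)))
  false (nat_lit 27994447)
def b2_4 : Bx := Bx.mk (St.mk (I.mix (nat_lit 17170432) (nat_lit 135839744)) (I.mix (nat_lit 14663680) (nat_lit 31277056)) (I.mix (nat_lit 2703360) (nat_lit 40157184)) (I.mix (nat_lit 5144576) (nat_lit 81002496)) (I.mix (nat_lit 52150272) (nat_lit 19447808)) (I.mix (nat_lit 54804480) (nat_lit 28114944)) (I.mix (nat_lit 45432832) (nat_lit 17301504)))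
  false (nat_lit 0)
def b2_5 : Bx := Bx.mk (St.mk (I.pos (nat_lit 157941760) (nat_lit 184041472)) (I.neg (nat_lit 3244032) (nat_lit 35012608)) (I.mix (nat_lit 8339456) (nat_lit 28688384)) (I.pos (nat_lit 96894976) (nat_lit 140935168)) (I.mix (nat_lit 33456128) (nat_lit 25919488)) (I.mix (nat_lit 24772608) (nat_lit 30900224)) (I.mix (nat_lit 32800768) (nat_lit 28835840)))
  false (nat_lit 0)
def b2_6 : Bx := Bx.mk (St.mk (I.mix (nat_lit 18071552) (nat_lit 119848960)) (I.mix (nat_lit 14368768) (nat_lit 3276800)) (I.mix (nat_lit 1392640) (nat_lit 14909440)) (I.mix (nat_lit 4358144) (nat_lit 67108864)) (I.mix (nat_lit 11239424) (nat_lit 7962624)) (I.mix (nat_lit 7618560) (nat_lit 8454144)) (I.mix (nat_lit 6504448) (nat_lit 4833280)))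
  false (nat_lit 0)
def b2_7 : Bx := Bx.mk (St.mk (I.pos (nat_lit 67256320) (nat_lit 139575296)) (I.mix (nat_lit 6635520) (nat_lit 24461312)) (I.pos (nat_lit 2441216) (nat_lit 36552704)) (I.pos (nat_lit 26181632) (nat_lit 89079808)) (I.mix (nat_lit 35422208) (nat_lit 25149440)) (I.mix (nat_lit 40468480) (nat_lit 22298624)) (I.mix (nat_lit 35831808) (nat_lit 16285696)))
  false (nat_lit 0)
def b2_8 : Bx := Bx.mk (St.mk (I.pos (nat_lit 119488512) (nat_lit 171622400)) (I.mix (nat_lit 61210624) (nat_lit 10190848)) (I.mix (nat_lit 37552128) (nat_lit 26083328)) (I.pos (nat_lit 53116928) (nat_lit 121159680)) (I.mix (nat_lit 73613312) (nat_lit 34504704)) (I.mix (nat_lit 47218688) (nat_lit 80723968)) (I.mix (nat_lit 38109184) (nat_lit 63995904)))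
  false (nat_lit 2391710)
def b2_9 : Bx := Bx.mk (St.mk (I.pos (nat_lit 10665984) (nat_lit 113164288)) (I.mix (nat_lit 25591808) (nat_lit 4603904)) (I.mix (nat_lit 7454720) (nat_lit 11796480)) (I.mix (nat_lit 2785280) (nat_lit 61997056)) (I.mix (nat_lit 22560768) (nat_lit 17776640)) (I.mix (nat_lit 17661952) (nat_lit 30244864)) (I.mix (nat_lit 9830400) (nat_lit 16957440)))
  false (nat_lit 0)
def t2 : BTr := (BTr.n (BTr.n (BTr.n (BTr.b b2_0) (BTr.b b2_1)) (BTr.n (BTr.b b2_2) (BTr.n (BTr.b b2_3) (BTr.b b2_4)))) (BTr.n (BTr.n (BTr.b b2_5) (BTr.b b2_6)) (BTr.n (BTr.b b2_7) (BTr.n (BTr.b b2_8) (BTr.b b2_9)))))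
namespace T2
def l0 : Tr := Tr.L (Pth.l (Pth.l (Pth.l Pth.z)))
def l1 : Tr := Tr.L (Pth.l (Pth.l (Pth.r Pth.z)))
def l2 : Tr := Tr.L (Pth.l (Pth.r (Pth.l Pth.z)))
def l3 : Tr := Tr.L (Pth.l (Pth.r (Pth.r (Pth.l Pth.z))))
def l4 : Tr := Tr.L (Pth.l (Pth.r (Pth.r (Pth.r Pth.z))))
def l5 : Tr := Tr.L (Pth.r (Pth.l (Pth.l Pth.z)))
def l6 : Tr := Tr.L (Pth.r (Pth.l (Pth.r Pth.z)))
def l7 : Tr := Tr.L (Pth.r (Pth.r (Pth.l Pth.z)))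
def l8 : Tr := Tr.L (Pth.r (Pth.r (Pth.r (Pth.l Pth.z))))
def l9 : Tr := Tr.L (Pth.r (Pth.r (Pth.r (Pth.r Pth.z))))
end T2
theorem bx0_0 : BoxOK sI cl4 cl13 cl13 t1 t1 b0_0 :=
  box_mk (TrL.c (I.pos (nat_lit 0) (nat_lit 0)) (xa (xb T1.l0 (xa (xb T1.l0 T1.l0) T1.l0)) (xa (xb T1.l0 T1.l0) (xb T1.l0 T1.l0)))
  (TrL.c (I.pos (nat_lit 0) (nat_lit 0)) (xa T1.l1 T1.l1)
  (TrL.c (I.pos (nat_lit 0) (nat_lit 0)) T1.l2
  (TrL.c (I.pos (nat_lit 0) (nat_lit 0)) (xa T1.l3 (xb (xa T1.l3 (xb (xs T1.l3 (xa T1.l3 T1.l3)) T1.l3)) (xa T1.l3 (xs T1.l3 (xb T1.l3 (xa T1.l3 T1.l3))))))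
  (TrL.c (I.pos (nat_lit 0) (nat_lit 0)) T1.l4
  (TrL.c (I.pos (nat_lit 0) (nat_lit 0)) (xa T1.l5 T1.l5)
  TrL.n)))))) (by decide +kernel)
theorem bx0_1 : BoxOK sI cl4 cl13 cl13 t1 t1 b0_1 :=
  box_mk (TrL.c (I.pos (nat_lit 0) (nat_lit 0)) T1.l0
  (TrL.c (I.pos (nat_lit 0) (nat_lit 0)) (xa T1.l1 T1.l1)
  (TrL.c (I.pos (nat_lit 0) (nat_lit 0)) T1.l2
  (TrL.c (I.pos (nat_lit 0) (nat_lit 0)) T1.l3
  (TrL.c (I.pos (nat_lit 0) (nat_lit 0)) T1.l4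
  (TrL.c (I.pos (nat_lit 0) (nat_lit 0)) (xa T1.l5 T1.l5)
  TrL.n)))))) (by decide +kernel)
theorem bx0_2 : BoxOK sI cl4 cl13 cl13 t1 t1 b0_2 :=
  box_mk (TrL.c (I.pos (nat_lit 0) (nat_lit 0)) T1.l0
  (TrL.c (I.pos (nat_lit 0) (nat_lit 0)) T1.l1
  (TrL.c (I.pos (nat_lit 0) (nat_lit 0)) T1.l2
  (TrL.c (I.pos (nat_lit 0) (nat_lit 0)) T1.l3
  (TrL.c (I.pos (nat_lit 0) (nat_lit 0)) T1.l4
  (TrL.c (I.pos (nat_lit 0) (nat_lit 0)) T1.l5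
  TrL.n)))))) (by decide +kernel)
theorem bx0_3 : BoxOK sI cl4 cl13 cl13 t1 t1 b0_3 :=
  box_mk (TrL.c (I.pos (nat_lit 0) (nat_lit 0)) (xa T1.l0 T1.l0)
  (TrL.c (I.pos (nat_lit 0) (nat_lit 0)) T1.l1
  (TrL.c (I.pos (nat_lit 0) (nat_lit 0)) T1.l2
  (TrL.c (I.pos (nat_lit 0) (nat_lit 0)) T1.l3
  (TrL.c (I.pos (nat_lit 0) (nat_lit 0)) T1.l4
  (TrL.c (I.pos (nat_lit 0) (nat_lit 0)) T1.l5
  TrL.n)))))) (by decide +kernel)
theorem bx0_4 : BoxOK sI cl4 cl13 cl13 t1 t1 b0_4 :=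
  box_mk (TrL.c (I.pos (nat_lit 0) (nat_lit 0)) T1.l0
  (TrL.c (I.pos (nat_lit 0) (nat_lit 0)) T1.l1
  (TrL.c (I.pos (nat_lit 0) (nat_lit 0)) T1.l2
  (TrL.c (I.pos (nat_lit 0) (nat_lit 0)) T1.l3
  (TrL.c (I.pos (nat_lit 0) (nat_lit 0)) T1.l4
  (TrL.c (I.pos (nat_lit 0) (nat_lit 0)) T1.l5
  TrL.n)))))) (by decide +kernel)
theorem bx0_5 : BoxOK sI cl4 cl13 cl13 t1 t1 b0_5 :=
  box_mk (TrL.c (I.pos (nat_lit 0) (nat_lit 0)) T1.l0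
  (TrL.c (I.pos (nat_lit 0) (nat_lit 0)) T1.l1
  (TrL.c (I.pos (nat_lit 0) (nat_lit 0)) T1.l2
  (TrL.c (I.pos (nat_lit 0) (nat_lit 0)) T1.l3
  (TrL.c (I.pos (nat_lit 0) (nat_lit 0)) T1.l4
  (TrL.c (I.pos (nat_lit 0) (nat_lit 0)) T1.l5
  TrL.n)))))) (by decide +kernel)
theorem bx0_6 : BoxOK sI cl4 cl13 cl13 t1 t1 b0_6 :=
  box_mk (TrL.c (I.pos (nat_lit 0) (nat_lit 0)) T1.l0
  (TrL.c (I.pos (nat_lit 0) (nat_lit 0)) T1.l1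
  (TrL.c (I.pos (nat_lit 0) (nat_lit 0)) T1.l2
  (TrL.c (I.pos (nat_lit 0) (nat_lit 0)) T1.l3
  (TrL.c (I.pos (nat_lit 0) (nat_lit 0)) T1.l4
  (TrL.c (I.pos (nat_lit 0) (nat_lit 0)) T1.l5
  TrL.n)))))) (by decide +kernel)
theorem bx0_7 : BoxOK sI cl4 cl13 cl13 t1 t1 b0_7 :=
  box_mk (TrL.c (I.pos (nat_lit 0) (nat_lit 0)) (xa (xa (xa (xb T1.l0 T1.l0) T1.l0) T1.l0) T1.l0)
  (TrL.c (I.pos (nat_lit 0) (nat_lit 0)) T1.l1
  (TrL.c (I.pos (nat_lit 0) (nat_lit 0)) T1.l2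
  (TrL.c (I.pos (nat_lit 0) (nat_lit 0)) (xa T1.l3 T1.l3)
  (TrL.c (I.pos (nat_lit 0) (nat_lit 0)) T1.l4
  (TrL.c (I.pos (nat_lit 0) (nat_lit 0)) T1.l5
  TrL.n)))))) (by decide +kernel)
theorem bx0_8 : BoxOK sI cl4 cl13 cl13 t1 t1 b0_8 :=
  box_mk (TrL.c (I.pos (nat_lit 0) (nat_lit 0)) (xa (xa T1.l0 T1.l0) T1.l0)
  (TrL.c (I.pos (nat_lit 0) (nat_lit 0)) (xa T1.l1 T1.l1)
  (TrL.c (I.pos (nat_lit 0) (nat_lit 0)) T1.l2
  (TrL.c (I.pos (nat_lit 0) (nat_lit 0)) (xa T1.l3 T1.l3)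
  (TrL.c (I.pos (nat_lit 0) (nat_lit 0)) T1.l4
  (TrL.c (I.pos (nat_lit 0) (nat_lit 0)) (xa T1.l5 T1.l5)
  TrL.n)))))) (by decide +kernel)
theorem bx0_9 : BoxOK sI cl4 cl13 cl13 t1 t1 b0_9 :=
  box_mk (TrL.c (I.pos (nat_lit 0) (nat_lit 0)) (xb (xa (xb T1.l0 T1.l0) (xa T1.l0 T1.l0)) (xa (xa (xb T1.l0 T1.l0) T1.l0) (xa T1.l0 T1.l0)))
  (TrL.c (I.pos (nat_lit 0) (nat_lit 0)) T1.l1
  (TrL.c (I.pos (nat_lit 0) (nat_lit 0)) T1.l2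
  (TrL.c (I.pos (nat_lit 0) (nat_lit 0)) (xb (xa T1.l3 (xb T1.l3 T1.l3)) (xa T1.l3 (xa T1.l3 (xs T1.l3 (xb T1.l3 T1.l3)))))
  (TrL.c (I.pos (nat_lit 0) (nat_lit 0)) T1.l4
  (TrL.c (I.pos (nat_lit 0) (nat_lit 0)) T1.l5
  TrL.n)))))) (by decide +kernel)
theorem sv0 : StarV sI cl4 cl13 cl13 t1 t1 t0 :=
  (bt_n (bt_n (bt_n (bt_b bx0_0) (bt_b bx0_1)) (bt_n (bt_b bx0_2) (bt_n (bt_b bx0_3) (bt_b bx0_4)))) (bt_n (bt_n (bt_b bx0_5) (bt_b bx0_6)) (bt_n (bt_b bx0_7) (bt_n (bt_b bx0_8) (bt_b bx0_9)))))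
def S0 : StarD := StarD.mk cl4 cl13 cl13 1 1 t0
theorem bx1_0 : BoxOK sI cl13 cl4 cl13 t0 t2 b1_0 :=
  box_mk (TrL.c (I.pos (nat_lit 0) (nat_lit 0)) (xa (xb T0.l0 (xa T0.l0 T0.l0)) (xb T0.l0 (xa T0.l0 T0.l0)))
  (TrL.c (I.pos (nat_lit 0) (nat_lit 0)) T2.l1
  (TrL.c (I.pos (nat_lit 0) (nat_lit 134217730)) (xR T0.l1 T0.l8)
  (TrL.c (I.pos (nat_lit 0) (nat_lit 110514882)) (xR T2.l2 (xR T2.l2 T2.l2))
  (TrL.c (I.pos (nat_lit 0) (nat_lit 0)) (xa (xb (xk T2.l3 T2.l3) (xk T2.l3 T2.l3)) (xb (xk (xa (xb T2.l3 T2.l3) (xs (xk T2.l3 T2.l3) (xb T2.l3 T2.l3))) (xa (xb T2.l3 T2.l3) (xs (xb T2.l3 T2.l3) (xb T2.l3 T2.l3)))) (xa (xs (xk T2.l3 T2.l3) (xk T2.l3 (xb T2.l3 T2.l3))) (xs (xk (xk T2.l3 T2.l3) (xs T2.l3 (xk T2.l3 T2.l3))) (xk (xb T2.l3 (xs (xk T2.l3 T2.l3) (xk (xa T2.l3 T2.l3) (xa T2.l3 (xb T2.l3 T2.l3))))) (xb T2.l3 (xs (xk (xa T2.l3 T2.l3) (xa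 T2.l3 (xb T2.l3 T2.l3))) (xa (xk T2.l3 T2.l3) (xk (xs T2.l3 (xb T2.l3 T2.l3)) (xs T2.l3 (xb T2.l3 T2.l3)))))))))))
  (TrL.c (I.pos (nat_lit 0) (nat_lit 0)) T0.l2
  (TrL.c (I.mix (nat_lit 8088324) (nat_lit 110514882)) (xR T2.l4 (xR T2.l4 T2.l4))
  (TrL.c (I.mix (nat_lit 8088324) (nat_lit 89478486)) (xR T0.l3 T0.l3)
  TrL.n)))))))) (by decide +kernel)
theorem bx1_1 : BoxOK sI cl13 cl4 cl13 t0 t2 b1_1 :=
  box_mk (TrL.c (I.pos (nat_lit 0) (nat_lit 0)) (xa (xb (xa T0.l0 T0.l0) T0.l0) T0.l0)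
  (TrL.c (I.pos (nat_lit 0) (nat_lit 0)) T2.l1
  (TrL.c (I.pos (nat_lit 0) (nat_lit 134217730)) T0.l8
  (TrL.c (I.pos (nat_lit 0) (nat_lit 110514882)) (xR T2.l2 T2.l4)
  (TrL.c (I.pos (nat_lit 0) (nat_lit 0)) T2.l3
  (TrL.c (I.pos (nat_lit 0) (nat_lit 0)) T0.l2
  (TrL.c (I.mix (nat_lit 8088324) (nat_lit 110514882)) (xR T2.l4 T2.l4)
  (TrL.c (I.mix (nat_lit 8088324) (nat_lit 89478486)) T0.l1
  TrL.n)))))))) (by decide +kernel)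
theorem bx1_2 : BoxOK sI cl13 cl4 cl13 t0 t2 b1_2 :=
  box_mk (TrL.c (I.pos (nat_lit 0) (nat_lit 0)) T2.l5
  (TrL.c (I.pos (nat_lit 0) (nat_lit 0)) T0.l1
  (TrL.c (I.mix (nat_lit 8088324) (nat_lit 110514882)) T2.l4
  (TrL.c (I.mix (nat_lit 8088324) (nat_lit 89478486)) T0.l8
  TrL.n)))) (by decide +kernel)
theorem bx1_3 : BoxOK sI cl13 cl4 cl13 t0 t2 b1_3 :=
  box_mk (TrL.c (I.pos (nat_lit 0) (nat_lit 0)) (xb (xa T0.l0 T0.l0) (xa (xb T0.l0 T0.l0) T0.l0))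
  (TrL.c (I.pos (nat_lit 0) (nat_lit 0)) T2.l1
  (TrL.c (I.pos (nat_lit 0) (nat_lit 134217730)) (xR T0.l1 T0.l8)
  (TrL.c (I.pos (nat_lit 0) (nat_lit 110514882)) (xR T2.l2 (xR T2.l2 T2.l2))
  (TrL.c (I.pos (nat_lit 0) (nat_lit 0)) (xb (xa T2.l3 T2.l3) T2.l3)
  (TrL.c (I.pos (nat_lit 0) (nat_lit 0)) T0.l2
  (TrL.c (I.mix (nat_lit 8088324) (nat_lit 110514882)) (xR T2.l4 T2.l4)
  (TrL.c (I.mix (nat_lit 8088324) (nat_lit 89478486)) T0.l7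
  TrL.n)))))))) (by decide +kernel)
theorem bx1_4 : BoxOK sI cl13 cl4 cl13 t0 t2 b1_4 :=
  box_mk (TrL.c (I.pos (nat_lit 0) (nat_lit 0)) (xb (xa (xs (xa T0.l0 T0.l0) (xb T0.l0 T0.l0)) T0.l0) T0.l0)
  (TrL.c (I.pos (nat_lit 0) (nat_lit 0)) T2.l5
  (TrL.c (I.pos (nat_lit 0) (nat_lit 134217730)) (xR T0.l1 (xR T0.l1 T0.l1))
  (TrL.c (I.pos (nat_lit 0) (nat_lit 110514882)) T2.l4
  (TrL.c (I.pos (nat_lit 0) (nat_lit 0)) T2.l3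
  (TrL.c (I.pos (nat_lit 0) (nat_lit 0)) T0.l2
  (TrL.c (I.mix (nat_lit 8088324) (nat_lit 110514882)) T2.l4
  (TrL.c (I.mix (nat_lit 8088324) (nat_lit 89478486)) T0.l1
  TrL.n)))))))) (by decide +kernel)
theorem bx1_5 : BoxOK sI cl13 cl4 cl13 t0 t2 b1_5 :=
  box_mk (TrL.c (I.pos (nat_lit 0) (nat_lit 0)) T2.l1
  (TrL.c (I.pos (nat_lit 0) (nat_lit 0)) T0.l8
  (TrL.c (I.mix (nat_lit 8088324) (nat_lit 110514882)) (xR T2.l6 T2.l4)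
  (TrL.c (I.mix (nat_lit 8088324) (nat_lit 89478486)) T0.l8
  TrL.n)))) (by decide +kernel)
theorem sv1 : StarV sI cl13 cl4 cl13 t0 t2 t1 :=
  (bt_n (bt_n (bt_b bx1_0) (bt_n (bt_b bx1_1) (bt_b bx1_2))) (bt_n (bt_b bx1_3) (bt_n (bt_b bx1_4) (bt_b bx1_5))))
def S1 : StarD := StarD.mk cl13 cl4 cl13 0 2 t1
theorem bx2_0 : BoxOK sI cl13 cl13 cl4 t2 t0 b2_0 :=
  box_mk (TrL.c (I.pos (nat_lit 0) (nat_lit 0)) (xa (xa (xs T2.l0 (xb T2.l0 T2.l0)) (xs T2.l0 (xb T2.l0 T2.l0))) (xa (xs T2.l0 (xb T2.l0 T2.l0)) (xs T2.l0 (xb T2.l0 T2.l0))))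
  (TrL.c (I.pos (nat_lit 0) (nat_lit 0)) (xa T0.l6 T0.l6)
  (TrL.c (I.pos (nat_lit 0) (nat_lit 134217730)) (xR T2.l4 (xR T2.l4 T2.l4))
  (TrL.c (I.pos (nat_lit 0) (nat_lit 110514882)) (xR T0.l7 (xR T0.l7 T0.l7))
  (TrL.c (I.pos (nat_lit 0) (nat_lit 0)) (xa (xa T0.l9 T0.l9) (xa (xk T0.l9 T0.l9) (xk (xb (xa T0.l9 T0.l9) (xa T0.l9 T0.l9)) (xb (xa T0.l9 T0.l9) (xa T0.l9 T0.l9)))))
  (TrL.c (I.pos (nat_lit 0) (nat_lit 0)) T2.l8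
  (TrL.c (I.mix (nat_lit 8088324) (nat_lit 110514882)) (xR T0.l8 (xR T0.l8 T0.l8))
  (TrL.c (I.mix (nat_lit 8088324) (nat_lit 89478486)) (xR T2.l2 (xR T2.l9 T2.l9))
  TrL.n)))))))) (by decide +kernel)
theorem bx2_1 : BoxOK sI cl13 cl13 cl4 t2 t0 b2_1 :=
  box_mk (TrL.c (I.pos (nat_lit 0) (nat_lit 0)) T2.l0
  (TrL.c (I.pos (nat_lit 0) (nat_lit 0)) T0.l6
  (TrL.c (I.pos (nat_lit 0) (nat_lit 134217730)) (xR T2.l4 T2.l4)
  (TrL.c (I.pos (nat_lit 0) (nat_lit 110514882)) (xR T0.l7 T0.l7)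
  (TrL.c (I.pos (nat_lit 0) (nat_lit 0)) T0.l9
  (TrL.c (I.pos (nat_lit 0) (nat_lit 0)) T2.l8
  (TrL.c (I.mix (nat_lit 8088324) (nat_lit 110514882)) (xR T0.l8 T0.l8)
  (TrL.c (I.mix (nat_lit 8088324) (nat_lit 89478486)) T2.l2
  TrL.n)))))))) (by decide +kernel)
theorem bx2_2 : BoxOK sI cl13 cl13 cl4 t2 t0 b2_2 :=
  box_mk (TrL.c (I.pos (nat_lit 0) (nat_lit 0)) (xa (xa (xa T2.l0 T2.l0) T2.l0) T2.l0)
  (TrL.c (I.pos (nat_lit 0) (nat_lit 0)) T0.l6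
  (TrL.c (I.pos (nat_lit 0) (nat_lit 134217730)) (xR T2.l4 (xR T2.l4 T2.l7))
  (TrL.c (I.pos (nat_lit 0) (nat_lit 110514882)) T0.l7
  (TrL.c (I.pos (nat_lit 0) (nat_lit 0)) (xa T0.l9 T0.l9)
  (TrL.c (I.pos (nat_lit 0) (nat_lit 0)) T2.l8
  (TrL.c (I.mix (nat_lit 8088324) (nat_lit 110514882)) T0.l8
  (TrL.c (I.mix (nat_lit 8088324) (nat_lit 89478486)) T2.l4
  TrL.n)))))))) (by decide +kernel)
theorem bx2_3 : BoxOK sI cl13 cl13 cl4 t2 t0 b2_3 :=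
  box_mk (TrL.c (I.pos (nat_lit 0) (nat_lit 0)) (xb (xa (xs T2.l0 T2.l0) T2.l0) (xa (xs T2.l0 (xb T2.l0 T2.l0)) (xs T2.l0 T2.l0)))
  (TrL.c (I.pos (nat_lit 0) (nat_lit 0)) T0.l6
  (TrL.c (I.pos (nat_lit 0) (nat_lit 134217730)) (xR T2.l4 (xR T2.l4 T2.l7))
  (TrL.c (I.pos (nat_lit 0) (nat_lit 110514882)) (xR T0.l7 (xR T0.l7 T0.l7))
  (TrL.c (I.pos (nat_lit 0) (nat_lit 0)) (xb (xk (xa T0.l9 T0.l9) (xa T0.l9 T0.l9)) (xk T0.l9 T0.l9))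
  (TrL.c (I.pos (nat_lit 0) (nat_lit 0)) T2.l8
  (TrL.c (I.mix (nat_lit 8088324) (nat_lit 110514882)) (xR T0.l8 (xR T0.l8 T0.l8))
  (TrL.c (I.mix (nat_lit 8088324) (nat_lit 89478486)) (xR T2.l2 T2.l9)
  TrL.n)))))))) (by decide +kernel)
theorem bx2_4 : BoxOK sI cl13 cl13 cl4 t2 t0 b2_4 :=
  box_mk (TrL.c (I.pos (nat_lit 0) (nat_lit 0)) (xa (xa T2.l0 T2.l0) (xa T2.l0 T2.l0))
  (TrL.c (I.pos (nat_lit 0) (nat_lit 0)) (xa T0.l6 T0.l6)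
  (TrL.c (I.pos (nat_lit 0) (nat_lit 134217730)) (xR T2.l4 (xR T2.l4 T2.l7))
  (TrL.c (I.pos (nat_lit 0) (nat_lit 110514882)) (xR T0.l7 T0.l7)
  (TrL.c (I.pos (nat_lit 0) (nat_lit 0)) (xa T0.l9 T0.l9)
  (TrL.c (I.pos (nat_lit 0) (nat_lit 0)) T2.l8
  (TrL.c (I.mix (nat_lit 8088324) (nat_lit 110514882)) (xR T0.l8 (xR T0.l8 T0.l8))
  (TrL.c (I.mix (nat_lit 8088324) (nat_lit 89478486)) T2.l4
  TrL.n)))))))) (by decide +kernel)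
theorem bx2_5 : BoxOK sI cl13 cl13 cl4 t2 t0 b2_5 :=
  box_mk (TrL.c (I.pos (nat_lit 0) (nat_lit 0)) T2.l0
  (TrL.c (I.pos (nat_lit 0) (nat_lit 0)) T0.l6
  (TrL.c (I.pos (nat_lit 0) (nat_lit 134217730)) (xR T2.l4 T2.l4)
  (TrL.c (I.pos (nat_lit 0) (nat_lit 110514882)) (xR T0.l7 T0.l7)
  (TrL.c (I.pos (nat_lit 0) (nat_lit 0)) T0.l9
  (TrL.c (I.pos (nat_lit 0) (nat_lit 0)) T2.l8
  (TrL.c (I.mix (nat_lit 8088324) (nat_lit 110514882)) (xR T0.l8 T0.l8)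
  (TrL.c (I.mix (nat_lit 8088324) (nat_lit 89478486)) T2.l2
  TrL.n)))))))) (by decide +kernel)
theorem bx2_6 : BoxOK sI cl13 cl13 cl4 t2 t0 b2_6 :=
  box_mk (TrL.c (I.pos (nat_lit 0) (nat_lit 0)) (xa (xa T2.l0 T2.l0) T2.l0)
  (TrL.c (I.pos (nat_lit 0) (nat_lit 0)) (xa T0.l6 T0.l6)
  (TrL.c (I.pos (nat_lit 0) (nat_lit 134217730)) (xR T2.l4 (xR T2.l4 T2.l7))
  (TrL.c (I.pos (nat_lit 0) (nat_lit 110514882)) T0.l7
  (TrL.c (I.pos (nat_lit 0) (nat_lit 0)) (xa T0.l9 T0.l9)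
  (TrL.c (I.pos (nat_lit 0) (nat_lit 0)) T2.l8
  (TrL.c (I.mix (nat_lit 8088324) (nat_lit 110514882)) T0.l8
  (TrL.c (I.mix (nat_lit 8088324) (nat_lit 89478486)) T2.l4
  TrL.n)))))))) (by decide +kernel)
theorem bx2_7 : BoxOK sI cl13 cl13 cl4 t2 t0 b2_7 :=
  box_mk (TrL.c (I.pos (nat_lit 0) (nat_lit 0)) (xa T2.l0 T2.l0)
  (TrL.c (I.pos (nat_lit 0) (nat_lit 0)) T0.l6
  (TrL.c (I.pos (nat_lit 0) (nat_lit 134217730)) (xR T2.l4 (xR T2.l4 T2.l7))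
  (TrL.c (I.pos (nat_lit 0) (nat_lit 110514882)) (xR T0.l7 T0.l7)
  (TrL.c (I.pos (nat_lit 0) (nat_lit 0)) T0.l9
  (TrL.c (I.pos (nat_lit 0) (nat_lit 0)) T2.l8
  (TrL.c (I.mix (nat_lit 8088324) (nat_lit 110514882)) T0.l8
  (TrL.c (I.mix (nat_lit 8088324) (nat_lit 89478486)) T2.l2
  TrL.n)))))))) (by decide +kernel)
theorem bx2_8 : BoxOK sI cl13 cl13 cl4 t2 t0 b2_8 :=
  box_mk (TrL.c (I.pos (nat_lit 0) (nat_lit 0)) T2.l0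
  (TrL.c (I.pos (nat_lit 0) (nat_lit 0)) T0.l6
  (TrL.c (I.pos (nat_lit 0) (nat_lit 134217730)) (xR T2.l4 T2.l4)
  (TrL.c (I.pos (nat_lit 0) (nat_lit 110514882)) (xR T0.l7 T0.l7)
  (TrL.c (I.pos (nat_lit 0) (nat_lit 0)) T0.l9
  (TrL.c (I.pos (nat_lit 0) (nat_lit 0)) T2.l8
  (TrL.c (I.mix (nat_lit 8088324) (nat_lit 110514882)) (xR T0.l8 T0.l8)
  (TrL.c (I.mix (nat_lit 8088324) (nat_lit 89478486)) T2.l2
  TrL.n)))))))) (by decide +kernel)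
theorem bx2_9 : BoxOK sI cl13 cl13 cl4 t2 t0 b2_9 :=
  box_mk (TrL.c (I.pos (nat_lit 0) (nat_lit 0)) (xa T2.l0 T2.l0)
  (TrL.c (I.pos (nat_lit 0) (nat_lit 0)) T0.l6
  (TrL.c (I.pos (nat_lit 0) (nat_lit 134217730)) (xR T2.l4 (xR T2.l4 T2.l7))
  (TrL.c (I.pos (nat_lit 0) (nat_lit 110514882)) T0.l7
  (TrL.c (I.pos (nat_lit 0) (nat_lit 0)) (xa T0.l9 T0.l9)
  (TrL.c (I.pos (nat_lit 0) (nat_lit 0)) T2.l8
  (TrL.c (I.mix (nat_lit 8088324) (nat_lit 110514882)) T0.l8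
  (TrL.c (I.mix (nat_lit 8088324) (nat_lit 89478486)) T2.l4
  TrL.n)))))))) (by decide +kernel)
theorem sv2 : StarV sI cl13 cl13 cl4 t2 t0 t2 :=
  (bt_n (bt_n (bt_n (bt_b bx2_0) (bt_b bx2_1)) (bt_n (bt_b bx2_2) (bt_n (bt_b bx2_3) (bt_b bx2_4)))) (bt_n (bt_n (bt_b bx2_5) (bt_b bx2_6)) (bt_n (bt_b bx2_7) (bt_n (bt_b bx2_8) (bt_b bx2_9)))))
def S2 : StarD := StarD.mk cl13 cl13 cl4 2 0 t2
def G : List StarD := [S0, S1, S2]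
theorem so0 : StarOK sI G S0 :=
  star_mk (by decide) (by decide) rfl rfl rfl rfl rfl rfl (rfl : _ = t1) (rfl : _ = t1)
  (st_mk (Pth.l (Pth.l (Pth.l Pth.z))) (nat_lit 97371604) (nat_lit 116740594) (by decide +kernel))
  (st_mk (Pth.l (Pth.l (Pth.l Pth.z))) (nat_lit 133615252) (nat_lit 153769333) (by decide +kernel))
  (st_mk (Pth.l (Pth.l (Pth.l Pth.z))) (nat_lit 175987669) (nat_lit 197291364) (by decide +kernel)) sv0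
theorem so1 : StarOK sI G S1 :=
  star_mk (by decide) (by decide) rfl rfl rfl rfl rfl rfl (rfl : _ = t0) (rfl : _ = t2)
  (st_mk (Pth.l (Pth.l Pth.z)) (nat_lit 364798899) (nat_lit 367106031) (by decide +kernel))
  (st_mk (Pth.l (Pth.l Pth.z)) (nat_lit 399695508) (nat_lit 402357689) (by decide +kernel))
  (st_mk (Pth.l (Pth.l Pth.z)) (nat_lit 439960827) (nat_lit 443073606) (by decide +kernel)) sv1
theorem so2 : StarOK sI G S2 :=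
  star_mk (by decide) (by decide) rfl rfl rfl rfl rfl rfl (rfl : _ = t2) (rfl : _ = t0)
  (st_mk (Pth.l (Pth.l (Pth.l Pth.z))) (nat_lit 96368329) (nat_lit 113645866) (by decide +kernel))
  (st_mk (Pth.l (Pth.l (Pth.l Pth.z))) (nat_lit 130728068) (nat_lit 149308566) (by decide +kernel))
  (st_mk (Pth.l (Pth.l (Pth.l Pth.z))) (nat_lit 170993386) (nat_lit 189915503) (by decide +kernel)) sv2
theorem ok : GroupOK (nat_lit 0) (nat_lit 91291648) G := grp_mk (allS_c so0 (allS_c so1 (allS_c so2 allS_n)))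
theorem cov : GCov G cl4 cl13 cl13 := cov_mk
  ⟨0, by decide, rfl, rfl, rfl⟩ ⟨0, by decide, rfl, rfl, rfl⟩ ⟨1, by decide, rfl, rfl, rfl⟩ ⟨2, by decide, rfl, rfl, rfl⟩ ⟨1, by decide, rfl, rfl, rfl⟩ ⟨2, by decide, rfl, rfl, rfl⟩
end Q166_0

namespace Q166_1
def sI : I := I.pos (nat_lit 91226112) (nat_lit 150339584)
def b0_0 : Bx := Bx.mk (St.mk (I.pos (nat_lit 155844608) (nat_lit 243597312)) (I.mix (nat_lit 3391488) (nat_lit 57655296)) (I.mix (nat_lit 3719168) (nat_lit 64258048)) (I.pos (nat_lit 89833472) (nat_lit 240910336)) (I.mix (nat_lit 87719936) (nat_lit 48513024)) (I.mix (nat_lit 63684608) (nat_lit 48824320)) (I.mix (nat_lit 88719360) (nat_lit 75595776)))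
  false (nat_lit 0)
def b0_1 : Bx := Bx.mk (St.mk (I.mix (nat_lit 12615680) (nat_lit 142753792)) (I.mix (nat_lit 6438912) (nat_lit 23887872)) (I.mix (nat_lit 22020096) (nat_lit 8437760)) (I.mix (nat_lit 5636096) (nat_lit 89669632)) (I.mix (nat_lit 24739840) (nat_lit 31096832)) (I.mix (nat_lit 27361280) (nat_lit 17858560)) (I.mix (nat_lit 22528000) (nat_lit 16777216)))
  false (nat_lit 0)
def b0_2 : Bx := Bx.mk (St.mk (I.pos (nat_lit 117145600) (nat_lit 154501120)) (I.mix (nat_lit 45383680) (nat_lit 8601600)) (I.neg (nat_lit 2686976) (nat_lit 64667648)) (I.pos (nat_lit 51249152) (nat_lit 105250816)) (I.mix (nat_lit 86310912) (nat_lit 27475968)) (I.mix (nat_lit 35454976) (nat_lit 82788352)) (I.mix (nat_lit 25739264) (nat_lit 83525632)))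
  false (nat_lit 0)
def b0_3 : Bx := Bx.mk (St.mk (I.mix (nat_lit 15302656) (nat_lit 109494272)) (I.mix (nat_lit 23019520) (nat_lit 2375680)) (I.mix (nat_lit 26050560) (nat_lit 2031616)) (I.mix (nat_lit 3850240) (nat_lit 58294272)) (I.mix (nat_lit 32587776) (nat_lit 11878400)) (I.mix (nat_lit 13402112) (nat_lit 27508736)) (I.mix (nat_lit 7487488) (nat_lit 18890752)))
  false (nat_lit 0)
def b0_4 : Bx := Bx.mk (St.mk (I.pos (nat_lit 199311360) (nat_lit 254656512)) (I.mix (nat_lit 14401536) (nat_lit 57016320)) (I.mix (nat_lit 72007680) (nat_lit 61521920)) (I.pos (nat_lit 181895168) (nat_lit 262504448)) (I.mix (nat_lit 83558400) (nat_lit 64684032)) (I.mix (nat_lit 75071488) (nat_lit 60440576)) (I.mix (nat_lit 121061376) (nat_lit 116293632)))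
  false (nat_lit 0)
def b0_5 : Bx := Bx.mk (St.mk (I.pos (nat_lit 113524736) (nat_lit 135561216)) (I.mix (nat_lit 8142848) (nat_lit 7307264)) (I.neg (nat_lit 3588096) (nat_lit 23773184)) (I.pos (nat_lit 49643520) (nat_lit 86294528)) (I.mix (nat_lit 22757376) (nat_lit 13680640)) (I.mix (nat_lit 14827520) (nat_lit 15302656)) (I.mix (nat_lit 12255232) (nat_lit 16269312)))
  false (nat_lit 0)
def b0_6 : Bx := Bx.mk (St.mk (I.mix (nat_lit 15155200) (nat_lit 44679168)) (I.mix (nat_lit 2473984) (nat_lit 3358720)) (I.mix (nat_lit 5455872) (nat_lit 868352)) (I.mix (nat_lit 1966080) (nat_lit 24805376)) (I.mix (nat_lit 5586944) (nat_lit 4046848)) (I.mix (nat_lit 4374528) (nat_lit 4161536)) (I.mix (nat_lit 1376256) (nat_lit 1703936)))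
  false (nat_lit 0)
def b0_7 : Bx := Bx.mk (St.mk (I.pos (nat_lit 223805440) (nat_lit 260603904)) (I.mix (nat_lit 15253504) (nat_lit 16171008)) (I.neg (nat_lit 11141120) (nat_lit 79855616)) (I.pos (nat_lit 206815232) (nat_lit 280150016)) (I.mix (nat_lit 69238784) (nat_lit 16842752)) (I.mix (nat_lit 40058880) (nat_lit 43106304)) (I.mix (nat_lit 60194816) (nat_lit 86343680)))
  false (nat_lit 0)
def b0_8 : Bx := Bx.mk (St.mk (I.pos (nat_lit 108232704) (nat_lit 183943168)) (I.mix (nat_lit 52051968) (nat_lit 7159808)) (I.neg (nat_lit 12697600) (nat_lit 67158016)) (I.pos (nat_lit 59817984) (nat_lit 142917632)) (I.mix (nat_lit 83476480) (nat_lit 42876928)) (I.mix (nat_lit 45268992) (nat_lit 69435392)) (I.mix (nat_lit 37797888) (nat_lit 74465280)))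
  false (nat_lit 653702)
def b0_9 : Bx := Bx.mk (St.mk (I.mix (nat_lit 17514496) (nat_lit 119717888)) (I.mix (nat_lit 26820608) (nat_lit 9617408)) (I.mix (nat_lit 28114944) (nat_lit 2080768)) (I.mix (nat_lit 4374528) (nat_lit 67551232)) (I.mix (nat_lit 38518784) (nat_lit 28884992)) (I.mix (nat_lit 23789568) (nat_lit 35438592)) (I.mix (nat_lit 13287424) (nat_lit 25903104)))
  false (nat_lit 0)
def b0_10 : Bx := Bx.mk (St.mk (I.pos (nat_lit 180453376) (nat_lit 225345536)) (I.mix (nat_lit 13828096) (nat_lit 54493184)) (I.mix (nat_lit 24559616) (nat_lit 63193088)) (I.pos (nat_lit 130285568) (nat_lit 210534400)) (I.mix (nat_lit 106266624) (nat_lit 45416448)) (I.mix (nat_lit 109051904) (nat_lit 68091904)) (I.mix (nat_lit 122568704) (nat_lit 76398592)))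
  false (nat_lit 0)
def b0_11 : Bx := Bx.mk (St.mk (I.mix (nat_lit 18759680) (nat_lit 145981440)) (I.mix (nat_lit 16023552) (nat_lit 33423360)) (I.mix (nat_lit 23166976) (nat_lit 15630336)) (I.mix (nat_lit 5586944) (nat_lit 88932352)) (I.mix (nat_lit 43827200) (nat_lit 35340288)) (I.mix (nat_lit 50085888) (nat_lit 35110912)) (I.mix (nat_lit 32276480) (nat_lit 22331392)))
  false (nat_lit 0)
def b0_12 : Bx := Bx.mk (St.mk (I.pos (nat_lit 154894336) (nat_lit 215236608)) (I.mix (nat_lit 36388864) (nat_lit 17252352)) (I.mix (nat_lit 59457536) (nat_lit 8437760)) (I.pos (nat_lit 93765632) (nat_lit 188366848)) (I.mix (nat_lit 63127552) (nat_lit 50282496)) (I.mix (nat_lit 64962560) (nat_lit 57294848)) (I.mix (nat_lit 70860800) (nat_lit 60719104)))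
  false (nat_lit 0)
def b0_13 : Bx := Bx.mk (St.mk (I.pos (nat_lit 180682752) (nat_lit 217448448)) (I.mix (nat_lit 19644416) (nat_lit 30408704)) (I.mix (nat_lit 35586048) (nat_lit 30146560)) (I.pos (nat_lit 133103616) (nat_lit 191348736)) (I.mix (nat_lit 91258880) (nat_lit 59686912)) (I.mix (nat_lit 114032640) (nat_lit 63324160)) (I.mix (nat_lit 130990080) (nat_lit 67436544)))
  false (nat_lit 0)
def t0 : BTr := (BTr.n (BTr.n (BTr.n (BTr.b b0_0) (BTr.n (BTr.b b0_1) (BTr.b b0_2))) (BTr.n (BTr.n (BTr.b b0_3) (BTr.b b0_4)) (BTr.n (BTr.b b0_5) (BTr.b b0_6)))) (BTr.n (BTr.n (BTr.b b0_7) (BTr.n (BTr.b b0_8) (BTr.b b0_9))) (BTr.n (BTr.n (BTr.b b0_10) (BTr.b b0_11)) (BTr.n (BTr.b b0_12) (BTr.b b0_13)))))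
namespace T0
def l0 : Tr := Tr.L (Pth.l (Pth.l (Pth.l Pth.z)))
def l1 : Tr := Tr.L (Pth.l (Pth.l (Pth.r (Pth.l Pth.z))))
def l2 : Tr := Tr.L (Pth.l (Pth.l (Pth.r (Pth.r Pth.z))))
def l3 : Tr := Tr.L (Pth.l (Pth.r (Pth.l (Pth.l Pth.z))))
def l4 : Tr := Tr.L (Pth.l (Pth.r (Pth.l (Pth.r Pth.z))))
def l5 : Tr := Tr.L (Pth.l (Pth.r (Pth.r (Pth.l Pth.z))))
def l6 : Tr := Tr.L (Pth.l (Pth.r (Pth.r (Pth.r Pth.z))))
def l7 : Tr := Tr.L (Pth.r (Pth.l (Pth.l Pth.z)))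
def l8 : Tr := Tr.L (Pth.r (Pth.l (Pth.r (Pth.l Pth.z))))
def l9 : Tr := Tr.L (Pth.r (Pth.l (Pth.r (Pth.r Pth.z))))
def l10 : Tr := Tr.L (Pth.r (Pth.r (Pth.l (Pth.l Pth.z))))
def l11 : Tr := Tr.L (Pth.r (Pth.r (Pth.l (Pth.r Pth.z))))
def l12 : Tr := Tr.L (Pth.r (Pth.r (Pth.r (Pth.l Pth.z))))
def l13 : Tr := Tr.L (Pth.r (Pth.r (Pth.r (Pth.r Pth.z))))
end T0
def b1_0 : Bx := Bx.mk (St.mk (I.pos (nat_lit 142409728) (nat_lit 219971584)) (I.mix (nat_lit 5619712) (nat_lit 94650368)) (I.mix (nat_lit 6029312) (nat_lit 102563840)) (I.pos (nat_lit 359350272) (nat_lit 451379200)) (I.mix (nat_lit 123437056) (nat_lit 72957952)) (I.mix (nat_lit 81297408) (nat_lit 69091328)) (I.mix (nat_lit 92520448) (nat_lit 87244800)))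
  false (nat_lit 151900717)
def b1_1 : Bx := Bx.mk (St.mk (I.pos (nat_lit 25264128) (nat_lit 124583936)) (I.neg (nat_lit 3833856) (nat_lit 95223808)) (I.mix (nat_lit 77381632) (nat_lit 8355840)) (I.pos (nat_lit 262815744) (nat_lit 328433664)) (I.mix (nat_lit 101515264) (nat_lit 62226432)) (I.mix (nat_lit 62717952) (nat_lit 76103680)) (I.mix (nat_lit 60440576) (nat_lit 61947904)))
  false (nat_lit 7944293)
def b1_2 : Bx := Bx.mk (St.mk (I.mix (nat_lit 60506112) (nat_lit 13762560)) (I.mix (nat_lit 14581760) (nat_lit 90095616)) (I.neg (nat_lit 36290560) (nat_lit 63668224)) (I.pos (nat_lit 260734976) (nat_lit 289406976)) (I.mix (nat_lit 37535744) (nat_lit 86556672)) (I.mix (nat_lit 77086720) (nat_lit 50085888)) (I.mix (nat_lit 30932992) (nat_lit 24264704)))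
  true (nat_lit 0)
def b1_3 : Bx := Bx.mk (St.mk (I.pos (nat_lit 96272384) (nat_lit 191283200)) (I.mix (nat_lit 41828352) (nat_lit 91406336)) (I.mix (nat_lit 34111488) (nat_lit 105988096)) (I.pos (nat_lit 298254336) (nat_lit 417021952)) (I.mix (nat_lit 138657792) (nat_lit 63684608)) (I.mix (nat_lit 128466944) (nat_lit 82313216)) (I.mix (nat_lit 123027456) (nat_lit 101171200)))
  false (nat_lit 129010667)
def b1_4 : Bx := Bx.mk (St.mk (I.pos (nat_lit 16367616) (nat_lit 58802176)) (I.neg (nat_lit 30162944) (nat_lit 87572480)) (I.neg (nat_lit 37601280) (nat_lit 63586304)) (I.pos (nat_lit 265895936) (nat_lit 289112064)) (I.mix (nat_lit 84738048) (nat_lit 29884416)) (I.mix (nat_lit 42844160) (nat_lit 61915136)) (I.mix (nat_lit 28442624) (nat_lit 22183936)))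
  false (nat_lit 0)
def b1_5 : Bx := Bx.mk (St.mk (I.neg (nat_lit 25264128) (nat_lit 124583936)) (I.pos (nat_lit 3833856) (nat_lit 95223808)) (I.mix (nat_lit 77381632) (nat_lit 8355840)) (I.pos (nat_lit 262815744) (nat_lit 328433664)) (I.mix (nat_lit 62226432) (nat_lit 101531648)) (I.mix (nat_lit 76120064) (nat_lit 62717952)) (I.mix (nat_lit 60440576) (nat_lit 61947904)))
  true (nat_lit 0)
def b1_6 : Bx := Bx.mk (St.mk (I.pos (nat_lit 175423488) (nat_lit 287948800)) (I.mix (nat_lit 24887296) (nat_lit 68452352)) (I.mix (nat_lit 142376960) (nat_lit 53100544)) (I.pos (nat_lit 395558912) (nat_lit 568410112)) (I.mix (nat_lit 83001344) (nat_lit 69844992)) (I.mix (nat_lit 72482816) (nat_lit 53624832)) (I.mix (nat_lit 124616704) (nat_lit 100679680)))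
  false (nat_lit 156778073)
def b1_7 : Bx := Bx.mk (St.mk (I.mix (nat_lit 13303808) (nat_lit 48037888)) (I.mix (nat_lit 53018624) (nat_lit 12500992)) (I.neg (nat_lit 36831232) (nat_lit 54165504)) (I.pos (nat_lit 261603328) (nat_lit 278396928)) (I.mix (nat_lit 50528256) (nat_lit 37535744)) (I.mix (nat_lit 37650432) (nat_lit 41304064)) (I.mix (nat_lit 11304960) (nat_lit 14614528)))
  false (nat_lit 0)
def b1_8 : Bx := Bx.mk (St.mk (I.pos (nat_lit 157745152) (nat_lit 210796544)) (I.pos (nat_lit 27426816) (nat_lit 91750400)) (I.pos (nat_lit 7880704) (nat_lit 94945280)) (I.pos (nat_lit 386580480) (nat_lit 436142080)) (I.mix (nat_lit 104808448) (nat_lit 81969152)) (I.mix (nat_lit 92487680) (nat_lit 66273280)) (I.mix (nat_lit 127336448) (nat_lit 86212608)))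
  false (nat_lit 116713807)
def b1_9 : Bx := Bx.mk (St.mk (I.pos (nat_lit 23248896) (nat_lit 50954240)) (I.neg (nat_lit 24788992) (nat_lit 76365824)) (I.neg (nat_lit 37421056) (nat_lit 61472768)) (I.pos (nat_lit 266731520) (nat_lit 283607040)) (I.mix (nat_lit 87080960) (nat_lit 36864000)) (I.mix (nat_lit 41484288) (nat_lit 77201408)) (I.mix (nat_lit 23019520) (nat_lit 22036480)))
  false (nat_lit 0)
def t1 : BTr := (BTr.n (BTr.n (BTr.n (BTr.b b1_0) (BTr.b b1_1)) (BTr.n (BTr.b b1_2) (BTr.n (BTr.b b1_3) (BTr.b b1_4)))) (BTr.n (BTr.n (BTr.b b1_5) (BTr.b b1_6)) (BTr.n (BTr.b b1_7) (BTr.n (BTr.b b1_8) (BTr.b b1_9)))))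
namespace T1
def l0 : Tr := Tr.L (Pth.l (Pth.l (Pth.l Pth.z)))
def l1 : Tr := Tr.L (Pth.l (Pth.l (Pth.r Pth.z)))
def l2 : Tr := Tr.L (Pth.l (Pth.r (Pth.l Pth.z)))
def l3 : Tr := Tr.L (Pth.l (Pth.r (Pth.r (Pth.l Pth.z))))
def l4 : Tr := Tr.L (Pth.l (Pth.r (Pth.r (Pth.r Pth.z))))
def l5 : Tr := Tr.L (Pth.r (Pth.l (Pth.l Pth.z)))
def l6 : Tr := Tr.L (Pth.r (Pth.l (Pth.r Pth.z)))
def l7 : Tr := Tr.L (Pth.r (Pth.r (Pth.l Pth.z)))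
def l8 : Tr := Tr.L (Pth.r (Pth.r (Pth.r (Pth.l Pth.z))))
def l9 : Tr := Tr.L (Pth.r (Pth.r (Pth.r (Pth.r Pth.z))))
end T1
def b2_0 : Bx := Bx.mk (St.mk (I.pos (nat_lit 156237824) (nat_lit 236634112)) (I.mix (nat_lit 2523136) (nat_lit 43352064)) (I.mix (nat_lit 6340608) (nat_lit 111771648)) (I.pos (nat_lit 89423872) (nat_lit 209305600)) (I.mix (nat_lit 94388224) (nat_lit 55607296)) (I.mix (nat_lit 84721664) (nat_lit 67469312)) (I.mix (nat_lit 131235840) (nat_lit 86949888)))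
  false (nat_lit 26955446)
def b2_1 : Bx := Bx.mk (St.mk (I.pos (nat_lit 124403712) (nat_lit 183107584)) (I.neg (nat_lit 2441216) (nat_lit 56262656)) (I.mix (nat_lit 38846464) (nat_lit 23543808)) (I.pos (nat_lit 75530240) (nat_lit 135528448)) (I.mix (nat_lit 64225280) (nat_lit 48005120)) (I.mix (nat_lit 41943040) (nat_lit 57540608)) (I.mix (nat_lit 36831232) (nat_lit 57114624)))
  false (nat_lit 39031018)
def b2_2 : Bx := Bx.mk (St.mk (I.mix (nat_lit 13139968) (nat_lit 119767040)) (I.mix (nat_lit 26181632) (nat_lit 3637248)) (I.mix (nat_lit 8699904) (nat_lit 14139392)) (I.mix (nat_lit 4276224) (nat_lit 65765376)) (I.mix (nat_lit 20660224) (nat_lit 27017216)) (I.mix (nat_lit 16351232) (nat_lit 23642112)) (I.mix (nat_lit 11501568) (nat_lit 16023552)))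
  false (nat_lit 0)
def b2_3 : Bx := Bx.mk (St.mk (I.pos (nat_lit 172556288) (nat_lit 213680128)) (I.mix (nat_lit 14237696) (nat_lit 47677440)) (I.pos (nat_lit 18694144) (nat_lit 109166592)) (I.pos (nat_lit 107937792) (nat_lit 180420608)) (I.mix (nat_lit 126255104) (nat_lit 35766272)) (I.mix (nat_lit 129384448) (nat_lit 62701568)) (I.mix (nat_lit 171851776) (nat_lit 53723136)))
  false (nat_lit 42384075)
def b2_4 : Bx := Bx.mk (St.mk (I.mix (nat_lit 17891328) (nat_lit 137838592)) (I.mix (nat_lit 13484032) (nat_lit 32456704)) (I.mix (nat_lit 2867200) (nat_lit 40960000)) (I.mix (nat_lit 5177344) (nat_lit 81641472)) (I.mix (nat_lit 58621952) (nat_lit 26918912)) (I.mix (nat_lit 53428224) (nat_lit 29622272)) (I.mix (nat_lit 43728896) (nat_lit 16941056)))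
  false (nat_lit 0)
def b2_5 : Bx := Bx.mk (St.mk (I.pos (nat_lit 170196992) (nat_lit 207306752)) (I.mix (nat_lit 38518784) (nat_lit 22970368)) (I.mix (nat_lit 10829824) (nat_lit 73285632)) (I.pos (nat_lit 106299392) (nat_lit 169230336)) (I.mix (nat_lit 98041856) (nat_lit 58638336)) (I.mix (nat_lit 108199936) (nat_lit 55443456)) (I.mix (nat_lit 135970816) (nat_lit 58015744)))
  false (nat_lit 52603105)
def b2_6 : Bx := Bx.mk (St.mk (I.pos (nat_lit 156073984) (nat_lit 186302464)) (I.neg (nat_lit 1900544) (nat_lit 36143104)) (I.mix (nat_lit 8421376) (nat_lit 30212096)) (I.pos (nat_lit 95272960) (nat_lit 142213120)) (I.mix (nat_lit 40812544) (nat_lit 33849344)) (I.mix (nat_lit 26689536) (nat_lit 35962880)) (I.mix (nat_lit 33996800) (nat_lit 31948800)))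
  false (nat_lit 0)
def b2_7 : Bx := Bx.mk (St.mk (I.mix (nat_lit 19136512) (nat_lit 127107072)) (I.mix (nat_lit 15515648) (nat_lit 5029888)) (I.mix (nat_lit 1507328) (nat_lit 16760832)) (I.mix (nat_lit 4587520) (nat_lit 71286784)) (I.mix (nat_lit 19447808) (nat_lit 15630336)) (I.mix (nat_lit 15073280) (nat_lit 16236544)) (I.mix (nat_lit 11599872) (nat_lit 9175040)))
  false (nat_lit 0)
def b2_8 : Bx := Bx.mk (St.mk (I.pos (nat_lit 165085184) (nat_lit 195379200)) (I.neg (nat_lit 6029312) (nat_lit 36175872)) (I.mix (nat_lit 9306112) (nat_lit 26968064)) (I.pos (nat_lit 103907328) (nat_lit 156745728)) (I.mix (nat_lit 29573120) (nat_lit 33931264)) (I.mix (nat_lit 31801344) (nat_lit 24248320)) (I.mix (nat_lit 31358976) (nat_lit 26460160)))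
  false (nat_lit 0)
def b2_9 : Bx := Bx.mk (St.mk (I.pos (nat_lit 39010304) (nat_lit 142999552)) (I.mix (nat_lit 7864320) (nat_lit 22446080)) (I.pos (nat_lit 98304) (nat_lit 34242560)) (I.pos (nat_lit 7716864) (nat_lit 90636288)) (I.mix (nat_lit 34930688) (nat_lit 32931840)) (I.mix (nat_lit 43941888) (nat_lit 28409856)) (I.mix (nat_lit 38518784) (nat_lit 20922368)))
  false (nat_lit 0)
def b2_10 : Bx := Bx.mk (St.mk (I.pos (nat_lit 117604352) (nat_lit 171769856)) (I.mix (nat_lit 59375616) (nat_lit 11583488)) (I.mix (nat_lit 37748736) (nat_lit 27639808)) (I.pos (nat_lit 51363840) (nat_lit 124780544)) (I.mix (nat_lit 73465856) (nat_lit 37273600)) (I.mix (nat_lit 40075264) (nat_lit 68845568)) (I.mix (nat_lit 33095680) (nat_lit 57933824)))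
  false (nat_lit 36510839)
def b2_11 : Bx := Bx.mk (St.mk (I.pos (nat_lit 197623808) (nat_lit 282083328)) (I.mix (nat_lit 18579456) (nat_lit 34193408)) (I.pos (nat_lit 8929280) (nat_lit 102809600)) (I.pos (nat_lit 157057024) (nat_lit 308461568)) (I.mix (nat_lit 68370432) (nat_lit 60964864)) (I.mix (nat_lit 63143936) (nat_lit 46612480)) (I.mix (nat_lit 105922560) (nat_lit 76611584)))
  false (nat_lit 64872550)
def b2_12 : Bx := Bx.mk (St.mk (I.mix (nat_lit 20643840) (nat_lit 115802112)) (I.mix (nat_lit 25526272) (nat_lit 5079040)) (I.mix (nat_lit 7602176) (nat_lit 12075008)) (I.mix (nat_lit 4521984) (nat_lit 62767104)) (I.mix (nat_lit 24870912) (nat_lit 19562496)) (I.mix (nat_lit 17891328) (nat_lit 29196288)) (I.mix (nat_lit 9895936) (nat_lit 15777792)))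
  false (nat_lit 0)
def b2_13 : Bx := Bx.mk (St.mk (I.pos (nat_lit 185270272) (nat_lit 232505344)) (I.pos (nat_lit 5308416) (nat_lit 42319872)) (I.pos (nat_lit 40009728) (nat_lit 109838336)) (I.pos (nat_lit 148701184) (nat_lit 200114176)) (I.mix (nat_lit 88375296) (nat_lit 67731456)) (I.mix (nat_lit 95043584) (nat_lit 66011136)) (I.mix (nat_lit 142311424) (nat_lit 83738624)))
  false (nat_lit 54647195)
def t2 : BTr := (BTr.n (BTr.n (BTr.n (BTr.b b2_0) (BTr.n (BTr.b b2_1) (BTr.b b2_2))) (BTr.n (BTr.n (BTr.b b2_3) (BTr.b b2_4)) (BTr.n (BTr.b b2_5) (BTr.b b2_6)))) (BTr.n (BTr.n (BTr.b b2_7) (BTr.n (BTr.b b2_8) (BTr.b b2_9))) (BTr.n (BTr.n (BTr.b b2_10) (BTr.b b2_11)) (BTr.n (BTr.b b2_12) (BTr.b b2_13)))))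
namespace T2
def l0 : Tr := Tr.L (Pth.l (Pth.l (Pth.l Pth.z)))
def l1 : Tr := Tr.L (Pth.l (Pth.l (Pth.r (Pth.l Pth.z))))
def l2 : Tr := Tr.L (Pth.l (Pth.l (Pth.r (Pth.r Pth.z))))
def l3 : Tr := Tr.L (Pth.l (Pth.r (Pth.l (Pth.l Pth.z))))
def l4 : Tr := Tr.L (Pth.l (Pth.r (Pth.l (Pth.r Pth.z))))
def l5 : Tr := Tr.L (Pth.l (Pth.r (Pth.r (Pth.l Pth.z))))
def l6 : Tr := Tr.L (Pth.l (Pth.r (Pth.r (Pth.r Pth.z))))
def l7 : Tr := Tr.L (Pth.r (Pth.l (Pth.l Pth.z)))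
def l8 : Tr := Tr.L (Pth.r (Pth.l (Pth.r (Pth.l Pth.z))))
def l9 : Tr := Tr.L (Pth.r (Pth.l (Pth.r (Pth.r Pth.z))))
def l10 : Tr := Tr.L (Pth.r (Pth.r (Pth.l (Pth.l Pth.z))))
def l11 : Tr := Tr.L (Pth.r (Pth.r (Pth.l (Pth.r Pth.z))))
def l12 : Tr := Tr.L (Pth.r (Pth.r (Pth.r (Pth.l Pth.z))))
def l13 : Tr := Tr.L (Pth.r (Pth.r (Pth.r (Pth.r Pth.z))))
end T2
theorem bx0_0 : BoxOK sI cl4 cl13 cl13 t1 t1 b0_0 :=
  box_mk (TrL.c (I.pos (nat_lit 0) (nat_lit 0)) (xa (xb (xa T1.l0 T1.l0) (xa T1.l0 T1.l0)) (xa T1.l0 (xb T1.l0 T1.l0)))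
  (TrL.c (I.pos (nat_lit 0) (nat_lit 0)) T1.l1
  (TrL.c (I.pos (nat_lit 0) (nat_lit 0)) T1.l2
  (TrL.c (I.pos (nat_lit 0) (nat_lit 0)) (xa T1.l3 T1.l3)
  (TrL.c (I.pos (nat_lit 0) (nat_lit 0)) T1.l4
  (TrL.c (I.pos (nat_lit 0) (nat_lit 0)) T1.l5
  TrL.n)))))) (by decide +kernel)
theorem bx0_1 : BoxOK sI cl4 cl13 cl13 t1 t1 b0_1 :=
  box_mk (TrL.c (I.pos (nat_lit 0) (nat_lit 0)) (xa T1.l6 (xa T1.l6 T1.l6))
  (TrL.c (I.pos (nat_lit 0) (nat_lit 0)) (xa T1.l1 T1.l1)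
  (TrL.c (I.pos (nat_lit 0) (nat_lit 0)) T1.l2
  (TrL.c (I.pos (nat_lit 0) (nat_lit 0)) T1.l3
  (TrL.c (I.pos (nat_lit 0) (nat_lit 0)) T1.l7
  (TrL.c (I.pos (nat_lit 0) (nat_lit 0)) (xa T1.l5 T1.l5)
  TrL.n)))))) (by decide +kernel)
theorem bx0_2 : BoxOK sI cl4 cl13 cl13 t1 t1 b0_2 :=
  box_mk (TrL.c (I.pos (nat_lit 0) (nat_lit 0)) (xb T1.l6 T1.l6)
  (TrL.c (I.pos (nat_lit 0) (nat_lit 0)) T1.l1
  (TrL.c (I.pos (nat_lit 0) (nat_lit 0)) T1.l2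
  (TrL.c (I.pos (nat_lit 0) (nat_lit 0)) T1.l3
  (TrL.c (I.pos (nat_lit 0) (nat_lit 0)) T1.l7
  (TrL.c (I.pos (nat_lit 0) (nat_lit 0)) T1.l5
  TrL.n)))))) (by decide +kernel)
theorem bx0_3 : BoxOK sI cl4 cl13 cl13 t1 t1 b0_3 :=
  box_mk (TrL.c (I.pos (nat_lit 0) (nat_lit 0)) T1.l6
  (TrL.c (I.pos (nat_lit 0) (nat_lit 0)) T1.l1
  (TrL.c (I.pos (nat_lit 0) (nat_lit 0)) T1.l2
  (TrL.c (I.pos (nat_lit 0) (nat_lit 0)) T1.l3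
  (TrL.c (I.pos (nat_lit 0) (nat_lit 0)) T1.l7
  (TrL.c (I.pos (nat_lit 0) (nat_lit 0)) T1.l5
  TrL.n)))))) (by decide +kernel)
theorem bx0_4 : BoxOK sI cl4 cl13 cl13 t1 t1 b0_4 :=
  box_mk (TrL.c (I.pos (nat_lit 0) (nat_lit 0)) (xa (xb T1.l0 (xb T1.l0 T1.l0)) (xb T1.l0 (xa T1.l0 T1.l0)))
  (TrL.c (I.pos (nat_lit 0) (nat_lit 0)) T1.l1
  (TrL.c (I.pos (nat_lit 0) (nat_lit 0)) T1.l5
  (TrL.c (I.pos (nat_lit 0) (nat_lit 0)) (xb (xa T1.l3 (xb (xa T1.l3 T1.l3) T1.l3)) (xa T1.l3 (xb T1.l3 (xa T1.l3 T1.l3))))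
  (TrL.c (I.pos (nat_lit 0) (nat_lit 0)) T1.l1
  (TrL.c (I.pos (nat_lit 0) (nat_lit 0)) T1.l5
  TrL.n)))))) (by decide +kernel)
theorem bx0_5 : BoxOK sI cl4 cl13 cl13 t1 t1 b0_5 :=
  box_mk (TrL.c (I.pos (nat_lit 0) (nat_lit 0)) T1.l6
  (TrL.c (I.pos (nat_lit 0) (nat_lit 0)) T1.l1
  (TrL.c (I.pos (nat_lit 0) (nat_lit 0)) T1.l2
  (TrL.c (I.pos (nat_lit 0) (nat_lit 0)) T1.l3
  (TrL.c (I.pos (nat_lit 0) (nat_lit 0)) T1.l7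
  (TrL.c (I.pos (nat_lit 0) (nat_lit 0)) T1.l5
  TrL.n)))))) (by decide +kernel)
theorem bx0_6 : BoxOK sI cl4 cl13 cl13 t1 t1 b0_6 :=
  box_mk (TrL.c (I.pos (nat_lit 0) (nat_lit 0)) T1.l6
  (TrL.c (I.pos (nat_lit 0) (nat_lit 0)) T1.l1
  (TrL.c (I.pos (nat_lit 0) (nat_lit 0)) T1.l2
  (TrL.c (I.pos (nat_lit 0) (nat_lit 0)) T1.l3
  (TrL.c (I.pos (nat_lit 0) (nat_lit 0)) T1.l7
  (TrL.c (I.pos (nat_lit 0) (nat_lit 0)) T1.l5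
  TrL.n)))))) (by decide +kernel)
theorem bx0_7 : BoxOK sI cl4 cl13 cl13 t1 t1 b0_7 :=
  box_mk (TrL.c (I.pos (nat_lit 0) (nat_lit 0)) T1.l0
  (TrL.c (I.pos (nat_lit 0) (nat_lit 0)) T1.l1
  (TrL.c (I.pos (nat_lit 0) (nat_lit 0)) T1.l2
  (TrL.c (I.pos (nat_lit 0) (nat_lit 0)) T1.l3
  (TrL.c (I.pos (nat_lit 0) (nat_lit 0)) T1.l4
  (TrL.c (I.pos (nat_lit 0) (nat_lit 0)) T1.l5
  TrL.n)))))) (by decide +kernel)
theorem bx0_8 : BoxOK sI cl4 cl13 cl13 t1 t1 b0_8 :=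
  box_mk (TrL.c (I.pos (nat_lit 0) (nat_lit 0)) (xa (xb T1.l6 T1.l6) (xb T1.l6 T1.l6))
  (TrL.c (I.pos (nat_lit 0) (nat_lit 0)) T1.l1
  (TrL.c (I.pos (nat_lit 0) (nat_lit 0)) T1.l2
  (TrL.c (I.pos (nat_lit 0) (nat_lit 0)) T1.l3
  (TrL.c (I.pos (nat_lit 0) (nat_lit 0)) T1.l7
  (TrL.c (I.pos (nat_lit 0) (nat_lit 0)) T1.l5
  TrL.n)))))) (by decide +kernel)
theorem bx0_9 : BoxOK sI cl4 cl13 cl13 t1 t1 b0_9 :=
  box_mk (TrL.c (I.pos (nat_lit 0) (nat_lit 0)) (xa (xa (xb (xa T1.l6 T1.l6) T1.l6) T1.l6) T1.l6)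
  (TrL.c (I.pos (nat_lit 0) (nat_lit 0)) T1.l1
  (TrL.c (I.pos (nat_lit 0) (nat_lit 0)) T1.l2
  (TrL.c (I.pos (nat_lit 0) (nat_lit 0)) T1.l3
  (TrL.c (I.pos (nat_lit 0) (nat_lit 0)) T1.l7
  (TrL.c (I.pos (nat_lit 0) (nat_lit 0)) T1.l5
  TrL.n)))))) (by decide +kernel)
theorem bx0_10 : BoxOK sI cl4 cl13 cl13 t1 t1 b0_10 :=
  box_mk (TrL.c (I.pos (nat_lit 0) (nat_lit 0)) (xb (xa T1.l8 T1.l8) (xa T1.l8 T1.l8))
  (TrL.c (I.pos (nat_lit 0) (nat_lit 0)) T1.l1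
  (TrL.c (I.pos (nat_lit 0) (nat_lit 0)) T1.l2
  (TrL.c (I.pos (nat_lit 0) (nat_lit 0)) (xb T1.l3 (xa T1.l3 T1.l3))
  (TrL.c (I.pos (nat_lit 0) (nat_lit 0)) T1.l9
  (TrL.c (I.pos (nat_lit 0) (nat_lit 0)) T1.l5
  TrL.n)))))) (by decide +kernel)
theorem bx0_11 : BoxOK sI cl4 cl13 cl13 t1 t1 b0_11 :=
  box_mk (TrL.c (I.pos (nat_lit 0) (nat_lit 0)) (xa (xa (xb (xa T1.l6 T1.l6) (xa T1.l6 T1.l6)) (xb T1.l6 T1.l6)) (xa T1.l6 (xb T1.l6 (xa T1.l6 T1.l6))))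
  (TrL.c (I.pos (nat_lit 0) (nat_lit 0)) (xa T1.l1 T1.l1)
  (TrL.c (I.pos (nat_lit 0) (nat_lit 0)) T1.l2
  (TrL.c (I.pos (nat_lit 0) (nat_lit 0)) (xa T1.l3 T1.l3)
  (TrL.c (I.pos (nat_lit 0) (nat_lit 0)) T1.l7
  (TrL.c (I.pos (nat_lit 0) (nat_lit 0)) (xa T1.l5 T1.l5)
  TrL.n)))))) (by decide +kernel)
theorem bx0_12 : BoxOK sI cl4 cl13 cl13 t1 t1 b0_12 :=
  box_mk (TrL.c (I.pos (nat_lit 0) (nat_lit 0)) (xa T1.l0 T1.l0)
  (TrL.c (I.pos (nat_lit 0) (nat_lit 0)) T1.l1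
  (TrL.c (I.pos (nat_lit 0) (nat_lit 0)) T1.l2
  (TrL.c (I.pos (nat_lit 0) (nat_lit 0)) T1.l3
  (TrL.c (I.pos (nat_lit 0) (nat_lit 0)) T1.l9
  (TrL.c (I.pos (nat_lit 0) (nat_lit 0)) T1.l5
  TrL.n)))))) (by decide +kernel)
theorem bx0_13 : BoxOK sI cl4 cl13 cl13 t1 t1 b0_13 :=
  box_mk (TrL.c (I.pos (nat_lit 0) (nat_lit 0)) (xb T1.l8 T1.l8)
  (TrL.c (I.pos (nat_lit 0) (nat_lit 0)) T1.l1
  (TrL.c (I.pos (nat_lit 0) (nat_lit 0)) T1.l5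
  (TrL.c (I.pos (nat_lit 0) (nat_lit 0)) (xb T1.l3 T1.l3)
  (TrL.c (I.pos (nat_lit 0) (nat_lit 0)) T1.l1
  (TrL.c (I.pos (nat_lit 0) (nat_lit 0)) T1.l5
  TrL.n)))))) (by decide +kernel)
theorem sv0 : StarV sI cl4 cl13 cl13 t1 t1 t0 :=
  (bt_n (bt_n (bt_n (bt_b bx0_0) (bt_n (bt_b bx0_1) (bt_b bx0_2))) (bt_n (bt_n (bt_b bx0_3) (bt_b bx0_4)) (bt_n (bt_b bx0_5) (bt_b bx0_6)))) (bt_n (bt_n (bt_b bx0_7) (bt_n (bt_b bx0_8) (bt_b bx0_9))) (bt_n (bt_n (bt_b bx0_10) (bt_b bx0_11)) (bt_n (bt_b bx0_12) (bt_b bx0_13)))))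
def S0 : StarD := StarD.mk cl4 cl13 cl13 1 1 t0
theorem bx1_0 : BoxOK sI cl13 cl4 cl13 t0 t2 b1_0 :=
  box_mk (TrL.c (I.pos (nat_lit 0) (nat_lit 0)) (xa (xb T0.l0 T0.l4) (xb T0.l0 T0.l0))
  (TrL.c (I.pos (nat_lit 0) (nat_lit 0)) T2.l1
  (TrL.c (I.pos (nat_lit 0) (nat_lit 134217730)) (xR T0.l1 T0.l11)
  (TrL.c (I.pos (nat_lit 0) (nat_lit 110514882)) (xR T2.l2 T2.l2)
  (TrL.c (I.pos (nat_lit 0) (nat_lit 0)) (xb (xa T2.l5 (xk T2.l3 T2.l3)) (xa T2.l3 T2.l3))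
  (TrL.c (I.pos (nat_lit 0) (nat_lit 0)) T0.l2
  (TrL.c (I.mix (nat_lit 8088324) (nat_lit 110514882)) T2.l4
  (TrL.c (I.mix (nat_lit 8088324) (nat_lit 89478486)) T0.l9
  TrL.n)))))))) (by decide +kernel)
theorem bx1_1 : BoxOK sI cl13 cl4 cl13 t0 t2 b1_1 :=
  box_mk (TrL.c (I.pos (nat_lit 0) (nat_lit 0)) (xa (xb (xa T0.l4 T0.l4) T0.l4) T0.l4)
  (TrL.c (I.pos (nat_lit 0) (nat_lit 0)) T2.l1
  (TrL.c (I.pos (nat_lit 0) (nat_lit 134217730)) T0.l11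
  (TrL.c (I.pos (nat_lit 0) (nat_lit 110514882)) (xR T2.l2 T2.l2)
  (TrL.c (I.pos (nat_lit 0) (nat_lit 0)) (xa T2.l5 T2.l5)
  (TrL.c (I.pos (nat_lit 0) (nat_lit 0)) T0.l2
  (TrL.c (I.mix (nat_lit 8088324) (nat_lit 110514882)) T2.l4
  (TrL.c (I.mix (nat_lit 8088324) (nat_lit 89478486)) T0.l9
  TrL.n)))))))) (by decide +kernel)
theorem bx1_2 : BoxOK sI cl13 cl4 cl13 t0 t2 b1_2 :=
  box_mk (TrL.c (I.pos (nat_lit 0) (nat_lit 0)) T2.l6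
  (TrL.c (I.pos (nat_lit 0) (nat_lit 0)) T0.l11
  (TrL.c (I.mix (nat_lit 8088324) (nat_lit 110514882)) T2.l4
  (TrL.c (I.mix (nat_lit 8088324) (nat_lit 89478486)) T0.l9
  TrL.n)))) (by decide +kernel)
theorem bx1_3 : BoxOK sI cl13 cl4 cl13 t0 t2 b1_3 :=
  box_mk (TrL.c (I.pos (nat_lit 0) (nat_lit 0)) (xb (xa T0.l4 T0.l4) (xa (xb T0.l4 T0.l4) T0.l4))
  (TrL.c (I.pos (nat_lit 0) (nat_lit 0)) T2.l1
  (TrL.c (I.pos (nat_lit 0) (nat_lit 134217730)) (xR T0.l1 T0.l11)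
  (TrL.c (I.pos (nat_lit 0) (nat_lit 110514882)) (xR T2.l2 T2.l2)
  (TrL.c (I.pos (nat_lit 0) (nat_lit 0)) (xb (xa T2.l5 (xk T2.l5 T2.l5)) (xa T2.l5 (xk T2.l5 (xb T2.l3 T2.l3))))
  (TrL.c (I.pos (nat_lit 0) (nat_lit 0)) T0.l2
  (TrL.c (I.mix (nat_lit 8088324) (nat_lit 110514882)) (xR T2.l4 T2.l4)
  (TrL.c (I.mix (nat_lit 8088324) (nat_lit 89478486)) T0.l9
  TrL.n)))))))) (by decide +kernel)
theorem bx1_4 : BoxOK sI cl13 cl4 cl13 t0 t2 b1_4 :=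
  box_mk (TrL.c (I.pos (nat_lit 0) (nat_lit 0)) (xb T0.l7 T0.l4)
  (TrL.c (I.pos (nat_lit 0) (nat_lit 0)) T2.l1
  (TrL.c (I.pos (nat_lit 0) (nat_lit 134217730)) T0.l1
  (TrL.c (I.pos (nat_lit 0) (nat_lit 110514882)) T2.l4
  (TrL.c (I.pos (nat_lit 0) (nat_lit 0)) T2.l5
  (TrL.c (I.pos (nat_lit 0) (nat_lit 0)) T0.l2
  (TrL.c (I.mix (nat_lit 8088324) (nat_lit 110514882)) T2.l4
  (TrL.c (I.mix (nat_lit 8088324) (nat_lit 89478486)) T0.l1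
  TrL.n)))))))) (by decide +kernel)
theorem bx1_5 : BoxOK sI cl13 cl4 cl13 t0 t2 b1_5 :=
  box_mk (TrL.c (I.pos (nat_lit 0) (nat_lit 0)) T2.l1
  (TrL.c (I.pos (nat_lit 0) (nat_lit 0)) T0.l11
  (TrL.c (I.mix (nat_lit 8088324) (nat_lit 110514882)) (xR T2.l7 T2.l7)
  (TrL.c (I.mix (nat_lit 8088324) (nat_lit 89478486)) T0.l9
  TrL.n)))) (by decide +kernel)
theorem bx1_6 : BoxOK sI cl13 cl4 cl13 t0 t2 b1_6 :=
  box_mk (TrL.c (I.pos (nat_lit 0) (nat_lit 0)) (xa (xb T0.l0 T0.l0) T0.l0)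
  (TrL.c (I.pos (nat_lit 0) (nat_lit 0)) T2.l1
  (TrL.c (I.pos (nat_lit 0) (nat_lit 134217730)) (xR T0.l1 T0.l11)
  (TrL.c (I.pos (nat_lit 0) (nat_lit 110514882)) (xR T2.l2 T2.l2)
  (TrL.c (I.pos (nat_lit 0) (nat_lit 0)) (xa (xb (xk (xa T2.l3 T2.l3) (xa T2.l3 T2.l3)) (xk T2.l3 T2.l3)) (xb (xk (xa T2.l3 T2.l3) (xa T2.l3 T2.l3)) (xk (xa T2.l3 T2.l3) (xa T2.l3 T2.l3))))
  (TrL.c (I.pos (nat_lit 0) (nat_lit 0)) T0.l2
  (TrL.c (I.mix (nat_lit 8088324) (nat_lit 110514882)) (xR T2.l4 T2.l4)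
  (TrL.c (I.mix (nat_lit 8088324) (nat_lit 89478486)) T0.l9
  TrL.n)))))))) (by decide +kernel)
theorem bx1_7 : BoxOK sI cl13 cl4 cl13 t0 t2 b1_7 :=
  box_mk (TrL.c (I.pos (nat_lit 0) (nat_lit 0)) (xb (xa T0.l7 T0.l7) (xa T0.l7 T0.l7))
  (TrL.c (I.pos (nat_lit 0) (nat_lit 0)) T2.l6
  (TrL.c (I.pos (nat_lit 0) (nat_lit 134217730)) T0.l1
  (TrL.c (I.pos (nat_lit 0) (nat_lit 110514882)) T2.l4
  (TrL.c (I.pos (nat_lit 0) (nat_lit 0)) T2.l8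
  (TrL.c (I.pos (nat_lit 0) (nat_lit 0)) T0.l2
  (TrL.c (I.mix (nat_lit 8088324) (nat_lit 110514882)) T2.l4
  (TrL.c (I.mix (nat_lit 8088324) (nat_lit 89478486)) T0.l1
  TrL.n)))))))) (by decide +kernel)
theorem bx1_8 : BoxOK sI cl13 cl4 cl13 t0 t2 b1_8 :=
  box_mk (TrL.c (I.pos (nat_lit 0) (nat_lit 0)) T0.l0
  (TrL.c (I.pos (nat_lit 0) (nat_lit 0)) T2.l1
  (TrL.c (I.pos (nat_lit 0) (nat_lit 134217730)) (xR T0.l1 T0.l11)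
  (TrL.c (I.pos (nat_lit 0) (nat_lit 110514882)) (xR T2.l2 T2.l2)
  (TrL.c (I.pos (nat_lit 0) (nat_lit 0)) (xk T2.l3 T2.l3)
  (TrL.c (I.pos (nat_lit 0) (nat_lit 0)) T0.l2
  (TrL.c (I.mix (nat_lit 8088324) (nat_lit 110514882)) T2.l4
  (TrL.c (I.mix (nat_lit 8088324) (nat_lit 89478486)) T0.l9
  TrL.n)))))))) (by decide +kernel)
theorem bx1_9 : BoxOK sI cl13 cl4 cl13 t0 t2 b1_9 :=
  box_mk (TrL.c (I.pos (nat_lit 0) (nat_lit 0)) T0.l4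
  (TrL.c (I.pos (nat_lit 0) (nat_lit 0)) T2.l1
  (TrL.c (I.pos (nat_lit 0) (nat_lit 134217730)) T0.l1
  (TrL.c (I.pos (nat_lit 0) (nat_lit 110514882)) T2.l4
  (TrL.c (I.pos (nat_lit 0) (nat_lit 0)) T2.l5
  (TrL.c (I.pos (nat_lit 0) (nat_lit 0)) T0.l2
  (TrL.c (I.mix (nat_lit 8088324) (nat_lit 110514882)) T2.l4
  (TrL.c (I.mix (nat_lit 8088324) (nat_lit 89478486)) T0.l3
  TrL.n)))))))) (by decide +kernel)
theorem sv1 : StarV sI cl13 cl4 cl13 t0 t2 t1 :=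
  (bt_n (bt_n (bt_n (bt_b bx1_0) (bt_b bx1_1)) (bt_n (bt_b bx1_2) (bt_n (bt_b bx1_3) (bt_b bx1_4)))) (bt_n (bt_n (bt_b bx1_5) (bt_b bx1_6)) (bt_n (bt_b bx1_7) (bt_n (bt_b bx1_8) (bt_b bx1_9)))))
def S1 : StarD := StarD.mk cl13 cl4 cl13 0 2 t1
theorem bx2_0 : BoxOK sI cl13 cl13 cl4 t2 t0 b2_0 :=
  box_mk (TrL.c (I.pos (nat_lit 0) (nat_lit 0)) (xa (xa (xb T2.l0 T2.l0) (xb T2.l0 T2.l0)) (xa (xb T2.l0 T2.l0) (xb T2.l0 T2.l0)))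
  (TrL.c (I.pos (nat_lit 0) (nat_lit 0)) T0.l8
  (TrL.c (I.pos (nat_lit 0) (nat_lit 134217730)) (xR T2.l4 (xR T2.l9 T2.l9))
  (TrL.c (I.pos (nat_lit 0) (nat_lit 110514882)) (xR T0.l9 T0.l9)
  (TrL.c (I.pos (nat_lit 0) (nat_lit 0)) (xa (xk T0.l10 T0.l10) (xk (xa T0.l10 T0.l10) T0.l10))
  (TrL.c (I.pos (nat_lit 0) (nat_lit 0)) T2.l10
  (TrL.c (I.mix (nat_lit 8088324) (nat_lit 110514882)) (xR T0.l11 T0.l11)
  (TrL.c (I.mix (nat_lit 8088324) (nat_lit 89478486)) (xR T2.l12 T2.l12)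
  TrL.n)))))))) (by decide +kernel)
theorem bx2_1 : BoxOK sI cl13 cl13 cl4 t2 t0 b2_1 :=
  box_mk (TrL.c (I.pos (nat_lit 0) (nat_lit 0)) (xa (xb T2.l11 T2.l11) T2.l0)
  (TrL.c (I.pos (nat_lit 0) (nat_lit 0)) T0.l8
  (TrL.c (I.pos (nat_lit 0) (nat_lit 134217730)) (xR T2.l4 T2.l9)
  (TrL.c (I.pos (nat_lit 0) (nat_lit 110514882)) (xR T0.l9 T0.l9)
  (TrL.c (I.pos (nat_lit 0) (nat_lit 0)) (xa T0.l12 (xk T0.l12 T0.l12))
  (TrL.c (I.pos (nat_lit 0) (nat_lit 0)) T2.l10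
  (TrL.c (I.mix (nat_lit 8088324) (nat_lit 110514882)) (xR T0.l11 T0.l11)
  (TrL.c (I.mix (nat_lit 8088324) (nat_lit 89478486)) T2.l2
  TrL.n)))))))) (by decide +kernel)
theorem bx2_2 : BoxOK sI cl13 cl13 cl4 t2 t0 b2_2 :=
  box_mk (TrL.c (I.pos (nat_lit 0) (nat_lit 0)) (xa (xa T2.l11 T2.l11) T2.l11)
  (TrL.c (I.pos (nat_lit 0) (nat_lit 0)) (xa T0.l8 T0.l8)
  (TrL.c (I.pos (nat_lit 0) (nat_lit 134217730)) (xR T2.l4 T2.l9)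
  (TrL.c (I.pos (nat_lit 0) (nat_lit 110514882)) T0.l9
  (TrL.c (I.pos (nat_lit 0) (nat_lit 0)) (xa T0.l12 T0.l12)
  (TrL.c (I.pos (nat_lit 0) (nat_lit 0)) T2.l10
  (TrL.c (I.mix (nat_lit 8088324) (nat_lit 110514882)) T0.l11
  (TrL.c (I.mix (nat_lit 8088324) (nat_lit 89478486)) T2.l12
  TrL.n)))))))) (by decide +kernel)
theorem bx2_3 : BoxOK sI cl13 cl13 cl4 t2 t0 b2_3 :=
  box_mk (TrL.c (I.pos (nat_lit 0) (nat_lit 0)) (xb (xa T2.l13 T2.l13) (xa (xs T2.l13 T2.l13) T2.l13))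
  (TrL.c (I.pos (nat_lit 0) (nat_lit 0)) T0.l8
  (TrL.c (I.pos (nat_lit 0) (nat_lit 134217730)) (xR T2.l4 T2.l9)
  (TrL.c (I.pos (nat_lit 0) (nat_lit 110514882)) (xR T0.l9 T0.l9)
  (TrL.c (I.pos (nat_lit 0) (nat_lit 0)) (xk (xb T0.l13 T0.l13) (xb T0.l13 T0.l13))
  (TrL.c (I.pos (nat_lit 0) (nat_lit 0)) T2.l10
  (TrL.c (I.mix (nat_lit 8088324) (nat_lit 110514882)) (xR T0.l11 T0.l11)
  (TrL.c (I.mix (nat_lit 8088324) (nat_lit 89478486)) (xR T2.l12 T2.l12)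
  TrL.n)))))))) (by decide +kernel)
theorem bx2_4 : BoxOK sI cl13 cl13 cl4 t2 t0 b2_4 :=
  box_mk (TrL.c (I.pos (nat_lit 0) (nat_lit 0)) (xa (xa (xb (xa T2.l11 T2.l11) (xa T2.l11 T2.l11)) (xb T2.l11 (xa T2.l11 T2.l11))) (xa (xa T2.l11 (xb T2.l11 T2.l11)) (xa (xb T2.l11 T2.l11) (xb T2.l11 T2.l11))))
  (TrL.c (I.pos (nat_lit 0) (nat_lit 0)) (xa T0.l8 T0.l8)
  (TrL.c (I.pos (nat_lit 0) (nat_lit 134217730)) (xR T2.l4 T2.l9)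
  (TrL.c (I.pos (nat_lit 0) (nat_lit 110514882)) T0.l9
  (TrL.c (I.pos (nat_lit 0) (nat_lit 0)) (xa T0.l12 T0.l12)
  (TrL.c (I.pos (nat_lit 0) (nat_lit 0)) T2.l10
  (TrL.c (I.mix (nat_lit 8088324) (nat_lit 110514882)) T0.l11
  (TrL.c (I.mix (nat_lit 8088324) (nat_lit 89478486)) T2.l12
  TrL.n)))))))) (by decide +kernel)
theorem bx2_5 : BoxOK sI cl13 cl13 cl4 t2 t0 b2_5 :=
  box_mk (TrL.c (I.pos (nat_lit 0) (nat_lit 0)) (xb (xa T2.l0 T2.l0) (xa T2.l13 T2.l13))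
  (TrL.c (I.pos (nat_lit 0) (nat_lit 0)) T0.l8
  (TrL.c (I.pos (nat_lit 0) (nat_lit 134217730)) (xR T2.l4 T2.l4)
  (TrL.c (I.pos (nat_lit 0) (nat_lit 110514882)) (xR T0.l9 T0.l9)
  (TrL.c (I.pos (nat_lit 0) (nat_lit 0)) (xk (xb T0.l13 T0.l13) (xb T0.l13 T0.l13))
  (TrL.c (I.pos (nat_lit 0) (nat_lit 0)) T2.l10
  (TrL.c (I.mix (nat_lit 8088324) (nat_lit 110514882)) (xR T0.l11 T0.l11)
  (TrL.c (I.mix (nat_lit 8088324) (nat_lit 89478486)) (xR T2.l12 T2.l2)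
  TrL.n)))))))) (by decide +kernel)
theorem bx2_6 : BoxOK sI cl13 cl13 cl4 t2 t0 b2_6 :=
  box_mk (TrL.c (I.pos (nat_lit 0) (nat_lit 0)) T2.l0
  (TrL.c (I.pos (nat_lit 0) (nat_lit 0)) T0.l8
  (TrL.c (I.pos (nat_lit 0) (nat_lit 134217730)) (xR T2.l4 T2.l9)
  (TrL.c (I.pos (nat_lit 0) (nat_lit 110514882)) (xR T0.l9 T0.l9)
  (TrL.c (I.pos (nat_lit 0) (nat_lit 0)) T0.l12
  (TrL.c (I.pos (nat_lit 0) (nat_lit 0)) T2.l10
  (TrL.c (I.mix (nat_lit 8088324) (nat_lit 110514882)) (xR T0.l11 T0.l11)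
  (TrL.c (I.mix (nat_lit 8088324) (nat_lit 89478486)) T2.l12
  TrL.n)))))))) (by decide +kernel)
theorem bx2_7 : BoxOK sI cl13 cl13 cl4 t2 t0 b2_7 :=
  box_mk (TrL.c (I.pos (nat_lit 0) (nat_lit 0)) (xa T2.l11 (xa T2.l11 T2.l11))
  (TrL.c (I.pos (nat_lit 0) (nat_lit 0)) (xa T0.l8 T0.l8)
  (TrL.c (I.pos (nat_lit 0) (nat_lit 134217730)) (xR T2.l4 T2.l9)
  (TrL.c (I.pos (nat_lit 0) (nat_lit 110514882)) T0.l9
  (TrL.c (I.pos (nat_lit 0) (nat_lit 0)) (xa T0.l12 T0.l12)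
  (TrL.c (I.pos (nat_lit 0) (nat_lit 0)) T2.l10
  (TrL.c (I.mix (nat_lit 8088324) (nat_lit 110514882)) T0.l11
  (TrL.c (I.mix (nat_lit 8088324) (nat_lit 89478486)) T2.l12
  TrL.n)))))))) (by decide +kernel)
theorem bx2_8 : BoxOK sI cl13 cl13 cl4 t2 t0 b2_8 :=
  box_mk (TrL.c (I.pos (nat_lit 0) (nat_lit 0)) T2.l13
  (TrL.c (I.pos (nat_lit 0) (nat_lit 0)) T0.l8
  (TrL.c (I.pos (nat_lit 0) (nat_lit 134217730)) (xR T2.l4 T2.l9)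
  (TrL.c (I.pos (nat_lit 0) (nat_lit 110514882)) (xR T0.l9 T0.l9)
  (TrL.c (I.pos (nat_lit 0) (nat_lit 0)) T0.l13
  (TrL.c (I.pos (nat_lit 0) (nat_lit 0)) T2.l10
  (TrL.c (I.mix (nat_lit 8088324) (nat_lit 110514882)) (xR T0.l11 T0.l11)
  (TrL.c (I.mix (nat_lit 8088324) (nat_lit 89478486)) T2.l2
  TrL.n)))))))) (by decide +kernel)
theorem bx2_9 : BoxOK sI cl13 cl13 cl4 t2 t0 b2_9 :=
  box_mk (TrL.c (I.pos (nat_lit 0) (nat_lit 0)) (xa (xa T2.l11 T2.l11) (xa T2.l11 T2.l11))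
  (TrL.c (I.pos (nat_lit 0) (nat_lit 0)) T0.l8
  (TrL.c (I.pos (nat_lit 0) (nat_lit 134217730)) (xR T2.l4 T2.l9)
  (TrL.c (I.pos (nat_lit 0) (nat_lit 110514882)) T0.l9
  (TrL.c (I.pos (nat_lit 0) (nat_lit 0)) T0.l12
  (TrL.c (I.pos (nat_lit 0) (nat_lit 0)) T2.l10
  (TrL.c (I.mix (nat_lit 8088324) (nat_lit 110514882)) T0.l11
  (TrL.c (I.mix (nat_lit 8088324) (nat_lit 89478486)) T2.l12
  TrL.n)))))))) (by decide +kernel)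
theorem bx2_10 : BoxOK sI cl13 cl13 cl4 t2 t0 b2_10 :=
  box_mk (TrL.c (I.pos (nat_lit 0) (nat_lit 0)) (xb (xa T2.l11 T2.l11) (xa T2.l11 T2.l11))
  (TrL.c (I.pos (nat_lit 0) (nat_lit 0)) T0.l8
  (TrL.c (I.pos (nat_lit 0) (nat_lit 134217730)) (xR T2.l4 T2.l9)
  (TrL.c (I.pos (nat_lit 0) (nat_lit 110514882)) (xR T0.l9 T0.l9)
  (TrL.c (I.pos (nat_lit 0) (nat_lit 0)) (xb (xa T0.l12 T0.l12) T0.l12)
  (TrL.c (I.pos (nat_lit 0) (nat_lit 0)) T2.l10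
  (TrL.c (I.mix (nat_lit 8088324) (nat_lit 110514882)) (xR T0.l11 T0.l11)
  (TrL.c (I.mix (nat_lit 8088324) (nat_lit 89478486)) T2.l12
  TrL.n)))))))) (by decide +kernel)
theorem bx2_11 : BoxOK sI cl13 cl13 cl4 t2 t0 b2_11 :=
  box_mk (TrL.c (I.pos (nat_lit 0) (nat_lit 0)) (xa (xa T2.l0 T2.l0) (xa T2.l0 T2.l0))
  (TrL.c (I.pos (nat_lit 0) (nat_lit 0)) T0.l8
  (TrL.c (I.pos (nat_lit 0) (nat_lit 134217730)) (xR T2.l4 T2.l4)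
  (TrL.c (I.pos (nat_lit 0) (nat_lit 110514882)) (xR T0.l9 T0.l9)
  (TrL.c (I.pos (nat_lit 0) (nat_lit 0)) (xa (xk (xb T0.l10 T0.l10) (xb T0.l10 T0.l10)) (xk (xb (xa T0.l10 T0.l10) (xa T0.l10 T0.l10)) (xb (xa T0.l10 T0.l10) (xa T0.l10 T0.l10))))
  (TrL.c (I.pos (nat_lit 0) (nat_lit 0)) T2.l10
  (TrL.c (I.mix (nat_lit 8088324) (nat_lit 110514882)) (xR T0.l11 T0.l11)
  (TrL.c (I.mix (nat_lit 8088324) (nat_lit 89478486)) (xR T2.l12 T2.l12)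
  TrL.n)))))))) (by decide +kernel)
theorem bx2_12 : BoxOK sI cl13 cl13 cl4 t2 t0 b2_12 :=
  box_mk (TrL.c (I.pos (nat_lit 0) (nat_lit 0)) (xa (xa (xa T2.l11 T2.l11) T2.l11) (xa T2.l11 T2.l11))
  (TrL.c (I.pos (nat_lit 0) (nat_lit 0)) (xa T0.l8 T0.l8)
  (TrL.c (I.pos (nat_lit 0) (nat_lit 134217730)) (xR T2.l4 T2.l9)
  (TrL.c (I.pos (nat_lit 0) (nat_lit 110514882)) T0.l9
  (TrL.c (I.pos (nat_lit 0) (nat_lit 0)) (xa T0.l12 T0.l12)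
  (TrL.c (I.pos (nat_lit 0) (nat_lit 0)) T2.l10
  (TrL.c (I.mix (nat_lit 8088324) (nat_lit 110514882)) T0.l11
  (TrL.c (I.mix (nat_lit 8088324) (nat_lit 89478486)) T2.l12
  TrL.n)))))))) (by decide +kernel)
theorem bx2_13 : BoxOK sI cl13 cl13 cl4 t2 t0 b2_13 :=
  box_mk (TrL.c (I.pos (nat_lit 0) (nat_lit 0)) (xa (xb T2.l0 T2.l0) T2.l0)
  (TrL.c (I.pos (nat_lit 0) (nat_lit 0)) T0.l8
  (TrL.c (I.pos (nat_lit 0) (nat_lit 134217730)) (xR T2.l4 (xR T2.l9 T2.l9))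
  (TrL.c (I.pos (nat_lit 0) (nat_lit 110514882)) (xR T0.l9 T0.l9)
  (TrL.c (I.pos (nat_lit 0) (nat_lit 0)) (xk T0.l10 T0.l10)
  (TrL.c (I.pos (nat_lit 0) (nat_lit 0)) T2.l10
  (TrL.c (I.mix (nat_lit 8088324) (nat_lit 110514882)) (xR T0.l11 T0.l11)
  (TrL.c (I.mix (nat_lit 8088324) (nat_lit 89478486)) (xR T2.l12 T2.l12)
  TrL.n)))))))) (by decide +kernel)
theorem sv2 : StarV sI cl13 cl13 cl4 t2 t0 t2 :=
  (bt_n (bt_n (bt_n (bt_b bx2_0) (bt_n (bt_b bx2_1) (bt_b bx2_2))) (bt_n (bt_n (bt_b bx2_3) (bt_b bx2_4)) (bt_n (bt_b bx2_5) (bt_b bx2_6)))) (bt_n (bt_n (bt_b bx2_7) (bt_n (bt_b bx2_8) (bt_b bx2_9))) (bt_n (bt_n (bt_b bx2_10) (bt_b bx2_11)) (bt_n (bt_b bx2_12) (bt_b bx2_13)))))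
def S2 : StarD := StarD.mk cl13 cl13 cl4 2 0 t2
def G : List StarD := [S0, S1, S2]
theorem so0 : StarOK sI G S0 :=
  star_mk (by decide) (by decide) rfl rfl rfl rfl rfl rfl (rfl : _ = t1) (rfl : _ = t1)
  (st_mk (Pth.l (Pth.l (Pth.l Pth.z))) (nat_lit 97918048) (nat_lit 117242085) (by decide +kernel))
  (st_mk (Pth.l (Pth.l (Pth.l Pth.z))) (nat_lit 134656613) (nat_lit 154659869) (by decide +kernel))
  (st_mk (Pth.l (Pth.l (Pth.l Pth.z))) (nat_lit 177824732) (nat_lit 198796362) (by decide +kernel)) sv0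
theorem so1 : StarOK sI G S1 :=
  star_mk (by decide) (by decide) rfl rfl rfl rfl rfl rfl (rfl : _ = t0) (rfl : _ = t2)
  (st_mk (Pth.l (Pth.l (Pth.l Pth.z))) (nat_lit 364798899) (nat_lit 367398642) (by decide +kernel))
  (st_mk (Pth.l (Pth.l (Pth.l Pth.z))) (nat_lit 399695508) (nat_lit 402709622) (by decide +kernel))
  (st_mk (Pth.l (Pth.l (Pth.l Pth.z))) (nat_lit 439960827) (nat_lit 443500960) (by decide +kernel)) sv1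
theorem so2 : StarOK sI G S2 :=
  star_mk (by decide) (by decide) rfl rfl rfl rfl rfl rfl (rfl : _ = t2) (rfl : _ = t0)
  (st_mk (Pth.l (Pth.l (Pth.l Pth.z))) (nat_lit 95831458) (nat_lit 114235664) (by decide +kernel))
  (st_mk (Pth.l (Pth.l (Pth.l Pth.z))) (nat_lit 130728068) (nat_lit 149399554) (by decide +kernel))
  (st_mk (Pth.l (Pth.l (Pth.l Pth.z))) (nat_lit 170993386) (nat_lit 190063406) (by decide +kernel)) sv2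
theorem ok : GroupOK (nat_lit 91226112) (nat_lit 150339584) G := grp_mk (allS_c so0 (allS_c so1 (allS_c so2 allS_n)))
theorem cov : GCov G cl4 cl13 cl13 := cov_mk
  ⟨0, by decide, rfl, rfl, rfl⟩ ⟨0, by decide, rfl, rfl, rfl⟩ ⟨1, by decide, rfl, rfl, rfl⟩ ⟨2, by decide, rfl, rfl, rfl⟩ ⟨1, by decide, rfl, rfl, rfl⟩ ⟨2, by decide, rfl, rfl, rfl⟩
end Q166_1

namespace Q166_2
def sI : I := I.pos (nat_lit 150274048) (nat_lit 209387520)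
def b0_0 : Bx := Bx.mk (St.mk (I.pos (nat_lit 158269440) (nat_lit 239861760)) (I.mix (nat_lit 1720320) (nat_lit 52527104)) (I.mix (nat_lit 1933312) (nat_lit 61079552)) (I.pos (nat_lit 94208000) (nat_lit 239697920)) (I.mix (nat_lit 87719936) (nat_lit 56328192)) (I.mix (nat_lit 55672832) (nat_lit 52658176)) (I.mix (nat_lit 84049920) (nat_lit 74498048)))
  false (nat_lit 16857794)
def b0_1 : Bx := Bx.mk (St.mk (I.mix (nat_lit 7651328) (nat_lit 138182656)) (I.mix (nat_lit 5390336) (nat_lit 21692416)) (I.mix (nat_lit 20643840) (nat_lit 7028736)) (I.mix (nat_lit 3063808) (nat_lit 86179840)) (I.mix (nat_lit 27590656) (nat_lit 35520512)) (I.mix (nat_lit 28983296) (nat_lit 22298624)) (I.mix (nat_lit 25182208) (nat_lit 18432000)))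
  false (nat_lit 0)
def b0_2 : Bx := Bx.mk (St.mk (I.pos (nat_lit 114491392) (nat_lit 150585344)) (I.mix (nat_lit 38486016) (nat_lit 7602176)) (I.neg (nat_lit 4276224) (nat_lit 54886400)) (I.pos (nat_lit 49889280) (nat_lit 98189312)) (I.mix (nat_lit 81264640) (nat_lit 33456128)) (I.mix (nat_lit 33259520) (nat_lit 77250560)) (I.mix (nat_lit 26083328) (nat_lit 74825728)))
  false (nat_lit 4046580)
def b0_3 : Bx := Bx.mk (St.mk (I.mix (nat_lit 11894784) (nat_lit 103268352)) (I.mix (nat_lit 20955136) (nat_lit 1540096)) (I.mix (nat_lit 24182784) (nat_lit 1261568)) (I.mix (nat_lit 2162688) (nat_lit 54951936)) (I.mix (nat_lit 35078144) (nat_lit 13385728)) (I.mix (nat_lit 13402112) (nat_lit 30212096)) (I.mix (nat_lit 6946816) (nat_lit 20447232)))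
  false (nat_lit 0)
def b0_4 : Bx := Bx.mk (St.mk (I.pos (nat_lit 198705152) (nat_lit 253231104)) (I.mix (nat_lit 13336576) (nat_lit 53100544)) (I.mix (nat_lit 68616192) (nat_lit 58015744)) (I.pos (nat_lit 179994624) (nat_lit 258539520)) (I.mix (nat_lit 92651520) (nat_lit 80871424)) (I.mix (nat_lit 82542592) (nat_lit 68157440)) (I.mix (nat_lit 136757248) (nat_lit 113491968)))
  false (nat_lit 51308894)
def b0_5 : Bx := Bx.mk (St.mk (I.pos (nat_lit 108331008) (nat_lit 134840320)) (I.mix (nat_lit 7536640) (nat_lit 10371072)) (I.neg (nat_lit 2179072) (nat_lit 22839296)) (I.pos (nat_lit 47415296) (nat_lit 84705280)) (I.mix (nat_lit 29097984) (nat_lit 18989056)) (I.mix (nat_lit 19382272) (nat_lit 19775488)) (I.mix (nat_lit 15368192) (nat_lit 20103168)))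
  false (nat_lit 0)
def b0_6 : Bx := Bx.mk (St.mk (I.mix (nat_lit 14024704) (nat_lit 91734016)) (I.mix (nat_lit 1720320) (nat_lit 2408448)) (I.mix (nat_lit 9682944) (nat_lit 835584)) (I.mix (nat_lit 1916928) (nat_lit 46694400)) (I.mix (nat_lit 6275072) (nat_lit 3440640)) (I.mix (nat_lit 3014656) (nat_lit 2949120)) (I.mix (nat_lit 933888) (nat_lit 2195456)))
  false (nat_lit 0)
def b0_7 : Bx := Bx.mk (St.mk (I.pos (nat_lit 217841664) (nat_lit 259604480)) (I.mix (nat_lit 14073856) (nat_lit 16138240)) (I.neg (nat_lit 14204928) (nat_lit 74694656)) (I.pos (nat_lit 198164480) (nat_lit 276021248)) (I.mix (nat_lit 86310912) (nat_lit 23642112)) (I.mix (nat_lit 48955392) (nat_lit 50888704)) (I.mix (nat_lit 71630848) (nat_lit 98697216)))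
  false (nat_lit 0)
def b0_8 : Bx := Bx.mk (St.mk (I.pos (nat_lit 116703232) (nat_lit 181501952)) (I.neg (nat_lit 3407872) (nat_lit 40927232)) (I.neg (nat_lit 15466496) (nat_lit 56082432)) (I.pos (nat_lit 61964288) (nat_lit 139526144)) (I.mix (nat_lit 68288512) (nat_lit 35782656)) (I.mix (nat_lit 37437440) (nat_lit 53395456)) (I.mix (nat_lit 33423360) (nat_lit 57507840)))
  false (nat_lit 20178937)
def b0_9 : Bx := Bx.mk (St.mk (I.mix (nat_lit 8978432) (nat_lit 115703808)) (I.mix (nat_lit 22265856) (nat_lit 3440640)) (I.mix (nat_lit 23674880) (nat_lit 1245184)) (I.mix (nat_lit 2457600) (nat_lit 65208320)) (I.mix (nat_lit 34308096) (nat_lit 21577728)) (I.mix (nat_lit 19152896) (nat_lit 29442048)) (I.mix (nat_lit 11288576) (nat_lit 21430272)))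
  false (nat_lit 2164447)
def b0_10 : Bx := Bx.mk (St.mk (I.pos (nat_lit 177684480) (nat_lit 222707712)) (I.mix (nat_lit 13238272) (nat_lit 50544640)) (I.mix (nat_lit 23363584) (nat_lit 58769408)) (I.pos (nat_lit 129564672) (nat_lit 208420864)) (I.mix (nat_lit 114081792) (nat_lit 57311232)) (I.mix (nat_lit 112230400) (nat_lit 76595200)) (I.mix (nat_lit 126140416) (nat_lit 86753280)))
  false (nat_lit 2265609)
def b0_11 : Bx := Bx.mk (St.mk (I.mix (nat_lit 13287424) (nat_lit 137691136)) (I.mix (nat_lit 11649024) (nat_lit 26705920)) (I.mix (nat_lit 19087360) (nat_lit 11599872)) (I.mix (nat_lit 3031040) (nat_lit 85114880)) (I.mix (nat_lit 42024960) (nat_lit 34095104)) (I.mix (nat_lit 41746432) (nat_lit 29786112)) (I.mix (nat_lit 28065792) (nat_lit 20578304)))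
  false (nat_lit 15161548)
def b0_12 : Bx := Bx.mk (St.mk (I.pos (nat_lit 154894336) (nat_lit 215990272)) (I.mix (nat_lit 34816000) (nat_lit 13221888)) (I.mix (nat_lit 57327616) (nat_lit 4079616)) (I.pos (nat_lit 94535680) (nat_lit 189333504)) (I.mix (nat_lit 64929792) (nat_lit 57737216)) (I.mix (nat_lit 62259200) (nat_lit 59785216)) (I.mix (nat_lit 68190208) (nat_lit 63930368)))
  false (nat_lit 53208815)
def b0_13 : Bx := Bx.mk (St.mk (I.pos (nat_lit 177700864) (nat_lit 217120768)) (I.mix (nat_lit 18186240) (nat_lit 27262976)) (I.mix (nat_lit 32735232) (nat_lit 26198016)) (I.pos (nat_lit 130531328) (nat_lit 192086016)) (I.mix (nat_lit 98877440) (nat_lit 75956224)) (I.mix (nat_lit 112820224) (nat_lit 75743232)) (I.mix (nat_lit 127565824) (nat_lit 80379904)))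
  false (nat_lit 0)
def t0 : BTr := (BTr.n (BTr.n (BTr.n (BTr.b b0_0) (BTr.n (BTr.b b0_1) (BTr.b b0_2))) (BTr.n (BTr.n (BTr.b b0_3) (BTr.b b0_4)) (BTr.n (BTr.b b0_5) (BTr.b b0_6)))) (BTr.n (BTr.n (BTr.b b0_7) (BTr.n (BTr.b b0_8) (BTr.b b0_9))) (BTr.n (BTr.n (BTr.b b0_10) (BTr.b b0_11)) (BTr.n (BTr.b b0_12) (BTr.b b0_13)))))
namespace T0
def l0 : Tr := Tr.L (Pth.l (Pth.l (Pth.l Pth.z)))
def l1 : Tr := Tr.L (Pth.l (Pth.l (Pth.r (Pth.l Pth.z))))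
def l2 : Tr := Tr.L (Pth.l (Pth.l (Pth.r (Pth.r Pth.z))))
def l3 : Tr := Tr.L (Pth.l (Pth.r (Pth.l (Pth.l Pth.z))))
def l4 : Tr := Tr.L (Pth.l (Pth.r (Pth.l (Pth.r Pth.z))))
def l5 : Tr := Tr.L (Pth.l (Pth.r (Pth.r (Pth.l Pth.z))))
def l6 : Tr := Tr.L (Pth.l (Pth.r (Pth.r (Pth.r Pth.z))))
def l7 : Tr := Tr.L (Pth.r (Pth.l (Pth.l Pth.z)))
def l8 : Tr := Tr.L (Pth.r (Pth.l (Pth.r (Pth.l Pth.z))))
def l9 : Tr := Tr.L (Pth.r (Pth.l (Pth.r (Pth.r Pth.z))))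
def l10 : Tr := Tr.L (Pth.r (Pth.r (Pth.l (Pth.l Pth.z))))
def l11 : Tr := Tr.L (Pth.r (Pth.r (Pth.l (Pth.r Pth.z))))
def l12 : Tr := Tr.L (Pth.r (Pth.r (Pth.r (Pth.l Pth.z))))
def l13 : Tr := Tr.L (Pth.r (Pth.r (Pth.r (Pth.r Pth.z))))
end T0
def b1_0 : Bx := Bx.mk (St.mk (I.pos (nat_lit 138215424) (nat_lit 217841664)) (I.mix (nat_lit 2785280) (nat_lit 92258304)) (I.mix (nat_lit 3112960) (nat_lit 101122048)) (I.pos (nat_lit 361693184) (nat_lit 453623808)) (I.mix (nat_lit 152010752) (nat_lit 79495168)) (I.mix (nat_lit 89063424) (nat_lit 76922880)) (I.mix (nat_lit 96763904) (nat_lit 101531648)))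
  false (nat_lit 193195121)
def b1_1 : Bx := Bx.mk (St.mk (I.pos (nat_lit 23461888) (nat_lit 121782272)) (I.neg (nat_lit 9568256) (nat_lit 88047616)) (I.mix (nat_lit 74547200) (nat_lit 4636672)) (I.pos (nat_lit 264486912) (nat_lit 326729728)) (I.mix (nat_lit 104185856) (nat_lit 67616768)) (I.mix (nat_lit 63832064) (nat_lit 74366976)) (I.mix (nat_lit 67665920) (nat_lit 63225856)))
  false (nat_lit 87157994)
def b1_2 : Bx := Bx.mk (St.mk (I.mix (nat_lit 57442304) (nat_lit 10715136)) (I.mix (nat_lit 9535488) (nat_lit 87080960)) (I.neg (nat_lit 36569088) (nat_lit 64798720)) (I.pos (nat_lit 259719168) (nat_lit 290308096)) (I.mix (nat_lit 52609024) (nat_lit 104611840)) (I.mix (nat_lit 83705856) (nat_lit 61800448)) (I.mix (nat_lit 39124992) (nat_lit 28475392)))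
  true (nat_lit 0)
def b1_3 : Bx := Bx.mk (St.mk (I.pos (nat_lit 98582528) (nat_lit 189415424)) (I.mix (nat_lit 36208640) (nat_lit 88997888)) (I.mix (nat_lit 28819456) (nat_lit 105496576)) (I.pos (nat_lit 301629440) (nat_lit 421183488)) (I.mix (nat_lit 164642816) (nat_lit 80887808)) (I.mix (nat_lit 133529600) (nat_lit 101711872)) (I.mix (nat_lit 136101888) (nat_lit 123240448)))
  false (nat_lit 111136781)
def b1_4 : Bx := Bx.mk (St.mk (I.pos (nat_lit 14516224) (nat_lit 56705024)) (I.neg (nat_lit 32522240) (nat_lit 87080960)) (I.neg (nat_lit 37666816) (nat_lit 64765952)) (I.pos (nat_lit 264749056) (nat_lit 290160640)) (I.mix (nat_lit 102694912) (nat_lit 46317568)) (I.mix (nat_lit 61800448) (nat_lit 70516736)) (I.mix (nat_lit 38387712) (nat_lit 27934720)))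
  false (nat_lit 22975190)
def b1_5 : Bx := Bx.mk (St.mk (I.neg (nat_lit 23445504) (nat_lit 121782272)) (I.pos (nat_lit 9568256) (nat_lit 88047616)) (I.mix (nat_lit 74563584) (nat_lit 4636672)) (I.pos (nat_lit 264454144) (nat_lit 326762496)) (I.mix (nat_lit 67584000) (nat_lit 104185856)) (I.mix (nat_lit 74334208) (nat_lit 63832064)) (I.mix (nat_lit 67682304) (nat_lit 63258624)))
  true (nat_lit 0)
def b1_6 : Bx := Bx.mk (St.mk (I.pos (nat_lit 175210496) (nat_lit 286638080)) (I.mix (nat_lit 18726912) (nat_lit 63275008)) (I.mix (nat_lit 128729088) (nat_lit 44351488)) (I.pos (nat_lit 398655488) (nat_lit 563560448)) (I.mix (nat_lit 71991296) (nat_lit 68812800)) (I.mix (nat_lit 65175552) (nat_lit 53067776)) (I.mix (nat_lit 106594304) (nat_lit 86491136)))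
  false (nat_lit 178422062)
def b1_7 : Bx := Bx.mk (St.mk (I.mix (nat_lit 10387456) (nat_lit 46170112)) (I.mix (nat_lit 50102272) (nat_lit 8470528)) (I.neg (nat_lit 36896768) (nat_lit 53526528)) (I.pos (nat_lit 259981312) (nat_lit 278085632)) (I.mix (nat_lit 54362112) (nat_lit 34209792)) (I.mix (nat_lit 33292288) (nat_lit 36143104)) (I.mix (nat_lit 10616832) (nat_lit 14368768)))
  false (nat_lit 0)
def b1_8 : Bx := Bx.mk (St.mk (I.pos (nat_lit 155860992) (nat_lit 212582400)) (I.pos (nat_lit 26771456) (nat_lit 87982080)) (I.mix (nat_lit 557056) (nat_lit 90750976)) (I.pos (nat_lit 386678784) (nat_lit 440909824)) (I.mix (nat_lit 120799232) (nat_lit 92143616)) (I.mix (nat_lit 94453760) (nat_lit 74137600)) (I.mix (nat_lit 132431872) (nat_lit 99418112)))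
  false (nat_lit 122173692)
def b1_9 : Bx := Bx.mk (St.mk (I.pos (nat_lit 17874944) (nat_lit 51953664)) (I.neg (nat_lit 25591808) (nat_lit 75710464)) (I.neg (nat_lit 37601280) (nat_lit 62128128)) (I.pos (nat_lit 265502720) (nat_lit 284377088)) (I.mix (nat_lit 102957056) (nat_lit 52625408)) (I.mix (nat_lit 52559872) (nat_lit 83705856)) (I.mix (nat_lit 28884992) (nat_lit 27082752)))
  false (nat_lit 50183654)
def t1 : BTr := (BTr.n (BTr.n (BTr.n (BTr.b b1_0) (BTr.b b1_1)) (BTr.n (BTr.b b1_2) (BTr.n (BTr.b b1_3) (BTr.b b1_4)))) (BTr.n (BTr.n (BTr.b b1_5) (BTr.b b1_6)) (BTr.n (BTr.b b1_7) (BTr.n (BTr.b b1_8) (BTr.b b1_9)))))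
namespace T1
def l0 : Tr := Tr.L (Pth.l (Pth.l (Pth.l Pth.z)))
def l1 : Tr := Tr.L (Pth.l (Pth.l (Pth.r Pth.z)))
def l2 : Tr := Tr.L (Pth.l (Pth.r (Pth.l Pth.z)))
def l3 : Tr := Tr.L (Pth.l (Pth.r (Pth.r (Pth.l Pth.z))))
def l4 : Tr := Tr.L (Pth.l (Pth.r (Pth.r (Pth.r Pth.z))))
def l5 : Tr := Tr.L (Pth.r (Pth.l (Pth.l Pth.z)))
def l6 : Tr := Tr.L (Pth.r (Pth.l (Pth.r Pth.z)))
def l7 : Tr := Tr.L (Pth.r (Pth.r (Pth.l Pth.z)))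
def l8 : Tr := Tr.L (Pth.r (Pth.r (Pth.r (Pth.l Pth.z))))
def l9 : Tr := Tr.L (Pth.r (Pth.r (Pth.r (Pth.r Pth.z))))
end T1
def b2_0 : Bx := Bx.mk (St.mk (I.pos (nat_lit 158416896) (nat_lit 234668032)) (I.mix (nat_lit 1392640) (nat_lit 42811392)) (I.mix (nat_lit 3276800) (nat_lit 109133824)) (I.pos (nat_lit 92749824) (nat_lit 201523200)) (I.mix (nat_lit 110116864) (nat_lit 72351744)) (I.mix (nat_lit 95715328) (nat_lit 82755584)) (I.mix (nat_lit 144031744) (nat_lit 104759296)))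
  false (nat_lit 29874704)
def b2_1 : Bx := Bx.mk (St.mk (I.pos (nat_lit 130236416) (nat_lit 185040896)) (I.neg (nat_lit 5226496) (nat_lit 50872320)) (I.mix (nat_lit 31997952) (nat_lit 23363584)) (I.pos (nat_lit 79953920) (nat_lit 139984896)) (I.mix (nat_lit 58720256) (nat_lit 52215808)) (I.mix (nat_lit 43008000) (nat_lit 50511872)) (I.mix (nat_lit 41467904) (nat_lit 53248000)))
  false (nat_lit 60550970)
def b2_2 : Bx := Bx.mk (St.mk (I.mix (nat_lit 7077888) (nat_lit 115703808)) (I.mix (nat_lit 23003136) (nat_lit 1884160)) (I.mix (nat_lit 6864896) (nat_lit 12828672)) (I.mix (nat_lit 2408448) (nat_lit 63619072)) (I.mix (nat_lit 24559616) (nat_lit 30572544)) (I.mix (nat_lit 18563072) (nat_lit 23937024)) (I.mix (nat_lit 10911744) (nat_lit 16695296)))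
  false (nat_lit 0)
def b2_3 : Bx := Bx.mk (St.mk (I.pos (nat_lit 167903232) (nat_lit 210501632)) (I.mix (nat_lit 13205504) (nat_lit 42287104)) (I.pos (nat_lit 19628032) (nat_lit 100777984)) (I.pos (nat_lit 102383616) (nat_lit 173801472)) (I.mix (nat_lit 131956736) (nat_lit 46546944)) (I.mix (nat_lit 117997568) (nat_lit 59408384)) (I.mix (nat_lit 153960448) (nat_lit 46497792)))
  false (nat_lit 51067873)
def b2_4 : Bx := Bx.mk (St.mk (I.mix (nat_lit 13352960) (nat_lit 131153920)) (I.mix (nat_lit 11993088) (nat_lit 25247744)) (I.mix (nat_lit 1572864) (nat_lit 35487744)) (I.mix (nat_lit 2801664) (nat_lit 76988416)) (I.mix (nat_lit 52232192) (nat_lit 28000256)) (I.mix (nat_lit 46514176) (nat_lit 25182208)) (I.mix (nat_lit 35946496) (nat_lit 15417344)))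
  false (nat_lit 0)
def b2_5 : Bx := Bx.mk (St.mk (I.pos (nat_lit 166068224) (nat_lit 207749120)) (I.mix (nat_lit 37634048) (nat_lit 20709376)) (I.mix (nat_lit 9240576) (nat_lit 69386240)) (I.pos (nat_lit 101613568) (nat_lit 169754624)) (I.mix (nat_lit 119373824) (nat_lit 71172096)) (I.mix (nat_lit 119848960) (nat_lit 68599808)) (I.mix (nat_lit 142245888) (nat_lit 61669376)))
  false (nat_lit 72653526)
def b2_6 : Bx := Bx.mk (St.mk (I.pos (nat_lit 154091520) (nat_lit 185122816)) (I.neg (nat_lit 3309568) (nat_lit 34553856)) (I.mix (nat_lit 6356992) (nat_lit 28229632)) (I.pos (nat_lit 94011392) (nat_lit 139755520)) (I.mix (nat_lit 50839552) (nat_lit 41943040)) (I.mix (nat_lit 31571968) (nat_lit 42303488)) (I.mix (nat_lit 38813696) (nat_lit 37093376)))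
  false (nat_lit 11308467)
def b2_7 : Bx := Bx.mk (St.mk (I.mix (nat_lit 14778368) (nat_lit 117047296)) (I.mix (nat_lit 12075008) (nat_lit 3112960)) (I.mix (nat_lit 983040) (nat_lit 14794752)) (I.mix (nat_lit 2457600) (nat_lit 65241088)) (I.mix (nat_lit 18808832) (nat_lit 15581184)) (I.mix (nat_lit 12255232) (nat_lit 14172160)) (I.mix (nat_lit 10223616) (nat_lit 8404992)))
  false (nat_lit 0)
def b2_8 : Bx := Bx.mk (St.mk (I.pos (nat_lit 165330944) (nat_lit 196902912)) (I.neg (nat_lit 7290880) (nat_lit 36257792)) (I.mix (nat_lit 8994816) (nat_lit 25444352)) (I.pos (nat_lit 105005056) (nat_lit 157712384)) (I.mix (nat_lit 38748160) (nat_lit 42401792)) (I.mix (nat_lit 37830656) (nat_lit 29900800)) (I.mix (nat_lit 36847616) (nat_lit 31686656)))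
  false (nat_lit 17934385)
def b2_9 : Bx := Bx.mk (St.mk (I.pos (nat_lit 55525376) (nat_lit 139853824)) (I.mix (nat_lit 4620288) (nat_lit 18317312)) (I.pos (nat_lit 2342912) (nat_lit 29392896)) (I.pos (nat_lit 13729792) (nat_lit 88047616)) (I.mix (nat_lit 37011456) (nat_lit 28295168)) (I.mix (nat_lit 34947072) (nat_lit 24281088)) (I.mix (nat_lit 30359552) (nat_lit 17924096)))
  false (nat_lit 0)
def b2_10 : Bx := Bx.mk (St.mk (I.pos (nat_lit 120602624) (nat_lit 163332096)) (I.mix (nat_lit 49676288) (nat_lit 8011776)) (I.mix (nat_lit 29573120) (nat_lit 24264704)) (I.pos (nat_lit 53444608) (nat_lit 113541120)) (I.mix (nat_lit 73547776) (nat_lit 51281920)) (I.mix (nat_lit 43466752) (nat_lit 68239360)) (I.mix (nat_lit 34701312) (nat_lit 56836096)))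
  false (nat_lit 39359601)
def b2_11 : Bx := Bx.mk (St.mk (I.pos (nat_lit 197476352) (nat_lit 280854528)) (I.mix (nat_lit 13942784) (nat_lit 31653888)) (I.pos (nat_lit 15155200) (nat_lit 98516992)) (I.pos (nat_lit 155533312) (nat_lit 305250304)) (I.mix (nat_lit 71106560) (nat_lit 59179008)) (I.mix (nat_lit 58441728) (nat_lit 43925504)) (I.mix (nat_lit 102809600) (nat_lit 69877760)))
  false (nat_lit 63959099)
def b2_12 : Bx := Bx.mk (St.mk (I.pos (nat_lit 26296320) (nat_lit 109641728)) (I.mix (nat_lit 24051712) (nat_lit 606208)) (I.mix (nat_lit 6766592) (nat_lit 8896512)) (I.pos (nat_lit 1064960) (nat_lit 60637184)) (I.mix (nat_lit 27951104) (nat_lit 23461888)) (I.mix (nat_lit 18382848) (nat_lit 26738688)) (I.mix (nat_lit 10584064) (nat_lit 14811136)))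
  false (nat_lit 0)
def b2_13 : Bx := Bx.mk (St.mk (I.pos (nat_lit 184205312) (nat_lit 230998016)) (I.pos (nat_lit 6307840) (nat_lit 40828928)) (I.pos (nat_lit 41861120) (nat_lit 106315776)) (I.pos (nat_lit 143753216) (nat_lit 195461120)) (I.mix (nat_lit 89653248) (nat_lit 76136448)) (I.mix (nat_lit 92028928) (nat_lit 66584576)) (I.mix (nat_lit 137527296) (nat_lit 83312640)))
  false (nat_lit 56470807)
def t2 : BTr := (BTr.n (BTr.n (BTr.n (BTr.b b2_0) (BTr.n (BTr.b b2_1) (BTr.b b2_2))) (BTr.n (BTr.n (BTr.b b2_3) (BTr.b b2_4)) (BTr.n (BTr.b b2_5) (BTr.b b2_6)))) (BTr.n (BTr.n (BTr.b b2_7) (BTr.n (BTr.b b2_8) (BTr.b b2_9))) (BTr.n (BTr.n (BTr.b b2_10) (BTr.b b2_11)) (BTr.n (BTr.b b2_12) (BTr.b b2_13)))))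
namespace T2
def l0 : Tr := Tr.L (Pth.l (Pth.l (Pth.l Pth.z)))
def l1 : Tr := Tr.L (Pth.l (Pth.l (Pth.r (Pth.l Pth.z))))
def l2 : Tr := Tr.L (Pth.l (Pth.l (Pth.r (Pth.r Pth.z))))
def l3 : Tr := Tr.L (Pth.l (Pth.r (Pth.l (Pth.l Pth.z))))
def l4 : Tr := Tr.L (Pth.l (Pth.r (Pth.l (Pth.r Pth.z))))
def l5 : Tr := Tr.L (Pth.l (Pth.r (Pth.r (Pth.l Pth.z))))
def l6 : Tr := Tr.L (Pth.l (Pth.r (Pth.r (Pth.r Pth.z))))
def l7 : Tr := Tr.L (Pth.r (Pth.l (Pth.l Pth.z)))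
def l8 : Tr := Tr.L (Pth.r (Pth.l (Pth.r (Pth.l Pth.z))))
def l9 : Tr := Tr.L (Pth.r (Pth.l (Pth.r (Pth.r Pth.z))))
def l10 : Tr := Tr.L (Pth.r (Pth.r (Pth.l (Pth.l Pth.z))))
def l11 : Tr := Tr.L (Pth.r (Pth.r (Pth.l (Pth.r Pth.z))))
def l12 : Tr := Tr.L (Pth.r (Pth.r (Pth.r (Pth.l Pth.z))))
def l13 : Tr := Tr.L (Pth.r (Pth.r (Pth.r (Pth.r Pth.z))))
end T2
theorem bx0_0 : BoxOK sI cl4 cl13 cl13 t1 t1 b0_0 :=
  box_mk (TrL.c (I.pos (nat_lit 0) (nat_lit 0)) (xa (xb T1.l0 (xa (xb T1.l0 T1.l0) T1.l0)) (xb T1.l0 (xa (xb T1.l0 T1.l0) (xb T1.l0 T1.l0))))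
  (TrL.c (I.pos (nat_lit 0) (nat_lit 0)) (xa T1.l1 (xb T1.l1 (xa T1.l1 T1.l1)))
  (TrL.c (I.pos (nat_lit 0) (nat_lit 0)) T1.l2
  (TrL.c (I.pos (nat_lit 0) (nat_lit 0)) T1.l3
  (TrL.c (I.pos (nat_lit 0) (nat_lit 0)) (xa T1.l4 T1.l4)
  (TrL.c (I.pos (nat_lit 0) (nat_lit 0)) (xa T1.l5 (xb T1.l5 (xa T1.l5 T1.l5)))
  TrL.n)))))) (by decide +kernel)
theorem bx0_1 : BoxOK sI cl4 cl13 cl13 t1 t1 b0_1 :=
  box_mk (TrL.c (I.pos (nat_lit 0) (nat_lit 0)) (xa (xa T1.l6 T1.l6) (xa T1.l6 (xa T1.l6 T1.l6)))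
  (TrL.c (I.pos (nat_lit 0) (nat_lit 0)) (xa T1.l1 T1.l1)
  (TrL.c (I.pos (nat_lit 0) (nat_lit 0)) T1.l2
  (TrL.c (I.pos (nat_lit 0) (nat_lit 0)) (xa T1.l3 T1.l3)
  (TrL.c (I.pos (nat_lit 0) (nat_lit 0)) (xa T1.l7 T1.l7)
  (TrL.c (I.pos (nat_lit 0) (nat_lit 0)) (xa T1.l5 T1.l5)
  TrL.n)))))) (by decide +kernel)
theorem bx0_2 : BoxOK sI cl4 cl13 cl13 t1 t1 b0_2 :=
  box_mk (TrL.c (I.pos (nat_lit 0) (nat_lit 0)) (xb (xa T1.l6 T1.l6) (xa T1.l6 T1.l6))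
  (TrL.c (I.pos (nat_lit 0) (nat_lit 0)) T1.l1
  (TrL.c (I.pos (nat_lit 0) (nat_lit 0)) T1.l2
  (TrL.c (I.pos (nat_lit 0) (nat_lit 0)) T1.l3
  (TrL.c (I.pos (nat_lit 0) (nat_lit 0)) T1.l7
  (TrL.c (I.pos (nat_lit 0) (nat_lit 0)) T1.l5
  TrL.n)))))) (by decide +kernel)
theorem bx0_3 : BoxOK sI cl4 cl13 cl13 t1 t1 b0_3 :=
  box_mk (TrL.c (I.pos (nat_lit 0) (nat_lit 0)) (xa (xa (xb T1.l6 T1.l6) T1.l6) T1.l6)
  (TrL.c (I.pos (nat_lit 0) (nat_lit 0)) (xa T1.l1 T1.l1)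
  (TrL.c (I.pos (nat_lit 0) (nat_lit 0)) T1.l2
  (TrL.c (I.pos (nat_lit 0) (nat_lit 0)) (xa T1.l3 T1.l3)
  (TrL.c (I.pos (nat_lit 0) (nat_lit 0)) T1.l7
  (TrL.c (I.pos (nat_lit 0) (nat_lit 0)) (xa T1.l5 T1.l5)
  TrL.n)))))) (by decide +kernel)
theorem bx0_4 : BoxOK sI cl4 cl13 cl13 t1 t1 b0_4 :=
  box_mk (TrL.c (I.pos (nat_lit 0) (nat_lit 0)) (xb (xa (xb (xa T1.l0 T1.l0) (xa T1.l0 T1.l0)) (xb T1.l0 T1.l0)) (xa (xb (xa T1.l0 T1.l0) (xa T1.l0 T1.l0)) (xa (xb T1.l0 T1.l0) (xb T1.l0 T1.l0))))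
  (TrL.c (I.pos (nat_lit 0) (nat_lit 0)) (xb (xa T1.l1 (xb T1.l1 T1.l1)) (xa (xb T1.l1 (xa T1.l1 T1.l1)) (xa (xb T1.l1 T1.l1) (xb T1.l1 T1.l1))))
  (TrL.c (I.pos (nat_lit 0) (nat_lit 0)) (xc (xa T1.l2 T1.l5) (xb T1.l2 T1.l2))
  (TrL.c (I.pos (nat_lit 0) (nat_lit 0)) (xb (xa T1.l3 (xb (xa T1.l3 T1.l3) T1.l3)) (xa T1.l3 (xb T1.l3 (xa T1.l3 T1.l3))))
  (TrL.c (I.pos (nat_lit 0) (nat_lit 0)) (xc (xa T1.l4 T1.l1) (xa T1.l4 T1.l1))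
  (TrL.c (I.pos (nat_lit 0) (nat_lit 0)) (xb (xa T1.l5 (xb T1.l5 T1.l5)) (xa (xb T1.l5 (xa T1.l5 T1.l5)) (xa (xb T1.l5 T1.l5) (xb T1.l5 T1.l5))))
  TrL.n)))))) (by decide +kernel)
theorem bx0_5 : BoxOK sI cl4 cl13 cl13 t1 t1 b0_5 :=
  box_mk (TrL.c (I.pos (nat_lit 0) (nat_lit 0)) T1.l6
  (TrL.c (I.pos (nat_lit 0) (nat_lit 0)) T1.l1
  (TrL.c (I.pos (nat_lit 0) (nat_lit 0)) T1.l2
  (TrL.c (I.pos (nat_lit 0) (nat_lit 0)) T1.l3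
  (TrL.c (I.pos (nat_lit 0) (nat_lit 0)) T1.l7
  (TrL.c (I.pos (nat_lit 0) (nat_lit 0)) T1.l5
  TrL.n)))))) (by decide +kernel)
theorem bx0_6 : BoxOK sI cl4 cl13 cl13 t1 t1 b0_6 :=
  box_mk (TrL.c (I.pos (nat_lit 0) (nat_lit 0)) T1.l6
  (TrL.c (I.pos (nat_lit 0) (nat_lit 0)) T1.l1
  (TrL.c (I.pos (nat_lit 0) (nat_lit 0)) T1.l2
  (TrL.c (I.pos (nat_lit 0) (nat_lit 0)) T1.l3
  (TrL.c (I.pos (nat_lit 0) (nat_lit 0)) T1.l7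
  (TrL.c (I.pos (nat_lit 0) (nat_lit 0)) T1.l5
  TrL.n)))))) (by decide +kernel)
theorem bx0_7 : BoxOK sI cl4 cl13 cl13 t1 t1 b0_7 :=
  box_mk (TrL.c (I.pos (nat_lit 0) (nat_lit 0)) (xa T1.l0 T1.l3)
  (TrL.c (I.pos (nat_lit 0) (nat_lit 0)) (xa T1.l1 T1.l1)
  (TrL.c (I.pos (nat_lit 0) (nat_lit 0)) T1.l5
  (TrL.c (I.pos (nat_lit 0) (nat_lit 0)) (xa T1.l3 T1.l3)
  (TrL.c (I.pos (nat_lit 0) (nat_lit 0)) T1.l1
  (TrL.c (I.pos (nat_lit 0) (nat_lit 0)) (xa T1.l5 T1.l5)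
  TrL.n)))))) (by decide +kernel)
theorem bx0_8 : BoxOK sI cl4 cl13 cl13 t1 t1 b0_8 :=
  box_mk (TrL.c (I.pos (nat_lit 0) (nat_lit 0)) (xa (xb (xa T1.l6 T1.l6) T1.l6) (xb (xa T1.l6 T1.l0) T1.l0))
  (TrL.c (I.pos (nat_lit 0) (nat_lit 0)) T1.l1
  (TrL.c (I.pos (nat_lit 0) (nat_lit 0)) T1.l2
  (TrL.c (I.pos (nat_lit 0) (nat_lit 0)) T1.l3
  (TrL.c (I.pos (nat_lit 0) (nat_lit 0)) T1.l7
  (TrL.c (I.pos (nat_lit 0) (nat_lit 0)) T1.l5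
  TrL.n)))))) (by decide +kernel)
theorem bx0_9 : BoxOK sI cl4 cl13 cl13 t1 t1 b0_9 :=
  box_mk (TrL.c (I.pos (nat_lit 0) (nat_lit 0)) (xa (xa (xb T1.l6 T1.l6) T1.l6) T1.l6)
  (TrL.c (I.pos (nat_lit 0) (nat_lit 0)) (xa T1.l1 T1.l1)
  (TrL.c (I.pos (nat_lit 0) (nat_lit 0)) T1.l2
  (TrL.c (I.pos (nat_lit 0) (nat_lit 0)) (xa T1.l3 T1.l3)
  (TrL.c (I.pos (nat_lit 0) (nat_lit 0)) T1.l7
  (TrL.c (I.pos (nat_lit 0) (nat_lit 0)) (xa T1.l5 T1.l5)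
  TrL.n)))))) (by decide +kernel)
theorem bx0_10 : BoxOK sI cl4 cl13 cl13 t1 t1 b0_10 :=
  box_mk (TrL.c (I.pos (nat_lit 0) (nat_lit 0)) (xb (xa (xb T1.l8 T1.l8) (xb (xa T1.l8 T1.l3) T1.l8)) (xa (xb (xa T1.l8 T1.l8) (xa T1.l8 T1.l8)) (xb (xa T1.l8 T1.l8) (xa T1.l8 T1.l8))))
  (TrL.c (I.pos (nat_lit 0) (nat_lit 0)) (xb (xa T1.l1 T1.l1) (xa T1.l1 (xb T1.l1 T1.l1)))
  (TrL.c (I.pos (nat_lit 0) (nat_lit 0)) T1.l2
  (TrL.c (I.pos (nat_lit 0) (nat_lit 0)) (xb T1.l3 (xa T1.l3 (xb T1.l3 T1.l3)))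
  (TrL.c (I.pos (nat_lit 0) (nat_lit 0)) T1.l9
  (TrL.c (I.pos (nat_lit 0) (nat_lit 0)) (xb (xa T1.l5 T1.l5) (xa T1.l5 (xb T1.l5 T1.l5)))
  TrL.n)))))) (by decide +kernel)
theorem bx0_11 : BoxOK sI cl4 cl13 cl13 t1 t1 b0_11 :=
  box_mk (TrL.c (I.pos (nat_lit 0) (nat_lit 0)) (xa (xa (xb (xa T1.l6 T1.l6) (xa T1.l6 T1.l6)) (xb T1.l6 (xa T1.l6 T1.l6))) (xa T1.l6 (xb T1.l6 (xa T1.l6 T1.l6))))
  (TrL.c (I.pos (nat_lit 0) (nat_lit 0)) (xa (xa T1.l1 T1.l1) T1.l1)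
  (TrL.c (I.pos (nat_lit 0) (nat_lit 0)) (xa T1.l2 T1.l2)
  (TrL.c (I.pos (nat_lit 0) (nat_lit 0)) (xa T1.l3 T1.l3)
  (TrL.c (I.pos (nat_lit 0) (nat_lit 0)) (xa T1.l7 T1.l7)
  (TrL.c (I.pos (nat_lit 0) (nat_lit 0)) (xa (xa T1.l5 T1.l5) T1.l5)
  TrL.n)))))) (by decide +kernel)
theorem bx0_12 : BoxOK sI cl4 cl13 cl13 t1 t1 b0_12 :=
  box_mk (TrL.c (I.pos (nat_lit 0) (nat_lit 0)) (xa T1.l0 T1.l0)
  (TrL.c (I.pos (nat_lit 0) (nat_lit 0)) T1.l1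
  (TrL.c (I.pos (nat_lit 0) (nat_lit 0)) T1.l2
  (TrL.c (I.pos (nat_lit 0) (nat_lit 0)) T1.l3
  (TrL.c (I.pos (nat_lit 0) (nat_lit 0)) T1.l9
  (TrL.c (I.pos (nat_lit 0) (nat_lit 0)) T1.l5
  TrL.n)))))) (by decide +kernel)
theorem bx0_13 : BoxOK sI cl4 cl13 cl13 t1 t1 b0_13 :=
  box_mk (TrL.c (I.pos (nat_lit 0) (nat_lit 0)) (xb (xa T1.l8 (xb T1.l8 T1.l8)) (xa T1.l8 (xb T1.l8 T1.l8)))
  (TrL.c (I.pos (nat_lit 0) (nat_lit 0)) (xb T1.l1 T1.l1)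
  (TrL.c (I.pos (nat_lit 0) (nat_lit 0)) T1.l2
  (TrL.c (I.pos (nat_lit 0) (nat_lit 0)) (xb (xa T1.l3 T1.l3) T1.l3)
  (TrL.c (I.pos (nat_lit 0) (nat_lit 0)) T1.l9
  (TrL.c (I.pos (nat_lit 0) (nat_lit 0)) (xb T1.l5 T1.l5)
  TrL.n)))))) (by decide +kernel)
theorem sv0 : StarV sI cl4 cl13 cl13 t1 t1 t0 :=
  (bt_n (bt_n (bt_n (bt_b bx0_0) (bt_n (bt_b bx0_1) (bt_b bx0_2))) (bt_n (bt_n (bt_b bx0_3) (bt_b bx0_4)) (bt_n (bt_b bx0_5) (bt_b bx0_6)))) (bt_n (bt_n (bt_b bx0_7) (bt_n (bt_b bx0_8) (bt_b bx0_9))) (bt_n (bt_n (bt_b bx0_10) (bt_b bx0_11)) (bt_n (bt_b bx0_12) (bt_b bx0_13)))))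
def S0 : StarD := StarD.mk cl4 cl13 cl13 1 1 t0
theorem bx1_0 : BoxOK sI cl13 cl4 cl13 t0 t2 b1_0 :=
  box_mk (TrL.c (I.pos (nat_lit 0) (nat_lit 0)) (xb (xa T0.l4 (xb T0.l0 T0.l0)) (xa (xb T0.l4 (xa T0.l4 T0.l4)) (xa (xb T0.l0 T0.l0) (xb T0.l0 T0.l0))))
  (TrL.c (I.pos (nat_lit 0) (nat_lit 0)) (xa (xb T2.l1 T2.l1) (xk T2.l1 T2.l1))
  (TrL.c (I.pos (nat_lit 0) (nat_lit 134217730)) (xR T0.l1 (xR T0.l1 (xR T0.l1 T0.l11)))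
  (TrL.c (I.pos (nat_lit 0) (nat_lit 110514882)) (xR T2.l2 (xR T2.l2 (xR T2.l2 T2.l2)))
  (TrL.c (I.pos (nat_lit 0) (nat_lit 0)) (xb (xa T2.l5 (xk T2.l3 T2.l3)) (xa T2.l5 (xk T2.l3 T2.l3)))
  (TrL.c (I.pos (nat_lit 0) (nat_lit 0)) T0.l2
  (TrL.c (I.mix (nat_lit 8088324) (nat_lit 110514882)) (xR T2.l4 (xR T2.l4 (xR T2.l4 (xk T2.l4 T2.l4))))
  (TrL.c (I.mix (nat_lit 8088324) (nat_lit 89478486)) (xR T0.l3 (xR T0.l3 (xR T0.l3 T0.l3)))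
  TrL.n)))))))) (by decide +kernel)
theorem bx1_1 : BoxOK sI cl13 cl4 cl13 t0 t2 b1_1 :=
  box_mk (TrL.c (I.pos (nat_lit 0) (nat_lit 0)) (xa (xb (xa T0.l4 T0.l4) T0.l4) T0.l4)
  (TrL.c (I.pos (nat_lit 0) (nat_lit 0)) (xa T2.l1 T2.l1)
  (TrL.c (I.pos (nat_lit 0) (nat_lit 134217730)) (xR T0.l1 (xR T0.l1 (xR T0.l1 (xa T0.l1 T0.l1))))
  (TrL.c (I.pos (nat_lit 0) (nat_lit 110514882)) (xR T2.l2 (xR T2.l4 (xR T2.l2 T2.l2)))
  (TrL.c (I.pos (nat_lit 0) (nat_lit 0)) (xa T2.l5 (xb T2.l5 T2.l5))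
  (TrL.c (I.pos (nat_lit 0) (nat_lit 0)) T0.l2
  (TrL.c (I.mix (nat_lit 8088324) (nat_lit 110514882)) (xR T2.l4 (xR T2.l4 T2.l4))
  (TrL.c (I.mix (nat_lit 8088324) (nat_lit 89478486)) T0.l11
  TrL.n)))))))) (by decide +kernel)
theorem bx1_2 : BoxOK sI cl13 cl4 cl13 t0 t2 b1_2 :=
  box_mk (TrL.c (I.pos (nat_lit 0) (nat_lit 0)) T2.l6
  (TrL.c (I.pos (nat_lit 0) (nat_lit 0)) T0.l5
  (TrL.c (I.mix (nat_lit 8088324) (nat_lit 110514882)) (xR T2.l7 (xR T2.l4 T2.l4))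
  (TrL.c (I.mix (nat_lit 8088324) (nat_lit 89478486)) (xR T0.l11 T0.l1)
  TrL.n)))) (by decide +kernel)
theorem c1_3_0 : chkTag sI cl13 cl4 cl13 t0 b1_3 (tg true true false RT.r2) (I.pos (nat_lit 0) (nat_lit 0))
  (xb (xa (xb T0.l4 T0.l4) (xb T0.l4 T0.l4)) (xa (xb T0.l4 (xa T0.l4 T0.l4)) (xb (xa T0.l4 T0.l4) (xa T0.l4 T0.l4)))) = true := by decide +kernel
theorem c1_3_1 : chkTag sI cl13 cl4 cl13 t2 b1_3 (tg true false false RT.r3) (I.pos (nat_lit 0) (nat_lit 0))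
  (xb (xa T2.l1 T2.l1) (xa T2.l1 (xk T2.l1 T2.l1))) = true := by decide +kernel
theorem c1_3_2 : chkTag sI cl13 cl4 cl13 t0 b1_3 (Tag.mk true true false RT.tl RT.r4) (I.pos (nat_lit 0) (nat_lit 134217730))
  (xR T0.l1 (xR T0.l1 (xb T0.l1 (xR T0.l1 T0.l1)))) = true := by decide +kernel
theorem c1_3_3 : chkTag sI cl13 cl4 cl13 t2 b1_3 (Tag.mk true false false RT.tl RT.r5) (I.pos (nat_lit 0) (nat_lit 110514882))
  (xR T2.l2 (xR T2.l2 (xR T2.l2 T2.l2))) = true := by decide +kernel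
theorem c1_3_4 : chkTag sI cl13 cl4 cl13 t2 b1_3 (tg false false false RT.r3) (I.pos (nat_lit 0) (nat_lit 0))
  (xb (xa T2.l5 (xk (xb T2.l5 T2.l5) (xb T2.l5 (xb T2.l5 T2.l3)))) (xa (xb (xk T2.l5 (xb T2.l5 (xs T2.l5 T2.l5))) (xk (xs T2.l3 (xb T2.l3 (xa T2.l3 T2.l3))) (xs (xb T2.l3 T2.l3) (xb (xa T2.l3 T2.l3) (xa T2.l3 (xk T2.l3 T2.l3)))))) (xk (xb (xb T2.l3 (xs T2.l3 (xa T2.l3 T2.l3))) (xs (xb (xa T2.l3 T2.l3) (xa T2.l3 (xk T2.l0 T2.l0))) (xb (xa T2.l3 (xk (xs T2.l3 T2.l3) (xs T2.l3 T2.l3))) (xa (xk (xs T2.l3 T2.l3) (xs T2.l3 (xb T2.l3 T2.l3))) (xk (xs T2.l0 T2.l0) (xs T2.l0 T2.l0)))))) (xb (xb T2.l3 (xs T2.l3 (xa T2.l3 (xk T2.l3 T2.l3)))) (xs (xb (xa T2.l3 (xk T2.l3 T2.l3)) (xa (xk T2.l3 (xs T2.l3 T2.l3)) (xk T2.l0 (xs T2.l0 T2.l0)))) (xb (xa (xk T2.l3 T2.l3) (xk (xs T2.l3 (xb T2.l3 T2.l0)) (xs T2.l3 (xb T2.l3 (xa T2.l3 T2.l0))))) (xa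 (xk (xs T2.l3 (xb T2.l3 (xa T2.l3 T2.l0))) (xs (xb T2.l3 T2.l3) (xb T2.l3 (xa T2.l3 T2.l3)))) (xk (xs T2.l0 (xb T2.l0 T2.l0)) (xs (xa T2.l0 T2.l0) (xb T2.l0 (xa T2.l0 T2.l0))))))))))) = true := by decide +kernel
theorem c1_3_5 : chkTag sI cl13 cl4 cl13 t0 b1_3 (tg false true false RT.r4) (I.pos (nat_lit 0) (nat_lit 0))
  (xb T0.l2 T0.l2) = true := by decide +kernel
theorem c1_3_6 : chkTag sI cl13 cl4 cl13 t2 b1_3 (Tag.mk false false false RT.tl RT.r5) (I.mix (nat_lit 8088324) (nat_lit 110514882))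
  (xR T2.l4 (xR T2.l4 (xR T2.l4 (xb T2.l4 T2.l4)))) = true := by decide +kernel
theorem c1_3_7 : chkTag sI cl13 cl4 cl13 t0 b1_3 (Tag.mk false true false RT.tl RT.r6) (I.mix (nat_lit 8088324) (nat_lit 89478486))
  (xR T0.l3 (xR T0.l3 (xb T0.l9 (xR T0.l3 T0.l3)))) = true := by decide +kernel
theorem bx1_3 : BoxOK sI cl13 cl4 cl13 t0 t2 b1_3 :=
  box_mk' [(tg true true false RT.r2), (tg true false false RT.r3), (Tag.mk true true false RT.tl RT.r4), (Tag.mk true false false RT.tl RT.r5), (tg false false false RT.r3), (tg false true false RT.r4), (Tag.mk false false false RT.tl RT.r5), (Tag.mk false true false RT.tl RT.r6)] rfl (allL_c (ex_mk c1_3_0) (allL_c (ex_mk c1_3_1) (allL_c (ex_mk c1_3_2) (allL_c (ex_mk c1_3_3) (allL_c (ex_mk c1_3_4) (allL_c (ex_mk c1_3_5) (allL_c (ex_mk c1_3_6) (allL_c (ex_mk c1_3_7) allL_n))))))))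
theorem bx1_4 : BoxOK sI cl13 cl4 cl13 t0 t2 b1_4 :=
  box_mk (TrL.c (I.pos (nat_lit 0) (nat_lit 0)) (xb T0.l7 T0.l4)
  (TrL.c (I.pos (nat_lit 0) (nat_lit 0)) T2.l1
  (TrL.c (I.pos (nat_lit 0) (nat_lit 134217730)) (xR T0.l1 T0.l1)
  (TrL.c (I.pos (nat_lit 0) (nat_lit 110514882)) T2.l4
  (TrL.c (I.pos (nat_lit 0) (nat_lit 0)) T2.l5
  (TrL.c (I.pos (nat_lit 0) (nat_lit 0)) T0.l2
  (TrL.c (I.mix (nat_lit 8088324) (nat_lit 110514882)) T2.l4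
  (TrL.c (I.mix (nat_lit 8088324) (nat_lit 89478486)) T0.l9
  TrL.n)))))))) (by decide +kernel)
theorem bx1_5 : BoxOK sI cl13 cl4 cl13 t0 t2 b1_5 :=
  box_mk (TrL.c (I.pos (nat_lit 0) (nat_lit 0)) (xa T2.l1 T2.l1)
  (TrL.c (I.pos (nat_lit 0) (nat_lit 0)) T0.l11
  (TrL.c (I.mix (nat_lit 8088324) (nat_lit 110514882)) (xR T2.l7 (xR T2.l7 (xR T2.l7 T2.l2)))
  (TrL.c (I.mix (nat_lit 8088324) (nat_lit 89478486)) (xR T0.l11 T0.l1)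
  TrL.n)))) (by decide +kernel)
theorem bx1_6 : BoxOK sI cl13 cl4 cl13 t0 t2 b1_6 :=
  box_mk (TrL.c (I.pos (nat_lit 0) (nat_lit 0)) (xa (xb T0.l0 (xa T0.l0 T0.l0)) (xb T0.l0 (xa T0.l0 T0.l0)))
  (TrL.c (I.pos (nat_lit 0) (nat_lit 0)) (xa T2.l1 (xk (xb T2.l1 T2.l1) T2.l1))
  (TrL.c (I.pos (nat_lit 0) (nat_lit 134217730)) (xR T0.l11 T0.l11)
  (TrL.c (I.pos (nat_lit 0) (nat_lit 110514882)) (xR T2.l4 (xR T2.l2 (xR T2.l2 (xa T2.l2 T2.l2))))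
  (TrL.c (I.pos (nat_lit 0) (nat_lit 0)) (xa (xb (xk (xa T2.l3 T2.l3) T2.l3) (xk T2.l3 T2.l3)) (xb (xk (xa T2.l3 T2.l3) (xa T2.l3 T2.l3)) (xk (xa T2.l3 T2.l3) (xa T2.l3 T2.l3))))
  (TrL.c (I.pos (nat_lit 0) (nat_lit 0)) (xk (xa T0.l2 T0.l2) T0.l2)
  (TrL.c (I.mix (nat_lit 8088324) (nat_lit 110514882)) (xR T2.l4 (xR T2.l4 (xR T2.l4 (xk T2.l4 T2.l4))))
  (TrL.c (I.mix (nat_lit 8088324) (nat_lit 89478486)) (xR T0.l3 (xR T0.l3 (xR T0.l3 T0.l3)))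
  TrL.n)))))))) (by decide +kernel)
theorem bx1_7 : BoxOK sI cl13 cl4 cl13 t0 t2 b1_7 :=
  box_mk (TrL.c (I.pos (nat_lit 0) (nat_lit 0)) (xb T0.l7 T0.l7)
  (TrL.c (I.pos (nat_lit 0) (nat_lit 0)) T2.l1
  (TrL.c (I.pos (nat_lit 0) (nat_lit 134217730)) (xR T0.l1 T0.l1)
  (TrL.c (I.pos (nat_lit 0) (nat_lit 110514882)) T2.l4
  (TrL.c (I.pos (nat_lit 0) (nat_lit 0)) T2.l8
  (TrL.c (I.pos (nat_lit 0) (nat_lit 0)) T0.l2
  (TrL.c (I.mix (nat_lit 8088324) (nat_lit 110514882)) T2.l4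
  (TrL.c (I.mix (nat_lit 8088324) (nat_lit 89478486)) T0.l11
  TrL.n)))))))) (by decide +kernel)
theorem bx1_8 : BoxOK sI cl13 cl4 cl13 t0 t2 b1_8 :=
  box_mk (TrL.c (I.pos (nat_lit 0) (nat_lit 0)) (xa (xb T0.l0 T0.l4) (xb T0.l0 (xa T0.l0 T0.l0)))
  (TrL.c (I.pos (nat_lit 0) (nat_lit 0)) (xk T2.l1 T2.l1)
  (TrL.c (I.pos (nat_lit 0) (nat_lit 134217730)) (xR T0.l1 T0.l11)
  (TrL.c (I.pos (nat_lit 0) (nat_lit 110514882)) (xR T2.l2 (xR T2.l2 T2.l2))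
  (TrL.c (I.pos (nat_lit 0) (nat_lit 0)) (xk (xb T2.l3 (xa T2.l3 (xs T2.l0 T2.l0))) (xb T2.l3 (xa T2.l3 (xs T2.l0 (xb T2.l3 T2.l0)))))
  (TrL.c (I.pos (nat_lit 0) (nat_lit 0)) T0.l2
  (TrL.c (I.mix (nat_lit 8088324) (nat_lit 110514882)) (xR T2.l4 (xR T2.l4 T2.l4))
  (TrL.c (I.mix (nat_lit 8088324) (nat_lit 89478486)) (xR T0.l3 T0.l9)
  TrL.n)))))))) (by decide +kernel)
theorem bx1_9 : BoxOK sI cl13 cl4 cl13 t0 t2 b1_9 :=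
  box_mk (TrL.c (I.pos (nat_lit 0) (nat_lit 0)) T0.l4
  (TrL.c (I.pos (nat_lit 0) (nat_lit 0)) T2.l1
  (TrL.c (I.pos (nat_lit 0) (nat_lit 134217730)) (xR T0.l1 T0.l1)
  (TrL.c (I.pos (nat_lit 0) (nat_lit 110514882)) T2.l4
  (TrL.c (I.pos (nat_lit 0) (nat_lit 0)) T2.l5
  (TrL.c (I.pos (nat_lit 0) (nat_lit 0)) T0.l2
  (TrL.c (I.mix (nat_lit 8088324) (nat_lit 110514882)) T2.l4
  (TrL.c (I.mix (nat_lit 8088324) (nat_lit 89478486)) T0.l9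
  TrL.n)))))))) (by decide +kernel)
theorem sv1 : StarV sI cl13 cl4 cl13 t0 t2 t1 :=
  (bt_n (bt_n (bt_n (bt_b bx1_0) (bt_b bx1_1)) (bt_n (bt_b bx1_2) (bt_n (bt_b bx1_3) (bt_b bx1_4)))) (bt_n (bt_n (bt_b bx1_5) (bt_b bx1_6)) (bt_n (bt_b bx1_7) (bt_n (bt_b bx1_8) (bt_b bx1_9)))))
def S1 : StarD := StarD.mk cl13 cl4 cl13 0 2 t1
def rc2_0_0_l : Tr := (xa (xb (xb (xs (xa T2.l0 T2.l0) (xa (xc T2.l0 (xb T2.l0 T2.l0)) (xc T2.l0 (xb T2.l0 T2.l0)))) (xs (xa T2.l0 T2.l0) (xa (xc T2.l0 (xb T2.l0 T2.l0)) (xc T2.l0 (xb T2.l0 T2.l0))))) (xs (xb (xa T2.l0 T2.l0) (xa T2.l0 T2.l0)) (xb (xa (xc T2.l0 T2.l0) (xc T2.l0 (xb T2.l0 T2.l0))) (xa (xc T2.l0 T2.l0) (xc T2.l0 (xs T2.l0 T2.l0)))))) (xb (xb (xs (xa T2.l0 T2.l0) (xa (xc T2.l0 (xb (xs T2.l0 T2.l0) T2.l0)) (xc (xb T2.l0 T2.l0) (xb (xs T2.l0 T2.l0) (xs T2.l0 T2.l0))))) (xs (xa T2.l0 T2.l0) (xa (xc T2.l0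 (xb T2.l0 T2.l0)) (xc T2.l0 (xb T2.l0 T2.l0))))) (xs (xb (xa T2.l0 T2.l0) (xa T2.l0 T2.l0)) (xb (xa (xc T2.l0 (xb T2.l0 T2.l0)) (xc T2.l0 (xs T2.l0 (xb T2.l0 T2.l0)))) (xa (xc T2.l0 (xs T2.l0 T2.l0)) (xc T2.l0 (xs T2.l0 T2.l0)))))))
theorem qc2_0_0_l : chkTr (tg true true false RT.r2) b2_0 t2 rc2_0_0_l
  (upd lo Co.a (rc sI cl13 cl13 cl4 b2_0 (I.pos (nat_lit 0) (nat_lit 0)))) = true := by decide +kernel
def rc2_0_0_rl : Tr := (xb (xb (xs (xa T2.l0 (xc T2.l0 T2.l0)) (xa (xc (xb T2.l0 T2.l0) (xb (xs T2.l0 (xa T2.l0 T2.l0)) (xs T2.l0 T2.l0))) (xc (xb T2.l0 T2.l0) (xb (xs T2.l0 (xa T2.l0 T2.l0)) (xs T2.l0 (xa T2.l0 T2.l0)))))) (xs (xa T2.l0 (xc T2.l0 T2.l0)) (xa (xc T2.l0 (xb (xs T2.l0 T2.l0) (xs T2.l0 T2.l0))) (xc (xb T2.l0 T2.l0) (xb (xs T2.l0 T2.l0) (xs T2.l0 T2.l0)))))) (xs (xb (xa T2.l0 T2.l0) (xa T2.l0 T2.l0)) (xb (xa (xc T2.l0 (xs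 T2.l0 (xb T2.l0 T2.l0))) (xc (xb T2.l0 T2.l0) (xs T2.l0 (xb T2.l0 T2.l0)))) (xa (xc T2.l0 (xs T2.l0 (xb T2.l0 T2.l0))) (xc (xs T2.l0 T2.l0) (xs T2.l0 (xb T2.l0 T2.l0)))))))
theorem qc2_0_0_rl : chkTr (tg true true false RT.r2) b2_0 t2 rc2_0_0_rl
  (upd lo Co.a (upd hi Co.a (rc sI cl13 cl13 cl4 b2_0 (I.pos (nat_lit 0) (nat_lit 0))))) = true := by decide +kernel
def rc2_0_0_rr : Tr := (xb (xb (xs (xa (xc T2.l0 T2.l0) (xc T2.l0 (xs T2.l0 T2.l0))) (xa (xc (xb (xs T2.l0 T2.l0) T2.l0) (xb (xs T2.l0 (xk T2.l0 (xa T2.l0 T2.l0))) (xs T2.l0 (xk T2.l0 T2.l0)))) (xc (xb (xs T2.l0 T2.l0) (xs T2.l0 T2.l0)) (xb (xs T2.l0 (xk (xa T2.l0 T2.l0) (xa T2.l0 (xd T2.l0 T2.l0)))) (xs T2.l0 (xk (xa T2.l0 T2.l0) (xa T2.l0 (xd T2.l0 T2.l0)))))))) (xs (xa (xc T2.l0 T2.l0) (xc T2.l0 T2.l0)) (xa (xc (xb T2.l0 T2.l0) (xs T2.l0 (xb (xk T2.l0 T2.l0) (xk T2.l0 T2.l0))))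 (xc (xb (xs T2.l0 T2.l0) T2.l0) (xs (xb T2.l0 T2.l0) (xb (xk (xa T2.l0 T2.l0) T2.l0) (xk (xa T2.l0 T2.l0) T2.l0))))))) (xs (xb (xa (xs T2.l0 T2.l0) (xs T2.l0 T2.l0)) (xa (xs T2.l0 T2.l0) (xs T2.l0 T2.l0))) (xb (xa (xc (xs T2.l0 T2.l0) (xs T2.l0 (xb T2.l0 T2.l0))) (xc (xs T2.l0 T2.l0) (xs (xb T2.l0 T2.l0) (xb (xk T2.l0 T2.l0) (xk T2.l0 T2.l0))))) (xa (xc (xs T2.l0 T2.l0) (xs T2.l0 (xb T2.l0 T2.l0))) (xc (xs T2.l0 T2.l0) (xs T2.l0 (xb T2.l0 T2.l0)))))))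
theorem qc2_0_0_rr : chkTr (tg true true false RT.r2) b2_0 t2 rc2_0_0_rr
  (upd hi Co.a (upd hi Co.a (rc sI cl13 cl13 cl4 b2_0 (I.pos (nat_lit 0) (nat_lit 0))))) = true := by decide +kernel
theorem qc2_0_0_r : chkTr (tg true true false RT.r2) b2_0 t2 (Tr.N Co.a rc2_0_0_rl rc2_0_0_rr)
  (upd hi Co.a (rc sI cl13 cl13 cl4 b2_0 (I.pos (nat_lit 0) (nat_lit 0)))) = true := tr_split qc2_0_0_rl qc2_0_0_rr
theorem qc2_0_0_ : chkTr (tg true true false RT.r2) b2_0 t2 (Tr.N Co.a rc2_0_0_l (Tr.N Co.a rc2_0_0_rl rc2_0_0_rr))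
  (rc sI cl13 cl13 cl4 b2_0 (I.pos (nat_lit 0) (nat_lit 0))) = true := tr_split qc2_0_0_l qc2_0_0_r
theorem c2_0_0 : chkTag sI cl13 cl13 cl4 t2 b2_0 (tg true true false RT.r2) (I.pos (nat_lit 0) (nat_lit 0))
  (Tr.N Co.a rc2_0_0_l (Tr.N Co.a rc2_0_0_rl rc2_0_0_rr)) = true := tag_mk (by decide +kernel) qc2_0_0_
theorem c2_0_1 : chkTag sI cl13 cl13 cl4 t0 b2_0 (tg true false false RT.r3) (I.pos (nat_lit 0) (nat_lit 0))
  (xa (xk (xa T0.l8 T0.l8) (xa T0.l8 T0.l8)) (xk (xa T0.l8 (xb T0.l8 T0.l8)) (xa T0.l8 T0.l8))) = true := by decide +kernel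
theorem c2_0_2 : chkTag sI cl13 cl13 cl4 t2 b2_0 (Tag.mk true true false RT.tl RT.r4) (I.pos (nat_lit 0) (nat_lit 134217730))
  (xR T2.l4 (xR T2.l4 (xR T2.l9 (xa T2.l9 T2.l9)))) = true := by decide +kernel
theorem c2_0_3 : chkTag sI cl13 cl13 cl4 t0 b2_0 (Tag.mk true false false RT.tl RT.r5) (I.pos (nat_lit 0) (nat_lit 110514882))
  (xR T0.l11 (xR T0.l9 (xR T0.l9 (xk T0.l9 T0.l9)))) = true := by decide +kernel
theorem c2_0_4 : chkTag sI cl13 cl13 cl4 t0 b2_0 (tg false false false RT.r3) (I.pos (nat_lit 0) (nat_lit 0))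
  (xa (xk (xb T0.l13 (xa T0.l10 T0.l10)) (xb T0.l13 (xa T0.l13 (xb T0.l10 T0.l10)))) (xk (xb (xa T0.l10 T0.l10) (xa (xb T0.l13 (xs T0.l10 (xk T0.l13 T0.l13))) (xb (xs T0.l10 (xk T0.l10 T0.l10)) (xs (xk T0.l10 T0.l10) (xk (xa T0.l10 (xb T0.l10 (xd T0.l10 T0.l10))) (xa (xb T0.l10 T0.l10) (xb T0.l10 (xd (xs T0.l10 T0.l10) (xs T0.l10 T0.l10))))))))) (xb (xa T0.l13 T0.l10) (xa (xb T0.l13 (xs T0.l10 (xk (xa T0.l13 T0.l13) (xa T0.l13 T0.l13)))) (xb (xs T0.l10 (xk T0.l10 (xa T0.l10 T0.l10))) (xs (xk (xa T0.l10 T0.l10) (xa T0.l10 (xd T0.l10 T0.l10))) (xk (xa (xb T0.l10 (xd T0.l10 T0.l13)) (xb (xd T0.l10 T0.l10) (xd (xs T0.l10 (xk T0.l10 T0.l10)) (xs T0.l10 (xc (xk T0.l10 T0.l10) T0.l10))))) (xa (xb T0.l10 (xd (xs T0.l10 T0.l10) (xs T0.l10 T0.l10))) (xb (xd (xs T0.l10 T0.l10) (xs T0.l10 T0.l10)) (xd (xs T0.l10 (xc (xk T0.l10 (xa T0.l10 T0.l10))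 T0.l10)) (xs (xc T0.l10 T0.l10) (xc (xk T0.l10 (xa T0.l13 T0.l10)) T0.l10)))))))))))) = true := by decide +kernel
theorem c2_0_5 : chkTag sI cl13 cl13 cl4 t2 b2_0 (tg false true false RT.r4) (I.pos (nat_lit 0) (nat_lit 0))
  (xa T2.l10 (xb T2.l10 T2.l10)) = true := by decide +kernel
theorem c2_0_6 : chkTag sI cl13 cl13 cl4 t0 b2_0 (Tag.mk false false false RT.tl RT.r5) (I.mix (nat_lit 8088324) (nat_lit 110514882))
  (xR T0.l11 (xR T0.l11 (xR T0.l11 (xk T0.l11 T0.l11)))) = true := by decide +kernel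
theorem c2_0_7 : chkTag sI cl13 cl13 cl4 t2 b2_0 (Tag.mk false true false RT.tl RT.r6) (I.mix (nat_lit 8088324) (nat_lit 89478486))
  (xR T2.l4 (xR T2.l12 (xR T2.l12 T2.l12))) = true := by decide +kernel
theorem bx2_0 : BoxOK sI cl13 cl13 cl4 t2 t0 b2_0 :=
  box_mk' [(tg true true false RT.r2), (tg true false false RT.r3), (Tag.mk true true false RT.tl RT.r4), (Tag.mk true false false RT.tl RT.r5), (tg false false false RT.r3), (tg false true false RT.r4), (Tag.mk false false false RT.tl RT.r5), (Tag.mk false true false RT.tl RT.r6)] rfl (allL_c (ex_mk c2_0_0) (allL_c (ex_mk c2_0_1) (allL_c (ex_mk c2_0_2) (allL_c (ex_mk c2_0_3) (allL_c (ex_mk c2_0_4) (allL_c (ex_mk c2_0_5) (allL_c (ex_mk c2_0_6) (allL_c (ex_mk c2_0_7) allL_n))))))))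
theorem bx2_1 : BoxOK sI cl13 cl13 cl4 t2 t0 b2_1 :=
  box_mk (TrL.c (I.pos (nat_lit 0) (nat_lit 0)) (xa (xb (xa T2.l11 T2.l11) (xa T2.l11 T2.l11)) T2.l0)
  (TrL.c (I.pos (nat_lit 0) (nat_lit 0)) (xa (xk T0.l8 T0.l8) (xk T0.l8 T0.l8))
  (TrL.c (I.pos (nat_lit 0) (nat_lit 134217730)) (xR T2.l4 (xR T2.l4 T2.l9))
  (TrL.c (I.pos (nat_lit 0) (nat_lit 110514882)) (xR T0.l11 (xR T0.l9 T0.l9))
  (TrL.c (I.pos (nat_lit 0) (nat_lit 0)) (xk (xa T0.l12 T0.l12) (xa T0.l12 T0.l12))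
  (TrL.c (I.pos (nat_lit 0) (nat_lit 0)) T2.l10
  (TrL.c (I.mix (nat_lit 8088324) (nat_lit 110514882)) (xR T0.l11 (xR T0.l11 T0.l11))
  (TrL.c (I.mix (nat_lit 8088324) (nat_lit 89478486)) (xR T2.l4 T2.l2)
  TrL.n)))))))) (by decide +kernel)
theorem bx2_2 : BoxOK sI cl13 cl13 cl4 t2 t0 b2_2 :=
  box_mk (TrL.c (I.pos (nat_lit 0) (nat_lit 0)) (xa (xa T2.l11 T2.l11) T2.l11)
  (TrL.c (I.pos (nat_lit 0) (nat_lit 0)) (xa T0.l8 T0.l8)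
  (TrL.c (I.pos (nat_lit 0) (nat_lit 134217730)) (xR T2.l4 (xR T2.l4 (xa T2.l9 T2.l9)))
  (TrL.c (I.pos (nat_lit 0) (nat_lit 110514882)) (xR T0.l9 (xR T0.l9 (xR T0.l9 T0.l9)))
  (TrL.c (I.pos (nat_lit 0) (nat_lit 0)) (xa T0.l12 T0.l12)
  (TrL.c (I.pos (nat_lit 0) (nat_lit 0)) T2.l10
  (TrL.c (I.mix (nat_lit 8088324) (nat_lit 110514882)) (xR T0.l11 (xR T0.l11 (xa T0.l11 T0.l11)))
  (TrL.c (I.mix (nat_lit 8088324) (nat_lit 89478486)) T2.l4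
  TrL.n)))))))) (by decide +kernel)
theorem bx2_3 : BoxOK sI cl13 cl13 cl4 t2 t0 b2_3 :=
  box_mk (TrL.c (I.pos (nat_lit 0) (nat_lit 0)) (xb (xa (xb (xs T2.l0 (xa T2.l0 T2.l0)) (xs T2.l0 T2.l0)) (xb (xs T2.l0 (xa T2.l0 T2.l0)) (xs T2.l0 T2.l0))) (xa (xb (xa T2.l13 T2.l13) (xs T2.l13 T2.l13)) (xa (xb (xs T2.l0 T2.l0) (xs T2.l0 T2.l0)) (xb (xs T2.l0 T2.l0) (xs T2.l0 T2.l0)))))
  (TrL.c (I.pos (nat_lit 0) (nat_lit 0)) (xk (xb (xa T0.l8 T0.l8) (xa T0.l8 T0.l8)) (xb T0.l8 (xa T0.l8 T0.l8)))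
  (TrL.c (I.pos (nat_lit 0) (nat_lit 134217730)) (xR T2.l4 (xR T2.l4 (xR T2.l9 (xR T2.l9 T2.l9))))
  (TrL.c (I.pos (nat_lit 0) (nat_lit 110514882)) (xR T0.l11 (xR T0.l9 (xR T0.l9 (xk T0.l9 T0.l9))))
  (TrL.c (I.pos (nat_lit 0) (nat_lit 0)) (xk (xb T0.l13 (xb T0.l10 T0.l10)) (xb T0.l13 (xa T0.l13 (xb T0.l10 T0.l10))))
  (TrL.c (I.pos (nat_lit 0) (nat_lit 0)) T2.l10
  (TrL.c (I.mix (nat_lit 8088324) (nat_lit 110514882)) (xR T0.l11 (xR T0.l11 (xR T0.l11 (xR T0.l11 T0.l11))))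
  (TrL.c (I.mix (nat_lit 8088324) (nat_lit 89478486)) (xR T2.l4 (xR T2.l12 (xR T2.l12 T2.l12)))
  TrL.n)))))))) (by decide +kernel)
theorem bx2_4 : BoxOK sI cl13 cl13 cl4 t2 t0 b2_4 :=
  box_mk (TrL.c (I.pos (nat_lit 0) (nat_lit 0)) (xa (xa (xb T2.l11 (xa T2.l11 T2.l11)) (xb T2.l11 (xa T2.l11 T2.l11))) (xa (xa T2.l11 T2.l11) (xa (xb T2.l11 T2.l11) (xb T2.l11 T2.l11))))
  (TrL.c (I.pos (nat_lit 0) (nat_lit 0)) (xa (xa T0.l8 T0.l8) (xa T0.l8 T0.l8))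
  (TrL.c (I.pos (nat_lit 0) (nat_lit 134217730)) (xR T2.l4 (xR T2.l4 (xa T2.l9 T2.l9)))
  (TrL.c (I.pos (nat_lit 0) (nat_lit 110514882)) (xR T0.l9 (xR T0.l9 (xa T0.l9 T0.l9)))
  (TrL.c (I.pos (nat_lit 0) (nat_lit 0)) (xa (xa T0.l12 T0.l12) T0.l12)
  (TrL.c (I.pos (nat_lit 0) (nat_lit 0)) (xa T2.l10 T2.l10)
  (TrL.c (I.mix (nat_lit 8088324) (nat_lit 110514882)) (xR T0.l11 (xR T0.l11 (xa T0.l11 T0.l11)))
  (TrL.c (I.mix (nat_lit 8088324) (nat_lit 89478486)) T2.l4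
  TrL.n)))))))) (by decide +kernel)
theorem bx2_5 : BoxOK sI cl13 cl13 cl4 t2 t0 b2_5 :=
  box_mk (TrL.c (I.pos (nat_lit 0) (nat_lit 0)) (xb (xa (xb (xs T2.l0 (xa T2.l0 (xb T2.l0 T2.l0))) (xs T2.l0 T2.l0)) (xb (xs T2.l0 (xa (xb T2.l0 T2.l0) (xb T2.l0 T2.l0))) (xs T2.l0 (xa T2.l0 T2.l0)))) (xa (xb T2.l0 T2.l0) (xb T2.l0 T2.l0)))
  (TrL.c (I.pos (nat_lit 0) (nat_lit 0)) (xb (xk T0.l8 T0.l8) (xk (xa T0.l8 T0.l8) T0.l8))
  (TrL.c (I.pos (nat_lit 0) (nat_lit 134217730)) (xR T2.l4 (xR T2.l4 T2.l4))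
  (TrL.c (I.pos (nat_lit 0) (nat_lit 110514882)) (xR T0.l11 (xR T0.l9 (xR T0.l9 T0.l9)))
  (TrL.c (I.pos (nat_lit 0) (nat_lit 0)) (xk (xb (xa T0.l13 T0.l13) T0.l13) (xb (xa T0.l13 T0.l13) T0.l13))
  (TrL.c (I.pos (nat_lit 0) (nat_lit 0)) T2.l10
  (TrL.c (I.mix (nat_lit 8088324) (nat_lit 110514882)) (xR T0.l11 (xR T0.l11 (xR T0.l11 (xk T0.l11 T0.l11))))
  (TrL.c (I.mix (nat_lit 8088324) (nat_lit 89478486)) (xR T2.l4 (xR T2.l12 (xR T2.l12 T2.l12)))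
  TrL.n)))))))) (by decide +kernel)
theorem bx2_6 : BoxOK sI cl13 cl13 cl4 t2 t0 b2_6 :=
  box_mk (TrL.c (I.pos (nat_lit 0) (nat_lit 0)) T2.l0
  (TrL.c (I.pos (nat_lit 0) (nat_lit 0)) T0.l8
  (TrL.c (I.pos (nat_lit 0) (nat_lit 134217730)) (xR T2.l4 (xR T2.l4 T2.l9))
  (TrL.c (I.pos (nat_lit 0) (nat_lit 110514882)) (xR T0.l9 (xR T0.l9 T0.l9))
  (TrL.c (I.pos (nat_lit 0) (nat_lit 0)) (xk T0.l12 T0.l12)
  (TrL.c (I.pos (nat_lit 0) (nat_lit 0)) T2.l10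
  (TrL.c (I.mix (nat_lit 8088324) (nat_lit 110514882)) (xR T0.l11 T0.l11)
  (TrL.c (I.mix (nat_lit 8088324) (nat_lit 89478486)) T2.l4
  TrL.n)))))))) (by decide +kernel)
theorem bx2_7 : BoxOK sI cl13 cl13 cl4 t2 t0 b2_7 :=
  box_mk (TrL.c (I.pos (nat_lit 0) (nat_lit 0)) (xa T2.l11 (xa T2.l11 T2.l11))
  (TrL.c (I.pos (nat_lit 0) (nat_lit 0)) (xa T0.l8 T0.l8)
  (TrL.c (I.pos (nat_lit 0) (nat_lit 134217730)) (xR T2.l4 (xR T2.l4 (xa T2.l9 T2.l9)))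
  (TrL.c (I.pos (nat_lit 0) (nat_lit 110514882)) (xR T0.l9 (xR T0.l9 (xR T0.l9 T0.l9)))
  (TrL.c (I.pos (nat_lit 0) (nat_lit 0)) (xa T0.l12 T0.l12)
  (TrL.c (I.pos (nat_lit 0) (nat_lit 0)) T2.l10
  (TrL.c (I.mix (nat_lit 8088324) (nat_lit 110514882)) (xR T0.l11 (xR T0.l11 (xa T0.l11 T0.l11)))
  (TrL.c (I.mix (nat_lit 8088324) (nat_lit 89478486)) T2.l4
  TrL.n)))))))) (by decide +kernel)
theorem bx2_8 : BoxOK sI cl13 cl13 cl4 t2 t0 b2_8 :=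
  box_mk (TrL.c (I.pos (nat_lit 0) (nat_lit 0)) T2.l0
  (TrL.c (I.pos (nat_lit 0) (nat_lit 0)) T0.l8
  (TrL.c (I.pos (nat_lit 0) (nat_lit 134217730)) (xR T2.l4 (xR T2.l4 T2.l9))
  (TrL.c (I.pos (nat_lit 0) (nat_lit 110514882)) (xR T0.l11 (xR T0.l9 T0.l9))
  (TrL.c (I.pos (nat_lit 0) (nat_lit 0)) (xk T0.l13 T0.l13)
  (TrL.c (I.pos (nat_lit 0) (nat_lit 0)) T2.l10
  (TrL.c (I.mix (nat_lit 8088324) (nat_lit 110514882)) (xR T0.l11 T0.l11)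
  (TrL.c (I.mix (nat_lit 8088324) (nat_lit 89478486)) (xR T2.l4 T2.l12)
  TrL.n)))))))) (by decide +kernel)
theorem bx2_9 : BoxOK sI cl13 cl13 cl4 t2 t0 b2_9 :=
  box_mk (TrL.c (I.pos (nat_lit 0) (nat_lit 0)) (xa (xa T2.l11 T2.l11) (xa T2.l11 T2.l11))
  (TrL.c (I.pos (nat_lit 0) (nat_lit 0)) (xa T0.l8 T0.l8)
  (TrL.c (I.pos (nat_lit 0) (nat_lit 134217730)) (xR T2.l4 (xR T2.l4 T2.l9))
  (TrL.c (I.pos (nat_lit 0) (nat_lit 110514882)) (xR T0.l9 (xR T0.l9 T0.l9))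
  (TrL.c (I.pos (nat_lit 0) (nat_lit 0)) T0.l12
  (TrL.c (I.pos (nat_lit 0) (nat_lit 0)) T2.l10
  (TrL.c (I.mix (nat_lit 8088324) (nat_lit 110514882)) (xR T0.l11 T0.l11)
  (TrL.c (I.mix (nat_lit 8088324) (nat_lit 89478486)) T2.l4
  TrL.n)))))))) (by decide +kernel)
theorem bx2_10 : BoxOK sI cl13 cl13 cl4 t2 t0 b2_10 :=
  box_mk (TrL.c (I.pos (nat_lit 0) (nat_lit 0)) (xb (xa (xb (xa T2.l11 (xb T2.l11 T2.l11)) T2.l11) (xb (xa T2.l0 T2.l0) T2.l11)) (xa (xb T2.l11 T2.l11) (xb T2.l11 T2.l11)))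
  (TrL.c (I.pos (nat_lit 0) (nat_lit 0)) (xb (xk T0.l8 T0.l8) T0.l8)
  (TrL.c (I.pos (nat_lit 0) (nat_lit 134217730)) (xR T2.l4 (xR T2.l4 T2.l9))
  (TrL.c (I.pos (nat_lit 0) (nat_lit 110514882)) (xR T0.l9 (xR T0.l9 T0.l9))
  (TrL.c (I.pos (nat_lit 0) (nat_lit 0)) (xb (xk T0.l12 T0.l12) (xk T0.l12 T0.l12))
  (TrL.c (I.pos (nat_lit 0) (nat_lit 0)) T2.l10
  (TrL.c (I.mix (nat_lit 8088324) (nat_lit 110514882)) (xR T0.l11 (xR T0.l11 T0.l11))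
  (TrL.c (I.mix (nat_lit 8088324) (nat_lit 89478486)) T2.l4
  TrL.n)))))))) (by decide +kernel)
theorem bx2_11 : BoxOK sI cl13 cl13 cl4 t2 t0 b2_11 :=
  box_mk (TrL.c (I.pos (nat_lit 0) (nat_lit 0)) (xa (xa (xb T2.l0 T2.l0) (xb T2.l0 T2.l0)) (xa (xb T2.l0 T2.l0) (xb T2.l0 T2.l0)))
  (TrL.c (I.pos (nat_lit 0) (nat_lit 0)) (xa (xk (xb T0.l8 T0.l8) T0.l8) (xk (xa (xb T0.l8 T0.l8) (xb T0.l2 T0.l2)) (xa T0.l8 T0.l8)))
  (TrL.c (I.pos (nat_lit 0) (nat_lit 134217730)) (xR (xR T2.l4 T2.l4) (xR T2.l4 T2.l4))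
  (TrL.c (I.pos (nat_lit 0) (nat_lit 110514882)) (xR (xR T0.l9 T0.l9) (xR (xR T0.l9 T0.l9) (xR T0.l9 (xa T0.l9 T0.l9))))
  (TrL.c (I.pos (nat_lit 0) (nat_lit 0)) (xa (xk T0.l10 T0.l10) (xk (xb (xa T0.l10 T0.l10) (xa T0.l10 T0.l10)) (xb (xa T0.l10 T0.l10) (xa T0.l10 T0.l10))))
  (TrL.c (I.pos (nat_lit 0) (nat_lit 0)) (xk (xa T2.l10 T2.l10) (xa T2.l10 T2.l10))
  (TrL.c (I.mix (nat_lit 8088324) (nat_lit 110514882)) (xR T0.l11 (xR T0.l11 (xR T0.l11 (xR T0.l11 T0.l11))))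
  (TrL.c (I.mix (nat_lit 8088324) (nat_lit 89478486)) (xR T2.l4 (xR T2.l12 (xR T2.l12 T2.l12)))
  TrL.n)))))))) (by decide +kernel)
theorem bx2_12 : BoxOK sI cl13 cl13 cl4 t2 t0 b2_12 :=
  box_mk (TrL.c (I.pos (nat_lit 0) (nat_lit 0)) (xa T2.l11 T2.l11)
  (TrL.c (I.pos (nat_lit 0) (nat_lit 0)) (xa T0.l8 T0.l8)
  (TrL.c (I.pos (nat_lit 0) (nat_lit 134217730)) (xR T2.l4 (xR T2.l4 T2.l9))
  (TrL.c (I.pos (nat_lit 0) (nat_lit 110514882)) (xR T0.l9 T0.l9)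
  (TrL.c (I.pos (nat_lit 0) (nat_lit 0)) (xa T0.l12 T0.l12)
  (TrL.c (I.pos (nat_lit 0) (nat_lit 0)) T2.l10
  (TrL.c (I.mix (nat_lit 8088324) (nat_lit 110514882)) (xR T0.l11 T0.l11)
  (TrL.c (I.mix (nat_lit 8088324) (nat_lit 89478486)) T2.l4
  TrL.n)))))))) (by decide +kernel)
theorem bx2_13 : BoxOK sI cl13 cl13 cl4 t2 t0 b2_13 :=
  box_mk (TrL.c (I.pos (nat_lit 0) (nat_lit 0)) (xa (xb (xs T2.l0 (xa T2.l0 T2.l0)) (xs T2.l0 (xa T2.l0 T2.l0))) (xb (xs T2.l0 (xa T2.l0 (xb T2.l0 T2.l0))) (xs T2.l0 (xa T2.l0 (xb T2.l0 T2.l0)))))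
  (TrL.c (I.pos (nat_lit 0) (nat_lit 0)) (xk (xa T0.l8 T0.l8) (xa T0.l8 T0.l8))
  (TrL.c (I.pos (nat_lit 0) (nat_lit 134217730)) (xR T2.l4 (xR T2.l4 (xR T2.l9 T2.l4)))
  (TrL.c (I.pos (nat_lit 0) (nat_lit 110514882)) (xR T0.l11 (xR T0.l9 (xR T0.l9 T0.l9)))
  (TrL.c (I.pos (nat_lit 0) (nat_lit 0)) (xk (xa T0.l10 T0.l10) T0.l10)
  (TrL.c (I.pos (nat_lit 0) (nat_lit 0)) T2.l10
  (TrL.c (I.mix (nat_lit 8088324) (nat_lit 110514882)) (xR T0.l11 (xR T0.l11 T0.l11))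
  (TrL.c (I.mix (nat_lit 8088324) (nat_lit 89478486)) (xR T2.l4 (xR T2.l12 T2.l12))
  TrL.n)))))))) (by decide +kernel)
theorem sv2 : StarV sI cl13 cl13 cl4 t2 t0 t2 :=
  (bt_n (bt_n (bt_n (bt_b bx2_0) (bt_n (bt_b bx2_1) (bt_b bx2_2))) (bt_n (bt_n (bt_b bx2_3) (bt_b bx2_4)) (bt_n (bt_b bx2_5) (bt_b bx2_6)))) (bt_n (bt_n (bt_b bx2_7) (bt_n (bt_b bx2_8) (bt_b bx2_9))) (bt_n (bt_n (bt_b bx2_10) (bt_b bx2_11)) (bt_n (bt_b bx2_12) (bt_b bx2_13)))))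
def S2 : StarD := StarD.mk cl13 cl13 cl4 2 0 t2
def G : List StarD := [S0, S1, S2]
theorem so0 : StarOK sI G S0 :=
  star_mk (by decide) (by decide) rfl rfl rfl rfl rfl rfl (rfl : _ = t1) (rfl : _ = t1)
  (st_mk (Pth.l (Pth.l (Pth.l Pth.z))) (nat_lit 98278382) (nat_lit 117752505) (by decide +kernel))
  (st_mk (Pth.l (Pth.l (Pth.l Pth.z))) (nat_lit 135348421) (nat_lit 155571961) (by decide +kernel))
  (st_mk (Pth.l (Pth.l (Pth.l Pth.z))) (nat_lit 179056321) (nat_lit 200349891) (by decide +kernel)) sv0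
theorem so1 : StarOK sI G S1 :=
  star_mk (by decide) (by decide) rfl rfl rfl rfl rfl rfl (rfl : _ = t0) (rfl : _ = t2)
  (st_mk (Pth.l (Pth.l (Pth.l Pth.z))) (nat_lit 364798899) (nat_lit 367692191) (by decide +kernel))
  (st_mk (Pth.l (Pth.l (Pth.l Pth.z))) (nat_lit 399695508) (nat_lit 403062795) (by decide +kernel))
  (st_mk (Pth.l (Pth.l (Pth.l Pth.z))) (nat_lit 439960827) (nat_lit 443929975) (by decide +kernel)) sv1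
theorem so2 : StarOK sI G S2 :=
  star_mk (by decide) (by decide) rfl rfl rfl rfl rfl rfl (rfl : _ = t2) (rfl : _ = t0)
  (st_mk (Pth.l (Pth.l (Pth.l Pth.z))) (nat_lit 95831458) (nat_lit 114288689) (by decide +kernel))
  (st_mk (Pth.l (Pth.l (Pth.l Pth.z))) (nat_lit 130728068) (nat_lit 149490766) (by decide +kernel))
  (st_mk (Pth.l (Pth.l (Pth.l Pth.z))) (nat_lit 170993386) (nat_lit 190211774) (by decide +kernel)) sv2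
theorem ok : GroupOK (nat_lit 150274048) (nat_lit 209387520) G := grp_mk (allS_c so0 (allS_c so1 (allS_c so2 allS_n)))
theorem cov : GCov G cl4 cl13 cl13 := cov_mk
  ⟨0, by decide, rfl, rfl, rfl⟩ ⟨0, by decide, rfl, rfl, rfl⟩ ⟨1, by decide, rfl, rfl, rfl⟩ ⟨2, by decide, rfl, rfl, rfl⟩ ⟨1, by decide, rfl, rfl, rfl⟩ ⟨2, by decide, rfl, rfl, rfl⟩
end Q166_2


end Pool.Agent.Helper6.MONO
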