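import Pool.Agent.Helper6.MONO.Asm

/-!
Certificate data (generated).
-/

set_option autoImplicit false
set_option linter.all false
noncomputable section
namespace Pool.Agent.Helper6.MONO


namespace Q166_3
def sI : I := I.pos (nat_lit 209321984) (nat_lit 268435456)
def b0_0 : Bx := Bx.mk (St.mk (I.pos (nat_lit 160514048) (nat_lit 238239744)) (I.mix (nat_lit 278528) (nat_lit 51642368)) (I.mix (nat_lit 278528) (nat_lit 57671680)) (I.pos (nat_lit 98631680) (nat_lit 240959488)) (I.mix (nat_lit 98205696) (nat_lit 70533120)) (I.mix (nat_lit 60850176) (nat_lit 59604992)) (I.mix (nat_lit 95272960) (nat_lit 91455488)))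
  false (nat_lit 1556963)
def b0_1 : Bx := Bx.mk (St.mk (I.mix (nat_lit 3489792) (nat_lit 133660672)) (I.mix (nat_lit 4816896) (nat_lit 22675456)) (I.mix (nat_lit 19447808) (nat_lit 7962624)) (I.mix (nat_lit 557056) (nat_lit 83132416)) (I.mix (nat_lit 33554432) (nat_lit 41238528)) (I.mix (nat_lit 32129024) (nat_lit 25165824)) (I.mix (nat_lit 27295744) (nat_lit 20250624)))
  false (nat_lit 0)
def b0_2 : Bx := Bx.mk (St.mk (I.pos (nat_lit 111017984) (nat_lit 148488192)) (I.mix (nat_lit 37715968) (nat_lit 7356416)) (I.neg (nat_lit 5537792) (nat_lit 54706176)) (I.pos (nat_lit 48611328) (nat_lit 97796096)) (I.mix (nat_lit 91275264) (nat_lit 44351488)) (I.mix (nat_lit 37535744) (nat_lit 72908800)) (I.mix (nat_lit 28901376) (nat_lit 69861376)))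
  false (nat_lit 0)
def b0_3 : Bx := Bx.mk (St.mk (I.mix (nat_lit 8650752) (nat_lit 99041280)) (I.mix (nat_lit 20135936) (nat_lit 966656)) (I.mix (nat_lit 23150592) (nat_lit 557056)) (I.mix (nat_lit 557056) (nat_lit 52264960)) (I.mix (nat_lit 38977536) (nat_lit 19808256)) (I.mix (nat_lit 17301504) (nat_lit 31375360)) (I.mix (nat_lit 9224192) (nat_lit 20824064)))
  false (nat_lit 0)
def b0_4 : Bx := Bx.mk (St.mk (I.pos (nat_lit 205488128) (nat_lit 250806272)) (I.mix (nat_lit 12550144) (nat_lit 24199168)) (I.mix (nat_lit 66191360) (nat_lit 2801664)) (I.pos (nat_lit 182222848) (nat_lit 255311872)) (I.mix (nat_lit 105644032) (nat_lit 45252608)) (I.mix (nat_lit 63324160) (nat_lit 65028096)) (I.mix (nat_lit 95141888) (nat_lit 118554624)))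
  false (nat_lit 0)
def b0_5 : Bx := Bx.mk (St.mk (I.pos (nat_lit 106840064) (nat_lit 133988352)) (I.mix (nat_lit 7176192) (nat_lit 10174464)) (I.neg (nat_lit 2818048) (nat_lit 22331392)) (I.pos (nat_lit 47284224) (nat_lit 83329024)) (I.mix (nat_lit 35487744) (nat_lit 23494656)) (I.mix (nat_lit 22691840) (nat_lit 22708224)) (I.mix (nat_lit 17465344) (nat_lit 22396928)))
  false (nat_lit 0)
def b0_6 : Bx := Bx.mk (St.mk (I.mix (nat_lit 11223040) (nat_lit 88637440)) (I.mix (nat_lit 1540096) (nat_lit 2260992)) (I.mix (nat_lit 9388032) (nat_lit 557056)) (I.mix (nat_lit 557056) (nat_lit 45006848)) (I.mix (nat_lit 6881280) (nat_lit 4308992)) (I.mix (nat_lit 3817472) (nat_lit 3637248)) (I.mix (nat_lit 933888) (nat_lit 2359296)))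
  false (nat_lit 0)
def b0_7 : Bx := Bx.mk (St.mk (I.pos (nat_lit 197656576) (nat_lit 246841344)) (I.pos (nat_lit 7208960) (nat_lit 50872320)) (I.mix (nat_lit 17973248) (nat_lit 53821440)) (I.pos (nat_lit 178225152) (nat_lit 257130496)) (I.mix (nat_lit 106364928) (nat_lit 91078656)) (I.mix (nat_lit 87408640) (nat_lit 72892416)) (I.mix (nat_lit 145309696) (nat_lit 116637696)))
  false (nat_lit 4340380)
def b0_8 : Bx := Bx.mk (St.mk (I.pos (nat_lit 212959232) (nat_lit 257409024)) (I.mix (nat_lit 13778944) (nat_lit 12763136)) (I.neg (nat_lit 19251200) (nat_lit 74498048)) (I.pos (nat_lit 191512576) (nat_lit 271958016)) (I.mix (nat_lit 99057664) (nat_lit 44056576)) (I.mix (nat_lit 55754752) (nat_lit 60768256)) (I.mix (nat_lit 82051072) (nat_lit 113655808)))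
  false (nat_lit 0)
def b0_9 : Bx := Bx.mk (St.mk (I.pos (nat_lit 111198208) (nat_lit 179994624)) (I.neg (nat_lit 3112960) (nat_lit 39632896)) (I.neg (nat_lit 15155200) (nat_lit 55115776)) (I.pos (nat_lit 59965440) (nat_lit 137265152)) (I.mix (nat_lit 72663040) (nat_lit 38322176)) (I.mix (nat_lit 32260096) (nat_lit 55476224)) (I.mix (nat_lit 27574272) (nat_lit 59686912)))
  false (nat_lit 0)
def b0_10 : Bx := Bx.mk (St.mk (I.mix (nat_lit 5668864) (nat_lit 112328704)) (I.mix (nat_lit 21610496) (nat_lit 3129344)) (I.mix (nat_lit 22659072) (nat_lit 557056)) (I.mix (nat_lit 557056) (nat_lit 63111168)) (I.mix (nat_lit 38141952) (nat_lit 23429120)) (I.mix (nat_lit 16613376) (nat_lit 28901376)) (I.mix (nat_lit 9502720) (nat_lit 21037056)))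
  false (nat_lit 0)
def b0_11 : Bx := Bx.mk (St.mk (I.pos (nat_lit 175357952) (nat_lit 218710016)) (I.mix (nat_lit 12615680) (nat_lit 44449792)) (I.mix (nat_lit 21970944) (nat_lit 51986432)) (I.pos (nat_lit 128008192) (nat_lit 204292096)) (I.mix (nat_lit 123273216) (nat_lit 52953088)) (I.mix (nat_lit 99598336) (nat_lit 65552384)) (I.mix (nat_lit 109051904) (nat_lit 73170944)))
  false (nat_lit 0)
def b0_12 : Bx := Bx.mk (St.mk (I.mix (nat_lit 9093120) (nat_lit 135053312)) (I.mix (nat_lit 10731520) (nat_lit 24576000)) (I.mix (nat_lit 18300928) (nat_lit 10256384)) (I.mix (nat_lit 557056) (nat_lit 82837504)) (I.mix (nat_lit 44040192) (nat_lit 40665088)) (I.mix (nat_lit 42696704) (nat_lit 31162368)) (I.mix (nat_lit 27885568) (nat_lit 21430272)))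
  false (nat_lit 0)
def b0_13 : Bx := Bx.mk (St.mk (I.pos (nat_lit 176963584) (nat_lit 217169920)) (I.mix (nat_lit 26902528) (nat_lit 12337152)) (I.mix (nat_lit 47251456) (nat_lit 3112960)) (I.pos (nat_lit 125779968) (nat_lit 190595072)) (I.mix (nat_lit 74285056) (nat_lit 69271552)) (I.mix (nat_lit 70320128) (nat_lit 67108864)) (I.mix (nat_lit 76824576) (nat_lit 68550656)))
  false (nat_lit 0)
def b0_14 : Bx := Bx.mk (St.mk (I.pos (nat_lit 154976256) (nat_lit 197869568)) (I.neg (nat_lit 1589248) (nat_lit 34947072)) (I.neg (nat_lit 9912320) (nat_lit 57491456)) (I.pos (nat_lit 96501760) (nat_lit 161087488)) (I.mix (nat_lit 46055424) (nat_lit 24559616)) (I.mix (nat_lit 22020096) (nat_lit 29835264)) (I.mix (nat_lit 24461312) (nat_lit 37552128)))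
  false (nat_lit 0)
def b0_15 : Bx := Bx.mk (St.mk (I.pos (nat_lit 175521792) (nat_lit 218955776)) (I.mix (nat_lit 16449536) (nat_lit 25444352)) (I.mix (nat_lit 32276480) (nat_lit 23756800)) (I.pos (nat_lit 128499712) (nat_lit 194658304)) (I.mix (nat_lit 107249664) (nat_lit 88866816)) (I.mix (nat_lit 113819648) (nat_lit 85245952)) (I.mix (nat_lit 125272064) (nat_lit 93585408)))
  false (nat_lit 4024181)
def b0_16 : Bx := Bx.mk (St.mk (I.pos (nat_lit 153141248) (nat_lit 200966144)) (I.mix (nat_lit 30703616) (nat_lit 6258688)) (I.neg (nat_lit 2719744) (nat_lit 50167808)) (I.pos (nat_lit 94240768) (nat_lit 166985728)) (I.mix (nat_lit 57966592) (nat_lit 33783808)) (I.mix (nat_lit 42123264) (nat_lit 34996224)) (I.mix (nat_lit 45514752) (nat_lit 40239104)))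
  false (nat_lit 0)
def b0_17 : Bx := Bx.mk (St.mk (I.pos (nat_lit 154615808) (nat_lit 198230016)) (I.mix (nat_lit 33161216) (nat_lit 557056)) (I.neg (nat_lit 8077312) (nat_lit 54837248)) (I.pos (nat_lit 95879168) (nat_lit 163840000)) (I.mix (nat_lit 39239680) (nat_lit 17809408)) (I.mix (nat_lit 19038208) (nat_lit 22577152)) (I.mix (nat_lit 20430848) (nat_lit 28246016)))
  false (nat_lit 0)
def b0_18 : Bx := Bx.mk (St.mk (I.pos (nat_lit 171114496) (nat_lit 201834496)) (I.mix (nat_lit 22347776) (nat_lit 7258112)) (I.neg (nat_lit 1753088) (nat_lit 38780928)) (I.pos (nat_lit 114851840) (nat_lit 168214528)) (I.mix (nat_lit 46383104) (nat_lit 24985600)) (I.mix (nat_lit 30113792) (nat_lit 28753920)) (I.mix (nat_lit 31457280) (nat_lit 32620544)))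
  false (nat_lit 0)
def b0_19 : Bx := Bx.mk (St.mk (I.pos (nat_lit 176144384) (nat_lit 211976192)) (I.mix (nat_lit 24526848) (nat_lit 10174464)) (I.mix (nat_lit 42614784) (nat_lit 851968)) (I.pos (nat_lit 123535360) (nat_lit 181501952)) (I.mix (nat_lit 70926336) (nat_lit 51462144)) (I.mix (nat_lit 55525376) (nat_lit 56033280)) (I.mix (nat_lit 59277312) (nat_lit 63389696)))
  false (nat_lit 0)
def b0_20 : Bx := Bx.mk (St.mk (I.pos (nat_lit 181796864) (nat_lit 214646784)) (I.mix (nat_lit 18563072) (nat_lit 11714560)) (I.mix (nat_lit 35176448) (nat_lit 3260416)) (I.pos (nat_lit 133103616) (nat_lit 186220544)) (I.mix (nat_lit 61194240) (nat_lit 51298304)) (I.mix (nat_lit 54476800) (nat_lit 52707328)) (I.mix (nat_lit 58195968) (nat_lit 56590336)))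
  false (nat_lit 0)
def t0 : BTr := (BTr.n (BTr.n (BTr.n (BTr.n (BTr.b b0_0) (BTr.b b0_1)) (BTr.n (BTr.b b0_2) (BTr.n (BTr.b b0_3) (BTr.b b0_4)))) (BTr.n (BTr.n (BTr.b b0_5) (BTr.b b0_6)) (BTr.n (BTr.b b0_7) (BTr.n (BTr.b b0_8) (BTr.b b0_9))))) (BTr.n (BTr.n (BTr.n (BTr.b b0_10) (BTr.b b0_11)) (BTr.n (BTr.b b0_12) (BTr.n (BTr.b b0_13) (BTr.b b0_14)))) (BTr.n (BTr.n (BTr.b b0_15) (BTr.n (BTr.b b0_16) (BTr.b b0_17))) (BTr.n (BTr.b b0_18) (BTr.n (BTr.b b0_19) (BTr.b b0_20))))))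
namespace T0
def l0 : Tr := Tr.L (Pth.l (Pth.l (Pth.l (Pth.l Pth.z))))
def l1 : Tr := Tr.L (Pth.l (Pth.l (Pth.l (Pth.r Pth.z))))
def l2 : Tr := Tr.L (Pth.l (Pth.l (Pth.r (Pth.l Pth.z))))
def l3 : Tr := Tr.L (Pth.l (Pth.l (Pth.r (Pth.r (Pth.l Pth.z)))))
def l4 : Tr := Tr.L (Pth.l (Pth.l (Pth.r (Pth.r (Pth.r Pth.z)))))
def l5 : Tr := Tr.L (Pth.l (Pth.r (Pth.l (Pth.l Pth.z))))
def l6 : Tr := Tr.L (Pth.l (Pth.r (Pth.l (Pth.r Pth.z))))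
def l7 : Tr := Tr.L (Pth.l (Pth.r (Pth.r (Pth.l Pth.z))))
def l8 : Tr := Tr.L (Pth.l (Pth.r (Pth.r (Pth.r (Pth.l Pth.z)))))
def l9 : Tr := Tr.L (Pth.l (Pth.r (Pth.r (Pth.r (Pth.r Pth.z)))))
def l10 : Tr := Tr.L (Pth.r (Pth.l (Pth.l (Pth.l Pth.z))))
def l11 : Tr := Tr.L (Pth.r (Pth.l (Pth.l (Pth.r Pth.z))))
def l12 : Tr := Tr.L (Pth.r (Pth.l (Pth.r (Pth.l Pth.z))))
def l13 : Tr := Tr.L (Pth.r (Pth.l (Pth.r (Pth.r (Pth.l Pth.z)))))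
def l14 : Tr := Tr.L (Pth.r (Pth.l (Pth.r (Pth.r (Pth.r Pth.z)))))
def l15 : Tr := Tr.L (Pth.r (Pth.r (Pth.l (Pth.l Pth.z))))
def l16 : Tr := Tr.L (Pth.r (Pth.r (Pth.l (Pth.r (Pth.l Pth.z)))))
def l17 : Tr := Tr.L (Pth.r (Pth.r (Pth.l (Pth.r (Pth.r Pth.z)))))
def l18 : Tr := Tr.L (Pth.r (Pth.r (Pth.r (Pth.l Pth.z))))
def l19 : Tr := Tr.L (Pth.r (Pth.r (Pth.r (Pth.r (Pth.l Pth.z)))))
def l20 : Tr := Tr.L (Pth.r (Pth.r (Pth.r (Pth.r (Pth.r Pth.z)))))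
end T0
def b1_0 : Bx := Bx.mk (St.mk (I.pos (nat_lit 139755520) (nat_lit 215302144)) (I.mix (nat_lit 278528) (nat_lit 87736320)) (I.mix (nat_lit 278528) (nat_lit 96960512)) (I.pos (nat_lit 364249088) (nat_lit 456867840)) (I.mix (nat_lit 161431552) (nat_lit 89456640)) (I.mix (nat_lit 85360640) (nat_lit 80740352)) (I.mix (nat_lit 105578496) (nat_lit 111312896)))
  false (nat_lit 111633521)
def b1_1 : Bx := Bx.mk (St.mk (I.pos (nat_lit 19972096) (nat_lit 120471552)) (I.neg (nat_lit 11567104) (nat_lit 86818816)) (I.mix (nat_lit 71352320) (nat_lit 2228224)) (I.pos (nat_lit 264060928) (nat_lit 326909952)) (I.mix (nat_lit 119275520) (nat_lit 77250560)) (I.mix (nat_lit 72204288) (nat_lit 76890112)) (I.mix (nat_lit 73072640) (nat_lit 64815104)))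
  false (nat_lit 73742809)
def b1_2 : Bx := Bx.mk (St.mk (I.mix (nat_lit 55508992) (nat_lit 10633216)) (I.mix (nat_lit 7176192) (nat_lit 85049344)) (I.neg (nat_lit 36700160) (nat_lit 65650688)) (I.pos (nat_lit 258539520) (nat_lit 291094528)) (I.mix (nat_lit 66863104) (nat_lit 123109376)) (I.mix (nat_lit 86458368) (nat_lit 69894144)) (I.mix (nat_lit 46497792) (nat_lit 33865728)))
  true (nat_lit 0)
def b1_3 : Bx := Bx.mk (St.mk (I.pos (nat_lit 98205696) (nat_lit 187023360)) (I.mix (nat_lit 32899072) (nat_lit 80642048)) (I.mix (nat_lit 25395200) (nat_lit 101089280)) (I.pos (nat_lit 303628288) (nat_lit 423264256)) (I.mix (nat_lit 179306496) (nat_lit 101957632)) (I.mix (nat_lit 135806976) (nat_lit 100352000)) (I.mix (nat_lit 136429568) (nat_lit 125583360)))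
  false (nat_lit 95931398)
def b1_4 : Bx := Bx.mk (St.mk (I.pos (nat_lit 9977856) (nat_lit 55508992)) (I.neg (nat_lit 33013760) (nat_lit 85049344)) (I.neg (nat_lit 38060032) (nat_lit 65650688)) (I.pos (nat_lit 263634944) (nat_lit 291094528)) (I.mix (nat_lit 123109376) (nat_lit 50348032)) (I.mix (nat_lit 69894144) (nat_lit 83034112)) (I.mix (nat_lit 46497792) (nat_lit 33865728)))
  false (nat_lit 55365980)
def b1_5 : Bx := Bx.mk (St.mk (I.neg (nat_lit 19955712) (nat_lit 120471552)) (I.pos (nat_lit 11567104) (nat_lit 86818816)) (I.mix (nat_lit 71352320) (nat_lit 2228224)) (I.pos (nat_lit 264060928) (nat_lit 326909952)) (I.mix (nat_lit 77250560) (nat_lit 119291904)) (I.mix (nat_lit 76890112) (nat_lit 72204288)) (I.mix (nat_lit 73072640) (nat_lit 64815104)))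
  true (nat_lit 20347044)
def b1_6 : Bx := Bx.mk (St.mk (I.pos (nat_lit 198836224) (nat_lit 283721728)) (I.mix (nat_lit 8388608) (nat_lit 61472768)) (I.mix (nat_lit 109707264) (nat_lit 36405248)) (I.pos (nat_lit 438468608) (nat_lit 555450368)) (I.mix (nat_lit 65503232) (nat_lit 57458688)) (I.mix (nat_lit 43925504) (nat_lit 35078144)) (I.mix (nat_lit 66617344) (nat_lit 62144512)))
  false (nat_lit 109696562)
def b1_7 : Bx := Bx.mk (St.mk (I.mix (nat_lit 9060352) (nat_lit 28065792)) (I.mix (nat_lit 40091648) (nat_lit 3112960)) (I.neg (nat_lit 38797312) (nat_lit 52805632)) (I.pos (nat_lit 258457600) (nat_lit 271646720)) (I.mix (nat_lit 37158912) (nat_lit 16875520)) (I.mix (nat_lit 15040512) (nat_lit 19382272)) (I.mix (nat_lit 5603328) (nat_lit 8749056)))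
  false (nat_lit 0)
def b1_8 : Bx := Bx.mk (St.mk (I.pos (nat_lit 185991168) (nat_lit 231555072)) (I.pos (nat_lit 14925824) (nat_lit 56623104)) (I.mix (nat_lit 28590080) (nat_lit 33505280)) (I.pos (nat_lit 414646272) (nat_lit 464011264)) (I.mix (nat_lit 85786624) (nat_lit 85000192)) (I.mix (nat_lit 64700416) (nat_lit 58081280)) (I.mix (nat_lit 89735168) (nat_lit 82001920)))
  false (nat_lit 103443260)
def b1_9 : Bx := Bx.mk (St.mk (I.pos (nat_lit 14319616) (nat_lit 38469632)) (I.neg (nat_lit 16105472) (nat_lit 42369024)) (I.neg (nat_lit 36700160) (nat_lit 52477952)) (I.pos (nat_lit 261734400) (nat_lit 274137088)) (I.mix (nat_lit 63094784) (nat_lit 37765120)) (I.mix (nat_lit 36700160) (nat_lit 41304064)) (I.mix (nat_lit 12140544) (nat_lit 16072704)))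
  false (nat_lit 0)
def b1_10 : Bx := Bx.mk (St.mk (I.pos (nat_lit 230342656) (nat_lit 275070976)) (I.mix (nat_lit 16629760) (nat_lit 31997952)) (I.neg (nat_lit 19087360) (nat_lit 122748928)) (I.pos (nat_lit 468910080) (nat_lit 538558464)) (I.mix (nat_lit 52363264) (nat_lit 39157760)) (I.mix (nat_lit 38862848) (nat_lit 39305216)) (I.mix (nat_lit 52658176) (nat_lit 72679424)))
  false (nat_lit 88435011)
def b1_11 : Bx := Bx.mk (St.mk (I.mix (nat_lit 6062080) (nat_lit 26361856)) (I.mix (nat_lit 26411008) (nat_lit 7176192)) (I.neg (nat_lit 38453248) (nat_lit 51232768)) (I.pos (nat_lit 258539520) (nat_lit 268959744)) (I.mix (nat_lit 27951104) (nat_lit 21659648)) (I.mix (nat_lit 15843328) (nat_lit 17170432)) (I.mix (nat_lit 3309568) (nat_lit 8159232)))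
  false (nat_lit 0)
def b1_12 : Bx := Bx.mk (St.mk (I.pos (nat_lit 199966720) (nat_lit 233275392)) (I.pos (nat_lit 26394624) (nat_lit 55803904)) (I.mix (nat_lit 14286848) (nat_lit 28327936)) (I.pos (nat_lit 437911552) (nat_lit 468303872)) (I.mix (nat_lit 48889856) (nat_lit 36143104)) (I.mix (nat_lit 31522816) (nat_lit 24428544)) (I.mix (nat_lit 41893888) (nat_lit 34095104)))
  false (nat_lit 61499877)
def b1_13 : Bx := Bx.mk (St.mk (I.pos (nat_lit 262045696) (nat_lit 274300928)) (I.mix (nat_lit 7962624) (nat_lit 3014656)) (I.neg (nat_lit 76791808) (nat_lit 111722496)) (I.pos (nat_lit 511918080) (nat_lit 537231360)) (I.mix (nat_lit 10158080) (nat_lit 7618560)) (I.mix (nat_lit 7831552) (nat_lit 4325376)) (I.mix (nat_lit 7454720) (nat_lit 13336576)))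
  false (nat_lit 0)
def b1_14 : Bx := Bx.mk (St.mk (I.pos (nat_lit 179208192) (nat_lit 225361920)) (I.pos (nat_lit 14778368) (nat_lit 52477952)) (I.mix (nat_lit 29229056) (nat_lit 30588928)) (I.pos (nat_lit 406290432) (nat_lit 452526080)) (I.mix (nat_lit 81412096) (nat_lit 53051392)) (I.mix (nat_lit 54657024) (nat_lit 43253760)) (I.mix (nat_lit 68911104) (nat_lit 65372160)))
  false (nat_lit 78362286)
def b1_15 : Bx := Bx.mk (St.mk (I.pos (nat_lit 15368192) (nat_lit 46383104)) (I.neg (nat_lit 15319040) (nat_lit 49774592)) (I.neg (nat_lit 36700160) (nat_lit 53231616)) (I.pos (nat_lit 261865472) (nat_lit 278036480)) (I.mix (nat_lit 53723136) (nat_lit 38518784)) (I.mix (nat_lit 33718272) (nat_lit 35799040)) (I.mix (nat_lit 12468224) (nat_lit 16203776)))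
  false (nat_lit 0)
def b1_16 : Bx := Bx.mk (St.mk (I.pos (nat_lit 210534400) (nat_lit 275070976)) (I.mix (nat_lit 15646720) (nat_lit 41713664)) (I.mix (nat_lit 120733696) (nat_lit 2342912)) (I.pos (nat_lit 444219392) (nat_lit 538443776)) (I.mix (nat_lit 55033856) (nat_lit 46006272)) (I.mix (nat_lit 38486016) (nat_lit 40861696)) (I.mix (nat_lit 54116352) (nat_lit 75677696)))
  false (nat_lit 105784032)
def b1_17 : Bx := Bx.mk (St.mk (I.mix (nat_lit 4243456) (nat_lit 27672576)) (I.mix (nat_lit 30310400) (nat_lit 6373376)) (I.neg (nat_lit 38371328) (nat_lit 51593216)) (I.pos (nat_lit 258506752) (nat_lit 269877248)) (I.mix (nat_lit 27901952) (nat_lit 21528576)) (I.mix (nat_lit 15335424) (nat_lit 16220160)) (I.mix (nat_lit 3735552) (nat_lit 7847936)))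
  false (nat_lit 0)
def b1_18 : Bx := Bx.mk (St.mk (I.pos (nat_lit 153485312) (nat_lit 206569472)) (I.pos (nat_lit 33587200) (nat_lit 84705280)) (I.pos (nat_lit 13975552) (nat_lit 86573056)) (I.pos (nat_lit 386072576) (nat_lit 443072512)) (I.mix (nat_lit 139264000) (nat_lit 98631680)) (I.mix (nat_lit 97697792) (nat_lit 73940992)) (I.mix (nat_lit 131514368) (nat_lit 109871104)))
  false (nat_lit 103680699)
def b1_19 : Bx := Bx.mk (St.mk (I.pos (nat_lit 13762560) (nat_lit 48594944)) (I.neg (nat_lit 28950528) (nat_lit 73826304)) (I.neg (nat_lit 38223872) (nat_lit 62685184)) (I.pos (nat_lit 264830976) (nat_lit 284983296)) (I.mix (nat_lit 112328704) (nat_lit 66863104)) (I.mix (nat_lit 62865408) (nat_lit 86458368)) (I.mix (nat_lit 30212096) (nat_lit 29900800)))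
  false (nat_lit 49306936)
def b1_20 : Bx := Bx.mk (St.mk (I.pos (nat_lit 201113600) (nat_lit 287293440)) (I.mix (nat_lit 13729792) (nat_lit 62554112)) (I.mix (nat_lit 121044992) (nat_lit 38666240)) (I.pos (nat_lit 437764096) (nat_lit 561872896)) (I.mix (nat_lit 69697536) (nat_lit 78200832)) (I.mix (nat_lit 68698112) (nat_lit 52281344)) (I.mix (nat_lit 107249664) (nat_lit 92258304)))
  false (nat_lit 111181272)
def b1_21 : Bx := Bx.mk (St.mk (I.mix (nat_lit 10633216) (nat_lit 29917184)) (I.mix (nat_lit 41222144) (nat_lit 5914624)) (I.neg (nat_lit 38682624) (nat_lit 53084160)) (I.pos (nat_lit 258326528) (nat_lit 271892480)) (I.mix (nat_lit 46596096) (nat_lit 27787264)) (I.mix (nat_lit 21872640) (nat_lit 28966912)) (I.mix (nat_lit 6995968) (nat_lit 10289152)))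
  false (nat_lit 0)
def t1 : BTr := (BTr.n (BTr.n (BTr.n (BTr.n (BTr.b b1_0) (BTr.b b1_1)) (BTr.n (BTr.b b1_2) (BTr.n (BTr.b b1_3) (BTr.b b1_4)))) (BTr.n (BTr.n (BTr.b b1_5) (BTr.n (BTr.b b1_6) (BTr.b b1_7))) (BTr.n (BTr.b b1_8) (BTr.n (BTr.b b1_9) (BTr.b b1_10))))) (BTr.n (BTr.n (BTr.n (BTr.b b1_11) (BTr.b b1_12)) (BTr.n (BTr.b b1_13) (BTr.n (BTr.b b1_14) (BTr.b b1_15)))) (BTr.n (BTr.n (BTr.b b1_16) (BTr.n (BTr.b b1_17) (BTr.b b1_18))) (BTr.n (BTr.b b1_19) (BTr.n (BTr.b b1_20) (BTr.b b1_21))))))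
namespace T1
def l0 : Tr := Tr.L (Pth.l (Pth.l (Pth.l (Pth.l Pth.z))))
def l1 : Tr := Tr.L (Pth.l (Pth.l (Pth.l (Pth.r Pth.z))))
def l2 : Tr := Tr.L (Pth.l (Pth.l (Pth.r (Pth.l Pth.z))))
def l3 : Tr := Tr.L (Pth.l (Pth.l (Pth.r (Pth.r (Pth.l Pth.z)))))
def l4 : Tr := Tr.L (Pth.l (Pth.l (Pth.r (Pth.r (Pth.r Pth.z)))))
def l5 : Tr := Tr.L (Pth.l (Pth.r (Pth.l (Pth.l Pth.z))))
def l6 : Tr := Tr.L (Pth.l (Pth.r (Pth.l (Pth.r (Pth.l Pth.z)))))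
def l7 : Tr := Tr.L (Pth.l (Pth.r (Pth.l (Pth.r (Pth.r Pth.z)))))
def l8 : Tr := Tr.L (Pth.l (Pth.r (Pth.r (Pth.l Pth.z))))
def l9 : Tr := Tr.L (Pth.l (Pth.r (Pth.r (Pth.r (Pth.l Pth.z)))))
def l10 : Tr := Tr.L (Pth.l (Pth.r (Pth.r (Pth.r (Pth.r Pth.z)))))
def l11 : Tr := Tr.L (Pth.r (Pth.l (Pth.l (Pth.l Pth.z))))
def l12 : Tr := Tr.L (Pth.r (Pth.l (Pth.l (Pth.r Pth.z))))
def l13 : Tr := Tr.L (Pth.r (Pth.l (Pth.r (Pth.l Pth.z))))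
def l14 : Tr := Tr.L (Pth.r (Pth.l (Pth.r (Pth.r (Pth.l Pth.z)))))
def l15 : Tr := Tr.L (Pth.r (Pth.l (Pth.r (Pth.r (Pth.r Pth.z)))))
def l16 : Tr := Tr.L (Pth.r (Pth.r (Pth.l (Pth.l Pth.z))))
def l17 : Tr := Tr.L (Pth.r (Pth.r (Pth.l (Pth.r (Pth.l Pth.z)))))
def l18 : Tr := Tr.L (Pth.r (Pth.r (Pth.l (Pth.r (Pth.r Pth.z)))))
def l19 : Tr := Tr.L (Pth.r (Pth.r (Pth.r (Pth.l Pth.z))))
def l20 : Tr := Tr.L (Pth.r (Pth.r (Pth.r (Pth.r (Pth.l Pth.z)))))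
def l21 : Tr := Tr.L (Pth.r (Pth.r (Pth.r (Pth.r (Pth.r Pth.z)))))
end T1
def b2_0 : Bx := Bx.mk (St.mk (I.pos (nat_lit 160514048) (nat_lit 230866944)) (I.mix (nat_lit 278528) (nat_lit 38289408)) (I.mix (nat_lit 278528) (nat_lit 100401152)) (I.pos (nat_lit 95813632) (nat_lit 193593344)) (I.mix (nat_lit 90439680) (nat_lit 50790400)) (I.mix (nat_lit 69337088) (nat_lit 56655872)) (I.mix (nat_lit 104251392) (nat_lit 67321856)))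
  false (nat_lit 10345141)
def b2_1 : Bx := Bx.mk (St.mk (I.pos (nat_lit 124895232) (nat_lit 182910976)) (I.neg (nat_lit 5570560) (nat_lit 49823744)) (I.mix (nat_lit 32030720) (nat_lit 21626880)) (I.pos (nat_lit 78594048) (nat_lit 137478144)) (I.mix (nat_lit 72564736) (nat_lit 62324736)) (I.mix (nat_lit 47349760) (nat_lit 56360960)) (I.mix (nat_lit 45989888) (nat_lit 58769408)))
  false (nat_lit 52541709)
def b2_2 : Bx := Bx.mk (St.mk (I.mix (nat_lit 3637248) (nat_lit 112787456)) (I.mix (nat_lit 23527424) (nat_lit 1212416)) (I.mix (nat_lit 7176192) (nat_lit 12402688)) (I.mix (nat_lit 557056) (nat_lit 61947904)) (I.mix (nat_lit 30261248) (nat_lit 35405824)) (I.mix (nat_lit 20905984) (nat_lit 26509312)) (I.mix (nat_lit 12304384) (nat_lit 18022400)))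
  false (nat_lit 9943404)
def b2_3 : Bx := Bx.mk (St.mk (I.pos (nat_lit 165756928) (nat_lit 209584128)) (I.mix (nat_lit 16613376) (nat_lit 36470784)) (I.pos (nat_lit 16269312) (nat_lit 93028352)) (I.pos (nat_lit 101498880) (nat_lit 169541632)) (I.mix (nat_lit 128516096) (nat_lit 54951936)) (I.mix (nat_lit 101777408) (nat_lit 61636608)) (I.mix (nat_lit 125894656) (nat_lit 47169536)))
  false (nat_lit 31121496)
def b2_4 : Bx := Bx.mk (St.mk (I.mix (nat_lit 9437184) (nat_lit 125960192)) (I.mix (nat_lit 11927552) (nat_lit 23298048)) (I.mix (nat_lit 557056) (nat_lit 34062336)) (I.mix (nat_lit 557056) (nat_lit 73367552)) (I.mix (nat_lit 56754176) (nat_lit 35012608)) (I.mix (nat_lit 48988160) (nat_lit 28737536)) (I.mix (nat_lit 36634624) (nat_lit 17072128)))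
  false (nat_lit 14229754)
def b2_5 : Bx := Bx.mk (St.mk (I.pos (nat_lit 170409984) (nat_lit 210665472)) (I.mix (nat_lit 37765120) (nat_lit 1556480)) (I.mix (nat_lit 8798208) (nat_lit 42319872)) (I.pos (nat_lit 109395968) (nat_lit 172785664)) (I.mix (nat_lit 63291392) (nat_lit 81117184)) (I.mix (nat_lit 69173248) (nat_lit 64438272)) (I.mix (nat_lit 64864256) (nat_lit 64618496)))
  false (nat_lit 90370200)
def b2_6 : Bx := Bx.mk (St.mk (I.pos (nat_lit 151240704) (nat_lit 185663488)) (I.neg (nat_lit 3162112) (nat_lit 34390016)) (I.mix (nat_lit 5242880) (nat_lit 27885568)) (I.pos (nat_lit 92536832) (nat_lit 138412032)) (I.mix (nat_lit 62472192) (nat_lit 51986432)) (I.mix (nat_lit 36716544) (nat_lit 49381376)) (I.mix (nat_lit 43679744) (nat_lit 42532864)))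
  false (nat_lit 25623016)
def b2_7 : Bx := Bx.mk (St.mk (I.mix (nat_lit 11550720) (nat_lit 112803840)) (I.mix (nat_lit 14483456) (nat_lit 1703936)) (I.mix (nat_lit 557056) (nat_lit 12484608)) (I.mix (nat_lit 557056) (nat_lit 62832640)) (I.mix (nat_lit 25001984) (nat_lit 19677184)) (I.mix (nat_lit 15613952) (nat_lit 18300928)) (I.mix (nat_lit 11943936) (nat_lit 10059776)))
  false (nat_lit 0)
def b2_8 : Bx := Bx.mk (St.mk (I.pos (nat_lit 163889152) (nat_lit 207847424)) (I.mix (nat_lit 25018368) (nat_lit 15187968)) (I.pos (nat_lit 8224768) (nat_lit 62898176)) (I.pos (nat_lit 98959360) (nat_lit 165478400)) (I.mix (nat_lit 112132096) (nat_lit 89554944)) (I.mix (nat_lit 116473856) (nat_lit 75382784)) (I.mix (nat_lit 127352832) (nat_lit 66371584)))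
  false (nat_lit 83942151)
def b2_9 : Bx := Bx.mk (St.mk (I.pos (nat_lit 165445632) (nat_lit 199016448)) (I.neg (nat_lit 10108928) (nat_lit 36798464)) (I.mix (nat_lit 9273344) (nat_lit 22593536)) (I.pos (nat_lit 106037248) (nat_lit 159154176)) (I.mix (nat_lit 57933824) (nat_lit 58523648)) (I.mix (nat_lit 53985280) (nat_lit 42778624)) (I.mix (nat_lit 52871168) (nat_lit 44040192)))
  false (nat_lit 45376172)
def b2_10 : Bx := Bx.mk (St.mk (I.pos (nat_lit 50905088) (nat_lit 138035200)) (I.mix (nat_lit 4128768) (nat_lit 17498112)) (I.pos (nat_lit 2392064) (nat_lit 28262400)) (I.pos (nat_lit 12484608) (nat_lit 86065152)) (I.mix (nat_lit 39288832) (nat_lit 31145984)) (I.mix (nat_lit 35274752) (nat_lit 21659648)) (I.mix (nat_lit 30539776) (nat_lit 15515648)))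
  false (nat_lit 0)
def b2_11 : Bx := Bx.mk (St.mk (I.pos (nat_lit 119209984) (nat_lit 164069376)) (I.mix (nat_lit 48824320) (nat_lit 7356416)) (I.mix (nat_lit 28803072) (nat_lit 23511040)) (I.pos (nat_lit 53952512) (nat_lit 118079488)) (I.mix (nat_lit 77627392) (nat_lit 55377920)) (I.mix (nat_lit 45727744) (nat_lit 66732032)) (I.mix (nat_lit 37601280) (nat_lit 54509568)))
  false (nat_lit 35328717)
def b2_12 : Bx := Bx.mk (St.mk (I.pos (nat_lit 192380928) (nat_lit 237993984)) (I.pos (nat_lit 98304) (nat_lit 21938176)) (I.pos (nat_lit 31571968) (nat_lit 76775424)) (I.pos (nat_lit 150994944) (nat_lit 209403904)) (I.mix (nat_lit 85622784) (nat_lit 43188224)) (I.mix (nat_lit 57606144) (nat_lit 38666240)) (I.mix (nat_lit 90832896) (nat_lit 47087616)))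
  false (nat_lit 13660115)
def b2_13 : Bx := Bx.mk (St.mk (I.pos (nat_lit 28655616) (nat_lit 108232704)) (I.mix (nat_lit 23805952) (nat_lit 1867776)) (I.mix (nat_lit 6307840) (nat_lit 9338880)) (I.pos (nat_lit 2719744) (nat_lit 58900480)) (I.mix (nat_lit 28590080) (nat_lit 21430272)) (I.mix (nat_lit 17055744) (nat_lit 25001984)) (I.mix (nat_lit 9420800) (nat_lit 13484032)))
  false (nat_lit 0)
def b2_14 : Bx := Bx.mk (St.mk (I.pos (nat_lit 215236608) (nat_lit 272744448)) (I.mix (nat_lit 13598720) (nat_lit 20889600)) (I.pos (nat_lit 15941632) (nat_lit 81313792)) (I.pos (nat_lit 180174848) (nat_lit 287326208)) (I.mix (nat_lit 56606720) (nat_lit 36536320)) (I.mix (nat_lit 35454976) (nat_lit 36290560)) (I.mix (nat_lit 65716224) (nat_lit 52281344)))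
  false (nat_lit 16386312)
def b2_15 : Bx := Bx.mk (St.mk (I.pos (nat_lit 184729600) (nat_lit 228982784)) (I.pos (nat_lit 5914624) (nat_lit 37044224)) (I.pos (nat_lit 40239104) (nat_lit 98582528)) (I.pos (nat_lit 139165696) (nat_lit 190185472)) (I.mix (nat_lit 100401152) (nat_lit 70418432)) (I.mix (nat_lit 81444864) (nat_lit 58130432)) (I.mix (nat_lit 128958464) (nat_lit 72040448)))
  false (nat_lit 20755326)
def b2_16 : Bx := Bx.mk (St.mk (I.pos (nat_lit 210436096) (nat_lit 280838144)) (I.mix (nat_lit 10272768) (nat_lit 30965760)) (I.pos (nat_lit 20185088) (nat_lit 102449152)) (I.pos (nat_lit 174325760) (nat_lit 303792128)) (I.mix (nat_lit 68894720) (nat_lit 70336512)) (I.mix (nat_lit 65028096) (nat_lit 52133888)) (I.mix (nat_lit 112984064) (nat_lit 81477632)))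
  false (nat_lit 69810069)
def b2_17 : Bx := Bx.mk (St.mk (I.pos (nat_lit 197328896) (nat_lit 231211008)) (I.pos (nat_lit 7782400) (nat_lit 23609344)) (I.pos (nat_lit 44351488) (nat_lit 78544896)) (I.pos (nat_lit 156991488) (nat_lit 195215360)) (I.mix (nat_lit 71532544) (nat_lit 29081600)) (I.mix (nat_lit 44236800) (nat_lit 28246016)) (I.mix (nat_lit 72941568) (nat_lit 32292864)))
  false (nat_lit 1577)
def b2_18 : Bx := Bx.mk (St.mk (I.pos (nat_lit 207224832) (nat_lit 241254400)) (I.pos (nat_lit 10403840) (nat_lit 27574272)) (I.pos (nat_lit 49758208) (nat_lit 88637440)) (I.pos (nat_lit 168886272) (nat_lit 216268800)) (I.mix (nat_lit 58785792) (nat_lit 24150016)) (I.mix (nat_lit 38584320) (nat_lit 21299200)) (I.mix (nat_lit 69206016) (nat_lit 26771456)))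
  false (nat_lit 0)
def b2_19 : Bx := Bx.mk (St.mk (I.pos (nat_lit 200015872) (nat_lit 240173056)) (I.mix (nat_lit 245760) (nat_lit 26214400)) (I.pos (nat_lit 30670848) (nat_lit 86261760)) (I.pos (nat_lit 159383552) (nat_lit 212975616)) (I.mix (nat_lit 81920000) (nat_lit 47759360)) (I.mix (nat_lit 55967744) (nat_lit 41156608)) (I.mix (nat_lit 88932352) (nat_lit 55017472)))
  false (nat_lit 23220691)
def b2_20 : Bx := Bx.mk (St.mk (I.pos (nat_lit 251854848) (nat_lit 275087360)) (I.mix (nat_lit 11403264) (nat_lit 10485760)) (I.pos (nat_lit 18481152) (nat_lit 68190208)) (I.pos (nat_lit 235618304) (nat_lit 292487168)) (I.mix (nat_lit 37519360) (nat_lit 28983296)) (I.mix (nat_lit 26476544) (nat_lit 23855104)) (I.mix (nat_lit 50298880) (nat_lit 34947072)))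
  false (nat_lit 0)
def t2 : BTr := (BTr.n (BTr.n (BTr.n (BTr.n (BTr.b b2_0) (BTr.b b2_1)) (BTr.n (BTr.b b2_2) (BTr.n (BTr.b b2_3) (BTr.b b2_4)))) (BTr.n (BTr.n (BTr.b b2_5) (BTr.b b2_6)) (BTr.n (BTr.b b2_7) (BTr.n (BTr.b b2_8) (BTr.b b2_9))))) (BTr.n (BTr.n (BTr.n (BTr.b b2_10) (BTr.b b2_11)) (BTr.n (BTr.b b2_12) (BTr.n (BTr.b b2_13) (BTr.b b2_14)))) (BTr.n (BTr.n (BTr.b b2_15) (BTr.n (BTr.b b2_16) (BTr.b b2_17))) (BTr.n (BTr.b b2_18) (BTr.n (BTr.b b2_19) (BTr.b b2_20))))))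
namespace T2
def l0 : Tr := Tr.L (Pth.l (Pth.l (Pth.l (Pth.l Pth.z))))
def l1 : Tr := Tr.L (Pth.l (Pth.l (Pth.l (Pth.r Pth.z))))
def l2 : Tr := Tr.L (Pth.l (Pth.l (Pth.r (Pth.l Pth.z))))
def l3 : Tr := Tr.L (Pth.l (Pth.l (Pth.r (Pth.r (Pth.l Pth.z)))))
def l4 : Tr := Tr.L (Pth.l (Pth.l (Pth.r (Pth.r (Pth.r Pth.z)))))
def l5 : Tr := Tr.L (Pth.l (Pth.r (Pth.l (Pth.l Pth.z))))
def l6 : Tr := Tr.L (Pth.l (Pth.r (Pth.l (Pth.r Pth.z))))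
def l7 : Tr := Tr.L (Pth.l (Pth.r (Pth.r (Pth.l Pth.z))))
def l8 : Tr := Tr.L (Pth.l (Pth.r (Pth.r (Pth.r (Pth.l Pth.z)))))
def l9 : Tr := Tr.L (Pth.l (Pth.r (Pth.r (Pth.r (Pth.r Pth.z)))))
def l10 : Tr := Tr.L (Pth.r (Pth.l (Pth.l (Pth.l Pth.z))))
def l11 : Tr := Tr.L (Pth.r (Pth.l (Pth.l (Pth.r Pth.z))))
def l12 : Tr := Tr.L (Pth.r (Pth.l (Pth.r (Pth.l Pth.z))))
def l13 : Tr := Tr.L (Pth.r (Pth.l (Pth.r (Pth.r (Pth.l Pth.z)))))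
def l14 : Tr := Tr.L (Pth.r (Pth.l (Pth.r (Pth.r (Pth.r Pth.z)))))
def l15 : Tr := Tr.L (Pth.r (Pth.r (Pth.l (Pth.l Pth.z))))
def l16 : Tr := Tr.L (Pth.r (Pth.r (Pth.l (Pth.r (Pth.l Pth.z)))))
def l17 : Tr := Tr.L (Pth.r (Pth.r (Pth.l (Pth.r (Pth.r Pth.z)))))
def l18 : Tr := Tr.L (Pth.r (Pth.r (Pth.r (Pth.l Pth.z))))
def l19 : Tr := Tr.L (Pth.r (Pth.r (Pth.r (Pth.r (Pth.l Pth.z)))))
def l20 : Tr := Tr.L (Pth.r (Pth.r (Pth.r (Pth.r (Pth.r Pth.z)))))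
end T2
theorem bx0_0 : BoxOK sI cl4 cl13 cl13 t1 t1 b0_0 :=
  box_mk (TrL.c (I.pos (nat_lit 0) (nat_lit 0)) (xa (xb (xa T1.l0 T1.l0) (xa (xb (xa T1.l0 T1.l0) (xa (xb T1.l0 T1.l0) T1.l0)) (xb T1.l0 (xa T1.l0 (xs T1.l0 T1.l0))))) (xb (xa T1.l0 (xb T1.l0 T1.l0)) (xa (xb T1.l0 (xa (xs T1.l0 (xb T1.l0 T1.l0)) (xs T1.l0 (xb T1.l0 T1.l0)))) (xb (xa T1.l0 T1.l0) (xa (xs T1.l0 (xb T1.l0 (xd T1.l0 T1.l0))) (xs (xb T1.l0 T1.l0) (xb T1.l0 (xd T1.l0 T1.l0))))))))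
  (TrL.c (I.pos (nat_lit 0) (nat_lit 0)) (xa T1.l1 (xb T1.l1 (xa T1.l1 (xb T1.l1 T1.l1))))
  (TrL.c (I.pos (nat_lit 0) (nat_lit 0)) T1.l2
  (TrL.c (I.pos (nat_lit 0) (nat_lit 0)) (xa T1.l3 (xb T1.l3 T1.l3))
  (TrL.c (I.pos (nat_lit 0) (nat_lit 0)) (xa T1.l4 T1.l4)
  (TrL.c (I.pos (nat_lit 0) (nat_lit 0)) (xa T1.l5 (xb T1.l5 (xa T1.l5 (xb T1.l5 T1.l5))))
  TrL.n)))))) (by decide +kernel)
theorem bx0_1 : BoxOK sI cl4 cl13 cl13 t1 t1 b0_1 :=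
  box_mk (TrL.c (I.pos (nat_lit 0) (nat_lit 0)) (xa (xa T1.l20 T1.l20) (xa T1.l20 (xa T1.l20 T1.l6)))
  (TrL.c (I.pos (nat_lit 0) (nat_lit 0)) (xa T1.l1 T1.l1)
  (TrL.c (I.pos (nat_lit 0) (nat_lit 0)) (xa T1.l2 T1.l2)
  (TrL.c (I.pos (nat_lit 0) (nat_lit 0)) (xa T1.l3 T1.l3)
  (TrL.c (I.pos (nat_lit 0) (nat_lit 0)) (xa T1.l21 T1.l21)
  (TrL.c (I.pos (nat_lit 0) (nat_lit 0)) (xa T1.l5 T1.l5)
  TrL.n)))))) (by decide +kernel)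
theorem bx0_2 : BoxOK sI cl4 cl13 cl13 t1 t1 b0_2 :=
  box_mk (TrL.c (I.pos (nat_lit 0) (nat_lit 0)) (xb (xa T1.l8 T1.l8) (xa T1.l8 T1.l8))
  (TrL.c (I.pos (nat_lit 0) (nat_lit 0)) T1.l1
  (TrL.c (I.pos (nat_lit 0) (nat_lit 0)) T1.l2
  (TrL.c (I.pos (nat_lit 0) (nat_lit 0)) T1.l3
  (TrL.c (I.pos (nat_lit 0) (nat_lit 0)) T1.l9
  (TrL.c (I.pos (nat_lit 0) (nat_lit 0)) T1.l5
  TrL.n)))))) (by decide +kernel)
theorem bx0_3 : BoxOK sI cl4 cl13 cl13 t1 t1 b0_3 :=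
  box_mk (TrL.c (I.pos (nat_lit 0) (nat_lit 0)) (xa (xa (xb T1.l10 T1.l20) T1.l20) T1.l6)
  (TrL.c (I.pos (nat_lit 0) (nat_lit 0)) (xa T1.l1 T1.l1)
  (TrL.c (I.pos (nat_lit 0) (nat_lit 0)) T1.l2
  (TrL.c (I.pos (nat_lit 0) (nat_lit 0)) (xa T1.l3 T1.l3)
  (TrL.c (I.pos (nat_lit 0) (nat_lit 0)) T1.l11
  (TrL.c (I.pos (nat_lit 0) (nat_lit 0)) (xa T1.l5 T1.l5)
  TrL.n)))))) (by decide +kernel)
theorem bx0_4 : BoxOK sI cl4 cl13 cl13 t1 t1 b0_4 :=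
  box_mk (TrL.c (I.pos (nat_lit 0) (nat_lit 0)) (xa (xb T1.l0 T1.l0) (xb T1.l3 T1.l3))
  (TrL.c (I.pos (nat_lit 0) (nat_lit 0)) (xa T1.l1 (xb T1.l1 T1.l1))
  (TrL.c (I.pos (nat_lit 0) (nat_lit 0)) T1.l5
  (TrL.c (I.pos (nat_lit 0) (nat_lit 0)) (xa T1.l3 (xb T1.l3 T1.l3))
  (TrL.c (I.pos (nat_lit 0) (nat_lit 0)) T1.l1
  (TrL.c (I.pos (nat_lit 0) (nat_lit 0)) (xa T1.l5 (xb T1.l5 T1.l5))
  TrL.n)))))) (by decide +kernel)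
theorem bx0_5 : BoxOK sI cl4 cl13 cl13 t1 t1 b0_5 :=
  box_mk (TrL.c (I.pos (nat_lit 0) (nat_lit 0)) T1.l12
  (TrL.c (I.pos (nat_lit 0) (nat_lit 0)) T1.l1
  (TrL.c (I.pos (nat_lit 0) (nat_lit 0)) T1.l2
  (TrL.c (I.pos (nat_lit 0) (nat_lit 0)) T1.l3
  (TrL.c (I.pos (nat_lit 0) (nat_lit 0)) T1.l7
  (TrL.c (I.pos (nat_lit 0) (nat_lit 0)) T1.l5
  TrL.n)))))) (by decide +kernel)
theorem bx0_6 : BoxOK sI cl4 cl13 cl13 t1 t1 b0_6 :=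
  box_mk (TrL.c (I.pos (nat_lit 0) (nat_lit 0)) T1.l20
  (TrL.c (I.pos (nat_lit 0) (nat_lit 0)) T1.l1
  (TrL.c (I.pos (nat_lit 0) (nat_lit 0)) T1.l2
  (TrL.c (I.pos (nat_lit 0) (nat_lit 0)) T1.l3
  (TrL.c (I.pos (nat_lit 0) (nat_lit 0)) T1.l21
  (TrL.c (I.pos (nat_lit 0) (nat_lit 0)) T1.l5
  TrL.n)))))) (by decide +kernel)
theorem bx0_7 : BoxOK sI cl4 cl13 cl13 t1 t1 b0_7 :=
  box_mk (TrL.c (I.pos (nat_lit 0) (nat_lit 0)) (xa (xb (xa (xb (xa T1.l0 T1.l0) (xa T1.l0 T1.l0)) (xb T1.l0 (xa T1.l0 T1.l0))) (xa (xb (xs T1.l0 (xa T1.l0 T1.l0)) (xs T1.l0 (xa T1.l0 T1.l0))) (xb (xs T1.l0 (xa T1.l0 T1.l0)) (xs T1.l0 (xa T1.l0 T1.l0))))) (xb (xa (xb T1.l0 (xs T1.l0 T1.l0)) (xb T1.l3 (xs T1.l0 (xa T1.l0 T1.l3)))) (xa (xb (xs T1.l0 (xa T1.l0 T1.l0)) (xs (xa T1.l0 T1.l0) (xa T1.l0 T1.l0))) (xb (xs T1.l0 (xa T1.l0 (xd T1.l0 T1.l0))) (xs (xa T1.l0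 T1.l0) (xa (xd T1.l0 T1.l0) (xd T1.l0 T1.l0)))))))
  (TrL.c (I.pos (nat_lit 0) (nat_lit 0)) (xa (xb T1.l1 (xa T1.l1 T1.l1)) (xb (xa T1.l1 T1.l1) (xa T1.l1 (xb T1.l1 T1.l1))))
  (TrL.c (I.pos (nat_lit 0) (nat_lit 0)) (xa T1.l2 T1.l2)
  (TrL.c (I.pos (nat_lit 0) (nat_lit 0)) (xa (xb T1.l3 T1.l3) (xb (xa T1.l3 (xd T1.l3 T1.l3)) (xa T1.l3 (xd (xb T1.l3 T1.l3) (xb T1.l3 T1.l3)))))
  (TrL.c (I.pos (nat_lit 0) (nat_lit 0)) (xa T1.l4 T1.l4)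
  (TrL.c (I.pos (nat_lit 0) (nat_lit 0)) (xa (xb T1.l5 (xa T1.l5 T1.l5)) (xb (xa T1.l5 T1.l5) (xa T1.l5 (xb T1.l5 T1.l5))))
  TrL.n)))))) (by decide +kernel)
theorem bx0_8 : BoxOK sI cl4 cl13 cl13 t1 t1 b0_8 :=
  box_mk (TrL.c (I.pos (nat_lit 0) (nat_lit 0)) (xa T1.l0 T1.l3)
  (TrL.c (I.pos (nat_lit 0) (nat_lit 0)) (xa T1.l1 (xb T1.l1 T1.l1))
  (TrL.c (I.pos (nat_lit 0) (nat_lit 0)) T1.l5
  (TrL.c (I.pos (nat_lit 0) (nat_lit 0)) (xa T1.l3 (xb (xa T1.l3 T1.l3) T1.l3))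
  (TrL.c (I.pos (nat_lit 0) (nat_lit 0)) T1.l1
  (TrL.c (I.pos (nat_lit 0) (nat_lit 0)) (xa T1.l5 (xb T1.l5 T1.l5))
  TrL.n)))))) (by decide +kernel)
theorem bx0_9 : BoxOK sI cl4 cl13 cl13 t1 t1 b0_9 :=
  box_mk (TrL.c (I.pos (nat_lit 0) (nat_lit 0)) (xa (xb (xa T1.l14 T1.l14) T1.l8) (xb (xa T1.l14 T1.l0) T1.l0))
  (TrL.c (I.pos (nat_lit 0) (nat_lit 0)) T1.l1
  (TrL.c (I.pos (nat_lit 0) (nat_lit 0)) T1.l2
  (TrL.c (I.pos (nat_lit 0) (nat_lit 0)) T1.l3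
  (TrL.c (I.pos (nat_lit 0) (nat_lit 0)) T1.l15
  (TrL.c (I.pos (nat_lit 0) (nat_lit 0)) T1.l5
  TrL.n)))))) (by decide +kernel)
theorem bx0_10 : BoxOK sI cl4 cl13 cl13 t1 t1 b0_10 :=
  box_mk (TrL.c (I.pos (nat_lit 0) (nat_lit 0)) (xa (xa (xb T1.l16 T1.l20) T1.l20) (xa T1.l6 T1.l6))
  (TrL.c (I.pos (nat_lit 0) (nat_lit 0)) (xa T1.l1 T1.l1)
  (TrL.c (I.pos (nat_lit 0) (nat_lit 0)) T1.l2
  (TrL.c (I.pos (nat_lit 0) (nat_lit 0)) (xa T1.l3 T1.l3)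
  (TrL.c (I.pos (nat_lit 0) (nat_lit 0)) (xa T1.l11 T1.l21)
  (TrL.c (I.pos (nat_lit 0) (nat_lit 0)) (xa T1.l5 T1.l5)
  TrL.n)))))) (by decide +kernel)
theorem bx0_11 : BoxOK sI cl4 cl13 cl13 t1 t1 b0_11 :=
  box_mk (TrL.c (I.pos (nat_lit 0) (nat_lit 0)) (xb (xa (xb T1.l18 T1.l18) (xb (xa T1.l18 T1.l18) (xa T1.l18 T1.l18))) (xa (xb (xa T1.l18 T1.l18) (xa (xb T1.l18 (xs T1.l18 T1.l18)) (xb T1.l18 (xs T1.l18 T1.l18)))) (xb (xa T1.l18 (xb T1.l18 T1.l18)) (xa (xb T1.l18 (xs T1.l18 T1.l18)) (xb T1.l18 (xs T1.l18 (xa T1.l18 T1.l18)))))))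
  (TrL.c (I.pos (nat_lit 0) (nat_lit 0)) (xb (xa T1.l1 T1.l1) (xa T1.l1 (xb T1.l1 T1.l1)))
  (TrL.c (I.pos (nat_lit 0) (nat_lit 0)) T1.l2
  (TrL.c (I.pos (nat_lit 0) (nat_lit 0)) (xb T1.l3 (xa T1.l3 (xb T1.l3 T1.l3)))
  (TrL.c (I.pos (nat_lit 0) (nat_lit 0)) T1.l19
  (TrL.c (I.pos (nat_lit 0) (nat_lit 0)) (xb (xa T1.l5 T1.l5) (xa T1.l5 (xb T1.l5 T1.l5)))
  TrL.n)))))) (by decide +kernel)
theorem bx0_12 : BoxOK sI cl4 cl13 cl13 t1 t1 b0_12 :=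
  box_mk (TrL.c (I.pos (nat_lit 0) (nat_lit 0)) (xa (xa (xb (xa T1.l20 T1.l20) (xa T1.l20 T1.l20)) (xb T1.l20 (xa T1.l20 T1.l20))) (xa (xb T1.l20 T1.l20) (xb (xa T1.l20 T1.l8) (xa T1.l20 T1.l20))))
  (TrL.c (I.pos (nat_lit 0) (nat_lit 0)) (xa (xa T1.l1 T1.l1) T1.l1)
  (TrL.c (I.pos (nat_lit 0) (nat_lit 0)) (xa T1.l2 T1.l2)
  (TrL.c (I.pos (nat_lit 0) (nat_lit 0)) (xa T1.l3 T1.l3)
  (TrL.c (I.pos (nat_lit 0) (nat_lit 0)) (xa T1.l21 T1.l21)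
  (TrL.c (I.pos (nat_lit 0) (nat_lit 0)) (xa (xa T1.l5 T1.l5) T1.l5)
  TrL.n)))))) (by decide +kernel)
theorem bx0_13 : BoxOK sI cl4 cl13 cl13 t1 t1 b0_13 :=
  box_mk (TrL.c (I.pos (nat_lit 0) (nat_lit 0)) (xb T1.l0 T1.l0)
  (TrL.c (I.pos (nat_lit 0) (nat_lit 0)) T1.l1
  (TrL.c (I.pos (nat_lit 0) (nat_lit 0)) T1.l2
  (TrL.c (I.pos (nat_lit 0) (nat_lit 0)) T1.l3
  (TrL.c (I.pos (nat_lit 0) (nat_lit 0)) T1.l1
  (TrL.c (I.pos (nat_lit 0) (nat_lit 0)) T1.l5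
  TrL.n)))))) (by decide +kernel)
theorem bx0_14 : BoxOK sI cl4 cl13 cl13 t1 t1 b0_14 :=
  box_mk (TrL.c (I.pos (nat_lit 0) (nat_lit 0)) (xa (xb (xa T1.l14 T1.l0) T1.l0) T1.l0)
  (TrL.c (I.pos (nat_lit 0) (nat_lit 0)) T1.l1
  (TrL.c (I.pos (nat_lit 0) (nat_lit 0)) T1.l2
  (TrL.c (I.pos (nat_lit 0) (nat_lit 0)) T1.l3
  (TrL.c (I.pos (nat_lit 0) (nat_lit 0)) T1.l1
  (TrL.c (I.pos (nat_lit 0) (nat_lit 0)) T1.l5
  TrL.n)))))) (by decide +kernel)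
theorem bx0_15 : BoxOK sI cl4 cl13 cl13 t1 t1 b0_15 :=
  box_mk (TrL.c (I.pos (nat_lit 0) (nat_lit 0)) (xb (xa (xa T1.l18 T1.l18) (xb (xa T1.l18 T1.l3) (xa T1.l18 T1.l18))) (xa (xa (xb T1.l18 T1.l18) (xb T1.l18 T1.l18)) (xa (xb T1.l18 T1.l18) (xb T1.l18 (xs T1.l18 T1.l18)))))
  (TrL.c (I.pos (nat_lit 0) (nat_lit 0)) (xa (xb T1.l1 T1.l1) (xb T1.l1 T1.l1))
  (TrL.c (I.pos (nat_lit 0) (nat_lit 0)) T1.l2
  (TrL.c (I.pos (nat_lit 0) (nat_lit 0)) (xb (xa T1.l3 T1.l3) T1.l3)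
  (TrL.c (I.pos (nat_lit 0) (nat_lit 0)) T1.l19
  (TrL.c (I.pos (nat_lit 0) (nat_lit 0)) (xa (xb T1.l5 T1.l5) (xb T1.l5 T1.l5))
  TrL.n)))))) (by decide +kernel)
theorem bx0_16 : BoxOK sI cl4 cl13 cl13 t1 t1 b0_16 :=
  box_mk (TrL.c (I.pos (nat_lit 0) (nat_lit 0)) (xa T1.l0 T1.l0)
  (TrL.c (I.pos (nat_lit 0) (nat_lit 0)) T1.l1
  (TrL.c (I.pos (nat_lit 0) (nat_lit 0)) T1.l2
  (TrL.c (I.pos (nat_lit 0) (nat_lit 0)) T1.l3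
  (TrL.c (I.pos (nat_lit 0) (nat_lit 0)) T1.l1
  (TrL.c (I.pos (nat_lit 0) (nat_lit 0)) T1.l5
  TrL.n)))))) (by decide +kernel)
theorem bx0_17 : BoxOK sI cl4 cl13 cl13 t1 t1 b0_17 :=
  box_mk (TrL.c (I.pos (nat_lit 0) (nat_lit 0)) (xa (xb (xa T1.l14 T1.l0) T1.l0) T1.l0)
  (TrL.c (I.pos (nat_lit 0) (nat_lit 0)) T1.l1
  (TrL.c (I.pos (nat_lit 0) (nat_lit 0)) T1.l2
  (TrL.c (I.pos (nat_lit 0) (nat_lit 0)) T1.l3
  (TrL.c (I.pos (nat_lit 0) (nat_lit 0)) T1.l1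
  (TrL.c (I.pos (nat_lit 0) (nat_lit 0)) T1.l5
  TrL.n)))))) (by decide +kernel)
theorem bx0_18 : BoxOK sI cl4 cl13 cl13 t1 t1 b0_18 :=
  box_mk (TrL.c (I.pos (nat_lit 0) (nat_lit 0)) T1.l0
  (TrL.c (I.pos (nat_lit 0) (nat_lit 0)) T1.l1
  (TrL.c (I.pos (nat_lit 0) (nat_lit 0)) T1.l2
  (TrL.c (I.pos (nat_lit 0) (nat_lit 0)) T1.l3
  (TrL.c (I.pos (nat_lit 0) (nat_lit 0)) T1.l19
  (TrL.c (I.pos (nat_lit 0) (nat_lit 0)) T1.l5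
  TrL.n)))))) (by decide +kernel)
theorem bx0_19 : BoxOK sI cl4 cl13 cl13 t1 t1 b0_19 :=
  box_mk (TrL.c (I.pos (nat_lit 0) (nat_lit 0)) T1.l0
  (TrL.c (I.pos (nat_lit 0) (nat_lit 0)) T1.l1
  (TrL.c (I.pos (nat_lit 0) (nat_lit 0)) T1.l2
  (TrL.c (I.pos (nat_lit 0) (nat_lit 0)) T1.l3
  (TrL.c (I.pos (nat_lit 0) (nat_lit 0)) T1.l1
  (TrL.c (I.pos (nat_lit 0) (nat_lit 0)) T1.l5
  TrL.n)))))) (by decide +kernel)
theorem bx0_20 : BoxOK sI cl4 cl13 cl13 t1 t1 b0_20 :=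
  box_mk (TrL.c (I.pos (nat_lit 0) (nat_lit 0)) T1.l0
  (TrL.c (I.pos (nat_lit 0) (nat_lit 0)) T1.l1
  (TrL.c (I.pos (nat_lit 0) (nat_lit 0)) T1.l2
  (TrL.c (I.pos (nat_lit 0) (nat_lit 0)) T1.l3
  (TrL.c (I.pos (nat_lit 0) (nat_lit 0)) T1.l19
  (TrL.c (I.pos (nat_lit 0) (nat_lit 0)) T1.l5
  TrL.n)))))) (by decide +kernel)
theorem sv0 : StarV sI cl4 cl13 cl13 t1 t1 t0 :=
  (bt_n (bt_n (bt_n (bt_n (bt_b bx0_0) (bt_b bx0_1)) (bt_n (bt_b bx0_2) (bt_n (bt_b bx0_3) (bt_b bx0_4)))) (bt_n (bt_n (bt_b bx0_5) (bt_b bx0_6)) (bt_n (bt_b bx0_7) (bt_n (bt_b bx0_8) (bt_b bx0_9))))) (bt_n (bt_n (bt_n (bt_b bx0_10) (bt_b bx0_11)) (bt_n (bt_b bx0_12) (bt_n (bt_b bx0_13) (bt_b bx0_14)))) (bt_n (bt_n (bt_b bx0_15) (bt_n (bt_b bx0_16) (bt_b bx0_17))) (bt_n (bt_b bx0_18) (bt_n (bt_b bx0_19) (bt_b bx0_20))))))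
def S0 : StarD := StarD.mk cl4 cl13 cl13 1 1 t0
theorem c1_0_0 : chkTag sI cl13 cl4 cl13 t0 b1_0 (tg true true false RT.r2) (I.pos (nat_lit 0) (nat_lit 0))
  (xb (xa (xb T0.l0 T0.l0) (xb T0.l0 T0.l0)) (xa (xb (xa T0.l7 T0.l0) (xa (xb T0.l0 T0.l0) (xs T0.l0 T0.l0))) (xb (xa T0.l0 T0.l0) (xa (xs T0.l0 (xb T0.l0 T0.l0)) (xk (xs T0.l0 T0.l0) (xs T0.l0 T0.l0)))))) = true := by decide +kernel
theorem c1_0_1 : chkTag sI cl13 cl4 cl13 t2 b1_0 (tg true false false RT.r3) (I.pos (nat_lit 0) (nat_lit 0))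
  (xk (xb T2.l1 (xa T2.l1 T2.l1)) (xb T2.l1 (xa T2.l1 T2.l1))) = true := by decide +kernel
theorem c1_0_2 : chkTag sI cl13 cl4 cl13 t0 b1_0 (Tag.mk true true false RT.tl RT.r4) (I.pos (nat_lit 0) (nat_lit 134217730))
  (xR T0.l12 (xR T0.l1 T0.l12)) = true := by decide +kernel
theorem c1_0_3 : chkTag sI cl13 cl4 cl13 t2 b1_0 (Tag.mk true false false RT.tl RT.r5) (I.pos (nat_lit 0) (nat_lit 110514882))
  (xR T2.l4 (xR T2.l2 T2.l2)) = true := by decide +kernel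
def rc1_0_4_l : Tr := (xa (xk T2.l3 T2.l3) (xk (xb T2.l3 T2.l3) (xb T2.l3 (xa T2.l3 T2.l3))))
theorem qc1_0_4_l : chkTr (tg false false false RT.r3) b1_0 t2 rc1_0_4_l
  (upd lo Co.b (rc sI cl13 cl4 cl13 b1_0 (I.pos (nat_lit 0) (nat_lit 0)))) = true := by decide +kernel
def rc1_0_4_rl : Tr := (xb (xk T2.l3 (xa T2.l3 T2.l3)) (xk (xa (xk T2.l3 T2.l3) (xs T2.l3 (xk T2.l3 T2.l3))) (xa (xk T2.l3 (xb T2.l3 T2.l3)) (xs (xk T2.l3 T2.l3) (xk (xb T2.l3 T2.l3) (xb T2.l3 T2.l3))))))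
theorem qc1_0_4_rl : chkTr (tg false false false RT.r3) b1_0 t2 rc1_0_4_rl
  (upd lo Co.a (upd hi Co.b (rc sI cl13 cl4 cl13 b1_0 (I.pos (nat_lit 0) (nat_lit 0))))) = true := by decide +kernel
def rc1_0_4_rr : Tr := (xk (xb (xa (xk T2.l3 T2.l3) (xs T2.l3 (xk T2.l3 T2.l3))) (xa (xs (xk T2.l3 (xb T2.l3 T2.l3)) (xb T2.l3 (xk T2.l3 (xa T2.l3 T2.l3)))) (xs (xk (xb T2.l3 (xa T2.l3 T2.l3)) (xb T2.l3 (xa T2.l3 (xk T2.l3 T2.l3)))) (xk (xb T2.l3 (xa (xk T2.l3 T2.l3) (xk T2.l3 (xe T2.l3 T2.l3)))) (xb (xa T2.l3 T2.l3) (xa (xk T2.l3 T2.l3) (xs T2.l3 (xk T2.l3 T2.l3)))))))) (xb (xa (xk T2.l3 (xb T2.l3 T2.l3)) (xs (xk T2.l3 T2.l3) (xk (xb T2.l3 T2.l3) (xb T2.l3 T2.l3)))) (xa (xs (xk (xb T2.l3 T2.l3) (xb T2.l3 (xa T2.l3 T2.l3))) (xb (xk T2.l3 T2.l3) (xk (xa T2.l3 (xk T2.l3 T2.l3)) (xa T2.l3 (xk T2.l3 (xe T2.l3 T2.l3)))))) (xs (xb (xk T2.l3 (xa T2.l3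 T2.l3)) (xk (xa T2.l3 (xk T2.l3 (xs T2.l3 T2.l3))) (xs (xa T2.l3 T2.l3) (xa T2.l3 (xk T2.l3 T2.l3))))) (xb (xk (xa T2.l3 (xk T2.l3 T2.l3)) (xa T2.l3 (xk T2.l3 (xe T2.l3 T2.l3)))) (xk (xa (xs T2.l3 (xk T2.l3 T2.l3)) (xs (xk T2.l3 T2.l3) (xk T2.l3 (xe T2.l3 T2.l3)))) (xa (xs (xk T2.l3 T2.l3) (xk T2.l3 T2.l3)) (xs (xk T2.l3 (xe T2.l3 T2.l3)) (xe (xk T2.l3 T2.l3) (xk T2.l3 T2.l3))))))))))
theorem qc1_0_4_rr : chkTr (tg false false false RT.r3) b1_0 t2 rc1_0_4_rr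
  (upd hi Co.a (upd hi Co.b (rc sI cl13 cl4 cl13 b1_0 (I.pos (nat_lit 0) (nat_lit 0))))) = true := by decide +kernel
theorem qc1_0_4_r : chkTr (tg false false false RT.r3) b1_0 t2 (Tr.N Co.a rc1_0_4_rl rc1_0_4_rr)
  (upd hi Co.b (rc sI cl13 cl4 cl13 b1_0 (I.pos (nat_lit 0) (nat_lit 0)))) = true := tr_split qc1_0_4_rl qc1_0_4_rr
theorem qc1_0_4_ : chkTr (tg false false false RT.r3) b1_0 t2 (Tr.N Co.b rc1_0_4_l (Tr.N Co.a rc1_0_4_rl rc1_0_4_rr))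
  (rc sI cl13 cl4 cl13 b1_0 (I.pos (nat_lit 0) (nat_lit 0))) = true := tr_split qc1_0_4_l qc1_0_4_r
theorem c1_0_4 : chkTag sI cl13 cl4 cl13 t2 b1_0 (tg false false false RT.r3) (I.pos (nat_lit 0) (nat_lit 0))
  (Tr.N Co.b rc1_0_4_l (Tr.N Co.a rc1_0_4_rl rc1_0_4_rr)) = true := tag_mk (by decide +kernel) qc1_0_4_
theorem c1_0_5 : chkTag sI cl13 cl4 cl13 t0 b1_0 (tg false true false RT.r4) (I.pos (nat_lit 0) (nat_lit 0))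
  (xb T0.l2 T0.l2) = true := by decide +kernel
theorem c1_0_6 : chkTag sI cl13 cl4 cl13 t2 b1_0 (Tag.mk false false false RT.tl RT.r5) (I.mix (nat_lit 8088324) (nat_lit 110514882))
  (xR (xR T2.l4 T2.l4) (xR T2.l4 (xR T2.l4 (xk T2.l4 T2.l4)))) = true := by decide +kernel
theorem c1_0_7 : chkTag sI cl13 cl4 cl13 t0 b1_0 (Tag.mk false true false RT.tl RT.r6) (I.mix (nat_lit 8088324) (nat_lit 89478486))
  (xR (xR T0.l3 T0.l3) (xR T0.l3 (xR T0.l3 T0.l3))) = true := by decide +kernel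
theorem bx1_0 : BoxOK sI cl13 cl4 cl13 t0 t2 b1_0 :=
  box_mk' [(tg true true false RT.r2), (tg true false false RT.r3), (Tag.mk true true false RT.tl RT.r4), (Tag.mk true false false RT.tl RT.r5), (tg false false false RT.r3), (tg false true false RT.r4), (Tag.mk false false false RT.tl RT.r5), (Tag.mk false true false RT.tl RT.r6)] rfl (allL_c (ex_mk c1_0_0) (allL_c (ex_mk c1_0_1) (allL_c (ex_mk c1_0_2) (allL_c (ex_mk c1_0_3) (allL_c (ex_mk c1_0_4) (allL_c (ex_mk c1_0_5) (allL_c (ex_mk c1_0_6) (allL_c (ex_mk c1_0_7) allL_n))))))))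
theorem bx1_1 : BoxOK sI cl13 cl4 cl13 t0 t2 b1_1 :=
  box_mk (TrL.c (I.pos (nat_lit 0) (nat_lit 0)) (xa (xb (xb (xa T0.l4 T0.l4) T0.l4) (xa T0.l4 T0.l4)) (xb (xa T0.l4 T0.l4) (xa T0.l4 T0.l4)))
  (TrL.c (I.pos (nat_lit 0) (nat_lit 0)) (xa T2.l1 T2.l1)
  (TrL.c (I.pos (nat_lit 0) (nat_lit 134217730)) (xR T0.l12 (xR T0.l1 (xR T0.l1 (xa T0.l1 T0.l1))))
  (TrL.c (I.pos (nat_lit 0) (nat_lit 110514882)) (xR T2.l4 (xR T2.l4 (xR T2.l4 T2.l2)))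
  (TrL.c (I.pos (nat_lit 0) (nat_lit 0)) (xa (xb T2.l5 T2.l5) (xb T2.l5 T2.l5))
  (TrL.c (I.pos (nat_lit 0) (nat_lit 0)) T0.l2
  (TrL.c (I.mix (nat_lit 8088324) (nat_lit 110514882)) (xR T2.l4 (xR T2.l4 (xR T2.l4 T2.l4)))
  (TrL.c (I.mix (nat_lit 8088324) (nat_lit 89478486)) (xR T0.l12 T0.l12)
  TrL.n)))))))) (by decide +kernel)
theorem bx1_2 : BoxOK sI cl13 cl4 cl13 t0 t2 b1_2 :=
  box_mk (TrL.c (I.pos (nat_lit 0) (nat_lit 0)) T2.l6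
  (TrL.c (I.pos (nat_lit 0) (nat_lit 0)) T0.l5
  (TrL.c (I.mix (nat_lit 8088324) (nat_lit 110514882)) (xR (xR T2.l7 T2.l4) (xR T2.l4 T2.l4))
  (TrL.c (I.mix (nat_lit 8088324) (nat_lit 89478486)) (xR (xk (xR T0.l6 T0.l1) T0.l6) T0.l1)
  TrL.n)))) (by decide +kernel)
theorem c1_3_0 : chkTag sI cl13 cl4 cl13 t0 b1_3 (tg true true false RT.r2) (I.pos (nat_lit 0) (nat_lit 0))
  (xb (xa (xb (xa T0.l7 T0.l7) T0.l7) (xb (xa T0.l7 T0.l7) (xa T0.l7 T0.l7))) (xa (xb (xa T0.l7 T0.l7) (xa (xb T0.l7 T0.l7) (xb T0.l7 T0.l7))) (xb (xa T0.l7 (xb T0.l7 T0.l7)) (xa (xb T0.l7 (xs T0.l7 T0.l7)) (xb T0.l7 (xa T0.l7 T0.l7)))))) = true := by decide +kernel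
theorem c1_3_1 : chkTag sI cl13 cl4 cl13 t2 b1_3 (tg true false false RT.r3) (I.pos (nat_lit 0) (nat_lit 0))
  (xb (xa T2.l1 T2.l1) (xa T2.l1 (xk T2.l1 T2.l1))) = true := by decide +kernel
theorem c1_3_2 : chkTag sI cl13 cl4 cl13 t0 b1_3 (Tag.mk true true false RT.tl RT.r4) (I.pos (nat_lit 0) (nat_lit 134217730))
  (xR T0.l12 (xR T0.l1 (xb T0.l1 (xR T0.l1 T0.l1)))) = true := by decide +kernel
theorem c1_3_3 : chkTag sI cl13 cl4 cl13 t2 b1_3 (Tag.mk true false false RT.tl RT.r5) (I.pos (nat_lit 0) (nat_lit 110514882))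
  (xR T2.l4 (xR T2.l2 (xR T2.l2 T2.l2))) = true := by decide +kernel
def rc1_3_4_l : Tr := (xa (xb T2.l8 (xk (xb T2.l8 (xa T2.l3 T2.l3)) (xb T2.l8 (xa T2.l8 T2.l3)))) (xk (xb (xb T2.l8 (xa T2.l8 T2.l8)) (xb (xa T2.l3 (xk T2.l3 T2.l3)) (xa T2.l3 T2.l3))) (xb (xb (xa T2.l8 T2.l8) (xa T2.l8 (xk T2.l8 T2.l8))) (xb (xa T2.l3 T2.l3) (xa T2.l3 T2.l3)))))
theorem qc1_3_4_l : chkTr (tg false false false RT.r3) b1_3 t2 rc1_3_4_l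
  (upd lo Co.b (rc sI cl13 cl4 cl13 b1_3 (I.pos (nat_lit 0) (nat_lit 0)))) = true := by decide +kernel
def rc1_3_4_rl : Tr := (xb (xk (xb T2.l3 T2.l3) (xb (xa T2.l3 T2.l3) (xa T2.l3 T2.l3))) (xk (xa (xb T2.l3 (xs T2.l3 T2.l3)) (xb (xs T2.l3 (xk T2.l3 T2.l3)) (xk (xs T2.l3 (xb T2.l3 T2.l3)) (xs T2.l3 (xb T2.l3 (xs T2.l3 T2.l3)))))) (xa (xk (xb T2.l3 (xs T2.l3 T2.l3)) (xb (xs T2.l3 T2.l3) (xs T2.l3 T2.l3))) (xb (xs T2.l3 (xk T2.l3 T2.l3)) (xs (xk T2.l3 (xs T2.l3 T2.l3)) (xk (xb T2.l3 (xs T2.l3 T2.l3)) (xb T2.l3 (xs T2.l3 (xa T2.l3 T2.l3)))))))))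
theorem qc1_3_4_rl : chkTr (tg false false false RT.r3) b1_3 t2 rc1_3_4_rl
  (upd lo Co.a (upd hi Co.b (rc sI cl13 cl4 cl13 b1_3 (I.pos (nat_lit 0) (nat_lit 0))))) = true := by decide +kernel
def rc1_3_4_rrl : Tr := (xk (xa (xb T2.l3 (xs T2.l3 T2.l3)) (xk (xb T2.l3 (xs T2.l3 T2.l3)) (xb (xs T2.l3 T2.l3) (xs T2.l3 (xb T2.l3 T2.l3))))) (xa (xk (xb T2.l3 (xs T2.l3 T2.l3)) (xb T2.l3 (xs T2.l3 T2.l3))) (xb (xs T2.l3 T2.l3) (xk (xs T2.l3 (xa T2.l3 T2.l3)) (xa (xs T2.l3 (xb T2.l3 T2.l3)) (xs T2.l3 (xb T2.l3 T2.l3)))))))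
theorem qc1_3_4_rrl : chkTr (tg false false false RT.r3) b1_3 t2 rc1_3_4_rrl
  (upd lo Co.b (upd hi Co.a (upd hi Co.b (rc sI cl13 cl4 cl13 b1_3 (I.pos (nat_lit 0) (nat_lit 0)))))) = true := by decide +kernel
def rc1_3_4_rrrll : Tr := (xb (xk (xs T2.l3 T2.l3) (xs T2.l3 (xb T2.l3 T2.l3))) (xs (xk (xs T2.l3 T2.l3) (xs T2.l3 (xb T2.l3 T2.l3))) (xk (xb (xa T2.l3 T2.l3) (xs T2.l3 (xa T2.l3 (xe T2.l3 T2.l3)))) (xa (xb T2.l3 (xs T2.l3 T2.l3)) (xb (xs T2.l3 T2.l3) (xs T2.l3 (xe (xc T2.l3 T2.l3) (xc T2.l3 T2.l3))))))))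
theorem qc1_3_4_rrrll : chkTr (tg false false false RT.r3) b1_3 t2 rc1_3_4_rrrll
  (upd lo Co.a (upd lo Co.k (upd hi Co.b (upd hi Co.a (upd hi Co.b (rc sI cl13 cl4 cl13 b1_3 (I.pos (nat_lit 0) (nat_lit 0)))))))) = true := by decide +kernel
def rc1_3_4_rrrlr : Tr := (xb (xs (xk (xa T2.l3 T2.l3) (xa T2.l3 (xs T2.l3 T2.l3))) (xk (xb T2.l3 (xa T2.l3 (xs T2.l3 T2.l3))) (xa (xb T2.l3 (xs T2.l3 (xe T2.l3 T2.l3))) (xb T2.l3 (xs T2.l3 (xe T2.l3 T2.l3)))))) (xs (xk (xa (xs T2.l3 (xb T2.l3 (xe T2.l3 T2.l3))) (xs (xb T2.l3 T2.l3) (xb T2.l3 (xe T2.l3 T2.l3)))) (xa (xs T2.l3 (xb T2.l3 T2.l3)) (xk (xs T2.l3 (xb T2.l3 T2.l3)) (xs (xb T2.l3 T2.l3) (xb T2.l3 (xe T2.l0 T2.l0)))))) (xk (xa (xk (xs T2.l3 (xb T2.l3 T2.l3)) (xs (xb T2.l3 T2.l3) (xb T2.l3 (xe T2.l3 T2.l3)))) (xb (xs T2.l3 (xe T2.l3 T2.l3)) (xk (xs (xe T2.l0 T2.l0) (xe T2.l0 T2.l0)) (xs (xe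 T2.l0 T2.l0) (xe T2.l0 T2.l0))))) (xa (xk (xs (xb T2.l3 T2.l3) (xb T2.l3 (xe T2.l3 T2.l3))) (xb (xs T2.l3 (xe T2.l3 T2.l3)) (xs T2.l3 (xe T2.l3 T2.l3)))) (xb (xs (xe T2.l3 T2.l3) (xe (xc T2.l0 T2.l3) (xc T2.l0 T2.l3))) (xe (xk (xs T2.l0 T2.l0) (xs T2.l0 T2.l0)) (xs (xk T2.l0 T2.l0) (xc T2.l0 T2.l0))))))))
theorem qc1_3_4_rrrlr : chkTr (tg false false false RT.r3) b1_3 t2 rc1_3_4_rrrlr
  (upd hi Co.a (upd lo Co.k (upd hi Co.b (upd hi Co.a (upd hi Co.b (rc sI cl13 cl4 cl13 b1_3 (I.pos (nat_lit 0) (nat_lit 0)))))))) = true := by decide +kernel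
theorem qc1_3_4_rrrl : chkTr (tg false false false RT.r3) b1_3 t2 (Tr.N Co.a rc1_3_4_rrrll rc1_3_4_rrrlr)
  (upd lo Co.k (upd hi Co.b (upd hi Co.a (upd hi Co.b (rc sI cl13 cl4 cl13 b1_3 (I.pos (nat_lit 0) (nat_lit 0))))))) = true := tr_split qc1_3_4_rrrll qc1_3_4_rrrlr
def rc1_3_4_rrrrl : Tr := (xb (xk (xa (xs T2.l3 (xb T2.l3 T2.l3)) (xs T2.l3 (xb T2.l3 T2.l3))) (xa (xs T2.l3 T2.l3) (xs (xs T2.l3 T2.l3) (xb T2.l3 (xs T2.l3 (xe T2.l3 T2.l3)))))) (xs (xk (xs T2.l3 (xb T2.l3 (xa T2.l3 T2.l3))) (xs (xa T2.l3 T2.l3) (xb T2.l3 (xa T2.l3 T2.l3)))) (xk (xa (xb T2.l3 (xs T2.l3 (xe T2.l3 T2.l3))) (xk (xb T2.l3 (xs T2.l3 (xe T2.l3 T2.l3))) (xb (xs T2.l3 T2.l3) (xs T2.l3 (xe T2.l3 T2.l3))))) (xa (xb (xs T2.l3 T2.l3) (xs T2.l3 (xe T2.l3 T2.l3))) (xb (xs T2.l3 (xe T2.l3 T2.l3)) (xk (xs T2.l3 (xe T2.l3 T2.l3)) (xs (xe T2.l3 T2.l3) (xe (xc T2.l3 T2.l3)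 T2.l3))))))))
theorem qc1_3_4_rrrrl : chkTr (tg false false false RT.r3) b1_3 t2 rc1_3_4_rrrrl
  (upd lo Co.a (upd hi Co.k (upd hi Co.b (upd hi Co.a (upd hi Co.b (rc sI cl13 cl4 cl13 b1_3 (I.pos (nat_lit 0) (nat_lit 0)))))))) = true := by decide +kernel
def rc1_3_4_rrrrrl : Tr := (xs (xk (xa T2.l3 (xs T2.l3 T2.l3)) (xa (xs T2.l3 T2.l3) (xs T2.l3 (xb T2.l3 T2.l3)))) (xk (xa (xb T2.l3 (xs T2.l3 T2.l3)) (xk (xb T2.l3 (xs T2.l3 T2.l3)) (xb T2.l3 (xs T2.l3 T2.l3)))) (xa (xb T2.l3 (xs T2.l3 (xe T2.l3 T2.l3))) (xk (xb T2.l3 (xs T2.l3 (xe T2.l3 T2.l3))) (xb (xs T2.l3 T2.l3) (xs T2.l3 (xe T2.l3 T2.l3)))))))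
theorem qc1_3_4_rrrrrl : chkTr (tg false false false RT.r3) b1_3 t2 rc1_3_4_rrrrrl
  (upd lo Co.b (upd hi Co.a (upd hi Co.k (upd hi Co.b (upd hi Co.a (upd hi Co.b (rc sI cl13 cl4 cl13 b1_3 (I.pos (nat_lit 0) (nat_lit 0))))))))) = true := by decide +kernel
def rc1_3_4_rrrrrrl : Tr := (xk (xa (xs (xb T2.l3 T2.l3) (xb T2.l3 (xe T2.l3 T2.l3))) (xk (xs (xb T2.l3 T2.l3) (xb T2.l3 (xe T2.l0 T2.l0))) (xb (xs T2.l3 T2.l0) (xs T2.l3 T2.l0)))) (xa (xk (xs T2.l3 (xb T2.l3 (xe T2.l3 T2.l3))) (xs (xb T2.l3 T2.l3) (xb T2.l3 (xe T2.l3 T2.l3)))) (xs (xb T2.l3 (xe (xk T2.l0 T2.l0) T2.l0)) (xk (xb T2.l0 T2.l0) (xb T2.l0 T2.l0)))))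
theorem qc1_3_4_rrrrrrl : chkTr (tg false false false RT.r3) b1_3 t2 rc1_3_4_rrrrrrl
  (upd lo Co.s (upd hi Co.b (upd hi Co.a (upd hi Co.k (upd hi Co.b (upd hi Co.a (upd hi Co.b (rc sI cl13 cl4 cl13 b1_3 (I.pos (nat_lit 0) (nat_lit 0)))))))))) = true := by decide +kernel
def rc1_3_4_rrrrrrr : Tr := (xk (xa (xb (xs (xe T2.l3 T2.l3) (xe T2.l3 T2.l3)) (xk (xs (xe T2.l3 T2.l3) (xe (xc T2.l0 T2.l3) T2.l3)) (xs (xe T2.l3 T2.l3) (xe (xc T2.l0 T2.l3) (xc T2.l0 T2.l3))))) (xb (xk (xs T2.l0 T2.l0) (xs T2.l0 (xe T2.l0 T2.l0))) (xs (xe (xc T2.l0 T2.l0) T2.l0) (xk (xe T2.l0 T2.l0) (xc (xe T2.l0 T2.l0) (xe T2.l0 T2.l0)))))) (xa (xb (xk (xs T2.l3 (xe T2.l3 T2.l3)) (xs T2.l3 (xe T2.l3 T2.l3))) (xs (xe (xc T2.l0 (xk T2.l3 T2.l3)) (xc T2.l0 T2.l3)) (xk (xe (xc T2.l0 T2.l3) (xc T2.l0 T2.l3)) (xe (xc T2.l0 (xa T2.l3 T2.l3)) (xc T2.l0 T2.l3))))) (xb (xe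 (xk (xs T2.l0 T2.l0) (xs T2.l0 (xc T2.l0 T2.l3))) (xs (xc T2.l0 T2.l3) (xc T2.l0 (xk T2.l3 T2.l3)))) (xs (xk (xe T2.l0 T2.l0) (xe T2.l0 T2.l0)) (xe (xk (xc T2.l0 T2.l0) (xc T2.l0 T2.l0)) (xk (xc T2.l0 T2.l0) (xc T2.l0 T2.l0)))))))
theorem qc1_3_4_rrrrrrr : chkTr (tg false false false RT.r3) b1_3 t2 rc1_3_4_rrrrrrr
  (upd hi Co.s (upd hi Co.b (upd hi Co.a (upd hi Co.k (upd hi Co.b (upd hi Co.a (upd hi Co.b (rc sI cl13 cl4 cl13 b1_3 (I.pos (nat_lit 0) (nat_lit 0)))))))))) = true := by decide +kernel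
theorem qc1_3_4_rrrrrr : chkTr (tg false false false RT.r3) b1_3 t2 (Tr.N Co.s rc1_3_4_rrrrrrl rc1_3_4_rrrrrrr)
  (upd hi Co.b (upd hi Co.a (upd hi Co.k (upd hi Co.b (upd hi Co.a (upd hi Co.b (rc sI cl13 cl4 cl13 b1_3 (I.pos (nat_lit 0) (nat_lit 0))))))))) = true := tr_split qc1_3_4_rrrrrrl qc1_3_4_rrrrrrr
theorem qc1_3_4_rrrrr : chkTr (tg false false false RT.r3) b1_3 t2 (Tr.N Co.b rc1_3_4_rrrrrl (Tr.N Co.s rc1_3_4_rrrrrrl rc1_3_4_rrrrrrr))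
  (upd hi Co.a (upd hi Co.k (upd hi Co.b (upd hi Co.a (upd hi Co.b (rc sI cl13 cl4 cl13 b1_3 (I.pos (nat_lit 0) (nat_lit 0)))))))) = true := tr_split qc1_3_4_rrrrrl qc1_3_4_rrrrrr
theorem qc1_3_4_rrrr : chkTr (tg false false false RT.r3) b1_3 t2 (Tr.N Co.a rc1_3_4_rrrrl (Tr.N Co.b rc1_3_4_rrrrrl (Tr.N Co.s rc1_3_4_rrrrrrl rc1_3_4_rrrrrrr)))
  (upd hi Co.k (upd hi Co.b (upd hi Co.a (upd hi Co.b (rc sI cl13 cl4 cl13 b1_3 (I.pos (nat_lit 0) (nat_lit 0))))))) = true := tr_split qc1_3_4_rrrrl qc1_3_4_rrrrr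
theorem qc1_3_4_rrr : chkTr (tg false false false RT.r3) b1_3 t2 (Tr.N Co.k (Tr.N Co.a rc1_3_4_rrrll rc1_3_4_rrrlr) (Tr.N Co.a rc1_3_4_rrrrl (Tr.N Co.b rc1_3_4_rrrrrl (Tr.N Co.s rc1_3_4_rrrrrrl rc1_3_4_rrrrrrr))))
  (upd hi Co.b (upd hi Co.a (upd hi Co.b (rc sI cl13 cl4 cl13 b1_3 (I.pos (nat_lit 0) (nat_lit 0)))))) = true := tr_split qc1_3_4_rrrl qc1_3_4_rrrr
theorem qc1_3_4_rr : chkTr (tg false false false RT.r3) b1_3 t2 (Tr.N Co.b rc1_3_4_rrl (Tr.N Co.k (Tr.N Co.a rc1_3_4_rrrll rc1_3_4_rrrlr) (Tr.N Co.a rc1_3_4_rrrrl (Tr.N Co.b rc1_3_4_rrrrrl (Tr.N Co.s rc1_3_4_rrrrrrl rc1_3_4_rrrrrrr)))))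
  (upd hi Co.a (upd hi Co.b (rc sI cl13 cl4 cl13 b1_3 (I.pos (nat_lit 0) (nat_lit 0))))) = true := tr_split qc1_3_4_rrl qc1_3_4_rrr
theorem qc1_3_4_r : chkTr (tg false false false RT.r3) b1_3 t2 (Tr.N Co.a rc1_3_4_rl (Tr.N Co.b rc1_3_4_rrl (Tr.N Co.k (Tr.N Co.a rc1_3_4_rrrll rc1_3_4_rrrlr) (Tr.N Co.a rc1_3_4_rrrrl (Tr.N Co.b rc1_3_4_rrrrrl (Tr.N Co.s rc1_3_4_rrrrrrl rc1_3_4_rrrrrrr))))))
  (upd hi Co.b (rc sI cl13 cl4 cl13 b1_3 (I.pos (nat_lit 0) (nat_lit 0)))) = true := tr_split qc1_3_4_rl qc1_3_4_rr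
theorem qc1_3_4_ : chkTr (tg false false false RT.r3) b1_3 t2 (Tr.N Co.b rc1_3_4_l (Tr.N Co.a rc1_3_4_rl (Tr.N Co.b rc1_3_4_rrl (Tr.N Co.k (Tr.N Co.a rc1_3_4_rrrll rc1_3_4_rrrlr) (Tr.N Co.a rc1_3_4_rrrrl (Tr.N Co.b rc1_3_4_rrrrrl (Tr.N Co.s rc1_3_4_rrrrrrl rc1_3_4_rrrrrrr)))))))
  (rc sI cl13 cl4 cl13 b1_3 (I.pos (nat_lit 0) (nat_lit 0))) = true := tr_split qc1_3_4_l qc1_3_4_r
theorem c1_3_4 : chkTag sI cl13 cl4 cl13 t2 b1_3 (tg false false false RT.r3) (I.pos (nat_lit 0) (nat_lit 0))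
  (Tr.N Co.b rc1_3_4_l (Tr.N Co.a rc1_3_4_rl (Tr.N Co.b rc1_3_4_rrl (Tr.N Co.k (Tr.N Co.a rc1_3_4_rrrll rc1_3_4_rrrlr) (Tr.N Co.a rc1_3_4_rrrrl (Tr.N Co.b rc1_3_4_rrrrrl (Tr.N Co.s rc1_3_4_rrrrrrl rc1_3_4_rrrrrrr))))))) = true := tag_mk (by decide +kernel) qc1_3_4_
theorem c1_3_5 : chkTag sI cl13 cl4 cl13 t0 b1_3 (tg false true false RT.r4) (I.pos (nat_lit 0) (nat_lit 0))
  (xb T0.l2 T0.l2) = true := by decide +kernel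
theorem c1_3_6 : chkTag sI cl13 cl4 cl13 t2 b1_3 (Tag.mk false false false RT.tl RT.r5) (I.mix (nat_lit 8088324) (nat_lit 110514882))
  (xR (xR T2.l4 T2.l4) (xR T2.l4 (xb (xR T2.l4 T2.l4) (xR T2.l4 T2.l4)))) = true := by decide +kernel
theorem c1_3_7 : chkTag sI cl13 cl4 cl13 t0 b1_3 (Tag.mk false true false RT.tl RT.r6) (I.mix (nat_lit 8088324) (nat_lit 89478486))
  (xR (xR T0.l12 T0.l3) (xR T0.l3 (xb T0.l3 (xR T0.l3 T0.l3)))) = true := by decide +kernel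
theorem bx1_3 : BoxOK sI cl13 cl4 cl13 t0 t2 b1_3 :=
  box_mk' [(tg true true false RT.r2), (tg true false false RT.r3), (Tag.mk true true false RT.tl RT.r4), (Tag.mk true false false RT.tl RT.r5), (tg false false false RT.r3), (tg false true false RT.r4), (Tag.mk false false false RT.tl RT.r5), (Tag.mk false true false RT.tl RT.r6)] rfl (allL_c (ex_mk c1_3_0) (allL_c (ex_mk c1_3_1) (allL_c (ex_mk c1_3_2) (allL_c (ex_mk c1_3_3) (allL_c (ex_mk c1_3_4) (allL_c (ex_mk c1_3_5) (allL_c (ex_mk c1_3_6) (allL_c (ex_mk c1_3_7) allL_n))))))))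
theorem bx1_4 : BoxOK sI cl13 cl4 cl13 t0 t2 b1_4 :=
  box_mk (TrL.c (I.pos (nat_lit 0) (nat_lit 0)) (xb (xa T0.l8 T0.l8) T0.l4)
  (TrL.c (I.pos (nat_lit 0) (nat_lit 0)) T2.l6
  (TrL.c (I.pos (nat_lit 0) (nat_lit 134217730)) (xR T0.l10 (xR T0.l1 (xR T0.l1 T0.l1)))
  (TrL.c (I.pos (nat_lit 0) (nat_lit 110514882)) (xR T2.l4 T2.l4)
  (TrL.c (I.pos (nat_lit 0) (nat_lit 0)) T2.l9
  (TrL.c (I.pos (nat_lit 0) (nat_lit 0)) T0.l2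
  (TrL.c (I.mix (nat_lit 8088324) (nat_lit 110514882)) (xR T2.l4 T2.l4)
  (TrL.c (I.mix (nat_lit 8088324) (nat_lit 89478486)) T0.l12
  TrL.n)))))))) (by decide +kernel)
theorem bx1_5 : BoxOK sI cl13 cl4 cl13 t0 t2 b1_5 :=
  box_mk (TrL.c (I.pos (nat_lit 0) (nat_lit 0)) (xa T2.l1 T2.l1)
  (TrL.c (I.pos (nat_lit 0) (nat_lit 0)) T0.l5
  (TrL.c (I.mix (nat_lit 8088324) (nat_lit 110514882)) (xR (xR T2.l7 T2.l7) (xR T2.l4 (xR T2.l7 T2.l7)))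
  (TrL.c (I.mix (nat_lit 8088324) (nat_lit 89478486)) (xR (xk (xR T0.l6 T0.l1) T0.l6) T0.l1)
  TrL.n)))) (by decide +kernel)
theorem bx1_6 : BoxOK sI cl13 cl4 cl13 t0 t2 b1_6 :=
  box_mk (TrL.c (I.pos (nat_lit 0) (nat_lit 0)) (xa T0.l0 (xb T0.l0 T0.l0))
  (TrL.c (I.pos (nat_lit 0) (nat_lit 0)) (xk (xa T2.l1 T2.l1) T2.l1)
  (TrL.c (I.pos (nat_lit 0) (nat_lit 134217730)) (xR (xR T0.l12 T0.l1) (xR T0.l1 T0.l12))
  (TrL.c (I.pos (nat_lit 0) (nat_lit 110514882)) (xR T2.l4 (xR T2.l2 (xR T2.l2 T2.l2)))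
  (TrL.c (I.pos (nat_lit 0) (nat_lit 0)) (xa (xb (xk T2.l3 T2.l3) (xk T2.l3 T2.l3)) (xb (xk (xa T2.l3 T2.l3) (xa T2.l3 T2.l3)) (xk (xa T2.l3 (xb T2.l3 (xk T2.l3 T2.l3))) (xb (xa T2.l3 T2.l3) (xa T2.l3 (xk (xs T2.l3 T2.l3) (xs T2.l3 T2.l3)))))))
  (TrL.c (I.pos (nat_lit 0) (nat_lit 0)) (xk T0.l2 T0.l2)
  (TrL.c (I.mix (nat_lit 8088324) (nat_lit 110514882)) (xR (xR T2.l4 T2.l4) (xR T2.l4 (xR T2.l4 (xk (xR T2.l4 T2.l4) T2.l4))))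
  (TrL.c (I.mix (nat_lit 8088324) (nat_lit 89478486)) (xR T0.l3 (xR T0.l3 (xR T0.l3 T0.l3)))
  TrL.n)))))))) (by decide +kernel)
theorem bx1_7 : BoxOK sI cl13 cl4 cl13 t0 t2 b1_7 :=
  box_mk (TrL.c (I.pos (nat_lit 0) (nat_lit 0)) T0.l8
  (TrL.c (I.pos (nat_lit 0) (nat_lit 0)) T2.l6
  (TrL.c (I.pos (nat_lit 0) (nat_lit 134217730)) (xR T0.l1 (xR T0.l1 (xR T0.l1 T0.l1)))
  (TrL.c (I.pos (nat_lit 0) (nat_lit 110514882)) T2.l4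
  (TrL.c (I.pos (nat_lit 0) (nat_lit 0)) T2.l9
  (TrL.c (I.pos (nat_lit 0) (nat_lit 0)) T0.l2
  (TrL.c (I.mix (nat_lit 8088324) (nat_lit 110514882)) (xR T2.l4 T2.l4)
  (TrL.c (I.mix (nat_lit 8088324) (nat_lit 89478486)) (xR T0.l6 T0.l1)
  TrL.n)))))))) (by decide +kernel)
theorem bx1_8 : BoxOK sI cl13 cl4 cl13 t0 t2 b1_8 :=
  box_mk (TrL.c (I.pos (nat_lit 0) (nat_lit 0)) T0.l0
  (TrL.c (I.pos (nat_lit 0) (nat_lit 0)) T2.l1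
  (TrL.c (I.pos (nat_lit 0) (nat_lit 134217730)) (xR T0.l12 T0.l1)
  (TrL.c (I.pos (nat_lit 0) (nat_lit 110514882)) (xR T2.l4 T2.l2)
  (TrL.c (I.pos (nat_lit 0) (nat_lit 0)) (xk T2.l3 (xa T2.l3 T2.l3))
  (TrL.c (I.pos (nat_lit 0) (nat_lit 0)) T0.l2
  (TrL.c (I.mix (nat_lit 8088324) (nat_lit 110514882)) (xR (xR T2.l4 T2.l4) T2.l4)
  (TrL.c (I.mix (nat_lit 8088324) (nat_lit 89478486)) (xR T0.l3 T0.l3)
  TrL.n)))))))) (by decide +kernel)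
theorem bx1_9 : BoxOK sI cl13 cl4 cl13 t0 t2 b1_9 :=
  box_mk (TrL.c (I.pos (nat_lit 0) (nat_lit 0)) T0.l8
  (TrL.c (I.pos (nat_lit 0) (nat_lit 0)) T2.l1
  (TrL.c (I.pos (nat_lit 0) (nat_lit 134217730)) (xR T0.l1 T0.l12)
  (TrL.c (I.pos (nat_lit 0) (nat_lit 110514882)) T2.l4
  (TrL.c (I.pos (nat_lit 0) (nat_lit 0)) T2.l9
  (TrL.c (I.pos (nat_lit 0) (nat_lit 0)) T0.l2
  (TrL.c (I.mix (nat_lit 8088324) (nat_lit 110514882)) (xR T2.l4 T2.l4)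
  (TrL.c (I.mix (nat_lit 8088324) (nat_lit 89478486)) T0.l12
  TrL.n)))))))) (by decide +kernel)
theorem bx1_10 : BoxOK sI cl13 cl4 cl13 t0 t2 b1_10 :=
  box_mk (TrL.c (I.pos (nat_lit 0) (nat_lit 0)) T0.l0
  (TrL.c (I.pos (nat_lit 0) (nat_lit 0)) T2.l11
  (TrL.c (I.pos (nat_lit 0) (nat_lit 134217730)) (xR (xR T0.l12 T0.l1) T0.l1)
  (TrL.c (I.pos (nat_lit 0) (nat_lit 110514882)) (xR T2.l4 T2.l2)
  (TrL.c (I.pos (nat_lit 0) (nat_lit 0)) (xk (xb T2.l3 T2.l3) (xb T2.l3 T2.l3))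
  (TrL.c (I.pos (nat_lit 0) (nat_lit 0)) T0.l2
  (TrL.c (I.mix (nat_lit 8088324) (nat_lit 110514882)) (xR (xR T2.l4 T2.l4) (xR T2.l4 (xR T2.l4 (xR T2.l4 T2.l4))))
  (TrL.c (I.mix (nat_lit 8088324) (nat_lit 89478486)) (xR T0.l3 T0.l10)
  TrL.n)))))))) (by decide +kernel)
theorem bx1_11 : BoxOK sI cl13 cl4 cl13 t0 t2 b1_11 :=
  box_mk (TrL.c (I.pos (nat_lit 0) (nat_lit 0)) T0.l8
  (TrL.c (I.pos (nat_lit 0) (nat_lit 0)) T2.l6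
  (TrL.c (I.pos (nat_lit 0) (nat_lit 134217730)) (xR T0.l1 (xR T0.l1 (xR T0.l1 T0.l1)))
  (TrL.c (I.pos (nat_lit 0) (nat_lit 110514882)) T2.l4
  (TrL.c (I.pos (nat_lit 0) (nat_lit 0)) T2.l9
  (TrL.c (I.pos (nat_lit 0) (nat_lit 0)) T0.l2
  (TrL.c (I.mix (nat_lit 8088324) (nat_lit 110514882)) (xR T2.l4 T2.l4)
  (TrL.c (I.mix (nat_lit 8088324) (nat_lit 89478486)) (xR T0.l6 T0.l1)
  TrL.n)))))))) (by decide +kernel)
theorem bx1_12 : BoxOK sI cl13 cl4 cl13 t0 t2 b1_12 :=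
  box_mk (TrL.c (I.pos (nat_lit 0) (nat_lit 0)) T0.l0
  (TrL.c (I.pos (nat_lit 0) (nat_lit 0)) T2.l1
  (TrL.c (I.pos (nat_lit 0) (nat_lit 134217730)) (xR T0.l12 T0.l1)
  (TrL.c (I.pos (nat_lit 0) (nat_lit 110514882)) (xR T2.l4 T2.l2)
  (TrL.c (I.pos (nat_lit 0) (nat_lit 0)) T2.l3
  (TrL.c (I.pos (nat_lit 0) (nat_lit 0)) T0.l2
  (TrL.c (I.mix (nat_lit 8088324) (nat_lit 110514882)) (xR (xR T2.l4 T2.l4) T2.l4)
  (TrL.c (I.mix (nat_lit 8088324) (nat_lit 89478486)) (xR T0.l3 T0.l3)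
  TrL.n)))))))) (by decide +kernel)
theorem bx1_13 : BoxOK sI cl13 cl4 cl13 t0 t2 b1_13 :=
  box_mk (TrL.c (I.pos (nat_lit 0) (nat_lit 0)) T0.l0
  (TrL.c (I.pos (nat_lit 0) (nat_lit 0)) T2.l1
  (TrL.c (I.pos (nat_lit 0) (nat_lit 134217730)) (xR T0.l12 T0.l1)
  (TrL.c (I.pos (nat_lit 0) (nat_lit 110514882)) (xR T2.l4 T2.l2)
  (TrL.c (I.pos (nat_lit 0) (nat_lit 0)) T2.l3
  (TrL.c (I.pos (nat_lit 0) (nat_lit 0)) T0.l2
  (TrL.c (I.mix (nat_lit 8088324) (nat_lit 110514882)) (xR (xR T2.l4 T2.l4) (xR T2.l4 T2.l4))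
  (TrL.c (I.mix (nat_lit 8088324) (nat_lit 89478486)) (xR T0.l3 T0.l10)
  TrL.n)))))))) (by decide +kernel)
theorem bx1_14 : BoxOK sI cl13 cl4 cl13 t0 t2 b1_14 :=
  box_mk (TrL.c (I.pos (nat_lit 0) (nat_lit 0)) T0.l0
  (TrL.c (I.pos (nat_lit 0) (nat_lit 0)) T2.l1
  (TrL.c (I.pos (nat_lit 0) (nat_lit 134217730)) (xR T0.l12 T0.l1)
  (TrL.c (I.pos (nat_lit 0) (nat_lit 110514882)) (xR T2.l4 T2.l2)
  (TrL.c (I.pos (nat_lit 0) (nat_lit 0)) (xk T2.l3 T2.l3)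
  (TrL.c (I.pos (nat_lit 0) (nat_lit 0)) T0.l2
  (TrL.c (I.mix (nat_lit 8088324) (nat_lit 110514882)) (xR (xR T2.l4 T2.l4) T2.l4)
  (TrL.c (I.mix (nat_lit 8088324) (nat_lit 89478486)) (xR T0.l3 T0.l3)
  TrL.n)))))))) (by decide +kernel)
theorem bx1_15 : BoxOK sI cl13 cl4 cl13 t0 t2 b1_15 :=
  box_mk (TrL.c (I.pos (nat_lit 0) (nat_lit 0)) T0.l8
  (TrL.c (I.pos (nat_lit 0) (nat_lit 0)) T2.l1
  (TrL.c (I.pos (nat_lit 0) (nat_lit 134217730)) (xR T0.l1 T0.l12)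
  (TrL.c (I.pos (nat_lit 0) (nat_lit 110514882)) T2.l4
  (TrL.c (I.pos (nat_lit 0) (nat_lit 0)) T2.l9
  (TrL.c (I.pos (nat_lit 0) (nat_lit 0)) T0.l2
  (TrL.c (I.mix (nat_lit 8088324) (nat_lit 110514882)) (xR T2.l4 T2.l4)
  (TrL.c (I.mix (nat_lit 8088324) (nat_lit 89478486)) T0.l12
  TrL.n)))))))) (by decide +kernel)
theorem bx1_16 : BoxOK sI cl13 cl4 cl13 t0 t2 b1_16 :=
  box_mk (TrL.c (I.pos (nat_lit 0) (nat_lit 0)) T0.l0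
  (TrL.c (I.pos (nat_lit 0) (nat_lit 0)) (xk T2.l1 T2.l1)
  (TrL.c (I.pos (nat_lit 0) (nat_lit 134217730)) (xR (xR T0.l12 T0.l1) T0.l12)
  (TrL.c (I.pos (nat_lit 0) (nat_lit 110514882)) (xR T2.l4 T2.l2)
  (TrL.c (I.pos (nat_lit 0) (nat_lit 0)) (xb (xk (xa T2.l3 T2.l3) (xa T2.l3 T2.l3)) (xk (xa T2.l3 T2.l3) (xa T2.l3 T2.l3)))
  (TrL.c (I.pos (nat_lit 0) (nat_lit 0)) T0.l2
  (TrL.c (I.mix (nat_lit 8088324) (nat_lit 110514882)) (xR (xR T2.l4 T2.l4) (xR T2.l4 (xR T2.l4 (xR T2.l4 T2.l4))))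
  (TrL.c (I.mix (nat_lit 8088324) (nat_lit 89478486)) (xR T0.l3 T0.l10)
  TrL.n)))))))) (by decide +kernel)
theorem bx1_17 : BoxOK sI cl13 cl4 cl13 t0 t2 b1_17 :=
  box_mk (TrL.c (I.pos (nat_lit 0) (nat_lit 0)) T0.l8
  (TrL.c (I.pos (nat_lit 0) (nat_lit 0)) T2.l1
  (TrL.c (I.pos (nat_lit 0) (nat_lit 134217730)) (xR T0.l1 (xR T0.l1 (xR T0.l1 T0.l1)))
  (TrL.c (I.pos (nat_lit 0) (nat_lit 110514882)) T2.l4
  (TrL.c (I.pos (nat_lit 0) (nat_lit 0)) T2.l9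
  (TrL.c (I.pos (nat_lit 0) (nat_lit 0)) T0.l2
  (TrL.c (I.mix (nat_lit 8088324) (nat_lit 110514882)) (xR T2.l4 T2.l4)
  (TrL.c (I.mix (nat_lit 8088324) (nat_lit 89478486)) (xR T0.l6 T0.l1)
  TrL.n)))))))) (by decide +kernel)
theorem bx1_18 : BoxOK sI cl13 cl4 cl13 t0 t2 b1_18 :=
  box_mk (TrL.c (I.pos (nat_lit 0) (nat_lit 0)) (xa (xb T0.l0 (xa T0.l7 (xb T0.l0 T0.l0))) (xb T0.l0 (xa (xb T0.l0 T0.l0) (xb T0.l0 T0.l0))))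
  (TrL.c (I.pos (nat_lit 0) (nat_lit 0)) (xk T2.l1 T2.l1)
  (TrL.c (I.pos (nat_lit 0) (nat_lit 134217730)) (xR T0.l12 T0.l1)
  (TrL.c (I.pos (nat_lit 0) (nat_lit 110514882)) (xR T2.l4 (xR T2.l2 T2.l2))
  (TrL.c (I.pos (nat_lit 0) (nat_lit 0)) (xb (xk (xa T2.l3 (xb T2.l3 T2.l3)) (xa T2.l3 (xk T2.l3 T2.l3))) (xk (xa (xk T2.l3 (xs T2.l3 T2.l3)) (xb (xk T2.l3 T2.l3) (xs (xk T2.l3 T2.l3) (xk T2.l3 (xa T2.l0 (xs T2.l0 T2.l0)))))) (xa (xk (xb T2.l3 (xs T2.l3 T2.l3)) (xb T2.l3 (xs T2.l3 T2.l3))) (xb (xk (xs T2.l3 T2.l3) (xa T2.l3 (xs T2.l0 T2.l0))) (xs (xk T2.l3 (xa T2.l0 T2.l0)) (xk (xa T2.l3 (xs T2.l0 T2.l0)) (xa T2.l3 (xs T2.l0 T2.l0))))))))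
  (TrL.c (I.pos (nat_lit 0) (nat_lit 0)) T0.l2
  (TrL.c (I.mix (nat_lit 8088324) (nat_lit 110514882)) (xR (xR T2.l4 T2.l4) (xR T2.l4 T2.l4))
  (TrL.c (I.mix (nat_lit 8088324) (nat_lit 89478486)) (xR T0.l12 T0.l3)
  TrL.n)))))))) (by decide +kernel)
theorem bx1_19 : BoxOK sI cl13 cl4 cl13 t0 t2 b1_19 :=
  box_mk (TrL.c (I.pos (nat_lit 0) (nat_lit 0)) T0.l8
  (TrL.c (I.pos (nat_lit 0) (nat_lit 0)) T2.l1
  (TrL.c (I.pos (nat_lit 0) (nat_lit 134217730)) (xR T0.l10 T0.l1)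
  (TrL.c (I.pos (nat_lit 0) (nat_lit 110514882)) T2.l4
  (TrL.c (I.pos (nat_lit 0) (nat_lit 0)) T2.l9
  (TrL.c (I.pos (nat_lit 0) (nat_lit 0)) T0.l2
  (TrL.c (I.mix (nat_lit 8088324) (nat_lit 110514882)) (xR T2.l4 T2.l4)
  (TrL.c (I.mix (nat_lit 8088324) (nat_lit 89478486)) T0.l12
  TrL.n)))))))) (by decide +kernel)
theorem bx1_20 : BoxOK sI cl13 cl4 cl13 t0 t2 b1_20 :=
  box_mk (TrL.c (I.pos (nat_lit 0) (nat_lit 0)) (xa (xb T0.l0 (xa T0.l0 T0.l0)) (xb T0.l0 (xa T0.l0 T0.l0)))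
  (TrL.c (I.pos (nat_lit 0) (nat_lit 0)) (xk (xa T2.l1 (xb T2.l1 T2.l1)) (xa T2.l1 T2.l11))
  (TrL.c (I.pos (nat_lit 0) (nat_lit 134217730)) (xR (xR T0.l12 T0.l1) (xR T0.l1 T0.l12))
  (TrL.c (I.pos (nat_lit 0) (nat_lit 110514882)) (xR T2.l4 (xR T2.l2 (xR T2.l2 T2.l2)))
  (TrL.c (I.pos (nat_lit 0) (nat_lit 0)) (xb (xa (xk T2.l3 T2.l3) (xk (xb (xa T2.l3 T2.l3) T2.l3) (xb T2.l3 (xa T2.l3 T2.l3)))) (xa (xk (xb T2.l3 T2.l3) (xb T2.l3 (xa T2.l3 (xk T2.l3 T2.l3)))) (xk (xb (xa T2.l3 (xk T2.l3 T2.l3)) (xa (xk T2.l3 (xs T2.l3 T2.l3)) (xs (xk T2.l3 (xa T2.l3 T2.l3)) (xk (xa T2.l3 (xb T2.l3 T2.l3)) (xb T2.l3 (xa T2.l3 T2.l3)))))) (xb (xa T2.l3 (xk (xs T2.l3 T2.l3) (xs T2.l3 T2.l3))) (xa (xs T2.l3 (xk T2.l3 (xa T2.l3 T2.l3))) (xs (xk (xa T2.l3 T2.l3) (xa T2.l3 (xb T2.l3 T2.l3))) (xk (xb T2.l3 (xa T2.l3 (xc T2.l3 T2.l3))) (xb (xa T2.l3 T2.l3) (xa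 T2.l3 (xc T2.l3 T2.l3))))))))))
  (TrL.c (I.pos (nat_lit 0) (nat_lit 0)) (xk T0.l2 T0.l2)
  (TrL.c (I.mix (nat_lit 8088324) (nat_lit 110514882)) (xR (xR (xR T2.l4 T2.l4) T2.l4) (xR T2.l4 (xR T2.l4 (xk (xR T2.l4 T2.l4) T2.l4))))
  (TrL.c (I.mix (nat_lit 8088324) (nat_lit 89478486)) (xR T0.l3 (xR T0.l3 (xR T0.l3 T0.l3)))
  TrL.n)))))))) (by decide +kernel)
theorem bx1_21 : BoxOK sI cl13 cl4 cl13 t0 t2 b1_21 :=
  box_mk (TrL.c (I.pos (nat_lit 0) (nat_lit 0)) T0.l8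
  (TrL.c (I.pos (nat_lit 0) (nat_lit 0)) T2.l6
  (TrL.c (I.pos (nat_lit 0) (nat_lit 134217730)) (xR T0.l1 (xR T0.l1 (xR T0.l1 T0.l1)))
  (TrL.c (I.pos (nat_lit 0) (nat_lit 110514882)) T2.l4
  (TrL.c (I.pos (nat_lit 0) (nat_lit 0)) T2.l9
  (TrL.c (I.pos (nat_lit 0) (nat_lit 0)) T0.l2
  (TrL.c (I.mix (nat_lit 8088324) (nat_lit 110514882)) (xR T2.l4 T2.l4)
  (TrL.c (I.mix (nat_lit 8088324) (nat_lit 89478486)) (xR T0.l6 T0.l1)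
  TrL.n)))))))) (by decide +kernel)
theorem sv1 : StarV sI cl13 cl4 cl13 t0 t2 t1 :=
  (bt_n (bt_n (bt_n (bt_n (bt_b bx1_0) (bt_b bx1_1)) (bt_n (bt_b bx1_2) (bt_n (bt_b bx1_3) (bt_b bx1_4)))) (bt_n (bt_n (bt_b bx1_5) (bt_n (bt_b bx1_6) (bt_b bx1_7))) (bt_n (bt_b bx1_8) (bt_n (bt_b bx1_9) (bt_b bx1_10))))) (bt_n (bt_n (bt_n (bt_b bx1_11) (bt_b bx1_12)) (bt_n (bt_b bx1_13) (bt_n (bt_b bx1_14) (bt_b bx1_15)))) (bt_n (bt_n (bt_b bx1_16) (bt_n (bt_b bx1_17) (bt_b bx1_18))) (bt_n (bt_b bx1_19) (bt_n (bt_b bx1_20) (bt_b bx1_21))))))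
def S1 : StarD := StarD.mk cl13 cl4 cl13 0 2 t1
theorem c2_0_0 : chkTag sI cl13 cl13 cl4 t2 b2_0 (tg true true false RT.r2) (I.pos (nat_lit 0) (nat_lit 0))
  (xa (xb (xa (xc (xb T2.l0 T2.l0) (xa (xb T2.l0 T2.l0) (xb T2.l0 T2.l0))) (xc (xb T2.l0 T2.l0) (xa (xb T2.l0 T2.l0) (xb T2.l0 T2.l0)))) (xa (xc (xb (xa T2.l0 T2.l0) (xs T2.l0 (xa T2.l0 T2.l0))) (xs (xa (xb T2.l0 T2.l0) T2.l0) (xb (xa T2.l0 T2.l0) (xa T2.l0 T2.l0)))) (xc (xs (xb T2.l0 T2.l0) (xb T2.l0 (xa T2.l0 T2.l0))) (xs (xa T2.l0 T2.l0) (xa (xb T2.l0 T2.l0) (xb T2.l0 T2.l0)))))) (xa (xb (xc (xb (xs T2.l0 T2.l0) (xs T2.l0 T2.l0)) (xa (xb (xs T2.l0 T2.l0) (xs T2.l0 T2.l0)) (xb (xs T2.l0 T2.l0) (xs T2.l0 T2.l0)))) (xs (xc (xa T2.l0 T2.l0) (xa T2.l0 T2.l0)) (xc (xb T2.l0 T2.l0) (xa (xb T2.l0 T2.l0) (xb T2.l0 T2.l0))))) (xb (xc (xb (xs T2.l0 T2.l0) (xs T2.l0 T2.l0)) (xs (xb T2.l0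 T2.l0) (xb (xa T2.l0 T2.l0) (xa T2.l0 T2.l0)))) (xs (xc T2.l0 (xa T2.l0 T2.l0)) (xc (xa (xb T2.l0 T2.l0) (xb T2.l0 T2.l0)) (xa (xb T2.l0 T2.l0) (xb T2.l0 T2.l0))))))) = true := by decide +kernel
theorem c2_0_1 : chkTag sI cl13 cl13 cl4 t0 b2_0 (tg true false false RT.r3) (I.pos (nat_lit 0) (nat_lit 0))
  (xa (xk (xb T0.l9 (xa T0.l9 T0.l9)) (xb T0.l9 T0.l9)) (xk (xa T0.l9 T0.l9) (xb T0.l9 T0.l9))) = true := by decide +kernel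
theorem c2_0_2 : chkTag sI cl13 cl13 cl4 t2 b2_0 (Tag.mk true true false RT.tl RT.r4) (I.pos (nat_lit 0) (nat_lit 134217730))
  (xR (xR T2.l4 T2.l4) (xR T2.l4 (xR T2.l10 (xa (xR T2.l10 T2.l10) (xR T2.l10 T2.l10))))) = true := by decide +kernel
theorem c2_0_3 : chkTag sI cl13 cl13 cl4 t0 b2_0 (Tag.mk true false false RT.tl RT.r5) (I.pos (nat_lit 0) (nat_lit 110514882))
  (xR (xR T0.l12 T0.l10) (xR T0.l10 (xR T0.l10 (xk (xR T0.l10 T0.l10) T0.l10)))) = true := by decide +kernel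
theorem c2_0_4 : chkTag sI cl13 cl13 cl4 t0 b2_0 (tg false false false RT.r3) (I.pos (nat_lit 0) (nat_lit 0))
  (xa (xk (xb T0.l15 T0.l11) (xb T0.l15 (xb T0.l11 T0.l11))) (xk (xb T0.l11 (xb T0.l11 (xa T0.l11 (xk (xs T0.l11 T0.l11) (xs T0.l11 (xa T0.l11 T0.l11)))))) (xb T0.l11 (xa (xb T0.l15 (xs T0.l11 T0.l11)) (xb T0.l11 (xs (xk T0.l11 T0.l11) (xk (xa T0.l11 (xb T0.l11 T0.l11)) (xa T0.l11 (xb T0.l11 (xd T0.l11 T0.l11)))))))))) = true := by decide +kernel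
theorem c2_0_5 : chkTag sI cl13 cl13 cl4 t2 b2_0 (tg false true false RT.r4) (I.pos (nat_lit 0) (nat_lit 0))
  T2.l11 = true := by decide +kernel
theorem c2_0_6 : chkTag sI cl13 cl13 cl4 t0 b2_0 (Tag.mk false false false RT.tl RT.r5) (I.mix (nat_lit 8088324) (nat_lit 110514882))
  (xR T0.l12 (xR T0.l12 (xR T0.l12 T0.l12))) = true := by decide +kernel
theorem c2_0_7 : chkTag sI cl13 cl13 cl4 t2 b2_0 (Tag.mk false true false RT.tl RT.r6) (I.mix (nat_lit 8088324) (nat_lit 89478486))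
  (xR T2.l4 T2.l2) = true := by decide +kernel
theorem bx2_0 : BoxOK sI cl13 cl13 cl4 t2 t0 b2_0 :=
  box_mk' [(tg true true false RT.r2), (tg true false false RT.r3), (Tag.mk true true false RT.tl RT.r4), (Tag.mk true false false RT.tl RT.r5), (tg false false false RT.r3), (tg false true false RT.r4), (Tag.mk false false false RT.tl RT.r5), (Tag.mk false true false RT.tl RT.r6)] rfl (allL_c (ex_mk c2_0_0) (allL_c (ex_mk c2_0_1) (allL_c (ex_mk c2_0_2) (allL_c (ex_mk c2_0_3) (allL_c (ex_mk c2_0_4) (allL_c (ex_mk c2_0_5) (allL_c (ex_mk c2_0_6) (allL_c (ex_mk c2_0_7) allL_n))))))))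
theorem bx2_1 : BoxOK sI cl13 cl13 cl4 t2 t0 b2_1 :=
  box_mk (TrL.c (I.pos (nat_lit 0) (nat_lit 0)) (xa (xb (xa T2.l12 T2.l12) (xa T2.l12 (xb T2.l12 T2.l12))) (xb (xa T2.l12 T2.l0) (xa (xb T2.l12 T2.l12) T2.l0)))
  (TrL.c (I.pos (nat_lit 0) (nat_lit 0)) (xa (xk T0.l9 T0.l9) (xk T0.l9 T0.l9))
  (TrL.c (I.pos (nat_lit 0) (nat_lit 134217730)) (xR (xR T2.l4 T2.l4) (xR T2.l4 T2.l10))
  (TrL.c (I.pos (nat_lit 0) (nat_lit 110514882)) (xR (xR T0.l12 T0.l10) (xR T0.l10 (xR T0.l10 T0.l10)))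
  (TrL.c (I.pos (nat_lit 0) (nat_lit 0)) (xa (xk T0.l13 T0.l13) (xk (xb T0.l13 T0.l15) (xb T0.l13 T0.l15)))
  (TrL.c (I.pos (nat_lit 0) (nat_lit 0)) T2.l11
  (TrL.c (I.mix (nat_lit 8088324) (nat_lit 110514882)) (xR T0.l12 (xR T0.l12 (xR T0.l12 T0.l12)))
  (TrL.c (I.mix (nat_lit 8088324) (nat_lit 89478486)) (xR T2.l4 T2.l2)
  TrL.n)))))))) (by decide +kernel)
theorem bx2_2 : BoxOK sI cl13 cl13 cl4 t2 t0 b2_2 :=
  box_mk (TrL.c (I.pos (nat_lit 0) (nat_lit 0)) (xa (xa T2.l14 T2.l16) (xa T2.l16 T2.l16))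
  (TrL.c (I.pos (nat_lit 0) (nat_lit 0)) (xa T0.l9 T0.l9)
  (TrL.c (I.pos (nat_lit 0) (nat_lit 134217730)) (xR T2.l4 (xR T2.l4 (xa T2.l10 T2.l10)))
  (TrL.c (I.pos (nat_lit 0) (nat_lit 110514882)) (xR T0.l12 (xR T0.l10 (xR T0.l10 T0.l10)))
  (TrL.c (I.pos (nat_lit 0) (nat_lit 0)) (xa T0.l14 (xk T0.l16 T0.l16))
  (TrL.c (I.pos (nat_lit 0) (nat_lit 0)) T2.l11
  (TrL.c (I.mix (nat_lit 8088324) (nat_lit 110514882)) (xR (xR T0.l12 T0.l12) (xR T0.l12 (xa (xR T0.l12 T0.l12) T0.l12)))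
  (TrL.c (I.mix (nat_lit 8088324) (nat_lit 89478486)) (xR T2.l4 T2.l4)
  TrL.n)))))))) (by decide +kernel)
theorem c2_3_0 : chkTag sI cl13 cl13 cl4 t2 b2_3 (tg true true false RT.r2) (I.pos (nat_lit 0) (nat_lit 0))
  (xb (xa (xb (xa (xs (xb T2.l15 T2.l15) (xb (xc T2.l0 T2.l0) (xc T2.l0 T2.l0))) (xs (xb T2.l0 T2.l0) (xb (xc T2.l0 T2.l0) (xc T2.l0 T2.l0)))) (xa (xc (xs T2.l15 T2.l15) (xs T2.l15 (xb T2.l0 T2.l15))) (xs T2.l15 (xb (xc T2.l0 T2.l0) T2.l15)))) (xb (xa (xs (xb T2.l0 T2.l0) (xb (xc T2.l0 T2.l0) T2.l0)) (xs (xb T2.l0 T2.l0) (xc (xb T2.l0 T2.l0) (xb T2.l0 T2.l0)))) (xa (xs T2.l15 (xb (xc T2.l0 T2.l0) (xc T2.l0 T2.l0))) (xs T2.l15 (xc (xb T2.l0 T2.l0) (xb T2.l0 T2.l0)))))) (xa (xb (xa (xs T2.l15 (xb T2.l15 T2.l15)) (xs T2.l15 (xb T2.l15 T2.l15))) (xa (xs (xc T2.l15 T2.l15) (xc T2.l15 (xb T2.l15 T2.l15))) (xs (xc T2.l15 T2.l15)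 (xc T2.l15 (xk T2.l15 T2.l15))))) (xb (xa (xs T2.l15 (xb (xc T2.l15 T2.l15) T2.l15)) (xs T2.l15 (xc T2.l15 (xk T2.l15 (xb T2.l0 T2.l0))))) (xa (xs T2.l15 (xc T2.l15 (xb T2.l15 T2.l15))) (xs (xc T2.l15 T2.l15) (xc T2.l15 (xb T2.l15 (xk T2.l15 T2.l15)))))))) = true := by decide +kernel
theorem c2_3_1 : chkTag sI cl13 cl13 cl4 t0 b2_3 (tg true false false RT.r3) (I.pos (nat_lit 0) (nat_lit 0))
  (xb (xk T0.l9 T0.l9) (xk (xa T0.l9 T0.l9) (xa T0.l9 T0.l9))) = true := by decide +kernel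
theorem c2_3_2 : chkTag sI cl13 cl13 cl4 t2 b2_3 (Tag.mk true true false RT.tl RT.r4) (I.pos (nat_lit 0) (nat_lit 134217730))
  (xR (xR T2.l4 T2.l4) (xR T2.l4 (xR T2.l10 (xR T2.l10 T2.l10)))) = true := by decide +kernel
theorem c2_3_3 : chkTag sI cl13 cl13 cl4 t0 b2_3 (Tag.mk true false false RT.tl RT.r5) (I.pos (nat_lit 0) (nat_lit 110514882))
  (xR (xR T0.l12 T0.l10) (xR T0.l10 (xR T0.l10 (xk T0.l10 T0.l10)))) = true := by decide +kernel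
theorem c2_3_4 : chkTag sI cl13 cl13 cl4 t0 b2_3 (tg false false false RT.r3) (I.pos (nat_lit 0) (nat_lit 0))
  (xb (xk T0.l15 (xa T0.l15 T0.l15)) (xk (xb T0.l15 (xa T0.l15 (xb T0.l15 (xa T0.l11 T0.l11)))) (xb (xa T0.l15 T0.l15) (xa (xb T0.l11 T0.l11) (xa (xb T0.l11 T0.l11) (xb T0.l15 (xs T0.l11 T0.l11))))))) = true := by decide +kernel
theorem c2_3_5 : chkTag sI cl13 cl13 cl4 t2 b2_3 (tg false true false RT.r4) (I.pos (nat_lit 0) (nat_lit 0))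
  T2.l11 = true := by decide +kernel
theorem c2_3_6 : chkTag sI cl13 cl13 cl4 t0 b2_3 (Tag.mk false false false RT.tl RT.r5) (I.mix (nat_lit 8088324) (nat_lit 110514882))
  (xR T0.l12 (xR T0.l12 (xR T0.l12 T0.l12))) = true := by decide +kernel
theorem c2_3_7 : chkTag sI cl13 cl13 cl4 t2 b2_3 (Tag.mk false true false RT.tl RT.r6) (I.mix (nat_lit 8088324) (nat_lit 89478486))
  (xR T2.l4 (xR T2.l13 (xR T2.l13 T2.l2))) = true := by decide +kernel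
theorem bx2_3 : BoxOK sI cl13 cl13 cl4 t2 t0 b2_3 :=
  box_mk' [(tg true true false RT.r2), (tg true false false RT.r3), (Tag.mk true true false RT.tl RT.r4), (Tag.mk true false false RT.tl RT.r5), (tg false false false RT.r3), (tg false true false RT.r4), (Tag.mk false false false RT.tl RT.r5), (Tag.mk false true false RT.tl RT.r6)] rfl (allL_c (ex_mk c2_3_0) (allL_c (ex_mk c2_3_1) (allL_c (ex_mk c2_3_2) (allL_c (ex_mk c2_3_3) (allL_c (ex_mk c2_3_4) (allL_c (ex_mk c2_3_5) (allL_c (ex_mk c2_3_6) (allL_c (ex_mk c2_3_7) allL_n))))))))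
theorem bx2_4 : BoxOK sI cl13 cl13 cl4 t2 t0 b2_4 :=
  box_mk (TrL.c (I.pos (nat_lit 0) (nat_lit 0)) (xa (xa (xb T2.l16 (xa T2.l16 T2.l16)) (xb T2.l16 (xa T2.l16 T2.l16))) (xa (xb (xa T2.l16 T2.l16) (xa T2.l16 T2.l16)) (xb (xa T2.l16 T2.l16) (xa T2.l16 T2.l16))))
  (TrL.c (I.pos (nat_lit 0) (nat_lit 0)) (xa (xa T0.l9 T0.l9) (xa T0.l9 T0.l9))
  (TrL.c (I.pos (nat_lit 0) (nat_lit 134217730)) (xR T2.l4 (xR T2.l4 (xa T2.l10 T2.l10)))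
  (TrL.c (I.pos (nat_lit 0) (nat_lit 110514882)) (xR T0.l12 (xR T0.l10 (xa (xR T0.l10 T0.l10) T0.l10)))
  (TrL.c (I.pos (nat_lit 0) (nat_lit 0)) (xa (xa T0.l16 T0.l16) (xa T0.l16 T0.l16))
  (TrL.c (I.pos (nat_lit 0) (nat_lit 0)) T2.l11
  (TrL.c (I.mix (nat_lit 8088324) (nat_lit 110514882)) (xR (xR T0.l12 T0.l12) (xR T0.l12 (xa T0.l12 T0.l12)))
  (TrL.c (I.mix (nat_lit 8088324) (nat_lit 89478486)) (xR T2.l4 T2.l4)
  TrL.n)))))))) (by decide +kernel)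
theorem bx2_5 : BoxOK sI cl13 cl13 cl4 t2 t0 b2_5 :=
  box_mk (TrL.c (I.pos (nat_lit 0) (nat_lit 0)) (xb (xa (xa T2.l15 T2.l15) (xa T2.l15 (xb T2.l15 T2.l15))) (xa T2.l15 (xa T2.l15 T2.l0)))
  (TrL.c (I.pos (nat_lit 0) (nat_lit 0)) (xk T0.l9 (xa T0.l9 T0.l9))
  (TrL.c (I.pos (nat_lit 0) (nat_lit 134217730)) (xR (xR T2.l4 T2.l4) (xR T2.l4 (xR T2.l10 T2.l10)))
  (TrL.c (I.pos (nat_lit 0) (nat_lit 110514882)) (xR (xR T0.l12 T0.l10) (xR T0.l10 (xR T0.l10 T0.l10)))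
  (TrL.c (I.pos (nat_lit 0) (nat_lit 0)) (xk (xa T0.l15 T0.l15) (xa T0.l15 T0.l15))
  (TrL.c (I.pos (nat_lit 0) (nat_lit 0)) T2.l11
  (TrL.c (I.mix (nat_lit 8088324) (nat_lit 110514882)) (xR T0.l12 (xR T0.l12 T0.l12))
  (TrL.c (I.mix (nat_lit 8088324) (nat_lit 89478486)) (xR T2.l4 T2.l2)
  TrL.n)))))))) (by decide +kernel)
theorem bx2_6 : BoxOK sI cl13 cl13 cl4 t2 t0 b2_6 :=
  box_mk (TrL.c (I.pos (nat_lit 0) (nat_lit 0)) (xa (xb T2.l12 T2.l17) T2.l0)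
  (TrL.c (I.pos (nat_lit 0) (nat_lit 0)) (xk T0.l9 T0.l9)
  (TrL.c (I.pos (nat_lit 0) (nat_lit 134217730)) (xR (xR T2.l4 T2.l4) (xR T2.l4 T2.l10))
  (TrL.c (I.pos (nat_lit 0) (nat_lit 110514882)) (xR (xR T0.l12 T0.l10) (xR T0.l10 T0.l10))
  (TrL.c (I.pos (nat_lit 0) (nat_lit 0)) (xk T0.l20 T0.l20)
  (TrL.c (I.pos (nat_lit 0) (nat_lit 0)) T2.l11
  (TrL.c (I.mix (nat_lit 8088324) (nat_lit 110514882)) (xR T0.l12 (xR T0.l12 T0.l12))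
  (TrL.c (I.mix (nat_lit 8088324) (nat_lit 89478486)) (xR T2.l4 T2.l13)
  TrL.n)))))))) (by decide +kernel)
theorem bx2_7 : BoxOK sI cl13 cl13 cl4 t2 t0 b2_7 :=
  box_mk (TrL.c (I.pos (nat_lit 0) (nat_lit 0)) (xa (xa T2.l20 T2.l14) (xa T2.l16 T2.l16))
  (TrL.c (I.pos (nat_lit 0) (nat_lit 0)) (xa T0.l9 T0.l9)
  (TrL.c (I.pos (nat_lit 0) (nat_lit 134217730)) (xR T2.l4 (xR T2.l4 (xa T2.l10 T2.l10)))
  (TrL.c (I.pos (nat_lit 0) (nat_lit 110514882)) (xR T0.l10 (xR T0.l10 (xR T0.l10 T0.l10)))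
  (TrL.c (I.pos (nat_lit 0) (nat_lit 0)) (xa T0.l17 T0.l17)
  (TrL.c (I.pos (nat_lit 0) (nat_lit 0)) T2.l11
  (TrL.c (I.mix (nat_lit 8088324) (nat_lit 110514882)) (xR (xR T0.l12 T0.l12) (xR T0.l12 (xa T0.l12 T0.l12)))
  (TrL.c (I.mix (nat_lit 8088324) (nat_lit 89478486)) (xR T2.l4 T2.l4)
  TrL.n)))))))) (by decide +kernel)
def rc2_8_0_l : Tr := (xb (xb (xa (xs T2.l15 (xk (xb (xa T2.l0 T2.l0) (xa T2.l0 T2.l0)) (xb (xa T2.l0 (xs T2.l0 (xc T2.l0 T2.l0))) (xa T2.l0 (xs T2.l0 T2.l0))))) (xs (xb T2.l0 T2.l15) (xk (xb T2.l0 T2.l0) (xb (xa T2.l0 (xs T2.l0 (xc T2.l0 T2.l0))) (xa (xs T2.l0 T2.l0) (xs T2.l0 T2.l0)))))) (xa (xs T2.l15 (xb (xa T2.l15 T2.l15) (xa T2.l15 (xc T2.l0 T2.l0)))) (xs T2.l15 (xb (xa T2.l15 (xs T2.l0 T2.l0)) (xa (xs T2.l0 (xc T2.l0 T2.l0)) (xs T2.l0 T2.l0)))))) (xb (xa (xs T2.l15 (xb (xa (xc T2.l0 T2.l15) (xc T2.l0 T2.l15))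 (xa T2.l15 (xc T2.l15 T2.l15)))) (xs T2.l15 (xb (xa (xc T2.l0 T2.l0) (xs T2.l0 (xc T2.l0 T2.l0))) (xa (xc T2.l0 (xs T2.l0 T2.l0)) (xs T2.l15 (xc T2.l0 T2.l0)))))) (xa (xs T2.l15 (xb T2.l15 T2.l15)) (xs T2.l15 (xb T2.l15 T2.l15)))))
theorem qc2_8_0_l : chkTr (tg true true false RT.r2) b2_8 t2 rc2_8_0_l
  (upd lo Co.a (rc sI cl13 cl13 cl4 b2_8 (I.pos (nat_lit 0) (nat_lit 0)))) = true := by decide +kernel
def rc2_8_0_r : Tr := (xb (xa (xb (xs (xb T2.l0 T2.l0) (xk (xb (xa T2.l0 (xs T2.l0 T2.l0)) (xa T2.l0 T2.l0)) (xb (xa (xs T2.l0 T2.l0) (xs T2.l0 (xc T2.l0 T2.l0))) (xa T2.l0 (xs T2.l0 T2.l0))))) (xs T2.l15 (xb (xa T2.l15 T2.l0) (xa (xs T2.l0 T2.l0) (xs T2.l0 T2.l0))))) (xb (xs (xb T2.l0 T2.l0) (xk (xb (xa T2.l0 (xs T2.l0 T2.l0)) (xa T2.l0 T2.l0)) (xb (xa (xs T2.l0 T2.l0) (xs T2.l0 T2.l0)) (xa T2.l0 T2.l0)))) (xs T2.l15 (xb (xa T2.l0 T2.l0)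 (xa T2.l0 T2.l0))))) (xa (xb (xs T2.l15 (xb (xa (xs T2.l0 (xc T2.l0 T2.l0)) (xs T2.l0 T2.l0)) (xa (xs T2.l0 (xc T2.l0 T2.l0)) (xs T2.l0 (xc T2.l0 T2.l0))))) (xs T2.l15 (xb (xa (xs T2.l15 (xc T2.l0 T2.l0)) (xs T2.l15 (xc T2.l0 T2.l0))) (xa (xs T2.l15 (xc T2.l0 T2.l15)) (xs T2.l15 (xc T2.l0 T2.l15)))))) (xb (xs T2.l15 (xb (xa (xs T2.l0 T2.l0) (xs T2.l0 T2.l0)) (xa (xs T2.l0 T2.l0) (xs T2.l0 T2.l0)))) (xs T2.l15 (xb (xa (xs T2.l0 (xc T2.l0 T2.l0)) (xs T2.l0 (xc T2.l0 T2.l0))) (xa (xs T2.l15 (xc T2.l0 T2.l0)) (xs T2.l15 (xc T2.l0 T2.l0))))))))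
theorem qc2_8_0_r : chkTr (tg true true false RT.r2) b2_8 t2 rc2_8_0_r
  (upd hi Co.a (rc sI cl13 cl13 cl4 b2_8 (I.pos (nat_lit 0) (nat_lit 0)))) = true := by decide +kernel
theorem qc2_8_0_ : chkTr (tg true true false RT.r2) b2_8 t2 (Tr.N Co.a rc2_8_0_l rc2_8_0_r)
  (rc sI cl13 cl13 cl4 b2_8 (I.pos (nat_lit 0) (nat_lit 0))) = true := tr_split qc2_8_0_l qc2_8_0_r
theorem c2_8_0 : chkTag sI cl13 cl13 cl4 t2 b2_8 (tg true true false RT.r2) (I.pos (nat_lit 0) (nat_lit 0))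
  (Tr.N Co.a rc2_8_0_l rc2_8_0_r) = true := tag_mk (by decide +kernel) qc2_8_0_
theorem c2_8_1 : chkTag sI cl13 cl13 cl4 t0 b2_8 (tg true false false RT.r3) (I.pos (nat_lit 0) (nat_lit 0))
  (xk (xa T0.l9 T0.l9) (xa T0.l9 T0.l9)) = true := by decide +kernel
theorem c2_8_2 : chkTag sI cl13 cl13 cl4 t2 b2_8 (Tag.mk true true false RT.tl RT.r4) (I.pos (nat_lit 0) (nat_lit 134217730))
  (xR (xR T2.l4 T2.l4) (xR T2.l4 (xR T2.l10 (xR T2.l10 T2.l4)))) = true := by decide +kernel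
theorem c2_8_3 : chkTag sI cl13 cl13 cl4 t0 b2_8 (Tag.mk true false false RT.tl RT.r5) (I.pos (nat_lit 0) (nat_lit 110514882))
  (xR (xR T0.l12 T0.l10) (xR T0.l10 (xR T0.l10 T0.l10))) = true := by decide +kernel
theorem c2_8_4 : chkTag sI cl13 cl13 cl4 t0 b2_8 (tg false false false RT.r3) (I.pos (nat_lit 0) (nat_lit 0))
  (xk (xa T0.l15 T0.l15) (xa T0.l15 T0.l15)) = true := by decide +kernel
theorem c2_8_5 : chkTag sI cl13 cl13 cl4 t2 b2_8 (tg false true false RT.r4) (I.pos (nat_lit 0) (nat_lit 0))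
  T2.l11 = true := by decide +kernel
theorem c2_8_6 : chkTag sI cl13 cl13 cl4 t0 b2_8 (Tag.mk false false false RT.tl RT.r5) (I.mix (nat_lit 8088324) (nat_lit 110514882))
  (xR T0.l12 (xR T0.l12 (xR T0.l12 T0.l12))) = true := by decide +kernel
theorem c2_8_7 : chkTag sI cl13 cl13 cl4 t2 b2_8 (Tag.mk false true false RT.tl RT.r6) (I.mix (nat_lit 8088324) (nat_lit 89478486))
  (xR T2.l4 (xR T2.l13 T2.l2)) = true := by decide +kernel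
theorem bx2_8 : BoxOK sI cl13 cl13 cl4 t2 t0 b2_8 :=
  box_mk' [(tg true true false RT.r2), (tg true false false RT.r3), (Tag.mk true true false RT.tl RT.r4), (Tag.mk true false false RT.tl RT.r5), (tg false false false RT.r3), (tg false true false RT.r4), (Tag.mk false false false RT.tl RT.r5), (Tag.mk false true false RT.tl RT.r6)] rfl (allL_c (ex_mk c2_8_0) (allL_c (ex_mk c2_8_1) (allL_c (ex_mk c2_8_2) (allL_c (ex_mk c2_8_3) (allL_c (ex_mk c2_8_4) (allL_c (ex_mk c2_8_5) (allL_c (ex_mk c2_8_6) (allL_c (ex_mk c2_8_7) allL_n))))))))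
theorem bx2_9 : BoxOK sI cl13 cl13 cl4 t2 t0 b2_9 :=
  box_mk (TrL.c (I.pos (nat_lit 0) (nat_lit 0)) (xa T2.l0 T2.l0)
  (TrL.c (I.pos (nat_lit 0) (nat_lit 0)) (xk T0.l9 T0.l9)
  (TrL.c (I.pos (nat_lit 0) (nat_lit 134217730)) (xR (xR T2.l4 T2.l4) (xR T2.l4 T2.l10))
  (TrL.c (I.pos (nat_lit 0) (nat_lit 110514882)) (xR (xR T0.l12 T0.l10) (xR T0.l10 T0.l10))
  (TrL.c (I.pos (nat_lit 0) (nat_lit 0)) (xk T0.l15 T0.l15)
  (TrL.c (I.pos (nat_lit 0) (nat_lit 0)) T2.l11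
  (TrL.c (I.mix (nat_lit 8088324) (nat_lit 110514882)) (xR T0.l12 (xR T0.l12 T0.l12))
  (TrL.c (I.mix (nat_lit 8088324) (nat_lit 89478486)) (xR T2.l4 T2.l13)
  TrL.n)))))))) (by decide +kernel)
theorem bx2_10 : BoxOK sI cl13 cl13 cl4 t2 t0 b2_10 :=
  box_mk (TrL.c (I.pos (nat_lit 0) (nat_lit 0)) (xa (xa T2.l16 T2.l16) (xa T2.l16 (xa T2.l18 T2.l18)))
  (TrL.c (I.pos (nat_lit 0) (nat_lit 0)) (xa T0.l9 T0.l9)
  (TrL.c (I.pos (nat_lit 0) (nat_lit 134217730)) (xR T2.l4 (xR T2.l4 T2.l10))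
  (TrL.c (I.pos (nat_lit 0) (nat_lit 110514882)) (xR T0.l12 (xR T0.l10 T0.l10))
  (TrL.c (I.pos (nat_lit 0) (nat_lit 0)) (xa T0.l16 T0.l18)
  (TrL.c (I.pos (nat_lit 0) (nat_lit 0)) T2.l11
  (TrL.c (I.mix (nat_lit 8088324) (nat_lit 110514882)) (xR T0.l12 T0.l12)
  (TrL.c (I.mix (nat_lit 8088324) (nat_lit 89478486)) T2.l4
  TrL.n)))))))) (by decide +kernel)
theorem bx2_11 : BoxOK sI cl13 cl13 cl4 t2 t0 b2_11 :=
  box_mk (TrL.c (I.pos (nat_lit 0) (nat_lit 0)) (xb (xa (xb (xa T2.l12 T2.l12) T2.l19) (xb (xa T2.l19 T2.l0) T2.l12)) (xa (xb T2.l19 (xa T2.l19 T2.l19)) (xb (xa T2.l19 T2.l12) (xa T2.l19 T2.l19))))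
  (TrL.c (I.pos (nat_lit 0) (nat_lit 0)) (xb (xk T0.l9 T0.l9) (xk T0.l9 T0.l9))
  (TrL.c (I.pos (nat_lit 0) (nat_lit 134217730)) (xR (xR T2.l4 T2.l4) (xR T2.l4 T2.l10))
  (TrL.c (I.pos (nat_lit 0) (nat_lit 110514882)) (xR (xR T0.l12 T0.l10) (xR T0.l10 (xR T0.l10 T0.l10)))
  (TrL.c (I.pos (nat_lit 0) (nat_lit 0)) (xb (xk (xa T0.l13 T0.l13) (xa T0.l13 T0.l13)) (xk T0.l19 T0.l19))
  (TrL.c (I.pos (nat_lit 0) (nat_lit 0)) T2.l11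
  (TrL.c (I.mix (nat_lit 8088324) (nat_lit 110514882)) (xR T0.l12 (xR T0.l12 T0.l12))
  (TrL.c (I.mix (nat_lit 8088324) (nat_lit 89478486)) T2.l4
  TrL.n)))))))) (by decide +kernel)
theorem bx2_12 : BoxOK sI cl13 cl13 cl4 t2 t0 b2_12 :=
  box_mk (TrL.c (I.pos (nat_lit 0) (nat_lit 0)) (xa (xa T2.l0 T2.l0) (xb T2.l0 T2.l0))
  (TrL.c (I.pos (nat_lit 0) (nat_lit 0)) (xk T0.l9 T0.l9)
  (TrL.c (I.pos (nat_lit 0) (nat_lit 134217730)) (xR (xR T2.l4 T2.l4) (xR T2.l4 (xR T2.l10 T2.l10)))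
  (TrL.c (I.pos (nat_lit 0) (nat_lit 110514882)) (xR (xR T0.l12 T0.l10) (xR T0.l10 T0.l10))
  (TrL.c (I.pos (nat_lit 0) (nat_lit 0)) (xk T0.l11 T0.l11)
  (TrL.c (I.pos (nat_lit 0) (nat_lit 0)) T2.l11
  (TrL.c (I.mix (nat_lit 8088324) (nat_lit 110514882)) (xR T0.l12 T0.l12)
  (TrL.c (I.mix (nat_lit 8088324) (nat_lit 89478486)) (xR T2.l4 T2.l13)
  TrL.n)))))))) (by decide +kernel)
theorem bx2_13 : BoxOK sI cl13 cl13 cl4 t2 t0 b2_13 :=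
  box_mk (TrL.c (I.pos (nat_lit 0) (nat_lit 0)) (xa T2.l16 T2.l16)
  (TrL.c (I.pos (nat_lit 0) (nat_lit 0)) (xa T0.l9 T0.l9)
  (TrL.c (I.pos (nat_lit 0) (nat_lit 134217730)) (xR T2.l4 (xR T2.l4 T2.l10))
  (TrL.c (I.pos (nat_lit 0) (nat_lit 110514882)) (xR T0.l12 T0.l10)
  (TrL.c (I.pos (nat_lit 0) (nat_lit 0)) (xa T0.l14 T0.l16)
  (TrL.c (I.pos (nat_lit 0) (nat_lit 0)) T2.l11
  (TrL.c (I.mix (nat_lit 8088324) (nat_lit 110514882)) (xR T0.l12 (xR T0.l12 (xR T0.l12 T0.l12)))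
  (TrL.c (I.mix (nat_lit 8088324) (nat_lit 89478486)) T2.l4
  TrL.n)))))))) (by decide +kernel)
theorem bx2_14 : BoxOK sI cl13 cl13 cl4 t2 t0 b2_14 :=
  box_mk (TrL.c (I.pos (nat_lit 0) (nat_lit 0)) (xa (xb T2.l0 T2.l0) (xb (xa T2.l0 T2.l0) (xa T2.l0 T2.l0)))
  (TrL.c (I.pos (nat_lit 0) (nat_lit 0)) (xa (xk T0.l9 T0.l9) (xk (xb T0.l9 T0.l9) T0.l9))
  (TrL.c (I.pos (nat_lit 0) (nat_lit 134217730)) (xR (xR T2.l4 T2.l4) (xR T2.l4 (xR T2.l10 T2.l4)))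
  (TrL.c (I.pos (nat_lit 0) (nat_lit 110514882)) (xR (xR T0.l12 T0.l10) (xR (xR T0.l10 T0.l10) (xR T0.l10 T0.l10)))
  (TrL.c (I.pos (nat_lit 0) (nat_lit 0)) (xa (xk T0.l11 T0.l11) (xk (xb (xa T0.l11 T0.l11) T0.l11) (xb (xa T0.l11 T0.l11) T0.l11)))
  (TrL.c (I.pos (nat_lit 0) (nat_lit 0)) (xk T2.l11 T2.l11)
  (TrL.c (I.mix (nat_lit 8088324) (nat_lit 110514882)) (xR T0.l12 (xR T0.l12 (xR T0.l12 (xR T0.l12 T0.l12))))
  (TrL.c (I.mix (nat_lit 8088324) (nat_lit 89478486)) (xR T2.l4 T2.l2)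
  TrL.n)))))))) (by decide +kernel)
def rc2_15_0_l : Tr := (xb (xa (xs (xb T2.l0 T2.l0) (xb (xa (xc T2.l0 (xs T2.l0 T2.l0)) (xc T2.l0 (xs T2.l0 T2.l0))) (xa (xs T2.l0 T2.l0) (xs T2.l0 (xc T2.l0 T2.l0))))) (xs (xb (xa T2.l0 T2.l0) (xs T2.l0 T2.l0)) (xb (xa (xc T2.l0 (xs T2.l0 T2.l0)) (xs T2.l0 (xc T2.l0 T2.l0))) (xa (xs T2.l0 (xc T2.l0 T2.l0)) (xs T2.l0 (xc T2.l0 T2.l0)))))) (xa (xs (xb (xs T2.l0 T2.l0) (xs T2.l0 (xa T2.l0 T2.l0))) (xb (xs T2.l0 (xa T2.l0 T2.l0)) (xs (xa T2.l0 T2.l0) (xa (xc T2.l0 T2.l0) T2.l0)))) (xs (xb T2.l0 (xs T2.l0 T2.l0)) (xb (xk (xs T2.l0 T2.l0) (xs T2.l0 (xa T2.l0 T2.l0))) (xk (xs T2.l0 T2.l0) (xs T2.l0 (xa T2.l0 T2.l0)))))))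
theorem qc2_15_0_l : chkTr (tg true true false RT.r2) b2_15 t2 rc2_15_0_l
  (upd lo Co.a (rc sI cl13 cl13 cl4 b2_15 (I.pos (nat_lit 0) (nat_lit 0)))) = true := by decide +kernel
def rc2_15_0_r : Tr := (xb (xa (xs (xb (xs T2.l0 T2.l0) (xs T2.l0 T2.l0)) (xb (xa (xs T2.l0 (xc T2.l0 (xk T2.l0 T2.l0))) (xs T2.l0 (xc T2.l0 (xk T2.l0 T2.l0)))) (xa (xs T2.l0 (xc T2.l0 T2.l0)) (xs T2.l0 (xc T2.l0 (xk T2.l0 T2.l0)))))) (xs (xb (xs T2.l0 (xa T2.l0 T2.l0)) (xs T2.l0 T2.l0)) (xk (xb (xa (xs T2.l0 T2.l0) (xs T2.l0 (xc T2.l0 T2.l0))) (xs T2.l0 (xa T2.l0 T2.l0))) (xb (xa (xs T2.l0 (xc T2.l0 T2.l0)) (xs T2.l0 (xc T2.l0 T2.l0))) (xs (xa T2.l0 T2.l0) (xa (xc T2.l0 T2.l0) (xc T2.l0 T2.l0))))))) (xa (xs (xk (xb T2.l0 T2.l0) (xb T2.l0 T2.l0)) (xb (xk (xs T2.l0 (xa T2.l0 T2.l0)) (xs T2.l0 (xa T2.l0 T2.l0))) (xk (xs T2.l0 (xa T2.l0 T2.l0)) (xs T2.l0 (xa T2.l0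 T2.l0))))) (xs (xk (xb T2.l0 T2.l0) (xb (xs T2.l0 T2.l0) (xs T2.l0 T2.l0))) (xb (xk (xs T2.l0 (xa T2.l0 T2.l0)) (xs (xa T2.l0 T2.l0) (xa (xc T2.l0 T2.l0) (xc T2.l0 T2.l0)))) (xk (xs T2.l0 (xa T2.l0 T2.l0)) (xs (xa T2.l0 T2.l0) (xa T2.l0 (xc T2.l0 T2.l0))))))))
theorem qc2_15_0_r : chkTr (tg true true false RT.r2) b2_15 t2 rc2_15_0_r
  (upd hi Co.a (rc sI cl13 cl13 cl4 b2_15 (I.pos (nat_lit 0) (nat_lit 0)))) = true := by decide +kernel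
theorem qc2_15_0_ : chkTr (tg true true false RT.r2) b2_15 t2 (Tr.N Co.a rc2_15_0_l rc2_15_0_r)
  (rc sI cl13 cl13 cl4 b2_15 (I.pos (nat_lit 0) (nat_lit 0))) = true := tr_split qc2_15_0_l qc2_15_0_r
theorem c2_15_0 : chkTag sI cl13 cl13 cl4 t2 b2_15 (tg true true false RT.r2) (I.pos (nat_lit 0) (nat_lit 0))
  (Tr.N Co.a rc2_15_0_l rc2_15_0_r) = true := tag_mk (by decide +kernel) qc2_15_0_
theorem c2_15_1 : chkTag sI cl13 cl13 cl4 t0 b2_15 (tg true false false RT.r3) (I.pos (nat_lit 0) (nat_lit 0))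
  (xk (xa T0.l9 T0.l9) (xa T0.l9 T0.l9)) = true := by decide +kernel
theorem c2_15_2 : chkTag sI cl13 cl13 cl4 t2 b2_15 (Tag.mk true true false RT.tl RT.r4) (I.pos (nat_lit 0) (nat_lit 134217730))
  (xR (xR T2.l4 T2.l4) (xR T2.l4 (xR T2.l10 (xR T2.l10 T2.l10)))) = true := by decide +kernel
theorem c2_15_3 : chkTag sI cl13 cl13 cl4 t0 b2_15 (Tag.mk true false false RT.tl RT.r5) (I.pos (nat_lit 0) (nat_lit 110514882))
  (xR (xR T0.l12 T0.l10) (xR T0.l10 (xR T0.l10 T0.l10))) = true := by decide +kernel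
theorem c2_15_4 : chkTag sI cl13 cl13 cl4 t0 b2_15 (tg false false false RT.r3) (I.pos (nat_lit 0) (nat_lit 0))
  (xk (xa T0.l11 (xb T0.l11 (xb T0.l11 (xk T0.l11 T0.l11)))) (xa (xb T0.l15 T0.l15) (xb T0.l11 (xb T0.l11 (xs T0.l11 (xa T0.l15 (xk T0.l11 T0.l11))))))) = true := by decide +kernel
theorem c2_15_5 : chkTag sI cl13 cl13 cl4 t2 b2_15 (tg false true false RT.r4) (I.pos (nat_lit 0) (nat_lit 0))
  T2.l11 = true := by decide +kernel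
theorem c2_15_6 : chkTag sI cl13 cl13 cl4 t0 b2_15 (Tag.mk false false false RT.tl RT.r5) (I.mix (nat_lit 8088324) (nat_lit 110514882))
  (xR T0.l12 (xR T0.l12 T0.l12)) = true := by decide +kernel
theorem c2_15_7 : chkTag sI cl13 cl13 cl4 t2 b2_15 (Tag.mk false true false RT.tl RT.r6) (I.mix (nat_lit 8088324) (nat_lit 89478486))
  (xR T2.l4 T2.l2) = true := by decide +kernel
theorem bx2_15 : BoxOK sI cl13 cl13 cl4 t2 t0 b2_15 :=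
  box_mk' [(tg true true false RT.r2), (tg true false false RT.r3), (Tag.mk true true false RT.tl RT.r4), (Tag.mk true false false RT.tl RT.r5), (tg false false false RT.r3), (tg false true false RT.r4), (Tag.mk false false false RT.tl RT.r5), (Tag.mk false true false RT.tl RT.r6)] rfl (allL_c (ex_mk c2_15_0) (allL_c (ex_mk c2_15_1) (allL_c (ex_mk c2_15_2) (allL_c (ex_mk c2_15_3) (allL_c (ex_mk c2_15_4) (allL_c (ex_mk c2_15_5) (allL_c (ex_mk c2_15_6) (allL_c (ex_mk c2_15_7) allL_n))))))))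
theorem c2_16_0 : chkTag sI cl13 cl13 cl4 t2 b2_16 (tg true true false RT.r2) (I.pos (nat_lit 0) (nat_lit 0))
  (xa (xb (xa (xb (xa T2.l0 T2.l0) (xa (xs T2.l0 T2.l0) (xs T2.l0 T2.l0))) (xb (xa T2.l0 T2.l0) (xa (xs T2.l0 T2.l0) (xs T2.l0 T2.l0)))) (xa (xs (xa (xb T2.l0 T2.l0) (xb T2.l0 T2.l0)) (xb (xa T2.l0 T2.l0) (xa (xc T2.l0 T2.l0) (xc T2.l0 T2.l0)))) (xs (xa T2.l0 T2.l0) (xa (xb T2.l0 (xc T2.l0 T2.l0)) (xb T2.l0 (xc T2.l0 T2.l0)))))) (xb (xa (xs (xa T2.l0 T2.l0) (xb T2.l0 (xa T2.l0 T2.l0))) (xs T2.l0 (xa T2.l0 T2.l0))) (xa (xs (xa T2.l0 T2.l0) (xa (xb T2.l0 (xc T2.l0 T2.l0)) (xb T2.l0 T2.l3))) (xs (xa T2.l0 T2.l0) (xa (xb T2.l0 T2.l0) (xb T2.l0 T2.l0)))))) = true := by decide +kernel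
theorem c2_16_1 : chkTag sI cl13 cl13 cl4 t0 b2_16 (tg true false false RT.r3) (I.pos (nat_lit 0) (nat_lit 0))
  (xa (xk (xb T0.l9 T0.l9) (xb T0.l9 T0.l9)) (xk (xb (xa T0.l9 T0.l9) (xa T0.l9 T0.l9)) (xb T0.l9 (xa T0.l9 T0.l9)))) = true := by decide +kernel
theorem c2_16_2 : chkTag sI cl13 cl13 cl4 t2 b2_16 (Tag.mk true true false RT.tl RT.r4) (I.pos (nat_lit 0) (nat_lit 134217730))
  (xR (xR T2.l4 T2.l4) (xR T2.l4 (xR T2.l10 T2.l4))) = true := by decide +kernel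
theorem c2_16_3 : chkTag sI cl13 cl13 cl4 t0 b2_16 (Tag.mk true false false RT.tl RT.r5) (I.pos (nat_lit 0) (nat_lit 110514882))
  (xR (xR T0.l12 T0.l10) (xR (xR T0.l10 T0.l10) (xR T0.l10 (xk (xR T0.l10 T0.l10) T0.l10)))) = true := by decide +kernel
theorem c2_16_4 : chkTag sI cl13 cl13 cl4 t0 b2_16 (tg false false false RT.r3) (I.pos (nat_lit 0) (nat_lit 0))
  (xa (xk (xb (xa T0.l11 T0.l11) T0.l11) (xb (xa T0.l11 T0.l11) T0.l11)) (xk (xb (xa T0.l11 (xk T0.l11 T0.l11)) (xa T0.l11 (xk T0.l11 T0.l11))) (xb (xa T0.l11 (xk T0.l11 T0.l11)) (xa T0.l11 (xk T0.l11 T0.l11))))) = true := by decide +kernel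
theorem c2_16_5 : chkTag sI cl13 cl13 cl4 t2 b2_16 (tg false true false RT.r4) (I.pos (nat_lit 0) (nat_lit 0))
  (xk (xa T2.l11 T2.l11) (xa T2.l11 T2.l11)) = true := by decide +kernel
theorem c2_16_6 : chkTag sI cl13 cl13 cl4 t0 b2_16 (Tag.mk false false false RT.tl RT.r5) (I.mix (nat_lit 8088324) (nat_lit 110514882))
  (xR T0.l12 (xR T0.l12 (xR T0.l12 (xk (xR T0.l12 T0.l12) T0.l12)))) = true := by decide +kernel
theorem c2_16_7 : chkTag sI cl13 cl13 cl4 t2 b2_16 (Tag.mk false true false RT.tl RT.r6) (I.mix (nat_lit 8088324) (nat_lit 89478486))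
  (xR T2.l4 (xR T2.l13 (xR T2.l13 T2.l13))) = true := by decide +kernel
theorem bx2_16 : BoxOK sI cl13 cl13 cl4 t2 t0 b2_16 :=
  box_mk' [(tg true true false RT.r2), (tg true false false RT.r3), (Tag.mk true true false RT.tl RT.r4), (Tag.mk true false false RT.tl RT.r5), (tg false false false RT.r3), (tg false true false RT.r4), (Tag.mk false false false RT.tl RT.r5), (Tag.mk false true false RT.tl RT.r6)] rfl (allL_c (ex_mk c2_16_0) (allL_c (ex_mk c2_16_1) (allL_c (ex_mk c2_16_2) (allL_c (ex_mk c2_16_3) (allL_c (ex_mk c2_16_4) (allL_c (ex_mk c2_16_5) (allL_c (ex_mk c2_16_6) (allL_c (ex_mk c2_16_7) allL_n))))))))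
theorem bx2_17 : BoxOK sI cl13 cl13 cl4 t2 t0 b2_17 :=
  box_mk (TrL.c (I.pos (nat_lit 0) (nat_lit 0)) T2.l0
  (TrL.c (I.pos (nat_lit 0) (nat_lit 0)) (xk T0.l9 T0.l9)
  (TrL.c (I.pos (nat_lit 0) (nat_lit 134217730)) (xR (xR T2.l4 T2.l4) (xR T2.l4 T2.l10))
  (TrL.c (I.pos (nat_lit 0) (nat_lit 110514882)) (xR (xR T0.l12 T0.l10) (xR T0.l10 T0.l10))
  (TrL.c (I.pos (nat_lit 0) (nat_lit 0)) T0.l11
  (TrL.c (I.pos (nat_lit 0) (nat_lit 0)) T2.l11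
  (TrL.c (I.mix (nat_lit 8088324) (nat_lit 110514882)) (xR T0.l12 T0.l12)
  (TrL.c (I.mix (nat_lit 8088324) (nat_lit 89478486)) (xR T2.l4 T2.l13)
  TrL.n)))))))) (by decide +kernel)
theorem bx2_18 : BoxOK sI cl13 cl13 cl4 t2 t0 b2_18 :=
  box_mk (TrL.c (I.pos (nat_lit 0) (nat_lit 0)) T2.l0
  (TrL.c (I.pos (nat_lit 0) (nat_lit 0)) (xk T0.l9 T0.l9)
  (TrL.c (I.pos (nat_lit 0) (nat_lit 134217730)) (xR (xR T2.l4 T2.l4) (xR T2.l4 (xR T2.l10 T2.l10)))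
  (TrL.c (I.pos (nat_lit 0) (nat_lit 110514882)) (xR (xR T0.l12 T0.l10) (xR T0.l10 (xR T0.l10 T0.l10)))
  (TrL.c (I.pos (nat_lit 0) (nat_lit 0)) T0.l11
  (TrL.c (I.pos (nat_lit 0) (nat_lit 0)) T2.l11
  (TrL.c (I.mix (nat_lit 8088324) (nat_lit 110514882)) (xR T0.l12 T0.l12)
  (TrL.c (I.mix (nat_lit 8088324) (nat_lit 89478486)) (xR T2.l4 T2.l13)
  TrL.n)))))))) (by decide +kernel)
theorem bx2_19 : BoxOK sI cl13 cl13 cl4 t2 t0 b2_19 :=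
  box_mk (TrL.c (I.pos (nat_lit 0) (nat_lit 0)) (xa (xb T2.l0 (xa T2.l0 T2.l0)) (xb T2.l0 (xs T2.l0 T2.l0)))
  (TrL.c (I.pos (nat_lit 0) (nat_lit 0)) (xk T0.l9 T0.l9)
  (TrL.c (I.pos (nat_lit 0) (nat_lit 134217730)) (xR (xR T2.l4 T2.l4) (xR T2.l4 (xR T2.l10 T2.l10)))
  (TrL.c (I.pos (nat_lit 0) (nat_lit 110514882)) (xR (xR T0.l12 T0.l10) (xR T0.l10 (xR T0.l10 T0.l10)))
  (TrL.c (I.pos (nat_lit 0) (nat_lit 0)) (xk T0.l11 T0.l11)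
  (TrL.c (I.pos (nat_lit 0) (nat_lit 0)) T2.l11
  (TrL.c (I.mix (nat_lit 8088324) (nat_lit 110514882)) (xR T0.l12 T0.l12)
  (TrL.c (I.mix (nat_lit 8088324) (nat_lit 89478486)) (xR T2.l4 T2.l13)
  TrL.n)))))))) (by decide +kernel)
theorem bx2_20 : BoxOK sI cl13 cl13 cl4 t2 t0 b2_20 :=
  box_mk (TrL.c (I.pos (nat_lit 0) (nat_lit 0)) (xa T2.l0 T2.l0)
  (TrL.c (I.pos (nat_lit 0) (nat_lit 0)) (xk T0.l9 T0.l9)
  (TrL.c (I.pos (nat_lit 0) (nat_lit 134217730)) (xR (xR T2.l4 T2.l4) (xR T2.l4 T2.l10))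
  (TrL.c (I.pos (nat_lit 0) (nat_lit 110514882)) (xR (xR T0.l12 T0.l10) (xR T0.l10 (xR T0.l10 T0.l10)))
  (TrL.c (I.pos (nat_lit 0) (nat_lit 0)) (xk (xk T0.l11 T0.l11) (xk T0.l11 T0.l11))
  (TrL.c (I.pos (nat_lit 0) (nat_lit 0)) T2.l11
  (TrL.c (I.mix (nat_lit 8088324) (nat_lit 110514882)) (xR T0.l12 (xR T0.l12 (xR T0.l12 T0.l12)))
  (TrL.c (I.mix (nat_lit 8088324) (nat_lit 89478486)) (xR T2.l4 T2.l2)
  TrL.n)))))))) (by decide +kernel)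
theorem sv2 : StarV sI cl13 cl13 cl4 t2 t0 t2 :=
  (bt_n (bt_n (bt_n (bt_n (bt_b bx2_0) (bt_b bx2_1)) (bt_n (bt_b bx2_2) (bt_n (bt_b bx2_3) (bt_b bx2_4)))) (bt_n (bt_n (bt_b bx2_5) (bt_b bx2_6)) (bt_n (bt_b bx2_7) (bt_n (bt_b bx2_8) (bt_b bx2_9))))) (bt_n (bt_n (bt_n (bt_b bx2_10) (bt_b bx2_11)) (bt_n (bt_b bx2_12) (bt_n (bt_b bx2_13) (bt_b bx2_14)))) (bt_n (bt_n (bt_b bx2_15) (bt_n (bt_b bx2_16) (bt_b bx2_17))) (bt_n (bt_b bx2_18) (bt_n (bt_b bx2_19) (bt_b bx2_20))))))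
def S2 : StarD := StarD.mk cl13 cl13 cl4 2 0 t2
def G : List StarD := [S0, S1, S2]
theorem so0 : StarOK sI G S0 :=
  star_mk (by decide) (by decide) rfl rfl rfl rfl rfl rfl (rfl : _ = t1) (rfl : _ = t1)
  (st_mk (Pth.l (Pth.l (Pth.l (Pth.l Pth.z)))) (nat_lit 98644105) (nat_lit 118272159) (by decide +kernel))
  (st_mk (Pth.l (Pth.l (Pth.l (Pth.l Pth.z)))) (nat_lit 136054848) (nat_lit 156506619) (by decide +kernel))
  (st_mk (Pth.l (Pth.l (Pth.l (Pth.l Pth.z)))) (nat_lit 178444424) (nat_lit 203834058) (by decide +kernel)) sv0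
theorem so1 : StarOK sI G S1 :=
  star_mk (by decide) (by decide) rfl rfl rfl rfl rfl rfl (rfl : _ = t0) (rfl : _ = t2)
  (st_mk (Pth.l (Pth.l (Pth.l (Pth.l Pth.z)))) (nat_lit 364798899) (nat_lit 367986685) (by decide +kernel))
  (st_mk (Pth.l (Pth.l (Pth.l (Pth.l Pth.z)))) (nat_lit 399695508) (nat_lit 403417216) (by decide +kernel))
  (st_mk (Pth.l (Pth.l (Pth.l (Pth.l Pth.z)))) (nat_lit 439960827) (nat_lit 444360662) (by decide +kernel)) sv1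
theorem so2 : StarOK sI G S2 :=
  star_mk (by decide) (by decide) rfl rfl rfl rfl rfl rfl (rfl : _ = t2) (rfl : _ = t0)
  (st_mk (Pth.l (Pth.l (Pth.l (Pth.l Pth.z)))) (nat_lit 95831458) (nat_lit 114341814) (by decide +kernel))
  (st_mk (Pth.l (Pth.l (Pth.l (Pth.l Pth.z)))) (nat_lit 130728068) (nat_lit 149582203) (by decide +kernel))
  (st_mk (Pth.l (Pth.l (Pth.l (Pth.l Pth.z)))) (nat_lit 170993386) (nat_lit 190360610) (by decide +kernel)) sv2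
theorem ok : GroupOK (nat_lit 209321984) (nat_lit 268435456) G := grp_mk (allS_c so0 (allS_c so1 (allS_c so2 allS_n)))
theorem cov : GCov G cl4 cl13 cl13 := cov_mk
  ⟨0, by decide, rfl, rfl, rfl⟩ ⟨0, by decide, rfl, rfl, rfl⟩ ⟨1, by decide, rfl, rfl, rfl⟩ ⟨2, by decide, rfl, rfl, rfl⟩ ⟨1, by decide, rfl, rfl, rfl⟩ ⟨2, by decide, rfl, rfl, rfl⟩
end Q166_3

namespace Q222_0
def sI : I := I.pos (nat_lit 0) (nat_lit 91291648)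
def b0_0 : Bx := Bx.mk (St.mk (I.pos (nat_lit 149979136) (nat_lit 270712832)) (I.mix (nat_lit 12959744) (nat_lit 83673088)) (I.mix (nat_lit 56295424) (nat_lit 115589120)) (I.pos (nat_lit 232947712) (nat_lit 427966464)) (I.mix (nat_lit 151289856) (nat_lit 110559232)) (I.mix (nat_lit 144015360) (nat_lit 101154816)) (I.mix (nat_lit 212762624) (nat_lit 135118848)))
  false (nat_lit 0)
def b0_1 : Bx := Bx.mk (St.mk (I.pos (nat_lit 73826304) (nat_lit 145915904)) (I.neg (nat_lit 9469952) (nat_lit 80740352)) (I.neg (nat_lit 4079616) (nat_lit 69107712)) (I.pos (nat_lit 167641088) (nat_lit 225460224)) (I.mix (nat_lit 99516416) (nat_lit 61603840)) (I.mix (nat_lit 60588032) (nat_lit 85639168)) (I.mix (nat_lit 56016896) (nat_lit 77185024)))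
  false (nat_lit 0)
def b0_2 : Bx := Bx.mk (St.mk (I.pos (nat_lit 19660800) (nat_lit 68059136)) (I.mix (nat_lit 5160960) (nat_lit 53592064)) (I.mix (nat_lit 19562496) (nat_lit 7618560)) (I.pos (nat_lit 142573568) (nat_lit 162021376)) (I.mix (nat_lit 40108032) (nat_lit 49364992)) (I.mix (nat_lit 56295424) (nat_lit 42532864)) (I.mix (nat_lit 30851072) (nat_lit 21037056)))
  false (nat_lit 0)
def b0_3 : Bx := Bx.mk (St.mk (I.mix (nat_lit 37437440) (nat_lit 4702208)) (I.mix (nat_lit 47185920) (nat_lit 4849664)) (I.mix (nat_lit 1687552) (nat_lit 2539520)) (I.pos (nat_lit 142966784) (nat_lit 151535616)) (I.mix (nat_lit 28721152) (nat_lit 42303488)) (I.mix (nat_lit 35536896) (nat_lit 49954816)) (I.mix (nat_lit 6176768) (nat_lit 5881856)))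
  true (nat_lit 0)
def b0_4 : Bx := Bx.mk (St.mk (I.pos (nat_lit 129122304) (nat_lit 200966144)) (I.mix (nat_lit 37011456) (nat_lit 80166912)) (I.mix (nat_lit 27918336) (nat_lit 107397120)) (I.pos (nat_lit 209190912) (nat_lit 299171840)) (I.mix (nat_lit 168280064) (nat_lit 62554112)) (I.mix (nat_lit 199507968) (nat_lit 120242176)) (I.mix (nat_lit 204062720) (nat_lit 130007040)))
  false (nat_lit 0)
def b0_5 : Bx := Bx.mk (St.mk (I.pos (nat_lit 55836672) (nat_lit 107544576)) (I.mix (nat_lit 74842112) (nat_lit 6160384)) (I.neg (nat_lit 12894208) (nat_lit 58982400)) (I.pos (nat_lit 154255360) (nat_lit 189284352)) (I.mix (nat_lit 95944704) (nat_lit 35766272)) (I.mix (nat_lit 63045632) (nat_lit 98238464)) (I.mix (nat_lit 45121536) (nat_lit 59342848)))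
  false (nat_lit 0)
def b0_6 : Bx := Bx.mk (St.mk (I.mix (nat_lit 4702208) (nat_lit 37453824)) (I.mix (nat_lit 4849664) (nat_lit 47185920)) (I.mix (nat_lit 1687552) (nat_lit 2539520)) (I.pos (nat_lit 142966784) (nat_lit 151535616)) (I.mix (nat_lit 42303488) (nat_lit 28721152)) (I.mix (nat_lit 49954816) (nat_lit 35520512)) (I.mix (nat_lit 6193152) (nat_lit 5881856)))
  false (nat_lit 0)
def b0_7 : Bx := Bx.mk (St.mk (I.neg (nat_lit 19644416) (nat_lit 68059136)) (I.mix (nat_lit 53592064) (nat_lit 5160960)) (I.mix (nat_lit 19562496) (nat_lit 7618560)) (I.pos (nat_lit 142573568) (nat_lit 162037760)) (I.mix (nat_lit 49364992) (nat_lit 40124416)) (I.mix (nat_lit 42532864) (nat_lit 56295424)) (I.mix (nat_lit 30851072) (nat_lit 21037056)))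
  true (nat_lit 0)
def b0_8 : Bx := Bx.mk (St.mk (I.pos (nat_lit 127418368) (nat_lit 143163392)) (I.neg (nat_lit 18677760) (nat_lit 41025536)) (I.neg (nat_lit 9469952) (nat_lit 31539200)) (I.pos (nat_lit 208715776) (nat_lit 223363072)) (I.mix (nat_lit 19562496) (nat_lit 16318464)) (I.mix (nat_lit 10682368) (nat_lit 10354688)) (I.mix (nat_lit 10616832) (nat_lit 9617408)))
  false (nat_lit 0)
def b0_9 : Bx := Bx.mk (St.mk (I.pos (nat_lit 56131584) (nat_lit 66109440)) (I.mix (nat_lit 1867776) (nat_lit 13697024)) (I.neg (nat_lit 10420224) (nat_lit 18284544)) (I.pos (nat_lit 155156480) (nat_lit 161316864)) (I.mix (nat_lit 6619136) (nat_lit 15122432)) (I.mix (nat_lit 7962624) (nat_lit 5439488)) (I.mix (nat_lit 5226496) (nat_lit 2703360)))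
  false (nat_lit 0)
def b0_10 : Bx := Bx.mk (St.mk (I.mix (nat_lit 5177344) (nat_lit 2981888)) (I.mix (nat_lit 11337728) (nat_lit 1163264)) (I.mix (nat_lit 606208) (nat_lit 589824)) (I.pos (nat_lit 143081472) (nat_lit 145162240)) (I.mix (nat_lit 4063232) (nat_lit 12468224)) (I.mix (nat_lit 4210688) (nat_lit 5521408)) (I.mix (nat_lit 638976) (nat_lit 606208)))
  true (nat_lit 0)
def t0 : BTr := (BTr.n (BTr.n (BTr.n (BTr.b b0_0) (BTr.b b0_1)) (BTr.n (BTr.b b0_2) (BTr.n (BTr.b b0_3) (BTr.b b0_4)))) (BTr.n (BTr.n (BTr.b b0_5) (BTr.n (BTr.b b0_6) (BTr.b b0_7))) (BTr.n (BTr.b b0_8) (BTr.n (BTr.b b0_9) (BTr.b b0_10)))))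
namespace T0
def l0 : Tr := Tr.L (Pth.l (Pth.l (Pth.l Pth.z)))
def l1 : Tr := Tr.L (Pth.l (Pth.l (Pth.r Pth.z)))
def l2 : Tr := Tr.L (Pth.l (Pth.r (Pth.l Pth.z)))
def l3 : Tr := Tr.L (Pth.l (Pth.r (Pth.r (Pth.l Pth.z))))
def l4 : Tr := Tr.L (Pth.l (Pth.r (Pth.r (Pth.r Pth.z))))
def l5 : Tr := Tr.L (Pth.r (Pth.l (Pth.l Pth.z)))
def l6 : Tr := Tr.L (Pth.r (Pth.l (Pth.r (Pth.l Pth.z))))
def l7 : Tr := Tr.L (Pth.r (Pth.l (Pth.r (Pth.r Pth.z))))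
def l8 : Tr := Tr.L (Pth.r (Pth.r (Pth.l Pth.z)))
def l9 : Tr := Tr.L (Pth.r (Pth.r (Pth.r (Pth.l Pth.z))))
def l10 : Tr := Tr.L (Pth.r (Pth.r (Pth.r (Pth.r Pth.z))))
end T0
theorem bx0_0 : BoxOK sI cl5 cl5 cl5 t0 t0 b0_0 :=
  box_mk (TrL.c (I.pos (nat_lit 0) (nat_lit 0)) (xa (xb T0.l0 T0.l0) T0.l0)
  (TrL.c (I.pos (nat_lit 0) (nat_lit 0)) T0.l1
  (TrL.c (I.pos (nat_lit 0) (nat_lit 0)) T0.l2
  (TrL.c (I.pos (nat_lit 0) (nat_lit 0)) T0.l3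
  (TrL.c (I.pos (nat_lit 0) (nat_lit 0)) (xa T0.l4 T0.l4)
  (TrL.c (I.pos (nat_lit 0) (nat_lit 0)) T0.l5
  (TrL.c (I.pos (nat_lit 0) (nat_lit 0)) T0.l6
  (TrL.c (I.pos (nat_lit 0) (nat_lit 0)) T0.l7
  TrL.n)))))))) (by decide +kernel)
theorem bx0_1 : BoxOK sI cl5 cl5 cl5 t0 t0 b0_1 :=
  box_mk (TrL.c (I.pos (nat_lit 0) (nat_lit 0)) T0.l0
  (TrL.c (I.pos (nat_lit 0) (nat_lit 0)) T0.l1
  (TrL.c (I.pos (nat_lit 0) (nat_lit 0)) T0.l2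
  (TrL.c (I.pos (nat_lit 0) (nat_lit 0)) T0.l3
  (TrL.c (I.pos (nat_lit 0) (nat_lit 0)) T0.l4
  (TrL.c (I.pos (nat_lit 0) (nat_lit 0)) T0.l5
  (TrL.c (I.pos (nat_lit 0) (nat_lit 0)) T0.l6
  (TrL.c (I.pos (nat_lit 0) (nat_lit 0)) T0.l7
  TrL.n)))))))) (by decide +kernel)
theorem bx0_2 : BoxOK sI cl5 cl5 cl5 t0 t0 b0_2 :=
  box_mk (TrL.c (I.pos (nat_lit 0) (nat_lit 0)) T0.l0
  (TrL.c (I.pos (nat_lit 0) (nat_lit 0)) T0.l1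
  (TrL.c (I.pos (nat_lit 0) (nat_lit 0)) T0.l2
  (TrL.c (I.pos (nat_lit 0) (nat_lit 0)) T0.l3
  (TrL.c (I.pos (nat_lit 0) (nat_lit 0)) T0.l4
  (TrL.c (I.pos (nat_lit 0) (nat_lit 0)) T0.l5
  (TrL.c (I.pos (nat_lit 0) (nat_lit 0)) T0.l6
  (TrL.c (I.pos (nat_lit 0) (nat_lit 0)) T0.l7
  TrL.n)))))))) (by decide +kernel)
theorem bx0_3 : BoxOK sI cl5 cl5 cl5 t0 t0 b0_3 :=
  box_mk (TrL.c (I.pos (nat_lit 0) (nat_lit 0)) T0.l1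
  (TrL.c (I.pos (nat_lit 0) (nat_lit 0)) T0.l2
  (TrL.c (I.pos (nat_lit 0) (nat_lit 0)) T0.l3
  TrL.n))) (by decide +kernel)
theorem bx0_4 : BoxOK sI cl5 cl5 cl5 t0 t0 b0_4 :=
  box_mk (TrL.c (I.pos (nat_lit 0) (nat_lit 0)) (xb T0.l0 T0.l0)
  (TrL.c (I.pos (nat_lit 0) (nat_lit 0)) T0.l1
  (TrL.c (I.pos (nat_lit 0) (nat_lit 0)) T0.l2
  (TrL.c (I.pos (nat_lit 0) (nat_lit 0)) T0.l3
  (TrL.c (I.pos (nat_lit 0) (nat_lit 0)) T0.l4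
  (TrL.c (I.pos (nat_lit 0) (nat_lit 0)) T0.l5
  (TrL.c (I.pos (nat_lit 0) (nat_lit 0)) T0.l6
  (TrL.c (I.pos (nat_lit 0) (nat_lit 0)) T0.l7
  TrL.n)))))))) (by decide +kernel)
theorem bx0_5 : BoxOK sI cl5 cl5 cl5 t0 t0 b0_5 :=
  box_mk (TrL.c (I.pos (nat_lit 0) (nat_lit 0)) T0.l0
  (TrL.c (I.pos (nat_lit 0) (nat_lit 0)) T0.l1
  (TrL.c (I.pos (nat_lit 0) (nat_lit 0)) T0.l2
  (TrL.c (I.pos (nat_lit 0) (nat_lit 0)) T0.l3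
  (TrL.c (I.pos (nat_lit 0) (nat_lit 0)) T0.l4
  (TrL.c (I.pos (nat_lit 0) (nat_lit 0)) T0.l5
  (TrL.c (I.pos (nat_lit 0) (nat_lit 0)) T0.l6
  (TrL.c (I.pos (nat_lit 0) (nat_lit 0)) T0.l7
  TrL.n)))))))) (by decide +kernel)
theorem bx0_6 : BoxOK sI cl5 cl5 cl5 t0 t0 b0_6 :=
  box_mk (TrL.c (I.pos (nat_lit 0) (nat_lit 0)) T0.l0
  (TrL.c (I.pos (nat_lit 0) (nat_lit 0)) T0.l1
  (TrL.c (I.pos (nat_lit 0) (nat_lit 0)) T0.l2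
  (TrL.c (I.pos (nat_lit 0) (nat_lit 0)) T0.l3
  (TrL.c (I.pos (nat_lit 0) (nat_lit 0)) T0.l4
  (TrL.c (I.pos (nat_lit 0) (nat_lit 0)) T0.l5
  (TrL.c (I.pos (nat_lit 0) (nat_lit 0)) T0.l6
  (TrL.c (I.pos (nat_lit 0) (nat_lit 0)) T0.l7
  TrL.n)))))))) (by decide +kernel)
theorem bx0_7 : BoxOK sI cl5 cl5 cl5 t0 t0 b0_7 :=
  box_mk (TrL.c (I.pos (nat_lit 0) (nat_lit 0)) T0.l1
  (TrL.c (I.pos (nat_lit 0) (nat_lit 0)) T0.l2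
  (TrL.c (I.pos (nat_lit 0) (nat_lit 0)) T0.l3
  TrL.n))) (by decide +kernel)
theorem bx0_8 : BoxOK sI cl5 cl5 cl5 t0 t0 b0_8 :=
  box_mk (TrL.c (I.pos (nat_lit 0) (nat_lit 0)) T0.l0
  (TrL.c (I.pos (nat_lit 0) (nat_lit 0)) T0.l1
  (TrL.c (I.pos (nat_lit 0) (nat_lit 0)) T0.l2
  (TrL.c (I.pos (nat_lit 0) (nat_lit 0)) T0.l3
  (TrL.c (I.pos (nat_lit 0) (nat_lit 0)) T0.l4
  (TrL.c (I.pos (nat_lit 0) (nat_lit 0)) T0.l5
  (TrL.c (I.pos (nat_lit 0) (nat_lit 0)) T0.l6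
  (TrL.c (I.pos (nat_lit 0) (nat_lit 0)) T0.l7
  TrL.n)))))))) (by decide +kernel)
theorem bx0_9 : BoxOK sI cl5 cl5 cl5 t0 t0 b0_9 :=
  box_mk (TrL.c (I.pos (nat_lit 0) (nat_lit 0)) T0.l0
  (TrL.c (I.pos (nat_lit 0) (nat_lit 0)) T0.l1
  (TrL.c (I.pos (nat_lit 0) (nat_lit 0)) T0.l2
  (TrL.c (I.pos (nat_lit 0) (nat_lit 0)) T0.l3
  (TrL.c (I.pos (nat_lit 0) (nat_lit 0)) T0.l4
  (TrL.c (I.pos (nat_lit 0) (nat_lit 0)) T0.l5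
  (TrL.c (I.pos (nat_lit 0) (nat_lit 0)) T0.l6
  (TrL.c (I.pos (nat_lit 0) (nat_lit 0)) T0.l7
  TrL.n)))))))) (by decide +kernel)
theorem bx0_10 : BoxOK sI cl5 cl5 cl5 t0 t0 b0_10 :=
  box_mk (TrL.c (I.pos (nat_lit 0) (nat_lit 0)) T0.l8
  (TrL.c (I.pos (nat_lit 0) (nat_lit 0)) T0.l9
  (TrL.c (I.pos (nat_lit 0) (nat_lit 0)) T0.l10
  TrL.n))) (by decide +kernel)
theorem sv0 : StarV sI cl5 cl5 cl5 t0 t0 t0 :=
  (bt_n (bt_n (bt_n (bt_b bx0_0) (bt_b bx0_1)) (bt_n (bt_b bx0_2) (bt_n (bt_b bx0_3) (bt_b bx0_4)))) (bt_n (bt_n (bt_b bx0_5) (bt_n (bt_b bx0_6) (bt_b bx0_7))) (bt_n (bt_b bx0_8) (bt_n (bt_b bx0_9) (bt_b bx0_10)))))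
def S0 : StarD := StarD.mk cl5 cl5 cl5 0 0 t0
def G : List StarD := [S0]
theorem so0 : StarOK sI G S0 :=
  star_mk (by decide) (by decide) rfl rfl rfl rfl rfl rfl (rfl : _ = t0) (rfl : _ = t0)
  (st_mk (Pth.l (Pth.l (Pth.l Pth.z))) (nat_lit 244191392) (nat_lit 246334113) (by decide +kernel))
  (st_mk (Pth.l (Pth.l (Pth.l Pth.z))) (nat_lit 280988052) (nat_lit 283851607) (by decide +kernel))
  (st_mk (Pth.l (Pth.l (Pth.l Pth.z))) (nat_lit 323799066) (nat_lit 327645459) (by decide +kernel)) sv0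
theorem ok : GroupOK (nat_lit 0) (nat_lit 91291648) G := grp_mk (allS_c so0 allS_n)
theorem cov : GCov G cl5 cl5 cl5 := cov_mk
  ⟨0, by decide, rfl, rfl, rfl⟩ ⟨0, by decide, rfl, rfl, rfl⟩ ⟨0, by decide, rfl, rfl, rfl⟩ ⟨0, by decide, rfl, rfl, rfl⟩ ⟨0, by decide, rfl, rfl, rfl⟩ ⟨0, by decide, rfl, rfl, rfl⟩
end Q222_0

namespace Q222_1
def sI : I := I.pos (nat_lit 91226112) (nat_lit 150339584)
def b0_0 : Bx := Bx.mk (St.mk (I.pos (nat_lit 147259392) (nat_lit 270827520)) (I.mix (nat_lit 11730944) (nat_lit 72138752)) (I.mix (nat_lit 57049088) (nat_lit 102432768)) (I.pos (nat_lit 234864640) (nat_lit 433979392)) (I.mix (nat_lit 137887744) (nat_lit 95961088)) (I.mix (nat_lit 113983488) (nat_lit 78430208)) (I.mix (nat_lit 181387264) (nat_lit 119554048)))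
  false (nat_lit 0)
def b0_1 : Bx := Bx.mk (St.mk (I.pos (nat_lit 64454656) (nat_lit 146997248)) (I.neg (nat_lit 7749632) (nat_lit 80101376)) (I.neg (nat_lit 4194304) (nat_lit 69271552)) (I.pos (nat_lit 165380096) (nat_lit 228261888)) (I.mix (nat_lit 113901568) (nat_lit 65830912)) (I.mix (nat_lit 59064320) (nat_lit 85229568)) (I.mix (nat_lit 53411840) (nat_lit 74612736)))
  false (nat_lit 0)
def b0_2 : Bx := Bx.mk (St.mk (I.pos (nat_lit 18268160) (nat_lit 69746688)) (I.mix (nat_lit 5554176) (nat_lit 54394880)) (I.mix (nat_lit 19972096) (nat_lit 7651328)) (I.pos (nat_lit 143638528) (nat_lit 163069952)) (I.mix (nat_lit 44875776) (nat_lit 53624832)) (I.mix (nat_lit 52822016) (nat_lit 40124416)) (I.mix (nat_lit 29212672) (nat_lit 19578880)))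
  false (nat_lit 0)
def b0_3 : Bx := Bx.mk (St.mk (I.mix (nat_lit 37584896) (nat_lit 6193152)) (I.mix (nat_lit 47038464) (nat_lit 4931584)) (I.mix (nat_lit 1916928) (nat_lit 2883584)) (I.pos (nat_lit 143622144) (nat_lit 153288704)) (I.mix (nat_lit 31473664) (nat_lit 44367872)) (I.mix (nat_lit 32047104) (nat_lit 45154304)) (I.mix (nat_lit 6815744) (nat_lit 6471680)))
  true (nat_lit 0)
def b0_4 : Bx := Bx.mk (St.mk (I.pos (nat_lit 125747200) (nat_lit 197738496)) (I.mix (nat_lit 37371904) (nat_lit 71434240)) (I.mix (nat_lit 28426240) (nat_lit 99336192)) (I.pos (nat_lit 207273984) (nat_lit 297861120)) (I.mix (nat_lit 158892032) (nat_lit 70336512)) (I.mix (nat_lit 159793152) (nat_lit 96370688)) (I.mix (nat_lit 164446208) (nat_lit 103874560)))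
  false (nat_lit 0)
def b0_5 : Bx := Bx.mk (St.mk (I.pos (nat_lit 53624832) (nat_lit 105021440)) (I.mix (nat_lit 74137600) (nat_lit 6651904)) (I.neg (nat_lit 12697600) (nat_lit 59260928)) (I.pos (nat_lit 153518080) (nat_lit 188956672)) (I.mix (nat_lit 103563264) (nat_lit 41549824)) (I.mix (nat_lit 55934976) (nat_lit 91340800)) (I.mix (nat_lit 42532864) (nat_lit 55410688)))
  false (nat_lit 0)
def b0_6 : Bx := Bx.mk (St.mk (I.mix (nat_lit 6193152) (nat_lit 37584896)) (I.mix (nat_lit 4931584) (nat_lit 47038464)) (I.mix (nat_lit 1916928) (nat_lit 2883584)) (I.pos (nat_lit 143622144) (nat_lit 153288704)) (I.mix (nat_lit 44367872) (nat_lit 31473664)) (I.mix (nat_lit 45154304) (nat_lit 32047104)) (I.mix (nat_lit 6815744) (nat_lit 6471680)))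
  false (nat_lit 0)
def b0_7 : Bx := Bx.mk (St.mk (I.neg (nat_lit 18268160) (nat_lit 69746688)) (I.mix (nat_lit 54411264) (nat_lit 5554176)) (I.mix (nat_lit 19972096) (nat_lit 7651328)) (I.pos (nat_lit 143638528) (nat_lit 163069952)) (I.mix (nat_lit 53624832) (nat_lit 44875776)) (I.mix (nat_lit 40124416) (nat_lit 52822016)) (I.mix (nat_lit 29212672) (nat_lit 19578880)))
  true (nat_lit 0)
def b0_8 : Bx := Bx.mk (St.mk (I.pos (nat_lit 125026304) (nat_lit 143949824)) (I.neg (nat_lit 18333696) (nat_lit 41615360)) (I.neg (nat_lit 9322496) (nat_lit 32227328)) (I.pos (nat_lit 208175104) (nat_lit 225984512)) (I.mix (nat_lit 24494080) (nat_lit 19185664)) (I.mix (nat_lit 12812288) (nat_lit 12042240)) (I.mix (nat_lit 12779520) (nat_lit 11059200)))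
  false (nat_lit 0)
def b0_9 : Bx := Bx.mk (St.mk (I.pos (nat_lit 55689216) (nat_lit 67665920)) (I.mix (nat_lit 2179072) (nat_lit 13910016)) (I.neg (nat_lit 10485760) (nat_lit 18595840)) (I.pos (nat_lit 155369472) (nat_lit 162365440)) (I.mix (nat_lit 8470528) (nat_lit 17809408)) (I.mix (nat_lit 9011200) (nat_lit 6438912)) (I.mix (nat_lit 5947392) (nat_lit 3112960)))
  false (nat_lit 0)
def b0_10 : Bx := Bx.mk (St.mk (I.mix (nat_lit 5308416) (nat_lit 4423680)) (I.mix (nat_lit 11354112) (nat_lit 1294336)) (I.mix (nat_lit 622592) (nat_lit 589824)) (I.pos (nat_lit 143818752) (nat_lit 145637376)) (I.mix (nat_lit 5210112) (nat_lit 14696448)) (I.mix (nat_lit 4915200) (nat_lit 6094848)) (I.mix (nat_lit 655360) (nat_lit 606208)))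
  true (nat_lit 0)
def t0 : BTr := (BTr.n (BTr.n (BTr.n (BTr.b b0_0) (BTr.b b0_1)) (BTr.n (BTr.b b0_2) (BTr.n (BTr.b b0_3) (BTr.b b0_4)))) (BTr.n (BTr.n (BTr.b b0_5) (BTr.n (BTr.b b0_6) (BTr.b b0_7))) (BTr.n (BTr.b b0_8) (BTr.n (BTr.b b0_9) (BTr.b b0_10)))))
namespace T0
def l0 : Tr := Tr.L (Pth.l (Pth.l (Pth.l Pth.z)))
def l1 : Tr := Tr.L (Pth.l (Pth.l (Pth.r Pth.z)))
def l2 : Tr := Tr.L (Pth.l (Pth.r (Pth.l Pth.z)))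
def l3 : Tr := Tr.L (Pth.l (Pth.r (Pth.r (Pth.l Pth.z))))
def l4 : Tr := Tr.L (Pth.l (Pth.r (Pth.r (Pth.r Pth.z))))
def l5 : Tr := Tr.L (Pth.r (Pth.l (Pth.l Pth.z)))
def l6 : Tr := Tr.L (Pth.r (Pth.l (Pth.r (Pth.l Pth.z))))
def l7 : Tr := Tr.L (Pth.r (Pth.l (Pth.r (Pth.r Pth.z))))
def l8 : Tr := Tr.L (Pth.r (Pth.r (Pth.l Pth.z)))
def l9 : Tr := Tr.L (Pth.r (Pth.r (Pth.r (Pth.l Pth.z))))
def l10 : Tr := Tr.L (Pth.r (Pth.r (Pth.r (Pth.r Pth.z))))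
end T0
theorem bx0_0 : BoxOK sI cl5 cl5 cl5 t0 t0 b0_0 :=
  box_mk (TrL.c (I.pos (nat_lit 0) (nat_lit 0)) (xa (xa (xb T0.l0 T0.l0) (xb T0.l0 T0.l0)) (xa (xb T0.l0 T0.l0) (xb T0.l0 T0.l0)))
  (TrL.c (I.pos (nat_lit 0) (nat_lit 0)) T0.l1
  (TrL.c (I.pos (nat_lit 0) (nat_lit 0)) T0.l2
  (TrL.c (I.pos (nat_lit 0) (nat_lit 0)) T0.l3
  (TrL.c (I.pos (nat_lit 0) (nat_lit 0)) (xa T0.l4 (xb T0.l4 (xa T0.l4 T0.l4)))
  (TrL.c (I.pos (nat_lit 0) (nat_lit 0)) T0.l5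
  (TrL.c (I.pos (nat_lit 0) (nat_lit 0)) T0.l6
  (TrL.c (I.pos (nat_lit 0) (nat_lit 0)) T0.l7
  TrL.n)))))))) (by decide +kernel)
theorem bx0_1 : BoxOK sI cl5 cl5 cl5 t0 t0 b0_1 :=
  box_mk (TrL.c (I.pos (nat_lit 0) (nat_lit 0)) (xa T0.l0 T0.l0)
  (TrL.c (I.pos (nat_lit 0) (nat_lit 0)) T0.l1
  (TrL.c (I.pos (nat_lit 0) (nat_lit 0)) T0.l2
  (TrL.c (I.pos (nat_lit 0) (nat_lit 0)) T0.l3
  (TrL.c (I.pos (nat_lit 0) (nat_lit 0)) T0.l4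
  (TrL.c (I.pos (nat_lit 0) (nat_lit 0)) T0.l5
  (TrL.c (I.pos (nat_lit 0) (nat_lit 0)) T0.l6
  (TrL.c (I.pos (nat_lit 0) (nat_lit 0)) T0.l7
  TrL.n)))))))) (by decide +kernel)
theorem bx0_2 : BoxOK sI cl5 cl5 cl5 t0 t0 b0_2 :=
  box_mk (TrL.c (I.pos (nat_lit 0) (nat_lit 0)) T0.l0
  (TrL.c (I.pos (nat_lit 0) (nat_lit 0)) T0.l1
  (TrL.c (I.pos (nat_lit 0) (nat_lit 0)) T0.l2
  (TrL.c (I.pos (nat_lit 0) (nat_lit 0)) T0.l3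
  (TrL.c (I.pos (nat_lit 0) (nat_lit 0)) T0.l4
  (TrL.c (I.pos (nat_lit 0) (nat_lit 0)) T0.l5
  (TrL.c (I.pos (nat_lit 0) (nat_lit 0)) T0.l6
  (TrL.c (I.pos (nat_lit 0) (nat_lit 0)) T0.l7
  TrL.n)))))))) (by decide +kernel)
theorem bx0_3 : BoxOK sI cl5 cl5 cl5 t0 t0 b0_3 :=
  box_mk (TrL.c (I.pos (nat_lit 0) (nat_lit 0)) T0.l1
  (TrL.c (I.pos (nat_lit 0) (nat_lit 0)) T0.l2
  (TrL.c (I.pos (nat_lit 0) (nat_lit 0)) T0.l3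
  TrL.n))) (by decide +kernel)
theorem bx0_4 : BoxOK sI cl5 cl5 cl5 t0 t0 b0_4 :=
  box_mk (TrL.c (I.pos (nat_lit 0) (nat_lit 0)) (xb (xa T0.l0 T0.l0) (xa (xb T0.l0 T0.l0) (xb T0.l0 T0.l0)))
  (TrL.c (I.pos (nat_lit 0) (nat_lit 0)) T0.l1
  (TrL.c (I.pos (nat_lit 0) (nat_lit 0)) T0.l2
  (TrL.c (I.pos (nat_lit 0) (nat_lit 0)) T0.l3
  (TrL.c (I.pos (nat_lit 0) (nat_lit 0)) (xb T0.l4 T0.l4)
  (TrL.c (I.pos (nat_lit 0) (nat_lit 0)) T0.l5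
  (TrL.c (I.pos (nat_lit 0) (nat_lit 0)) T0.l6
  (TrL.c (I.pos (nat_lit 0) (nat_lit 0)) T0.l7
  TrL.n)))))))) (by decide +kernel)
theorem bx0_5 : BoxOK sI cl5 cl5 cl5 t0 t0 b0_5 :=
  box_mk (TrL.c (I.pos (nat_lit 0) (nat_lit 0)) (xb T0.l0 T0.l0)
  (TrL.c (I.pos (nat_lit 0) (nat_lit 0)) T0.l1
  (TrL.c (I.pos (nat_lit 0) (nat_lit 0)) T0.l2
  (TrL.c (I.pos (nat_lit 0) (nat_lit 0)) T0.l3
  (TrL.c (I.pos (nat_lit 0) (nat_lit 0)) T0.l4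
  (TrL.c (I.pos (nat_lit 0) (nat_lit 0)) T0.l5
  (TrL.c (I.pos (nat_lit 0) (nat_lit 0)) T0.l6
  (TrL.c (I.pos (nat_lit 0) (nat_lit 0)) T0.l7
  TrL.n)))))))) (by decide +kernel)
theorem bx0_6 : BoxOK sI cl5 cl5 cl5 t0 t0 b0_6 :=
  box_mk (TrL.c (I.pos (nat_lit 0) (nat_lit 0)) T0.l0
  (TrL.c (I.pos (nat_lit 0) (nat_lit 0)) T0.l1
  (TrL.c (I.pos (nat_lit 0) (nat_lit 0)) T0.l2
  (TrL.c (I.pos (nat_lit 0) (nat_lit 0)) T0.l3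
  (TrL.c (I.pos (nat_lit 0) (nat_lit 0)) T0.l4
  (TrL.c (I.pos (nat_lit 0) (nat_lit 0)) T0.l5
  (TrL.c (I.pos (nat_lit 0) (nat_lit 0)) T0.l6
  (TrL.c (I.pos (nat_lit 0) (nat_lit 0)) T0.l7
  TrL.n)))))))) (by decide +kernel)
theorem bx0_7 : BoxOK sI cl5 cl5 cl5 t0 t0 b0_7 :=
  box_mk (TrL.c (I.pos (nat_lit 0) (nat_lit 0)) T0.l1
  (TrL.c (I.pos (nat_lit 0) (nat_lit 0)) T0.l2
  (TrL.c (I.pos (nat_lit 0) (nat_lit 0)) T0.l3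
  TrL.n))) (by decide +kernel)
theorem bx0_8 : BoxOK sI cl5 cl5 cl5 t0 t0 b0_8 :=
  box_mk (TrL.c (I.pos (nat_lit 0) (nat_lit 0)) T0.l0
  (TrL.c (I.pos (nat_lit 0) (nat_lit 0)) T0.l1
  (TrL.c (I.pos (nat_lit 0) (nat_lit 0)) T0.l2
  (TrL.c (I.pos (nat_lit 0) (nat_lit 0)) T0.l3
  (TrL.c (I.pos (nat_lit 0) (nat_lit 0)) T0.l4
  (TrL.c (I.pos (nat_lit 0) (nat_lit 0)) T0.l5
  (TrL.c (I.pos (nat_lit 0) (nat_lit 0)) T0.l6
  (TrL.c (I.pos (nat_lit 0) (nat_lit 0)) T0.l7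
  TrL.n)))))))) (by decide +kernel)
theorem bx0_9 : BoxOK sI cl5 cl5 cl5 t0 t0 b0_9 :=
  box_mk (TrL.c (I.pos (nat_lit 0) (nat_lit 0)) T0.l0
  (TrL.c (I.pos (nat_lit 0) (nat_lit 0)) T0.l1
  (TrL.c (I.pos (nat_lit 0) (nat_lit 0)) T0.l2
  (TrL.c (I.pos (nat_lit 0) (nat_lit 0)) T0.l3
  (TrL.c (I.pos (nat_lit 0) (nat_lit 0)) T0.l4
  (TrL.c (I.pos (nat_lit 0) (nat_lit 0)) T0.l5
  (TrL.c (I.pos (nat_lit 0) (nat_lit 0)) T0.l6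
  (TrL.c (I.pos (nat_lit 0) (nat_lit 0)) T0.l7
  TrL.n)))))))) (by decide +kernel)
theorem bx0_10 : BoxOK sI cl5 cl5 cl5 t0 t0 b0_10 :=
  box_mk (TrL.c (I.pos (nat_lit 0) (nat_lit 0)) T0.l8
  (TrL.c (I.pos (nat_lit 0) (nat_lit 0)) T0.l9
  (TrL.c (I.pos (nat_lit 0) (nat_lit 0)) T0.l10
  TrL.n))) (by decide +kernel)
theorem sv0 : StarV sI cl5 cl5 cl5 t0 t0 t0 :=
  (bt_n (bt_n (bt_n (bt_b bx0_0) (bt_b bx0_1)) (bt_n (bt_b bx0_2) (bt_n (bt_b bx0_3) (bt_b bx0_4)))) (bt_n (bt_n (bt_b bx0_5) (bt_n (bt_b bx0_6) (bt_b bx0_7))) (bt_n (bt_b bx0_8) (bt_n (bt_b bx0_9) (bt_b bx0_10)))))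
def S0 : StarD := StarD.mk cl5 cl5 cl5 0 0 t0
def G : List StarD := [S0]
theorem so0 : StarOK sI G S0 :=
  star_mk (by decide) (by decide) rfl rfl rfl rfl rfl rfl (rfl : _ = t0) (rfl : _ = t0)
  (st_mk (Pth.l (Pth.l (Pth.l Pth.z))) (nat_lit 246321517) (nat_lit 247754118) (by decide +kernel))
  (st_mk (Pth.l (Pth.l (Pth.l Pth.z))) (nat_lit 283838336) (nat_lit 285761033) (by decide +kernel))
  (st_mk (Pth.l (Pth.l (Pth.l Pth.z))) (nat_lit 327631273) (nat_lit 330227840) (by decide +kernel)) sv0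
theorem ok : GroupOK (nat_lit 91226112) (nat_lit 150339584) G := grp_mk (allS_c so0 allS_n)
theorem cov : GCov G cl5 cl5 cl5 := cov_mk
  ⟨0, by decide, rfl, rfl, rfl⟩ ⟨0, by decide, rfl, rfl, rfl⟩ ⟨0, by decide, rfl, rfl, rfl⟩ ⟨0, by decide, rfl, rfl, rfl⟩ ⟨0, by decide, rfl, rfl, rfl⟩ ⟨0, by decide, rfl, rfl, rfl⟩
end Q222_1

namespace Q222_2
def sI : I := I.pos (nat_lit 150274048) (nat_lit 209387520)
def b0_0 : Bx := Bx.mk (St.mk (I.pos (nat_lit 136380416) (nat_lit 269467648)) (I.mix (nat_lit 9322496) (nat_lit 73154560)) (I.mix (nat_lit 53428224) (nat_lit 102662144)) (I.pos (nat_lit 241467392) (nat_lit 434634752)) (I.mix (nat_lit 177963008) (nat_lit 130433024)) (I.mix (nat_lit 137723904) (nat_lit 102367232)) (I.mix (nat_lit 220086272) (nat_lit 154386432)))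
  false (nat_lit 5720118)
def b0_1 : Bx := Bx.mk (St.mk (I.pos (nat_lit 62865408) (nat_lit 145768448)) (I.neg (nat_lit 8454144) (nat_lit 70385664)) (I.neg (nat_lit 6717440) (nat_lit 61128704)) (I.pos (nat_lit 165462016) (nat_lit 228737024)) (I.mix (nat_lit 123797504) (nat_lit 84180992)) (I.mix (nat_lit 65929216) (nat_lit 95174656)) (I.mix (nat_lit 62504960) (nat_lit 85131264)))
  false (nat_lit 0)
def b0_2 : Bx := Bx.mk (St.mk (I.pos (nat_lit 18497536) (nat_lit 69566464)) (I.mix (nat_lit 3391488) (nat_lit 53379072)) (I.mix (nat_lit 19382272) (nat_lit 6094848)) (I.pos (nat_lit 144752640) (nat_lit 163364864)) (I.mix (nat_lit 59998208) (nat_lit 71270400)) (I.mix (nat_lit 67108864) (nat_lit 50692096)) (I.mix (nat_lit 36388864) (nat_lit 25116672)))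
  false (nat_lit 0)
def b0_3 : Bx := Bx.mk (St.mk (I.mix (nat_lit 36601856) (nat_lit 6160384)) (I.mix (nat_lit 44826624) (nat_lit 2834432)) (I.mix (nat_lit 1998848) (nat_lit 3129344)) (I.pos (nat_lit 144293888) (nat_lit 154746880)) (I.mix (nat_lit 46039040) (nat_lit 60080128)) (I.mix (nat_lit 44040192) (nat_lit 56131584)) (I.mix (nat_lit 9109504) (nat_lit 8781824)))
  true (nat_lit 0)
def b0_4 : Bx := Bx.mk (St.mk (I.pos (nat_lit 124944384) (nat_lit 191692800)) (I.mix (nat_lit 33128448) (nat_lit 68911104)) (I.mix (nat_lit 23658496) (nat_lit 97845248)) (I.pos (nat_lit 208240640) (nat_lit 295682048)) (I.mix (nat_lit 198524928) (nat_lit 104890368)) (I.mix (nat_lit 194330624) (nat_lit 119193600)) (I.mix (nat_lit 196378624) (nat_lit 131350528)))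
  false (nat_lit 0)
def b0_5 : Bx := Bx.mk (St.mk (I.pos (nat_lit 53510144) (nat_lit 99844096)) (I.mix (nat_lit 67829760) (nat_lit 4276224)) (I.neg (nat_lit 14204928) (nat_lit 57262080)) (I.pos (nat_lit 153812992) (nat_lit 187006976)) (I.mix (nat_lit 122978304) (nat_lit 63569920)) (I.mix (nat_lit 66584576) (nat_lit 104972288)) (I.mix (nat_lit 51412992) (nat_lit 65781760)))
  false (nat_lit 0)
def b0_6 : Bx := Bx.mk (St.mk (I.mix (nat_lit 6160384) (nat_lit 36601856)) (I.mix (nat_lit 2834432) (nat_lit 44826624)) (I.mix (nat_lit 1998848) (nat_lit 3129344)) (I.pos (nat_lit 144293888) (nat_lit 154746880)) (I.mix (nat_lit 60080128) (nat_lit 46039040)) (I.mix (nat_lit 56131584) (nat_lit 44040192)) (I.mix (nat_lit 9109504) (nat_lit 8781824)))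
  false (nat_lit 0)
def b0_7 : Bx := Bx.mk (St.mk (I.neg (nat_lit 18497536) (nat_lit 69566464)) (I.mix (nat_lit 53379072) (nat_lit 3391488)) (I.mix (nat_lit 19382272) (nat_lit 6094848)) (I.pos (nat_lit 144752640) (nat_lit 163364864)) (I.mix (nat_lit 71270400) (nat_lit 59998208)) (I.mix (nat_lit 50692096) (nat_lit 67108864)) (I.mix (nat_lit 36454400) (nat_lit 25116672)))
  true (nat_lit 0)
def b0_8 : Bx := Bx.mk (St.mk (I.pos (nat_lit 118145024) (nat_lit 144326656)) (I.neg (nat_lit 18432000) (nat_lit 40583168)) (I.neg (nat_lit 9404416) (nat_lit 31834112)) (I.pos (nat_lit 202768384) (nat_lit 227704832)) (I.mix (nat_lit 29179904) (nat_lit 22691840)) (I.mix (nat_lit 16187392) (nat_lit 17530880)) (I.mix (nat_lit 16318464) (nat_lit 16728064)))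
  false (nat_lit 0)
def b0_9 : Bx := Bx.mk (St.mk (I.pos (nat_lit 55771136) (nat_lit 68517888)) (I.mix (nat_lit 2293760) (nat_lit 12550144)) (I.neg (nat_lit 11173888) (nat_lit 18857984)) (I.pos (nat_lit 155566080) (nat_lit 163102720)) (I.mix (nat_lit 12206080) (nat_lit 21200896)) (I.mix (nat_lit 13402112) (nat_lit 9158656)) (I.mix (nat_lit 8192000) (nat_lit 4374528)))
  false (nat_lit 0)
def b0_10 : Bx := Bx.mk (St.mk (I.mix (nat_lit 4980736) (nat_lit 5242880)) (I.mix (nat_lit 10108928) (nat_lit 1343488)) (I.mix (nat_lit 606208) (nat_lit 573440)) (I.pos (nat_lit 144326656) (nat_lit 146128896)) (I.mix (nat_lit 7192576) (nat_lit 17039360)) (I.mix (nat_lit 6635520) (nat_lit 8994816)) (I.mix (nat_lit 638976) (nat_lit 589824)))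
  true (nat_lit 0)
def t0 : BTr := (BTr.n (BTr.n (BTr.n (BTr.b b0_0) (BTr.b b0_1)) (BTr.n (BTr.b b0_2) (BTr.n (BTr.b b0_3) (BTr.b b0_4)))) (BTr.n (BTr.n (BTr.b b0_5) (BTr.n (BTr.b b0_6) (BTr.b b0_7))) (BTr.n (BTr.b b0_8) (BTr.n (BTr.b b0_9) (BTr.b b0_10)))))
namespace T0
def l0 : Tr := Tr.L (Pth.l (Pth.l (Pth.l Pth.z)))
def l1 : Tr := Tr.L (Pth.l (Pth.l (Pth.r Pth.z)))
def l2 : Tr := Tr.L (Pth.l (Pth.r (Pth.l Pth.z)))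
def l3 : Tr := Tr.L (Pth.l (Pth.r (Pth.r (Pth.l Pth.z))))
def l4 : Tr := Tr.L (Pth.l (Pth.r (Pth.r (Pth.r Pth.z))))
def l5 : Tr := Tr.L (Pth.r (Pth.l (Pth.l Pth.z)))
def l6 : Tr := Tr.L (Pth.r (Pth.l (Pth.r (Pth.l Pth.z))))
def l7 : Tr := Tr.L (Pth.r (Pth.l (Pth.r (Pth.r Pth.z))))
def l8 : Tr := Tr.L (Pth.r (Pth.r (Pth.l Pth.z)))
def l9 : Tr := Tr.L (Pth.r (Pth.r (Pth.r (Pth.l Pth.z))))
def l10 : Tr := Tr.L (Pth.r (Pth.r (Pth.r (Pth.r Pth.z))))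
end T0
theorem bx0_0 : BoxOK sI cl5 cl5 cl5 t0 t0 b0_0 :=
  box_mk (TrL.c (I.pos (nat_lit 0) (nat_lit 0)) (xa (xb (xa T0.l0 T0.l0) (xa (xb T0.l0 (xa T0.l0 T0.l0)) (xb T0.l0 (xa T0.l0 T0.l0)))) (xa (xb T0.l0 (xb T0.l0 T0.l0)) (xb T0.l0 (xa T0.l0 T0.l0))))
  (TrL.c (I.pos (nat_lit 0) (nat_lit 0)) (xa (xb T0.l1 T0.l1) (xa T0.l1 T0.l1))
  (TrL.c (I.pos (nat_lit 0) (nat_lit 0)) (xa T0.l2 T0.l2)
  (TrL.c (I.pos (nat_lit 0) (nat_lit 0)) T0.l3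
  (TrL.c (I.pos (nat_lit 0) (nat_lit 0)) (xa (xb T0.l4 T0.l4) (xb (xa T0.l4 T0.l4) (xa (xb T0.l4 (xs T0.l4 T0.l4)) (xb (xs T0.l4 T0.l4) (xs (xa T0.l4 T0.l4) (xa (xb T0.l4 T0.l4) (xb T0.l4 (xs T0.l4 (xa T0.l4 T0.l4)))))))))
  (TrL.c (I.pos (nat_lit 0) (nat_lit 0)) (xa T0.l5 (xb T0.l5 T0.l5))
  (TrL.c (I.pos (nat_lit 0) (nat_lit 0)) T0.l6
  (TrL.c (I.pos (nat_lit 0) (nat_lit 0)) (xa T0.l7 T0.l7)
  TrL.n)))))))) (by decide +kernel)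
theorem bx0_1 : BoxOK sI cl5 cl5 cl5 t0 t0 b0_1 :=
  box_mk (TrL.c (I.pos (nat_lit 0) (nat_lit 0)) (xa T0.l0 T0.l0)
  (TrL.c (I.pos (nat_lit 0) (nat_lit 0)) T0.l1
  (TrL.c (I.pos (nat_lit 0) (nat_lit 0)) T0.l2
  (TrL.c (I.pos (nat_lit 0) (nat_lit 0)) T0.l3
  (TrL.c (I.pos (nat_lit 0) (nat_lit 0)) T0.l4
  (TrL.c (I.pos (nat_lit 0) (nat_lit 0)) T0.l5
  (TrL.c (I.pos (nat_lit 0) (nat_lit 0)) T0.l6
  (TrL.c (I.pos (nat_lit 0) (nat_lit 0)) T0.l7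
  TrL.n)))))))) (by decide +kernel)
theorem bx0_2 : BoxOK sI cl5 cl5 cl5 t0 t0 b0_2 :=
  box_mk (TrL.c (I.pos (nat_lit 0) (nat_lit 0)) T0.l0
  (TrL.c (I.pos (nat_lit 0) (nat_lit 0)) T0.l1
  (TrL.c (I.pos (nat_lit 0) (nat_lit 0)) T0.l2
  (TrL.c (I.pos (nat_lit 0) (nat_lit 0)) T0.l3
  (TrL.c (I.pos (nat_lit 0) (nat_lit 0)) T0.l4
  (TrL.c (I.pos (nat_lit 0) (nat_lit 0)) T0.l5
  (TrL.c (I.pos (nat_lit 0) (nat_lit 0)) T0.l6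
  (TrL.c (I.pos (nat_lit 0) (nat_lit 0)) T0.l7
  TrL.n)))))))) (by decide +kernel)
theorem bx0_3 : BoxOK sI cl5 cl5 cl5 t0 t0 b0_3 :=
  box_mk (TrL.c (I.pos (nat_lit 0) (nat_lit 0)) T0.l1
  (TrL.c (I.pos (nat_lit 0) (nat_lit 0)) T0.l2
  (TrL.c (I.pos (nat_lit 0) (nat_lit 0)) T0.l3
  TrL.n))) (by decide +kernel)
theorem bx0_4 : BoxOK sI cl5 cl5 cl5 t0 t0 b0_4 :=
  box_mk (TrL.c (I.pos (nat_lit 0) (nat_lit 0)) (xb (xa (xb (xb (xa (xs T0.l0 (xb T0.l0 T0.l0)) (xs T0.l0 (xb T0.l0 T0.l0))) (xa T0.l0 T0.l0)) T0.l0) (xb (xb (xa (xs T0.l0 T0.l0) T0.l0) T0.l0) (xb T0.l0 T0.l0))) (xa (xb T0.l0 (xa T0.l0 T0.l0)) (xb T0.l0 T0.l0)))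
  (TrL.c (I.pos (nat_lit 0) (nat_lit 0)) (xb T0.l1 T0.l1)
  (TrL.c (I.pos (nat_lit 0) (nat_lit 0)) T0.l2
  (TrL.c (I.pos (nat_lit 0) (nat_lit 0)) T0.l3
  (TrL.c (I.pos (nat_lit 0) (nat_lit 0)) (xb T0.l4 (xb T0.l4 (xa T0.l4 T0.l4)))
  (TrL.c (I.pos (nat_lit 0) (nat_lit 0)) T0.l5
  (TrL.c (I.pos (nat_lit 0) (nat_lit 0)) T0.l6
  (TrL.c (I.pos (nat_lit 0) (nat_lit 0)) T0.l7
  TrL.n)))))))) (by decide +kernel)
theorem bx0_5 : BoxOK sI cl5 cl5 cl5 t0 t0 b0_5 :=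
  box_mk (TrL.c (I.pos (nat_lit 0) (nat_lit 0)) (xb T0.l0 T0.l0)
  (TrL.c (I.pos (nat_lit 0) (nat_lit 0)) T0.l1
  (TrL.c (I.pos (nat_lit 0) (nat_lit 0)) T0.l2
  (TrL.c (I.pos (nat_lit 0) (nat_lit 0)) T0.l3
  (TrL.c (I.pos (nat_lit 0) (nat_lit 0)) T0.l4
  (TrL.c (I.pos (nat_lit 0) (nat_lit 0)) T0.l5
  (TrL.c (I.pos (nat_lit 0) (nat_lit 0)) T0.l6
  (TrL.c (I.pos (nat_lit 0) (nat_lit 0)) T0.l7
  TrL.n)))))))) (by decide +kernel)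
theorem bx0_6 : BoxOK sI cl5 cl5 cl5 t0 t0 b0_6 :=
  box_mk (TrL.c (I.pos (nat_lit 0) (nat_lit 0)) (xb T0.l0 T0.l0)
  (TrL.c (I.pos (nat_lit 0) (nat_lit 0)) T0.l1
  (TrL.c (I.pos (nat_lit 0) (nat_lit 0)) T0.l2
  (TrL.c (I.pos (nat_lit 0) (nat_lit 0)) T0.l3
  (TrL.c (I.pos (nat_lit 0) (nat_lit 0)) T0.l4
  (TrL.c (I.pos (nat_lit 0) (nat_lit 0)) T0.l5
  (TrL.c (I.pos (nat_lit 0) (nat_lit 0)) T0.l6
  (TrL.c (I.pos (nat_lit 0) (nat_lit 0)) T0.l7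
  TrL.n)))))))) (by decide +kernel)
theorem bx0_7 : BoxOK sI cl5 cl5 cl5 t0 t0 b0_7 :=
  box_mk (TrL.c (I.pos (nat_lit 0) (nat_lit 0)) T0.l1
  (TrL.c (I.pos (nat_lit 0) (nat_lit 0)) T0.l2
  (TrL.c (I.pos (nat_lit 0) (nat_lit 0)) T0.l3
  TrL.n))) (by decide +kernel)
theorem bx0_8 : BoxOK sI cl5 cl5 cl5 t0 t0 b0_8 :=
  box_mk (TrL.c (I.pos (nat_lit 0) (nat_lit 0)) T0.l0
  (TrL.c (I.pos (nat_lit 0) (nat_lit 0)) T0.l1
  (TrL.c (I.pos (nat_lit 0) (nat_lit 0)) T0.l2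
  (TrL.c (I.pos (nat_lit 0) (nat_lit 0)) T0.l3
  (TrL.c (I.pos (nat_lit 0) (nat_lit 0)) T0.l4
  (TrL.c (I.pos (nat_lit 0) (nat_lit 0)) T0.l5
  (TrL.c (I.pos (nat_lit 0) (nat_lit 0)) T0.l6
  (TrL.c (I.pos (nat_lit 0) (nat_lit 0)) T0.l7
  TrL.n)))))))) (by decide +kernel)
theorem bx0_9 : BoxOK sI cl5 cl5 cl5 t0 t0 b0_9 :=
  box_mk (TrL.c (I.pos (nat_lit 0) (nat_lit 0)) T0.l0
  (TrL.c (I.pos (nat_lit 0) (nat_lit 0)) T0.l1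
  (TrL.c (I.pos (nat_lit 0) (nat_lit 0)) T0.l2
  (TrL.c (I.pos (nat_lit 0) (nat_lit 0)) T0.l3
  (TrL.c (I.pos (nat_lit 0) (nat_lit 0)) T0.l4
  (TrL.c (I.pos (nat_lit 0) (nat_lit 0)) T0.l5
  (TrL.c (I.pos (nat_lit 0) (nat_lit 0)) T0.l6
  (TrL.c (I.pos (nat_lit 0) (nat_lit 0)) T0.l7
  TrL.n)))))))) (by decide +kernel)
theorem bx0_10 : BoxOK sI cl5 cl5 cl5 t0 t0 b0_10 :=
  box_mk (TrL.c (I.pos (nat_lit 0) (nat_lit 0)) T0.l8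
  (TrL.c (I.pos (nat_lit 0) (nat_lit 0)) T0.l9
  (TrL.c (I.pos (nat_lit 0) (nat_lit 0)) T0.l10
  TrL.n))) (by decide +kernel)
theorem sv0 : StarV sI cl5 cl5 cl5 t0 t0 t0 :=
  (bt_n (bt_n (bt_n (bt_b bx0_0) (bt_b bx0_1)) (bt_n (bt_b bx0_2) (bt_n (bt_b bx0_3) (bt_b bx0_4)))) (bt_n (bt_n (bt_b bx0_5) (bt_n (bt_b bx0_6) (bt_b bx0_7))) (bt_n (bt_b bx0_8) (bt_n (bt_b bx0_9) (bt_b bx0_10)))))
def S0 : StarD := StarD.mk cl5 cl5 cl5 0 0 t0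
def G : List StarD := [S0]
theorem so0 : StarOK sI G S0 :=
  star_mk (by decide) (by decide) rfl rfl rfl rfl rfl rfl (rfl : _ = t0) (rfl : _ = t0)
  (st_mk (Pth.l (Pth.l (Pth.l Pth.z))) (nat_lit 247741373) (nat_lit 249208145) (by decide +kernel))
  (st_mk (Pth.l (Pth.l (Pth.l Pth.z))) (nat_lit 285747562) (nat_lit 287724194) (by decide +kernel))
  (st_mk (Pth.l (Pth.l (Pth.l Pth.z))) (nat_lit 330213379) (nat_lit 332896042) (by decide +kernel)) sv0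
theorem ok : GroupOK (nat_lit 150274048) (nat_lit 209387520) G := grp_mk (allS_c so0 allS_n)
theorem cov : GCov G cl5 cl5 cl5 := cov_mk
  ⟨0, by decide, rfl, rfl, rfl⟩ ⟨0, by decide, rfl, rfl, rfl⟩ ⟨0, by decide, rfl, rfl, rfl⟩ ⟨0, by decide, rfl, rfl, rfl⟩ ⟨0, by decide, rfl, rfl, rfl⟩ ⟨0, by decide, rfl, rfl, rfl⟩
end Q222_2

namespace Q222_3
def sI : I := I.pos (nat_lit 209321984) (nat_lit 268435456)
def b0_0 : Bx := Bx.mk (St.mk (I.pos (nat_lit 136839168) (nat_lit 220446720)) (I.mix (nat_lit 2097152) (nat_lit 70942720)) (I.mix (nat_lit 2818048) (nat_lit 97714176)) (I.pos (nat_lit 245760000) (nat_lit 349552640)) (I.mix (nat_lit 179290112) (nat_lit 110919680)) (I.mix (nat_lit 94420992) (nat_lit 94388224)) (I.mix (nat_lit 139313152) (nat_lit 142295040)))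
  false (nat_lit 24119319)
def b0_1 : Bx := Bx.mk (St.mk (I.pos (nat_lit 64356352) (nat_lit 145637376)) (I.neg (nat_lit 9306112) (nat_lit 67698688)) (I.neg (nat_lit 7471104) (nat_lit 58261504)) (I.pos (nat_lit 166395904) (nat_lit 230129664)) (I.mix (nat_lit 109674496) (nat_lit 75186176)) (I.mix (nat_lit 61177856) (nat_lit 72187904)) (I.mix (nat_lit 56803328) (nat_lit 66060288)))
  false (nat_lit 0)
def b0_2 : Bx := Bx.mk (St.mk (I.pos (nat_lit 18481152) (nat_lit 70549504)) (I.mix (nat_lit 3424256) (nat_lit 47398912)) (I.mix (nat_lit 19513344) (nat_lit 4423680)) (I.pos (nat_lit 146259968) (nat_lit 164134912)) (I.mix (nat_lit 49954816) (nat_lit 76349440)) (I.mix (nat_lit 51773440) (nat_lit 47939584)) (I.mix (nat_lit 30932992) (nat_lit 19890176)))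
  false (nat_lit 0)
def b0_3 : Bx := Bx.mk (St.mk (I.mix (nat_lit 36945920) (nat_lit 7028736)) (I.mix (nat_lit 40943616) (nat_lit 2310144)) (I.mix (nat_lit 2129920) (nat_lit 3227648)) (I.pos (nat_lit 144736256) (nat_lit 156155904)) (I.mix (nat_lit 38060032) (nat_lit 61571072)) (I.mix (nat_lit 36438016) (nat_lit 44761088)) (I.mix (nat_lit 6373376) (nat_lit 8929280)))
  true (nat_lit 0)
def b0_4 : Bx := Bx.mk (St.mk (I.pos (nat_lit 134594560) (nat_lit 186433536)) (I.mix (nat_lit 2932736) (nat_lit 58818560)) (I.pos (nat_lit 16531456) (nat_lit 85557248)) (I.pos (nat_lit 225624064) (nat_lit 294060032)) (I.mix (nat_lit 170786816) (nat_lit 58802176)) (I.mix (nat_lit 145489920) (nat_lit 83738624)) (I.mix (nat_lit 139870208) (nat_lit 93487104)))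
  false (nat_lit 0)
def b0_5 : Bx := Bx.mk (St.mk (I.pos (nat_lit 52101120) (nat_lit 96878592)) (I.mix (nat_lit 63389696) (nat_lit 4341760)) (I.neg (nat_lit 14614528) (nat_lit 53985280)) (I.pos (nat_lit 153288704) (nat_lit 186793984)) (I.mix (nat_lit 116195328) (nat_lit 48250880)) (I.mix (nat_lit 50757632) (nat_lit 87752704)) (I.mix (nat_lit 40206336) (nat_lit 51036160)))
  false (nat_lit 0)
def b0_6 : Bx := Bx.mk (St.mk (I.mix (nat_lit 7028736) (nat_lit 36945920)) (I.mix (nat_lit 2310144) (nat_lit 40943616)) (I.mix (nat_lit 2129920) (nat_lit 3227648)) (I.pos (nat_lit 144736256) (nat_lit 156155904)) (I.mix (nat_lit 61571072) (nat_lit 38060032)) (I.mix (nat_lit 44761088) (nat_lit 36438016)) (I.mix (nat_lit 6373376) (nat_lit 8929280)))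
  false (nat_lit 0)
def b0_7 : Bx := Bx.mk (St.mk (I.neg (nat_lit 18481152) (nat_lit 70549504)) (I.mix (nat_lit 47398912) (nat_lit 3424256)) (I.mix (nat_lit 19513344) (nat_lit 4489216)) (I.pos (nat_lit 146243584) (nat_lit 164134912)) (I.mix (nat_lit 76349440) (nat_lit 49954816)) (I.mix (nat_lit 47939584) (nat_lit 51773440)) (I.mix (nat_lit 30932992) (nat_lit 19890176)))
  true (nat_lit 0)
def b0_8 : Bx := Bx.mk (St.mk (I.pos (nat_lit 175046656) (nat_lit 267894784)) (I.mix (nat_lit 8765440) (nat_lit 42450944)) (I.mix (nat_lit 52232192) (nat_lit 36290560)) (I.pos (nat_lit 291635200) (nat_lit 436895744)) (I.mix (nat_lit 119160832) (nat_lit 75661312)) (I.mix (nat_lit 74596352) (nat_lit 60276736)) (I.mix (nat_lit 118112256) (nat_lit 106840064)))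
  false (nat_lit 0)
def b0_9 : Bx := Bx.mk (St.mk (I.pos (nat_lit 122585088) (nat_lit 183353344)) (I.mix (nat_lit 31342592) (nat_lit 8585216)) (I.mix (nat_lit 21708800) (nat_lit 22151168)) (I.pos (nat_lit 207732736) (nat_lit 274399232)) (I.mix (nat_lit 79020032) (nat_lit 77283328)) (I.mix (nat_lit 68157440) (nat_lit 62455808)) (I.mix (nat_lit 67649536) (nat_lit 61456384)))
  false (nat_lit 0)
def b0_10 : Bx := Bx.mk (St.mk (I.pos (nat_lit 115425280) (nat_lit 144211968)) (I.neg (nat_lit 18792448) (nat_lit 44384256)) (I.neg (nat_lit 9781248) (nat_lit 36012032)) (I.pos (nat_lit 201850880) (nat_lit 229097472)) (I.mix (nat_lit 32456704) (nat_lit 20594688)) (I.mix (nat_lit 15106048) (nat_lit 15138816)) (I.mix (nat_lit 16400384) (nat_lit 13795328)))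
  false (nat_lit 0)
def b0_11 : Bx := Bx.mk (St.mk (I.pos (nat_lit 51478528) (nat_lit 69599232)) (I.mix (nat_lit 2572288) (nat_lit 15237120)) (I.neg (nat_lit 9338880) (nat_lit 19103744)) (I.pos (nat_lit 154189824) (nat_lit 163856384)) (I.mix (nat_lit 11796480) (nat_lit 20594688)) (I.mix (nat_lit 11468800) (nat_lit 7602176)) (I.mix (nat_lit 7389184) (nat_lit 3538944)))
  false (nat_lit 0)
def b0_12 : Bx := Bx.mk (St.mk (I.mix (nat_lit 4980736) (nat_lit 6094848)) (I.mix (nat_lit 9732096) (nat_lit 1392640)) (I.mix (nat_lit 606208) (nat_lit 573440)) (I.pos (nat_lit 144801792) (nat_lit 146653184)) (I.mix (nat_lit 7110656) (nat_lit 16924672)) (I.mix (nat_lit 5734400) (nat_lit 7946240)) (I.mix (nat_lit 655360) (nat_lit 589824)))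
  true (nat_lit 0)
def b0_13 : Bx := Bx.mk (St.mk (I.pos (nat_lit 166887424) (nat_lit 220135424)) (I.pos (nat_lit 14598144) (nat_lit 67174400)) (I.pos (nat_lit 9863168) (nat_lit 86802432)) (I.pos (nat_lit 287768576) (nat_lit 346275840)) (I.mix (nat_lit 132087808) (nat_lit 109084672)) (I.mix (nat_lit 108019712) (nat_lit 77463552)) (I.mix (nat_lit 172769280) (nat_lit 108888064)))
  false (nat_lit 0)
def b0_14 : Bx := Bx.mk (St.mk (I.pos (nat_lit 138739712) (nat_lit 182648832)) (I.mix (nat_lit 9142272) (nat_lit 30146560)) (I.pos (nat_lit 6029312) (nat_lit 53313536)) (I.pos (nat_lit 229867520) (nat_lit 275873792)) (I.mix (nat_lit 115834880) (nat_lit 63946752)) (I.mix (nat_lit 121618432) (nat_lit 59604992)) (I.mix (nat_lit 119603200) (nat_lit 62324736)))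
  false (nat_lit 0)
def t0 : BTr := (BTr.n (BTr.n (BTr.n (BTr.b b0_0) (BTr.n (BTr.b b0_1) (BTr.b b0_2))) (BTr.n (BTr.n (BTr.b b0_3) (BTr.b b0_4)) (BTr.n (BTr.b b0_5) (BTr.b b0_6)))) (BTr.n (BTr.n (BTr.n (BTr.b b0_7) (BTr.b b0_8)) (BTr.n (BTr.b b0_9) (BTr.b b0_10))) (BTr.n (BTr.n (BTr.b b0_11) (BTr.b b0_12)) (BTr.n (BTr.b b0_13) (BTr.b b0_14)))))
namespace T0
def l0 : Tr := Tr.L (Pth.l (Pth.l (Pth.l Pth.z)))
def l1 : Tr := Tr.L (Pth.l (Pth.l (Pth.r (Pth.l Pth.z))))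
def l2 : Tr := Tr.L (Pth.l (Pth.l (Pth.r (Pth.r Pth.z))))
def l3 : Tr := Tr.L (Pth.l (Pth.r (Pth.l (Pth.l Pth.z))))
def l4 : Tr := Tr.L (Pth.l (Pth.r (Pth.l (Pth.r Pth.z))))
def l5 : Tr := Tr.L (Pth.l (Pth.r (Pth.r (Pth.l Pth.z))))
def l6 : Tr := Tr.L (Pth.l (Pth.r (Pth.r (Pth.r Pth.z))))
def l7 : Tr := Tr.L (Pth.r (Pth.l (Pth.l (Pth.l Pth.z))))
def l8 : Tr := Tr.L (Pth.r (Pth.l (Pth.l (Pth.r Pth.z))))
def l9 : Tr := Tr.L (Pth.r (Pth.l (Pth.r (Pth.l Pth.z))))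
def l10 : Tr := Tr.L (Pth.r (Pth.l (Pth.r (Pth.r Pth.z))))
def l11 : Tr := Tr.L (Pth.r (Pth.r (Pth.l (Pth.l Pth.z))))
def l12 : Tr := Tr.L (Pth.r (Pth.r (Pth.l (Pth.r Pth.z))))
def l13 : Tr := Tr.L (Pth.r (Pth.r (Pth.r (Pth.l Pth.z))))
def l14 : Tr := Tr.L (Pth.r (Pth.r (Pth.r (Pth.r Pth.z))))
end T0
theorem bx0_0 : BoxOK sI cl5 cl5 cl5 t0 t0 b0_0 :=
  box_mk (TrL.c (I.pos (nat_lit 0) (nat_lit 0)) (xa (xb (xa (xb T0.l0 T0.l0) T0.l0) (xa (xb T0.l0 (xa T0.l0 T0.l0)) (xb T0.l0 (xa T0.l0 T0.l0)))) (xb (xa T0.l0 T0.l0) (xa (xb T0.l0 (xa T0.l0 T0.l0)) (xb T0.l0 T0.l0))))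
  (TrL.c (I.pos (nat_lit 0) (nat_lit 0)) (xa (xb T0.l1 T0.l1) (xb T0.l1 T0.l1))
  (TrL.c (I.pos (nat_lit 0) (nat_lit 0)) T0.l2
  (TrL.c (I.pos (nat_lit 0) (nat_lit 0)) T0.l3
  (TrL.c (I.pos (nat_lit 0) (nat_lit 0)) (xa (xb T0.l4 T0.l4) (xb T0.l4 T0.l4))
  (TrL.c (I.pos (nat_lit 0) (nat_lit 0)) (xb T0.l5 T0.l5)
  (TrL.c (I.pos (nat_lit 0) (nat_lit 0)) T0.l6
  (TrL.c (I.pos (nat_lit 0) (nat_lit 0)) T0.l7
  TrL.n)))))))) (by decide +kernel)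
theorem bx0_1 : BoxOK sI cl5 cl5 cl5 t0 t0 b0_1 :=
  box_mk (TrL.c (I.pos (nat_lit 0) (nat_lit 0)) (xa (xb T0.l8 T0.l8) (xb T0.l8 T0.l8))
  (TrL.c (I.pos (nat_lit 0) (nat_lit 0)) (xa T0.l1 T0.l1)
  (TrL.c (I.pos (nat_lit 0) (nat_lit 0)) T0.l2
  (TrL.c (I.pos (nat_lit 0) (nat_lit 0)) T0.l3
  (TrL.c (I.pos (nat_lit 0) (nat_lit 0)) (xa T0.l9 T0.l9)
  (TrL.c (I.pos (nat_lit 0) (nat_lit 0)) T0.l5
  (TrL.c (I.pos (nat_lit 0) (nat_lit 0)) T0.l6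
  (TrL.c (I.pos (nat_lit 0) (nat_lit 0)) T0.l7
  TrL.n)))))))) (by decide +kernel)
theorem bx0_2 : BoxOK sI cl5 cl5 cl5 t0 t0 b0_2 :=
  box_mk (TrL.c (I.pos (nat_lit 0) (nat_lit 0)) (xa (xb T0.l8 T0.l8) (xb T0.l8 T0.l8))
  (TrL.c (I.pos (nat_lit 0) (nat_lit 0)) T0.l1
  (TrL.c (I.pos (nat_lit 0) (nat_lit 0)) T0.l2
  (TrL.c (I.pos (nat_lit 0) (nat_lit 0)) T0.l3
  (TrL.c (I.pos (nat_lit 0) (nat_lit 0)) T0.l9
  (TrL.c (I.pos (nat_lit 0) (nat_lit 0)) T0.l5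
  (TrL.c (I.pos (nat_lit 0) (nat_lit 0)) T0.l6
  (TrL.c (I.pos (nat_lit 0) (nat_lit 0)) T0.l7
  TrL.n)))))))) (by decide +kernel)
theorem bx0_3 : BoxOK sI cl5 cl5 cl5 t0 t0 b0_3 :=
  box_mk (TrL.c (I.pos (nat_lit 0) (nat_lit 0)) T0.l1
  (TrL.c (I.pos (nat_lit 0) (nat_lit 0)) T0.l2
  (TrL.c (I.pos (nat_lit 0) (nat_lit 0)) T0.l3
  TrL.n))) (by decide +kernel)
theorem bx0_4 : BoxOK sI cl5 cl5 cl5 t0 t0 b0_4 :=
  box_mk (TrL.c (I.pos (nat_lit 0) (nat_lit 0)) (xb (xa T0.l13 T0.l13) (xa (xb T0.l13 T0.l13) (xb T0.l13 T0.l13)))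
  (TrL.c (I.pos (nat_lit 0) (nat_lit 0)) (xb T0.l1 T0.l1)
  (TrL.c (I.pos (nat_lit 0) (nat_lit 0)) T0.l2
  (TrL.c (I.pos (nat_lit 0) (nat_lit 0)) T0.l3
  (TrL.c (I.pos (nat_lit 0) (nat_lit 0)) (xb T0.l14 T0.l4)
  (TrL.c (I.pos (nat_lit 0) (nat_lit 0)) T0.l5
  (TrL.c (I.pos (nat_lit 0) (nat_lit 0)) T0.l6
  (TrL.c (I.pos (nat_lit 0) (nat_lit 0)) T0.l7
  TrL.n)))))))) (by decide +kernel)
theorem bx0_5 : BoxOK sI cl5 cl5 cl5 t0 t0 b0_5 :=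
  box_mk (TrL.c (I.pos (nat_lit 0) (nat_lit 0)) (xb T0.l8 T0.l8)
  (TrL.c (I.pos (nat_lit 0) (nat_lit 0)) T0.l1
  (TrL.c (I.pos (nat_lit 0) (nat_lit 0)) T0.l2
  (TrL.c (I.pos (nat_lit 0) (nat_lit 0)) T0.l3
  (TrL.c (I.pos (nat_lit 0) (nat_lit 0)) T0.l9
  (TrL.c (I.pos (nat_lit 0) (nat_lit 0)) T0.l5
  (TrL.c (I.pos (nat_lit 0) (nat_lit 0)) T0.l6
  (TrL.c (I.pos (nat_lit 0) (nat_lit 0)) T0.l7
  TrL.n)))))))) (by decide +kernel)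
theorem bx0_6 : BoxOK sI cl5 cl5 cl5 t0 t0 b0_6 :=
  box_mk (TrL.c (I.pos (nat_lit 0) (nat_lit 0)) (xb T0.l8 T0.l8)
  (TrL.c (I.pos (nat_lit 0) (nat_lit 0)) T0.l1
  (TrL.c (I.pos (nat_lit 0) (nat_lit 0)) T0.l2
  (TrL.c (I.pos (nat_lit 0) (nat_lit 0)) T0.l3
  (TrL.c (I.pos (nat_lit 0) (nat_lit 0)) T0.l9
  (TrL.c (I.pos (nat_lit 0) (nat_lit 0)) T0.l5
  (TrL.c (I.pos (nat_lit 0) (nat_lit 0)) T0.l6
  (TrL.c (I.pos (nat_lit 0) (nat_lit 0)) T0.l7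
  TrL.n)))))))) (by decide +kernel)
theorem bx0_7 : BoxOK sI cl5 cl5 cl5 t0 t0 b0_7 :=
  box_mk (TrL.c (I.pos (nat_lit 0) (nat_lit 0)) T0.l1
  (TrL.c (I.pos (nat_lit 0) (nat_lit 0)) T0.l2
  (TrL.c (I.pos (nat_lit 0) (nat_lit 0)) T0.l3
  TrL.n))) (by decide +kernel)
theorem bx0_8 : BoxOK sI cl5 cl5 cl5 t0 t0 b0_8 :=
  box_mk (TrL.c (I.pos (nat_lit 0) (nat_lit 0)) (xa (xb T0.l0 T0.l0) (xa T0.l0 (xb T0.l0 T0.l4)))
  (TrL.c (I.pos (nat_lit 0) (nat_lit 0)) (xa T0.l1 (xb T0.l1 T0.l1))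
  (TrL.c (I.pos (nat_lit 0) (nat_lit 0)) T0.l2
  (TrL.c (I.pos (nat_lit 0) (nat_lit 0)) T0.l3
  (TrL.c (I.pos (nat_lit 0) (nat_lit 0)) (xa T0.l4 (xb (xa T0.l4 T0.l4) (xa T0.l4 T0.l4)))
  (TrL.c (I.pos (nat_lit 0) (nat_lit 0)) (xa T0.l5 T0.l5)
  (TrL.c (I.pos (nat_lit 0) (nat_lit 0)) T0.l6
  (TrL.c (I.pos (nat_lit 0) (nat_lit 0)) T0.l7
  TrL.n)))))))) (by decide +kernel)
theorem bx0_9 : BoxOK sI cl5 cl5 cl5 t0 t0 b0_9 :=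
  box_mk (TrL.c (I.pos (nat_lit 0) (nat_lit 0)) (xa T0.l0 T0.l0)
  (TrL.c (I.pos (nat_lit 0) (nat_lit 0)) T0.l1
  (TrL.c (I.pos (nat_lit 0) (nat_lit 0)) T0.l2
  (TrL.c (I.pos (nat_lit 0) (nat_lit 0)) T0.l3
  (TrL.c (I.pos (nat_lit 0) (nat_lit 0)) T0.l14
  (TrL.c (I.pos (nat_lit 0) (nat_lit 0)) T0.l5
  (TrL.c (I.pos (nat_lit 0) (nat_lit 0)) T0.l6
  (TrL.c (I.pos (nat_lit 0) (nat_lit 0)) T0.l7
  TrL.n)))))))) (by decide +kernel)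
theorem bx0_10 : BoxOK sI cl5 cl5 cl5 t0 t0 b0_10 :=
  box_mk (TrL.c (I.pos (nat_lit 0) (nat_lit 0)) T0.l8
  (TrL.c (I.pos (nat_lit 0) (nat_lit 0)) T0.l1
  (TrL.c (I.pos (nat_lit 0) (nat_lit 0)) T0.l2
  (TrL.c (I.pos (nat_lit 0) (nat_lit 0)) T0.l3
  (TrL.c (I.pos (nat_lit 0) (nat_lit 0)) T0.l9
  (TrL.c (I.pos (nat_lit 0) (nat_lit 0)) T0.l5
  (TrL.c (I.pos (nat_lit 0) (nat_lit 0)) T0.l6
  (TrL.c (I.pos (nat_lit 0) (nat_lit 0)) T0.l7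
  TrL.n)))))))) (by decide +kernel)
theorem bx0_11 : BoxOK sI cl5 cl5 cl5 t0 t0 b0_11 :=
  box_mk (TrL.c (I.pos (nat_lit 0) (nat_lit 0)) T0.l8
  (TrL.c (I.pos (nat_lit 0) (nat_lit 0)) T0.l1
  (TrL.c (I.pos (nat_lit 0) (nat_lit 0)) T0.l2
  (TrL.c (I.pos (nat_lit 0) (nat_lit 0)) T0.l3
  (TrL.c (I.pos (nat_lit 0) (nat_lit 0)) T0.l9
  (TrL.c (I.pos (nat_lit 0) (nat_lit 0)) T0.l5
  (TrL.c (I.pos (nat_lit 0) (nat_lit 0)) T0.l6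
  (TrL.c (I.pos (nat_lit 0) (nat_lit 0)) T0.l7
  TrL.n)))))))) (by decide +kernel)
theorem bx0_12 : BoxOK sI cl5 cl5 cl5 t0 t0 b0_12 :=
  box_mk (TrL.c (I.pos (nat_lit 0) (nat_lit 0)) T0.l10
  (TrL.c (I.pos (nat_lit 0) (nat_lit 0)) T0.l11
  (TrL.c (I.pos (nat_lit 0) (nat_lit 0)) T0.l12
  TrL.n))) (by decide +kernel)
theorem bx0_13 : BoxOK sI cl5 cl5 cl5 t0 t0 b0_13 :=
  box_mk (TrL.c (I.pos (nat_lit 0) (nat_lit 0)) (xa (xb T0.l0 (xa T0.l0 T0.l0)) (xb T0.l0 (xa T0.l0 T0.l0)))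
  (TrL.c (I.pos (nat_lit 0) (nat_lit 0)) (xb T0.l1 T0.l1)
  (TrL.c (I.pos (nat_lit 0) (nat_lit 0)) T0.l2
  (TrL.c (I.pos (nat_lit 0) (nat_lit 0)) T0.l3
  (TrL.c (I.pos (nat_lit 0) (nat_lit 0)) (xb T0.l4 T0.l4)
  (TrL.c (I.pos (nat_lit 0) (nat_lit 0)) T0.l5
  (TrL.c (I.pos (nat_lit 0) (nat_lit 0)) T0.l6
  (TrL.c (I.pos (nat_lit 0) (nat_lit 0)) T0.l7
  TrL.n)))))))) (by decide +kernel)
theorem bx0_14 : BoxOK sI cl5 cl5 cl5 t0 t0 b0_14 :=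
  box_mk (TrL.c (I.pos (nat_lit 0) (nat_lit 0)) (xa T0.l13 T0.l13)
  (TrL.c (I.pos (nat_lit 0) (nat_lit 0)) T0.l1
  (TrL.c (I.pos (nat_lit 0) (nat_lit 0)) T0.l2
  (TrL.c (I.pos (nat_lit 0) (nat_lit 0)) T0.l3
  (TrL.c (I.pos (nat_lit 0) (nat_lit 0)) T0.l14
  (TrL.c (I.pos (nat_lit 0) (nat_lit 0)) T0.l5
  (TrL.c (I.pos (nat_lit 0) (nat_lit 0)) T0.l6
  (TrL.c (I.pos (nat_lit 0) (nat_lit 0)) T0.l7
  TrL.n)))))))) (by decide +kernel)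
theorem sv0 : StarV sI cl5 cl5 cl5 t0 t0 t0 :=
  (bt_n (bt_n (bt_n (bt_b bx0_0) (bt_n (bt_b bx0_1) (bt_b bx0_2))) (bt_n (bt_n (bt_b bx0_3) (bt_b bx0_4)) (bt_n (bt_b bx0_5) (bt_b bx0_6)))) (bt_n (bt_n (bt_n (bt_b bx0_7) (bt_b bx0_8)) (bt_n (bt_b bx0_9) (bt_b bx0_10))) (bt_n (bt_n (bt_b bx0_11) (bt_b bx0_12)) (bt_n (bt_b bx0_13) (bt_b bx0_14)))))
def S0 : StarD := StarD.mk cl5 cl5 cl5 0 0 t0
def G : List StarD := [S0]
theorem so0 : StarOK sI G S0 :=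
  star_mk (by decide) (by decide) rfl rfl rfl rfl rfl rfl (rfl : _ = t0) (rfl : _ = t0)
  (st_mk (Pth.l (Pth.l (Pth.l Pth.z))) (nat_lit 249195244) (nat_lit 250697770) (by decide +kernel))
  (st_mk (Pth.l (Pth.l (Pth.l Pth.z))) (nat_lit 287710512) (nat_lit 289744027) (by decide +kernel))
  (st_mk (Pth.l (Pth.l (Pth.l Pth.z))) (nat_lit 332881288) (nat_lit 335655643) (by decide +kernel)) sv0
theorem ok : GroupOK (nat_lit 209321984) (nat_lit 268435456) G := grp_mk (allS_c so0 allS_n)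
theorem cov : GCov G cl5 cl5 cl5 := cov_mk
  ⟨0, by decide, rfl, rfl, rfl⟩ ⟨0, by decide, rfl, rfl, rfl⟩ ⟨0, by decide, rfl, rfl, rfl⟩ ⟨0, by decide, rfl, rfl, rfl⟩ ⟨0, by decide, rfl, rfl, rfl⟩ ⟨0, by decide, rfl, rfl, rfl⟩
end Q222_3

namespace Q223_0
def sI : I := I.pos (nat_lit 0) (nat_lit 91291648)
def b0_0 : Bx := Bx.mk (St.mk (I.pos (nat_lit 154255360) (nat_lit 271712256)) (I.mix (nat_lit 11010048) (nat_lit 85213184)) (I.mix (nat_lit 83771392) (nat_lit 105955328)) (I.pos (nat_lit 232292352) (nat_lit 431390720)) (I.mix (nat_lit 139116544) (nat_lit 104841216)) (I.mix (nat_lit 147144704) (nat_lit 91930624)) (I.mix (nat_lit 235126784) (nat_lit 135102464)))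
  false (nat_lit 0)
def b0_1 : Bx := Bx.mk (St.mk (I.pos (nat_lit 22003712) (nat_lit 69287936)) (I.mix (nat_lit 7110656) (nat_lit 52871168)) (I.mix (nat_lit 26509312) (nat_lit 1703936)) (I.pos (nat_lit 142704640) (nat_lit 162578432)) (I.mix (nat_lit 35291136) (nat_lit 50757632)) (I.mix (nat_lit 58425344) (nat_lit 38010880)) (I.mix (nat_lit 31653888) (nat_lit 19202048)))
  false (nat_lit 0)
def b0_2 : Bx := Bx.mk (St.mk (I.pos (nat_lit 54870016) (nat_lit 103137280)) (I.mix (nat_lit 71008256) (nat_lit 8437760)) (I.neg (nat_lit 17547264) (nat_lit 62832640)) (I.pos (nat_lit 153288704) (nat_lit 186269696)) (I.mix (nat_lit 93274112) (nat_lit 37699584)) (I.mix (nat_lit 58015744) (nat_lit 95371264)) (I.mix (nat_lit 41402368) (nat_lit 59899904)))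
  false (nat_lit 0)
def b0_3 : Bx := Bx.mk (St.mk (I.neg (nat_lit 22003712) (nat_lit 69287936)) (I.mix (nat_lit 52871168) (nat_lit 7045120)) (I.mix (nat_lit 26509312) (nat_lit 1703936)) (I.pos (nat_lit 142704640) (nat_lit 162578432)) (I.mix (nat_lit 50757632) (nat_lit 35291136)) (I.mix (nat_lit 38010880) (nat_lit 58425344)) (I.mix (nat_lit 31653888) (nat_lit 19202048)))
  true (nat_lit 0)
def b0_4 : Bx := Bx.mk (St.mk (I.pos (nat_lit 52379648) (nat_lit 68943872)) (I.mix (nat_lit 5996544) (nat_lit 14893056)) (I.neg (nat_lit 14237696) (nat_lit 25870336)) (I.pos (nat_lit 152879104) (nat_lit 162332672)) (I.mix (nat_lit 8044544) (nat_lit 15548416)) (I.mix (nat_lit 9371648) (nat_lit 5292032)) (I.mix (nat_lit 5849088) (nat_lit 3129344)))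
  false (nat_lit 0)
def b0_5 : Bx := Bx.mk (St.mk (I.pos (nat_lit 71090176) (nat_lit 155107328)) (I.neg (nat_lit 6127616) (nat_lit 80576512)) (I.neg (nat_lit 5603328) (nat_lit 75366400)) (I.pos (nat_lit 167215104) (nat_lit 234668032)) (I.mix (nat_lit 99549184) (nat_lit 70303744)) (I.mix (nat_lit 64159744) (nat_lit 97615872)) (I.mix (nat_lit 60620800) (nat_lit 89112576)))
  false (nat_lit 0)
def b0_6 : Bx := Bx.mk (St.mk (I.mix (nat_lit 40402944) (nat_lit 11321344)) (I.mix (nat_lit 48627712) (nat_lit 9945088)) (I.neg (nat_lit 2506752) (nat_lit 6864896)) (I.pos (nat_lit 142557184) (nat_lit 151814144)) (I.mix (nat_lit 31735808) (nat_lit 46809088)) (I.mix (nat_lit 36487168) (nat_lit 57409536)) (I.mix (nat_lit 6717440) (nat_lit 6815744)))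
  true (nat_lit 0)
def b0_7 : Bx := Bx.mk (St.mk (I.mix (nat_lit 11321344) (nat_lit 40402944)) (I.mix (nat_lit 13172736) (nat_lit 48807936)) (I.neg (nat_lit 2506752) (nat_lit 6864896)) (I.pos (nat_lit 142557184) (nat_lit 151814144)) (I.mix (nat_lit 46809088) (nat_lit 31735808)) (I.mix (nat_lit 57409536) (nat_lit 36487168)) (I.mix (nat_lit 6717440) (nat_lit 6815744)))
  false (nat_lit 0)
def b0_8 : Bx := Bx.mk (St.mk (I.pos (nat_lit 119504896) (nat_lit 208158720)) (I.mix (nat_lit 39419904) (nat_lit 82624512)) (I.mix (nat_lit 36962304) (nat_lit 100958208)) (I.pos (nat_lit 197050368) (nat_lit 301662208)) (I.mix (nat_lit 166559744) (nat_lit 74924032)) (I.mix (nat_lit 207716352) (nat_lit 115687424)) (I.mix (nat_lit 210108416) (nat_lit 125435904)))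
  false (nat_lit 0)
def t0 : BTr := (BTr.n (BTr.n (BTr.n (BTr.b b0_0) (BTr.b b0_1)) (BTr.n (BTr.b b0_2) (BTr.b b0_3))) (BTr.n (BTr.n (BTr.b b0_4) (BTr.b b0_5)) (BTr.n (BTr.b b0_6) (BTr.n (BTr.b b0_7) (BTr.b b0_8)))))
namespace T0
def l0 : Tr := Tr.L (Pth.l (Pth.l (Pth.l Pth.z)))
def l1 : Tr := Tr.L (Pth.l (Pth.l (Pth.r Pth.z)))
def l2 : Tr := Tr.L (Pth.l (Pth.r (Pth.l Pth.z)))
def l3 : Tr := Tr.L (Pth.l (Pth.r (Pth.r Pth.z)))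
def l4 : Tr := Tr.L (Pth.r (Pth.l (Pth.l Pth.z)))
def l5 : Tr := Tr.L (Pth.r (Pth.l (Pth.r Pth.z)))
def l6 : Tr := Tr.L (Pth.r (Pth.r (Pth.l Pth.z)))
def l7 : Tr := Tr.L (Pth.r (Pth.r (Pth.r (Pth.l Pth.z))))
def l8 : Tr := Tr.L (Pth.r (Pth.r (Pth.r (Pth.r Pth.z))))
end T0
def b1_0 : Bx := Bx.mk (St.mk (I.pos (nat_lit 152289280) (nat_lit 274612224)) (I.mix (nat_lit 12271616) (nat_lit 75628544)) (I.mix (nat_lit 39714816) (nat_lit 114196480)) (I.pos (nat_lit 178274304) (nat_lit 380895232)) (I.mix (nat_lit 157155328) (nat_lit 96403456)) (I.mix (nat_lit 145752064) (nat_lit 104349696)) (I.mix (nat_lit 193495040) (nat_lit 153026560)))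
  false (nat_lit 0)
def b1_1 : Bx := Bx.mk (St.mk (I.pos (nat_lit 89964544) (nat_lit 159399936)) (I.neg (nat_lit 5259264) (nat_lit 75005952)) (I.neg (nat_lit 4128768) (nat_lit 65503232)) (I.pos (nat_lit 131039232) (nat_lit 186744832)) (I.mix (nat_lit 102072320) (nat_lit 54706176)) (I.mix (nat_lit 59392000) (nat_lit 85245952)) (I.mix (nat_lit 51331072) (nat_lit 65830912)))
  false (nat_lit 0)
def b1_2 : Bx := Bx.mk (St.mk (I.mix (nat_lit 32784384) (nat_lit 99811328)) (I.mix (nat_lit 4227072) (nat_lit 43827200)) (I.mix (nat_lit 11141120) (nat_lit 18923520)) (I.pos (nat_lit 81428480) (nat_lit 125288448)) (I.mix (nat_lit 49610752) (nat_lit 42778624)) (I.mix (nat_lit 48889856) (nat_lit 44531712)) (I.mix (nat_lit 30212096) (nat_lit 28590080)))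
  false (nat_lit 0)
def b1_3 : Bx := Bx.mk (St.mk (I.mix (nat_lit 29999104) (nat_lit 45432832)) (I.mix (nat_lit 36945920) (nat_lit 4227072)) (I.mix (nat_lit 12173312) (nat_lit 1835008)) (I.pos (nat_lit 82526208) (nat_lit 100909056)) (I.mix (nat_lit 35356672) (nat_lit 32391168)) (I.mix (nat_lit 33554432) (nat_lit 36503552)) (I.mix (nat_lit 13877248) (nat_lit 13467648)))
  false (nat_lit 0)
def b1_4 : Bx := Bx.mk (St.mk (I.pos (nat_lit 139821056) (nat_lit 212566016)) (I.mix (nat_lit 35258368) (nat_lit 80297984)) (I.mix (nat_lit 27115520) (nat_lit 110297088)) (I.pos (nat_lit 165740544) (nat_lit 255655936)) (I.mix (nat_lit 183484416) (nat_lit 83017728)) (I.mix (nat_lit 222265344) (nat_lit 154337280)) (I.mix (nat_lit 223248384) (nat_lit 152076288)))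
  false (nat_lit 0)
def b1_5 : Bx := Bx.mk (St.mk (I.pos (nat_lit 80822272) (nat_lit 126418944)) (I.mix (nat_lit 66125824) (nat_lit 5980160)) (I.neg (nat_lit 4718592) (nat_lit 55279616)) (I.pos (nat_lit 114507776) (nat_lit 151109632)) (I.mix (nat_lit 97796096) (nat_lit 43728896)) (I.mix (nat_lit 73875456) (nat_lit 104136704)) (I.mix (nat_lit 53264384) (nat_lit 71286784)))
  false (nat_lit 0)
def b1_6 : Bx := Bx.mk (St.mk (I.mix (nat_lit 51544064) (nat_lit 76267520)) (I.mix (nat_lit 7569408) (nat_lit 36618240)) (I.mix (nat_lit 12091392) (nat_lit 13549568)) (I.pos (nat_lit 82771968) (nat_lit 110886912)) (I.mix (nat_lit 40075264) (nat_lit 35373056)) (I.mix (nat_lit 45629440) (nat_lit 33570816)) (I.mix (nat_lit 16498688) (nat_lit 16662528)))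
  false (nat_lit 0)
def b1_7 : Bx := Bx.mk (St.mk (I.mix (nat_lit 49004544) (nat_lit 29605888)) (I.mix (nat_lit 37011456) (nat_lit 3801088)) (I.mix (nat_lit 8830976) (nat_lit 4046848)) (I.pos (nat_lit 82706432) (nat_lit 100728832)) (I.mix (nat_lit 36159488) (nat_lit 31457280)) (I.mix (nat_lit 33734656) (nat_lit 36601856)) (I.mix (nat_lit 14057472) (nat_lit 12271616)))
  false (nat_lit 0)
def b1_8 : Bx := Bx.mk (St.mk (I.pos (nat_lit 142114816) (nat_lit 155860992)) (I.neg (nat_lit 17989632) (nat_lit 37453824)) (I.neg (nat_lit 9469952) (nat_lit 30326784)) (I.pos (nat_lit 170442752) (nat_lit 183255040)) (I.mix (nat_lit 18087936) (nat_lit 12910592)) (I.mix (nat_lit 8470528) (nat_lit 9191424)) (I.mix (nat_lit 8470528) (nat_lit 9420800)))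
  false (nat_lit 0)
def b1_9 : Bx := Bx.mk (St.mk (I.pos (nat_lit 83394560) (nat_lit 91144192)) (I.mix (nat_lit 1818624) (nat_lit 10436608)) (I.neg (nat_lit 2015232) (nat_lit 10174464)) (I.pos (nat_lit 116867072) (nat_lit 122241024)) (I.mix (nat_lit 5767168) (nat_lit 10764288)) (I.mix (nat_lit 6520832) (nat_lit 3833856)) (I.mix (nat_lit 5079040) (nat_lit 2424832)))
  false (nat_lit 0)
def b1_10 : Bx := Bx.mk (St.mk (I.mix (nat_lit 54624256) (nat_lit 53690368)) (I.mix (nat_lit 15302656) (nat_lit 4669440)) (I.mix (nat_lit 4456448) (nat_lit 4046848)) (I.pos (nat_lit 87949312) (nat_lit 100548608)) (I.mix (nat_lit 10829824) (nat_lit 13107200)) (I.mix (nat_lit 10518528) (nat_lit 10878976)) (I.mix (nat_lit 4374528) (nat_lit 4128768)))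
  false (nat_lit 0)
def b1_11 : Bx := Bx.mk (St.mk (I.mix (nat_lit 51494912) (nat_lit 6963200)) (I.mix (nat_lit 1490944) (nat_lit 13172736)) (I.neg (nat_lit 5947392) (nat_lit 11714560)) (I.pos (nat_lit 89145344) (nat_lit 100401152)) (I.mix (nat_lit 5636096) (nat_lit 11403264)) (I.mix (nat_lit 6307840) (nat_lit 5226496)) (I.mix (nat_lit 2375680) (nat_lit 2572288)))
  false (nat_lit 0)
def t1 : BTr := (BTr.n (BTr.n (BTr.n (BTr.b b1_0) (BTr.n (BTr.b b1_1) (BTr.b b1_2))) (BTr.n (BTr.b b1_3) (BTr.n (BTr.b b1_4) (BTr.b b1_5)))) (BTr.n (BTr.n (BTr.b b1_6) (BTr.n (BTr.b b1_7) (BTr.b b1_8))) (BTr.n (BTr.b b1_9) (BTr.n (BTr.b b1_10) (BTr.b b1_11)))))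
namespace T1
def l0 : Tr := Tr.L (Pth.l (Pth.l (Pth.l Pth.z)))
def l1 : Tr := Tr.L (Pth.l (Pth.l (Pth.r (Pth.l Pth.z))))
def l2 : Tr := Tr.L (Pth.l (Pth.l (Pth.r (Pth.r Pth.z))))
def l3 : Tr := Tr.L (Pth.l (Pth.r (Pth.l Pth.z)))
def l4 : Tr := Tr.L (Pth.l (Pth.r (Pth.r (Pth.l Pth.z))))
def l5 : Tr := Tr.L (Pth.l (Pth.r (Pth.r (Pth.r Pth.z))))
def l6 : Tr := Tr.L (Pth.r (Pth.l (Pth.l Pth.z)))
def l7 : Tr := Tr.L (Pth.r (Pth.l (Pth.r (Pth.l Pth.z))))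
def l8 : Tr := Tr.L (Pth.r (Pth.l (Pth.r (Pth.r Pth.z))))
def l9 : Tr := Tr.L (Pth.r (Pth.r (Pth.l Pth.z)))
def l10 : Tr := Tr.L (Pth.r (Pth.r (Pth.r (Pth.l Pth.z))))
def l11 : Tr := Tr.L (Pth.r (Pth.r (Pth.r (Pth.r Pth.z))))
end T1
def b2_0 : Bx := Bx.mk (St.mk (I.pos (nat_lit 147619840) (nat_lit 287375360)) (I.mix (nat_lit 38076416) (nat_lit 85983232)) (I.mix (nat_lit 107970560) (nat_lit 126074880)) (I.pos (nat_lit 229048320) (nat_lit 460767232)) (I.mix (nat_lit 147734528) (nat_lit 129384448)) (I.mix (nat_lit 163823616) (nat_lit 131006464)) (I.mix (nat_lit 241549312) (nat_lit 174817280)))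
  false (nat_lit 48004874)
def b2_1 : Bx := Bx.mk (St.mk (I.pos (nat_lit 78135296) (nat_lit 148127744)) (I.neg (nat_lit 11223040) (nat_lit 79233024)) (I.mix (nat_lit 61669376) (nat_lit 2359296)) (I.pos (nat_lit 171261952) (nat_lit 226279424)) (I.mix (nat_lit 91275264) (nat_lit 62636032)) (I.mix (nat_lit 54575104) (nat_lit 86392832)) (I.mix (nat_lit 50184192) (nat_lit 76562432)))
  false (nat_lit 0)
def b2_2 : Bx := Bx.mk (St.mk (I.mix (nat_lit 35880960) (nat_lit 5652480)) (I.mix (nat_lit 46776320) (nat_lit 5685248)) (I.pos (nat_lit 3096576) (nat_lit 7520256)) (I.pos (nat_lit 142000128) (nat_lit 150241280)) (I.mix (nat_lit 26951680) (nat_lit 42434560)) (I.mix (nat_lit 31981568) (nat_lit 50266112)) (I.mix (nat_lit 7323648) (nat_lit 6307840)))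
  true (nat_lit 0)
def b2_3 : Bx := Bx.mk (St.mk (I.pos (nat_lit 129482752) (nat_lit 202637312)) (I.mix (nat_lit 33259520) (nat_lit 79839232)) (I.mix (nat_lit 15777792) (nat_lit 115474432)) (I.pos (nat_lit 208093184) (nat_lit 292487168)) (I.mix (nat_lit 162807808) (nat_lit 71024640)) (I.mix (nat_lit 190906368) (nat_lit 113082368)) (I.mix (nat_lit 198705152) (nat_lit 118554624)))
  false (nat_lit 0)
def b2_4 : Bx := Bx.mk (St.mk (I.mix (nat_lit 5652480) (nat_lit 35880960)) (I.mix (nat_lit 5685248) (nat_lit 46776320)) (I.pos (nat_lit 3096576) (nat_lit 7520256)) (I.pos (nat_lit 142000128) (nat_lit 150241280)) (I.mix (nat_lit 42434560) (nat_lit 26951680)) (I.mix (nat_lit 50266112) (nat_lit 31981568)) (I.mix (nat_lit 7323648) (nat_lit 6307840)))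
  false (nat_lit 0)
def b2_5 : Bx := Bx.mk (St.mk (I.pos (nat_lit 123355136) (nat_lit 146800640)) (I.neg (nat_lit 15761408) (nat_lit 45842432)) (I.mix (nat_lit 29310976) (nat_lit 2490368)) (I.pos (nat_lit 203620352) (nat_lit 225492992)) (I.mix (nat_lit 16187392) (nat_lit 15007744)) (I.mix (nat_lit 12042240) (nat_lit 10682368)) (I.mix (nat_lit 12058624) (nat_lit 10616832)))
  false (nat_lit 0)
def b2_6 : Bx := Bx.mk (St.mk (I.pos (nat_lit 17793024) (nat_lit 75563008)) (I.mix (nat_lit 11649024) (nat_lit 52723712)) (I.mix (nat_lit 17645568) (nat_lit 12009472)) (I.pos (nat_lit 142262272) (nat_lit 164757504)) (I.mix (nat_lit 40206336) (nat_lit 53248000)) (I.mix (nat_lit 63553536) (nat_lit 43024384)) (I.mix (nat_lit 33587200) (nat_lit 22249472)))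
  false (nat_lit 0)
def b2_7 : Bx := Bx.mk (St.mk (I.pos (nat_lit 48267264) (nat_lit 108232704)) (I.mix (nat_lit 73351168) (nat_lit 13271040)) (I.neg (nat_lit 4784128) (nat_lit 51757056)) (I.pos (nat_lit 150175744) (nat_lit 189300736)) (I.mix (nat_lit 93962240) (nat_lit 40681472)) (I.mix (nat_lit 60194816) (nat_lit 104185856)) (I.mix (nat_lit 43040768) (nat_lit 59146240)))
  false (nat_lit 0)
def b2_8 : Bx := Bx.mk (St.mk (I.neg (nat_lit 17793024) (nat_lit 75563008)) (I.mix (nat_lit 52658176) (nat_lit 15253504)) (I.mix (nat_lit 19218432) (nat_lit 11976704)) (I.pos (nat_lit 142262272) (nat_lit 164757504)) (I.mix (nat_lit 53248000) (nat_lit 40206336)) (I.mix (nat_lit 43040768) (nat_lit 63553536)) (I.mix (nat_lit 33603584) (nat_lit 22249472)))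
  true (nat_lit 0)
def b2_9 : Bx := Bx.mk (St.mk (I.mix (nat_lit 5652480) (nat_lit 3899392)) (I.mix (nat_lit 11026432) (nat_lit 3080192)) (I.pos (nat_lit 4227072) (nat_lit 5537792)) (I.pos (nat_lit 142360576) (nat_lit 144506880)) (I.mix (nat_lit 4472832) (nat_lit 11616256)) (I.mix (nat_lit 3489792) (nat_lit 5062656)) (I.mix (nat_lit 655360) (nat_lit 819200)))
  true (nat_lit 0)
def t2 : BTr := (BTr.n (BTr.n (BTr.n (BTr.b b2_0) (BTr.b b2_1)) (BTr.n (BTr.b b2_2) (BTr.n (BTr.b b2_3) (BTr.b b2_4)))) (BTr.n (BTr.n (BTr.b b2_5) (BTr.b b2_6)) (BTr.n (BTr.b b2_7) (BTr.n (BTr.b b2_8) (BTr.b b2_9)))))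
namespace T2
def l0 : Tr := Tr.L (Pth.l (Pth.l (Pth.l Pth.z)))
def l1 : Tr := Tr.L (Pth.l (Pth.l (Pth.r Pth.z)))
def l2 : Tr := Tr.L (Pth.l (Pth.r (Pth.l Pth.z)))
def l3 : Tr := Tr.L (Pth.l (Pth.r (Pth.r (Pth.l Pth.z))))
def l4 : Tr := Tr.L (Pth.l (Pth.r (Pth.r (Pth.r Pth.z))))
def l5 : Tr := Tr.L (Pth.r (Pth.l (Pth.l Pth.z)))
def l6 : Tr := Tr.L (Pth.r (Pth.l (Pth.r Pth.z)))
def l7 : Tr := Tr.L (Pth.r (Pth.r (Pth.l Pth.z)))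
def l8 : Tr := Tr.L (Pth.r (Pth.r (Pth.r (Pth.l Pth.z))))
def l9 : Tr := Tr.L (Pth.r (Pth.r (Pth.r (Pth.r Pth.z))))
end T2
theorem bx0_0 : BoxOK sI cl5 cl5 cl6 t0 t2 b0_0 :=
  box_mk (TrL.c (I.pos (nat_lit 0) (nat_lit 0)) (xa T0.l0 T0.l0)
  (TrL.c (I.pos (nat_lit 0) (nat_lit 0)) T2.l1
  (TrL.c (I.pos (nat_lit 0) (nat_lit 0)) T0.l1
  (TrL.c (I.pos (nat_lit 0) (nat_lit 0)) T2.l2
  (TrL.c (I.pos (nat_lit 0) (nat_lit 0)) (xa T2.l3 T2.l3)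
  (TrL.c (I.pos (nat_lit 0) (nat_lit 0)) T0.l2
  (TrL.c (I.pos (nat_lit 0) (nat_lit 0)) T2.l4
  (TrL.c (I.pos (nat_lit 0) (nat_lit 0)) T0.l3
  TrL.n)))))))) (by decide +kernel)
theorem bx0_1 : BoxOK sI cl5 cl5 cl6 t0 t2 b0_1 :=
  box_mk (TrL.c (I.pos (nat_lit 0) (nat_lit 0)) T0.l0
  (TrL.c (I.pos (nat_lit 0) (nat_lit 0)) T2.l1
  (TrL.c (I.pos (nat_lit 0) (nat_lit 0)) T0.l1
  (TrL.c (I.pos (nat_lit 0) (nat_lit 0)) T2.l2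
  (TrL.c (I.pos (nat_lit 0) (nat_lit 0)) T2.l3
  (TrL.c (I.pos (nat_lit 0) (nat_lit 0)) T0.l2
  (TrL.c (I.pos (nat_lit 0) (nat_lit 0)) T2.l4
  (TrL.c (I.pos (nat_lit 0) (nat_lit 0)) T0.l3
  TrL.n)))))))) (by decide +kernel)
theorem bx0_2 : BoxOK sI cl5 cl5 cl6 t0 t2 b0_2 :=
  box_mk (TrL.c (I.pos (nat_lit 0) (nat_lit 0)) T0.l0
  (TrL.c (I.pos (nat_lit 0) (nat_lit 0)) T2.l1
  (TrL.c (I.pos (nat_lit 0) (nat_lit 0)) T0.l1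
  (TrL.c (I.pos (nat_lit 0) (nat_lit 0)) T2.l2
  (TrL.c (I.pos (nat_lit 0) (nat_lit 0)) T2.l3
  (TrL.c (I.pos (nat_lit 0) (nat_lit 0)) T0.l2
  (TrL.c (I.pos (nat_lit 0) (nat_lit 0)) T2.l4
  (TrL.c (I.pos (nat_lit 0) (nat_lit 0)) T0.l3
  TrL.n)))))))) (by decide +kernel)
theorem bx0_3 : BoxOK sI cl5 cl5 cl6 t0 t2 b0_3 :=
  box_mk (TrL.c (I.pos (nat_lit 0) (nat_lit 0)) T2.l1
  (TrL.c (I.pos (nat_lit 0) (nat_lit 0)) T0.l1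
  (TrL.c (I.pos (nat_lit 0) (nat_lit 0)) T2.l2
  TrL.n))) (by decide +kernel)
theorem bx0_4 : BoxOK sI cl5 cl5 cl6 t0 t2 b0_4 :=
  box_mk (TrL.c (I.pos (nat_lit 0) (nat_lit 0)) T0.l0
  (TrL.c (I.pos (nat_lit 0) (nat_lit 0)) T2.l1
  (TrL.c (I.pos (nat_lit 0) (nat_lit 0)) T0.l1
  (TrL.c (I.pos (nat_lit 0) (nat_lit 0)) T2.l2
  (TrL.c (I.pos (nat_lit 0) (nat_lit 0)) T2.l3
  (TrL.c (I.pos (nat_lit 0) (nat_lit 0)) T0.l2
  (TrL.c (I.pos (nat_lit 0) (nat_lit 0)) T2.l4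
  (TrL.c (I.pos (nat_lit 0) (nat_lit 0)) T0.l3
  TrL.n)))))))) (by decide +kernel)
theorem bx0_5 : BoxOK sI cl5 cl5 cl6 t0 t2 b0_5 :=
  box_mk (TrL.c (I.pos (nat_lit 0) (nat_lit 0)) T0.l0
  (TrL.c (I.pos (nat_lit 0) (nat_lit 0)) T2.l1
  (TrL.c (I.pos (nat_lit 0) (nat_lit 0)) T0.l1
  (TrL.c (I.pos (nat_lit 0) (nat_lit 0)) T2.l2
  (TrL.c (I.pos (nat_lit 0) (nat_lit 0)) T2.l3
  (TrL.c (I.pos (nat_lit 0) (nat_lit 0)) T0.l2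
  (TrL.c (I.pos (nat_lit 0) (nat_lit 0)) T2.l4
  (TrL.c (I.pos (nat_lit 0) (nat_lit 0)) T0.l3
  TrL.n)))))))) (by decide +kernel)
theorem bx0_6 : BoxOK sI cl5 cl5 cl6 t0 t2 b0_6 :=
  box_mk (TrL.c (I.pos (nat_lit 0) (nat_lit 0)) T2.l1
  (TrL.c (I.pos (nat_lit 0) (nat_lit 0)) T0.l1
  (TrL.c (I.pos (nat_lit 0) (nat_lit 0)) T2.l2
  TrL.n))) (by decide +kernel)
theorem bx0_7 : BoxOK sI cl5 cl5 cl6 t0 t2 b0_7 :=
  box_mk (TrL.c (I.pos (nat_lit 0) (nat_lit 0)) T0.l0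
  (TrL.c (I.pos (nat_lit 0) (nat_lit 0)) T2.l1
  (TrL.c (I.pos (nat_lit 0) (nat_lit 0)) T0.l1
  (TrL.c (I.pos (nat_lit 0) (nat_lit 0)) T2.l2
  (TrL.c (I.pos (nat_lit 0) (nat_lit 0)) T2.l3
  (TrL.c (I.pos (nat_lit 0) (nat_lit 0)) T0.l2
  (TrL.c (I.pos (nat_lit 0) (nat_lit 0)) T2.l4
  (TrL.c (I.pos (nat_lit 0) (nat_lit 0)) T0.l3
  TrL.n)))))))) (by decide +kernel)
theorem bx0_8 : BoxOK sI cl5 cl5 cl6 t0 t2 b0_8 :=
  box_mk (TrL.c (I.pos (nat_lit 0) (nat_lit 0)) (xa T0.l0 T0.l0)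
  (TrL.c (I.pos (nat_lit 0) (nat_lit 0)) T2.l1
  (TrL.c (I.pos (nat_lit 0) (nat_lit 0)) T0.l1
  (TrL.c (I.pos (nat_lit 0) (nat_lit 0)) T2.l2
  (TrL.c (I.pos (nat_lit 0) (nat_lit 0)) T2.l3
  (TrL.c (I.pos (nat_lit 0) (nat_lit 0)) T0.l2
  (TrL.c (I.pos (nat_lit 0) (nat_lit 0)) T2.l4
  (TrL.c (I.pos (nat_lit 0) (nat_lit 0)) T0.l3
  TrL.n)))))))) (by decide +kernel)
theorem sv0 : StarV sI cl5 cl5 cl6 t0 t2 t0 :=
  (bt_n (bt_n (bt_n (bt_b bx0_0) (bt_b bx0_1)) (bt_n (bt_b bx0_2) (bt_b bx0_3))) (bt_n (bt_n (bt_b bx0_4) (bt_b bx0_5)) (bt_n (bt_b bx0_6) (bt_n (bt_b bx0_7) (bt_b bx0_8)))))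
def S0 : StarD := StarD.mk cl5 cl5 cl6 0 2 t0
theorem bx1_0 : BoxOK sI cl5 cl6 cl5 t2 t0 b1_0 :=
  box_mk (TrL.c (I.pos (nat_lit 0) (nat_lit 0)) (xa T2.l0 T2.l0)
  (TrL.c (I.pos (nat_lit 0) (nat_lit 0)) T0.l5
  (TrL.c (I.pos (nat_lit 0) (nat_lit 0)) T2.l6
  (TrL.c (I.pos (nat_lit 0) (nat_lit 0)) T0.l6
  (TrL.c (I.pos (nat_lit 0) (nat_lit 0)) (xa T0.l8 T0.l8)
  (TrL.c (I.pos (nat_lit 0) (nat_lit 0)) T2.l7
  (TrL.c (I.pos (nat_lit 0) (nat_lit 0)) T0.l7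
  (TrL.c (I.pos (nat_lit 0) (nat_lit 0)) T2.l8
  TrL.n)))))))) (by decide +kernel)
theorem bx1_1 : BoxOK sI cl5 cl6 cl5 t2 t0 b1_1 :=
  box_mk (TrL.c (I.pos (nat_lit 0) (nat_lit 0)) T2.l0
  (TrL.c (I.pos (nat_lit 0) (nat_lit 0)) T0.l5
  (TrL.c (I.pos (nat_lit 0) (nat_lit 0)) T2.l6
  (TrL.c (I.pos (nat_lit 0) (nat_lit 0)) T0.l6
  (TrL.c (I.pos (nat_lit 0) (nat_lit 0)) T0.l8
  (TrL.c (I.pos (nat_lit 0) (nat_lit 0)) T2.l7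
  (TrL.c (I.pos (nat_lit 0) (nat_lit 0)) T0.l7
  (TrL.c (I.pos (nat_lit 0) (nat_lit 0)) T2.l8
  TrL.n)))))))) (by decide +kernel)
theorem bx1_2 : BoxOK sI cl5 cl6 cl5 t2 t0 b1_2 :=
  box_mk (TrL.c (I.pos (nat_lit 0) (nat_lit 0)) T2.l0
  (TrL.c (I.pos (nat_lit 0) (nat_lit 0)) T0.l5
  (TrL.c (I.pos (nat_lit 0) (nat_lit 0)) T2.l6
  (TrL.c (I.pos (nat_lit 0) (nat_lit 0)) T0.l6
  (TrL.c (I.pos (nat_lit 0) (nat_lit 0)) T0.l8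
  (TrL.c (I.pos (nat_lit 0) (nat_lit 0)) T2.l7
  (TrL.c (I.pos (nat_lit 0) (nat_lit 0)) T0.l7
  (TrL.c (I.pos (nat_lit 0) (nat_lit 0)) T2.l8
  TrL.n)))))))) (by decide +kernel)
theorem bx1_3 : BoxOK sI cl5 cl6 cl5 t2 t0 b1_3 :=
  box_mk (TrL.c (I.pos (nat_lit 0) (nat_lit 0)) T2.l0
  (TrL.c (I.pos (nat_lit 0) (nat_lit 0)) T0.l5
  (TrL.c (I.pos (nat_lit 0) (nat_lit 0)) T2.l6
  (TrL.c (I.pos (nat_lit 0) (nat_lit 0)) T0.l6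
  (TrL.c (I.pos (nat_lit 0) (nat_lit 0)) T0.l5
  (TrL.c (I.pos (nat_lit 0) (nat_lit 0)) T2.l7
  (TrL.c (I.pos (nat_lit 0) (nat_lit 0)) T0.l7
  (TrL.c (I.pos (nat_lit 0) (nat_lit 0)) T2.l8
  TrL.n)))))))) (by decide +kernel)
theorem bx1_4 : BoxOK sI cl5 cl6 cl5 t2 t0 b1_4 :=
  box_mk (TrL.c (I.pos (nat_lit 0) (nat_lit 0)) (xb T2.l0 T2.l0)
  (TrL.c (I.pos (nat_lit 0) (nat_lit 0)) T0.l5
  (TrL.c (I.pos (nat_lit 0) (nat_lit 0)) T2.l6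
  (TrL.c (I.pos (nat_lit 0) (nat_lit 0)) T0.l6
  (TrL.c (I.pos (nat_lit 0) (nat_lit 0)) T0.l8
  (TrL.c (I.pos (nat_lit 0) (nat_lit 0)) T2.l7
  (TrL.c (I.pos (nat_lit 0) (nat_lit 0)) T0.l7
  (TrL.c (I.pos (nat_lit 0) (nat_lit 0)) T2.l8
  TrL.n)))))))) (by decide +kernel)
theorem bx1_5 : BoxOK sI cl5 cl6 cl5 t2 t0 b1_5 :=
  box_mk (TrL.c (I.pos (nat_lit 0) (nat_lit 0)) T2.l0
  (TrL.c (I.pos (nat_lit 0) (nat_lit 0)) T0.l5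
  (TrL.c (I.pos (nat_lit 0) (nat_lit 0)) T2.l6
  (TrL.c (I.pos (nat_lit 0) (nat_lit 0)) T0.l6
  (TrL.c (I.pos (nat_lit 0) (nat_lit 0)) T0.l8
  (TrL.c (I.pos (nat_lit 0) (nat_lit 0)) T2.l7
  (TrL.c (I.pos (nat_lit 0) (nat_lit 0)) T0.l7
  (TrL.c (I.pos (nat_lit 0) (nat_lit 0)) T2.l8
  TrL.n)))))))) (by decide +kernel)
theorem bx1_6 : BoxOK sI cl5 cl6 cl5 t2 t0 b1_6 :=
  box_mk (TrL.c (I.pos (nat_lit 0) (nat_lit 0)) (xa T2.l0 T2.l0)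
  (TrL.c (I.pos (nat_lit 0) (nat_lit 0)) T0.l5
  (TrL.c (I.pos (nat_lit 0) (nat_lit 0)) T2.l6
  (TrL.c (I.pos (nat_lit 0) (nat_lit 0)) T0.l6
  (TrL.c (I.pos (nat_lit 0) (nat_lit 0)) T0.l8
  (TrL.c (I.pos (nat_lit 0) (nat_lit 0)) T2.l7
  (TrL.c (I.pos (nat_lit 0) (nat_lit 0)) T0.l7
  (TrL.c (I.pos (nat_lit 0) (nat_lit 0)) T2.l8
  TrL.n)))))))) (by decide +kernel)
theorem bx1_7 : BoxOK sI cl5 cl6 cl5 t2 t0 b1_7 :=
  box_mk (TrL.c (I.pos (nat_lit 0) (nat_lit 0)) (xa T2.l0 T2.l0)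
  (TrL.c (I.pos (nat_lit 0) (nat_lit 0)) T0.l8
  (TrL.c (I.pos (nat_lit 0) (nat_lit 0)) T2.l7
  (TrL.c (I.pos (nat_lit 0) (nat_lit 0)) T0.l7
  (TrL.c (I.pos (nat_lit 0) (nat_lit 0)) T0.l5
  (TrL.c (I.pos (nat_lit 0) (nat_lit 0)) T2.l7
  (TrL.c (I.pos (nat_lit 0) (nat_lit 0)) T0.l7
  (TrL.c (I.pos (nat_lit 0) (nat_lit 0)) T2.l8
  TrL.n)))))))) (by decide +kernel)
theorem bx1_8 : BoxOK sI cl5 cl6 cl5 t2 t0 b1_8 :=
  box_mk (TrL.c (I.pos (nat_lit 0) (nat_lit 0)) T2.l0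
  (TrL.c (I.pos (nat_lit 0) (nat_lit 0)) T0.l5
  (TrL.c (I.pos (nat_lit 0) (nat_lit 0)) T2.l6
  (TrL.c (I.pos (nat_lit 0) (nat_lit 0)) T0.l6
  (TrL.c (I.pos (nat_lit 0) (nat_lit 0)) T0.l8
  (TrL.c (I.pos (nat_lit 0) (nat_lit 0)) T2.l7
  (TrL.c (I.pos (nat_lit 0) (nat_lit 0)) T0.l7
  (TrL.c (I.pos (nat_lit 0) (nat_lit 0)) T2.l8
  TrL.n)))))))) (by decide +kernel)
theorem bx1_9 : BoxOK sI cl5 cl6 cl5 t2 t0 b1_9 :=
  box_mk (TrL.c (I.pos (nat_lit 0) (nat_lit 0)) T2.l0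
  (TrL.c (I.pos (nat_lit 0) (nat_lit 0)) T0.l5
  (TrL.c (I.pos (nat_lit 0) (nat_lit 0)) T2.l6
  (TrL.c (I.pos (nat_lit 0) (nat_lit 0)) T0.l6
  (TrL.c (I.pos (nat_lit 0) (nat_lit 0)) T0.l8
  (TrL.c (I.pos (nat_lit 0) (nat_lit 0)) T2.l7
  (TrL.c (I.pos (nat_lit 0) (nat_lit 0)) T0.l7
  (TrL.c (I.pos (nat_lit 0) (nat_lit 0)) T2.l8
  TrL.n)))))))) (by decide +kernel)
theorem bx1_10 : BoxOK sI cl5 cl6 cl5 t2 t0 b1_10 :=
  box_mk (TrL.c (I.pos (nat_lit 0) (nat_lit 0)) T2.l0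
  (TrL.c (I.pos (nat_lit 0) (nat_lit 0)) T0.l8
  (TrL.c (I.pos (nat_lit 0) (nat_lit 0)) T2.l6
  (TrL.c (I.pos (nat_lit 0) (nat_lit 0)) T0.l6
  (TrL.c (I.pos (nat_lit 0) (nat_lit 0)) T0.l5
  (TrL.c (I.pos (nat_lit 0) (nat_lit 0)) T2.l7
  (TrL.c (I.pos (nat_lit 0) (nat_lit 0)) T0.l7
  (TrL.c (I.pos (nat_lit 0) (nat_lit 0)) T2.l8
  TrL.n)))))))) (by decide +kernel)
theorem bx1_11 : BoxOK sI cl5 cl6 cl5 t2 t0 b1_11 :=
  box_mk (TrL.c (I.pos (nat_lit 0) (nat_lit 0)) T2.l0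
  (TrL.c (I.pos (nat_lit 0) (nat_lit 0)) T0.l5
  (TrL.c (I.pos (nat_lit 0) (nat_lit 0)) T2.l6
  (TrL.c (I.pos (nat_lit 0) (nat_lit 0)) T0.l6
  (TrL.c (I.pos (nat_lit 0) (nat_lit 0)) T0.l8
  (TrL.c (I.pos (nat_lit 0) (nat_lit 0)) T2.l7
  (TrL.c (I.pos (nat_lit 0) (nat_lit 0)) T0.l7
  (TrL.c (I.pos (nat_lit 0) (nat_lit 0)) T2.l8
  TrL.n)))))))) (by decide +kernel)
theorem sv1 : StarV sI cl5 cl6 cl5 t2 t0 t1 :=
  (bt_n (bt_n (bt_n (bt_b bx1_0) (bt_n (bt_b bx1_1) (bt_b bx1_2))) (bt_n (bt_b bx1_3) (bt_n (bt_b bx1_4) (bt_b bx1_5)))) (bt_n (bt_n (bt_b bx1_6) (bt_n (bt_b bx1_7) (bt_b bx1_8))) (bt_n (bt_b bx1_9) (bt_n (bt_b bx1_10) (bt_b bx1_11)))))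
def S1 : StarD := StarD.mk cl5 cl6 cl5 2 0 t1
theorem bx2_0 : BoxOK sI cl6 cl5 cl5 t1 t1 b2_0 :=
  box_mk (TrL.c (I.pos (nat_lit 0) (nat_lit 0)) (xa (xb T1.l0 T1.l0) T1.l0)
  (TrL.c (I.pos (nat_lit 0) (nat_lit 0)) T1.l1
  (TrL.c (I.pos (nat_lit 0) (nat_lit 89480386)) (xR T1.l2 T1.l2)
  (TrL.c (I.pos (nat_lit 0) (nat_lit 41530880)) T1.l3
  (TrL.c (I.pos (nat_lit 0) (nat_lit 0)) (xa T1.l4 T1.l4)
  (TrL.c (I.pos (nat_lit 0) (nat_lit 0)) T1.l5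
  (TrL.c (I.mix (nat_lit 41527258) (nat_lit 41530880)) (xR T1.l6 T1.l2)
  (TrL.c (I.mix (nat_lit 41527258) (nat_lit 4274)) T1.l7
  TrL.n)))))))) (by decide +kernel)
theorem bx2_1 : BoxOK sI cl6 cl5 cl5 t1 t1 b2_1 :=
  box_mk (TrL.c (I.pos (nat_lit 0) (nat_lit 0)) T1.l0
  (TrL.c (I.pos (nat_lit 0) (nat_lit 0)) T1.l1
  (TrL.c (I.pos (nat_lit 0) (nat_lit 89480386)) T1.l2
  (TrL.c (I.pos (nat_lit 0) (nat_lit 41530880)) T1.l3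
  (TrL.c (I.pos (nat_lit 0) (nat_lit 0)) T1.l4
  (TrL.c (I.pos (nat_lit 0) (nat_lit 0)) T1.l5
  (TrL.c (I.mix (nat_lit 41527258) (nat_lit 41530880)) T1.l6
  (TrL.c (I.mix (nat_lit 41527258) (nat_lit 4274)) T1.l7
  TrL.n)))))))) (by decide +kernel)
theorem bx2_2 : BoxOK sI cl6 cl5 cl5 t1 t1 b2_2 :=
  box_mk (TrL.c (I.pos (nat_lit 0) (nat_lit 0)) T1.l1
  (TrL.c (I.pos (nat_lit 0) (nat_lit 0)) T1.l2
  (TrL.c (I.mix (nat_lit 41527258) (nat_lit 41530880)) T1.l10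
  (TrL.c (I.mix (nat_lit 41527258) (nat_lit 4274)) T1.l6
  TrL.n)))) (by decide +kernel)
theorem bx2_3 : BoxOK sI cl6 cl5 cl5 t1 t1 b2_3 :=
  box_mk (TrL.c (I.pos (nat_lit 0) (nat_lit 0)) (xb T1.l0 T1.l0)
  (TrL.c (I.pos (nat_lit 0) (nat_lit 0)) T1.l1
  (TrL.c (I.pos (nat_lit 0) (nat_lit 89480386)) (xR T1.l2 T1.l2)
  (TrL.c (I.pos (nat_lit 0) (nat_lit 41530880)) T1.l3
  (TrL.c (I.pos (nat_lit 0) (nat_lit 0)) T1.l4
  (TrL.c (I.pos (nat_lit 0) (nat_lit 0)) T1.l5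
  (TrL.c (I.mix (nat_lit 41527258) (nat_lit 41530880)) T1.l6
  (TrL.c (I.mix (nat_lit 41527258) (nat_lit 4274)) T1.l7
  TrL.n)))))))) (by decide +kernel)
theorem bx2_4 : BoxOK sI cl6 cl5 cl5 t1 t1 b2_4 :=
  box_mk (TrL.c (I.pos (nat_lit 0) (nat_lit 0)) T1.l0
  (TrL.c (I.pos (nat_lit 0) (nat_lit 0)) T1.l1
  (TrL.c (I.pos (nat_lit 0) (nat_lit 89480386)) T1.l2
  (TrL.c (I.pos (nat_lit 0) (nat_lit 41530880)) T1.l3
  (TrL.c (I.pos (nat_lit 0) (nat_lit 0)) T1.l4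
  (TrL.c (I.pos (nat_lit 0) (nat_lit 0)) T1.l5
  (TrL.c (I.mix (nat_lit 41527258) (nat_lit 41530880)) T1.l6
  (TrL.c (I.mix (nat_lit 41527258) (nat_lit 4274)) T1.l7
  TrL.n)))))))) (by decide +kernel)
theorem bx2_5 : BoxOK sI cl6 cl5 cl5 t1 t1 b2_5 :=
  box_mk (TrL.c (I.pos (nat_lit 0) (nat_lit 0)) T1.l0
  (TrL.c (I.pos (nat_lit 0) (nat_lit 0)) T1.l1
  (TrL.c (I.pos (nat_lit 0) (nat_lit 89480386)) T1.l2
  (TrL.c (I.pos (nat_lit 0) (nat_lit 41530880)) T1.l3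
  (TrL.c (I.pos (nat_lit 0) (nat_lit 0)) T1.l4
  (TrL.c (I.pos (nat_lit 0) (nat_lit 0)) T1.l5
  (TrL.c (I.mix (nat_lit 41527258) (nat_lit 41530880)) T1.l6
  (TrL.c (I.mix (nat_lit 41527258) (nat_lit 4274)) T1.l7
  TrL.n)))))))) (by decide +kernel)
theorem bx2_6 : BoxOK sI cl6 cl5 cl5 t1 t1 b2_6 :=
  box_mk (TrL.c (I.pos (nat_lit 0) (nat_lit 0)) T1.l0
  (TrL.c (I.pos (nat_lit 0) (nat_lit 0)) T1.l1
  (TrL.c (I.pos (nat_lit 0) (nat_lit 89480386)) T1.l2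
  (TrL.c (I.pos (nat_lit 0) (nat_lit 41530880)) T1.l3
  (TrL.c (I.pos (nat_lit 0) (nat_lit 0)) T1.l4
  (TrL.c (I.pos (nat_lit 0) (nat_lit 0)) T1.l5
  (TrL.c (I.mix (nat_lit 41527258) (nat_lit 41530880)) T1.l6
  (TrL.c (I.mix (nat_lit 41527258) (nat_lit 4274)) T1.l7
  TrL.n)))))))) (by decide +kernel)
theorem bx2_7 : BoxOK sI cl6 cl5 cl5 t1 t1 b2_7 :=
  box_mk (TrL.c (I.pos (nat_lit 0) (nat_lit 0)) T1.l0
  (TrL.c (I.pos (nat_lit 0) (nat_lit 0)) T1.l1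
  (TrL.c (I.pos (nat_lit 0) (nat_lit 89480386)) T1.l2
  (TrL.c (I.pos (nat_lit 0) (nat_lit 41530880)) T1.l3
  (TrL.c (I.pos (nat_lit 0) (nat_lit 0)) T1.l4
  (TrL.c (I.pos (nat_lit 0) (nat_lit 0)) T1.l5
  (TrL.c (I.mix (nat_lit 41527258) (nat_lit 41530880)) T1.l6
  (TrL.c (I.mix (nat_lit 41527258) (nat_lit 4274)) T1.l7
  TrL.n)))))))) (by decide +kernel)
theorem bx2_8 : BoxOK sI cl6 cl5 cl5 t1 t1 b2_8 :=
  box_mk (TrL.c (I.pos (nat_lit 0) (nat_lit 0)) T1.l1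
  (TrL.c (I.pos (nat_lit 0) (nat_lit 0)) T1.l2
  (TrL.c (I.mix (nat_lit 41527258) (nat_lit 41530880)) T1.l10
  (TrL.c (I.mix (nat_lit 41527258) (nat_lit 4274)) T1.l6
  TrL.n)))) (by decide +kernel)
theorem bx2_9 : BoxOK sI cl6 cl5 cl5 t1 t1 b2_9 :=
  box_mk (TrL.c (I.pos (nat_lit 0) (nat_lit 0)) T1.l8
  (TrL.c (I.pos (nat_lit 0) (nat_lit 0)) T1.l9
  (TrL.c (I.mix (nat_lit 41527258) (nat_lit 41530880)) T1.l10
  (TrL.c (I.mix (nat_lit 41527258) (nat_lit 4274)) T1.l11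
  TrL.n)))) (by decide +kernel)
theorem sv2 : StarV sI cl6 cl5 cl5 t1 t1 t2 :=
  (bt_n (bt_n (bt_n (bt_b bx2_0) (bt_b bx2_1)) (bt_n (bt_b bx2_2) (bt_n (bt_b bx2_3) (bt_b bx2_4)))) (bt_n (bt_n (bt_b bx2_5) (bt_b bx2_6)) (bt_n (bt_b bx2_7) (bt_n (bt_b bx2_8) (bt_b bx2_9)))))
def S2 : StarD := StarD.mk cl6 cl5 cl5 1 1 t2
def G : List StarD := [S0, S1, S2]
theorem so0 : StarOK sI G S0 :=
  star_mk (by decide) (by decide) rfl rfl rfl rfl rfl rfl (rfl : _ = t0) (rfl : _ = t2)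
  (st_mk (Pth.l (Pth.l (Pth.l Pth.z))) (nat_lit 243739928) (nat_lit 245708223) (by decide +kernel))
  (st_mk (Pth.l (Pth.l (Pth.l Pth.z))) (nat_lit 280386065) (nat_lit 283012392) (by decide +kernel))
  (st_mk (Pth.l (Pth.l (Pth.l Pth.z))) (nat_lit 322993062) (nat_lit 326514360) (by decide +kernel)) sv0
theorem so1 : StarOK sI G S1 :=
  star_mk (by decide) (by decide) rfl rfl rfl rfl rfl rfl (rfl : _ = t2) (rfl : _ = t0)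
  (st_mk (Pth.l (Pth.l (Pth.l Pth.z))) (nat_lit 189928511) (nat_lit 191311751) (by decide +kernel))
  (st_mk (Pth.l (Pth.l (Pth.l Pth.z))) (nat_lit 226434596) (nat_lit 228418422) (by decide +kernel))
  (st_mk (Pth.l (Pth.l (Pth.l Pth.z))) (nat_lit 268928866) (nat_lit 271759920) (by decide +kernel)) sv1
theorem so2 : StarOK sI G S2 :=
  star_mk (by decide) (by decide) rfl rfl rfl rfl rfl rfl (rfl : _ = t1) (rfl : _ = t1)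
  (st_mk (Pth.l (Pth.l (Pth.l Pth.z))) (nat_lit 242252516) (nat_lit 243658681) (by decide +kernel))
  (st_mk (Pth.l (Pth.l (Pth.l Pth.z))) (nat_lit 278407819) (nat_lit 280274296) (by decide +kernel))
  (st_mk (Pth.l (Pth.l (Pth.l Pth.z))) (nat_lit 320352412) (nat_lit 322839970) (by decide +kernel)) sv2
theorem ok : GroupOK (nat_lit 0) (nat_lit 91291648) G := grp_mk (allS_c so0 (allS_c so1 (allS_c so2 allS_n)))
theorem cov : GCov G cl5 cl5 cl6 := cov_mk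
  ⟨0, by decide, rfl, rfl, rfl⟩ ⟨1, by decide, rfl, rfl, rfl⟩ ⟨0, by decide, rfl, rfl, rfl⟩ ⟨1, by decide, rfl, rfl, rfl⟩ ⟨2, by decide, rfl, rfl, rfl⟩ ⟨2, by decide, rfl, rfl, rfl⟩
end Q223_0

namespace Q223_1
def sI : I := I.pos (nat_lit 91226112) (nat_lit 150339584)
def b0_0 : Bx := Bx.mk (St.mk (I.pos (nat_lit 150519808) (nat_lit 268419072)) (I.mix (nat_lit 8159232) (nat_lit 73629696)) (I.mix (nat_lit 75218944) (nat_lit 93077504)) (I.pos (nat_lit 244875264) (nat_lit 429211648)) (I.mix (nat_lit 124010496) (nat_lit 86622208)) (I.mix (nat_lit 102318080) (nat_lit 69173248)) (I.mix (nat_lit 162758656) (nat_lit 108380160)))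
  false (nat_lit 0)
def b0_1 : Bx := Bx.mk (St.mk (I.pos (nat_lit 23199744) (nat_lit 68632576)) (I.mix (nat_lit 4194304) (nat_lit 52772864)) (I.mix (nat_lit 25362432) (nat_lit 770048)) (I.pos (nat_lit 144424960) (nat_lit 162136064)) (I.mix (nat_lit 36257792) (nat_lit 50675712)) (I.mix (nat_lit 48087040) (nat_lit 34766848)) (I.mix (nat_lit 26673152) (nat_lit 16007168)))
  false (nat_lit 0)
def b0_2 : Bx := Bx.mk (St.mk (I.pos (nat_lit 54788096) (nat_lit 100466688)) (I.mix (nat_lit 69779456) (nat_lit 4685824)) (I.neg (nat_lit 19742720) (nat_lit 62914560)) (I.pos (nat_lit 153731072) (nat_lit 184565760)) (I.mix (nat_lit 96059392) (nat_lit 37699584)) (I.mix (nat_lit 48054272) (nat_lit 82935808)) (I.mix (nat_lit 36847616) (nat_lit 52035584)))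
  false (nat_lit 0)
def b0_3 : Bx := Bx.mk (St.mk (I.neg (nat_lit 23183360) (nat_lit 68632576)) (I.mix (nat_lit 52772864) (nat_lit 4079616)) (I.mix (nat_lit 25362432) (nat_lit 770048)) (I.pos (nat_lit 144424960) (nat_lit 162136064)) (I.mix (nat_lit 50675712) (nat_lit 36257792)) (I.mix (nat_lit 34766848) (nat_lit 48087040)) (I.mix (nat_lit 26673152) (nat_lit 16007168)))
  true (nat_lit 0)
def b0_4 : Bx := Bx.mk (St.mk (I.pos (nat_lit 53084160) (nat_lit 69992448)) (I.mix (nat_lit 5505024) (nat_lit 14073856)) (I.neg (nat_lit 14761984) (nat_lit 25739264)) (I.pos (nat_lit 153436160) (nat_lit 162594816)) (I.mix (nat_lit 10289152) (nat_lit 18513920)) (I.mix (nat_lit 11321344) (nat_lit 7094272)) (I.mix (nat_lit 6815744) (nat_lit 3915776)))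
  false (nat_lit 0)
def b0_5 : Bx := Bx.mk (St.mk (I.pos (nat_lit 64077824) (nat_lit 151928832)) (I.neg (nat_lit 4997120) (nat_lit 77135872)) (I.neg (nat_lit 2752512) (nat_lit 72810496)) (I.pos (nat_lit 164511744) (nat_lit 233455616)) (I.mix (nat_lit 106037248) (nat_lit 60637184)) (I.mix (nat_lit 50839552) (nat_lit 80986112)) (I.mix (nat_lit 46088192) (nat_lit 71581696)))
  false (nat_lit 0)
def b0_6 : Bx := Bx.mk (St.mk (I.mix (nat_lit 38830080) (nat_lit 10059776)) (I.mix (nat_lit 47120384) (nat_lit 7077888)) (I.neg (nat_lit 2277376) (nat_lit 7045120)) (I.pos (nat_lit 143458304) (nat_lit 153305088)) (I.mix (nat_lit 31555584) (nat_lit 41664512)) (I.mix (nat_lit 28655616) (nat_lit 43089920)) (I.mix (nat_lit 6897664) (nat_lit 5931008)))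
  true (nat_lit 0)
def b0_7 : Bx := Bx.mk (St.mk (I.mix (nat_lit 10059776) (nat_lit 38830080)) (I.mix (nat_lit 10600448) (nat_lit 47120384)) (I.neg (nat_lit 2277376) (nat_lit 7045120)) (I.pos (nat_lit 143458304) (nat_lit 153305088)) (I.mix (nat_lit 41664512) (nat_lit 31555584)) (I.mix (nat_lit 43089920) (nat_lit 28655616)) (I.mix (nat_lit 6897664) (nat_lit 5931008)))
  false (nat_lit 0)
def b0_8 : Bx := Bx.mk (St.mk (I.pos (nat_lit 120225792) (nat_lit 199884800)) (I.mix (nat_lit 37847040) (nat_lit 70352896)) (I.mix (nat_lit 35569664) (nat_lit 87801856)) (I.pos (nat_lit 199884800) (nat_lit 299696128)) (I.mix (nat_lit 145096704) (nat_lit 65486848)) (I.mix (nat_lit 146145280) (nat_lit 83918848)) (I.mix (nat_lit 145113088) (nat_lit 90931200)))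
  false (nat_lit 0)
def t0 : BTr := (BTr.n (BTr.n (BTr.n (BTr.b b0_0) (BTr.b b0_1)) (BTr.n (BTr.b b0_2) (BTr.b b0_3))) (BTr.n (BTr.n (BTr.b b0_4) (BTr.b b0_5)) (BTr.n (BTr.b b0_6) (BTr.n (BTr.b b0_7) (BTr.b b0_8)))))
namespace T0
def l0 : Tr := Tr.L (Pth.l (Pth.l (Pth.l Pth.z)))
def l1 : Tr := Tr.L (Pth.l (Pth.l (Pth.r Pth.z)))
def l2 : Tr := Tr.L (Pth.l (Pth.r (Pth.l Pth.z)))
def l3 : Tr := Tr.L (Pth.l (Pth.r (Pth.r Pth.z)))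
def l4 : Tr := Tr.L (Pth.r (Pth.l (Pth.l Pth.z)))
def l5 : Tr := Tr.L (Pth.r (Pth.l (Pth.r Pth.z)))
def l6 : Tr := Tr.L (Pth.r (Pth.r (Pth.l Pth.z)))
def l7 : Tr := Tr.L (Pth.r (Pth.r (Pth.r (Pth.l Pth.z))))
def l8 : Tr := Tr.L (Pth.r (Pth.r (Pth.r (Pth.r Pth.z))))
end T0
def b1_0 : Bx := Bx.mk (St.mk (I.pos (nat_lit 153157632) (nat_lit 269271040)) (I.mix (nat_lit 9895936) (nat_lit 62160896)) (I.mix (nat_lit 34144256) (nat_lit 96468992)) (I.pos (nat_lit 190480384) (nat_lit 377438208)) (I.mix (nat_lit 121061376) (nat_lit 83099648)) (I.mix (nat_lit 102776832) (nat_lit 67600384)) (I.mix (nat_lit 162283520) (nat_lit 101695488)))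
  false (nat_lit 0)
def b1_1 : Bx := Bx.mk (St.mk (I.pos (nat_lit 81199104) (nat_lit 153681920)) (I.neg (nat_lit 3031040) (nat_lit 72810496)) (I.neg (nat_lit 6045696) (nat_lit 64126976)) (I.pos (nat_lit 128352256) (nat_lit 181911552)) (I.mix (nat_lit 106283008) (nat_lit 52559872)) (I.mix (nat_lit 49889280) (nat_lit 78561280)) (I.mix (nat_lit 37486592) (nat_lit 59981824)))
  false (nat_lit 0)
def b1_2 : Bx := Bx.mk (St.mk (I.mix (nat_lit 26951680) (nat_lit 93716480)) (I.mix (nat_lit 2867200) (nat_lit 40878080)) (I.mix (nat_lit 10092544) (nat_lit 16826368)) (I.pos (nat_lit 84672512) (nat_lit 123994112)) (I.mix (nat_lit 45875200) (nat_lit 40779776)) (I.mix (nat_lit 41336832) (nat_lit 31113216)) (I.mix (nat_lit 27426816) (nat_lit 19447808)))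
  false (nat_lit 0)
def b1_3 : Bx := Bx.mk (St.mk (I.mix (nat_lit 31997952) (nat_lit 43106304)) (I.mix (nat_lit 35454976) (nat_lit 2916352)) (I.mix (nat_lit 11714560) (nat_lit 1359872)) (I.pos (nat_lit 82608128) (nat_lit 101695488)) (I.mix (nat_lit 33882112) (nat_lit 30769152)) (I.mix (nat_lit 24379392) (nat_lit 31997952)) (I.mix (nat_lit 10895360) (nat_lit 11780096)))
  false (nat_lit 0)
def b1_4 : Bx := Bx.mk (St.mk (I.pos (nat_lit 140754944) (nat_lit 206209024)) (I.mix (nat_lit 33144832) (nat_lit 66043904)) (I.mix (nat_lit 24313856) (nat_lit 95076352)) (I.pos (nat_lit 168198144) (nat_lit 253345792)) (I.mix (nat_lit 148439040) (nat_lit 63586304)) (I.mix (nat_lit 149782528) (nat_lit 89702400)) (I.mix (nat_lit 151535616) (nat_lit 88227840)))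
  false (nat_lit 0)
def b1_5 : Bx := Bx.mk (St.mk (I.pos (nat_lit 82329600) (nat_lit 125435904)) (I.mix (nat_lit 63569920) (nat_lit 3325952)) (I.neg (nat_lit 6733824) (nat_lit 54591488)) (I.pos (nat_lit 115736576) (nat_lit 149995520)) (I.mix (nat_lit 96862208) (nat_lit 38060032)) (I.mix (nat_lit 53018624) (nat_lit 87556096)) (I.mix (nat_lit 37994496) (nat_lit 58540032)))
  false (nat_lit 0)
def b1_6 : Bx := Bx.mk (St.mk (I.mix (nat_lit 45662208) (nat_lit 70254592)) (I.mix (nat_lit 5980160) (nat_lit 35176448)) (I.mix (nat_lit 11796480) (nat_lit 13320192)) (I.pos (nat_lit 82640896) (nat_lit 110690304)) (I.mix (nat_lit 31784960) (nat_lit 33882112)) (I.mix (nat_lit 32014336) (nat_lit 24494080)) (I.mix (nat_lit 10829824) (nat_lit 11780096)))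
  false (nat_lit 0)
def b1_7 : Bx := Bx.mk (St.mk (I.mix (nat_lit 45826048) (nat_lit 30588928)) (I.mix (nat_lit 35405824) (nat_lit 2457600)) (I.mix (nat_lit 8863744) (nat_lit 4030464)) (I.pos (nat_lit 82870272) (nat_lit 101728256)) (I.mix (nat_lit 34865152) (nat_lit 29442048)) (I.mix (nat_lit 24313856) (nat_lit 32636928)) (I.mix (nat_lit 12386304) (nat_lit 9175040)))
  false (nat_lit 0)
def b1_8 : Bx := Bx.mk (St.mk (I.pos (nat_lit 140247040) (nat_lit 155713536)) (I.neg (nat_lit 18219008) (nat_lit 37388288)) (I.neg (nat_lit 10256384) (nat_lit 30375936)) (I.pos (nat_lit 169869312) (nat_lit 184778752)) (I.mix (nat_lit 24739840) (nat_lit 17104896)) (I.mix (nat_lit 14680064) (nat_lit 16990208)) (I.mix (nat_lit 15532032) (nat_lit 17629184)))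
  false (nat_lit 0)
def b1_9 : Bx := Bx.mk (St.mk (I.pos (nat_lit 83230720) (nat_lit 91914240)) (I.mix (nat_lit 1441792) (nat_lit 10289152)) (I.neg (nat_lit 2293760) (nat_lit 10027008)) (I.pos (nat_lit 117112832) (nat_lit 123109376)) (I.mix (nat_lit 7127040) (nat_lit 13107200)) (I.mix (nat_lit 7421952) (nat_lit 4816896)) (I.mix (nat_lit 5734400) (nat_lit 2965504)))
  false (nat_lit 0)
def b1_10 : Bx := Bx.mk (St.mk (I.mix (nat_lit 49709056) (nat_lit 47972352)) (I.mix (nat_lit 11681792) (nat_lit 4210688)) (I.mix (nat_lit 3047424) (nat_lit 4325376)) (I.pos (nat_lit 89571328) (nat_lit 100564992)) (I.mix (nat_lit 9699328) (nat_lit 15187968)) (I.mix (nat_lit 8962048) (nat_lit 9912320)) (I.mix (nat_lit 3391488) (nat_lit 3063808)))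
  false (nat_lit 0)
def b1_11 : Bx := Bx.mk (St.mk (I.mix (nat_lit 49643520) (nat_lit 8929280)) (I.mix (nat_lit 901120) (nat_lit 13991936)) (I.neg (nat_lit 6062080) (nat_lit 12025856)) (I.pos (nat_lit 89194496) (nat_lit 100401152)) (I.mix (nat_lit 9633792) (nat_lit 16629760)) (I.mix (nat_lit 11010048) (nat_lit 9371648)) (I.mix (nat_lit 3702784) (nat_lit 4030464)))
  false (nat_lit 0)
def t1 : BTr := (BTr.n (BTr.n (BTr.n (BTr.b b1_0) (BTr.n (BTr.b b1_1) (BTr.b b1_2))) (BTr.n (BTr.b b1_3) (BTr.n (BTr.b b1_4) (BTr.b b1_5)))) (BTr.n (BTr.n (BTr.b b1_6) (BTr.n (BTr.b b1_7) (BTr.b b1_8))) (BTr.n (BTr.b b1_9) (BTr.n (BTr.b b1_10) (BTr.b b1_11)))))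
namespace T1
def l0 : Tr := Tr.L (Pth.l (Pth.l (Pth.l Pth.z)))
def l1 : Tr := Tr.L (Pth.l (Pth.l (Pth.r (Pth.l Pth.z))))
def l2 : Tr := Tr.L (Pth.l (Pth.l (Pth.r (Pth.r Pth.z))))
def l3 : Tr := Tr.L (Pth.l (Pth.r (Pth.l Pth.z)))
def l4 : Tr := Tr.L (Pth.l (Pth.r (Pth.r (Pth.l Pth.z))))
def l5 : Tr := Tr.L (Pth.l (Pth.r (Pth.r (Pth.r Pth.z))))
def l6 : Tr := Tr.L (Pth.r (Pth.l (Pth.l Pth.z)))
def l7 : Tr := Tr.L (Pth.r (Pth.l (Pth.r (Pth.l Pth.z))))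
def l8 : Tr := Tr.L (Pth.r (Pth.l (Pth.r (Pth.r Pth.z))))
def l9 : Tr := Tr.L (Pth.r (Pth.r (Pth.l Pth.z)))
def l10 : Tr := Tr.L (Pth.r (Pth.r (Pth.r (Pth.l Pth.z))))
def l11 : Tr := Tr.L (Pth.r (Pth.r (Pth.r (Pth.r Pth.z))))
end T1
def b2_0 : Bx := Bx.mk (St.mk (I.pos (nat_lit 143998976) (nat_lit 283787264)) (I.mix (nat_lit 33193984) (nat_lit 69943296)) (I.mix (nat_lit 97910784) (nat_lit 106233856)) (I.pos (nat_lit 242827264) (nat_lit 456441856)) (I.mix (nat_lit 126140416) (nat_lit 89931776)) (I.mix (nat_lit 107200512) (nat_lit 75481088)) (I.mix (nat_lit 167804928) (nat_lit 109494272)))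
  false (nat_lit 31184)
def b2_1 : Bx := Bx.mk (St.mk (I.pos (nat_lit 71041024) (nat_lit 146276352)) (I.neg (nat_lit 9240576) (nat_lit 78020608)) (I.neg (nat_lit 557056) (nat_lit 60686336)) (I.pos (nat_lit 169738240) (nat_lit 226885632)) (I.mix (nat_lit 98385920) (nat_lit 59244544)) (I.mix (nat_lit 51625984) (nat_lit 74874880)) (I.mix (nat_lit 46235648) (nat_lit 64946176)))
  false (nat_lit 0)
def b2_2 : Bx := Bx.mk (St.mk (I.mix (nat_lit 33734656) (nat_lit 5111808)) (I.mix (nat_lit 45629440) (nat_lit 2834432)) (I.pos (nat_lit 3129344) (nat_lit 7749632)) (I.pos (nat_lit 142917632) (nat_lit 151552000)) (I.mix (nat_lit 28327936) (nat_lit 41222144)) (I.mix (nat_lit 27885568) (nat_lit 40288256)) (I.mix (nat_lit 6340608) (nat_lit 6651904)))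
  true (nat_lit 0)
def b2_3 : Bx := Bx.mk (St.mk (I.pos (nat_lit 128581632) (nat_lit 195231744)) (I.mix (nat_lit 32669696) (nat_lit 69353472)) (I.mix (nat_lit 12337152) (nat_lit 104185856)) (I.pos (nat_lit 210288640) (nat_lit 289701888)) (I.mix (nat_lit 153108480) (nat_lit 67190784)) (I.mix (nat_lit 152125440) (nat_lit 82001920)) (I.mix (nat_lit 153698304) (nat_lit 88571904)))
  false (nat_lit 0)
def b2_4 : Bx := Bx.mk (St.mk (I.mix (nat_lit 5111808) (nat_lit 33734656)) (I.mix (nat_lit 2834432) (nat_lit 45629440)) (I.pos (nat_lit 3129344) (nat_lit 7749632)) (I.pos (nat_lit 142917632) (nat_lit 151552000)) (I.mix (nat_lit 41222144) (nat_lit 28327936)) (I.mix (nat_lit 40288256) (nat_lit 27885568)) (I.mix (nat_lit 6340608) (nat_lit 6651904)))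
  false (nat_lit 0)
def b2_5 : Bx := Bx.mk (St.mk (I.pos (nat_lit 123355136) (nat_lit 148176896)) (I.neg (nat_lit 15532032) (nat_lit 40189952)) (I.mix (nat_lit 22921216) (nat_lit 1261568)) (I.pos (nat_lit 204750848) (nat_lit 228720640)) (I.mix (nat_lit 22953984) (nat_lit 21037056)) (I.mix (nat_lit 12533760) (nat_lit 14876672)) (I.mix (nat_lit 12058624) (nat_lit 13926400)))
  false (nat_lit 0)
def b2_6 : Bx := Bx.mk (St.mk (I.pos (nat_lit 16809984) (nat_lit 74252288)) (I.mix (nat_lit 9027584) (nat_lit 54509568)) (I.mix (nat_lit 16465920) (nat_lit 13205504)) (I.pos (nat_lit 142688256) (nat_lit 164085760)) (I.mix (nat_lit 41975808) (nat_lit 48316416)) (I.mix (nat_lit 48807936) (nat_lit 34701312)) (I.mix (nat_lit 26001408) (nat_lit 18104320)))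
  false (nat_lit 0)
def b2_7 : Bx := Bx.mk (St.mk (I.pos (nat_lit 50692096) (nat_lit 105037824)) (I.mix (nat_lit 70025216) (nat_lit 9371648)) (I.neg (nat_lit 7012352) (nat_lit 50790400)) (I.pos (nat_lit 151732224) (nat_lit 188874752)) (I.mix (nat_lit 89604096) (nat_lit 38764544)) (I.mix (nat_lit 48742400) (nat_lit 79200256)) (I.mix (nat_lit 36552704) (nat_lit 46366720)))
  false (nat_lit 0)
def b2_8 : Bx := Bx.mk (St.mk (I.neg (nat_lit 16793600) (nat_lit 74252288)) (I.mix (nat_lit 54509568) (nat_lit 12746752)) (I.mix (nat_lit 18104320) (nat_lit 13205504)) (I.pos (nat_lit 142688256) (nat_lit 164085760)) (I.mix (nat_lit 48316416) (nat_lit 41975808)) (I.mix (nat_lit 34701312) (nat_lit 48807936)) (I.mix (nat_lit 26001408) (nat_lit 18104320)))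
  true (nat_lit 0)
def b2_9 : Bx := Bx.mk (St.mk (I.mix (nat_lit 5505024) (nat_lit 4947968)) (I.mix (nat_lit 10682368) (nat_lit 2605056)) (I.pos (nat_lit 4276224) (nat_lit 5537792)) (I.pos (nat_lit 143065088) (nat_lit 144883712)) (I.mix (nat_lit 4866048) (nat_lit 13615104)) (I.mix (nat_lit 3883008) (nat_lit 6111232)) (I.mix (nat_lit 622592) (nat_lit 835584)))
  true (nat_lit 0)
def t2 : BTr := (BTr.n (BTr.n (BTr.n (BTr.b b2_0) (BTr.b b2_1)) (BTr.n (BTr.b b2_2) (BTr.n (BTr.b b2_3) (BTr.b b2_4)))) (BTr.n (BTr.n (BTr.b b2_5) (BTr.b b2_6)) (BTr.n (BTr.b b2_7) (BTr.n (BTr.b b2_8) (BTr.b b2_9)))))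
namespace T2
def l0 : Tr := Tr.L (Pth.l (Pth.l (Pth.l Pth.z)))
def l1 : Tr := Tr.L (Pth.l (Pth.l (Pth.r Pth.z)))
def l2 : Tr := Tr.L (Pth.l (Pth.r (Pth.l Pth.z)))
def l3 : Tr := Tr.L (Pth.l (Pth.r (Pth.r (Pth.l Pth.z))))
def l4 : Tr := Tr.L (Pth.l (Pth.r (Pth.r (Pth.r Pth.z))))
def l5 : Tr := Tr.L (Pth.r (Pth.l (Pth.l Pth.z)))
def l6 : Tr := Tr.L (Pth.r (Pth.l (Pth.r Pth.z)))
def l7 : Tr := Tr.L (Pth.r (Pth.r (Pth.l Pth.z)))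
def l8 : Tr := Tr.L (Pth.r (Pth.r (Pth.r (Pth.l Pth.z))))
def l9 : Tr := Tr.L (Pth.r (Pth.r (Pth.r (Pth.r Pth.z))))
end T2
theorem bx0_0 : BoxOK sI cl5 cl5 cl6 t0 t2 b0_0 :=
  box_mk (TrL.c (I.pos (nat_lit 0) (nat_lit 0)) (xa (xb T0.l0 (xa T0.l0 T0.l0)) (xa (xb T0.l0 T0.l0) (xb T0.l0 T0.l0)))
  (TrL.c (I.pos (nat_lit 0) (nat_lit 0)) T2.l1
  (TrL.c (I.pos (nat_lit 0) (nat_lit 0)) T0.l1
  (TrL.c (I.pos (nat_lit 0) (nat_lit 0)) T2.l2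
  (TrL.c (I.pos (nat_lit 0) (nat_lit 0)) (xa T2.l3 (xb T2.l3 T2.l3))
  (TrL.c (I.pos (nat_lit 0) (nat_lit 0)) T0.l2
  (TrL.c (I.pos (nat_lit 0) (nat_lit 0)) T2.l4
  (TrL.c (I.pos (nat_lit 0) (nat_lit 0)) T0.l3
  TrL.n)))))))) (by decide +kernel)
theorem bx0_1 : BoxOK sI cl5 cl5 cl6 t0 t2 b0_1 :=
  box_mk (TrL.c (I.pos (nat_lit 0) (nat_lit 0)) T0.l0
  (TrL.c (I.pos (nat_lit 0) (nat_lit 0)) T2.l1
  (TrL.c (I.pos (nat_lit 0) (nat_lit 0)) T0.l1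
  (TrL.c (I.pos (nat_lit 0) (nat_lit 0)) T2.l2
  (TrL.c (I.pos (nat_lit 0) (nat_lit 0)) T2.l3
  (TrL.c (I.pos (nat_lit 0) (nat_lit 0)) T0.l2
  (TrL.c (I.pos (nat_lit 0) (nat_lit 0)) T2.l4
  (TrL.c (I.pos (nat_lit 0) (nat_lit 0)) T0.l3
  TrL.n)))))))) (by decide +kernel)
theorem bx0_2 : BoxOK sI cl5 cl5 cl6 t0 t2 b0_2 :=
  box_mk (TrL.c (I.pos (nat_lit 0) (nat_lit 0)) (xb T0.l0 T0.l0)
  (TrL.c (I.pos (nat_lit 0) (nat_lit 0)) T2.l1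
  (TrL.c (I.pos (nat_lit 0) (nat_lit 0)) T0.l1
  (TrL.c (I.pos (nat_lit 0) (nat_lit 0)) T2.l2
  (TrL.c (I.pos (nat_lit 0) (nat_lit 0)) T2.l3
  (TrL.c (I.pos (nat_lit 0) (nat_lit 0)) T0.l2
  (TrL.c (I.pos (nat_lit 0) (nat_lit 0)) T2.l4
  (TrL.c (I.pos (nat_lit 0) (nat_lit 0)) T0.l3
  TrL.n)))))))) (by decide +kernel)
theorem bx0_3 : BoxOK sI cl5 cl5 cl6 t0 t2 b0_3 :=
  box_mk (TrL.c (I.pos (nat_lit 0) (nat_lit 0)) T2.l1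
  (TrL.c (I.pos (nat_lit 0) (nat_lit 0)) T0.l1
  (TrL.c (I.pos (nat_lit 0) (nat_lit 0)) T2.l2
  TrL.n))) (by decide +kernel)
theorem bx0_4 : BoxOK sI cl5 cl5 cl6 t0 t2 b0_4 :=
  box_mk (TrL.c (I.pos (nat_lit 0) (nat_lit 0)) T0.l0
  (TrL.c (I.pos (nat_lit 0) (nat_lit 0)) T2.l1
  (TrL.c (I.pos (nat_lit 0) (nat_lit 0)) T0.l1
  (TrL.c (I.pos (nat_lit 0) (nat_lit 0)) T2.l2
  (TrL.c (I.pos (nat_lit 0) (nat_lit 0)) T2.l3
  (TrL.c (I.pos (nat_lit 0) (nat_lit 0)) T0.l2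
  (TrL.c (I.pos (nat_lit 0) (nat_lit 0)) T2.l4
  (TrL.c (I.pos (nat_lit 0) (nat_lit 0)) T0.l3
  TrL.n)))))))) (by decide +kernel)
theorem bx0_5 : BoxOK sI cl5 cl5 cl6 t0 t2 b0_5 :=
  box_mk (TrL.c (I.pos (nat_lit 0) (nat_lit 0)) (xa (xb T0.l0 T0.l0) T0.l0)
  (TrL.c (I.pos (nat_lit 0) (nat_lit 0)) T2.l1
  (TrL.c (I.pos (nat_lit 0) (nat_lit 0)) T0.l1
  (TrL.c (I.pos (nat_lit 0) (nat_lit 0)) T2.l2
  (TrL.c (I.pos (nat_lit 0) (nat_lit 0)) T2.l3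
  (TrL.c (I.pos (nat_lit 0) (nat_lit 0)) T0.l2
  (TrL.c (I.pos (nat_lit 0) (nat_lit 0)) T2.l4
  (TrL.c (I.pos (nat_lit 0) (nat_lit 0)) T0.l3
  TrL.n)))))))) (by decide +kernel)
theorem bx0_6 : BoxOK sI cl5 cl5 cl6 t0 t2 b0_6 :=
  box_mk (TrL.c (I.pos (nat_lit 0) (nat_lit 0)) T2.l1
  (TrL.c (I.pos (nat_lit 0) (nat_lit 0)) T0.l1
  (TrL.c (I.pos (nat_lit 0) (nat_lit 0)) T2.l2
  TrL.n))) (by decide +kernel)
theorem bx0_7 : BoxOK sI cl5 cl5 cl6 t0 t2 b0_7 :=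
  box_mk (TrL.c (I.pos (nat_lit 0) (nat_lit 0)) (xb T0.l0 (xa T0.l0 T0.l0))
  (TrL.c (I.pos (nat_lit 0) (nat_lit 0)) T2.l1
  (TrL.c (I.pos (nat_lit 0) (nat_lit 0)) T0.l1
  (TrL.c (I.pos (nat_lit 0) (nat_lit 0)) T2.l2
  (TrL.c (I.pos (nat_lit 0) (nat_lit 0)) T2.l3
  (TrL.c (I.pos (nat_lit 0) (nat_lit 0)) T0.l2
  (TrL.c (I.pos (nat_lit 0) (nat_lit 0)) T2.l4
  (TrL.c (I.pos (nat_lit 0) (nat_lit 0)) T0.l3
  TrL.n)))))))) (by decide +kernel)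
theorem bx0_8 : BoxOK sI cl5 cl5 cl6 t0 t2 b0_8 :=
  box_mk (TrL.c (I.pos (nat_lit 0) (nat_lit 0)) (xb (xa T0.l0 T0.l0) (xa (xb T0.l0 T0.l0) T0.l0))
  (TrL.c (I.pos (nat_lit 0) (nat_lit 0)) T2.l1
  (TrL.c (I.pos (nat_lit 0) (nat_lit 0)) T0.l1
  (TrL.c (I.pos (nat_lit 0) (nat_lit 0)) T2.l2
  (TrL.c (I.pos (nat_lit 0) (nat_lit 0)) (xb T2.l3 T2.l3)
  (TrL.c (I.pos (nat_lit 0) (nat_lit 0)) T0.l2
  (TrL.c (I.pos (nat_lit 0) (nat_lit 0)) T2.l4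
  (TrL.c (I.pos (nat_lit 0) (nat_lit 0)) T0.l3
  TrL.n)))))))) (by decide +kernel)
theorem sv0 : StarV sI cl5 cl5 cl6 t0 t2 t0 :=
  (bt_n (bt_n (bt_n (bt_b bx0_0) (bt_b bx0_1)) (bt_n (bt_b bx0_2) (bt_b bx0_3))) (bt_n (bt_n (bt_b bx0_4) (bt_b bx0_5)) (bt_n (bt_b bx0_6) (bt_n (bt_b bx0_7) (bt_b bx0_8)))))
def S0 : StarD := StarD.mk cl5 cl5 cl6 0 2 t0
theorem bx1_0 : BoxOK sI cl5 cl6 cl5 t2 t0 b1_0 :=
  box_mk (TrL.c (I.pos (nat_lit 0) (nat_lit 0)) (xa (xa T2.l0 (xb T2.l0 T2.l0)) (xa (xb T2.l0 T2.l0) (xb T2.l0 T2.l0)))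
  (TrL.c (I.pos (nat_lit 0) (nat_lit 0)) T0.l5
  (TrL.c (I.pos (nat_lit 0) (nat_lit 0)) T2.l6
  (TrL.c (I.pos (nat_lit 0) (nat_lit 0)) T0.l6
  (TrL.c (I.pos (nat_lit 0) (nat_lit 0)) (xa T0.l8 (xb T0.l8 T0.l8))
  (TrL.c (I.pos (nat_lit 0) (nat_lit 0)) T2.l7
  (TrL.c (I.pos (nat_lit 0) (nat_lit 0)) T0.l7
  (TrL.c (I.pos (nat_lit 0) (nat_lit 0)) T2.l8
  TrL.n)))))))) (by decide +kernel)
theorem bx1_1 : BoxOK sI cl5 cl6 cl5 t2 t0 b1_1 :=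
  box_mk (TrL.c (I.pos (nat_lit 0) (nat_lit 0)) T2.l0
  (TrL.c (I.pos (nat_lit 0) (nat_lit 0)) T0.l5
  (TrL.c (I.pos (nat_lit 0) (nat_lit 0)) T2.l6
  (TrL.c (I.pos (nat_lit 0) (nat_lit 0)) T0.l6
  (TrL.c (I.pos (nat_lit 0) (nat_lit 0)) T0.l8
  (TrL.c (I.pos (nat_lit 0) (nat_lit 0)) T2.l7
  (TrL.c (I.pos (nat_lit 0) (nat_lit 0)) T0.l7
  (TrL.c (I.pos (nat_lit 0) (nat_lit 0)) T2.l8
  TrL.n)))))))) (by decide +kernel)
theorem bx1_2 : BoxOK sI cl5 cl6 cl5 t2 t0 b1_2 :=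
  box_mk (TrL.c (I.pos (nat_lit 0) (nat_lit 0)) T2.l0
  (TrL.c (I.pos (nat_lit 0) (nat_lit 0)) T0.l5
  (TrL.c (I.pos (nat_lit 0) (nat_lit 0)) T2.l6
  (TrL.c (I.pos (nat_lit 0) (nat_lit 0)) T0.l6
  (TrL.c (I.pos (nat_lit 0) (nat_lit 0)) T0.l8
  (TrL.c (I.pos (nat_lit 0) (nat_lit 0)) T2.l7
  (TrL.c (I.pos (nat_lit 0) (nat_lit 0)) T0.l7
  (TrL.c (I.pos (nat_lit 0) (nat_lit 0)) T2.l8
  TrL.n)))))))) (by decide +kernel)
theorem bx1_3 : BoxOK sI cl5 cl6 cl5 t2 t0 b1_3 :=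
  box_mk (TrL.c (I.pos (nat_lit 0) (nat_lit 0)) T2.l0
  (TrL.c (I.pos (nat_lit 0) (nat_lit 0)) T0.l5
  (TrL.c (I.pos (nat_lit 0) (nat_lit 0)) T2.l7
  (TrL.c (I.pos (nat_lit 0) (nat_lit 0)) T0.l7
  (TrL.c (I.pos (nat_lit 0) (nat_lit 0)) T0.l5
  (TrL.c (I.pos (nat_lit 0) (nat_lit 0)) T2.l6
  (TrL.c (I.pos (nat_lit 0) (nat_lit 0)) T0.l7
  (TrL.c (I.pos (nat_lit 0) (nat_lit 0)) T2.l8
  TrL.n)))))))) (by decide +kernel)
theorem bx1_4 : BoxOK sI cl5 cl6 cl5 t2 t0 b1_4 :=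
  box_mk (TrL.c (I.pos (nat_lit 0) (nat_lit 0)) (xb (xa T2.l0 T2.l0) (xa (xb T2.l0 T2.l0) (xb T2.l0 T2.l0)))
  (TrL.c (I.pos (nat_lit 0) (nat_lit 0)) T0.l5
  (TrL.c (I.pos (nat_lit 0) (nat_lit 0)) T2.l6
  (TrL.c (I.pos (nat_lit 0) (nat_lit 0)) T0.l6
  (TrL.c (I.pos (nat_lit 0) (nat_lit 0)) (xb T0.l8 T0.l8)
  (TrL.c (I.pos (nat_lit 0) (nat_lit 0)) T2.l7
  (TrL.c (I.pos (nat_lit 0) (nat_lit 0)) T0.l7
  (TrL.c (I.pos (nat_lit 0) (nat_lit 0)) T2.l8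
  TrL.n)))))))) (by decide +kernel)
theorem bx1_5 : BoxOK sI cl5 cl6 cl5 t2 t0 b1_5 :=
  box_mk (TrL.c (I.pos (nat_lit 0) (nat_lit 0)) T2.l0
  (TrL.c (I.pos (nat_lit 0) (nat_lit 0)) T0.l5
  (TrL.c (I.pos (nat_lit 0) (nat_lit 0)) T2.l6
  (TrL.c (I.pos (nat_lit 0) (nat_lit 0)) T0.l6
  (TrL.c (I.pos (nat_lit 0) (nat_lit 0)) T0.l8
  (TrL.c (I.pos (nat_lit 0) (nat_lit 0)) T2.l7
  (TrL.c (I.pos (nat_lit 0) (nat_lit 0)) T0.l7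
  (TrL.c (I.pos (nat_lit 0) (nat_lit 0)) T2.l8
  TrL.n)))))))) (by decide +kernel)
theorem bx1_6 : BoxOK sI cl5 cl6 cl5 t2 t0 b1_6 :=
  box_mk (TrL.c (I.pos (nat_lit 0) (nat_lit 0)) (xa (xa (xb T2.l0 T2.l0) T2.l0) T2.l0)
  (TrL.c (I.pos (nat_lit 0) (nat_lit 0)) T0.l5
  (TrL.c (I.pos (nat_lit 0) (nat_lit 0)) T2.l6
  (TrL.c (I.pos (nat_lit 0) (nat_lit 0)) T0.l6
  (TrL.c (I.pos (nat_lit 0) (nat_lit 0)) T0.l8
  (TrL.c (I.pos (nat_lit 0) (nat_lit 0)) T2.l7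
  (TrL.c (I.pos (nat_lit 0) (nat_lit 0)) T0.l7
  (TrL.c (I.pos (nat_lit 0) (nat_lit 0)) T2.l8
  TrL.n)))))))) (by decide +kernel)
theorem bx1_7 : BoxOK sI cl5 cl6 cl5 t2 t0 b1_7 :=
  box_mk (TrL.c (I.pos (nat_lit 0) (nat_lit 0)) (xa (xb (xa T2.l0 T2.l0) T2.l0) T2.l0)
  (TrL.c (I.pos (nat_lit 0) (nat_lit 0)) T0.l5
  (TrL.c (I.pos (nat_lit 0) (nat_lit 0)) T2.l7
  (TrL.c (I.pos (nat_lit 0) (nat_lit 0)) T0.l7
  (TrL.c (I.pos (nat_lit 0) (nat_lit 0)) T0.l5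
  (TrL.c (I.pos (nat_lit 0) (nat_lit 0)) T2.l6
  (TrL.c (I.pos (nat_lit 0) (nat_lit 0)) T0.l7
  (TrL.c (I.pos (nat_lit 0) (nat_lit 0)) T2.l8
  TrL.n)))))))) (by decide +kernel)
theorem bx1_8 : BoxOK sI cl5 cl6 cl5 t2 t0 b1_8 :=
  box_mk (TrL.c (I.pos (nat_lit 0) (nat_lit 0)) T2.l0
  (TrL.c (I.pos (nat_lit 0) (nat_lit 0)) T0.l5
  (TrL.c (I.pos (nat_lit 0) (nat_lit 0)) T2.l6
  (TrL.c (I.pos (nat_lit 0) (nat_lit 0)) T0.l6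
  (TrL.c (I.pos (nat_lit 0) (nat_lit 0)) T0.l8
  (TrL.c (I.pos (nat_lit 0) (nat_lit 0)) T2.l7
  (TrL.c (I.pos (nat_lit 0) (nat_lit 0)) T0.l7
  (TrL.c (I.pos (nat_lit 0) (nat_lit 0)) T2.l8
  TrL.n)))))))) (by decide +kernel)
theorem bx1_9 : BoxOK sI cl5 cl6 cl5 t2 t0 b1_9 :=
  box_mk (TrL.c (I.pos (nat_lit 0) (nat_lit 0)) T2.l0
  (TrL.c (I.pos (nat_lit 0) (nat_lit 0)) T0.l5
  (TrL.c (I.pos (nat_lit 0) (nat_lit 0)) T2.l6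
  (TrL.c (I.pos (nat_lit 0) (nat_lit 0)) T0.l6
  (TrL.c (I.pos (nat_lit 0) (nat_lit 0)) T0.l8
  (TrL.c (I.pos (nat_lit 0) (nat_lit 0)) T2.l7
  (TrL.c (I.pos (nat_lit 0) (nat_lit 0)) T0.l7
  (TrL.c (I.pos (nat_lit 0) (nat_lit 0)) T2.l8
  TrL.n)))))))) (by decide +kernel)
theorem bx1_10 : BoxOK sI cl5 cl6 cl5 t2 t0 b1_10 :=
  box_mk (TrL.c (I.pos (nat_lit 0) (nat_lit 0)) T2.l0
  (TrL.c (I.pos (nat_lit 0) (nat_lit 0)) T0.l5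
  (TrL.c (I.pos (nat_lit 0) (nat_lit 0)) T2.l7
  (TrL.c (I.pos (nat_lit 0) (nat_lit 0)) T0.l7
  (TrL.c (I.pos (nat_lit 0) (nat_lit 0)) T0.l8
  (TrL.c (I.pos (nat_lit 0) (nat_lit 0)) T2.l6
  (TrL.c (I.pos (nat_lit 0) (nat_lit 0)) T0.l7
  (TrL.c (I.pos (nat_lit 0) (nat_lit 0)) T2.l8
  TrL.n)))))))) (by decide +kernel)
theorem bx1_11 : BoxOK sI cl5 cl6 cl5 t2 t0 b1_11 :=
  box_mk (TrL.c (I.pos (nat_lit 0) (nat_lit 0)) T2.l0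
  (TrL.c (I.pos (nat_lit 0) (nat_lit 0)) T0.l5
  (TrL.c (I.pos (nat_lit 0) (nat_lit 0)) T2.l6
  (TrL.c (I.pos (nat_lit 0) (nat_lit 0)) T0.l6
  (TrL.c (I.pos (nat_lit 0) (nat_lit 0)) T0.l8
  (TrL.c (I.pos (nat_lit 0) (nat_lit 0)) T2.l7
  (TrL.c (I.pos (nat_lit 0) (nat_lit 0)) T0.l7
  (TrL.c (I.pos (nat_lit 0) (nat_lit 0)) T2.l8
  TrL.n)))))))) (by decide +kernel)
theorem sv1 : StarV sI cl5 cl6 cl5 t2 t0 t1 :=
  (bt_n (bt_n (bt_n (bt_b bx1_0) (bt_n (bt_b bx1_1) (bt_b bx1_2))) (bt_n (bt_b bx1_3) (bt_n (bt_b bx1_4) (bt_b bx1_5)))) (bt_n (bt_n (bt_b bx1_6) (bt_n (bt_b bx1_7) (bt_b bx1_8))) (bt_n (bt_b bx1_9) (bt_n (bt_b bx1_10) (bt_b bx1_11)))))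
def S1 : StarD := StarD.mk cl5 cl6 cl5 2 0 t1
theorem bx2_0 : BoxOK sI cl6 cl5 cl5 t1 t1 b2_0 :=
  box_mk (TrL.c (I.pos (nat_lit 0) (nat_lit 0)) (xa (xb T1.l0 (xa (xb T1.l0 T1.l0) T1.l0)) (xa (xb T1.l0 T1.l0) (xb T1.l0 T1.l0)))
  (TrL.c (I.pos (nat_lit 0) (nat_lit 0)) T1.l1
  (TrL.c (I.pos (nat_lit 0) (nat_lit 89480386)) (xR (xR T1.l2 T1.l2) (xR T1.l2 T1.l2))
  (TrL.c (I.pos (nat_lit 0) (nat_lit 41530880)) T1.l3
  (TrL.c (I.pos (nat_lit 0) (nat_lit 0)) (xa T1.l4 (xb (xa T1.l4 T1.l4) (xa T1.l4 T1.l4)))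
  (TrL.c (I.pos (nat_lit 0) (nat_lit 0)) T1.l5
  (TrL.c (I.mix (nat_lit 41527258) (nat_lit 41530880)) (xR T1.l6 T1.l2)
  (TrL.c (I.mix (nat_lit 41527258) (nat_lit 4274)) T1.l7
  TrL.n)))))))) (by decide +kernel)
theorem bx2_1 : BoxOK sI cl6 cl5 cl5 t1 t1 b2_1 :=
  box_mk (TrL.c (I.pos (nat_lit 0) (nat_lit 0)) T1.l0
  (TrL.c (I.pos (nat_lit 0) (nat_lit 0)) T1.l1
  (TrL.c (I.pos (nat_lit 0) (nat_lit 89480386)) (xR T1.l2 T1.l2)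
  (TrL.c (I.pos (nat_lit 0) (nat_lit 41530880)) T1.l3
  (TrL.c (I.pos (nat_lit 0) (nat_lit 0)) T1.l4
  (TrL.c (I.pos (nat_lit 0) (nat_lit 0)) T1.l5
  (TrL.c (I.mix (nat_lit 41527258) (nat_lit 41530880)) T1.l6
  (TrL.c (I.mix (nat_lit 41527258) (nat_lit 4274)) T1.l7
  TrL.n)))))))) (by decide +kernel)
theorem bx2_2 : BoxOK sI cl6 cl5 cl5 t1 t1 b2_2 :=
  box_mk (TrL.c (I.pos (nat_lit 0) (nat_lit 0)) T1.l8
  (TrL.c (I.pos (nat_lit 0) (nat_lit 0)) T1.l2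
  (TrL.c (I.mix (nat_lit 41527258) (nat_lit 41530880)) T1.l10
  (TrL.c (I.mix (nat_lit 41527258) (nat_lit 4274)) T1.l6
  TrL.n)))) (by decide +kernel)
theorem bx2_3 : BoxOK sI cl6 cl5 cl5 t1 t1 b2_3 :=
  box_mk (TrL.c (I.pos (nat_lit 0) (nat_lit 0)) (xb (xa T1.l0 T1.l0) (xa T1.l0 T1.l0))
  (TrL.c (I.pos (nat_lit 0) (nat_lit 0)) T1.l1
  (TrL.c (I.pos (nat_lit 0) (nat_lit 89480386)) (xR T1.l2 T1.l2)
  (TrL.c (I.pos (nat_lit 0) (nat_lit 41530880)) T1.l3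
  (TrL.c (I.pos (nat_lit 0) (nat_lit 0)) T1.l4
  (TrL.c (I.pos (nat_lit 0) (nat_lit 0)) T1.l5
  (TrL.c (I.mix (nat_lit 41527258) (nat_lit 41530880)) (xR T1.l6 T1.l2)
  (TrL.c (I.mix (nat_lit 41527258) (nat_lit 4274)) T1.l7
  TrL.n)))))))) (by decide +kernel)
theorem bx2_4 : BoxOK sI cl6 cl5 cl5 t1 t1 b2_4 :=
  box_mk (TrL.c (I.pos (nat_lit 0) (nat_lit 0)) T1.l0
  (TrL.c (I.pos (nat_lit 0) (nat_lit 0)) T1.l8
  (TrL.c (I.pos (nat_lit 0) (nat_lit 89480386)) T1.l2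
  (TrL.c (I.pos (nat_lit 0) (nat_lit 41530880)) T1.l10
  (TrL.c (I.pos (nat_lit 0) (nat_lit 0)) T1.l4
  (TrL.c (I.pos (nat_lit 0) (nat_lit 0)) T1.l5
  (TrL.c (I.mix (nat_lit 41527258) (nat_lit 41530880)) T1.l6
  (TrL.c (I.mix (nat_lit 41527258) (nat_lit 4274)) T1.l7
  TrL.n)))))))) (by decide +kernel)
theorem bx2_5 : BoxOK sI cl6 cl5 cl5 t1 t1 b2_5 :=
  box_mk (TrL.c (I.pos (nat_lit 0) (nat_lit 0)) T1.l0
  (TrL.c (I.pos (nat_lit 0) (nat_lit 0)) T1.l1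
  (TrL.c (I.pos (nat_lit 0) (nat_lit 89480386)) (xR T1.l2 T1.l2)
  (TrL.c (I.pos (nat_lit 0) (nat_lit 41530880)) T1.l3
  (TrL.c (I.pos (nat_lit 0) (nat_lit 0)) T1.l4
  (TrL.c (I.pos (nat_lit 0) (nat_lit 0)) T1.l5
  (TrL.c (I.mix (nat_lit 41527258) (nat_lit 41530880)) T1.l6
  (TrL.c (I.mix (nat_lit 41527258) (nat_lit 4274)) T1.l7
  TrL.n)))))))) (by decide +kernel)
theorem bx2_6 : BoxOK sI cl6 cl5 cl5 t1 t1 b2_6 :=
  box_mk (TrL.c (I.pos (nat_lit 0) (nat_lit 0)) T1.l0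
  (TrL.c (I.pos (nat_lit 0) (nat_lit 0)) T1.l1
  (TrL.c (I.pos (nat_lit 0) (nat_lit 89480386)) T1.l2
  (TrL.c (I.pos (nat_lit 0) (nat_lit 41530880)) T1.l3
  (TrL.c (I.pos (nat_lit 0) (nat_lit 0)) T1.l4
  (TrL.c (I.pos (nat_lit 0) (nat_lit 0)) T1.l5
  (TrL.c (I.mix (nat_lit 41527258) (nat_lit 41530880)) T1.l6
  (TrL.c (I.mix (nat_lit 41527258) (nat_lit 4274)) T1.l7
  TrL.n)))))))) (by decide +kernel)
theorem bx2_7 : BoxOK sI cl6 cl5 cl5 t1 t1 b2_7 :=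
  box_mk (TrL.c (I.pos (nat_lit 0) (nat_lit 0)) (xb T1.l0 T1.l0)
  (TrL.c (I.pos (nat_lit 0) (nat_lit 0)) T1.l1
  (TrL.c (I.pos (nat_lit 0) (nat_lit 89480386)) (xR T1.l2 T1.l2)
  (TrL.c (I.pos (nat_lit 0) (nat_lit 41530880)) T1.l3
  (TrL.c (I.pos (nat_lit 0) (nat_lit 0)) T1.l4
  (TrL.c (I.pos (nat_lit 0) (nat_lit 0)) T1.l5
  (TrL.c (I.mix (nat_lit 41527258) (nat_lit 41530880)) T1.l6
  (TrL.c (I.mix (nat_lit 41527258) (nat_lit 4274)) T1.l7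
  TrL.n)))))))) (by decide +kernel)
theorem bx2_8 : BoxOK sI cl6 cl5 cl5 t1 t1 b2_8 :=
  box_mk (TrL.c (I.pos (nat_lit 0) (nat_lit 0)) T1.l1
  (TrL.c (I.pos (nat_lit 0) (nat_lit 0)) T1.l2
  (TrL.c (I.mix (nat_lit 41527258) (nat_lit 41530880)) (xR T1.l10 T1.l3)
  (TrL.c (I.mix (nat_lit 41527258) (nat_lit 4274)) T1.l11
  TrL.n)))) (by decide +kernel)
theorem bx2_9 : BoxOK sI cl6 cl5 cl5 t1 t1 b2_9 :=
  box_mk (TrL.c (I.pos (nat_lit 0) (nat_lit 0)) T1.l8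
  (TrL.c (I.pos (nat_lit 0) (nat_lit 0)) T1.l9
  (TrL.c (I.mix (nat_lit 41527258) (nat_lit 41530880)) T1.l10
  (TrL.c (I.mix (nat_lit 41527258) (nat_lit 4274)) T1.l11
  TrL.n)))) (by decide +kernel)
theorem sv2 : StarV sI cl6 cl5 cl5 t1 t1 t2 :=
  (bt_n (bt_n (bt_n (bt_b bx2_0) (bt_b bx2_1)) (bt_n (bt_b bx2_2) (bt_n (bt_b bx2_3) (bt_b bx2_4)))) (bt_n (bt_n (bt_b bx2_5) (bt_b bx2_6)) (bt_n (bt_b bx2_7) (bt_n (bt_b bx2_8) (bt_b bx2_9)))))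
def S2 : StarD := StarD.mk cl6 cl5 cl5 1 1 t2
def G : List StarD := [S0, S1, S2]
theorem so0 : StarOK sI G S0 :=
  star_mk (by decide) (by decide) rfl rfl rfl rfl rfl rfl (rfl : _ = t0) (rfl : _ = t2)
  (st_mk (Pth.l (Pth.l (Pth.l Pth.z))) (nat_lit 245695811) (nat_lit 247008943) (by decide +kernel))
  (st_mk (Pth.l (Pth.l (Pth.l Pth.z))) (nat_lit 282999367) (nat_lit 284758078) (by decide +kernel))
  (st_mk (Pth.l (Pth.l (Pth.l Pth.z))) (nat_lit 326500507) (nat_lit 328869858) (by decide +kernel)) sv0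
theorem so1 : StarOK sI G S1 :=
  star_mk (by decide) (by decide) rfl rfl rfl rfl rfl rfl (rfl : _ = t2) (rfl : _ = t0)
  (st_mk (Pth.l (Pth.l (Pth.l Pth.z))) (nat_lit 191300851) (nat_lit 192221908) (by decide +kernel))
  (st_mk (Pth.l (Pth.l (Pth.l Pth.z))) (nat_lit 228406959) (nat_lit 229733193) (by decide +kernel))
  (st_mk (Pth.l (Pth.l (Pth.l Pth.z))) (nat_lit 271747670) (nat_lit 273650464) (by decide +kernel)) sv1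
theorem so2 : StarOK sI G S2 :=
  star_mk (by decide) (by decide) rfl rfl rfl rfl rfl rfl (rfl : _ = t1) (rfl : _ = t1)
  (st_mk (Pth.l (Pth.l (Pth.l Pth.z))) (nat_lit 243646775) (nat_lit 244578764) (by decide +kernel))
  (st_mk (Pth.l (Pth.l (Pth.l Pth.z))) (nat_lit 280261943) (nat_lit 281501610) (by decide +kernel))
  (st_mk (Pth.l (Pth.l (Pth.l Pth.z))) (nat_lit 322827018) (nat_lit 324483969) (by decide +kernel)) sv2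
theorem ok : GroupOK (nat_lit 91226112) (nat_lit 150339584) G := grp_mk (allS_c so0 (allS_c so1 (allS_c so2 allS_n)))
theorem cov : GCov G cl5 cl5 cl6 := cov_mk
  ⟨0, by decide, rfl, rfl, rfl⟩ ⟨1, by decide, rfl, rfl, rfl⟩ ⟨0, by decide, rfl, rfl, rfl⟩ ⟨1, by decide, rfl, rfl, rfl⟩ ⟨2, by decide, rfl, rfl, rfl⟩ ⟨2, by decide, rfl, rfl, rfl⟩
end Q223_1

namespace Q223_2
def sI : I := I.pos (nat_lit 150274048) (nat_lit 209387520)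
def b0_0 : Bx := Bx.mk (St.mk (I.pos (nat_lit 144670720) (nat_lit 270434304)) (I.mix (nat_lit 7946240) (nat_lit 73695232)) (I.mix (nat_lit 74334208) (nat_lit 94961664)) (I.pos (nat_lit 240697344) (nat_lit 434814976)) (I.mix (nat_lit 153747456) (nat_lit 102727680)) (I.mix (nat_lit 112820224) (nat_lit 78872576)) (I.mix (nat_lit 181370880) (nat_lit 121044992)))
  false (nat_lit 1231029)
def b0_1 : Bx := Bx.mk (St.mk (I.pos (nat_lit 21610496) (nat_lit 69992448)) (I.mix (nat_lit 5177344) (nat_lit 53772288)) (I.mix (nat_lit 25526272) (nat_lit 376832)) (I.pos (nat_lit 144310272) (nat_lit 162578432)) (I.mix (nat_lit 49922048) (nat_lit 66928640)) (I.mix (nat_lit 55820288) (nat_lit 43679744)) (I.mix (nat_lit 30375936) (nat_lit 19742720)))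
  false (nat_lit 0)
def b0_2 : Bx := Bx.mk (St.mk (I.pos (nat_lit 53395456) (nat_lit 97501184)) (I.mix (nat_lit 67321856) (nat_lit 5931008)) (I.neg (nat_lit 18759680) (nat_lit 62554112)) (I.pos (nat_lit 152420352) (nat_lit 183894016)) (I.mix (nat_lit 110706688) (nat_lit 53100544)) (I.mix (nat_lit 49758208) (nat_lit 90767360)) (I.mix (nat_lit 39616512) (nat_lit 58425344)))
  false (nat_lit 0)
def b0_3 : Bx := Bx.mk (St.mk (I.neg (nat_lit 21544960) (nat_lit 69992448)) (I.mix (nat_lit 53772288) (nat_lit 5177344)) (I.mix (nat_lit 25526272) (nat_lit 393216)) (I.pos (nat_lit 144310272) (nat_lit 162578432)) (I.mix (nat_lit 66928640) (nat_lit 49922048)) (I.mix (nat_lit 43679744) (nat_lit 55820288)) (I.mix (nat_lit 30375936) (nat_lit 19742720)))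
  true (nat_lit 0)
def b0_4 : Bx := Bx.mk (St.mk (I.pos (nat_lit 53149696) (nat_lit 68386816)) (I.mix (nat_lit 3063808) (nat_lit 14090240)) (I.neg (nat_lit 14778368) (nat_lit 24494080)) (I.pos (nat_lit 153354240) (nat_lit 161939456)) (I.mix (nat_lit 8601600) (nat_lit 15269888)) (I.mix (nat_lit 7159808) (nat_lit 4718592)) (I.mix (nat_lit 4898816) (nat_lit 2736128)))
  false (nat_lit 0)
def b0_5 : Bx := Bx.mk (St.mk (I.pos (nat_lit 63193088) (nat_lit 152322048)) (I.neg (nat_lit 6930432) (nat_lit 67321856)) (I.neg (nat_lit 6275072) (nat_lit 64192512)) (I.pos (nat_lit 163004416) (nat_lit 235126784)) (I.mix (nat_lit 104611840) (nat_lit 67223552)) (I.mix (nat_lit 50905088) (nat_lit 78921728)) (I.mix (nat_lit 48676864) (nat_lit 69566464)))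
  false (nat_lit 0)
def b0_6 : Bx := Bx.mk (St.mk (I.mix (nat_lit 38207488) (nat_lit 9601024)) (I.mix (nat_lit 43237376) (nat_lit 9240576)) (I.neg (nat_lit 2326528) (nat_lit 6963200)) (I.pos (nat_lit 143572992) (nat_lit 154009600)) (I.mix (nat_lit 39813120) (nat_lit 48513024)) (I.mix (nat_lit 33636352) (nat_lit 45875200)) (I.mix (nat_lit 8208384) (nat_lit 7487488)))
  true (nat_lit 0)
def b0_7 : Bx := Bx.mk (St.mk (I.mix (nat_lit 10485760) (nat_lit 38322176)) (I.mix (nat_lit 11501568) (nat_lit 43237376)) (I.neg (nat_lit 2326528) (nat_lit 6963200)) (I.pos (nat_lit 143572992) (nat_lit 154009600)) (I.mix (nat_lit 48513024) (nat_lit 39813120)) (I.mix (nat_lit 45875200) (nat_lit 33669120)) (I.mix (nat_lit 8208384) (nat_lit 7487488)))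
  false (nat_lit 0)
def b0_8 : Bx := Bx.mk (St.mk (I.pos (nat_lit 116244480) (nat_lit 194314240)) (I.mix (nat_lit 38715392) (nat_lit 66863104)) (I.mix (nat_lit 37093376) (nat_lit 85573632)) (I.pos (nat_lit 201211904) (nat_lit 299089920)) (I.mix (nat_lit 163086336) (nat_lit 85082112)) (I.mix (nat_lit 155500544) (nat_lit 88195072)) (I.mix (nat_lit 156385280) (nat_lit 99024896)))
  false (nat_lit 0)
def t0 : BTr := (BTr.n (BTr.n (BTr.n (BTr.b b0_0) (BTr.b b0_1)) (BTr.n (BTr.b b0_2) (BTr.b b0_3))) (BTr.n (BTr.n (BTr.b b0_4) (BTr.b b0_5)) (BTr.n (BTr.b b0_6) (BTr.n (BTr.b b0_7) (BTr.b b0_8)))))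
namespace T0
def l0 : Tr := Tr.L (Pth.l (Pth.l (Pth.l Pth.z)))
def l1 : Tr := Tr.L (Pth.l (Pth.l (Pth.r Pth.z)))
def l2 : Tr := Tr.L (Pth.l (Pth.r (Pth.l Pth.z)))
def l3 : Tr := Tr.L (Pth.l (Pth.r (Pth.r Pth.z)))
def l4 : Tr := Tr.L (Pth.r (Pth.l (Pth.l Pth.z)))
def l5 : Tr := Tr.L (Pth.r (Pth.l (Pth.r Pth.z)))
def l6 : Tr := Tr.L (Pth.r (Pth.r (Pth.l Pth.z)))
def l7 : Tr := Tr.L (Pth.r (Pth.r (Pth.r (Pth.l Pth.z))))
def l8 : Tr := Tr.L (Pth.r (Pth.r (Pth.r (Pth.r Pth.z))))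
end T0
def b1_0 : Bx := Bx.mk (St.mk (I.pos (nat_lit 144883712) (nat_lit 267583488)) (I.mix (nat_lit 9191424) (nat_lit 60882944)) (I.mix (nat_lit 33046528) (nat_lit 96780288)) (I.pos (nat_lit 186023936) (nat_lit 376553472)) (I.mix (nat_lit 145195008) (nat_lit 92635136)) (I.mix (nat_lit 106676224) (nat_lit 76398592)) (I.mix (nat_lit 163823616) (nat_lit 112099328)))
  false (nat_lit 0)
def b1_1 : Bx := Bx.mk (St.mk (I.pos (nat_lit 84656128) (nat_lit 153255936)) (I.neg (nat_lit 8388608) (nat_lit 61685760)) (I.neg (nat_lit 6897664) (nat_lit 55017472)) (I.pos (nat_lit 127500288) (nat_lit 182730752)) (I.mix (nat_lit 95109120) (nat_lit 61636608)) (I.mix (nat_lit 45891584) (nat_lit 76496896)) (I.mix (nat_lit 40026112) (nat_lit 67403776)))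
  false (nat_lit 0)
def b1_2 : Bx := Bx.mk (St.mk (I.mix (nat_lit 29179904) (nat_lit 96256000)) (I.mix (nat_lit 2899968) (nat_lit 42074112)) (I.mix (nat_lit 10829824) (nat_lit 17448960)) (I.pos (nat_lit 85082112) (nat_lit 125026304)) (I.mix (nat_lit 58769408) (nat_lit 49332224)) (I.mix (nat_lit 45498368) (nat_lit 37224448)) (I.mix (nat_lit 28147712) (nat_lit 23003136)))
  false (nat_lit 0)
def b1_3 : Bx := Bx.mk (St.mk (I.mix (nat_lit 29048832) (nat_lit 44482560)) (I.mix (nat_lit 34881536) (nat_lit 2539520)) (I.mix (nat_lit 11812864) (nat_lit 1753088)) (I.pos (nat_lit 84869120) (nat_lit 100581376)) (I.mix (nat_lit 40894464) (nat_lit 36913152)) (I.mix (nat_lit 27049984) (nat_lit 35061760)) (I.mix (nat_lit 12075008) (nat_lit 13025280)))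
  false (nat_lit 0)
def b1_4 : Bx := Bx.mk (St.mk (I.pos (nat_lit 139460608) (nat_lit 204849152)) (I.mix (nat_lit 32129024) (nat_lit 60964864)) (I.mix (nat_lit 22872064) (nat_lit 88834048)) (I.pos (nat_lit 169017344) (nat_lit 254066688)) (I.mix (nat_lit 160399360) (nat_lit 73482240)) (I.mix (nat_lit 149471232) (nat_lit 93208576)) (I.mix (nat_lit 147980288) (nat_lit 90554368)))
  false (nat_lit 0)
def b1_5 : Bx := Bx.mk (St.mk (I.pos (nat_lit 81100800) (nat_lit 122765312)) (I.mix (nat_lit 59293696) (nat_lit 3555328)) (I.neg (nat_lit 6340608) (nat_lit 51380224)) (I.pos (nat_lit 115474432) (nat_lit 149143552)) (I.mix (nat_lit 102350848) (nat_lit 41877504)) (I.mix (nat_lit 51544064) (nat_lit 86179840)) (I.mix (nat_lit 38387712) (nat_lit 58785792)))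
  false (nat_lit 0)
def b1_6 : Bx := Bx.mk (St.mk (I.mix (nat_lit 47955968) (nat_lit 72613888)) (I.mix (nat_lit 5521408) (nat_lit 34881536)) (I.mix (nat_lit 11812864) (nat_lit 13189120)) (I.pos (nat_lit 84869120) (nat_lit 111706112)) (I.mix (nat_lit 36913152) (nat_lit 40878080)) (I.mix (nat_lit 35061760) (nat_lit 27049984)) (I.mix (nat_lit 12075008) (nat_lit 13041664)))
  false (nat_lit 0)
def b1_7 : Bx := Bx.mk (St.mk (I.mix (nat_lit 47005696) (nat_lit 26771456)) (I.mix (nat_lit 35471360) (nat_lit 2211840)) (I.mix (nat_lit 9027584) (nat_lit 3686400)) (I.pos (nat_lit 85360640) (nat_lit 100581376)) (I.mix (nat_lit 40583168) (nat_lit 35717120)) (I.mix (nat_lit 26918912) (nat_lit 35684352)) (I.mix (nat_lit 13582336) (nat_lit 9977856)))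
  false (nat_lit 0)
def b1_8 : Bx := Bx.mk (St.mk (I.pos (nat_lit 128106496) (nat_lit 156139520)) (I.neg (nat_lit 15695872) (nat_lit 43106304)) (I.neg (nat_lit 9732096) (nat_lit 37109760)) (I.pos (nat_lit 160268288) (nat_lit 186253312)) (I.mix (nat_lit 48381952) (nat_lit 27508736)) (I.mix (nat_lit 25952256) (nat_lit 28622848)) (I.mix (nat_lit 26869760) (nat_lit 26361856)))
  false (nat_lit 0)
def b1_9 : Bx := Bx.mk (St.mk (I.pos (nat_lit 83132416) (nat_lit 92487680)) (I.mix (nat_lit 1687552) (nat_lit 8945664)) (I.neg (nat_lit 3145728) (nat_lit 10256384)) (I.pos (nat_lit 117211136) (nat_lit 123781120)) (I.mix (nat_lit 7503872) (nat_lit 11780096)) (I.mix (nat_lit 6586368) (nat_lit 4096000)) (I.mix (nat_lit 5242880) (nat_lit 2457600)))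
  false (nat_lit 0)
def b1_10 : Bx := Bx.mk (St.mk (I.mix (nat_lit 51216384) (nat_lit 47333376)) (I.mix (nat_lit 14073856) (nat_lit 4849664)) (I.mix (nat_lit 4390912) (nat_lit 3735552)) (I.pos (nat_lit 89653248) (nat_lit 100646912)) (I.mix (nat_lit 12173312) (nat_lit 18530304)) (I.mix (nat_lit 10534912) (nat_lit 11321344)) (I.mix (nat_lit 3948544) (nat_lit 3686400)))
  false (nat_lit 0)
def b1_11 : Bx := Bx.mk (St.mk (I.mix (nat_lit 49774592) (nat_lit 3981312)) (I.mix (nat_lit 1605632) (nat_lit 12124160)) (I.neg (nat_lit 6094848) (nat_lit 11223040)) (I.pos (nat_lit 89276416) (nat_lit 100286464)) (I.mix (nat_lit 12107776) (nat_lit 20299776)) (I.mix (nat_lit 12484608) (nat_lit 10977280)) (I.mix (nat_lit 4407296) (nat_lit 4653056)))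
  false (nat_lit 0)
def t1 : BTr := (BTr.n (BTr.n (BTr.n (BTr.b b1_0) (BTr.n (BTr.b b1_1) (BTr.b b1_2))) (BTr.n (BTr.b b1_3) (BTr.n (BTr.b b1_4) (BTr.b b1_5)))) (BTr.n (BTr.n (BTr.b b1_6) (BTr.n (BTr.b b1_7) (BTr.b b1_8))) (BTr.n (BTr.b b1_9) (BTr.n (BTr.b b1_10) (BTr.b b1_11)))))
namespace T1
def l0 : Tr := Tr.L (Pth.l (Pth.l (Pth.l Pth.z)))
def l1 : Tr := Tr.L (Pth.l (Pth.l (Pth.r (Pth.l Pth.z))))
def l2 : Tr := Tr.L (Pth.l (Pth.l (Pth.r (Pth.r Pth.z))))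
def l3 : Tr := Tr.L (Pth.l (Pth.r (Pth.l Pth.z)))
def l4 : Tr := Tr.L (Pth.l (Pth.r (Pth.r (Pth.l Pth.z))))
def l5 : Tr := Tr.L (Pth.l (Pth.r (Pth.r (Pth.r Pth.z))))
def l6 : Tr := Tr.L (Pth.r (Pth.l (Pth.l Pth.z)))
def l7 : Tr := Tr.L (Pth.r (Pth.l (Pth.r (Pth.l Pth.z))))
def l8 : Tr := Tr.L (Pth.r (Pth.l (Pth.r (Pth.r Pth.z))))
def l9 : Tr := Tr.L (Pth.r (Pth.r (Pth.l Pth.z)))
def l10 : Tr := Tr.L (Pth.r (Pth.r (Pth.r (Pth.l Pth.z))))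
def l11 : Tr := Tr.L (Pth.r (Pth.r (Pth.r (Pth.r Pth.z))))
end T1
def b2_0 : Bx := Bx.mk (St.mk (I.pos (nat_lit 141279232) (nat_lit 286162944)) (I.mix (nat_lit 32882688) (nat_lit 69730304)) (I.mix (nat_lit 97189888) (nat_lit 101629952)) (I.pos (nat_lit 237355008) (nat_lit 463536128)) (I.mix (nat_lit 143163392) (nat_lit 100368384)) (I.mix (nat_lit 111132672) (nat_lit 81428480)) (I.mix (nat_lit 170180608) (nat_lit 116981760)))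
  false (nat_lit 31649384)
def b2_1 : Bx := Bx.mk (St.mk (I.pos (nat_lit 68042752) (nat_lit 147275776)) (I.neg (nat_lit 10682368) (nat_lit 72482816)) (I.mix (nat_lit 56999936) (nat_lit 475136)) (I.pos (nat_lit 168558592) (nat_lit 228524032)) (I.mix (nat_lit 101498880) (nat_lit 70205440)) (I.mix (nat_lit 53116928) (nat_lit 77512704)) (I.mix (nat_lit 48988160) (nat_lit 67584000)))
  false (nat_lit 0)
def b2_2 : Bx := Bx.mk (St.mk (I.mix (nat_lit 34439168) (nat_lit 6455296)) (I.mix (nat_lit 44400640) (nat_lit 3964928)) (I.pos (nat_lit 3031040) (nat_lit 8224768)) (I.pos (nat_lit 143441920) (nat_lit 153190400)) (I.mix (nat_lit 38322176) (nat_lit 53706752)) (I.mix (nat_lit 33800192) (nat_lit 44875776)) (I.mix (nat_lit 8110080) (nat_lit 8454144)))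
  true (nat_lit 0)
def b2_3 : Bx := Bx.mk (St.mk (I.pos (nat_lit 127139840) (nat_lit 190201856)) (I.mix (nat_lit 30441472) (nat_lit 66437120)) (I.mix (nat_lit 12468224) (nat_lit 102416384)) (I.pos (nat_lit 208011264) (nat_lit 288522240)) (I.mix (nat_lit 167460864) (nat_lit 83542016)) (I.mix (nat_lit 157188096) (nat_lit 90308608)) (I.mix (nat_lit 161447936) (nat_lit 97665024)))
  false (nat_lit 1388975)
def b2_4 : Bx := Bx.mk (St.mk (I.mix (nat_lit 6455296) (nat_lit 34455552)) (I.mix (nat_lit 3964928) (nat_lit 44400640)) (I.pos (nat_lit 3031040) (nat_lit 8224768)) (I.pos (nat_lit 143441920) (nat_lit 153190400)) (I.mix (nat_lit 53706752) (nat_lit 38322176)) (I.mix (nat_lit 44875776) (nat_lit 33800192)) (I.mix (nat_lit 8110080) (nat_lit 8454144)))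
  false (nat_lit 0)
def b2_5 : Bx := Bx.mk (St.mk (I.pos (nat_lit 122011648) (nat_lit 144900096)) (I.neg (nat_lit 18448384) (nat_lit 42352640)) (I.neg (nat_lit 1638400) (nat_lit 25935872)) (I.pos (nat_lit 204865536) (nat_lit 226492416)) (I.mix (nat_lit 18006016) (nat_lit 14024704)) (I.mix (nat_lit 9633792) (nat_lit 7913472)) (I.mix (nat_lit 9797632) (nat_lit 7110656)))
  false (nat_lit 0)
def b2_6 : Bx := Bx.mk (St.mk (I.mix (nat_lit 7831552) (nat_lit 5111808)) (I.mix (nat_lit 11878400) (nat_lit 2097152)) (I.pos (nat_lit 3948544) (nat_lit 5488640)) (I.pos (nat_lit 143491072) (nat_lit 145522688)) (I.mix (nat_lit 5029888) (nat_lit 12517376)) (I.mix (nat_lit 3358720) (nat_lit 4554752)) (I.mix (nat_lit 950272) (nat_lit 753664)))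
  true (nat_lit 0)
def b2_7 : Bx := Bx.mk (St.mk (I.pos (nat_lit 16973824) (nat_lit 74235904)) (I.mix (nat_lit 10764288) (nat_lit 51937280)) (I.mix (nat_lit 16957440) (nat_lit 11321344)) (I.pos (nat_lit 143572992) (nat_lit 164937728)) (I.mix (nat_lit 54018048) (nat_lit 58490880)) (I.mix (nat_lit 53035008) (nat_lit 42172416)) (I.mix (nat_lit 28311552) (nat_lit 21528576)))
  false (nat_lit 0)
def b2_8 : Bx := Bx.mk (St.mk (I.pos (nat_lit 49528832) (nat_lit 102039552)) (I.mix (nat_lit 68681728) (nat_lit 10698752)) (I.neg (nat_lit 6225920) (nat_lit 51003392)) (I.pos (nat_lit 152207360) (nat_lit 188071936)) (I.mix (nat_lit 106250240) (nat_lit 50626560)) (I.mix (nat_lit 53051392) (nat_lit 87457792)) (I.mix (nat_lit 41910272) (nat_lit 52854784)))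
  false (nat_lit 0)
def b2_9 : Bx := Bx.mk (St.mk (I.neg (nat_lit 16973824) (nat_lit 74465280)) (I.mix (nat_lit 51937280) (nat_lit 13516800)) (I.mix (nat_lit 18464768) (nat_lit 11321344)) (I.pos (nat_lit 143572992) (nat_lit 164937728)) (I.mix (nat_lit 58490880) (nat_lit 54018048)) (I.mix (nat_lit 42188800) (nat_lit 53035008)) (I.mix (nat_lit 28327936) (nat_lit 21528576)))
  true (nat_lit 0)
def t2 : BTr := (BTr.n (BTr.n (BTr.n (BTr.b b2_0) (BTr.b b2_1)) (BTr.n (BTr.b b2_2) (BTr.n (BTr.b b2_3) (BTr.b b2_4)))) (BTr.n (BTr.n (BTr.b b2_5) (BTr.b b2_6)) (BTr.n (BTr.b b2_7) (BTr.n (BTr.b b2_8) (BTr.b b2_9)))))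
namespace T2
def l0 : Tr := Tr.L (Pth.l (Pth.l (Pth.l Pth.z)))
def l1 : Tr := Tr.L (Pth.l (Pth.l (Pth.r Pth.z)))
def l2 : Tr := Tr.L (Pth.l (Pth.r (Pth.l Pth.z)))
def l3 : Tr := Tr.L (Pth.l (Pth.r (Pth.r (Pth.l Pth.z))))
def l4 : Tr := Tr.L (Pth.l (Pth.r (Pth.r (Pth.r Pth.z))))
def l5 : Tr := Tr.L (Pth.r (Pth.l (Pth.l Pth.z)))
def l6 : Tr := Tr.L (Pth.r (Pth.l (Pth.r Pth.z)))
def l7 : Tr := Tr.L (Pth.r (Pth.r (Pth.l Pth.z)))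
def l8 : Tr := Tr.L (Pth.r (Pth.r (Pth.r (Pth.l Pth.z))))
def l9 : Tr := Tr.L (Pth.r (Pth.r (Pth.r (Pth.r Pth.z))))
end T2
theorem bx0_0 : BoxOK sI cl5 cl5 cl6 t0 t2 b0_0 :=
  box_mk (TrL.c (I.pos (nat_lit 0) (nat_lit 0)) (xa (xb (xa T0.l0 T0.l0) (xa (xb T0.l0 (xa T0.l0 T0.l0)) (xb T0.l0 (xa T0.l0 T0.l0)))) (xa (xb T0.l0 (xb T0.l0 T0.l0)) (xb T0.l0 (xb T0.l0 T0.l0))))
  (TrL.c (I.pos (nat_lit 0) (nat_lit 0)) (xa (xb T2.l1 T2.l1) (xb T2.l1 T2.l1))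
  (TrL.c (I.pos (nat_lit 0) (nat_lit 0)) T0.l1
  (TrL.c (I.pos (nat_lit 0) (nat_lit 0)) T2.l2
  (TrL.c (I.pos (nat_lit 0) (nat_lit 0)) (xa T2.l3 (xb (xa T2.l3 T2.l3) (xa T2.l3 (xb T2.l3 T2.l3))))
  (TrL.c (I.pos (nat_lit 0) (nat_lit 0)) (xa T0.l2 (xb T0.l2 T0.l2))
  (TrL.c (I.pos (nat_lit 0) (nat_lit 0)) T2.l4
  (TrL.c (I.pos (nat_lit 0) (nat_lit 0)) T0.l3
  TrL.n)))))))) (by decide +kernel)
theorem bx0_1 : BoxOK sI cl5 cl5 cl6 t0 t2 b0_1 :=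
  box_mk (TrL.c (I.pos (nat_lit 0) (nat_lit 0)) T0.l0
  (TrL.c (I.pos (nat_lit 0) (nat_lit 0)) T2.l1
  (TrL.c (I.pos (nat_lit 0) (nat_lit 0)) T0.l1
  (TrL.c (I.pos (nat_lit 0) (nat_lit 0)) T2.l2
  (TrL.c (I.pos (nat_lit 0) (nat_lit 0)) T2.l3
  (TrL.c (I.pos (nat_lit 0) (nat_lit 0)) T0.l2
  (TrL.c (I.pos (nat_lit 0) (nat_lit 0)) T2.l4
  (TrL.c (I.pos (nat_lit 0) (nat_lit 0)) T0.l3
  TrL.n)))))))) (by decide +kernel)
theorem bx0_2 : BoxOK sI cl5 cl5 cl6 t0 t2 b0_2 :=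
  box_mk (TrL.c (I.pos (nat_lit 0) (nat_lit 0)) (xb (xa T0.l0 T0.l0) T0.l0)
  (TrL.c (I.pos (nat_lit 0) (nat_lit 0)) T2.l1
  (TrL.c (I.pos (nat_lit 0) (nat_lit 0)) T0.l1
  (TrL.c (I.pos (nat_lit 0) (nat_lit 0)) T2.l2
  (TrL.c (I.pos (nat_lit 0) (nat_lit 0)) T2.l3
  (TrL.c (I.pos (nat_lit 0) (nat_lit 0)) T0.l2
  (TrL.c (I.pos (nat_lit 0) (nat_lit 0)) T2.l4
  (TrL.c (I.pos (nat_lit 0) (nat_lit 0)) T0.l3
  TrL.n)))))))) (by decide +kernel)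
theorem bx0_3 : BoxOK sI cl5 cl5 cl6 t0 t2 b0_3 :=
  box_mk (TrL.c (I.pos (nat_lit 0) (nat_lit 0)) T2.l1
  (TrL.c (I.pos (nat_lit 0) (nat_lit 0)) T0.l1
  (TrL.c (I.pos (nat_lit 0) (nat_lit 0)) T2.l2
  TrL.n))) (by decide +kernel)
theorem bx0_4 : BoxOK sI cl5 cl5 cl6 t0 t2 b0_4 :=
  box_mk (TrL.c (I.pos (nat_lit 0) (nat_lit 0)) T0.l0
  (TrL.c (I.pos (nat_lit 0) (nat_lit 0)) T2.l1
  (TrL.c (I.pos (nat_lit 0) (nat_lit 0)) T0.l1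
  (TrL.c (I.pos (nat_lit 0) (nat_lit 0)) T2.l2
  (TrL.c (I.pos (nat_lit 0) (nat_lit 0)) T2.l3
  (TrL.c (I.pos (nat_lit 0) (nat_lit 0)) T0.l2
  (TrL.c (I.pos (nat_lit 0) (nat_lit 0)) T2.l4
  (TrL.c (I.pos (nat_lit 0) (nat_lit 0)) T0.l3
  TrL.n)))))))) (by decide +kernel)
theorem bx0_5 : BoxOK sI cl5 cl5 cl6 t0 t2 b0_5 :=
  box_mk (TrL.c (I.pos (nat_lit 0) (nat_lit 0)) (xa T0.l0 T0.l0)
  (TrL.c (I.pos (nat_lit 0) (nat_lit 0)) T2.l1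
  (TrL.c (I.pos (nat_lit 0) (nat_lit 0)) T0.l1
  (TrL.c (I.pos (nat_lit 0) (nat_lit 0)) T2.l2
  (TrL.c (I.pos (nat_lit 0) (nat_lit 0)) (xa T2.l3 T2.l3)
  (TrL.c (I.pos (nat_lit 0) (nat_lit 0)) T0.l2
  (TrL.c (I.pos (nat_lit 0) (nat_lit 0)) T2.l4
  (TrL.c (I.pos (nat_lit 0) (nat_lit 0)) T0.l3
  TrL.n)))))))) (by decide +kernel)
theorem bx0_6 : BoxOK sI cl5 cl5 cl6 t0 t2 b0_6 :=
  box_mk (TrL.c (I.pos (nat_lit 0) (nat_lit 0)) T2.l1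
  (TrL.c (I.pos (nat_lit 0) (nat_lit 0)) T0.l1
  (TrL.c (I.pos (nat_lit 0) (nat_lit 0)) T2.l2
  TrL.n))) (by decide +kernel)
theorem bx0_7 : BoxOK sI cl5 cl5 cl6 t0 t2 b0_7 :=
  box_mk (TrL.c (I.pos (nat_lit 0) (nat_lit 0)) (xb (xa T0.l0 T0.l0) T0.l0)
  (TrL.c (I.pos (nat_lit 0) (nat_lit 0)) T2.l1
  (TrL.c (I.pos (nat_lit 0) (nat_lit 0)) T0.l1
  (TrL.c (I.pos (nat_lit 0) (nat_lit 0)) T2.l2
  (TrL.c (I.pos (nat_lit 0) (nat_lit 0)) T2.l3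
  (TrL.c (I.pos (nat_lit 0) (nat_lit 0)) T0.l2
  (TrL.c (I.pos (nat_lit 0) (nat_lit 0)) T2.l4
  (TrL.c (I.pos (nat_lit 0) (nat_lit 0)) T0.l3
  TrL.n)))))))) (by decide +kernel)
theorem bx0_8 : BoxOK sI cl5 cl5 cl6 t0 t2 b0_8 :=
  box_mk (TrL.c (I.pos (nat_lit 0) (nat_lit 0)) (xb (xa (xb T0.l0 T0.l0) T0.l0) (xa (xb T0.l0 (xa T0.l0 T0.l0)) (xb T0.l0 (xa T0.l0 T0.l0))))
  (TrL.c (I.pos (nat_lit 0) (nat_lit 0)) (xb T2.l1 T2.l1)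
  (TrL.c (I.pos (nat_lit 0) (nat_lit 0)) T0.l1
  (TrL.c (I.pos (nat_lit 0) (nat_lit 0)) T2.l2
  (TrL.c (I.pos (nat_lit 0) (nat_lit 0)) (xb (xa T2.l3 T2.l3) T2.l3)
  (TrL.c (I.pos (nat_lit 0) (nat_lit 0)) T0.l2
  (TrL.c (I.pos (nat_lit 0) (nat_lit 0)) T2.l4
  (TrL.c (I.pos (nat_lit 0) (nat_lit 0)) T0.l3
  TrL.n)))))))) (by decide +kernel)
theorem sv0 : StarV sI cl5 cl5 cl6 t0 t2 t0 :=
  (bt_n (bt_n (bt_n (bt_b bx0_0) (bt_b bx0_1)) (bt_n (bt_b bx0_2) (bt_b bx0_3))) (bt_n (bt_n (bt_b bx0_4) (bt_b bx0_5)) (bt_n (bt_b bx0_6) (bt_n (bt_b bx0_7) (bt_b bx0_8)))))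
def S0 : StarD := StarD.mk cl5 cl5 cl6 0 2 t0
theorem bx1_0 : BoxOK sI cl5 cl6 cl5 t2 t0 b1_0 :=
  box_mk (TrL.c (I.pos (nat_lit 0) (nat_lit 0)) (xa (xa (xb T2.l0 (xb T2.l0 T2.l0)) (xb T2.l0 (xa T2.l0 T2.l0))) (xa (xb T2.l0 (xa T2.l0 T2.l0)) (xb T2.l0 (xa T2.l0 T2.l3))))
  (TrL.c (I.pos (nat_lit 0) (nat_lit 0)) (xa (xb T0.l5 T0.l5) (xa T0.l5 T0.l5))
  (TrL.c (I.pos (nat_lit 0) (nat_lit 0)) T2.l7
  (TrL.c (I.pos (nat_lit 0) (nat_lit 0)) T0.l6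
  (TrL.c (I.pos (nat_lit 0) (nat_lit 0)) (xa T0.l8 (xb (xa T0.l8 T0.l8) (xa T0.l8 T0.l8)))
  (TrL.c (I.pos (nat_lit 0) (nat_lit 0)) (xa T2.l8 T2.l8)
  (TrL.c (I.pos (nat_lit 0) (nat_lit 0)) T0.l7
  (TrL.c (I.pos (nat_lit 0) (nat_lit 0)) T2.l9
  TrL.n)))))))) (by decide +kernel)
theorem bx1_1 : BoxOK sI cl5 cl6 cl5 t2 t0 b1_1 :=
  box_mk (TrL.c (I.pos (nat_lit 0) (nat_lit 0)) T2.l0
  (TrL.c (I.pos (nat_lit 0) (nat_lit 0)) T0.l5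
  (TrL.c (I.pos (nat_lit 0) (nat_lit 0)) T2.l7
  (TrL.c (I.pos (nat_lit 0) (nat_lit 0)) T0.l6
  (TrL.c (I.pos (nat_lit 0) (nat_lit 0)) T0.l8
  (TrL.c (I.pos (nat_lit 0) (nat_lit 0)) T2.l8
  (TrL.c (I.pos (nat_lit 0) (nat_lit 0)) T0.l7
  (TrL.c (I.pos (nat_lit 0) (nat_lit 0)) T2.l9
  TrL.n)))))))) (by decide +kernel)
theorem bx1_2 : BoxOK sI cl5 cl6 cl5 t2 t0 b1_2 :=
  box_mk (TrL.c (I.pos (nat_lit 0) (nat_lit 0)) (xa T2.l0 T2.l0)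
  (TrL.c (I.pos (nat_lit 0) (nat_lit 0)) T0.l5
  (TrL.c (I.pos (nat_lit 0) (nat_lit 0)) T2.l7
  (TrL.c (I.pos (nat_lit 0) (nat_lit 0)) T0.l6
  (TrL.c (I.pos (nat_lit 0) (nat_lit 0)) T0.l8
  (TrL.c (I.pos (nat_lit 0) (nat_lit 0)) T2.l8
  (TrL.c (I.pos (nat_lit 0) (nat_lit 0)) T0.l7
  (TrL.c (I.pos (nat_lit 0) (nat_lit 0)) T2.l9
  TrL.n)))))))) (by decide +kernel)
theorem bx1_3 : BoxOK sI cl5 cl6 cl5 t2 t0 b1_3 :=
  box_mk (TrL.c (I.pos (nat_lit 0) (nat_lit 0)) T2.l0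
  (TrL.c (I.pos (nat_lit 0) (nat_lit 0)) T0.l8
  (TrL.c (I.pos (nat_lit 0) (nat_lit 0)) T2.l7
  (TrL.c (I.pos (nat_lit 0) (nat_lit 0)) T0.l6
  (TrL.c (I.pos (nat_lit 0) (nat_lit 0)) T0.l5
  (TrL.c (I.pos (nat_lit 0) (nat_lit 0)) T2.l8
  (TrL.c (I.pos (nat_lit 0) (nat_lit 0)) T0.l7
  (TrL.c (I.pos (nat_lit 0) (nat_lit 0)) T2.l9
  TrL.n)))))))) (by decide +kernel)
theorem bx1_4 : BoxOK sI cl5 cl6 cl5 t2 t0 b1_4 :=
  box_mk (TrL.c (I.pos (nat_lit 0) (nat_lit 0)) (xb (xa (xb T2.l0 T2.l0) (xb T2.l0 T2.l0)) (xa (xb T2.l0 (xa T2.l0 T2.l0)) (xb T2.l0 (xa T2.l0 T2.l0))))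
  (TrL.c (I.pos (nat_lit 0) (nat_lit 0)) (xb T0.l5 T0.l5)
  (TrL.c (I.pos (nat_lit 0) (nat_lit 0)) T2.l7
  (TrL.c (I.pos (nat_lit 0) (nat_lit 0)) T0.l6
  (TrL.c (I.pos (nat_lit 0) (nat_lit 0)) (xb T0.l8 T0.l8)
  (TrL.c (I.pos (nat_lit 0) (nat_lit 0)) T2.l8
  (TrL.c (I.pos (nat_lit 0) (nat_lit 0)) T0.l7
  (TrL.c (I.pos (nat_lit 0) (nat_lit 0)) T2.l9
  TrL.n)))))))) (by decide +kernel)
theorem bx1_5 : BoxOK sI cl5 cl6 cl5 t2 t0 b1_5 :=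
  box_mk (TrL.c (I.pos (nat_lit 0) (nat_lit 0)) T2.l0
  (TrL.c (I.pos (nat_lit 0) (nat_lit 0)) T0.l5
  (TrL.c (I.pos (nat_lit 0) (nat_lit 0)) T2.l7
  (TrL.c (I.pos (nat_lit 0) (nat_lit 0)) T0.l6
  (TrL.c (I.pos (nat_lit 0) (nat_lit 0)) T0.l8
  (TrL.c (I.pos (nat_lit 0) (nat_lit 0)) T2.l8
  (TrL.c (I.pos (nat_lit 0) (nat_lit 0)) T0.l7
  (TrL.c (I.pos (nat_lit 0) (nat_lit 0)) T2.l9
  TrL.n)))))))) (by decide +kernel)
theorem bx1_6 : BoxOK sI cl5 cl6 cl5 t2 t0 b1_6 :=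
  box_mk (TrL.c (I.pos (nat_lit 0) (nat_lit 0)) (xa (xa (xb T2.l0 (xa T2.l0 T2.l0)) T2.l0) T2.l0)
  (TrL.c (I.pos (nat_lit 0) (nat_lit 0)) T0.l5
  (TrL.c (I.pos (nat_lit 0) (nat_lit 0)) T2.l7
  (TrL.c (I.pos (nat_lit 0) (nat_lit 0)) T0.l6
  (TrL.c (I.pos (nat_lit 0) (nat_lit 0)) T0.l8
  (TrL.c (I.pos (nat_lit 0) (nat_lit 0)) T2.l8
  (TrL.c (I.pos (nat_lit 0) (nat_lit 0)) T0.l7
  (TrL.c (I.pos (nat_lit 0) (nat_lit 0)) T2.l9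
  TrL.n)))))))) (by decide +kernel)
theorem bx1_7 : BoxOK sI cl5 cl6 cl5 t2 t0 b1_7 :=
  box_mk (TrL.c (I.pos (nat_lit 0) (nat_lit 0)) (xa (xb (xa T2.l0 T2.l0) T2.l0) T2.l0)
  (TrL.c (I.pos (nat_lit 0) (nat_lit 0)) T0.l8
  (TrL.c (I.pos (nat_lit 0) (nat_lit 0)) T2.l8
  (TrL.c (I.pos (nat_lit 0) (nat_lit 0)) T0.l7
  (TrL.c (I.pos (nat_lit 0) (nat_lit 0)) T0.l5
  (TrL.c (I.pos (nat_lit 0) (nat_lit 0)) T2.l7
  (TrL.c (I.pos (nat_lit 0) (nat_lit 0)) T0.l7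
  (TrL.c (I.pos (nat_lit 0) (nat_lit 0)) T2.l9
  TrL.n)))))))) (by decide +kernel)
theorem bx1_8 : BoxOK sI cl5 cl6 cl5 t2 t0 b1_8 :=
  box_mk (TrL.c (I.pos (nat_lit 0) (nat_lit 0)) T2.l0
  (TrL.c (I.pos (nat_lit 0) (nat_lit 0)) T0.l5
  (TrL.c (I.pos (nat_lit 0) (nat_lit 0)) T2.l7
  (TrL.c (I.pos (nat_lit 0) (nat_lit 0)) T0.l6
  (TrL.c (I.pos (nat_lit 0) (nat_lit 0)) T0.l8
  (TrL.c (I.pos (nat_lit 0) (nat_lit 0)) T2.l8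
  (TrL.c (I.pos (nat_lit 0) (nat_lit 0)) T0.l7
  (TrL.c (I.pos (nat_lit 0) (nat_lit 0)) T2.l9
  TrL.n)))))))) (by decide +kernel)
theorem bx1_9 : BoxOK sI cl5 cl6 cl5 t2 t0 b1_9 :=
  box_mk (TrL.c (I.pos (nat_lit 0) (nat_lit 0)) T2.l0
  (TrL.c (I.pos (nat_lit 0) (nat_lit 0)) T0.l5
  (TrL.c (I.pos (nat_lit 0) (nat_lit 0)) T2.l7
  (TrL.c (I.pos (nat_lit 0) (nat_lit 0)) T0.l6
  (TrL.c (I.pos (nat_lit 0) (nat_lit 0)) T0.l8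
  (TrL.c (I.pos (nat_lit 0) (nat_lit 0)) T2.l8
  (TrL.c (I.pos (nat_lit 0) (nat_lit 0)) T0.l7
  (TrL.c (I.pos (nat_lit 0) (nat_lit 0)) T2.l9
  TrL.n)))))))) (by decide +kernel)
theorem bx1_10 : BoxOK sI cl5 cl6 cl5 t2 t0 b1_10 :=
  box_mk (TrL.c (I.pos (nat_lit 0) (nat_lit 0)) T2.l0
  (TrL.c (I.pos (nat_lit 0) (nat_lit 0)) T0.l8
  (TrL.c (I.pos (nat_lit 0) (nat_lit 0)) T2.l7
  (TrL.c (I.pos (nat_lit 0) (nat_lit 0)) T0.l6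
  (TrL.c (I.pos (nat_lit 0) (nat_lit 0)) T0.l8
  (TrL.c (I.pos (nat_lit 0) (nat_lit 0)) T2.l8
  (TrL.c (I.pos (nat_lit 0) (nat_lit 0)) T0.l7
  (TrL.c (I.pos (nat_lit 0) (nat_lit 0)) T2.l9
  TrL.n)))))))) (by decide +kernel)
theorem bx1_11 : BoxOK sI cl5 cl6 cl5 t2 t0 b1_11 :=
  box_mk (TrL.c (I.pos (nat_lit 0) (nat_lit 0)) T2.l0
  (TrL.c (I.pos (nat_lit 0) (nat_lit 0)) T0.l5
  (TrL.c (I.pos (nat_lit 0) (nat_lit 0)) T2.l7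
  (TrL.c (I.pos (nat_lit 0) (nat_lit 0)) T0.l6
  (TrL.c (I.pos (nat_lit 0) (nat_lit 0)) T0.l8
  (TrL.c (I.pos (nat_lit 0) (nat_lit 0)) T2.l8
  (TrL.c (I.pos (nat_lit 0) (nat_lit 0)) T0.l7
  (TrL.c (I.pos (nat_lit 0) (nat_lit 0)) T2.l9
  TrL.n)))))))) (by decide +kernel)
theorem sv1 : StarV sI cl5 cl6 cl5 t2 t0 t1 :=
  (bt_n (bt_n (bt_n (bt_b bx1_0) (bt_n (bt_b bx1_1) (bt_b bx1_2))) (bt_n (bt_b bx1_3) (bt_n (bt_b bx1_4) (bt_b bx1_5)))) (bt_n (bt_n (bt_b bx1_6) (bt_n (bt_b bx1_7) (bt_b bx1_8))) (bt_n (bt_b bx1_9) (bt_n (bt_b bx1_10) (bt_b bx1_11)))))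
def S1 : StarD := StarD.mk cl5 cl6 cl5 2 0 t1
theorem bx2_0 : BoxOK sI cl6 cl5 cl5 t1 t1 b2_0 :=
  box_mk (TrL.c (I.pos (nat_lit 0) (nat_lit 0)) (xa (xb (xa T1.l0 T1.l0) (xa (xb T1.l0 (xa T1.l0 T1.l0)) (xb T1.l0 (xa T1.l0 T1.l0)))) (xb (xa T1.l0 T1.l0) (xa (xb T1.l0 (xa T1.l0 T1.l0)) (xb T1.l0 T1.l0))))
  (TrL.c (I.pos (nat_lit 0) (nat_lit 0)) (xa (xb T1.l1 T1.l1) (xb T1.l1 T1.l1))
  (TrL.c (I.pos (nat_lit 0) (nat_lit 89480386)) (xR (xR T1.l2 T1.l2) (xR T1.l2 T1.l2))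
  (TrL.c (I.pos (nat_lit 0) (nat_lit 41530880)) (xR T1.l3 T1.l3)
  (TrL.c (I.pos (nat_lit 0) (nat_lit 0)) (xa (xb T1.l4 T1.l4) (xb (xa T1.l4 (xb T1.l4 T1.l4)) (xa T1.l4 (xb T1.l4 T1.l4))))
  (TrL.c (I.pos (nat_lit 0) (nat_lit 0)) (xa T1.l5 (xb T1.l5 T1.l5))
  (TrL.c (I.mix (nat_lit 41527258) (nat_lit 41530880)) (xR (xR T1.l6 T1.l6) T1.l2)
  (TrL.c (I.mix (nat_lit 41527258) (nat_lit 4274)) (xR T1.l7 T1.l3)
  TrL.n)))))))) (by decide +kernel)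
theorem bx2_1 : BoxOK sI cl6 cl5 cl5 t1 t1 b2_1 :=
  box_mk (TrL.c (I.pos (nat_lit 0) (nat_lit 0)) T1.l0
  (TrL.c (I.pos (nat_lit 0) (nat_lit 0)) T1.l1
  (TrL.c (I.pos (nat_lit 0) (nat_lit 89480386)) (xR T1.l2 T1.l2)
  (TrL.c (I.pos (nat_lit 0) (nat_lit 41530880)) T1.l3
  (TrL.c (I.pos (nat_lit 0) (nat_lit 0)) T1.l4
  (TrL.c (I.pos (nat_lit 0) (nat_lit 0)) T1.l5
  (TrL.c (I.mix (nat_lit 41527258) (nat_lit 41530880)) T1.l6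
  (TrL.c (I.mix (nat_lit 41527258) (nat_lit 4274)) T1.l7
  TrL.n)))))))) (by decide +kernel)
theorem bx2_2 : BoxOK sI cl6 cl5 cl5 t1 t1 b2_2 :=
  box_mk (TrL.c (I.pos (nat_lit 0) (nat_lit 0)) T1.l8
  (TrL.c (I.pos (nat_lit 0) (nat_lit 0)) T1.l2
  (TrL.c (I.mix (nat_lit 41527258) (nat_lit 41530880)) T1.l10
  (TrL.c (I.mix (nat_lit 41527258) (nat_lit 4274)) T1.l6
  TrL.n)))) (by decide +kernel)
theorem bx2_3 : BoxOK sI cl6 cl5 cl5 t1 t1 b2_3 :=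
  box_mk (TrL.c (I.pos (nat_lit 0) (nat_lit 0)) (xb (xa (xb T1.l0 T1.l0) T1.l0) (xa (xb T1.l0 (xa T1.l0 T1.l0)) (xb T1.l0 T1.l0)))
  (TrL.c (I.pos (nat_lit 0) (nat_lit 0)) T1.l1
  (TrL.c (I.pos (nat_lit 0) (nat_lit 89480386)) (xR T1.l2 (xR T1.l2 T1.l2))
  (TrL.c (I.pos (nat_lit 0) (nat_lit 41530880)) T1.l3
  (TrL.c (I.pos (nat_lit 0) (nat_lit 0)) (xb T1.l4 T1.l4)
  (TrL.c (I.pos (nat_lit 0) (nat_lit 0)) T1.l5
  (TrL.c (I.mix (nat_lit 41527258) (nat_lit 41530880)) (xR T1.l6 T1.l2)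
  (TrL.c (I.mix (nat_lit 41527258) (nat_lit 4274)) T1.l7
  TrL.n)))))))) (by decide +kernel)
theorem bx2_4 : BoxOK sI cl6 cl5 cl5 t1 t1 b2_4 :=
  box_mk (TrL.c (I.pos (nat_lit 0) (nat_lit 0)) (xb T1.l0 T1.l0)
  (TrL.c (I.pos (nat_lit 0) (nat_lit 0)) T1.l8
  (TrL.c (I.pos (nat_lit 0) (nat_lit 89480386)) T1.l2
  (TrL.c (I.pos (nat_lit 0) (nat_lit 41530880)) T1.l10
  (TrL.c (I.pos (nat_lit 0) (nat_lit 0)) T1.l4
  (TrL.c (I.pos (nat_lit 0) (nat_lit 0)) T1.l5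
  (TrL.c (I.mix (nat_lit 41527258) (nat_lit 41530880)) T1.l6
  (TrL.c (I.mix (nat_lit 41527258) (nat_lit 4274)) T1.l7
  TrL.n)))))))) (by decide +kernel)
theorem bx2_5 : BoxOK sI cl6 cl5 cl5 t1 t1 b2_5 :=
  box_mk (TrL.c (I.pos (nat_lit 0) (nat_lit 0)) T1.l0
  (TrL.c (I.pos (nat_lit 0) (nat_lit 0)) T1.l1
  (TrL.c (I.pos (nat_lit 0) (nat_lit 89480386)) (xR T1.l2 T1.l2)
  (TrL.c (I.pos (nat_lit 0) (nat_lit 41530880)) T1.l3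
  (TrL.c (I.pos (nat_lit 0) (nat_lit 0)) T1.l4
  (TrL.c (I.pos (nat_lit 0) (nat_lit 0)) T1.l5
  (TrL.c (I.mix (nat_lit 41527258) (nat_lit 41530880)) T1.l6
  (TrL.c (I.mix (nat_lit 41527258) (nat_lit 4274)) T1.l7
  TrL.n)))))))) (by decide +kernel)
theorem bx2_6 : BoxOK sI cl6 cl5 cl5 t1 t1 b2_6 :=
  box_mk (TrL.c (I.pos (nat_lit 0) (nat_lit 0)) T1.l8
  (TrL.c (I.pos (nat_lit 0) (nat_lit 0)) T1.l9
  (TrL.c (I.mix (nat_lit 41527258) (nat_lit 41530880)) T1.l10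
  (TrL.c (I.mix (nat_lit 41527258) (nat_lit 4274)) T1.l11
  TrL.n)))) (by decide +kernel)
theorem bx2_7 : BoxOK sI cl6 cl5 cl5 t1 t1 b2_7 :=
  box_mk (TrL.c (I.pos (nat_lit 0) (nat_lit 0)) T1.l0
  (TrL.c (I.pos (nat_lit 0) (nat_lit 0)) T1.l1
  (TrL.c (I.pos (nat_lit 0) (nat_lit 89480386)) T1.l2
  (TrL.c (I.pos (nat_lit 0) (nat_lit 41530880)) T1.l3
  (TrL.c (I.pos (nat_lit 0) (nat_lit 0)) T1.l4
  (TrL.c (I.pos (nat_lit 0) (nat_lit 0)) T1.l5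
  (TrL.c (I.mix (nat_lit 41527258) (nat_lit 41530880)) T1.l6
  (TrL.c (I.mix (nat_lit 41527258) (nat_lit 4274)) T1.l7
  TrL.n)))))))) (by decide +kernel)
theorem bx2_8 : BoxOK sI cl6 cl5 cl5 t1 t1 b2_8 :=
  box_mk (TrL.c (I.pos (nat_lit 0) (nat_lit 0)) (xb (xa T1.l0 T1.l0) T1.l0)
  (TrL.c (I.pos (nat_lit 0) (nat_lit 0)) T1.l1
  (TrL.c (I.pos (nat_lit 0) (nat_lit 89480386)) (xR T1.l2 T1.l2)
  (TrL.c (I.pos (nat_lit 0) (nat_lit 41530880)) T1.l3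
  (TrL.c (I.pos (nat_lit 0) (nat_lit 0)) T1.l4
  (TrL.c (I.pos (nat_lit 0) (nat_lit 0)) T1.l5
  (TrL.c (I.mix (nat_lit 41527258) (nat_lit 41530880)) (xR T1.l6 T1.l6)
  (TrL.c (I.mix (nat_lit 41527258) (nat_lit 4274)) T1.l7
  TrL.n)))))))) (by decide +kernel)
theorem bx2_9 : BoxOK sI cl6 cl5 cl5 t1 t1 b2_9 :=
  box_mk (TrL.c (I.pos (nat_lit 0) (nat_lit 0)) T1.l8
  (TrL.c (I.pos (nat_lit 0) (nat_lit 0)) T1.l2
  (TrL.c (I.mix (nat_lit 41527258) (nat_lit 41530880)) (xR T1.l10 T1.l3)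
  (TrL.c (I.mix (nat_lit 41527258) (nat_lit 4274)) T1.l11
  TrL.n)))) (by decide +kernel)
theorem sv2 : StarV sI cl6 cl5 cl5 t1 t1 t2 :=
  (bt_n (bt_n (bt_n (bt_b bx2_0) (bt_b bx2_1)) (bt_n (bt_b bx2_2) (bt_n (bt_b bx2_3) (bt_b bx2_4)))) (bt_n (bt_n (bt_b bx2_5) (bt_b bx2_6)) (bt_n (bt_b bx2_7) (bt_n (bt_b bx2_8) (bt_b bx2_9)))))
def S2 : StarD := StarD.mk cl6 cl5 cl5 1 1 t2
def G : List StarD := [S0, S1, S2]
theorem so0 : StarOK sI G S0 :=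
  star_mk (by decide) (by decide) rfl rfl rfl rfl rfl rfl (rfl : _ = t0) (rfl : _ = t2)
  (st_mk (Pth.l (Pth.l (Pth.l Pth.z))) (nat_lit 246996399) (nat_lit 248338192) (by decide +kernel))
  (st_mk (Pth.l (Pth.l (Pth.l Pth.z))) (nat_lit 284744877) (nat_lit 286548640) (by decide +kernel))
  (st_mk (Pth.l (Pth.l (Pth.l Pth.z))) (nat_lit 328855764) (nat_lit 331296680) (by decide +kernel)) sv0
theorem so1 : StarOK sI G S1 :=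
  star_mk (by decide) (by decide) rfl rfl rfl rfl rfl rfl (rfl : _ = t2) (rfl : _ = t0)
  (st_mk (Pth.l (Pth.l (Pth.l Pth.z))) (nat_lit 192210915) (nat_lit 193149940) (by decide +kernel))
  (st_mk (Pth.l (Pth.l (Pth.l Pth.z))) (nat_lit 229721599) (nat_lit 231079418) (by decide +kernel))
  (st_mk (Pth.l (Pth.l (Pth.l Pth.z))) (nat_lit 273638023) (nat_lit 275596115) (by decide +kernel)) sv1
theorem so2 : StarOK sI G S2 :=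
  star_mk (by decide) (by decide) rfl rfl rfl rfl rfl rfl (rfl : _ = t1) (rfl : _ = t1)
  (st_mk (Pth.l (Pth.l (Pth.l Pth.z))) (nat_lit 244566761) (nat_lit 245513096) (by decide +kernel))
  (st_mk (Pth.l (Pth.l (Pth.l Pth.z))) (nat_lit 281489130) (nat_lit 282751055) (by decide +kernel))
  (st_mk (Pth.l (Pth.l (Pth.l Pth.z))) (nat_lit 324470847) (nat_lit 326162606) (by decide +kernel)) sv2
theorem ok : GroupOK (nat_lit 150274048) (nat_lit 209387520) G := grp_mk (allS_c so0 (allS_c so1 (allS_c so2 allS_n)))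
theorem cov : GCov G cl5 cl5 cl6 := cov_mk
  ⟨0, by decide, rfl, rfl, rfl⟩ ⟨1, by decide, rfl, rfl, rfl⟩ ⟨0, by decide, rfl, rfl, rfl⟩ ⟨1, by decide, rfl, rfl, rfl⟩ ⟨2, by decide, rfl, rfl, rfl⟩ ⟨2, by decide, rfl, rfl, rfl⟩
end Q223_2

namespace Q223_3
def sI : I := I.pos (nat_lit 209321984) (nat_lit 268435456)
def b0_0 : Bx := Bx.mk (St.mk (I.pos (nat_lit 141312000) (nat_lit 222724096)) (I.mix (nat_lit 2113536) (nat_lit 71450624)) (I.mix (nat_lit 2555904) (nat_lit 87277568)) (I.pos (nat_lit 244809728) (nat_lit 352288768)) (I.mix (nat_lit 156123136) (nat_lit 99778560)) (I.mix (nat_lit 83394560) (nat_lit 84295680)) (I.mix (nat_lit 124829696) (nat_lit 127975424)))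
  false (nat_lit 0)
def b0_1 : Bx := Bx.mk (St.mk (I.pos (nat_lit 21331968) (nat_lit 71335936)) (I.mix (nat_lit 5570560) (nat_lit 46661632)) (I.neg (nat_lit 720896) (nat_lit 25837568)) (I.pos (nat_lit 144982016) (nat_lit 163135488)) (I.mix (nat_lit 44236800) (nat_lit 70107136)) (I.mix (nat_lit 49037312) (nat_lit 41549824)) (I.mix (nat_lit 27869184) (nat_lit 16351232)))
  false (nat_lit 0)
def b0_2 : Bx := Bx.mk (St.mk (I.pos (nat_lit 51724288) (nat_lit 94879744)) (I.mix (nat_lit 61571072) (nat_lit 6389760)) (I.neg (nat_lit 18563072) (nat_lit 58540032)) (I.pos (nat_lit 151437312) (nat_lit 182894592)) (I.mix (nat_lit 106856448) (nat_lit 44482560)) (I.mix (nat_lit 42663936) (nat_lit 77742080)) (I.mix (nat_lit 33882112) (nat_lit 46497792)))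
  false (nat_lit 0)
def b0_3 : Bx := Bx.mk (St.mk (I.neg (nat_lit 21331968) (nat_lit 71335936)) (I.mix (nat_lit 46661632) (nat_lit 5570560)) (I.neg (nat_lit 720896) (nat_lit 25837568)) (I.pos (nat_lit 144982016) (nat_lit 163135488)) (I.mix (nat_lit 70107136) (nat_lit 44236800)) (I.mix (nat_lit 41549824) (nat_lit 49070080)) (I.mix (nat_lit 27869184) (nat_lit 16351232)))
  true (nat_lit 0)
def b0_4 : Bx := Bx.mk (St.mk (I.pos (nat_lit 180715520) (nat_lit 271138816)) (I.mix (nat_lit 9355264) (nat_lit 41385984)) (I.mix (nat_lit 76103680) (nat_lit 26722304)) (I.pos (nat_lit 293896192) (nat_lit 438648832)) (I.mix (nat_lit 113983488) (nat_lit 70303744)) (I.mix (nat_lit 71827456) (nat_lit 59686912)) (I.mix (nat_lit 106790912) (nat_lit 100122624)))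
  false (nat_lit 0)
def b0_5 : Bx := Bx.mk (St.mk (I.pos (nat_lit 52297728) (nat_lit 70320128)) (I.mix (nat_lit 4390912) (nat_lit 16039936)) (I.neg (nat_lit 14123008) (nat_lit 25313280)) (I.pos (nat_lit 152944640) (nat_lit 162873344)) (I.mix (nat_lit 13418496) (nat_lit 19677184)) (I.mix (nat_lit 10977280) (nat_lit 7143424)) (I.mix (nat_lit 6897664) (nat_lit 4227072)))
  false (nat_lit 0)
def b0_6 : Bx := Bx.mk (St.mk (I.pos (nat_lit 60899328) (nat_lit 151322624)) (I.neg (nat_lit 5472256) (nat_lit 65748992)) (I.neg (nat_lit 4833280) (nat_lit 62832640)) (I.pos (nat_lit 161660928) (nat_lit 234635264)) (I.mix (nat_lit 108036096) (nat_lit 68501504)) (I.mix (nat_lit 56868864) (nat_lit 67780608)) (I.mix (nat_lit 52723712) (nat_lit 60538880)))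
  false (nat_lit 0)
def b0_7 : Bx := Bx.mk (St.mk (I.mix (nat_lit 39419904) (nat_lit 11550720)) (I.mix (nat_lit 40845312) (nat_lit 9453568)) (I.neg (nat_lit 2162688) (nat_lit 7307264)) (I.pos (nat_lit 143802368) (nat_lit 155484160)) (I.mix (nat_lit 37224448) (nat_lit 56524800)) (I.mix (nat_lit 35946496) (nat_lit 40484864)) (I.mix (nat_lit 7307264) (nat_lit 8634368)))
  true (nat_lit 0)
def b0_8 : Bx := Bx.mk (St.mk (I.mix (nat_lit 11829248) (nat_lit 39419904)) (I.mix (nat_lit 11583488) (nat_lit 40910848)) (I.neg (nat_lit 2162688) (nat_lit 7307264)) (I.pos (nat_lit 143802368) (nat_lit 155484160)) (I.mix (nat_lit 56524800) (nat_lit 37224448)) (I.mix (nat_lit 40484864) (nat_lit 35946496)) (I.mix (nat_lit 7307264) (nat_lit 8634368)))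
  false (nat_lit 0)
def b0_9 : Bx := Bx.mk (St.mk (I.pos (nat_lit 139198464) (nat_lit 193871872)) (I.mix (nat_lit 1949696) (nat_lit 60424192)) (I.pos (nat_lit 8929280) (nat_lit 77168640)) (I.pos (nat_lit 230670336) (nat_lit 301056000)) (I.mix (nat_lit 161447936) (nat_lit 60850176)) (I.mix (nat_lit 138133504) (nat_lit 83640320)) (I.mix (nat_lit 132300800) (nat_lit 92372992)))
  false (nat_lit 0)
def b0_10 : Bx := Bx.mk (St.mk (I.pos (nat_lit 117342208) (nat_lit 185171968)) (I.mix (nat_lit 41041920) (nat_lit 11665408)) (I.mix (nat_lit 39747584) (nat_lit 15810560)) (I.pos (nat_lit 201555968) (nat_lit 276365312)) (I.mix (nat_lit 72597504) (nat_lit 66977792)) (I.mix (nat_lit 59228160) (nat_lit 54329344)) (I.mix (nat_lit 60981248) (nat_lit 52150272)))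
  false (nat_lit 0)
def b0_11 : Bx := Bx.mk (St.mk (I.pos (nat_lit 142721024) (nat_lit 186351616)) (I.mix (nat_lit 5259264) (nat_lit 34160640)) (I.pos (nat_lit 983040) (nat_lit 47972352)) (I.pos (nat_lit 236027904) (nat_lit 280297472)) (I.mix (nat_lit 112427008) (nat_lit 64028672)) (I.mix (nat_lit 114442240) (nat_lit 56901632)) (I.mix (nat_lit 112377856) (nat_lit 59932672)))
  false (nat_lit 0)
def b0_12 : Bx := Bx.mk (St.mk (I.pos (nat_lit 168853504) (nat_lit 224329728)) (I.pos (nat_lit 11517952) (nat_lit 68403200)) (I.mix (nat_lit 4866048) (nat_lit 77529088)) (I.pos (nat_lit 291274752) (nat_lit 349143040)) (I.mix (nat_lit 124370944) (nat_lit 99172352)) (I.mix (nat_lit 97714176) (nat_lit 69648384)) (I.mix (nat_lit 158564352) (nat_lit 104415232)))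
  false (nat_lit 0)
def t0 : BTr := (BTr.n (BTr.n (BTr.n (BTr.b b0_0) (BTr.n (BTr.b b0_1) (BTr.b b0_2))) (BTr.n (BTr.b b0_3) (BTr.n (BTr.b b0_4) (BTr.b b0_5)))) (BTr.n (BTr.n (BTr.b b0_6) (BTr.n (BTr.b b0_7) (BTr.b b0_8))) (BTr.n (BTr.n (BTr.b b0_9) (BTr.b b0_10)) (BTr.n (BTr.b b0_11) (BTr.b b0_12)))))
namespace T0
def l0 : Tr := Tr.L (Pth.l (Pth.l (Pth.l Pth.z)))
def l1 : Tr := Tr.L (Pth.l (Pth.l (Pth.r (Pth.l Pth.z))))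
def l2 : Tr := Tr.L (Pth.l (Pth.l (Pth.r (Pth.r Pth.z))))
def l3 : Tr := Tr.L (Pth.l (Pth.r (Pth.l Pth.z)))
def l4 : Tr := Tr.L (Pth.l (Pth.r (Pth.r (Pth.l Pth.z))))
def l5 : Tr := Tr.L (Pth.l (Pth.r (Pth.r (Pth.r Pth.z))))
def l6 : Tr := Tr.L (Pth.r (Pth.l (Pth.l Pth.z)))
def l7 : Tr := Tr.L (Pth.r (Pth.l (Pth.r (Pth.l Pth.z))))
def l8 : Tr := Tr.L (Pth.r (Pth.l (Pth.r (Pth.r Pth.z))))
def l9 : Tr := Tr.L (Pth.r (Pth.r (Pth.l (Pth.l Pth.z))))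
def l10 : Tr := Tr.L (Pth.r (Pth.r (Pth.l (Pth.r Pth.z))))
def l11 : Tr := Tr.L (Pth.r (Pth.r (Pth.r (Pth.l Pth.z))))
def l12 : Tr := Tr.L (Pth.r (Pth.r (Pth.r (Pth.r Pth.z))))
end T0
def b1_0 : Bx := Bx.mk (St.mk (I.pos (nat_lit 137379840) (nat_lit 226902016)) (I.mix (nat_lit 1851392) (nat_lit 61374464)) (I.mix (nat_lit 2703360) (nat_lit 93192192)) (I.pos (nat_lit 189579264) (nat_lit 297500672)) (I.mix (nat_lit 162283520) (nat_lit 102875136)) (I.mix (nat_lit 96337920) (nat_lit 91750400)) (I.mix (nat_lit 138002432) (nat_lit 132399104)))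
  false (nat_lit 10616025)
def b1_1 : Bx := Bx.mk (St.mk (I.pos (nat_lit 81608704) (nat_lit 156450816)) (I.neg (nat_lit 7782400) (nat_lit 58408960)) (I.neg (nat_lit 7110656) (nat_lit 51494912)) (I.pos (nat_lit 125730816) (nat_lit 187580416)) (I.mix (nat_lit 95371264) (nat_lit 64208896)) (I.mix (nat_lit 51609600) (nat_lit 61505536)) (I.mix (nat_lit 45154304) (nat_lit 54706176)))
  false (nat_lit 0)
def b1_2 : Bx := Bx.mk (St.mk (I.mix (nat_lit 34045952) (nat_lit 97878016)) (I.mix (nat_lit 2949120) (nat_lit 40501248)) (I.mix (nat_lit 11370496) (nat_lit 16842752)) (I.pos (nat_lit 79708160) (nat_lit 126369792)) (I.mix (nat_lit 58671104) (nat_lit 70254592)) (I.mix (nat_lit 49250304) (nat_lit 46235648)) (I.mix (nat_lit 33456128) (nat_lit 25640960)))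
  false (nat_lit 0)
def b1_3 : Bx := Bx.mk (St.mk (I.mix (nat_lit 35733504) (nat_lit 46022656)) (I.mix (nat_lit 34029568) (nat_lit 2637824)) (I.mix (nat_lit 11960320) (nat_lit 1933312)) (I.pos (nat_lit 83542016) (nat_lit 102793216)) (I.mix (nat_lit 41222144) (nat_lit 44941312)) (I.mix (nat_lit 29032448) (nat_lit 31555584)) (I.mix (nat_lit 11780096) (nat_lit 13156352)))
  false (nat_lit 0)
def b1_4 : Bx := Bx.mk (St.mk (I.pos (nat_lit 147472384) (nat_lit 202440704)) (I.mix (nat_lit 8060928) (nat_lit 55640064)) (I.pos (nat_lit 11796480) (nat_lit 82821120)) (I.pos (nat_lit 183992320) (nat_lit 254246912)) (I.mix (nat_lit 147456000) (nat_lit 59015168)) (I.mix (nat_lit 123420672) (nat_lit 77283328)) (I.mix (nat_lit 118587392) (nat_lit 71467008)))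
  false (nat_lit 0)
def b1_5 : Bx := Bx.mk (St.mk (I.pos (nat_lit 79773696) (nat_lit 121470976)) (I.mix (nat_lit 56344576) (nat_lit 3784704)) (I.neg (nat_lit 6225920) (nat_lit 49364992)) (I.pos (nat_lit 114769920) (nat_lit 149291008)) (I.mix (nat_lit 100843520) (nat_lit 36487168)) (I.mix (nat_lit 43024384) (nat_lit 80248832)) (I.mix (nat_lit 32555008) (nat_lit 51871744)))
  false (nat_lit 0)
def b1_6 : Bx := Bx.mk (St.mk (I.mix (nat_lit 50397184) (nat_lit 73678848)) (I.mix (nat_lit 5947392) (nat_lit 34029568)) (I.mix (nat_lit 11960320) (nat_lit 12812288)) (I.pos (nat_lit 83558400) (nat_lit 113295360)) (I.mix (nat_lit 64585728) (nat_lit 42811392)) (I.mix (nat_lit 44433408) (nat_lit 38027264)) (I.mix (nat_lit 16875520) (nat_lit 18382848)))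
  false (nat_lit 0)
def b1_7 : Bx := Bx.mk (St.mk (I.mix (nat_lit 48381952) (nat_lit 32849920)) (I.mix (nat_lit 34832384) (nat_lit 2490368)) (I.mix (nat_lit 9502720) (nat_lit 3489792)) (I.pos (nat_lit 83984384) (nat_lit 102793216)) (I.mix (nat_lit 49119232) (nat_lit 35291136)) (I.mix (nat_lit 28229632) (nat_lit 33013760)) (I.mix (nat_lit 13893632) (nat_lit 9453568)))
  false (nat_lit 0)
def b1_8 : Bx := Bx.mk (St.mk (I.pos (nat_lit 181370880) (nat_lit 267567104)) (I.mix (nat_lit 9732096) (nat_lit 38322176)) (I.mix (nat_lit 33767424) (nat_lit 47333376)) (I.pos (nat_lit 244727808) (nat_lit 378355712)) (I.mix (nat_lit 109805568) (nat_lit 71221248)) (I.mix (nat_lit 69550080) (nat_lit 52658176)) (I.mix (nat_lit 111525888) (nat_lit 94142464)))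
  false (nat_lit 0)
def b1_9 : Bx := Bx.mk (St.mk (I.pos (nat_lit 137199616) (nat_lit 190693376)) (I.mix (nat_lit 31965184) (nat_lit 4079616)) (I.mix (nat_lit 22577152) (nat_lit 18808832)) (I.pos (nat_lit 168148992) (nat_lit 228278272)) (I.mix (nat_lit 76201984) (nat_lit 62275584)) (I.mix (nat_lit 55541760) (nat_lit 50266112)) (I.mix (nat_lit 53313536) (nat_lit 49070080)))
  false (nat_lit 0)
def b1_10 : Bx := Bx.mk (St.mk (I.pos (nat_lit 129449984) (nat_lit 156876800)) (I.neg (nat_lit 16973824) (nat_lit 41189376)) (I.neg (nat_lit 9273344) (nat_lit 34979840)) (I.pos (nat_lit 162201600) (nat_lit 187875328)) (I.mix (nat_lit 35782656) (nat_lit 25346048)) (I.mix (nat_lit 18284544) (nat_lit 22036480)) (I.mix (nat_lit 19005440) (nat_lit 22577152)))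
  false (nat_lit 0)
def b1_11 : Bx := Bx.mk (St.mk (I.pos (nat_lit 82591744) (nat_lit 93224960)) (I.mix (nat_lit 1900544) (nat_lit 8962048)) (I.neg (nat_lit 3293184) (nat_lit 10485760)) (I.pos (nat_lit 117080064) (nat_lit 124551168)) (I.mix (nat_lit 9043968) (nat_lit 13549568)) (I.mix (nat_lit 7340032) (nat_lit 4997120)) (I.mix (nat_lit 5799936) (nat_lit 2998272)))
  false (nat_lit 0)
def b1_12 : Bx := Bx.mk (St.mk (I.mix (nat_lit 52248576) (nat_lit 49774592)) (I.mix (nat_lit 14483456) (nat_lit 4931584)) (I.mix (nat_lit 4292608) (nat_lit 3883008)) (I.pos (nat_lit 88539136) (nat_lit 101220352)) (I.mix (nat_lit 17268736) (nat_lit 20873216)) (I.mix (nat_lit 13303808) (nat_lit 11354112)) (I.mix (nat_lit 4767744) (nat_lit 4472832)))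
  false (nat_lit 0)
def b1_13 : Bx := Bx.mk (St.mk (I.mix (nat_lit 50905088) (nat_lit 6766592)) (I.mix (nat_lit 1277952) (nat_lit 11894784)) (I.neg (nat_lit 5783552) (nat_lit 11370496)) (I.pos (nat_lit 88424448) (nat_lit 100794368)) (I.mix (nat_lit 9256960) (nat_lit 16728064)) (I.mix (nat_lit 7651328) (nat_lit 7012352)) (I.mix (nat_lit 3194880) (nat_lit 3162112)))
  false (nat_lit 0)
def b1_14 : Bx := Bx.mk (St.mk (I.pos (nat_lit 171622400) (nat_lit 227147776)) (I.pos (nat_lit 10551296) (nat_lit 59047936)) (I.pos (nat_lit 14843904) (nat_lit 86589440)) (I.pos (nat_lit 238452736) (nat_lit 295763968)) (I.mix (nat_lit 121405440) (nat_lit 96731136)) (I.mix (nat_lit 98156544) (nat_lit 72318976)) (I.mix (nat_lit 153075712) (nat_lit 93552640)))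
  false (nat_lit 0)
def b1_15 : Bx := Bx.mk (St.mk (I.pos (nat_lit 149585920) (nat_lit 189431808)) (I.mix (nat_lit 11288576) (nat_lit 24100864)) (I.pos (nat_lit 4734976) (nat_lit 47480832)) (I.pos (nat_lit 185827328) (nat_lit 227573760)) (I.mix (nat_lit 104398848) (nat_lit 53313536)) (I.mix (nat_lit 92667904) (nat_lit 49659904)) (I.mix (nat_lit 90341376) (nat_lit 50003968)))
  false (nat_lit 0)
def t1 : BTr := (BTr.n (BTr.n (BTr.n (BTr.n (BTr.b b1_0) (BTr.b b1_1)) (BTr.n (BTr.b b1_2) (BTr.b b1_3))) (BTr.n (BTr.n (BTr.b b1_4) (BTr.b b1_5)) (BTr.n (BTr.b b1_6) (BTr.b b1_7)))) (BTr.n (BTr.n (BTr.n (BTr.b b1_8) (BTr.b b1_9)) (BTr.n (BTr.b b1_10) (BTr.b b1_11))) (BTr.n (BTr.n (BTr.b b1_12) (BTr.b b1_13)) (BTr.n (BTr.b b1_14) (BTr.b b1_15)))))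
namespace T1
def l0 : Tr := Tr.L (Pth.l (Pth.l (Pth.l (Pth.l Pth.z))))
def l1 : Tr := Tr.L (Pth.l (Pth.l (Pth.l (Pth.r Pth.z))))
def l2 : Tr := Tr.L (Pth.l (Pth.l (Pth.r (Pth.l Pth.z))))
def l3 : Tr := Tr.L (Pth.l (Pth.l (Pth.r (Pth.r Pth.z))))
def l4 : Tr := Tr.L (Pth.l (Pth.r (Pth.l (Pth.l Pth.z))))
def l5 : Tr := Tr.L (Pth.l (Pth.r (Pth.l (Pth.r Pth.z))))
def l6 : Tr := Tr.L (Pth.l (Pth.r (Pth.r (Pth.l Pth.z))))
def l7 : Tr := Tr.L (Pth.l (Pth.r (Pth.r (Pth.r Pth.z))))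
def l8 : Tr := Tr.L (Pth.r (Pth.l (Pth.l (Pth.l Pth.z))))
def l9 : Tr := Tr.L (Pth.r (Pth.l (Pth.l (Pth.r Pth.z))))
def l10 : Tr := Tr.L (Pth.r (Pth.l (Pth.r (Pth.l Pth.z))))
def l11 : Tr := Tr.L (Pth.r (Pth.l (Pth.r (Pth.r Pth.z))))
def l12 : Tr := Tr.L (Pth.r (Pth.r (Pth.l (Pth.l Pth.z))))
def l13 : Tr := Tr.L (Pth.r (Pth.r (Pth.l (Pth.r Pth.z))))
def l14 : Tr := Tr.L (Pth.r (Pth.r (Pth.r (Pth.l Pth.z))))
def l15 : Tr := Tr.L (Pth.r (Pth.r (Pth.r (Pth.r Pth.z))))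
end T1
def b2_0 : Bx := Bx.mk (St.mk (I.pos (nat_lit 134119424) (nat_lit 222527488)) (I.mix (nat_lit 2031616) (nat_lit 68943872)) (I.mix (nat_lit 3014656) (nat_lit 104087552)) (I.pos (nat_lit 241680384) (nat_lit 342441984)) (I.mix (nat_lit 170672128) (nat_lit 107610112)) (I.mix (nat_lit 102268928) (nat_lit 96370688)) (I.mix (nat_lit 135774208) (nat_lit 133791744)))
  false (nat_lit 40360632)
def b2_1 : Bx := Bx.mk (St.mk (I.pos (nat_lit 65257472) (nat_lit 148275200)) (I.neg (nat_lit 11780096) (nat_lit 67944448)) (I.mix (nat_lit 51757056) (nat_lit 704512)) (I.pos (nat_lit 167510016) (nat_lit 230752256)) (I.mix (nat_lit 96239616) (nat_lit 64274432)) (I.mix (nat_lit 53788672) (nat_lit 65306624)) (I.mix (nat_lit 49070080) (nat_lit 59555840)))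
  false (nat_lit 0)
def b2_2 : Bx := Bx.mk (St.mk (I.mix (nat_lit 35241984) (nat_lit 7618560)) (I.mix (nat_lit 40861696) (nat_lit 4096000)) (I.pos (nat_lit 2850816) (nat_lit 8224768)) (I.pos (nat_lit 143785984) (nat_lit 154599424)) (I.mix (nat_lit 34324480) (nat_lit 56688640)) (I.mix (nat_lit 31358976) (nat_lit 41861120)) (I.mix (nat_lit 6258688) (nat_lit 8912896)))
  true (nat_lit 0)
def b2_3 : Bx := Bx.mk (St.mk (I.pos (nat_lit 134545408) (nat_lit 188825600)) (I.mix (nat_lit 1671168) (nat_lit 59097088)) (I.pos (nat_lit 25165824) (nat_lit 92946432)) (I.pos (nat_lit 222494720) (nat_lit 288882688)) (I.mix (nat_lit 157368320) (nat_lit 52215808)) (I.mix (nat_lit 129728512) (nat_lit 71712768)) (I.mix (nat_lit 125337600) (nat_lit 79544320)))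
  false (nat_lit 0)
def b2_4 : Bx := Bx.mk (St.mk (I.mix (nat_lit 7618560) (nat_lit 35241984)) (I.mix (nat_lit 4096000) (nat_lit 40861696)) (I.pos (nat_lit 2850816) (nat_lit 8224768)) (I.pos (nat_lit 143785984) (nat_lit 154599424)) (I.mix (nat_lit 56639488) (nat_lit 34324480)) (I.mix (nat_lit 41861120) (nat_lit 31358976)) (I.mix (nat_lit 6258688) (nat_lit 8912896)))
  false (nat_lit 0)
def b2_5 : Bx := Bx.mk (St.mk (I.pos (nat_lit 124780544) (nat_lit 185008128)) (I.mix (nat_lit 29425664) (nat_lit 11665408)) (I.mix (nat_lit 11010048) (nat_lit 35110912)) (I.pos (nat_lit 207159296) (nat_lit 272498688)) (I.mix (nat_lit 71041024) (nat_lit 73793536)) (I.mix (nat_lit 64520192) (nat_lit 59523072)) (I.mix (nat_lit 61784064) (nat_lit 59473920)))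
  false (nat_lit 0)
def b2_6 : Bx := Bx.mk (St.mk (I.pos (nat_lit 118292480) (nat_lit 146784256)) (I.neg (nat_lit 17350656) (nat_lit 42729472)) (I.neg (nat_lit 688128) (nat_lit 26361856)) (I.pos (nat_lit 203522048) (nat_lit 229670912)) (I.mix (nat_lit 29343744) (nat_lit 21086208)) (I.mix (nat_lit 12910592) (nat_lit 13664256)) (I.mix (nat_lit 12910592) (nat_lit 13189120)))
  false (nat_lit 0)
def b2_7 : Bx := Bx.mk (St.mk (I.mix (nat_lit 7946240) (nat_lit 6733824)) (I.mix (nat_lit 12107776) (nat_lit 3014656)) (I.pos (nat_lit 3899392) (nat_lit 5505024)) (I.pos (nat_lit 143867904) (nat_lit 146046976)) (I.mix (nat_lit 8224768) (nat_lit 15777792)) (I.mix (nat_lit 4898816) (nat_lit 7258112)) (I.mix (nat_lit 999424) (nat_lit 786432)))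
  true (nat_lit 0)
def b2_8 : Bx := Bx.mk (St.mk (I.pos (nat_lit 16498688) (nat_lit 75841536)) (I.mix (nat_lit 13828096) (nat_lit 46219264)) (I.mix (nat_lit 18644992) (nat_lit 9781248)) (I.pos (nat_lit 145047552) (nat_lit 166035456)) (I.mix (nat_lit 52019200) (nat_lit 68452352)) (I.mix (nat_lit 46825472) (nat_lit 45809664)) (I.mix (nat_lit 28262400) (nat_lit 21282816)))
  false (nat_lit 0)
def b2_9 : Bx := Bx.mk (St.mk (I.pos (nat_lit 47431680) (nat_lit 99762176)) (I.mix (nat_lit 63733760) (nat_lit 14548992)) (I.neg (nat_lit 4472832) (nat_lit 47759360)) (I.pos (nat_lit 151453696) (nat_lit 188301312)) (I.mix (nat_lit 108462080) (nat_lit 41566208)) (I.mix (nat_lit 50249728) (nat_lit 81510400)) (I.mix (nat_lit 39976960) (nat_lit 47300608)))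
  false (nat_lit 0)
def b2_10 : Bx := Bx.mk (St.mk (I.neg (nat_lit 16498688) (nat_lit 75988992)) (I.mix (nat_lit 46219264) (nat_lit 13828096)) (I.mix (nat_lit 18612224) (nat_lit 9781248)) (I.pos (nat_lit 145047552) (nat_lit 166035456)) (I.mix (nat_lit 68452352) (nat_lit 52019200)) (I.mix (nat_lit 45809664) (nat_lit 46858240)) (I.mix (nat_lit 28229632) (nat_lit 21282816)))
  true (nat_lit 0)
def b2_11 : Bx := Bx.mk (St.mk (I.pos (nat_lit 173998080) (nat_lit 288686080)) (I.mix (nat_lit 33423360) (nat_lit 48021504)) (I.mix (nat_lit 97173504) (nat_lit 62128128)) (I.pos (nat_lit 285327360) (nat_lit 470876160)) (I.mix (nat_lit 117342208) (nat_lit 75448320)) (I.mix (nat_lit 74776576) (nat_lit 72417280)) (I.mix (nat_lit 139624448) (nat_lit 123191296)))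
  false (nat_lit 5993378)
def b2_12 : Bx := Bx.mk (St.mk (I.pos (nat_lit 160595968) (nat_lit 218415104)) (I.pos (nat_lit 21430272) (nat_lit 66977792)) (I.pos (nat_lit 33800192) (nat_lit 99385344)) (I.pos (nat_lit 273186816) (nat_lit 333971456)) (I.mix (nat_lit 133447680) (nat_lit 101515264)) (I.mix (nat_lit 99221504) (nat_lit 78184448)) (I.mix (nat_lit 151994368) (nat_lit 102744064)))
  false (nat_lit 5014616)
def b2_13 : Bx := Bx.mk (St.mk (I.pos (nat_lit 137150464) (nat_lit 183681024)) (I.mix (nat_lit 12107776) (nat_lit 33095680)) (I.pos (nat_lit 10485760) (nat_lit 65011712)) (I.pos (nat_lit 224002048) (nat_lit 274923520)) (I.mix (nat_lit 131678208) (nat_lit 61915136)) (I.mix (nat_lit 120684544) (nat_lit 54640640)) (I.mix (nat_lit 118210560) (nat_lit 57868288)))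
  false (nat_lit 0)
def t2 : BTr := (BTr.n (BTr.n (BTr.n (BTr.b b2_0) (BTr.n (BTr.b b2_1) (BTr.b b2_2))) (BTr.n (BTr.n (BTr.b b2_3) (BTr.b b2_4)) (BTr.n (BTr.b b2_5) (BTr.b b2_6)))) (BTr.n (BTr.n (BTr.b b2_7) (BTr.n (BTr.b b2_8) (BTr.b b2_9))) (BTr.n (BTr.n (BTr.b b2_10) (BTr.b b2_11)) (BTr.n (BTr.b b2_12) (BTr.b b2_13)))))
namespace T2
def l0 : Tr := Tr.L (Pth.l (Pth.l (Pth.l Pth.z)))
def l1 : Tr := Tr.L (Pth.l (Pth.l (Pth.r (Pth.l Pth.z))))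
def l2 : Tr := Tr.L (Pth.l (Pth.l (Pth.r (Pth.r Pth.z))))
def l3 : Tr := Tr.L (Pth.l (Pth.r (Pth.l (Pth.l Pth.z))))
def l4 : Tr := Tr.L (Pth.l (Pth.r (Pth.l (Pth.r Pth.z))))
def l5 : Tr := Tr.L (Pth.l (Pth.r (Pth.r (Pth.l Pth.z))))
def l6 : Tr := Tr.L (Pth.l (Pth.r (Pth.r (Pth.r Pth.z))))
def l7 : Tr := Tr.L (Pth.r (Pth.l (Pth.l Pth.z)))
def l8 : Tr := Tr.L (Pth.r (Pth.l (Pth.r (Pth.l Pth.z))))
def l9 : Tr := Tr.L (Pth.r (Pth.l (Pth.r (Pth.r Pth.z))))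
def l10 : Tr := Tr.L (Pth.r (Pth.r (Pth.l (Pth.l Pth.z))))
def l11 : Tr := Tr.L (Pth.r (Pth.r (Pth.l (Pth.r Pth.z))))
def l12 : Tr := Tr.L (Pth.r (Pth.r (Pth.r (Pth.l Pth.z))))
def l13 : Tr := Tr.L (Pth.r (Pth.r (Pth.r (Pth.r Pth.z))))
end T2
theorem bx0_0 : BoxOK sI cl5 cl5 cl6 t0 t2 b0_0 :=
  box_mk (TrL.c (I.pos (nat_lit 0) (nat_lit 0)) (xa (xb (xa T0.l0 T0.l0) (xa (xb T0.l0 T0.l0) (xb T0.l0 T0.l0))) (xb (xa T0.l0 T0.l0) (xa (xb T0.l0 T0.l0) (xb T0.l0 T0.l0))))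
  (TrL.c (I.pos (nat_lit 0) (nat_lit 0)) (xa (xb T2.l1 T2.l1) (xb T2.l1 T2.l1))
  (TrL.c (I.pos (nat_lit 0) (nat_lit 0)) T0.l1
  (TrL.c (I.pos (nat_lit 0) (nat_lit 0)) T2.l2
  (TrL.c (I.pos (nat_lit 0) (nat_lit 0)) (xa (xb T2.l3 T2.l3) (xb T2.l3 T2.l3))
  (TrL.c (I.pos (nat_lit 0) (nat_lit 0)) (xb T0.l2 T0.l2)
  (TrL.c (I.pos (nat_lit 0) (nat_lit 0)) T2.l4
  (TrL.c (I.pos (nat_lit 0) (nat_lit 0)) T0.l3
  TrL.n)))))))) (by decide +kernel)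
theorem bx0_1 : BoxOK sI cl5 cl5 cl6 t0 t2 b0_1 :=
  box_mk (TrL.c (I.pos (nat_lit 0) (nat_lit 0)) (xb T0.l4 (xa T0.l4 T0.l4))
  (TrL.c (I.pos (nat_lit 0) (nat_lit 0)) T2.l1
  (TrL.c (I.pos (nat_lit 0) (nat_lit 0)) T0.l1
  (TrL.c (I.pos (nat_lit 0) (nat_lit 0)) T2.l2
  (TrL.c (I.pos (nat_lit 0) (nat_lit 0)) T2.l5
  (TrL.c (I.pos (nat_lit 0) (nat_lit 0)) T0.l2
  (TrL.c (I.pos (nat_lit 0) (nat_lit 0)) T2.l4
  (TrL.c (I.pos (nat_lit 0) (nat_lit 0)) T0.l3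
  TrL.n)))))))) (by decide +kernel)
theorem bx0_2 : BoxOK sI cl5 cl5 cl6 t0 t2 b0_2 :=
  box_mk (TrL.c (I.pos (nat_lit 0) (nat_lit 0)) (xb T0.l4 T0.l4)
  (TrL.c (I.pos (nat_lit 0) (nat_lit 0)) T2.l1
  (TrL.c (I.pos (nat_lit 0) (nat_lit 0)) T0.l1
  (TrL.c (I.pos (nat_lit 0) (nat_lit 0)) T2.l2
  (TrL.c (I.pos (nat_lit 0) (nat_lit 0)) T2.l5
  (TrL.c (I.pos (nat_lit 0) (nat_lit 0)) T0.l2
  (TrL.c (I.pos (nat_lit 0) (nat_lit 0)) T2.l4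
  (TrL.c (I.pos (nat_lit 0) (nat_lit 0)) T0.l3
  TrL.n)))))))) (by decide +kernel)
theorem bx0_3 : BoxOK sI cl5 cl5 cl6 t0 t2 b0_3 :=
  box_mk (TrL.c (I.pos (nat_lit 0) (nat_lit 0)) T2.l1
  (TrL.c (I.pos (nat_lit 0) (nat_lit 0)) T0.l1
  (TrL.c (I.pos (nat_lit 0) (nat_lit 0)) T2.l2
  TrL.n))) (by decide +kernel)
theorem bx0_4 : BoxOK sI cl5 cl5 cl6 t0 t2 b0_4 :=
  box_mk (TrL.c (I.pos (nat_lit 0) (nat_lit 0)) (xa (xb T0.l0 T0.l0) (xb (xa T0.l0 T0.l0) (xa T0.l0 T0.l0)))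
  (TrL.c (I.pos (nat_lit 0) (nat_lit 0)) (xa T2.l1 T2.l1)
  (TrL.c (I.pos (nat_lit 0) (nat_lit 0)) T0.l1
  (TrL.c (I.pos (nat_lit 0) (nat_lit 0)) T2.l2
  (TrL.c (I.pos (nat_lit 0) (nat_lit 0)) (xa T2.l3 (xb (xa T2.l3 T2.l3) (xa T2.l3 T2.l3)))
  (TrL.c (I.pos (nat_lit 0) (nat_lit 0)) (xa T0.l2 T0.l6)
  (TrL.c (I.pos (nat_lit 0) (nat_lit 0)) T2.l4
  (TrL.c (I.pos (nat_lit 0) (nat_lit 0)) T0.l3
  TrL.n)))))))) (by decide +kernel)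
theorem bx0_5 : BoxOK sI cl5 cl5 cl6 t0 t2 b0_5 :=
  box_mk (TrL.c (I.pos (nat_lit 0) (nat_lit 0)) T0.l4
  (TrL.c (I.pos (nat_lit 0) (nat_lit 0)) T2.l1
  (TrL.c (I.pos (nat_lit 0) (nat_lit 0)) T0.l1
  (TrL.c (I.pos (nat_lit 0) (nat_lit 0)) T2.l2
  (TrL.c (I.pos (nat_lit 0) (nat_lit 0)) T2.l5
  (TrL.c (I.pos (nat_lit 0) (nat_lit 0)) T0.l2
  (TrL.c (I.pos (nat_lit 0) (nat_lit 0)) T2.l4
  (TrL.c (I.pos (nat_lit 0) (nat_lit 0)) T0.l3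
  TrL.n)))))))) (by decide +kernel)
theorem bx0_6 : BoxOK sI cl5 cl5 cl6 t0 t2 b0_6 :=
  box_mk (TrL.c (I.pos (nat_lit 0) (nat_lit 0)) (xa (xb T0.l4 T0.l4) (xb T0.l4 T0.l4))
  (TrL.c (I.pos (nat_lit 0) (nat_lit 0)) (xa T2.l1 T2.l1)
  (TrL.c (I.pos (nat_lit 0) (nat_lit 0)) T0.l1
  (TrL.c (I.pos (nat_lit 0) (nat_lit 0)) T2.l2
  (TrL.c (I.pos (nat_lit 0) (nat_lit 0)) (xa T2.l5 T2.l5)
  (TrL.c (I.pos (nat_lit 0) (nat_lit 0)) T0.l2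
  (TrL.c (I.pos (nat_lit 0) (nat_lit 0)) T2.l4
  (TrL.c (I.pos (nat_lit 0) (nat_lit 0)) T0.l3
  TrL.n)))))))) (by decide +kernel)
theorem bx0_7 : BoxOK sI cl5 cl5 cl6 t0 t2 b0_7 :=
  box_mk (TrL.c (I.pos (nat_lit 0) (nat_lit 0)) T2.l1
  (TrL.c (I.pos (nat_lit 0) (nat_lit 0)) T0.l1
  (TrL.c (I.pos (nat_lit 0) (nat_lit 0)) T2.l2
  TrL.n))) (by decide +kernel)
theorem bx0_8 : BoxOK sI cl5 cl5 cl6 t0 t2 b0_8 :=
  box_mk (TrL.c (I.pos (nat_lit 0) (nat_lit 0)) (xb T0.l4 (xa T0.l4 T0.l4))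
  (TrL.c (I.pos (nat_lit 0) (nat_lit 0)) T2.l1
  (TrL.c (I.pos (nat_lit 0) (nat_lit 0)) T0.l1
  (TrL.c (I.pos (nat_lit 0) (nat_lit 0)) T2.l2
  (TrL.c (I.pos (nat_lit 0) (nat_lit 0)) T2.l5
  (TrL.c (I.pos (nat_lit 0) (nat_lit 0)) T0.l2
  (TrL.c (I.pos (nat_lit 0) (nat_lit 0)) T2.l4
  (TrL.c (I.pos (nat_lit 0) (nat_lit 0)) T0.l3
  TrL.n)))))))) (by decide +kernel)
theorem bx0_9 : BoxOK sI cl5 cl5 cl6 t0 t2 b0_9 :=
  box_mk (TrL.c (I.pos (nat_lit 0) (nat_lit 0)) (xb (xa T0.l12 T0.l12) (xa (xb T0.l12 T0.l12) (xb T0.l12 T0.l12)))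
  (TrL.c (I.pos (nat_lit 0) (nat_lit 0)) (xb T2.l1 T2.l1)
  (TrL.c (I.pos (nat_lit 0) (nat_lit 0)) T0.l1
  (TrL.c (I.pos (nat_lit 0) (nat_lit 0)) T2.l2
  (TrL.c (I.pos (nat_lit 0) (nat_lit 0)) (xb T2.l13 T2.l3)
  (TrL.c (I.pos (nat_lit 0) (nat_lit 0)) T0.l2
  (TrL.c (I.pos (nat_lit 0) (nat_lit 0)) T2.l4
  (TrL.c (I.pos (nat_lit 0) (nat_lit 0)) T0.l3
  TrL.n)))))))) (by decide +kernel)
theorem bx0_10 : BoxOK sI cl5 cl5 cl6 t0 t2 b0_10 :=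
  box_mk (TrL.c (I.pos (nat_lit 0) (nat_lit 0)) (xa (xb T0.l4 T0.l12) T0.l0)
  (TrL.c (I.pos (nat_lit 0) (nat_lit 0)) T2.l1
  (TrL.c (I.pos (nat_lit 0) (nat_lit 0)) T0.l1
  (TrL.c (I.pos (nat_lit 0) (nat_lit 0)) T2.l2
  (TrL.c (I.pos (nat_lit 0) (nat_lit 0)) (xa T2.l13 T2.l13)
  (TrL.c (I.pos (nat_lit 0) (nat_lit 0)) T0.l2
  (TrL.c (I.pos (nat_lit 0) (nat_lit 0)) T2.l4
  (TrL.c (I.pos (nat_lit 0) (nat_lit 0)) T0.l3
  TrL.n)))))))) (by decide +kernel)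
theorem bx0_11 : BoxOK sI cl5 cl5 cl6 t0 t2 b0_11 :=
  box_mk (TrL.c (I.pos (nat_lit 0) (nat_lit 0)) (xa T0.l12 T0.l12)
  (TrL.c (I.pos (nat_lit 0) (nat_lit 0)) T2.l1
  (TrL.c (I.pos (nat_lit 0) (nat_lit 0)) T0.l1
  (TrL.c (I.pos (nat_lit 0) (nat_lit 0)) T2.l2
  (TrL.c (I.pos (nat_lit 0) (nat_lit 0)) T2.l13
  (TrL.c (I.pos (nat_lit 0) (nat_lit 0)) T0.l2
  (TrL.c (I.pos (nat_lit 0) (nat_lit 0)) T2.l4
  (TrL.c (I.pos (nat_lit 0) (nat_lit 0)) T0.l3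
  TrL.n)))))))) (by decide +kernel)
theorem bx0_12 : BoxOK sI cl5 cl5 cl6 t0 t2 b0_12 :=
  box_mk (TrL.c (I.pos (nat_lit 0) (nat_lit 0)) (xa (xb T0.l0 (xb T0.l0 T0.l0)) (xb T0.l0 (xa T0.l0 T0.l0)))
  (TrL.c (I.pos (nat_lit 0) (nat_lit 0)) (xb T2.l1 T2.l1)
  (TrL.c (I.pos (nat_lit 0) (nat_lit 0)) T0.l1
  (TrL.c (I.pos (nat_lit 0) (nat_lit 0)) T2.l2
  (TrL.c (I.pos (nat_lit 0) (nat_lit 0)) (xb T2.l3 T2.l3)
  (TrL.c (I.pos (nat_lit 0) (nat_lit 0)) T0.l2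
  (TrL.c (I.pos (nat_lit 0) (nat_lit 0)) T2.l4
  (TrL.c (I.pos (nat_lit 0) (nat_lit 0)) T0.l3
  TrL.n)))))))) (by decide +kernel)
theorem sv0 : StarV sI cl5 cl5 cl6 t0 t2 t0 :=
  (bt_n (bt_n (bt_n (bt_b bx0_0) (bt_n (bt_b bx0_1) (bt_b bx0_2))) (bt_n (bt_b bx0_3) (bt_n (bt_b bx0_4) (bt_b bx0_5)))) (bt_n (bt_n (bt_b bx0_6) (bt_n (bt_b bx0_7) (bt_b bx0_8))) (bt_n (bt_n (bt_b bx0_9) (bt_b bx0_10)) (bt_n (bt_b bx0_11) (bt_b bx0_12)))))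
def S0 : StarD := StarD.mk cl5 cl5 cl6 0 2 t0
theorem bx1_0 : BoxOK sI cl5 cl6 cl5 t2 t0 b1_0 :=
  box_mk (TrL.c (I.pos (nat_lit 0) (nat_lit 0)) (xa (xb (xa (xb T2.l0 T2.l0) T2.l0) (xa (xb T2.l0 (xa T2.l0 T2.l0)) (xb T2.l0 T2.l0))) (xb (xa T2.l0 T2.l0) (xa (xb T2.l0 T2.l0) (xb T2.l0 T2.l0))))
  (TrL.c (I.pos (nat_lit 0) (nat_lit 0)) (xa (xb T0.l6 T0.l6) (xb T0.l6 T0.l6))
  (TrL.c (I.pos (nat_lit 0) (nat_lit 0)) T2.l8
  (TrL.c (I.pos (nat_lit 0) (nat_lit 0)) T0.l7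
  (TrL.c (I.pos (nat_lit 0) (nat_lit 0)) (xa (xb T0.l9 T0.l9) (xb T0.l9 T0.l9))
  (TrL.c (I.pos (nat_lit 0) (nat_lit 0)) (xa T2.l9 T2.l9)
  (TrL.c (I.pos (nat_lit 0) (nat_lit 0)) T0.l8
  (TrL.c (I.pos (nat_lit 0) (nat_lit 0)) T2.l10
  TrL.n)))))))) (by decide +kernel)
theorem bx1_1 : BoxOK sI cl5 cl6 cl5 t2 t0 b1_1 :=
  box_mk (TrL.c (I.pos (nat_lit 0) (nat_lit 0)) (xa T2.l11 T2.l11)
  (TrL.c (I.pos (nat_lit 0) (nat_lit 0)) T0.l6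
  (TrL.c (I.pos (nat_lit 0) (nat_lit 0)) T2.l8
  (TrL.c (I.pos (nat_lit 0) (nat_lit 0)) T0.l7
  (TrL.c (I.pos (nat_lit 0) (nat_lit 0)) (xa T0.l10 T0.l10)
  (TrL.c (I.pos (nat_lit 0) (nat_lit 0)) T2.l9
  (TrL.c (I.pos (nat_lit 0) (nat_lit 0)) T0.l8
  (TrL.c (I.pos (nat_lit 0) (nat_lit 0)) T2.l10
  TrL.n)))))))) (by decide +kernel)
theorem bx1_2 : BoxOK sI cl5 cl6 cl5 t2 t0 b1_2 :=
  box_mk (TrL.c (I.pos (nat_lit 0) (nat_lit 0)) (xa (xa (xb T2.l11 (xa T2.l11 T2.l11)) (xb T2.l11 T2.l11)) (xa T2.l11 (xb T2.l11 T2.l11)))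
  (TrL.c (I.pos (nat_lit 0) (nat_lit 0)) (xa T0.l6 T0.l6)
  (TrL.c (I.pos (nat_lit 0) (nat_lit 0)) T2.l8
  (TrL.c (I.pos (nat_lit 0) (nat_lit 0)) T0.l7
  (TrL.c (I.pos (nat_lit 0) (nat_lit 0)) (xa T0.l10 T0.l10)
  (TrL.c (I.pos (nat_lit 0) (nat_lit 0)) T2.l9
  (TrL.c (I.pos (nat_lit 0) (nat_lit 0)) T0.l8
  (TrL.c (I.pos (nat_lit 0) (nat_lit 0)) T2.l10
  TrL.n)))))))) (by decide +kernel)
theorem bx1_3 : BoxOK sI cl5 cl6 cl5 t2 t0 b1_3 :=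
  box_mk (TrL.c (I.pos (nat_lit 0) (nat_lit 0)) T2.l11
  (TrL.c (I.pos (nat_lit 0) (nat_lit 0)) T0.l6
  (TrL.c (I.pos (nat_lit 0) (nat_lit 0)) T2.l8
  (TrL.c (I.pos (nat_lit 0) (nat_lit 0)) T0.l7
  (TrL.c (I.pos (nat_lit 0) (nat_lit 0)) T0.l10
  (TrL.c (I.pos (nat_lit 0) (nat_lit 0)) T2.l9
  (TrL.c (I.pos (nat_lit 0) (nat_lit 0)) T0.l8
  (TrL.c (I.pos (nat_lit 0) (nat_lit 0)) T2.l10
  TrL.n)))))))) (by decide +kernel)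
theorem bx1_4 : BoxOK sI cl5 cl6 cl5 t2 t0 b1_4 :=
  box_mk (TrL.c (I.pos (nat_lit 0) (nat_lit 0)) (xb (xa T2.l12 T2.l12) (xa (xb T2.l12 T2.l12) (xb T2.l12 T2.l12)))
  (TrL.c (I.pos (nat_lit 0) (nat_lit 0)) (xb T0.l6 T0.l6)
  (TrL.c (I.pos (nat_lit 0) (nat_lit 0)) T2.l8
  (TrL.c (I.pos (nat_lit 0) (nat_lit 0)) T0.l7
  (TrL.c (I.pos (nat_lit 0) (nat_lit 0)) (xb T0.l11 T0.l9)
  (TrL.c (I.pos (nat_lit 0) (nat_lit 0)) T2.l9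
  (TrL.c (I.pos (nat_lit 0) (nat_lit 0)) T0.l8
  (TrL.c (I.pos (nat_lit 0) (nat_lit 0)) T2.l10
  TrL.n)))))))) (by decide +kernel)
theorem bx1_5 : BoxOK sI cl5 cl6 cl5 t2 t0 b1_5 :=
  box_mk (TrL.c (I.pos (nat_lit 0) (nat_lit 0)) (xb T2.l11 T2.l11)
  (TrL.c (I.pos (nat_lit 0) (nat_lit 0)) T0.l6
  (TrL.c (I.pos (nat_lit 0) (nat_lit 0)) T2.l8
  (TrL.c (I.pos (nat_lit 0) (nat_lit 0)) T0.l7
  (TrL.c (I.pos (nat_lit 0) (nat_lit 0)) T0.l10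
  (TrL.c (I.pos (nat_lit 0) (nat_lit 0)) T2.l9
  (TrL.c (I.pos (nat_lit 0) (nat_lit 0)) T0.l8
  (TrL.c (I.pos (nat_lit 0) (nat_lit 0)) T2.l10
  TrL.n)))))))) (by decide +kernel)
theorem bx1_6 : BoxOK sI cl5 cl6 cl5 t2 t0 b1_6 :=
  box_mk (TrL.c (I.pos (nat_lit 0) (nat_lit 0)) (xa (xa (xb T2.l11 T2.l11) T2.l11) (xa T2.l11 T2.l11))
  (TrL.c (I.pos (nat_lit 0) (nat_lit 0)) (xa T0.l10 T0.l6)
  (TrL.c (I.pos (nat_lit 0) (nat_lit 0)) T2.l8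
  (TrL.c (I.pos (nat_lit 0) (nat_lit 0)) T0.l7
  (TrL.c (I.pos (nat_lit 0) (nat_lit 0)) (xa T0.l6 T0.l10)
  (TrL.c (I.pos (nat_lit 0) (nat_lit 0)) T2.l9
  (TrL.c (I.pos (nat_lit 0) (nat_lit 0)) T0.l8
  (TrL.c (I.pos (nat_lit 0) (nat_lit 0)) T2.l10
  TrL.n)))))))) (by decide +kernel)
theorem bx1_7 : BoxOK sI cl5 cl6 cl5 t2 t0 b1_7 :=
  box_mk (TrL.c (I.pos (nat_lit 0) (nat_lit 0)) (xa (xb T2.l11 T2.l11) T2.l11)
  (TrL.c (I.pos (nat_lit 0) (nat_lit 0)) T0.l10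
  (TrL.c (I.pos (nat_lit 0) (nat_lit 0)) T2.l8
  (TrL.c (I.pos (nat_lit 0) (nat_lit 0)) T0.l8
  (TrL.c (I.pos (nat_lit 0) (nat_lit 0)) T0.l6
  (TrL.c (I.pos (nat_lit 0) (nat_lit 0)) T2.l9
  (TrL.c (I.pos (nat_lit 0) (nat_lit 0)) T0.l8
  (TrL.c (I.pos (nat_lit 0) (nat_lit 0)) T2.l10
  TrL.n)))))))) (by decide +kernel)
theorem bx1_8 : BoxOK sI cl5 cl6 cl5 t2 t0 b1_8 :=
  box_mk (TrL.c (I.pos (nat_lit 0) (nat_lit 0)) (xa T2.l0 (xb T2.l0 (xa T2.l0 T2.l0)))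
  (TrL.c (I.pos (nat_lit 0) (nat_lit 0)) (xa T0.l6 (xb T0.l6 T0.l6))
  (TrL.c (I.pos (nat_lit 0) (nat_lit 0)) T2.l8
  (TrL.c (I.pos (nat_lit 0) (nat_lit 0)) T0.l7
  (TrL.c (I.pos (nat_lit 0) (nat_lit 0)) (xa T0.l9 (xb (xa T0.l9 T0.l9) (xa T0.l9 T0.l9)))
  (TrL.c (I.pos (nat_lit 0) (nat_lit 0)) (xa T2.l9 T2.l9)
  (TrL.c (I.pos (nat_lit 0) (nat_lit 0)) T0.l8
  (TrL.c (I.pos (nat_lit 0) (nat_lit 0)) T2.l10
  TrL.n)))))))) (by decide +kernel)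
theorem bx1_9 : BoxOK sI cl5 cl6 cl5 t2 t0 b1_9 :=
  box_mk (TrL.c (I.pos (nat_lit 0) (nat_lit 0)) T2.l0
  (TrL.c (I.pos (nat_lit 0) (nat_lit 0)) T0.l6
  (TrL.c (I.pos (nat_lit 0) (nat_lit 0)) T2.l8
  (TrL.c (I.pos (nat_lit 0) (nat_lit 0)) T0.l7
  (TrL.c (I.pos (nat_lit 0) (nat_lit 0)) T0.l11
  (TrL.c (I.pos (nat_lit 0) (nat_lit 0)) T2.l9
  (TrL.c (I.pos (nat_lit 0) (nat_lit 0)) T0.l8
  (TrL.c (I.pos (nat_lit 0) (nat_lit 0)) T2.l10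
  TrL.n)))))))) (by decide +kernel)
theorem bx1_10 : BoxOK sI cl5 cl6 cl5 t2 t0 b1_10 :=
  box_mk (TrL.c (I.pos (nat_lit 0) (nat_lit 0)) T2.l11
  (TrL.c (I.pos (nat_lit 0) (nat_lit 0)) T0.l6
  (TrL.c (I.pos (nat_lit 0) (nat_lit 0)) T2.l8
  (TrL.c (I.pos (nat_lit 0) (nat_lit 0)) T0.l7
  (TrL.c (I.pos (nat_lit 0) (nat_lit 0)) T0.l10
  (TrL.c (I.pos (nat_lit 0) (nat_lit 0)) T2.l9
  (TrL.c (I.pos (nat_lit 0) (nat_lit 0)) T0.l8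
  (TrL.c (I.pos (nat_lit 0) (nat_lit 0)) T2.l10
  TrL.n)))))))) (by decide +kernel)
theorem bx1_11 : BoxOK sI cl5 cl6 cl5 t2 t0 b1_11 :=
  box_mk (TrL.c (I.pos (nat_lit 0) (nat_lit 0)) T2.l11
  (TrL.c (I.pos (nat_lit 0) (nat_lit 0)) T0.l6
  (TrL.c (I.pos (nat_lit 0) (nat_lit 0)) T2.l8
  (TrL.c (I.pos (nat_lit 0) (nat_lit 0)) T0.l7
  (TrL.c (I.pos (nat_lit 0) (nat_lit 0)) T0.l10
  (TrL.c (I.pos (nat_lit 0) (nat_lit 0)) T2.l9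
  (TrL.c (I.pos (nat_lit 0) (nat_lit 0)) T0.l8
  (TrL.c (I.pos (nat_lit 0) (nat_lit 0)) T2.l10
  TrL.n)))))))) (by decide +kernel)
theorem bx1_12 : BoxOK sI cl5 cl6 cl5 t2 t0 b1_12 :=
  box_mk (TrL.c (I.pos (nat_lit 0) (nat_lit 0)) T2.l11
  (TrL.c (I.pos (nat_lit 0) (nat_lit 0)) T0.l6
  (TrL.c (I.pos (nat_lit 0) (nat_lit 0)) T2.l8
  (TrL.c (I.pos (nat_lit 0) (nat_lit 0)) T0.l7
  (TrL.c (I.pos (nat_lit 0) (nat_lit 0)) T0.l10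
  (TrL.c (I.pos (nat_lit 0) (nat_lit 0)) T2.l9
  (TrL.c (I.pos (nat_lit 0) (nat_lit 0)) T0.l8
  (TrL.c (I.pos (nat_lit 0) (nat_lit 0)) T2.l10
  TrL.n)))))))) (by decide +kernel)
theorem bx1_13 : BoxOK sI cl5 cl6 cl5 t2 t0 b1_13 :=
  box_mk (TrL.c (I.pos (nat_lit 0) (nat_lit 0)) T2.l11
  (TrL.c (I.pos (nat_lit 0) (nat_lit 0)) T0.l6
  (TrL.c (I.pos (nat_lit 0) (nat_lit 0)) T2.l8
  (TrL.c (I.pos (nat_lit 0) (nat_lit 0)) T0.l7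
  (TrL.c (I.pos (nat_lit 0) (nat_lit 0)) T0.l10
  (TrL.c (I.pos (nat_lit 0) (nat_lit 0)) T2.l9
  (TrL.c (I.pos (nat_lit 0) (nat_lit 0)) T0.l8
  (TrL.c (I.pos (nat_lit 0) (nat_lit 0)) T2.l10
  TrL.n)))))))) (by decide +kernel)
theorem bx1_14 : BoxOK sI cl5 cl6 cl5 t2 t0 b1_14 :=
  box_mk (TrL.c (I.pos (nat_lit 0) (nat_lit 0)) (xa (xb T2.l0 T2.l0) (xb T2.l0 T2.l0))
  (TrL.c (I.pos (nat_lit 0) (nat_lit 0)) (xa T0.l6 T0.l6)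
  (TrL.c (I.pos (nat_lit 0) (nat_lit 0)) T2.l8
  (TrL.c (I.pos (nat_lit 0) (nat_lit 0)) T0.l7
  (TrL.c (I.pos (nat_lit 0) (nat_lit 0)) (xa T0.l9 T0.l9)
  (TrL.c (I.pos (nat_lit 0) (nat_lit 0)) T2.l9
  (TrL.c (I.pos (nat_lit 0) (nat_lit 0)) T0.l8
  (TrL.c (I.pos (nat_lit 0) (nat_lit 0)) T2.l10
  TrL.n)))))))) (by decide +kernel)
theorem bx1_15 : BoxOK sI cl5 cl6 cl5 t2 t0 b1_15 :=
  box_mk (TrL.c (I.pos (nat_lit 0) (nat_lit 0)) T2.l0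
  (TrL.c (I.pos (nat_lit 0) (nat_lit 0)) T0.l6
  (TrL.c (I.pos (nat_lit 0) (nat_lit 0)) T2.l8
  (TrL.c (I.pos (nat_lit 0) (nat_lit 0)) T0.l7
  (TrL.c (I.pos (nat_lit 0) (nat_lit 0)) T0.l11
  (TrL.c (I.pos (nat_lit 0) (nat_lit 0)) T2.l9
  (TrL.c (I.pos (nat_lit 0) (nat_lit 0)) T0.l8
  (TrL.c (I.pos (nat_lit 0) (nat_lit 0)) T2.l10
  TrL.n)))))))) (by decide +kernel)
theorem sv1 : StarV sI cl5 cl6 cl5 t2 t0 t1 :=
  (bt_n (bt_n (bt_n (bt_n (bt_b bx1_0) (bt_b bx1_1)) (bt_n (bt_b bx1_2) (bt_b bx1_3))) (bt_n (bt_n (bt_b bx1_4) (bt_b bx1_5)) (bt_n (bt_b bx1_6) (bt_b bx1_7)))) (bt_n (bt_n (bt_n (bt_b bx1_8) (bt_b bx1_9)) (bt_n (bt_b bx1_10) (bt_b bx1_11))) (bt_n (bt_n (bt_b bx1_12) (bt_b bx1_13)) (bt_n (bt_b bx1_14) (bt_b bx1_15)))))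
def S1 : StarD := StarD.mk cl5 cl6 cl5 2 0 t1
theorem bx2_0 : BoxOK sI cl6 cl5 cl5 t1 t1 b2_0 :=
  box_mk (TrL.c (I.pos (nat_lit 0) (nat_lit 0)) (xa (xb (xa T1.l0 T1.l0) (xa (xb T1.l0 T1.l0) (xb T1.l0 T1.l0))) (xb T1.l0 (xa (xb T1.l0 T1.l0) T1.l0)))
  (TrL.c (I.pos (nat_lit 0) (nat_lit 0)) (xa T1.l1 (xb T1.l1 T1.l1))
  (TrL.c (I.pos (nat_lit 0) (nat_lit 89480386)) T1.l2
  (TrL.c (I.pos (nat_lit 0) (nat_lit 41530880)) T1.l3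
  (TrL.c (I.pos (nat_lit 0) (nat_lit 0)) (xa T1.l4 (xb T1.l4 T1.l4))
  (TrL.c (I.pos (nat_lit 0) (nat_lit 0)) T1.l5
  (TrL.c (I.mix (nat_lit 41527258) (nat_lit 41530880)) T1.l6
  (TrL.c (I.mix (nat_lit 41527258) (nat_lit 4274)) T1.l7
  TrL.n)))))))) (by decide +kernel)
theorem bx2_1 : BoxOK sI cl6 cl5 cl5 t1 t1 b2_1 :=
  box_mk (TrL.c (I.pos (nat_lit 0) (nat_lit 0)) (xa T1.l8 T1.l8)
  (TrL.c (I.pos (nat_lit 0) (nat_lit 0)) T1.l1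
  (TrL.c (I.pos (nat_lit 0) (nat_lit 89480386)) T1.l2
  (TrL.c (I.pos (nat_lit 0) (nat_lit 41530880)) T1.l3
  (TrL.c (I.pos (nat_lit 0) (nat_lit 0)) (xa T1.l9 T1.l9)
  (TrL.c (I.pos (nat_lit 0) (nat_lit 0)) T1.l5
  (TrL.c (I.mix (nat_lit 41527258) (nat_lit 41530880)) T1.l6
  (TrL.c (I.mix (nat_lit 41527258) (nat_lit 4274)) T1.l7
  TrL.n)))))))) (by decide +kernel)
theorem bx2_2 : BoxOK sI cl6 cl5 cl5 t1 t1 b2_2 :=
  box_mk (TrL.c (I.pos (nat_lit 0) (nat_lit 0)) T1.l1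
  (TrL.c (I.pos (nat_lit 0) (nat_lit 0)) T1.l2
  (TrL.c (I.mix (nat_lit 41527258) (nat_lit 41530880)) T1.l12
  (TrL.c (I.mix (nat_lit 41527258) (nat_lit 4274)) T1.l6
  TrL.n)))) (by decide +kernel)
theorem bx2_3 : BoxOK sI cl6 cl5 cl5 t1 t1 b2_3 :=
  box_mk (TrL.c (I.pos (nat_lit 0) (nat_lit 0)) (xb (xa T1.l14 T1.l14) (xa T1.l14 T1.l14))
  (TrL.c (I.pos (nat_lit 0) (nat_lit 0)) T1.l1
  (TrL.c (I.pos (nat_lit 0) (nat_lit 89480386)) T1.l2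
  (TrL.c (I.pos (nat_lit 0) (nat_lit 41530880)) T1.l3
  (TrL.c (I.pos (nat_lit 0) (nat_lit 0)) T1.l4
  (TrL.c (I.pos (nat_lit 0) (nat_lit 0)) T1.l5
  (TrL.c (I.mix (nat_lit 41527258) (nat_lit 41530880)) T1.l6
  (TrL.c (I.mix (nat_lit 41527258) (nat_lit 4274)) T1.l7
  TrL.n)))))))) (by decide +kernel)
theorem bx2_4 : BoxOK sI cl6 cl5 cl5 t1 t1 b2_4 :=
  box_mk (TrL.c (I.pos (nat_lit 0) (nat_lit 0)) (xb T1.l8 T1.l8)
  (TrL.c (I.pos (nat_lit 0) (nat_lit 0)) T1.l1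
  (TrL.c (I.pos (nat_lit 0) (nat_lit 89480386)) T1.l2
  (TrL.c (I.pos (nat_lit 0) (nat_lit 41530880)) T1.l3
  (TrL.c (I.pos (nat_lit 0) (nat_lit 0)) T1.l9
  (TrL.c (I.pos (nat_lit 0) (nat_lit 0)) T1.l5
  (TrL.c (I.mix (nat_lit 41527258) (nat_lit 41530880)) T1.l6
  (TrL.c (I.mix (nat_lit 41527258) (nat_lit 4274)) T1.l7
  TrL.n)))))))) (by decide +kernel)
theorem bx2_5 : BoxOK sI cl6 cl5 cl5 t1 t1 b2_5 :=
  box_mk (TrL.c (I.pos (nat_lit 0) (nat_lit 0)) (xa T1.l14 T1.l0)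
  (TrL.c (I.pos (nat_lit 0) (nat_lit 0)) T1.l1
  (TrL.c (I.pos (nat_lit 0) (nat_lit 89480386)) T1.l2
  (TrL.c (I.pos (nat_lit 0) (nat_lit 41530880)) T1.l3
  (TrL.c (I.pos (nat_lit 0) (nat_lit 0)) T1.l15
  (TrL.c (I.pos (nat_lit 0) (nat_lit 0)) T1.l5
  (TrL.c (I.mix (nat_lit 41527258) (nat_lit 41530880)) T1.l6
  (TrL.c (I.mix (nat_lit 41527258) (nat_lit 4274)) T1.l7
  TrL.n)))))))) (by decide +kernel)
theorem bx2_6 : BoxOK sI cl6 cl5 cl5 t1 t1 b2_6 :=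
  box_mk (TrL.c (I.pos (nat_lit 0) (nat_lit 0)) T1.l8
  (TrL.c (I.pos (nat_lit 0) (nat_lit 0)) T1.l1
  (TrL.c (I.pos (nat_lit 0) (nat_lit 89480386)) T1.l2
  (TrL.c (I.pos (nat_lit 0) (nat_lit 41530880)) T1.l3
  (TrL.c (I.pos (nat_lit 0) (nat_lit 0)) T1.l9
  (TrL.c (I.pos (nat_lit 0) (nat_lit 0)) T1.l5
  (TrL.c (I.mix (nat_lit 41527258) (nat_lit 41530880)) T1.l6
  (TrL.c (I.mix (nat_lit 41527258) (nat_lit 4274)) T1.l7
  TrL.n)))))))) (by decide +kernel)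
theorem bx2_7 : BoxOK sI cl6 cl5 cl5 t1 t1 b2_7 :=
  box_mk (TrL.c (I.pos (nat_lit 0) (nat_lit 0)) T1.l10
  (TrL.c (I.pos (nat_lit 0) (nat_lit 0)) T1.l11
  (TrL.c (I.mix (nat_lit 41527258) (nat_lit 41530880)) T1.l12
  (TrL.c (I.mix (nat_lit 41527258) (nat_lit 4274)) T1.l13
  TrL.n)))) (by decide +kernel)
theorem bx2_8 : BoxOK sI cl6 cl5 cl5 t1 t1 b2_8 :=
  box_mk (TrL.c (I.pos (nat_lit 0) (nat_lit 0)) (xb T1.l8 (xa T1.l8 T1.l8))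
  (TrL.c (I.pos (nat_lit 0) (nat_lit 0)) T1.l1
  (TrL.c (I.pos (nat_lit 0) (nat_lit 89480386)) T1.l2
  (TrL.c (I.pos (nat_lit 0) (nat_lit 41530880)) T1.l3
  (TrL.c (I.pos (nat_lit 0) (nat_lit 0)) T1.l9
  (TrL.c (I.pos (nat_lit 0) (nat_lit 0)) T1.l5
  (TrL.c (I.mix (nat_lit 41527258) (nat_lit 41530880)) T1.l6
  (TrL.c (I.mix (nat_lit 41527258) (nat_lit 4274)) T1.l7
  TrL.n)))))))) (by decide +kernel)
theorem bx2_9 : BoxOK sI cl6 cl5 cl5 t1 t1 b2_9 :=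
  box_mk (TrL.c (I.pos (nat_lit 0) (nat_lit 0)) (xb T1.l8 T1.l8)
  (TrL.c (I.pos (nat_lit 0) (nat_lit 0)) T1.l1
  (TrL.c (I.pos (nat_lit 0) (nat_lit 89480386)) T1.l2
  (TrL.c (I.pos (nat_lit 0) (nat_lit 41530880)) T1.l3
  (TrL.c (I.pos (nat_lit 0) (nat_lit 0)) T1.l9
  (TrL.c (I.pos (nat_lit 0) (nat_lit 0)) T1.l5
  (TrL.c (I.mix (nat_lit 41527258) (nat_lit 41530880)) T1.l6
  (TrL.c (I.mix (nat_lit 41527258) (nat_lit 4274)) T1.l7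
  TrL.n)))))))) (by decide +kernel)
theorem bx2_10 : BoxOK sI cl6 cl5 cl5 t1 t1 b2_10 :=
  box_mk (TrL.c (I.pos (nat_lit 0) (nat_lit 0)) T1.l1
  (TrL.c (I.pos (nat_lit 0) (nat_lit 0)) T1.l2
  (TrL.c (I.mix (nat_lit 41527258) (nat_lit 41530880)) T1.l12
  (TrL.c (I.mix (nat_lit 41527258) (nat_lit 4274)) T1.l6
  TrL.n)))) (by decide +kernel)
theorem bx2_11 : BoxOK sI cl6 cl5 cl5 t1 t1 b2_11 :=
  box_mk (TrL.c (I.pos (nat_lit 0) (nat_lit 0)) (xa (xb T1.l0 (xa T1.l0 T1.l0)) (xb (xa T1.l0 T1.l0) (xa T1.l0 T1.l0)))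
  (TrL.c (I.pos (nat_lit 0) (nat_lit 0)) (xa T1.l1 (xb T1.l5 T1.l1))
  (TrL.c (I.pos (nat_lit 0) (nat_lit 89480386)) (xR T1.l2 T1.l2)
  (TrL.c (I.pos (nat_lit 0) (nat_lit 41530880)) T1.l3
  (TrL.c (I.pos (nat_lit 0) (nat_lit 0)) (xa (xb (xa T1.l4 T1.l4) T1.l4) (xb (xa T1.l4 (xb T1.l4 T1.l4)) (xa T1.l4 (xb T1.l4 T1.l4))))
  (TrL.c (I.pos (nat_lit 0) (nat_lit 0)) (xa T1.l5 (xb T1.l5 T1.l5))
  (TrL.c (I.mix (nat_lit 41527258) (nat_lit 41530880)) (xR T1.l6 T1.l2)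
  (TrL.c (I.mix (nat_lit 41527258) (nat_lit 4274)) T1.l7
  TrL.n)))))))) (by decide +kernel)
theorem bx2_12 : BoxOK sI cl6 cl5 cl5 t1 t1 b2_12 :=
  box_mk (TrL.c (I.pos (nat_lit 0) (nat_lit 0)) (xa (xb T1.l0 T1.l0) (xb T1.l0 T1.l0))
  (TrL.c (I.pos (nat_lit 0) (nat_lit 0)) T1.l1
  (TrL.c (I.pos (nat_lit 0) (nat_lit 89480386)) T1.l2
  (TrL.c (I.pos (nat_lit 0) (nat_lit 41530880)) T1.l3
  (TrL.c (I.pos (nat_lit 0) (nat_lit 0)) T1.l4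
  (TrL.c (I.pos (nat_lit 0) (nat_lit 0)) T1.l5
  (TrL.c (I.mix (nat_lit 41527258) (nat_lit 41530880)) T1.l6
  (TrL.c (I.mix (nat_lit 41527258) (nat_lit 4274)) T1.l7
  TrL.n)))))))) (by decide +kernel)
theorem bx2_13 : BoxOK sI cl6 cl5 cl5 t1 t1 b2_13 :=
  box_mk (TrL.c (I.pos (nat_lit 0) (nat_lit 0)) (xa T1.l14 T1.l14)
  (TrL.c (I.pos (nat_lit 0) (nat_lit 0)) T1.l1
  (TrL.c (I.pos (nat_lit 0) (nat_lit 89480386)) T1.l2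
  (TrL.c (I.pos (nat_lit 0) (nat_lit 41530880)) T1.l3
  (TrL.c (I.pos (nat_lit 0) (nat_lit 0)) T1.l15
  (TrL.c (I.pos (nat_lit 0) (nat_lit 0)) T1.l5
  (TrL.c (I.mix (nat_lit 41527258) (nat_lit 41530880)) T1.l6
  (TrL.c (I.mix (nat_lit 41527258) (nat_lit 4274)) T1.l7
  TrL.n)))))))) (by decide +kernel)
theorem sv2 : StarV sI cl6 cl5 cl5 t1 t1 t2 :=
  (bt_n (bt_n (bt_n (bt_b bx2_0) (bt_n (bt_b bx2_1) (bt_b bx2_2))) (bt_n (bt_n (bt_b bx2_3) (bt_b bx2_4)) (bt_n (bt_b bx2_5) (bt_b bx2_6)))) (bt_n (bt_n (bt_b bx2_7) (bt_n (bt_b bx2_8) (bt_b bx2_9))) (bt_n (bt_n (bt_b bx2_10) (bt_b bx2_11)) (bt_n (bt_b bx2_12) (bt_b bx2_13)))))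
def S2 : StarD := StarD.mk cl6 cl5 cl5 1 1 t2
def G : List StarD := [S0, S1, S2]
theorem so0 : StarOK sI G S0 :=
  star_mk (by decide) (by decide) rfl rfl rfl rfl rfl rfl (rfl : _ = t0) (rfl : _ = t2)
  (st_mk (Pth.l (Pth.l (Pth.l Pth.z))) (nat_lit 248325510) (nat_lit 249697175) (by decide +kernel))
  (st_mk (Pth.l (Pth.l (Pth.l Pth.z))) (nat_lit 286535254) (nat_lit 288386314) (by decide +kernel))
  (st_mk (Pth.l (Pth.l (Pth.l Pth.z))) (nat_lit 331282333) (nat_lit 333799035) (by decide +kernel)) sv0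
theorem so1 : StarOK sI G S1 :=
  star_mk (by decide) (by decide) rfl rfl rfl rfl rfl rfl (rfl : _ = t2) (rfl : _ = t0)
  (st_mk (Pth.l (Pth.l (Pth.l (Pth.l Pth.z)))) (nat_lit 193138851) (nat_lit 194096522) (by decide +kernel))
  (st_mk (Pth.l (Pth.l (Pth.l (Pth.l Pth.z)))) (nat_lit 231067685) (nat_lit 232458548) (by decide +kernel))
  (st_mk (Pth.l (Pth.l (Pth.l (Pth.l Pth.z)))) (nat_lit 275583472) (nat_lit 277599997) (by decide +kernel)) sv1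
theorem so2 : StarOK sI G S2 :=
  star_mk (by decide) (by decide) rfl rfl rfl rfl rfl rfl (rfl : _ = t1) (rfl : _ = t1)
  (st_mk (Pth.l (Pth.l (Pth.l Pth.z))) (nat_lit 245500994) (nat_lit 246462100) (by decide +kernel))
  (st_mk (Pth.l (Pth.l (Pth.l Pth.z))) (nat_lit 282738443) (nat_lit 284023395) (by decide +kernel))
  (st_mk (Pth.l (Pth.l (Pth.l Pth.z))) (nat_lit 326149309) (nat_lit 327877286) (by decide +kernel)) sv2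
theorem ok : GroupOK (nat_lit 209321984) (nat_lit 268435456) G := grp_mk (allS_c so0 (allS_c so1 (allS_c so2 allS_n)))
theorem cov : GCov G cl5 cl5 cl6 := cov_mk
  ⟨0, by decide, rfl, rfl, rfl⟩ ⟨1, by decide, rfl, rfl, rfl⟩ ⟨0, by decide, rfl, rfl, rfl⟩ ⟨1, by decide, rfl, rfl, rfl⟩ ⟨2, by decide, rfl, rfl, rfl⟩ ⟨2, by decide, rfl, rfl, rfl⟩
end Q223_3


end Pool.Agent.Helper6.MONO
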