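import Pool.Agent.Helper6.MONO.Asm

/-!
Certificate data (generated).
-/

set_option autoImplicit false
set_option linter.all false
noncomputable section
namespace Pool.Agent.Helper6.MONO


namespace Q224_0
def sI : I := I.pos (nat_lit 0) (nat_lit 91291648)
def b0_0 : Bx := Bx.mk (St.mk (I.pos (nat_lit 154222592) (nat_lit 272203776)) (I.mix (nat_lit 10076160) (nat_lit 80117760)) (I.mix (nat_lit 95371264) (nat_lit 89391104)) (I.pos (nat_lit 231882752) (nat_lit 430899200)) (I.mix (nat_lit 108740608) (nat_lit 83230720)) (I.mix (nat_lit 105922560) (nat_lit 69582848)) (I.mix (nat_lit 168525824) (nat_lit 127746048)))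
  false (nat_lit 0)
def b0_1 : Bx := Bx.mk (St.mk (I.pos (nat_lit 23019520) (nat_lit 67239936)) (I.mix (nat_lit 3997696) (nat_lit 53100544)) (I.neg (nat_lit 983040) (nat_lit 28459008)) (I.pos (nat_lit 142606336) (nat_lit 160399360)) (I.mix (nat_lit 29163520) (nat_lit 45498368)) (I.mix (nat_lit 49496064) (nat_lit 31850496)) (I.mix (nat_lit 27082752) (nat_lit 16171008)))
  false (nat_lit 0)
def b0_2 : Bx := Bx.mk (St.mk (I.pos (nat_lit 54919168) (nat_lit 102268928)) (I.mix (nat_lit 68550656) (nat_lit 8060928)) (I.neg (nat_lit 20365312) (nat_lit 67272704)) (I.pos (nat_lit 152551424) (nat_lit 185368576)) (I.mix (nat_lit 84246528) (nat_lit 31195136)) (I.mix (nat_lit 47071232) (nat_lit 79183872)) (I.mix (nat_lit 35373056) (nat_lit 51281920)))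
  false (nat_lit 0)
def b0_3 : Bx := Bx.mk (St.mk (I.neg (nat_lit 22888448) (nat_lit 69320704)) (I.mix (nat_lit 53264384) (nat_lit 6701056)) (I.neg (nat_lit 802816) (nat_lit 31621120)) (I.pos (nat_lit 142475264) (nat_lit 162398208)) (I.mix (nat_lit 45498368) (nat_lit 29163520)) (I.mix (nat_lit 31850496) (nat_lit 49496064)) (I.mix (nat_lit 27082752) (nat_lit 16171008)))
  true (nat_lit 0)
def b0_4 : Bx := Bx.mk (St.mk (I.pos (nat_lit 52658176) (nat_lit 68943872)) (I.mix (nat_lit 6111232) (nat_lit 14893056)) (I.neg (nat_lit 17022976) (nat_lit 31145984)) (I.pos (nat_lit 152354816) (nat_lit 162168832)) (I.mix (nat_lit 11878400) (nat_lit 18530304)) (I.mix (nat_lit 17465344) (nat_lit 9830400)) (I.mix (nat_lit 9617408) (nat_lit 5799936)))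
  false (nat_lit 0)
def b0_5 : Bx := Bx.mk (St.mk (I.pos (nat_lit 68780032) (nat_lit 155320320)) (I.neg (nat_lit 2588672) (nat_lit 79282176)) (I.neg (nat_lit 7389184) (nat_lit 79986688)) (I.pos (nat_lit 163692544) (nat_lit 234717184)) (I.mix (nat_lit 91504640) (nat_lit 64061440)) (I.mix (nat_lit 52412416) (nat_lit 89292800)) (I.mix (nat_lit 49102848) (nat_lit 80805888)))
  false (nat_lit 0)
def b0_6 : Bx := Bx.mk (St.mk (I.mix (nat_lit 42303488) (nat_lit 11124736)) (I.mix (nat_lit 48742400) (nat_lit 12517376)) (I.neg (nat_lit 4997120) (nat_lit 12058624)) (I.pos (nat_lit 141705216) (nat_lit 152567808)) (I.mix (nat_lit 29949952) (nat_lit 41189376)) (I.mix (nat_lit 27738112) (nat_lit 49823744)) (I.mix (nat_lit 7127040) (nat_lit 6209536)))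
  true (nat_lit 0)
def b0_7 : Bx := Bx.mk (St.mk (I.mix (nat_lit 11108352) (nat_lit 42303488)) (I.mix (nat_lit 12517376) (nat_lit 48742400)) (I.neg (nat_lit 4997120) (nat_lit 12058624)) (I.pos (nat_lit 141705216) (nat_lit 152567808)) (I.mix (nat_lit 41189376) (nat_lit 29949952)) (I.mix (nat_lit 49823744) (nat_lit 27738112)) (I.mix (nat_lit 7127040) (nat_lit 6209536)))
  false (nat_lit 0)
def b0_8 : Bx := Bx.mk (St.mk (I.pos (nat_lit 119439360) (nat_lit 206258176)) (I.mix (nat_lit 44335104) (nat_lit 79511552)) (I.mix (nat_lit 50872320) (nat_lit 91619328)) (I.pos (nat_lit 195756032) (nat_lit 307265536)) (I.mix (nat_lit 130072576) (nat_lit 61685760)) (I.mix (nat_lit 158253056) (nat_lit 88375296)) (I.mix (nat_lit 157974528) (nat_lit 96141312)))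
  false (nat_lit 0)
def t0 : BTr := (BTr.n (BTr.n (BTr.n (BTr.b b0_0) (BTr.b b0_1)) (BTr.n (BTr.b b0_2) (BTr.b b0_3))) (BTr.n (BTr.n (BTr.b b0_4) (BTr.b b0_5)) (BTr.n (BTr.b b0_6) (BTr.n (BTr.b b0_7) (BTr.b b0_8)))))
namespace T0
def l0 : Tr := Tr.L (Pth.l (Pth.l (Pth.l Pth.z)))
def l1 : Tr := Tr.L (Pth.l (Pth.l (Pth.r Pth.z)))
def l2 : Tr := Tr.L (Pth.l (Pth.r (Pth.l Pth.z)))
def l3 : Tr := Tr.L (Pth.l (Pth.r (Pth.r Pth.z)))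
def l4 : Tr := Tr.L (Pth.r (Pth.l (Pth.l Pth.z)))
def l5 : Tr := Tr.L (Pth.r (Pth.l (Pth.r Pth.z)))
def l6 : Tr := Tr.L (Pth.r (Pth.r (Pth.l Pth.z)))
def l7 : Tr := Tr.L (Pth.r (Pth.r (Pth.r (Pth.l Pth.z))))
def l8 : Tr := Tr.L (Pth.r (Pth.r (Pth.r (Pth.r Pth.z))))
end T0
def b1_0 : Bx := Bx.mk (St.mk (I.pos (nat_lit 154058752) (nat_lit 275169280)) (I.mix (nat_lit 12910592) (nat_lit 59097088)) (I.mix (nat_lit 32555008) (nat_lit 98533376)) (I.pos (nat_lit 132399104) (nat_lit 354156544)) (I.mix (nat_lit 99532800) (nat_lit 73236480)) (I.mix (nat_lit 96714752) (nat_lit 68026368)) (I.mix (nat_lit 153731072) (nat_lit 97304576)))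
  false (nat_lit 0)
def b1_1 : Bx := Bx.mk (St.mk (I.pos (nat_lit 96518144) (nat_lit 170295296)) (I.mix (nat_lit 73908224) (nat_lit 3899392)) (I.neg (nat_lit 196608) (nat_lit 70139904)) (I.pos (nat_lit 98926592) (nat_lit 170590208)) (I.mix (nat_lit 93159424) (nat_lit 45694976)) (I.mix (nat_lit 50888704) (nat_lit 78741504)) (I.mix (nat_lit 40452096) (nat_lit 67928064)))
  false (nat_lit 0)
def b1_2 : Bx := Bx.mk (St.mk (I.mix (nat_lit 27049984) (nat_lit 121798656)) (I.mix (nat_lit 5013504) (nat_lit 39108608)) (I.mix (nat_lit 8699904) (nat_lit 25427968)) (I.pos (nat_lit 39583744) (nat_lit 117276672)) (I.mix (nat_lit 42663936) (nat_lit 32374784)) (I.mix (nat_lit 40468480) (nat_lit 29802496)) (I.mix (nat_lit 28999680) (nat_lit 21757952)))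
  false (nat_lit 0)
def b1_3 : Bx := Bx.mk (St.mk (I.mix (nat_lit 31604736) (nat_lit 84787200)) (I.mix (nat_lit 37371904) (nat_lit 4063232)) (I.mix (nat_lit 21921792) (nat_lit 3063808)) (I.pos (nat_lit 38060032) (nat_lit 90062848)) (I.mix (nat_lit 36274176) (nat_lit 27459584)) (I.mix (nat_lit 26165248) (nat_lit 34603008)) (I.mix (nat_lit 15269888) (nat_lit 18497536)))
  false (nat_lit 0)
def b1_4 : Bx := Bx.mk (St.mk (I.pos (nat_lit 146440192) (nat_lit 217497600)) (I.mix (nat_lit 37453824) (nat_lit 75251712)) (I.mix (nat_lit 31866880) (nat_lit 113000448)) (I.pos (nat_lit 127123456) (nat_lit 240386048)) (I.mix (nat_lit 145899520) (nat_lit 58769408)) (I.mix (nat_lit 173621248) (nat_lit 101187584)) (I.mix (nat_lit 199884800) (nat_lit 108085248)))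
  false (nat_lit 0)
def b1_5 : Bx := Bx.mk (St.mk (I.pos (nat_lit 94601216) (nat_lit 147996672)) (I.mix (nat_lit 67796992) (nat_lit 6438912)) (I.mix (nat_lit 63062016) (nat_lit 999424)) (I.pos (nat_lit 79134720) (nat_lit 143835136)) (I.mix (nat_lit 96026624) (nat_lit 36503552)) (I.mix (nat_lit 58966016) (nat_lit 101875712)) (I.mix (nat_lit 43581440) (nat_lit 76218368)))
  false (nat_lit 0)
def b1_6 : Bx := Bx.mk (St.mk (I.mix (nat_lit 39813120) (nat_lit 111607808)) (I.mix (nat_lit 11599872) (nat_lit 42369024)) (I.mix (nat_lit 8552448) (nat_lit 27623424)) (I.pos (nat_lit 40173568) (nat_lit 107200512)) (I.mix (nat_lit 51757056) (nat_lit 27131904)) (I.mix (nat_lit 53592064) (nat_lit 36372480)) (I.mix (nat_lit 30441472) (nat_lit 21807104)))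
  false (nat_lit 0)
def b1_7 : Bx := Bx.mk (St.mk (I.mix (nat_lit 36749312) (nat_lit 73400320)) (I.mix (nat_lit 33030144) (nat_lit 1933312)) (I.mix (nat_lit 16826368) (nat_lit 3866624)) (I.pos (nat_lit 41058304) (nat_lit 83214336)) (I.mix (nat_lit 34471936) (nat_lit 22921216)) (I.mix (nat_lit 24215552) (nat_lit 33505280)) (I.mix (nat_lit 10829824) (nat_lit 13434880)))
  false (nat_lit 0)
def b1_8 : Bx := Bx.mk (St.mk (I.pos (nat_lit 149929984) (nat_lit 167378944)) (I.neg (nat_lit 15056896) (nat_lit 36372480)) (I.neg (nat_lit 6635520) (nat_lit 31916032)) (I.pos (nat_lit 134103040) (nat_lit 170590208)) (I.mix (nat_lit 15695872) (nat_lit 11436032)) (I.mix (nat_lit 8388608) (nat_lit 8339456)) (I.mix (nat_lit 8847360) (nat_lit 8388608)))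
  false (nat_lit 0)
def b1_9 : Bx := Bx.mk (St.mk (I.pos (nat_lit 96387072) (nat_lit 113049600)) (I.mix (nat_lit 1277952) (nat_lit 9814016)) (I.mix (nat_lit 6979584) (nat_lit 3375104)) (I.pos (nat_lit 80871424) (nat_lit 112984064)) (I.mix (nat_lit 5685248) (nat_lit 10567680)) (I.mix (nat_lit 5537792) (nat_lit 4177920)) (I.mix (nat_lit 4734976) (nat_lit 2785280)))
  false (nat_lit 0)
def b1_10 : Bx := Bx.mk (St.mk (I.mix (nat_lit 42565632) (nat_lit 99401728)) (I.mix (nat_lit 13418496) (nat_lit 3194880)) (I.mix (nat_lit 7651328) (nat_lit 3948544)) (I.pos (nat_lit 42139648) (nat_lit 95682560)) (I.mix (nat_lit 5111808) (nat_lit 7913472)) (I.mix (nat_lit 3866624) (nat_lit 5046272)) (I.mix (nat_lit 2129920) (nat_lit 2818048)))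
  false (nat_lit 0)
def b1_11 : Bx := Bx.mk (St.mk (I.neg (nat_lit 7503872) (nat_lit 36356096)) (I.mix (nat_lit 1196032) (nat_lit 9764864)) (I.neg (nat_lit 1032192) (nat_lit 6225920)) (I.pos (nat_lit 44072960) (nat_lit 69861376)) (I.mix (nat_lit 4112384) (nat_lit 8781824)) (I.mix (nat_lit 4718592) (nat_lit 3604480)) (I.mix (nat_lit 1310720) (nat_lit 1458176)))
  false (nat_lit 0)
def t1 : BTr := (BTr.n (BTr.n (BTr.n (BTr.b b1_0) (BTr.n (BTr.b b1_1) (BTr.b b1_2))) (BTr.n (BTr.b b1_3) (BTr.n (BTr.b b1_4) (BTr.b b1_5)))) (BTr.n (BTr.n (BTr.b b1_6) (BTr.n (BTr.b b1_7) (BTr.b b1_8))) (BTr.n (BTr.b b1_9) (BTr.n (BTr.b b1_10) (BTr.b b1_11)))))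
namespace T1
def l0 : Tr := Tr.L (Pth.l (Pth.l (Pth.l Pth.z)))
def l1 : Tr := Tr.L (Pth.l (Pth.l (Pth.r (Pth.l Pth.z))))
def l2 : Tr := Tr.L (Pth.l (Pth.l (Pth.r (Pth.r Pth.z))))
def l3 : Tr := Tr.L (Pth.l (Pth.r (Pth.l Pth.z)))
def l4 : Tr := Tr.L (Pth.l (Pth.r (Pth.r (Pth.l Pth.z))))
def l5 : Tr := Tr.L (Pth.l (Pth.r (Pth.r (Pth.r Pth.z))))
def l6 : Tr := Tr.L (Pth.r (Pth.l (Pth.l Pth.z)))
def l7 : Tr := Tr.L (Pth.r (Pth.l (Pth.r (Pth.l Pth.z))))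
def l8 : Tr := Tr.L (Pth.r (Pth.l (Pth.r (Pth.r Pth.z))))
def l9 : Tr := Tr.L (Pth.r (Pth.r (Pth.l Pth.z)))
def l10 : Tr := Tr.L (Pth.r (Pth.r (Pth.r (Pth.l Pth.z))))
def l11 : Tr := Tr.L (Pth.r (Pth.r (Pth.r (Pth.r Pth.z))))
end T1
def b2_0 : Bx := Bx.mk (St.mk (I.pos (nat_lit 152551424) (nat_lit 289832960)) (I.mix (nat_lit 34193408) (nat_lit 74170368)) (I.mix (nat_lit 88735744) (nat_lit 121946112)) (I.pos (nat_lit 227409920) (nat_lit 456196096)) (I.mix (nat_lit 117260288) (nat_lit 87048192)) (I.mix (nat_lit 122028032) (nat_lit 85295104)) (I.mix (nat_lit 190693376) (nat_lit 113721344)))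
  false (nat_lit 48878690)
def b2_1 : Bx := Bx.mk (St.mk (I.pos (nat_lit 80625664) (nat_lit 149471232)) (I.neg (nat_lit 11534336) (nat_lit 77938688)) (I.mix (nat_lit 56377344) (nat_lit 10076160)) (I.pos (nat_lit 171491328) (nat_lit 226623488)) (I.mix (nat_lit 77414400) (nat_lit 52445184)) (I.mix (nat_lit 46563328) (nat_lit 72794112)) (I.mix (nat_lit 40976384) (nat_lit 63143936)))
  false (nat_lit 0)
def b2_2 : Bx := Bx.mk (St.mk (I.mix (nat_lit 35143680) (nat_lit 4276224)) (I.mix (nat_lit 47235072) (nat_lit 3522560)) (I.pos (nat_lit 5554176) (nat_lit 12582912)) (I.pos (nat_lit 141033472) (nat_lit 149815296)) (I.mix (nat_lit 23904256) (nat_lit 37273600)) (I.mix (nat_lit 26525696) (nat_lit 42385408)) (I.mix (nat_lit 5881856) (nat_lit 6569984)))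
  true (nat_lit 0)
def b2_3 : Bx := Bx.mk (St.mk (I.pos (nat_lit 130383872) (nat_lit 199868416)) (I.mix (nat_lit 33603584) (nat_lit 77217792)) (I.mix (nat_lit 11337728) (nat_lit 120651776)) (I.pos (nat_lit 207159296) (nat_lit 290750464)) (I.mix (nat_lit 144932864) (nat_lit 53690368)) (I.mix (nat_lit 158007296) (nat_lit 86589440)) (I.mix (nat_lit 165019648) (nat_lit 94060544)))
  false (nat_lit 5158185)
def b2_4 : Bx := Bx.mk (St.mk (I.mix (nat_lit 5685248) (nat_lit 35225600)) (I.mix (nat_lit 5423104) (nat_lit 47349760)) (I.pos (nat_lit 5554176) (nat_lit 12582912)) (I.pos (nat_lit 141033472) (nat_lit 149815296)) (I.mix (nat_lit 37273600) (nat_lit 23904256)) (I.mix (nat_lit 42385408) (nat_lit 26525696)) (I.mix (nat_lit 5881856) (nat_lit 6569984)))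
  false (nat_lit 0)
def b2_5 : Bx := Bx.mk (St.mk (I.pos (nat_lit 124469248) (nat_lit 147980288)) (I.neg (nat_lit 16449536) (nat_lit 45793280)) (I.mix (nat_lit 25051136) (nat_lit 9601024)) (I.pos (nat_lit 203292672) (nat_lit 225509376)) (I.mix (nat_lit 20676608) (nat_lit 16744448)) (I.mix (nat_lit 13451264) (nat_lit 11599872)) (I.mix (nat_lit 12599296) (nat_lit 11517952)))
  false (nat_lit 0)
def b2_6 : Bx := Bx.mk (St.mk (I.pos (nat_lit 14499840) (nat_lit 75694080)) (I.mix (nat_lit 14123008) (nat_lit 54755328)) (I.mix (nat_lit 15269888) (nat_lit 18874368)) (I.pos (nat_lit 139624448) (nat_lit 163692544)) (I.mix (nat_lit 35880960) (nat_lit 45957120)) (I.mix (nat_lit 55099392) (nat_lit 33210368)) (I.mix (nat_lit 28000256) (nat_lit 18661376)))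
  false (nat_lit 0)
def b2_7 : Bx := Bx.mk (St.mk (I.pos (nat_lit 48218112) (nat_lit 112754688)) (I.mix (nat_lit 73973760) (nat_lit 15532032)) (I.mix (nat_lit 48381952) (nat_lit 1425408)) (I.pos (nat_lit 149585920) (nat_lit 191741952)) (I.mix (nat_lit 75792384) (nat_lit 35340288)) (I.mix (nat_lit 46530560) (nat_lit 87474176)) (I.mix (nat_lit 33325056) (nat_lit 49938432)))
  false (nat_lit 0)
def b2_8 : Bx := Bx.mk (St.mk (I.neg (nat_lit 14499840) (nat_lit 75694080)) (I.mix (nat_lit 54755328) (nat_lit 14123008)) (I.mix (nat_lit 15269888) (nat_lit 18874368)) (I.pos (nat_lit 139624448) (nat_lit 163708928)) (I.mix (nat_lit 45957120) (nat_lit 35880960)) (I.mix (nat_lit 33210368) (nat_lit 55099392)) (I.mix (nat_lit 28000256) (nat_lit 18661376)))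
  true (nat_lit 0)
def b2_9 : Bx := Bx.mk (St.mk (I.mix (nat_lit 5816320) (nat_lit 3932160)) (I.mix (nat_lit 11223040) (nat_lit 3178496)) (I.pos (nat_lit 6733824) (nat_lit 10436608)) (I.pos (nat_lit 141344768) (nat_lit 144343040)) (I.mix (nat_lit 6209536) (nat_lit 12369920)) (I.mix (nat_lit 4751360) (nat_lit 7700480)) (I.mix (nat_lit 770048) (nat_lit 983040)))
  true (nat_lit 0)
def t2 : BTr := (BTr.n (BTr.n (BTr.n (BTr.b b2_0) (BTr.b b2_1)) (BTr.n (BTr.b b2_2) (BTr.n (BTr.b b2_3) (BTr.b b2_4)))) (BTr.n (BTr.n (BTr.b b2_5) (BTr.b b2_6)) (BTr.n (BTr.b b2_7) (BTr.n (BTr.b b2_8) (BTr.b b2_9)))))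
namespace T2
def l0 : Tr := Tr.L (Pth.l (Pth.l (Pth.l Pth.z)))
def l1 : Tr := Tr.L (Pth.l (Pth.l (Pth.r Pth.z)))
def l2 : Tr := Tr.L (Pth.l (Pth.r (Pth.l Pth.z)))
def l3 : Tr := Tr.L (Pth.l (Pth.r (Pth.r (Pth.l Pth.z))))
def l4 : Tr := Tr.L (Pth.l (Pth.r (Pth.r (Pth.r Pth.z))))
def l5 : Tr := Tr.L (Pth.r (Pth.l (Pth.l Pth.z)))
def l6 : Tr := Tr.L (Pth.r (Pth.l (Pth.r Pth.z)))
def l7 : Tr := Tr.L (Pth.r (Pth.r (Pth.l Pth.z)))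
def l8 : Tr := Tr.L (Pth.r (Pth.r (Pth.r (Pth.l Pth.z))))
def l9 : Tr := Tr.L (Pth.r (Pth.r (Pth.r (Pth.r Pth.z))))
end T2
theorem bx0_0 : BoxOK sI cl5 cl5 cl7 t0 t2 b0_0 :=
  box_mk (TrL.c (I.pos (nat_lit 0) (nat_lit 0)) (xa (xb T0.l0 T0.l0) (xa T0.l0 T0.l0))
  (TrL.c (I.pos (nat_lit 0) (nat_lit 0)) T2.l1
  (TrL.c (I.pos (nat_lit 0) (nat_lit 0)) T0.l1
  (TrL.c (I.pos (nat_lit 0) (nat_lit 0)) T2.l2
  (TrL.c (I.pos (nat_lit 0) (nat_lit 0)) (xa T2.l3 (xb T2.l3 T2.l3))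
  (TrL.c (I.pos (nat_lit 0) (nat_lit 0)) T0.l2
  (TrL.c (I.pos (nat_lit 0) (nat_lit 0)) T2.l4
  (TrL.c (I.pos (nat_lit 0) (nat_lit 0)) T0.l3
  TrL.n)))))))) (by decide +kernel)
theorem bx0_1 : BoxOK sI cl5 cl5 cl7 t0 t2 b0_1 :=
  box_mk (TrL.c (I.pos (nat_lit 0) (nat_lit 0)) T0.l0
  (TrL.c (I.pos (nat_lit 0) (nat_lit 0)) T2.l1
  (TrL.c (I.pos (nat_lit 0) (nat_lit 0)) T0.l1
  (TrL.c (I.pos (nat_lit 0) (nat_lit 0)) T2.l2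
  (TrL.c (I.pos (nat_lit 0) (nat_lit 0)) T2.l3
  (TrL.c (I.pos (nat_lit 0) (nat_lit 0)) T0.l2
  (TrL.c (I.pos (nat_lit 0) (nat_lit 0)) T2.l4
  (TrL.c (I.pos (nat_lit 0) (nat_lit 0)) T0.l3
  TrL.n)))))))) (by decide +kernel)
theorem bx0_2 : BoxOK sI cl5 cl5 cl7 t0 t2 b0_2 :=
  box_mk (TrL.c (I.pos (nat_lit 0) (nat_lit 0)) T0.l0
  (TrL.c (I.pos (nat_lit 0) (nat_lit 0)) T2.l1
  (TrL.c (I.pos (nat_lit 0) (nat_lit 0)) T0.l1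
  (TrL.c (I.pos (nat_lit 0) (nat_lit 0)) T2.l2
  (TrL.c (I.pos (nat_lit 0) (nat_lit 0)) T2.l3
  (TrL.c (I.pos (nat_lit 0) (nat_lit 0)) T0.l2
  (TrL.c (I.pos (nat_lit 0) (nat_lit 0)) T2.l4
  (TrL.c (I.pos (nat_lit 0) (nat_lit 0)) T0.l3
  TrL.n)))))))) (by decide +kernel)
theorem bx0_3 : BoxOK sI cl5 cl5 cl7 t0 t2 b0_3 :=
  box_mk (TrL.c (I.pos (nat_lit 0) (nat_lit 0)) T2.l1
  (TrL.c (I.pos (nat_lit 0) (nat_lit 0)) T0.l1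
  (TrL.c (I.pos (nat_lit 0) (nat_lit 0)) T2.l2
  TrL.n))) (by decide +kernel)
theorem bx0_4 : BoxOK sI cl5 cl5 cl7 t0 t2 b0_4 :=
  box_mk (TrL.c (I.pos (nat_lit 0) (nat_lit 0)) T0.l0
  (TrL.c (I.pos (nat_lit 0) (nat_lit 0)) T2.l1
  (TrL.c (I.pos (nat_lit 0) (nat_lit 0)) T0.l1
  (TrL.c (I.pos (nat_lit 0) (nat_lit 0)) T2.l2
  (TrL.c (I.pos (nat_lit 0) (nat_lit 0)) T2.l3
  (TrL.c (I.pos (nat_lit 0) (nat_lit 0)) T0.l2
  (TrL.c (I.pos (nat_lit 0) (nat_lit 0)) T2.l4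
  (TrL.c (I.pos (nat_lit 0) (nat_lit 0)) T0.l3
  TrL.n)))))))) (by decide +kernel)
theorem bx0_5 : BoxOK sI cl5 cl5 cl7 t0 t2 b0_5 :=
  box_mk (TrL.c (I.pos (nat_lit 0) (nat_lit 0)) (xa T0.l0 T0.l0)
  (TrL.c (I.pos (nat_lit 0) (nat_lit 0)) T2.l1
  (TrL.c (I.pos (nat_lit 0) (nat_lit 0)) T0.l1
  (TrL.c (I.pos (nat_lit 0) (nat_lit 0)) T2.l2
  (TrL.c (I.pos (nat_lit 0) (nat_lit 0)) T2.l3
  (TrL.c (I.pos (nat_lit 0) (nat_lit 0)) T0.l2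
  (TrL.c (I.pos (nat_lit 0) (nat_lit 0)) T2.l4
  (TrL.c (I.pos (nat_lit 0) (nat_lit 0)) T0.l3
  TrL.n)))))))) (by decide +kernel)
theorem bx0_6 : BoxOK sI cl5 cl5 cl7 t0 t2 b0_6 :=
  box_mk (TrL.c (I.pos (nat_lit 0) (nat_lit 0)) T2.l1
  (TrL.c (I.pos (nat_lit 0) (nat_lit 0)) T0.l4
  (TrL.c (I.pos (nat_lit 0) (nat_lit 0)) T2.l2
  TrL.n))) (by decide +kernel)
theorem bx0_7 : BoxOK sI cl5 cl5 cl7 t0 t2 b0_7 :=
  box_mk (TrL.c (I.pos (nat_lit 0) (nat_lit 0)) (xb T0.l0 T0.l0)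
  (TrL.c (I.pos (nat_lit 0) (nat_lit 0)) T2.l1
  (TrL.c (I.pos (nat_lit 0) (nat_lit 0)) T0.l4
  (TrL.c (I.pos (nat_lit 0) (nat_lit 0)) T2.l2
  (TrL.c (I.pos (nat_lit 0) (nat_lit 0)) T2.l3
  (TrL.c (I.pos (nat_lit 0) (nat_lit 0)) T0.l2
  (TrL.c (I.pos (nat_lit 0) (nat_lit 0)) T2.l4
  (TrL.c (I.pos (nat_lit 0) (nat_lit 0)) T0.l3
  TrL.n)))))))) (by decide +kernel)
theorem bx0_8 : BoxOK sI cl5 cl5 cl7 t0 t2 b0_8 :=
  box_mk (TrL.c (I.pos (nat_lit 0) (nat_lit 0)) (xb (xa T0.l0 T0.l0) (xa T0.l0 T0.l0))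
  (TrL.c (I.pos (nat_lit 0) (nat_lit 0)) T2.l1
  (TrL.c (I.pos (nat_lit 0) (nat_lit 0)) T0.l1
  (TrL.c (I.pos (nat_lit 0) (nat_lit 0)) T2.l2
  (TrL.c (I.pos (nat_lit 0) (nat_lit 0)) (xb T2.l0 T2.l3)
  (TrL.c (I.pos (nat_lit 0) (nat_lit 0)) T0.l2
  (TrL.c (I.pos (nat_lit 0) (nat_lit 0)) T2.l4
  (TrL.c (I.pos (nat_lit 0) (nat_lit 0)) T0.l3
  TrL.n)))))))) (by decide +kernel)
theorem sv0 : StarV sI cl5 cl5 cl7 t0 t2 t0 :=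
  (bt_n (bt_n (bt_n (bt_b bx0_0) (bt_b bx0_1)) (bt_n (bt_b bx0_2) (bt_b bx0_3))) (bt_n (bt_n (bt_b bx0_4) (bt_b bx0_5)) (bt_n (bt_b bx0_6) (bt_n (bt_b bx0_7) (bt_b bx0_8)))))
def S0 : StarD := StarD.mk cl5 cl5 cl7 0 2 t0
theorem bx1_0 : BoxOK sI cl5 cl7 cl5 t2 t0 b1_0 :=
  box_mk (TrL.c (I.pos (nat_lit 0) (nat_lit 0)) (xa (xa T2.l0 T2.l0) (xa T2.l0 T2.l0))
  (TrL.c (I.pos (nat_lit 0) (nat_lit 0)) T0.l5
  (TrL.c (I.pos (nat_lit 0) (nat_lit 0)) T2.l6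
  (TrL.c (I.pos (nat_lit 0) (nat_lit 0)) T0.l6
  (TrL.c (I.pos (nat_lit 0) (nat_lit 0)) (xa T0.l8 (xa T0.l8 T0.l8))
  (TrL.c (I.pos (nat_lit 0) (nat_lit 0)) T2.l7
  (TrL.c (I.pos (nat_lit 0) (nat_lit 0)) T0.l7
  (TrL.c (I.pos (nat_lit 0) (nat_lit 0)) T2.l8
  TrL.n)))))))) (by decide +kernel)
theorem bx1_1 : BoxOK sI cl5 cl7 cl5 t2 t0 b1_1 :=
  box_mk (TrL.c (I.pos (nat_lit 0) (nat_lit 0)) T2.l0
  (TrL.c (I.pos (nat_lit 0) (nat_lit 0)) T0.l5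
  (TrL.c (I.pos (nat_lit 0) (nat_lit 0)) T2.l6
  (TrL.c (I.pos (nat_lit 0) (nat_lit 0)) T0.l6
  (TrL.c (I.pos (nat_lit 0) (nat_lit 0)) T0.l8
  (TrL.c (I.pos (nat_lit 0) (nat_lit 0)) T2.l7
  (TrL.c (I.pos (nat_lit 0) (nat_lit 0)) T0.l7
  (TrL.c (I.pos (nat_lit 0) (nat_lit 0)) T2.l8
  TrL.n)))))))) (by decide +kernel)
theorem bx1_2 : BoxOK sI cl5 cl7 cl5 t2 t0 b1_2 :=
  box_mk (TrL.c (I.pos (nat_lit 0) (nat_lit 0)) (xa T2.l0 T2.l0)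
  (TrL.c (I.pos (nat_lit 0) (nat_lit 0)) T0.l5
  (TrL.c (I.pos (nat_lit 0) (nat_lit 0)) T2.l6
  (TrL.c (I.pos (nat_lit 0) (nat_lit 0)) T0.l6
  (TrL.c (I.pos (nat_lit 0) (nat_lit 0)) T0.l8
  (TrL.c (I.pos (nat_lit 0) (nat_lit 0)) T2.l7
  (TrL.c (I.pos (nat_lit 0) (nat_lit 0)) T0.l7
  (TrL.c (I.pos (nat_lit 0) (nat_lit 0)) T2.l8
  TrL.n)))))))) (by decide +kernel)
theorem bx1_3 : BoxOK sI cl5 cl7 cl5 t2 t0 b1_3 :=
  box_mk (TrL.c (I.pos (nat_lit 0) (nat_lit 0)) T2.l0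
  (TrL.c (I.pos (nat_lit 0) (nat_lit 0)) T0.l5
  (TrL.c (I.pos (nat_lit 0) (nat_lit 0)) T2.l6
  (TrL.c (I.pos (nat_lit 0) (nat_lit 0)) T0.l6
  (TrL.c (I.pos (nat_lit 0) (nat_lit 0)) T0.l8
  (TrL.c (I.pos (nat_lit 0) (nat_lit 0)) T2.l7
  (TrL.c (I.pos (nat_lit 0) (nat_lit 0)) T0.l7
  (TrL.c (I.pos (nat_lit 0) (nat_lit 0)) T2.l8
  TrL.n)))))))) (by decide +kernel)
theorem bx1_4 : BoxOK sI cl5 cl7 cl5 t2 t0 b1_4 :=
  box_mk (TrL.c (I.pos (nat_lit 0) (nat_lit 0)) (xb (xa T2.l0 T2.l0) (xa (xs T2.l0 (xb T2.l0 T2.l0)) (xs T2.l0 T2.l0)))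
  (TrL.c (I.pos (nat_lit 0) (nat_lit 0)) T0.l5
  (TrL.c (I.pos (nat_lit 0) (nat_lit 0)) T2.l6
  (TrL.c (I.pos (nat_lit 0) (nat_lit 0)) T0.l6
  (TrL.c (I.pos (nat_lit 0) (nat_lit 0)) (xb T0.l8 T0.l8)
  (TrL.c (I.pos (nat_lit 0) (nat_lit 0)) T2.l7
  (TrL.c (I.pos (nat_lit 0) (nat_lit 0)) T0.l7
  (TrL.c (I.pos (nat_lit 0) (nat_lit 0)) T2.l8
  TrL.n)))))))) (by decide +kernel)
theorem bx1_5 : BoxOK sI cl5 cl7 cl5 t2 t0 b1_5 :=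
  box_mk (TrL.c (I.pos (nat_lit 0) (nat_lit 0)) T2.l0
  (TrL.c (I.pos (nat_lit 0) (nat_lit 0)) T0.l5
  (TrL.c (I.pos (nat_lit 0) (nat_lit 0)) T2.l6
  (TrL.c (I.pos (nat_lit 0) (nat_lit 0)) T0.l6
  (TrL.c (I.pos (nat_lit 0) (nat_lit 0)) T0.l8
  (TrL.c (I.pos (nat_lit 0) (nat_lit 0)) T2.l7
  (TrL.c (I.pos (nat_lit 0) (nat_lit 0)) T0.l7
  (TrL.c (I.pos (nat_lit 0) (nat_lit 0)) T2.l8
  TrL.n)))))))) (by decide +kernel)
theorem bx1_6 : BoxOK sI cl5 cl7 cl5 t2 t0 b1_6 :=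
  box_mk (TrL.c (I.pos (nat_lit 0) (nat_lit 0)) (xa T2.l0 T2.l0)
  (TrL.c (I.pos (nat_lit 0) (nat_lit 0)) T0.l5
  (TrL.c (I.pos (nat_lit 0) (nat_lit 0)) T2.l6
  (TrL.c (I.pos (nat_lit 0) (nat_lit 0)) T0.l6
  (TrL.c (I.pos (nat_lit 0) (nat_lit 0)) T0.l8
  (TrL.c (I.pos (nat_lit 0) (nat_lit 0)) T2.l7
  (TrL.c (I.pos (nat_lit 0) (nat_lit 0)) T0.l7
  (TrL.c (I.pos (nat_lit 0) (nat_lit 0)) T2.l8
  TrL.n)))))))) (by decide +kernel)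
theorem bx1_7 : BoxOK sI cl5 cl7 cl5 t2 t0 b1_7 :=
  box_mk (TrL.c (I.pos (nat_lit 0) (nat_lit 0)) T2.l0
  (TrL.c (I.pos (nat_lit 0) (nat_lit 0)) T0.l5
  (TrL.c (I.pos (nat_lit 0) (nat_lit 0)) T2.l6
  (TrL.c (I.pos (nat_lit 0) (nat_lit 0)) T0.l6
  (TrL.c (I.pos (nat_lit 0) (nat_lit 0)) T0.l8
  (TrL.c (I.pos (nat_lit 0) (nat_lit 0)) T2.l7
  (TrL.c (I.pos (nat_lit 0) (nat_lit 0)) T0.l7
  (TrL.c (I.pos (nat_lit 0) (nat_lit 0)) T2.l8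
  TrL.n)))))))) (by decide +kernel)
theorem bx1_8 : BoxOK sI cl5 cl7 cl5 t2 t0 b1_8 :=
  box_mk (TrL.c (I.pos (nat_lit 0) (nat_lit 0)) T2.l0
  (TrL.c (I.pos (nat_lit 0) (nat_lit 0)) T0.l5
  (TrL.c (I.pos (nat_lit 0) (nat_lit 0)) T2.l6
  (TrL.c (I.pos (nat_lit 0) (nat_lit 0)) T0.l6
  (TrL.c (I.pos (nat_lit 0) (nat_lit 0)) T0.l8
  (TrL.c (I.pos (nat_lit 0) (nat_lit 0)) T2.l7
  (TrL.c (I.pos (nat_lit 0) (nat_lit 0)) T0.l7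
  (TrL.c (I.pos (nat_lit 0) (nat_lit 0)) T2.l8
  TrL.n)))))))) (by decide +kernel)
theorem bx1_9 : BoxOK sI cl5 cl7 cl5 t2 t0 b1_9 :=
  box_mk (TrL.c (I.pos (nat_lit 0) (nat_lit 0)) T2.l0
  (TrL.c (I.pos (nat_lit 0) (nat_lit 0)) T0.l5
  (TrL.c (I.pos (nat_lit 0) (nat_lit 0)) T2.l6
  (TrL.c (I.pos (nat_lit 0) (nat_lit 0)) T0.l6
  (TrL.c (I.pos (nat_lit 0) (nat_lit 0)) T0.l8
  (TrL.c (I.pos (nat_lit 0) (nat_lit 0)) T2.l7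
  (TrL.c (I.pos (nat_lit 0) (nat_lit 0)) T0.l7
  (TrL.c (I.pos (nat_lit 0) (nat_lit 0)) T2.l8
  TrL.n)))))))) (by decide +kernel)
theorem bx1_10 : BoxOK sI cl5 cl7 cl5 t2 t0 b1_10 :=
  box_mk (TrL.c (I.pos (nat_lit 0) (nat_lit 0)) T2.l0
  (TrL.c (I.pos (nat_lit 0) (nat_lit 0)) T0.l5
  (TrL.c (I.pos (nat_lit 0) (nat_lit 0)) T2.l6
  (TrL.c (I.pos (nat_lit 0) (nat_lit 0)) T0.l6
  (TrL.c (I.pos (nat_lit 0) (nat_lit 0)) T0.l8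
  (TrL.c (I.pos (nat_lit 0) (nat_lit 0)) T2.l7
  (TrL.c (I.pos (nat_lit 0) (nat_lit 0)) T0.l7
  (TrL.c (I.pos (nat_lit 0) (nat_lit 0)) T2.l8
  TrL.n)))))))) (by decide +kernel)
theorem bx1_11 : BoxOK sI cl5 cl7 cl5 t2 t0 b1_11 :=
  box_mk (TrL.c (I.pos (nat_lit 0) (nat_lit 0)) T2.l0
  (TrL.c (I.pos (nat_lit 0) (nat_lit 0)) T0.l5
  (TrL.c (I.pos (nat_lit 0) (nat_lit 0)) T2.l6
  (TrL.c (I.pos (nat_lit 0) (nat_lit 0)) T0.l6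
  (TrL.c (I.pos (nat_lit 0) (nat_lit 0)) T0.l8
  (TrL.c (I.pos (nat_lit 0) (nat_lit 0)) T2.l7
  (TrL.c (I.pos (nat_lit 0) (nat_lit 0)) T0.l7
  (TrL.c (I.pos (nat_lit 0) (nat_lit 0)) T2.l8
  TrL.n)))))))) (by decide +kernel)
theorem sv1 : StarV sI cl5 cl7 cl5 t2 t0 t1 :=
  (bt_n (bt_n (bt_n (bt_b bx1_0) (bt_n (bt_b bx1_1) (bt_b bx1_2))) (bt_n (bt_b bx1_3) (bt_n (bt_b bx1_4) (bt_b bx1_5)))) (bt_n (bt_n (bt_b bx1_6) (bt_n (bt_b bx1_7) (bt_b bx1_8))) (bt_n (bt_b bx1_9) (bt_n (bt_b bx1_10) (bt_b bx1_11)))))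
def S1 : StarD := StarD.mk cl5 cl7 cl5 2 0 t1
theorem bx2_0 : BoxOK sI cl7 cl5 cl5 t1 t1 b2_0 :=
  box_mk (TrL.c (I.pos (nat_lit 0) (nat_lit 0)) (xa (xa (xb T1.l0 T1.l0) (xb T1.l0 T1.l0)) (xa (xb T1.l0 T1.l0) T1.l4))
  (TrL.c (I.pos (nat_lit 0) (nat_lit 0)) T1.l1
  (TrL.c (I.pos (nat_lit 0) (nat_lit 111196574)) (xR T1.l2 T1.l2)
  (TrL.c (I.pos (nat_lit 0) (nat_lit 77433728)) T1.l3
  (TrL.c (I.pos (nat_lit 0) (nat_lit 0)) (xa (xb T1.l4 T1.l4) (xb (xa T1.l4 (xk T1.l4 T1.l4)) (xk (xa T1.l4 (xs T1.l4 T1.l4)) (xa T1.l4 (xs T1.l4 T1.l4)))))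
  (TrL.c (I.pos (nat_lit 0) (nat_lit 0)) T1.l5
  (TrL.c (I.mix (nat_lit 29511666) (nat_lit 77433728)) (xR T1.l6 T1.l6)
  (TrL.c (I.mix (nat_lit 29511666) (nat_lit 46070178)) T1.l7
  TrL.n)))))))) (by decide +kernel)
theorem bx2_1 : BoxOK sI cl7 cl5 cl5 t1 t1 b2_1 :=
  box_mk (TrL.c (I.pos (nat_lit 0) (nat_lit 0)) T1.l0
  (TrL.c (I.pos (nat_lit 0) (nat_lit 0)) T1.l1
  (TrL.c (I.pos (nat_lit 0) (nat_lit 111196574)) T1.l2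
  (TrL.c (I.pos (nat_lit 0) (nat_lit 77433728)) T1.l3
  (TrL.c (I.pos (nat_lit 0) (nat_lit 0)) T1.l4
  (TrL.c (I.pos (nat_lit 0) (nat_lit 0)) T1.l5
  (TrL.c (I.mix (nat_lit 29511666) (nat_lit 77433728)) T1.l6
  (TrL.c (I.mix (nat_lit 29511666) (nat_lit 46070178)) T1.l7
  TrL.n)))))))) (by decide +kernel)
theorem bx2_2 : BoxOK sI cl7 cl5 cl5 t1 t1 b2_2 :=
  box_mk (TrL.c (I.pos (nat_lit 0) (nat_lit 0)) T1.l1
  (TrL.c (I.pos (nat_lit 0) (nat_lit 0)) T1.l2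
  (TrL.c (I.mix (nat_lit 29511666) (nat_lit 77433728)) (xR T1.l6 T1.l3)
  (TrL.c (I.mix (nat_lit 29511666) (nat_lit 46070178)) T1.l6
  TrL.n)))) (by decide +kernel)
theorem bx2_3 : BoxOK sI cl7 cl5 cl5 t1 t1 b2_3 :=
  box_mk (TrL.c (I.pos (nat_lit 0) (nat_lit 0)) (xa (xb T1.l0 T1.l0) (xb T1.l0 T1.l0))
  (TrL.c (I.pos (nat_lit 0) (nat_lit 0)) T1.l1
  (TrL.c (I.pos (nat_lit 0) (nat_lit 111196574)) (xR T1.l2 T1.l2)
  (TrL.c (I.pos (nat_lit 0) (nat_lit 77433728)) T1.l3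
  (TrL.c (I.pos (nat_lit 0) (nat_lit 0)) T1.l4
  (TrL.c (I.pos (nat_lit 0) (nat_lit 0)) T1.l5
  (TrL.c (I.mix (nat_lit 29511666) (nat_lit 77433728)) (xR T1.l6 T1.l6)
  (TrL.c (I.mix (nat_lit 29511666) (nat_lit 46070178)) T1.l7
  TrL.n)))))))) (by decide +kernel)
theorem bx2_4 : BoxOK sI cl7 cl5 cl5 t1 t1 b2_4 :=
  box_mk (TrL.c (I.pos (nat_lit 0) (nat_lit 0)) T1.l0
  (TrL.c (I.pos (nat_lit 0) (nat_lit 0)) T1.l1
  (TrL.c (I.pos (nat_lit 0) (nat_lit 111196574)) T1.l2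
  (TrL.c (I.pos (nat_lit 0) (nat_lit 77433728)) T1.l3
  (TrL.c (I.pos (nat_lit 0) (nat_lit 0)) T1.l4
  (TrL.c (I.pos (nat_lit 0) (nat_lit 0)) T1.l5
  (TrL.c (I.mix (nat_lit 29511666) (nat_lit 77433728)) T1.l6
  (TrL.c (I.mix (nat_lit 29511666) (nat_lit 46070178)) T1.l7
  TrL.n)))))))) (by decide +kernel)
theorem bx2_5 : BoxOK sI cl7 cl5 cl5 t1 t1 b2_5 :=
  box_mk (TrL.c (I.pos (nat_lit 0) (nat_lit 0)) T1.l0
  (TrL.c (I.pos (nat_lit 0) (nat_lit 0)) T1.l1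
  (TrL.c (I.pos (nat_lit 0) (nat_lit 111196574)) T1.l2
  (TrL.c (I.pos (nat_lit 0) (nat_lit 77433728)) T1.l3
  (TrL.c (I.pos (nat_lit 0) (nat_lit 0)) T1.l4
  (TrL.c (I.pos (nat_lit 0) (nat_lit 0)) T1.l5
  (TrL.c (I.mix (nat_lit 29511666) (nat_lit 77433728)) T1.l6
  (TrL.c (I.mix (nat_lit 29511666) (nat_lit 46070178)) T1.l7
  TrL.n)))))))) (by decide +kernel)
theorem bx2_6 : BoxOK sI cl7 cl5 cl5 t1 t1 b2_6 :=
  box_mk (TrL.c (I.pos (nat_lit 0) (nat_lit 0)) T1.l0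
  (TrL.c (I.pos (nat_lit 0) (nat_lit 0)) T1.l1
  (TrL.c (I.pos (nat_lit 0) (nat_lit 111196574)) T1.l2
  (TrL.c (I.pos (nat_lit 0) (nat_lit 77433728)) T1.l3
  (TrL.c (I.pos (nat_lit 0) (nat_lit 0)) T1.l4
  (TrL.c (I.pos (nat_lit 0) (nat_lit 0)) T1.l5
  (TrL.c (I.mix (nat_lit 29511666) (nat_lit 77433728)) T1.l6
  (TrL.c (I.mix (nat_lit 29511666) (nat_lit 46070178)) T1.l7
  TrL.n)))))))) (by decide +kernel)
theorem bx2_7 : BoxOK sI cl7 cl5 cl5 t1 t1 b2_7 :=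
  box_mk (TrL.c (I.pos (nat_lit 0) (nat_lit 0)) T1.l0
  (TrL.c (I.pos (nat_lit 0) (nat_lit 0)) T1.l1
  (TrL.c (I.pos (nat_lit 0) (nat_lit 111196574)) T1.l2
  (TrL.c (I.pos (nat_lit 0) (nat_lit 77433728)) T1.l3
  (TrL.c (I.pos (nat_lit 0) (nat_lit 0)) T1.l4
  (TrL.c (I.pos (nat_lit 0) (nat_lit 0)) T1.l5
  (TrL.c (I.mix (nat_lit 29511666) (nat_lit 77433728)) T1.l6
  (TrL.c (I.mix (nat_lit 29511666) (nat_lit 46070178)) T1.l3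
  TrL.n)))))))) (by decide +kernel)
theorem bx2_8 : BoxOK sI cl7 cl5 cl5 t1 t1 b2_8 :=
  box_mk (TrL.c (I.pos (nat_lit 0) (nat_lit 0)) T1.l1
  (TrL.c (I.pos (nat_lit 0) (nat_lit 0)) T1.l2
  (TrL.c (I.mix (nat_lit 29511666) (nat_lit 77433728)) (xR T1.l6 T1.l3)
  (TrL.c (I.mix (nat_lit 29511666) (nat_lit 46070178)) T1.l6
  TrL.n)))) (by decide +kernel)
theorem bx2_9 : BoxOK sI cl7 cl5 cl5 t1 t1 b2_9 :=
  box_mk (TrL.c (I.pos (nat_lit 0) (nat_lit 0)) T1.l8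
  (TrL.c (I.pos (nat_lit 0) (nat_lit 0)) T1.l9
  (TrL.c (I.mix (nat_lit 29511666) (nat_lit 77433728)) T1.l10
  (TrL.c (I.mix (nat_lit 29511666) (nat_lit 46070178)) T1.l3
  TrL.n)))) (by decide +kernel)
theorem sv2 : StarV sI cl7 cl5 cl5 t1 t1 t2 :=
  (bt_n (bt_n (bt_n (bt_b bx2_0) (bt_b bx2_1)) (bt_n (bt_b bx2_2) (bt_n (bt_b bx2_3) (bt_b bx2_4)))) (bt_n (bt_n (bt_b bx2_5) (bt_b bx2_6)) (bt_n (bt_b bx2_7) (bt_n (bt_b bx2_8) (bt_b bx2_9)))))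
def S2 : StarD := StarD.mk cl7 cl5 cl5 1 1 t2
def G : List StarD := [S0, S1, S2]
theorem so0 : StarOK sI G S0 :=
  star_mk (by decide) (by decide) rfl rfl rfl rfl rfl rfl (rfl : _ = t0) (rfl : _ = t2)
  (st_mk (Pth.l (Pth.l (Pth.l Pth.z))) (nat_lit 243333670) (nat_lit 245361126) (by decide +kernel))
  (st_mk (Pth.l (Pth.l (Pth.l Pth.z))) (nat_lit 279844973) (nat_lit 282547614) (by decide +kernel))
  (st_mk (Pth.l (Pth.l (Pth.l Pth.z))) (nat_lit 322269573) (nat_lit 325888934) (by decide +kernel)) sv0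
theorem so1 : StarOK sI G S1 :=
  star_mk (by decide) (by decide) rfl rfl rfl rfl rfl rfl (rfl : _ = t2) (rfl : _ = t0)
  (st_mk (Pth.l (Pth.l (Pth.l Pth.z))) (nat_lit 142380454) (nat_lit 165512503) (by decide +kernel))
  (st_mk (Pth.l (Pth.l (Pth.l Pth.z))) (nat_lit 178617854) (nat_lit 202387441) (by decide +kernel))
  (st_mk (Pth.l (Pth.l (Pth.l Pth.z))) (nat_lit 220819948) (nat_lit 245474207) (by decide +kernel)) sv1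
theorem so2 : StarOK sI G S2 :=
  star_mk (by decide) (by decide) rfl rfl rfl rfl rfl rfl (rfl : _ = t1) (rfl : _ = t1)
  (st_mk (Pth.l (Pth.l (Pth.l Pth.z))) (nat_lit 240192770) (nat_lit 242417798) (by decide +kernel))
  (st_mk (Pth.l (Pth.l (Pth.l Pth.z))) (nat_lit 275766234) (nat_lit 278536784) (by decide +kernel))
  (st_mk (Pth.l (Pth.l (Pth.l Pth.z))) (nat_lit 316394295) (nat_lit 320969403) (by decide +kernel)) sv2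
theorem ok : GroupOK (nat_lit 0) (nat_lit 91291648) G := grp_mk (allS_c so0 (allS_c so1 (allS_c so2 allS_n)))
theorem cov : GCov G cl5 cl5 cl7 := cov_mk
  ⟨0, by decide, rfl, rfl, rfl⟩ ⟨1, by decide, rfl, rfl, rfl⟩ ⟨0, by decide, rfl, rfl, rfl⟩ ⟨1, by decide, rfl, rfl, rfl⟩ ⟨2, by decide, rfl, rfl, rfl⟩ ⟨2, by decide, rfl, rfl, rfl⟩
end Q224_0

namespace Q224_1
def sI : I := I.pos (nat_lit 91226112) (nat_lit 150339584)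
def b0_0 : Bx := Bx.mk (St.mk (I.pos (nat_lit 157057024) (nat_lit 270254080)) (I.mix (nat_lit 7438336) (nat_lit 73678848)) (I.mix (nat_lit 84770816) (nat_lit 87588864)) (I.pos (nat_lit 238960640) (nat_lit 428785664)) (I.mix (nat_lit 116424704) (nat_lit 81133568)) (I.mix (nat_lit 97288192) (nat_lit 67485696)) (I.mix (nat_lit 156827648) (nat_lit 104333312)))
  false (nat_lit 0)
def b0_1 : Bx := Bx.mk (St.mk (I.pos (nat_lit 24805376) (nat_lit 64847872)) (I.mix (nat_lit 1998848) (nat_lit 50905088)) (I.neg (nat_lit 2555904) (nat_lit 27623424)) (I.pos (nat_lit 144048128) (nat_lit 159842304)) (I.mix (nat_lit 38191104) (nat_lit 52543488)) (I.mix (nat_lit 50053120) (nat_lit 32915456)) (I.mix (nat_lit 27197440) (nat_lit 15859712)))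
  false (nat_lit 0)
def b0_2 : Bx := Bx.mk (St.mk (I.pos (nat_lit 55492608) (nat_lit 97452032)) (I.mix (nat_lit 65929216) (nat_lit 5341184)) (I.neg (nat_lit 21807104) (nat_lit 66732032)) (I.pos (nat_lit 152535040) (nat_lit 181993472)) (I.mix (nat_lit 92667904) (nat_lit 40222720)) (I.mix (nat_lit 41598976) (nat_lit 80019456)) (I.mix (nat_lit 32620544) (nat_lit 50888704)))
  false (nat_lit 0)
def b0_3 : Bx := Bx.mk (St.mk (I.neg (nat_lit 24805376) (nat_lit 68485120)) (I.mix (nat_lit 50905088) (nat_lit 4571136)) (I.neg (nat_lit 2473984) (nat_lit 30162944)) (I.pos (nat_lit 144048128) (nat_lit 161316864)) (I.mix (nat_lit 52543488) (nat_lit 38191104)) (I.mix (nat_lit 32849920) (nat_lit 50053120)) (I.mix (nat_lit 27197440) (nat_lit 15859712)))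
  true (nat_lit 0)
def b0_4 : Bx := Bx.mk (St.mk (I.pos (nat_lit 52609024) (nat_lit 67682304)) (I.mix (nat_lit 3670016) (nat_lit 16973824)) (I.neg (nat_lit 16384000) (nat_lit 29753344)) (I.pos (nat_lit 152174592) (nat_lit 161087488)) (I.mix (nat_lit 14450688) (nat_lit 20250624)) (I.mix (nat_lit 16728064) (nat_lit 11468800)) (I.mix (nat_lit 9093120) (nat_lit 6569984)))
  false (nat_lit 0)
def b0_5 : Bx := Bx.mk (St.mk (I.pos (nat_lit 69222400) (nat_lit 150241280)) (I.neg (nat_lit 4177920) (nat_lit 67780608)) (I.neg (nat_lit 8536064) (nat_lit 69894144)) (I.pos (nat_lit 163479552) (nat_lit 231112704)) (I.mix (nat_lit 87949312) (nat_lit 56098816)) (I.mix (nat_lit 47529984) (nat_lit 81100800)) (I.mix (nat_lit 45547520) (nat_lit 71991296)))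
  false (nat_lit 0)
def b0_6 : Bx := Bx.mk (St.mk (I.mix (nat_lit 39337984) (nat_lit 8159232)) (I.mix (nat_lit 43466752) (nat_lit 10289152)) (I.neg (nat_lit 5111808) (nat_lit 11943936)) (I.pos (nat_lit 142262272) (nat_lit 152862720)) (I.mix (nat_lit 37666816) (nat_lit 46055424)) (I.mix (nat_lit 31358976) (nat_lit 50233344)) (I.mix (nat_lit 8159232) (nat_lit 7307264)))
  true (nat_lit 0)
def b0_7 : Bx := Bx.mk (St.mk (I.mix (nat_lit 8159232) (nat_lit 39337984)) (I.mix (nat_lit 10289152) (nat_lit 43466752)) (I.neg (nat_lit 5111808) (nat_lit 11943936)) (I.pos (nat_lit 142262272) (nat_lit 152862720)) (I.mix (nat_lit 46055424) (nat_lit 37666816)) (I.mix (nat_lit 50233344) (nat_lit 31358976)) (I.mix (nat_lit 8159232) (nat_lit 7307264)))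
  false (nat_lit 0)
def b0_8 : Bx := Bx.mk (St.mk (I.pos (nat_lit 122454016) (nat_lit 200196096)) (I.mix (nat_lit 42237952) (nat_lit 70893568)) (I.mix (nat_lit 48562176) (nat_lit 83492864)) (I.pos (nat_lit 202932224) (nat_lit 303136768)) (I.mix (nat_lit 143966208) (nat_lit 72253440)) (I.mix (nat_lit 150028288) (nat_lit 85671936)) (I.mix (nat_lit 151076864) (nat_lit 94388224)))
  false (nat_lit 0)
def t0 : BTr := (BTr.n (BTr.n (BTr.n (BTr.b b0_0) (BTr.b b0_1)) (BTr.n (BTr.b b0_2) (BTr.b b0_3))) (BTr.n (BTr.n (BTr.b b0_4) (BTr.b b0_5)) (BTr.n (BTr.b b0_6) (BTr.n (BTr.b b0_7) (BTr.b b0_8)))))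
namespace T0
def l0 : Tr := Tr.L (Pth.l (Pth.l (Pth.l Pth.z)))
def l1 : Tr := Tr.L (Pth.l (Pth.l (Pth.r Pth.z)))
def l2 : Tr := Tr.L (Pth.l (Pth.r (Pth.l Pth.z)))
def l3 : Tr := Tr.L (Pth.l (Pth.r (Pth.r Pth.z)))
def l4 : Tr := Tr.L (Pth.r (Pth.l (Pth.l Pth.z)))
def l5 : Tr := Tr.L (Pth.r (Pth.l (Pth.r Pth.z)))
def l6 : Tr := Tr.L (Pth.r (Pth.r (Pth.l Pth.z)))
def l7 : Tr := Tr.L (Pth.r (Pth.r (Pth.r (Pth.l Pth.z))))
def l8 : Tr := Tr.L (Pth.r (Pth.r (Pth.r (Pth.r Pth.z))))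
end T0
def b1_0 : Bx := Bx.mk (St.mk (I.pos (nat_lit 157417472) (nat_lit 267337728)) (I.mix (nat_lit 9011200) (nat_lit 58310656)) (I.mix (nat_lit 24444928) (nat_lit 97402880)) (I.pos (nat_lit 139329536) (nat_lit 343736320)) (I.mix (nat_lit 125779968) (nat_lit 80232448)) (I.mix (nat_lit 103940096) (nat_lit 76529664)) (I.mix (nat_lit 162217984) (nat_lit 113819648)))
  false (nat_lit 0)
def b1_1 : Bx := Bx.mk (St.mk (I.pos (nat_lit 101007360) (nat_lit 168493056)) (I.neg (nat_lit 6062080) (nat_lit 58081280)) (I.neg (nat_lit 3637248) (nat_lit 54804480)) (I.pos (nat_lit 97648640) (nat_lit 173211648)) (I.mix (nat_lit 80986112) (nat_lit 48267264)) (I.mix (nat_lit 41910272) (nat_lit 62472192)) (I.mix (nat_lit 41304064) (nat_lit 59768832)))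
  false (nat_lit 0)
def b1_2 : Bx := Bx.mk (St.mk (I.mix (nat_lit 22380544) (nat_lit 117047296)) (I.mix (nat_lit 2916352) (nat_lit 36175872)) (I.mix (nat_lit 7700480) (nat_lit 23363584)) (I.pos (nat_lit 41517056) (nat_lit 114540544)) (I.mix (nat_lit 51593216) (nat_lit 36110336)) (I.mix (nat_lit 41779200) (nat_lit 33177600)) (I.mix (nat_lit 26771456) (nat_lit 23314432)))
  false (nat_lit 0)
def b1_3 : Bx := Bx.mk (St.mk (I.mix (nat_lit 22855680) (nat_lit 82231296)) (I.mix (nat_lit 33701888) (nat_lit 2228224)) (I.mix (nat_lit 18989056) (nat_lit 2572288)) (I.pos (nat_lit 41877504) (nat_lit 89292800)) (I.mix (nat_lit 40435712) (nat_lit 28393472)) (I.mix (nat_lit 26542080) (nat_lit 32800768)) (I.mix (nat_lit 14893056) (nat_lit 16990208)))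
  false (nat_lit 0)
def b1_4 : Bx := Bx.mk (St.mk (I.pos (nat_lit 148324352) (nat_lit 213221376)) (I.mix (nat_lit 35667968) (nat_lit 62767104)) (I.mix (nat_lit 30490624) (nat_lit 98041856)) (I.pos (nat_lit 133169152) (nat_lit 236273664)) (I.mix (nat_lit 156647424) (nat_lit 65290240)) (I.mix (nat_lit 165675008) (nat_lit 106315776)) (I.mix (nat_lit 184614912) (nat_lit 111017984)))
  false (nat_lit 0)
def b1_5 : Bx := Bx.mk (St.mk (I.pos (nat_lit 95961088) (nat_lit 140443648)) (I.mix (nat_lit 57065472) (nat_lit 3407872)) (I.neg (nat_lit 1130496) (nat_lit 52396032)) (I.pos (nat_lit 80986112) (nat_lit 135036928)) (I.mix (nat_lit 97484800) (nat_lit 36208640)) (I.mix (nat_lit 54870016) (nat_lit 93487104)) (I.mix (nat_lit 39649280) (nat_lit 68386816)))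
  false (nat_lit 0)
def b1_6 : Bx := Bx.mk (St.mk (I.mix (nat_lit 35569664) (nat_lit 106774528)) (I.mix (nat_lit 9175040) (nat_lit 38486016)) (I.mix (nat_lit 7618560) (nat_lit 26017792)) (I.pos (nat_lit 41566208) (nat_lit 105676800)) (I.mix (nat_lit 61145088) (nat_lit 32292864)) (I.mix (nat_lit 56918016) (nat_lit 40501248)) (I.mix (nat_lit 31506432) (nat_lit 24166400)))
  false (nat_lit 0)
def b1_7 : Bx := Bx.mk (St.mk (I.mix (nat_lit 33046528) (nat_lit 70156288)) (I.mix (nat_lit 31899648) (nat_lit 770048)) (I.mix (nat_lit 16203776) (nat_lit 3211264)) (I.pos (nat_lit 42336256) (nat_lit 82526208)) (I.mix (nat_lit 40419328) (nat_lit 22740992)) (I.mix (nat_lit 26148864) (nat_lit 34783232)) (I.mix (nat_lit 11681792) (nat_lit 13959168)))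
  false (nat_lit 0)
def b1_8 : Bx := Bx.mk (St.mk (I.pos (nat_lit 140083200) (nat_lit 166838272)) (I.neg (nat_lit 13598720) (nat_lit 42614784)) (I.neg (nat_lit 7077888) (nat_lit 40173568)) (I.pos (nat_lit 126353408) (nat_lit 171474944)) (I.mix (nat_lit 26312704) (nat_lit 13074432)) (I.mix (nat_lit 11665408) (nat_lit 13139968)) (I.mix (nat_lit 11943936) (nat_lit 13516800)))
  false (nat_lit 0)
def b1_9 : Bx := Bx.mk (St.mk (I.pos (nat_lit 97026048) (nat_lit 112574464)) (I.mix (nat_lit 573440) (nat_lit 7946240)) (I.mix (nat_lit 6455296) (nat_lit 1785856)) (I.pos (nat_lit 81936384) (nat_lit 112541696)) (I.mix (nat_lit 5210112) (nat_lit 8617984)) (I.mix (nat_lit 4308992) (nat_lit 3407872)) (I.mix (nat_lit 3751936) (nat_lit 2179072)))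
  false (nat_lit 0)
def b1_10 : Bx := Bx.mk (St.mk (I.mix (nat_lit 37945344) (nat_lit 82395136)) (I.mix (nat_lit 15712256) (nat_lit 2686976)) (I.mix (nat_lit 9060352) (nat_lit 3375104)) (I.pos (nat_lit 43761664) (nat_lit 88997888)) (I.mix (nat_lit 8028160) (nat_lit 8945664)) (I.mix (nat_lit 4898816) (nat_lit 5734400)) (I.mix (nat_lit 2768896) (nat_lit 3112960)))
  false (nat_lit 0)
def b1_11 : Bx := Bx.mk (St.mk (I.mix (nat_lit 35618816) (nat_lit 9715712)) (I.mix (nat_lit 802816) (nat_lit 8060928)) (I.neg (nat_lit 1179648) (nat_lit 5750784)) (I.pos (nat_lit 44564480) (nat_lit 69107712)) (I.mix (nat_lit 5095424) (nat_lit 9338880)) (I.mix (nat_lit 5816320) (nat_lit 4653056)) (I.mix (nat_lit 1523712) (nat_lit 1671168)))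
  false (nat_lit 0)
def t1 : BTr := (BTr.n (BTr.n (BTr.n (BTr.b b1_0) (BTr.n (BTr.b b1_1) (BTr.b b1_2))) (BTr.n (BTr.b b1_3) (BTr.n (BTr.b b1_4) (BTr.b b1_5)))) (BTr.n (BTr.n (BTr.b b1_6) (BTr.n (BTr.b b1_7) (BTr.b b1_8))) (BTr.n (BTr.b b1_9) (BTr.n (BTr.b b1_10) (BTr.b b1_11)))))
namespace T1
def l0 : Tr := Tr.L (Pth.l (Pth.l (Pth.l Pth.z)))
def l1 : Tr := Tr.L (Pth.l (Pth.l (Pth.r (Pth.l Pth.z))))
def l2 : Tr := Tr.L (Pth.l (Pth.l (Pth.r (Pth.r Pth.z))))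
def l3 : Tr := Tr.L (Pth.l (Pth.r (Pth.l Pth.z)))
def l4 : Tr := Tr.L (Pth.l (Pth.r (Pth.r (Pth.l Pth.z))))
def l5 : Tr := Tr.L (Pth.l (Pth.r (Pth.r (Pth.r Pth.z))))
def l6 : Tr := Tr.L (Pth.r (Pth.l (Pth.l Pth.z)))
def l7 : Tr := Tr.L (Pth.r (Pth.l (Pth.r (Pth.l Pth.z))))
def l8 : Tr := Tr.L (Pth.r (Pth.l (Pth.r (Pth.r Pth.z))))
def l9 : Tr := Tr.L (Pth.r (Pth.r (Pth.l Pth.z)))
def l10 : Tr := Tr.L (Pth.r (Pth.r (Pth.r (Pth.l Pth.z))))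
def l11 : Tr := Tr.L (Pth.r (Pth.r (Pth.r (Pth.r Pth.z))))
end T1
def b2_0 : Bx := Bx.mk (St.mk (I.pos (nat_lit 144474112) (nat_lit 286867456)) (I.mix (nat_lit 29523968) (nat_lit 70909952)) (I.mix (nat_lit 78266368) (nat_lit 115277824)) (I.pos (nat_lit 234192896) (nat_lit 453820416)) (I.mix (nat_lit 130793472) (nat_lit 106217472)) (I.mix (nat_lit 126664704) (nat_lit 94535680)) (I.mix (nat_lit 189612032) (nat_lit 124141568)))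
  false (nat_lit 64966354)
def b2_1 : Bx := Bx.mk (St.mk (I.pos (nat_lit 77103104) (nat_lit 141590528)) (I.neg (nat_lit 13484032) (nat_lit 72187904)) (I.mix (nat_lit 51511296) (nat_lit 4587520)) (I.pos (nat_lit 171409408) (nat_lit 220217344)) (I.mix (nat_lit 79659008) (nat_lit 55394304)) (I.mix (nat_lit 45514752) (nat_lit 65437696)) (I.mix (nat_lit 41107456) (nat_lit 57229312)))
  false (nat_lit 0)
def b2_2 : Bx := Bx.mk (St.mk (I.mix (nat_lit 33144832) (nat_lit 1703936)) (I.mix (nat_lit 43843584) (nat_lit 1753088)) (I.pos (nat_lit 5734400) (nat_lit 12894208)) (I.pos (nat_lit 141983744) (nat_lit 150798336)) (I.mix (nat_lit 30015488) (nat_lit 42811392)) (I.mix (nat_lit 26378240) (nat_lit 41549824)) (I.mix (nat_lit 6324224) (nat_lit 7110656)))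
  true (nat_lit 0)
def b2_3 : Bx := Bx.mk (St.mk (I.pos (nat_lit 130564096) (nat_lit 192512000)) (I.mix (nat_lit 30507008) (nat_lit 69271552)) (I.mix (nat_lit 7487488) (nat_lit 113229824)) (I.pos (nat_lit 208470016) (nat_lit 286326784)) (I.mix (nat_lit 149012480) (nat_lit 54493184)) (I.mix (nat_lit 145506304) (nat_lit 67190784)) (I.mix (nat_lit 151109632) (nat_lit 68075520)))
  false (nat_lit 6975770)
def b2_4 : Bx := Bx.mk (St.mk (I.mix (nat_lit 5144576) (nat_lit 33259520)) (I.mix (nat_lit 3604480) (nat_lit 43810816)) (I.pos (nat_lit 5734400) (nat_lit 12894208)) (I.pos (nat_lit 141901824) (nat_lit 150798336)) (I.mix (nat_lit 42811392) (nat_lit 30015488)) (I.mix (nat_lit 41549824) (nat_lit 26378240)) (I.mix (nat_lit 6324224) (nat_lit 7110656)))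
  false (nat_lit 0)
def b2_5 : Bx := Bx.mk (St.mk (I.pos (nat_lit 122650624) (nat_lit 146341888)) (I.neg (nat_lit 17416192) (nat_lit 43941888)) (I.mix (nat_lit 23150592) (nat_lit 6668288)) (I.pos (nat_lit 203145216) (nat_lit 225099776)) (I.mix (nat_lit 26869760) (nat_lit 24444928)) (I.mix (nat_lit 18202624) (nat_lit 21544960)) (I.mix (nat_lit 17203200) (nat_lit 21266432)))
  false (nat_lit 0)
def b2_6 : Bx := Bx.mk (St.mk (I.mix (nat_lit 8486912) (nat_lit 4423680)) (I.mix (nat_lit 14286848) (nat_lit 2736128)) (I.pos (nat_lit 6586368) (nat_lit 10305536)) (I.pos (nat_lit 141918208) (nat_lit 144736256)) (I.mix (nat_lit 10076160) (nat_lit 16482304)) (I.mix (nat_lit 8798208) (nat_lit 12402688)) (I.mix (nat_lit 1212416) (nat_lit 1048576)))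
  true (nat_lit 0)
def b2_7 : Bx := Bx.mk (St.mk (I.pos (nat_lit 17711104) (nat_lit 72253440)) (I.mix (nat_lit 11452416) (nat_lit 49889280)) (I.mix (nat_lit 13959168) (nat_lit 16187392)) (I.pos (nat_lit 142049280) (nat_lit 163545088)) (I.mix (nat_lit 45105152) (nat_lit 51953664)) (I.mix (nat_lit 56229888) (nat_lit 36798464)) (I.mix (nat_lit 29147136) (nat_lit 19939328)))
  false (nat_lit 0)
def b2_8 : Bx := Bx.mk (St.mk (I.pos (nat_lit 51757056) (nat_lit 105136128)) (I.mix (nat_lit 68927488) (nat_lit 12386304)) (I.neg (nat_lit 229376) (nat_lit 46645248)) (I.pos (nat_lit 152436736) (nat_lit 188121088)) (I.mix (nat_lit 87572480) (nat_lit 45826048)) (I.mix (nat_lit 48660480) (nat_lit 89178112)) (I.mix (nat_lit 36945920) (nat_lit 50921472)))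
  false (nat_lit 0)
def b2_9 : Bx := Bx.mk (St.mk (I.neg (nat_lit 17711104) (nat_lit 72253440)) (I.mix (nat_lit 49889280) (nat_lit 11452416)) (I.mix (nat_lit 13959168) (nat_lit 16187392)) (I.pos (nat_lit 142098432) (nat_lit 163545088)) (I.mix (nat_lit 51953664) (nat_lit 45105152)) (I.mix (nat_lit 36798464) (nat_lit 56229888)) (I.mix (nat_lit 29147136) (nat_lit 19939328)))
  true (nat_lit 0)
def t2 : BTr := (BTr.n (BTr.n (BTr.n (BTr.b b2_0) (BTr.b b2_1)) (BTr.n (BTr.b b2_2) (BTr.n (BTr.b b2_3) (BTr.b b2_4)))) (BTr.n (BTr.n (BTr.b b2_5) (BTr.b b2_6)) (BTr.n (BTr.b b2_7) (BTr.n (BTr.b b2_8) (BTr.b b2_9)))))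
namespace T2
def l0 : Tr := Tr.L (Pth.l (Pth.l (Pth.l Pth.z)))
def l1 : Tr := Tr.L (Pth.l (Pth.l (Pth.r Pth.z)))
def l2 : Tr := Tr.L (Pth.l (Pth.r (Pth.l Pth.z)))
def l3 : Tr := Tr.L (Pth.l (Pth.r (Pth.r (Pth.l Pth.z))))
def l4 : Tr := Tr.L (Pth.l (Pth.r (Pth.r (Pth.r Pth.z))))
def l5 : Tr := Tr.L (Pth.r (Pth.l (Pth.l Pth.z)))
def l6 : Tr := Tr.L (Pth.r (Pth.l (Pth.r Pth.z)))
def l7 : Tr := Tr.L (Pth.r (Pth.r (Pth.l Pth.z)))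
def l8 : Tr := Tr.L (Pth.r (Pth.r (Pth.r (Pth.l Pth.z))))
def l9 : Tr := Tr.L (Pth.r (Pth.r (Pth.r (Pth.r Pth.z))))
end T2
theorem bx0_0 : BoxOK sI cl5 cl5 cl7 t0 t2 b0_0 :=
  box_mk (TrL.c (I.pos (nat_lit 0) (nat_lit 0)) (xa (xb T0.l0 (xa T0.l0 T0.l0)) (xa (xb T0.l0 T0.l0) (xb T0.l0 T0.l0)))
  (TrL.c (I.pos (nat_lit 0) (nat_lit 0)) (xa T2.l1 T2.l1)
  (TrL.c (I.pos (nat_lit 0) (nat_lit 0)) T0.l1
  (TrL.c (I.pos (nat_lit 0) (nat_lit 0)) T2.l2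
  (TrL.c (I.pos (nat_lit 0) (nat_lit 0)) (xa (xb T2.l3 T2.l3) (xb (xa T2.l0 T2.l0) (xa T2.l3 T2.l3)))
  (TrL.c (I.pos (nat_lit 0) (nat_lit 0)) (xa T0.l2 T0.l2)
  (TrL.c (I.pos (nat_lit 0) (nat_lit 0)) T2.l4
  (TrL.c (I.pos (nat_lit 0) (nat_lit 0)) T0.l3
  TrL.n)))))))) (by decide +kernel)
theorem bx0_1 : BoxOK sI cl5 cl5 cl7 t0 t2 b0_1 :=
  box_mk (TrL.c (I.pos (nat_lit 0) (nat_lit 0)) T0.l0
  (TrL.c (I.pos (nat_lit 0) (nat_lit 0)) T2.l1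
  (TrL.c (I.pos (nat_lit 0) (nat_lit 0)) T0.l1
  (TrL.c (I.pos (nat_lit 0) (nat_lit 0)) T2.l2
  (TrL.c (I.pos (nat_lit 0) (nat_lit 0)) T2.l3
  (TrL.c (I.pos (nat_lit 0) (nat_lit 0)) T0.l2
  (TrL.c (I.pos (nat_lit 0) (nat_lit 0)) T2.l4
  (TrL.c (I.pos (nat_lit 0) (nat_lit 0)) T0.l3
  TrL.n)))))))) (by decide +kernel)
theorem bx0_2 : BoxOK sI cl5 cl5 cl7 t0 t2 b0_2 :=
  box_mk (TrL.c (I.pos (nat_lit 0) (nat_lit 0)) (xb T0.l0 T0.l0)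
  (TrL.c (I.pos (nat_lit 0) (nat_lit 0)) T2.l1
  (TrL.c (I.pos (nat_lit 0) (nat_lit 0)) T0.l1
  (TrL.c (I.pos (nat_lit 0) (nat_lit 0)) T2.l2
  (TrL.c (I.pos (nat_lit 0) (nat_lit 0)) T2.l3
  (TrL.c (I.pos (nat_lit 0) (nat_lit 0)) T0.l2
  (TrL.c (I.pos (nat_lit 0) (nat_lit 0)) T2.l4
  (TrL.c (I.pos (nat_lit 0) (nat_lit 0)) T0.l3
  TrL.n)))))))) (by decide +kernel)
theorem bx0_3 : BoxOK sI cl5 cl5 cl7 t0 t2 b0_3 :=
  box_mk (TrL.c (I.pos (nat_lit 0) (nat_lit 0)) T2.l1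
  (TrL.c (I.pos (nat_lit 0) (nat_lit 0)) T0.l1
  (TrL.c (I.pos (nat_lit 0) (nat_lit 0)) T2.l2
  TrL.n))) (by decide +kernel)
theorem bx0_4 : BoxOK sI cl5 cl5 cl7 t0 t2 b0_4 :=
  box_mk (TrL.c (I.pos (nat_lit 0) (nat_lit 0)) T0.l0
  (TrL.c (I.pos (nat_lit 0) (nat_lit 0)) T2.l1
  (TrL.c (I.pos (nat_lit 0) (nat_lit 0)) T0.l1
  (TrL.c (I.pos (nat_lit 0) (nat_lit 0)) T2.l2
  (TrL.c (I.pos (nat_lit 0) (nat_lit 0)) T2.l3
  (TrL.c (I.pos (nat_lit 0) (nat_lit 0)) T0.l2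
  (TrL.c (I.pos (nat_lit 0) (nat_lit 0)) T2.l4
  (TrL.c (I.pos (nat_lit 0) (nat_lit 0)) T0.l3
  TrL.n)))))))) (by decide +kernel)
theorem bx0_5 : BoxOK sI cl5 cl5 cl7 t0 t2 b0_5 :=
  box_mk (TrL.c (I.pos (nat_lit 0) (nat_lit 0)) (xa T0.l0 T0.l0)
  (TrL.c (I.pos (nat_lit 0) (nat_lit 0)) T2.l1
  (TrL.c (I.pos (nat_lit 0) (nat_lit 0)) T0.l1
  (TrL.c (I.pos (nat_lit 0) (nat_lit 0)) T2.l2
  (TrL.c (I.pos (nat_lit 0) (nat_lit 0)) T2.l3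
  (TrL.c (I.pos (nat_lit 0) (nat_lit 0)) T0.l2
  (TrL.c (I.pos (nat_lit 0) (nat_lit 0)) T2.l4
  (TrL.c (I.pos (nat_lit 0) (nat_lit 0)) T0.l3
  TrL.n)))))))) (by decide +kernel)
theorem bx0_6 : BoxOK sI cl5 cl5 cl7 t0 t2 b0_6 :=
  box_mk (TrL.c (I.pos (nat_lit 0) (nat_lit 0)) T2.l5
  (TrL.c (I.pos (nat_lit 0) (nat_lit 0)) T0.l4
  (TrL.c (I.pos (nat_lit 0) (nat_lit 0)) T2.l6
  TrL.n))) (by decide +kernel)
theorem bx0_7 : BoxOK sI cl5 cl5 cl7 t0 t2 b0_7 :=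
  box_mk (TrL.c (I.pos (nat_lit 0) (nat_lit 0)) (xb T0.l0 T0.l0)
  (TrL.c (I.pos (nat_lit 0) (nat_lit 0)) T2.l5
  (TrL.c (I.pos (nat_lit 0) (nat_lit 0)) T0.l4
  (TrL.c (I.pos (nat_lit 0) (nat_lit 0)) T2.l6
  (TrL.c (I.pos (nat_lit 0) (nat_lit 0)) T2.l3
  (TrL.c (I.pos (nat_lit 0) (nat_lit 0)) T0.l2
  (TrL.c (I.pos (nat_lit 0) (nat_lit 0)) T2.l4
  (TrL.c (I.pos (nat_lit 0) (nat_lit 0)) T0.l3
  TrL.n)))))))) (by decide +kernel)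
theorem bx0_8 : BoxOK sI cl5 cl5 cl7 t0 t2 b0_8 :=
  box_mk (TrL.c (I.pos (nat_lit 0) (nat_lit 0)) (xb (xa (xb T0.l0 T0.l0) T0.l0) (xa (xb T0.l0 (xa T0.l0 T0.l0)) (xb T0.l0 T0.l0)))
  (TrL.c (I.pos (nat_lit 0) (nat_lit 0)) (xb T2.l1 T2.l1)
  (TrL.c (I.pos (nat_lit 0) (nat_lit 0)) T0.l1
  (TrL.c (I.pos (nat_lit 0) (nat_lit 0)) T2.l2
  (TrL.c (I.pos (nat_lit 0) (nat_lit 0)) (xb (xa T2.l0 T2.l0) T2.l3)
  (TrL.c (I.pos (nat_lit 0) (nat_lit 0)) T0.l2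
  (TrL.c (I.pos (nat_lit 0) (nat_lit 0)) T2.l4
  (TrL.c (I.pos (nat_lit 0) (nat_lit 0)) T0.l3
  TrL.n)))))))) (by decide +kernel)
theorem sv0 : StarV sI cl5 cl5 cl7 t0 t2 t0 :=
  (bt_n (bt_n (bt_n (bt_b bx0_0) (bt_b bx0_1)) (bt_n (bt_b bx0_2) (bt_b bx0_3))) (bt_n (bt_n (bt_b bx0_4) (bt_b bx0_5)) (bt_n (bt_b bx0_6) (bt_n (bt_b bx0_7) (bt_b bx0_8)))))
def S0 : StarD := StarD.mk cl5 cl5 cl7 0 2 t0
theorem bx1_0 : BoxOK sI cl5 cl7 cl5 t2 t0 b1_0 :=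
  box_mk (TrL.c (I.pos (nat_lit 0) (nat_lit 0)) (xa (xa T2.l0 (xb T2.l0 T2.l0)) (xa (xb T2.l0 T2.l0) (xb T2.l0 T2.l0)))
  (TrL.c (I.pos (nat_lit 0) (nat_lit 0)) (xa T0.l5 (xa T0.l5 T0.l5))
  (TrL.c (I.pos (nat_lit 0) (nat_lit 0)) T2.l7
  (TrL.c (I.pos (nat_lit 0) (nat_lit 0)) T0.l6
  (TrL.c (I.pos (nat_lit 0) (nat_lit 0)) (xa T0.l8 (xb (xa T0.l8 T0.l8) (xa T0.l8 T0.l8)))
  (TrL.c (I.pos (nat_lit 0) (nat_lit 0)) (xa T2.l8 T2.l8)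
  (TrL.c (I.pos (nat_lit 0) (nat_lit 0)) T0.l7
  (TrL.c (I.pos (nat_lit 0) (nat_lit 0)) T2.l9
  TrL.n)))))))) (by decide +kernel)
theorem bx1_1 : BoxOK sI cl5 cl7 cl5 t2 t0 b1_1 :=
  box_mk (TrL.c (I.pos (nat_lit 0) (nat_lit 0)) T2.l0
  (TrL.c (I.pos (nat_lit 0) (nat_lit 0)) T0.l5
  (TrL.c (I.pos (nat_lit 0) (nat_lit 0)) T2.l7
  (TrL.c (I.pos (nat_lit 0) (nat_lit 0)) T0.l6
  (TrL.c (I.pos (nat_lit 0) (nat_lit 0)) T0.l8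
  (TrL.c (I.pos (nat_lit 0) (nat_lit 0)) T2.l8
  (TrL.c (I.pos (nat_lit 0) (nat_lit 0)) T0.l7
  (TrL.c (I.pos (nat_lit 0) (nat_lit 0)) T2.l9
  TrL.n)))))))) (by decide +kernel)
theorem bx1_2 : BoxOK sI cl5 cl7 cl5 t2 t0 b1_2 :=
  box_mk (TrL.c (I.pos (nat_lit 0) (nat_lit 0)) (xa T2.l0 T2.l0)
  (TrL.c (I.pos (nat_lit 0) (nat_lit 0)) T0.l5
  (TrL.c (I.pos (nat_lit 0) (nat_lit 0)) T2.l7
  (TrL.c (I.pos (nat_lit 0) (nat_lit 0)) T0.l6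
  (TrL.c (I.pos (nat_lit 0) (nat_lit 0)) (xa T0.l8 T0.l8)
  (TrL.c (I.pos (nat_lit 0) (nat_lit 0)) T2.l8
  (TrL.c (I.pos (nat_lit 0) (nat_lit 0)) T0.l7
  (TrL.c (I.pos (nat_lit 0) (nat_lit 0)) T2.l9
  TrL.n)))))))) (by decide +kernel)
theorem bx1_3 : BoxOK sI cl5 cl7 cl5 t2 t0 b1_3 :=
  box_mk (TrL.c (I.pos (nat_lit 0) (nat_lit 0)) T2.l0
  (TrL.c (I.pos (nat_lit 0) (nat_lit 0)) T0.l5
  (TrL.c (I.pos (nat_lit 0) (nat_lit 0)) T2.l7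
  (TrL.c (I.pos (nat_lit 0) (nat_lit 0)) T0.l6
  (TrL.c (I.pos (nat_lit 0) (nat_lit 0)) T0.l8
  (TrL.c (I.pos (nat_lit 0) (nat_lit 0)) T2.l8
  (TrL.c (I.pos (nat_lit 0) (nat_lit 0)) T0.l7
  (TrL.c (I.pos (nat_lit 0) (nat_lit 0)) T2.l9
  TrL.n)))))))) (by decide +kernel)
theorem bx1_4 : BoxOK sI cl5 cl7 cl5 t2 t0 b1_4 :=
  box_mk (TrL.c (I.pos (nat_lit 0) (nat_lit 0)) (xb (xa (xb (xb T2.l0 T2.l0) T2.l0) (xb (xb T2.l0 T2.l0) T2.l0)) (xa (xb T2.l0 T2.l0) (xb T2.l0 T2.l0)))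
  (TrL.c (I.pos (nat_lit 0) (nat_lit 0)) (xb T0.l5 (xa T0.l5 T0.l5))
  (TrL.c (I.pos (nat_lit 0) (nat_lit 0)) T2.l7
  (TrL.c (I.pos (nat_lit 0) (nat_lit 0)) T0.l6
  (TrL.c (I.pos (nat_lit 0) (nat_lit 0)) (xb (xa T0.l8 T0.l8) (xa T0.l8 T0.l8))
  (TrL.c (I.pos (nat_lit 0) (nat_lit 0)) T2.l8
  (TrL.c (I.pos (nat_lit 0) (nat_lit 0)) T0.l7
  (TrL.c (I.pos (nat_lit 0) (nat_lit 0)) T2.l9
  TrL.n)))))))) (by decide +kernel)
theorem bx1_5 : BoxOK sI cl5 cl7 cl5 t2 t0 b1_5 :=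
  box_mk (TrL.c (I.pos (nat_lit 0) (nat_lit 0)) T2.l0
  (TrL.c (I.pos (nat_lit 0) (nat_lit 0)) T0.l5
  (TrL.c (I.pos (nat_lit 0) (nat_lit 0)) T2.l7
  (TrL.c (I.pos (nat_lit 0) (nat_lit 0)) T0.l6
  (TrL.c (I.pos (nat_lit 0) (nat_lit 0)) T0.l8
  (TrL.c (I.pos (nat_lit 0) (nat_lit 0)) T2.l8
  (TrL.c (I.pos (nat_lit 0) (nat_lit 0)) T0.l7
  (TrL.c (I.pos (nat_lit 0) (nat_lit 0)) T2.l9
  TrL.n)))))))) (by decide +kernel)
theorem bx1_6 : BoxOK sI cl5 cl7 cl5 t2 t0 b1_6 :=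
  box_mk (TrL.c (I.pos (nat_lit 0) (nat_lit 0)) (xa (xa (xb T2.l0 T2.l0) T2.l0) T2.l0)
  (TrL.c (I.pos (nat_lit 0) (nat_lit 0)) (xa T0.l5 T0.l5)
  (TrL.c (I.pos (nat_lit 0) (nat_lit 0)) T2.l7
  (TrL.c (I.pos (nat_lit 0) (nat_lit 0)) T0.l6
  (TrL.c (I.pos (nat_lit 0) (nat_lit 0)) (xa T0.l8 T0.l8)
  (TrL.c (I.pos (nat_lit 0) (nat_lit 0)) T2.l8
  (TrL.c (I.pos (nat_lit 0) (nat_lit 0)) T0.l7
  (TrL.c (I.pos (nat_lit 0) (nat_lit 0)) T2.l9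
  TrL.n)))))))) (by decide +kernel)
theorem bx1_7 : BoxOK sI cl5 cl7 cl5 t2 t0 b1_7 :=
  box_mk (TrL.c (I.pos (nat_lit 0) (nat_lit 0)) (xa (xa T2.l0 T2.l0) T2.l0)
  (TrL.c (I.pos (nat_lit 0) (nat_lit 0)) T0.l5
  (TrL.c (I.pos (nat_lit 0) (nat_lit 0)) T2.l7
  (TrL.c (I.pos (nat_lit 0) (nat_lit 0)) T0.l6
  (TrL.c (I.pos (nat_lit 0) (nat_lit 0)) T0.l8
  (TrL.c (I.pos (nat_lit 0) (nat_lit 0)) T2.l8
  (TrL.c (I.pos (nat_lit 0) (nat_lit 0)) T0.l7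
  (TrL.c (I.pos (nat_lit 0) (nat_lit 0)) T2.l9
  TrL.n)))))))) (by decide +kernel)
theorem bx1_8 : BoxOK sI cl5 cl7 cl5 t2 t0 b1_8 :=
  box_mk (TrL.c (I.pos (nat_lit 0) (nat_lit 0)) T2.l0
  (TrL.c (I.pos (nat_lit 0) (nat_lit 0)) T0.l5
  (TrL.c (I.pos (nat_lit 0) (nat_lit 0)) T2.l7
  (TrL.c (I.pos (nat_lit 0) (nat_lit 0)) T0.l6
  (TrL.c (I.pos (nat_lit 0) (nat_lit 0)) T0.l8
  (TrL.c (I.pos (nat_lit 0) (nat_lit 0)) T2.l8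
  (TrL.c (I.pos (nat_lit 0) (nat_lit 0)) T0.l7
  (TrL.c (I.pos (nat_lit 0) (nat_lit 0)) T2.l9
  TrL.n)))))))) (by decide +kernel)
theorem bx1_9 : BoxOK sI cl5 cl7 cl5 t2 t0 b1_9 :=
  box_mk (TrL.c (I.pos (nat_lit 0) (nat_lit 0)) T2.l0
  (TrL.c (I.pos (nat_lit 0) (nat_lit 0)) T0.l5
  (TrL.c (I.pos (nat_lit 0) (nat_lit 0)) T2.l7
  (TrL.c (I.pos (nat_lit 0) (nat_lit 0)) T0.l6
  (TrL.c (I.pos (nat_lit 0) (nat_lit 0)) T0.l8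
  (TrL.c (I.pos (nat_lit 0) (nat_lit 0)) T2.l8
  (TrL.c (I.pos (nat_lit 0) (nat_lit 0)) T0.l7
  (TrL.c (I.pos (nat_lit 0) (nat_lit 0)) T2.l9
  TrL.n)))))))) (by decide +kernel)
theorem bx1_10 : BoxOK sI cl5 cl7 cl5 t2 t0 b1_10 :=
  box_mk (TrL.c (I.pos (nat_lit 0) (nat_lit 0)) T2.l0
  (TrL.c (I.pos (nat_lit 0) (nat_lit 0)) T0.l5
  (TrL.c (I.pos (nat_lit 0) (nat_lit 0)) T2.l7
  (TrL.c (I.pos (nat_lit 0) (nat_lit 0)) T0.l6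
  (TrL.c (I.pos (nat_lit 0) (nat_lit 0)) T0.l8
  (TrL.c (I.pos (nat_lit 0) (nat_lit 0)) T2.l8
  (TrL.c (I.pos (nat_lit 0) (nat_lit 0)) T0.l7
  (TrL.c (I.pos (nat_lit 0) (nat_lit 0)) T2.l9
  TrL.n)))))))) (by decide +kernel)
theorem bx1_11 : BoxOK sI cl5 cl7 cl5 t2 t0 b1_11 :=
  box_mk (TrL.c (I.pos (nat_lit 0) (nat_lit 0)) T2.l0
  (TrL.c (I.pos (nat_lit 0) (nat_lit 0)) T0.l5
  (TrL.c (I.pos (nat_lit 0) (nat_lit 0)) T2.l7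
  (TrL.c (I.pos (nat_lit 0) (nat_lit 0)) T0.l6
  (TrL.c (I.pos (nat_lit 0) (nat_lit 0)) T0.l8
  (TrL.c (I.pos (nat_lit 0) (nat_lit 0)) T2.l8
  (TrL.c (I.pos (nat_lit 0) (nat_lit 0)) T0.l7
  (TrL.c (I.pos (nat_lit 0) (nat_lit 0)) T2.l9
  TrL.n)))))))) (by decide +kernel)
theorem sv1 : StarV sI cl5 cl7 cl5 t2 t0 t1 :=
  (bt_n (bt_n (bt_n (bt_b bx1_0) (bt_n (bt_b bx1_1) (bt_b bx1_2))) (bt_n (bt_b bx1_3) (bt_n (bt_b bx1_4) (bt_b bx1_5)))) (bt_n (bt_n (bt_b bx1_6) (bt_n (bt_b bx1_7) (bt_b bx1_8))) (bt_n (bt_b bx1_9) (bt_n (bt_b bx1_10) (bt_b bx1_11)))))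
def S1 : StarD := StarD.mk cl5 cl7 cl5 2 0 t1
theorem bx2_0 : BoxOK sI cl7 cl5 cl5 t1 t1 b2_0 :=
  box_mk (TrL.c (I.pos (nat_lit 0) (nat_lit 0)) (xa (xb (xa T1.l0 T1.l0) (xa (xb T1.l0 T1.l0) T1.l0)) (xa (xb T1.l0 T1.l0) (xb T1.l0 T1.l0)))
  (TrL.c (I.pos (nat_lit 0) (nat_lit 0)) (xa (xb T1.l1 (xa T1.l1 T1.l1)) (xb (xa T1.l1 T1.l1) (xa T1.l1 T1.l1)))
  (TrL.c (I.pos (nat_lit 0) (nat_lit 111196574)) (xR (xR T1.l2 T1.l2) (xR T1.l2 T1.l2))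
  (TrL.c (I.pos (nat_lit 0) (nat_lit 77433728)) (xR T1.l3 (xR T1.l3 T1.l3))
  (TrL.c (I.pos (nat_lit 0) (nat_lit 0)) (xa (xb (xa T1.l4 (xk T1.l4 T1.l4)) T1.l4) (xb (xa (xk T1.l4 T1.l4) (xk (xb T1.l4 T1.l4) (xb T1.l4 T1.l4))) (xa (xk T1.l4 T1.l4) (xk (xb T1.l4 (xa T1.l4 (xs T1.l4 T1.l4))) (xb T1.l4 (xa T1.l4 (xs T1.l4 (xb T1.l4 (xk T1.l4 T1.l4)))))))))
  (TrL.c (I.pos (nat_lit 0) (nat_lit 0)) (xk (xa T1.l5 (xb T1.l5 T1.l5)) (xa T1.l5 T1.l5))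
  (TrL.c (I.mix (nat_lit 29511666) (nat_lit 77433728)) (xR T1.l6 (xR T1.l6 T1.l6))
  (TrL.c (I.mix (nat_lit 29511666) (nat_lit 46070178)) (xR T1.l7 T1.l7)
  TrL.n)))))))) (by decide +kernel)
theorem bx2_1 : BoxOK sI cl7 cl5 cl5 t1 t1 b2_1 :=
  box_mk (TrL.c (I.pos (nat_lit 0) (nat_lit 0)) T1.l0
  (TrL.c (I.pos (nat_lit 0) (nat_lit 0)) T1.l1
  (TrL.c (I.pos (nat_lit 0) (nat_lit 111196574)) (xR T1.l2 T1.l2)
  (TrL.c (I.pos (nat_lit 0) (nat_lit 77433728)) (xR T1.l3 T1.l3)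
  (TrL.c (I.pos (nat_lit 0) (nat_lit 0)) T1.l4
  (TrL.c (I.pos (nat_lit 0) (nat_lit 0)) T1.l5
  (TrL.c (I.mix (nat_lit 29511666) (nat_lit 77433728)) T1.l6
  (TrL.c (I.mix (nat_lit 29511666) (nat_lit 46070178)) T1.l7
  TrL.n)))))))) (by decide +kernel)
theorem bx2_2 : BoxOK sI cl7 cl5 cl5 t1 t1 b2_2 :=
  box_mk (TrL.c (I.pos (nat_lit 0) (nat_lit 0)) T1.l1
  (TrL.c (I.pos (nat_lit 0) (nat_lit 0)) T1.l2
  (TrL.c (I.mix (nat_lit 29511666) (nat_lit 77433728)) (xR T1.l6 T1.l3)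
  (TrL.c (I.mix (nat_lit 29511666) (nat_lit 46070178)) T1.l6
  TrL.n)))) (by decide +kernel)
theorem bx2_3 : BoxOK sI cl7 cl5 cl5 t1 t1 b2_3 :=
  box_mk (TrL.c (I.pos (nat_lit 0) (nat_lit 0)) (xb T1.l0 (xa T1.l0 T1.l0))
  (TrL.c (I.pos (nat_lit 0) (nat_lit 0)) (xb T1.l1 T1.l1)
  (TrL.c (I.pos (nat_lit 0) (nat_lit 111196574)) (xR T1.l2 (xR T1.l2 T1.l2))
  (TrL.c (I.pos (nat_lit 0) (nat_lit 77433728)) (xR T1.l3 T1.l3)
  (TrL.c (I.pos (nat_lit 0) (nat_lit 0)) (xb T1.l4 T1.l4)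
  (TrL.c (I.pos (nat_lit 0) (nat_lit 0)) T1.l5
  (TrL.c (I.mix (nat_lit 29511666) (nat_lit 77433728)) (xR T1.l6 T1.l6)
  (TrL.c (I.mix (nat_lit 29511666) (nat_lit 46070178)) T1.l7
  TrL.n)))))))) (by decide +kernel)
theorem bx2_4 : BoxOK sI cl7 cl5 cl5 t1 t1 b2_4 :=
  box_mk (TrL.c (I.pos (nat_lit 0) (nat_lit 0)) T1.l0
  (TrL.c (I.pos (nat_lit 0) (nat_lit 0)) T1.l1
  (TrL.c (I.pos (nat_lit 0) (nat_lit 111196574)) T1.l2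
  (TrL.c (I.pos (nat_lit 0) (nat_lit 77433728)) T1.l3
  (TrL.c (I.pos (nat_lit 0) (nat_lit 0)) T1.l4
  (TrL.c (I.pos (nat_lit 0) (nat_lit 0)) T1.l5
  (TrL.c (I.mix (nat_lit 29511666) (nat_lit 77433728)) T1.l6
  (TrL.c (I.mix (nat_lit 29511666) (nat_lit 46070178)) T1.l6
  TrL.n)))))))) (by decide +kernel)
theorem bx2_5 : BoxOK sI cl7 cl5 cl5 t1 t1 b2_5 :=
  box_mk (TrL.c (I.pos (nat_lit 0) (nat_lit 0)) T1.l0
  (TrL.c (I.pos (nat_lit 0) (nat_lit 0)) T1.l1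
  (TrL.c (I.pos (nat_lit 0) (nat_lit 111196574)) (xR T1.l2 T1.l2)
  (TrL.c (I.pos (nat_lit 0) (nat_lit 77433728)) (xR T1.l3 T1.l3)
  (TrL.c (I.pos (nat_lit 0) (nat_lit 0)) T1.l4
  (TrL.c (I.pos (nat_lit 0) (nat_lit 0)) T1.l5
  (TrL.c (I.mix (nat_lit 29511666) (nat_lit 77433728)) T1.l6
  (TrL.c (I.mix (nat_lit 29511666) (nat_lit 46070178)) T1.l7
  TrL.n)))))))) (by decide +kernel)
theorem bx2_6 : BoxOK sI cl7 cl5 cl5 t1 t1 b2_6 :=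
  box_mk (TrL.c (I.pos (nat_lit 0) (nat_lit 0)) T1.l8
  (TrL.c (I.pos (nat_lit 0) (nat_lit 0)) T1.l2
  (TrL.c (I.mix (nat_lit 29511666) (nat_lit 77433728)) T1.l6
  (TrL.c (I.mix (nat_lit 29511666) (nat_lit 46070178)) T1.l6
  TrL.n)))) (by decide +kernel)
theorem bx2_7 : BoxOK sI cl7 cl5 cl5 t1 t1 b2_7 :=
  box_mk (TrL.c (I.pos (nat_lit 0) (nat_lit 0)) T1.l0
  (TrL.c (I.pos (nat_lit 0) (nat_lit 0)) T1.l1
  (TrL.c (I.pos (nat_lit 0) (nat_lit 111196574)) T1.l2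
  (TrL.c (I.pos (nat_lit 0) (nat_lit 77433728)) T1.l3
  (TrL.c (I.pos (nat_lit 0) (nat_lit 0)) T1.l4
  (TrL.c (I.pos (nat_lit 0) (nat_lit 0)) T1.l5
  (TrL.c (I.mix (nat_lit 29511666) (nat_lit 77433728)) T1.l6
  (TrL.c (I.mix (nat_lit 29511666) (nat_lit 46070178)) T1.l7
  TrL.n)))))))) (by decide +kernel)
theorem bx2_8 : BoxOK sI cl7 cl5 cl5 t1 t1 b2_8 :=
  box_mk (TrL.c (I.pos (nat_lit 0) (nat_lit 0)) (xb T1.l0 T1.l0)
  (TrL.c (I.pos (nat_lit 0) (nat_lit 0)) T1.l1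
  (TrL.c (I.pos (nat_lit 0) (nat_lit 111196574)) (xR T1.l2 T1.l2)
  (TrL.c (I.pos (nat_lit 0) (nat_lit 77433728)) (xR T1.l3 T1.l3)
  (TrL.c (I.pos (nat_lit 0) (nat_lit 0)) T1.l4
  (TrL.c (I.pos (nat_lit 0) (nat_lit 0)) T1.l5
  (TrL.c (I.mix (nat_lit 29511666) (nat_lit 77433728)) T1.l6
  (TrL.c (I.mix (nat_lit 29511666) (nat_lit 46070178)) (xR T1.l6 T1.l3)
  TrL.n)))))))) (by decide +kernel)
theorem bx2_9 : BoxOK sI cl7 cl5 cl5 t1 t1 b2_9 :=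
  box_mk (TrL.c (I.pos (nat_lit 0) (nat_lit 0)) T1.l1
  (TrL.c (I.pos (nat_lit 0) (nat_lit 0)) T1.l2
  (TrL.c (I.mix (nat_lit 29511666) (nat_lit 77433728)) (xR T1.l6 T1.l3)
  (TrL.c (I.mix (nat_lit 29511666) (nat_lit 46070178)) T1.l6
  TrL.n)))) (by decide +kernel)
theorem sv2 : StarV sI cl7 cl5 cl5 t1 t1 t2 :=
  (bt_n (bt_n (bt_n (bt_b bx2_0) (bt_b bx2_1)) (bt_n (bt_b bx2_2) (bt_n (bt_b bx2_3) (bt_b bx2_4)))) (bt_n (bt_n (bt_b bx2_5) (bt_b bx2_6)) (bt_n (bt_b bx2_7) (bt_n (bt_b bx2_8) (bt_b bx2_9)))))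
def S2 : StarD := StarD.mk cl7 cl5 cl5 1 1 t2
def G : List StarD := [S0, S1, S2]
theorem so0 : StarOK sI G S0 :=
  star_mk (by decide) (by decide) rfl rfl rfl rfl rfl rfl (rfl : _ = t0) (rfl : _ = t2)
  (st_mk (Pth.l (Pth.l (Pth.l Pth.z))) (nat_lit 245134274) (nat_lit 246596316) (by decide +kernel))
  (st_mk (Pth.l (Pth.l (Pth.l Pth.z))) (nat_lit 282247665) (nat_lit 284203610) (by decide +kernel))
  (st_mk (Pth.l (Pth.l (Pth.l Pth.z))) (nat_lit 325489337) (nat_lit 328120591) (by decide +kernel)) sv0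
theorem so1 : StarOK sI G S1 :=
  star_mk (by decide) (by decide) rfl rfl rfl rfl rfl rfl (rfl : _ = t2) (rfl : _ = t0)
  (st_mk (Pth.l (Pth.l (Pth.l Pth.z))) (nat_lit 143228723) (nat_lit 166194908) (by decide +kernel))
  (st_mk (Pth.l (Pth.l (Pth.l Pth.z))) (nat_lit 179958399) (nat_lit 203428002) (by decide +kernel))
  (st_mk (Pth.l (Pth.l (Pth.l Pth.z))) (nat_lit 222885482) (nat_lit 247037292) (by decide +kernel)) sv1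
theorem so2 : StarOK sI G S2 :=
  star_mk (by decide) (by decide) rfl rfl rfl rfl rfl rfl (rfl : _ = t1) (rfl : _ = t1)
  (st_mk (Pth.l (Pth.l (Pth.l Pth.z))) (nat_lit 240934287) (nat_lit 243067568) (by decide +kernel))
  (st_mk (Pth.l (Pth.l (Pth.l Pth.z))) (nat_lit 276746917) (nat_lit 279399763) (by decide +kernel))
  (st_mk (Pth.l (Pth.l (Pth.l Pth.z))) (nat_lit 317694740) (nat_lit 322119446) (by decide +kernel)) sv2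
theorem ok : GroupOK (nat_lit 91226112) (nat_lit 150339584) G := grp_mk (allS_c so0 (allS_c so1 (allS_c so2 allS_n)))
theorem cov : GCov G cl5 cl5 cl7 := cov_mk
  ⟨0, by decide, rfl, rfl, rfl⟩ ⟨1, by decide, rfl, rfl, rfl⟩ ⟨0, by decide, rfl, rfl, rfl⟩ ⟨1, by decide, rfl, rfl, rfl⟩ ⟨2, by decide, rfl, rfl, rfl⟩ ⟨2, by decide, rfl, rfl, rfl⟩
end Q224_1

namespace Q224_2
def sI : I := I.pos (nat_lit 150274048) (nat_lit 209387520)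
def b0_0 : Bx := Bx.mk (St.mk (I.pos (nat_lit 147701760) (nat_lit 226131968)) (I.mix (nat_lit 2146304) (nat_lit 73433088)) (I.mix (nat_lit 2392064) (nat_lit 83034112)) (I.pos (nat_lit 242794496) (nat_lit 349782016)) (I.mix (nat_lit 137773056) (nat_lit 84393984)) (I.mix (nat_lit 86884352) (nat_lit 71663616)) (I.mix (nat_lit 116768768) (nat_lit 106217472)))
  false (nat_lit 10909506)
def b0_1 : Bx := Bx.mk (St.mk (I.pos (nat_lit 24363008) (nat_lit 65961984)) (I.mix (nat_lit 1540096) (nat_lit 45678592)) (I.neg (nat_lit 3883008) (nat_lit 27574272)) (I.pos (nat_lit 144736256) (nat_lit 160235520)) (I.mix (nat_lit 41435136) (nat_lit 60342272)) (I.mix (nat_lit 53624832) (nat_lit 35012608)) (I.mix (nat_lit 29343744) (nat_lit 16859136)))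
  false (nat_lit 0)
def b0_2 : Bx := Bx.mk (St.mk (I.pos (nat_lit 53936128) (nat_lit 97124352)) (I.mix (nat_lit 61702144) (nat_lit 5521408)) (I.neg (nat_lit 21610496) (nat_lit 63324160)) (I.pos (nat_lit 151126016) (nat_lit 181862400)) (I.mix (nat_lit 96206848) (nat_lit 42303488)) (I.mix (nat_lit 41631744) (nat_lit 84623360)) (I.mix (nat_lit 30965760) (nat_lit 50429952)))
  false (nat_lit 0)
def b0_3 : Bx := Bx.mk (St.mk (I.neg (nat_lit 24363008) (nat_lit 69697536)) (I.mix (nat_lit 45678592) (nat_lit 4734976)) (I.neg (nat_lit 3801088) (nat_lit 30392320)) (I.pos (nat_lit 144736256) (nat_lit 161628160)) (I.mix (nat_lit 60375040) (nat_lit 41435136)) (I.mix (nat_lit 34963456) (nat_lit 53624832)) (I.mix (nat_lit 29343744) (nat_lit 16859136)))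
  true (nat_lit 0)
def b0_4 : Bx := Bx.mk (St.mk (I.pos (nat_lit 185090048) (nat_lit 270499840)) (I.mix (nat_lit 8044544) (nat_lit 45023232)) (I.mix (nat_lit 85770240) (nat_lit 22691840)) (I.pos (nat_lit 299909120) (nat_lit 430800896)) (I.mix (nat_lit 115130368) (nat_lit 63520768)) (I.mix (nat_lit 77905920) (nat_lit 69533696)) (I.mix (nat_lit 110739456) (nat_lit 119521280)))
  false (nat_lit 0)
def b0_5 : Bx := Bx.mk (St.mk (I.pos (nat_lit 52035584) (nat_lit 68894720)) (I.mix (nat_lit 3964928) (nat_lit 16744448)) (I.neg (nat_lit 16449536) (nat_lit 30015488)) (I.pos (nat_lit 151470080) (nat_lit 161464320)) (I.mix (nat_lit 17514496) (nat_lit 25395200)) (I.mix (nat_lit 18939904) (nat_lit 13647872)) (I.mix (nat_lit 10240000) (nat_lit 7585792)))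
  false (nat_lit 0)
def b0_6 : Bx := Bx.mk (St.mk (I.pos (nat_lit 62275584) (nat_lit 152190976)) (I.neg (nat_lit 950272) (nat_lit 68845568)) (I.neg (nat_lit 7045120) (nat_lit 70320128)) (I.pos (nat_lit 160153600) (nat_lit 233734144)) (I.mix (nat_lit 105529344) (nat_lit 77332480)) (I.mix (nat_lit 66600960) (nat_lit 81215488)) (I.mix (nat_lit 59359232) (nat_lit 72122368)))
  false (nat_lit 0)
def b0_7 : Bx := Bx.mk (St.mk (I.mix (nat_lit 40435712) (nat_lit 9142272)) (I.mix (nat_lit 40779776) (nat_lit 10272768)) (I.neg (nat_lit 4751360) (nat_lit 12271616)) (I.pos (nat_lit 142229504) (nat_lit 154222592)) (I.mix (nat_lit 40517632) (nat_lit 57540608)) (I.mix (nat_lit 41156608) (nat_lit 48791552)) (I.mix (nat_lit 8208384) (nat_lit 10108928)))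
  true (nat_lit 0)
def b0_8 : Bx := Bx.mk (St.mk (I.mix (nat_lit 9142272) (nat_lit 40435712)) (I.mix (nat_lit 10272768) (nat_lit 40779776)) (I.neg (nat_lit 4751360) (nat_lit 12271616)) (I.pos (nat_lit 142229504) (nat_lit 154222592)) (I.mix (nat_lit 57540608) (nat_lit 40517632)) (I.mix (nat_lit 48791552) (nat_lit 41156608)) (I.mix (nat_lit 8208384) (nat_lit 10108928)))
  false (nat_lit 0)
def b0_9 : Bx := Bx.mk (St.mk (I.pos (nat_lit 144883712) (nat_lit 200015872)) (I.mix (nat_lit 606208) (nat_lit 64634880)) (I.pos (nat_lit 1998848) (nat_lit 75776000)) (I.pos (nat_lit 235307008) (nat_lit 305364992)) (I.mix (nat_lit 169426944) (nat_lit 69844992)) (I.mix (nat_lit 164741120) (nat_lit 100286464)) (I.mix (nat_lit 157925376) (nat_lit 108265472)))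
  false (nat_lit 0)
def b0_10 : Bx := Bx.mk (St.mk (I.pos (nat_lit 118259712) (nat_lit 190283776)) (I.mix (nat_lit 43237376) (nat_lit 16941056)) (I.mix (nat_lit 49807360) (nat_lit 15859712)) (I.pos (nat_lit 200065024) (nat_lit 278364160)) (I.mix (nat_lit 75218944) (nat_lit 66551808)) (I.mix (nat_lit 68485120) (nat_lit 58540032)) (I.mix (nat_lit 70205440) (nat_lit 53690368)))
  false (nat_lit 0)
def b0_11 : Bx := Bx.mk (St.mk (I.pos (nat_lit 145260544) (nat_lit 191660032)) (I.mix (nat_lit 5357568) (nat_lit 44974080)) (I.mix (nat_lit 8667136) (nat_lit 53985280)) (I.pos (nat_lit 238092288) (nat_lit 284508160)) (I.mix (nat_lit 134430720) (nat_lit 77365248)) (I.mix (nat_lit 141541376) (nat_lit 79282176)) (I.mix (nat_lit 138985472) (nat_lit 80887808)))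
  false (nat_lit 0)
def b0_12 : Bx := Bx.mk (St.mk (I.pos (nat_lit 174358528) (nat_lit 230817792)) (I.pos (nat_lit 10584064) (nat_lit 72187904)) (I.mix (nat_lit 18055168) (nat_lit 73105408)) (I.pos (nat_lit 295518208) (nat_lit 348356608)) (I.mix (nat_lit 119144448) (nat_lit 101744640)) (I.mix (nat_lit 108462080) (nat_lit 75268096)) (I.mix (nat_lit 176685056) (nat_lit 112984064)))
  false (nat_lit 0)
def t0 : BTr := (BTr.n (BTr.n (BTr.n (BTr.b b0_0) (BTr.n (BTr.b b0_1) (BTr.b b0_2))) (BTr.n (BTr.b b0_3) (BTr.n (BTr.b b0_4) (BTr.b b0_5)))) (BTr.n (BTr.n (BTr.b b0_6) (BTr.n (BTr.b b0_7) (BTr.b b0_8))) (BTr.n (BTr.n (BTr.b b0_9) (BTr.b b0_10)) (BTr.n (BTr.b b0_11) (BTr.b b0_12)))))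
namespace T0
def l0 : Tr := Tr.L (Pth.l (Pth.l (Pth.l Pth.z)))
def l1 : Tr := Tr.L (Pth.l (Pth.l (Pth.r (Pth.l Pth.z))))
def l2 : Tr := Tr.L (Pth.l (Pth.l (Pth.r (Pth.r Pth.z))))
def l3 : Tr := Tr.L (Pth.l (Pth.r (Pth.l Pth.z)))
def l4 : Tr := Tr.L (Pth.l (Pth.r (Pth.r (Pth.l Pth.z))))
def l5 : Tr := Tr.L (Pth.l (Pth.r (Pth.r (Pth.r Pth.z))))
def l6 : Tr := Tr.L (Pth.r (Pth.l (Pth.l Pth.z)))
def l7 : Tr := Tr.L (Pth.r (Pth.l (Pth.r (Pth.l Pth.z))))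
def l8 : Tr := Tr.L (Pth.r (Pth.l (Pth.r (Pth.r Pth.z))))
def l9 : Tr := Tr.L (Pth.r (Pth.r (Pth.l (Pth.l Pth.z))))
def l10 : Tr := Tr.L (Pth.r (Pth.r (Pth.l (Pth.r Pth.z))))
def l11 : Tr := Tr.L (Pth.r (Pth.r (Pth.r (Pth.l Pth.z))))
def l12 : Tr := Tr.L (Pth.r (Pth.r (Pth.r (Pth.r Pth.z))))
end T0
def b1_0 : Bx := Bx.mk (St.mk (I.pos (nat_lit 143376384) (nat_lit 235192320)) (I.mix (nat_lit 1703936) (nat_lit 61931520)) (I.mix (nat_lit 2719744) (nat_lit 103464960)) (I.pos (nat_lit 142360576) (nat_lit 273252352)) (I.mix (nat_lit 171294720) (nat_lit 104513536)) (I.mix (nat_lit 120799232) (nat_lit 111525888)) (I.mix (nat_lit 158973952) (nat_lit 153288704)))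
  false (nat_lit 40680393)
def b1_1 : Bx := Bx.mk (St.mk (I.pos (nat_lit 94519296) (nat_lit 168411136)) (I.neg (nat_lit 4849664) (nat_lit 58474496)) (I.neg (nat_lit 3964928) (nat_lit 55476224)) (I.pos (nat_lit 94306304) (nat_lit 172687360)) (I.mix (nat_lit 98451456) (nat_lit 59768832)) (I.mix (nat_lit 60129280) (nat_lit 63913984)) (I.mix (nat_lit 54935552) (nat_lit 61636608)))
  false (nat_lit 26563347)
def b1_2 : Bx := Bx.mk (St.mk (I.mix (nat_lit 34357248) (nat_lit 118341632)) (I.mix (nat_lit 2932736) (nat_lit 35930112)) (I.mix (nat_lit 7880704) (nat_lit 23494656)) (I.pos (nat_lit 38010880) (nat_lit 115752960)) (I.mix (nat_lit 58884096) (nat_lit 62144512)) (I.mix (nat_lit 51560448) (nat_lit 50511872)) (I.mix (nat_lit 37584896) (nat_lit 34881536)))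
  false (nat_lit 0)
def b1_3 : Bx := Bx.mk (St.mk (I.mix (nat_lit 36634624) (nat_lit 83148800)) (I.mix (nat_lit 35209216) (nat_lit 3293184)) (I.mix (nat_lit 20807680) (nat_lit 2670592)) (I.pos (nat_lit 37896192) (nat_lit 89948160)) (I.mix (nat_lit 50855936) (nat_lit 44793856)) (I.mix (nat_lit 36765696) (nat_lit 38010880)) (I.mix (nat_lit 19922944) (nat_lit 20987904)))
  false (nat_lit 0)
def b1_4 : Bx := Bx.mk (St.mk (I.pos (nat_lit 156860416) (nat_lit 212697088)) (I.mix (nat_lit 14630912) (nat_lit 59195392)) (I.pos (nat_lit 3653632) (nat_lit 93208576)) (I.pos (nat_lit 144949248) (nat_lit 238239744)) (I.mix (nat_lit 158433280) (nat_lit 69517312)) (I.mix (nat_lit 151977984) (nat_lit 101629952)) (I.mix (nat_lit 160366592) (nat_lit 101515264)))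
  false (nat_lit 0)
def b1_5 : Bx := Bx.mk (St.mk (I.pos (nat_lit 94781440) (nat_lit 140017664)) (I.mix (nat_lit 58556416) (nat_lit 3244032)) (I.neg (nat_lit 1228800) (nat_lit 53510144)) (I.pos (nat_lit 80461824) (nat_lit 135479296)) (I.mix (nat_lit 105332736) (nat_lit 41140224)) (I.mix (nat_lit 55558144) (nat_lit 94011392)) (I.mix (nat_lit 41615360) (nat_lit 67928064)))
  false (nat_lit 12785789)
def b1_6 : Bx := Bx.mk (St.mk (I.mix (nat_lit 36519936) (nat_lit 108101632)) (I.mix (nat_lit 9207808) (nat_lit 40534016)) (I.mix (nat_lit 11354112) (nat_lit 27017216)) (I.pos (nat_lit 41025536) (nat_lit 107921408)) (I.mix (nat_lit 76070912) (nat_lit 47529984)) (I.mix (nat_lit 61751296) (nat_lit 50724864)) (I.mix (nat_lit 32899072) (nat_lit 28524544)))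
  false (nat_lit 0)
def b1_7 : Bx := Bx.mk (St.mk (I.mix (nat_lit 33914880) (nat_lit 72187904)) (I.mix (nat_lit 31735808) (nat_lit 1310720)) (I.mix (nat_lit 15941632) (nat_lit 3473408)) (I.pos (nat_lit 41910272) (nat_lit 82657280)) (I.mix (nat_lit 44974080) (nat_lit 32489472)) (I.mix (nat_lit 27787264) (nat_lit 33669120)) (I.mix (nat_lit 12288000) (nat_lit 13172736)))
  false (nat_lit 0)
def b1_8 : Bx := Bx.mk (St.mk (I.pos (nat_lit 189169664) (nat_lit 266305536)) (I.mix (nat_lit 11173888) (nat_lit 40009728)) (I.mix (nat_lit 25903104) (nat_lit 60276736)) (I.pos (nat_lit 216154112) (nat_lit 344555520)) (I.mix (nat_lit 106807296) (nat_lit 61407232)) (I.mix (nat_lit 70221824) (nat_lit 54870016)) (I.mix (nat_lit 112328704) (nat_lit 97206272)))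
  false (nat_lit 15190477)
def b1_9 : Bx := Bx.mk (St.mk (I.pos (nat_lit 146997248) (nat_lit 199786496)) (I.mix (nat_lit 36077568) (nat_lit 6651904)) (I.mix (nat_lit 30670848) (nat_lit 22953984)) (I.pos (nat_lit 133152768) (nat_lit 211451904)) (I.mix (nat_lit 76824576) (nat_lit 65421312)) (I.mix (nat_lit 64618496) (nat_lit 62504960)) (I.mix (nat_lit 65273856) (nat_lit 63094784)))
  false (nat_lit 14682149)
def b1_10 : Bx := Bx.mk (St.mk (I.pos (nat_lit 144490496) (nat_lit 166576128)) (I.neg (nat_lit 14680064) (nat_lit 37339136)) (I.neg (nat_lit 7503872) (nat_lit 33947648)) (I.pos (nat_lit 132284416) (nat_lit 171900928)) (I.mix (nat_lit 28098560) (nat_lit 16678912)) (I.mix (nat_lit 12976128) (nat_lit 15532032)) (I.mix (nat_lit 13238272) (nat_lit 15908864)))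
  false (nat_lit 0)
def b1_11 : Bx := Bx.mk (St.mk (I.pos (nat_lit 96567296) (nat_lit 113213440)) (I.mix (nat_lit 589824) (nat_lit 7995392)) (I.mix (nat_lit 6504448) (nat_lit 1736704)) (I.pos (nat_lit 81772544) (nat_lit 113295360)) (I.mix (nat_lit 6373376) (nat_lit 10207232)) (I.mix (nat_lit 5341184) (nat_lit 4046848)) (I.mix (nat_lit 4587520) (nat_lit 2572288)))
  false (nat_lit 0)
def b1_12 : Bx := Bx.mk (St.mk (I.mix (nat_lit 39124992) (nat_lit 83378176)) (I.mix (nat_lit 16105472) (nat_lit 3047424)) (I.mix (nat_lit 9175040) (nat_lit 3735552)) (I.pos (nat_lit 43335680) (nat_lit 89686016)) (I.mix (nat_lit 17793024) (nat_lit 18186240)) (I.mix (nat_lit 14057472) (nat_lit 12517376)) (I.mix (nat_lit 7815168) (nat_lit 6750208)))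
  false (nat_lit 0)
def b1_13 : Bx := Bx.mk (St.mk (I.mix (nat_lit 36126720) (nat_lit 12451840)) (I.mix (nat_lit 770048) (nat_lit 7929856)) (I.neg (nat_lit 983040) (nat_lit 5734400)) (I.pos (nat_lit 44187648) (nat_lit 69304320)) (I.mix (nat_lit 5160960) (nat_lit 9306112)) (I.mix (nat_lit 4636672) (nat_lit 3997696)) (I.mix (nat_lit 1458176) (nat_lit 1425408)))
  false (nat_lit 0)
def b1_14 : Bx := Bx.mk (St.mk (I.pos (nat_lit 175423488) (nat_lit 235159552)) (I.pos (nat_lit 11714560) (nat_lit 60309504)) (I.pos (nat_lit 18366464) (nat_lit 98025472)) (I.pos (nat_lit 200785920) (nat_lit 271155200)) (I.mix (nat_lit 119046144) (nat_lit 91848704)) (I.mix (nat_lit 105971712) (nat_lit 77463552)) (I.mix (nat_lit 167788544) (nat_lit 97304576)))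
  false (nat_lit 22920885)
def b1_15 : Bx := Bx.mk (St.mk (I.pos (nat_lit 158564352) (nat_lit 200327168)) (I.mix (nat_lit 17448960) (nat_lit 29589504)) (I.mix (nat_lit 1343488) (nat_lit 56541184)) (I.pos (nat_lit 146931712) (nat_lit 214138880)) (I.mix (nat_lit 109084672) (nat_lit 51183616)) (I.mix (nat_lit 108806144) (nat_lit 57360384)) (I.mix (nat_lit 115818496) (nat_lit 59392000)))
  false (nat_lit 0)
def t1 : BTr := (BTr.n (BTr.n (BTr.n (BTr.n (BTr.b b1_0) (BTr.b b1_1)) (BTr.n (BTr.b b1_2) (BTr.b b1_3))) (BTr.n (BTr.n (BTr.b b1_4) (BTr.b b1_5)) (BTr.n (BTr.b b1_6) (BTr.b b1_7)))) (BTr.n (BTr.n (BTr.n (BTr.b b1_8) (BTr.b b1_9)) (BTr.n (BTr.b b1_10) (BTr.b b1_11))) (BTr.n (BTr.n (BTr.b b1_12) (BTr.b b1_13)) (BTr.n (BTr.b b1_14) (BTr.b b1_15)))))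
namespace T1
def l0 : Tr := Tr.L (Pth.l (Pth.l (Pth.l (Pth.l Pth.z))))
def l1 : Tr := Tr.L (Pth.l (Pth.l (Pth.l (Pth.r Pth.z))))
def l2 : Tr := Tr.L (Pth.l (Pth.l (Pth.r (Pth.l Pth.z))))
def l3 : Tr := Tr.L (Pth.l (Pth.l (Pth.r (Pth.r Pth.z))))
def l4 : Tr := Tr.L (Pth.l (Pth.r (Pth.l (Pth.l Pth.z))))
def l5 : Tr := Tr.L (Pth.l (Pth.r (Pth.l (Pth.r Pth.z))))
def l6 : Tr := Tr.L (Pth.l (Pth.r (Pth.r (Pth.l Pth.z))))
def l7 : Tr := Tr.L (Pth.l (Pth.r (Pth.r (Pth.r Pth.z))))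
def l8 : Tr := Tr.L (Pth.r (Pth.l (Pth.l (Pth.l Pth.z))))
def l9 : Tr := Tr.L (Pth.r (Pth.l (Pth.l (Pth.r Pth.z))))
def l10 : Tr := Tr.L (Pth.r (Pth.l (Pth.r (Pth.l Pth.z))))
def l11 : Tr := Tr.L (Pth.r (Pth.l (Pth.r (Pth.r Pth.z))))
def l12 : Tr := Tr.L (Pth.r (Pth.r (Pth.l (Pth.l Pth.z))))
def l13 : Tr := Tr.L (Pth.r (Pth.r (Pth.l (Pth.r Pth.z))))
def l14 : Tr := Tr.L (Pth.r (Pth.r (Pth.r (Pth.l Pth.z))))
def l15 : Tr := Tr.L (Pth.r (Pth.r (Pth.r (Pth.r Pth.z))))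
end T1
def b2_0 : Bx := Bx.mk (St.mk (I.pos (nat_lit 132710400) (nat_lit 226934784)) (I.mix (nat_lit 1998848) (nat_lit 71811072)) (I.mix (nat_lit 3194880) (nat_lit 115818496)) (I.pos (nat_lit 238403584) (nat_lit 337575936)) (I.mix (nat_lit 171638784) (nat_lit 127598592)) (I.mix (nat_lit 120291328) (nat_lit 118931456)) (I.mix (nat_lit 170508288) (nat_lit 157827072)))
  false (nat_lit 77104196)
def b2_1 : Bx := Bx.mk (St.mk (I.pos (nat_lit 71942144) (nat_lit 142163968)) (I.neg (nat_lit 10977280) (nat_lit 69533696)) (I.mix (nat_lit 48971776) (nat_lit 3670016)) (I.pos (nat_lit 169951232) (nat_lit 221937664)) (I.mix (nat_lit 89767936) (nat_lit 67403776)) (I.mix (nat_lit 49987584) (nat_lit 73039872)) (I.mix (nat_lit 45137920) (nat_lit 65814528)))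
  false (nat_lit 12269371)
def b2_2 : Bx := Bx.mk (St.mk (I.mix (nat_lit 33439744) (nat_lit 2670592)) (I.mix (nat_lit 40501248) (nat_lit 1245184)) (I.pos (nat_lit 5668864) (nat_lit 12795904)) (I.pos (nat_lit 142147584) (nat_lit 152027136)) (I.mix (nat_lit 32669696) (nat_lit 51527680)) (I.mix (nat_lit 28868608) (nat_lit 47022080)) (I.mix (nat_lit 5947392) (nat_lit 7651328)))
  true (nat_lit 0)
def b2_3 : Bx := Bx.mk (St.mk (I.pos (nat_lit 136265728) (nat_lit 191332352)) (I.mix (nat_lit 360448) (nat_lit 63078400)) (I.pos (nat_lit 30015488) (nat_lit 106070016)) (I.pos (nat_lit 219463680) (nat_lit 286064640)) (I.mix (nat_lit 149012480) (nat_lit 52428800)) (I.mix (nat_lit 134889472) (nat_lit 75661312)) (I.mix (nat_lit 130154496) (nat_lit 75726848)))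
  false (nat_lit 36453747)
def b2_4 : Bx := Bx.mk (St.mk (I.mix (nat_lit 6209536) (nat_lit 33554432)) (I.mix (nat_lit 3653632) (nat_lit 40501248)) (I.pos (nat_lit 5668864) (nat_lit 12795904)) (I.pos (nat_lit 142147584) (nat_lit 152027136)) (I.mix (nat_lit 51527680) (nat_lit 32669696)) (I.mix (nat_lit 47022080) (nat_lit 28868608)) (I.mix (nat_lit 5947392) (nat_lit 7651328)))
  false (nat_lit 0)
def b2_5 : Bx := Bx.mk (St.mk (I.pos (nat_lit 128991232) (nat_lit 184418304)) (I.mix (nat_lit 28983296) (nat_lit 13500416)) (I.mix (nat_lit 5668864) (nat_lit 45498368)) (I.pos (nat_lit 207683584) (nat_lit 267304960)) (I.mix (nat_lit 67846144) (nat_lit 72630272)) (I.mix (nat_lit 66404352) (nat_lit 67059712)) (I.mix (nat_lit 63422464) (nat_lit 66961408)))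
  false (nat_lit 6797721)
def b2_6 : Bx := Bx.mk (St.mk (I.pos (nat_lit 122437632) (nat_lit 147161088)) (I.neg (nat_lit 17334272) (nat_lit 41828352)) (I.mix (nat_lit 21053440) (nat_lit 6651904)) (I.pos (nat_lit 204111872) (nat_lit 227065856)) (I.mix (nat_lit 32374784) (nat_lit 31703040)) (I.mix (nat_lit 22249472) (nat_lit 24723456)) (I.mix (nat_lit 20774912) (nat_lit 24313856)))
  false (nat_lit 0)
def b2_7 : Bx := Bx.mk (St.mk (I.mix (nat_lit 8765440) (nat_lit 5488640)) (I.mix (nat_lit 13942784) (nat_lit 2883584)) (I.pos (nat_lit 6520832) (nat_lit 10354688)) (I.pos (nat_lit 142163968) (nat_lit 145145856)) (I.mix (nat_lit 12025856) (nat_lit 20398080)) (I.mix (nat_lit 10371072) (nat_lit 13795328)) (I.mix (nat_lit 1294336) (nat_lit 1048576)))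
  true (nat_lit 0)
def b2_8 : Bx := Bx.mk (St.mk (I.pos (nat_lit 16482304) (nat_lit 74252288)) (I.mix (nat_lit 11730944) (nat_lit 46792704)) (I.mix (nat_lit 13942784) (nat_lit 14843904)) (I.pos (nat_lit 143032320) (nat_lit 164872192)) (I.mix (nat_lit 53542912) (nat_lit 66240512)) (I.mix (nat_lit 53477376) (nat_lit 49725440)) (I.mix (nat_lit 30588928) (nat_lit 24756224)))
  false (nat_lit 0)
def b2_9 : Bx := Bx.mk (St.mk (I.pos (nat_lit 49070080) (nat_lit 105627648)) (I.mix (nat_lit 66306048) (nat_lit 12320768)) (I.neg (nat_lit 786432) (nat_lit 44597248)) (I.pos (nat_lit 151486464) (nat_lit 189710336)) (I.mix (nat_lit 107626496) (nat_lit 46055424)) (I.mix (nat_lit 57917440) (nat_lit 91455488)) (I.mix (nat_lit 43450368) (nat_lit 52199424)))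
  false (nat_lit 0)
def b2_10 : Bx := Bx.mk (St.mk (I.neg (nat_lit 16482304) (nat_lit 74252288)) (I.mix (nat_lit 46792704) (nat_lit 11730944)) (I.mix (nat_lit 13942784) (nat_lit 14843904)) (I.pos (nat_lit 143032320) (nat_lit 164872192)) (I.mix (nat_lit 66240512) (nat_lit 53542912)) (I.mix (nat_lit 49725440) (nat_lit 53477376)) (I.mix (nat_lit 30621696) (nat_lit 24756224)))
  true (nat_lit 0)
def b2_11 : Bx := Bx.mk (St.mk (I.pos (nat_lit 174604288) (nat_lit 291438592)) (I.mix (nat_lit 34340864) (nat_lit 52871168)) (I.mix (nat_lit 86130688) (nat_lit 81068032)) (I.pos (nat_lit 284753920) (nat_lit 463405056)) (I.mix (nat_lit 106905600) (nat_lit 95518720)) (I.mix (nat_lit 93487104) (nat_lit 78528512)) (I.mix (nat_lit 166887424) (nat_lit 128778240)))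
  false (nat_lit 84460686)
def b2_12 : Bx := Bx.mk (St.mk (I.pos (nat_lit 156516352) (nat_lit 223019008)) (I.pos (nat_lit 19628032) (nat_lit 71106560)) (I.pos (nat_lit 37404672) (nat_lit 114016256)) (I.pos (nat_lit 266403840) (nat_lit 329089024)) (I.mix (nat_lit 148455424) (nat_lit 122519552)) (I.mix (nat_lit 129613824) (nat_lit 105152512)) (I.mix (nat_lit 186843136) (nat_lit 130088960)))
  false (nat_lit 55300396)
def b2_13 : Bx := Bx.mk (St.mk (I.pos (nat_lit 141688832) (nat_lit 187580416)) (I.mix (nat_lit 13271040) (nat_lit 38223872)) (I.pos (nat_lit 14041088) (nat_lit 78299136)) (I.pos (nat_lit 223608832) (nat_lit 273039360)) (I.mix (nat_lit 146604032) (nat_lit 69484544)) (I.mix (nat_lit 151633920) (nat_lit 66699264)) (I.mix (nat_lit 149569536) (nat_lit 65912832)))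
  false (nat_lit 7441531)
def t2 : BTr := (BTr.n (BTr.n (BTr.n (BTr.b b2_0) (BTr.n (BTr.b b2_1) (BTr.b b2_2))) (BTr.n (BTr.n (BTr.b b2_3) (BTr.b b2_4)) (BTr.n (BTr.b b2_5) (BTr.b b2_6)))) (BTr.n (BTr.n (BTr.b b2_7) (BTr.n (BTr.b b2_8) (BTr.b b2_9))) (BTr.n (BTr.n (BTr.b b2_10) (BTr.b b2_11)) (BTr.n (BTr.b b2_12) (BTr.b b2_13)))))
namespace T2
def l0 : Tr := Tr.L (Pth.l (Pth.l (Pth.l Pth.z)))
def l1 : Tr := Tr.L (Pth.l (Pth.l (Pth.r (Pth.l Pth.z))))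
def l2 : Tr := Tr.L (Pth.l (Pth.l (Pth.r (Pth.r Pth.z))))
def l3 : Tr := Tr.L (Pth.l (Pth.r (Pth.l (Pth.l Pth.z))))
def l4 : Tr := Tr.L (Pth.l (Pth.r (Pth.l (Pth.r Pth.z))))
def l5 : Tr := Tr.L (Pth.l (Pth.r (Pth.r (Pth.l Pth.z))))
def l6 : Tr := Tr.L (Pth.l (Pth.r (Pth.r (Pth.r Pth.z))))
def l7 : Tr := Tr.L (Pth.r (Pth.l (Pth.l Pth.z)))
def l8 : Tr := Tr.L (Pth.r (Pth.l (Pth.r (Pth.l Pth.z))))
def l9 : Tr := Tr.L (Pth.r (Pth.l (Pth.r (Pth.r Pth.z))))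
def l10 : Tr := Tr.L (Pth.r (Pth.r (Pth.l (Pth.l Pth.z))))
def l11 : Tr := Tr.L (Pth.r (Pth.r (Pth.l (Pth.r Pth.z))))
def l12 : Tr := Tr.L (Pth.r (Pth.r (Pth.r (Pth.l Pth.z))))
def l13 : Tr := Tr.L (Pth.r (Pth.r (Pth.r (Pth.r Pth.z))))
end T2
theorem bx0_0 : BoxOK sI cl5 cl5 cl7 t0 t2 b0_0 :=
  box_mk (TrL.c (I.pos (nat_lit 0) (nat_lit 0)) (xa (xb T0.l0 (xa T0.l0 T0.l0)) (xb T0.l0 (xa T0.l0 T0.l0)))
  (TrL.c (I.pos (nat_lit 0) (nat_lit 0)) (xa T2.l1 T2.l1)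
  (TrL.c (I.pos (nat_lit 0) (nat_lit 0)) T0.l1
  (TrL.c (I.pos (nat_lit 0) (nat_lit 0)) T2.l2
  (TrL.c (I.pos (nat_lit 0) (nat_lit 0)) (xb T2.l3 T2.l3)
  (TrL.c (I.pos (nat_lit 0) (nat_lit 0)) T0.l2
  (TrL.c (I.pos (nat_lit 0) (nat_lit 0)) T2.l4
  (TrL.c (I.pos (nat_lit 0) (nat_lit 0)) T0.l3
  TrL.n)))))))) (by decide +kernel)
theorem bx0_1 : BoxOK sI cl5 cl5 cl7 t0 t2 b0_1 :=
  box_mk (TrL.c (I.pos (nat_lit 0) (nat_lit 0)) T0.l4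
  (TrL.c (I.pos (nat_lit 0) (nat_lit 0)) T2.l1
  (TrL.c (I.pos (nat_lit 0) (nat_lit 0)) T0.l1
  (TrL.c (I.pos (nat_lit 0) (nat_lit 0)) T2.l2
  (TrL.c (I.pos (nat_lit 0) (nat_lit 0)) T2.l5
  (TrL.c (I.pos (nat_lit 0) (nat_lit 0)) T0.l2
  (TrL.c (I.pos (nat_lit 0) (nat_lit 0)) T2.l4
  (TrL.c (I.pos (nat_lit 0) (nat_lit 0)) T0.l3
  TrL.n)))))))) (by decide +kernel)
theorem bx0_2 : BoxOK sI cl5 cl5 cl7 t0 t2 b0_2 :=
  box_mk (TrL.c (I.pos (nat_lit 0) (nat_lit 0)) (xb T0.l4 T0.l4)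
  (TrL.c (I.pos (nat_lit 0) (nat_lit 0)) T2.l1
  (TrL.c (I.pos (nat_lit 0) (nat_lit 0)) T0.l1
  (TrL.c (I.pos (nat_lit 0) (nat_lit 0)) T2.l2
  (TrL.c (I.pos (nat_lit 0) (nat_lit 0)) T2.l5
  (TrL.c (I.pos (nat_lit 0) (nat_lit 0)) T0.l2
  (TrL.c (I.pos (nat_lit 0) (nat_lit 0)) T2.l4
  (TrL.c (I.pos (nat_lit 0) (nat_lit 0)) T0.l3
  TrL.n)))))))) (by decide +kernel)
theorem bx0_3 : BoxOK sI cl5 cl5 cl7 t0 t2 b0_3 :=
  box_mk (TrL.c (I.pos (nat_lit 0) (nat_lit 0)) T2.l1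
  (TrL.c (I.pos (nat_lit 0) (nat_lit 0)) T0.l1
  (TrL.c (I.pos (nat_lit 0) (nat_lit 0)) T2.l2
  TrL.n))) (by decide +kernel)
theorem bx0_4 : BoxOK sI cl5 cl5 cl7 t0 t2 b0_4 :=
  box_mk (TrL.c (I.pos (nat_lit 0) (nat_lit 0)) (xa T0.l0 (xb T0.l0 T0.l0))
  (TrL.c (I.pos (nat_lit 0) (nat_lit 0)) (xa T2.l1 T2.l1)
  (TrL.c (I.pos (nat_lit 0) (nat_lit 0)) T0.l1
  (TrL.c (I.pos (nat_lit 0) (nat_lit 0)) T2.l2
  (TrL.c (I.pos (nat_lit 0) (nat_lit 0)) (xa T2.l3 (xb T2.l0 T2.l3))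
  (TrL.c (I.pos (nat_lit 0) (nat_lit 0)) T0.l2
  (TrL.c (I.pos (nat_lit 0) (nat_lit 0)) T2.l4
  (TrL.c (I.pos (nat_lit 0) (nat_lit 0)) T0.l3
  TrL.n)))))))) (by decide +kernel)
theorem bx0_5 : BoxOK sI cl5 cl5 cl7 t0 t2 b0_5 :=
  box_mk (TrL.c (I.pos (nat_lit 0) (nat_lit 0)) T0.l4
  (TrL.c (I.pos (nat_lit 0) (nat_lit 0)) T2.l1
  (TrL.c (I.pos (nat_lit 0) (nat_lit 0)) T0.l1
  (TrL.c (I.pos (nat_lit 0) (nat_lit 0)) T2.l2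
  (TrL.c (I.pos (nat_lit 0) (nat_lit 0)) T2.l5
  (TrL.c (I.pos (nat_lit 0) (nat_lit 0)) T0.l2
  (TrL.c (I.pos (nat_lit 0) (nat_lit 0)) T2.l4
  (TrL.c (I.pos (nat_lit 0) (nat_lit 0)) T0.l3
  TrL.n)))))))) (by decide +kernel)
theorem bx0_6 : BoxOK sI cl5 cl5 cl7 t0 t2 b0_6 :=
  box_mk (TrL.c (I.pos (nat_lit 0) (nat_lit 0)) (xa (xb T0.l4 T0.l4) T0.l4)
  (TrL.c (I.pos (nat_lit 0) (nat_lit 0)) T2.l1
  (TrL.c (I.pos (nat_lit 0) (nat_lit 0)) T0.l1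
  (TrL.c (I.pos (nat_lit 0) (nat_lit 0)) T2.l2
  (TrL.c (I.pos (nat_lit 0) (nat_lit 0)) (xa T2.l5 T2.l5)
  (TrL.c (I.pos (nat_lit 0) (nat_lit 0)) T0.l2
  (TrL.c (I.pos (nat_lit 0) (nat_lit 0)) T2.l4
  (TrL.c (I.pos (nat_lit 0) (nat_lit 0)) T0.l3
  TrL.n)))))))) (by decide +kernel)
theorem bx0_7 : BoxOK sI cl5 cl5 cl7 t0 t2 b0_7 :=
  box_mk (TrL.c (I.pos (nat_lit 0) (nat_lit 0)) T2.l6
  (TrL.c (I.pos (nat_lit 0) (nat_lit 0)) T0.l5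
  (TrL.c (I.pos (nat_lit 0) (nat_lit 0)) T2.l7
  TrL.n))) (by decide +kernel)
theorem bx0_8 : BoxOK sI cl5 cl5 cl7 t0 t2 b0_8 :=
  box_mk (TrL.c (I.pos (nat_lit 0) (nat_lit 0)) (xb T0.l4 T0.l4)
  (TrL.c (I.pos (nat_lit 0) (nat_lit 0)) T2.l6
  (TrL.c (I.pos (nat_lit 0) (nat_lit 0)) T0.l5
  (TrL.c (I.pos (nat_lit 0) (nat_lit 0)) T2.l7
  (TrL.c (I.pos (nat_lit 0) (nat_lit 0)) T2.l5
  (TrL.c (I.pos (nat_lit 0) (nat_lit 0)) T0.l2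
  (TrL.c (I.pos (nat_lit 0) (nat_lit 0)) T2.l4
  (TrL.c (I.pos (nat_lit 0) (nat_lit 0)) T0.l3
  TrL.n)))))))) (by decide +kernel)
theorem bx0_9 : BoxOK sI cl5 cl5 cl7 t0 t2 b0_9 :=
  box_mk (TrL.c (I.pos (nat_lit 0) (nat_lit 0)) (xa (xb T0.l12 T0.l12) (xb T0.l12 T0.l12))
  (TrL.c (I.pos (nat_lit 0) (nat_lit 0)) T2.l1
  (TrL.c (I.pos (nat_lit 0) (nat_lit 0)) T0.l1
  (TrL.c (I.pos (nat_lit 0) (nat_lit 0)) T2.l2
  (TrL.c (I.pos (nat_lit 0) (nat_lit 0)) T2.l13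
  (TrL.c (I.pos (nat_lit 0) (nat_lit 0)) T0.l2
  (TrL.c (I.pos (nat_lit 0) (nat_lit 0)) T2.l4
  (TrL.c (I.pos (nat_lit 0) (nat_lit 0)) T0.l3
  TrL.n)))))))) (by decide +kernel)
theorem bx0_10 : BoxOK sI cl5 cl5 cl7 t0 t2 b0_10 :=
  box_mk (TrL.c (I.pos (nat_lit 0) (nat_lit 0)) (xa T0.l12 T0.l0)
  (TrL.c (I.pos (nat_lit 0) (nat_lit 0)) T2.l1
  (TrL.c (I.pos (nat_lit 0) (nat_lit 0)) T0.l1
  (TrL.c (I.pos (nat_lit 0) (nat_lit 0)) T2.l2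
  (TrL.c (I.pos (nat_lit 0) (nat_lit 0)) T2.l13
  (TrL.c (I.pos (nat_lit 0) (nat_lit 0)) T0.l2
  (TrL.c (I.pos (nat_lit 0) (nat_lit 0)) T2.l4
  (TrL.c (I.pos (nat_lit 0) (nat_lit 0)) T0.l3
  TrL.n)))))))) (by decide +kernel)
theorem bx0_11 : BoxOK sI cl5 cl5 cl7 t0 t2 b0_11 :=
  box_mk (TrL.c (I.pos (nat_lit 0) (nat_lit 0)) (xb T0.l12 T0.l12)
  (TrL.c (I.pos (nat_lit 0) (nat_lit 0)) T2.l1
  (TrL.c (I.pos (nat_lit 0) (nat_lit 0)) T0.l1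
  (TrL.c (I.pos (nat_lit 0) (nat_lit 0)) T2.l2
  (TrL.c (I.pos (nat_lit 0) (nat_lit 0)) T2.l13
  (TrL.c (I.pos (nat_lit 0) (nat_lit 0)) T0.l2
  (TrL.c (I.pos (nat_lit 0) (nat_lit 0)) T2.l4
  (TrL.c (I.pos (nat_lit 0) (nat_lit 0)) T0.l3
  TrL.n)))))))) (by decide +kernel)
theorem bx0_12 : BoxOK sI cl5 cl5 cl7 t0 t2 b0_12 :=
  box_mk (TrL.c (I.pos (nat_lit 0) (nat_lit 0)) (xa (xb T0.l0 T0.l0) (xb T0.l0 T0.l0))
  (TrL.c (I.pos (nat_lit 0) (nat_lit 0)) T2.l1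
  (TrL.c (I.pos (nat_lit 0) (nat_lit 0)) T0.l1
  (TrL.c (I.pos (nat_lit 0) (nat_lit 0)) T2.l2
  (TrL.c (I.pos (nat_lit 0) (nat_lit 0)) (xb T2.l3 T2.l3)
  (TrL.c (I.pos (nat_lit 0) (nat_lit 0)) T0.l2
  (TrL.c (I.pos (nat_lit 0) (nat_lit 0)) T2.l4
  (TrL.c (I.pos (nat_lit 0) (nat_lit 0)) T0.l3
  TrL.n)))))))) (by decide +kernel)
theorem sv0 : StarV sI cl5 cl5 cl7 t0 t2 t0 :=
  (bt_n (bt_n (bt_n (bt_b bx0_0) (bt_n (bt_b bx0_1) (bt_b bx0_2))) (bt_n (bt_b bx0_3) (bt_n (bt_b bx0_4) (bt_b bx0_5)))) (bt_n (bt_n (bt_b bx0_6) (bt_n (bt_b bx0_7) (bt_b bx0_8))) (bt_n (bt_n (bt_b bx0_9) (bt_b bx0_10)) (bt_n (bt_b bx0_11) (bt_b bx0_12)))))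
def S0 : StarD := StarD.mk cl5 cl5 cl7 0 2 t0
theorem bx1_0 : BoxOK sI cl5 cl7 cl5 t2 t0 b1_0 :=
  box_mk (TrL.c (I.pos (nat_lit 0) (nat_lit 0)) (xa (xb (xa T2.l0 (xb T2.l12 T2.l12)) (xa T2.l0 T2.l0)) (xb (xb (xa T2.l12 T2.l0) (xa T2.l12 T2.l0)) (xa T2.l0 (xb T2.l0 T2.l0))))
  (TrL.c (I.pos (nat_lit 0) (nat_lit 0)) (xa T0.l6 (xb T0.l6 T0.l6))
  (TrL.c (I.pos (nat_lit 0) (nat_lit 0)) T2.l8
  (TrL.c (I.pos (nat_lit 0) (nat_lit 0)) T0.l7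
  (TrL.c (I.pos (nat_lit 0) (nat_lit 0)) (xa T0.l9 (xb T0.l9 T0.l9))
  (TrL.c (I.pos (nat_lit 0) (nat_lit 0)) (xa T2.l9 T2.l9)
  (TrL.c (I.pos (nat_lit 0) (nat_lit 0)) T0.l8
  (TrL.c (I.pos (nat_lit 0) (nat_lit 0)) T2.l10
  TrL.n)))))))) (by decide +kernel)
theorem bx1_1 : BoxOK sI cl5 cl7 cl5 t2 t0 b1_1 :=
  box_mk (TrL.c (I.pos (nat_lit 0) (nat_lit 0)) (xa T2.l11 T2.l0)
  (TrL.c (I.pos (nat_lit 0) (nat_lit 0)) T0.l6
  (TrL.c (I.pos (nat_lit 0) (nat_lit 0)) T2.l8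
  (TrL.c (I.pos (nat_lit 0) (nat_lit 0)) T0.l7
  (TrL.c (I.pos (nat_lit 0) (nat_lit 0)) (xa T0.l10 T0.l10)
  (TrL.c (I.pos (nat_lit 0) (nat_lit 0)) T2.l9
  (TrL.c (I.pos (nat_lit 0) (nat_lit 0)) T0.l8
  (TrL.c (I.pos (nat_lit 0) (nat_lit 0)) T2.l10
  TrL.n)))))))) (by decide +kernel)
theorem bx1_2 : BoxOK sI cl5 cl7 cl5 t2 t0 b1_2 :=
  box_mk (TrL.c (I.pos (nat_lit 0) (nat_lit 0)) (xa (xa (xb T2.l11 T2.l11) T2.l11) (xa T2.l11 T2.l11))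
  (TrL.c (I.pos (nat_lit 0) (nat_lit 0)) T0.l6
  (TrL.c (I.pos (nat_lit 0) (nat_lit 0)) T2.l8
  (TrL.c (I.pos (nat_lit 0) (nat_lit 0)) T0.l7
  (TrL.c (I.pos (nat_lit 0) (nat_lit 0)) (xa T0.l10 T0.l10)
  (TrL.c (I.pos (nat_lit 0) (nat_lit 0)) T2.l9
  (TrL.c (I.pos (nat_lit 0) (nat_lit 0)) T0.l8
  (TrL.c (I.pos (nat_lit 0) (nat_lit 0)) T2.l10
  TrL.n)))))))) (by decide +kernel)
theorem bx1_3 : BoxOK sI cl5 cl7 cl5 t2 t0 b1_3 :=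
  box_mk (TrL.c (I.pos (nat_lit 0) (nat_lit 0)) (xa (xa T2.l11 T2.l11) T2.l11)
  (TrL.c (I.pos (nat_lit 0) (nat_lit 0)) T0.l6
  (TrL.c (I.pos (nat_lit 0) (nat_lit 0)) T2.l8
  (TrL.c (I.pos (nat_lit 0) (nat_lit 0)) T0.l7
  (TrL.c (I.pos (nat_lit 0) (nat_lit 0)) (xa T0.l10 T0.l10)
  (TrL.c (I.pos (nat_lit 0) (nat_lit 0)) T2.l9
  (TrL.c (I.pos (nat_lit 0) (nat_lit 0)) T0.l8
  (TrL.c (I.pos (nat_lit 0) (nat_lit 0)) T2.l10
  TrL.n)))))))) (by decide +kernel)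
theorem bx1_4 : BoxOK sI cl5 cl7 cl5 t2 t0 b1_4 :=
  box_mk (TrL.c (I.pos (nat_lit 0) (nat_lit 0)) (xb (xa (xb (xb T2.l12 T2.l12) T2.l12) (xb (xb T2.l12 T2.l12) (xa T2.l12 T2.l12))) (xa T2.l12 (xb T2.l12 T2.l12)))
  (TrL.c (I.pos (nat_lit 0) (nat_lit 0)) (xb T0.l6 T0.l6)
  (TrL.c (I.pos (nat_lit 0) (nat_lit 0)) T2.l8
  (TrL.c (I.pos (nat_lit 0) (nat_lit 0)) T0.l7
  (TrL.c (I.pos (nat_lit 0) (nat_lit 0)) (xb T0.l11 T0.l9)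
  (TrL.c (I.pos (nat_lit 0) (nat_lit 0)) T2.l9
  (TrL.c (I.pos (nat_lit 0) (nat_lit 0)) T0.l8
  (TrL.c (I.pos (nat_lit 0) (nat_lit 0)) T2.l10
  TrL.n)))))))) (by decide +kernel)
theorem bx1_5 : BoxOK sI cl5 cl7 cl5 t2 t0 b1_5 :=
  box_mk (TrL.c (I.pos (nat_lit 0) (nat_lit 0)) T2.l11
  (TrL.c (I.pos (nat_lit 0) (nat_lit 0)) T0.l6
  (TrL.c (I.pos (nat_lit 0) (nat_lit 0)) T2.l8
  (TrL.c (I.pos (nat_lit 0) (nat_lit 0)) T0.l7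
  (TrL.c (I.pos (nat_lit 0) (nat_lit 0)) T0.l10
  (TrL.c (I.pos (nat_lit 0) (nat_lit 0)) T2.l9
  (TrL.c (I.pos (nat_lit 0) (nat_lit 0)) T0.l8
  (TrL.c (I.pos (nat_lit 0) (nat_lit 0)) T2.l10
  TrL.n)))))))) (by decide +kernel)
theorem bx1_6 : BoxOK sI cl5 cl7 cl5 t2 t0 b1_6 :=
  box_mk (TrL.c (I.pos (nat_lit 0) (nat_lit 0)) (xa (xa (xb T2.l11 T2.l11) T2.l11) (xa T2.l11 T2.l11))
  (TrL.c (I.pos (nat_lit 0) (nat_lit 0)) (xa T0.l6 T0.l6)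
  (TrL.c (I.pos (nat_lit 0) (nat_lit 0)) T2.l8
  (TrL.c (I.pos (nat_lit 0) (nat_lit 0)) T0.l7
  (TrL.c (I.pos (nat_lit 0) (nat_lit 0)) (xa T0.l10 T0.l10)
  (TrL.c (I.pos (nat_lit 0) (nat_lit 0)) T2.l9
  (TrL.c (I.pos (nat_lit 0) (nat_lit 0)) T0.l8
  (TrL.c (I.pos (nat_lit 0) (nat_lit 0)) T2.l10
  TrL.n)))))))) (by decide +kernel)
theorem bx1_7 : BoxOK sI cl5 cl7 cl5 t2 t0 b1_7 :=
  box_mk (TrL.c (I.pos (nat_lit 0) (nat_lit 0)) T2.l11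
  (TrL.c (I.pos (nat_lit 0) (nat_lit 0)) T0.l6
  (TrL.c (I.pos (nat_lit 0) (nat_lit 0)) T2.l8
  (TrL.c (I.pos (nat_lit 0) (nat_lit 0)) T0.l7
  (TrL.c (I.pos (nat_lit 0) (nat_lit 0)) T0.l10
  (TrL.c (I.pos (nat_lit 0) (nat_lit 0)) T2.l9
  (TrL.c (I.pos (nat_lit 0) (nat_lit 0)) T0.l8
  (TrL.c (I.pos (nat_lit 0) (nat_lit 0)) T2.l10
  TrL.n)))))))) (by decide +kernel)
theorem bx1_8 : BoxOK sI cl5 cl7 cl5 t2 t0 b1_8 :=
  box_mk (TrL.c (I.pos (nat_lit 0) (nat_lit 0)) (xa T2.l0 T2.l0)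
  (TrL.c (I.pos (nat_lit 0) (nat_lit 0)) (xa T0.l6 T0.l6)
  (TrL.c (I.pos (nat_lit 0) (nat_lit 0)) T2.l8
  (TrL.c (I.pos (nat_lit 0) (nat_lit 0)) T0.l7
  (TrL.c (I.pos (nat_lit 0) (nat_lit 0)) (xa T0.l9 (xb T0.l9 T0.l9))
  (TrL.c (I.pos (nat_lit 0) (nat_lit 0)) T2.l9
  (TrL.c (I.pos (nat_lit 0) (nat_lit 0)) T0.l8
  (TrL.c (I.pos (nat_lit 0) (nat_lit 0)) T2.l10
  TrL.n)))))))) (by decide +kernel)
theorem bx1_9 : BoxOK sI cl5 cl7 cl5 t2 t0 b1_9 :=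
  box_mk (TrL.c (I.pos (nat_lit 0) (nat_lit 0)) T2.l0
  (TrL.c (I.pos (nat_lit 0) (nat_lit 0)) T0.l6
  (TrL.c (I.pos (nat_lit 0) (nat_lit 0)) T2.l8
  (TrL.c (I.pos (nat_lit 0) (nat_lit 0)) T0.l7
  (TrL.c (I.pos (nat_lit 0) (nat_lit 0)) T0.l11
  (TrL.c (I.pos (nat_lit 0) (nat_lit 0)) T2.l9
  (TrL.c (I.pos (nat_lit 0) (nat_lit 0)) T0.l8
  (TrL.c (I.pos (nat_lit 0) (nat_lit 0)) T2.l10
  TrL.n)))))))) (by decide +kernel)
theorem bx1_10 : BoxOK sI cl5 cl7 cl5 t2 t0 b1_10 :=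
  box_mk (TrL.c (I.pos (nat_lit 0) (nat_lit 0)) T2.l11
  (TrL.c (I.pos (nat_lit 0) (nat_lit 0)) T0.l6
  (TrL.c (I.pos (nat_lit 0) (nat_lit 0)) T2.l8
  (TrL.c (I.pos (nat_lit 0) (nat_lit 0)) T0.l7
  (TrL.c (I.pos (nat_lit 0) (nat_lit 0)) T0.l10
  (TrL.c (I.pos (nat_lit 0) (nat_lit 0)) T2.l9
  (TrL.c (I.pos (nat_lit 0) (nat_lit 0)) T0.l8
  (TrL.c (I.pos (nat_lit 0) (nat_lit 0)) T2.l10
  TrL.n)))))))) (by decide +kernel)
theorem bx1_11 : BoxOK sI cl5 cl7 cl5 t2 t0 b1_11 :=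
  box_mk (TrL.c (I.pos (nat_lit 0) (nat_lit 0)) T2.l11
  (TrL.c (I.pos (nat_lit 0) (nat_lit 0)) T0.l6
  (TrL.c (I.pos (nat_lit 0) (nat_lit 0)) T2.l8
  (TrL.c (I.pos (nat_lit 0) (nat_lit 0)) T0.l7
  (TrL.c (I.pos (nat_lit 0) (nat_lit 0)) T0.l10
  (TrL.c (I.pos (nat_lit 0) (nat_lit 0)) T2.l9
  (TrL.c (I.pos (nat_lit 0) (nat_lit 0)) T0.l8
  (TrL.c (I.pos (nat_lit 0) (nat_lit 0)) T2.l10
  TrL.n)))))))) (by decide +kernel)
theorem bx1_12 : BoxOK sI cl5 cl7 cl5 t2 t0 b1_12 :=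
  box_mk (TrL.c (I.pos (nat_lit 0) (nat_lit 0)) T2.l11
  (TrL.c (I.pos (nat_lit 0) (nat_lit 0)) T0.l6
  (TrL.c (I.pos (nat_lit 0) (nat_lit 0)) T2.l8
  (TrL.c (I.pos (nat_lit 0) (nat_lit 0)) T0.l7
  (TrL.c (I.pos (nat_lit 0) (nat_lit 0)) T0.l10
  (TrL.c (I.pos (nat_lit 0) (nat_lit 0)) T2.l9
  (TrL.c (I.pos (nat_lit 0) (nat_lit 0)) T0.l8
  (TrL.c (I.pos (nat_lit 0) (nat_lit 0)) T2.l10
  TrL.n)))))))) (by decide +kernel)
theorem bx1_13 : BoxOK sI cl5 cl7 cl5 t2 t0 b1_13 :=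
  box_mk (TrL.c (I.pos (nat_lit 0) (nat_lit 0)) T2.l11
  (TrL.c (I.pos (nat_lit 0) (nat_lit 0)) T0.l6
  (TrL.c (I.pos (nat_lit 0) (nat_lit 0)) T2.l8
  (TrL.c (I.pos (nat_lit 0) (nat_lit 0)) T0.l7
  (TrL.c (I.pos (nat_lit 0) (nat_lit 0)) T0.l10
  (TrL.c (I.pos (nat_lit 0) (nat_lit 0)) T2.l9
  (TrL.c (I.pos (nat_lit 0) (nat_lit 0)) T0.l8
  (TrL.c (I.pos (nat_lit 0) (nat_lit 0)) T2.l10
  TrL.n)))))))) (by decide +kernel)
theorem bx1_14 : BoxOK sI cl5 cl7 cl5 t2 t0 b1_14 :=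
  box_mk (TrL.c (I.pos (nat_lit 0) (nat_lit 0)) (xa (xb T2.l0 T2.l0) (xb T2.l0 T2.l0))
  (TrL.c (I.pos (nat_lit 0) (nat_lit 0)) (xa T0.l6 T0.l6)
  (TrL.c (I.pos (nat_lit 0) (nat_lit 0)) T2.l8
  (TrL.c (I.pos (nat_lit 0) (nat_lit 0)) T0.l7
  (TrL.c (I.pos (nat_lit 0) (nat_lit 0)) (xa T0.l9 T0.l9)
  (TrL.c (I.pos (nat_lit 0) (nat_lit 0)) T2.l9
  (TrL.c (I.pos (nat_lit 0) (nat_lit 0)) T0.l8
  (TrL.c (I.pos (nat_lit 0) (nat_lit 0)) T2.l10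
  TrL.n)))))))) (by decide +kernel)
theorem bx1_15 : BoxOK sI cl5 cl7 cl5 t2 t0 b1_15 :=
  box_mk (TrL.c (I.pos (nat_lit 0) (nat_lit 0)) T2.l12
  (TrL.c (I.pos (nat_lit 0) (nat_lit 0)) T0.l6
  (TrL.c (I.pos (nat_lit 0) (nat_lit 0)) T2.l8
  (TrL.c (I.pos (nat_lit 0) (nat_lit 0)) T0.l7
  (TrL.c (I.pos (nat_lit 0) (nat_lit 0)) T0.l11
  (TrL.c (I.pos (nat_lit 0) (nat_lit 0)) T2.l9
  (TrL.c (I.pos (nat_lit 0) (nat_lit 0)) T0.l8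
  (TrL.c (I.pos (nat_lit 0) (nat_lit 0)) T2.l10
  TrL.n)))))))) (by decide +kernel)
theorem sv1 : StarV sI cl5 cl7 cl5 t2 t0 t1 :=
  (bt_n (bt_n (bt_n (bt_n (bt_b bx1_0) (bt_b bx1_1)) (bt_n (bt_b bx1_2) (bt_b bx1_3))) (bt_n (bt_n (bt_b bx1_4) (bt_b bx1_5)) (bt_n (bt_b bx1_6) (bt_b bx1_7)))) (bt_n (bt_n (bt_n (bt_b bx1_8) (bt_b bx1_9)) (bt_n (bt_b bx1_10) (bt_b bx1_11))) (bt_n (bt_n (bt_b bx1_12) (bt_b bx1_13)) (bt_n (bt_b bx1_14) (bt_b bx1_15)))))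
def S1 : StarD := StarD.mk cl5 cl7 cl5 2 0 t1
theorem bx2_0 : BoxOK sI cl7 cl5 cl5 t1 t1 b2_0 :=
  box_mk (TrL.c (I.pos (nat_lit 0) (nat_lit 0)) (xa (xb (xb T1.l0 T1.l0) (xa T1.l0 T1.l0)) (xb (xb (xa T1.l14 T1.l0) T1.l0) (xa T1.l0 (xb T1.l0 T1.l0))))
  (TrL.c (I.pos (nat_lit 0) (nat_lit 0)) (xa (xb T1.l1 T1.l1) (xb T1.l1 T1.l1))
  (TrL.c (I.pos (nat_lit 0) (nat_lit 111196574)) T1.l2
  (TrL.c (I.pos (nat_lit 0) (nat_lit 77433728)) T1.l3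
  (TrL.c (I.pos (nat_lit 0) (nat_lit 0)) (xa (xb T1.l4 T1.l4) (xb (xk T1.l4 T1.l4) (xk (xb T1.l4 (xs T1.l4 (xa T1.l4 T1.l4))) (xb T1.l4 (xa T1.l4 (xs T1.l4 (xk T1.l4 T1.l4)))))))
  (TrL.c (I.pos (nat_lit 0) (nat_lit 0)) T1.l5
  (TrL.c (I.mix (nat_lit 29511666) (nat_lit 77433728)) T1.l6
  (TrL.c (I.mix (nat_lit 29511666) (nat_lit 46070178)) T1.l3
  TrL.n)))))))) (by decide +kernel)
theorem bx2_1 : BoxOK sI cl7 cl5 cl5 t1 t1 b2_1 :=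
  box_mk (TrL.c (I.pos (nat_lit 0) (nat_lit 0)) T1.l8
  (TrL.c (I.pos (nat_lit 0) (nat_lit 0)) T1.l1
  (TrL.c (I.pos (nat_lit 0) (nat_lit 111196574)) T1.l2
  (TrL.c (I.pos (nat_lit 0) (nat_lit 77433728)) T1.l3
  (TrL.c (I.pos (nat_lit 0) (nat_lit 0)) T1.l9
  (TrL.c (I.pos (nat_lit 0) (nat_lit 0)) T1.l5
  (TrL.c (I.mix (nat_lit 29511666) (nat_lit 77433728)) T1.l6
  (TrL.c (I.mix (nat_lit 29511666) (nat_lit 46070178)) T1.l7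
  TrL.n)))))))) (by decide +kernel)
theorem bx2_2 : BoxOK sI cl7 cl5 cl5 t1 t1 b2_2 :=
  box_mk (TrL.c (I.pos (nat_lit 0) (nat_lit 0)) T1.l1
  (TrL.c (I.pos (nat_lit 0) (nat_lit 0)) T1.l2
  (TrL.c (I.mix (nat_lit 29511666) (nat_lit 77433728)) T1.l12
  (TrL.c (I.mix (nat_lit 29511666) (nat_lit 46070178)) T1.l2
  TrL.n)))) (by decide +kernel)
theorem bx2_3 : BoxOK sI cl7 cl5 cl5 t1 t1 b2_3 :=
  box_mk (TrL.c (I.pos (nat_lit 0) (nat_lit 0)) (xa T1.l14 T1.l0)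
  (TrL.c (I.pos (nat_lit 0) (nat_lit 0)) (xb T1.l1 T1.l1)
  (TrL.c (I.pos (nat_lit 0) (nat_lit 111196574)) T1.l2
  (TrL.c (I.pos (nat_lit 0) (nat_lit 77433728)) T1.l3
  (TrL.c (I.pos (nat_lit 0) (nat_lit 0)) T1.l4
  (TrL.c (I.pos (nat_lit 0) (nat_lit 0)) T1.l5
  (TrL.c (I.mix (nat_lit 29511666) (nat_lit 77433728)) T1.l6
  (TrL.c (I.mix (nat_lit 29511666) (nat_lit 46070178)) T1.l7
  TrL.n)))))))) (by decide +kernel)
theorem bx2_4 : BoxOK sI cl7 cl5 cl5 t1 t1 b2_4 :=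
  box_mk (TrL.c (I.pos (nat_lit 0) (nat_lit 0)) T1.l8
  (TrL.c (I.pos (nat_lit 0) (nat_lit 0)) T1.l1
  (TrL.c (I.pos (nat_lit 0) (nat_lit 111196574)) T1.l2
  (TrL.c (I.pos (nat_lit 0) (nat_lit 77433728)) T1.l3
  (TrL.c (I.pos (nat_lit 0) (nat_lit 0)) T1.l9
  (TrL.c (I.pos (nat_lit 0) (nat_lit 0)) T1.l5
  (TrL.c (I.mix (nat_lit 29511666) (nat_lit 77433728)) T1.l6
  (TrL.c (I.mix (nat_lit 29511666) (nat_lit 46070178)) T1.l7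
  TrL.n)))))))) (by decide +kernel)
theorem bx2_5 : BoxOK sI cl7 cl5 cl5 t1 t1 b2_5 :=
  box_mk (TrL.c (I.pos (nat_lit 0) (nat_lit 0)) T1.l0
  (TrL.c (I.pos (nat_lit 0) (nat_lit 0)) T1.l1
  (TrL.c (I.pos (nat_lit 0) (nat_lit 111196574)) T1.l2
  (TrL.c (I.pos (nat_lit 0) (nat_lit 77433728)) T1.l3
  (TrL.c (I.pos (nat_lit 0) (nat_lit 0)) T1.l15
  (TrL.c (I.pos (nat_lit 0) (nat_lit 0)) T1.l5
  (TrL.c (I.mix (nat_lit 29511666) (nat_lit 77433728)) T1.l6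
  (TrL.c (I.mix (nat_lit 29511666) (nat_lit 46070178)) T1.l7
  TrL.n)))))))) (by decide +kernel)
theorem bx2_6 : BoxOK sI cl7 cl5 cl5 t1 t1 b2_6 :=
  box_mk (TrL.c (I.pos (nat_lit 0) (nat_lit 0)) T1.l8
  (TrL.c (I.pos (nat_lit 0) (nat_lit 0)) T1.l1
  (TrL.c (I.pos (nat_lit 0) (nat_lit 111196574)) T1.l2
  (TrL.c (I.pos (nat_lit 0) (nat_lit 77433728)) T1.l3
  (TrL.c (I.pos (nat_lit 0) (nat_lit 0)) T1.l9
  (TrL.c (I.pos (nat_lit 0) (nat_lit 0)) T1.l5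
  (TrL.c (I.mix (nat_lit 29511666) (nat_lit 77433728)) T1.l6
  (TrL.c (I.mix (nat_lit 29511666) (nat_lit 46070178)) T1.l7
  TrL.n)))))))) (by decide +kernel)
theorem bx2_7 : BoxOK sI cl7 cl5 cl5 t1 t1 b2_7 :=
  box_mk (TrL.c (I.pos (nat_lit 0) (nat_lit 0)) T1.l1
  (TrL.c (I.pos (nat_lit 0) (nat_lit 0)) T1.l2
  (TrL.c (I.mix (nat_lit 29511666) (nat_lit 77433728)) T1.l3
  (TrL.c (I.mix (nat_lit 29511666) (nat_lit 46070178)) T1.l2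
  TrL.n)))) (by decide +kernel)
theorem bx2_8 : BoxOK sI cl7 cl5 cl5 t1 t1 b2_8 :=
  box_mk (TrL.c (I.pos (nat_lit 0) (nat_lit 0)) (xb T1.l8 T1.l8)
  (TrL.c (I.pos (nat_lit 0) (nat_lit 0)) T1.l1
  (TrL.c (I.pos (nat_lit 0) (nat_lit 111196574)) T1.l2
  (TrL.c (I.pos (nat_lit 0) (nat_lit 77433728)) T1.l3
  (TrL.c (I.pos (nat_lit 0) (nat_lit 0)) T1.l9
  (TrL.c (I.pos (nat_lit 0) (nat_lit 0)) T1.l5
  (TrL.c (I.mix (nat_lit 29511666) (nat_lit 77433728)) T1.l6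
  (TrL.c (I.mix (nat_lit 29511666) (nat_lit 46070178)) T1.l7
  TrL.n)))))))) (by decide +kernel)
theorem bx2_9 : BoxOK sI cl7 cl5 cl5 t1 t1 b2_9 :=
  box_mk (TrL.c (I.pos (nat_lit 0) (nat_lit 0)) (xb T1.l8 T1.l8)
  (TrL.c (I.pos (nat_lit 0) (nat_lit 0)) T1.l1
  (TrL.c (I.pos (nat_lit 0) (nat_lit 111196574)) T1.l2
  (TrL.c (I.pos (nat_lit 0) (nat_lit 77433728)) T1.l3
  (TrL.c (I.pos (nat_lit 0) (nat_lit 0)) T1.l9
  (TrL.c (I.pos (nat_lit 0) (nat_lit 0)) T1.l5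
  (TrL.c (I.mix (nat_lit 29511666) (nat_lit 77433728)) T1.l6
  (TrL.c (I.mix (nat_lit 29511666) (nat_lit 46070178)) T1.l3
  TrL.n)))))))) (by decide +kernel)
theorem bx2_10 : BoxOK sI cl7 cl5 cl5 t1 t1 b2_10 :=
  box_mk (TrL.c (I.pos (nat_lit 0) (nat_lit 0)) T1.l1
  (TrL.c (I.pos (nat_lit 0) (nat_lit 0)) T1.l2
  (TrL.c (I.mix (nat_lit 29511666) (nat_lit 77433728)) T1.l12
  (TrL.c (I.mix (nat_lit 29511666) (nat_lit 46070178)) T1.l6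
  TrL.n)))) (by decide +kernel)
theorem bx2_11 : BoxOK sI cl7 cl5 cl5 t1 t1 b2_11 :=
  box_mk (TrL.c (I.pos (nat_lit 0) (nat_lit 0)) (xa (xb T1.l0 T1.l0) (xb T1.l0 (xa T1.l0 T1.l0)))
  (TrL.c (I.pos (nat_lit 0) (nat_lit 0)) (xa (xb T1.l1 T1.l1) (xb (xk T1.l1 T1.l1) (xk T1.l1 T1.l1)))
  (TrL.c (I.pos (nat_lit 0) (nat_lit 111196574)) (xR T1.l2 T1.l6)
  (TrL.c (I.pos (nat_lit 0) (nat_lit 77433728)) T1.l3
  (TrL.c (I.pos (nat_lit 0) (nat_lit 0)) (xa (xb (xa T1.l4 (xk T1.l4 T1.l4)) T1.l4) (xb (xk (xa T1.l4 (xb T1.l4 T1.l4)) (xa T1.l4 (xb T1.l4 T1.l4))) (xk (xa T1.l4 (xb T1.l4 T1.l4)) (xa T1.l4 (xb T1.l4 T1.l4)))))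
  (TrL.c (I.pos (nat_lit 0) (nat_lit 0)) (xk (xa T1.l5 T1.l5) (xa T1.l5 T1.l5))
  (TrL.c (I.mix (nat_lit 29511666) (nat_lit 77433728)) (xR T1.l6 T1.l6)
  (TrL.c (I.mix (nat_lit 29511666) (nat_lit 46070178)) T1.l7
  TrL.n)))))))) (by decide +kernel)
theorem bx2_12 : BoxOK sI cl7 cl5 cl5 t1 t1 b2_12 :=
  box_mk (TrL.c (I.pos (nat_lit 0) (nat_lit 0)) (xa (xb (xb T1.l0 T1.l0) (xb T1.l0 T1.l0)) (xb (xb T1.l0 T1.l0) (xb T1.l0 T1.l0)))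
  (TrL.c (I.pos (nat_lit 0) (nat_lit 0)) (xa T1.l1 T1.l1)
  (TrL.c (I.pos (nat_lit 0) (nat_lit 111196574)) T1.l2
  (TrL.c (I.pos (nat_lit 0) (nat_lit 77433728)) T1.l3
  (TrL.c (I.pos (nat_lit 0) (nat_lit 0)) (xa (xb T1.l4 T1.l4) (xb T1.l4 (xk (xb T1.l4 T1.l4) (xs T1.l4 (xb T1.l4 T1.l4)))))
  (TrL.c (I.pos (nat_lit 0) (nat_lit 0)) T1.l5
  (TrL.c (I.mix (nat_lit 29511666) (nat_lit 77433728)) T1.l6
  (TrL.c (I.mix (nat_lit 29511666) (nat_lit 46070178)) T1.l3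
  TrL.n)))))))) (by decide +kernel)
theorem bx2_13 : BoxOK sI cl7 cl5 cl5 t1 t1 b2_13 :=
  box_mk (TrL.c (I.pos (nat_lit 0) (nat_lit 0)) (xb T1.l14 T1.l14)
  (TrL.c (I.pos (nat_lit 0) (nat_lit 0)) T1.l1
  (TrL.c (I.pos (nat_lit 0) (nat_lit 111196574)) T1.l2
  (TrL.c (I.pos (nat_lit 0) (nat_lit 77433728)) T1.l3
  (TrL.c (I.pos (nat_lit 0) (nat_lit 0)) T1.l4
  (TrL.c (I.pos (nat_lit 0) (nat_lit 0)) T1.l5
  (TrL.c (I.mix (nat_lit 29511666) (nat_lit 77433728)) T1.l6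
  (TrL.c (I.mix (nat_lit 29511666) (nat_lit 46070178)) T1.l7
  TrL.n)))))))) (by decide +kernel)
theorem sv2 : StarV sI cl7 cl5 cl5 t1 t1 t2 :=
  (bt_n (bt_n (bt_n (bt_b bx2_0) (bt_n (bt_b bx2_1) (bt_b bx2_2))) (bt_n (bt_n (bt_b bx2_3) (bt_b bx2_4)) (bt_n (bt_b bx2_5) (bt_b bx2_6)))) (bt_n (bt_n (bt_b bx2_7) (bt_n (bt_b bx2_8) (bt_b bx2_9))) (bt_n (bt_n (bt_b bx2_10) (bt_b bx2_11)) (bt_n (bt_b bx2_12) (bt_b bx2_13)))))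
def S2 : StarD := StarD.mk cl7 cl5 cl5 1 1 t2
def G : List StarD := [S0, S1, S2]
theorem so0 : StarOK sI G S0 :=
  star_mk (by decide) (by decide) rfl rfl rfl rfl rfl rfl (rfl : _ = t0) (rfl : _ = t2)
  (st_mk (Pth.l (Pth.l (Pth.l Pth.z))) (nat_lit 246329050) (nat_lit 247857223) (by decide +kernel))
  (st_mk (Pth.l (Pth.l (Pth.l Pth.z))) (nat_lit 283848445) (nat_lit 285899973) (by decide +kernel))
  (st_mk (Pth.l (Pth.l (Pth.l Pth.z))) (nat_lit 327644912) (nat_lit 330416234) (by decide +kernel)) sv0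
theorem so1 : StarOK sI G S1 :=
  star_mk (by decide) (by decide) rfl rfl rfl rfl rfl rfl (rfl : _ = t2) (rfl : _ = t0)
  (st_mk (Pth.l (Pth.l (Pth.l (Pth.l Pth.z)))) (nat_lit 143788619) (nat_lit 166889074) (by decide +kernel))
  (st_mk (Pth.l (Pth.l (Pth.l (Pth.l Pth.z)))) (nat_lit 180847889) (nat_lit 204491014) (by decide +kernel))
  (st_mk (Pth.l (Pth.l (Pth.l (Pth.l Pth.z)))) (nat_lit 224264745) (nat_lit 248642394) (by decide +kernel)) sv1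
theorem so2 : StarOK sI G S2 :=
  star_mk (by decide) (by decide) rfl rfl rfl rfl rfl rfl (rfl : _ = t1) (rfl : _ = t1)
  (st_mk (Pth.l (Pth.l (Pth.l Pth.z))) (nat_lit 241419188) (nat_lit 243724437) (by decide +kernel))
  (st_mk (Pth.l (Pth.l (Pth.l Pth.z))) (nat_lit 276852353) (nat_lit 280810541) (by decide +kernel))
  (st_mk (Pth.l (Pth.l (Pth.l Pth.z))) (nat_lit 318548042) (nat_lit 323286410) (by decide +kernel)) sv2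
theorem ok : GroupOK (nat_lit 150274048) (nat_lit 209387520) G := grp_mk (allS_c so0 (allS_c so1 (allS_c so2 allS_n)))
theorem cov : GCov G cl5 cl5 cl7 := cov_mk
  ⟨0, by decide, rfl, rfl, rfl⟩ ⟨1, by decide, rfl, rfl, rfl⟩ ⟨0, by decide, rfl, rfl, rfl⟩ ⟨1, by decide, rfl, rfl, rfl⟩ ⟨2, by decide, rfl, rfl, rfl⟩ ⟨2, by decide, rfl, rfl, rfl⟩
end Q224_2

namespace Q224_3
def sI : I := I.pos (nat_lit 209321984) (nat_lit 268435456)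
def b0_0 : Bx := Bx.mk (St.mk (I.pos (nat_lit 142458880) (nat_lit 226754560)) (I.mix (nat_lit 9388032) (nat_lit 75055104)) (I.mix (nat_lit 10584064) (nat_lit 84705280)) (I.pos (nat_lit 233078784) (nat_lit 357892096)) (I.mix (nat_lit 176308224) (nat_lit 123060224)) (I.mix (nat_lit 94568448) (nat_lit 102383616)) (I.mix (nat_lit 143360000) (nat_lit 154746880)))
  false (nat_lit 83511031)
def b0_1 : Bx := Bx.mk (St.mk (I.pos (nat_lit 19087360) (nat_lit 76365824)) (I.mix (nat_lit 10420224) (nat_lit 48529408)) (I.neg (nat_lit 983040) (nat_lit 33636352)) (I.pos (nat_lit 143065088) (nat_lit 163954688)) (I.mix (nat_lit 50675712) (nat_lit 82870272)) (I.mix (nat_lit 53608448) (nat_lit 50774016)) (I.mix (nat_lit 31883264) (nat_lit 20414464)))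
  false (nat_lit 0)
def b0_2 : Bx := Bx.mk (St.mk (I.pos (nat_lit 47824896) (nat_lit 97779712)) (I.mix (nat_lit 64684032) (nat_lit 12632064)) (I.neg (nat_lit 17022976) (nat_lit 65617920)) (I.pos (nat_lit 146505728) (nat_lit 183140352)) (I.mix (nat_lit 129826816) (nat_lit 50380800)) (I.mix (nat_lit 59097088) (nat_lit 98320384)) (I.mix (nat_lit 44384256) (nat_lit 59637760)))
  false (nat_lit 0)
def b0_3 : Bx := Bx.mk (St.mk (I.neg (nat_lit 19087360) (nat_lit 76365824)) (I.mix (nat_lit 48545792) (nat_lit 10420224)) (I.neg (nat_lit 983040) (nat_lit 33636352)) (I.pos (nat_lit 143065088) (nat_lit 163954688)) (I.mix (nat_lit 82870272) (nat_lit 50675712)) (I.mix (nat_lit 50774016) (nat_lit 53608448)) (I.mix (nat_lit 31883264) (nat_lit 20414464)))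
  true (nat_lit 0)
def b0_4 : Bx := Bx.mk (St.mk (I.pos (nat_lit 181272576) (nat_lit 277348352)) (I.mix (nat_lit 10010624) (nat_lit 43548672)) (I.mix (nat_lit 90816512) (nat_lit 24182784)) (I.pos (nat_lit 284360704) (nat_lit 446808064)) (I.mix (nat_lit 120291328) (nat_lit 85901312)) (I.mix (nat_lit 78200832) (nat_lit 77807616)) (I.mix (nat_lit 129482752) (nat_lit 132136960)))
  false (nat_lit 24180635)
def b0_5 : Bx := Bx.mk (St.mk (I.pos (nat_lit 49512448) (nat_lit 72400896)) (I.mix (nat_lit 6504448) (nat_lit 19152896)) (I.neg (nat_lit 14843904) (nat_lit 31784960)) (I.pos (nat_lit 149635072) (nat_lit 163151872)) (I.mix (nat_lit 16334848) (nat_lit 23822336)) (I.mix (nat_lit 12746752) (nat_lit 10862592)) (I.mix (nat_lit 7782400) (nat_lit 7143424)))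
  false (nat_lit 0)
def b0_6 : Bx := Bx.mk (St.mk (I.pos (nat_lit 53919744) (nat_lit 156778496)) (I.neg (nat_lit 4390912) (nat_lit 67305472)) (I.neg (nat_lit 8634368) (nat_lit 68894720)) (I.pos (nat_lit 152764416) (nat_lit 238452736)) (I.mix (nat_lit 122503168) (nat_lit 85295104)) (I.mix (nat_lit 62259200) (nat_lit 93306880)) (I.mix (nat_lit 53084160) (nat_lit 80953344)))
  false (nat_lit 8388972)
def b0_7 : Bx := Bx.mk (St.mk (I.mix (nat_lit 46858240) (nat_lit 15433728)) (I.mix (nat_lit 45809664) (nat_lit 14532608)) (I.neg (nat_lit 4161536) (nat_lit 13221888)) (I.pos (nat_lit 140738560) (nat_lit 157106176)) (I.mix (nat_lit 44023808) (nat_lit 55164928)) (I.mix (nat_lit 36765696) (nat_lit 47726592)) (I.mix (nat_lit 8536064) (nat_lit 9666560)))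
  true (nat_lit 0)
def b0_8 : Bx := Bx.mk (St.mk (I.pos (nat_lit 142426112) (nat_lit 196689920)) (I.mix (nat_lit 2260992) (nat_lit 65159168)) (I.mix (nat_lit 1130496) (nat_lit 77840384)) (I.pos (nat_lit 234553344) (nat_lit 308805632)) (I.mix (nat_lit 154353664) (nat_lit 62914560)) (I.mix (nat_lit 134217728) (nat_lit 84590592)) (I.mix (nat_lit 128188416) (nat_lit 93306880)))
  false (nat_lit 28349824)
def b0_9 : Bx := Bx.mk (St.mk (I.mix (nat_lit 15433728) (nat_lit 46858240)) (I.mix (nat_lit 15319040) (nat_lit 45907968)) (I.neg (nat_lit 4161536) (nat_lit 13221888)) (I.pos (nat_lit 140738560) (nat_lit 157106176)) (I.mix (nat_lit 55164928) (nat_lit 44023808)) (I.mix (nat_lit 47726592) (nat_lit 36765696)) (I.mix (nat_lit 8536064) (nat_lit 9666560)))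
  false (nat_lit 0)
def b0_10 : Bx := Bx.mk (St.mk (I.pos (nat_lit 110018560) (nat_lit 194134016)) (I.mix (nat_lit 39927808) (nat_lit 20316160)) (I.mix (nat_lit 44744704) (nat_lit 19300352)) (I.pos (nat_lit 190562304) (nat_lit 288718848)) (I.mix (nat_lit 85049344) (nat_lit 84754432)) (I.mix (nat_lit 81477632) (nat_lit 73400320)) (I.mix (nat_lit 82804736) (nat_lit 68173824)))
  false (nat_lit 39573667)
def b0_11 : Bx := Bx.mk (St.mk (I.pos (nat_lit 143884288) (nat_lit 189808640)) (I.mix (nat_lit 7782400) (nat_lit 41844736)) (I.mix (nat_lit 11010048) (nat_lit 51429376)) (I.pos (nat_lit 237780992) (nat_lit 287408128)) (I.mix (nat_lit 145637376) (nat_lit 78512128)) (I.mix (nat_lit 137003008) (nat_lit 73170944)) (I.mix (nat_lit 134840320) (nat_lit 76709888)))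
  false (nat_lit 0)
def b0_12 : Bx := Bx.mk (St.mk (I.pos (nat_lit 171130880) (nat_lit 229720064)) (I.pos (nat_lit 16056320) (nat_lit 72302592)) (I.mix (nat_lit 12042240) (nat_lit 74612736)) (I.pos (nat_lit 293371904) (nat_lit 353550336)) (I.mix (nat_lit 127877120) (nat_lit 102498304)) (I.mix (nat_lit 98975744) (nat_lit 74055680)) (I.mix (nat_lit 156794880) (nat_lit 108363776)))
  false (nat_lit 47719794)
def t0 : BTr := (BTr.n (BTr.n (BTr.n (BTr.b b0_0) (BTr.n (BTr.b b0_1) (BTr.b b0_2))) (BTr.n (BTr.b b0_3) (BTr.n (BTr.b b0_4) (BTr.b b0_5)))) (BTr.n (BTr.n (BTr.b b0_6) (BTr.n (BTr.b b0_7) (BTr.b b0_8))) (BTr.n (BTr.n (BTr.b b0_9) (BTr.b b0_10)) (BTr.n (BTr.b b0_11) (BTr.b b0_12)))))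
namespace T0
def l0 : Tr := Tr.L (Pth.l (Pth.l (Pth.l Pth.z)))
def l1 : Tr := Tr.L (Pth.l (Pth.l (Pth.r (Pth.l Pth.z))))
def l2 : Tr := Tr.L (Pth.l (Pth.l (Pth.r (Pth.r Pth.z))))
def l3 : Tr := Tr.L (Pth.l (Pth.r (Pth.l Pth.z)))
def l4 : Tr := Tr.L (Pth.l (Pth.r (Pth.r (Pth.l Pth.z))))
def l5 : Tr := Tr.L (Pth.l (Pth.r (Pth.r (Pth.r Pth.z))))
def l6 : Tr := Tr.L (Pth.r (Pth.l (Pth.l Pth.z)))
def l7 : Tr := Tr.L (Pth.r (Pth.l (Pth.r (Pth.l Pth.z))))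
def l8 : Tr := Tr.L (Pth.r (Pth.l (Pth.r (Pth.r Pth.z))))
def l9 : Tr := Tr.L (Pth.r (Pth.r (Pth.l (Pth.l Pth.z))))
def l10 : Tr := Tr.L (Pth.r (Pth.r (Pth.l (Pth.r Pth.z))))
def l11 : Tr := Tr.L (Pth.r (Pth.r (Pth.r (Pth.l Pth.z))))
def l12 : Tr := Tr.L (Pth.r (Pth.r (Pth.r (Pth.r Pth.z))))
end T0
def b1_0 : Bx := Bx.mk (St.mk (I.pos (nat_lit 146505728) (nat_lit 231702528)) (I.mix (nat_lit 6832128) (nat_lit 54231040)) (I.mix (nat_lit 11288576) (nat_lit 89522176)) (I.pos (nat_lit 130433024) (nat_lit 271417344)) (I.mix (nat_lit 146587648) (nat_lit 93929472)) (I.mix (nat_lit 92897280) (nat_lit 86294528)) (I.mix (nat_lit 129286144) (nat_lit 124190720)))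
  false (nat_lit 25763555)
def b1_1 : Bx := Bx.mk (St.mk (I.pos (nat_lit 84508672) (nat_lit 175128576)) (I.neg (nat_lit 589824) (nat_lit 59621376)) (I.neg (nat_lit 1556480) (nat_lit 56754176)) (I.pos (nat_lit 88735744) (nat_lit 177815552)) (I.mix (nat_lit 113344512) (nat_lit 73531392)) (I.mix (nat_lit 62029824) (nat_lit 78479360)) (I.mix (nat_lit 51838976) (nat_lit 75087872)))
  false (nat_lit 39822441)
def b1_2 : Bx := Bx.mk (St.mk (I.mix (nat_lit 37421056) (nat_lit 133447680)) (I.mix (nat_lit 5013504) (nat_lit 33259520)) (I.mix (nat_lit 10289152) (nat_lit 21446656)) (I.pos (nat_lit 34635776) (nat_lit 123863040)) (I.mix (nat_lit 56393728) (nat_lit 47169536)) (I.mix (nat_lit 40566784) (nat_lit 33816576)) (I.mix (nat_lit 29818880) (nat_lit 23478272)))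
  false (nat_lit 0)
def b1_3 : Bx := Bx.mk (St.mk (I.mix (nat_lit 33341440) (nat_lit 94781440)) (I.mix (nat_lit 32702464) (nat_lit 3768320)) (I.mix (nat_lit 18694144) (nat_lit 4243456)) (I.pos (nat_lit 38404096) (nat_lit 95059968)) (I.mix (nat_lit 48807936) (nat_lit 38928384)) (I.mix (nat_lit 28082176) (nat_lit 33308672)) (I.mix (nat_lit 14909440) (nat_lit 18268160)))
  false (nat_lit 0)
def b1_4 : Bx := Bx.mk (St.mk (I.pos (nat_lit 154501120) (nat_lit 209453056)) (I.mix (nat_lit 13385728) (nat_lit 55115776)) (I.pos (nat_lit 4620288) (nat_lit 87769088)) (I.pos (nat_lit 146227200) (nat_lit 234749952)) (I.mix (nat_lit 161841152) (nat_lit 73891840)) (I.mix (nat_lit 132218880) (nat_lit 86966272)) (I.mix (nat_lit 138084352) (nat_lit 82739200)))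
  false (nat_lit 0)
def b1_5 : Bx := Bx.mk (St.mk (I.pos (nat_lit 89407488) (nat_lit 142868480)) (I.mix (nat_lit 59719680) (nat_lit 8830976)) (I.mix (nat_lit 55787520) (nat_lit 3375104)) (I.pos (nat_lit 74924032) (nat_lit 142819328)) (I.mix (nat_lit 115113984) (nat_lit 48250880)) (I.mix (nat_lit 54001664) (nat_lit 90570752)) (I.mix (nat_lit 38027264) (nat_lit 64225280)))
  false (nat_lit 10343302)
def b1_6 : Bx := Bx.mk (St.mk (I.mix (nat_lit 52363264) (nat_lit 121389056)) (I.mix (nat_lit 12550144) (nat_lit 38060032)) (I.mix (nat_lit 9437184) (nat_lit 25968640)) (I.pos (nat_lit 36126720) (nat_lit 112902144)) (I.mix (nat_lit 67878912) (nat_lit 36241408)) (I.mix (nat_lit 51085312) (nat_lit 36339712)) (I.mix (nat_lit 27869184) (nat_lit 21282816)))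
  false (nat_lit 0)
def b1_7 : Bx := Bx.mk (St.mk (I.mix (nat_lit 47169536) (nat_lit 80216064)) (I.mix (nat_lit 31735808) (nat_lit 5423104)) (I.mix (nat_lit 16990208) (nat_lit 4472832)) (I.pos (nat_lit 39616512) (nat_lit 86474752)) (I.mix (nat_lit 44908544) (nat_lit 20971520)) (I.mix (nat_lit 21528576) (nat_lit 34226176)) (I.mix (nat_lit 10174464) (nat_lit 12894208)))
  false (nat_lit 0)
def b1_8 : Bx := Bx.mk (St.mk (I.pos (nat_lit 189382656) (nat_lit 271794176)) (I.mix (nat_lit 11141120) (nat_lit 36061184)) (I.mix (nat_lit 30539776) (nat_lit 56475648)) (I.pos (nat_lit 198131712) (nat_lit 362168320)) (I.mix (nat_lit 112787456) (nat_lit 62341120)) (I.mix (nat_lit 69926912) (nat_lit 56393728)) (I.mix (nat_lit 111706112) (nat_lit 93978624)))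
  false (nat_lit 12099034)
def b1_9 : Bx := Bx.mk (St.mk (I.pos (nat_lit 140279808) (nat_lit 203898880)) (I.mix (nat_lit 37421056) (nat_lit 9273344)) (I.mix (nat_lit 31653888) (nat_lit 26050560)) (I.pos (nat_lit 125960192) (nat_lit 219693056)) (I.mix (nat_lit 76300288) (nat_lit 86196224)) (I.mix (nat_lit 83574784) (nat_lit 71565312)) (I.mix (nat_lit 84819968) (nat_lit 72843264)))
  false (nat_lit 56977859)
def b1_10 : Bx := Bx.mk (St.mk (I.pos (nat_lit 143933440) (nat_lit 167919616)) (I.neg (nat_lit 15433728) (nat_lit 36552704)) (I.neg (nat_lit 7077888) (nat_lit 31965184)) (I.pos (nat_lit 131678208) (nat_lit 172605440)) (I.mix (nat_lit 25067520) (nat_lit 16859136)) (I.mix (nat_lit 12222464) (nat_lit 13156352)) (I.mix (nat_lit 12697600) (nat_lit 13713408)))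
  false (nat_lit 0)
def b1_11 : Bx := Bx.mk (St.mk (I.pos (nat_lit 93749248) (nat_lit 116621312)) (I.mix (nat_lit 2572288) (nat_lit 9650176)) (I.mix (nat_lit 8306688) (nat_lit 3080192)) (I.pos (nat_lit 77709312) (nat_lit 118472704)) (I.mix (nat_lit 11272192) (nat_lit 15679488)) (I.mix (nat_lit 8749056) (nat_lit 6717440)) (I.mix (nat_lit 7241728) (nat_lit 4456448)))
  false (nat_lit 0)
def b1_12 : Bx := Bx.mk (St.mk (I.mix (nat_lit 51625984) (nat_lit 97091584)) (I.mix (nat_lit 14073856) (nat_lit 4374528)) (I.mix (nat_lit 7307264) (nat_lit 3637248)) (I.pos (nat_lit 39403520) (nat_lit 94666752)) (I.mix (nat_lit 6979584) (nat_lit 11337728)) (I.mix (nat_lit 5341184) (nat_lit 6012928)) (I.mix (nat_lit 2998272) (nat_lit 3555328)))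
  false (nat_lit 0)
def b1_13 : Bx := Bx.mk (St.mk (I.neg (nat_lit 4423680) (nat_lit 38273024)) (I.mix (nat_lit 1769472) (nat_lit 8634368)) (I.neg (nat_lit 770048) (nat_lit 6144000)) (I.pos (nat_lit 42254336) (nat_lit 72056832)) (I.mix (nat_lit 6553600) (nat_lit 11534336)) (I.mix (nat_lit 5210112) (nat_lit 4407296)) (I.mix (nat_lit 1572864) (nat_lit 1589248)))
  false (nat_lit 0)
def b1_14 : Bx := Bx.mk (St.mk (I.pos (nat_lit 177586176) (nat_lit 229392384)) (I.pos (nat_lit 10649600) (nat_lit 51757056)) (I.pos (nat_lit 16891904) (nat_lit 85032960)) (I.pos (nat_lit 201359360) (nat_lit 267583488)) (I.mix (nat_lit 117604352) (nat_lit 95141888)) (I.mix (nat_lit 97517568) (nat_lit 77103104)) (I.mix (nat_lit 155533312) (nat_lit 103825408)))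
  false (nat_lit 28233078)
def b1_15 : Bx := Bx.mk (St.mk (I.pos (nat_lit 161611776) (nat_lit 200212480)) (I.mix (nat_lit 17055744) (nat_lit 17694720)) (I.mix (nat_lit 1605632) (nat_lit 40910848)) (I.pos (nat_lit 150896640) (nat_lit 211615744)) (I.mix (nat_lit 86343680) (nat_lit 51707904)) (I.mix (nat_lit 87310336) (nat_lit 52297728)) (I.mix (nat_lit 90636288) (nat_lit 55246848)))
  false (nat_lit 0)
def t1 : BTr := (BTr.n (BTr.n (BTr.n (BTr.n (BTr.b b1_0) (BTr.b b1_1)) (BTr.n (BTr.b b1_2) (BTr.b b1_3))) (BTr.n (BTr.n (BTr.b b1_4) (BTr.b b1_5)) (BTr.n (BTr.b b1_6) (BTr.b b1_7)))) (BTr.n (BTr.n (BTr.n (BTr.b b1_8) (BTr.b b1_9)) (BTr.n (BTr.b b1_10) (BTr.b b1_11))) (BTr.n (BTr.n (BTr.b b1_12) (BTr.b b1_13)) (BTr.n (BTr.b b1_14) (BTr.b b1_15)))))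
namespace T1
def l0 : Tr := Tr.L (Pth.l (Pth.l (Pth.l (Pth.l Pth.z))))
def l1 : Tr := Tr.L (Pth.l (Pth.l (Pth.l (Pth.r Pth.z))))
def l2 : Tr := Tr.L (Pth.l (Pth.l (Pth.r (Pth.l Pth.z))))
def l3 : Tr := Tr.L (Pth.l (Pth.l (Pth.r (Pth.r Pth.z))))
def l4 : Tr := Tr.L (Pth.l (Pth.r (Pth.l (Pth.l Pth.z))))
def l5 : Tr := Tr.L (Pth.l (Pth.r (Pth.l (Pth.r Pth.z))))
def l6 : Tr := Tr.L (Pth.l (Pth.r (Pth.r (Pth.l Pth.z))))
def l7 : Tr := Tr.L (Pth.l (Pth.r (Pth.r (Pth.r Pth.z))))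
def l8 : Tr := Tr.L (Pth.r (Pth.l (Pth.l (Pth.l Pth.z))))
def l9 : Tr := Tr.L (Pth.r (Pth.l (Pth.l (Pth.r Pth.z))))
def l10 : Tr := Tr.L (Pth.r (Pth.l (Pth.r (Pth.l Pth.z))))
def l11 : Tr := Tr.L (Pth.r (Pth.l (Pth.r (Pth.r Pth.z))))
def l12 : Tr := Tr.L (Pth.r (Pth.r (Pth.l (Pth.l Pth.z))))
def l13 : Tr := Tr.L (Pth.r (Pth.r (Pth.l (Pth.r Pth.z))))
def l14 : Tr := Tr.L (Pth.r (Pth.r (Pth.r (Pth.l Pth.z))))
def l15 : Tr := Tr.L (Pth.r (Pth.r (Pth.r (Pth.r Pth.z))))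
end T1
def b2_0 : Bx := Bx.mk (St.mk (I.pos (nat_lit 132628480) (nat_lit 224673792)) (I.mix (nat_lit 8372224) (nat_lit 65257472)) (I.mix (nat_lit 14090240) (nat_lit 106168320)) (I.pos (nat_lit 228966400) (nat_lit 336871424)) (I.mix (nat_lit 160366592) (nat_lit 104415232)) (I.mix (nat_lit 98369536) (nat_lit 92749824)) (I.mix (nat_lit 132431872) (nat_lit 124977152)))
  false (nat_lit 62026090)
def b2_1 : Bx := Bx.mk (St.mk (I.pos (nat_lit 61603840) (nat_lit 151191552)) (I.neg (nat_lit 8781824) (nat_lit 73924608)) (I.mix (nat_lit 52379648) (nat_lit 12959744)) (I.pos (nat_lit 166461440) (nat_lit 231391232)) (I.mix (nat_lit 118931456) (nat_lit 87244800)) (I.mix (nat_lit 70828032) (nat_lit 71565312)) (I.mix (nat_lit 60538880) (nat_lit 62193664)))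
  false (nat_lit 69010502)
def b2_2 : Bx := Bx.mk (St.mk (I.mix (nat_lit 37847040) (nat_lit 11976704)) (I.mix (nat_lit 45039616) (nat_lit 8650752)) (I.pos (nat_lit 4734976) (nat_lit 13975552)) (I.pos (nat_lit 141164544) (nat_lit 154632192)) (I.mix (nat_lit 37732352) (nat_lit 66011136)) (I.mix (nat_lit 38486016) (nat_lit 43646976)) (I.mix (nat_lit 6438912) (nat_lit 11108352)))
  true (nat_lit 0)
def b2_3 : Bx := Bx.mk (St.mk (I.pos (nat_lit 134840320) (nat_lit 187940864)) (I.mix (nat_lit 3620864) (nat_lit 59998208)) (I.pos (nat_lit 26968064) (nat_lit 102449152)) (I.pos (nat_lit 216498176) (nat_lit 285818880)) (I.mix (nat_lit 171458560) (nat_lit 68190208)) (I.mix (nat_lit 145293312) (nat_lit 91111424)) (I.mix (nat_lit 140738560) (nat_lit 97484800)))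
  false (nat_lit 54237802)
def b2_4 : Bx := Bx.mk (St.mk (I.mix (nat_lit 11976704) (nat_lit 37847040)) (I.mix (nat_lit 8650752) (nat_lit 45039616)) (I.pos (nat_lit 4734976) (nat_lit 13975552)) (I.pos (nat_lit 141164544) (nat_lit 154632192)) (I.mix (nat_lit 66011136) (nat_lit 37732352)) (I.mix (nat_lit 43646976) (nat_lit 38486016)) (I.mix (nat_lit 6438912) (nat_lit 11108352)))
  false (nat_lit 0)
def b2_5 : Bx := Bx.mk (St.mk (I.pos (nat_lit 121569280) (nat_lit 187596800)) (I.mix (nat_lit 31850496) (nat_lit 14467072)) (I.mix (nat_lit 10141696) (nat_lit 47202304)) (I.pos (nat_lit 199983104) (nat_lit 273465344)) (I.mix (nat_lit 85590016) (nat_lit 82558976)) (I.mix (nat_lit 72794112) (nat_lit 73924608)) (I.mix (nat_lit 68222976) (nat_lit 74399744)))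
  false (nat_lit 33217302)
def b2_6 : Bx := Bx.mk (St.mk (I.pos (nat_lit 120061952) (nat_lit 151142400)) (I.neg (nat_lit 14843904) (nat_lit 44056576)) (I.mix (nat_lit 24100864) (nat_lit 9568256)) (I.pos (nat_lit 202326016) (nat_lit 231768064)) (I.mix (nat_lit 34717696) (nat_lit 29704192)) (I.mix (nat_lit 17022976) (nat_lit 18169856)) (I.mix (nat_lit 14909440) (nat_lit 16220160)))
  false (nat_lit 0)
def b2_7 : Bx := Bx.mk (St.mk (I.mix (nat_lit 9338880) (nat_lit 8257536)) (I.mix (nat_lit 13811712) (nat_lit 4505600)) (I.pos (nat_lit 6111232) (nat_lit 10764288)) (I.pos (nat_lit 142098432) (nat_lit 145883136)) (I.mix (nat_lit 10289152) (nat_lit 18006016)) (I.mix (nat_lit 5931008) (nat_lit 8077312)) (I.mix (nat_lit 1294336) (nat_lit 1228800)))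
  true (nat_lit 0)
def b2_8 : Bx := Bx.mk (St.mk (I.pos (nat_lit 9273344) (nat_lit 78807040)) (I.mix (nat_lit 14499840) (nat_lit 48644096)) (I.mix (nat_lit 16056320) (nat_lit 17432576)) (I.pos (nat_lit 142802944) (nat_lit 167428096)) (I.mix (nat_lit 56393728) (nat_lit 63553536)) (I.mix (nat_lit 52936704) (nat_lit 44892160)) (I.mix (nat_lit 28524544) (nat_lit 22528000)))
  false (nat_lit 0)
def b2_9 : Bx := Bx.mk (St.mk (I.pos (nat_lit 43958272) (nat_lit 106627072)) (I.mix (nat_lit 69025792) (nat_lit 17252352)) (I.mix (nat_lit 47546368) (nat_lit 3293184)) (I.pos (nat_lit 148242432) (nat_lit 193396736)) (I.mix (nat_lit 111362048) (nat_lit 51216384)) (I.mix (nat_lit 54591488) (nat_lit 86638592)) (I.mix (nat_lit 41287680) (nat_lit 48775168)))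
  false (nat_lit 0)
def b2_10 : Bx := Bx.mk (St.mk (I.neg (nat_lit 9093120) (nat_lit 80216064)) (I.mix (nat_lit 49004544) (nat_lit 17268736)) (I.mix (nat_lit 17137664) (nat_lit 17563648)) (I.pos (nat_lit 142802944) (nat_lit 167428096)) (I.mix (nat_lit 63553536) (nat_lit 56393728)) (I.mix (nat_lit 44892160) (nat_lit 52936704)) (I.mix (nat_lit 28524544) (nat_lit 22528000)))
  true (nat_lit 0)
def b2_11 : Bx := Bx.mk (St.mk (I.pos (nat_lit 187367424) (nat_lit 298172416)) (I.mix (nat_lit 34144256) (nat_lit 50364416)) (I.mix (nat_lit 87146496) (nat_lit 81690624)) (I.pos (nat_lit 284606464) (nat_lit 483082240)) (I.mix (nat_lit 110903296) (nat_lit 84279296)) (I.mix (nat_lit 84951040) (nat_lit 59146240)) (I.mix (nat_lit 156385280) (nat_lit 96288768)))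
  false (nat_lit 69992601)
def b2_12 : Bx := Bx.mk (St.mk (I.pos (nat_lit 157040640) (nat_lit 218644480)) (I.pos (nat_lit 22102016) (nat_lit 65945600)) (I.pos (nat_lit 39780352) (nat_lit 106364928)) (I.pos (nat_lit 265420800) (nat_lit 327876608)) (I.mix (nat_lit 145522688) (nat_lit 118439936)) (I.mix (nat_lit 110198784) (nat_lit 90947584)) (I.mix (nat_lit 161234944) (nat_lit 115802112)))
  false (nat_lit 41846581)
def b2_13 : Bx := Bx.mk (St.mk (I.pos (nat_lit 144392192) (nat_lit 185122816)) (I.mix (nat_lit 14204928) (nat_lit 28950528)) (I.pos (nat_lit 12730368) (nat_lit 68501504)) (I.pos (nat_lit 226672640) (nat_lit 274153472)) (I.mix (nat_lit 122978304) (nat_lit 72105984)) (I.mix (nat_lit 122142720) (nat_lit 65601536)) (I.mix (nat_lit 116523008) (nat_lit 64389120)))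
  false (nat_lit 27424467)
def t2 : BTr := (BTr.n (BTr.n (BTr.n (BTr.b b2_0) (BTr.n (BTr.b b2_1) (BTr.b b2_2))) (BTr.n (BTr.n (BTr.b b2_3) (BTr.b b2_4)) (BTr.n (BTr.b b2_5) (BTr.b b2_6)))) (BTr.n (BTr.n (BTr.b b2_7) (BTr.n (BTr.b b2_8) (BTr.b b2_9))) (BTr.n (BTr.n (BTr.b b2_10) (BTr.b b2_11)) (BTr.n (BTr.b b2_12) (BTr.b b2_13)))))
namespace T2
def l0 : Tr := Tr.L (Pth.l (Pth.l (Pth.l Pth.z)))
def l1 : Tr := Tr.L (Pth.l (Pth.l (Pth.r (Pth.l Pth.z))))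
def l2 : Tr := Tr.L (Pth.l (Pth.l (Pth.r (Pth.r Pth.z))))
def l3 : Tr := Tr.L (Pth.l (Pth.r (Pth.l (Pth.l Pth.z))))
def l4 : Tr := Tr.L (Pth.l (Pth.r (Pth.l (Pth.r Pth.z))))
def l5 : Tr := Tr.L (Pth.l (Pth.r (Pth.r (Pth.l Pth.z))))
def l6 : Tr := Tr.L (Pth.l (Pth.r (Pth.r (Pth.r Pth.z))))
def l7 : Tr := Tr.L (Pth.r (Pth.l (Pth.l Pth.z)))
def l8 : Tr := Tr.L (Pth.r (Pth.l (Pth.r (Pth.l Pth.z))))
def l9 : Tr := Tr.L (Pth.r (Pth.l (Pth.r (Pth.r Pth.z))))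
def l10 : Tr := Tr.L (Pth.r (Pth.r (Pth.l (Pth.l Pth.z))))
def l11 : Tr := Tr.L (Pth.r (Pth.r (Pth.l (Pth.r Pth.z))))
def l12 : Tr := Tr.L (Pth.r (Pth.r (Pth.r (Pth.l Pth.z))))
def l13 : Tr := Tr.L (Pth.r (Pth.r (Pth.r (Pth.r Pth.z))))
end T2
theorem bx0_0 : BoxOK sI cl5 cl5 cl7 t0 t2 b0_0 :=
  box_mk (TrL.c (I.pos (nat_lit 0) (nat_lit 0)) (xa (xb (xb T0.l0 T0.l0) (xa (xb T0.l0 T0.l0) (xb T0.l0 T0.l0))) (xb (xa T0.l0 T0.l0) (xa (xb T0.l0 T0.l0) (xb T0.l0 T0.l0))))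
  (TrL.c (I.pos (nat_lit 0) (nat_lit 0)) (xa T2.l1 T2.l1)
  (TrL.c (I.pos (nat_lit 0) (nat_lit 0)) T0.l1
  (TrL.c (I.pos (nat_lit 0) (nat_lit 0)) T2.l2
  (TrL.c (I.pos (nat_lit 0) (nat_lit 0)) (xb (xa T2.l3 (xb T2.l3 T2.l3)) (xa T2.l3 (xb T2.l3 T2.l3)))
  (TrL.c (I.pos (nat_lit 0) (nat_lit 0)) T0.l2
  (TrL.c (I.pos (nat_lit 0) (nat_lit 0)) T2.l4
  (TrL.c (I.pos (nat_lit 0) (nat_lit 0)) T0.l3
  TrL.n)))))))) (by decide +kernel)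
theorem bx0_1 : BoxOK sI cl5 cl5 cl7 t0 t2 b0_1 :=
  box_mk (TrL.c (I.pos (nat_lit 0) (nat_lit 0)) (xb T0.l4 (xa T0.l4 (xb T0.l4 T0.l4)))
  (TrL.c (I.pos (nat_lit 0) (nat_lit 0)) T2.l1
  (TrL.c (I.pos (nat_lit 0) (nat_lit 0)) T0.l1
  (TrL.c (I.pos (nat_lit 0) (nat_lit 0)) T2.l2
  (TrL.c (I.pos (nat_lit 0) (nat_lit 0)) T2.l5
  (TrL.c (I.pos (nat_lit 0) (nat_lit 0)) T0.l2
  (TrL.c (I.pos (nat_lit 0) (nat_lit 0)) T2.l4
  (TrL.c (I.pos (nat_lit 0) (nat_lit 0)) T0.l3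
  TrL.n)))))))) (by decide +kernel)
theorem bx0_2 : BoxOK sI cl5 cl5 cl7 t0 t2 b0_2 :=
  box_mk (TrL.c (I.pos (nat_lit 0) (nat_lit 0)) (xb (xa (xb T0.l4 T0.l4) T0.l4) (xa (xb T0.l4 T0.l4) T0.l4))
  (TrL.c (I.pos (nat_lit 0) (nat_lit 0)) T2.l1
  (TrL.c (I.pos (nat_lit 0) (nat_lit 0)) T0.l1
  (TrL.c (I.pos (nat_lit 0) (nat_lit 0)) T2.l2
  (TrL.c (I.pos (nat_lit 0) (nat_lit 0)) T2.l5
  (TrL.c (I.pos (nat_lit 0) (nat_lit 0)) T0.l2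
  (TrL.c (I.pos (nat_lit 0) (nat_lit 0)) T2.l4
  (TrL.c (I.pos (nat_lit 0) (nat_lit 0)) T0.l3
  TrL.n)))))))) (by decide +kernel)
theorem bx0_3 : BoxOK sI cl5 cl5 cl7 t0 t2 b0_3 :=
  box_mk (TrL.c (I.pos (nat_lit 0) (nat_lit 0)) T2.l1
  (TrL.c (I.pos (nat_lit 0) (nat_lit 0)) T0.l1
  (TrL.c (I.pos (nat_lit 0) (nat_lit 0)) T2.l2
  TrL.n))) (by decide +kernel)
theorem bx0_4 : BoxOK sI cl5 cl5 cl7 t0 t2 b0_4 :=
  box_mk (TrL.c (I.pos (nat_lit 0) (nat_lit 0)) (xa (xb T0.l0 T0.l0) (xb (xa T0.l0 T0.l0) (xa T0.l0 T0.l0)))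
  (TrL.c (I.pos (nat_lit 0) (nat_lit 0)) (xa T2.l1 T2.l1)
  (TrL.c (I.pos (nat_lit 0) (nat_lit 0)) T0.l1
  (TrL.c (I.pos (nat_lit 0) (nat_lit 0)) T2.l10
  (TrL.c (I.pos (nat_lit 0) (nat_lit 0)) (xa T2.l3 (xb (xa T2.l3 (xb T2.l3 T2.l3)) (xa T2.l3 (xb T2.l3 T2.l3))))
  (TrL.c (I.pos (nat_lit 0) (nat_lit 0)) T0.l6
  (TrL.c (I.pos (nat_lit 0) (nat_lit 0)) T2.l8
  (TrL.c (I.pos (nat_lit 0) (nat_lit 0)) T0.l3
  TrL.n)))))))) (by decide +kernel)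
theorem bx0_5 : BoxOK sI cl5 cl5 cl7 t0 t2 b0_5 :=
  box_mk (TrL.c (I.pos (nat_lit 0) (nat_lit 0)) T0.l4
  (TrL.c (I.pos (nat_lit 0) (nat_lit 0)) T2.l1
  (TrL.c (I.pos (nat_lit 0) (nat_lit 0)) T0.l1
  (TrL.c (I.pos (nat_lit 0) (nat_lit 0)) T2.l2
  (TrL.c (I.pos (nat_lit 0) (nat_lit 0)) T2.l5
  (TrL.c (I.pos (nat_lit 0) (nat_lit 0)) T0.l2
  (TrL.c (I.pos (nat_lit 0) (nat_lit 0)) T2.l4
  (TrL.c (I.pos (nat_lit 0) (nat_lit 0)) T0.l3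
  TrL.n)))))))) (by decide +kernel)
theorem bx0_6 : BoxOK sI cl5 cl5 cl7 t0 t2 b0_6 :=
  box_mk (TrL.c (I.pos (nat_lit 0) (nat_lit 0)) (xa (xb (xa T0.l4 T0.l4) (xa T0.l4 T0.l4)) (xb (xa T0.l4 T0.l4) (xa T0.l4 T0.l4)))
  (TrL.c (I.pos (nat_lit 0) (nat_lit 0)) T2.l1
  (TrL.c (I.pos (nat_lit 0) (nat_lit 0)) T0.l1
  (TrL.c (I.pos (nat_lit 0) (nat_lit 0)) T2.l2
  (TrL.c (I.pos (nat_lit 0) (nat_lit 0)) (xa T2.l5 (xb T2.l5 T2.l5))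
  (TrL.c (I.pos (nat_lit 0) (nat_lit 0)) T0.l2
  (TrL.c (I.pos (nat_lit 0) (nat_lit 0)) T2.l4
  (TrL.c (I.pos (nat_lit 0) (nat_lit 0)) T0.l3
  TrL.n)))))))) (by decide +kernel)
theorem bx0_7 : BoxOK sI cl5 cl5 cl7 t0 t2 b0_7 :=
  box_mk (TrL.c (I.pos (nat_lit 0) (nat_lit 0)) T2.l1
  (TrL.c (I.pos (nat_lit 0) (nat_lit 0)) T0.l1
  (TrL.c (I.pos (nat_lit 0) (nat_lit 0)) T2.l2
  TrL.n))) (by decide +kernel)
theorem bx0_8 : BoxOK sI cl5 cl5 cl7 t0 t2 b0_8 :=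
  box_mk (TrL.c (I.pos (nat_lit 0) (nat_lit 0)) (xb (xa T0.l12 T0.l12) (xa (xb T0.l12 T0.l12) (xb T0.l12 T0.l12)))
  (TrL.c (I.pos (nat_lit 0) (nat_lit 0)) T2.l1
  (TrL.c (I.pos (nat_lit 0) (nat_lit 0)) T0.l1
  (TrL.c (I.pos (nat_lit 0) (nat_lit 0)) T2.l2
  (TrL.c (I.pos (nat_lit 0) (nat_lit 0)) (xb T2.l3 (xb T2.l3 T2.l3))
  (TrL.c (I.pos (nat_lit 0) (nat_lit 0)) T0.l2
  (TrL.c (I.pos (nat_lit 0) (nat_lit 0)) T2.l4
  (TrL.c (I.pos (nat_lit 0) (nat_lit 0)) T0.l3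
  TrL.n)))))))) (by decide +kernel)
theorem bx0_9 : BoxOK sI cl5 cl5 cl7 t0 t2 b0_9 :=
  box_mk (TrL.c (I.pos (nat_lit 0) (nat_lit 0)) (xb (xa (xb (xa T0.l4 T0.l4) T0.l4) T0.l4) T0.l4)
  (TrL.c (I.pos (nat_lit 0) (nat_lit 0)) T2.l1
  (TrL.c (I.pos (nat_lit 0) (nat_lit 0)) T0.l1
  (TrL.c (I.pos (nat_lit 0) (nat_lit 0)) T2.l2
  (TrL.c (I.pos (nat_lit 0) (nat_lit 0)) T2.l5
  (TrL.c (I.pos (nat_lit 0) (nat_lit 0)) T0.l2
  (TrL.c (I.pos (nat_lit 0) (nat_lit 0)) T2.l4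
  (TrL.c (I.pos (nat_lit 0) (nat_lit 0)) T0.l3
  TrL.n)))))))) (by decide +kernel)
theorem bx0_10 : BoxOK sI cl5 cl5 cl7 t0 t2 b0_10 :=
  box_mk (TrL.c (I.pos (nat_lit 0) (nat_lit 0)) (xa (xb T0.l4 (xa T0.l12 T0.l12)) T0.l0)
  (TrL.c (I.pos (nat_lit 0) (nat_lit 0)) T2.l1
  (TrL.c (I.pos (nat_lit 0) (nat_lit 0)) T0.l1
  (TrL.c (I.pos (nat_lit 0) (nat_lit 0)) T2.l2
  (TrL.c (I.pos (nat_lit 0) (nat_lit 0)) (xa T2.l13 T2.l0)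
  (TrL.c (I.pos (nat_lit 0) (nat_lit 0)) T0.l2
  (TrL.c (I.pos (nat_lit 0) (nat_lit 0)) T2.l4
  (TrL.c (I.pos (nat_lit 0) (nat_lit 0)) T0.l3
  TrL.n)))))))) (by decide +kernel)
theorem bx0_11 : BoxOK sI cl5 cl5 cl7 t0 t2 b0_11 :=
  box_mk (TrL.c (I.pos (nat_lit 0) (nat_lit 0)) (xb T0.l12 (xa T0.l12 T0.l12))
  (TrL.c (I.pos (nat_lit 0) (nat_lit 0)) T2.l1
  (TrL.c (I.pos (nat_lit 0) (nat_lit 0)) T0.l1
  (TrL.c (I.pos (nat_lit 0) (nat_lit 0)) T2.l2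
  (TrL.c (I.pos (nat_lit 0) (nat_lit 0)) (xb T2.l13 T2.l3)
  (TrL.c (I.pos (nat_lit 0) (nat_lit 0)) T0.l2
  (TrL.c (I.pos (nat_lit 0) (nat_lit 0)) T2.l4
  (TrL.c (I.pos (nat_lit 0) (nat_lit 0)) T0.l3
  TrL.n)))))))) (by decide +kernel)
theorem bx0_12 : BoxOK sI cl5 cl5 cl7 t0 t2 b0_12 :=
  box_mk (TrL.c (I.pos (nat_lit 0) (nat_lit 0)) (xa (xb T0.l0 (xa T0.l0 T0.l0)) (xb T0.l0 (xa T0.l0 T0.l0)))
  (TrL.c (I.pos (nat_lit 0) (nat_lit 0)) T2.l1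
  (TrL.c (I.pos (nat_lit 0) (nat_lit 0)) T0.l1
  (TrL.c (I.pos (nat_lit 0) (nat_lit 0)) T2.l2
  (TrL.c (I.pos (nat_lit 0) (nat_lit 0)) (xa T2.l3 T2.l3)
  (TrL.c (I.pos (nat_lit 0) (nat_lit 0)) T0.l2
  (TrL.c (I.pos (nat_lit 0) (nat_lit 0)) T2.l4
  (TrL.c (I.pos (nat_lit 0) (nat_lit 0)) T0.l3
  TrL.n)))))))) (by decide +kernel)
theorem sv0 : StarV sI cl5 cl5 cl7 t0 t2 t0 :=
  (bt_n (bt_n (bt_n (bt_b bx0_0) (bt_n (bt_b bx0_1) (bt_b bx0_2))) (bt_n (bt_b bx0_3) (bt_n (bt_b bx0_4) (bt_b bx0_5)))) (bt_n (bt_n (bt_b bx0_6) (bt_n (bt_b bx0_7) (bt_b bx0_8))) (bt_n (bt_n (bt_b bx0_9) (bt_b bx0_10)) (bt_n (bt_b bx0_11) (bt_b bx0_12)))))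
def S0 : StarD := StarD.mk cl5 cl5 cl7 0 2 t0
theorem bx1_0 : BoxOK sI cl5 cl7 cl5 t2 t0 b1_0 :=
  box_mk (TrL.c (I.pos (nat_lit 0) (nat_lit 0)) (xa (xb (xa (xb T2.l0 T2.l0) (xb T2.l0 T2.l0)) (xa (xb T2.l0 (xa T2.l0 T2.l0)) (xb T2.l0 (xa T2.l0 T2.l0)))) (xb (xa (xb T2.l12 T2.l12) (xb T2.l0 T2.l0)) (xa (xb T2.l0 (xa T2.l0 T2.l0)) (xb T2.l0 (xa T2.l0 T2.l0)))))
  (TrL.c (I.pos (nat_lit 0) (nat_lit 0)) (xa T0.l6 T0.l6)
  (TrL.c (I.pos (nat_lit 0) (nat_lit 0)) T2.l8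
  (TrL.c (I.pos (nat_lit 0) (nat_lit 0)) T0.l7
  (TrL.c (I.pos (nat_lit 0) (nat_lit 0)) (xa (xb T0.l8 T0.l8) (xb (xa T0.l8 T0.l8) (xa T0.l8 T0.l8)))
  (TrL.c (I.pos (nat_lit 0) (nat_lit 0)) T2.l9
  (TrL.c (I.pos (nat_lit 0) (nat_lit 0)) T0.l9
  (TrL.c (I.pos (nat_lit 0) (nat_lit 0)) T2.l10
  TrL.n)))))))) (by decide +kernel)
theorem bx1_1 : BoxOK sI cl5 cl7 cl5 t2 t0 b1_1 :=
  box_mk (TrL.c (I.pos (nat_lit 0) (nat_lit 0)) (xa (xb (xa T2.l11 T2.l0) (xa T2.l11 T2.l11)) (xb T2.l0 T2.l0))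
  (TrL.c (I.pos (nat_lit 0) (nat_lit 0)) T0.l6
  (TrL.c (I.pos (nat_lit 0) (nat_lit 0)) T2.l8
  (TrL.c (I.pos (nat_lit 0) (nat_lit 0)) T0.l7
  (TrL.c (I.pos (nat_lit 0) (nat_lit 0)) (xa T0.l10 (xb T0.l10 T0.l10))
  (TrL.c (I.pos (nat_lit 0) (nat_lit 0)) T2.l9
  (TrL.c (I.pos (nat_lit 0) (nat_lit 0)) T0.l9
  (TrL.c (I.pos (nat_lit 0) (nat_lit 0)) T2.l10
  TrL.n)))))))) (by decide +kernel)
theorem bx1_2 : BoxOK sI cl5 cl7 cl5 t2 t0 b1_2 :=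
  box_mk (TrL.c (I.pos (nat_lit 0) (nat_lit 0)) (xa (xa (xb T2.l11 (xa (xb T2.l11 T2.l11) T2.l11)) (xb T2.l11 T2.l11)) (xa T2.l11 (xa T2.l11 T2.l11)))
  (TrL.c (I.pos (nat_lit 0) (nat_lit 0)) (xa T0.l6 T0.l6)
  (TrL.c (I.pos (nat_lit 0) (nat_lit 0)) T2.l8
  (TrL.c (I.pos (nat_lit 0) (nat_lit 0)) T0.l7
  (TrL.c (I.pos (nat_lit 0) (nat_lit 0)) (xa T0.l10 T0.l10)
  (TrL.c (I.pos (nat_lit 0) (nat_lit 0)) T2.l9
  (TrL.c (I.pos (nat_lit 0) (nat_lit 0)) T0.l9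
  (TrL.c (I.pos (nat_lit 0) (nat_lit 0)) T2.l10
  TrL.n)))))))) (by decide +kernel)
theorem bx1_3 : BoxOK sI cl5 cl7 cl5 t2 t0 b1_3 :=
  box_mk (TrL.c (I.pos (nat_lit 0) (nat_lit 0)) (xa (xa (xb T2.l11 T2.l11) T2.l11) T2.l11)
  (TrL.c (I.pos (nat_lit 0) (nat_lit 0)) (xa T0.l6 T0.l6)
  (TrL.c (I.pos (nat_lit 0) (nat_lit 0)) T2.l8
  (TrL.c (I.pos (nat_lit 0) (nat_lit 0)) T0.l7
  (TrL.c (I.pos (nat_lit 0) (nat_lit 0)) (xa T0.l6 T0.l10)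
  (TrL.c (I.pos (nat_lit 0) (nat_lit 0)) T2.l9
  (TrL.c (I.pos (nat_lit 0) (nat_lit 0)) T0.l9
  (TrL.c (I.pos (nat_lit 0) (nat_lit 0)) T2.l10
  TrL.n)))))))) (by decide +kernel)
theorem bx1_4 : BoxOK sI cl5 cl7 cl5 t2 t0 b1_4 :=
  box_mk (TrL.c (I.pos (nat_lit 0) (nat_lit 0)) (xb (xa (xb (xb (xa T2.l12 T2.l12) (xa T2.l12 T2.l12)) T2.l12) (xb (xa (xb T2.l12 T2.l12) (xb (xs T2.l12 (xa (xb T2.l12 T2.l12) (xb (xs T2.l12 T2.l12) T2.l12))) (xs T2.l12 (xa T2.l12 T2.l12)))) (xa T2.l12 T2.l12))) (xa (xb (xa T2.l12 T2.l12) (xa T2.l12 T2.l12)) (xb (xa T2.l12 T2.l12) (xa T2.l12 T2.l12))))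
  (TrL.c (I.pos (nat_lit 0) (nat_lit 0)) T0.l6
  (TrL.c (I.pos (nat_lit 0) (nat_lit 0)) T2.l8
  (TrL.c (I.pos (nat_lit 0) (nat_lit 0)) T0.l7
  (TrL.c (I.pos (nat_lit 0) (nat_lit 0)) (xb (xa T0.l11 T0.l11) (xa (xb T0.l11 T0.l8) T0.l11))
  (TrL.c (I.pos (nat_lit 0) (nat_lit 0)) T2.l9
  (TrL.c (I.pos (nat_lit 0) (nat_lit 0)) T0.l9
  (TrL.c (I.pos (nat_lit 0) (nat_lit 0)) T2.l10
  TrL.n)))))))) (by decide +kernel)
theorem bx1_5 : BoxOK sI cl5 cl7 cl5 t2 t0 b1_5 :=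
  box_mk (TrL.c (I.pos (nat_lit 0) (nat_lit 0)) (xb (xa T2.l11 T2.l0) (xa (xb T2.l11 T2.l11) (xb T2.l11 T2.l11)))
  (TrL.c (I.pos (nat_lit 0) (nat_lit 0)) T0.l6
  (TrL.c (I.pos (nat_lit 0) (nat_lit 0)) T2.l8
  (TrL.c (I.pos (nat_lit 0) (nat_lit 0)) T0.l7
  (TrL.c (I.pos (nat_lit 0) (nat_lit 0)) (xb T0.l10 T0.l10)
  (TrL.c (I.pos (nat_lit 0) (nat_lit 0)) T2.l9
  (TrL.c (I.pos (nat_lit 0) (nat_lit 0)) T0.l9
  (TrL.c (I.pos (nat_lit 0) (nat_lit 0)) T2.l10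
  TrL.n)))))))) (by decide +kernel)
theorem bx1_6 : BoxOK sI cl5 cl7 cl5 t2 t0 b1_6 :=
  box_mk (TrL.c (I.pos (nat_lit 0) (nat_lit 0)) (xa (xa (xb (xa (xb T2.l11 T2.l11) T2.l11) (xa (xb T2.l11 (xa T2.l11 T2.l11)) (xb T2.l11 T2.l11))) (xb T2.l11 (xa T2.l11 T2.l11))) (xa T2.l11 (xb T2.l11 (xa T2.l11 (xb T2.l11 T2.l11)))))
  (TrL.c (I.pos (nat_lit 0) (nat_lit 0)) (xa (xa T0.l10 T0.l6) T0.l6)
  (TrL.c (I.pos (nat_lit 0) (nat_lit 0)) T2.l8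
  (TrL.c (I.pos (nat_lit 0) (nat_lit 0)) T0.l7
  (TrL.c (I.pos (nat_lit 0) (nat_lit 0)) (xa T0.l10 T0.l10)
  (TrL.c (I.pos (nat_lit 0) (nat_lit 0)) T2.l9
  (TrL.c (I.pos (nat_lit 0) (nat_lit 0)) T0.l9
  (TrL.c (I.pos (nat_lit 0) (nat_lit 0)) T2.l10
  TrL.n)))))))) (by decide +kernel)
theorem bx1_7 : BoxOK sI cl5 cl7 cl5 t2 t0 b1_7 :=
  box_mk (TrL.c (I.pos (nat_lit 0) (nat_lit 0)) (xa (xa (xb (xa (xb T2.l11 T2.l11) T2.l11) T2.l11) T2.l11) T2.l11)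
  (TrL.c (I.pos (nat_lit 0) (nat_lit 0)) (xa T0.l10 T0.l6)
  (TrL.c (I.pos (nat_lit 0) (nat_lit 0)) T2.l8
  (TrL.c (I.pos (nat_lit 0) (nat_lit 0)) T0.l7
  (TrL.c (I.pos (nat_lit 0) (nat_lit 0)) (xa T0.l6 T0.l10)
  (TrL.c (I.pos (nat_lit 0) (nat_lit 0)) T2.l9
  (TrL.c (I.pos (nat_lit 0) (nat_lit 0)) T0.l9
  (TrL.c (I.pos (nat_lit 0) (nat_lit 0)) T2.l10
  TrL.n)))))))) (by decide +kernel)
theorem bx1_8 : BoxOK sI cl5 cl7 cl5 t2 t0 b1_8 :=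
  box_mk (TrL.c (I.pos (nat_lit 0) (nat_lit 0)) (xa (xb T2.l0 T2.l0) (xa T2.l0 (xb T2.l0 (xb T2.l0 T2.l0))))
  (TrL.c (I.pos (nat_lit 0) (nat_lit 0)) (xa T0.l6 T0.l6)
  (TrL.c (I.pos (nat_lit 0) (nat_lit 0)) T2.l8
  (TrL.c (I.pos (nat_lit 0) (nat_lit 0)) T0.l3
  (TrL.c (I.pos (nat_lit 0) (nat_lit 0)) (xa T0.l8 (xb (xa T0.l8 T0.l8) (xa T0.l8 T0.l8)))
  (TrL.c (I.pos (nat_lit 0) (nat_lit 0)) T2.l9
  (TrL.c (I.pos (nat_lit 0) (nat_lit 0)) T0.l1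
  (TrL.c (I.pos (nat_lit 0) (nat_lit 0)) T2.l10
  TrL.n)))))))) (by decide +kernel)
theorem bx1_9 : BoxOK sI cl5 cl7 cl5 t2 t0 b1_9 :=
  box_mk (TrL.c (I.pos (nat_lit 0) (nat_lit 0)) (xa T2.l0 T2.l0)
  (TrL.c (I.pos (nat_lit 0) (nat_lit 0)) T0.l6
  (TrL.c (I.pos (nat_lit 0) (nat_lit 0)) T2.l8
  (TrL.c (I.pos (nat_lit 0) (nat_lit 0)) T0.l7
  (TrL.c (I.pos (nat_lit 0) (nat_lit 0)) (xa T0.l11 T0.l0)
  (TrL.c (I.pos (nat_lit 0) (nat_lit 0)) T2.l9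
  (TrL.c (I.pos (nat_lit 0) (nat_lit 0)) T0.l9
  (TrL.c (I.pos (nat_lit 0) (nat_lit 0)) T2.l10
  TrL.n)))))))) (by decide +kernel)
theorem bx1_10 : BoxOK sI cl5 cl7 cl5 t2 t0 b1_10 :=
  box_mk (TrL.c (I.pos (nat_lit 0) (nat_lit 0)) T2.l0
  (TrL.c (I.pos (nat_lit 0) (nat_lit 0)) T0.l6
  (TrL.c (I.pos (nat_lit 0) (nat_lit 0)) T2.l8
  (TrL.c (I.pos (nat_lit 0) (nat_lit 0)) T0.l7
  (TrL.c (I.pos (nat_lit 0) (nat_lit 0)) T0.l10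
  (TrL.c (I.pos (nat_lit 0) (nat_lit 0)) T2.l9
  (TrL.c (I.pos (nat_lit 0) (nat_lit 0)) T0.l9
  (TrL.c (I.pos (nat_lit 0) (nat_lit 0)) T2.l10
  TrL.n)))))))) (by decide +kernel)
theorem bx1_11 : BoxOK sI cl5 cl7 cl5 t2 t0 b1_11 :=
  box_mk (TrL.c (I.pos (nat_lit 0) (nat_lit 0)) T2.l11
  (TrL.c (I.pos (nat_lit 0) (nat_lit 0)) T0.l6
  (TrL.c (I.pos (nat_lit 0) (nat_lit 0)) T2.l8
  (TrL.c (I.pos (nat_lit 0) (nat_lit 0)) T0.l7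
  (TrL.c (I.pos (nat_lit 0) (nat_lit 0)) T0.l10
  (TrL.c (I.pos (nat_lit 0) (nat_lit 0)) T2.l9
  (TrL.c (I.pos (nat_lit 0) (nat_lit 0)) T0.l9
  (TrL.c (I.pos (nat_lit 0) (nat_lit 0)) T2.l10
  TrL.n)))))))) (by decide +kernel)
theorem bx1_12 : BoxOK sI cl5 cl7 cl5 t2 t0 b1_12 :=
  box_mk (TrL.c (I.pos (nat_lit 0) (nat_lit 0)) (xa T2.l11 T2.l11)
  (TrL.c (I.pos (nat_lit 0) (nat_lit 0)) (xa T0.l6 T0.l6)
  (TrL.c (I.pos (nat_lit 0) (nat_lit 0)) T2.l8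
  (TrL.c (I.pos (nat_lit 0) (nat_lit 0)) T0.l7
  (TrL.c (I.pos (nat_lit 0) (nat_lit 0)) (xa T0.l10 T0.l10)
  (TrL.c (I.pos (nat_lit 0) (nat_lit 0)) T2.l9
  (TrL.c (I.pos (nat_lit 0) (nat_lit 0)) T0.l9
  (TrL.c (I.pos (nat_lit 0) (nat_lit 0)) T2.l10
  TrL.n)))))))) (by decide +kernel)
theorem bx1_13 : BoxOK sI cl5 cl7 cl5 t2 t0 b1_13 :=
  box_mk (TrL.c (I.pos (nat_lit 0) (nat_lit 0)) T2.l11
  (TrL.c (I.pos (nat_lit 0) (nat_lit 0)) T0.l6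
  (TrL.c (I.pos (nat_lit 0) (nat_lit 0)) T2.l8
  (TrL.c (I.pos (nat_lit 0) (nat_lit 0)) T0.l7
  (TrL.c (I.pos (nat_lit 0) (nat_lit 0)) T0.l10
  (TrL.c (I.pos (nat_lit 0) (nat_lit 0)) T2.l9
  (TrL.c (I.pos (nat_lit 0) (nat_lit 0)) T0.l9
  (TrL.c (I.pos (nat_lit 0) (nat_lit 0)) T2.l10
  TrL.n)))))))) (by decide +kernel)
theorem bx1_14 : BoxOK sI cl5 cl7 cl5 t2 t0 b1_14 :=
  box_mk (TrL.c (I.pos (nat_lit 0) (nat_lit 0)) (xa (xb T2.l0 (xa T2.l0 T2.l0)) (xb T2.l0 (xa T2.l0 T2.l0)))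
  (TrL.c (I.pos (nat_lit 0) (nat_lit 0)) T0.l6
  (TrL.c (I.pos (nat_lit 0) (nat_lit 0)) T2.l8
  (TrL.c (I.pos (nat_lit 0) (nat_lit 0)) T0.l7
  (TrL.c (I.pos (nat_lit 0) (nat_lit 0)) (xa T0.l8 T0.l8)
  (TrL.c (I.pos (nat_lit 0) (nat_lit 0)) T2.l9
  (TrL.c (I.pos (nat_lit 0) (nat_lit 0)) T0.l9
  (TrL.c (I.pos (nat_lit 0) (nat_lit 0)) T2.l10
  TrL.n)))))))) (by decide +kernel)
theorem bx1_15 : BoxOK sI cl5 cl7 cl5 t2 t0 b1_15 :=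
  box_mk (TrL.c (I.pos (nat_lit 0) (nat_lit 0)) T2.l0
  (TrL.c (I.pos (nat_lit 0) (nat_lit 0)) T0.l6
  (TrL.c (I.pos (nat_lit 0) (nat_lit 0)) T2.l8
  (TrL.c (I.pos (nat_lit 0) (nat_lit 0)) T0.l7
  (TrL.c (I.pos (nat_lit 0) (nat_lit 0)) T0.l11
  (TrL.c (I.pos (nat_lit 0) (nat_lit 0)) T2.l9
  (TrL.c (I.pos (nat_lit 0) (nat_lit 0)) T0.l9
  (TrL.c (I.pos (nat_lit 0) (nat_lit 0)) T2.l10
  TrL.n)))))))) (by decide +kernel)
theorem sv1 : StarV sI cl5 cl7 cl5 t2 t0 t1 :=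
  (bt_n (bt_n (bt_n (bt_n (bt_b bx1_0) (bt_b bx1_1)) (bt_n (bt_b bx1_2) (bt_b bx1_3))) (bt_n (bt_n (bt_b bx1_4) (bt_b bx1_5)) (bt_n (bt_b bx1_6) (bt_b bx1_7)))) (bt_n (bt_n (bt_n (bt_b bx1_8) (bt_b bx1_9)) (bt_n (bt_b bx1_10) (bt_b bx1_11))) (bt_n (bt_n (bt_b bx1_12) (bt_b bx1_13)) (bt_n (bt_b bx1_14) (bt_b bx1_15)))))
def S1 : StarD := StarD.mk cl5 cl7 cl5 2 0 t1
theorem bx2_0 : BoxOK sI cl7 cl5 cl5 t1 t1 b2_0 :=
  box_mk (TrL.c (I.pos (nat_lit 0) (nat_lit 0)) (xa (xb (xa (xb T1.l0 T1.l0) (xb T1.l0 T1.l0)) (xa (xb (xa T1.l0 T1.l0) (xa T1.l0 T1.l0)) (xb T1.l0 (xa T1.l0 T1.l0)))) (xb (xa (xb T1.l0 T1.l0) (xb T1.l0 T1.l0)) (xa (xb T1.l0 (xa T1.l0 T1.l0)) (xb T1.l0 (xa T1.l0 T1.l0)))))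
  (TrL.c (I.pos (nat_lit 0) (nat_lit 0)) (xa T1.l1 T1.l1)
  (TrL.c (I.pos (nat_lit 0) (nat_lit 111196574)) (xR T1.l2 (xR T1.l2 (xR T1.l2 T1.l2)))
  (TrL.c (I.pos (nat_lit 0) (nat_lit 77433728)) (xR T1.l3 (xR T1.l3 T1.l3))
  (TrL.c (I.pos (nat_lit 0) (nat_lit 0)) (xa (xb (xk T1.l4 T1.l4) (xk T1.l4 T1.l4)) (xb (xk T1.l4 T1.l4) (xk (xa (xb T1.l4 T1.l4) (xb T1.l4 (xs T1.l4 (xb T1.l4 T1.l4)))) (xb T1.l4 (xa T1.l4 (xs T1.l4 (xb T1.l4 (xk T1.l4 T1.l4))))))))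
  (TrL.c (I.pos (nat_lit 0) (nat_lit 0)) T1.l5
  (TrL.c (I.mix (nat_lit 29511666) (nat_lit 77433728)) (xR T1.l6 (xR T1.l6 T1.l6))
  (TrL.c (I.mix (nat_lit 29511666) (nat_lit 46070178)) (xR T1.l7 T1.l3)
  TrL.n)))))))) (by decide +kernel)
theorem bx2_1 : BoxOK sI cl7 cl5 cl5 t1 t1 b2_1 :=
  box_mk (TrL.c (I.pos (nat_lit 0) (nat_lit 0)) (xa (xb T1.l8 (xa T1.l8 T1.l8)) (xb T1.l0 T1.l8))
  (TrL.c (I.pos (nat_lit 0) (nat_lit 0)) T1.l1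
  (TrL.c (I.pos (nat_lit 0) (nat_lit 111196574)) T1.l2
  (TrL.c (I.pos (nat_lit 0) (nat_lit 77433728)) (xR T1.l3 T1.l3)
  (TrL.c (I.pos (nat_lit 0) (nat_lit 0)) (xa (xb T1.l9 T1.l9) (xb T1.l9 T1.l9))
  (TrL.c (I.pos (nat_lit 0) (nat_lit 0)) T1.l5
  (TrL.c (I.mix (nat_lit 29511666) (nat_lit 77433728)) (xR T1.l6 (xR T1.l6 T1.l6))
  (TrL.c (I.mix (nat_lit 29511666) (nat_lit 46070178)) T1.l3
  TrL.n)))))))) (by decide +kernel)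
theorem bx2_2 : BoxOK sI cl7 cl5 cl5 t1 t1 b2_2 :=
  box_mk (TrL.c (I.pos (nat_lit 0) (nat_lit 0)) T1.l1
  (TrL.c (I.pos (nat_lit 0) (nat_lit 0)) T1.l2
  (TrL.c (I.mix (nat_lit 29511666) (nat_lit 77433728)) (xR T1.l3 T1.l3)
  (TrL.c (I.mix (nat_lit 29511666) (nat_lit 46070178)) T1.l2
  TrL.n)))) (by decide +kernel)
theorem bx2_3 : BoxOK sI cl7 cl5 cl5 t1 t1 b2_3 :=
  box_mk (TrL.c (I.pos (nat_lit 0) (nat_lit 0)) (xb (xa (xb T1.l14 T1.l14) (xb T1.l14 T1.l14)) (xa (xb T1.l14 (xa T1.l14 T1.l14)) (xb T1.l14 (xa T1.l14 T1.l14))))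
  (TrL.c (I.pos (nat_lit 0) (nat_lit 0)) T1.l1
  (TrL.c (I.pos (nat_lit 0) (nat_lit 111196574)) (xR T1.l2 (xR T1.l2 T1.l2))
  (TrL.c (I.pos (nat_lit 0) (nat_lit 77433728)) (xR T1.l3 (xR T1.l3 T1.l3))
  (TrL.c (I.pos (nat_lit 0) (nat_lit 0)) (xb (xk T1.l4 T1.l4) (xk T1.l4 (xb T1.l4 (xa T1.l4 T1.l4))))
  (TrL.c (I.pos (nat_lit 0) (nat_lit 0)) T1.l5
  (TrL.c (I.mix (nat_lit 29511666) (nat_lit 77433728)) (xR T1.l6 (xR T1.l6 T1.l6))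
  (TrL.c (I.mix (nat_lit 29511666) (nat_lit 46070178)) (xR T1.l7 T1.l7)
  TrL.n)))))))) (by decide +kernel)
theorem bx2_4 : BoxOK sI cl7 cl5 cl5 t1 t1 b2_4 :=
  box_mk (TrL.c (I.pos (nat_lit 0) (nat_lit 0)) (xb T1.l8 (xa T1.l8 T1.l8))
  (TrL.c (I.pos (nat_lit 0) (nat_lit 0)) T1.l1
  (TrL.c (I.pos (nat_lit 0) (nat_lit 111196574)) T1.l2
  (TrL.c (I.pos (nat_lit 0) (nat_lit 77433728)) T1.l3
  (TrL.c (I.pos (nat_lit 0) (nat_lit 0)) T1.l9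
  (TrL.c (I.pos (nat_lit 0) (nat_lit 0)) T1.l5
  (TrL.c (I.mix (nat_lit 29511666) (nat_lit 77433728)) T1.l6
  (TrL.c (I.mix (nat_lit 29511666) (nat_lit 46070178)) T1.l7
  TrL.n)))))))) (by decide +kernel)
theorem bx2_5 : BoxOK sI cl7 cl5 cl5 t1 t1 b2_5 :=
  box_mk (TrL.c (I.pos (nat_lit 0) (nat_lit 0)) (xa (xb T1.l0 T1.l0) T1.l0)
  (TrL.c (I.pos (nat_lit 0) (nat_lit 0)) T1.l1
  (TrL.c (I.pos (nat_lit 0) (nat_lit 111196574)) T1.l2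
  (TrL.c (I.pos (nat_lit 0) (nat_lit 77433728)) T1.l3
  (TrL.c (I.pos (nat_lit 0) (nat_lit 0)) (xk (xa T1.l15 T1.l4) (xa T1.l15 T1.l4))
  (TrL.c (I.pos (nat_lit 0) (nat_lit 0)) T1.l5
  (TrL.c (I.mix (nat_lit 29511666) (nat_lit 77433728)) T1.l2
  (TrL.c (I.mix (nat_lit 29511666) (nat_lit 46070178)) T1.l3
  TrL.n)))))))) (by decide +kernel)
theorem bx2_6 : BoxOK sI cl7 cl5 cl5 t1 t1 b2_6 :=
  box_mk (TrL.c (I.pos (nat_lit 0) (nat_lit 0)) T1.l8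
  (TrL.c (I.pos (nat_lit 0) (nat_lit 0)) T1.l1
  (TrL.c (I.pos (nat_lit 0) (nat_lit 111196574)) T1.l2
  (TrL.c (I.pos (nat_lit 0) (nat_lit 77433728)) T1.l3
  (TrL.c (I.pos (nat_lit 0) (nat_lit 0)) T1.l9
  (TrL.c (I.pos (nat_lit 0) (nat_lit 0)) T1.l5
  (TrL.c (I.mix (nat_lit 29511666) (nat_lit 77433728)) T1.l6
  (TrL.c (I.mix (nat_lit 29511666) (nat_lit 46070178)) T1.l7
  TrL.n)))))))) (by decide +kernel)
theorem bx2_7 : BoxOK sI cl7 cl5 cl5 t1 t1 b2_7 :=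
  box_mk (TrL.c (I.pos (nat_lit 0) (nat_lit 0)) T1.l1
  (TrL.c (I.pos (nat_lit 0) (nat_lit 0)) T1.l11
  (TrL.c (I.mix (nat_lit 29511666) (nat_lit 77433728)) T1.l12
  (TrL.c (I.mix (nat_lit 29511666) (nat_lit 46070178)) T1.l2
  TrL.n)))) (by decide +kernel)
theorem bx2_8 : BoxOK sI cl7 cl5 cl5 t1 t1 b2_8 :=
  box_mk (TrL.c (I.pos (nat_lit 0) (nat_lit 0)) (xa (xb T1.l8 (xb T1.l8 (xa T1.l8 T1.l8))) (xb T1.l8 (xa T1.l8 T1.l8)))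
  (TrL.c (I.pos (nat_lit 0) (nat_lit 0)) T1.l1
  (TrL.c (I.pos (nat_lit 0) (nat_lit 111196574)) T1.l2
  (TrL.c (I.pos (nat_lit 0) (nat_lit 77433728)) T1.l3
  (TrL.c (I.pos (nat_lit 0) (nat_lit 0)) T1.l9
  (TrL.c (I.pos (nat_lit 0) (nat_lit 0)) T1.l5
  (TrL.c (I.mix (nat_lit 29511666) (nat_lit 77433728)) T1.l6
  (TrL.c (I.mix (nat_lit 29511666) (nat_lit 46070178)) T1.l7
  TrL.n)))))))) (by decide +kernel)
theorem bx2_9 : BoxOK sI cl7 cl5 cl5 t1 t1 b2_9 :=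
  box_mk (TrL.c (I.pos (nat_lit 0) (nat_lit 0)) (xb (xa (xb T1.l8 T1.l8) T1.l8) (xa (xb T1.l8 T1.l8) (xb T1.l8 T1.l8)))
  (TrL.c (I.pos (nat_lit 0) (nat_lit 0)) T1.l1
  (TrL.c (I.pos (nat_lit 0) (nat_lit 111196574)) T1.l2
  (TrL.c (I.pos (nat_lit 0) (nat_lit 77433728)) (xR T1.l3 T1.l3)
  (TrL.c (I.pos (nat_lit 0) (nat_lit 0)) (xb (xa T1.l9 T1.l9) T1.l9)
  (TrL.c (I.pos (nat_lit 0) (nat_lit 0)) T1.l5
  (TrL.c (I.mix (nat_lit 29511666) (nat_lit 77433728)) T1.l6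
  (TrL.c (I.mix (nat_lit 29511666) (nat_lit 46070178)) T1.l3
  TrL.n)))))))) (by decide +kernel)
theorem bx2_10 : BoxOK sI cl7 cl5 cl5 t1 t1 b2_10 :=
  box_mk (TrL.c (I.pos (nat_lit 0) (nat_lit 0)) T1.l1
  (TrL.c (I.pos (nat_lit 0) (nat_lit 0)) T1.l2
  (TrL.c (I.mix (nat_lit 29511666) (nat_lit 77433728)) (xR T1.l6 T1.l3)
  (TrL.c (I.mix (nat_lit 29511666) (nat_lit 46070178)) T1.l2
  TrL.n)))) (by decide +kernel)
theorem bx2_11 : BoxOK sI cl7 cl5 cl5 t1 t1 b2_11 :=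
  box_mk (TrL.c (I.pos (nat_lit 0) (nat_lit 0)) (xa (xb (xa T1.l0 T1.l0) (xa (xb T1.l0 T1.l0) (xb T1.l0 T1.l0))) (xb (xa T1.l0 (xb T1.l0 T1.l0)) (xa (xb T1.l0 (xa T1.l0 T1.l0)) (xb (xa T1.l0 T1.l0) (xa T1.l0 T1.l0)))))
  (TrL.c (I.pos (nat_lit 0) (nat_lit 0)) (xa T1.l1 (xb T1.l1 T1.l1))
  (TrL.c (I.pos (nat_lit 0) (nat_lit 111196574)) (xR T1.l2 (xR T1.l2 (xR T1.l2 T1.l6)))
  (TrL.c (I.pos (nat_lit 0) (nat_lit 77433728)) (xR T1.l3 (xR T1.l3 T1.l3))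
  (TrL.c (I.pos (nat_lit 0) (nat_lit 0)) (xa (xb (xk (xa T1.l4 T1.l4) (xa T1.l4 T1.l4)) (xk (xa T1.l4 T1.l4) T1.l4)) (xb (xk (xa (xb (xk T1.l4 T1.l4) T1.l4) (xb (xk T1.l4 T1.l4) (xk T1.l4 T1.l4))) (xa (xb T1.l4 T1.l4) (xb (xk T1.l4 T1.l4) (xk T1.l4 T1.l4)))) (xk (xa (xb T1.l4 T1.l4) (xb (xk T1.l4 T1.l4) (xk T1.l4 T1.l4))) (xa (xb T1.l4 T1.l4) (xb (xk T1.l4 T1.l4) (xk T1.l4 T1.l4))))))
  (TrL.c (I.pos (nat_lit 0) (nat_lit 0)) (xb (xa T1.l5 T1.l5) (xa T1.l5 T1.l5))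
  (TrL.c (I.mix (nat_lit 29511666) (nat_lit 77433728)) (xR T1.l6 (xR T1.l6 (xR T1.l6 T1.l6)))
  (TrL.c (I.mix (nat_lit 29511666) (nat_lit 46070178)) (xR T1.l3 (xR T1.l3 T1.l3))
  TrL.n)))))))) (by decide +kernel)
theorem bx2_12 : BoxOK sI cl7 cl5 cl5 t1 t1 b2_12 :=
  box_mk (TrL.c (I.pos (nat_lit 0) (nat_lit 0)) (xa (xb (xb (xa T1.l0 T1.l0) (xa T1.l0 T1.l0)) (xa T1.l0 (xb T1.l0 T1.l0))) (xb (xb (xa T1.l0 T1.l0) (xa T1.l0 T1.l0)) (xa (xb T1.l0 T1.l0) (xb T1.l0 T1.l0))))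
  (TrL.c (I.pos (nat_lit 0) (nat_lit 0)) T1.l1
  (TrL.c (I.pos (nat_lit 0) (nat_lit 111196574)) (xR T1.l2 (xR T1.l2 T1.l2))
  (TrL.c (I.pos (nat_lit 0) (nat_lit 77433728)) (xR T1.l3 (xR T1.l3 T1.l3))
  (TrL.c (I.pos (nat_lit 0) (nat_lit 0)) (xa (xk (xb T1.l4 T1.l4) (xb T1.l4 (xb T1.l4 T1.l4))) (xk (xb T1.l4 (xb T1.l4 (xs T1.l4 (xk T1.l4 T1.l4)))) (xb T1.l4 (xb (xs T1.l4 T1.l4) (xs (xa T1.l4 T1.l4) (xa T1.l4 (xk T1.l4 T1.l4)))))))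
  (TrL.c (I.pos (nat_lit 0) (nat_lit 0)) T1.l5
  (TrL.c (I.mix (nat_lit 29511666) (nat_lit 77433728)) (xR T1.l6 T1.l6)
  (TrL.c (I.mix (nat_lit 29511666) (nat_lit 46070178)) T1.l3
  TrL.n)))))))) (by decide +kernel)
theorem bx2_13 : BoxOK sI cl7 cl5 cl5 t1 t1 b2_13 :=
  box_mk (TrL.c (I.pos (nat_lit 0) (nat_lit 0)) (xb T1.l14 T1.l14)
  (TrL.c (I.pos (nat_lit 0) (nat_lit 0)) T1.l1
  (TrL.c (I.pos (nat_lit 0) (nat_lit 111196574)) T1.l2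
  (TrL.c (I.pos (nat_lit 0) (nat_lit 77433728)) T1.l3
  (TrL.c (I.pos (nat_lit 0) (nat_lit 0)) (xk T1.l4 T1.l4)
  (TrL.c (I.pos (nat_lit 0) (nat_lit 0)) T1.l5
  (TrL.c (I.mix (nat_lit 29511666) (nat_lit 77433728)) (xR T1.l6 T1.l6)
  (TrL.c (I.mix (nat_lit 29511666) (nat_lit 46070178)) T1.l3
  TrL.n)))))))) (by decide +kernel)
theorem sv2 : StarV sI cl7 cl5 cl5 t1 t1 t2 :=
  (bt_n (bt_n (bt_n (bt_b bx2_0) (bt_n (bt_b bx2_1) (bt_b bx2_2))) (bt_n (bt_n (bt_b bx2_3) (bt_b bx2_4)) (bt_n (bt_b bx2_5) (bt_b bx2_6)))) (bt_n (bt_n (bt_b bx2_7) (bt_n (bt_b bx2_8) (bt_b bx2_9))) (bt_n (bt_n (bt_b bx2_10) (bt_b bx2_11)) (bt_n (bt_b bx2_12) (bt_b bx2_13)))))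
def S2 : StarD := StarD.mk cl7 cl5 cl5 1 1 t2
def G : List StarD := [S0, S1, S2]
theorem so0 : StarOK sI G S0 :=
  star_mk (by decide) (by decide) rfl rfl rfl rfl rfl rfl (rfl : _ = t0) (rfl : _ = t2)
  (st_mk (Pth.l (Pth.l (Pth.l Pth.z))) (nat_lit 247547884) (nat_lit 249144879) (by decide +kernel))
  (st_mk (Pth.l (Pth.l (Pth.l Pth.z))) (nat_lit 285486936) (nat_lit 287638604) (by decide +kernel))
  (st_mk (Pth.l (Pth.l (Pth.l Pth.z))) (nat_lit 329860165) (nat_lit 332779429) (by decide +kernel)) sv0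
theorem so1 : StarOK sI G S1 :=
  star_mk (by decide) (by decide) rfl rfl rfl rfl rfl rfl (rfl : _ = t2) (rfl : _ = t0)
  (st_mk (Pth.l (Pth.l (Pth.l (Pth.l Pth.z)))) (nat_lit 144357329) (nat_lit 167595390) (by decide +kernel))
  (st_mk (Pth.l (Pth.l (Pth.l (Pth.l Pth.z)))) (nat_lit 181755276) (nat_lit 205577410) (by decide +kernel))
  (st_mk (Pth.l (Pth.l (Pth.l (Pth.l Pth.z)))) (nat_lit 225679144) (nat_lit 250291703) (by decide +kernel)) sv1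
theorem so2 : StarOK sI G S2 :=
  star_mk (by decide) (by decide) rfl rfl rfl rfl rfl rfl (rfl : _ = t1) (rfl : _ = t1)
  (st_mk (Pth.l (Pth.l (Pth.l Pth.z))) (nat_lit 241908039) (nat_lit 244388552) (by decide +kernel))
  (st_mk (Pth.l (Pth.l (Pth.l Pth.z))) (nat_lit 277500708) (nat_lit 281695637) (by decide +kernel))
  (st_mk (Pth.l (Pth.l (Pth.l Pth.z))) (nat_lit 319410652) (nat_lit 324470770) (by decide +kernel)) sv2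
theorem ok : GroupOK (nat_lit 209321984) (nat_lit 268435456) G := grp_mk (allS_c so0 (allS_c so1 (allS_c so2 allS_n)))
theorem cov : GCov G cl5 cl5 cl7 := cov_mk
  ⟨0, by decide, rfl, rfl, rfl⟩ ⟨1, by decide, rfl, rfl, rfl⟩ ⟨0, by decide, rfl, rfl, rfl⟩ ⟨1, by decide, rfl, rfl, rfl⟩ ⟨2, by decide, rfl, rfl, rfl⟩ ⟨2, by decide, rfl, rfl, rfl⟩
end Q224_3

namespace Q225_0
def sI : I := I.pos (nat_lit 0) (nat_lit 91291648)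
def b0_0 : Bx := Bx.mk (St.mk (I.pos (nat_lit 154189824) (nat_lit 272777216)) (I.mix (nat_lit 7913472) (nat_lit 74170368)) (I.mix (nat_lit 97042432) (nat_lit 81625088)) (I.pos (nat_lit 231751680) (nat_lit 428408832)) (I.mix (nat_lit 89931776) (nat_lit 60850176)) (I.mix (nat_lit 78348288) (nat_lit 51970048)) (I.mix (nat_lit 123060224) (nat_lit 97976320)))
  false (nat_lit 0)
def b0_1 : Bx := Bx.mk (St.mk (I.pos (nat_lit 25673728) (nat_lit 64389120)) (I.mix (nat_lit 3112960) (nat_lit 49528832)) (I.neg (nat_lit 4997120) (nat_lit 31653888)) (I.pos (nat_lit 142934016) (nat_lit 159727616)) (I.mix (nat_lit 24002560) (nat_lit 38518784)) (I.mix (nat_lit 37617664) (nat_lit 23691264)) (I.mix (nat_lit 21151744) (nat_lit 13041664)))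
  false (nat_lit 0)
def b0_2 : Bx := Bx.mk (St.mk (I.pos (nat_lit 56098816) (nat_lit 101318656)) (I.mix (nat_lit 66125824) (nat_lit 6553600)) (I.neg (nat_lit 24068096) (nat_lit 70352896)) (I.pos (nat_lit 152436736) (nat_lit 184238080)) (I.mix (nat_lit 76529664) (nat_lit 24395776)) (I.mix (nat_lit 32784384) (nat_lit 65863680)) (I.mix (nat_lit 26083328) (nat_lit 44515328)))
  false (nat_lit 0)
def b0_3 : Bx := Bx.mk (St.mk (I.neg (nat_lit 25460736) (nat_lit 68354048)) (I.mix (nat_lit 49659904) (nat_lit 5275648)) (I.neg (nat_lit 4866048) (nat_lit 34013184)) (I.pos (nat_lit 142835712) (nat_lit 161579008)) (I.mix (nat_lit 38518784) (nat_lit 24002560)) (I.mix (nat_lit 23691264) (nat_lit 37617664)) (I.mix (nat_lit 21151744) (nat_lit 13025280)))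
  true (nat_lit 0)
def b0_4 : Bx := Bx.mk (St.mk (I.pos (nat_lit 53444608) (nat_lit 66912256)) (I.mix (nat_lit 3637248) (nat_lit 14090240)) (I.neg (nat_lit 20463616) (nat_lit 33243136)) (I.pos (nat_lit 152207360) (nat_lit 161103872)) (I.mix (nat_lit 9469952) (nat_lit 15450112)) (I.mix (nat_lit 12763136) (nat_lit 8028160)) (I.mix (nat_lit 7061504) (nat_lit 5455872)))
  false (nat_lit 0)
def b0_5 : Bx := Bx.mk (St.mk (I.pos (nat_lit 69664768) (nat_lit 149585920)) (I.neg (nat_lit 4128768) (nat_lit 76283904)) (I.neg (nat_lit 14270464) (nat_lit 81444864)) (I.pos (nat_lit 162562048) (nat_lit 228376576)) (I.mix (nat_lit 82264064) (nat_lit 46841856)) (I.mix (nat_lit 37257216) (nat_lit 74317824)) (I.mix (nat_lit 33292288) (nat_lit 65536000)))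
  false (nat_lit 0)
def b0_6 : Bx := Bx.mk (St.mk (I.mix (nat_lit 40697856) (nat_lit 6668288)) (I.mix (nat_lit 44564480) (nat_lit 9633792)) (I.neg (nat_lit 8175616) (nat_lit 15220736)) (I.pos (nat_lit 141557760) (nat_lit 151814144)) (I.mix (nat_lit 26083328) (nat_lit 31768576)) (I.mix (nat_lit 21282816) (nat_lit 39469056)) (I.mix (nat_lit 6651904) (nat_lit 5275648)))
  true (nat_lit 0)
def b0_7 : Bx := Bx.mk (St.mk (I.mix (nat_lit 6668288) (nat_lit 40697856)) (I.mix (nat_lit 9633792) (nat_lit 44564480)) (I.neg (nat_lit 8175616) (nat_lit 15220736)) (I.pos (nat_lit 141557760) (nat_lit 151814144)) (I.mix (nat_lit 31768576) (nat_lit 26083328)) (I.mix (nat_lit 39469056) (nat_lit 21282816)) (I.mix (nat_lit 6651904) (nat_lit 5275648)))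
  false (nat_lit 0)
def b0_8 : Bx := Bx.mk (St.mk (I.pos (nat_lit 125517824) (nat_lit 207175680)) (I.mix (nat_lit 41385984) (nat_lit 74268672)) (I.mix (nat_lit 53231616) (nat_lit 79298560)) (I.pos (nat_lit 202801152) (nat_lit 307560448)) (I.mix (nat_lit 107331584) (nat_lit 49692672)) (I.mix (nat_lit 124583936) (nat_lit 61030400)) (I.mix (nat_lit 123895808) (nat_lit 66486272)))
  false (nat_lit 0)
def t0 : BTr := (BTr.n (BTr.n (BTr.n (BTr.b b0_0) (BTr.b b0_1)) (BTr.n (BTr.b b0_2) (BTr.b b0_3))) (BTr.n (BTr.n (BTr.b b0_4) (BTr.b b0_5)) (BTr.n (BTr.b b0_6) (BTr.n (BTr.b b0_7) (BTr.b b0_8)))))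
namespace T0
def l0 : Tr := Tr.L (Pth.l (Pth.l (Pth.l Pth.z)))
def l1 : Tr := Tr.L (Pth.l (Pth.l (Pth.r Pth.z)))
def l2 : Tr := Tr.L (Pth.l (Pth.r (Pth.l Pth.z)))
def l3 : Tr := Tr.L (Pth.l (Pth.r (Pth.r Pth.z)))
def l4 : Tr := Tr.L (Pth.r (Pth.l (Pth.l Pth.z)))
def l5 : Tr := Tr.L (Pth.r (Pth.l (Pth.r Pth.z)))
def l6 : Tr := Tr.L (Pth.r (Pth.r (Pth.l Pth.z)))
def l7 : Tr := Tr.L (Pth.r (Pth.r (Pth.r (Pth.l Pth.z))))
def l8 : Tr := Tr.L (Pth.r (Pth.r (Pth.r (Pth.r Pth.z))))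
end T0
def b1_0 : Bx := Bx.mk (St.mk (I.pos (nat_lit 154304512) (nat_lit 270778368)) (I.mix (nat_lit 9043968) (nat_lit 52674560)) (I.mix (nat_lit 20447232) (nat_lit 92930048)) (I.pos (nat_lit 105381888) (nat_lit 317407232)) (I.mix (nat_lit 82100224) (nat_lit 53903360)) (I.mix (nat_lit 76070912) (nat_lit 51347456)) (I.mix (nat_lit 121651200) (nat_lit 68304896)))
  false (nat_lit 0)
def b1_1 : Bx := Bx.mk (St.mk (I.pos (nat_lit 112263168) (nat_lit 177094656)) (I.mix (nat_lit 63586304) (nat_lit 1294336)) (I.neg (nat_lit 2228224) (nat_lit 61554688)) (I.pos (nat_lit 84033536) (nat_lit 155074560)) (I.mix (nat_lit 75481088) (nat_lit 36208640)) (I.mix (nat_lit 37699584) (nat_lit 62767104)) (I.mix (nat_lit 29622272) (nat_lit 57868288)))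
  false (nat_lit 0)
def b1_2 : Bx := Bx.mk (St.mk (I.mix (nat_lit 16285696) (nat_lit 133218304)) (I.mix (nat_lit 3293184) (nat_lit 28377088)) (I.mix (nat_lit 5259264) (nat_lit 23232512)) (I.pos (nat_lit 13467648) (nat_lit 100089856)) (I.mix (nat_lit 29982720) (nat_lit 22659072)) (I.mix (nat_lit 27475968) (nat_lit 17793024)) (I.mix (nat_lit 22462464) (nat_lit 13172736)))
  false (nat_lit 0)
def b1_3 : Bx := Bx.mk (St.mk (I.mix (nat_lit 17940480) (nat_lit 104366080)) (I.mix (nat_lit 28721152) (nat_lit 2441216)) (I.mix (nat_lit 18300928) (nat_lit 2375680)) (I.pos (nat_lit 14548992) (nat_lit 75792384)) (I.mix (nat_lit 24510464) (nat_lit 18890752)) (I.mix (nat_lit 13828096) (nat_lit 23265280)) (I.mix (nat_lit 8306688) (nat_lit 15024128)))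
  false (nat_lit 0)
def b1_4 : Bx := Bx.mk (St.mk (I.pos (nat_lit 157515776) (nat_lit 218071040)) (I.mix (nat_lit 36225024) (nat_lit 61636608)) (I.mix (nat_lit 32636928) (nat_lit 100483072)) (I.pos (nat_lit 114294784) (nat_lit 213893120)) (I.mix (nat_lit 116867072) (nat_lit 40599552)) (I.mix (nat_lit 136953856) (nat_lit 63750144)) (I.mix (nat_lit 171507712) (nat_lit 71122944)))
  false (nat_lit 0)
def b1_5 : Bx := Bx.mk (St.mk (I.pos (nat_lit 110215168) (nat_lit 155566080)) (I.mix (nat_lit 56410112) (nat_lit 4571136)) (I.mix (nat_lit 55476224) (nat_lit 2342912)) (I.pos (nat_lit 64618496) (nat_lit 125091840)) (I.mix (nat_lit 80347136) (nat_lit 23281664)) (I.mix (nat_lit 38797312) (nat_lit 84393984)) (I.mix (nat_lit 30277632) (nat_lit 70336512)))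
  false (nat_lit 0)
def b1_6 : Bx := Bx.mk (St.mk (I.mix (nat_lit 26394624) (nat_lit 126615552)) (I.mix (nat_lit 10944512) (nat_lit 33603584)) (I.mix (nat_lit 6897664) (nat_lit 26574848)) (I.pos (nat_lit 13811712) (nat_lit 92897280)) (I.mix (nat_lit 42991616) (nat_lit 17055744)) (I.mix (nat_lit 42991616) (nat_lit 23592960)) (I.mix (nat_lit 27656192) (nat_lit 14860288)))
  false (nat_lit 0)
def b1_7 : Bx := Bx.mk (St.mk (I.mix (nat_lit 22151168) (nat_lit 97665024)) (I.mix (nat_lit 26558464) (nat_lit 2473984)) (I.mix (nat_lit 16629760) (nat_lit 2260992)) (I.pos (nat_lit 15204352) (nat_lit 68304896)) (I.mix (nat_lit 28196864) (nat_lit 10747904)) (I.mix (nat_lit 14761984) (nat_lit 26361856)) (I.mix (nat_lit 8110080) (nat_lit 13615104)))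
  false (nat_lit 0)
def b1_8 : Bx := Bx.mk (St.mk (I.pos (nat_lit 156729344) (nat_lit 174227456)) (I.neg (nat_lit 13828096) (nat_lit 35766272)) (I.neg (nat_lit 6946816) (nat_lit 32882688)) (I.pos (nat_lit 115310592) (nat_lit 152092672)) (I.mix (nat_lit 19120128) (nat_lit 10420224)) (I.mix (nat_lit 8355840) (nat_lit 10797056)) (I.mix (nat_lit 8749056) (nat_lit 11534336)))
  false (nat_lit 0)
def b1_9 : Bx := Bx.mk (St.mk (I.pos (nat_lit 110624768) (nat_lit 125534208)) (I.mix (nat_lit 688128) (nat_lit 7274496)) (I.mix (nat_lit 3620864) (nat_lit 4915200)) (I.pos (nat_lit 65306624) (nat_lit 96731136)) (I.mix (nat_lit 4718592) (nat_lit 6979584)) (I.mix (nat_lit 3555328) (nat_lit 3211264)) (I.mix (nat_lit 3194880) (nat_lit 2523136)))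
  false (nat_lit 0)
def b1_10 : Bx := Bx.mk (St.mk (I.mix (nat_lit 27721728) (nat_lit 113311744)) (I.mix (nat_lit 12288000) (nat_lit 1835008)) (I.mix (nat_lit 7766016) (nat_lit 1949696)) (I.pos (nat_lit 15024128) (nat_lit 78888960)) (I.mix (nat_lit 4947968) (nat_lit 6078464)) (I.mix (nat_lit 3194880) (nat_lit 4030464)) (I.mix (nat_lit 2113536) (nat_lit 2785280)))
  false (nat_lit 0)
def b1_11 : Bx := Bx.mk (St.mk (I.mix (nat_lit 21626880) (nat_lit 7536640)) (I.mix (nat_lit 770048) (nat_lit 4816896)) (I.mix (nat_lit 2179072) (nat_lit 360448)) (I.pos (nat_lit 17317888) (nat_lit 39206912)) (I.mix (nat_lit 2080768) (nat_lit 4128768)) (I.mix (nat_lit 2506752) (nat_lit 1933312)) (I.mix (nat_lit 671744) (nat_lit 638976)))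
  false (nat_lit 0)
def t1 : BTr := (BTr.n (BTr.n (BTr.n (BTr.b b1_0) (BTr.n (BTr.b b1_1) (BTr.b b1_2))) (BTr.n (BTr.b b1_3) (BTr.n (BTr.b b1_4) (BTr.b b1_5)))) (BTr.n (BTr.n (BTr.b b1_6) (BTr.n (BTr.b b1_7) (BTr.b b1_8))) (BTr.n (BTr.b b1_9) (BTr.n (BTr.b b1_10) (BTr.b b1_11)))))
namespace T1
def l0 : Tr := Tr.L (Pth.l (Pth.l (Pth.l Pth.z)))
def l1 : Tr := Tr.L (Pth.l (Pth.l (Pth.r (Pth.l Pth.z))))
def l2 : Tr := Tr.L (Pth.l (Pth.l (Pth.r (Pth.r Pth.z))))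
def l3 : Tr := Tr.L (Pth.l (Pth.r (Pth.l Pth.z)))
def l4 : Tr := Tr.L (Pth.l (Pth.r (Pth.r (Pth.l Pth.z))))
def l5 : Tr := Tr.L (Pth.l (Pth.r (Pth.r (Pth.r Pth.z))))
def l6 : Tr := Tr.L (Pth.r (Pth.l (Pth.l Pth.z)))
def l7 : Tr := Tr.L (Pth.r (Pth.l (Pth.r (Pth.l Pth.z))))
def l8 : Tr := Tr.L (Pth.r (Pth.l (Pth.r (Pth.r Pth.z))))
def l9 : Tr := Tr.L (Pth.r (Pth.r (Pth.l Pth.z)))
def l10 : Tr := Tr.L (Pth.r (Pth.r (Pth.r (Pth.l Pth.z))))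
def l11 : Tr := Tr.L (Pth.r (Pth.r (Pth.r (Pth.r Pth.z))))
end T1
def b2_0 : Bx := Bx.mk (St.mk (I.pos (nat_lit 153485312) (nat_lit 285163520)) (I.mix (nat_lit 22970368) (nat_lit 67993600)) (I.mix (nat_lit 55803904) (nat_lit 118472704)) (I.pos (nat_lit 226869248) (nat_lit 443383808)) (I.mix (nat_lit 98205696) (nat_lit 64143360)) (I.mix (nat_lit 99401728) (nat_lit 59097088)) (I.mix (nat_lit 147619840) (nat_lit 74825728)))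
  false (nat_lit 38440268)
def b2_1 : Bx := Bx.mk (St.mk (I.pos (nat_lit 83574784) (nat_lit 142868480)) (I.neg (nat_lit 13942784) (nat_lit 76054528)) (I.mix (nat_lit 50331648) (nat_lit 10600448)) (I.pos (nat_lit 172490752) (nat_lit 218710016)) (I.mix (nat_lit 62160896) (nat_lit 40386560)) (I.mix (nat_lit 35553280) (nat_lit 53805056)) (I.mix (nat_lit 30408704) (nat_lit 45809664)))
  false (nat_lit 0)
def b2_2 : Bx := Bx.mk (St.mk (I.mix (nat_lit 32964608) (nat_lit 1196032)) (I.mix (nat_lit 44072960) (nat_lit 2801664)) (I.pos (nat_lit 8634368) (nat_lit 15761408)) (I.pos (nat_lit 140640256) (nat_lit 148799488)) (I.mix (nat_lit 19660800) (nat_lit 32342016)) (I.mix (nat_lit 19300352) (nat_lit 32292864)) (I.mix (nat_lit 4603904) (nat_lit 5685248)))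
  true (nat_lit 0)
def b2_3 : Bx := Bx.mk (St.mk (I.pos (nat_lit 132136960) (nat_lit 198082560)) (I.mix (nat_lit 32194560) (nat_lit 73777152)) (I.mix (nat_lit 5259264) (nat_lit 123092992)) (I.pos (nat_lit 207175680) (nat_lit 288735232)) (I.mix (nat_lit 127631360) (nat_lit 44744704)) (I.mix (nat_lit 128909312) (nat_lit 56983552)) (I.mix (nat_lit 138936320) (nat_lit 62865408)))
  false (nat_lit 0)
def b2_4 : Bx := Bx.mk (St.mk (I.mix (nat_lit 4947968) (nat_lit 33177600)) (I.mix (nat_lit 4341760) (nat_lit 44171264)) (I.pos (nat_lit 8634368) (nat_lit 15761408)) (I.pos (nat_lit 140640256) (nat_lit 148799488)) (I.mix (nat_lit 32342016) (nat_lit 19660800)) (I.mix (nat_lit 32292864) (nat_lit 19300352)) (I.mix (nat_lit 4603904) (nat_lit 5685248)))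
  false (nat_lit 0)
def b2_5 : Bx := Bx.mk (St.mk (I.pos (nat_lit 126795776) (nat_lit 146685952)) (I.neg (nat_lit 17694720) (nat_lit 42663936)) (I.mix (nat_lit 17154048) (nat_lit 11911168)) (I.pos (nat_lit 204079104) (nat_lit 223051776)) (I.mix (nat_lit 17235968) (nat_lit 18546688)) (I.mix (nat_lit 12566528) (nat_lit 15073280)) (I.mix (nat_lit 11255808) (nat_lit 15499264)))
  false (nat_lit 0)
def b2_6 : Bx := Bx.mk (St.mk (I.mix (nat_lit 8011776) (nat_lit 3506176)) (I.mix (nat_lit 12107776) (nat_lit 2883584)) (I.pos (nat_lit 9404416) (nat_lit 13582336)) (I.pos (nat_lit 140754944) (nat_lit 144048128)) (I.mix (nat_lit 6488064) (nat_lit 12517376)) (I.mix (nat_lit 6111232) (nat_lit 9404416)) (I.mix (nat_lit 1048576) (nat_lit 966656)))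
  true (nat_lit 0)
def b2_7 : Bx := Bx.mk (St.mk (I.pos (nat_lit 16859136) (nat_lit 70860800)) (I.mix (nat_lit 9895936) (nat_lit 49348608)) (I.mix (nat_lit 9781248) (nat_lit 19972096)) (I.pos (nat_lit 139771904) (nat_lit 162185216)) (I.mix (nat_lit 30982144) (nat_lit 33898496)) (I.mix (nat_lit 42942464) (nat_lit 24641536)) (I.mix (nat_lit 21872640) (nat_lit 13860864)))
  false (nat_lit 0)
def b2_8 : Bx := Bx.mk (St.mk (I.pos (nat_lit 53805056) (nat_lit 111656960)) (I.mix (nat_lit 70713344) (nat_lit 11485184)) (I.mix (nat_lit 42467328) (nat_lit 3129344)) (I.pos (nat_lit 151994368) (nat_lit 189317120)) (I.mix (nat_lit 62111744) (nat_lit 28033024)) (I.mix (nat_lit 34832384) (nat_lit 68812800)) (I.mix (nat_lit 25296896) (nat_lit 39534592)))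
  false (nat_lit 0)
def b2_9 : Bx := Bx.mk (St.mk (I.neg (nat_lit 16859136) (nat_lit 70860800)) (I.mix (nat_lit 49348608) (nat_lit 9895936)) (I.mix (nat_lit 9781248) (nat_lit 19972096)) (I.pos (nat_lit 139771904) (nat_lit 162185216)) (I.mix (nat_lit 33898496) (nat_lit 30982144)) (I.mix (nat_lit 24641536) (nat_lit 42942464)) (I.mix (nat_lit 21872640) (nat_lit 13860864)))
  true (nat_lit 0)
def t2 : BTr := (BTr.n (BTr.n (BTr.n (BTr.b b2_0) (BTr.b b2_1)) (BTr.n (BTr.b b2_2) (BTr.n (BTr.b b2_3) (BTr.b b2_4)))) (BTr.n (BTr.n (BTr.b b2_5) (BTr.b b2_6)) (BTr.n (BTr.b b2_7) (BTr.n (BTr.b b2_8) (BTr.b b2_9)))))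
namespace T2
def l0 : Tr := Tr.L (Pth.l (Pth.l (Pth.l Pth.z)))
def l1 : Tr := Tr.L (Pth.l (Pth.l (Pth.r Pth.z)))
def l2 : Tr := Tr.L (Pth.l (Pth.r (Pth.l Pth.z)))
def l3 : Tr := Tr.L (Pth.l (Pth.r (Pth.r (Pth.l Pth.z))))
def l4 : Tr := Tr.L (Pth.l (Pth.r (Pth.r (Pth.r Pth.z))))
def l5 : Tr := Tr.L (Pth.r (Pth.l (Pth.l Pth.z)))
def l6 : Tr := Tr.L (Pth.r (Pth.l (Pth.r Pth.z)))
def l7 : Tr := Tr.L (Pth.r (Pth.r (Pth.l Pth.z)))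
def l8 : Tr := Tr.L (Pth.r (Pth.r (Pth.r (Pth.l Pth.z))))
def l9 : Tr := Tr.L (Pth.r (Pth.r (Pth.r (Pth.r Pth.z))))
end T2
theorem bx0_0 : BoxOK sI cl5 cl5 cl9 t0 t2 b0_0 :=
  box_mk (TrL.c (I.pos (nat_lit 0) (nat_lit 0)) (xa (xa T0.l0 T0.l0) (xa T0.l0 T0.l0))
  (TrL.c (I.pos (nat_lit 0) (nat_lit 0)) T2.l1
  (TrL.c (I.pos (nat_lit 0) (nat_lit 0)) T0.l1
  (TrL.c (I.pos (nat_lit 0) (nat_lit 0)) T2.l2
  (TrL.c (I.pos (nat_lit 0) (nat_lit 0)) (xa T2.l3 (xb (xa T2.l3 T2.l3) (xa T2.l3 T2.l3)))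
  (TrL.c (I.pos (nat_lit 0) (nat_lit 0)) T0.l2
  (TrL.c (I.pos (nat_lit 0) (nat_lit 0)) T2.l4
  (TrL.c (I.pos (nat_lit 0) (nat_lit 0)) T0.l3
  TrL.n)))))))) (by decide +kernel)
theorem bx0_1 : BoxOK sI cl5 cl5 cl9 t0 t2 b0_1 :=
  box_mk (TrL.c (I.pos (nat_lit 0) (nat_lit 0)) T0.l0
  (TrL.c (I.pos (nat_lit 0) (nat_lit 0)) T2.l1
  (TrL.c (I.pos (nat_lit 0) (nat_lit 0)) T0.l1
  (TrL.c (I.pos (nat_lit 0) (nat_lit 0)) T2.l2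
  (TrL.c (I.pos (nat_lit 0) (nat_lit 0)) T2.l3
  (TrL.c (I.pos (nat_lit 0) (nat_lit 0)) T0.l2
  (TrL.c (I.pos (nat_lit 0) (nat_lit 0)) T2.l4
  (TrL.c (I.pos (nat_lit 0) (nat_lit 0)) T0.l3
  TrL.n)))))))) (by decide +kernel)
theorem bx0_2 : BoxOK sI cl5 cl5 cl9 t0 t2 b0_2 :=
  box_mk (TrL.c (I.pos (nat_lit 0) (nat_lit 0)) T0.l0
  (TrL.c (I.pos (nat_lit 0) (nat_lit 0)) T2.l1
  (TrL.c (I.pos (nat_lit 0) (nat_lit 0)) T0.l1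
  (TrL.c (I.pos (nat_lit 0) (nat_lit 0)) T2.l2
  (TrL.c (I.pos (nat_lit 0) (nat_lit 0)) T2.l3
  (TrL.c (I.pos (nat_lit 0) (nat_lit 0)) T0.l2
  (TrL.c (I.pos (nat_lit 0) (nat_lit 0)) T2.l4
  (TrL.c (I.pos (nat_lit 0) (nat_lit 0)) T0.l3
  TrL.n)))))))) (by decide +kernel)
theorem bx0_3 : BoxOK sI cl5 cl5 cl9 t0 t2 b0_3 :=
  box_mk (TrL.c (I.pos (nat_lit 0) (nat_lit 0)) T2.l1
  (TrL.c (I.pos (nat_lit 0) (nat_lit 0)) T0.l1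
  (TrL.c (I.pos (nat_lit 0) (nat_lit 0)) T2.l2
  TrL.n))) (by decide +kernel)
theorem bx0_4 : BoxOK sI cl5 cl5 cl9 t0 t2 b0_4 :=
  box_mk (TrL.c (I.pos (nat_lit 0) (nat_lit 0)) T0.l0
  (TrL.c (I.pos (nat_lit 0) (nat_lit 0)) T2.l1
  (TrL.c (I.pos (nat_lit 0) (nat_lit 0)) T0.l1
  (TrL.c (I.pos (nat_lit 0) (nat_lit 0)) T2.l2
  (TrL.c (I.pos (nat_lit 0) (nat_lit 0)) T2.l3
  (TrL.c (I.pos (nat_lit 0) (nat_lit 0)) T0.l2
  (TrL.c (I.pos (nat_lit 0) (nat_lit 0)) T2.l4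
  (TrL.c (I.pos (nat_lit 0) (nat_lit 0)) T0.l3
  TrL.n)))))))) (by decide +kernel)
theorem bx0_5 : BoxOK sI cl5 cl5 cl9 t0 t2 b0_5 :=
  box_mk (TrL.c (I.pos (nat_lit 0) (nat_lit 0)) (xa (xb T0.l0 T0.l0) T0.l0)
  (TrL.c (I.pos (nat_lit 0) (nat_lit 0)) T2.l1
  (TrL.c (I.pos (nat_lit 0) (nat_lit 0)) T0.l1
  (TrL.c (I.pos (nat_lit 0) (nat_lit 0)) T2.l2
  (TrL.c (I.pos (nat_lit 0) (nat_lit 0)) T2.l3
  (TrL.c (I.pos (nat_lit 0) (nat_lit 0)) T0.l2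
  (TrL.c (I.pos (nat_lit 0) (nat_lit 0)) T2.l4
  (TrL.c (I.pos (nat_lit 0) (nat_lit 0)) T0.l3
  TrL.n)))))))) (by decide +kernel)
theorem bx0_6 : BoxOK sI cl5 cl5 cl9 t0 t2 b0_6 :=
  box_mk (TrL.c (I.pos (nat_lit 0) (nat_lit 0)) T2.l5
  (TrL.c (I.pos (nat_lit 0) (nat_lit 0)) T0.l4
  (TrL.c (I.pos (nat_lit 0) (nat_lit 0)) T2.l6
  TrL.n))) (by decide +kernel)
theorem bx0_7 : BoxOK sI cl5 cl5 cl9 t0 t2 b0_7 :=
  box_mk (TrL.c (I.pos (nat_lit 0) (nat_lit 0)) T0.l0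
  (TrL.c (I.pos (nat_lit 0) (nat_lit 0)) T2.l5
  (TrL.c (I.pos (nat_lit 0) (nat_lit 0)) T0.l4
  (TrL.c (I.pos (nat_lit 0) (nat_lit 0)) T2.l6
  (TrL.c (I.pos (nat_lit 0) (nat_lit 0)) T2.l3
  (TrL.c (I.pos (nat_lit 0) (nat_lit 0)) T0.l2
  (TrL.c (I.pos (nat_lit 0) (nat_lit 0)) T2.l4
  (TrL.c (I.pos (nat_lit 0) (nat_lit 0)) T0.l3
  TrL.n)))))))) (by decide +kernel)
theorem bx0_8 : BoxOK sI cl5 cl5 cl9 t0 t2 b0_8 :=
  box_mk (TrL.c (I.pos (nat_lit 0) (nat_lit 0)) (xb (xa T0.l0 T0.l0) (xa (xb T0.l0 T0.l0) T0.l0))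
  (TrL.c (I.pos (nat_lit 0) (nat_lit 0)) T2.l1
  (TrL.c (I.pos (nat_lit 0) (nat_lit 0)) T0.l1
  (TrL.c (I.pos (nat_lit 0) (nat_lit 0)) T2.l2
  (TrL.c (I.pos (nat_lit 0) (nat_lit 0)) (xb T2.l0 T2.l3)
  (TrL.c (I.pos (nat_lit 0) (nat_lit 0)) T0.l2
  (TrL.c (I.pos (nat_lit 0) (nat_lit 0)) T2.l4
  (TrL.c (I.pos (nat_lit 0) (nat_lit 0)) T0.l3
  TrL.n)))))))) (by decide +kernel)
theorem sv0 : StarV sI cl5 cl5 cl9 t0 t2 t0 :=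
  (bt_n (bt_n (bt_n (bt_b bx0_0) (bt_b bx0_1)) (bt_n (bt_b bx0_2) (bt_b bx0_3))) (bt_n (bt_n (bt_b bx0_4) (bt_b bx0_5)) (bt_n (bt_b bx0_6) (bt_n (bt_b bx0_7) (bt_b bx0_8)))))
def S0 : StarD := StarD.mk cl5 cl5 cl9 0 2 t0
theorem bx1_0 : BoxOK sI cl5 cl9 cl5 t2 t0 b1_0 :=
  box_mk (TrL.c (I.pos (nat_lit 0) (nat_lit 0)) (xa (xa T2.l0 T2.l0) (xa T2.l0 (xb T2.l0 T2.l0)))
  (TrL.c (I.pos (nat_lit 0) (nat_lit 0)) T0.l5
  (TrL.c (I.pos (nat_lit 0) (nat_lit 0)) T2.l7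
  (TrL.c (I.pos (nat_lit 0) (nat_lit 0)) T0.l6
  (TrL.c (I.pos (nat_lit 0) (nat_lit 0)) (xa T0.l8 (xa T0.l8 (xb T0.l8 T0.l8)))
  (TrL.c (I.pos (nat_lit 0) (nat_lit 0)) T2.l8
  (TrL.c (I.pos (nat_lit 0) (nat_lit 0)) T0.l7
  (TrL.c (I.pos (nat_lit 0) (nat_lit 0)) T2.l9
  TrL.n)))))))) (by decide +kernel)
theorem bx1_1 : BoxOK sI cl5 cl9 cl5 t2 t0 b1_1 :=
  box_mk (TrL.c (I.pos (nat_lit 0) (nat_lit 0)) T2.l0
  (TrL.c (I.pos (nat_lit 0) (nat_lit 0)) T0.l5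
  (TrL.c (I.pos (nat_lit 0) (nat_lit 0)) T2.l7
  (TrL.c (I.pos (nat_lit 0) (nat_lit 0)) T0.l6
  (TrL.c (I.pos (nat_lit 0) (nat_lit 0)) T0.l8
  (TrL.c (I.pos (nat_lit 0) (nat_lit 0)) T2.l8
  (TrL.c (I.pos (nat_lit 0) (nat_lit 0)) T0.l7
  (TrL.c (I.pos (nat_lit 0) (nat_lit 0)) T2.l9
  TrL.n)))))))) (by decide +kernel)
theorem bx1_2 : BoxOK sI cl5 cl9 cl5 t2 t0 b1_2 :=
  box_mk (TrL.c (I.pos (nat_lit 0) (nat_lit 0)) (xa T2.l0 T2.l0)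
  (TrL.c (I.pos (nat_lit 0) (nat_lit 0)) T0.l5
  (TrL.c (I.pos (nat_lit 0) (nat_lit 0)) T2.l7
  (TrL.c (I.pos (nat_lit 0) (nat_lit 0)) T0.l6
  (TrL.c (I.pos (nat_lit 0) (nat_lit 0)) T0.l8
  (TrL.c (I.pos (nat_lit 0) (nat_lit 0)) T2.l8
  (TrL.c (I.pos (nat_lit 0) (nat_lit 0)) T0.l7
  (TrL.c (I.pos (nat_lit 0) (nat_lit 0)) T2.l9
  TrL.n)))))))) (by decide +kernel)
theorem bx1_3 : BoxOK sI cl5 cl9 cl5 t2 t0 b1_3 :=
  box_mk (TrL.c (I.pos (nat_lit 0) (nat_lit 0)) (xa T2.l0 T2.l0)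
  (TrL.c (I.pos (nat_lit 0) (nat_lit 0)) T0.l5
  (TrL.c (I.pos (nat_lit 0) (nat_lit 0)) T2.l7
  (TrL.c (I.pos (nat_lit 0) (nat_lit 0)) T0.l6
  (TrL.c (I.pos (nat_lit 0) (nat_lit 0)) T0.l8
  (TrL.c (I.pos (nat_lit 0) (nat_lit 0)) T2.l8
  (TrL.c (I.pos (nat_lit 0) (nat_lit 0)) T0.l7
  (TrL.c (I.pos (nat_lit 0) (nat_lit 0)) T2.l9
  TrL.n)))))))) (by decide +kernel)
theorem bx1_4 : BoxOK sI cl5 cl9 cl5 t2 t0 b1_4 :=
  box_mk (TrL.c (I.pos (nat_lit 0) (nat_lit 0)) (xb (xa T2.l0 T2.l0) (xa (xs T2.l0 (xb T2.l0 T2.l0)) (xs T2.l0 (xb T2.l0 T2.l0))))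
  (TrL.c (I.pos (nat_lit 0) (nat_lit 0)) T0.l5
  (TrL.c (I.pos (nat_lit 0) (nat_lit 0)) T2.l7
  (TrL.c (I.pos (nat_lit 0) (nat_lit 0)) T0.l6
  (TrL.c (I.pos (nat_lit 0) (nat_lit 0)) (xb T0.l8 T0.l8)
  (TrL.c (I.pos (nat_lit 0) (nat_lit 0)) T2.l8
  (TrL.c (I.pos (nat_lit 0) (nat_lit 0)) T0.l7
  (TrL.c (I.pos (nat_lit 0) (nat_lit 0)) T2.l9
  TrL.n)))))))) (by decide +kernel)
theorem bx1_5 : BoxOK sI cl5 cl9 cl5 t2 t0 b1_5 :=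
  box_mk (TrL.c (I.pos (nat_lit 0) (nat_lit 0)) T2.l0
  (TrL.c (I.pos (nat_lit 0) (nat_lit 0)) T0.l5
  (TrL.c (I.pos (nat_lit 0) (nat_lit 0)) T2.l7
  (TrL.c (I.pos (nat_lit 0) (nat_lit 0)) T0.l6
  (TrL.c (I.pos (nat_lit 0) (nat_lit 0)) T0.l8
  (TrL.c (I.pos (nat_lit 0) (nat_lit 0)) T2.l8
  (TrL.c (I.pos (nat_lit 0) (nat_lit 0)) T0.l7
  (TrL.c (I.pos (nat_lit 0) (nat_lit 0)) T2.l9
  TrL.n)))))))) (by decide +kernel)
theorem bx1_6 : BoxOK sI cl5 cl9 cl5 t2 t0 b1_6 :=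
  box_mk (TrL.c (I.pos (nat_lit 0) (nat_lit 0)) (xa T2.l0 T2.l0)
  (TrL.c (I.pos (nat_lit 0) (nat_lit 0)) (xa T0.l5 T0.l5)
  (TrL.c (I.pos (nat_lit 0) (nat_lit 0)) T2.l7
  (TrL.c (I.pos (nat_lit 0) (nat_lit 0)) T0.l6
  (TrL.c (I.pos (nat_lit 0) (nat_lit 0)) (xa T0.l8 T0.l8)
  (TrL.c (I.pos (nat_lit 0) (nat_lit 0)) T2.l8
  (TrL.c (I.pos (nat_lit 0) (nat_lit 0)) T0.l7
  (TrL.c (I.pos (nat_lit 0) (nat_lit 0)) T2.l9
  TrL.n)))))))) (by decide +kernel)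
theorem bx1_7 : BoxOK sI cl5 cl9 cl5 t2 t0 b1_7 :=
  box_mk (TrL.c (I.pos (nat_lit 0) (nat_lit 0)) (xa T2.l0 T2.l0)
  (TrL.c (I.pos (nat_lit 0) (nat_lit 0)) T0.l5
  (TrL.c (I.pos (nat_lit 0) (nat_lit 0)) T2.l7
  (TrL.c (I.pos (nat_lit 0) (nat_lit 0)) T0.l6
  (TrL.c (I.pos (nat_lit 0) (nat_lit 0)) T0.l8
  (TrL.c (I.pos (nat_lit 0) (nat_lit 0)) T2.l8
  (TrL.c (I.pos (nat_lit 0) (nat_lit 0)) T0.l7
  (TrL.c (I.pos (nat_lit 0) (nat_lit 0)) T2.l9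
  TrL.n)))))))) (by decide +kernel)
theorem bx1_8 : BoxOK sI cl5 cl9 cl5 t2 t0 b1_8 :=
  box_mk (TrL.c (I.pos (nat_lit 0) (nat_lit 0)) T2.l0
  (TrL.c (I.pos (nat_lit 0) (nat_lit 0)) T0.l5
  (TrL.c (I.pos (nat_lit 0) (nat_lit 0)) T2.l7
  (TrL.c (I.pos (nat_lit 0) (nat_lit 0)) T0.l6
  (TrL.c (I.pos (nat_lit 0) (nat_lit 0)) T0.l8
  (TrL.c (I.pos (nat_lit 0) (nat_lit 0)) T2.l8
  (TrL.c (I.pos (nat_lit 0) (nat_lit 0)) T0.l7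
  (TrL.c (I.pos (nat_lit 0) (nat_lit 0)) T2.l9
  TrL.n)))))))) (by decide +kernel)
theorem bx1_9 : BoxOK sI cl5 cl9 cl5 t2 t0 b1_9 :=
  box_mk (TrL.c (I.pos (nat_lit 0) (nat_lit 0)) T2.l0
  (TrL.c (I.pos (nat_lit 0) (nat_lit 0)) T0.l5
  (TrL.c (I.pos (nat_lit 0) (nat_lit 0)) T2.l7
  (TrL.c (I.pos (nat_lit 0) (nat_lit 0)) T0.l6
  (TrL.c (I.pos (nat_lit 0) (nat_lit 0)) T0.l8
  (TrL.c (I.pos (nat_lit 0) (nat_lit 0)) T2.l8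
  (TrL.c (I.pos (nat_lit 0) (nat_lit 0)) T0.l7
  (TrL.c (I.pos (nat_lit 0) (nat_lit 0)) T2.l9
  TrL.n)))))))) (by decide +kernel)
theorem bx1_10 : BoxOK sI cl5 cl9 cl5 t2 t0 b1_10 :=
  box_mk (TrL.c (I.pos (nat_lit 0) (nat_lit 0)) T2.l0
  (TrL.c (I.pos (nat_lit 0) (nat_lit 0)) T0.l5
  (TrL.c (I.pos (nat_lit 0) (nat_lit 0)) T2.l7
  (TrL.c (I.pos (nat_lit 0) (nat_lit 0)) T0.l6
  (TrL.c (I.pos (nat_lit 0) (nat_lit 0)) T0.l8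
  (TrL.c (I.pos (nat_lit 0) (nat_lit 0)) T2.l8
  (TrL.c (I.pos (nat_lit 0) (nat_lit 0)) T0.l7
  (TrL.c (I.pos (nat_lit 0) (nat_lit 0)) T2.l9
  TrL.n)))))))) (by decide +kernel)
theorem bx1_11 : BoxOK sI cl5 cl9 cl5 t2 t0 b1_11 :=
  box_mk (TrL.c (I.pos (nat_lit 0) (nat_lit 0)) T2.l0
  (TrL.c (I.pos (nat_lit 0) (nat_lit 0)) T0.l5
  (TrL.c (I.pos (nat_lit 0) (nat_lit 0)) T2.l7
  (TrL.c (I.pos (nat_lit 0) (nat_lit 0)) T0.l6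
  (TrL.c (I.pos (nat_lit 0) (nat_lit 0)) T0.l8
  (TrL.c (I.pos (nat_lit 0) (nat_lit 0)) T2.l8
  (TrL.c (I.pos (nat_lit 0) (nat_lit 0)) T0.l7
  (TrL.c (I.pos (nat_lit 0) (nat_lit 0)) T2.l9
  TrL.n)))))))) (by decide +kernel)
theorem sv1 : StarV sI cl5 cl9 cl5 t2 t0 t1 :=
  (bt_n (bt_n (bt_n (bt_b bx1_0) (bt_n (bt_b bx1_1) (bt_b bx1_2))) (bt_n (bt_b bx1_3) (bt_n (bt_b bx1_4) (bt_b bx1_5)))) (bt_n (bt_n (bt_b bx1_6) (bt_n (bt_b bx1_7) (bt_b bx1_8))) (bt_n (bt_b bx1_9) (bt_n (bt_b bx1_10) (bt_b bx1_11)))))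
def S1 : StarD := StarD.mk cl5 cl9 cl5 2 0 t1
theorem bx2_0 : BoxOK sI cl9 cl5 cl5 t1 t1 b2_0 :=
  box_mk (TrL.c (I.pos (nat_lit 0) (nat_lit 0)) (xa (xa (xb T1.l0 T1.l0) (xb T1.l0 T1.l0)) (xa (xb T1.l0 T1.l0) (xb T1.l0 T1.l0)))
  (TrL.c (I.pos (nat_lit 0) (nat_lit 0)) T1.l1
  (TrL.c (I.pos (nat_lit 0) (nat_lit 124588530)) (xR T1.l2 (xR T1.l2 T1.l2))
  (TrL.c (I.pos (nat_lit 0) (nat_lit 96881482)) (xR T1.l3 (xR T1.l3 T1.l3))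
  (TrL.c (I.pos (nat_lit 0) (nat_lit 0)) (xa (xb T1.l4 T1.l4) (xa (xb (xk T1.l4 T1.l4) T1.l4) (xk (xb (xb T1.l4 T1.l4) (xs (xa T1.l4 T1.l4) (xa T1.l4 T1.l4))) (xb (xb T1.l4 T1.l4) (xs (xa T1.l4 T1.l4) (xa T1.l4 T1.l4))))))
  (TrL.c (I.pos (nat_lit 0) (nat_lit 0)) T1.l5
  (TrL.c (I.mix (nat_lit 17240550) (nat_lit 96881482)) (xR T1.l6 (xR T1.l6 T1.l6))
  (TrL.c (I.mix (nat_lit 17240550) (nat_lit 71940500)) (xR T1.l7 T1.l7)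
  TrL.n)))))))) (by decide +kernel)
theorem bx2_1 : BoxOK sI cl9 cl5 cl5 t1 t1 b2_1 :=
  box_mk (TrL.c (I.pos (nat_lit 0) (nat_lit 0)) T1.l0
  (TrL.c (I.pos (nat_lit 0) (nat_lit 0)) T1.l1
  (TrL.c (I.pos (nat_lit 0) (nat_lit 124588530)) (xR T1.l2 T1.l2)
  (TrL.c (I.pos (nat_lit 0) (nat_lit 96881482)) T1.l3
  (TrL.c (I.pos (nat_lit 0) (nat_lit 0)) T1.l4
  (TrL.c (I.pos (nat_lit 0) (nat_lit 0)) T1.l5
  (TrL.c (I.mix (nat_lit 17240550) (nat_lit 96881482)) T1.l6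
  (TrL.c (I.mix (nat_lit 17240550) (nat_lit 71940500)) T1.l7
  TrL.n)))))))) (by decide +kernel)
theorem bx2_2 : BoxOK sI cl9 cl5 cl5 t1 t1 b2_2 :=
  box_mk (TrL.c (I.pos (nat_lit 0) (nat_lit 0)) T1.l1
  (TrL.c (I.pos (nat_lit 0) (nat_lit 0)) T1.l2
  (TrL.c (I.mix (nat_lit 17240550) (nat_lit 96881482)) (xR T1.l10 T1.l3)
  (TrL.c (I.mix (nat_lit 17240550) (nat_lit 71940500)) T1.l6
  TrL.n)))) (by decide +kernel)
theorem bx2_3 : BoxOK sI cl9 cl5 cl5 t1 t1 b2_3 :=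
  box_mk (TrL.c (I.pos (nat_lit 0) (nat_lit 0)) (xa (xb T1.l0 (xs T1.l0 T1.l0)) (xb T1.l0 T1.l0))
  (TrL.c (I.pos (nat_lit 0) (nat_lit 0)) T1.l1
  (TrL.c (I.pos (nat_lit 0) (nat_lit 124588530)) (xR T1.l2 (xR T1.l2 T1.l2))
  (TrL.c (I.pos (nat_lit 0) (nat_lit 96881482)) (xR T1.l3 T1.l3)
  (TrL.c (I.pos (nat_lit 0) (nat_lit 0)) (xb T1.l4 T1.l4)
  (TrL.c (I.pos (nat_lit 0) (nat_lit 0)) T1.l5
  (TrL.c (I.mix (nat_lit 17240550) (nat_lit 96881482)) (xR T1.l6 T1.l6)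
  (TrL.c (I.mix (nat_lit 17240550) (nat_lit 71940500)) (xR T1.l7 T1.l7)
  TrL.n)))))))) (by decide +kernel)
theorem bx2_4 : BoxOK sI cl9 cl5 cl5 t1 t1 b2_4 :=
  box_mk (TrL.c (I.pos (nat_lit 0) (nat_lit 0)) T1.l0
  (TrL.c (I.pos (nat_lit 0) (nat_lit 0)) T1.l1
  (TrL.c (I.pos (nat_lit 0) (nat_lit 124588530)) T1.l2
  (TrL.c (I.pos (nat_lit 0) (nat_lit 96881482)) T1.l3
  (TrL.c (I.pos (nat_lit 0) (nat_lit 0)) T1.l4
  (TrL.c (I.pos (nat_lit 0) (nat_lit 0)) T1.l5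
  (TrL.c (I.mix (nat_lit 17240550) (nat_lit 96881482)) T1.l6
  (TrL.c (I.mix (nat_lit 17240550) (nat_lit 71940500)) T1.l7
  TrL.n)))))))) (by decide +kernel)
theorem bx2_5 : BoxOK sI cl9 cl5 cl5 t1 t1 b2_5 :=
  box_mk (TrL.c (I.pos (nat_lit 0) (nat_lit 0)) T1.l0
  (TrL.c (I.pos (nat_lit 0) (nat_lit 0)) T1.l1
  (TrL.c (I.pos (nat_lit 0) (nat_lit 124588530)) (xR T1.l2 T1.l2)
  (TrL.c (I.pos (nat_lit 0) (nat_lit 96881482)) T1.l3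
  (TrL.c (I.pos (nat_lit 0) (nat_lit 0)) T1.l4
  (TrL.c (I.pos (nat_lit 0) (nat_lit 0)) T1.l5
  (TrL.c (I.mix (nat_lit 17240550) (nat_lit 96881482)) T1.l6
  (TrL.c (I.mix (nat_lit 17240550) (nat_lit 71940500)) T1.l7
  TrL.n)))))))) (by decide +kernel)
theorem bx2_6 : BoxOK sI cl9 cl5 cl5 t1 t1 b2_6 :=
  box_mk (TrL.c (I.pos (nat_lit 0) (nat_lit 0)) T1.l8
  (TrL.c (I.pos (nat_lit 0) (nat_lit 0)) T1.l9
  (TrL.c (I.mix (nat_lit 17240550) (nat_lit 96881482)) T1.l10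
  (TrL.c (I.mix (nat_lit 17240550) (nat_lit 71940500)) T1.l6
  TrL.n)))) (by decide +kernel)
theorem bx2_7 : BoxOK sI cl9 cl5 cl5 t1 t1 b2_7 :=
  box_mk (TrL.c (I.pos (nat_lit 0) (nat_lit 0)) T1.l0
  (TrL.c (I.pos (nat_lit 0) (nat_lit 0)) T1.l1
  (TrL.c (I.pos (nat_lit 0) (nat_lit 124588530)) T1.l2
  (TrL.c (I.pos (nat_lit 0) (nat_lit 96881482)) T1.l3
  (TrL.c (I.pos (nat_lit 0) (nat_lit 0)) T1.l4
  (TrL.c (I.pos (nat_lit 0) (nat_lit 0)) T1.l5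
  (TrL.c (I.mix (nat_lit 17240550) (nat_lit 96881482)) T1.l6
  (TrL.c (I.mix (nat_lit 17240550) (nat_lit 71940500)) T1.l7
  TrL.n)))))))) (by decide +kernel)
theorem bx2_8 : BoxOK sI cl9 cl5 cl5 t1 t1 b2_8 :=
  box_mk (TrL.c (I.pos (nat_lit 0) (nat_lit 0)) T1.l0
  (TrL.c (I.pos (nat_lit 0) (nat_lit 0)) T1.l1
  (TrL.c (I.pos (nat_lit 0) (nat_lit 124588530)) T1.l2
  (TrL.c (I.pos (nat_lit 0) (nat_lit 96881482)) (xR T1.l3 T1.l3)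
  (TrL.c (I.pos (nat_lit 0) (nat_lit 0)) T1.l4
  (TrL.c (I.pos (nat_lit 0) (nat_lit 0)) T1.l5
  (TrL.c (I.mix (nat_lit 17240550) (nat_lit 96881482)) T1.l6
  (TrL.c (I.mix (nat_lit 17240550) (nat_lit 71940500)) T1.l7
  TrL.n)))))))) (by decide +kernel)
theorem bx2_9 : BoxOK sI cl9 cl5 cl5 t1 t1 b2_9 :=
  box_mk (TrL.c (I.pos (nat_lit 0) (nat_lit 0)) T1.l1
  (TrL.c (I.pos (nat_lit 0) (nat_lit 0)) T1.l2
  (TrL.c (I.mix (nat_lit 17240550) (nat_lit 96881482)) (xR T1.l10 T1.l3)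
  (TrL.c (I.mix (nat_lit 17240550) (nat_lit 71940500)) T1.l6
  TrL.n)))) (by decide +kernel)
theorem sv2 : StarV sI cl9 cl5 cl5 t1 t1 t2 :=
  (bt_n (bt_n (bt_n (bt_b bx2_0) (bt_b bx2_1)) (bt_n (bt_b bx2_2) (bt_n (bt_b bx2_3) (bt_b bx2_4)))) (bt_n (bt_n (bt_b bx2_5) (bt_b bx2_6)) (bt_n (bt_b bx2_7) (bt_n (bt_b bx2_8) (bt_b bx2_9)))))
def S2 : StarD := StarD.mk cl9 cl5 cl5 1 1 t2
def G : List StarD := [S0, S1, S2]
theorem so0 : StarOK sI G S0 :=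
  star_mk (by decide) (by decide) rfl rfl rfl rfl rfl rfl (rfl : _ = t0) (rfl : _ = t2)
  (st_mk (Pth.l (Pth.l (Pth.l Pth.z))) (nat_lit 243066869) (nat_lit 245004921) (by decide +kernel))
  (st_mk (Pth.l (Pth.l (Pth.l Pth.z))) (nat_lit 279489940) (nat_lit 282071099) (by decide +kernel))
  (st_mk (Pth.l (Pth.l (Pth.l Pth.z))) (nat_lit 321795361) (nat_lit 325248450) (by decide +kernel)) sv0
theorem so1 : StarOK sI G S1 :=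
  star_mk (by decide) (by decide) rfl rfl rfl rfl rfl rfl (rfl : _ = t2) (rfl : _ = t0)
  (st_mk (Pth.l (Pth.l (Pth.l Pth.z))) (nat_lit 116729349) (nat_lit 135850159) (by decide +kernel))
  (st_mk (Pth.l (Pth.l (Pth.l Pth.z))) (nat_lit 152786166) (nat_lit 172484080) (by decide +kernel))
  (st_mk (Pth.l (Pth.l (Pth.l Pth.z))) (nat_lit 194792291) (nat_lit 215306249) (by decide +kernel)) sv1
theorem so2 : StarOK sI G S2 :=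
  star_mk (by decide) (by decide) rfl rfl rfl rfl rfl rfl (rfl : _ = t1) (rfl : _ = t1)
  (st_mk (Pth.l (Pth.l (Pth.l Pth.z))) (nat_lit 238986055) (nat_lit 240852254) (by decide +kernel))
  (st_mk (Pth.l (Pth.l (Pth.l Pth.z))) (nat_lit 274174238) (nat_lit 276463490) (by decide +kernel))
  (st_mk (Pth.l (Pth.l (Pth.l Pth.z))) (nat_lit 314826134) (nat_lit 317678854) (by decide +kernel)) sv2
theorem ok : GroupOK (nat_lit 0) (nat_lit 91291648) G := grp_mk (allS_c so0 (allS_c so1 (allS_c so2 allS_n)))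
theorem cov : GCov G cl5 cl5 cl9 := cov_mk
  ⟨0, by decide, rfl, rfl, rfl⟩ ⟨1, by decide, rfl, rfl, rfl⟩ ⟨0, by decide, rfl, rfl, rfl⟩ ⟨1, by decide, rfl, rfl, rfl⟩ ⟨2, by decide, rfl, rfl, rfl⟩ ⟨2, by decide, rfl, rfl, rfl⟩
end Q225_0

namespace Q225_1
def sI : I := I.pos (nat_lit 91226112) (nat_lit 150339584)
def b0_0 : Bx := Bx.mk (St.mk (I.pos (nat_lit 157335552) (nat_lit 270336000)) (I.mix (nat_lit 6160384) (nat_lit 73940992)) (I.mix (nat_lit 91308032) (nat_lit 81346560)) (I.pos (nat_lit 238632960) (nat_lit 426819584)) (I.mix (nat_lit 110100480) (nat_lit 79724544)) (I.mix (nat_lit 97861632) (nat_lit 66174976)) (I.mix (nat_lit 150945792) (nat_lit 105365504)))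
  false (nat_lit 0)
def b0_1 : Bx := Bx.mk (St.mk (I.pos (nat_lit 26132480) (nat_lit 64815104)) (I.mix (nat_lit 1622016) (nat_lit 50216960)) (I.neg (nat_lit 5668864) (nat_lit 30752768)) (I.pos (nat_lit 143785984) (nat_lit 159301632)) (I.mix (nat_lit 37093376) (nat_lit 50397184)) (I.mix (nat_lit 47595520) (nat_lit 31522816)) (I.mix (nat_lit 25640960) (nat_lit 15810560)))
  false (nat_lit 0)
def b0_2 : Bx := Bx.mk (St.mk (I.pos (nat_lit 55869440) (nat_lit 96141312)) (I.mix (nat_lit 64274432) (nat_lit 4751360)) (I.neg (nat_lit 25034752) (nat_lit 69320704)) (I.pos (nat_lit 151830528) (nat_lit 180142080)) (I.mix (nat_lit 90439680) (nat_lit 38780928)) (I.mix (nat_lit 40648704) (nat_lit 76103680)) (I.mix (nat_lit 30195712) (nat_lit 50642944)))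
  false (nat_lit 0)
def b0_3 : Bx := Bx.mk (St.mk (I.neg (nat_lit 26132480) (nat_lit 68222976)) (I.mix (nat_lit 50216960) (nat_lit 4014080)) (I.neg (nat_lit 5586944) (nat_lit 33243136)) (I.pos (nat_lit 143769600) (nat_lit 160677888)) (I.mix (nat_lit 50397184) (nat_lit 37158912)) (I.mix (nat_lit 31522816) (nat_lit 47595520)) (I.mix (nat_lit 25640960) (nat_lit 15810560)))
  true (nat_lit 0)
def b0_4 : Bx := Bx.mk (St.mk (I.pos (nat_lit 52969472) (nat_lit 67452928)) (I.mix (nat_lit 3112960) (nat_lit 16613376)) (I.neg (nat_lit 19529728) (nat_lit 32833536)) (I.pos (nat_lit 151552000) (nat_lit 160464896)) (I.mix (nat_lit 13615104) (nat_lit 19447808)) (I.mix (nat_lit 16023552) (nat_lit 11010048)) (I.mix (nat_lit 8454144) (nat_lit 6914048)))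
  false (nat_lit 0)
def b0_5 : Bx := Bx.mk (St.mk (I.pos (nat_lit 68616192) (nat_lit 148193280)) (I.neg (nat_lit 4308992) (nat_lit 65404928)) (I.neg (nat_lit 14680064) (nat_lit 71647232)) (I.pos (nat_lit 161824768) (nat_lit 227475456)) (I.mix (nat_lit 84885504) (nat_lit 56737792)) (I.mix (nat_lit 44777472) (nat_lit 81199104)) (I.mix (nat_lit 41615360) (nat_lit 71073792)))
  false (nat_lit 0)
def b0_6 : Bx := Bx.mk (St.mk (I.mix (nat_lit 40402944) (nat_lit 6307840)) (I.mix (nat_lit 43139072) (nat_lit 8355840)) (I.neg (nat_lit 8159232) (nat_lit 15269888)) (I.pos (nat_lit 141721600) (nat_lit 152633344)) (I.mix (nat_lit 37896192) (nat_lit 42123264)) (I.mix (nat_lit 29081600) (nat_lit 49496064)) (I.mix (nat_lit 8617984) (nat_lit 7421952)))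
  true (nat_lit 0)
def b0_7 : Bx := Bx.mk (St.mk (I.mix (nat_lit 6307840) (nat_lit 40402944)) (I.mix (nat_lit 8355840) (nat_lit 43139072)) (I.neg (nat_lit 8142848) (nat_lit 15269888)) (I.pos (nat_lit 141721600) (nat_lit 152649728)) (I.mix (nat_lit 42123264) (nat_lit 37896192)) (I.mix (nat_lit 49496064) (nat_lit 29081600)) (I.mix (nat_lit 8617984) (nat_lit 7421952)))
  false (nat_lit 0)
def b0_8 : Bx := Bx.mk (St.mk (I.pos (nat_lit 125517824) (nat_lit 201949184)) (I.mix (nat_lit 40992768) (nat_lit 70303744)) (I.mix (nat_lit 53018624) (nat_lit 76382208)) (I.pos (nat_lit 203702272) (nat_lit 305528832)) (I.mix (nat_lit 134152192) (nat_lit 77643776)) (I.mix (nat_lit 146030592) (nat_lit 79724544)) (I.mix (nat_lit 145244160) (nat_lit 86523904)))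
  false (nat_lit 0)
def t0 : BTr := (BTr.n (BTr.n (BTr.n (BTr.b b0_0) (BTr.b b0_1)) (BTr.n (BTr.b b0_2) (BTr.b b0_3))) (BTr.n (BTr.n (BTr.b b0_4) (BTr.b b0_5)) (BTr.n (BTr.b b0_6) (BTr.n (BTr.b b0_7) (BTr.b b0_8)))))
namespace T0
def l0 : Tr := Tr.L (Pth.l (Pth.l (Pth.l Pth.z)))
def l1 : Tr := Tr.L (Pth.l (Pth.l (Pth.r Pth.z)))
def l2 : Tr := Tr.L (Pth.l (Pth.r (Pth.l Pth.z)))
def l3 : Tr := Tr.L (Pth.l (Pth.r (Pth.r Pth.z)))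
def l4 : Tr := Tr.L (Pth.r (Pth.l (Pth.l Pth.z)))
def l5 : Tr := Tr.L (Pth.r (Pth.l (Pth.r Pth.z)))
def l6 : Tr := Tr.L (Pth.r (Pth.r (Pth.l Pth.z)))
def l7 : Tr := Tr.L (Pth.r (Pth.r (Pth.r (Pth.l Pth.z))))
def l8 : Tr := Tr.L (Pth.r (Pth.r (Pth.r (Pth.r Pth.z))))
end T0
def b1_0 : Bx := Bx.mk (St.mk (I.pos (nat_lit 157417472) (nat_lit 267321344)) (I.mix (nat_lit 8814592) (nat_lit 52510720)) (I.mix (nat_lit 17072128) (nat_lit 92569600)) (I.pos (nat_lit 111558656) (nat_lit 314671104)) (I.mix (nat_lit 119373824) (nat_lit 71680000)) (I.mix (nat_lit 100728832) (nat_lit 69779456)) (I.mix (nat_lit 150142976) (nat_lit 100892672)))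
  false (nat_lit 17383711)
def b1_1 : Bx := Bx.mk (St.mk (I.pos (nat_lit 113917952) (nat_lit 175341568)) (I.neg (nat_lit 5783552) (nat_lit 53395456)) (I.neg (nat_lit 3932160) (nat_lit 51576832)) (I.pos (nat_lit 82542592) (nat_lit 154075136)) (I.mix (nat_lit 73285632) (nat_lit 42729472)) (I.mix (nat_lit 39141376) (nat_lit 57688064)) (I.mix (nat_lit 38256640) (nat_lit 57638912)))
  false (nat_lit 0)
def b1_2 : Bx := Bx.mk (St.mk (I.mix (nat_lit 13271040) (nat_lit 130072576)) (I.mix (nat_lit 2359296) (nat_lit 29310976)) (I.mix (nat_lit 4521984) (nat_lit 23871488)) (I.pos (nat_lit 15335424) (nat_lit 98844672)) (I.mix (nat_lit 43614208) (nat_lit 30457856)) (I.mix (nat_lit 36470784) (nat_lit 26181632)) (I.mix (nat_lit 26787840) (nat_lit 19628032)))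
  false (nat_lit 0)
def b1_3 : Bx := Bx.mk (St.mk (I.mix (nat_lit 15253504) (nat_lit 101580800)) (I.mix (nat_lit 28999680) (nat_lit 1622016)) (I.mix (nat_lit 18661376) (nat_lit 1867776)) (I.pos (nat_lit 16171008) (nat_lit 74612736)) (I.mix (nat_lit 34816000) (nat_lit 23789568)) (I.mix (nat_lit 20381696) (nat_lit 28180480)) (I.mix (nat_lit 12337152) (nat_lit 16531456)))
  false (nat_lit 0)
def b1_4 : Bx := Bx.mk (St.mk (I.pos (nat_lit 156090368) (nat_lit 214188032)) (I.mix (nat_lit 34947072) (nat_lit 54968320)) (I.mix (nat_lit 30408704) (nat_lit 91144192)) (I.pos (nat_lit 115392512) (nat_lit 209944576)) (I.mix (nat_lit 147079168) (nat_lit 59097088)) (I.mix (nat_lit 161906688) (nat_lit 88555520)) (I.mix (nat_lit 193609728) (nat_lit 95600640)))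
  false (nat_lit 0)
def b1_5 : Bx := Bx.mk (St.mk (I.pos (nat_lit 109936640) (nat_lit 149094400)) (I.mix (nat_lit 50806784) (nat_lit 2801664)) (I.mix (nat_lit 48807936) (nat_lit 835584)) (I.pos (nat_lit 65339392) (nat_lit 116523008)) (I.mix (nat_lit 88866816) (nat_lit 30310400)) (I.mix (nat_lit 45367296) (nat_lit 88424448)) (I.mix (nat_lit 35323904) (nat_lit 73236480)))
  false (nat_lit 0)
def b1_6 : Bx := Bx.mk (St.mk (I.mix (nat_lit 22675456) (nat_lit 121913344)) (I.mix (nat_lit 9584640) (nat_lit 33685504)) (I.mix (nat_lit 5865472) (nat_lit 26755072)) (I.pos (nat_lit 15908864) (nat_lit 90423296)) (I.mix (nat_lit 58081280) (nat_lit 28622848)) (I.mix (nat_lit 56147968) (nat_lit 34504704)) (I.mix (nat_lit 35848192) (nat_lit 21577728)))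
  false (nat_lit 0)
def b1_7 : Bx := Bx.mk (St.mk (I.mix (nat_lit 19136512) (nat_lit 91865088)) (I.mix (nat_lit 26738688) (nat_lit 1540096)) (I.mix (nat_lit 16646144) (nat_lit 1802240)) (I.pos (nat_lit 16613376) (nat_lit 67420160)) (I.mix (nat_lit 37896192) (nat_lit 17924096)) (I.mix (nat_lit 21561344) (nat_lit 34521088)) (I.mix (nat_lit 11780096) (nat_lit 17776640)))
  false (nat_lit 0)
def b1_8 : Bx := Bx.mk (St.mk (I.pos (nat_lit 154828800) (nat_lit 173719552)) (I.neg (nat_lit 14008320) (nat_lit 35405824)) (I.neg (nat_lit 7421952) (nat_lit 32538624)) (I.pos (nat_lit 115032064) (nat_lit 152289280)) (I.mix (nat_lit 22478848) (nat_lit 11599872)) (I.mix (nat_lit 9469952) (nat_lit 12599296)) (I.mix (nat_lit 9814016) (nat_lit 13467648)))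
  false (nat_lit 0)
def b1_9 : Bx := Bx.mk (St.mk (I.pos (nat_lit 110723072) (nat_lit 125566976)) (I.mix (nat_lit 442368) (nat_lit 6881280)) (I.mix (nat_lit 3489792) (nat_lit 4472832)) (I.pos (nat_lit 66109440) (nat_lit 96616448)) (I.mix (nat_lit 5144576) (nat_lit 7372800)) (I.mix (nat_lit 3784704) (nat_lit 3211264)) (I.mix (nat_lit 3407872) (nat_lit 2457600)))
  false (nat_lit 0)
def b1_10 : Bx := Bx.mk (St.mk (I.mix (nat_lit 23724032) (nat_lit 101548032)) (I.mix (nat_lit 12075008) (nat_lit 1458176)) (I.mix (nat_lit 7618560) (nat_lit 1703936)) (I.pos (nat_lit 16826368) (nat_lit 74399744)) (I.mix (nat_lit 5832704) (nat_lit 7094272)) (I.mix (nat_lit 3538944) (nat_lit 4603904)) (I.mix (nat_lit 2310144) (nat_lit 3162112)))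
  false (nat_lit 0)
def b1_11 : Bx := Bx.mk (St.mk (I.mix (nat_lit 20840448) (nat_lit 7176192)) (I.mix (nat_lit 622592) (nat_lit 4521984)) (I.mix (nat_lit 2113536) (nat_lit 311296)) (I.pos (nat_lit 17874944) (nat_lit 38666240)) (I.mix (nat_lit 2850816) (nat_lit 4947968)) (I.mix (nat_lit 3194880) (nat_lit 2457600)) (I.mix (nat_lit 655360) (nat_lit 720896)))
  false (nat_lit 0)
def t1 : BTr := (BTr.n (BTr.n (BTr.n (BTr.b b1_0) (BTr.n (BTr.b b1_1) (BTr.b b1_2))) (BTr.n (BTr.b b1_3) (BTr.n (BTr.b b1_4) (BTr.b b1_5)))) (BTr.n (BTr.n (BTr.b b1_6) (BTr.n (BTr.b b1_7) (BTr.b b1_8))) (BTr.n (BTr.b b1_9) (BTr.n (BTr.b b1_10) (BTr.b b1_11)))))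
namespace T1
def l0 : Tr := Tr.L (Pth.l (Pth.l (Pth.l Pth.z)))
def l1 : Tr := Tr.L (Pth.l (Pth.l (Pth.r (Pth.l Pth.z))))
def l2 : Tr := Tr.L (Pth.l (Pth.l (Pth.r (Pth.r Pth.z))))
def l3 : Tr := Tr.L (Pth.l (Pth.r (Pth.l Pth.z)))
def l4 : Tr := Tr.L (Pth.l (Pth.r (Pth.r (Pth.l Pth.z))))
def l5 : Tr := Tr.L (Pth.l (Pth.r (Pth.r (Pth.r Pth.z))))
def l6 : Tr := Tr.L (Pth.r (Pth.l (Pth.l Pth.z)))
def l7 : Tr := Tr.L (Pth.r (Pth.l (Pth.r (Pth.l Pth.z))))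
def l8 : Tr := Tr.L (Pth.r (Pth.l (Pth.r (Pth.r Pth.z))))
def l9 : Tr := Tr.L (Pth.r (Pth.r (Pth.l Pth.z)))
def l10 : Tr := Tr.L (Pth.r (Pth.r (Pth.r (Pth.l Pth.z))))
def l11 : Tr := Tr.L (Pth.r (Pth.r (Pth.r (Pth.r Pth.z))))
end T1
def b2_0 : Bx := Bx.mk (St.mk (I.pos (nat_lit 143441920) (nat_lit 284180480)) (I.mix (nat_lit 21430272) (nat_lit 67796992)) (I.mix (nat_lit 51855360) (nat_lit 117178368)) (I.pos (nat_lit 232833024) (nat_lit 442679296)) (I.mix (nat_lit 134053888) (nat_lit 98074624)) (I.mix (nat_lit 124600320) (nat_lit 84934656)) (I.mix (nat_lit 182124544) (nat_lit 103071744)))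
  false (nat_lit 76445958)
def b2_1 : Bx := Bx.mk (St.mk (I.pos (nat_lit 80084992) (nat_lit 142295040)) (I.neg (nat_lit 15040512) (nat_lit 71843840)) (I.mix (nat_lit 47087616) (nat_lit 8814592)) (I.pos (nat_lit 172834816) (nat_lit 219611136)) (I.mix (nat_lit 74334208) (nat_lit 51232768)) (I.mix (nat_lit 42844160) (nat_lit 60145664)) (I.mix (nat_lit 38453248) (nat_lit 52576256)))
  false (nat_lit 0)
def b2_2 : Bx := Bx.mk (St.mk (I.mix (nat_lit 32079872) (nat_lit 1654784)) (I.mix (nat_lit 43401216) (nat_lit 1409024)) (I.pos (nat_lit 8683520) (nat_lit 16187392)) (I.pos (nat_lit 141230080) (nat_lit 149913600)) (I.mix (nat_lit 29163520) (nat_lit 41500672)) (I.mix (nat_lit 25247744) (nat_lit 39485440)) (I.mix (nat_lit 6242304) (nat_lit 7307264)))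
  true (nat_lit 0)
def b2_3 : Bx := Bx.mk (St.mk (I.pos (nat_lit 132120576) (nat_lit 191725568)) (I.mix (nat_lit 29753344) (nat_lit 67911680)) (I.mix (nat_lit 1933312) (nat_lit 116752384)) (I.pos (nat_lit 208158720) (nat_lit 282525696)) (I.mix (nat_lit 145031168) (nat_lit 52641792)) (I.mix (nat_lit 140787712) (nat_lit 63619072)) (I.mix (nat_lit 147636224) (nat_lit 61243392)))
  false (nat_lit 28427841)
def b2_4 : Bx := Bx.mk (St.mk (I.mix (nat_lit 4898816) (nat_lit 32178176)) (I.mix (nat_lit 3162112) (nat_lit 43450368)) (I.pos (nat_lit 8683520) (nat_lit 16187392)) (I.pos (nat_lit 141148160) (nat_lit 149913600)) (I.mix (nat_lit 41500672) (nat_lit 29163520)) (I.mix (nat_lit 39485440) (nat_lit 25247744)) (I.mix (nat_lit 6242304) (nat_lit 7307264)))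
  false (nat_lit 0)
def b2_5 : Bx := Bx.mk (St.mk (I.pos (nat_lit 124370944) (nat_lit 146948096)) (I.neg (nat_lit 18382848) (nat_lit 43433984)) (I.mix (nat_lit 17842176) (nat_lit 10960896)) (I.pos (nat_lit 203669504) (nat_lit 224231424)) (I.mix (nat_lit 24215552) (nat_lit 24084480)) (I.mix (nat_lit 17219584) (nat_lit 19890176)) (I.mix (nat_lit 15777792) (nat_lit 20283392)))
  false (nat_lit 0)
def b2_6 : Bx := Bx.mk (St.mk (I.mix (nat_lit 8159232) (nat_lit 4194304)) (I.mix (nat_lit 14008320) (nat_lit 2310144)) (I.pos (nat_lit 9486336) (nat_lit 13484032)) (I.pos (nat_lit 141164544) (nat_lit 144162816)) (I.mix (nat_lit 9601024) (nat_lit 15794176)) (I.mix (nat_lit 8470528) (nat_lit 11829248)) (I.mix (nat_lit 1277952) (nat_lit 1064960)))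
  true (nat_lit 0)
def b2_7 : Bx := Bx.mk (St.mk (I.pos (nat_lit 16777216) (nat_lit 70303744)) (I.mix (nat_lit 8470528) (nat_lit 48775168)) (I.mix (nat_lit 9027584) (nat_lit 19447808)) (I.pos (nat_lit 140984320) (nat_lit 162201600)) (I.mix (nat_lit 44007424) (nat_lit 46104576)) (I.mix (nat_lit 54525952) (nat_lit 33882112)) (I.mix (nat_lit 27770880) (nat_lit 19005440)))
  false (nat_lit 0)
def b2_8 : Bx := Bx.mk (St.mk (I.pos (nat_lit 54083584) (nat_lit 106627072)) (I.mix (nat_lit 68321280) (nat_lit 9437184)) (I.mix (nat_lit 42090496) (nat_lit 2031616)) (I.pos (nat_lit 153059328) (nat_lit 188416000)) (I.mix (nat_lit 80969728) (nat_lit 44515328)) (I.mix (nat_lit 44662784) (nat_lit 83525632)) (I.mix (nat_lit 33439744) (nat_lit 48201728)))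
  false (nat_lit 0)
def b2_9 : Bx := Bx.mk (St.mk (I.neg (nat_lit 16711680) (nat_lit 70303744)) (I.mix (nat_lit 48775168) (nat_lit 8470528)) (I.mix (nat_lit 9027584) (nat_lit 19447808)) (I.pos (nat_lit 140984320) (nat_lit 162201600)) (I.mix (nat_lit 46104576) (nat_lit 44007424)) (I.mix (nat_lit 33882112) (nat_lit 54525952)) (I.mix (nat_lit 27770880) (nat_lit 19005440)))
  true (nat_lit 0)
def t2 : BTr := (BTr.n (BTr.n (BTr.n (BTr.b b2_0) (BTr.b b2_1)) (BTr.n (BTr.b b2_2) (BTr.n (BTr.b b2_3) (BTr.b b2_4)))) (BTr.n (BTr.n (BTr.b b2_5) (BTr.b b2_6)) (BTr.n (BTr.b b2_7) (BTr.n (BTr.b b2_8) (BTr.b b2_9)))))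
namespace T2
def l0 : Tr := Tr.L (Pth.l (Pth.l (Pth.l Pth.z)))
def l1 : Tr := Tr.L (Pth.l (Pth.l (Pth.r Pth.z)))
def l2 : Tr := Tr.L (Pth.l (Pth.r (Pth.l Pth.z)))
def l3 : Tr := Tr.L (Pth.l (Pth.r (Pth.r (Pth.l Pth.z))))
def l4 : Tr := Tr.L (Pth.l (Pth.r (Pth.r (Pth.r Pth.z))))
def l5 : Tr := Tr.L (Pth.r (Pth.l (Pth.l Pth.z)))
def l6 : Tr := Tr.L (Pth.r (Pth.l (Pth.r Pth.z)))
def l7 : Tr := Tr.L (Pth.r (Pth.r (Pth.l Pth.z)))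
def l8 : Tr := Tr.L (Pth.r (Pth.r (Pth.r (Pth.l Pth.z))))
def l9 : Tr := Tr.L (Pth.r (Pth.r (Pth.r (Pth.r Pth.z))))
end T2
theorem bx0_0 : BoxOK sI cl5 cl5 cl9 t0 t2 b0_0 :=
  box_mk (TrL.c (I.pos (nat_lit 0) (nat_lit 0)) (xa (xb T0.l0 (xa T0.l0 T0.l0)) (xa (xb T0.l0 T0.l0) (xb T0.l0 T0.l0)))
  (TrL.c (I.pos (nat_lit 0) (nat_lit 0)) (xa T2.l1 T2.l1)
  (TrL.c (I.pos (nat_lit 0) (nat_lit 0)) T0.l1
  (TrL.c (I.pos (nat_lit 0) (nat_lit 0)) T2.l2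
  (TrL.c (I.pos (nat_lit 0) (nat_lit 0)) (xa (xb T2.l0 T2.l3) (xb (xa T2.l0 T2.l0) (xa T2.l3 T2.l3)))
  (TrL.c (I.pos (nat_lit 0) (nat_lit 0)) (xa T0.l2 T0.l2)
  (TrL.c (I.pos (nat_lit 0) (nat_lit 0)) T2.l4
  (TrL.c (I.pos (nat_lit 0) (nat_lit 0)) T0.l3
  TrL.n)))))))) (by decide +kernel)
theorem bx0_1 : BoxOK sI cl5 cl5 cl9 t0 t2 b0_1 :=
  box_mk (TrL.c (I.pos (nat_lit 0) (nat_lit 0)) T0.l0
  (TrL.c (I.pos (nat_lit 0) (nat_lit 0)) T2.l1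
  (TrL.c (I.pos (nat_lit 0) (nat_lit 0)) T0.l1
  (TrL.c (I.pos (nat_lit 0) (nat_lit 0)) T2.l2
  (TrL.c (I.pos (nat_lit 0) (nat_lit 0)) T2.l3
  (TrL.c (I.pos (nat_lit 0) (nat_lit 0)) T0.l2
  (TrL.c (I.pos (nat_lit 0) (nat_lit 0)) T2.l4
  (TrL.c (I.pos (nat_lit 0) (nat_lit 0)) T0.l3
  TrL.n)))))))) (by decide +kernel)
theorem bx0_2 : BoxOK sI cl5 cl5 cl9 t0 t2 b0_2 :=
  box_mk (TrL.c (I.pos (nat_lit 0) (nat_lit 0)) (xb T0.l0 T0.l0)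
  (TrL.c (I.pos (nat_lit 0) (nat_lit 0)) T2.l1
  (TrL.c (I.pos (nat_lit 0) (nat_lit 0)) T0.l1
  (TrL.c (I.pos (nat_lit 0) (nat_lit 0)) T2.l2
  (TrL.c (I.pos (nat_lit 0) (nat_lit 0)) T2.l3
  (TrL.c (I.pos (nat_lit 0) (nat_lit 0)) T0.l2
  (TrL.c (I.pos (nat_lit 0) (nat_lit 0)) T2.l4
  (TrL.c (I.pos (nat_lit 0) (nat_lit 0)) T0.l3
  TrL.n)))))))) (by decide +kernel)
theorem bx0_3 : BoxOK sI cl5 cl5 cl9 t0 t2 b0_3 :=
  box_mk (TrL.c (I.pos (nat_lit 0) (nat_lit 0)) T2.l1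
  (TrL.c (I.pos (nat_lit 0) (nat_lit 0)) T0.l1
  (TrL.c (I.pos (nat_lit 0) (nat_lit 0)) T2.l2
  TrL.n))) (by decide +kernel)
theorem bx0_4 : BoxOK sI cl5 cl5 cl9 t0 t2 b0_4 :=
  box_mk (TrL.c (I.pos (nat_lit 0) (nat_lit 0)) T0.l0
  (TrL.c (I.pos (nat_lit 0) (nat_lit 0)) T2.l1
  (TrL.c (I.pos (nat_lit 0) (nat_lit 0)) T0.l1
  (TrL.c (I.pos (nat_lit 0) (nat_lit 0)) T2.l2
  (TrL.c (I.pos (nat_lit 0) (nat_lit 0)) T2.l3
  (TrL.c (I.pos (nat_lit 0) (nat_lit 0)) T0.l2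
  (TrL.c (I.pos (nat_lit 0) (nat_lit 0)) T2.l4
  (TrL.c (I.pos (nat_lit 0) (nat_lit 0)) T0.l3
  TrL.n)))))))) (by decide +kernel)
theorem bx0_5 : BoxOK sI cl5 cl5 cl9 t0 t2 b0_5 :=
  box_mk (TrL.c (I.pos (nat_lit 0) (nat_lit 0)) (xa T0.l0 T0.l0)
  (TrL.c (I.pos (nat_lit 0) (nat_lit 0)) T2.l1
  (TrL.c (I.pos (nat_lit 0) (nat_lit 0)) T0.l1
  (TrL.c (I.pos (nat_lit 0) (nat_lit 0)) T2.l2
  (TrL.c (I.pos (nat_lit 0) (nat_lit 0)) T2.l3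
  (TrL.c (I.pos (nat_lit 0) (nat_lit 0)) T0.l2
  (TrL.c (I.pos (nat_lit 0) (nat_lit 0)) T2.l4
  (TrL.c (I.pos (nat_lit 0) (nat_lit 0)) T0.l3
  TrL.n)))))))) (by decide +kernel)
theorem bx0_6 : BoxOK sI cl5 cl5 cl9 t0 t2 b0_6 :=
  box_mk (TrL.c (I.pos (nat_lit 0) (nat_lit 0)) T2.l5
  (TrL.c (I.pos (nat_lit 0) (nat_lit 0)) T0.l4
  (TrL.c (I.pos (nat_lit 0) (nat_lit 0)) T2.l6
  TrL.n))) (by decide +kernel)
theorem bx0_7 : BoxOK sI cl5 cl5 cl9 t0 t2 b0_7 :=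
  box_mk (TrL.c (I.pos (nat_lit 0) (nat_lit 0)) (xb T0.l0 T0.l0)
  (TrL.c (I.pos (nat_lit 0) (nat_lit 0)) T2.l5
  (TrL.c (I.pos (nat_lit 0) (nat_lit 0)) T0.l4
  (TrL.c (I.pos (nat_lit 0) (nat_lit 0)) T2.l6
  (TrL.c (I.pos (nat_lit 0) (nat_lit 0)) T2.l3
  (TrL.c (I.pos (nat_lit 0) (nat_lit 0)) T0.l2
  (TrL.c (I.pos (nat_lit 0) (nat_lit 0)) T2.l4
  (TrL.c (I.pos (nat_lit 0) (nat_lit 0)) T0.l3
  TrL.n)))))))) (by decide +kernel)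
theorem bx0_8 : BoxOK sI cl5 cl5 cl9 t0 t2 b0_8 :=
  box_mk (TrL.c (I.pos (nat_lit 0) (nat_lit 0)) (xb (xa T0.l0 T0.l0) (xa (xb T0.l0 T0.l0) (xb T0.l0 T0.l0)))
  (TrL.c (I.pos (nat_lit 0) (nat_lit 0)) (xb T2.l1 T2.l1)
  (TrL.c (I.pos (nat_lit 0) (nat_lit 0)) T0.l1
  (TrL.c (I.pos (nat_lit 0) (nat_lit 0)) T2.l2
  (TrL.c (I.pos (nat_lit 0) (nat_lit 0)) (xb (xa T2.l0 T2.l0) T2.l3)
  (TrL.c (I.pos (nat_lit 0) (nat_lit 0)) T0.l2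
  (TrL.c (I.pos (nat_lit 0) (nat_lit 0)) T2.l4
  (TrL.c (I.pos (nat_lit 0) (nat_lit 0)) T0.l3
  TrL.n)))))))) (by decide +kernel)
theorem sv0 : StarV sI cl5 cl5 cl9 t0 t2 t0 :=
  (bt_n (bt_n (bt_n (bt_b bx0_0) (bt_b bx0_1)) (bt_n (bt_b bx0_2) (bt_b bx0_3))) (bt_n (bt_n (bt_b bx0_4) (bt_b bx0_5)) (bt_n (bt_b bx0_6) (bt_n (bt_b bx0_7) (bt_b bx0_8)))))
def S0 : StarD := StarD.mk cl5 cl5 cl9 0 2 t0
theorem bx1_0 : BoxOK sI cl5 cl9 cl5 t2 t0 b1_0 :=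
  box_mk (TrL.c (I.pos (nat_lit 0) (nat_lit 0)) (xa (xa T2.l0 T2.l0) (xa T2.l0 T2.l0))
  (TrL.c (I.pos (nat_lit 0) (nat_lit 0)) (xa T0.l5 (xa T0.l5 T0.l5))
  (TrL.c (I.pos (nat_lit 0) (nat_lit 0)) T2.l7
  (TrL.c (I.pos (nat_lit 0) (nat_lit 0)) T0.l6
  (TrL.c (I.pos (nat_lit 0) (nat_lit 0)) (xa T0.l8 (xb (xa T0.l8 T0.l8) (xa T0.l8 T0.l8)))
  (TrL.c (I.pos (nat_lit 0) (nat_lit 0)) (xa T2.l8 T2.l8)
  (TrL.c (I.pos (nat_lit 0) (nat_lit 0)) T0.l7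
  (TrL.c (I.pos (nat_lit 0) (nat_lit 0)) T2.l9
  TrL.n)))))))) (by decide +kernel)
theorem bx1_1 : BoxOK sI cl5 cl9 cl5 t2 t0 b1_1 :=
  box_mk (TrL.c (I.pos (nat_lit 0) (nat_lit 0)) T2.l0
  (TrL.c (I.pos (nat_lit 0) (nat_lit 0)) T0.l5
  (TrL.c (I.pos (nat_lit 0) (nat_lit 0)) T2.l7
  (TrL.c (I.pos (nat_lit 0) (nat_lit 0)) T0.l6
  (TrL.c (I.pos (nat_lit 0) (nat_lit 0)) T0.l8
  (TrL.c (I.pos (nat_lit 0) (nat_lit 0)) T2.l8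
  (TrL.c (I.pos (nat_lit 0) (nat_lit 0)) T0.l7
  (TrL.c (I.pos (nat_lit 0) (nat_lit 0)) T2.l9
  TrL.n)))))))) (by decide +kernel)
theorem bx1_2 : BoxOK sI cl5 cl9 cl5 t2 t0 b1_2 :=
  box_mk (TrL.c (I.pos (nat_lit 0) (nat_lit 0)) (xa T2.l0 T2.l0)
  (TrL.c (I.pos (nat_lit 0) (nat_lit 0)) T0.l5
  (TrL.c (I.pos (nat_lit 0) (nat_lit 0)) T2.l7
  (TrL.c (I.pos (nat_lit 0) (nat_lit 0)) T0.l6
  (TrL.c (I.pos (nat_lit 0) (nat_lit 0)) (xa T0.l8 T0.l8)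
  (TrL.c (I.pos (nat_lit 0) (nat_lit 0)) T2.l8
  (TrL.c (I.pos (nat_lit 0) (nat_lit 0)) T0.l7
  (TrL.c (I.pos (nat_lit 0) (nat_lit 0)) T2.l9
  TrL.n)))))))) (by decide +kernel)
theorem bx1_3 : BoxOK sI cl5 cl9 cl5 t2 t0 b1_3 :=
  box_mk (TrL.c (I.pos (nat_lit 0) (nat_lit 0)) (xa T2.l0 T2.l0)
  (TrL.c (I.pos (nat_lit 0) (nat_lit 0)) T0.l5
  (TrL.c (I.pos (nat_lit 0) (nat_lit 0)) T2.l7
  (TrL.c (I.pos (nat_lit 0) (nat_lit 0)) T0.l6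
  (TrL.c (I.pos (nat_lit 0) (nat_lit 0)) T0.l8
  (TrL.c (I.pos (nat_lit 0) (nat_lit 0)) T2.l8
  (TrL.c (I.pos (nat_lit 0) (nat_lit 0)) T0.l7
  (TrL.c (I.pos (nat_lit 0) (nat_lit 0)) T2.l9
  TrL.n)))))))) (by decide +kernel)
theorem bx1_4 : BoxOK sI cl5 cl9 cl5 t2 t0 b1_4 :=
  box_mk (TrL.c (I.pos (nat_lit 0) (nat_lit 0)) (xb (xa (xb (xb (xs T2.l0 (xa T2.l0 T2.l0)) T2.l0) (xb T2.l0 T2.l0)) (xb (xs T2.l0 (xb (xa (xs T2.l0 T2.l0) (xs T2.l0 T2.l0)) T2.l0)) (xb (xs T2.l0 (xa T2.l0 T2.l0)) (xs T2.l0 T2.l0)))) (xa (xb T2.l0 T2.l0) T2.l0))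
  (TrL.c (I.pos (nat_lit 0) (nat_lit 0)) (xb T0.l5 T0.l5)
  (TrL.c (I.pos (nat_lit 0) (nat_lit 0)) T2.l7
  (TrL.c (I.pos (nat_lit 0) (nat_lit 0)) T0.l6
  (TrL.c (I.pos (nat_lit 0) (nat_lit 0)) (xb T0.l8 T0.l8)
  (TrL.c (I.pos (nat_lit 0) (nat_lit 0)) T2.l8
  (TrL.c (I.pos (nat_lit 0) (nat_lit 0)) T0.l7
  (TrL.c (I.pos (nat_lit 0) (nat_lit 0)) T2.l9
  TrL.n)))))))) (by decide +kernel)
theorem bx1_5 : BoxOK sI cl5 cl9 cl5 t2 t0 b1_5 :=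
  box_mk (TrL.c (I.pos (nat_lit 0) (nat_lit 0)) T2.l0
  (TrL.c (I.pos (nat_lit 0) (nat_lit 0)) T0.l5
  (TrL.c (I.pos (nat_lit 0) (nat_lit 0)) T2.l7
  (TrL.c (I.pos (nat_lit 0) (nat_lit 0)) T0.l6
  (TrL.c (I.pos (nat_lit 0) (nat_lit 0)) T0.l8
  (TrL.c (I.pos (nat_lit 0) (nat_lit 0)) T2.l8
  (TrL.c (I.pos (nat_lit 0) (nat_lit 0)) T0.l7
  (TrL.c (I.pos (nat_lit 0) (nat_lit 0)) T2.l9
  TrL.n)))))))) (by decide +kernel)
theorem bx1_6 : BoxOK sI cl5 cl9 cl5 t2 t0 b1_6 :=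
  box_mk (TrL.c (I.pos (nat_lit 0) (nat_lit 0)) (xa (xa T2.l0 T2.l0) T2.l0)
  (TrL.c (I.pos (nat_lit 0) (nat_lit 0)) (xa T0.l5 T0.l5)
  (TrL.c (I.pos (nat_lit 0) (nat_lit 0)) T2.l7
  (TrL.c (I.pos (nat_lit 0) (nat_lit 0)) T0.l6
  (TrL.c (I.pos (nat_lit 0) (nat_lit 0)) (xa T0.l8 T0.l8)
  (TrL.c (I.pos (nat_lit 0) (nat_lit 0)) T2.l8
  (TrL.c (I.pos (nat_lit 0) (nat_lit 0)) T0.l7
  (TrL.c (I.pos (nat_lit 0) (nat_lit 0)) T2.l9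
  TrL.n)))))))) (by decide +kernel)
theorem bx1_7 : BoxOK sI cl5 cl9 cl5 t2 t0 b1_7 :=
  box_mk (TrL.c (I.pos (nat_lit 0) (nat_lit 0)) (xa (xa T2.l0 T2.l0) T2.l0)
  (TrL.c (I.pos (nat_lit 0) (nat_lit 0)) T0.l5
  (TrL.c (I.pos (nat_lit 0) (nat_lit 0)) T2.l7
  (TrL.c (I.pos (nat_lit 0) (nat_lit 0)) T0.l6
  (TrL.c (I.pos (nat_lit 0) (nat_lit 0)) T0.l8
  (TrL.c (I.pos (nat_lit 0) (nat_lit 0)) T2.l8
  (TrL.c (I.pos (nat_lit 0) (nat_lit 0)) T0.l7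
  (TrL.c (I.pos (nat_lit 0) (nat_lit 0)) T2.l9
  TrL.n)))))))) (by decide +kernel)
theorem bx1_8 : BoxOK sI cl5 cl9 cl5 t2 t0 b1_8 :=
  box_mk (TrL.c (I.pos (nat_lit 0) (nat_lit 0)) T2.l0
  (TrL.c (I.pos (nat_lit 0) (nat_lit 0)) T0.l5
  (TrL.c (I.pos (nat_lit 0) (nat_lit 0)) T2.l7
  (TrL.c (I.pos (nat_lit 0) (nat_lit 0)) T0.l6
  (TrL.c (I.pos (nat_lit 0) (nat_lit 0)) T0.l8
  (TrL.c (I.pos (nat_lit 0) (nat_lit 0)) T2.l8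
  (TrL.c (I.pos (nat_lit 0) (nat_lit 0)) T0.l7
  (TrL.c (I.pos (nat_lit 0) (nat_lit 0)) T2.l9
  TrL.n)))))))) (by decide +kernel)
theorem bx1_9 : BoxOK sI cl5 cl9 cl5 t2 t0 b1_9 :=
  box_mk (TrL.c (I.pos (nat_lit 0) (nat_lit 0)) T2.l0
  (TrL.c (I.pos (nat_lit 0) (nat_lit 0)) T0.l5
  (TrL.c (I.pos (nat_lit 0) (nat_lit 0)) T2.l7
  (TrL.c (I.pos (nat_lit 0) (nat_lit 0)) T0.l6
  (TrL.c (I.pos (nat_lit 0) (nat_lit 0)) T0.l8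
  (TrL.c (I.pos (nat_lit 0) (nat_lit 0)) T2.l8
  (TrL.c (I.pos (nat_lit 0) (nat_lit 0)) T0.l7
  (TrL.c (I.pos (nat_lit 0) (nat_lit 0)) T2.l9
  TrL.n)))))))) (by decide +kernel)
theorem bx1_10 : BoxOK sI cl5 cl9 cl5 t2 t0 b1_10 :=
  box_mk (TrL.c (I.pos (nat_lit 0) (nat_lit 0)) T2.l0
  (TrL.c (I.pos (nat_lit 0) (nat_lit 0)) T0.l5
  (TrL.c (I.pos (nat_lit 0) (nat_lit 0)) T2.l7
  (TrL.c (I.pos (nat_lit 0) (nat_lit 0)) T0.l6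
  (TrL.c (I.pos (nat_lit 0) (nat_lit 0)) T0.l8
  (TrL.c (I.pos (nat_lit 0) (nat_lit 0)) T2.l8
  (TrL.c (I.pos (nat_lit 0) (nat_lit 0)) T0.l7
  (TrL.c (I.pos (nat_lit 0) (nat_lit 0)) T2.l9
  TrL.n)))))))) (by decide +kernel)
theorem bx1_11 : BoxOK sI cl5 cl9 cl5 t2 t0 b1_11 :=
  box_mk (TrL.c (I.pos (nat_lit 0) (nat_lit 0)) T2.l0
  (TrL.c (I.pos (nat_lit 0) (nat_lit 0)) T0.l5
  (TrL.c (I.pos (nat_lit 0) (nat_lit 0)) T2.l7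
  (TrL.c (I.pos (nat_lit 0) (nat_lit 0)) T0.l6
  (TrL.c (I.pos (nat_lit 0) (nat_lit 0)) T0.l8
  (TrL.c (I.pos (nat_lit 0) (nat_lit 0)) T2.l8
  (TrL.c (I.pos (nat_lit 0) (nat_lit 0)) T0.l7
  (TrL.c (I.pos (nat_lit 0) (nat_lit 0)) T2.l9
  TrL.n)))))))) (by decide +kernel)
theorem sv1 : StarV sI cl5 cl9 cl5 t2 t0 t1 :=
  (bt_n (bt_n (bt_n (bt_b bx1_0) (bt_n (bt_b bx1_1) (bt_b bx1_2))) (bt_n (bt_b bx1_3) (bt_n (bt_b bx1_4) (bt_b bx1_5)))) (bt_n (bt_n (bt_b bx1_6) (bt_n (bt_b bx1_7) (bt_b bx1_8))) (bt_n (bt_b bx1_9) (bt_n (bt_b bx1_10) (bt_b bx1_11)))))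
def S1 : StarD := StarD.mk cl5 cl9 cl5 2 0 t1
theorem bx2_0 : BoxOK sI cl9 cl5 cl5 t1 t1 b2_0 :=
  box_mk (TrL.c (I.pos (nat_lit 0) (nat_lit 0)) (xa (xa (xb T1.l0 T1.l0) (xb T1.l0 T1.l0)) (xa T1.l0 T1.l0))
  (TrL.c (I.pos (nat_lit 0) (nat_lit 0)) (xa (xa T1.l1 T1.l1) (xa (xb T1.l1 T1.l1) (xb T1.l1 T1.l1)))
  (TrL.c (I.pos (nat_lit 0) (nat_lit 124588530)) (xR T1.l6 (xR T1.l2 T1.l2))
  (TrL.c (I.pos (nat_lit 0) (nat_lit 96881482)) (xR T1.l3 (xR T1.l3 T1.l3))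
  (TrL.c (I.pos (nat_lit 0) (nat_lit 0)) (xa (xb (xa T1.l4 T1.l4) T1.l4) (xb (xa (xk T1.l4 T1.l4) (xk (xb T1.l4 T1.l4) (xb T1.l4 T1.l4))) (xa (xb T1.l4 (xk T1.l4 (xs T1.l4 T1.l4))) (xk (xb T1.l4 (xs T1.l4 (xa T1.l4 (xk T1.l4 T1.l4)))) (xa (xb T1.l4 (xs T1.l4 T1.l4)) (xb T1.l4 (xs (xk T1.l4 T1.l4) (xk (xb T1.l4 T1.l4) (xb T1.l4 (xs T1.l4 T1.l4))))))))))
  (TrL.c (I.pos (nat_lit 0) (nat_lit 0)) (xk (xa T1.l5 T1.l5) (xa T1.l5 T1.l5))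
  (TrL.c (I.mix (nat_lit 17240550) (nat_lit 96881482)) (xR T1.l6 (xR T1.l6 T1.l6))
  (TrL.c (I.mix (nat_lit 17240550) (nat_lit 71940500)) (xR T1.l7 T1.l7)
  TrL.n)))))))) (by decide +kernel)
theorem bx2_1 : BoxOK sI cl9 cl5 cl5 t1 t1 b2_1 :=
  box_mk (TrL.c (I.pos (nat_lit 0) (nat_lit 0)) T1.l0
  (TrL.c (I.pos (nat_lit 0) (nat_lit 0)) T1.l1
  (TrL.c (I.pos (nat_lit 0) (nat_lit 124588530)) (xR T1.l2 T1.l2)
  (TrL.c (I.pos (nat_lit 0) (nat_lit 96881482)) (xR T1.l3 T1.l3)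
  (TrL.c (I.pos (nat_lit 0) (nat_lit 0)) T1.l4
  (TrL.c (I.pos (nat_lit 0) (nat_lit 0)) T1.l5
  (TrL.c (I.mix (nat_lit 17240550) (nat_lit 96881482)) (xR T1.l6 T1.l6)
  (TrL.c (I.mix (nat_lit 17240550) (nat_lit 71940500)) T1.l7
  TrL.n)))))))) (by decide +kernel)
theorem bx2_2 : BoxOK sI cl9 cl5 cl5 t1 t1 b2_2 :=
  box_mk (TrL.c (I.pos (nat_lit 0) (nat_lit 0)) T1.l1
  (TrL.c (I.pos (nat_lit 0) (nat_lit 0)) T1.l2
  (TrL.c (I.mix (nat_lit 17240550) (nat_lit 96881482)) (xR T1.l10 T1.l3)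
  (TrL.c (I.mix (nat_lit 17240550) (nat_lit 71940500)) T1.l6
  TrL.n)))) (by decide +kernel)
theorem bx2_3 : BoxOK sI cl9 cl5 cl5 t1 t1 b2_3 :=
  box_mk (TrL.c (I.pos (nat_lit 0) (nat_lit 0)) (xb T1.l0 (xa T1.l0 T1.l0))
  (TrL.c (I.pos (nat_lit 0) (nat_lit 0)) (xb T1.l1 T1.l1)
  (TrL.c (I.pos (nat_lit 0) (nat_lit 124588530)) (xR T1.l2 (xR T1.l2 T1.l2))
  (TrL.c (I.pos (nat_lit 0) (nat_lit 96881482)) (xR T1.l3 (xR T1.l3 T1.l3))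
  (TrL.c (I.pos (nat_lit 0) (nat_lit 0)) (xb T1.l4 T1.l4)
  (TrL.c (I.pos (nat_lit 0) (nat_lit 0)) T1.l5
  (TrL.c (I.mix (nat_lit 17240550) (nat_lit 96881482)) (xR T1.l6 T1.l6)
  (TrL.c (I.mix (nat_lit 17240550) (nat_lit 71940500)) T1.l7
  TrL.n)))))))) (by decide +kernel)
theorem bx2_4 : BoxOK sI cl9 cl5 cl5 t1 t1 b2_4 :=
  box_mk (TrL.c (I.pos (nat_lit 0) (nat_lit 0)) T1.l0
  (TrL.c (I.pos (nat_lit 0) (nat_lit 0)) T1.l1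
  (TrL.c (I.pos (nat_lit 0) (nat_lit 124588530)) T1.l2
  (TrL.c (I.pos (nat_lit 0) (nat_lit 96881482)) T1.l3
  (TrL.c (I.pos (nat_lit 0) (nat_lit 0)) T1.l4
  (TrL.c (I.pos (nat_lit 0) (nat_lit 0)) T1.l5
  (TrL.c (I.mix (nat_lit 17240550) (nat_lit 96881482)) T1.l6
  (TrL.c (I.mix (nat_lit 17240550) (nat_lit 71940500)) T1.l6
  TrL.n)))))))) (by decide +kernel)
theorem bx2_5 : BoxOK sI cl9 cl5 cl5 t1 t1 b2_5 :=
  box_mk (TrL.c (I.pos (nat_lit 0) (nat_lit 0)) T1.l0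
  (TrL.c (I.pos (nat_lit 0) (nat_lit 0)) T1.l1
  (TrL.c (I.pos (nat_lit 0) (nat_lit 124588530)) (xR T1.l2 T1.l2)
  (TrL.c (I.pos (nat_lit 0) (nat_lit 96881482)) T1.l3
  (TrL.c (I.pos (nat_lit 0) (nat_lit 0)) T1.l4
  (TrL.c (I.pos (nat_lit 0) (nat_lit 0)) T1.l5
  (TrL.c (I.mix (nat_lit 17240550) (nat_lit 96881482)) (xR T1.l6 T1.l6)
  (TrL.c (I.mix (nat_lit 17240550) (nat_lit 71940500)) T1.l7
  TrL.n)))))))) (by decide +kernel)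
theorem bx2_6 : BoxOK sI cl9 cl5 cl5 t1 t1 b2_6 :=
  box_mk (TrL.c (I.pos (nat_lit 0) (nat_lit 0)) T1.l8
  (TrL.c (I.pos (nat_lit 0) (nat_lit 0)) T1.l2
  (TrL.c (I.mix (nat_lit 17240550) (nat_lit 96881482)) T1.l6
  (TrL.c (I.mix (nat_lit 17240550) (nat_lit 71940500)) T1.l6
  TrL.n)))) (by decide +kernel)
theorem bx2_7 : BoxOK sI cl9 cl5 cl5 t1 t1 b2_7 :=
  box_mk (TrL.c (I.pos (nat_lit 0) (nat_lit 0)) T1.l0
  (TrL.c (I.pos (nat_lit 0) (nat_lit 0)) T1.l1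
  (TrL.c (I.pos (nat_lit 0) (nat_lit 124588530)) T1.l2
  (TrL.c (I.pos (nat_lit 0) (nat_lit 96881482)) T1.l3
  (TrL.c (I.pos (nat_lit 0) (nat_lit 0)) T1.l4
  (TrL.c (I.pos (nat_lit 0) (nat_lit 0)) T1.l5
  (TrL.c (I.mix (nat_lit 17240550) (nat_lit 96881482)) T1.l6
  (TrL.c (I.mix (nat_lit 17240550) (nat_lit 71940500)) T1.l7
  TrL.n)))))))) (by decide +kernel)
theorem bx2_8 : BoxOK sI cl9 cl5 cl5 t1 t1 b2_8 :=
  box_mk (TrL.c (I.pos (nat_lit 0) (nat_lit 0)) T1.l0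
  (TrL.c (I.pos (nat_lit 0) (nat_lit 0)) T1.l1
  (TrL.c (I.pos (nat_lit 0) (nat_lit 124588530)) (xR T1.l2 T1.l2)
  (TrL.c (I.pos (nat_lit 0) (nat_lit 96881482)) (xR T1.l3 T1.l3)
  (TrL.c (I.pos (nat_lit 0) (nat_lit 0)) T1.l4
  (TrL.c (I.pos (nat_lit 0) (nat_lit 0)) T1.l5
  (TrL.c (I.mix (nat_lit 17240550) (nat_lit 96881482)) T1.l6
  (TrL.c (I.mix (nat_lit 17240550) (nat_lit 71940500)) T1.l7
  TrL.n)))))))) (by decide +kernel)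
theorem bx2_9 : BoxOK sI cl9 cl5 cl5 t1 t1 b2_9 :=
  box_mk (TrL.c (I.pos (nat_lit 0) (nat_lit 0)) T1.l1
  (TrL.c (I.pos (nat_lit 0) (nat_lit 0)) T1.l2
  (TrL.c (I.mix (nat_lit 17240550) (nat_lit 96881482)) (xR T1.l6 T1.l3)
  (TrL.c (I.mix (nat_lit 17240550) (nat_lit 71940500)) T1.l6
  TrL.n)))) (by decide +kernel)
theorem sv2 : StarV sI cl9 cl5 cl5 t1 t1 t2 :=
  (bt_n (bt_n (bt_n (bt_b bx2_0) (bt_b bx2_1)) (bt_n (bt_b bx2_2) (bt_n (bt_b bx2_3) (bt_b bx2_4)))) (bt_n (bt_n (bt_b bx2_5) (bt_b bx2_6)) (bt_n (bt_b bx2_7) (bt_n (bt_b bx2_8) (bt_b bx2_9)))))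
def S2 : StarD := StarD.mk cl9 cl5 cl5 1 1 t2
def G : List StarD := [S0, S1, S2]
theorem so0 : StarOK sI G S0 :=
  star_mk (by decide) (by decide) rfl rfl rfl rfl rfl rfl (rfl : _ = t0) (rfl : _ = t2)
  (st_mk (Pth.l (Pth.l (Pth.l Pth.z))) (nat_lit 244766271) (nat_lit 246173318) (by decide +kernel))
  (st_mk (Pth.l (Pth.l (Pth.l Pth.z))) (nat_lit 281755661) (nat_lit 283635869) (by decide +kernel))
  (st_mk (Pth.l (Pth.l (Pth.l Pth.z))) (nat_lit 324828507) (nat_lit 327354462) (by decide +kernel)) sv0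
theorem so1 : StarOK sI G S1 :=
  star_mk (by decide) (by decide) rfl rfl rfl rfl rfl rfl (rfl : _ = t2) (rfl : _ = t0)
  (st_mk (Pth.l (Pth.l (Pth.l Pth.z))) (nat_lit 117308210) (nat_lit 136336698) (by decide +kernel))
  (st_mk (Pth.l (Pth.l (Pth.l Pth.z))) (nat_lit 153786656) (nat_lit 173281494) (by decide +kernel))
  (st_mk (Pth.l (Pth.l (Pth.l Pth.z))) (nat_lit 196438166) (nat_lit 216571990) (by decide +kernel)) sv1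
theorem so2 : StarOK sI G S2 :=
  star_mk (by decide) (by decide) rfl rfl rfl rfl rfl rfl (rfl : _ = t1) (rfl : _ = t1)
  (st_mk (Pth.l (Pth.l (Pth.l Pth.z))) (nat_lit 239303130) (nat_lit 241229401) (by decide +kernel))
  (st_mk (Pth.l (Pth.l (Pth.l Pth.z))) (nat_lit 274592082) (nat_lit 276962195) (by decide +kernel))
  (st_mk (Pth.l (Pth.l (Pth.l Pth.z))) (nat_lit 315377915) (nat_lit 318340035) (by decide +kernel)) sv2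
theorem ok : GroupOK (nat_lit 91226112) (nat_lit 150339584) G := grp_mk (allS_c so0 (allS_c so1 (allS_c so2 allS_n)))
theorem cov : GCov G cl5 cl5 cl9 := cov_mk
  ⟨0, by decide, rfl, rfl, rfl⟩ ⟨1, by decide, rfl, rfl, rfl⟩ ⟨0, by decide, rfl, rfl, rfl⟩ ⟨1, by decide, rfl, rfl, rfl⟩ ⟨2, by decide, rfl, rfl, rfl⟩ ⟨2, by decide, rfl, rfl, rfl⟩
end Q225_1

namespace Q225_2
def sI : I := I.pos (nat_lit 150274048) (nat_lit 209387520)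
def b0_0 : Bx := Bx.mk (St.mk (I.pos (nat_lit 151240704) (nat_lit 229376000)) (I.mix (nat_lit 278528) (nat_lit 81526784)) (I.mix (nat_lit 278528) (nat_lit 83738624)) (I.pos (nat_lit 245071872) (nat_lit 352911360)) (I.mix (nat_lit 146210816) (nat_lit 100466688)) (I.mix (nat_lit 86687744) (nat_lit 87801856)) (I.mix (nat_lit 124256256) (nat_lit 128991232)))
  false (nat_lit 48459368)
def b0_1 : Bx := Bx.mk (St.mk (I.pos (nat_lit 25591808) (nat_lit 65568768)) (I.mix (nat_lit 1982464) (nat_lit 45891584)) (I.neg (nat_lit 6733824) (nat_lit 31408128)) (I.pos (nat_lit 143474688) (nat_lit 159825920)) (I.mix (nat_lit 39862272) (nat_lit 64536576)) (I.mix (nat_lit 47349760) (nat_lit 38813696)) (I.mix (nat_lit 26066944) (nat_lit 17481728)))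
  false (nat_lit 0)
def b0_2 : Bx := Bx.mk (St.mk (I.pos (nat_lit 54509568) (nat_lit 95928320)) (I.mix (nat_lit 60211200) (nat_lit 4423680)) (I.neg (nat_lit 25264128) (nat_lit 66109440)) (I.pos (nat_lit 150536192) (nat_lit 179863552)) (I.mix (nat_lit 104480768) (nat_lit 40681472)) (I.mix (nat_lit 43614208) (nat_lit 81657856)) (I.mix (nat_lit 33013760) (nat_lit 50888704)))
  false (nat_lit 0)
def b0_3 : Bx := Bx.mk (St.mk (I.neg (nat_lit 25591808) (nat_lit 69140480)) (I.mix (nat_lit 45891584) (nat_lit 4079616)) (I.neg (nat_lit 6733824) (nat_lit 33308672)) (I.pos (nat_lit 143474688) (nat_lit 160727040)) (I.mix (nat_lit 64536576) (nat_lit 39862272)) (I.mix (nat_lit 38813696) (nat_lit 47349760)) (I.mix (nat_lit 26099712) (nat_lit 17481728)))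
  true (nat_lit 0)
def b0_4 : Bx := Bx.mk (St.mk (I.pos (nat_lit 189939712) (nat_lit 270270464)) (I.mix (nat_lit 7995392) (nat_lit 44924928)) (I.mix (nat_lit 95387648) (nat_lit 16842752)) (I.pos (nat_lit 299286528) (nat_lit 428539904)) (I.mix (nat_lit 106577920) (nat_lit 68845568)) (I.mix (nat_lit 74743808) (nat_lit 72433664)) (I.mix (nat_lit 110198784) (nat_lit 123650048)))
  false (nat_lit 5807553)
def b0_5 : Bx := Bx.mk (St.mk (I.pos (nat_lit 52625408) (nat_lit 69369856)) (I.mix (nat_lit 4358144) (nat_lit 16629760)) (I.neg (nat_lit 19562496) (nat_lit 33538048)) (I.pos (nat_lit 150732800) (nat_lit 160825344)) (I.mix (nat_lit 17465344) (nat_lit 24920064)) (I.mix (nat_lit 17727488) (nat_lit 16482304)) (I.mix (nat_lit 9388032) (nat_lit 9977856)))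
  false (nat_lit 0)
def b0_6 : Bx := Bx.mk (St.mk (I.pos (nat_lit 59981824) (nat_lit 153894912)) (I.mix (nat_lit 71319552) (nat_lit 819200)) (I.neg (nat_lit 10600448) (nat_lit 76873728)) (I.pos (nat_lit 157564928) (nat_lit 234504192)) (I.mix (nat_lit 110772224) (nat_lit 71467008)) (I.mix (nat_lit 59801600) (nat_lit 87752704)) (I.mix (nat_lit 48594944) (nat_lit 77676544)))
  false (nat_lit 0)
def b0_7 : Bx := Bx.mk (St.mk (I.mix (nat_lit 41025536) (nat_lit 10174464)) (I.mix (nat_lit 39993344) (nat_lit 10469376)) (I.neg (nat_lit 7553024) (nat_lit 15859712)) (I.pos (nat_lit 141737984) (nat_lit 153747456)) (I.mix (nat_lit 40042496) (nat_lit 49430528)) (I.mix (nat_lit 31375360) (nat_lit 47890432)) (I.mix (nat_lit 8060928) (nat_lit 8896512)))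
  true (nat_lit 0)
def b0_8 : Bx := Bx.mk (St.mk (I.mix (nat_lit 10174464) (nat_lit 41041920)) (I.mix (nat_lit 10469376) (nat_lit 39993344)) (I.neg (nat_lit 7553024) (nat_lit 15859712)) (I.pos (nat_lit 141737984) (nat_lit 153747456)) (I.mix (nat_lit 49430528) (nat_lit 40042496)) (I.mix (nat_lit 47890432) (nat_lit 31375360)) (I.mix (nat_lit 8060928) (nat_lit 8896512)))
  false (nat_lit 0)
def b0_9 : Bx := Bx.mk (St.mk (I.pos (nat_lit 149602304) (nat_lit 203653120)) (I.pos (nat_lit 2523136) (nat_lit 65323008)) (I.mix (nat_lit 327680) (nat_lit 70287360)) (I.pos (nat_lit 240861184) (nat_lit 306987008)) (I.mix (nat_lit 146243584) (nat_lit 56623104)) (I.mix (nat_lit 140148736) (nat_lit 78790656)) (I.mix (nat_lit 132284416) (nat_lit 83640320)))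
  false (nat_lit 0)
def b0_10 : Bx := Bx.mk (St.mk (I.pos (nat_lit 116834304) (nat_lit 193200128)) (I.mix (nat_lit 47316992) (nat_lit 22462464)) (I.mix (nat_lit 60014592) (nat_lit 15548416)) (I.pos (nat_lit 197443584) (nat_lit 282492928)) (I.mix (nat_lit 87801856) (nat_lit 73170944)) (I.mix (nat_lit 81772544) (nat_lit 69894144)) (I.mix (nat_lit 80658432) (nat_lit 64077824)))
  false (nat_lit 0)
def b0_11 : Bx := Bx.mk (St.mk (I.pos (nat_lit 148422656) (nat_lit 195117056)) (I.mix (nat_lit 3833856) (nat_lit 48791552)) (I.mix (nat_lit 13778944) (nat_lit 52002816)) (I.pos (nat_lit 242073600) (nat_lit 287948800)) (I.mix (nat_lit 151011328) (nat_lit 82853888)) (I.mix (nat_lit 156745728) (nat_lit 84590592)) (I.mix (nat_lit 151420928) (nat_lit 84459520)))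
  false (nat_lit 0)
def b0_12 : Bx := Bx.mk (St.mk (I.pos (nat_lit 173129728) (nat_lit 232964096)) (I.pos (nat_lit 9420800) (nat_lit 77971456)) (I.mix (nat_lit 28540928) (nat_lit 71680000)) (I.pos (nat_lit 291373056) (nat_lit 350535680)) (I.mix (nat_lit 124207104) (nat_lit 91652096)) (I.mix (nat_lit 107134976) (nat_lit 65798144)) (I.mix (nat_lit 166526976) (nat_lit 99237888)))
  false (nat_lit 30799736)
def t0 : BTr := (BTr.n (BTr.n (BTr.n (BTr.b b0_0) (BTr.n (BTr.b b0_1) (BTr.b b0_2))) (BTr.n (BTr.b b0_3) (BTr.n (BTr.b b0_4) (BTr.b b0_5)))) (BTr.n (BTr.n (BTr.b b0_6) (BTr.n (BTr.b b0_7) (BTr.b b0_8))) (BTr.n (BTr.n (BTr.b b0_9) (BTr.b b0_10)) (BTr.n (BTr.b b0_11) (BTr.b b0_12)))))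
namespace T0
def l0 : Tr := Tr.L (Pth.l (Pth.l (Pth.l Pth.z)))
def l1 : Tr := Tr.L (Pth.l (Pth.l (Pth.r (Pth.l Pth.z))))
def l2 : Tr := Tr.L (Pth.l (Pth.l (Pth.r (Pth.r Pth.z))))
def l3 : Tr := Tr.L (Pth.l (Pth.r (Pth.l Pth.z)))
def l4 : Tr := Tr.L (Pth.l (Pth.r (Pth.r (Pth.l Pth.z))))
def l5 : Tr := Tr.L (Pth.l (Pth.r (Pth.r (Pth.r Pth.z))))
def l6 : Tr := Tr.L (Pth.r (Pth.l (Pth.l Pth.z)))
def l7 : Tr := Tr.L (Pth.r (Pth.l (Pth.r (Pth.l Pth.z))))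
def l8 : Tr := Tr.L (Pth.r (Pth.l (Pth.r (Pth.r Pth.z))))
def l9 : Tr := Tr.L (Pth.r (Pth.r (Pth.l (Pth.l Pth.z))))
def l10 : Tr := Tr.L (Pth.r (Pth.r (Pth.l (Pth.r Pth.z))))
def l11 : Tr := Tr.L (Pth.r (Pth.r (Pth.r (Pth.l Pth.z))))
def l12 : Tr := Tr.L (Pth.r (Pth.r (Pth.r (Pth.r Pth.z))))
end T0
def b1_0 : Bx := Bx.mk (St.mk (I.pos (nat_lit 153436160) (nat_lit 236306432)) (I.mix (nat_lit 278528) (nat_lit 53444608)) (I.mix (nat_lit 278528) (nat_lit 94011392)) (I.pos (nat_lit 117669888) (nat_lit 244662272)) (I.mix (nat_lit 133054464) (nat_lit 75563008)) (I.mix (nat_lit 97009664) (nat_lit 79757312)) (I.mix (nat_lit 130351104) (nat_lit 108445696)))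
  false (nat_lit 25078402)
def b1_1 : Bx := Bx.mk (St.mk (I.pos (nat_lit 93798400) (nat_lit 174194688)) (I.mix (nat_lit 60719104) (nat_lit 5095424)) (I.neg (nat_lit 3735552) (nat_lit 57819136)) (I.pos (nat_lit 75841536) (nat_lit 153616384)) (I.mix (nat_lit 111034368) (nat_lit 56066048)) (I.mix (nat_lit 57131008) (nat_lit 83050496)) (I.mix (nat_lit 46481408) (nat_lit 67289088)))
  false (nat_lit 39770078)
def b1_2 : Bx := Bx.mk (St.mk (I.mix (nat_lit 44892160) (nat_lit 128417792)) (I.mix (nat_lit 2801664) (nat_lit 34865152)) (I.mix (nat_lit 4898816) (nat_lit 28524544)) (I.pos (nat_lit 13615104) (nat_lit 98025472)) (I.mix (nat_lit 64307200) (nat_lit 45924352)) (I.mix (nat_lit 45056000) (nat_lit 37699584)) (I.mix (nat_lit 32882688) (nat_lit 29573120)))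
  false (nat_lit 0)
def b1_3 : Bx := Bx.mk (St.mk (I.mix (nat_lit 34078720) (nat_lit 99991552)) (I.mix (nat_lit 31768576) (nat_lit 6324224)) (I.mix (nat_lit 21610496) (nat_lit 2310144)) (I.pos (nat_lit 14434304) (nat_lit 73859072)) (I.mix (nat_lit 48152576) (nat_lit 33636352)) (I.mix (nat_lit 27803648) (nat_lit 32784384)) (I.mix (nat_lit 17694720) (nat_lit 19677184)))
  false (nat_lit 0)
def b1_4 : Bx := Bx.mk (St.mk (I.pos (nat_lit 164478976) (nat_lit 215531520)) (I.mix (nat_lit 15499264) (nat_lit 54296576)) (I.pos (nat_lit 2162688) (nat_lit 90537984)) (I.pos (nat_lit 126320640) (nat_lit 214368256)) (I.mix (nat_lit 154206208) (nat_lit 69058560)) (I.mix (nat_lit 140148736) (nat_lit 94568448)) (I.mix (nat_lit 157892608) (nat_lit 97533952)))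
  false (nat_lit 0)
def b1_5 : Bx := Bx.mk (St.mk (I.pos (nat_lit 104284160) (nat_lit 156352512)) (I.mix (nat_lit 59162624) (nat_lit 2768896)) (I.mix (nat_lit 57704448) (nat_lit 131072)) (I.pos (nat_lit 66043904) (nat_lit 126910464)) (I.mix (nat_lit 117555200) (nat_lit 47562752)) (I.mix (nat_lit 60096512) (nat_lit 101253120)) (I.mix (nat_lit 44990464) (nat_lit 79790080)))
  false (nat_lit 26311666)
def b1_6 : Bx := Bx.mk (St.mk (I.mix (nat_lit 25051136) (nat_lit 129056768)) (I.mix (nat_lit 9764864) (nat_lit 42090496)) (I.mix (nat_lit 11845632) (nat_lit 31145984)) (I.pos (nat_lit 16744448) (nat_lit 93814784)) (I.mix (nat_lit 77512704) (nat_lit 52232192)) (I.mix (nat_lit 62095360) (nat_lit 49020928)) (I.mix (nat_lit 37847040) (nat_lit 30654464)))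
  false (nat_lit 0)
def b1_7 : Bx := Bx.mk (St.mk (I.mix (nat_lit 18251776) (nat_lit 93634560)) (I.neg (nat_lit 1490944) (nat_lit 28311552)) (I.mix (nat_lit 17563648) (nat_lit 2621440)) (I.pos (nat_lit 17317888) (nat_lit 68157440)) (I.mix (nat_lit 42598400) (nat_lit 26607616)) (I.mix (nat_lit 25690112) (nat_lit 31899648)) (I.mix (nat_lit 13647872) (nat_lit 16285696)))
  false (nat_lit 0)
def b1_8 : Bx := Bx.mk (St.mk (I.pos (nat_lit 194396160) (nat_lit 265682944)) (I.mix (nat_lit 9027584) (nat_lit 32587776)) (I.mix (nat_lit 17661952) (nat_lit 56705024)) (I.pos (nat_lit 193396736) (nat_lit 314163200)) (I.mix (nat_lit 89899008) (nat_lit 47955968)) (I.mix (nat_lit 59588608) (nat_lit 44580864)) (I.mix (nat_lit 96665600) (nat_lit 76201984)))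
  false (nat_lit 0)
def b1_9 : Bx := Bx.mk (St.mk (I.pos (nat_lit 154583040) (nat_lit 205160448)) (I.mix (nat_lit 35733504) (nat_lit 5505024)) (I.mix (nat_lit 31031296) (nat_lit 21528576)) (I.pos (nat_lit 115458048) (nat_lit 191528960)) (I.mix (nat_lit 67960832) (nat_lit 67502080)) (I.mix (nat_lit 68108288) (nat_lit 59506688)) (I.mix (nat_lit 71319552) (nat_lit 62111744)))
  false (nat_lit 39360887)
def b1_10 : Bx := Bx.mk (St.mk (I.pos (nat_lit 152698880) (nat_lit 173457408)) (I.neg (nat_lit 13893632) (nat_lit 35094528)) (I.neg (nat_lit 7602176) (nat_lit 32260096)) (I.pos (nat_lit 114638848) (nat_lit 152535040)) (I.mix (nat_lit 29032448) (nat_lit 15925248)) (I.mix (nat_lit 13680640) (nat_lit 16531456)) (I.mix (nat_lit 14925824) (nat_lit 18137088)))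
  false (nat_lit 0)
def b1_11 : Bx := Bx.mk (St.mk (I.pos (nat_lit 110592000) (nat_lit 125796352)) (I.mix (nat_lit 442368) (nat_lit 6832128)) (I.mix (nat_lit 3440640) (nat_lit 4374528)) (I.pos (nat_lit 66715648) (nat_lit 96567296)) (I.mix (nat_lit 5242880) (nat_lit 7438336)) (I.mix (nat_lit 3620864) (nat_lit 3031040)) (I.mix (nat_lit 3260416) (nat_lit 2260992)))
  false (nat_lit 0)
def b1_12 : Bx := Bx.mk (St.mk (I.mix (nat_lit 26689536) (nat_lit 99958784)) (I.mix (nat_lit 15482880) (nat_lit 2424832)) (I.mix (nat_lit 10043392) (nat_lit 2588672)) (I.pos (nat_lit 17334272) (nat_lit 73711616)) (I.mix (nat_lit 15450112) (nat_lit 13582336)) (I.mix (nat_lit 10223616) (nat_lit 10338304)) (I.mix (nat_lit 6799360) (nat_lit 6684672)))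
  false (nat_lit 0)
def b1_13 : Bx := Bx.mk (St.mk (I.pos (nat_lit 181927936) (nat_lit 236158976)) (I.pos (nat_lit 15351808) (nat_lit 50102272)) (I.pos (nat_lit 31539200) (nat_lit 87343104)) (I.pos (nat_lit 179535872) (nat_lit 243089408)) (I.mix (nat_lit 104136704) (nat_lit 78774272)) (I.mix (nat_lit 92094464) (nat_lit 68403200)) (I.mix (nat_lit 146079744) (nat_lit 83312640)))
  false (nat_lit 25799572)
def b1_14 : Bx := Bx.mk (St.mk (I.pos (nat_lit 169279488) (nat_lit 206962688)) (I.mix (nat_lit 19857408) (nat_lit 22642688)) (I.mix (nat_lit 4177920) (nat_lit 47316992)) (I.pos (nat_lit 131710976) (nat_lit 194854912)) (I.mix (nat_lit 95911936) (nat_lit 62013440)) (I.mix (nat_lit 105971712) (nat_lit 60964864)) (I.mix (nat_lit 120029184) (nat_lit 65355776)))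
  false (nat_lit 26281712)
def t1 : BTr := (BTr.n (BTr.n (BTr.n (BTr.b b1_0) (BTr.n (BTr.b b1_1) (BTr.b b1_2))) (BTr.n (BTr.n (BTr.b b1_3) (BTr.b b1_4)) (BTr.n (BTr.b b1_5) (BTr.b b1_6)))) (BTr.n (BTr.n (BTr.n (BTr.b b1_7) (BTr.b b1_8)) (BTr.n (BTr.b b1_9) (BTr.b b1_10))) (BTr.n (BTr.n (BTr.b b1_11) (BTr.b b1_12)) (BTr.n (BTr.b b1_13) (BTr.b b1_14)))))
namespace T1
def l0 : Tr := Tr.L (Pth.l (Pth.l (Pth.l Pth.z)))
def l1 : Tr := Tr.L (Pth.l (Pth.l (Pth.r (Pth.l Pth.z))))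
def l2 : Tr := Tr.L (Pth.l (Pth.l (Pth.r (Pth.r Pth.z))))
def l3 : Tr := Tr.L (Pth.l (Pth.r (Pth.l (Pth.l Pth.z))))
def l4 : Tr := Tr.L (Pth.l (Pth.r (Pth.l (Pth.r Pth.z))))
def l5 : Tr := Tr.L (Pth.l (Pth.r (Pth.r (Pth.l Pth.z))))
def l6 : Tr := Tr.L (Pth.l (Pth.r (Pth.r (Pth.r Pth.z))))
def l7 : Tr := Tr.L (Pth.r (Pth.l (Pth.l (Pth.l Pth.z))))
def l8 : Tr := Tr.L (Pth.r (Pth.l (Pth.l (Pth.r Pth.z))))
def l9 : Tr := Tr.L (Pth.r (Pth.l (Pth.r (Pth.l Pth.z))))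
def l10 : Tr := Tr.L (Pth.r (Pth.l (Pth.r (Pth.r Pth.z))))
def l11 : Tr := Tr.L (Pth.r (Pth.r (Pth.l (Pth.l Pth.z))))
def l12 : Tr := Tr.L (Pth.r (Pth.r (Pth.l (Pth.r Pth.z))))
def l13 : Tr := Tr.L (Pth.r (Pth.r (Pth.r (Pth.l Pth.z))))
def l14 : Tr := Tr.L (Pth.r (Pth.r (Pth.r (Pth.r Pth.z))))
end T1
def b2_0 : Bx := Bx.mk (St.mk (I.pos (nat_lit 136167424) (nat_lit 223215616)) (I.mix (nat_lit 278528) (nat_lit 67452928)) (I.mix (nat_lit 278528) (nat_lit 115294208)) (I.pos (nat_lit 238010368) (nat_lit 326582272)) (I.mix (nat_lit 143278080) (nat_lit 94519296)) (I.mix (nat_lit 98238464) (nat_lit 89030656)) (I.mix (nat_lit 132743168) (nat_lit 110919680)))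
  false (nat_lit 91134469)
def b2_1 : Bx := Bx.mk (St.mk (I.pos (nat_lit 74940416) (nat_lit 142196736)) (I.neg (nat_lit 10993664) (nat_lit 73744384)) (I.mix (nat_lit 47071232) (nat_lit 8863744)) (I.pos (nat_lit 171261952) (nat_lit 220839936)) (I.mix (nat_lit 92684288) (nat_lit 69009408)) (I.mix (nat_lit 59949056) (nat_lit 61898752)) (I.mix (nat_lit 50233344) (nat_lit 55738368)))
  false (nat_lit 8118669)
def b2_2 : Bx := Bx.mk (St.mk (I.mix (nat_lit 32014336) (nat_lit 2244608)) (I.mix (nat_lit 40321024) (nat_lit 1114112)) (I.pos (nat_lit 8585216) (nat_lit 16400384)) (I.pos (nat_lit 141443072) (nat_lit 151011328)) (I.mix (nat_lit 31309824) (nat_lit 54099968)) (I.mix (nat_lit 30310400) (nat_lit 42041344)) (I.mix (nat_lit 6275072) (nat_lit 9060352)))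
  true (nat_lit 0)
def b2_3 : Bx := Bx.mk (St.mk (I.pos (nat_lit 137330688) (nat_lit 190808064)) (I.pos (nat_lit 393216) (nat_lit 60309504)) (I.pos (nat_lit 35061760) (nat_lit 106921984)) (I.pos (nat_lit 217350144) (nat_lit 281968640)) (I.mix (nat_lit 152207360) (nat_lit 51101696)) (I.mix (nat_lit 135495680) (nat_lit 72138752)) (I.mix (nat_lit 135577600) (nat_lit 77316096)))
  false (nat_lit 61932750)
def b2_4 : Bx := Bx.mk (St.mk (I.mix (nat_lit 5701632) (nat_lit 32014336)) (I.mix (nat_lit 2998272) (nat_lit 40321024)) (I.pos (nat_lit 8585216) (nat_lit 16400384)) (I.pos (nat_lit 141443072) (nat_lit 151011328)) (I.mix (nat_lit 54099968) (nat_lit 31309824)) (I.mix (nat_lit 42041344) (nat_lit 30310400)) (I.mix (nat_lit 6275072) (nat_lit 9060352)))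
  false (nat_lit 0)
def b2_5 : Bx := Bx.mk (St.mk (I.pos (nat_lit 130400256) (nat_lit 188317696)) (I.mix (nat_lit 30720000) (nat_lit 15319040)) (I.mix (nat_lit 245760) (nat_lit 53149696)) (I.pos (nat_lit 207667200) (nat_lit 267911168)) (I.mix (nat_lit 76562432) (nat_lit 78905344)) (I.mix (nat_lit 72155136) (nat_lit 72187904)) (I.mix (nat_lit 65339392) (nat_lit 68960256)))
  false (nat_lit 25305195)
def b2_6 : Bx := Bx.mk (St.mk (I.pos (nat_lit 122454016) (nat_lit 149372928)) (I.neg (nat_lit 17170432) (nat_lit 43565056)) (I.mix (nat_lit 17907712) (nat_lit 12550144)) (I.pos (nat_lit 203390976) (nat_lit 227180544)) (I.mix (nat_lit 35962880) (nat_lit 29573120)) (I.mix (nat_lit 25296896) (nat_lit 22593536)) (I.mix (nat_lit 24428544) (nat_lit 22724608)))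
  false (nat_lit 0)
def b2_7 : Bx := Bx.mk (St.mk (I.mix (nat_lit 8372224) (nat_lit 5898240)) (I.mix (nat_lit 14057472) (nat_lit 3260416)) (I.pos (nat_lit 9551872) (nat_lit 13418496)) (I.pos (nat_lit 141344768) (nat_lit 144408576)) (I.mix (nat_lit 12959744) (nat_lit 20070400)) (I.mix (nat_lit 13336576) (nat_lit 12894208)) (I.mix (nat_lit 1638400) (nat_lit 1441792)))
  true (nat_lit 0)
def b2_8 : Bx := Bx.mk (St.mk (I.pos (nat_lit 15859712) (nat_lit 75431936)) (I.mix (nat_lit 11288576) (nat_lit 44892160)) (I.mix (nat_lit 10305536) (nat_lit 17858560)) (I.pos (nat_lit 141901824) (nat_lit 165347328)) (I.mix (nat_lit 47611904) (nat_lit 54312960)) (I.mix (nat_lit 51740672) (nat_lit 37208064)) (I.mix (nat_lit 28016640) (nat_lit 19955712)))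
  false (nat_lit 0)
def b2_9 : Bx := Bx.mk (St.mk (I.pos (nat_lit 47988736) (nat_lit 106807296)) (I.mix (nat_lit 64864256) (nat_lit 11829248)) (I.mix (nat_lit 39796736) (nat_lit 3080192)) (I.pos (nat_lit 150700032) (nat_lit 189956096)) (I.mix (nat_lit 90570752) (nat_lit 44679168)) (I.mix (nat_lit 44711936) (nat_lit 83197952)) (I.mix (nat_lit 33341440) (nat_lit 46874624)))
  false (nat_lit 0)
def b2_10 : Bx := Bx.mk (St.mk (I.neg (nat_lit 15859712) (nat_lit 75431936)) (I.mix (nat_lit 44892160) (nat_lit 11288576)) (I.mix (nat_lit 10305536) (nat_lit 17858560)) (I.pos (nat_lit 141901824) (nat_lit 165347328)) (I.mix (nat_lit 54312960) (nat_lit 47611904)) (I.mix (nat_lit 37208064) (nat_lit 51740672)) (I.mix (nat_lit 28016640) (nat_lit 19955712)))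
  true (nat_lit 0)
def b2_11 : Bx := Bx.mk (St.mk (I.pos (nat_lit 178438144) (nat_lit 296861696)) (I.mix (nat_lit 31440896) (nat_lit 52805632)) (I.mix (nat_lit 70057984) (nat_lit 92422144)) (I.pos (nat_lit 279429120) (nat_lit 470466560)) (I.mix (nat_lit 102514688) (nat_lit 95420416)) (I.mix (nat_lit 88555520) (nat_lit 73236480)) (I.mix (nat_lit 156155904) (nat_lit 118767616)))
  false (nat_lit 103032612)
def b2_12 : Bx := Bx.mk (St.mk (I.pos (nat_lit 156680192) (nat_lit 220577792)) (I.pos (nat_lit 22691840) (nat_lit 68993024)) (I.pos (nat_lit 46481408) (nat_lit 116998144)) (I.pos (nat_lit 261636096) (nat_lit 320962560)) (I.mix (nat_lit 142835712) (nat_lit 110002176)) (I.mix (nat_lit 118112256) (nat_lit 97992704)) (I.mix (nat_lit 167821312) (nat_lit 112328704)))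
  false (nat_lit 61756054)
def b2_13 : Bx := Bx.mk (St.mk (I.pos (nat_lit 142229504) (nat_lit 189317120)) (I.mix (nat_lit 14450688) (nat_lit 38830080)) (I.pos (nat_lit 17154048) (nat_lit 84148224)) (I.pos (nat_lit 221216768) (nat_lit 272728064)) (I.mix (nat_lit 132923392) (nat_lit 69140480)) (I.mix (nat_lit 133840896) (nat_lit 66879488)) (I.mix (nat_lit 133087232) (nat_lit 66142208)))
  false (nat_lit 21016818)
def t2 : BTr := (BTr.n (BTr.n (BTr.n (BTr.b b2_0) (BTr.n (BTr.b b2_1) (BTr.b b2_2))) (BTr.n (BTr.n (BTr.b b2_3) (BTr.b b2_4)) (BTr.n (BTr.b b2_5) (BTr.b b2_6)))) (BTr.n (BTr.n (BTr.b b2_7) (BTr.n (BTr.b b2_8) (BTr.b b2_9))) (BTr.n (BTr.n (BTr.b b2_10) (BTr.b b2_11)) (BTr.n (BTr.b b2_12) (BTr.b b2_13)))))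
namespace T2
def l0 : Tr := Tr.L (Pth.l (Pth.l (Pth.l Pth.z)))
def l1 : Tr := Tr.L (Pth.l (Pth.l (Pth.r (Pth.l Pth.z))))
def l2 : Tr := Tr.L (Pth.l (Pth.l (Pth.r (Pth.r Pth.z))))
def l3 : Tr := Tr.L (Pth.l (Pth.r (Pth.l (Pth.l Pth.z))))
def l4 : Tr := Tr.L (Pth.l (Pth.r (Pth.l (Pth.r Pth.z))))
def l5 : Tr := Tr.L (Pth.l (Pth.r (Pth.r (Pth.l Pth.z))))
def l6 : Tr := Tr.L (Pth.l (Pth.r (Pth.r (Pth.r Pth.z))))
def l7 : Tr := Tr.L (Pth.r (Pth.l (Pth.l Pth.z)))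
def l8 : Tr := Tr.L (Pth.r (Pth.l (Pth.r (Pth.l Pth.z))))
def l9 : Tr := Tr.L (Pth.r (Pth.l (Pth.r (Pth.r Pth.z))))
def l10 : Tr := Tr.L (Pth.r (Pth.r (Pth.l (Pth.l Pth.z))))
def l11 : Tr := Tr.L (Pth.r (Pth.r (Pth.l (Pth.r Pth.z))))
def l12 : Tr := Tr.L (Pth.r (Pth.r (Pth.r (Pth.l Pth.z))))
def l13 : Tr := Tr.L (Pth.r (Pth.r (Pth.r (Pth.r Pth.z))))
end T2
theorem bx0_0 : BoxOK sI cl5 cl5 cl9 t0 t2 b0_0 :=
  box_mk (TrL.c (I.pos (nat_lit 0) (nat_lit 0)) (xa (xb T0.l0 (xa T0.l0 T0.l0)) (xb T0.l0 (xa T0.l0 T0.l0)))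
  (TrL.c (I.pos (nat_lit 0) (nat_lit 0)) T2.l1
  (TrL.c (I.pos (nat_lit 0) (nat_lit 0)) T0.l1
  (TrL.c (I.pos (nat_lit 0) (nat_lit 0)) T2.l2
  (TrL.c (I.pos (nat_lit 0) (nat_lit 0)) (xb (xa T2.l3 T2.l3) (xa T2.l3 (xb T2.l3 T2.l3)))
  (TrL.c (I.pos (nat_lit 0) (nat_lit 0)) T0.l2
  (TrL.c (I.pos (nat_lit 0) (nat_lit 0)) T2.l4
  (TrL.c (I.pos (nat_lit 0) (nat_lit 0)) T0.l3
  TrL.n)))))))) (by decide +kernel)
theorem bx0_1 : BoxOK sI cl5 cl5 cl9 t0 t2 b0_1 :=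
  box_mk (TrL.c (I.pos (nat_lit 0) (nat_lit 0)) T0.l4
  (TrL.c (I.pos (nat_lit 0) (nat_lit 0)) T2.l1
  (TrL.c (I.pos (nat_lit 0) (nat_lit 0)) T0.l1
  (TrL.c (I.pos (nat_lit 0) (nat_lit 0)) T2.l2
  (TrL.c (I.pos (nat_lit 0) (nat_lit 0)) T2.l5
  (TrL.c (I.pos (nat_lit 0) (nat_lit 0)) T0.l2
  (TrL.c (I.pos (nat_lit 0) (nat_lit 0)) T2.l4
  (TrL.c (I.pos (nat_lit 0) (nat_lit 0)) T0.l3
  TrL.n)))))))) (by decide +kernel)
theorem bx0_2 : BoxOK sI cl5 cl5 cl9 t0 t2 b0_2 :=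
  box_mk (TrL.c (I.pos (nat_lit 0) (nat_lit 0)) (xb T0.l4 T0.l4)
  (TrL.c (I.pos (nat_lit 0) (nat_lit 0)) T2.l1
  (TrL.c (I.pos (nat_lit 0) (nat_lit 0)) T0.l1
  (TrL.c (I.pos (nat_lit 0) (nat_lit 0)) T2.l2
  (TrL.c (I.pos (nat_lit 0) (nat_lit 0)) T2.l5
  (TrL.c (I.pos (nat_lit 0) (nat_lit 0)) T0.l2
  (TrL.c (I.pos (nat_lit 0) (nat_lit 0)) T2.l4
  (TrL.c (I.pos (nat_lit 0) (nat_lit 0)) T0.l3
  TrL.n)))))))) (by decide +kernel)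
theorem bx0_3 : BoxOK sI cl5 cl5 cl9 t0 t2 b0_3 :=
  box_mk (TrL.c (I.pos (nat_lit 0) (nat_lit 0)) T2.l1
  (TrL.c (I.pos (nat_lit 0) (nat_lit 0)) T0.l5
  (TrL.c (I.pos (nat_lit 0) (nat_lit 0)) T2.l7
  TrL.n))) (by decide +kernel)
theorem bx0_4 : BoxOK sI cl5 cl5 cl9 t0 t2 b0_4 :=
  box_mk (TrL.c (I.pos (nat_lit 0) (nat_lit 0)) (xa T0.l0 T0.l0)
  (TrL.c (I.pos (nat_lit 0) (nat_lit 0)) T2.l1
  (TrL.c (I.pos (nat_lit 0) (nat_lit 0)) T0.l1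
  (TrL.c (I.pos (nat_lit 0) (nat_lit 0)) T2.l2
  (TrL.c (I.pos (nat_lit 0) (nat_lit 0)) (xa T2.l3 (xb T2.l3 T2.l3))
  (TrL.c (I.pos (nat_lit 0) (nat_lit 0)) T0.l2
  (TrL.c (I.pos (nat_lit 0) (nat_lit 0)) T2.l4
  (TrL.c (I.pos (nat_lit 0) (nat_lit 0)) T0.l3
  TrL.n)))))))) (by decide +kernel)
theorem bx0_5 : BoxOK sI cl5 cl5 cl9 t0 t2 b0_5 :=
  box_mk (TrL.c (I.pos (nat_lit 0) (nat_lit 0)) T0.l4
  (TrL.c (I.pos (nat_lit 0) (nat_lit 0)) T2.l1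
  (TrL.c (I.pos (nat_lit 0) (nat_lit 0)) T0.l1
  (TrL.c (I.pos (nat_lit 0) (nat_lit 0)) T2.l2
  (TrL.c (I.pos (nat_lit 0) (nat_lit 0)) T2.l5
  (TrL.c (I.pos (nat_lit 0) (nat_lit 0)) T0.l2
  (TrL.c (I.pos (nat_lit 0) (nat_lit 0)) T2.l4
  (TrL.c (I.pos (nat_lit 0) (nat_lit 0)) T0.l3
  TrL.n)))))))) (by decide +kernel)
theorem bx0_6 : BoxOK sI cl5 cl5 cl9 t0 t2 b0_6 :=
  box_mk (TrL.c (I.pos (nat_lit 0) (nat_lit 0)) (xa (xb (xa T0.l4 T0.l4) (xa T0.l4 T0.l4)) (xb T0.l4 T0.l4))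
  (TrL.c (I.pos (nat_lit 0) (nat_lit 0)) T2.l1
  (TrL.c (I.pos (nat_lit 0) (nat_lit 0)) T0.l1
  (TrL.c (I.pos (nat_lit 0) (nat_lit 0)) T2.l2
  (TrL.c (I.pos (nat_lit 0) (nat_lit 0)) (xa T2.l5 T2.l5)
  (TrL.c (I.pos (nat_lit 0) (nat_lit 0)) T0.l2
  (TrL.c (I.pos (nat_lit 0) (nat_lit 0)) T2.l4
  (TrL.c (I.pos (nat_lit 0) (nat_lit 0)) T0.l3
  TrL.n)))))))) (by decide +kernel)
theorem bx0_7 : BoxOK sI cl5 cl5 cl9 t0 t2 b0_7 :=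
  box_mk (TrL.c (I.pos (nat_lit 0) (nat_lit 0)) T2.l6
  (TrL.c (I.pos (nat_lit 0) (nat_lit 0)) T0.l5
  (TrL.c (I.pos (nat_lit 0) (nat_lit 0)) T2.l7
  TrL.n))) (by decide +kernel)
theorem bx0_8 : BoxOK sI cl5 cl5 cl9 t0 t2 b0_8 :=
  box_mk (TrL.c (I.pos (nat_lit 0) (nat_lit 0)) (xb (xa T0.l4 T0.l4) (xa T0.l4 T0.l4))
  (TrL.c (I.pos (nat_lit 0) (nat_lit 0)) T2.l6
  (TrL.c (I.pos (nat_lit 0) (nat_lit 0)) T0.l5
  (TrL.c (I.pos (nat_lit 0) (nat_lit 0)) T2.l7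
  (TrL.c (I.pos (nat_lit 0) (nat_lit 0)) T2.l5
  (TrL.c (I.pos (nat_lit 0) (nat_lit 0)) T0.l2
  (TrL.c (I.pos (nat_lit 0) (nat_lit 0)) T2.l4
  (TrL.c (I.pos (nat_lit 0) (nat_lit 0)) T0.l3
  TrL.n)))))))) (by decide +kernel)
theorem bx0_9 : BoxOK sI cl5 cl5 cl9 t0 t2 b0_9 :=
  box_mk (TrL.c (I.pos (nat_lit 0) (nat_lit 0)) (xa (xb T0.l12 T0.l12) T0.l12)
  (TrL.c (I.pos (nat_lit 0) (nat_lit 0)) T2.l1
  (TrL.c (I.pos (nat_lit 0) (nat_lit 0)) T0.l1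
  (TrL.c (I.pos (nat_lit 0) (nat_lit 0)) T2.l2
  (TrL.c (I.pos (nat_lit 0) (nat_lit 0)) (xb T2.l13 T2.l13)
  (TrL.c (I.pos (nat_lit 0) (nat_lit 0)) T0.l2
  (TrL.c (I.pos (nat_lit 0) (nat_lit 0)) T2.l4
  (TrL.c (I.pos (nat_lit 0) (nat_lit 0)) T0.l3
  TrL.n)))))))) (by decide +kernel)
theorem bx0_10 : BoxOK sI cl5 cl5 cl9 t0 t2 b0_10 :=
  box_mk (TrL.c (I.pos (nat_lit 0) (nat_lit 0)) (xa (xb T0.l12 T0.l12) T0.l12)
  (TrL.c (I.pos (nat_lit 0) (nat_lit 0)) T2.l1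
  (TrL.c (I.pos (nat_lit 0) (nat_lit 0)) T0.l1
  (TrL.c (I.pos (nat_lit 0) (nat_lit 0)) T2.l2
  (TrL.c (I.pos (nat_lit 0) (nat_lit 0)) (xb (xa T2.l13 T2.l13) T2.l13)
  (TrL.c (I.pos (nat_lit 0) (nat_lit 0)) T0.l2
  (TrL.c (I.pos (nat_lit 0) (nat_lit 0)) T2.l4
  (TrL.c (I.pos (nat_lit 0) (nat_lit 0)) T0.l3
  TrL.n)))))))) (by decide +kernel)
theorem bx0_11 : BoxOK sI cl5 cl5 cl9 t0 t2 b0_11 :=
  box_mk (TrL.c (I.pos (nat_lit 0) (nat_lit 0)) (xb T0.l12 T0.l12)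
  (TrL.c (I.pos (nat_lit 0) (nat_lit 0)) T2.l1
  (TrL.c (I.pos (nat_lit 0) (nat_lit 0)) T0.l1
  (TrL.c (I.pos (nat_lit 0) (nat_lit 0)) T2.l2
  (TrL.c (I.pos (nat_lit 0) (nat_lit 0)) T2.l13
  (TrL.c (I.pos (nat_lit 0) (nat_lit 0)) T0.l2
  (TrL.c (I.pos (nat_lit 0) (nat_lit 0)) T2.l4
  (TrL.c (I.pos (nat_lit 0) (nat_lit 0)) T0.l3
  TrL.n)))))))) (by decide +kernel)
theorem bx0_12 : BoxOK sI cl5 cl5 cl9 t0 t2 b0_12 :=
  box_mk (TrL.c (I.pos (nat_lit 0) (nat_lit 0)) (xa (xb T0.l0 (xb T0.l0 T0.l0)) (xb T0.l0 T0.l0))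
  (TrL.c (I.pos (nat_lit 0) (nat_lit 0)) T2.l1
  (TrL.c (I.pos (nat_lit 0) (nat_lit 0)) T0.l1
  (TrL.c (I.pos (nat_lit 0) (nat_lit 0)) T2.l2
  (TrL.c (I.pos (nat_lit 0) (nat_lit 0)) (xb (xa T2.l3 T2.l3) T2.l3)
  (TrL.c (I.pos (nat_lit 0) (nat_lit 0)) T0.l2
  (TrL.c (I.pos (nat_lit 0) (nat_lit 0)) T2.l4
  (TrL.c (I.pos (nat_lit 0) (nat_lit 0)) T0.l3
  TrL.n)))))))) (by decide +kernel)
theorem sv0 : StarV sI cl5 cl5 cl9 t0 t2 t0 :=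
  (bt_n (bt_n (bt_n (bt_b bx0_0) (bt_n (bt_b bx0_1) (bt_b bx0_2))) (bt_n (bt_b bx0_3) (bt_n (bt_b bx0_4) (bt_b bx0_5)))) (bt_n (bt_n (bt_b bx0_6) (bt_n (bt_b bx0_7) (bt_b bx0_8))) (bt_n (bt_n (bt_b bx0_9) (bt_b bx0_10)) (bt_n (bt_b bx0_11) (bt_b bx0_12)))))
def S0 : StarD := StarD.mk cl5 cl5 cl9 0 2 t0
theorem bx1_0 : BoxOK sI cl5 cl9 cl5 t2 t0 b1_0 :=
  box_mk (TrL.c (I.pos (nat_lit 0) (nat_lit 0)) (xa (xb (xa T2.l0 T2.l0) (xa (xb T2.l0 T2.l0) T2.l0)) (xa (xb T2.l0 T2.l0) (xb T2.l0 T2.l0)))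
  (TrL.c (I.pos (nat_lit 0) (nat_lit 0)) T0.l6
  (TrL.c (I.pos (nat_lit 0) (nat_lit 0)) T2.l8
  (TrL.c (I.pos (nat_lit 0) (nat_lit 0)) T0.l7
  (TrL.c (I.pos (nat_lit 0) (nat_lit 0)) (xa T0.l9 (xb T0.l9 T0.l9))
  (TrL.c (I.pos (nat_lit 0) (nat_lit 0)) T2.l9
  (TrL.c (I.pos (nat_lit 0) (nat_lit 0)) T0.l8
  (TrL.c (I.pos (nat_lit 0) (nat_lit 0)) T2.l10
  TrL.n)))))))) (by decide +kernel)
theorem bx1_1 : BoxOK sI cl5 cl9 cl5 t2 t0 b1_1 :=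
  box_mk (TrL.c (I.pos (nat_lit 0) (nat_lit 0)) (xa (xb T2.l11 T2.l11) (xb T2.l0 T2.l11))
  (TrL.c (I.pos (nat_lit 0) (nat_lit 0)) T0.l6
  (TrL.c (I.pos (nat_lit 0) (nat_lit 0)) T2.l8
  (TrL.c (I.pos (nat_lit 0) (nat_lit 0)) T0.l7
  (TrL.c (I.pos (nat_lit 0) (nat_lit 0)) (xa T0.l10 (xb T0.l10 T0.l10))
  (TrL.c (I.pos (nat_lit 0) (nat_lit 0)) T2.l9
  (TrL.c (I.pos (nat_lit 0) (nat_lit 0)) T0.l8
  (TrL.c (I.pos (nat_lit 0) (nat_lit 0)) T2.l10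
  TrL.n)))))))) (by decide +kernel)
theorem bx1_2 : BoxOK sI cl5 cl9 cl5 t2 t0 b1_2 :=
  box_mk (TrL.c (I.pos (nat_lit 0) (nat_lit 0)) (xa (xa (xa (xb T2.l11 (xa T2.l11 T2.l11)) T2.l11) T2.l11) (xa T2.l11 (xa T2.l11 T2.l11)))
  (TrL.c (I.pos (nat_lit 0) (nat_lit 0)) (xa T0.l6 T0.l6)
  (TrL.c (I.pos (nat_lit 0) (nat_lit 0)) T2.l8
  (TrL.c (I.pos (nat_lit 0) (nat_lit 0)) T0.l7
  (TrL.c (I.pos (nat_lit 0) (nat_lit 0)) (xa T0.l10 T0.l10)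
  (TrL.c (I.pos (nat_lit 0) (nat_lit 0)) T2.l9
  (TrL.c (I.pos (nat_lit 0) (nat_lit 0)) T0.l8
  (TrL.c (I.pos (nat_lit 0) (nat_lit 0)) T2.l10
  TrL.n)))))))) (by decide +kernel)
theorem bx1_3 : BoxOK sI cl5 cl9 cl5 t2 t0 b1_3 :=
  box_mk (TrL.c (I.pos (nat_lit 0) (nat_lit 0)) (xa (xa (xb (xa T2.l11 T2.l11) T2.l11) T2.l11) T2.l11)
  (TrL.c (I.pos (nat_lit 0) (nat_lit 0)) T0.l6
  (TrL.c (I.pos (nat_lit 0) (nat_lit 0)) T2.l8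
  (TrL.c (I.pos (nat_lit 0) (nat_lit 0)) T0.l7
  (TrL.c (I.pos (nat_lit 0) (nat_lit 0)) T0.l10
  (TrL.c (I.pos (nat_lit 0) (nat_lit 0)) T2.l9
  (TrL.c (I.pos (nat_lit 0) (nat_lit 0)) T0.l8
  (TrL.c (I.pos (nat_lit 0) (nat_lit 0)) T2.l10
  TrL.n)))))))) (by decide +kernel)
theorem bx1_4 : BoxOK sI cl5 cl9 cl5 t2 t0 b1_4 :=
  box_mk (TrL.c (I.pos (nat_lit 0) (nat_lit 0)) (xb (xa (xb (xb (xa T2.l12 T2.l12) T2.l12) T2.l12) (xb (xb (xs T2.l12 (xa T2.l12 T2.l12)) (xa T2.l12 T2.l12)) (xb (xs T2.l12 (xa T2.l12 T2.l12)) (xs T2.l12 (xa T2.l12 T2.l12))))) (xa (xb T2.l12 (xa T2.l12 T2.l12)) (xb T2.l12 T2.l12)))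
  (TrL.c (I.pos (nat_lit 0) (nat_lit 0)) T0.l6
  (TrL.c (I.pos (nat_lit 0) (nat_lit 0)) T2.l8
  (TrL.c (I.pos (nat_lit 0) (nat_lit 0)) T0.l7
  (TrL.c (I.pos (nat_lit 0) (nat_lit 0)) (xb T0.l11 T0.l11)
  (TrL.c (I.pos (nat_lit 0) (nat_lit 0)) T2.l9
  (TrL.c (I.pos (nat_lit 0) (nat_lit 0)) T0.l8
  (TrL.c (I.pos (nat_lit 0) (nat_lit 0)) T2.l10
  TrL.n)))))))) (by decide +kernel)
theorem bx1_5 : BoxOK sI cl5 cl9 cl5 t2 t0 b1_5 :=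
  box_mk (TrL.c (I.pos (nat_lit 0) (nat_lit 0)) (xb (xa T2.l11 T2.l11) T2.l11)
  (TrL.c (I.pos (nat_lit 0) (nat_lit 0)) T0.l6
  (TrL.c (I.pos (nat_lit 0) (nat_lit 0)) T2.l8
  (TrL.c (I.pos (nat_lit 0) (nat_lit 0)) T0.l7
  (TrL.c (I.pos (nat_lit 0) (nat_lit 0)) (xb T0.l10 T0.l10)
  (TrL.c (I.pos (nat_lit 0) (nat_lit 0)) T2.l9
  (TrL.c (I.pos (nat_lit 0) (nat_lit 0)) T0.l8
  (TrL.c (I.pos (nat_lit 0) (nat_lit 0)) T2.l10
  TrL.n)))))))) (by decide +kernel)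
theorem bx1_6 : BoxOK sI cl5 cl9 cl5 t2 t0 b1_6 :=
  box_mk (TrL.c (I.pos (nat_lit 0) (nat_lit 0)) (xa (xa (xb T2.l11 (xa (xb T2.l11 T2.l11) T2.l11)) (xb T2.l11 T2.l11)) (xa T2.l11 (xb T2.l11 (xa T2.l11 T2.l11))))
  (TrL.c (I.pos (nat_lit 0) (nat_lit 0)) (xa T0.l6 T0.l6)
  (TrL.c (I.pos (nat_lit 0) (nat_lit 0)) T2.l8
  (TrL.c (I.pos (nat_lit 0) (nat_lit 0)) T0.l7
  (TrL.c (I.pos (nat_lit 0) (nat_lit 0)) (xa T0.l10 T0.l10)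
  (TrL.c (I.pos (nat_lit 0) (nat_lit 0)) T2.l9
  (TrL.c (I.pos (nat_lit 0) (nat_lit 0)) T0.l8
  (TrL.c (I.pos (nat_lit 0) (nat_lit 0)) T2.l10
  TrL.n)))))))) (by decide +kernel)
theorem bx1_7 : BoxOK sI cl5 cl9 cl5 t2 t0 b1_7 :=
  box_mk (TrL.c (I.pos (nat_lit 0) (nat_lit 0)) T2.l11
  (TrL.c (I.pos (nat_lit 0) (nat_lit 0)) T0.l6
  (TrL.c (I.pos (nat_lit 0) (nat_lit 0)) T2.l8
  (TrL.c (I.pos (nat_lit 0) (nat_lit 0)) T0.l7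
  (TrL.c (I.pos (nat_lit 0) (nat_lit 0)) T0.l10
  (TrL.c (I.pos (nat_lit 0) (nat_lit 0)) T2.l9
  (TrL.c (I.pos (nat_lit 0) (nat_lit 0)) T0.l8
  (TrL.c (I.pos (nat_lit 0) (nat_lit 0)) T2.l10
  TrL.n)))))))) (by decide +kernel)
theorem bx1_8 : BoxOK sI cl5 cl9 cl5 t2 t0 b1_8 :=
  box_mk (TrL.c (I.pos (nat_lit 0) (nat_lit 0)) (xa T2.l0 (xa T2.l0 T2.l0))
  (TrL.c (I.pos (nat_lit 0) (nat_lit 0)) T0.l6
  (TrL.c (I.pos (nat_lit 0) (nat_lit 0)) T2.l8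
  (TrL.c (I.pos (nat_lit 0) (nat_lit 0)) T0.l7
  (TrL.c (I.pos (nat_lit 0) (nat_lit 0)) (xa T0.l9 T0.l9)
  (TrL.c (I.pos (nat_lit 0) (nat_lit 0)) T2.l9
  (TrL.c (I.pos (nat_lit 0) (nat_lit 0)) T0.l8
  (TrL.c (I.pos (nat_lit 0) (nat_lit 0)) T2.l10
  TrL.n)))))))) (by decide +kernel)
theorem bx1_9 : BoxOK sI cl5 cl9 cl5 t2 t0 b1_9 :=
  box_mk (TrL.c (I.pos (nat_lit 0) (nat_lit 0)) T2.l0
  (TrL.c (I.pos (nat_lit 0) (nat_lit 0)) T0.l6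
  (TrL.c (I.pos (nat_lit 0) (nat_lit 0)) T2.l8
  (TrL.c (I.pos (nat_lit 0) (nat_lit 0)) T0.l7
  (TrL.c (I.pos (nat_lit 0) (nat_lit 0)) T0.l11
  (TrL.c (I.pos (nat_lit 0) (nat_lit 0)) T2.l9
  (TrL.c (I.pos (nat_lit 0) (nat_lit 0)) T0.l8
  (TrL.c (I.pos (nat_lit 0) (nat_lit 0)) T2.l10
  TrL.n)))))))) (by decide +kernel)
theorem bx1_10 : BoxOK sI cl5 cl9 cl5 t2 t0 b1_10 :=
  box_mk (TrL.c (I.pos (nat_lit 0) (nat_lit 0)) T2.l11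
  (TrL.c (I.pos (nat_lit 0) (nat_lit 0)) T0.l6
  (TrL.c (I.pos (nat_lit 0) (nat_lit 0)) T2.l8
  (TrL.c (I.pos (nat_lit 0) (nat_lit 0)) T0.l7
  (TrL.c (I.pos (nat_lit 0) (nat_lit 0)) T0.l10
  (TrL.c (I.pos (nat_lit 0) (nat_lit 0)) T2.l9
  (TrL.c (I.pos (nat_lit 0) (nat_lit 0)) T0.l8
  (TrL.c (I.pos (nat_lit 0) (nat_lit 0)) T2.l10
  TrL.n)))))))) (by decide +kernel)
theorem bx1_11 : BoxOK sI cl5 cl9 cl5 t2 t0 b1_11 :=
  box_mk (TrL.c (I.pos (nat_lit 0) (nat_lit 0)) T2.l11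
  (TrL.c (I.pos (nat_lit 0) (nat_lit 0)) T0.l6
  (TrL.c (I.pos (nat_lit 0) (nat_lit 0)) T2.l8
  (TrL.c (I.pos (nat_lit 0) (nat_lit 0)) T0.l7
  (TrL.c (I.pos (nat_lit 0) (nat_lit 0)) T0.l10
  (TrL.c (I.pos (nat_lit 0) (nat_lit 0)) T2.l9
  (TrL.c (I.pos (nat_lit 0) (nat_lit 0)) T0.l8
  (TrL.c (I.pos (nat_lit 0) (nat_lit 0)) T2.l10
  TrL.n)))))))) (by decide +kernel)
theorem bx1_12 : BoxOK sI cl5 cl9 cl5 t2 t0 b1_12 :=
  box_mk (TrL.c (I.pos (nat_lit 0) (nat_lit 0)) T2.l11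
  (TrL.c (I.pos (nat_lit 0) (nat_lit 0)) T0.l6
  (TrL.c (I.pos (nat_lit 0) (nat_lit 0)) T2.l8
  (TrL.c (I.pos (nat_lit 0) (nat_lit 0)) T0.l7
  (TrL.c (I.pos (nat_lit 0) (nat_lit 0)) T0.l10
  (TrL.c (I.pos (nat_lit 0) (nat_lit 0)) T2.l9
  (TrL.c (I.pos (nat_lit 0) (nat_lit 0)) T0.l8
  (TrL.c (I.pos (nat_lit 0) (nat_lit 0)) T2.l10
  TrL.n)))))))) (by decide +kernel)
theorem bx1_13 : BoxOK sI cl5 cl9 cl5 t2 t0 b1_13 :=
  box_mk (TrL.c (I.pos (nat_lit 0) (nat_lit 0)) (xa T2.l0 (xb T2.l0 T2.l0))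
  (TrL.c (I.pos (nat_lit 0) (nat_lit 0)) T0.l6
  (TrL.c (I.pos (nat_lit 0) (nat_lit 0)) T2.l8
  (TrL.c (I.pos (nat_lit 0) (nat_lit 0)) T0.l7
  (TrL.c (I.pos (nat_lit 0) (nat_lit 0)) T0.l9
  (TrL.c (I.pos (nat_lit 0) (nat_lit 0)) T2.l9
  (TrL.c (I.pos (nat_lit 0) (nat_lit 0)) T0.l8
  (TrL.c (I.pos (nat_lit 0) (nat_lit 0)) T2.l10
  TrL.n)))))))) (by decide +kernel)
theorem bx1_14 : BoxOK sI cl5 cl9 cl5 t2 t0 b1_14 :=
  box_mk (TrL.c (I.pos (nat_lit 0) (nat_lit 0)) (xa T2.l0 T2.l12)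
  (TrL.c (I.pos (nat_lit 0) (nat_lit 0)) T0.l6
  (TrL.c (I.pos (nat_lit 0) (nat_lit 0)) T2.l8
  (TrL.c (I.pos (nat_lit 0) (nat_lit 0)) T0.l7
  (TrL.c (I.pos (nat_lit 0) (nat_lit 0)) T0.l11
  (TrL.c (I.pos (nat_lit 0) (nat_lit 0)) T2.l9
  (TrL.c (I.pos (nat_lit 0) (nat_lit 0)) T0.l8
  (TrL.c (I.pos (nat_lit 0) (nat_lit 0)) T2.l10
  TrL.n)))))))) (by decide +kernel)
theorem sv1 : StarV sI cl5 cl9 cl5 t2 t0 t1 :=
  (bt_n (bt_n (bt_n (bt_b bx1_0) (bt_n (bt_b bx1_1) (bt_b bx1_2))) (bt_n (bt_n (bt_b bx1_3) (bt_b bx1_4)) (bt_n (bt_b bx1_5) (bt_b bx1_6)))) (bt_n (bt_n (bt_n (bt_b bx1_7) (bt_b bx1_8)) (bt_n (bt_b bx1_9) (bt_b bx1_10))) (bt_n (bt_n (bt_b bx1_11) (bt_b bx1_12)) (bt_n (bt_b bx1_13) (bt_b bx1_14)))))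
def S1 : StarD := StarD.mk cl5 cl9 cl5 2 0 t1
theorem bx2_0 : BoxOK sI cl9 cl5 cl5 t1 t1 b2_0 :=
  box_mk (TrL.c (I.pos (nat_lit 0) (nat_lit 0)) (xa (xb T1.l0 (xa (xb T1.l0 T1.l0) T1.l0)) (xb T1.l0 (xa T1.l0 T1.l0)))
  (TrL.c (I.pos (nat_lit 0) (nat_lit 0)) T1.l1
  (TrL.c (I.pos (nat_lit 0) (nat_lit 124588530)) T1.l2
  (TrL.c (I.pos (nat_lit 0) (nat_lit 96881482)) T1.l3
  (TrL.c (I.pos (nat_lit 0) (nat_lit 0)) (xa T1.l4 (xb T1.l4 (xk T1.l4 T1.l4)))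
  (TrL.c (I.pos (nat_lit 0) (nat_lit 0)) T1.l5
  (TrL.c (I.mix (nat_lit 17240550) (nat_lit 96881482)) T1.l6
  (TrL.c (I.mix (nat_lit 17240550) (nat_lit 71940500)) T1.l7
  TrL.n)))))))) (by decide +kernel)
theorem bx2_1 : BoxOK sI cl9 cl5 cl5 t1 t1 b2_1 :=
  box_mk (TrL.c (I.pos (nat_lit 0) (nat_lit 0)) (xa (xb T1.l8 T1.l8) T1.l8)
  (TrL.c (I.pos (nat_lit 0) (nat_lit 0)) T1.l1
  (TrL.c (I.pos (nat_lit 0) (nat_lit 124588530)) T1.l2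
  (TrL.c (I.pos (nat_lit 0) (nat_lit 96881482)) T1.l3
  (TrL.c (I.pos (nat_lit 0) (nat_lit 0)) (xa T1.l9 T1.l9)
  (TrL.c (I.pos (nat_lit 0) (nat_lit 0)) T1.l5
  (TrL.c (I.mix (nat_lit 17240550) (nat_lit 96881482)) T1.l6
  (TrL.c (I.mix (nat_lit 17240550) (nat_lit 71940500)) T1.l3
  TrL.n)))))))) (by decide +kernel)
theorem bx2_2 : BoxOK sI cl9 cl5 cl5 t1 t1 b2_2 :=
  box_mk (TrL.c (I.pos (nat_lit 0) (nat_lit 0)) T1.l1
  (TrL.c (I.pos (nat_lit 0) (nat_lit 0)) T1.l2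
  (TrL.c (I.mix (nat_lit 17240550) (nat_lit 96881482)) T1.l12
  (TrL.c (I.mix (nat_lit 17240550) (nat_lit 71940500)) T1.l2
  TrL.n)))) (by decide +kernel)
theorem bx2_3 : BoxOK sI cl9 cl5 cl5 t1 t1 b2_3 :=
  box_mk (TrL.c (I.pos (nat_lit 0) (nat_lit 0)) (xa (xb T1.l13 T1.l13) (xb T1.l13 T1.l13))
  (TrL.c (I.pos (nat_lit 0) (nat_lit 0)) T1.l1
  (TrL.c (I.pos (nat_lit 0) (nat_lit 124588530)) T1.l2
  (TrL.c (I.pos (nat_lit 0) (nat_lit 96881482)) T1.l3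
  (TrL.c (I.pos (nat_lit 0) (nat_lit 0)) T1.l4
  (TrL.c (I.pos (nat_lit 0) (nat_lit 0)) T1.l5
  (TrL.c (I.mix (nat_lit 17240550) (nat_lit 96881482)) T1.l6
  (TrL.c (I.mix (nat_lit 17240550) (nat_lit 71940500)) T1.l7
  TrL.n)))))))) (by decide +kernel)
theorem bx2_4 : BoxOK sI cl9 cl5 cl5 t1 t1 b2_4 :=
  box_mk (TrL.c (I.pos (nat_lit 0) (nat_lit 0)) T1.l8
  (TrL.c (I.pos (nat_lit 0) (nat_lit 0)) T1.l1
  (TrL.c (I.pos (nat_lit 0) (nat_lit 124588530)) T1.l2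
  (TrL.c (I.pos (nat_lit 0) (nat_lit 96881482)) T1.l3
  (TrL.c (I.pos (nat_lit 0) (nat_lit 0)) T1.l9
  (TrL.c (I.pos (nat_lit 0) (nat_lit 0)) T1.l5
  (TrL.c (I.mix (nat_lit 17240550) (nat_lit 96881482)) T1.l6
  (TrL.c (I.mix (nat_lit 17240550) (nat_lit 71940500)) T1.l3
  TrL.n)))))))) (by decide +kernel)
theorem bx2_5 : BoxOK sI cl9 cl5 cl5 t1 t1 b2_5 :=
  box_mk (TrL.c (I.pos (nat_lit 0) (nat_lit 0)) T1.l0
  (TrL.c (I.pos (nat_lit 0) (nat_lit 0)) T1.l1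
  (TrL.c (I.pos (nat_lit 0) (nat_lit 124588530)) T1.l2
  (TrL.c (I.pos (nat_lit 0) (nat_lit 96881482)) T1.l3
  (TrL.c (I.pos (nat_lit 0) (nat_lit 0)) (xk T1.l14 T1.l14)
  (TrL.c (I.pos (nat_lit 0) (nat_lit 0)) T1.l5
  (TrL.c (I.mix (nat_lit 17240550) (nat_lit 96881482)) T1.l6
  (TrL.c (I.mix (nat_lit 17240550) (nat_lit 71940500)) T1.l3
  TrL.n)))))))) (by decide +kernel)
theorem bx2_6 : BoxOK sI cl9 cl5 cl5 t1 t1 b2_6 :=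
  box_mk (TrL.c (I.pos (nat_lit 0) (nat_lit 0)) T1.l8
  (TrL.c (I.pos (nat_lit 0) (nat_lit 0)) T1.l1
  (TrL.c (I.pos (nat_lit 0) (nat_lit 124588530)) T1.l2
  (TrL.c (I.pos (nat_lit 0) (nat_lit 96881482)) T1.l3
  (TrL.c (I.pos (nat_lit 0) (nat_lit 0)) T1.l9
  (TrL.c (I.pos (nat_lit 0) (nat_lit 0)) T1.l5
  (TrL.c (I.mix (nat_lit 17240550) (nat_lit 96881482)) T1.l6
  (TrL.c (I.mix (nat_lit 17240550) (nat_lit 71940500)) T1.l3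
  TrL.n)))))))) (by decide +kernel)
theorem bx2_7 : BoxOK sI cl9 cl5 cl5 t1 t1 b2_7 :=
  box_mk (TrL.c (I.pos (nat_lit 0) (nat_lit 0)) T1.l1
  (TrL.c (I.pos (nat_lit 0) (nat_lit 0)) T1.l2
  (TrL.c (I.mix (nat_lit 17240550) (nat_lit 96881482)) T1.l12
  (TrL.c (I.mix (nat_lit 17240550) (nat_lit 71940500)) T1.l2
  TrL.n)))) (by decide +kernel)
theorem bx2_8 : BoxOK sI cl9 cl5 cl5 t1 t1 b2_8 :=
  box_mk (TrL.c (I.pos (nat_lit 0) (nat_lit 0)) (xa T1.l8 T1.l8)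
  (TrL.c (I.pos (nat_lit 0) (nat_lit 0)) T1.l1
  (TrL.c (I.pos (nat_lit 0) (nat_lit 124588530)) T1.l2
  (TrL.c (I.pos (nat_lit 0) (nat_lit 96881482)) T1.l3
  (TrL.c (I.pos (nat_lit 0) (nat_lit 0)) T1.l9
  (TrL.c (I.pos (nat_lit 0) (nat_lit 0)) T1.l5
  (TrL.c (I.mix (nat_lit 17240550) (nat_lit 96881482)) T1.l6
  (TrL.c (I.mix (nat_lit 17240550) (nat_lit 71940500)) T1.l3
  TrL.n)))))))) (by decide +kernel)
theorem bx2_9 : BoxOK sI cl9 cl5 cl5 t1 t1 b2_9 :=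
  box_mk (TrL.c (I.pos (nat_lit 0) (nat_lit 0)) (xb (xa T1.l8 T1.l8) (xa T1.l8 T1.l8))
  (TrL.c (I.pos (nat_lit 0) (nat_lit 0)) T1.l1
  (TrL.c (I.pos (nat_lit 0) (nat_lit 124588530)) T1.l2
  (TrL.c (I.pos (nat_lit 0) (nat_lit 96881482)) T1.l3
  (TrL.c (I.pos (nat_lit 0) (nat_lit 0)) (xb T1.l9 T1.l9)
  (TrL.c (I.pos (nat_lit 0) (nat_lit 0)) T1.l5
  (TrL.c (I.mix (nat_lit 17240550) (nat_lit 96881482)) T1.l6
  (TrL.c (I.mix (nat_lit 17240550) (nat_lit 71940500)) T1.l3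
  TrL.n)))))))) (by decide +kernel)
theorem bx2_10 : BoxOK sI cl9 cl5 cl5 t1 t1 b2_10 :=
  box_mk (TrL.c (I.pos (nat_lit 0) (nat_lit 0)) T1.l1
  (TrL.c (I.pos (nat_lit 0) (nat_lit 0)) T1.l2
  (TrL.c (I.mix (nat_lit 17240550) (nat_lit 96881482)) T1.l12
  (TrL.c (I.mix (nat_lit 17240550) (nat_lit 71940500)) T1.l2
  TrL.n)))) (by decide +kernel)
theorem bx2_11 : BoxOK sI cl9 cl5 cl5 t1 t1 b2_11 :=
  box_mk (TrL.c (I.pos (nat_lit 0) (nat_lit 0)) (xa (xb T1.l0 (xa T1.l0 T1.l0)) (xb T1.l0 (xa T1.l0 T1.l0)))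
  (TrL.c (I.pos (nat_lit 0) (nat_lit 0)) (xa T1.l1 T1.l1)
  (TrL.c (I.pos (nat_lit 0) (nat_lit 124588530)) T1.l2
  (TrL.c (I.pos (nat_lit 0) (nat_lit 96881482)) T1.l3
  (TrL.c (I.pos (nat_lit 0) (nat_lit 0)) (xa (xb (xk (xa T1.l4 T1.l4) T1.l4) (xk T1.l4 T1.l4)) (xb (xk (xa T1.l4 (xb (xa T1.l4 T1.l4) T1.l4)) (xa T1.l4 (xb T1.l4 T1.l4))) (xa (xk T1.l4 T1.l4) (xk (xb T1.l4 (xa T1.l4 T1.l4)) (xb T1.l4 (xa T1.l4 T1.l4))))))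
  (TrL.c (I.pos (nat_lit 0) (nat_lit 0)) (xa T1.l5 T1.l5)
  (TrL.c (I.mix (nat_lit 17240550) (nat_lit 96881482)) T1.l6
  (TrL.c (I.mix (nat_lit 17240550) (nat_lit 71940500)) T1.l7
  TrL.n)))))))) (by decide +kernel)
theorem bx2_12 : BoxOK sI cl9 cl5 cl5 t1 t1 b2_12 :=
  box_mk (TrL.c (I.pos (nat_lit 0) (nat_lit 0)) (xa (xb T1.l0 T1.l0) (xb T1.l0 T1.l0))
  (TrL.c (I.pos (nat_lit 0) (nat_lit 0)) T1.l1
  (TrL.c (I.pos (nat_lit 0) (nat_lit 124588530)) T1.l2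
  (TrL.c (I.pos (nat_lit 0) (nat_lit 96881482)) T1.l3
  (TrL.c (I.pos (nat_lit 0) (nat_lit 0)) (xa (xb T1.l4 (xk T1.l4 T1.l4)) (xb (xk T1.l4 T1.l4) (xk (xs T1.l4 (xb T1.l4 (xa T1.l4 T1.l4))) (xs T1.l4 (xb (xa T1.l4 T1.l4) (xa T1.l4 (xk T1.l4 T1.l4)))))))
  (TrL.c (I.pos (nat_lit 0) (nat_lit 0)) T1.l5
  (TrL.c (I.mix (nat_lit 17240550) (nat_lit 96881482)) T1.l6
  (TrL.c (I.mix (nat_lit 17240550) (nat_lit 71940500)) T1.l7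
  TrL.n)))))))) (by decide +kernel)
theorem bx2_13 : BoxOK sI cl9 cl5 cl5 t1 t1 b2_13 :=
  box_mk (TrL.c (I.pos (nat_lit 0) (nat_lit 0)) (xa (xb T1.l0 T1.l13) (xb T1.l0 T1.l13))
  (TrL.c (I.pos (nat_lit 0) (nat_lit 0)) T1.l1
  (TrL.c (I.pos (nat_lit 0) (nat_lit 124588530)) T1.l2
  (TrL.c (I.pos (nat_lit 0) (nat_lit 96881482)) T1.l3
  (TrL.c (I.pos (nat_lit 0) (nat_lit 0)) (xk T1.l14 T1.l14)
  (TrL.c (I.pos (nat_lit 0) (nat_lit 0)) T1.l5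
  (TrL.c (I.mix (nat_lit 17240550) (nat_lit 96881482)) T1.l6
  (TrL.c (I.mix (nat_lit 17240550) (nat_lit 71940500)) T1.l7
  TrL.n)))))))) (by decide +kernel)
theorem sv2 : StarV sI cl9 cl5 cl5 t1 t1 t2 :=
  (bt_n (bt_n (bt_n (bt_b bx2_0) (bt_n (bt_b bx2_1) (bt_b bx2_2))) (bt_n (bt_n (bt_b bx2_3) (bt_b bx2_4)) (bt_n (bt_b bx2_5) (bt_b bx2_6)))) (bt_n (bt_n (bt_b bx2_7) (bt_n (bt_b bx2_8) (bt_b bx2_9))) (bt_n (bt_n (bt_b bx2_10) (bt_b bx2_11)) (bt_n (bt_b bx2_12) (bt_b bx2_13)))))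
def S2 : StarD := StarD.mk cl9 cl5 cl5 1 1 t2
def G : List StarD := [S0, S1, S2]
theorem so0 : StarOK sI G S0 :=
  star_mk (by decide) (by decide) rfl rfl rfl rfl rfl rfl (rfl : _ = t0) (rfl : _ = t2)
  (st_mk (Pth.l (Pth.l (Pth.l Pth.z))) (nat_lit 245892325) (nat_lit 247364718) (by decide +kernel))
  (st_mk (Pth.l (Pth.l (Pth.l Pth.z))) (nat_lit 283262704) (nat_lit 285236664) (by decide +kernel))
  (st_mk (Pth.l (Pth.l (Pth.l Pth.z))) (nat_lit 326855181) (nat_lit 329517425) (by decide +kernel)) sv0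
theorem so1 : StarOK sI G S1 :=
  star_mk (by decide) (by decide) rfl rfl rfl rfl rfl rfl (rfl : _ = t2) (rfl : _ = t0)
  (st_mk (Pth.l (Pth.l (Pth.l Pth.z))) (nat_lit 117689094) (nat_lit 136830418) (by decide +kernel))
  (st_mk (Pth.l (Pth.l (Pth.l Pth.z))) (nat_lit 154448520) (nat_lit 174094186) (by decide +kernel))
  (st_mk (Pth.l (Pth.l (Pth.l Pth.z))) (nat_lit 195655029) (nat_lit 219747851) (by decide +kernel)) sv1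
theorem so2 : StarOK sI G S2 :=
  star_mk (by decide) (by decide) rfl rfl rfl rfl rfl rfl (rfl : _ = t1) (rfl : _ = t1)
  (st_mk (Pth.l (Pth.l (Pth.l Pth.z))) (nat_lit 239509264) (nat_lit 241608937) (by decide +kernel))
  (st_mk (Pth.l (Pth.l (Pth.l Pth.z))) (nat_lit 274863905) (nat_lit 277464544) (by decide +kernel))
  (st_mk (Pth.l (Pth.l (Pth.l Pth.z))) (nat_lit 315737142) (nat_lit 319006800) (by decide +kernel)) sv2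
theorem ok : GroupOK (nat_lit 150274048) (nat_lit 209387520) G := grp_mk (allS_c so0 (allS_c so1 (allS_c so2 allS_n)))
theorem cov : GCov G cl5 cl5 cl9 := cov_mk
  ⟨0, by decide, rfl, rfl, rfl⟩ ⟨1, by decide, rfl, rfl, rfl⟩ ⟨0, by decide, rfl, rfl, rfl⟩ ⟨1, by decide, rfl, rfl, rfl⟩ ⟨2, by decide, rfl, rfl, rfl⟩ ⟨2, by decide, rfl, rfl, rfl⟩
end Q225_2

namespace Q225_3
def sI : I := I.pos (nat_lit 209321984) (nat_lit 268435456)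
def b0_0 : Bx := Bx.mk (St.mk (I.pos (nat_lit 148439040) (nat_lit 226050048)) (I.mix (nat_lit 278528) (nat_lit 75497472)) (I.mix (nat_lit 278528) (nat_lit 77070336)) (I.pos (nat_lit 246218752) (nat_lit 356974592)) (I.mix (nat_lit 144031744) (nat_lit 94961664)) (I.mix (nat_lit 76726272) (nat_lit 80592896)) (I.mix (nat_lit 111771648) (nat_lit 119832576)))
  false (nat_lit 54494480)
def b0_1 : Bx := Bx.mk (St.mk (I.pos (nat_lit 25116672) (nat_lit 67010560)) (I.mix (nat_lit 1982464) (nat_lit 45662208)) (I.neg (nat_lit 7208960) (nat_lit 31260672)) (I.pos (nat_lit 142721024) (nat_lit 161349632)) (I.mix (nat_lit 40894464) (nat_lit 71516160)) (I.mix (nat_lit 45072384) (nat_lit 39305216)) (I.mix (nat_lit 26476544) (nat_lit 16367616)))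
  false (nat_lit 0)
def b0_2 : Bx := Bx.mk (St.mk (I.pos (nat_lit 52772864) (nat_lit 93945856)) (I.mix (nat_lit 59293696) (nat_lit 3571712)) (I.neg (nat_lit 25509888) (nat_lit 65699840)) (I.pos (nat_lit 148013056) (nat_lit 178552832)) (I.mix (nat_lit 112803840) (nat_lit 41041920)) (I.mix (nat_lit 41664512) (nat_lit 81936384)) (I.mix (nat_lit 32555008) (nat_lit 51036160)))
  false (nat_lit 0)
def b0_3 : Bx := Bx.mk (St.mk (I.neg (nat_lit 25100288) (nat_lit 69697536)) (I.mix (nat_lit 45662208) (nat_lit 3194880)) (I.neg (nat_lit 7208960) (nat_lit 32866304)) (I.pos (nat_lit 142721024) (nat_lit 161349632)) (I.mix (nat_lit 71516160) (nat_lit 40894464)) (I.mix (nat_lit 39305216) (nat_lit 45072384)) (I.mix (nat_lit 26509312) (nat_lit 16367616)))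
  true (nat_lit 0)
def b0_4 : Bx := Bx.mk (St.mk (I.pos (nat_lit 187105280) (nat_lit 270008320)) (I.mix (nat_lit 6356992) (nat_lit 41107456)) (I.mix (nat_lit 87244800) (nat_lit 11075584)) (I.pos (nat_lit 297074688) (nat_lit 430194688)) (I.mix (nat_lit 103415808) (nat_lit 69337088)) (I.mix (nat_lit 68517888) (nat_lit 63881216)) (I.mix (nat_lit 102989824) (nat_lit 109969408)))
  false (nat_lit 7594488)
def b0_5 : Bx := Bx.mk (St.mk (I.pos (nat_lit 52510720) (nat_lit 69697536)) (I.mix (nat_lit 3194880) (nat_lit 16662528)) (I.neg (nat_lit 19677184) (nat_lit 32866304)) (I.pos (nat_lit 149962752) (nat_lit 160514048)) (I.mix (nat_lit 20267008) (nat_lit 28721152)) (I.mix (nat_lit 17022976) (nat_lit 18022400)) (I.mix (nat_lit 8929280) (nat_lit 10616832)))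
  false (nat_lit 0)
def b0_6 : Bx := Bx.mk (St.mk (I.pos (nat_lit 52756480) (nat_lit 148094976)) (I.neg (nat_lit 3997696) (nat_lit 64651264)) (I.neg (nat_lit 14385152) (nat_lit 71548928)) (I.pos (nat_lit 153911296) (nat_lit 228360192)) (I.mix (nat_lit 108560384) (nat_lit 61997056)) (I.mix (nat_lit 50528256) (nat_lit 77987840)) (I.mix (nat_lit 43958272) (nat_lit 68403200)))
  false (nat_lit 0)
def b0_7 : Bx := Bx.mk (St.mk (I.mix (nat_lit 42041344) (nat_lit 6881280)) (I.mix (nat_lit 39780352) (nat_lit 7307264)) (I.neg (nat_lit 7864320) (nat_lit 15712256)) (I.pos (nat_lit 141590528) (nat_lit 154779648)) (I.mix (nat_lit 40697856) (nat_lit 48529408)) (I.mix (nat_lit 32669696) (nat_lit 40435712)) (I.mix (nat_lit 8273920) (nat_lit 9306112)))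
  true (nat_lit 0)
def b0_8 : Bx := Bx.mk (St.mk (I.pos (nat_lit 146800640) (nat_lit 199344128)) (I.pos (nat_lit 3129344) (nat_lit 61341696)) (I.pos (nat_lit 557056) (nat_lit 66404352)) (I.pos (nat_lit 239763456) (nat_lit 307937280)) (I.mix (nat_lit 143327232) (nat_lit 53706752)) (I.mix (nat_lit 121421824) (nat_lit 74104832)) (I.mix (nat_lit 112492544) (nat_lit 80494592)))
  false (nat_lit 2879802)
def b0_9 : Bx := Bx.mk (St.mk (I.mix (nat_lit 6881280) (nat_lit 42041344)) (I.mix (nat_lit 7307264) (nat_lit 39780352)) (I.neg (nat_lit 7864320) (nat_lit 15712256)) (I.pos (nat_lit 141590528) (nat_lit 154779648)) (I.mix (nat_lit 48529408) (nat_lit 40697856)) (I.mix (nat_lit 40435712) (nat_lit 32669696)) (I.mix (nat_lit 8273920) (nat_lit 9306112)))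
  false (nat_lit 0)
def b0_10 : Bx := Bx.mk (St.mk (I.pos (nat_lit 120684544) (nat_lit 194363392)) (I.mix (nat_lit 35667968) (nat_lit 20299776)) (I.mix (nat_lit 46678016) (nat_lit 13172736)) (I.pos (nat_lit 201293824) (nat_lit 285229056)) (I.mix (nat_lit 86818816) (nat_lit 77922304)) (I.mix (nat_lit 73498624) (nat_lit 63979520)) (I.mix (nat_lit 74366976) (nat_lit 57032704)))
  false (nat_lit 0)
def b0_11 : Bx := Bx.mk (St.mk (I.pos (nat_lit 147898368) (nat_lit 194789376)) (I.mix (nat_lit 4308992) (nat_lit 39108608)) (I.mix (nat_lit 14041088) (nat_lit 41254912)) (I.pos (nat_lit 242319360) (nat_lit 291962880)) (I.mix (nat_lit 117964800) (nat_lit 71516160)) (I.mix (nat_lit 114081792) (nat_lit 68435968)) (I.mix (nat_lit 110755840) (nat_lit 66830336)))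
  false (nat_lit 0)
def b0_12 : Bx := Bx.mk (St.mk (I.pos (nat_lit 173293568) (nat_lit 229343232)) (I.pos (nat_lit 13533184) (nat_lit 71319552)) (I.mix (nat_lit 19824640) (nat_lit 64798720)) (I.pos (nat_lit 291618816) (nat_lit 353026048)) (I.mix (nat_lit 116244480) (nat_lit 93306880)) (I.mix (nat_lit 88899584) (nat_lit 63799296)) (I.mix (nat_lit 142393344) (nat_lit 90619904)))
  false (nat_lit 27470016)
def t0 : BTr := (BTr.n (BTr.n (BTr.n (BTr.b b0_0) (BTr.n (BTr.b b0_1) (BTr.b b0_2))) (BTr.n (BTr.b b0_3) (BTr.n (BTr.b b0_4) (BTr.b b0_5)))) (BTr.n (BTr.n (BTr.b b0_6) (BTr.n (BTr.b b0_7) (BTr.b b0_8))) (BTr.n (BTr.n (BTr.b b0_9) (BTr.b b0_10)) (BTr.n (BTr.b b0_11) (BTr.b b0_12)))))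
namespace T0
def l0 : Tr := Tr.L (Pth.l (Pth.l (Pth.l Pth.z)))
def l1 : Tr := Tr.L (Pth.l (Pth.l (Pth.r (Pth.l Pth.z))))
def l2 : Tr := Tr.L (Pth.l (Pth.l (Pth.r (Pth.r Pth.z))))
def l3 : Tr := Tr.L (Pth.l (Pth.r (Pth.l Pth.z)))
def l4 : Tr := Tr.L (Pth.l (Pth.r (Pth.r (Pth.l Pth.z))))
def l5 : Tr := Tr.L (Pth.l (Pth.r (Pth.r (Pth.r Pth.z))))
def l6 : Tr := Tr.L (Pth.r (Pth.l (Pth.l Pth.z)))
def l7 : Tr := Tr.L (Pth.r (Pth.l (Pth.r (Pth.l Pth.z))))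
def l8 : Tr := Tr.L (Pth.r (Pth.l (Pth.r (Pth.r Pth.z))))
def l9 : Tr := Tr.L (Pth.r (Pth.r (Pth.l (Pth.l Pth.z))))
def l10 : Tr := Tr.L (Pth.r (Pth.r (Pth.l (Pth.r Pth.z))))
def l11 : Tr := Tr.L (Pth.r (Pth.r (Pth.r (Pth.l Pth.z))))
def l12 : Tr := Tr.L (Pth.r (Pth.r (Pth.r (Pth.r Pth.z))))
end T0
def b1_0 : Bx := Bx.mk (St.mk (I.pos (nat_lit 156483584) (nat_lit 232800256)) (I.mix (nat_lit 278528) (nat_lit 48709632)) (I.mix (nat_lit 278528) (nat_lit 87179264)) (I.pos (nat_lit 118063104) (nat_lit 242057216)) (I.mix (nat_lit 127254528) (nat_lit 78823424)) (I.mix (nat_lit 79740928) (nat_lit 76431360)) (I.mix (nat_lit 113606656) (nat_lit 105086976)))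
  false (nat_lit 60400093)
def b1_1 : Bx := Bx.mk (St.mk (I.pos (nat_lit 99155968) (nat_lit 174325760)) (I.neg (nat_lit 2080768) (nat_lit 53362688)) (I.neg (nat_lit 4096000) (nat_lit 51658752)) (I.pos (nat_lit 76267520) (nat_lit 154533888)) (I.mix (nat_lit 95633408) (nat_lit 57982976)) (I.mix (nat_lit 54837248) (nat_lit 62603264)) (I.mix (nat_lit 45875200) (nat_lit 63160320)))
  false (nat_lit 39133082)
def b1_2 : Bx := Bx.mk (St.mk (I.mix (nat_lit 13205504) (nat_lit 127123456)) (I.mix (nat_lit 2179072) (nat_lit 25083904)) (I.mix (nat_lit 4096000) (nat_lit 20463616)) (I.pos (nat_lit 17842176) (nat_lit 97861632)) (I.mix (nat_lit 41500672) (nat_lit 38502400)) (I.mix (nat_lit 31064064) (nat_lit 27279360)) (I.mix (nat_lit 24985600) (nat_lit 20430848)))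
  false (nat_lit 0)
def b1_3 : Bx := Bx.mk (St.mk (I.mix (nat_lit 12845056) (nat_lit 99057664)) (I.mix (nat_lit 27377664) (nat_lit 884736)) (I.mix (nat_lit 17547264) (nat_lit 1294336)) (I.pos (nat_lit 18022400) (nat_lit 73728000)) (I.mix (nat_lit 38305792) (nat_lit 31342592)) (I.mix (nat_lit 22282240) (nat_lit 24854528)) (I.mix (nat_lit 13254656) (nat_lit 15728640)))
  false (nat_lit 0)
def b1_4 : Bx := Bx.mk (St.mk (I.pos (nat_lit 161218560) (nat_lit 206962688)) (I.mix (nat_lit 15417344) (nat_lit 42532864)) (I.pos (nat_lit 2375680) (nat_lit 74645504)) (I.pos (nat_lit 123191296) (nat_lit 201572352)) (I.mix (nat_lit 129957888) (nat_lit 53952512)) (I.mix (nat_lit 113803264) (nat_lit 63160320)) (I.mix (nat_lit 124682240) (nat_lit 63569920)))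
  false (nat_lit 0)
def b1_5 : Bx := Bx.mk (St.mk (I.pos (nat_lit 105791488) (nat_lit 149192704)) (I.mix (nat_lit 51658752) (nat_lit 2195456)) (I.neg (nat_lit 311296) (nat_lit 51544064)) (I.pos (nat_lit 65617920) (nat_lit 121405440)) (I.mix (nat_lit 105512960) (nat_lit 41861120)) (I.mix (nat_lit 39518208) (nat_lit 87031808)) (I.mix (nat_lit 28770304) (nat_lit 69222400)))
  false (nat_lit 9583544)
def b1_6 : Bx := Bx.mk (St.mk (I.mix (nat_lit 19087360) (nat_lit 119848960)) (I.mix (nat_lit 9109504) (nat_lit 30392320)) (I.mix (nat_lit 5455872) (nat_lit 24592384)) (I.pos (nat_lit 18317312) (nat_lit 90144768)) (I.mix (nat_lit 58818560) (nat_lit 30244864)) (I.mix (nat_lit 45334528) (nat_lit 26460160)) (I.mix (nat_lit 28164096) (nat_lit 16269312)))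
  false (nat_lit 0)
def b1_7 : Bx := Bx.mk (St.mk (I.mix (nat_lit 19316736) (nat_lit 89047040)) (I.mix (nat_lit 25591808) (nat_lit 1048576)) (I.mix (nat_lit 15958016) (nat_lit 1015808)) (I.pos (nat_lit 18399232) (nat_lit 66551808)) (I.mix (nat_lit 38895616) (nat_lit 16433152)) (I.mix (nat_lit 16629760) (nat_lit 28672000)) (I.mix (nat_lit 8945664) (nat_lit 14188544)))
  false (nat_lit 0)
def b1_8 : Bx := Bx.mk (St.mk (I.pos (nat_lit 192167936) (nat_lit 264749056)) (I.mix (nat_lit 7716864) (nat_lit 30638080)) (I.mix (nat_lit 15876096) (nat_lit 53723136)) (I.pos (nat_lit 188760064) (nat_lit 315949056)) (I.mix (nat_lit 94126080) (nat_lit 45072384)) (I.mix (nat_lit 58359808) (nat_lit 41156608)) (I.mix (nat_lit 96174080) (nat_lit 73973760)))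
  false (nat_lit 32972890)
def b1_9 : Bx := Bx.mk (St.mk (I.pos (nat_lit 151994368) (nat_lit 205488128)) (I.mix (nat_lit 35684352) (nat_lit 5193728)) (I.mix (nat_lit 31014912) (nat_lit 20807680)) (I.pos (nat_lit 114229248) (nat_lit 195313664)) (I.mix (nat_lit 70893568) (nat_lit 72056832)) (I.mix (nat_lit 68632576) (nat_lit 57638912)) (I.mix (nat_lit 73056256) (nat_lit 61390848)))
  false (nat_lit 77619949)
def b1_10 : Bx := Bx.mk (St.mk (I.pos (nat_lit 150110208) (nat_lit 173621248)) (I.neg (nat_lit 13697024) (nat_lit 35553280)) (I.neg (nat_lit 7733248) (nat_lit 32915456)) (I.pos (nat_lit 113442816) (nat_lit 153649152)) (I.mix (nat_lit 30081024) (nat_lit 16973824)) (I.mix (nat_lit 12419072) (nat_lit 15761408)) (I.mix (nat_lit 12812288) (nat_lit 16596992)))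
  false (nat_lit 0)
def b1_11 : Bx := Bx.mk (St.mk (I.pos (nat_lit 110346240) (nat_lit 126173184)) (I.mix (nat_lit 409600) (nat_lit 6848512)) (I.mix (nat_lit 3506176) (nat_lit 4227072)) (I.pos (nat_lit 66732032) (nat_lit 97157120)) (I.mix (nat_lit 7274496) (nat_lit 9977856)) (I.mix (nat_lit 5505024) (nat_lit 4161536)) (I.mix (nat_lit 4931584) (nat_lit 3145728)))
  false (nat_lit 0)
def b1_12 : Bx := Bx.mk (St.mk (I.mix (nat_lit 20283392) (nat_lit 98320384)) (I.mix (nat_lit 11288576) (nat_lit 1146880)) (I.mix (nat_lit 6520832) (nat_lit 1425408)) (I.pos (nat_lit 18776064) (nat_lit 73089024)) (I.mix (nat_lit 5046272) (nat_lit 7094272)) (I.mix (nat_lit 3981312) (nat_lit 3997696)) (I.mix (nat_lit 2031616) (nat_lit 2277376)))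
  false (nat_lit 0)
def b1_13 : Bx := Bx.mk (St.mk (I.mix (nat_lit 20496384) (nat_lit 28901376)) (I.mix (nat_lit 557056) (nat_lit 4472832)) (I.mix (nat_lit 2048000) (nat_lit 212992)) (I.pos (nat_lit 18546688) (nat_lit 39682048)) (I.mix (nat_lit 4947968) (nat_lit 7503872)) (I.mix (nat_lit 4145152) (nat_lit 4030464)) (I.mix (nat_lit 999424) (nat_lit 917504)))
  false (nat_lit 0)
def b1_14 : Bx := Bx.mk (St.mk (I.pos (nat_lit 184270848) (nat_lit 232275968)) (I.pos (nat_lit 13369344) (nat_lit 47923200)) (I.pos (nat_lit 25657344) (nat_lit 83836928)) (I.pos (nat_lit 181125120) (nat_lit 239681536)) (I.mix (nat_lit 99401728) (nat_lit 79413248)) (I.mix (nat_lit 83066880) (nat_lit 63782912)) (I.mix (nat_lit 128630784) (nat_lit 78200832)))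
  false (nat_lit 53347702)
def b1_15 : Bx := Bx.mk (St.mk (I.pos (nat_lit 163954688) (nat_lit 203472896)) (I.mix (nat_lit 16252928) (nat_lit 18907136)) (I.mix (nat_lit 622592) (nat_lit 43106304)) (I.pos (nat_lit 129187840) (nat_lit 189022208)) (I.mix (nat_lit 107806720) (nat_lit 54755328)) (I.mix (nat_lit 104693760) (nat_lit 51265536)) (I.mix (nat_lit 115556352) (nat_lit 54378496)))
  false (nat_lit 12563800)
def t1 : BTr := (BTr.n (BTr.n (BTr.n (BTr.n (BTr.b b1_0) (BTr.b b1_1)) (BTr.n (BTr.b b1_2) (BTr.b b1_3))) (BTr.n (BTr.n (BTr.b b1_4) (BTr.b b1_5)) (BTr.n (BTr.b b1_6) (BTr.b b1_7)))) (BTr.n (BTr.n (BTr.n (BTr.b b1_8) (BTr.b b1_9)) (BTr.n (BTr.b b1_10) (BTr.b b1_11))) (BTr.n (BTr.n (BTr.b b1_12) (BTr.b b1_13)) (BTr.n (BTr.b b1_14) (BTr.b b1_15)))))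
namespace T1
def l0 : Tr := Tr.L (Pth.l (Pth.l (Pth.l (Pth.l Pth.z))))
def l1 : Tr := Tr.L (Pth.l (Pth.l (Pth.l (Pth.r Pth.z))))
def l2 : Tr := Tr.L (Pth.l (Pth.l (Pth.r (Pth.l Pth.z))))
def l3 : Tr := Tr.L (Pth.l (Pth.l (Pth.r (Pth.r Pth.z))))
def l4 : Tr := Tr.L (Pth.l (Pth.r (Pth.l (Pth.l Pth.z))))
def l5 : Tr := Tr.L (Pth.l (Pth.r (Pth.l (Pth.r Pth.z))))
def l6 : Tr := Tr.L (Pth.l (Pth.r (Pth.r (Pth.l Pth.z))))
def l7 : Tr := Tr.L (Pth.l (Pth.r (Pth.r (Pth.r Pth.z))))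
def l8 : Tr := Tr.L (Pth.r (Pth.l (Pth.l (Pth.l Pth.z))))
def l9 : Tr := Tr.L (Pth.r (Pth.l (Pth.l (Pth.r Pth.z))))
def l10 : Tr := Tr.L (Pth.r (Pth.l (Pth.r (Pth.l Pth.z))))
def l11 : Tr := Tr.L (Pth.r (Pth.l (Pth.r (Pth.r Pth.z))))
def l12 : Tr := Tr.L (Pth.r (Pth.r (Pth.l (Pth.l Pth.z))))
def l13 : Tr := Tr.L (Pth.r (Pth.r (Pth.l (Pth.r Pth.z))))
def l14 : Tr := Tr.L (Pth.r (Pth.r (Pth.r (Pth.l Pth.z))))
def l15 : Tr := Tr.L (Pth.r (Pth.r (Pth.r (Pth.r Pth.z))))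
end T1
def b2_0 : Bx := Bx.mk (St.mk (I.pos (nat_lit 136757248) (nat_lit 218628096)) (I.mix (nat_lit 278528) (nat_lit 65208320)) (I.mix (nat_lit 278528) (nat_lit 110919680)) (I.pos (nat_lit 235077632) (nat_lit 321470464)) (I.mix (nat_lit 153403392) (nat_lit 92454912)) (I.mix (nat_lit 91013120) (nat_lit 88555520)) (I.mix (nat_lit 114196480) (nat_lit 106496000)))
  false (nat_lit 109351045)
def b2_1 : Bx := Bx.mk (St.mk (I.pos (nat_lit 69681152) (nat_lit 143458304)) (I.neg (nat_lit 11108352) (nat_lit 73334784)) (I.mix (nat_lit 46727168) (nat_lit 8765440)) (I.pos (nat_lit 170295296) (nat_lit 222986240)) (I.mix (nat_lit 104169472) (nat_lit 77168640)) (I.mix (nat_lit 62472192) (nat_lit 60407808)) (I.mix (nat_lit 51200000) (nat_lit 53051392)))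
  false (nat_lit 67289939)
def b2_2 : Bx := Bx.mk (St.mk (I.mix (nat_lit 31719424) (nat_lit 3457024)) (I.mix (nat_lit 40009728) (nat_lit 999424)) (I.pos (nat_lit 8781824) (nat_lit 16416768)) (I.pos (nat_lit 141623296) (nat_lit 152027136)) (I.mix (nat_lit 31342592) (nat_lit 58114048)) (I.mix (nat_lit 29392896) (nat_lit 38436864)) (I.mix (nat_lit 6488064) (nat_lit 9732096)))
  true (nat_lit 0)
def b2_3 : Bx := Bx.mk (St.mk (I.pos (nat_lit 136314880) (nat_lit 184664064)) (I.mix (nat_lit 311296) (nat_lit 56475648)) (I.pos (nat_lit 34406400) (nat_lit 103448576)) (I.pos (nat_lit 214564864) (nat_lit 277118976)) (I.mix (nat_lit 149471232) (nat_lit 45858816)) (I.mix (nat_lit 121946112) (nat_lit 64045056)) (I.mix (nat_lit 119848960) (nat_lit 68452352)))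
  false (nat_lit 62223292)
def b2_4 : Bx := Bx.mk (St.mk (I.mix (nat_lit 6062080) (nat_lit 31719424)) (I.mix (nat_lit 2113536) (nat_lit 40009728)) (I.pos (nat_lit 8781824) (nat_lit 16416768)) (I.pos (nat_lit 141623296) (nat_lit 152027136)) (I.mix (nat_lit 58114048) (nat_lit 31342592)) (I.mix (nat_lit 38436864) (nat_lit 29392896)) (I.mix (nat_lit 6488064) (nat_lit 9732096)))
  false (nat_lit 0)
def b2_5 : Bx := Bx.mk (St.mk (I.pos (nat_lit 129204224) (nat_lit 186531840)) (I.mix (nat_lit 29310976) (nat_lit 12468224)) (I.pos (nat_lit 573440) (nat_lit 50151424)) (I.pos (nat_lit 206929920) (nat_lit 267714560)) (I.mix (nat_lit 76103680) (nat_lit 72974336)) (I.mix (nat_lit 64634880) (nat_lit 63389696)) (I.mix (nat_lit 60801024) (nat_lit 61456384)))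
  false (nat_lit 57489610)
def b2_6 : Bx := Bx.mk (St.mk (I.pos (nat_lit 120799232) (nat_lit 149192704)) (I.neg (nat_lit 18497536) (nat_lit 43909120)) (I.mix (nat_lit 18186240) (nat_lit 10780672)) (I.pos (nat_lit 203522048) (nat_lit 227737600)) (I.mix (nat_lit 42762240) (nat_lit 32980992)) (I.mix (nat_lit 28360704) (nat_lit 22036480)) (I.mix (nat_lit 27148288) (nat_lit 21250048)))
  false (nat_lit 0)
def b2_7 : Bx := Bx.mk (St.mk (I.mix (nat_lit 8273920) (nat_lit 6062080)) (I.mix (nat_lit 13746176) (nat_lit 2113536)) (I.pos (nat_lit 9502720) (nat_lit 13451264)) (I.pos (nat_lit 141443072) (nat_lit 144703488)) (I.mix (nat_lit 14630912) (nat_lit 22708224)) (I.mix (nat_lit 14204928) (nat_lit 11878400)) (I.mix (nat_lit 1507328) (nat_lit 1310720)))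
  true (nat_lit 0)
def b2_8 : Bx := Bx.mk (St.mk (I.pos (nat_lit 13893632) (nat_lit 71680000)) (I.mix (nat_lit 7471104) (nat_lit 44269568)) (I.mix (nat_lit 8339456) (nat_lit 17891328)) (I.pos (nat_lit 142229504) (nat_lit 163528704)) (I.mix (nat_lit 49364992) (nat_lit 54362112)) (I.mix (nat_lit 43958272) (nat_lit 38944768)) (I.mix (nat_lit 23396352) (nat_lit 20234240)))
  false (nat_lit 0)
def b2_9 : Bx := Bx.mk (St.mk (I.pos (nat_lit 51363840) (nat_lit 105988096)) (I.mix (nat_lit 65044480) (nat_lit 7897088)) (I.mix (nat_lit 40075264) (nat_lit 1032192)) (I.pos (nat_lit 152190976) (nat_lit 191102976)) (I.mix (nat_lit 97452032) (nat_lit 43991040)) (I.mix (nat_lit 45416448) (nat_lit 70909952)) (I.mix (nat_lit 34914304) (nat_lit 39731200)))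
  false (nat_lit 4997903)
def b2_10 : Bx := Bx.mk (St.mk (I.neg (nat_lit 13893632) (nat_lit 71680000)) (I.mix (nat_lit 44269568) (nat_lit 7471104)) (I.mix (nat_lit 8339456) (nat_lit 17891328)) (I.pos (nat_lit 142229504) (nat_lit 163545088)) (I.mix (nat_lit 54362112) (nat_lit 49364992)) (I.mix (nat_lit 38944768) (nat_lit 43958272)) (I.mix (nat_lit 23396352) (nat_lit 20234240)))
  true (nat_lit 0)
def b2_11 : Bx := Bx.mk (St.mk (I.pos (nat_lit 171589632) (nat_lit 285818880)) (I.mix (nat_lit 20512768) (nat_lit 46907392)) (I.mix (nat_lit 49217536) (nat_lit 81559552)) (I.pos (nat_lit 273334272) (nat_lit 449216512)) (I.mix (nat_lit 111656960) (nat_lit 74956800)) (I.mix (nat_lit 72024064) (nat_lit 52592640)) (I.mix (nat_lit 108412928) (nat_lit 84066304)))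
  false (nat_lit 88945815)
def b2_12 : Bx := Bx.mk (St.mk (I.pos (nat_lit 159318016) (nat_lit 215760896)) (I.pos (nat_lit 22609920) (nat_lit 61702144)) (I.pos (nat_lit 45694976) (nat_lit 107544576)) (I.pos (nat_lit 261652480) (nat_lit 317030400)) (I.mix (nat_lit 128204800) (nat_lit 90128384)) (I.mix (nat_lit 96681984) (nat_lit 71122944)) (I.mix (nat_lit 136478720) (nat_lit 79183872)))
  false (nat_lit 63049872)
def b2_13 : Bx := Bx.mk (St.mk (I.pos (nat_lit 138067968) (nat_lit 184385536)) (I.mix (nat_lit 10715136) (nat_lit 33095680)) (I.pos (nat_lit 20692992) (nat_lit 77103104)) (I.pos (nat_lit 216760320) (nat_lit 270598144)) (I.mix (nat_lit 130744320) (nat_lit 63094784)) (I.mix (nat_lit 117620736) (nat_lit 60899328)) (I.mix (nat_lit 114638848) (nat_lit 62619648)))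
  false (nat_lit 40655357)
def t2 : BTr := (BTr.n (BTr.n (BTr.n (BTr.b b2_0) (BTr.n (BTr.b b2_1) (BTr.b b2_2))) (BTr.n (BTr.n (BTr.b b2_3) (BTr.b b2_4)) (BTr.n (BTr.b b2_5) (BTr.b b2_6)))) (BTr.n (BTr.n (BTr.b b2_7) (BTr.n (BTr.b b2_8) (BTr.b b2_9))) (BTr.n (BTr.n (BTr.b b2_10) (BTr.b b2_11)) (BTr.n (BTr.b b2_12) (BTr.b b2_13)))))
namespace T2
def l0 : Tr := Tr.L (Pth.l (Pth.l (Pth.l Pth.z)))
def l1 : Tr := Tr.L (Pth.l (Pth.l (Pth.r (Pth.l Pth.z))))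
def l2 : Tr := Tr.L (Pth.l (Pth.l (Pth.r (Pth.r Pth.z))))
def l3 : Tr := Tr.L (Pth.l (Pth.r (Pth.l (Pth.l Pth.z))))
def l4 : Tr := Tr.L (Pth.l (Pth.r (Pth.l (Pth.r Pth.z))))
def l5 : Tr := Tr.L (Pth.l (Pth.r (Pth.r (Pth.l Pth.z))))
def l6 : Tr := Tr.L (Pth.l (Pth.r (Pth.r (Pth.r Pth.z))))
def l7 : Tr := Tr.L (Pth.r (Pth.l (Pth.l Pth.z)))
def l8 : Tr := Tr.L (Pth.r (Pth.l (Pth.r (Pth.l Pth.z))))
def l9 : Tr := Tr.L (Pth.r (Pth.l (Pth.r (Pth.r Pth.z))))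
def l10 : Tr := Tr.L (Pth.r (Pth.r (Pth.l (Pth.l Pth.z))))
def l11 : Tr := Tr.L (Pth.r (Pth.r (Pth.l (Pth.r Pth.z))))
def l12 : Tr := Tr.L (Pth.r (Pth.r (Pth.r (Pth.l Pth.z))))
def l13 : Tr := Tr.L (Pth.r (Pth.r (Pth.r (Pth.r Pth.z))))
end T2
theorem bx0_0 : BoxOK sI cl5 cl5 cl9 t0 t2 b0_0 :=
  box_mk (TrL.c (I.pos (nat_lit 0) (nat_lit 0)) (xa (xb (xa T0.l0 T0.l0) (xa (xb T0.l0 T0.l0) (xb T0.l0 T0.l0))) (xb T0.l0 (xa (xb T0.l0 T0.l0) (xb T0.l0 T0.l0))))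
  (TrL.c (I.pos (nat_lit 0) (nat_lit 0)) T2.l1
  (TrL.c (I.pos (nat_lit 0) (nat_lit 0)) T0.l1
  (TrL.c (I.pos (nat_lit 0) (nat_lit 0)) T2.l2
  (TrL.c (I.pos (nat_lit 0) (nat_lit 0)) (xb (xa T2.l3 (xb T2.l3 T2.l3)) (xa T2.l3 (xb T2.l3 T2.l3)))
  (TrL.c (I.pos (nat_lit 0) (nat_lit 0)) T0.l2
  (TrL.c (I.pos (nat_lit 0) (nat_lit 0)) T2.l4
  (TrL.c (I.pos (nat_lit 0) (nat_lit 0)) T0.l3
  TrL.n)))))))) (by decide +kernel)
theorem bx0_1 : BoxOK sI cl5 cl5 cl9 t0 t2 b0_1 :=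
  box_mk (TrL.c (I.pos (nat_lit 0) (nat_lit 0)) (xb T0.l4 (xa T0.l4 T0.l4))
  (TrL.c (I.pos (nat_lit 0) (nat_lit 0)) T2.l1
  (TrL.c (I.pos (nat_lit 0) (nat_lit 0)) T0.l1
  (TrL.c (I.pos (nat_lit 0) (nat_lit 0)) T2.l2
  (TrL.c (I.pos (nat_lit 0) (nat_lit 0)) T2.l5
  (TrL.c (I.pos (nat_lit 0) (nat_lit 0)) T0.l2
  (TrL.c (I.pos (nat_lit 0) (nat_lit 0)) T2.l4
  (TrL.c (I.pos (nat_lit 0) (nat_lit 0)) T0.l3
  TrL.n)))))))) (by decide +kernel)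
theorem bx0_2 : BoxOK sI cl5 cl5 cl9 t0 t2 b0_2 :=
  box_mk (TrL.c (I.pos (nat_lit 0) (nat_lit 0)) (xb T0.l4 (xa T0.l4 T0.l4))
  (TrL.c (I.pos (nat_lit 0) (nat_lit 0)) T2.l1
  (TrL.c (I.pos (nat_lit 0) (nat_lit 0)) T0.l1
  (TrL.c (I.pos (nat_lit 0) (nat_lit 0)) T2.l2
  (TrL.c (I.pos (nat_lit 0) (nat_lit 0)) T2.l5
  (TrL.c (I.pos (nat_lit 0) (nat_lit 0)) T0.l2
  (TrL.c (I.pos (nat_lit 0) (nat_lit 0)) T2.l4
  (TrL.c (I.pos (nat_lit 0) (nat_lit 0)) T0.l3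
  TrL.n)))))))) (by decide +kernel)
theorem bx0_3 : BoxOK sI cl5 cl5 cl9 t0 t2 b0_3 :=
  box_mk (TrL.c (I.pos (nat_lit 0) (nat_lit 0)) T2.l6
  (TrL.c (I.pos (nat_lit 0) (nat_lit 0)) T0.l5
  (TrL.c (I.pos (nat_lit 0) (nat_lit 0)) T2.l7
  TrL.n))) (by decide +kernel)
theorem bx0_4 : BoxOK sI cl5 cl5 cl9 t0 t2 b0_4 :=
  box_mk (TrL.c (I.pos (nat_lit 0) (nat_lit 0)) (xa (xb T0.l0 T0.l0) (xb T0.l0 (xa T0.l0 T0.l0)))
  (TrL.c (I.pos (nat_lit 0) (nat_lit 0)) T2.l1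
  (TrL.c (I.pos (nat_lit 0) (nat_lit 0)) T0.l1
  (TrL.c (I.pos (nat_lit 0) (nat_lit 0)) T2.l2
  (TrL.c (I.pos (nat_lit 0) (nat_lit 0)) (xa T2.l3 (xb (xa T2.l3 T2.l3) (xa T2.l3 T2.l3)))
  (TrL.c (I.pos (nat_lit 0) (nat_lit 0)) T0.l2
  (TrL.c (I.pos (nat_lit 0) (nat_lit 0)) T2.l4
  (TrL.c (I.pos (nat_lit 0) (nat_lit 0)) T0.l3
  TrL.n)))))))) (by decide +kernel)
theorem bx0_5 : BoxOK sI cl5 cl5 cl9 t0 t2 b0_5 :=
  box_mk (TrL.c (I.pos (nat_lit 0) (nat_lit 0)) T0.l4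
  (TrL.c (I.pos (nat_lit 0) (nat_lit 0)) T2.l1
  (TrL.c (I.pos (nat_lit 0) (nat_lit 0)) T0.l1
  (TrL.c (I.pos (nat_lit 0) (nat_lit 0)) T2.l2
  (TrL.c (I.pos (nat_lit 0) (nat_lit 0)) T2.l5
  (TrL.c (I.pos (nat_lit 0) (nat_lit 0)) T0.l2
  (TrL.c (I.pos (nat_lit 0) (nat_lit 0)) T2.l4
  (TrL.c (I.pos (nat_lit 0) (nat_lit 0)) T0.l3
  TrL.n)))))))) (by decide +kernel)
theorem bx0_6 : BoxOK sI cl5 cl5 cl9 t0 t2 b0_6 :=
  box_mk (TrL.c (I.pos (nat_lit 0) (nat_lit 0)) (xa (xb (xa T0.l4 T0.l4) (xa T0.l4 T0.l4)) (xb T0.l4 (xa T0.l4 T0.l4)))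
  (TrL.c (I.pos (nat_lit 0) (nat_lit 0)) T2.l1
  (TrL.c (I.pos (nat_lit 0) (nat_lit 0)) T0.l1
  (TrL.c (I.pos (nat_lit 0) (nat_lit 0)) T2.l2
  (TrL.c (I.pos (nat_lit 0) (nat_lit 0)) (xa T2.l5 T2.l5)
  (TrL.c (I.pos (nat_lit 0) (nat_lit 0)) T0.l2
  (TrL.c (I.pos (nat_lit 0) (nat_lit 0)) T2.l4
  (TrL.c (I.pos (nat_lit 0) (nat_lit 0)) T0.l3
  TrL.n)))))))) (by decide +kernel)
theorem bx0_7 : BoxOK sI cl5 cl5 cl9 t0 t2 b0_7 :=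
  box_mk (TrL.c (I.pos (nat_lit 0) (nat_lit 0)) T2.l6
  (TrL.c (I.pos (nat_lit 0) (nat_lit 0)) T0.l5
  (TrL.c (I.pos (nat_lit 0) (nat_lit 0)) T2.l7
  TrL.n))) (by decide +kernel)
theorem bx0_8 : BoxOK sI cl5 cl5 cl9 t0 t2 b0_8 :=
  box_mk (TrL.c (I.pos (nat_lit 0) (nat_lit 0)) (xa (xb T0.l12 T0.l12) (xb T0.l12 T0.l12))
  (TrL.c (I.pos (nat_lit 0) (nat_lit 0)) T2.l1
  (TrL.c (I.pos (nat_lit 0) (nat_lit 0)) T0.l1
  (TrL.c (I.pos (nat_lit 0) (nat_lit 0)) T2.l2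
  (TrL.c (I.pos (nat_lit 0) (nat_lit 0)) (xb T2.l13 T2.l13)
  (TrL.c (I.pos (nat_lit 0) (nat_lit 0)) T0.l2
  (TrL.c (I.pos (nat_lit 0) (nat_lit 0)) T2.l4
  (TrL.c (I.pos (nat_lit 0) (nat_lit 0)) T0.l3
  TrL.n)))))))) (by decide +kernel)
theorem bx0_9 : BoxOK sI cl5 cl5 cl9 t0 t2 b0_9 :=
  box_mk (TrL.c (I.pos (nat_lit 0) (nat_lit 0)) (xb (xa (xb T0.l4 T0.l4) T0.l4) (xa (xb T0.l4 T0.l4) T0.l4))
  (TrL.c (I.pos (nat_lit 0) (nat_lit 0)) T2.l6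
  (TrL.c (I.pos (nat_lit 0) (nat_lit 0)) T0.l5
  (TrL.c (I.pos (nat_lit 0) (nat_lit 0)) T2.l7
  (TrL.c (I.pos (nat_lit 0) (nat_lit 0)) T2.l5
  (TrL.c (I.pos (nat_lit 0) (nat_lit 0)) T0.l2
  (TrL.c (I.pos (nat_lit 0) (nat_lit 0)) T2.l4
  (TrL.c (I.pos (nat_lit 0) (nat_lit 0)) T0.l3
  TrL.n)))))))) (by decide +kernel)
theorem bx0_10 : BoxOK sI cl5 cl5 cl9 t0 t2 b0_10 :=
  box_mk (TrL.c (I.pos (nat_lit 0) (nat_lit 0)) (xa (xb T0.l12 T0.l12) (xb T0.l12 T0.l12))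
  (TrL.c (I.pos (nat_lit 0) (nat_lit 0)) T2.l1
  (TrL.c (I.pos (nat_lit 0) (nat_lit 0)) T0.l1
  (TrL.c (I.pos (nat_lit 0) (nat_lit 0)) T2.l2
  (TrL.c (I.pos (nat_lit 0) (nat_lit 0)) (xa T2.l13 (xb T2.l13 T2.l13))
  (TrL.c (I.pos (nat_lit 0) (nat_lit 0)) T0.l2
  (TrL.c (I.pos (nat_lit 0) (nat_lit 0)) T2.l4
  (TrL.c (I.pos (nat_lit 0) (nat_lit 0)) T0.l3
  TrL.n)))))))) (by decide +kernel)
theorem bx0_11 : BoxOK sI cl5 cl5 cl9 t0 t2 b0_11 :=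
  box_mk (TrL.c (I.pos (nat_lit 0) (nat_lit 0)) (xa T0.l12 T0.l12)
  (TrL.c (I.pos (nat_lit 0) (nat_lit 0)) T2.l1
  (TrL.c (I.pos (nat_lit 0) (nat_lit 0)) T0.l1
  (TrL.c (I.pos (nat_lit 0) (nat_lit 0)) T2.l2
  (TrL.c (I.pos (nat_lit 0) (nat_lit 0)) T2.l13
  (TrL.c (I.pos (nat_lit 0) (nat_lit 0)) T0.l2
  (TrL.c (I.pos (nat_lit 0) (nat_lit 0)) T2.l4
  (TrL.c (I.pos (nat_lit 0) (nat_lit 0)) T0.l3
  TrL.n)))))))) (by decide +kernel)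
theorem bx0_12 : BoxOK sI cl5 cl5 cl9 t0 t2 b0_12 :=
  box_mk (TrL.c (I.pos (nat_lit 0) (nat_lit 0)) (xa (xb T0.l0 (xb T0.l0 T0.l0)) (xb T0.l0 (xb T0.l0 T0.l0)))
  (TrL.c (I.pos (nat_lit 0) (nat_lit 0)) T2.l1
  (TrL.c (I.pos (nat_lit 0) (nat_lit 0)) T0.l1
  (TrL.c (I.pos (nat_lit 0) (nat_lit 0)) T2.l2
  (TrL.c (I.pos (nat_lit 0) (nat_lit 0)) (xb (xa T2.l3 T2.l3) (xa T2.l3 T2.l3))
  (TrL.c (I.pos (nat_lit 0) (nat_lit 0)) T0.l2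
  (TrL.c (I.pos (nat_lit 0) (nat_lit 0)) T2.l4
  (TrL.c (I.pos (nat_lit 0) (nat_lit 0)) T0.l3
  TrL.n)))))))) (by decide +kernel)
theorem sv0 : StarV sI cl5 cl5 cl9 t0 t2 t0 :=
  (bt_n (bt_n (bt_n (bt_b bx0_0) (bt_n (bt_b bx0_1) (bt_b bx0_2))) (bt_n (bt_b bx0_3) (bt_n (bt_b bx0_4) (bt_b bx0_5)))) (bt_n (bt_n (bt_b bx0_6) (bt_n (bt_b bx0_7) (bt_b bx0_8))) (bt_n (bt_n (bt_b bx0_9) (bt_b bx0_10)) (bt_n (bt_b bx0_11) (bt_b bx0_12)))))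
def S0 : StarD := StarD.mk cl5 cl5 cl9 0 2 t0
theorem bx1_0 : BoxOK sI cl5 cl9 cl5 t2 t0 b1_0 :=
  box_mk (TrL.c (I.pos (nat_lit 0) (nat_lit 0)) (xa (xb (xa (xb T2.l0 T2.l0) T2.l0) (xa (xb T2.l0 T2.l0) (xb T2.l0 T2.l0))) (xb (xa T2.l0 T2.l0) (xa (xb T2.l0 T2.l0) (xb T2.l0 T2.l0))))
  (TrL.c (I.pos (nat_lit 0) (nat_lit 0)) (xa T0.l6 T0.l6)
  (TrL.c (I.pos (nat_lit 0) (nat_lit 0)) T2.l8
  (TrL.c (I.pos (nat_lit 0) (nat_lit 0)) T0.l7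
  (TrL.c (I.pos (nat_lit 0) (nat_lit 0)) (xa T0.l8 (xb T0.l8 T0.l8))
  (TrL.c (I.pos (nat_lit 0) (nat_lit 0)) T2.l9
  (TrL.c (I.pos (nat_lit 0) (nat_lit 0)) T0.l9
  (TrL.c (I.pos (nat_lit 0) (nat_lit 0)) T2.l10
  TrL.n)))))))) (by decide +kernel)
theorem bx1_1 : BoxOK sI cl5 cl9 cl5 t2 t0 b1_1 :=
  box_mk (TrL.c (I.pos (nat_lit 0) (nat_lit 0)) (xa (xb (xa T2.l11 T2.l11) (xa T2.l11 T2.l11)) (xb T2.l11 (xa T2.l11 T2.l11)))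
  (TrL.c (I.pos (nat_lit 0) (nat_lit 0)) T0.l6
  (TrL.c (I.pos (nat_lit 0) (nat_lit 0)) T2.l8
  (TrL.c (I.pos (nat_lit 0) (nat_lit 0)) T0.l7
  (TrL.c (I.pos (nat_lit 0) (nat_lit 0)) (xa T0.l10 T0.l10)
  (TrL.c (I.pos (nat_lit 0) (nat_lit 0)) T2.l9
  (TrL.c (I.pos (nat_lit 0) (nat_lit 0)) T0.l9
  (TrL.c (I.pos (nat_lit 0) (nat_lit 0)) T2.l10
  TrL.n)))))))) (by decide +kernel)
theorem bx1_2 : BoxOK sI cl5 cl9 cl5 t2 t0 b1_2 :=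
  box_mk (TrL.c (I.pos (nat_lit 0) (nat_lit 0)) (xa (xa T2.l11 T2.l11) (xa T2.l11 (xa T2.l11 T2.l11)))
  (TrL.c (I.pos (nat_lit 0) (nat_lit 0)) T0.l6
  (TrL.c (I.pos (nat_lit 0) (nat_lit 0)) T2.l8
  (TrL.c (I.pos (nat_lit 0) (nat_lit 0)) T0.l7
  (TrL.c (I.pos (nat_lit 0) (nat_lit 0)) (xa T0.l10 T0.l10)
  (TrL.c (I.pos (nat_lit 0) (nat_lit 0)) T2.l9
  (TrL.c (I.pos (nat_lit 0) (nat_lit 0)) T0.l9
  (TrL.c (I.pos (nat_lit 0) (nat_lit 0)) T2.l10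
  TrL.n)))))))) (by decide +kernel)
theorem bx1_3 : BoxOK sI cl5 cl9 cl5 t2 t0 b1_3 :=
  box_mk (TrL.c (I.pos (nat_lit 0) (nat_lit 0)) (xa T2.l11 T2.l11)
  (TrL.c (I.pos (nat_lit 0) (nat_lit 0)) T0.l6
  (TrL.c (I.pos (nat_lit 0) (nat_lit 0)) T2.l8
  (TrL.c (I.pos (nat_lit 0) (nat_lit 0)) T0.l7
  (TrL.c (I.pos (nat_lit 0) (nat_lit 0)) (xa T0.l10 T0.l10)
  (TrL.c (I.pos (nat_lit 0) (nat_lit 0)) T2.l9
  (TrL.c (I.pos (nat_lit 0) (nat_lit 0)) T0.l9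
  (TrL.c (I.pos (nat_lit 0) (nat_lit 0)) T2.l10
  TrL.n)))))))) (by decide +kernel)
theorem bx1_4 : BoxOK sI cl5 cl9 cl5 t2 t0 b1_4 :=
  box_mk (TrL.c (I.pos (nat_lit 0) (nat_lit 0)) (xb (xa (xb (xb T2.l12 T2.l12) T2.l12) (xb (xb T2.l12 (xa T2.l12 T2.l12)) T2.l12)) (xa (xb T2.l12 (xa T2.l12 T2.l12)) (xb T2.l12 T2.l12)))
  (TrL.c (I.pos (nat_lit 0) (nat_lit 0)) T0.l6
  (TrL.c (I.pos (nat_lit 0) (nat_lit 0)) T2.l8
  (TrL.c (I.pos (nat_lit 0) (nat_lit 0)) T0.l7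
  (TrL.c (I.pos (nat_lit 0) (nat_lit 0)) (xb T0.l11 T0.l11)
  (TrL.c (I.pos (nat_lit 0) (nat_lit 0)) T2.l9
  (TrL.c (I.pos (nat_lit 0) (nat_lit 0)) T0.l9
  (TrL.c (I.pos (nat_lit 0) (nat_lit 0)) T2.l10
  TrL.n)))))))) (by decide +kernel)
theorem bx1_5 : BoxOK sI cl5 cl9 cl5 t2 t0 b1_5 :=
  box_mk (TrL.c (I.pos (nat_lit 0) (nat_lit 0)) (xb T2.l11 (xa T2.l11 T2.l11))
  (TrL.c (I.pos (nat_lit 0) (nat_lit 0)) T0.l6
  (TrL.c (I.pos (nat_lit 0) (nat_lit 0)) T2.l8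
  (TrL.c (I.pos (nat_lit 0) (nat_lit 0)) T0.l7
  (TrL.c (I.pos (nat_lit 0) (nat_lit 0)) T0.l10
  (TrL.c (I.pos (nat_lit 0) (nat_lit 0)) T2.l9
  (TrL.c (I.pos (nat_lit 0) (nat_lit 0)) T0.l9
  (TrL.c (I.pos (nat_lit 0) (nat_lit 0)) T2.l10
  TrL.n)))))))) (by decide +kernel)
theorem bx1_6 : BoxOK sI cl5 cl9 cl5 t2 t0 b1_6 :=
  box_mk (TrL.c (I.pos (nat_lit 0) (nat_lit 0)) (xa (xa (xb T2.l11 (xa (xb T2.l11 T2.l11) T2.l11)) T2.l11) (xa T2.l11 (xb T2.l11 (xa T2.l11 T2.l11))))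
  (TrL.c (I.pos (nat_lit 0) (nat_lit 0)) (xa T0.l6 T0.l6)
  (TrL.c (I.pos (nat_lit 0) (nat_lit 0)) T2.l8
  (TrL.c (I.pos (nat_lit 0) (nat_lit 0)) T0.l7
  (TrL.c (I.pos (nat_lit 0) (nat_lit 0)) (xa T0.l10 T0.l10)
  (TrL.c (I.pos (nat_lit 0) (nat_lit 0)) T2.l9
  (TrL.c (I.pos (nat_lit 0) (nat_lit 0)) T0.l9
  (TrL.c (I.pos (nat_lit 0) (nat_lit 0)) T2.l10
  TrL.n)))))))) (by decide +kernel)
theorem bx1_7 : BoxOK sI cl5 cl9 cl5 t2 t0 b1_7 :=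
  box_mk (TrL.c (I.pos (nat_lit 0) (nat_lit 0)) (xa (xa (xb (xa T2.l11 T2.l11) T2.l11) T2.l11) T2.l11)
  (TrL.c (I.pos (nat_lit 0) (nat_lit 0)) T0.l6
  (TrL.c (I.pos (nat_lit 0) (nat_lit 0)) T2.l8
  (TrL.c (I.pos (nat_lit 0) (nat_lit 0)) T0.l7
  (TrL.c (I.pos (nat_lit 0) (nat_lit 0)) (xa T0.l10 T0.l10)
  (TrL.c (I.pos (nat_lit 0) (nat_lit 0)) T2.l9
  (TrL.c (I.pos (nat_lit 0) (nat_lit 0)) T0.l9
  (TrL.c (I.pos (nat_lit 0) (nat_lit 0)) T2.l10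
  TrL.n)))))))) (by decide +kernel)
theorem bx1_8 : BoxOK sI cl5 cl9 cl5 t2 t0 b1_8 :=
  box_mk (TrL.c (I.pos (nat_lit 0) (nat_lit 0)) (xa T2.l0 (xa T2.l0 (xb T2.l0 T2.l0)))
  (TrL.c (I.pos (nat_lit 0) (nat_lit 0)) T0.l6
  (TrL.c (I.pos (nat_lit 0) (nat_lit 0)) T2.l8
  (TrL.c (I.pos (nat_lit 0) (nat_lit 0)) T0.l7
  (TrL.c (I.pos (nat_lit 0) (nat_lit 0)) (xa T0.l8 (xb (xa T0.l8 T0.l8) T0.l8))
  (TrL.c (I.pos (nat_lit 0) (nat_lit 0)) T2.l9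
  (TrL.c (I.pos (nat_lit 0) (nat_lit 0)) T0.l9
  (TrL.c (I.pos (nat_lit 0) (nat_lit 0)) T2.l10
  TrL.n)))))))) (by decide +kernel)
theorem bx1_9 : BoxOK sI cl5 cl9 cl5 t2 t0 b1_9 :=
  box_mk (TrL.c (I.pos (nat_lit 0) (nat_lit 0)) (xa (xb T2.l0 T2.l0) T2.l0)
  (TrL.c (I.pos (nat_lit 0) (nat_lit 0)) T0.l6
  (TrL.c (I.pos (nat_lit 0) (nat_lit 0)) T2.l8
  (TrL.c (I.pos (nat_lit 0) (nat_lit 0)) T0.l7
  (TrL.c (I.pos (nat_lit 0) (nat_lit 0)) (xa T0.l11 T0.l11)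
  (TrL.c (I.pos (nat_lit 0) (nat_lit 0)) T2.l9
  (TrL.c (I.pos (nat_lit 0) (nat_lit 0)) T0.l9
  (TrL.c (I.pos (nat_lit 0) (nat_lit 0)) T2.l10
  TrL.n)))))))) (by decide +kernel)
theorem bx1_10 : BoxOK sI cl5 cl9 cl5 t2 t0 b1_10 :=
  box_mk (TrL.c (I.pos (nat_lit 0) (nat_lit 0)) T2.l11
  (TrL.c (I.pos (nat_lit 0) (nat_lit 0)) T0.l6
  (TrL.c (I.pos (nat_lit 0) (nat_lit 0)) T2.l8
  (TrL.c (I.pos (nat_lit 0) (nat_lit 0)) T0.l7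
  (TrL.c (I.pos (nat_lit 0) (nat_lit 0)) T0.l10
  (TrL.c (I.pos (nat_lit 0) (nat_lit 0)) T2.l9
  (TrL.c (I.pos (nat_lit 0) (nat_lit 0)) T0.l9
  (TrL.c (I.pos (nat_lit 0) (nat_lit 0)) T2.l10
  TrL.n)))))))) (by decide +kernel)
theorem bx1_11 : BoxOK sI cl5 cl9 cl5 t2 t0 b1_11 :=
  box_mk (TrL.c (I.pos (nat_lit 0) (nat_lit 0)) T2.l11
  (TrL.c (I.pos (nat_lit 0) (nat_lit 0)) T0.l6
  (TrL.c (I.pos (nat_lit 0) (nat_lit 0)) T2.l8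
  (TrL.c (I.pos (nat_lit 0) (nat_lit 0)) T0.l7
  (TrL.c (I.pos (nat_lit 0) (nat_lit 0)) T0.l10
  (TrL.c (I.pos (nat_lit 0) (nat_lit 0)) T2.l9
  (TrL.c (I.pos (nat_lit 0) (nat_lit 0)) T0.l9
  (TrL.c (I.pos (nat_lit 0) (nat_lit 0)) T2.l10
  TrL.n)))))))) (by decide +kernel)
theorem bx1_12 : BoxOK sI cl5 cl9 cl5 t2 t0 b1_12 :=
  box_mk (TrL.c (I.pos (nat_lit 0) (nat_lit 0)) T2.l11
  (TrL.c (I.pos (nat_lit 0) (nat_lit 0)) T0.l6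
  (TrL.c (I.pos (nat_lit 0) (nat_lit 0)) T2.l8
  (TrL.c (I.pos (nat_lit 0) (nat_lit 0)) T0.l7
  (TrL.c (I.pos (nat_lit 0) (nat_lit 0)) (xa T0.l10 T0.l10)
  (TrL.c (I.pos (nat_lit 0) (nat_lit 0)) T2.l9
  (TrL.c (I.pos (nat_lit 0) (nat_lit 0)) T0.l9
  (TrL.c (I.pos (nat_lit 0) (nat_lit 0)) T2.l10
  TrL.n)))))))) (by decide +kernel)
theorem bx1_13 : BoxOK sI cl5 cl9 cl5 t2 t0 b1_13 :=
  box_mk (TrL.c (I.pos (nat_lit 0) (nat_lit 0)) T2.l11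
  (TrL.c (I.pos (nat_lit 0) (nat_lit 0)) T0.l6
  (TrL.c (I.pos (nat_lit 0) (nat_lit 0)) T2.l8
  (TrL.c (I.pos (nat_lit 0) (nat_lit 0)) T0.l7
  (TrL.c (I.pos (nat_lit 0) (nat_lit 0)) T0.l10
  (TrL.c (I.pos (nat_lit 0) (nat_lit 0)) T2.l9
  (TrL.c (I.pos (nat_lit 0) (nat_lit 0)) T0.l9
  (TrL.c (I.pos (nat_lit 0) (nat_lit 0)) T2.l10
  TrL.n)))))))) (by decide +kernel)
theorem bx1_14 : BoxOK sI cl5 cl9 cl5 t2 t0 b1_14 :=
  box_mk (TrL.c (I.pos (nat_lit 0) (nat_lit 0)) (xa (xb T2.l0 (xa T2.l0 T2.l0)) (xb T2.l0 (xa T2.l0 T2.l0)))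
  (TrL.c (I.pos (nat_lit 0) (nat_lit 0)) T0.l6
  (TrL.c (I.pos (nat_lit 0) (nat_lit 0)) T2.l8
  (TrL.c (I.pos (nat_lit 0) (nat_lit 0)) T0.l7
  (TrL.c (I.pos (nat_lit 0) (nat_lit 0)) (xa T0.l8 T0.l8)
  (TrL.c (I.pos (nat_lit 0) (nat_lit 0)) T2.l9
  (TrL.c (I.pos (nat_lit 0) (nat_lit 0)) T0.l9
  (TrL.c (I.pos (nat_lit 0) (nat_lit 0)) T2.l10
  TrL.n)))))))) (by decide +kernel)
theorem bx1_15 : BoxOK sI cl5 cl9 cl5 t2 t0 b1_15 :=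
  box_mk (TrL.c (I.pos (nat_lit 0) (nat_lit 0)) (xa (xb T2.l12 T2.l12) T2.l12)
  (TrL.c (I.pos (nat_lit 0) (nat_lit 0)) T0.l6
  (TrL.c (I.pos (nat_lit 0) (nat_lit 0)) T2.l8
  (TrL.c (I.pos (nat_lit 0) (nat_lit 0)) T0.l7
  (TrL.c (I.pos (nat_lit 0) (nat_lit 0)) T0.l11
  (TrL.c (I.pos (nat_lit 0) (nat_lit 0)) T2.l9
  (TrL.c (I.pos (nat_lit 0) (nat_lit 0)) T0.l9
  (TrL.c (I.pos (nat_lit 0) (nat_lit 0)) T2.l10
  TrL.n)))))))) (by decide +kernel)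
theorem sv1 : StarV sI cl5 cl9 cl5 t2 t0 t1 :=
  (bt_n (bt_n (bt_n (bt_n (bt_b bx1_0) (bt_b bx1_1)) (bt_n (bt_b bx1_2) (bt_b bx1_3))) (bt_n (bt_n (bt_b bx1_4) (bt_b bx1_5)) (bt_n (bt_b bx1_6) (bt_b bx1_7)))) (bt_n (bt_n (bt_n (bt_b bx1_8) (bt_b bx1_9)) (bt_n (bt_b bx1_10) (bt_b bx1_11))) (bt_n (bt_n (bt_b bx1_12) (bt_b bx1_13)) (bt_n (bt_b bx1_14) (bt_b bx1_15)))))
def S1 : StarD := StarD.mk cl5 cl9 cl5 2 0 t1
theorem bx2_0 : BoxOK sI cl9 cl5 cl5 t1 t1 b2_0 :=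
  box_mk (TrL.c (I.pos (nat_lit 0) (nat_lit 0)) (xa (xb (xa (xb T1.l0 T1.l0) T1.l0) (xa (xb T1.l0 (xa T1.l0 T1.l0)) (xb T1.l0 (xs T1.l0 T1.l0)))) (xb (xa T1.l0 T1.l0) (xa (xb T1.l0 (xs T1.l0 T1.l0)) (xb T1.l0 T1.l0))))
  (TrL.c (I.pos (nat_lit 0) (nat_lit 0)) (xa T1.l1 T1.l1)
  (TrL.c (I.pos (nat_lit 0) (nat_lit 124588530)) (xR (xR T1.l2 T1.l2) (xR T1.l2 (xR T1.l2 T1.l2)))
  (TrL.c (I.pos (nat_lit 0) (nat_lit 96881482)) (xR (xR T1.l3 T1.l3) (xR T1.l3 T1.l3))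
  (TrL.c (I.pos (nat_lit 0) (nat_lit 0)) (xa (xb T1.l4 T1.l4) (xb (xk T1.l4 T1.l4) (xk T1.l4 (xb T1.l4 T1.l4))))
  (TrL.c (I.pos (nat_lit 0) (nat_lit 0)) T1.l5
  (TrL.c (I.mix (nat_lit 17240550) (nat_lit 96881482)) (xR T1.l6 (xR T1.l6 T1.l6))
  (TrL.c (I.mix (nat_lit 17240550) (nat_lit 71940500)) (xR T1.l7 (xR T1.l7 T1.l7))
  TrL.n)))))))) (by decide +kernel)
theorem bx2_1 : BoxOK sI cl9 cl5 cl5 t1 t1 b2_1 :=
  box_mk (TrL.c (I.pos (nat_lit 0) (nat_lit 0)) (xa (xb T1.l8 T1.l8) (xb T1.l8 T1.l8))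
  (TrL.c (I.pos (nat_lit 0) (nat_lit 0)) T1.l1
  (TrL.c (I.pos (nat_lit 0) (nat_lit 124588530)) (xR (xR T1.l2 T1.l2) T1.l2)
  (TrL.c (I.pos (nat_lit 0) (nat_lit 96881482)) (xR (xR T1.l3 T1.l3) (xR T1.l3 T1.l3))
  (TrL.c (I.pos (nat_lit 0) (nat_lit 0)) (xa T1.l9 (xb T1.l9 T1.l9))
  (TrL.c (I.pos (nat_lit 0) (nat_lit 0)) T1.l5
  (TrL.c (I.mix (nat_lit 17240550) (nat_lit 96881482)) (xR T1.l6 (xR T1.l6 T1.l6))
  (TrL.c (I.mix (nat_lit 17240550) (nat_lit 71940500)) (xR T1.l7 T1.l3)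
  TrL.n)))))))) (by decide +kernel)
theorem bx2_2 : BoxOK sI cl9 cl5 cl5 t1 t1 b2_2 :=
  box_mk (TrL.c (I.pos (nat_lit 0) (nat_lit 0)) T1.l1
  (TrL.c (I.pos (nat_lit 0) (nat_lit 0)) T1.l2
  (TrL.c (I.mix (nat_lit 17240550) (nat_lit 96881482)) (xR (xR T1.l12 T1.l3) (xR T1.l3 T1.l3))
  (TrL.c (I.mix (nat_lit 17240550) (nat_lit 71940500)) (xR T1.l6 T1.l2)
  TrL.n)))) (by decide +kernel)
theorem bx2_3 : BoxOK sI cl9 cl5 cl5 t1 t1 b2_3 :=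
  box_mk (TrL.c (I.pos (nat_lit 0) (nat_lit 0)) (xb (xa T1.l14 T1.l14) (xa (xb T1.l14 T1.l14) (xb T1.l14 T1.l14)))
  (TrL.c (I.pos (nat_lit 0) (nat_lit 0)) T1.l1
  (TrL.c (I.pos (nat_lit 0) (nat_lit 124588530)) (xR (xR T1.l2 T1.l2) (xR T1.l2 T1.l2))
  (TrL.c (I.pos (nat_lit 0) (nat_lit 96881482)) (xR (xR T1.l3 T1.l3) (xR T1.l3 T1.l3))
  (TrL.c (I.pos (nat_lit 0) (nat_lit 0)) (xk T1.l15 T1.l4)
  (TrL.c (I.pos (nat_lit 0) (nat_lit 0)) T1.l5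
  (TrL.c (I.mix (nat_lit 17240550) (nat_lit 96881482)) (xR T1.l6 T1.l6)
  (TrL.c (I.mix (nat_lit 17240550) (nat_lit 71940500)) (xR T1.l7 T1.l7)
  TrL.n)))))))) (by decide +kernel)
theorem bx2_4 : BoxOK sI cl9 cl5 cl5 t1 t1 b2_4 :=
  box_mk (TrL.c (I.pos (nat_lit 0) (nat_lit 0)) (xb T1.l8 (xa T1.l8 T1.l8))
  (TrL.c (I.pos (nat_lit 0) (nat_lit 0)) T1.l1
  (TrL.c (I.pos (nat_lit 0) (nat_lit 124588530)) (xR T1.l2 (xR T1.l2 T1.l2))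
  (TrL.c (I.pos (nat_lit 0) (nat_lit 96881482)) (xR T1.l3 (xR T1.l3 T1.l3))
  (TrL.c (I.pos (nat_lit 0) (nat_lit 0)) T1.l9
  (TrL.c (I.pos (nat_lit 0) (nat_lit 0)) T1.l5
  (TrL.c (I.mix (nat_lit 17240550) (nat_lit 96881482)) (xR (xR T1.l6 T1.l6) T1.l6)
  (TrL.c (I.mix (nat_lit 17240550) (nat_lit 71940500)) (xR T1.l7 T1.l7)
  TrL.n)))))))) (by decide +kernel)
theorem bx2_5 : BoxOK sI cl9 cl5 cl5 t1 t1 b2_5 :=
  box_mk (TrL.c (I.pos (nat_lit 0) (nat_lit 0)) (xa T1.l0 T1.l0)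
  (TrL.c (I.pos (nat_lit 0) (nat_lit 0)) T1.l1
  (TrL.c (I.pos (nat_lit 0) (nat_lit 124588530)) (xR (xR T1.l2 T1.l2) T1.l2)
  (TrL.c (I.pos (nat_lit 0) (nat_lit 96881482)) (xR (xR T1.l3 T1.l3) T1.l3)
  (TrL.c (I.pos (nat_lit 0) (nat_lit 0)) (xk T1.l15 T1.l15)
  (TrL.c (I.pos (nat_lit 0) (nat_lit 0)) T1.l5
  (TrL.c (I.mix (nat_lit 17240550) (nat_lit 96881482)) (xR T1.l6 T1.l6)
  (TrL.c (I.mix (nat_lit 17240550) (nat_lit 71940500)) (xR T1.l7 T1.l7)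
  TrL.n)))))))) (by decide +kernel)
theorem bx2_6 : BoxOK sI cl9 cl5 cl5 t1 t1 b2_6 :=
  box_mk (TrL.c (I.pos (nat_lit 0) (nat_lit 0)) T1.l8
  (TrL.c (I.pos (nat_lit 0) (nat_lit 0)) T1.l1
  (TrL.c (I.pos (nat_lit 0) (nat_lit 124588530)) (xR (xR T1.l2 T1.l2) T1.l2)
  (TrL.c (I.pos (nat_lit 0) (nat_lit 96881482)) (xR (xR T1.l3 T1.l3) T1.l3)
  (TrL.c (I.pos (nat_lit 0) (nat_lit 0)) T1.l9
  (TrL.c (I.pos (nat_lit 0) (nat_lit 0)) T1.l5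
  (TrL.c (I.mix (nat_lit 17240550) (nat_lit 96881482)) (xR T1.l6 T1.l6)
  (TrL.c (I.mix (nat_lit 17240550) (nat_lit 71940500)) (xR T1.l7 T1.l7)
  TrL.n)))))))) (by decide +kernel)
theorem bx2_7 : BoxOK sI cl9 cl5 cl5 t1 t1 b2_7 :=
  box_mk (TrL.c (I.pos (nat_lit 0) (nat_lit 0)) T1.l1
  (TrL.c (I.pos (nat_lit 0) (nat_lit 0)) T1.l2
  (TrL.c (I.mix (nat_lit 17240550) (nat_lit 96881482)) (xR T1.l12 T1.l3)
  (TrL.c (I.mix (nat_lit 17240550) (nat_lit 71940500)) T1.l6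
  TrL.n)))) (by decide +kernel)
theorem bx2_8 : BoxOK sI cl9 cl5 cl5 t1 t1 b2_8 :=
  box_mk (TrL.c (I.pos (nat_lit 0) (nat_lit 0)) (xa (xb T1.l8 (xb T1.l8 T1.l8)) (xb T1.l8 (xa T1.l8 T1.l8)))
  (TrL.c (I.pos (nat_lit 0) (nat_lit 0)) T1.l1
  (TrL.c (I.pos (nat_lit 0) (nat_lit 124588530)) (xR T1.l2 T1.l2)
  (TrL.c (I.pos (nat_lit 0) (nat_lit 96881482)) (xR T1.l3 T1.l3)
  (TrL.c (I.pos (nat_lit 0) (nat_lit 0)) T1.l9
  (TrL.c (I.pos (nat_lit 0) (nat_lit 0)) T1.l5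
  (TrL.c (I.mix (nat_lit 17240550) (nat_lit 96881482)) (xR (xR T1.l6 T1.l6) T1.l6)
  (TrL.c (I.mix (nat_lit 17240550) (nat_lit 71940500)) (xR T1.l7 T1.l7)
  TrL.n)))))))) (by decide +kernel)
theorem bx2_9 : BoxOK sI cl9 cl5 cl5 t1 t1 b2_9 :=
  box_mk (TrL.c (I.pos (nat_lit 0) (nat_lit 0)) (xb (xa T1.l8 T1.l8) (xa T1.l8 T1.l8))
  (TrL.c (I.pos (nat_lit 0) (nat_lit 0)) T1.l1
  (TrL.c (I.pos (nat_lit 0) (nat_lit 124588530)) (xR (xR T1.l2 T1.l2) (xR T1.l2 T1.l2))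
  (TrL.c (I.pos (nat_lit 0) (nat_lit 96881482)) (xR (xR T1.l3 T1.l3) (xR T1.l3 T1.l3))
  (TrL.c (I.pos (nat_lit 0) (nat_lit 0)) (xb T1.l9 T1.l9)
  (TrL.c (I.pos (nat_lit 0) (nat_lit 0)) T1.l5
  (TrL.c (I.mix (nat_lit 17240550) (nat_lit 96881482)) (xR T1.l6 (xR T1.l6 T1.l6))
  (TrL.c (I.mix (nat_lit 17240550) (nat_lit 71940500)) (xR T1.l7 T1.l7)
  TrL.n)))))))) (by decide +kernel)
theorem bx2_10 : BoxOK sI cl9 cl5 cl5 t1 t1 b2_10 :=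
  box_mk (TrL.c (I.pos (nat_lit 0) (nat_lit 0)) T1.l1
  (TrL.c (I.pos (nat_lit 0) (nat_lit 0)) T1.l2
  (TrL.c (I.mix (nat_lit 17240550) (nat_lit 96881482)) (xR (xR T1.l12 T1.l3) T1.l3)
  (TrL.c (I.mix (nat_lit 17240550) (nat_lit 71940500)) (xR T1.l13 T1.l2)
  TrL.n)))) (by decide +kernel)
theorem bx2_11 : BoxOK sI cl9 cl5 cl5 t1 t1 b2_11 :=
  box_mk (TrL.c (I.pos (nat_lit 0) (nat_lit 0)) (xa (xb T1.l0 (xa T1.l0 T1.l0)) (xa (xb T1.l0 T1.l0) (xb T1.l0 (xb T1.l0 T1.l0))))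
  (TrL.c (I.pos (nat_lit 0) (nat_lit 0)) (xa T1.l1 (xb T1.l1 T1.l1))
  (TrL.c (I.pos (nat_lit 0) (nat_lit 124588530)) (xR (xR T1.l2 T1.l2) (xR T1.l2 T1.l6))
  (TrL.c (I.pos (nat_lit 0) (nat_lit 96881482)) (xR (xR T1.l3 T1.l3) (xR T1.l3 T1.l3))
  (TrL.c (I.pos (nat_lit 0) (nat_lit 0)) (xa (xb (xk (xa T1.l4 T1.l4) (xa T1.l4 T1.l4)) (xk T1.l4 T1.l4)) (xb (xk (xa (xb T1.l4 T1.l4) (xb (xk T1.l4 T1.l4) (xk T1.l4 T1.l4))) (xa (xb T1.l4 T1.l4) (xb (xa T1.l4 T1.l4) T1.l4))) (xa (xk T1.l4 T1.l4) (xk (xb (xk T1.l4 T1.l4) (xk T1.l4 T1.l4)) (xb (xa T1.l4 T1.l4) (xk T1.l4 T1.l4))))))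
  (TrL.c (I.pos (nat_lit 0) (nat_lit 0)) (xa T1.l5 T1.l5)
  (TrL.c (I.mix (nat_lit 17240550) (nat_lit 96881482)) (xR (xR T1.l6 T1.l6) (xR T1.l6 (xR T1.l6 T1.l6)))
  (TrL.c (I.mix (nat_lit 17240550) (nat_lit 71940500)) (xR (xR T1.l7 T1.l7) (xR T1.l7 T1.l7))
  TrL.n)))))))) (by decide +kernel)
theorem bx2_12 : BoxOK sI cl9 cl5 cl5 t1 t1 b2_12 :=
  box_mk (TrL.c (I.pos (nat_lit 0) (nat_lit 0)) (xa (xb T1.l0 (xa T1.l0 T1.l0)) (xb (xa T1.l0 T1.l0) (xa T1.l0 T1.l0)))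
  (TrL.c (I.pos (nat_lit 0) (nat_lit 0)) T1.l1
  (TrL.c (I.pos (nat_lit 0) (nat_lit 124588530)) (xR (xR T1.l2 T1.l2) (xR T1.l2 T1.l2))
  (TrL.c (I.pos (nat_lit 0) (nat_lit 96881482)) (xR (xR T1.l3 T1.l3) T1.l3)
  (TrL.c (I.pos (nat_lit 0) (nat_lit 0)) (xk (xb T1.l4 T1.l4) (xb T1.l4 (xa T1.l4 T1.l4)))
  (TrL.c (I.pos (nat_lit 0) (nat_lit 0)) T1.l5
  (TrL.c (I.mix (nat_lit 17240550) (nat_lit 96881482)) (xR T1.l6 T1.l6)
  (TrL.c (I.mix (nat_lit 17240550) (nat_lit 71940500)) (xR T1.l7 T1.l7)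
  TrL.n)))))))) (by decide +kernel)
theorem bx2_13 : BoxOK sI cl9 cl5 cl5 t1 t1 b2_13 :=
  box_mk (TrL.c (I.pos (nat_lit 0) (nat_lit 0)) (xa (xb T1.l14 T1.l14) (xb T1.l14 T1.l14))
  (TrL.c (I.pos (nat_lit 0) (nat_lit 0)) T1.l1
  (TrL.c (I.pos (nat_lit 0) (nat_lit 124588530)) (xR (xR T1.l2 T1.l2) T1.l2)
  (TrL.c (I.pos (nat_lit 0) (nat_lit 96881482)) (xR (xR T1.l3 T1.l3) T1.l3)
  (TrL.c (I.pos (nat_lit 0) (nat_lit 0)) (xk T1.l15 T1.l15)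
  (TrL.c (I.pos (nat_lit 0) (nat_lit 0)) T1.l5
  (TrL.c (I.mix (nat_lit 17240550) (nat_lit 96881482)) (xR T1.l6 T1.l6)
  (TrL.c (I.mix (nat_lit 17240550) (nat_lit 71940500)) (xR T1.l7 T1.l7)
  TrL.n)))))))) (by decide +kernel)
theorem sv2 : StarV sI cl9 cl5 cl5 t1 t1 t2 :=
  (bt_n (bt_n (bt_n (bt_b bx2_0) (bt_n (bt_b bx2_1) (bt_b bx2_2))) (bt_n (bt_n (bt_b bx2_3) (bt_b bx2_4)) (bt_n (bt_b bx2_5) (bt_b bx2_6)))) (bt_n (bt_n (bt_b bx2_7) (bt_n (bt_b bx2_8) (bt_b bx2_9))) (bt_n (bt_n (bt_b bx2_10) (bt_b bx2_11)) (bt_n (bt_b bx2_12) (bt_b bx2_13)))))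
def S2 : StarD := StarD.mk cl9 cl5 cl5 1 1 t2
def G : List StarD := [S0, S1, S2]
theorem so0 : StarOK sI G S0 :=
  star_mk (by decide) (by decide) rfl rfl rfl rfl rfl rfl (rfl : _ = t0) (rfl : _ = t2)
  (st_mk (Pth.l (Pth.l (Pth.l Pth.z))) (nat_lit 247039742) (nat_lit 248579993) (by decide +kernel))
  (st_mk (Pth.l (Pth.l (Pth.l Pth.z))) (nat_lit 284803156) (nat_lit 286875087) (by decide +kernel))
  (st_mk (Pth.l (Pth.l (Pth.l Pth.z))) (nat_lit 328934579) (nat_lit 331740327) (by decide +kernel)) sv0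
theorem so1 : StarOK sI G S1 :=
  star_mk (by decide) (by decide) rfl rfl rfl rfl rfl rfl (rfl : _ = t2) (rfl : _ = t0)
  (st_mk (Pth.l (Pth.l (Pth.l (Pth.l Pth.z)))) (nat_lit 118074997) (nat_lit 137331521) (by decide +kernel))
  (st_mk (Pth.l (Pth.l (Pth.l (Pth.l Pth.z)))) (nat_lit 155122046) (nat_lit 174922719) (by decide +kernel))
  (st_mk (Pth.l (Pth.l (Pth.l (Pth.l Pth.z)))) (nat_lit 196776212) (nat_lit 221077210) (by decide +kernel)) sv1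
theorem so2 : StarOK sI G S2 :=
  star_mk (by decide) (by decide) rfl rfl rfl rfl rfl rfl (rfl : _ = t1) (rfl : _ = t1)
  (st_mk (Pth.l (Pth.l (Pth.l Pth.z))) (nat_lit 239716112) (nat_lit 241990891) (by decide +kernel))
  (st_mk (Pth.l (Pth.l (Pth.l Pth.z))) (nat_lit 275136810) (nat_lit 277970589) (by decide +kernel))
  (st_mk (Pth.l (Pth.l (Pth.l Pth.z))) (nat_lit 316098017) (nat_lit 319679241) (by decide +kernel)) sv2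
theorem ok : GroupOK (nat_lit 209321984) (nat_lit 268435456) G := grp_mk (allS_c so0 (allS_c so1 (allS_c so2 allS_n)))
theorem cov : GCov G cl5 cl5 cl9 := cov_mk
  ⟨0, by decide, rfl, rfl, rfl⟩ ⟨1, by decide, rfl, rfl, rfl⟩ ⟨0, by decide, rfl, rfl, rfl⟩ ⟨1, by decide, rfl, rfl, rfl⟩ ⟨2, by decide, rfl, rfl, rfl⟩ ⟨2, by decide, rfl, rfl, rfl⟩
end Q225_3

namespace Q226_0
def sI : I := I.pos (nat_lit 0) (nat_lit 91291648)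
def b0_0 : Bx := Bx.mk (St.mk (I.pos (nat_lit 157335552) (nat_lit 269991936)) (I.mix (nat_lit 7667712) (nat_lit 84803584)) (I.mix (nat_lit 100712448) (nat_lit 84721664)) (I.pos (nat_lit 236797952) (nat_lit 422690816)) (I.mix (nat_lit 107544576) (nat_lit 82657280)) (I.mix (nat_lit 108625920) (nat_lit 73891840)) (I.mix (nat_lit 161529856) (nat_lit 113541120)))
  false (nat_lit 8235785)
def b0_1 : Bx := Bx.mk (St.mk (I.pos (nat_lit 27443200) (nat_lit 63356928)) (I.mix (nat_lit 1589248) (nat_lit 49561600)) (I.neg (nat_lit 7766016) (nat_lit 33439744)) (I.pos (nat_lit 143310848) (nat_lit 159154176)) (I.mix (nat_lit 29687808) (nat_lit 44040192)) (I.mix (nat_lit 46628864) (nat_lit 29851648)) (I.mix (nat_lit 25329664) (nat_lit 16302080)))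
  false (nat_lit 0)
def b0_2 : Bx := Bx.mk (St.mk (I.pos (nat_lit 57769984) (nat_lit 99811328)) (I.mix (nat_lit 66011136) (nat_lit 4636672)) (I.neg (nat_lit 27607040) (nat_lit 72531968)) (I.pos (nat_lit 153042944) (nat_lit 182599680)) (I.mix (nat_lit 84361216) (nat_lit 32063488)) (I.mix (nat_lit 42237952) (nat_lit 78135296)) (I.mix (nat_lit 31129600) (nat_lit 52985856)))
  false (nat_lit 0)
def b0_3 : Bx := Bx.mk (St.mk (I.neg (nat_lit 27344896) (nat_lit 66797568)) (I.mix (nat_lit 49561600) (nat_lit 3915776)) (I.neg (nat_lit 7700480) (nat_lit 35799040)) (I.pos (nat_lit 143261696) (nat_lit 160792576)) (I.mix (nat_lit 44040192) (nat_lit 29687808)) (I.mix (nat_lit 29851648) (nat_lit 46628864)) (I.mix (nat_lit 25395200) (nat_lit 16302080)))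
  true (nat_lit 0)
def b0_4 : Bx := Bx.mk (St.mk (I.pos (nat_lit 53608448) (nat_lit 66027520)) (I.mix (nat_lit 2965504) (nat_lit 16203776)) (I.neg (nat_lit 22085632) (nat_lit 35389440)) (I.pos (nat_lit 151945216) (nat_lit 160546816)) (I.mix (nat_lit 10797056) (nat_lit 16302080)) (I.mix (nat_lit 14893056) (nat_lit 10174464)) (I.mix (nat_lit 7913472) (nat_lit 6995968)))
  false (nat_lit 0)
def b0_5 : Bx := Bx.mk (St.mk (I.pos (nat_lit 69451776) (nat_lit 148733952)) (I.mix (nat_lit 76562432) (nat_lit 32768)) (I.neg (nat_lit 14942208) (nat_lit 84492288)) (I.pos (nat_lit 163528704) (nat_lit 229556224)) (I.mix (nat_lit 91176960) (nat_lit 54738944)) (I.mix (nat_lit 49807360) (nat_lit 89096192)) (I.mix (nat_lit 46383104) (nat_lit 79380480)))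
  false (nat_lit 0)
def b0_6 : Bx := Bx.mk (St.mk (I.mix (nat_lit 39731200) (nat_lit 6045696)) (I.mix (nat_lit 43139072) (nat_lit 10305536)) (I.neg (nat_lit 10567680) (nat_lit 17711104)) (I.pos (nat_lit 141672448) (nat_lit 151355392)) (I.mix (nat_lit 32718848) (nat_lit 37158912)) (I.mix (nat_lit 29884416) (nat_lit 49250304)) (I.mix (nat_lit 8667136) (nat_lit 7307264)))
  true (nat_lit 0)
def b0_7 : Bx := Bx.mk (St.mk (I.mix (nat_lit 6045696) (nat_lit 39731200)) (I.mix (nat_lit 10305536) (nat_lit 43139072)) (I.neg (nat_lit 10567680) (nat_lit 17711104)) (I.pos (nat_lit 141672448) (nat_lit 151355392)) (I.mix (nat_lit 37158912) (nat_lit 32718848)) (I.mix (nat_lit 49250304) (nat_lit 29884416)) (I.mix (nat_lit 8667136) (nat_lit 7307264)))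
  false (nat_lit 0)
def b0_8 : Bx := Bx.mk (St.mk (I.pos (nat_lit 122093568) (nat_lit 211042304)) (I.mix (nat_lit 46006272) (nat_lit 75218944)) (I.mix (nat_lit 62717952) (nat_lit 75317248)) (I.pos (nat_lit 205078528) (nat_lit 306233344)) (I.mix (nat_lit 125894656) (nat_lit 71221248)) (I.mix (nat_lit 164577280) (nat_lit 96337920)) (I.mix (nat_lit 161120256) (nat_lit 92651520)))
  false (nat_lit 0)
def t0 : BTr := (BTr.n (BTr.n (BTr.n (BTr.b b0_0) (BTr.b b0_1)) (BTr.n (BTr.b b0_2) (BTr.b b0_3))) (BTr.n (BTr.n (BTr.b b0_4) (BTr.b b0_5)) (BTr.n (BTr.b b0_6) (BTr.n (BTr.b b0_7) (BTr.b b0_8)))))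
namespace T0
def l0 : Tr := Tr.L (Pth.l (Pth.l (Pth.l Pth.z)))
def l1 : Tr := Tr.L (Pth.l (Pth.l (Pth.r Pth.z)))
def l2 : Tr := Tr.L (Pth.l (Pth.r (Pth.l Pth.z)))
def l3 : Tr := Tr.L (Pth.l (Pth.r (Pth.r Pth.z)))
def l4 : Tr := Tr.L (Pth.r (Pth.l (Pth.l Pth.z)))
def l5 : Tr := Tr.L (Pth.r (Pth.l (Pth.r Pth.z)))
def l6 : Tr := Tr.L (Pth.r (Pth.r (Pth.l Pth.z)))
def l7 : Tr := Tr.L (Pth.r (Pth.r (Pth.r (Pth.l Pth.z))))
def l8 : Tr := Tr.L (Pth.r (Pth.r (Pth.r (Pth.r Pth.z))))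
end T0
def b1_0 : Bx := Bx.mk (St.mk (I.pos (nat_lit 157401088) (nat_lit 267780096)) (I.mix (nat_lit 7831552) (nat_lit 55492608)) (I.mix (nat_lit 12304384) (nat_lit 101482496)) (I.pos (nat_lit 91357184) (nat_lit 291291136)) (I.mix (nat_lit 111460352) (nat_lit 71843840)) (I.mix (nat_lit 108920832) (nat_lit 75382784)) (I.mix (nat_lit 176603136) (nat_lit 98287616)))
  false (nat_lit 9282602)
def b1_1 : Bx := Bx.mk (St.mk (I.pos (nat_lit 119504896) (nat_lit 180568064)) (I.mix (nat_lit 61423616) (nat_lit 4128768)) (I.neg (nat_lit 3850240) (nat_lit 60391424)) (I.pos (nat_lit 72974336) (nat_lit 139722752)) (I.mix (nat_lit 83558400) (nat_lit 42942464)) (I.mix (nat_lit 49922048) (nat_lit 75726848)) (I.mix (nat_lit 41402368) (nat_lit 73023488)))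
  false (nat_lit 0)
def b1_2 : Bx := Bx.mk (St.mk (I.mix (nat_lit 33095680) (nat_lit 139591680)) (I.mix (nat_lit 2326528) (nat_lit 31277056)) (I.mix (nat_lit 3096576) (nat_lit 29769728)) (I.mix (nat_lit 3112960) (nat_lit 87916544)) (I.mix (nat_lit 43253760) (nat_lit 30441472)) (I.mix (nat_lit 42287104) (nat_lit 31604736)) (I.mix (nat_lit 35373056) (nat_lit 25968640)))
  false (nat_lit 0)
def b1_3 : Bx := Bx.mk (St.mk (I.mix (nat_lit 27525120) (nat_lit 115998720)) (I.mix (nat_lit 29442048) (nat_lit 7946240)) (I.mix (nat_lit 21970944) (nat_lit 2359296)) (I.mix (nat_lit 2457600) (nat_lit 65421312)) (I.mix (nat_lit 33374208) (nat_lit 24936448)) (I.mix (nat_lit 23920640) (nat_lit 31244288)) (I.mix (nat_lit 15613952) (nat_lit 21708800)))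
  false (nat_lit 0)
def b1_4 : Bx := Bx.mk (St.mk (I.pos (nat_lit 164544512) (nat_lit 225591296)) (I.mix (nat_lit 34488320) (nat_lit 61505536)) (I.mix (nat_lit 30441472) (nat_lit 102137856)) (I.pos (nat_lit 105086976) (nat_lit 206045184)) (I.mix (nat_lit 132612096) (nat_lit 61669376)) (I.mix (nat_lit 176652288) (nat_lit 107151360)) (I.mix (nat_lit 224411648) (nat_lit 121257984)))
  false (nat_lit 0)
def b1_5 : Bx := Bx.mk (St.mk (I.pos (nat_lit 121110528) (nat_lit 163168256)) (I.mix (nat_lit 55263232) (nat_lit 2867200)) (I.mix (nat_lit 56016896) (nat_lit 2637824)) (I.pos (nat_lit 55541760) (nat_lit 114573312)) (I.mix (nat_lit 92487680) (nat_lit 32702464)) (I.mix (nat_lit 53870592) (nat_lit 107511808)) (I.mix (nat_lit 47218688) (nat_lit 98074624)))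
  false (nat_lit 0)
def b1_6 : Bx := Bx.mk (St.mk (I.mix (nat_lit 15106048) (nat_lit 136691712)) (I.mix (nat_lit 11403264) (nat_lit 37814272)) (I.mix (nat_lit 9420800) (nat_lit 31752192)) (I.mix (nat_lit 2965504) (nat_lit 82935808)) (I.mix (nat_lit 59752448) (nat_lit 32342016)) (I.mix (nat_lit 65650688) (nat_lit 40173568)) (I.mix (nat_lit 48119808) (nat_lit 28426240)))
  false (nat_lit 0)
def b1_7 : Bx := Bx.mk (St.mk (I.mix (nat_lit 12058624) (nat_lit 108920832)) (I.mix (nat_lit 24952832) (nat_lit 1261568)) (I.mix (nat_lit 17383424) (nat_lit 2457600)) (I.mix (nat_lit 2277376) (nat_lit 59228160)) (I.mix (nat_lit 33931264) (nat_lit 16662528)) (I.mix (nat_lit 21561344) (nat_lit 35274752)) (I.mix (nat_lit 13090816) (nat_lit 21774336)))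
  false (nat_lit 0)
def b1_8 : Bx := Bx.mk (St.mk (I.pos (nat_lit 162922496) (nat_lit 179060736)) (I.neg (nat_lit 13680640) (nat_lit 33783808)) (I.neg (nat_lit 7684096) (nat_lit 31211520)) (I.pos (nat_lit 104103936) (nat_lit 138117120)) (I.mix (nat_lit 18169856) (nat_lit 9011200)) (I.mix (nat_lit 7569408) (nat_lit 10207232)) (I.mix (nat_lit 8077312) (nat_lit 11206656)))
  false (nat_lit 0)
def b1_9 : Bx := Bx.mk (St.mk (I.pos (nat_lit 121225216) (nat_lit 134643712)) (I.mix (nat_lit 360448) (nat_lit 4947968)) (I.mix (nat_lit 1507328) (nat_lit 4816896)) (I.pos (nat_lit 55787520) (nat_lit 85245952)) (I.mix (nat_lit 3342336) (nat_lit 3276800)) (I.mix (nat_lit 1556480) (nat_lit 1818624)) (I.mix (nat_lit 1409024) (nat_lit 1523712)))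
  false (nat_lit 0)
def b1_10 : Bx := Bx.mk (St.mk (I.mix (nat_lit 18268160) (nat_lit 115556352)) (I.mix (nat_lit 14204928) (nat_lit 2064384)) (I.mix (nat_lit 9895936) (nat_lit 2031616)) (I.mix (nat_lit 2457600) (nat_lit 65208320)) (I.mix (nat_lit 6701056) (nat_lit 6045696)) (I.mix (nat_lit 3784704) (nat_lit 3981312)) (I.mix (nat_lit 2768896) (nat_lit 3031040)))
  false (nat_lit 0)
def b1_11 : Bx := Bx.mk (St.mk (I.mix (nat_lit 15466496) (nat_lit 93470720)) (I.mix (nat_lit 720896) (nat_lit 5586944)) (I.mix (nat_lit 1540096) (nat_lit 3801088)) (I.mix (nat_lit 1982464) (nat_lit 48791552)) (I.mix (nat_lit 4145152) (nat_lit 4997120)) (I.mix (nat_lit 3538944) (nat_lit 3096576)) (I.mix (nat_lit 2392064) (nat_lit 2064384)))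
  false (nat_lit 0)
def t1 : BTr := (BTr.n (BTr.n (BTr.n (BTr.b b1_0) (BTr.n (BTr.b b1_1) (BTr.b b1_2))) (BTr.n (BTr.b b1_3) (BTr.n (BTr.b b1_4) (BTr.b b1_5)))) (BTr.n (BTr.n (BTr.b b1_6) (BTr.n (BTr.b b1_7) (BTr.b b1_8))) (BTr.n (BTr.b b1_9) (BTr.n (BTr.b b1_10) (BTr.b b1_11)))))
namespace T1
def l0 : Tr := Tr.L (Pth.l (Pth.l (Pth.l Pth.z)))
def l1 : Tr := Tr.L (Pth.l (Pth.l (Pth.r (Pth.l Pth.z))))
def l2 : Tr := Tr.L (Pth.l (Pth.l (Pth.r (Pth.r Pth.z))))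
def l3 : Tr := Tr.L (Pth.l (Pth.r (Pth.l Pth.z)))
def l4 : Tr := Tr.L (Pth.l (Pth.r (Pth.r (Pth.l Pth.z))))
def l5 : Tr := Tr.L (Pth.l (Pth.r (Pth.r (Pth.r Pth.z))))
def l6 : Tr := Tr.L (Pth.r (Pth.l (Pth.l Pth.z)))
def l7 : Tr := Tr.L (Pth.r (Pth.l (Pth.r (Pth.l Pth.z))))
def l8 : Tr := Tr.L (Pth.r (Pth.l (Pth.r (Pth.r Pth.z))))
def l9 : Tr := Tr.L (Pth.r (Pth.r (Pth.l Pth.z)))
def l10 : Tr := Tr.L (Pth.r (Pth.r (Pth.r (Pth.l Pth.z))))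
def l11 : Tr := Tr.L (Pth.r (Pth.r (Pth.r (Pth.r Pth.z))))
end T1
def b2_0 : Bx := Bx.mk (St.mk (I.pos (nat_lit 149700608) (nat_lit 287326208)) (I.mix (nat_lit 28000256) (nat_lit 75776000)) (I.mix (nat_lit 57262080) (nat_lit 135823360)) (I.pos (nat_lit 231718912) (nat_lit 446562304)) (I.mix (nat_lit 128925696) (nat_lit 92012544)) (I.mix (nat_lit 135053312) (nat_lit 88571904)) (I.mix (nat_lit 191856640) (nat_lit 115507200)))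
  false (nat_lit 79312195)
def b2_1 : Bx := Bx.mk (St.mk (I.pos (nat_lit 85737472) (nat_lit 141967360)) (I.neg (nat_lit 14565376) (nat_lit 76759040)) (I.mix (nat_lit 47693824) (nat_lit 12615680)) (I.pos (nat_lit 173834240) (nat_lit 217153536)) (I.mix (nat_lit 66617344) (nat_lit 46333952)) (I.mix (nat_lit 43384832) (nat_lit 64471040)) (I.mix (nat_lit 37797888) (nat_lit 55590912)))
  false (nat_lit 0)
def b2_2 : Bx := Bx.mk (St.mk (I.mix (nat_lit 31408128) (nat_lit 294912)) (I.mix (nat_lit 43859968) (nat_lit 1441792)) (I.pos (nat_lit 11059200) (nat_lit 18202624)) (I.pos (nat_lit 140427264) (nat_lit 148062208)) (I.mix (nat_lit 23871488) (nat_lit 37765120)) (I.mix (nat_lit 25001984) (nat_lit 39895040)) (I.mix (nat_lit 5554176) (nat_lit 6389760)))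
  true (nat_lit 0)
def b2_3 : Bx := Bx.mk (St.mk (I.pos (nat_lit 135086080) (nat_lit 197279744)) (I.mix (nat_lit 29786112) (nat_lit 75431936)) (I.pos (nat_lit 1130496) (nat_lit 128581632)) (I.pos (nat_lit 209534976) (nat_lit 285245440)) (I.mix (nat_lit 145244160) (nat_lit 66043904)) (I.mix (nat_lit 158269440) (nat_lit 83689472)) (I.mix (nat_lit 168820736) (nat_lit 87375872)))
  false (nat_lit 53061568)
def b2_4 : Bx := Bx.mk (St.mk (I.mix (nat_lit 3538944) (nat_lit 31490048)) (I.mix (nat_lit 3178496) (nat_lit 43859968)) (I.pos (nat_lit 11059200) (nat_lit 18202624)) (I.pos (nat_lit 140427264) (nat_lit 148062208)) (I.mix (nat_lit 37765120) (nat_lit 23871488)) (I.mix (nat_lit 39895040) (nat_lit 25001984)) (I.mix (nat_lit 5554176) (nat_lit 6389760)))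
  false (nat_lit 0)
def b2_5 : Bx := Bx.mk (St.mk (I.pos (nat_lit 127352832) (nat_lit 146276352)) (I.neg (nat_lit 18530304) (nat_lit 42893312)) (I.mix (nat_lit 13598720) (nat_lit 14811136)) (I.pos (nat_lit 203964416) (nat_lit 221691904)) (I.mix (nat_lit 17858560) (nat_lit 20480000)) (I.mix (nat_lit 14958592) (nat_lit 17727488)) (I.mix (nat_lit 13647872) (nat_lit 18612224)))
  false (nat_lit 0)
def b2_6 : Bx := Bx.mk (St.mk (I.mix (nat_lit 7421952) (nat_lit 2850816)) (I.mix (nat_lit 11452416) (nat_lit 2260992)) (I.pos (nat_lit 11730944) (nat_lit 15941632)) (I.pos (nat_lit 140328960) (nat_lit 143654912)) (I.mix (nat_lit 7700480) (nat_lit 13271040)) (I.mix (nat_lit 7864320) (nat_lit 11206656)) (I.mix (nat_lit 1064960) (nat_lit 917504)))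
  true (nat_lit 0)
def b2_7 : Bx := Bx.mk (St.mk (I.pos (nat_lit 18120704) (nat_lit 70352896)) (I.mix (nat_lit 10256384) (nat_lit 48021504)) (I.mix (nat_lit 7241728) (nat_lit 21905408)) (I.pos (nat_lit 139853824) (nat_lit 161972224)) (I.mix (nat_lit 37978112) (nat_lit 39567360)) (I.mix (nat_lit 53166080) (nat_lit 33751040)) (I.mix (nat_lit 27508736) (nat_lit 20185088)))
  false (nat_lit 0)
def b2_8 : Bx := Bx.mk (St.mk (I.pos (nat_lit 54312960) (nat_lit 110444544)) (I.mix (nat_lit 69124096) (nat_lit 11403264)) (I.mix (nat_lit 38567936) (nat_lit 6094848)) (I.pos (nat_lit 153141248) (nat_lit 187858944)) (I.mix (nat_lit 70057984) (nat_lit 36339712)) (I.mix (nat_lit 47136768) (nat_lit 83116032)) (I.mix (nat_lit 31440896) (nat_lit 47726592)))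
  false (nat_lit 0)
def b2_9 : Bx := Bx.mk (St.mk (I.neg (nat_lit 18120704) (nat_lit 70352896)) (I.mix (nat_lit 48021504) (nat_lit 10256384)) (I.mix (nat_lit 7241728) (nat_lit 21905408)) (I.pos (nat_lit 139853824) (nat_lit 162037760)) (I.mix (nat_lit 39567360) (nat_lit 37978112)) (I.mix (nat_lit 33751040) (nat_lit 53100544)) (I.mix (nat_lit 27508736) (nat_lit 20185088)))
  true (nat_lit 0)
def t2 : BTr := (BTr.n (BTr.n (BTr.n (BTr.b b2_0) (BTr.b b2_1)) (BTr.n (BTr.b b2_2) (BTr.n (BTr.b b2_3) (BTr.b b2_4)))) (BTr.n (BTr.n (BTr.b b2_5) (BTr.b b2_6)) (BTr.n (BTr.b b2_7) (BTr.n (BTr.b b2_8) (BTr.b b2_9)))))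
namespace T2
def l0 : Tr := Tr.L (Pth.l (Pth.l (Pth.l Pth.z)))
def l1 : Tr := Tr.L (Pth.l (Pth.l (Pth.r Pth.z)))
def l2 : Tr := Tr.L (Pth.l (Pth.r (Pth.l Pth.z)))
def l3 : Tr := Tr.L (Pth.l (Pth.r (Pth.r (Pth.l Pth.z))))
def l4 : Tr := Tr.L (Pth.l (Pth.r (Pth.r (Pth.r Pth.z))))
def l5 : Tr := Tr.L (Pth.r (Pth.l (Pth.l Pth.z)))
def l6 : Tr := Tr.L (Pth.r (Pth.l (Pth.r Pth.z)))
def l7 : Tr := Tr.L (Pth.r (Pth.r (Pth.l Pth.z)))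
def l8 : Tr := Tr.L (Pth.r (Pth.r (Pth.r (Pth.l Pth.z))))
def l9 : Tr := Tr.L (Pth.r (Pth.r (Pth.r (Pth.r Pth.z))))
end T2
theorem bx0_0 : BoxOK sI cl5 cl5 cl13 t0 t2 b0_0 :=
  box_mk (TrL.c (I.pos (nat_lit 0) (nat_lit 0)) (xa T0.l0 T0.l0)
  (TrL.c (I.pos (nat_lit 0) (nat_lit 0)) T2.l1
  (TrL.c (I.pos (nat_lit 0) (nat_lit 0)) T0.l1
  (TrL.c (I.pos (nat_lit 0) (nat_lit 0)) T2.l2
  (TrL.c (I.pos (nat_lit 0) (nat_lit 0)) (xa T2.l3 T2.l3)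
  (TrL.c (I.pos (nat_lit 0) (nat_lit 0)) T0.l2
  (TrL.c (I.pos (nat_lit 0) (nat_lit 0)) T2.l4
  (TrL.c (I.pos (nat_lit 0) (nat_lit 0)) T0.l3
  TrL.n)))))))) (by decide +kernel)
theorem bx0_1 : BoxOK sI cl5 cl5 cl13 t0 t2 b0_1 :=
  box_mk (TrL.c (I.pos (nat_lit 0) (nat_lit 0)) T0.l0
  (TrL.c (I.pos (nat_lit 0) (nat_lit 0)) T2.l1
  (TrL.c (I.pos (nat_lit 0) (nat_lit 0)) T0.l1
  (TrL.c (I.pos (nat_lit 0) (nat_lit 0)) T2.l2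
  (TrL.c (I.pos (nat_lit 0) (nat_lit 0)) T2.l3
  (TrL.c (I.pos (nat_lit 0) (nat_lit 0)) T0.l2
  (TrL.c (I.pos (nat_lit 0) (nat_lit 0)) T2.l4
  (TrL.c (I.pos (nat_lit 0) (nat_lit 0)) T0.l3
  TrL.n)))))))) (by decide +kernel)
theorem bx0_2 : BoxOK sI cl5 cl5 cl13 t0 t2 b0_2 :=
  box_mk (TrL.c (I.pos (nat_lit 0) (nat_lit 0)) T0.l0
  (TrL.c (I.pos (nat_lit 0) (nat_lit 0)) T2.l1
  (TrL.c (I.pos (nat_lit 0) (nat_lit 0)) T0.l1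
  (TrL.c (I.pos (nat_lit 0) (nat_lit 0)) T2.l2
  (TrL.c (I.pos (nat_lit 0) (nat_lit 0)) T2.l3
  (TrL.c (I.pos (nat_lit 0) (nat_lit 0)) T0.l2
  (TrL.c (I.pos (nat_lit 0) (nat_lit 0)) T2.l4
  (TrL.c (I.pos (nat_lit 0) (nat_lit 0)) T0.l3
  TrL.n)))))))) (by decide +kernel)
theorem bx0_3 : BoxOK sI cl5 cl5 cl13 t0 t2 b0_3 :=
  box_mk (TrL.c (I.pos (nat_lit 0) (nat_lit 0)) T2.l1
  (TrL.c (I.pos (nat_lit 0) (nat_lit 0)) T0.l1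
  (TrL.c (I.pos (nat_lit 0) (nat_lit 0)) T2.l2
  TrL.n))) (by decide +kernel)
theorem bx0_4 : BoxOK sI cl5 cl5 cl13 t0 t2 b0_4 :=
  box_mk (TrL.c (I.pos (nat_lit 0) (nat_lit 0)) T0.l0
  (TrL.c (I.pos (nat_lit 0) (nat_lit 0)) T2.l1
  (TrL.c (I.pos (nat_lit 0) (nat_lit 0)) T0.l1
  (TrL.c (I.pos (nat_lit 0) (nat_lit 0)) T2.l2
  (TrL.c (I.pos (nat_lit 0) (nat_lit 0)) T2.l3
  (TrL.c (I.pos (nat_lit 0) (nat_lit 0)) T0.l2
  (TrL.c (I.pos (nat_lit 0) (nat_lit 0)) T2.l4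
  (TrL.c (I.pos (nat_lit 0) (nat_lit 0)) T0.l3
  TrL.n)))))))) (by decide +kernel)
theorem bx0_5 : BoxOK sI cl5 cl5 cl13 t0 t2 b0_5 :=
  box_mk (TrL.c (I.pos (nat_lit 0) (nat_lit 0)) (xa T0.l0 T0.l0)
  (TrL.c (I.pos (nat_lit 0) (nat_lit 0)) T2.l1
  (TrL.c (I.pos (nat_lit 0) (nat_lit 0)) T0.l1
  (TrL.c (I.pos (nat_lit 0) (nat_lit 0)) T2.l2
  (TrL.c (I.pos (nat_lit 0) (nat_lit 0)) T2.l3
  (TrL.c (I.pos (nat_lit 0) (nat_lit 0)) T0.l2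
  (TrL.c (I.pos (nat_lit 0) (nat_lit 0)) T2.l4
  (TrL.c (I.pos (nat_lit 0) (nat_lit 0)) T0.l3
  TrL.n)))))))) (by decide +kernel)
theorem bx0_6 : BoxOK sI cl5 cl5 cl13 t0 t2 b0_6 :=
  box_mk (TrL.c (I.pos (nat_lit 0) (nat_lit 0)) T2.l5
  (TrL.c (I.pos (nat_lit 0) (nat_lit 0)) T0.l4
  (TrL.c (I.pos (nat_lit 0) (nat_lit 0)) T2.l6
  TrL.n))) (by decide +kernel)
theorem bx0_7 : BoxOK sI cl5 cl5 cl13 t0 t2 b0_7 :=
  box_mk (TrL.c (I.pos (nat_lit 0) (nat_lit 0)) T0.l0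
  (TrL.c (I.pos (nat_lit 0) (nat_lit 0)) T2.l5
  (TrL.c (I.pos (nat_lit 0) (nat_lit 0)) T0.l4
  (TrL.c (I.pos (nat_lit 0) (nat_lit 0)) T2.l6
  (TrL.c (I.pos (nat_lit 0) (nat_lit 0)) T2.l3
  (TrL.c (I.pos (nat_lit 0) (nat_lit 0)) T0.l2
  (TrL.c (I.pos (nat_lit 0) (nat_lit 0)) T2.l4
  (TrL.c (I.pos (nat_lit 0) (nat_lit 0)) T0.l3
  TrL.n)))))))) (by decide +kernel)
theorem bx0_8 : BoxOK sI cl5 cl5 cl13 t0 t2 b0_8 :=
  box_mk (TrL.c (I.pos (nat_lit 0) (nat_lit 0)) (xb T0.l0 T0.l0)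
  (TrL.c (I.pos (nat_lit 0) (nat_lit 0)) T2.l1
  (TrL.c (I.pos (nat_lit 0) (nat_lit 0)) T0.l1
  (TrL.c (I.pos (nat_lit 0) (nat_lit 0)) T2.l2
  (TrL.c (I.pos (nat_lit 0) (nat_lit 0)) T2.l3
  (TrL.c (I.pos (nat_lit 0) (nat_lit 0)) T0.l2
  (TrL.c (I.pos (nat_lit 0) (nat_lit 0)) T2.l4
  (TrL.c (I.pos (nat_lit 0) (nat_lit 0)) T0.l3
  TrL.n)))))))) (by decide +kernel)
theorem sv0 : StarV sI cl5 cl5 cl13 t0 t2 t0 :=
  (bt_n (bt_n (bt_n (bt_b bx0_0) (bt_b bx0_1)) (bt_n (bt_b bx0_2) (bt_b bx0_3))) (bt_n (bt_n (bt_b bx0_4) (bt_b bx0_5)) (bt_n (bt_b bx0_6) (bt_n (bt_b bx0_7) (bt_b bx0_8)))))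
def S0 : StarD := StarD.mk cl5 cl5 cl13 0 2 t0
theorem bx1_0 : BoxOK sI cl5 cl13 cl5 t2 t0 b1_0 :=
  box_mk (TrL.c (I.pos (nat_lit 0) (nat_lit 0)) (xa T2.l0 T2.l0)
  (TrL.c (I.pos (nat_lit 0) (nat_lit 0)) T0.l5
  (TrL.c (I.pos (nat_lit 0) (nat_lit 0)) T2.l7
  (TrL.c (I.pos (nat_lit 0) (nat_lit 0)) T0.l6
  (TrL.c (I.pos (nat_lit 0) (nat_lit 0)) (xa T0.l8 T0.l8)
  (TrL.c (I.pos (nat_lit 0) (nat_lit 0)) T2.l8
  (TrL.c (I.pos (nat_lit 0) (nat_lit 0)) T0.l7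
  (TrL.c (I.pos (nat_lit 0) (nat_lit 0)) T2.l9
  TrL.n)))))))) (by decide +kernel)
theorem bx1_1 : BoxOK sI cl5 cl13 cl5 t2 t0 b1_1 :=
  box_mk (TrL.c (I.pos (nat_lit 0) (nat_lit 0)) T2.l0
  (TrL.c (I.pos (nat_lit 0) (nat_lit 0)) T0.l5
  (TrL.c (I.pos (nat_lit 0) (nat_lit 0)) T2.l7
  (TrL.c (I.pos (nat_lit 0) (nat_lit 0)) T0.l6
  (TrL.c (I.pos (nat_lit 0) (nat_lit 0)) T0.l8
  (TrL.c (I.pos (nat_lit 0) (nat_lit 0)) T2.l8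
  (TrL.c (I.pos (nat_lit 0) (nat_lit 0)) T0.l7
  (TrL.c (I.pos (nat_lit 0) (nat_lit 0)) T2.l9
  TrL.n)))))))) (by decide +kernel)
theorem bx1_2 : BoxOK sI cl5 cl13 cl5 t2 t0 b1_2 :=
  box_mk (TrL.c (I.pos (nat_lit 0) (nat_lit 0)) (xa (xa T2.l0 T2.l0) T2.l0)
  (TrL.c (I.pos (nat_lit 0) (nat_lit 0)) T0.l5
  (TrL.c (I.pos (nat_lit 0) (nat_lit 0)) T2.l7
  (TrL.c (I.pos (nat_lit 0) (nat_lit 0)) T0.l6
  (TrL.c (I.pos (nat_lit 0) (nat_lit 0)) T0.l8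
  (TrL.c (I.pos (nat_lit 0) (nat_lit 0)) T2.l8
  (TrL.c (I.pos (nat_lit 0) (nat_lit 0)) T0.l7
  (TrL.c (I.pos (nat_lit 0) (nat_lit 0)) T2.l9
  TrL.n)))))))) (by decide +kernel)
theorem bx1_3 : BoxOK sI cl5 cl13 cl5 t2 t0 b1_3 :=
  box_mk (TrL.c (I.pos (nat_lit 0) (nat_lit 0)) (xa (xa T2.l0 T2.l0) T2.l0)
  (TrL.c (I.pos (nat_lit 0) (nat_lit 0)) T0.l5
  (TrL.c (I.pos (nat_lit 0) (nat_lit 0)) T2.l7
  (TrL.c (I.pos (nat_lit 0) (nat_lit 0)) T0.l6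
  (TrL.c (I.pos (nat_lit 0) (nat_lit 0)) T0.l8
  (TrL.c (I.pos (nat_lit 0) (nat_lit 0)) T2.l8
  (TrL.c (I.pos (nat_lit 0) (nat_lit 0)) T0.l7
  (TrL.c (I.pos (nat_lit 0) (nat_lit 0)) T2.l9
  TrL.n)))))))) (by decide +kernel)
theorem bx1_4 : BoxOK sI cl5 cl13 cl5 t2 t0 b1_4 :=
  box_mk (TrL.c (I.pos (nat_lit 0) (nat_lit 0)) (xb (xb (xs T2.l0 T2.l0) T2.l0) (xa T2.l0 T2.l0))
  (TrL.c (I.pos (nat_lit 0) (nat_lit 0)) T0.l5
  (TrL.c (I.pos (nat_lit 0) (nat_lit 0)) T2.l7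
  (TrL.c (I.pos (nat_lit 0) (nat_lit 0)) T0.l6
  (TrL.c (I.pos (nat_lit 0) (nat_lit 0)) T0.l8
  (TrL.c (I.pos (nat_lit 0) (nat_lit 0)) T2.l8
  (TrL.c (I.pos (nat_lit 0) (nat_lit 0)) T0.l7
  (TrL.c (I.pos (nat_lit 0) (nat_lit 0)) T2.l9
  TrL.n)))))))) (by decide +kernel)
theorem bx1_5 : BoxOK sI cl5 cl13 cl5 t2 t0 b1_5 :=
  box_mk (TrL.c (I.pos (nat_lit 0) (nat_lit 0)) T2.l0
  (TrL.c (I.pos (nat_lit 0) (nat_lit 0)) T0.l5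
  (TrL.c (I.pos (nat_lit 0) (nat_lit 0)) T2.l7
  (TrL.c (I.pos (nat_lit 0) (nat_lit 0)) T0.l6
  (TrL.c (I.pos (nat_lit 0) (nat_lit 0)) T0.l8
  (TrL.c (I.pos (nat_lit 0) (nat_lit 0)) T2.l8
  (TrL.c (I.pos (nat_lit 0) (nat_lit 0)) T0.l7
  (TrL.c (I.pos (nat_lit 0) (nat_lit 0)) T2.l9
  TrL.n)))))))) (by decide +kernel)
theorem bx1_6 : BoxOK sI cl5 cl13 cl5 t2 t0 b1_6 :=
  box_mk (TrL.c (I.pos (nat_lit 0) (nat_lit 0)) (xa T2.l0 T2.l0)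
  (TrL.c (I.pos (nat_lit 0) (nat_lit 0)) T0.l5
  (TrL.c (I.pos (nat_lit 0) (nat_lit 0)) T2.l7
  (TrL.c (I.pos (nat_lit 0) (nat_lit 0)) T0.l6
  (TrL.c (I.pos (nat_lit 0) (nat_lit 0)) T0.l8
  (TrL.c (I.pos (nat_lit 0) (nat_lit 0)) T2.l8
  (TrL.c (I.pos (nat_lit 0) (nat_lit 0)) T0.l7
  (TrL.c (I.pos (nat_lit 0) (nat_lit 0)) T2.l9
  TrL.n)))))))) (by decide +kernel)
theorem bx1_7 : BoxOK sI cl5 cl13 cl5 t2 t0 b1_7 :=
  box_mk (TrL.c (I.pos (nat_lit 0) (nat_lit 0)) T2.l0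
  (TrL.c (I.pos (nat_lit 0) (nat_lit 0)) T0.l5
  (TrL.c (I.pos (nat_lit 0) (nat_lit 0)) T2.l7
  (TrL.c (I.pos (nat_lit 0) (nat_lit 0)) T0.l6
  (TrL.c (I.pos (nat_lit 0) (nat_lit 0)) T0.l8
  (TrL.c (I.pos (nat_lit 0) (nat_lit 0)) T2.l8
  (TrL.c (I.pos (nat_lit 0) (nat_lit 0)) T0.l7
  (TrL.c (I.pos (nat_lit 0) (nat_lit 0)) T2.l9
  TrL.n)))))))) (by decide +kernel)
theorem bx1_8 : BoxOK sI cl5 cl13 cl5 t2 t0 b1_8 :=
  box_mk (TrL.c (I.pos (nat_lit 0) (nat_lit 0)) T2.l0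
  (TrL.c (I.pos (nat_lit 0) (nat_lit 0)) T0.l5
  (TrL.c (I.pos (nat_lit 0) (nat_lit 0)) T2.l7
  (TrL.c (I.pos (nat_lit 0) (nat_lit 0)) T0.l6
  (TrL.c (I.pos (nat_lit 0) (nat_lit 0)) T0.l8
  (TrL.c (I.pos (nat_lit 0) (nat_lit 0)) T2.l8
  (TrL.c (I.pos (nat_lit 0) (nat_lit 0)) T0.l7
  (TrL.c (I.pos (nat_lit 0) (nat_lit 0)) T2.l9
  TrL.n)))))))) (by decide +kernel)
theorem bx1_9 : BoxOK sI cl5 cl13 cl5 t2 t0 b1_9 :=
  box_mk (TrL.c (I.pos (nat_lit 0) (nat_lit 0)) T2.l0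
  (TrL.c (I.pos (nat_lit 0) (nat_lit 0)) T0.l5
  (TrL.c (I.pos (nat_lit 0) (nat_lit 0)) T2.l7
  (TrL.c (I.pos (nat_lit 0) (nat_lit 0)) T0.l6
  (TrL.c (I.pos (nat_lit 0) (nat_lit 0)) T0.l8
  (TrL.c (I.pos (nat_lit 0) (nat_lit 0)) T2.l8
  (TrL.c (I.pos (nat_lit 0) (nat_lit 0)) T0.l7
  (TrL.c (I.pos (nat_lit 0) (nat_lit 0)) T2.l9
  TrL.n)))))))) (by decide +kernel)
theorem bx1_10 : BoxOK sI cl5 cl13 cl5 t2 t0 b1_10 :=
  box_mk (TrL.c (I.pos (nat_lit 0) (nat_lit 0)) T2.l0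
  (TrL.c (I.pos (nat_lit 0) (nat_lit 0)) T0.l5
  (TrL.c (I.pos (nat_lit 0) (nat_lit 0)) T2.l7
  (TrL.c (I.pos (nat_lit 0) (nat_lit 0)) T0.l6
  (TrL.c (I.pos (nat_lit 0) (nat_lit 0)) T0.l8
  (TrL.c (I.pos (nat_lit 0) (nat_lit 0)) T2.l8
  (TrL.c (I.pos (nat_lit 0) (nat_lit 0)) T0.l7
  (TrL.c (I.pos (nat_lit 0) (nat_lit 0)) T2.l9
  TrL.n)))))))) (by decide +kernel)
theorem bx1_11 : BoxOK sI cl5 cl13 cl5 t2 t0 b1_11 :=
  box_mk (TrL.c (I.pos (nat_lit 0) (nat_lit 0)) T2.l0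
  (TrL.c (I.pos (nat_lit 0) (nat_lit 0)) T0.l5
  (TrL.c (I.pos (nat_lit 0) (nat_lit 0)) T2.l7
  (TrL.c (I.pos (nat_lit 0) (nat_lit 0)) T0.l6
  (TrL.c (I.pos (nat_lit 0) (nat_lit 0)) T0.l8
  (TrL.c (I.pos (nat_lit 0) (nat_lit 0)) T2.l8
  (TrL.c (I.pos (nat_lit 0) (nat_lit 0)) T0.l7
  (TrL.c (I.pos (nat_lit 0) (nat_lit 0)) T2.l9
  TrL.n)))))))) (by decide +kernel)
theorem sv1 : StarV sI cl5 cl13 cl5 t2 t0 t1 :=
  (bt_n (bt_n (bt_n (bt_b bx1_0) (bt_n (bt_b bx1_1) (bt_b bx1_2))) (bt_n (bt_b bx1_3) (bt_n (bt_b bx1_4) (bt_b bx1_5)))) (bt_n (bt_n (bt_b bx1_6) (bt_n (bt_b bx1_7) (bt_b bx1_8))) (bt_n (bt_b bx1_9) (bt_n (bt_b bx1_10) (bt_b bx1_11)))))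
def S1 : StarD := StarD.mk cl5 cl13 cl5 2 0 t1
theorem bx2_0 : BoxOK sI cl13 cl5 cl5 t1 t1 b2_0 :=
  box_mk (TrL.c (I.pos (nat_lit 0) (nat_lit 0)) (xa (xa T1.l0 T1.l0) T1.l0)
  (TrL.c (I.pos (nat_lit 0) (nat_lit 0)) T1.l1
  (TrL.c (I.pos (nat_lit 0) (nat_lit 134217730)) T1.l2
  (TrL.c (I.pos (nat_lit 0) (nat_lit 110514882)) T1.l3
  (TrL.c (I.pos (nat_lit 0) (nat_lit 0)) (xa T1.l4 (xb (xa T1.l4 T1.l4) (xa (xk (xs T1.l4 T1.l4) (xs T1.l4 (xa T1.l4 T1.l4))) (xs (xk T1.l4 (xa T1.l4 (xk T1.l4 (xb T1.l4 (xs T1.l4 T1.l4))))) (xk (xb T1.l4 (xa (xk T1.l4 T1.l4) (xs T1.l4 (xk T1.l4 (xb T1.l4 (xs T1.l4 T1.l4)))))) (xb T1.l4 (xa (xk (xs T1.l4 T1.l4) (xs T1.l4 T1.l4)) (xs (xk T1.l4 (xa T1.l4 T1.l4)) (xk (xb T1.l4 (xa T1.l4 (xk T1.l4 T1.l4))) (xb T1.l4 (xa T1.l4 (xk T1.l4 (xc (xs T1.l4 T1.l4) T1.l4)))))))))))))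
  (TrL.c (I.pos (nat_lit 0) (nat_lit 0)) T1.l5
  (TrL.c (I.mix (nat_lit 8088324) (nat_lit 110514882)) T1.l6
  (TrL.c (I.mix (nat_lit 8088324) (nat_lit 89478486)) T1.l7
  TrL.n)))))))) (by decide +kernel)
theorem bx2_1 : BoxOK sI cl13 cl5 cl5 t1 t1 b2_1 :=
  box_mk (TrL.c (I.pos (nat_lit 0) (nat_lit 0)) T1.l0
  (TrL.c (I.pos (nat_lit 0) (nat_lit 0)) T1.l1
  (TrL.c (I.pos (nat_lit 0) (nat_lit 134217730)) T1.l2
  (TrL.c (I.pos (nat_lit 0) (nat_lit 110514882)) T1.l3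
  (TrL.c (I.pos (nat_lit 0) (nat_lit 0)) T1.l4
  (TrL.c (I.pos (nat_lit 0) (nat_lit 0)) T1.l5
  (TrL.c (I.mix (nat_lit 8088324) (nat_lit 110514882)) T1.l6
  (TrL.c (I.mix (nat_lit 8088324) (nat_lit 89478486)) T1.l7
  TrL.n)))))))) (by decide +kernel)
theorem bx2_2 : BoxOK sI cl13 cl5 cl5 t1 t1 b2_2 :=
  box_mk (TrL.c (I.pos (nat_lit 0) (nat_lit 0)) T1.l1
  (TrL.c (I.pos (nat_lit 0) (nat_lit 0)) T1.l2
  (TrL.c (I.mix (nat_lit 8088324) (nat_lit 110514882)) T1.l3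
  (TrL.c (I.mix (nat_lit 8088324) (nat_lit 89478486)) T1.l2
  TrL.n)))) (by decide +kernel)
theorem bx2_3 : BoxOK sI cl13 cl5 cl5 t1 t1 b2_3 :=
  box_mk (TrL.c (I.pos (nat_lit 0) (nat_lit 0)) T1.l0
  (TrL.c (I.pos (nat_lit 0) (nat_lit 0)) T1.l1
  (TrL.c (I.pos (nat_lit 0) (nat_lit 134217730)) T1.l2
  (TrL.c (I.pos (nat_lit 0) (nat_lit 110514882)) T1.l3
  (TrL.c (I.pos (nat_lit 0) (nat_lit 0)) T1.l4
  (TrL.c (I.pos (nat_lit 0) (nat_lit 0)) T1.l5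
  (TrL.c (I.mix (nat_lit 8088324) (nat_lit 110514882)) T1.l6
  (TrL.c (I.mix (nat_lit 8088324) (nat_lit 89478486)) T1.l7
  TrL.n)))))))) (by decide +kernel)
theorem bx2_4 : BoxOK sI cl13 cl5 cl5 t1 t1 b2_4 :=
  box_mk (TrL.c (I.pos (nat_lit 0) (nat_lit 0)) T1.l0
  (TrL.c (I.pos (nat_lit 0) (nat_lit 0)) T1.l1
  (TrL.c (I.pos (nat_lit 0) (nat_lit 134217730)) T1.l2
  (TrL.c (I.pos (nat_lit 0) (nat_lit 110514882)) T1.l3
  (TrL.c (I.pos (nat_lit 0) (nat_lit 0)) T1.l4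
  (TrL.c (I.pos (nat_lit 0) (nat_lit 0)) T1.l5
  (TrL.c (I.mix (nat_lit 8088324) (nat_lit 110514882)) T1.l6
  (TrL.c (I.mix (nat_lit 8088324) (nat_lit 89478486)) T1.l7
  TrL.n)))))))) (by decide +kernel)
theorem bx2_5 : BoxOK sI cl13 cl5 cl5 t1 t1 b2_5 :=
  box_mk (TrL.c (I.pos (nat_lit 0) (nat_lit 0)) T1.l0
  (TrL.c (I.pos (nat_lit 0) (nat_lit 0)) T1.l1
  (TrL.c (I.pos (nat_lit 0) (nat_lit 134217730)) T1.l2
  (TrL.c (I.pos (nat_lit 0) (nat_lit 110514882)) T1.l3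
  (TrL.c (I.pos (nat_lit 0) (nat_lit 0)) T1.l4
  (TrL.c (I.pos (nat_lit 0) (nat_lit 0)) T1.l5
  (TrL.c (I.mix (nat_lit 8088324) (nat_lit 110514882)) T1.l6
  (TrL.c (I.mix (nat_lit 8088324) (nat_lit 89478486)) T1.l7
  TrL.n)))))))) (by decide +kernel)
theorem bx2_6 : BoxOK sI cl13 cl5 cl5 t1 t1 b2_6 :=
  box_mk (TrL.c (I.pos (nat_lit 0) (nat_lit 0)) T1.l8
  (TrL.c (I.pos (nat_lit 0) (nat_lit 0)) T1.l2
  (TrL.c (I.mix (nat_lit 8088324) (nat_lit 110514882)) T1.l10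
  (TrL.c (I.mix (nat_lit 8088324) (nat_lit 89478486)) T1.l11
  TrL.n)))) (by decide +kernel)
theorem bx2_7 : BoxOK sI cl13 cl5 cl5 t1 t1 b2_7 :=
  box_mk (TrL.c (I.pos (nat_lit 0) (nat_lit 0)) T1.l0
  (TrL.c (I.pos (nat_lit 0) (nat_lit 0)) T1.l1
  (TrL.c (I.pos (nat_lit 0) (nat_lit 134217730)) T1.l2
  (TrL.c (I.pos (nat_lit 0) (nat_lit 110514882)) T1.l3
  (TrL.c (I.pos (nat_lit 0) (nat_lit 0)) T1.l4
  (TrL.c (I.pos (nat_lit 0) (nat_lit 0)) T1.l5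
  (TrL.c (I.mix (nat_lit 8088324) (nat_lit 110514882)) T1.l6
  (TrL.c (I.mix (nat_lit 8088324) (nat_lit 89478486)) T1.l7
  TrL.n)))))))) (by decide +kernel)
theorem bx2_8 : BoxOK sI cl13 cl5 cl5 t1 t1 b2_8 :=
  box_mk (TrL.c (I.pos (nat_lit 0) (nat_lit 0)) T1.l0
  (TrL.c (I.pos (nat_lit 0) (nat_lit 0)) T1.l1
  (TrL.c (I.pos (nat_lit 0) (nat_lit 134217730)) T1.l2
  (TrL.c (I.pos (nat_lit 0) (nat_lit 110514882)) T1.l3
  (TrL.c (I.pos (nat_lit 0) (nat_lit 0)) T1.l4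
  (TrL.c (I.pos (nat_lit 0) (nat_lit 0)) T1.l5
  (TrL.c (I.mix (nat_lit 8088324) (nat_lit 110514882)) T1.l6
  (TrL.c (I.mix (nat_lit 8088324) (nat_lit 89478486)) T1.l7
  TrL.n)))))))) (by decide +kernel)
theorem bx2_9 : BoxOK sI cl13 cl5 cl5 t1 t1 b2_9 :=
  box_mk (TrL.c (I.pos (nat_lit 0) (nat_lit 0)) T1.l1
  (TrL.c (I.pos (nat_lit 0) (nat_lit 0)) T1.l2
  (TrL.c (I.mix (nat_lit 8088324) (nat_lit 110514882)) T1.l3
  (TrL.c (I.mix (nat_lit 8088324) (nat_lit 89478486)) T1.l2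
  TrL.n)))) (by decide +kernel)
theorem sv2 : StarV sI cl13 cl5 cl5 t1 t1 t2 :=
  (bt_n (bt_n (bt_n (bt_b bx2_0) (bt_b bx2_1)) (bt_n (bt_b bx2_2) (bt_n (bt_b bx2_3) (bt_b bx2_4)))) (bt_n (bt_n (bt_b bx2_5) (bt_b bx2_6)) (bt_n (bt_b bx2_7) (bt_n (bt_b bx2_8) (bt_b bx2_9)))))
def S2 : StarD := StarD.mk cl13 cl5 cl5 1 1 t2
def G : List StarD := [S0, S1, S2]
theorem so0 : StarOK sI G S0 :=
  star_mk (by decide) (by decide) rfl rfl rfl rfl rfl rfl (rfl : _ = t0) (rfl : _ = t2)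
  (st_mk (Pth.l (Pth.l (Pth.l Pth.z))) (nat_lit 242866345) (nat_lit 244738296) (by decide +kernel))
  (st_mk (Pth.l (Pth.l (Pth.l Pth.z))) (nat_lit 279223268) (nat_lit 281714721) (by decide +kernel))
  (st_mk (Pth.l (Pth.l (Pth.l Pth.z))) (nat_lit 321439431) (nat_lit 324769926) (by decide +kernel)) sv0
theorem so1 : StarOK sI G S1 :=
  star_mk (by decide) (by decide) rfl rfl rfl rfl rfl rfl (rfl : _ = t2) (rfl : _ = t0)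
  (st_mk (Pth.l (Pth.l (Pth.l Pth.z))) (nat_lit 97007282) (nat_lit 115982981) (by decide +kernel))
  (st_mk (Pth.l (Pth.l (Pth.l Pth.z))) (nat_lit 132926025) (nat_lit 152434203) (by decide +kernel))
  (st_mk (Pth.l (Pth.l (Pth.l Pth.z))) (nat_lit 174782536) (nat_lit 195056038) (by decide +kernel)) sv1
theorem so2 : StarOK sI G S2 :=
  star_mk (by decide) (by decide) rfl rfl rfl rfl rfl rfl (rfl : _ = t1) (rfl : _ = t1)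
  (st_mk (Pth.l (Pth.l (Pth.l Pth.z))) (nat_lit 238062708) (nat_lit 239666266) (by decide +kernel))
  (st_mk (Pth.l (Pth.l (Pth.l Pth.z))) (nat_lit 272959317) (nat_lit 274898345) (by decide +kernel))
  (st_mk (Pth.l (Pth.l (Pth.l Pth.z))) (nat_lit 313224636) (nat_lit 315608562) (by decide +kernel)) sv2
theorem ok : GroupOK (nat_lit 0) (nat_lit 91291648) G := grp_mk (allS_c so0 (allS_c so1 (allS_c so2 allS_n)))
theorem cov : GCov G cl5 cl5 cl13 := cov_mk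
  ⟨0, by decide, rfl, rfl, rfl⟩ ⟨1, by decide, rfl, rfl, rfl⟩ ⟨0, by decide, rfl, rfl, rfl⟩ ⟨1, by decide, rfl, rfl, rfl⟩ ⟨2, by decide, rfl, rfl, rfl⟩ ⟨2, by decide, rfl, rfl, rfl⟩
end Q226_0

namespace Q226_1
def sI : I := I.pos (nat_lit 91226112) (nat_lit 150339584)
def b0_0 : Bx := Bx.mk (St.mk (I.pos (nat_lit 157335552) (nat_lit 270336000)) (I.mix (nat_lit 5570560) (nat_lit 74465280)) (I.mix (nat_lit 96714752) (nat_lit 76513280)) (I.pos (nat_lit 238387200) (nat_lit 425263104)) (I.mix (nat_lit 103694336) (nat_lit 75202560)) (I.mix (nat_lit 92782592) (nat_lit 63291392)) (I.mix (nat_lit 142540800) (nat_lit 104218624)))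
  false (nat_lit 3877505)
def b0_1 : Bx := Bx.mk (St.mk (I.pos (nat_lit 27099136) (nat_lit 64782336)) (I.mix (nat_lit 1343488) (nat_lit 49692672)) (I.neg (nat_lit 8060928) (nat_lit 33177600)) (I.pos (nat_lit 143507456) (nat_lit 158842880)) (I.mix (nat_lit 35815424) (nat_lit 49217536)) (I.mix (nat_lit 45809664) (nat_lit 29687808)) (I.mix (nat_lit 24461312) (nat_lit 15859712)))
  false (nat_lit 0)
def b0_2 : Bx := Bx.mk (St.mk (I.pos (nat_lit 56098816) (nat_lit 95649792)) (I.mix (nat_lit 63094784) (nat_lit 4374528)) (I.neg (nat_lit 27443200) (nat_lit 71237632)) (I.pos (nat_lit 151207936) (nat_lit 178946048)) (I.mix (nat_lit 88375296) (nat_lit 37126144)) (I.mix (nat_lit 39747584) (nat_lit 73236480)) (I.mix (nat_lit 27541504) (nat_lit 49971200)))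
  false (nat_lit 0)
def b0_3 : Bx := Bx.mk (St.mk (I.neg (nat_lit 27115520) (nat_lit 68059136)) (I.mix (nat_lit 49692672) (nat_lit 3686400)) (I.neg (nat_lit 7979008) (nat_lit 35651584)) (I.pos (nat_lit 143507456) (nat_lit 160169984)) (I.mix (nat_lit 49217536) (nat_lit 35815424)) (I.mix (nat_lit 29687808) (nat_lit 45809664)) (I.mix (nat_lit 24461312) (nat_lit 15859712)))
  true (nat_lit 0)
def b0_4 : Bx := Bx.mk (St.mk (I.pos (nat_lit 53297152) (nat_lit 67305472)) (I.mix (nat_lit 2785280) (nat_lit 16302080)) (I.neg (nat_lit 21954560) (nat_lit 35241984)) (I.pos (nat_lit 151027712) (nat_lit 159956992)) (I.mix (nat_lit 13238272) (nat_lit 19152896)) (I.mix (nat_lit 15892480) (nat_lit 10797056)) (I.mix (nat_lit 8126464) (nat_lit 7323648)))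
  false (nat_lit 0)
def b0_5 : Bx := Bx.mk (St.mk (I.pos (nat_lit 68190208) (nat_lit 146014208)) (I.neg (nat_lit 3981312) (nat_lit 64028672)) (I.neg (nat_lit 18284544) (nat_lit 73220096)) (I.pos (nat_lit 160563200) (nat_lit 224493568)) (I.mix (nat_lit 82264064) (nat_lit 54312960)) (I.mix (nat_lit 43237376) (nat_lit 80461824)) (I.mix (nat_lit 39387136) (nat_lit 70893568)))
  false (nat_lit 0)
def b0_6 : Bx := Bx.mk (St.mk (I.mix (nat_lit 41271296) (nat_lit 4767744)) (I.mix (nat_lit 43040768) (nat_lit 7405568)) (I.neg (nat_lit 10387456) (nat_lit 17858560)) (I.pos (nat_lit 141279232) (nat_lit 152436736)) (I.mix (nat_lit 38567936) (nat_lit 40845312)) (I.mix (nat_lit 27672576) (nat_lit 49725440)) (I.mix (nat_lit 9027584) (nat_lit 7553024)))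
  true (nat_lit 0)
def b0_7 : Bx := Bx.mk (St.mk (I.mix (nat_lit 4767744) (nat_lit 41222144)) (I.mix (nat_lit 7405568) (nat_lit 43040768)) (I.neg (nat_lit 10387456) (nat_lit 17858560)) (I.pos (nat_lit 141279232) (nat_lit 152436736)) (I.mix (nat_lit 40845312) (nat_lit 38567936)) (I.mix (nat_lit 49725440) (nat_lit 27672576)) (I.mix (nat_lit 9027584) (nat_lit 7553024)))
  false (nat_lit 0)
def b0_8 : Bx := Bx.mk (St.mk (I.pos (nat_lit 127795200) (nat_lit 203309056)) (I.mix (nat_lit 39731200) (nat_lit 69894144)) (I.mix (nat_lit 55836672) (nat_lit 70942720)) (I.pos (nat_lit 205242368) (nat_lit 307331072)) (I.mix (nat_lit 126713856) (nat_lit 78512128)) (I.mix (nat_lit 143245312) (nat_lit 79429632)) (I.mix (nat_lit 142360576) (nat_lit 81002496)))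
  false (nat_lit 0)
def t0 : BTr := (BTr.n (BTr.n (BTr.n (BTr.b b0_0) (BTr.b b0_1)) (BTr.n (BTr.b b0_2) (BTr.b b0_3))) (BTr.n (BTr.n (BTr.b b0_4) (BTr.b b0_5)) (BTr.n (BTr.b b0_6) (BTr.n (BTr.b b0_7) (BTr.b b0_8)))))
namespace T0
def l0 : Tr := Tr.L (Pth.l (Pth.l (Pth.l Pth.z)))
def l1 : Tr := Tr.L (Pth.l (Pth.l (Pth.r Pth.z)))
def l2 : Tr := Tr.L (Pth.l (Pth.r (Pth.l Pth.z)))
def l3 : Tr := Tr.L (Pth.l (Pth.r (Pth.r Pth.z)))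
def l4 : Tr := Tr.L (Pth.r (Pth.l (Pth.l Pth.z)))
def l5 : Tr := Tr.L (Pth.r (Pth.l (Pth.r Pth.z)))
def l6 : Tr := Tr.L (Pth.r (Pth.r (Pth.l Pth.z)))
def l7 : Tr := Tr.L (Pth.r (Pth.r (Pth.r (Pth.l Pth.z))))
def l8 : Tr := Tr.L (Pth.r (Pth.r (Pth.r (Pth.r Pth.z))))
end T0
def b1_0 : Bx := Bx.mk (St.mk (I.pos (nat_lit 157417472) (nat_lit 267354112)) (I.mix (nat_lit 7847936) (nat_lit 48676864)) (I.mix (nat_lit 11354112) (nat_lit 89194496)) (I.pos (nat_lit 91701248) (nat_lit 293797888)) (I.mix (nat_lit 110772224) (nat_lit 65454080)) (I.mix (nat_lit 93913088) (nat_lit 66289664)) (I.mix (nat_lit 141852672) (nat_lit 93503488)))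
  false (nat_lit 16562257)
def b1_1 : Bx := Bx.mk (St.mk (I.pos (nat_lit 121110528) (nat_lit 180387840)) (I.neg (nat_lit 5439488) (nat_lit 51363840)) (I.neg (nat_lit 3948544) (nat_lit 50315264)) (I.pos (nat_lit 71499776) (nat_lit 140689408)) (I.mix (nat_lit 69894144) (nat_lit 38780928)) (I.mix (nat_lit 37142528) (nat_lit 54509568)) (I.mix (nat_lit 36110336) (nat_lit 55771136)))
  false (nat_lit 0)
def b1_2 : Bx := Bx.mk (St.mk (I.mix (nat_lit 9437184) (nat_lit 139542528)) (I.mix (nat_lit 2129920) (nat_lit 25362432)) (I.mix (nat_lit 2719744) (nat_lit 24117248)) (I.mix (nat_lit 3129344) (nat_lit 88522752)) (I.mix (nat_lit 38731776) (nat_lit 25411584)) (I.mix (nat_lit 32079872) (nat_lit 21463040)) (I.mix (nat_lit 26525696) (nat_lit 17563648)))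
  false (nat_lit 0)
def b1_3 : Bx := Bx.mk (St.mk (I.mix (nat_lit 8404992) (nat_lit 115146752)) (I.mix (nat_lit 26132480) (nat_lit 2703360)) (I.mix (nat_lit 18448384) (nat_lit 1425408)) (I.mix (nat_lit 2473984) (nat_lit 65667072)) (I.mix (nat_lit 32751616) (nat_lit 21348352)) (I.mix (nat_lit 18333696) (nat_lit 25935872)) (I.mix (nat_lit 12238848) (nat_lit 17825792)))
  false (nat_lit 0)
def b1_4 : Bx := Bx.mk (St.mk (I.pos (nat_lit 161759232) (nat_lit 215384064)) (I.mix (nat_lit 34308096) (nat_lit 50610176)) (I.mix (nat_lit 30228480) (nat_lit 87572480)) (I.pos (nat_lit 103137280) (nat_lit 191774720)) (I.mix (nat_lit 142770176) (nat_lit 57016320)) (I.mix (nat_lit 160546816) (nat_lit 86933504)) (I.mix (nat_lit 193904640) (nat_lit 94470144)))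
  false (nat_lit 0)
def b1_5 : Bx := Bx.mk (St.mk (I.pos (nat_lit 119963648) (nat_lit 158646272)) (I.mix (nat_lit 49823744) (nat_lit 2555904)) (I.mix (nat_lit 51232768) (nat_lit 2211840)) (I.pos (nat_lit 55001088) (nat_lit 111296512)) (I.mix (nat_lit 94044160) (nat_lit 34357248)) (I.mix (nat_lit 48218112) (nat_lit 97206272)) (I.mix (nat_lit 41435136) (nat_lit 88080384)))
  false (nat_lit 0)
def b1_6 : Bx := Bx.mk (St.mk (I.mix (nat_lit 13090816) (nat_lit 133038080)) (I.mix (nat_lit 9748480) (nat_lit 30998528)) (I.mix (nat_lit 6193152) (nat_lit 27066368)) (I.mix (nat_lit 2916352) (nat_lit 81199104)) (I.mix (nat_lit 56410112) (nat_lit 28672000)) (I.mix (nat_lit 55590912) (nat_lit 33210368)) (I.mix (nat_lit 40878080) (nat_lit 22642688)))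
  false (nat_lit 0)
def b1_7 : Bx := Bx.mk (St.mk (I.mix (nat_lit 12009472) (nat_lit 107134976)) (I.mix (nat_lit 23101440) (nat_lit 1228800)) (I.mix (nat_lit 16252928) (nat_lit 1310720)) (I.mix (nat_lit 2260992) (nat_lit 58523648)) (I.mix (nat_lit 34832384) (nat_lit 16007168)) (I.mix (nat_lit 19480576) (nat_lit 32571392)) (I.mix (nat_lit 11649024) (nat_lit 20054016)))
  false (nat_lit 0)
def b1_8 : Bx := Bx.mk (St.mk (I.pos (nat_lit 160464896) (nat_lit 178913280)) (I.neg (nat_lit 13221888) (nat_lit 34095104)) (I.neg (nat_lit 7487488) (nat_lit 31703040)) (I.pos (nat_lit 102694912) (nat_lit 139034624)) (I.mix (nat_lit 22020096) (nat_lit 10584064)) (I.mix (nat_lit 8962048) (nat_lit 12189696)) (I.mix (nat_lit 9469952) (nat_lit 13320192)))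
  false (nat_lit 0)
def b1_9 : Bx := Bx.mk (St.mk (I.pos (nat_lit 120586240) (nat_lit 134955008)) (I.mix (nat_lit 425984) (nat_lit 6160384)) (I.mix (nat_lit 1687552) (nat_lit 5980160)) (I.pos (nat_lit 55590912) (nat_lit 86081536)) (I.mix (nat_lit 5046272) (nat_lit 6553600)) (I.mix (nat_lit 3473408) (nat_lit 3047424)) (I.mix (nat_lit 3227648) (nat_lit 2605056)))
  false (nat_lit 0)
def b1_10 : Bx := Bx.mk (St.mk (I.mix (nat_lit 13369344) (nat_lit 115064832)) (I.mix (nat_lit 11730944) (nat_lit 1048576)) (I.mix (nat_lit 7913472) (nat_lit 1130496)) (I.mix (nat_lit 2457600) (nat_lit 65437696)) (I.mix (nat_lit 5849088) (nat_lit 6373376)) (I.mix (nat_lit 3325952) (nat_lit 4210688)) (I.mix (nat_lit 2408448) (nat_lit 3276800)))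
  false (nat_lit 0)
def b1_11 : Bx := Bx.mk (St.mk (I.mix (nat_lit 10436608) (nat_lit 17907712)) (I.mix (nat_lit 622592) (nat_lit 2244608)) (I.mix (nat_lit 917504) (nat_lit 688128)) (I.mix (nat_lit 1097728) (nat_lit 18841600)) (I.mix (nat_lit 1490944) (nat_lit 2359296)) (I.mix (nat_lit 1556480) (nat_lit 1261568)) (I.mix (nat_lit 606208) (nat_lit 589824)))
  false (nat_lit 0)
def t1 : BTr := (BTr.n (BTr.n (BTr.n (BTr.b b1_0) (BTr.n (BTr.b b1_1) (BTr.b b1_2))) (BTr.n (BTr.b b1_3) (BTr.n (BTr.b b1_4) (BTr.b b1_5)))) (BTr.n (BTr.n (BTr.b b1_6) (BTr.n (BTr.b b1_7) (BTr.b b1_8))) (BTr.n (BTr.b b1_9) (BTr.n (BTr.b b1_10) (BTr.b b1_11)))))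
namespace T1
def l0 : Tr := Tr.L (Pth.l (Pth.l (Pth.l Pth.z)))
def l1 : Tr := Tr.L (Pth.l (Pth.l (Pth.r (Pth.l Pth.z))))
def l2 : Tr := Tr.L (Pth.l (Pth.l (Pth.r (Pth.r Pth.z))))
def l3 : Tr := Tr.L (Pth.l (Pth.r (Pth.l Pth.z)))
def l4 : Tr := Tr.L (Pth.l (Pth.r (Pth.r (Pth.l Pth.z))))
def l5 : Tr := Tr.L (Pth.l (Pth.r (Pth.r (Pth.r Pth.z))))
def l6 : Tr := Tr.L (Pth.r (Pth.l (Pth.l Pth.z)))
def l7 : Tr := Tr.L (Pth.r (Pth.l (Pth.r (Pth.l Pth.z))))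
def l8 : Tr := Tr.L (Pth.r (Pth.l (Pth.r (Pth.r Pth.z))))
def l9 : Tr := Tr.L (Pth.r (Pth.r (Pth.l Pth.z)))
def l10 : Tr := Tr.L (Pth.r (Pth.r (Pth.r (Pth.l Pth.z))))
def l11 : Tr := Tr.L (Pth.r (Pth.r (Pth.r (Pth.r Pth.z))))
end T1
def b2_0 : Bx := Bx.mk (St.mk (I.pos (nat_lit 143982592) (nat_lit 281853952)) (I.mix (nat_lit 17088512) (nat_lit 65929216)) (I.mix (nat_lit 36061184) (nat_lit 119504896)) (I.pos (nat_lit 231784448) (nat_lit 434798592)) (I.mix (nat_lit 128303104) (nat_lit 99942400)) (I.mix (nat_lit 128057344) (nat_lit 84099072)) (I.mix (nat_lit 181944320) (nat_lit 102187008)))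
  false (nat_lit 81588166)
def b2_1 : Bx := Bx.mk (St.mk (I.pos (nat_lit 82280448) (nat_lit 142966784)) (I.neg (nat_lit 15892480) (nat_lit 71598080)) (I.mix (nat_lit 43696128) (nat_lit 12091392)) (I.pos (nat_lit 173834240) (nat_lit 219152384)) (I.mix (nat_lit 69287936) (nat_lit 48594944)) (I.mix (nat_lit 41369600) (nat_lit 56377344)) (I.mix (nat_lit 36913152) (nat_lit 49283072)))
  false (nat_lit 0)
def b2_2 : Bx := Bx.mk (St.mk (I.mix (nat_lit 31277056) (nat_lit 1622016)) (I.mix (nat_lit 43139072) (nat_lit 1146880)) (I.pos (nat_lit 10928128) (nat_lit 18644992)) (I.pos (nat_lit 140541952) (nat_lit 149176320)) (I.mix (nat_lit 28098560) (nat_lit 40960000)) (I.mix (nat_lit 23953408) (nat_lit 37994496)) (I.mix (nat_lit 6111232) (nat_lit 7290880)))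
  true (nat_lit 0)
def b2_3 : Bx := Bx.mk (St.mk (I.pos (nat_lit 133152768) (nat_lit 191184896)) (I.mix (nat_lit 29278208) (nat_lit 66928640)) (I.pos (nat_lit 1851392) (nat_lit 119472128)) (I.pos (nat_lit 207929344) (nat_lit 279724032)) (I.mix (nat_lit 141393920) (nat_lit 71630848)) (I.mix (nat_lit 135266304) (nat_lit 72499200)) (I.mix (nat_lit 143261696) (nat_lit 71712768)))
  false (nat_lit 51006464)
def b2_4 : Bx := Bx.mk (St.mk (I.mix (nat_lit 4718592) (nat_lit 31358976)) (I.mix (nat_lit 2916352) (nat_lit 43204608)) (I.pos (nat_lit 10928128) (nat_lit 18644992)) (I.pos (nat_lit 140541952) (nat_lit 149176320)) (I.mix (nat_lit 40960000) (nat_lit 28098560)) (I.mix (nat_lit 37994496) (nat_lit 23953408)) (I.mix (nat_lit 6111232) (nat_lit 7290880)))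
  false (nat_lit 0)
def b2_5 : Bx := Bx.mk (St.mk (I.pos (nat_lit 125714432) (nat_lit 147439616)) (I.neg (nat_lit 18923520) (nat_lit 43220992)) (I.mix (nat_lit 13795328) (nat_lit 14417920)) (I.pos (nat_lit 203898880) (nat_lit 223625216)) (I.mix (nat_lit 22560768) (nat_lit 24330240)) (I.mix (nat_lit 16646144) (nat_lit 19398656)) (I.mix (nat_lit 14991360) (nat_lit 20119552)))
  false (nat_lit 0)
def b2_6 : Bx := Bx.mk (St.mk (I.mix (nat_lit 7274496) (nat_lit 4014080)) (I.mix (nat_lit 11534336) (nat_lit 1982464)) (I.pos (nat_lit 11730944) (nat_lit 15925248)) (I.pos (nat_lit 140525568) (nat_lit 143687680)) (I.mix (nat_lit 9388032) (nat_lit 15564800)) (I.mix (nat_lit 8339456) (nat_lit 11747328)) (I.mix (nat_lit 1097728) (nat_lit 933888)))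
  true (nat_lit 0)
def b2_7 : Bx := Bx.mk (St.mk (I.pos (nat_lit 16023552) (nat_lit 68796416)) (I.mix (nat_lit 6848512) (nat_lit 48021504)) (I.mix (nat_lit 5619712) (nat_lit 21954560)) (I.pos (nat_lit 140197888) (nat_lit 161267712)) (I.mix (nat_lit 44138496) (nat_lit 44548096)) (I.mix (nat_lit 54427648) (nat_lit 32194560)) (I.mix (nat_lit 27787264) (nat_lit 19070976)))
  false (nat_lit 0)
def b2_8 : Bx := Bx.mk (St.mk (I.pos (nat_lit 55820288) (nat_lit 107741184)) (I.mix (nat_lit 67862528) (nat_lit 7798784)) (I.mix (nat_lit 38567936) (nat_lit 4358144)) (I.pos (nat_lit 153501696) (nat_lit 188841984)) (I.mix (nat_lit 75677696) (nat_lit 44367872)) (I.mix (nat_lit 42041344) (nat_lit 81248256)) (I.mix (nat_lit 30932992) (nat_lit 46891008)))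
  false (nat_lit 0)
def b2_9 : Bx := Bx.mk (St.mk (I.neg (nat_lit 16023552) (nat_lit 68796416)) (I.mix (nat_lit 48021504) (nat_lit 6848512)) (I.mix (nat_lit 5619712) (nat_lit 21970944)) (I.pos (nat_lit 140197888) (nat_lit 161267712)) (I.mix (nat_lit 44548096) (nat_lit 44138496)) (I.mix (nat_lit 32194560) (nat_lit 54427648)) (I.mix (nat_lit 27820032) (nat_lit 19070976)))
  true (nat_lit 0)
def t2 : BTr := (BTr.n (BTr.n (BTr.n (BTr.b b2_0) (BTr.b b2_1)) (BTr.n (BTr.b b2_2) (BTr.n (BTr.b b2_3) (BTr.b b2_4)))) (BTr.n (BTr.n (BTr.b b2_5) (BTr.b b2_6)) (BTr.n (BTr.b b2_7) (BTr.n (BTr.b b2_8) (BTr.b b2_9)))))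
namespace T2
def l0 : Tr := Tr.L (Pth.l (Pth.l (Pth.l Pth.z)))
def l1 : Tr := Tr.L (Pth.l (Pth.l (Pth.r Pth.z)))
def l2 : Tr := Tr.L (Pth.l (Pth.r (Pth.l Pth.z)))
def l3 : Tr := Tr.L (Pth.l (Pth.r (Pth.r (Pth.l Pth.z))))
def l4 : Tr := Tr.L (Pth.l (Pth.r (Pth.r (Pth.r Pth.z))))
def l5 : Tr := Tr.L (Pth.r (Pth.l (Pth.l Pth.z)))
def l6 : Tr := Tr.L (Pth.r (Pth.l (Pth.r Pth.z)))
def l7 : Tr := Tr.L (Pth.r (Pth.r (Pth.l Pth.z)))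
def l8 : Tr := Tr.L (Pth.r (Pth.r (Pth.r (Pth.l Pth.z))))
def l9 : Tr := Tr.L (Pth.r (Pth.r (Pth.r (Pth.r Pth.z))))
end T2
theorem bx0_0 : BoxOK sI cl5 cl5 cl13 t0 t2 b0_0 :=
  box_mk (TrL.c (I.pos (nat_lit 0) (nat_lit 0)) (xa (xb T0.l0 (xa T0.l0 T0.l0)) (xa (xb T0.l0 T0.l0) (xb T0.l0 T0.l0)))
  (TrL.c (I.pos (nat_lit 0) (nat_lit 0)) (xa T2.l1 T2.l1)
  (TrL.c (I.pos (nat_lit 0) (nat_lit 0)) T0.l1
  (TrL.c (I.pos (nat_lit 0) (nat_lit 0)) T2.l2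
  (TrL.c (I.pos (nat_lit 0) (nat_lit 0)) (xa T2.l3 (xb T2.l0 (xa T2.l3 T2.l3)))
  (TrL.c (I.pos (nat_lit 0) (nat_lit 0)) (xa T0.l2 T0.l2)
  (TrL.c (I.pos (nat_lit 0) (nat_lit 0)) T2.l4
  (TrL.c (I.pos (nat_lit 0) (nat_lit 0)) T0.l3
  TrL.n)))))))) (by decide +kernel)
theorem bx0_1 : BoxOK sI cl5 cl5 cl13 t0 t2 b0_1 :=
  box_mk (TrL.c (I.pos (nat_lit 0) (nat_lit 0)) T0.l0
  (TrL.c (I.pos (nat_lit 0) (nat_lit 0)) T2.l1
  (TrL.c (I.pos (nat_lit 0) (nat_lit 0)) T0.l1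
  (TrL.c (I.pos (nat_lit 0) (nat_lit 0)) T2.l2
  (TrL.c (I.pos (nat_lit 0) (nat_lit 0)) T2.l3
  (TrL.c (I.pos (nat_lit 0) (nat_lit 0)) T0.l2
  (TrL.c (I.pos (nat_lit 0) (nat_lit 0)) T2.l4
  (TrL.c (I.pos (nat_lit 0) (nat_lit 0)) T0.l3
  TrL.n)))))))) (by decide +kernel)
theorem bx0_2 : BoxOK sI cl5 cl5 cl13 t0 t2 b0_2 :=
  box_mk (TrL.c (I.pos (nat_lit 0) (nat_lit 0)) T0.l0
  (TrL.c (I.pos (nat_lit 0) (nat_lit 0)) T2.l1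
  (TrL.c (I.pos (nat_lit 0) (nat_lit 0)) T0.l1
  (TrL.c (I.pos (nat_lit 0) (nat_lit 0)) T2.l2
  (TrL.c (I.pos (nat_lit 0) (nat_lit 0)) T2.l3
  (TrL.c (I.pos (nat_lit 0) (nat_lit 0)) T0.l2
  (TrL.c (I.pos (nat_lit 0) (nat_lit 0)) T2.l4
  (TrL.c (I.pos (nat_lit 0) (nat_lit 0)) T0.l3
  TrL.n)))))))) (by decide +kernel)
theorem bx0_3 : BoxOK sI cl5 cl5 cl13 t0 t2 b0_3 :=
  box_mk (TrL.c (I.pos (nat_lit 0) (nat_lit 0)) T2.l1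
  (TrL.c (I.pos (nat_lit 0) (nat_lit 0)) T0.l1
  (TrL.c (I.pos (nat_lit 0) (nat_lit 0)) T2.l2
  TrL.n))) (by decide +kernel)
theorem bx0_4 : BoxOK sI cl5 cl5 cl13 t0 t2 b0_4 :=
  box_mk (TrL.c (I.pos (nat_lit 0) (nat_lit 0)) T0.l0
  (TrL.c (I.pos (nat_lit 0) (nat_lit 0)) T2.l1
  (TrL.c (I.pos (nat_lit 0) (nat_lit 0)) T0.l1
  (TrL.c (I.pos (nat_lit 0) (nat_lit 0)) T2.l2
  (TrL.c (I.pos (nat_lit 0) (nat_lit 0)) T2.l3
  (TrL.c (I.pos (nat_lit 0) (nat_lit 0)) T0.l2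
  (TrL.c (I.pos (nat_lit 0) (nat_lit 0)) T2.l4
  (TrL.c (I.pos (nat_lit 0) (nat_lit 0)) T0.l3
  TrL.n)))))))) (by decide +kernel)
theorem bx0_5 : BoxOK sI cl5 cl5 cl13 t0 t2 b0_5 :=
  box_mk (TrL.c (I.pos (nat_lit 0) (nat_lit 0)) (xa T0.l0 T0.l0)
  (TrL.c (I.pos (nat_lit 0) (nat_lit 0)) T2.l1
  (TrL.c (I.pos (nat_lit 0) (nat_lit 0)) T0.l1
  (TrL.c (I.pos (nat_lit 0) (nat_lit 0)) T2.l2
  (TrL.c (I.pos (nat_lit 0) (nat_lit 0)) T2.l3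
  (TrL.c (I.pos (nat_lit 0) (nat_lit 0)) T0.l2
  (TrL.c (I.pos (nat_lit 0) (nat_lit 0)) T2.l4
  (TrL.c (I.pos (nat_lit 0) (nat_lit 0)) T0.l3
  TrL.n)))))))) (by decide +kernel)
theorem bx0_6 : BoxOK sI cl5 cl5 cl13 t0 t2 b0_6 :=
  box_mk (TrL.c (I.pos (nat_lit 0) (nat_lit 0)) T2.l5
  (TrL.c (I.pos (nat_lit 0) (nat_lit 0)) T0.l4
  (TrL.c (I.pos (nat_lit 0) (nat_lit 0)) T2.l6
  TrL.n))) (by decide +kernel)
theorem bx0_7 : BoxOK sI cl5 cl5 cl13 t0 t2 b0_7 :=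
  box_mk (TrL.c (I.pos (nat_lit 0) (nat_lit 0)) (xb T0.l0 T0.l0)
  (TrL.c (I.pos (nat_lit 0) (nat_lit 0)) T2.l5
  (TrL.c (I.pos (nat_lit 0) (nat_lit 0)) T0.l4
  (TrL.c (I.pos (nat_lit 0) (nat_lit 0)) T2.l6
  (TrL.c (I.pos (nat_lit 0) (nat_lit 0)) T2.l3
  (TrL.c (I.pos (nat_lit 0) (nat_lit 0)) T0.l2
  (TrL.c (I.pos (nat_lit 0) (nat_lit 0)) T2.l4
  (TrL.c (I.pos (nat_lit 0) (nat_lit 0)) T0.l3
  TrL.n)))))))) (by decide +kernel)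
theorem bx0_8 : BoxOK sI cl5 cl5 cl13 t0 t2 b0_8 :=
  box_mk (TrL.c (I.pos (nat_lit 0) (nat_lit 0)) (xb (xa T0.l0 T0.l0) (xa (xb T0.l0 T0.l0) T0.l0))
  (TrL.c (I.pos (nat_lit 0) (nat_lit 0)) (xb T2.l1 T2.l1)
  (TrL.c (I.pos (nat_lit 0) (nat_lit 0)) T0.l1
  (TrL.c (I.pos (nat_lit 0) (nat_lit 0)) T2.l2
  (TrL.c (I.pos (nat_lit 0) (nat_lit 0)) (xb T2.l3 T2.l3)
  (TrL.c (I.pos (nat_lit 0) (nat_lit 0)) T0.l2
  (TrL.c (I.pos (nat_lit 0) (nat_lit 0)) T2.l4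
  (TrL.c (I.pos (nat_lit 0) (nat_lit 0)) T0.l3
  TrL.n)))))))) (by decide +kernel)
theorem sv0 : StarV sI cl5 cl5 cl13 t0 t2 t0 :=
  (bt_n (bt_n (bt_n (bt_b bx0_0) (bt_b bx0_1)) (bt_n (bt_b bx0_2) (bt_b bx0_3))) (bt_n (bt_n (bt_b bx0_4) (bt_b bx0_5)) (bt_n (bt_b bx0_6) (bt_n (bt_b bx0_7) (bt_b bx0_8)))))
def S0 : StarD := StarD.mk cl5 cl5 cl13 0 2 t0
theorem bx1_0 : BoxOK sI cl5 cl13 cl5 t2 t0 b1_0 :=
  box_mk (TrL.c (I.pos (nat_lit 0) (nat_lit 0)) (xa (xa (xb T2.l0 T2.l0) T2.l0) (xa T2.l0 T2.l0))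
  (TrL.c (I.pos (nat_lit 0) (nat_lit 0)) (xa T0.l5 (xa T0.l5 T0.l5))
  (TrL.c (I.pos (nat_lit 0) (nat_lit 0)) T2.l7
  (TrL.c (I.pos (nat_lit 0) (nat_lit 0)) T0.l6
  (TrL.c (I.pos (nat_lit 0) (nat_lit 0)) (xa T0.l8 (xa T0.l8 (xb T0.l8 T0.l8)))
  (TrL.c (I.pos (nat_lit 0) (nat_lit 0)) (xa T2.l8 T2.l8)
  (TrL.c (I.pos (nat_lit 0) (nat_lit 0)) T0.l7
  (TrL.c (I.pos (nat_lit 0) (nat_lit 0)) T2.l9
  TrL.n)))))))) (by decide +kernel)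
theorem bx1_1 : BoxOK sI cl5 cl13 cl5 t2 t0 b1_1 :=
  box_mk (TrL.c (I.pos (nat_lit 0) (nat_lit 0)) T2.l0
  (TrL.c (I.pos (nat_lit 0) (nat_lit 0)) T0.l5
  (TrL.c (I.pos (nat_lit 0) (nat_lit 0)) T2.l7
  (TrL.c (I.pos (nat_lit 0) (nat_lit 0)) T0.l6
  (TrL.c (I.pos (nat_lit 0) (nat_lit 0)) T0.l8
  (TrL.c (I.pos (nat_lit 0) (nat_lit 0)) T2.l8
  (TrL.c (I.pos (nat_lit 0) (nat_lit 0)) T0.l7
  (TrL.c (I.pos (nat_lit 0) (nat_lit 0)) T2.l9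
  TrL.n)))))))) (by decide +kernel)
theorem bx1_2 : BoxOK sI cl5 cl13 cl5 t2 t0 b1_2 :=
  box_mk (TrL.c (I.pos (nat_lit 0) (nat_lit 0)) (xa T2.l0 T2.l0)
  (TrL.c (I.pos (nat_lit 0) (nat_lit 0)) (xa T0.l5 T0.l5)
  (TrL.c (I.pos (nat_lit 0) (nat_lit 0)) T2.l7
  (TrL.c (I.pos (nat_lit 0) (nat_lit 0)) T0.l6
  (TrL.c (I.pos (nat_lit 0) (nat_lit 0)) (xa T0.l8 T0.l8)
  (TrL.c (I.pos (nat_lit 0) (nat_lit 0)) T2.l8
  (TrL.c (I.pos (nat_lit 0) (nat_lit 0)) T0.l7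
  (TrL.c (I.pos (nat_lit 0) (nat_lit 0)) T2.l9
  TrL.n)))))))) (by decide +kernel)
theorem bx1_3 : BoxOK sI cl5 cl13 cl5 t2 t0 b1_3 :=
  box_mk (TrL.c (I.pos (nat_lit 0) (nat_lit 0)) (xa (xa T2.l0 T2.l0) T2.l0)
  (TrL.c (I.pos (nat_lit 0) (nat_lit 0)) (xa T0.l5 T0.l5)
  (TrL.c (I.pos (nat_lit 0) (nat_lit 0)) T2.l7
  (TrL.c (I.pos (nat_lit 0) (nat_lit 0)) T0.l6
  (TrL.c (I.pos (nat_lit 0) (nat_lit 0)) (xa T0.l8 T0.l8)
  (TrL.c (I.pos (nat_lit 0) (nat_lit 0)) T2.l8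
  (TrL.c (I.pos (nat_lit 0) (nat_lit 0)) T0.l7
  (TrL.c (I.pos (nat_lit 0) (nat_lit 0)) T2.l9
  TrL.n)))))))) (by decide +kernel)
theorem bx1_4 : BoxOK sI cl5 cl13 cl5 t2 t0 b1_4 :=
  box_mk (TrL.c (I.pos (nat_lit 0) (nat_lit 0)) (xb (xa (xb (xs T2.l0 (xb (xa (xs T2.l0 T2.l0) (xs T2.l0 (xb T2.l0 T2.l0))) T2.l0)) (xb (xs T2.l0 (xa T2.l0 T2.l0)) T2.l0)) (xb (xs T2.l0 (xb (xa (xs T2.l0 (xb (xa T2.l0 T2.l0) T2.l0)) (xs T2.l0 (xb (xa T2.l0 T2.l0) T2.l0))) (xa T2.l0 T2.l0))) (xs T2.l0 (xb (xa (xs T2.l0 (xb T2.l0 T2.l0)) (xs T2.l0 (xb (xa T2.l0 T2.l0) (xa T2.l0 T2.l0)))) (xa T2.l0 T2.l0))))) (xa T2.l0 (xb T2.l0 T2.l0)))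
  (TrL.c (I.pos (nat_lit 0) (nat_lit 0)) (xb T0.l5 T0.l5)
  (TrL.c (I.pos (nat_lit 0) (nat_lit 0)) T2.l7
  (TrL.c (I.pos (nat_lit 0) (nat_lit 0)) T0.l6
  (TrL.c (I.pos (nat_lit 0) (nat_lit 0)) (xb T0.l8 T0.l8)
  (TrL.c (I.pos (nat_lit 0) (nat_lit 0)) T2.l8
  (TrL.c (I.pos (nat_lit 0) (nat_lit 0)) T0.l7
  (TrL.c (I.pos (nat_lit 0) (nat_lit 0)) T2.l9
  TrL.n)))))))) (by decide +kernel)
theorem bx1_5 : BoxOK sI cl5 cl13 cl5 t2 t0 b1_5 :=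
  box_mk (TrL.c (I.pos (nat_lit 0) (nat_lit 0)) T2.l0
  (TrL.c (I.pos (nat_lit 0) (nat_lit 0)) T0.l5
  (TrL.c (I.pos (nat_lit 0) (nat_lit 0)) T2.l7
  (TrL.c (I.pos (nat_lit 0) (nat_lit 0)) T0.l6
  (TrL.c (I.pos (nat_lit 0) (nat_lit 0)) T0.l8
  (TrL.c (I.pos (nat_lit 0) (nat_lit 0)) T2.l8
  (TrL.c (I.pos (nat_lit 0) (nat_lit 0)) T0.l7
  (TrL.c (I.pos (nat_lit 0) (nat_lit 0)) T2.l9
  TrL.n)))))))) (by decide +kernel)
theorem bx1_6 : BoxOK sI cl5 cl13 cl5 t2 t0 b1_6 :=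
  box_mk (TrL.c (I.pos (nat_lit 0) (nat_lit 0)) (xa (xa (xb T2.l0 T2.l0) T2.l0) T2.l0)
  (TrL.c (I.pos (nat_lit 0) (nat_lit 0)) (xa T0.l5 T0.l5)
  (TrL.c (I.pos (nat_lit 0) (nat_lit 0)) T2.l7
  (TrL.c (I.pos (nat_lit 0) (nat_lit 0)) T0.l6
  (TrL.c (I.pos (nat_lit 0) (nat_lit 0)) (xa T0.l8 T0.l8)
  (TrL.c (I.pos (nat_lit 0) (nat_lit 0)) T2.l8
  (TrL.c (I.pos (nat_lit 0) (nat_lit 0)) T0.l7
  (TrL.c (I.pos (nat_lit 0) (nat_lit 0)) T2.l9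
  TrL.n)))))))) (by decide +kernel)
theorem bx1_7 : BoxOK sI cl5 cl13 cl5 t2 t0 b1_7 :=
  box_mk (TrL.c (I.pos (nat_lit 0) (nat_lit 0)) (xa (xa T2.l0 T2.l0) T2.l0)
  (TrL.c (I.pos (nat_lit 0) (nat_lit 0)) T0.l5
  (TrL.c (I.pos (nat_lit 0) (nat_lit 0)) T2.l7
  (TrL.c (I.pos (nat_lit 0) (nat_lit 0)) T0.l6
  (TrL.c (I.pos (nat_lit 0) (nat_lit 0)) T0.l8
  (TrL.c (I.pos (nat_lit 0) (nat_lit 0)) T2.l8
  (TrL.c (I.pos (nat_lit 0) (nat_lit 0)) T0.l7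
  (TrL.c (I.pos (nat_lit 0) (nat_lit 0)) T2.l9
  TrL.n)))))))) (by decide +kernel)
theorem bx1_8 : BoxOK sI cl5 cl13 cl5 t2 t0 b1_8 :=
  box_mk (TrL.c (I.pos (nat_lit 0) (nat_lit 0)) T2.l0
  (TrL.c (I.pos (nat_lit 0) (nat_lit 0)) T0.l5
  (TrL.c (I.pos (nat_lit 0) (nat_lit 0)) T2.l7
  (TrL.c (I.pos (nat_lit 0) (nat_lit 0)) T0.l6
  (TrL.c (I.pos (nat_lit 0) (nat_lit 0)) T0.l8
  (TrL.c (I.pos (nat_lit 0) (nat_lit 0)) T2.l8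
  (TrL.c (I.pos (nat_lit 0) (nat_lit 0)) T0.l7
  (TrL.c (I.pos (nat_lit 0) (nat_lit 0)) T2.l9
  TrL.n)))))))) (by decide +kernel)
theorem bx1_9 : BoxOK sI cl5 cl13 cl5 t2 t0 b1_9 :=
  box_mk (TrL.c (I.pos (nat_lit 0) (nat_lit 0)) T2.l0
  (TrL.c (I.pos (nat_lit 0) (nat_lit 0)) T0.l5
  (TrL.c (I.pos (nat_lit 0) (nat_lit 0)) T2.l7
  (TrL.c (I.pos (nat_lit 0) (nat_lit 0)) T0.l6
  (TrL.c (I.pos (nat_lit 0) (nat_lit 0)) T0.l8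
  (TrL.c (I.pos (nat_lit 0) (nat_lit 0)) T2.l8
  (TrL.c (I.pos (nat_lit 0) (nat_lit 0)) T0.l7
  (TrL.c (I.pos (nat_lit 0) (nat_lit 0)) T2.l9
  TrL.n)))))))) (by decide +kernel)
theorem bx1_10 : BoxOK sI cl5 cl13 cl5 t2 t0 b1_10 :=
  box_mk (TrL.c (I.pos (nat_lit 0) (nat_lit 0)) T2.l0
  (TrL.c (I.pos (nat_lit 0) (nat_lit 0)) T0.l5
  (TrL.c (I.pos (nat_lit 0) (nat_lit 0)) T2.l7
  (TrL.c (I.pos (nat_lit 0) (nat_lit 0)) T0.l6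
  (TrL.c (I.pos (nat_lit 0) (nat_lit 0)) T0.l8
  (TrL.c (I.pos (nat_lit 0) (nat_lit 0)) T2.l8
  (TrL.c (I.pos (nat_lit 0) (nat_lit 0)) T0.l7
  (TrL.c (I.pos (nat_lit 0) (nat_lit 0)) T2.l9
  TrL.n)))))))) (by decide +kernel)
theorem bx1_11 : BoxOK sI cl5 cl13 cl5 t2 t0 b1_11 :=
  box_mk (TrL.c (I.pos (nat_lit 0) (nat_lit 0)) T2.l0
  (TrL.c (I.pos (nat_lit 0) (nat_lit 0)) T0.l5
  (TrL.c (I.pos (nat_lit 0) (nat_lit 0)) T2.l7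
  (TrL.c (I.pos (nat_lit 0) (nat_lit 0)) T0.l6
  (TrL.c (I.pos (nat_lit 0) (nat_lit 0)) T0.l8
  (TrL.c (I.pos (nat_lit 0) (nat_lit 0)) T2.l8
  (TrL.c (I.pos (nat_lit 0) (nat_lit 0)) T0.l7
  (TrL.c (I.pos (nat_lit 0) (nat_lit 0)) T2.l9
  TrL.n)))))))) (by decide +kernel)
theorem sv1 : StarV sI cl5 cl13 cl5 t2 t0 t1 :=
  (bt_n (bt_n (bt_n (bt_b bx1_0) (bt_n (bt_b bx1_1) (bt_b bx1_2))) (bt_n (bt_b bx1_3) (bt_n (bt_b bx1_4) (bt_b bx1_5)))) (bt_n (bt_n (bt_b bx1_6) (bt_n (bt_b bx1_7) (bt_b bx1_8))) (bt_n (bt_b bx1_9) (bt_n (bt_b bx1_10) (bt_b bx1_11)))))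
def S1 : StarD := StarD.mk cl5 cl13 cl5 2 0 t1
theorem bx2_0 : BoxOK sI cl13 cl5 cl5 t1 t1 b2_0 :=
  box_mk (TrL.c (I.pos (nat_lit 0) (nat_lit 0)) (xa (xa (xb T1.l0 T1.l0) T1.l0) (xa T1.l0 T1.l0))
  (TrL.c (I.pos (nat_lit 0) (nat_lit 0)) (xa (xa T1.l1 T1.l1) (xa T1.l1 T1.l5))
  (TrL.c (I.pos (nat_lit 0) (nat_lit 134217730)) (xR T1.l6 (xR T1.l2 T1.l6))
  (TrL.c (I.pos (nat_lit 0) (nat_lit 110514882)) (xR (xR T1.l3 T1.l3) (xR T1.l3 T1.l3))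
  (TrL.c (I.pos (nat_lit 0) (nat_lit 0)) (xa (xb (xa T1.l4 T1.l4) T1.l4) (xa (xb (xk T1.l4 T1.l4) (xk (xb T1.l4 (xs T1.l4 T1.l4)) (xb T1.l4 (xs T1.l4 T1.l4)))) (xb (xk T1.l4 T1.l4) (xk (xb (xs T1.l4 T1.l4) (xs (xa T1.l4 (xk T1.l4 (xs T1.l4 T1.l4))) (xa T1.l4 (xk (xb T1.l4 T1.l4) (xb T1.l4 (xs T1.l4 T1.l4)))))) (xb (xs T1.l4 (xa T1.l4 T1.l4)) (xs (xa T1.l4 (xk T1.l4 (xs T1.l4 T1.l4))) (xa (xk T1.l4 (xb T1.l4 T1.l4)) (xk (xb T1.l4 (xs T1.l4 T1.l4)) (xb T1.l4 (xs T1.l4 (xa T1.l4 T1.l4)))))))))))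
  (TrL.c (I.pos (nat_lit 0) (nat_lit 0)) (xa T1.l5 T1.l5)
  (TrL.c (I.mix (nat_lit 8088324) (nat_lit 110514882)) (xR T1.l6 (xR T1.l6 T1.l6))
  (TrL.c (I.mix (nat_lit 8088324) (nat_lit 89478486)) (xR T1.l7 (xR T1.l7 T1.l7))
  TrL.n)))))))) (by decide +kernel)
theorem bx2_1 : BoxOK sI cl13 cl5 cl5 t1 t1 b2_1 :=
  box_mk (TrL.c (I.pos (nat_lit 0) (nat_lit 0)) T1.l0
  (TrL.c (I.pos (nat_lit 0) (nat_lit 0)) T1.l1
  (TrL.c (I.pos (nat_lit 0) (nat_lit 134217730)) (xR T1.l2 T1.l2)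
  (TrL.c (I.pos (nat_lit 0) (nat_lit 110514882)) (xR T1.l3 T1.l3)
  (TrL.c (I.pos (nat_lit 0) (nat_lit 0)) T1.l4
  (TrL.c (I.pos (nat_lit 0) (nat_lit 0)) T1.l5
  (TrL.c (I.mix (nat_lit 8088324) (nat_lit 110514882)) T1.l6
  (TrL.c (I.mix (nat_lit 8088324) (nat_lit 89478486)) T1.l7
  TrL.n)))))))) (by decide +kernel)
theorem bx2_2 : BoxOK sI cl13 cl5 cl5 t1 t1 b2_2 :=
  box_mk (TrL.c (I.pos (nat_lit 0) (nat_lit 0)) T1.l1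
  (TrL.c (I.pos (nat_lit 0) (nat_lit 0)) T1.l2
  (TrL.c (I.mix (nat_lit 8088324) (nat_lit 110514882)) (xR T1.l10 T1.l3)
  (TrL.c (I.mix (nat_lit 8088324) (nat_lit 89478486)) T1.l6
  TrL.n)))) (by decide +kernel)
theorem bx2_3 : BoxOK sI cl13 cl5 cl5 t1 t1 b2_3 :=
  box_mk (TrL.c (I.pos (nat_lit 0) (nat_lit 0)) (xb T1.l0 (xa T1.l0 T1.l0))
  (TrL.c (I.pos (nat_lit 0) (nat_lit 0)) (xb T1.l1 T1.l1)
  (TrL.c (I.pos (nat_lit 0) (nat_lit 134217730)) (xR T1.l2 T1.l6)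
  (TrL.c (I.pos (nat_lit 0) (nat_lit 110514882)) (xR T1.l3 (xR T1.l3 T1.l3))
  (TrL.c (I.pos (nat_lit 0) (nat_lit 0)) (xb T1.l4 T1.l4)
  (TrL.c (I.pos (nat_lit 0) (nat_lit 0)) T1.l5
  (TrL.c (I.mix (nat_lit 8088324) (nat_lit 110514882)) (xR T1.l6 T1.l6)
  (TrL.c (I.mix (nat_lit 8088324) (nat_lit 89478486)) T1.l7
  TrL.n)))))))) (by decide +kernel)
theorem bx2_4 : BoxOK sI cl13 cl5 cl5 t1 t1 b2_4 :=
  box_mk (TrL.c (I.pos (nat_lit 0) (nat_lit 0)) T1.l0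
  (TrL.c (I.pos (nat_lit 0) (nat_lit 0)) T1.l1
  (TrL.c (I.pos (nat_lit 0) (nat_lit 134217730)) T1.l2
  (TrL.c (I.pos (nat_lit 0) (nat_lit 110514882)) T1.l3
  (TrL.c (I.pos (nat_lit 0) (nat_lit 0)) T1.l4
  (TrL.c (I.pos (nat_lit 0) (nat_lit 0)) T1.l5
  (TrL.c (I.mix (nat_lit 8088324) (nat_lit 110514882)) T1.l6
  (TrL.c (I.mix (nat_lit 8088324) (nat_lit 89478486)) T1.l7
  TrL.n)))))))) (by decide +kernel)
theorem bx2_5 : BoxOK sI cl13 cl5 cl5 t1 t1 b2_5 :=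
  box_mk (TrL.c (I.pos (nat_lit 0) (nat_lit 0)) T1.l0
  (TrL.c (I.pos (nat_lit 0) (nat_lit 0)) T1.l1
  (TrL.c (I.pos (nat_lit 0) (nat_lit 134217730)) (xR T1.l2 T1.l2)
  (TrL.c (I.pos (nat_lit 0) (nat_lit 110514882)) (xR T1.l3 T1.l3)
  (TrL.c (I.pos (nat_lit 0) (nat_lit 0)) T1.l4
  (TrL.c (I.pos (nat_lit 0) (nat_lit 0)) T1.l5
  (TrL.c (I.mix (nat_lit 8088324) (nat_lit 110514882)) T1.l6
  (TrL.c (I.mix (nat_lit 8088324) (nat_lit 89478486)) T1.l7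
  TrL.n)))))))) (by decide +kernel)
theorem bx2_6 : BoxOK sI cl13 cl5 cl5 t1 t1 b2_6 :=
  box_mk (TrL.c (I.pos (nat_lit 0) (nat_lit 0)) T1.l8
  (TrL.c (I.pos (nat_lit 0) (nat_lit 0)) T1.l9
  (TrL.c (I.mix (nat_lit 8088324) (nat_lit 110514882)) T1.l6
  (TrL.c (I.mix (nat_lit 8088324) (nat_lit 89478486)) T1.l2
  TrL.n)))) (by decide +kernel)
theorem bx2_7 : BoxOK sI cl13 cl5 cl5 t1 t1 b2_7 :=
  box_mk (TrL.c (I.pos (nat_lit 0) (nat_lit 0)) T1.l0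
  (TrL.c (I.pos (nat_lit 0) (nat_lit 0)) T1.l1
  (TrL.c (I.pos (nat_lit 0) (nat_lit 134217730)) T1.l2
  (TrL.c (I.pos (nat_lit 0) (nat_lit 110514882)) T1.l3
  (TrL.c (I.pos (nat_lit 0) (nat_lit 0)) T1.l4
  (TrL.c (I.pos (nat_lit 0) (nat_lit 0)) T1.l5
  (TrL.c (I.mix (nat_lit 8088324) (nat_lit 110514882)) T1.l6
  (TrL.c (I.mix (nat_lit 8088324) (nat_lit 89478486)) T1.l7
  TrL.n)))))))) (by decide +kernel)
theorem bx2_8 : BoxOK sI cl13 cl5 cl5 t1 t1 b2_8 :=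
  box_mk (TrL.c (I.pos (nat_lit 0) (nat_lit 0)) T1.l0
  (TrL.c (I.pos (nat_lit 0) (nat_lit 0)) T1.l1
  (TrL.c (I.pos (nat_lit 0) (nat_lit 134217730)) (xR T1.l2 T1.l2)
  (TrL.c (I.pos (nat_lit 0) (nat_lit 110514882)) (xR T1.l3 T1.l3)
  (TrL.c (I.pos (nat_lit 0) (nat_lit 0)) T1.l4
  (TrL.c (I.pos (nat_lit 0) (nat_lit 0)) T1.l5
  (TrL.c (I.mix (nat_lit 8088324) (nat_lit 110514882)) T1.l6
  (TrL.c (I.mix (nat_lit 8088324) (nat_lit 89478486)) T1.l7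
  TrL.n)))))))) (by decide +kernel)
theorem bx2_9 : BoxOK sI cl13 cl5 cl5 t1 t1 b2_9 :=
  box_mk (TrL.c (I.pos (nat_lit 0) (nat_lit 0)) T1.l1
  (TrL.c (I.pos (nat_lit 0) (nat_lit 0)) T1.l2
  (TrL.c (I.mix (nat_lit 8088324) (nat_lit 110514882)) (xR T1.l10 T1.l3)
  (TrL.c (I.mix (nat_lit 8088324) (nat_lit 89478486)) T1.l6
  TrL.n)))) (by decide +kernel)
theorem sv2 : StarV sI cl13 cl5 cl5 t1 t1 t2 :=
  (bt_n (bt_n (bt_n (bt_b bx2_0) (bt_b bx2_1)) (bt_n (bt_b bx2_2) (bt_n (bt_b bx2_3) (bt_b bx2_4)))) (bt_n (bt_n (bt_b bx2_5) (bt_b bx2_6)) (bt_n (bt_b bx2_7) (bt_n (bt_b bx2_8) (bt_b bx2_9)))))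
def S2 : StarD := StarD.mk cl13 cl5 cl5 1 1 t2
def G : List StarD := [S0, S1, S2]
theorem so0 : StarOK sI G S0 :=
  star_mk (by decide) (by decide) rfl rfl rfl rfl rfl rfl (rfl : _ = t0) (rfl : _ = t2)
  (st_mk (Pth.l (Pth.l (Pth.l Pth.z))) (nat_lit 244490088) (nat_lit 245856998) (by decide +kernel))
  (st_mk (Pth.l (Pth.l (Pth.l Pth.z))) (nat_lit 281386738) (nat_lit 283211743) (by decide +kernel))
  (st_mk (Pth.l (Pth.l (Pth.l Pth.z))) (nat_lit 324333508) (nat_lit 326782835) (by decide +kernel)) sv0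
theorem so1 : StarOK sI G S1 :=
  star_mk (by decide) (by decide) rfl rfl rfl rfl rfl rfl (rfl : _ = t2) (rfl : _ = t0)
  (st_mk (Pth.l (Pth.l (Pth.l Pth.z))) (nat_lit 97420209) (nat_lit 116346678) (by decide +kernel))
  (st_mk (Pth.l (Pth.l (Pth.l Pth.z))) (nat_lit 133707505) (nat_lit 153073630) (by decide +kernel))
  (st_mk (Pth.l (Pth.l (Pth.l Pth.z))) (nat_lit 176149617) (nat_lit 196123503) (by decide +kernel)) sv1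
theorem so2 : StarOK sI G S2 :=
  star_mk (by decide) (by decide) rfl rfl rfl rfl rfl rfl (rfl : _ = t1) (rfl : _ = t1)
  (st_mk (Pth.l (Pth.l (Pth.l Pth.z))) (nat_lit 238062708) (nat_lit 239842346) (by decide +kernel))
  (st_mk (Pth.l (Pth.l (Pth.l Pth.z))) (nat_lit 272959317) (nat_lit 275130422) (by decide +kernel))
  (st_mk (Pth.l (Pth.l (Pth.l Pth.z))) (nat_lit 313224636) (nat_lit 315915088) (by decide +kernel)) sv2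
theorem ok : GroupOK (nat_lit 91226112) (nat_lit 150339584) G := grp_mk (allS_c so0 (allS_c so1 (allS_c so2 allS_n)))
theorem cov : GCov G cl5 cl5 cl13 := cov_mk
  ⟨0, by decide, rfl, rfl, rfl⟩ ⟨1, by decide, rfl, rfl, rfl⟩ ⟨0, by decide, rfl, rfl, rfl⟩ ⟨1, by decide, rfl, rfl, rfl⟩ ⟨2, by decide, rfl, rfl, rfl⟩ ⟨2, by decide, rfl, rfl, rfl⟩
end Q226_1


end Pool.Agent.Helper6.MONO
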