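import Pool.Agent.Helper6.MONO.Cert.C39

/-!
Certificate data (generated).
-/

set_option autoImplicit false
set_option linter.all false
noncomputable section
namespace Pool.Agent.Helper6.MONO


namespace Q226_2
def sI : I := I.pos (nat_lit 150274048) (nat_lit 209387520)
def b0_0 : Bx := Bx.mk (St.mk (I.pos (nat_lit 158760960) (nat_lit 224788480)) (I.mix (nat_lit 2195456) (nat_lit 72630272)) (I.mix (nat_lit 2064384) (nat_lit 68501504)) (I.pos (nat_lit 241827840) (nat_lit 347045888)) (I.mix (nat_lit 103530496) (nat_lit 51691520)) (I.mix (nat_lit 60555264) (nat_lit 46972928)) (I.mix (nat_lit 78118912) (nat_lit 71680000)))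
  false (nat_lit 0)
def b0_1 : Bx := Bx.mk (St.mk (I.pos (nat_lit 26984448) (nat_lit 65880064)) (I.mix (nat_lit 917504) (nat_lit 43761664)) (I.neg (nat_lit 9437184) (nat_lit 32964608)) (I.pos (nat_lit 143884288) (nat_lit 158810112)) (I.mix (nat_lit 30326784) (nat_lit 49315840)) (I.mix (nat_lit 39583744) (nat_lit 24330240)) (I.mix (nat_lit 21643264) (nat_lit 14106624)))
  false (nat_lit 0)
def b0_2 : Bx := Bx.mk (St.mk (I.pos (nat_lit 54378496) (nat_lit 94142464)) (I.mix (nat_lit 57835520) (nat_lit 4767744)) (I.neg (nat_lit 26984448) (nat_lit 67223552)) (I.pos (nat_lit 149258240) (nat_lit 177537024)) (I.mix (nat_lit 81756160) (nat_lit 29868032)) (I.mix (nat_lit 29720576) (nat_lit 64503808)) (I.mix (nat_lit 19677184) (nat_lit 41041920)))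
  false (nat_lit 0)
def b0_3 : Bx := Bx.mk (St.mk (I.neg (nat_lit 26984448) (nat_lit 69517312)) (I.mix (nat_lit 43761664) (nat_lit 4063232)) (I.neg (nat_lit 9355264) (nat_lit 35897344)) (I.pos (nat_lit 143900672) (nat_lit 160137216)) (I.mix (nat_lit 49315840) (nat_lit 30326784)) (I.mix (nat_lit 24330240) (nat_lit 39583744)) (I.mix (nat_lit 21676032) (nat_lit 14106624)))
  true (nat_lit 0)
def b0_4 : Bx := Bx.mk (St.mk (I.pos (nat_lit 195444736) (nat_lit 271826944)) (I.mix (nat_lit 7634944) (nat_lit 41172992)) (I.mix (nat_lit 100368384) (nat_lit 5046272)) (I.pos (nat_lit 305020928) (nat_lit 428605440)) (I.mix (nat_lit 83787776) (nat_lit 55689216)) (I.mix (nat_lit 56639488) (nat_lit 54837248)) (I.mix (nat_lit 92225536) (nat_lit 96026624)))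
  false (nat_lit 0)
def b0_5 : Bx := Bx.mk (St.mk (I.pos (nat_lit 52854784) (nat_lit 68763648)) (I.mix (nat_lit 3440640) (nat_lit 16007168)) (I.neg (nat_lit 21921792) (nat_lit 35520512)) (I.pos (nat_lit 149929984) (nat_lit 159956992)) (I.mix (nat_lit 15941632) (nat_lit 22118400)) (I.mix (nat_lit 16728064) (nat_lit 11288576)) (I.mix (nat_lit 8372224) (nat_lit 7766016)))
  false (nat_lit 0)
def b0_6 : Bx := Bx.mk (St.mk (I.pos (nat_lit 62406656) (nat_lit 149127168)) (I.neg (nat_lit 6864896) (nat_lit 63438848)) (I.neg (nat_lit 17825792) (nat_lit 72613888)) (I.pos (nat_lit 156844032) (nat_lit 227655680)) (I.mix (nat_lit 86917120) (nat_lit 50167808)) (I.mix (nat_lit 41254912) (nat_lit 71680000)) (I.mix (nat_lit 36356096) (nat_lit 64634880)))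
  false (nat_lit 0)
def b0_7 : Bx := Bx.mk (St.mk (I.mix (nat_lit 42663936) (nat_lit 9142272)) (I.mix (nat_lit 40239104) (nat_lit 8568832)) (I.neg (nat_lit 10141696) (nat_lit 18153472)) (I.pos (nat_lit 140804096) (nat_lit 153518080)) (I.mix (nat_lit 37617664) (nat_lit 44728320)) (I.mix (nat_lit 28819456) (nat_lit 46186496)) (I.mix (nat_lit 8028160) (nat_lit 8552448)))
  true (nat_lit 0)
def b0_8 : Bx := Bx.mk (St.mk (I.pos (nat_lit 152043520) (nat_lit 202784768)) (I.pos (nat_lit 2965504) (nat_lit 64028672)) (I.mix (nat_lit 5177344) (nat_lit 64077824)) (I.pos (nat_lit 243564544) (nat_lit 308658176)) (I.mix (nat_lit 123650048) (nat_lit 47202304)) (I.mix (nat_lit 114688000) (nat_lit 68665344)) (I.mix (nat_lit 109543424) (nat_lit 73007104)))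
  false (nat_lit 0)
def b0_9 : Bx := Bx.mk (St.mk (I.mix (nat_lit 9142272) (nat_lit 42663936)) (I.mix (nat_lit 8568832) (nat_lit 40239104)) (I.neg (nat_lit 10141696) (nat_lit 18153472)) (I.pos (nat_lit 140804096) (nat_lit 153518080)) (I.mix (nat_lit 44728320) (nat_lit 37617664)) (I.mix (nat_lit 46186496) (nat_lit 28819456)) (I.mix (nat_lit 8028160) (nat_lit 8552448)))
  false (nat_lit 0)
def b0_10 : Bx := Bx.mk (St.mk (I.pos (nat_lit 118210560) (nat_lit 191954944)) (I.mix (nat_lit 37830656) (nat_lit 20381696)) (I.mix (nat_lit 52903936) (nat_lit 9142272)) (I.pos (nat_lit 197705728) (nat_lit 281985024)) (I.mix (nat_lit 60604416) (nat_lit 51396608)) (I.mix (nat_lit 52494336) (nat_lit 44646400)) (I.mix (nat_lit 52346880) (nat_lit 40878080)))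
  false (nat_lit 0)
def b0_11 : Bx := Bx.mk (St.mk (I.pos (nat_lit 152092672) (nat_lit 196329472)) (I.mix (nat_lit 2260992) (nat_lit 46039040)) (I.mix (nat_lit 17252352) (nat_lit 44351488)) (I.pos (nat_lit 246136832) (nat_lit 288768000)) (I.mix (nat_lit 124403712) (nat_lit 69664768)) (I.mix (nat_lit 134594560) (nat_lit 65044480)) (I.mix (nat_lit 132120576) (nat_lit 63373312)))
  false (nat_lit 0)
def b0_12 : Bx := Bx.mk (St.mk (I.pos (nat_lit 181944320) (nat_lit 232095744)) (I.pos (nat_lit 13647872) (nat_lit 70041600)) (I.mix (nat_lit 27590656) (nat_lit 59064320)) (I.pos (nat_lit 298401792) (nat_lit 350240768)) (I.mix (nat_lit 92880896) (nat_lit 70942720)) (I.mix (nat_lit 78331904) (nat_lit 52740096)) (I.mix (nat_lit 125386752) (nat_lit 75153408)))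
  false (nat_lit 0)
def t0 : BTr := (BTr.n (BTr.n (BTr.n (BTr.b b0_0) (BTr.n (BTr.b b0_1) (BTr.b b0_2))) (BTr.n (BTr.b b0_3) (BTr.n (BTr.b b0_4) (BTr.b b0_5)))) (BTr.n (BTr.n (BTr.b b0_6) (BTr.n (BTr.b b0_7) (BTr.b b0_8))) (BTr.n (BTr.n (BTr.b b0_9) (BTr.b b0_10)) (BTr.n (BTr.b b0_11) (BTr.b b0_12)))))
namespace T0
def l0 : Tr := Tr.L (Pth.l (Pth.l (Pth.l Pth.z)))
def l1 : Tr := Tr.L (Pth.l (Pth.l (Pth.r (Pth.l Pth.z))))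
def l2 : Tr := Tr.L (Pth.l (Pth.l (Pth.r (Pth.r Pth.z))))
def l3 : Tr := Tr.L (Pth.l (Pth.r (Pth.l Pth.z)))
def l4 : Tr := Tr.L (Pth.l (Pth.r (Pth.r (Pth.l Pth.z))))
def l5 : Tr := Tr.L (Pth.l (Pth.r (Pth.r (Pth.r Pth.z))))
def l6 : Tr := Tr.L (Pth.r (Pth.l (Pth.l Pth.z)))
def l7 : Tr := Tr.L (Pth.r (Pth.l (Pth.r (Pth.l Pth.z))))
def l8 : Tr := Tr.L (Pth.r (Pth.l (Pth.r (Pth.r Pth.z))))
def l9 : Tr := Tr.L (Pth.r (Pth.r (Pth.l (Pth.l Pth.z))))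
def l10 : Tr := Tr.L (Pth.r (Pth.r (Pth.l (Pth.r Pth.z))))
def l11 : Tr := Tr.L (Pth.r (Pth.r (Pth.r (Pth.l Pth.z))))
def l12 : Tr := Tr.L (Pth.r (Pth.r (Pth.r (Pth.r Pth.z))))
end T0
def b1_0 : Bx := Bx.mk (St.mk (I.pos (nat_lit 157253632) (nat_lit 238305280)) (I.mix (nat_lit 1507328) (nat_lit 50790400)) (I.mix (nat_lit 2605056) (nat_lit 94093312)) (I.pos (nat_lit 94175232) (nat_lit 225001472)) (I.mix (nat_lit 115376128) (nat_lit 65667072)) (I.mix (nat_lit 84557824) (nat_lit 71712768)) (I.mix (nat_lit 120537088) (nat_lit 92438528)))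
  false (nat_lit 28933633)
def b1_1 : Bx := Bx.mk (St.mk (I.pos (nat_lit 118620160) (nat_lit 180060160)) (I.neg (nat_lit 4390912) (nat_lit 48316416)) (I.neg (nat_lit 4374528) (nat_lit 47333376)) (I.pos (nat_lit 70680576) (nat_lit 139870208)) (I.mix (nat_lit 72237056) (nat_lit 36356096)) (I.mix (nat_lit 37126144) (nat_lit 49446912)) (I.mix (nat_lit 33472512) (nat_lit 45645824)))
  false (nat_lit 25859081)
def b1_2 : Bx := Bx.mk (St.mk (I.mix (nat_lit 41320448) (nat_lit 142229504)) (I.mix (nat_lit 2179072) (nat_lit 30212096)) (I.mix (nat_lit 2899968) (nat_lit 28835840)) (I.mix (nat_lit 3178496) (nat_lit 89849856)) (I.mix (nat_lit 53149696) (nat_lit 37109760)) (I.mix (nat_lit 36716544) (nat_lit 30113792)) (I.mix (nat_lit 29753344) (nat_lit 25690112)))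
  false (nat_lit 0)
def b1_3 : Bx := Bx.mk (St.mk (I.mix (nat_lit 22380544) (nat_lit 117047296)) (I.mix (nat_lit 26656768) (nat_lit 5799936)) (I.mix (nat_lit 19087360) (nat_lit 2129920)) (I.mix (nat_lit 2490368) (nat_lit 66453504)) (I.mix (nat_lit 35667968) (nat_lit 29294592)) (I.mix (nat_lit 23199744) (nat_lit 26787840)) (I.mix (nat_lit 15892480) (nat_lit 18726912)))
  false (nat_lit 0)
def b1_4 : Bx := Bx.mk (St.mk (I.pos (nat_lit 170622976) (nat_lit 216154112)) (I.mix (nat_lit 13303808) (nat_lit 51347456)) (I.pos (nat_lit 2916352) (nat_lit 89309184)) (I.pos (nat_lit 117489664) (nat_lit 194740224)) (I.mix (nat_lit 143982592) (nat_lit 54476800)) (I.mix (nat_lit 134234112) (nat_lit 72073216)) (I.mix (nat_lit 158367744) (nat_lit 72237056)))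
  false (nat_lit 0)
def b1_5 : Bx := Bx.mk (St.mk (I.pos (nat_lit 119013376) (nat_lit 156172288)) (I.mix (nat_lit 45858816) (nat_lit 2490368)) (I.mix (nat_lit 46333952) (nat_lit 2146304)) (I.pos (nat_lit 54525952) (nat_lit 106692608)) (I.mix (nat_lit 83984384) (nat_lit 25690112)) (I.mix (nat_lit 32325632) (nat_lit 72138752)) (I.mix (nat_lit 27361280) (nat_lit 63881216)))
  false (nat_lit 10630880)
def b1_6 : Bx := Bx.mk (St.mk (I.mix (nat_lit 16842752) (nat_lit 132939776)) (I.mix (nat_lit 9879552) (nat_lit 30736384)) (I.mix (nat_lit 7602176) (nat_lit 27459584)) (I.mix (nat_lit 2932736) (nat_lit 81575936)) (I.mix (nat_lit 55738368) (nat_lit 31260672)) (I.mix (nat_lit 45514752) (nat_lit 32882688)) (I.mix (nat_lit 32636928) (nat_lit 22511616)))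
  false (nat_lit 0)
def b1_7 : Bx := Bx.mk (St.mk (I.mix (nat_lit 12009472) (nat_lit 107659264)) (I.mix (nat_lit 25034752) (nat_lit 1212416)) (I.mix (nat_lit 17432576) (nat_lit 2211840)) (I.mix (nat_lit 2260992) (nat_lit 58834944)) (I.mix (nat_lit 38289408) (nat_lit 18464768)) (I.mix (nat_lit 18464768) (nat_lit 28508160)) (I.mix (nat_lit 10780672) (nat_lit 16957440)))
  false (nat_lit 0)
def b1_8 : Bx := Bx.mk (St.mk (I.pos (nat_lit 197836800) (nat_lit 266043392)) (I.mix (nat_lit 8503296) (nat_lit 33636352)) (I.mix (nat_lit 11632640) (nat_lit 63668224)) (I.pos (nat_lit 177340416) (nat_lit 293683200)) (I.mix (nat_lit 80920576) (nat_lit 45924352)) (I.mix (nat_lit 57737216) (nat_lit 43974656)) (I.mix (nat_lit 94470144) (nat_lit 73252864)))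
  false (nat_lit 15090063)
def b1_9 : Bx := Bx.mk (St.mk (I.pos (nat_lit 159645696) (nat_lit 206110720)) (I.mix (nat_lit 34078720) (nat_lit 3571712)) (I.mix (nat_lit 29655040) (nat_lit 18989056)) (I.pos (nat_lit 102006784) (nat_lit 175194112)) (I.mix (nat_lit 60964864) (nat_lit 46153728)) (I.mix (nat_lit 45449216) (nat_lit 43712512)) (I.mix (nat_lit 49741824) (nat_lit 47529984)))
  false (nat_lit 17512858)
def b1_10 : Bx := Bx.mk (St.mk (I.pos (nat_lit 158023680) (nat_lit 178782208)) (I.neg (nat_lit 13041664) (nat_lit 34045952)) (I.neg (nat_lit 7045120) (nat_lit 31899648)) (I.pos (nat_lit 101662720) (nat_lit 139395072)) (I.mix (nat_lit 26378240) (nat_lit 12877824)) (I.mix (nat_lit 10764288) (nat_lit 14057472)) (I.mix (nat_lit 11534336) (nat_lit 15319040)))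
  false (nat_lit 0)
def b1_11 : Bx := Bx.mk (St.mk (I.pos (nat_lit 120111104) (nat_lit 135315456)) (I.mix (nat_lit 491520) (nat_lit 6144000)) (I.mix (nat_lit 1703936) (nat_lit 5963776)) (I.pos (nat_lit 55328768) (nat_lit 86638592)) (I.mix (nat_lit 5242880) (nat_lit 6520832)) (I.mix (nat_lit 3162112) (nat_lit 2867200)) (I.mix (nat_lit 2899968) (nat_lit 2408448)))
  false (nat_lit 0)
def b1_12 : Bx := Bx.mk (St.mk (I.mix (nat_lit 20086784) (nat_lit 116899840)) (I.mix (nat_lit 14336000) (nat_lit 2179072)) (I.mix (nat_lit 10010624) (nat_lit 2113536)) (I.mix (nat_lit 2490368) (nat_lit 66289664)) (I.mix (nat_lit 10289152) (nat_lit 8798208)) (I.mix (nat_lit 5521408) (nat_lit 5718016)) (I.mix (nat_lit 4014080) (nat_lit 4145152)))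
  false (nat_lit 0)
def b1_13 : Bx := Bx.mk (St.mk (I.pos (nat_lit 187351040) (nat_lit 237305856)) (I.pos (nat_lit 9371648) (nat_lit 48431104)) (I.pos (nat_lit 21004288) (nat_lit 89309184)) (I.pos (nat_lit 167837696) (nat_lit 223641600)) (I.mix (nat_lit 83001344) (nat_lit 60637184)) (I.mix (nat_lit 73351168) (nat_lit 52838400)) (I.mix (nat_lit 118030336) (nat_lit 66273280)))
  false (nat_lit 10820034)
def b1_14 : Bx := Bx.mk (St.mk (I.pos (nat_lit 175439872) (nat_lit 207552512)) (I.mix (nat_lit 19398656) (nat_lit 17924096)) (I.mix (nat_lit 4276224) (nat_lit 40960000)) (I.pos (nat_lit 119324672) (nat_lit 176635904)) (I.mix (nat_lit 76824576) (nat_lit 45072384)) (I.mix (nat_lit 82214912) (nat_lit 41156608)) (I.mix (nat_lit 96862208) (nat_lit 44204032)))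
  false (nat_lit 19877470)
def t1 : BTr := (BTr.n (BTr.n (BTr.n (BTr.b b1_0) (BTr.n (BTr.b b1_1) (BTr.b b1_2))) (BTr.n (BTr.n (BTr.b b1_3) (BTr.b b1_4)) (BTr.n (BTr.b b1_5) (BTr.b b1_6)))) (BTr.n (BTr.n (BTr.n (BTr.b b1_7) (BTr.b b1_8)) (BTr.n (BTr.b b1_9) (BTr.b b1_10))) (BTr.n (BTr.n (BTr.b b1_11) (BTr.b b1_12)) (BTr.n (BTr.b b1_13) (BTr.b b1_14)))))
namespace T1
def l0 : Tr := Tr.L (Pth.l (Pth.l (Pth.l Pth.z)))
def l1 : Tr := Tr.L (Pth.l (Pth.l (Pth.r (Pth.l Pth.z))))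
def l2 : Tr := Tr.L (Pth.l (Pth.l (Pth.r (Pth.r Pth.z))))
def l3 : Tr := Tr.L (Pth.l (Pth.r (Pth.l (Pth.l Pth.z))))
def l4 : Tr := Tr.L (Pth.l (Pth.r (Pth.l (Pth.r Pth.z))))
def l5 : Tr := Tr.L (Pth.l (Pth.r (Pth.r (Pth.l Pth.z))))
def l6 : Tr := Tr.L (Pth.l (Pth.r (Pth.r (Pth.r Pth.z))))
def l7 : Tr := Tr.L (Pth.r (Pth.l (Pth.l (Pth.l Pth.z))))
def l8 : Tr := Tr.L (Pth.r (Pth.l (Pth.l (Pth.r Pth.z))))
def l9 : Tr := Tr.L (Pth.r (Pth.l (Pth.r (Pth.l Pth.z))))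
def l10 : Tr := Tr.L (Pth.r (Pth.l (Pth.r (Pth.r Pth.z))))
def l11 : Tr := Tr.L (Pth.r (Pth.r (Pth.l (Pth.l Pth.z))))
def l12 : Tr := Tr.L (Pth.r (Pth.r (Pth.l (Pth.r Pth.z))))
def l13 : Tr := Tr.L (Pth.r (Pth.r (Pth.r (Pth.l Pth.z))))
def l14 : Tr := Tr.L (Pth.r (Pth.r (Pth.r (Pth.r Pth.z))))
end T1
def b2_0 : Bx := Bx.mk (St.mk (I.pos (nat_lit 138641408) (nat_lit 220823552)) (I.mix (nat_lit 1966080) (nat_lit 65945600)) (I.mix (nat_lit 3424256) (nat_lit 117768192)) (I.pos (nat_lit 235143168) (nat_lit 320061440)) (I.mix (nat_lit 133267456) (nat_lit 79314944)) (I.mix (nat_lit 90669056) (nat_lit 79609856)) (I.mix (nat_lit 116129792) (nat_lit 95322112)))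
  false (nat_lit 104663830)
def b2_1 : Bx := Bx.mk (St.mk (I.pos (nat_lit 79298560) (nat_lit 143802368)) (I.neg (nat_lit 14499840) (nat_lit 68812800)) (I.mix (nat_lit 39731200) (nat_lit 11091968)) (I.pos (nat_lit 173277184) (nat_lit 220626944)) (I.mix (nat_lit 66109440) (nat_lit 48529408)) (I.mix (nat_lit 35684352) (nat_lit 50806784)) (I.mix (nat_lit 31342592) (nat_lit 45203456)))
  false (nat_lit 0)
def b2_2 : Bx := Bx.mk (St.mk (I.mix (nat_lit 31391744) (nat_lit 2572288)) (I.mix (nat_lit 39665664) (nat_lit 704512)) (I.pos (nat_lit 10878976) (nat_lit 18382848)) (I.pos (nat_lit 140525568) (nat_lit 150077440)) (I.mix (nat_lit 24117248) (nat_lit 42598400)) (I.mix (nat_lit 19890176) (nat_lit 35110912)) (I.mix (nat_lit 5324800) (nat_lit 6455296)))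
  true (nat_lit 0)
def b2_3 : Bx := Bx.mk (St.mk (I.pos (nat_lit 141803520) (nat_lit 189562880)) (I.pos (nat_lit 2719744) (nat_lit 58916864)) (I.pos (nat_lit 40599552) (nat_lit 109314048)) (I.pos (nat_lit 219054080) (nat_lit 278118400)) (I.mix (nat_lit 124387328) (nat_lit 31014912)) (I.mix (nat_lit 102498304) (nat_lit 50135040)) (I.mix (nat_lit 104906752) (nat_lit 48005120)))
  false (nat_lit 27372167)
def b2_4 : Bx := Bx.mk (St.mk (I.mix (nat_lit 6012928) (nat_lit 31490048)) (I.mix (nat_lit 3145728) (nat_lit 39731200)) (I.pos (nat_lit 10878976) (nat_lit 18382848)) (I.pos (nat_lit 140525568) (nat_lit 150077440)) (I.mix (nat_lit 42598400) (nat_lit 24117248)) (I.mix (nat_lit 35110912) (nat_lit 19890176)) (I.mix (nat_lit 5324800) (nat_lit 6455296)))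
  false (nat_lit 0)
def b2_5 : Bx := Bx.mk (St.mk (I.pos (nat_lit 131268608) (nat_lit 182190080)) (I.mix (nat_lit 28491776) (nat_lit 10944512)) (I.pos (nat_lit 3457024) (nat_lit 52346880)) (I.pos (nat_lit 206520320) (nat_lit 261603328)) (I.mix (nat_lit 54149120) (nat_lit 54476800)) (I.mix (nat_lit 48316416) (nat_lit 50675712)) (I.mix (nat_lit 47120384) (nat_lit 50479104)))
  false (nat_lit 0)
def b2_6 : Bx := Bx.mk (St.mk (I.pos (nat_lit 123961344) (nat_lit 149356544)) (I.neg (nat_lit 18186240) (nat_lit 42844160)) (I.mix (nat_lit 13434880) (nat_lit 15368192)) (I.pos (nat_lit 203571200) (nat_lit 225853440)) (I.mix (nat_lit 26705920) (nat_lit 29048832)) (I.mix (nat_lit 18038784) (nat_lit 20889600)) (I.mix (nat_lit 15679488) (nat_lit 21299200)))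
  false (nat_lit 0)
def b2_7 : Bx := Bx.mk (St.mk (I.mix (nat_lit 7290880) (nat_lit 5308416)) (I.mix (nat_lit 11698176) (nat_lit 2424832)) (I.pos (nat_lit 11681792) (nat_lit 15941632)) (I.pos (nat_lit 140509184) (nat_lit 143900672)) (I.mix (nat_lit 10944512) (nat_lit 17629184)) (I.mix (nat_lit 8421376) (nat_lit 11960320)) (I.mix (nat_lit 1196032) (nat_lit 1015808)))
  true (nat_lit 0)
def b2_8 : Bx := Bx.mk (St.mk (I.pos (nat_lit 15040512) (nat_lit 73596928)) (I.mix (nat_lit 8372224) (nat_lit 44367872)) (I.mix (nat_lit 6701056) (nat_lit 20414464)) (I.pos (nat_lit 141230080) (nat_lit 162988032)) (I.mix (nat_lit 44105728) (nat_lit 48988160)) (I.mix (nat_lit 49561600) (nat_lit 34193408)) (I.mix (nat_lit 26296320) (nat_lit 18677760)))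
  false (nat_lit 0)
def b2_9 : Bx := Bx.mk (St.mk (I.pos (nat_lit 52592640) (nat_lit 107184128)) (I.mix (nat_lit 64438272) (nat_lit 8978432)) (I.mix (nat_lit 36831232) (nat_lit 4636672)) (I.pos (nat_lit 151896064) (nat_lit 189841408)) (I.mix (nat_lit 80691200) (nat_lit 40484864)) (I.mix (nat_lit 38993920) (nat_lit 77660160)) (I.mix (nat_lit 29818880) (nat_lit 43925504)))
  false (nat_lit 0)
def b2_10 : Bx := Bx.mk (St.mk (I.neg (nat_lit 15040512) (nat_lit 73596928)) (I.mix (nat_lit 44367872) (nat_lit 8372224)) (I.mix (nat_lit 6701056) (nat_lit 20414464)) (I.pos (nat_lit 141230080) (nat_lit 162988032)) (I.mix (nat_lit 48988160) (nat_lit 44105728)) (I.mix (nat_lit 34193408) (nat_lit 49561600)) (I.mix (nat_lit 26296320) (nat_lit 18677760)))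
  true (nat_lit 0)
def b2_11 : Bx := Bx.mk (St.mk (I.pos (nat_lit 173031424) (nat_lit 297041920)) (I.mix (nat_lit 24854528) (nat_lit 52166656)) (I.mix (nat_lit 50036736) (nat_lit 97288192)) (I.pos (nat_lit 273530880) (nat_lit 466436096)) (I.mix (nat_lit 88358912) (nat_lit 71909376)) (I.mix (nat_lit 66125824) (nat_lit 53395456)) (I.mix (nat_lit 110411776) (nat_lit 83263488)))
  false (nat_lit 124136716)
def b2_12 : Bx := Bx.mk (St.mk (I.pos (nat_lit 160612352) (nat_lit 217481216)) (I.pos (nat_lit 23511040) (nat_lit 65945600)) (I.pos (nat_lit 52576256) (nat_lit 118177792)) (I.pos (nat_lit 259276800) (nat_lit 312688640)) (I.mix (nat_lit 121913344) (nat_lit 102006784)) (I.mix (nat_lit 108937216) (nat_lit 81936384)) (I.mix (nat_lit 159449088) (nat_lit 88244224)))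
  false (nat_lit 63697224)
def b2_13 : Bx := Bx.mk (St.mk (I.pos (nat_lit 143884288) (nat_lit 183451648)) (I.mix (nat_lit 11223040) (nat_lit 36585472)) (I.pos (nat_lit 23560192) (nat_lit 85180416)) (I.pos (nat_lit 220413952) (nat_lit 266403840)) (I.mix (nat_lit 112672768) (nat_lit 52985856)) (I.mix (nat_lit 106577920) (nat_lit 50724864)) (I.mix (nat_lit 107986944) (nat_lit 49086464)))
  false (nat_lit 10732972)
def t2 : BTr := (BTr.n (BTr.n (BTr.n (BTr.b b2_0) (BTr.n (BTr.b b2_1) (BTr.b b2_2))) (BTr.n (BTr.n (BTr.b b2_3) (BTr.b b2_4)) (BTr.n (BTr.b b2_5) (BTr.b b2_6)))) (BTr.n (BTr.n (BTr.b b2_7) (BTr.n (BTr.b b2_8) (BTr.b b2_9))) (BTr.n (BTr.n (BTr.b b2_10) (BTr.b b2_11)) (BTr.n (BTr.b b2_12) (BTr.b b2_13)))))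
namespace T2
def l0 : Tr := Tr.L (Pth.l (Pth.l (Pth.l Pth.z)))
def l1 : Tr := Tr.L (Pth.l (Pth.l (Pth.r (Pth.l Pth.z))))
def l2 : Tr := Tr.L (Pth.l (Pth.l (Pth.r (Pth.r Pth.z))))
def l3 : Tr := Tr.L (Pth.l (Pth.r (Pth.l (Pth.l Pth.z))))
def l4 : Tr := Tr.L (Pth.l (Pth.r (Pth.l (Pth.r Pth.z))))
def l5 : Tr := Tr.L (Pth.l (Pth.r (Pth.r (Pth.l Pth.z))))
def l6 : Tr := Tr.L (Pth.l (Pth.r (Pth.r (Pth.r Pth.z))))
def l7 : Tr := Tr.L (Pth.r (Pth.l (Pth.l Pth.z)))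
def l8 : Tr := Tr.L (Pth.r (Pth.l (Pth.r (Pth.l Pth.z))))
def l9 : Tr := Tr.L (Pth.r (Pth.l (Pth.r (Pth.r Pth.z))))
def l10 : Tr := Tr.L (Pth.r (Pth.r (Pth.l (Pth.l Pth.z))))
def l11 : Tr := Tr.L (Pth.r (Pth.r (Pth.l (Pth.r Pth.z))))
def l12 : Tr := Tr.L (Pth.r (Pth.r (Pth.r (Pth.l Pth.z))))
def l13 : Tr := Tr.L (Pth.r (Pth.r (Pth.r (Pth.r Pth.z))))
end T2
theorem bx0_0 : BoxOK sI cl5 cl5 cl13 t0 t2 b0_0 :=
  box_mk (TrL.c (I.pos (nat_lit 0) (nat_lit 0)) (xa (xb T0.l12 (xb T0.l12 (xa T0.l12 T0.l0))) (xb T0.l0 (xa T0.l0 T0.l0)))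
  (TrL.c (I.pos (nat_lit 0) (nat_lit 0)) (xb T2.l1 T2.l1)
  (TrL.c (I.pos (nat_lit 0) (nat_lit 0)) T0.l1
  (TrL.c (I.pos (nat_lit 0) (nat_lit 0)) T2.l2
  (TrL.c (I.pos (nat_lit 0) (nat_lit 0)) (xb (xa T2.l3 T2.l3) (xa T2.l3 T2.l3))
  (TrL.c (I.pos (nat_lit 0) (nat_lit 0)) T0.l2
  (TrL.c (I.pos (nat_lit 0) (nat_lit 0)) T2.l4
  (TrL.c (I.pos (nat_lit 0) (nat_lit 0)) T0.l3
  TrL.n)))))))) (by decide +kernel)
theorem bx0_1 : BoxOK sI cl5 cl5 cl13 t0 t2 b0_1 :=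
  box_mk (TrL.c (I.pos (nat_lit 0) (nat_lit 0)) T0.l4
  (TrL.c (I.pos (nat_lit 0) (nat_lit 0)) T2.l1
  (TrL.c (I.pos (nat_lit 0) (nat_lit 0)) T0.l1
  (TrL.c (I.pos (nat_lit 0) (nat_lit 0)) T2.l2
  (TrL.c (I.pos (nat_lit 0) (nat_lit 0)) T2.l5
  (TrL.c (I.pos (nat_lit 0) (nat_lit 0)) T0.l2
  (TrL.c (I.pos (nat_lit 0) (nat_lit 0)) T2.l4
  (TrL.c (I.pos (nat_lit 0) (nat_lit 0)) T0.l3
  TrL.n)))))))) (by decide +kernel)
theorem bx0_2 : BoxOK sI cl5 cl5 cl13 t0 t2 b0_2 :=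
  box_mk (TrL.c (I.pos (nat_lit 0) (nat_lit 0)) (xb T0.l4 T0.l4)
  (TrL.c (I.pos (nat_lit 0) (nat_lit 0)) T2.l1
  (TrL.c (I.pos (nat_lit 0) (nat_lit 0)) T0.l1
  (TrL.c (I.pos (nat_lit 0) (nat_lit 0)) T2.l2
  (TrL.c (I.pos (nat_lit 0) (nat_lit 0)) T2.l5
  (TrL.c (I.pos (nat_lit 0) (nat_lit 0)) T0.l2
  (TrL.c (I.pos (nat_lit 0) (nat_lit 0)) T2.l4
  (TrL.c (I.pos (nat_lit 0) (nat_lit 0)) T0.l3
  TrL.n)))))))) (by decide +kernel)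
theorem bx0_3 : BoxOK sI cl5 cl5 cl13 t0 t2 b0_3 :=
  box_mk (TrL.c (I.pos (nat_lit 0) (nat_lit 0)) T2.l1
  (TrL.c (I.pos (nat_lit 0) (nat_lit 0)) T0.l1
  (TrL.c (I.pos (nat_lit 0) (nat_lit 0)) T2.l2
  TrL.n))) (by decide +kernel)
theorem bx0_4 : BoxOK sI cl5 cl5 cl13 t0 t2 b0_4 :=
  box_mk (TrL.c (I.pos (nat_lit 0) (nat_lit 0)) (xa (xb T0.l0 T0.l0) (xb T0.l0 T0.l0))
  (TrL.c (I.pos (nat_lit 0) (nat_lit 0)) (xa T2.l1 T2.l1)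
  (TrL.c (I.pos (nat_lit 0) (nat_lit 0)) T0.l1
  (TrL.c (I.pos (nat_lit 0) (nat_lit 0)) T2.l2
  (TrL.c (I.pos (nat_lit 0) (nat_lit 0)) (xa (xb T2.l3 T2.l3) (xb T2.l0 T2.l3))
  (TrL.c (I.pos (nat_lit 0) (nat_lit 0)) (xa T0.l2 T0.l6)
  (TrL.c (I.pos (nat_lit 0) (nat_lit 0)) T2.l4
  (TrL.c (I.pos (nat_lit 0) (nat_lit 0)) T0.l3
  TrL.n)))))))) (by decide +kernel)
theorem bx0_5 : BoxOK sI cl5 cl5 cl13 t0 t2 b0_5 :=
  box_mk (TrL.c (I.pos (nat_lit 0) (nat_lit 0)) T0.l4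
  (TrL.c (I.pos (nat_lit 0) (nat_lit 0)) T2.l1
  (TrL.c (I.pos (nat_lit 0) (nat_lit 0)) T0.l1
  (TrL.c (I.pos (nat_lit 0) (nat_lit 0)) T2.l2
  (TrL.c (I.pos (nat_lit 0) (nat_lit 0)) T2.l5
  (TrL.c (I.pos (nat_lit 0) (nat_lit 0)) T0.l2
  (TrL.c (I.pos (nat_lit 0) (nat_lit 0)) T2.l4
  (TrL.c (I.pos (nat_lit 0) (nat_lit 0)) T0.l3
  TrL.n)))))))) (by decide +kernel)
theorem bx0_6 : BoxOK sI cl5 cl5 cl13 t0 t2 b0_6 :=
  box_mk (TrL.c (I.pos (nat_lit 0) (nat_lit 0)) (xa (xb T0.l4 T0.l4) (xb T0.l4 T0.l4))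
  (TrL.c (I.pos (nat_lit 0) (nat_lit 0)) T2.l1
  (TrL.c (I.pos (nat_lit 0) (nat_lit 0)) T0.l1
  (TrL.c (I.pos (nat_lit 0) (nat_lit 0)) T2.l2
  (TrL.c (I.pos (nat_lit 0) (nat_lit 0)) (xa T2.l5 T2.l5)
  (TrL.c (I.pos (nat_lit 0) (nat_lit 0)) T0.l2
  (TrL.c (I.pos (nat_lit 0) (nat_lit 0)) T2.l4
  (TrL.c (I.pos (nat_lit 0) (nat_lit 0)) T0.l3
  TrL.n)))))))) (by decide +kernel)
theorem bx0_7 : BoxOK sI cl5 cl5 cl13 t0 t2 b0_7 :=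
  box_mk (TrL.c (I.pos (nat_lit 0) (nat_lit 0)) T2.l6
  (TrL.c (I.pos (nat_lit 0) (nat_lit 0)) T0.l5
  (TrL.c (I.pos (nat_lit 0) (nat_lit 0)) T2.l7
  TrL.n))) (by decide +kernel)
theorem bx0_8 : BoxOK sI cl5 cl5 cl13 t0 t2 b0_8 :=
  box_mk (TrL.c (I.pos (nat_lit 0) (nat_lit 0)) (xa (xb T0.l12 T0.l12) (xb T0.l12 T0.l12))
  (TrL.c (I.pos (nat_lit 0) (nat_lit 0)) T2.l1
  (TrL.c (I.pos (nat_lit 0) (nat_lit 0)) T0.l1
  (TrL.c (I.pos (nat_lit 0) (nat_lit 0)) T2.l2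
  (TrL.c (I.pos (nat_lit 0) (nat_lit 0)) (xb T2.l13 T2.l13)
  (TrL.c (I.pos (nat_lit 0) (nat_lit 0)) T0.l2
  (TrL.c (I.pos (nat_lit 0) (nat_lit 0)) T2.l4
  (TrL.c (I.pos (nat_lit 0) (nat_lit 0)) T0.l3
  TrL.n)))))))) (by decide +kernel)
theorem bx0_9 : BoxOK sI cl5 cl5 cl13 t0 t2 b0_9 :=
  box_mk (TrL.c (I.pos (nat_lit 0) (nat_lit 0)) (xb T0.l4 T0.l4)
  (TrL.c (I.pos (nat_lit 0) (nat_lit 0)) T2.l6
  (TrL.c (I.pos (nat_lit 0) (nat_lit 0)) T0.l5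
  (TrL.c (I.pos (nat_lit 0) (nat_lit 0)) T2.l7
  (TrL.c (I.pos (nat_lit 0) (nat_lit 0)) T2.l5
  (TrL.c (I.pos (nat_lit 0) (nat_lit 0)) T0.l2
  (TrL.c (I.pos (nat_lit 0) (nat_lit 0)) T2.l4
  (TrL.c (I.pos (nat_lit 0) (nat_lit 0)) T0.l3
  TrL.n)))))))) (by decide +kernel)
theorem bx0_10 : BoxOK sI cl5 cl5 cl13 t0 t2 b0_10 :=
  box_mk (TrL.c (I.pos (nat_lit 0) (nat_lit 0)) (xa (xb T0.l12 T0.l12) (xb T0.l12 T0.l12))
  (TrL.c (I.pos (nat_lit 0) (nat_lit 0)) T2.l1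
  (TrL.c (I.pos (nat_lit 0) (nat_lit 0)) T0.l1
  (TrL.c (I.pos (nat_lit 0) (nat_lit 0)) T2.l2
  (TrL.c (I.pos (nat_lit 0) (nat_lit 0)) (xa T2.l13 T2.l13)
  (TrL.c (I.pos (nat_lit 0) (nat_lit 0)) T0.l2
  (TrL.c (I.pos (nat_lit 0) (nat_lit 0)) T2.l4
  (TrL.c (I.pos (nat_lit 0) (nat_lit 0)) T0.l3
  TrL.n)))))))) (by decide +kernel)
theorem bx0_11 : BoxOK sI cl5 cl5 cl13 t0 t2 b0_11 :=
  box_mk (TrL.c (I.pos (nat_lit 0) (nat_lit 0)) (xb T0.l12 (xa T0.l12 T0.l12))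
  (TrL.c (I.pos (nat_lit 0) (nat_lit 0)) T2.l1
  (TrL.c (I.pos (nat_lit 0) (nat_lit 0)) T0.l1
  (TrL.c (I.pos (nat_lit 0) (nat_lit 0)) T2.l2
  (TrL.c (I.pos (nat_lit 0) (nat_lit 0)) T2.l13
  (TrL.c (I.pos (nat_lit 0) (nat_lit 0)) T0.l2
  (TrL.c (I.pos (nat_lit 0) (nat_lit 0)) T2.l4
  (TrL.c (I.pos (nat_lit 0) (nat_lit 0)) T0.l3
  TrL.n)))))))) (by decide +kernel)
theorem bx0_12 : BoxOK sI cl5 cl5 cl13 t0 t2 b0_12 :=
  box_mk (TrL.c (I.pos (nat_lit 0) (nat_lit 0)) (xa (xb T0.l12 (xb T0.l0 T0.l0)) (xb T0.l0 T0.l0))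
  (TrL.c (I.pos (nat_lit 0) (nat_lit 0)) T2.l1
  (TrL.c (I.pos (nat_lit 0) (nat_lit 0)) T0.l1
  (TrL.c (I.pos (nat_lit 0) (nat_lit 0)) T2.l2
  (TrL.c (I.pos (nat_lit 0) (nat_lit 0)) (xb T2.l3 T2.l3)
  (TrL.c (I.pos (nat_lit 0) (nat_lit 0)) T0.l2
  (TrL.c (I.pos (nat_lit 0) (nat_lit 0)) T2.l4
  (TrL.c (I.pos (nat_lit 0) (nat_lit 0)) T0.l3
  TrL.n)))))))) (by decide +kernel)
theorem sv0 : StarV sI cl5 cl5 cl13 t0 t2 t0 :=
  (bt_n (bt_n (bt_n (bt_b bx0_0) (bt_n (bt_b bx0_1) (bt_b bx0_2))) (bt_n (bt_b bx0_3) (bt_n (bt_b bx0_4) (bt_b bx0_5)))) (bt_n (bt_n (bt_b bx0_6) (bt_n (bt_b bx0_7) (bt_b bx0_8))) (bt_n (bt_n (bt_b bx0_9) (bt_b bx0_10)) (bt_n (bt_b bx0_11) (bt_b bx0_12)))))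
def S0 : StarD := StarD.mk cl5 cl5 cl13 0 2 t0
theorem bx1_0 : BoxOK sI cl5 cl13 cl5 t2 t0 b1_0 :=
  box_mk (TrL.c (I.pos (nat_lit 0) (nat_lit 0)) (xa (xb (xa T2.l0 T2.l0) (xa (xb T2.l0 T2.l0) (xb T2.l0 T2.l0))) (xa (xb T2.l0 T2.l0) (xb T2.l0 T2.l0)))
  (TrL.c (I.pos (nat_lit 0) (nat_lit 0)) (xa (xb T0.l6 T0.l6) (xb T0.l6 T0.l6))
  (TrL.c (I.pos (nat_lit 0) (nat_lit 0)) T2.l8
  (TrL.c (I.pos (nat_lit 0) (nat_lit 0)) T0.l7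
  (TrL.c (I.pos (nat_lit 0) (nat_lit 0)) (xa (xb T0.l8 T0.l8) (xb T0.l8 (xa T0.l8 T0.l8)))
  (TrL.c (I.pos (nat_lit 0) (nat_lit 0)) (xa T2.l9 T2.l9)
  (TrL.c (I.pos (nat_lit 0) (nat_lit 0)) T0.l9
  (TrL.c (I.pos (nat_lit 0) (nat_lit 0)) T2.l10
  TrL.n)))))))) (by decide +kernel)
theorem bx1_1 : BoxOK sI cl5 cl13 cl5 t2 t0 b1_1 :=
  box_mk (TrL.c (I.pos (nat_lit 0) (nat_lit 0)) (xa T2.l11 T2.l11)
  (TrL.c (I.pos (nat_lit 0) (nat_lit 0)) T0.l6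
  (TrL.c (I.pos (nat_lit 0) (nat_lit 0)) T2.l8
  (TrL.c (I.pos (nat_lit 0) (nat_lit 0)) T0.l7
  (TrL.c (I.pos (nat_lit 0) (nat_lit 0)) (xa T0.l10 T0.l10)
  (TrL.c (I.pos (nat_lit 0) (nat_lit 0)) T2.l9
  (TrL.c (I.pos (nat_lit 0) (nat_lit 0)) T0.l9
  (TrL.c (I.pos (nat_lit 0) (nat_lit 0)) T2.l10
  TrL.n)))))))) (by decide +kernel)
theorem bx1_2 : BoxOK sI cl5 cl13 cl5 t2 t0 b1_2 :=
  box_mk (TrL.c (I.pos (nat_lit 0) (nat_lit 0)) (xa (xa (xa (xb T2.l11 T2.l11) T2.l11) T2.l11) (xa T2.l11 (xa T2.l11 T2.l11)))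
  (TrL.c (I.pos (nat_lit 0) (nat_lit 0)) (xa (xa T0.l10 T0.l6) T0.l6)
  (TrL.c (I.pos (nat_lit 0) (nat_lit 0)) (xa T2.l8 T2.l8)
  (TrL.c (I.pos (nat_lit 0) (nat_lit 0)) T0.l7
  (TrL.c (I.pos (nat_lit 0) (nat_lit 0)) (xa T0.l10 T0.l10)
  (TrL.c (I.pos (nat_lit 0) (nat_lit 0)) (xa T2.l9 T2.l9)
  (TrL.c (I.pos (nat_lit 0) (nat_lit 0)) T0.l9
  (TrL.c (I.pos (nat_lit 0) (nat_lit 0)) (xa T2.l10 T2.l10)
  TrL.n)))))))) (by decide +kernel)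
theorem bx1_3 : BoxOK sI cl5 cl13 cl5 t2 t0 b1_3 :=
  box_mk (TrL.c (I.pos (nat_lit 0) (nat_lit 0)) (xa (xa T2.l11 T2.l11) T2.l11)
  (TrL.c (I.pos (nat_lit 0) (nat_lit 0)) (xa T0.l6 T0.l6)
  (TrL.c (I.pos (nat_lit 0) (nat_lit 0)) T2.l8
  (TrL.c (I.pos (nat_lit 0) (nat_lit 0)) T0.l7
  (TrL.c (I.pos (nat_lit 0) (nat_lit 0)) (xa T0.l10 T0.l10)
  (TrL.c (I.pos (nat_lit 0) (nat_lit 0)) T2.l9
  (TrL.c (I.pos (nat_lit 0) (nat_lit 0)) T0.l9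
  (TrL.c (I.pos (nat_lit 0) (nat_lit 0)) T2.l10
  TrL.n)))))))) (by decide +kernel)
theorem bx1_4 : BoxOK sI cl5 cl13 cl5 t2 t0 b1_4 :=
  box_mk (TrL.c (I.pos (nat_lit 0) (nat_lit 0)) (xb (xa (xb T2.l12 T2.l12) (xb (xs T2.l12 (xb T2.l12 T2.l12)) (xs T2.l12 T2.l12))) (xa (xb T2.l12 T2.l12) (xb T2.l12 T2.l12)))
  (TrL.c (I.pos (nat_lit 0) (nat_lit 0)) (xb T0.l6 (xa T0.l6 T0.l6))
  (TrL.c (I.pos (nat_lit 0) (nat_lit 0)) T2.l8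
  (TrL.c (I.pos (nat_lit 0) (nat_lit 0)) T0.l7
  (TrL.c (I.pos (nat_lit 0) (nat_lit 0)) (xb T0.l11 T0.l11)
  (TrL.c (I.pos (nat_lit 0) (nat_lit 0)) T2.l9
  (TrL.c (I.pos (nat_lit 0) (nat_lit 0)) T0.l9
  (TrL.c (I.pos (nat_lit 0) (nat_lit 0)) T2.l10
  TrL.n)))))))) (by decide +kernel)
theorem bx1_5 : BoxOK sI cl5 cl13 cl5 t2 t0 b1_5 :=
  box_mk (TrL.c (I.pos (nat_lit 0) (nat_lit 0)) T2.l11
  (TrL.c (I.pos (nat_lit 0) (nat_lit 0)) T0.l6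
  (TrL.c (I.pos (nat_lit 0) (nat_lit 0)) T2.l8
  (TrL.c (I.pos (nat_lit 0) (nat_lit 0)) T0.l7
  (TrL.c (I.pos (nat_lit 0) (nat_lit 0)) T0.l10
  (TrL.c (I.pos (nat_lit 0) (nat_lit 0)) T2.l9
  (TrL.c (I.pos (nat_lit 0) (nat_lit 0)) T0.l9
  (TrL.c (I.pos (nat_lit 0) (nat_lit 0)) T2.l10
  TrL.n)))))))) (by decide +kernel)
theorem bx1_6 : BoxOK sI cl5 cl13 cl5 t2 t0 b1_6 :=
  box_mk (TrL.c (I.pos (nat_lit 0) (nat_lit 0)) (xa (xa (xb T2.l11 T2.l11) T2.l11) (xa T2.l11 (xb T2.l11 T2.l11)))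
  (TrL.c (I.pos (nat_lit 0) (nat_lit 0)) (xa T0.l6 T0.l6)
  (TrL.c (I.pos (nat_lit 0) (nat_lit 0)) T2.l8
  (TrL.c (I.pos (nat_lit 0) (nat_lit 0)) T0.l7
  (TrL.c (I.pos (nat_lit 0) (nat_lit 0)) (xa T0.l10 T0.l10)
  (TrL.c (I.pos (nat_lit 0) (nat_lit 0)) T2.l9
  (TrL.c (I.pos (nat_lit 0) (nat_lit 0)) T0.l9
  (TrL.c (I.pos (nat_lit 0) (nat_lit 0)) T2.l10
  TrL.n)))))))) (by decide +kernel)
theorem bx1_7 : BoxOK sI cl5 cl13 cl5 t2 t0 b1_7 :=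
  box_mk (TrL.c (I.pos (nat_lit 0) (nat_lit 0)) T2.l11
  (TrL.c (I.pos (nat_lit 0) (nat_lit 0)) (xa T0.l6 T0.l6)
  (TrL.c (I.pos (nat_lit 0) (nat_lit 0)) T2.l8
  (TrL.c (I.pos (nat_lit 0) (nat_lit 0)) T0.l7
  (TrL.c (I.pos (nat_lit 0) (nat_lit 0)) (xa T0.l10 T0.l10)
  (TrL.c (I.pos (nat_lit 0) (nat_lit 0)) T2.l9
  (TrL.c (I.pos (nat_lit 0) (nat_lit 0)) T0.l9
  (TrL.c (I.pos (nat_lit 0) (nat_lit 0)) T2.l10
  TrL.n)))))))) (by decide +kernel)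
theorem bx1_8 : BoxOK sI cl5 cl13 cl5 t2 t0 b1_8 :=
  box_mk (TrL.c (I.pos (nat_lit 0) (nat_lit 0)) (xa T2.l0 (xb T2.l0 T2.l0))
  (TrL.c (I.pos (nat_lit 0) (nat_lit 0)) (xa T0.l6 T0.l6)
  (TrL.c (I.pos (nat_lit 0) (nat_lit 0)) T2.l8
  (TrL.c (I.pos (nat_lit 0) (nat_lit 0)) T0.l7
  (TrL.c (I.pos (nat_lit 0) (nat_lit 0)) (xa T0.l8 (xb T0.l8 T0.l8))
  (TrL.c (I.pos (nat_lit 0) (nat_lit 0)) (xa T2.l9 T2.l9)
  (TrL.c (I.pos (nat_lit 0) (nat_lit 0)) T0.l9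
  (TrL.c (I.pos (nat_lit 0) (nat_lit 0)) T2.l10
  TrL.n)))))))) (by decide +kernel)
theorem bx1_9 : BoxOK sI cl5 cl13 cl5 t2 t0 b1_9 :=
  box_mk (TrL.c (I.pos (nat_lit 0) (nat_lit 0)) T2.l0
  (TrL.c (I.pos (nat_lit 0) (nat_lit 0)) T0.l6
  (TrL.c (I.pos (nat_lit 0) (nat_lit 0)) T2.l8
  (TrL.c (I.pos (nat_lit 0) (nat_lit 0)) T0.l7
  (TrL.c (I.pos (nat_lit 0) (nat_lit 0)) T0.l11
  (TrL.c (I.pos (nat_lit 0) (nat_lit 0)) T2.l9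
  (TrL.c (I.pos (nat_lit 0) (nat_lit 0)) T0.l9
  (TrL.c (I.pos (nat_lit 0) (nat_lit 0)) T2.l10
  TrL.n)))))))) (by decide +kernel)
theorem bx1_10 : BoxOK sI cl5 cl13 cl5 t2 t0 b1_10 :=
  box_mk (TrL.c (I.pos (nat_lit 0) (nat_lit 0)) T2.l11
  (TrL.c (I.pos (nat_lit 0) (nat_lit 0)) T0.l6
  (TrL.c (I.pos (nat_lit 0) (nat_lit 0)) T2.l8
  (TrL.c (I.pos (nat_lit 0) (nat_lit 0)) T0.l7
  (TrL.c (I.pos (nat_lit 0) (nat_lit 0)) T0.l10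
  (TrL.c (I.pos (nat_lit 0) (nat_lit 0)) T2.l9
  (TrL.c (I.pos (nat_lit 0) (nat_lit 0)) T0.l9
  (TrL.c (I.pos (nat_lit 0) (nat_lit 0)) T2.l10
  TrL.n)))))))) (by decide +kernel)
theorem bx1_11 : BoxOK sI cl5 cl13 cl5 t2 t0 b1_11 :=
  box_mk (TrL.c (I.pos (nat_lit 0) (nat_lit 0)) T2.l11
  (TrL.c (I.pos (nat_lit 0) (nat_lit 0)) T0.l6
  (TrL.c (I.pos (nat_lit 0) (nat_lit 0)) T2.l8
  (TrL.c (I.pos (nat_lit 0) (nat_lit 0)) T0.l7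
  (TrL.c (I.pos (nat_lit 0) (nat_lit 0)) T0.l10
  (TrL.c (I.pos (nat_lit 0) (nat_lit 0)) T2.l9
  (TrL.c (I.pos (nat_lit 0) (nat_lit 0)) T0.l9
  (TrL.c (I.pos (nat_lit 0) (nat_lit 0)) T2.l10
  TrL.n)))))))) (by decide +kernel)
theorem bx1_12 : BoxOK sI cl5 cl13 cl5 t2 t0 b1_12 :=
  box_mk (TrL.c (I.pos (nat_lit 0) (nat_lit 0)) (xa T2.l11 T2.l11)
  (TrL.c (I.pos (nat_lit 0) (nat_lit 0)) (xa T0.l6 T0.l6)
  (TrL.c (I.pos (nat_lit 0) (nat_lit 0)) T2.l8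
  (TrL.c (I.pos (nat_lit 0) (nat_lit 0)) T0.l7
  (TrL.c (I.pos (nat_lit 0) (nat_lit 0)) (xa T0.l10 T0.l10)
  (TrL.c (I.pos (nat_lit 0) (nat_lit 0)) T2.l9
  (TrL.c (I.pos (nat_lit 0) (nat_lit 0)) T0.l9
  (TrL.c (I.pos (nat_lit 0) (nat_lit 0)) T2.l10
  TrL.n)))))))) (by decide +kernel)
theorem bx1_13 : BoxOK sI cl5 cl13 cl5 t2 t0 b1_13 :=
  box_mk (TrL.c (I.pos (nat_lit 0) (nat_lit 0)) (xa (xb T2.l0 T2.l0) (xb T2.l0 T2.l0))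
  (TrL.c (I.pos (nat_lit 0) (nat_lit 0)) (xa T0.l6 T0.l6)
  (TrL.c (I.pos (nat_lit 0) (nat_lit 0)) T2.l8
  (TrL.c (I.pos (nat_lit 0) (nat_lit 0)) T0.l7
  (TrL.c (I.pos (nat_lit 0) (nat_lit 0)) T0.l8
  (TrL.c (I.pos (nat_lit 0) (nat_lit 0)) T2.l9
  (TrL.c (I.pos (nat_lit 0) (nat_lit 0)) T0.l9
  (TrL.c (I.pos (nat_lit 0) (nat_lit 0)) T2.l10
  TrL.n)))))))) (by decide +kernel)
theorem bx1_14 : BoxOK sI cl5 cl13 cl5 t2 t0 b1_14 :=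
  box_mk (TrL.c (I.pos (nat_lit 0) (nat_lit 0)) T2.l0
  (TrL.c (I.pos (nat_lit 0) (nat_lit 0)) T0.l6
  (TrL.c (I.pos (nat_lit 0) (nat_lit 0)) T2.l8
  (TrL.c (I.pos (nat_lit 0) (nat_lit 0)) T0.l7
  (TrL.c (I.pos (nat_lit 0) (nat_lit 0)) T0.l11
  (TrL.c (I.pos (nat_lit 0) (nat_lit 0)) T2.l9
  (TrL.c (I.pos (nat_lit 0) (nat_lit 0)) T0.l9
  (TrL.c (I.pos (nat_lit 0) (nat_lit 0)) T2.l10
  TrL.n)))))))) (by decide +kernel)
theorem sv1 : StarV sI cl5 cl13 cl5 t2 t0 t1 :=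
  (bt_n (bt_n (bt_n (bt_b bx1_0) (bt_n (bt_b bx1_1) (bt_b bx1_2))) (bt_n (bt_n (bt_b bx1_3) (bt_b bx1_4)) (bt_n (bt_b bx1_5) (bt_b bx1_6)))) (bt_n (bt_n (bt_n (bt_b bx1_7) (bt_b bx1_8)) (bt_n (bt_b bx1_9) (bt_b bx1_10))) (bt_n (bt_n (bt_b bx1_11) (bt_b bx1_12)) (bt_n (bt_b bx1_13) (bt_b bx1_14)))))
def S1 : StarD := StarD.mk cl5 cl13 cl5 2 0 t1
theorem bx2_0 : BoxOK sI cl13 cl5 cl5 t1 t1 b2_0 :=
  box_mk (TrL.c (I.pos (nat_lit 0) (nat_lit 0)) (xa (xb T1.l0 (xa T1.l0 T1.l0)) (xb T1.l0 T1.l0))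
  (TrL.c (I.pos (nat_lit 0) (nat_lit 0)) (xa (xk T1.l1 T1.l1) (xk T1.l1 T1.l1))
  (TrL.c (I.pos (nat_lit 0) (nat_lit 134217730)) T1.l2
  (TrL.c (I.pos (nat_lit 0) (nat_lit 110514882)) T1.l3
  (TrL.c (I.pos (nat_lit 0) (nat_lit 0)) (xa (xk T1.l4 T1.l4) (xk T1.l4 (xb T1.l4 T1.l4)))
  (TrL.c (I.pos (nat_lit 0) (nat_lit 0)) T1.l5
  (TrL.c (I.mix (nat_lit 8088324) (nat_lit 110514882)) (xR T1.l6 T1.l6)
  (TrL.c (I.mix (nat_lit 8088324) (nat_lit 89478486)) T1.l7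
  TrL.n)))))))) (by decide +kernel)
theorem bx2_1 : BoxOK sI cl13 cl5 cl5 t1 t1 b2_1 :=
  box_mk (TrL.c (I.pos (nat_lit 0) (nat_lit 0)) T1.l8
  (TrL.c (I.pos (nat_lit 0) (nat_lit 0)) T1.l1
  (TrL.c (I.pos (nat_lit 0) (nat_lit 134217730)) T1.l2
  (TrL.c (I.pos (nat_lit 0) (nat_lit 110514882)) T1.l3
  (TrL.c (I.pos (nat_lit 0) (nat_lit 0)) (xa T1.l9 T1.l9)
  (TrL.c (I.pos (nat_lit 0) (nat_lit 0)) T1.l5
  (TrL.c (I.mix (nat_lit 8088324) (nat_lit 110514882)) T1.l6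
  (TrL.c (I.mix (nat_lit 8088324) (nat_lit 89478486)) T1.l7
  TrL.n)))))))) (by decide +kernel)
theorem bx2_2 : BoxOK sI cl13 cl5 cl5 t1 t1 b2_2 :=
  box_mk (TrL.c (I.pos (nat_lit 0) (nat_lit 0)) T1.l1
  (TrL.c (I.pos (nat_lit 0) (nat_lit 0)) T1.l2
  (TrL.c (I.mix (nat_lit 8088324) (nat_lit 110514882)) T1.l3
  (TrL.c (I.mix (nat_lit 8088324) (nat_lit 89478486)) T1.l2
  TrL.n)))) (by decide +kernel)
theorem bx2_3 : BoxOK sI cl13 cl5 cl5 t1 t1 b2_3 :=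
  box_mk (TrL.c (I.pos (nat_lit 0) (nat_lit 0)) (xa T1.l0 T1.l0)
  (TrL.c (I.pos (nat_lit 0) (nat_lit 0)) (xk T1.l1 T1.l1)
  (TrL.c (I.pos (nat_lit 0) (nat_lit 134217730)) T1.l2
  (TrL.c (I.pos (nat_lit 0) (nat_lit 110514882)) T1.l3
  (TrL.c (I.pos (nat_lit 0) (nat_lit 0)) (xk T1.l4 T1.l4)
  (TrL.c (I.pos (nat_lit 0) (nat_lit 0)) T1.l5
  (TrL.c (I.mix (nat_lit 8088324) (nat_lit 110514882)) T1.l6
  (TrL.c (I.mix (nat_lit 8088324) (nat_lit 89478486)) T1.l7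
  TrL.n)))))))) (by decide +kernel)
theorem bx2_4 : BoxOK sI cl13 cl5 cl5 t1 t1 b2_4 :=
  box_mk (TrL.c (I.pos (nat_lit 0) (nat_lit 0)) T1.l8
  (TrL.c (I.pos (nat_lit 0) (nat_lit 0)) T1.l1
  (TrL.c (I.pos (nat_lit 0) (nat_lit 134217730)) T1.l2
  (TrL.c (I.pos (nat_lit 0) (nat_lit 110514882)) T1.l3
  (TrL.c (I.pos (nat_lit 0) (nat_lit 0)) T1.l9
  (TrL.c (I.pos (nat_lit 0) (nat_lit 0)) T1.l5
  (TrL.c (I.mix (nat_lit 8088324) (nat_lit 110514882)) T1.l6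
  (TrL.c (I.mix (nat_lit 8088324) (nat_lit 89478486)) T1.l7
  TrL.n)))))))) (by decide +kernel)
theorem bx2_5 : BoxOK sI cl13 cl5 cl5 t1 t1 b2_5 :=
  box_mk (TrL.c (I.pos (nat_lit 0) (nat_lit 0)) T1.l0
  (TrL.c (I.pos (nat_lit 0) (nat_lit 0)) T1.l1
  (TrL.c (I.pos (nat_lit 0) (nat_lit 134217730)) T1.l2
  (TrL.c (I.pos (nat_lit 0) (nat_lit 110514882)) T1.l3
  (TrL.c (I.pos (nat_lit 0) (nat_lit 0)) T1.l14
  (TrL.c (I.pos (nat_lit 0) (nat_lit 0)) T1.l5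
  (TrL.c (I.mix (nat_lit 8088324) (nat_lit 110514882)) T1.l6
  (TrL.c (I.mix (nat_lit 8088324) (nat_lit 89478486)) T1.l7
  TrL.n)))))))) (by decide +kernel)
theorem bx2_6 : BoxOK sI cl13 cl5 cl5 t1 t1 b2_6 :=
  box_mk (TrL.c (I.pos (nat_lit 0) (nat_lit 0)) T1.l8
  (TrL.c (I.pos (nat_lit 0) (nat_lit 0)) T1.l1
  (TrL.c (I.pos (nat_lit 0) (nat_lit 134217730)) T1.l2
  (TrL.c (I.pos (nat_lit 0) (nat_lit 110514882)) T1.l3
  (TrL.c (I.pos (nat_lit 0) (nat_lit 0)) T1.l9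
  (TrL.c (I.pos (nat_lit 0) (nat_lit 0)) T1.l5
  (TrL.c (I.mix (nat_lit 8088324) (nat_lit 110514882)) T1.l6
  (TrL.c (I.mix (nat_lit 8088324) (nat_lit 89478486)) T1.l7
  TrL.n)))))))) (by decide +kernel)
theorem bx2_7 : BoxOK sI cl13 cl5 cl5 t1 t1 b2_7 :=
  box_mk (TrL.c (I.pos (nat_lit 0) (nat_lit 0)) T1.l10
  (TrL.c (I.pos (nat_lit 0) (nat_lit 0)) T1.l2
  (TrL.c (I.mix (nat_lit 8088324) (nat_lit 110514882)) T1.l12
  (TrL.c (I.mix (nat_lit 8088324) (nat_lit 89478486)) T1.l2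
  TrL.n)))) (by decide +kernel)
theorem bx2_8 : BoxOK sI cl13 cl5 cl5 t1 t1 b2_8 :=
  box_mk (TrL.c (I.pos (nat_lit 0) (nat_lit 0)) (xb T1.l8 T1.l8)
  (TrL.c (I.pos (nat_lit 0) (nat_lit 0)) T1.l1
  (TrL.c (I.pos (nat_lit 0) (nat_lit 134217730)) T1.l2
  (TrL.c (I.pos (nat_lit 0) (nat_lit 110514882)) T1.l3
  (TrL.c (I.pos (nat_lit 0) (nat_lit 0)) T1.l9
  (TrL.c (I.pos (nat_lit 0) (nat_lit 0)) T1.l5
  (TrL.c (I.mix (nat_lit 8088324) (nat_lit 110514882)) T1.l6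
  (TrL.c (I.mix (nat_lit 8088324) (nat_lit 89478486)) T1.l7
  TrL.n)))))))) (by decide +kernel)
theorem bx2_9 : BoxOK sI cl13 cl5 cl5 t1 t1 b2_9 :=
  box_mk (TrL.c (I.pos (nat_lit 0) (nat_lit 0)) T1.l8
  (TrL.c (I.pos (nat_lit 0) (nat_lit 0)) T1.l1
  (TrL.c (I.pos (nat_lit 0) (nat_lit 134217730)) T1.l2
  (TrL.c (I.pos (nat_lit 0) (nat_lit 110514882)) T1.l3
  (TrL.c (I.pos (nat_lit 0) (nat_lit 0)) T1.l9
  (TrL.c (I.pos (nat_lit 0) (nat_lit 0)) T1.l5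
  (TrL.c (I.mix (nat_lit 8088324) (nat_lit 110514882)) T1.l6
  (TrL.c (I.mix (nat_lit 8088324) (nat_lit 89478486)) T1.l7
  TrL.n)))))))) (by decide +kernel)
theorem bx2_10 : BoxOK sI cl13 cl5 cl5 t1 t1 b2_10 :=
  box_mk (TrL.c (I.pos (nat_lit 0) (nat_lit 0)) T1.l1
  (TrL.c (I.pos (nat_lit 0) (nat_lit 0)) T1.l2
  (TrL.c (I.mix (nat_lit 8088324) (nat_lit 110514882)) T1.l3
  (TrL.c (I.mix (nat_lit 8088324) (nat_lit 89478486)) T1.l2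
  TrL.n)))) (by decide +kernel)
theorem bx2_11 : BoxOK sI cl13 cl5 cl5 t1 t1 b2_11 :=
  box_mk (TrL.c (I.pos (nat_lit 0) (nat_lit 0)) (xa (xb T1.l0 T1.l0) (xa T1.l0 T1.l0))
  (TrL.c (I.pos (nat_lit 0) (nat_lit 0)) (xa (xb T1.l1 (xk T1.l1 T1.l1)) (xk (xb T1.l1 (xa T1.l1 T1.l1)) (xb T1.l1 (xa T1.l1 T1.l1))))
  (TrL.c (I.pos (nat_lit 0) (nat_lit 134217730)) T1.l2
  (TrL.c (I.pos (nat_lit 0) (nat_lit 110514882)) (xR T1.l3 T1.l3)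
  (TrL.c (I.pos (nat_lit 0) (nat_lit 0)) (xa (xb (xa (xk T1.l4 T1.l4) T1.l4) (xa T1.l4 T1.l4)) (xb (xk (xa T1.l4 T1.l4) (xa T1.l4 T1.l4)) (xk (xa T1.l4 T1.l4) (xa T1.l4 T1.l4))))
  (TrL.c (I.pos (nat_lit 0) (nat_lit 0)) (xa T1.l5 (xk (xb T1.l5 T1.l5) T1.l5))
  (TrL.c (I.mix (nat_lit 8088324) (nat_lit 110514882)) (xR T1.l6 (xR T1.l6 (xR T1.l6 T1.l6)))
  (TrL.c (I.mix (nat_lit 8088324) (nat_lit 89478486)) T1.l7
  TrL.n)))))))) (by decide +kernel)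
theorem bx2_12 : BoxOK sI cl13 cl5 cl5 t1 t1 b2_12 :=
  box_mk (TrL.c (I.pos (nat_lit 0) (nat_lit 0)) (xa T1.l0 (xb T1.l0 T1.l0))
  (TrL.c (I.pos (nat_lit 0) (nat_lit 0)) (xk T1.l1 T1.l1)
  (TrL.c (I.pos (nat_lit 0) (nat_lit 134217730)) T1.l2
  (TrL.c (I.pos (nat_lit 0) (nat_lit 110514882)) T1.l3
  (TrL.c (I.pos (nat_lit 0) (nat_lit 0)) (xk (xb T1.l4 (xa T1.l4 T1.l4)) (xb T1.l4 (xa T1.l4 (xs T1.l4 T1.l4))))
  (TrL.c (I.pos (nat_lit 0) (nat_lit 0)) T1.l5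
  (TrL.c (I.mix (nat_lit 8088324) (nat_lit 110514882)) T1.l6
  (TrL.c (I.mix (nat_lit 8088324) (nat_lit 89478486)) T1.l7
  TrL.n)))))))) (by decide +kernel)
theorem bx2_13 : BoxOK sI cl13 cl5 cl5 t1 t1 b2_13 :=
  box_mk (TrL.c (I.pos (nat_lit 0) (nat_lit 0)) T1.l0
  (TrL.c (I.pos (nat_lit 0) (nat_lit 0)) T1.l1
  (TrL.c (I.pos (nat_lit 0) (nat_lit 134217730)) T1.l2
  (TrL.c (I.pos (nat_lit 0) (nat_lit 110514882)) T1.l3
  (TrL.c (I.pos (nat_lit 0) (nat_lit 0)) T1.l14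
  (TrL.c (I.pos (nat_lit 0) (nat_lit 0)) T1.l5
  (TrL.c (I.mix (nat_lit 8088324) (nat_lit 110514882)) T1.l6
  (TrL.c (I.mix (nat_lit 8088324) (nat_lit 89478486)) T1.l7
  TrL.n)))))))) (by decide +kernel)
theorem sv2 : StarV sI cl13 cl5 cl5 t1 t1 t2 :=
  (bt_n (bt_n (bt_n (bt_b bx2_0) (bt_n (bt_b bx2_1) (bt_b bx2_2))) (bt_n (bt_n (bt_b bx2_3) (bt_b bx2_4)) (bt_n (bt_b bx2_5) (bt_b bx2_6)))) (bt_n (bt_n (bt_b bx2_7) (bt_n (bt_b bx2_8) (bt_b bx2_9))) (bt_n (bt_n (bt_b bx2_10) (bt_b bx2_11)) (bt_n (bt_b bx2_12) (bt_b bx2_13)))))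
def S2 : StarD := StarD.mk cl13 cl5 cl5 1 1 t2
def G : List StarD := [S0, S1, S2]
theorem so0 : StarOK sI G S0 :=
  star_mk (by decide) (by decide) rfl rfl rfl rfl rfl rfl (rfl : _ = t0) (rfl : _ = t2)
  (st_mk (Pth.l (Pth.l (Pth.l Pth.z))) (nat_lit 245564888) (nat_lit 246996783) (by decide +kernel))
  (st_mk (Pth.l (Pth.l (Pth.l Pth.z))) (nat_lit 282824003) (nat_lit 284741728) (by decide +kernel))
  (st_mk (Pth.l (Pth.l (Pth.l Pth.z))) (nat_lit 326264446) (nat_lit 328847749) (by decide +kernel)) sv0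
theorem so1 : StarOK sI G S1 :=
  star_mk (by decide) (by decide) rfl rfl rfl rfl rfl rfl (rfl : _ = t2) (rfl : _ = t0)
  (st_mk (Pth.l (Pth.l (Pth.l Pth.z))) (nat_lit 97691266) (nat_lit 116715066) (by decide +kernel))
  (st_mk (Pth.l (Pth.l (Pth.l Pth.z))) (nat_lit 134223311) (nat_lit 153724148) (by decide +kernel))
  (st_mk (Pth.l (Pth.l (Pth.l Pth.z))) (nat_lit 177057931) (nat_lit 197215305) (by decide +kernel)) sv1
theorem so2 : StarOK sI G S2 :=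
  star_mk (by decide) (by decide) rfl rfl rfl rfl rfl rfl (rfl : _ = t1) (rfl : _ = t1)
  (st_mk (Pth.l (Pth.l (Pth.l Pth.z))) (nat_lit 238062708) (nat_lit 240018946) (by decide +kernel))
  (st_mk (Pth.l (Pth.l (Pth.l Pth.z))) (nat_lit 272959317) (nat_lit 275363287) (by decide +kernel))
  (st_mk (Pth.l (Pth.l (Pth.l Pth.z))) (nat_lit 313224636) (nat_lit 316222814) (by decide +kernel)) sv2
theorem ok : GroupOK (nat_lit 150274048) (nat_lit 209387520) G := grp_mk (allS_c so0 (allS_c so1 (allS_c so2 allS_n)))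
theorem cov : GCov G cl5 cl5 cl13 := cov_mk
  ⟨0, by decide, rfl, rfl, rfl⟩ ⟨1, by decide, rfl, rfl, rfl⟩ ⟨0, by decide, rfl, rfl, rfl⟩ ⟨1, by decide, rfl, rfl, rfl⟩ ⟨2, by decide, rfl, rfl, rfl⟩ ⟨2, by decide, rfl, rfl, rfl⟩
end Q226_2

namespace Q226_3
def sI : I := I.pos (nat_lit 209321984) (nat_lit 268435456)
def b0_0 : Bx := Bx.mk (St.mk (I.pos (nat_lit 149585920) (nat_lit 227737600)) (I.mix (nat_lit 9699328) (nat_lit 75169792)) (I.mix (nat_lit 9060352) (nat_lit 71532544)) (I.pos (nat_lit 230965248) (nat_lit 360513536)) (I.mix (nat_lit 135135232) (nat_lit 91160576)) (I.mix (nat_lit 74498048) (nat_lit 76300288)) (I.mix (nat_lit 107692032) (nat_lit 112148480)))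
  false (nat_lit 64950016)
def b0_1 : Bx := Bx.mk (St.mk (I.pos (nat_lit 22724608) (nat_lit 71843840)) (I.mix (nat_lit 5718016) (nat_lit 46923776)) (I.neg (nat_lit 7028736) (nat_lit 35684352)) (I.pos (nat_lit 141721600) (nat_lit 160759808)) (I.mix (nat_lit 39731200) (nat_lit 70352896)) (I.mix (nat_lit 44253184) (nat_lit 37289984)) (I.mix (nat_lit 25460736) (nat_lit 16826368)))
  false (nat_lit 0)
def b0_2 : Bx := Bx.mk (St.mk (I.pos (nat_lit 49119232) (nat_lit 94109696)) (I.mix (nat_lit 60325888) (nat_lit 11026432)) (I.neg (nat_lit 22577152) (nat_lit 69074944)) (I.pos (nat_lit 144588800) (nat_lit 177569792)) (I.mix (nat_lit 111083520) (nat_lit 39796736)) (I.mix (nat_lit 41517056) (nat_lit 80347136)) (I.mix (nat_lit 31342592) (nat_lit 51462144)))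
  false (nat_lit 0)
def b0_3 : Bx := Bx.mk (St.mk (I.neg (nat_lit 22249472) (nat_lit 75481088)) (I.mix (nat_lit 47366144) (nat_lit 9158656)) (I.neg (nat_lit 6619136) (nat_lit 38813696)) (I.pos (nat_lit 141721600) (nat_lit 161775616)) (I.mix (nat_lit 70352896) (nat_lit 39731200)) (I.mix (nat_lit 37289984) (nat_lit 44253184)) (I.mix (nat_lit 25493504) (nat_lit 16826368)))
  true (nat_lit 0)
def b0_4 : Bx := Bx.mk (St.mk (I.pos (nat_lit 187793408) (nat_lit 276807680)) (I.mix (nat_lit 7389184) (nat_lit 42041344)) (I.mix (nat_lit 100139008) (nat_lit 11747328)) (I.pos (nat_lit 290488320) (nat_lit 438255616)) (I.mix (nat_lit 100302848) (nat_lit 73285632)) (I.mix (nat_lit 67911680) (nat_lit 63881216)) (I.mix (nat_lit 104185856) (nat_lit 110936064)))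
  false (nat_lit 25429383)
def b0_5 : Bx := Bx.mk (St.mk (I.pos (nat_lit 50528256) (nat_lit 71778304)) (I.mix (nat_lit 5390336) (nat_lit 18497536)) (I.neg (nat_lit 20119552) (nat_lit 37044224)) (I.pos (nat_lit 147554304) (nat_lit 161071104)) (I.mix (nat_lit 20004864) (nat_lit 27934720)) (I.mix (nat_lit 17743872) (nat_lit 13500416)) (I.mix (nat_lit 8929280) (nat_lit 8994816)))
  false (nat_lit 0)
def b0_6 : Bx := Bx.mk (St.mk (I.pos (nat_lit 53723136) (nat_lit 154140672)) (I.neg (nat_lit 6275072) (nat_lit 63586304)) (I.neg (nat_lit 17661952) (nat_lit 72433664)) (I.pos (nat_lit 149340160) (nat_lit 230604800)) (I.mix (nat_lit 111017984) (nat_lit 62816256)) (I.mix (nat_lit 48955392) (nat_lit 79544320)) (I.mix (nat_lit 41910272) (nat_lit 69763072)))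
  false (nat_lit 0)
def b0_7 : Bx := Bx.mk (St.mk (I.mix (nat_lit 49070080) (nat_lit 11255808)) (I.mix (nat_lit 44679168) (nat_lit 11370496)) (I.neg (nat_lit 9437184) (nat_lit 19283968)) (I.pos (nat_lit 138870784) (nat_lit 156106752)) (I.mix (nat_lit 42254336) (nat_lit 44875776)) (I.mix (nat_lit 31866880) (nat_lit 40845312)) (I.mix (nat_lit 9125888) (nat_lit 9355264)))
  true (nat_lit 0)
def b0_8 : Bx := Bx.mk (St.mk (I.pos (nat_lit 148439040) (nat_lit 200212480)) (I.mix (nat_lit 1507328) (nat_lit 64978944)) (I.mix (nat_lit 11763712) (nat_lit 66306048)) (I.pos (nat_lit 239681536) (nat_lit 313212928)) (I.mix (nat_lit 137019392) (nat_lit 58621952)) (I.mix (nat_lit 114720768) (nat_lit 77037568)) (I.mix (nat_lit 105349120) (nat_lit 80658432)))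
  false (nat_lit 45676757)
def b0_9 : Bx := Bx.mk (St.mk (I.mix (nat_lit 11239424) (nat_lit 49070080)) (I.mix (nat_lit 11370496) (nat_lit 44679168)) (I.neg (nat_lit 9437184) (nat_lit 19283968)) (I.pos (nat_lit 138870784) (nat_lit 156106752)) (I.mix (nat_lit 44875776) (nat_lit 42254336)) (I.mix (nat_lit 40845312) (nat_lit 31866880)) (I.mix (nat_lit 9125888) (nat_lit 9355264)))
  false (nat_lit 0)
def b0_10 : Bx := Bx.mk (St.mk (I.pos (nat_lit 118095872) (nat_lit 197836800)) (I.mix (nat_lit 38125568) (nat_lit 23429120)) (I.mix (nat_lit 53329920) (nat_lit 12222464)) (I.pos (nat_lit 194510848) (nat_lit 292208640)) (I.mix (nat_lit 71598080) (nat_lit 74727424)) (I.mix (nat_lit 69697536) (nat_lit 60784640)) (I.mix (nat_lit 71172096) (nat_lit 53297152)))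
  false (nat_lit 0)
def b0_11 : Bx := Bx.mk (St.mk (I.pos (nat_lit 150061056) (nat_lit 198426624)) (I.mix (nat_lit 4751360) (nat_lit 41172992)) (I.mix (nat_lit 19824640) (nat_lit 38567936)) (I.pos (nat_lit 245137408) (nat_lit 295174144)) (I.mix (nat_lit 117489664) (nat_lit 77578240)) (I.mix (nat_lit 114589696) (nat_lit 69615616)) (I.mix (nat_lit 110804992) (nat_lit 65732608)))
  false (nat_lit 0)
def b0_12 : Bx := Bx.mk (St.mk (I.pos (nat_lit 174948352) (nat_lit 233062400)) (I.pos (nat_lit 12320768) (nat_lit 73285632)) (I.mix (nat_lit 27885568) (nat_lit 61014016)) (I.pos (nat_lit 291799040) (nat_lit 355696640)) (I.mix (nat_lit 116670464) (nat_lit 93962240)) (I.mix (nat_lit 86163456) (nat_lit 66633728)) (I.mix (nat_lit 135970816) (nat_lit 94126080)))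
  false (nat_lit 51977541)
def t0 : BTr := (BTr.n (BTr.n (BTr.n (BTr.b b0_0) (BTr.n (BTr.b b0_1) (BTr.b b0_2))) (BTr.n (BTr.b b0_3) (BTr.n (BTr.b b0_4) (BTr.b b0_5)))) (BTr.n (BTr.n (BTr.b b0_6) (BTr.n (BTr.b b0_7) (BTr.b b0_8))) (BTr.n (BTr.n (BTr.b b0_9) (BTr.b b0_10)) (BTr.n (BTr.b b0_11) (BTr.b b0_12)))))
namespace T0
def l0 : Tr := Tr.L (Pth.l (Pth.l (Pth.l Pth.z)))
def l1 : Tr := Tr.L (Pth.l (Pth.l (Pth.r (Pth.l Pth.z))))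
def l2 : Tr := Tr.L (Pth.l (Pth.l (Pth.r (Pth.r Pth.z))))
def l3 : Tr := Tr.L (Pth.l (Pth.r (Pth.l Pth.z)))
def l4 : Tr := Tr.L (Pth.l (Pth.r (Pth.r (Pth.l Pth.z))))
def l5 : Tr := Tr.L (Pth.l (Pth.r (Pth.r (Pth.r Pth.z))))
def l6 : Tr := Tr.L (Pth.r (Pth.l (Pth.l Pth.z)))
def l7 : Tr := Tr.L (Pth.r (Pth.l (Pth.r (Pth.l Pth.z))))
def l8 : Tr := Tr.L (Pth.r (Pth.l (Pth.r (Pth.r Pth.z))))
def l9 : Tr := Tr.L (Pth.r (Pth.r (Pth.l (Pth.l Pth.z))))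
def l10 : Tr := Tr.L (Pth.r (Pth.r (Pth.l (Pth.r Pth.z))))
def l11 : Tr := Tr.L (Pth.r (Pth.r (Pth.r (Pth.l Pth.z))))
def l12 : Tr := Tr.L (Pth.r (Pth.r (Pth.r (Pth.r Pth.z))))
end T0
def b1_0 : Bx := Bx.mk (St.mk (I.pos (nat_lit 151126016) (nat_lit 235831296)) (I.mix (nat_lit 5718016) (nat_lit 44597248)) (I.mix (nat_lit 10452992) (nat_lit 83345408)) (I.pos (nat_lit 81575936) (nat_lit 225263616)) (I.mix (nat_lit 112246784) (nat_lit 76414976)) (I.mix (nat_lit 76021760) (nat_lit 70336512)) (I.mix (nat_lit 113393664) (nat_lit 93306880)))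
  false (nat_lit 62152155)
def b1_1 : Bx := Bx.mk (St.mk (I.pos (nat_lit 104923136) (nat_lit 185565184)) (I.neg (nat_lit 933888) (nat_lit 50331648)) (I.neg (nat_lit 2097152) (nat_lit 48480256)) (I.pos (nat_lit 63651840) (nat_lit 143867904)) (I.mix (nat_lit 89751552) (nat_lit 55607296)) (I.mix (nat_lit 50954240) (nat_lit 60293120)) (I.mix (nat_lit 43319296) (nat_lit 62455808)))
  false (nat_lit 52827119)
def b1_2 : Bx := Bx.mk (St.mk (I.mix (nat_lit 25018368) (nat_lit 156745728)) (I.mix (nat_lit 3784704) (nat_lit 21774336)) (I.mix (nat_lit 4800512) (nat_lit 20480000)) (I.mix (nat_lit 13582336) (nat_lit 99860480)) (I.mix (nat_lit 40222720) (nat_lit 34471936)) (I.mix (nat_lit 29949952) (nat_lit 23494656)) (I.mix (nat_lit 25427968) (nat_lit 19202048)))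
  false (nat_lit 0)
def b1_3 : Bx := Bx.mk (St.mk (I.mix (nat_lit 21495808) (nat_lit 129433600)) (I.mix (nat_lit 24592384) (nat_lit 3538944)) (I.mix (nat_lit 16957440) (nat_lit 2834432)) (I.mix (nat_lit 10207232) (nat_lit 74039296)) (I.mix (nat_lit 35815424) (nat_lit 28049408)) (I.mix (nat_lit 19595264) (nat_lit 24543232)) (I.mix (nat_lit 12582912) (nat_lit 17055744)))
  false (nat_lit 0)
def b1_4 : Bx := Bx.mk (St.mk (I.pos (nat_lit 166281216) (nat_lit 211124224)) (I.mix (nat_lit 18350080) (nat_lit 40763392)) (I.mix (nat_lit 1294336) (nat_lit 73973760)) (I.pos (nat_lit 109740032) (nat_lit 186515456)) (I.mix (nat_lit 128630784) (nat_lit 59047936)) (I.mix (nat_lit 108347392) (nat_lit 61538304)) (I.mix (nat_lit 124878848) (nat_lit 62324736)))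
  false (nat_lit 0)
def b1_5 : Bx := Bx.mk (St.mk (I.pos (nat_lit 114458624) (nat_lit 157138944)) (I.mix (nat_lit 49922048) (nat_lit 6668288)) (I.mix (nat_lit 51380224) (nat_lit 6275072)) (I.pos (nat_lit 48824320) (nat_lit 110952448)) (I.mix (nat_lit 95584256) (nat_lit 41123840)) (I.mix (nat_lit 34242560) (nat_lit 77299712)) (I.mix (nat_lit 28131328) (nat_lit 68059136)))
  false (nat_lit 21201571)
def b1_6 : Bx := Bx.mk (St.mk (I.mix (nat_lit 29392896) (nat_lit 146636800)) (I.mix (nat_lit 12402688) (nat_lit 29917184)) (I.mix (nat_lit 8208384) (nat_lit 26869760)) (I.mix (nat_lit 12156928) (nat_lit 88932352)) (I.mix (nat_lit 61636608) (nat_lit 29229056)) (I.mix (nat_lit 47480832) (nat_lit 28098560)) (I.mix (nat_lit 33701888) (nat_lit 18038784)))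
  false (nat_lit 0)
def b1_7 : Bx := Bx.mk (St.mk (I.mix (nat_lit 25034752) (nat_lit 117538816)) (I.mix (nat_lit 23773184) (nat_lit 3555328)) (I.mix (nat_lit 16580608) (nat_lit 2981888)) (I.mix (nat_lit 8880128) (nat_lit 63864832)) (I.mix (nat_lit 38813696) (nat_lit 16580608)) (I.mix (nat_lit 16482304) (nat_lit 27885568)) (I.mix (nat_lit 9371648) (nat_lit 16908288)))
  false (nat_lit 0)
def b1_8 : Bx := Bx.mk (St.mk (I.pos (nat_lit 198705152) (nat_lit 271581184)) (I.mix (nat_lit 9207808) (nat_lit 29868032)) (I.mix (nat_lit 14647296) (nat_lit 57982976)) (I.pos (nat_lit 160481280) (nat_lit 308690944)) (I.mix (nat_lit 88014848) (nat_lit 46284800)) (I.mix (nat_lit 55001088) (nat_lit 40845312)) (I.mix (nat_lit 91193344) (nat_lit 72499200)))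
  false (nat_lit 37929745)
def b1_9 : Bx := Bx.mk (St.mk (I.pos (nat_lit 154845184) (nat_lit 208764928)) (I.mix (nat_lit 37568512) (nat_lit 3358720)) (I.mix (nat_lit 33914880) (nat_lit 19873792)) (I.pos (nat_lit 96468992) (nat_lit 177012736)) (I.mix (nat_lit 69795840) (nat_lit 68173824)) (I.mix (nat_lit 64618496) (nat_lit 55574528)) (I.mix (nat_lit 70107136) (nat_lit 60948480)))
  false (nat_lit 74070070)
def b1_10 : Bx := Bx.mk (St.mk (I.pos (nat_lit 157614080) (nat_lit 179912704)) (I.neg (nat_lit 13352960) (nat_lit 32571392)) (I.neg (nat_lit 6307840) (nat_lit 29294592)) (I.pos (nat_lit 102219776) (nat_lit 139182080)) (I.mix (nat_lit 24461312) (nat_lit 12353536)) (I.mix (nat_lit 9912320) (nat_lit 11796480)) (I.mix (nat_lit 10960896) (nat_lit 13205504)))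
  false (nat_lit 0)
def b1_11 : Bx := Bx.mk (St.mk (I.pos (nat_lit 117981184) (nat_lit 137527296)) (I.mix (nat_lit 1261568) (nat_lit 6930432)) (I.mix (nat_lit 2605056) (nat_lit 6815744)) (I.pos (nat_lit 51658752) (nat_lit 90832896)) (I.mix (nat_lit 8765440) (nat_lit 10354688)) (I.mix (nat_lit 5423104) (nat_lit 4702208)) (I.mix (nat_lit 4964352) (nat_lit 3997696)))
  false (nat_lit 0)
def b1_12 : Bx := Bx.mk (St.mk (I.mix (nat_lit 27656192) (nat_lit 129548288)) (I.mix (nat_lit 12435456) (nat_lit 2342912)) (I.mix (nat_lit 7815168) (nat_lit 1949696)) (I.mix (nat_lit 10125312) (nat_lit 73334784)) (I.mix (nat_lit 6717440) (nat_lit 6373376)) (I.mix (nat_lit 3063808) (nat_lit 3031040)) (I.mix (nat_lit 2129920) (nat_lit 2244608)))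
  false (nat_lit 0)
def b1_13 : Bx := Bx.mk (St.mk (I.mix (nat_lit 11730944) (nat_lit 7421952)) (I.mix (nat_lit 868352) (nat_lit 2359296)) (I.mix (nat_lit 1015808) (nat_lit 720896)) (I.mix (nat_lit 3194880) (nat_lit 20201472)) (I.mix (nat_lit 1572864) (nat_lit 2736128)) (I.mix (nat_lit 1327104) (nat_lit 1081344)) (I.mix (nat_lit 688128) (nat_lit 688128)))
  false (nat_lit 0)
def b1_14 : Bx := Bx.mk (St.mk (I.pos (nat_lit 188039168) (nat_lit 234356736)) (I.pos (nat_lit 8863744) (nat_lit 44613632)) (I.pos (nat_lit 20676608) (nat_lit 82067456)) (I.pos (nat_lit 164872192) (nat_lit 221069312)) (I.mix (nat_lit 96370688) (nat_lit 74481664)) (I.mix (nat_lit 78708736) (nat_lit 62210048)) (I.mix (nat_lit 122454016) (nat_lit 79757312)))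
  false (nat_lit 48448465)
def b1_15 : Bx := Bx.mk (St.mk (I.pos (nat_lit 168017920) (nat_lit 207405056)) (I.mix (nat_lit 18268160) (nat_lit 18857984)) (I.mix (nat_lit 3850240) (nat_lit 42205184)) (I.pos (nat_lit 111165440) (nat_lit 174014464)) (I.mix (nat_lit 92192768) (nat_lit 50331648)) (I.mix (nat_lit 85606400) (nat_lit 48955392)) (I.mix (nat_lit 98516992) (nat_lit 52396032)))
  false (nat_lit 0)
def t1 : BTr := (BTr.n (BTr.n (BTr.n (BTr.n (BTr.b b1_0) (BTr.b b1_1)) (BTr.n (BTr.b b1_2) (BTr.b b1_3))) (BTr.n (BTr.n (BTr.b b1_4) (BTr.b b1_5)) (BTr.n (BTr.b b1_6) (BTr.b b1_7)))) (BTr.n (BTr.n (BTr.n (BTr.b b1_8) (BTr.b b1_9)) (BTr.n (BTr.b b1_10) (BTr.b b1_11))) (BTr.n (BTr.n (BTr.b b1_12) (BTr.b b1_13)) (BTr.n (BTr.b b1_14) (BTr.b b1_15)))))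
namespace T1
def l0 : Tr := Tr.L (Pth.l (Pth.l (Pth.l (Pth.l Pth.z))))
def l1 : Tr := Tr.L (Pth.l (Pth.l (Pth.l (Pth.r Pth.z))))
def l2 : Tr := Tr.L (Pth.l (Pth.l (Pth.r (Pth.l Pth.z))))
def l3 : Tr := Tr.L (Pth.l (Pth.l (Pth.r (Pth.r Pth.z))))
def l4 : Tr := Tr.L (Pth.l (Pth.r (Pth.l (Pth.l Pth.z))))
def l5 : Tr := Tr.L (Pth.l (Pth.r (Pth.l (Pth.r Pth.z))))
def l6 : Tr := Tr.L (Pth.l (Pth.r (Pth.r (Pth.l Pth.z))))
def l7 : Tr := Tr.L (Pth.l (Pth.r (Pth.r (Pth.r Pth.z))))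
def l8 : Tr := Tr.L (Pth.r (Pth.l (Pth.l (Pth.l Pth.z))))
def l9 : Tr := Tr.L (Pth.r (Pth.l (Pth.l (Pth.r Pth.z))))
def l10 : Tr := Tr.L (Pth.r (Pth.l (Pth.r (Pth.l Pth.z))))
def l11 : Tr := Tr.L (Pth.r (Pth.l (Pth.r (Pth.r Pth.z))))
def l12 : Tr := Tr.L (Pth.r (Pth.r (Pth.l (Pth.l Pth.z))))
def l13 : Tr := Tr.L (Pth.r (Pth.r (Pth.l (Pth.r Pth.z))))
def l14 : Tr := Tr.L (Pth.r (Pth.r (Pth.r (Pth.l Pth.z))))
def l15 : Tr := Tr.L (Pth.r (Pth.r (Pth.r (Pth.r Pth.z))))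
end T1
def b2_0 : Bx := Bx.mk (St.mk (I.pos (nat_lit 133185536) (nat_lit 223969280)) (I.mix (nat_lit 8060928) (nat_lit 61980672)) (I.mix (nat_lit 14942208) (nat_lit 113754112)) (I.pos (nat_lit 225656832) (nat_lit 328925184)) (I.mix (nat_lit 150880256) (nat_lit 82362368)) (I.mix (nat_lit 94044160) (nat_lit 78053376)) (I.mix (nat_lit 110903296) (nat_lit 98566144)))
  false (nat_lit 104040737)
def b2_1 : Bx := Bx.mk (St.mk (I.pos (nat_lit 69976064) (nat_lit 151502848)) (I.neg (nat_lit 12156928) (nat_lit 72892416)) (I.mix (nat_lit 42909696) (nat_lit 15925248)) (I.pos (nat_lit 169410560) (nat_lit 227803136)) (I.mix (nat_lit 100696064) (nat_lit 73695232)) (I.mix (nat_lit 59195392) (nat_lit 58392576)) (I.mix (nat_lit 47579136) (nat_lit 49987584)))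
  false (nat_lit 101974070)
def b2_2 : Bx := Bx.mk (St.mk (I.mix (nat_lit 34766848) (nat_lit 7716864)) (I.mix (nat_lit 43843584) (nat_lit 5029888)) (I.pos (nat_lit 10059776) (nat_lit 19562496)) (I.pos (nat_lit 139296768) (nat_lit 152322048)) (I.mix (nat_lit 30408704) (nat_lit 56688640)) (I.mix (nat_lit 28082176) (nat_lit 37224448)) (I.mix (nat_lit 6160384) (nat_lit 9420800)))
  true (nat_lit 0)
def b2_3 : Bx := Bx.mk (St.mk (I.pos (nat_lit 136724480) (nat_lit 185614336)) (I.mix (nat_lit 1851392) (nat_lit 56803328)) (I.pos (nat_lit 36028416) (nat_lit 107134976)) (I.pos (nat_lit 212320256) (nat_lit 275300352)) (I.mix (nat_lit 146341888) (nat_lit 51101696)) (I.mix (nat_lit 118636544) (nat_lit 65060864)) (I.mix (nat_lit 117719040) (nat_lit 68141056)))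
  false (nat_lit 78447495)
def b2_4 : Bx := Bx.mk (St.mk (I.mix (nat_lit 11173888) (nat_lit 35225600)) (I.mix (nat_lit 7716864) (nat_lit 44204032)) (I.pos (nat_lit 10059776) (nat_lit 19562496)) (I.pos (nat_lit 139296768) (nat_lit 152322048)) (I.mix (nat_lit 56688640) (nat_lit 30408704)) (I.mix (nat_lit 37224448) (nat_lit 28082176)) (I.mix (nat_lit 6160384) (nat_lit 9420800)))
  false (nat_lit 0)
def b2_5 : Bx := Bx.mk (St.mk (I.pos (nat_lit 124878848) (nat_lit 186531840)) (I.mix (nat_lit 30294016) (nat_lit 13484032)) (I.mix (nat_lit 638976) (nat_lit 55869440)) (I.pos (nat_lit 199835648) (nat_lit 267272192)) (I.mix (nat_lit 68042752) (nat_lit 68714496)) (I.mix (nat_lit 60702720) (nat_lit 59703296)) (I.mix (nat_lit 57065472) (nat_lit 59064320)))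
  false (nat_lit 68434949)
def b2_6 : Bx := Bx.mk (St.mk (I.pos (nat_lit 123584512) (nat_lit 152535040)) (I.neg (nat_lit 16891904) (nat_lit 43089920)) (I.mix (nat_lit 14925824) (nat_lit 16859136)) (I.pos (nat_lit 203194368) (nat_lit 229605376)) (I.mix (nat_lit 34701312) (nat_lit 37322752)) (I.mix (nat_lit 22593536) (nat_lit 22331392)) (I.mix (nat_lit 18972672) (nat_lit 22151168)))
  false (nat_lit 0)
def b2_7 : Bx := Bx.mk (St.mk (I.mix (nat_lit 10010624) (nat_lit 7880704)) (I.mix (nat_lit 15400960) (nat_lit 3948544)) (I.pos (nat_lit 11190272) (nat_lit 16416768)) (I.pos (nat_lit 140148736) (nat_lit 144441344)) (I.mix (nat_lit 10518528) (nat_lit 19300352)) (I.mix (nat_lit 8667136) (nat_lit 8224768)) (I.mix (nat_lit 1802240) (nat_lit 1572864)))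
  true (nat_lit 0)
def b2_8 : Bx := Bx.mk (St.mk (I.pos (nat_lit 7225344) (nat_lit 76218368)) (I.mix (nat_lit 11517952) (nat_lit 46727168)) (I.mix (nat_lit 8208384) (nat_lit 22724608)) (I.pos (nat_lit 140640256) (nat_lit 164724736)) (I.mix (nat_lit 52789248) (nat_lit 50626560)) (I.mix (nat_lit 44367872) (nat_lit 37961728)) (I.mix (nat_lit 23609344) (nat_lit 20938752)))
  false (nat_lit 0)
def b2_9 : Bx := Bx.mk (St.mk (I.pos (nat_lit 48775168) (nat_lit 109117440)) (I.mix (nat_lit 69353472) (nat_lit 14467072)) (I.mix (nat_lit 40419328) (nat_lit 8519680)) (I.pos (nat_lit 148668416) (nat_lit 194953216)) (I.mix (nat_lit 91537408) (nat_lit 44728320)) (I.mix (nat_lit 46006272) (nat_lit 67485696)) (I.mix (nat_lit 33800192) (nat_lit 38322176)))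
  false (nat_lit 30965157)
def b2_10 : Bx := Bx.mk (St.mk (I.neg (nat_lit 7208960) (nat_lit 76218368)) (I.mix (nat_lit 46727168) (nat_lit 11517952)) (I.mix (nat_lit 8208384) (nat_lit 22724608)) (I.pos (nat_lit 140640256) (nat_lit 164724736)) (I.mix (nat_lit 50626560) (nat_lit 52789248)) (I.mix (nat_lit 37961728) (nat_lit 44367872)) (I.mix (nat_lit 23609344) (nat_lit 20938752)))
  true (nat_lit 0)
def b2_11 : Bx := Bx.mk (St.mk (I.pos (nat_lit 185794560) (nat_lit 293961728)) (I.mix (nat_lit 23494656) (nat_lit 48529408)) (I.mix (nat_lit 47906816) (nat_lit 92012544)) (I.pos (nat_lit 276201472) (nat_lit 460914688)) (I.mix (nat_lit 94142464) (nat_lit 76169216)) (I.mix (nat_lit 70942720) (nat_lit 49692672)) (I.mix (nat_lit 122552320) (nat_lit 77332480)))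
  false (nat_lit 111890407)
def b2_12 : Bx := Bx.mk (St.mk (I.pos (nat_lit 159842304) (nat_lit 214499328)) (I.pos (nat_lit 21921792) (nat_lit 58900480)) (I.pos (nat_lit 48660480) (nat_lit 106823680)) (I.pos (nat_lit 258162688) (nat_lit 311263232)) (I.mix (nat_lit 123404288) (nat_lit 87687168)) (I.mix (nat_lit 93798400) (nat_lit 66338816)) (I.mix (nat_lit 133709824) (nat_lit 76955648)))
  false (nat_lit 58896641)
def b2_13 : Bx := Bx.mk (St.mk (I.pos (nat_lit 148062208) (nat_lit 185778176)) (I.mix (nat_lit 11927552) (nat_lit 26181632)) (I.pos (nat_lit 22790144) (nat_lit 73056256)) (I.pos (nat_lit 223576064) (nat_lit 269729792)) (I.mix (nat_lit 84312064) (nat_lit 64471040)) (I.mix (nat_lit 79790080) (nat_lit 58507264)) (I.mix (nat_lit 78544896) (nat_lit 56131584)))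
  false (nat_lit 65242095)
def t2 : BTr := (BTr.n (BTr.n (BTr.n (BTr.b b2_0) (BTr.n (BTr.b b2_1) (BTr.b b2_2))) (BTr.n (BTr.n (BTr.b b2_3) (BTr.b b2_4)) (BTr.n (BTr.b b2_5) (BTr.b b2_6)))) (BTr.n (BTr.n (BTr.b b2_7) (BTr.n (BTr.b b2_8) (BTr.b b2_9))) (BTr.n (BTr.n (BTr.b b2_10) (BTr.b b2_11)) (BTr.n (BTr.b b2_12) (BTr.b b2_13)))))
namespace T2
def l0 : Tr := Tr.L (Pth.l (Pth.l (Pth.l Pth.z)))
def l1 : Tr := Tr.L (Pth.l (Pth.l (Pth.r (Pth.l Pth.z))))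
def l2 : Tr := Tr.L (Pth.l (Pth.l (Pth.r (Pth.r Pth.z))))
def l3 : Tr := Tr.L (Pth.l (Pth.r (Pth.l (Pth.l Pth.z))))
def l4 : Tr := Tr.L (Pth.l (Pth.r (Pth.l (Pth.r Pth.z))))
def l5 : Tr := Tr.L (Pth.l (Pth.r (Pth.r (Pth.l Pth.z))))
def l6 : Tr := Tr.L (Pth.l (Pth.r (Pth.r (Pth.r Pth.z))))
def l7 : Tr := Tr.L (Pth.r (Pth.l (Pth.l Pth.z)))
def l8 : Tr := Tr.L (Pth.r (Pth.l (Pth.r (Pth.l Pth.z))))
def l9 : Tr := Tr.L (Pth.r (Pth.l (Pth.r (Pth.r Pth.z))))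
def l10 : Tr := Tr.L (Pth.r (Pth.r (Pth.l (Pth.l Pth.z))))
def l11 : Tr := Tr.L (Pth.r (Pth.r (Pth.l (Pth.r Pth.z))))
def l12 : Tr := Tr.L (Pth.r (Pth.r (Pth.r (Pth.l Pth.z))))
def l13 : Tr := Tr.L (Pth.r (Pth.r (Pth.r (Pth.r Pth.z))))
end T2
theorem bx0_0 : BoxOK sI cl5 cl5 cl13 t0 t2 b0_0 :=
  box_mk (TrL.c (I.pos (nat_lit 0) (nat_lit 0)) (xb (xa (xb T0.l0 T0.l0) T0.l0) (xa (xb T0.l0 (xa T0.l0 T0.l0)) (xa (xb T0.l0 T0.l0) (xb T0.l0 T0.l0))))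
  (TrL.c (I.pos (nat_lit 0) (nat_lit 0)) T2.l1
  (TrL.c (I.pos (nat_lit 0) (nat_lit 0)) T0.l1
  (TrL.c (I.pos (nat_lit 0) (nat_lit 0)) T2.l2
  (TrL.c (I.pos (nat_lit 0) (nat_lit 0)) (xb (xa T2.l3 (xb T2.l3 T2.l3)) (xa T2.l3 (xb T2.l3 T2.l3)))
  (TrL.c (I.pos (nat_lit 0) (nat_lit 0)) T0.l2
  (TrL.c (I.pos (nat_lit 0) (nat_lit 0)) T2.l4
  (TrL.c (I.pos (nat_lit 0) (nat_lit 0)) T0.l3
  TrL.n)))))))) (by decide +kernel)
theorem bx0_1 : BoxOK sI cl5 cl5 cl13 t0 t2 b0_1 :=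
  box_mk (TrL.c (I.pos (nat_lit 0) (nat_lit 0)) (xb T0.l4 (xa T0.l4 T0.l4))
  (TrL.c (I.pos (nat_lit 0) (nat_lit 0)) T2.l1
  (TrL.c (I.pos (nat_lit 0) (nat_lit 0)) T0.l1
  (TrL.c (I.pos (nat_lit 0) (nat_lit 0)) T2.l2
  (TrL.c (I.pos (nat_lit 0) (nat_lit 0)) T2.l5
  (TrL.c (I.pos (nat_lit 0) (nat_lit 0)) T0.l2
  (TrL.c (I.pos (nat_lit 0) (nat_lit 0)) T2.l4
  (TrL.c (I.pos (nat_lit 0) (nat_lit 0)) T0.l3
  TrL.n)))))))) (by decide +kernel)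
theorem bx0_2 : BoxOK sI cl5 cl5 cl13 t0 t2 b0_2 :=
  box_mk (TrL.c (I.pos (nat_lit 0) (nat_lit 0)) (xb (xa T0.l4 T0.l4) (xa (xb T0.l4 T0.l4) T0.l4))
  (TrL.c (I.pos (nat_lit 0) (nat_lit 0)) T2.l1
  (TrL.c (I.pos (nat_lit 0) (nat_lit 0)) T0.l1
  (TrL.c (I.pos (nat_lit 0) (nat_lit 0)) T2.l2
  (TrL.c (I.pos (nat_lit 0) (nat_lit 0)) T2.l5
  (TrL.c (I.pos (nat_lit 0) (nat_lit 0)) T0.l2
  (TrL.c (I.pos (nat_lit 0) (nat_lit 0)) T2.l4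
  (TrL.c (I.pos (nat_lit 0) (nat_lit 0)) T0.l3
  TrL.n)))))))) (by decide +kernel)
theorem bx0_3 : BoxOK sI cl5 cl5 cl13 t0 t2 b0_3 :=
  box_mk (TrL.c (I.pos (nat_lit 0) (nat_lit 0)) T2.l1
  (TrL.c (I.pos (nat_lit 0) (nat_lit 0)) T0.l1
  (TrL.c (I.pos (nat_lit 0) (nat_lit 0)) T2.l2
  TrL.n))) (by decide +kernel)
theorem bx0_4 : BoxOK sI cl5 cl5 cl13 t0 t2 b0_4 :=
  box_mk (TrL.c (I.pos (nat_lit 0) (nat_lit 0)) (xa (xb T0.l0 T0.l0) (xb T0.l0 (xa T0.l0 T0.l0)))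
  (TrL.c (I.pos (nat_lit 0) (nat_lit 0)) T2.l1
  (TrL.c (I.pos (nat_lit 0) (nat_lit 0)) T0.l1
  (TrL.c (I.pos (nat_lit 0) (nat_lit 0)) T2.l10
  (TrL.c (I.pos (nat_lit 0) (nat_lit 0)) (xa (xb T2.l3 T2.l3) (xb (xa T2.l3 (xb T2.l3 T2.l3)) (xa T2.l3 (xb T2.l3 T2.l3))))
  (TrL.c (I.pos (nat_lit 0) (nat_lit 0)) T0.l6
  (TrL.c (I.pos (nat_lit 0) (nat_lit 0)) T2.l8
  (TrL.c (I.pos (nat_lit 0) (nat_lit 0)) T0.l3
  TrL.n)))))))) (by decide +kernel)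
theorem bx0_5 : BoxOK sI cl5 cl5 cl13 t0 t2 b0_5 :=
  box_mk (TrL.c (I.pos (nat_lit 0) (nat_lit 0)) T0.l4
  (TrL.c (I.pos (nat_lit 0) (nat_lit 0)) T2.l1
  (TrL.c (I.pos (nat_lit 0) (nat_lit 0)) T0.l1
  (TrL.c (I.pos (nat_lit 0) (nat_lit 0)) T2.l2
  (TrL.c (I.pos (nat_lit 0) (nat_lit 0)) T2.l5
  (TrL.c (I.pos (nat_lit 0) (nat_lit 0)) T0.l2
  (TrL.c (I.pos (nat_lit 0) (nat_lit 0)) T2.l4
  (TrL.c (I.pos (nat_lit 0) (nat_lit 0)) T0.l3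
  TrL.n)))))))) (by decide +kernel)
theorem bx0_6 : BoxOK sI cl5 cl5 cl13 t0 t2 b0_6 :=
  box_mk (TrL.c (I.pos (nat_lit 0) (nat_lit 0)) (xa (xb (xa T0.l4 T0.l4) (xa T0.l4 T0.l4)) (xb (xa T0.l4 T0.l4) (xa T0.l4 T0.l4)))
  (TrL.c (I.pos (nat_lit 0) (nat_lit 0)) T2.l1
  (TrL.c (I.pos (nat_lit 0) (nat_lit 0)) T0.l1
  (TrL.c (I.pos (nat_lit 0) (nat_lit 0)) T2.l2
  (TrL.c (I.pos (nat_lit 0) (nat_lit 0)) (xa T2.l5 (xb T2.l5 T2.l5))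
  (TrL.c (I.pos (nat_lit 0) (nat_lit 0)) T0.l2
  (TrL.c (I.pos (nat_lit 0) (nat_lit 0)) T2.l4
  (TrL.c (I.pos (nat_lit 0) (nat_lit 0)) T0.l3
  TrL.n)))))))) (by decide +kernel)
theorem bx0_7 : BoxOK sI cl5 cl5 cl13 t0 t2 b0_7 :=
  box_mk (TrL.c (I.pos (nat_lit 0) (nat_lit 0)) T2.l6
  (TrL.c (I.pos (nat_lit 0) (nat_lit 0)) T0.l5
  (TrL.c (I.pos (nat_lit 0) (nat_lit 0)) T2.l2
  TrL.n))) (by decide +kernel)
theorem bx0_8 : BoxOK sI cl5 cl5 cl13 t0 t2 b0_8 :=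
  box_mk (TrL.c (I.pos (nat_lit 0) (nat_lit 0)) (xb (xa T0.l12 T0.l12) (xa T0.l12 T0.l12))
  (TrL.c (I.pos (nat_lit 0) (nat_lit 0)) T2.l1
  (TrL.c (I.pos (nat_lit 0) (nat_lit 0)) T0.l1
  (TrL.c (I.pos (nat_lit 0) (nat_lit 0)) T2.l2
  (TrL.c (I.pos (nat_lit 0) (nat_lit 0)) (xb (xa T2.l0 T2.l3) T2.l3)
  (TrL.c (I.pos (nat_lit 0) (nat_lit 0)) T0.l2
  (TrL.c (I.pos (nat_lit 0) (nat_lit 0)) T2.l4
  (TrL.c (I.pos (nat_lit 0) (nat_lit 0)) T0.l3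
  TrL.n)))))))) (by decide +kernel)
theorem bx0_9 : BoxOK sI cl5 cl5 cl13 t0 t2 b0_9 :=
  box_mk (TrL.c (I.pos (nat_lit 0) (nat_lit 0)) (xb (xa (xb (xa T0.l4 T0.l4) T0.l4) T0.l4) (xa T0.l4 T0.l4))
  (TrL.c (I.pos (nat_lit 0) (nat_lit 0)) T2.l6
  (TrL.c (I.pos (nat_lit 0) (nat_lit 0)) T0.l5
  (TrL.c (I.pos (nat_lit 0) (nat_lit 0)) T2.l2
  (TrL.c (I.pos (nat_lit 0) (nat_lit 0)) T2.l5
  (TrL.c (I.pos (nat_lit 0) (nat_lit 0)) T0.l2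
  (TrL.c (I.pos (nat_lit 0) (nat_lit 0)) T2.l4
  (TrL.c (I.pos (nat_lit 0) (nat_lit 0)) T0.l3
  TrL.n)))))))) (by decide +kernel)
theorem bx0_10 : BoxOK sI cl5 cl5 cl13 t0 t2 b0_10 :=
  box_mk (TrL.c (I.pos (nat_lit 0) (nat_lit 0)) (xa (xb T0.l12 T0.l12) (xb T0.l12 T0.l12))
  (TrL.c (I.pos (nat_lit 0) (nat_lit 0)) T2.l1
  (TrL.c (I.pos (nat_lit 0) (nat_lit 0)) T0.l1
  (TrL.c (I.pos (nat_lit 0) (nat_lit 0)) T2.l2
  (TrL.c (I.pos (nat_lit 0) (nat_lit 0)) (xa T2.l13 T2.l0)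
  (TrL.c (I.pos (nat_lit 0) (nat_lit 0)) T0.l2
  (TrL.c (I.pos (nat_lit 0) (nat_lit 0)) T2.l4
  (TrL.c (I.pos (nat_lit 0) (nat_lit 0)) T0.l3
  TrL.n)))))))) (by decide +kernel)
theorem bx0_11 : BoxOK sI cl5 cl5 cl13 t0 t2 b0_11 :=
  box_mk (TrL.c (I.pos (nat_lit 0) (nat_lit 0)) (xa T0.l12 T0.l12)
  (TrL.c (I.pos (nat_lit 0) (nat_lit 0)) T2.l1
  (TrL.c (I.pos (nat_lit 0) (nat_lit 0)) T0.l1
  (TrL.c (I.pos (nat_lit 0) (nat_lit 0)) T2.l2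
  (TrL.c (I.pos (nat_lit 0) (nat_lit 0)) (xb T2.l0 T2.l3)
  (TrL.c (I.pos (nat_lit 0) (nat_lit 0)) T0.l2
  (TrL.c (I.pos (nat_lit 0) (nat_lit 0)) T2.l4
  (TrL.c (I.pos (nat_lit 0) (nat_lit 0)) T0.l3
  TrL.n)))))))) (by decide +kernel)
theorem bx0_12 : BoxOK sI cl5 cl5 cl13 t0 t2 b0_12 :=
  box_mk (TrL.c (I.pos (nat_lit 0) (nat_lit 0)) (xa (xb T0.l0 (xb T0.l0 T0.l0)) (xb T0.l0 (xa T0.l0 T0.l0)))
  (TrL.c (I.pos (nat_lit 0) (nat_lit 0)) T2.l1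
  (TrL.c (I.pos (nat_lit 0) (nat_lit 0)) T0.l1
  (TrL.c (I.pos (nat_lit 0) (nat_lit 0)) T2.l2
  (TrL.c (I.pos (nat_lit 0) (nat_lit 0)) (xb (xa T2.l3 T2.l3) (xa T2.l3 T2.l3))
  (TrL.c (I.pos (nat_lit 0) (nat_lit 0)) T0.l2
  (TrL.c (I.pos (nat_lit 0) (nat_lit 0)) T2.l4
  (TrL.c (I.pos (nat_lit 0) (nat_lit 0)) T0.l3
  TrL.n)))))))) (by decide +kernel)
theorem sv0 : StarV sI cl5 cl5 cl13 t0 t2 t0 :=
  (bt_n (bt_n (bt_n (bt_b bx0_0) (bt_n (bt_b bx0_1) (bt_b bx0_2))) (bt_n (bt_b bx0_3) (bt_n (bt_b bx0_4) (bt_b bx0_5)))) (bt_n (bt_n (bt_b bx0_6) (bt_n (bt_b bx0_7) (bt_b bx0_8))) (bt_n (bt_n (bt_b bx0_9) (bt_b bx0_10)) (bt_n (bt_b bx0_11) (bt_b bx0_12)))))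
def S0 : StarD := StarD.mk cl5 cl5 cl13 0 2 t0
theorem bx1_0 : BoxOK sI cl5 cl13 cl5 t2 t0 b1_0 :=
  box_mk (TrL.c (I.pos (nat_lit 0) (nat_lit 0)) (xa (xb (xa (xb T2.l0 T2.l0) (xb T2.l0 T2.l0)) (xa (xb T2.l0 (xa T2.l0 T2.l0)) (xb T2.l0 (xa T2.l0 T2.l0)))) (xb (xa T2.l0 T2.l0) (xa (xb T2.l0 (xa T2.l0 T2.l0)) (xb T2.l0 T2.l0))))
  (TrL.c (I.pos (nat_lit 0) (nat_lit 0)) (xa T0.l6 T0.l6)
  (TrL.c (I.pos (nat_lit 0) (nat_lit 0)) T2.l8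
  (TrL.c (I.pos (nat_lit 0) (nat_lit 0)) T0.l7
  (TrL.c (I.pos (nat_lit 0) (nat_lit 0)) (xa (xb T0.l8 T0.l8) (xb T0.l8 T0.l8))
  (TrL.c (I.pos (nat_lit 0) (nat_lit 0)) T2.l9
  (TrL.c (I.pos (nat_lit 0) (nat_lit 0)) T0.l9
  (TrL.c (I.pos (nat_lit 0) (nat_lit 0)) T2.l10
  TrL.n)))))))) (by decide +kernel)
theorem bx1_1 : BoxOK sI cl5 cl13 cl5 t2 t0 b1_1 :=
  box_mk (TrL.c (I.pos (nat_lit 0) (nat_lit 0)) (xa (xb (xa T2.l11 T2.l0) (xa T2.l11 T2.l11)) (xb T2.l0 T2.l0))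
  (TrL.c (I.pos (nat_lit 0) (nat_lit 0)) T0.l6
  (TrL.c (I.pos (nat_lit 0) (nat_lit 0)) T2.l8
  (TrL.c (I.pos (nat_lit 0) (nat_lit 0)) T0.l7
  (TrL.c (I.pos (nat_lit 0) (nat_lit 0)) (xa T0.l10 (xb T0.l10 T0.l10))
  (TrL.c (I.pos (nat_lit 0) (nat_lit 0)) T2.l9
  (TrL.c (I.pos (nat_lit 0) (nat_lit 0)) T0.l9
  (TrL.c (I.pos (nat_lit 0) (nat_lit 0)) T2.l10
  TrL.n)))))))) (by decide +kernel)
theorem bx1_2 : BoxOK sI cl5 cl13 cl5 t2 t0 b1_2 :=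
  box_mk (TrL.c (I.pos (nat_lit 0) (nat_lit 0)) (xa (xa T2.l11 T2.l11) (xa T2.l11 (xa T2.l11 T2.l11)))
  (TrL.c (I.pos (nat_lit 0) (nat_lit 0)) (xa T0.l6 T0.l6)
  (TrL.c (I.pos (nat_lit 0) (nat_lit 0)) T2.l8
  (TrL.c (I.pos (nat_lit 0) (nat_lit 0)) T0.l7
  (TrL.c (I.pos (nat_lit 0) (nat_lit 0)) (xa T0.l10 T0.l10)
  (TrL.c (I.pos (nat_lit 0) (nat_lit 0)) T2.l9
  (TrL.c (I.pos (nat_lit 0) (nat_lit 0)) T0.l9
  (TrL.c (I.pos (nat_lit 0) (nat_lit 0)) T2.l10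
  TrL.n)))))))) (by decide +kernel)
theorem bx1_3 : BoxOK sI cl5 cl13 cl5 t2 t0 b1_3 :=
  box_mk (TrL.c (I.pos (nat_lit 0) (nat_lit 0)) (xa (xa T2.l11 T2.l11) T2.l11)
  (TrL.c (I.pos (nat_lit 0) (nat_lit 0)) (xa T0.l6 T0.l6)
  (TrL.c (I.pos (nat_lit 0) (nat_lit 0)) T2.l8
  (TrL.c (I.pos (nat_lit 0) (nat_lit 0)) T0.l7
  (TrL.c (I.pos (nat_lit 0) (nat_lit 0)) (xa T0.l10 T0.l10)
  (TrL.c (I.pos (nat_lit 0) (nat_lit 0)) T2.l9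
  (TrL.c (I.pos (nat_lit 0) (nat_lit 0)) T0.l9
  (TrL.c (I.pos (nat_lit 0) (nat_lit 0)) T2.l10
  TrL.n)))))))) (by decide +kernel)
theorem bx1_4 : BoxOK sI cl5 cl13 cl5 t2 t0 b1_4 :=
  box_mk (TrL.c (I.pos (nat_lit 0) (nat_lit 0)) (xb (xa (xb (xb (xa T2.l12 T2.l12) T2.l12) T2.l12) (xb (xb (xa T2.l12 T2.l12) (xa (xs T2.l12 T2.l12) (xs T2.l12 T2.l12))) T2.l12)) (xa (xb T2.l12 (xa T2.l12 T2.l12)) (xb T2.l12 (xa T2.l12 T2.l12))))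
  (TrL.c (I.pos (nat_lit 0) (nat_lit 0)) T0.l6
  (TrL.c (I.pos (nat_lit 0) (nat_lit 0)) T2.l8
  (TrL.c (I.pos (nat_lit 0) (nat_lit 0)) T0.l7
  (TrL.c (I.pos (nat_lit 0) (nat_lit 0)) (xb T0.l11 T0.l11)
  (TrL.c (I.pos (nat_lit 0) (nat_lit 0)) T2.l9
  (TrL.c (I.pos (nat_lit 0) (nat_lit 0)) T0.l9
  (TrL.c (I.pos (nat_lit 0) (nat_lit 0)) T2.l10
  TrL.n)))))))) (by decide +kernel)
theorem bx1_5 : BoxOK sI cl5 cl13 cl5 t2 t0 b1_5 :=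
  box_mk (TrL.c (I.pos (nat_lit 0) (nat_lit 0)) (xb (xa T2.l11 T2.l0) (xa (xb T2.l11 T2.l11) (xb T2.l11 T2.l11)))
  (TrL.c (I.pos (nat_lit 0) (nat_lit 0)) T0.l6
  (TrL.c (I.pos (nat_lit 0) (nat_lit 0)) T2.l8
  (TrL.c (I.pos (nat_lit 0) (nat_lit 0)) T0.l7
  (TrL.c (I.pos (nat_lit 0) (nat_lit 0)) (xb T0.l10 T0.l10)
  (TrL.c (I.pos (nat_lit 0) (nat_lit 0)) T2.l9
  (TrL.c (I.pos (nat_lit 0) (nat_lit 0)) T0.l9
  (TrL.c (I.pos (nat_lit 0) (nat_lit 0)) T2.l10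
  TrL.n)))))))) (by decide +kernel)
theorem bx1_6 : BoxOK sI cl5 cl13 cl5 t2 t0 b1_6 :=
  box_mk (TrL.c (I.pos (nat_lit 0) (nat_lit 0)) (xa (xa (xb (xa T2.l11 T2.l11) (xa (xb T2.l11 (xa T2.l11 T2.l11)) (xb T2.l11 T2.l11))) (xb T2.l11 (xa T2.l11 T2.l11))) (xa (xb T2.l11 (xa T2.l11 T2.l11)) (xa (xb T2.l11 (xb T2.l11 T2.l11)) (xb T2.l11 (xa T2.l11 T2.l11)))))
  (TrL.c (I.pos (nat_lit 0) (nat_lit 0)) (xa T0.l6 T0.l6)
  (TrL.c (I.pos (nat_lit 0) (nat_lit 0)) T2.l8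
  (TrL.c (I.pos (nat_lit 0) (nat_lit 0)) T0.l7
  (TrL.c (I.pos (nat_lit 0) (nat_lit 0)) (xa (xa T0.l10 T0.l10) T0.l10)
  (TrL.c (I.pos (nat_lit 0) (nat_lit 0)) T2.l9
  (TrL.c (I.pos (nat_lit 0) (nat_lit 0)) T0.l9
  (TrL.c (I.pos (nat_lit 0) (nat_lit 0)) T2.l10
  TrL.n)))))))) (by decide +kernel)
theorem bx1_7 : BoxOK sI cl5 cl13 cl5 t2 t0 b1_7 :=
  box_mk (TrL.c (I.pos (nat_lit 0) (nat_lit 0)) (xa (xa (xb (xa T2.l11 T2.l11) T2.l11) T2.l11) T2.l11)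
  (TrL.c (I.pos (nat_lit 0) (nat_lit 0)) (xa T0.l6 T0.l6)
  (TrL.c (I.pos (nat_lit 0) (nat_lit 0)) T2.l8
  (TrL.c (I.pos (nat_lit 0) (nat_lit 0)) T0.l7
  (TrL.c (I.pos (nat_lit 0) (nat_lit 0)) (xa T0.l10 T0.l10)
  (TrL.c (I.pos (nat_lit 0) (nat_lit 0)) T2.l9
  (TrL.c (I.pos (nat_lit 0) (nat_lit 0)) T0.l9
  (TrL.c (I.pos (nat_lit 0) (nat_lit 0)) T2.l10
  TrL.n)))))))) (by decide +kernel)
theorem bx1_8 : BoxOK sI cl5 cl13 cl5 t2 t0 b1_8 :=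
  box_mk (TrL.c (I.pos (nat_lit 0) (nat_lit 0)) (xa T2.l0 (xa T2.l0 (xb T2.l0 T2.l0)))
  (TrL.c (I.pos (nat_lit 0) (nat_lit 0)) (xa T0.l6 T0.l6)
  (TrL.c (I.pos (nat_lit 0) (nat_lit 0)) T2.l8
  (TrL.c (I.pos (nat_lit 0) (nat_lit 0)) T0.l7
  (TrL.c (I.pos (nat_lit 0) (nat_lit 0)) (xa T0.l8 (xb (xa T0.l8 T0.l8) (xa T0.l8 T0.l8)))
  (TrL.c (I.pos (nat_lit 0) (nat_lit 0)) T2.l9
  (TrL.c (I.pos (nat_lit 0) (nat_lit 0)) T0.l9
  (TrL.c (I.pos (nat_lit 0) (nat_lit 0)) T2.l10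
  TrL.n)))))))) (by decide +kernel)
theorem bx1_9 : BoxOK sI cl5 cl13 cl5 t2 t0 b1_9 :=
  box_mk (TrL.c (I.pos (nat_lit 0) (nat_lit 0)) (xa T2.l0 T2.l0)
  (TrL.c (I.pos (nat_lit 0) (nat_lit 0)) T0.l6
  (TrL.c (I.pos (nat_lit 0) (nat_lit 0)) T2.l8
  (TrL.c (I.pos (nat_lit 0) (nat_lit 0)) T0.l7
  (TrL.c (I.pos (nat_lit 0) (nat_lit 0)) (xa T0.l11 T0.l11)
  (TrL.c (I.pos (nat_lit 0) (nat_lit 0)) T2.l9
  (TrL.c (I.pos (nat_lit 0) (nat_lit 0)) T0.l9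
  (TrL.c (I.pos (nat_lit 0) (nat_lit 0)) T2.l10
  TrL.n)))))))) (by decide +kernel)
theorem bx1_10 : BoxOK sI cl5 cl13 cl5 t2 t0 b1_10 :=
  box_mk (TrL.c (I.pos (nat_lit 0) (nat_lit 0)) T2.l0
  (TrL.c (I.pos (nat_lit 0) (nat_lit 0)) T0.l6
  (TrL.c (I.pos (nat_lit 0) (nat_lit 0)) T2.l8
  (TrL.c (I.pos (nat_lit 0) (nat_lit 0)) T0.l7
  (TrL.c (I.pos (nat_lit 0) (nat_lit 0)) T0.l10
  (TrL.c (I.pos (nat_lit 0) (nat_lit 0)) T2.l9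
  (TrL.c (I.pos (nat_lit 0) (nat_lit 0)) T0.l9
  (TrL.c (I.pos (nat_lit 0) (nat_lit 0)) T2.l10
  TrL.n)))))))) (by decide +kernel)
theorem bx1_11 : BoxOK sI cl5 cl13 cl5 t2 t0 b1_11 :=
  box_mk (TrL.c (I.pos (nat_lit 0) (nat_lit 0)) T2.l11
  (TrL.c (I.pos (nat_lit 0) (nat_lit 0)) T0.l6
  (TrL.c (I.pos (nat_lit 0) (nat_lit 0)) T2.l8
  (TrL.c (I.pos (nat_lit 0) (nat_lit 0)) T0.l7
  (TrL.c (I.pos (nat_lit 0) (nat_lit 0)) T0.l10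
  (TrL.c (I.pos (nat_lit 0) (nat_lit 0)) T2.l9
  (TrL.c (I.pos (nat_lit 0) (nat_lit 0)) T0.l9
  (TrL.c (I.pos (nat_lit 0) (nat_lit 0)) T2.l10
  TrL.n)))))))) (by decide +kernel)
theorem bx1_12 : BoxOK sI cl5 cl13 cl5 t2 t0 b1_12 :=
  box_mk (TrL.c (I.pos (nat_lit 0) (nat_lit 0)) (xa T2.l11 T2.l11)
  (TrL.c (I.pos (nat_lit 0) (nat_lit 0)) (xa T0.l6 T0.l6)
  (TrL.c (I.pos (nat_lit 0) (nat_lit 0)) T2.l8
  (TrL.c (I.pos (nat_lit 0) (nat_lit 0)) T0.l7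
  (TrL.c (I.pos (nat_lit 0) (nat_lit 0)) (xa T0.l10 T0.l10)
  (TrL.c (I.pos (nat_lit 0) (nat_lit 0)) T2.l9
  (TrL.c (I.pos (nat_lit 0) (nat_lit 0)) T0.l9
  (TrL.c (I.pos (nat_lit 0) (nat_lit 0)) T2.l10
  TrL.n)))))))) (by decide +kernel)
theorem bx1_13 : BoxOK sI cl5 cl13 cl5 t2 t0 b1_13 :=
  box_mk (TrL.c (I.pos (nat_lit 0) (nat_lit 0)) T2.l11
  (TrL.c (I.pos (nat_lit 0) (nat_lit 0)) T0.l6
  (TrL.c (I.pos (nat_lit 0) (nat_lit 0)) T2.l8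
  (TrL.c (I.pos (nat_lit 0) (nat_lit 0)) T0.l7
  (TrL.c (I.pos (nat_lit 0) (nat_lit 0)) T0.l10
  (TrL.c (I.pos (nat_lit 0) (nat_lit 0)) T2.l9
  (TrL.c (I.pos (nat_lit 0) (nat_lit 0)) T0.l9
  (TrL.c (I.pos (nat_lit 0) (nat_lit 0)) T2.l10
  TrL.n)))))))) (by decide +kernel)
theorem bx1_14 : BoxOK sI cl5 cl13 cl5 t2 t0 b1_14 :=
  box_mk (TrL.c (I.pos (nat_lit 0) (nat_lit 0)) (xa (xb T2.l0 (xa T2.l0 T2.l0)) (xb T2.l0 (xa T2.l0 T2.l0)))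
  (TrL.c (I.pos (nat_lit 0) (nat_lit 0)) T0.l6
  (TrL.c (I.pos (nat_lit 0) (nat_lit 0)) T2.l8
  (TrL.c (I.pos (nat_lit 0) (nat_lit 0)) T0.l7
  (TrL.c (I.pos (nat_lit 0) (nat_lit 0)) T0.l8
  (TrL.c (I.pos (nat_lit 0) (nat_lit 0)) T2.l9
  (TrL.c (I.pos (nat_lit 0) (nat_lit 0)) T0.l9
  (TrL.c (I.pos (nat_lit 0) (nat_lit 0)) T2.l10
  TrL.n)))))))) (by decide +kernel)
theorem bx1_15 : BoxOK sI cl5 cl13 cl5 t2 t0 b1_15 :=
  box_mk (TrL.c (I.pos (nat_lit 0) (nat_lit 0)) (xa (xb T2.l12 T2.l12) (xb T2.l12 T2.l12))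
  (TrL.c (I.pos (nat_lit 0) (nat_lit 0)) T0.l6
  (TrL.c (I.pos (nat_lit 0) (nat_lit 0)) T2.l8
  (TrL.c (I.pos (nat_lit 0) (nat_lit 0)) T0.l7
  (TrL.c (I.pos (nat_lit 0) (nat_lit 0)) T0.l11
  (TrL.c (I.pos (nat_lit 0) (nat_lit 0)) T2.l9
  (TrL.c (I.pos (nat_lit 0) (nat_lit 0)) T0.l9
  (TrL.c (I.pos (nat_lit 0) (nat_lit 0)) T2.l10
  TrL.n)))))))) (by decide +kernel)
theorem sv1 : StarV sI cl5 cl13 cl5 t2 t0 t1 :=
  (bt_n (bt_n (bt_n (bt_n (bt_b bx1_0) (bt_b bx1_1)) (bt_n (bt_b bx1_2) (bt_b bx1_3))) (bt_n (bt_n (bt_b bx1_4) (bt_b bx1_5)) (bt_n (bt_b bx1_6) (bt_b bx1_7)))) (bt_n (bt_n (bt_n (bt_b bx1_8) (bt_b bx1_9)) (bt_n (bt_b bx1_10) (bt_b bx1_11))) (bt_n (bt_n (bt_b bx1_12) (bt_b bx1_13)) (bt_n (bt_b bx1_14) (bt_b bx1_15)))))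
def S1 : StarD := StarD.mk cl5 cl13 cl5 2 0 t1
theorem bx2_0 : BoxOK sI cl13 cl5 cl5 t1 t1 b2_0 :=
  box_mk (TrL.c (I.pos (nat_lit 0) (nat_lit 0)) (xa (xb (xa (xb T1.l0 T1.l0) (xb T1.l0 T1.l0)) (xa (xb (xa T1.l0 T1.l0) (xa T1.l0 T1.l0)) (xb T1.l0 (xa T1.l0 T1.l0)))) (xb (xa T1.l0 T1.l0) (xa (xb T1.l0 (xa T1.l0 T1.l0)) (xb T1.l0 (xa T1.l0 T1.l0)))))
  (TrL.c (I.pos (nat_lit 0) (nat_lit 0)) (xa T1.l1 T1.l1)
  (TrL.c (I.pos (nat_lit 0) (nat_lit 134217730)) (xR T1.l2 (xR T1.l2 (xR T1.l2 T1.l2)))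
  (TrL.c (I.pos (nat_lit 0) (nat_lit 110514882)) (xR T1.l3 (xR T1.l3 T1.l3))
  (TrL.c (I.pos (nat_lit 0) (nat_lit 0)) (xa (xb T1.l4 T1.l4) (xb (xk (xa T1.l4 T1.l4) T1.l4) (xk (xa T1.l4 (xb T1.l4 (xs T1.l4 T1.l4))) (xa (xb T1.l4 T1.l4) (xb T1.l4 (xs T1.l4 (xb T1.l4 T1.l4)))))))
  (TrL.c (I.pos (nat_lit 0) (nat_lit 0)) T1.l5
  (TrL.c (I.mix (nat_lit 8088324) (nat_lit 110514882)) (xR T1.l6 (xR T1.l6 T1.l6))
  (TrL.c (I.mix (nat_lit 8088324) (nat_lit 89478486)) (xR T1.l7 (xR T1.l7 T1.l7))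
  TrL.n)))))))) (by decide +kernel)
theorem bx2_1 : BoxOK sI cl13 cl5 cl5 t1 t1 b2_1 :=
  box_mk (TrL.c (I.pos (nat_lit 0) (nat_lit 0)) (xa (xb T1.l8 T1.l8) (xb T1.l0 T1.l0))
  (TrL.c (I.pos (nat_lit 0) (nat_lit 0)) T1.l1
  (TrL.c (I.pos (nat_lit 0) (nat_lit 134217730)) T1.l2
  (TrL.c (I.pos (nat_lit 0) (nat_lit 110514882)) T1.l3
  (TrL.c (I.pos (nat_lit 0) (nat_lit 0)) (xa T1.l9 (xk T1.l9 T1.l9))
  (TrL.c (I.pos (nat_lit 0) (nat_lit 0)) T1.l5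
  (TrL.c (I.mix (nat_lit 8088324) (nat_lit 110514882)) (xR T1.l6 (xR T1.l6 T1.l6))
  (TrL.c (I.mix (nat_lit 8088324) (nat_lit 89478486)) T1.l3
  TrL.n)))))))) (by decide +kernel)
theorem bx2_2 : BoxOK sI cl13 cl5 cl5 t1 t1 b2_2 :=
  box_mk (TrL.c (I.pos (nat_lit 0) (nat_lit 0)) T1.l1
  (TrL.c (I.pos (nat_lit 0) (nat_lit 0)) T1.l2
  (TrL.c (I.mix (nat_lit 8088324) (nat_lit 110514882)) T1.l3
  (TrL.c (I.mix (nat_lit 8088324) (nat_lit 89478486)) T1.l2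
  TrL.n)))) (by decide +kernel)
theorem bx2_3 : BoxOK sI cl13 cl5 cl5 t1 t1 b2_3 :=
  box_mk (TrL.c (I.pos (nat_lit 0) (nat_lit 0)) (xb (xa T1.l14 T1.l14) (xa (xb T1.l14 T1.l14) (xb T1.l14 T1.l14)))
  (TrL.c (I.pos (nat_lit 0) (nat_lit 0)) T1.l1
  (TrL.c (I.pos (nat_lit 0) (nat_lit 134217730)) (xR T1.l2 (xR T1.l2 T1.l2))
  (TrL.c (I.pos (nat_lit 0) (nat_lit 110514882)) (xR T1.l3 (xR T1.l3 T1.l3))
  (TrL.c (I.pos (nat_lit 0) (nat_lit 0)) (xb T1.l4 T1.l4)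
  (TrL.c (I.pos (nat_lit 0) (nat_lit 0)) T1.l5
  (TrL.c (I.mix (nat_lit 8088324) (nat_lit 110514882)) (xR T1.l6 T1.l6)
  (TrL.c (I.mix (nat_lit 8088324) (nat_lit 89478486)) (xR T1.l7 T1.l7)
  TrL.n)))))))) (by decide +kernel)
theorem bx2_4 : BoxOK sI cl13 cl5 cl5 t1 t1 b2_4 :=
  box_mk (TrL.c (I.pos (nat_lit 0) (nat_lit 0)) (xb T1.l8 T1.l8)
  (TrL.c (I.pos (nat_lit 0) (nat_lit 0)) T1.l1
  (TrL.c (I.pos (nat_lit 0) (nat_lit 134217730)) T1.l2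
  (TrL.c (I.pos (nat_lit 0) (nat_lit 110514882)) T1.l3
  (TrL.c (I.pos (nat_lit 0) (nat_lit 0)) T1.l9
  (TrL.c (I.pos (nat_lit 0) (nat_lit 0)) T1.l5
  (TrL.c (I.mix (nat_lit 8088324) (nat_lit 110514882)) T1.l6
  (TrL.c (I.mix (nat_lit 8088324) (nat_lit 89478486)) T1.l7
  TrL.n)))))))) (by decide +kernel)
theorem bx2_5 : BoxOK sI cl13 cl5 cl5 t1 t1 b2_5 :=
  box_mk (TrL.c (I.pos (nat_lit 0) (nat_lit 0)) (xa T1.l0 T1.l0)
  (TrL.c (I.pos (nat_lit 0) (nat_lit 0)) T1.l1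
  (TrL.c (I.pos (nat_lit 0) (nat_lit 134217730)) T1.l6
  (TrL.c (I.pos (nat_lit 0) (nat_lit 110514882)) T1.l7
  (TrL.c (I.pos (nat_lit 0) (nat_lit 0)) (xk T1.l15 T1.l15)
  (TrL.c (I.pos (nat_lit 0) (nat_lit 0)) T1.l5
  (TrL.c (I.mix (nat_lit 8088324) (nat_lit 110514882)) T1.l6
  (TrL.c (I.mix (nat_lit 8088324) (nat_lit 89478486)) T1.l7
  TrL.n)))))))) (by decide +kernel)
theorem bx2_6 : BoxOK sI cl13 cl5 cl5 t1 t1 b2_6 :=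
  box_mk (TrL.c (I.pos (nat_lit 0) (nat_lit 0)) T1.l8
  (TrL.c (I.pos (nat_lit 0) (nat_lit 0)) T1.l1
  (TrL.c (I.pos (nat_lit 0) (nat_lit 134217730)) T1.l2
  (TrL.c (I.pos (nat_lit 0) (nat_lit 110514882)) T1.l3
  (TrL.c (I.pos (nat_lit 0) (nat_lit 0)) T1.l9
  (TrL.c (I.pos (nat_lit 0) (nat_lit 0)) T1.l5
  (TrL.c (I.mix (nat_lit 8088324) (nat_lit 110514882)) T1.l6
  (TrL.c (I.mix (nat_lit 8088324) (nat_lit 89478486)) T1.l7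
  TrL.n)))))))) (by decide +kernel)
theorem bx2_7 : BoxOK sI cl13 cl5 cl5 t1 t1 b2_7 :=
  box_mk (TrL.c (I.pos (nat_lit 0) (nat_lit 0)) T1.l10
  (TrL.c (I.pos (nat_lit 0) (nat_lit 0)) T1.l11
  (TrL.c (I.mix (nat_lit 8088324) (nat_lit 110514882)) T1.l12
  (TrL.c (I.mix (nat_lit 8088324) (nat_lit 89478486)) T1.l2
  TrL.n)))) (by decide +kernel)
theorem bx2_8 : BoxOK sI cl13 cl5 cl5 t1 t1 b2_8 :=
  box_mk (TrL.c (I.pos (nat_lit 0) (nat_lit 0)) (xa (xb T1.l8 (xa T1.l8 T1.l8)) (xb T1.l8 (xa T1.l8 T1.l8)))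
  (TrL.c (I.pos (nat_lit 0) (nat_lit 0)) T1.l1
  (TrL.c (I.pos (nat_lit 0) (nat_lit 134217730)) T1.l2
  (TrL.c (I.pos (nat_lit 0) (nat_lit 110514882)) T1.l3
  (TrL.c (I.pos (nat_lit 0) (nat_lit 0)) T1.l9
  (TrL.c (I.pos (nat_lit 0) (nat_lit 0)) T1.l5
  (TrL.c (I.mix (nat_lit 8088324) (nat_lit 110514882)) T1.l6
  (TrL.c (I.mix (nat_lit 8088324) (nat_lit 89478486)) T1.l7
  TrL.n)))))))) (by decide +kernel)
theorem bx2_9 : BoxOK sI cl13 cl5 cl5 t1 t1 b2_9 :=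
  box_mk (TrL.c (I.pos (nat_lit 0) (nat_lit 0)) (xb (xa T1.l8 T1.l8) (xa T1.l8 T1.l8))
  (TrL.c (I.pos (nat_lit 0) (nat_lit 0)) T1.l1
  (TrL.c (I.pos (nat_lit 0) (nat_lit 134217730)) T1.l2
  (TrL.c (I.pos (nat_lit 0) (nat_lit 110514882)) (xR T1.l3 T1.l3)
  (TrL.c (I.pos (nat_lit 0) (nat_lit 0)) (xb T1.l9 T1.l9)
  (TrL.c (I.pos (nat_lit 0) (nat_lit 0)) T1.l5
  (TrL.c (I.mix (nat_lit 8088324) (nat_lit 110514882)) T1.l6
  (TrL.c (I.mix (nat_lit 8088324) (nat_lit 89478486)) T1.l7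
  TrL.n)))))))) (by decide +kernel)
theorem bx2_10 : BoxOK sI cl13 cl5 cl5 t1 t1 b2_10 :=
  box_mk (TrL.c (I.pos (nat_lit 0) (nat_lit 0)) T1.l1
  (TrL.c (I.pos (nat_lit 0) (nat_lit 0)) T1.l2
  (TrL.c (I.mix (nat_lit 8088324) (nat_lit 110514882)) T1.l3
  (TrL.c (I.mix (nat_lit 8088324) (nat_lit 89478486)) T1.l2
  TrL.n)))) (by decide +kernel)
theorem bx2_11 : BoxOK sI cl13 cl5 cl5 t1 t1 b2_11 :=
  box_mk (TrL.c (I.pos (nat_lit 0) (nat_lit 0)) (xa (xb T1.l0 (xa T1.l0 T1.l0)) (xb (xa T1.l0 T1.l0) (xa T1.l0 T1.l0)))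
  (TrL.c (I.pos (nat_lit 0) (nat_lit 0)) (xa T1.l1 T1.l1)
  (TrL.c (I.pos (nat_lit 0) (nat_lit 134217730)) (xR T1.l2 T1.l6)
  (TrL.c (I.pos (nat_lit 0) (nat_lit 110514882)) (xR T1.l3 (xR T1.l3 (xR T1.l3 T1.l3)))
  (TrL.c (I.pos (nat_lit 0) (nat_lit 0)) (xa (xb (xk (xa T1.l4 (xb T1.l4 T1.l4)) (xa T1.l4 T1.l4)) (xk T1.l4 T1.l4)) (xb (xk (xa (xb (xk T1.l4 T1.l4) T1.l4) (xb (xk T1.l4 T1.l4) (xk T1.l4 T1.l4))) (xa (xb T1.l4 T1.l4) (xb (xk T1.l4 T1.l4) (xk T1.l4 T1.l4)))) (xk (xa (xb T1.l4 T1.l4) (xb (xk T1.l4 T1.l4) (xk T1.l4 T1.l4))) (xa (xb T1.l4 T1.l4) (xb (xk T1.l4 T1.l4) (xk T1.l4 T1.l4))))))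
  (TrL.c (I.pos (nat_lit 0) (nat_lit 0)) (xa T1.l5 (xk T1.l5 T1.l5))
  (TrL.c (I.mix (nat_lit 8088324) (nat_lit 110514882)) (xR T1.l6 (xR T1.l6 (xR T1.l6 T1.l6)))
  (TrL.c (I.mix (nat_lit 8088324) (nat_lit 89478486)) (xR T1.l7 (xR T1.l7 T1.l7))
  TrL.n)))))))) (by decide +kernel)
theorem bx2_12 : BoxOK sI cl13 cl5 cl5 t1 t1 b2_12 :=
  box_mk (TrL.c (I.pos (nat_lit 0) (nat_lit 0)) (xa (xb (xa T1.l14 T1.l14) (xa T1.l0 T1.l0)) (xb (xa (xb T1.l0 T1.l0) (xb T1.l0 T1.l0)) (xs T1.l0 (xa T1.l0 T1.l0))))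
  (TrL.c (I.pos (nat_lit 0) (nat_lit 0)) T1.l1
  (TrL.c (I.pos (nat_lit 0) (nat_lit 134217730)) (xR T1.l2 T1.l2)
  (TrL.c (I.pos (nat_lit 0) (nat_lit 110514882)) (xR T1.l3 T1.l3)
  (TrL.c (I.pos (nat_lit 0) (nat_lit 0)) (xk (xb T1.l4 (xa T1.l15 (xs T1.l4 T1.l4))) (xb T1.l4 (xa T1.l15 (xs T1.l4 (xb T1.l15 T1.l15)))))
  (TrL.c (I.pos (nat_lit 0) (nat_lit 0)) T1.l5
  (TrL.c (I.mix (nat_lit 8088324) (nat_lit 110514882)) (xR T1.l6 T1.l6)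
  (TrL.c (I.mix (nat_lit 8088324) (nat_lit 89478486)) T1.l7
  TrL.n)))))))) (by decide +kernel)
theorem bx2_13 : BoxOK sI cl13 cl5 cl5 t1 t1 b2_13 :=
  box_mk (TrL.c (I.pos (nat_lit 0) (nat_lit 0)) T1.l0
  (TrL.c (I.pos (nat_lit 0) (nat_lit 0)) T1.l1
  (TrL.c (I.pos (nat_lit 0) (nat_lit 134217730)) T1.l2
  (TrL.c (I.pos (nat_lit 0) (nat_lit 110514882)) T1.l3
  (TrL.c (I.pos (nat_lit 0) (nat_lit 0)) T1.l15
  (TrL.c (I.pos (nat_lit 0) (nat_lit 0)) T1.l5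
  (TrL.c (I.mix (nat_lit 8088324) (nat_lit 110514882)) T1.l6
  (TrL.c (I.mix (nat_lit 8088324) (nat_lit 89478486)) T1.l7
  TrL.n)))))))) (by decide +kernel)
theorem sv2 : StarV sI cl13 cl5 cl5 t1 t1 t2 :=
  (bt_n (bt_n (bt_n (bt_b bx2_0) (bt_n (bt_b bx2_1) (bt_b bx2_2))) (bt_n (bt_n (bt_b bx2_3) (bt_b bx2_4)) (bt_n (bt_b bx2_5) (bt_b bx2_6)))) (bt_n (bt_n (bt_b bx2_7) (bt_n (bt_b bx2_8) (bt_b bx2_9))) (bt_n (bt_n (bt_b bx2_10) (bt_b bx2_11)) (bt_n (bt_b bx2_12) (bt_b bx2_13)))))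
def S2 : StarD := StarD.mk cl13 cl5 cl5 1 1 t2
def G : List StarD := [S0, S1, S2]
theorem so0 : StarOK sI G S0 :=
  star_mk (by decide) (by decide) rfl rfl rfl rfl rfl rfl (rfl : _ = t0) (rfl : _ = t2)
  (st_mk (Pth.l (Pth.l (Pth.l Pth.z))) (nat_lit 246659146) (nat_lit 248158415) (by decide +kernel))
  (st_mk (Pth.l (Pth.l (Pth.l Pth.z))) (nat_lit 284291646) (nat_lit 286306077) (by decide +kernel))
  (st_mk (Pth.l (Pth.l (Pth.l Pth.z))) (nat_lit 328243225) (nat_lit 330967273) (by decide +kernel)) sv0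
theorem so1 : StarOK sI G S1 :=
  star_mk (by decide) (by decide) rfl rfl rfl rfl rfl rfl (rfl : _ = t2) (rfl : _ = t0)
  (st_mk (Pth.l (Pth.l (Pth.l (Pth.l Pth.z)))) (nat_lit 97965370) (nat_lit 117088260) (by decide +kernel))
  (st_mk (Pth.l (Pth.l (Pth.l (Pth.l Pth.z)))) (nat_lit 134747232) (nat_lit 154386126) (by decide +kernel))
  (st_mk (Pth.l (Pth.l (Pth.l (Pth.l Pth.z)))) (nat_lit 177985541) (nat_lit 198332515) (by decide +kernel)) sv1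
theorem so2 : StarOK sI G S2 :=
  star_mk (by decide) (by decide) rfl rfl rfl rfl rfl rfl (rfl : _ = t1) (rfl : _ = t1)
  (st_mk (Pth.l (Pth.l (Pth.l Pth.z))) (nat_lit 238062708) (nat_lit 240196069) (by decide +kernel))
  (st_mk (Pth.l (Pth.l (Pth.l Pth.z))) (nat_lit 272959317) (nat_lit 275596947) (by decide +kernel))
  (st_mk (Pth.l (Pth.l (Pth.l Pth.z))) (nat_lit 313224636) (nat_lit 316531748) (by decide +kernel)) sv2
theorem ok : GroupOK (nat_lit 209321984) (nat_lit 268435456) G := grp_mk (allS_c so0 (allS_c so1 (allS_c so2 allS_n)))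
theorem cov : GCov G cl5 cl5 cl13 := cov_mk
  ⟨0, by decide, rfl, rfl, rfl⟩ ⟨1, by decide, rfl, rfl, rfl⟩ ⟨0, by decide, rfl, rfl, rfl⟩ ⟨1, by decide, rfl, rfl, rfl⟩ ⟨2, by decide, rfl, rfl, rfl⟩ ⟨2, by decide, rfl, rfl, rfl⟩
end Q226_3

namespace Q233_0
def sI : I := I.pos (nat_lit 0) (nat_lit 91291648)
def b0_0 : Bx := Bx.mk (St.mk (I.pos (nat_lit 160153600) (nat_lit 267763712)) (I.mix (nat_lit 8716288) (nat_lit 71843840)) (I.mix (nat_lit 52248576) (nat_lit 101875712)) (I.pos (nat_lit 188825600) (nat_lit 367067136)) (I.mix (nat_lit 131678208) (nat_lit 85606400)) (I.mix (nat_lit 110018560) (nat_lit 74465280)) (I.mix (nat_lit 168984576) (nat_lit 119832576)))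
  false (nat_lit 0)
def b0_1 : Bx := Bx.mk (St.mk (I.mix (nat_lit 27328512) (nat_lit 92635136)) (I.mix (nat_lit 2670592) (nat_lit 42090496)) (I.mix (nat_lit 15024128) (nat_lit 13025280)) (I.pos (nat_lit 82919424) (nat_lit 123076608)) (I.mix (nat_lit 39075840) (nat_lit 37208064)) (I.mix (nat_lit 39682048) (nat_lit 36519936)) (I.mix (nat_lit 27312128) (nat_lit 22249472)))
  false (nat_lit 0)
def b0_2 : Bx := Bx.mk (St.mk (I.pos (nat_lit 83935232) (nat_lit 127434752)) (I.mix (nat_lit 65798144) (nat_lit 2949120)) (I.neg (nat_lit 10731520) (nat_lit 60063744)) (I.pos (nat_lit 116654080) (nat_lit 150437888)) (I.mix (nat_lit 88276992) (nat_lit 32636928)) (I.mix (nat_lit 59195392) (nat_lit 87179264)) (I.mix (nat_lit 43302912) (nat_lit 61341696)))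
  false (nat_lit 0)
def b0_3 : Bx := Bx.mk (St.mk (I.mix (nat_lit 44548096) (nat_lit 27230208)) (I.mix (nat_lit 35586048) (nat_lit 2129920)) (I.mix (nat_lit 12042240) (nat_lit 475136)) (I.pos (nat_lit 83460096) (nat_lit 100401152)) (I.mix (nat_lit 32555008) (nat_lit 23724032)) (I.mix (nat_lit 27344896) (nat_lit 32735232)) (I.mix (nat_lit 12025856) (nat_lit 9568256)))
  false (nat_lit 0)
def b0_4 : Bx := Bx.mk (St.mk (I.mix (nat_lit 48660480) (nat_lit 2867200)) (I.mix (nat_lit 2473984) (nat_lit 12976128)) (I.neg (nat_lit 8667136) (nat_lit 14942208)) (I.pos (nat_lit 89047040) (nat_lit 99827712)) (I.mix (nat_lit 7536640) (nat_lit 12632064)) (I.mix (nat_lit 9355264) (nat_lit 8552448)) (I.mix (nat_lit 3309568) (nat_lit 3686400)))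
  false (nat_lit 0)
def b0_5 : Bx := Bx.mk (St.mk (I.pos (nat_lit 89112576) (nat_lit 162152448)) (I.neg (nat_lit 7045120) (nat_lit 69025792)) (I.neg (nat_lit 6569984) (nat_lit 65290240)) (I.pos (nat_lit 128466944) (nat_lit 190578688)) (I.mix (nat_lit 91766784) (nat_lit 48988160)) (I.mix (nat_lit 47906816) (nat_lit 72843264)) (I.mix (nat_lit 38617088) (nat_lit 64208896)))
  false (nat_lit 0)
def b0_6 : Bx := Bx.mk (St.mk (I.mix (nat_lit 29999104) (nat_lit 46825472)) (I.mix (nat_lit 35323904) (nat_lit 5799936)) (I.neg (nat_lit 1409024) (nat_lit 15073280)) (I.pos (nat_lit 83066880) (nat_lit 100417536)) (I.mix (nat_lit 32456704) (nat_lit 30556160)) (I.mix (nat_lit 27312128) (nat_lit 36945920)) (I.mix (nat_lit 12320768) (nat_lit 13680640)))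
  false (nat_lit 0)
def b0_7 : Bx := Bx.mk (St.mk (I.mix (nat_lit 46825472) (nat_lit 74530816)) (I.mix (nat_lit 11173888) (nat_lit 37945344)) (I.mix (nat_lit 15073280) (nat_lit 10223616)) (I.pos (nat_lit 83066880) (nat_lit 110460928)) (I.mix (nat_lit 37142528) (nat_lit 32407552)) (I.mix (nat_lit 43106304) (nat_lit 29261824)) (I.mix (nat_lit 15269888) (nat_lit 13664256)))
  false (nat_lit 0)
def b0_8 : Bx := Bx.mk (St.mk (I.pos (nat_lit 138510336) (nat_lit 213565440)) (I.mix (nat_lit 36814848) (nat_lit 74579968)) (I.mix (nat_lit 36012032) (nat_lit 96206848)) (I.pos (nat_lit 165560320) (nat_lit 261423104)) (I.mix (nat_lit 152322048) (nat_lit 61669376)) (I.mix (nat_lit 180797440) (nat_lit 116424704)) (I.mix (nat_lit 183468032) (nat_lit 114769920)))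
  false (nat_lit 0)
def b0_9 : Bx := Bx.mk (St.mk (I.pos (nat_lit 83623936) (nat_lit 91750400)) (I.mix (nat_lit 2686976) (nat_lit 9273344)) (I.neg (nat_lit 6619136) (nat_lit 14958592)) (I.pos (nat_lit 116523008) (nat_lit 122519552)) (I.mix (nat_lit 5701632) (nat_lit 10108928)) (I.mix (nat_lit 5947392) (nat_lit 3670016)) (I.mix (nat_lit 4866048) (nat_lit 2637824)))
  false (nat_lit 0)
def t0 : BTr := (BTr.n (BTr.n (BTr.n (BTr.b b0_0) (BTr.b b0_1)) (BTr.n (BTr.b b0_2) (BTr.n (BTr.b b0_3) (BTr.b b0_4)))) (BTr.n (BTr.n (BTr.b b0_5) (BTr.b b0_6)) (BTr.n (BTr.b b0_7) (BTr.n (BTr.b b0_8) (BTr.b b0_9)))))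
namespace T0
def l0 : Tr := Tr.L (Pth.l (Pth.l (Pth.l Pth.z)))
def l1 : Tr := Tr.L (Pth.l (Pth.l (Pth.r Pth.z)))
def l2 : Tr := Tr.L (Pth.l (Pth.r (Pth.l Pth.z)))
def l3 : Tr := Tr.L (Pth.l (Pth.r (Pth.r (Pth.l Pth.z))))
def l4 : Tr := Tr.L (Pth.l (Pth.r (Pth.r (Pth.r Pth.z))))
def l5 : Tr := Tr.L (Pth.r (Pth.l (Pth.l Pth.z)))
def l6 : Tr := Tr.L (Pth.r (Pth.l (Pth.r Pth.z)))
def l7 : Tr := Tr.L (Pth.r (Pth.r (Pth.l Pth.z)))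
def l8 : Tr := Tr.L (Pth.r (Pth.r (Pth.r (Pth.l Pth.z))))
def l9 : Tr := Tr.L (Pth.r (Pth.r (Pth.r (Pth.r Pth.z))))
end T0
def b1_0 : Bx := Bx.mk (St.mk (I.pos (nat_lit 158105600) (nat_lit 286588928)) (I.mix (nat_lit 33947648) (nat_lit 83001344)) (I.mix (nat_lit 113508352) (nat_lit 109707264)) (I.pos (nat_lit 241139712) (nat_lit 456441856)) (I.mix (nat_lit 122650624) (nat_lit 102596608)) (I.mix (nat_lit 131465216) (nat_lit 100417536)) (I.mix (nat_lit 189759488) (nat_lit 133316608)))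
  false (nat_lit 10564417)
def b1_1 : Bx := Bx.mk (St.mk (I.pos (nat_lit 77611008) (nat_lit 152928256)) (I.neg (nat_lit 7897088) (nat_lit 78774272)) (I.neg (nat_lit 737280) (nat_lit 66781184)) (I.pos (nat_lit 170082304) (nat_lit 231833600)) (I.mix (nat_lit 80642048) (nat_lit 56311808)) (I.mix (nat_lit 49577984) (nat_lit 78266368)) (I.mix (nat_lit 45957120) (nat_lit 69844992)))
  false (nat_lit 0)
def b1_2 : Bx := Bx.mk (St.mk (I.pos (nat_lit 24100864) (nat_lit 73515008)) (I.mix (nat_lit 9486336) (nat_lit 50724864)) (I.mix (nat_lit 22052864) (nat_lit 5652480)) (I.pos (nat_lit 143294464) (nat_lit 162971648)) (I.mix (nat_lit 30654464) (nat_lit 46612480)) (I.mix (nat_lit 50593792) (nat_lit 31588352)) (I.mix (nat_lit 27246592) (nat_lit 15925248)))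
  false (nat_lit 0)
def b1_3 : Bx := Bx.mk (St.mk (I.mix (nat_lit 33980416) (nat_lit 9502720)) (I.mix (nat_lit 44695552) (nat_lit 8683520)) (I.mix (nat_lit 1622016) (nat_lit 2375680)) (I.pos (nat_lit 142278656) (nat_lit 149618688)) (I.mix (nat_lit 24330240) (nat_lit 39665664)) (I.mix (nat_lit 26574848) (nat_lit 45170688)) (I.mix (nat_lit 5193728) (nat_lit 5193728)))
  true (nat_lit 0)
def b1_4 : Bx := Bx.mk (St.mk (I.pos (nat_lit 123338752) (nat_lit 203177984)) (I.mix (nat_lit 40648704) (nat_lit 75350016)) (I.mix (nat_lit 31522816) (nat_lit 100024320)) (I.pos (nat_lit 201670656) (nat_lit 293961728)) (I.mix (nat_lit 144080896) (nat_lit 61374464)) (I.mix (nat_lit 165609472) (nat_lit 93962240)) (I.mix (nat_lit 163938304) (nat_lit 96174080)))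
  false (nat_lit 0)
def b1_5 : Bx := Bx.mk (St.mk (I.pos (nat_lit 52609024) (nat_lit 103612416)) (I.mix (nat_lit 69304320) (nat_lit 11042816)) (I.neg (nat_lit 10485760) (nat_lit 55934976)) (I.pos (nat_lit 151879680) (nat_lit 184975360)) (I.mix (nat_lit 81035264) (nat_lit 32112640)) (I.mix (nat_lit 46628864) (nat_lit 85278720)) (I.mix (nat_lit 33898496) (nat_lit 49856512)))
  false (nat_lit 0)
def b1_6 : Bx := Bx.mk (St.mk (I.mix (nat_lit 9519104) (nat_lit 33980416)) (I.mix (nat_lit 10125312) (nat_lit 44695552)) (I.mix (nat_lit 1622016) (nat_lit 2375680)) (I.pos (nat_lit 142278656) (nat_lit 149618688)) (I.mix (nat_lit 39665664) (nat_lit 24330240)) (I.mix (nat_lit 45170688) (nat_lit 26574848)) (I.mix (nat_lit 5193728) (nat_lit 5193728)))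
  false (nat_lit 0)
def b1_7 : Bx := Bx.mk (St.mk (I.neg (nat_lit 24100864) (nat_lit 73515008)) (I.mix (nat_lit 50724864) (nat_lit 12484608)) (I.mix (nat_lit 23314432) (nat_lit 5652480)) (I.pos (nat_lit 143343616) (nat_lit 162971648)) (I.mix (nat_lit 46612480) (nat_lit 30654464)) (I.mix (nat_lit 31588352) (nat_lit 50593792)) (I.mix (nat_lit 27246592) (nat_lit 15925248)))
  true (nat_lit 0)
def t1 : BTr := (BTr.n (BTr.n (BTr.n (BTr.b b1_0) (BTr.b b1_1)) (BTr.n (BTr.b b1_2) (BTr.b b1_3))) (BTr.n (BTr.n (BTr.b b1_4) (BTr.b b1_5)) (BTr.n (BTr.b b1_6) (BTr.b b1_7))))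
namespace T1
def l0 : Tr := Tr.L (Pth.l (Pth.l (Pth.l Pth.z)))
def l1 : Tr := Tr.L (Pth.l (Pth.l (Pth.r Pth.z)))
def l2 : Tr := Tr.L (Pth.l (Pth.r (Pth.l Pth.z)))
def l3 : Tr := Tr.L (Pth.l (Pth.r (Pth.r Pth.z)))
def l4 : Tr := Tr.L (Pth.r (Pth.l (Pth.l Pth.z)))
def l5 : Tr := Tr.L (Pth.r (Pth.l (Pth.r Pth.z)))
def l6 : Tr := Tr.L (Pth.r (Pth.r (Pth.l Pth.z)))
def l7 : Tr := Tr.L (Pth.r (Pth.r (Pth.r Pth.z)))
end T1
def b2_0 : Bx := Bx.mk (St.mk (I.pos (nat_lit 156041216) (nat_lit 282312704)) (I.mix (nat_lit 32178176) (nat_lit 71319552)) (I.mix (nat_lit 78348288) (nat_lit 118079488)) (I.pos (nat_lit 187842560) (nat_lit 393658368)) (I.mix (nat_lit 135299072) (nat_lit 95322112)) (I.mix (nat_lit 125419520) (nat_lit 98713600)) (I.mix (nat_lit 187809792) (nat_lit 128253952)))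
  false (nat_lit 188152)
def b2_1 : Bx := Bx.mk (St.mk (I.pos (nat_lit 96223232) (nat_lit 158351360)) (I.neg (nat_lit 9846784) (nat_lit 71090176)) (I.neg (nat_lit 2605056) (nat_lit 57278464)) (I.pos (nat_lit 132218880) (nat_lit 185237504)) (I.mix (nat_lit 83673088) (nat_lit 43204608)) (I.mix (nat_lit 47267840) (nat_lit 65503232)) (I.mix (nat_lit 41123840) (nat_lit 57393152)))
  false (nat_lit 0)
def b2_2 : Bx := Bx.mk (St.mk (I.mix (nat_lit 27901952) (nat_lit 41467904)) (I.mix (nat_lit 36143104) (nat_lit 1900544)) (I.mix (nat_lit 7929856) (nat_lit 4489216)) (I.pos (nat_lit 83492864) (nat_lit 100188160)) (I.mix (nat_lit 27623424) (nat_lit 28934144)) (I.mix (nat_lit 27607040) (nat_lit 31047680)) (I.mix (nat_lit 10518528) (nat_lit 10944512)))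
  false (nat_lit 0)
def b2_3 : Bx := Bx.mk (St.mk (I.pos (nat_lit 145752064) (nat_lit 210141184)) (I.mix (nat_lit 30539776) (nat_lit 76103680)) (I.mix (nat_lit 13139968) (nat_lit 113688576)) (I.pos (nat_lit 172933120) (nat_lit 253820928)) (I.mix (nat_lit 161792000) (nat_lit 62717952)) (I.mix (nat_lit 185204736) (nat_lit 122699776)) (I.mix (nat_lit 189284352) (nat_lit 121372672)))
  false (nat_lit 0)
def b2_4 : Bx := Bx.mk (St.mk (I.mix (nat_lit 44548096) (nat_lit 69287936)) (I.mix (nat_lit 5210112) (nat_lit 38780928)) (I.mix (nat_lit 8192000) (nat_lit 17072128)) (I.pos (nat_lit 83492864) (nat_lit 108953600)) (I.mix (nat_lit 37289984) (nat_lit 27623424)) (I.mix (nat_lit 37175296) (nat_lit 26492928)) (I.mix (nat_lit 13697024) (nat_lit 10878976)))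
  false (nat_lit 0)
def b2_5 : Bx := Bx.mk (St.mk (I.mix (nat_lit 48873472) (nat_lit 53575680)) (I.mix (nat_lit 15384576) (nat_lit 6471680)) (I.mix (nat_lit 868352) (nat_lit 7389184)) (I.pos (nat_lit 87769088) (nat_lit 99614720)) (I.mix (nat_lit 8667136) (nat_lit 11763712)) (I.mix (nat_lit 8519680) (nat_lit 8699904)) (I.mix (nat_lit 3620864) (nat_lit 3620864)))
  false (nat_lit 0)
def b2_6 : Bx := Bx.mk (St.mk (I.mix (nat_lit 31834112) (nat_lit 95911936)) (I.mix (nat_lit 10272768) (nat_lit 40910848)) (I.mix (nat_lit 11698176) (nat_lit 21528576)) (I.pos (nat_lit 82280448) (nat_lit 124960768)) (I.mix (nat_lit 44318720) (nat_lit 38305792)) (I.mix (nat_lit 45744128) (nat_lit 34045952)) (I.mix (nat_lit 29605888) (nat_lit 23412736)))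
  false (nat_lit 0)
def b2_7 : Bx := Bx.mk (St.mk (I.pos (nat_lit 80887808) (nat_lit 129548288)) (I.mix (nat_lit 65519616) (nat_lit 8372224)) (I.mix (nat_lit 49790976) (nat_lit 737280)) (I.pos (nat_lit 115097600) (nat_lit 151699456)) (I.mix (nat_lit 82788352) (nat_lit 33783808)) (I.mix (nat_lit 59883520) (nat_lit 85819392)) (I.mix (nat_lit 42958848) (nat_lit 57753600)))
  false (nat_lit 0)
def b2_8 : Bx := Bx.mk (St.mk (I.mix (nat_lit 46972928) (nat_lit 28901376)) (I.mix (nat_lit 34996224) (nat_lit 8126464)) (I.mix (nat_lit 6537216) (nat_lit 7340032)) (I.pos (nat_lit 83296256) (nat_lit 100171776)) (I.mix (nat_lit 32358400) (nat_lit 28344320)) (I.mix (nat_lit 27148288) (nat_lit 36143104)) (I.mix (nat_lit 13451264) (nat_lit 10682368)))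
  false (nat_lit 0)
def b2_9 : Bx := Bx.mk (St.mk (I.pos (nat_lit 144244736) (nat_lit 157220864)) (I.neg (nat_lit 17317888) (nat_lit 35618816)) (I.neg (nat_lit 2899968) (nat_lit 21823488)) (I.pos (nat_lit 171556864) (nat_lit 183828480)) (I.mix (nat_lit 17481728) (nat_lit 12959744)) (I.mix (nat_lit 9502720) (nat_lit 11485184)) (I.mix (nat_lit 9551872) (nat_lit 11698176)))
  false (nat_lit 0)
def t2 : BTr := (BTr.n (BTr.n (BTr.n (BTr.b b2_0) (BTr.b b2_1)) (BTr.n (BTr.b b2_2) (BTr.n (BTr.b b2_3) (BTr.b b2_4)))) (BTr.n (BTr.n (BTr.b b2_5) (BTr.b b2_6)) (BTr.n (BTr.b b2_7) (BTr.n (BTr.b b2_8) (BTr.b b2_9)))))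
namespace T2
def l0 : Tr := Tr.L (Pth.l (Pth.l (Pth.l Pth.z)))
def l1 : Tr := Tr.L (Pth.l (Pth.l (Pth.r Pth.z)))
def l2 : Tr := Tr.L (Pth.l (Pth.r (Pth.l Pth.z)))
def l3 : Tr := Tr.L (Pth.l (Pth.r (Pth.r (Pth.l Pth.z))))
def l4 : Tr := Tr.L (Pth.l (Pth.r (Pth.r (Pth.r Pth.z))))
def l5 : Tr := Tr.L (Pth.r (Pth.l (Pth.l Pth.z)))
def l6 : Tr := Tr.L (Pth.r (Pth.l (Pth.r Pth.z)))
def l7 : Tr := Tr.L (Pth.r (Pth.r (Pth.l Pth.z)))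
def l8 : Tr := Tr.L (Pth.r (Pth.r (Pth.r (Pth.l Pth.z))))
def l9 : Tr := Tr.L (Pth.r (Pth.r (Pth.r (Pth.r Pth.z))))
end T2
theorem bx0_0 : BoxOK sI cl5 cl6 cl6 t1 t1 b0_0 :=
  box_mk (TrL.c (I.pos (nat_lit 0) (nat_lit 0)) (xa T1.l0 T1.l0)
  (TrL.c (I.pos (nat_lit 0) (nat_lit 0)) T1.l1
  (TrL.c (I.pos (nat_lit 0) (nat_lit 0)) T1.l2
  (TrL.c (I.pos (nat_lit 0) (nat_lit 0)) T1.l3
  (TrL.c (I.pos (nat_lit 0) (nat_lit 0)) T1.l4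
  (TrL.c (I.pos (nat_lit 0) (nat_lit 0)) T1.l5
  (TrL.c (I.pos (nat_lit 0) (nat_lit 0)) T1.l6
  (TrL.c (I.pos (nat_lit 0) (nat_lit 0)) T1.l7
  TrL.n)))))))) (by decide +kernel)
theorem bx0_1 : BoxOK sI cl5 cl6 cl6 t1 t1 b0_1 :=
  box_mk (TrL.c (I.pos (nat_lit 0) (nat_lit 0)) T1.l0
  (TrL.c (I.pos (nat_lit 0) (nat_lit 0)) T1.l1
  (TrL.c (I.pos (nat_lit 0) (nat_lit 0)) T1.l2
  (TrL.c (I.pos (nat_lit 0) (nat_lit 0)) T1.l3
  (TrL.c (I.pos (nat_lit 0) (nat_lit 0)) T1.l4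
  (TrL.c (I.pos (nat_lit 0) (nat_lit 0)) T1.l5
  (TrL.c (I.pos (nat_lit 0) (nat_lit 0)) T1.l6
  (TrL.c (I.pos (nat_lit 0) (nat_lit 0)) T1.l7
  TrL.n)))))))) (by decide +kernel)
theorem bx0_2 : BoxOK sI cl5 cl6 cl6 t1 t1 b0_2 :=
  box_mk (TrL.c (I.pos (nat_lit 0) (nat_lit 0)) T1.l0
  (TrL.c (I.pos (nat_lit 0) (nat_lit 0)) T1.l1
  (TrL.c (I.pos (nat_lit 0) (nat_lit 0)) T1.l2
  (TrL.c (I.pos (nat_lit 0) (nat_lit 0)) T1.l3
  (TrL.c (I.pos (nat_lit 0) (nat_lit 0)) T1.l4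
  (TrL.c (I.pos (nat_lit 0) (nat_lit 0)) T1.l5
  (TrL.c (I.pos (nat_lit 0) (nat_lit 0)) T1.l6
  (TrL.c (I.pos (nat_lit 0) (nat_lit 0)) T1.l7
  TrL.n)))))))) (by decide +kernel)
theorem bx0_3 : BoxOK sI cl5 cl6 cl6 t1 t1 b0_3 :=
  box_mk (TrL.c (I.pos (nat_lit 0) (nat_lit 0)) (xa T1.l0 T1.l0)
  (TrL.c (I.pos (nat_lit 0) (nat_lit 0)) T1.l4
  (TrL.c (I.pos (nat_lit 0) (nat_lit 0)) T1.l5
  (TrL.c (I.pos (nat_lit 0) (nat_lit 0)) T1.l6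
  (TrL.c (I.pos (nat_lit 0) (nat_lit 0)) T1.l4
  (TrL.c (I.pos (nat_lit 0) (nat_lit 0)) T1.l2
  (TrL.c (I.pos (nat_lit 0) (nat_lit 0)) T1.l6
  (TrL.c (I.pos (nat_lit 0) (nat_lit 0)) T1.l7
  TrL.n)))))))) (by decide +kernel)
theorem bx0_4 : BoxOK sI cl5 cl6 cl6 t1 t1 b0_4 :=
  box_mk (TrL.c (I.pos (nat_lit 0) (nat_lit 0)) T1.l0
  (TrL.c (I.pos (nat_lit 0) (nat_lit 0)) T1.l1
  (TrL.c (I.pos (nat_lit 0) (nat_lit 0)) T1.l2
  (TrL.c (I.pos (nat_lit 0) (nat_lit 0)) T1.l3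
  (TrL.c (I.pos (nat_lit 0) (nat_lit 0)) T1.l4
  (TrL.c (I.pos (nat_lit 0) (nat_lit 0)) T1.l5
  (TrL.c (I.pos (nat_lit 0) (nat_lit 0)) T1.l6
  (TrL.c (I.pos (nat_lit 0) (nat_lit 0)) T1.l7
  TrL.n)))))))) (by decide +kernel)
theorem bx0_5 : BoxOK sI cl5 cl6 cl6 t1 t1 b0_5 :=
  box_mk (TrL.c (I.pos (nat_lit 0) (nat_lit 0)) T1.l0
  (TrL.c (I.pos (nat_lit 0) (nat_lit 0)) T1.l1
  (TrL.c (I.pos (nat_lit 0) (nat_lit 0)) T1.l2
  (TrL.c (I.pos (nat_lit 0) (nat_lit 0)) T1.l3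
  (TrL.c (I.pos (nat_lit 0) (nat_lit 0)) T1.l4
  (TrL.c (I.pos (nat_lit 0) (nat_lit 0)) T1.l5
  (TrL.c (I.pos (nat_lit 0) (nat_lit 0)) T1.l6
  (TrL.c (I.pos (nat_lit 0) (nat_lit 0)) T1.l7
  TrL.n)))))))) (by decide +kernel)
theorem bx0_6 : BoxOK sI cl5 cl6 cl6 t1 t1 b0_6 :=
  box_mk (TrL.c (I.pos (nat_lit 0) (nat_lit 0)) T1.l0
  (TrL.c (I.pos (nat_lit 0) (nat_lit 0)) T1.l4
  (TrL.c (I.pos (nat_lit 0) (nat_lit 0)) T1.l5
  (TrL.c (I.pos (nat_lit 0) (nat_lit 0)) T1.l3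
  (TrL.c (I.pos (nat_lit 0) (nat_lit 0)) T1.l4
  (TrL.c (I.pos (nat_lit 0) (nat_lit 0)) T1.l5
  (TrL.c (I.pos (nat_lit 0) (nat_lit 0)) T1.l6
  (TrL.c (I.pos (nat_lit 0) (nat_lit 0)) T1.l7
  TrL.n)))))))) (by decide +kernel)
theorem bx0_7 : BoxOK sI cl5 cl6 cl6 t1 t1 b0_7 :=
  box_mk (TrL.c (I.pos (nat_lit 0) (nat_lit 0)) (xa T1.l0 T1.l0)
  (TrL.c (I.pos (nat_lit 0) (nat_lit 0)) T1.l1
  (TrL.c (I.pos (nat_lit 0) (nat_lit 0)) T1.l2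
  (TrL.c (I.pos (nat_lit 0) (nat_lit 0)) T1.l3
  (TrL.c (I.pos (nat_lit 0) (nat_lit 0)) T1.l4
  (TrL.c (I.pos (nat_lit 0) (nat_lit 0)) T1.l5
  (TrL.c (I.pos (nat_lit 0) (nat_lit 0)) T1.l6
  (TrL.c (I.pos (nat_lit 0) (nat_lit 0)) T1.l7
  TrL.n)))))))) (by decide +kernel)
theorem bx0_8 : BoxOK sI cl5 cl6 cl6 t1 t1 b0_8 :=
  box_mk (TrL.c (I.pos (nat_lit 0) (nat_lit 0)) (xb T1.l0 T1.l0)
  (TrL.c (I.pos (nat_lit 0) (nat_lit 0)) T1.l1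
  (TrL.c (I.pos (nat_lit 0) (nat_lit 0)) T1.l2
  (TrL.c (I.pos (nat_lit 0) (nat_lit 0)) T1.l3
  (TrL.c (I.pos (nat_lit 0) (nat_lit 0)) T1.l4
  (TrL.c (I.pos (nat_lit 0) (nat_lit 0)) T1.l5
  (TrL.c (I.pos (nat_lit 0) (nat_lit 0)) T1.l6
  (TrL.c (I.pos (nat_lit 0) (nat_lit 0)) T1.l7
  TrL.n)))))))) (by decide +kernel)
theorem bx0_9 : BoxOK sI cl5 cl6 cl6 t1 t1 b0_9 :=
  box_mk (TrL.c (I.pos (nat_lit 0) (nat_lit 0)) T1.l0
  (TrL.c (I.pos (nat_lit 0) (nat_lit 0)) T1.l1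
  (TrL.c (I.pos (nat_lit 0) (nat_lit 0)) T1.l2
  (TrL.c (I.pos (nat_lit 0) (nat_lit 0)) T1.l3
  (TrL.c (I.pos (nat_lit 0) (nat_lit 0)) T1.l4
  (TrL.c (I.pos (nat_lit 0) (nat_lit 0)) T1.l5
  (TrL.c (I.pos (nat_lit 0) (nat_lit 0)) T1.l6
  (TrL.c (I.pos (nat_lit 0) (nat_lit 0)) T1.l7
  TrL.n)))))))) (by decide +kernel)
theorem sv0 : StarV sI cl5 cl6 cl6 t1 t1 t0 :=
  (bt_n (bt_n (bt_n (bt_b bx0_0) (bt_b bx0_1)) (bt_n (bt_b bx0_2) (bt_n (bt_b bx0_3) (bt_b bx0_4)))) (bt_n (bt_n (bt_b bx0_5) (bt_b bx0_6)) (bt_n (bt_b bx0_7) (bt_n (bt_b bx0_8) (bt_b bx0_9)))))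
def S0 : StarD := StarD.mk cl5 cl6 cl6 1 1 t0
theorem bx1_0 : BoxOK sI cl6 cl5 cl6 t0 t2 b1_0 :=
  box_mk (TrL.c (I.pos (nat_lit 0) (nat_lit 0)) (xa (xb T0.l0 T0.l0) T0.l0)
  (TrL.c (I.pos (nat_lit 0) (nat_lit 0)) T2.l1
  (TrL.c (I.pos (nat_lit 0) (nat_lit 89480386)) (xR T0.l1 T0.l1)
  (TrL.c (I.pos (nat_lit 0) (nat_lit 41530880)) T2.l2
  (TrL.c (I.pos (nat_lit 0) (nat_lit 0)) (xa T2.l3 T2.l3)
  (TrL.c (I.pos (nat_lit 0) (nat_lit 0)) T0.l2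
  (TrL.c (I.mix (nat_lit 41527258) (nat_lit 41530880)) (xR T2.l4 T2.l6)
  (TrL.c (I.mix (nat_lit 41527258) (nat_lit 4274)) T0.l3
  TrL.n)))))))) (by decide +kernel)
theorem bx1_1 : BoxOK sI cl6 cl5 cl6 t0 t2 b1_1 :=
  box_mk (TrL.c (I.pos (nat_lit 0) (nat_lit 0)) T0.l0
  (TrL.c (I.pos (nat_lit 0) (nat_lit 0)) T2.l1
  (TrL.c (I.pos (nat_lit 0) (nat_lit 89480386)) (xR T0.l1 T0.l1)
  (TrL.c (I.pos (nat_lit 0) (nat_lit 41530880)) T2.l2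
  (TrL.c (I.pos (nat_lit 0) (nat_lit 0)) T2.l3
  (TrL.c (I.pos (nat_lit 0) (nat_lit 0)) T0.l2
  (TrL.c (I.mix (nat_lit 41527258) (nat_lit 41530880)) T2.l4
  (TrL.c (I.mix (nat_lit 41527258) (nat_lit 4274)) T0.l3
  TrL.n)))))))) (by decide +kernel)
theorem bx1_2 : BoxOK sI cl6 cl5 cl6 t0 t2 b1_2 :=
  box_mk (TrL.c (I.pos (nat_lit 0) (nat_lit 0)) T0.l0
  (TrL.c (I.pos (nat_lit 0) (nat_lit 0)) T2.l1
  (TrL.c (I.pos (nat_lit 0) (nat_lit 89480386)) T0.l1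
  (TrL.c (I.pos (nat_lit 0) (nat_lit 41530880)) T2.l2
  (TrL.c (I.pos (nat_lit 0) (nat_lit 0)) T2.l3
  (TrL.c (I.pos (nat_lit 0) (nat_lit 0)) T0.l2
  (TrL.c (I.mix (nat_lit 41527258) (nat_lit 41530880)) T2.l4
  (TrL.c (I.mix (nat_lit 41527258) (nat_lit 4274)) T0.l3
  TrL.n)))))))) (by decide +kernel)
theorem bx1_3 : BoxOK sI cl6 cl5 cl6 t0 t2 b1_3 :=
  box_mk (TrL.c (I.pos (nat_lit 0) (nat_lit 0)) T2.l1
  (TrL.c (I.pos (nat_lit 0) (nat_lit 0)) T0.l1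
  (TrL.c (I.mix (nat_lit 41527258) (nat_lit 41530880)) T2.l5
  (TrL.c (I.mix (nat_lit 41527258) (nat_lit 4274)) T0.l7
  TrL.n)))) (by decide +kernel)
theorem bx1_4 : BoxOK sI cl6 cl5 cl6 t0 t2 b1_4 :=
  box_mk (TrL.c (I.pos (nat_lit 0) (nat_lit 0)) (xb T0.l0 T0.l0)
  (TrL.c (I.pos (nat_lit 0) (nat_lit 0)) T2.l1
  (TrL.c (I.pos (nat_lit 0) (nat_lit 89480386)) (xR T0.l1 T0.l1)
  (TrL.c (I.pos (nat_lit 0) (nat_lit 41530880)) T2.l2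
  (TrL.c (I.pos (nat_lit 0) (nat_lit 0)) T2.l3
  (TrL.c (I.pos (nat_lit 0) (nat_lit 0)) T0.l2
  (TrL.c (I.mix (nat_lit 41527258) (nat_lit 41530880)) (xR T2.l4 T2.l4)
  (TrL.c (I.mix (nat_lit 41527258) (nat_lit 4274)) T0.l3
  TrL.n)))))))) (by decide +kernel)
theorem bx1_5 : BoxOK sI cl6 cl5 cl6 t0 t2 b1_5 :=
  box_mk (TrL.c (I.pos (nat_lit 0) (nat_lit 0)) T0.l0
  (TrL.c (I.pos (nat_lit 0) (nat_lit 0)) T2.l1
  (TrL.c (I.pos (nat_lit 0) (nat_lit 89480386)) T0.l1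
  (TrL.c (I.pos (nat_lit 0) (nat_lit 41530880)) T2.l2
  (TrL.c (I.pos (nat_lit 0) (nat_lit 0)) T2.l3
  (TrL.c (I.pos (nat_lit 0) (nat_lit 0)) T0.l2
  (TrL.c (I.mix (nat_lit 41527258) (nat_lit 41530880)) T2.l4
  (TrL.c (I.mix (nat_lit 41527258) (nat_lit 4274)) T0.l3
  TrL.n)))))))) (by decide +kernel)
theorem bx1_6 : BoxOK sI cl6 cl5 cl6 t0 t2 b1_6 :=
  box_mk (TrL.c (I.pos (nat_lit 0) (nat_lit 0)) T0.l0
  (TrL.c (I.pos (nat_lit 0) (nat_lit 0)) T2.l1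
  (TrL.c (I.pos (nat_lit 0) (nat_lit 89480386)) T0.l1
  (TrL.c (I.pos (nat_lit 0) (nat_lit 41530880)) T2.l5
  (TrL.c (I.pos (nat_lit 0) (nat_lit 0)) T2.l3
  (TrL.c (I.pos (nat_lit 0) (nat_lit 0)) T0.l2
  (TrL.c (I.mix (nat_lit 41527258) (nat_lit 41530880)) T2.l4
  (TrL.c (I.mix (nat_lit 41527258) (nat_lit 4274)) T0.l3
  TrL.n)))))))) (by decide +kernel)
theorem bx1_7 : BoxOK sI cl6 cl5 cl6 t0 t2 b1_7 :=
  box_mk (TrL.c (I.pos (nat_lit 0) (nat_lit 0)) T2.l1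
  (TrL.c (I.pos (nat_lit 0) (nat_lit 0)) T0.l1
  (TrL.c (I.mix (nat_lit 41527258) (nat_lit 41530880)) T2.l5
  (TrL.c (I.mix (nat_lit 41527258) (nat_lit 4274)) T0.l4
  TrL.n)))) (by decide +kernel)
theorem sv1 : StarV sI cl6 cl5 cl6 t0 t2 t1 :=
  (bt_n (bt_n (bt_n (bt_b bx1_0) (bt_b bx1_1)) (bt_n (bt_b bx1_2) (bt_b bx1_3))) (bt_n (bt_n (bt_b bx1_4) (bt_b bx1_5)) (bt_n (bt_b bx1_6) (bt_b bx1_7))))
def S1 : StarD := StarD.mk cl6 cl5 cl6 0 2 t1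
theorem bx2_0 : BoxOK sI cl6 cl6 cl5 t2 t0 b2_0 :=
  box_mk (TrL.c (I.pos (nat_lit 0) (nat_lit 0)) (xa T2.l0 T2.l0)
  (TrL.c (I.pos (nat_lit 0) (nat_lit 0)) T0.l5
  (TrL.c (I.pos (nat_lit 0) (nat_lit 89480386)) (xR T2.l6 T2.l6)
  (TrL.c (I.pos (nat_lit 0) (nat_lit 41530880)) T0.l6
  (TrL.c (I.pos (nat_lit 0) (nat_lit 0)) (xa T0.l8 T0.l8)
  (TrL.c (I.pos (nat_lit 0) (nat_lit 0)) T2.l7
  (TrL.c (I.mix (nat_lit 41527258) (nat_lit 41530880)) (xR T0.l7 T0.l1)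
  (TrL.c (I.mix (nat_lit 41527258) (nat_lit 4274)) T2.l8
  TrL.n)))))))) (by decide +kernel)
theorem bx2_1 : BoxOK sI cl6 cl6 cl5 t2 t0 b2_1 :=
  box_mk (TrL.c (I.pos (nat_lit 0) (nat_lit 0)) T2.l0
  (TrL.c (I.pos (nat_lit 0) (nat_lit 0)) T0.l5
  (TrL.c (I.pos (nat_lit 0) (nat_lit 89480386)) (xR T2.l6 T2.l6)
  (TrL.c (I.pos (nat_lit 0) (nat_lit 41530880)) T0.l6
  (TrL.c (I.pos (nat_lit 0) (nat_lit 0)) T0.l8
  (TrL.c (I.pos (nat_lit 0) (nat_lit 0)) T2.l7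
  (TrL.c (I.mix (nat_lit 41527258) (nat_lit 41530880)) T0.l7
  (TrL.c (I.mix (nat_lit 41527258) (nat_lit 4274)) T2.l8
  TrL.n)))))))) (by decide +kernel)
theorem bx2_2 : BoxOK sI cl6 cl6 cl5 t2 t0 b2_2 :=
  box_mk (TrL.c (I.pos (nat_lit 0) (nat_lit 0)) T2.l0
  (TrL.c (I.pos (nat_lit 0) (nat_lit 0)) T0.l8
  (TrL.c (I.pos (nat_lit 0) (nat_lit 89480386)) T2.l6
  (TrL.c (I.pos (nat_lit 0) (nat_lit 41530880)) T0.l7
  (TrL.c (I.pos (nat_lit 0) (nat_lit 0)) T0.l8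
  (TrL.c (I.pos (nat_lit 0) (nat_lit 0)) T2.l7
  (TrL.c (I.mix (nat_lit 41527258) (nat_lit 41530880)) T0.l7
  (TrL.c (I.mix (nat_lit 41527258) (nat_lit 4274)) T2.l8
  TrL.n)))))))) (by decide +kernel)
theorem bx2_3 : BoxOK sI cl6 cl6 cl5 t2 t0 b2_3 :=
  box_mk (TrL.c (I.pos (nat_lit 0) (nat_lit 0)) (xb T2.l0 T2.l0)
  (TrL.c (I.pos (nat_lit 0) (nat_lit 0)) T0.l5
  (TrL.c (I.pos (nat_lit 0) (nat_lit 89480386)) (xR T2.l6 T2.l6)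
  (TrL.c (I.pos (nat_lit 0) (nat_lit 41530880)) T0.l6
  (TrL.c (I.pos (nat_lit 0) (nat_lit 0)) T0.l8
  (TrL.c (I.pos (nat_lit 0) (nat_lit 0)) T2.l7
  (TrL.c (I.mix (nat_lit 41527258) (nat_lit 41530880)) (xR T0.l7 T0.l7)
  (TrL.c (I.mix (nat_lit 41527258) (nat_lit 4274)) T2.l8
  TrL.n)))))))) (by decide +kernel)
theorem bx2_4 : BoxOK sI cl6 cl6 cl5 t2 t0 b2_4 :=
  box_mk (TrL.c (I.pos (nat_lit 0) (nat_lit 0)) (xa T2.l0 T2.l0)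
  (TrL.c (I.pos (nat_lit 0) (nat_lit 0)) T0.l5
  (TrL.c (I.pos (nat_lit 0) (nat_lit 89480386)) (xR T2.l6 T2.l6)
  (TrL.c (I.pos (nat_lit 0) (nat_lit 41530880)) T0.l6
  (TrL.c (I.pos (nat_lit 0) (nat_lit 0)) T0.l8
  (TrL.c (I.pos (nat_lit 0) (nat_lit 0)) T2.l7
  (TrL.c (I.mix (nat_lit 41527258) (nat_lit 41530880)) (xR T0.l7 T0.l7)
  (TrL.c (I.mix (nat_lit 41527258) (nat_lit 4274)) T2.l8
  TrL.n)))))))) (by decide +kernel)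
theorem bx2_5 : BoxOK sI cl6 cl6 cl5 t2 t0 b2_5 :=
  box_mk (TrL.c (I.pos (nat_lit 0) (nat_lit 0)) T2.l0
  (TrL.c (I.pos (nat_lit 0) (nat_lit 0)) T0.l8
  (TrL.c (I.pos (nat_lit 0) (nat_lit 89480386)) T2.l6
  (TrL.c (I.pos (nat_lit 0) (nat_lit 41530880)) T0.l7
  (TrL.c (I.pos (nat_lit 0) (nat_lit 0)) T0.l8
  (TrL.c (I.pos (nat_lit 0) (nat_lit 0)) T2.l7
  (TrL.c (I.mix (nat_lit 41527258) (nat_lit 41530880)) T0.l7
  (TrL.c (I.mix (nat_lit 41527258) (nat_lit 4274)) T2.l8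
  TrL.n)))))))) (by decide +kernel)
theorem bx2_6 : BoxOK sI cl6 cl6 cl5 t2 t0 b2_6 :=
  box_mk (TrL.c (I.pos (nat_lit 0) (nat_lit 0)) T2.l0
  (TrL.c (I.pos (nat_lit 0) (nat_lit 0)) T0.l5
  (TrL.c (I.pos (nat_lit 0) (nat_lit 89480386)) T2.l6
  (TrL.c (I.pos (nat_lit 0) (nat_lit 41530880)) T0.l6
  (TrL.c (I.pos (nat_lit 0) (nat_lit 0)) T0.l8
  (TrL.c (I.pos (nat_lit 0) (nat_lit 0)) T2.l7
  (TrL.c (I.mix (nat_lit 41527258) (nat_lit 41530880)) T0.l7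
  (TrL.c (I.mix (nat_lit 41527258) (nat_lit 4274)) T2.l8
  TrL.n)))))))) (by decide +kernel)
theorem bx2_7 : BoxOK sI cl6 cl6 cl5 t2 t0 b2_7 :=
  box_mk (TrL.c (I.pos (nat_lit 0) (nat_lit 0)) T2.l0
  (TrL.c (I.pos (nat_lit 0) (nat_lit 0)) T0.l5
  (TrL.c (I.pos (nat_lit 0) (nat_lit 89480386)) T2.l6
  (TrL.c (I.pos (nat_lit 0) (nat_lit 41530880)) T0.l6
  (TrL.c (I.pos (nat_lit 0) (nat_lit 0)) T0.l8
  (TrL.c (I.pos (nat_lit 0) (nat_lit 0)) T2.l7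
  (TrL.c (I.mix (nat_lit 41527258) (nat_lit 41530880)) T0.l7
  (TrL.c (I.mix (nat_lit 41527258) (nat_lit 4274)) T2.l8
  TrL.n)))))))) (by decide +kernel)
theorem bx2_8 : BoxOK sI cl6 cl6 cl5 t2 t0 b2_8 :=
  box_mk (TrL.c (I.pos (nat_lit 0) (nat_lit 0)) (xa T2.l0 T2.l0)
  (TrL.c (I.pos (nat_lit 0) (nat_lit 0)) T0.l8
  (TrL.c (I.pos (nat_lit 0) (nat_lit 89480386)) T2.l6
  (TrL.c (I.pos (nat_lit 0) (nat_lit 41530880)) T0.l7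
  (TrL.c (I.pos (nat_lit 0) (nat_lit 0)) T0.l5
  (TrL.c (I.pos (nat_lit 0) (nat_lit 0)) T2.l6
  (TrL.c (I.mix (nat_lit 41527258) (nat_lit 41530880)) T0.l7
  (TrL.c (I.mix (nat_lit 41527258) (nat_lit 4274)) T2.l8
  TrL.n)))))))) (by decide +kernel)
theorem bx2_9 : BoxOK sI cl6 cl6 cl5 t2 t0 b2_9 :=
  box_mk (TrL.c (I.pos (nat_lit 0) (nat_lit 0)) T2.l0
  (TrL.c (I.pos (nat_lit 0) (nat_lit 0)) T0.l5
  (TrL.c (I.pos (nat_lit 0) (nat_lit 89480386)) (xR T2.l6 T2.l6)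
  (TrL.c (I.pos (nat_lit 0) (nat_lit 41530880)) T0.l6
  (TrL.c (I.pos (nat_lit 0) (nat_lit 0)) T0.l8
  (TrL.c (I.pos (nat_lit 0) (nat_lit 0)) T2.l7
  (TrL.c (I.mix (nat_lit 41527258) (nat_lit 41530880)) T0.l7
  (TrL.c (I.mix (nat_lit 41527258) (nat_lit 4274)) T2.l8
  TrL.n)))))))) (by decide +kernel)
theorem sv2 : StarV sI cl6 cl6 cl5 t2 t0 t2 :=
  (bt_n (bt_n (bt_n (bt_b bx2_0) (bt_b bx2_1)) (bt_n (bt_b bx2_2) (bt_n (bt_b bx2_3) (bt_b bx2_4)))) (bt_n (bt_n (bt_b bx2_5) (bt_b bx2_6)) (bt_n (bt_b bx2_7) (bt_n (bt_b bx2_8) (bt_b bx2_9)))))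
def S2 : StarD := StarD.mk cl6 cl6 cl5 2 0 t2
def G : List StarD := [S0, S1, S2]
theorem so0 : StarOK sI G S0 :=
  star_mk (by decide) (by decide) rfl rfl rfl rfl rfl rfl (rfl : _ = t1) (rfl : _ = t1)
  (st_mk (Pth.l (Pth.l (Pth.l Pth.z))) (nat_lit 189644991) (nat_lit 190920969) (by decide +kernel))
  (st_mk (Pth.l (Pth.l (Pth.l Pth.z))) (nat_lit 226028592) (nat_lit 227855561) (by decide +kernel))
  (st_mk (Pth.l (Pth.l (Pth.l Pth.z))) (nat_lit 268351135) (nat_lit 270953418) (by decide +kernel)) sv0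
theorem so1 : StarOK sI G S1 :=
  star_mk (by decide) (by decide) rfl rfl rfl rfl rfl rfl (rfl : _ = t0) (rfl : _ = t2)
  (st_mk (Pth.l (Pth.l (Pth.l Pth.z))) (nat_lit 241963433) (nat_lit 243262504) (by decide +kernel))
  (st_mk (Pth.l (Pth.l (Pth.l Pth.z))) (nat_lit 278024236) (nat_lit 279746757) (by decide +kernel))
  (st_mk (Pth.l (Pth.l (Pth.l Pth.z))) (nat_lit 319841794) (nat_lit 322134797) (by decide +kernel)) sv1
theorem so2 : StarOK sI G S2 :=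
  star_mk (by decide) (by decide) rfl rfl rfl rfl rfl rfl (rfl : _ = t2) (rfl : _ = t0)
  (st_mk (Pth.l (Pth.l (Pth.l Pth.z))) (nat_lit 188666084) (nat_lit 189578466) (by decide +kernel))
  (st_mk (Pth.l (Pth.l (Pth.l Pth.z))) (nat_lit 224630582) (nat_lit 225929271) (by decide +kernel))
  (st_mk (Pth.l (Pth.l (Pth.l Pth.z))) (nat_lit 266368203) (nat_lit 268205888) (by decide +kernel)) sv2
theorem ok : GroupOK (nat_lit 0) (nat_lit 91291648) G := grp_mk (allS_c so0 (allS_c so1 (allS_c so2 allS_n)))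
theorem cov : GCov G cl5 cl6 cl6 := cov_mk
  ⟨0, by decide, rfl, rfl, rfl⟩ ⟨0, by decide, rfl, rfl, rfl⟩ ⟨1, by decide, rfl, rfl, rfl⟩ ⟨2, by decide, rfl, rfl, rfl⟩ ⟨1, by decide, rfl, rfl, rfl⟩ ⟨2, by decide, rfl, rfl, rfl⟩
end Q233_0

namespace Q233_1
def sI : I := I.pos (nat_lit 91226112) (nat_lit 150339584)
def b0_0 : Bx := Bx.mk (St.mk (I.pos (nat_lit 154222592) (nat_lit 272351232)) (I.mix (nat_lit 9551872) (nat_lit 63684608)) (I.mix (nat_lit 55787520) (nat_lit 90554368)) (I.pos (nat_lit 179404800) (nat_lit 379305984)) (I.mix (nat_lit 117014528) (nat_lit 76693504)) (I.mix (nat_lit 93061120) (nat_lit 61767680)) (I.mix (nat_lit 148373504) (nat_lit 96681984)))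
  false (nat_lit 0)
def b0_1 : Bx := Bx.mk (St.mk (I.mix (nat_lit 41189376) (nat_lit 100777984)) (I.mix (nat_lit 5259264) (nat_lit 45776896)) (I.mix (nat_lit 16613376) (nat_lit 14319616)) (I.pos (nat_lit 76513280) (nat_lit 126435328)) (I.mix (nat_lit 50003968) (nat_lit 50200576)) (I.mix (nat_lit 44679168) (nat_lit 38535168)) (I.mix (nat_lit 28491776) (nat_lit 22331392)))
  false (nat_lit 0)
def b0_2 : Bx := Bx.mk (St.mk (I.pos (nat_lit 81297408) (nat_lit 124682240)) (I.mix (nat_lit 63782912) (nat_lit 6569984)) (I.neg (nat_lit 8077312) (nat_lit 58785792)) (I.pos (nat_lit 114655232) (nat_lit 148406272)) (I.mix (nat_lit 99713024) (nat_lit 36552704)) (I.mix (nat_lit 52084736) (nat_lit 90341376)) (I.mix (nat_lit 37404672) (nat_lit 61898752)))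
  false (nat_lit 0)
def b0_3 : Bx := Bx.mk (St.mk (I.mix (nat_lit 46514176) (nat_lit 31801344)) (I.mix (nat_lit 36372480) (nat_lit 2998272)) (I.mix (nat_lit 13090816) (nat_lit 524288)) (I.pos (nat_lit 82542592) (nat_lit 101892096)) (I.mix (nat_lit 35946496) (nat_lit 26460160)) (I.mix (nat_lit 23379968) (nat_lit 30703616)) (I.mix (nat_lit 11649024) (nat_lit 8404992)))
  false (nat_lit 0)
def b0_4 : Bx := Bx.mk (St.mk (I.mix (nat_lit 51298304) (nat_lit 6881280)) (I.mix (nat_lit 2719744) (nat_lit 11829248)) (I.neg (nat_lit 8454144) (nat_lit 14598144)) (I.pos (nat_lit 88064000) (nat_lit 100073472)) (I.mix (nat_lit 4931584) (nat_lit 12124160)) (I.mix (nat_lit 4980736) (nat_lit 4292608)) (I.mix (nat_lit 2048000) (nat_lit 2342912)))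
  false (nat_lit 0)
def b0_5 : Bx := Bx.mk (St.mk (I.pos (nat_lit 80936960) (nat_lit 164511744)) (I.neg (nat_lit 2998272) (nat_lit 68927488)) (I.neg (nat_lit 3129344) (nat_lit 65552384)) (I.pos (nat_lit 123699200) (nat_lit 194314240)) (I.mix (nat_lit 103268352) (nat_lit 50855936)) (I.mix (nat_lit 47333376) (nat_lit 77545472)) (I.mix (nat_lit 34766848) (nat_lit 63832064)))
  false (nat_lit 0)
def b0_6 : Bx := Bx.mk (St.mk (I.mix (nat_lit 36929536) (nat_lit 52854784)) (I.mix (nat_lit 36290560) (nat_lit 7667712)) (I.neg (nat_lit 458752) (nat_lit 15908864)) (I.pos (nat_lit 81870848) (nat_lit 102154240)) (I.mix (nat_lit 35667968) (nat_lit 31916032)) (I.mix (nat_lit 24100864) (nat_lit 34488320)) (I.mix (nat_lit 11386880) (nat_lit 12812288)))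
  false (nat_lit 0)
def b0_7 : Bx := Bx.mk (St.mk (I.mix (nat_lit 56442880) (nat_lit 84508672)) (I.mix (nat_lit 14139392) (nat_lit 42909696)) (I.mix (nat_lit 19611648) (nat_lit 10584064)) (I.pos (nat_lit 81199104) (nat_lit 112295936)) (I.mix (nat_lit 44777472) (nat_lit 46071808)) (I.mix (nat_lit 42057728) (nat_lit 34209792)) (I.mix (nat_lit 17694720) (nat_lit 17072128)))
  false (nat_lit 0)
def b0_8 : Bx := Bx.mk (St.mk (I.pos (nat_lit 132120576) (nat_lit 211451904)) (I.mix (nat_lit 41828352) (nat_lit 68386816)) (I.mix (nat_lit 41910272) (nat_lit 90046464)) (I.pos (nat_lit 161480704) (nat_lit 261373952)) (I.mix (nat_lit 142983168) (nat_lit 67944448)) (I.mix (nat_lit 142884864) (nat_lit 89817088)) (I.mix (nat_lit 142999552) (nat_lit 89014272)))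
  false (nat_lit 0)
def b0_9 : Bx := Bx.mk (St.mk (I.pos (nat_lit 82903040) (nat_lit 92487680)) (I.mix (nat_lit 2998272) (nat_lit 9207808)) (I.neg (nat_lit 6684672) (nat_lit 15253504)) (I.pos (nat_lit 116129792) (nat_lit 123191296)) (I.mix (nat_lit 6946816) (nat_lit 10125312)) (I.mix (nat_lit 5160960) (nat_lit 3735552)) (I.mix (nat_lit 4341760) (nat_lit 2670592)))
  false (nat_lit 0)
def t0 : BTr := (BTr.n (BTr.n (BTr.n (BTr.b b0_0) (BTr.b b0_1)) (BTr.n (BTr.b b0_2) (BTr.n (BTr.b b0_3) (BTr.b b0_4)))) (BTr.n (BTr.n (BTr.b b0_5) (BTr.b b0_6)) (BTr.n (BTr.b b0_7) (BTr.n (BTr.b b0_8) (BTr.b b0_9)))))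
namespace T0
def l0 : Tr := Tr.L (Pth.l (Pth.l (Pth.l Pth.z)))
def l1 : Tr := Tr.L (Pth.l (Pth.l (Pth.r Pth.z)))
def l2 : Tr := Tr.L (Pth.l (Pth.r (Pth.l Pth.z)))
def l3 : Tr := Tr.L (Pth.l (Pth.r (Pth.r (Pth.l Pth.z))))
def l4 : Tr := Tr.L (Pth.l (Pth.r (Pth.r (Pth.r Pth.z))))
def l5 : Tr := Tr.L (Pth.r (Pth.l (Pth.l Pth.z)))
def l6 : Tr := Tr.L (Pth.r (Pth.l (Pth.r Pth.z)))
def l7 : Tr := Tr.L (Pth.r (Pth.r (Pth.l Pth.z)))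
def l8 : Tr := Tr.L (Pth.r (Pth.r (Pth.r (Pth.l Pth.z))))
def l9 : Tr := Tr.L (Pth.r (Pth.r (Pth.r (Pth.r Pth.z))))
end T0
def b1_0 : Bx := Bx.mk (St.mk (I.pos (nat_lit 149127168) (nat_lit 292159488)) (I.mix (nat_lit 34816000) (nat_lit 72630272)) (I.mix (nat_lit 115474432) (nat_lit 100745216)) (I.pos (nat_lit 229572608) (nat_lit 470106112)) (I.mix (nat_lit 126664704) (nat_lit 90587136)) (I.mix (nat_lit 105365504) (nat_lit 73596928)) (I.mix (nat_lit 163004416) (nat_lit 112508928)))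
  false (nat_lit 8988982)
def b1_1 : Bx := Bx.mk (St.mk (I.pos (nat_lit 68222976) (nat_lit 154976256)) (I.neg (nat_lit 4390912) (nat_lit 76939264)) (I.mix (nat_lit 66109440) (nat_lit 4210688)) (I.pos (nat_lit 165625856) (nat_lit 235307008)) (I.mix (nat_lit 95633408) (nat_lit 61227008)) (I.mix (nat_lit 49463296) (nat_lit 79577088)) (I.mix (nat_lit 45301760) (nat_lit 68452352)))
  false (nat_lit 0)
def b1_2 : Bx := Bx.mk (St.mk (I.pos (nat_lit 20086784) (nat_lit 76709888)) (I.mix (nat_lit 13729792) (nat_lit 50692096)) (I.mix (nat_lit 24166400) (nat_lit 6160384)) (I.pos (nat_lit 142835712) (nat_lit 165167104)) (I.mix (nat_lit 38486016) (nat_lit 49889280)) (I.mix (nat_lit 46940160) (nat_lit 31162368)) (I.mix (nat_lit 25427968) (nat_lit 15253504)))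
  false (nat_lit 0)
def b1_3 : Bx := Bx.mk (St.mk (I.mix (nat_lit 36798464) (nat_lit 11419648)) (I.mix (nat_lit 43843584) (nat_lit 10895360)) (I.mix (nat_lit 1769472) (nat_lit 2490368)) (I.pos (nat_lit 142606336) (nat_lit 151388160)) (I.mix (nat_lit 30720000) (nat_lit 40812544)) (I.mix (nat_lit 25067520) (nat_lit 39976960)) (I.mix (nat_lit 5521408) (nat_lit 5177344)))
  true (nat_lit 0)
def b1_4 : Bx := Bx.mk (St.mk (I.pos (nat_lit 118292480) (nat_lit 199131136)) (I.mix (nat_lit 44695552) (nat_lit 70713344)) (I.mix (nat_lit 35684352) (nat_lit 96436224)) (I.pos (nat_lit 201523200) (nat_lit 295780352)) (I.mix (nat_lit 142983168) (nat_lit 72859648)) (I.mix (nat_lit 141115392) (nat_lit 75759616)) (I.mix (nat_lit 141361152) (nat_lit 81461248)))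
  false (nat_lit 0)
def b1_5 : Bx := Bx.mk (St.mk (I.pos (nat_lit 47546368) (nat_lit 104759296)) (I.mix (nat_lit 68780032) (nat_lit 15040512)) (I.neg (nat_lit 9125888) (nat_lit 55902208)) (I.pos (nat_lit 149667840) (nat_lit 186449920)) (I.mix (nat_lit 88735744) (nat_lit 40714240)) (I.mix (nat_lit 43401216) (nat_lit 78381056)) (I.mix (nat_lit 33226752) (nat_lit 46088192)))
  false (nat_lit 0)
def b1_6 : Bx := Bx.mk (St.mk (I.mix (nat_lit 11419648) (nat_lit 36798464)) (I.mix (nat_lit 12435456) (nat_lit 43925504)) (I.mix (nat_lit 1769472) (nat_lit 2490368)) (I.pos (nat_lit 142606336) (nat_lit 151388160)) (I.mix (nat_lit 40812544) (nat_lit 30720000)) (I.mix (nat_lit 39976960) (nat_lit 25067520)) (I.mix (nat_lit 5521408) (nat_lit 5177344)))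
  false (nat_lit 0)
def b1_7 : Bx := Bx.mk (St.mk (I.neg (nat_lit 20070400) (nat_lit 76709888)) (I.mix (nat_lit 50757632) (nat_lit 15073280)) (I.mix (nat_lit 24395776) (nat_lit 6176768)) (I.pos (nat_lit 142835712) (nat_lit 165167104)) (I.mix (nat_lit 49889280) (nat_lit 38486016)) (I.mix (nat_lit 31162368) (nat_lit 46956544)) (I.mix (nat_lit 25427968) (nat_lit 15253504)))
  true (nat_lit 0)
def t1 : BTr := (BTr.n (BTr.n (BTr.n (BTr.b b1_0) (BTr.b b1_1)) (BTr.n (BTr.b b1_2) (BTr.b b1_3))) (BTr.n (BTr.n (BTr.b b1_4) (BTr.b b1_5)) (BTr.n (BTr.b b1_6) (BTr.b b1_7))))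
namespace T1
def l0 : Tr := Tr.L (Pth.l (Pth.l (Pth.l Pth.z)))
def l1 : Tr := Tr.L (Pth.l (Pth.l (Pth.r Pth.z)))
def l2 : Tr := Tr.L (Pth.l (Pth.r (Pth.l Pth.z)))
def l3 : Tr := Tr.L (Pth.l (Pth.r (Pth.r Pth.z)))
def l4 : Tr := Tr.L (Pth.r (Pth.l (Pth.l Pth.z)))
def l5 : Tr := Tr.L (Pth.r (Pth.l (Pth.r Pth.z)))
def l6 : Tr := Tr.L (Pth.r (Pth.r (Pth.l Pth.z)))
def l7 : Tr := Tr.L (Pth.r (Pth.r (Pth.r Pth.z)))
end T1
def b2_0 : Bx := Bx.mk (St.mk (I.pos (nat_lit 153239552) (nat_lit 289636352)) (I.mix (nat_lit 34226176) (nat_lit 61128704)) (I.mix (nat_lit 83296256) (nat_lit 101990400)) (I.pos (nat_lit 176128000) (nat_lit 412139520)) (I.mix (nat_lit 113721344) (nat_lit 83984384)) (I.mix (nat_lit 102400000) (nat_lit 73891840)) (I.mix (nat_lit 160989184) (nat_lit 98877440)))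
  false (nat_lit 516675)
def b2_1 : Bx := Bx.mk (St.mk (I.pos (nat_lit 85737472) (nat_lit 160694272)) (I.neg (nat_lit 6635520) (nat_lit 70336512)) (I.neg (nat_lit 458752) (nat_lit 57016320)) (I.pos (nat_lit 128385024) (nat_lit 187990016)) (I.mix (nat_lit 98402304) (nat_lit 50724864)) (I.mix (nat_lit 46153728) (nat_lit 72957952)) (I.mix (nat_lit 35880960) (nat_lit 56770560)))
  false (nat_lit 0)
def b2_2 : Bx := Bx.mk (St.mk (I.mix (nat_lit 33406976) (nat_lit 46710784)) (I.mix (nat_lit 36618240) (nat_lit 3784704)) (I.mix (nat_lit 8470528) (nat_lit 5505024)) (I.pos (nat_lit 82706432) (nat_lit 101662720)) (I.mix (nat_lit 31047680) (nat_lit 31801344)) (I.mix (nat_lit 23805952) (nat_lit 29114368)) (I.mix (nat_lit 9617408) (nat_lit 10551296)))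
  false (nat_lit 0)
def b2_3 : Bx := Bx.mk (St.mk (I.pos (nat_lit 141508608) (nat_lit 207257600)) (I.mix (nat_lit 34406400) (nat_lit 67534848)) (I.mix (nat_lit 18743296) (nat_lit 104349696)) (I.pos (nat_lit 168656896) (nat_lit 251854848)) (I.mix (nat_lit 153223168) (nat_lit 63143936)) (I.mix (nat_lit 155582464) (nat_lit 88326144)) (I.mix (nat_lit 159580160) (nat_lit 85393408)))
  false (nat_lit 0)
def b2_4 : Bx := Bx.mk (St.mk (I.mix (nat_lit 52609024) (nat_lit 80609280)) (I.mix (nat_lit 7995392) (nat_lit 43532288)) (I.mix (nat_lit 10715136) (nat_lit 18382848)) (I.pos (nat_lit 81494016) (nat_lit 111132672)) (I.mix (nat_lit 48414720) (nat_lit 37224448)) (I.mix (nat_lit 39452672) (nat_lit 29917184)) (I.mix (nat_lit 16269312) (nat_lit 15499264)))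
  false (nat_lit 0)
def b2_5 : Bx := Bx.mk (St.mk (I.pos (nat_lit 141819904) (nat_lit 157777920)) (I.neg (nat_lit 16547840) (nat_lit 36093952)) (I.neg (nat_lit 2293760) (nat_lit 22233088)) (I.pos (nat_lit 170328064) (nat_lit 185614336)) (I.mix (nat_lit 20889600) (nat_lit 13942784)) (I.mix (nat_lit 9830400) (nat_lit 11321344)) (I.mix (nat_lit 9519104) (nat_lit 11059200)))
  false (nat_lit 0)
def b2_6 : Bx := Bx.mk (St.mk (I.mix (nat_lit 55115776) (nat_lit 51167232)) (I.mix (nat_lit 15384576) (nat_lit 6275072)) (I.mix (nat_lit 1228800) (nat_lit 7536640)) (I.pos (nat_lit 87195648) (nat_lit 100368384)) (I.mix (nat_lit 10731520) (nat_lit 14745600)) (I.mix (nat_lit 8962048) (nat_lit 9535488)) (I.mix (nat_lit 3702784) (nat_lit 3735552)))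
  false (nat_lit 0)
def b2_7 : Bx := Bx.mk (St.mk (I.mix (nat_lit 45203456) (nat_lit 105725952)) (I.mix (nat_lit 13123584) (nat_lit 44843008)) (I.mix (nat_lit 13582336) (nat_lit 23920640)) (I.pos (nat_lit 75005952) (nat_lit 129122304)) (I.mix (nat_lit 55607296) (nat_lit 46759936)) (I.mix (nat_lit 48939008) (nat_lit 37306368)) (I.mix (nat_lit 31604736) (nat_lit 25018368)))
  false (nat_lit 0)
def b2_8 : Bx := Bx.mk (St.mk (I.pos (nat_lit 76349440) (nat_lit 128434176)) (I.mix (nat_lit 64946176) (nat_lit 11190272)) (I.mix (nat_lit 49414144) (nat_lit 2228224)) (I.pos (nat_lit 112115712) (nat_lit 151666688)) (I.mix (nat_lit 91258880) (nat_lit 37765120)) (I.mix (nat_lit 52281344) (nat_lit 81215488)) (I.mix (nat_lit 37257216) (nat_lit 53428224)))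
  false (nat_lit 0)
def b2_9 : Bx := Bx.mk (St.mk (I.mix (nat_lit 52838400) (nat_lit 35160064)) (I.mix (nat_lit 36061184) (nat_lit 10403840)) (I.mix (nat_lit 7241728) (nat_lit 7749632)) (I.pos (nat_lit 82411520) (nat_lit 101908480)) (I.mix (nat_lit 33751040) (nat_lit 30900224)) (I.mix (nat_lit 23625728) (nat_lit 33341440)) (I.mix (nat_lit 12353536) (nat_lit 9584640)))
  false (nat_lit 0)
def t2 : BTr := (BTr.n (BTr.n (BTr.n (BTr.b b2_0) (BTr.b b2_1)) (BTr.n (BTr.b b2_2) (BTr.n (BTr.b b2_3) (BTr.b b2_4)))) (BTr.n (BTr.n (BTr.b b2_5) (BTr.b b2_6)) (BTr.n (BTr.b b2_7) (BTr.n (BTr.b b2_8) (BTr.b b2_9)))))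
namespace T2
def l0 : Tr := Tr.L (Pth.l (Pth.l (Pth.l Pth.z)))
def l1 : Tr := Tr.L (Pth.l (Pth.l (Pth.r Pth.z)))
def l2 : Tr := Tr.L (Pth.l (Pth.r (Pth.l Pth.z)))
def l3 : Tr := Tr.L (Pth.l (Pth.r (Pth.r (Pth.l Pth.z))))
def l4 : Tr := Tr.L (Pth.l (Pth.r (Pth.r (Pth.r Pth.z))))
def l5 : Tr := Tr.L (Pth.r (Pth.l (Pth.l Pth.z)))
def l6 : Tr := Tr.L (Pth.r (Pth.l (Pth.r Pth.z)))
def l7 : Tr := Tr.L (Pth.r (Pth.r (Pth.l Pth.z)))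
def l8 : Tr := Tr.L (Pth.r (Pth.r (Pth.r (Pth.l Pth.z))))
def l9 : Tr := Tr.L (Pth.r (Pth.r (Pth.r (Pth.r Pth.z))))
end T2
theorem bx0_0 : BoxOK sI cl5 cl6 cl6 t1 t1 b0_0 :=
  box_mk (TrL.c (I.pos (nat_lit 0) (nat_lit 0)) (xa (xa T1.l0 T1.l0) (xa T1.l0 T1.l0))
  (TrL.c (I.pos (nat_lit 0) (nat_lit 0)) T1.l1
  (TrL.c (I.pos (nat_lit 0) (nat_lit 0)) T1.l2
  (TrL.c (I.pos (nat_lit 0) (nat_lit 0)) T1.l3
  (TrL.c (I.pos (nat_lit 0) (nat_lit 0)) (xa T1.l4 (xb T1.l4 T1.l4))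
  (TrL.c (I.pos (nat_lit 0) (nat_lit 0)) T1.l5
  (TrL.c (I.pos (nat_lit 0) (nat_lit 0)) T1.l6
  (TrL.c (I.pos (nat_lit 0) (nat_lit 0)) T1.l7
  TrL.n)))))))) (by decide +kernel)
theorem bx0_1 : BoxOK sI cl5 cl6 cl6 t1 t1 b0_1 :=
  box_mk (TrL.c (I.pos (nat_lit 0) (nat_lit 0)) (xa T1.l0 T1.l0)
  (TrL.c (I.pos (nat_lit 0) (nat_lit 0)) T1.l1
  (TrL.c (I.pos (nat_lit 0) (nat_lit 0)) T1.l2
  (TrL.c (I.pos (nat_lit 0) (nat_lit 0)) T1.l3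
  (TrL.c (I.pos (nat_lit 0) (nat_lit 0)) T1.l4
  (TrL.c (I.pos (nat_lit 0) (nat_lit 0)) T1.l5
  (TrL.c (I.pos (nat_lit 0) (nat_lit 0)) T1.l6
  (TrL.c (I.pos (nat_lit 0) (nat_lit 0)) T1.l7
  TrL.n)))))))) (by decide +kernel)
theorem bx0_2 : BoxOK sI cl5 cl6 cl6 t1 t1 b0_2 :=
  box_mk (TrL.c (I.pos (nat_lit 0) (nat_lit 0)) T1.l0
  (TrL.c (I.pos (nat_lit 0) (nat_lit 0)) T1.l1
  (TrL.c (I.pos (nat_lit 0) (nat_lit 0)) T1.l2
  (TrL.c (I.pos (nat_lit 0) (nat_lit 0)) T1.l3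
  (TrL.c (I.pos (nat_lit 0) (nat_lit 0)) T1.l4
  (TrL.c (I.pos (nat_lit 0) (nat_lit 0)) T1.l5
  (TrL.c (I.pos (nat_lit 0) (nat_lit 0)) T1.l6
  (TrL.c (I.pos (nat_lit 0) (nat_lit 0)) T1.l7
  TrL.n)))))))) (by decide +kernel)
theorem bx0_3 : BoxOK sI cl5 cl6 cl6 t1 t1 b0_3 :=
  box_mk (TrL.c (I.pos (nat_lit 0) (nat_lit 0)) (xa (xb T1.l0 T1.l0) T1.l0)
  (TrL.c (I.pos (nat_lit 0) (nat_lit 0)) T1.l1
  (TrL.c (I.pos (nat_lit 0) (nat_lit 0)) T1.l2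
  (TrL.c (I.pos (nat_lit 0) (nat_lit 0)) T1.l3
  (TrL.c (I.pos (nat_lit 0) (nat_lit 0)) T1.l4
  (TrL.c (I.pos (nat_lit 0) (nat_lit 0)) T1.l5
  (TrL.c (I.pos (nat_lit 0) (nat_lit 0)) T1.l6
  (TrL.c (I.pos (nat_lit 0) (nat_lit 0)) T1.l7
  TrL.n)))))))) (by decide +kernel)
theorem bx0_4 : BoxOK sI cl5 cl6 cl6 t1 t1 b0_4 :=
  box_mk (TrL.c (I.pos (nat_lit 0) (nat_lit 0)) T1.l0
  (TrL.c (I.pos (nat_lit 0) (nat_lit 0)) T1.l1
  (TrL.c (I.pos (nat_lit 0) (nat_lit 0)) T1.l2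
  (TrL.c (I.pos (nat_lit 0) (nat_lit 0)) T1.l3
  (TrL.c (I.pos (nat_lit 0) (nat_lit 0)) T1.l4
  (TrL.c (I.pos (nat_lit 0) (nat_lit 0)) T1.l5
  (TrL.c (I.pos (nat_lit 0) (nat_lit 0)) T1.l6
  (TrL.c (I.pos (nat_lit 0) (nat_lit 0)) T1.l7
  TrL.n)))))))) (by decide +kernel)
theorem bx0_5 : BoxOK sI cl5 cl6 cl6 t1 t1 b0_5 :=
  box_mk (TrL.c (I.pos (nat_lit 0) (nat_lit 0)) T1.l0
  (TrL.c (I.pos (nat_lit 0) (nat_lit 0)) T1.l1
  (TrL.c (I.pos (nat_lit 0) (nat_lit 0)) T1.l2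
  (TrL.c (I.pos (nat_lit 0) (nat_lit 0)) T1.l3
  (TrL.c (I.pos (nat_lit 0) (nat_lit 0)) T1.l4
  (TrL.c (I.pos (nat_lit 0) (nat_lit 0)) T1.l5
  (TrL.c (I.pos (nat_lit 0) (nat_lit 0)) T1.l6
  (TrL.c (I.pos (nat_lit 0) (nat_lit 0)) T1.l7
  TrL.n)))))))) (by decide +kernel)
theorem bx0_6 : BoxOK sI cl5 cl6 cl6 t1 t1 b0_6 :=
  box_mk (TrL.c (I.pos (nat_lit 0) (nat_lit 0)) T1.l0
  (TrL.c (I.pos (nat_lit 0) (nat_lit 0)) T1.l1
  (TrL.c (I.pos (nat_lit 0) (nat_lit 0)) T1.l2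
  (TrL.c (I.pos (nat_lit 0) (nat_lit 0)) T1.l3
  (TrL.c (I.pos (nat_lit 0) (nat_lit 0)) T1.l4
  (TrL.c (I.pos (nat_lit 0) (nat_lit 0)) T1.l5
  (TrL.c (I.pos (nat_lit 0) (nat_lit 0)) T1.l6
  (TrL.c (I.pos (nat_lit 0) (nat_lit 0)) T1.l7
  TrL.n)))))))) (by decide +kernel)
theorem bx0_7 : BoxOK sI cl5 cl6 cl6 t1 t1 b0_7 :=
  box_mk (TrL.c (I.pos (nat_lit 0) (nat_lit 0)) (xa (xa (xb T1.l0 T1.l0) T1.l0) T1.l0)
  (TrL.c (I.pos (nat_lit 0) (nat_lit 0)) T1.l1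
  (TrL.c (I.pos (nat_lit 0) (nat_lit 0)) T1.l2
  (TrL.c (I.pos (nat_lit 0) (nat_lit 0)) T1.l3
  (TrL.c (I.pos (nat_lit 0) (nat_lit 0)) T1.l4
  (TrL.c (I.pos (nat_lit 0) (nat_lit 0)) T1.l5
  (TrL.c (I.pos (nat_lit 0) (nat_lit 0)) T1.l6
  (TrL.c (I.pos (nat_lit 0) (nat_lit 0)) T1.l7
  TrL.n)))))))) (by decide +kernel)
theorem bx0_8 : BoxOK sI cl5 cl6 cl6 t1 t1 b0_8 :=
  box_mk (TrL.c (I.pos (nat_lit 0) (nat_lit 0)) (xb (xa T1.l0 T1.l0) (xa (xb T1.l0 T1.l0) (xb T1.l0 T1.l0)))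
  (TrL.c (I.pos (nat_lit 0) (nat_lit 0)) T1.l1
  (TrL.c (I.pos (nat_lit 0) (nat_lit 0)) T1.l2
  (TrL.c (I.pos (nat_lit 0) (nat_lit 0)) T1.l3
  (TrL.c (I.pos (nat_lit 0) (nat_lit 0)) (xb T1.l4 T1.l4)
  (TrL.c (I.pos (nat_lit 0) (nat_lit 0)) T1.l5
  (TrL.c (I.pos (nat_lit 0) (nat_lit 0)) T1.l6
  (TrL.c (I.pos (nat_lit 0) (nat_lit 0)) T1.l7
  TrL.n)))))))) (by decide +kernel)
theorem bx0_9 : BoxOK sI cl5 cl6 cl6 t1 t1 b0_9 :=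
  box_mk (TrL.c (I.pos (nat_lit 0) (nat_lit 0)) T1.l0
  (TrL.c (I.pos (nat_lit 0) (nat_lit 0)) T1.l1
  (TrL.c (I.pos (nat_lit 0) (nat_lit 0)) T1.l2
  (TrL.c (I.pos (nat_lit 0) (nat_lit 0)) T1.l3
  (TrL.c (I.pos (nat_lit 0) (nat_lit 0)) T1.l4
  (TrL.c (I.pos (nat_lit 0) (nat_lit 0)) T1.l5
  (TrL.c (I.pos (nat_lit 0) (nat_lit 0)) T1.l6
  (TrL.c (I.pos (nat_lit 0) (nat_lit 0)) T1.l7
  TrL.n)))))))) (by decide +kernel)
theorem sv0 : StarV sI cl5 cl6 cl6 t1 t1 t0 :=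
  (bt_n (bt_n (bt_n (bt_b bx0_0) (bt_b bx0_1)) (bt_n (bt_b bx0_2) (bt_n (bt_b bx0_3) (bt_b bx0_4)))) (bt_n (bt_n (bt_b bx0_5) (bt_b bx0_6)) (bt_n (bt_b bx0_7) (bt_n (bt_b bx0_8) (bt_b bx0_9)))))
def S0 : StarD := StarD.mk cl5 cl6 cl6 1 1 t0
theorem bx1_0 : BoxOK sI cl6 cl5 cl6 t0 t2 b1_0 :=
  box_mk (TrL.c (I.pos (nat_lit 0) (nat_lit 0)) (xa (xb (xa T0.l0 T0.l0) (xa (xb T0.l0 T0.l0) T0.l0)) (xb (xa T0.l0 T0.l0) (xa T0.l0 T0.l0)))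
  (TrL.c (I.pos (nat_lit 0) (nat_lit 0)) T2.l1
  (TrL.c (I.pos (nat_lit 0) (nat_lit 89480386)) T0.l1
  (TrL.c (I.pos (nat_lit 0) (nat_lit 41530880)) T2.l2
  (TrL.c (I.pos (nat_lit 0) (nat_lit 0)) (xa (xb T2.l3 T2.l3) (xb (xa T2.l3 T2.l3) (xa T2.l3 T2.l3)))
  (TrL.c (I.pos (nat_lit 0) (nat_lit 0)) T0.l2
  (TrL.c (I.mix (nat_lit 41527258) (nat_lit 41530880)) T2.l7
  (TrL.c (I.mix (nat_lit 41527258) (nat_lit 4274)) T0.l3
  TrL.n)))))))) (by decide +kernel)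
theorem bx1_1 : BoxOK sI cl6 cl5 cl6 t0 t2 b1_1 :=
  box_mk (TrL.c (I.pos (nat_lit 0) (nat_lit 0)) (xa T0.l0 T0.l0)
  (TrL.c (I.pos (nat_lit 0) (nat_lit 0)) T2.l1
  (TrL.c (I.pos (nat_lit 0) (nat_lit 89480386)) T0.l1
  (TrL.c (I.pos (nat_lit 0) (nat_lit 41530880)) T2.l2
  (TrL.c (I.pos (nat_lit 0) (nat_lit 0)) T2.l3
  (TrL.c (I.pos (nat_lit 0) (nat_lit 0)) T0.l2
  (TrL.c (I.mix (nat_lit 41527258) (nat_lit 41530880)) T2.l4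
  (TrL.c (I.mix (nat_lit 41527258) (nat_lit 4274)) T0.l3
  TrL.n)))))))) (by decide +kernel)
theorem bx1_2 : BoxOK sI cl6 cl5 cl6 t0 t2 b1_2 :=
  box_mk (TrL.c (I.pos (nat_lit 0) (nat_lit 0)) T0.l0
  (TrL.c (I.pos (nat_lit 0) (nat_lit 0)) T2.l1
  (TrL.c (I.pos (nat_lit 0) (nat_lit 89480386)) T0.l1
  (TrL.c (I.pos (nat_lit 0) (nat_lit 41530880)) T2.l2
  (TrL.c (I.pos (nat_lit 0) (nat_lit 0)) T2.l3
  (TrL.c (I.pos (nat_lit 0) (nat_lit 0)) T0.l2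
  (TrL.c (I.mix (nat_lit 41527258) (nat_lit 41530880)) T2.l4
  (TrL.c (I.mix (nat_lit 41527258) (nat_lit 4274)) T0.l3
  TrL.n)))))))) (by decide +kernel)
theorem bx1_3 : BoxOK sI cl6 cl5 cl6 t0 t2 b1_3 :=
  box_mk (TrL.c (I.pos (nat_lit 0) (nat_lit 0)) T2.l1
  (TrL.c (I.pos (nat_lit 0) (nat_lit 0)) T0.l1
  (TrL.c (I.mix (nat_lit 41527258) (nat_lit 41530880)) T2.l6
  (TrL.c (I.mix (nat_lit 41527258) (nat_lit 4274)) T0.l7
  TrL.n)))) (by decide +kernel)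
theorem bx1_4 : BoxOK sI cl6 cl5 cl6 t0 t2 b1_4 :=
  box_mk (TrL.c (I.pos (nat_lit 0) (nat_lit 0)) (xb (xa T0.l0 T0.l0) (xa (xb T0.l0 T0.l0) T0.l0))
  (TrL.c (I.pos (nat_lit 0) (nat_lit 0)) T2.l1
  (TrL.c (I.pos (nat_lit 0) (nat_lit 89480386)) T0.l1
  (TrL.c (I.pos (nat_lit 0) (nat_lit 41530880)) T2.l2
  (TrL.c (I.pos (nat_lit 0) (nat_lit 0)) (xb T2.l0 T2.l3)
  (TrL.c (I.pos (nat_lit 0) (nat_lit 0)) T0.l2
  (TrL.c (I.mix (nat_lit 41527258) (nat_lit 41530880)) T2.l4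
  (TrL.c (I.mix (nat_lit 41527258) (nat_lit 4274)) T0.l3
  TrL.n)))))))) (by decide +kernel)
theorem bx1_5 : BoxOK sI cl6 cl5 cl6 t0 t2 b1_5 :=
  box_mk (TrL.c (I.pos (nat_lit 0) (nat_lit 0)) (xb T0.l0 T0.l0)
  (TrL.c (I.pos (nat_lit 0) (nat_lit 0)) T2.l1
  (TrL.c (I.pos (nat_lit 0) (nat_lit 89480386)) T0.l1
  (TrL.c (I.pos (nat_lit 0) (nat_lit 41530880)) T2.l2
  (TrL.c (I.pos (nat_lit 0) (nat_lit 0)) T2.l3
  (TrL.c (I.pos (nat_lit 0) (nat_lit 0)) T0.l2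
  (TrL.c (I.mix (nat_lit 41527258) (nat_lit 41530880)) T2.l4
  (TrL.c (I.mix (nat_lit 41527258) (nat_lit 4274)) T0.l3
  TrL.n)))))))) (by decide +kernel)
theorem bx1_6 : BoxOK sI cl6 cl5 cl6 t0 t2 b1_6 :=
  box_mk (TrL.c (I.pos (nat_lit 0) (nat_lit 0)) (xb T0.l0 T0.l0)
  (TrL.c (I.pos (nat_lit 0) (nat_lit 0)) T2.l1
  (TrL.c (I.pos (nat_lit 0) (nat_lit 89480386)) T0.l1
  (TrL.c (I.pos (nat_lit 0) (nat_lit 41530880)) T2.l2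
  (TrL.c (I.pos (nat_lit 0) (nat_lit 0)) T2.l3
  (TrL.c (I.pos (nat_lit 0) (nat_lit 0)) T0.l2
  (TrL.c (I.mix (nat_lit 41527258) (nat_lit 41530880)) T2.l4
  (TrL.c (I.mix (nat_lit 41527258) (nat_lit 4274)) T0.l3
  TrL.n)))))))) (by decide +kernel)
theorem bx1_7 : BoxOK sI cl6 cl5 cl6 t0 t2 b1_7 :=
  box_mk (TrL.c (I.pos (nat_lit 0) (nat_lit 0)) T2.l1
  (TrL.c (I.pos (nat_lit 0) (nat_lit 0)) T0.l1
  (TrL.c (I.mix (nat_lit 41527258) (nat_lit 41530880)) T2.l6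
  (TrL.c (I.mix (nat_lit 41527258) (nat_lit 4274)) T0.l7
  TrL.n)))) (by decide +kernel)
theorem sv1 : StarV sI cl6 cl5 cl6 t0 t2 t1 :=
  (bt_n (bt_n (bt_n (bt_b bx1_0) (bt_b bx1_1)) (bt_n (bt_b bx1_2) (bt_b bx1_3))) (bt_n (bt_n (bt_b bx1_4) (bt_b bx1_5)) (bt_n (bt_b bx1_6) (bt_b bx1_7))))
def S1 : StarD := StarD.mk cl6 cl5 cl6 0 2 t1
theorem bx2_0 : BoxOK sI cl6 cl6 cl5 t2 t0 b2_0 :=
  box_mk (TrL.c (I.pos (nat_lit 0) (nat_lit 0)) (xa (xb (xa T2.l0 T2.l0) (xa T2.l0 T2.l0)) (xa (xb T2.l0 T2.l0) T2.l3))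
  (TrL.c (I.pos (nat_lit 0) (nat_lit 0)) T0.l5
  (TrL.c (I.pos (nat_lit 0) (nat_lit 89480386)) T2.l7
  (TrL.c (I.pos (nat_lit 0) (nat_lit 41530880)) T0.l6
  (TrL.c (I.pos (nat_lit 0) (nat_lit 0)) (xa T0.l8 (xb (xa T0.l8 T0.l8) (xa T0.l8 T0.l8)))
  (TrL.c (I.pos (nat_lit 0) (nat_lit 0)) T2.l8
  (TrL.c (I.mix (nat_lit 41527258) (nat_lit 41530880)) T0.l7
  (TrL.c (I.mix (nat_lit 41527258) (nat_lit 4274)) T2.l9
  TrL.n)))))))) (by decide +kernel)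
theorem bx2_1 : BoxOK sI cl6 cl6 cl5 t2 t0 b2_1 :=
  box_mk (TrL.c (I.pos (nat_lit 0) (nat_lit 0)) T2.l0
  (TrL.c (I.pos (nat_lit 0) (nat_lit 0)) T0.l5
  (TrL.c (I.pos (nat_lit 0) (nat_lit 89480386)) T2.l7
  (TrL.c (I.pos (nat_lit 0) (nat_lit 41530880)) T0.l6
  (TrL.c (I.pos (nat_lit 0) (nat_lit 0)) T0.l8
  (TrL.c (I.pos (nat_lit 0) (nat_lit 0)) T2.l8
  (TrL.c (I.mix (nat_lit 41527258) (nat_lit 41530880)) T0.l7
  (TrL.c (I.mix (nat_lit 41527258) (nat_lit 4274)) T2.l9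
  TrL.n)))))))) (by decide +kernel)
theorem bx2_2 : BoxOK sI cl6 cl6 cl5 t2 t0 b2_2 :=
  box_mk (TrL.c (I.pos (nat_lit 0) (nat_lit 0)) T2.l0
  (TrL.c (I.pos (nat_lit 0) (nat_lit 0)) T0.l5
  (TrL.c (I.pos (nat_lit 0) (nat_lit 89480386)) T2.l7
  (TrL.c (I.pos (nat_lit 0) (nat_lit 41530880)) T0.l6
  (TrL.c (I.pos (nat_lit 0) (nat_lit 0)) T0.l8
  (TrL.c (I.pos (nat_lit 0) (nat_lit 0)) T2.l8
  (TrL.c (I.mix (nat_lit 41527258) (nat_lit 41530880)) T0.l7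
  (TrL.c (I.mix (nat_lit 41527258) (nat_lit 4274)) T2.l9
  TrL.n)))))))) (by decide +kernel)
theorem bx2_3 : BoxOK sI cl6 cl6 cl5 t2 t0 b2_3 :=
  box_mk (TrL.c (I.pos (nat_lit 0) (nat_lit 0)) (xb (xa T2.l0 T2.l0) (xa (xb T2.l0 T2.l0) T2.l0))
  (TrL.c (I.pos (nat_lit 0) (nat_lit 0)) T0.l5
  (TrL.c (I.pos (nat_lit 0) (nat_lit 89480386)) T2.l7
  (TrL.c (I.pos (nat_lit 0) (nat_lit 41530880)) T0.l6
  (TrL.c (I.pos (nat_lit 0) (nat_lit 0)) T0.l8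
  (TrL.c (I.pos (nat_lit 0) (nat_lit 0)) T2.l8
  (TrL.c (I.mix (nat_lit 41527258) (nat_lit 41530880)) T0.l1
  (TrL.c (I.mix (nat_lit 41527258) (nat_lit 4274)) T2.l9
  TrL.n)))))))) (by decide +kernel)
theorem bx2_4 : BoxOK sI cl6 cl6 cl5 t2 t0 b2_4 :=
  box_mk (TrL.c (I.pos (nat_lit 0) (nat_lit 0)) (xa T2.l0 T2.l0)
  (TrL.c (I.pos (nat_lit 0) (nat_lit 0)) T0.l5
  (TrL.c (I.pos (nat_lit 0) (nat_lit 89480386)) T2.l7
  (TrL.c (I.pos (nat_lit 0) (nat_lit 41530880)) T0.l6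
  (TrL.c (I.pos (nat_lit 0) (nat_lit 0)) T0.l8
  (TrL.c (I.pos (nat_lit 0) (nat_lit 0)) T2.l8
  (TrL.c (I.mix (nat_lit 41527258) (nat_lit 41530880)) T0.l7
  (TrL.c (I.mix (nat_lit 41527258) (nat_lit 4274)) T2.l9
  TrL.n)))))))) (by decide +kernel)
theorem bx2_5 : BoxOK sI cl6 cl6 cl5 t2 t0 b2_5 :=
  box_mk (TrL.c (I.pos (nat_lit 0) (nat_lit 0)) T2.l0
  (TrL.c (I.pos (nat_lit 0) (nat_lit 0)) T0.l5
  (TrL.c (I.pos (nat_lit 0) (nat_lit 89480386)) T2.l7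
  (TrL.c (I.pos (nat_lit 0) (nat_lit 41530880)) T0.l6
  (TrL.c (I.pos (nat_lit 0) (nat_lit 0)) T0.l8
  (TrL.c (I.pos (nat_lit 0) (nat_lit 0)) T2.l8
  (TrL.c (I.mix (nat_lit 41527258) (nat_lit 41530880)) T0.l7
  (TrL.c (I.mix (nat_lit 41527258) (nat_lit 4274)) T2.l9
  TrL.n)))))))) (by decide +kernel)
theorem bx2_6 : BoxOK sI cl6 cl6 cl5 t2 t0 b2_6 :=
  box_mk (TrL.c (I.pos (nat_lit 0) (nat_lit 0)) T2.l0
  (TrL.c (I.pos (nat_lit 0) (nat_lit 0)) T0.l5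
  (TrL.c (I.pos (nat_lit 0) (nat_lit 89480386)) T2.l7
  (TrL.c (I.pos (nat_lit 0) (nat_lit 41530880)) T0.l6
  (TrL.c (I.pos (nat_lit 0) (nat_lit 0)) T0.l8
  (TrL.c (I.pos (nat_lit 0) (nat_lit 0)) T2.l8
  (TrL.c (I.mix (nat_lit 41527258) (nat_lit 41530880)) T0.l7
  (TrL.c (I.mix (nat_lit 41527258) (nat_lit 4274)) T2.l9
  TrL.n)))))))) (by decide +kernel)
theorem bx2_7 : BoxOK sI cl6 cl6 cl5 t2 t0 b2_7 :=
  box_mk (TrL.c (I.pos (nat_lit 0) (nat_lit 0)) (xa (xa (xb T2.l0 T2.l0) T2.l0) T2.l0)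
  (TrL.c (I.pos (nat_lit 0) (nat_lit 0)) T0.l5
  (TrL.c (I.pos (nat_lit 0) (nat_lit 89480386)) T2.l7
  (TrL.c (I.pos (nat_lit 0) (nat_lit 41530880)) T0.l6
  (TrL.c (I.pos (nat_lit 0) (nat_lit 0)) T0.l8
  (TrL.c (I.pos (nat_lit 0) (nat_lit 0)) T2.l8
  (TrL.c (I.mix (nat_lit 41527258) (nat_lit 41530880)) T0.l7
  (TrL.c (I.mix (nat_lit 41527258) (nat_lit 4274)) T2.l9
  TrL.n)))))))) (by decide +kernel)
theorem bx2_8 : BoxOK sI cl6 cl6 cl5 t2 t0 b2_8 :=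
  box_mk (TrL.c (I.pos (nat_lit 0) (nat_lit 0)) T2.l0
  (TrL.c (I.pos (nat_lit 0) (nat_lit 0)) T0.l5
  (TrL.c (I.pos (nat_lit 0) (nat_lit 89480386)) T2.l7
  (TrL.c (I.pos (nat_lit 0) (nat_lit 41530880)) T0.l6
  (TrL.c (I.pos (nat_lit 0) (nat_lit 0)) T0.l8
  (TrL.c (I.pos (nat_lit 0) (nat_lit 0)) T2.l8
  (TrL.c (I.mix (nat_lit 41527258) (nat_lit 41530880)) T0.l7
  (TrL.c (I.mix (nat_lit 41527258) (nat_lit 4274)) T2.l9
  TrL.n)))))))) (by decide +kernel)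
theorem bx2_9 : BoxOK sI cl6 cl6 cl5 t2 t0 b2_9 :=
  box_mk (TrL.c (I.pos (nat_lit 0) (nat_lit 0)) (xa (xb T2.l0 T2.l0) T2.l0)
  (TrL.c (I.pos (nat_lit 0) (nat_lit 0)) T0.l8
  (TrL.c (I.pos (nat_lit 0) (nat_lit 89480386)) T2.l7
  (TrL.c (I.pos (nat_lit 0) (nat_lit 41530880)) T0.l7
  (TrL.c (I.pos (nat_lit 0) (nat_lit 0)) T0.l8
  (TrL.c (I.pos (nat_lit 0) (nat_lit 0)) T2.l8
  (TrL.c (I.mix (nat_lit 41527258) (nat_lit 41530880)) T0.l7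
  (TrL.c (I.mix (nat_lit 41527258) (nat_lit 4274)) T2.l9
  TrL.n)))))))) (by decide +kernel)
theorem sv2 : StarV sI cl6 cl6 cl5 t2 t0 t2 :=
  (bt_n (bt_n (bt_n (bt_b bx2_0) (bt_b bx2_1)) (bt_n (bt_b bx2_2) (bt_n (bt_b bx2_3) (bt_b bx2_4)))) (bt_n (bt_n (bt_b bx2_5) (bt_b bx2_6)) (bt_n (bt_b bx2_7) (bt_n (bt_b bx2_8) (bt_b bx2_9)))))
def S2 : StarD := StarD.mk cl6 cl6 cl5 2 0 t2
def G : List StarD := [S0, S1, S2]
theorem so0 : StarOK sI G S0 :=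
  star_mk (by decide) (by decide) rfl rfl rfl rfl rfl rfl (rfl : _ = t1) (rfl : _ = t1)
  (st_mk (Pth.l (Pth.l (Pth.l Pth.z))) (nat_lit 190910183) (nat_lit 191758476) (by decide +kernel))
  (st_mk (Pth.l (Pth.l (Pth.l Pth.z))) (nat_lit 227844261) (nat_lit 229063065) (by decide +kernel))
  (st_mk (Pth.l (Pth.l (Pth.l Pth.z))) (nat_lit 270941401) (nat_lit 272685695) (by decide +kernel)) sv0
theorem so1 : StarOK sI G S1 :=
  star_mk (by decide) (by decide) rfl rfl rfl rfl rfl rfl (rfl : _ = t0) (rfl : _ = t2)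
  (st_mk (Pth.l (Pth.l (Pth.l Pth.z))) (nat_lit 243250715) (nat_lit 244110740) (by decide +kernel))
  (st_mk (Pth.l (Pth.l (Pth.l Pth.z))) (nat_lit 279734558) (nat_lit 280876926) (by decide +kernel))
  (st_mk (Pth.l (Pth.l (Pth.l Pth.z))) (nat_lit 322122051) (nat_lit 323646597) (by decide +kernel)) sv1
theorem so2 : StarOK sI G S2 :=
  star_mk (by decide) (by decide) rfl rfl rfl rfl rfl rfl (rfl : _ = t2) (rfl : _ = t0)
  (st_mk (Pth.l (Pth.l (Pth.l Pth.z))) (nat_lit 189568010) (nat_lit 190171696) (by decide +kernel))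
  (st_mk (Pth.l (Pth.l (Pth.l Pth.z))) (nat_lit 225918439) (nat_lit 226779071) (by decide +kernel))
  (st_mk (Pth.l (Pth.l (Pth.l Pth.z))) (nat_lit 268194537) (nat_lit 269415612) (by decide +kernel)) sv2
theorem ok : GroupOK (nat_lit 91226112) (nat_lit 150339584) G := grp_mk (allS_c so0 (allS_c so1 (allS_c so2 allS_n)))
theorem cov : GCov G cl5 cl6 cl6 := cov_mk
  ⟨0, by decide, rfl, rfl, rfl⟩ ⟨0, by decide, rfl, rfl, rfl⟩ ⟨1, by decide, rfl, rfl, rfl⟩ ⟨2, by decide, rfl, rfl, rfl⟩ ⟨1, by decide, rfl, rfl, rfl⟩ ⟨2, by decide, rfl, rfl, rfl⟩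
end Q233_1

namespace Q233_2
def sI : I := I.pos (nat_lit 150274048) (nat_lit 209387520)
def b0_0 : Bx := Bx.mk (St.mk (I.pos (nat_lit 149340160) (nat_lit 270761984)) (I.mix (nat_lit 9289728) (nat_lit 63897600)) (I.mix (nat_lit 56115200) (nat_lit 90882048)) (I.pos (nat_lit 185466880) (nat_lit 379011072)) (I.mix (nat_lit 143572992) (nat_lit 102137856)) (I.mix (nat_lit 112541696) (nat_lit 77299712)) (I.mix (nat_lit 175243264) (nat_lit 121257984)))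
  false (nat_lit 0)
def b0_1 : Bx := Bx.mk (St.mk (I.mix (nat_lit 30097408) (nat_lit 97091584)) (I.mix (nat_lit 4030464) (nat_lit 42090496)) (I.mix (nat_lit 15990784) (nat_lit 12779520)) (I.pos (nat_lit 82788352) (nat_lit 125059072)) (I.mix (nat_lit 56262656) (nat_lit 53149696)) (I.mix (nat_lit 45940736) (nat_lit 38109184)) (I.mix (nat_lit 30113792) (nat_lit 22167552)))
  false (nat_lit 0)
def b0_2 : Bx := Bx.mk (St.mk (I.pos (nat_lit 80805888) (nat_lit 121503744)) (I.mix (nat_lit 57901056) (nat_lit 4915200)) (I.neg (nat_lit 9273344) (nat_lit 54984704)) (I.pos (nat_lit 114458624) (nat_lit 146784256)) (I.mix (nat_lit 104366080) (nat_lit 45940736)) (I.mix (nat_lit 52674560) (nat_lit 90472448)) (I.mix (nat_lit 38518784) (nat_lit 63111168)))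
  false (nat_lit 0)
def b0_3 : Bx := Bx.mk (St.mk (I.mix (nat_lit 47316992) (nat_lit 29409280)) (I.mix (nat_lit 36241408) (nat_lit 3145728)) (I.mix (nat_lit 12566528) (nat_lit 311296)) (I.pos (nat_lit 83296256) (nat_lit 101613568)) (I.mix (nat_lit 46530560) (nat_lit 35176448)) (I.mix (nat_lit 28721152) (nat_lit 36323328)) (I.mix (nat_lit 14057472) (nat_lit 10256384)))
  false (nat_lit 0)
def b0_4 : Bx := Bx.mk (St.mk (I.pos (nat_lit 82411520) (nat_lit 93372416)) (I.mix (nat_lit 2899968) (nat_lit 9535488)) (I.neg (nat_lit 6684672) (nat_lit 15237120)) (I.pos (nat_lit 115982336) (nat_lit 123797504)) (I.mix (nat_lit 10289152) (nat_lit 13926400)) (I.mix (nat_lit 8355840) (nat_lit 6111232)) (I.mix (nat_lit 6438912) (nat_lit 4128768)))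
  false (nat_lit 0)
def b0_5 : Bx := Bx.mk (St.mk (I.mix (nat_lit 49938432) (nat_lit 5718016)) (I.mix (nat_lit 2162688) (nat_lit 11911168)) (I.neg (nat_lit 8699904) (nat_lit 14663680)) (I.pos (nat_lit 88506368) (nat_lit 99926016)) (I.mix (nat_lit 9027584) (nat_lit 16744448)) (I.mix (nat_lit 9240576) (nat_lit 8011776)) (I.mix (nat_lit 3473408) (nat_lit 3932160)))
  false (nat_lit 0)
def b0_6 : Bx := Bx.mk (St.mk (I.pos (nat_lit 83083264) (nat_lit 164233216)) (I.neg (nat_lit 7012352) (nat_lit 60309504)) (I.neg (nat_lit 4980736) (nat_lit 58130432)) (I.pos (nat_lit 125042688) (nat_lit 194592768)) (I.mix (nat_lit 99090432) (nat_lit 56180736)) (I.mix (nat_lit 45432832) (nat_lit 66551808)) (I.mix (nat_lit 38699008) (nat_lit 59080704)))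
  false (nat_lit 0)
def b0_7 : Bx := Bx.mk (St.mk (I.mix (nat_lit 35487744) (nat_lit 50413568)) (I.mix (nat_lit 35504128) (nat_lit 5881856)) (I.neg (nat_lit 1032192) (nat_lit 15761408)) (I.pos (nat_lit 82444288) (nat_lit 101793792)) (I.mix (nat_lit 48087040) (nat_lit 40943616)) (I.mix (nat_lit 31195136) (nat_lit 39452672)) (I.mix (nat_lit 14647296) (nat_lit 14974976)))
  false (nat_lit 0)
def b0_8 : Bx := Bx.mk (St.mk (I.mix (nat_lit 51658752) (nat_lit 75251712)) (I.mix (nat_lit 10502144) (nat_lit 35504128)) (I.mix (nat_lit 15761408) (nat_lit 9355264)) (I.pos (nat_lit 82444288) (nat_lit 112164864)) (I.mix (nat_lit 40943616) (nat_lit 48087040)) (I.mix (nat_lit 39452672) (nat_lit 31195136)) (I.mix (nat_lit 14647296) (nat_lit 14974976)))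
  false (nat_lit 0)
def b0_9 : Bx := Bx.mk (St.mk (I.pos (nat_lit 130760704) (nat_lit 209059840)) (I.mix (nat_lit 39059456) (nat_lit 64126976)) (I.mix (nat_lit 38584320) (nat_lit 85180416)) (I.pos (nat_lit 162119680) (nat_lit 260358144)) (I.mix (nat_lit 161284096) (nat_lit 81362944)) (I.mix (nat_lit 156794880) (nat_lit 105529344)) (I.mix (nat_lit 156008448) (nat_lit 104267776)))
  false (nat_lit 0)
def t0 : BTr := (BTr.n (BTr.n (BTr.n (BTr.b b0_0) (BTr.b b0_1)) (BTr.n (BTr.b b0_2) (BTr.n (BTr.b b0_3) (BTr.b b0_4)))) (BTr.n (BTr.n (BTr.b b0_5) (BTr.b b0_6)) (BTr.n (BTr.b b0_7) (BTr.n (BTr.b b0_8) (BTr.b b0_9)))))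
namespace T0
def l0 : Tr := Tr.L (Pth.l (Pth.l (Pth.l Pth.z)))
def l1 : Tr := Tr.L (Pth.l (Pth.l (Pth.r Pth.z)))
def l2 : Tr := Tr.L (Pth.l (Pth.r (Pth.l Pth.z)))
def l3 : Tr := Tr.L (Pth.l (Pth.r (Pth.r (Pth.l Pth.z))))
def l4 : Tr := Tr.L (Pth.l (Pth.r (Pth.r (Pth.r Pth.z))))
def l5 : Tr := Tr.L (Pth.r (Pth.l (Pth.l Pth.z)))
def l6 : Tr := Tr.L (Pth.r (Pth.l (Pth.r Pth.z)))
def l7 : Tr := Tr.L (Pth.r (Pth.r (Pth.l Pth.z)))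
def l8 : Tr := Tr.L (Pth.r (Pth.r (Pth.r (Pth.l Pth.z))))
def l9 : Tr := Tr.L (Pth.r (Pth.r (Pth.r (Pth.r Pth.z))))
end T0
def b1_0 : Bx := Bx.mk (St.mk (I.pos (nat_lit 142000128) (nat_lit 288538624)) (I.mix (nat_lit 35520512) (nat_lit 71188480)) (I.mix (nat_lit 116277248) (nat_lit 100220928)) (I.pos (nat_lit 236863488) (nat_lit 464420864)) (I.mix (nat_lit 156991488) (nat_lit 108118016)) (I.mix (nat_lit 116686848) (nat_lit 85524480)) (I.mix (nat_lit 179339264) (nat_lit 132218880)))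
  false (nat_lit 15620859)
def b1_1 : Bx := Bx.mk (St.mk (I.pos (nat_lit 68386816) (nat_lit 154075136)) (I.neg (nat_lit 6291456) (nat_lit 70025216)) (I.mix (nat_lit 61030400) (nat_lit 2621440)) (I.pos (nat_lit 166608896) (nat_lit 235241472)) (I.mix (nat_lit 101580800) (nat_lit 68288512)) (I.mix (nat_lit 53755904) (nat_lit 78512128)) (I.mix (nat_lit 50036736) (nat_lit 68485120)))
  false (nat_lit 0)
def b1_2 : Bx := Bx.mk (St.mk (I.pos (nat_lit 19644416) (nat_lit 75857920)) (I.mix (nat_lit 11714560) (nat_lit 51888128)) (I.mix (nat_lit 23379968) (nat_lit 5799936)) (I.pos (nat_lit 143802368) (nat_lit 164888576)) (I.mix (nat_lit 51412992) (nat_lit 62504960)) (I.mix (nat_lit 54902784) (nat_lit 42450944)) (I.mix (nat_lit 29409280) (nat_lit 20561920)))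
  false (nat_lit 0)
def b1_3 : Bx := Bx.mk (St.mk (I.mix (nat_lit 36487168) (nat_lit 10551296)) (I.mix (nat_lit 43368448) (nat_lit 9240576)) (I.mix (nat_lit 1835008) (nat_lit 2736128)) (I.pos (nat_lit 143065088) (nat_lit 152928256)) (I.mix (nat_lit 40189952) (nat_lit 50053120)) (I.mix (nat_lit 33505280) (nat_lit 45694976)) (I.mix (nat_lit 7421952) (nat_lit 6946816)))
  true (nat_lit 0)
def b1_4 : Bx := Bx.mk (St.mk (I.pos (nat_lit 117620736) (nat_lit 193789952)) (I.mix (nat_lit 41172992) (nat_lit 67502080)) (I.mix (nat_lit 31735808) (nat_lit 94306304)) (I.pos (nat_lit 201539584) (nat_lit 293863424)) (I.mix (nat_lit 165314560) (nat_lit 88342528)) (I.mix (nat_lit 157483008) (nat_lit 91701248)) (I.mix (nat_lit 159318016) (nat_lit 100630528)))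
  false (nat_lit 7323130)
def b1_5 : Bx := Bx.mk (St.mk (I.pos (nat_lit 48316416) (nat_lit 100171776)) (I.mix (nat_lit 67895296) (nat_lit 12386304)) (I.neg (nat_lit 10502144) (nat_lit 56442880)) (I.pos (nat_lit 150110208) (nat_lit 185368576)) (I.mix (nat_lit 107511808) (nat_lit 55623680)) (I.mix (nat_lit 54067200) (nat_lit 89210880)) (I.mix (nat_lit 42139648) (nat_lit 55377920)))
  false (nat_lit 0)
def b1_6 : Bx := Bx.mk (St.mk (I.mix (nat_lit 10551296) (nat_lit 36487168)) (I.mix (nat_lit 11337728) (nat_lit 43433984)) (I.mix (nat_lit 1835008) (nat_lit 2736128)) (I.pos (nat_lit 143065088) (nat_lit 152928256)) (I.mix (nat_lit 50053120) (nat_lit 40189952)) (I.mix (nat_lit 45694976) (nat_lit 33505280)) (I.mix (nat_lit 7421952) (nat_lit 6946816)))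
  false (nat_lit 0)
def b1_7 : Bx := Bx.mk (St.mk (I.neg (nat_lit 19644416) (nat_lit 75857920)) (I.mix (nat_lit 51888128) (nat_lit 13860864)) (I.mix (nat_lit 23920640) (nat_lit 5799936)) (I.pos (nat_lit 143802368) (nat_lit 164888576)) (I.mix (nat_lit 62504960) (nat_lit 51412992)) (I.mix (nat_lit 42450944) (nat_lit 54902784)) (I.mix (nat_lit 29409280) (nat_lit 20561920)))
  true (nat_lit 0)
def t1 : BTr := (BTr.n (BTr.n (BTr.n (BTr.b b1_0) (BTr.b b1_1)) (BTr.n (BTr.b b1_2) (BTr.b b1_3))) (BTr.n (BTr.n (BTr.b b1_4) (BTr.b b1_5)) (BTr.n (BTr.b b1_6) (BTr.b b1_7))))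
namespace T1
def l0 : Tr := Tr.L (Pth.l (Pth.l (Pth.l Pth.z)))
def l1 : Tr := Tr.L (Pth.l (Pth.l (Pth.r Pth.z)))
def l2 : Tr := Tr.L (Pth.l (Pth.r (Pth.l Pth.z)))
def l3 : Tr := Tr.L (Pth.l (Pth.r (Pth.r Pth.z)))
def l4 : Tr := Tr.L (Pth.r (Pth.l (Pth.l Pth.z)))
def l5 : Tr := Tr.L (Pth.r (Pth.l (Pth.r Pth.z)))
def l6 : Tr := Tr.L (Pth.r (Pth.r (Pth.l Pth.z)))
def l7 : Tr := Tr.L (Pth.r (Pth.r (Pth.r Pth.z)))
end T1
def b2_0 : Bx := Bx.mk (St.mk (I.pos (nat_lit 140804096) (nat_lit 286720000)) (I.mix (nat_lit 34406400) (nat_lit 61374464)) (I.mix (nat_lit 82558976) (nat_lit 102268928)) (I.pos (nat_lit 182992896) (nat_lit 407797760)) (I.mix (nat_lit 156205056) (nat_lit 108822528)) (I.mix (nat_lit 120930304) (nat_lit 88571904)) (I.mix (nat_lit 183533568) (nat_lit 120602624)))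
  false (nat_lit 10053450)
def b2_1 : Bx := Bx.mk (St.mk (I.pos (nat_lit 88211456) (nat_lit 159776768)) (I.neg (nat_lit 10043392) (nat_lit 62308352)) (I.neg (nat_lit 1687552) (nat_lit 50479104)) (I.pos (nat_lit 129712128) (nat_lit 188334080)) (I.mix (nat_lit 92307456) (nat_lit 57180160)) (I.mix (nat_lit 44154880) (nat_lit 65404928)) (I.mix (nat_lit 38699008) (nat_lit 57442304)))
  false (nat_lit 0)
def b2_2 : Bx := Bx.mk (St.mk (I.mix (nat_lit 31670272) (nat_lit 47497216)) (I.mix (nat_lit 35897344) (nat_lit 2031616)) (I.mix (nat_lit 8306688) (nat_lit 5128192)) (I.pos (nat_lit 83574784) (nat_lit 101400576)) (I.mix (nat_lit 40566784) (nat_lit 41828352)) (I.mix (nat_lit 29245440) (nat_lit 34865152)) (I.mix (nat_lit 11812864) (nat_lit 13008896)))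
  false (nat_lit 0)
def b2_3 : Bx := Bx.mk (St.mk (I.pos (nat_lit 140541952) (nat_lit 205111296)) (I.mix (nat_lit 31637504) (nat_lit 60293120)) (I.mix (nat_lit 15302656) (nat_lit 94486528)) (I.pos (nat_lit 169115648) (nat_lit 249937920)) (I.mix (nat_lit 163397632) (nat_lit 77873152)) (I.mix (nat_lit 156712960) (nat_lit 97304576)) (I.mix (nat_lit 156565504) (nat_lit 92192768)))
  false (nat_lit 344336)
def b2_4 : Bx := Bx.mk (St.mk (I.mix (nat_lit 48775168) (nat_lit 72826880)) (I.mix (nat_lit 5308416) (nat_lit 38846464)) (I.mix (nat_lit 8552448) (nat_lit 17825792)) (I.pos (nat_lit 83574784) (nat_lit 111050752)) (I.mix (nat_lit 55033856) (nat_lit 40534016)) (I.mix (nat_lit 42483712) (nat_lit 30425088)) (I.mix (nat_lit 17399808) (nat_lit 14090240)))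
  false (nat_lit 0)
def b2_5 : Bx := Bx.mk (St.mk (I.pos (nat_lit 139886592) (nat_lit 158334976)) (I.neg (nat_lit 16695296) (nat_lit 36405248)) (I.neg (nat_lit 2719744) (nat_lit 22528000)) (I.pos (nat_lit 169721856) (nat_lit 187170816)) (I.mix (nat_lit 25378816) (nat_lit 16924672)) (I.mix (nat_lit 12124160) (nat_lit 13205504)) (I.mix (nat_lit 11845632) (nat_lit 12779520)))
  false (nat_lit 0)
def b2_6 : Bx := Bx.mk (St.mk (I.mix (nat_lit 51527680) (nat_lit 48152576)) (I.mix (nat_lit 10502144) (nat_lit 5439488)) (I.pos (nat_lit 294912) (nat_lit 7192576)) (I.pos (nat_lit 89276416) (nat_lit 100286464)) (I.mix (nat_lit 9338880) (nat_lit 14925824)) (I.mix (nat_lit 7602176) (nat_lit 8126464)) (I.mix (nat_lit 3211264) (nat_lit 2965504)))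
  false (nat_lit 0)
def b2_7 : Bx := Bx.mk (St.mk (I.mix (nat_lit 33783808) (nat_lit 101384192)) (I.mix (nat_lit 11501568) (nat_lit 40927232)) (I.mix (nat_lit 12533760) (nat_lit 21528576)) (I.pos (nat_lit 82690048) (nat_lit 127762432)) (I.mix (nat_lit 63946752) (nat_lit 50184192)) (I.mix (nat_lit 50249728) (nat_lit 38387712)) (I.mix (nat_lit 30162944) (nat_lit 25182208)))
  false (nat_lit 0)
def b2_8 : Bx := Bx.mk (St.mk (I.pos (nat_lit 76972032) (nat_lit 125796352)) (I.mix (nat_lit 60293120) (nat_lit 9617408)) (I.mix (nat_lit 46923776) (nat_lit 1441792)) (I.pos (nat_lit 112836608) (nat_lit 151273472)) (I.mix (nat_lit 101335040) (nat_lit 44777472)) (I.mix (nat_lit 57360384) (nat_lit 89063424)) (I.mix (nat_lit 42106880) (nat_lit 60309504)))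
  false (nat_lit 0)
def b2_9 : Bx := Bx.mk (St.mk (I.mix (nat_lit 50429952) (nat_lit 33030144)) (I.mix (nat_lit 35717120) (nat_lit 9158656)) (I.mix (nat_lit 6897664) (nat_lit 7471104)) (I.pos (nat_lit 83279872) (nat_lit 101580800)) (I.mix (nat_lit 43515904) (nat_lit 42237952)) (I.mix (nat_lit 30474240) (nat_lit 36831232)) (I.mix (nat_lit 14106624) (nat_lit 12238848)))
  false (nat_lit 0)
def t2 : BTr := (BTr.n (BTr.n (BTr.n (BTr.b b2_0) (BTr.b b2_1)) (BTr.n (BTr.b b2_2) (BTr.n (BTr.b b2_3) (BTr.b b2_4)))) (BTr.n (BTr.n (BTr.b b2_5) (BTr.b b2_6)) (BTr.n (BTr.b b2_7) (BTr.n (BTr.b b2_8) (BTr.b b2_9)))))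
namespace T2
def l0 : Tr := Tr.L (Pth.l (Pth.l (Pth.l Pth.z)))
def l1 : Tr := Tr.L (Pth.l (Pth.l (Pth.r Pth.z)))
def l2 : Tr := Tr.L (Pth.l (Pth.r (Pth.l Pth.z)))
def l3 : Tr := Tr.L (Pth.l (Pth.r (Pth.r (Pth.l Pth.z))))
def l4 : Tr := Tr.L (Pth.l (Pth.r (Pth.r (Pth.r Pth.z))))
def l5 : Tr := Tr.L (Pth.r (Pth.l (Pth.l Pth.z)))
def l6 : Tr := Tr.L (Pth.r (Pth.l (Pth.r Pth.z)))
def l7 : Tr := Tr.L (Pth.r (Pth.r (Pth.l Pth.z)))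
def l8 : Tr := Tr.L (Pth.r (Pth.r (Pth.r (Pth.l Pth.z))))
def l9 : Tr := Tr.L (Pth.r (Pth.r (Pth.r (Pth.r Pth.z))))
end T2
theorem bx0_0 : BoxOK sI cl5 cl6 cl6 t1 t1 b0_0 :=
  box_mk (TrL.c (I.pos (nat_lit 0) (nat_lit 0)) (xa (xa (xb T1.l0 (xb T1.l0 T1.l0)) (xb T1.l0 (xb T1.l0 T1.l0))) (xa (xb T1.l0 T1.l0) (xb T1.l0 T1.l0)))
  (TrL.c (I.pos (nat_lit 0) (nat_lit 0)) (xa T1.l1 (xb T1.l1 T1.l1))
  (TrL.c (I.pos (nat_lit 0) (nat_lit 0)) T1.l2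
  (TrL.c (I.pos (nat_lit 0) (nat_lit 0)) T1.l3
  (TrL.c (I.pos (nat_lit 0) (nat_lit 0)) (xa T1.l4 (xb (xa T1.l4 T1.l4) (xa T1.l4 T1.l4)))
  (TrL.c (I.pos (nat_lit 0) (nat_lit 0)) (xa T1.l5 T1.l5)
  (TrL.c (I.pos (nat_lit 0) (nat_lit 0)) T1.l6
  (TrL.c (I.pos (nat_lit 0) (nat_lit 0)) T1.l7
  TrL.n)))))))) (by decide +kernel)
theorem bx0_1 : BoxOK sI cl5 cl6 cl6 t1 t1 b0_1 :=
  box_mk (TrL.c (I.pos (nat_lit 0) (nat_lit 0)) (xa T1.l0 T1.l0)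
  (TrL.c (I.pos (nat_lit 0) (nat_lit 0)) T1.l1
  (TrL.c (I.pos (nat_lit 0) (nat_lit 0)) T1.l2
  (TrL.c (I.pos (nat_lit 0) (nat_lit 0)) T1.l3
  (TrL.c (I.pos (nat_lit 0) (nat_lit 0)) T1.l4
  (TrL.c (I.pos (nat_lit 0) (nat_lit 0)) T1.l5
  (TrL.c (I.pos (nat_lit 0) (nat_lit 0)) T1.l6
  (TrL.c (I.pos (nat_lit 0) (nat_lit 0)) T1.l7
  TrL.n)))))))) (by decide +kernel)
theorem bx0_2 : BoxOK sI cl5 cl6 cl6 t1 t1 b0_2 :=
  box_mk (TrL.c (I.pos (nat_lit 0) (nat_lit 0)) T1.l0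
  (TrL.c (I.pos (nat_lit 0) (nat_lit 0)) T1.l1
  (TrL.c (I.pos (nat_lit 0) (nat_lit 0)) T1.l2
  (TrL.c (I.pos (nat_lit 0) (nat_lit 0)) T1.l3
  (TrL.c (I.pos (nat_lit 0) (nat_lit 0)) T1.l4
  (TrL.c (I.pos (nat_lit 0) (nat_lit 0)) T1.l5
  (TrL.c (I.pos (nat_lit 0) (nat_lit 0)) T1.l6
  (TrL.c (I.pos (nat_lit 0) (nat_lit 0)) T1.l7
  TrL.n)))))))) (by decide +kernel)
theorem bx0_3 : BoxOK sI cl5 cl6 cl6 t1 t1 b0_3 :=
  box_mk (TrL.c (I.pos (nat_lit 0) (nat_lit 0)) (xa T1.l0 T1.l0)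
  (TrL.c (I.pos (nat_lit 0) (nat_lit 0)) T1.l4
  (TrL.c (I.pos (nat_lit 0) (nat_lit 0)) T1.l5
  (TrL.c (I.pos (nat_lit 0) (nat_lit 0)) T1.l6
  (TrL.c (I.pos (nat_lit 0) (nat_lit 0)) T1.l1
  (TrL.c (I.pos (nat_lit 0) (nat_lit 0)) T1.l2
  (TrL.c (I.pos (nat_lit 0) (nat_lit 0)) T1.l6
  (TrL.c (I.pos (nat_lit 0) (nat_lit 0)) T1.l7
  TrL.n)))))))) (by decide +kernel)
theorem bx0_4 : BoxOK sI cl5 cl6 cl6 t1 t1 b0_4 :=
  box_mk (TrL.c (I.pos (nat_lit 0) (nat_lit 0)) T1.l0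
  (TrL.c (I.pos (nat_lit 0) (nat_lit 0)) T1.l1
  (TrL.c (I.pos (nat_lit 0) (nat_lit 0)) T1.l2
  (TrL.c (I.pos (nat_lit 0) (nat_lit 0)) T1.l3
  (TrL.c (I.pos (nat_lit 0) (nat_lit 0)) T1.l4
  (TrL.c (I.pos (nat_lit 0) (nat_lit 0)) T1.l5
  (TrL.c (I.pos (nat_lit 0) (nat_lit 0)) T1.l6
  (TrL.c (I.pos (nat_lit 0) (nat_lit 0)) T1.l7
  TrL.n)))))))) (by decide +kernel)
theorem bx0_5 : BoxOK sI cl5 cl6 cl6 t1 t1 b0_5 :=
  box_mk (TrL.c (I.pos (nat_lit 0) (nat_lit 0)) T1.l0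
  (TrL.c (I.pos (nat_lit 0) (nat_lit 0)) T1.l1
  (TrL.c (I.pos (nat_lit 0) (nat_lit 0)) T1.l2
  (TrL.c (I.pos (nat_lit 0) (nat_lit 0)) T1.l3
  (TrL.c (I.pos (nat_lit 0) (nat_lit 0)) T1.l4
  (TrL.c (I.pos (nat_lit 0) (nat_lit 0)) T1.l5
  (TrL.c (I.pos (nat_lit 0) (nat_lit 0)) T1.l6
  (TrL.c (I.pos (nat_lit 0) (nat_lit 0)) T1.l7
  TrL.n)))))))) (by decide +kernel)
theorem bx0_6 : BoxOK sI cl5 cl6 cl6 t1 t1 b0_6 :=
  box_mk (TrL.c (I.pos (nat_lit 0) (nat_lit 0)) T1.l0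
  (TrL.c (I.pos (nat_lit 0) (nat_lit 0)) T1.l1
  (TrL.c (I.pos (nat_lit 0) (nat_lit 0)) T1.l2
  (TrL.c (I.pos (nat_lit 0) (nat_lit 0)) T1.l3
  (TrL.c (I.pos (nat_lit 0) (nat_lit 0)) T1.l4
  (TrL.c (I.pos (nat_lit 0) (nat_lit 0)) T1.l5
  (TrL.c (I.pos (nat_lit 0) (nat_lit 0)) T1.l6
  (TrL.c (I.pos (nat_lit 0) (nat_lit 0)) T1.l7
  TrL.n)))))))) (by decide +kernel)
theorem bx0_7 : BoxOK sI cl5 cl6 cl6 t1 t1 b0_7 :=
  box_mk (TrL.c (I.pos (nat_lit 0) (nat_lit 0)) T1.l0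
  (TrL.c (I.pos (nat_lit 0) (nat_lit 0)) T1.l1
  (TrL.c (I.pos (nat_lit 0) (nat_lit 0)) T1.l2
  (TrL.c (I.pos (nat_lit 0) (nat_lit 0)) T1.l3
  (TrL.c (I.pos (nat_lit 0) (nat_lit 0)) T1.l4
  (TrL.c (I.pos (nat_lit 0) (nat_lit 0)) T1.l5
  (TrL.c (I.pos (nat_lit 0) (nat_lit 0)) T1.l6
  (TrL.c (I.pos (nat_lit 0) (nat_lit 0)) T1.l7
  TrL.n)))))))) (by decide +kernel)
theorem bx0_8 : BoxOK sI cl5 cl6 cl6 t1 t1 b0_8 :=
  box_mk (TrL.c (I.pos (nat_lit 0) (nat_lit 0)) (xa (xa T1.l0 T1.l0) T1.l0)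
  (TrL.c (I.pos (nat_lit 0) (nat_lit 0)) T1.l1
  (TrL.c (I.pos (nat_lit 0) (nat_lit 0)) T1.l2
  (TrL.c (I.pos (nat_lit 0) (nat_lit 0)) T1.l3
  (TrL.c (I.pos (nat_lit 0) (nat_lit 0)) T1.l4
  (TrL.c (I.pos (nat_lit 0) (nat_lit 0)) T1.l5
  (TrL.c (I.pos (nat_lit 0) (nat_lit 0)) T1.l6
  (TrL.c (I.pos (nat_lit 0) (nat_lit 0)) T1.l7
  TrL.n)))))))) (by decide +kernel)
theorem bx0_9 : BoxOK sI cl5 cl6 cl6 t1 t1 b0_9 :=
  box_mk (TrL.c (I.pos (nat_lit 0) (nat_lit 0)) (xb (xa (xb T1.l0 T1.l0) T1.l0) (xa (xb T1.l0 (xa T1.l0 T1.l0)) (xb T1.l0 (xa T1.l0 T1.l0))))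
  (TrL.c (I.pos (nat_lit 0) (nat_lit 0)) (xb T1.l1 (xa T1.l1 T1.l1))
  (TrL.c (I.pos (nat_lit 0) (nat_lit 0)) T1.l2
  (TrL.c (I.pos (nat_lit 0) (nat_lit 0)) T1.l3
  (TrL.c (I.pos (nat_lit 0) (nat_lit 0)) (xb (xa T1.l4 T1.l4) T1.l4)
  (TrL.c (I.pos (nat_lit 0) (nat_lit 0)) T1.l5
  (TrL.c (I.pos (nat_lit 0) (nat_lit 0)) T1.l6
  (TrL.c (I.pos (nat_lit 0) (nat_lit 0)) T1.l7
  TrL.n)))))))) (by decide +kernel)
theorem sv0 : StarV sI cl5 cl6 cl6 t1 t1 t0 :=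
  (bt_n (bt_n (bt_n (bt_b bx0_0) (bt_b bx0_1)) (bt_n (bt_b bx0_2) (bt_n (bt_b bx0_3) (bt_b bx0_4)))) (bt_n (bt_n (bt_b bx0_5) (bt_b bx0_6)) (bt_n (bt_b bx0_7) (bt_n (bt_b bx0_8) (bt_b bx0_9)))))
def S0 : StarD := StarD.mk cl5 cl6 cl6 1 1 t0
theorem bx1_0 : BoxOK sI cl6 cl5 cl6 t0 t2 b1_0 :=
  box_mk (TrL.c (I.pos (nat_lit 0) (nat_lit 0)) (xa (xb (xa T0.l0 T0.l0) (xa (xb T0.l0 (xa T0.l0 T0.l0)) (xb T0.l0 (xa T0.l0 T0.l0)))) (xb (xa T0.l0 T0.l0) (xa (xb T0.l0 T0.l0) (xb T0.l0 T0.l0))))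
  (TrL.c (I.pos (nat_lit 0) (nat_lit 0)) (xa (xb T2.l1 T2.l1) (xb T2.l1 T2.l1))
  (TrL.c (I.pos (nat_lit 0) (nat_lit 89480386)) (xR T0.l1 (xR T0.l1 T0.l1))
  (TrL.c (I.pos (nat_lit 0) (nat_lit 41530880)) T2.l2
  (TrL.c (I.pos (nat_lit 0) (nat_lit 0)) (xa (xb (xa T2.l3 T2.l3) T2.l3) (xb (xa T2.l3 (xb T2.l3 T2.l3)) (xa (xb T2.l3 T2.l3) (xb T2.l3 (xs (xb T2.l3 (xa T2.l3 T2.l3)) (xb T2.l3 (xa T2.l3 (xs T2.l3 (xb T2.l3 T2.l3)))))))))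
  (TrL.c (I.pos (nat_lit 0) (nat_lit 0)) (xa T0.l2 (xb T0.l2 T0.l2))
  (TrL.c (I.mix (nat_lit 41527258) (nat_lit 41530880)) (xR T2.l4 T2.l7)
  (TrL.c (I.mix (nat_lit 41527258) (nat_lit 4274)) T0.l3
  TrL.n)))))))) (by decide +kernel)
theorem bx1_1 : BoxOK sI cl6 cl5 cl6 t0 t2 b1_1 :=
  box_mk (TrL.c (I.pos (nat_lit 0) (nat_lit 0)) T0.l0
  (TrL.c (I.pos (nat_lit 0) (nat_lit 0)) T2.l1
  (TrL.c (I.pos (nat_lit 0) (nat_lit 89480386)) (xR T0.l1 T0.l1)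
  (TrL.c (I.pos (nat_lit 0) (nat_lit 41530880)) T2.l2
  (TrL.c (I.pos (nat_lit 0) (nat_lit 0)) T2.l3
  (TrL.c (I.pos (nat_lit 0) (nat_lit 0)) T0.l2
  (TrL.c (I.mix (nat_lit 41527258) (nat_lit 41530880)) T2.l4
  (TrL.c (I.mix (nat_lit 41527258) (nat_lit 4274)) T0.l3
  TrL.n)))))))) (by decide +kernel)
theorem bx1_2 : BoxOK sI cl6 cl5 cl6 t0 t2 b1_2 :=
  box_mk (TrL.c (I.pos (nat_lit 0) (nat_lit 0)) T0.l0
  (TrL.c (I.pos (nat_lit 0) (nat_lit 0)) T2.l1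
  (TrL.c (I.pos (nat_lit 0) (nat_lit 89480386)) T0.l1
  (TrL.c (I.pos (nat_lit 0) (nat_lit 41530880)) T2.l2
  (TrL.c (I.pos (nat_lit 0) (nat_lit 0)) T2.l3
  (TrL.c (I.pos (nat_lit 0) (nat_lit 0)) T0.l2
  (TrL.c (I.mix (nat_lit 41527258) (nat_lit 41530880)) T2.l4
  (TrL.c (I.mix (nat_lit 41527258) (nat_lit 4274)) T0.l3
  TrL.n)))))))) (by decide +kernel)
theorem bx1_3 : BoxOK sI cl6 cl5 cl6 t0 t2 b1_3 :=
  box_mk (TrL.c (I.pos (nat_lit 0) (nat_lit 0)) T2.l1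
  (TrL.c (I.pos (nat_lit 0) (nat_lit 0)) T0.l1
  (TrL.c (I.mix (nat_lit 41527258) (nat_lit 41530880)) (xR T2.l9 T2.l2)
  (TrL.c (I.mix (nat_lit 41527258) (nat_lit 4274)) T0.l8
  TrL.n)))) (by decide +kernel)
theorem bx1_4 : BoxOK sI cl6 cl5 cl6 t0 t2 b1_4 :=
  box_mk (TrL.c (I.pos (nat_lit 0) (nat_lit 0)) (xb (xa T0.l0 T0.l0) (xa (xb T0.l0 T0.l0) (xb T0.l0 T0.l0)))
  (TrL.c (I.pos (nat_lit 0) (nat_lit 0)) (xb T2.l1 T2.l1)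
  (TrL.c (I.pos (nat_lit 0) (nat_lit 89480386)) (xR T0.l1 T0.l1)
  (TrL.c (I.pos (nat_lit 0) (nat_lit 41530880)) T2.l2
  (TrL.c (I.pos (nat_lit 0) (nat_lit 0)) (xb T2.l0 T2.l3)
  (TrL.c (I.pos (nat_lit 0) (nat_lit 0)) T0.l2
  (TrL.c (I.mix (nat_lit 41527258) (nat_lit 41530880)) (xR T2.l4 T2.l4)
  (TrL.c (I.mix (nat_lit 41527258) (nat_lit 4274)) T0.l3
  TrL.n)))))))) (by decide +kernel)
theorem bx1_5 : BoxOK sI cl6 cl5 cl6 t0 t2 b1_5 :=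
  box_mk (TrL.c (I.pos (nat_lit 0) (nat_lit 0)) (xb T0.l0 T0.l0)
  (TrL.c (I.pos (nat_lit 0) (nat_lit 0)) T2.l1
  (TrL.c (I.pos (nat_lit 0) (nat_lit 89480386)) (xR T0.l1 T0.l1)
  (TrL.c (I.pos (nat_lit 0) (nat_lit 41530880)) T2.l2
  (TrL.c (I.pos (nat_lit 0) (nat_lit 0)) T2.l3
  (TrL.c (I.pos (nat_lit 0) (nat_lit 0)) T0.l2
  (TrL.c (I.mix (nat_lit 41527258) (nat_lit 41530880)) (xR T2.l4 T2.l4)
  (TrL.c (I.mix (nat_lit 41527258) (nat_lit 4274)) T0.l3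
  TrL.n)))))))) (by decide +kernel)
theorem bx1_6 : BoxOK sI cl6 cl5 cl6 t0 t2 b1_6 :=
  box_mk (TrL.c (I.pos (nat_lit 0) (nat_lit 0)) T0.l0
  (TrL.c (I.pos (nat_lit 0) (nat_lit 0)) T2.l1
  (TrL.c (I.pos (nat_lit 0) (nat_lit 89480386)) T0.l1
  (TrL.c (I.pos (nat_lit 0) (nat_lit 41530880)) T2.l2
  (TrL.c (I.pos (nat_lit 0) (nat_lit 0)) T2.l3
  (TrL.c (I.pos (nat_lit 0) (nat_lit 0)) T0.l2
  (TrL.c (I.mix (nat_lit 41527258) (nat_lit 41530880)) (xR T2.l4 T2.l7)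
  (TrL.c (I.mix (nat_lit 41527258) (nat_lit 4274)) T0.l3
  TrL.n)))))))) (by decide +kernel)
theorem bx1_7 : BoxOK sI cl6 cl5 cl6 t0 t2 b1_7 :=
  box_mk (TrL.c (I.pos (nat_lit 0) (nat_lit 0)) T2.l1
  (TrL.c (I.pos (nat_lit 0) (nat_lit 0)) T0.l1
  (TrL.c (I.mix (nat_lit 41527258) (nat_lit 41530880)) (xR T2.l9 T2.l2)
  (TrL.c (I.mix (nat_lit 41527258) (nat_lit 4274)) T0.l8
  TrL.n)))) (by decide +kernel)
theorem sv1 : StarV sI cl6 cl5 cl6 t0 t2 t1 :=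
  (bt_n (bt_n (bt_n (bt_b bx1_0) (bt_b bx1_1)) (bt_n (bt_b bx1_2) (bt_b bx1_3))) (bt_n (bt_n (bt_b bx1_4) (bt_b bx1_5)) (bt_n (bt_b bx1_6) (bt_b bx1_7))))
def S1 : StarD := StarD.mk cl6 cl5 cl6 0 2 t1
theorem bx2_0 : BoxOK sI cl6 cl6 cl5 t2 t0 b2_0 :=
  box_mk (TrL.c (I.pos (nat_lit 0) (nat_lit 0)) (xa (xb (xa (xb (xa T2.l0 T2.l0) T2.l0) (xb (xa T2.l0 (xb T2.l0 T2.l0)) T2.l0)) (xa (xb T2.l0 (xa T2.l0 T2.l0)) (xb T2.l0 T2.l0))) (xa (xb (xb (xa T2.l3 T2.l3) (xa T2.l3 T2.l3)) (xb T2.l0 T2.l0)) (xb (xb (xa (xb T2.l3 T2.l3) (xb (xs T2.l3 T2.l3) T2.l3)) (xa T2.l3 (xb T2.l0 T2.l0))) (xb (xa T2.l0 T2.l0) T2.l0))))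
  (TrL.c (I.pos (nat_lit 0) (nat_lit 0)) (xa (xb T0.l6 T0.l6) (xb T0.l2 T0.l6))
  (TrL.c (I.pos (nat_lit 0) (nat_lit 89480386)) (xR T2.l7 (xR T2.l7 T2.l7))
  (TrL.c (I.pos (nat_lit 0) (nat_lit 41530880)) T0.l7
  (TrL.c (I.pos (nat_lit 0) (nat_lit 0)) (xa (xb T0.l9 T0.l9) (xb (xa T0.l9 (xb T0.l9 T0.l9)) (xa (xb T0.l9 T0.l9) (xb T0.l9 (xb (xs T0.l9 T0.l9) (xs (xa T0.l9 T0.l9) (xa T0.l9 (xs T0.l9 (xb T0.l9 T0.l9)))))))))
  (TrL.c (I.pos (nat_lit 0) (nat_lit 0)) (xa T2.l8 (xb T2.l8 T2.l8))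
  (TrL.c (I.mix (nat_lit 41527258) (nat_lit 41530880)) (xR T0.l8 T0.l1)
  (TrL.c (I.mix (nat_lit 41527258) (nat_lit 4274)) T2.l9
  TrL.n)))))))) (by decide +kernel)
theorem bx2_1 : BoxOK sI cl6 cl6 cl5 t2 t0 b2_1 :=
  box_mk (TrL.c (I.pos (nat_lit 0) (nat_lit 0)) T2.l0
  (TrL.c (I.pos (nat_lit 0) (nat_lit 0)) T0.l6
  (TrL.c (I.pos (nat_lit 0) (nat_lit 89480386)) (xR T2.l7 T2.l7)
  (TrL.c (I.pos (nat_lit 0) (nat_lit 41530880)) T0.l7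
  (TrL.c (I.pos (nat_lit 0) (nat_lit 0)) T0.l9
  (TrL.c (I.pos (nat_lit 0) (nat_lit 0)) T2.l8
  (TrL.c (I.mix (nat_lit 41527258) (nat_lit 41530880)) T0.l8
  (TrL.c (I.mix (nat_lit 41527258) (nat_lit 4274)) T2.l9
  TrL.n)))))))) (by decide +kernel)
theorem bx2_2 : BoxOK sI cl6 cl6 cl5 t2 t0 b2_2 :=
  box_mk (TrL.c (I.pos (nat_lit 0) (nat_lit 0)) T2.l0
  (TrL.c (I.pos (nat_lit 0) (nat_lit 0)) T0.l6
  (TrL.c (I.pos (nat_lit 0) (nat_lit 89480386)) T2.l7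
  (TrL.c (I.pos (nat_lit 0) (nat_lit 41530880)) T0.l8
  (TrL.c (I.pos (nat_lit 0) (nat_lit 0)) T0.l9
  (TrL.c (I.pos (nat_lit 0) (nat_lit 0)) T2.l8
  (TrL.c (I.mix (nat_lit 41527258) (nat_lit 41530880)) T0.l8
  (TrL.c (I.mix (nat_lit 41527258) (nat_lit 4274)) T2.l9
  TrL.n)))))))) (by decide +kernel)
theorem bx2_3 : BoxOK sI cl6 cl6 cl5 t2 t0 b2_3 :=
  box_mk (TrL.c (I.pos (nat_lit 0) (nat_lit 0)) (xb (xa (xb T2.l0 T2.l0) (xb (xa T2.l0 T2.l0) T2.l0)) (xa T2.l0 T2.l0))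
  (TrL.c (I.pos (nat_lit 0) (nat_lit 0)) (xb T0.l6 T0.l6)
  (TrL.c (I.pos (nat_lit 0) (nat_lit 89480386)) (xR T2.l7 T2.l7)
  (TrL.c (I.pos (nat_lit 0) (nat_lit 41530880)) T0.l7
  (TrL.c (I.pos (nat_lit 0) (nat_lit 0)) (xb T0.l9 T0.l9)
  (TrL.c (I.pos (nat_lit 0) (nat_lit 0)) T2.l8
  (TrL.c (I.mix (nat_lit 41527258) (nat_lit 41530880)) (xR T0.l8 T0.l1)
  (TrL.c (I.mix (nat_lit 41527258) (nat_lit 4274)) T2.l9
  TrL.n)))))))) (by decide +kernel)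
theorem bx2_4 : BoxOK sI cl6 cl6 cl5 t2 t0 b2_4 :=
  box_mk (TrL.c (I.pos (nat_lit 0) (nat_lit 0)) (xa (xa T2.l0 T2.l0) T2.l0)
  (TrL.c (I.pos (nat_lit 0) (nat_lit 0)) T0.l6
  (TrL.c (I.pos (nat_lit 0) (nat_lit 89480386)) T2.l7
  (TrL.c (I.pos (nat_lit 0) (nat_lit 41530880)) T0.l7
  (TrL.c (I.pos (nat_lit 0) (nat_lit 0)) T0.l9
  (TrL.c (I.pos (nat_lit 0) (nat_lit 0)) T2.l8
  (TrL.c (I.mix (nat_lit 41527258) (nat_lit 41530880)) T0.l8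
  (TrL.c (I.mix (nat_lit 41527258) (nat_lit 4274)) T2.l9
  TrL.n)))))))) (by decide +kernel)
theorem bx2_5 : BoxOK sI cl6 cl6 cl5 t2 t0 b2_5 :=
  box_mk (TrL.c (I.pos (nat_lit 0) (nat_lit 0)) T2.l0
  (TrL.c (I.pos (nat_lit 0) (nat_lit 0)) T0.l6
  (TrL.c (I.pos (nat_lit 0) (nat_lit 89480386)) (xR T2.l7 T2.l7)
  (TrL.c (I.pos (nat_lit 0) (nat_lit 41530880)) T0.l7
  (TrL.c (I.pos (nat_lit 0) (nat_lit 0)) T0.l9
  (TrL.c (I.pos (nat_lit 0) (nat_lit 0)) T2.l8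
  (TrL.c (I.mix (nat_lit 41527258) (nat_lit 41530880)) T0.l8
  (TrL.c (I.mix (nat_lit 41527258) (nat_lit 4274)) T2.l9
  TrL.n)))))))) (by decide +kernel)
theorem bx2_6 : BoxOK sI cl6 cl6 cl5 t2 t0 b2_6 :=
  box_mk (TrL.c (I.pos (nat_lit 0) (nat_lit 0)) T2.l0
  (TrL.c (I.pos (nat_lit 0) (nat_lit 0)) T0.l6
  (TrL.c (I.pos (nat_lit 0) (nat_lit 89480386)) T2.l7
  (TrL.c (I.pos (nat_lit 0) (nat_lit 41530880)) T0.l7
  (TrL.c (I.pos (nat_lit 0) (nat_lit 0)) T0.l9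
  (TrL.c (I.pos (nat_lit 0) (nat_lit 0)) T2.l8
  (TrL.c (I.mix (nat_lit 41527258) (nat_lit 41530880)) T0.l8
  (TrL.c (I.mix (nat_lit 41527258) (nat_lit 4274)) T2.l9
  TrL.n)))))))) (by decide +kernel)
theorem bx2_7 : BoxOK sI cl6 cl6 cl5 t2 t0 b2_7 :=
  box_mk (TrL.c (I.pos (nat_lit 0) (nat_lit 0)) (xa T2.l0 T2.l0)
  (TrL.c (I.pos (nat_lit 0) (nat_lit 0)) (xa T0.l6 T0.l6)
  (TrL.c (I.pos (nat_lit 0) (nat_lit 89480386)) T2.l7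
  (TrL.c (I.pos (nat_lit 0) (nat_lit 41530880)) T0.l7
  (TrL.c (I.pos (nat_lit 0) (nat_lit 0)) T0.l9
  (TrL.c (I.pos (nat_lit 0) (nat_lit 0)) T2.l8
  (TrL.c (I.mix (nat_lit 41527258) (nat_lit 41530880)) T0.l8
  (TrL.c (I.mix (nat_lit 41527258) (nat_lit 4274)) T2.l9
  TrL.n)))))))) (by decide +kernel)
theorem bx2_8 : BoxOK sI cl6 cl6 cl5 t2 t0 b2_8 :=
  box_mk (TrL.c (I.pos (nat_lit 0) (nat_lit 0)) T2.l0
  (TrL.c (I.pos (nat_lit 0) (nat_lit 0)) T0.l6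
  (TrL.c (I.pos (nat_lit 0) (nat_lit 89480386)) (xR T2.l7 T2.l7)
  (TrL.c (I.pos (nat_lit 0) (nat_lit 41530880)) T0.l7
  (TrL.c (I.pos (nat_lit 0) (nat_lit 0)) T0.l9
  (TrL.c (I.pos (nat_lit 0) (nat_lit 0)) T2.l8
  (TrL.c (I.mix (nat_lit 41527258) (nat_lit 41530880)) T0.l8
  (TrL.c (I.mix (nat_lit 41527258) (nat_lit 4274)) T2.l9
  TrL.n)))))))) (by decide +kernel)
theorem bx2_9 : BoxOK sI cl6 cl6 cl5 t2 t0 b2_9 :=
  box_mk (TrL.c (I.pos (nat_lit 0) (nat_lit 0)) (xa T2.l0 T2.l0)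
  (TrL.c (I.pos (nat_lit 0) (nat_lit 0)) T0.l9
  (TrL.c (I.pos (nat_lit 0) (nat_lit 89480386)) T2.l7
  (TrL.c (I.pos (nat_lit 0) (nat_lit 41530880)) T0.l8
  (TrL.c (I.pos (nat_lit 0) (nat_lit 0)) T0.l6
  (TrL.c (I.pos (nat_lit 0) (nat_lit 0)) T2.l7
  (TrL.c (I.mix (nat_lit 41527258) (nat_lit 41530880)) (xR T0.l8 T0.l7)
  (TrL.c (I.mix (nat_lit 41527258) (nat_lit 4274)) T2.l9
  TrL.n)))))))) (by decide +kernel)
theorem sv2 : StarV sI cl6 cl6 cl5 t2 t0 t2 :=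
  (bt_n (bt_n (bt_n (bt_b bx2_0) (bt_b bx2_1)) (bt_n (bt_b bx2_2) (bt_n (bt_b bx2_3) (bt_b bx2_4)))) (bt_n (bt_n (bt_b bx2_5) (bt_b bx2_6)) (bt_n (bt_b bx2_7) (bt_n (bt_b bx2_8) (bt_b bx2_9)))))
def S2 : StarD := StarD.mk cl6 cl6 cl5 2 0 t2
def G : List StarD := [S0, S1, S2]
theorem so0 : StarOK sI G S0 :=
  star_mk (by decide) (by decide) rfl rfl rfl rfl rfl rfl (rfl : _ = t1) (rfl : _ = t1)
  (st_mk (Pth.l (Pth.l (Pth.l Pth.z))) (nat_lit 191747606) (nat_lit 192611112) (by decide +kernel))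
  (st_mk (Pth.l (Pth.l (Pth.l Pth.z))) (nat_lit 229051647) (nat_lit 230297082) (by decide +kernel))
  (st_mk (Pth.l (Pth.l (Pth.l Pth.z))) (nat_lit 272673510) (nat_lit 274464198) (by decide +kernel)) sv0
theorem so1 : StarOK sI G S1 :=
  star_mk (by decide) (by decide) rfl rfl rfl rfl rfl rfl (rfl : _ = t0) (rfl : _ = t2)
  (st_mk (Pth.l (Pth.l (Pth.l Pth.z))) (nat_lit 244098863) (nat_lit 244971082) (by decide +kernel))
  (st_mk (Pth.l (Pth.l (Pth.l Pth.z))) (nat_lit 280864614) (nat_lit 282025854) (by decide +kernel))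
  (st_mk (Pth.l (Pth.l (Pth.l Pth.z))) (nat_lit 323633700) (nat_lit 325187674) (by decide +kernel)) sv1
theorem so2 : StarOK sI G S2 :=
  star_mk (by decide) (by decide) rfl rfl rfl rfl rfl rfl (rfl : _ = t2) (rfl : _ = t0)
  (st_mk (Pth.l (Pth.l (Pth.l Pth.z))) (nat_lit 190161177) (nat_lit 190772505) (by decide +kernel))
  (st_mk (Pth.l (Pth.l (Pth.l Pth.z))) (nat_lit 226768153) (nat_lit 227641979) (by decide +kernel))
  (st_mk (Pth.l (Pth.l (Pth.l Pth.z))) (nat_lit 269404140) (nat_lit 270647824) (by decide +kernel)) sv2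
theorem ok : GroupOK (nat_lit 150274048) (nat_lit 209387520) G := grp_mk (allS_c so0 (allS_c so1 (allS_c so2 allS_n)))
theorem cov : GCov G cl5 cl6 cl6 := cov_mk
  ⟨0, by decide, rfl, rfl, rfl⟩ ⟨0, by decide, rfl, rfl, rfl⟩ ⟨1, by decide, rfl, rfl, rfl⟩ ⟨2, by decide, rfl, rfl, rfl⟩ ⟨1, by decide, rfl, rfl, rfl⟩ ⟨2, by decide, rfl, rfl, rfl⟩
end Q233_2

namespace Q233_3
def sI : I := I.pos (nat_lit 209321984) (nat_lit 268435456)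
def b0_0 : Bx := Bx.mk (St.mk (I.pos (nat_lit 144359424) (nat_lit 229146624)) (I.mix (nat_lit 1867776) (nat_lit 62570496)) (I.mix (nat_lit 2490368) (nat_lit 85540864)) (I.pos (nat_lit 188956672) (nat_lit 300613632)) (I.mix (nat_lit 138182656) (nat_lit 82919424)) (I.mix (nat_lit 78970880) (nat_lit 74366976)) (I.mix (nat_lit 109576192) (nat_lit 107708416)))
  false (nat_lit 0)
def b0_1 : Bx := Bx.mk (St.mk (I.mix (nat_lit 31129600) (nat_lit 98189312)) (I.mix (nat_lit 4079616) (nat_lit 39665664)) (I.mix (nat_lit 16187392) (nat_lit 11665408)) (I.pos (nat_lit 79527936) (nat_lit 125943808)) (I.mix (nat_lit 50561024) (nat_lit 62078976)) (I.mix (nat_lit 42778624) (nat_lit 37912576)) (I.mix (nat_lit 28524544) (nat_lit 19349504)))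
  false (nat_lit 0)
def b0_2 : Bx := Bx.mk (St.mk (I.pos (nat_lit 79675392) (nat_lit 118980608)) (I.mix (nat_lit 53821440) (nat_lit 4931584)) (I.neg (nat_lit 9256960) (nat_lit 52051968)) (I.pos (nat_lit 113704960) (nat_lit 145457152)) (I.mix (nat_lit 90046464) (nat_lit 32833536)) (I.mix (nat_lit 36028416) (nat_lit 69042176)) (I.mix (nat_lit 25100288) (nat_lit 45826048)))
  false (nat_lit 0)
def b0_3 : Bx := Bx.mk (St.mk (I.mix (nat_lit 46481408) (nat_lit 30392320)) (I.mix (nat_lit 34095104) (nat_lit 1703936)) (I.neg (nat_lit 180224) (nat_lit 12779520)) (I.pos (nat_lit 83591168) (nat_lit 102252544)) (I.mix (nat_lit 44220416) (nat_lit 29868032)) (I.mix (nat_lit 23068672) (nat_lit 30015488)) (I.mix (nat_lit 11976704) (nat_lit 8044544)))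
  false (nat_lit 0)
def b0_4 : Bx := Bx.mk (St.mk (I.pos (nat_lit 184107008) (nat_lit 269484032)) (I.mix (nat_lit 8077312) (nat_lit 37240832)) (I.mix (nat_lit 52477952) (nat_lit 32866304)) (I.pos (nat_lit 248332288) (nat_lit 379846656)) (I.mix (nat_lit 101433344) (nat_lit 62521344)) (I.mix (nat_lit 61112320) (nat_lit 44548096)) (I.mix (nat_lit 92192768) (nat_lit 76218368)))
  false (nat_lit 0)
def b0_5 : Bx := Bx.mk (St.mk (I.mix (nat_lit 50413568) (nat_lit 5865472)) (I.mix (nat_lit 311296) (nat_lit 11517952)) (I.neg (nat_lit 8749056) (nat_lit 14581760)) (I.pos (nat_lit 87965696) (nat_lit 100007936)) (I.mix (nat_lit 8699904) (nat_lit 16007168)) (I.mix (nat_lit 7274496) (nat_lit 6766592)) (I.mix (nat_lit 2998272) (nat_lit 3293184)))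
  false (nat_lit 0)
def b0_6 : Bx := Bx.mk (St.mk (I.pos (nat_lit 176603136) (nat_lit 227622912)) (I.pos (nat_lit 12271616) (nat_lit 58867712)) (I.pos (nat_lit 5292032) (nat_lit 77021184)) (I.pos (nat_lit 244858880) (nat_lit 297451520)) (I.mix (nat_lit 108003328) (nat_lit 83312640)) (I.mix (nat_lit 85065728) (nat_lit 59719680)) (I.mix (nat_lit 134021120) (nat_lit 80986112)))
  false (nat_lit 0)
def b0_7 : Bx := Bx.mk (St.mk (I.pos (nat_lit 81002496) (nat_lit 164200448)) (I.neg (nat_lit 6897664) (nat_lit 57311232)) (I.neg (nat_lit 5406720) (nat_lit 55197696)) (I.pos (nat_lit 122126336) (nat_lit 194625536)) (I.mix (nat_lit 94584832) (nat_lit 54542336)) (I.mix (nat_lit 45350912) (nat_lit 55230464)) (I.mix (nat_lit 39010304) (nat_lit 47202304)))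
  false (nat_lit 0)
def b0_8 : Bx := Bx.mk (St.mk (I.mix (nat_lit 37355520) (nat_lit 51544064)) (I.mix (nat_lit 33849344) (nat_lit 6569984)) (I.neg (nat_lit 835584) (nat_lit 15515648)) (I.pos (nat_lit 82706432) (nat_lit 102514688)) (I.mix (nat_lit 41467904) (nat_lit 40222720)) (I.mix (nat_lit 27033600) (nat_lit 30064640)) (I.mix (nat_lit 11649024) (nat_lit 12484608)))
  false (nat_lit 0)
def b0_9 : Bx := Bx.mk (St.mk (I.mix (nat_lit 52740096) (nat_lit 74268672)) (I.mix (nat_lit 11452416) (nat_lit 33849344)) (I.mix (nat_lit 15515648) (nat_lit 8503296)) (I.pos (nat_lit 82673664) (nat_lit 112967680)) (I.mix (nat_lit 57147392) (nat_lit 42778624)) (I.mix (nat_lit 40697856) (nat_lit 35258368)) (I.mix (nat_lit 16056320) (nat_lit 17858560)))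
  false (nat_lit 0)
def b0_10 : Bx := Bx.mk (St.mk (I.pos (nat_lit 131563520) (nat_lit 194871296)) (I.mix (nat_lit 37912576) (nat_lit 7553024)) (I.mix (nat_lit 37158912) (nat_lit 14778368)) (I.pos (nat_lit 162217984) (nat_lit 231342080)) (I.mix (nat_lit 65765376) (nat_lit 59817984)) (I.mix (nat_lit 55066624) (nat_lit 47644672)) (I.mix (nat_lit 53624832) (nat_lit 43352064)))
  false (nat_lit 0)
def b0_11 : Bx := Bx.mk (St.mk (I.pos (nat_lit 152272896) (nat_lit 192528384)) (I.mix (nat_lit 7929856) (nat_lit 29818880)) (I.pos (nat_lit 1212416) (nat_lit 46333952)) (I.pos (nat_lit 190545920) (nat_lit 231931904)) (I.mix (nat_lit 119881728) (nat_lit 55476224)) (I.mix (nat_lit 113311744) (nat_lit 43089920)) (I.mix (nat_lit 111886336) (nat_lit 41697280)))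
  false (nat_lit 0)
def b0_12 : Bx := Bx.mk (St.mk (I.pos (nat_lit 150945792) (nat_lit 205094912)) (I.mix (nat_lit 5783552) (nat_lit 58949632)) (I.pos (nat_lit 7307264) (nat_lit 79593472)) (I.pos (nat_lit 189546496) (nat_lit 259194880)) (I.mix (nat_lit 135118848) (nat_lit 52232192)) (I.mix (nat_lit 112443392) (nat_lit 70778880)) (I.mix (nat_lit 107151360) (nat_lit 68927488)))
  false (nat_lit 0)
def b0_13 : Bx := Bx.mk (St.mk (I.pos (nat_lit 82051072) (nat_lit 93454336)) (I.mix (nat_lit 2752512) (nat_lit 8814592)) (I.neg (nat_lit 7061504) (nat_lit 15237120)) (I.pos (nat_lit 115671040) (nat_lit 124026880)) (I.mix (nat_lit 10141696) (nat_lit 12845056)) (I.mix (nat_lit 7716864) (nat_lit 4587520)) (I.mix (nat_lit 6094848) (nat_lit 3145728)))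
  false (nat_lit 0)
def t0 : BTr := (BTr.n (BTr.n (BTr.n (BTr.b b0_0) (BTr.n (BTr.b b0_1) (BTr.b b0_2))) (BTr.n (BTr.n (BTr.b b0_3) (BTr.b b0_4)) (BTr.n (BTr.b b0_5) (BTr.b b0_6)))) (BTr.n (BTr.n (BTr.b b0_7) (BTr.n (BTr.b b0_8) (BTr.b b0_9))) (BTr.n (BTr.n (BTr.b b0_10) (BTr.b b0_11)) (BTr.n (BTr.b b0_12) (BTr.b b0_13)))))
namespace T0
def l0 : Tr := Tr.L (Pth.l (Pth.l (Pth.l Pth.z)))
def l1 : Tr := Tr.L (Pth.l (Pth.l (Pth.r (Pth.l Pth.z))))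
def l2 : Tr := Tr.L (Pth.l (Pth.l (Pth.r (Pth.r Pth.z))))
def l3 : Tr := Tr.L (Pth.l (Pth.r (Pth.l (Pth.l Pth.z))))
def l4 : Tr := Tr.L (Pth.l (Pth.r (Pth.l (Pth.r Pth.z))))
def l5 : Tr := Tr.L (Pth.l (Pth.r (Pth.r (Pth.l Pth.z))))
def l6 : Tr := Tr.L (Pth.l (Pth.r (Pth.r (Pth.r Pth.z))))
def l7 : Tr := Tr.L (Pth.r (Pth.l (Pth.l Pth.z)))
def l8 : Tr := Tr.L (Pth.r (Pth.l (Pth.r (Pth.l Pth.z))))
def l9 : Tr := Tr.L (Pth.r (Pth.l (Pth.r (Pth.r Pth.z))))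
def l10 : Tr := Tr.L (Pth.r (Pth.r (Pth.l (Pth.l Pth.z))))
def l11 : Tr := Tr.L (Pth.r (Pth.r (Pth.l (Pth.r Pth.z))))
def l12 : Tr := Tr.L (Pth.r (Pth.r (Pth.r (Pth.l Pth.z))))
def l13 : Tr := Tr.L (Pth.r (Pth.r (Pth.r (Pth.r Pth.z))))
end T0
def b1_0 : Bx := Bx.mk (St.mk (I.pos (nat_lit 138182656) (nat_lit 222707712)) (I.mix (nat_lit 2064384) (nat_lit 68927488)) (I.mix (nat_lit 2768896) (nat_lit 94224384)) (I.pos (nat_lit 241582080) (nat_lit 344096768)) (I.mix (nat_lit 144064512) (nat_lit 90996736)) (I.mix (nat_lit 81231872) (nat_lit 76578816)) (I.mix (nat_lit 115376128) (nat_lit 112263168)))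
  false (nat_lit 4614650)
def b1_1 : Bx := Bx.mk (St.mk (I.pos (nat_lit 64290816) (nat_lit 151535616)) (I.neg (nat_lit 5783552) (nat_lit 66289664)) (I.mix (nat_lit 56197120) (nat_lit 3702784)) (I.pos (nat_lit 164364288) (nat_lit 233144320)) (I.mix (nat_lit 95649792) (nat_lit 55787520)) (I.mix (nat_lit 46727168) (nat_lit 58867712)) (I.mix (nat_lit 42860544) (nat_lit 52084736)))
  false (nat_lit 0)
def b1_2 : Bx := Bx.mk (St.mk (I.pos (nat_lit 20037632) (nat_lit 76300288)) (I.mix (nat_lit 13008896) (nat_lit 45334528)) (I.mix (nat_lit 23543808) (nat_lit 4243456)) (I.pos (nat_lit 145129472) (nat_lit 165314560)) (I.mix (nat_lit 38977536) (nat_lit 60506112)) (I.mix (nat_lit 40075264) (nat_lit 36306944)) (I.mix (nat_lit 23691264) (nat_lit 14827520)))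
  false (nat_lit 0)
def b1_3 : Bx := Bx.mk (St.mk (I.mix (nat_lit 36831232) (nat_lit 10551296)) (I.mix (nat_lit 40108032) (nat_lit 8929280)) (I.mix (nat_lit 2064384) (nat_lit 2768896)) (I.pos (nat_lit 143310848) (nat_lit 154124288)) (I.mix (nat_lit 29999104) (nat_lit 49233920)) (I.mix (nat_lit 27754496) (nat_lit 35192832)) (I.mix (nat_lit 5226496) (nat_lit 6946816)))
  true (nat_lit 0)
def b1_4 : Bx := Bx.mk (St.mk (I.pos (nat_lit 140165120) (nat_lit 192462848)) (I.mix (nat_lit 311296) (nat_lit 59621376)) (I.pos (nat_lit 17580032) (nat_lit 84279296)) (I.pos (nat_lit 228081664) (nat_lit 294060032)) (I.mix (nat_lit 145817600) (nat_lit 46284800)) (I.mix (nat_lit 119947264) (nat_lit 64684032)) (I.mix (nat_lit 114966528) (nat_lit 72204288)))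
  false (nat_lit 0)
def b1_5 : Bx := Bx.mk (St.mk (I.pos (nat_lit 47316992) (nat_lit 96927744)) (I.mix (nat_lit 61341696) (nat_lit 13697024)) (I.neg (nat_lit 9961472) (nat_lit 52051968)) (I.pos (nat_lit 150028288) (nat_lit 184303616)) (I.mix (nat_lit 98680832) (nat_lit 37044224)) (I.mix (nat_lit 38305792) (nat_lit 70647808)) (I.mix (nat_lit 31768576) (nat_lit 41533440)))
  false (nat_lit 0)
def b1_6 : Bx := Bx.mk (St.mk (I.mix (nat_lit 11354112) (nat_lit 36929536)) (I.mix (nat_lit 10682368) (nat_lit 40157184)) (I.mix (nat_lit 2064384) (nat_lit 2768896)) (I.pos (nat_lit 143310848) (nat_lit 154124288)) (I.mix (nat_lit 49233920) (nat_lit 29999104)) (I.mix (nat_lit 35192832) (nat_lit 27754496)) (I.mix (nat_lit 5226496) (nat_lit 6946816)))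
  false (nat_lit 0)
def b1_7 : Bx := Bx.mk (St.mk (I.neg (nat_lit 20037632) (nat_lit 76300288)) (I.mix (nat_lit 45334528) (nat_lit 13008896)) (I.mix (nat_lit 23609344) (nat_lit 4243456)) (I.pos (nat_lit 145162240) (nat_lit 165314560)) (I.mix (nat_lit 60506112) (nat_lit 38977536)) (I.mix (nat_lit 36372480) (nat_lit 40075264)) (I.mix (nat_lit 23691264) (nat_lit 14827520)))
  true (nat_lit 0)
def b1_8 : Bx := Bx.mk (St.mk (I.pos (nat_lit 178667520) (nat_lit 289439744)) (I.mix (nat_lit 32702464) (nat_lit 46907392)) (I.mix (nat_lit 110198784) (nat_lit 46055424)) (I.pos (nat_lit 290209792) (nat_lit 468500480)) (I.mix (nat_lit 92569600) (nat_lit 71811072)) (I.mix (nat_lit 70336512) (nat_lit 63225856)) (I.mix (nat_lit 128811008) (nat_lit 105250816)))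
  false (nat_lit 0)
def b1_9 : Bx := Bx.mk (St.mk (I.pos (nat_lit 123011072) (nat_lit 187121664)) (I.mix (nat_lit 40763392) (nat_lit 14614528)) (I.mix (nat_lit 31031296) (nat_lit 28835840)) (I.pos (nat_lit 204947456) (nat_lit 275611648)) (I.mix (nat_lit 60489728) (nat_lit 61751296)) (I.mix (nat_lit 55066624) (nat_lit 49283072)) (I.mix (nat_lit 54427648) (nat_lit 48676864)))
  false (nat_lit 0)
def b1_10 : Bx := Bx.mk (St.mk (I.pos (nat_lit 139640832) (nat_lit 187170816)) (I.mix (nat_lit 7847936) (nat_lit 37158912)) (I.pos (nat_lit 6356992) (nat_lit 59850752)) (I.pos (nat_lit 228900864) (nat_lit 277790720)) (I.mix (nat_lit 128516096) (nat_lit 56147968)) (I.mix (nat_lit 111935488) (nat_lit 49348608)) (I.mix (nat_lit 108724224) (nat_lit 52101120)))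
  false (nat_lit 0)
def b1_11 : Bx := Bx.mk (St.mk (I.pos (nat_lit 165199872) (nat_lit 222216192)) (I.pos (nat_lit 13123584) (nat_lit 68616192)) (I.pos (nat_lit 9830400) (nat_lit 91013120)) (I.pos (nat_lit 279609344) (nat_lit 338624512)) (I.mix (nat_lit 121552896) (nat_lit 89833472)) (I.mix (nat_lit 87097344) (nat_lit 69107712)) (I.mix (nat_lit 133758976) (nat_lit 94126080)))
  false (nat_lit 0)
def t1 : BTr := (BTr.n (BTr.n (BTr.n (BTr.b b1_0) (BTr.n (BTr.b b1_1) (BTr.b b1_2))) (BTr.n (BTr.b b1_3) (BTr.n (BTr.b b1_4) (BTr.b b1_5)))) (BTr.n (BTr.n (BTr.b b1_6) (BTr.n (BTr.b b1_7) (BTr.b b1_8))) (BTr.n (BTr.b b1_9) (BTr.n (BTr.b b1_10) (BTr.b b1_11)))))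
namespace T1
def l0 : Tr := Tr.L (Pth.l (Pth.l (Pth.l Pth.z)))
def l1 : Tr := Tr.L (Pth.l (Pth.l (Pth.r (Pth.l Pth.z))))
def l2 : Tr := Tr.L (Pth.l (Pth.l (Pth.r (Pth.r Pth.z))))
def l3 : Tr := Tr.L (Pth.l (Pth.r (Pth.l Pth.z)))
def l4 : Tr := Tr.L (Pth.l (Pth.r (Pth.r (Pth.l Pth.z))))
def l5 : Tr := Tr.L (Pth.l (Pth.r (Pth.r (Pth.r Pth.z))))
def l6 : Tr := Tr.L (Pth.r (Pth.l (Pth.l Pth.z)))
def l7 : Tr := Tr.L (Pth.r (Pth.l (Pth.r (Pth.l Pth.z))))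
def l8 : Tr := Tr.L (Pth.r (Pth.l (Pth.r (Pth.r Pth.z))))
def l9 : Tr := Tr.L (Pth.r (Pth.r (Pth.l Pth.z)))
def l10 : Tr := Tr.L (Pth.r (Pth.r (Pth.r (Pth.l Pth.z))))
def l11 : Tr := Tr.L (Pth.r (Pth.r (Pth.r (Pth.r Pth.z))))
end T1
def b2_0 : Bx := Bx.mk (St.mk (I.pos (nat_lit 138854400) (nat_lit 228392960)) (I.mix (nat_lit 1785856) (nat_lit 59359232)) (I.mix (nat_lit 2867200) (nat_lit 98533376)) (I.pos (nat_lit 187351040) (nat_lit 291209216)) (I.mix (nat_lit 147423232) (nat_lit 92487680)) (I.mix (nat_lit 92798976) (nat_lit 87883776)) (I.mix (nat_lit 124813312) (nat_lit 115982336)))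
  false (nat_lit 13122335)
def b2_1 : Bx := Bx.mk (St.mk (I.pos (nat_lit 86425600) (nat_lit 159924224)) (I.neg (nat_lit 9404416) (nat_lit 59801600)) (I.neg (nat_lit 1769472) (nat_lit 47579136)) (I.pos (nat_lit 128122880) (nat_lit 189480960)) (I.mix (nat_lit 85983232) (nat_lit 52445184)) (I.mix (nat_lit 42500096) (nat_lit 53231616)) (I.mix (nat_lit 36765696) (nat_lit 47251456)))
  false (nat_lit 0)
def b2_2 : Bx := Bx.mk (St.mk (I.mix (nat_lit 32997376) (nat_lit 48218112)) (I.mix (nat_lit 33751040) (nat_lit 2932736)) (I.mix (nat_lit 7847936) (nat_lit 5275648)) (I.pos (nat_lit 83984384) (nat_lit 102039552)) (I.mix (nat_lit 35323904) (nat_lit 39829504)) (I.mix (nat_lit 23576576) (nat_lit 27951104)) (I.mix (nat_lit 9486336) (nat_lit 10682368)))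
  false (nat_lit 0)
def b2_3 : Bx := Bx.mk (St.mk (I.pos (nat_lit 147931136) (nat_lit 200998912)) (I.mix (nat_lit 6930432) (nat_lit 56885248)) (I.pos (nat_lit 18219008) (nat_lit 91586560)) (I.pos (nat_lit 181977088) (nat_lit 247005184)) (I.mix (nat_lit 150093824) (nat_lit 47415296)) (I.mix (nat_lit 112640000) (nat_lit 57999360)) (I.mix (nat_lit 108003328) (nat_lit 52822016)))
  false (nat_lit 0)
def b2_4 : Bx := Bx.mk (St.mk (I.mix (nat_lit 50823168) (nat_lit 71892992)) (I.mix (nat_lit 6569984) (nat_lit 36421632)) (I.mix (nat_lit 7766016) (nat_lit 16449536)) (I.pos (nat_lit 83984384) (nat_lit 111935488)) (I.mix (nat_lit 57409536) (nat_lit 32735232)) (I.mix (nat_lit 37715968) (nat_lit 30720000)) (I.mix (nat_lit 14123008) (nat_lit 15368192)))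
  false (nat_lit 0)
def b2_5 : Bx := Bx.mk (St.mk (I.pos (nat_lit 138690560) (nat_lit 192020480)) (I.mix (nat_lit 29835264) (nat_lit 6668288)) (I.mix (nat_lit 12845056) (nat_lit 29622272)) (I.pos (nat_lit 168558592) (nat_lit 226721792)) (I.mix (nat_lit 63029248) (nat_lit 58605568)) (I.mix (nat_lit 51462144) (nat_lit 46235648)) (I.mix (nat_lit 47415296) (nat_lit 45416448)))
  false (nat_lit 0)
def b2_6 : Bx := Bx.mk (St.mk (I.pos (nat_lit 137986048) (nat_lit 158154752)) (I.neg (nat_lit 16924672) (nat_lit 36077568)) (I.neg (nat_lit 3145728) (nat_lit 22151168)) (I.pos (nat_lit 169033728) (nat_lit 187809792)) (I.mix (nat_lit 26935296) (nat_lit 17350656)) (I.mix (nat_lit 10846208) (nat_lit 13402112)) (I.mix (nat_lit 10190848) (nat_lit 12763136)))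
  false (nat_lit 0)
def b2_7 : Bx := Bx.mk (St.mk (I.mix (nat_lit 52133888) (nat_lit 49954816)) (I.mix (nat_lit 14303232) (nat_lit 5505024)) (I.mix (nat_lit 606208) (nat_lit 7225344)) (I.pos (nat_lit 88064000) (nat_lit 100597760)) (I.mix (nat_lit 14221312) (nat_lit 18759680)) (I.mix (nat_lit 11042816) (nat_lit 9535488)) (I.mix (nat_lit 4145152) (nat_lit 4145152)))
  false (nat_lit 0)
def b2_8 : Bx := Bx.mk (St.mk (I.mix (nat_lit 36306944) (nat_lit 101777408)) (I.mix (nat_lit 11272192) (nat_lit 39174144)) (I.mix (nat_lit 12451840) (nat_lit 20922368)) (I.pos (nat_lit 78266368) (nat_lit 128335872)) (I.mix (nat_lit 56868864) (nat_lit 61145088)) (I.mix (nat_lit 44417024) (nat_lit 41680896)) (I.mix (nat_lit 29933568) (nat_lit 25067520)))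
  false (nat_lit 0)
def b2_9 : Bx := Bx.mk (St.mk (I.pos (nat_lit 75841536) (nat_lit 123551744)) (I.mix (nat_lit 56836096) (nat_lit 8159232)) (I.mix (nat_lit 44728320) (nat_lit 491520)) (I.pos (nat_lit 112918528) (nat_lit 151076864)) (I.mix (nat_lit 91570176) (nat_lit 31293440)) (I.mix (nat_lit 39387136) (nat_lit 70975488)) (I.mix (nat_lit 29425664) (nat_lit 45318144)))
  false (nat_lit 0)
def b2_10 : Bx := Bx.mk (St.mk (I.mix (nat_lit 51675136) (nat_lit 34324480)) (I.mix (nat_lit 34013184) (nat_lit 7979008)) (I.mix (nat_lit 6537216) (nat_lit 7110656)) (I.pos (nat_lit 83804160) (nat_lit 102334464)) (I.mix (nat_lit 42795008) (nat_lit 34979840)) (I.mix (nat_lit 25853952) (nat_lit 29589504)) (I.mix (nat_lit 12238848) (nat_lit 9338880)))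
  false (nat_lit 0)
def b2_11 : Bx := Bx.mk (St.mk (I.pos (nat_lit 181665792) (nat_lit 287211520)) (I.mix (nat_lit 31309824) (nat_lit 43073536)) (I.mix (nat_lit 76578816) (nat_lit 67944448)) (I.pos (nat_lit 239517696) (nat_lit 412745728)) (I.mix (nat_lit 94306304) (nat_lit 69206016)) (I.mix (nat_lit 63373312) (nat_lit 64913408)) (I.mix (nat_lit 111607808) (nat_lit 108822528)))
  false (nat_lit 0)
def b2_12 : Bx := Bx.mk (St.mk (I.pos (nat_lit 167182336) (nat_lit 225951744)) (I.pos (nat_lit 11632640) (nat_lit 58916864)) (I.pos (nat_lit 24363008) (nat_lit 96452608)) (I.pos (nat_lit 228851712) (nat_lit 285704192)) (I.mix (nat_lit 118718464) (nat_lit 97763328)) (I.mix (nat_lit 93962240) (nat_lit 71122944)) (I.mix (nat_lit 141688832) (nat_lit 81772544)))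
  false (nat_lit 0)
def b2_13 : Bx := Bx.mk (St.mk (I.pos (nat_lit 151011328) (nat_lit 193740800)) (I.mix (nat_lit 13959168) (nat_lit 24903680)) (I.pos (nat_lit 8945664) (nat_lit 55148544)) (I.pos (nat_lit 183631872) (nat_lit 229081088)) (I.mix (nat_lit 114671616) (nat_lit 54001664)) (I.mix (nat_lit 106479616) (nat_lit 48906240)) (I.mix (nat_lit 104710144) (nat_lit 46956544)))
  false (nat_lit 0)
def t2 : BTr := (BTr.n (BTr.n (BTr.n (BTr.b b2_0) (BTr.n (BTr.b b2_1) (BTr.b b2_2))) (BTr.n (BTr.n (BTr.b b2_3) (BTr.b b2_4)) (BTr.n (BTr.b b2_5) (BTr.b b2_6)))) (BTr.n (BTr.n (BTr.b b2_7) (BTr.n (BTr.b b2_8) (BTr.b b2_9))) (BTr.n (BTr.n (BTr.b b2_10) (BTr.b b2_11)) (BTr.n (BTr.b b2_12) (BTr.b b2_13)))))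
namespace T2
def l0 : Tr := Tr.L (Pth.l (Pth.l (Pth.l Pth.z)))
def l1 : Tr := Tr.L (Pth.l (Pth.l (Pth.r (Pth.l Pth.z))))
def l2 : Tr := Tr.L (Pth.l (Pth.l (Pth.r (Pth.r Pth.z))))
def l3 : Tr := Tr.L (Pth.l (Pth.r (Pth.l (Pth.l Pth.z))))
def l4 : Tr := Tr.L (Pth.l (Pth.r (Pth.l (Pth.r Pth.z))))
def l5 : Tr := Tr.L (Pth.l (Pth.r (Pth.r (Pth.l Pth.z))))
def l6 : Tr := Tr.L (Pth.l (Pth.r (Pth.r (Pth.r Pth.z))))
def l7 : Tr := Tr.L (Pth.r (Pth.l (Pth.l Pth.z)))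
def l8 : Tr := Tr.L (Pth.r (Pth.l (Pth.r (Pth.l Pth.z))))
def l9 : Tr := Tr.L (Pth.r (Pth.l (Pth.r (Pth.r Pth.z))))
def l10 : Tr := Tr.L (Pth.r (Pth.r (Pth.l (Pth.l Pth.z))))
def l11 : Tr := Tr.L (Pth.r (Pth.r (Pth.l (Pth.r Pth.z))))
def l12 : Tr := Tr.L (Pth.r (Pth.r (Pth.r (Pth.l Pth.z))))
def l13 : Tr := Tr.L (Pth.r (Pth.r (Pth.r (Pth.r Pth.z))))
end T2
theorem bx0_0 : BoxOK sI cl5 cl6 cl6 t1 t1 b0_0 :=
  box_mk (TrL.c (I.pos (nat_lit 0) (nat_lit 0)) (xa (xb (xa T1.l11 T1.l0) (xa (xb T1.l0 T1.l0) (xb T1.l0 T1.l0))) (xb (xa T1.l0 T1.l0) (xa (xb T1.l0 T1.l0) (xb T1.l0 T1.l0))))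
  (TrL.c (I.pos (nat_lit 0) (nat_lit 0)) (xa (xb T1.l1 T1.l1) (xb T1.l1 T1.l1))
  (TrL.c (I.pos (nat_lit 0) (nat_lit 0)) T1.l2
  (TrL.c (I.pos (nat_lit 0) (nat_lit 0)) T1.l3
  (TrL.c (I.pos (nat_lit 0) (nat_lit 0)) (xa (xb T1.l4 T1.l4) (xb T1.l4 T1.l4))
  (TrL.c (I.pos (nat_lit 0) (nat_lit 0)) (xa T1.l5 T1.l5)
  (TrL.c (I.pos (nat_lit 0) (nat_lit 0)) T1.l6
  (TrL.c (I.pos (nat_lit 0) (nat_lit 0)) T1.l7
  TrL.n)))))))) (by decide +kernel)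
theorem bx0_1 : BoxOK sI cl5 cl6 cl6 t1 t1 b0_1 :=
  box_mk (TrL.c (I.pos (nat_lit 0) (nat_lit 0)) (xa (xa (xb T1.l8 T1.l8) T1.l8) (xa T1.l8 (xb T1.l8 T1.l8)))
  (TrL.c (I.pos (nat_lit 0) (nat_lit 0)) (xa T1.l9 T1.l1)
  (TrL.c (I.pos (nat_lit 0) (nat_lit 0)) T1.l2
  (TrL.c (I.pos (nat_lit 0) (nat_lit 0)) T1.l3
  (TrL.c (I.pos (nat_lit 0) (nat_lit 0)) (xa T1.l1 T1.l9)
  (TrL.c (I.pos (nat_lit 0) (nat_lit 0)) T1.l5
  (TrL.c (I.pos (nat_lit 0) (nat_lit 0)) T1.l6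
  (TrL.c (I.pos (nat_lit 0) (nat_lit 0)) T1.l7
  TrL.n)))))))) (by decide +kernel)
theorem bx0_2 : BoxOK sI cl5 cl6 cl6 t1 t1 b0_2 :=
  box_mk (TrL.c (I.pos (nat_lit 0) (nat_lit 0)) T1.l8
  (TrL.c (I.pos (nat_lit 0) (nat_lit 0)) T1.l1
  (TrL.c (I.pos (nat_lit 0) (nat_lit 0)) T1.l2
  (TrL.c (I.pos (nat_lit 0) (nat_lit 0)) T1.l3
  (TrL.c (I.pos (nat_lit 0) (nat_lit 0)) T1.l9
  (TrL.c (I.pos (nat_lit 0) (nat_lit 0)) T1.l5
  (TrL.c (I.pos (nat_lit 0) (nat_lit 0)) T1.l6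
  (TrL.c (I.pos (nat_lit 0) (nat_lit 0)) T1.l7
  TrL.n)))))))) (by decide +kernel)
theorem bx0_3 : BoxOK sI cl5 cl6 cl6 t1 t1 b0_3 :=
  box_mk (TrL.c (I.pos (nat_lit 0) (nat_lit 0)) (xa (xb T1.l8 T1.l8) T1.l8)
  (TrL.c (I.pos (nat_lit 0) (nat_lit 0)) T1.l1
  (TrL.c (I.pos (nat_lit 0) (nat_lit 0)) T1.l2
  (TrL.c (I.pos (nat_lit 0) (nat_lit 0)) T1.l6
  (TrL.c (I.pos (nat_lit 0) (nat_lit 0)) T1.l1
  (TrL.c (I.pos (nat_lit 0) (nat_lit 0)) T1.l5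
  (TrL.c (I.pos (nat_lit 0) (nat_lit 0)) T1.l6
  (TrL.c (I.pos (nat_lit 0) (nat_lit 0)) T1.l7
  TrL.n)))))))) (by decide +kernel)
theorem bx0_4 : BoxOK sI cl5 cl6 cl6 t1 t1 b0_4 :=
  box_mk (TrL.c (I.pos (nat_lit 0) (nat_lit 0)) (xa (xb T1.l0 T1.l0) (xa T1.l0 T1.l0))
  (TrL.c (I.pos (nat_lit 0) (nat_lit 0)) (xa T1.l1 T1.l1)
  (TrL.c (I.pos (nat_lit 0) (nat_lit 0)) T1.l2
  (TrL.c (I.pos (nat_lit 0) (nat_lit 0)) T1.l3
  (TrL.c (I.pos (nat_lit 0) (nat_lit 0)) (xa T1.l4 (xb T1.l4 T1.l4))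
  (TrL.c (I.pos (nat_lit 0) (nat_lit 0)) (xa T1.l5 T1.l1)
  (TrL.c (I.pos (nat_lit 0) (nat_lit 0)) T1.l6
  (TrL.c (I.pos (nat_lit 0) (nat_lit 0)) T1.l7
  TrL.n)))))))) (by decide +kernel)
theorem bx0_5 : BoxOK sI cl5 cl6 cl6 t1 t1 b0_5 :=
  box_mk (TrL.c (I.pos (nat_lit 0) (nat_lit 0)) T1.l8
  (TrL.c (I.pos (nat_lit 0) (nat_lit 0)) T1.l1
  (TrL.c (I.pos (nat_lit 0) (nat_lit 0)) T1.l2
  (TrL.c (I.pos (nat_lit 0) (nat_lit 0)) T1.l3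
  (TrL.c (I.pos (nat_lit 0) (nat_lit 0)) T1.l1
  (TrL.c (I.pos (nat_lit 0) (nat_lit 0)) T1.l5
  (TrL.c (I.pos (nat_lit 0) (nat_lit 0)) T1.l6
  (TrL.c (I.pos (nat_lit 0) (nat_lit 0)) T1.l7
  TrL.n)))))))) (by decide +kernel)
theorem bx0_6 : BoxOK sI cl5 cl6 cl6 t1 t1 b0_6 :=
  box_mk (TrL.c (I.pos (nat_lit 0) (nat_lit 0)) (xa (xb T1.l0 T1.l0) (xb T1.l0 T1.l0))
  (TrL.c (I.pos (nat_lit 0) (nat_lit 0)) T1.l1
  (TrL.c (I.pos (nat_lit 0) (nat_lit 0)) T1.l2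
  (TrL.c (I.pos (nat_lit 0) (nat_lit 0)) T1.l3
  (TrL.c (I.pos (nat_lit 0) (nat_lit 0)) (xa T1.l4 T1.l4)
  (TrL.c (I.pos (nat_lit 0) (nat_lit 0)) T1.l5
  (TrL.c (I.pos (nat_lit 0) (nat_lit 0)) T1.l6
  (TrL.c (I.pos (nat_lit 0) (nat_lit 0)) T1.l7
  TrL.n)))))))) (by decide +kernel)
theorem bx0_7 : BoxOK sI cl5 cl6 cl6 t1 t1 b0_7 :=
  box_mk (TrL.c (I.pos (nat_lit 0) (nat_lit 0)) (xa (xb T1.l8 T1.l8) (xb T1.l0 T1.l8))
  (TrL.c (I.pos (nat_lit 0) (nat_lit 0)) T1.l1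
  (TrL.c (I.pos (nat_lit 0) (nat_lit 0)) T1.l2
  (TrL.c (I.pos (nat_lit 0) (nat_lit 0)) T1.l3
  (TrL.c (I.pos (nat_lit 0) (nat_lit 0)) (xa T1.l9 T1.l9)
  (TrL.c (I.pos (nat_lit 0) (nat_lit 0)) T1.l5
  (TrL.c (I.pos (nat_lit 0) (nat_lit 0)) T1.l6
  (TrL.c (I.pos (nat_lit 0) (nat_lit 0)) T1.l7
  TrL.n)))))))) (by decide +kernel)
theorem bx0_8 : BoxOK sI cl5 cl6 cl6 t1 t1 b0_8 :=
  box_mk (TrL.c (I.pos (nat_lit 0) (nat_lit 0)) (xa (xb T1.l8 T1.l8) T1.l8)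
  (TrL.c (I.pos (nat_lit 0) (nat_lit 0)) T1.l1
  (TrL.c (I.pos (nat_lit 0) (nat_lit 0)) T1.l2
  (TrL.c (I.pos (nat_lit 0) (nat_lit 0)) T1.l3
  (TrL.c (I.pos (nat_lit 0) (nat_lit 0)) T1.l9
  (TrL.c (I.pos (nat_lit 0) (nat_lit 0)) T1.l5
  (TrL.c (I.pos (nat_lit 0) (nat_lit 0)) T1.l6
  (TrL.c (I.pos (nat_lit 0) (nat_lit 0)) T1.l7
  TrL.n)))))))) (by decide +kernel)
theorem bx0_9 : BoxOK sI cl5 cl6 cl6 t1 t1 b0_9 :=
  box_mk (TrL.c (I.pos (nat_lit 0) (nat_lit 0)) (xa (xb (xa T1.l8 T1.l8) (xa T1.l8 T1.l8)) (xa T1.l8 T1.l8))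
  (TrL.c (I.pos (nat_lit 0) (nat_lit 0)) (xa T1.l9 T1.l1)
  (TrL.c (I.pos (nat_lit 0) (nat_lit 0)) T1.l2
  (TrL.c (I.pos (nat_lit 0) (nat_lit 0)) T1.l3
  (TrL.c (I.pos (nat_lit 0) (nat_lit 0)) (xa T1.l1 T1.l9)
  (TrL.c (I.pos (nat_lit 0) (nat_lit 0)) T1.l5
  (TrL.c (I.pos (nat_lit 0) (nat_lit 0)) T1.l6
  (TrL.c (I.pos (nat_lit 0) (nat_lit 0)) T1.l7
  TrL.n)))))))) (by decide +kernel)
theorem bx0_10 : BoxOK sI cl5 cl6 cl6 t1 t1 b0_10 :=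
  box_mk (TrL.c (I.pos (nat_lit 0) (nat_lit 0)) (xa T1.l0 T1.l0)
  (TrL.c (I.pos (nat_lit 0) (nat_lit 0)) T1.l1
  (TrL.c (I.pos (nat_lit 0) (nat_lit 0)) T1.l2
  (TrL.c (I.pos (nat_lit 0) (nat_lit 0)) T1.l3
  (TrL.c (I.pos (nat_lit 0) (nat_lit 0)) (xa T1.l10 T1.l0)
  (TrL.c (I.pos (nat_lit 0) (nat_lit 0)) T1.l5
  (TrL.c (I.pos (nat_lit 0) (nat_lit 0)) T1.l6
  (TrL.c (I.pos (nat_lit 0) (nat_lit 0)) T1.l7
  TrL.n)))))))) (by decide +kernel)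
theorem bx0_11 : BoxOK sI cl5 cl6 cl6 t1 t1 b0_11 :=
  box_mk (TrL.c (I.pos (nat_lit 0) (nat_lit 0)) (xa T1.l11 T1.l11)
  (TrL.c (I.pos (nat_lit 0) (nat_lit 0)) T1.l1
  (TrL.c (I.pos (nat_lit 0) (nat_lit 0)) T1.l2
  (TrL.c (I.pos (nat_lit 0) (nat_lit 0)) T1.l3
  (TrL.c (I.pos (nat_lit 0) (nat_lit 0)) T1.l10
  (TrL.c (I.pos (nat_lit 0) (nat_lit 0)) T1.l5
  (TrL.c (I.pos (nat_lit 0) (nat_lit 0)) T1.l6
  (TrL.c (I.pos (nat_lit 0) (nat_lit 0)) T1.l7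
  TrL.n)))))))) (by decide +kernel)
theorem bx0_12 : BoxOK sI cl5 cl6 cl6 t1 t1 b0_12 :=
  box_mk (TrL.c (I.pos (nat_lit 0) (nat_lit 0)) (xb (xa T1.l11 T1.l11) (xa (xb T1.l11 T1.l11) (xb T1.l11 T1.l11)))
  (TrL.c (I.pos (nat_lit 0) (nat_lit 0)) (xb T1.l1 T1.l1)
  (TrL.c (I.pos (nat_lit 0) (nat_lit 0)) T1.l2
  (TrL.c (I.pos (nat_lit 0) (nat_lit 0)) T1.l3
  (TrL.c (I.pos (nat_lit 0) (nat_lit 0)) (xb T1.l10 T1.l10)
  (TrL.c (I.pos (nat_lit 0) (nat_lit 0)) T1.l5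
  (TrL.c (I.pos (nat_lit 0) (nat_lit 0)) T1.l6
  (TrL.c (I.pos (nat_lit 0) (nat_lit 0)) T1.l7
  TrL.n)))))))) (by decide +kernel)
theorem bx0_13 : BoxOK sI cl5 cl6 cl6 t1 t1 b0_13 :=
  box_mk (TrL.c (I.pos (nat_lit 0) (nat_lit 0)) T1.l8
  (TrL.c (I.pos (nat_lit 0) (nat_lit 0)) T1.l1
  (TrL.c (I.pos (nat_lit 0) (nat_lit 0)) T1.l2
  (TrL.c (I.pos (nat_lit 0) (nat_lit 0)) T1.l3
  (TrL.c (I.pos (nat_lit 0) (nat_lit 0)) T1.l9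
  (TrL.c (I.pos (nat_lit 0) (nat_lit 0)) T1.l5
  (TrL.c (I.pos (nat_lit 0) (nat_lit 0)) T1.l6
  (TrL.c (I.pos (nat_lit 0) (nat_lit 0)) T1.l7
  TrL.n)))))))) (by decide +kernel)
theorem sv0 : StarV sI cl5 cl6 cl6 t1 t1 t0 :=
  (bt_n (bt_n (bt_n (bt_b bx0_0) (bt_n (bt_b bx0_1) (bt_b bx0_2))) (bt_n (bt_n (bt_b bx0_3) (bt_b bx0_4)) (bt_n (bt_b bx0_5) (bt_b bx0_6)))) (bt_n (bt_n (bt_b bx0_7) (bt_n (bt_b bx0_8) (bt_b bx0_9))) (bt_n (bt_n (bt_b bx0_10) (bt_b bx0_11)) (bt_n (bt_b bx0_12) (bt_b bx0_13)))))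
def S0 : StarD := StarD.mk cl5 cl6 cl6 1 1 t0
theorem bx1_0 : BoxOK sI cl6 cl5 cl6 t0 t2 b1_0 :=
  box_mk (TrL.c (I.pos (nat_lit 0) (nat_lit 0)) (xa (xb (xa T0.l0 T0.l0) (xa (xb T0.l0 T0.l0) T0.l0)) (xb T0.l0 (xa T0.l0 T0.l0)))
  (TrL.c (I.pos (nat_lit 0) (nat_lit 0)) (xa T2.l1 T2.l1)
  (TrL.c (I.pos (nat_lit 0) (nat_lit 89480386)) T0.l1
  (TrL.c (I.pos (nat_lit 0) (nat_lit 41530880)) T2.l2
  (TrL.c (I.pos (nat_lit 0) (nat_lit 0)) (xa T2.l3 (xb T2.l3 T2.l3))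
  (TrL.c (I.pos (nat_lit 0) (nat_lit 0)) T0.l2
  (TrL.c (I.mix (nat_lit 41527258) (nat_lit 41530880)) T2.l4
  (TrL.c (I.mix (nat_lit 41527258) (nat_lit 4274)) T0.l3
  TrL.n)))))))) (by decide +kernel)
theorem bx1_1 : BoxOK sI cl6 cl5 cl6 t0 t2 b1_1 :=
  box_mk (TrL.c (I.pos (nat_lit 0) (nat_lit 0)) (xa (xb T0.l4 T0.l4) T0.l4)
  (TrL.c (I.pos (nat_lit 0) (nat_lit 0)) T2.l1
  (TrL.c (I.pos (nat_lit 0) (nat_lit 89480386)) T0.l1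
  (TrL.c (I.pos (nat_lit 0) (nat_lit 41530880)) T2.l2
  (TrL.c (I.pos (nat_lit 0) (nat_lit 0)) (xa T2.l5 T2.l5)
  (TrL.c (I.pos (nat_lit 0) (nat_lit 0)) T0.l2
  (TrL.c (I.mix (nat_lit 41527258) (nat_lit 41530880)) T2.l4
  (TrL.c (I.mix (nat_lit 41527258) (nat_lit 4274)) T0.l3
  TrL.n)))))))) (by decide +kernel)
theorem bx1_2 : BoxOK sI cl6 cl5 cl6 t0 t2 b1_2 :=
  box_mk (TrL.c (I.pos (nat_lit 0) (nat_lit 0)) (xb T0.l4 (xa T0.l4 T0.l4))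
  (TrL.c (I.pos (nat_lit 0) (nat_lit 0)) T2.l1
  (TrL.c (I.pos (nat_lit 0) (nat_lit 89480386)) T0.l1
  (TrL.c (I.pos (nat_lit 0) (nat_lit 41530880)) T2.l2
  (TrL.c (I.pos (nat_lit 0) (nat_lit 0)) T2.l5
  (TrL.c (I.pos (nat_lit 0) (nat_lit 0)) T0.l2
  (TrL.c (I.mix (nat_lit 41527258) (nat_lit 41530880)) T2.l4
  (TrL.c (I.mix (nat_lit 41527258) (nat_lit 4274)) T0.l3
  TrL.n)))))))) (by decide +kernel)
theorem bx1_3 : BoxOK sI cl6 cl5 cl6 t0 t2 b1_3 :=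
  box_mk (TrL.c (I.pos (nat_lit 0) (nat_lit 0)) T2.l1
  (TrL.c (I.pos (nat_lit 0) (nat_lit 0)) T0.l1
  (TrL.c (I.mix (nat_lit 41527258) (nat_lit 41530880)) T2.l7
  (TrL.c (I.mix (nat_lit 41527258) (nat_lit 4274)) T0.l9
  TrL.n)))) (by decide +kernel)
theorem bx1_4 : BoxOK sI cl6 cl5 cl6 t0 t2 b1_4 :=
  box_mk (TrL.c (I.pos (nat_lit 0) (nat_lit 0)) (xb (xa T0.l6 T0.l6) (xa T0.l6 T0.l6))
  (TrL.c (I.pos (nat_lit 0) (nat_lit 0)) T2.l1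
  (TrL.c (I.pos (nat_lit 0) (nat_lit 89480386)) T0.l1
  (TrL.c (I.pos (nat_lit 0) (nat_lit 41530880)) T2.l2
  (TrL.c (I.pos (nat_lit 0) (nat_lit 0)) T2.l13
  (TrL.c (I.pos (nat_lit 0) (nat_lit 0)) T0.l2
  (TrL.c (I.mix (nat_lit 41527258) (nat_lit 41530880)) T2.l4
  (TrL.c (I.mix (nat_lit 41527258) (nat_lit 4274)) T0.l3
  TrL.n)))))))) (by decide +kernel)
theorem bx1_5 : BoxOK sI cl6 cl5 cl6 t0 t2 b1_5 :=
  box_mk (TrL.c (I.pos (nat_lit 0) (nat_lit 0)) (xb T0.l4 T0.l4)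
  (TrL.c (I.pos (nat_lit 0) (nat_lit 0)) T2.l1
  (TrL.c (I.pos (nat_lit 0) (nat_lit 89480386)) T0.l1
  (TrL.c (I.pos (nat_lit 0) (nat_lit 41530880)) T2.l2
  (TrL.c (I.pos (nat_lit 0) (nat_lit 0)) T2.l5
  (TrL.c (I.pos (nat_lit 0) (nat_lit 0)) T0.l2
  (TrL.c (I.mix (nat_lit 41527258) (nat_lit 41530880)) T2.l4
  (TrL.c (I.mix (nat_lit 41527258) (nat_lit 4274)) T0.l3
  TrL.n)))))))) (by decide +kernel)
theorem bx1_6 : BoxOK sI cl6 cl5 cl6 t0 t2 b1_6 :=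
  box_mk (TrL.c (I.pos (nat_lit 0) (nat_lit 0)) (xb T0.l4 T0.l4)
  (TrL.c (I.pos (nat_lit 0) (nat_lit 0)) T2.l1
  (TrL.c (I.pos (nat_lit 0) (nat_lit 89480386)) T0.l1
  (TrL.c (I.pos (nat_lit 0) (nat_lit 41530880)) T2.l2
  (TrL.c (I.pos (nat_lit 0) (nat_lit 0)) T2.l5
  (TrL.c (I.pos (nat_lit 0) (nat_lit 0)) T0.l2
  (TrL.c (I.mix (nat_lit 41527258) (nat_lit 41530880)) T2.l4
  (TrL.c (I.mix (nat_lit 41527258) (nat_lit 4274)) T0.l9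
  TrL.n)))))))) (by decide +kernel)
theorem bx1_7 : BoxOK sI cl6 cl5 cl6 t0 t2 b1_7 :=
  box_mk (TrL.c (I.pos (nat_lit 0) (nat_lit 0)) T2.l1
  (TrL.c (I.pos (nat_lit 0) (nat_lit 0)) T0.l1
  (TrL.c (I.mix (nat_lit 41527258) (nat_lit 41530880)) T2.l7
  (TrL.c (I.mix (nat_lit 41527258) (nat_lit 4274)) T0.l9
  TrL.n)))) (by decide +kernel)
theorem bx1_8 : BoxOK sI cl6 cl5 cl6 t0 t2 b1_8 :=
  box_mk (TrL.c (I.pos (nat_lit 0) (nat_lit 0)) (xa (xb (xa T0.l0 T0.l0) (xa T0.l0 T0.l0)) (xb (xa T0.l0 T0.l0) (xa T0.l0 T0.l0)))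
  (TrL.c (I.pos (nat_lit 0) (nat_lit 0)) (xa T2.l1 (xb T2.l9 T2.l1))
  (TrL.c (I.pos (nat_lit 0) (nat_lit 89480386)) (xR T0.l1 T0.l1)
  (TrL.c (I.pos (nat_lit 0) (nat_lit 41530880)) T2.l2
  (TrL.c (I.pos (nat_lit 0) (nat_lit 0)) (xa (xb T2.l0 T2.l3) (xb (xa T2.l0 (xb T2.l0 T2.l3)) (xa T2.l3 T2.l3)))
  (TrL.c (I.pos (nat_lit 0) (nat_lit 0)) (xa T0.l2 (xb T0.l7 T0.l2))
  (TrL.c (I.mix (nat_lit 41527258) (nat_lit 41530880)) (xR T2.l8 T2.l8)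
  (TrL.c (I.mix (nat_lit 41527258) (nat_lit 4274)) T0.l3
  TrL.n)))))))) (by decide +kernel)
theorem bx1_9 : BoxOK sI cl6 cl5 cl6 t0 t2 b1_9 :=
  box_mk (TrL.c (I.pos (nat_lit 0) (nat_lit 0)) (xa T0.l0 T0.l0)
  (TrL.c (I.pos (nat_lit 0) (nat_lit 0)) T2.l1
  (TrL.c (I.pos (nat_lit 0) (nat_lit 89480386)) T0.l1
  (TrL.c (I.pos (nat_lit 0) (nat_lit 41530880)) T2.l2
  (TrL.c (I.pos (nat_lit 0) (nat_lit 0)) T2.l13
  (TrL.c (I.pos (nat_lit 0) (nat_lit 0)) T0.l2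
  (TrL.c (I.mix (nat_lit 41527258) (nat_lit 41530880)) T2.l4
  (TrL.c (I.mix (nat_lit 41527258) (nat_lit 4274)) T0.l3
  TrL.n)))))))) (by decide +kernel)
theorem bx1_10 : BoxOK sI cl6 cl5 cl6 t0 t2 b1_10 :=
  box_mk (TrL.c (I.pos (nat_lit 0) (nat_lit 0)) (xa T0.l6 T0.l6)
  (TrL.c (I.pos (nat_lit 0) (nat_lit 0)) T2.l1
  (TrL.c (I.pos (nat_lit 0) (nat_lit 89480386)) T0.l1
  (TrL.c (I.pos (nat_lit 0) (nat_lit 41530880)) T2.l2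
  (TrL.c (I.pos (nat_lit 0) (nat_lit 0)) T2.l13
  (TrL.c (I.pos (nat_lit 0) (nat_lit 0)) T0.l2
  (TrL.c (I.mix (nat_lit 41527258) (nat_lit 41530880)) T2.l4
  (TrL.c (I.mix (nat_lit 41527258) (nat_lit 4274)) T0.l3
  TrL.n)))))))) (by decide +kernel)
theorem bx1_11 : BoxOK sI cl6 cl5 cl6 t0 t2 b1_11 :=
  box_mk (TrL.c (I.pos (nat_lit 0) (nat_lit 0)) (xa (xb T0.l0 T0.l0) (xb T0.l0 T0.l0))
  (TrL.c (I.pos (nat_lit 0) (nat_lit 0)) T2.l1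
  (TrL.c (I.pos (nat_lit 0) (nat_lit 89480386)) T0.l1
  (TrL.c (I.pos (nat_lit 0) (nat_lit 41530880)) T2.l2
  (TrL.c (I.pos (nat_lit 0) (nat_lit 0)) T2.l3
  (TrL.c (I.pos (nat_lit 0) (nat_lit 0)) T0.l2
  (TrL.c (I.mix (nat_lit 41527258) (nat_lit 41530880)) T2.l4
  (TrL.c (I.mix (nat_lit 41527258) (nat_lit 4274)) T0.l3
  TrL.n)))))))) (by decide +kernel)
theorem sv1 : StarV sI cl6 cl5 cl6 t0 t2 t1 :=
  (bt_n (bt_n (bt_n (bt_b bx1_0) (bt_n (bt_b bx1_1) (bt_b bx1_2))) (bt_n (bt_b bx1_3) (bt_n (bt_b bx1_4) (bt_b bx1_5)))) (bt_n (bt_n (bt_b bx1_6) (bt_n (bt_b bx1_7) (bt_b bx1_8))) (bt_n (bt_b bx1_9) (bt_n (bt_b bx1_10) (bt_b bx1_11)))))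
def S1 : StarD := StarD.mk cl6 cl5 cl6 0 2 t1
theorem bx2_0 : BoxOK sI cl6 cl6 cl5 t2 t0 b2_0 :=
  box_mk (TrL.c (I.pos (nat_lit 0) (nat_lit 0)) (xa (xb (xa T2.l0 T2.l0) (xa (xb T2.l0 T2.l0) T2.l0)) (xb (xb T2.l0 T2.l0) (xa T2.l0 T2.l0)))
  (TrL.c (I.pos (nat_lit 0) (nat_lit 0)) (xa T0.l7 T0.l7)
  (TrL.c (I.pos (nat_lit 0) (nat_lit 89480386)) T2.l8
  (TrL.c (I.pos (nat_lit 0) (nat_lit 41530880)) T0.l8
  (TrL.c (I.pos (nat_lit 0) (nat_lit 0)) (xa T0.l12 (xb T0.l12 T0.l12))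
  (TrL.c (I.pos (nat_lit 0) (nat_lit 0)) T2.l9
  (TrL.c (I.mix (nat_lit 41527258) (nat_lit 41530880)) T0.l9
  (TrL.c (I.mix (nat_lit 41527258) (nat_lit 4274)) T2.l10
  TrL.n)))))))) (by decide +kernel)
theorem bx2_1 : BoxOK sI cl6 cl6 cl5 t2 t0 b2_1 :=
  box_mk (TrL.c (I.pos (nat_lit 0) (nat_lit 0)) (xa T2.l11 T2.l0)
  (TrL.c (I.pos (nat_lit 0) (nat_lit 0)) T0.l7
  (TrL.c (I.pos (nat_lit 0) (nat_lit 89480386)) T2.l8
  (TrL.c (I.pos (nat_lit 0) (nat_lit 41530880)) T0.l8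
  (TrL.c (I.pos (nat_lit 0) (nat_lit 0)) T0.l10
  (TrL.c (I.pos (nat_lit 0) (nat_lit 0)) T2.l9
  (TrL.c (I.mix (nat_lit 41527258) (nat_lit 41530880)) T0.l9
  (TrL.c (I.mix (nat_lit 41527258) (nat_lit 4274)) T2.l10
  TrL.n)))))))) (by decide +kernel)
theorem bx2_2 : BoxOK sI cl6 cl6 cl5 t2 t0 b2_2 :=
  box_mk (TrL.c (I.pos (nat_lit 0) (nat_lit 0)) T2.l11
  (TrL.c (I.pos (nat_lit 0) (nat_lit 0)) T0.l7
  (TrL.c (I.pos (nat_lit 0) (nat_lit 89480386)) T2.l8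
  (TrL.c (I.pos (nat_lit 0) (nat_lit 41530880)) T0.l8
  (TrL.c (I.pos (nat_lit 0) (nat_lit 0)) T0.l10
  (TrL.c (I.pos (nat_lit 0) (nat_lit 0)) T2.l8
  (TrL.c (I.mix (nat_lit 41527258) (nat_lit 41530880)) T0.l9
  (TrL.c (I.mix (nat_lit 41527258) (nat_lit 4274)) T2.l10
  TrL.n)))))))) (by decide +kernel)
theorem bx2_3 : BoxOK sI cl6 cl6 cl5 t2 t0 b2_3 :=
  box_mk (TrL.c (I.pos (nat_lit 0) (nat_lit 0)) (xb (xa T2.l12 T2.l12) (xa T2.l12 T2.l12))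
  (TrL.c (I.pos (nat_lit 0) (nat_lit 0)) (xb T0.l7 T0.l7)
  (TrL.c (I.pos (nat_lit 0) (nat_lit 89480386)) T2.l8
  (TrL.c (I.pos (nat_lit 0) (nat_lit 41530880)) T0.l8
  (TrL.c (I.pos (nat_lit 0) (nat_lit 0)) T0.l11
  (TrL.c (I.pos (nat_lit 0) (nat_lit 0)) T2.l9
  (TrL.c (I.mix (nat_lit 41527258) (nat_lit 41530880)) T0.l9
  (TrL.c (I.mix (nat_lit 41527258) (nat_lit 4274)) T2.l10
  TrL.n)))))))) (by decide +kernel)
theorem bx2_4 : BoxOK sI cl6 cl6 cl5 t2 t0 b2_4 :=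
  box_mk (TrL.c (I.pos (nat_lit 0) (nat_lit 0)) (xa (xa (xb T2.l11 T2.l11) T2.l11) T2.l11)
  (TrL.c (I.pos (nat_lit 0) (nat_lit 0)) (xa T0.l10 T0.l7)
  (TrL.c (I.pos (nat_lit 0) (nat_lit 89480386)) T2.l8
  (TrL.c (I.pos (nat_lit 0) (nat_lit 41530880)) T0.l8
  (TrL.c (I.pos (nat_lit 0) (nat_lit 0)) (xa T0.l7 T0.l10)
  (TrL.c (I.pos (nat_lit 0) (nat_lit 0)) T2.l9
  (TrL.c (I.mix (nat_lit 41527258) (nat_lit 41530880)) T0.l9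
  (TrL.c (I.mix (nat_lit 41527258) (nat_lit 4274)) T2.l10
  TrL.n)))))))) (by decide +kernel)
theorem bx2_5 : BoxOK sI cl6 cl6 cl5 t2 t0 b2_5 :=
  box_mk (TrL.c (I.pos (nat_lit 0) (nat_lit 0)) T2.l0
  (TrL.c (I.pos (nat_lit 0) (nat_lit 0)) T0.l7
  (TrL.c (I.pos (nat_lit 0) (nat_lit 89480386)) T2.l8
  (TrL.c (I.pos (nat_lit 0) (nat_lit 41530880)) T0.l8
  (TrL.c (I.pos (nat_lit 0) (nat_lit 0)) T0.l11
  (TrL.c (I.pos (nat_lit 0) (nat_lit 0)) T2.l9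
  (TrL.c (I.mix (nat_lit 41527258) (nat_lit 41530880)) T0.l9
  (TrL.c (I.mix (nat_lit 41527258) (nat_lit 4274)) T2.l10
  TrL.n)))))))) (by decide +kernel)
theorem bx2_6 : BoxOK sI cl6 cl6 cl5 t2 t0 b2_6 :=
  box_mk (TrL.c (I.pos (nat_lit 0) (nat_lit 0)) T2.l11
  (TrL.c (I.pos (nat_lit 0) (nat_lit 0)) T0.l7
  (TrL.c (I.pos (nat_lit 0) (nat_lit 89480386)) T2.l8
  (TrL.c (I.pos (nat_lit 0) (nat_lit 41530880)) T0.l8
  (TrL.c (I.pos (nat_lit 0) (nat_lit 0)) T0.l10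
  (TrL.c (I.pos (nat_lit 0) (nat_lit 0)) T2.l9
  (TrL.c (I.mix (nat_lit 41527258) (nat_lit 41530880)) T0.l9
  (TrL.c (I.mix (nat_lit 41527258) (nat_lit 4274)) T2.l10
  TrL.n)))))))) (by decide +kernel)
theorem bx2_7 : BoxOK sI cl6 cl6 cl5 t2 t0 b2_7 :=
  box_mk (TrL.c (I.pos (nat_lit 0) (nat_lit 0)) T2.l11
  (TrL.c (I.pos (nat_lit 0) (nat_lit 0)) T0.l7
  (TrL.c (I.pos (nat_lit 0) (nat_lit 89480386)) T2.l8
  (TrL.c (I.pos (nat_lit 0) (nat_lit 41530880)) T0.l8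
  (TrL.c (I.pos (nat_lit 0) (nat_lit 0)) T0.l10
  (TrL.c (I.pos (nat_lit 0) (nat_lit 0)) T2.l8
  (TrL.c (I.mix (nat_lit 41527258) (nat_lit 41530880)) T0.l9
  (TrL.c (I.mix (nat_lit 41527258) (nat_lit 4274)) T2.l10
  TrL.n)))))))) (by decide +kernel)
theorem bx2_8 : BoxOK sI cl6 cl6 cl5 t2 t0 b2_8 :=
  box_mk (TrL.c (I.pos (nat_lit 0) (nat_lit 0)) (xa (xa (xb T2.l11 T2.l11) T2.l11) (xa T2.l11 T2.l11))
  (TrL.c (I.pos (nat_lit 0) (nat_lit 0)) (xa T0.l7 T0.l7)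
  (TrL.c (I.pos (nat_lit 0) (nat_lit 89480386)) T2.l8
  (TrL.c (I.pos (nat_lit 0) (nat_lit 41530880)) T0.l8
  (TrL.c (I.pos (nat_lit 0) (nat_lit 0)) (xa T0.l10 T0.l10)
  (TrL.c (I.pos (nat_lit 0) (nat_lit 0)) T2.l9
  (TrL.c (I.mix (nat_lit 41527258) (nat_lit 41530880)) T0.l9
  (TrL.c (I.mix (nat_lit 41527258) (nat_lit 4274)) T2.l10
  TrL.n)))))))) (by decide +kernel)
theorem bx2_9 : BoxOK sI cl6 cl6 cl5 t2 t0 b2_9 :=
  box_mk (TrL.c (I.pos (nat_lit 0) (nat_lit 0)) (xb T2.l11 T2.l11)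
  (TrL.c (I.pos (nat_lit 0) (nat_lit 0)) T0.l7
  (TrL.c (I.pos (nat_lit 0) (nat_lit 89480386)) T2.l8
  (TrL.c (I.pos (nat_lit 0) (nat_lit 41530880)) T0.l8
  (TrL.c (I.pos (nat_lit 0) (nat_lit 0)) T0.l10
  (TrL.c (I.pos (nat_lit 0) (nat_lit 0)) T2.l9
  (TrL.c (I.mix (nat_lit 41527258) (nat_lit 41530880)) T0.l9
  (TrL.c (I.mix (nat_lit 41527258) (nat_lit 4274)) T2.l10
  TrL.n)))))))) (by decide +kernel)
theorem bx2_10 : BoxOK sI cl6 cl6 cl5 t2 t0 b2_10 :=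
  box_mk (TrL.c (I.pos (nat_lit 0) (nat_lit 0)) (xa (xb T2.l11 T2.l11) T2.l11)
  (TrL.c (I.pos (nat_lit 0) (nat_lit 0)) T0.l10
  (TrL.c (I.pos (nat_lit 0) (nat_lit 89480386)) T2.l8
  (TrL.c (I.pos (nat_lit 0) (nat_lit 41530880)) T0.l9
  (TrL.c (I.pos (nat_lit 0) (nat_lit 0)) T0.l7
  (TrL.c (I.pos (nat_lit 0) (nat_lit 0)) T2.l8
  (TrL.c (I.mix (nat_lit 41527258) (nat_lit 41530880)) T0.l9
  (TrL.c (I.mix (nat_lit 41527258) (nat_lit 4274)) T2.l4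
  TrL.n)))))))) (by decide +kernel)
theorem bx2_11 : BoxOK sI cl6 cl6 cl5 t2 t0 b2_11 :=
  box_mk (TrL.c (I.pos (nat_lit 0) (nat_lit 0)) (xa (xb T2.l0 (xa T2.l0 T2.l0)) (xb (xa T2.l0 T2.l0) (xa T2.l0 T2.l0)))
  (TrL.c (I.pos (nat_lit 0) (nat_lit 0)) (xa T0.l7 (xb T0.l7 T0.l7))
  (TrL.c (I.pos (nat_lit 0) (nat_lit 89480386)) (xR T2.l8 T2.l8)
  (TrL.c (I.pos (nat_lit 0) (nat_lit 41530880)) T0.l8
  (TrL.c (I.pos (nat_lit 0) (nat_lit 0)) (xa (xb (xa T0.l12 T0.l12) T0.l12) (xb (xa T0.l12 (xb T0.l12 T0.l12)) (xa T0.l12 (xb T0.l12 T0.l12))))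
  (TrL.c (I.pos (nat_lit 0) (nat_lit 0)) (xa T2.l9 (xb T2.l1 T2.l9))
  (TrL.c (I.mix (nat_lit 41527258) (nat_lit 41530880)) (xR T0.l9 T0.l1)
  (TrL.c (I.mix (nat_lit 41527258) (nat_lit 4274)) T2.l10
  TrL.n)))))))) (by decide +kernel)
theorem bx2_12 : BoxOK sI cl6 cl6 cl5 t2 t0 b2_12 :=
  box_mk (TrL.c (I.pos (nat_lit 0) (nat_lit 0)) (xa (xb T2.l0 T2.l0) (xb T2.l0 T2.l0))
  (TrL.c (I.pos (nat_lit 0) (nat_lit 0)) T0.l7
  (TrL.c (I.pos (nat_lit 0) (nat_lit 89480386)) T2.l8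
  (TrL.c (I.pos (nat_lit 0) (nat_lit 41530880)) T0.l8
  (TrL.c (I.pos (nat_lit 0) (nat_lit 0)) T0.l12
  (TrL.c (I.pos (nat_lit 0) (nat_lit 0)) T2.l9
  (TrL.c (I.mix (nat_lit 41527258) (nat_lit 41530880)) T0.l9
  (TrL.c (I.mix (nat_lit 41527258) (nat_lit 4274)) T2.l10
  TrL.n)))))))) (by decide +kernel)
theorem bx2_13 : BoxOK sI cl6 cl6 cl5 t2 t0 b2_13 :=
  box_mk (TrL.c (I.pos (nat_lit 0) (nat_lit 0)) T2.l12
  (TrL.c (I.pos (nat_lit 0) (nat_lit 0)) T0.l7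
  (TrL.c (I.pos (nat_lit 0) (nat_lit 89480386)) T2.l8
  (TrL.c (I.pos (nat_lit 0) (nat_lit 41530880)) T0.l8
  (TrL.c (I.pos (nat_lit 0) (nat_lit 0)) T0.l11
  (TrL.c (I.pos (nat_lit 0) (nat_lit 0)) T2.l9
  (TrL.c (I.mix (nat_lit 41527258) (nat_lit 41530880)) T0.l9
  (TrL.c (I.mix (nat_lit 41527258) (nat_lit 4274)) T2.l10
  TrL.n)))))))) (by decide +kernel)
theorem sv2 : StarV sI cl6 cl6 cl5 t2 t0 t2 :=
  (bt_n (bt_n (bt_n (bt_b bx2_0) (bt_n (bt_b bx2_1) (bt_b bx2_2))) (bt_n (bt_n (bt_b bx2_3) (bt_b bx2_4)) (bt_n (bt_b bx2_5) (bt_b bx2_6)))) (bt_n (bt_n (bt_b bx2_7) (bt_n (bt_b bx2_8) (bt_b bx2_9))) (bt_n (bt_n (bt_b bx2_10) (bt_b bx2_11)) (bt_n (bt_b bx2_12) (bt_b bx2_13)))))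
def S2 : StarD := StarD.mk cl6 cl6 cl5 2 0 t2
def G : List StarD := [S0, S1, S2]
theorem so0 : StarOK sI G S0 :=
  star_mk (by decide) (by decide) rfl rfl rfl rfl rfl rfl (rfl : _ = t1) (rfl : _ = t1)
  (st_mk (Pth.l (Pth.l (Pth.l Pth.z))) (nat_lit 192600157) (nat_lit 193479401) (by decide +kernel))
  (st_mk (Pth.l (Pth.l (Pth.l Pth.z))) (nat_lit 230285542) (nat_lit 231558734) (by decide +kernel))
  (st_mk (Pth.l (Pth.l (Pth.l Pth.z))) (nat_lit 274451837) (nat_lit 276291322) (by decide +kernel)) sv0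
theorem so1 : StarOK sI G S1 :=
  star_mk (by decide) (by decide) rfl rfl rfl rfl rfl rfl (rfl : _ = t0) (rfl : _ = t2)
  (st_mk (Pth.l (Pth.l (Pth.l Pth.z))) (nat_lit 244959115) (nat_lit 245843860) (by decide +kernel))
  (st_mk (Pth.l (Pth.l (Pth.l Pth.z))) (nat_lit 282013424) (nat_lit 283194136) (by decide +kernel))
  (st_mk (Pth.l (Pth.l (Pth.l Pth.z))) (nat_lit 325174621) (nat_lit 326759118) (by decide +kernel)) sv1
theorem so2 : StarOK sI G S2 :=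
  star_mk (by decide) (by decide) rfl rfl rfl rfl rfl rfl (rfl : _ = t2) (rfl : _ = t0)
  (st_mk (Pth.l (Pth.l (Pth.l Pth.z))) (nat_lit 190761923) (nat_lit 191381080) (by decide +kernel))
  (st_mk (Pth.l (Pth.l (Pth.l Pth.z))) (nat_lit 227630973) (nat_lit 228518381) (by decide +kernel))
  (st_mk (Pth.l (Pth.l (Pth.l Pth.z))) (nat_lit 270636227) (nat_lit 271903325) (by decide +kernel)) sv2
theorem ok : GroupOK (nat_lit 209321984) (nat_lit 268435456) G := grp_mk (allS_c so0 (allS_c so1 (allS_c so2 allS_n)))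
theorem cov : GCov G cl5 cl6 cl6 := cov_mk
  ⟨0, by decide, rfl, rfl, rfl⟩ ⟨0, by decide, rfl, rfl, rfl⟩ ⟨1, by decide, rfl, rfl, rfl⟩ ⟨2, by decide, rfl, rfl, rfl⟩ ⟨1, by decide, rfl, rfl, rfl⟩ ⟨2, by decide, rfl, rfl, rfl⟩
end Q233_3

namespace Q234_0
def sI : I := I.pos (nat_lit 0) (nat_lit 91291648)
def b0_0 : Bx := Bx.mk (St.mk (I.pos (nat_lit 154075136) (nat_lit 274726912)) (I.mix (nat_lit 11943936) (nat_lit 71712768)) (I.mix (nat_lit 71974912) (nat_lit 98631680)) (I.pos (nat_lit 177831936) (nat_lit 378650624)) (I.mix (nat_lit 111607808) (nat_lit 74203136)) (I.mix (nat_lit 106430464) (nat_lit 62226432)) (I.mix (nat_lit 164069376) (nat_lit 96649216)))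
  false (nat_lit 0)
def b0_1 : Bx := Bx.mk (St.mk (I.mix (nat_lit 32948224) (nat_lit 99860480)) (I.mix (nat_lit 4866048) (nat_lit 42680320)) (I.mix (nat_lit 20709376) (nat_lit 10944512)) (I.pos (nat_lit 82034688) (nat_lit 125337600)) (I.mix (nat_lit 35635200) (nat_lit 35930112)) (I.mix (nat_lit 40157184) (nat_lit 31571968)) (I.mix (nat_lit 26558464) (nat_lit 18661376)))
  false (nat_lit 0)
def b0_2 : Bx := Bx.mk (St.mk (I.pos (nat_lit 81543168) (nat_lit 125026304)) (I.mix (nat_lit 63307776) (nat_lit 6602752)) (I.neg (nat_lit 10076160) (nat_lit 62849024)) (I.pos (nat_lit 114343936) (nat_lit 149454848)) (I.mix (nat_lit 84262912) (nat_lit 30654464)) (I.mix (nat_lit 53166080) (nat_lit 82444288)) (I.mix (nat_lit 38502400) (nat_lit 59604992)))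
  false (nat_lit 0)
def b0_3 : Bx := Bx.mk (St.mk (I.mix (nat_lit 48381952) (nat_lit 28114944)) (I.mix (nat_lit 36847616) (nat_lit 4358144)) (I.neg (nat_lit 491520) (nat_lit 15351808)) (I.pos (nat_lit 83247104) (nat_lit 100106240)) (I.mix (nat_lit 29573120) (nat_lit 19234816)) (I.mix (nat_lit 18481152) (nat_lit 32473088)) (I.mix (nat_lit 12107776) (nat_lit 7143424)))
  false (nat_lit 0)
def b0_4 : Bx := Bx.mk (St.mk (I.mix (nat_lit 51216384) (nat_lit 6488064)) (I.mix (nat_lit 3866624) (nat_lit 13189120)) (I.neg (nat_lit 10158080) (nat_lit 18202624)) (I.pos (nat_lit 88260608) (nat_lit 100139008)) (I.mix (nat_lit 5996544) (nat_lit 11796480)) (I.mix (nat_lit 6930432) (nat_lit 6324224)) (I.mix (nat_lit 2719744) (nat_lit 3293184)))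
  false (nat_lit 0)
def b0_5 : Bx := Bx.mk (St.mk (I.pos (nat_lit 90587136) (nat_lit 164233216)) (I.neg (nat_lit 3407872) (nat_lit 63242240)) (I.neg (nat_lit 5521408) (nat_lit 63668224)) (I.pos (nat_lit 127696896) (nat_lit 192167936)) (I.mix (nat_lit 82608128) (nat_lit 57278464)) (I.mix (nat_lit 50053120) (nat_lit 81903616)) (I.mix (nat_lit 39600128) (nat_lit 74153984)))
  false (nat_lit 0)
def b0_6 : Bx := Bx.mk (St.mk (I.mix (nat_lit 40337408) (nat_lit 51085312)) (I.mix (nat_lit 36143104) (nat_lit 9437184)) (I.neg (nat_lit 1605632) (nat_lit 19726336)) (I.pos (nat_lit 82345984) (nat_lit 100712448)) (I.mix (nat_lit 35913728) (nat_lit 32456704)) (I.mix (nat_lit 28868608) (nat_lit 41861120)) (I.mix (nat_lit 13189120) (nat_lit 15646720)))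
  false (nat_lit 0)
def b0_7 : Bx := Bx.mk (St.mk (I.mix (nat_lit 54247424) (nat_lit 96206848)) (I.mix (nat_lit 13123584) (nat_lit 39960576)) (I.mix (nat_lit 20463616) (nat_lit 11403264)) (I.pos (nat_lit 81854464) (nat_lit 114638848)) (I.mix (nat_lit 38928384) (nat_lit 36323328)) (I.mix (nat_lit 47349760) (nat_lit 31096832)) (I.mix (nat_lit 17367040) (nat_lit 16367616)))
  false (nat_lit 0)
def b0_8 : Bx := Bx.mk (St.mk (I.pos (nat_lit 83001344) (nat_lit 92323840)) (I.mix (nat_lit 3391488) (nat_lit 10387456)) (I.neg (nat_lit 8060928) (nat_lit 19398656)) (I.pos (nat_lit 115687424) (nat_lit 122798080)) (I.mix (nat_lit 7061504) (nat_lit 11747328)) (I.mix (nat_lit 7356416) (nat_lit 4800512)) (I.mix (nat_lit 5816320) (nat_lit 3735552)))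
  false (nat_lit 0)
def b0_9 : Bx := Bx.mk (St.mk (I.pos (nat_lit 136216576) (nat_lit 216547328)) (I.mix (nat_lit 41156608) (nat_lit 76414976)) (I.mix (nat_lit 46956544) (nat_lit 93732864)) (I.pos (nat_lit 162643968) (nat_lit 265158656)) (I.mix (nat_lit 144719872) (nat_lit 59801600)) (I.mix (nat_lit 167591936) (nat_lit 107216896)) (I.mix (nat_lit 169361408) (nat_lit 108085248)))
  false (nat_lit 0)
def t0 : BTr := (BTr.n (BTr.n (BTr.n (BTr.b b0_0) (BTr.b b0_1)) (BTr.n (BTr.b b0_2) (BTr.n (BTr.b b0_3) (BTr.b b0_4)))) (BTr.n (BTr.n (BTr.b b0_5) (BTr.b b0_6)) (BTr.n (BTr.b b0_7) (BTr.n (BTr.b b0_8) (BTr.b b0_9)))))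
namespace T0
def l0 : Tr := Tr.L (Pth.l (Pth.l (Pth.l Pth.z)))
def l1 : Tr := Tr.L (Pth.l (Pth.l (Pth.r Pth.z)))
def l2 : Tr := Tr.L (Pth.l (Pth.r (Pth.l Pth.z)))
def l3 : Tr := Tr.L (Pth.l (Pth.r (Pth.r (Pth.l Pth.z))))
def l4 : Tr := Tr.L (Pth.l (Pth.r (Pth.r (Pth.r Pth.z))))
def l5 : Tr := Tr.L (Pth.r (Pth.l (Pth.l Pth.z)))
def l6 : Tr := Tr.L (Pth.r (Pth.l (Pth.r Pth.z)))
def l7 : Tr := Tr.L (Pth.r (Pth.r (Pth.l Pth.z)))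
def l8 : Tr := Tr.L (Pth.r (Pth.r (Pth.r (Pth.l Pth.z))))
def l9 : Tr := Tr.L (Pth.r (Pth.r (Pth.r (Pth.r Pth.z))))
end T0
def b1_0 : Bx := Bx.mk (St.mk (I.pos (nat_lit 154124288) (nat_lit 274104320)) (I.mix (nat_lit 10862592) (nat_lit 66928640)) (I.mix (nat_lit 53673984) (nat_lit 100270080)) (I.pos (nat_lit 132317184) (nat_lit 352059392)) (I.mix (nat_lit 113573888) (nat_lit 72433664)) (I.mix (nat_lit 102137856) (nat_lit 73662464)) (I.mix (nat_lit 160497664) (nat_lit 108937216)))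
  false (nat_lit 0)
def b1_1 : Bx := Bx.mk (St.mk (I.mix (nat_lit 28098560) (nat_lit 121913344)) (I.mix (nat_lit 5095424) (nat_lit 39337984)) (I.mix (nat_lit 14450688) (nat_lit 21250048)) (I.pos (nat_lit 38797312) (nat_lit 116686848)) (I.mix (nat_lit 43859968) (nat_lit 32407552)) (I.mix (nat_lit 38780928) (nat_lit 32374784)) (I.mix (nat_lit 27738112) (nat_lit 23183360)))
  false (nat_lit 0)
def b1_2 : Bx := Bx.mk (St.mk (I.pos (nat_lit 95059968) (nat_lit 146030592)) (I.mix (nat_lit 67043328) (nat_lit 7274496)) (I.neg (nat_lit 1064960) (nat_lit 68059136)) (I.pos (nat_lit 79298560) (nat_lit 143114240)) (I.mix (nat_lit 97468416) (nat_lit 34717696)) (I.mix (nat_lit 63995904) (nat_lit 104431616)) (I.mix (nat_lit 48955392) (nat_lit 81133568)))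
  false (nat_lit 0)
def b1_3 : Bx := Bx.mk (St.mk (I.mix (nat_lit 36306944) (nat_lit 72810496)) (I.mix (nat_lit 33505280) (nat_lit 3588096)) (I.mix (nat_lit 19873792) (nat_lit 1556480)) (I.pos (nat_lit 40976384) (nat_lit 83066880)) (I.mix (nat_lit 33587200) (nat_lit 19333120)) (I.mix (nat_lit 25477120) (nat_lit 32309248)) (I.mix (nat_lit 11157504) (nat_lit 13402112)))
  false (nat_lit 0)
def b1_4 : Bx := Bx.mk (St.mk (I.pos (nat_lit 96092160) (nat_lit 114688000)) (I.mix (nat_lit 4292608) (nat_lit 10272768)) (I.mix (nat_lit 13500416) (nat_lit 49152)) (I.pos (nat_lit 80363520) (nat_lit 114245632)) (I.mix (nat_lit 7487488) (nat_lit 12484608)) (I.mix (nat_lit 8011776) (nat_lit 4292608)) (I.mix (nat_lit 6897664) (nat_lit 3112960)))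
  false (nat_lit 0)
def b1_5 : Bx := Bx.mk (St.mk (I.mix (nat_lit 37502976) (nat_lit 11419648)) (I.mix (nat_lit 573440) (nat_lit 9256960)) (I.neg (nat_lit 2375680) (nat_lit 8454144)) (I.pos (nat_lit 43548672) (nat_lit 69812224)) (I.mix (nat_lit 4849664) (nat_lit 8536064)) (I.mix (nat_lit 4800512) (nat_lit 4390912)) (I.mix (nat_lit 1458176) (nat_lit 1556480)))
  false (nat_lit 0)
def b1_6 : Bx := Bx.mk (St.mk (I.pos (nat_lit 103153664) (nat_lit 174505984)) (I.neg (nat_lit 655360) (nat_lit 63127552)) (I.neg (nat_lit 573440) (nat_lit 63029248)) (I.pos (nat_lit 97255424) (nat_lit 180158464)) (I.mix (nat_lit 77578240) (nat_lit 48971776)) (I.mix (nat_lit 47529984) (nat_lit 72630272)) (I.mix (nat_lit 41861120) (nat_lit 73072640)))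
  false (nat_lit 0)
def b1_7 : Bx := Bx.mk (St.mk (I.mix (nat_lit 26656768) (nat_lit 88129536)) (I.mix (nat_lit 35061760) (nat_lit 6619136)) (I.mix (nat_lit 23003136) (nat_lit 1769472)) (I.pos (nat_lit 40271872) (nat_lit 91996160)) (I.mix (nat_lit 36814848) (nat_lit 25673728)) (I.mix (nat_lit 26099712) (nat_lit 34488320)) (I.mix (nat_lit 15237120) (nat_lit 18448384)))
  false (nat_lit 0)
def b1_8 : Bx := Bx.mk (St.mk (I.pos (nat_lit 142213120) (nat_lit 219348992)) (I.mix (nat_lit 43876352) (nat_lit 75841536)) (I.mix (nat_lit 48300032) (nat_lit 105922560)) (I.pos (nat_lit 122601472) (nat_lit 242040832)) (I.mix (nat_lit 156123136) (nat_lit 61964288)) (I.mix (nat_lit 192282624) (nat_lit 112902144)) (I.mix (nat_lit 217284608) (nat_lit 122716160)))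
  false (nat_lit 0)
def b1_9 : Bx := Bx.mk (St.mk (I.mix (nat_lit 41631744) (nat_lit 111869952)) (I.mix (nat_lit 14909440) (nat_lit 42123264)) (I.mix (nat_lit 11452416) (nat_lit 24281088)) (I.pos (nat_lit 38912000) (nat_lit 108052480)) (I.mix (nat_lit 51396608) (nat_lit 31539200)) (I.mix (nat_lit 55787520) (nat_lit 40845312)) (I.mix (nat_lit 31309824) (nat_lit 24002560)))
  false (nat_lit 0)
def t1 : BTr := (BTr.n (BTr.n (BTr.n (BTr.b b1_0) (BTr.b b1_1)) (BTr.n (BTr.b b1_2) (BTr.n (BTr.b b1_3) (BTr.b b1_4)))) (BTr.n (BTr.n (BTr.b b1_5) (BTr.b b1_6)) (BTr.n (BTr.b b1_7) (BTr.n (BTr.b b1_8) (BTr.b b1_9)))))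
namespace T1
def l0 : Tr := Tr.L (Pth.l (Pth.l (Pth.l Pth.z)))
def l1 : Tr := Tr.L (Pth.l (Pth.l (Pth.r Pth.z)))
def l2 : Tr := Tr.L (Pth.l (Pth.r (Pth.l Pth.z)))
def l3 : Tr := Tr.L (Pth.l (Pth.r (Pth.r (Pth.l Pth.z))))
def l4 : Tr := Tr.L (Pth.l (Pth.r (Pth.r (Pth.r Pth.z))))
def l5 : Tr := Tr.L (Pth.r (Pth.l (Pth.l Pth.z)))
def l6 : Tr := Tr.L (Pth.r (Pth.l (Pth.r Pth.z)))
def l7 : Tr := Tr.L (Pth.r (Pth.r (Pth.l Pth.z)))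
def l8 : Tr := Tr.L (Pth.r (Pth.r (Pth.r (Pth.l Pth.z))))
def l9 : Tr := Tr.L (Pth.r (Pth.r (Pth.r (Pth.r Pth.z))))
end T1
def b2_0 : Bx := Bx.mk (St.mk (I.pos (nat_lit 153092096) (nat_lit 292143104)) (I.mix (nat_lit 40173568) (nat_lit 75677696)) (I.mix (nat_lit 138723328) (nat_lit 103383040)) (I.pos (nat_lit 228278272) (nat_lit 464142336)) (I.mix (nat_lit 106528768) (nat_lit 89686016)) (I.mix (nat_lit 109002752) (nat_lit 78823424)) (I.mix (nat_lit 171425792) (nat_lit 113803264)))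
  false (nat_lit 6184645)
def b2_1 : Bx := Bx.mk (St.mk (I.pos (nat_lit 22593536) (nat_lit 76316672)) (I.mix (nat_lit 13041664) (nat_lit 50315264)) (I.mix (nat_lit 28999680) (nat_lit 3751936)) (I.pos (nat_lit 142868480) (nat_lit 164118528)) (I.mix (nat_lit 29245440) (nat_lit 47104000)) (I.mix (nat_lit 50266112) (nat_lit 30441472)) (I.mix (nat_lit 27279360) (nat_lit 15532032)))
  false (nat_lit 0)
def b2_2 : Bx := Bx.mk (St.mk (I.pos (nat_lit 48873472) (nat_lit 104923136)) (I.mix (nat_lit 69369856) (nat_lit 16023552)) (I.neg (nat_lit 10682368) (nat_lit 61833216)) (I.pos (nat_lit 149192704) (nat_lit 185974784)) (I.mix (nat_lit 80658432) (nat_lit 33406976)) (I.mix (nat_lit 42729472) (nat_lit 84623360)) (I.mix (nat_lit 31342592) (nat_lit 50135040)))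
  false (nat_lit 0)
def b2_3 : Bx := Bx.mk (St.mk (I.neg (nat_lit 22593536) (nat_lit 76316672)) (I.mix (nat_lit 50331648) (nat_lit 15695872)) (I.mix (nat_lit 30113792) (nat_lit 3817472)) (I.pos (nat_lit 142868480) (nat_lit 164118528)) (I.mix (nat_lit 47104000) (nat_lit 29245440)) (I.mix (nat_lit 30441472) (nat_lit 50266112)) (I.mix (nat_lit 27279360) (nat_lit 15532032)))
  true (nat_lit 0)
def b2_4 : Bx := Bx.mk (St.mk (I.pos (nat_lit 76562432) (nat_lit 157351936)) (I.neg (nat_lit 3751936) (nat_lit 72695808)) (I.neg (nat_lit 1867776) (nat_lit 66764800)) (I.pos (nat_lit 166379520) (nat_lit 235274240)) (I.mix (nat_lit 75481088) (nat_lit 60981248)) (I.mix (nat_lit 50790400) (nat_lit 81330176)) (I.mix (nat_lit 48070656) (nat_lit 71565312)))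
  false (nat_lit 0)
def b2_5 : Bx := Bx.mk (St.mk (I.mix (nat_lit 39288832) (nat_lit 11730944)) (I.mix (nat_lit 49496064) (nat_lit 11845632)) (I.mix (nat_lit 6930432) (nat_lit 131072)) (I.pos (nat_lit 141213696) (nat_lit 151093248)) (I.mix (nat_lit 29474816) (nat_lit 40960000)) (I.mix (nat_lit 28164096) (nat_lit 50446336)) (I.mix (nat_lit 6733824) (nat_lit 5586944)))
  true (nat_lit 0)
def b2_6 : Bx := Bx.mk (St.mk (I.pos (nat_lit 119930880) (nat_lit 205914112)) (I.mix (nat_lit 44974080) (nat_lit 79495168)) (I.mix (nat_lit 44417024) (nat_lit 100220928)) (I.pos (nat_lit 195182592) (nat_lit 303366144)) (I.mix (nat_lit 136429568) (nat_lit 67043328)) (I.mix (nat_lit 168886272) (nat_lit 85852160)) (I.mix (nat_lit 171311104) (nat_lit 88031232)))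
  false (nat_lit 568624)
def b2_7 : Bx := Bx.mk (St.mk (I.mix (nat_lit 11730944) (nat_lit 39305216)) (I.mix (nat_lit 11845632) (nat_lit 49496064)) (I.mix (nat_lit 6930432) (nat_lit 131072)) (I.pos (nat_lit 141213696) (nat_lit 151093248)) (I.mix (nat_lit 40960000) (nat_lit 29474816)) (I.mix (nat_lit 50446336) (nat_lit 28164096)) (I.mix (nat_lit 6733824) (nat_lit 5586944)))
  false (nat_lit 0)
def t2 : BTr := (BTr.n (BTr.n (BTr.n (BTr.b b2_0) (BTr.b b2_1)) (BTr.n (BTr.b b2_2) (BTr.b b2_3))) (BTr.n (BTr.n (BTr.b b2_4) (BTr.b b2_5)) (BTr.n (BTr.b b2_6) (BTr.b b2_7))))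
namespace T2
def l0 : Tr := Tr.L (Pth.l (Pth.l (Pth.l Pth.z)))
def l1 : Tr := Tr.L (Pth.l (Pth.l (Pth.r Pth.z)))
def l2 : Tr := Tr.L (Pth.l (Pth.r (Pth.l Pth.z)))
def l3 : Tr := Tr.L (Pth.l (Pth.r (Pth.r Pth.z)))
def l4 : Tr := Tr.L (Pth.r (Pth.l (Pth.l Pth.z)))
def l5 : Tr := Tr.L (Pth.r (Pth.l (Pth.r Pth.z)))
def l6 : Tr := Tr.L (Pth.r (Pth.r (Pth.l Pth.z)))
def l7 : Tr := Tr.L (Pth.r (Pth.r (Pth.r Pth.z)))
end T2
def b3_0 : Bx := Bx.mk (St.mk (I.pos (nat_lit 153370624) (nat_lit 287375360)) (I.mix (nat_lit 37060608) (nat_lit 66142208)) (I.mix (nat_lit 80281600) (nat_lit 118751232)) (I.pos (nat_lit 130252800) (nat_lit 377421824)) (I.mix (nat_lit 119226368) (nat_lit 89325568)) (I.mix (nat_lit 119144448) (nat_lit 93454336)) (I.mix (nat_lit 180764672) (nat_lit 117882880)))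
  false (nat_lit 30687332)
def b3_1 : Bx := Bx.mk (St.mk (I.pos (nat_lit 106627072) (nat_lit 169230336)) (I.neg (nat_lit 6471680) (nat_lit 63373312)) (I.mix (nat_lit 55197696) (nat_lit 2572288)) (I.pos (nat_lit 100433920) (nat_lit 172441600)) (I.mix (nat_lit 73482240) (nat_lit 45039616)) (I.mix (nat_lit 40960000) (nat_lit 67190784)) (I.mix (nat_lit 39452672) (nat_lit 65437696)))
  false (nat_lit 0)
def b3_2 : Bx := Bx.mk (St.mk (I.mix (nat_lit 25657344) (nat_lit 86212608)) (I.mix (nat_lit 34783232) (nat_lit 3932160)) (I.mix (nat_lit 16580608) (nat_lit 6553600)) (I.pos (nat_lit 40452096) (nat_lit 90570752)) (I.mix (nat_lit 33636352) (nat_lit 24494080)) (I.mix (nat_lit 24674304) (nat_lit 29573120)) (I.mix (nat_lit 13926400) (nat_lit 15892480)))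
  false (nat_lit 0)
def b3_3 : Bx := Bx.mk (St.mk (I.pos (nat_lit 148914176) (nat_lit 218398720)) (I.mix (nat_lit 37666816) (nat_lit 76480512)) (I.mix (nat_lit 26656768) (nat_lit 121700352)) (I.pos (nat_lit 131301376) (nat_lit 239779840)) (I.mix (nat_lit 163823616) (nat_lit 61046784)) (I.mix (nat_lit 195887104) (nat_lit 114196480)) (I.mix (nat_lit 227131392) (nat_lit 121880576)))
  false (nat_lit 24609139)
def b3_4 : Bx := Bx.mk (St.mk (I.mix (nat_lit 39763968) (nat_lit 111247360)) (I.mix (nat_lit 11091968) (nat_lit 42696704)) (I.mix (nat_lit 6553600) (nat_lit 31539200)) (I.pos (nat_lit 39124992) (nat_lit 106594304)) (I.mix (nat_lit 53493760) (nat_lit 28475392)) (I.mix (nat_lit 55214080) (nat_lit 40566784)) (I.mix (nat_lit 31490048) (nat_lit 24592384)))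
  false (nat_lit 0)
def b3_5 : Bx := Bx.mk (St.mk (I.pos (nat_lit 148635648) (nat_lit 170950656)) (I.neg (nat_lit 9928704) (nat_lit 40927232)) (I.mix (nat_lit 31965184) (nat_lit 2834432)) (I.pos (nat_lit 132317184) (nat_lit 175226880)) (I.mix (nat_lit 22249472) (nat_lit 17694720)) (I.mix (nat_lit 10944512) (nat_lit 14172160)) (I.mix (nat_lit 10846208) (nat_lit 14483456)))
  false (nat_lit 0)
def b3_6 : Bx := Bx.mk (St.mk (I.mix (nat_lit 43089920) (nat_lit 109494272)) (I.mix (nat_lit 13549568) (nat_lit 4882432)) (I.mix (nat_lit 4669440) (nat_lit 6111232)) (I.pos (nat_lit 42172416) (nat_lit 94552064)) (I.mix (nat_lit 5259264) (nat_lit 8994816)) (I.mix (nat_lit 4112384) (nat_lit 4915200)) (I.mix (nat_lit 1769472) (nat_lit 3129344)))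
  false (nat_lit 0)
def b3_7 : Bx := Bx.mk (St.mk (I.mix (nat_lit 23691264) (nat_lit 125222912)) (I.mix (nat_lit 12500992) (nat_lit 37814272)) (I.mix (nat_lit 12632064) (nat_lit 28999680)) (I.pos (nat_lit 39010304) (nat_lit 119226368)) (I.mix (nat_lit 46907392) (nat_lit 32980992)) (I.mix (nat_lit 44285952) (nat_lit 32980992)) (I.mix (nat_lit 30965760) (nat_lit 24821760)))
  false (nat_lit 0)
def b3_8 : Bx := Bx.mk (St.mk (I.pos (nat_lit 91799552) (nat_lit 147849216)) (I.mix (nat_lit 66879488) (nat_lit 11747328)) (I.mix (nat_lit 57573376) (nat_lit 8683520)) (I.pos (nat_lit 77627392) (nat_lit 144785408)) (I.mix (nat_lit 93618176) (nat_lit 36454400)) (I.mix (nat_lit 62996480) (nat_lit 102612992)) (I.mix (nat_lit 48185344) (nat_lit 77594624)))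
  false (nat_lit 0)
def b3_9 : Bx := Bx.mk (St.mk (I.mix (nat_lit 39567360) (nat_lit 74219520)) (I.mix (nat_lit 33079296) (nat_lit 8126464)) (I.mix (nat_lit 13746176) (nat_lit 6144000)) (I.pos (nat_lit 40943616) (nat_lit 83132416)) (I.mix (nat_lit 32161792) (nat_lit 18890752)) (I.mix (nat_lit 24199168) (nat_lit 33357824)) (I.mix (nat_lit 10321920) (nat_lit 12926976)))
  false (nat_lit 0)
def t3 : BTr := (BTr.n (BTr.n (BTr.n (BTr.b b3_0) (BTr.b b3_1)) (BTr.n (BTr.b b3_2) (BTr.n (BTr.b b3_3) (BTr.b b3_4)))) (BTr.n (BTr.n (BTr.b b3_5) (BTr.b b3_6)) (BTr.n (BTr.b b3_7) (BTr.n (BTr.b b3_8) (BTr.b b3_9)))))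
namespace T3
def l0 : Tr := Tr.L (Pth.l (Pth.l (Pth.l Pth.z)))
def l1 : Tr := Tr.L (Pth.l (Pth.l (Pth.r Pth.z)))
def l2 : Tr := Tr.L (Pth.l (Pth.r (Pth.l Pth.z)))
def l3 : Tr := Tr.L (Pth.l (Pth.r (Pth.r (Pth.l Pth.z))))
def l4 : Tr := Tr.L (Pth.l (Pth.r (Pth.r (Pth.r Pth.z))))
def l5 : Tr := Tr.L (Pth.r (Pth.l (Pth.l Pth.z)))
def l6 : Tr := Tr.L (Pth.r (Pth.l (Pth.r Pth.z)))
def l7 : Tr := Tr.L (Pth.r (Pth.r (Pth.l Pth.z)))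
def l8 : Tr := Tr.L (Pth.r (Pth.r (Pth.r (Pth.l Pth.z))))
def l9 : Tr := Tr.L (Pth.r (Pth.r (Pth.r (Pth.r Pth.z))))
end T3
def b4_0 : Bx := Bx.mk (St.mk (I.pos (nat_lit 152829952) (nat_lit 296960000)) (I.mix (nat_lit 33636352) (nat_lit 76464128)) (I.mix (nat_lit 99844096) (nat_lit 112967680)) (I.pos (nat_lit 226525184) (nat_lit 468959232)) (I.mix (nat_lit 113606656) (nat_lit 106151936)) (I.mix (nat_lit 134742016) (nat_lit 89653248)) (I.mix (nat_lit 198279168) (nat_lit 128204800)))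
  false (nat_lit 77720139)
def b4_1 : Bx := Bx.mk (St.mk (I.pos (nat_lit 80297984) (nat_lit 158367744)) (I.neg (nat_lit 4194304) (nat_lit 72318976)) (I.mix (nat_lit 57081856) (nat_lit 9207808)) (I.pos (nat_lit 168607744) (nat_lit 235454464)) (I.mix (nat_lit 70074368) (nat_lit 55541760)) (I.mix (nat_lit 50233344) (nat_lit 77152256)) (I.mix (nat_lit 45531136) (nat_lit 67616768)))
  false (nat_lit 0)
def b4_2 : Bx := Bx.mk (St.mk (I.mix (nat_lit 36405248) (nat_lit 11829248)) (I.mix (nat_lit 49086464) (nat_lit 11829248)) (I.pos (nat_lit 933888) (nat_lit 7634944)) (I.pos (nat_lit 141033472) (nat_lit 149848064)) (I.mix (nat_lit 24625152) (nat_lit 40075264)) (I.mix (nat_lit 25444352) (nat_lit 44548096)) (I.mix (nat_lit 5308416) (nat_lit 5275648)))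
  true (nat_lit 0)
def b4_3 : Bx := Bx.mk (St.mk (I.pos (nat_lit 121470976) (nat_lit 202784768)) (I.mix (nat_lit 45498368) (nat_lit 78544896)) (I.mix (nat_lit 32161792) (nat_lit 113295360)) (I.pos (nat_lit 196395008) (nat_lit 297680896)) (I.mix (nat_lit 139624448) (nat_lit 61292544)) (I.mix (nat_lit 156434432) (nat_lit 77725696)) (I.mix (nat_lit 161988608) (nat_lit 82296832)))
  false (nat_lit 20391001)
def b4_4 : Bx := Bx.mk (St.mk (I.mix (nat_lit 11829248) (nat_lit 36405248)) (I.mix (nat_lit 13352960) (nat_lit 49184768)) (I.pos (nat_lit 933888) (nat_lit 7634944)) (I.pos (nat_lit 141033472) (nat_lit 149848064)) (I.mix (nat_lit 40075264) (nat_lit 24625152)) (I.mix (nat_lit 44548096) (nat_lit 25444352)) (I.mix (nat_lit 5308416) (nat_lit 5275648)))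
  false (nat_lit 0)
def b4_5 : Bx := Bx.mk (St.mk (I.pos (nat_lit 19021824) (nat_lit 76480512)) (I.mix (nat_lit 13205504) (nat_lit 50413568)) (I.mix (nat_lit 20348928) (nat_lit 11862016)) (I.pos (nat_lit 141934592) (nat_lit 164134912)) (I.mix (nat_lit 36175872) (nat_lit 47759360)) (I.mix (nat_lit 56950784) (nat_lit 33996800)) (I.mix (nat_lit 29540352) (nat_lit 18268160)))
  false (nat_lit 0)
def b4_6 : Bx := Bx.mk (St.mk (I.pos (nat_lit 48660480) (nat_lit 107642880)) (I.mix (nat_lit 70991872) (nat_lit 15794176)) (I.neg (nat_lit 3047424) (nat_lit 53788672)) (I.pos (nat_lit 149159936) (nat_lit 187711488)) (I.mix (nat_lit 79511552) (nat_lit 37896192)) (I.mix (nat_lit 47628288) (nat_lit 93618176)) (I.mix (nat_lit 33095680) (nat_lit 54673408)))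
  false (nat_lit 0)
def b4_7 : Bx := Bx.mk (St.mk (I.neg (nat_lit 19005440) (nat_lit 76480512)) (I.mix (nat_lit 50413568) (nat_lit 13205504)) (I.mix (nat_lit 20348928) (nat_lit 11862016)) (I.pos (nat_lit 141934592) (nat_lit 164134912)) (I.mix (nat_lit 47759360) (nat_lit 36175872)) (I.mix (nat_lit 33996800) (nat_lit 56950784)) (I.mix (nat_lit 29540352) (nat_lit 18268160)))
  true (nat_lit 0)
def t4 : BTr := (BTr.n (BTr.n (BTr.n (BTr.b b4_0) (BTr.b b4_1)) (BTr.n (BTr.b b4_2) (BTr.b b4_3))) (BTr.n (BTr.n (BTr.b b4_4) (BTr.b b4_5)) (BTr.n (BTr.b b4_6) (BTr.b b4_7))))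
namespace T4
def l0 : Tr := Tr.L (Pth.l (Pth.l (Pth.l Pth.z)))
def l1 : Tr := Tr.L (Pth.l (Pth.l (Pth.r Pth.z)))
def l2 : Tr := Tr.L (Pth.l (Pth.r (Pth.l Pth.z)))
def l3 : Tr := Tr.L (Pth.l (Pth.r (Pth.r Pth.z)))
def l4 : Tr := Tr.L (Pth.r (Pth.l (Pth.l Pth.z)))
def l5 : Tr := Tr.L (Pth.r (Pth.l (Pth.r Pth.z)))
def l6 : Tr := Tr.L (Pth.r (Pth.r (Pth.l Pth.z)))
def l7 : Tr := Tr.L (Pth.r (Pth.r (Pth.r Pth.z)))
end T4
def b5_0 : Bx := Bx.mk (St.mk (I.pos (nat_lit 153354240) (nat_lit 287490048)) (I.mix (nat_lit 31080448) (nat_lit 70615040)) (I.mix (nat_lit 67043328) (nat_lit 123289600)) (I.pos (nat_lit 174735360) (nat_lit 398409728)) (I.mix (nat_lit 123060224) (nat_lit 99090432)) (I.mix (nat_lit 142278656) (nat_lit 97353728)) (I.mix (nat_lit 213041152) (nat_lit 124534784)))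
  false (nat_lit 45998498)
def b5_1 : Bx := Bx.mk (St.mk (I.pos (nat_lit 100089856) (nat_lit 158138368)) (I.neg (nat_lit 9879552) (nat_lit 64569344)) (I.mix (nat_lit 47415296) (nat_lit 5079040)) (I.pos (nat_lit 132972544) (nat_lit 183222272)) (I.mix (nat_lit 68648960) (nat_lit 43597824)) (I.mix (nat_lit 36175872) (nat_lit 62193664)) (I.mix (nat_lit 31490048) (nat_lit 55508992)))
  false (nat_lit 0)
def b5_2 : Bx := Bx.mk (St.mk (I.mix (nat_lit 29884416) (nat_lit 45531136)) (I.mix (nat_lit 36093952) (nat_lit 3899392)) (I.mix (nat_lit 6569984) (nat_lit 8306688)) (I.pos (nat_lit 83214336) (nat_lit 99893248)) (I.mix (nat_lit 25083904) (nat_lit 27475968)) (I.mix (nat_lit 23527424) (nat_lit 30638080)) (I.mix (nat_lit 8896512) (nat_lit 10993664)))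
  false (nat_lit 0)
def b5_3 : Bx := Bx.mk (St.mk (I.pos (nat_lit 143048704) (nat_lit 211845120)) (I.mix (nat_lit 35553280) (nat_lit 73728000)) (I.mix (nat_lit 16039936) (nat_lit 120012800)) (I.pos (nat_lit 168296448) (nat_lit 255524864)) (I.mix (nat_lit 146030592) (nat_lit 54624256)) (I.mix (nat_lit 162512896) (nat_lit 97910784)) (I.mix (nat_lit 173342720) (nat_lit 98287616)))
  false (nat_lit 18001627)
def b5_4 : Bx := Bx.mk (St.mk (I.mix (nat_lit 51134464) (nat_lit 74940416)) (I.mix (nat_lit 7651328) (nat_lit 38813696)) (I.mix (nat_lit 7585792) (nat_lit 21676032)) (I.pos (nat_lit 83050496) (nat_lit 109625344)) (I.mix (nat_lit 36569088) (nat_lit 19759104)) (I.mix (nat_lit 38027264) (nat_lit 22757376)) (I.mix (nat_lit 13713408) (nat_lit 10452992)))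
  false (nat_lit 0)
def b5_5 : Bx := Bx.mk (St.mk (I.mix (nat_lit 55001088) (nat_lit 59965440)) (I.mix (nat_lit 15466496) (nat_lit 6848512)) (I.pos (nat_lit 1015808) (nat_lit 10878976)) (I.pos (nat_lit 87375872) (nat_lit 100024320)) (I.mix (nat_lit 9240576) (nat_lit 12173312)) (I.mix (nat_lit 8732672) (nat_lit 9699328)) (I.mix (nat_lit 3964928) (nat_lit 3948544)))
  false (nat_lit 0)
def b5_6 : Bx := Bx.mk (St.mk (I.mix (nat_lit 43024384) (nat_lit 102662144)) (I.mix (nat_lit 10960896) (nat_lit 41713664)) (I.mix (nat_lit 9535488) (nat_lit 26214400)) (I.pos (nat_lit 81068032) (nat_lit 126582784)) (I.mix (nat_lit 48152576) (nat_lit 39747584)) (I.mix (nat_lit 51445760) (nat_lit 34144256)) (I.mix (nat_lit 32980992) (nat_lit 24543232)))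
  false (nat_lit 0)
def b5_7 : Bx := Bx.mk (St.mk (I.pos (nat_lit 79200256) (nat_lit 129843200)) (I.mix (nat_lit 65814528) (nat_lit 13565952)) (I.mix (nat_lit 47480832) (nat_lit 8372224)) (I.pos (nat_lit 112771072) (nat_lit 152780800)) (I.mix (nat_lit 80019456) (nat_lit 31965184)) (I.mix (nat_lit 56016896) (nat_lit 87719936)) (I.mix (nat_lit 41123840) (nat_lit 58851328)))
  false (nat_lit 0)
def b5_8 : Bx := Bx.mk (St.mk (I.mix (nat_lit 50954240) (nat_lit 36241408)) (I.mix (nat_lit 38584320) (nat_lit 9175040)) (I.mix (nat_lit 4915200) (nat_lit 11829248)) (I.pos (nat_lit 82673664) (nat_lit 100171776)) (I.mix (nat_lit 33325056) (nat_lit 31490048)) (I.mix (nat_lit 28049408) (nat_lit 40157184)) (I.mix (nat_lit 14532608) (nat_lit 11567104)))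
  false (nat_lit 0)
def b5_9 : Bx := Bx.mk (St.mk (I.pos (nat_lit 143933440) (nat_lit 158973952)) (I.neg (nat_lit 16269312) (nat_lit 37339136)) (I.mix (nat_lit 20070400) (nat_lit 3981312)) (I.pos (nat_lit 170409984) (nat_lit 184827904)) (I.mix (nat_lit 20905984) (nat_lit 18497536)) (I.mix (nat_lit 13762560) (nat_lit 19120128)) (I.mix (nat_lit 13680640) (nat_lit 20086784)))
  false (nat_lit 0)
def t5 : BTr := (BTr.n (BTr.n (BTr.n (BTr.b b5_0) (BTr.b b5_1)) (BTr.n (BTr.b b5_2) (BTr.n (BTr.b b5_3) (BTr.b b5_4)))) (BTr.n (BTr.n (BTr.b b5_5) (BTr.b b5_6)) (BTr.n (BTr.b b5_7) (BTr.n (BTr.b b5_8) (BTr.b b5_9)))))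
namespace T5
def l0 : Tr := Tr.L (Pth.l (Pth.l (Pth.l Pth.z)))
def l1 : Tr := Tr.L (Pth.l (Pth.l (Pth.r Pth.z)))
def l2 : Tr := Tr.L (Pth.l (Pth.r (Pth.l Pth.z)))
def l3 : Tr := Tr.L (Pth.l (Pth.r (Pth.r (Pth.l Pth.z))))
def l4 : Tr := Tr.L (Pth.l (Pth.r (Pth.r (Pth.r Pth.z))))
def l5 : Tr := Tr.L (Pth.r (Pth.l (Pth.l Pth.z)))
def l6 : Tr := Tr.L (Pth.r (Pth.l (Pth.r Pth.z)))
def l7 : Tr := Tr.L (Pth.r (Pth.r (Pth.l Pth.z)))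
def l8 : Tr := Tr.L (Pth.r (Pth.r (Pth.r (Pth.l Pth.z))))
def l9 : Tr := Tr.L (Pth.r (Pth.r (Pth.r (Pth.r Pth.z))))
end T5
theorem bx0_0 : BoxOK sI cl5 cl6 cl7 t2 t4 b0_0 :=
  box_mk (TrL.c (I.pos (nat_lit 0) (nat_lit 0)) (xa (xa T2.l0 T2.l0) (xa T2.l0 T2.l0))
  (TrL.c (I.pos (nat_lit 0) (nat_lit 0)) (xa T4.l1 T4.l1)
  (TrL.c (I.pos (nat_lit 0) (nat_lit 0)) T2.l1
  (TrL.c (I.pos (nat_lit 0) (nat_lit 0)) T4.l2
  (TrL.c (I.pos (nat_lit 0) (nat_lit 0)) (xa T4.l3 (xb T4.l3 T4.l3))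
  (TrL.c (I.pos (nat_lit 0) (nat_lit 0)) T2.l2
  (TrL.c (I.pos (nat_lit 0) (nat_lit 0)) T4.l4
  (TrL.c (I.pos (nat_lit 0) (nat_lit 0)) T2.l3
  TrL.n)))))))) (by decide +kernel)
theorem bx0_1 : BoxOK sI cl5 cl6 cl7 t2 t4 b0_1 :=
  box_mk (TrL.c (I.pos (nat_lit 0) (nat_lit 0)) T2.l0
  (TrL.c (I.pos (nat_lit 0) (nat_lit 0)) T4.l1
  (TrL.c (I.pos (nat_lit 0) (nat_lit 0)) T2.l1
  (TrL.c (I.pos (nat_lit 0) (nat_lit 0)) T4.l2
  (TrL.c (I.pos (nat_lit 0) (nat_lit 0)) T4.l3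
  (TrL.c (I.pos (nat_lit 0) (nat_lit 0)) T2.l2
  (TrL.c (I.pos (nat_lit 0) (nat_lit 0)) T4.l4
  (TrL.c (I.pos (nat_lit 0) (nat_lit 0)) T2.l3
  TrL.n)))))))) (by decide +kernel)
theorem bx0_2 : BoxOK sI cl5 cl6 cl7 t2 t4 b0_2 :=
  box_mk (TrL.c (I.pos (nat_lit 0) (nat_lit 0)) T2.l0
  (TrL.c (I.pos (nat_lit 0) (nat_lit 0)) T4.l1
  (TrL.c (I.pos (nat_lit 0) (nat_lit 0)) T2.l1
  (TrL.c (I.pos (nat_lit 0) (nat_lit 0)) T4.l2
  (TrL.c (I.pos (nat_lit 0) (nat_lit 0)) T4.l3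
  (TrL.c (I.pos (nat_lit 0) (nat_lit 0)) T2.l2
  (TrL.c (I.pos (nat_lit 0) (nat_lit 0)) T4.l4
  (TrL.c (I.pos (nat_lit 0) (nat_lit 0)) T2.l3
  TrL.n)))))))) (by decide +kernel)
theorem bx0_3 : BoxOK sI cl5 cl6 cl7 t2 t4 b0_3 :=
  box_mk (TrL.c (I.pos (nat_lit 0) (nat_lit 0)) T2.l0
  (TrL.c (I.pos (nat_lit 0) (nat_lit 0)) T4.l3
  (TrL.c (I.pos (nat_lit 0) (nat_lit 0)) T2.l1
  (TrL.c (I.pos (nat_lit 0) (nat_lit 0)) T4.l2
  (TrL.c (I.pos (nat_lit 0) (nat_lit 0)) T4.l3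
  (TrL.c (I.pos (nat_lit 0) (nat_lit 0)) T2.l2
  (TrL.c (I.pos (nat_lit 0) (nat_lit 0)) T4.l4
  (TrL.c (I.pos (nat_lit 0) (nat_lit 0)) T2.l3
  TrL.n)))))))) (by decide +kernel)
theorem bx0_4 : BoxOK sI cl5 cl6 cl7 t2 t4 b0_4 :=
  box_mk (TrL.c (I.pos (nat_lit 0) (nat_lit 0)) T2.l0
  (TrL.c (I.pos (nat_lit 0) (nat_lit 0)) T4.l1
  (TrL.c (I.pos (nat_lit 0) (nat_lit 0)) T2.l1
  (TrL.c (I.pos (nat_lit 0) (nat_lit 0)) T4.l2
  (TrL.c (I.pos (nat_lit 0) (nat_lit 0)) T4.l3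
  (TrL.c (I.pos (nat_lit 0) (nat_lit 0)) T2.l2
  (TrL.c (I.pos (nat_lit 0) (nat_lit 0)) T4.l4
  (TrL.c (I.pos (nat_lit 0) (nat_lit 0)) T2.l3
  TrL.n)))))))) (by decide +kernel)
theorem bx0_5 : BoxOK sI cl5 cl6 cl7 t2 t4 b0_5 :=
  box_mk (TrL.c (I.pos (nat_lit 0) (nat_lit 0)) T2.l0
  (TrL.c (I.pos (nat_lit 0) (nat_lit 0)) T4.l1
  (TrL.c (I.pos (nat_lit 0) (nat_lit 0)) T2.l1
  (TrL.c (I.pos (nat_lit 0) (nat_lit 0)) T4.l2
  (TrL.c (I.pos (nat_lit 0) (nat_lit 0)) T4.l3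
  (TrL.c (I.pos (nat_lit 0) (nat_lit 0)) T2.l2
  (TrL.c (I.pos (nat_lit 0) (nat_lit 0)) T4.l4
  (TrL.c (I.pos (nat_lit 0) (nat_lit 0)) T2.l3
  TrL.n)))))))) (by decide +kernel)
theorem bx0_6 : BoxOK sI cl5 cl6 cl7 t2 t4 b0_6 :=
  box_mk (TrL.c (I.pos (nat_lit 0) (nat_lit 0)) T2.l0
  (TrL.c (I.pos (nat_lit 0) (nat_lit 0)) T4.l3
  (TrL.c (I.pos (nat_lit 0) (nat_lit 0)) T2.l1
  (TrL.c (I.pos (nat_lit 0) (nat_lit 0)) T4.l2
  (TrL.c (I.pos (nat_lit 0) (nat_lit 0)) T4.l3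
  (TrL.c (I.pos (nat_lit 0) (nat_lit 0)) T2.l2
  (TrL.c (I.pos (nat_lit 0) (nat_lit 0)) T4.l4
  (TrL.c (I.pos (nat_lit 0) (nat_lit 0)) T2.l3
  TrL.n)))))))) (by decide +kernel)
theorem bx0_7 : BoxOK sI cl5 cl6 cl7 t2 t4 b0_7 :=
  box_mk (TrL.c (I.pos (nat_lit 0) (nat_lit 0)) T2.l0
  (TrL.c (I.pos (nat_lit 0) (nat_lit 0)) T4.l1
  (TrL.c (I.pos (nat_lit 0) (nat_lit 0)) T2.l1
  (TrL.c (I.pos (nat_lit 0) (nat_lit 0)) T4.l2
  (TrL.c (I.pos (nat_lit 0) (nat_lit 0)) T4.l3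
  (TrL.c (I.pos (nat_lit 0) (nat_lit 0)) T2.l2
  (TrL.c (I.pos (nat_lit 0) (nat_lit 0)) T4.l4
  (TrL.c (I.pos (nat_lit 0) (nat_lit 0)) T2.l3
  TrL.n)))))))) (by decide +kernel)
theorem bx0_8 : BoxOK sI cl5 cl6 cl7 t2 t4 b0_8 :=
  box_mk (TrL.c (I.pos (nat_lit 0) (nat_lit 0)) T2.l0
  (TrL.c (I.pos (nat_lit 0) (nat_lit 0)) T4.l1
  (TrL.c (I.pos (nat_lit 0) (nat_lit 0)) T2.l1
  (TrL.c (I.pos (nat_lit 0) (nat_lit 0)) T4.l2
  (TrL.c (I.pos (nat_lit 0) (nat_lit 0)) T4.l3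
  (TrL.c (I.pos (nat_lit 0) (nat_lit 0)) T2.l2
  (TrL.c (I.pos (nat_lit 0) (nat_lit 0)) T4.l4
  (TrL.c (I.pos (nat_lit 0) (nat_lit 0)) T2.l3
  TrL.n)))))))) (by decide +kernel)
theorem bx0_9 : BoxOK sI cl5 cl6 cl7 t2 t4 b0_9 :=
  box_mk (TrL.c (I.pos (nat_lit 0) (nat_lit 0)) (xa (xb T2.l0 T2.l0) (xb T2.l0 T2.l0))
  (TrL.c (I.pos (nat_lit 0) (nat_lit 0)) T4.l1
  (TrL.c (I.pos (nat_lit 0) (nat_lit 0)) T2.l1
  (TrL.c (I.pos (nat_lit 0) (nat_lit 0)) T4.l2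
  (TrL.c (I.pos (nat_lit 0) (nat_lit 0)) (xb T4.l3 T4.l3)
  (TrL.c (I.pos (nat_lit 0) (nat_lit 0)) T2.l2
  (TrL.c (I.pos (nat_lit 0) (nat_lit 0)) T4.l4
  (TrL.c (I.pos (nat_lit 0) (nat_lit 0)) T2.l3
  TrL.n)))))))) (by decide +kernel)
theorem sv0 : StarV sI cl5 cl6 cl7 t2 t4 t0 :=
  (bt_n (bt_n (bt_n (bt_b bx0_0) (bt_b bx0_1)) (bt_n (bt_b bx0_2) (bt_n (bt_b bx0_3) (bt_b bx0_4)))) (bt_n (bt_n (bt_b bx0_5) (bt_b bx0_6)) (bt_n (bt_b bx0_7) (bt_n (bt_b bx0_8) (bt_b bx0_9)))))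
def S0 : StarD := StarD.mk cl5 cl6 cl7 2 4 t0
theorem bx1_0 : BoxOK sI cl5 cl7 cl6 t4 t2 b1_0 :=
  box_mk (TrL.c (I.pos (nat_lit 0) (nat_lit 0)) (xa (xa T4.l0 T4.l0) (xa T4.l0 T4.l0))
  (TrL.c (I.pos (nat_lit 0) (nat_lit 0)) (xa T2.l4 T2.l4)
  (TrL.c (I.pos (nat_lit 0) (nat_lit 0)) T4.l5
  (TrL.c (I.pos (nat_lit 0) (nat_lit 0)) T2.l5
  (TrL.c (I.pos (nat_lit 0) (nat_lit 0)) (xa T2.l6 (xa T2.l6 (xb T2.l6 T2.l6)))
  (TrL.c (I.pos (nat_lit 0) (nat_lit 0)) T4.l6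
  (TrL.c (I.pos (nat_lit 0) (nat_lit 0)) T2.l7
  (TrL.c (I.pos (nat_lit 0) (nat_lit 0)) T4.l7
  TrL.n)))))))) (by decide +kernel)
theorem bx1_1 : BoxOK sI cl5 cl7 cl6 t4 t2 b1_1 :=
  box_mk (TrL.c (I.pos (nat_lit 0) (nat_lit 0)) T4.l0
  (TrL.c (I.pos (nat_lit 0) (nat_lit 0)) T2.l4
  (TrL.c (I.pos (nat_lit 0) (nat_lit 0)) T4.l5
  (TrL.c (I.pos (nat_lit 0) (nat_lit 0)) T2.l5
  (TrL.c (I.pos (nat_lit 0) (nat_lit 0)) T2.l6
  (TrL.c (I.pos (nat_lit 0) (nat_lit 0)) T4.l6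
  (TrL.c (I.pos (nat_lit 0) (nat_lit 0)) T2.l7
  (TrL.c (I.pos (nat_lit 0) (nat_lit 0)) T4.l7
  TrL.n)))))))) (by decide +kernel)
theorem bx1_2 : BoxOK sI cl5 cl7 cl6 t4 t2 b1_2 :=
  box_mk (TrL.c (I.pos (nat_lit 0) (nat_lit 0)) T4.l0
  (TrL.c (I.pos (nat_lit 0) (nat_lit 0)) T2.l4
  (TrL.c (I.pos (nat_lit 0) (nat_lit 0)) T4.l5
  (TrL.c (I.pos (nat_lit 0) (nat_lit 0)) T2.l5
  (TrL.c (I.pos (nat_lit 0) (nat_lit 0)) T2.l6
  (TrL.c (I.pos (nat_lit 0) (nat_lit 0)) T4.l6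
  (TrL.c (I.pos (nat_lit 0) (nat_lit 0)) T2.l7
  (TrL.c (I.pos (nat_lit 0) (nat_lit 0)) T4.l7
  TrL.n)))))))) (by decide +kernel)
theorem bx1_3 : BoxOK sI cl5 cl7 cl6 t4 t2 b1_3 :=
  box_mk (TrL.c (I.pos (nat_lit 0) (nat_lit 0)) T4.l0
  (TrL.c (I.pos (nat_lit 0) (nat_lit 0)) T2.l4
  (TrL.c (I.pos (nat_lit 0) (nat_lit 0)) T4.l5
  (TrL.c (I.pos (nat_lit 0) (nat_lit 0)) T2.l5
  (TrL.c (I.pos (nat_lit 0) (nat_lit 0)) T2.l6
  (TrL.c (I.pos (nat_lit 0) (nat_lit 0)) T4.l6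
  (TrL.c (I.pos (nat_lit 0) (nat_lit 0)) T2.l7
  (TrL.c (I.pos (nat_lit 0) (nat_lit 0)) T4.l7
  TrL.n)))))))) (by decide +kernel)
theorem bx1_4 : BoxOK sI cl5 cl7 cl6 t4 t2 b1_4 :=
  box_mk (TrL.c (I.pos (nat_lit 0) (nat_lit 0)) T4.l0
  (TrL.c (I.pos (nat_lit 0) (nat_lit 0)) T2.l4
  (TrL.c (I.pos (nat_lit 0) (nat_lit 0)) T4.l5
  (TrL.c (I.pos (nat_lit 0) (nat_lit 0)) T2.l5
  (TrL.c (I.pos (nat_lit 0) (nat_lit 0)) T2.l6
  (TrL.c (I.pos (nat_lit 0) (nat_lit 0)) T4.l6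
  (TrL.c (I.pos (nat_lit 0) (nat_lit 0)) T2.l7
  (TrL.c (I.pos (nat_lit 0) (nat_lit 0)) T4.l7
  TrL.n)))))))) (by decide +kernel)
theorem bx1_5 : BoxOK sI cl5 cl7 cl6 t4 t2 b1_5 :=
  box_mk (TrL.c (I.pos (nat_lit 0) (nat_lit 0)) T4.l0
  (TrL.c (I.pos (nat_lit 0) (nat_lit 0)) T2.l4
  (TrL.c (I.pos (nat_lit 0) (nat_lit 0)) T4.l5
  (TrL.c (I.pos (nat_lit 0) (nat_lit 0)) T2.l5
  (TrL.c (I.pos (nat_lit 0) (nat_lit 0)) T2.l6
  (TrL.c (I.pos (nat_lit 0) (nat_lit 0)) T4.l6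
  (TrL.c (I.pos (nat_lit 0) (nat_lit 0)) T2.l7
  (TrL.c (I.pos (nat_lit 0) (nat_lit 0)) T4.l7
  TrL.n)))))))) (by decide +kernel)
theorem bx1_6 : BoxOK sI cl5 cl7 cl6 t4 t2 b1_6 :=
  box_mk (TrL.c (I.pos (nat_lit 0) (nat_lit 0)) T4.l0
  (TrL.c (I.pos (nat_lit 0) (nat_lit 0)) T2.l4
  (TrL.c (I.pos (nat_lit 0) (nat_lit 0)) T4.l5
  (TrL.c (I.pos (nat_lit 0) (nat_lit 0)) T2.l5
  (TrL.c (I.pos (nat_lit 0) (nat_lit 0)) T2.l6
  (TrL.c (I.pos (nat_lit 0) (nat_lit 0)) T4.l6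
  (TrL.c (I.pos (nat_lit 0) (nat_lit 0)) T2.l7
  (TrL.c (I.pos (nat_lit 0) (nat_lit 0)) T4.l7
  TrL.n)))))))) (by decide +kernel)
theorem bx1_7 : BoxOK sI cl5 cl7 cl6 t4 t2 b1_7 :=
  box_mk (TrL.c (I.pos (nat_lit 0) (nat_lit 0)) T4.l0
  (TrL.c (I.pos (nat_lit 0) (nat_lit 0)) T2.l4
  (TrL.c (I.pos (nat_lit 0) (nat_lit 0)) T4.l5
  (TrL.c (I.pos (nat_lit 0) (nat_lit 0)) T2.l5
  (TrL.c (I.pos (nat_lit 0) (nat_lit 0)) T2.l6
  (TrL.c (I.pos (nat_lit 0) (nat_lit 0)) T4.l6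
  (TrL.c (I.pos (nat_lit 0) (nat_lit 0)) T2.l7
  (TrL.c (I.pos (nat_lit 0) (nat_lit 0)) T4.l7
  TrL.n)))))))) (by decide +kernel)
theorem bx1_8 : BoxOK sI cl5 cl7 cl6 t4 t2 b1_8 :=
  box_mk (TrL.c (I.pos (nat_lit 0) (nat_lit 0)) (xb (xa T4.l0 T4.l0) (xa T4.l0 T4.l0))
  (TrL.c (I.pos (nat_lit 0) (nat_lit 0)) (xb T2.l4 T2.l4)
  (TrL.c (I.pos (nat_lit 0) (nat_lit 0)) T4.l5
  (TrL.c (I.pos (nat_lit 0) (nat_lit 0)) T2.l5
  (TrL.c (I.pos (nat_lit 0) (nat_lit 0)) (xb T2.l6 T2.l6)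
  (TrL.c (I.pos (nat_lit 0) (nat_lit 0)) T4.l6
  (TrL.c (I.pos (nat_lit 0) (nat_lit 0)) T2.l7
  (TrL.c (I.pos (nat_lit 0) (nat_lit 0)) T4.l7
  TrL.n)))))))) (by decide +kernel)
theorem bx1_9 : BoxOK sI cl5 cl7 cl6 t4 t2 b1_9 :=
  box_mk (TrL.c (I.pos (nat_lit 0) (nat_lit 0)) (xa T4.l0 T4.l0)
  (TrL.c (I.pos (nat_lit 0) (nat_lit 0)) T2.l4
  (TrL.c (I.pos (nat_lit 0) (nat_lit 0)) T4.l5
  (TrL.c (I.pos (nat_lit 0) (nat_lit 0)) T2.l5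
  (TrL.c (I.pos (nat_lit 0) (nat_lit 0)) T2.l6
  (TrL.c (I.pos (nat_lit 0) (nat_lit 0)) T4.l6
  (TrL.c (I.pos (nat_lit 0) (nat_lit 0)) T2.l7
  (TrL.c (I.pos (nat_lit 0) (nat_lit 0)) T4.l7
  TrL.n)))))))) (by decide +kernel)
theorem sv1 : StarV sI cl5 cl7 cl6 t4 t2 t1 :=
  (bt_n (bt_n (bt_n (bt_b bx1_0) (bt_b bx1_1)) (bt_n (bt_b bx1_2) (bt_n (bt_b bx1_3) (bt_b bx1_4)))) (bt_n (bt_n (bt_b bx1_5) (bt_b bx1_6)) (bt_n (bt_b bx1_7) (bt_n (bt_b bx1_8) (bt_b bx1_9)))))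
def S1 : StarD := StarD.mk cl5 cl7 cl6 4 2 t1
theorem bx2_0 : BoxOK sI cl6 cl5 cl7 t0 t5 b2_0 :=
  box_mk (TrL.c (I.pos (nat_lit 0) (nat_lit 0)) (xa (xb T0.l0 (xa T0.l0 T0.l0)) (xb T0.l0 T0.l0))
  (TrL.c (I.pos (nat_lit 0) (nat_lit 0)) (xa T5.l1 T5.l1)
  (TrL.c (I.pos (nat_lit 0) (nat_lit 89480386)) (xR T0.l1 T0.l1)
  (TrL.c (I.pos (nat_lit 0) (nat_lit 41530880)) T5.l2
  (TrL.c (I.pos (nat_lit 0) (nat_lit 0)) (xa T5.l3 (xb (xa T5.l3 T5.l3) (xa T5.l3 T5.l3)))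
  (TrL.c (I.pos (nat_lit 0) (nat_lit 0)) T0.l2
  (TrL.c (I.mix (nat_lit 41527258) (nat_lit 41530880)) (xR T5.l6 T5.l6)
  (TrL.c (I.mix (nat_lit 41527258) (nat_lit 4274)) T0.l6
  TrL.n)))))))) (by decide +kernel)
theorem bx2_1 : BoxOK sI cl6 cl5 cl7 t0 t5 b2_1 :=
  box_mk (TrL.c (I.pos (nat_lit 0) (nat_lit 0)) T0.l0
  (TrL.c (I.pos (nat_lit 0) (nat_lit 0)) T5.l1
  (TrL.c (I.pos (nat_lit 0) (nat_lit 89480386)) T0.l1
  (TrL.c (I.pos (nat_lit 0) (nat_lit 41530880)) T5.l2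
  (TrL.c (I.pos (nat_lit 0) (nat_lit 0)) T5.l3
  (TrL.c (I.pos (nat_lit 0) (nat_lit 0)) T0.l2
  (TrL.c (I.mix (nat_lit 41527258) (nat_lit 41530880)) T5.l4
  (TrL.c (I.mix (nat_lit 41527258) (nat_lit 4274)) T0.l3
  TrL.n)))))))) (by decide +kernel)
theorem bx2_2 : BoxOK sI cl6 cl5 cl7 t0 t5 b2_2 :=
  box_mk (TrL.c (I.pos (nat_lit 0) (nat_lit 0)) T0.l0
  (TrL.c (I.pos (nat_lit 0) (nat_lit 0)) T5.l1
  (TrL.c (I.pos (nat_lit 0) (nat_lit 89480386)) T0.l1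
  (TrL.c (I.pos (nat_lit 0) (nat_lit 41530880)) T5.l2
  (TrL.c (I.pos (nat_lit 0) (nat_lit 0)) T5.l3
  (TrL.c (I.pos (nat_lit 0) (nat_lit 0)) T0.l2
  (TrL.c (I.mix (nat_lit 41527258) (nat_lit 41530880)) T5.l4
  (TrL.c (I.mix (nat_lit 41527258) (nat_lit 4274)) T0.l3
  TrL.n)))))))) (by decide +kernel)
theorem bx2_3 : BoxOK sI cl6 cl5 cl7 t0 t5 b2_3 :=
  box_mk (TrL.c (I.pos (nat_lit 0) (nat_lit 0)) T5.l1
  (TrL.c (I.pos (nat_lit 0) (nat_lit 0)) T0.l1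
  (TrL.c (I.mix (nat_lit 41527258) (nat_lit 41530880)) T5.l5
  (TrL.c (I.mix (nat_lit 41527258) (nat_lit 4274)) T0.l7
  TrL.n)))) (by decide +kernel)
theorem bx2_4 : BoxOK sI cl6 cl5 cl7 t0 t5 b2_4 :=
  box_mk (TrL.c (I.pos (nat_lit 0) (nat_lit 0)) T0.l0
  (TrL.c (I.pos (nat_lit 0) (nat_lit 0)) T5.l1
  (TrL.c (I.pos (nat_lit 0) (nat_lit 89480386)) (xR T0.l1 T0.l1)
  (TrL.c (I.pos (nat_lit 0) (nat_lit 41530880)) T5.l2
  (TrL.c (I.pos (nat_lit 0) (nat_lit 0)) T5.l3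
  (TrL.c (I.pos (nat_lit 0) (nat_lit 0)) T0.l2
  (TrL.c (I.mix (nat_lit 41527258) (nat_lit 41530880)) T5.l4
  (TrL.c (I.mix (nat_lit 41527258) (nat_lit 4274)) T0.l3
  TrL.n)))))))) (by decide +kernel)
theorem bx2_5 : BoxOK sI cl6 cl5 cl7 t0 t5 b2_5 :=
  box_mk (TrL.c (I.pos (nat_lit 0) (nat_lit 0)) T5.l9
  (TrL.c (I.pos (nat_lit 0) (nat_lit 0)) T0.l1
  (TrL.c (I.mix (nat_lit 41527258) (nat_lit 41530880)) T5.l5
  (TrL.c (I.mix (nat_lit 41527258) (nat_lit 4274)) T0.l7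
  TrL.n)))) (by decide +kernel)
theorem bx2_6 : BoxOK sI cl6 cl5 cl7 t0 t5 b2_6 :=
  box_mk (TrL.c (I.pos (nat_lit 0) (nat_lit 0)) (xb T0.l0 (xa T0.l0 T0.l0))
  (TrL.c (I.pos (nat_lit 0) (nat_lit 0)) T5.l1
  (TrL.c (I.pos (nat_lit 0) (nat_lit 89480386)) (xR T0.l1 T0.l1)
  (TrL.c (I.pos (nat_lit 0) (nat_lit 41530880)) T5.l8
  (TrL.c (I.pos (nat_lit 0) (nat_lit 0)) T5.l0
  (TrL.c (I.pos (nat_lit 0) (nat_lit 0)) T0.l2
  (TrL.c (I.mix (nat_lit 41527258) (nat_lit 41530880)) T5.l6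
  (TrL.c (I.mix (nat_lit 41527258) (nat_lit 4274)) T0.l6
  TrL.n)))))))) (by decide +kernel)
theorem bx2_7 : BoxOK sI cl6 cl5 cl7 t0 t5 b2_7 :=
  box_mk (TrL.c (I.pos (nat_lit 0) (nat_lit 0)) T0.l0
  (TrL.c (I.pos (nat_lit 0) (nat_lit 0)) T5.l9
  (TrL.c (I.pos (nat_lit 0) (nat_lit 89480386)) T0.l1
  (TrL.c (I.pos (nat_lit 0) (nat_lit 41530880)) T5.l2
  (TrL.c (I.pos (nat_lit 0) (nat_lit 0)) T5.l3
  (TrL.c (I.pos (nat_lit 0) (nat_lit 0)) T0.l2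
  (TrL.c (I.mix (nat_lit 41527258) (nat_lit 41530880)) T5.l4
  (TrL.c (I.mix (nat_lit 41527258) (nat_lit 4274)) T0.l3
  TrL.n)))))))) (by decide +kernel)
theorem sv2 : StarV sI cl6 cl5 cl7 t0 t5 t2 :=
  (bt_n (bt_n (bt_n (bt_b bx2_0) (bt_b bx2_1)) (bt_n (bt_b bx2_2) (bt_b bx2_3))) (bt_n (bt_n (bt_b bx2_4) (bt_b bx2_5)) (bt_n (bt_b bx2_6) (bt_b bx2_7))))
def S2 : StarD := StarD.mk cl6 cl5 cl7 0 5 t2
theorem bx3_0 : BoxOK sI cl6 cl7 cl5 t5 t0 b3_0 :=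
  box_mk (TrL.c (I.pos (nat_lit 0) (nat_lit 0)) (xa (xb T5.l0 (xa T5.l0 T5.l0)) (xa T5.l0 (xb T5.l3 T5.l3)))
  (TrL.c (I.pos (nat_lit 0) (nat_lit 0)) (xa T0.l5 T0.l5)
  (TrL.c (I.pos (nat_lit 0) (nat_lit 89480386)) (xR T5.l6 T5.l6)
  (TrL.c (I.pos (nat_lit 0) (nat_lit 41530880)) T0.l6
  (TrL.c (I.pos (nat_lit 0) (nat_lit 0)) (xa T0.l9 (xb (xa T0.l9 T0.l9) (xa T0.l9 T0.l9)))
  (TrL.c (I.pos (nat_lit 0) (nat_lit 0)) (xa T5.l7 T5.l7)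
  (TrL.c (I.mix (nat_lit 41527258) (nat_lit 41530880)) (xR T0.l7 T0.l7)
  (TrL.c (I.mix (nat_lit 41527258) (nat_lit 4274)) T5.l8
  TrL.n)))))))) (by decide +kernel)
theorem bx3_1 : BoxOK sI cl6 cl7 cl5 t5 t0 b3_1 :=
  box_mk (TrL.c (I.pos (nat_lit 0) (nat_lit 0)) T5.l0
  (TrL.c (I.pos (nat_lit 0) (nat_lit 0)) T0.l5
  (TrL.c (I.pos (nat_lit 0) (nat_lit 89480386)) (xR T5.l6 T5.l6)
  (TrL.c (I.pos (nat_lit 0) (nat_lit 41530880)) T0.l6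
  (TrL.c (I.pos (nat_lit 0) (nat_lit 0)) T0.l9
  (TrL.c (I.pos (nat_lit 0) (nat_lit 0)) T5.l7
  (TrL.c (I.mix (nat_lit 41527258) (nat_lit 41530880)) T0.l7
  (TrL.c (I.mix (nat_lit 41527258) (nat_lit 4274)) T5.l8
  TrL.n)))))))) (by decide +kernel)
theorem bx3_2 : BoxOK sI cl6 cl7 cl5 t5 t0 b3_2 :=
  box_mk (TrL.c (I.pos (nat_lit 0) (nat_lit 0)) T5.l0
  (TrL.c (I.pos (nat_lit 0) (nat_lit 0)) T0.l5
  (TrL.c (I.pos (nat_lit 0) (nat_lit 89480386)) T5.l6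
  (TrL.c (I.pos (nat_lit 0) (nat_lit 41530880)) T0.l6
  (TrL.c (I.pos (nat_lit 0) (nat_lit 0)) T0.l9
  (TrL.c (I.pos (nat_lit 0) (nat_lit 0)) T5.l7
  (TrL.c (I.mix (nat_lit 41527258) (nat_lit 41530880)) T0.l7
  (TrL.c (I.mix (nat_lit 41527258) (nat_lit 4274)) T5.l8
  TrL.n)))))))) (by decide +kernel)
theorem bx3_3 : BoxOK sI cl6 cl7 cl5 t5 t0 b3_3 :=
  box_mk (TrL.c (I.pos (nat_lit 0) (nat_lit 0)) (xa (xb T5.l0 T5.l0) T5.l0)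
  (TrL.c (I.pos (nat_lit 0) (nat_lit 0)) T0.l5
  (TrL.c (I.pos (nat_lit 0) (nat_lit 89480386)) (xR T5.l6 T5.l6)
  (TrL.c (I.pos (nat_lit 0) (nat_lit 41530880)) T0.l6
  (TrL.c (I.pos (nat_lit 0) (nat_lit 0)) (xb T0.l9 T0.l9)
  (TrL.c (I.pos (nat_lit 0) (nat_lit 0)) T5.l7
  (TrL.c (I.mix (nat_lit 41527258) (nat_lit 41530880)) (xR T0.l7 T0.l7)
  (TrL.c (I.mix (nat_lit 41527258) (nat_lit 4274)) T5.l8
  TrL.n)))))))) (by decide +kernel)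
theorem bx3_4 : BoxOK sI cl6 cl7 cl5 t5 t0 b3_4 :=
  box_mk (TrL.c (I.pos (nat_lit 0) (nat_lit 0)) (xa T5.l0 T5.l0)
  (TrL.c (I.pos (nat_lit 0) (nat_lit 0)) T0.l5
  (TrL.c (I.pos (nat_lit 0) (nat_lit 89480386)) T5.l6
  (TrL.c (I.pos (nat_lit 0) (nat_lit 41530880)) T0.l6
  (TrL.c (I.pos (nat_lit 0) (nat_lit 0)) T0.l9
  (TrL.c (I.pos (nat_lit 0) (nat_lit 0)) T5.l7
  (TrL.c (I.mix (nat_lit 41527258) (nat_lit 41530880)) T0.l7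
  (TrL.c (I.mix (nat_lit 41527258) (nat_lit 4274)) T5.l8
  TrL.n)))))))) (by decide +kernel)
theorem bx3_5 : BoxOK sI cl6 cl7 cl5 t5 t0 b3_5 :=
  box_mk (TrL.c (I.pos (nat_lit 0) (nat_lit 0)) T5.l0
  (TrL.c (I.pos (nat_lit 0) (nat_lit 0)) T0.l5
  (TrL.c (I.pos (nat_lit 0) (nat_lit 89480386)) (xR T5.l6 T5.l6)
  (TrL.c (I.pos (nat_lit 0) (nat_lit 41530880)) T0.l6
  (TrL.c (I.pos (nat_lit 0) (nat_lit 0)) T0.l9
  (TrL.c (I.pos (nat_lit 0) (nat_lit 0)) T5.l7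
  (TrL.c (I.mix (nat_lit 41527258) (nat_lit 41530880)) T0.l7
  (TrL.c (I.mix (nat_lit 41527258) (nat_lit 4274)) T5.l8
  TrL.n)))))))) (by decide +kernel)
theorem bx3_6 : BoxOK sI cl6 cl7 cl5 t5 t0 b3_6 :=
  box_mk (TrL.c (I.pos (nat_lit 0) (nat_lit 0)) T5.l0
  (TrL.c (I.pos (nat_lit 0) (nat_lit 0)) T0.l5
  (TrL.c (I.pos (nat_lit 0) (nat_lit 89480386)) T5.l6
  (TrL.c (I.pos (nat_lit 0) (nat_lit 41530880)) T0.l6
  (TrL.c (I.pos (nat_lit 0) (nat_lit 0)) T0.l9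
  (TrL.c (I.pos (nat_lit 0) (nat_lit 0)) T5.l7
  (TrL.c (I.mix (nat_lit 41527258) (nat_lit 41530880)) T0.l7
  (TrL.c (I.mix (nat_lit 41527258) (nat_lit 4274)) T5.l8
  TrL.n)))))))) (by decide +kernel)
theorem bx3_7 : BoxOK sI cl6 cl7 cl5 t5 t0 b3_7 :=
  box_mk (TrL.c (I.pos (nat_lit 0) (nat_lit 0)) T5.l0
  (TrL.c (I.pos (nat_lit 0) (nat_lit 0)) T0.l5
  (TrL.c (I.pos (nat_lit 0) (nat_lit 89480386)) T5.l6
  (TrL.c (I.pos (nat_lit 0) (nat_lit 41530880)) T0.l6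
  (TrL.c (I.pos (nat_lit 0) (nat_lit 0)) T0.l9
  (TrL.c (I.pos (nat_lit 0) (nat_lit 0)) T5.l7
  (TrL.c (I.mix (nat_lit 41527258) (nat_lit 41530880)) T0.l7
  (TrL.c (I.mix (nat_lit 41527258) (nat_lit 4274)) T5.l8
  TrL.n)))))))) (by decide +kernel)
theorem bx3_8 : BoxOK sI cl6 cl7 cl5 t5 t0 b3_8 :=
  box_mk (TrL.c (I.pos (nat_lit 0) (nat_lit 0)) T5.l0
  (TrL.c (I.pos (nat_lit 0) (nat_lit 0)) T0.l5
  (TrL.c (I.pos (nat_lit 0) (nat_lit 89480386)) (xR T5.l6 T5.l6)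
  (TrL.c (I.pos (nat_lit 0) (nat_lit 41530880)) T0.l6
  (TrL.c (I.pos (nat_lit 0) (nat_lit 0)) T0.l9
  (TrL.c (I.pos (nat_lit 0) (nat_lit 0)) T5.l7
  (TrL.c (I.mix (nat_lit 41527258) (nat_lit 41530880)) T0.l7
  (TrL.c (I.mix (nat_lit 41527258) (nat_lit 4274)) T5.l8
  TrL.n)))))))) (by decide +kernel)
theorem bx3_9 : BoxOK sI cl6 cl7 cl5 t5 t0 b3_9 :=
  box_mk (TrL.c (I.pos (nat_lit 0) (nat_lit 0)) (xa T5.l0 T5.l0)
  (TrL.c (I.pos (nat_lit 0) (nat_lit 0)) T0.l5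
  (TrL.c (I.pos (nat_lit 0) (nat_lit 89480386)) T5.l6
  (TrL.c (I.pos (nat_lit 0) (nat_lit 41530880)) T0.l6
  (TrL.c (I.pos (nat_lit 0) (nat_lit 0)) T0.l9
  (TrL.c (I.pos (nat_lit 0) (nat_lit 0)) T5.l7
  (TrL.c (I.mix (nat_lit 41527258) (nat_lit 41530880)) T0.l7
  (TrL.c (I.mix (nat_lit 41527258) (nat_lit 4274)) T5.l8
  TrL.n)))))))) (by decide +kernel)
theorem sv3 : StarV sI cl6 cl7 cl5 t5 t0 t3 :=
  (bt_n (bt_n (bt_n (bt_b bx3_0) (bt_b bx3_1)) (bt_n (bt_b bx3_2) (bt_n (bt_b bx3_3) (bt_b bx3_4)))) (bt_n (bt_n (bt_b bx3_5) (bt_b bx3_6)) (bt_n (bt_b bx3_7) (bt_n (bt_b bx3_8) (bt_b bx3_9)))))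
def S3 : StarD := StarD.mk cl6 cl7 cl5 5 0 t3
theorem bx4_0 : BoxOK sI cl7 cl5 cl6 t1 t3 b4_0 :=
  box_mk (TrL.c (I.pos (nat_lit 0) (nat_lit 0)) (xa (xb T1.l0 T1.l0) (xa T1.l0 T1.l0))
  (TrL.c (I.pos (nat_lit 0) (nat_lit 0)) (xa T3.l1 T3.l8)
  (TrL.c (I.pos (nat_lit 0) (nat_lit 111196574)) (xR T1.l1 T1.l1)
  (TrL.c (I.pos (nat_lit 0) (nat_lit 77433728)) (xR T3.l2 T3.l2)
  (TrL.c (I.pos (nat_lit 0) (nat_lit 0)) (xa (xb (xa T3.l3 T3.l3) T3.l3) (xb (xa (xk T3.l3 T3.l3) (xk T3.l3 T3.l3)) (xk (xa T3.l3 (xs T3.l3 T3.l3)) (xa T3.l3 (xs T3.l3 (xb T3.l3 T3.l3))))))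
  (TrL.c (I.pos (nat_lit 0) (nat_lit 0)) (xa T1.l2 T1.l2)
  (TrL.c (I.mix (nat_lit 29511666) (nat_lit 77433728)) (xR T3.l4 T3.l4)
  (TrL.c (I.mix (nat_lit 29511666) (nat_lit 46070178)) (xR T1.l3 T1.l7)
  TrL.n)))))))) (by decide +kernel)
theorem bx4_1 : BoxOK sI cl7 cl5 cl6 t1 t3 b4_1 :=
  box_mk (TrL.c (I.pos (nat_lit 0) (nat_lit 0)) T1.l0
  (TrL.c (I.pos (nat_lit 0) (nat_lit 0)) T3.l1
  (TrL.c (I.pos (nat_lit 0) (nat_lit 111196574)) T1.l1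
  (TrL.c (I.pos (nat_lit 0) (nat_lit 77433728)) T3.l2
  (TrL.c (I.pos (nat_lit 0) (nat_lit 0)) T3.l3
  (TrL.c (I.pos (nat_lit 0) (nat_lit 0)) T1.l2
  (TrL.c (I.mix (nat_lit 29511666) (nat_lit 77433728)) T3.l4
  (TrL.c (I.mix (nat_lit 29511666) (nat_lit 46070178)) T1.l3
  TrL.n)))))))) (by decide +kernel)
theorem bx4_2 : BoxOK sI cl7 cl5 cl6 t1 t3 b4_2 :=
  box_mk (TrL.c (I.pos (nat_lit 0) (nat_lit 0)) T3.l1
  (TrL.c (I.pos (nat_lit 0) (nat_lit 0)) T1.l1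
  (TrL.c (I.mix (nat_lit 29511666) (nat_lit 77433728)) (xR T3.l4 T3.l2)
  (TrL.c (I.mix (nat_lit 29511666) (nat_lit 46070178)) T1.l9
  TrL.n)))) (by decide +kernel)
theorem bx4_3 : BoxOK sI cl7 cl5 cl6 t1 t3 b4_3 :=
  box_mk (TrL.c (I.pos (nat_lit 0) (nat_lit 0)) (xb T1.l0 (xa T1.l0 T1.l0))
  (TrL.c (I.pos (nat_lit 0) (nat_lit 0)) T3.l1
  (TrL.c (I.pos (nat_lit 0) (nat_lit 111196574)) (xR T1.l1 T1.l1)
  (TrL.c (I.pos (nat_lit 0) (nat_lit 77433728)) (xR T3.l2 T3.l2)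
  (TrL.c (I.pos (nat_lit 0) (nat_lit 0)) (xb T3.l3 T3.l3)
  (TrL.c (I.pos (nat_lit 0) (nat_lit 0)) T1.l2
  (TrL.c (I.mix (nat_lit 29511666) (nat_lit 77433728)) T3.l4
  (TrL.c (I.mix (nat_lit 29511666) (nat_lit 46070178)) T1.l3
  TrL.n)))))))) (by decide +kernel)
theorem bx4_4 : BoxOK sI cl7 cl5 cl6 t1 t3 b4_4 :=
  box_mk (TrL.c (I.pos (nat_lit 0) (nat_lit 0)) T1.l0
  (TrL.c (I.pos (nat_lit 0) (nat_lit 0)) T3.l1
  (TrL.c (I.pos (nat_lit 0) (nat_lit 111196574)) T1.l1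
  (TrL.c (I.pos (nat_lit 0) (nat_lit 77433728)) T3.l2
  (TrL.c (I.pos (nat_lit 0) (nat_lit 0)) T3.l3
  (TrL.c (I.pos (nat_lit 0) (nat_lit 0)) T1.l2
  (TrL.c (I.mix (nat_lit 29511666) (nat_lit 77433728)) T3.l4
  (TrL.c (I.mix (nat_lit 29511666) (nat_lit 46070178)) T1.l3
  TrL.n)))))))) (by decide +kernel)
theorem bx4_5 : BoxOK sI cl7 cl5 cl6 t1 t3 b4_5 :=
  box_mk (TrL.c (I.pos (nat_lit 0) (nat_lit 0)) T1.l0
  (TrL.c (I.pos (nat_lit 0) (nat_lit 0)) T3.l1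
  (TrL.c (I.pos (nat_lit 0) (nat_lit 111196574)) T1.l1
  (TrL.c (I.pos (nat_lit 0) (nat_lit 77433728)) T3.l2
  (TrL.c (I.pos (nat_lit 0) (nat_lit 0)) T3.l3
  (TrL.c (I.pos (nat_lit 0) (nat_lit 0)) T1.l2
  (TrL.c (I.mix (nat_lit 29511666) (nat_lit 77433728)) T3.l4
  (TrL.c (I.mix (nat_lit 29511666) (nat_lit 46070178)) T1.l3
  TrL.n)))))))) (by decide +kernel)
theorem bx4_6 : BoxOK sI cl7 cl5 cl6 t1 t3 b4_6 :=
  box_mk (TrL.c (I.pos (nat_lit 0) (nat_lit 0)) T1.l0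
  (TrL.c (I.pos (nat_lit 0) (nat_lit 0)) T3.l1
  (TrL.c (I.pos (nat_lit 0) (nat_lit 111196574)) T1.l1
  (TrL.c (I.pos (nat_lit 0) (nat_lit 77433728)) T3.l2
  (TrL.c (I.pos (nat_lit 0) (nat_lit 0)) T3.l3
  (TrL.c (I.pos (nat_lit 0) (nat_lit 0)) T1.l2
  (TrL.c (I.mix (nat_lit 29511666) (nat_lit 77433728)) T3.l4
  (TrL.c (I.mix (nat_lit 29511666) (nat_lit 46070178)) T1.l3
  TrL.n)))))))) (by decide +kernel)
theorem bx4_7 : BoxOK sI cl7 cl5 cl6 t1 t3 b4_7 :=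
  box_mk (TrL.c (I.pos (nat_lit 0) (nat_lit 0)) T3.l1
  (TrL.c (I.pos (nat_lit 0) (nat_lit 0)) T1.l1
  (TrL.c (I.mix (nat_lit 29511666) (nat_lit 77433728)) (xR T3.l4 T3.l2)
  (TrL.c (I.mix (nat_lit 29511666) (nat_lit 46070178)) T1.l9
  TrL.n)))) (by decide +kernel)
theorem sv4 : StarV sI cl7 cl5 cl6 t1 t3 t4 :=
  (bt_n (bt_n (bt_n (bt_b bx4_0) (bt_b bx4_1)) (bt_n (bt_b bx4_2) (bt_b bx4_3))) (bt_n (bt_n (bt_b bx4_4) (bt_b bx4_5)) (bt_n (bt_b bx4_6) (bt_b bx4_7))))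
def S4 : StarD := StarD.mk cl7 cl5 cl6 1 3 t4
theorem bx5_0 : BoxOK sI cl7 cl6 cl5 t3 t1 b5_0 :=
  box_mk (TrL.c (I.pos (nat_lit 0) (nat_lit 0)) (xa (xb T3.l0 T3.l0) (xa T3.l0 (xb T3.l3 T3.l3)))
  (TrL.c (I.pos (nat_lit 0) (nat_lit 0)) (xa T1.l6 (xb T1.l6 T1.l6))
  (TrL.c (I.pos (nat_lit 0) (nat_lit 111196574)) (xR T3.l4 T3.l7)
  (TrL.c (I.pos (nat_lit 0) (nat_lit 77433728)) (xR T1.l7 T1.l7)
  (TrL.c (I.pos (nat_lit 0) (nat_lit 0)) (xa (xb (xa T1.l8 T1.l8) T1.l8) (xb (xa T1.l8 (xk T1.l8 T1.l8)) (xk (xa T1.l8 (xs T1.l8 T1.l8)) (xa T1.l8 (xs T1.l8 (xb T1.l8 T1.l8))))))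
  (TrL.c (I.pos (nat_lit 0) (nat_lit 0)) (xa T3.l8 T3.l8)
  (TrL.c (I.mix (nat_lit 29511666) (nat_lit 77433728)) (xR T1.l9 T1.l9)
  (TrL.c (I.mix (nat_lit 29511666) (nat_lit 46070178)) (xR T3.l2 T3.l9)
  TrL.n)))))))) (by decide +kernel)
theorem bx5_1 : BoxOK sI cl7 cl6 cl5 t3 t1 b5_1 :=
  box_mk (TrL.c (I.pos (nat_lit 0) (nat_lit 0)) T3.l0
  (TrL.c (I.pos (nat_lit 0) (nat_lit 0)) T1.l6
  (TrL.c (I.pos (nat_lit 0) (nat_lit 111196574)) T3.l7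
  (TrL.c (I.pos (nat_lit 0) (nat_lit 77433728)) T1.l7
  (TrL.c (I.pos (nat_lit 0) (nat_lit 0)) T1.l8
  (TrL.c (I.pos (nat_lit 0) (nat_lit 0)) T3.l8
  (TrL.c (I.mix (nat_lit 29511666) (nat_lit 77433728)) T1.l9
  (TrL.c (I.mix (nat_lit 29511666) (nat_lit 46070178)) T3.l9
  TrL.n)))))))) (by decide +kernel)
theorem bx5_2 : BoxOK sI cl7 cl6 cl5 t3 t1 b5_2 :=
  box_mk (TrL.c (I.pos (nat_lit 0) (nat_lit 0)) T3.l0
  (TrL.c (I.pos (nat_lit 0) (nat_lit 0)) T1.l6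
  (TrL.c (I.pos (nat_lit 0) (nat_lit 111196574)) T3.l7
  (TrL.c (I.pos (nat_lit 0) (nat_lit 77433728)) T1.l7
  (TrL.c (I.pos (nat_lit 0) (nat_lit 0)) T1.l8
  (TrL.c (I.pos (nat_lit 0) (nat_lit 0)) T3.l8
  (TrL.c (I.mix (nat_lit 29511666) (nat_lit 77433728)) T1.l9
  (TrL.c (I.mix (nat_lit 29511666) (nat_lit 46070178)) T3.l9
  TrL.n)))))))) (by decide +kernel)
theorem bx5_3 : BoxOK sI cl7 cl6 cl5 t3 t1 b5_3 :=
  box_mk (TrL.c (I.pos (nat_lit 0) (nat_lit 0)) (xb T3.l0 T3.l0)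
  (TrL.c (I.pos (nat_lit 0) (nat_lit 0)) T1.l6
  (TrL.c (I.pos (nat_lit 0) (nat_lit 111196574)) (xR T3.l7 T3.l7)
  (TrL.c (I.pos (nat_lit 0) (nat_lit 77433728)) (xR T1.l7 T1.l7)
  (TrL.c (I.pos (nat_lit 0) (nat_lit 0)) T1.l8
  (TrL.c (I.pos (nat_lit 0) (nat_lit 0)) T3.l8
  (TrL.c (I.mix (nat_lit 29511666) (nat_lit 77433728)) (xR T1.l9 T1.l9)
  (TrL.c (I.mix (nat_lit 29511666) (nat_lit 46070178)) T3.l9
  TrL.n)))))))) (by decide +kernel)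
theorem bx5_4 : BoxOK sI cl7 cl6 cl5 t3 t1 b5_4 :=
  box_mk (TrL.c (I.pos (nat_lit 0) (nat_lit 0)) T3.l0
  (TrL.c (I.pos (nat_lit 0) (nat_lit 0)) T1.l6
  (TrL.c (I.pos (nat_lit 0) (nat_lit 111196574)) T3.l7
  (TrL.c (I.pos (nat_lit 0) (nat_lit 77433728)) T1.l7
  (TrL.c (I.pos (nat_lit 0) (nat_lit 0)) T1.l8
  (TrL.c (I.pos (nat_lit 0) (nat_lit 0)) T3.l8
  (TrL.c (I.mix (nat_lit 29511666) (nat_lit 77433728)) T1.l9
  (TrL.c (I.mix (nat_lit 29511666) (nat_lit 46070178)) T3.l9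
  TrL.n)))))))) (by decide +kernel)
theorem bx5_5 : BoxOK sI cl7 cl6 cl5 t3 t1 b5_5 :=
  box_mk (TrL.c (I.pos (nat_lit 0) (nat_lit 0)) T3.l0
  (TrL.c (I.pos (nat_lit 0) (nat_lit 0)) T1.l6
  (TrL.c (I.pos (nat_lit 0) (nat_lit 111196574)) T3.l7
  (TrL.c (I.pos (nat_lit 0) (nat_lit 77433728)) T1.l9
  (TrL.c (I.pos (nat_lit 0) (nat_lit 0)) T1.l8
  (TrL.c (I.pos (nat_lit 0) (nat_lit 0)) T3.l8
  (TrL.c (I.mix (nat_lit 29511666) (nat_lit 77433728)) T1.l9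
  (TrL.c (I.mix (nat_lit 29511666) (nat_lit 46070178)) T3.l9
  TrL.n)))))))) (by decide +kernel)
theorem bx5_6 : BoxOK sI cl7 cl6 cl5 t3 t1 b5_6 :=
  box_mk (TrL.c (I.pos (nat_lit 0) (nat_lit 0)) T3.l0
  (TrL.c (I.pos (nat_lit 0) (nat_lit 0)) T1.l6
  (TrL.c (I.pos (nat_lit 0) (nat_lit 111196574)) T3.l7
  (TrL.c (I.pos (nat_lit 0) (nat_lit 77433728)) T1.l7
  (TrL.c (I.pos (nat_lit 0) (nat_lit 0)) T1.l8
  (TrL.c (I.pos (nat_lit 0) (nat_lit 0)) T3.l8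
  (TrL.c (I.mix (nat_lit 29511666) (nat_lit 77433728)) T1.l9
  (TrL.c (I.mix (nat_lit 29511666) (nat_lit 46070178)) T3.l9
  TrL.n)))))))) (by decide +kernel)
theorem bx5_7 : BoxOK sI cl7 cl6 cl5 t3 t1 b5_7 :=
  box_mk (TrL.c (I.pos (nat_lit 0) (nat_lit 0)) T3.l0
  (TrL.c (I.pos (nat_lit 0) (nat_lit 0)) T1.l6
  (TrL.c (I.pos (nat_lit 0) (nat_lit 111196574)) T3.l7
  (TrL.c (I.pos (nat_lit 0) (nat_lit 77433728)) T1.l7
  (TrL.c (I.pos (nat_lit 0) (nat_lit 0)) T1.l8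
  (TrL.c (I.pos (nat_lit 0) (nat_lit 0)) T3.l8
  (TrL.c (I.mix (nat_lit 29511666) (nat_lit 77433728)) T1.l9
  (TrL.c (I.mix (nat_lit 29511666) (nat_lit 46070178)) T3.l9
  TrL.n)))))))) (by decide +kernel)
theorem bx5_8 : BoxOK sI cl7 cl6 cl5 t3 t1 b5_8 :=
  box_mk (TrL.c (I.pos (nat_lit 0) (nat_lit 0)) T3.l0
  (TrL.c (I.pos (nat_lit 0) (nat_lit 0)) T1.l8
  (TrL.c (I.pos (nat_lit 0) (nat_lit 111196574)) T3.l7
  (TrL.c (I.pos (nat_lit 0) (nat_lit 77433728)) T1.l9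
  (TrL.c (I.pos (nat_lit 0) (nat_lit 0)) T1.l8
  (TrL.c (I.pos (nat_lit 0) (nat_lit 0)) T3.l8
  (TrL.c (I.mix (nat_lit 29511666) (nat_lit 77433728)) T1.l9
  (TrL.c (I.mix (nat_lit 29511666) (nat_lit 46070178)) T3.l9
  TrL.n)))))))) (by decide +kernel)
theorem bx5_9 : BoxOK sI cl7 cl6 cl5 t3 t1 b5_9 :=
  box_mk (TrL.c (I.pos (nat_lit 0) (nat_lit 0)) T3.l0
  (TrL.c (I.pos (nat_lit 0) (nat_lit 0)) T1.l6
  (TrL.c (I.pos (nat_lit 0) (nat_lit 111196574)) T3.l7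
  (TrL.c (I.pos (nat_lit 0) (nat_lit 77433728)) T1.l7
  (TrL.c (I.pos (nat_lit 0) (nat_lit 0)) T1.l8
  (TrL.c (I.pos (nat_lit 0) (nat_lit 0)) T3.l8
  (TrL.c (I.mix (nat_lit 29511666) (nat_lit 77433728)) T1.l9
  (TrL.c (I.mix (nat_lit 29511666) (nat_lit 46070178)) T3.l9
  TrL.n)))))))) (by decide +kernel)
theorem sv5 : StarV sI cl7 cl6 cl5 t3 t1 t5 :=
  (bt_n (bt_n (bt_n (bt_b bx5_0) (bt_b bx5_1)) (bt_n (bt_b bx5_2) (bt_n (bt_b bx5_3) (bt_b bx5_4)))) (bt_n (bt_n (bt_b bx5_5) (bt_b bx5_6)) (bt_n (bt_b bx5_7) (bt_n (bt_b bx5_8) (bt_b bx5_9)))))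
def S5 : StarD := StarD.mk cl7 cl6 cl5 3 1 t5
def G : List StarD := [S0, S1, S2, S3, S4, S5]
theorem so0 : StarOK sI G S0 :=
  star_mk (by decide) (by decide) rfl rfl rfl rfl rfl rfl (rfl : _ = t2) (rfl : _ = t4)
  (st_mk (Pth.l (Pth.l (Pth.l Pth.z))) (nat_lit 189388656) (nat_lit 190703319) (by decide +kernel))
  (st_mk (Pth.l (Pth.l (Pth.l Pth.z))) (nat_lit 225661943) (nat_lit 227542495) (by decide +kernel))
  (st_mk (Pth.l (Pth.l (Pth.l Pth.z))) (nat_lit 267830130) (nat_lit 270505564) (by decide +kernel)) sv0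
theorem so1 : StarOK sI G S1 :=
  star_mk (by decide) (by decide) rfl rfl rfl rfl rfl rfl (rfl : _ = t4) (rfl : _ = t2)
  (st_mk (Pth.l (Pth.l (Pth.l Pth.z))) (nat_lit 142209613) (nat_lit 165224110) (by decide +kernel))
  (st_mk (Pth.l (Pth.l (Pth.l Pth.z))) (nat_lit 178348882) (nat_lit 201948986) (by decide +kernel))
  (st_mk (Pth.l (Pth.l (Pth.l Pth.z))) (nat_lit 220407371) (nat_lit 244817932) (by decide +kernel)) sv1
theorem so2 : StarOK sI G S2 :=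
  star_mk (by decide) (by decide) rfl rfl rfl rfl rfl rfl (rfl : _ = t0) (rfl : _ = t5)
  (st_mk (Pth.l (Pth.l (Pth.l Pth.z))) (nat_lit 241701764) (nat_lit 243041557) (by decide +kernel))
  (st_mk (Pth.l (Pth.l (Pth.l Pth.z))) (nat_lit 277677276) (nat_lit 279452789) (by decide +kernel))
  (st_mk (Pth.l (Pth.l (Pth.l Pth.z))) (nat_lit 319380314) (nat_lit 321742223) (by decide +kernel)) sv2
theorem so3 : StarOK sI G S3 :=
  star_mk (by decide) (by decide) rfl rfl rfl rfl rfl rfl (rfl : _ = t5) (rfl : _ = t0)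
  (st_mk (Pth.l (Pth.l (Pth.l Pth.z))) (nat_lit 141592358) (nat_lit 164204965) (by decide +kernel))
  (st_mk (Pth.l (Pth.l (Pth.l Pth.z))) (nat_lit 177379846) (nat_lit 200405609) (by decide +kernel))
  (st_mk (Pth.l (Pth.l (Pth.l Pth.z))) (nat_lit 218925993) (nat_lit 242518646) (by decide +kernel)) sv3
theorem so4 : StarOK sI G S4 :=
  star_mk (by decide) (by decide) rfl rfl rfl rfl rfl rfl (rfl : _ = t1) (rfl : _ = t3)
  (st_mk (Pth.l (Pth.l (Pth.l Pth.z))) (nat_lit 240042427) (nat_lit 242141996) (by decide +kernel))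
  (st_mk (Pth.l (Pth.l (Pth.l Pth.z))) (nat_lit 275567625) (nat_lit 278170924) (by decide +kernel))
  (st_mk (Pth.l (Pth.l (Pth.l Pth.z))) (nat_lit 316668146) (nat_lit 319945664) (by decide +kernel)) sv4
theorem so5 : StarOK sI G S5 :=
  star_mk (by decide) (by decide) rfl rfl rfl rfl rfl rfl (rfl : _ = t3) (rfl : _ = t1)
  (st_mk (Pth.l (Pth.l (Pth.l Pth.z))) (nat_lit 187231514) (nat_lit 188866018) (by decide +kernel))
  (st_mk (Pth.l (Pth.l (Pth.l Pth.z))) (nat_lit 222703176) (nat_lit 224798487) (by decide +kernel))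
  (st_mk (Pth.l (Pth.l (Pth.l Pth.z))) (nat_lit 263758146) (nat_lit 266491570) (by decide +kernel)) sv5
theorem ok : GroupOK (nat_lit 0) (nat_lit 91291648) G := grp_mk (allS_c so0 (allS_c so1 (allS_c so2 (allS_c so3 (allS_c so4 (allS_c so5 allS_n))))))
theorem cov : GCov G cl5 cl6 cl7 := cov_mk
  ⟨0, by decide, rfl, rfl, rfl⟩ ⟨1, by decide, rfl, rfl, rfl⟩ ⟨2, by decide, rfl, rfl, rfl⟩ ⟨3, by decide, rfl, rfl, rfl⟩ ⟨4, by decide, rfl, rfl, rfl⟩ ⟨5, by decide, rfl, rfl, rfl⟩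
end Q234_0

namespace Q234_1
def sI : I := I.pos (nat_lit 91226112) (nat_lit 150339584)
def b0_0 : Bx := Bx.mk (St.mk (I.pos (nat_lit 159563776) (nat_lit 268533760)) (I.mix (nat_lit 8323072) (nat_lit 64913408)) (I.mix (nat_lit 62013440) (nat_lit 86310912)) (I.pos (nat_lit 189743104) (nat_lit 371212288)) (I.mix (nat_lit 117194752) (nat_lit 76447744)) (I.mix (nat_lit 92454912) (nat_lit 63881216)) (I.mix (nat_lit 146456576) (nat_lit 101220352)))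
  false (nat_lit 0)
def b0_1 : Bx := Bx.mk (St.mk (I.mix (nat_lit 27688960) (nat_lit 93601792)) (I.mix (nat_lit 2736128) (nat_lit 40534016)) (I.mix (nat_lit 19349504) (nat_lit 9306112)) (I.pos (nat_lit 81920000) (nat_lit 123469824)) (I.mix (nat_lit 38830080) (nat_lit 41140224)) (I.mix (nat_lit 39682048) (nat_lit 29917184)) (I.mix (nat_lit 26017792) (nat_lit 17055744)))
  false (nat_lit 0)
def b0_2 : Bx := Bx.mk (St.mk (I.pos (nat_lit 82804736) (nat_lit 122109952)) (I.mix (nat_lit 61325312) (nat_lit 3063808)) (I.neg (nat_lit 12763136) (nat_lit 61571072)) (I.pos (nat_lit 115277824) (nat_lit 146112512)) (I.mix (nat_lit 96321536) (nat_lit 34258944)) (I.mix (nat_lit 50167808) (nat_lit 86523904)) (I.mix (nat_lit 35471360) (nat_lit 60817408)))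
  false (nat_lit 0)
def b0_3 : Bx := Bx.mk (St.mk (I.mix (nat_lit 45432832) (nat_lit 27574272)) (I.mix (nat_lit 35045376) (nat_lit 2228224)) (I.neg (nat_lit 1261568) (nat_lit 15613952)) (I.pos (nat_lit 82526208) (nat_lit 101072896)) (I.mix (nat_lit 36126720) (nat_lit 25182208)) (I.mix (nat_lit 23511040) (nat_lit 31801344)) (I.mix (nat_lit 11878400) (nat_lit 8699904)))
  false (nat_lit 0)
def b0_4 : Bx := Bx.mk (St.mk (I.mix (nat_lit 48103424) (nat_lit 5898240)) (I.mix (nat_lit 3096576) (nat_lit 12894208)) (I.neg (nat_lit 10436608) (nat_lit 17989632)) (I.pos (nat_lit 88637440) (nat_lit 99270656)) (I.mix (nat_lit 9109504) (nat_lit 15876096)) (I.mix (nat_lit 10485760) (nat_lit 9273344)) (I.mix (nat_lit 3604480) (nat_lit 4489216)))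
  false (nat_lit 0)
def b0_5 : Bx := Bx.mk (St.mk (I.pos (nat_lit 80396288) (nat_lit 161333248)) (I.neg (nat_lit 3096576) (nat_lit 67944448)) (I.neg (nat_lit 7159808) (nat_lit 68927488)) (I.pos (nat_lit 124239872) (nat_lit 189825024)) (I.mix (nat_lit 102694912) (nat_lit 52199424)) (I.mix (nat_lit 47759360) (nat_lit 76611584)) (I.mix (nat_lit 35356672) (nat_lit 67436544)))
  false (nat_lit 0)
def b0_6 : Bx := Bx.mk (St.mk (I.mix (nat_lit 35799040) (nat_lit 46759936)) (I.mix (nat_lit 35028992) (nat_lit 6471680)) (I.neg (nat_lit 2703360) (nat_lit 18677760)) (I.pos (nat_lit 81395712) (nat_lit 101629952)) (I.mix (nat_lit 38141952) (nat_lit 32653312)) (I.mix (nat_lit 26165248) (nat_lit 37339136)) (I.mix (nat_lit 12632064) (nat_lit 14188544)))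
  false (nat_lit 0)
def b0_7 : Bx := Bx.mk (St.mk (I.mix (nat_lit 46759936) (nat_lit 91357184)) (I.mix (nat_lit 10633216) (nat_lit 37224448)) (I.mix (nat_lit 18677760) (nat_lit 9601024)) (I.pos (nat_lit 81395712) (nat_lit 114360320)) (I.mix (nat_lit 39010304) (nat_lit 38223872)) (I.mix (nat_lit 41271296) (nat_lit 26607616)) (I.mix (nat_lit 15466496) (nat_lit 14188544)))
  false (nat_lit 0)
def b0_8 : Bx := Bx.mk (St.mk (I.pos (nat_lit 82903040) (nat_lit 92733440)) (I.mix (nat_lit 2834432) (nat_lit 9748480)) (I.neg (nat_lit 8650752) (nat_lit 19038208)) (I.pos (nat_lit 115539968) (nat_lit 123011072)) (I.mix (nat_lit 7258112) (nat_lit 11927552)) (I.mix (nat_lit 6832128) (nat_lit 4538368)) (I.mix (nat_lit 5390336) (nat_lit 3457024)))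
  false (nat_lit 0)
def b0_9 : Bx := Bx.mk (St.mk (I.pos (nat_lit 134643712) (nat_lit 214810624)) (I.mix (nat_lit 39944192) (nat_lit 66797568)) (I.mix (nat_lit 45711360) (nat_lit 83558400)) (I.pos (nat_lit 164806656) (nat_lit 261177344)) (I.mix (nat_lit 138313728) (nat_lit 65372160)) (I.mix (nat_lit 140066816) (nat_lit 89587712)) (I.mix (nat_lit 137773056) (nat_lit 87818240)))
  false (nat_lit 0)
def t0 : BTr := (BTr.n (BTr.n (BTr.n (BTr.b b0_0) (BTr.b b0_1)) (BTr.n (BTr.b b0_2) (BTr.n (BTr.b b0_3) (BTr.b b0_4)))) (BTr.n (BTr.n (BTr.b b0_5) (BTr.b b0_6)) (BTr.n (BTr.b b0_7) (BTr.n (BTr.b b0_8) (BTr.b b0_9)))))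
namespace T0
def l0 : Tr := Tr.L (Pth.l (Pth.l (Pth.l Pth.z)))
def l1 : Tr := Tr.L (Pth.l (Pth.l (Pth.r Pth.z)))
def l2 : Tr := Tr.L (Pth.l (Pth.r (Pth.l Pth.z)))
def l3 : Tr := Tr.L (Pth.l (Pth.r (Pth.r (Pth.l Pth.z))))
def l4 : Tr := Tr.L (Pth.l (Pth.r (Pth.r (Pth.r Pth.z))))
def l5 : Tr := Tr.L (Pth.r (Pth.l (Pth.l Pth.z)))
def l6 : Tr := Tr.L (Pth.r (Pth.l (Pth.r Pth.z)))
def l7 : Tr := Tr.L (Pth.r (Pth.r (Pth.l Pth.z)))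
def l8 : Tr := Tr.L (Pth.r (Pth.r (Pth.r (Pth.l Pth.z))))
def l9 : Tr := Tr.L (Pth.r (Pth.r (Pth.r (Pth.r Pth.z))))
end T0
def b1_0 : Bx := Bx.mk (St.mk (I.pos (nat_lit 160514048) (nat_lit 267288576)) (I.mix (nat_lit 8814592) (nat_lit 58392576)) (I.mix (nat_lit 42319872) (nat_lit 88752128)) (I.pos (nat_lit 144850944) (nat_lit 343277568)) (I.mix (nat_lit 111034368) (nat_lit 73220096)) (I.mix (nat_lit 90259456) (nat_lit 62144512)) (I.mix (nat_lit 143409152) (nat_lit 95977472)))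
  false (nat_lit 0)
def b1_1 : Bx := Bx.mk (St.mk (I.mix (nat_lit 19087360) (nat_lit 114262016)) (I.mix (nat_lit 2572288) (nat_lit 36880384)) (I.mix (nat_lit 11943936) (nat_lit 19365888)) (I.pos (nat_lit 43057152) (nat_lit 113065984)) (I.mix (nat_lit 43991040) (nat_lit 33062912)) (I.mix (nat_lit 35602432) (nat_lit 28557312)) (I.mix (nat_lit 25133056) (nat_lit 19316736)))
  false (nat_lit 0)
def b1_2 : Bx := Bx.mk (St.mk (I.pos (nat_lit 95535104) (nat_lit 145391616)) (I.mix (nat_lit 64028672) (nat_lit 3604480)) (I.neg (nat_lit 3899392) (nat_lit 64733184)) (I.pos (nat_lit 81313792) (nat_lit 142180352)) (I.mix (nat_lit 106921984) (nat_lit 41172992)) (I.mix (nat_lit 57982976) (nat_lit 102973440)) (I.mix (nat_lit 41549824) (nat_lit 76152832)))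
  false (nat_lit 0)
def b1_3 : Bx := Bx.mk (St.mk (I.mix (nat_lit 30900224) (nat_lit 66945024)) (I.mix (nat_lit 30998528) (nat_lit 1785856)) (I.mix (nat_lit 18579456) (nat_lit 458752)) (I.pos (nat_lit 43008000) (nat_lit 81051648)) (I.mix (nat_lit 36601856) (nat_lit 17924096)) (I.mix (nat_lit 20152320) (nat_lit 30867456)) (I.mix (nat_lit 9355264) (nat_lit 12730368)))
  false (nat_lit 0)
def b1_4 : Bx := Bx.mk (St.mk (I.pos (nat_lit 96141312) (nat_lit 114638848)) (I.mix (nat_lit 3702784) (nat_lit 9732096)) (I.neg (nat_lit 638976) (nat_lit 13058048)) (I.pos (nat_lit 81674240) (nat_lit 113475584)) (I.mix (nat_lit 8044544) (nat_lit 13221888)) (I.mix (nat_lit 8044544) (nat_lit 4014080)) (I.mix (nat_lit 6897664) (nat_lit 2768896)))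
  false (nat_lit 0)
def b1_5 : Bx := Bx.mk (St.mk (I.mix (nat_lit 35012608) (nat_lit 13647872)) (I.mix (nat_lit 180224) (nat_lit 8454144)) (I.neg (nat_lit 2801664) (nat_lit 7782400)) (I.pos (nat_lit 45088768) (nat_lit 68485120)) (I.mix (nat_lit 4505600) (nat_lit 10223616)) (I.mix (nat_lit 5160960) (nat_lit 4227072)) (I.mix (nat_lit 1409024) (nat_lit 1474560)))
  false (nat_lit 0)
def b1_6 : Bx := Bx.mk (St.mk (I.pos (nat_lit 84983808) (nat_lit 175095808)) (I.mix (nat_lit 71811072) (nat_lit 6275072)) (I.neg (nat_lit 2588672) (nat_lit 72581120)) (I.pos (nat_lit 93044736) (nat_lit 180797440)) (I.mix (nat_lit 108707840) (nat_lit 54919168)) (I.mix (nat_lit 57556992) (nat_lit 86769664)) (I.mix (nat_lit 41893888) (nat_lit 74301440)))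
  false (nat_lit 0)
def b1_7 : Bx := Bx.mk (St.mk (I.mix (nat_lit 24150016) (nat_lit 82853888)) (I.mix (nat_lit 34357248) (nat_lit 3620864)) (I.mix (nat_lit 22659072) (nat_lit 737280)) (I.pos (nat_lit 41271296) (nat_lit 89800704)) (I.mix (nat_lit 40566784) (nat_lit 29835264)) (I.mix (nat_lit 24903680) (nat_lit 34619392)) (I.mix (nat_lit 14417920) (nat_lit 18972672)))
  false (nat_lit 0)
def b1_8 : Bx := Bx.mk (St.mk (I.pos (nat_lit 139329536) (nat_lit 214827008)) (I.mix (nat_lit 40501248) (nat_lit 62586880)) (I.mix (nat_lit 44040192) (nat_lit 89980928)) (I.pos (nat_lit 127172608) (nat_lit 239943680)) (I.mix (nat_lit 144556032) (nat_lit 69337088)) (I.mix (nat_lit 150781952) (nat_lit 91226112)) (I.mix (nat_lit 165707776) (nat_lit 96305152)))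
  false (nat_lit 0)
def b1_9 : Bx := Bx.mk (St.mk (I.mix (nat_lit 34357248) (nat_lit 106315776)) (I.mix (nat_lit 12255232) (nat_lit 37519360)) (I.mix (nat_lit 9617408) (nat_lit 21659648)) (I.pos (nat_lit 42631168) (nat_lit 105758720)) (I.mix (nat_lit 52903936) (nat_lit 30392320)) (I.mix (nat_lit 48873472) (nat_lit 35143680)) (I.mix (nat_lit 26804224) (nat_lit 20447232)))
  false (nat_lit 0)
def t1 : BTr := (BTr.n (BTr.n (BTr.n (BTr.b b1_0) (BTr.b b1_1)) (BTr.n (BTr.b b1_2) (BTr.n (BTr.b b1_3) (BTr.b b1_4)))) (BTr.n (BTr.n (BTr.b b1_5) (BTr.b b1_6)) (BTr.n (BTr.b b1_7) (BTr.n (BTr.b b1_8) (BTr.b b1_9)))))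
namespace T1
def l0 : Tr := Tr.L (Pth.l (Pth.l (Pth.l Pth.z)))
def l1 : Tr := Tr.L (Pth.l (Pth.l (Pth.r Pth.z)))
def l2 : Tr := Tr.L (Pth.l (Pth.r (Pth.l Pth.z)))
def l3 : Tr := Tr.L (Pth.l (Pth.r (Pth.r (Pth.l Pth.z))))
def l4 : Tr := Tr.L (Pth.l (Pth.r (Pth.r (Pth.r Pth.z))))
def l5 : Tr := Tr.L (Pth.r (Pth.l (Pth.l Pth.z)))
def l6 : Tr := Tr.L (Pth.r (Pth.l (Pth.r Pth.z)))
def l7 : Tr := Tr.L (Pth.r (Pth.r (Pth.l Pth.z)))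
def l8 : Tr := Tr.L (Pth.r (Pth.r (Pth.r (Pth.l Pth.z))))
def l9 : Tr := Tr.L (Pth.r (Pth.r (Pth.r (Pth.r Pth.z))))
end T1
def b2_0 : Bx := Bx.mk (St.mk (I.pos (nat_lit 153976832) (nat_lit 284311552)) (I.mix (nat_lit 31866880) (nat_lit 73744384)) (I.mix (nat_lit 122863616) (nat_lit 93798400)) (I.pos (nat_lit 242073600) (nat_lit 454000640)) (I.mix (nat_lit 114032640) (nat_lit 88375296)) (I.mix (nat_lit 102072320) (nat_lit 71811072)) (I.mix (nat_lit 156549120) (nat_lit 108199936)))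
  false (nat_lit 27029151)
def b2_1 : Bx := Bx.mk (St.mk (I.pos (nat_lit 23183360) (nat_lit 73859072)) (I.mix (nat_lit 9863168) (nat_lit 52068352)) (I.mix (nat_lit 27656192) (nat_lit 2375680)) (I.pos (nat_lit 143425536) (nat_lit 163741696)) (I.mix (nat_lit 36438016) (nat_lit 51560448)) (I.mix (nat_lit 46940160) (nat_lit 30900224)) (I.mix (nat_lit 25477120) (nat_lit 14893056)))
  false (nat_lit 0)
def b2_2 : Bx := Bx.mk (St.mk (I.pos (nat_lit 50692096) (nat_lit 101711872)) (I.mix (nat_lit 69320704) (nat_lit 10502144)) (I.neg (nat_lit 13680640) (nat_lit 62160896)) (I.pos (nat_lit 150896640) (nat_lit 184107008)) (I.mix (nat_lit 90193920) (nat_lit 39075840)) (I.mix (nat_lit 42614784) (nat_lit 78954496)) (I.mix (nat_lit 32604160) (nat_lit 48447488)))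
  false (nat_lit 0)
def b2_3 : Bx := Bx.mk (St.mk (I.neg (nat_lit 23183360) (nat_lit 73859072)) (I.mix (nat_lit 52068352) (nat_lit 12500992)) (I.mix (nat_lit 28475392) (nat_lit 2375680)) (I.pos (nat_lit 143425536) (nat_lit 163741696)) (I.mix (nat_lit 51560448) (nat_lit 36438016)) (I.mix (nat_lit 30900224) (nat_lit 46940160)) (I.mix (nat_lit 25477120) (nat_lit 14893056)))
  true (nat_lit 0)
def b2_4 : Bx := Bx.mk (St.mk (I.pos (nat_lit 67125248) (nat_lit 153206784)) (I.neg (nat_lit 5652480) (nat_lit 75563008)) (I.neg (nat_lit 2621440) (nat_lit 70778880)) (I.pos (nat_lit 164265984) (nat_lit 232226816)) (I.mix (nat_lit 96436224) (nat_lit 64864256)) (I.mix (nat_lit 52133888) (nat_lit 88719360)) (I.mix (nat_lit 47857664) (nat_lit 75481088)))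
  false (nat_lit 0)
def b2_5 : Bx := Bx.mk (St.mk (I.mix (nat_lit 37142528) (nat_lit 9306112)) (I.mix (nat_lit 44662784) (nat_lit 8454144)) (I.neg (nat_lit 229376) (nat_lit 6914048)) (I.pos (nat_lit 141737984) (nat_lit 152092672)) (I.mix (nat_lit 34914304) (nat_lit 42156032)) (I.mix (nat_lit 26951680) (nat_lit 44580864)) (I.mix (nat_lit 6373376) (nat_lit 5521408)))
  true (nat_lit 0)
def b2_6 : Bx := Bx.mk (St.mk (I.pos (nat_lit 121585664) (nat_lit 201768960)) (I.mix (nat_lit 40878080) (nat_lit 70828032)) (I.mix (nat_lit 38813696) (nat_lit 91308032)) (I.pos (nat_lit 200474624) (nat_lit 298270720)) (I.mix (nat_lit 138903552) (nat_lit 79659008)) (I.mix (nat_lit 146571264) (nat_lit 83165184)) (I.mix (nat_lit 145522688) (nat_lit 81936384)))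
  false (nat_lit 0)
def b2_7 : Bx := Bx.mk (St.mk (I.mix (nat_lit 9306112) (nat_lit 37142528)) (I.mix (nat_lit 8454144) (nat_lit 44662784)) (I.neg (nat_lit 229376) (nat_lit 6914048)) (I.pos (nat_lit 141737984) (nat_lit 152092672)) (I.mix (nat_lit 42156032) (nat_lit 34914304)) (I.mix (nat_lit 44580864) (nat_lit 26951680)) (I.mix (nat_lit 6373376) (nat_lit 5521408)))
  false (nat_lit 0)
def t2 : BTr := (BTr.n (BTr.n (BTr.n (BTr.b b2_0) (BTr.b b2_1)) (BTr.n (BTr.b b2_2) (BTr.b b2_3))) (BTr.n (BTr.n (BTr.b b2_4) (BTr.b b2_5)) (BTr.n (BTr.b b2_6) (BTr.b b2_7))))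
namespace T2
def l0 : Tr := Tr.L (Pth.l (Pth.l (Pth.l Pth.z)))
def l1 : Tr := Tr.L (Pth.l (Pth.l (Pth.r Pth.z)))
def l2 : Tr := Tr.L (Pth.l (Pth.r (Pth.l Pth.z)))
def l3 : Tr := Tr.L (Pth.l (Pth.r (Pth.r Pth.z)))
def l4 : Tr := Tr.L (Pth.r (Pth.l (Pth.l Pth.z)))
def l5 : Tr := Tr.L (Pth.r (Pth.l (Pth.r Pth.z)))
def l6 : Tr := Tr.L (Pth.r (Pth.r (Pth.l Pth.z)))
def l7 : Tr := Tr.L (Pth.r (Pth.r (Pth.r Pth.z)))
end T2
def b3_0 : Bx := Bx.mk (St.mk (I.pos (nat_lit 159924224) (nat_lit 281722880)) (I.mix (nat_lit 28508160) (nat_lit 55885824)) (I.mix (nat_lit 63373312) (nat_lit 100974592)) (I.pos (nat_lit 144015360) (nat_lit 369623040)) (I.mix (nat_lit 113475584) (nat_lit 80691200)) (I.mix (nat_lit 97304576) (nat_lit 74760192)) (I.mix (nat_lit 155009024) (nat_lit 97157120)))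
  false (nat_lit 6200862)
def b3_1 : Bx := Bx.mk (St.mk (I.pos (nat_lit 90669056) (nat_lit 169050112)) (I.mix (nat_lit 72531968) (nat_lit 2555904)) (I.mix (nat_lit 65011712) (nat_lit 16384)) (I.pos (nat_lit 96796672) (nat_lit 173670400)) (I.mix (nat_lit 104185856) (nat_lit 51249152)) (I.mix (nat_lit 52510720) (nat_lit 80117760)) (I.mix (nat_lit 41861120) (nat_lit 65929216)))
  false (nat_lit 3749323)
def b3_2 : Bx := Bx.mk (St.mk (I.mix (nat_lit 21725184) (nat_lit 81166336)) (I.mix (nat_lit 34570240) (nat_lit 1212416)) (I.mix (nat_lit 16531456) (nat_lit 5111808)) (I.pos (nat_lit 41877504) (nat_lit 88670208)) (I.mix (nat_lit 36110336) (nat_lit 27181056)) (I.mix (nat_lit 24084480) (nat_lit 29458432)) (I.mix (nat_lit 13303808) (nat_lit 15630336)))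
  false (nat_lit 0)
def b3_3 : Bx := Bx.mk (St.mk (I.pos (nat_lit 149356544) (nat_lit 212353024)) (I.mix (nat_lit 34488320) (nat_lit 61915136)) (I.mix (nat_lit 21872640) (nat_lit 102973440)) (I.pos (nat_lit 135151616) (nat_lit 232882176)) (I.mix (nat_lit 148750336) (nat_lit 62128128)) (I.mix (nat_lit 156647424) (nat_lit 90783744)) (I.mix (nat_lit 174391296) (nat_lit 92372992)))
  false (nat_lit 4951300)
def b3_4 : Bx := Bx.mk (St.mk (I.mix (nat_lit 32407552) (nat_lit 104087552)) (I.mix (nat_lit 8372224) (nat_lit 38076416)) (I.mix (nat_lit 4669440) (nat_lit 29065216)) (I.pos (nat_lit 42942464) (nat_lit 104480768)) (I.mix (nat_lit 56754176) (nat_lit 28524544)) (I.mix (nat_lit 52199424) (nat_lit 35143680)) (I.mix (nat_lit 29327360) (nat_lit 21168128)))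
  false (nat_lit 0)
def b3_5 : Bx := Bx.mk (St.mk (I.pos (nat_lit 148766720) (nat_lit 170278912)) (I.neg (nat_lit 13107200) (nat_lit 39813120)) (I.neg (nat_lit 376832) (nat_lit 30703616)) (I.pos (nat_lit 134397952) (nat_lit 174850048)) (I.mix (nat_lit 20365312) (nat_lit 17121280)) (I.mix (nat_lit 11468800) (nat_lit 12894208)) (I.mix (nat_lit 11436032) (nat_lit 13336576)))
  false (nat_lit 0)
def b3_6 : Bx := Bx.mk (St.mk (I.mix (nat_lit 35258368) (nat_lit 101564416)) (I.mix (nat_lit 12648448) (nat_lit 4014080)) (I.mix (nat_lit 4161536) (nat_lit 5701632)) (I.pos (nat_lit 44843008) (nat_lit 92143616)) (I.mix (nat_lit 8044544) (nat_lit 11681792)) (I.mix (nat_lit 6504448) (nat_lit 8601600)) (I.mix (nat_lit 3162112) (nat_lit 4849664)))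
  false (nat_lit 0)
def b3_7 : Bx := Bx.mk (St.mk (I.mix (nat_lit 15286272) (nat_lit 117915648)) (I.mix (nat_lit 9273344) (nat_lit 35848192)) (I.mix (nat_lit 9977856) (nat_lit 27443200)) (I.pos (nat_lit 42074112) (nat_lit 115720192)) (I.mix (nat_lit 47497216) (nat_lit 35176448)) (I.mix (nat_lit 39747584) (nat_lit 28934144)) (I.mix (nat_lit 28950528) (nat_lit 20578304)))
  false (nat_lit 0)
def b3_8 : Bx := Bx.mk (St.mk (I.pos (nat_lit 93241344) (nat_lit 148897792)) (I.mix (nat_lit 64618496) (nat_lit 7831552)) (I.mix (nat_lit 55574528) (nat_lit 5439488)) (I.pos (nat_lit 80216064) (nat_lit 145276928)) (I.mix (nat_lit 102596608) (nat_lit 41467904)) (I.mix (nat_lit 57819136) (nat_lit 97157120)) (I.mix (nat_lit 42090496) (nat_lit 70074368)))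
  false (nat_lit 0)
def b3_9 : Bx := Bx.mk (St.mk (I.mix (nat_lit 35962880) (nat_lit 68550656)) (I.mix (nat_lit 30818304) (nat_lit 5586944)) (I.mix (nat_lit 12861440) (nat_lit 5177344)) (I.pos (nat_lit 42893312) (nat_lit 81592320)) (I.mix (nat_lit 34684928) (nat_lit 20709376)) (I.mix (nat_lit 21725184) (nat_lit 31490048)) (I.mix (nat_lit 9977856) (nat_lit 11894784)))
  false (nat_lit 0)
def t3 : BTr := (BTr.n (BTr.n (BTr.n (BTr.b b3_0) (BTr.b b3_1)) (BTr.n (BTr.b b3_2) (BTr.n (BTr.b b3_3) (BTr.b b3_4)))) (BTr.n (BTr.n (BTr.b b3_5) (BTr.b b3_6)) (BTr.n (BTr.b b3_7) (BTr.n (BTr.b b3_8) (BTr.b b3_9)))))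
namespace T3
def l0 : Tr := Tr.L (Pth.l (Pth.l (Pth.l Pth.z)))
def l1 : Tr := Tr.L (Pth.l (Pth.l (Pth.r Pth.z)))
def l2 : Tr := Tr.L (Pth.l (Pth.r (Pth.l Pth.z)))
def l3 : Tr := Tr.L (Pth.l (Pth.r (Pth.r (Pth.l Pth.z))))
def l4 : Tr := Tr.L (Pth.l (Pth.r (Pth.r (Pth.r Pth.z))))
def l5 : Tr := Tr.L (Pth.r (Pth.l (Pth.l Pth.z)))
def l6 : Tr := Tr.L (Pth.r (Pth.l (Pth.r Pth.z)))
def l7 : Tr := Tr.L (Pth.r (Pth.r (Pth.l Pth.z)))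
def l8 : Tr := Tr.L (Pth.r (Pth.r (Pth.r (Pth.l Pth.z))))
def l9 : Tr := Tr.L (Pth.r (Pth.r (Pth.r (Pth.r Pth.z))))
end T3
def b4_0 : Bx := Bx.mk (St.mk (I.pos (nat_lit 148226048) (nat_lit 286572544)) (I.mix (nat_lit 26984448) (nat_lit 68485120)) (I.mix (nat_lit 86622208) (nat_lit 105185280)) (I.pos (nat_lit 240173056) (nat_lit 450805760)) (I.mix (nat_lit 117948416) (nat_lit 96124928)) (I.mix (nat_lit 115965952) (nat_lit 77463552)) (I.mix (nat_lit 173883392) (nat_lit 115916800)))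
  false (nat_lit 55225288)
def b4_1 : Bx := Bx.mk (St.mk (I.pos (nat_lit 72220672) (nat_lit 154320896)) (I.neg (nat_lit 6242304) (nat_lit 76152832)) (I.mix (nat_lit 61259776) (nat_lit 7438336)) (I.pos (nat_lit 168181760) (nat_lit 232669184)) (I.mix (nat_lit 90161152) (nat_lit 60669952)) (I.mix (nat_lit 48283648) (nat_lit 76513280)) (I.mix (nat_lit 43319296) (nat_lit 64765952)))
  false (nat_lit 0)
def b4_2 : Bx := Bx.mk (St.mk (I.mix (nat_lit 34209792) (nat_lit 9568256)) (I.mix (nat_lit 45219840) (nat_lit 8552448)) (I.pos (nat_lit 1097728) (nat_lit 7585792)) (I.pos (nat_lit 141688832) (nat_lit 150945792)) (I.mix (nat_lit 29229056) (nat_lit 41959424)) (I.mix (nat_lit 25182208) (nat_lit 40255488)) (I.mix (nat_lit 5701632) (nat_lit 6062080)))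
  true (nat_lit 0)
def b4_3 : Bx := Bx.mk (St.mk (I.pos (nat_lit 122503168) (nat_lit 198262784)) (I.mix (nat_lit 39059456) (nat_lit 68468736)) (I.mix (nat_lit 24150016) (nat_lit 103301120)) (I.pos (nat_lit 201834496) (nat_lit 291291136)) (I.mix (nat_lit 139198464) (nat_lit 64798720)) (I.mix (nat_lit 138559488) (nat_lit 71761920)) (I.mix (nat_lit 142770176) (nat_lit 78004224)))
  false (nat_lit 11156958)
def b4_4 : Bx := Bx.mk (St.mk (I.mix (nat_lit 9551872) (nat_lit 34209792)) (I.mix (nat_lit 10240000) (nat_lit 45219840)) (I.pos (nat_lit 1097728) (nat_lit 7585792)) (I.pos (nat_lit 141688832) (nat_lit 150945792)) (I.mix (nat_lit 41959424) (nat_lit 29229056)) (I.mix (nat_lit 40255488) (nat_lit 25182208)) (I.mix (nat_lit 5701632) (nat_lit 6062080)))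
  false (nat_lit 0)
def b4_5 : Bx := Bx.mk (St.mk (I.pos (nat_lit 19496960) (nat_lit 73940992)) (I.mix (nat_lit 10027008) (nat_lit 51642368)) (I.mix (nat_lit 18644992) (nat_lit 10797056)) (I.pos (nat_lit 142508032) (nat_lit 163168256)) (I.mix (nat_lit 42582016) (nat_lit 50462720)) (I.mix (nat_lit 51265536) (nat_lit 33079296)) (I.mix (nat_lit 26787840) (nat_lit 17317888)))
  false (nat_lit 0)
def b4_6 : Bx := Bx.mk (St.mk (I.pos (nat_lit 52051968) (nat_lit 105381888)) (I.mix (nat_lit 70713344) (nat_lit 10190848)) (I.neg (nat_lit 5980160) (nat_lit 53690368)) (I.pos (nat_lit 151322624) (nat_lit 187056128)) (I.mix (nat_lit 85032960) (nat_lit 44695552)) (I.mix (nat_lit 45989888) (nat_lit 84606976)) (I.mix (nat_lit 32735232) (nat_lit 49364992)))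
  false (nat_lit 0)
def b4_7 : Bx := Bx.mk (St.mk (I.neg (nat_lit 19480576) (nat_lit 73940992)) (I.mix (nat_lit 51642368) (nat_lit 10027008)) (I.mix (nat_lit 18644992) (nat_lit 10797056)) (I.pos (nat_lit 142508032) (nat_lit 163184640)) (I.mix (nat_lit 50462720) (nat_lit 42582016)) (I.mix (nat_lit 33079296) (nat_lit 51265536)) (I.mix (nat_lit 26787840) (nat_lit 17317888)))
  true (nat_lit 0)
def t4 : BTr := (BTr.n (BTr.n (BTr.n (BTr.b b4_0) (BTr.b b4_1)) (BTr.n (BTr.b b4_2) (BTr.b b4_3))) (BTr.n (BTr.n (BTr.b b4_4) (BTr.b b4_5)) (BTr.n (BTr.b b4_6) (BTr.b b4_7))))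
namespace T4
def l0 : Tr := Tr.L (Pth.l (Pth.l (Pth.l Pth.z)))
def l1 : Tr := Tr.L (Pth.l (Pth.l (Pth.r Pth.z)))
def l2 : Tr := Tr.L (Pth.l (Pth.r (Pth.l Pth.z)))
def l3 : Tr := Tr.L (Pth.l (Pth.r (Pth.r Pth.z)))
def l4 : Tr := Tr.L (Pth.r (Pth.l (Pth.l Pth.z)))
def l5 : Tr := Tr.L (Pth.r (Pth.l (Pth.r Pth.z)))
def l6 : Tr := Tr.L (Pth.r (Pth.r (Pth.l Pth.z)))
def l7 : Tr := Tr.L (Pth.r (Pth.r (Pth.r Pth.z)))
end T4
def b5_0 : Bx := Bx.mk (St.mk (I.pos (nat_lit 153845760) (nat_lit 282968064)) (I.mix (nat_lit 26345472) (nat_lit 61292544)) (I.mix (nat_lit 57442304) (nat_lit 108707840)) (I.pos (nat_lit 187154432) (nat_lit 393527296)) (I.mix (nat_lit 117571584) (nat_lit 88850432)) (I.mix (nat_lit 108789760) (nat_lit 79970304)) (I.mix (nat_lit 167690240) (nat_lit 101384192)))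
  false (nat_lit 38204268)
def b5_1 : Bx := Bx.mk (St.mk (I.pos (nat_lit 90423296) (nat_lit 154943488)) (I.neg (nat_lit 10059776) (nat_lit 70320128)) (I.mix (nat_lit 53788672) (nat_lit 3112960)) (I.pos (nat_lit 130154496) (nat_lit 181731328)) (I.mix (nat_lit 91340800) (nat_lit 47628288)) (I.mix (nat_lit 43925504) (nat_lit 66846720)) (I.mix (nat_lit 35028992) (nat_lit 55132160)))
  false (nat_lit 0)
def b5_2 : Bx := Bx.mk (St.mk (I.mix (nat_lit 28557312) (nat_lit 43171840)) (I.mix (nat_lit 35684352) (nat_lit 2146304)) (I.mix (nat_lit 5865472) (nat_lit 8011776)) (I.pos (nat_lit 82722816) (nat_lit 100745216)) (I.mix (nat_lit 28508160) (nat_lit 31932416)) (I.mix (nat_lit 23904256) (nat_lit 29835264)) (I.mix (nat_lit 8978432) (nat_lit 10731520)))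
  false (nat_lit 0)
def b5_3 : Bx := Bx.mk (St.mk (I.pos (nat_lit 144457728) (nat_lit 204816384)) (I.mix (nat_lit 31113216) (nat_lit 65306624)) (I.mix (nat_lit 10338304) (nat_lit 108134400)) (I.pos (nat_lit 171180032) (nat_lit 246284288)) (I.mix (nat_lit 150405120) (nat_lit 67649536)) (I.mix (nat_lit 150552576) (nat_lit 87425024)) (I.mix (nat_lit 154845184) (nat_lit 81313792)))
  false (nat_lit 24841975)
def b5_4 : Bx := Bx.mk (St.mk (I.mix (nat_lit 45481984) (nat_lit 68861952)) (I.mix (nat_lit 5406720) (nat_lit 38076416)) (I.mix (nat_lit 6094848) (nat_lit 20627456)) (I.pos (nat_lit 82706432) (nat_lit 109248512)) (I.mix (nat_lit 42401792) (nat_lit 28524544)) (I.mix (nat_lit 35684352) (nat_lit 24461312)) (I.mix (nat_lit 13860864) (nat_lit 11370496)))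
  false (nat_lit 0)
def b5_5 : Bx := Bx.mk (St.mk (I.mix (nat_lit 49414144) (nat_lit 52592640)) (I.mix (nat_lit 11272192) (nat_lit 5898240)) (I.pos (nat_lit 2064384) (nat_lit 10747904)) (I.pos (nat_lit 88555520) (nat_lit 99745792)) (I.mix (nat_lit 9584640) (nat_lit 14434304)) (I.mix (nat_lit 8912896) (nat_lit 9469952)) (I.mix (nat_lit 3522560) (nat_lit 3260416)))
  false (nat_lit 0)
def b5_6 : Bx := Bx.mk (St.mk (I.mix (nat_lit 24395776) (nat_lit 95977472)) (I.mix (nat_lit 8683520) (nat_lit 38158336)) (I.mix (nat_lit 8028160) (nat_lit 23986176)) (I.pos (nat_lit 84066304) (nat_lit 125009920)) (I.mix (nat_lit 47759360) (nat_lit 37945344)) (I.mix (nat_lit 43614208) (nat_lit 29638656)) (I.mix (nat_lit 27623424) (nat_lit 19808256)))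
  false (nat_lit 0)
def b5_7 : Bx := Bx.mk (St.mk (I.pos (nat_lit 80068608) (nat_lit 128811008)) (I.mix (nat_lit 63258624) (nat_lit 8994816)) (I.mix (nat_lit 45744128) (nat_lit 5242880)) (I.pos (nat_lit 114688000) (nat_lit 151879680)) (I.mix (nat_lit 86376448) (nat_lit 37634048)) (I.mix (nat_lit 54034432) (nat_lit 77512704)) (I.mix (nat_lit 37879808) (nat_lit 50413568)))
  false (nat_lit 0)
def b5_8 : Bx := Bx.mk (St.mk (I.mix (nat_lit 46776320) (nat_lit 33701888)) (I.mix (nat_lit 34422784) (nat_lit 6799360)) (I.mix (nat_lit 4161536) (nat_lit 10502144)) (I.pos (nat_lit 82165760) (nat_lit 101138432)) (I.mix (nat_lit 33423360) (nat_lit 32997376)) (I.mix (nat_lit 25083904) (nat_lit 35127296)) (I.mix (nat_lit 12976128) (nat_lit 10813440)))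
  false (nat_lit 0)
def b5_9 : Bx := Bx.mk (St.mk (I.pos (nat_lit 142802944) (nat_lit 158842880)) (I.neg (nat_lit 17137664) (nat_lit 36470784)) (I.mix (nat_lit 18956288) (nat_lit 2785280)) (I.pos (nat_lit 170442752) (nat_lit 185794560)) (I.mix (nat_lit 24068096) (nat_lit 19070976)) (I.mix (nat_lit 15024128) (nat_lit 17383424)) (I.mix (nat_lit 15007744) (nat_lit 17809408)))
  false (nat_lit 0)
def t5 : BTr := (BTr.n (BTr.n (BTr.n (BTr.b b5_0) (BTr.b b5_1)) (BTr.n (BTr.b b5_2) (BTr.n (BTr.b b5_3) (BTr.b b5_4)))) (BTr.n (BTr.n (BTr.b b5_5) (BTr.b b5_6)) (BTr.n (BTr.b b5_7) (BTr.n (BTr.b b5_8) (BTr.b b5_9)))))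
namespace T5
def l0 : Tr := Tr.L (Pth.l (Pth.l (Pth.l Pth.z)))
def l1 : Tr := Tr.L (Pth.l (Pth.l (Pth.r Pth.z)))
def l2 : Tr := Tr.L (Pth.l (Pth.r (Pth.l Pth.z)))
def l3 : Tr := Tr.L (Pth.l (Pth.r (Pth.r (Pth.l Pth.z))))
def l4 : Tr := Tr.L (Pth.l (Pth.r (Pth.r (Pth.r Pth.z))))
def l5 : Tr := Tr.L (Pth.r (Pth.l (Pth.l Pth.z)))
def l6 : Tr := Tr.L (Pth.r (Pth.l (Pth.r Pth.z)))
def l7 : Tr := Tr.L (Pth.r (Pth.r (Pth.l Pth.z)))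
def l8 : Tr := Tr.L (Pth.r (Pth.r (Pth.r (Pth.l Pth.z))))
def l9 : Tr := Tr.L (Pth.r (Pth.r (Pth.r (Pth.r Pth.z))))
end T5
theorem bx0_0 : BoxOK sI cl5 cl6 cl7 t2 t4 b0_0 :=
  box_mk (TrL.c (I.pos (nat_lit 0) (nat_lit 0)) (xa (xb T2.l0 (xa T2.l0 T2.l0)) (xa (xb T2.l0 T2.l0) (xb T2.l0 T2.l0)))
  (TrL.c (I.pos (nat_lit 0) (nat_lit 0)) T4.l1
  (TrL.c (I.pos (nat_lit 0) (nat_lit 0)) T2.l1
  (TrL.c (I.pos (nat_lit 0) (nat_lit 0)) T4.l2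
  (TrL.c (I.pos (nat_lit 0) (nat_lit 0)) (xa T4.l3 (xb (xa T4.l3 T4.l3) (xa T4.l3 T4.l3)))
  (TrL.c (I.pos (nat_lit 0) (nat_lit 0)) T2.l2
  (TrL.c (I.pos (nat_lit 0) (nat_lit 0)) T4.l4
  (TrL.c (I.pos (nat_lit 0) (nat_lit 0)) T2.l3
  TrL.n)))))))) (by decide +kernel)
theorem bx0_1 : BoxOK sI cl5 cl6 cl7 t2 t4 b0_1 :=
  box_mk (TrL.c (I.pos (nat_lit 0) (nat_lit 0)) T2.l0
  (TrL.c (I.pos (nat_lit 0) (nat_lit 0)) T4.l1
  (TrL.c (I.pos (nat_lit 0) (nat_lit 0)) T2.l1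
  (TrL.c (I.pos (nat_lit 0) (nat_lit 0)) T4.l2
  (TrL.c (I.pos (nat_lit 0) (nat_lit 0)) T4.l3
  (TrL.c (I.pos (nat_lit 0) (nat_lit 0)) T2.l2
  (TrL.c (I.pos (nat_lit 0) (nat_lit 0)) T4.l4
  (TrL.c (I.pos (nat_lit 0) (nat_lit 0)) T2.l3
  TrL.n)))))))) (by decide +kernel)
theorem bx0_2 : BoxOK sI cl5 cl6 cl7 t2 t4 b0_2 :=
  box_mk (TrL.c (I.pos (nat_lit 0) (nat_lit 0)) T2.l0
  (TrL.c (I.pos (nat_lit 0) (nat_lit 0)) T4.l1
  (TrL.c (I.pos (nat_lit 0) (nat_lit 0)) T2.l1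
  (TrL.c (I.pos (nat_lit 0) (nat_lit 0)) T4.l2
  (TrL.c (I.pos (nat_lit 0) (nat_lit 0)) T4.l3
  (TrL.c (I.pos (nat_lit 0) (nat_lit 0)) T2.l2
  (TrL.c (I.pos (nat_lit 0) (nat_lit 0)) T4.l4
  (TrL.c (I.pos (nat_lit 0) (nat_lit 0)) T2.l3
  TrL.n)))))))) (by decide +kernel)
theorem bx0_3 : BoxOK sI cl5 cl6 cl7 t2 t4 b0_3 :=
  box_mk (TrL.c (I.pos (nat_lit 0) (nat_lit 0)) (xa (xb (xa T2.l0 T2.l0) T2.l0) T2.l0)
  (TrL.c (I.pos (nat_lit 0) (nat_lit 0)) T4.l3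
  (TrL.c (I.pos (nat_lit 0) (nat_lit 0)) T2.l2
  (TrL.c (I.pos (nat_lit 0) (nat_lit 0)) T4.l4
  (TrL.c (I.pos (nat_lit 0) (nat_lit 0)) T4.l1
  (TrL.c (I.pos (nat_lit 0) (nat_lit 0)) T2.l1
  (TrL.c (I.pos (nat_lit 0) (nat_lit 0)) T4.l4
  (TrL.c (I.pos (nat_lit 0) (nat_lit 0)) T2.l3
  TrL.n)))))))) (by decide +kernel)
theorem bx0_4 : BoxOK sI cl5 cl6 cl7 t2 t4 b0_4 :=
  box_mk (TrL.c (I.pos (nat_lit 0) (nat_lit 0)) T2.l0
  (TrL.c (I.pos (nat_lit 0) (nat_lit 0)) T4.l1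
  (TrL.c (I.pos (nat_lit 0) (nat_lit 0)) T2.l1
  (TrL.c (I.pos (nat_lit 0) (nat_lit 0)) T4.l2
  (TrL.c (I.pos (nat_lit 0) (nat_lit 0)) T4.l3
  (TrL.c (I.pos (nat_lit 0) (nat_lit 0)) T2.l2
  (TrL.c (I.pos (nat_lit 0) (nat_lit 0)) T4.l4
  (TrL.c (I.pos (nat_lit 0) (nat_lit 0)) T2.l3
  TrL.n)))))))) (by decide +kernel)
theorem bx0_5 : BoxOK sI cl5 cl6 cl7 t2 t4 b0_5 :=
  box_mk (TrL.c (I.pos (nat_lit 0) (nat_lit 0)) T2.l0
  (TrL.c (I.pos (nat_lit 0) (nat_lit 0)) T4.l1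
  (TrL.c (I.pos (nat_lit 0) (nat_lit 0)) T2.l1
  (TrL.c (I.pos (nat_lit 0) (nat_lit 0)) T4.l2
  (TrL.c (I.pos (nat_lit 0) (nat_lit 0)) T4.l3
  (TrL.c (I.pos (nat_lit 0) (nat_lit 0)) T2.l2
  (TrL.c (I.pos (nat_lit 0) (nat_lit 0)) T4.l4
  (TrL.c (I.pos (nat_lit 0) (nat_lit 0)) T2.l3
  TrL.n)))))))) (by decide +kernel)
theorem bx0_6 : BoxOK sI cl5 cl6 cl7 t2 t4 b0_6 :=
  box_mk (TrL.c (I.pos (nat_lit 0) (nat_lit 0)) T2.l0
  (TrL.c (I.pos (nat_lit 0) (nat_lit 0)) T4.l3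
  (TrL.c (I.pos (nat_lit 0) (nat_lit 0)) T2.l2
  (TrL.c (I.pos (nat_lit 0) (nat_lit 0)) T4.l2
  (TrL.c (I.pos (nat_lit 0) (nat_lit 0)) T4.l1
  (TrL.c (I.pos (nat_lit 0) (nat_lit 0)) T2.l1
  (TrL.c (I.pos (nat_lit 0) (nat_lit 0)) T4.l4
  (TrL.c (I.pos (nat_lit 0) (nat_lit 0)) T2.l3
  TrL.n)))))))) (by decide +kernel)
theorem bx0_7 : BoxOK sI cl5 cl6 cl7 t2 t4 b0_7 :=
  box_mk (TrL.c (I.pos (nat_lit 0) (nat_lit 0)) (xa (xa (xb T2.l0 (xa T2.l0 T2.l0)) T2.l0) T2.l0)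
  (TrL.c (I.pos (nat_lit 0) (nat_lit 0)) T4.l1
  (TrL.c (I.pos (nat_lit 0) (nat_lit 0)) T2.l1
  (TrL.c (I.pos (nat_lit 0) (nat_lit 0)) T4.l2
  (TrL.c (I.pos (nat_lit 0) (nat_lit 0)) T4.l3
  (TrL.c (I.pos (nat_lit 0) (nat_lit 0)) T2.l2
  (TrL.c (I.pos (nat_lit 0) (nat_lit 0)) T4.l4
  (TrL.c (I.pos (nat_lit 0) (nat_lit 0)) T2.l3
  TrL.n)))))))) (by decide +kernel)
theorem bx0_8 : BoxOK sI cl5 cl6 cl7 t2 t4 b0_8 :=
  box_mk (TrL.c (I.pos (nat_lit 0) (nat_lit 0)) T2.l0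
  (TrL.c (I.pos (nat_lit 0) (nat_lit 0)) T4.l1
  (TrL.c (I.pos (nat_lit 0) (nat_lit 0)) T2.l1
  (TrL.c (I.pos (nat_lit 0) (nat_lit 0)) T4.l2
  (TrL.c (I.pos (nat_lit 0) (nat_lit 0)) T4.l3
  (TrL.c (I.pos (nat_lit 0) (nat_lit 0)) T2.l2
  (TrL.c (I.pos (nat_lit 0) (nat_lit 0)) T4.l4
  (TrL.c (I.pos (nat_lit 0) (nat_lit 0)) T2.l3
  TrL.n)))))))) (by decide +kernel)
theorem bx0_9 : BoxOK sI cl5 cl6 cl7 t2 t4 b0_9 :=
  box_mk (TrL.c (I.pos (nat_lit 0) (nat_lit 0)) (xb (xa T2.l0 T2.l0) (xa (xb T2.l0 T2.l0) (xb T2.l0 T2.l0)))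
  (TrL.c (I.pos (nat_lit 0) (nat_lit 0)) T4.l1
  (TrL.c (I.pos (nat_lit 0) (nat_lit 0)) T2.l1
  (TrL.c (I.pos (nat_lit 0) (nat_lit 0)) T4.l2
  (TrL.c (I.pos (nat_lit 0) (nat_lit 0)) (xb (xa T4.l3 T4.l3) T4.l3)
  (TrL.c (I.pos (nat_lit 0) (nat_lit 0)) T2.l2
  (TrL.c (I.pos (nat_lit 0) (nat_lit 0)) T4.l4
  (TrL.c (I.pos (nat_lit 0) (nat_lit 0)) T2.l3
  TrL.n)))))))) (by decide +kernel)
theorem sv0 : StarV sI cl5 cl6 cl7 t2 t4 t0 :=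
  (bt_n (bt_n (bt_n (bt_b bx0_0) (bt_b bx0_1)) (bt_n (bt_b bx0_2) (bt_n (bt_b bx0_3) (bt_b bx0_4)))) (bt_n (bt_n (bt_b bx0_5) (bt_b bx0_6)) (bt_n (bt_b bx0_7) (bt_n (bt_b bx0_8) (bt_b bx0_9)))))
def S0 : StarD := StarD.mk cl5 cl6 cl7 2 4 t0
theorem bx1_0 : BoxOK sI cl5 cl7 cl6 t4 t2 b1_0 :=
  box_mk (TrL.c (I.pos (nat_lit 0) (nat_lit 0)) (xa (xa (xb T4.l0 T4.l0) (xb T4.l0 T4.l0)) (xa (xb T4.l0 T4.l0) (xb T4.l0 T4.l0)))
  (TrL.c (I.pos (nat_lit 0) (nat_lit 0)) T2.l4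
  (TrL.c (I.pos (nat_lit 0) (nat_lit 0)) T4.l5
  (TrL.c (I.pos (nat_lit 0) (nat_lit 0)) T2.l5
  (TrL.c (I.pos (nat_lit 0) (nat_lit 0)) (xa T2.l6 (xb T2.l6 T2.l6))
  (TrL.c (I.pos (nat_lit 0) (nat_lit 0)) T4.l6
  (TrL.c (I.pos (nat_lit 0) (nat_lit 0)) T2.l7
  (TrL.c (I.pos (nat_lit 0) (nat_lit 0)) T4.l7
  TrL.n)))))))) (by decide +kernel)
theorem bx1_1 : BoxOK sI cl5 cl7 cl6 t4 t2 b1_1 :=
  box_mk (TrL.c (I.pos (nat_lit 0) (nat_lit 0)) (xa T4.l0 T4.l0)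
  (TrL.c (I.pos (nat_lit 0) (nat_lit 0)) T2.l4
  (TrL.c (I.pos (nat_lit 0) (nat_lit 0)) T4.l5
  (TrL.c (I.pos (nat_lit 0) (nat_lit 0)) T2.l5
  (TrL.c (I.pos (nat_lit 0) (nat_lit 0)) T2.l6
  (TrL.c (I.pos (nat_lit 0) (nat_lit 0)) T4.l6
  (TrL.c (I.pos (nat_lit 0) (nat_lit 0)) T2.l7
  (TrL.c (I.pos (nat_lit 0) (nat_lit 0)) T4.l7
  TrL.n)))))))) (by decide +kernel)
theorem bx1_2 : BoxOK sI cl5 cl7 cl6 t4 t2 b1_2 :=
  box_mk (TrL.c (I.pos (nat_lit 0) (nat_lit 0)) T4.l0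
  (TrL.c (I.pos (nat_lit 0) (nat_lit 0)) T2.l4
  (TrL.c (I.pos (nat_lit 0) (nat_lit 0)) T4.l5
  (TrL.c (I.pos (nat_lit 0) (nat_lit 0)) T2.l5
  (TrL.c (I.pos (nat_lit 0) (nat_lit 0)) T2.l6
  (TrL.c (I.pos (nat_lit 0) (nat_lit 0)) T4.l6
  (TrL.c (I.pos (nat_lit 0) (nat_lit 0)) T2.l7
  (TrL.c (I.pos (nat_lit 0) (nat_lit 0)) T4.l7
  TrL.n)))))))) (by decide +kernel)
theorem bx1_3 : BoxOK sI cl5 cl7 cl6 t4 t2 b1_3 :=
  box_mk (TrL.c (I.pos (nat_lit 0) (nat_lit 0)) (xa (xa (xb T4.l0 T4.l0) T4.l0) T4.l0)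
  (TrL.c (I.pos (nat_lit 0) (nat_lit 0)) T2.l4
  (TrL.c (I.pos (nat_lit 0) (nat_lit 0)) T4.l5
  (TrL.c (I.pos (nat_lit 0) (nat_lit 0)) T2.l5
  (TrL.c (I.pos (nat_lit 0) (nat_lit 0)) T2.l6
  (TrL.c (I.pos (nat_lit 0) (nat_lit 0)) T4.l6
  (TrL.c (I.pos (nat_lit 0) (nat_lit 0)) T2.l7
  (TrL.c (I.pos (nat_lit 0) (nat_lit 0)) T4.l7
  TrL.n)))))))) (by decide +kernel)
theorem bx1_4 : BoxOK sI cl5 cl7 cl6 t4 t2 b1_4 :=
  box_mk (TrL.c (I.pos (nat_lit 0) (nat_lit 0)) T4.l0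
  (TrL.c (I.pos (nat_lit 0) (nat_lit 0)) T2.l4
  (TrL.c (I.pos (nat_lit 0) (nat_lit 0)) T4.l5
  (TrL.c (I.pos (nat_lit 0) (nat_lit 0)) T2.l5
  (TrL.c (I.pos (nat_lit 0) (nat_lit 0)) T2.l6
  (TrL.c (I.pos (nat_lit 0) (nat_lit 0)) T4.l6
  (TrL.c (I.pos (nat_lit 0) (nat_lit 0)) T2.l7
  (TrL.c (I.pos (nat_lit 0) (nat_lit 0)) T4.l7
  TrL.n)))))))) (by decide +kernel)
theorem bx1_5 : BoxOK sI cl5 cl7 cl6 t4 t2 b1_5 :=
  box_mk (TrL.c (I.pos (nat_lit 0) (nat_lit 0)) T4.l0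
  (TrL.c (I.pos (nat_lit 0) (nat_lit 0)) T2.l4
  (TrL.c (I.pos (nat_lit 0) (nat_lit 0)) T4.l5
  (TrL.c (I.pos (nat_lit 0) (nat_lit 0)) T2.l5
  (TrL.c (I.pos (nat_lit 0) (nat_lit 0)) T2.l6
  (TrL.c (I.pos (nat_lit 0) (nat_lit 0)) T4.l6
  (TrL.c (I.pos (nat_lit 0) (nat_lit 0)) T2.l7
  (TrL.c (I.pos (nat_lit 0) (nat_lit 0)) T4.l7
  TrL.n)))))))) (by decide +kernel)
theorem bx1_6 : BoxOK sI cl5 cl7 cl6 t4 t2 b1_6 :=
  box_mk (TrL.c (I.pos (nat_lit 0) (nat_lit 0)) (xa T4.l0 T4.l0)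
  (TrL.c (I.pos (nat_lit 0) (nat_lit 0)) T2.l4
  (TrL.c (I.pos (nat_lit 0) (nat_lit 0)) T4.l5
  (TrL.c (I.pos (nat_lit 0) (nat_lit 0)) T2.l5
  (TrL.c (I.pos (nat_lit 0) (nat_lit 0)) T2.l6
  (TrL.c (I.pos (nat_lit 0) (nat_lit 0)) T4.l6
  (TrL.c (I.pos (nat_lit 0) (nat_lit 0)) T2.l7
  (TrL.c (I.pos (nat_lit 0) (nat_lit 0)) T4.l7
  TrL.n)))))))) (by decide +kernel)
theorem bx1_7 : BoxOK sI cl5 cl7 cl6 t4 t2 b1_7 :=
  box_mk (TrL.c (I.pos (nat_lit 0) (nat_lit 0)) (xa T4.l0 T4.l0)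
  (TrL.c (I.pos (nat_lit 0) (nat_lit 0)) T2.l4
  (TrL.c (I.pos (nat_lit 0) (nat_lit 0)) T4.l5
  (TrL.c (I.pos (nat_lit 0) (nat_lit 0)) T2.l5
  (TrL.c (I.pos (nat_lit 0) (nat_lit 0)) T2.l6
  (TrL.c (I.pos (nat_lit 0) (nat_lit 0)) T4.l6
  (TrL.c (I.pos (nat_lit 0) (nat_lit 0)) T2.l7
  (TrL.c (I.pos (nat_lit 0) (nat_lit 0)) T4.l7
  TrL.n)))))))) (by decide +kernel)
theorem bx1_8 : BoxOK sI cl5 cl7 cl6 t4 t2 b1_8 :=
  box_mk (TrL.c (I.pos (nat_lit 0) (nat_lit 0)) (xb (xa (xb T4.l0 T4.l0) T4.l0) (xa (xa T4.l0 T4.l0) (xa T4.l0 T4.l0)))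
  (TrL.c (I.pos (nat_lit 0) (nat_lit 0)) T2.l4
  (TrL.c (I.pos (nat_lit 0) (nat_lit 0)) T4.l5
  (TrL.c (I.pos (nat_lit 0) (nat_lit 0)) T2.l5
  (TrL.c (I.pos (nat_lit 0) (nat_lit 0)) (xb T2.l6 T2.l6)
  (TrL.c (I.pos (nat_lit 0) (nat_lit 0)) T4.l6
  (TrL.c (I.pos (nat_lit 0) (nat_lit 0)) T2.l7
  (TrL.c (I.pos (nat_lit 0) (nat_lit 0)) T4.l7
  TrL.n)))))))) (by decide +kernel)
theorem bx1_9 : BoxOK sI cl5 cl7 cl6 t4 t2 b1_9 :=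
  box_mk (TrL.c (I.pos (nat_lit 0) (nat_lit 0)) (xa (xa T4.l0 T4.l0) T4.l0)
  (TrL.c (I.pos (nat_lit 0) (nat_lit 0)) T2.l4
  (TrL.c (I.pos (nat_lit 0) (nat_lit 0)) T4.l5
  (TrL.c (I.pos (nat_lit 0) (nat_lit 0)) T2.l5
  (TrL.c (I.pos (nat_lit 0) (nat_lit 0)) T2.l6
  (TrL.c (I.pos (nat_lit 0) (nat_lit 0)) T4.l6
  (TrL.c (I.pos (nat_lit 0) (nat_lit 0)) T2.l7
  (TrL.c (I.pos (nat_lit 0) (nat_lit 0)) T4.l7
  TrL.n)))))))) (by decide +kernel)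
theorem sv1 : StarV sI cl5 cl7 cl6 t4 t2 t1 :=
  (bt_n (bt_n (bt_n (bt_b bx1_0) (bt_b bx1_1)) (bt_n (bt_b bx1_2) (bt_n (bt_b bx1_3) (bt_b bx1_4)))) (bt_n (bt_n (bt_b bx1_5) (bt_b bx1_6)) (bt_n (bt_b bx1_7) (bt_n (bt_b bx1_8) (bt_b bx1_9)))))
def S1 : StarD := StarD.mk cl5 cl7 cl6 4 2 t1
theorem bx2_0 : BoxOK sI cl6 cl5 cl7 t0 t5 b2_0 :=
  box_mk (TrL.c (I.pos (nat_lit 0) (nat_lit 0)) (xa (xb T0.l0 (xa T0.l0 T0.l0)) (xb T0.l0 (xa T0.l0 T0.l0)))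
  (TrL.c (I.pos (nat_lit 0) (nat_lit 0)) T5.l1
  (TrL.c (I.pos (nat_lit 0) (nat_lit 89480386)) (xR T0.l1 (xR T0.l1 T0.l1))
  (TrL.c (I.pos (nat_lit 0) (nat_lit 41530880)) T5.l2
  (TrL.c (I.pos (nat_lit 0) (nat_lit 0)) (xa T5.l3 (xb (xa T5.l3 T5.l3) (xa T5.l3 T5.l3)))
  (TrL.c (I.pos (nat_lit 0) (nat_lit 0)) T0.l2
  (TrL.c (I.mix (nat_lit 41527258) (nat_lit 41530880)) (xR T5.l4 T5.l6)
  (TrL.c (I.mix (nat_lit 41527258) (nat_lit 4274)) T0.l3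
  TrL.n)))))))) (by decide +kernel)
theorem bx2_1 : BoxOK sI cl6 cl5 cl7 t0 t5 b2_1 :=
  box_mk (TrL.c (I.pos (nat_lit 0) (nat_lit 0)) T0.l0
  (TrL.c (I.pos (nat_lit 0) (nat_lit 0)) T5.l1
  (TrL.c (I.pos (nat_lit 0) (nat_lit 89480386)) T0.l1
  (TrL.c (I.pos (nat_lit 0) (nat_lit 41530880)) T5.l2
  (TrL.c (I.pos (nat_lit 0) (nat_lit 0)) T5.l3
  (TrL.c (I.pos (nat_lit 0) (nat_lit 0)) T0.l2
  (TrL.c (I.mix (nat_lit 41527258) (nat_lit 41530880)) T5.l4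
  (TrL.c (I.mix (nat_lit 41527258) (nat_lit 4274)) T0.l3
  TrL.n)))))))) (by decide +kernel)
theorem bx2_2 : BoxOK sI cl6 cl5 cl7 t0 t5 b2_2 :=
  box_mk (TrL.c (I.pos (nat_lit 0) (nat_lit 0)) (xb T0.l0 T0.l0)
  (TrL.c (I.pos (nat_lit 0) (nat_lit 0)) T5.l1
  (TrL.c (I.pos (nat_lit 0) (nat_lit 89480386)) T0.l1
  (TrL.c (I.pos (nat_lit 0) (nat_lit 41530880)) T5.l2
  (TrL.c (I.pos (nat_lit 0) (nat_lit 0)) T5.l3
  (TrL.c (I.pos (nat_lit 0) (nat_lit 0)) T0.l2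
  (TrL.c (I.mix (nat_lit 41527258) (nat_lit 41530880)) T5.l4
  (TrL.c (I.mix (nat_lit 41527258) (nat_lit 4274)) T0.l3
  TrL.n)))))))) (by decide +kernel)
theorem bx2_3 : BoxOK sI cl6 cl5 cl7 t0 t5 b2_3 :=
  box_mk (TrL.c (I.pos (nat_lit 0) (nat_lit 0)) T5.l1
  (TrL.c (I.pos (nat_lit 0) (nat_lit 0)) T0.l1
  (TrL.c (I.mix (nat_lit 41527258) (nat_lit 41530880)) (xR T5.l5 T5.l2)
  (TrL.c (I.mix (nat_lit 41527258) (nat_lit 4274)) T0.l4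
  TrL.n)))) (by decide +kernel)
theorem bx2_4 : BoxOK sI cl6 cl5 cl7 t0 t5 b2_4 :=
  box_mk (TrL.c (I.pos (nat_lit 0) (nat_lit 0)) (xa (xb T0.l0 T0.l0) T0.l0)
  (TrL.c (I.pos (nat_lit 0) (nat_lit 0)) T5.l1
  (TrL.c (I.pos (nat_lit 0) (nat_lit 89480386)) (xR T0.l1 T0.l1)
  (TrL.c (I.pos (nat_lit 0) (nat_lit 41530880)) T5.l2
  (TrL.c (I.pos (nat_lit 0) (nat_lit 0)) T5.l3
  (TrL.c (I.pos (nat_lit 0) (nat_lit 0)) T0.l2
  (TrL.c (I.mix (nat_lit 41527258) (nat_lit 41530880)) T5.l4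
  (TrL.c (I.mix (nat_lit 41527258) (nat_lit 4274)) T0.l3
  TrL.n)))))))) (by decide +kernel)
theorem bx2_5 : BoxOK sI cl6 cl5 cl7 t0 t5 b2_5 :=
  box_mk (TrL.c (I.pos (nat_lit 0) (nat_lit 0)) T5.l9
  (TrL.c (I.pos (nat_lit 0) (nat_lit 0)) T0.l1
  (TrL.c (I.mix (nat_lit 41527258) (nat_lit 41530880)) (xR T5.l5 T5.l5)
  (TrL.c (I.mix (nat_lit 41527258) (nat_lit 4274)) T0.l7
  TrL.n)))) (by decide +kernel)
theorem bx2_6 : BoxOK sI cl6 cl5 cl7 t0 t5 b2_6 :=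
  box_mk (TrL.c (I.pos (nat_lit 0) (nat_lit 0)) (xb (xa T0.l0 T0.l0) (xa (xb T0.l0 T0.l0) T0.l0))
  (TrL.c (I.pos (nat_lit 0) (nat_lit 0)) T5.l1
  (TrL.c (I.pos (nat_lit 0) (nat_lit 89480386)) (xR T0.l1 T0.l1)
  (TrL.c (I.pos (nat_lit 0) (nat_lit 41530880)) T5.l2
  (TrL.c (I.pos (nat_lit 0) (nat_lit 0)) (xb T5.l3 T5.l3)
  (TrL.c (I.pos (nat_lit 0) (nat_lit 0)) T0.l2
  (TrL.c (I.mix (nat_lit 41527258) (nat_lit 41530880)) (xR T5.l4 T5.l6)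
  (TrL.c (I.mix (nat_lit 41527258) (nat_lit 4274)) T0.l3
  TrL.n)))))))) (by decide +kernel)
theorem bx2_7 : BoxOK sI cl6 cl5 cl7 t0 t5 b2_7 :=
  box_mk (TrL.c (I.pos (nat_lit 0) (nat_lit 0)) (xb T0.l0 T0.l0)
  (TrL.c (I.pos (nat_lit 0) (nat_lit 0)) T5.l9
  (TrL.c (I.pos (nat_lit 0) (nat_lit 89480386)) (xR T0.l1 T0.l1)
  (TrL.c (I.pos (nat_lit 0) (nat_lit 41530880)) T5.l5
  (TrL.c (I.pos (nat_lit 0) (nat_lit 0)) T5.l3
  (TrL.c (I.pos (nat_lit 0) (nat_lit 0)) T0.l2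
  (TrL.c (I.mix (nat_lit 41527258) (nat_lit 41530880)) (xR T5.l4 T5.l4)
  (TrL.c (I.mix (nat_lit 41527258) (nat_lit 4274)) T0.l3
  TrL.n)))))))) (by decide +kernel)
theorem sv2 : StarV sI cl6 cl5 cl7 t0 t5 t2 :=
  (bt_n (bt_n (bt_n (bt_b bx2_0) (bt_b bx2_1)) (bt_n (bt_b bx2_2) (bt_b bx2_3))) (bt_n (bt_n (bt_b bx2_4) (bt_b bx2_5)) (bt_n (bt_b bx2_6) (bt_b bx2_7))))
def S2 : StarD := StarD.mk cl6 cl5 cl7 0 5 t2
theorem bx3_0 : BoxOK sI cl6 cl7 cl5 t5 t0 b3_0 :=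
  box_mk (TrL.c (I.pos (nat_lit 0) (nat_lit 0)) (xa (xb (xa T5.l0 T5.l0) (xa T5.l0 T5.l0)) (xa (xb T5.l0 T5.l0) (xb T5.l0 T5.l0)))
  (TrL.c (I.pos (nat_lit 0) (nat_lit 0)) T0.l5
  (TrL.c (I.pos (nat_lit 0) (nat_lit 89480386)) (xR (xR T5.l4 T5.l6) (xR T5.l6 T5.l6))
  (TrL.c (I.pos (nat_lit 0) (nat_lit 41530880)) T0.l6
  (TrL.c (I.pos (nat_lit 0) (nat_lit 0)) (xa T0.l9 (xb (xa T0.l9 T0.l9) (xa T0.l9 T0.l9)))
  (TrL.c (I.pos (nat_lit 0) (nat_lit 0)) T5.l7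
  (TrL.c (I.mix (nat_lit 41527258) (nat_lit 41530880)) (xR T0.l7 T0.l1)
  (TrL.c (I.mix (nat_lit 41527258) (nat_lit 4274)) T5.l8
  TrL.n)))))))) (by decide +kernel)
theorem bx3_1 : BoxOK sI cl6 cl7 cl5 t5 t0 b3_1 :=
  box_mk (TrL.c (I.pos (nat_lit 0) (nat_lit 0)) T5.l0
  (TrL.c (I.pos (nat_lit 0) (nat_lit 0)) T0.l5
  (TrL.c (I.pos (nat_lit 0) (nat_lit 89480386)) (xR T5.l6 T5.l6)
  (TrL.c (I.pos (nat_lit 0) (nat_lit 41530880)) T0.l6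
  (TrL.c (I.pos (nat_lit 0) (nat_lit 0)) T0.l9
  (TrL.c (I.pos (nat_lit 0) (nat_lit 0)) T5.l7
  (TrL.c (I.mix (nat_lit 41527258) (nat_lit 41530880)) T0.l7
  (TrL.c (I.mix (nat_lit 41527258) (nat_lit 4274)) T5.l8
  TrL.n)))))))) (by decide +kernel)
theorem bx3_2 : BoxOK sI cl6 cl7 cl5 t5 t0 b3_2 :=
  box_mk (TrL.c (I.pos (nat_lit 0) (nat_lit 0)) T5.l0
  (TrL.c (I.pos (nat_lit 0) (nat_lit 0)) T0.l5
  (TrL.c (I.pos (nat_lit 0) (nat_lit 89480386)) T5.l6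
  (TrL.c (I.pos (nat_lit 0) (nat_lit 41530880)) T0.l6
  (TrL.c (I.pos (nat_lit 0) (nat_lit 0)) T0.l9
  (TrL.c (I.pos (nat_lit 0) (nat_lit 0)) T5.l7
  (TrL.c (I.mix (nat_lit 41527258) (nat_lit 41530880)) T0.l7
  (TrL.c (I.mix (nat_lit 41527258) (nat_lit 4274)) T5.l8
  TrL.n)))))))) (by decide +kernel)
theorem bx3_3 : BoxOK sI cl6 cl7 cl5 t5 t0 b3_3 :=
  box_mk (TrL.c (I.pos (nat_lit 0) (nat_lit 0)) (xb (xa T5.l0 T5.l0) (xa (xb T5.l0 T5.l0) (xb T5.l0 T5.l0)))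
  (TrL.c (I.pos (nat_lit 0) (nat_lit 0)) T0.l5
  (TrL.c (I.pos (nat_lit 0) (nat_lit 89480386)) (xR T5.l6 (xR T5.l6 T5.l6))
  (TrL.c (I.pos (nat_lit 0) (nat_lit 41530880)) T0.l6
  (TrL.c (I.pos (nat_lit 0) (nat_lit 0)) (xb T0.l9 T0.l9)
  (TrL.c (I.pos (nat_lit 0) (nat_lit 0)) T5.l7
  (TrL.c (I.mix (nat_lit 41527258) (nat_lit 41530880)) (xR T0.l7 T0.l7)
  (TrL.c (I.mix (nat_lit 41527258) (nat_lit 4274)) T5.l8
  TrL.n)))))))) (by decide +kernel)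
theorem bx3_4 : BoxOK sI cl6 cl7 cl5 t5 t0 b3_4 :=
  box_mk (TrL.c (I.pos (nat_lit 0) (nat_lit 0)) (xa (xa (xb T5.l0 (xa T5.l0 T5.l0)) T5.l0) T5.l0)
  (TrL.c (I.pos (nat_lit 0) (nat_lit 0)) T0.l5
  (TrL.c (I.pos (nat_lit 0) (nat_lit 89480386)) (xR T5.l6 T5.l6)
  (TrL.c (I.pos (nat_lit 0) (nat_lit 41530880)) T0.l6
  (TrL.c (I.pos (nat_lit 0) (nat_lit 0)) T0.l9
  (TrL.c (I.pos (nat_lit 0) (nat_lit 0)) T5.l7
  (TrL.c (I.mix (nat_lit 41527258) (nat_lit 41530880)) (xR T0.l7 T0.l7)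
  (TrL.c (I.mix (nat_lit 41527258) (nat_lit 4274)) T5.l8
  TrL.n)))))))) (by decide +kernel)
theorem bx3_5 : BoxOK sI cl6 cl7 cl5 t5 t0 b3_5 :=
  box_mk (TrL.c (I.pos (nat_lit 0) (nat_lit 0)) T5.l0
  (TrL.c (I.pos (nat_lit 0) (nat_lit 0)) T0.l5
  (TrL.c (I.pos (nat_lit 0) (nat_lit 89480386)) (xR T5.l6 T5.l6)
  (TrL.c (I.pos (nat_lit 0) (nat_lit 41530880)) T0.l6
  (TrL.c (I.pos (nat_lit 0) (nat_lit 0)) T0.l9
  (TrL.c (I.pos (nat_lit 0) (nat_lit 0)) T5.l7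
  (TrL.c (I.mix (nat_lit 41527258) (nat_lit 41530880)) T0.l7
  (TrL.c (I.mix (nat_lit 41527258) (nat_lit 4274)) T5.l8
  TrL.n)))))))) (by decide +kernel)
theorem bx3_6 : BoxOK sI cl6 cl7 cl5 t5 t0 b3_6 :=
  box_mk (TrL.c (I.pos (nat_lit 0) (nat_lit 0)) T5.l0
  (TrL.c (I.pos (nat_lit 0) (nat_lit 0)) T0.l5
  (TrL.c (I.pos (nat_lit 0) (nat_lit 89480386)) (xR T5.l6 T5.l6)
  (TrL.c (I.pos (nat_lit 0) (nat_lit 41530880)) T0.l6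
  (TrL.c (I.pos (nat_lit 0) (nat_lit 0)) T0.l9
  (TrL.c (I.pos (nat_lit 0) (nat_lit 0)) T5.l7
  (TrL.c (I.mix (nat_lit 41527258) (nat_lit 41530880)) T0.l7
  (TrL.c (I.mix (nat_lit 41527258) (nat_lit 4274)) T5.l8
  TrL.n)))))))) (by decide +kernel)
theorem bx3_7 : BoxOK sI cl6 cl7 cl5 t5 t0 b3_7 :=
  box_mk (TrL.c (I.pos (nat_lit 0) (nat_lit 0)) (xa T5.l0 T5.l0)
  (TrL.c (I.pos (nat_lit 0) (nat_lit 0)) T0.l5
  (TrL.c (I.pos (nat_lit 0) (nat_lit 89480386)) (xR T5.l6 T5.l6)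
  (TrL.c (I.pos (nat_lit 0) (nat_lit 41530880)) T0.l6
  (TrL.c (I.pos (nat_lit 0) (nat_lit 0)) T0.l9
  (TrL.c (I.pos (nat_lit 0) (nat_lit 0)) T5.l7
  (TrL.c (I.mix (nat_lit 41527258) (nat_lit 41530880)) T0.l7
  (TrL.c (I.mix (nat_lit 41527258) (nat_lit 4274)) T5.l8
  TrL.n)))))))) (by decide +kernel)
theorem bx3_8 : BoxOK sI cl6 cl7 cl5 t5 t0 b3_8 :=
  box_mk (TrL.c (I.pos (nat_lit 0) (nat_lit 0)) T5.l0
  (TrL.c (I.pos (nat_lit 0) (nat_lit 0)) T0.l5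
  (TrL.c (I.pos (nat_lit 0) (nat_lit 89480386)) (xR T5.l6 T5.l6)
  (TrL.c (I.pos (nat_lit 0) (nat_lit 41530880)) T0.l6
  (TrL.c (I.pos (nat_lit 0) (nat_lit 0)) T0.l9
  (TrL.c (I.pos (nat_lit 0) (nat_lit 0)) T5.l7
  (TrL.c (I.mix (nat_lit 41527258) (nat_lit 41530880)) T0.l7
  (TrL.c (I.mix (nat_lit 41527258) (nat_lit 4274)) T5.l8
  TrL.n)))))))) (by decide +kernel)
theorem bx3_9 : BoxOK sI cl6 cl7 cl5 t5 t0 b3_9 :=
  box_mk (TrL.c (I.pos (nat_lit 0) (nat_lit 0)) (xa (xa (xb T5.l0 T5.l0) T5.l0) T5.l0)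
  (TrL.c (I.pos (nat_lit 0) (nat_lit 0)) T0.l5
  (TrL.c (I.pos (nat_lit 0) (nat_lit 89480386)) T5.l6
  (TrL.c (I.pos (nat_lit 0) (nat_lit 41530880)) T0.l7
  (TrL.c (I.pos (nat_lit 0) (nat_lit 0)) T0.l9
  (TrL.c (I.pos (nat_lit 0) (nat_lit 0)) T5.l7
  (TrL.c (I.mix (nat_lit 41527258) (nat_lit 41530880)) T0.l7
  (TrL.c (I.mix (nat_lit 41527258) (nat_lit 4274)) T5.l8
  TrL.n)))))))) (by decide +kernel)
theorem sv3 : StarV sI cl6 cl7 cl5 t5 t0 t3 :=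
  (bt_n (bt_n (bt_n (bt_b bx3_0) (bt_b bx3_1)) (bt_n (bt_b bx3_2) (bt_n (bt_b bx3_3) (bt_b bx3_4)))) (bt_n (bt_n (bt_b bx3_5) (bt_b bx3_6)) (bt_n (bt_b bx3_7) (bt_n (bt_b bx3_8) (bt_b bx3_9)))))
def S3 : StarD := StarD.mk cl6 cl7 cl5 5 0 t3
theorem bx4_0 : BoxOK sI cl7 cl5 cl6 t1 t3 b4_0 :=
  box_mk (TrL.c (I.pos (nat_lit 0) (nat_lit 0)) (xa (xb (xa T1.l0 T1.l0) (xa (xb T1.l0 T1.l0) T1.l0)) (xa (xb T1.l0 T1.l0) (xb T1.l0 T1.l8)))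
  (TrL.c (I.pos (nat_lit 0) (nat_lit 0)) T3.l1
  (TrL.c (I.pos (nat_lit 0) (nat_lit 111196574)) (xR (xR T1.l1 T1.l1) (xR T1.l1 T1.l1))
  (TrL.c (I.pos (nat_lit 0) (nat_lit 77433728)) (xR T3.l2 T3.l2)
  (TrL.c (I.pos (nat_lit 0) (nat_lit 0)) (xa (xb (xa T3.l3 T3.l3) T3.l3) (xb (xa (xk T3.l3 T3.l3) (xk (xb T3.l3 T3.l3) (xb T3.l3 T3.l3))) (xk (xa T3.l3 (xb T3.l3 T3.l3)) (xa T3.l3 (xb T3.l3 (xs T3.l3 (xa T3.l3 T3.l3)))))))
  (TrL.c (I.pos (nat_lit 0) (nat_lit 0)) T1.l2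
  (TrL.c (I.mix (nat_lit 29511666) (nat_lit 77433728)) (xR (xR T3.l4 T3.l4) (xR T3.l4 T3.l4))
  (TrL.c (I.mix (nat_lit 29511666) (nat_lit 46070178)) (xR T1.l3 T1.l7)
  TrL.n)))))))) (by decide +kernel)
theorem bx4_1 : BoxOK sI cl7 cl5 cl6 t1 t3 b4_1 :=
  box_mk (TrL.c (I.pos (nat_lit 0) (nat_lit 0)) T1.l0
  (TrL.c (I.pos (nat_lit 0) (nat_lit 0)) T3.l1
  (TrL.c (I.pos (nat_lit 0) (nat_lit 111196574)) (xR (xR T1.l1 T1.l1) T1.l1)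
  (TrL.c (I.pos (nat_lit 0) (nat_lit 77433728)) (xR T3.l2 T3.l2)
  (TrL.c (I.pos (nat_lit 0) (nat_lit 0)) (xa T3.l3 T3.l3)
  (TrL.c (I.pos (nat_lit 0) (nat_lit 0)) T1.l2
  (TrL.c (I.mix (nat_lit 29511666) (nat_lit 77433728)) T3.l4
  (TrL.c (I.mix (nat_lit 29511666) (nat_lit 46070178)) T1.l3
  TrL.n)))))))) (by decide +kernel)
theorem bx4_2 : BoxOK sI cl7 cl5 cl6 t1 t3 b4_2 :=
  box_mk (TrL.c (I.pos (nat_lit 0) (nat_lit 0)) T3.l1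
  (TrL.c (I.pos (nat_lit 0) (nat_lit 0)) T1.l1
  (TrL.c (I.mix (nat_lit 29511666) (nat_lit 77433728)) (xR T3.l6 T3.l6)
  (TrL.c (I.mix (nat_lit 29511666) (nat_lit 46070178)) T1.l9
  TrL.n)))) (by decide +kernel)
theorem bx4_3 : BoxOK sI cl7 cl5 cl6 t1 t3 b4_3 :=
  box_mk (TrL.c (I.pos (nat_lit 0) (nat_lit 0)) (xb (xa T1.l0 T1.l0) (xa (xb T1.l0 T1.l0) (xb T1.l0 T1.l0)))
  (TrL.c (I.pos (nat_lit 0) (nat_lit 0)) T3.l1
  (TrL.c (I.pos (nat_lit 0) (nat_lit 111196574)) (xR (xR T1.l1 T1.l1) (xR T1.l1 T1.l1))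
  (TrL.c (I.pos (nat_lit 0) (nat_lit 77433728)) (xR T3.l2 T3.l2)
  (TrL.c (I.pos (nat_lit 0) (nat_lit 0)) (xb (xa T3.l3 T3.l3) T3.l3)
  (TrL.c (I.pos (nat_lit 0) (nat_lit 0)) T1.l2
  (TrL.c (I.mix (nat_lit 29511666) (nat_lit 77433728)) (xR T3.l4 T3.l4)
  (TrL.c (I.mix (nat_lit 29511666) (nat_lit 46070178)) (xR T1.l3 T1.l3)
  TrL.n)))))))) (by decide +kernel)
theorem bx4_4 : BoxOK sI cl7 cl5 cl6 t1 t3 b4_4 :=
  box_mk (TrL.c (I.pos (nat_lit 0) (nat_lit 0)) (xb T1.l0 T1.l0)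
  (TrL.c (I.pos (nat_lit 0) (nat_lit 0)) T3.l1
  (TrL.c (I.pos (nat_lit 0) (nat_lit 111196574)) (xR T1.l1 T1.l1)
  (TrL.c (I.pos (nat_lit 0) (nat_lit 77433728)) (xR T3.l4 T3.l2)
  (TrL.c (I.pos (nat_lit 0) (nat_lit 0)) T3.l3
  (TrL.c (I.pos (nat_lit 0) (nat_lit 0)) T1.l2
  (TrL.c (I.mix (nat_lit 29511666) (nat_lit 77433728)) (xR T3.l4 T3.l4)
  (TrL.c (I.mix (nat_lit 29511666) (nat_lit 46070178)) T1.l9
  TrL.n)))))))) (by decide +kernel)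
theorem bx4_5 : BoxOK sI cl7 cl5 cl6 t1 t3 b4_5 :=
  box_mk (TrL.c (I.pos (nat_lit 0) (nat_lit 0)) T1.l0
  (TrL.c (I.pos (nat_lit 0) (nat_lit 0)) T3.l1
  (TrL.c (I.pos (nat_lit 0) (nat_lit 111196574)) (xR T1.l1 T1.l1)
  (TrL.c (I.pos (nat_lit 0) (nat_lit 77433728)) T3.l2
  (TrL.c (I.pos (nat_lit 0) (nat_lit 0)) T3.l3
  (TrL.c (I.pos (nat_lit 0) (nat_lit 0)) T1.l2
  (TrL.c (I.mix (nat_lit 29511666) (nat_lit 77433728)) (xR T3.l4 T3.l4)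
  (TrL.c (I.mix (nat_lit 29511666) (nat_lit 46070178)) T1.l9
  TrL.n)))))))) (by decide +kernel)
theorem bx4_6 : BoxOK sI cl7 cl5 cl6 t1 t3 b4_6 :=
  box_mk (TrL.c (I.pos (nat_lit 0) (nat_lit 0)) (xb T1.l0 T1.l0)
  (TrL.c (I.pos (nat_lit 0) (nat_lit 0)) T3.l1
  (TrL.c (I.pos (nat_lit 0) (nat_lit 111196574)) (xR T1.l1 T1.l1)
  (TrL.c (I.pos (nat_lit 0) (nat_lit 77433728)) (xR T3.l9 T3.l2)
  (TrL.c (I.pos (nat_lit 0) (nat_lit 0)) T3.l3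
  (TrL.c (I.pos (nat_lit 0) (nat_lit 0)) T1.l2
  (TrL.c (I.mix (nat_lit 29511666) (nat_lit 77433728)) (xR T3.l4 T3.l4)
  (TrL.c (I.mix (nat_lit 29511666) (nat_lit 46070178)) T1.l3
  TrL.n)))))))) (by decide +kernel)
theorem bx4_7 : BoxOK sI cl7 cl5 cl6 t1 t3 b4_7 :=
  box_mk (TrL.c (I.pos (nat_lit 0) (nat_lit 0)) T3.l1
  (TrL.c (I.pos (nat_lit 0) (nat_lit 0)) T1.l1
  (TrL.c (I.mix (nat_lit 29511666) (nat_lit 77433728)) (xR T3.l6 T3.l2)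
  (TrL.c (I.mix (nat_lit 29511666) (nat_lit 46070178)) (xR T1.l9 T1.l1)
  TrL.n)))) (by decide +kernel)
theorem sv4 : StarV sI cl7 cl5 cl6 t1 t3 t4 :=
  (bt_n (bt_n (bt_n (bt_b bx4_0) (bt_b bx4_1)) (bt_n (bt_b bx4_2) (bt_b bx4_3))) (bt_n (bt_n (bt_b bx4_4) (bt_b bx4_5)) (bt_n (bt_b bx4_6) (bt_b bx4_7))))
def S4 : StarD := StarD.mk cl7 cl5 cl6 1 3 t4
theorem bx5_0 : BoxOK sI cl7 cl6 cl5 t3 t1 b5_0 :=
  box_mk (TrL.c (I.pos (nat_lit 0) (nat_lit 0)) (xa (xa (xb T3.l0 (xb T3.l0 T3.l0)) (xb T3.l0 T3.l0)) (xa (xb T3.l0 T3.l0) (xb T3.l0 T3.l0)))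
  (TrL.c (I.pos (nat_lit 0) (nat_lit 0)) T1.l6
  (TrL.c (I.pos (nat_lit 0) (nat_lit 111196574)) (xR (xR T3.l4 T3.l7) (xR T3.l7 T3.l7))
  (TrL.c (I.pos (nat_lit 0) (nat_lit 77433728)) (xR T1.l7 T1.l7)
  (TrL.c (I.pos (nat_lit 0) (nat_lit 0)) (xa (xb T1.l8 T1.l8) (xb (xa (xk T1.l8 T1.l8) (xk (xb T1.l8 T1.l8) (xb T1.l8 T1.l8))) (xa T1.l8 (xk (xb T1.l8 T1.l8) (xb T1.l8 (xs T1.l8 (xb T1.l8 T1.l8)))))))
  (TrL.c (I.pos (nat_lit 0) (nat_lit 0)) T3.l8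
  (TrL.c (I.mix (nat_lit 29511666) (nat_lit 77433728)) (xR (xR T1.l9 T1.l9) (xR T1.l9 T1.l9))
  (TrL.c (I.mix (nat_lit 29511666) (nat_lit 46070178)) (xR T3.l9 T3.l9)
  TrL.n)))))))) (by decide +kernel)
theorem bx5_1 : BoxOK sI cl7 cl6 cl5 t3 t1 b5_1 :=
  box_mk (TrL.c (I.pos (nat_lit 0) (nat_lit 0)) T3.l0
  (TrL.c (I.pos (nat_lit 0) (nat_lit 0)) T1.l6
  (TrL.c (I.pos (nat_lit 0) (nat_lit 111196574)) (xR T3.l7 T3.l7)
  (TrL.c (I.pos (nat_lit 0) (nat_lit 77433728)) (xR T1.l7 T1.l7)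
  (TrL.c (I.pos (nat_lit 0) (nat_lit 0)) T1.l8
  (TrL.c (I.pos (nat_lit 0) (nat_lit 0)) T3.l8
  (TrL.c (I.mix (nat_lit 29511666) (nat_lit 77433728)) (xR T1.l9 T1.l9)
  (TrL.c (I.mix (nat_lit 29511666) (nat_lit 46070178)) T3.l9
  TrL.n)))))))) (by decide +kernel)
theorem bx5_2 : BoxOK sI cl7 cl6 cl5 t3 t1 b5_2 :=
  box_mk (TrL.c (I.pos (nat_lit 0) (nat_lit 0)) T3.l0
  (TrL.c (I.pos (nat_lit 0) (nat_lit 0)) T1.l6
  (TrL.c (I.pos (nat_lit 0) (nat_lit 111196574)) T3.l7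
  (TrL.c (I.pos (nat_lit 0) (nat_lit 77433728)) T1.l9
  (TrL.c (I.pos (nat_lit 0) (nat_lit 0)) T1.l8
  (TrL.c (I.pos (nat_lit 0) (nat_lit 0)) T3.l8
  (TrL.c (I.mix (nat_lit 29511666) (nat_lit 77433728)) (xR T1.l9 T1.l7)
  (TrL.c (I.mix (nat_lit 29511666) (nat_lit 46070178)) T3.l9
  TrL.n)))))))) (by decide +kernel)
theorem bx5_3 : BoxOK sI cl7 cl6 cl5 t3 t1 b5_3 :=
  box_mk (TrL.c (I.pos (nat_lit 0) (nat_lit 0)) (xb (xa T3.l0 T3.l0) (xa (xb T3.l0 T3.l0) (xb T3.l0 T3.l0)))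
  (TrL.c (I.pos (nat_lit 0) (nat_lit 0)) T1.l6
  (TrL.c (I.pos (nat_lit 0) (nat_lit 111196574)) (xR (xR T3.l7 T3.l7) (xR T3.l7 T3.l7))
  (TrL.c (I.pos (nat_lit 0) (nat_lit 77433728)) (xR T1.l7 T1.l7)
  (TrL.c (I.pos (nat_lit 0) (nat_lit 0)) (xb T1.l8 T1.l8)
  (TrL.c (I.pos (nat_lit 0) (nat_lit 0)) T3.l8
  (TrL.c (I.mix (nat_lit 29511666) (nat_lit 77433728)) (xR T1.l9 (xR T1.l9 T1.l9))
  (TrL.c (I.mix (nat_lit 29511666) (nat_lit 46070178)) (xR T3.l9 T3.l9)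
  TrL.n)))))))) (by decide +kernel)
theorem bx5_4 : BoxOK sI cl7 cl6 cl5 t3 t1 b5_4 :=
  box_mk (TrL.c (I.pos (nat_lit 0) (nat_lit 0)) (xa (xa (xb T3.l0 T3.l0) T3.l0) T3.l0)
  (TrL.c (I.pos (nat_lit 0) (nat_lit 0)) T1.l6
  (TrL.c (I.pos (nat_lit 0) (nat_lit 111196574)) (xR T3.l7 (xR T3.l7 T3.l7))
  (TrL.c (I.pos (nat_lit 0) (nat_lit 77433728)) (xR T1.l9 T1.l7)
  (TrL.c (I.pos (nat_lit 0) (nat_lit 0)) T1.l8
  (TrL.c (I.pos (nat_lit 0) (nat_lit 0)) T3.l8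
  (TrL.c (I.mix (nat_lit 29511666) (nat_lit 77433728)) (xR T1.l9 T1.l9)
  (TrL.c (I.mix (nat_lit 29511666) (nat_lit 46070178)) T3.l9
  TrL.n)))))))) (by decide +kernel)
theorem bx5_5 : BoxOK sI cl7 cl6 cl5 t3 t1 b5_5 :=
  box_mk (TrL.c (I.pos (nat_lit 0) (nat_lit 0)) T3.l0
  (TrL.c (I.pos (nat_lit 0) (nat_lit 0)) T1.l6
  (TrL.c (I.pos (nat_lit 0) (nat_lit 111196574)) T3.l7
  (TrL.c (I.pos (nat_lit 0) (nat_lit 77433728)) T1.l9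
  (TrL.c (I.pos (nat_lit 0) (nat_lit 0)) T1.l8
  (TrL.c (I.pos (nat_lit 0) (nat_lit 0)) T3.l8
  (TrL.c (I.mix (nat_lit 29511666) (nat_lit 77433728)) (xR T1.l9 T1.l9)
  (TrL.c (I.mix (nat_lit 29511666) (nat_lit 46070178)) T3.l9
  TrL.n)))))))) (by decide +kernel)
theorem bx5_6 : BoxOK sI cl7 cl6 cl5 t3 t1 b5_6 :=
  box_mk (TrL.c (I.pos (nat_lit 0) (nat_lit 0)) T3.l0
  (TrL.c (I.pos (nat_lit 0) (nat_lit 0)) T1.l6
  (TrL.c (I.pos (nat_lit 0) (nat_lit 111196574)) (xR T3.l7 T3.l7)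
  (TrL.c (I.pos (nat_lit 0) (nat_lit 77433728)) (xR T1.l7 T1.l7)
  (TrL.c (I.pos (nat_lit 0) (nat_lit 0)) T1.l8
  (TrL.c (I.pos (nat_lit 0) (nat_lit 0)) T3.l8
  (TrL.c (I.mix (nat_lit 29511666) (nat_lit 77433728)) (xR T1.l9 T1.l9)
  (TrL.c (I.mix (nat_lit 29511666) (nat_lit 46070178)) T3.l9
  TrL.n)))))))) (by decide +kernel)
theorem bx5_7 : BoxOK sI cl7 cl6 cl5 t3 t1 b5_7 :=
  box_mk (TrL.c (I.pos (nat_lit 0) (nat_lit 0)) T3.l0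
  (TrL.c (I.pos (nat_lit 0) (nat_lit 0)) T1.l6
  (TrL.c (I.pos (nat_lit 0) (nat_lit 111196574)) (xR T3.l7 T3.l7)
  (TrL.c (I.pos (nat_lit 0) (nat_lit 77433728)) T1.l7
  (TrL.c (I.pos (nat_lit 0) (nat_lit 0)) T1.l8
  (TrL.c (I.pos (nat_lit 0) (nat_lit 0)) T3.l8
  (TrL.c (I.mix (nat_lit 29511666) (nat_lit 77433728)) (xR T1.l9 T1.l9)
  (TrL.c (I.mix (nat_lit 29511666) (nat_lit 46070178)) T3.l9
  TrL.n)))))))) (by decide +kernel)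
theorem bx5_8 : BoxOK sI cl7 cl6 cl5 t3 t1 b5_8 :=
  box_mk (TrL.c (I.pos (nat_lit 0) (nat_lit 0)) (xa (xb T3.l0 T3.l0) T3.l0)
  (TrL.c (I.pos (nat_lit 0) (nat_lit 0)) T1.l8
  (TrL.c (I.pos (nat_lit 0) (nat_lit 111196574)) (xR T3.l7 T3.l7)
  (TrL.c (I.pos (nat_lit 0) (nat_lit 77433728)) T1.l9
  (TrL.c (I.pos (nat_lit 0) (nat_lit 0)) T1.l6
  (TrL.c (I.pos (nat_lit 0) (nat_lit 0)) T3.l7
  (TrL.c (I.mix (nat_lit 29511666) (nat_lit 77433728)) (xR T1.l9 T1.l7)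
  (TrL.c (I.mix (nat_lit 29511666) (nat_lit 46070178)) (xR T3.l9 T3.l4)
  TrL.n)))))))) (by decide +kernel)
theorem bx5_9 : BoxOK sI cl7 cl6 cl5 t3 t1 b5_9 :=
  box_mk (TrL.c (I.pos (nat_lit 0) (nat_lit 0)) T3.l0
  (TrL.c (I.pos (nat_lit 0) (nat_lit 0)) T1.l6
  (TrL.c (I.pos (nat_lit 0) (nat_lit 111196574)) (xR T3.l7 T3.l7)
  (TrL.c (I.pos (nat_lit 0) (nat_lit 77433728)) (xR T1.l7 T1.l7)
  (TrL.c (I.pos (nat_lit 0) (nat_lit 0)) T1.l8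
  (TrL.c (I.pos (nat_lit 0) (nat_lit 0)) T3.l8
  (TrL.c (I.mix (nat_lit 29511666) (nat_lit 77433728)) (xR T1.l9 T1.l9)
  (TrL.c (I.mix (nat_lit 29511666) (nat_lit 46070178)) T3.l9
  TrL.n)))))))) (by decide +kernel)
theorem sv5 : StarV sI cl7 cl6 cl5 t3 t1 t5 :=
  (bt_n (bt_n (bt_n (bt_b bx5_0) (bt_b bx5_1)) (bt_n (bt_b bx5_2) (bt_n (bt_b bx5_3) (bt_b bx5_4)))) (bt_n (bt_n (bt_b bx5_5) (bt_b bx5_6)) (bt_n (bt_b bx5_7) (bt_n (bt_b bx5_8) (bt_b bx5_9)))))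
def S5 : StarD := StarD.mk cl7 cl6 cl5 3 1 t5
def G : List StarD := [S0, S1, S2, S3, S4, S5]
theorem so0 : StarOK sI G S0 :=
  star_mk (by decide) (by decide) rfl rfl rfl rfl rfl rfl (rfl : _ = t2) (rfl : _ = t4)
  (st_mk (Pth.l (Pth.l (Pth.l Pth.z))) (nat_lit 190557726) (nat_lit 191500668) (by decide +kernel))
  (st_mk (Pth.l (Pth.l (Pth.l Pth.z))) (nat_lit 227337439) (nat_lit 228690879) (by decide +kernel))
  (st_mk (Pth.l (Pth.l (Pth.l Pth.z))) (nat_lit 270216631) (nat_lit 272150924) (by decide +kernel)) sv0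
theorem so1 : StarOK sI G S1 :=
  star_mk (by decide) (by decide) rfl rfl rfl rfl rfl rfl (rfl : _ = t4) (rfl : _ = t2)
  (st_mk (Pth.l (Pth.l (Pth.l Pth.z))) (nat_lit 144850944) (nat_lit 165853655) (by decide +kernel))
  (st_mk (Pth.l (Pth.l (Pth.l Pth.z))) (nat_lit 179587520) (nat_lit 202907100) (by decide +kernel))
  (st_mk (Pth.l (Pth.l (Pth.l Pth.z))) (nat_lit 222312463) (nat_lit 246253826) (by decide +kernel)) sv1
theorem so2 : StarOK sI G S2 :=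
  star_mk (by decide) (by decide) rfl rfl rfl rfl rfl rfl (rfl : _ = t0) (rfl : _ = t5)
  (st_mk (Pth.l (Pth.l (Pth.l Pth.z))) (nat_lit 242892814) (nat_lit 243849962) (by decide +kernel))
  (st_mk (Pth.l (Pth.l (Pth.l Pth.z))) (nat_lit 279258460) (nat_lit 280529200) (by decide +kernel))
  (st_mk (Pth.l (Pth.l (Pth.l Pth.z))) (nat_lit 321486390) (nat_lit 323181021) (by decide +kernel)) sv2
theorem so3 : StarOK sI G S3 :=
  star_mk (by decide) (by decide) rfl rfl rfl rfl rfl rfl (rfl : _ = t5) (rfl : _ = t0)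
  (st_mk (Pth.l (Pth.l (Pth.l Pth.z))) (nat_lit 144015360) (nat_lit 164651228) (by decide +kernel))
  (st_mk (Pth.l (Pth.l (Pth.l Pth.z))) (nat_lit 178258159) (nat_lit 201080270) (by decide +kernel))
  (st_mk (Pth.l (Pth.l (Pth.l Pth.z))) (nat_lit 220268349) (nat_lit 243521687) (by decide +kernel)) sv3
theorem so4 : StarOK sI G S4 :=
  star_mk (by decide) (by decide) rfl rfl rfl rfl rfl rfl (rfl : _ = t1) (rfl : _ = t3)
  (st_mk (Pth.l (Pth.l (Pth.l Pth.z))) (nat_lit 240730432) (nat_lit 242743134) (by decide +kernel))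
  (st_mk (Pth.l (Pth.l (Pth.l Pth.z))) (nat_lit 276477126) (nat_lit 278968689) (by decide +kernel))
  (st_mk (Pth.l (Pth.l (Pth.l Pth.z))) (nat_lit 317336693) (nat_lit 321544691) (by decide +kernel)) sv4
theorem so5 : StarOK sI G S5 :=
  star_mk (by decide) (by decide) rfl rfl rfl rfl rfl rfl (rfl : _ = t3) (rfl : _ = t1)
  (st_mk (Pth.l (Pth.l (Pth.l Pth.z))) (nat_lit 187712952) (nat_lit 189286323) (by decide +kernel))
  (st_mk (Pth.l (Pth.l (Pth.l Pth.z))) (nat_lit 223386629) (nat_lit 225397823) (by decide +kernel))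
  (st_mk (Pth.l (Pth.l (Pth.l Pth.z))) (nat_lit 264720752) (nat_lit 267340138) (by decide +kernel)) sv5
theorem ok : GroupOK (nat_lit 91226112) (nat_lit 150339584) G := grp_mk (allS_c so0 (allS_c so1 (allS_c so2 (allS_c so3 (allS_c so4 (allS_c so5 allS_n))))))
theorem cov : GCov G cl5 cl6 cl7 := cov_mk
  ⟨0, by decide, rfl, rfl, rfl⟩ ⟨1, by decide, rfl, rfl, rfl⟩ ⟨2, by decide, rfl, rfl, rfl⟩ ⟨3, by decide, rfl, rfl, rfl⟩ ⟨4, by decide, rfl, rfl, rfl⟩ ⟨5, by decide, rfl, rfl, rfl⟩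
end Q234_1


end Pool.Agent.Helper6.MONO
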