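import Pool.Agent.Helper6.MONO.Cert.C49

/-!
Certificate data (generated).
-/

set_option autoImplicit false
set_option linter.all false
noncomputable section
namespace Pool.Agent.Helper6.MONO


namespace Q234_2
def sI : I := I.pos (nat_lit 150274048) (nat_lit 209387520)
def b0_0 : Bx := Bx.mk (St.mk (I.pos (nat_lit 152846336) (nat_lit 232685568)) (I.mix (nat_lit 3276800) (nat_lit 69287936)) (I.mix (nat_lit 4194304) (nat_lit 87883776)) (I.pos (nat_lit 184942592) (nat_lit 300810240)) (I.mix (nat_lit 132579328) (nat_lit 91373568)) (I.mix (nat_lit 85245952) (nat_lit 82690048)) (I.mix (nat_lit 122306560) (nat_lit 117112832)))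
  false (nat_lit 0)
def b0_1 : Bx := Bx.mk (St.mk (I.mix (nat_lit 29556736) (nat_lit 99663872)) (I.mix (nat_lit 3997696) (nat_lit 38240256)) (I.mix (nat_lit 19775488) (nat_lit 8241152)) (I.pos (nat_lit 82771968) (nat_lit 125075456)) (I.mix (nat_lit 35799040) (nat_lit 51150848)) (I.mix (nat_lit 38322176) (nat_lit 32145408)) (I.mix (nat_lit 25690112) (nat_lit 16334848)))
  false (nat_lit 0)
def b0_2 : Bx := Bx.mk (St.mk (I.pos (nat_lit 80592896) (nat_lit 121339904)) (I.mix (nat_lit 57212928) (nat_lit 5865472)) (I.neg (nat_lit 10534912) (nat_lit 58654720)) (I.pos (nat_lit 113213440) (nat_lit 145424384)) (I.mix (nat_lit 88686592) (nat_lit 32030720)) (I.mix (nat_lit 34848768) (nat_lit 73465856)) (I.mix (nat_lit 25067520) (nat_lit 50610176)))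
  false (nat_lit 0)
def b0_3 : Bx := Bx.mk (St.mk (I.mix (nat_lit 48955392) (nat_lit 27918336)) (I.mix (nat_lit 32964608) (nat_lit 3538944)) (I.neg (nat_lit 2015232) (nat_lit 15384576)) (I.pos (nat_lit 83279872) (nat_lit 101187584)) (I.mix (nat_lit 43302912) (nat_lit 23330816)) (I.mix (nat_lit 22953984) (nat_lit 32374784)) (I.mix (nat_lit 12320768) (nat_lit 7028736)))
  false (nat_lit 0)
def b0_4 : Bx := Bx.mk (St.mk (I.pos (nat_lit 191234048) (nat_lit 269467648)) (I.mix (nat_lit 7159808) (nat_lit 40173568)) (I.mix (nat_lit 63012864) (nat_lit 29540352)) (I.pos (nat_lit 254443520) (nat_lit 374931456)) (I.mix (nat_lit 95928320) (nat_lit 57098240)) (I.mix (nat_lit 63930368) (nat_lit 53264384)) (I.mix (nat_lit 92028928) (nat_lit 92356608)))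
  false (nat_lit 0)
def b0_5 : Bx := Bx.mk (St.mk (I.mix (nat_lit 50921472) (nat_lit 6815744)) (I.mix (nat_lit 2523136) (nat_lit 11206656)) (I.neg (nat_lit 10321920) (nat_lit 17580032)) (I.pos (nat_lit 88064000) (nat_lit 99631104)) (I.mix (nat_lit 6209536) (nat_lit 13598720)) (I.mix (nat_lit 6078464) (nat_lit 5259264)) (I.mix (nat_lit 2342912) (nat_lit 3145728)))
  false (nat_lit 0)
def b0_6 : Bx := Bx.mk (St.mk (I.pos (nat_lit 77987840) (nat_lit 93536256)) (I.mix (nat_lit 3293184) (nat_lit 14008320)) (I.neg (nat_lit 5636096) (nat_lit 19447808)) (I.pos (nat_lit 112738304) (nat_lit 123469824)) (I.mix (nat_lit 10223616) (nat_lit 12599296)) (I.mix (nat_lit 7192576) (nat_lit 5668864)) (I.mix (nat_lit 5505024) (nat_lit 4341760)))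
  false (nat_lit 0)
def b0_7 : Bx := Bx.mk (St.mk (I.pos (nat_lit 76890112) (nat_lit 164216832)) (I.neg (nat_lit 2523136) (nat_lit 61079552)) (I.neg (nat_lit 6979584) (nat_lit 62832640)) (I.pos (nat_lit 120537088) (nat_lit 193511424)) (I.mix (nat_lit 92815360) (nat_lit 55803904)) (I.mix (nat_lit 47824896) (nat_lit 69877760)) (I.mix (nat_lit 34652160) (nat_lit 61882368)))
  false (nat_lit 0)
def b0_8 : Bx := Bx.mk (St.mk (I.mix (nat_lit 36421632) (nat_lit 50069504)) (I.mix (nat_lit 33652736) (nat_lit 7438336)) (I.neg (nat_lit 2768896) (nat_lit 18677760)) (I.pos (nat_lit 82034688) (nat_lit 101875712)) (I.mix (nat_lit 34324480) (nat_lit 36225024)) (I.mix (nat_lit 24248320) (nat_lit 35635200)) (I.mix (nat_lit 10371072) (nat_lit 13893632)))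
  false (nat_lit 0)
def b0_9 : Bx := Bx.mk (St.mk (I.mix (nat_lit 53493760) (nat_lit 78413824)) (I.mix (nat_lit 10665984) (nat_lit 33669120)) (I.mix (nat_lit 18677760) (nat_lit 6406144)) (I.pos (nat_lit 82034688) (nat_lit 113262592)) (I.mix (nat_lit 42909696) (nat_lit 34324480)) (I.mix (nat_lit 40026112) (nat_lit 25395200)) (I.mix (nat_lit 14467072) (nat_lit 13893632)))
  false (nat_lit 0)
def b0_10 : Bx := Bx.mk (St.mk (I.pos (nat_lit 179486720) (nat_lit 234389504)) (I.pos (nat_lit 9273344) (nat_lit 67059712)) (I.mix (nat_lit 5521408) (nat_lit 80363520)) (I.pos (nat_lit 249626624) (nat_lit 298713088)) (I.mix (nat_lit 110477312) (nat_lit 90292224)) (I.mix (nat_lit 96862208) (nat_lit 69091328)) (I.mix (nat_lit 146735104) (nat_lit 88064000)))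
  false (nat_lit 0)
def b0_11 : Bx := Bx.mk (St.mk (I.pos (nat_lit 152502272) (nat_lit 214040576)) (I.mix (nat_lit 3440640) (nat_lit 63651840)) (I.pos (nat_lit 3063808) (nat_lit 79216640)) (I.pos (nat_lit 193773568) (nat_lit 264978432)) (I.mix (nat_lit 129679360) (nat_lit 48857088)) (I.mix (nat_lit 122290176) (nat_lit 67174400)) (I.mix (nat_lit 116064256) (nat_lit 63750144)))
  false (nat_lit 0)
def b0_12 : Bx := Bx.mk (St.mk (I.pos (nat_lit 128253952) (nat_lit 198754304)) (I.mix (nat_lit 41140224) (nat_lit 13844480)) (I.mix (nat_lit 47185920) (nat_lit 17121280)) (I.pos (nat_lit 161169408) (nat_lit 234209280)) (I.mix (nat_lit 74907648) (nat_lit 65912832)) (I.mix (nat_lit 71450624) (nat_lit 60948480)) (I.mix (nat_lit 70041600) (nat_lit 54509568)))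
  false (nat_lit 0)
def b0_13 : Bx := Bx.mk (St.mk (I.pos (nat_lit 157089792) (nat_lit 198131712)) (I.mix (nat_lit 8470528) (nat_lit 37371904)) (I.mix (nat_lit 6258688) (nat_lit 49971200)) (I.pos (nat_lit 196280320) (nat_lit 237240320)) (I.mix (nat_lit 128860160) (nat_lit 65748992)) (I.mix (nat_lit 134725632) (nat_lit 61390848)) (I.mix (nat_lit 132661248) (nat_lit 55934976)))
  false (nat_lit 0)
def t0 : BTr := (BTr.n (BTr.n (BTr.n (BTr.b b0_0) (BTr.n (BTr.b b0_1) (BTr.b b0_2))) (BTr.n (BTr.n (BTr.b b0_3) (BTr.b b0_4)) (BTr.n (BTr.b b0_5) (BTr.b b0_6)))) (BTr.n (BTr.n (BTr.b b0_7) (BTr.n (BTr.b b0_8) (BTr.b b0_9))) (BTr.n (BTr.n (BTr.b b0_10) (BTr.b b0_11)) (BTr.n (BTr.b b0_12) (BTr.b b0_13)))))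
namespace T0
def l0 : Tr := Tr.L (Pth.l (Pth.l (Pth.l Pth.z)))
def l1 : Tr := Tr.L (Pth.l (Pth.l (Pth.r (Pth.l Pth.z))))
def l2 : Tr := Tr.L (Pth.l (Pth.l (Pth.r (Pth.r Pth.z))))
def l3 : Tr := Tr.L (Pth.l (Pth.r (Pth.l (Pth.l Pth.z))))
def l4 : Tr := Tr.L (Pth.l (Pth.r (Pth.l (Pth.r Pth.z))))
def l5 : Tr := Tr.L (Pth.l (Pth.r (Pth.r (Pth.l Pth.z))))
def l6 : Tr := Tr.L (Pth.l (Pth.r (Pth.r (Pth.r Pth.z))))
def l7 : Tr := Tr.L (Pth.r (Pth.l (Pth.l Pth.z)))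
def l8 : Tr := Tr.L (Pth.r (Pth.l (Pth.r (Pth.l Pth.z))))
def l9 : Tr := Tr.L (Pth.r (Pth.l (Pth.r (Pth.r Pth.z))))
def l10 : Tr := Tr.L (Pth.r (Pth.r (Pth.l (Pth.l Pth.z))))
def l11 : Tr := Tr.L (Pth.r (Pth.r (Pth.l (Pth.r Pth.z))))
def l12 : Tr := Tr.L (Pth.r (Pth.r (Pth.r (Pth.l Pth.z))))
def l13 : Tr := Tr.L (Pth.r (Pth.r (Pth.r (Pth.r Pth.z))))
end T0
def b1_0 : Bx := Bx.mk (St.mk (I.pos (nat_lit 153419776) (nat_lit 234209280)) (I.mix (nat_lit 2916352) (nat_lit 60325888)) (I.mix (nat_lit 4308992) (nat_lit 91439104)) (I.pos (nat_lit 138903552) (nat_lit 272236544)) (I.mix (nat_lit 129548288) (nat_lit 74645504)) (I.mix (nat_lit 88260608) (nat_lit 74842112)) (I.mix (nat_lit 120520704) (nat_lit 105218048)))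
  false (nat_lit 0)
def b1_1 : Bx := Bx.mk (St.mk (I.mix (nat_lit 25280512) (nat_lit 119341056)) (I.mix (nat_lit 3620864) (nat_lit 35569664)) (I.mix (nat_lit 12779520) (nat_lit 18972672)) (I.pos (nat_lit 40583168) (nat_lit 115163136)) (I.mix (nat_lit 46514176) (nat_lit 42074112)) (I.mix (nat_lit 34766848) (nat_lit 31703040)) (I.mix (nat_lit 26165248) (nat_lit 21479424)))
  false (nat_lit 0)
def b1_2 : Bx := Bx.mk (St.mk (I.pos (nat_lit 93290496) (nat_lit 143687680)) (I.mix (nat_lit 60948480) (nat_lit 5783552)) (I.neg (nat_lit 1998848) (nat_lit 61734912)) (I.pos (nat_lit 78741504) (nat_lit 140361728)) (I.mix (nat_lit 108691456) (nat_lit 36732928)) (I.mix (nat_lit 47988736) (nat_lit 89948160)) (I.mix (nat_lit 33112064) (nat_lit 65470464)))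
  false (nat_lit 0)
def b1_3 : Bx := Bx.mk (St.mk (I.mix (nat_lit 36143104) (nat_lit 69943296)) (I.mix (nat_lit 30736384) (nat_lit 2113536)) (I.mix (nat_lit 18317312) (nat_lit 983040)) (I.pos (nat_lit 42549248) (nat_lit 81788928)) (I.mix (nat_lit 40550400) (nat_lit 20840448)) (I.mix (nat_lit 22872064) (nat_lit 31064064)) (I.mix (nat_lit 10878976) (nat_lit 12517376)))
  false (nat_lit 0)
def b1_4 : Bx := Bx.mk (St.mk (I.pos (nat_lit 191070208) (nat_lit 268058624)) (I.mix (nat_lit 8175616) (nat_lit 34979840)) (I.mix (nat_lit 42352640) (nat_lit 40861696)) (I.pos (nat_lit 214253568) (nat_lit 348356608)) (I.mix (nat_lit 94617600) (nat_lit 51838976)) (I.mix (nat_lit 62767104) (nat_lit 44859392)) (I.mix (nat_lit 94420992) (nat_lit 78004224)))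
  false (nat_lit 0)
def b1_5 : Bx := Bx.mk (St.mk (I.pos (nat_lit 95371264) (nat_lit 114900992)) (I.mix (nat_lit 2768896) (nat_lit 8749056)) (I.neg (nat_lit 917504) (nat_lit 12206080)) (I.pos (nat_lit 80019456) (nat_lit 114819072)) (I.mix (nat_lit 8863744) (nat_lit 11812864)) (I.mix (nat_lit 7061504) (nat_lit 4440064)) (I.mix (nat_lit 5996544) (nat_lit 3178496)))
  false (nat_lit 0)
def b1_6 : Bx := Bx.mk (St.mk (I.mix (nat_lit 36913152) (nat_lit 12484608)) (I.mix (nat_lit 16384) (nat_lit 5455872)) (I.neg (nat_lit 2670592) (nat_lit 7553024)) (I.pos (nat_lit 43843584) (nat_lit 69189632)) (I.mix (nat_lit 3801088) (nat_lit 5554176)) (I.mix (nat_lit 3047424) (nat_lit 3096576)) (I.mix (nat_lit 1163264) (nat_lit 1130496)))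
  false (nat_lit 0)
def b1_7 : Bx := Bx.mk (St.mk (I.pos (nat_lit 82608128) (nat_lit 175947776)) (I.mix (nat_lit 63422464) (nat_lit 2457600)) (I.neg (nat_lit 2785280) (nat_lit 63356928)) (I.pos (nat_lit 90226688) (nat_lit 183468032)) (I.mix (nat_lit 104742912) (nat_lit 57425920)) (I.mix (nat_lit 56344576) (nat_lit 74006528)) (I.mix (nat_lit 42434560) (nat_lit 65798144)))
  false (nat_lit 0)
def b1_8 : Bx := Bx.mk (St.mk (I.mix (nat_lit 25657344) (nat_lit 88391680)) (I.mix (nat_lit 32849920) (nat_lit 4456448)) (I.mix (nat_lit 21774336) (nat_lit 983040)) (I.pos (nat_lit 40681472) (nat_lit 92553216)) (I.mix (nat_lit 40517632) (nat_lit 31555584)) (I.mix (nat_lit 25870336) (nat_lit 31064064)) (I.mix (nat_lit 14548992) (nat_lit 17088512)))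
  false (nat_lit 0)
def b1_9 : Bx := Bx.mk (St.mk (I.pos (nat_lit 160432128) (nat_lit 213942272)) (I.mix (nat_lit 12926976) (nat_lit 61620224)) (I.pos (nat_lit 147456) (nat_lit 89735168)) (I.pos (nat_lit 150241280) (nat_lit 240746496)) (I.mix (nat_lit 141508608) (nat_lit 55705600)) (I.mix (nat_lit 130170880) (nat_lit 77987840)) (I.mix (nat_lit 136478720) (nat_lit 78659584)))
  false (nat_lit 0)
def b1_10 : Bx := Bx.mk (St.mk (I.mix (nat_lit 42139648) (nat_lit 110510080)) (I.mix (nat_lit 12779520) (nat_lit 39239680)) (I.mix (nat_lit 10338304) (nat_lit 22593536)) (I.pos (nat_lit 41009152) (nat_lit 107954176)) (I.mix (nat_lit 53444608) (nat_lit 31604736)) (I.mix (nat_lit 45056000) (nat_lit 32342016)) (I.mix (nat_lit 24625152) (nat_lit 19136512)))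
  false (nat_lit 0)
def b1_11 : Bx := Bx.mk (St.mk (I.pos (nat_lit 134496256) (nat_lit 204668928)) (I.mix (nat_lit 40009728) (nat_lit 11665408)) (I.mix (nat_lit 43089920) (nat_lit 22036480)) (I.pos (nat_lit 124583936) (nat_lit 217661440)) (I.mix (nat_lit 66076672) (nat_lit 57344000)) (I.mix (nat_lit 57688064) (nat_lit 51347456)) (I.mix (nat_lit 59473920) (nat_lit 52412416)))
  false (nat_lit 0)
def b1_12 : Bx := Bx.mk (St.mk (I.pos (nat_lit 160514048) (nat_lit 204374016)) (I.mix (nat_lit 15777792) (nat_lit 32866304)) (I.mix (nat_lit 6242304) (nat_lit 53116928)) (I.pos (nat_lit 154091520) (nat_lit 219889664)) (I.mix (nat_lit 116883456) (nat_lit 56180736)) (I.mix (nat_lit 122011648) (nat_lit 56229888)) (I.mix (nat_lit 129990656) (nat_lit 59047936)))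
  false (nat_lit 0)
def b1_13 : Bx := Bx.mk (St.mk (I.pos (nat_lit 183222272) (nat_lit 235438080)) (I.pos (nat_lit 7766016) (nat_lit 55623680)) (I.pos (nat_lit 5390336) (nat_lit 82362368)) (I.pos (nat_lit 209534976) (nat_lit 270467072)) (I.mix (nat_lit 99565568) (nat_lit 76087296)) (I.mix (nat_lit 84312064) (nat_lit 63307776)) (I.mix (nat_lit 133890048) (nat_lit 83656704)))
  false (nat_lit 0)
def t1 : BTr := (BTr.n (BTr.n (BTr.n (BTr.b b1_0) (BTr.n (BTr.b b1_1) (BTr.b b1_2))) (BTr.n (BTr.n (BTr.b b1_3) (BTr.b b1_4)) (BTr.n (BTr.b b1_5) (BTr.b b1_6)))) (BTr.n (BTr.n (BTr.b b1_7) (BTr.n (BTr.b b1_8) (BTr.b b1_9))) (BTr.n (BTr.n (BTr.b b1_10) (BTr.b b1_11)) (BTr.n (BTr.b b1_12) (BTr.b b1_13)))))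
namespace T1
def l0 : Tr := Tr.L (Pth.l (Pth.l (Pth.l Pth.z)))
def l1 : Tr := Tr.L (Pth.l (Pth.l (Pth.r (Pth.l Pth.z))))
def l2 : Tr := Tr.L (Pth.l (Pth.l (Pth.r (Pth.r Pth.z))))
def l3 : Tr := Tr.L (Pth.l (Pth.r (Pth.l (Pth.l Pth.z))))
def l4 : Tr := Tr.L (Pth.l (Pth.r (Pth.l (Pth.r Pth.z))))
def l5 : Tr := Tr.L (Pth.l (Pth.r (Pth.r (Pth.l Pth.z))))
def l6 : Tr := Tr.L (Pth.l (Pth.r (Pth.r (Pth.r Pth.z))))
def l7 : Tr := Tr.L (Pth.r (Pth.l (Pth.l Pth.z)))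
def l8 : Tr := Tr.L (Pth.r (Pth.l (Pth.r (Pth.l Pth.z))))
def l9 : Tr := Tr.L (Pth.r (Pth.l (Pth.r (Pth.r Pth.z))))
def l10 : Tr := Tr.L (Pth.r (Pth.r (Pth.l (Pth.l Pth.z))))
def l11 : Tr := Tr.L (Pth.r (Pth.r (Pth.l (Pth.r Pth.z))))
def l12 : Tr := Tr.L (Pth.r (Pth.r (Pth.r (Pth.l Pth.z))))
def l13 : Tr := Tr.L (Pth.r (Pth.r (Pth.r (Pth.r Pth.z))))
end T1
def b2_0 : Bx := Bx.mk (St.mk (I.pos (nat_lit 146685952) (nat_lit 226738176)) (I.mix (nat_lit 3670016) (nat_lit 77611008)) (I.mix (nat_lit 4653056) (nat_lit 97796096)) (I.pos (nat_lit 237699072) (nat_lit 343785472)) (I.mix (nat_lit 149241856) (nat_lit 88031232)) (I.mix (nat_lit 89325568) (nat_lit 85442560)) (I.mix (nat_lit 116686848) (nat_lit 118718464)))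
  false (nat_lit 41516295)
def b2_1 : Bx := Bx.mk (St.mk (I.pos (nat_lit 22380544) (nat_lit 75186176)) (I.mix (nat_lit 11075584) (nat_lit 45367296)) (I.mix (nat_lit 28164096) (nat_lit 1458176)) (I.pos (nat_lit 144572416) (nat_lit 164118528)) (I.mix (nat_lit 34586624) (nat_lit 56229888)) (I.mix (nat_lit 40910848) (nat_lit 36782080)) (I.mix (nat_lit 23085056) (nat_lit 14958592)))
  false (nat_lit 0)
def b2_2 : Bx := Bx.mk (St.mk (I.pos (nat_lit 48857088) (nat_lit 99057664)) (I.mix (nat_lit 61931520) (nat_lit 12058624)) (I.neg (nat_lit 13205504) (nat_lit 57327616)) (I.pos (nat_lit 149667840) (nat_lit 183025664)) (I.mix (nat_lit 97746944) (nat_lit 33996800)) (I.mix (nat_lit 44007424) (nat_lit 75087872)) (I.mix (nat_lit 33538048) (nat_lit 44744704)))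
  false (nat_lit 0)
def b2_3 : Bx := Bx.mk (St.mk (I.neg (nat_lit 22233088) (nat_lit 75530240)) (I.mix (nat_lit 45367296) (nat_lit 14270464)) (I.mix (nat_lit 29392896) (nat_lit 1556480)) (I.pos (nat_lit 144490496) (nat_lit 164118528)) (I.mix (nat_lit 56229888) (nat_lit 34586624)) (I.mix (nat_lit 36782080) (nat_lit 40910848)) (I.mix (nat_lit 23085056) (nat_lit 14958592)))
  true (nat_lit 0)
def b2_4 : Bx := Bx.mk (St.mk (I.pos (nat_lit 64995328) (nat_lit 154157056)) (I.neg (nat_lit 3031040) (nat_lit 71860224)) (I.neg (nat_lit 2424832) (nat_lit 66764800)) (I.pos (nat_lit 162643968) (nat_lit 235290624)) (I.mix (nat_lit 101203968) (nat_lit 63406080)) (I.mix (nat_lit 53116928) (nat_lit 75743232)) (I.mix (nat_lit 46366720) (nat_lit 65765376)))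
  false (nat_lit 0)
def b2_5 : Bx := Bx.mk (St.mk (I.mix (nat_lit 39059456) (nat_lit 9977856)) (I.mix (nat_lit 40878080) (nat_lit 10436608)) (I.neg (nat_lit 278528) (nat_lit 7208960)) (I.pos (nat_lit 141557760) (nat_lit 153239552)) (I.mix (nat_lit 32735232) (nat_lit 44843008)) (I.mix (nat_lit 27574272) (nat_lit 40681472)) (I.mix (nat_lit 5668864) (nat_lit 6586368)))
  true (nat_lit 0)
def b2_6 : Bx := Bx.mk (St.mk (I.pos (nat_lit 145555456) (nat_lit 198082560)) (I.pos (nat_lit 1540096) (nat_lit 65273856)) (I.pos (nat_lit 11829248) (nat_lit 85065728)) (I.pos (nat_lit 234733568) (nat_lit 299106304)) (I.mix (nat_lit 149028864) (nat_lit 52215808)) (I.mix (nat_lit 136806400) (nat_lit 73170944)) (I.mix (nat_lit 130400256) (nat_lit 78299136)))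
  false (nat_lit 0)
def b2_7 : Bx := Bx.mk (St.mk (I.mix (nat_lit 9912320) (nat_lit 39059456)) (I.mix (nat_lit 10436608) (nat_lit 40878080)) (I.neg (nat_lit 278528) (nat_lit 7208960)) (I.pos (nat_lit 141557760) (nat_lit 153239552)) (I.mix (nat_lit 44843008) (nat_lit 32735232)) (I.mix (nat_lit 40681472) (nat_lit 27574272)) (I.mix (nat_lit 5668864) (nat_lit 6586368)))
  false (nat_lit 0)
def b2_8 : Bx := Bx.mk (St.mk (I.pos (nat_lit 183926784) (nat_lit 286523392)) (I.mix (nat_lit 32112640) (nat_lit 46563328)) (I.mix (nat_lit 122781696) (nat_lit 38420480)) (I.pos (nat_lit 295288832) (nat_lit 459948032)) (I.mix (nat_lit 97173504) (nat_lit 53968896)) (I.mix (nat_lit 64421888) (nat_lit 50593792)) (I.mix (nat_lit 104284160) (nat_lit 98582528)))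
  false (nat_lit 0)
def b2_9 : Bx := Bx.mk (St.mk (I.pos (nat_lit 119242752) (nat_lit 191643648)) (I.mix (nat_lit 42041344) (nat_lit 22364160)) (I.mix (nat_lit 40026112) (nat_lit 31440896)) (I.pos (nat_lit 200294400) (nat_lit 279429120)) (I.mix (nat_lit 74334208) (nat_lit 69615616)) (I.mix (nat_lit 72220672) (nat_lit 64405504)) (I.mix (nat_lit 71024640) (nat_lit 61964288)))
  false (nat_lit 0)
def b2_10 : Bx := Bx.mk (St.mk (I.pos (nat_lit 145129472) (nat_lit 195149824)) (I.mix (nat_lit 9551872) (nat_lit 47628288)) (I.mix (nat_lit 3604480) (nat_lit 66093056)) (I.pos (nat_lit 234536960) (nat_lit 284475392)) (I.mix (nat_lit 134037504) (nat_lit 63717376)) (I.mix (nat_lit 132710400) (nat_lit 61898752)) (I.mix (nat_lit 129712128) (nat_lit 63651840)))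
  false (nat_lit 0)
def b2_11 : Bx := Bx.mk (St.mk (I.pos (nat_lit 167886848) (nat_lit 228245504)) (I.pos (nat_lit 12042240) (nat_lit 73302016)) (I.mix (nat_lit 1359872) (nat_lit 88948736)) (I.pos (nat_lit 283295744) (nat_lit 342491136)) (I.mix (nat_lit 115277824) (nat_lit 86540288)) (I.mix (nat_lit 97501184) (nat_lit 64569344)) (I.mix (nat_lit 147750912) (nat_lit 88965120)))
  false (nat_lit 8115347)
def t2 : BTr := (BTr.n (BTr.n (BTr.n (BTr.b b2_0) (BTr.n (BTr.b b2_1) (BTr.b b2_2))) (BTr.n (BTr.b b2_3) (BTr.n (BTr.b b2_4) (BTr.b b2_5)))) (BTr.n (BTr.n (BTr.b b2_6) (BTr.n (BTr.b b2_7) (BTr.b b2_8))) (BTr.n (BTr.b b2_9) (BTr.n (BTr.b b2_10) (BTr.b b2_11)))))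
namespace T2
def l0 : Tr := Tr.L (Pth.l (Pth.l (Pth.l Pth.z)))
def l1 : Tr := Tr.L (Pth.l (Pth.l (Pth.r (Pth.l Pth.z))))
def l2 : Tr := Tr.L (Pth.l (Pth.l (Pth.r (Pth.r Pth.z))))
def l3 : Tr := Tr.L (Pth.l (Pth.r (Pth.l Pth.z)))
def l4 : Tr := Tr.L (Pth.l (Pth.r (Pth.r (Pth.l Pth.z))))
def l5 : Tr := Tr.L (Pth.l (Pth.r (Pth.r (Pth.r Pth.z))))
def l6 : Tr := Tr.L (Pth.r (Pth.l (Pth.l Pth.z)))
def l7 : Tr := Tr.L (Pth.r (Pth.l (Pth.r (Pth.l Pth.z))))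
def l8 : Tr := Tr.L (Pth.r (Pth.l (Pth.r (Pth.r Pth.z))))
def l9 : Tr := Tr.L (Pth.r (Pth.r (Pth.l Pth.z)))
def l10 : Tr := Tr.L (Pth.r (Pth.r (Pth.r (Pth.l Pth.z))))
def l11 : Tr := Tr.L (Pth.r (Pth.r (Pth.r (Pth.r Pth.z))))
end T2
def b3_0 : Bx := Bx.mk (St.mk (I.pos (nat_lit 148586496) (nat_lit 233603072)) (I.mix (nat_lit 2719744) (nat_lit 55246848)) (I.mix (nat_lit 4898816) (nat_lit 100188160)) (I.pos (nat_lit 138313728) (nat_lit 264798208)) (I.mix (nat_lit 129482752) (nat_lit 77873152)) (I.mix (nat_lit 93388800) (nat_lit 76972032)) (I.mix (nat_lit 126779392) (nat_lit 102727680)))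
  false (nat_lit 30886764)
def b3_1 : Bx := Bx.mk (St.mk (I.pos (nat_lit 87932928) (nat_lit 171048960)) (I.neg (nat_lit 1654784) (nat_lit 63750144)) (I.neg (nat_lit 573440) (nat_lit 55672832)) (I.pos (nat_lit 94584832) (nat_lit 174751744)) (I.mix (nat_lit 99336192) (nat_lit 55164928)) (I.mix (nat_lit 52854784) (nat_lit 67469312)) (I.mix (nat_lit 42844160) (nat_lit 56049664)))
  false (nat_lit 0)
def b3_2 : Bx := Bx.mk (St.mk (I.mix (nat_lit 23314432) (nat_lit 86196224)) (I.mix (nat_lit 32407552) (nat_lit 2506752)) (I.mix (nat_lit 15630336) (nat_lit 5734400)) (I.pos (nat_lit 41041920) (nat_lit 90882048)) (I.mix (nat_lit 35782656) (nat_lit 31637504)) (I.mix (nat_lit 24494080) (nat_lit 27328512)) (I.mix (nat_lit 12926976) (nat_lit 15040512)))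
  false (nat_lit 0)
def b3_3 : Bx := Bx.mk (St.mk (I.pos (nat_lit 158547968) (nat_lit 210731008)) (I.mix (nat_lit 13549568) (nat_lit 59736064)) (I.pos (nat_lit 9011200) (nat_lit 101154816)) (I.pos (nat_lit 144211968) (nat_lit 231456768)) (I.mix (nat_lit 151191552) (nat_lit 56901632)) (I.mix (nat_lit 136888320) (nat_lit 78315520)) (I.mix (nat_lit 148570112) (nat_lit 72744960)))
  false (nat_lit 6461760)
def b3_4 : Bx := Bx.mk (St.mk (I.mix (nat_lit 40140800) (nat_lit 108199936)) (I.mix (nat_lit 10174464) (nat_lit 39550976)) (I.mix (nat_lit 4751360) (nat_lit 29868032)) (I.pos (nat_lit 41205760) (nat_lit 106561536)) (I.mix (nat_lit 60309504) (nat_lit 27361280)) (I.mix (nat_lit 46956544) (nat_lit 30818304)) (I.mix (nat_lit 26296320) (nat_lit 19152896)))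
  false (nat_lit 0)
def b3_5 : Bx := Bx.mk (St.mk (I.pos (nat_lit 147537920) (nat_lit 203423744)) (I.mix (nat_lit 34111488) (nat_lit 12271616)) (I.mix (nat_lit 21348352) (nat_lit 37945344)) (I.pos (nat_lit 133906432) (nat_lit 214745088)) (I.mix (nat_lit 63193088) (nat_lit 67960832)) (I.mix (nat_lit 66977792) (nat_lit 60735488)) (I.mix (nat_lit 65568768) (nat_lit 62144512)))
  false (nat_lit 17422167)
def b3_6 : Bx := Bx.mk (St.mk (I.pos (nat_lit 144883712) (nat_lit 169508864)) (I.neg (nat_lit 12353536) (nat_lit 38469632)) (I.neg (nat_lit 753664) (nat_lit 29114368)) (I.pos (nat_lit 132120576) (nat_lit 174653440)) (I.mix (nat_lit 27787264) (nat_lit 16039936)) (I.mix (nat_lit 11075584) (nat_lit 14286848)) (I.mix (nat_lit 10354688) (nat_lit 13697024)))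
  false (nat_lit 0)
def b3_7 : Bx := Bx.mk (St.mk (I.mix (nat_lit 41664512) (nat_lit 94273536)) (I.mix (nat_lit 12337152) (nat_lit 3637248)) (I.mix (nat_lit 3751936) (nat_lit 5455872)) (I.pos (nat_lit 42745856) (nat_lit 91258880)) (I.mix (nat_lit 7012352) (nat_lit 10534912)) (I.mix (nat_lit 3981312) (nat_lit 5652480)) (I.mix (nat_lit 1818624) (nat_lit 3162112)))
  false (nat_lit 0)
def b3_8 : Bx := Bx.mk (St.mk (I.mix (nat_lit 27951104) (nat_lit 120848384)) (I.mix (nat_lit 9994240) (nat_lit 33636352)) (I.mix (nat_lit 10125312) (nat_lit 26263552)) (I.pos (nat_lit 40501248) (nat_lit 117473280)) (I.mix (nat_lit 45268992) (nat_lit 40239104)) (I.mix (nat_lit 38191104) (nat_lit 32456704)) (I.mix (nat_lit 28213248) (nat_lit 23805952)))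
  false (nat_lit 0)
def b3_9 : Bx := Bx.mk (St.mk (I.pos (nat_lit 91127808) (nat_lit 147668992)) (I.mix (nat_lit 63045632) (nat_lit 11927552)) (I.mix (nat_lit 53985280) (nat_lit 9060352)) (I.pos (nat_lit 77414400) (nat_lit 145063936)) (I.mix (nat_lit 100614144) (nat_lit 36306944)) (I.mix (nat_lit 45285376) (nat_lit 82526208)) (I.mix (nat_lit 32243712) (nat_lit 57032704)))
  false (nat_lit 0)
def b3_10 : Bx := Bx.mk (St.mk (I.mix (nat_lit 40075264) (nat_lit 72581120)) (I.mix (nat_lit 28934144) (nat_lit 7094272)) (I.mix (nat_lit 12517376) (nat_lit 5177344)) (I.pos (nat_lit 42532864) (nat_lit 83197952)) (I.mix (nat_lit 37535744) (nat_lit 23609344)) (I.mix (nat_lit 23707648) (nat_lit 30490624)) (I.mix (nat_lit 10059776) (nat_lit 11370496)))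
  false (nat_lit 0)
def b3_11 : Bx := Bx.mk (St.mk (I.pos (nat_lit 190644224) (nat_lit 284983296)) (I.mix (nat_lit 29196288) (nat_lit 38158336)) (I.mix (nat_lit 64569344) (nat_lit 71450624)) (I.pos (nat_lit 209207296) (nat_lit 378241024)) (I.mix (nat_lit 84885504) (nat_lit 47874048)) (I.mix (nat_lit 57491456) (nat_lit 47202304)) (I.mix (nat_lit 92553216) (nat_lit 79331328)))
  false (nat_lit 0)
def b3_12 : Bx := Bx.mk (St.mk (I.pos (nat_lit 175849472) (nat_lit 231882752)) (I.pos (nat_lit 14270464) (nat_lit 55197696)) (I.pos (nat_lit 31473664) (nat_lit 99516416)) (I.pos (nat_lit 195264512) (nat_lit 260358144)) (I.mix (nat_lit 105742336) (nat_lit 84230144)) (I.mix (nat_lit 94126080) (nat_lit 70877184)) (I.mix (nat_lit 144424960) (nat_lit 87621632)))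
  false (nat_lit 21813186)
def b3_13 : Bx := Bx.mk (St.mk (I.pos (nat_lit 158597120) (nat_lit 205176832)) (I.mix (nat_lit 21544960) (nat_lit 31227904)) (I.mix (nat_lit 131072) (nat_lit 65372160)) (I.pos (nat_lit 144506880) (nat_lit 216514560)) (I.mix (nat_lit 114884608) (nat_lit 59621376)) (I.mix (nat_lit 119848960) (nat_lit 60456960)) (I.mix (nat_lit 128729088) (nat_lit 59621376)))
  false (nat_lit 5003922)
def t3 : BTr := (BTr.n (BTr.n (BTr.n (BTr.b b3_0) (BTr.n (BTr.b b3_1) (BTr.b b3_2))) (BTr.n (BTr.n (BTr.b b3_3) (BTr.b b3_4)) (BTr.n (BTr.b b3_5) (BTr.b b3_6)))) (BTr.n (BTr.n (BTr.b b3_7) (BTr.n (BTr.b b3_8) (BTr.b b3_9))) (BTr.n (BTr.n (BTr.b b3_10) (BTr.b b3_11)) (BTr.n (BTr.b b3_12) (BTr.b b3_13)))))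
namespace T3
def l0 : Tr := Tr.L (Pth.l (Pth.l (Pth.l Pth.z)))
def l1 : Tr := Tr.L (Pth.l (Pth.l (Pth.r (Pth.l Pth.z))))
def l2 : Tr := Tr.L (Pth.l (Pth.l (Pth.r (Pth.r Pth.z))))
def l3 : Tr := Tr.L (Pth.l (Pth.r (Pth.l (Pth.l Pth.z))))
def l4 : Tr := Tr.L (Pth.l (Pth.r (Pth.l (Pth.r Pth.z))))
def l5 : Tr := Tr.L (Pth.l (Pth.r (Pth.r (Pth.l Pth.z))))
def l6 : Tr := Tr.L (Pth.l (Pth.r (Pth.r (Pth.r Pth.z))))
def l7 : Tr := Tr.L (Pth.r (Pth.l (Pth.l Pth.z)))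
def l8 : Tr := Tr.L (Pth.r (Pth.l (Pth.r (Pth.l Pth.z))))
def l9 : Tr := Tr.L (Pth.r (Pth.l (Pth.r (Pth.r Pth.z))))
def l10 : Tr := Tr.L (Pth.r (Pth.r (Pth.l (Pth.l Pth.z))))
def l11 : Tr := Tr.L (Pth.r (Pth.r (Pth.l (Pth.r Pth.z))))
def l12 : Tr := Tr.L (Pth.r (Pth.r (Pth.r (Pth.l Pth.z))))
def l13 : Tr := Tr.L (Pth.r (Pth.r (Pth.r (Pth.r Pth.z))))
end T3
def b4_0 : Bx := Bx.mk (St.mk (I.pos (nat_lit 141312000) (nat_lit 224935936)) (I.mix (nat_lit 3522560) (nat_lit 69632000)) (I.mix (nat_lit 5341184) (nat_lit 103366656)) (I.pos (nat_lit 235749376) (nat_lit 335642624)) (I.mix (nat_lit 138035200) (nat_lit 88588288)) (I.mix (nat_lit 87408640) (nat_lit 79167488)) (I.mix (nat_lit 120111104) (nat_lit 108347392)))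
  false (nat_lit 64859963)
def b4_1 : Bx := Bx.mk (St.mk (I.pos (nat_lit 70090752) (nat_lit 156336128)) (I.neg (nat_lit 6651904) (nat_lit 72728576)) (I.mix (nat_lit 57360384) (nat_lit 8634368)) (I.pos (nat_lit 167133184) (nat_lit 235372544)) (I.mix (nat_lit 98566144) (nat_lit 64094208)) (I.mix (nat_lit 57131008) (nat_lit 63127552)) (I.mix (nat_lit 49512448) (nat_lit 54460416)))
  false (nat_lit 0)
def b4_2 : Bx := Bx.mk (St.mk (I.mix (nat_lit 35749888) (nat_lit 11354112)) (I.mix (nat_lit 40697856) (nat_lit 9666560)) (I.pos (nat_lit 802816) (nat_lit 7634944)) (I.pos (nat_lit 141656064) (nat_lit 152043520)) (I.mix (nat_lit 27082752) (nat_lit 47398912)) (I.mix (nat_lit 29261824) (nat_lit 36356096)) (I.mix (nat_lit 4767744) (nat_lit 7241728)))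
  true (nat_lit 0)
def b4_3 : Bx := Bx.mk (St.mk (I.pos (nat_lit 143687680) (nat_lit 194052096)) (I.pos (nat_lit 720896) (nat_lit 64782336)) (I.pos (nat_lit 22626304) (nat_lit 98762752)) (I.pos (nat_lit 227819520) (nat_lit 290619392)) (I.mix (nat_lit 144146432) (nat_lit 49692672)) (I.mix (nat_lit 127467520) (nat_lit 73007104)) (I.mix (nat_lit 124583936) (nat_lit 79659008)))
  false (nat_lit 26144192)
def b4_4 : Bx := Bx.mk (St.mk (I.mix (nat_lit 11354112) (nat_lit 35749888)) (I.mix (nat_lit 11845632) (nat_lit 40812544)) (I.pos (nat_lit 802816) (nat_lit 7634944)) (I.pos (nat_lit 141656064) (nat_lit 152043520)) (I.mix (nat_lit 47398912) (nat_lit 27082752)) (I.mix (nat_lit 36356096) (nat_lit 29261824)) (I.mix (nat_lit 4767744) (nat_lit 7241728)))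
  false (nat_lit 0)
def b4_5 : Bx := Bx.mk (St.mk (I.pos (nat_lit 18415616) (nat_lit 75218944)) (I.mix (nat_lit 11452416) (nat_lit 45006848)) (I.mix (nat_lit 19775488) (nat_lit 9764864)) (I.pos (nat_lit 143507456) (nat_lit 164855808)) (I.mix (nat_lit 37961728) (nat_lit 51855360)) (I.mix (nat_lit 44843008) (nat_lit 34291712)) (I.mix (nat_lit 24625152) (nat_lit 15712256)))
  false (nat_lit 0)
def b4_6 : Bx := Bx.mk (St.mk (I.pos (nat_lit 48300032) (nat_lit 102924288)) (I.mix (nat_lit 63504384) (nat_lit 11632640)) (I.neg (nat_lit 5554176) (nat_lit 48824320)) (I.pos (nat_lit 150257664) (nat_lit 186613760)) (I.mix (nat_lit 92438528) (nat_lit 40075264)) (I.mix (nat_lit 40845312) (nat_lit 77807616)) (I.mix (nat_lit 31670272) (nat_lit 44449792)))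
  false (nat_lit 0)
def b4_7 : Bx := Bx.mk (St.mk (I.neg (nat_lit 18415616) (nat_lit 75218944)) (I.mix (nat_lit 45006848) (nat_lit 11911168)) (I.mix (nat_lit 19759104) (nat_lit 9764864)) (I.pos (nat_lit 143507456) (nat_lit 164855808)) (I.mix (nat_lit 51855360) (nat_lit 37961728)) (I.mix (nat_lit 34291712) (nat_lit 44843008)) (I.mix (nat_lit 24625152) (nat_lit 15712256)))
  true (nat_lit 0)
def b4_8 : Bx := Bx.mk (St.mk (I.pos (nat_lit 118702080) (nat_lit 188301312)) (I.mix (nat_lit 39583744) (nat_lit 16662528)) (I.mix (nat_lit 24346624) (nat_lit 39600128)) (I.pos (nat_lit 201359360) (nat_lit 270876672)) (I.mix (nat_lit 64962560) (nat_lit 65929216)) (I.mix (nat_lit 62160896) (nat_lit 59031552)) (I.mix (nat_lit 57950208) (nat_lit 56705024)))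
  false (nat_lit 0)
def b4_9 : Bx := Bx.mk (St.mk (I.pos (nat_lit 180977664) (nat_lit 292290560)) (I.mix (nat_lit 28835840) (nat_lit 51757056)) (I.mix (nat_lit 90832896) (nat_lit 66256896)) (I.pos (nat_lit 289882112) (nat_lit 465240064)) (I.mix (nat_lit 97763328) (nat_lit 72974336)) (I.mix (nat_lit 73646080) (nat_lit 53788672)) (I.mix (nat_lit 125288448) (nat_lit 86261760)))
  false (nat_lit 51392055)
def b4_10 : Bx := Bx.mk (St.mk (I.pos (nat_lit 161579008) (nat_lit 227508224)) (I.pos (nat_lit 11665408) (nat_lit 72138752)) (I.pos (nat_lit 13811712) (nat_lit 104923136)) (I.pos (nat_lit 272728064) (nat_lit 333217792)) (I.mix (nat_lit 129122304) (nat_lit 103809024)) (I.mix (nat_lit 108806144) (nat_lit 84066304)) (I.mix (nat_lit 156614656) (nat_lit 105332736)))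
  false (nat_lit 65202446)
def b4_11 : Bx := Bx.mk (St.mk (I.pos (nat_lit 142311424) (nat_lit 190955520)) (I.mix (nat_lit 10354688) (nat_lit 42991616)) (I.pos (nat_lit 8798208) (nat_lit 74317824)) (I.pos (nat_lit 226803712) (nat_lit 277692416)) (I.mix (nat_lit 125452288) (nat_lit 63766528)) (I.mix (nat_lit 121831424) (nat_lit 63848448)) (I.mix (nat_lit 120045568) (nat_lit 62963712)))
  false (nat_lit 0)
def t4 : BTr := (BTr.n (BTr.n (BTr.n (BTr.b b4_0) (BTr.n (BTr.b b4_1) (BTr.b b4_2))) (BTr.n (BTr.b b4_3) (BTr.n (BTr.b b4_4) (BTr.b b4_5)))) (BTr.n (BTr.n (BTr.b b4_6) (BTr.n (BTr.b b4_7) (BTr.b b4_8))) (BTr.n (BTr.b b4_9) (BTr.n (BTr.b b4_10) (BTr.b b4_11)))))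
namespace T4
def l0 : Tr := Tr.L (Pth.l (Pth.l (Pth.l Pth.z)))
def l1 : Tr := Tr.L (Pth.l (Pth.l (Pth.r (Pth.l Pth.z))))
def l2 : Tr := Tr.L (Pth.l (Pth.l (Pth.r (Pth.r Pth.z))))
def l3 : Tr := Tr.L (Pth.l (Pth.r (Pth.l Pth.z)))
def l4 : Tr := Tr.L (Pth.l (Pth.r (Pth.r (Pth.l Pth.z))))
def l5 : Tr := Tr.L (Pth.l (Pth.r (Pth.r (Pth.r Pth.z))))
def l6 : Tr := Tr.L (Pth.r (Pth.l (Pth.l Pth.z)))
def l7 : Tr := Tr.L (Pth.r (Pth.l (Pth.r (Pth.l Pth.z))))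
def l8 : Tr := Tr.L (Pth.r (Pth.l (Pth.r (Pth.r Pth.z))))
def l9 : Tr := Tr.L (Pth.r (Pth.r (Pth.l Pth.z)))
def l10 : Tr := Tr.L (Pth.r (Pth.r (Pth.r (Pth.l Pth.z))))
def l11 : Tr := Tr.L (Pth.r (Pth.r (Pth.r (Pth.r Pth.z))))
end T4
def b5_0 : Bx := Bx.mk (St.mk (I.pos (nat_lit 141328384) (nat_lit 228737024)) (I.mix (nat_lit 2949120) (nat_lit 59588608)) (I.mix (nat_lit 5406720) (nat_lit 106037248)) (I.pos (nat_lit 182616064) (nat_lit 283836416)) (I.mix (nat_lit 132677632) (nat_lit 80871424)) (I.mix (nat_lit 93011968) (nat_lit 78462976)) (I.mix (nat_lit 126648320) (nat_lit 101384192)))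
  false (nat_lit 44991820)
def b5_1 : Bx := Bx.mk (St.mk (I.pos (nat_lit 87457792) (nat_lit 159105024)) (I.neg (nat_lit 9912320) (nat_lit 63258624)) (I.mix (nat_lit 46956544) (nat_lit 4341760)) (I.pos (nat_lit 130154496) (nat_lit 185843712)) (I.mix (nat_lit 83034112) (nat_lit 56049664)) (I.mix (nat_lit 46415872) (nat_lit 53444608)) (I.mix (nat_lit 38912000) (nat_lit 47611904)))
  false (nat_lit 0)
def b5_2 : Bx := Bx.mk (St.mk (I.mix (nat_lit 29589504) (nat_lit 46727168)) (I.mix (nat_lit 33292288) (nat_lit 1835008)) (I.mix (nat_lit 5292032) (nat_lit 8208384)) (I.pos (nat_lit 83738624) (nat_lit 100990976)) (I.mix (nat_lit 25198592) (nat_lit 39452672)) (I.mix (nat_lit 23379968) (nat_lit 30162944)) (I.mix (nat_lit 7094272) (nat_lit 11075584)))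
  false (nat_lit 0)
def b5_3 : Bx := Bx.mk (St.mk (I.pos (nat_lit 148701184) (nat_lit 206077952)) (I.mix (nat_lit 5439488) (nat_lit 59195392)) (I.pos (nat_lit 24133632) (nat_lit 100384768)) (I.pos (nat_lit 178995200) (nat_lit 247365632)) (I.mix (nat_lit 139673600) (nat_lit 50102272)) (I.mix (nat_lit 128286720) (nat_lit 66371584)) (I.mix (nat_lit 124928000) (nat_lit 59834368)))
  false (nat_lit 22942773)
def b5_4 : Bx := Bx.mk (St.mk (I.mix (nat_lit 51789824) (nat_lit 73269248)) (I.mix (nat_lit 7110656) (nat_lit 35749888)) (I.mix (nat_lit 5734400) (nat_lit 19660800)) (I.pos (nat_lit 83738624) (nat_lit 109953024)) (I.mix (nat_lit 50249728) (nat_lit 23117824)) (I.mix (nat_lit 36716544) (nat_lit 24051712)) (I.mix (nat_lit 13500416) (nat_lit 11730944)))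
  false (nat_lit 0)
def b5_5 : Bx := Bx.mk (St.mk (I.pos (nat_lit 142966784) (nat_lit 194183168)) (I.mix (nat_lit 30638080) (nat_lit 8978432)) (I.mix (nat_lit 8617984) (nat_lit 38961152)) (I.pos (nat_lit 169295872) (nat_lit 224198656)) (I.mix (nat_lit 62734336) (nat_lit 66469888)) (I.mix (nat_lit 61423616) (nat_lit 59195392)) (I.mix (nat_lit 55541760) (nat_lit 56213504)))
  false (nat_lit 0)
def b5_6 : Bx := Bx.mk (St.mk (I.mix (nat_lit 53952512) (nat_lit 50692096)) (I.mix (nat_lit 10731520) (nat_lit 5996544)) (I.pos (nat_lit 1966080) (nat_lit 10305536)) (I.pos (nat_lit 88358912) (nat_lit 100155392)) (I.mix (nat_lit 9388032) (nat_lit 14696448)) (I.mix (nat_lit 8060928) (nat_lit 9322496)) (I.mix (nat_lit 3080192) (nat_lit 3358720)))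
  false (nat_lit 0)
def b5_7 : Bx := Bx.mk (St.mk (I.pos (nat_lit 140591104) (nat_lit 159219712)) (I.neg (nat_lit 16728064) (nat_lit 36225024)) (I.mix (nat_lit 18579456) (nat_lit 3112960)) (I.pos (nat_lit 169508864) (nat_lit 186777600)) (I.mix (nat_lit 27607040) (nat_lit 21905408)) (I.mix (nat_lit 15433728) (nat_lit 18268160)) (I.mix (nat_lit 14893056) (nat_lit 18251776)))
  false (nat_lit 0)
def b5_8 : Bx := Bx.mk (St.mk (I.mix (nat_lit 34652160) (nat_lit 102400000)) (I.mix (nat_lit 9928704) (nat_lit 37699584)) (I.mix (nat_lit 9011200) (nat_lit 24215552)) (I.pos (nat_lit 80199680) (nat_lit 126779392)) (I.mix (nat_lit 45481984) (nat_lit 44892160)) (I.mix (nat_lit 43794432) (nat_lit 31080448)) (I.mix (nat_lit 28262400) (nat_lit 19857408)))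
  false (nat_lit 0)
def b5_9 : Bx := Bx.mk (St.mk (I.pos (nat_lit 77103104) (nat_lit 128794624)) (I.mix (nat_lit 61882368) (nat_lit 9584640)) (I.mix (nat_lit 44449792) (nat_lit 5963776)) (I.pos (nat_lit 113229824) (nat_lit 153042944)) (I.mix (nat_lit 79888384) (nat_lit 33259520)) (I.mix (nat_lit 36208640) (nat_lit 71729152)) (I.mix (nat_lit 26820608) (nat_lit 47185920)))
  false (nat_lit 0)
def b5_10 : Bx := Bx.mk (St.mk (I.mix (nat_lit 50446336) (nat_lit 34177024)) (I.mix (nat_lit 33210368) (nat_lit 6832128)) (I.mix (nat_lit 4292608) (nat_lit 10338304)) (I.pos (nat_lit 83099648) (nat_lit 101433344)) (I.mix (nat_lit 37027840) (nat_lit 28540928)) (I.mix (nat_lit 22806528) (nat_lit 33554432)) (I.mix (nat_lit 12763136) (nat_lit 8585216)))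
  false (nat_lit 0)
def b5_11 : Bx := Bx.mk (St.mk (I.pos (nat_lit 154861568) (nat_lit 194887680)) (I.mix (nat_lit 15253504) (nat_lit 28966912)) (I.pos (nat_lit 11059200) (nat_lit 66551808)) (I.pos (nat_lit 184270848) (nat_lit 227426304)) (I.mix (nat_lit 113819648) (nat_lit 58589184)) (I.mix (nat_lit 117178368) (nat_lit 59195392)) (I.mix (nat_lit 118521856) (nat_lit 55656448)))
  false (nat_lit 0)
def b5_12 : Bx := Bx.mk (St.mk (I.pos (nat_lit 180830208) (nat_lit 289226752)) (I.mix (nat_lit 27639808) (nat_lit 45383680)) (I.mix (nat_lit 59736064) (nat_lit 83197952)) (I.pos (nat_lit 235814912) (nat_lit 407306240)) (I.mix (nat_lit 91176960) (nat_lit 64946176)) (I.mix (nat_lit 68517888) (nat_lit 45957120)) (I.mix (nat_lit 116031488) (nat_lit 76169216)))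
  false (nat_lit 27561588)
def b5_13 : Bx := Bx.mk (St.mk (I.pos (nat_lit 167837696) (nat_lit 227393536)) (I.pos (nat_lit 15745024) (nat_lit 61095936)) (I.pos (nat_lit 34930688) (nat_lit 107610112)) (I.pos (nat_lit 223641600) (nat_lit 279953408)) (I.mix (nat_lit 121257984) (nat_lit 102219776)) (I.mix (nat_lit 109363200) (nat_lit 85344256)) (I.mix (nat_lit 161316864) (nat_lit 101367808)))
  false (nat_lit 40589771)
def t5 : BTr := (BTr.n (BTr.n (BTr.n (BTr.b b5_0) (BTr.n (BTr.b b5_1) (BTr.b b5_2))) (BTr.n (BTr.n (BTr.b b5_3) (BTr.b b5_4)) (BTr.n (BTr.b b5_5) (BTr.b b5_6)))) (BTr.n (BTr.n (BTr.b b5_7) (BTr.n (BTr.b b5_8) (BTr.b b5_9))) (BTr.n (BTr.n (BTr.b b5_10) (BTr.b b5_11)) (BTr.n (BTr.b b5_12) (BTr.b b5_13)))))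
namespace T5
def l0 : Tr := Tr.L (Pth.l (Pth.l (Pth.l Pth.z)))
def l1 : Tr := Tr.L (Pth.l (Pth.l (Pth.r (Pth.l Pth.z))))
def l2 : Tr := Tr.L (Pth.l (Pth.l (Pth.r (Pth.r Pth.z))))
def l3 : Tr := Tr.L (Pth.l (Pth.r (Pth.l (Pth.l Pth.z))))
def l4 : Tr := Tr.L (Pth.l (Pth.r (Pth.l (Pth.r Pth.z))))
def l5 : Tr := Tr.L (Pth.l (Pth.r (Pth.r (Pth.l Pth.z))))
def l6 : Tr := Tr.L (Pth.l (Pth.r (Pth.r (Pth.r Pth.z))))
def l7 : Tr := Tr.L (Pth.r (Pth.l (Pth.l Pth.z)))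
def l8 : Tr := Tr.L (Pth.r (Pth.l (Pth.r (Pth.l Pth.z))))
def l9 : Tr := Tr.L (Pth.r (Pth.l (Pth.r (Pth.r Pth.z))))
def l10 : Tr := Tr.L (Pth.r (Pth.r (Pth.l (Pth.l Pth.z))))
def l11 : Tr := Tr.L (Pth.r (Pth.r (Pth.l (Pth.r Pth.z))))
def l12 : Tr := Tr.L (Pth.r (Pth.r (Pth.r (Pth.l Pth.z))))
def l13 : Tr := Tr.L (Pth.r (Pth.r (Pth.r (Pth.r Pth.z))))
end T5
theorem bx0_0 : BoxOK sI cl5 cl6 cl7 t2 t4 b0_0 :=
  box_mk (TrL.c (I.pos (nat_lit 0) (nat_lit 0)) (xa (xb T2.l0 (xa T2.l0 T2.l0)) (xb T2.l0 T2.l0))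
  (TrL.c (I.pos (nat_lit 0) (nat_lit 0)) T4.l1
  (TrL.c (I.pos (nat_lit 0) (nat_lit 0)) T2.l1
  (TrL.c (I.pos (nat_lit 0) (nat_lit 0)) T4.l2
  (TrL.c (I.pos (nat_lit 0) (nat_lit 0)) (xa T4.l3 (xb T4.l3 T4.l3))
  (TrL.c (I.pos (nat_lit 0) (nat_lit 0)) T2.l2
  (TrL.c (I.pos (nat_lit 0) (nat_lit 0)) T4.l4
  (TrL.c (I.pos (nat_lit 0) (nat_lit 0)) T2.l3
  TrL.n)))))))) (by decide +kernel)
theorem bx0_1 : BoxOK sI cl5 cl6 cl7 t2 t4 b0_1 :=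
  box_mk (TrL.c (I.pos (nat_lit 0) (nat_lit 0)) (xa (xa (xb T2.l8 T2.l8) T2.l8) (xa T2.l8 T2.l8))
  (TrL.c (I.pos (nat_lit 0) (nat_lit 0)) T4.l1
  (TrL.c (I.pos (nat_lit 0) (nat_lit 0)) T2.l1
  (TrL.c (I.pos (nat_lit 0) (nat_lit 0)) T4.l2
  (TrL.c (I.pos (nat_lit 0) (nat_lit 0)) T4.l8
  (TrL.c (I.pos (nat_lit 0) (nat_lit 0)) T2.l2
  (TrL.c (I.pos (nat_lit 0) (nat_lit 0)) T4.l4
  (TrL.c (I.pos (nat_lit 0) (nat_lit 0)) T2.l3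
  TrL.n)))))))) (by decide +kernel)
theorem bx0_2 : BoxOK sI cl5 cl6 cl7 t2 t4 b0_2 :=
  box_mk (TrL.c (I.pos (nat_lit 0) (nat_lit 0)) (xb T2.l8 T2.l8)
  (TrL.c (I.pos (nat_lit 0) (nat_lit 0)) T4.l1
  (TrL.c (I.pos (nat_lit 0) (nat_lit 0)) T2.l1
  (TrL.c (I.pos (nat_lit 0) (nat_lit 0)) T4.l2
  (TrL.c (I.pos (nat_lit 0) (nat_lit 0)) T4.l8
  (TrL.c (I.pos (nat_lit 0) (nat_lit 0)) T2.l2
  (TrL.c (I.pos (nat_lit 0) (nat_lit 0)) T4.l4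
  (TrL.c (I.pos (nat_lit 0) (nat_lit 0)) T2.l3
  TrL.n)))))))) (by decide +kernel)
theorem bx0_3 : BoxOK sI cl5 cl6 cl7 t2 t4 b0_3 :=
  box_mk (TrL.c (I.pos (nat_lit 0) (nat_lit 0)) (xa (xb (xa T2.l8 T2.l8) T2.l8) T2.l8)
  (TrL.c (I.pos (nat_lit 0) (nat_lit 0)) T4.l8
  (TrL.c (I.pos (nat_lit 0) (nat_lit 0)) T2.l2
  (TrL.c (I.pos (nat_lit 0) (nat_lit 0)) T4.l4
  (TrL.c (I.pos (nat_lit 0) (nat_lit 0)) T4.l1
  (TrL.c (I.pos (nat_lit 0) (nat_lit 0)) T2.l1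
  (TrL.c (I.pos (nat_lit 0) (nat_lit 0)) T4.l4
  (TrL.c (I.pos (nat_lit 0) (nat_lit 0)) T2.l3
  TrL.n)))))))) (by decide +kernel)
theorem bx0_4 : BoxOK sI cl5 cl6 cl7 t2 t4 b0_4 :=
  box_mk (TrL.c (I.pos (nat_lit 0) (nat_lit 0)) (xa T2.l0 T2.l0)
  (TrL.c (I.pos (nat_lit 0) (nat_lit 0)) T4.l1
  (TrL.c (I.pos (nat_lit 0) (nat_lit 0)) T2.l1
  (TrL.c (I.pos (nat_lit 0) (nat_lit 0)) T4.l2
  (TrL.c (I.pos (nat_lit 0) (nat_lit 0)) (xa T4.l3 T4.l3)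
  (TrL.c (I.pos (nat_lit 0) (nat_lit 0)) T2.l2
  (TrL.c (I.pos (nat_lit 0) (nat_lit 0)) T4.l4
  (TrL.c (I.pos (nat_lit 0) (nat_lit 0)) T2.l3
  TrL.n)))))))) (by decide +kernel)
theorem bx0_5 : BoxOK sI cl5 cl6 cl7 t2 t4 b0_5 :=
  box_mk (TrL.c (I.pos (nat_lit 0) (nat_lit 0)) T2.l8
  (TrL.c (I.pos (nat_lit 0) (nat_lit 0)) T4.l1
  (TrL.c (I.pos (nat_lit 0) (nat_lit 0)) T2.l1
  (TrL.c (I.pos (nat_lit 0) (nat_lit 0)) T4.l2
  (TrL.c (I.pos (nat_lit 0) (nat_lit 0)) T4.l8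
  (TrL.c (I.pos (nat_lit 0) (nat_lit 0)) T2.l2
  (TrL.c (I.pos (nat_lit 0) (nat_lit 0)) T4.l4
  (TrL.c (I.pos (nat_lit 0) (nat_lit 0)) T2.l3
  TrL.n)))))))) (by decide +kernel)
theorem bx0_6 : BoxOK sI cl5 cl6 cl7 t2 t4 b0_6 :=
  box_mk (TrL.c (I.pos (nat_lit 0) (nat_lit 0)) T2.l8
  (TrL.c (I.pos (nat_lit 0) (nat_lit 0)) T4.l1
  (TrL.c (I.pos (nat_lit 0) (nat_lit 0)) T2.l1
  (TrL.c (I.pos (nat_lit 0) (nat_lit 0)) T4.l2
  (TrL.c (I.pos (nat_lit 0) (nat_lit 0)) T4.l8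
  (TrL.c (I.pos (nat_lit 0) (nat_lit 0)) T2.l2
  (TrL.c (I.pos (nat_lit 0) (nat_lit 0)) T4.l4
  (TrL.c (I.pos (nat_lit 0) (nat_lit 0)) T2.l3
  TrL.n)))))))) (by decide +kernel)
theorem bx0_7 : BoxOK sI cl5 cl6 cl7 t2 t4 b0_7 :=
  box_mk (TrL.c (I.pos (nat_lit 0) (nat_lit 0)) (xa (xb T2.l8 T2.l8) T2.l8)
  (TrL.c (I.pos (nat_lit 0) (nat_lit 0)) T4.l1
  (TrL.c (I.pos (nat_lit 0) (nat_lit 0)) T2.l1
  (TrL.c (I.pos (nat_lit 0) (nat_lit 0)) T4.l2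
  (TrL.c (I.pos (nat_lit 0) (nat_lit 0)) T4.l8
  (TrL.c (I.pos (nat_lit 0) (nat_lit 0)) T2.l2
  (TrL.c (I.pos (nat_lit 0) (nat_lit 0)) T4.l4
  (TrL.c (I.pos (nat_lit 0) (nat_lit 0)) T2.l3
  TrL.n)))))))) (by decide +kernel)
theorem bx0_8 : BoxOK sI cl5 cl6 cl7 t2 t4 b0_8 :=
  box_mk (TrL.c (I.pos (nat_lit 0) (nat_lit 0)) (xa (xb (xa T2.l8 T2.l8) T2.l8) T2.l8)
  (TrL.c (I.pos (nat_lit 0) (nat_lit 0)) T4.l8
  (TrL.c (I.pos (nat_lit 0) (nat_lit 0)) T2.l1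
  (TrL.c (I.pos (nat_lit 0) (nat_lit 0)) T4.l2
  (TrL.c (I.pos (nat_lit 0) (nat_lit 0)) T4.l1
  (TrL.c (I.pos (nat_lit 0) (nat_lit 0)) T2.l2
  (TrL.c (I.pos (nat_lit 0) (nat_lit 0)) T4.l4
  (TrL.c (I.pos (nat_lit 0) (nat_lit 0)) T2.l3
  TrL.n)))))))) (by decide +kernel)
theorem bx0_9 : BoxOK sI cl5 cl6 cl7 t2 t4 b0_9 :=
  box_mk (TrL.c (I.pos (nat_lit 0) (nat_lit 0)) (xa (xa (xb T2.l8 (xa T2.l8 T2.l8)) T2.l8) (xa T2.l8 T2.l8))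
  (TrL.c (I.pos (nat_lit 0) (nat_lit 0)) T4.l1
  (TrL.c (I.pos (nat_lit 0) (nat_lit 0)) T2.l1
  (TrL.c (I.pos (nat_lit 0) (nat_lit 0)) T4.l2
  (TrL.c (I.pos (nat_lit 0) (nat_lit 0)) T4.l8
  (TrL.c (I.pos (nat_lit 0) (nat_lit 0)) T2.l2
  (TrL.c (I.pos (nat_lit 0) (nat_lit 0)) T4.l4
  (TrL.c (I.pos (nat_lit 0) (nat_lit 0)) T2.l3
  TrL.n)))))))) (by decide +kernel)
theorem bx0_10 : BoxOK sI cl5 cl6 cl7 t2 t4 b0_10 :=
  box_mk (TrL.c (I.pos (nat_lit 0) (nat_lit 0)) (xa (xb T2.l0 T2.l0) T2.l0)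
  (TrL.c (I.pos (nat_lit 0) (nat_lit 0)) T4.l1
  (TrL.c (I.pos (nat_lit 0) (nat_lit 0)) T2.l1
  (TrL.c (I.pos (nat_lit 0) (nat_lit 0)) T4.l2
  (TrL.c (I.pos (nat_lit 0) (nat_lit 0)) (xb T4.l3 T4.l3)
  (TrL.c (I.pos (nat_lit 0) (nat_lit 0)) T2.l2
  (TrL.c (I.pos (nat_lit 0) (nat_lit 0)) T4.l4
  (TrL.c (I.pos (nat_lit 0) (nat_lit 0)) T2.l3
  TrL.n)))))))) (by decide +kernel)
theorem bx0_11 : BoxOK sI cl5 cl6 cl7 t2 t4 b0_11 :=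
  box_mk (TrL.c (I.pos (nat_lit 0) (nat_lit 0)) (xa (xb T2.l11 T2.l11) (xb T2.l11 T2.l11))
  (TrL.c (I.pos (nat_lit 0) (nat_lit 0)) T4.l1
  (TrL.c (I.pos (nat_lit 0) (nat_lit 0)) T2.l1
  (TrL.c (I.pos (nat_lit 0) (nat_lit 0)) T4.l2
  (TrL.c (I.pos (nat_lit 0) (nat_lit 0)) (xb T4.l11 T4.l11)
  (TrL.c (I.pos (nat_lit 0) (nat_lit 0)) T2.l2
  (TrL.c (I.pos (nat_lit 0) (nat_lit 0)) T4.l4
  (TrL.c (I.pos (nat_lit 0) (nat_lit 0)) T2.l3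
  TrL.n)))))))) (by decide +kernel)
theorem bx0_12 : BoxOK sI cl5 cl6 cl7 t2 t4 b0_12 :=
  box_mk (TrL.c (I.pos (nat_lit 0) (nat_lit 0)) (xa T2.l11 T2.l11)
  (TrL.c (I.pos (nat_lit 0) (nat_lit 0)) T4.l1
  (TrL.c (I.pos (nat_lit 0) (nat_lit 0)) T2.l1
  (TrL.c (I.pos (nat_lit 0) (nat_lit 0)) T4.l2
  (TrL.c (I.pos (nat_lit 0) (nat_lit 0)) T4.l11
  (TrL.c (I.pos (nat_lit 0) (nat_lit 0)) T2.l2
  (TrL.c (I.pos (nat_lit 0) (nat_lit 0)) T4.l4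
  (TrL.c (I.pos (nat_lit 0) (nat_lit 0)) T2.l3
  TrL.n)))))))) (by decide +kernel)
theorem bx0_13 : BoxOK sI cl5 cl6 cl7 t2 t4 b0_13 :=
  box_mk (TrL.c (I.pos (nat_lit 0) (nat_lit 0)) T2.l11
  (TrL.c (I.pos (nat_lit 0) (nat_lit 0)) T4.l1
  (TrL.c (I.pos (nat_lit 0) (nat_lit 0)) T2.l1
  (TrL.c (I.pos (nat_lit 0) (nat_lit 0)) T4.l2
  (TrL.c (I.pos (nat_lit 0) (nat_lit 0)) T4.l11
  (TrL.c (I.pos (nat_lit 0) (nat_lit 0)) T2.l2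
  (TrL.c (I.pos (nat_lit 0) (nat_lit 0)) T4.l4
  (TrL.c (I.pos (nat_lit 0) (nat_lit 0)) T2.l3
  TrL.n)))))))) (by decide +kernel)
theorem sv0 : StarV sI cl5 cl6 cl7 t2 t4 t0 :=
  (bt_n (bt_n (bt_n (bt_b bx0_0) (bt_n (bt_b bx0_1) (bt_b bx0_2))) (bt_n (bt_n (bt_b bx0_3) (bt_b bx0_4)) (bt_n (bt_b bx0_5) (bt_b bx0_6)))) (bt_n (bt_n (bt_b bx0_7) (bt_n (bt_b bx0_8) (bt_b bx0_9))) (bt_n (bt_n (bt_b bx0_10) (bt_b bx0_11)) (bt_n (bt_b bx0_12) (bt_b bx0_13)))))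
def S0 : StarD := StarD.mk cl5 cl6 cl7 2 4 t0
theorem bx1_0 : BoxOK sI cl5 cl7 cl6 t4 t2 b1_0 :=
  box_mk (TrL.c (I.pos (nat_lit 0) (nat_lit 0)) (xa (xb T4.l10 (xa T4.l0 T4.l0)) (xb T4.l0 (xa T4.l0 T4.l0)))
  (TrL.c (I.pos (nat_lit 0) (nat_lit 0)) T2.l4
  (TrL.c (I.pos (nat_lit 0) (nat_lit 0)) T4.l5
  (TrL.c (I.pos (nat_lit 0) (nat_lit 0)) T2.l5
  (TrL.c (I.pos (nat_lit 0) (nat_lit 0)) (xa T2.l6 T2.l6)
  (TrL.c (I.pos (nat_lit 0) (nat_lit 0)) T4.l6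
  (TrL.c (I.pos (nat_lit 0) (nat_lit 0)) T2.l7
  (TrL.c (I.pos (nat_lit 0) (nat_lit 0)) T4.l7
  TrL.n)))))))) (by decide +kernel)
theorem bx1_1 : BoxOK sI cl5 cl7 cl6 t4 t2 b1_1 :=
  box_mk (TrL.c (I.pos (nat_lit 0) (nat_lit 0)) (xa (xa T4.l9 T4.l9) (xa T4.l9 T4.l9))
  (TrL.c (I.pos (nat_lit 0) (nat_lit 0)) T2.l4
  (TrL.c (I.pos (nat_lit 0) (nat_lit 0)) T4.l5
  (TrL.c (I.pos (nat_lit 0) (nat_lit 0)) T2.l5
  (TrL.c (I.pos (nat_lit 0) (nat_lit 0)) T2.l9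
  (TrL.c (I.pos (nat_lit 0) (nat_lit 0)) T4.l6
  (TrL.c (I.pos (nat_lit 0) (nat_lit 0)) T2.l7
  (TrL.c (I.pos (nat_lit 0) (nat_lit 0)) T4.l7
  TrL.n)))))))) (by decide +kernel)
theorem bx1_2 : BoxOK sI cl5 cl7 cl6 t4 t2 b1_2 :=
  box_mk (TrL.c (I.pos (nat_lit 0) (nat_lit 0)) (xb T4.l9 T4.l9)
  (TrL.c (I.pos (nat_lit 0) (nat_lit 0)) T2.l4
  (TrL.c (I.pos (nat_lit 0) (nat_lit 0)) T4.l5
  (TrL.c (I.pos (nat_lit 0) (nat_lit 0)) T2.l5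
  (TrL.c (I.pos (nat_lit 0) (nat_lit 0)) T2.l9
  (TrL.c (I.pos (nat_lit 0) (nat_lit 0)) T4.l6
  (TrL.c (I.pos (nat_lit 0) (nat_lit 0)) T2.l7
  (TrL.c (I.pos (nat_lit 0) (nat_lit 0)) T4.l7
  TrL.n)))))))) (by decide +kernel)
theorem bx1_3 : BoxOK sI cl5 cl7 cl6 t4 t2 b1_3 :=
  box_mk (TrL.c (I.pos (nat_lit 0) (nat_lit 0)) (xa (xa (xb T4.l9 T4.l9) T4.l9) T4.l9)
  (TrL.c (I.pos (nat_lit 0) (nat_lit 0)) T2.l4
  (TrL.c (I.pos (nat_lit 0) (nat_lit 0)) T4.l5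
  (TrL.c (I.pos (nat_lit 0) (nat_lit 0)) T2.l5
  (TrL.c (I.pos (nat_lit 0) (nat_lit 0)) T2.l9
  (TrL.c (I.pos (nat_lit 0) (nat_lit 0)) T4.l6
  (TrL.c (I.pos (nat_lit 0) (nat_lit 0)) T2.l7
  (TrL.c (I.pos (nat_lit 0) (nat_lit 0)) T4.l7
  TrL.n)))))))) (by decide +kernel)
theorem bx1_4 : BoxOK sI cl5 cl7 cl6 t4 t2 b1_4 :=
  box_mk (TrL.c (I.pos (nat_lit 0) (nat_lit 0)) (xa T4.l0 T4.l0)
  (TrL.c (I.pos (nat_lit 0) (nat_lit 0)) T2.l4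
  (TrL.c (I.pos (nat_lit 0) (nat_lit 0)) T4.l5
  (TrL.c (I.pos (nat_lit 0) (nat_lit 0)) T2.l5
  (TrL.c (I.pos (nat_lit 0) (nat_lit 0)) (xa T2.l6 T2.l6)
  (TrL.c (I.pos (nat_lit 0) (nat_lit 0)) T4.l6
  (TrL.c (I.pos (nat_lit 0) (nat_lit 0)) T2.l7
  (TrL.c (I.pos (nat_lit 0) (nat_lit 0)) T4.l7
  TrL.n)))))))) (by decide +kernel)
theorem bx1_5 : BoxOK sI cl5 cl7 cl6 t4 t2 b1_5 :=
  box_mk (TrL.c (I.pos (nat_lit 0) (nat_lit 0)) T4.l9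
  (TrL.c (I.pos (nat_lit 0) (nat_lit 0)) T2.l4
  (TrL.c (I.pos (nat_lit 0) (nat_lit 0)) T4.l5
  (TrL.c (I.pos (nat_lit 0) (nat_lit 0)) T2.l5
  (TrL.c (I.pos (nat_lit 0) (nat_lit 0)) T2.l9
  (TrL.c (I.pos (nat_lit 0) (nat_lit 0)) T4.l6
  (TrL.c (I.pos (nat_lit 0) (nat_lit 0)) T2.l7
  (TrL.c (I.pos (nat_lit 0) (nat_lit 0)) T4.l7
  TrL.n)))))))) (by decide +kernel)
theorem bx1_6 : BoxOK sI cl5 cl7 cl6 t4 t2 b1_6 :=
  box_mk (TrL.c (I.pos (nat_lit 0) (nat_lit 0)) T4.l9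
  (TrL.c (I.pos (nat_lit 0) (nat_lit 0)) T2.l4
  (TrL.c (I.pos (nat_lit 0) (nat_lit 0)) T4.l5
  (TrL.c (I.pos (nat_lit 0) (nat_lit 0)) T2.l5
  (TrL.c (I.pos (nat_lit 0) (nat_lit 0)) T2.l9
  (TrL.c (I.pos (nat_lit 0) (nat_lit 0)) T4.l6
  (TrL.c (I.pos (nat_lit 0) (nat_lit 0)) T2.l7
  (TrL.c (I.pos (nat_lit 0) (nat_lit 0)) T4.l7
  TrL.n)))))))) (by decide +kernel)
theorem bx1_7 : BoxOK sI cl5 cl7 cl6 t4 t2 b1_7 :=
  box_mk (TrL.c (I.pos (nat_lit 0) (nat_lit 0)) (xa (xb T4.l9 T4.l9) (xb T4.l0 T4.l9))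
  (TrL.c (I.pos (nat_lit 0) (nat_lit 0)) T2.l4
  (TrL.c (I.pos (nat_lit 0) (nat_lit 0)) T4.l5
  (TrL.c (I.pos (nat_lit 0) (nat_lit 0)) T2.l5
  (TrL.c (I.pos (nat_lit 0) (nat_lit 0)) (xa T2.l9 T2.l9)
  (TrL.c (I.pos (nat_lit 0) (nat_lit 0)) T4.l6
  (TrL.c (I.pos (nat_lit 0) (nat_lit 0)) T2.l7
  (TrL.c (I.pos (nat_lit 0) (nat_lit 0)) T4.l7
  TrL.n)))))))) (by decide +kernel)
theorem bx1_8 : BoxOK sI cl5 cl7 cl6 t4 t2 b1_8 :=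
  box_mk (TrL.c (I.pos (nat_lit 0) (nat_lit 0)) (xa T4.l9 T4.l9)
  (TrL.c (I.pos (nat_lit 0) (nat_lit 0)) T2.l4
  (TrL.c (I.pos (nat_lit 0) (nat_lit 0)) T4.l5
  (TrL.c (I.pos (nat_lit 0) (nat_lit 0)) T2.l5
  (TrL.c (I.pos (nat_lit 0) (nat_lit 0)) T2.l9
  (TrL.c (I.pos (nat_lit 0) (nat_lit 0)) T4.l6
  (TrL.c (I.pos (nat_lit 0) (nat_lit 0)) T2.l7
  (TrL.c (I.pos (nat_lit 0) (nat_lit 0)) T4.l7
  TrL.n)))))))) (by decide +kernel)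
theorem bx1_9 : BoxOK sI cl5 cl7 cl6 t4 t2 b1_9 :=
  box_mk (TrL.c (I.pos (nat_lit 0) (nat_lit 0)) (xb (xa T4.l10 T4.l10) (xa T4.l10 T4.l10))
  (TrL.c (I.pos (nat_lit 0) (nat_lit 0)) T2.l4
  (TrL.c (I.pos (nat_lit 0) (nat_lit 0)) T4.l5
  (TrL.c (I.pos (nat_lit 0) (nat_lit 0)) T2.l5
  (TrL.c (I.pos (nat_lit 0) (nat_lit 0)) (xb T2.l10 T2.l10)
  (TrL.c (I.pos (nat_lit 0) (nat_lit 0)) T4.l6
  (TrL.c (I.pos (nat_lit 0) (nat_lit 0)) T2.l7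
  (TrL.c (I.pos (nat_lit 0) (nat_lit 0)) T4.l7
  TrL.n)))))))) (by decide +kernel)
theorem bx1_10 : BoxOK sI cl5 cl7 cl6 t4 t2 b1_10 :=
  box_mk (TrL.c (I.pos (nat_lit 0) (nat_lit 0)) (xa (xa (xb T4.l9 (xa T4.l9 T4.l9)) T4.l9) (xa T4.l9 (xb T4.l9 T4.l9)))
  (TrL.c (I.pos (nat_lit 0) (nat_lit 0)) T2.l4
  (TrL.c (I.pos (nat_lit 0) (nat_lit 0)) T4.l5
  (TrL.c (I.pos (nat_lit 0) (nat_lit 0)) T2.l5
  (TrL.c (I.pos (nat_lit 0) (nat_lit 0)) (xa T2.l9 T2.l9)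
  (TrL.c (I.pos (nat_lit 0) (nat_lit 0)) T4.l6
  (TrL.c (I.pos (nat_lit 0) (nat_lit 0)) T2.l7
  (TrL.c (I.pos (nat_lit 0) (nat_lit 0)) T4.l7
  TrL.n)))))))) (by decide +kernel)
theorem bx1_11 : BoxOK sI cl5 cl7 cl6 t4 t2 b1_11 :=
  box_mk (TrL.c (I.pos (nat_lit 0) (nat_lit 0)) (xa T4.l10 T4.l10)
  (TrL.c (I.pos (nat_lit 0) (nat_lit 0)) T2.l4
  (TrL.c (I.pos (nat_lit 0) (nat_lit 0)) T4.l5
  (TrL.c (I.pos (nat_lit 0) (nat_lit 0)) T2.l5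
  (TrL.c (I.pos (nat_lit 0) (nat_lit 0)) T2.l10
  (TrL.c (I.pos (nat_lit 0) (nat_lit 0)) T4.l6
  (TrL.c (I.pos (nat_lit 0) (nat_lit 0)) T2.l7
  (TrL.c (I.pos (nat_lit 0) (nat_lit 0)) T4.l7
  TrL.n)))))))) (by decide +kernel)
theorem bx1_12 : BoxOK sI cl5 cl7 cl6 t4 t2 b1_12 :=
  box_mk (TrL.c (I.pos (nat_lit 0) (nat_lit 0)) T4.l10
  (TrL.c (I.pos (nat_lit 0) (nat_lit 0)) T2.l4
  (TrL.c (I.pos (nat_lit 0) (nat_lit 0)) T4.l5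
  (TrL.c (I.pos (nat_lit 0) (nat_lit 0)) T2.l5
  (TrL.c (I.pos (nat_lit 0) (nat_lit 0)) T2.l10
  (TrL.c (I.pos (nat_lit 0) (nat_lit 0)) T4.l6
  (TrL.c (I.pos (nat_lit 0) (nat_lit 0)) T2.l7
  (TrL.c (I.pos (nat_lit 0) (nat_lit 0)) T4.l7
  TrL.n)))))))) (by decide +kernel)
theorem bx1_13 : BoxOK sI cl5 cl7 cl6 t4 t2 b1_13 :=
  box_mk (TrL.c (I.pos (nat_lit 0) (nat_lit 0)) (xa T4.l0 T4.l0)
  (TrL.c (I.pos (nat_lit 0) (nat_lit 0)) T2.l4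
  (TrL.c (I.pos (nat_lit 0) (nat_lit 0)) T4.l5
  (TrL.c (I.pos (nat_lit 0) (nat_lit 0)) T2.l5
  (TrL.c (I.pos (nat_lit 0) (nat_lit 0)) T2.l6
  (TrL.c (I.pos (nat_lit 0) (nat_lit 0)) T4.l6
  (TrL.c (I.pos (nat_lit 0) (nat_lit 0)) T2.l7
  (TrL.c (I.pos (nat_lit 0) (nat_lit 0)) T4.l7
  TrL.n)))))))) (by decide +kernel)
theorem sv1 : StarV sI cl5 cl7 cl6 t4 t2 t1 :=
  (bt_n (bt_n (bt_n (bt_b bx1_0) (bt_n (bt_b bx1_1) (bt_b bx1_2))) (bt_n (bt_n (bt_b bx1_3) (bt_b bx1_4)) (bt_n (bt_b bx1_5) (bt_b bx1_6)))) (bt_n (bt_n (bt_b bx1_7) (bt_n (bt_b bx1_8) (bt_b bx1_9))) (bt_n (bt_n (bt_b bx1_10) (bt_b bx1_11)) (bt_n (bt_b bx1_12) (bt_b bx1_13)))))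
def S1 : StarD := StarD.mk cl5 cl7 cl6 4 2 t1
theorem bx2_0 : BoxOK sI cl6 cl5 cl7 t0 t5 b2_0 :=
  box_mk (TrL.c (I.pos (nat_lit 0) (nat_lit 0)) (xa (xb T0.l0 T0.l0) (xb T0.l0 T0.l0))
  (TrL.c (I.pos (nat_lit 0) (nat_lit 0)) T5.l1
  (TrL.c (I.pos (nat_lit 0) (nat_lit 89480386)) (xR T0.l1 T0.l1)
  (TrL.c (I.pos (nat_lit 0) (nat_lit 41530880)) T5.l2
  (TrL.c (I.pos (nat_lit 0) (nat_lit 0)) (xb T5.l3 T5.l3)
  (TrL.c (I.pos (nat_lit 0) (nat_lit 0)) T0.l2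
  (TrL.c (I.mix (nat_lit 41527258) (nat_lit 41530880)) (xR T5.l4 T5.l4)
  (TrL.c (I.mix (nat_lit 41527258) (nat_lit 4274)) T0.l3
  TrL.n)))))))) (by decide +kernel)
theorem bx2_1 : BoxOK sI cl6 cl5 cl7 t0 t5 b2_1 :=
  box_mk (TrL.c (I.pos (nat_lit 0) (nat_lit 0)) (xb T0.l4 T0.l4)
  (TrL.c (I.pos (nat_lit 0) (nat_lit 0)) T5.l1
  (TrL.c (I.pos (nat_lit 0) (nat_lit 89480386)) T0.l1
  (TrL.c (I.pos (nat_lit 0) (nat_lit 41530880)) T5.l2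
  (TrL.c (I.pos (nat_lit 0) (nat_lit 0)) T5.l5
  (TrL.c (I.pos (nat_lit 0) (nat_lit 0)) T0.l2
  (TrL.c (I.mix (nat_lit 41527258) (nat_lit 41530880)) T5.l4
  (TrL.c (I.mix (nat_lit 41527258) (nat_lit 4274)) T0.l3
  TrL.n)))))))) (by decide +kernel)
theorem bx2_2 : BoxOK sI cl6 cl5 cl7 t0 t5 b2_2 :=
  box_mk (TrL.c (I.pos (nat_lit 0) (nat_lit 0)) (xb T0.l4 T0.l4)
  (TrL.c (I.pos (nat_lit 0) (nat_lit 0)) T5.l1
  (TrL.c (I.pos (nat_lit 0) (nat_lit 89480386)) (xR T0.l1 T0.l1)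
  (TrL.c (I.pos (nat_lit 0) (nat_lit 41530880)) T5.l2
  (TrL.c (I.pos (nat_lit 0) (nat_lit 0)) T5.l5
  (TrL.c (I.pos (nat_lit 0) (nat_lit 0)) T0.l2
  (TrL.c (I.mix (nat_lit 41527258) (nat_lit 41530880)) T5.l4
  (TrL.c (I.mix (nat_lit 41527258) (nat_lit 4274)) T0.l3
  TrL.n)))))))) (by decide +kernel)
theorem bx2_3 : BoxOK sI cl6 cl5 cl7 t0 t5 b2_3 :=
  box_mk (TrL.c (I.pos (nat_lit 0) (nat_lit 0)) T5.l1
  (TrL.c (I.pos (nat_lit 0) (nat_lit 0)) T0.l1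
  (TrL.c (I.mix (nat_lit 41527258) (nat_lit 41530880)) (xR T5.l10 T5.l2)
  (TrL.c (I.mix (nat_lit 41527258) (nat_lit 4274)) T0.l9
  TrL.n)))) (by decide +kernel)
theorem bx2_4 : BoxOK sI cl6 cl5 cl7 t0 t5 b2_4 :=
  box_mk (TrL.c (I.pos (nat_lit 0) (nat_lit 0)) (xa (xb T0.l4 T0.l4) T0.l4)
  (TrL.c (I.pos (nat_lit 0) (nat_lit 0)) T5.l1
  (TrL.c (I.pos (nat_lit 0) (nat_lit 89480386)) (xR T0.l1 T0.l1)
  (TrL.c (I.pos (nat_lit 0) (nat_lit 41530880)) T5.l2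
  (TrL.c (I.pos (nat_lit 0) (nat_lit 0)) T5.l5
  (TrL.c (I.pos (nat_lit 0) (nat_lit 0)) T0.l2
  (TrL.c (I.mix (nat_lit 41527258) (nat_lit 41530880)) (xR T5.l4 T5.l8)
  (TrL.c (I.mix (nat_lit 41527258) (nat_lit 4274)) T0.l3
  TrL.n)))))))) (by decide +kernel)
theorem bx2_5 : BoxOK sI cl6 cl5 cl7 t0 t5 b2_5 :=
  box_mk (TrL.c (I.pos (nat_lit 0) (nat_lit 0)) T5.l7
  (TrL.c (I.pos (nat_lit 0) (nat_lit 0)) T0.l1
  (TrL.c (I.mix (nat_lit 41527258) (nat_lit 41530880)) T5.l6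
  (TrL.c (I.mix (nat_lit 41527258) (nat_lit 4274)) T0.l9
  TrL.n)))) (by decide +kernel)
theorem bx2_6 : BoxOK sI cl6 cl5 cl7 t0 t5 b2_6 :=
  box_mk (TrL.c (I.pos (nat_lit 0) (nat_lit 0)) (xb T0.l10 T0.l10)
  (TrL.c (I.pos (nat_lit 0) (nat_lit 0)) T5.l1
  (TrL.c (I.pos (nat_lit 0) (nat_lit 89480386)) (xR T0.l1 T0.l1)
  (TrL.c (I.pos (nat_lit 0) (nat_lit 41530880)) T5.l2
  (TrL.c (I.pos (nat_lit 0) (nat_lit 0)) T5.l11
  (TrL.c (I.pos (nat_lit 0) (nat_lit 0)) T0.l2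
  (TrL.c (I.mix (nat_lit 41527258) (nat_lit 41530880)) (xR T5.l4 T5.l8)
  (TrL.c (I.mix (nat_lit 41527258) (nat_lit 4274)) T0.l3
  TrL.n)))))))) (by decide +kernel)
theorem bx2_7 : BoxOK sI cl6 cl5 cl7 t0 t5 b2_7 :=
  box_mk (TrL.c (I.pos (nat_lit 0) (nat_lit 0)) (xb T0.l4 T0.l4)
  (TrL.c (I.pos (nat_lit 0) (nat_lit 0)) T5.l7
  (TrL.c (I.pos (nat_lit 0) (nat_lit 89480386)) T0.l1
  (TrL.c (I.pos (nat_lit 0) (nat_lit 41530880)) T5.l6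
  (TrL.c (I.pos (nat_lit 0) (nat_lit 0)) T5.l5
  (TrL.c (I.pos (nat_lit 0) (nat_lit 0)) T0.l2
  (TrL.c (I.mix (nat_lit 41527258) (nat_lit 41530880)) T5.l4
  (TrL.c (I.mix (nat_lit 41527258) (nat_lit 4274)) T0.l3
  TrL.n)))))))) (by decide +kernel)
theorem bx2_8 : BoxOK sI cl6 cl5 cl7 t0 t5 b2_8 :=
  box_mk (TrL.c (I.pos (nat_lit 0) (nat_lit 0)) (xa (xb T0.l0 T0.l0) (xb T0.l0 T0.l0))
  (TrL.c (I.pos (nat_lit 0) (nat_lit 0)) T5.l1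
  (TrL.c (I.pos (nat_lit 0) (nat_lit 89480386)) (xR T0.l1 T0.l1)
  (TrL.c (I.pos (nat_lit 0) (nat_lit 41530880)) T5.l2
  (TrL.c (I.pos (nat_lit 0) (nat_lit 0)) (xb (xa T5.l3 T5.l3) (xa T5.l3 T5.l3))
  (TrL.c (I.pos (nat_lit 0) (nat_lit 0)) T0.l2
  (TrL.c (I.mix (nat_lit 41527258) (nat_lit 41530880)) (xR T5.l8 T5.l8)
  (TrL.c (I.mix (nat_lit 41527258) (nat_lit 4274)) T0.l3
  TrL.n)))))))) (by decide +kernel)
theorem bx2_9 : BoxOK sI cl6 cl5 cl7 t0 t5 b2_9 :=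
  box_mk (TrL.c (I.pos (nat_lit 0) (nat_lit 0)) (xa T0.l10 T0.l0)
  (TrL.c (I.pos (nat_lit 0) (nat_lit 0)) T5.l1
  (TrL.c (I.pos (nat_lit 0) (nat_lit 89480386)) (xR T0.l1 T0.l1)
  (TrL.c (I.pos (nat_lit 0) (nat_lit 41530880)) T5.l2
  (TrL.c (I.pos (nat_lit 0) (nat_lit 0)) T5.l11
  (TrL.c (I.pos (nat_lit 0) (nat_lit 0)) T0.l2
  (TrL.c (I.mix (nat_lit 41527258) (nat_lit 41530880)) (xR T5.l4 T5.l4)
  (TrL.c (I.mix (nat_lit 41527258) (nat_lit 4274)) T0.l3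
  TrL.n)))))))) (by decide +kernel)
theorem bx2_10 : BoxOK sI cl6 cl5 cl7 t0 t5 b2_10 :=
  box_mk (TrL.c (I.pos (nat_lit 0) (nat_lit 0)) (xb T0.l10 T0.l10)
  (TrL.c (I.pos (nat_lit 0) (nat_lit 0)) T5.l1
  (TrL.c (I.pos (nat_lit 0) (nat_lit 89480386)) (xR T0.l1 T0.l1)
  (TrL.c (I.pos (nat_lit 0) (nat_lit 41530880)) T5.l2
  (TrL.c (I.pos (nat_lit 0) (nat_lit 0)) T5.l11
  (TrL.c (I.pos (nat_lit 0) (nat_lit 0)) T0.l2
  (TrL.c (I.mix (nat_lit 41527258) (nat_lit 41530880)) (xR T5.l4 T5.l4)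
  (TrL.c (I.mix (nat_lit 41527258) (nat_lit 4274)) T0.l3
  TrL.n)))))))) (by decide +kernel)
theorem bx2_11 : BoxOK sI cl6 cl5 cl7 t0 t5 b2_11 :=
  box_mk (TrL.c (I.pos (nat_lit 0) (nat_lit 0)) (xa T0.l0 T0.l0)
  (TrL.c (I.pos (nat_lit 0) (nat_lit 0)) T5.l1
  (TrL.c (I.pos (nat_lit 0) (nat_lit 89480386)) (xR T0.l1 T0.l1)
  (TrL.c (I.pos (nat_lit 0) (nat_lit 41530880)) T5.l2
  (TrL.c (I.pos (nat_lit 0) (nat_lit 0)) T5.l3
  (TrL.c (I.pos (nat_lit 0) (nat_lit 0)) T0.l2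
  (TrL.c (I.mix (nat_lit 41527258) (nat_lit 41530880)) (xR T5.l4 T5.l4)
  (TrL.c (I.mix (nat_lit 41527258) (nat_lit 4274)) T0.l3
  TrL.n)))))))) (by decide +kernel)
theorem sv2 : StarV sI cl6 cl5 cl7 t0 t5 t2 :=
  (bt_n (bt_n (bt_n (bt_b bx2_0) (bt_n (bt_b bx2_1) (bt_b bx2_2))) (bt_n (bt_b bx2_3) (bt_n (bt_b bx2_4) (bt_b bx2_5)))) (bt_n (bt_n (bt_b bx2_6) (bt_n (bt_b bx2_7) (bt_b bx2_8))) (bt_n (bt_b bx2_9) (bt_n (bt_b bx2_10) (bt_b bx2_11)))))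
def S2 : StarD := StarD.mk cl6 cl5 cl7 0 5 t2
theorem bx3_0 : BoxOK sI cl6 cl7 cl5 t5 t0 b3_0 :=
  box_mk (TrL.c (I.pos (nat_lit 0) (nat_lit 0)) (xa (xb T5.l13 (xa T5.l0 T5.l0)) (xa (xb T5.l0 T5.l0) T5.l0))
  (TrL.c (I.pos (nat_lit 0) (nat_lit 0)) T0.l7
  (TrL.c (I.pos (nat_lit 0) (nat_lit 89480386)) (xR T5.l8 T5.l8)
  (TrL.c (I.pos (nat_lit 0) (nat_lit 41530880)) T0.l8
  (TrL.c (I.pos (nat_lit 0) (nat_lit 0)) (xa T0.l11 T0.l11)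
  (TrL.c (I.pos (nat_lit 0) (nat_lit 0)) T5.l9
  (TrL.c (I.mix (nat_lit 41527258) (nat_lit 41530880)) (xR T0.l9 T0.l9)
  (TrL.c (I.mix (nat_lit 41527258) (nat_lit 4274)) T5.l10
  TrL.n)))))))) (by decide +kernel)
theorem bx3_1 : BoxOK sI cl6 cl7 cl5 t5 t0 b3_1 :=
  box_mk (TrL.c (I.pos (nat_lit 0) (nat_lit 0)) (xa (xb T5.l12 T5.l12) (xb T5.l12 T5.l12))
  (TrL.c (I.pos (nat_lit 0) (nat_lit 0)) T0.l7
  (TrL.c (I.pos (nat_lit 0) (nat_lit 89480386)) (xR T5.l8 T5.l8)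
  (TrL.c (I.pos (nat_lit 0) (nat_lit 41530880)) T0.l8
  (TrL.c (I.pos (nat_lit 0) (nat_lit 0)) T0.l12
  (TrL.c (I.pos (nat_lit 0) (nat_lit 0)) T5.l9
  (TrL.c (I.mix (nat_lit 41527258) (nat_lit 41530880)) T0.l9
  (TrL.c (I.mix (nat_lit 41527258) (nat_lit 4274)) T5.l10
  TrL.n)))))))) (by decide +kernel)
theorem bx3_2 : BoxOK sI cl6 cl7 cl5 t5 t0 b3_2 :=
  box_mk (TrL.c (I.pos (nat_lit 0) (nat_lit 0)) T5.l12
  (TrL.c (I.pos (nat_lit 0) (nat_lit 0)) T0.l7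
  (TrL.c (I.pos (nat_lit 0) (nat_lit 89480386)) T5.l8
  (TrL.c (I.pos (nat_lit 0) (nat_lit 41530880)) T0.l8
  (TrL.c (I.pos (nat_lit 0) (nat_lit 0)) T0.l12
  (TrL.c (I.pos (nat_lit 0) (nat_lit 0)) T5.l9
  (TrL.c (I.mix (nat_lit 41527258) (nat_lit 41530880)) T0.l9
  (TrL.c (I.mix (nat_lit 41527258) (nat_lit 4274)) T5.l10
  TrL.n)))))))) (by decide +kernel)
theorem bx3_3 : BoxOK sI cl6 cl7 cl5 t5 t0 b3_3 :=
  box_mk (TrL.c (I.pos (nat_lit 0) (nat_lit 0)) (xb (xa T5.l13 T5.l13) (xa T5.l13 T5.l13))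
  (TrL.c (I.pos (nat_lit 0) (nat_lit 0)) T0.l7
  (TrL.c (I.pos (nat_lit 0) (nat_lit 89480386)) (xR T5.l8 T5.l8)
  (TrL.c (I.pos (nat_lit 0) (nat_lit 41530880)) T0.l8
  (TrL.c (I.pos (nat_lit 0) (nat_lit 0)) T0.l13
  (TrL.c (I.pos (nat_lit 0) (nat_lit 0)) T5.l9
  (TrL.c (I.mix (nat_lit 41527258) (nat_lit 41530880)) (xR T0.l9 T0.l9)
  (TrL.c (I.mix (nat_lit 41527258) (nat_lit 4274)) T5.l10
  TrL.n)))))))) (by decide +kernel)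
theorem bx3_4 : BoxOK sI cl6 cl7 cl5 t5 t0 b3_4 :=
  box_mk (TrL.c (I.pos (nat_lit 0) (nat_lit 0)) (xa (xa (xb T5.l12 (xa T5.l12 T5.l12)) (xb T5.l12 T5.l12)) (xa T5.l12 (xb T5.l12 T5.l12)))
  (TrL.c (I.pos (nat_lit 0) (nat_lit 0)) T0.l7
  (TrL.c (I.pos (nat_lit 0) (nat_lit 89480386)) (xR T5.l8 T5.l8)
  (TrL.c (I.pos (nat_lit 0) (nat_lit 41530880)) T0.l8
  (TrL.c (I.pos (nat_lit 0) (nat_lit 0)) T0.l12
  (TrL.c (I.pos (nat_lit 0) (nat_lit 0)) T5.l9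
  (TrL.c (I.mix (nat_lit 41527258) (nat_lit 41530880)) T0.l9
  (TrL.c (I.mix (nat_lit 41527258) (nat_lit 4274)) T5.l10
  TrL.n)))))))) (by decide +kernel)
theorem bx3_5 : BoxOK sI cl6 cl7 cl5 t5 t0 b3_5 :=
  box_mk (TrL.c (I.pos (nat_lit 0) (nat_lit 0)) T5.l0
  (TrL.c (I.pos (nat_lit 0) (nat_lit 0)) T0.l7
  (TrL.c (I.pos (nat_lit 0) (nat_lit 89480386)) (xR T5.l8 T5.l8)
  (TrL.c (I.pos (nat_lit 0) (nat_lit 41530880)) T0.l8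
  (TrL.c (I.pos (nat_lit 0) (nat_lit 0)) T0.l13
  (TrL.c (I.pos (nat_lit 0) (nat_lit 0)) T5.l9
  (TrL.c (I.mix (nat_lit 41527258) (nat_lit 41530880)) T0.l9
  (TrL.c (I.mix (nat_lit 41527258) (nat_lit 4274)) T5.l10
  TrL.n)))))))) (by decide +kernel)
theorem bx3_6 : BoxOK sI cl6 cl7 cl5 t5 t0 b3_6 :=
  box_mk (TrL.c (I.pos (nat_lit 0) (nat_lit 0)) T5.l12
  (TrL.c (I.pos (nat_lit 0) (nat_lit 0)) T0.l7
  (TrL.c (I.pos (nat_lit 0) (nat_lit 89480386)) (xR T5.l8 T5.l8)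
  (TrL.c (I.pos (nat_lit 0) (nat_lit 41530880)) T0.l8
  (TrL.c (I.pos (nat_lit 0) (nat_lit 0)) T0.l12
  (TrL.c (I.pos (nat_lit 0) (nat_lit 0)) T5.l9
  (TrL.c (I.mix (nat_lit 41527258) (nat_lit 41530880)) T0.l9
  (TrL.c (I.mix (nat_lit 41527258) (nat_lit 4274)) T5.l10
  TrL.n)))))))) (by decide +kernel)
theorem bx3_7 : BoxOK sI cl6 cl7 cl5 t5 t0 b3_7 :=
  box_mk (TrL.c (I.pos (nat_lit 0) (nat_lit 0)) T5.l12
  (TrL.c (I.pos (nat_lit 0) (nat_lit 0)) T0.l7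
  (TrL.c (I.pos (nat_lit 0) (nat_lit 89480386)) T5.l8
  (TrL.c (I.pos (nat_lit 0) (nat_lit 41530880)) T0.l8
  (TrL.c (I.pos (nat_lit 0) (nat_lit 0)) T0.l12
  (TrL.c (I.pos (nat_lit 0) (nat_lit 0)) T5.l9
  (TrL.c (I.mix (nat_lit 41527258) (nat_lit 41530880)) T0.l9
  (TrL.c (I.mix (nat_lit 41527258) (nat_lit 4274)) T5.l10
  TrL.n)))))))) (by decide +kernel)
theorem bx3_8 : BoxOK sI cl6 cl7 cl5 t5 t0 b3_8 :=
  box_mk (TrL.c (I.pos (nat_lit 0) (nat_lit 0)) (xa (xa (xb T5.l12 (xa T5.l12 T5.l12)) (xb T5.l12 T5.l12)) (xa T5.l12 T5.l12))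
  (TrL.c (I.pos (nat_lit 0) (nat_lit 0)) T0.l7
  (TrL.c (I.pos (nat_lit 0) (nat_lit 89480386)) T5.l8
  (TrL.c (I.pos (nat_lit 0) (nat_lit 41530880)) T0.l8
  (TrL.c (I.pos (nat_lit 0) (nat_lit 0)) T0.l12
  (TrL.c (I.pos (nat_lit 0) (nat_lit 0)) T5.l9
  (TrL.c (I.mix (nat_lit 41527258) (nat_lit 41530880)) T0.l9
  (TrL.c (I.mix (nat_lit 41527258) (nat_lit 4274)) T5.l10
  TrL.n)))))))) (by decide +kernel)
theorem bx3_9 : BoxOK sI cl6 cl7 cl5 t5 t0 b3_9 :=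
  box_mk (TrL.c (I.pos (nat_lit 0) (nat_lit 0)) (xb T5.l12 (xa T5.l12 T5.l12))
  (TrL.c (I.pos (nat_lit 0) (nat_lit 0)) T0.l7
  (TrL.c (I.pos (nat_lit 0) (nat_lit 89480386)) (xR T5.l8 T5.l8)
  (TrL.c (I.pos (nat_lit 0) (nat_lit 41530880)) T0.l8
  (TrL.c (I.pos (nat_lit 0) (nat_lit 0)) T0.l12
  (TrL.c (I.pos (nat_lit 0) (nat_lit 0)) T5.l9
  (TrL.c (I.mix (nat_lit 41527258) (nat_lit 41530880)) T0.l9
  (TrL.c (I.mix (nat_lit 41527258) (nat_lit 4274)) T5.l10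
  TrL.n)))))))) (by decide +kernel)
theorem bx3_10 : BoxOK sI cl6 cl7 cl5 t5 t0 b3_10 :=
  box_mk (TrL.c (I.pos (nat_lit 0) (nat_lit 0)) (xa (xa (xb T5.l12 T5.l12) T5.l12) T5.l12)
  (TrL.c (I.pos (nat_lit 0) (nat_lit 0)) T0.l7
  (TrL.c (I.pos (nat_lit 0) (nat_lit 89480386)) T5.l8
  (TrL.c (I.pos (nat_lit 0) (nat_lit 41530880)) T0.l8
  (TrL.c (I.pos (nat_lit 0) (nat_lit 0)) T0.l12
  (TrL.c (I.pos (nat_lit 0) (nat_lit 0)) T5.l9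
  (TrL.c (I.mix (nat_lit 41527258) (nat_lit 41530880)) (xR T0.l9 T0.l9)
  (TrL.c (I.mix (nat_lit 41527258) (nat_lit 4274)) T5.l10
  TrL.n)))))))) (by decide +kernel)
theorem bx3_11 : BoxOK sI cl6 cl7 cl5 t5 t0 b3_11 :=
  box_mk (TrL.c (I.pos (nat_lit 0) (nat_lit 0)) (xa (xb T5.l0 T5.l0) (xb T5.l0 T5.l0))
  (TrL.c (I.pos (nat_lit 0) (nat_lit 0)) T0.l7
  (TrL.c (I.pos (nat_lit 0) (nat_lit 89480386)) (xR T5.l8 T5.l8)
  (TrL.c (I.pos (nat_lit 0) (nat_lit 41530880)) T0.l8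
  (TrL.c (I.pos (nat_lit 0) (nat_lit 0)) (xa T0.l11 (xb T0.l11 T0.l11))
  (TrL.c (I.pos (nat_lit 0) (nat_lit 0)) T5.l9
  (TrL.c (I.mix (nat_lit 41527258) (nat_lit 41530880)) (xR T0.l9 T0.l1)
  (TrL.c (I.mix (nat_lit 41527258) (nat_lit 4274)) T5.l10
  TrL.n)))))))) (by decide +kernel)
theorem bx3_12 : BoxOK sI cl6 cl7 cl5 t5 t0 b3_12 :=
  box_mk (TrL.c (I.pos (nat_lit 0) (nat_lit 0)) (xa T5.l0 T5.l0)
  (TrL.c (I.pos (nat_lit 0) (nat_lit 0)) T0.l7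
  (TrL.c (I.pos (nat_lit 0) (nat_lit 89480386)) (xR T5.l8 T5.l8)
  (TrL.c (I.pos (nat_lit 0) (nat_lit 41530880)) T0.l8
  (TrL.c (I.pos (nat_lit 0) (nat_lit 0)) T0.l11
  (TrL.c (I.pos (nat_lit 0) (nat_lit 0)) T5.l9
  (TrL.c (I.mix (nat_lit 41527258) (nat_lit 41530880)) (xR T0.l9 T0.l9)
  (TrL.c (I.mix (nat_lit 41527258) (nat_lit 4274)) T5.l10
  TrL.n)))))))) (by decide +kernel)
theorem bx3_13 : BoxOK sI cl6 cl7 cl5 t5 t0 b3_13 :=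
  box_mk (TrL.c (I.pos (nat_lit 0) (nat_lit 0)) (xb T5.l13 T5.l13)
  (TrL.c (I.pos (nat_lit 0) (nat_lit 0)) T0.l7
  (TrL.c (I.pos (nat_lit 0) (nat_lit 89480386)) (xR T5.l8 T5.l8)
  (TrL.c (I.pos (nat_lit 0) (nat_lit 41530880)) T0.l8
  (TrL.c (I.pos (nat_lit 0) (nat_lit 0)) T0.l13
  (TrL.c (I.pos (nat_lit 0) (nat_lit 0)) T5.l9
  (TrL.c (I.mix (nat_lit 41527258) (nat_lit 41530880)) (xR T0.l9 T0.l9)
  (TrL.c (I.mix (nat_lit 41527258) (nat_lit 4274)) T5.l10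
  TrL.n)))))))) (by decide +kernel)
theorem sv3 : StarV sI cl6 cl7 cl5 t5 t0 t3 :=
  (bt_n (bt_n (bt_n (bt_b bx3_0) (bt_n (bt_b bx3_1) (bt_b bx3_2))) (bt_n (bt_n (bt_b bx3_3) (bt_b bx3_4)) (bt_n (bt_b bx3_5) (bt_b bx3_6)))) (bt_n (bt_n (bt_b bx3_7) (bt_n (bt_b bx3_8) (bt_b bx3_9))) (bt_n (bt_n (bt_b bx3_10) (bt_b bx3_11)) (bt_n (bt_b bx3_12) (bt_b bx3_13)))))
def S3 : StarD := StarD.mk cl6 cl7 cl5 5 0 t3
theorem bx4_0 : BoxOK sI cl7 cl5 cl6 t1 t3 b4_0 :=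
  box_mk (TrL.c (I.pos (nat_lit 0) (nat_lit 0)) (xa (xb T1.l0 (xa T1.l0 T1.l0)) (xb T1.l0 (xa T1.l0 T1.l0)))
  (TrL.c (I.pos (nat_lit 0) (nat_lit 0)) T3.l1
  (TrL.c (I.pos (nat_lit 0) (nat_lit 111196574)) (xR T1.l1 T1.l1)
  (TrL.c (I.pos (nat_lit 0) (nat_lit 77433728)) (xR T3.l2 T3.l2)
  (TrL.c (I.pos (nat_lit 0) (nat_lit 0)) (xa T3.l3 (xb T3.l3 T3.l3))
  (TrL.c (I.pos (nat_lit 0) (nat_lit 0)) T1.l2
  (TrL.c (I.mix (nat_lit 29511666) (nat_lit 77433728)) (xR T3.l4 T3.l4)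
  (TrL.c (I.mix (nat_lit 29511666) (nat_lit 46070178)) T1.l3
  TrL.n)))))))) (by decide +kernel)
theorem bx4_1 : BoxOK sI cl7 cl5 cl6 t1 t3 b4_1 :=
  box_mk (TrL.c (I.pos (nat_lit 0) (nat_lit 0)) (xa (xb T1.l4 T1.l4) T1.l4)
  (TrL.c (I.pos (nat_lit 0) (nat_lit 0)) T3.l1
  (TrL.c (I.pos (nat_lit 0) (nat_lit 111196574)) (xR T1.l1 T1.l1)
  (TrL.c (I.pos (nat_lit 0) (nat_lit 77433728)) (xR T3.l2 T3.l2)
  (TrL.c (I.pos (nat_lit 0) (nat_lit 0)) (xa T3.l5 T3.l5)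
  (TrL.c (I.pos (nat_lit 0) (nat_lit 0)) T1.l2
  (TrL.c (I.mix (nat_lit 29511666) (nat_lit 77433728)) (xR T3.l4 T3.l4)
  (TrL.c (I.mix (nat_lit 29511666) (nat_lit 46070178)) T1.l3
  TrL.n)))))))) (by decide +kernel)
theorem bx4_2 : BoxOK sI cl7 cl5 cl6 t1 t3 b4_2 :=
  box_mk (TrL.c (I.pos (nat_lit 0) (nat_lit 0)) T3.l1
  (TrL.c (I.pos (nat_lit 0) (nat_lit 0)) T1.l1
  (TrL.c (I.mix (nat_lit 29511666) (nat_lit 77433728)) (xR T3.l4 T3.l2)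
  (TrL.c (I.mix (nat_lit 29511666) (nat_lit 46070178)) T1.l10
  TrL.n)))) (by decide +kernel)
theorem bx4_3 : BoxOK sI cl7 cl5 cl6 t1 t3 b4_3 :=
  box_mk (TrL.c (I.pos (nat_lit 0) (nat_lit 0)) (xb T1.l13 (xa T1.l13 T1.l13))
  (TrL.c (I.pos (nat_lit 0) (nat_lit 0)) T3.l1
  (TrL.c (I.pos (nat_lit 0) (nat_lit 111196574)) (xR T1.l1 T1.l1)
  (TrL.c (I.pos (nat_lit 0) (nat_lit 77433728)) (xR T3.l2 T3.l2)
  (TrL.c (I.pos (nat_lit 0) (nat_lit 0)) (xb T3.l13 T3.l13)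
  (TrL.c (I.pos (nat_lit 0) (nat_lit 0)) T1.l2
  (TrL.c (I.mix (nat_lit 29511666) (nat_lit 77433728)) (xR T3.l4 T3.l4)
  (TrL.c (I.mix (nat_lit 29511666) (nat_lit 46070178)) T1.l3
  TrL.n)))))))) (by decide +kernel)
theorem bx4_4 : BoxOK sI cl7 cl5 cl6 t1 t3 b4_4 :=
  box_mk (TrL.c (I.pos (nat_lit 0) (nat_lit 0)) (xb T1.l4 T1.l4)
  (TrL.c (I.pos (nat_lit 0) (nat_lit 0)) T3.l1
  (TrL.c (I.pos (nat_lit 0) (nat_lit 111196574)) T1.l1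
  (TrL.c (I.pos (nat_lit 0) (nat_lit 77433728)) T3.l2
  (TrL.c (I.pos (nat_lit 0) (nat_lit 0)) T3.l5
  (TrL.c (I.pos (nat_lit 0) (nat_lit 0)) T1.l2
  (TrL.c (I.mix (nat_lit 29511666) (nat_lit 77433728)) T3.l4
  (TrL.c (I.mix (nat_lit 29511666) (nat_lit 46070178)) T1.l3
  TrL.n)))))))) (by decide +kernel)
theorem bx4_5 : BoxOK sI cl7 cl5 cl6 t1 t3 b4_5 :=
  box_mk (TrL.c (I.pos (nat_lit 0) (nat_lit 0)) (xa T1.l4 T1.l4)
  (TrL.c (I.pos (nat_lit 0) (nat_lit 0)) T3.l1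
  (TrL.c (I.pos (nat_lit 0) (nat_lit 111196574)) T1.l1
  (TrL.c (I.pos (nat_lit 0) (nat_lit 77433728)) T3.l2
  (TrL.c (I.pos (nat_lit 0) (nat_lit 0)) T3.l5
  (TrL.c (I.pos (nat_lit 0) (nat_lit 0)) T1.l2
  (TrL.c (I.mix (nat_lit 29511666) (nat_lit 77433728)) T3.l4
  (TrL.c (I.mix (nat_lit 29511666) (nat_lit 46070178)) T1.l3
  TrL.n)))))))) (by decide +kernel)
theorem bx4_6 : BoxOK sI cl7 cl5 cl6 t1 t3 b4_6 :=
  box_mk (TrL.c (I.pos (nat_lit 0) (nat_lit 0)) (xb T1.l4 T1.l4)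
  (TrL.c (I.pos (nat_lit 0) (nat_lit 0)) T3.l1
  (TrL.c (I.pos (nat_lit 0) (nat_lit 111196574)) T1.l1
  (TrL.c (I.pos (nat_lit 0) (nat_lit 77433728)) T3.l2
  (TrL.c (I.pos (nat_lit 0) (nat_lit 0)) T3.l5
  (TrL.c (I.pos (nat_lit 0) (nat_lit 0)) T1.l2
  (TrL.c (I.mix (nat_lit 29511666) (nat_lit 77433728)) T3.l4
  (TrL.c (I.mix (nat_lit 29511666) (nat_lit 46070178)) T1.l3
  TrL.n)))))))) (by decide +kernel)
theorem bx4_7 : BoxOK sI cl7 cl5 cl6 t1 t3 b4_7 :=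
  box_mk (TrL.c (I.pos (nat_lit 0) (nat_lit 0)) T3.l1
  (TrL.c (I.pos (nat_lit 0) (nat_lit 0)) T1.l1
  (TrL.c (I.mix (nat_lit 29511666) (nat_lit 77433728)) (xR T3.l4 T3.l2)
  (TrL.c (I.mix (nat_lit 29511666) (nat_lit 46070178)) T1.l10
  TrL.n)))) (by decide +kernel)
theorem bx4_8 : BoxOK sI cl7 cl5 cl6 t1 t3 b4_8 :=
  box_mk (TrL.c (I.pos (nat_lit 0) (nat_lit 0)) (xa T1.l13 T1.l0)
  (TrL.c (I.pos (nat_lit 0) (nat_lit 0)) T3.l1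
  (TrL.c (I.pos (nat_lit 0) (nat_lit 111196574)) (xR T1.l1 T1.l1)
  (TrL.c (I.pos (nat_lit 0) (nat_lit 77433728)) (xR T3.l2 T3.l2)
  (TrL.c (I.pos (nat_lit 0) (nat_lit 0)) T3.l13
  (TrL.c (I.pos (nat_lit 0) (nat_lit 0)) T1.l2
  (TrL.c (I.mix (nat_lit 29511666) (nat_lit 77433728)) (xR T3.l4 T3.l4)
  (TrL.c (I.mix (nat_lit 29511666) (nat_lit 46070178)) T1.l3
  TrL.n)))))))) (by decide +kernel)
theorem bx4_9 : BoxOK sI cl7 cl5 cl6 t1 t3 b4_9 :=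
  box_mk (TrL.c (I.pos (nat_lit 0) (nat_lit 0)) (xa (xb T1.l0 T1.l0) (xb T1.l0 (xa T1.l0 T1.l0)))
  (TrL.c (I.pos (nat_lit 0) (nat_lit 0)) T3.l1
  (TrL.c (I.pos (nat_lit 0) (nat_lit 111196574)) (xR T1.l1 T1.l1)
  (TrL.c (I.pos (nat_lit 0) (nat_lit 77433728)) (xR T3.l2 T3.l2)
  (TrL.c (I.pos (nat_lit 0) (nat_lit 0)) (xa (xb (xk T3.l3 T3.l3) (xk T3.l3 T3.l3)) (xb (xk (xa T3.l3 T3.l3) (xa T3.l3 T3.l3)) (xk (xa T3.l3 T3.l3) (xa T3.l3 T3.l3))))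
  (TrL.c (I.pos (nat_lit 0) (nat_lit 0)) T1.l2
  (TrL.c (I.mix (nat_lit 29511666) (nat_lit 77433728)) (xR T3.l4 T3.l4)
  (TrL.c (I.mix (nat_lit 29511666) (nat_lit 46070178)) (xR T1.l3 T1.l3)
  TrL.n)))))))) (by decide +kernel)
theorem bx4_10 : BoxOK sI cl7 cl5 cl6 t1 t3 b4_10 :=
  box_mk (TrL.c (I.pos (nat_lit 0) (nat_lit 0)) (xa (xb T1.l0 T1.l0) (xb T1.l0 T1.l0))
  (TrL.c (I.pos (nat_lit 0) (nat_lit 0)) T3.l1
  (TrL.c (I.pos (nat_lit 0) (nat_lit 111196574)) (xR T1.l1 T1.l1)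
  (TrL.c (I.pos (nat_lit 0) (nat_lit 77433728)) (xR T3.l2 T3.l2)
  (TrL.c (I.pos (nat_lit 0) (nat_lit 0)) (xa T3.l3 (xk T3.l3 T3.l3))
  (TrL.c (I.pos (nat_lit 0) (nat_lit 0)) T1.l2
  (TrL.c (I.mix (nat_lit 29511666) (nat_lit 77433728)) (xR T3.l4 T3.l4)
  (TrL.c (I.mix (nat_lit 29511666) (nat_lit 46070178)) T1.l3
  TrL.n)))))))) (by decide +kernel)
theorem bx4_11 : BoxOK sI cl7 cl5 cl6 t1 t3 b4_11 :=
  box_mk (TrL.c (I.pos (nat_lit 0) (nat_lit 0)) (xb T1.l13 T1.l13)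
  (TrL.c (I.pos (nat_lit 0) (nat_lit 0)) T3.l1
  (TrL.c (I.pos (nat_lit 0) (nat_lit 111196574)) (xR T1.l1 T1.l1)
  (TrL.c (I.pos (nat_lit 0) (nat_lit 77433728)) (xR T3.l2 T3.l2)
  (TrL.c (I.pos (nat_lit 0) (nat_lit 0)) T3.l13
  (TrL.c (I.pos (nat_lit 0) (nat_lit 0)) T1.l2
  (TrL.c (I.mix (nat_lit 29511666) (nat_lit 77433728)) (xR T3.l4 T3.l4)
  (TrL.c (I.mix (nat_lit 29511666) (nat_lit 46070178)) T1.l3
  TrL.n)))))))) (by decide +kernel)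
theorem sv4 : StarV sI cl7 cl5 cl6 t1 t3 t4 :=
  (bt_n (bt_n (bt_n (bt_b bx4_0) (bt_n (bt_b bx4_1) (bt_b bx4_2))) (bt_n (bt_b bx4_3) (bt_n (bt_b bx4_4) (bt_b bx4_5)))) (bt_n (bt_n (bt_b bx4_6) (bt_n (bt_b bx4_7) (bt_b bx4_8))) (bt_n (bt_b bx4_9) (bt_n (bt_b bx4_10) (bt_b bx4_11)))))
def S4 : StarD := StarD.mk cl7 cl5 cl6 1 3 t4
theorem bx5_0 : BoxOK sI cl7 cl6 cl5 t3 t1 b5_0 :=
  box_mk (TrL.c (I.pos (nat_lit 0) (nat_lit 0)) (xa (xb T3.l0 (xa T3.l0 T3.l0)) (xb T3.l0 (xa T3.l0 T3.l0)))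
  (TrL.c (I.pos (nat_lit 0) (nat_lit 0)) T1.l7
  (TrL.c (I.pos (nat_lit 0) (nat_lit 111196574)) (xR T3.l8 T3.l8)
  (TrL.c (I.pos (nat_lit 0) (nat_lit 77433728)) (xR T1.l8 T1.l8)
  (TrL.c (I.pos (nat_lit 0) (nat_lit 0)) (xa T1.l9 (xb T1.l9 T1.l9))
  (TrL.c (I.pos (nat_lit 0) (nat_lit 0)) T3.l9
  (TrL.c (I.mix (nat_lit 29511666) (nat_lit 77433728)) (xR T1.l10 T1.l10)
  (TrL.c (I.mix (nat_lit 29511666) (nat_lit 46070178)) T3.l10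
  TrL.n)))))))) (by decide +kernel)
theorem bx5_1 : BoxOK sI cl7 cl6 cl5 t3 t1 b5_1 :=
  box_mk (TrL.c (I.pos (nat_lit 0) (nat_lit 0)) (xa T3.l11 T3.l0)
  (TrL.c (I.pos (nat_lit 0) (nat_lit 0)) T1.l7
  (TrL.c (I.pos (nat_lit 0) (nat_lit 111196574)) (xR T3.l8 T3.l8)
  (TrL.c (I.pos (nat_lit 0) (nat_lit 77433728)) (xR T1.l8 T1.l8)
  (TrL.c (I.pos (nat_lit 0) (nat_lit 0)) (xa T1.l11 T1.l11)
  (TrL.c (I.pos (nat_lit 0) (nat_lit 0)) T3.l9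
  (TrL.c (I.mix (nat_lit 29511666) (nat_lit 77433728)) (xR T1.l10 T1.l10)
  (TrL.c (I.mix (nat_lit 29511666) (nat_lit 46070178)) T3.l10
  TrL.n)))))))) (by decide +kernel)
theorem bx5_2 : BoxOK sI cl7 cl6 cl5 t3 t1 b5_2 :=
  box_mk (TrL.c (I.pos (nat_lit 0) (nat_lit 0)) T3.l11
  (TrL.c (I.pos (nat_lit 0) (nat_lit 0)) T1.l7
  (TrL.c (I.pos (nat_lit 0) (nat_lit 111196574)) T3.l8
  (TrL.c (I.pos (nat_lit 0) (nat_lit 77433728)) T1.l10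
  (TrL.c (I.pos (nat_lit 0) (nat_lit 0)) T1.l11
  (TrL.c (I.pos (nat_lit 0) (nat_lit 0)) T3.l9
  (TrL.c (I.mix (nat_lit 29511666) (nat_lit 77433728)) T1.l10
  (TrL.c (I.mix (nat_lit 29511666) (nat_lit 46070178)) T3.l10
  TrL.n)))))))) (by decide +kernel)
theorem bx5_3 : BoxOK sI cl7 cl6 cl5 t3 t1 b5_3 :=
  box_mk (TrL.c (I.pos (nat_lit 0) (nat_lit 0)) (xa (xb T3.l12 T3.l12) (xb T3.l12 T3.l12))
  (TrL.c (I.pos (nat_lit 0) (nat_lit 0)) T1.l7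
  (TrL.c (I.pos (nat_lit 0) (nat_lit 111196574)) (xR T3.l8 T3.l8)
  (TrL.c (I.pos (nat_lit 0) (nat_lit 77433728)) (xR T1.l8 T1.l8)
  (TrL.c (I.pos (nat_lit 0) (nat_lit 0)) (xk T1.l12 T1.l9)
  (TrL.c (I.pos (nat_lit 0) (nat_lit 0)) T3.l9
  (TrL.c (I.mix (nat_lit 29511666) (nat_lit 77433728)) (xR T1.l10 T1.l10)
  (TrL.c (I.mix (nat_lit 29511666) (nat_lit 46070178)) T3.l10
  TrL.n)))))))) (by decide +kernel)
theorem bx5_4 : BoxOK sI cl7 cl6 cl5 t3 t1 b5_4 :=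
  box_mk (TrL.c (I.pos (nat_lit 0) (nat_lit 0)) (xa (xa (xb T3.l11 T3.l11) T3.l11) T3.l11)
  (TrL.c (I.pos (nat_lit 0) (nat_lit 0)) T1.l7
  (TrL.c (I.pos (nat_lit 0) (nat_lit 111196574)) (xR T3.l8 T3.l8)
  (TrL.c (I.pos (nat_lit 0) (nat_lit 77433728)) (xR T1.l8 T1.l8)
  (TrL.c (I.pos (nat_lit 0) (nat_lit 0)) T1.l11
  (TrL.c (I.pos (nat_lit 0) (nat_lit 0)) T3.l9
  (TrL.c (I.mix (nat_lit 29511666) (nat_lit 77433728)) T1.l10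
  (TrL.c (I.mix (nat_lit 29511666) (nat_lit 46070178)) T3.l10
  TrL.n)))))))) (by decide +kernel)
theorem bx5_5 : BoxOK sI cl7 cl6 cl5 t3 t1 b5_5 :=
  box_mk (TrL.c (I.pos (nat_lit 0) (nat_lit 0)) T3.l0
  (TrL.c (I.pos (nat_lit 0) (nat_lit 0)) T1.l7
  (TrL.c (I.pos (nat_lit 0) (nat_lit 111196574)) (xR T3.l8 T3.l8)
  (TrL.c (I.pos (nat_lit 0) (nat_lit 77433728)) (xR T1.l8 T1.l8)
  (TrL.c (I.pos (nat_lit 0) (nat_lit 0)) T1.l12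
  (TrL.c (I.pos (nat_lit 0) (nat_lit 0)) T3.l9
  (TrL.c (I.mix (nat_lit 29511666) (nat_lit 77433728)) (xR T1.l10 T1.l10)
  (TrL.c (I.mix (nat_lit 29511666) (nat_lit 46070178)) T3.l10
  TrL.n)))))))) (by decide +kernel)
theorem bx5_6 : BoxOK sI cl7 cl6 cl5 t3 t1 b5_6 :=
  box_mk (TrL.c (I.pos (nat_lit 0) (nat_lit 0)) T3.l11
  (TrL.c (I.pos (nat_lit 0) (nat_lit 0)) T1.l7
  (TrL.c (I.pos (nat_lit 0) (nat_lit 111196574)) T3.l8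
  (TrL.c (I.pos (nat_lit 0) (nat_lit 77433728)) T1.l10
  (TrL.c (I.pos (nat_lit 0) (nat_lit 0)) T1.l11
  (TrL.c (I.pos (nat_lit 0) (nat_lit 0)) T3.l9
  (TrL.c (I.mix (nat_lit 29511666) (nat_lit 77433728)) T1.l10
  (TrL.c (I.mix (nat_lit 29511666) (nat_lit 46070178)) T3.l10
  TrL.n)))))))) (by decide +kernel)
theorem bx5_7 : BoxOK sI cl7 cl6 cl5 t3 t1 b5_7 :=
  box_mk (TrL.c (I.pos (nat_lit 0) (nat_lit 0)) T3.l11
  (TrL.c (I.pos (nat_lit 0) (nat_lit 0)) T1.l7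
  (TrL.c (I.pos (nat_lit 0) (nat_lit 111196574)) (xR T3.l8 T3.l8)
  (TrL.c (I.pos (nat_lit 0) (nat_lit 77433728)) T1.l8
  (TrL.c (I.pos (nat_lit 0) (nat_lit 0)) T1.l11
  (TrL.c (I.pos (nat_lit 0) (nat_lit 0)) T3.l9
  (TrL.c (I.mix (nat_lit 29511666) (nat_lit 77433728)) (xR T1.l10 T1.l10)
  (TrL.c (I.mix (nat_lit 29511666) (nat_lit 46070178)) T3.l10
  TrL.n)))))))) (by decide +kernel)
theorem bx5_8 : BoxOK sI cl7 cl6 cl5 t3 t1 b5_8 :=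
  box_mk (TrL.c (I.pos (nat_lit 0) (nat_lit 0)) (xa (xa (xb T3.l11 T3.l11) T3.l11) (xa T3.l11 (xb T3.l11 T3.l11)))
  (TrL.c (I.pos (nat_lit 0) (nat_lit 0)) T1.l7
  (TrL.c (I.pos (nat_lit 0) (nat_lit 111196574)) T3.l8
  (TrL.c (I.pos (nat_lit 0) (nat_lit 77433728)) (xR T1.l8 T1.l8)
  (TrL.c (I.pos (nat_lit 0) (nat_lit 0)) (xa T1.l11 T1.l11)
  (TrL.c (I.pos (nat_lit 0) (nat_lit 0)) T3.l9
  (TrL.c (I.mix (nat_lit 29511666) (nat_lit 77433728)) T1.l10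
  (TrL.c (I.mix (nat_lit 29511666) (nat_lit 46070178)) T3.l10
  TrL.n)))))))) (by decide +kernel)
theorem bx5_9 : BoxOK sI cl7 cl6 cl5 t3 t1 b5_9 :=
  box_mk (TrL.c (I.pos (nat_lit 0) (nat_lit 0)) (xb T3.l11 T3.l11)
  (TrL.c (I.pos (nat_lit 0) (nat_lit 0)) T1.l7
  (TrL.c (I.pos (nat_lit 0) (nat_lit 111196574)) (xR T3.l8 T3.l8)
  (TrL.c (I.pos (nat_lit 0) (nat_lit 77433728)) T1.l8
  (TrL.c (I.pos (nat_lit 0) (nat_lit 0)) T1.l11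
  (TrL.c (I.pos (nat_lit 0) (nat_lit 0)) T3.l9
  (TrL.c (I.mix (nat_lit 29511666) (nat_lit 77433728)) (xR T1.l10 T1.l10)
  (TrL.c (I.mix (nat_lit 29511666) (nat_lit 46070178)) T3.l10
  TrL.n)))))))) (by decide +kernel)
theorem bx5_10 : BoxOK sI cl7 cl6 cl5 t3 t1 b5_10 :=
  box_mk (TrL.c (I.pos (nat_lit 0) (nat_lit 0)) (xa (xb (xa T3.l11 T3.l11) T3.l11) T3.l11)
  (TrL.c (I.pos (nat_lit 0) (nat_lit 0)) T1.l11
  (TrL.c (I.pos (nat_lit 0) (nat_lit 111196574)) (xR T3.l8 T3.l8)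
  (TrL.c (I.pos (nat_lit 0) (nat_lit 77433728)) T1.l10
  (TrL.c (I.pos (nat_lit 0) (nat_lit 0)) T1.l7
  (TrL.c (I.pos (nat_lit 0) (nat_lit 0)) T3.l9
  (TrL.c (I.mix (nat_lit 29511666) (nat_lit 77433728)) (xR T1.l10 T1.l8)
  (TrL.c (I.mix (nat_lit 29511666) (nat_lit 46070178)) T3.l10
  TrL.n)))))))) (by decide +kernel)
theorem bx5_11 : BoxOK sI cl7 cl6 cl5 t3 t1 b5_11 :=
  box_mk (TrL.c (I.pos (nat_lit 0) (nat_lit 0)) T3.l12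
  (TrL.c (I.pos (nat_lit 0) (nat_lit 0)) T1.l7
  (TrL.c (I.pos (nat_lit 0) (nat_lit 111196574)) (xR T3.l8 T3.l8)
  (TrL.c (I.pos (nat_lit 0) (nat_lit 77433728)) (xR T1.l8 T1.l8)
  (TrL.c (I.pos (nat_lit 0) (nat_lit 0)) T1.l12
  (TrL.c (I.pos (nat_lit 0) (nat_lit 0)) T3.l9
  (TrL.c (I.mix (nat_lit 29511666) (nat_lit 77433728)) (xR T1.l10 T1.l10)
  (TrL.c (I.mix (nat_lit 29511666) (nat_lit 46070178)) T3.l10
  TrL.n)))))))) (by decide +kernel)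
theorem bx5_12 : BoxOK sI cl7 cl6 cl5 t3 t1 b5_12 :=
  box_mk (TrL.c (I.pos (nat_lit 0) (nat_lit 0)) (xa (xb T3.l0 T3.l0) (xb T3.l0 (xa T3.l0 T3.l0)))
  (TrL.c (I.pos (nat_lit 0) (nat_lit 0)) T1.l7
  (TrL.c (I.pos (nat_lit 0) (nat_lit 111196574)) (xR T3.l8 (xR T3.l8 T3.l4))
  (TrL.c (I.pos (nat_lit 0) (nat_lit 77433728)) (xR T1.l8 T1.l8)
  (TrL.c (I.pos (nat_lit 0) (nat_lit 0)) (xa (xb (xk T1.l9 T1.l9) T1.l9) (xb (xk (xa T1.l9 T1.l9) (xa T1.l9 T1.l9)) (xk (xa T1.l9 T1.l9) (xa T1.l9 T1.l9))))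
  (TrL.c (I.pos (nat_lit 0) (nat_lit 0)) T3.l9
  (TrL.c (I.mix (nat_lit 29511666) (nat_lit 77433728)) (xR T1.l10 T1.l10)
  (TrL.c (I.mix (nat_lit 29511666) (nat_lit 46070178)) (xR T3.l10 T3.l2)
  TrL.n)))))))) (by decide +kernel)
theorem bx5_13 : BoxOK sI cl7 cl6 cl5 t3 t1 b5_13 :=
  box_mk (TrL.c (I.pos (nat_lit 0) (nat_lit 0)) (xa (xb T3.l0 T3.l0) (xb T3.l0 T3.l0))
  (TrL.c (I.pos (nat_lit 0) (nat_lit 0)) T1.l7
  (TrL.c (I.pos (nat_lit 0) (nat_lit 111196574)) (xR T3.l8 T3.l8)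
  (TrL.c (I.pos (nat_lit 0) (nat_lit 77433728)) (xR T1.l8 T1.l8)
  (TrL.c (I.pos (nat_lit 0) (nat_lit 0)) (xk T1.l9 T1.l9)
  (TrL.c (I.pos (nat_lit 0) (nat_lit 0)) T3.l9
  (TrL.c (I.mix (nat_lit 29511666) (nat_lit 77433728)) (xR T1.l10 T1.l10)
  (TrL.c (I.mix (nat_lit 29511666) (nat_lit 46070178)) T3.l10
  TrL.n)))))))) (by decide +kernel)
theorem sv5 : StarV sI cl7 cl6 cl5 t3 t1 t5 :=
  (bt_n (bt_n (bt_n (bt_b bx5_0) (bt_n (bt_b bx5_1) (bt_b bx5_2))) (bt_n (bt_n (bt_b bx5_3) (bt_b bx5_4)) (bt_n (bt_b bx5_5) (bt_b bx5_6)))) (bt_n (bt_n (bt_b bx5_7) (bt_n (bt_b bx5_8) (bt_b bx5_9))) (bt_n (bt_n (bt_b bx5_10) (bt_b bx5_11)) (bt_n (bt_b bx5_12) (bt_b bx5_13)))))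
def S5 : StarD := StarD.mk cl7 cl6 cl5 3 1 t5
def G : List StarD := [S0, S1, S2, S3, S4, S5]
theorem so0 : StarOK sI G S0 :=
  star_mk (by decide) (by decide) rfl rfl rfl rfl rfl rfl (rfl : _ = t2) (rfl : _ = t4)
  (st_mk (Pth.l (Pth.l (Pth.l Pth.z))) (nat_lit 191330217) (nat_lit 192311726) (by decide +kernel))
  (st_mk (Pth.l (Pth.l (Pth.l Pth.z))) (nat_lit 228449295) (nat_lit 229863235) (by decide +kernel))
  (st_mk (Pth.l (Pth.l (Pth.l Pth.z))) (nat_lit 271808402) (nat_lit 273837968) (by decide +kernel)) sv0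
theorem so1 : StarOK sI G S1 :=
  star_mk (by decide) (by decide) rfl rfl rfl rfl rfl rfl (rfl : _ = t4) (rfl : _ = t2)
  (st_mk (Pth.l (Pth.l (Pth.l Pth.z))) (nat_lit 143511926) (nat_lit 166493207) (by decide +kernel))
  (st_mk (Pth.l (Pth.l (Pth.l Pth.z))) (nat_lit 180407845) (nat_lit 203884239) (by decide +kernel))
  (st_mk (Pth.l (Pth.l (Pth.l Pth.z))) (nat_lit 223581519) (nat_lit 247725150) (by decide +kernel)) sv1
theorem so2 : StarOK sI G S2 :=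
  star_mk (by decide) (by decide) rfl rfl rfl rfl rfl rfl (rfl : _ = t0) (rfl : _ = t5)
  (st_mk (Pth.l (Pth.l (Pth.l Pth.z))) (nat_lit 243676519) (nat_lit 244669361) (by decide +kernel))
  (st_mk (Pth.l (Pth.l (Pth.l Pth.z))) (nat_lit 280301571) (nat_lit 281622624) (by decide +kernel))
  (st_mk (Pth.l (Pth.l (Pth.l Pth.z))) (nat_lit 322880025) (nat_lit 324646329) (by decide +kernel)) sv2
theorem so3 : StarOK sI G S3 :=
  star_mk (by decide) (by decide) rfl rfl rfl rfl rfl rfl (rfl : _ = t5) (rfl : _ = t0)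
  (st_mk (Pth.l (Pth.l (Pth.l Pth.z))) (nat_lit 142518847) (nat_lit 165102514) (by decide +kernel))
  (st_mk (Pth.l (Pth.l (Pth.l Pth.z))) (nat_lit 178835987) (nat_lit 201764348) (by decide +kernel))
  (st_mk (Pth.l (Pth.l (Pth.l Pth.z))) (nat_lit 221154995) (nat_lit 244541979) (by decide +kernel)) sv3
theorem so4 : StarOK sI G S4 :=
  star_mk (by decide) (by decide) rfl rfl rfl rfl rfl rfl (rfl : _ = t1) (rfl : _ = t3)
  (st_mk (Pth.l (Pth.l (Pth.l Pth.z))) (nat_lit 241180007) (nat_lit 243350347) (by decide +kernel))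
  (st_mk (Pth.l (Pth.l (Pth.l Pth.z))) (nat_lit 277072301) (nat_lit 279775790) (by decide +kernel))
  (st_mk (Pth.l (Pth.l (Pth.l Pth.z))) (nat_lit 318126855) (nat_lit 322621277) (by decide +kernel)) sv4
theorem so5 : StarOK sI G S5 :=
  star_mk (by decide) (by decide) rfl rfl rfl rfl rfl rfl (rfl : _ = t3) (rfl : _ = t1)
  (st_mk (Pth.l (Pth.l (Pth.l Pth.z))) (nat_lit 188027237) (nat_lit 189710429) (by decide +kernel))
  (st_mk (Pth.l (Pth.l (Pth.l Pth.z))) (nat_lit 223833531) (nat_lit 226003672) (by decide +kernel))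
  (st_mk (Pth.l (Pth.l (Pth.l Pth.z))) (nat_lit 265351415) (nat_lit 268199755) (by decide +kernel)) sv5
theorem ok : GroupOK (nat_lit 150274048) (nat_lit 209387520) G := grp_mk (allS_c so0 (allS_c so1 (allS_c so2 (allS_c so3 (allS_c so4 (allS_c so5 allS_n))))))
theorem cov : GCov G cl5 cl6 cl7 := cov_mk
  ⟨0, by decide, rfl, rfl, rfl⟩ ⟨1, by decide, rfl, rfl, rfl⟩ ⟨2, by decide, rfl, rfl, rfl⟩ ⟨3, by decide, rfl, rfl, rfl⟩ ⟨4, by decide, rfl, rfl, rfl⟩ ⟨5, by decide, rfl, rfl, rfl⟩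
end Q234_2

namespace Q234_3
def sI : I := I.pos (nat_lit 209321984) (nat_lit 268435456)
def b0_0 : Bx := Bx.mk (St.mk (I.pos (nat_lit 144195584) (nat_lit 231440384)) (I.mix (nat_lit 5373952) (nat_lit 64159744)) (I.mix (nat_lit 6946816) (nat_lit 82788352)) (I.pos (nat_lit 181780480) (nat_lit 306593792)) (I.mix (nat_lit 139362304) (nat_lit 94093312)) (I.mix (nat_lit 84754432) (nat_lit 78692352)) (I.mix (nat_lit 116817920) (nat_lit 120750080)))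
  false (nat_lit 25172979)
def b0_1 : Bx := Bx.mk (St.mk (I.mix (nat_lit 45350912) (nat_lit 107266048)) (I.mix (nat_lit 6750208) (nat_lit 45236224)) (I.mix (nat_lit 22675456) (nat_lit 10502144)) (I.pos (nat_lit 74989568) (nat_lit 128303104)) (I.mix (nat_lit 59949056) (nat_lit 68435968)) (I.mix (nat_lit 46776320) (nat_lit 41451520)) (I.mix (nat_lit 30261248) (nat_lit 22102016)))
  false (nat_lit 0)
def b0_2 : Bx := Bx.mk (St.mk (I.pos (nat_lit 77217792) (nat_lit 123338752)) (I.mix (nat_lit 61292544) (nat_lit 9535488)) (I.neg (nat_lit 7864320) (nat_lit 61521920)) (I.pos (nat_lit 110641152) (nat_lit 146817024)) (I.mix (nat_lit 116604928) (nat_lit 43532288)) (I.mix (nat_lit 51298304) (nat_lit 84754432)) (I.mix (nat_lit 35209216) (nat_lit 58441728)))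
  false (nat_lit 0)
def b0_3 : Bx := Bx.mk (St.mk (I.mix (nat_lit 53968896) (nat_lit 32194560)) (I.mix (nat_lit 35012608) (nat_lit 6406144)) (I.neg (nat_lit 671744) (nat_lit 16121856)) (I.pos (nat_lit 82706432) (nat_lit 102203392)) (I.mix (nat_lit 49053696) (nat_lit 31326208)) (I.mix (nat_lit 25608192) (nat_lit 32702464)) (I.mix (nat_lit 13058048) (nat_lit 8962048)))
  false (nat_lit 0)
def b0_4 : Bx := Bx.mk (St.mk (I.pos (nat_lit 184123392) (nat_lit 273547264)) (I.mix (nat_lit 8372224) (nat_lit 40845312)) (I.mix (nat_lit 71942144) (nat_lit 31326208)) (I.pos (nat_lit 242171904) (nat_lit 386498560)) (I.mix (nat_lit 109903872) (nat_lit 66633728)) (I.mix (nat_lit 67977216) (nat_lit 66306048)) (I.mix (nat_lit 105742336) (nat_lit 114786304)))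
  false (nat_lit 0)
def b0_5 : Bx := Bx.mk (St.mk (I.mix (nat_lit 54181888) (nat_lit 12894208)) (I.mix (nat_lit 4997120) (nat_lit 13418496)) (I.neg (nat_lit 9568256) (nat_lit 18366464)) (I.pos (nat_lit 86818816) (nat_lit 100237312)) (I.mix (nat_lit 9584640) (nat_lit 18153472)) (I.mix (nat_lit 8323072) (nat_lit 7405568)) (I.mix (nat_lit 3325952) (nat_lit 4145152)))
  false (nat_lit 0)
def b0_6 : Bx := Bx.mk (St.mk (I.pos (nat_lit 64552960) (nat_lit 167526400)) (I.neg (nat_lit 180224) (nat_lit 61751296)) (I.neg (nat_lit 6881280) (nat_lit 63373312)) (I.pos (nat_lit 115294208) (nat_lit 198213632)) (I.mix (nat_lit 119111680) (nat_lit 68861952)) (I.mix (nat_lit 54312960) (nat_lit 78512128)) (I.mix (nat_lit 40173568) (nat_lit 67305472)))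
  false (nat_lit 6451745)
def b0_7 : Bx := Bx.mk (St.mk (I.mix (nat_lit 42008576) (nat_lit 54788096)) (I.mix (nat_lit 35012608) (nat_lit 10125312)) (I.neg (nat_lit 1228800) (nat_lit 19513344)) (I.pos (nat_lit 80904192) (nat_lit 103038976)) (I.mix (nat_lit 48037888) (nat_lit 43909120)) (I.mix (nat_lit 26558464) (nat_lit 38322176)) (I.mix (nat_lit 13778944) (nat_lit 15351808)))
  false (nat_lit 0)
def b0_8 : Bx := Bx.mk (St.mk (I.mix (nat_lit 58785792) (nat_lit 89341952)) (I.mix (nat_lit 15253504) (nat_lit 41598976)) (I.mix (nat_lit 24543232) (nat_lit 7356416)) (I.pos (nat_lit 80740352) (nat_lit 114950144)) (I.mix (nat_lit 58572800) (nat_lit 63881216)) (I.mix (nat_lit 50036736) (nat_lit 38617088)) (I.mix (nat_lit 20070400) (nat_lit 21217280)))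
  false (nat_lit 0)
def b0_9 : Bx := Bx.mk (St.mk (I.pos (nat_lit 80510976) (nat_lit 95387648)) (I.mix (nat_lit 4472832) (nat_lit 10665984)) (I.neg (nat_lit 7913472) (nat_lit 20496384)) (I.pos (nat_lit 113475584) (nat_lit 124829696)) (I.mix (nat_lit 11943936) (nat_lit 15613952)) (I.mix (nat_lit 8699904) (nat_lit 5865472)) (I.mix (nat_lit 6684672) (nat_lit 4456448)))
  false (nat_lit 0)
def b0_10 : Bx := Bx.mk (St.mk (I.pos (nat_lit 173670400) (nat_lit 234438656)) (I.pos (nat_lit 12713984) (nat_lit 64946176)) (I.pos (nat_lit 2637824) (nat_lit 77299712)) (I.pos (nat_lit 246759424) (nat_lit 302186496)) (I.mix (nat_lit 113983488) (nat_lit 87130112)) (I.mix (nat_lit 87048192) (nat_lit 64913408)) (I.mix (nat_lit 139116544) (nat_lit 91881472)))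
  false (nat_lit 0)
def b0_11 : Bx := Bx.mk (St.mk (I.pos (nat_lit 154107904) (nat_lit 210518016)) (I.mix (nat_lit 7127040) (nat_lit 62898176)) (I.mix (nat_lit 540672) (nat_lit 79511552)) (I.pos (nat_lit 192577536) (nat_lit 266878976)) (I.mix (nat_lit 149225472) (nat_lit 66912256)) (I.mix (nat_lit 116768768) (nat_lit 83050496)) (I.mix (nat_lit 105152512) (nat_lit 77709312)))
  false (nat_lit 19912915)
def b0_12 : Bx := Bx.mk (St.mk (I.pos (nat_lit 125992960) (nat_lit 200278016)) (I.mix (nat_lit 38092800) (nat_lit 14909440)) (I.mix (nat_lit 43532288) (nat_lit 17760256)) (I.pos (nat_lit 155336704) (nat_lit 239042560)) (I.mix (nat_lit 82935808) (nat_lit 71090176)) (I.mix (nat_lit 76742656) (nat_lit 62504960)) (I.mix (nat_lit 76611584) (nat_lit 57802752)))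
  false (nat_lit 16692045)
def b0_13 : Bx := Bx.mk (St.mk (I.pos (nat_lit 153157632) (nat_lit 198721536)) (I.mix (nat_lit 10649600) (nat_lit 32620544)) (I.mix (nat_lit 8388608) (nat_lit 44417024)) (I.pos (nat_lit 192970752) (nat_lit 239386624)) (I.mix (nat_lit 134496256) (nat_lit 72843264)) (I.mix (nat_lit 125665280) (nat_lit 69812224)) (I.mix (nat_lit 122142720) (nat_lit 65961984)))
  false (nat_lit 0)
def t0 : BTr := (BTr.n (BTr.n (BTr.n (BTr.b b0_0) (BTr.n (BTr.b b0_1) (BTr.b b0_2))) (BTr.n (BTr.n (BTr.b b0_3) (BTr.b b0_4)) (BTr.n (BTr.b b0_5) (BTr.b b0_6)))) (BTr.n (BTr.n (BTr.b b0_7) (BTr.n (BTr.b b0_8) (BTr.b b0_9))) (BTr.n (BTr.n (BTr.b b0_10) (BTr.b b0_11)) (BTr.n (BTr.b b0_12) (BTr.b b0_13)))))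
namespace T0
def l0 : Tr := Tr.L (Pth.l (Pth.l (Pth.l Pth.z)))
def l1 : Tr := Tr.L (Pth.l (Pth.l (Pth.r (Pth.l Pth.z))))
def l2 : Tr := Tr.L (Pth.l (Pth.l (Pth.r (Pth.r Pth.z))))
def l3 : Tr := Tr.L (Pth.l (Pth.r (Pth.l (Pth.l Pth.z))))
def l4 : Tr := Tr.L (Pth.l (Pth.r (Pth.l (Pth.r Pth.z))))
def l5 : Tr := Tr.L (Pth.l (Pth.r (Pth.r (Pth.l Pth.z))))
def l6 : Tr := Tr.L (Pth.l (Pth.r (Pth.r (Pth.r Pth.z))))
def l7 : Tr := Tr.L (Pth.r (Pth.l (Pth.l Pth.z)))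
def l8 : Tr := Tr.L (Pth.r (Pth.l (Pth.r (Pth.l Pth.z))))
def l9 : Tr := Tr.L (Pth.r (Pth.l (Pth.r (Pth.r Pth.z))))
def l10 : Tr := Tr.L (Pth.r (Pth.r (Pth.l (Pth.l Pth.z))))
def l11 : Tr := Tr.L (Pth.r (Pth.r (Pth.l (Pth.r Pth.z))))
def l12 : Tr := Tr.L (Pth.r (Pth.r (Pth.r (Pth.l Pth.z))))
def l13 : Tr := Tr.L (Pth.r (Pth.r (Pth.r (Pth.r Pth.z))))
end T0
def b1_0 : Bx := Bx.mk (St.mk (I.pos (nat_lit 146194432) (nat_lit 232947712)) (I.mix (nat_lit 4800512) (nat_lit 55787520)) (I.mix (nat_lit 7127040) (nat_lit 87343104)) (I.pos (nat_lit 135184384) (nat_lit 275103744)) (I.mix (nat_lit 140001280) (nat_lit 90112000)) (I.mix (nat_lit 92897280) (nat_lit 79216640)) (I.mix (nat_lit 120946688) (nat_lit 117374976)))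
  false (nat_lit 41582448)
def b1_1 : Bx := Bx.mk (St.mk (I.mix (nat_lit 33095680) (nat_lit 129171456)) (I.mix (nat_lit 6701056) (nat_lit 37732352)) (I.mix (nat_lit 16269312) (nat_lit 20185088)) (I.pos (nat_lit 36388864) (nat_lit 121651200)) (I.mix (nat_lit 63488000) (nat_lit 54247424)) (I.mix (nat_lit 40108032) (nat_lit 36323328)) (I.mix (nat_lit 27672576) (nat_lit 23445504)))
  false (nat_lit 0)
def b1_2 : Bx := Bx.mk (St.mk (I.pos (nat_lit 89702400) (nat_lit 142589952)) (I.mix (nat_lit 58933248) (nat_lit 9191424)) (I.mix (nat_lit 58556416) (nat_lit 376832)) (I.pos (nat_lit 75792384) (nat_lit 141361152)) (I.mix (nat_lit 118079488) (nat_lit 47316992)) (I.mix (nat_lit 56688640) (nat_lit 89473024)) (I.mix (nat_lit 38977536) (nat_lit 64782336)))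
  false (nat_lit 35286333)
def b1_3 : Bx := Bx.mk (St.mk (I.mix (nat_lit 41877504) (nat_lit 76152832)) (I.mix (nat_lit 33161216) (nat_lit 3883008)) (I.mix (nat_lit 19644416) (nat_lit 2048000)) (I.pos (nat_lit 39600128) (nat_lit 85065728)) (I.mix (nat_lit 50216960) (nat_lit 34226176)) (I.mix (nat_lit 28344320) (nat_lit 34603008)) (I.mix (nat_lit 13320192) (nat_lit 15056896)))
  false (nat_lit 1573242)
def b1_4 : Bx := Bx.mk (St.mk (I.pos (nat_lit 184385536) (nat_lit 272154624)) (I.mix (nat_lit 10174464) (nat_lit 36651008)) (I.mix (nat_lit 51757056) (nat_lit 45072384)) (I.pos (nat_lit 204537856) (nat_lit 360267776)) (I.mix (nat_lit 106070016) (nat_lit 61440000)) (I.mix (nat_lit 65355776) (nat_lit 54820864)) (I.mix (nat_lit 106446848) (nat_lit 96010240)))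
  false (nat_lit 13866831)
def b1_5 : Bx := Bx.mk (St.mk (I.pos (nat_lit 92651520) (nat_lit 117735424)) (I.mix (nat_lit 5308416) (nat_lit 9977856)) (I.neg (nat_lit 212992) (nat_lit 14680064)) (I.pos (nat_lit 77561856) (nat_lit 117932032)) (I.mix (nat_lit 13729792) (nat_lit 16351232)) (I.mix (nat_lit 9879552) (nat_lit 5636096)) (I.mix (nat_lit 8257536) (nat_lit 4079616)))
  false (nat_lit 0)
def b1_6 : Bx := Bx.mk (St.mk (I.mix (nat_lit 35749888) (nat_lit 14254080)) (I.pos (nat_lit 393216) (nat_lit 5455872)) (I.neg (nat_lit 2277376) (nat_lit 7602176)) (I.pos (nat_lit 42549248) (nat_lit 69877760)) (I.pos (nat_lit 196608) (nat_lit 6602752)) (I.mix (nat_lit 1785856) (nat_lit 1015808)) (I.mix (nat_lit 950272) (nat_lit 851968)))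
  false (nat_lit 0)
def b1_7 : Bx := Bx.mk (St.mk (I.pos (nat_lit 76988416) (nat_lit 181878784)) (I.mix (nat_lit 58294272) (nat_lit 770048)) (I.mix (nat_lit 58589184) (nat_lit 1703936)) (I.pos (nat_lit 85770240) (nat_lit 190726144)) (I.mix (nat_lit 116424704) (nat_lit 67764224)) (I.mix (nat_lit 55656448) (nat_lit 81346560)) (I.mix (nat_lit 42844160) (nat_lit 71172096)))
  false (nat_lit 52011740)
def b1_8 : Bx := Bx.mk (St.mk (I.mix (nat_lit 45006848) (nat_lit 93585408)) (I.mix (nat_lit 35553280) (nat_lit 8585216)) (I.mix (nat_lit 25264128) (nat_lit 2293760)) (I.pos (nat_lit 36503552) (nat_lit 95453184)) (I.mix (nat_lit 61997056) (nat_lit 40763392)) (I.mix (nat_lit 31145984) (nat_lit 40288256)) (I.mix (nat_lit 18530304) (nat_lit 20725760)))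
  false (nat_lit 13772521)
def b1_9 : Bx := Bx.mk (St.mk (I.pos (nat_lit 156483584) (nat_lit 212090880)) (I.mix (nat_lit 15794176) (nat_lit 57016320)) (I.mix (nat_lit 2916352) (nat_lit 82903040)) (I.pos (nat_lit 145358848) (nat_lit 240418816)) (I.mix (nat_lit 160022528) (nat_lit 75530240)) (I.mix (nat_lit 127188992) (nat_lit 93667328)) (I.mix (nat_lit 131055616) (nat_lit 93044736)))
  false (nat_lit 13643386)
def b1_10 : Bx := Bx.mk (St.mk (I.mix (nat_lit 48840704) (nat_lit 117800960)) (I.mix (nat_lit 16662528) (nat_lit 42074112)) (I.mix (nat_lit 14647296) (nat_lit 24297472)) (I.pos (nat_lit 36749312) (nat_lit 112771072)) (I.mix (nat_lit 71073792) (nat_lit 49299456)) (I.mix (nat_lit 53493760) (nat_lit 43925504)) (I.mix (nat_lit 29540352) (nat_lit 25739264)))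
  false (nat_lit 11040283)
def b1_11 : Bx := Bx.mk (St.mk (I.pos (nat_lit 136839168) (nat_lit 207470592)) (I.mix (nat_lit 36372480) (nat_lit 14565376)) (I.mix (nat_lit 37666816) (nat_lit 25346048)) (I.pos (nat_lit 123977728) (nat_lit 224608256)) (I.mix (nat_lit 75563008) (nat_lit 73089024)) (I.mix (nat_lit 73318400) (nat_lit 64159744)) (I.mix (nat_lit 76578816) (nat_lit 65044480)))
  false (nat_lit 47889848)
def b1_12 : Bx := Bx.mk (St.mk (I.pos (nat_lit 156614656) (nat_lit 201670656)) (I.mix (nat_lit 18251776) (nat_lit 28819456)) (I.mix (nat_lit 9158656) (nat_lit 47562752)) (I.pos (nat_lit 150011904) (nat_lit 217890816)) (I.mix (nat_lit 120537088) (nat_lit 62423040)) (I.mix (nat_lit 110182400) (nat_lit 63537152)) (I.mix (nat_lit 115818496) (nat_lit 66846720)))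
  false (nat_lit 0)
def b1_13 : Bx := Bx.mk (St.mk (I.pos (nat_lit 179453952) (nat_lit 233848832)) (I.pos (nat_lit 12419072) (nat_lit 57147392)) (I.pos (nat_lit 14778368) (nat_lit 82116608)) (I.pos (nat_lit 206192640) (nat_lit 271761408)) (I.mix (nat_lit 111755264) (nat_lit 83984384)) (I.mix (nat_lit 85262336) (nat_lit 68124672)) (I.mix (nat_lit 135839744) (nat_lit 86212608)))
  false (nat_lit 18148325)
def t1 : BTr := (BTr.n (BTr.n (BTr.n (BTr.b b1_0) (BTr.n (BTr.b b1_1) (BTr.b b1_2))) (BTr.n (BTr.n (BTr.b b1_3) (BTr.b b1_4)) (BTr.n (BTr.b b1_5) (BTr.b b1_6)))) (BTr.n (BTr.n (BTr.b b1_7) (BTr.n (BTr.b b1_8) (BTr.b b1_9))) (BTr.n (BTr.n (BTr.b b1_10) (BTr.b b1_11)) (BTr.n (BTr.b b1_12) (BTr.b b1_13)))))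
namespace T1
def l0 : Tr := Tr.L (Pth.l (Pth.l (Pth.l Pth.z)))
def l1 : Tr := Tr.L (Pth.l (Pth.l (Pth.r (Pth.l Pth.z))))
def l2 : Tr := Tr.L (Pth.l (Pth.l (Pth.r (Pth.r Pth.z))))
def l3 : Tr := Tr.L (Pth.l (Pth.r (Pth.l (Pth.l Pth.z))))
def l4 : Tr := Tr.L (Pth.l (Pth.r (Pth.l (Pth.r Pth.z))))
def l5 : Tr := Tr.L (Pth.l (Pth.r (Pth.r (Pth.l Pth.z))))
def l6 : Tr := Tr.L (Pth.l (Pth.r (Pth.r (Pth.r Pth.z))))
def l7 : Tr := Tr.L (Pth.r (Pth.l (Pth.l Pth.z)))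
def l8 : Tr := Tr.L (Pth.r (Pth.l (Pth.r (Pth.l Pth.z))))
def l9 : Tr := Tr.L (Pth.r (Pth.l (Pth.r (Pth.r Pth.z))))
def l10 : Tr := Tr.L (Pth.r (Pth.r (Pth.l (Pth.l Pth.z))))
def l11 : Tr := Tr.L (Pth.r (Pth.r (Pth.l (Pth.r Pth.z))))
def l12 : Tr := Tr.L (Pth.r (Pth.r (Pth.r (Pth.l Pth.z))))
def l13 : Tr := Tr.L (Pth.r (Pth.r (Pth.r (Pth.r Pth.z))))
end T1
def b2_0 : Bx := Bx.mk (St.mk (I.pos (nat_lit 137527296) (nat_lit 226394112)) (I.mix (nat_lit 6078464) (nat_lit 71827456)) (I.mix (nat_lit 7749632) (nat_lit 91062272)) (I.pos (nat_lit 234897408) (nat_lit 349995008)) (I.mix (nat_lit 153255936) (nat_lit 99467264)) (I.mix (nat_lit 83132416) (nat_lit 84328448)) (I.mix (nat_lit 120913920) (nat_lit 123207680)))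
  false (nat_lit 72902363)
def b2_1 : Bx := Bx.mk (St.mk (I.pos (nat_lit 17563648) (nat_lit 80330752)) (I.mix (nat_lit 15237120) (nat_lit 49184768)) (I.mix (nat_lit 29999104) (nat_lit 3588096)) (I.pos (nat_lit 143310848) (nat_lit 166330368)) (I.mix (nat_lit 43286528) (nat_lit 65765376)) (I.mix (nat_lit 45957120) (nat_lit 39960576)) (I.mix (nat_lit 25575424) (nat_lit 15876096)))
  false (nat_lit 0)
def b2_2 : Bx := Bx.mk (St.mk (I.pos (nat_lit 44040192) (nat_lit 100007936)) (I.mix (nat_lit 64700416) (nat_lit 17793024)) (I.neg (nat_lit 8830976) (nat_lit 59260928)) (I.pos (nat_lit 146554880) (nat_lit 184696832)) (I.mix (nat_lit 110985216) (nat_lit 44761088)) (I.mix (nat_lit 46694400) (nat_lit 81510400)) (I.mix (nat_lit 36421632) (nat_lit 48365568)))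
  false (nat_lit 0)
def b2_3 : Bx := Bx.mk (St.mk (I.neg (nat_lit 17563648) (nat_lit 80330752)) (I.mix (nat_lit 49414144) (nat_lit 17793024)) (I.mix (nat_lit 31260672) (nat_lit 3702784)) (I.pos (nat_lit 143196160) (nat_lit 166313984)) (I.mix (nat_lit 65765376) (nat_lit 43286528)) (I.mix (nat_lit 39960576) (nat_lit 45957120)) (I.mix (nat_lit 25575424) (nat_lit 15876096)))
  true (nat_lit 0)
def b2_4 : Bx := Bx.mk (St.mk (I.pos (nat_lit 53903360) (nat_lit 162250752)) (I.neg (nat_lit 835584) (nat_lit 69894144)) (I.neg (nat_lit 999424) (nat_lit 66043904)) (I.pos (nat_lit 157908992) (nat_lit 239796224)) (I.mix (nat_lit 115916800) (nat_lit 83345408)) (I.mix (nat_lit 61259776) (nat_lit 86982656)) (I.mix (nat_lit 53755904) (nat_lit 74711040)))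
  false (nat_lit 778123)
def b2_5 : Bx := Bx.mk (St.mk (I.mix (nat_lit 42729472) (nat_lit 15515648)) (I.mix (nat_lit 43827200) (nat_lit 13451264)) (I.mix (nat_lit 8192000) (nat_lit 770048)) (I.pos (nat_lit 140492800) (nat_lit 156057600)) (I.mix (nat_lit 39763968) (nat_lit 54886400)) (I.mix (nat_lit 32423936) (nat_lit 44449792)) (I.mix (nat_lit 5898240) (nat_lit 7897088)))
  true (nat_lit 0)
def b2_6 : Bx := Bx.mk (St.mk (I.pos (nat_lit 141885440) (nat_lit 195149824)) (I.mix (nat_lit 819200) (nat_lit 64323584)) (I.pos (nat_lit 9895936) (nat_lit 84721664)) (I.pos (nat_lit 229883904) (nat_lit 301252608)) (I.mix (nat_lit 148340736) (nat_lit 57049088)) (I.mix (nat_lit 129056768) (nat_lit 75612160)) (I.mix (nat_lit 123666432) (nat_lit 83869696)))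
  false (nat_lit 5924935)
def b2_7 : Bx := Bx.mk (St.mk (I.mix (nat_lit 15532032) (nat_lit 42729472)) (I.mix (nat_lit 13451264) (nat_lit 43827200)) (I.mix (nat_lit 8192000) (nat_lit 770048)) (I.pos (nat_lit 140492800) (nat_lit 156073984)) (I.mix (nat_lit 54886400) (nat_lit 39763968)) (I.mix (nat_lit 44449792) (nat_lit 32423936)) (I.mix (nat_lit 5898240) (nat_lit 7897088)))
  false (nat_lit 0)
def b2_8 : Bx := Bx.mk (St.mk (I.pos (nat_lit 189972480) (nat_lit 292962304)) (I.mix (nat_lit 35848192) (nat_lit 49889280)) (I.mix (nat_lit 126255104) (nat_lit 43827200)) (I.pos (nat_lit 290947072) (nat_lit 474529792)) (I.mix (nat_lit 102547456) (nat_lit 78118912)) (I.mix (nat_lit 77430784) (nat_lit 69074944)) (I.mix (nat_lit 141836288) (nat_lit 129826816)))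
  false (nat_lit 42598822)
def b2_9 : Bx := Bx.mk (St.mk (I.pos (nat_lit 111230976) (nat_lit 196608000)) (I.mix (nat_lit 39829504) (nat_lit 17924096)) (I.mix (nat_lit 36454400) (nat_lit 27115520)) (I.pos (nat_lit 195772416) (nat_lit 286015488)) (I.mix (nat_lit 82755584) (nat_lit 79052800)) (I.mix (nat_lit 77840384) (nat_lit 71155712)) (I.mix (nat_lit 76447744) (nat_lit 69353472)))
  false (nat_lit 0)
def b2_10 : Bx := Bx.mk (St.mk (I.pos (nat_lit 143818752) (nat_lit 189480960)) (I.mix (nat_lit 9502720) (nat_lit 42647552)) (I.mix (nat_lit 5914624) (nat_lit 60915712)) (I.pos (nat_lit 234733568) (nat_lit 284557312)) (I.mix (nat_lit 150257664) (nat_lit 78413824)) (I.mix (nat_lit 136118272) (nat_lit 75251712)) (I.mix (nat_lit 133087232) (nat_lit 79478784)))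
  false (nat_lit 0)
def b2_11 : Bx := Bx.mk (St.mk (I.pos (nat_lit 164315136) (nat_lit 227409920)) (I.pos (nat_lit 17022976) (nat_lit 72597504)) (I.pos (nat_lit 6766592) (nat_lit 89587712)) (I.pos (nat_lit 278953984) (nat_lit 344080384)) (I.mix (nat_lit 136314880) (nat_lit 99123200)) (I.mix (nat_lit 91602944) (nat_lit 80117760)) (I.mix (nat_lit 138985472) (nat_lit 107675648)))
  false (nat_lit 68099652)
def t2 : BTr := (BTr.n (BTr.n (BTr.n (BTr.b b2_0) (BTr.n (BTr.b b2_1) (BTr.b b2_2))) (BTr.n (BTr.b b2_3) (BTr.n (BTr.b b2_4) (BTr.b b2_5)))) (BTr.n (BTr.n (BTr.b b2_6) (BTr.n (BTr.b b2_7) (BTr.b b2_8))) (BTr.n (BTr.b b2_9) (BTr.n (BTr.b b2_10) (BTr.b b2_11)))))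
namespace T2
def l0 : Tr := Tr.L (Pth.l (Pth.l (Pth.l Pth.z)))
def l1 : Tr := Tr.L (Pth.l (Pth.l (Pth.r (Pth.l Pth.z))))
def l2 : Tr := Tr.L (Pth.l (Pth.l (Pth.r (Pth.r Pth.z))))
def l3 : Tr := Tr.L (Pth.l (Pth.r (Pth.l Pth.z)))
def l4 : Tr := Tr.L (Pth.l (Pth.r (Pth.r (Pth.l Pth.z))))
def l5 : Tr := Tr.L (Pth.l (Pth.r (Pth.r (Pth.r Pth.z))))
def l6 : Tr := Tr.L (Pth.r (Pth.l (Pth.l Pth.z)))
def l7 : Tr := Tr.L (Pth.r (Pth.l (Pth.r (Pth.l Pth.z))))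
def l8 : Tr := Tr.L (Pth.r (Pth.l (Pth.r (Pth.r Pth.z))))
def l9 : Tr := Tr.L (Pth.r (Pth.r (Pth.l Pth.z)))
def l10 : Tr := Tr.L (Pth.r (Pth.r (Pth.r (Pth.l Pth.z))))
def l11 : Tr := Tr.L (Pth.r (Pth.r (Pth.r (Pth.r Pth.z))))
end T2
def b3_0 : Bx := Bx.mk (St.mk (I.pos (nat_lit 142852096) (nat_lit 231276544)) (I.mix (nat_lit 4456448) (nat_lit 51249152)) (I.mix (nat_lit 8028160) (nat_lit 92962816)) (I.pos (nat_lit 134758400) (nat_lit 264241152)) (I.mix (nat_lit 134103040) (nat_lit 80429056)) (I.mix (nat_lit 89358336) (nat_lit 75087872)) (I.mix (nat_lit 115621888) (nat_lit 100712448)))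
  false (nat_lit 16069433)
def b3_1 : Bx := Bx.mk (St.mk (I.pos (nat_lit 81281024) (nat_lit 172507136)) (I.neg (nat_lit 16384) (nat_lit 62652416)) (I.mix (nat_lit 56180736) (nat_lit 802816)) (I.pos (nat_lit 90472448) (nat_lit 177930240)) (I.mix (nat_lit 112689152) (nat_lit 66355200)) (I.mix (nat_lit 57573376) (nat_lit 75382784)) (I.mix (nat_lit 48955392) (nat_lit 62799872)))
  false (nat_lit 53460251)
def b3_2 : Bx := Bx.mk (St.mk (I.mix (nat_lit 38486016) (nat_lit 92422144)) (I.mix (nat_lit 36077568) (nat_lit 3620864)) (I.mix (nat_lit 17743872) (nat_lit 6963200)) (I.pos (nat_lit 37814272) (nat_lit 93896704)) (I.mix (nat_lit 55377920) (nat_lit 46694400)) (I.mix (nat_lit 32096256) (nat_lit 36159488)) (I.mix (nat_lit 16957440) (nat_lit 18432000)))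
  false (nat_lit 0)
def b3_3 : Bx := Bx.mk (St.mk (I.pos (nat_lit 154927104) (nat_lit 209305600)) (I.mix (nat_lit 12206080) (nat_lit 54444032)) (I.pos (nat_lit 10829824) (nat_lit 92585984)) (I.pos (nat_lit 143900672) (nat_lit 229982208)) (I.mix (nat_lit 167133184) (nat_lit 77905920)) (I.mix (nat_lit 130891776) (nat_lit 94027776)) (I.mix (nat_lit 137150464) (nat_lit 86900736)))
  false (nat_lit 25877929)
def b3_4 : Bx := Bx.mk (St.mk (I.mix (nat_lit 46678016) (nat_lit 114688000)) (I.mix (nat_lit 12713984) (nat_lit 42991616)) (I.mix (nat_lit 7077888) (nat_lit 32260096)) (I.pos (nat_lit 37535744) (nat_lit 109068288)) (I.mix (nat_lit 79200256) (nat_lit 42958848)) (I.mix (nat_lit 57999360) (nat_lit 43302912)) (I.mix (nat_lit 32489472) (nat_lit 26460160)))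
  false (nat_lit 0)
def b3_5 : Bx := Bx.mk (St.mk (I.pos (nat_lit 142819328) (nat_lit 205258752)) (I.mix (nat_lit 37126144) (nat_lit 14565376)) (I.mix (nat_lit 24526848) (nat_lit 40353792)) (I.pos (nat_lit 124469248) (nat_lit 216104960)) (I.mix (nat_lit 75890688) (nat_lit 77856768)) (I.mix (nat_lit 72761344) (nat_lit 64258048)) (I.mix (nat_lit 71876608) (nat_lit 66453504)))
  false (nat_lit 41137042)
def b3_6 : Bx := Bx.mk (St.mk (I.pos (nat_lit 147390464) (nat_lit 170639360)) (I.neg (nat_lit 13811712) (nat_lit 36601856)) (I.mix (nat_lit 26116096) (nat_lit 180224)) (I.pos (nat_lit 132349952) (nat_lit 173195264)) (I.mix (nat_lit 23232512) (nat_lit 16744448)) (I.mix (nat_lit 10928128) (nat_lit 11616256)) (I.mix (nat_lit 10944512) (nat_lit 12304384)))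
  false (nat_lit 0)
def b3_7 : Bx := Bx.mk (St.mk (I.mix (nat_lit 49250304) (nat_lit 115769344)) (I.mix (nat_lit 17760256) (nat_lit 5816320)) (I.mix (nat_lit 6848512) (nat_lit 7110656)) (I.pos (nat_lit 39960576) (nat_lit 97878016)) (I.mix (nat_lit 19267584) (nat_lit 20922368)) (I.mix (nat_lit 13778944) (nat_lit 12648448)) (I.mix (nat_lit 7176192) (nat_lit 6684672)))
  false (nat_lit 0)
def b3_8 : Bx := Bx.mk (St.mk (I.mix (nat_lit 34603008) (nat_lit 132907008)) (I.mix (nat_lit 12943360) (nat_lit 31244288)) (I.mix (nat_lit 12910592) (nat_lit 22937600)) (I.pos (nat_lit 36536320) (nat_lit 124469248)) (I.mix (nat_lit 51314688) (nat_lit 47169536)) (I.mix (nat_lit 41172992) (nat_lit 35553280)) (I.mix (nat_lit 30277632) (nat_lit 26083328)))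
  false (nat_lit 0)
def b3_9 : Bx := Bx.mk (St.mk (I.pos (nat_lit 84787200) (nat_lit 146817024)) (I.mix (nat_lit 66977792) (nat_lit 13647872)) (I.mix (nat_lit 57753600) (nat_lit 10321920)) (I.pos (nat_lit 75120640) (nat_lit 146685952)) (I.mix (nat_lit 119570432) (nat_lit 48431104)) (I.mix (nat_lit 57786368) (nat_lit 89899008)) (I.mix (nat_lit 42565632) (nat_lit 60702720)))
  false (nat_lit 51674544)
def b3_10 : Bx := Bx.mk (St.mk (I.mix (nat_lit 48562176) (nat_lit 89374720)) (I.mix (nat_lit 34095104) (nat_lit 7995392)) (I.mix (nat_lit 13893632) (nat_lit 7192576)) (I.pos (nat_lit 39370752) (nat_lit 86523904)) (I.mix (nat_lit 45514752) (nat_lit 41254912)) (I.mix (nat_lit 27443200) (nat_lit 31195136)) (I.mix (nat_lit 12025856) (nat_lit 13238272)))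
  false (nat_lit 0)
def b3_11 : Bx := Bx.mk (St.mk (I.pos (nat_lit 193871872) (nat_lit 290914304)) (I.mix (nat_lit 30212096) (nat_lit 40386560)) (I.mix (nat_lit 67846144) (nat_lit 76759040)) (I.pos (nat_lit 197132288) (nat_lit 395378688)) (I.mix (nat_lit 95961088) (nat_lit 69713920)) (I.mix (nat_lit 74448896) (nat_lit 66125824)) (I.mix (nat_lit 135397376) (nat_lit 111968256)))
  false (nat_lit 32740390)
def b3_12 : Bx := Bx.mk (St.mk (I.pos (nat_lit 175374336) (nat_lit 227622912)) (I.pos (nat_lit 11894784) (nat_lit 51265536)) (I.pos (nat_lit 27410432) (nat_lit 92766208)) (I.pos (nat_lit 193708032) (nat_lit 257097728)) (I.mix (nat_lit 107937792) (nat_lit 87326720)) (I.mix (nat_lit 85180416) (nat_lit 72351744)) (I.mix (nat_lit 131235840) (nat_lit 91586560)))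
  false (nat_lit 8911053)
def b3_13 : Bx := Bx.mk (St.mk (I.pos (nat_lit 162676736) (nat_lit 204079104)) (I.mix (nat_lit 15859712) (nat_lit 19546112)) (I.pos (nat_lit 7274496) (nat_lit 49201152)) (I.pos (nat_lit 148422656) (nat_lit 219250688)) (I.mix (nat_lit 90488832) (nat_lit 57917440)) (I.mix (nat_lit 97075200) (nat_lit 57638912)) (I.mix (nat_lit 100499456) (nat_lit 58753024)))
  false (nat_lit 0)
def t3 : BTr := (BTr.n (BTr.n (BTr.n (BTr.b b3_0) (BTr.n (BTr.b b3_1) (BTr.b b3_2))) (BTr.n (BTr.n (BTr.b b3_3) (BTr.b b3_4)) (BTr.n (BTr.b b3_5) (BTr.b b3_6)))) (BTr.n (BTr.n (BTr.b b3_7) (BTr.n (BTr.b b3_8) (BTr.b b3_9))) (BTr.n (BTr.n (BTr.b b3_10) (BTr.b b3_11)) (BTr.n (BTr.b b3_12) (BTr.b b3_13)))))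
namespace T3
def l0 : Tr := Tr.L (Pth.l (Pth.l (Pth.l Pth.z)))
def l1 : Tr := Tr.L (Pth.l (Pth.l (Pth.r (Pth.l Pth.z))))
def l2 : Tr := Tr.L (Pth.l (Pth.l (Pth.r (Pth.r Pth.z))))
def l3 : Tr := Tr.L (Pth.l (Pth.r (Pth.l (Pth.l Pth.z))))
def l4 : Tr := Tr.L (Pth.l (Pth.r (Pth.l (Pth.r Pth.z))))
def l5 : Tr := Tr.L (Pth.l (Pth.r (Pth.r (Pth.l Pth.z))))
def l6 : Tr := Tr.L (Pth.l (Pth.r (Pth.r (Pth.r Pth.z))))
def l7 : Tr := Tr.L (Pth.r (Pth.l (Pth.l Pth.z)))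
def l8 : Tr := Tr.L (Pth.r (Pth.l (Pth.r (Pth.l Pth.z))))
def l9 : Tr := Tr.L (Pth.r (Pth.l (Pth.r (Pth.r Pth.z))))
def l10 : Tr := Tr.L (Pth.r (Pth.r (Pth.l (Pth.l Pth.z))))
def l11 : Tr := Tr.L (Pth.r (Pth.r (Pth.l (Pth.r Pth.z))))
def l12 : Tr := Tr.L (Pth.r (Pth.r (Pth.r (Pth.l Pth.z))))
def l13 : Tr := Tr.L (Pth.r (Pth.r (Pth.r (Pth.r Pth.z))))
end T3
def b4_0 : Bx := Bx.mk (St.mk (I.pos (nat_lit 137183232) (nat_lit 224968704)) (I.mix (nat_lit 5816320) (nat_lit 69550080)) (I.mix (nat_lit 8830976) (nat_lit 101908480)) (I.pos (nat_lit 232865792) (nat_lit 339968000)) (I.mix (nat_lit 159907840) (nat_lit 98729984)) (I.mix (nat_lit 92913664) (nat_lit 88064000)) (I.mix (nat_lit 126435328) (nat_lit 117882880)))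
  false (nat_lit 84699259)
def b4_1 : Bx := Bx.mk (St.mk (I.pos (nat_lit 60375040) (nat_lit 162873344)) (I.neg (nat_lit 5292032) (nat_lit 74137600)) (I.mix (nat_lit 58736640) (nat_lit 11239424)) (I.pos (nat_lit 163119104) (nat_lit 240828416)) (I.mix (nat_lit 119537664) (nat_lit 78872576)) (I.mix (nat_lit 64241664) (nat_lit 72335360)) (I.mix (nat_lit 54181888) (nat_lit 61571072)))
  false (nat_lit 34610906)
def b4_2 : Bx := Bx.mk (St.mk (I.mix (nat_lit 38764544) (nat_lit 15646720)) (I.mix (nat_lit 44531712) (nat_lit 13484032)) (I.pos (nat_lit 16384) (nat_lit 8634368)) (I.pos (nat_lit 140853248) (nat_lit 154288128)) (I.mix (nat_lit 33849344) (nat_lit 53198848)) (I.mix (nat_lit 30605312) (nat_lit 39993344)) (I.mix (nat_lit 5373952) (nat_lit 8388608)))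
  true (nat_lit 0)
def b4_3 : Bx := Bx.mk (St.mk (I.pos (nat_lit 138641408) (nat_lit 190709760)) (I.mix (nat_lit 1818624) (nat_lit 62308352)) (I.pos (nat_lit 20938752) (nat_lit 96337920)) (I.pos (nat_lit 222167040) (nat_lit 290816000)) (I.mix (nat_lit 150634496) (nat_lit 55836672)) (I.mix (nat_lit 126943232) (nat_lit 71630848)) (I.mix (nat_lit 122847232) (nat_lit 79085568)))
  false (nat_lit 38568484)
def b4_4 : Bx := Bx.mk (St.mk (I.mix (nat_lit 15646720) (nat_lit 38764544)) (I.mix (nat_lit 14778368) (nat_lit 44646400)) (I.pos (nat_lit 16384) (nat_lit 8634368)) (I.pos (nat_lit 140853248) (nat_lit 154288128)) (I.mix (nat_lit 53198848) (nat_lit 33849344)) (I.mix (nat_lit 39993344) (nat_lit 30605312)) (I.mix (nat_lit 5373952) (nat_lit 8388608)))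
  false (nat_lit 0)
def b4_5 : Bx := Bx.mk (St.mk (I.pos (nat_lit 13352960) (nat_lit 81018880)) (I.mix (nat_lit 14385152) (nat_lit 48791552)) (I.mix (nat_lit 21594112) (nat_lit 12025856)) (I.pos (nat_lit 142671872) (nat_lit 167002112)) (I.mix (nat_lit 49676288) (nat_lit 65372160)) (I.mix (nat_lit 50233344) (nat_lit 41058304)) (I.mix (nat_lit 27525120) (nat_lit 18530304)))
  false (nat_lit 0)
def b4_6 : Bx := Bx.mk (St.mk (I.pos (nat_lit 43614208) (nat_lit 104103936)) (I.mix (nat_lit 67010560) (nat_lit 17678336)) (I.neg (nat_lit 1409024) (nat_lit 51249152)) (I.pos (nat_lit 147046400) (nat_lit 189087744)) (I.mix (nat_lit 107888640) (nat_lit 48824320)) (I.mix (nat_lit 48971776) (nat_lit 85753856)) (I.mix (nat_lit 37912576) (nat_lit 48971776)))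
  false (nat_lit 0)
def b4_7 : Bx := Bx.mk (St.mk (I.neg (nat_lit 13352960) (nat_lit 81018880)) (I.mix (nat_lit 48857088) (nat_lit 15024128)) (I.mix (nat_lit 21594112) (nat_lit 12025856)) (I.pos (nat_lit 142671872) (nat_lit 167002112)) (I.mix (nat_lit 65372160) (nat_lit 49692672)) (I.mix (nat_lit 41058304) (nat_lit 50233344)) (I.mix (nat_lit 27525120) (nat_lit 18530304)))
  true (nat_lit 0)
def b4_8 : Bx := Bx.mk (St.mk (I.pos (nat_lit 116883456) (nat_lit 190611456)) (I.mix (nat_lit 35127296) (nat_lit 17612800)) (I.mix (nat_lit 19939328) (nat_lit 40648704)) (I.pos (nat_lit 199524352) (nat_lit 277250048)) (I.mix (nat_lit 80363520) (nat_lit 74678272)) (I.mix (nat_lit 70582272) (nat_lit 64454656)) (I.mix (nat_lit 67698688) (nat_lit 64159744)))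
  false (nat_lit 31530948)
def b4_9 : Bx := Bx.mk (St.mk (I.pos (nat_lit 177176576) (nat_lit 299483136)) (I.mix (nat_lit 34783232) (nat_lit 51707904)) (I.mix (nat_lit 99909632) (nat_lit 69222400)) (I.pos (nat_lit 289193984) (nat_lit 482131968)) (I.mix (nat_lit 103956480) (nat_lit 93896704)) (I.mix (nat_lit 89243648) (nat_lit 68190208)) (I.mix (nat_lit 163577856) (nat_lit 112476160)))
  false (nat_lit 104379375)
def b4_10 : Bx := Bx.mk (St.mk (I.pos (nat_lit 160317440) (nat_lit 224165888)) (I.pos (nat_lit 14991360) (nat_lit 67321856)) (I.pos (nat_lit 22331392) (nat_lit 98795520)) (I.pos (nat_lit 270336000) (nat_lit 333791232)) (I.mix (nat_lit 142524416) (nat_lit 113426432)) (I.mix (nat_lit 103596032) (nat_lit 88948736)) (I.mix (nat_lit 153665536) (nat_lit 122028032)))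
  false (nat_lit 53129519)
def b4_11 : Bx := Bx.mk (St.mk (I.pos (nat_lit 140492800) (nat_lit 188563456)) (I.mix (nat_lit 10092544) (nat_lit 36782080)) (I.pos (nat_lit 8765440) (nat_lit 67911680)) (I.pos (nat_lit 226082816) (nat_lit 278822912)) (I.mix (nat_lit 119816192) (nat_lit 71499776)) (I.mix (nat_lit 117391360) (nat_lit 61194240)) (I.mix (nat_lit 114671616) (nat_lit 62291968)))
  false (nat_lit 4637681)
def t4 : BTr := (BTr.n (BTr.n (BTr.n (BTr.b b4_0) (BTr.n (BTr.b b4_1) (BTr.b b4_2))) (BTr.n (BTr.b b4_3) (BTr.n (BTr.b b4_4) (BTr.b b4_5)))) (BTr.n (BTr.n (BTr.b b4_6) (BTr.n (BTr.b b4_7) (BTr.b b4_8))) (BTr.n (BTr.b b4_9) (BTr.n (BTr.b b4_10) (BTr.b b4_11)))))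
namespace T4
def l0 : Tr := Tr.L (Pth.l (Pth.l (Pth.l Pth.z)))
def l1 : Tr := Tr.L (Pth.l (Pth.l (Pth.r (Pth.l Pth.z))))
def l2 : Tr := Tr.L (Pth.l (Pth.l (Pth.r (Pth.r Pth.z))))
def l3 : Tr := Tr.L (Pth.l (Pth.r (Pth.l Pth.z)))
def l4 : Tr := Tr.L (Pth.l (Pth.r (Pth.r (Pth.l Pth.z))))
def l5 : Tr := Tr.L (Pth.l (Pth.r (Pth.r (Pth.r Pth.z))))
def l6 : Tr := Tr.L (Pth.r (Pth.l (Pth.l Pth.z)))
def l7 : Tr := Tr.L (Pth.r (Pth.l (Pth.r (Pth.l Pth.z))))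
def l8 : Tr := Tr.L (Pth.r (Pth.l (Pth.r (Pth.r Pth.z))))
def l9 : Tr := Tr.L (Pth.r (Pth.r (Pth.l Pth.z)))
def l10 : Tr := Tr.L (Pth.r (Pth.r (Pth.r (Pth.l Pth.z))))
def l11 : Tr := Tr.L (Pth.r (Pth.r (Pth.r (Pth.r Pth.z))))
end T4
def b5_0 : Bx := Bx.mk (St.mk (I.pos (nat_lit 137445376) (nat_lit 226869248)) (I.mix (nat_lit 4849664) (nat_lit 55541760)) (I.mix (nat_lit 8798208) (nat_lit 102023168)) (I.pos (nat_lit 179666944) (nat_lit 284639232)) (I.mix (nat_lit 136413184) (nat_lit 83410944)) (I.mix (nat_lit 91308032) (nat_lit 76906496)) (I.mix (nat_lit 117833728) (nat_lit 99368960)))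
  false (nat_lit 28261194)
def b5_1 : Bx := Bx.mk (St.mk (I.pos (nat_lit 76693504) (nat_lit 162611200)) (I.neg (nat_lit 6209536) (nat_lit 63979520)) (I.mix (nat_lit 47808512) (nat_lit 4521984)) (I.pos (nat_lit 125927424) (nat_lit 189726720)) (I.mix (nat_lit 106364928) (nat_lit 68435968)) (I.mix (nat_lit 54198272) (nat_lit 66338816)) (I.mix (nat_lit 43909120) (nat_lit 50036736)))
  false (nat_lit 32754063)
def b5_2 : Bx := Bx.mk (St.mk (I.mix (nat_lit 34603008) (nat_lit 51445760)) (I.mix (nat_lit 34848768) (nat_lit 3997696)) (I.mix (nat_lit 6406144) (nat_lit 9060352)) (I.pos (nat_lit 83525632) (nat_lit 101990400)) (I.mix (nat_lit 36585472) (nat_lit 44515328)) (I.mix (nat_lit 25935872) (nat_lit 30490624)) (I.mix (nat_lit 9601024) (nat_lit 11567104)))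
  false (nat_lit 0)
def b5_3 : Bx := Bx.mk (St.mk (I.pos (nat_lit 149127168) (nat_lit 202948608)) (I.mix (nat_lit 7569408) (nat_lit 56180736)) (I.pos (nat_lit 21053440) (nat_lit 96305152)) (I.pos (nat_lit 177750016) (nat_lit 246448128)) (I.mix (nat_lit 153747456) (nat_lit 59604992)) (I.mix (nat_lit 121356288) (nat_lit 80199680)) (I.mix (nat_lit 117325824) (nat_lit 67272704)))
  false (nat_lit 42504290)
def b5_4 : Bx := Bx.mk (St.mk (I.mix (nat_lit 58441728) (nat_lit 79888384)) (I.mix (nat_lit 9764864) (nat_lit 43008000)) (I.mix (nat_lit 7782400) (nat_lit 21463040)) (I.pos (nat_lit 81526784) (nat_lit 112541696)) (I.mix (nat_lit 63766528) (nat_lit 46858240)) (I.mix (nat_lit 42041344) (nat_lit 36061184)) (I.mix (nat_lit 17481728) (nat_lit 17219584)))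
  false (nat_lit 0)
def b5_5 : Bx := Bx.mk (St.mk (I.pos (nat_lit 137576448) (nat_lit 198754304)) (I.mix (nat_lit 31129600) (nat_lit 13615104)) (I.mix (nat_lit 11649024) (nat_lit 45694976)) (I.pos (nat_lit 163725312) (nat_lit 230293504)) (I.mix (nat_lit 82837504) (nat_lit 81313792)) (I.mix (nat_lit 71778304) (nat_lit 74416128)) (I.mix (nat_lit 64864256) (nat_lit 71761920)))
  false (nat_lit 31838379)
def b5_6 : Bx := Bx.mk (St.mk (I.mix (nat_lit 60620800) (nat_lit 63881216)) (I.mix (nat_lit 16318464) (nat_lit 7864320)) (I.pos (nat_lit 819200) (nat_lit 11337728)) (I.pos (nat_lit 86818816) (nat_lit 101515264)) (I.mix (nat_lit 16908288) (nat_lit 21839872)) (I.mix (nat_lit 12828672) (nat_lit 11747328)) (I.mix (nat_lit 5095424) (nat_lit 5160960)))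
  false (nat_lit 0)
def b5_7 : Bx := Bx.mk (St.mk (I.mix (nat_lit 58818560) (nat_lit 108822528)) (I.mix (nat_lit 12812288) (nat_lit 45056000)) (I.mix (nat_lit 10911744) (nat_lit 29114368)) (I.pos (nat_lit 72220672) (nat_lit 129351680)) (I.mix (nat_lit 64028672) (nat_lit 63864832)) (I.mix (nat_lit 54018048) (nat_lit 38780928)) (I.mix (nat_lit 35749888) (nat_lit 25231360)))
  false (nat_lit 0)
def b5_8 : Bx := Bx.mk (St.mk (I.pos (nat_lit 73138176) (nat_lit 130924544)) (I.mix (nat_lit 66125824) (nat_lit 15220736)) (I.mix (nat_lit 47562752) (nat_lit 9486336)) (I.pos (nat_lit 110968832) (nat_lit 155549696)) (I.mix (nat_lit 108019712) (nat_lit 42942464)) (I.mix (nat_lit 52428800) (nat_lit 76660736)) (I.mix (nat_lit 37797888) (nat_lit 49332224)))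
  false (nat_lit 8179528)
def b5_9 : Bx := Bx.mk (St.mk (I.mix (nat_lit 54837248) (nat_lit 38584320)) (I.mix (nat_lit 34930688) (nat_lit 10829824)) (I.mix (nat_lit 5603328) (nat_lit 11255808)) (I.pos (nat_lit 82821120) (nat_lit 102629376)) (I.mix (nat_lit 44400640) (nat_lit 40714240)) (I.mix (nat_lit 24690688) (nat_lit 35799040)) (I.mix (nat_lit 13942784) (nat_lit 11354112)))
  false (nat_lit 0)
def b5_10 : Bx := Bx.mk (St.mk (I.pos (nat_lit 136052736) (nat_lit 162119680)) (I.neg (nat_lit 14942208) (nat_lit 38502400)) (I.mix (nat_lit 20676608) (nat_lit 5767168)) (I.pos (nat_lit 166969344) (nat_lit 191102976)) (I.mix (nat_lit 37437440) (nat_lit 30916608)) (I.mix (nat_lit 20414464) (nat_lit 23691264)) (I.mix (nat_lit 19333120) (nat_lit 23035904)))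
  false (nat_lit 0)
def b5_11 : Bx := Bx.mk (St.mk (I.pos (nat_lit 154271744) (nat_lit 194330624)) (I.mix (nat_lit 7946240) (nat_lit 23248896)) (I.pos (nat_lit 19038208) (nat_lit 58966016)) (I.pos (nat_lit 183222272) (nat_lit 229703680)) (I.mix (nat_lit 111427584) (nat_lit 66535424)) (I.mix (nat_lit 115769344) (nat_lit 64716800)) (I.mix (nat_lit 115687424) (nat_lit 61390848)))
  false (nat_lit 0)
def b5_12 : Bx := Bx.mk (St.mk (I.pos (nat_lit 181911552) (nat_lit 295993344)) (I.mix (nat_lit 32096256) (nat_lit 45252608)) (I.mix (nat_lit 68386816) (nat_lit 84361216)) (I.pos (nat_lit 237256704) (nat_lit 424755200)) (I.mix (nat_lit 102121472) (nat_lit 88997888)) (I.mix (nat_lit 84475904) (nat_lit 61734912)) (I.mix (nat_lit 154157056) (nat_lit 100728832)))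
  false (nat_lit 72226571)
def b5_13 : Bx := Bx.mk (St.mk (I.pos (nat_lit 166739968) (nat_lit 223707136)) (I.pos (nat_lit 18825216) (nat_lit 56508416)) (I.pos (nat_lit 40468480) (nat_lit 99581952)) (I.pos (nat_lit 221872128) (nat_lit 277692416)) (I.mix (nat_lit 131727360) (nat_lit 106496000)) (I.mix (nat_lit 98582528) (nat_lit 87080960)) (I.mix (nat_lit 147521536) (nat_lit 107724800)))
  false (nat_lit 24304963)
def t5 : BTr := (BTr.n (BTr.n (BTr.n (BTr.b b5_0) (BTr.n (BTr.b b5_1) (BTr.b b5_2))) (BTr.n (BTr.n (BTr.b b5_3) (BTr.b b5_4)) (BTr.n (BTr.b b5_5) (BTr.b b5_6)))) (BTr.n (BTr.n (BTr.b b5_7) (BTr.n (BTr.b b5_8) (BTr.b b5_9))) (BTr.n (BTr.n (BTr.b b5_10) (BTr.b b5_11)) (BTr.n (BTr.b b5_12) (BTr.b b5_13)))))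
namespace T5
def l0 : Tr := Tr.L (Pth.l (Pth.l (Pth.l Pth.z)))
def l1 : Tr := Tr.L (Pth.l (Pth.l (Pth.r (Pth.l Pth.z))))
def l2 : Tr := Tr.L (Pth.l (Pth.l (Pth.r (Pth.r Pth.z))))
def l3 : Tr := Tr.L (Pth.l (Pth.r (Pth.l (Pth.l Pth.z))))
def l4 : Tr := Tr.L (Pth.l (Pth.r (Pth.l (Pth.r Pth.z))))
def l5 : Tr := Tr.L (Pth.l (Pth.r (Pth.r (Pth.l Pth.z))))
def l6 : Tr := Tr.L (Pth.l (Pth.r (Pth.r (Pth.r Pth.z))))
def l7 : Tr := Tr.L (Pth.r (Pth.l (Pth.l Pth.z)))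
def l8 : Tr := Tr.L (Pth.r (Pth.l (Pth.r (Pth.l Pth.z))))
def l9 : Tr := Tr.L (Pth.r (Pth.l (Pth.r (Pth.r Pth.z))))
def l10 : Tr := Tr.L (Pth.r (Pth.r (Pth.l (Pth.l Pth.z))))
def l11 : Tr := Tr.L (Pth.r (Pth.r (Pth.l (Pth.r Pth.z))))
def l12 : Tr := Tr.L (Pth.r (Pth.r (Pth.r (Pth.l Pth.z))))
def l13 : Tr := Tr.L (Pth.r (Pth.r (Pth.r (Pth.r Pth.z))))
end T5
theorem bx0_0 : BoxOK sI cl5 cl6 cl7 t2 t4 b0_0 :=
  box_mk (TrL.c (I.pos (nat_lit 0) (nat_lit 0)) (xa (xb (xa T2.l11 T2.l0) (xa (xb T2.l0 T2.l0) (xb T2.l0 T2.l0))) (xb (xa T2.l0 T2.l0) (xa (xb T2.l0 T2.l0) (xb T2.l0 T2.l0))))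
  (TrL.c (I.pos (nat_lit 0) (nat_lit 0)) T4.l1
  (TrL.c (I.pos (nat_lit 0) (nat_lit 0)) T2.l1
  (TrL.c (I.pos (nat_lit 0) (nat_lit 0)) T4.l2
  (TrL.c (I.pos (nat_lit 0) (nat_lit 0)) (xa (xb T4.l3 T4.l3) (xb (xa T4.l3 T4.l3) (xa T4.l3 T4.l3)))
  (TrL.c (I.pos (nat_lit 0) (nat_lit 0)) T2.l2
  (TrL.c (I.pos (nat_lit 0) (nat_lit 0)) T4.l4
  (TrL.c (I.pos (nat_lit 0) (nat_lit 0)) T2.l3
  TrL.n)))))))) (by decide +kernel)
theorem bx0_1 : BoxOK sI cl5 cl6 cl7 t2 t4 b0_1 :=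
  box_mk (TrL.c (I.pos (nat_lit 0) (nat_lit 0)) (xa (xa (xb (xa (xb T2.l8 T2.l8) T2.l8) (xa (xb T2.l8 (xa T2.l8 T2.l8)) (xb T2.l8 T2.l8))) (xb T2.l8 (xa (xb T2.l8 T2.l8) T2.l8))) (xa (xb T2.l8 T2.l8) (xb T2.l8 (xa T2.l8 T2.l8))))
  (TrL.c (I.pos (nat_lit 0) (nat_lit 0)) T4.l1
  (TrL.c (I.pos (nat_lit 0) (nat_lit 0)) T2.l1
  (TrL.c (I.pos (nat_lit 0) (nat_lit 0)) T4.l2
  (TrL.c (I.pos (nat_lit 0) (nat_lit 0)) (xa T4.l1 T4.l8)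
  (TrL.c (I.pos (nat_lit 0) (nat_lit 0)) T2.l2
  (TrL.c (I.pos (nat_lit 0) (nat_lit 0)) T4.l4
  (TrL.c (I.pos (nat_lit 0) (nat_lit 0)) T2.l3
  TrL.n)))))))) (by decide +kernel)
theorem bx0_2 : BoxOK sI cl5 cl6 cl7 t2 t4 b0_2 :=
  box_mk (TrL.c (I.pos (nat_lit 0) (nat_lit 0)) (xb T2.l8 (xa T2.l8 T2.l8))
  (TrL.c (I.pos (nat_lit 0) (nat_lit 0)) T4.l1
  (TrL.c (I.pos (nat_lit 0) (nat_lit 0)) T2.l1
  (TrL.c (I.pos (nat_lit 0) (nat_lit 0)) T4.l2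
  (TrL.c (I.pos (nat_lit 0) (nat_lit 0)) T4.l8
  (TrL.c (I.pos (nat_lit 0) (nat_lit 0)) T2.l2
  (TrL.c (I.pos (nat_lit 0) (nat_lit 0)) T4.l4
  (TrL.c (I.pos (nat_lit 0) (nat_lit 0)) T2.l3
  TrL.n)))))))) (by decide +kernel)
theorem bx0_3 : BoxOK sI cl5 cl6 cl7 t2 t4 b0_3 :=
  box_mk (TrL.c (I.pos (nat_lit 0) (nat_lit 0)) (xa (xb (xa (xb T2.l8 T2.l8) T2.l8) T2.l8) T2.l8)
  (TrL.c (I.pos (nat_lit 0) (nat_lit 0)) T4.l8
  (TrL.c (I.pos (nat_lit 0) (nat_lit 0)) T2.l1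
  (TrL.c (I.pos (nat_lit 0) (nat_lit 0)) T4.l2
  (TrL.c (I.pos (nat_lit 0) (nat_lit 0)) T4.l1
  (TrL.c (I.pos (nat_lit 0) (nat_lit 0)) T2.l2
  (TrL.c (I.pos (nat_lit 0) (nat_lit 0)) T4.l4
  (TrL.c (I.pos (nat_lit 0) (nat_lit 0)) T2.l3
  TrL.n)))))))) (by decide +kernel)
theorem bx0_4 : BoxOK sI cl5 cl6 cl7 t2 t4 b0_4 :=
  box_mk (TrL.c (I.pos (nat_lit 0) (nat_lit 0)) (xa (xb T2.l0 (xa T2.l0 T2.l0)) (xb T2.l0 (xa T2.l0 T2.l0)))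
  (TrL.c (I.pos (nat_lit 0) (nat_lit 0)) T4.l1
  (TrL.c (I.pos (nat_lit 0) (nat_lit 0)) T2.l1
  (TrL.c (I.pos (nat_lit 0) (nat_lit 0)) T4.l7
  (TrL.c (I.pos (nat_lit 0) (nat_lit 0)) (xa T4.l3 (xb (xa T4.l3 T4.l3) (xa T4.l3 T4.l3)))
  (TrL.c (I.pos (nat_lit 0) (nat_lit 0)) T2.l2
  (TrL.c (I.pos (nat_lit 0) (nat_lit 0)) T4.l5
  (TrL.c (I.pos (nat_lit 0) (nat_lit 0)) T2.l3
  TrL.n)))))))) (by decide +kernel)
theorem bx0_5 : BoxOK sI cl5 cl6 cl7 t2 t4 b0_5 :=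
  box_mk (TrL.c (I.pos (nat_lit 0) (nat_lit 0)) T2.l8
  (TrL.c (I.pos (nat_lit 0) (nat_lit 0)) T4.l1
  (TrL.c (I.pos (nat_lit 0) (nat_lit 0)) T2.l1
  (TrL.c (I.pos (nat_lit 0) (nat_lit 0)) T4.l2
  (TrL.c (I.pos (nat_lit 0) (nat_lit 0)) T4.l1
  (TrL.c (I.pos (nat_lit 0) (nat_lit 0)) T2.l2
  (TrL.c (I.pos (nat_lit 0) (nat_lit 0)) T4.l4
  (TrL.c (I.pos (nat_lit 0) (nat_lit 0)) T2.l3
  TrL.n)))))))) (by decide +kernel)
theorem bx0_6 : BoxOK sI cl5 cl6 cl7 t2 t4 b0_6 :=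
  box_mk (TrL.c (I.pos (nat_lit 0) (nat_lit 0)) (xa (xb (xa T2.l8 T2.l8) (xa T2.l8 T2.l8)) (xb (xa T2.l8 T2.l0) (xa T2.l8 T2.l0)))
  (TrL.c (I.pos (nat_lit 0) (nat_lit 0)) T4.l1
  (TrL.c (I.pos (nat_lit 0) (nat_lit 0)) T2.l1
  (TrL.c (I.pos (nat_lit 0) (nat_lit 0)) T4.l2
  (TrL.c (I.pos (nat_lit 0) (nat_lit 0)) (xa T4.l8 (xb T4.l8 T4.l8))
  (TrL.c (I.pos (nat_lit 0) (nat_lit 0)) T2.l2
  (TrL.c (I.pos (nat_lit 0) (nat_lit 0)) T4.l4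
  (TrL.c (I.pos (nat_lit 0) (nat_lit 0)) T2.l3
  TrL.n)))))))) (by decide +kernel)
theorem bx0_7 : BoxOK sI cl5 cl6 cl7 t2 t4 b0_7 :=
  box_mk (TrL.c (I.pos (nat_lit 0) (nat_lit 0)) (xa (xb T2.l8 T2.l8) T2.l8)
  (TrL.c (I.pos (nat_lit 0) (nat_lit 0)) T4.l1
  (TrL.c (I.pos (nat_lit 0) (nat_lit 0)) T2.l1
  (TrL.c (I.pos (nat_lit 0) (nat_lit 0)) T4.l2
  (TrL.c (I.pos (nat_lit 0) (nat_lit 0)) T4.l1
  (TrL.c (I.pos (nat_lit 0) (nat_lit 0)) T2.l2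
  (TrL.c (I.pos (nat_lit 0) (nat_lit 0)) T4.l4
  (TrL.c (I.pos (nat_lit 0) (nat_lit 0)) T2.l3
  TrL.n)))))))) (by decide +kernel)
theorem bx0_8 : BoxOK sI cl5 cl6 cl7 t2 t4 b0_8 :=
  box_mk (TrL.c (I.pos (nat_lit 0) (nat_lit 0)) (xa (xb (xa (xb (xa (xa T2.l8 T2.l8) T2.l8) (xa T2.l8 T2.l8)) T2.l8) (xa (xa (xb (xa T2.l8 T2.l8) (xa T2.l8 T2.l8)) (xb T2.l8 T2.l8)) (xa T2.l8 T2.l8))) (xa (xb T2.l8 T2.l8) T2.l8))
  (TrL.c (I.pos (nat_lit 0) (nat_lit 0)) (xa T4.l1 T4.l1)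
  (TrL.c (I.pos (nat_lit 0) (nat_lit 0)) T2.l1
  (TrL.c (I.pos (nat_lit 0) (nat_lit 0)) T4.l2
  (TrL.c (I.pos (nat_lit 0) (nat_lit 0)) (xa T4.l1 T4.l8)
  (TrL.c (I.pos (nat_lit 0) (nat_lit 0)) T2.l2
  (TrL.c (I.pos (nat_lit 0) (nat_lit 0)) T4.l4
  (TrL.c (I.pos (nat_lit 0) (nat_lit 0)) T2.l3
  TrL.n)))))))) (by decide +kernel)
theorem bx0_9 : BoxOK sI cl5 cl6 cl7 t2 t4 b0_9 :=
  box_mk (TrL.c (I.pos (nat_lit 0) (nat_lit 0)) T2.l8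
  (TrL.c (I.pos (nat_lit 0) (nat_lit 0)) T4.l1
  (TrL.c (I.pos (nat_lit 0) (nat_lit 0)) T2.l1
  (TrL.c (I.pos (nat_lit 0) (nat_lit 0)) T4.l2
  (TrL.c (I.pos (nat_lit 0) (nat_lit 0)) T4.l8
  (TrL.c (I.pos (nat_lit 0) (nat_lit 0)) T2.l2
  (TrL.c (I.pos (nat_lit 0) (nat_lit 0)) T4.l4
  (TrL.c (I.pos (nat_lit 0) (nat_lit 0)) T2.l3
  TrL.n)))))))) (by decide +kernel)
theorem bx0_10 : BoxOK sI cl5 cl6 cl7 t2 t4 b0_10 :=
  box_mk (TrL.c (I.pos (nat_lit 0) (nat_lit 0)) (xa (xb T2.l0 (xa T2.l0 T2.l0)) (xb T2.l0 (xa T2.l0 T2.l0)))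
  (TrL.c (I.pos (nat_lit 0) (nat_lit 0)) T4.l1
  (TrL.c (I.pos (nat_lit 0) (nat_lit 0)) T2.l1
  (TrL.c (I.pos (nat_lit 0) (nat_lit 0)) T4.l2
  (TrL.c (I.pos (nat_lit 0) (nat_lit 0)) (xa T4.l3 (xb T4.l3 T4.l3))
  (TrL.c (I.pos (nat_lit 0) (nat_lit 0)) T2.l2
  (TrL.c (I.pos (nat_lit 0) (nat_lit 0)) T4.l4
  (TrL.c (I.pos (nat_lit 0) (nat_lit 0)) T2.l3
  TrL.n)))))))) (by decide +kernel)
theorem bx0_11 : BoxOK sI cl5 cl6 cl7 t2 t4 b0_11 :=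
  box_mk (TrL.c (I.pos (nat_lit 0) (nat_lit 0)) (xb (xa (xb T2.l11 T2.l11) T2.l11) (xa (xb T2.l11 (xa T2.l11 T2.l11)) (xb T2.l11 T2.l11)))
  (TrL.c (I.pos (nat_lit 0) (nat_lit 0)) T4.l1
  (TrL.c (I.pos (nat_lit 0) (nat_lit 0)) T2.l1
  (TrL.c (I.pos (nat_lit 0) (nat_lit 0)) T4.l2
  (TrL.c (I.pos (nat_lit 0) (nat_lit 0)) (xb (xa T4.l11 T4.l11) (xa T4.l3 T4.l3))
  (TrL.c (I.pos (nat_lit 0) (nat_lit 0)) T2.l2
  (TrL.c (I.pos (nat_lit 0) (nat_lit 0)) T4.l4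
  (TrL.c (I.pos (nat_lit 0) (nat_lit 0)) T2.l3
  TrL.n)))))))) (by decide +kernel)
theorem bx0_12 : BoxOK sI cl5 cl6 cl7 t2 t4 b0_12 :=
  box_mk (TrL.c (I.pos (nat_lit 0) (nat_lit 0)) (xa (xb T2.l0 T2.l11) T2.l0)
  (TrL.c (I.pos (nat_lit 0) (nat_lit 0)) T4.l1
  (TrL.c (I.pos (nat_lit 0) (nat_lit 0)) T2.l1
  (TrL.c (I.pos (nat_lit 0) (nat_lit 0)) T4.l2
  (TrL.c (I.pos (nat_lit 0) (nat_lit 0)) (xa T4.l11 T4.l0)
  (TrL.c (I.pos (nat_lit 0) (nat_lit 0)) T2.l2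
  (TrL.c (I.pos (nat_lit 0) (nat_lit 0)) T4.l4
  (TrL.c (I.pos (nat_lit 0) (nat_lit 0)) T2.l3
  TrL.n)))))))) (by decide +kernel)
theorem bx0_13 : BoxOK sI cl5 cl6 cl7 t2 t4 b0_13 :=
  box_mk (TrL.c (I.pos (nat_lit 0) (nat_lit 0)) (xa (xb T2.l11 T2.l11) (xb T2.l11 T2.l11))
  (TrL.c (I.pos (nat_lit 0) (nat_lit 0)) T4.l1
  (TrL.c (I.pos (nat_lit 0) (nat_lit 0)) T2.l1
  (TrL.c (I.pos (nat_lit 0) (nat_lit 0)) T4.l2
  (TrL.c (I.pos (nat_lit 0) (nat_lit 0)) T4.l11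
  (TrL.c (I.pos (nat_lit 0) (nat_lit 0)) T2.l2
  (TrL.c (I.pos (nat_lit 0) (nat_lit 0)) T4.l4
  (TrL.c (I.pos (nat_lit 0) (nat_lit 0)) T2.l3
  TrL.n)))))))) (by decide +kernel)
theorem sv0 : StarV sI cl5 cl6 cl7 t2 t4 t0 :=
  (bt_n (bt_n (bt_n (bt_b bx0_0) (bt_n (bt_b bx0_1) (bt_b bx0_2))) (bt_n (bt_n (bt_b bx0_3) (bt_b bx0_4)) (bt_n (bt_b bx0_5) (bt_b bx0_6)))) (bt_n (bt_n (bt_b bx0_7) (bt_n (bt_b bx0_8) (bt_b bx0_9))) (bt_n (bt_n (bt_b bx0_10) (bt_b bx0_11)) (bt_n (bt_b bx0_12) (bt_b bx0_13)))))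
def S0 : StarD := StarD.mk cl5 cl6 cl7 2 4 t0
theorem bx1_0 : BoxOK sI cl5 cl7 cl6 t4 t2 b1_0 :=
  box_mk (TrL.c (I.pos (nat_lit 0) (nat_lit 0)) (xa (xb (xa T4.l10 T4.l0) (xa (xb T4.l0 (xa T4.l0 T4.l0)) (xb T4.l0 T4.l0))) (xb (xa T4.l0 T4.l0) (xa (xb T4.l0 T4.l0) (xb T4.l0 T4.l0))))
  (TrL.c (I.pos (nat_lit 0) (nat_lit 0)) (xa T2.l4 T2.l4)
  (TrL.c (I.pos (nat_lit 0) (nat_lit 0)) T4.l5
  (TrL.c (I.pos (nat_lit 0) (nat_lit 0)) T2.l5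
  (TrL.c (I.pos (nat_lit 0) (nat_lit 0)) (xa (xb T2.l10 T2.l6) (xb (xa T2.l6 T2.l6) (xa T2.l6 T2.l6)))
  (TrL.c (I.pos (nat_lit 0) (nat_lit 0)) T4.l6
  (TrL.c (I.pos (nat_lit 0) (nat_lit 0)) T2.l7
  (TrL.c (I.pos (nat_lit 0) (nat_lit 0)) T4.l7
  TrL.n)))))))) (by decide +kernel)
theorem bx1_1 : BoxOK sI cl5 cl7 cl6 t4 t2 b1_1 :=
  box_mk (TrL.c (I.pos (nat_lit 0) (nat_lit 0)) (xa (xa (xb T4.l9 (xa T4.l9 T4.l9)) T4.l9) (xa T4.l9 (xb T4.l9 (xa T4.l9 T4.l9))))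
  (TrL.c (I.pos (nat_lit 0) (nat_lit 0)) T2.l4
  (TrL.c (I.pos (nat_lit 0) (nat_lit 0)) T4.l5
  (TrL.c (I.pos (nat_lit 0) (nat_lit 0)) T2.l5
  (TrL.c (I.pos (nat_lit 0) (nat_lit 0)) (xa T2.l9 T2.l9)
  (TrL.c (I.pos (nat_lit 0) (nat_lit 0)) T4.l6
  (TrL.c (I.pos (nat_lit 0) (nat_lit 0)) T2.l7
  (TrL.c (I.pos (nat_lit 0) (nat_lit 0)) T4.l7
  TrL.n)))))))) (by decide +kernel)
theorem bx1_2 : BoxOK sI cl5 cl7 cl6 t4 t2 b1_2 :=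
  box_mk (TrL.c (I.pos (nat_lit 0) (nat_lit 0)) (xb (xa T4.l9 T4.l9) (xa T4.l9 T4.l9))
  (TrL.c (I.pos (nat_lit 0) (nat_lit 0)) T2.l4
  (TrL.c (I.pos (nat_lit 0) (nat_lit 0)) T4.l5
  (TrL.c (I.pos (nat_lit 0) (nat_lit 0)) T2.l5
  (TrL.c (I.pos (nat_lit 0) (nat_lit 0)) (xb T2.l9 T2.l9)
  (TrL.c (I.pos (nat_lit 0) (nat_lit 0)) T4.l6
  (TrL.c (I.pos (nat_lit 0) (nat_lit 0)) T2.l7
  (TrL.c (I.pos (nat_lit 0) (nat_lit 0)) T4.l7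
  TrL.n)))))))) (by decide +kernel)
theorem bx1_3 : BoxOK sI cl5 cl7 cl6 t4 t2 b1_3 :=
  box_mk (TrL.c (I.pos (nat_lit 0) (nat_lit 0)) (xa (xa (xb T4.l9 T4.l9) T4.l9) T4.l9)
  (TrL.c (I.pos (nat_lit 0) (nat_lit 0)) T2.l4
  (TrL.c (I.pos (nat_lit 0) (nat_lit 0)) T4.l5
  (TrL.c (I.pos (nat_lit 0) (nat_lit 0)) T2.l5
  (TrL.c (I.pos (nat_lit 0) (nat_lit 0)) (xa T2.l4 T2.l9)
  (TrL.c (I.pos (nat_lit 0) (nat_lit 0)) T4.l6
  (TrL.c (I.pos (nat_lit 0) (nat_lit 0)) T2.l7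
  (TrL.c (I.pos (nat_lit 0) (nat_lit 0)) T4.l7
  TrL.n)))))))) (by decide +kernel)
theorem bx1_4 : BoxOK sI cl5 cl7 cl6 t4 t2 b1_4 :=
  box_mk (TrL.c (I.pos (nat_lit 0) (nat_lit 0)) (xa (xb T4.l0 T4.l0) (xa T4.l0 (xb T4.l0 T4.l0)))
  (TrL.c (I.pos (nat_lit 0) (nat_lit 0)) T2.l4
  (TrL.c (I.pos (nat_lit 0) (nat_lit 0)) T4.l5
  (TrL.c (I.pos (nat_lit 0) (nat_lit 0)) T2.l3
  (TrL.c (I.pos (nat_lit 0) (nat_lit 0)) (xa T2.l6 (xb (xa T2.l6 T2.l6) (xa T2.l6 T2.l6)))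
  (TrL.c (I.pos (nat_lit 0) (nat_lit 0)) T4.l6
  (TrL.c (I.pos (nat_lit 0) (nat_lit 0)) T2.l1
  (TrL.c (I.pos (nat_lit 0) (nat_lit 0)) T4.l7
  TrL.n)))))))) (by decide +kernel)
theorem bx1_5 : BoxOK sI cl5 cl7 cl6 t4 t2 b1_5 :=
  box_mk (TrL.c (I.pos (nat_lit 0) (nat_lit 0)) T4.l9
  (TrL.c (I.pos (nat_lit 0) (nat_lit 0)) T2.l4
  (TrL.c (I.pos (nat_lit 0) (nat_lit 0)) T4.l5
  (TrL.c (I.pos (nat_lit 0) (nat_lit 0)) T2.l5
  (TrL.c (I.pos (nat_lit 0) (nat_lit 0)) T2.l9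
  (TrL.c (I.pos (nat_lit 0) (nat_lit 0)) T4.l6
  (TrL.c (I.pos (nat_lit 0) (nat_lit 0)) T2.l7
  (TrL.c (I.pos (nat_lit 0) (nat_lit 0)) T4.l7
  TrL.n)))))))) (by decide +kernel)
theorem bx1_6 : BoxOK sI cl5 cl7 cl6 t4 t2 b1_6 :=
  box_mk (TrL.c (I.pos (nat_lit 0) (nat_lit 0)) T4.l9
  (TrL.c (I.pos (nat_lit 0) (nat_lit 0)) T2.l4
  (TrL.c (I.pos (nat_lit 0) (nat_lit 0)) T4.l5
  (TrL.c (I.pos (nat_lit 0) (nat_lit 0)) T2.l5
  (TrL.c (I.pos (nat_lit 0) (nat_lit 0)) T2.l9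
  (TrL.c (I.pos (nat_lit 0) (nat_lit 0)) T4.l6
  (TrL.c (I.pos (nat_lit 0) (nat_lit 0)) T2.l7
  (TrL.c (I.pos (nat_lit 0) (nat_lit 0)) T4.l7
  TrL.n)))))))) (by decide +kernel)
theorem bx1_7 : BoxOK sI cl5 cl7 cl6 t4 t2 b1_7 :=
  box_mk (TrL.c (I.pos (nat_lit 0) (nat_lit 0)) (xa (xb (xa T4.l9 T4.l9) (xa T4.l9 T4.l9)) (xb T4.l0 (xa T4.l9 T4.l0)))
  (TrL.c (I.pos (nat_lit 0) (nat_lit 0)) T2.l4
  (TrL.c (I.pos (nat_lit 0) (nat_lit 0)) T4.l5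
  (TrL.c (I.pos (nat_lit 0) (nat_lit 0)) T2.l5
  (TrL.c (I.pos (nat_lit 0) (nat_lit 0)) (xa T2.l9 (xb T2.l9 T2.l0))
  (TrL.c (I.pos (nat_lit 0) (nat_lit 0)) T4.l6
  (TrL.c (I.pos (nat_lit 0) (nat_lit 0)) T2.l7
  (TrL.c (I.pos (nat_lit 0) (nat_lit 0)) T4.l7
  TrL.n)))))))) (by decide +kernel)
theorem bx1_8 : BoxOK sI cl5 cl7 cl6 t4 t2 b1_8 :=
  box_mk (TrL.c (I.pos (nat_lit 0) (nat_lit 0)) (xa (xa (xb (xa (xb T4.l9 T4.l9) T4.l9) T4.l9) T4.l9) T4.l9)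
  (TrL.c (I.pos (nat_lit 0) (nat_lit 0)) (xa T2.l9 T2.l4)
  (TrL.c (I.pos (nat_lit 0) (nat_lit 0)) T4.l5
  (TrL.c (I.pos (nat_lit 0) (nat_lit 0)) T2.l5
  (TrL.c (I.pos (nat_lit 0) (nat_lit 0)) (xa T2.l4 T2.l9)
  (TrL.c (I.pos (nat_lit 0) (nat_lit 0)) T4.l6
  (TrL.c (I.pos (nat_lit 0) (nat_lit 0)) T2.l7
  (TrL.c (I.pos (nat_lit 0) (nat_lit 0)) T4.l7
  TrL.n)))))))) (by decide +kernel)
theorem bx1_9 : BoxOK sI cl5 cl7 cl6 t4 t2 b1_9 :=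
  box_mk (TrL.c (I.pos (nat_lit 0) (nat_lit 0)) (xb (xa (xb T4.l10 T4.l10) (xb T4.l10 T4.l10)) (xa (xb (xa T4.l10 T4.l10) (xa T4.l10 T4.l10)) (xb T4.l10 (xa T4.l10 T4.l10))))
  (TrL.c (I.pos (nat_lit 0) (nat_lit 0)) T2.l4
  (TrL.c (I.pos (nat_lit 0) (nat_lit 0)) T4.l5
  (TrL.c (I.pos (nat_lit 0) (nat_lit 0)) T2.l5
  (TrL.c (I.pos (nat_lit 0) (nat_lit 0)) (xb (xa T2.l10 T2.l10) (xa T2.l6 T2.l10))
  (TrL.c (I.pos (nat_lit 0) (nat_lit 0)) T4.l6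
  (TrL.c (I.pos (nat_lit 0) (nat_lit 0)) T2.l7
  (TrL.c (I.pos (nat_lit 0) (nat_lit 0)) T4.l7
  TrL.n)))))))) (by decide +kernel)
theorem bx1_10 : BoxOK sI cl5 cl7 cl6 t4 t2 b1_10 :=
  box_mk (TrL.c (I.pos (nat_lit 0) (nat_lit 0)) (xa (xa (xb (xb (xa (xa T4.l9 T4.l9) T4.l9) T4.l9) (xa (xb T4.l9 (xa T4.l9 T4.l9)) (xb T4.l9 T4.l9))) (xb T4.l9 (xa T4.l9 T4.l9))) (xa (xb T4.l9 T4.l9) (xb T4.l9 (xa T4.l9 (xb T4.l9 T4.l9)))))
  (TrL.c (I.pos (nat_lit 0) (nat_lit 0)) (xa T2.l4 T2.l4)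
  (TrL.c (I.pos (nat_lit 0) (nat_lit 0)) T4.l5
  (TrL.c (I.pos (nat_lit 0) (nat_lit 0)) T2.l5
  (TrL.c (I.pos (nat_lit 0) (nat_lit 0)) (xa T2.l9 T2.l9)
  (TrL.c (I.pos (nat_lit 0) (nat_lit 0)) T4.l6
  (TrL.c (I.pos (nat_lit 0) (nat_lit 0)) T2.l7
  (TrL.c (I.pos (nat_lit 0) (nat_lit 0)) T4.l7
  TrL.n)))))))) (by decide +kernel)
theorem bx1_11 : BoxOK sI cl5 cl7 cl6 t4 t2 b1_11 :=
  box_mk (TrL.c (I.pos (nat_lit 0) (nat_lit 0)) (xa (xb T4.l0 T4.l0) T4.l0)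
  (TrL.c (I.pos (nat_lit 0) (nat_lit 0)) T2.l4
  (TrL.c (I.pos (nat_lit 0) (nat_lit 0)) T4.l5
  (TrL.c (I.pos (nat_lit 0) (nat_lit 0)) T2.l5
  (TrL.c (I.pos (nat_lit 0) (nat_lit 0)) (xa T2.l10 T2.l0)
  (TrL.c (I.pos (nat_lit 0) (nat_lit 0)) T4.l6
  (TrL.c (I.pos (nat_lit 0) (nat_lit 0)) T2.l7
  (TrL.c (I.pos (nat_lit 0) (nat_lit 0)) T4.l7
  TrL.n)))))))) (by decide +kernel)
theorem bx1_12 : BoxOK sI cl5 cl7 cl6 t4 t2 b1_12 :=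
  box_mk (TrL.c (I.pos (nat_lit 0) (nat_lit 0)) (xb T4.l10 T4.l10)
  (TrL.c (I.pos (nat_lit 0) (nat_lit 0)) T2.l4
  (TrL.c (I.pos (nat_lit 0) (nat_lit 0)) T4.l5
  (TrL.c (I.pos (nat_lit 0) (nat_lit 0)) T2.l5
  (TrL.c (I.pos (nat_lit 0) (nat_lit 0)) T2.l10
  (TrL.c (I.pos (nat_lit 0) (nat_lit 0)) T4.l6
  (TrL.c (I.pos (nat_lit 0) (nat_lit 0)) T2.l7
  (TrL.c (I.pos (nat_lit 0) (nat_lit 0)) T4.l7
  TrL.n)))))))) (by decide +kernel)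
theorem bx1_13 : BoxOK sI cl5 cl7 cl6 t4 t2 b1_13 :=
  box_mk (TrL.c (I.pos (nat_lit 0) (nat_lit 0)) (xa (xb T4.l0 (xa T4.l0 T4.l0)) (xb T4.l0 (xa T4.l0 T4.l0)))
  (TrL.c (I.pos (nat_lit 0) (nat_lit 0)) T2.l4
  (TrL.c (I.pos (nat_lit 0) (nat_lit 0)) T4.l5
  (TrL.c (I.pos (nat_lit 0) (nat_lit 0)) T2.l5
  (TrL.c (I.pos (nat_lit 0) (nat_lit 0)) (xa T2.l6 T2.l6)
  (TrL.c (I.pos (nat_lit 0) (nat_lit 0)) T4.l6
  (TrL.c (I.pos (nat_lit 0) (nat_lit 0)) T2.l7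
  (TrL.c (I.pos (nat_lit 0) (nat_lit 0)) T4.l7
  TrL.n)))))))) (by decide +kernel)
theorem sv1 : StarV sI cl5 cl7 cl6 t4 t2 t1 :=
  (bt_n (bt_n (bt_n (bt_b bx1_0) (bt_n (bt_b bx1_1) (bt_b bx1_2))) (bt_n (bt_n (bt_b bx1_3) (bt_b bx1_4)) (bt_n (bt_b bx1_5) (bt_b bx1_6)))) (bt_n (bt_n (bt_b bx1_7) (bt_n (bt_b bx1_8) (bt_b bx1_9))) (bt_n (bt_n (bt_b bx1_10) (bt_b bx1_11)) (bt_n (bt_b bx1_12) (bt_b bx1_13)))))
def S1 : StarD := StarD.mk cl5 cl7 cl6 4 2 t1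
theorem bx2_0 : BoxOK sI cl6 cl5 cl7 t0 t5 b2_0 :=
  box_mk (TrL.c (I.pos (nat_lit 0) (nat_lit 0)) (xa (xb (xa T0.l0 T0.l0) (xa (xb T0.l0 T0.l0) (xb T0.l0 T0.l0))) (xb T0.l0 (xa (xb T0.l0 T0.l0) (xb T0.l0 T0.l0))))
  (TrL.c (I.pos (nat_lit 0) (nat_lit 0)) T5.l1
  (TrL.c (I.pos (nat_lit 0) (nat_lit 89480386)) T0.l1
  (TrL.c (I.pos (nat_lit 0) (nat_lit 41530880)) T5.l2
  (TrL.c (I.pos (nat_lit 0) (nat_lit 0)) (xa (xb T5.l3 T5.l3) (xb T5.l3 T5.l3))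
  (TrL.c (I.pos (nat_lit 0) (nat_lit 0)) T0.l2
  (TrL.c (I.mix (nat_lit 41527258) (nat_lit 41530880)) T5.l4
  (TrL.c (I.mix (nat_lit 41527258) (nat_lit 4274)) T0.l3
  TrL.n)))))))) (by decide +kernel)
theorem bx2_1 : BoxOK sI cl6 cl5 cl7 t0 t5 b2_1 :=
  box_mk (TrL.c (I.pos (nat_lit 0) (nat_lit 0)) (xb T0.l4 (xa T0.l4 T0.l4))
  (TrL.c (I.pos (nat_lit 0) (nat_lit 0)) T5.l1
  (TrL.c (I.pos (nat_lit 0) (nat_lit 89480386)) T0.l1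
  (TrL.c (I.pos (nat_lit 0) (nat_lit 41530880)) T5.l2
  (TrL.c (I.pos (nat_lit 0) (nat_lit 0)) T5.l5
  (TrL.c (I.pos (nat_lit 0) (nat_lit 0)) T0.l2
  (TrL.c (I.mix (nat_lit 41527258) (nat_lit 41530880)) T5.l4
  (TrL.c (I.mix (nat_lit 41527258) (nat_lit 4274)) T0.l3
  TrL.n)))))))) (by decide +kernel)
theorem bx2_2 : BoxOK sI cl6 cl5 cl7 t0 t5 b2_2 :=
  box_mk (TrL.c (I.pos (nat_lit 0) (nat_lit 0)) (xb (xa (xb T0.l4 T0.l4) T0.l4) (xa (xb T0.l4 T0.l4) T0.l4))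
  (TrL.c (I.pos (nat_lit 0) (nat_lit 0)) T5.l1
  (TrL.c (I.pos (nat_lit 0) (nat_lit 89480386)) T0.l1
  (TrL.c (I.pos (nat_lit 0) (nat_lit 41530880)) T5.l2
  (TrL.c (I.pos (nat_lit 0) (nat_lit 0)) T5.l5
  (TrL.c (I.pos (nat_lit 0) (nat_lit 0)) T0.l2
  (TrL.c (I.mix (nat_lit 41527258) (nat_lit 41530880)) T5.l4
  (TrL.c (I.mix (nat_lit 41527258) (nat_lit 4274)) T0.l3
  TrL.n)))))))) (by decide +kernel)
theorem bx2_3 : BoxOK sI cl6 cl5 cl7 t0 t5 b2_3 :=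
  box_mk (TrL.c (I.pos (nat_lit 0) (nat_lit 0)) T5.l1
  (TrL.c (I.pos (nat_lit 0) (nat_lit 0)) T0.l1
  (TrL.c (I.mix (nat_lit 41527258) (nat_lit 41530880)) T5.l6
  (TrL.c (I.mix (nat_lit 41527258) (nat_lit 4274)) T0.l8
  TrL.n)))) (by decide +kernel)
theorem bx2_4 : BoxOK sI cl6 cl5 cl7 t0 t5 b2_4 :=
  box_mk (TrL.c (I.pos (nat_lit 0) (nat_lit 0)) (xa (xb (xa T0.l4 T0.l4) (xa T0.l4 T0.l4)) (xb T0.l4 (xa T0.l4 T0.l4)))
  (TrL.c (I.pos (nat_lit 0) (nat_lit 0)) T5.l1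
  (TrL.c (I.pos (nat_lit 0) (nat_lit 89480386)) T0.l1
  (TrL.c (I.pos (nat_lit 0) (nat_lit 41530880)) T5.l2
  (TrL.c (I.pos (nat_lit 0) (nat_lit 0)) (xa T5.l5 T5.l5)
  (TrL.c (I.pos (nat_lit 0) (nat_lit 0)) T0.l2
  (TrL.c (I.mix (nat_lit 41527258) (nat_lit 41530880)) T5.l4
  (TrL.c (I.mix (nat_lit 41527258) (nat_lit 4274)) T0.l3
  TrL.n)))))))) (by decide +kernel)
theorem bx2_5 : BoxOK sI cl6 cl5 cl7 t0 t5 b2_5 :=
  box_mk (TrL.c (I.pos (nat_lit 0) (nat_lit 0)) T5.l10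
  (TrL.c (I.pos (nat_lit 0) (nat_lit 0)) T0.l1
  (TrL.c (I.mix (nat_lit 41527258) (nat_lit 41530880)) T5.l6
  (TrL.c (I.mix (nat_lit 41527258) (nat_lit 4274)) T0.l8
  TrL.n)))) (by decide +kernel)
theorem bx2_6 : BoxOK sI cl6 cl5 cl7 t0 t5 b2_6 :=
  box_mk (TrL.c (I.pos (nat_lit 0) (nat_lit 0)) (xb (xa T0.l10 T0.l10) (xa (xb T0.l10 T0.l10) (xb T0.l10 T0.l10)))
  (TrL.c (I.pos (nat_lit 0) (nat_lit 0)) T5.l1
  (TrL.c (I.pos (nat_lit 0) (nat_lit 89480386)) T0.l1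
  (TrL.c (I.pos (nat_lit 0) (nat_lit 41530880)) T5.l2
  (TrL.c (I.pos (nat_lit 0) (nat_lit 0)) (xb T5.l11 (xb T5.l3 (xa T5.l0 T5.l11)))
  (TrL.c (I.pos (nat_lit 0) (nat_lit 0)) T0.l2
  (TrL.c (I.mix (nat_lit 41527258) (nat_lit 41530880)) T5.l4
  (TrL.c (I.mix (nat_lit 41527258) (nat_lit 4274)) T0.l7
  TrL.n)))))))) (by decide +kernel)
theorem bx2_7 : BoxOK sI cl6 cl5 cl7 t0 t5 b2_7 :=
  box_mk (TrL.c (I.pos (nat_lit 0) (nat_lit 0)) (xb (xa (xb T0.l4 T0.l4) T0.l4) (xa T0.l4 T0.l4))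
  (TrL.c (I.pos (nat_lit 0) (nat_lit 0)) T5.l10
  (TrL.c (I.pos (nat_lit 0) (nat_lit 89480386)) T0.l1
  (TrL.c (I.pos (nat_lit 0) (nat_lit 41530880)) T5.l2
  (TrL.c (I.pos (nat_lit 0) (nat_lit 0)) T5.l5
  (TrL.c (I.pos (nat_lit 0) (nat_lit 0)) T0.l2
  (TrL.c (I.mix (nat_lit 41527258) (nat_lit 41530880)) T5.l4
  (TrL.c (I.mix (nat_lit 41527258) (nat_lit 4274)) T0.l3
  TrL.n)))))))) (by decide +kernel)
theorem bx2_8 : BoxOK sI cl6 cl5 cl7 t0 t5 b2_8 :=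
  box_mk (TrL.c (I.pos (nat_lit 0) (nat_lit 0)) (xa (xb (xa T0.l0 T0.l0) (xa T0.l0 T0.l0)) (xb (xa T0.l0 T0.l0) (xa T0.l0 T0.l0)))
  (TrL.c (I.pos (nat_lit 0) (nat_lit 0)) T5.l1
  (TrL.c (I.pos (nat_lit 0) (nat_lit 89480386)) T0.l1
  (TrL.c (I.pos (nat_lit 0) (nat_lit 41530880)) T5.l2
  (TrL.c (I.pos (nat_lit 0) (nat_lit 0)) (xb (xa (xa T5.l3 T5.l3) (xa (xb T5.l3 T5.l3) (xb T5.l3 T5.l3))) (xa T5.l3 (xb (xa T5.l3 T5.l3) (xa T5.l3 T5.l3))))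
  (TrL.c (I.pos (nat_lit 0) (nat_lit 0)) T0.l2
  (TrL.c (I.mix (nat_lit 41527258) (nat_lit 41530880)) T5.l7
  (TrL.c (I.mix (nat_lit 41527258) (nat_lit 4274)) T0.l7
  TrL.n)))))))) (by decide +kernel)
theorem bx2_9 : BoxOK sI cl6 cl5 cl7 t0 t5 b2_9 :=
  box_mk (TrL.c (I.pos (nat_lit 0) (nat_lit 0)) (xa (xb T0.l4 T0.l10) T0.l0)
  (TrL.c (I.pos (nat_lit 0) (nat_lit 0)) T5.l1
  (TrL.c (I.pos (nat_lit 0) (nat_lit 89480386)) T0.l1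
  (TrL.c (I.pos (nat_lit 0) (nat_lit 41530880)) T5.l2
  (TrL.c (I.pos (nat_lit 0) (nat_lit 0)) (xa T5.l5 T5.l11)
  (TrL.c (I.pos (nat_lit 0) (nat_lit 0)) T0.l2
  (TrL.c (I.mix (nat_lit 41527258) (nat_lit 41530880)) T5.l4
  (TrL.c (I.mix (nat_lit 41527258) (nat_lit 4274)) T0.l3
  TrL.n)))))))) (by decide +kernel)
theorem bx2_10 : BoxOK sI cl6 cl5 cl7 t0 t5 b2_10 :=
  box_mk (TrL.c (I.pos (nat_lit 0) (nat_lit 0)) (xb T0.l10 (xa T0.l10 T0.l10))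
  (TrL.c (I.pos (nat_lit 0) (nat_lit 0)) T5.l1
  (TrL.c (I.pos (nat_lit 0) (nat_lit 89480386)) T0.l1
  (TrL.c (I.pos (nat_lit 0) (nat_lit 41530880)) T5.l2
  (TrL.c (I.pos (nat_lit 0) (nat_lit 0)) T5.l11
  (TrL.c (I.pos (nat_lit 0) (nat_lit 0)) T0.l2
  (TrL.c (I.mix (nat_lit 41527258) (nat_lit 41530880)) T5.l4
  (TrL.c (I.mix (nat_lit 41527258) (nat_lit 4274)) T0.l3
  TrL.n)))))))) (by decide +kernel)
theorem bx2_11 : BoxOK sI cl6 cl5 cl7 t0 t5 b2_11 :=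
  box_mk (TrL.c (I.pos (nat_lit 0) (nat_lit 0)) (xa (xb T0.l0 (xa T0.l0 T0.l0)) (xb T0.l0 (xa T0.l0 T0.l0)))
  (TrL.c (I.pos (nat_lit 0) (nat_lit 0)) T5.l1
  (TrL.c (I.pos (nat_lit 0) (nat_lit 89480386)) T0.l1
  (TrL.c (I.pos (nat_lit 0) (nat_lit 41530880)) T5.l2
  (TrL.c (I.pos (nat_lit 0) (nat_lit 0)) (xa T5.l3 T5.l3)
  (TrL.c (I.pos (nat_lit 0) (nat_lit 0)) T0.l2
  (TrL.c (I.mix (nat_lit 41527258) (nat_lit 41530880)) T5.l4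
  (TrL.c (I.mix (nat_lit 41527258) (nat_lit 4274)) T0.l3
  TrL.n)))))))) (by decide +kernel)
theorem sv2 : StarV sI cl6 cl5 cl7 t0 t5 t2 :=
  (bt_n (bt_n (bt_n (bt_b bx2_0) (bt_n (bt_b bx2_1) (bt_b bx2_2))) (bt_n (bt_b bx2_3) (bt_n (bt_b bx2_4) (bt_b bx2_5)))) (bt_n (bt_n (bt_b bx2_6) (bt_n (bt_b bx2_7) (bt_b bx2_8))) (bt_n (bt_b bx2_9) (bt_n (bt_b bx2_10) (bt_b bx2_11)))))
def S2 : StarD := StarD.mk cl6 cl5 cl7 0 5 t2
theorem bx3_0 : BoxOK sI cl6 cl7 cl5 t5 t0 b3_0 :=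
  box_mk (TrL.c (I.pos (nat_lit 0) (nat_lit 0)) (xa (xb (xa (xb T5.l0 T5.l0) T5.l13) (xa (xb T5.l0 (xa T5.l0 T5.l0)) (xb T5.l0 (xa T5.l0 T5.l0)))) (xb (xa T5.l0 T5.l0) (xa (xb T5.l0 T5.l0) (xb T5.l0 T5.l0))))
  (TrL.c (I.pos (nat_lit 0) (nat_lit 0)) T0.l6
  (TrL.c (I.pos (nat_lit 0) (nat_lit 89480386)) T5.l7
  (TrL.c (I.pos (nat_lit 0) (nat_lit 41530880)) T0.l7
  (TrL.c (I.pos (nat_lit 0) (nat_lit 0)) (xa T0.l11 (xb T0.l11 T0.l11))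
  (TrL.c (I.pos (nat_lit 0) (nat_lit 0)) T5.l8
  (TrL.c (I.mix (nat_lit 41527258) (nat_lit 41530880)) T0.l8
  (TrL.c (I.mix (nat_lit 41527258) (nat_lit 4274)) T5.l9
  TrL.n)))))))) (by decide +kernel)
theorem bx3_1 : BoxOK sI cl6 cl7 cl5 t5 t0 b3_1 :=
  box_mk (TrL.c (I.pos (nat_lit 0) (nat_lit 0)) (xa (xb (xa T5.l12 T5.l12) T5.l12) (xb T5.l0 (xa T5.l12 T5.l0)))
  (TrL.c (I.pos (nat_lit 0) (nat_lit 0)) T0.l6
  (TrL.c (I.pos (nat_lit 0) (nat_lit 89480386)) T5.l7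
  (TrL.c (I.pos (nat_lit 0) (nat_lit 41530880)) T0.l7
  (TrL.c (I.pos (nat_lit 0) (nat_lit 0)) (xa T0.l12 (xb T0.l12 T0.l12))
  (TrL.c (I.pos (nat_lit 0) (nat_lit 0)) T5.l8
  (TrL.c (I.mix (nat_lit 41527258) (nat_lit 41530880)) T0.l8
  (TrL.c (I.mix (nat_lit 41527258) (nat_lit 4274)) T5.l9
  TrL.n)))))))) (by decide +kernel)
theorem bx3_2 : BoxOK sI cl6 cl7 cl5 t5 t0 b3_2 :=
  box_mk (TrL.c (I.pos (nat_lit 0) (nat_lit 0)) (xa (xa (xb T5.l12 T5.l12) T5.l12) T5.l12)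
  (TrL.c (I.pos (nat_lit 0) (nat_lit 0)) (xa T0.l12 T0.l6)
  (TrL.c (I.pos (nat_lit 0) (nat_lit 89480386)) T5.l7
  (TrL.c (I.pos (nat_lit 0) (nat_lit 41530880)) T0.l7
  (TrL.c (I.pos (nat_lit 0) (nat_lit 0)) (xa T0.l6 T0.l12)
  (TrL.c (I.pos (nat_lit 0) (nat_lit 0)) T5.l8
  (TrL.c (I.mix (nat_lit 41527258) (nat_lit 41530880)) T0.l8
  (TrL.c (I.mix (nat_lit 41527258) (nat_lit 4274)) T5.l9
  TrL.n)))))))) (by decide +kernel)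
theorem bx3_3 : BoxOK sI cl6 cl7 cl5 t5 t0 b3_3 :=
  box_mk (TrL.c (I.pos (nat_lit 0) (nat_lit 0)) (xb (xa (xb T5.l13 T5.l13) (xb T5.l13 T5.l13)) (xa (xb (xa T5.l13 T5.l13) (xa T5.l13 T5.l13)) (xb T5.l13 (xa T5.l13 T5.l13))))
  (TrL.c (I.pos (nat_lit 0) (nat_lit 0)) T0.l6
  (TrL.c (I.pos (nat_lit 0) (nat_lit 89480386)) T5.l7
  (TrL.c (I.pos (nat_lit 0) (nat_lit 41530880)) T0.l7
  (TrL.c (I.pos (nat_lit 0) (nat_lit 0)) (xb T0.l13 T0.l13)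
  (TrL.c (I.pos (nat_lit 0) (nat_lit 0)) T5.l8
  (TrL.c (I.mix (nat_lit 41527258) (nat_lit 41530880)) T0.l8
  (TrL.c (I.mix (nat_lit 41527258) (nat_lit 4274)) T5.l9
  TrL.n)))))))) (by decide +kernel)
theorem bx3_4 : BoxOK sI cl6 cl7 cl5 t5 t0 b3_4 :=
  box_mk (TrL.c (I.pos (nat_lit 0) (nat_lit 0)) (xa (xa (xb (xa T5.l12 T5.l12) (xa (xb T5.l12 (xa T5.l12 T5.l12)) (xb T5.l12 T5.l12))) (xb T5.l12 (xa T5.l12 T5.l12))) (xa (xb T5.l12 T5.l12) (xb T5.l12 (xa T5.l12 (xb T5.l12 T5.l12)))))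
  (TrL.c (I.pos (nat_lit 0) (nat_lit 0)) (xa T0.l6 T0.l6)
  (TrL.c (I.pos (nat_lit 0) (nat_lit 89480386)) T5.l7
  (TrL.c (I.pos (nat_lit 0) (nat_lit 41530880)) T0.l7
  (TrL.c (I.pos (nat_lit 0) (nat_lit 0)) (xa T0.l12 T0.l12)
  (TrL.c (I.pos (nat_lit 0) (nat_lit 0)) T5.l8
  (TrL.c (I.mix (nat_lit 41527258) (nat_lit 41530880)) T0.l8
  (TrL.c (I.mix (nat_lit 41527258) (nat_lit 4274)) T5.l9
  TrL.n)))))))) (by decide +kernel)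
theorem bx3_5 : BoxOK sI cl6 cl7 cl5 t5 t0 b3_5 :=
  box_mk (TrL.c (I.pos (nat_lit 0) (nat_lit 0)) (xa (xb T5.l0 T5.l0) T5.l0)
  (TrL.c (I.pos (nat_lit 0) (nat_lit 0)) T0.l6
  (TrL.c (I.pos (nat_lit 0) (nat_lit 89480386)) T5.l7
  (TrL.c (I.pos (nat_lit 0) (nat_lit 41530880)) T0.l7
  (TrL.c (I.pos (nat_lit 0) (nat_lit 0)) (xa T0.l13 T0.l0)
  (TrL.c (I.pos (nat_lit 0) (nat_lit 0)) T5.l8
  (TrL.c (I.mix (nat_lit 41527258) (nat_lit 41530880)) T0.l8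
  (TrL.c (I.mix (nat_lit 41527258) (nat_lit 4274)) T5.l9
  TrL.n)))))))) (by decide +kernel)
theorem bx3_6 : BoxOK sI cl6 cl7 cl5 t5 t0 b3_6 :=
  box_mk (TrL.c (I.pos (nat_lit 0) (nat_lit 0)) T5.l12
  (TrL.c (I.pos (nat_lit 0) (nat_lit 0)) T0.l6
  (TrL.c (I.pos (nat_lit 0) (nat_lit 89480386)) T5.l7
  (TrL.c (I.pos (nat_lit 0) (nat_lit 41530880)) T0.l7
  (TrL.c (I.pos (nat_lit 0) (nat_lit 0)) T0.l12
  (TrL.c (I.pos (nat_lit 0) (nat_lit 0)) T5.l8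
  (TrL.c (I.mix (nat_lit 41527258) (nat_lit 41530880)) T0.l8
  (TrL.c (I.mix (nat_lit 41527258) (nat_lit 4274)) T5.l9
  TrL.n)))))))) (by decide +kernel)
theorem bx3_7 : BoxOK sI cl6 cl7 cl5 t5 t0 b3_7 :=
  box_mk (TrL.c (I.pos (nat_lit 0) (nat_lit 0)) (xa T5.l12 T5.l12)
  (TrL.c (I.pos (nat_lit 0) (nat_lit 0)) (xa T0.l6 T0.l6)
  (TrL.c (I.pos (nat_lit 0) (nat_lit 89480386)) T5.l7
  (TrL.c (I.pos (nat_lit 0) (nat_lit 41530880)) T0.l7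
  (TrL.c (I.pos (nat_lit 0) (nat_lit 0)) (xa T0.l12 T0.l12)
  (TrL.c (I.pos (nat_lit 0) (nat_lit 0)) T5.l8
  (TrL.c (I.mix (nat_lit 41527258) (nat_lit 41530880)) T0.l8
  (TrL.c (I.mix (nat_lit 41527258) (nat_lit 4274)) T5.l9
  TrL.n)))))))) (by decide +kernel)
theorem bx3_8 : BoxOK sI cl6 cl7 cl5 t5 t0 b3_8 :=
  box_mk (TrL.c (I.pos (nat_lit 0) (nat_lit 0)) (xa (xa (xb T5.l12 T5.l12) T5.l12) (xa T5.l12 (xb T5.l12 (xa T5.l12 T5.l12))))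
  (TrL.c (I.pos (nat_lit 0) (nat_lit 0)) (xa T0.l6 T0.l6)
  (TrL.c (I.pos (nat_lit 0) (nat_lit 89480386)) T5.l7
  (TrL.c (I.pos (nat_lit 0) (nat_lit 41530880)) T0.l7
  (TrL.c (I.pos (nat_lit 0) (nat_lit 0)) (xa T0.l12 T0.l12)
  (TrL.c (I.pos (nat_lit 0) (nat_lit 0)) T5.l8
  (TrL.c (I.mix (nat_lit 41527258) (nat_lit 41530880)) T0.l8
  (TrL.c (I.mix (nat_lit 41527258) (nat_lit 4274)) T5.l9
  TrL.n)))))))) (by decide +kernel)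
theorem bx3_9 : BoxOK sI cl6 cl7 cl5 t5 t0 b3_9 :=
  box_mk (TrL.c (I.pos (nat_lit 0) (nat_lit 0)) (xb (xa T5.l12 T5.l12) (xa T5.l12 T5.l12))
  (TrL.c (I.pos (nat_lit 0) (nat_lit 0)) T0.l6
  (TrL.c (I.pos (nat_lit 0) (nat_lit 89480386)) T5.l7
  (TrL.c (I.pos (nat_lit 0) (nat_lit 41530880)) T0.l7
  (TrL.c (I.pos (nat_lit 0) (nat_lit 0)) (xb T0.l12 T0.l12)
  (TrL.c (I.pos (nat_lit 0) (nat_lit 0)) T5.l8
  (TrL.c (I.mix (nat_lit 41527258) (nat_lit 41530880)) T0.l8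
  (TrL.c (I.mix (nat_lit 41527258) (nat_lit 4274)) T5.l9
  TrL.n)))))))) (by decide +kernel)
theorem bx3_10 : BoxOK sI cl6 cl7 cl5 t5 t0 b3_10 :=
  box_mk (TrL.c (I.pos (nat_lit 0) (nat_lit 0)) (xa (xa (xb (xa (xb T5.l12 T5.l12) T5.l12) T5.l12) T5.l12) T5.l12)
  (TrL.c (I.pos (nat_lit 0) (nat_lit 0)) (xa T0.l12 T0.l6)
  (TrL.c (I.pos (nat_lit 0) (nat_lit 89480386)) T5.l7
  (TrL.c (I.pos (nat_lit 0) (nat_lit 41530880)) T0.l7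
  (TrL.c (I.pos (nat_lit 0) (nat_lit 0)) (xa T0.l6 T0.l12)
  (TrL.c (I.pos (nat_lit 0) (nat_lit 0)) T5.l8
  (TrL.c (I.mix (nat_lit 41527258) (nat_lit 41530880)) T0.l8
  (TrL.c (I.mix (nat_lit 41527258) (nat_lit 4274)) T5.l9
  TrL.n)))))))) (by decide +kernel)
theorem bx3_11 : BoxOK sI cl6 cl7 cl5 t5 t0 b3_11 :=
  box_mk (TrL.c (I.pos (nat_lit 0) (nat_lit 0)) (xa (xb (xa T5.l0 T5.l0) (xa (xb T5.l0 T5.l0) (xb T5.l0 T5.l0))) (xb (xa T5.l0 T5.l0) (xa (xb T5.l0 T5.l0) (xb T5.l0 T5.l0))))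
  (TrL.c (I.pos (nat_lit 0) (nat_lit 0)) T0.l6
  (TrL.c (I.pos (nat_lit 0) (nat_lit 89480386)) (xR T5.l7 T5.l7)
  (TrL.c (I.pos (nat_lit 0) (nat_lit 41530880)) T0.l7
  (TrL.c (I.pos (nat_lit 0) (nat_lit 0)) (xa (xb T0.l11 T0.l11) (xb (xa T0.l11 (xb T0.l11 T0.l11)) (xa T0.l11 (xb T0.l11 T0.l11))))
  (TrL.c (I.pos (nat_lit 0) (nat_lit 0)) T5.l8
  (TrL.c (I.mix (nat_lit 41527258) (nat_lit 41530880)) T0.l8
  (TrL.c (I.mix (nat_lit 41527258) (nat_lit 4274)) T5.l9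
  TrL.n)))))))) (by decide +kernel)
theorem bx3_12 : BoxOK sI cl6 cl7 cl5 t5 t0 b3_12 :=
  box_mk (TrL.c (I.pos (nat_lit 0) (nat_lit 0)) (xa (xb T5.l0 (xa T5.l0 T5.l0)) (xb T5.l0 (xa T5.l0 T5.l0)))
  (TrL.c (I.pos (nat_lit 0) (nat_lit 0)) T0.l6
  (TrL.c (I.pos (nat_lit 0) (nat_lit 89480386)) T5.l7
  (TrL.c (I.pos (nat_lit 0) (nat_lit 41530880)) T0.l7
  (TrL.c (I.pos (nat_lit 0) (nat_lit 0)) T0.l11
  (TrL.c (I.pos (nat_lit 0) (nat_lit 0)) T5.l8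
  (TrL.c (I.mix (nat_lit 41527258) (nat_lit 41530880)) T0.l8
  (TrL.c (I.mix (nat_lit 41527258) (nat_lit 4274)) T5.l9
  TrL.n)))))))) (by decide +kernel)
theorem bx3_13 : BoxOK sI cl6 cl7 cl5 t5 t0 b3_13 :=
  box_mk (TrL.c (I.pos (nat_lit 0) (nat_lit 0)) (xa T5.l13 T5.l13)
  (TrL.c (I.pos (nat_lit 0) (nat_lit 0)) T0.l6
  (TrL.c (I.pos (nat_lit 0) (nat_lit 89480386)) T5.l7
  (TrL.c (I.pos (nat_lit 0) (nat_lit 41530880)) T0.l7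
  (TrL.c (I.pos (nat_lit 0) (nat_lit 0)) T0.l13
  (TrL.c (I.pos (nat_lit 0) (nat_lit 0)) T5.l8
  (TrL.c (I.mix (nat_lit 41527258) (nat_lit 41530880)) T0.l8
  (TrL.c (I.mix (nat_lit 41527258) (nat_lit 4274)) T5.l9
  TrL.n)))))))) (by decide +kernel)
theorem sv3 : StarV sI cl6 cl7 cl5 t5 t0 t3 :=
  (bt_n (bt_n (bt_n (bt_b bx3_0) (bt_n (bt_b bx3_1) (bt_b bx3_2))) (bt_n (bt_n (bt_b bx3_3) (bt_b bx3_4)) (bt_n (bt_b bx3_5) (bt_b bx3_6)))) (bt_n (bt_n (bt_b bx3_7) (bt_n (bt_b bx3_8) (bt_b bx3_9))) (bt_n (bt_n (bt_b bx3_10) (bt_b bx3_11)) (bt_n (bt_b bx3_12) (bt_b bx3_13)))))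
def S3 : StarD := StarD.mk cl6 cl7 cl5 5 0 t3
theorem bx4_0 : BoxOK sI cl7 cl5 cl6 t1 t3 b4_0 :=
  box_mk (TrL.c (I.pos (nat_lit 0) (nat_lit 0)) (xa (xb (xa (xb T1.l0 T1.l0) T1.l0) (xa (xb T1.l0 (xa T1.l0 T1.l0)) (xb T1.l0 (xa T1.l0 T1.l0)))) (xb (xa T1.l0 T1.l0) (xa (xb T1.l0 (xa T1.l0 T1.l0)) (xb T1.l0 T1.l0))))
  (TrL.c (I.pos (nat_lit 0) (nat_lit 0)) (xa T3.l1 T3.l1)
  (TrL.c (I.pos (nat_lit 0) (nat_lit 111196574)) (xR T1.l1 T1.l1)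
  (TrL.c (I.pos (nat_lit 0) (nat_lit 77433728)) T3.l2
  (TrL.c (I.pos (nat_lit 0) (nat_lit 0)) (xa (xb (xk T3.l3 T3.l3) (xk T3.l3 T3.l3)) (xb (xk T3.l3 T3.l3) (xk (xa (xb T3.l3 T3.l3) (xb T3.l3 (xs T3.l3 (xb T3.l3 T3.l3)))) (xb T3.l3 (xa T3.l3 (xs T3.l3 (xb T3.l3 (xk T3.l3 T3.l3))))))))
  (TrL.c (I.pos (nat_lit 0) (nat_lit 0)) T1.l2
  (TrL.c (I.mix (nat_lit 29511666) (nat_lit 77433728)) (xR T3.l4 T3.l4)
  (TrL.c (I.mix (nat_lit 29511666) (nat_lit 46070178)) T1.l8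
  TrL.n)))))))) (by decide +kernel)
theorem bx4_1 : BoxOK sI cl7 cl5 cl6 t1 t3 b4_1 :=
  box_mk (TrL.c (I.pos (nat_lit 0) (nat_lit 0)) (xa (xb (xa T1.l4 T1.l4) (xa T1.l4 T1.l4)) (xb T1.l4 (xa T1.l4 T1.l4)))
  (TrL.c (I.pos (nat_lit 0) (nat_lit 0)) T3.l1
  (TrL.c (I.pos (nat_lit 0) (nat_lit 111196574)) T1.l1
  (TrL.c (I.pos (nat_lit 0) (nat_lit 77433728)) T3.l2
  (TrL.c (I.pos (nat_lit 0) (nat_lit 0)) (xa (xb T3.l5 T3.l5) (xb (xk T3.l5 T3.l5) T3.l5))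
  (TrL.c (I.pos (nat_lit 0) (nat_lit 0)) T1.l2
  (TrL.c (I.mix (nat_lit 29511666) (nat_lit 77433728)) T3.l4
  (TrL.c (I.mix (nat_lit 29511666) (nat_lit 46070178)) T1.l3
  TrL.n)))))))) (by decide +kernel)
theorem bx4_2 : BoxOK sI cl7 cl5 cl6 t1 t3 b4_2 :=
  box_mk (TrL.c (I.pos (nat_lit 0) (nat_lit 0)) T3.l1
  (TrL.c (I.pos (nat_lit 0) (nat_lit 0)) T1.l1
  (TrL.c (I.mix (nat_lit 29511666) (nat_lit 77433728)) T3.l7
  (TrL.c (I.mix (nat_lit 29511666) (nat_lit 46070178)) T1.l8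
  TrL.n)))) (by decide +kernel)
theorem bx4_3 : BoxOK sI cl7 cl5 cl6 t1 t3 b4_3 :=
  box_mk (TrL.c (I.pos (nat_lit 0) (nat_lit 0)) (xb (xa T1.l13 T1.l13) (xa (xb T1.l13 (xa T1.l13 T1.l13)) (xb T1.l13 T1.l13)))
  (TrL.c (I.pos (nat_lit 0) (nat_lit 0)) T3.l1
  (TrL.c (I.pos (nat_lit 0) (nat_lit 111196574)) (xR T1.l1 T1.l10)
  (TrL.c (I.pos (nat_lit 0) (nat_lit 77433728)) T3.l2
  (TrL.c (I.pos (nat_lit 0) (nat_lit 0)) (xb (xk T3.l3 T3.l3) (xk (xb T3.l3 (xa T3.l0 T3.l3)) (xb T3.l3 (xa T3.l0 (xs T3.l3 T3.l3)))))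
  (TrL.c (I.pos (nat_lit 0) (nat_lit 0)) T1.l2
  (TrL.c (I.mix (nat_lit 29511666) (nat_lit 77433728)) T3.l4
  (TrL.c (I.mix (nat_lit 29511666) (nat_lit 46070178)) T1.l3
  TrL.n)))))))) (by decide +kernel)
theorem bx4_4 : BoxOK sI cl7 cl5 cl6 t1 t3 b4_4 :=
  box_mk (TrL.c (I.pos (nat_lit 0) (nat_lit 0)) (xb T1.l4 T1.l4)
  (TrL.c (I.pos (nat_lit 0) (nat_lit 0)) T3.l1
  (TrL.c (I.pos (nat_lit 0) (nat_lit 111196574)) T1.l1
  (TrL.c (I.pos (nat_lit 0) (nat_lit 77433728)) T3.l2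
  (TrL.c (I.pos (nat_lit 0) (nat_lit 0)) T3.l5
  (TrL.c (I.pos (nat_lit 0) (nat_lit 0)) T1.l2
  (TrL.c (I.mix (nat_lit 29511666) (nat_lit 77433728)) T3.l4
  (TrL.c (I.mix (nat_lit 29511666) (nat_lit 46070178)) T1.l3
  TrL.n)))))))) (by decide +kernel)
theorem bx4_5 : BoxOK sI cl7 cl5 cl6 t1 t3 b4_5 :=
  box_mk (TrL.c (I.pos (nat_lit 0) (nat_lit 0)) (xa (xb T1.l4 T1.l4) (xb T1.l4 (xa T1.l4 T1.l4)))
  (TrL.c (I.pos (nat_lit 0) (nat_lit 0)) T3.l1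
  (TrL.c (I.pos (nat_lit 0) (nat_lit 111196574)) T1.l1
  (TrL.c (I.pos (nat_lit 0) (nat_lit 77433728)) T3.l2
  (TrL.c (I.pos (nat_lit 0) (nat_lit 0)) T3.l5
  (TrL.c (I.pos (nat_lit 0) (nat_lit 0)) T1.l2
  (TrL.c (I.mix (nat_lit 29511666) (nat_lit 77433728)) T3.l4
  (TrL.c (I.mix (nat_lit 29511666) (nat_lit 46070178)) T1.l3
  TrL.n)))))))) (by decide +kernel)
theorem bx4_6 : BoxOK sI cl7 cl5 cl6 t1 t3 b4_6 :=
  box_mk (TrL.c (I.pos (nat_lit 0) (nat_lit 0)) (xb (xa T1.l4 T1.l4) (xa (xb T1.l4 T1.l4) T1.l4))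
  (TrL.c (I.pos (nat_lit 0) (nat_lit 0)) T3.l1
  (TrL.c (I.pos (nat_lit 0) (nat_lit 111196574)) T1.l1
  (TrL.c (I.pos (nat_lit 0) (nat_lit 77433728)) T3.l2
  (TrL.c (I.pos (nat_lit 0) (nat_lit 0)) (xb T3.l5 T3.l5)
  (TrL.c (I.pos (nat_lit 0) (nat_lit 0)) T1.l2
  (TrL.c (I.mix (nat_lit 29511666) (nat_lit 77433728)) T3.l4
  (TrL.c (I.mix (nat_lit 29511666) (nat_lit 46070178)) T1.l3
  TrL.n)))))))) (by decide +kernel)
theorem bx4_7 : BoxOK sI cl7 cl5 cl6 t1 t3 b4_7 :=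
  box_mk (TrL.c (I.pos (nat_lit 0) (nat_lit 0)) T3.l1
  (TrL.c (I.pos (nat_lit 0) (nat_lit 0)) T1.l1
  (TrL.c (I.mix (nat_lit 29511666) (nat_lit 77433728)) T3.l7
  (TrL.c (I.mix (nat_lit 29511666) (nat_lit 46070178)) T1.l10
  TrL.n)))) (by decide +kernel)
theorem bx4_8 : BoxOK sI cl7 cl5 cl6 t1 t3 b4_8 :=
  box_mk (TrL.c (I.pos (nat_lit 0) (nat_lit 0)) (xa (xb T1.l0 T1.l13) T1.l0)
  (TrL.c (I.pos (nat_lit 0) (nat_lit 0)) T3.l1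
  (TrL.c (I.pos (nat_lit 0) (nat_lit 111196574)) T1.l1
  (TrL.c (I.pos (nat_lit 0) (nat_lit 77433728)) T3.l2
  (TrL.c (I.pos (nat_lit 0) (nat_lit 0)) (xa T3.l5 (xk T3.l3 T3.l13))
  (TrL.c (I.pos (nat_lit 0) (nat_lit 0)) T1.l2
  (TrL.c (I.mix (nat_lit 29511666) (nat_lit 77433728)) T3.l4
  (TrL.c (I.mix (nat_lit 29511666) (nat_lit 46070178)) T1.l3
  TrL.n)))))))) (by decide +kernel)
theorem bx4_9 : BoxOK sI cl7 cl5 cl6 t1 t3 b4_9 :=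
  box_mk (TrL.c (I.pos (nat_lit 0) (nat_lit 0)) (xa (xb (xa T1.l0 T1.l0) (xa (xb T1.l0 T1.l0) (xb T1.l0 T1.l0))) (xb (xa T1.l0 T1.l0) (xa (xb T1.l0 T1.l0) (xb T1.l0 T1.l0))))
  (TrL.c (I.pos (nat_lit 0) (nat_lit 0)) (xa T3.l1 T3.l1)
  (TrL.c (I.pos (nat_lit 0) (nat_lit 111196574)) (xR T1.l1 T1.l10)
  (TrL.c (I.pos (nat_lit 0) (nat_lit 77433728)) T3.l2
  (TrL.c (I.pos (nat_lit 0) (nat_lit 0)) (xa (xb (xk (xa T3.l3 T3.l3) (xa T3.l3 T3.l3)) (xa T3.l3 T3.l3)) (xb (xa (xk (xb T3.l3 T3.l3) (xb T3.l3 T3.l3)) (xk (xb (xk T3.l3 T3.l3) (xk T3.l3 T3.l3)) (xb (xa T3.l3 T3.l3) (xa T3.l3 T3.l3)))) (xa (xk (xb T3.l3 T3.l3) (xb T3.l3 T3.l3)) (xk (xb (xk T3.l3 T3.l3) (xk T3.l3 T3.l3)) (xb (xa T3.l3 T3.l3) (xk T3.l3 T3.l3))))))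
  (TrL.c (I.pos (nat_lit 0) (nat_lit 0)) (xb (xa T1.l2 T1.l2) (xa T1.l2 T1.l2))
  (TrL.c (I.mix (nat_lit 29511666) (nat_lit 77433728)) (xR T3.l4 T3.l4)
  (TrL.c (I.mix (nat_lit 29511666) (nat_lit 46070178)) T1.l8
  TrL.n)))))))) (by decide +kernel)
theorem bx4_10 : BoxOK sI cl7 cl5 cl6 t1 t3 b4_10 :=
  box_mk (TrL.c (I.pos (nat_lit 0) (nat_lit 0)) (xa (xb T1.l0 (xa T1.l0 T1.l0)) (xb (xb T1.l0 T1.l0) (xa T1.l0 T1.l0)))
  (TrL.c (I.pos (nat_lit 0) (nat_lit 0)) T3.l1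
  (TrL.c (I.pos (nat_lit 0) (nat_lit 111196574)) (xR T1.l1 T1.l10)
  (TrL.c (I.pos (nat_lit 0) (nat_lit 77433728)) T3.l2
  (TrL.c (I.pos (nat_lit 0) (nat_lit 0)) (xk (xa (xb T3.l3 (xb T3.l3 (xs T3.l0 T3.l0))) (xb T3.l3 (xb (xs T3.l3 (xk T3.l3 T3.l3)) (xs (xk T3.l3 T3.l3) (xk (xa T3.l0 (xb T3.l0 T3.l0)) (xa T3.l0 T3.l0)))))) (xa (xb T3.l3 (xb T3.l0 (xs T3.l0 T3.l0))) (xb (xb T3.l3 T3.l3) (xb (xs T3.l3 (xa T3.l0 (xk T3.l0 T3.l0))) (xs (xa T3.l0 (xk T3.l0 T3.l0)) (xa (xk T3.l0 T3.l0) (xk T3.l0 (xb T3.l0 T3.l0))))))))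
  (TrL.c (I.pos (nat_lit 0) (nat_lit 0)) T1.l2
  (TrL.c (I.mix (nat_lit 29511666) (nat_lit 77433728)) T3.l4
  (TrL.c (I.mix (nat_lit 29511666) (nat_lit 46070178)) T1.l3
  TrL.n)))))))) (by decide +kernel)
theorem bx4_11 : BoxOK sI cl7 cl5 cl6 t1 t3 b4_11 :=
  box_mk (TrL.c (I.pos (nat_lit 0) (nat_lit 0)) (xa T1.l13 (xb T1.l13 T1.l13))
  (TrL.c (I.pos (nat_lit 0) (nat_lit 0)) T3.l1
  (TrL.c (I.pos (nat_lit 0) (nat_lit 111196574)) T1.l1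
  (TrL.c (I.pos (nat_lit 0) (nat_lit 77433728)) T3.l2
  (TrL.c (I.pos (nat_lit 0) (nat_lit 0)) (xk T3.l3 T3.l3)
  (TrL.c (I.pos (nat_lit 0) (nat_lit 0)) T1.l2
  (TrL.c (I.mix (nat_lit 29511666) (nat_lit 77433728)) T3.l4
  (TrL.c (I.mix (nat_lit 29511666) (nat_lit 46070178)) T1.l3
  TrL.n)))))))) (by decide +kernel)
theorem sv4 : StarV sI cl7 cl5 cl6 t1 t3 t4 :=
  (bt_n (bt_n (bt_n (bt_b bx4_0) (bt_n (bt_b bx4_1) (bt_b bx4_2))) (bt_n (bt_b bx4_3) (bt_n (bt_b bx4_4) (bt_b bx4_5)))) (bt_n (bt_n (bt_b bx4_6) (bt_n (bt_b bx4_7) (bt_b bx4_8))) (bt_n (bt_b bx4_9) (bt_n (bt_b bx4_10) (bt_b bx4_11)))))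
def S4 : StarD := StarD.mk cl7 cl5 cl6 1 3 t4
theorem bx5_0 : BoxOK sI cl7 cl6 cl5 t3 t1 b5_0 :=
  box_mk (TrL.c (I.pos (nat_lit 0) (nat_lit 0)) (xa (xb (xa (xb T3.l0 T3.l0) (xb T3.l0 T3.l0)) (xa (xb (xa T3.l0 T3.l0) (xa T3.l0 T3.l0)) (xb T3.l0 (xa T3.l0 T3.l0)))) (xb (xa T3.l0 T3.l0) (xa (xb T3.l0 (xa T3.l0 T3.l0)) (xb T3.l0 (xa T3.l0 T3.l0)))))
  (TrL.c (I.pos (nat_lit 0) (nat_lit 0)) (xa T1.l7 T1.l7)
  (TrL.c (I.pos (nat_lit 0) (nat_lit 111196574)) (xR T3.l8 T3.l8)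
  (TrL.c (I.pos (nat_lit 0) (nat_lit 77433728)) T1.l8
  (TrL.c (I.pos (nat_lit 0) (nat_lit 0)) (xa (xb T1.l9 (xb T1.l12 (xk T1.l12 T1.l12))) (xb (xb T1.l9 T1.l9) (xk (xb T1.l9 (xa T1.l12 (xs T1.l9 (xk T1.l9 (xb T1.l12 T1.l9))))) (xb (xa T1.l12 T1.l9) (xa T1.l12 (xs (xk T1.l9 T1.l9) (xk (xb T1.l12 (xa T1.l12 T1.l12)) (xb T1.l12 T1.l12))))))))
  (TrL.c (I.pos (nat_lit 0) (nat_lit 0)) T3.l9
  (TrL.c (I.mix (nat_lit 29511666) (nat_lit 77433728)) (xR T1.l10 T1.l10)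
  (TrL.c (I.mix (nat_lit 29511666) (nat_lit 46070178)) T3.l10
  TrL.n)))))))) (by decide +kernel)
theorem bx5_1 : BoxOK sI cl7 cl6 cl5 t3 t1 b5_1 :=
  box_mk (TrL.c (I.pos (nat_lit 0) (nat_lit 0)) (xa (xb T3.l11 T3.l11) (xb T3.l0 (xa T3.l11 T3.l0)))
  (TrL.c (I.pos (nat_lit 0) (nat_lit 0)) T1.l7
  (TrL.c (I.pos (nat_lit 0) (nat_lit 111196574)) T3.l8
  (TrL.c (I.pos (nat_lit 0) (nat_lit 77433728)) T1.l8
  (TrL.c (I.pos (nat_lit 0) (nat_lit 0)) (xa (xb T1.l11 T1.l11) (xb T1.l11 T1.l11))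
  (TrL.c (I.pos (nat_lit 0) (nat_lit 0)) T3.l9
  (TrL.c (I.mix (nat_lit 29511666) (nat_lit 77433728)) T1.l10
  (TrL.c (I.mix (nat_lit 29511666) (nat_lit 46070178)) T3.l10
  TrL.n)))))))) (by decide +kernel)
theorem bx5_2 : BoxOK sI cl7 cl6 cl5 t3 t1 b5_2 :=
  box_mk (TrL.c (I.pos (nat_lit 0) (nat_lit 0)) T3.l11
  (TrL.c (I.pos (nat_lit 0) (nat_lit 0)) T1.l7
  (TrL.c (I.pos (nat_lit 0) (nat_lit 111196574)) T3.l8
  (TrL.c (I.pos (nat_lit 0) (nat_lit 77433728)) T1.l8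
  (TrL.c (I.pos (nat_lit 0) (nat_lit 0)) T1.l7
  (TrL.c (I.pos (nat_lit 0) (nat_lit 0)) T3.l9
  (TrL.c (I.mix (nat_lit 29511666) (nat_lit 77433728)) T1.l10
  (TrL.c (I.mix (nat_lit 29511666) (nat_lit 46070178)) T3.l10
  TrL.n)))))))) (by decide +kernel)
theorem bx5_3 : BoxOK sI cl7 cl6 cl5 t3 t1 b5_3 :=
  box_mk (TrL.c (I.pos (nat_lit 0) (nat_lit 0)) (xb (xa (xb T3.l12 T3.l12) (xb T3.l12 T3.l12)) (xa (xb (xa T3.l12 T3.l12) (xa T3.l12 T3.l12)) (xb (xa T3.l12 T3.l12) (xa T3.l12 T3.l12))))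
  (TrL.c (I.pos (nat_lit 0) (nat_lit 0)) T1.l7
  (TrL.c (I.pos (nat_lit 0) (nat_lit 111196574)) (xR T3.l8 T3.l8)
  (TrL.c (I.pos (nat_lit 0) (nat_lit 77433728)) T1.l8
  (TrL.c (I.pos (nat_lit 0) (nat_lit 0)) (xb T1.l9 (xk (xb T1.l12 T1.l12) (xb T1.l12 T1.l12)))
  (TrL.c (I.pos (nat_lit 0) (nat_lit 0)) T3.l9
  (TrL.c (I.mix (nat_lit 29511666) (nat_lit 77433728)) T1.l10
  (TrL.c (I.mix (nat_lit 29511666) (nat_lit 46070178)) T3.l2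
  TrL.n)))))))) (by decide +kernel)
theorem bx5_4 : BoxOK sI cl7 cl6 cl5 t3 t1 b5_4 :=
  box_mk (TrL.c (I.pos (nat_lit 0) (nat_lit 0)) (xa (xa (xb T3.l11 (xa (xb T3.l11 T3.l11) T3.l11)) (xb T3.l11 T3.l11)) (xa T3.l11 T3.l11))
  (TrL.c (I.pos (nat_lit 0) (nat_lit 0)) (xa T1.l7 T1.l7)
  (TrL.c (I.pos (nat_lit 0) (nat_lit 111196574)) T3.l8
  (TrL.c (I.pos (nat_lit 0) (nat_lit 77433728)) T1.l8
  (TrL.c (I.pos (nat_lit 0) (nat_lit 0)) (xa T1.l7 T1.l11)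
  (TrL.c (I.pos (nat_lit 0) (nat_lit 0)) T3.l9
  (TrL.c (I.mix (nat_lit 29511666) (nat_lit 77433728)) T1.l10
  (TrL.c (I.mix (nat_lit 29511666) (nat_lit 46070178)) T3.l10
  TrL.n)))))))) (by decide +kernel)
theorem bx5_5 : BoxOK sI cl7 cl6 cl5 t3 t1 b5_5 :=
  box_mk (TrL.c (I.pos (nat_lit 0) (nat_lit 0)) (xa T3.l0 T3.l0)
  (TrL.c (I.pos (nat_lit 0) (nat_lit 0)) T1.l7
  (TrL.c (I.pos (nat_lit 0) (nat_lit 111196574)) T3.l8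
  (TrL.c (I.pos (nat_lit 0) (nat_lit 77433728)) T1.l8
  (TrL.c (I.pos (nat_lit 0) (nat_lit 0)) (xa T1.l12 T1.l9)
  (TrL.c (I.pos (nat_lit 0) (nat_lit 0)) T3.l9
  (TrL.c (I.mix (nat_lit 29511666) (nat_lit 77433728)) T1.l10
  (TrL.c (I.mix (nat_lit 29511666) (nat_lit 46070178)) T3.l10
  TrL.n)))))))) (by decide +kernel)
theorem bx5_6 : BoxOK sI cl7 cl6 cl5 t3 t1 b5_6 :=
  box_mk (TrL.c (I.pos (nat_lit 0) (nat_lit 0)) (xa T3.l11 T3.l11)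
  (TrL.c (I.pos (nat_lit 0) (nat_lit 0)) T1.l7
  (TrL.c (I.pos (nat_lit 0) (nat_lit 111196574)) T3.l8
  (TrL.c (I.pos (nat_lit 0) (nat_lit 77433728)) T1.l8
  (TrL.c (I.pos (nat_lit 0) (nat_lit 0)) T1.l7
  (TrL.c (I.pos (nat_lit 0) (nat_lit 0)) T3.l9
  (TrL.c (I.mix (nat_lit 29511666) (nat_lit 77433728)) T1.l10
  (TrL.c (I.mix (nat_lit 29511666) (nat_lit 46070178)) T3.l10
  TrL.n)))))))) (by decide +kernel)
theorem bx5_7 : BoxOK sI cl7 cl6 cl5 t3 t1 b5_7 :=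
  box_mk (TrL.c (I.pos (nat_lit 0) (nat_lit 0)) (xa (xa (xb (xa (xb T3.l11 T3.l11) T3.l11) (xa (xb T3.l11 (xa T3.l11 T3.l11)) (xb T3.l11 T3.l11))) (xb T3.l11 (xa T3.l11 T3.l11))) (xa (xb T3.l11 T3.l11) (xb T3.l11 (xa T3.l11 (xb T3.l11 T3.l11)))))
  (TrL.c (I.pos (nat_lit 0) (nat_lit 0)) (xa T1.l7 T1.l7)
  (TrL.c (I.pos (nat_lit 0) (nat_lit 111196574)) T3.l8
  (TrL.c (I.pos (nat_lit 0) (nat_lit 77433728)) T1.l8
  (TrL.c (I.pos (nat_lit 0) (nat_lit 0)) (xa T1.l7 T1.l11)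
  (TrL.c (I.pos (nat_lit 0) (nat_lit 0)) T3.l9
  (TrL.c (I.mix (nat_lit 29511666) (nat_lit 77433728)) T1.l10
  (TrL.c (I.mix (nat_lit 29511666) (nat_lit 46070178)) T3.l10
  TrL.n)))))))) (by decide +kernel)
theorem bx5_8 : BoxOK sI cl7 cl6 cl5 t3 t1 b5_8 :=
  box_mk (TrL.c (I.pos (nat_lit 0) (nat_lit 0)) (xb (xa T3.l11 T3.l11) (xa T3.l11 T3.l11))
  (TrL.c (I.pos (nat_lit 0) (nat_lit 0)) T1.l7
  (TrL.c (I.pos (nat_lit 0) (nat_lit 111196574)) T3.l8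
  (TrL.c (I.pos (nat_lit 0) (nat_lit 77433728)) T1.l8
  (TrL.c (I.pos (nat_lit 0) (nat_lit 0)) (xb (xa T1.l11 T1.l11) T1.l11)
  (TrL.c (I.pos (nat_lit 0) (nat_lit 0)) T3.l9
  (TrL.c (I.mix (nat_lit 29511666) (nat_lit 77433728)) T1.l10
  (TrL.c (I.mix (nat_lit 29511666) (nat_lit 46070178)) T3.l10
  TrL.n)))))))) (by decide +kernel)
theorem bx5_9 : BoxOK sI cl7 cl6 cl5 t3 t1 b5_9 :=
  box_mk (TrL.c (I.pos (nat_lit 0) (nat_lit 0)) (xa (xb (xa (xb T3.l11 T3.l11) T3.l11) T3.l11) T3.l11)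
  (TrL.c (I.pos (nat_lit 0) (nat_lit 0)) T1.l7
  (TrL.c (I.pos (nat_lit 0) (nat_lit 111196574)) T3.l8
  (TrL.c (I.pos (nat_lit 0) (nat_lit 77433728)) T1.l10
  (TrL.c (I.pos (nat_lit 0) (nat_lit 0)) T1.l7
  (TrL.c (I.pos (nat_lit 0) (nat_lit 0)) T3.l9
  (TrL.c (I.mix (nat_lit 29511666) (nat_lit 77433728)) T1.l10
  (TrL.c (I.mix (nat_lit 29511666) (nat_lit 46070178)) T3.l10
  TrL.n)))))))) (by decide +kernel)
theorem bx5_10 : BoxOK sI cl7 cl6 cl5 t3 t1 b5_10 :=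
  box_mk (TrL.c (I.pos (nat_lit 0) (nat_lit 0)) T3.l0
  (TrL.c (I.pos (nat_lit 0) (nat_lit 0)) T1.l7
  (TrL.c (I.pos (nat_lit 0) (nat_lit 111196574)) T3.l8
  (TrL.c (I.pos (nat_lit 0) (nat_lit 77433728)) T1.l8
  (TrL.c (I.pos (nat_lit 0) (nat_lit 0)) T1.l11
  (TrL.c (I.pos (nat_lit 0) (nat_lit 0)) T3.l9
  (TrL.c (I.mix (nat_lit 29511666) (nat_lit 77433728)) T1.l10
  (TrL.c (I.mix (nat_lit 29511666) (nat_lit 46070178)) T3.l10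
  TrL.n)))))))) (by decide +kernel)
theorem bx5_11 : BoxOK sI cl7 cl6 cl5 t3 t1 b5_11 :=
  box_mk (TrL.c (I.pos (nat_lit 0) (nat_lit 0)) (xa T3.l12 T3.l12)
  (TrL.c (I.pos (nat_lit 0) (nat_lit 0)) T1.l7
  (TrL.c (I.pos (nat_lit 0) (nat_lit 111196574)) T3.l8
  (TrL.c (I.pos (nat_lit 0) (nat_lit 77433728)) T1.l8
  (TrL.c (I.pos (nat_lit 0) (nat_lit 0)) T1.l12
  (TrL.c (I.pos (nat_lit 0) (nat_lit 0)) T3.l9
  (TrL.c (I.mix (nat_lit 29511666) (nat_lit 77433728)) T1.l10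
  (TrL.c (I.mix (nat_lit 29511666) (nat_lit 46070178)) T3.l10
  TrL.n)))))))) (by decide +kernel)
theorem bx5_12 : BoxOK sI cl7 cl6 cl5 t3 t1 b5_12 :=
  box_mk (TrL.c (I.pos (nat_lit 0) (nat_lit 0)) (xa (xb (xa (xb T3.l0 T3.l0) T3.l0) (xa (xb T3.l0 (xa T3.l0 T3.l0)) (xb T3.l0 (xa T3.l0 T3.l0)))) (xb (xa T3.l0 T3.l0) (xa (xb T3.l0 (xa T3.l0 T3.l0)) (xb T3.l0 (xa T3.l0 T3.l0)))))
  (TrL.c (I.pos (nat_lit 0) (nat_lit 0)) (xa T1.l7 T1.l7)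
  (TrL.c (I.pos (nat_lit 0) (nat_lit 111196574)) (xR T3.l8 T3.l4)
  (TrL.c (I.pos (nat_lit 0) (nat_lit 77433728)) T1.l8
  (TrL.c (I.pos (nat_lit 0) (nat_lit 0)) (xa (xb (xk (xa T1.l9 T1.l9) (xa T1.l9 T1.l9)) (xk T1.l9 T1.l9)) (xb (xk (xa (xb T1.l9 T1.l9) (xb (xk T1.l9 T1.l9) (xk T1.l9 T1.l9))) (xa (xb T1.l9 T1.l9) (xb (xa T1.l9 T1.l9) T1.l9))) (xa (xk (xb T1.l9 T1.l9) T1.l9) (xk (xb (xk T1.l9 T1.l9) (xk T1.l9 T1.l9)) (xb (xa T1.l9 T1.l9) (xk T1.l9 T1.l9))))))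
  (TrL.c (I.pos (nat_lit 0) (nat_lit 0)) (xa T3.l9 (xb T3.l9 T3.l9))
  (TrL.c (I.mix (nat_lit 29511666) (nat_lit 77433728)) (xR T1.l10 T1.l10)
  (TrL.c (I.mix (nat_lit 29511666) (nat_lit 46070178)) T3.l10
  TrL.n)))))))) (by decide +kernel)
theorem bx5_13 : BoxOK sI cl7 cl6 cl5 t3 t1 b5_13 :=
  box_mk (TrL.c (I.pos (nat_lit 0) (nat_lit 0)) (xa (xb (xa T3.l0 T3.l0) (xa T3.l0 T3.l0)) (xb (xa (xb T3.l0 T3.l0) (xb T3.l0 T3.l0)) (xa (xb T3.l0 T3.l0) (xs T3.l0 T3.l0))))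
  (TrL.c (I.pos (nat_lit 0) (nat_lit 0)) T1.l7
  (TrL.c (I.pos (nat_lit 0) (nat_lit 111196574)) (xR T3.l8 T3.l8)
  (TrL.c (I.pos (nat_lit 0) (nat_lit 77433728)) T1.l8
  (TrL.c (I.pos (nat_lit 0) (nat_lit 0)) (xk (xb (xa T1.l12 T1.l9) (xa T1.l12 (xb (xs T1.l9 (xk T1.l12 T1.l12)) (xs (xk T1.l9 T1.l9) (xk T1.l12 T1.l12))))) (xb (xa T1.l12 (xb T1.l12 T1.l12)) (xa T1.l12 (xb (xs T1.l9 T1.l12) (xs (xk T1.l12 T1.l12) (xk T1.l12 (xa T1.l12 T1.l12)))))))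
  (TrL.c (I.pos (nat_lit 0) (nat_lit 0)) T3.l9
  (TrL.c (I.mix (nat_lit 29511666) (nat_lit 77433728)) (xR T1.l10 T1.l10)
  (TrL.c (I.mix (nat_lit 29511666) (nat_lit 46070178)) T3.l10
  TrL.n)))))))) (by decide +kernel)
theorem sv5 : StarV sI cl7 cl6 cl5 t3 t1 t5 :=
  (bt_n (bt_n (bt_n (bt_b bx5_0) (bt_n (bt_b bx5_1) (bt_b bx5_2))) (bt_n (bt_n (bt_b bx5_3) (bt_b bx5_4)) (bt_n (bt_b bx5_5) (bt_b bx5_6)))) (bt_n (bt_n (bt_b bx5_7) (bt_n (bt_b bx5_8) (bt_b bx5_9))) (bt_n (bt_n (bt_b bx5_10) (bt_b bx5_11)) (bt_n (bt_b bx5_12) (bt_b bx5_13)))))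
def S5 : StarD := StarD.mk cl7 cl6 cl5 3 1 t5
def G : List StarD := [S0, S1, S2, S3, S4, S5]
theorem so0 : StarOK sI G S0 :=
  star_mk (by decide) (by decide) rfl rfl rfl rfl rfl rfl (rfl : _ = t2) (rfl : _ = t4)
  (st_mk (Pth.l (Pth.l (Pth.l Pth.z))) (nat_lit 192115575) (nat_lit 193136946) (by decide +kernel))
  (st_mk (Pth.l (Pth.l (Pth.l Pth.z))) (nat_lit 229583620) (nat_lit 231060528) (by decide +kernel))
  (st_mk (Pth.l (Pth.l (Pth.l Pth.z))) (nat_lit 273439177) (nat_lit 275568744) (by decide +kernel)) sv0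
theorem so1 : StarOK sI G S1 :=
  star_mk (by decide) (by decide) rfl rfl rfl rfl rfl rfl (rfl : _ = t4) (rfl : _ = t2)
  (st_mk (Pth.l (Pth.l (Pth.l Pth.z))) (nat_lit 144036804) (nat_lit 167143069) (by decide +kernel))
  (st_mk (Pth.l (Pth.l (Pth.l Pth.z))) (nat_lit 181243384) (nat_lit 204881128) (by decide +kernel))
  (st_mk (Pth.l (Pth.l (Pth.l Pth.z))) (nat_lit 224880300) (nat_lit 249233596) (by decide +kernel)) sv1
theorem so2 : StarOK sI G S2 :=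
  star_mk (by decide) (by decide) rfl rfl rfl rfl rfl rfl (rfl : _ = t0) (rfl : _ = t5)
  (st_mk (Pth.l (Pth.l (Pth.l Pth.z))) (nat_lit 244470555) (nat_lit 245500041) (by decide +kernel))
  (st_mk (Pth.l (Pth.l (Pth.l Pth.z))) (nat_lit 281360657) (nat_lit 282733574) (by decide +kernel))
  (st_mk (Pth.l (Pth.l (Pth.l Pth.z))) (nat_lit 324298530) (nat_lit 326139085) (by decide +kernel)) sv2
theorem so3 : StarOK sI G S3 :=
  star_mk (by decide) (by decide) rfl rfl rfl rfl rfl rfl (rfl : _ = t5) (rfl : _ = t0)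
  (st_mk (Pth.l (Pth.l (Pth.l Pth.z))) (nat_lit 142889532) (nat_lit 165558929) (by decide +kernel))
  (st_mk (Pth.l (Pth.l (Pth.l Pth.z))) (nat_lit 179421353) (nat_lit 202458096) (by decide +kernel))
  (st_mk (Pth.l (Pth.l (Pth.l Pth.z))) (nat_lit 222056122) (nat_lit 245580091) (by decide +kernel)) sv3
theorem so4 : StarOK sI G S4 :=
  star_mk (by decide) (by decide) rfl rfl rfl rfl rfl rfl (rfl : _ = t1) (rfl : _ = t3)
  (st_mk (Pth.l (Pth.l (Pth.l Pth.z))) (nat_lit 241632978) (nat_lit 243963751) (by decide +kernel))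
  (st_mk (Pth.l (Pth.l (Pth.l Pth.z))) (nat_lit 277135798) (nat_lit 281129304) (by decide +kernel))
  (st_mk (Pth.l (Pth.l (Pth.l Pth.z))) (nat_lit 318924996) (nat_lit 323712666) (by decide +kernel)) sv4
theorem so5 : StarOK sI G S5 :=
  star_mk (by decide) (by decide) rfl rfl rfl rfl rfl rfl (rfl : _ = t3) (rfl : _ = t1)
  (st_mk (Pth.l (Pth.l (Pth.l Pth.z))) (nat_lit 188343646) (nat_lit 190138403) (by decide +kernel))
  (st_mk (Pth.l (Pth.l (Pth.l Pth.z))) (nat_lit 224284053) (nat_lit 226616169) (by decide +kernel))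
  (st_mk (Pth.l (Pth.l (Pth.l Pth.z))) (nat_lit 265451306) (nat_lit 269607566) (by decide +kernel)) sv5
theorem ok : GroupOK (nat_lit 209321984) (nat_lit 268435456) G := grp_mk (allS_c so0 (allS_c so1 (allS_c so2 (allS_c so3 (allS_c so4 (allS_c so5 allS_n))))))
theorem cov : GCov G cl5 cl6 cl7 := cov_mk
  ⟨0, by decide, rfl, rfl, rfl⟩ ⟨1, by decide, rfl, rfl, rfl⟩ ⟨2, by decide, rfl, rfl, rfl⟩ ⟨3, by decide, rfl, rfl, rfl⟩ ⟨4, by decide, rfl, rfl, rfl⟩ ⟨5, by decide, rfl, rfl, rfl⟩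
end Q234_3

namespace Q235_0
def sI : I := I.pos (nat_lit 0) (nat_lit 91291648)
def b0_0 : Bx := Bx.mk (St.mk (I.pos (nat_lit 157351936) (nat_lit 269778944)) (I.mix (nat_lit 6356992) (nat_lit 63045632)) (I.mix (nat_lit 68190208) (nat_lit 76742656)) (I.pos (nat_lit 183189504) (nat_lit 367919104)) (I.mix (nat_lit 76709888) (nat_lit 54657024)) (I.mix (nat_lit 70598656) (nat_lit 43679744)) (I.mix (nat_lit 111788032) (nat_lit 72400896)))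
  false (nat_lit 0)
def b0_1 : Bx := Bx.mk (St.mk (I.mix (nat_lit 26574848) (nat_lit 94617600)) (I.mix (nat_lit 2768896) (nat_lit 38354944)) (I.mix (nat_lit 21446656) (nat_lit 6127616)) (I.pos (nat_lit 83017728) (nat_lit 122945536)) (I.mix (nat_lit 24920064) (nat_lit 29753344)) (I.mix (nat_lit 30425088) (nat_lit 20299776)) (I.mix (nat_lit 20332544) (nat_lit 11468800)))
  false (nat_lit 0)
def b0_2 : Bx := Bx.mk (St.mk (I.pos (nat_lit 84459520) (nat_lit 121520128)) (I.mix (nat_lit 58671104) (nat_lit 3604480)) (I.neg (nat_lit 14696448) (nat_lit 63094784)) (I.pos (nat_lit 116015104) (nat_lit 146341888)) (I.mix (nat_lit 71991296) (nat_lit 19054592)) (I.mix (nat_lit 34029568) (nat_lit 64913408)) (I.mix (nat_lit 25346048) (nat_lit 49528832)))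
  false (nat_lit 0)
def b0_3 : Bx := Bx.mk (St.mk (I.mix (nat_lit 45268992) (nat_lit 25264128)) (I.mix (nat_lit 34013184) (nat_lit 2277376)) (I.neg (nat_lit 3391488) (nat_lit 17154048)) (I.pos (nat_lit 83460096) (nat_lit 99549184)) (I.mix (nat_lit 26296320) (nat_lit 16449536)) (I.mix (nat_lit 16285696) (nat_lit 25264128)) (I.mix (nat_lit 9535488) (nat_lit 6537216)))
  false (nat_lit 0)
def b0_4 : Bx := Bx.mk (St.mk (I.mix (nat_lit 49020928) (nat_lit 3620864)) (I.mix (nat_lit 1835008) (nat_lit 11026432)) (I.neg (nat_lit 12353536) (nat_lit 19660800)) (I.pos (nat_lit 88473600) (nat_lit 99565568)) (I.mix (nat_lit 5144576) (nat_lit 10780672)) (I.mix (nat_lit 6488064) (nat_lit 5554176)) (I.mix (nat_lit 2310144) (nat_lit 3342336)))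
  false (nat_lit 0)
def b0_5 : Bx := Bx.mk (St.mk (I.pos (nat_lit 83836928) (nat_lit 91160576)) (I.mix (nat_lit 1916928) (nat_lit 8945664)) (I.neg (nat_lit 11436032) (nat_lit 20856832)) (I.pos (nat_lit 115982336) (nat_lit 121798656)) (I.mix (nat_lit 6094848) (nat_lit 9682944)) (I.mix (nat_lit 6897664) (nat_lit 4358144)) (I.mix (nat_lit 5275648) (nat_lit 3604480)))
  false (nat_lit 0)
def b0_6 : Bx := Bx.mk (St.mk (I.pos (nat_lit 95240192) (nat_lit 159678464)) (I.neg (nat_lit 5799936) (nat_lit 58179584)) (I.neg (nat_lit 13025280) (nat_lit 62717952)) (I.pos (nat_lit 128139264) (nat_lit 186777600)) (I.mix (nat_lit 65454080) (nat_lit 39698432)) (I.mix (nat_lit 31408128) (nat_lit 63946752)) (I.mix (nat_lit 24100864) (nat_lit 58032128)))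
  false (nat_lit 0)
def b0_7 : Bx := Bx.mk (St.mk (I.mix (nat_lit 32030720) (nat_lit 46448640)) (I.mix (nat_lit 35192832) (nat_lit 6193152)) (I.neg (nat_lit 4653056) (nat_lit 20807680)) (I.pos (nat_lit 82296832) (nat_lit 100433920)) (I.mix (nat_lit 28606464) (nat_lit 24772608)) (I.mix (nat_lit 20348928) (nat_lit 33062912)) (I.mix (nat_lit 9764864) (nat_lit 12615680)))
  false (nat_lit 0)
def b0_8 : Bx := Bx.mk (St.mk (I.mix (nat_lit 47742976) (nat_lit 75071488)) (I.mix (nat_lit 9994240) (nat_lit 36552704)) (I.mix (nat_lit 20807680) (nat_lit 4620288)) (I.pos (nat_lit 82296832) (nat_lit 110723072)) (I.mix (nat_lit 29769728) (nat_lit 28606464)) (I.mix (nat_lit 36159488) (nat_lit 22806528)) (I.mix (nat_lit 13582336) (nat_lit 12615680)))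
  false (nat_lit 0)
def b0_9 : Bx := Bx.mk (St.mk (I.pos (nat_lit 142049280) (nat_lit 215072768)) (I.mix (nat_lit 38354944) (nat_lit 71106560)) (I.mix (nat_lit 48218112) (nat_lit 82804736)) (I.pos (nat_lit 168329216) (nat_lit 263208960)) (I.mix (nat_lit 119734272) (nat_lit 41058304)) (I.mix (nat_lit 134070272) (nat_lit 74694656)) (I.mix (nat_lit 133562368) (nat_lit 74088448)))
  false (nat_lit 0)
def t0 : BTr := (BTr.n (BTr.n (BTr.n (BTr.b b0_0) (BTr.b b0_1)) (BTr.n (BTr.b b0_2) (BTr.n (BTr.b b0_3) (BTr.b b0_4)))) (BTr.n (BTr.n (BTr.b b0_5) (BTr.b b0_6)) (BTr.n (BTr.b b0_7) (BTr.n (BTr.b b0_8) (BTr.b b0_9)))))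
namespace T0
def l0 : Tr := Tr.L (Pth.l (Pth.l (Pth.l Pth.z)))
def l1 : Tr := Tr.L (Pth.l (Pth.l (Pth.r Pth.z)))
def l2 : Tr := Tr.L (Pth.l (Pth.r (Pth.l Pth.z)))
def l3 : Tr := Tr.L (Pth.l (Pth.r (Pth.r (Pth.l Pth.z))))
def l4 : Tr := Tr.L (Pth.l (Pth.r (Pth.r (Pth.r Pth.z))))
def l5 : Tr := Tr.L (Pth.r (Pth.l (Pth.l Pth.z)))
def l6 : Tr := Tr.L (Pth.r (Pth.l (Pth.r Pth.z)))
def l7 : Tr := Tr.L (Pth.r (Pth.r (Pth.l Pth.z)))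
def l8 : Tr := Tr.L (Pth.r (Pth.r (Pth.r (Pth.l Pth.z))))
def l9 : Tr := Tr.L (Pth.r (Pth.r (Pth.r (Pth.r Pth.z))))
end T0
def b1_0 : Bx := Bx.mk (St.mk (I.pos (nat_lit 157368320) (nat_lit 269303808)) (I.mix (nat_lit 6619136) (nat_lit 56442880)) (I.mix (nat_lit 31227904) (nat_lit 90800128)) (I.pos (nat_lit 110854144) (nat_lit 314015744)) (I.mix (nat_lit 84967424) (nat_lit 50692096)) (I.mix (nat_lit 74989568) (nat_lit 46497792)) (I.mix (nat_lit 119144448) (nat_lit 71565312)))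
  false (nat_lit 0)
def b1_1 : Bx := Bx.mk (St.mk (I.mix (nat_lit 15253504) (nat_lit 129925120)) (I.mix (nat_lit 2588672) (nat_lit 27983872)) (I.mix (nat_lit 8667136) (nat_lit 19529728)) (I.pos (nat_lit 15319040) (nat_lit 98205696)) (I.mix (nat_lit 27590656) (nat_lit 19824640)) (I.mix (nat_lit 24166400) (nat_lit 17219584)) (I.mix (nat_lit 19447808) (nat_lit 12763136)))
  false (nat_lit 0)
def b1_2 : Bx := Bx.mk (St.mk (I.pos (nat_lit 111165440) (nat_lit 150601728)) (I.mix (nat_lit 49922048) (nat_lit 3588096)) (I.neg (nat_lit 819200) (nat_lit 51642368)) (I.pos (nat_lit 65814528) (nat_lit 117260288)) (I.mix (nat_lit 70057984) (nat_lit 19873792)) (I.mix (nat_lit 34422784) (nat_lit 71843840)) (I.mix (nat_lit 26968064) (nat_lit 61505536)))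
  false (nat_lit 0)
def b1_3 : Bx := Bx.mk (St.mk (I.mix (nat_lit 20627456) (nat_lit 91144192)) (I.mix (nat_lit 25690112) (nat_lit 1130496)) (I.mix (nat_lit 18284544) (nat_lit 704512)) (I.pos (nat_lit 16613376) (nat_lit 66633728)) (I.mix (nat_lit 28082176) (nat_lit 10633216)) (I.mix (nat_lit 15253504) (nat_lit 26329088)) (I.mix (nat_lit 8355840) (nat_lit 13877248)))
  false (nat_lit 0)
def b1_4 : Bx := Bx.mk (St.mk (I.pos (nat_lit 111214592) (nat_lit 125665280)) (I.mix (nat_lit 1064960) (nat_lit 6930432)) (I.mix (nat_lit 7258112) (nat_lit 1196032)) (I.pos (nat_lit 66076672) (nat_lit 96239616)) (I.mix (nat_lit 3817472) (nat_lit 6635520)) (I.mix (nat_lit 3571712) (nat_lit 2375680)) (I.mix (nat_lit 3342336) (nat_lit 1720320)))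
  false (nat_lit 0)
def b1_5 : Bx := Bx.mk (St.mk (I.mix (nat_lit 21954560) (nat_lit 51855360)) (I.mix (nat_lit 196608) (nat_lit 4390912)) (I.neg (nat_lit 327680) (nat_lit 3391488)) (I.pos (nat_lit 17629184) (nat_lit 46563328)) (I.mix (nat_lit 2015232) (nat_lit 3866624)) (I.mix (nat_lit 2490368) (nat_lit 1933312)) (I.mix (nat_lit 622592) (nat_lit 671744)))
  false (nat_lit 0)
def b1_6 : Bx := Bx.mk (St.mk (I.pos (nat_lit 119013376) (nat_lit 180125696)) (I.neg (nat_lit 3162112) (nat_lit 54132736)) (I.neg (nat_lit 114688) (nat_lit 56049664)) (I.pos (nat_lit 85409792) (nat_lit 159285248)) (I.mix (nat_lit 60522496) (nat_lit 32686080)) (I.mix (nat_lit 32964608) (nat_lit 48906240)) (I.mix (nat_lit 28409856) (nat_lit 49889280)))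
  false (nat_lit 0)
def b1_7 : Bx := Bx.mk (St.mk (I.mix (nat_lit 15089664) (nat_lit 103972864)) (I.mix (nat_lit 28131328) (nat_lit 3637248)) (I.mix (nat_lit 20103168) (nat_lit 868352)) (I.pos (nat_lit 16023552) (nat_lit 76152832)) (I.mix (nat_lit 25886720) (nat_lit 18759680)) (I.mix (nat_lit 14532608) (nat_lit 23691264)) (I.mix (nat_lit 8814592) (nat_lit 15384576)))
  false (nat_lit 0)
def b1_8 : Bx := Bx.mk (St.mk (I.pos (nat_lit 152256512) (nat_lit 219136000)) (I.mix (nat_lit 38240256) (nat_lit 60227584)) (I.mix (nat_lit 41353216) (nat_lit 91062272)) (I.pos (nat_lit 113246208) (nat_lit 215089152)) (I.mix (nat_lit 121241600) (nat_lit 37306368)) (I.mix (nat_lit 145801216) (nat_lit 70615040)) (I.mix (nat_lit 175603712) (nat_lit 79511552)))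
  false (nat_lit 0)
def b1_9 : Bx := Bx.mk (St.mk (I.mix (nat_lit 23789568) (nat_lit 123273216)) (I.mix (nat_lit 12451840) (nat_lit 32423936)) (I.mix (nat_lit 10452992) (nat_lit 22708224)) (I.pos (nat_lit 15826944) (nat_lit 90505216)) (I.mix (nat_lit 40288256) (nat_lit 17924096)) (I.mix (nat_lit 42270720) (nat_lit 24854528)) (I.mix (nat_lit 26853376) (nat_lit 15777792)))
  false (nat_lit 0)
def t1 : BTr := (BTr.n (BTr.n (BTr.n (BTr.b b1_0) (BTr.b b1_1)) (BTr.n (BTr.b b1_2) (BTr.n (BTr.b b1_3) (BTr.b b1_4)))) (BTr.n (BTr.n (BTr.b b1_5) (BTr.b b1_6)) (BTr.n (BTr.b b1_7) (BTr.n (BTr.b b1_8) (BTr.b b1_9)))))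
namespace T1
def l0 : Tr := Tr.L (Pth.l (Pth.l (Pth.l Pth.z)))
def l1 : Tr := Tr.L (Pth.l (Pth.l (Pth.r Pth.z)))
def l2 : Tr := Tr.L (Pth.l (Pth.r (Pth.l Pth.z)))
def l3 : Tr := Tr.L (Pth.l (Pth.r (Pth.r (Pth.l Pth.z))))
def l4 : Tr := Tr.L (Pth.l (Pth.r (Pth.r (Pth.r Pth.z))))
def l5 : Tr := Tr.L (Pth.r (Pth.l (Pth.l Pth.z)))
def l6 : Tr := Tr.L (Pth.r (Pth.l (Pth.r Pth.z)))
def l7 : Tr := Tr.L (Pth.r (Pth.r (Pth.l Pth.z)))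
def l8 : Tr := Tr.L (Pth.r (Pth.r (Pth.r (Pth.l Pth.z))))
def l9 : Tr := Tr.L (Pth.r (Pth.r (Pth.r (Pth.r Pth.z))))
end T1
def b2_0 : Bx := Bx.mk (St.mk (I.pos (nat_lit 156876800) (nat_lit 285786112)) (I.mix (nat_lit 33800192) (nat_lit 72777728)) (I.mix (nat_lit 136953856) (nat_lit 85835776)) (I.pos (nat_lit 234553344) (nat_lit 452673536)) (I.mix (nat_lit 84688896) (nat_lit 67026944)) (I.mix (nat_lit 82788352) (nat_lit 51871744)) (I.mix (nat_lit 131055616) (nat_lit 87080960)))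
  false (nat_lit 0)
def b2_1 : Bx := Bx.mk (St.mk (I.pos (nat_lit 26296320) (nat_lit 72384512)) (I.mix (nat_lit 10502144) (nat_lit 47267840)) (I.neg (nat_lit 1146880) (nat_lit 31195136)) (I.pos (nat_lit 143327232) (nat_lit 162807808)) (I.mix (nat_lit 22839296) (nat_lit 39026688)) (I.mix (nat_lit 39436288) (nat_lit 21086208)) (I.mix (nat_lit 21577728) (nat_lit 11157504)))
  false (nat_lit 0)
def b2_2 : Bx := Bx.mk (St.mk (I.pos (nat_lit 52559872) (nat_lit 101269504)) (I.mix (nat_lit 63979520) (nat_lit 11206656)) (I.neg (nat_lit 17022976) (nat_lit 62537728)) (I.pos (nat_lit 151240704) (nat_lit 183009280)) (I.mix (nat_lit 66338816) (nat_lit 23756800)) (I.mix (nat_lit 30244864) (nat_lit 69189632)) (I.mix (nat_lit 21905408) (nat_lit 42565632)))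
  false (nat_lit 0)
def b2_3 : Bx := Bx.mk (St.mk (I.neg (nat_lit 26279936) (nat_lit 72384512)) (I.mix (nat_lit 47267840) (nat_lit 12828672)) (I.neg (nat_lit 1130496) (nat_lit 32096256)) (I.pos (nat_lit 143327232) (nat_lit 162807808)) (I.mix (nat_lit 39026688) (nat_lit 22839296)) (I.mix (nat_lit 21086208) (nat_lit 39452672)) (I.mix (nat_lit 21577728) (nat_lit 11157504)))
  true (nat_lit 0)
def b2_4 : Bx := Bx.mk (St.mk (I.pos (nat_lit 77496320) (nat_lit 147685376)) (I.neg (nat_lit 6701056) (nat_lit 68894720)) (I.neg (nat_lit 9338880) (nat_lit 67846144)) (I.pos (nat_lit 167051264) (nat_lit 225689600)) (I.mix (nat_lit 65421312) (nat_lit 44171264)) (I.mix (nat_lit 33259520) (nat_lit 64192512)) (I.mix (nat_lit 31752192) (nat_lit 56573952)))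
  false (nat_lit 0)
def b2_5 : Bx := Bx.mk (St.mk (I.mix (nat_lit 37339136) (nat_lit 5226496)) (I.mix (nat_lit 42270720) (nat_lit 7667712)) (I.neg (nat_lit 3620864) (nat_lit 9846784)) (I.pos (nat_lit 141656064) (nat_lit 150355968)) (I.mix (nat_lit 23740416) (nat_lit 31473664)) (I.mix (nat_lit 18825216) (nat_lit 39485440)) (I.mix (nat_lit 5947392) (nat_lit 4521984)))
  true (nat_lit 0)
def b2_6 : Bx := Bx.mk (St.mk (I.pos (nat_lit 129056768) (nat_lit 203997184)) (I.mix (nat_lit 39026688) (nat_lit 73285632)) (I.mix (nat_lit 41992192) (nat_lit 87556096)) (I.pos (nat_lit 206618624) (nat_lit 300974080)) (I.mix (nat_lit 108134400) (nat_lit 45121536)) (I.mix (nat_lit 124698624) (nat_lit 54820864)) (I.mix (nat_lit 128516096) (nat_lit 59801600)))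
  false (nat_lit 0)
def b2_7 : Bx := Bx.mk (St.mk (I.mix (nat_lit 5226496) (nat_lit 37339136)) (I.mix (nat_lit 7667712) (nat_lit 42270720)) (I.neg (nat_lit 3620864) (nat_lit 9846784)) (I.pos (nat_lit 141656064) (nat_lit 150355968)) (I.mix (nat_lit 31473664) (nat_lit 23740416)) (I.mix (nat_lit 39485440) (nat_lit 18825216)) (I.mix (nat_lit 5947392) (nat_lit 4521984)))
  false (nat_lit 0)
def t2 : BTr := (BTr.n (BTr.n (BTr.n (BTr.b b2_0) (BTr.b b2_1)) (BTr.n (BTr.b b2_2) (BTr.b b2_3))) (BTr.n (BTr.n (BTr.b b2_4) (BTr.b b2_5)) (BTr.n (BTr.b b2_6) (BTr.b b2_7))))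
namespace T2
def l0 : Tr := Tr.L (Pth.l (Pth.l (Pth.l Pth.z)))
def l1 : Tr := Tr.L (Pth.l (Pth.l (Pth.r Pth.z)))
def l2 : Tr := Tr.L (Pth.l (Pth.r (Pth.l Pth.z)))
def l3 : Tr := Tr.L (Pth.l (Pth.r (Pth.r Pth.z)))
def l4 : Tr := Tr.L (Pth.r (Pth.l (Pth.l Pth.z)))
def l5 : Tr := Tr.L (Pth.r (Pth.l (Pth.r Pth.z)))
def l6 : Tr := Tr.L (Pth.r (Pth.r (Pth.l Pth.z)))
def l7 : Tr := Tr.L (Pth.r (Pth.r (Pth.r Pth.z)))
end T2
def b3_0 : Bx := Bx.mk (St.mk (I.pos (nat_lit 156975104) (nat_lit 282689536)) (I.mix (nat_lit 28082176) (nat_lit 56737792)) (I.mix (nat_lit 53723136) (nat_lit 108756992)) (I.pos (nat_lit 109674496) (nat_lit 339623936)) (I.mix (nat_lit 99958784) (nat_lit 62308352)) (I.mix (nat_lit 90800128) (nat_lit 65241088)) (I.mix (nat_lit 135135232) (nat_lit 85442560)))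
  false (nat_lit 0)
def b3_1 : Bx := Bx.mk (St.mk (I.pos (nat_lit 122486784) (nat_lit 176537600)) (I.neg (nat_lit 8110080) (nat_lit 54132736)) (I.neg (nat_lit 1130496) (nat_lit 48152576)) (I.pos (nat_lit 88375296) (nat_lit 153829376)) (I.mix (nat_lit 56016896) (nat_lit 30212096)) (I.mix (nat_lit 27131904) (nat_lit 43581440)) (I.mix (nat_lit 26116096) (nat_lit 43810816)))
  false (nat_lit 0)
def b3_2 : Bx := Bx.mk (St.mk (I.mix (nat_lit 14008320) (nat_lit 101679104)) (I.mix (nat_lit 27770880) (nat_lit 802816)) (I.mix (nat_lit 15499264) (nat_lit 3997696)) (I.pos (nat_lit 16171008) (nat_lit 74301440)) (I.mix (nat_lit 22347776) (nat_lit 16629760)) (I.mix (nat_lit 13402112) (nat_lit 20381696)) (I.mix (nat_lit 8077312) (nat_lit 12861440)))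
  false (nat_lit 0)
def b3_3 : Bx := Bx.mk (St.mk (I.pos (nat_lit 159776768) (nat_lit 216743936)) (I.mix (nat_lit 33308672) (nat_lit 60145664)) (I.mix (nat_lit 22331392) (nat_lit 104071168)) (I.pos (nat_lit 117686272) (nat_lit 210190336)) (I.mix (nat_lit 126304256) (nat_lit 35520512)) (I.mix (nat_lit 146718720) (nat_lit 67518464)) (I.mix (nat_lit 181256192) (nat_lit 73891840)))
  false (nat_lit 0)
def b3_4 : Bx := Bx.mk (St.mk (I.mix (nat_lit 22413312) (nat_lit 121847808)) (I.mix (nat_lit 9256960) (nat_lit 32587776)) (I.mix (nat_lit 3014656) (nat_lit 28721152)) (I.pos (nat_lit 15892480) (nat_lit 89276416)) (I.mix (nat_lit 42582016) (nat_lit 17022976)) (I.mix (nat_lit 42467328) (nat_lit 24215552)) (I.mix (nat_lit 27967488) (nat_lit 15220736)))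
  false (nat_lit 0)
def b3_5 : Bx := Bx.mk (St.mk (I.pos (nat_lit 158056448) (nat_lit 175538176)) (I.neg (nat_lit 12910592) (nat_lit 35602432)) (I.neg (nat_lit 1835008) (nat_lit 27426816)) (I.pos (nat_lit 116686848) (nat_lit 153010176)) (I.mix (nat_lit 17924096) (nat_lit 10698752)) (I.mix (nat_lit 7880704) (nat_lit 10862592)) (I.mix (nat_lit 7880704) (nat_lit 11485184)))
  false (nat_lit 0)
def b3_6 : Bx := Bx.mk (St.mk (I.mix (nat_lit 23543808) (nat_lit 101990400)) (I.mix (nat_lit 12042240) (nat_lit 983040)) (I.mix (nat_lit 5062656) (nat_lit 4161536)) (I.pos (nat_lit 16777216) (nat_lit 74301440)) (I.mix (nat_lit 5324800) (nat_lit 7389184)) (I.mix (nat_lit 3883008) (nat_lit 5767168)) (I.mix (nat_lit 2293760) (nat_lit 3932160)))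
  false (nat_lit 0)
def b3_7 : Bx := Bx.mk (St.mk (I.mix (nat_lit 14024704) (nat_lit 133496832)) (I.mix (nat_lit 8732672) (nat_lit 27049984)) (I.mix (nat_lit 7716864) (nat_lit 25526272)) (I.pos (nat_lit 15122432) (nat_lit 101318656)) (I.mix (nat_lit 31014912) (nat_lit 22020096)) (I.mix (nat_lit 28409856) (nat_lit 18726912)) (I.mix (nat_lit 22331392) (nat_lit 13975552)))
  false (nat_lit 0)
def b3_8 : Bx := Bx.mk (St.mk (I.pos (nat_lit 107806720) (nat_lit 155238400)) (I.mix (nat_lit 54067200) (nat_lit 7520256)) (I.mix (nat_lit 49315840) (nat_lit 8503296)) (I.pos (nat_lit 63946752) (nat_lit 125140992)) (I.mix (nat_lit 68501504) (nat_lit 22069248)) (I.mix (nat_lit 36241408) (nat_lit 71663616)) (I.mix (nat_lit 28704768) (nat_lit 58949632)))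
  false (nat_lit 0)
def b3_9 : Bx := Bx.mk (St.mk (I.mix (nat_lit 22806528) (nat_lit 92553216)) (I.mix (nat_lit 25722880) (nat_lit 4063232)) (I.mix (nat_lit 13893632) (nat_lit 3260416)) (I.pos (nat_lit 16547840) (nat_lit 67338240)) (I.mix (nat_lit 26247168) (nat_lit 11354112)) (I.mix (nat_lit 15400960) (nat_lit 25870336)) (I.mix (nat_lit 8339456) (nat_lit 13205504)))
  false (nat_lit 0)
def t3 : BTr := (BTr.n (BTr.n (BTr.n (BTr.b b3_0) (BTr.b b3_1)) (BTr.n (BTr.b b3_2) (BTr.n (BTr.b b3_3) (BTr.b b3_4)))) (BTr.n (BTr.n (BTr.b b3_5) (BTr.b b3_6)) (BTr.n (BTr.b b3_7) (BTr.n (BTr.b b3_8) (BTr.b b3_9)))))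
namespace T3
def l0 : Tr := Tr.L (Pth.l (Pth.l (Pth.l Pth.z)))
def l1 : Tr := Tr.L (Pth.l (Pth.l (Pth.r Pth.z)))
def l2 : Tr := Tr.L (Pth.l (Pth.r (Pth.l Pth.z)))
def l3 : Tr := Tr.L (Pth.l (Pth.r (Pth.r (Pth.l Pth.z))))
def l4 : Tr := Tr.L (Pth.l (Pth.r (Pth.r (Pth.r Pth.z))))
def l5 : Tr := Tr.L (Pth.r (Pth.l (Pth.l Pth.z)))
def l6 : Tr := Tr.L (Pth.r (Pth.l (Pth.r Pth.z)))
def l7 : Tr := Tr.L (Pth.r (Pth.r (Pth.l Pth.z)))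
def l8 : Tr := Tr.L (Pth.r (Pth.r (Pth.r (Pth.l Pth.z))))
def l9 : Tr := Tr.L (Pth.r (Pth.r (Pth.r (Pth.r Pth.z))))
end T3
def b4_0 : Bx := Bx.mk (St.mk (I.pos (nat_lit 156991488) (nat_lit 281903104)) (I.mix (nat_lit 21331968) (nat_lit 69861376)) (I.mix (nat_lit 66600960) (nat_lit 110706688)) (I.pos (nat_lit 232587264) (nat_lit 437321728)) (I.mix (nat_lit 96010240) (nat_lit 70795264)) (I.mix (nat_lit 100499456) (nat_lit 60882944)) (I.mix (nat_lit 150175744) (nat_lit 79429632)))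
  false (nat_lit 52952654)
def b4_1 : Bx := Bx.mk (St.mk (I.pos (nat_lit 85426176) (nat_lit 153108480)) (I.neg (nat_lit 8519680) (nat_lit 68861952)) (I.mix (nat_lit 50511872) (nat_lit 13910016)) (I.pos (nat_lit 172146688) (nat_lit 229752832)) (I.mix (nat_lit 54558720) (nat_lit 41385984)) (I.mix (nat_lit 32784384) (nat_lit 52051968)) (I.mix (nat_lit 29884416) (nat_lit 46202880)))
  false (nat_lit 0)
def b4_2 : Bx := Bx.mk (St.mk (I.mix (nat_lit 33292288) (nat_lit 8060928)) (I.mix (nat_lit 42336256) (nat_lit 8830976)) (I.pos (nat_lit 4194304) (nat_lit 10403840)) (I.pos (nat_lit 141082624) (nat_lit 148602880)) (I.mix (nat_lit 18546688) (nat_lit 33308672)) (I.mix (nat_lit 17629184) (nat_lit 35078144)) (I.mix (nat_lit 3899392) (nat_lit 4325376)))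
  true (nat_lit 0)
def b4_3 : Bx := Bx.mk (St.mk (I.pos (nat_lit 127320064) (nat_lit 198590464)) (I.mix (nat_lit 41074688) (nat_lit 70713344)) (I.mix (nat_lit 22577152) (nat_lit 110460928)) (I.pos (nat_lit 205062144) (nat_lit 289636352)) (I.mix (nat_lit 110116864) (nat_lit 40173568)) (I.mix (nat_lit 118538240) (nat_lit 51494912)) (I.mix (nat_lit 126173184) (nat_lit 54476800)))
  false (nat_lit 0)
def b4_4 : Bx := Bx.mk (St.mk (I.mix (nat_lit 8060928) (nat_lit 33292288)) (I.mix (nat_lit 10633216) (nat_lit 42401792)) (I.pos (nat_lit 4194304) (nat_lit 10403840)) (I.pos (nat_lit 141099008) (nat_lit 148602880)) (I.mix (nat_lit 33308672) (nat_lit 18546688)) (I.mix (nat_lit 35078144) (nat_lit 17629184)) (I.mix (nat_lit 3899392) (nat_lit 4325376)))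
  false (nat_lit 0)
def b4_5 : Bx := Bx.mk (St.mk (I.pos (nat_lit 21495808) (nat_lit 69238784)) (I.mix (nat_lit 8290304) (nat_lit 47759360)) (I.mix (nat_lit 14434304) (nat_lit 13598720)) (I.pos (nat_lit 141721600) (nat_lit 161103872)) (I.mix (nat_lit 28098560) (nat_lit 35291136)) (I.mix (nat_lit 43417600) (nat_lit 22347776)) (I.mix (nat_lit 22020096) (nat_lit 12992512)))
  false (nat_lit 0)
def b4_6 : Bx := Bx.mk (St.mk (I.pos (nat_lit 55967744) (nat_lit 106659840)) (I.mix (nat_lit 67092480) (nat_lit 9207808)) (I.neg (nat_lit 3342336) (nat_lit 47005696)) (I.pos (nat_lit 153288704) (nat_lit 186384384)) (I.mix (nat_lit 62242816) (nat_lit 27590656)) (I.mix (nat_lit 31195136) (nat_lit 71008256)) (I.mix (nat_lit 23298048) (nat_lit 41582592)))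
  false (nat_lit 0)
def b4_7 : Bx := Bx.mk (St.mk (I.neg (nat_lit 21495808) (nat_lit 69238784)) (I.mix (nat_lit 47759360) (nat_lit 8290304)) (I.mix (nat_lit 14434304) (nat_lit 13598720)) (I.pos (nat_lit 141721600) (nat_lit 161103872)) (I.mix (nat_lit 35291136) (nat_lit 28098560)) (I.mix (nat_lit 22347776) (nat_lit 43417600)) (I.mix (nat_lit 22020096) (nat_lit 12992512)))
  true (nat_lit 0)
def t4 : BTr := (BTr.n (BTr.n (BTr.n (BTr.b b4_0) (BTr.b b4_1)) (BTr.n (BTr.b b4_2) (BTr.b b4_3))) (BTr.n (BTr.n (BTr.b b4_4) (BTr.b b4_5)) (BTr.n (BTr.b b4_6) (BTr.b b4_7))))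
namespace T4
def l0 : Tr := Tr.L (Pth.l (Pth.l (Pth.l Pth.z)))
def l1 : Tr := Tr.L (Pth.l (Pth.l (Pth.r Pth.z)))
def l2 : Tr := Tr.L (Pth.l (Pth.r (Pth.l Pth.z)))
def l3 : Tr := Tr.L (Pth.l (Pth.r (Pth.r Pth.z)))
def l4 : Tr := Tr.L (Pth.r (Pth.l (Pth.l Pth.z)))
def l5 : Tr := Tr.L (Pth.r (Pth.l (Pth.r Pth.z)))
def l6 : Tr := Tr.L (Pth.r (Pth.r (Pth.l Pth.z)))
def l7 : Tr := Tr.L (Pth.r (Pth.r (Pth.r Pth.z)))
end T4
def b5_0 : Bx := Bx.mk (St.mk (I.pos (nat_lit 157040640) (nat_lit 280461312)) (I.mix (nat_lit 20480000) (nat_lit 59392000)) (I.mix (nat_lit 36405248) (nat_lit 112918528)) (I.pos (nat_lit 180191232) (nat_lit 382418944)) (I.mix (nat_lit 104841216) (nat_lit 71073792)) (I.mix (nat_lit 104087552) (nat_lit 61702144)) (I.mix (nat_lit 156057600) (nat_lit 80166912)))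
  false (nat_lit 37664637)
def b5_1 : Bx := Bx.mk (St.mk (I.pos (nat_lit 104284160) (nat_lit 154484736)) (I.neg (nat_lit 14450688) (nat_lit 61833216)) (I.mix (nat_lit 42762240) (nat_lit 5472256)) (I.pos (nat_lit 136527872) (nat_lit 178716672)) (I.mix (nat_lit 56147968) (nat_lit 32817152)) (I.mix (nat_lit 25853952) (nat_lit 45580288)) (I.mix (nat_lit 21987328) (nat_lit 40042496)))
  false (nat_lit 0)
def b5_2 : Bx := Bx.mk (St.mk (I.mix (nat_lit 25772032) (nat_lit 43286528)) (I.mix (nat_lit 34799616) (nat_lit 1277952)) (I.mix (nat_lit 3309568) (nat_lit 9928704)) (I.pos (nat_lit 83329024) (nat_lit 99188736)) (I.mix (nat_lit 18219008) (nat_lit 23281664)) (I.mix (nat_lit 16384000) (nat_lit 23429120)) (I.mix (nat_lit 6127616) (nat_lit 8536064)))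
  false (nat_lit 0)
def b5_3 : Bx := Bx.mk (St.mk (I.pos (nat_lit 148340736) (nat_lit 207814656)) (I.mix (nat_lit 29163520) (nat_lit 68190208)) (I.mix (nat_lit 5111808) (nat_lit 116948992)) (I.pos (nat_lit 172818432) (nat_lit 247939072)) (I.mix (nat_lit 120995840) (nat_lit 37027840)) (I.mix (nat_lit 122093568) (nat_lit 66093056)) (I.mix (nat_lit 133545984) (nat_lit 64094208)))
  false (nat_lit 0)
def b5_4 : Bx := Bx.mk (St.mk (I.mix (nat_lit 46923776) (nat_lit 70090752)) (I.mix (nat_lit 5586944) (nat_lit 36831232)) (I.mix (nat_lit 3670016) (nat_lit 22347776)) (I.pos (nat_lit 83329024) (nat_lit 107888640)) (I.mix (nat_lit 32227328) (nat_lit 18219008)) (I.mix (nat_lit 28164096) (nat_lit 16990208)) (I.mix (nat_lit 10600448) (nat_lit 8536064)))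
  false (nat_lit 0)
def b5_5 : Bx := Bx.mk (St.mk (I.mix (nat_lit 50692096) (nat_lit 46366720)) (I.mix (nat_lit 10403840) (nat_lit 4997120)) (I.pos (nat_lit 3883008) (nat_lit 12288000)) (I.pos (nat_lit 88227840) (nat_lit 99205120)) (I.mix (nat_lit 6504448) (nat_lit 10240000)) (I.mix (nat_lit 6373376) (nat_lit 7028736)) (I.mix (nat_lit 2719744) (nat_lit 2408448)))
  false (nat_lit 0)
def b5_6 : Bx := Bx.mk (St.mk (I.pos (nat_lit 145997824) (nat_lit 158023680)) (I.neg (nat_lit 18546688) (nat_lit 35045376)) (I.mix (nat_lit 13680640) (nat_lit 5832704)) (I.pos (nat_lit 171622400) (nat_lit 182927360)) (I.mix (nat_lit 15319040) (nat_lit 14172160)) (I.mix (nat_lit 9797632) (nat_lit 12877824)) (I.mix (nat_lit 9273344) (nat_lit 13664256)))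
  false (nat_lit 0)
def b5_7 : Bx := Bx.mk (St.mk (I.mix (nat_lit 31391744) (nat_lit 96534528)) (I.mix (nat_lit 7094272) (nat_lit 37535744)) (I.mix (nat_lit 4194304) (nat_lit 26378240)) (I.pos (nat_lit 82608128) (nat_lit 123551744)) (I.mix (nat_lit 36012032) (nat_lit 29999104)) (I.mix (nat_lit 40288256) (nat_lit 23953408)) (I.mix (nat_lit 25673728) (nat_lit 15941632)))
  false (nat_lit 0)
def b5_8 : Bx := Bx.mk (St.mk (I.pos (nat_lit 82624512) (nat_lit 128958464)) (I.mix (nat_lit 62554112) (nat_lit 8273920)) (I.mix (nat_lit 41926656) (nat_lit 7880704)) (I.pos (nat_lit 115687424) (nat_lit 151552000)) (I.mix (nat_lit 66764800) (nat_lit 22904832)) (I.mix (nat_lit 39370752) (nat_lit 65781760)) (I.mix (nat_lit 28704768) (nat_lit 43876352)))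
  false (nat_lit 0)
def b5_9 : Bx := Bx.mk (St.mk (I.mix (nat_lit 46563328) (nat_lit 30801920)) (I.mix (nat_lit 34111488) (nat_lit 5767168)) (I.mix (nat_lit 1703936) (nat_lit 12697600)) (I.pos (nat_lit 82575360) (nat_lit 99729408)) (I.mix (nat_lit 24854528) (nat_lit 24231936)) (I.mix (nat_lit 19169280) (nat_lit 31064064)) (I.mix (nat_lit 11255808) (nat_lit 8355840)))
  false (nat_lit 0)
def t5 : BTr := (BTr.n (BTr.n (BTr.n (BTr.b b5_0) (BTr.b b5_1)) (BTr.n (BTr.b b5_2) (BTr.n (BTr.b b5_3) (BTr.b b5_4)))) (BTr.n (BTr.n (BTr.b b5_5) (BTr.b b5_6)) (BTr.n (BTr.b b5_7) (BTr.n (BTr.b b5_8) (BTr.b b5_9)))))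
namespace T5
def l0 : Tr := Tr.L (Pth.l (Pth.l (Pth.l Pth.z)))
def l1 : Tr := Tr.L (Pth.l (Pth.l (Pth.r Pth.z)))
def l2 : Tr := Tr.L (Pth.l (Pth.r (Pth.l Pth.z)))
def l3 : Tr := Tr.L (Pth.l (Pth.r (Pth.r (Pth.l Pth.z))))
def l4 : Tr := Tr.L (Pth.l (Pth.r (Pth.r (Pth.r Pth.z))))
def l5 : Tr := Tr.L (Pth.r (Pth.l (Pth.l Pth.z)))
def l6 : Tr := Tr.L (Pth.r (Pth.l (Pth.r Pth.z)))
def l7 : Tr := Tr.L (Pth.r (Pth.r (Pth.l Pth.z)))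
def l8 : Tr := Tr.L (Pth.r (Pth.r (Pth.r (Pth.l Pth.z))))
def l9 : Tr := Tr.L (Pth.r (Pth.r (Pth.r (Pth.r Pth.z))))
end T5
theorem bx0_0 : BoxOK sI cl5 cl6 cl9 t2 t4 b0_0 :=
  box_mk (TrL.c (I.pos (nat_lit 0) (nat_lit 0)) (xa (xa T2.l0 T2.l0) (xa T2.l0 T2.l0))
  (TrL.c (I.pos (nat_lit 0) (nat_lit 0)) (xa T4.l1 T4.l1)
  (TrL.c (I.pos (nat_lit 0) (nat_lit 0)) T2.l1
  (TrL.c (I.pos (nat_lit 0) (nat_lit 0)) T4.l2
  (TrL.c (I.pos (nat_lit 0) (nat_lit 0)) (xa T4.l3 (xa T4.l3 (xb T4.l0 T4.l3)))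
  (TrL.c (I.pos (nat_lit 0) (nat_lit 0)) (xa T2.l2 T2.l2)
  (TrL.c (I.pos (nat_lit 0) (nat_lit 0)) T4.l4
  (TrL.c (I.pos (nat_lit 0) (nat_lit 0)) T2.l3
  TrL.n)))))))) (by decide +kernel)
theorem bx0_1 : BoxOK sI cl5 cl6 cl9 t2 t4 b0_1 :=
  box_mk (TrL.c (I.pos (nat_lit 0) (nat_lit 0)) T2.l0
  (TrL.c (I.pos (nat_lit 0) (nat_lit 0)) T4.l1
  (TrL.c (I.pos (nat_lit 0) (nat_lit 0)) T2.l1
  (TrL.c (I.pos (nat_lit 0) (nat_lit 0)) T4.l2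
  (TrL.c (I.pos (nat_lit 0) (nat_lit 0)) T4.l3
  (TrL.c (I.pos (nat_lit 0) (nat_lit 0)) T2.l2
  (TrL.c (I.pos (nat_lit 0) (nat_lit 0)) T4.l4
  (TrL.c (I.pos (nat_lit 0) (nat_lit 0)) T2.l3
  TrL.n)))))))) (by decide +kernel)
theorem bx0_2 : BoxOK sI cl5 cl6 cl9 t2 t4 b0_2 :=
  box_mk (TrL.c (I.pos (nat_lit 0) (nat_lit 0)) T2.l0
  (TrL.c (I.pos (nat_lit 0) (nat_lit 0)) T4.l1
  (TrL.c (I.pos (nat_lit 0) (nat_lit 0)) T2.l1
  (TrL.c (I.pos (nat_lit 0) (nat_lit 0)) T4.l2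
  (TrL.c (I.pos (nat_lit 0) (nat_lit 0)) T4.l3
  (TrL.c (I.pos (nat_lit 0) (nat_lit 0)) T2.l2
  (TrL.c (I.pos (nat_lit 0) (nat_lit 0)) T4.l4
  (TrL.c (I.pos (nat_lit 0) (nat_lit 0)) T2.l3
  TrL.n)))))))) (by decide +kernel)
theorem bx0_3 : BoxOK sI cl5 cl6 cl9 t2 t4 b0_3 :=
  box_mk (TrL.c (I.pos (nat_lit 0) (nat_lit 0)) T2.l0
  (TrL.c (I.pos (nat_lit 0) (nat_lit 0)) T4.l3
  (TrL.c (I.pos (nat_lit 0) (nat_lit 0)) T2.l2
  (TrL.c (I.pos (nat_lit 0) (nat_lit 0)) T4.l4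
  (TrL.c (I.pos (nat_lit 0) (nat_lit 0)) T4.l3
  (TrL.c (I.pos (nat_lit 0) (nat_lit 0)) T2.l1
  (TrL.c (I.pos (nat_lit 0) (nat_lit 0)) T4.l4
  (TrL.c (I.pos (nat_lit 0) (nat_lit 0)) T2.l3
  TrL.n)))))))) (by decide +kernel)
theorem bx0_4 : BoxOK sI cl5 cl6 cl9 t2 t4 b0_4 :=
  box_mk (TrL.c (I.pos (nat_lit 0) (nat_lit 0)) T2.l0
  (TrL.c (I.pos (nat_lit 0) (nat_lit 0)) T4.l1
  (TrL.c (I.pos (nat_lit 0) (nat_lit 0)) T2.l1
  (TrL.c (I.pos (nat_lit 0) (nat_lit 0)) T4.l2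
  (TrL.c (I.pos (nat_lit 0) (nat_lit 0)) T4.l3
  (TrL.c (I.pos (nat_lit 0) (nat_lit 0)) T2.l2
  (TrL.c (I.pos (nat_lit 0) (nat_lit 0)) T4.l4
  (TrL.c (I.pos (nat_lit 0) (nat_lit 0)) T2.l3
  TrL.n)))))))) (by decide +kernel)
theorem bx0_5 : BoxOK sI cl5 cl6 cl9 t2 t4 b0_5 :=
  box_mk (TrL.c (I.pos (nat_lit 0) (nat_lit 0)) T2.l0
  (TrL.c (I.pos (nat_lit 0) (nat_lit 0)) T4.l1
  (TrL.c (I.pos (nat_lit 0) (nat_lit 0)) T2.l1
  (TrL.c (I.pos (nat_lit 0) (nat_lit 0)) T4.l2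
  (TrL.c (I.pos (nat_lit 0) (nat_lit 0)) T4.l3
  (TrL.c (I.pos (nat_lit 0) (nat_lit 0)) T2.l2
  (TrL.c (I.pos (nat_lit 0) (nat_lit 0)) T4.l4
  (TrL.c (I.pos (nat_lit 0) (nat_lit 0)) T2.l3
  TrL.n)))))))) (by decide +kernel)
theorem bx0_6 : BoxOK sI cl5 cl6 cl9 t2 t4 b0_6 :=
  box_mk (TrL.c (I.pos (nat_lit 0) (nat_lit 0)) T2.l0
  (TrL.c (I.pos (nat_lit 0) (nat_lit 0)) T4.l1
  (TrL.c (I.pos (nat_lit 0) (nat_lit 0)) T2.l1
  (TrL.c (I.pos (nat_lit 0) (nat_lit 0)) T4.l2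
  (TrL.c (I.pos (nat_lit 0) (nat_lit 0)) T4.l3
  (TrL.c (I.pos (nat_lit 0) (nat_lit 0)) T2.l2
  (TrL.c (I.pos (nat_lit 0) (nat_lit 0)) T4.l4
  (TrL.c (I.pos (nat_lit 0) (nat_lit 0)) T2.l3
  TrL.n)))))))) (by decide +kernel)
theorem bx0_7 : BoxOK sI cl5 cl6 cl9 t2 t4 b0_7 :=
  box_mk (TrL.c (I.pos (nat_lit 0) (nat_lit 0)) (xa T2.l0 T2.l0)
  (TrL.c (I.pos (nat_lit 0) (nat_lit 0)) T4.l1
  (TrL.c (I.pos (nat_lit 0) (nat_lit 0)) T2.l1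
  (TrL.c (I.pos (nat_lit 0) (nat_lit 0)) T4.l2
  (TrL.c (I.pos (nat_lit 0) (nat_lit 0)) T4.l3
  (TrL.c (I.pos (nat_lit 0) (nat_lit 0)) T2.l2
  (TrL.c (I.pos (nat_lit 0) (nat_lit 0)) T4.l4
  (TrL.c (I.pos (nat_lit 0) (nat_lit 0)) T2.l3
  TrL.n)))))))) (by decide +kernel)
theorem bx0_8 : BoxOK sI cl5 cl6 cl9 t2 t4 b0_8 :=
  box_mk (TrL.c (I.pos (nat_lit 0) (nat_lit 0)) (xa T2.l0 T2.l0)
  (TrL.c (I.pos (nat_lit 0) (nat_lit 0)) T4.l1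
  (TrL.c (I.pos (nat_lit 0) (nat_lit 0)) T2.l1
  (TrL.c (I.pos (nat_lit 0) (nat_lit 0)) T4.l2
  (TrL.c (I.pos (nat_lit 0) (nat_lit 0)) T4.l3
  (TrL.c (I.pos (nat_lit 0) (nat_lit 0)) T2.l2
  (TrL.c (I.pos (nat_lit 0) (nat_lit 0)) T4.l4
  (TrL.c (I.pos (nat_lit 0) (nat_lit 0)) T2.l3
  TrL.n)))))))) (by decide +kernel)
theorem bx0_9 : BoxOK sI cl5 cl6 cl9 t2 t4 b0_9 :=
  box_mk (TrL.c (I.pos (nat_lit 0) (nat_lit 0)) (xb (xa T2.l0 T2.l0) (xa (xb T2.l0 T2.l0) T2.l0))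
  (TrL.c (I.pos (nat_lit 0) (nat_lit 0)) (xb T4.l1 T4.l1)
  (TrL.c (I.pos (nat_lit 0) (nat_lit 0)) T2.l1
  (TrL.c (I.pos (nat_lit 0) (nat_lit 0)) T4.l2
  (TrL.c (I.pos (nat_lit 0) (nat_lit 0)) (xb (xa T4.l3 T4.l3) (xa T4.l3 T4.l3))
  (TrL.c (I.pos (nat_lit 0) (nat_lit 0)) T2.l2
  (TrL.c (I.pos (nat_lit 0) (nat_lit 0)) T4.l4
  (TrL.c (I.pos (nat_lit 0) (nat_lit 0)) T2.l3
  TrL.n)))))))) (by decide +kernel)
theorem sv0 : StarV sI cl5 cl6 cl9 t2 t4 t0 :=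
  (bt_n (bt_n (bt_n (bt_b bx0_0) (bt_b bx0_1)) (bt_n (bt_b bx0_2) (bt_n (bt_b bx0_3) (bt_b bx0_4)))) (bt_n (bt_n (bt_b bx0_5) (bt_b bx0_6)) (bt_n (bt_b bx0_7) (bt_n (bt_b bx0_8) (bt_b bx0_9)))))
def S0 : StarD := StarD.mk cl5 cl6 cl9 2 4 t0
theorem bx1_0 : BoxOK sI cl5 cl9 cl6 t4 t2 b1_0 :=
  box_mk (TrL.c (I.pos (nat_lit 0) (nat_lit 0)) (xa (xa T4.l0 T4.l0) (xa T4.l0 T4.l0))
  (TrL.c (I.pos (nat_lit 0) (nat_lit 0)) (xa T2.l4 T2.l4)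
  (TrL.c (I.pos (nat_lit 0) (nat_lit 0)) T4.l5
  (TrL.c (I.pos (nat_lit 0) (nat_lit 0)) T2.l5
  (TrL.c (I.pos (nat_lit 0) (nat_lit 0)) (xa T2.l6 (xa T2.l6 (xb T2.l6 T2.l6)))
  (TrL.c (I.pos (nat_lit 0) (nat_lit 0)) (xa T4.l6 T4.l6)
  (TrL.c (I.pos (nat_lit 0) (nat_lit 0)) T2.l7
  (TrL.c (I.pos (nat_lit 0) (nat_lit 0)) T4.l7
  TrL.n)))))))) (by decide +kernel)
theorem bx1_1 : BoxOK sI cl5 cl9 cl6 t4 t2 b1_1 :=
  box_mk (TrL.c (I.pos (nat_lit 0) (nat_lit 0)) T4.l0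
  (TrL.c (I.pos (nat_lit 0) (nat_lit 0)) T2.l4
  (TrL.c (I.pos (nat_lit 0) (nat_lit 0)) T4.l5
  (TrL.c (I.pos (nat_lit 0) (nat_lit 0)) T2.l5
  (TrL.c (I.pos (nat_lit 0) (nat_lit 0)) T2.l6
  (TrL.c (I.pos (nat_lit 0) (nat_lit 0)) T4.l6
  (TrL.c (I.pos (nat_lit 0) (nat_lit 0)) T2.l7
  (TrL.c (I.pos (nat_lit 0) (nat_lit 0)) T4.l7
  TrL.n)))))))) (by decide +kernel)
theorem bx1_2 : BoxOK sI cl5 cl9 cl6 t4 t2 b1_2 :=
  box_mk (TrL.c (I.pos (nat_lit 0) (nat_lit 0)) T4.l0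
  (TrL.c (I.pos (nat_lit 0) (nat_lit 0)) T2.l4
  (TrL.c (I.pos (nat_lit 0) (nat_lit 0)) T4.l5
  (TrL.c (I.pos (nat_lit 0) (nat_lit 0)) T2.l5
  (TrL.c (I.pos (nat_lit 0) (nat_lit 0)) T2.l6
  (TrL.c (I.pos (nat_lit 0) (nat_lit 0)) T4.l6
  (TrL.c (I.pos (nat_lit 0) (nat_lit 0)) T2.l7
  (TrL.c (I.pos (nat_lit 0) (nat_lit 0)) T4.l7
  TrL.n)))))))) (by decide +kernel)
theorem bx1_3 : BoxOK sI cl5 cl9 cl6 t4 t2 b1_3 :=
  box_mk (TrL.c (I.pos (nat_lit 0) (nat_lit 0)) (xa T4.l0 T4.l0)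
  (TrL.c (I.pos (nat_lit 0) (nat_lit 0)) T2.l4
  (TrL.c (I.pos (nat_lit 0) (nat_lit 0)) T4.l5
  (TrL.c (I.pos (nat_lit 0) (nat_lit 0)) T2.l5
  (TrL.c (I.pos (nat_lit 0) (nat_lit 0)) T2.l6
  (TrL.c (I.pos (nat_lit 0) (nat_lit 0)) T4.l6
  (TrL.c (I.pos (nat_lit 0) (nat_lit 0)) T2.l7
  (TrL.c (I.pos (nat_lit 0) (nat_lit 0)) T4.l7
  TrL.n)))))))) (by decide +kernel)
theorem bx1_4 : BoxOK sI cl5 cl9 cl6 t4 t2 b1_4 :=
  box_mk (TrL.c (I.pos (nat_lit 0) (nat_lit 0)) T4.l0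
  (TrL.c (I.pos (nat_lit 0) (nat_lit 0)) T2.l4
  (TrL.c (I.pos (nat_lit 0) (nat_lit 0)) T4.l5
  (TrL.c (I.pos (nat_lit 0) (nat_lit 0)) T2.l5
  (TrL.c (I.pos (nat_lit 0) (nat_lit 0)) T2.l6
  (TrL.c (I.pos (nat_lit 0) (nat_lit 0)) T4.l6
  (TrL.c (I.pos (nat_lit 0) (nat_lit 0)) T2.l7
  (TrL.c (I.pos (nat_lit 0) (nat_lit 0)) T4.l7
  TrL.n)))))))) (by decide +kernel)
theorem bx1_5 : BoxOK sI cl5 cl9 cl6 t4 t2 b1_5 :=
  box_mk (TrL.c (I.pos (nat_lit 0) (nat_lit 0)) T4.l0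
  (TrL.c (I.pos (nat_lit 0) (nat_lit 0)) T2.l4
  (TrL.c (I.pos (nat_lit 0) (nat_lit 0)) T4.l5
  (TrL.c (I.pos (nat_lit 0) (nat_lit 0)) T2.l5
  (TrL.c (I.pos (nat_lit 0) (nat_lit 0)) T2.l6
  (TrL.c (I.pos (nat_lit 0) (nat_lit 0)) T4.l6
  (TrL.c (I.pos (nat_lit 0) (nat_lit 0)) T2.l7
  (TrL.c (I.pos (nat_lit 0) (nat_lit 0)) T4.l7
  TrL.n)))))))) (by decide +kernel)
theorem bx1_6 : BoxOK sI cl5 cl9 cl6 t4 t2 b1_6 :=
  box_mk (TrL.c (I.pos (nat_lit 0) (nat_lit 0)) T4.l0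
  (TrL.c (I.pos (nat_lit 0) (nat_lit 0)) T2.l4
  (TrL.c (I.pos (nat_lit 0) (nat_lit 0)) T4.l5
  (TrL.c (I.pos (nat_lit 0) (nat_lit 0)) T2.l5
  (TrL.c (I.pos (nat_lit 0) (nat_lit 0)) T2.l6
  (TrL.c (I.pos (nat_lit 0) (nat_lit 0)) T4.l6
  (TrL.c (I.pos (nat_lit 0) (nat_lit 0)) T2.l7
  (TrL.c (I.pos (nat_lit 0) (nat_lit 0)) T4.l7
  TrL.n)))))))) (by decide +kernel)
theorem bx1_7 : BoxOK sI cl5 cl9 cl6 t4 t2 b1_7 :=
  box_mk (TrL.c (I.pos (nat_lit 0) (nat_lit 0)) T4.l0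
  (TrL.c (I.pos (nat_lit 0) (nat_lit 0)) T2.l4
  (TrL.c (I.pos (nat_lit 0) (nat_lit 0)) T4.l5
  (TrL.c (I.pos (nat_lit 0) (nat_lit 0)) T2.l5
  (TrL.c (I.pos (nat_lit 0) (nat_lit 0)) T2.l6
  (TrL.c (I.pos (nat_lit 0) (nat_lit 0)) T4.l6
  (TrL.c (I.pos (nat_lit 0) (nat_lit 0)) T2.l7
  (TrL.c (I.pos (nat_lit 0) (nat_lit 0)) T4.l7
  TrL.n)))))))) (by decide +kernel)
theorem bx1_8 : BoxOK sI cl5 cl9 cl6 t4 t2 b1_8 :=
  box_mk (TrL.c (I.pos (nat_lit 0) (nat_lit 0)) (xa (xb T4.l0 (xs T4.l0 T4.l0)) (xb T4.l0 T4.l0))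
  (TrL.c (I.pos (nat_lit 0) (nat_lit 0)) (xb T2.l4 T2.l4)
  (TrL.c (I.pos (nat_lit 0) (nat_lit 0)) T4.l5
  (TrL.c (I.pos (nat_lit 0) (nat_lit 0)) T2.l5
  (TrL.c (I.pos (nat_lit 0) (nat_lit 0)) (xb (xa T2.l6 T2.l6) (xa T2.l6 T2.l6))
  (TrL.c (I.pos (nat_lit 0) (nat_lit 0)) T4.l6
  (TrL.c (I.pos (nat_lit 0) (nat_lit 0)) T2.l7
  (TrL.c (I.pos (nat_lit 0) (nat_lit 0)) T4.l7
  TrL.n)))))))) (by decide +kernel)
theorem bx1_9 : BoxOK sI cl5 cl9 cl6 t4 t2 b1_9 :=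
  box_mk (TrL.c (I.pos (nat_lit 0) (nat_lit 0)) (xa T4.l0 T4.l0)
  (TrL.c (I.pos (nat_lit 0) (nat_lit 0)) (xa T2.l4 T2.l4)
  (TrL.c (I.pos (nat_lit 0) (nat_lit 0)) T4.l5
  (TrL.c (I.pos (nat_lit 0) (nat_lit 0)) T2.l5
  (TrL.c (I.pos (nat_lit 0) (nat_lit 0)) (xa T2.l6 T2.l6)
  (TrL.c (I.pos (nat_lit 0) (nat_lit 0)) T4.l6
  (TrL.c (I.pos (nat_lit 0) (nat_lit 0)) T2.l7
  (TrL.c (I.pos (nat_lit 0) (nat_lit 0)) T4.l7
  TrL.n)))))))) (by decide +kernel)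
theorem sv1 : StarV sI cl5 cl9 cl6 t4 t2 t1 :=
  (bt_n (bt_n (bt_n (bt_b bx1_0) (bt_b bx1_1)) (bt_n (bt_b bx1_2) (bt_n (bt_b bx1_3) (bt_b bx1_4)))) (bt_n (bt_n (bt_b bx1_5) (bt_b bx1_6)) (bt_n (bt_b bx1_7) (bt_n (bt_b bx1_8) (bt_b bx1_9)))))
def S1 : StarD := StarD.mk cl5 cl9 cl6 4 2 t1
theorem bx2_0 : BoxOK sI cl6 cl5 cl9 t0 t5 b2_0 :=
  box_mk (TrL.c (I.pos (nat_lit 0) (nat_lit 0)) (xa (xb T0.l0 (xa T0.l0 T0.l0)) (xb (xa T0.l0 T0.l0) (xa T0.l0 T0.l9)))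
  (TrL.c (I.pos (nat_lit 0) (nat_lit 0)) (xa T5.l1 T5.l1)
  (TrL.c (I.pos (nat_lit 0) (nat_lit 89480386)) (xR T0.l1 (xR T0.l1 T0.l1))
  (TrL.c (I.pos (nat_lit 0) (nat_lit 41530880)) T5.l2
  (TrL.c (I.pos (nat_lit 0) (nat_lit 0)) (xa T5.l0 (xb (xa T5.l3 T5.l3) (xa T5.l3 (xs T5.l3 T5.l3))))
  (TrL.c (I.pos (nat_lit 0) (nat_lit 0)) (xa T0.l2 T0.l2)
  (TrL.c (I.mix (nat_lit 41527258) (nat_lit 41530880)) (xR T5.l4 T5.l7)
  (TrL.c (I.mix (nat_lit 41527258) (nat_lit 4274)) T0.l3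
  TrL.n)))))))) (by decide +kernel)
theorem bx2_1 : BoxOK sI cl6 cl5 cl9 t0 t5 b2_1 :=
  box_mk (TrL.c (I.pos (nat_lit 0) (nat_lit 0)) T0.l0
  (TrL.c (I.pos (nat_lit 0) (nat_lit 0)) T5.l1
  (TrL.c (I.pos (nat_lit 0) (nat_lit 89480386)) T0.l1
  (TrL.c (I.pos (nat_lit 0) (nat_lit 41530880)) T5.l2
  (TrL.c (I.pos (nat_lit 0) (nat_lit 0)) T5.l3
  (TrL.c (I.pos (nat_lit 0) (nat_lit 0)) T0.l2
  (TrL.c (I.mix (nat_lit 41527258) (nat_lit 41530880)) T5.l4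
  (TrL.c (I.mix (nat_lit 41527258) (nat_lit 4274)) T0.l3
  TrL.n)))))))) (by decide +kernel)
theorem bx2_2 : BoxOK sI cl6 cl5 cl9 t0 t5 b2_2 :=
  box_mk (TrL.c (I.pos (nat_lit 0) (nat_lit 0)) T0.l0
  (TrL.c (I.pos (nat_lit 0) (nat_lit 0)) T5.l1
  (TrL.c (I.pos (nat_lit 0) (nat_lit 89480386)) T0.l1
  (TrL.c (I.pos (nat_lit 0) (nat_lit 41530880)) T5.l2
  (TrL.c (I.pos (nat_lit 0) (nat_lit 0)) T5.l3
  (TrL.c (I.pos (nat_lit 0) (nat_lit 0)) T0.l2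
  (TrL.c (I.mix (nat_lit 41527258) (nat_lit 41530880)) T5.l4
  (TrL.c (I.mix (nat_lit 41527258) (nat_lit 4274)) T0.l3
  TrL.n)))))))) (by decide +kernel)
theorem bx2_3 : BoxOK sI cl6 cl5 cl9 t0 t5 b2_3 :=
  box_mk (TrL.c (I.pos (nat_lit 0) (nat_lit 0)) T5.l1
  (TrL.c (I.pos (nat_lit 0) (nat_lit 0)) T0.l1
  (TrL.c (I.mix (nat_lit 41527258) (nat_lit 41530880)) (xR T5.l5 T5.l2)
  (TrL.c (I.mix (nat_lit 41527258) (nat_lit 4274)) T0.l8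
  TrL.n)))) (by decide +kernel)
theorem bx2_4 : BoxOK sI cl6 cl5 cl9 t0 t5 b2_4 :=
  box_mk (TrL.c (I.pos (nat_lit 0) (nat_lit 0)) T0.l0
  (TrL.c (I.pos (nat_lit 0) (nat_lit 0)) T5.l1
  (TrL.c (I.pos (nat_lit 0) (nat_lit 89480386)) (xR T0.l1 T0.l1)
  (TrL.c (I.pos (nat_lit 0) (nat_lit 41530880)) T5.l2
  (TrL.c (I.pos (nat_lit 0) (nat_lit 0)) T5.l3
  (TrL.c (I.pos (nat_lit 0) (nat_lit 0)) T0.l2
  (TrL.c (I.mix (nat_lit 41527258) (nat_lit 41530880)) T5.l4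
  (TrL.c (I.mix (nat_lit 41527258) (nat_lit 4274)) T0.l3
  TrL.n)))))))) (by decide +kernel)
theorem bx2_5 : BoxOK sI cl6 cl5 cl9 t0 t5 b2_5 :=
  box_mk (TrL.c (I.pos (nat_lit 0) (nat_lit 0)) T5.l6
  (TrL.c (I.pos (nat_lit 0) (nat_lit 0)) T0.l1
  (TrL.c (I.mix (nat_lit 41527258) (nat_lit 41530880)) (xR T5.l9 T5.l5)
  (TrL.c (I.mix (nat_lit 41527258) (nat_lit 4274)) T0.l8
  TrL.n)))) (by decide +kernel)
theorem bx2_6 : BoxOK sI cl6 cl5 cl9 t0 t5 b2_6 :=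
  box_mk (TrL.c (I.pos (nat_lit 0) (nat_lit 0)) (xb (xa T0.l0 T0.l0) (xa T0.l0 T0.l0))
  (TrL.c (I.pos (nat_lit 0) (nat_lit 0)) T5.l1
  (TrL.c (I.pos (nat_lit 0) (nat_lit 89480386)) (xR T0.l1 T0.l1)
  (TrL.c (I.pos (nat_lit 0) (nat_lit 41530880)) T5.l2
  (TrL.c (I.pos (nat_lit 0) (nat_lit 0)) T5.l0
  (TrL.c (I.pos (nat_lit 0) (nat_lit 0)) T0.l2
  (TrL.c (I.mix (nat_lit 41527258) (nat_lit 41530880)) (xR T5.l4 T5.l7)
  (TrL.c (I.mix (nat_lit 41527258) (nat_lit 4274)) T0.l3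
  TrL.n)))))))) (by decide +kernel)
theorem bx2_7 : BoxOK sI cl6 cl5 cl9 t0 t5 b2_7 :=
  box_mk (TrL.c (I.pos (nat_lit 0) (nat_lit 0)) T0.l0
  (TrL.c (I.pos (nat_lit 0) (nat_lit 0)) T5.l6
  (TrL.c (I.pos (nat_lit 0) (nat_lit 89480386)) T0.l1
  (TrL.c (I.pos (nat_lit 0) (nat_lit 41530880)) T5.l5
  (TrL.c (I.pos (nat_lit 0) (nat_lit 0)) T5.l3
  (TrL.c (I.pos (nat_lit 0) (nat_lit 0)) T0.l2
  (TrL.c (I.mix (nat_lit 41527258) (nat_lit 41530880)) T5.l4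
  (TrL.c (I.mix (nat_lit 41527258) (nat_lit 4274)) T0.l3
  TrL.n)))))))) (by decide +kernel)
theorem sv2 : StarV sI cl6 cl5 cl9 t0 t5 t2 :=
  (bt_n (bt_n (bt_n (bt_b bx2_0) (bt_b bx2_1)) (bt_n (bt_b bx2_2) (bt_b bx2_3))) (bt_n (bt_n (bt_b bx2_4) (bt_b bx2_5)) (bt_n (bt_b bx2_6) (bt_b bx2_7))))
def S2 : StarD := StarD.mk cl6 cl5 cl9 0 5 t2
theorem bx3_0 : BoxOK sI cl6 cl9 cl5 t5 t0 b3_0 :=
  box_mk (TrL.c (I.pos (nat_lit 0) (nat_lit 0)) (xa (xa (xb T5.l0 T5.l0) (xb T5.l0 T5.l0)) (xa T5.l0 T5.l0))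
  (TrL.c (I.pos (nat_lit 0) (nat_lit 0)) (xa (xb T0.l6 T0.l6) (xa T0.l6 T0.l6))
  (TrL.c (I.pos (nat_lit 0) (nat_lit 89480386)) (xR (xR T5.l7 T5.l7) (xR T5.l7 T5.l7))
  (TrL.c (I.pos (nat_lit 0) (nat_lit 41530880)) T0.l7
  (TrL.c (I.pos (nat_lit 0) (nat_lit 0)) (xa (xb T0.l9 T0.l9) (xb (xa T0.l9 T0.l9) (xa T0.l9 T0.l9)))
  (TrL.c (I.pos (nat_lit 0) (nat_lit 0)) (xa T5.l8 T5.l8)
  (TrL.c (I.mix (nat_lit 41527258) (nat_lit 41530880)) (xR T0.l8 T0.l8)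
  (TrL.c (I.mix (nat_lit 41527258) (nat_lit 4274)) T5.l9
  TrL.n)))))))) (by decide +kernel)
theorem bx3_1 : BoxOK sI cl6 cl9 cl5 t5 t0 b3_1 :=
  box_mk (TrL.c (I.pos (nat_lit 0) (nat_lit 0)) T5.l0
  (TrL.c (I.pos (nat_lit 0) (nat_lit 0)) T0.l6
  (TrL.c (I.pos (nat_lit 0) (nat_lit 89480386)) (xR T5.l7 T5.l7)
  (TrL.c (I.pos (nat_lit 0) (nat_lit 41530880)) T0.l7
  (TrL.c (I.pos (nat_lit 0) (nat_lit 0)) T0.l9
  (TrL.c (I.pos (nat_lit 0) (nat_lit 0)) T5.l8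
  (TrL.c (I.mix (nat_lit 41527258) (nat_lit 41530880)) T0.l8
  (TrL.c (I.mix (nat_lit 41527258) (nat_lit 4274)) T5.l9
  TrL.n)))))))) (by decide +kernel)
theorem bx3_2 : BoxOK sI cl6 cl9 cl5 t5 t0 b3_2 :=
  box_mk (TrL.c (I.pos (nat_lit 0) (nat_lit 0)) T5.l0
  (TrL.c (I.pos (nat_lit 0) (nat_lit 0)) T0.l6
  (TrL.c (I.pos (nat_lit 0) (nat_lit 89480386)) T5.l7
  (TrL.c (I.pos (nat_lit 0) (nat_lit 41530880)) T0.l7
  (TrL.c (I.pos (nat_lit 0) (nat_lit 0)) T0.l9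
  (TrL.c (I.pos (nat_lit 0) (nat_lit 0)) T5.l8
  (TrL.c (I.mix (nat_lit 41527258) (nat_lit 41530880)) T0.l8
  (TrL.c (I.mix (nat_lit 41527258) (nat_lit 4274)) T5.l9
  TrL.n)))))))) (by decide +kernel)
theorem bx3_3 : BoxOK sI cl6 cl9 cl5 t5 t0 b3_3 :=
  box_mk (TrL.c (I.pos (nat_lit 0) (nat_lit 0)) (xa (xb T5.l0 T5.l0) (xb T5.l0 T5.l0))
  (TrL.c (I.pos (nat_lit 0) (nat_lit 0)) T0.l6
  (TrL.c (I.pos (nat_lit 0) (nat_lit 89480386)) (xR T5.l7 T5.l7)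
  (TrL.c (I.pos (nat_lit 0) (nat_lit 41530880)) T0.l7
  (TrL.c (I.pos (nat_lit 0) (nat_lit 0)) (xb T0.l9 T0.l9)
  (TrL.c (I.pos (nat_lit 0) (nat_lit 0)) T5.l8
  (TrL.c (I.mix (nat_lit 41527258) (nat_lit 41530880)) (xR T0.l8 T0.l8)
  (TrL.c (I.mix (nat_lit 41527258) (nat_lit 4274)) T5.l9
  TrL.n)))))))) (by decide +kernel)
theorem bx3_4 : BoxOK sI cl6 cl9 cl5 t5 t0 b3_4 :=
  box_mk (TrL.c (I.pos (nat_lit 0) (nat_lit 0)) (xa T5.l0 T5.l0)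
  (TrL.c (I.pos (nat_lit 0) (nat_lit 0)) (xa T0.l6 T0.l6)
  (TrL.c (I.pos (nat_lit 0) (nat_lit 89480386)) T5.l7
  (TrL.c (I.pos (nat_lit 0) (nat_lit 41530880)) T0.l7
  (TrL.c (I.pos (nat_lit 0) (nat_lit 0)) (xa T0.l9 T0.l9)
  (TrL.c (I.pos (nat_lit 0) (nat_lit 0)) T5.l8
  (TrL.c (I.mix (nat_lit 41527258) (nat_lit 41530880)) T0.l8
  (TrL.c (I.mix (nat_lit 41527258) (nat_lit 4274)) T5.l9
  TrL.n)))))))) (by decide +kernel)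
theorem bx3_5 : BoxOK sI cl6 cl9 cl5 t5 t0 b3_5 :=
  box_mk (TrL.c (I.pos (nat_lit 0) (nat_lit 0)) T5.l0
  (TrL.c (I.pos (nat_lit 0) (nat_lit 0)) T0.l6
  (TrL.c (I.pos (nat_lit 0) (nat_lit 89480386)) (xR T5.l7 T5.l7)
  (TrL.c (I.pos (nat_lit 0) (nat_lit 41530880)) T0.l7
  (TrL.c (I.pos (nat_lit 0) (nat_lit 0)) T0.l9
  (TrL.c (I.pos (nat_lit 0) (nat_lit 0)) T5.l8
  (TrL.c (I.mix (nat_lit 41527258) (nat_lit 41530880)) T0.l8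
  (TrL.c (I.mix (nat_lit 41527258) (nat_lit 4274)) T5.l9
  TrL.n)))))))) (by decide +kernel)
theorem bx3_6 : BoxOK sI cl6 cl9 cl5 t5 t0 b3_6 :=
  box_mk (TrL.c (I.pos (nat_lit 0) (nat_lit 0)) T5.l0
  (TrL.c (I.pos (nat_lit 0) (nat_lit 0)) T0.l6
  (TrL.c (I.pos (nat_lit 0) (nat_lit 89480386)) T5.l7
  (TrL.c (I.pos (nat_lit 0) (nat_lit 41530880)) T0.l7
  (TrL.c (I.pos (nat_lit 0) (nat_lit 0)) T0.l9
  (TrL.c (I.pos (nat_lit 0) (nat_lit 0)) T5.l8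
  (TrL.c (I.mix (nat_lit 41527258) (nat_lit 41530880)) T0.l8
  (TrL.c (I.mix (nat_lit 41527258) (nat_lit 4274)) T5.l9
  TrL.n)))))))) (by decide +kernel)
theorem bx3_7 : BoxOK sI cl6 cl9 cl5 t5 t0 b3_7 :=
  box_mk (TrL.c (I.pos (nat_lit 0) (nat_lit 0)) (xa T5.l0 T5.l0)
  (TrL.c (I.pos (nat_lit 0) (nat_lit 0)) (xa T0.l6 T0.l6)
  (TrL.c (I.pos (nat_lit 0) (nat_lit 89480386)) (xR T5.l7 T5.l7)
  (TrL.c (I.pos (nat_lit 0) (nat_lit 41530880)) T0.l7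
  (TrL.c (I.pos (nat_lit 0) (nat_lit 0)) (xa T0.l9 T0.l9)
  (TrL.c (I.pos (nat_lit 0) (nat_lit 0)) T5.l8
  (TrL.c (I.mix (nat_lit 41527258) (nat_lit 41530880)) T0.l8
  (TrL.c (I.mix (nat_lit 41527258) (nat_lit 4274)) T5.l9
  TrL.n)))))))) (by decide +kernel)
theorem bx3_8 : BoxOK sI cl6 cl9 cl5 t5 t0 b3_8 :=
  box_mk (TrL.c (I.pos (nat_lit 0) (nat_lit 0)) T5.l0
  (TrL.c (I.pos (nat_lit 0) (nat_lit 0)) T0.l6
  (TrL.c (I.pos (nat_lit 0) (nat_lit 89480386)) (xR T5.l7 T5.l7)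
  (TrL.c (I.pos (nat_lit 0) (nat_lit 41530880)) T0.l7
  (TrL.c (I.pos (nat_lit 0) (nat_lit 0)) T0.l9
  (TrL.c (I.pos (nat_lit 0) (nat_lit 0)) T5.l8
  (TrL.c (I.mix (nat_lit 41527258) (nat_lit 41530880)) T0.l8
  (TrL.c (I.mix (nat_lit 41527258) (nat_lit 4274)) T5.l9
  TrL.n)))))))) (by decide +kernel)
theorem bx3_9 : BoxOK sI cl6 cl9 cl5 t5 t0 b3_9 :=
  box_mk (TrL.c (I.pos (nat_lit 0) (nat_lit 0)) (xa T5.l0 T5.l0)
  (TrL.c (I.pos (nat_lit 0) (nat_lit 0)) T0.l6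
  (TrL.c (I.pos (nat_lit 0) (nat_lit 89480386)) T5.l7
  (TrL.c (I.pos (nat_lit 0) (nat_lit 41530880)) T0.l7
  (TrL.c (I.pos (nat_lit 0) (nat_lit 0)) T0.l9
  (TrL.c (I.pos (nat_lit 0) (nat_lit 0)) T5.l8
  (TrL.c (I.mix (nat_lit 41527258) (nat_lit 41530880)) T0.l8
  (TrL.c (I.mix (nat_lit 41527258) (nat_lit 4274)) T5.l9
  TrL.n)))))))) (by decide +kernel)
theorem sv3 : StarV sI cl6 cl9 cl5 t5 t0 t3 :=
  (bt_n (bt_n (bt_n (bt_b bx3_0) (bt_b bx3_1)) (bt_n (bt_b bx3_2) (bt_n (bt_b bx3_3) (bt_b bx3_4)))) (bt_n (bt_n (bt_b bx3_5) (bt_b bx3_6)) (bt_n (bt_b bx3_7) (bt_n (bt_b bx3_8) (bt_b bx3_9)))))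
def S3 : StarD := StarD.mk cl6 cl9 cl5 5 0 t3
theorem bx4_0 : BoxOK sI cl9 cl5 cl6 t1 t3 b4_0 :=
  box_mk (TrL.c (I.pos (nat_lit 0) (nat_lit 0)) (xa (xa T1.l0 T1.l0) (xa T1.l0 T1.l0))
  (TrL.c (I.pos (nat_lit 0) (nat_lit 0)) (xa (xb T3.l1 T3.l1) (xk T3.l8 T3.l1))
  (TrL.c (I.pos (nat_lit 0) (nat_lit 124588530)) (xR T1.l1 (xR T1.l1 T1.l1))
  (TrL.c (I.pos (nat_lit 0) (nat_lit 96881482)) (xR T3.l2 (xR T3.l2 T3.l2))
  (TrL.c (I.pos (nat_lit 0) (nat_lit 0)) (xa (xb T3.l0 T3.l3) (xk (xb (xa T3.l3 T3.l3) (xa T3.l3 T3.l3)) (xb (xa T3.l3 T3.l3) (xa T3.l3 T3.l3))))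
  (TrL.c (I.pos (nat_lit 0) (nat_lit 0)) (xk T1.l2 T1.l2)
  (TrL.c (I.mix (nat_lit 17240550) (nat_lit 96881482)) (xR T3.l4 (xR T3.l4 T3.l4))
  (TrL.c (I.mix (nat_lit 17240550) (nat_lit 71940500)) (xR T1.l3 T1.l3)
  TrL.n)))))))) (by decide +kernel)
theorem bx4_1 : BoxOK sI cl9 cl5 cl6 t1 t3 b4_1 :=
  box_mk (TrL.c (I.pos (nat_lit 0) (nat_lit 0)) T1.l0
  (TrL.c (I.pos (nat_lit 0) (nat_lit 0)) T3.l1
  (TrL.c (I.pos (nat_lit 0) (nat_lit 124588530)) (xR T1.l1 T1.l1)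
  (TrL.c (I.pos (nat_lit 0) (nat_lit 96881482)) (xR T3.l2 T3.l2)
  (TrL.c (I.pos (nat_lit 0) (nat_lit 0)) T3.l3
  (TrL.c (I.pos (nat_lit 0) (nat_lit 0)) T1.l2
  (TrL.c (I.mix (nat_lit 17240550) (nat_lit 96881482)) (xR T3.l4 T3.l4)
  (TrL.c (I.mix (nat_lit 17240550) (nat_lit 71940500)) T1.l3
  TrL.n)))))))) (by decide +kernel)
theorem bx4_2 : BoxOK sI cl9 cl5 cl6 t1 t3 b4_2 :=
  box_mk (TrL.c (I.pos (nat_lit 0) (nat_lit 0)) T3.l1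
  (TrL.c (I.pos (nat_lit 0) (nat_lit 0)) T1.l1
  (TrL.c (I.mix (nat_lit 17240550) (nat_lit 96881482)) (xR T3.l4 T3.l6)
  (TrL.c (I.mix (nat_lit 17240550) (nat_lit 71940500)) T1.l9
  TrL.n)))) (by decide +kernel)
theorem bx4_3 : BoxOK sI cl9 cl5 cl6 t1 t3 b4_3 :=
  box_mk (TrL.c (I.pos (nat_lit 0) (nat_lit 0)) (xb T1.l0 (xa T1.l0 T1.l0))
  (TrL.c (I.pos (nat_lit 0) (nat_lit 0)) (xb T3.l1 T3.l1)
  (TrL.c (I.pos (nat_lit 0) (nat_lit 124588530)) (xR T1.l1 (xR T1.l1 T1.l1))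
  (TrL.c (I.pos (nat_lit 0) (nat_lit 96881482)) (xR T3.l2 T3.l2)
  (TrL.c (I.pos (nat_lit 0) (nat_lit 0)) (xb T3.l0 T3.l3)
  (TrL.c (I.pos (nat_lit 0) (nat_lit 0)) T1.l2
  (TrL.c (I.mix (nat_lit 17240550) (nat_lit 96881482)) (xR T3.l4 T3.l4)
  (TrL.c (I.mix (nat_lit 17240550) (nat_lit 71940500)) (xR T1.l3 T1.l3)
  TrL.n)))))))) (by decide +kernel)
theorem bx4_4 : BoxOK sI cl9 cl5 cl6 t1 t3 b4_4 :=
  box_mk (TrL.c (I.pos (nat_lit 0) (nat_lit 0)) T1.l0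
  (TrL.c (I.pos (nat_lit 0) (nat_lit 0)) T3.l1
  (TrL.c (I.pos (nat_lit 0) (nat_lit 124588530)) T1.l1
  (TrL.c (I.pos (nat_lit 0) (nat_lit 96881482)) (xR T3.l4 T3.l2)
  (TrL.c (I.pos (nat_lit 0) (nat_lit 0)) T3.l3
  (TrL.c (I.pos (nat_lit 0) (nat_lit 0)) T1.l2
  (TrL.c (I.mix (nat_lit 17240550) (nat_lit 96881482)) T3.l4
  (TrL.c (I.mix (nat_lit 17240550) (nat_lit 71940500)) T1.l9
  TrL.n)))))))) (by decide +kernel)
theorem bx4_5 : BoxOK sI cl9 cl5 cl6 t1 t3 b4_5 :=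
  box_mk (TrL.c (I.pos (nat_lit 0) (nat_lit 0)) T1.l0
  (TrL.c (I.pos (nat_lit 0) (nat_lit 0)) T3.l1
  (TrL.c (I.pos (nat_lit 0) (nat_lit 124588530)) T1.l1
  (TrL.c (I.pos (nat_lit 0) (nat_lit 96881482)) T3.l2
  (TrL.c (I.pos (nat_lit 0) (nat_lit 0)) T3.l3
  (TrL.c (I.pos (nat_lit 0) (nat_lit 0)) T1.l2
  (TrL.c (I.mix (nat_lit 17240550) (nat_lit 96881482)) T3.l4
  (TrL.c (I.mix (nat_lit 17240550) (nat_lit 71940500)) T1.l3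
  TrL.n)))))))) (by decide +kernel)
theorem bx4_6 : BoxOK sI cl9 cl5 cl6 t1 t3 b4_6 :=
  box_mk (TrL.c (I.pos (nat_lit 0) (nat_lit 0)) T1.l0
  (TrL.c (I.pos (nat_lit 0) (nat_lit 0)) T3.l1
  (TrL.c (I.pos (nat_lit 0) (nat_lit 124588530)) T1.l1
  (TrL.c (I.pos (nat_lit 0) (nat_lit 96881482)) (xR T3.l2 T3.l2)
  (TrL.c (I.pos (nat_lit 0) (nat_lit 0)) T3.l3
  (TrL.c (I.pos (nat_lit 0) (nat_lit 0)) T1.l2
  (TrL.c (I.mix (nat_lit 17240550) (nat_lit 96881482)) T3.l4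
  (TrL.c (I.mix (nat_lit 17240550) (nat_lit 71940500)) T1.l3
  TrL.n)))))))) (by decide +kernel)
theorem bx4_7 : BoxOK sI cl9 cl5 cl6 t1 t3 b4_7 :=
  box_mk (TrL.c (I.pos (nat_lit 0) (nat_lit 0)) T3.l1
  (TrL.c (I.pos (nat_lit 0) (nat_lit 0)) T1.l1
  (TrL.c (I.mix (nat_lit 17240550) (nat_lit 96881482)) (xR T3.l6 T3.l2)
  (TrL.c (I.mix (nat_lit 17240550) (nat_lit 71940500)) T1.l9
  TrL.n)))) (by decide +kernel)
theorem sv4 : StarV sI cl9 cl5 cl6 t1 t3 t4 :=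
  (bt_n (bt_n (bt_n (bt_b bx4_0) (bt_b bx4_1)) (bt_n (bt_b bx4_2) (bt_b bx4_3))) (bt_n (bt_n (bt_b bx4_4) (bt_b bx4_5)) (bt_n (bt_b bx4_6) (bt_b bx4_7))))
def S4 : StarD := StarD.mk cl9 cl5 cl6 1 3 t4
theorem bx5_0 : BoxOK sI cl9 cl6 cl5 t3 t1 b5_0 :=
  box_mk (TrL.c (I.pos (nat_lit 0) (nat_lit 0)) (xa (xa T3.l0 T3.l0) T3.l0)
  (TrL.c (I.pos (nat_lit 0) (nat_lit 0)) (xa (xb T1.l6 T1.l6) (xk T1.l6 T1.l6))
  (TrL.c (I.pos (nat_lit 0) (nat_lit 124588530)) (xR T3.l4 (xR T3.l7 T3.l7))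
  (TrL.c (I.pos (nat_lit 0) (nat_lit 96881482)) (xR T1.l7 (xR T1.l7 T1.l7))
  (TrL.c (I.pos (nat_lit 0) (nat_lit 0)) (xa (xa (xb T1.l8 T1.l8) (xb T1.l8 T1.l8)) (xk (xa T1.l8 (xb T1.l8 T1.l8)) (xa T1.l8 (xb T1.l8 T1.l8))))
  (TrL.c (I.pos (nat_lit 0) (nat_lit 0)) (xk T3.l8 T3.l8)
  (TrL.c (I.mix (nat_lit 17240550) (nat_lit 96881482)) (xR T1.l9 (xR T1.l9 T1.l9))
  (TrL.c (I.mix (nat_lit 17240550) (nat_lit 71940500)) (xR T3.l9 T3.l9)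
  TrL.n)))))))) (by decide +kernel)
theorem bx5_1 : BoxOK sI cl9 cl6 cl5 t3 t1 b5_1 :=
  box_mk (TrL.c (I.pos (nat_lit 0) (nat_lit 0)) T3.l0
  (TrL.c (I.pos (nat_lit 0) (nat_lit 0)) T1.l6
  (TrL.c (I.pos (nat_lit 0) (nat_lit 124588530)) (xR T3.l7 T3.l7)
  (TrL.c (I.pos (nat_lit 0) (nat_lit 96881482)) T1.l7
  (TrL.c (I.pos (nat_lit 0) (nat_lit 0)) T1.l8
  (TrL.c (I.pos (nat_lit 0) (nat_lit 0)) T3.l8
  (TrL.c (I.mix (nat_lit 17240550) (nat_lit 96881482)) T1.l9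
  (TrL.c (I.mix (nat_lit 17240550) (nat_lit 71940500)) T3.l9
  TrL.n)))))))) (by decide +kernel)
theorem bx5_2 : BoxOK sI cl9 cl6 cl5 t3 t1 b5_2 :=
  box_mk (TrL.c (I.pos (nat_lit 0) (nat_lit 0)) T3.l0
  (TrL.c (I.pos (nat_lit 0) (nat_lit 0)) T1.l6
  (TrL.c (I.pos (nat_lit 0) (nat_lit 124588530)) T3.l7
  (TrL.c (I.pos (nat_lit 0) (nat_lit 96881482)) T1.l9
  (TrL.c (I.pos (nat_lit 0) (nat_lit 0)) T1.l8
  (TrL.c (I.pos (nat_lit 0) (nat_lit 0)) T3.l8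
  (TrL.c (I.mix (nat_lit 17240550) (nat_lit 96881482)) T1.l9
  (TrL.c (I.mix (nat_lit 17240550) (nat_lit 71940500)) T3.l9
  TrL.n)))))))) (by decide +kernel)
theorem bx5_3 : BoxOK sI cl9 cl6 cl5 t3 t1 b5_3 :=
  box_mk (TrL.c (I.pos (nat_lit 0) (nat_lit 0)) (xb T3.l0 T3.l0)
  (TrL.c (I.pos (nat_lit 0) (nat_lit 0)) (xb T1.l6 T1.l6)
  (TrL.c (I.pos (nat_lit 0) (nat_lit 124588530)) (xR T3.l7 (xR T3.l7 T3.l7))
  (TrL.c (I.pos (nat_lit 0) (nat_lit 96881482)) (xR T1.l7 T1.l7)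
  (TrL.c (I.pos (nat_lit 0) (nat_lit 0)) (xb (xa T1.l8 T1.l8) T1.l8)
  (TrL.c (I.pos (nat_lit 0) (nat_lit 0)) T3.l8
  (TrL.c (I.mix (nat_lit 17240550) (nat_lit 96881482)) (xR T1.l9 T1.l9)
  (TrL.c (I.mix (nat_lit 17240550) (nat_lit 71940500)) (xR T3.l9 T3.l9)
  TrL.n)))))))) (by decide +kernel)
theorem bx5_4 : BoxOK sI cl9 cl6 cl5 t3 t1 b5_4 :=
  box_mk (TrL.c (I.pos (nat_lit 0) (nat_lit 0)) T3.l0
  (TrL.c (I.pos (nat_lit 0) (nat_lit 0)) T1.l6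
  (TrL.c (I.pos (nat_lit 0) (nat_lit 124588530)) T3.l7
  (TrL.c (I.pos (nat_lit 0) (nat_lit 96881482)) (xR T1.l7 T1.l7)
  (TrL.c (I.pos (nat_lit 0) (nat_lit 0)) T1.l8
  (TrL.c (I.pos (nat_lit 0) (nat_lit 0)) T3.l8
  (TrL.c (I.mix (nat_lit 17240550) (nat_lit 96881482)) T1.l9
  (TrL.c (I.mix (nat_lit 17240550) (nat_lit 71940500)) T3.l9
  TrL.n)))))))) (by decide +kernel)
theorem bx5_5 : BoxOK sI cl9 cl6 cl5 t3 t1 b5_5 :=
  box_mk (TrL.c (I.pos (nat_lit 0) (nat_lit 0)) T3.l0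
  (TrL.c (I.pos (nat_lit 0) (nat_lit 0)) T1.l6
  (TrL.c (I.pos (nat_lit 0) (nat_lit 124588530)) T3.l7
  (TrL.c (I.pos (nat_lit 0) (nat_lit 96881482)) T1.l9
  (TrL.c (I.pos (nat_lit 0) (nat_lit 0)) T1.l8
  (TrL.c (I.pos (nat_lit 0) (nat_lit 0)) T3.l8
  (TrL.c (I.mix (nat_lit 17240550) (nat_lit 96881482)) T1.l9
  (TrL.c (I.mix (nat_lit 17240550) (nat_lit 71940500)) T3.l9
  TrL.n)))))))) (by decide +kernel)
theorem bx5_6 : BoxOK sI cl9 cl6 cl5 t3 t1 b5_6 :=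
  box_mk (TrL.c (I.pos (nat_lit 0) (nat_lit 0)) T3.l0
  (TrL.c (I.pos (nat_lit 0) (nat_lit 0)) T1.l6
  (TrL.c (I.pos (nat_lit 0) (nat_lit 124588530)) (xR T3.l7 T3.l7)
  (TrL.c (I.pos (nat_lit 0) (nat_lit 96881482)) T1.l7
  (TrL.c (I.pos (nat_lit 0) (nat_lit 0)) T1.l8
  (TrL.c (I.pos (nat_lit 0) (nat_lit 0)) T3.l8
  (TrL.c (I.mix (nat_lit 17240550) (nat_lit 96881482)) T1.l9
  (TrL.c (I.mix (nat_lit 17240550) (nat_lit 71940500)) T3.l9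
  TrL.n)))))))) (by decide +kernel)
theorem bx5_7 : BoxOK sI cl9 cl6 cl5 t3 t1 b5_7 :=
  box_mk (TrL.c (I.pos (nat_lit 0) (nat_lit 0)) T3.l0
  (TrL.c (I.pos (nat_lit 0) (nat_lit 0)) T1.l6
  (TrL.c (I.pos (nat_lit 0) (nat_lit 124588530)) T3.l7
  (TrL.c (I.pos (nat_lit 0) (nat_lit 96881482)) (xR T1.l7 T1.l7)
  (TrL.c (I.pos (nat_lit 0) (nat_lit 0)) T1.l8
  (TrL.c (I.pos (nat_lit 0) (nat_lit 0)) T3.l8
  (TrL.c (I.mix (nat_lit 17240550) (nat_lit 96881482)) T1.l9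
  (TrL.c (I.mix (nat_lit 17240550) (nat_lit 71940500)) T3.l9
  TrL.n)))))))) (by decide +kernel)
theorem bx5_8 : BoxOK sI cl9 cl6 cl5 t3 t1 b5_8 :=
  box_mk (TrL.c (I.pos (nat_lit 0) (nat_lit 0)) T3.l0
  (TrL.c (I.pos (nat_lit 0) (nat_lit 0)) T1.l6
  (TrL.c (I.pos (nat_lit 0) (nat_lit 124588530)) (xR T3.l7 T3.l7)
  (TrL.c (I.pos (nat_lit 0) (nat_lit 96881482)) T1.l7
  (TrL.c (I.pos (nat_lit 0) (nat_lit 0)) T1.l8
  (TrL.c (I.pos (nat_lit 0) (nat_lit 0)) T3.l8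
  (TrL.c (I.mix (nat_lit 17240550) (nat_lit 96881482)) T1.l9
  (TrL.c (I.mix (nat_lit 17240550) (nat_lit 71940500)) T3.l9
  TrL.n)))))))) (by decide +kernel)
theorem bx5_9 : BoxOK sI cl9 cl6 cl5 t3 t1 b5_9 :=
  box_mk (TrL.c (I.pos (nat_lit 0) (nat_lit 0)) (xa T3.l0 T3.l0)
  (TrL.c (I.pos (nat_lit 0) (nat_lit 0)) T1.l6
  (TrL.c (I.pos (nat_lit 0) (nat_lit 124588530)) T3.l7
  (TrL.c (I.pos (nat_lit 0) (nat_lit 96881482)) T1.l9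
  (TrL.c (I.pos (nat_lit 0) (nat_lit 0)) T1.l6
  (TrL.c (I.pos (nat_lit 0) (nat_lit 0)) T3.l7
  (TrL.c (I.mix (nat_lit 17240550) (nat_lit 96881482)) (xR T1.l9 T1.l7)
  (TrL.c (I.mix (nat_lit 17240550) (nat_lit 71940500)) T3.l4
  TrL.n)))))))) (by decide +kernel)
theorem sv5 : StarV sI cl9 cl6 cl5 t3 t1 t5 :=
  (bt_n (bt_n (bt_n (bt_b bx5_0) (bt_b bx5_1)) (bt_n (bt_b bx5_2) (bt_n (bt_b bx5_3) (bt_b bx5_4)))) (bt_n (bt_n (bt_b bx5_5) (bt_b bx5_6)) (bt_n (bt_b bx5_7) (bt_n (bt_b bx5_8) (bt_b bx5_9)))))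
def S5 : StarD := StarD.mk cl9 cl6 cl5 3 1 t5
def G : List StarD := [S0, S1, S2, S3, S4, S5]
theorem so0 : StarOK sI G S0 :=
  star_mk (by decide) (by decide) rfl rfl rfl rfl rfl rfl (rfl : _ = t2) (rfl : _ = t4)
  (st_mk (Pth.l (Pth.l (Pth.l Pth.z))) (nat_lit 189219674) (nat_lit 190479250) (by decide +kernel))
  (st_mk (Pth.l (Pth.l (Pth.l Pth.z))) (nat_lit 225420462) (nat_lit 227220509) (by decide +kernel))
  (st_mk (Pth.l (Pth.l (Pth.l Pth.z))) (nat_lit 267487358) (nat_lit 270045488) (by decide +kernel)) sv0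
theorem so1 : StarOK sI G S1 :=
  star_mk (by decide) (by decide) rfl rfl rfl rfl rfl rfl (rfl : _ = t4) (rfl : _ = t2)
  (st_mk (Pth.l (Pth.l (Pth.l Pth.z))) (nat_lit 116614871) (nat_lit 135648072) (by decide +kernel))
  (st_mk (Pth.l (Pth.l (Pth.l Pth.z))) (nat_lit 152589065) (nat_lit 172153864) (by decide +kernel))
  (st_mk (Pth.l (Pth.l (Pth.l Pth.z))) (nat_lit 194469536) (nat_lit 214783997) (by decide +kernel)) sv1
theorem so2 : StarOK sI G S2 :=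
  star_mk (by decide) (by decide) rfl rfl rfl rfl rfl rfl (rfl : _ = t0) (rfl : _ = t5)
  (st_mk (Pth.l (Pth.l (Pth.l Pth.z))) (nat_lit 241529109) (nat_lit 242813873) (by decide +kernel))
  (st_mk (Pth.l (Pth.l (Pth.l Pth.z))) (nat_lit 277448473) (nat_lit 279150038) (by decide +kernel))
  (st_mk (Pth.l (Pth.l (Pth.l Pth.z))) (nat_lit 319076191) (nat_lit 321338202) (by decide +kernel)) sv2
theorem so3 : StarOK sI G S3 :=
  star_mk (by decide) (by decide) rfl rfl rfl rfl rfl rfl (rfl : _ = t5) (rfl : _ = t0)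
  (st_mk (Pth.l (Pth.l (Pth.l Pth.z))) (nat_lit 116187924) (nat_lit 134911896) (by decide +kernel))
  (st_mk (Pth.l (Pth.l (Pth.l Pth.z))) (nat_lit 151856141) (nat_lit 170955766) (by decide +kernel))
  (st_mk (Pth.l (Pth.l (Pth.l Pth.z))) (nat_lit 193273572) (nat_lit 212898283) (by decide +kernel)) sv3
theorem so4 : StarOK sI G S4 :=
  star_mk (by decide) (by decide) rfl rfl rfl rfl rfl rfl (rfl : _ = t1) (rfl : _ = t3)
  (st_mk (Pth.l (Pth.l (Pth.l Pth.z))) (nat_lit 238922803) (nat_lit 240694688) (by decide +kernel))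
  (st_mk (Pth.l (Pth.l (Pth.l Pth.z))) (nat_lit 274090924) (nat_lit 276255281) (by decide +kernel))
  (st_mk (Pth.l (Pth.l (Pth.l Pth.z))) (nat_lit 314716174) (nat_lit 317403030) (by decide +kernel)) sv4
theorem so5 : StarOK sI G S5 :=
  star_mk (by decide) (by decide) rfl rfl rfl rfl rfl rfl (rfl : _ = t3) (rfl : _ = t1)
  (st_mk (Pth.l (Pth.l (Pth.l Pth.z))) (nat_lit 186444992) (nat_lit 187848047) (by decide +kernel))
  (st_mk (Pth.l (Pth.l (Pth.l Pth.z))) (nat_lit 221589545) (nat_lit 223351297) (by decide +kernel))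
  (st_mk (Pth.l (Pth.l (Pth.l Pth.z))) (nat_lit 262194441) (nat_lit 264449853) (by decide +kernel)) sv5
theorem ok : GroupOK (nat_lit 0) (nat_lit 91291648) G := grp_mk (allS_c so0 (allS_c so1 (allS_c so2 (allS_c so3 (allS_c so4 (allS_c so5 allS_n))))))
theorem cov : GCov G cl5 cl6 cl9 := cov_mk
  ⟨0, by decide, rfl, rfl, rfl⟩ ⟨1, by decide, rfl, rfl, rfl⟩ ⟨2, by decide, rfl, rfl, rfl⟩ ⟨3, by decide, rfl, rfl, rfl⟩ ⟨4, by decide, rfl, rfl, rfl⟩ ⟨5, by decide, rfl, rfl, rfl⟩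
end Q235_0

namespace Q235_1
def sI : I := I.pos (nat_lit 91226112) (nat_lit 150339584)
def b0_0 : Bx := Bx.mk (St.mk (I.pos (nat_lit 160514048) (nat_lit 267845632)) (I.mix (nat_lit 6995968) (nat_lit 63684608)) (I.mix (nat_lit 67436544) (nat_lit 80150528)) (I.pos (nat_lit 189497344) (nat_lit 366886912)) (I.mix (nat_lit 101269504) (nat_lit 67567616)) (I.mix (nat_lit 83329024) (nat_lit 55050240)) (I.mix (nat_lit 130596864) (nat_lit 83968000)))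
  false (nat_lit 0)
def b0_1 : Bx := Bx.mk (St.mk (I.mix (nat_lit 23560192) (nat_lit 92340224)) (I.mix (nat_lit 1933312) (nat_lit 39092224)) (I.mix (nat_lit 20955136) (nat_lit 6127616)) (I.pos (nat_lit 84279296) (nat_lit 122322944)) (I.mix (nat_lit 32571392) (nat_lit 37535744)) (I.mix (nat_lit 35241984) (nat_lit 25034752)) (I.mix (nat_lit 23052288) (nat_lit 13795328)))
  false (nat_lit 0)
def b0_2 : Bx := Bx.mk (St.mk (I.pos (nat_lit 83935232) (nat_lit 118685696)) (I.mix (nat_lit 57491456) (nat_lit 2228224)) (I.neg (nat_lit 15679488) (nat_lit 62210048)) (I.pos (nat_lit 115392512) (nat_lit 143097856)) (I.mix (nat_lit 85229568) (nat_lit 28442624)) (I.mix (nat_lit 38076416) (nat_lit 73547776)) (I.mix (nat_lit 27344896) (nat_lit 54493184)))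
  false (nat_lit 0)
def b0_3 : Bx := Bx.mk (St.mk (I.mix (nat_lit 44171264) (nat_lit 25837568)) (I.mix (nat_lit 34308096) (nat_lit 1474560)) (I.neg (nat_lit 3670016) (nat_lit 17465344)) (I.pos (nat_lit 83214336) (nat_lit 100122624)) (I.mix (nat_lit 33701888) (nat_lit 21725184)) (I.mix (nat_lit 19824640) (nat_lit 28721152)) (I.mix (nat_lit 10780672) (nat_lit 7733248)))
  false (nat_lit 0)
def b0_4 : Bx := Bx.mk (St.mk (I.mix (nat_lit 47693824) (nat_lit 3063808)) (I.mix (nat_lit 1720320) (nat_lit 11010048)) (I.neg (nat_lit 12500992) (nat_lit 19480576)) (I.pos (nat_lit 88326144) (nat_lit 98861056)) (I.mix (nat_lit 7864320) (nat_lit 14680064)) (I.mix (nat_lit 9568256) (nat_lit 8044544)) (I.mix (nat_lit 3047424) (nat_lit 4390912)))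
  false (nat_lit 0)
def b0_5 : Bx := Bx.mk (St.mk (I.pos (nat_lit 83492864) (nat_lit 91897856)) (I.mix (nat_lit 1867776) (nat_lit 8929280)) (I.neg (nat_lit 11534336) (nat_lit 20873216)) (I.pos (nat_lit 115490816) (nat_lit 122077184)) (I.mix (nat_lit 7700480) (nat_lit 11239424)) (I.mix (nat_lit 7667712) (nat_lit 5259264)) (I.mix (nat_lit 5685248) (nat_lit 4177920)))
  false (nat_lit 0)
def b0_6 : Bx := Bx.mk (St.mk (I.pos (nat_lit 87736320) (nat_lit 158547968)) (I.neg (nat_lit 5521408) (nat_lit 57131008)) (I.neg (nat_lit 13254656) (nat_lit 61833216)) (I.pos (nat_lit 124239872) (nat_lit 186089472)) (I.mix (nat_lit 75022336) (nat_lit 45563904)) (I.mix (nat_lit 37961728) (nat_lit 70565888)) (I.mix (nat_lit 28934144) (nat_lit 63012864)))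
  false (nat_lit 0)
def b0_7 : Bx := Bx.mk (St.mk (I.mix (nat_lit 30212096) (nat_lit 45203456)) (I.mix (nat_lit 33505280) (nat_lit 5603328)) (I.neg (nat_lit 4866048) (nat_lit 19922944)) (I.pos (nat_lit 83312640) (nat_lit 99237888)) (I.mix (nat_lit 33800192) (nat_lit 29786112)) (I.mix (nat_lit 21037056) (nat_lit 36061184)) (I.mix (nat_lit 10272768) (nat_lit 13942784)))
  false (nat_lit 0)
def b0_8 : Bx := Bx.mk (St.mk (I.mix (nat_lit 45203456) (nat_lit 73383936)) (I.mix (nat_lit 8912896) (nat_lit 33931264)) (I.mix (nat_lit 19922944) (nat_lit 4161536)) (I.pos (nat_lit 83312640) (nat_lit 110886912)) (I.mix (nat_lit 34570240) (nat_lit 33800192)) (I.mix (nat_lit 38813696) (nat_lit 23887872)) (I.mix (nat_lit 14745600) (nat_lit 13942784)))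
  false (nat_lit 0)
def b0_9 : Bx := Bx.mk (St.mk (I.pos (nat_lit 138051584) (nat_lit 212058112)) (I.mix (nat_lit 38354944) (nat_lit 65323008)) (I.mix (nat_lit 48250880) (nat_lit 76611584)) (I.pos (nat_lit 168198144) (nat_lit 262176768)) (I.mix (nat_lit 127107072) (nat_lit 59998208)) (I.mix (nat_lit 131629056) (nat_lit 79609856)) (I.mix (nat_lit 128942080) (nat_lit 76627968)))
  false (nat_lit 0)
def t0 : BTr := (BTr.n (BTr.n (BTr.n (BTr.b b0_0) (BTr.b b0_1)) (BTr.n (BTr.b b0_2) (BTr.n (BTr.b b0_3) (BTr.b b0_4)))) (BTr.n (BTr.n (BTr.b b0_5) (BTr.b b0_6)) (BTr.n (BTr.b b0_7) (BTr.n (BTr.b b0_8) (BTr.b b0_9)))))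
namespace T0
def l0 : Tr := Tr.L (Pth.l (Pth.l (Pth.l Pth.z)))
def l1 : Tr := Tr.L (Pth.l (Pth.l (Pth.r Pth.z)))
def l2 : Tr := Tr.L (Pth.l (Pth.r (Pth.l Pth.z)))
def l3 : Tr := Tr.L (Pth.l (Pth.r (Pth.r (Pth.l Pth.z))))
def l4 : Tr := Tr.L (Pth.l (Pth.r (Pth.r (Pth.r Pth.z))))
def l5 : Tr := Tr.L (Pth.r (Pth.l (Pth.l Pth.z)))
def l6 : Tr := Tr.L (Pth.r (Pth.l (Pth.r Pth.z)))
def l7 : Tr := Tr.L (Pth.r (Pth.r (Pth.l Pth.z)))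
def l8 : Tr := Tr.L (Pth.r (Pth.r (Pth.r (Pth.l Pth.z))))
def l9 : Tr := Tr.L (Pth.r (Pth.r (Pth.r (Pth.r Pth.z))))
end T0
def b1_0 : Bx := Bx.mk (St.mk (I.pos (nat_lit 160514048) (nat_lit 266665984)) (I.mix (nat_lit 7421952) (nat_lit 53100544)) (I.mix (nat_lit 30162944) (nat_lit 85458944)) (I.pos (nat_lit 117129216) (nat_lit 311459840)) (I.mix (nat_lit 108789760) (nat_lit 64241664)) (I.mix (nat_lit 89325568) (nat_lit 60260352)) (I.mix (nat_lit 135299072) (nat_lit 86802432)))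
  false (nat_lit 0)
def b1_1 : Bx := Bx.mk (St.mk (I.mix (nat_lit 8847360) (nat_lit 126484480)) (I.mix (nat_lit 1949696) (nat_lit 28835840)) (I.mix (nat_lit 8126464) (nat_lit 20004864)) (I.pos (nat_lit 17645568) (nat_lit 96714752)) (I.mix (nat_lit 37453824) (nat_lit 26492928)) (I.mix (nat_lit 30621696) (nat_lit 22085632)) (I.mix (nat_lit 22233088) (nat_lit 16318464)))
  false (nat_lit 0)
def b1_2 : Bx := Bx.mk (St.mk (I.pos (nat_lit 110837760) (nat_lit 150257664)) (I.mix (nat_lit 52494336) (nat_lit 2392064)) (I.neg (nat_lit 2064384) (nat_lit 56197120)) (I.pos (nat_lit 66404352) (nat_lit 120700928)) (I.mix (nat_lit 93241344) (nat_lit 30179328)) (I.mix (nat_lit 44466176) (nat_lit 92897280)) (I.mix (nat_lit 34029568) (nat_lit 78462976)))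
  false (nat_lit 0)
def b1_3 : Bx := Bx.mk (St.mk (I.mix (nat_lit 17612800) (nat_lit 88457216)) (I.mix (nat_lit 25903104) (nat_lit 475136)) (I.mix (nat_lit 18382848) (nat_lit 180224)) (I.pos (nat_lit 18006016) (nat_lit 65634304)) (I.mix (nat_lit 35913728) (nat_lit 15810560)) (I.mix (nat_lit 19038208) (nat_lit 32096256)) (I.mix (nat_lit 10305536) (nat_lit 16728064)))
  false (nat_lit 0)
def b1_4 : Bx := Bx.mk (St.mk (I.pos (nat_lit 110772224) (nat_lit 126156800)) (I.mix (nat_lit 1753088) (nat_lit 7208960)) (I.mix (nat_lit 7929856) (nat_lit 1228800)) (I.pos (nat_lit 66469888) (nat_lit 96436224)) (I.mix (nat_lit 6553600) (nat_lit 8863744)) (I.mix (nat_lit 5931008) (nat_lit 3932160)) (I.mix (nat_lit 5439488) (nat_lit 3063808)))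
  false (nat_lit 0)
def b1_5 : Bx := Bx.mk (St.mk (I.mix (nat_lit 20070400) (nat_lit 49889280)) (I.pos (nat_lit 32768) (nat_lit 4374528)) (I.neg (nat_lit 393216) (nat_lit 3260416)) (I.pos (nat_lit 18432000) (nat_lit 45826048)) (I.mix (nat_lit 2588672) (nat_lit 4882432)) (I.mix (nat_lit 2899968) (nat_lit 2260992)) (I.mix (nat_lit 720896) (nat_lit 606208)))
  false (nat_lit 0)
def b1_6 : Bx := Bx.mk (St.mk (I.pos (nat_lit 112181248) (nat_lit 179994624)) (I.neg (nat_lit 3899392) (nat_lit 53215232)) (I.neg (nat_lit 3375104) (nat_lit 55083008)) (I.pos (nat_lit 80576512) (nat_lit 159825920)) (I.mix (nat_lit 70369280) (nat_lit 40632320)) (I.mix (nat_lit 38387712) (nat_lit 56164352)) (I.mix (nat_lit 32653312) (nat_lit 57147392)))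
  false (nat_lit 0)
def b1_7 : Bx := Bx.mk (St.mk (I.mix (nat_lit 15613952) (nat_lit 101269504)) (I.mix (nat_lit 28377088) (nat_lit 3391488)) (I.mix (nat_lit 20398080) (nat_lit 704512)) (I.pos (nat_lit 16973824) (nat_lit 74891264)) (I.mix (nat_lit 33472512) (nat_lit 22069248)) (I.mix (nat_lit 18235392) (nat_lit 27426816)) (I.mix (nat_lit 10960896) (nat_lit 16580608)))
  false (nat_lit 0)
def b1_8 : Bx := Bx.mk (St.mk (I.pos (nat_lit 149356544) (nat_lit 215711744)) (I.mix (nat_lit 36880384) (nat_lit 54444032)) (I.mix (nat_lit 39567360) (nat_lit 84148224)) (I.pos (nat_lit 111411200) (nat_lit 212369408)) (I.mix (nat_lit 133578752) (nat_lit 53100544)) (I.mix (nat_lit 148226048) (nat_lit 81133568)) (I.mix (nat_lit 174571520) (nat_lit 87359488)))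
  false (nat_lit 0)
def b1_9 : Bx := Bx.mk (St.mk (I.mix (nat_lit 20398080) (nat_lit 120766464)) (I.mix (nat_lit 11485184) (nat_lit 32391168)) (I.mix (nat_lit 9748480) (nat_lit 22773760)) (I.pos (nat_lit 17924096) (nat_lit 90062848)) (I.mix (nat_lit 50921472) (nat_lit 25706496)) (I.mix (nat_lit 49627136) (nat_lit 30048256)) (I.mix (nat_lit 31244288) (nat_lit 18825216)))
  false (nat_lit 0)
def t1 : BTr := (BTr.n (BTr.n (BTr.n (BTr.b b1_0) (BTr.b b1_1)) (BTr.n (BTr.b b1_2) (BTr.n (BTr.b b1_3) (BTr.b b1_4)))) (BTr.n (BTr.n (BTr.b b1_5) (BTr.b b1_6)) (BTr.n (BTr.b b1_7) (BTr.n (BTr.b b1_8) (BTr.b b1_9)))))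
namespace T1
def l0 : Tr := Tr.L (Pth.l (Pth.l (Pth.l Pth.z)))
def l1 : Tr := Tr.L (Pth.l (Pth.l (Pth.r Pth.z)))
def l2 : Tr := Tr.L (Pth.l (Pth.r (Pth.l Pth.z)))
def l3 : Tr := Tr.L (Pth.l (Pth.r (Pth.r (Pth.l Pth.z))))
def l4 : Tr := Tr.L (Pth.l (Pth.r (Pth.r (Pth.r Pth.z))))
def l5 : Tr := Tr.L (Pth.r (Pth.l (Pth.l Pth.z)))
def l6 : Tr := Tr.L (Pth.r (Pth.l (Pth.r Pth.z)))
def l7 : Tr := Tr.L (Pth.r (Pth.r (Pth.l Pth.z)))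
def l8 : Tr := Tr.L (Pth.r (Pth.r (Pth.r (Pth.l Pth.z))))
def l9 : Tr := Tr.L (Pth.r (Pth.r (Pth.r (Pth.r Pth.z))))
end T1
def b2_0 : Bx := Bx.mk (St.mk (I.pos (nat_lit 160169984) (nat_lit 283361280)) (I.mix (nat_lit 30818304) (nat_lit 72105984)) (I.mix (nat_lit 129171456) (nat_lit 86753280)) (I.pos (nat_lit 241844224) (nat_lit 449855488)) (I.mix (nat_lit 102088704) (nat_lit 77447168)) (I.mix (nat_lit 91226112) (nat_lit 62095360)) (I.mix (nat_lit 140034048) (nat_lit 93716480)))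
  false (nat_lit 17870010)
def b2_1 : Bx := Bx.mk (St.mk (I.pos (nat_lit 25575424) (nat_lit 72450048)) (I.mix (nat_lit 9142272) (nat_lit 48398336)) (I.neg (nat_lit 1671168) (nat_lit 30621696)) (I.pos (nat_lit 143671296) (nat_lit 162529280)) (I.mix (nat_lit 32915456) (nat_lit 46972928)) (I.mix (nat_lit 42991616) (nat_lit 26738688)) (I.mix (nat_lit 23101440) (nat_lit 13582336)))
  false (nat_lit 0)
def b2_2 : Bx := Bx.mk (St.mk (I.pos (nat_lit 52150272) (nat_lit 97959936)) (I.mix (nat_lit 63406080) (nat_lit 9404416)) (I.neg (nat_lit 18022400) (nat_lit 62685184)) (I.pos (nat_lit 150650880) (nat_lit 180977664)) (I.mix (nat_lit 80838656) (nat_lit 34668544)) (I.mix (nat_lit 36896768) (nat_lit 72269824)) (I.mix (nat_lit 26509312) (nat_lit 44040192)))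
  false (nat_lit 0)
def b2_3 : Bx := Bx.mk (St.mk (I.neg (nat_lit 25509888) (nat_lit 72450048)) (I.mix (nat_lit 48398336) (nat_lit 11452416)) (I.neg (nat_lit 1671168) (nat_lit 31244288)) (I.pos (nat_lit 143671296) (nat_lit 162529280)) (I.mix (nat_lit 46972928) (nat_lit 32915456)) (I.mix (nat_lit 26738688) (nat_lit 42991616)) (I.mix (nat_lit 23101440) (nat_lit 13582336)))
  true (nat_lit 0)
def b2_4 : Bx := Bx.mk (St.mk (I.pos (nat_lit 70729728) (nat_lit 147439616)) (I.neg (nat_lit 6144000) (nat_lit 67862528)) (I.neg (nat_lit 9371648) (nat_lit 67305472)) (I.pos (nat_lit 164003840) (nat_lit 226263040)) (I.mix (nat_lit 81592320) (nat_lit 51314688)) (I.mix (nat_lit 40599552) (nat_lit 72876032)) (I.mix (nat_lit 38453248) (nat_lit 62881792)))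
  false (nat_lit 0)
def b2_5 : Bx := Bx.mk (St.mk (I.mix (nat_lit 37339136) (nat_lit 5046272)) (I.mix (nat_lit 41877504) (nat_lit 6455296)) (I.neg (nat_lit 3604480) (nat_lit 9912320)) (I.pos (nat_lit 141885440) (nat_lit 151437312)) (I.mix (nat_lit 33030144) (nat_lit 37912576)) (I.mix (nat_lit 24444928) (nat_lit 43122688)) (I.mix (nat_lit 7061504) (nat_lit 5668864)))
  true (nat_lit 0)
def b2_6 : Bx := Bx.mk (St.mk (I.pos (nat_lit 128008192) (nat_lit 199901184)) (I.mix (nat_lit 39567360) (nat_lit 68616192)) (I.mix (nat_lit 42713088) (nat_lit 83378176)) (I.pos (nat_lit 206848000) (nat_lit 299270144)) (I.mix (nat_lit 125763584) (nat_lit 65748992)) (I.mix (nat_lit 129384448) (nat_lit 68255744)) (I.mix (nat_lit 131497984) (nat_lit 73465856)))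
  false (nat_lit 0)
def b2_7 : Bx := Bx.mk (St.mk (I.mix (nat_lit 5046272) (nat_lit 37339136)) (I.mix (nat_lit 6455296) (nat_lit 41877504)) (I.neg (nat_lit 3604480) (nat_lit 9912320)) (I.pos (nat_lit 141885440) (nat_lit 151437312)) (I.mix (nat_lit 37912576) (nat_lit 33030144)) (I.mix (nat_lit 43122688) (nat_lit 24444928)) (I.mix (nat_lit 7061504) (nat_lit 5668864)))
  false (nat_lit 0)
def t2 : BTr := (BTr.n (BTr.n (BTr.n (BTr.b b2_0) (BTr.b b2_1)) (BTr.n (BTr.b b2_2) (BTr.b b2_3))) (BTr.n (BTr.n (BTr.b b2_4) (BTr.b b2_5)) (BTr.n (BTr.b b2_6) (BTr.b b2_7))))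
namespace T2
def l0 : Tr := Tr.L (Pth.l (Pth.l (Pth.l Pth.z)))
def l1 : Tr := Tr.L (Pth.l (Pth.l (Pth.r Pth.z)))
def l2 : Tr := Tr.L (Pth.l (Pth.r (Pth.l Pth.z)))
def l3 : Tr := Tr.L (Pth.l (Pth.r (Pth.r Pth.z)))
def l4 : Tr := Tr.L (Pth.r (Pth.l (Pth.l Pth.z)))
def l5 : Tr := Tr.L (Pth.r (Pth.l (Pth.r Pth.z)))
def l6 : Tr := Tr.L (Pth.r (Pth.r (Pth.l Pth.z)))
def l7 : Tr := Tr.L (Pth.r (Pth.r (Pth.r Pth.z)))
end T2
def b3_0 : Bx := Bx.mk (St.mk (I.pos (nat_lit 160514048) (nat_lit 279855104)) (I.mix (nat_lit 26607616) (nat_lit 50003968)) (I.mix (nat_lit 51232768) (nat_lit 95748096)) (I.pos (nat_lit 116555776) (nat_lit 337231872)) (I.mix (nat_lit 108527616) (nat_lit 69566464)) (I.mix (nat_lit 93962240) (nat_lit 64897024)) (I.mix (nat_lit 145817600) (nat_lit 84688896)))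
  false (nat_lit 0)
def b3_1 : Bx := Bx.mk (St.mk (I.pos (nat_lit 115326976) (nat_lit 175374336)) (I.neg (nat_lit 6881280) (nat_lit 54394880)) (I.neg (nat_lit 1949696) (nat_lit 48513024)) (I.pos (nat_lit 85868544) (nat_lit 153370624)) (I.mix (nat_lit 71155712) (nat_lit 38830080)) (I.mix (nat_lit 35602432) (nat_lit 51429376)) (I.mix (nat_lit 32964608) (nat_lit 50905088)))
  false (nat_lit 0)
def b3_2 : Bx := Bx.mk (St.mk (I.mix (nat_lit 14188544) (nat_lit 99090432)) (I.mix (nat_lit 28131328) (nat_lit 933888)) (I.mix (nat_lit 15810560) (nat_lit 4046848)) (I.pos (nat_lit 17219584) (nat_lit 73187328)) (I.mix (nat_lit 29818880) (nat_lit 20381696)) (I.mix (nat_lit 17203200) (nat_lit 23674880)) (I.mix (nat_lit 10240000) (nat_lit 13778944)))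
  false (nat_lit 0)
def b3_3 : Bx := Bx.mk (St.mk (I.pos (nat_lit 158482432) (nat_lit 213254144)) (I.mix (nat_lit 32440320) (nat_lit 53460992)) (I.mix (nat_lit 20856832) (nat_lit 95141888)) (I.pos (nat_lit 118276096) (nat_lit 205996032)) (I.mix (nat_lit 135446528) (nat_lit 54018048)) (I.mix (nat_lit 146866176) (nat_lit 79298560)) (I.mix (nat_lit 173342720) (nat_lit 82214912)))
  false (nat_lit 14079471)
def b3_4 : Bx := Bx.mk (St.mk (I.mix (nat_lit 18956288) (nat_lit 119570432)) (I.mix (nat_lit 8372224) (nat_lit 32751616)) (I.mix (nat_lit 2260992) (nat_lit 28966912)) (I.pos (nat_lit 17956864) (nat_lit 88817664)) (I.mix (nat_lit 54837248) (nat_lit 25559040)) (I.mix (nat_lit 52035584) (nat_lit 30457856)) (I.mix (nat_lit 33636352) (nat_lit 18792448)))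
  false (nat_lit 0)
def b3_5 : Bx := Bx.mk (St.mk (I.pos (nat_lit 156057600) (nat_lit 175357952)) (I.neg (nat_lit 13041664) (nat_lit 35520512)) (I.neg (nat_lit 2359296) (nat_lit 27361280)) (I.pos (nat_lit 116441088) (nat_lit 153370624)) (I.mix (nat_lit 21594112) (nat_lit 12075008)) (I.mix (nat_lit 9420800) (nat_lit 12255232)) (I.mix (nat_lit 9437184) (nat_lit 12763136)))
  false (nat_lit 0)
def b3_6 : Bx := Bx.mk (St.mk (I.mix (nat_lit 20496384) (nat_lit 99188736)) (I.mix (nat_lit 11862016) (nat_lit 720896)) (I.mix (nat_lit 4931584) (nat_lit 4145152)) (I.pos (nat_lit 18382848) (nat_lit 73220096)) (I.mix (nat_lit 7061504) (nat_lit 9273344)) (I.mix (nat_lit 5095424) (nat_lit 6684672)) (I.mix (nat_lit 3063808) (nat_lit 4456448)))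
  false (nat_lit 0)
def b3_7 : Bx := Bx.mk (St.mk (I.mix (nat_lit 12550144) (nat_lit 130007040)) (I.mix (nat_lit 7831552) (nat_lit 27656192)) (I.mix (nat_lit 6848512) (nat_lit 25985024)) (I.pos (nat_lit 17563648) (nat_lit 99581952)) (I.mix (nat_lit 40828928) (nat_lit 27852800)) (I.mix (nat_lit 34963456) (nat_lit 23396352)) (I.mix (nat_lit 26181632) (nat_lit 17350656)))
  false (nat_lit 0)
def b3_8 : Bx := Bx.mk (St.mk (I.pos (nat_lit 107773952) (nat_lit 153436160)) (I.mix (nat_lit 53772288) (nat_lit 6111232)) (I.mix (nat_lit 49053696) (nat_lit 7208960)) (I.pos (nat_lit 64929792) (nat_lit 124223488)) (I.mix (nat_lit 89227264) (nat_lit 32178176)) (I.mix (nat_lit 45137920) (nat_lit 89735168)) (I.mix (nat_lit 35651584) (nat_lit 73531392)))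
  false (nat_lit 0)
def b3_9 : Bx := Bx.mk (St.mk (I.mix (nat_lit 19857408) (nat_lit 89882624)) (I.mix (nat_lit 25804800) (nat_lit 3325952)) (I.mix (nat_lit 13860864) (nat_lit 2818048)) (I.pos (nat_lit 17989632) (nat_lit 66387968)) (I.mix (nat_lit 32833536) (nat_lit 16007168)) (I.mix (nat_lit 18366464) (nat_lit 30130176)) (I.mix (nat_lit 9945088) (nat_lit 15286272)))
  false (nat_lit 0)
def t3 : BTr := (BTr.n (BTr.n (BTr.n (BTr.b b3_0) (BTr.b b3_1)) (BTr.n (BTr.b b3_2) (BTr.n (BTr.b b3_3) (BTr.b b3_4)))) (BTr.n (BTr.n (BTr.b b3_5) (BTr.b b3_6)) (BTr.n (BTr.b b3_7) (BTr.n (BTr.b b3_8) (BTr.b b3_9)))))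
namespace T3
def l0 : Tr := Tr.L (Pth.l (Pth.l (Pth.l Pth.z)))
def l1 : Tr := Tr.L (Pth.l (Pth.l (Pth.r Pth.z)))
def l2 : Tr := Tr.L (Pth.l (Pth.r (Pth.l Pth.z)))
def l3 : Tr := Tr.L (Pth.l (Pth.r (Pth.r (Pth.l Pth.z))))
def l4 : Tr := Tr.L (Pth.l (Pth.r (Pth.r (Pth.r Pth.z))))
def l5 : Tr := Tr.L (Pth.r (Pth.l (Pth.l Pth.z)))
def l6 : Tr := Tr.L (Pth.r (Pth.l (Pth.r Pth.z)))
def l7 : Tr := Tr.L (Pth.r (Pth.r (Pth.l Pth.z)))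
def l8 : Tr := Tr.L (Pth.r (Pth.r (Pth.r (Pth.l Pth.z))))
def l9 : Tr := Tr.L (Pth.r (Pth.r (Pth.r (Pth.r Pth.z))))
end T3
def b4_0 : Bx := Bx.mk (St.mk (I.pos (nat_lit 149454848) (nat_lit 282247168)) (I.mix (nat_lit 20381696) (nat_lit 68239360)) (I.mix (nat_lit 63488000) (nat_lit 108789760)) (I.pos (nat_lit 238665728) (nat_lit 439025664)) (I.mix (nat_lit 120815616) (nat_lit 88981504)) (I.mix (nat_lit 112951296) (nat_lit 71761920)) (I.mix (nat_lit 166051840) (nat_lit 96419840)))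
  false (nat_lit 71935378)
def b4_1 : Bx := Bx.mk (St.mk (I.pos (nat_lit 78987264) (nat_lit 153780224)) (I.neg (nat_lit 9682944) (nat_lit 69648384)) (I.mix (nat_lit 51462144) (nat_lit 12435456)) (I.pos (nat_lit 170835968) (nat_lit 230916096)) (I.mix (nat_lit 70828032) (nat_lit 48529408)) (I.mix (nat_lit 39944192) (nat_lit 58032128)) (I.mix (nat_lit 36503552) (nat_lit 50036736)))
  false (nat_lit 0)
def b4_2 : Bx := Bx.mk (St.mk (I.mix (nat_lit 32440320) (nat_lit 7946240)) (I.mix (nat_lit 42139648) (nat_lit 7569408)) (I.pos (nat_lit 4243456) (nat_lit 10649600)) (I.pos (nat_lit 141557760) (nat_lit 149733376)) (I.mix (nat_lit 26411008) (nat_lit 38813696)) (I.mix (nat_lit 21741568) (nat_lit 36667392)) (I.mix (nat_lit 5193728) (nat_lit 5701632)))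
  true (nat_lit 0)
def b4_3 : Bx := Bx.mk (St.mk (I.pos (nat_lit 125485056) (nat_lit 195559424)) (I.mix (nat_lit 37011456) (nat_lit 66502656)) (I.mix (nat_lit 17448960) (nat_lit 106315776)) (I.pos (nat_lit 204242944) (nat_lit 286408704)) (I.mix (nat_lit 129040384) (nat_lit 45547520)) (I.mix (nat_lit 123437056) (nat_lit 54968320)) (I.mix (nat_lit 128188416) (nat_lit 55328768)))
  false (nat_lit 26839468)
def b4_4 : Bx := Bx.mk (St.mk (I.mix (nat_lit 7946240) (nat_lit 32440320)) (I.mix (nat_lit 9371648) (nat_lit 42139648)) (I.pos (nat_lit 4243456) (nat_lit 10649600)) (I.pos (nat_lit 141557760) (nat_lit 149733376)) (I.mix (nat_lit 38813696) (nat_lit 26411008)) (I.mix (nat_lit 36667392) (nat_lit 21741568)) (I.mix (nat_lit 5193728) (nat_lit 5701632)))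
  false (nat_lit 0)
def b4_5 : Bx := Bx.mk (St.mk (I.pos (nat_lit 19808256) (nat_lit 69763072)) (I.mix (nat_lit 7045120) (nat_lit 47972352)) (I.mix (nat_lit 13729792) (nat_lit 13565952)) (I.pos (nat_lit 142082048) (nat_lit 161677312)) (I.mix (nat_lit 38993920) (nat_lit 43565056)) (I.mix (nat_lit 48480256) (nat_lit 28950528)) (I.mix (nat_lit 24559616) (nat_lit 16039936)))
  false (nat_lit 0)
def b4_6 : Bx := Bx.mk (St.mk (I.pos (nat_lit 54575104) (nat_lit 104087552)) (I.mix (nat_lit 66256896) (nat_lit 7487488)) (I.neg (nat_lit 4472832) (nat_lit 47104000)) (I.pos (nat_lit 152911872) (nat_lit 185958400)) (I.mix (nat_lit 77037568) (nat_lit 40435712)) (I.mix (nat_lit 38895616) (nat_lit 76513280)) (I.mix (nat_lit 28983296) (nat_lit 44843008)))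
  false (nat_lit 0)
def b4_7 : Bx := Bx.mk (St.mk (I.neg (nat_lit 19808256) (nat_lit 69763072)) (I.mix (nat_lit 47972352) (nat_lit 7045120)) (I.mix (nat_lit 13729792) (nat_lit 13565952)) (I.pos (nat_lit 142082048) (nat_lit 161677312)) (I.mix (nat_lit 43565056) (nat_lit 38993920)) (I.mix (nat_lit 28950528) (nat_lit 48480256)) (I.mix (nat_lit 24559616) (nat_lit 16039936)))
  true (nat_lit 0)
def t4 : BTr := (BTr.n (BTr.n (BTr.n (BTr.b b4_0) (BTr.b b4_1)) (BTr.n (BTr.b b4_2) (BTr.b b4_3))) (BTr.n (BTr.n (BTr.b b4_4) (BTr.b b4_5)) (BTr.n (BTr.b b4_6) (BTr.b b4_7))))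
namespace T4
def l0 : Tr := Tr.L (Pth.l (Pth.l (Pth.l Pth.z)))
def l1 : Tr := Tr.L (Pth.l (Pth.l (Pth.r Pth.z)))
def l2 : Tr := Tr.L (Pth.l (Pth.r (Pth.l Pth.z)))
def l3 : Tr := Tr.L (Pth.l (Pth.r (Pth.r Pth.z)))
def l4 : Tr := Tr.L (Pth.r (Pth.l (Pth.l Pth.z)))
def l5 : Tr := Tr.L (Pth.r (Pth.l (Pth.r Pth.z)))
def l6 : Tr := Tr.L (Pth.r (Pth.r (Pth.l Pth.z)))
def l7 : Tr := Tr.L (Pth.r (Pth.r (Pth.r Pth.z)))
end T4
def b5_0 : Bx := Bx.mk (St.mk (I.pos (nat_lit 149651456) (nat_lit 279920640)) (I.mix (nat_lit 19120128) (nat_lit 57704448)) (I.mix (nat_lit 33652736) (nat_lit 109150208)) (I.pos (nat_lit 186089472) (nat_lit 383549440)) (I.mix (nat_lit 122552320) (nat_lit 83116032)) (I.mix (nat_lit 114753536) (nat_lit 72925184)) (I.mix (nat_lit 169213952) (nat_lit 88801280)))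
  false (nat_lit 44708188)
def b5_1 : Bx := Bx.mk (St.mk (I.pos (nat_lit 97763328) (nat_lit 154075136)) (I.neg (nat_lit 13910016) (nat_lit 62193664)) (I.mix (nat_lit 43171840) (nat_lit 4685824)) (I.pos (nat_lit 134135808) (nat_lit 179617792)) (I.mix (nat_lit 69828608) (nat_lit 41107456)) (I.mix (nat_lit 32620544) (nat_lit 53985280)) (I.mix (nat_lit 27721728) (nat_lit 46579712)))
  false (nat_lit 0)
def b5_2 : Bx := Bx.mk (St.mk (I.mix (nat_lit 26738688) (nat_lit 42631168)) (I.mix (nat_lit 34947072) (nat_lit 1081344)) (I.mix (nat_lit 3178496) (nat_lit 10108928)) (I.pos (nat_lit 83427328) (nat_lit 99844096)) (I.mix (nat_lit 23789568) (nat_lit 29818880)) (I.mix (nat_lit 20021248) (nat_lit 26640384)) (I.mix (nat_lit 7340032) (nat_lit 9650176)))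
  false (nat_lit 0)
def b5_3 : Bx := Bx.mk (St.mk (I.pos (nat_lit 147767296) (nat_lit 203718656)) (I.mix (nat_lit 27361280) (nat_lit 62472192)) (I.mix (nat_lit 2015232) (nat_lit 109314048)) (I.pos (nat_lit 173015040) (nat_lit 242827264)) (I.mix (nat_lit 138199040) (nat_lit 54018048)) (I.mix (nat_lit 134922240) (nat_lit 73252864)) (I.mix (nat_lit 141279232) (nat_lit 66322432)))
  false (nat_lit 30896119)
def b5_4 : Bx := Bx.mk (St.mk (I.mix (nat_lit 44548096) (nat_lit 67321856)) (I.mix (nat_lit 4620288) (nat_lit 35028992)) (I.mix (nat_lit 3178496) (nat_lit 22347776)) (I.pos (nat_lit 83427328) (nat_lit 107872256)) (I.mix (nat_lit 38617088) (nat_lit 23789568)) (I.mix (nat_lit 31064064) (nat_lit 20004864)) (I.mix (nat_lit 12451840) (nat_lit 9682944)))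
  false (nat_lit 0)
def b5_5 : Bx := Bx.mk (St.mk (I.mix (nat_lit 48267264) (nat_lit 44613632)) (I.mix (nat_lit 10584064) (nat_lit 4751360)) (I.pos (nat_lit 4063232) (nat_lit 12238848)) (I.pos (nat_lit 88309760) (nat_lit 99074048)) (I.mix (nat_lit 8470528) (nat_lit 13402112)) (I.mix (nat_lit 7798784) (nat_lit 8617984)) (I.mix (nat_lit 3293184) (nat_lit 2883584)))
  false (nat_lit 0)
def b5_6 : Bx := Bx.mk (St.mk (I.pos (nat_lit 138035200) (nat_lit 158547968)) (I.neg (nat_lit 18661376) (nat_lit 40140800)) (I.mix (nat_lit 19922944) (nat_lit 5554176)) (I.pos (nat_lit 165150720) (nat_lit 184369152)) (I.mix (nat_lit 27525120) (nat_lit 17842176)) (I.mix (nat_lit 15990784) (nat_lit 16531456)) (I.mix (nat_lit 15794176) (nat_lit 16121856)))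
  false (nat_lit 0)
def b5_7 : Bx := Bx.mk (St.mk (I.mix (nat_lit 29032448) (nat_lit 93896704)) (I.mix (nat_lit 6111232) (nat_lit 36945920)) (I.mix (nat_lit 3473408) (nat_lit 26083328)) (I.pos (nat_lit 83640320) (nat_lit 123404288)) (I.mix (nat_lit 44679168) (nat_lit 34095104)) (I.mix (nat_lit 41336832) (nat_lit 26427392)) (I.mix (nat_lit 26148864) (nat_lit 17825792)))
  false (nat_lit 0)
def b5_8 : Bx := Bx.mk (St.mk (I.pos (nat_lit 82231296) (nat_lit 127598592)) (I.mix (nat_lit 61259776) (nat_lit 6537216)) (I.mix (nat_lit 41140224) (nat_lit 6651904)) (I.pos (nat_lit 116047872) (nat_lit 151322624)) (I.mix (nat_lit 75579392) (nat_lit 33849344)) (I.mix (nat_lit 42237952) (nat_lit 68878336)) (I.mix (nat_lit 30523392) (nat_lit 45432832)))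
  false (nat_lit 0)
def b5_9 : Bx := Bx.mk (St.mk (I.mix (nat_lit 45121536) (nat_lit 32309248)) (I.mix (nat_lit 33538048) (nat_lit 4800512)) (I.mix (nat_lit 1359872) (nat_lit 12615680)) (I.pos (nat_lit 82575360) (nat_lit 100302848)) (I.mix (nat_lit 29622272) (nat_lit 30425088)) (I.mix (nat_lit 21118976) (nat_lit 33406976)) (I.mix (nat_lit 12288000) (nat_lit 9535488)))
  false (nat_lit 0)
def t5 : BTr := (BTr.n (BTr.n (BTr.n (BTr.b b5_0) (BTr.b b5_1)) (BTr.n (BTr.b b5_2) (BTr.n (BTr.b b5_3) (BTr.b b5_4)))) (BTr.n (BTr.n (BTr.b b5_5) (BTr.b b5_6)) (BTr.n (BTr.b b5_7) (BTr.n (BTr.b b5_8) (BTr.b b5_9)))))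
namespace T5
def l0 : Tr := Tr.L (Pth.l (Pth.l (Pth.l Pth.z)))
def l1 : Tr := Tr.L (Pth.l (Pth.l (Pth.r Pth.z)))
def l2 : Tr := Tr.L (Pth.l (Pth.r (Pth.l Pth.z)))
def l3 : Tr := Tr.L (Pth.l (Pth.r (Pth.r (Pth.l Pth.z))))
def l4 : Tr := Tr.L (Pth.l (Pth.r (Pth.r (Pth.r Pth.z))))
def l5 : Tr := Tr.L (Pth.r (Pth.l (Pth.l Pth.z)))
def l6 : Tr := Tr.L (Pth.r (Pth.l (Pth.r Pth.z)))
def l7 : Tr := Tr.L (Pth.r (Pth.r (Pth.l Pth.z)))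
def l8 : Tr := Tr.L (Pth.r (Pth.r (Pth.r (Pth.l Pth.z))))
def l9 : Tr := Tr.L (Pth.r (Pth.r (Pth.r (Pth.r Pth.z))))
end T5
theorem bx0_0 : BoxOK sI cl5 cl6 cl9 t2 t4 b0_0 :=
  box_mk (TrL.c (I.pos (nat_lit 0) (nat_lit 0)) (xa (xb T2.l0 (xa T2.l0 T2.l0)) (xa (xb T2.l0 T2.l0) (xb T2.l0 T2.l0)))
  (TrL.c (I.pos (nat_lit 0) (nat_lit 0)) (xa T4.l1 T4.l1)
  (TrL.c (I.pos (nat_lit 0) (nat_lit 0)) T2.l1
  (TrL.c (I.pos (nat_lit 0) (nat_lit 0)) T4.l2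
  (TrL.c (I.pos (nat_lit 0) (nat_lit 0)) (xa (xb T4.l3 T4.l3) (xb T4.l0 (xa T4.l3 T4.l3)))
  (TrL.c (I.pos (nat_lit 0) (nat_lit 0)) (xa T2.l2 T2.l2)
  (TrL.c (I.pos (nat_lit 0) (nat_lit 0)) T4.l4
  (TrL.c (I.pos (nat_lit 0) (nat_lit 0)) T2.l3
  TrL.n)))))))) (by decide +kernel)
theorem bx0_1 : BoxOK sI cl5 cl6 cl9 t2 t4 b0_1 :=
  box_mk (TrL.c (I.pos (nat_lit 0) (nat_lit 0)) T2.l0
  (TrL.c (I.pos (nat_lit 0) (nat_lit 0)) T4.l1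
  (TrL.c (I.pos (nat_lit 0) (nat_lit 0)) T2.l1
  (TrL.c (I.pos (nat_lit 0) (nat_lit 0)) T4.l2
  (TrL.c (I.pos (nat_lit 0) (nat_lit 0)) T4.l3
  (TrL.c (I.pos (nat_lit 0) (nat_lit 0)) T2.l2
  (TrL.c (I.pos (nat_lit 0) (nat_lit 0)) T4.l4
  (TrL.c (I.pos (nat_lit 0) (nat_lit 0)) T2.l3
  TrL.n)))))))) (by decide +kernel)
theorem bx0_2 : BoxOK sI cl5 cl6 cl9 t2 t4 b0_2 :=
  box_mk (TrL.c (I.pos (nat_lit 0) (nat_lit 0)) T2.l0
  (TrL.c (I.pos (nat_lit 0) (nat_lit 0)) T4.l1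
  (TrL.c (I.pos (nat_lit 0) (nat_lit 0)) T2.l1
  (TrL.c (I.pos (nat_lit 0) (nat_lit 0)) T4.l2
  (TrL.c (I.pos (nat_lit 0) (nat_lit 0)) T4.l3
  (TrL.c (I.pos (nat_lit 0) (nat_lit 0)) T2.l2
  (TrL.c (I.pos (nat_lit 0) (nat_lit 0)) T4.l4
  (TrL.c (I.pos (nat_lit 0) (nat_lit 0)) T2.l3
  TrL.n)))))))) (by decide +kernel)
theorem bx0_3 : BoxOK sI cl5 cl6 cl9 t2 t4 b0_3 :=
  box_mk (TrL.c (I.pos (nat_lit 0) (nat_lit 0)) (xa (xb T2.l0 T2.l0) T2.l0)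
  (TrL.c (I.pos (nat_lit 0) (nat_lit 0)) T4.l3
  (TrL.c (I.pos (nat_lit 0) (nat_lit 0)) T2.l2
  (TrL.c (I.pos (nat_lit 0) (nat_lit 0)) T4.l4
  (TrL.c (I.pos (nat_lit 0) (nat_lit 0)) T4.l1
  (TrL.c (I.pos (nat_lit 0) (nat_lit 0)) T2.l1
  (TrL.c (I.pos (nat_lit 0) (nat_lit 0)) T4.l4
  (TrL.c (I.pos (nat_lit 0) (nat_lit 0)) T2.l3
  TrL.n)))))))) (by decide +kernel)
theorem bx0_4 : BoxOK sI cl5 cl6 cl9 t2 t4 b0_4 :=
  box_mk (TrL.c (I.pos (nat_lit 0) (nat_lit 0)) T2.l0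
  (TrL.c (I.pos (nat_lit 0) (nat_lit 0)) T4.l1
  (TrL.c (I.pos (nat_lit 0) (nat_lit 0)) T2.l1
  (TrL.c (I.pos (nat_lit 0) (nat_lit 0)) T4.l2
  (TrL.c (I.pos (nat_lit 0) (nat_lit 0)) T4.l3
  (TrL.c (I.pos (nat_lit 0) (nat_lit 0)) T2.l2
  (TrL.c (I.pos (nat_lit 0) (nat_lit 0)) T4.l4
  (TrL.c (I.pos (nat_lit 0) (nat_lit 0)) T2.l3
  TrL.n)))))))) (by decide +kernel)
theorem bx0_5 : BoxOK sI cl5 cl6 cl9 t2 t4 b0_5 :=
  box_mk (TrL.c (I.pos (nat_lit 0) (nat_lit 0)) T2.l0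
  (TrL.c (I.pos (nat_lit 0) (nat_lit 0)) T4.l1
  (TrL.c (I.pos (nat_lit 0) (nat_lit 0)) T2.l1
  (TrL.c (I.pos (nat_lit 0) (nat_lit 0)) T4.l2
  (TrL.c (I.pos (nat_lit 0) (nat_lit 0)) T4.l3
  (TrL.c (I.pos (nat_lit 0) (nat_lit 0)) T2.l2
  (TrL.c (I.pos (nat_lit 0) (nat_lit 0)) T4.l4
  (TrL.c (I.pos (nat_lit 0) (nat_lit 0)) T2.l3
  TrL.n)))))))) (by decide +kernel)
theorem bx0_6 : BoxOK sI cl5 cl6 cl9 t2 t4 b0_6 :=
  box_mk (TrL.c (I.pos (nat_lit 0) (nat_lit 0)) T2.l0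
  (TrL.c (I.pos (nat_lit 0) (nat_lit 0)) T4.l1
  (TrL.c (I.pos (nat_lit 0) (nat_lit 0)) T2.l1
  (TrL.c (I.pos (nat_lit 0) (nat_lit 0)) T4.l2
  (TrL.c (I.pos (nat_lit 0) (nat_lit 0)) T4.l3
  (TrL.c (I.pos (nat_lit 0) (nat_lit 0)) T2.l2
  (TrL.c (I.pos (nat_lit 0) (nat_lit 0)) T4.l4
  (TrL.c (I.pos (nat_lit 0) (nat_lit 0)) T2.l3
  TrL.n)))))))) (by decide +kernel)
theorem bx0_7 : BoxOK sI cl5 cl6 cl9 t2 t4 b0_7 :=
  box_mk (TrL.c (I.pos (nat_lit 0) (nat_lit 0)) (xa (xb T2.l0 T2.l0) T2.l0)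
  (TrL.c (I.pos (nat_lit 0) (nat_lit 0)) T4.l3
  (TrL.c (I.pos (nat_lit 0) (nat_lit 0)) T2.l2
  (TrL.c (I.pos (nat_lit 0) (nat_lit 0)) T4.l2
  (TrL.c (I.pos (nat_lit 0) (nat_lit 0)) T4.l1
  (TrL.c (I.pos (nat_lit 0) (nat_lit 0)) T2.l1
  (TrL.c (I.pos (nat_lit 0) (nat_lit 0)) T4.l4
  (TrL.c (I.pos (nat_lit 0) (nat_lit 0)) T2.l3
  TrL.n)))))))) (by decide +kernel)
theorem bx0_8 : BoxOK sI cl5 cl6 cl9 t2 t4 b0_8 :=
  box_mk (TrL.c (I.pos (nat_lit 0) (nat_lit 0)) (xa (xa (xb T2.l0 T2.l0) T2.l0) T2.l0)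
  (TrL.c (I.pos (nat_lit 0) (nat_lit 0)) T4.l1
  (TrL.c (I.pos (nat_lit 0) (nat_lit 0)) T2.l1
  (TrL.c (I.pos (nat_lit 0) (nat_lit 0)) T4.l2
  (TrL.c (I.pos (nat_lit 0) (nat_lit 0)) T4.l3
  (TrL.c (I.pos (nat_lit 0) (nat_lit 0)) T2.l2
  (TrL.c (I.pos (nat_lit 0) (nat_lit 0)) T4.l4
  (TrL.c (I.pos (nat_lit 0) (nat_lit 0)) T2.l3
  TrL.n)))))))) (by decide +kernel)
theorem bx0_9 : BoxOK sI cl5 cl6 cl9 t2 t4 b0_9 :=
  box_mk (TrL.c (I.pos (nat_lit 0) (nat_lit 0)) (xb (xa T2.l0 T2.l0) (xa (xb T2.l0 T2.l0) (xb T2.l0 T2.l0)))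
  (TrL.c (I.pos (nat_lit 0) (nat_lit 0)) (xb T4.l1 T4.l1)
  (TrL.c (I.pos (nat_lit 0) (nat_lit 0)) T2.l1
  (TrL.c (I.pos (nat_lit 0) (nat_lit 0)) T4.l2
  (TrL.c (I.pos (nat_lit 0) (nat_lit 0)) (xb (xa T4.l0 T4.l0) (xa T4.l3 T4.l3))
  (TrL.c (I.pos (nat_lit 0) (nat_lit 0)) T2.l2
  (TrL.c (I.pos (nat_lit 0) (nat_lit 0)) T4.l4
  (TrL.c (I.pos (nat_lit 0) (nat_lit 0)) T2.l3
  TrL.n)))))))) (by decide +kernel)
theorem sv0 : StarV sI cl5 cl6 cl9 t2 t4 t0 :=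
  (bt_n (bt_n (bt_n (bt_b bx0_0) (bt_b bx0_1)) (bt_n (bt_b bx0_2) (bt_n (bt_b bx0_3) (bt_b bx0_4)))) (bt_n (bt_n (bt_b bx0_5) (bt_b bx0_6)) (bt_n (bt_b bx0_7) (bt_n (bt_b bx0_8) (bt_b bx0_9)))))
def S0 : StarD := StarD.mk cl5 cl6 cl9 2 4 t0
theorem bx1_0 : BoxOK sI cl5 cl9 cl6 t4 t2 b1_0 :=
  box_mk (TrL.c (I.pos (nat_lit 0) (nat_lit 0)) (xa (xa T4.l0 T4.l0) (xa T4.l0 T4.l0))
  (TrL.c (I.pos (nat_lit 0) (nat_lit 0)) (xa T2.l4 T2.l4)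
  (TrL.c (I.pos (nat_lit 0) (nat_lit 0)) T4.l5
  (TrL.c (I.pos (nat_lit 0) (nat_lit 0)) T2.l5
  (TrL.c (I.pos (nat_lit 0) (nat_lit 0)) (xa T2.l6 (xb (xa T2.l6 T2.l6) (xa T2.l6 T2.l6)))
  (TrL.c (I.pos (nat_lit 0) (nat_lit 0)) (xa T4.l6 T4.l6)
  (TrL.c (I.pos (nat_lit 0) (nat_lit 0)) T2.l7
  (TrL.c (I.pos (nat_lit 0) (nat_lit 0)) T4.l7
  TrL.n)))))))) (by decide +kernel)
theorem bx1_1 : BoxOK sI cl5 cl9 cl6 t4 t2 b1_1 :=
  box_mk (TrL.c (I.pos (nat_lit 0) (nat_lit 0)) (xa T4.l0 T4.l0)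
  (TrL.c (I.pos (nat_lit 0) (nat_lit 0)) T2.l4
  (TrL.c (I.pos (nat_lit 0) (nat_lit 0)) T4.l5
  (TrL.c (I.pos (nat_lit 0) (nat_lit 0)) T2.l5
  (TrL.c (I.pos (nat_lit 0) (nat_lit 0)) T2.l6
  (TrL.c (I.pos (nat_lit 0) (nat_lit 0)) T4.l6
  (TrL.c (I.pos (nat_lit 0) (nat_lit 0)) T2.l7
  (TrL.c (I.pos (nat_lit 0) (nat_lit 0)) T4.l7
  TrL.n)))))))) (by decide +kernel)
theorem bx1_2 : BoxOK sI cl5 cl9 cl6 t4 t2 b1_2 :=
  box_mk (TrL.c (I.pos (nat_lit 0) (nat_lit 0)) T4.l0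
  (TrL.c (I.pos (nat_lit 0) (nat_lit 0)) T2.l4
  (TrL.c (I.pos (nat_lit 0) (nat_lit 0)) T4.l5
  (TrL.c (I.pos (nat_lit 0) (nat_lit 0)) T2.l5
  (TrL.c (I.pos (nat_lit 0) (nat_lit 0)) T2.l6
  (TrL.c (I.pos (nat_lit 0) (nat_lit 0)) T4.l6
  (TrL.c (I.pos (nat_lit 0) (nat_lit 0)) T2.l7
  (TrL.c (I.pos (nat_lit 0) (nat_lit 0)) T4.l7
  TrL.n)))))))) (by decide +kernel)
theorem bx1_3 : BoxOK sI cl5 cl9 cl6 t4 t2 b1_3 :=
  box_mk (TrL.c (I.pos (nat_lit 0) (nat_lit 0)) (xa T4.l0 T4.l0)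
  (TrL.c (I.pos (nat_lit 0) (nat_lit 0)) T2.l4
  (TrL.c (I.pos (nat_lit 0) (nat_lit 0)) T4.l5
  (TrL.c (I.pos (nat_lit 0) (nat_lit 0)) T2.l5
  (TrL.c (I.pos (nat_lit 0) (nat_lit 0)) T2.l6
  (TrL.c (I.pos (nat_lit 0) (nat_lit 0)) T4.l6
  (TrL.c (I.pos (nat_lit 0) (nat_lit 0)) T2.l7
  (TrL.c (I.pos (nat_lit 0) (nat_lit 0)) T4.l7
  TrL.n)))))))) (by decide +kernel)
theorem bx1_4 : BoxOK sI cl5 cl9 cl6 t4 t2 b1_4 :=
  box_mk (TrL.c (I.pos (nat_lit 0) (nat_lit 0)) T4.l0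
  (TrL.c (I.pos (nat_lit 0) (nat_lit 0)) T2.l4
  (TrL.c (I.pos (nat_lit 0) (nat_lit 0)) T4.l5
  (TrL.c (I.pos (nat_lit 0) (nat_lit 0)) T2.l5
  (TrL.c (I.pos (nat_lit 0) (nat_lit 0)) T2.l6
  (TrL.c (I.pos (nat_lit 0) (nat_lit 0)) T4.l6
  (TrL.c (I.pos (nat_lit 0) (nat_lit 0)) T2.l7
  (TrL.c (I.pos (nat_lit 0) (nat_lit 0)) T4.l7
  TrL.n)))))))) (by decide +kernel)
theorem bx1_5 : BoxOK sI cl5 cl9 cl6 t4 t2 b1_5 :=
  box_mk (TrL.c (I.pos (nat_lit 0) (nat_lit 0)) T4.l0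
  (TrL.c (I.pos (nat_lit 0) (nat_lit 0)) T2.l4
  (TrL.c (I.pos (nat_lit 0) (nat_lit 0)) T4.l5
  (TrL.c (I.pos (nat_lit 0) (nat_lit 0)) T2.l5
  (TrL.c (I.pos (nat_lit 0) (nat_lit 0)) T2.l6
  (TrL.c (I.pos (nat_lit 0) (nat_lit 0)) T4.l6
  (TrL.c (I.pos (nat_lit 0) (nat_lit 0)) T2.l7
  (TrL.c (I.pos (nat_lit 0) (nat_lit 0)) T4.l7
  TrL.n)))))))) (by decide +kernel)
theorem bx1_6 : BoxOK sI cl5 cl9 cl6 t4 t2 b1_6 :=
  box_mk (TrL.c (I.pos (nat_lit 0) (nat_lit 0)) T4.l0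
  (TrL.c (I.pos (nat_lit 0) (nat_lit 0)) T2.l4
  (TrL.c (I.pos (nat_lit 0) (nat_lit 0)) T4.l5
  (TrL.c (I.pos (nat_lit 0) (nat_lit 0)) T2.l5
  (TrL.c (I.pos (nat_lit 0) (nat_lit 0)) T2.l6
  (TrL.c (I.pos (nat_lit 0) (nat_lit 0)) T4.l6
  (TrL.c (I.pos (nat_lit 0) (nat_lit 0)) T2.l7
  (TrL.c (I.pos (nat_lit 0) (nat_lit 0)) T4.l7
  TrL.n)))))))) (by decide +kernel)
theorem bx1_7 : BoxOK sI cl5 cl9 cl6 t4 t2 b1_7 :=
  box_mk (TrL.c (I.pos (nat_lit 0) (nat_lit 0)) (xa (xa T4.l0 T4.l0) T4.l0)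
  (TrL.c (I.pos (nat_lit 0) (nat_lit 0)) T2.l4
  (TrL.c (I.pos (nat_lit 0) (nat_lit 0)) T4.l5
  (TrL.c (I.pos (nat_lit 0) (nat_lit 0)) T2.l5
  (TrL.c (I.pos (nat_lit 0) (nat_lit 0)) T2.l6
  (TrL.c (I.pos (nat_lit 0) (nat_lit 0)) T4.l6
  (TrL.c (I.pos (nat_lit 0) (nat_lit 0)) T2.l7
  (TrL.c (I.pos (nat_lit 0) (nat_lit 0)) T4.l7
  TrL.n)))))))) (by decide +kernel)
theorem bx1_8 : BoxOK sI cl5 cl9 cl6 t4 t2 b1_8 :=
  box_mk (TrL.c (I.pos (nat_lit 0) (nat_lit 0)) (xb (xa T4.l0 T4.l0) (xa (xb T4.l0 T4.l0) (xb T4.l0 T4.l0)))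
  (TrL.c (I.pos (nat_lit 0) (nat_lit 0)) (xb T2.l4 T2.l4)
  (TrL.c (I.pos (nat_lit 0) (nat_lit 0)) T4.l5
  (TrL.c (I.pos (nat_lit 0) (nat_lit 0)) T2.l5
  (TrL.c (I.pos (nat_lit 0) (nat_lit 0)) (xb (xa T2.l6 T2.l6) (xa T2.l6 T2.l6))
  (TrL.c (I.pos (nat_lit 0) (nat_lit 0)) T4.l6
  (TrL.c (I.pos (nat_lit 0) (nat_lit 0)) T2.l7
  (TrL.c (I.pos (nat_lit 0) (nat_lit 0)) T4.l7
  TrL.n)))))))) (by decide +kernel)
theorem bx1_9 : BoxOK sI cl5 cl9 cl6 t4 t2 b1_9 :=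
  box_mk (TrL.c (I.pos (nat_lit 0) (nat_lit 0)) (xa (xa (xb T4.l0 T4.l0) T4.l0) T4.l0)
  (TrL.c (I.pos (nat_lit 0) (nat_lit 0)) (xa T2.l4 T2.l4)
  (TrL.c (I.pos (nat_lit 0) (nat_lit 0)) T4.l5
  (TrL.c (I.pos (nat_lit 0) (nat_lit 0)) T2.l5
  (TrL.c (I.pos (nat_lit 0) (nat_lit 0)) (xa T2.l6 T2.l6)
  (TrL.c (I.pos (nat_lit 0) (nat_lit 0)) T4.l6
  (TrL.c (I.pos (nat_lit 0) (nat_lit 0)) T2.l7
  (TrL.c (I.pos (nat_lit 0) (nat_lit 0)) T4.l7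
  TrL.n)))))))) (by decide +kernel)
theorem sv1 : StarV sI cl5 cl9 cl6 t4 t2 t1 :=
  (bt_n (bt_n (bt_n (bt_b bx1_0) (bt_b bx1_1)) (bt_n (bt_b bx1_2) (bt_n (bt_b bx1_3) (bt_b bx1_4)))) (bt_n (bt_n (bt_b bx1_5) (bt_b bx1_6)) (bt_n (bt_b bx1_7) (bt_n (bt_b bx1_8) (bt_b bx1_9)))))
def S1 : StarD := StarD.mk cl5 cl9 cl6 4 2 t1
theorem bx2_0 : BoxOK sI cl6 cl5 cl9 t0 t5 b2_0 :=
  box_mk (TrL.c (I.pos (nat_lit 0) (nat_lit 0)) (xa (xb T0.l0 (xa T0.l0 T0.l0)) (xb (xa T0.l0 T0.l0) (xa T0.l0 T0.l0)))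
  (TrL.c (I.pos (nat_lit 0) (nat_lit 0)) (xa T5.l1 T5.l1)
  (TrL.c (I.pos (nat_lit 0) (nat_lit 89480386)) (xR (xR T0.l1 T0.l1) (xR T0.l1 T0.l1))
  (TrL.c (I.pos (nat_lit 0) (nat_lit 41530880)) T5.l2
  (TrL.c (I.pos (nat_lit 0) (nat_lit 0)) (xa T5.l0 (xb (xa T5.l3 T5.l3) (xa T5.l3 T5.l3)))
  (TrL.c (I.pos (nat_lit 0) (nat_lit 0)) (xa T0.l2 T0.l2)
  (TrL.c (I.mix (nat_lit 41527258) (nat_lit 41530880)) (xR T5.l4 (xR T5.l4 T5.l7))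
  (TrL.c (I.mix (nat_lit 41527258) (nat_lit 4274)) T0.l3
  TrL.n)))))))) (by decide +kernel)
theorem bx2_1 : BoxOK sI cl6 cl5 cl9 t0 t5 b2_1 :=
  box_mk (TrL.c (I.pos (nat_lit 0) (nat_lit 0)) T0.l0
  (TrL.c (I.pos (nat_lit 0) (nat_lit 0)) T5.l1
  (TrL.c (I.pos (nat_lit 0) (nat_lit 89480386)) T0.l1
  (TrL.c (I.pos (nat_lit 0) (nat_lit 41530880)) T5.l2
  (TrL.c (I.pos (nat_lit 0) (nat_lit 0)) T5.l3
  (TrL.c (I.pos (nat_lit 0) (nat_lit 0)) T0.l2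
  (TrL.c (I.mix (nat_lit 41527258) (nat_lit 41530880)) T5.l4
  (TrL.c (I.mix (nat_lit 41527258) (nat_lit 4274)) T0.l3
  TrL.n)))))))) (by decide +kernel)
theorem bx2_2 : BoxOK sI cl6 cl5 cl9 t0 t5 b2_2 :=
  box_mk (TrL.c (I.pos (nat_lit 0) (nat_lit 0)) T0.l0
  (TrL.c (I.pos (nat_lit 0) (nat_lit 0)) T5.l1
  (TrL.c (I.pos (nat_lit 0) (nat_lit 89480386)) (xR T0.l1 T0.l1)
  (TrL.c (I.pos (nat_lit 0) (nat_lit 41530880)) T5.l2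
  (TrL.c (I.pos (nat_lit 0) (nat_lit 0)) T5.l3
  (TrL.c (I.pos (nat_lit 0) (nat_lit 0)) T0.l2
  (TrL.c (I.mix (nat_lit 41527258) (nat_lit 41530880)) T5.l4
  (TrL.c (I.mix (nat_lit 41527258) (nat_lit 4274)) T0.l3
  TrL.n)))))))) (by decide +kernel)
theorem bx2_3 : BoxOK sI cl6 cl5 cl9 t0 t5 b2_3 :=
  box_mk (TrL.c (I.pos (nat_lit 0) (nat_lit 0)) T5.l6
  (TrL.c (I.pos (nat_lit 0) (nat_lit 0)) T0.l1
  (TrL.c (I.mix (nat_lit 41527258) (nat_lit 41530880)) (xR T5.l5 T5.l2)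
  (TrL.c (I.mix (nat_lit 41527258) (nat_lit 4274)) T0.l4
  TrL.n)))) (by decide +kernel)
theorem bx2_4 : BoxOK sI cl6 cl5 cl9 t0 t5 b2_4 :=
  box_mk (TrL.c (I.pos (nat_lit 0) (nat_lit 0)) (xa T0.l0 T0.l0)
  (TrL.c (I.pos (nat_lit 0) (nat_lit 0)) T5.l1
  (TrL.c (I.pos (nat_lit 0) (nat_lit 89480386)) (xR T0.l1 T0.l1)
  (TrL.c (I.pos (nat_lit 0) (nat_lit 41530880)) T5.l2
  (TrL.c (I.pos (nat_lit 0) (nat_lit 0)) T5.l3
  (TrL.c (I.pos (nat_lit 0) (nat_lit 0)) T0.l2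
  (TrL.c (I.mix (nat_lit 41527258) (nat_lit 41530880)) T5.l4
  (TrL.c (I.mix (nat_lit 41527258) (nat_lit 4274)) T0.l3
  TrL.n)))))))) (by decide +kernel)
theorem bx2_5 : BoxOK sI cl6 cl5 cl9 t0 t5 b2_5 :=
  box_mk (TrL.c (I.pos (nat_lit 0) (nat_lit 0)) T5.l6
  (TrL.c (I.pos (nat_lit 0) (nat_lit 0)) T0.l1
  (TrL.c (I.mix (nat_lit 41527258) (nat_lit 41530880)) (xR T5.l5 T5.l5)
  (TrL.c (I.mix (nat_lit 41527258) (nat_lit 4274)) T0.l8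
  TrL.n)))) (by decide +kernel)
theorem bx2_6 : BoxOK sI cl6 cl5 cl9 t0 t5 b2_6 :=
  box_mk (TrL.c (I.pos (nat_lit 0) (nat_lit 0)) (xb (xa T0.l0 T0.l0) (xa T0.l0 T0.l0))
  (TrL.c (I.pos (nat_lit 0) (nat_lit 0)) T5.l1
  (TrL.c (I.pos (nat_lit 0) (nat_lit 89480386)) (xR T0.l1 T0.l1)
  (TrL.c (I.pos (nat_lit 0) (nat_lit 41530880)) T5.l2
  (TrL.c (I.pos (nat_lit 0) (nat_lit 0)) (xb T5.l0 T5.l3)
  (TrL.c (I.pos (nat_lit 0) (nat_lit 0)) T0.l2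
  (TrL.c (I.mix (nat_lit 41527258) (nat_lit 41530880)) (xR T5.l4 T5.l7)
  (TrL.c (I.mix (nat_lit 41527258) (nat_lit 4274)) T0.l3
  TrL.n)))))))) (by decide +kernel)
theorem bx2_7 : BoxOK sI cl6 cl5 cl9 t0 t5 b2_7 :=
  box_mk (TrL.c (I.pos (nat_lit 0) (nat_lit 0)) T0.l0
  (TrL.c (I.pos (nat_lit 0) (nat_lit 0)) T5.l6
  (TrL.c (I.pos (nat_lit 0) (nat_lit 89480386)) (xR T0.l1 T0.l1)
  (TrL.c (I.pos (nat_lit 0) (nat_lit 41530880)) T5.l5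
  (TrL.c (I.pos (nat_lit 0) (nat_lit 0)) T5.l3
  (TrL.c (I.pos (nat_lit 0) (nat_lit 0)) T0.l2
  (TrL.c (I.mix (nat_lit 41527258) (nat_lit 41530880)) (xR T5.l4 T5.l4)
  (TrL.c (I.mix (nat_lit 41527258) (nat_lit 4274)) T0.l8
  TrL.n)))))))) (by decide +kernel)
theorem sv2 : StarV sI cl6 cl5 cl9 t0 t5 t2 :=
  (bt_n (bt_n (bt_n (bt_b bx2_0) (bt_b bx2_1)) (bt_n (bt_b bx2_2) (bt_b bx2_3))) (bt_n (bt_n (bt_b bx2_4) (bt_b bx2_5)) (bt_n (bt_b bx2_6) (bt_b bx2_7))))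
def S2 : StarD := StarD.mk cl6 cl5 cl9 0 5 t2
theorem bx3_0 : BoxOK sI cl6 cl9 cl5 t5 t0 b3_0 :=
  box_mk (TrL.c (I.pos (nat_lit 0) (nat_lit 0)) (xa (xa (xb T5.l0 T5.l0) (xb T5.l0 T5.l0)) (xa (xb T5.l0 T5.l0) (xb T5.l3 T5.l0)))
  (TrL.c (I.pos (nat_lit 0) (nat_lit 0)) (xa T0.l6 (xb T0.l6 T0.l6))
  (TrL.c (I.pos (nat_lit 0) (nat_lit 89480386)) (xR (xR T5.l7 T5.l7) (xR T5.l7 T5.l7))
  (TrL.c (I.pos (nat_lit 0) (nat_lit 41530880)) (xR T0.l7 T0.l7)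
  (TrL.c (I.pos (nat_lit 0) (nat_lit 0)) (xa T0.l9 (xb (xa T0.l9 T0.l9) (xa T0.l9 T0.l9)))
  (TrL.c (I.pos (nat_lit 0) (nat_lit 0)) (xa T5.l8 T5.l8)
  (TrL.c (I.mix (nat_lit 41527258) (nat_lit 41530880)) (xR (xR T0.l8 T0.l8) (xR T0.l8 T0.l8))
  (TrL.c (I.mix (nat_lit 41527258) (nat_lit 4274)) T5.l9
  TrL.n)))))))) (by decide +kernel)
theorem bx3_1 : BoxOK sI cl6 cl9 cl5 t5 t0 b3_1 :=
  box_mk (TrL.c (I.pos (nat_lit 0) (nat_lit 0)) T5.l0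
  (TrL.c (I.pos (nat_lit 0) (nat_lit 0)) T0.l6
  (TrL.c (I.pos (nat_lit 0) (nat_lit 89480386)) (xR T5.l7 T5.l7)
  (TrL.c (I.pos (nat_lit 0) (nat_lit 41530880)) T0.l7
  (TrL.c (I.pos (nat_lit 0) (nat_lit 0)) T0.l9
  (TrL.c (I.pos (nat_lit 0) (nat_lit 0)) T5.l8
  (TrL.c (I.mix (nat_lit 41527258) (nat_lit 41530880)) T0.l8
  (TrL.c (I.mix (nat_lit 41527258) (nat_lit 4274)) T5.l9
  TrL.n)))))))) (by decide +kernel)
theorem bx3_2 : BoxOK sI cl6 cl9 cl5 t5 t0 b3_2 :=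
  box_mk (TrL.c (I.pos (nat_lit 0) (nat_lit 0)) (xa T5.l0 T5.l0)
  (TrL.c (I.pos (nat_lit 0) (nat_lit 0)) T0.l6
  (TrL.c (I.pos (nat_lit 0) (nat_lit 89480386)) (xR T5.l7 T5.l7)
  (TrL.c (I.pos (nat_lit 0) (nat_lit 41530880)) T0.l7
  (TrL.c (I.pos (nat_lit 0) (nat_lit 0)) T0.l9
  (TrL.c (I.pos (nat_lit 0) (nat_lit 0)) T5.l8
  (TrL.c (I.mix (nat_lit 41527258) (nat_lit 41530880)) (xR T0.l8 T0.l8)
  (TrL.c (I.mix (nat_lit 41527258) (nat_lit 4274)) T5.l9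
  TrL.n)))))))) (by decide +kernel)
theorem bx3_3 : BoxOK sI cl6 cl9 cl5 t5 t0 b3_3 :=
  box_mk (TrL.c (I.pos (nat_lit 0) (nat_lit 0)) (xb T5.l0 (xa T5.l0 T5.l0))
  (TrL.c (I.pos (nat_lit 0) (nat_lit 0)) T0.l6
  (TrL.c (I.pos (nat_lit 0) (nat_lit 89480386)) (xR T5.l7 (xR T5.l7 T5.l7))
  (TrL.c (I.pos (nat_lit 0) (nat_lit 41530880)) T0.l7
  (TrL.c (I.pos (nat_lit 0) (nat_lit 0)) (xb T0.l9 T0.l9)
  (TrL.c (I.pos (nat_lit 0) (nat_lit 0)) T5.l8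
  (TrL.c (I.mix (nat_lit 41527258) (nat_lit 41530880)) (xR T0.l8 T0.l8)
  (TrL.c (I.mix (nat_lit 41527258) (nat_lit 4274)) T5.l9
  TrL.n)))))))) (by decide +kernel)
theorem bx3_4 : BoxOK sI cl6 cl9 cl5 t5 t0 b3_4 :=
  box_mk (TrL.c (I.pos (nat_lit 0) (nat_lit 0)) (xa (xa (xb T5.l0 T5.l0) T5.l0) T5.l0)
  (TrL.c (I.pos (nat_lit 0) (nat_lit 0)) (xa T0.l6 T0.l6)
  (TrL.c (I.pos (nat_lit 0) (nat_lit 89480386)) (xR T5.l7 (xR T5.l7 T5.l7))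
  (TrL.c (I.pos (nat_lit 0) (nat_lit 41530880)) T0.l7
  (TrL.c (I.pos (nat_lit 0) (nat_lit 0)) (xa T0.l9 T0.l9)
  (TrL.c (I.pos (nat_lit 0) (nat_lit 0)) T5.l8
  (TrL.c (I.mix (nat_lit 41527258) (nat_lit 41530880)) (xR T0.l8 T0.l8)
  (TrL.c (I.mix (nat_lit 41527258) (nat_lit 4274)) T5.l9
  TrL.n)))))))) (by decide +kernel)
theorem bx3_5 : BoxOK sI cl6 cl9 cl5 t5 t0 b3_5 :=
  box_mk (TrL.c (I.pos (nat_lit 0) (nat_lit 0)) T5.l0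
  (TrL.c (I.pos (nat_lit 0) (nat_lit 0)) T0.l6
  (TrL.c (I.pos (nat_lit 0) (nat_lit 89480386)) (xR T5.l7 T5.l7)
  (TrL.c (I.pos (nat_lit 0) (nat_lit 41530880)) T0.l7
  (TrL.c (I.pos (nat_lit 0) (nat_lit 0)) T0.l9
  (TrL.c (I.pos (nat_lit 0) (nat_lit 0)) T5.l8
  (TrL.c (I.mix (nat_lit 41527258) (nat_lit 41530880)) T0.l8
  (TrL.c (I.mix (nat_lit 41527258) (nat_lit 4274)) T5.l9
  TrL.n)))))))) (by decide +kernel)
theorem bx3_6 : BoxOK sI cl6 cl9 cl5 t5 t0 b3_6 :=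
  box_mk (TrL.c (I.pos (nat_lit 0) (nat_lit 0)) T5.l0
  (TrL.c (I.pos (nat_lit 0) (nat_lit 0)) T0.l6
  (TrL.c (I.pos (nat_lit 0) (nat_lit 89480386)) T5.l7
  (TrL.c (I.pos (nat_lit 0) (nat_lit 41530880)) T0.l7
  (TrL.c (I.pos (nat_lit 0) (nat_lit 0)) T0.l9
  (TrL.c (I.pos (nat_lit 0) (nat_lit 0)) T5.l8
  (TrL.c (I.mix (nat_lit 41527258) (nat_lit 41530880)) T0.l8
  (TrL.c (I.mix (nat_lit 41527258) (nat_lit 4274)) T5.l9
  TrL.n)))))))) (by decide +kernel)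
theorem bx3_7 : BoxOK sI cl6 cl9 cl5 t5 t0 b3_7 :=
  box_mk (TrL.c (I.pos (nat_lit 0) (nat_lit 0)) (xa T5.l0 T5.l0)
  (TrL.c (I.pos (nat_lit 0) (nat_lit 0)) (xa T0.l6 T0.l6)
  (TrL.c (I.pos (nat_lit 0) (nat_lit 89480386)) (xR T5.l7 T5.l7)
  (TrL.c (I.pos (nat_lit 0) (nat_lit 41530880)) T0.l7
  (TrL.c (I.pos (nat_lit 0) (nat_lit 0)) T0.l9
  (TrL.c (I.pos (nat_lit 0) (nat_lit 0)) T5.l8
  (TrL.c (I.mix (nat_lit 41527258) (nat_lit 41530880)) (xR T0.l8 T0.l8)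
  (TrL.c (I.mix (nat_lit 41527258) (nat_lit 4274)) T5.l9
  TrL.n)))))))) (by decide +kernel)
theorem bx3_8 : BoxOK sI cl6 cl9 cl5 t5 t0 b3_8 :=
  box_mk (TrL.c (I.pos (nat_lit 0) (nat_lit 0)) T5.l0
  (TrL.c (I.pos (nat_lit 0) (nat_lit 0)) T0.l6
  (TrL.c (I.pos (nat_lit 0) (nat_lit 89480386)) (xR T5.l7 T5.l7)
  (TrL.c (I.pos (nat_lit 0) (nat_lit 41530880)) T0.l7
  (TrL.c (I.pos (nat_lit 0) (nat_lit 0)) T0.l9
  (TrL.c (I.pos (nat_lit 0) (nat_lit 0)) T5.l8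
  (TrL.c (I.mix (nat_lit 41527258) (nat_lit 41530880)) T0.l8
  (TrL.c (I.mix (nat_lit 41527258) (nat_lit 4274)) T5.l9
  TrL.n)))))))) (by decide +kernel)
theorem bx3_9 : BoxOK sI cl6 cl9 cl5 t5 t0 b3_9 :=
  box_mk (TrL.c (I.pos (nat_lit 0) (nat_lit 0)) (xa (xa T5.l0 T5.l0) T5.l0)
  (TrL.c (I.pos (nat_lit 0) (nat_lit 0)) T0.l6
  (TrL.c (I.pos (nat_lit 0) (nat_lit 89480386)) T5.l7
  (TrL.c (I.pos (nat_lit 0) (nat_lit 41530880)) T0.l7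
  (TrL.c (I.pos (nat_lit 0) (nat_lit 0)) T0.l9
  (TrL.c (I.pos (nat_lit 0) (nat_lit 0)) T5.l8
  (TrL.c (I.mix (nat_lit 41527258) (nat_lit 41530880)) (xR T0.l8 T0.l8)
  (TrL.c (I.mix (nat_lit 41527258) (nat_lit 4274)) T5.l9
  TrL.n)))))))) (by decide +kernel)
theorem sv3 : StarV sI cl6 cl9 cl5 t5 t0 t3 :=
  (bt_n (bt_n (bt_n (bt_b bx3_0) (bt_b bx3_1)) (bt_n (bt_b bx3_2) (bt_n (bt_b bx3_3) (bt_b bx3_4)))) (bt_n (bt_n (bt_b bx3_5) (bt_b bx3_6)) (bt_n (bt_b bx3_7) (bt_n (bt_b bx3_8) (bt_b bx3_9)))))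
def S3 : StarD := StarD.mk cl6 cl9 cl5 5 0 t3
theorem bx4_0 : BoxOK sI cl9 cl5 cl6 t1 t3 b4_0 :=
  box_mk (TrL.c (I.pos (nat_lit 0) (nat_lit 0)) (xa (xa (xb T1.l0 T1.l0) T1.l0) (xa T1.l0 T1.l0))
  (TrL.c (I.pos (nat_lit 0) (nat_lit 0)) (xa (xb T3.l1 T3.l1) (xk T3.l1 T3.l1))
  (TrL.c (I.pos (nat_lit 0) (nat_lit 124588530)) (xR (xR T1.l9 T1.l1) (xR T1.l1 T1.l1))
  (TrL.c (I.pos (nat_lit 0) (nat_lit 96881482)) (xR T3.l2 (xR T3.l2 T3.l2))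
  (TrL.c (I.pos (nat_lit 0) (nat_lit 0)) (xa (xb (xa T3.l3 T3.l3) T3.l3) (xb (xk (xa T3.l3 (xb T3.l3 T3.l3)) (xa T3.l3 T3.l3)) (xa (xk T3.l3 (xb T3.l3 T3.l3)) (xk (xb T3.l3 (xa T3.l3 (xs T3.l3 (xk T3.l3 T3.l3)))) (xb T3.l3 (xs (xa T3.l3 (xk T3.l3 T3.l3)) (xa T3.l3 (xk (xb T3.l3 T3.l3) (xb T3.l3 T3.l3)))))))))
  (TrL.c (I.pos (nat_lit 0) (nat_lit 0)) (xa T1.l2 T1.l2)
  (TrL.c (I.mix (nat_lit 17240550) (nat_lit 96881482)) (xR T3.l4 (xR T3.l4 T3.l4))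
  (TrL.c (I.mix (nat_lit 17240550) (nat_lit 71940500)) (xR T1.l3 T1.l3)
  TrL.n)))))))) (by decide +kernel)
theorem bx4_1 : BoxOK sI cl9 cl5 cl6 t1 t3 b4_1 :=
  box_mk (TrL.c (I.pos (nat_lit 0) (nat_lit 0)) T1.l0
  (TrL.c (I.pos (nat_lit 0) (nat_lit 0)) T3.l1
  (TrL.c (I.pos (nat_lit 0) (nat_lit 124588530)) (xR (xR T1.l1 T1.l1) T1.l1)
  (TrL.c (I.pos (nat_lit 0) (nat_lit 96881482)) (xR T3.l2 T3.l2)
  (TrL.c (I.pos (nat_lit 0) (nat_lit 0)) T3.l3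
  (TrL.c (I.pos (nat_lit 0) (nat_lit 0)) T1.l2
  (TrL.c (I.mix (nat_lit 17240550) (nat_lit 96881482)) (xR T3.l4 T3.l4)
  (TrL.c (I.mix (nat_lit 17240550) (nat_lit 71940500)) T1.l3
  TrL.n)))))))) (by decide +kernel)
theorem bx4_2 : BoxOK sI cl9 cl5 cl6 t1 t3 b4_2 :=
  box_mk (TrL.c (I.pos (nat_lit 0) (nat_lit 0)) T3.l1
  (TrL.c (I.pos (nat_lit 0) (nat_lit 0)) T1.l1
  (TrL.c (I.mix (nat_lit 17240550) (nat_lit 96881482)) (xR T3.l9 T3.l6)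
  (TrL.c (I.mix (nat_lit 17240550) (nat_lit 71940500)) T1.l9
  TrL.n)))) (by decide +kernel)
theorem bx4_3 : BoxOK sI cl9 cl5 cl6 t1 t3 b4_3 :=
  box_mk (TrL.c (I.pos (nat_lit 0) (nat_lit 0)) (xb T1.l0 (xa T1.l0 T1.l0))
  (TrL.c (I.pos (nat_lit 0) (nat_lit 0)) (xb T3.l1 T3.l1)
  (TrL.c (I.pos (nat_lit 0) (nat_lit 124588530)) (xR (xR T1.l1 T1.l1) (xR T1.l1 T1.l9))
  (TrL.c (I.pos (nat_lit 0) (nat_lit 96881482)) (xR T3.l2 (xR T3.l2 T3.l2))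
  (TrL.c (I.pos (nat_lit 0) (nat_lit 0)) (xb (xa T3.l3 T3.l3) T3.l3)
  (TrL.c (I.pos (nat_lit 0) (nat_lit 0)) T1.l2
  (TrL.c (I.mix (nat_lit 17240550) (nat_lit 96881482)) (xR T3.l4 T3.l4)
  (TrL.c (I.mix (nat_lit 17240550) (nat_lit 71940500)) T1.l3
  TrL.n)))))))) (by decide +kernel)
theorem bx4_4 : BoxOK sI cl9 cl5 cl6 t1 t3 b4_4 :=
  box_mk (TrL.c (I.pos (nat_lit 0) (nat_lit 0)) T1.l0
  (TrL.c (I.pos (nat_lit 0) (nat_lit 0)) T3.l1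
  (TrL.c (I.pos (nat_lit 0) (nat_lit 124588530)) (xR T1.l1 (xR T1.l1 T1.l1))
  (TrL.c (I.pos (nat_lit 0) (nat_lit 96881482)) (xR T3.l2 T3.l2)
  (TrL.c (I.pos (nat_lit 0) (nat_lit 0)) T3.l3
  (TrL.c (I.pos (nat_lit 0) (nat_lit 0)) T1.l2
  (TrL.c (I.mix (nat_lit 17240550) (nat_lit 96881482)) (xR T3.l4 T3.l4)
  (TrL.c (I.mix (nat_lit 17240550) (nat_lit 71940500)) T1.l9
  TrL.n)))))))) (by decide +kernel)
theorem bx4_5 : BoxOK sI cl9 cl5 cl6 t1 t3 b4_5 :=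
  box_mk (TrL.c (I.pos (nat_lit 0) (nat_lit 0)) T1.l0
  (TrL.c (I.pos (nat_lit 0) (nat_lit 0)) T3.l1
  (TrL.c (I.pos (nat_lit 0) (nat_lit 124588530)) (xR T1.l1 T1.l1)
  (TrL.c (I.pos (nat_lit 0) (nat_lit 96881482)) T3.l2
  (TrL.c (I.pos (nat_lit 0) (nat_lit 0)) T3.l3
  (TrL.c (I.pos (nat_lit 0) (nat_lit 0)) T1.l2
  (TrL.c (I.mix (nat_lit 17240550) (nat_lit 96881482)) (xR T3.l4 T3.l4)
  (TrL.c (I.mix (nat_lit 17240550) (nat_lit 71940500)) T1.l9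
  TrL.n)))))))) (by decide +kernel)
theorem bx4_6 : BoxOK sI cl9 cl5 cl6 t1 t3 b4_6 :=
  box_mk (TrL.c (I.pos (nat_lit 0) (nat_lit 0)) T1.l0
  (TrL.c (I.pos (nat_lit 0) (nat_lit 0)) T3.l1
  (TrL.c (I.pos (nat_lit 0) (nat_lit 124588530)) (xR T1.l1 T1.l1)
  (TrL.c (I.pos (nat_lit 0) (nat_lit 96881482)) (xR T3.l2 T3.l2)
  (TrL.c (I.pos (nat_lit 0) (nat_lit 0)) T3.l3
  (TrL.c (I.pos (nat_lit 0) (nat_lit 0)) T1.l2
  (TrL.c (I.mix (nat_lit 17240550) (nat_lit 96881482)) (xR T3.l4 T3.l4)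
  (TrL.c (I.mix (nat_lit 17240550) (nat_lit 71940500)) T1.l9
  TrL.n)))))))) (by decide +kernel)
theorem bx4_7 : BoxOK sI cl9 cl5 cl6 t1 t3 b4_7 :=
  box_mk (TrL.c (I.pos (nat_lit 0) (nat_lit 0)) T3.l1
  (TrL.c (I.pos (nat_lit 0) (nat_lit 0)) T1.l1
  (TrL.c (I.mix (nat_lit 17240550) (nat_lit 96881482)) (xR T3.l6 T3.l2)
  (TrL.c (I.mix (nat_lit 17240550) (nat_lit 71940500)) (xR T1.l9 T1.l1)
  TrL.n)))) (by decide +kernel)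
theorem sv4 : StarV sI cl9 cl5 cl6 t1 t3 t4 :=
  (bt_n (bt_n (bt_n (bt_b bx4_0) (bt_b bx4_1)) (bt_n (bt_b bx4_2) (bt_b bx4_3))) (bt_n (bt_n (bt_b bx4_4) (bt_b bx4_5)) (bt_n (bt_b bx4_6) (bt_b bx4_7))))
def S4 : StarD := StarD.mk cl9 cl5 cl6 1 3 t4
theorem bx5_0 : BoxOK sI cl9 cl6 cl5 t3 t1 b5_0 :=
  box_mk (TrL.c (I.pos (nat_lit 0) (nat_lit 0)) (xa (xa (xb T3.l0 T3.l0) T3.l0) (xa (xb T3.l0 T3.l0) (xb T3.l0 T3.l0)))
  (TrL.c (I.pos (nat_lit 0) (nat_lit 0)) (xa (xb T1.l6 T1.l6) (xa T1.l6 (xk T1.l6 T1.l6)))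
  (TrL.c (I.pos (nat_lit 0) (nat_lit 124588530)) (xR (xR T3.l7 T3.l7) (xR T3.l7 T3.l7))
  (TrL.c (I.pos (nat_lit 0) (nat_lit 96881482)) (xR T1.l7 (xR T1.l7 T1.l7))
  (TrL.c (I.pos (nat_lit 0) (nat_lit 0)) (xa (xb (xa T1.l8 T1.l8) T1.l8) (xb (xa (xk T1.l8 T1.l8) (xk T1.l8 T1.l8)) (xk (xa T1.l8 (xa (xb T1.l8 T1.l8) (xb T1.l8 (xs T1.l8 (xk T1.l8 T1.l8))))) (xa T1.l8 (xa (xb T1.l8 (xs T1.l8 T1.l8)) (xb T1.l8 (xs T1.l8 (xk T1.l8 (xb T1.l8 T1.l8)))))))))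
  (TrL.c (I.pos (nat_lit 0) (nat_lit 0)) (xa T3.l8 T3.l8)
  (TrL.c (I.mix (nat_lit 17240550) (nat_lit 96881482)) (xR T1.l9 (xR T1.l9 T1.l9))
  (TrL.c (I.mix (nat_lit 17240550) (nat_lit 71940500)) (xR T3.l9 T3.l9)
  TrL.n)))))))) (by decide +kernel)
theorem bx5_1 : BoxOK sI cl9 cl6 cl5 t3 t1 b5_1 :=
  box_mk (TrL.c (I.pos (nat_lit 0) (nat_lit 0)) T3.l0
  (TrL.c (I.pos (nat_lit 0) (nat_lit 0)) T1.l6
  (TrL.c (I.pos (nat_lit 0) (nat_lit 124588530)) (xR (xR T3.l7 T3.l7) T3.l7)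
  (TrL.c (I.pos (nat_lit 0) (nat_lit 96881482)) (xR T1.l7 T1.l7)
  (TrL.c (I.pos (nat_lit 0) (nat_lit 0)) T1.l8
  (TrL.c (I.pos (nat_lit 0) (nat_lit 0)) T3.l8
  (TrL.c (I.mix (nat_lit 17240550) (nat_lit 96881482)) (xR T1.l9 T1.l9)
  (TrL.c (I.mix (nat_lit 17240550) (nat_lit 71940500)) T3.l9
  TrL.n)))))))) (by decide +kernel)
theorem bx5_2 : BoxOK sI cl9 cl6 cl5 t3 t1 b5_2 :=
  box_mk (TrL.c (I.pos (nat_lit 0) (nat_lit 0)) T3.l0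
  (TrL.c (I.pos (nat_lit 0) (nat_lit 0)) T1.l6
  (TrL.c (I.pos (nat_lit 0) (nat_lit 124588530)) T3.l7
  (TrL.c (I.pos (nat_lit 0) (nat_lit 96881482)) T1.l9
  (TrL.c (I.pos (nat_lit 0) (nat_lit 0)) T1.l6
  (TrL.c (I.pos (nat_lit 0) (nat_lit 0)) T3.l7
  (TrL.c (I.mix (nat_lit 17240550) (nat_lit 96881482)) (xR T1.l9 T1.l7)
  (TrL.c (I.mix (nat_lit 17240550) (nat_lit 71940500)) (xR T3.l9 T3.l4)
  TrL.n)))))))) (by decide +kernel)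
theorem bx5_3 : BoxOK sI cl9 cl6 cl5 t3 t1 b5_3 :=
  box_mk (TrL.c (I.pos (nat_lit 0) (nat_lit 0)) (xb T3.l0 (xa T3.l0 T3.l0))
  (TrL.c (I.pos (nat_lit 0) (nat_lit 0)) (xb T1.l6 T1.l6)
  (TrL.c (I.pos (nat_lit 0) (nat_lit 124588530)) (xR (xR T3.l7 T3.l7) (xR T3.l7 T3.l7))
  (TrL.c (I.pos (nat_lit 0) (nat_lit 96881482)) (xR T1.l7 (xR T1.l7 T1.l7))
  (TrL.c (I.pos (nat_lit 0) (nat_lit 0)) (xb (xk T1.l8 T1.l8) T1.l8)
  (TrL.c (I.pos (nat_lit 0) (nat_lit 0)) T3.l8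
  (TrL.c (I.mix (nat_lit 17240550) (nat_lit 96881482)) (xR T1.l9 T1.l9)
  (TrL.c (I.mix (nat_lit 17240550) (nat_lit 71940500)) (xR T3.l9 T3.l9)
  TrL.n)))))))) (by decide +kernel)
theorem bx5_4 : BoxOK sI cl9 cl6 cl5 t3 t1 b5_4 :=
  box_mk (TrL.c (I.pos (nat_lit 0) (nat_lit 0)) (xa (xa T3.l0 T3.l0) T3.l0)
  (TrL.c (I.pos (nat_lit 0) (nat_lit 0)) T1.l6
  (TrL.c (I.pos (nat_lit 0) (nat_lit 124588530)) (xR T3.l7 (xR T3.l7 T3.l7))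
  (TrL.c (I.pos (nat_lit 0) (nat_lit 96881482)) (xR T1.l7 T1.l7)
  (TrL.c (I.pos (nat_lit 0) (nat_lit 0)) T1.l8
  (TrL.c (I.pos (nat_lit 0) (nat_lit 0)) T3.l8
  (TrL.c (I.mix (nat_lit 17240550) (nat_lit 96881482)) (xR T1.l9 T1.l9)
  (TrL.c (I.mix (nat_lit 17240550) (nat_lit 71940500)) (xR T3.l9 T3.l9)
  TrL.n)))))))) (by decide +kernel)
theorem bx5_5 : BoxOK sI cl9 cl6 cl5 t3 t1 b5_5 :=
  box_mk (TrL.c (I.pos (nat_lit 0) (nat_lit 0)) T3.l0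
  (TrL.c (I.pos (nat_lit 0) (nat_lit 0)) T1.l6
  (TrL.c (I.pos (nat_lit 0) (nat_lit 124588530)) T3.l7
  (TrL.c (I.pos (nat_lit 0) (nat_lit 96881482)) T1.l9
  (TrL.c (I.pos (nat_lit 0) (nat_lit 0)) T1.l8
  (TrL.c (I.pos (nat_lit 0) (nat_lit 0)) T3.l8
  (TrL.c (I.mix (nat_lit 17240550) (nat_lit 96881482)) (xR T1.l9 T1.l9)
  (TrL.c (I.mix (nat_lit 17240550) (nat_lit 71940500)) (xR T3.l9 T3.l4)
  TrL.n)))))))) (by decide +kernel)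
theorem bx5_6 : BoxOK sI cl9 cl6 cl5 t3 t1 b5_6 :=
  box_mk (TrL.c (I.pos (nat_lit 0) (nat_lit 0)) T3.l0
  (TrL.c (I.pos (nat_lit 0) (nat_lit 0)) T1.l6
  (TrL.c (I.pos (nat_lit 0) (nat_lit 124588530)) (xR (xR T3.l7 T3.l7) T3.l7)
  (TrL.c (I.pos (nat_lit 0) (nat_lit 96881482)) (xR T1.l7 T1.l7)
  (TrL.c (I.pos (nat_lit 0) (nat_lit 0)) T1.l8
  (TrL.c (I.pos (nat_lit 0) (nat_lit 0)) T3.l8
  (TrL.c (I.mix (nat_lit 17240550) (nat_lit 96881482)) T1.l9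
  (TrL.c (I.mix (nat_lit 17240550) (nat_lit 71940500)) T3.l9
  TrL.n)))))))) (by decide +kernel)
theorem bx5_7 : BoxOK sI cl9 cl6 cl5 t3 t1 b5_7 :=
  box_mk (TrL.c (I.pos (nat_lit 0) (nat_lit 0)) (xa T3.l0 T3.l0)
  (TrL.c (I.pos (nat_lit 0) (nat_lit 0)) T1.l6
  (TrL.c (I.pos (nat_lit 0) (nat_lit 124588530)) (xR T3.l7 T3.l7)
  (TrL.c (I.pos (nat_lit 0) (nat_lit 96881482)) (xR T1.l7 T1.l7)
  (TrL.c (I.pos (nat_lit 0) (nat_lit 0)) T1.l8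
  (TrL.c (I.pos (nat_lit 0) (nat_lit 0)) T3.l8
  (TrL.c (I.mix (nat_lit 17240550) (nat_lit 96881482)) (xR T1.l9 T1.l9)
  (TrL.c (I.mix (nat_lit 17240550) (nat_lit 71940500)) (xR T3.l9 T3.l9)
  TrL.n)))))))) (by decide +kernel)
theorem bx5_8 : BoxOK sI cl9 cl6 cl5 t3 t1 b5_8 :=
  box_mk (TrL.c (I.pos (nat_lit 0) (nat_lit 0)) T3.l0
  (TrL.c (I.pos (nat_lit 0) (nat_lit 0)) T1.l6
  (TrL.c (I.pos (nat_lit 0) (nat_lit 124588530)) (xR T3.l7 T3.l7)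
  (TrL.c (I.pos (nat_lit 0) (nat_lit 96881482)) (xR T1.l7 T1.l7)
  (TrL.c (I.pos (nat_lit 0) (nat_lit 0)) T1.l8
  (TrL.c (I.pos (nat_lit 0) (nat_lit 0)) T3.l8
  (TrL.c (I.mix (nat_lit 17240550) (nat_lit 96881482)) T1.l9
  (TrL.c (I.mix (nat_lit 17240550) (nat_lit 71940500)) T3.l9
  TrL.n)))))))) (by decide +kernel)
theorem bx5_9 : BoxOK sI cl9 cl6 cl5 t3 t1 b5_9 :=
  box_mk (TrL.c (I.pos (nat_lit 0) (nat_lit 0)) (xa T3.l0 T3.l0)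
  (TrL.c (I.pos (nat_lit 0) (nat_lit 0)) T1.l8
  (TrL.c (I.pos (nat_lit 0) (nat_lit 124588530)) (xR T3.l7 (xR T3.l7 T3.l7))
  (TrL.c (I.pos (nat_lit 0) (nat_lit 96881482)) T1.l9
  (TrL.c (I.pos (nat_lit 0) (nat_lit 0)) T1.l6
  (TrL.c (I.pos (nat_lit 0) (nat_lit 0)) T3.l7
  (TrL.c (I.mix (nat_lit 17240550) (nat_lit 96881482)) (xR T1.l9 T1.l7)
  (TrL.c (I.mix (nat_lit 17240550) (nat_lit 71940500)) (xR T3.l9 T3.l4)
  TrL.n)))))))) (by decide +kernel)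
theorem sv5 : StarV sI cl9 cl6 cl5 t3 t1 t5 :=
  (bt_n (bt_n (bt_n (bt_b bx5_0) (bt_b bx5_1)) (bt_n (bt_b bx5_2) (bt_n (bt_b bx5_3) (bt_b bx5_4)))) (bt_n (bt_n (bt_b bx5_5) (bt_b bx5_6)) (bt_n (bt_b bx5_7) (bt_n (bt_b bx5_8) (bt_b bx5_9)))))
def S5 : StarD := StarD.mk cl9 cl6 cl5 3 1 t5
def G : List StarD := [S0, S1, S2, S3, S4, S5]
theorem so0 : StarOK sI G S0 :=
  star_mk (by decide) (by decide) rfl rfl rfl rfl rfl rfl (rfl : _ = t2) (rfl : _ = t4)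
  (st_mk (Pth.l (Pth.l (Pth.l Pth.z))) (nat_lit 190325768) (nat_lit 191235482) (by decide +kernel))
  (st_mk (Pth.l (Pth.l (Pth.l Pth.z))) (nat_lit 227004320) (nat_lit 228308491) (by decide +kernel))
  (st_mk (Pth.l (Pth.l (Pth.l Pth.z))) (nat_lit 269740994) (nat_lit 271602271) (by decide +kernel)) sv0
theorem so1 : StarOK sI G S1 :=
  star_mk (by decide) (by decide) rfl rfl rfl rfl rfl rfl (rfl : _ = t4) (rfl : _ = t2)
  (st_mk (Pth.l (Pth.l (Pth.l Pth.z))) (nat_lit 117151869) (nat_lit 136098120) (by decide +kernel))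
  (st_mk (Pth.l (Pth.l (Pth.l Pth.z))) (nat_lit 153515804) (nat_lit 172890051) (by decide +kernel))
  (st_mk (Pth.l (Pth.l (Pth.l Pth.z))) (nat_lit 195991335) (nat_lit 215949832) (by decide +kernel)) sv1
theorem so2 : StarOK sI G S2 :=
  star_mk (by decide) (by decide) rfl rfl rfl rfl rfl rfl (rfl : _ = t0) (rfl : _ = t5)
  (st_mk (Pth.l (Pth.l (Pth.l Pth.z))) (nat_lit 242656974) (nat_lit 243581412) (by decide +kernel))
  (st_mk (Pth.l (Pth.l (Pth.l Pth.z))) (nat_lit 278944978) (nat_lit 280171363) (by decide +kernel))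
  (st_mk (Pth.l (Pth.l (Pth.l Pth.z))) (nat_lit 321068231) (nat_lit 322702308) (by decide +kernel)) sv2
theorem so3 : StarOK sI G S3 :=
  star_mk (by decide) (by decide) rfl rfl rfl rfl rfl rfl (rfl : _ = t5) (rfl : _ = t0)
  (st_mk (Pth.l (Pth.l (Pth.l Pth.z))) (nat_lit 116570739) (nat_lit 135231169) (by decide +kernel))
  (st_mk (Pth.l (Pth.l (Pth.l Pth.z))) (nat_lit 152513147) (nat_lit 171474445) (by decide +kernel))
  (st_mk (Pth.l (Pth.l (Pth.l Pth.z))) (nat_lit 194345348) (nat_lit 213712904) (by decide +kernel)) sv3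
theorem so4 : StarOK sI G S4 :=
  star_mk (by decide) (by decide) rfl rfl rfl rfl rfl rfl (rfl : _ = t1) (rfl : _ = t3)
  (st_mk (Pth.l (Pth.l (Pth.l Pth.z))) (nat_lit 239217946) (nat_lit 241044853) (by decide +kernel))
  (st_mk (Pth.l (Pth.l (Pth.l Pth.z))) (nat_lit 274479794) (nat_lit 276718106) (by decide +kernel))
  (st_mk (Pth.l (Pth.l (Pth.l Pth.z))) (nat_lit 315229584) (nat_lit 318016330) (by decide +kernel)) sv4
theorem so5 : StarOK sI G S5 :=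
  star_mk (by decide) (by decide) rfl rfl rfl rfl rfl rfl (rfl : _ = t3) (rfl : _ = t1)
  (st_mk (Pth.l (Pth.l (Pth.l Pth.z))) (nat_lit 186651353) (nat_lit 188092813) (by decide +kernel))
  (st_mk (Pth.l (Pth.l (Pth.l Pth.z))) (nat_lit 221881382) (nat_lit 223698703) (by decide +kernel))
  (st_mk (Pth.l (Pth.l (Pth.l Pth.z))) (nat_lit 262603657) (nat_lit 264939051) (by decide +kernel)) sv5
theorem ok : GroupOK (nat_lit 91226112) (nat_lit 150339584) G := grp_mk (allS_c so0 (allS_c so1 (allS_c so2 (allS_c so3 (allS_c so4 (allS_c so5 allS_n))))))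
theorem cov : GCov G cl5 cl6 cl9 := cov_mk
  ⟨0, by decide, rfl, rfl, rfl⟩ ⟨1, by decide, rfl, rfl, rfl⟩ ⟨2, by decide, rfl, rfl, rfl⟩ ⟨3, by decide, rfl, rfl, rfl⟩ ⟨4, by decide, rfl, rfl, rfl⟩ ⟨5, by decide, rfl, rfl, rfl⟩
end Q235_1


end Pool.Agent.Helper6.MONO
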