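import Pool.Agent.Helper6.MONO.Cert.C11

/-!
Certificate data (generated).
-/

set_option autoImplicit false
set_option linter.all false
noncomputable section
namespace Pool.Agent.Helper6.MONO


namespace Q235_2
def sI : I := I.pos (nat_lit 150274048) (nat_lit 209387520)
def b0_0 : Bx := Bx.mk (St.mk (I.pos (nat_lit 148094976) (nat_lit 236781568)) (I.mix (nat_lit 4358144) (nat_lit 72302592)) (I.mix (nat_lit 5111808) (nat_lit 85606400)) (I.pos (nat_lit 183697408) (nat_lit 306413568)) (I.mix (nat_lit 133873664) (nat_lit 86392832)) (I.mix (nat_lit 82722816) (nat_lit 76972032)) (I.mix (nat_lit 115703808) (nat_lit 111001600)))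
  false (nat_lit 66251667)
def b0_1 : Bx := Bx.mk (St.mk (I.mix (nat_lit 34373632) (nat_lit 100810752)) (I.mix (nat_lit 4718592) (nat_lit 39583744)) (I.mix (nat_lit 22937600) (nat_lit 6635520)) (I.pos (nat_lit 80003072) (nat_lit 125419520)) (I.mix (nat_lit 35373056) (nat_lit 51200000)) (I.mix (nat_lit 38715392) (nat_lit 32161792)) (I.mix (nat_lit 25690112) (nat_lit 16089088)))
  false (nat_lit 0)
def b0_2 : Bx := Bx.mk (St.mk (I.pos (nat_lit 80347136) (nat_lit 121421824)) (I.mix (nat_lit 57769984) (nat_lit 6029312)) (I.neg (nat_lit 12681216) (nat_lit 62242816)) (I.pos (nat_lit 112312320) (nat_lit 144752640)) (I.mix (nat_lit 89341952) (nat_lit 35618816)) (I.mix (nat_lit 36257792) (nat_lit 74006528)) (I.mix (nat_lit 25493504) (nat_lit 52084736)))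
  false (nat_lit 0)
def b0_3 : Bx := Bx.mk (St.mk (I.mix (nat_lit 49430528) (nat_lit 31047680)) (I.mix (nat_lit 34209792) (nat_lit 3751936)) (I.neg (nat_lit 3047424) (nat_lit 18513920)) (I.pos (nat_lit 81821696) (nat_lit 101924864)) (I.mix (nat_lit 43843584) (nat_lit 25231360)) (I.mix (nat_lit 23429120) (nat_lit 32882688)) (I.mix (nat_lit 12582912) (nat_lit 7651328)))
  false (nat_lit 0)
def b0_4 : Bx := Bx.mk (St.mk (I.pos (nat_lit 191709184) (nat_lit 273088512)) (I.mix (nat_lit 8224768) (nat_lit 40747008)) (I.mix (nat_lit 71237632) (nat_lit 25903104)) (I.pos (nat_lit 251904000) (nat_lit 377356288)) (I.mix (nat_lit 94830592) (nat_lit 61980672)) (I.mix (nat_lit 65290240) (nat_lit 59850752)) (I.mix (nat_lit 100335616) (nat_lit 103907328)))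
  false (nat_lit 19843076)
def b0_5 : Bx := Bx.mk (St.mk (I.mix (nat_lit 51347456) (nat_lit 7536640)) (I.mix (nat_lit 2555904) (nat_lit 11845632)) (I.neg (nat_lit 11730944) (nat_lit 19939328)) (I.pos (nat_lit 86573056) (nat_lit 99450880)) (I.mix (nat_lit 10731520) (nat_lit 17924096)) (I.mix (nat_lit 10305536) (nat_lit 10256384)) (I.mix (nat_lit 4079616) (nat_lit 5062656)))
  false (nat_lit 0)
def b0_6 : Bx := Bx.mk (St.mk (I.pos (nat_lit 73072640) (nat_lit 165052416)) (I.mix (nat_lit 62849024) (nat_lit 376832)) (I.neg (nat_lit 9486336) (nat_lit 68403200)) (I.pos (nat_lit 115425280) (nat_lit 191856640)) (I.mix (nat_lit 97304576) (nat_lit 55476224)) (I.mix (nat_lit 51445760) (nat_lit 72777728)) (I.mix (nat_lit 35569664) (nat_lit 64552960)))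
  false (nat_lit 0)
def b0_7 : Bx := Bx.mk (St.mk (I.mix (nat_lit 41811968) (nat_lit 51396608)) (I.mix (nat_lit 35635200) (nat_lit 8290304)) (I.neg (nat_lit 3457024) (nat_lit 21889024)) (I.pos (nat_lit 80183296) (nat_lit 102989824)) (I.mix (nat_lit 37650432) (nat_lit 35651584)) (I.mix (nat_lit 26132480) (nat_lit 37535744)) (I.mix (nat_lit 11419648) (nat_lit 14860288)))
  false (nat_lit 0)
def b0_8 : Bx := Bx.mk (St.mk (I.mix (nat_lit 53264384) (nat_lit 74760192)) (I.mix (nat_lit 11698176) (nat_lit 35815424)) (I.mix (nat_lit 22347776) (nat_lit 4472832)) (I.pos (nat_lit 79806464) (nat_lit 109887488)) (I.mix (nat_lit 41730048) (nat_lit 37978112)) (I.mix (nat_lit 40976384) (nat_lit 27361280)) (I.mix (nat_lit 15040512) (nat_lit 14893056)))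
  false (nat_lit 0)
def b0_9 : Bx := Bx.mk (St.mk (I.pos (nat_lit 82313216) (nat_lit 93372416)) (I.mix (nat_lit 2818048) (nat_lit 9633792)) (I.neg (nat_lit 10960896) (nat_lit 21741568)) (I.pos (nat_lit 114311168) (nat_lit 122912768)) (I.mix (nat_lit 11632640) (nat_lit 15466496)) (I.mix (nat_lit 10649600) (nat_lit 7634944)) (I.mix (nat_lit 7667712) (nat_lit 5799936)))
  false (nat_lit 0)
def b0_10 : Bx := Bx.mk (St.mk (I.pos (nat_lit 179978240) (nat_lit 238272512)) (I.pos (nat_lit 6799360) (nat_lit 69599232)) (I.mix (nat_lit 14811136) (nat_lit 77185024)) (I.pos (nat_lit 247611392) (nat_lit 302579712)) (I.mix (nat_lit 112508928) (nat_lit 88834048)) (I.mix (nat_lit 92143616) (nat_lit 67567616)) (I.mix (nat_lit 146718720) (nat_lit 92258304)))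
  false (nat_lit 45500431)
def b0_11 : Bx := Bx.mk (St.mk (I.pos (nat_lit 152240128) (nat_lit 216924160)) (I.mix (nat_lit 4784128) (nat_lit 65699840)) (I.mix (nat_lit 2981888) (nat_lit 76382208)) (I.pos (nat_lit 193560576) (nat_lit 268812288)) (I.mix (nat_lit 133087232) (nat_lit 57409536)) (I.mix (nat_lit 127762432) (nat_lit 72843264)) (I.mix (nat_lit 119504896) (nat_lit 68993024)))
  false (nat_lit 5495404)
def b0_12 : Bx := Bx.mk (St.mk (I.pos (nat_lit 128860160) (nat_lit 204242944)) (I.mix (nat_lit 42532864) (nat_lit 18317312)) (I.mix (nat_lit 53084160) (nat_lit 17334272)) (I.pos (nat_lit 160399360) (nat_lit 240107520)) (I.mix (nat_lit 77266944) (nat_lit 69533696)) (I.mix (nat_lit 71204864) (nat_lit 61865984)) (I.mix (nat_lit 69566464) (nat_lit 55803904)))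
  false (nat_lit 0)
def b0_13 : Bx := Bx.mk (St.mk (I.pos (nat_lit 159285248) (nat_lit 202489856)) (I.mix (nat_lit 9011200) (nat_lit 38535168)) (I.mix (nat_lit 12664832) (nat_lit 46022656)) (I.pos (nat_lit 199360512) (nat_lit 242188288)) (I.mix (nat_lit 125845504) (nat_lit 73269248)) (I.mix (nat_lit 136478720) (nat_lit 67256320)) (I.mix (nat_lit 133939200) (nat_lit 61145088)))
  false (nat_lit 0)
def t0 : BTr := (BTr.n (BTr.n (BTr.n (BTr.b b0_0) (BTr.n (BTr.b b0_1) (BTr.b b0_2))) (BTr.n (BTr.n (BTr.b b0_3) (BTr.b b0_4)) (BTr.n (BTr.b b0_5) (BTr.b b0_6)))) (BTr.n (BTr.n (BTr.b b0_7) (BTr.n (BTr.b b0_8) (BTr.b b0_9))) (BTr.n (BTr.n (BTr.b b0_10) (BTr.b b0_11)) (BTr.n (BTr.b b0_12) (BTr.b b0_13)))))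
namespace T0
def l0 : Tr := Tr.L (Pth.l (Pth.l (Pth.l Pth.z)))
def l1 : Tr := Tr.L (Pth.l (Pth.l (Pth.r (Pth.l Pth.z))))
def l2 : Tr := Tr.L (Pth.l (Pth.l (Pth.r (Pth.r Pth.z))))
def l3 : Tr := Tr.L (Pth.l (Pth.r (Pth.l (Pth.l Pth.z))))
def l4 : Tr := Tr.L (Pth.l (Pth.r (Pth.l (Pth.r Pth.z))))
def l5 : Tr := Tr.L (Pth.l (Pth.r (Pth.r (Pth.l Pth.z))))
def l6 : Tr := Tr.L (Pth.l (Pth.r (Pth.r (Pth.r Pth.z))))
def l7 : Tr := Tr.L (Pth.r (Pth.l (Pth.l Pth.z)))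
def l8 : Tr := Tr.L (Pth.r (Pth.l (Pth.r (Pth.l Pth.z))))
def l9 : Tr := Tr.L (Pth.r (Pth.l (Pth.r (Pth.r Pth.z))))
def l10 : Tr := Tr.L (Pth.r (Pth.r (Pth.l (Pth.l Pth.z))))
def l11 : Tr := Tr.L (Pth.r (Pth.r (Pth.l (Pth.r Pth.z))))
def l12 : Tr := Tr.L (Pth.r (Pth.r (Pth.r (Pth.l Pth.z))))
def l13 : Tr := Tr.L (Pth.r (Pth.r (Pth.r (Pth.r Pth.z))))
end T0
def b1_0 : Bx := Bx.mk (St.mk (I.pos (nat_lit 155074560) (nat_lit 240959488)) (I.mix (nat_lit 3571712) (nat_lit 58490880)) (I.mix (nat_lit 5636096) (nat_lit 94863360)) (I.pos (nat_lit 109805568) (nat_lit 253706240)) (I.mix (nat_lit 126763008) (nat_lit 81264640)) (I.mix (nat_lit 87687168) (nat_lit 80101376)) (I.mix (nat_lit 127729664) (nat_lit 112836608)))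
  false (nat_lit 54887373)
def b1_1 : Bx := Bx.mk (St.mk (I.mix (nat_lit 26034176) (nat_lit 136314880)) (I.mix (nat_lit 3948544) (nat_lit 29638656)) (I.mix (nat_lit 10043392) (nat_lit 20840448)) (I.pos (nat_lit 11714560) (nat_lit 102612992)) (I.mix (nat_lit 39550976) (nat_lit 38961152)) (I.mix (nat_lit 33243136) (nat_lit 28835840)) (I.mix (nat_lit 26886144) (nat_lit 21446656)))
  false (nat_lit 0)
def b1_2 : Bx := Bx.mk (St.mk (I.pos (nat_lit 104038400) (nat_lit 154238976)) (I.mix (nat_lit 55263232) (nat_lit 5849088)) (I.mix (nat_lit 58769408) (nat_lit 1212416)) (I.pos (nat_lit 62390272) (nat_lit 124878848)) (I.mix (nat_lit 106414080) (nat_lit 38125568)) (I.mix (nat_lit 44171264) (nat_lit 92487680)) (I.mix (nat_lit 31571968) (nat_lit 75137024)))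
  false (nat_lit 15624307)
def b1_3 : Bx := Bx.mk (St.mk (I.mix (nat_lit 25231360) (nat_lit 95338496)) (I.mix (nat_lit 27181056) (nat_lit 1605632)) (I.mix (nat_lit 19447808) (nat_lit 1245184)) (I.pos (nat_lit 15007744) (nat_lit 69156864)) (I.mix (nat_lit 38109184) (nat_lit 15712256)) (I.mix (nat_lit 17629184) (nat_lit 30867456)) (I.mix (nat_lit 9650176) (nat_lit 15745024)))
  false (nat_lit 0)
def b1_4 : Bx := Bx.mk (St.mk (I.pos (nat_lit 192053248) (nat_lit 270925824)) (I.mix (nat_lit 8945664) (nat_lit 33357824)) (I.mix (nat_lit 33619968) (nat_lit 47153152)) (I.pos (nat_lit 185630720) (nat_lit 321601536)) (I.mix (nat_lit 88850432) (nat_lit 49889280)) (I.mix (nat_lit 59260928) (nat_lit 43859968)) (I.mix (nat_lit 92602368) (nat_lit 75350016)))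
  false (nat_lit 22555424)
def b1_5 : Bx := Bx.mk (St.mk (I.pos (nat_lit 109182976) (nat_lit 127680512)) (I.mix (nat_lit 2506752) (nat_lit 7733248)) (I.mix (nat_lit 8716288) (nat_lit 1605632)) (I.pos (nat_lit 64356352) (nat_lit 98893824)) (I.mix (nat_lit 9535488) (nat_lit 11976704)) (I.mix (nat_lit 8028160) (nat_lit 5488640)) (I.mix (nat_lit 7274496) (nat_lit 4374528)))
  false (nat_lit 0)
def b1_6 : Bx := Bx.mk (St.mk (I.mix (nat_lit 25526272) (nat_lit 78610432)) (I.mix (nat_lit 212992) (nat_lit 4341760)) (I.mix (nat_lit 4833280) (nat_lit 311296)) (I.pos (nat_lit 15974400) (nat_lit 58671104)) (I.mix (nat_lit 1245184) (nat_lit 4456448)) (I.mix (nat_lit 1310720) (nat_lit 1097728)) (I.mix (nat_lit 999424) (nat_lit 770048)))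
  false (nat_lit 0)
def b1_7 : Bx := Bx.mk (St.mk (I.pos (nat_lit 93077504) (nat_lit 186122240)) (I.mix (nat_lit 60882944) (nat_lit 5193728)) (I.neg (nat_lit 163840) (nat_lit 62144512)) (I.pos (nat_lit 71057408) (nat_lit 166838272)) (I.mix (nat_lit 102318080) (nat_lit 56131584)) (I.mix (nat_lit 58474496) (nat_lit 75694080)) (I.mix (nat_lit 48349184) (nat_lit 68370432)))
  false (nat_lit 48034622)
def b1_8 : Bx := Bx.mk (St.mk (I.mix (nat_lit 24182784) (nat_lit 109395968)) (I.mix (nat_lit 30507008) (nat_lit 5816320)) (I.mix (nat_lit 22233088) (nat_lit 2342912)) (I.pos (nat_lit 13107200) (nat_lit 79183872)) (I.mix (nat_lit 38961152) (nat_lit 29458432)) (I.mix (nat_lit 22790144) (nat_lit 29065216)) (I.mix (nat_lit 14106624) (nat_lit 18595840)))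
  false (nat_lit 0)
def b1_9 : Bx := Bx.mk (St.mk (I.pos (nat_lit 163332096) (nat_lit 218071040)) (I.mix (nat_lit 18071552) (nat_lit 55246848)) (I.mix (nat_lit 5570560) (nat_lit 85753856)) (I.pos (nat_lit 125878272) (nat_lit 216776704)) (I.mix (nat_lit 142606336) (nat_lit 65830912)) (I.mix (nat_lit 138674176) (nat_lit 79265792)) (I.mix (nat_lit 156221440) (nat_lit 81362944)))
  false (nat_lit 6121423)
def b1_10 : Bx := Bx.mk (St.mk (I.mix (nat_lit 29720576) (nat_lit 131678208)) (I.mix (nat_lit 14876672) (nat_lit 37388288)) (I.mix (nat_lit 12156928) (nat_lit 26476544)) (I.pos (nat_lit 13467648) (nat_lit 96419840)) (I.mix (nat_lit 59326464) (nat_lit 30392320)) (I.mix (nat_lit 49954816) (nat_lit 30261248)) (I.mix (nat_lit 30359552) (nat_lit 19447808)))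
  false (nat_lit 0)
def b1_11 : Bx := Bx.mk (St.mk (I.pos (nat_lit 141344768) (nat_lit 211009536)) (I.mix (nat_lit 40599552) (nat_lit 11010048)) (I.mix (nat_lit 43237376) (nat_lit 22102016)) (I.pos (nat_lit 103497728) (nat_lit 200032256)) (I.mix (nat_lit 68190208) (nat_lit 59883520)) (I.mix (nat_lit 60260352) (nat_lit 52576256)) (I.mix (nat_lit 63946752) (nat_lit 54083584)))
  false (nat_lit 0)
def b1_12 : Bx := Bx.mk (St.mk (I.pos (nat_lit 164364288) (nat_lit 210403328)) (I.mix (nat_lit 19578880) (nat_lit 33865728)) (I.mix (nat_lit 9814016) (nat_lit 56000512)) (I.pos (nat_lit 126402560) (nat_lit 201523200)) (I.mix (nat_lit 121143296) (nat_lit 65372160)) (I.mix (nat_lit 125747200) (nat_lit 59195392)) (I.mix (nat_lit 141574144) (nat_lit 64421888)))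
  false (nat_lit 0)
def b1_13 : Bx := Bx.mk (St.mk (I.pos (nat_lit 182681600) (nat_lit 241778688)) (I.pos (nat_lit 3588096) (nat_lit 53657600)) (I.pos (nat_lit 4947968) (nat_lit 84148224)) (I.pos (nat_lit 180617216) (nat_lit 249954304)) (I.mix (nat_lit 108511232) (nat_lit 84738048)) (I.mix (nat_lit 93421568) (nat_lit 68272128)) (I.mix (nat_lit 149422080) (nat_lit 87195648)))
  false (nat_lit 45180772)
def t1 : BTr := (BTr.n (BTr.n (BTr.n (BTr.b b1_0) (BTr.n (BTr.b b1_1) (BTr.b b1_2))) (BTr.n (BTr.n (BTr.b b1_3) (BTr.b b1_4)) (BTr.n (BTr.b b1_5) (BTr.b b1_6)))) (BTr.n (BTr.n (BTr.b b1_7) (BTr.n (BTr.b b1_8) (BTr.b b1_9))) (BTr.n (BTr.n (BTr.b b1_10) (BTr.b b1_11)) (BTr.n (BTr.b b1_12) (BTr.b b1_13)))))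
namespace T1
def l0 : Tr := Tr.L (Pth.l (Pth.l (Pth.l Pth.z)))
def l1 : Tr := Tr.L (Pth.l (Pth.l (Pth.r (Pth.l Pth.z))))
def l2 : Tr := Tr.L (Pth.l (Pth.l (Pth.r (Pth.r Pth.z))))
def l3 : Tr := Tr.L (Pth.l (Pth.r (Pth.l (Pth.l Pth.z))))
def l4 : Tr := Tr.L (Pth.l (Pth.r (Pth.l (Pth.r Pth.z))))
def l5 : Tr := Tr.L (Pth.l (Pth.r (Pth.r (Pth.l Pth.z))))
def l6 : Tr := Tr.L (Pth.l (Pth.r (Pth.r (Pth.r Pth.z))))
def l7 : Tr := Tr.L (Pth.r (Pth.l (Pth.l Pth.z)))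
def l8 : Tr := Tr.L (Pth.r (Pth.l (Pth.r (Pth.l Pth.z))))
def l9 : Tr := Tr.L (Pth.r (Pth.l (Pth.r (Pth.r Pth.z))))
def l10 : Tr := Tr.L (Pth.r (Pth.r (Pth.l (Pth.l Pth.z))))
def l11 : Tr := Tr.L (Pth.r (Pth.r (Pth.l (Pth.r Pth.z))))
def l12 : Tr := Tr.L (Pth.r (Pth.r (Pth.r (Pth.l Pth.z))))
def l13 : Tr := Tr.L (Pth.r (Pth.r (Pth.r (Pth.r Pth.z))))
end T1
def b2_0 : Bx := Bx.mk (St.mk (I.pos (nat_lit 148275200) (nat_lit 233046016)) (I.mix (nat_lit 4882432) (nat_lit 81739776)) (I.mix (nat_lit 5636096) (nat_lit 94961664)) (I.pos (nat_lit 236421120) (nat_lit 352092160)) (I.mix (nat_lit 140443648) (nat_lit 94715904)) (I.mix (nat_lit 85786624) (nat_lit 80084992)) (I.mix (nat_lit 116834304) (nat_lit 114573312)))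
  false (nat_lit 80955720)
def b2_1 : Bx := Bx.mk (St.mk (I.pos (nat_lit 22265856) (nat_lit 76922880)) (I.mix (nat_lit 13484032) (nat_lit 47775744)) (I.neg (nat_lit 901120) (nat_lit 32636928)) (I.pos (nat_lit 143376384) (nat_lit 164069376)) (I.mix (nat_lit 34701312) (nat_lit 58654720)) (I.mix (nat_lit 42991616) (nat_lit 35192832)) (I.mix (nat_lit 23576576) (nat_lit 14073856)))
  false (nat_lit 0)
def b2_2 : Bx := Bx.mk (St.mk (I.pos (nat_lit 47546368) (nat_lit 99991552)) (I.mix (nat_lit 63651840) (nat_lit 14696448)) (I.neg (nat_lit 14958592) (nat_lit 62226432)) (I.pos (nat_lit 147275776) (nat_lit 182550528)) (I.mix (nat_lit 99516416) (nat_lit 36601856)) (I.mix (nat_lit 41435136) (nat_lit 77332480)) (I.mix (nat_lit 31670272) (nat_lit 46972928)))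
  false (nat_lit 0)
def b2_3 : Bx := Bx.mk (St.mk (I.neg (nat_lit 22265856) (nat_lit 76922880)) (I.mix (nat_lit 47857664) (nat_lit 14860288)) (I.neg (nat_lit 884736) (nat_lit 33046528)) (I.pos (nat_lit 143376384) (nat_lit 164085760)) (I.mix (nat_lit 58654720) (nat_lit 34701312)) (I.mix (nat_lit 35192832) (nat_lit 42991616)) (I.mix (nat_lit 23576576) (nat_lit 14073856)))
  true (nat_lit 0)
def b2_4 : Bx := Bx.mk (St.mk (I.pos (nat_lit 59932672) (nat_lit 154451968)) (I.neg (nat_lit 606208) (nat_lit 74465280)) (I.neg (nat_lit 5079040) (nat_lit 73170944)) (I.pos (nat_lit 156844032) (nat_lit 233717760)) (I.mix (nat_lit 109789184) (nat_lit 66076672)) (I.mix (nat_lit 58523648) (nat_lit 82051072)) (I.mix (nat_lit 49872896) (nat_lit 71368704)))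
  false (nat_lit 0)
def b2_5 : Bx := Bx.mk (St.mk (I.mix (nat_lit 41107456) (nat_lit 9224192)) (I.mix (nat_lit 41893888) (nat_lit 9715712)) (I.neg (nat_lit 2637824) (nat_lit 10928128)) (I.pos (nat_lit 141213696) (nat_lit 153354240)) (I.mix (nat_lit 36356096) (nat_lit 44466176)) (I.mix (nat_lit 30851072) (nat_lit 43532288)) (I.mix (nat_lit 6782976) (nat_lit 7602176)))
  true (nat_lit 0)
def b2_6 : Bx := Bx.mk (St.mk (I.pos (nat_lit 143900672) (nat_lit 202342400)) (I.pos (nat_lit 196608) (nat_lit 67452928)) (I.pos (nat_lit 5013504) (nat_lit 81575936)) (I.pos (nat_lit 234881024) (nat_lit 304463872)) (I.mix (nat_lit 147996672) (nat_lit 59211776)) (I.mix (nat_lit 133677056) (nat_lit 79740928)) (I.mix (nat_lit 127156224) (nat_lit 83902464)))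
  false (nat_lit 50239562)
def b2_7 : Bx := Bx.mk (St.mk (I.mix (nat_lit 9224192) (nat_lit 41107456)) (I.mix (nat_lit 9715712) (nat_lit 41893888)) (I.neg (nat_lit 2637824) (nat_lit 10928128)) (I.pos (nat_lit 141213696) (nat_lit 153305088)) (I.mix (nat_lit 44466176) (nat_lit 36356096)) (I.mix (nat_lit 43532288) (nat_lit 30851072)) (I.mix (nat_lit 6782976) (nat_lit 7602176)))
  false (nat_lit 0)
def b2_8 : Bx := Bx.mk (St.mk (I.pos (nat_lit 183369728) (nat_lit 289554432)) (I.mix (nat_lit 33669120) (nat_lit 48545792)) (I.mix (nat_lit 134430720) (nat_lit 38305792)) (I.pos (nat_lit 291520512) (nat_lit 460652544)) (I.mix (nat_lit 92569600) (nat_lit 61112320)) (I.mix (nat_lit 63717376) (nat_lit 53985280)) (I.mix (nat_lit 104316928) (nat_lit 104546304)))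
  false (nat_lit 33466238)
def b2_9 : Bx := Bx.mk (St.mk (I.pos (nat_lit 118669312) (nat_lit 198787072)) (I.mix (nat_lit 44531712) (nat_lit 27541504)) (I.mix (nat_lit 48267264) (nat_lit 31129600)) (I.pos (nat_lit 199426048) (nat_lit 285638656)) (I.mix (nat_lit 78987264) (nat_lit 71942144)) (I.mix (nat_lit 76316672) (nat_lit 68648960)) (I.mix (nat_lit 75694080) (nat_lit 64978944)))
  false (nat_lit 5654828)
def b2_10 : Bx := Bx.mk (St.mk (I.pos (nat_lit 147046400) (nat_lit 198311936)) (I.mix (nat_lit 9256960) (nat_lit 49709056)) (I.mix (nat_lit 10338304) (nat_lit 62439424)) (I.pos (nat_lit 237404160) (nat_lit 288686080)) (I.mix (nat_lit 137216000) (nat_lit 77709312)) (I.mix (nat_lit 138608640) (nat_lit 74448896)) (I.mix (nat_lit 135479296) (nat_lit 74039296)))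
  false (nat_lit 0)
def b2_11 : Bx := Bx.mk (St.mk (I.pos (nat_lit 164626432) (nat_lit 232308736)) (I.pos (nat_lit 8978432) (nat_lit 80199680)) (I.mix (nat_lit 10944512) (nat_lit 89079808)) (I.pos (nat_lit 281264128) (nat_lit 345587712)) (I.mix (nat_lit 122322944) (nat_lit 89489408)) (I.mix (nat_lit 95928320) (nat_lit 67600384)) (I.mix (nat_lit 144539648) (nat_lit 94830592)))
  false (nat_lit 55629208)
def t2 : BTr := (BTr.n (BTr.n (BTr.n (BTr.b b2_0) (BTr.n (BTr.b b2_1) (BTr.b b2_2))) (BTr.n (BTr.b b2_3) (BTr.n (BTr.b b2_4) (BTr.b b2_5)))) (BTr.n (BTr.n (BTr.b b2_6) (BTr.n (BTr.b b2_7) (BTr.b b2_8))) (BTr.n (BTr.b b2_9) (BTr.n (BTr.b b2_10) (BTr.b b2_11)))))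
namespace T2
def l0 : Tr := Tr.L (Pth.l (Pth.l (Pth.l Pth.z)))
def l1 : Tr := Tr.L (Pth.l (Pth.l (Pth.r (Pth.l Pth.z))))
def l2 : Tr := Tr.L (Pth.l (Pth.l (Pth.r (Pth.r Pth.z))))
def l3 : Tr := Tr.L (Pth.l (Pth.r (Pth.l Pth.z)))
def l4 : Tr := Tr.L (Pth.l (Pth.r (Pth.r (Pth.l Pth.z))))
def l5 : Tr := Tr.L (Pth.l (Pth.r (Pth.r (Pth.r Pth.z))))
def l6 : Tr := Tr.L (Pth.r (Pth.l (Pth.l Pth.z)))
def l7 : Tr := Tr.L (Pth.r (Pth.l (Pth.r (Pth.l Pth.z))))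
def l8 : Tr := Tr.L (Pth.r (Pth.l (Pth.r (Pth.r Pth.z))))
def l9 : Tr := Tr.L (Pth.r (Pth.r (Pth.l Pth.z)))
def l10 : Tr := Tr.L (Pth.r (Pth.r (Pth.r (Pth.l Pth.z))))
def l11 : Tr := Tr.L (Pth.r (Pth.r (Pth.r (Pth.r Pth.z))))
end T2
def b3_0 : Bx := Bx.mk (St.mk (I.pos (nat_lit 151814144) (nat_lit 240058368)) (I.mix (nat_lit 3276800) (nat_lit 53280768)) (I.mix (nat_lit 6127616) (nat_lit 103546880)) (I.pos (nat_lit 109576192) (nat_lit 245137408)) (I.mix (nat_lit 126369792) (nat_lit 77889536)) (I.mix (nat_lit 96206848) (nat_lit 81592320)) (I.mix (nat_lit 130498560) (nat_lit 107413504)))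
  false (nat_lit 14298161)
def b3_1 : Bx := Bx.mk (St.mk (I.pos (nat_lit 98254848) (nat_lit 180256768)) (I.mix (nat_lit 61341696) (nat_lit 1441792)) (I.mix (nat_lit 55263232) (nat_lit 1327104)) (I.pos (nat_lit 75644928) (nat_lit 159154176)) (I.mix (nat_lit 96305152) (nat_lit 58621952)) (I.mix (nat_lit 58540032) (nat_lit 68485120)) (I.mix (nat_lit 47087616) (nat_lit 62881792)))
  false (nat_lit 46870241)
def b3_2 : Bx := Bx.mk (St.mk (I.mix (nat_lit 22167552) (nat_lit 106807296)) (I.mix (nat_lit 29704192) (nat_lit 3407872)) (I.mix (nat_lit 17268736) (nat_lit 5586944)) (I.pos (nat_lit 13533184) (nat_lit 77168640)) (I.mix (nat_lit 33849344) (nat_lit 29573120)) (I.mix (nat_lit 21839872) (nat_lit 26066944)) (I.mix (nat_lit 13025280) (nat_lit 16580608)))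
  false (nat_lit 0)
def b3_3 : Bx := Bx.mk (St.mk (I.pos (nat_lit 162414592) (nat_lit 213860352)) (I.mix (nat_lit 18513920) (nat_lit 53772288)) (I.pos (nat_lit 2211840) (nat_lit 95780864)) (I.pos (nat_lit 120356864) (nat_lit 208502784)) (I.mix (nat_lit 147603456) (nat_lit 61865984)) (I.mix (nat_lit 139100160) (nat_lit 74842112)) (I.mix (nat_lit 159907840) (nat_lit 73367552)))
  false (nat_lit 21563396)
def b3_4 : Bx := Bx.mk (St.mk (I.mix (nat_lit 28065792) (nat_lit 130056192)) (I.mix (nat_lit 11173888) (nat_lit 37371904)) (I.mix (nat_lit 4358144) (nat_lit 32489472)) (I.pos (nat_lit 13434880) (nat_lit 95076352)) (I.mix (nat_lit 63684608) (nat_lit 28704768)) (I.mix (nat_lit 51920896) (nat_lit 30457856)) (I.mix (nat_lit 32997376) (nat_lit 18939904)))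
  false (nat_lit 0)
def b3_5 : Bx := Bx.mk (St.mk (I.pos (nat_lit 152715264) (nat_lit 210550784)) (I.mix (nat_lit 35438592) (nat_lit 12075008)) (I.mix (nat_lit 24608768) (nat_lit 37240832)) (I.pos (nat_lit 111968256) (nat_lit 197967872)) (I.mix (nat_lit 64782336) (nat_lit 69599232)) (I.mix (nat_lit 68157440) (nat_lit 63389696)) (I.mix (nat_lit 68730880) (nat_lit 67207168)))
  false (nat_lit 34466912)
def b3_6 : Bx := Bx.mk (St.mk (I.pos (nat_lit 152141824) (nat_lit 177209344)) (I.neg (nat_lit 11091968) (nat_lit 37175296)) (I.neg (nat_lit 573440) (nat_lit 29163520)) (I.pos (nat_lit 112820224) (nat_lit 157040640)) (I.mix (nat_lit 30605312) (nat_lit 19808256)) (I.mix (nat_lit 14581760) (nat_lit 18743296)) (I.mix (nat_lit 15155200) (nat_lit 20021248)))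
  false (nat_lit 0)
def b3_7 : Bx := Bx.mk (St.mk (I.mix (nat_lit 28229632) (nat_lit 107282432)) (I.mix (nat_lit 12681216) (nat_lit 2195456)) (I.mix (nat_lit 5472256) (nat_lit 5079040)) (I.pos (nat_lit 14942208) (nat_lit 77135872)) (I.mix (nat_lit 9486336) (nat_lit 12173312)) (I.mix (nat_lit 6356992) (nat_lit 8060928)) (I.mix (nat_lit 3883008) (nat_lit 5439488)))
  false (nat_lit 0)
def b3_8 : Bx := Bx.mk (St.mk (I.pos (nat_lit 163627008) (nat_lit 211517440)) (I.mix (nat_lit 24133632) (nat_lit 29081600)) (I.mix (nat_lit 3751936) (nat_lit 61898752)) (I.pos (nat_lit 121683968) (nat_lit 198918144)) (I.mix (nat_lit 121143296) (nat_lit 64733184)) (I.mix (nat_lit 127549440) (nat_lit 60866560)) (I.mix (nat_lit 143704064) (nat_lit 62619648)))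
  false (nat_lit 24709942)
def b3_9 : Bx := Bx.mk (St.mk (I.mix (nat_lit 28180480) (nat_lit 140591104)) (I.mix (nat_lit 10207232) (nat_lit 27983872)) (I.mix (nat_lit 9011200) (nat_lit 26230784)) (I.pos (nat_lit 11157504) (nat_lit 106168320)) (I.mix (nat_lit 43220992) (nat_lit 37208064)) (I.mix (nat_lit 36601856) (nat_lit 29556736)) (I.mix (nat_lit 29786112) (nat_lit 22691840)))
  false (nat_lit 0)
def b3_10 : Bx := Bx.mk (St.mk (I.pos (nat_lit 103235584) (nat_lit 158072832)) (I.mix (nat_lit 57376768) (nat_lit 9814016)) (I.mix (nat_lit 52166656) (nat_lit 10305536)) (I.pos (nat_lit 60489728) (nat_lit 129286144)) (I.mix (nat_lit 101941248) (nat_lit 41140224)) (I.mix (nat_lit 43335680) (nat_lit 90243072)) (I.mix (nat_lit 32473088) (nat_lit 70467584)))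
  false (nat_lit 23337350)
def b3_11 : Bx := Bx.mk (St.mk (I.mix (nat_lit 27213824) (nat_lit 97157120)) (I.mix (nat_lit 27459584) (nat_lit 5226496)) (I.mix (nat_lit 14925824) (nat_lit 4014080)) (I.pos (nat_lit 15073280) (nat_lit 70123520)) (I.mix (nat_lit 34488320) (nat_lit 16400384)) (I.mix (nat_lit 16760832) (nat_lit 27557888)) (I.mix (nat_lit 9256960) (nat_lit 14123008)))
  false (nat_lit 0)
def b3_12 : Bx := Bx.mk (St.mk (I.pos (nat_lit 188186624) (nat_lit 286720000)) (I.mix (nat_lit 28917760) (nat_lit 37715968)) (I.mix (nat_lit 55967744) (nat_lit 76922880)) (I.pos (nat_lit 180289536) (nat_lit 351535104)) (I.mix (nat_lit 92176384) (nat_lit 49053696)) (I.mix (nat_lit 63225856) (nat_lit 45563904)) (I.mix (nat_lit 98729984) (nat_lit 77381632)))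
  false (nat_lit 10747110)
def b3_13 : Bx := Bx.mk (St.mk (I.pos (nat_lit 180142080) (nat_lit 236945408)) (I.pos (nat_lit 10797056) (nat_lit 50757632)) (I.pos (nat_lit 28803072) (nat_lit 96960512)) (I.pos (nat_lit 171524096) (nat_lit 237780992)) (I.mix (nat_lit 102121472) (nat_lit 83181568)) (I.mix (nat_lit 93077504) (nat_lit 71876608)) (I.mix (nat_lit 144769024) (nat_lit 93274112)))
  false (nat_lit 30864806)
def t3 : BTr := (BTr.n (BTr.n (BTr.n (BTr.b b3_0) (BTr.n (BTr.b b3_1) (BTr.b b3_2))) (BTr.n (BTr.n (BTr.b b3_3) (BTr.b b3_4)) (BTr.n (BTr.b b3_5) (BTr.b b3_6)))) (BTr.n (BTr.n (BTr.b b3_7) (BTr.n (BTr.b b3_8) (BTr.b b3_9))) (BTr.n (BTr.n (BTr.b b3_10) (BTr.b b3_11)) (BTr.n (BTr.b b3_12) (BTr.b b3_13)))))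
namespace T3
def l0 : Tr := Tr.L (Pth.l (Pth.l (Pth.l Pth.z)))
def l1 : Tr := Tr.L (Pth.l (Pth.l (Pth.r (Pth.l Pth.z))))
def l2 : Tr := Tr.L (Pth.l (Pth.l (Pth.r (Pth.r Pth.z))))
def l3 : Tr := Tr.L (Pth.l (Pth.r (Pth.l (Pth.l Pth.z))))
def l4 : Tr := Tr.L (Pth.l (Pth.r (Pth.l (Pth.r Pth.z))))
def l5 : Tr := Tr.L (Pth.l (Pth.r (Pth.r (Pth.l Pth.z))))
def l6 : Tr := Tr.L (Pth.l (Pth.r (Pth.r (Pth.r Pth.z))))
def l7 : Tr := Tr.L (Pth.r (Pth.l (Pth.l Pth.z)))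
def l8 : Tr := Tr.L (Pth.r (Pth.l (Pth.r (Pth.l Pth.z))))
def l9 : Tr := Tr.L (Pth.r (Pth.l (Pth.r (Pth.r Pth.z))))
def l10 : Tr := Tr.L (Pth.r (Pth.r (Pth.l (Pth.l Pth.z))))
def l11 : Tr := Tr.L (Pth.r (Pth.r (Pth.l (Pth.r Pth.z))))
def l12 : Tr := Tr.L (Pth.r (Pth.r (Pth.r (Pth.l Pth.z))))
def l13 : Tr := Tr.L (Pth.r (Pth.r (Pth.r (Pth.r Pth.z))))
end T3
def b4_0 : Bx := Bx.mk (St.mk (I.pos (nat_lit 138346496) (nat_lit 227721216)) (I.mix (nat_lit 4538368) (nat_lit 75612160)) (I.mix (nat_lit 7028736) (nat_lit 119455744)) (I.pos (nat_lit 233537536) (nat_lit 333594624)) (I.mix (nat_lit 148439040) (nat_lit 92520448)) (I.mix (nat_lit 99024896) (nat_lit 87703552)) (I.mix (nat_lit 124747776) (nat_lit 116326400)))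
  false (nat_lit 116558082)
def b4_1 : Bx := Bx.mk (St.mk (I.pos (nat_lit 69419008) (nat_lit 160481280)) (I.neg (nat_lit 4718592) (nat_lit 75530240)) (I.mix (nat_lit 56082432) (nat_lit 17580032)) (I.pos (nat_lit 165380096) (nat_lit 236797952)) (I.mix (nat_lit 95404032) (nat_lit 65929216)) (I.mix (nat_lit 55885824) (nat_lit 63717376)) (I.mix (nat_lit 47267840) (nat_lit 54706176)))
  false (nat_lit 56746346)
def b4_2 : Bx := Bx.mk (St.mk (I.mix (nat_lit 35373056) (nat_lit 11616256)) (I.mix (nat_lit 42254336) (nat_lit 11190272)) (I.pos (nat_lit 3555328) (nat_lit 11452416)) (I.pos (nat_lit 141164544) (nat_lit 151486464)) (I.mix (nat_lit 28491776) (nat_lit 48463872)) (I.mix (nat_lit 27279360) (nat_lit 37699584)) (I.mix (nat_lit 5341184) (nat_lit 7651328)))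
  true (nat_lit 0)
def b4_3 : Bx := Bx.mk (St.mk (I.pos (nat_lit 138543104) (nat_lit 195526656)) (I.mix (nat_lit 2392064) (nat_lit 65568768)) (I.pos (nat_lit 23134208) (nat_lit 105381888)) (I.pos (nat_lit 220446720) (nat_lit 289341440)) (I.mix (nat_lit 152977408) (nat_lit 54001664)) (I.mix (nat_lit 136151040) (nat_lit 74252288)) (I.mix (nat_lit 133185536) (nat_lit 77529088)))
  false (nat_lit 88726327)
def b4_4 : Bx := Bx.mk (St.mk (I.mix (nat_lit 11616256) (nat_lit 35373056)) (I.mix (nat_lit 12353536) (nat_lit 42319872)) (I.pos (nat_lit 3555328) (nat_lit 11452416)) (I.pos (nat_lit 141164544) (nat_lit 151486464)) (I.mix (nat_lit 48463872) (nat_lit 28491776)) (I.mix (nat_lit 37699584) (nat_lit 27279360)) (I.mix (nat_lit 5341184) (nat_lit 7651328)))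
  false (nat_lit 0)
def b4_5 : Bx := Bx.mk (St.mk (I.pos (nat_lit 15908864) (nat_lit 74973184)) (I.mix (nat_lit 10731520) (nat_lit 47431680)) (I.mix (nat_lit 15859712) (nat_lit 13729792)) (I.pos (nat_lit 141852672) (nat_lit 164216832)) (I.mix (nat_lit 43614208) (nat_lit 51036160)) (I.mix (nat_lit 47890432) (nat_lit 37470208)) (I.mix (nat_lit 25165824) (nat_lit 18235392)))
  false (nat_lit 0)
def b4_6 : Bx := Bx.mk (St.mk (I.pos (nat_lit 48726016) (nat_lit 107134976)) (I.mix (nat_lit 66945024) (nat_lit 12337152)) (I.neg (nat_lit 1703936) (nat_lit 46956544)) (I.pos (nat_lit 149323776) (nat_lit 189153280)) (I.mix (nat_lit 94420992) (nat_lit 42958848)) (I.mix (nat_lit 45973504) (nat_lit 79478784)) (I.mix (nat_lit 34635776) (nat_lit 45727744)))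
  false (nat_lit 0)
def b4_7 : Bx := Bx.mk (St.mk (I.neg (nat_lit 15908864) (nat_lit 74973184)) (I.mix (nat_lit 47431680) (nat_lit 10731520)) (I.mix (nat_lit 15859712) (nat_lit 13729792)) (I.pos (nat_lit 141852672) (nat_lit 164216832)) (I.mix (nat_lit 51052544) (nat_lit 43614208)) (I.mix (nat_lit 37470208) (nat_lit 47890432)) (I.mix (nat_lit 25165824) (nat_lit 18235392)))
  true (nat_lit 0)
def b4_8 : Bx := Bx.mk (St.mk (I.pos (nat_lit 118964224) (nat_lit 190676992)) (I.mix (nat_lit 42106880) (nat_lit 18612224)) (I.mix (nat_lit 23134208) (nat_lit 47529984)) (I.pos (nat_lit 198819840) (nat_lit 271450112)) (I.mix (nat_lit 68878336) (nat_lit 69009408)) (I.mix (nat_lit 65159168) (nat_lit 61145088)) (I.mix (nat_lit 60030976) (nat_lit 58343424)))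
  false (nat_lit 39975069)
def b4_9 : Bx := Bx.mk (St.mk (I.pos (nat_lit 174669824) (nat_lit 292290560)) (I.mix (nat_lit 25001984) (nat_lit 56311808)) (I.mix (nat_lit 72253440) (nat_lit 84901888)) (I.pos (nat_lit 276365312) (nat_lit 456392704)) (I.mix (nat_lit 98025472) (nat_lit 73383936)) (I.mix (nat_lit 76611584) (nat_lit 53559296)) (I.mix (nat_lit 127254528) (nat_lit 85557248)))
  false (nat_lit 118294085)
def b4_10 : Bx := Bx.mk (St.mk (I.pos (nat_lit 158760960) (nat_lit 228048896)) (I.pos (nat_lit 10502144) (nat_lit 70287360)) (I.pos (nat_lit 18546688) (nat_lit 109477888)) (I.pos (nat_lit 265682944) (nat_lit 328630272)) (I.mix (nat_lit 135233536) (nat_lit 101548032)) (I.mix (nat_lit 112754688) (nat_lit 83886080)) (I.mix (nat_lit 159760384) (nat_lit 101875712)))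
  false (nat_lit 57839055)
def b4_11 : Bx := Bx.mk (St.mk (I.pos (nat_lit 141262848) (nat_lit 193052672)) (I.mix (nat_lit 11976704) (nat_lit 46497792)) (I.pos (nat_lit 11173888) (nat_lit 84574208)) (I.pos (nat_lit 222724096) (nat_lit 278183936)) (I.mix (nat_lit 135856128) (nat_lit 68845568)) (I.mix (nat_lit 131039232) (nat_lit 69386240)) (I.mix (nat_lit 129400832) (nat_lit 68648960)))
  false (nat_lit 49598548)
def t4 : BTr := (BTr.n (BTr.n (BTr.n (BTr.b b4_0) (BTr.n (BTr.b b4_1) (BTr.b b4_2))) (BTr.n (BTr.b b4_3) (BTr.n (BTr.b b4_4) (BTr.b b4_5)))) (BTr.n (BTr.n (BTr.b b4_6) (BTr.n (BTr.b b4_7) (BTr.b b4_8))) (BTr.n (BTr.b b4_9) (BTr.n (BTr.b b4_10) (BTr.b b4_11)))))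
namespace T4
def l0 : Tr := Tr.L (Pth.l (Pth.l (Pth.l Pth.z)))
def l1 : Tr := Tr.L (Pth.l (Pth.l (Pth.r (Pth.l Pth.z))))
def l2 : Tr := Tr.L (Pth.l (Pth.l (Pth.r (Pth.r Pth.z))))
def l3 : Tr := Tr.L (Pth.l (Pth.r (Pth.l Pth.z)))
def l4 : Tr := Tr.L (Pth.l (Pth.r (Pth.r (Pth.l Pth.z))))
def l5 : Tr := Tr.L (Pth.l (Pth.r (Pth.r (Pth.r Pth.z))))
def l6 : Tr := Tr.L (Pth.r (Pth.l (Pth.l Pth.z)))
def l7 : Tr := Tr.L (Pth.r (Pth.l (Pth.r (Pth.l Pth.z))))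
def l8 : Tr := Tr.L (Pth.r (Pth.l (Pth.r (Pth.r Pth.z))))
def l9 : Tr := Tr.L (Pth.r (Pth.r (Pth.l Pth.z)))
def l10 : Tr := Tr.L (Pth.r (Pth.r (Pth.r (Pth.l Pth.z))))
def l11 : Tr := Tr.L (Pth.r (Pth.r (Pth.r (Pth.r Pth.z))))
end T4
def b5_0 : Bx := Bx.mk (St.mk (I.pos (nat_lit 138969088) (nat_lit 231800832)) (I.mix (nat_lit 3768320) (nat_lit 61997056)) (I.mix (nat_lit 6963200) (nat_lit 118423552)) (I.pos (nat_lit 180846592) (nat_lit 281935872)) (I.mix (nat_lit 132497408) (nat_lit 84885504)) (I.mix (nat_lit 95436800) (nat_lit 85770240)) (I.mix (nat_lit 127696896) (nat_lit 105365504)))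
  false (nat_lit 45214999)
def b5_1 : Bx := Bx.mk (St.mk (I.pos (nat_lit 88211456) (nat_lit 158662656)) (I.neg (nat_lit 8568832) (nat_lit 65486848)) (I.mix (nat_lit 45744128) (nat_lit 7389184)) (I.pos (nat_lit 129384448) (nat_lit 184074240)) (I.mix (nat_lit 83427328) (nat_lit 54706176)) (I.mix (nat_lit 46432256) (nat_lit 51609600)) (I.mix (nat_lit 38617088) (nat_lit 46350336)))
  false (nat_lit 0)
def b5_2 : Bx := Bx.mk (St.mk (I.mix (nat_lit 32161792) (nat_lit 47890432)) (I.mix (nat_lit 34897920) (nat_lit 3194880)) (I.mix (nat_lit 3653632) (nat_lit 11223040)) (I.pos (nat_lit 82378752) (nat_lit 101679104)) (I.mix (nat_lit 25051136) (nat_lit 39878656)) (I.mix (nat_lit 23478272) (nat_lit 30507008)) (I.mix (nat_lit 7045120) (nat_lit 11337728)))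
  false (nat_lit 0)
def b5_3 : Bx := Bx.mk (St.mk (I.pos (nat_lit 146915328) (nat_lit 207126528)) (I.mix (nat_lit 7110656) (nat_lit 59899904)) (I.pos (nat_lit 25018368) (nat_lit 106823680)) (I.pos (nat_lit 174030848) (nat_lit 246087680)) (I.mix (nat_lit 142884864) (nat_lit 52903936)) (I.mix (nat_lit 130678784) (nat_lit 68911104)) (I.mix (nat_lit 128106496) (nat_lit 61571072)))
  false (nat_lit 60037634)
def b5_4 : Bx := Bx.mk (St.mk (I.mix (nat_lit 53411840) (nat_lit 75513856)) (I.mix (nat_lit 7487488) (nat_lit 37142528)) (I.mix (nat_lit 3964928) (nat_lit 23150592)) (I.pos (nat_lit 82264064) (nat_lit 110592000)) (I.mix (nat_lit 50806784) (nat_lit 25526272)) (I.mix (nat_lit 36454400) (nat_lit 24576000)) (I.mix (nat_lit 13778944) (nat_lit 12206080)))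
  false (nat_lit 0)
def b5_5 : Bx := Bx.mk (St.mk (I.pos (nat_lit 142852096) (nat_lit 195936256)) (I.mix (nat_lit 31129600) (nat_lit 10010624)) (I.mix (nat_lit 4866048) (nat_lit 44859392)) (I.pos (nat_lit 168329216) (nat_lit 224608256)) (I.mix (nat_lit 67731456) (nat_lit 71499776)) (I.mix (nat_lit 66338816) (nat_lit 63815680)) (I.mix (nat_lit 59736064) (nat_lit 59867136)))
  false (nat_lit 8151197)
def b5_6 : Bx := Bx.mk (St.mk (I.mix (nat_lit 55476224) (nat_lit 52281344)) (I.mix (nat_lit 15155200) (nat_lit 6242304)) (I.pos (nat_lit 2326528) (nat_lit 12992512)) (I.pos (nat_lit 85983232) (nat_lit 100253696)) (I.mix (nat_lit 11517952) (nat_lit 16482304)) (I.mix (nat_lit 10010624) (nat_lit 9895936)) (I.mix (nat_lit 4030464) (nat_lit 3964928)))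
  false (nat_lit 0)
def b5_7 : Bx := Bx.mk (St.mk (I.pos (nat_lit 134103040) (nat_lit 161005568)) (I.neg (nat_lit 16875520) (nat_lit 41517056)) (I.mix (nat_lit 21495808) (nat_lit 7520256)) (I.pos (nat_lit 162873344) (nat_lit 187252736)) (I.mix (nat_lit 34897920) (nat_lit 23904256)) (I.mix (nat_lit 19529728) (nat_lit 18366464)) (I.mix (nat_lit 19234816) (nat_lit 18694144)))
  false (nat_lit 0)
def b5_8 : Bx := Bx.mk (St.mk (I.mix (nat_lit 42909696) (nat_lit 103219200)) (I.mix (nat_lit 8945664) (nat_lit 39059456)) (I.mix (nat_lit 5390336) (nat_lit 28246016)) (I.pos (nat_lit 76759040) (nat_lit 127516672)) (I.mix (nat_lit 49119232) (nat_lit 44171264)) (I.mix (nat_lit 46055424) (nat_lit 33423360)) (I.mix (nat_lit 29573120) (nat_lit 21594112)))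
  false (nat_lit 0)
def b5_9 : Bx := Bx.mk (St.mk (I.pos (nat_lit 77070336) (nat_lit 132153344)) (I.mix (nat_lit 64176128) (nat_lit 10846208)) (I.mix (nat_lit 42958848) (nat_lit 9666560)) (I.pos (nat_lit 112574464) (nat_lit 155353088)) (I.mix (nat_lit 80756736) (nat_lit 37470208)) (I.mix (nat_lit 38862848) (nat_lit 71450624)) (I.mix (nat_lit 28475392) (nat_lit 46956544)))
  false (nat_lit 0)
def b5_10 : Bx := Bx.mk (St.mk (I.mix (nat_lit 51101696) (nat_lit 39174144)) (I.mix (nat_lit 34668544) (nat_lit 7225344)) (I.mix (nat_lit 2293760) (nat_lit 13484032)) (I.pos (nat_lit 81395712) (nat_lit 102416384)) (I.mix (nat_lit 35241984) (nat_lit 31473664)) (I.mix (nat_lit 24215552) (nat_lit 34504704)) (I.mix (nat_lit 13041664) (nat_lit 9584640)))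
  false (nat_lit 0)
def b5_11 : Bx := Bx.mk (St.mk (I.pos (nat_lit 153387008) (nat_lit 197623808)) (I.mix (nat_lit 16875520) (nat_lit 30687232)) (I.pos (nat_lit 12582912) (nat_lit 72843264)) (I.pos (nat_lit 180125696) (nat_lit 228835328)) (I.mix (nat_lit 116310016) (nat_lit 65404928)) (I.mix (nat_lit 116736000) (nat_lit 66125824)) (I.mix (nat_lit 118947840) (nat_lit 60342272)))
  false (nat_lit 25223630)
def b5_12 : Bx := Bx.mk (St.mk (I.pos (nat_lit 175013888) (nat_lit 289374208)) (I.mix (nat_lit 23642112) (nat_lit 49053696)) (I.mix (nat_lit 41713664) (nat_lit 97632256)) (I.pos (nat_lit 223019008) (nat_lit 400113664)) (I.mix (nat_lit 105234432) (nat_lit 69271552)) (I.mix (nat_lit 75546624) (nat_lit 50872320)) (I.mix (nat_lit 116539392) (nat_lit 82214912)))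
  false (nat_lit 86204699)
def b5_13 : Bx := Bx.mk (St.mk (I.pos (nat_lit 165642240) (nat_lit 228573184)) (I.pos (nat_lit 13418496) (nat_lit 59064320)) (I.pos (nat_lit 37289984) (nat_lit 110297088)) (I.pos (nat_lit 218284032) (nat_lit 275578880)) (I.mix (nat_lit 124239872) (nat_lit 102825984)) (I.mix (nat_lit 112558080) (nat_lit 84115456)) (I.mix (nat_lit 164773888) (nat_lit 99581952)))
  false (nat_lit 38665959)
def t5 : BTr := (BTr.n (BTr.n (BTr.n (BTr.b b5_0) (BTr.n (BTr.b b5_1) (BTr.b b5_2))) (BTr.n (BTr.n (BTr.b b5_3) (BTr.b b5_4)) (BTr.n (BTr.b b5_5) (BTr.b b5_6)))) (BTr.n (BTr.n (BTr.b b5_7) (BTr.n (BTr.b b5_8) (BTr.b b5_9))) (BTr.n (BTr.n (BTr.b b5_10) (BTr.b b5_11)) (BTr.n (BTr.b b5_12) (BTr.b b5_13)))))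
namespace T5
def l0 : Tr := Tr.L (Pth.l (Pth.l (Pth.l Pth.z)))
def l1 : Tr := Tr.L (Pth.l (Pth.l (Pth.r (Pth.l Pth.z))))
def l2 : Tr := Tr.L (Pth.l (Pth.l (Pth.r (Pth.r Pth.z))))
def l3 : Tr := Tr.L (Pth.l (Pth.r (Pth.l (Pth.l Pth.z))))
def l4 : Tr := Tr.L (Pth.l (Pth.r (Pth.l (Pth.r Pth.z))))
def l5 : Tr := Tr.L (Pth.l (Pth.r (Pth.r (Pth.l Pth.z))))
def l6 : Tr := Tr.L (Pth.l (Pth.r (Pth.r (Pth.r Pth.z))))
def l7 : Tr := Tr.L (Pth.r (Pth.l (Pth.l Pth.z)))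
def l8 : Tr := Tr.L (Pth.r (Pth.l (Pth.r (Pth.l Pth.z))))
def l9 : Tr := Tr.L (Pth.r (Pth.l (Pth.r (Pth.r Pth.z))))
def l10 : Tr := Tr.L (Pth.r (Pth.r (Pth.l (Pth.l Pth.z))))
def l11 : Tr := Tr.L (Pth.r (Pth.r (Pth.l (Pth.r Pth.z))))
def l12 : Tr := Tr.L (Pth.r (Pth.r (Pth.r (Pth.l Pth.z))))
def l13 : Tr := Tr.L (Pth.r (Pth.r (Pth.r (Pth.r Pth.z))))
end T5
theorem bx0_0 : BoxOK sI cl5 cl6 cl9 t2 t4 b0_0 :=
  box_mk (TrL.c (I.pos (nat_lit 0) (nat_lit 0)) (xa (xb T2.l0 (xa T2.l0 T2.l0)) (xb T2.l0 (xa T2.l0 T2.l0)))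
  (TrL.c (I.pos (nat_lit 0) (nat_lit 0)) T4.l1
  (TrL.c (I.pos (nat_lit 0) (nat_lit 0)) T2.l1
  (TrL.c (I.pos (nat_lit 0) (nat_lit 0)) T4.l2
  (TrL.c (I.pos (nat_lit 0) (nat_lit 0)) (xa T4.l3 (xb T4.l3 T4.l3))
  (TrL.c (I.pos (nat_lit 0) (nat_lit 0)) T2.l2
  (TrL.c (I.pos (nat_lit 0) (nat_lit 0)) T4.l4
  (TrL.c (I.pos (nat_lit 0) (nat_lit 0)) T2.l3
  TrL.n)))))))) (by decide +kernel)
theorem bx0_1 : BoxOK sI cl5 cl6 cl9 t2 t4 b0_1 :=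
  box_mk (TrL.c (I.pos (nat_lit 0) (nat_lit 0)) (xa (xa (xb T2.l8 T2.l8) T2.l8) (xa T2.l8 T2.l8))
  (TrL.c (I.pos (nat_lit 0) (nat_lit 0)) T4.l1
  (TrL.c (I.pos (nat_lit 0) (nat_lit 0)) T2.l1
  (TrL.c (I.pos (nat_lit 0) (nat_lit 0)) T4.l2
  (TrL.c (I.pos (nat_lit 0) (nat_lit 0)) T4.l8
  (TrL.c (I.pos (nat_lit 0) (nat_lit 0)) T2.l2
  (TrL.c (I.pos (nat_lit 0) (nat_lit 0)) T4.l4
  (TrL.c (I.pos (nat_lit 0) (nat_lit 0)) T2.l3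
  TrL.n)))))))) (by decide +kernel)
theorem bx0_2 : BoxOK sI cl5 cl6 cl9 t2 t4 b0_2 :=
  box_mk (TrL.c (I.pos (nat_lit 0) (nat_lit 0)) (xb T2.l8 T2.l8)
  (TrL.c (I.pos (nat_lit 0) (nat_lit 0)) T4.l1
  (TrL.c (I.pos (nat_lit 0) (nat_lit 0)) T2.l1
  (TrL.c (I.pos (nat_lit 0) (nat_lit 0)) T4.l2
  (TrL.c (I.pos (nat_lit 0) (nat_lit 0)) T4.l8
  (TrL.c (I.pos (nat_lit 0) (nat_lit 0)) T2.l2
  (TrL.c (I.pos (nat_lit 0) (nat_lit 0)) T4.l4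
  (TrL.c (I.pos (nat_lit 0) (nat_lit 0)) T2.l3
  TrL.n)))))))) (by decide +kernel)
theorem bx0_3 : BoxOK sI cl5 cl6 cl9 t2 t4 b0_3 :=
  box_mk (TrL.c (I.pos (nat_lit 0) (nat_lit 0)) (xa (xb T2.l8 T2.l8) T2.l8)
  (TrL.c (I.pos (nat_lit 0) (nat_lit 0)) T4.l1
  (TrL.c (I.pos (nat_lit 0) (nat_lit 0)) T2.l1
  (TrL.c (I.pos (nat_lit 0) (nat_lit 0)) T4.l2
  (TrL.c (I.pos (nat_lit 0) (nat_lit 0)) T4.l8
  (TrL.c (I.pos (nat_lit 0) (nat_lit 0)) T2.l2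
  (TrL.c (I.pos (nat_lit 0) (nat_lit 0)) T4.l4
  (TrL.c (I.pos (nat_lit 0) (nat_lit 0)) T2.l3
  TrL.n)))))))) (by decide +kernel)
theorem bx0_4 : BoxOK sI cl5 cl6 cl9 t2 t4 b0_4 :=
  box_mk (TrL.c (I.pos (nat_lit 0) (nat_lit 0)) (xa T2.l0 T2.l0)
  (TrL.c (I.pos (nat_lit 0) (nat_lit 0)) T4.l1
  (TrL.c (I.pos (nat_lit 0) (nat_lit 0)) T2.l1
  (TrL.c (I.pos (nat_lit 0) (nat_lit 0)) T4.l2
  (TrL.c (I.pos (nat_lit 0) (nat_lit 0)) (xa T4.l3 T4.l3)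
  (TrL.c (I.pos (nat_lit 0) (nat_lit 0)) T2.l2
  (TrL.c (I.pos (nat_lit 0) (nat_lit 0)) T4.l4
  (TrL.c (I.pos (nat_lit 0) (nat_lit 0)) T2.l3
  TrL.n)))))))) (by decide +kernel)
theorem bx0_5 : BoxOK sI cl5 cl6 cl9 t2 t4 b0_5 :=
  box_mk (TrL.c (I.pos (nat_lit 0) (nat_lit 0)) T2.l8
  (TrL.c (I.pos (nat_lit 0) (nat_lit 0)) T4.l1
  (TrL.c (I.pos (nat_lit 0) (nat_lit 0)) T2.l1
  (TrL.c (I.pos (nat_lit 0) (nat_lit 0)) T4.l2
  (TrL.c (I.pos (nat_lit 0) (nat_lit 0)) T4.l8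
  (TrL.c (I.pos (nat_lit 0) (nat_lit 0)) T2.l2
  (TrL.c (I.pos (nat_lit 0) (nat_lit 0)) T4.l4
  (TrL.c (I.pos (nat_lit 0) (nat_lit 0)) T2.l3
  TrL.n)))))))) (by decide +kernel)
theorem bx0_6 : BoxOK sI cl5 cl6 cl9 t2 t4 b0_6 :=
  box_mk (TrL.c (I.pos (nat_lit 0) (nat_lit 0)) (xa (xb T2.l8 T2.l8) (xb T2.l8 T2.l8))
  (TrL.c (I.pos (nat_lit 0) (nat_lit 0)) T4.l1
  (TrL.c (I.pos (nat_lit 0) (nat_lit 0)) T2.l1
  (TrL.c (I.pos (nat_lit 0) (nat_lit 0)) T4.l2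
  (TrL.c (I.pos (nat_lit 0) (nat_lit 0)) T4.l8
  (TrL.c (I.pos (nat_lit 0) (nat_lit 0)) T2.l2
  (TrL.c (I.pos (nat_lit 0) (nat_lit 0)) T4.l4
  (TrL.c (I.pos (nat_lit 0) (nat_lit 0)) T2.l3
  TrL.n)))))))) (by decide +kernel)
theorem bx0_7 : BoxOK sI cl5 cl6 cl9 t2 t4 b0_7 :=
  box_mk (TrL.c (I.pos (nat_lit 0) (nat_lit 0)) (xa (xb (xa (xb T2.l8 T2.l8) T2.l8) T2.l8) T2.l8)
  (TrL.c (I.pos (nat_lit 0) (nat_lit 0)) T4.l1
  (TrL.c (I.pos (nat_lit 0) (nat_lit 0)) T2.l1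
  (TrL.c (I.pos (nat_lit 0) (nat_lit 0)) T4.l2
  (TrL.c (I.pos (nat_lit 0) (nat_lit 0)) T4.l8
  (TrL.c (I.pos (nat_lit 0) (nat_lit 0)) T2.l2
  (TrL.c (I.pos (nat_lit 0) (nat_lit 0)) T4.l4
  (TrL.c (I.pos (nat_lit 0) (nat_lit 0)) T2.l3
  TrL.n)))))))) (by decide +kernel)
theorem bx0_8 : BoxOK sI cl5 cl6 cl9 t2 t4 b0_8 :=
  box_mk (TrL.c (I.pos (nat_lit 0) (nat_lit 0)) (xa (xa (xb T2.l8 (xa T2.l8 T2.l8)) T2.l8) T2.l8)
  (TrL.c (I.pos (nat_lit 0) (nat_lit 0)) T4.l1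
  (TrL.c (I.pos (nat_lit 0) (nat_lit 0)) T2.l1
  (TrL.c (I.pos (nat_lit 0) (nat_lit 0)) T4.l2
  (TrL.c (I.pos (nat_lit 0) (nat_lit 0)) T4.l8
  (TrL.c (I.pos (nat_lit 0) (nat_lit 0)) T2.l2
  (TrL.c (I.pos (nat_lit 0) (nat_lit 0)) T4.l4
  (TrL.c (I.pos (nat_lit 0) (nat_lit 0)) T2.l3
  TrL.n)))))))) (by decide +kernel)
theorem bx0_9 : BoxOK sI cl5 cl6 cl9 t2 t4 b0_9 :=
  box_mk (TrL.c (I.pos (nat_lit 0) (nat_lit 0)) T2.l8
  (TrL.c (I.pos (nat_lit 0) (nat_lit 0)) T4.l1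
  (TrL.c (I.pos (nat_lit 0) (nat_lit 0)) T2.l1
  (TrL.c (I.pos (nat_lit 0) (nat_lit 0)) T4.l2
  (TrL.c (I.pos (nat_lit 0) (nat_lit 0)) T4.l8
  (TrL.c (I.pos (nat_lit 0) (nat_lit 0)) T2.l2
  (TrL.c (I.pos (nat_lit 0) (nat_lit 0)) T4.l4
  (TrL.c (I.pos (nat_lit 0) (nat_lit 0)) T2.l3
  TrL.n)))))))) (by decide +kernel)
theorem bx0_10 : BoxOK sI cl5 cl6 cl9 t2 t4 b0_10 :=
  box_mk (TrL.c (I.pos (nat_lit 0) (nat_lit 0)) (xa (xb T2.l0 T2.l0) (xb T2.l0 T2.l0))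
  (TrL.c (I.pos (nat_lit 0) (nat_lit 0)) T4.l1
  (TrL.c (I.pos (nat_lit 0) (nat_lit 0)) T2.l1
  (TrL.c (I.pos (nat_lit 0) (nat_lit 0)) T4.l2
  (TrL.c (I.pos (nat_lit 0) (nat_lit 0)) (xb T4.l3 T4.l3)
  (TrL.c (I.pos (nat_lit 0) (nat_lit 0)) T2.l2
  (TrL.c (I.pos (nat_lit 0) (nat_lit 0)) T4.l4
  (TrL.c (I.pos (nat_lit 0) (nat_lit 0)) T2.l3
  TrL.n)))))))) (by decide +kernel)
theorem bx0_11 : BoxOK sI cl5 cl6 cl9 t2 t4 b0_11 :=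
  box_mk (TrL.c (I.pos (nat_lit 0) (nat_lit 0)) (xa (xb T2.l11 T2.l11) (xb T2.l11 T2.l11))
  (TrL.c (I.pos (nat_lit 0) (nat_lit 0)) T4.l1
  (TrL.c (I.pos (nat_lit 0) (nat_lit 0)) T2.l1
  (TrL.c (I.pos (nat_lit 0) (nat_lit 0)) T4.l2
  (TrL.c (I.pos (nat_lit 0) (nat_lit 0)) (xb T4.l11 T4.l11)
  (TrL.c (I.pos (nat_lit 0) (nat_lit 0)) T2.l2
  (TrL.c (I.pos (nat_lit 0) (nat_lit 0)) T4.l4
  (TrL.c (I.pos (nat_lit 0) (nat_lit 0)) T2.l3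
  TrL.n)))))))) (by decide +kernel)
theorem bx0_12 : BoxOK sI cl5 cl6 cl9 t2 t4 b0_12 :=
  box_mk (TrL.c (I.pos (nat_lit 0) (nat_lit 0)) (xa T2.l11 T2.l11)
  (TrL.c (I.pos (nat_lit 0) (nat_lit 0)) T4.l1
  (TrL.c (I.pos (nat_lit 0) (nat_lit 0)) T2.l1
  (TrL.c (I.pos (nat_lit 0) (nat_lit 0)) T4.l2
  (TrL.c (I.pos (nat_lit 0) (nat_lit 0)) T4.l11
  (TrL.c (I.pos (nat_lit 0) (nat_lit 0)) T2.l2
  (TrL.c (I.pos (nat_lit 0) (nat_lit 0)) T4.l4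
  (TrL.c (I.pos (nat_lit 0) (nat_lit 0)) T2.l3
  TrL.n)))))))) (by decide +kernel)
theorem bx0_13 : BoxOK sI cl5 cl6 cl9 t2 t4 b0_13 :=
  box_mk (TrL.c (I.pos (nat_lit 0) (nat_lit 0)) T2.l11
  (TrL.c (I.pos (nat_lit 0) (nat_lit 0)) T4.l1
  (TrL.c (I.pos (nat_lit 0) (nat_lit 0)) T2.l1
  (TrL.c (I.pos (nat_lit 0) (nat_lit 0)) T4.l2
  (TrL.c (I.pos (nat_lit 0) (nat_lit 0)) T4.l11
  (TrL.c (I.pos (nat_lit 0) (nat_lit 0)) T2.l2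
  (TrL.c (I.pos (nat_lit 0) (nat_lit 0)) T4.l4
  (TrL.c (I.pos (nat_lit 0) (nat_lit 0)) T2.l3
  TrL.n)))))))) (by decide +kernel)
theorem sv0 : StarV sI cl5 cl6 cl9 t2 t4 t0 :=
  (bt_n (bt_n (bt_n (bt_b bx0_0) (bt_n (bt_b bx0_1) (bt_b bx0_2))) (bt_n (bt_n (bt_b bx0_3) (bt_b bx0_4)) (bt_n (bt_b bx0_5) (bt_b bx0_6)))) (bt_n (bt_n (bt_b bx0_7) (bt_n (bt_b bx0_8) (bt_b bx0_9))) (bt_n (bt_n (bt_b bx0_10) (bt_b bx0_11)) (bt_n (bt_b bx0_12) (bt_b bx0_13)))))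
def S0 : StarD := StarD.mk cl5 cl6 cl9 2 4 t0
theorem bx1_0 : BoxOK sI cl5 cl9 cl6 t4 t2 b1_0 :=
  box_mk (TrL.c (I.pos (nat_lit 0) (nat_lit 0)) (xa (xb T4.l10 (xa T4.l0 T4.l0)) (xb T4.l0 (xa T4.l0 T4.l0)))
  (TrL.c (I.pos (nat_lit 0) (nat_lit 0)) T2.l4
  (TrL.c (I.pos (nat_lit 0) (nat_lit 0)) T4.l5
  (TrL.c (I.pos (nat_lit 0) (nat_lit 0)) T2.l5
  (TrL.c (I.pos (nat_lit 0) (nat_lit 0)) (xa T2.l6 (xb T2.l6 T2.l6))
  (TrL.c (I.pos (nat_lit 0) (nat_lit 0)) T4.l6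
  (TrL.c (I.pos (nat_lit 0) (nat_lit 0)) T2.l7
  (TrL.c (I.pos (nat_lit 0) (nat_lit 0)) T4.l7
  TrL.n)))))))) (by decide +kernel)
theorem bx1_1 : BoxOK sI cl5 cl9 cl6 t4 t2 b1_1 :=
  box_mk (TrL.c (I.pos (nat_lit 0) (nat_lit 0)) (xa (xa T4.l9 T4.l9) (xa T4.l9 T4.l9))
  (TrL.c (I.pos (nat_lit 0) (nat_lit 0)) T2.l4
  (TrL.c (I.pos (nat_lit 0) (nat_lit 0)) T4.l5
  (TrL.c (I.pos (nat_lit 0) (nat_lit 0)) T2.l5
  (TrL.c (I.pos (nat_lit 0) (nat_lit 0)) T2.l9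
  (TrL.c (I.pos (nat_lit 0) (nat_lit 0)) T4.l6
  (TrL.c (I.pos (nat_lit 0) (nat_lit 0)) T2.l7
  (TrL.c (I.pos (nat_lit 0) (nat_lit 0)) T4.l7
  TrL.n)))))))) (by decide +kernel)
theorem bx1_2 : BoxOK sI cl5 cl9 cl6 t4 t2 b1_2 :=
  box_mk (TrL.c (I.pos (nat_lit 0) (nat_lit 0)) (xb T4.l9 (xa T4.l9 T4.l9))
  (TrL.c (I.pos (nat_lit 0) (nat_lit 0)) T2.l4
  (TrL.c (I.pos (nat_lit 0) (nat_lit 0)) T4.l5
  (TrL.c (I.pos (nat_lit 0) (nat_lit 0)) T2.l5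
  (TrL.c (I.pos (nat_lit 0) (nat_lit 0)) T2.l9
  (TrL.c (I.pos (nat_lit 0) (nat_lit 0)) T4.l6
  (TrL.c (I.pos (nat_lit 0) (nat_lit 0)) T2.l7
  (TrL.c (I.pos (nat_lit 0) (nat_lit 0)) T4.l7
  TrL.n)))))))) (by decide +kernel)
theorem bx1_3 : BoxOK sI cl5 cl9 cl6 t4 t2 b1_3 :=
  box_mk (TrL.c (I.pos (nat_lit 0) (nat_lit 0)) (xa (xa (xb T4.l9 T4.l9) T4.l9) T4.l9)
  (TrL.c (I.pos (nat_lit 0) (nat_lit 0)) T2.l4
  (TrL.c (I.pos (nat_lit 0) (nat_lit 0)) T4.l5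
  (TrL.c (I.pos (nat_lit 0) (nat_lit 0)) T2.l5
  (TrL.c (I.pos (nat_lit 0) (nat_lit 0)) T2.l9
  (TrL.c (I.pos (nat_lit 0) (nat_lit 0)) T4.l6
  (TrL.c (I.pos (nat_lit 0) (nat_lit 0)) T2.l7
  (TrL.c (I.pos (nat_lit 0) (nat_lit 0)) T4.l7
  TrL.n)))))))) (by decide +kernel)
theorem bx1_4 : BoxOK sI cl5 cl9 cl6 t4 t2 b1_4 :=
  box_mk (TrL.c (I.pos (nat_lit 0) (nat_lit 0)) (xa T4.l0 T4.l0)
  (TrL.c (I.pos (nat_lit 0) (nat_lit 0)) T2.l4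
  (TrL.c (I.pos (nat_lit 0) (nat_lit 0)) T4.l5
  (TrL.c (I.pos (nat_lit 0) (nat_lit 0)) T2.l5
  (TrL.c (I.pos (nat_lit 0) (nat_lit 0)) (xa T2.l6 T2.l6)
  (TrL.c (I.pos (nat_lit 0) (nat_lit 0)) T4.l6
  (TrL.c (I.pos (nat_lit 0) (nat_lit 0)) T2.l7
  (TrL.c (I.pos (nat_lit 0) (nat_lit 0)) T4.l7
  TrL.n)))))))) (by decide +kernel)
theorem bx1_5 : BoxOK sI cl5 cl9 cl6 t4 t2 b1_5 :=
  box_mk (TrL.c (I.pos (nat_lit 0) (nat_lit 0)) T4.l9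
  (TrL.c (I.pos (nat_lit 0) (nat_lit 0)) T2.l4
  (TrL.c (I.pos (nat_lit 0) (nat_lit 0)) T4.l5
  (TrL.c (I.pos (nat_lit 0) (nat_lit 0)) T2.l5
  (TrL.c (I.pos (nat_lit 0) (nat_lit 0)) T2.l9
  (TrL.c (I.pos (nat_lit 0) (nat_lit 0)) T4.l6
  (TrL.c (I.pos (nat_lit 0) (nat_lit 0)) T2.l7
  (TrL.c (I.pos (nat_lit 0) (nat_lit 0)) T4.l7
  TrL.n)))))))) (by decide +kernel)
theorem bx1_6 : BoxOK sI cl5 cl9 cl6 t4 t2 b1_6 :=
  box_mk (TrL.c (I.pos (nat_lit 0) (nat_lit 0)) T4.l9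
  (TrL.c (I.pos (nat_lit 0) (nat_lit 0)) T2.l4
  (TrL.c (I.pos (nat_lit 0) (nat_lit 0)) T4.l5
  (TrL.c (I.pos (nat_lit 0) (nat_lit 0)) T2.l5
  (TrL.c (I.pos (nat_lit 0) (nat_lit 0)) T2.l9
  (TrL.c (I.pos (nat_lit 0) (nat_lit 0)) T4.l6
  (TrL.c (I.pos (nat_lit 0) (nat_lit 0)) T2.l7
  (TrL.c (I.pos (nat_lit 0) (nat_lit 0)) T4.l7
  TrL.n)))))))) (by decide +kernel)
theorem bx1_7 : BoxOK sI cl5 cl9 cl6 t4 t2 b1_7 :=
  box_mk (TrL.c (I.pos (nat_lit 0) (nat_lit 0)) (xa (xb T4.l9 T4.l9) (xb T4.l0 T4.l9))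
  (TrL.c (I.pos (nat_lit 0) (nat_lit 0)) T2.l4
  (TrL.c (I.pos (nat_lit 0) (nat_lit 0)) T4.l5
  (TrL.c (I.pos (nat_lit 0) (nat_lit 0)) T2.l5
  (TrL.c (I.pos (nat_lit 0) (nat_lit 0)) (xa T2.l9 T2.l9)
  (TrL.c (I.pos (nat_lit 0) (nat_lit 0)) T4.l6
  (TrL.c (I.pos (nat_lit 0) (nat_lit 0)) T2.l7
  (TrL.c (I.pos (nat_lit 0) (nat_lit 0)) T4.l7
  TrL.n)))))))) (by decide +kernel)
theorem bx1_8 : BoxOK sI cl5 cl9 cl6 t4 t2 b1_8 :=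
  box_mk (TrL.c (I.pos (nat_lit 0) (nat_lit 0)) (xa (xa (xb T4.l9 T4.l9) T4.l9) T4.l9)
  (TrL.c (I.pos (nat_lit 0) (nat_lit 0)) T2.l4
  (TrL.c (I.pos (nat_lit 0) (nat_lit 0)) T4.l5
  (TrL.c (I.pos (nat_lit 0) (nat_lit 0)) T2.l5
  (TrL.c (I.pos (nat_lit 0) (nat_lit 0)) T2.l9
  (TrL.c (I.pos (nat_lit 0) (nat_lit 0)) T4.l6
  (TrL.c (I.pos (nat_lit 0) (nat_lit 0)) T2.l7
  (TrL.c (I.pos (nat_lit 0) (nat_lit 0)) T4.l7
  TrL.n)))))))) (by decide +kernel)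
theorem bx1_9 : BoxOK sI cl5 cl9 cl6 t4 t2 b1_9 :=
  box_mk (TrL.c (I.pos (nat_lit 0) (nat_lit 0)) (xb (xa T4.l10 T4.l10) (xa (xb T4.l10 T4.l10) T4.l10))
  (TrL.c (I.pos (nat_lit 0) (nat_lit 0)) T2.l4
  (TrL.c (I.pos (nat_lit 0) (nat_lit 0)) T4.l5
  (TrL.c (I.pos (nat_lit 0) (nat_lit 0)) T2.l5
  (TrL.c (I.pos (nat_lit 0) (nat_lit 0)) (xb T2.l10 T2.l10)
  (TrL.c (I.pos (nat_lit 0) (nat_lit 0)) T4.l6
  (TrL.c (I.pos (nat_lit 0) (nat_lit 0)) T2.l7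
  (TrL.c (I.pos (nat_lit 0) (nat_lit 0)) T4.l7
  TrL.n)))))))) (by decide +kernel)
theorem bx1_10 : BoxOK sI cl5 cl9 cl6 t4 t2 b1_10 :=
  box_mk (TrL.c (I.pos (nat_lit 0) (nat_lit 0)) (xa (xa (xb T4.l9 (xa T4.l9 T4.l9)) (xb T4.l9 T4.l9)) (xa T4.l9 T4.l9))
  (TrL.c (I.pos (nat_lit 0) (nat_lit 0)) T2.l4
  (TrL.c (I.pos (nat_lit 0) (nat_lit 0)) T4.l5
  (TrL.c (I.pos (nat_lit 0) (nat_lit 0)) T2.l5
  (TrL.c (I.pos (nat_lit 0) (nat_lit 0)) (xa T2.l9 T2.l9)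
  (TrL.c (I.pos (nat_lit 0) (nat_lit 0)) T4.l6
  (TrL.c (I.pos (nat_lit 0) (nat_lit 0)) T2.l7
  (TrL.c (I.pos (nat_lit 0) (nat_lit 0)) T4.l7
  TrL.n)))))))) (by decide +kernel)
theorem bx1_11 : BoxOK sI cl5 cl9 cl6 t4 t2 b1_11 :=
  box_mk (TrL.c (I.pos (nat_lit 0) (nat_lit 0)) (xa T4.l10 T4.l10)
  (TrL.c (I.pos (nat_lit 0) (nat_lit 0)) T2.l4
  (TrL.c (I.pos (nat_lit 0) (nat_lit 0)) T4.l5
  (TrL.c (I.pos (nat_lit 0) (nat_lit 0)) T2.l5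
  (TrL.c (I.pos (nat_lit 0) (nat_lit 0)) T2.l10
  (TrL.c (I.pos (nat_lit 0) (nat_lit 0)) T4.l6
  (TrL.c (I.pos (nat_lit 0) (nat_lit 0)) T2.l7
  (TrL.c (I.pos (nat_lit 0) (nat_lit 0)) T4.l7
  TrL.n)))))))) (by decide +kernel)
theorem bx1_12 : BoxOK sI cl5 cl9 cl6 t4 t2 b1_12 :=
  box_mk (TrL.c (I.pos (nat_lit 0) (nat_lit 0)) (xb T4.l10 T4.l10)
  (TrL.c (I.pos (nat_lit 0) (nat_lit 0)) T2.l4
  (TrL.c (I.pos (nat_lit 0) (nat_lit 0)) T4.l5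
  (TrL.c (I.pos (nat_lit 0) (nat_lit 0)) T2.l5
  (TrL.c (I.pos (nat_lit 0) (nat_lit 0)) T2.l10
  (TrL.c (I.pos (nat_lit 0) (nat_lit 0)) T4.l6
  (TrL.c (I.pos (nat_lit 0) (nat_lit 0)) T2.l7
  (TrL.c (I.pos (nat_lit 0) (nat_lit 0)) T4.l7
  TrL.n)))))))) (by decide +kernel)
theorem bx1_13 : BoxOK sI cl5 cl9 cl6 t4 t2 b1_13 :=
  box_mk (TrL.c (I.pos (nat_lit 0) (nat_lit 0)) (xa (xb T4.l0 T4.l0) (xb T4.l0 T4.l0))
  (TrL.c (I.pos (nat_lit 0) (nat_lit 0)) T2.l4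
  (TrL.c (I.pos (nat_lit 0) (nat_lit 0)) T4.l5
  (TrL.c (I.pos (nat_lit 0) (nat_lit 0)) T2.l5
  (TrL.c (I.pos (nat_lit 0) (nat_lit 0)) (xa T2.l6 T2.l6)
  (TrL.c (I.pos (nat_lit 0) (nat_lit 0)) T4.l6
  (TrL.c (I.pos (nat_lit 0) (nat_lit 0)) T2.l7
  (TrL.c (I.pos (nat_lit 0) (nat_lit 0)) T4.l7
  TrL.n)))))))) (by decide +kernel)
theorem sv1 : StarV sI cl5 cl9 cl6 t4 t2 t1 :=
  (bt_n (bt_n (bt_n (bt_b bx1_0) (bt_n (bt_b bx1_1) (bt_b bx1_2))) (bt_n (bt_n (bt_b bx1_3) (bt_b bx1_4)) (bt_n (bt_b bx1_5) (bt_b bx1_6)))) (bt_n (bt_n (bt_b bx1_7) (bt_n (bt_b bx1_8) (bt_b bx1_9))) (bt_n (bt_n (bt_b bx1_10) (bt_b bx1_11)) (bt_n (bt_b bx1_12) (bt_b bx1_13)))))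
def S1 : StarD := StarD.mk cl5 cl9 cl6 4 2 t1
theorem bx2_0 : BoxOK sI cl6 cl5 cl9 t0 t5 b2_0 :=
  box_mk (TrL.c (I.pos (nat_lit 0) (nat_lit 0)) (xa (xb T0.l0 (xa T0.l0 T0.l0)) (xb T0.l0 T0.l0))
  (TrL.c (I.pos (nat_lit 0) (nat_lit 0)) T5.l1
  (TrL.c (I.pos (nat_lit 0) (nat_lit 89480386)) (xR T0.l1 T0.l1)
  (TrL.c (I.pos (nat_lit 0) (nat_lit 41530880)) T5.l2
  (TrL.c (I.pos (nat_lit 0) (nat_lit 0)) (xb T5.l3 T5.l3)
  (TrL.c (I.pos (nat_lit 0) (nat_lit 0)) T0.l2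
  (TrL.c (I.mix (nat_lit 41527258) (nat_lit 41530880)) (xR T5.l4 T5.l4)
  (TrL.c (I.mix (nat_lit 41527258) (nat_lit 4274)) T0.l3
  TrL.n)))))))) (by decide +kernel)
theorem bx2_1 : BoxOK sI cl6 cl5 cl9 t0 t5 b2_1 :=
  box_mk (TrL.c (I.pos (nat_lit 0) (nat_lit 0)) (xb T0.l4 (xa T0.l4 T0.l4))
  (TrL.c (I.pos (nat_lit 0) (nat_lit 0)) T5.l1
  (TrL.c (I.pos (nat_lit 0) (nat_lit 89480386)) T0.l1
  (TrL.c (I.pos (nat_lit 0) (nat_lit 41530880)) T5.l2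
  (TrL.c (I.pos (nat_lit 0) (nat_lit 0)) T5.l5
  (TrL.c (I.pos (nat_lit 0) (nat_lit 0)) T0.l2
  (TrL.c (I.mix (nat_lit 41527258) (nat_lit 41530880)) T5.l4
  (TrL.c (I.mix (nat_lit 41527258) (nat_lit 4274)) T0.l3
  TrL.n)))))))) (by decide +kernel)
theorem bx2_2 : BoxOK sI cl6 cl5 cl9 t0 t5 b2_2 :=
  box_mk (TrL.c (I.pos (nat_lit 0) (nat_lit 0)) (xb T0.l4 T0.l4)
  (TrL.c (I.pos (nat_lit 0) (nat_lit 0)) T5.l1
  (TrL.c (I.pos (nat_lit 0) (nat_lit 89480386)) T0.l1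
  (TrL.c (I.pos (nat_lit 0) (nat_lit 41530880)) T5.l2
  (TrL.c (I.pos (nat_lit 0) (nat_lit 0)) T5.l5
  (TrL.c (I.pos (nat_lit 0) (nat_lit 0)) T0.l2
  (TrL.c (I.mix (nat_lit 41527258) (nat_lit 41530880)) T5.l4
  (TrL.c (I.mix (nat_lit 41527258) (nat_lit 4274)) T0.l3
  TrL.n)))))))) (by decide +kernel)
theorem bx2_3 : BoxOK sI cl6 cl5 cl9 t0 t5 b2_3 :=
  box_mk (TrL.c (I.pos (nat_lit 0) (nat_lit 0)) T5.l1
  (TrL.c (I.pos (nat_lit 0) (nat_lit 0)) T0.l1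
  (TrL.c (I.mix (nat_lit 41527258) (nat_lit 41530880)) (xR T5.l10 T5.l6)
  (TrL.c (I.mix (nat_lit 41527258) (nat_lit 4274)) T0.l8
  TrL.n)))) (by decide +kernel)
theorem bx2_4 : BoxOK sI cl6 cl5 cl9 t0 t5 b2_4 :=
  box_mk (TrL.c (I.pos (nat_lit 0) (nat_lit 0)) (xa (xb T0.l4 T0.l4) (xb T0.l4 T0.l4))
  (TrL.c (I.pos (nat_lit 0) (nat_lit 0)) T5.l1
  (TrL.c (I.pos (nat_lit 0) (nat_lit 89480386)) (xR T0.l1 T0.l1)
  (TrL.c (I.pos (nat_lit 0) (nat_lit 41530880)) T5.l2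
  (TrL.c (I.pos (nat_lit 0) (nat_lit 0)) T5.l5
  (TrL.c (I.pos (nat_lit 0) (nat_lit 0)) T0.l2
  (TrL.c (I.mix (nat_lit 41527258) (nat_lit 41530880)) T5.l8
  (TrL.c (I.mix (nat_lit 41527258) (nat_lit 4274)) T0.l3
  TrL.n)))))))) (by decide +kernel)
theorem bx2_5 : BoxOK sI cl6 cl5 cl9 t0 t5 b2_5 :=
  box_mk (TrL.c (I.pos (nat_lit 0) (nat_lit 0)) T5.l7
  (TrL.c (I.pos (nat_lit 0) (nat_lit 0)) T0.l1
  (TrL.c (I.mix (nat_lit 41527258) (nat_lit 41530880)) T5.l6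
  (TrL.c (I.mix (nat_lit 41527258) (nat_lit 4274)) T0.l5
  TrL.n)))) (by decide +kernel)
theorem bx2_6 : BoxOK sI cl6 cl5 cl9 t0 t5 b2_6 :=
  box_mk (TrL.c (I.pos (nat_lit 0) (nat_lit 0)) (xa T0.l10 T0.l10)
  (TrL.c (I.pos (nat_lit 0) (nat_lit 0)) T5.l1
  (TrL.c (I.pos (nat_lit 0) (nat_lit 89480386)) (xR T0.l1 T0.l1)
  (TrL.c (I.pos (nat_lit 0) (nat_lit 41530880)) T5.l2
  (TrL.c (I.pos (nat_lit 0) (nat_lit 0)) T5.l3
  (TrL.c (I.pos (nat_lit 0) (nat_lit 0)) T0.l2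
  (TrL.c (I.mix (nat_lit 41527258) (nat_lit 41530880)) T5.l8
  (TrL.c (I.mix (nat_lit 41527258) (nat_lit 4274)) T0.l3
  TrL.n)))))))) (by decide +kernel)
theorem bx2_7 : BoxOK sI cl6 cl5 cl9 t0 t5 b2_7 :=
  box_mk (TrL.c (I.pos (nat_lit 0) (nat_lit 0)) (xb T0.l4 T0.l4)
  (TrL.c (I.pos (nat_lit 0) (nat_lit 0)) T5.l7
  (TrL.c (I.pos (nat_lit 0) (nat_lit 89480386)) T0.l1
  (TrL.c (I.pos (nat_lit 0) (nat_lit 41530880)) T5.l2
  (TrL.c (I.pos (nat_lit 0) (nat_lit 0)) T5.l5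
  (TrL.c (I.pos (nat_lit 0) (nat_lit 0)) T0.l2
  (TrL.c (I.mix (nat_lit 41527258) (nat_lit 41530880)) T5.l4
  (TrL.c (I.mix (nat_lit 41527258) (nat_lit 4274)) T0.l3
  TrL.n)))))))) (by decide +kernel)
theorem bx2_8 : BoxOK sI cl6 cl5 cl9 t0 t5 b2_8 :=
  box_mk (TrL.c (I.pos (nat_lit 0) (nat_lit 0)) (xa (xb T0.l0 T0.l0) (xb T0.l0 T0.l0))
  (TrL.c (I.pos (nat_lit 0) (nat_lit 0)) T5.l1
  (TrL.c (I.pos (nat_lit 0) (nat_lit 89480386)) (xR T0.l1 T0.l1)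
  (TrL.c (I.pos (nat_lit 0) (nat_lit 41530880)) T5.l2
  (TrL.c (I.pos (nat_lit 0) (nat_lit 0)) (xb (xa T5.l3 (xa T5.l3 T5.l3)) (xa T5.l3 T5.l3))
  (TrL.c (I.pos (nat_lit 0) (nat_lit 0)) T0.l6
  (TrL.c (I.mix (nat_lit 41527258) (nat_lit 41530880)) (xR T5.l4 T5.l4)
  (TrL.c (I.mix (nat_lit 41527258) (nat_lit 4274)) T0.l3
  TrL.n)))))))) (by decide +kernel)
theorem bx2_9 : BoxOK sI cl6 cl5 cl9 t0 t5 b2_9 :=
  box_mk (TrL.c (I.pos (nat_lit 0) (nat_lit 0)) (xa T0.l10 T0.l0)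
  (TrL.c (I.pos (nat_lit 0) (nat_lit 0)) T5.l1
  (TrL.c (I.pos (nat_lit 0) (nat_lit 89480386)) (xR T0.l1 T0.l1)
  (TrL.c (I.pos (nat_lit 0) (nat_lit 41530880)) T5.l2
  (TrL.c (I.pos (nat_lit 0) (nat_lit 0)) T5.l11
  (TrL.c (I.pos (nat_lit 0) (nat_lit 0)) T0.l2
  (TrL.c (I.mix (nat_lit 41527258) (nat_lit 41530880)) T5.l8
  (TrL.c (I.mix (nat_lit 41527258) (nat_lit 4274)) T0.l3
  TrL.n)))))))) (by decide +kernel)
theorem bx2_10 : BoxOK sI cl6 cl5 cl9 t0 t5 b2_10 :=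
  box_mk (TrL.c (I.pos (nat_lit 0) (nat_lit 0)) (xb T0.l10 T0.l10)
  (TrL.c (I.pos (nat_lit 0) (nat_lit 0)) T5.l1
  (TrL.c (I.pos (nat_lit 0) (nat_lit 89480386)) (xR T0.l1 T0.l1)
  (TrL.c (I.pos (nat_lit 0) (nat_lit 41530880)) T5.l2
  (TrL.c (I.pos (nat_lit 0) (nat_lit 0)) T5.l11
  (TrL.c (I.pos (nat_lit 0) (nat_lit 0)) T0.l2
  (TrL.c (I.mix (nat_lit 41527258) (nat_lit 41530880)) T5.l8
  (TrL.c (I.mix (nat_lit 41527258) (nat_lit 4274)) T0.l3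
  TrL.n)))))))) (by decide +kernel)
theorem bx2_11 : BoxOK sI cl6 cl5 cl9 t0 t5 b2_11 :=
  box_mk (TrL.c (I.pos (nat_lit 0) (nat_lit 0)) (xa (xb T0.l0 T0.l0) (xb T0.l0 T0.l0))
  (TrL.c (I.pos (nat_lit 0) (nat_lit 0)) T5.l1
  (TrL.c (I.pos (nat_lit 0) (nat_lit 89480386)) (xR T0.l1 T0.l1)
  (TrL.c (I.pos (nat_lit 0) (nat_lit 41530880)) T5.l2
  (TrL.c (I.pos (nat_lit 0) (nat_lit 0)) (xb T5.l3 T5.l3)
  (TrL.c (I.pos (nat_lit 0) (nat_lit 0)) T0.l2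
  (TrL.c (I.mix (nat_lit 41527258) (nat_lit 41530880)) (xR T5.l4 T5.l4)
  (TrL.c (I.mix (nat_lit 41527258) (nat_lit 4274)) T0.l3
  TrL.n)))))))) (by decide +kernel)
theorem sv2 : StarV sI cl6 cl5 cl9 t0 t5 t2 :=
  (bt_n (bt_n (bt_n (bt_b bx2_0) (bt_n (bt_b bx2_1) (bt_b bx2_2))) (bt_n (bt_b bx2_3) (bt_n (bt_b bx2_4) (bt_b bx2_5)))) (bt_n (bt_n (bt_b bx2_6) (bt_n (bt_b bx2_7) (bt_b bx2_8))) (bt_n (bt_b bx2_9) (bt_n (bt_b bx2_10) (bt_b bx2_11)))))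
def S2 : StarD := StarD.mk cl6 cl5 cl9 0 5 t2
theorem bx3_0 : BoxOK sI cl6 cl9 cl5 t5 t0 b3_0 :=
  box_mk (TrL.c (I.pos (nat_lit 0) (nat_lit 0)) (xa (xb (xa T5.l0 T5.l0) (xa T5.l0 T5.l0)) (xb (xa T5.l0 T5.l0) (xa T5.l0 T5.l0)))
  (TrL.c (I.pos (nat_lit 0) (nat_lit 0)) T0.l6
  (TrL.c (I.pos (nat_lit 0) (nat_lit 89480386)) (xR T5.l8 T5.l8)
  (TrL.c (I.pos (nat_lit 0) (nat_lit 41530880)) T0.l7
  (TrL.c (I.pos (nat_lit 0) (nat_lit 0)) (xa T0.l11 T0.l11)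
  (TrL.c (I.pos (nat_lit 0) (nat_lit 0)) T5.l9
  (TrL.c (I.mix (nat_lit 41527258) (nat_lit 41530880)) (xR T0.l8 T0.l8)
  (TrL.c (I.mix (nat_lit 41527258) (nat_lit 4274)) T5.l10
  TrL.n)))))))) (by decide +kernel)
theorem bx3_1 : BoxOK sI cl6 cl9 cl5 t5 t0 b3_1 :=
  box_mk (TrL.c (I.pos (nat_lit 0) (nat_lit 0)) (xa (xb T5.l12 T5.l12) T5.l0)
  (TrL.c (I.pos (nat_lit 0) (nat_lit 0)) T0.l6
  (TrL.c (I.pos (nat_lit 0) (nat_lit 89480386)) T5.l8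
  (TrL.c (I.pos (nat_lit 0) (nat_lit 41530880)) T0.l7
  (TrL.c (I.pos (nat_lit 0) (nat_lit 0)) (xa T0.l12 T0.l12)
  (TrL.c (I.pos (nat_lit 0) (nat_lit 0)) T5.l9
  (TrL.c (I.mix (nat_lit 41527258) (nat_lit 41530880)) T0.l8
  (TrL.c (I.mix (nat_lit 41527258) (nat_lit 4274)) T5.l10
  TrL.n)))))))) (by decide +kernel)
theorem bx3_2 : BoxOK sI cl6 cl9 cl5 t5 t0 b3_2 :=
  box_mk (TrL.c (I.pos (nat_lit 0) (nat_lit 0)) (xa T5.l12 T5.l12)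
  (TrL.c (I.pos (nat_lit 0) (nat_lit 0)) T0.l6
  (TrL.c (I.pos (nat_lit 0) (nat_lit 89480386)) T5.l8
  (TrL.c (I.pos (nat_lit 0) (nat_lit 41530880)) T0.l7
  (TrL.c (I.pos (nat_lit 0) (nat_lit 0)) T0.l12
  (TrL.c (I.pos (nat_lit 0) (nat_lit 0)) T5.l9
  (TrL.c (I.mix (nat_lit 41527258) (nat_lit 41530880)) T0.l8
  (TrL.c (I.mix (nat_lit 41527258) (nat_lit 4274)) T5.l10
  TrL.n)))))))) (by decide +kernel)
theorem bx3_3 : BoxOK sI cl6 cl9 cl5 t5 t0 b3_3 :=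
  box_mk (TrL.c (I.pos (nat_lit 0) (nat_lit 0)) (xb (xa T5.l13 T5.l13) (xa T5.l13 T5.l13))
  (TrL.c (I.pos (nat_lit 0) (nat_lit 0)) T0.l6
  (TrL.c (I.pos (nat_lit 0) (nat_lit 89480386)) (xR T5.l8 T5.l8)
  (TrL.c (I.pos (nat_lit 0) (nat_lit 41530880)) T0.l7
  (TrL.c (I.pos (nat_lit 0) (nat_lit 0)) T0.l13
  (TrL.c (I.pos (nat_lit 0) (nat_lit 0)) T5.l9
  (TrL.c (I.mix (nat_lit 41527258) (nat_lit 41530880)) (xR T0.l8 T0.l8)
  (TrL.c (I.mix (nat_lit 41527258) (nat_lit 4274)) T5.l10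
  TrL.n)))))))) (by decide +kernel)
theorem bx3_4 : BoxOK sI cl6 cl9 cl5 t5 t0 b3_4 :=
  box_mk (TrL.c (I.pos (nat_lit 0) (nat_lit 0)) (xa (xa (xb T5.l12 (xa T5.l12 T5.l12)) T5.l12) (xa T5.l12 T5.l12))
  (TrL.c (I.pos (nat_lit 0) (nat_lit 0)) (xa T0.l6 T0.l6)
  (TrL.c (I.pos (nat_lit 0) (nat_lit 89480386)) T5.l8
  (TrL.c (I.pos (nat_lit 0) (nat_lit 41530880)) T0.l7
  (TrL.c (I.pos (nat_lit 0) (nat_lit 0)) T0.l12
  (TrL.c (I.pos (nat_lit 0) (nat_lit 0)) T5.l9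
  (TrL.c (I.mix (nat_lit 41527258) (nat_lit 41530880)) T0.l8
  (TrL.c (I.mix (nat_lit 41527258) (nat_lit 4274)) T5.l10
  TrL.n)))))))) (by decide +kernel)
theorem bx3_5 : BoxOK sI cl6 cl9 cl5 t5 t0 b3_5 :=
  box_mk (TrL.c (I.pos (nat_lit 0) (nat_lit 0)) T5.l0
  (TrL.c (I.pos (nat_lit 0) (nat_lit 0)) T0.l6
  (TrL.c (I.pos (nat_lit 0) (nat_lit 89480386)) T5.l8
  (TrL.c (I.pos (nat_lit 0) (nat_lit 41530880)) T0.l7
  (TrL.c (I.pos (nat_lit 0) (nat_lit 0)) T0.l13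
  (TrL.c (I.pos (nat_lit 0) (nat_lit 0)) T5.l9
  (TrL.c (I.mix (nat_lit 41527258) (nat_lit 41530880)) T0.l8
  (TrL.c (I.mix (nat_lit 41527258) (nat_lit 4274)) T5.l10
  TrL.n)))))))) (by decide +kernel)
theorem bx3_6 : BoxOK sI cl6 cl9 cl5 t5 t0 b3_6 :=
  box_mk (TrL.c (I.pos (nat_lit 0) (nat_lit 0)) T5.l12
  (TrL.c (I.pos (nat_lit 0) (nat_lit 0)) T0.l6
  (TrL.c (I.pos (nat_lit 0) (nat_lit 89480386)) T5.l8
  (TrL.c (I.pos (nat_lit 0) (nat_lit 41530880)) T0.l7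
  (TrL.c (I.pos (nat_lit 0) (nat_lit 0)) T0.l12
  (TrL.c (I.pos (nat_lit 0) (nat_lit 0)) T5.l9
  (TrL.c (I.mix (nat_lit 41527258) (nat_lit 41530880)) T0.l8
  (TrL.c (I.mix (nat_lit 41527258) (nat_lit 4274)) T5.l10
  TrL.n)))))))) (by decide +kernel)
theorem bx3_7 : BoxOK sI cl6 cl9 cl5 t5 t0 b3_7 :=
  box_mk (TrL.c (I.pos (nat_lit 0) (nat_lit 0)) T5.l12
  (TrL.c (I.pos (nat_lit 0) (nat_lit 0)) T0.l6
  (TrL.c (I.pos (nat_lit 0) (nat_lit 89480386)) T5.l8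
  (TrL.c (I.pos (nat_lit 0) (nat_lit 41530880)) T0.l7
  (TrL.c (I.pos (nat_lit 0) (nat_lit 0)) T0.l12
  (TrL.c (I.pos (nat_lit 0) (nat_lit 0)) T5.l9
  (TrL.c (I.mix (nat_lit 41527258) (nat_lit 41530880)) T0.l8
  (TrL.c (I.mix (nat_lit 41527258) (nat_lit 4274)) T5.l10
  TrL.n)))))))) (by decide +kernel)
theorem bx3_8 : BoxOK sI cl6 cl9 cl5 t5 t0 b3_8 :=
  box_mk (TrL.c (I.pos (nat_lit 0) (nat_lit 0)) (xb T5.l13 T5.l13)
  (TrL.c (I.pos (nat_lit 0) (nat_lit 0)) T0.l6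
  (TrL.c (I.pos (nat_lit 0) (nat_lit 89480386)) T5.l8
  (TrL.c (I.pos (nat_lit 0) (nat_lit 41530880)) T0.l7
  (TrL.c (I.pos (nat_lit 0) (nat_lit 0)) T0.l13
  (TrL.c (I.pos (nat_lit 0) (nat_lit 0)) T5.l9
  (TrL.c (I.mix (nat_lit 41527258) (nat_lit 41530880)) (xR T0.l8 T0.l8)
  (TrL.c (I.mix (nat_lit 41527258) (nat_lit 4274)) T5.l10
  TrL.n)))))))) (by decide +kernel)
theorem bx3_9 : BoxOK sI cl6 cl9 cl5 t5 t0 b3_9 :=
  box_mk (TrL.c (I.pos (nat_lit 0) (nat_lit 0)) (xa (xa T5.l12 T5.l12) (xa T5.l12 T5.l12))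
  (TrL.c (I.pos (nat_lit 0) (nat_lit 0)) T0.l6
  (TrL.c (I.pos (nat_lit 0) (nat_lit 89480386)) T5.l8
  (TrL.c (I.pos (nat_lit 0) (nat_lit 41530880)) T0.l7
  (TrL.c (I.pos (nat_lit 0) (nat_lit 0)) T0.l12
  (TrL.c (I.pos (nat_lit 0) (nat_lit 0)) T5.l9
  (TrL.c (I.mix (nat_lit 41527258) (nat_lit 41530880)) T0.l8
  (TrL.c (I.mix (nat_lit 41527258) (nat_lit 4274)) T5.l10
  TrL.n)))))))) (by decide +kernel)
theorem bx3_10 : BoxOK sI cl6 cl9 cl5 t5 t0 b3_10 :=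
  box_mk (TrL.c (I.pos (nat_lit 0) (nat_lit 0)) (xb T5.l12 (xa T5.l12 T5.l12))
  (TrL.c (I.pos (nat_lit 0) (nat_lit 0)) T0.l6
  (TrL.c (I.pos (nat_lit 0) (nat_lit 89480386)) T5.l8
  (TrL.c (I.pos (nat_lit 0) (nat_lit 41530880)) T0.l7
  (TrL.c (I.pos (nat_lit 0) (nat_lit 0)) T0.l12
  (TrL.c (I.pos (nat_lit 0) (nat_lit 0)) T5.l9
  (TrL.c (I.mix (nat_lit 41527258) (nat_lit 41530880)) T0.l8
  (TrL.c (I.mix (nat_lit 41527258) (nat_lit 4274)) T5.l10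
  TrL.n)))))))) (by decide +kernel)
theorem bx3_11 : BoxOK sI cl6 cl9 cl5 t5 t0 b3_11 :=
  box_mk (TrL.c (I.pos (nat_lit 0) (nat_lit 0)) (xa (xa (xb T5.l12 T5.l12) T5.l12) T5.l12)
  (TrL.c (I.pos (nat_lit 0) (nat_lit 0)) T0.l6
  (TrL.c (I.pos (nat_lit 0) (nat_lit 89480386)) T5.l8
  (TrL.c (I.pos (nat_lit 0) (nat_lit 41530880)) T0.l7
  (TrL.c (I.pos (nat_lit 0) (nat_lit 0)) T0.l12
  (TrL.c (I.pos (nat_lit 0) (nat_lit 0)) T5.l9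
  (TrL.c (I.mix (nat_lit 41527258) (nat_lit 41530880)) T0.l8
  (TrL.c (I.mix (nat_lit 41527258) (nat_lit 4274)) T5.l10
  TrL.n)))))))) (by decide +kernel)
theorem bx3_12 : BoxOK sI cl6 cl9 cl5 t5 t0 b3_12 :=
  box_mk (TrL.c (I.pos (nat_lit 0) (nat_lit 0)) (xa (xb T5.l0 T5.l0) (xb T5.l0 T5.l0))
  (TrL.c (I.pos (nat_lit 0) (nat_lit 0)) T0.l6
  (TrL.c (I.pos (nat_lit 0) (nat_lit 89480386)) (xR T5.l8 T5.l8)
  (TrL.c (I.pos (nat_lit 0) (nat_lit 41530880)) T0.l7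
  (TrL.c (I.pos (nat_lit 0) (nat_lit 0)) (xa T0.l11 (xb T0.l11 T0.l11))
  (TrL.c (I.pos (nat_lit 0) (nat_lit 0)) T5.l9
  (TrL.c (I.mix (nat_lit 41527258) (nat_lit 41530880)) (xR T0.l8 T0.l1)
  (TrL.c (I.mix (nat_lit 41527258) (nat_lit 4274)) T5.l10
  TrL.n)))))))) (by decide +kernel)
theorem bx3_13 : BoxOK sI cl6 cl9 cl5 t5 t0 b3_13 :=
  box_mk (TrL.c (I.pos (nat_lit 0) (nat_lit 0)) (xa T5.l0 T5.l0)
  (TrL.c (I.pos (nat_lit 0) (nat_lit 0)) T0.l6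
  (TrL.c (I.pos (nat_lit 0) (nat_lit 89480386)) (xR T5.l8 T5.l8)
  (TrL.c (I.pos (nat_lit 0) (nat_lit 41530880)) T0.l7
  (TrL.c (I.pos (nat_lit 0) (nat_lit 0)) T0.l11
  (TrL.c (I.pos (nat_lit 0) (nat_lit 0)) T5.l9
  (TrL.c (I.mix (nat_lit 41527258) (nat_lit 41530880)) (xR T0.l8 T0.l8)
  (TrL.c (I.mix (nat_lit 41527258) (nat_lit 4274)) T5.l10
  TrL.n)))))))) (by decide +kernel)
theorem sv3 : StarV sI cl6 cl9 cl5 t5 t0 t3 :=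
  (bt_n (bt_n (bt_n (bt_b bx3_0) (bt_n (bt_b bx3_1) (bt_b bx3_2))) (bt_n (bt_n (bt_b bx3_3) (bt_b bx3_4)) (bt_n (bt_b bx3_5) (bt_b bx3_6)))) (bt_n (bt_n (bt_b bx3_7) (bt_n (bt_b bx3_8) (bt_b bx3_9))) (bt_n (bt_n (bt_b bx3_10) (bt_b bx3_11)) (bt_n (bt_b bx3_12) (bt_b bx3_13)))))
def S3 : StarD := StarD.mk cl6 cl9 cl5 5 0 t3
theorem bx4_0 : BoxOK sI cl9 cl5 cl6 t1 t3 b4_0 :=
  box_mk (TrL.c (I.pos (nat_lit 0) (nat_lit 0)) (xa (xb T1.l0 (xa T1.l0 T1.l0)) (xb T1.l0 (xa T1.l0 T1.l0)))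
  (TrL.c (I.pos (nat_lit 0) (nat_lit 0)) T3.l1
  (TrL.c (I.pos (nat_lit 0) (nat_lit 124588530)) (xR T1.l1 T1.l1)
  (TrL.c (I.pos (nat_lit 0) (nat_lit 96881482)) (xR T3.l2 T3.l2)
  (TrL.c (I.pos (nat_lit 0) (nat_lit 0)) (xa T3.l3 (xb T3.l3 (xk (xb T3.l3 T3.l3) (xb T3.l3 (xa T3.l0 T3.l3)))))
  (TrL.c (I.pos (nat_lit 0) (nat_lit 0)) T1.l2
  (TrL.c (I.mix (nat_lit 17240550) (nat_lit 96881482)) (xR T3.l4 T3.l4)
  (TrL.c (I.mix (nat_lit 17240550) (nat_lit 71940500)) (xR T1.l3 T1.l3)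
  TrL.n)))))))) (by decide +kernel)
theorem bx4_1 : BoxOK sI cl9 cl5 cl6 t1 t3 b4_1 :=
  box_mk (TrL.c (I.pos (nat_lit 0) (nat_lit 0)) (xa (xb T1.l4 T1.l4) T1.l0)
  (TrL.c (I.pos (nat_lit 0) (nat_lit 0)) T3.l1
  (TrL.c (I.pos (nat_lit 0) (nat_lit 124588530)) T1.l1
  (TrL.c (I.pos (nat_lit 0) (nat_lit 96881482)) T3.l2
  (TrL.c (I.pos (nat_lit 0) (nat_lit 0)) (xa T3.l5 T3.l5)
  (TrL.c (I.pos (nat_lit 0) (nat_lit 0)) T1.l2
  (TrL.c (I.mix (nat_lit 17240550) (nat_lit 96881482)) T3.l9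
  (TrL.c (I.mix (nat_lit 17240550) (nat_lit 71940500)) T1.l8
  TrL.n)))))))) (by decide +kernel)
theorem bx4_2 : BoxOK sI cl9 cl5 cl6 t1 t3 b4_2 :=
  box_mk (TrL.c (I.pos (nat_lit 0) (nat_lit 0)) T3.l1
  (TrL.c (I.pos (nat_lit 0) (nat_lit 0)) T1.l1
  (TrL.c (I.mix (nat_lit 17240550) (nat_lit 96881482)) (xR T3.l7 T3.l7)
  (TrL.c (I.mix (nat_lit 17240550) (nat_lit 71940500)) T1.l1
  TrL.n)))) (by decide +kernel)
theorem bx4_3 : BoxOK sI cl9 cl5 cl6 t1 t3 b4_3 :=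
  box_mk (TrL.c (I.pos (nat_lit 0) (nat_lit 0)) (xa (xb T1.l13 T1.l13) (xb T1.l13 T1.l13))
  (TrL.c (I.pos (nat_lit 0) (nat_lit 0)) T3.l1
  (TrL.c (I.pos (nat_lit 0) (nat_lit 124588530)) (xR T1.l1 T1.l1)
  (TrL.c (I.pos (nat_lit 0) (nat_lit 96881482)) (xR T3.l2 T3.l2)
  (TrL.c (I.pos (nat_lit 0) (nat_lit 0)) (xb T3.l8 T3.l8)
  (TrL.c (I.pos (nat_lit 0) (nat_lit 0)) T1.l2
  (TrL.c (I.mix (nat_lit 17240550) (nat_lit 96881482)) (xR T3.l4 T3.l4)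
  (TrL.c (I.mix (nat_lit 17240550) (nat_lit 71940500)) (xR T1.l3 T1.l3)
  TrL.n)))))))) (by decide +kernel)
theorem bx4_4 : BoxOK sI cl9 cl5 cl6 t1 t3 b4_4 :=
  box_mk (TrL.c (I.pos (nat_lit 0) (nat_lit 0)) (xb T1.l4 T1.l4)
  (TrL.c (I.pos (nat_lit 0) (nat_lit 0)) T3.l1
  (TrL.c (I.pos (nat_lit 0) (nat_lit 124588530)) T1.l1
  (TrL.c (I.pos (nat_lit 0) (nat_lit 96881482)) T3.l2
  (TrL.c (I.pos (nat_lit 0) (nat_lit 0)) T3.l5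
  (TrL.c (I.pos (nat_lit 0) (nat_lit 0)) T1.l2
  (TrL.c (I.mix (nat_lit 17240550) (nat_lit 96881482)) T3.l4
  (TrL.c (I.mix (nat_lit 17240550) (nat_lit 71940500)) T1.l3
  TrL.n)))))))) (by decide +kernel)
theorem bx4_5 : BoxOK sI cl9 cl5 cl6 t1 t3 b4_5 :=
  box_mk (TrL.c (I.pos (nat_lit 0) (nat_lit 0)) (xa T1.l4 T1.l4)
  (TrL.c (I.pos (nat_lit 0) (nat_lit 0)) T3.l1
  (TrL.c (I.pos (nat_lit 0) (nat_lit 124588530)) T1.l1
  (TrL.c (I.pos (nat_lit 0) (nat_lit 96881482)) T3.l2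
  (TrL.c (I.pos (nat_lit 0) (nat_lit 0)) T3.l5
  (TrL.c (I.pos (nat_lit 0) (nat_lit 0)) T1.l2
  (TrL.c (I.mix (nat_lit 17240550) (nat_lit 96881482)) T3.l4
  (TrL.c (I.mix (nat_lit 17240550) (nat_lit 71940500)) T1.l3
  TrL.n)))))))) (by decide +kernel)
theorem bx4_6 : BoxOK sI cl9 cl5 cl6 t1 t3 b4_6 :=
  box_mk (TrL.c (I.pos (nat_lit 0) (nat_lit 0)) (xb T1.l4 T1.l4)
  (TrL.c (I.pos (nat_lit 0) (nat_lit 0)) T3.l1
  (TrL.c (I.pos (nat_lit 0) (nat_lit 124588530)) T1.l1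
  (TrL.c (I.pos (nat_lit 0) (nat_lit 96881482)) T3.l2
  (TrL.c (I.pos (nat_lit 0) (nat_lit 0)) T3.l5
  (TrL.c (I.pos (nat_lit 0) (nat_lit 0)) T1.l2
  (TrL.c (I.mix (nat_lit 17240550) (nat_lit 96881482)) T3.l4
  (TrL.c (I.mix (nat_lit 17240550) (nat_lit 71940500)) T1.l3
  TrL.n)))))))) (by decide +kernel)
theorem bx4_7 : BoxOK sI cl9 cl5 cl6 t1 t3 b4_7 :=
  box_mk (TrL.c (I.pos (nat_lit 0) (nat_lit 0)) T3.l1
  (TrL.c (I.pos (nat_lit 0) (nat_lit 0)) T1.l1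
  (TrL.c (I.mix (nat_lit 17240550) (nat_lit 96881482)) (xR T3.l7 T3.l2)
  (TrL.c (I.mix (nat_lit 17240550) (nat_lit 71940500)) T1.l1
  TrL.n)))) (by decide +kernel)
theorem bx4_8 : BoxOK sI cl9 cl5 cl6 t1 t3 b4_8 :=
  box_mk (TrL.c (I.pos (nat_lit 0) (nat_lit 0)) T1.l13
  (TrL.c (I.pos (nat_lit 0) (nat_lit 0)) T3.l1
  (TrL.c (I.pos (nat_lit 0) (nat_lit 124588530)) T1.l1
  (TrL.c (I.pos (nat_lit 0) (nat_lit 96881482)) T3.l2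
  (TrL.c (I.pos (nat_lit 0) (nat_lit 0)) (xa T3.l8 T3.l8)
  (TrL.c (I.pos (nat_lit 0) (nat_lit 0)) T1.l2
  (TrL.c (I.mix (nat_lit 17240550) (nat_lit 96881482)) T3.l4
  (TrL.c (I.mix (nat_lit 17240550) (nat_lit 71940500)) T1.l3
  TrL.n)))))))) (by decide +kernel)
theorem bx4_9 : BoxOK sI cl9 cl5 cl6 t1 t3 b4_9 :=
  box_mk (TrL.c (I.pos (nat_lit 0) (nat_lit 0)) (xa (xb T1.l0 T1.l0) (xb T1.l0 T1.l0))
  (TrL.c (I.pos (nat_lit 0) (nat_lit 0)) T3.l1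
  (TrL.c (I.pos (nat_lit 0) (nat_lit 124588530)) (xR T1.l1 T1.l10)
  (TrL.c (I.pos (nat_lit 0) (nat_lit 96881482)) (xR T3.l2 T3.l2)
  (TrL.c (I.pos (nat_lit 0) (nat_lit 0)) (xa (xb (xk T3.l3 T3.l3) T3.l3) (xb (xk (xa T3.l3 T3.l3) (xa T3.l3 T3.l3)) (xk (xa T3.l3 T3.l3) (xa T3.l3 T3.l3))))
  (TrL.c (I.pos (nat_lit 0) (nat_lit 0)) T1.l2
  (TrL.c (I.mix (nat_lit 17240550) (nat_lit 96881482)) (xR T3.l4 T3.l4)
  (TrL.c (I.mix (nat_lit 17240550) (nat_lit 71940500)) (xR T1.l3 T1.l3)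
  TrL.n)))))))) (by decide +kernel)
theorem bx4_10 : BoxOK sI cl9 cl5 cl6 t1 t3 b4_10 :=
  box_mk (TrL.c (I.pos (nat_lit 0) (nat_lit 0)) (xa (xb T1.l0 T1.l0) (xb T1.l0 T1.l0))
  (TrL.c (I.pos (nat_lit 0) (nat_lit 0)) T3.l1
  (TrL.c (I.pos (nat_lit 0) (nat_lit 124588530)) (xR T1.l1 T1.l1)
  (TrL.c (I.pos (nat_lit 0) (nat_lit 96881482)) (xR T3.l2 T3.l2)
  (TrL.c (I.pos (nat_lit 0) (nat_lit 0)) (xa (xb T3.l3 (xk (xb T3.l0 T3.l0) (xb T3.l0 T3.l0))) (xk (xb T3.l3 (xb (xs T3.l3 T3.l3) (xs (xa T3.l0 T3.l3) (xa T3.l0 (xk T3.l0 T3.l0))))) (xb T3.l3 (xb (xs T3.l3 (xa T3.l0 T3.l0)) (xs (xa T3.l0 T3.l0) (xa (xk T3.l0 T3.l0) (xk T3.l0 (xb T3.l3 (xs T3.l0 T3.l0)))))))))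
  (TrL.c (I.pos (nat_lit 0) (nat_lit 0)) T1.l2
  (TrL.c (I.mix (nat_lit 17240550) (nat_lit 96881482)) (xR T3.l4 T3.l4)
  (TrL.c (I.mix (nat_lit 17240550) (nat_lit 71940500)) (xR T1.l3 T1.l3)
  TrL.n)))))))) (by decide +kernel)
theorem bx4_11 : BoxOK sI cl9 cl5 cl6 t1 t3 b4_11 :=
  box_mk (TrL.c (I.pos (nat_lit 0) (nat_lit 0)) (xb T1.l13 T1.l13)
  (TrL.c (I.pos (nat_lit 0) (nat_lit 0)) T3.l1
  (TrL.c (I.pos (nat_lit 0) (nat_lit 124588530)) (xR T1.l1 T1.l1)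
  (TrL.c (I.pos (nat_lit 0) (nat_lit 96881482)) (xR T3.l2 T3.l2)
  (TrL.c (I.pos (nat_lit 0) (nat_lit 0)) T3.l8
  (TrL.c (I.pos (nat_lit 0) (nat_lit 0)) T1.l2
  (TrL.c (I.mix (nat_lit 17240550) (nat_lit 96881482)) T3.l4
  (TrL.c (I.mix (nat_lit 17240550) (nat_lit 71940500)) T1.l8
  TrL.n)))))))) (by decide +kernel)
theorem sv4 : StarV sI cl9 cl5 cl6 t1 t3 t4 :=
  (bt_n (bt_n (bt_n (bt_b bx4_0) (bt_n (bt_b bx4_1) (bt_b bx4_2))) (bt_n (bt_b bx4_3) (bt_n (bt_b bx4_4) (bt_b bx4_5)))) (bt_n (bt_n (bt_b bx4_6) (bt_n (bt_b bx4_7) (bt_b bx4_8))) (bt_n (bt_b bx4_9) (bt_n (bt_b bx4_10) (bt_b bx4_11)))))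
def S4 : StarD := StarD.mk cl9 cl5 cl6 1 3 t4
theorem bx5_0 : BoxOK sI cl9 cl6 cl5 t3 t1 b5_0 :=
  box_mk (TrL.c (I.pos (nat_lit 0) (nat_lit 0)) (xa (xb T3.l0 (xa T3.l0 T3.l0)) (xb (xa T3.l0 T3.l0) (xa T3.l0 T3.l0)))
  (TrL.c (I.pos (nat_lit 0) (nat_lit 0)) T1.l7
  (TrL.c (I.pos (nat_lit 0) (nat_lit 124588530)) (xR T3.l9 T3.l9)
  (TrL.c (I.pos (nat_lit 0) (nat_lit 96881482)) (xR T1.l8 T1.l8)
  (TrL.c (I.pos (nat_lit 0) (nat_lit 0)) (xa (xb T1.l9 (xb T1.l12 T1.l12)) (xb T1.l9 (xk (xb T1.l12 (xa T1.l12 (xs T1.l12 (xk T1.l12 T1.l12)))) (xb (xa T1.l12 T1.l12) (xa T1.l12 (xs T1.l12 (xk (xb T1.l12 T1.l12) (xb T1.l12 (xa T1.l12 T1.l12)))))))))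
  (TrL.c (I.pos (nat_lit 0) (nat_lit 0)) T3.l10
  (TrL.c (I.mix (nat_lit 17240550) (nat_lit 96881482)) (xR T1.l10 T1.l10)
  (TrL.c (I.mix (nat_lit 17240550) (nat_lit 71940500)) (xR T3.l11 T3.l11)
  TrL.n)))))))) (by decide +kernel)
theorem bx5_1 : BoxOK sI cl9 cl6 cl5 t3 t1 b5_1 :=
  box_mk (TrL.c (I.pos (nat_lit 0) (nat_lit 0)) (xa T3.l12 T3.l12)
  (TrL.c (I.pos (nat_lit 0) (nat_lit 0)) T1.l7
  (TrL.c (I.pos (nat_lit 0) (nat_lit 124588530)) T3.l9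
  (TrL.c (I.pos (nat_lit 0) (nat_lit 96881482)) T1.l8
  (TrL.c (I.pos (nat_lit 0) (nat_lit 0)) (xa T1.l11 T1.l11)
  (TrL.c (I.pos (nat_lit 0) (nat_lit 0)) T3.l10
  (TrL.c (I.mix (nat_lit 17240550) (nat_lit 96881482)) T1.l10
  (TrL.c (I.mix (nat_lit 17240550) (nat_lit 71940500)) T3.l2
  TrL.n)))))))) (by decide +kernel)
theorem bx5_2 : BoxOK sI cl9 cl6 cl5 t3 t1 b5_2 :=
  box_mk (TrL.c (I.pos (nat_lit 0) (nat_lit 0)) T3.l12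
  (TrL.c (I.pos (nat_lit 0) (nat_lit 0)) T1.l7
  (TrL.c (I.pos (nat_lit 0) (nat_lit 124588530)) T3.l9
  (TrL.c (I.pos (nat_lit 0) (nat_lit 96881482)) T1.l8
  (TrL.c (I.pos (nat_lit 0) (nat_lit 0)) T1.l11
  (TrL.c (I.pos (nat_lit 0) (nat_lit 0)) T3.l10
  (TrL.c (I.mix (nat_lit 17240550) (nat_lit 96881482)) T1.l10
  (TrL.c (I.mix (nat_lit 17240550) (nat_lit 71940500)) T3.l11
  TrL.n)))))))) (by decide +kernel)
theorem bx5_3 : BoxOK sI cl9 cl6 cl5 t3 t1 b5_3 :=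
  box_mk (TrL.c (I.pos (nat_lit 0) (nat_lit 0)) (xa (xb T3.l13 T3.l13) (xb T3.l13 T3.l13))
  (TrL.c (I.pos (nat_lit 0) (nat_lit 0)) T1.l7
  (TrL.c (I.pos (nat_lit 0) (nat_lit 124588530)) (xR T3.l9 T3.l9)
  (TrL.c (I.pos (nat_lit 0) (nat_lit 96881482)) (xR T1.l8 T1.l8)
  (TrL.c (I.pos (nat_lit 0) (nat_lit 0)) (xb T1.l12 T1.l12)
  (TrL.c (I.pos (nat_lit 0) (nat_lit 0)) T3.l10
  (TrL.c (I.mix (nat_lit 17240550) (nat_lit 96881482)) (xR T1.l10 T1.l10)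
  (TrL.c (I.mix (nat_lit 17240550) (nat_lit 71940500)) (xR T3.l11 T3.l11)
  TrL.n)))))))) (by decide +kernel)
theorem bx5_4 : BoxOK sI cl9 cl6 cl5 t3 t1 b5_4 :=
  box_mk (TrL.c (I.pos (nat_lit 0) (nat_lit 0)) (xa (xa (xb T3.l12 T3.l12) T3.l12) T3.l12)
  (TrL.c (I.pos (nat_lit 0) (nat_lit 0)) T1.l7
  (TrL.c (I.pos (nat_lit 0) (nat_lit 124588530)) T3.l9
  (TrL.c (I.pos (nat_lit 0) (nat_lit 96881482)) T1.l8
  (TrL.c (I.pos (nat_lit 0) (nat_lit 0)) T1.l11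
  (TrL.c (I.pos (nat_lit 0) (nat_lit 0)) T3.l10
  (TrL.c (I.mix (nat_lit 17240550) (nat_lit 96881482)) T1.l10
  (TrL.c (I.mix (nat_lit 17240550) (nat_lit 71940500)) T3.l11
  TrL.n)))))))) (by decide +kernel)
theorem bx5_5 : BoxOK sI cl9 cl6 cl5 t3 t1 b5_5 :=
  box_mk (TrL.c (I.pos (nat_lit 0) (nat_lit 0)) T3.l0
  (TrL.c (I.pos (nat_lit 0) (nat_lit 0)) T1.l7
  (TrL.c (I.pos (nat_lit 0) (nat_lit 124588530)) T3.l9
  (TrL.c (I.pos (nat_lit 0) (nat_lit 96881482)) T1.l8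
  (TrL.c (I.pos (nat_lit 0) (nat_lit 0)) T1.l12
  (TrL.c (I.pos (nat_lit 0) (nat_lit 0)) T3.l10
  (TrL.c (I.mix (nat_lit 17240550) (nat_lit 96881482)) T1.l10
  (TrL.c (I.mix (nat_lit 17240550) (nat_lit 71940500)) T3.l11
  TrL.n)))))))) (by decide +kernel)
theorem bx5_6 : BoxOK sI cl9 cl6 cl5 t3 t1 b5_6 :=
  box_mk (TrL.c (I.pos (nat_lit 0) (nat_lit 0)) T3.l12
  (TrL.c (I.pos (nat_lit 0) (nat_lit 0)) T1.l7
  (TrL.c (I.pos (nat_lit 0) (nat_lit 124588530)) T3.l9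
  (TrL.c (I.pos (nat_lit 0) (nat_lit 96881482)) T1.l10
  (TrL.c (I.pos (nat_lit 0) (nat_lit 0)) T1.l11
  (TrL.c (I.pos (nat_lit 0) (nat_lit 0)) T3.l10
  (TrL.c (I.mix (nat_lit 17240550) (nat_lit 96881482)) T1.l10
  (TrL.c (I.mix (nat_lit 17240550) (nat_lit 71940500)) T3.l11
  TrL.n)))))))) (by decide +kernel)
theorem bx5_7 : BoxOK sI cl9 cl6 cl5 t3 t1 b5_7 :=
  box_mk (TrL.c (I.pos (nat_lit 0) (nat_lit 0)) T3.l12
  (TrL.c (I.pos (nat_lit 0) (nat_lit 0)) T1.l7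
  (TrL.c (I.pos (nat_lit 0) (nat_lit 124588530)) T3.l9
  (TrL.c (I.pos (nat_lit 0) (nat_lit 96881482)) T1.l8
  (TrL.c (I.pos (nat_lit 0) (nat_lit 0)) T1.l11
  (TrL.c (I.pos (nat_lit 0) (nat_lit 0)) T3.l10
  (TrL.c (I.mix (nat_lit 17240550) (nat_lit 96881482)) T1.l10
  (TrL.c (I.mix (nat_lit 17240550) (nat_lit 71940500)) T3.l11
  TrL.n)))))))) (by decide +kernel)
theorem bx5_8 : BoxOK sI cl9 cl6 cl5 t3 t1 b5_8 :=
  box_mk (TrL.c (I.pos (nat_lit 0) (nat_lit 0)) (xa (xa (xb T3.l12 (xa T3.l12 T3.l12)) T3.l12) (xa T3.l12 T3.l12))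
  (TrL.c (I.pos (nat_lit 0) (nat_lit 0)) T1.l7
  (TrL.c (I.pos (nat_lit 0) (nat_lit 124588530)) T3.l9
  (TrL.c (I.pos (nat_lit 0) (nat_lit 96881482)) T1.l8
  (TrL.c (I.pos (nat_lit 0) (nat_lit 0)) T1.l11
  (TrL.c (I.pos (nat_lit 0) (nat_lit 0)) T3.l10
  (TrL.c (I.mix (nat_lit 17240550) (nat_lit 96881482)) T1.l10
  (TrL.c (I.mix (nat_lit 17240550) (nat_lit 71940500)) T3.l11
  TrL.n)))))))) (by decide +kernel)
theorem bx5_9 : BoxOK sI cl9 cl6 cl5 t3 t1 b5_9 :=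
  box_mk (TrL.c (I.pos (nat_lit 0) (nat_lit 0)) (xb T3.l12 T3.l12)
  (TrL.c (I.pos (nat_lit 0) (nat_lit 0)) T1.l7
  (TrL.c (I.pos (nat_lit 0) (nat_lit 124588530)) T3.l9
  (TrL.c (I.pos (nat_lit 0) (nat_lit 96881482)) T1.l8
  (TrL.c (I.pos (nat_lit 0) (nat_lit 0)) T1.l11
  (TrL.c (I.pos (nat_lit 0) (nat_lit 0)) T3.l10
  (TrL.c (I.mix (nat_lit 17240550) (nat_lit 96881482)) T1.l10
  (TrL.c (I.mix (nat_lit 17240550) (nat_lit 71940500)) T3.l11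
  TrL.n)))))))) (by decide +kernel)
theorem bx5_10 : BoxOK sI cl9 cl6 cl5 t3 t1 b5_10 :=
  box_mk (TrL.c (I.pos (nat_lit 0) (nat_lit 0)) (xa (xb T3.l12 T3.l12) T3.l12)
  (TrL.c (I.pos (nat_lit 0) (nat_lit 0)) T1.l7
  (TrL.c (I.pos (nat_lit 0) (nat_lit 124588530)) T3.l9
  (TrL.c (I.pos (nat_lit 0) (nat_lit 96881482)) T1.l10
  (TrL.c (I.pos (nat_lit 0) (nat_lit 0)) T1.l7
  (TrL.c (I.pos (nat_lit 0) (nat_lit 0)) T3.l10
  (TrL.c (I.mix (nat_lit 17240550) (nat_lit 96881482)) T1.l10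
  (TrL.c (I.mix (nat_lit 17240550) (nat_lit 71940500)) T3.l11
  TrL.n)))))))) (by decide +kernel)
theorem bx5_11 : BoxOK sI cl9 cl6 cl5 t3 t1 b5_11 :=
  box_mk (TrL.c (I.pos (nat_lit 0) (nat_lit 0)) (xa T3.l13 T3.l13)
  (TrL.c (I.pos (nat_lit 0) (nat_lit 0)) T1.l7
  (TrL.c (I.pos (nat_lit 0) (nat_lit 124588530)) T3.l9
  (TrL.c (I.pos (nat_lit 0) (nat_lit 96881482)) T1.l8
  (TrL.c (I.pos (nat_lit 0) (nat_lit 0)) T1.l12
  (TrL.c (I.pos (nat_lit 0) (nat_lit 0)) T3.l10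
  (TrL.c (I.mix (nat_lit 17240550) (nat_lit 96881482)) (xR T1.l10 T1.l10)
  (TrL.c (I.mix (nat_lit 17240550) (nat_lit 71940500)) T3.l2
  TrL.n)))))))) (by decide +kernel)
theorem bx5_12 : BoxOK sI cl9 cl6 cl5 t3 t1 b5_12 :=
  box_mk (TrL.c (I.pos (nat_lit 0) (nat_lit 0)) (xa (xb T3.l0 T3.l0) (xb T3.l0 (xa T3.l0 T3.l0)))
  (TrL.c (I.pos (nat_lit 0) (nat_lit 0)) T1.l7
  (TrL.c (I.pos (nat_lit 0) (nat_lit 124588530)) (xR T3.l9 (xR T3.l9 T3.l4))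
  (TrL.c (I.pos (nat_lit 0) (nat_lit 96881482)) (xR T1.l8 T1.l8)
  (TrL.c (I.pos (nat_lit 0) (nat_lit 0)) (xa (xb T1.l9 T1.l9) (xb (xk (xa T1.l9 T1.l9) (xa T1.l9 T1.l9)) (xk (xa T1.l9 T1.l9) (xa T1.l9 T1.l9))))
  (TrL.c (I.pos (nat_lit 0) (nat_lit 0)) T3.l10
  (TrL.c (I.mix (nat_lit 17240550) (nat_lit 96881482)) (xR T1.l10 T1.l10)
  (TrL.c (I.mix (nat_lit 17240550) (nat_lit 71940500)) (xR T3.l11 T3.l11)
  TrL.n)))))))) (by decide +kernel)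
theorem bx5_13 : BoxOK sI cl9 cl6 cl5 t3 t1 b5_13 :=
  box_mk (TrL.c (I.pos (nat_lit 0) (nat_lit 0)) (xa (xb T3.l0 T3.l0) (xb T3.l0 T3.l0))
  (TrL.c (I.pos (nat_lit 0) (nat_lit 0)) T1.l7
  (TrL.c (I.pos (nat_lit 0) (nat_lit 124588530)) (xR T3.l9 T3.l9)
  (TrL.c (I.pos (nat_lit 0) (nat_lit 96881482)) (xR T1.l8 T1.l8)
  (TrL.c (I.pos (nat_lit 0) (nat_lit 0)) (xa (xb T1.l9 (xk T1.l12 T1.l12)) (xb T1.l9 (xk (xb T1.l9 (xs T1.l12 T1.l12)) (xb T1.l12 (xs T1.l12 (xa T1.l12 T1.l12))))))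
  (TrL.c (I.pos (nat_lit 0) (nat_lit 0)) T3.l10
  (TrL.c (I.mix (nat_lit 17240550) (nat_lit 96881482)) (xR T1.l10 T1.l10)
  (TrL.c (I.mix (nat_lit 17240550) (nat_lit 71940500)) (xR T3.l11 T3.l2)
  TrL.n)))))))) (by decide +kernel)
theorem sv5 : StarV sI cl9 cl6 cl5 t3 t1 t5 :=
  (bt_n (bt_n (bt_n (bt_b bx5_0) (bt_n (bt_b bx5_1) (bt_b bx5_2))) (bt_n (bt_n (bt_b bx5_3) (bt_b bx5_4)) (bt_n (bt_b bx5_5) (bt_b bx5_6)))) (bt_n (bt_n (bt_b bx5_7) (bt_n (bt_b bx5_8) (bt_b bx5_9))) (bt_n (bt_n (bt_b bx5_10) (bt_b bx5_11)) (bt_n (bt_b bx5_12) (bt_b bx5_13)))))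
def S5 : StarD := StarD.mk cl9 cl6 cl5 3 1 t5
def G : List StarD := [S0, S1, S2, S3, S4, S5]
theorem so0 : StarOK sI G S0 :=
  star_mk (by decide) (by decide) rfl rfl rfl rfl rfl rfl (rfl : _ = t2) (rfl : _ = t4)
  (st_mk (Pth.l (Pth.l (Pth.l Pth.z))) (nat_lit 191055835) (nat_lit 192004043) (by decide +kernel))
  (st_mk (Pth.l (Pth.l (Pth.l Pth.z))) (nat_lit 228053936) (nat_lit 229417983) (by decide +kernel))
  (st_mk (Pth.l (Pth.l (Pth.l Pth.z))) (nat_lit 271241640) (nat_lit 273196356) (by decide +kernel)) sv0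
theorem so1 : StarOK sI G S1 :=
  star_mk (by decide) (by decide) rfl rfl rfl rfl rfl rfl (rfl : _ = t4) (rfl : _ = t2)
  (st_mk (Pth.l (Pth.l (Pth.l Pth.z))) (nat_lit 117504789) (nat_lit 136554309) (by decide +kernel))
  (st_mk (Pth.l (Pth.l (Pth.l Pth.z))) (nat_lit 154127896) (nat_lit 173639255) (by decide +kernel))
  (st_mk (Pth.l (Pth.l (Pth.l Pth.z))) (nat_lit 195123424) (nat_lit 219021059) (by decide +kernel)) sv1
theorem so2 : StarOK sI G S2 :=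
  star_mk (by decide) (by decide) rfl rfl rfl rfl rfl rfl (rfl : _ = t0) (rfl : _ = t5)
  (st_mk (Pth.l (Pth.l (Pth.l Pth.z))) (nat_lit 243398456) (nat_lit 244358860) (by decide +kernel))
  (st_mk (Pth.l (Pth.l (Pth.l Pth.z))) (nat_lit 279931222) (nat_lit 281208001) (by decide +kernel))
  (st_mk (Pth.l (Pth.l (Pth.l Pth.z))) (nat_lit 322384834) (nat_lit 324090237) (by decide +kernel)) sv2
theorem so3 : StarOK sI G S3 :=
  star_mk (by decide) (by decide) rfl rfl rfl rfl rfl rfl (rfl : _ = t5) (rfl : _ = t0)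
  (st_mk (Pth.l (Pth.l (Pth.l Pth.z))) (nat_lit 116821231) (nat_lit 135553530) (by decide +kernel))
  (st_mk (Pth.l (Pth.l (Pth.l Pth.z))) (nat_lit 152944545) (nat_lit 171999577) (by decide +kernel))
  (st_mk (Pth.l (Pth.l (Pth.l Pth.z))) (nat_lit 195051989) (nat_lit 214540362) (by decide +kernel)) sv3
theorem so4 : StarOK sI G S4 :=
  star_mk (by decide) (by decide) rfl rfl rfl rfl rfl rfl (rfl : _ = t1) (rfl : _ = t3)
  (st_mk (Pth.l (Pth.l (Pth.l Pth.z))) (nat_lit 239409765) (nat_lit 241397078) (by decide +kernel))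
  (st_mk (Pth.l (Pth.l (Pth.l Pth.z))) (nat_lit 274732681) (nat_lit 277184070) (by decide +kernel))
  (st_mk (Pth.l (Pth.l (Pth.l Pth.z))) (nat_lit 315563696) (nat_lit 318634435) (by decide +kernel)) sv4
theorem so5 : StarOK sI G S5 :=
  star_mk (by decide) (by decide) rfl rfl rfl rfl rfl rfl (rfl : _ = t3) (rfl : _ = t1)
  (st_mk (Pth.l (Pth.l (Pth.l Pth.z))) (nat_lit 186785413) (nat_lit 188338867) (by decide +kernel))
  (st_mk (Pth.l (Pth.l (Pth.l Pth.z))) (nat_lit 222071103) (nat_lit 224048296) (by decide +kernel))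
  (st_mk (Pth.l (Pth.l (Pth.l Pth.z))) (nat_lit 262869900) (nat_lit 265431916) (by decide +kernel)) sv5
theorem ok : GroupOK (nat_lit 150274048) (nat_lit 209387520) G := grp_mk (allS_c so0 (allS_c so1 (allS_c so2 (allS_c so3 (allS_c so4 (allS_c so5 allS_n))))))
theorem cov : GCov G cl5 cl6 cl9 := cov_mk
  ⟨0, by decide, rfl, rfl, rfl⟩ ⟨1, by decide, rfl, rfl, rfl⟩ ⟨2, by decide, rfl, rfl, rfl⟩ ⟨3, by decide, rfl, rfl, rfl⟩ ⟨4, by decide, rfl, rfl, rfl⟩ ⟨5, by decide, rfl, rfl, rfl⟩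
end Q235_2

namespace Q235_3
def sI : I := I.pos (nat_lit 209321984) (nat_lit 268435456)
def b0_0 : Bx := Bx.mk (St.mk (I.pos (nat_lit 149684224) (nat_lit 231882752)) (I.mix (nat_lit 1835008) (nat_lit 65093632)) (I.mix (nat_lit 2129920) (nat_lit 77201408)) (I.pos (nat_lit 188039168) (nat_lit 305315840)) (I.mix (nat_lit 133742592) (nat_lit 78364672)) (I.mix (nat_lit 73760768) (nat_lit 67059712)) (I.mix (nat_lit 99254272) (nat_lit 100859904)))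
  false (nat_lit 26875137)
def b0_1 : Bx := Bx.mk (St.mk (I.mix (nat_lit 40566784) (nat_lit 97615872)) (I.mix (nat_lit 3407872) (nat_lit 42237952)) (I.mix (nat_lit 22183936) (nat_lit 6078464)) (I.pos (nat_lit 75792384) (nat_lit 126369792)) (I.mix (nat_lit 46612480) (nat_lit 62898176)) (I.mix (nat_lit 43073536) (nat_lit 36159488)) (I.mix (nat_lit 27557888) (nat_lit 17874944)))
  false (nat_lit 0)
def b0_2 : Bx := Bx.mk (St.mk (I.pos (nat_lit 78708736) (nat_lit 119341056)) (I.mix (nat_lit 56213504) (nat_lit 4161536)) (I.neg (nat_lit 14008320) (nat_lit 60882944)) (I.pos (nat_lit 111525888) (nat_lit 142852096)) (I.mix (nat_lit 102612992) (nat_lit 37470208)) (I.mix (nat_lit 39829504) (nat_lit 72990720)) (I.mix (nat_lit 26853376) (nat_lit 52215808)))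
  false (nat_lit 0)
def b0_3 : Bx := Bx.mk (St.mk (I.mix (nat_lit 48021504) (nat_lit 27852800)) (I.mix (nat_lit 33193984) (nat_lit 2916352)) (I.neg (nat_lit 3751936) (nat_lit 17645568)) (I.pos (nat_lit 82624512) (nat_lit 101400576)) (I.mix (nat_lit 45481984) (nat_lit 25624576)) (I.mix (nat_lit 22167552) (nat_lit 28442624)) (I.mix (nat_lit 11812864) (nat_lit 7946240)))
  false (nat_lit 0)
def b0_4 : Bx := Bx.mk (St.mk (I.pos (nat_lit 191922176) (nat_lit 269467648)) (I.mix (nat_lit 6602752) (nat_lit 37060608)) (I.mix (nat_lit 69140480) (nat_lit 21676032)) (I.pos (nat_lit 251412480) (nat_lit 375357440)) (I.mix (nat_lit 96190464) (nat_lit 61898752)) (I.mix (nat_lit 62636032) (nat_lit 55083008)) (I.mix (nat_lit 96878592) (nat_lit 96518144)))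
  false (nat_lit 0)
def b0_5 : Bx := Bx.mk (St.mk (I.mix (nat_lit 49512448) (nat_lit 6160384)) (I.mix (nat_lit 2457600) (nat_lit 11272192)) (I.neg (nat_lit 12009472) (nat_lit 19660800)) (I.pos (nat_lit 87048192) (nat_lit 98844672)) (I.mix (nat_lit 7372800) (nat_lit 15761408)) (I.mix (nat_lit 7045120) (nat_lit 6242304)) (I.mix (nat_lit 2637824) (nat_lit 3948544)))
  false (nat_lit 0)
def b0_6 : Bx := Bx.mk (St.mk (I.pos (nat_lit 82132992) (nat_lit 93962240)) (I.mix (nat_lit 2621440) (nat_lit 9437184)) (I.neg (nat_lit 11157504) (nat_lit 21610496)) (I.pos (nat_lit 113836032) (nat_lit 123158528)) (I.mix (nat_lit 9551872) (nat_lit 13680640)) (I.mix (nat_lit 7340032) (nat_lit 4997120)) (I.mix (nat_lit 5439488) (nat_lit 4063232)))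
  false (nat_lit 0)
def b0_7 : Bx := Bx.mk (St.mk (I.pos (nat_lit 67878912) (nat_lit 162004992)) (I.neg (nat_lit 3211264) (nat_lit 59260928)) (I.neg (nat_lit 11091968) (nat_lit 63356928)) (I.pos (nat_lit 114507776) (nat_lit 190103552)) (I.mix (nat_lit 111919104) (nat_lit 54640640)) (I.mix (nat_lit 46088192) (nat_lit 71958528)) (I.mix (nat_lit 30457856) (nat_lit 58720256)))
  false (nat_lit 0)
def b0_8 : Bx := Bx.mk (St.mk (I.mix (nat_lit 40402944) (nat_lit 47759360)) (I.mix (nat_lit 34209792) (nat_lit 7897088)) (I.neg (nat_lit 4423680) (nat_lit 21397504)) (I.pos (nat_lit 80822272) (nat_lit 102449152)) (I.mix (nat_lit 46825472) (nat_lit 37306368)) (I.mix (nat_lit 24559616) (nat_lit 34324480)) (I.mix (nat_lit 12959744) (nat_lit 13991936)))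
  false (nat_lit 0)
def b0_9 : Bx := Bx.mk (St.mk (I.mix (nat_lit 49381376) (nat_lit 87261184)) (I.mix (nat_lit 11567104) (nat_lit 40124416)) (I.mix (nat_lit 26296320) (nat_lit 4227072)) (I.pos (nat_lit 80510976) (nat_lit 113770496)) (I.mix (nat_lit 49004544) (nat_lit 61652992)) (I.mix (nat_lit 44187648) (nat_lit 35422208)) (I.mix (nat_lit 19283968) (nat_lit 19709952)))
  false (nat_lit 0)
def b0_10 : Bx := Bx.mk (St.mk (I.pos (nat_lit 181862400) (nat_lit 233308160)) (I.pos (nat_lit 10010624) (nat_lit 60866560)) (I.mix (nat_lit 10862592) (nat_lit 66322432)) (I.pos (nat_lit 251723776) (nat_lit 301514752)) (I.mix (nat_lit 105365504) (nat_lit 78233600)) (I.mix (nat_lit 78331904) (nat_lit 54820864)) (I.mix (nat_lit 124256256) (nat_lit 78462976)))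
  false (nat_lit 0)
def b0_11 : Bx := Bx.mk (St.mk (I.pos (nat_lit 158171136) (nat_lit 210255872)) (I.mix (nat_lit 1605632) (nat_lit 62603264)) (I.pos (nat_lit 720896) (nat_lit 74498048)) (I.pos (nat_lit 198180864) (nat_lit 267239424)) (I.mix (nat_lit 142491648) (nat_lit 58867712)) (I.mix (nat_lit 109821952) (nat_lit 79478784)) (I.mix (nat_lit 99581952) (nat_lit 73990144)))
  false (nat_lit 24485387)
def b0_12 : Bx := Bx.mk (St.mk (I.pos (nat_lit 132775936) (nat_lit 201736192)) (I.mix (nat_lit 38027264) (nat_lit 16531456)) (I.mix (nat_lit 47595520) (nat_lit 14958592)) (I.pos (nat_lit 161464320) (nat_lit 240287744)) (I.mix (nat_lit 74661888) (nat_lit 73908224)) (I.mix (nat_lit 72515584) (nat_lit 62816256)) (I.mix (nat_lit 72007680) (nat_lit 56508416)))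
  false (nat_lit 0)
def b0_13 : Bx := Bx.mk (St.mk (I.pos (nat_lit 158220288) (nat_lit 198066176)) (I.mix (nat_lit 7569408) (nat_lit 32014336)) (I.mix (nat_lit 10600448) (nat_lit 38502400)) (I.pos (nat_lit 199016448) (nat_lit 238501888)) (I.mix (nat_lit 113655808) (nat_lit 63963136)) (I.mix (nat_lit 107429888) (nat_lit 59736064)) (I.mix (nat_lit 104300544) (nat_lit 55525376)))
  false (nat_lit 0)
def t0 : BTr := (BTr.n (BTr.n (BTr.n (BTr.b b0_0) (BTr.n (BTr.b b0_1) (BTr.b b0_2))) (BTr.n (BTr.n (BTr.b b0_3) (BTr.b b0_4)) (BTr.n (BTr.b b0_5) (BTr.b b0_6)))) (BTr.n (BTr.n (BTr.b b0_7) (BTr.n (BTr.b b0_8) (BTr.b b0_9))) (BTr.n (BTr.n (BTr.b b0_10) (BTr.b b0_11)) (BTr.n (BTr.b b0_12) (BTr.b b0_13)))))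
namespace T0
def l0 : Tr := Tr.L (Pth.l (Pth.l (Pth.l Pth.z)))
def l1 : Tr := Tr.L (Pth.l (Pth.l (Pth.r (Pth.l Pth.z))))
def l2 : Tr := Tr.L (Pth.l (Pth.l (Pth.r (Pth.r Pth.z))))
def l3 : Tr := Tr.L (Pth.l (Pth.r (Pth.l (Pth.l Pth.z))))
def l4 : Tr := Tr.L (Pth.l (Pth.r (Pth.l (Pth.r Pth.z))))
def l5 : Tr := Tr.L (Pth.l (Pth.r (Pth.r (Pth.l Pth.z))))
def l6 : Tr := Tr.L (Pth.l (Pth.r (Pth.r (Pth.r Pth.z))))
def l7 : Tr := Tr.L (Pth.r (Pth.l (Pth.l Pth.z)))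
def l8 : Tr := Tr.L (Pth.r (Pth.l (Pth.r (Pth.l Pth.z))))
def l9 : Tr := Tr.L (Pth.r (Pth.l (Pth.r (Pth.r Pth.z))))
def l10 : Tr := Tr.L (Pth.r (Pth.r (Pth.l (Pth.l Pth.z))))
def l11 : Tr := Tr.L (Pth.r (Pth.r (Pth.l (Pth.r Pth.z))))
def l12 : Tr := Tr.L (Pth.r (Pth.r (Pth.r (Pth.l Pth.z))))
def l13 : Tr := Tr.L (Pth.r (Pth.r (Pth.r (Pth.r Pth.z))))
end T0
def b1_0 : Bx := Bx.mk (St.mk (I.pos (nat_lit 157466624) (nat_lit 234815488)) (I.mix (nat_lit 1490944) (nat_lit 51036160)) (I.mix (nat_lit 2244608) (nat_lit 81428480)) (I.pos (nat_lit 114540544) (nat_lit 246218752)) (I.mix (nat_lit 116932608) (nat_lit 71221248)) (I.mix (nat_lit 78069760) (nat_lit 69042176)) (I.mix (nat_lit 105644032) (nat_lit 95059968)))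
  false (nat_lit 35174121)
def b1_1 : Bx := Bx.mk (St.mk (I.mix (nat_lit 12959744) (nat_lit 131481600)) (I.mix (nat_lit 2899968) (nat_lit 29884416)) (I.mix (nat_lit 9125888) (nat_lit 20496384)) (I.pos (nat_lit 15253504) (nat_lit 100237312)) (I.mix (nat_lit 47284224) (nat_lit 40173568)) (I.mix (nat_lit 29638656) (nat_lit 27213824)) (I.mix (nat_lit 22609920) (nat_lit 19972096)))
  false (nat_lit 0)
def b1_2 : Bx := Bx.mk (St.mk (I.pos (nat_lit 105414656) (nat_lit 149667840)) (I.mix (nat_lit 49512448) (nat_lit 3915776)) (I.neg (nat_lit 786432) (nat_lit 53526528)) (I.pos (nat_lit 63782912) (nat_lit 120733696)) (I.mix (nat_lit 101122048) (nat_lit 38502400)) (I.mix (nat_lit 44367872) (nat_lit 76906496)) (I.mix (nat_lit 31981568) (nat_lit 62308352)))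
  false (nat_lit 273854)
def b1_3 : Bx := Bx.mk (St.mk (I.mix (nat_lit 21233664) (nat_lit 92094464)) (I.mix (nat_lit 27361280) (nat_lit 999424)) (I.mix (nat_lit 19152896) (nat_lit 638976)) (I.pos (nat_lit 16596992) (nat_lit 67584000)) (I.mix (nat_lit 43286528) (nat_lit 23314432)) (I.mix (nat_lit 21250048) (nat_lit 29802496)) (I.mix (nat_lit 11304960) (nat_lit 15515648)))
  false (nat_lit 0)
def b1_4 : Bx := Bx.mk (St.mk (I.pos (nat_lit 192462848) (nat_lit 267403264)) (I.mix (nat_lit 7602176) (nat_lit 32096256)) (I.mix (nat_lit 31391744) (nat_lit 45498368)) (I.pos (nat_lit 187744256) (nat_lit 319045632)) (I.mix (nat_lit 90800128) (nat_lit 47742976)) (I.mix (nat_lit 56360960) (nat_lit 43499520)) (I.mix (nat_lit 90406912) (nat_lit 73236480)))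
  false (nat_lit 13182417)
def b1_5 : Bx := Bx.mk (St.mk (I.pos (nat_lit 109264896) (nat_lit 127778816)) (I.mix (nat_lit 2211840) (nat_lit 7503872)) (I.mix (nat_lit 8470528) (nat_lit 1261568)) (I.pos (nat_lit 65093632) (nat_lit 98648064)) (I.mix (nat_lit 8732672) (nat_lit 11010048)) (I.mix (nat_lit 6258688) (nat_lit 4128768)) (I.mix (nat_lit 5619712) (nat_lit 3047424)))
  false (nat_lit 0)
def b1_6 : Bx := Bx.mk (St.mk (I.mix (nat_lit 19824640) (nat_lit 29523968)) (I.mix (nat_lit 65536) (nat_lit 2834432)) (I.neg (nat_lit 327680) (nat_lit 3325952)) (I.pos (nat_lit 17760256) (nat_lit 40173568)) (I.mix (nat_lit 98304) (nat_lit 3260416)) (I.mix (nat_lit 966656) (nat_lit 720896)) (I.mix (nat_lit 655360) (nat_lit 622592)))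
  false (nat_lit 0)
def b1_7 : Bx := Bx.mk (St.mk (I.pos (nat_lit 94093312) (nat_lit 183648256)) (I.neg (nat_lit 737280) (nat_lit 54935552)) (I.neg (nat_lit 2801664) (nat_lit 56999936)) (I.pos (nat_lit 72777728) (nat_lit 165576704)) (I.mix (nat_lit 98549760) (nat_lit 53608448)) (I.mix (nat_lit 46825472) (nat_lit 67600384)) (I.mix (nat_lit 39288832) (nat_lit 63373312)))
  false (nat_lit 39942141)
def b1_8 : Bx := Bx.mk (St.mk (I.mix (nat_lit 37273600) (nat_lit 105463808)) (I.mix (nat_lit 30670848) (nat_lit 6963200)) (I.mix (nat_lit 23576576) (nat_lit 2228224)) (I.pos (nat_lit 14254080) (nat_lit 77447168)) (I.mix (nat_lit 53051392) (nat_lit 34553856)) (I.mix (nat_lit 24576000) (nat_lit 34586624)) (I.mix (nat_lit 15056896) (nat_lit 20512768)))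
  false (nat_lit 0)
def b1_9 : Bx := Bx.mk (St.mk (I.pos (nat_lit 165511168) (nat_lit 212746240)) (I.mix (nat_lit 12435456) (nat_lit 46350336)) (I.pos (nat_lit 114688) (nat_lit 73203712)) (I.pos (nat_lit 131465216) (nat_lit 210747392)) (I.mix (nat_lit 133988352) (nat_lit 60375040)) (I.mix (nat_lit 112967680) (nat_lit 73154560)) (I.mix (nat_lit 125304832) (nat_lit 76038144)))
  false (nat_lit 0)
def b1_10 : Bx := Bx.mk (St.mk (I.mix (nat_lit 27770880) (nat_lit 125140992)) (I.mix (nat_lit 13123584) (nat_lit 36290560)) (I.mix (nat_lit 10911744) (nat_lit 25493504)) (I.pos (nat_lit 15794176) (nat_lit 93487104)) (I.mix (nat_lit 67846144) (nat_lit 38223872)) (I.mix (nat_lit 52445184) (nat_lit 36421632)) (I.mix (nat_lit 31375360) (nat_lit 22822912)))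
  false (nat_lit 0)
def b1_11 : Bx := Bx.mk (St.mk (I.pos (nat_lit 140165120) (nat_lit 205996032)) (I.mix (nat_lit 38256640) (nat_lit 6291456)) (I.mix (nat_lit 41320448) (nat_lit 17039360)) (I.pos (nat_lit 104529920) (nat_lit 192872448)) (I.mix (nat_lit 63422464) (nat_lit 57507840)) (I.mix (nat_lit 55541760) (nat_lit 48218112)) (I.mix (nat_lit 61259776) (nat_lit 51183616)))
  false (nat_lit 43325326)
def b1_12 : Bx := Bx.mk (St.mk (I.pos (nat_lit 166395904) (nat_lit 206635008)) (I.mix (nat_lit 14303232) (nat_lit 22085632)) (I.mix (nat_lit 3883008) (nat_lit 40697856)) (I.pos (nat_lit 132448256) (nat_lit 194002944)) (I.mix (nat_lit 89833472) (nat_lit 54312960)) (I.mix (nat_lit 84508672) (nat_lit 52903936)) (I.mix (nat_lit 94765056) (nat_lit 57507840)))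
  false (nat_lit 0)
def b1_13 : Bx := Bx.mk (St.mk (I.pos (nat_lit 185286656) (nat_lit 235257856)) (I.pos (nat_lit 11141120) (nat_lit 48742400)) (I.pos (nat_lit 16580608) (nat_lit 77398016)) (I.pos (nat_lit 185384960) (nat_lit 243761152)) (I.mix (nat_lit 97107968) (nat_lit 72171520)) (I.mix (nat_lit 76316672) (nat_lit 55066624)) (I.mix (nat_lit 118390784) (nat_lit 66863104)))
  false (nat_lit 25380305)
def t1 : BTr := (BTr.n (BTr.n (BTr.n (BTr.b b1_0) (BTr.n (BTr.b b1_1) (BTr.b b1_2))) (BTr.n (BTr.n (BTr.b b1_3) (BTr.b b1_4)) (BTr.n (BTr.b b1_5) (BTr.b b1_6)))) (BTr.n (BTr.n (BTr.b b1_7) (BTr.n (BTr.b b1_8) (BTr.b b1_9))) (BTr.n (BTr.n (BTr.b b1_10) (BTr.b b1_11)) (BTr.n (BTr.b b1_12) (BTr.b b1_13)))))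
namespace T1
def l0 : Tr := Tr.L (Pth.l (Pth.l (Pth.l Pth.z)))
def l1 : Tr := Tr.L (Pth.l (Pth.l (Pth.r (Pth.l Pth.z))))
def l2 : Tr := Tr.L (Pth.l (Pth.l (Pth.r (Pth.r Pth.z))))
def l3 : Tr := Tr.L (Pth.l (Pth.r (Pth.l (Pth.l Pth.z))))
def l4 : Tr := Tr.L (Pth.l (Pth.r (Pth.l (Pth.r Pth.z))))
def l5 : Tr := Tr.L (Pth.l (Pth.r (Pth.r (Pth.l Pth.z))))
def l6 : Tr := Tr.L (Pth.l (Pth.r (Pth.r (Pth.r Pth.z))))
def l7 : Tr := Tr.L (Pth.r (Pth.l (Pth.l Pth.z)))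
def l8 : Tr := Tr.L (Pth.r (Pth.l (Pth.r (Pth.l Pth.z))))
def l9 : Tr := Tr.L (Pth.r (Pth.l (Pth.r (Pth.r Pth.z))))
def l10 : Tr := Tr.L (Pth.r (Pth.r (Pth.l (Pth.l Pth.z))))
def l11 : Tr := Tr.L (Pth.r (Pth.r (Pth.l (Pth.r Pth.z))))
def l12 : Tr := Tr.L (Pth.r (Pth.r (Pth.r (Pth.l Pth.z))))
def l13 : Tr := Tr.L (Pth.r (Pth.r (Pth.r (Pth.r Pth.z))))
end T1
def b2_0 : Bx := Bx.mk (St.mk (I.pos (nat_lit 146702336) (nat_lit 225918976)) (I.mix (nat_lit 2048000) (nat_lit 71942144)) (I.mix (nat_lit 2359296) (nat_lit 84426752)) (I.pos (nat_lit 240566272) (nat_lit 349913088)) (I.mix (nat_lit 134774784) (nat_lit 89538560)) (I.mix (nat_lit 74465280) (nat_lit 71385088)) (I.mix (nat_lit 105037824) (nat_lit 103563264)))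
  false (nat_lit 49909671)
def b2_1 : Bx := Bx.mk (St.mk (I.pos (nat_lit 23937024) (nat_lit 77365248)) (I.mix (nat_lit 11173888) (nat_lit 45236224)) (I.neg (nat_lit 2277376) (nat_lit 31784960)) (I.pos (nat_lit 143196160) (nat_lit 164511744)) (I.mix (nat_lit 37847040) (nat_lit 62734336)) (I.mix (nat_lit 42762240) (nat_lit 33669120)) (I.mix (nat_lit 24068096) (nat_lit 13598720)))
  false (nat_lit 0)
def b2_2 : Bx := Bx.mk (St.mk (I.pos (nat_lit 46186496) (nat_lit 96288768)) (I.mix (nat_lit 60129280) (nat_lit 11354112)) (I.neg (nat_lit 17022976) (nat_lit 60243968)) (I.pos (nat_lit 146751488) (nat_lit 180535296)) (I.mix (nat_lit 104038400) (nat_lit 37568512)) (I.mix (nat_lit 36929536) (nat_lit 76136448)) (I.mix (nat_lit 29622272) (nat_lit 46137344)))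
  false (nat_lit 0)
def b2_3 : Bx := Bx.mk (St.mk (I.neg (nat_lit 23855104) (nat_lit 77365248)) (I.mix (nat_lit 45236224) (nat_lit 13025280)) (I.neg (nat_lit 2211840) (nat_lit 32129024)) (I.pos (nat_lit 143196160) (nat_lit 164511744)) (I.mix (nat_lit 62734336) (nat_lit 37847040)) (I.mix (nat_lit 33669120) (nat_lit 42762240)) (I.mix (nat_lit 24068096) (nat_lit 13598720)))
  true (nat_lit 0)
def b2_4 : Bx := Bx.mk (St.mk (I.pos (nat_lit 56442880) (nat_lit 152387584)) (I.neg (nat_lit 4980736) (nat_lit 70057984)) (I.neg (nat_lit 5980160) (nat_lit 69517312)) (I.pos (nat_lit 157040640) (nat_lit 232144896)) (I.mix (nat_lit 113328128) (nat_lit 65241088)) (I.mix (nat_lit 55263232) (nat_lit 73449472)) (I.mix (nat_lit 45744128) (nat_lit 63832064)))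
  false (nat_lit 0)
def b2_5 : Bx := Bx.mk (St.mk (I.mix (nat_lit 40124416) (nat_lit 8486912)) (I.mix (nat_lit 39911424) (nat_lit 9682944)) (I.neg (nat_lit 3211264) (nat_lit 10665984)) (I.pos (nat_lit 141393920) (nat_lit 154222592)) (I.mix (nat_lit 35880960) (nat_lit 44580864)) (I.mix (nat_lit 28033024) (nat_lit 38699008)) (I.mix (nat_lit 6979584) (nat_lit 7340032)))
  true (nat_lit 0)
def b2_6 : Bx := Bx.mk (St.mk (I.pos (nat_lit 146276352) (nat_lit 195854336)) (I.pos (nat_lit 3260416) (nat_lit 61161472)) (I.pos (nat_lit 8454144) (nat_lit 75563008)) (I.pos (nat_lit 235896832) (nat_lit 301268992)) (I.mix (nat_lit 139165696) (nat_lit 50003968)) (I.mix (nat_lit 115392512) (nat_lit 65667072)) (I.mix (nat_lit 107937792) (nat_lit 71319552)))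
  false (nat_lit 0)
def b2_7 : Bx := Bx.mk (St.mk (I.mix (nat_lit 8486912) (nat_lit 40124416)) (I.mix (nat_lit 9682944) (nat_lit 39911424)) (I.neg (nat_lit 3211264) (nat_lit 10665984)) (I.pos (nat_lit 141393920) (nat_lit 154222592)) (I.mix (nat_lit 44580864) (nat_lit 35880960)) (I.mix (nat_lit 38699008) (nat_lit 28033024)) (I.mix (nat_lit 6979584) (nat_lit 7340032)))
  false (nat_lit 0)
def b2_8 : Bx := Bx.mk (St.mk (I.pos (nat_lit 184975360) (nat_lit 288358400)) (I.mix (nat_lit 28803072) (nat_lit 45219840)) (I.mix (nat_lit 122863616) (nat_lit 29442048)) (I.pos (nat_lit 294813696) (nat_lit 461504512)) (I.mix (nat_lit 94715904) (nat_lit 65077248)) (I.mix (nat_lit 63782912) (nat_lit 59785216)) (I.mix (nat_lit 114933760) (nat_lit 114606080)))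
  false (nat_lit 20034623)
def b2_9 : Bx := Bx.mk (St.mk (I.pos (nat_lit 119226368) (nat_lit 195821568)) (I.mix (nat_lit 40599552) (nat_lit 23019520)) (I.mix (nat_lit 43876352) (nat_lit 25952256)) (I.pos (nat_lit 200065024) (nat_lit 286277632)) (I.mix (nat_lit 75481088) (nat_lit 69058560)) (I.mix (nat_lit 66633728) (nat_lit 59883520)) (I.mix (nat_lit 66846720) (nat_lit 56492032)))
  false (nat_lit 0)
def b2_10 : Bx := Bx.mk (St.mk (I.pos (nat_lit 146522112) (nat_lit 189366272)) (I.mix (nat_lit 6946816) (nat_lit 41189376)) (I.mix (nat_lit 7553024) (nat_lit 52789248)) (I.pos (nat_lit 237961216) (nat_lit 283574272)) (I.mix (nat_lit 128909312) (nat_lit 70434816)) (I.mix (nat_lit 118898688) (nat_lit 63209472)) (I.mix (nat_lit 115097600) (nat_lit 64208896)))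
  false (nat_lit 0)
def b2_11 : Bx := Bx.mk (St.mk (I.pos (nat_lit 169771008) (nat_lit 226525184)) (I.pos (nat_lit 13959168) (nat_lit 71876608)) (I.mix (nat_lit 4964352) (nat_lit 80936960)) (I.pos (nat_lit 286392320) (nat_lit 343965696)) (I.mix (nat_lit 120340480) (nat_lit 94109696)) (I.mix (nat_lit 83918848) (nat_lit 70795264)) (I.mix (nat_lit 129613824) (nat_lit 100335616)))
  false (nat_lit 41966149)
def t2 : BTr := (BTr.n (BTr.n (BTr.n (BTr.b b2_0) (BTr.n (BTr.b b2_1) (BTr.b b2_2))) (BTr.n (BTr.b b2_3) (BTr.n (BTr.b b2_4) (BTr.b b2_5)))) (BTr.n (BTr.n (BTr.b b2_6) (BTr.n (BTr.b b2_7) (BTr.b b2_8))) (BTr.n (BTr.b b2_9) (BTr.n (BTr.b b2_10) (BTr.b b2_11)))))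
namespace T2
def l0 : Tr := Tr.L (Pth.l (Pth.l (Pth.l Pth.z)))
def l1 : Tr := Tr.L (Pth.l (Pth.l (Pth.r (Pth.l Pth.z))))
def l2 : Tr := Tr.L (Pth.l (Pth.l (Pth.r (Pth.r Pth.z))))
def l3 : Tr := Tr.L (Pth.l (Pth.r (Pth.l Pth.z)))
def l4 : Tr := Tr.L (Pth.l (Pth.r (Pth.r (Pth.l Pth.z))))
def l5 : Tr := Tr.L (Pth.l (Pth.r (Pth.r (Pth.r Pth.z))))
def l6 : Tr := Tr.L (Pth.r (Pth.l (Pth.l Pth.z)))
def l7 : Tr := Tr.L (Pth.r (Pth.l (Pth.r (Pth.l Pth.z))))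
def l8 : Tr := Tr.L (Pth.r (Pth.l (Pth.r (Pth.r Pth.z))))
def l9 : Tr := Tr.L (Pth.r (Pth.r (Pth.l Pth.z)))
def l10 : Tr := Tr.L (Pth.r (Pth.r (Pth.r (Pth.l Pth.z))))
def l11 : Tr := Tr.L (Pth.r (Pth.r (Pth.r (Pth.r Pth.z))))
end T2
def b3_0 : Bx := Bx.mk (St.mk (I.pos (nat_lit 154927104) (nat_lit 233586688)) (I.mix (nat_lit 1409024) (nat_lit 46186496)) (I.mix (nat_lit 2490368) (nat_lit 89751552)) (I.pos (nat_lit 113983488) (nat_lit 237912064)) (I.mix (nat_lit 113262592) (nat_lit 68583424)) (I.mix (nat_lit 79593472) (nat_lit 66846720)) (I.mix (nat_lit 103104512) (nat_lit 87703552)))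
  false (nat_lit 15483760)
def b3_1 : Bx := Bx.mk (St.mk (I.pos (nat_lit 95158272) (nat_lit 176635904)) (I.mix (nat_lit 57753600) (nat_lit 32768)) (I.neg (nat_lit 1261568) (nat_lit 52330496)) (I.pos (nat_lit 76660736) (nat_lit 156336128)) (I.mix (nat_lit 100106240) (nat_lit 60211200)) (I.mix (nat_lit 56688640) (nat_lit 64552960)) (I.mix (nat_lit 44089344) (nat_lit 59015168)))
  false (nat_lit 62850076)
def b3_2 : Bx := Bx.mk (St.mk (I.mix (nat_lit 33636352) (nat_lit 103415808)) (I.mix (nat_lit 31145984) (nat_lit 4816896)) (I.mix (nat_lit 18055168) (nat_lit 4997120)) (I.pos (nat_lit 14811136) (nat_lit 75726848)) (I.mix (nat_lit 47595520) (nat_lit 36700160)) (I.mix (nat_lit 25247744) (nat_lit 29900800)) (I.mix (nat_lit 14893056) (nat_lit 17629184)))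
  false (nat_lit 0)
def b3_3 : Bx := Bx.mk (St.mk (I.pos (nat_lit 162086912) (nat_lit 210370560)) (I.mix (nat_lit 15302656) (nat_lit 45072384)) (I.pos (nat_lit 6782976) (nat_lit 82657280)) (I.pos (nat_lit 121618432) (nat_lit 202571776)) (I.mix (nat_lit 140771328) (nat_lit 62652416)) (I.mix (nat_lit 111935488) (nat_lit 75399168)) (I.mix (nat_lit 126107648) (nat_lit 71270400)))
  false (nat_lit 5452501)
def b3_4 : Bx := Bx.mk (St.mk (I.mix (nat_lit 23281664) (nat_lit 124010496)) (I.mix (nat_lit 9584640) (nat_lit 37044224)) (I.mix (nat_lit 4341760) (nat_lit 32096256)) (I.pos (nat_lit 15925248) (nat_lit 92438528)) (I.mix (nat_lit 73007104) (nat_lit 37666816)) (I.mix (nat_lit 54886400) (nat_lit 36995072)) (I.mix (nat_lit 34340864) (nat_lit 22511616)))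
  false (nat_lit 0)
def b3_5 : Bx := Bx.mk (St.mk (I.pos (nat_lit 152698880) (nat_lit 210649088)) (I.mix (nat_lit 34684928) (nat_lit 9682944)) (I.mix (nat_lit 23347200) (nat_lit 33472512)) (I.pos (nat_lit 114737152) (nat_lit 198524928)) (I.mix (nat_lit 63897600) (nat_lit 74301440)) (I.mix (nat_lit 68698112) (nat_lit 61751296)) (I.mix (nat_lit 68780032) (nat_lit 65552384)))
  false (nat_lit 51047747)
def b3_6 : Bx := Bx.mk (St.mk (I.pos (nat_lit 150716416) (nat_lit 176521216)) (I.neg (nat_lit 11927552) (nat_lit 36438016)) (I.neg (nat_lit 1998848) (nat_lit 28393472)) (I.pos (nat_lit 113901568) (nat_lit 156254208)) (I.mix (nat_lit 30228480) (nat_lit 16809984)) (I.mix (nat_lit 11501568) (nat_lit 15417344)) (I.mix (nat_lit 11157504) (nat_lit 15400960)))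
  false (nat_lit 0)
def b3_7 : Bx := Bx.mk (St.mk (I.mix (nat_lit 25788416) (nat_lit 103727104)) (I.mix (nat_lit 14778368) (nat_lit 2834432)) (I.mix (nat_lit 6815744) (nat_lit 4882432)) (I.pos (nat_lit 16728064) (nat_lit 75743232)) (I.mix (nat_lit 10289152) (nat_lit 11698176)) (I.mix (nat_lit 5849088) (nat_lit 5701632)) (I.mix (nat_lit 3358720) (nat_lit 3670016)))
  false (nat_lit 0)
def b3_8 : Bx := Bx.mk (St.mk (I.mix (nat_lit 14286848) (nat_lit 135168000)) (I.mix (nat_lit 8601600) (nat_lit 25772032)) (I.mix (nat_lit 7553024) (nat_lit 24117248)) (I.pos (nat_lit 15106048) (nat_lit 103366656)) (I.mix (nat_lit 44482560) (nat_lit 38600704)) (I.mix (nat_lit 33112064) (nat_lit 27525120)) (I.mix (nat_lit 25591808) (nat_lit 20987904)))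
  false (nat_lit 0)
def b3_9 : Bx := Bx.mk (St.mk (I.pos (nat_lit 101859328) (nat_lit 156794880)) (I.mix (nat_lit 53067776) (nat_lit 8290304)) (I.mix (nat_lit 48070656) (nat_lit 8601600)) (I.pos (nat_lit 62521344) (nat_lit 127549440)) (I.mix (nat_lit 102973440) (nat_lit 48087040)) (I.mix (nat_lit 48513024) (nat_lit 82231296)) (I.mix (nat_lit 36421632) (nat_lit 63012864)))
  false (nat_lit 30259189)
def b3_10 : Bx := Bx.mk (St.mk (I.mix (nat_lit 23642112) (nat_lit 94797824)) (I.mix (nat_lit 26869760) (nat_lit 4308992)) (I.mix (nat_lit 14385152) (nat_lit 5095424)) (I.pos (nat_lit 16580608) (nat_lit 68337664)) (I.mix (nat_lit 42254336) (nat_lit 29016064)) (I.mix (nat_lit 22528000) (nat_lit 29556736)) (I.mix (nat_lit 11632640) (nat_lit 14614528)))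
  false (nat_lit 0)
def b3_11 : Bx := Bx.mk (St.mk (I.pos (nat_lit 196788224) (nat_lit 287522816)) (I.mix (nat_lit 25509888) (nat_lit 35209216)) (I.mix (nat_lit 49954816) (nat_lit 72384512)) (I.pos (nat_lit 186548224) (nat_lit 358432768)) (I.mix (nat_lit 79675392) (nat_lit 66699264)) (I.mix (nat_lit 67059712) (nat_lit 57491456)) (I.mix (nat_lit 120995840) (nat_lit 97796096)))
  false (nat_lit 41522400)
def b3_12 : Bx := Bx.mk (St.mk (I.pos (nat_lit 180518912) (nat_lit 230342656)) (I.pos (nat_lit 14041088) (nat_lit 45105152)) (I.pos (nat_lit 33456128) (nat_lit 87572480)) (I.pos (nat_lit 171622400) (nat_lit 231227392)) (I.mix (nat_lit 95731712) (nat_lit 68845568)) (I.mix (nat_lit 74792960) (nat_lit 58966016)) (I.mix (nat_lit 116015104) (nat_lit 74891264)))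
  false (nat_lit 1773463)
def b3_13 : Bx := Bx.mk (St.mk (I.pos (nat_lit 164937728) (nat_lit 204226560)) (I.mix (nat_lit 20938752) (nat_lit 19759104)) (I.mix (nat_lit 704512) (nat_lit 49938432)) (I.pos (nat_lit 127254528) (nat_lit 189120512)) (I.mix (nat_lit 101548032) (nat_lit 56803328)) (I.mix (nat_lit 96944128) (nat_lit 50429952)) (I.mix (nat_lit 107020288) (nat_lit 51855360)))
  false (nat_lit 0)
def t3 : BTr := (BTr.n (BTr.n (BTr.n (BTr.b b3_0) (BTr.n (BTr.b b3_1) (BTr.b b3_2))) (BTr.n (BTr.n (BTr.b b3_3) (BTr.b b3_4)) (BTr.n (BTr.b b3_5) (BTr.b b3_6)))) (BTr.n (BTr.n (BTr.b b3_7) (BTr.n (BTr.b b3_8) (BTr.b b3_9))) (BTr.n (BTr.n (BTr.b b3_10) (BTr.b b3_11)) (BTr.n (BTr.b b3_12) (BTr.b b3_13)))))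
namespace T3
def l0 : Tr := Tr.L (Pth.l (Pth.l (Pth.l Pth.z)))
def l1 : Tr := Tr.L (Pth.l (Pth.l (Pth.r (Pth.l Pth.z))))
def l2 : Tr := Tr.L (Pth.l (Pth.l (Pth.r (Pth.r Pth.z))))
def l3 : Tr := Tr.L (Pth.l (Pth.r (Pth.l (Pth.l Pth.z))))
def l4 : Tr := Tr.L (Pth.l (Pth.r (Pth.l (Pth.r Pth.z))))
def l5 : Tr := Tr.L (Pth.l (Pth.r (Pth.r (Pth.l Pth.z))))
def l6 : Tr := Tr.L (Pth.l (Pth.r (Pth.r (Pth.r Pth.z))))
def l7 : Tr := Tr.L (Pth.r (Pth.l (Pth.l Pth.z)))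
def l8 : Tr := Tr.L (Pth.r (Pth.l (Pth.r (Pth.l Pth.z))))
def l9 : Tr := Tr.L (Pth.r (Pth.l (Pth.r (Pth.r Pth.z))))
def l10 : Tr := Tr.L (Pth.r (Pth.r (Pth.l (Pth.l Pth.z))))
def l11 : Tr := Tr.L (Pth.r (Pth.r (Pth.l (Pth.r Pth.z))))
def l12 : Tr := Tr.L (Pth.r (Pth.r (Pth.r (Pth.l Pth.z))))
def l13 : Tr := Tr.L (Pth.r (Pth.r (Pth.r (Pth.r Pth.z))))
end T3
def b4_0 : Bx := Bx.mk (St.mk (I.pos (nat_lit 139083776) (nat_lit 220807168)) (I.mix (nat_lit 1900544) (nat_lit 66404352)) (I.mix (nat_lit 2949120) (nat_lit 104284160)) (I.pos (nat_lit 236634112) (nat_lit 327925760)) (I.mix (nat_lit 140984320) (nat_lit 83968000)) (I.mix (nat_lit 81674240) (nat_lit 77660160)) (I.mix (nat_lit 106102784) (nat_lit 99434496)))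
  false (nat_lit 105932751)
def b4_1 : Bx := Bx.mk (St.mk (I.pos (nat_lit 67387392) (nat_lit 158941184)) (I.neg (nat_lit 8896512) (nat_lit 72548352)) (I.mix (nat_lit 53035008) (nat_lit 13467648)) (I.pos (nat_lit 167084032) (nat_lit 236699648)) (I.mix (nat_lit 102023168) (nat_lit 70828032)) (I.mix (nat_lit 54525952) (nat_lit 62373888)) (I.mix (nat_lit 45268992) (nat_lit 53886976)))
  false (nat_lit 26344811)
def b4_2 : Bx := Bx.mk (St.mk (I.mix (nat_lit 33685504) (nat_lit 11272192)) (I.mix (nat_lit 39731200) (nat_lit 8437760)) (I.pos (nat_lit 3948544) (nat_lit 11124736)) (I.pos (nat_lit 141541376) (nat_lit 152354816)) (I.mix (nat_lit 30507008) (nat_lit 51052544)) (I.mix (nat_lit 25362432) (nat_lit 37339136)) (I.mix (nat_lit 5701632) (nat_lit 7847936)))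
  true (nat_lit 0)
def b4_3 : Bx := Bx.mk (St.mk (I.pos (nat_lit 140066816) (nat_lit 188710912)) (I.pos (nat_lit 491520) (nat_lit 57688064)) (I.pos (nat_lit 27688960) (nat_lit 96272384)) (I.pos (nat_lit 220758016) (nat_lit 283000832)) (I.mix (nat_lit 140967936) (nat_lit 42385408)) (I.mix (nat_lit 118374400) (nat_lit 56623104)) (I.mix (nat_lit 116473856) (nat_lit 62291968)))
  false (nat_lit 52953791)
def b4_4 : Bx := Bx.mk (St.mk (I.mix (nat_lit 11272192) (nat_lit 33685504)) (I.mix (nat_lit 10780672) (nat_lit 39796736)) (I.pos (nat_lit 3948544) (nat_lit 11124736)) (I.pos (nat_lit 141541376) (nat_lit 152354816)) (I.mix (nat_lit 51052544) (nat_lit 30507008)) (I.mix (nat_lit 37339136) (nat_lit 25362432)) (I.mix (nat_lit 5701632) (nat_lit 7847936)))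
  false (nat_lit 0)
def b4_5 : Bx := Bx.mk (St.mk (I.pos (nat_lit 16695296) (nat_lit 74645504)) (I.mix (nat_lit 11419648) (nat_lit 44597248)) (I.mix (nat_lit 15810560) (nat_lit 12632064)) (I.pos (nat_lit 143212544) (nat_lit 164429824)) (I.mix (nat_lit 42942464) (nat_lit 51052544)) (I.mix (nat_lit 42352640) (nat_lit 34406400)) (I.mix (nat_lit 22855680) (nat_lit 16498688)))
  false (nat_lit 0)
def b4_6 : Bx := Bx.mk (St.mk (I.pos (nat_lit 48332800) (nat_lit 103858176)) (I.mix (nat_lit 64372736) (nat_lit 12107776)) (I.neg (nat_lit 2719744) (nat_lit 45809664)) (I.pos (nat_lit 150011904) (nat_lit 188399616)) (I.mix (nat_lit 95207424) (nat_lit 41287680)) (I.mix (nat_lit 40009728) (nat_lit 70500352)) (I.mix (nat_lit 31408128) (nat_lit 40419328)))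
  false (nat_lit 0)
def b4_7 : Bx := Bx.mk (St.mk (I.neg (nat_lit 16695296) (nat_lit 74645504)) (I.mix (nat_lit 44597248) (nat_lit 11419648)) (I.mix (nat_lit 15810560) (nat_lit 12632064)) (I.pos (nat_lit 143212544) (nat_lit 164429824)) (I.mix (nat_lit 51052544) (nat_lit 42942464)) (I.mix (nat_lit 34406400) (nat_lit 42352640)) (I.mix (nat_lit 22855680) (nat_lit 16498688)))
  true (nat_lit 0)
def b4_8 : Bx := Bx.mk (St.mk (I.pos (nat_lit 120176640) (nat_lit 188809216)) (I.mix (nat_lit 37879808) (nat_lit 16662528)) (I.mix (nat_lit 17203200) (nat_lit 45809664)) (I.pos (nat_lit 201490432) (nat_lit 272269312)) (I.mix (nat_lit 76185600) (nat_lit 67747840)) (I.mix (nat_lit 65503232) (nat_lit 58851328)) (I.mix (nat_lit 62783488) (nat_lit 57573376)))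
  false (nat_lit 32488845)
def b4_9 : Bx := Bx.mk (St.mk (I.pos (nat_lit 175439872) (nat_lit 292454400)) (I.mix (nat_lit 30572544) (nat_lit 51003392)) (I.mix (nat_lit 82378752) (nat_lit 75710464)) (I.pos (nat_lit 279347200) (nat_lit 460685312)) (I.mix (nat_lit 91865088) (nat_lit 86179840)) (I.mix (nat_lit 76414976) (nat_lit 53624832)) (I.mix (nat_lit 136069120) (nat_lit 86016000)))
  false (nat_lit 92950977)
def b4_10 : Bx := Bx.mk (St.mk (I.pos (nat_lit 160530432) (nat_lit 223248384)) (I.pos (nat_lit 16596992) (nat_lit 64913408)) (I.pos (nat_lit 30179328) (nat_lit 101515264)) (I.pos (nat_lit 265502720) (nat_lit 325468160)) (I.mix (nat_lit 129908736) (nat_lit 96501760)) (I.mix (nat_lit 96108544) (nat_lit 75759616)) (I.mix (nat_lit 135659520) (nat_lit 92798976)))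
  false (nat_lit 51186173)
def b4_11 : Bx := Bx.mk (St.mk (I.pos (nat_lit 144375808) (nat_lit 184696832)) (I.mix (nat_lit 8323072) (nat_lit 34242560)) (I.pos (nat_lit 15368192) (nat_lit 70336512)) (I.pos (nat_lit 226099200) (nat_lit 272547840)) (I.mix (nat_lit 114196480) (nat_lit 65208320)) (I.mix (nat_lit 108740608) (nat_lit 59539456)) (I.mix (nat_lit 106708992) (nat_lit 58523648)))
  false (nat_lit 1747794)
def t4 : BTr := (BTr.n (BTr.n (BTr.n (BTr.b b4_0) (BTr.n (BTr.b b4_1) (BTr.b b4_2))) (BTr.n (BTr.b b4_3) (BTr.n (BTr.b b4_4) (BTr.b b4_5)))) (BTr.n (BTr.n (BTr.b b4_6) (BTr.n (BTr.b b4_7) (BTr.b b4_8))) (BTr.n (BTr.b b4_9) (BTr.n (BTr.b b4_10) (BTr.b b4_11)))))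
namespace T4
def l0 : Tr := Tr.L (Pth.l (Pth.l (Pth.l Pth.z)))
def l1 : Tr := Tr.L (Pth.l (Pth.l (Pth.r (Pth.l Pth.z))))
def l2 : Tr := Tr.L (Pth.l (Pth.l (Pth.r (Pth.r Pth.z))))
def l3 : Tr := Tr.L (Pth.l (Pth.r (Pth.l Pth.z)))
def l4 : Tr := Tr.L (Pth.l (Pth.r (Pth.r (Pth.l Pth.z))))
def l5 : Tr := Tr.L (Pth.l (Pth.r (Pth.r (Pth.r Pth.z))))
def l6 : Tr := Tr.L (Pth.r (Pth.l (Pth.l Pth.z)))
def l7 : Tr := Tr.L (Pth.r (Pth.l (Pth.r (Pth.l Pth.z))))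
def l8 : Tr := Tr.L (Pth.r (Pth.l (Pth.r (Pth.r Pth.z))))
def l9 : Tr := Tr.L (Pth.r (Pth.r (Pth.l Pth.z)))
def l10 : Tr := Tr.L (Pth.r (Pth.r (Pth.r (Pth.l Pth.z))))
def l11 : Tr := Tr.L (Pth.r (Pth.r (Pth.r (Pth.r Pth.z))))
end T4
def b5_0 : Bx := Bx.mk (St.mk (I.pos (nat_lit 137478144) (nat_lit 224559104)) (I.mix (nat_lit 1605632) (nat_lit 55115776)) (I.mix (nat_lit 2899968) (nat_lit 103612416)) (I.pos (nat_lit 183975936) (nat_lit 273645568)) (I.mix (nat_lit 125304832) (nat_lit 74285056)) (I.mix (nat_lit 84590592) (nat_lit 72941568)) (I.mix (nat_lit 108658688) (nat_lit 84885504)))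
  false (nat_lit 46812071)
def b5_1 : Bx := Bx.mk (St.mk (I.pos (nat_lit 83558400) (nat_lit 156549120)) (I.neg (nat_lit 9682944) (nat_lit 62521344)) (I.mix (nat_lit 43155456) (nat_lit 5177344)) (I.pos (nat_lit 129531904) (nat_lit 183795712)) (I.mix (nat_lit 89554944) (nat_lit 56688640)) (I.mix (nat_lit 45187072) (nat_lit 53886976)) (I.mix (nat_lit 36896768) (nat_lit 42876928)))
  false (nat_lit 26823071)
def b5_2 : Bx := Bx.mk (St.mk (I.mix (nat_lit 29392896) (nat_lit 46186496)) (I.mix (nat_lit 33538048) (nat_lit 1376256)) (I.mix (nat_lit 2965504) (nat_lit 10321920)) (I.pos (nat_lit 83460096) (nat_lit 101236736)) (I.mix (nat_lit 28098560) (nat_lit 41123840)) (I.mix (nat_lit 22528000) (nat_lit 27967488)) (I.mix (nat_lit 7553024) (nat_lit 10452992)))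
  false (nat_lit 0)
def b5_3 : Bx := Bx.mk (St.mk (I.pos (nat_lit 148291584) (nat_lit 199573504)) (I.mix (nat_lit 4816896) (nat_lit 53248000)) (I.pos (nat_lit 27836416) (nat_lit 97861632)) (I.pos (nat_lit 175669248) (nat_lit 238141440)) (I.mix (nat_lit 134283264) (nat_lit 45957120)) (I.mix (nat_lit 108249088) (nat_lit 63504384)) (I.mix (nat_lit 106741760) (nat_lit 50233344)))
  false (nat_lit 42381300)
def b5_4 : Bx := Bx.mk (St.mk (I.mix (nat_lit 49545216) (nat_lit 73875456)) (I.mix (nat_lit 5914624) (nat_lit 40255488)) (I.mix (nat_lit 3522560) (nat_lit 22298624)) (I.pos (nat_lit 81444864) (nat_lit 110395392)) (I.mix (nat_lit 57393152) (nat_lit 32227328)) (I.mix (nat_lit 36782080) (nat_lit 25903104)) (I.mix (nat_lit 13942784) (nat_lit 14729216)))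
  false (nat_lit 0)
def b5_5 : Bx := Bx.mk (St.mk (I.pos (nat_lit 143179776) (nat_lit 195411968)) (I.mix (nat_lit 29458432) (nat_lit 8912896)) (I.mix (nat_lit 3112960) (nat_lit 44089344)) (I.pos (nat_lit 169050112) (nat_lit 225902592)) (I.mix (nat_lit 70516736) (nat_lit 71778304)) (I.mix (nat_lit 63963136) (nat_lit 59981824)) (I.mix (nat_lit 58818560) (nat_lit 56967168)))
  false (nat_lit 36844622)
def b5_6 : Bx := Bx.mk (St.mk (I.mix (nat_lit 51609600) (nat_lit 49004544)) (I.mix (nat_lit 14434304) (nat_lit 5554176)) (I.pos (nat_lit 2670592) (nat_lit 12550144)) (I.pos (nat_lit 86704128) (nat_lit 99778560)) (I.mix (nat_lit 14876672) (nat_lit 19709952)) (I.mix (nat_lit 11337728) (nat_lit 10715136)) (I.mix (nat_lit 4980736) (nat_lit 4915200)))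
  false (nat_lit 0)
def b5_7 : Bx := Bx.mk (St.mk (I.pos (nat_lit 140673024) (nat_lit 161038336)) (I.neg (nat_lit 17334272) (nat_lit 36077568)) (I.mix (nat_lit 14286848) (nat_lit 6848512)) (I.pos (nat_lit 169787392) (nat_lit 187793408)) (I.mix (nat_lit 29687808) (nat_lit 25935872)) (I.mix (nat_lit 16728064) (nat_lit 18317312)) (I.mix (nat_lit 15319040) (nat_lit 18169856)))
  false (nat_lit 0)
def b5_8 : Bx := Bx.mk (St.mk (I.mix (nat_lit 55017472) (nat_lit 98156544)) (I.mix (nat_lit 8880128) (nat_lit 42745856)) (I.mix (nat_lit 5029888) (nat_lit 30834688)) (I.pos (nat_lit 72253440) (nat_lit 126926848)) (I.mix (nat_lit 71581696) (nat_lit 53182464)) (I.mix (nat_lit 47579136) (nat_lit 36044800)) (I.mix (nat_lit 31506432) (nat_lit 26198016)))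
  false (nat_lit 0)
def b5_9 : Bx := Bx.mk (St.mk (I.pos (nat_lit 77496320) (nat_lit 130465792)) (I.mix (nat_lit 63700992) (nat_lit 9666560)) (I.mix (nat_lit 42483712) (nat_lit 8667136)) (I.pos (nat_lit 113819648) (nat_lit 155222016)) (I.mix (nat_lit 93077504) (nat_lit 39534592)) (I.mix (nat_lit 46465024) (nat_lit 63963136)) (I.mix (nat_lit 33554432) (nat_lit 41484288)))
  false (nat_lit 13355017)
def b5_10 : Bx := Bx.mk (St.mk (I.mix (nat_lit 47841280) (nat_lit 37142528)) (I.mix (nat_lit 33701888) (nat_lit 6750208)) (I.mix (nat_lit 1736704) (nat_lit 12976128)) (I.pos (nat_lit 82378752) (nat_lit 102039552)) (I.mix (nat_lit 36651008) (nat_lit 39337984)) (I.mix (nat_lit 22528000) (nat_lit 31014912)) (I.mix (nat_lit 12091392) (nat_lit 10731520)))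
  false (nat_lit 0)
def b5_11 : Bx := Bx.mk (St.mk (I.pos (nat_lit 151977984) (nat_lit 197230592)) (I.mix (nat_lit 14909440) (nat_lit 25935872)) (I.pos (nat_lit 15974400) (nat_lit 67141632)) (I.pos (nat_lit 178159616) (nat_lit 228491264)) (I.mix (nat_lit 112672768) (nat_lit 63209472)) (I.mix (nat_lit 102645760) (nat_lit 57917440)) (I.mix (nat_lit 101122048) (nat_lit 52854784)))
  false (nat_lit 0)
def b5_12 : Bx := Bx.mk (St.mk (I.pos (nat_lit 178159616) (nat_lit 287932416)) (I.mix (nat_lit 27312128) (nat_lit 44138496)) (I.mix (nat_lit 48627712) (nat_lit 88276992)) (I.pos (nat_lit 228671488) (nat_lit 401555456)) (I.mix (nat_lit 105250816) (nat_lit 82165760)) (I.mix (nat_lit 71401472) (nat_lit 54460416)) (I.mix (nat_lit 124682240) (nat_lit 89718784)))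
  false (nat_lit 76587629)
def b5_13 : Bx := Bx.mk (St.mk (I.pos (nat_lit 166854656) (nat_lit 221626368)) (I.pos (nat_lit 15646720) (nat_lit 53248000)) (I.pos (nat_lit 40599552) (nat_lit 102875136)) (I.pos (nat_lit 216006656) (nat_lit 269369344)) (I.mix (nat_lit 115245056) (nat_lit 85557248)) (I.mix (nat_lit 88064000) (nat_lit 69943296)) (I.mix (nat_lit 130252800) (nat_lit 82984960)))
  false (nat_lit 28208301)
def t5 : BTr := (BTr.n (BTr.n (BTr.n (BTr.b b5_0) (BTr.n (BTr.b b5_1) (BTr.b b5_2))) (BTr.n (BTr.n (BTr.b b5_3) (BTr.b b5_4)) (BTr.n (BTr.b b5_5) (BTr.b b5_6)))) (BTr.n (BTr.n (BTr.b b5_7) (BTr.n (BTr.b b5_8) (BTr.b b5_9))) (BTr.n (BTr.n (BTr.b b5_10) (BTr.b b5_11)) (BTr.n (BTr.b b5_12) (BTr.b b5_13)))))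
namespace T5
def l0 : Tr := Tr.L (Pth.l (Pth.l (Pth.l Pth.z)))
def l1 : Tr := Tr.L (Pth.l (Pth.l (Pth.r (Pth.l Pth.z))))
def l2 : Tr := Tr.L (Pth.l (Pth.l (Pth.r (Pth.r Pth.z))))
def l3 : Tr := Tr.L (Pth.l (Pth.r (Pth.l (Pth.l Pth.z))))
def l4 : Tr := Tr.L (Pth.l (Pth.r (Pth.l (Pth.r Pth.z))))
def l5 : Tr := Tr.L (Pth.l (Pth.r (Pth.r (Pth.l Pth.z))))
def l6 : Tr := Tr.L (Pth.l (Pth.r (Pth.r (Pth.r Pth.z))))
def l7 : Tr := Tr.L (Pth.r (Pth.l (Pth.l Pth.z)))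
def l8 : Tr := Tr.L (Pth.r (Pth.l (Pth.r (Pth.l Pth.z))))
def l9 : Tr := Tr.L (Pth.r (Pth.l (Pth.r (Pth.r Pth.z))))
def l10 : Tr := Tr.L (Pth.r (Pth.r (Pth.l (Pth.l Pth.z))))
def l11 : Tr := Tr.L (Pth.r (Pth.r (Pth.l (Pth.r Pth.z))))
def l12 : Tr := Tr.L (Pth.r (Pth.r (Pth.r (Pth.l Pth.z))))
def l13 : Tr := Tr.L (Pth.r (Pth.r (Pth.r (Pth.r Pth.z))))
end T5
theorem bx0_0 : BoxOK sI cl5 cl6 cl9 t2 t4 b0_0 :=
  box_mk (TrL.c (I.pos (nat_lit 0) (nat_lit 0)) (xa (xb (xa T2.l11 T2.l0) (xa (xb T2.l0 T2.l0) (xb T2.l0 T2.l0))) (xb (xa T2.l0 T2.l0) (xa (xb T2.l0 T2.l0) (xb T2.l0 T2.l0))))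
  (TrL.c (I.pos (nat_lit 0) (nat_lit 0)) T4.l1
  (TrL.c (I.pos (nat_lit 0) (nat_lit 0)) T2.l1
  (TrL.c (I.pos (nat_lit 0) (nat_lit 0)) T4.l2
  (TrL.c (I.pos (nat_lit 0) (nat_lit 0)) (xa (xb T4.l11 T4.l3) (xb (xa T4.l3 T4.l3) (xa T4.l3 T4.l3)))
  (TrL.c (I.pos (nat_lit 0) (nat_lit 0)) T2.l2
  (TrL.c (I.pos (nat_lit 0) (nat_lit 0)) T4.l4
  (TrL.c (I.pos (nat_lit 0) (nat_lit 0)) T2.l3
  TrL.n)))))))) (by decide +kernel)
theorem bx0_1 : BoxOK sI cl5 cl6 cl9 t2 t4 b0_1 :=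
  box_mk (TrL.c (I.pos (nat_lit 0) (nat_lit 0)) (xa (xa (xb (xa (xb T2.l8 T2.l8) T2.l8) (xa (xb T2.l8 (xa T2.l8 T2.l8)) (xb T2.l8 T2.l8))) (xb T2.l8 (xa (xb T2.l8 T2.l8) T2.l8))) (xa (xb T2.l8 T2.l8) (xb T2.l8 (xa T2.l8 T2.l8))))
  (TrL.c (I.pos (nat_lit 0) (nat_lit 0)) T4.l1
  (TrL.c (I.pos (nat_lit 0) (nat_lit 0)) T2.l1
  (TrL.c (I.pos (nat_lit 0) (nat_lit 0)) T4.l2
  (TrL.c (I.pos (nat_lit 0) (nat_lit 0)) (xa T4.l8 T4.l8)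
  (TrL.c (I.pos (nat_lit 0) (nat_lit 0)) T2.l2
  (TrL.c (I.pos (nat_lit 0) (nat_lit 0)) T4.l4
  (TrL.c (I.pos (nat_lit 0) (nat_lit 0)) T2.l3
  TrL.n)))))))) (by decide +kernel)
theorem bx0_2 : BoxOK sI cl5 cl6 cl9 t2 t4 b0_2 :=
  box_mk (TrL.c (I.pos (nat_lit 0) (nat_lit 0)) (xb T2.l8 (xa T2.l8 T2.l8))
  (TrL.c (I.pos (nat_lit 0) (nat_lit 0)) T4.l1
  (TrL.c (I.pos (nat_lit 0) (nat_lit 0)) T2.l1
  (TrL.c (I.pos (nat_lit 0) (nat_lit 0)) T4.l2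
  (TrL.c (I.pos (nat_lit 0) (nat_lit 0)) T4.l8
  (TrL.c (I.pos (nat_lit 0) (nat_lit 0)) T2.l2
  (TrL.c (I.pos (nat_lit 0) (nat_lit 0)) T4.l4
  (TrL.c (I.pos (nat_lit 0) (nat_lit 0)) T2.l3
  TrL.n)))))))) (by decide +kernel)
theorem bx0_3 : BoxOK sI cl5 cl6 cl9 t2 t4 b0_3 :=
  box_mk (TrL.c (I.pos (nat_lit 0) (nat_lit 0)) (xa (xb (xa (xb T2.l8 T2.l8) T2.l8) T2.l8) T2.l8)
  (TrL.c (I.pos (nat_lit 0) (nat_lit 0)) T4.l8
  (TrL.c (I.pos (nat_lit 0) (nat_lit 0)) T2.l2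
  (TrL.c (I.pos (nat_lit 0) (nat_lit 0)) T4.l4
  (TrL.c (I.pos (nat_lit 0) (nat_lit 0)) T4.l1
  (TrL.c (I.pos (nat_lit 0) (nat_lit 0)) T2.l1
  (TrL.c (I.pos (nat_lit 0) (nat_lit 0)) T4.l4
  (TrL.c (I.pos (nat_lit 0) (nat_lit 0)) T2.l3
  TrL.n)))))))) (by decide +kernel)
theorem bx0_4 : BoxOK sI cl5 cl6 cl9 t2 t4 b0_4 :=
  box_mk (TrL.c (I.pos (nat_lit 0) (nat_lit 0)) (xa (xb T2.l0 T2.l0) (xb T2.l0 T2.l0))
  (TrL.c (I.pos (nat_lit 0) (nat_lit 0)) T4.l1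
  (TrL.c (I.pos (nat_lit 0) (nat_lit 0)) T2.l1
  (TrL.c (I.pos (nat_lit 0) (nat_lit 0)) T4.l2
  (TrL.c (I.pos (nat_lit 0) (nat_lit 0)) (xa (xb T4.l3 T4.l3) (xb (xa T4.l3 T4.l3) (xa T4.l3 T4.l3)))
  (TrL.c (I.pos (nat_lit 0) (nat_lit 0)) T2.l2
  (TrL.c (I.pos (nat_lit 0) (nat_lit 0)) T4.l4
  (TrL.c (I.pos (nat_lit 0) (nat_lit 0)) T2.l3
  TrL.n)))))))) (by decide +kernel)
theorem bx0_5 : BoxOK sI cl5 cl6 cl9 t2 t4 b0_5 :=
  box_mk (TrL.c (I.pos (nat_lit 0) (nat_lit 0)) T2.l8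
  (TrL.c (I.pos (nat_lit 0) (nat_lit 0)) T4.l1
  (TrL.c (I.pos (nat_lit 0) (nat_lit 0)) T2.l1
  (TrL.c (I.pos (nat_lit 0) (nat_lit 0)) T4.l2
  (TrL.c (I.pos (nat_lit 0) (nat_lit 0)) T4.l8
  (TrL.c (I.pos (nat_lit 0) (nat_lit 0)) T2.l2
  (TrL.c (I.pos (nat_lit 0) (nat_lit 0)) T4.l4
  (TrL.c (I.pos (nat_lit 0) (nat_lit 0)) T2.l3
  TrL.n)))))))) (by decide +kernel)
theorem bx0_6 : BoxOK sI cl5 cl6 cl9 t2 t4 b0_6 :=
  box_mk (TrL.c (I.pos (nat_lit 0) (nat_lit 0)) T2.l8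
  (TrL.c (I.pos (nat_lit 0) (nat_lit 0)) T4.l1
  (TrL.c (I.pos (nat_lit 0) (nat_lit 0)) T2.l1
  (TrL.c (I.pos (nat_lit 0) (nat_lit 0)) T4.l2
  (TrL.c (I.pos (nat_lit 0) (nat_lit 0)) T4.l8
  (TrL.c (I.pos (nat_lit 0) (nat_lit 0)) T2.l2
  (TrL.c (I.pos (nat_lit 0) (nat_lit 0)) T4.l4
  (TrL.c (I.pos (nat_lit 0) (nat_lit 0)) T2.l3
  TrL.n)))))))) (by decide +kernel)
theorem bx0_7 : BoxOK sI cl5 cl6 cl9 t2 t4 b0_7 :=
  box_mk (TrL.c (I.pos (nat_lit 0) (nat_lit 0)) (xa (xb (xa T2.l8 T2.l8) (xa T2.l8 T2.l8)) (xb T2.l8 (xa T2.l8 T2.l8)))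
  (TrL.c (I.pos (nat_lit 0) (nat_lit 0)) T4.l1
  (TrL.c (I.pos (nat_lit 0) (nat_lit 0)) T2.l1
  (TrL.c (I.pos (nat_lit 0) (nat_lit 0)) T4.l2
  (TrL.c (I.pos (nat_lit 0) (nat_lit 0)) (xa T4.l8 T4.l8)
  (TrL.c (I.pos (nat_lit 0) (nat_lit 0)) T2.l2
  (TrL.c (I.pos (nat_lit 0) (nat_lit 0)) T4.l4
  (TrL.c (I.pos (nat_lit 0) (nat_lit 0)) T2.l3
  TrL.n)))))))) (by decide +kernel)
theorem bx0_8 : BoxOK sI cl5 cl6 cl9 t2 t4 b0_8 :=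
  box_mk (TrL.c (I.pos (nat_lit 0) (nat_lit 0)) (xa (xb T2.l8 T2.l8) T2.l8)
  (TrL.c (I.pos (nat_lit 0) (nat_lit 0)) T4.l8
  (TrL.c (I.pos (nat_lit 0) (nat_lit 0)) T2.l2
  (TrL.c (I.pos (nat_lit 0) (nat_lit 0)) T4.l4
  (TrL.c (I.pos (nat_lit 0) (nat_lit 0)) T4.l1
  (TrL.c (I.pos (nat_lit 0) (nat_lit 0)) T2.l1
  (TrL.c (I.pos (nat_lit 0) (nat_lit 0)) T4.l4
  (TrL.c (I.pos (nat_lit 0) (nat_lit 0)) T2.l3
  TrL.n)))))))) (by decide +kernel)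
theorem bx0_9 : BoxOK sI cl5 cl6 cl9 t2 t4 b0_9 :=
  box_mk (TrL.c (I.pos (nat_lit 0) (nat_lit 0)) (xa (xb (xa (xb (xa (xa T2.l8 T2.l8) T2.l8) (xa T2.l8 T2.l8)) T2.l8) (xa (xa (xb (xa T2.l8 T2.l8) (xa T2.l8 T2.l8)) (xb T2.l8 T2.l8)) (xa (xb T2.l8 T2.l8) T2.l8))) (xa (xb T2.l8 T2.l8) (xb T2.l8 T2.l8)))
  (TrL.c (I.pos (nat_lit 0) (nat_lit 0)) (xa T4.l1 T4.l1)
  (TrL.c (I.pos (nat_lit 0) (nat_lit 0)) T2.l1
  (TrL.c (I.pos (nat_lit 0) (nat_lit 0)) T4.l2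
  (TrL.c (I.pos (nat_lit 0) (nat_lit 0)) (xa T4.l1 T4.l8)
  (TrL.c (I.pos (nat_lit 0) (nat_lit 0)) T2.l2
  (TrL.c (I.pos (nat_lit 0) (nat_lit 0)) T4.l4
  (TrL.c (I.pos (nat_lit 0) (nat_lit 0)) T2.l3
  TrL.n)))))))) (by decide +kernel)
theorem bx0_10 : BoxOK sI cl5 cl6 cl9 t2 t4 b0_10 :=
  box_mk (TrL.c (I.pos (nat_lit 0) (nat_lit 0)) (xa (xb T2.l0 T2.l0) (xb T2.l0 T2.l0))
  (TrL.c (I.pos (nat_lit 0) (nat_lit 0)) T4.l1
  (TrL.c (I.pos (nat_lit 0) (nat_lit 0)) T2.l1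
  (TrL.c (I.pos (nat_lit 0) (nat_lit 0)) T4.l2
  (TrL.c (I.pos (nat_lit 0) (nat_lit 0)) (xb (xa T4.l3 T4.l3) (xa T4.l3 T4.l3))
  (TrL.c (I.pos (nat_lit 0) (nat_lit 0)) T2.l2
  (TrL.c (I.pos (nat_lit 0) (nat_lit 0)) T4.l4
  (TrL.c (I.pos (nat_lit 0) (nat_lit 0)) T2.l3
  TrL.n)))))))) (by decide +kernel)
theorem bx0_11 : BoxOK sI cl5 cl6 cl9 t2 t4 b0_11 :=
  box_mk (TrL.c (I.pos (nat_lit 0) (nat_lit 0)) (xb (xa T2.l11 T2.l11) (xa (xb T2.l11 T2.l11) (xb T2.l11 T2.l11)))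
  (TrL.c (I.pos (nat_lit 0) (nat_lit 0)) T4.l1
  (TrL.c (I.pos (nat_lit 0) (nat_lit 0)) T2.l1
  (TrL.c (I.pos (nat_lit 0) (nat_lit 0)) T4.l2
  (TrL.c (I.pos (nat_lit 0) (nat_lit 0)) (xb (xa T4.l11 T4.l11) (xa T4.l3 T4.l3))
  (TrL.c (I.pos (nat_lit 0) (nat_lit 0)) T2.l2
  (TrL.c (I.pos (nat_lit 0) (nat_lit 0)) T4.l4
  (TrL.c (I.pos (nat_lit 0) (nat_lit 0)) T2.l3
  TrL.n)))))))) (by decide +kernel)
theorem bx0_12 : BoxOK sI cl5 cl6 cl9 t2 t4 b0_12 :=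
  box_mk (TrL.c (I.pos (nat_lit 0) (nat_lit 0)) (xa (xb T2.l11 T2.l11) T2.l0)
  (TrL.c (I.pos (nat_lit 0) (nat_lit 0)) T4.l1
  (TrL.c (I.pos (nat_lit 0) (nat_lit 0)) T2.l1
  (TrL.c (I.pos (nat_lit 0) (nat_lit 0)) T4.l2
  (TrL.c (I.pos (nat_lit 0) (nat_lit 0)) (xa T4.l11 T4.l0)
  (TrL.c (I.pos (nat_lit 0) (nat_lit 0)) T2.l2
  (TrL.c (I.pos (nat_lit 0) (nat_lit 0)) T4.l4
  (TrL.c (I.pos (nat_lit 0) (nat_lit 0)) T2.l3
  TrL.n)))))))) (by decide +kernel)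
theorem bx0_13 : BoxOK sI cl5 cl6 cl9 t2 t4 b0_13 :=
  box_mk (TrL.c (I.pos (nat_lit 0) (nat_lit 0)) (xb T2.l11 T2.l11)
  (TrL.c (I.pos (nat_lit 0) (nat_lit 0)) T4.l1
  (TrL.c (I.pos (nat_lit 0) (nat_lit 0)) T2.l1
  (TrL.c (I.pos (nat_lit 0) (nat_lit 0)) T4.l2
  (TrL.c (I.pos (nat_lit 0) (nat_lit 0)) T4.l11
  (TrL.c (I.pos (nat_lit 0) (nat_lit 0)) T2.l2
  (TrL.c (I.pos (nat_lit 0) (nat_lit 0)) T4.l4
  (TrL.c (I.pos (nat_lit 0) (nat_lit 0)) T2.l3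
  TrL.n)))))))) (by decide +kernel)
theorem sv0 : StarV sI cl5 cl6 cl9 t2 t4 t0 :=
  (bt_n (bt_n (bt_n (bt_b bx0_0) (bt_n (bt_b bx0_1) (bt_b bx0_2))) (bt_n (bt_n (bt_b bx0_3) (bt_b bx0_4)) (bt_n (bt_b bx0_5) (bt_b bx0_6)))) (bt_n (bt_n (bt_b bx0_7) (bt_n (bt_b bx0_8) (bt_b bx0_9))) (bt_n (bt_n (bt_b bx0_10) (bt_b bx0_11)) (bt_n (bt_b bx0_12) (bt_b bx0_13)))))
def S0 : StarD := StarD.mk cl5 cl6 cl9 2 4 t0
theorem bx1_0 : BoxOK sI cl5 cl9 cl6 t4 t2 b1_0 :=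
  box_mk (TrL.c (I.pos (nat_lit 0) (nat_lit 0)) (xa (xb (xa T4.l10 T4.l0) (xa (xb T4.l0 T4.l0) (xb T4.l0 T4.l0))) (xb (xa T4.l0 T4.l0) (xa (xb T4.l0 T4.l0) (xb T4.l0 T4.l0))))
  (TrL.c (I.pos (nat_lit 0) (nat_lit 0)) T2.l4
  (TrL.c (I.pos (nat_lit 0) (nat_lit 0)) T4.l5
  (TrL.c (I.pos (nat_lit 0) (nat_lit 0)) T2.l5
  (TrL.c (I.pos (nat_lit 0) (nat_lit 0)) (xa (xb T2.l6 T2.l6) (xb T2.l6 T2.l6))
  (TrL.c (I.pos (nat_lit 0) (nat_lit 0)) T4.l6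
  (TrL.c (I.pos (nat_lit 0) (nat_lit 0)) T2.l7
  (TrL.c (I.pos (nat_lit 0) (nat_lit 0)) T4.l7
  TrL.n)))))))) (by decide +kernel)
theorem bx1_1 : BoxOK sI cl5 cl9 cl6 t4 t2 b1_1 :=
  box_mk (TrL.c (I.pos (nat_lit 0) (nat_lit 0)) (xa (xa T4.l9 T4.l9) (xa T4.l9 (xb T4.l9 (xa T4.l9 T4.l9))))
  (TrL.c (I.pos (nat_lit 0) (nat_lit 0)) T2.l4
  (TrL.c (I.pos (nat_lit 0) (nat_lit 0)) T4.l5
  (TrL.c (I.pos (nat_lit 0) (nat_lit 0)) T2.l5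
  (TrL.c (I.pos (nat_lit 0) (nat_lit 0)) T2.l9
  (TrL.c (I.pos (nat_lit 0) (nat_lit 0)) T4.l6
  (TrL.c (I.pos (nat_lit 0) (nat_lit 0)) T2.l7
  (TrL.c (I.pos (nat_lit 0) (nat_lit 0)) T4.l7
  TrL.n)))))))) (by decide +kernel)
theorem bx1_2 : BoxOK sI cl5 cl9 cl6 t4 t2 b1_2 :=
  box_mk (TrL.c (I.pos (nat_lit 0) (nat_lit 0)) (xb T4.l9 T4.l9)
  (TrL.c (I.pos (nat_lit 0) (nat_lit 0)) T2.l4
  (TrL.c (I.pos (nat_lit 0) (nat_lit 0)) T4.l5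
  (TrL.c (I.pos (nat_lit 0) (nat_lit 0)) T2.l5
  (TrL.c (I.pos (nat_lit 0) (nat_lit 0)) T2.l9
  (TrL.c (I.pos (nat_lit 0) (nat_lit 0)) T4.l6
  (TrL.c (I.pos (nat_lit 0) (nat_lit 0)) T2.l7
  (TrL.c (I.pos (nat_lit 0) (nat_lit 0)) T4.l7
  TrL.n)))))))) (by decide +kernel)
theorem bx1_3 : BoxOK sI cl5 cl9 cl6 t4 t2 b1_3 :=
  box_mk (TrL.c (I.pos (nat_lit 0) (nat_lit 0)) T4.l9
  (TrL.c (I.pos (nat_lit 0) (nat_lit 0)) T2.l4
  (TrL.c (I.pos (nat_lit 0) (nat_lit 0)) T4.l5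
  (TrL.c (I.pos (nat_lit 0) (nat_lit 0)) T2.l5
  (TrL.c (I.pos (nat_lit 0) (nat_lit 0)) (xa T2.l9 T2.l9)
  (TrL.c (I.pos (nat_lit 0) (nat_lit 0)) T4.l6
  (TrL.c (I.pos (nat_lit 0) (nat_lit 0)) T2.l7
  (TrL.c (I.pos (nat_lit 0) (nat_lit 0)) T4.l7
  TrL.n)))))))) (by decide +kernel)
theorem bx1_4 : BoxOK sI cl5 cl9 cl6 t4 t2 b1_4 :=
  box_mk (TrL.c (I.pos (nat_lit 0) (nat_lit 0)) (xa (xb T4.l0 T4.l0) (xa T4.l0 (xb T4.l0 T4.l0)))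
  (TrL.c (I.pos (nat_lit 0) (nat_lit 0)) T2.l4
  (TrL.c (I.pos (nat_lit 0) (nat_lit 0)) T4.l5
  (TrL.c (I.pos (nat_lit 0) (nat_lit 0)) T2.l5
  (TrL.c (I.pos (nat_lit 0) (nat_lit 0)) (xa T2.l6 (xb (xa T2.l6 T2.l6) (xa T2.l6 T2.l6)))
  (TrL.c (I.pos (nat_lit 0) (nat_lit 0)) T4.l6
  (TrL.c (I.pos (nat_lit 0) (nat_lit 0)) T2.l7
  (TrL.c (I.pos (nat_lit 0) (nat_lit 0)) T4.l7
  TrL.n)))))))) (by decide +kernel)
theorem bx1_5 : BoxOK sI cl5 cl9 cl6 t4 t2 b1_5 :=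
  box_mk (TrL.c (I.pos (nat_lit 0) (nat_lit 0)) T4.l9
  (TrL.c (I.pos (nat_lit 0) (nat_lit 0)) T2.l4
  (TrL.c (I.pos (nat_lit 0) (nat_lit 0)) T4.l5
  (TrL.c (I.pos (nat_lit 0) (nat_lit 0)) T2.l5
  (TrL.c (I.pos (nat_lit 0) (nat_lit 0)) T2.l9
  (TrL.c (I.pos (nat_lit 0) (nat_lit 0)) T4.l6
  (TrL.c (I.pos (nat_lit 0) (nat_lit 0)) T2.l7
  (TrL.c (I.pos (nat_lit 0) (nat_lit 0)) T4.l7
  TrL.n)))))))) (by decide +kernel)
theorem bx1_6 : BoxOK sI cl5 cl9 cl6 t4 t2 b1_6 :=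
  box_mk (TrL.c (I.pos (nat_lit 0) (nat_lit 0)) T4.l9
  (TrL.c (I.pos (nat_lit 0) (nat_lit 0)) T2.l4
  (TrL.c (I.pos (nat_lit 0) (nat_lit 0)) T4.l5
  (TrL.c (I.pos (nat_lit 0) (nat_lit 0)) T2.l5
  (TrL.c (I.pos (nat_lit 0) (nat_lit 0)) T2.l9
  (TrL.c (I.pos (nat_lit 0) (nat_lit 0)) T4.l6
  (TrL.c (I.pos (nat_lit 0) (nat_lit 0)) T2.l7
  (TrL.c (I.pos (nat_lit 0) (nat_lit 0)) T4.l7
  TrL.n)))))))) (by decide +kernel)
theorem bx1_7 : BoxOK sI cl5 cl9 cl6 t4 t2 b1_7 :=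
  box_mk (TrL.c (I.pos (nat_lit 0) (nat_lit 0)) (xa (xb (xa T4.l9 T4.l9) (xa T4.l9 T4.l9)) (xb T4.l0 (xa T4.l9 T4.l9)))
  (TrL.c (I.pos (nat_lit 0) (nat_lit 0)) T2.l4
  (TrL.c (I.pos (nat_lit 0) (nat_lit 0)) T4.l5
  (TrL.c (I.pos (nat_lit 0) (nat_lit 0)) T2.l5
  (TrL.c (I.pos (nat_lit 0) (nat_lit 0)) (xa T2.l9 (xb T2.l9 T2.l10))
  (TrL.c (I.pos (nat_lit 0) (nat_lit 0)) T4.l6
  (TrL.c (I.pos (nat_lit 0) (nat_lit 0)) T2.l7
  (TrL.c (I.pos (nat_lit 0) (nat_lit 0)) T4.l7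
  TrL.n)))))))) (by decide +kernel)
theorem bx1_8 : BoxOK sI cl5 cl9 cl6 t4 t2 b1_8 :=
  box_mk (TrL.c (I.pos (nat_lit 0) (nat_lit 0)) (xa (xa (xb (xa (xb T4.l9 T4.l9) T4.l9) T4.l9) T4.l9) T4.l9)
  (TrL.c (I.pos (nat_lit 0) (nat_lit 0)) (xa T2.l4 T2.l4)
  (TrL.c (I.pos (nat_lit 0) (nat_lit 0)) T4.l5
  (TrL.c (I.pos (nat_lit 0) (nat_lit 0)) T2.l5
  (TrL.c (I.pos (nat_lit 0) (nat_lit 0)) (xa T2.l9 T2.l9)
  (TrL.c (I.pos (nat_lit 0) (nat_lit 0)) T4.l6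
  (TrL.c (I.pos (nat_lit 0) (nat_lit 0)) T2.l7
  (TrL.c (I.pos (nat_lit 0) (nat_lit 0)) T4.l7
  TrL.n)))))))) (by decide +kernel)
theorem bx1_9 : BoxOK sI cl5 cl9 cl6 t4 t2 b1_9 :=
  box_mk (TrL.c (I.pos (nat_lit 0) (nat_lit 0)) (xb (xa (xb T4.l10 T4.l10) T4.l10) (xa (xb T4.l10 T4.l10) (xb T4.l10 T4.l10)))
  (TrL.c (I.pos (nat_lit 0) (nat_lit 0)) T2.l4
  (TrL.c (I.pos (nat_lit 0) (nat_lit 0)) T4.l5
  (TrL.c (I.pos (nat_lit 0) (nat_lit 0)) T2.l5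
  (TrL.c (I.pos (nat_lit 0) (nat_lit 0)) (xb T2.l10 T2.l10)
  (TrL.c (I.pos (nat_lit 0) (nat_lit 0)) T4.l6
  (TrL.c (I.pos (nat_lit 0) (nat_lit 0)) T2.l7
  (TrL.c (I.pos (nat_lit 0) (nat_lit 0)) T4.l7
  TrL.n)))))))) (by decide +kernel)
theorem bx1_10 : BoxOK sI cl5 cl9 cl6 t4 t2 b1_10 :=
  box_mk (TrL.c (I.pos (nat_lit 0) (nat_lit 0)) (xa (xa (xb (xa T4.l9 T4.l9) (xa (xb T4.l9 T4.l9) T4.l9)) (xb T4.l9 (xa T4.l9 T4.l9))) (xa T4.l9 (xb T4.l9 (xa T4.l9 T4.l9))))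
  (TrL.c (I.pos (nat_lit 0) (nat_lit 0)) (xa T2.l4 T2.l4)
  (TrL.c (I.pos (nat_lit 0) (nat_lit 0)) T4.l5
  (TrL.c (I.pos (nat_lit 0) (nat_lit 0)) T2.l5
  (TrL.c (I.pos (nat_lit 0) (nat_lit 0)) (xa T2.l9 T2.l9)
  (TrL.c (I.pos (nat_lit 0) (nat_lit 0)) T4.l6
  (TrL.c (I.pos (nat_lit 0) (nat_lit 0)) T2.l7
  (TrL.c (I.pos (nat_lit 0) (nat_lit 0)) T4.l7
  TrL.n)))))))) (by decide +kernel)
theorem bx1_11 : BoxOK sI cl5 cl9 cl6 t4 t2 b1_11 :=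
  box_mk (TrL.c (I.pos (nat_lit 0) (nat_lit 0)) (xa (xb T4.l0 T4.l10) T4.l0)
  (TrL.c (I.pos (nat_lit 0) (nat_lit 0)) T2.l4
  (TrL.c (I.pos (nat_lit 0) (nat_lit 0)) T4.l5
  (TrL.c (I.pos (nat_lit 0) (nat_lit 0)) T2.l5
  (TrL.c (I.pos (nat_lit 0) (nat_lit 0)) (xa T2.l9 T2.l0)
  (TrL.c (I.pos (nat_lit 0) (nat_lit 0)) T4.l6
  (TrL.c (I.pos (nat_lit 0) (nat_lit 0)) T2.l7
  (TrL.c (I.pos (nat_lit 0) (nat_lit 0)) T4.l7
  TrL.n)))))))) (by decide +kernel)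
theorem bx1_12 : BoxOK sI cl5 cl9 cl6 t4 t2 b1_12 :=
  box_mk (TrL.c (I.pos (nat_lit 0) (nat_lit 0)) (xa T4.l10 T4.l10)
  (TrL.c (I.pos (nat_lit 0) (nat_lit 0)) T2.l4
  (TrL.c (I.pos (nat_lit 0) (nat_lit 0)) T4.l5
  (TrL.c (I.pos (nat_lit 0) (nat_lit 0)) T2.l5
  (TrL.c (I.pos (nat_lit 0) (nat_lit 0)) T2.l10
  (TrL.c (I.pos (nat_lit 0) (nat_lit 0)) T4.l6
  (TrL.c (I.pos (nat_lit 0) (nat_lit 0)) T2.l7
  (TrL.c (I.pos (nat_lit 0) (nat_lit 0)) T4.l7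
  TrL.n)))))))) (by decide +kernel)
theorem bx1_13 : BoxOK sI cl5 cl9 cl6 t4 t2 b1_13 :=
  box_mk (TrL.c (I.pos (nat_lit 0) (nat_lit 0)) (xa (xb T4.l0 (xa T4.l0 T4.l0)) (xb T4.l0 (xa T4.l0 T4.l0)))
  (TrL.c (I.pos (nat_lit 0) (nat_lit 0)) T2.l4
  (TrL.c (I.pos (nat_lit 0) (nat_lit 0)) T4.l5
  (TrL.c (I.pos (nat_lit 0) (nat_lit 0)) T2.l5
  (TrL.c (I.pos (nat_lit 0) (nat_lit 0)) (xa T2.l6 T2.l6)
  (TrL.c (I.pos (nat_lit 0) (nat_lit 0)) T4.l6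
  (TrL.c (I.pos (nat_lit 0) (nat_lit 0)) T2.l7
  (TrL.c (I.pos (nat_lit 0) (nat_lit 0)) T4.l7
  TrL.n)))))))) (by decide +kernel)
theorem sv1 : StarV sI cl5 cl9 cl6 t4 t2 t1 :=
  (bt_n (bt_n (bt_n (bt_b bx1_0) (bt_n (bt_b bx1_1) (bt_b bx1_2))) (bt_n (bt_n (bt_b bx1_3) (bt_b bx1_4)) (bt_n (bt_b bx1_5) (bt_b bx1_6)))) (bt_n (bt_n (bt_b bx1_7) (bt_n (bt_b bx1_8) (bt_b bx1_9))) (bt_n (bt_n (bt_b bx1_10) (bt_b bx1_11)) (bt_n (bt_b bx1_12) (bt_b bx1_13)))))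
def S1 : StarD := StarD.mk cl5 cl9 cl6 4 2 t1
theorem bx2_0 : BoxOK sI cl6 cl5 cl9 t0 t5 b2_0 :=
  box_mk (TrL.c (I.pos (nat_lit 0) (nat_lit 0)) (xa (xb (xa T0.l0 T0.l0) (xa (xb T0.l0 T0.l0) T0.l0)) (xb T0.l0 (xa T0.l0 T0.l0)))
  (TrL.c (I.pos (nat_lit 0) (nat_lit 0)) T5.l1
  (TrL.c (I.pos (nat_lit 0) (nat_lit 89480386)) T0.l1
  (TrL.c (I.pos (nat_lit 0) (nat_lit 41530880)) T5.l2
  (TrL.c (I.pos (nat_lit 0) (nat_lit 0)) (xb (xa T5.l11 T5.l3) (xa T5.l3 T5.l3))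
  (TrL.c (I.pos (nat_lit 0) (nat_lit 0)) T0.l2
  (TrL.c (I.mix (nat_lit 41527258) (nat_lit 41530880)) T5.l8
  (TrL.c (I.mix (nat_lit 41527258) (nat_lit 4274)) T0.l3
  TrL.n)))))))) (by decide +kernel)
theorem bx2_1 : BoxOK sI cl6 cl5 cl9 t0 t5 b2_1 :=
  box_mk (TrL.c (I.pos (nat_lit 0) (nat_lit 0)) (xb T0.l4 (xa T0.l4 T0.l4))
  (TrL.c (I.pos (nat_lit 0) (nat_lit 0)) T5.l1
  (TrL.c (I.pos (nat_lit 0) (nat_lit 89480386)) T0.l1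
  (TrL.c (I.pos (nat_lit 0) (nat_lit 41530880)) T5.l2
  (TrL.c (I.pos (nat_lit 0) (nat_lit 0)) T5.l5
  (TrL.c (I.pos (nat_lit 0) (nat_lit 0)) T0.l2
  (TrL.c (I.mix (nat_lit 41527258) (nat_lit 41530880)) T5.l4
  (TrL.c (I.mix (nat_lit 41527258) (nat_lit 4274)) T0.l3
  TrL.n)))))))) (by decide +kernel)
theorem bx2_2 : BoxOK sI cl6 cl5 cl9 t0 t5 b2_2 :=
  box_mk (TrL.c (I.pos (nat_lit 0) (nat_lit 0)) (xb (xa T0.l4 T0.l4) (xa T0.l4 T0.l4))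
  (TrL.c (I.pos (nat_lit 0) (nat_lit 0)) T5.l1
  (TrL.c (I.pos (nat_lit 0) (nat_lit 89480386)) T0.l1
  (TrL.c (I.pos (nat_lit 0) (nat_lit 41530880)) T5.l2
  (TrL.c (I.pos (nat_lit 0) (nat_lit 0)) T5.l5
  (TrL.c (I.pos (nat_lit 0) (nat_lit 0)) T0.l2
  (TrL.c (I.mix (nat_lit 41527258) (nat_lit 41530880)) T5.l4
  (TrL.c (I.mix (nat_lit 41527258) (nat_lit 4274)) T0.l3
  TrL.n)))))))) (by decide +kernel)
theorem bx2_3 : BoxOK sI cl6 cl5 cl9 t0 t5 b2_3 :=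
  box_mk (TrL.c (I.pos (nat_lit 0) (nat_lit 0)) T5.l1
  (TrL.c (I.pos (nat_lit 0) (nat_lit 0)) T0.l1
  (TrL.c (I.mix (nat_lit 41527258) (nat_lit 41530880)) T5.l6
  (TrL.c (I.mix (nat_lit 41527258) (nat_lit 4274)) T0.l9
  TrL.n)))) (by decide +kernel)
theorem bx2_4 : BoxOK sI cl6 cl5 cl9 t0 t5 b2_4 :=
  box_mk (TrL.c (I.pos (nat_lit 0) (nat_lit 0)) (xa (xb (xa T0.l4 T0.l4) (xa T0.l4 T0.l4)) (xb T0.l4 T0.l4))
  (TrL.c (I.pos (nat_lit 0) (nat_lit 0)) T5.l1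
  (TrL.c (I.pos (nat_lit 0) (nat_lit 89480386)) T0.l1
  (TrL.c (I.pos (nat_lit 0) (nat_lit 41530880)) T5.l2
  (TrL.c (I.pos (nat_lit 0) (nat_lit 0)) (xa T5.l5 T5.l5)
  (TrL.c (I.pos (nat_lit 0) (nat_lit 0)) T0.l2
  (TrL.c (I.mix (nat_lit 41527258) (nat_lit 41530880)) T5.l4
  (TrL.c (I.mix (nat_lit 41527258) (nat_lit 4274)) T0.l8
  TrL.n)))))))) (by decide +kernel)
theorem bx2_5 : BoxOK sI cl6 cl5 cl9 t0 t5 b2_5 :=
  box_mk (TrL.c (I.pos (nat_lit 0) (nat_lit 0)) T5.l7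
  (TrL.c (I.pos (nat_lit 0) (nat_lit 0)) T0.l1
  (TrL.c (I.mix (nat_lit 41527258) (nat_lit 41530880)) T5.l6
  (TrL.c (I.mix (nat_lit 41527258) (nat_lit 4274)) T0.l9
  TrL.n)))) (by decide +kernel)
theorem bx2_6 : BoxOK sI cl6 cl5 cl9 t0 t5 b2_6 :=
  box_mk (TrL.c (I.pos (nat_lit 0) (nat_lit 0)) (xb (xa T0.l10 T0.l10) (xa T0.l10 T0.l10))
  (TrL.c (I.pos (nat_lit 0) (nat_lit 0)) T5.l1
  (TrL.c (I.pos (nat_lit 0) (nat_lit 89480386)) T0.l1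
  (TrL.c (I.pos (nat_lit 0) (nat_lit 41530880)) T5.l2
  (TrL.c (I.pos (nat_lit 0) (nat_lit 0)) (xb T5.l11 T5.l11)
  (TrL.c (I.pos (nat_lit 0) (nat_lit 0)) T0.l2
  (TrL.c (I.mix (nat_lit 41527258) (nat_lit 41530880)) T5.l8
  (TrL.c (I.mix (nat_lit 41527258) (nat_lit 4274)) T0.l8
  TrL.n)))))))) (by decide +kernel)
theorem bx2_7 : BoxOK sI cl6 cl5 cl9 t0 t5 b2_7 :=
  box_mk (TrL.c (I.pos (nat_lit 0) (nat_lit 0)) (xb (xa T0.l4 T0.l4) (xa (xb T0.l4 T0.l4) T0.l4))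
  (TrL.c (I.pos (nat_lit 0) (nat_lit 0)) T5.l7
  (TrL.c (I.pos (nat_lit 0) (nat_lit 89480386)) T0.l1
  (TrL.c (I.pos (nat_lit 0) (nat_lit 41530880)) T5.l6
  (TrL.c (I.pos (nat_lit 0) (nat_lit 0)) T5.l5
  (TrL.c (I.pos (nat_lit 0) (nat_lit 0)) T0.l2
  (TrL.c (I.mix (nat_lit 41527258) (nat_lit 41530880)) T5.l4
  (TrL.c (I.mix (nat_lit 41527258) (nat_lit 4274)) T0.l3
  TrL.n)))))))) (by decide +kernel)
theorem bx2_8 : BoxOK sI cl6 cl5 cl9 t0 t5 b2_8 :=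
  box_mk (TrL.c (I.pos (nat_lit 0) (nat_lit 0)) (xa (xb T0.l0 (xa T0.l0 T0.l0)) (xb T0.l0 (xa T0.l0 T0.l0)))
  (TrL.c (I.pos (nat_lit 0) (nat_lit 0)) T5.l1
  (TrL.c (I.pos (nat_lit 0) (nat_lit 89480386)) T0.l1
  (TrL.c (I.pos (nat_lit 0) (nat_lit 41530880)) T5.l2
  (TrL.c (I.pos (nat_lit 0) (nat_lit 0)) (xa (xb T5.l0 T5.l3) (xb (xa T5.l3 (xb T5.l3 T5.l3)) (xa T5.l3 (xb T5.l3 T5.l3))))
  (TrL.c (I.pos (nat_lit 0) (nat_lit 0)) T0.l2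
  (TrL.c (I.mix (nat_lit 41527258) (nat_lit 41530880)) T5.l8
  (TrL.c (I.mix (nat_lit 41527258) (nat_lit 4274)) T0.l3
  TrL.n)))))))) (by decide +kernel)
theorem bx2_9 : BoxOK sI cl6 cl5 cl9 t0 t5 b2_9 :=
  box_mk (TrL.c (I.pos (nat_lit 0) (nat_lit 0)) (xa (xb T0.l10 T0.l10) T0.l0)
  (TrL.c (I.pos (nat_lit 0) (nat_lit 0)) T5.l1
  (TrL.c (I.pos (nat_lit 0) (nat_lit 89480386)) T0.l1
  (TrL.c (I.pos (nat_lit 0) (nat_lit 41530880)) T5.l2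
  (TrL.c (I.pos (nat_lit 0) (nat_lit 0)) (xb T5.l11 T5.l11)
  (TrL.c (I.pos (nat_lit 0) (nat_lit 0)) T0.l2
  (TrL.c (I.mix (nat_lit 41527258) (nat_lit 41530880)) T5.l4
  (TrL.c (I.mix (nat_lit 41527258) (nat_lit 4274)) T0.l3
  TrL.n)))))))) (by decide +kernel)
theorem bx2_10 : BoxOK sI cl6 cl5 cl9 t0 t5 b2_10 :=
  box_mk (TrL.c (I.pos (nat_lit 0) (nat_lit 0)) (xb T0.l10 T0.l10)
  (TrL.c (I.pos (nat_lit 0) (nat_lit 0)) T5.l1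
  (TrL.c (I.pos (nat_lit 0) (nat_lit 89480386)) T0.l1
  (TrL.c (I.pos (nat_lit 0) (nat_lit 41530880)) T5.l2
  (TrL.c (I.pos (nat_lit 0) (nat_lit 0)) T5.l11
  (TrL.c (I.pos (nat_lit 0) (nat_lit 0)) T0.l2
  (TrL.c (I.mix (nat_lit 41527258) (nat_lit 41530880)) T5.l4
  (TrL.c (I.mix (nat_lit 41527258) (nat_lit 4274)) T0.l3
  TrL.n)))))))) (by decide +kernel)
theorem bx2_11 : BoxOK sI cl6 cl5 cl9 t0 t5 b2_11 :=
  box_mk (TrL.c (I.pos (nat_lit 0) (nat_lit 0)) (xa (xb T0.l0 (xb T0.l0 T0.l0)) (xb T0.l0 T0.l0))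
  (TrL.c (I.pos (nat_lit 0) (nat_lit 0)) T5.l1
  (TrL.c (I.pos (nat_lit 0) (nat_lit 89480386)) T0.l1
  (TrL.c (I.pos (nat_lit 0) (nat_lit 41530880)) T5.l2
  (TrL.c (I.pos (nat_lit 0) (nat_lit 0)) (xb T5.l3 T5.l3)
  (TrL.c (I.pos (nat_lit 0) (nat_lit 0)) T0.l2
  (TrL.c (I.mix (nat_lit 41527258) (nat_lit 41530880)) T5.l8
  (TrL.c (I.mix (nat_lit 41527258) (nat_lit 4274)) T0.l8
  TrL.n)))))))) (by decide +kernel)
theorem sv2 : StarV sI cl6 cl5 cl9 t0 t5 t2 :=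
  (bt_n (bt_n (bt_n (bt_b bx2_0) (bt_n (bt_b bx2_1) (bt_b bx2_2))) (bt_n (bt_b bx2_3) (bt_n (bt_b bx2_4) (bt_b bx2_5)))) (bt_n (bt_n (bt_b bx2_6) (bt_n (bt_b bx2_7) (bt_b bx2_8))) (bt_n (bt_b bx2_9) (bt_n (bt_b bx2_10) (bt_b bx2_11)))))
def S2 : StarD := StarD.mk cl6 cl5 cl9 0 5 t2
theorem bx3_0 : BoxOK sI cl6 cl9 cl5 t5 t0 b3_0 :=
  box_mk (TrL.c (I.pos (nat_lit 0) (nat_lit 0)) (xa (xb (xa T5.l0 T5.l0) (xa (xb T5.l0 T5.l0) (xb T5.l0 T5.l0))) (xb (xa T5.l0 T5.l0) (xa (xb T5.l0 T5.l0) (xb T5.l0 T5.l0))))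
  (TrL.c (I.pos (nat_lit 0) (nat_lit 0)) T0.l7
  (TrL.c (I.pos (nat_lit 0) (nat_lit 89480386)) T5.l8
  (TrL.c (I.pos (nat_lit 0) (nat_lit 41530880)) T0.l8
  (TrL.c (I.pos (nat_lit 0) (nat_lit 0)) (xa T0.l11 T0.l11)
  (TrL.c (I.pos (nat_lit 0) (nat_lit 0)) T5.l9
  (TrL.c (I.mix (nat_lit 41527258) (nat_lit 41530880)) T0.l9
  (TrL.c (I.mix (nat_lit 41527258) (nat_lit 4274)) T5.l10
  TrL.n)))))))) (by decide +kernel)
theorem bx3_1 : BoxOK sI cl6 cl9 cl5 t5 t0 b3_1 :=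
  box_mk (TrL.c (I.pos (nat_lit 0) (nat_lit 0)) (xa (xb (xa T5.l12 T5.l12) (xa T5.l12 T5.l12)) (xb T5.l12 T5.l12))
  (TrL.c (I.pos (nat_lit 0) (nat_lit 0)) T0.l7
  (TrL.c (I.pos (nat_lit 0) (nat_lit 89480386)) T5.l8
  (TrL.c (I.pos (nat_lit 0) (nat_lit 41530880)) T0.l8
  (TrL.c (I.pos (nat_lit 0) (nat_lit 0)) (xa T0.l12 T0.l12)
  (TrL.c (I.pos (nat_lit 0) (nat_lit 0)) T5.l9
  (TrL.c (I.mix (nat_lit 41527258) (nat_lit 41530880)) T0.l9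
  (TrL.c (I.mix (nat_lit 41527258) (nat_lit 4274)) T5.l10
  TrL.n)))))))) (by decide +kernel)
theorem bx3_2 : BoxOK sI cl6 cl9 cl5 t5 t0 b3_2 :=
  box_mk (TrL.c (I.pos (nat_lit 0) (nat_lit 0)) (xa (xa (xb (xa T5.l12 T5.l12) T5.l12) T5.l12) T5.l12)
  (TrL.c (I.pos (nat_lit 0) (nat_lit 0)) (xa T0.l7 T0.l7)
  (TrL.c (I.pos (nat_lit 0) (nat_lit 89480386)) T5.l8
  (TrL.c (I.pos (nat_lit 0) (nat_lit 41530880)) T0.l8
  (TrL.c (I.pos (nat_lit 0) (nat_lit 0)) (xa T0.l12 T0.l12)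
  (TrL.c (I.pos (nat_lit 0) (nat_lit 0)) T5.l9
  (TrL.c (I.mix (nat_lit 41527258) (nat_lit 41530880)) T0.l9
  (TrL.c (I.mix (nat_lit 41527258) (nat_lit 4274)) T5.l10
  TrL.n)))))))) (by decide +kernel)
theorem bx3_3 : BoxOK sI cl6 cl9 cl5 t5 t0 b3_3 :=
  box_mk (TrL.c (I.pos (nat_lit 0) (nat_lit 0)) (xb (xa (xb T5.l13 T5.l13) (xb T5.l13 T5.l13)) (xa (xb T5.l13 (xa T5.l13 T5.l13)) (xb T5.l13 (xa T5.l13 T5.l13))))
  (TrL.c (I.pos (nat_lit 0) (nat_lit 0)) T0.l7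
  (TrL.c (I.pos (nat_lit 0) (nat_lit 89480386)) T5.l8
  (TrL.c (I.pos (nat_lit 0) (nat_lit 41530880)) T0.l8
  (TrL.c (I.pos (nat_lit 0) (nat_lit 0)) (xb T0.l13 T0.l13)
  (TrL.c (I.pos (nat_lit 0) (nat_lit 0)) T5.l9
  (TrL.c (I.mix (nat_lit 41527258) (nat_lit 41530880)) T0.l9
  (TrL.c (I.mix (nat_lit 41527258) (nat_lit 4274)) T5.l10
  TrL.n)))))))) (by decide +kernel)
theorem bx3_4 : BoxOK sI cl6 cl9 cl5 t5 t0 b3_4 :=
  box_mk (TrL.c (I.pos (nat_lit 0) (nat_lit 0)) (xa (xa (xb T5.l12 (xa (xb T5.l12 T5.l12) T5.l12)) (xb T5.l12 (xa T5.l12 T5.l12))) (xa (xb T5.l12 (xa T5.l12 T5.l12)) (xb T5.l12 (xa T5.l12 T5.l12))))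
  (TrL.c (I.pos (nat_lit 0) (nat_lit 0)) (xa T0.l7 T0.l7)
  (TrL.c (I.pos (nat_lit 0) (nat_lit 89480386)) T5.l8
  (TrL.c (I.pos (nat_lit 0) (nat_lit 41530880)) T0.l8
  (TrL.c (I.pos (nat_lit 0) (nat_lit 0)) (xa T0.l12 T0.l12)
  (TrL.c (I.pos (nat_lit 0) (nat_lit 0)) T5.l9
  (TrL.c (I.mix (nat_lit 41527258) (nat_lit 41530880)) T0.l9
  (TrL.c (I.mix (nat_lit 41527258) (nat_lit 4274)) T5.l10
  TrL.n)))))))) (by decide +kernel)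
theorem bx3_5 : BoxOK sI cl6 cl9 cl5 t5 t0 b3_5 :=
  box_mk (TrL.c (I.pos (nat_lit 0) (nat_lit 0)) (xa (xb T5.l0 T5.l0) T5.l0)
  (TrL.c (I.pos (nat_lit 0) (nat_lit 0)) T0.l7
  (TrL.c (I.pos (nat_lit 0) (nat_lit 89480386)) T5.l8
  (TrL.c (I.pos (nat_lit 0) (nat_lit 41530880)) T0.l8
  (TrL.c (I.pos (nat_lit 0) (nat_lit 0)) (xa T0.l13 T0.l0)
  (TrL.c (I.pos (nat_lit 0) (nat_lit 0)) T5.l9
  (TrL.c (I.mix (nat_lit 41527258) (nat_lit 41530880)) T0.l9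
  (TrL.c (I.mix (nat_lit 41527258) (nat_lit 4274)) T5.l10
  TrL.n)))))))) (by decide +kernel)
theorem bx3_6 : BoxOK sI cl6 cl9 cl5 t5 t0 b3_6 :=
  box_mk (TrL.c (I.pos (nat_lit 0) (nat_lit 0)) T5.l12
  (TrL.c (I.pos (nat_lit 0) (nat_lit 0)) T0.l7
  (TrL.c (I.pos (nat_lit 0) (nat_lit 89480386)) T5.l8
  (TrL.c (I.pos (nat_lit 0) (nat_lit 41530880)) T0.l8
  (TrL.c (I.pos (nat_lit 0) (nat_lit 0)) T0.l12
  (TrL.c (I.pos (nat_lit 0) (nat_lit 0)) T5.l9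
  (TrL.c (I.mix (nat_lit 41527258) (nat_lit 41530880)) T0.l9
  (TrL.c (I.mix (nat_lit 41527258) (nat_lit 4274)) T5.l10
  TrL.n)))))))) (by decide +kernel)
theorem bx3_7 : BoxOK sI cl6 cl9 cl5 t5 t0 b3_7 :=
  box_mk (TrL.c (I.pos (nat_lit 0) (nat_lit 0)) T5.l12
  (TrL.c (I.pos (nat_lit 0) (nat_lit 0)) T0.l7
  (TrL.c (I.pos (nat_lit 0) (nat_lit 89480386)) T5.l8
  (TrL.c (I.pos (nat_lit 0) (nat_lit 41530880)) T0.l8
  (TrL.c (I.pos (nat_lit 0) (nat_lit 0)) (xa T0.l12 T0.l12)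
  (TrL.c (I.pos (nat_lit 0) (nat_lit 0)) T5.l9
  (TrL.c (I.mix (nat_lit 41527258) (nat_lit 41530880)) T0.l9
  (TrL.c (I.mix (nat_lit 41527258) (nat_lit 4274)) T5.l10
  TrL.n)))))))) (by decide +kernel)
theorem bx3_8 : BoxOK sI cl6 cl9 cl5 t5 t0 b3_8 :=
  box_mk (TrL.c (I.pos (nat_lit 0) (nat_lit 0)) (xa (xa T5.l12 T5.l12) (xa T5.l12 T5.l12))
  (TrL.c (I.pos (nat_lit 0) (nat_lit 0)) (xa T0.l7 T0.l7)
  (TrL.c (I.pos (nat_lit 0) (nat_lit 89480386)) T5.l8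
  (TrL.c (I.pos (nat_lit 0) (nat_lit 41530880)) T0.l8
  (TrL.c (I.pos (nat_lit 0) (nat_lit 0)) (xa T0.l12 T0.l12)
  (TrL.c (I.pos (nat_lit 0) (nat_lit 0)) T5.l9
  (TrL.c (I.mix (nat_lit 41527258) (nat_lit 41530880)) T0.l9
  (TrL.c (I.mix (nat_lit 41527258) (nat_lit 4274)) T5.l10
  TrL.n)))))))) (by decide +kernel)
theorem bx3_9 : BoxOK sI cl6 cl9 cl5 t5 t0 b3_9 :=
  box_mk (TrL.c (I.pos (nat_lit 0) (nat_lit 0)) (xb (xa T5.l12 T5.l12) (xa T5.l12 T5.l12))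
  (TrL.c (I.pos (nat_lit 0) (nat_lit 0)) T0.l7
  (TrL.c (I.pos (nat_lit 0) (nat_lit 89480386)) T5.l8
  (TrL.c (I.pos (nat_lit 0) (nat_lit 41530880)) T0.l8
  (TrL.c (I.pos (nat_lit 0) (nat_lit 0)) (xb T0.l12 T0.l12)
  (TrL.c (I.pos (nat_lit 0) (nat_lit 0)) T5.l9
  (TrL.c (I.mix (nat_lit 41527258) (nat_lit 41530880)) T0.l9
  (TrL.c (I.mix (nat_lit 41527258) (nat_lit 4274)) T5.l10
  TrL.n)))))))) (by decide +kernel)
theorem bx3_10 : BoxOK sI cl6 cl9 cl5 t5 t0 b3_10 :=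
  box_mk (TrL.c (I.pos (nat_lit 0) (nat_lit 0)) T5.l12
  (TrL.c (I.pos (nat_lit 0) (nat_lit 0)) T0.l7
  (TrL.c (I.pos (nat_lit 0) (nat_lit 89480386)) T5.l8
  (TrL.c (I.pos (nat_lit 0) (nat_lit 41530880)) T0.l8
  (TrL.c (I.pos (nat_lit 0) (nat_lit 0)) (xa T0.l12 T0.l12)
  (TrL.c (I.pos (nat_lit 0) (nat_lit 0)) T5.l9
  (TrL.c (I.mix (nat_lit 41527258) (nat_lit 41530880)) T0.l9
  (TrL.c (I.mix (nat_lit 41527258) (nat_lit 4274)) T5.l10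
  TrL.n)))))))) (by decide +kernel)
theorem bx3_11 : BoxOK sI cl6 cl9 cl5 t5 t0 b3_11 :=
  box_mk (TrL.c (I.pos (nat_lit 0) (nat_lit 0)) (xa (xb (xa T5.l0 T5.l0) (xa (xb T5.l0 T5.l0) (xb T5.l0 T5.l0))) (xb (xa T5.l0 T5.l0) (xa (xb T5.l0 T5.l0) (xb T5.l0 T5.l0))))
  (TrL.c (I.pos (nat_lit 0) (nat_lit 0)) T0.l7
  (TrL.c (I.pos (nat_lit 0) (nat_lit 89480386)) T5.l8
  (TrL.c (I.pos (nat_lit 0) (nat_lit 41530880)) T0.l8
  (TrL.c (I.pos (nat_lit 0) (nat_lit 0)) (xa (xb T0.l11 T0.l11) (xb (xa T0.l11 T0.l11) (xa T0.l11 T0.l11)))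
  (TrL.c (I.pos (nat_lit 0) (nat_lit 0)) T5.l9
  (TrL.c (I.mix (nat_lit 41527258) (nat_lit 41530880)) T0.l9
  (TrL.c (I.mix (nat_lit 41527258) (nat_lit 4274)) T5.l10
  TrL.n)))))))) (by decide +kernel)
theorem bx3_12 : BoxOK sI cl6 cl9 cl5 t5 t0 b3_12 :=
  box_mk (TrL.c (I.pos (nat_lit 0) (nat_lit 0)) (xa (xb T5.l0 (xa T5.l0 T5.l0)) (xb T5.l0 T5.l0))
  (TrL.c (I.pos (nat_lit 0) (nat_lit 0)) T0.l7
  (TrL.c (I.pos (nat_lit 0) (nat_lit 89480386)) T5.l8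
  (TrL.c (I.pos (nat_lit 0) (nat_lit 41530880)) T0.l8
  (TrL.c (I.pos (nat_lit 0) (nat_lit 0)) T0.l11
  (TrL.c (I.pos (nat_lit 0) (nat_lit 0)) T5.l9
  (TrL.c (I.mix (nat_lit 41527258) (nat_lit 41530880)) T0.l9
  (TrL.c (I.mix (nat_lit 41527258) (nat_lit 4274)) T5.l10
  TrL.n)))))))) (by decide +kernel)
theorem bx3_13 : BoxOK sI cl6 cl9 cl5 t5 t0 b3_13 :=
  box_mk (TrL.c (I.pos (nat_lit 0) (nat_lit 0)) (xb (xa T5.l13 T5.l13) T5.l13)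
  (TrL.c (I.pos (nat_lit 0) (nat_lit 0)) T0.l7
  (TrL.c (I.pos (nat_lit 0) (nat_lit 89480386)) T5.l8
  (TrL.c (I.pos (nat_lit 0) (nat_lit 41530880)) T0.l8
  (TrL.c (I.pos (nat_lit 0) (nat_lit 0)) T0.l13
  (TrL.c (I.pos (nat_lit 0) (nat_lit 0)) T5.l9
  (TrL.c (I.mix (nat_lit 41527258) (nat_lit 41530880)) T0.l9
  (TrL.c (I.mix (nat_lit 41527258) (nat_lit 4274)) T5.l10
  TrL.n)))))))) (by decide +kernel)
theorem sv3 : StarV sI cl6 cl9 cl5 t5 t0 t3 :=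
  (bt_n (bt_n (bt_n (bt_b bx3_0) (bt_n (bt_b bx3_1) (bt_b bx3_2))) (bt_n (bt_n (bt_b bx3_3) (bt_b bx3_4)) (bt_n (bt_b bx3_5) (bt_b bx3_6)))) (bt_n (bt_n (bt_b bx3_7) (bt_n (bt_b bx3_8) (bt_b bx3_9))) (bt_n (bt_n (bt_b bx3_10) (bt_b bx3_11)) (bt_n (bt_b bx3_12) (bt_b bx3_13)))))
def S3 : StarD := StarD.mk cl6 cl9 cl5 5 0 t3
theorem bx4_0 : BoxOK sI cl9 cl5 cl6 t1 t3 b4_0 :=
  box_mk (TrL.c (I.pos (nat_lit 0) (nat_lit 0)) (xa (xb (xa T1.l0 T1.l0) (xa (xb T1.l0 (xa T1.l0 T1.l0)) (xb T1.l0 T1.l0))) (xb T1.l0 (xa (xb T1.l0 T1.l0) (xb T1.l0 T1.l0))))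
  (TrL.c (I.pos (nat_lit 0) (nat_lit 0)) T3.l1
  (TrL.c (I.pos (nat_lit 0) (nat_lit 124588530)) (xR T1.l1 T1.l1)
  (TrL.c (I.pos (nat_lit 0) (nat_lit 96881482)) T3.l2
  (TrL.c (I.pos (nat_lit 0) (nat_lit 0)) (xa (xb T3.l3 T3.l3) (xb (xk T3.l3 T3.l3) (xk T3.l3 T3.l3)))
  (TrL.c (I.pos (nat_lit 0) (nat_lit 0)) T1.l2
  (TrL.c (I.mix (nat_lit 17240550) (nat_lit 96881482)) (xR T3.l4 T3.l4)
  (TrL.c (I.mix (nat_lit 17240550) (nat_lit 71940500)) T1.l3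
  TrL.n)))))))) (by decide +kernel)
theorem bx4_1 : BoxOK sI cl9 cl5 cl6 t1 t3 b4_1 :=
  box_mk (TrL.c (I.pos (nat_lit 0) (nat_lit 0)) (xa (xb T1.l4 T1.l4) (xb T1.l4 T1.l4))
  (TrL.c (I.pos (nat_lit 0) (nat_lit 0)) T3.l1
  (TrL.c (I.pos (nat_lit 0) (nat_lit 124588530)) (xR T1.l1 T1.l1)
  (TrL.c (I.pos (nat_lit 0) (nat_lit 96881482)) T3.l2
  (TrL.c (I.pos (nat_lit 0) (nat_lit 0)) (xa (xb T3.l5 T3.l5) (xb T3.l5 T3.l5))
  (TrL.c (I.pos (nat_lit 0) (nat_lit 0)) T1.l2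
  (TrL.c (I.mix (nat_lit 17240550) (nat_lit 96881482)) T3.l4
  (TrL.c (I.mix (nat_lit 17240550) (nat_lit 71940500)) T1.l3
  TrL.n)))))))) (by decide +kernel)
theorem bx4_2 : BoxOK sI cl9 cl5 cl6 t1 t3 b4_2 :=
  box_mk (TrL.c (I.pos (nat_lit 0) (nat_lit 0)) T3.l1
  (TrL.c (I.pos (nat_lit 0) (nat_lit 0)) T1.l1
  (TrL.c (I.mix (nat_lit 17240550) (nat_lit 96881482)) T3.l2
  (TrL.c (I.mix (nat_lit 17240550) (nat_lit 71940500)) T1.l8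
  TrL.n)))) (by decide +kernel)
theorem bx4_3 : BoxOK sI cl9 cl5 cl6 t1 t3 b4_3 :=
  box_mk (TrL.c (I.pos (nat_lit 0) (nat_lit 0)) (xb (xa T1.l13 T1.l13) (xa (xb T1.l13 T1.l13) (xb T1.l13 T1.l13)))
  (TrL.c (I.pos (nat_lit 0) (nat_lit 0)) T3.l1
  (TrL.c (I.pos (nat_lit 0) (nat_lit 124588530)) (xR T1.l1 T1.l10)
  (TrL.c (I.pos (nat_lit 0) (nat_lit 96881482)) T3.l2
  (TrL.c (I.pos (nat_lit 0) (nat_lit 0)) (xk T3.l3 T3.l3)
  (TrL.c (I.pos (nat_lit 0) (nat_lit 0)) T1.l2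
  (TrL.c (I.mix (nat_lit 17240550) (nat_lit 96881482)) T3.l4
  (TrL.c (I.mix (nat_lit 17240550) (nat_lit 71940500)) T1.l3
  TrL.n)))))))) (by decide +kernel)
theorem bx4_4 : BoxOK sI cl9 cl5 cl6 t1 t3 b4_4 :=
  box_mk (TrL.c (I.pos (nat_lit 0) (nat_lit 0)) (xb T1.l4 (xa T1.l4 T1.l4))
  (TrL.c (I.pos (nat_lit 0) (nat_lit 0)) T3.l1
  (TrL.c (I.pos (nat_lit 0) (nat_lit 124588530)) T1.l1
  (TrL.c (I.pos (nat_lit 0) (nat_lit 96881482)) T3.l2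
  (TrL.c (I.pos (nat_lit 0) (nat_lit 0)) T3.l5
  (TrL.c (I.pos (nat_lit 0) (nat_lit 0)) T1.l2
  (TrL.c (I.mix (nat_lit 17240550) (nat_lit 96881482)) T3.l4
  (TrL.c (I.mix (nat_lit 17240550) (nat_lit 71940500)) T1.l8
  TrL.n)))))))) (by decide +kernel)
theorem bx4_5 : BoxOK sI cl9 cl5 cl6 t1 t3 b4_5 :=
  box_mk (TrL.c (I.pos (nat_lit 0) (nat_lit 0)) (xa T1.l4 (xb T1.l4 T1.l4))
  (TrL.c (I.pos (nat_lit 0) (nat_lit 0)) T3.l1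
  (TrL.c (I.pos (nat_lit 0) (nat_lit 124588530)) T1.l1
  (TrL.c (I.pos (nat_lit 0) (nat_lit 96881482)) T3.l2
  (TrL.c (I.pos (nat_lit 0) (nat_lit 0)) T3.l5
  (TrL.c (I.pos (nat_lit 0) (nat_lit 0)) T1.l2
  (TrL.c (I.mix (nat_lit 17240550) (nat_lit 96881482)) T3.l4
  (TrL.c (I.mix (nat_lit 17240550) (nat_lit 71940500)) T1.l3
  TrL.n)))))))) (by decide +kernel)
theorem bx4_6 : BoxOK sI cl9 cl5 cl6 t1 t3 b4_6 :=
  box_mk (TrL.c (I.pos (nat_lit 0) (nat_lit 0)) (xb (xa T1.l4 T1.l4) (xa T1.l4 T1.l4))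
  (TrL.c (I.pos (nat_lit 0) (nat_lit 0)) T3.l1
  (TrL.c (I.pos (nat_lit 0) (nat_lit 124588530)) (xR T1.l1 T1.l1)
  (TrL.c (I.pos (nat_lit 0) (nat_lit 96881482)) T3.l2
  (TrL.c (I.pos (nat_lit 0) (nat_lit 0)) (xb T3.l5 T3.l5)
  (TrL.c (I.pos (nat_lit 0) (nat_lit 0)) T1.l2
  (TrL.c (I.mix (nat_lit 17240550) (nat_lit 96881482)) T3.l4
  (TrL.c (I.mix (nat_lit 17240550) (nat_lit 71940500)) T1.l8
  TrL.n)))))))) (by decide +kernel)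
theorem bx4_7 : BoxOK sI cl9 cl5 cl6 t1 t3 b4_7 :=
  box_mk (TrL.c (I.pos (nat_lit 0) (nat_lit 0)) T3.l1
  (TrL.c (I.pos (nat_lit 0) (nat_lit 0)) T1.l1
  (TrL.c (I.mix (nat_lit 17240550) (nat_lit 96881482)) T3.l2
  (TrL.c (I.mix (nat_lit 17240550) (nat_lit 71940500)) T1.l8
  TrL.n)))) (by decide +kernel)
theorem bx4_8 : BoxOK sI cl9 cl5 cl6 t1 t3 b4_8 :=
  box_mk (TrL.c (I.pos (nat_lit 0) (nat_lit 0)) (xa (xb T1.l0 T1.l13) T1.l0)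
  (TrL.c (I.pos (nat_lit 0) (nat_lit 0)) T3.l1
  (TrL.c (I.pos (nat_lit 0) (nat_lit 124588530)) (xR T1.l1 T1.l1)
  (TrL.c (I.pos (nat_lit 0) (nat_lit 96881482)) T3.l2
  (TrL.c (I.pos (nat_lit 0) (nat_lit 0)) (xa T3.l13 (xk T3.l3 T3.l3))
  (TrL.c (I.pos (nat_lit 0) (nat_lit 0)) T1.l2
  (TrL.c (I.mix (nat_lit 17240550) (nat_lit 96881482)) T3.l4
  (TrL.c (I.mix (nat_lit 17240550) (nat_lit 71940500)) T1.l3
  TrL.n)))))))) (by decide +kernel)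
theorem bx4_9 : BoxOK sI cl9 cl5 cl6 t1 t3 b4_9 :=
  box_mk (TrL.c (I.pos (nat_lit 0) (nat_lit 0)) (xa (xb (xa T1.l0 T1.l0) (xa (xb T1.l0 T1.l0) (xb T1.l0 T1.l0))) (xb (xa T1.l0 T1.l0) (xa (xb T1.l0 T1.l0) (xb T1.l0 T1.l0))))
  (TrL.c (I.pos (nat_lit 0) (nat_lit 0)) (xa T3.l1 T3.l1)
  (TrL.c (I.pos (nat_lit 0) (nat_lit 124588530)) (xR T1.l10 T1.l10)
  (TrL.c (I.pos (nat_lit 0) (nat_lit 96881482)) T3.l2
  (TrL.c (I.pos (nat_lit 0) (nat_lit 0)) (xa (xb (xk (xa T3.l3 (xb T3.l3 T3.l3)) (xa T3.l3 T3.l3)) (xk (xa T3.l3 T3.l3) T3.l3)) (xb (xk (xa (xb (xk T3.l3 T3.l3) T3.l3) (xb (xk T3.l3 T3.l3) (xk T3.l3 T3.l3))) (xa (xb (xa T3.l3 T3.l3) T3.l3) (xb (xa T3.l3 T3.l3) (xa T3.l3 T3.l3)))) (xa (xk (xb T3.l3 T3.l3) (xb T3.l3 T3.l3)) (xk (xb (xk T3.l3 T3.l3) (xk T3.l3 T3.l3)) (xb (xa T3.l3 T3.l3) (xk T3.l3 T3.l3))))))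
  (TrL.c (I.pos (nat_lit 0) (nat_lit 0)) (xb (xa T1.l2 T1.l2) (xa T1.l2 T1.l2))
  (TrL.c (I.mix (nat_lit 17240550) (nat_lit 96881482)) (xR T3.l4 T3.l4)
  (TrL.c (I.mix (nat_lit 17240550) (nat_lit 71940500)) T1.l8
  TrL.n)))))))) (by decide +kernel)
theorem bx4_10 : BoxOK sI cl9 cl5 cl6 t1 t3 b4_10 :=
  box_mk (TrL.c (I.pos (nat_lit 0) (nat_lit 0)) (xa (xb T1.l0 (xa T1.l0 T1.l0)) (xb T1.l0 (xa T1.l0 T1.l0)))
  (TrL.c (I.pos (nat_lit 0) (nat_lit 0)) T3.l1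
  (TrL.c (I.pos (nat_lit 0) (nat_lit 124588530)) (xR T1.l1 T1.l1)
  (TrL.c (I.pos (nat_lit 0) (nat_lit 96881482)) T3.l2
  (TrL.c (I.pos (nat_lit 0) (nat_lit 0)) (xk (xa (xb T3.l13 T3.l13) (xb T3.l3 (xb T3.l3 (xs T3.l3 (xa T3.l3 T3.l3))))) (xa (xb T3.l13 T3.l13) (xb T3.l3 (xb (xs T3.l3 T3.l3) (xs (xa T3.l13 T3.l3) (xa T3.l13 (xk T3.l3 T3.l13)))))))
  (TrL.c (I.pos (nat_lit 0) (nat_lit 0)) T1.l2
  (TrL.c (I.mix (nat_lit 17240550) (nat_lit 96881482)) (xR T3.l4 T3.l4)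
  (TrL.c (I.mix (nat_lit 17240550) (nat_lit 71940500)) T1.l3
  TrL.n)))))))) (by decide +kernel)
theorem bx4_11 : BoxOK sI cl9 cl5 cl6 t1 t3 b4_11 :=
  box_mk (TrL.c (I.pos (nat_lit 0) (nat_lit 0)) (xb T1.l13 T1.l13)
  (TrL.c (I.pos (nat_lit 0) (nat_lit 0)) T3.l1
  (TrL.c (I.pos (nat_lit 0) (nat_lit 124588530)) (xR T1.l1 T1.l1)
  (TrL.c (I.pos (nat_lit 0) (nat_lit 96881482)) T3.l2
  (TrL.c (I.pos (nat_lit 0) (nat_lit 0)) T3.l3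
  (TrL.c (I.pos (nat_lit 0) (nat_lit 0)) T1.l2
  (TrL.c (I.mix (nat_lit 17240550) (nat_lit 96881482)) T3.l4
  (TrL.c (I.mix (nat_lit 17240550) (nat_lit 71940500)) T1.l3
  TrL.n)))))))) (by decide +kernel)
theorem sv4 : StarV sI cl9 cl5 cl6 t1 t3 t4 :=
  (bt_n (bt_n (bt_n (bt_b bx4_0) (bt_n (bt_b bx4_1) (bt_b bx4_2))) (bt_n (bt_b bx4_3) (bt_n (bt_b bx4_4) (bt_b bx4_5)))) (bt_n (bt_n (bt_b bx4_6) (bt_n (bt_b bx4_7) (bt_b bx4_8))) (bt_n (bt_b bx4_9) (bt_n (bt_b bx4_10) (bt_b bx4_11)))))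
def S4 : StarD := StarD.mk cl9 cl5 cl6 1 3 t4
theorem bx5_0 : BoxOK sI cl9 cl6 cl5 t3 t1 b5_0 :=
  box_mk (TrL.c (I.pos (nat_lit 0) (nat_lit 0)) (xa (xb (xa (xb T3.l0 T3.l0) (xb T3.l0 T3.l0)) (xa (xb (xa T3.l0 T3.l0) (xa T3.l0 T3.l0)) (xb T3.l0 (xa T3.l0 T3.l0)))) (xb (xa T3.l0 T3.l0) (xa (xb T3.l0 (xa T3.l0 T3.l0)) (xb T3.l0 T3.l0))))
  (TrL.c (I.pos (nat_lit 0) (nat_lit 0)) (xa T1.l7 T1.l7)
  (TrL.c (I.pos (nat_lit 0) (nat_lit 124588530)) (xR T3.l4 T3.l8)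
  (TrL.c (I.pos (nat_lit 0) (nat_lit 96881482)) T1.l8
  (TrL.c (I.pos (nat_lit 0) (nat_lit 0)) (xa (xk T1.l9 T1.l9) (xk (xb T1.l9 (xb T1.l9 (xa T1.l9 T1.l9))) (xb T1.l9 (xb T1.l9 (xa T1.l9 (xs T1.l9 (xk T1.l9 T1.l9)))))))
  (TrL.c (I.pos (nat_lit 0) (nat_lit 0)) T3.l9
  (TrL.c (I.mix (nat_lit 17240550) (nat_lit 96881482)) (xR T1.l10 T1.l10)
  (TrL.c (I.mix (nat_lit 17240550) (nat_lit 71940500)) T3.l10
  TrL.n)))))))) (by decide +kernel)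
theorem bx5_1 : BoxOK sI cl9 cl6 cl5 t3 t1 b5_1 :=
  box_mk (TrL.c (I.pos (nat_lit 0) (nat_lit 0)) (xa (xb T3.l11 T3.l11) (xb T3.l0 T3.l11))
  (TrL.c (I.pos (nat_lit 0) (nat_lit 0)) T1.l7
  (TrL.c (I.pos (nat_lit 0) (nat_lit 124588530)) (xR T3.l8 T3.l8)
  (TrL.c (I.pos (nat_lit 0) (nat_lit 96881482)) T1.l8
  (TrL.c (I.pos (nat_lit 0) (nat_lit 0)) (xa T1.l11 (xk T1.l11 T1.l11))
  (TrL.c (I.pos (nat_lit 0) (nat_lit 0)) T3.l9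
  (TrL.c (I.mix (nat_lit 17240550) (nat_lit 96881482)) T1.l10
  (TrL.c (I.mix (nat_lit 17240550) (nat_lit 71940500)) T3.l10
  TrL.n)))))))) (by decide +kernel)
theorem bx5_2 : BoxOK sI cl9 cl6 cl5 t3 t1 b5_2 :=
  box_mk (TrL.c (I.pos (nat_lit 0) (nat_lit 0)) T3.l11
  (TrL.c (I.pos (nat_lit 0) (nat_lit 0)) T1.l7
  (TrL.c (I.pos (nat_lit 0) (nat_lit 124588530)) T3.l8
  (TrL.c (I.pos (nat_lit 0) (nat_lit 96881482)) T1.l8
  (TrL.c (I.pos (nat_lit 0) (nat_lit 0)) T1.l7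
  (TrL.c (I.pos (nat_lit 0) (nat_lit 0)) T3.l9
  (TrL.c (I.mix (nat_lit 17240550) (nat_lit 96881482)) T1.l10
  (TrL.c (I.mix (nat_lit 17240550) (nat_lit 71940500)) T3.l10
  TrL.n)))))))) (by decide +kernel)
theorem bx5_3 : BoxOK sI cl9 cl6 cl5 t3 t1 b5_3 :=
  box_mk (TrL.c (I.pos (nat_lit 0) (nat_lit 0)) (xb (xa (xb T3.l12 T3.l12) T3.l12) (xa (xb T3.l12 (xa T3.l12 T3.l12)) (xa T3.l12 T3.l12)))
  (TrL.c (I.pos (nat_lit 0) (nat_lit 0)) T1.l7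
  (TrL.c (I.pos (nat_lit 0) (nat_lit 124588530)) (xR T3.l8 T3.l4)
  (TrL.c (I.pos (nat_lit 0) (nat_lit 96881482)) T1.l8
  (TrL.c (I.pos (nat_lit 0) (nat_lit 0)) (xb (xk T1.l9 T1.l9) (xk T1.l9 T1.l9))
  (TrL.c (I.pos (nat_lit 0) (nat_lit 0)) T3.l9
  (TrL.c (I.mix (nat_lit 17240550) (nat_lit 96881482)) (xR T1.l10 T1.l10)
  (TrL.c (I.mix (nat_lit 17240550) (nat_lit 71940500)) T3.l10
  TrL.n)))))))) (by decide +kernel)
theorem bx5_4 : BoxOK sI cl9 cl6 cl5 t3 t1 b5_4 :=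
  box_mk (TrL.c (I.pos (nat_lit 0) (nat_lit 0)) (xa (xa T3.l11 T3.l11) (xa T3.l11 T3.l11))
  (TrL.c (I.pos (nat_lit 0) (nat_lit 0)) T1.l7
  (TrL.c (I.pos (nat_lit 0) (nat_lit 124588530)) T3.l8
  (TrL.c (I.pos (nat_lit 0) (nat_lit 96881482)) T1.l8
  (TrL.c (I.pos (nat_lit 0) (nat_lit 0)) (xa T1.l11 T1.l11)
  (TrL.c (I.pos (nat_lit 0) (nat_lit 0)) T3.l9
  (TrL.c (I.mix (nat_lit 17240550) (nat_lit 96881482)) T1.l10
  (TrL.c (I.mix (nat_lit 17240550) (nat_lit 71940500)) T3.l10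
  TrL.n)))))))) (by decide +kernel)
theorem bx5_5 : BoxOK sI cl9 cl6 cl5 t3 t1 b5_5 :=
  box_mk (TrL.c (I.pos (nat_lit 0) (nat_lit 0)) T3.l0
  (TrL.c (I.pos (nat_lit 0) (nat_lit 0)) T1.l7
  (TrL.c (I.pos (nat_lit 0) (nat_lit 124588530)) (xR T3.l8 T3.l8)
  (TrL.c (I.pos (nat_lit 0) (nat_lit 96881482)) T1.l8
  (TrL.c (I.pos (nat_lit 0) (nat_lit 0)) (xk T1.l12 T1.l12)
  (TrL.c (I.pos (nat_lit 0) (nat_lit 0)) T3.l9
  (TrL.c (I.mix (nat_lit 17240550) (nat_lit 96881482)) (xR T1.l10 T1.l10)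
  (TrL.c (I.mix (nat_lit 17240550) (nat_lit 71940500)) T3.l10
  TrL.n)))))))) (by decide +kernel)
theorem bx5_6 : BoxOK sI cl9 cl6 cl5 t3 t1 b5_6 :=
  box_mk (TrL.c (I.pos (nat_lit 0) (nat_lit 0)) T3.l11
  (TrL.c (I.pos (nat_lit 0) (nat_lit 0)) T1.l7
  (TrL.c (I.pos (nat_lit 0) (nat_lit 124588530)) T3.l8
  (TrL.c (I.pos (nat_lit 0) (nat_lit 96881482)) T1.l8
  (TrL.c (I.pos (nat_lit 0) (nat_lit 0)) T1.l11
  (TrL.c (I.pos (nat_lit 0) (nat_lit 0)) T3.l9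
  (TrL.c (I.mix (nat_lit 17240550) (nat_lit 96881482)) T1.l10
  (TrL.c (I.mix (nat_lit 17240550) (nat_lit 71940500)) T3.l10
  TrL.n)))))))) (by decide +kernel)
theorem bx5_7 : BoxOK sI cl9 cl6 cl5 t3 t1 b5_7 :=
  box_mk (TrL.c (I.pos (nat_lit 0) (nat_lit 0)) T3.l11
  (TrL.c (I.pos (nat_lit 0) (nat_lit 0)) T1.l7
  (TrL.c (I.pos (nat_lit 0) (nat_lit 124588530)) (xR T3.l8 T3.l8)
  (TrL.c (I.pos (nat_lit 0) (nat_lit 96881482)) T1.l8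
  (TrL.c (I.pos (nat_lit 0) (nat_lit 0)) T1.l11
  (TrL.c (I.pos (nat_lit 0) (nat_lit 0)) T3.l9
  (TrL.c (I.mix (nat_lit 17240550) (nat_lit 96881482)) T1.l10
  (TrL.c (I.mix (nat_lit 17240550) (nat_lit 71940500)) T3.l10
  TrL.n)))))))) (by decide +kernel)
theorem bx5_8 : BoxOK sI cl9 cl6 cl5 t3 t1 b5_8 :=
  box_mk (TrL.c (I.pos (nat_lit 0) (nat_lit 0)) (xa (xa (xb T3.l11 (xa (xb T3.l11 T3.l11) (xb T3.l11 T3.l11))) (xb T3.l11 (xa T3.l11 T3.l11))) (xa (xb T3.l11 T3.l11) (xb T3.l11 (xa T3.l11 T3.l11))))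
  (TrL.c (I.pos (nat_lit 0) (nat_lit 0)) (xa (xa T1.l11 T1.l7) T1.l7)
  (TrL.c (I.pos (nat_lit 0) (nat_lit 124588530)) (xR T3.l8 T3.l8)
  (TrL.c (I.pos (nat_lit 0) (nat_lit 96881482)) T1.l8
  (TrL.c (I.pos (nat_lit 0) (nat_lit 0)) (xa T1.l11 T1.l11)
  (TrL.c (I.pos (nat_lit 0) (nat_lit 0)) T3.l9
  (TrL.c (I.mix (nat_lit 17240550) (nat_lit 96881482)) (xR T1.l10 T1.l10)
  (TrL.c (I.mix (nat_lit 17240550) (nat_lit 71940500)) T3.l2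
  TrL.n)))))))) (by decide +kernel)
theorem bx5_9 : BoxOK sI cl9 cl6 cl5 t3 t1 b5_9 :=
  box_mk (TrL.c (I.pos (nat_lit 0) (nat_lit 0)) (xb (xa T3.l11 T3.l11) T3.l11)
  (TrL.c (I.pos (nat_lit 0) (nat_lit 0)) T1.l7
  (TrL.c (I.pos (nat_lit 0) (nat_lit 124588530)) (xR T3.l8 T3.l8)
  (TrL.c (I.pos (nat_lit 0) (nat_lit 96881482)) T1.l8
  (TrL.c (I.pos (nat_lit 0) (nat_lit 0)) (xb (xa T1.l11 T1.l11) T1.l11)
  (TrL.c (I.pos (nat_lit 0) (nat_lit 0)) T3.l9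
  (TrL.c (I.mix (nat_lit 17240550) (nat_lit 96881482)) T1.l10
  (TrL.c (I.mix (nat_lit 17240550) (nat_lit 71940500)) T3.l10
  TrL.n)))))))) (by decide +kernel)
theorem bx5_10 : BoxOK sI cl9 cl6 cl5 t3 t1 b5_10 :=
  box_mk (TrL.c (I.pos (nat_lit 0) (nat_lit 0)) (xa (xb (xa T3.l11 T3.l11) T3.l11) T3.l11)
  (TrL.c (I.pos (nat_lit 0) (nat_lit 0)) T1.l11
  (TrL.c (I.pos (nat_lit 0) (nat_lit 124588530)) T3.l8
  (TrL.c (I.pos (nat_lit 0) (nat_lit 96881482)) T1.l10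
  (TrL.c (I.pos (nat_lit 0) (nat_lit 0)) T1.l7
  (TrL.c (I.pos (nat_lit 0) (nat_lit 0)) T3.l8
  (TrL.c (I.mix (nat_lit 17240550) (nat_lit 96881482)) T1.l8
  (TrL.c (I.mix (nat_lit 17240550) (nat_lit 71940500)) T3.l4
  TrL.n)))))))) (by decide +kernel)
theorem bx5_11 : BoxOK sI cl9 cl6 cl5 t3 t1 b5_11 :=
  box_mk (TrL.c (I.pos (nat_lit 0) (nat_lit 0)) (xa (xb T3.l12 T3.l12) (xb T3.l12 T3.l12))
  (TrL.c (I.pos (nat_lit 0) (nat_lit 0)) T1.l7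
  (TrL.c (I.pos (nat_lit 0) (nat_lit 124588530)) (xR T3.l8 T3.l8)
  (TrL.c (I.pos (nat_lit 0) (nat_lit 96881482)) T1.l8
  (TrL.c (I.pos (nat_lit 0) (nat_lit 0)) (xk T1.l9 T1.l12)
  (TrL.c (I.pos (nat_lit 0) (nat_lit 0)) T3.l9
  (TrL.c (I.mix (nat_lit 17240550) (nat_lit 96881482)) (xR T1.l10 T1.l10)
  (TrL.c (I.mix (nat_lit 17240550) (nat_lit 71940500)) T3.l10
  TrL.n)))))))) (by decide +kernel)
theorem bx5_12 : BoxOK sI cl9 cl6 cl5 t3 t1 b5_12 :=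
  box_mk (TrL.c (I.pos (nat_lit 0) (nat_lit 0)) (xa (xb (xa (xb T3.l0 T3.l0) T3.l0) (xa (xb T3.l0 T3.l0) (xb T3.l0 T3.l0))) (xb (xa T3.l0 T3.l0) (xa (xb T3.l0 T3.l0) (xb T3.l0 T3.l0))))
  (TrL.c (I.pos (nat_lit 0) (nat_lit 0)) (xa T1.l7 T1.l7)
  (TrL.c (I.pos (nat_lit 0) (nat_lit 124588530)) (xR T3.l4 T3.l4)
  (TrL.c (I.pos (nat_lit 0) (nat_lit 96881482)) T1.l8
  (TrL.c (I.pos (nat_lit 0) (nat_lit 0)) (xa (xb (xk (xa T1.l9 T1.l9) (xa T1.l9 T1.l9)) (xk (xa T1.l9 T1.l9) T1.l9)) (xb (xk (xa (xb T1.l9 T1.l9) (xb (xk T1.l9 T1.l9) (xk T1.l9 T1.l9))) (xa (xb T1.l9 T1.l9) (xb (xk T1.l9 T1.l9) (xa T1.l9 T1.l9)))) (xa (xk (xb T1.l9 T1.l9) T1.l9) (xk (xb (xk T1.l9 T1.l9) (xk T1.l9 T1.l9)) (xb (xa T1.l9 T1.l9) (xk T1.l9 T1.l9))))))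
  (TrL.c (I.pos (nat_lit 0) (nat_lit 0)) (xb T3.l9 T3.l9)
  (TrL.c (I.mix (nat_lit 17240550) (nat_lit 96881482)) (xR T1.l10 T1.l10)
  (TrL.c (I.mix (nat_lit 17240550) (nat_lit 71940500)) T3.l10
  TrL.n)))))))) (by decide +kernel)
theorem bx5_13 : BoxOK sI cl9 cl6 cl5 t3 t1 b5_13 :=
  box_mk (TrL.c (I.pos (nat_lit 0) (nat_lit 0)) (xa (xb T3.l0 (xa T3.l0 T3.l0)) (xb T3.l0 (xa T3.l0 T3.l0)))
  (TrL.c (I.pos (nat_lit 0) (nat_lit 0)) T1.l7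
  (TrL.c (I.pos (nat_lit 0) (nat_lit 124588530)) (xR T3.l8 T3.l8)
  (TrL.c (I.pos (nat_lit 0) (nat_lit 96881482)) T1.l8
  (TrL.c (I.pos (nat_lit 0) (nat_lit 0)) (xk (xa T1.l9 (xb T1.l9 (xb T1.l9 T1.l9))) (xb T1.l9 (xa T1.l12 (xb T1.l9 (xs T1.l9 (xa T1.l12 T1.l9))))))
  (TrL.c (I.pos (nat_lit 0) (nat_lit 0)) T3.l9
  (TrL.c (I.mix (nat_lit 17240550) (nat_lit 96881482)) (xR T1.l10 T1.l10)
  (TrL.c (I.mix (nat_lit 17240550) (nat_lit 71940500)) T3.l10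
  TrL.n)))))))) (by decide +kernel)
theorem sv5 : StarV sI cl9 cl6 cl5 t3 t1 t5 :=
  (bt_n (bt_n (bt_n (bt_b bx5_0) (bt_n (bt_b bx5_1) (bt_b bx5_2))) (bt_n (bt_n (bt_b bx5_3) (bt_b bx5_4)) (bt_n (bt_b bx5_5) (bt_b bx5_6)))) (bt_n (bt_n (bt_b bx5_7) (bt_n (bt_b bx5_8) (bt_b bx5_9))) (bt_n (bt_n (bt_b bx5_10) (bt_b bx5_11)) (bt_n (bt_b bx5_12) (bt_b bx5_13)))))
def S5 : StarD := StarD.mk cl9 cl6 cl5 3 1 t5
def G : List StarD := [S0, S1, S2, S3, S4, S5]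
theorem so0 : StarOK sI G S0 :=
  star_mk (by decide) (by decide) rfl rfl rfl rfl rfl rfl (rfl : _ = t2) (rfl : _ = t4)
  (st_mk (Pth.l (Pth.l (Pth.l Pth.z))) (nat_lit 191797391) (nat_lit 192785318) (by decide +kernel))
  (st_mk (Pth.l (Pth.l (Pth.l Pth.z))) (nat_lit 229123569) (nat_lit 230549803) (by decide +kernel))
  (st_mk (Pth.l (Pth.l (Pth.l Pth.z))) (nat_lit 272776936) (nat_lit 274829470) (by decide +kernel)) sv0
theorem so1 : StarOK sI G S1 :=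
  star_mk (by decide) (by decide) rfl rfl rfl rfl rfl rfl (rfl : _ = t4) (rfl : _ = t2)
  (st_mk (Pth.l (Pth.l (Pth.l Pth.z))) (nat_lit 117862017) (nat_lit 137016801) (by decide +kernel))
  (st_mk (Pth.l (Pth.l (Pth.l Pth.z))) (nat_lit 154749957) (nat_lit 174401918) (by decide +kernel))
  (st_mk (Pth.l (Pth.l (Pth.l Pth.z))) (nat_lit 196156063) (nat_lit 220240731) (by decide +kernel)) sv1
theorem so2 : StarOK sI G S2 :=
  star_mk (by decide) (by decide) rfl rfl rfl rfl rfl rfl (rfl : _ = t0) (rfl : _ = t5)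
  (st_mk (Pth.l (Pth.l (Pth.l Pth.z))) (nat_lit 244149187) (nat_lit 245146462) (by decide +kernel))
  (st_mk (Pth.l (Pth.l (Pth.l Pth.z))) (nat_lit 280931744) (nat_lit 282260390) (by decide +kernel))
  (st_mk (Pth.l (Pth.l (Pth.l Pth.z))) (nat_lit 323723627) (nat_lit 325502787) (by decide +kernel)) sv2
theorem so3 : StarOK sI G S3 :=
  star_mk (by decide) (by decide) rfl rfl rfl rfl rfl rfl (rfl : _ = t5) (rfl : _ = t0)
  (st_mk (Pth.l (Pth.l (Pth.l Pth.z))) (nat_lit 117073892) (nat_lit 135879037) (by decide +kernel))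
  (st_mk (Pth.l (Pth.l (Pth.l Pth.z))) (nat_lit 153380889) (nat_lit 172531316) (by decide +kernel))
  (st_mk (Pth.l (Pth.l (Pth.l Pth.z))) (nat_lit 195769114) (nat_lit 215381045) (by decide +kernel)) sv3
theorem so4 : StarOK sI G S4 :=
  star_mk (by decide) (by decide) rfl rfl rfl rfl rfl rfl (rfl : _ = t1) (rfl : _ = t3)
  (st_mk (Pth.l (Pth.l (Pth.l Pth.z))) (nat_lit 239602201) (nat_lit 241751385) (by decide +kernel))
  (st_mk (Pth.l (Pth.l (Pth.l Pth.z))) (nat_lit 274986504) (nat_lit 277653214) (by decide +kernel))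
  (st_mk (Pth.l (Pth.l (Pth.l Pth.z))) (nat_lit 315899233) (nat_lit 319257417) (by decide +kernel)) sv4
theorem so5 : StarOK sI G S5 :=
  star_mk (by decide) (by decide) rfl rfl rfl rfl rfl rfl (rfl : _ = t3) (rfl : _ = t1)
  (st_mk (Pth.l (Pth.l (Pth.l Pth.z))) (nat_lit 186919859) (nat_lit 188586223) (by decide +kernel))
  (st_mk (Pth.l (Pth.l (Pth.l Pth.z))) (nat_lit 222261475) (nat_lit 224400101) (by decide +kernel))
  (st_mk (Pth.l (Pth.l (Pth.l Pth.z))) (nat_lit 263137229) (nat_lit 265928502) (by decide +kernel)) sv5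
theorem ok : GroupOK (nat_lit 209321984) (nat_lit 268435456) G := grp_mk (allS_c so0 (allS_c so1 (allS_c so2 (allS_c so3 (allS_c so4 (allS_c so5 allS_n))))))
theorem cov : GCov G cl5 cl6 cl9 := cov_mk
  ⟨0, by decide, rfl, rfl, rfl⟩ ⟨1, by decide, rfl, rfl, rfl⟩ ⟨2, by decide, rfl, rfl, rfl⟩ ⟨3, by decide, rfl, rfl, rfl⟩ ⟨4, by decide, rfl, rfl, rfl⟩ ⟨5, by decide, rfl, rfl, rfl⟩
end Q235_3

namespace Q236_0
def sI : I := I.pos (nat_lit 0) (nat_lit 91291648)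
def b0_0 : Bx := Bx.mk (St.mk (I.pos (nat_lit 154107904) (nat_lit 274202624)) (I.mix (nat_lit 10502144) (nat_lit 74055680)) (I.mix (nat_lit 83017728) (nat_lit 88899584)) (I.pos (nat_lit 177635328) (nat_lit 376586240)) (I.mix (nat_lit 97533952) (nat_lit 64471040)) (I.mix (nat_lit 92700672) (nat_lit 56459264)) (I.mix (nat_lit 142131200) (nat_lit 96665600)))
  false (nat_lit 0)
def b0_1 : Bx := Bx.mk (St.mk (I.mix (nat_lit 30507008) (nat_lit 99336192)) (I.mix (nat_lit 4456448) (nat_lit 42516480)) (I.mix (nat_lit 25116672) (nat_lit 5373952)) (I.pos (nat_lit 82395136) (nat_lit 124731392)) (I.mix (nat_lit 28360704) (nat_lit 33718272)) (I.mix (nat_lit 36290560) (nat_lit 26083328)) (I.mix (nat_lit 23805952) (nat_lit 14647296)))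
  false (nat_lit 0)
def b0_2 : Bx := Bx.mk (St.mk (I.pos (nat_lit 82083840) (nat_lit 124993536)) (I.mix (nat_lit 61194240) (nat_lit 6127616)) (I.neg (nat_lit 14467072) (nat_lit 66748416)) (I.pos (nat_lit 113999872) (nat_lit 148815872)) (I.mix (nat_lit 80920576) (nat_lit 24559616)) (I.mix (nat_lit 43433984) (nat_lit 75792384)) (I.mix (nat_lit 31326208) (nat_lit 57540608)))
  false (nat_lit 0)
def b0_3 : Bx := Bx.mk (St.mk (I.mix (nat_lit 48201728) (nat_lit 26935296)) (I.mix (nat_lit 34914304) (nat_lit 3997696)) (I.neg (nat_lit 4079616) (nat_lit 18923520)) (I.pos (nat_lit 82903040) (nat_lit 99762176)) (I.mix (nat_lit 29425664) (nat_lit 18350080)) (I.mix (nat_lit 19382272) (nat_lit 29294592)) (I.mix (nat_lit 10715136) (nat_lit 7897088)))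
  false (nat_lit 0)
def b0_4 : Bx := Bx.mk (St.mk (I.mix (nat_lit 50987008) (nat_lit 8388608)) (I.mix (nat_lit 3129344) (nat_lit 13139968)) (I.neg (nat_lit 13434880) (nat_lit 22036480)) (I.pos (nat_lit 87703552) (nat_lit 99926016)) (I.mix (nat_lit 5603328) (nat_lit 12697600)) (I.mix (nat_lit 7127040) (nat_lit 5865472)) (I.mix (nat_lit 2473984) (nat_lit 3915776)))
  false (nat_lit 0)
def b0_5 : Bx := Bx.mk (St.mk (I.pos (nat_lit 87195648) (nat_lit 164429824)) (I.neg (nat_lit 147456) (nat_lit 69386240)) (I.neg (nat_lit 11272192) (nat_lit 75923456)) (I.pos (nat_lit 122224640) (nat_lit 191512576)) (I.mix (nat_lit 91078656) (nat_lit 44449792)) (I.mix (nat_lit 41517056) (nat_lit 74350592)) (I.mix (nat_lit 31801344) (nat_lit 64716800)))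
  false (nat_lit 0)
def b0_6 : Bx := Bx.mk (St.mk (I.mix (nat_lit 37191680) (nat_lit 50380800)) (I.mix (nat_lit 35373056) (nat_lit 8896512)) (I.neg (nat_lit 5603328) (nat_lit 22790144)) (I.pos (nat_lit 81166336) (nat_lit 100990976)) (I.mix (nat_lit 33914880) (nat_lit 27148288)) (I.mix (nat_lit 24264704) (nat_lit 37388288)) (I.mix (nat_lit 11927552) (nat_lit 14467072)))
  false (nat_lit 0)
def b0_7 : Bx := Bx.mk (St.mk (I.mix (nat_lit 53854208) (nat_lit 98484224)) (I.mix (nat_lit 11763712) (nat_lit 36716544)) (I.mix (nat_lit 22740992) (nat_lit 5980160)) (I.pos (nat_lit 81444864) (nat_lit 115408896)) (I.mix (nat_lit 30867456) (nat_lit 33980416)) (I.mix (nat_lit 39813120) (nat_lit 24510464)) (I.mix (nat_lit 15024128) (nat_lit 14467072)))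
  false (nat_lit 0)
def b0_8 : Bx := Bx.mk (St.mk (I.pos (nat_lit 83165184) (nat_lit 92143616)) (I.mix (nat_lit 3096576) (nat_lit 10108928)) (I.neg (nat_lit 12353536) (nat_lit 23887872)) (I.pos (nat_lit 115146752) (nat_lit 122519552)) (I.mix (nat_lit 6553600) (nat_lit 10764288)) (I.mix (nat_lit 6488064) (nat_lit 4390912)) (I.mix (nat_lit 5095424) (nat_lit 4014080)))
  false (nat_lit 0)
def b0_9 : Bx := Bx.mk (St.mk (I.pos (nat_lit 136265728) (nat_lit 220332032)) (I.mix (nat_lit 46219264) (nat_lit 73302016)) (I.mix (nat_lit 60915712) (nat_lit 79675392)) (I.pos (nat_lit 159318016) (nat_lit 268140544)) (I.mix (nat_lit 121028608) (nat_lit 57245696)) (I.mix (nat_lit 140918784) (nat_lit 89292800)) (I.mix (nat_lit 139182080) (nat_lit 84033536)))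
  false (nat_lit 0)
def t0 : BTr := (BTr.n (BTr.n (BTr.n (BTr.b b0_0) (BTr.b b0_1)) (BTr.n (BTr.b b0_2) (BTr.n (BTr.b b0_3) (BTr.b b0_4)))) (BTr.n (BTr.n (BTr.b b0_5) (BTr.b b0_6)) (BTr.n (BTr.b b0_7) (BTr.n (BTr.b b0_8) (BTr.b b0_9)))))
namespace T0
def l0 : Tr := Tr.L (Pth.l (Pth.l (Pth.l Pth.z)))
def l1 : Tr := Tr.L (Pth.l (Pth.l (Pth.r Pth.z)))
def l2 : Tr := Tr.L (Pth.l (Pth.r (Pth.l Pth.z)))
def l3 : Tr := Tr.L (Pth.l (Pth.r (Pth.r (Pth.l Pth.z))))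
def l4 : Tr := Tr.L (Pth.l (Pth.r (Pth.r (Pth.r Pth.z))))
def l5 : Tr := Tr.L (Pth.r (Pth.l (Pth.l Pth.z)))
def l6 : Tr := Tr.L (Pth.r (Pth.l (Pth.r Pth.z)))
def l7 : Tr := Tr.L (Pth.r (Pth.r (Pth.l Pth.z)))
def l8 : Tr := Tr.L (Pth.r (Pth.r (Pth.r (Pth.l Pth.z))))
def l9 : Tr := Tr.L (Pth.r (Pth.r (Pth.r (Pth.r Pth.z))))
end T0
def b1_0 : Bx := Bx.mk (St.mk (I.pos (nat_lit 154173440) (nat_lit 273072128)) (I.mix (nat_lit 9666560) (nat_lit 54247424)) (I.mix (nat_lit 32374784) (nat_lit 94715904)) (I.pos (nat_lit 85360640) (nat_lit 301629440)) (I.mix (nat_lit 102432768) (nat_lit 61079552)) (I.mix (nat_lit 91947008) (nat_lit 57704448)) (I.mix (nat_lit 145195008) (nat_lit 84721664)))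
  false (nat_lit 0)
def b1_1 : Bx := Bx.mk (St.mk (I.mix (nat_lit 12566528) (nat_lit 144097280)) (I.mix (nat_lit 3391488) (nat_lit 26247168)) (I.mix (nat_lit 8044544) (nat_lit 21790720)) (I.mix (nat_lit 5701632) (nat_lit 90980352)) (I.mix (nat_lit 27164672) (nat_lit 23396352)) (I.mix (nat_lit 29442048) (nat_lit 16400384)) (I.mix (nat_lit 25772032) (nat_lit 12369920)))
  false (nat_lit 0)
def b1_2 : Bx := Bx.mk (St.mk (I.pos (nat_lit 119259136) (nat_lit 163282944)) (I.mix (nat_lit 54804480) (nat_lit 5750784)) (I.mix (nat_lit 60014592) (nat_lit 2883584)) (I.pos (nat_lit 53608448) (nat_lit 115113984)) (I.mix (nat_lit 87310336) (nat_lit 28114944)) (I.mix (nat_lit 48578560) (nat_lit 98041856)) (I.mix (nat_lit 42549248) (nat_lit 90914816)))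
  false (nat_lit 0)
def b1_3 : Bx := Bx.mk (St.mk (I.mix (nat_lit 15515648) (nat_lit 113262592)) (I.mix (nat_lit 25362432) (nat_lit 2719744)) (I.mix (nat_lit 19644416) (nat_lit 1671168)) (I.mix (nat_lit 4063232) (nat_lit 61865984)) (I.mix (nat_lit 30801920) (nat_lit 12419072)) (I.mix (nat_lit 18726912) (nat_lit 31178752)) (I.mix (nat_lit 11485184) (nat_lit 19611648)))
  false (nat_lit 0)
def b1_4 : Bx := Bx.mk (St.mk (I.pos (nat_lit 119980032) (nat_lit 136642560)) (I.mix (nat_lit 3112960) (nat_lit 7831552)) (I.mix (nat_lit 7585792) (nat_lit 4554752)) (I.pos (nat_lit 54476800) (nat_lit 87883776)) (I.mix (nat_lit 6193152) (nat_lit 8896512)) (I.mix (nat_lit 5406720) (nat_lit 3473408)) (I.mix (nat_lit 5193728) (nat_lit 2785280)))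
  false (nat_lit 0)
def b1_5 : Bx := Bx.mk (St.mk (I.mix (nat_lit 15155200) (nat_lit 98566144)) (I.mix (nat_lit 720896) (nat_lit 2949120)) (I.mix (nat_lit 2064384) (nat_lit 671744)) (I.mix (nat_lit 3522560) (nat_lit 52510720)) (I.mix (nat_lit 950272) (nat_lit 2179072)) (I.mix (nat_lit 720896) (nat_lit 671744)) (I.mix (nat_lit 606208) (nat_lit 606208)))
  false (nat_lit 0)
def b1_6 : Bx := Bx.mk (St.mk (I.pos (nat_lit 117374976) (nat_lit 187908096)) (I.mix (nat_lit 62111744) (nat_lit 8060928)) (I.neg (nat_lit 1179648) (nat_lit 64372736)) (I.pos (nat_lit 70778880) (nat_lit 148979712)) (I.mix (nat_lit 81559552) (nat_lit 41664512)) (I.mix (nat_lit 44154880) (nat_lit 74481664)) (I.mix (nat_lit 37437440) (nat_lit 70893568)))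
  false (nat_lit 0)
def b1_7 : Bx := Bx.mk (St.mk (I.mix (nat_lit 12402688) (nat_lit 120979456)) (I.mix (nat_lit 27426816) (nat_lit 6914048)) (I.mix (nat_lit 21610496) (nat_lit 1720320)) (I.mix (nat_lit 4472832) (nat_lit 69271552)) (I.mix (nat_lit 30375936) (nat_lit 22478848)) (I.mix (nat_lit 18382848) (nat_lit 27852800)) (I.mix (nat_lit 11485184) (nat_lit 20742144)))
  false (nat_lit 0)
def b1_8 : Bx := Bx.mk (St.mk (I.pos (nat_lit 155828224) (nat_lit 224247808)) (I.mix (nat_lit 37765120) (nat_lit 63029248)) (I.mix (nat_lit 40075264) (nat_lit 97304576)) (I.pos (nat_lit 98451456) (nat_lit 204636160)) (I.mix (nat_lit 135528448) (nat_lit 52002816)) (I.mix (nat_lit 172261376) (nat_lit 88637440)) (I.mix (nat_lit 213401600) (nat_lit 103071744)))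
  false (nat_lit 0)
def b1_9 : Bx := Bx.mk (St.mk (I.mix (nat_lit 18038784) (nat_lit 140050432)) (I.mix (nat_lit 13942784) (nat_lit 35913728)) (I.mix (nat_lit 12320768) (nat_lit 27525120)) (I.mix (nat_lit 5406720) (nat_lit 85786624)) (I.mix (nat_lit 49086464) (nat_lit 26574848)) (I.mix (nat_lit 54624256) (nat_lit 34209792)) (I.mix (nat_lit 39256064) (nat_lit 23789568)))
  false (nat_lit 0)
def t1 : BTr := (BTr.n (BTr.n (BTr.n (BTr.b b1_0) (BTr.b b1_1)) (BTr.n (BTr.b b1_2) (BTr.n (BTr.b b1_3) (BTr.b b1_4)))) (BTr.n (BTr.n (BTr.b b1_5) (BTr.b b1_6)) (BTr.n (BTr.b b1_7) (BTr.n (BTr.b b1_8) (BTr.b b1_9)))))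
namespace T1
def l0 : Tr := Tr.L (Pth.l (Pth.l (Pth.l Pth.z)))
def l1 : Tr := Tr.L (Pth.l (Pth.l (Pth.r Pth.z)))
def l2 : Tr := Tr.L (Pth.l (Pth.r (Pth.l Pth.z)))
def l3 : Tr := Tr.L (Pth.l (Pth.r (Pth.r (Pth.l Pth.z))))
def l4 : Tr := Tr.L (Pth.l (Pth.r (Pth.r (Pth.r Pth.z))))
def l5 : Tr := Tr.L (Pth.r (Pth.l (Pth.l Pth.z)))
def l6 : Tr := Tr.L (Pth.r (Pth.l (Pth.r Pth.z)))
def l7 : Tr := Tr.L (Pth.r (Pth.r (Pth.l Pth.z)))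
def l8 : Tr := Tr.L (Pth.r (Pth.r (Pth.r (Pth.l Pth.z))))
def l9 : Tr := Tr.L (Pth.r (Pth.r (Pth.r (Pth.r Pth.z))))
end T1
def b2_0 : Bx := Bx.mk (St.mk (I.pos (nat_lit 153124864) (nat_lit 291667968)) (I.mix (nat_lit 37912576) (nat_lit 79659008)) (I.mix (nat_lit 152387584) (nat_lit 88555520)) (I.pos (nat_lit 228098048) (nat_lit 461619200)) (I.mix (nat_lit 95256576) (nat_lit 75104256)) (I.mix (nat_lit 91193344) (nat_lit 63848448)) (I.mix (nat_lit 144801792) (nat_lit 103088128)))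
  false (nat_lit 43290821)
def b2_1 : Bx := Bx.mk (St.mk (I.pos (nat_lit 23560192) (nat_lit 75530240)) (I.mix (nat_lit 12648448) (nat_lit 53182464)) (I.neg (nat_lit 1294336) (nat_lit 35028992)) (I.pos (nat_lit 141852672) (nat_lit 163643392)) (I.mix (nat_lit 27115520) (nat_lit 43024384)) (I.mix (nat_lit 43565056) (nat_lit 25755648)) (I.mix (nat_lit 23658496) (nat_lit 14123008)))
  false (nat_lit 0)
def b2_2 : Bx := Bx.mk (St.mk (I.pos (nat_lit 50626560) (nat_lit 104644608)) (I.mix (nat_lit 71696384) (nat_lit 15155200)) (I.neg (nat_lit 16416768) (nat_lit 69910528)) (I.pos (nat_lit 149209088) (nat_lit 184975360)) (I.mix (nat_lit 77627392) (nat_lit 29360128)) (I.mix (nat_lit 38240256) (nat_lit 72876032)) (I.mix (nat_lit 27131904) (nat_lit 46628864)))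
  false (nat_lit 0)
def b2_3 : Bx := Bx.mk (St.mk (I.neg (nat_lit 23560192) (nat_lit 75546624)) (I.mix (nat_lit 53329920) (nat_lit 15269888)) (I.neg (nat_lit 1228800) (nat_lit 36077568)) (I.pos (nat_lit 141852672) (nat_lit 163643392)) (I.mix (nat_lit 43024384) (nat_lit 27115520)) (I.mix (nat_lit 25755648) (nat_lit 43565056)) (I.mix (nat_lit 23658496) (nat_lit 14123008)))
  true (nat_lit 0)
def b2_4 : Bx := Bx.mk (St.mk (I.pos (nat_lit 71139328) (nat_lit 154828800)) (I.neg (nat_lit 3080192) (nat_lit 76726272)) (I.neg (nat_lit 11485184) (nat_lit 78823424)) (I.pos (nat_lit 161644544) (nat_lit 232243200)) (I.mix (nat_lit 82640896) (nat_lit 55394304)) (I.mix (nat_lit 43270144) (nat_lit 86622208)) (I.mix (nat_lit 41058304) (nat_lit 75776000)))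
  false (nat_lit 0)
def b2_5 : Bx := Bx.mk (St.mk (I.mix (nat_lit 41254912) (nat_lit 10158080)) (I.mix (nat_lit 47316992) (nat_lit 11010048)) (I.neg (nat_lit 5488640) (nat_lit 12763136)) (I.pos (nat_lit 140820480) (nat_lit 151191552)) (I.mix (nat_lit 28868608) (nat_lit 35995648)) (I.mix (nat_lit 24199168) (nat_lit 47464448)) (I.mix (nat_lit 7602176) (nat_lit 5718016)))
  true (nat_lit 0)
def b2_6 : Bx := Bx.mk (St.mk (I.pos (nat_lit 121815040) (nat_lit 208519168)) (I.mix (nat_lit 44433408) (nat_lit 77742080)) (I.mix (nat_lit 52117504) (nat_lit 87080960)) (I.pos (nat_lit 195936256) (nat_lit 306593792)) (I.mix (nat_lit 121438208) (nat_lit 60506112)) (I.mix (nat_lit 152944640) (nat_lit 75661312)) (I.mix (nat_lit 155025408) (nat_lit 78348288)))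
  false (nat_lit 3187401)
def b2_7 : Bx := Bx.mk (St.mk (I.mix (nat_lit 10158080) (nat_lit 41254912)) (I.mix (nat_lit 11010048) (nat_lit 47316992)) (I.neg (nat_lit 5488640) (nat_lit 12763136)) (I.pos (nat_lit 140820480) (nat_lit 151191552)) (I.mix (nat_lit 35995648) (nat_lit 28868608)) (I.mix (nat_lit 47464448) (nat_lit 24199168)) (I.mix (nat_lit 7602176) (nat_lit 5718016)))
  false (nat_lit 0)
def t2 : BTr := (BTr.n (BTr.n (BTr.n (BTr.b b2_0) (BTr.b b2_1)) (BTr.n (BTr.b b2_2) (BTr.b b2_3))) (BTr.n (BTr.n (BTr.b b2_4) (BTr.b b2_5)) (BTr.n (BTr.b b2_6) (BTr.b b2_7))))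
namespace T2
def l0 : Tr := Tr.L (Pth.l (Pth.l (Pth.l Pth.z)))
def l1 : Tr := Tr.L (Pth.l (Pth.l (Pth.r Pth.z)))
def l2 : Tr := Tr.L (Pth.l (Pth.r (Pth.l Pth.z)))
def l3 : Tr := Tr.L (Pth.l (Pth.r (Pth.r Pth.z)))
def l4 : Tr := Tr.L (Pth.r (Pth.l (Pth.l Pth.z)))
def l5 : Tr := Tr.L (Pth.r (Pth.l (Pth.r Pth.z)))
def l6 : Tr := Tr.L (Pth.r (Pth.r (Pth.l Pth.z)))
def l7 : Tr := Tr.L (Pth.r (Pth.r (Pth.r Pth.z)))
end T2
def b3_0 : Bx := Bx.mk (St.mk (I.pos (nat_lit 153452544) (nat_lit 285835264)) (I.mix (nat_lit 30015488) (nat_lit 51118080)) (I.mix (nat_lit 53559296) (nat_lit 100777984)) (I.pos (nat_lit 83656704) (nat_lit 325828608)) (I.mix (nat_lit 91144192) (nat_lit 69894144)) (I.mix (nat_lit 98942976) (nat_lit 67960832)) (I.mix (nat_lit 159776768) (nat_lit 94601216)))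
  false (nat_lit 38156935)
def b3_1 : Bx := Bx.mk (St.mk (I.pos (nat_lit 121438208) (nat_lit 180994048)) (I.mix (nat_lit 61947904) (nat_lit 1867776)) (I.mix (nat_lit 58097664) (nat_lit 1474560)) (I.pos (nat_lit 73842688) (nat_lit 140476416)) (I.mix (nat_lit 75988992) (nat_lit 37044224)) (I.mix (nat_lit 39747584) (nat_lit 65241088)) (I.mix (nat_lit 34914304) (nat_lit 61440000)))
  false (nat_lit 0)
def b3_2 : Bx := Bx.mk (St.mk (I.mix (nat_lit 11730944) (nat_lit 119488512)) (I.mix (nat_lit 26951680) (nat_lit 4833280)) (I.mix (nat_lit 17465344) (nat_lit 4341760)) (I.mix (nat_lit 4390912) (nat_lit 67878912)) (I.mix (nat_lit 26263552) (nat_lit 18055168)) (I.mix (nat_lit 16498688) (nat_lit 22691840)) (I.mix (nat_lit 11026432) (nat_lit 16384000)))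
  false (nat_lit 0)
def b3_3 : Bx := Bx.mk (St.mk (I.pos (nat_lit 162611200) (nat_lit 221429760)) (I.mix (nat_lit 35520512) (nat_lit 62472192)) (I.mix (nat_lit 25608192) (nat_lit 109559808)) (I.pos (nat_lit 102088704) (nat_lit 199065600)) (I.mix (nat_lit 128286720) (nat_lit 50937856)) (I.mix (nat_lit 160710656) (nat_lit 87097344)) (I.mix (nat_lit 209190912) (nat_lit 98615296)))
  false (nat_lit 10631258)
def b3_4 : Bx := Bx.mk (St.mk (I.mix (nat_lit 17072128) (nat_lit 138756096)) (I.mix (nat_lit 11354112) (nat_lit 35766272)) (I.mix (nat_lit 5210112) (nat_lit 32964608)) (I.mix (nat_lit 5341184) (nat_lit 84541440)) (I.mix (nat_lit 51773440) (nat_lit 23904256)) (I.mix (nat_lit 55410688) (nat_lit 32686080)) (I.mix (nat_lit 41582592) (nat_lit 22511616)))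
  false (nat_lit 0)
def b3_5 : Bx := Bx.mk (St.mk (I.pos (nat_lit 162103296) (nat_lit 182583296)) (I.neg (nat_lit 9142272) (nat_lit 37371904)) (I.mix (nat_lit 30867456) (nat_lit 802816)) (I.pos (nat_lit 102678528) (nat_lit 143212544)) (I.mix (nat_lit 21200896) (nat_lit 13975552)) (I.mix (nat_lit 9191424) (nat_lit 12222464)) (I.mix (nat_lit 9601024) (nat_lit 13156352)))
  false (nat_lit 0)
def b3_6 : Bx := Bx.mk (St.mk (I.mix (nat_lit 17973248) (nat_lit 146161664)) (I.mix (nat_lit 13139968) (nat_lit 1458176)) (I.mix (nat_lit 6225920) (nat_lit 3162112)) (I.mix (nat_lit 5079040) (nat_lit 79872000)) (I.mix (nat_lit 5128192) (nat_lit 6422528)) (I.mix (nat_lit 2834432) (nat_lit 3440640)) (I.mix (nat_lit 1916928) (nat_lit 2719744)))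
  false (nat_lit 0)
def b3_7 : Bx := Bx.mk (St.mk (I.pos (nat_lit 50905088) (nat_lit 143753216)) (I.mix (nat_lit 9207808) (nat_lit 21004288)) (I.mix (nat_lit 7421952) (nat_lit 23429120)) (I.pos (nat_lit 9453568) (nat_lit 93093888)) (I.mix (nat_lit 25559040) (nat_lit 26394624)) (I.mix (nat_lit 34717696) (nat_lit 18939904)) (I.mix (nat_lit 30851072) (nat_lit 15941632)))
  false (nat_lit 0)
def b3_8 : Bx := Bx.mk (St.mk (I.pos (nat_lit 116588544) (nat_lit 166543360)) (I.mix (nat_lit 57901056) (nat_lit 9601024)) (I.mix (nat_lit 54050816) (nat_lit 12615680)) (I.pos (nat_lit 52019200) (nat_lit 118374400)) (I.mix (nat_lit 84885504) (nat_lit 33013760)) (I.mix (nat_lit 51200000) (nat_lit 96583680)) (I.mix (nat_lit 44531712) (nat_lit 86179840)))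
  false (nat_lit 0)
def b3_9 : Bx := Bx.mk (St.mk (I.mix (nat_lit 38895616) (nat_lit 113295360)) (I.mix (nat_lit 25968640) (nat_lit 4456448)) (I.mix (nat_lit 15908864) (nat_lit 4898816)) (I.mix (nat_lit 8978432) (nat_lit 61325312)) (I.mix (nat_lit 28884992) (nat_lit 14041088)) (I.mix (nat_lit 18677760) (nat_lit 29294592)) (I.mix (nat_lit 11321344) (nat_lit 18104320)))
  false (nat_lit 0)
def t3 : BTr := (BTr.n (BTr.n (BTr.n (BTr.b b3_0) (BTr.b b3_1)) (BTr.n (BTr.b b3_2) (BTr.n (BTr.b b3_3) (BTr.b b3_4)))) (BTr.n (BTr.n (BTr.b b3_5) (BTr.b b3_6)) (BTr.n (BTr.b b3_7) (BTr.n (BTr.b b3_8) (BTr.b b3_9)))))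
namespace T3
def l0 : Tr := Tr.L (Pth.l (Pth.l (Pth.l Pth.z)))
def l1 : Tr := Tr.L (Pth.l (Pth.l (Pth.r Pth.z)))
def l2 : Tr := Tr.L (Pth.l (Pth.r (Pth.l Pth.z)))
def l3 : Tr := Tr.L (Pth.l (Pth.r (Pth.r (Pth.l Pth.z))))
def l4 : Tr := Tr.L (Pth.l (Pth.r (Pth.r (Pth.r Pth.z))))
def l5 : Tr := Tr.L (Pth.r (Pth.l (Pth.l Pth.z)))
def l6 : Tr := Tr.L (Pth.r (Pth.l (Pth.r Pth.z)))
def l7 : Tr := Tr.L (Pth.r (Pth.r (Pth.l Pth.z)))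
def l8 : Tr := Tr.L (Pth.r (Pth.r (Pth.r (Pth.l Pth.z))))
def l9 : Tr := Tr.L (Pth.r (Pth.r (Pth.r (Pth.r Pth.z))))
end T3
def b4_0 : Bx := Bx.mk (St.mk (I.pos (nat_lit 152993792) (nat_lit 293978112)) (I.mix (nat_lit 19415040) (nat_lit 71991296)) (I.mix (nat_lit 55869440) (nat_lit 118964224)) (I.pos (nat_lit 225132544) (nat_lit 456687616)) (I.mix (nat_lit 105742336) (nat_lit 91045888)) (I.mix (nat_lit 121700352) (nat_lit 77627392)) (I.mix (nat_lit 177815552) (nat_lit 103612416)))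
  false (nat_lit 89733293)
def b4_1 : Bx := Bx.mk (St.mk (I.pos (nat_lit 82231296) (nat_lit 158892032)) (I.neg (nat_lit 6553600) (nat_lit 77348864)) (I.mix (nat_lit 54771712) (nat_lit 18055168)) (I.pos (nat_lit 169246720) (nat_lit 233832448)) (I.mix (nat_lit 66748416) (nat_lit 47267840)) (I.mix (nat_lit 40124416) (nat_lit 63995904)) (I.mix (nat_lit 36028416) (nat_lit 55017472)))
  false (nat_lit 0)
def b4_2 : Bx := Bx.mk (St.mk (I.mix (nat_lit 35061760) (nat_lit 11304960)) (I.mix (nat_lit 47415296) (nat_lit 11616256)) (I.pos (nat_lit 6144000) (nat_lit 13238272)) (I.pos (nat_lit 140165120) (nat_lit 148652032)) (I.mix (nat_lit 21938176) (nat_lit 35946496)) (I.mix (nat_lit 21954560) (nat_lit 38043648)) (I.mix (nat_lit 4915200) (nat_lit 5554176)))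
  true (nat_lit 0)
def b4_3 : Bx := Bx.mk (St.mk (I.pos (nat_lit 123453440) (nat_lit 201097216)) (I.mix (nat_lit 43532288) (nat_lit 76972032)) (I.mix (nat_lit 22724608) (nat_lit 121372672)) (I.pos (nat_lit 196739072) (nat_lit 291274752)) (I.mix (nat_lit 133038080) (nat_lit 56311808)) (I.mix (nat_lit 143212544) (nat_lit 67403776)) (I.mix (nat_lit 150880256) (nat_lit 69664768)))
  false (nat_lit 46064259)
def b4_4 : Bx := Bx.mk (St.mk (I.mix (nat_lit 11304960) (nat_lit 35061760)) (I.mix (nat_lit 12763136) (nat_lit 47480832)) (I.pos (nat_lit 6144000) (nat_lit 13238272)) (I.pos (nat_lit 140165120) (nat_lit 148652032)) (I.mix (nat_lit 35946496) (nat_lit 21938176)) (I.mix (nat_lit 38043648) (nat_lit 21954560)) (I.mix (nat_lit 4915200) (nat_lit 5554176)))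
  false (nat_lit 0)
def b4_5 : Bx := Bx.mk (St.mk (I.pos (nat_lit 16269312) (nat_lit 74776576)) (I.mix (nat_lit 10010624) (nat_lit 52641792)) (I.mix (nat_lit 13352960) (nat_lit 18366464)) (I.pos (nat_lit 139329536) (nat_lit 162234368)) (I.mix (nat_lit 34078720) (nat_lit 39518208)) (I.mix (nat_lit 51888128) (nat_lit 28180480)) (I.mix (nat_lit 26148864) (nat_lit 17055744)))
  false (nat_lit 0)
def b4_6 : Bx := Bx.mk (St.mk (I.pos (nat_lit 51347456) (nat_lit 112754688)) (I.mix (nat_lit 74940416) (nat_lit 13434880)) (I.mix (nat_lit 48168960) (nat_lit 1966080)) (I.pos (nat_lit 149716992) (nat_lit 189382656)) (I.mix (nat_lit 68124672) (nat_lit 34324480)) (I.mix (nat_lit 39927808) (nat_lit 83984384)) (I.mix (nat_lit 27475968) (nat_lit 49037312)))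
  false (nat_lit 0)
def b4_7 : Bx := Bx.mk (St.mk (I.neg (nat_lit 16269312) (nat_lit 74776576)) (I.mix (nat_lit 52641792) (nat_lit 10010624)) (I.mix (nat_lit 13352960) (nat_lit 18366464)) (I.pos (nat_lit 139329536) (nat_lit 162234368)) (I.mix (nat_lit 39518208) (nat_lit 34078720)) (I.mix (nat_lit 28180480) (nat_lit 51888128)) (I.mix (nat_lit 26148864) (nat_lit 17055744)))
  true (nat_lit 0)
def t4 : BTr := (BTr.n (BTr.n (BTr.n (BTr.b b4_0) (BTr.b b4_1)) (BTr.n (BTr.b b4_2) (BTr.b b4_3))) (BTr.n (BTr.n (BTr.b b4_4) (BTr.b b4_5)) (BTr.n (BTr.b b4_6) (BTr.b b4_7))))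
namespace T4
def l0 : Tr := Tr.L (Pth.l (Pth.l (Pth.l Pth.z)))
def l1 : Tr := Tr.L (Pth.l (Pth.l (Pth.r Pth.z)))
def l2 : Tr := Tr.L (Pth.l (Pth.r (Pth.l Pth.z)))
def l3 : Tr := Tr.L (Pth.l (Pth.r (Pth.r Pth.z)))
def l4 : Tr := Tr.L (Pth.r (Pth.l (Pth.l Pth.z)))
def l5 : Tr := Tr.L (Pth.r (Pth.l (Pth.r Pth.z)))
def l6 : Tr := Tr.L (Pth.r (Pth.r (Pth.l Pth.z)))
def l7 : Tr := Tr.L (Pth.r (Pth.r (Pth.r Pth.z)))
end T4
def b5_0 : Bx := Bx.mk (St.mk (I.pos (nat_lit 153223168) (nat_lit 289914880)) (I.mix (nat_lit 28999680) (nat_lit 62046208)) (I.mix (nat_lit 46301184) (nat_lit 120225792)) (I.pos (nat_lit 173342720) (nat_lit 396787712)) (I.mix (nat_lit 105824256) (nat_lit 80003072)) (I.mix (nat_lit 118341632) (nat_lit 76201984)) (I.mix (nat_lit 177897472) (nat_lit 96337920)))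
  false (nat_lit 79423430)
def b5_1 : Bx := Bx.mk (St.mk (I.pos (nat_lit 100679680) (nat_lit 159055872)) (I.neg (nat_lit 10584064) (nat_lit 69926912)) (I.mix (nat_lit 47366144) (nat_lit 12042240)) (I.pos (nat_lit 132825088) (nat_lit 183074816)) (I.mix (nat_lit 67108864) (nat_lit 38633472)) (I.mix (nat_lit 34848768) (nat_lit 53739520)) (I.mix (nat_lit 27967488) (nat_lit 46972928)))
  false (nat_lit 0)
def b5_2 : Bx := Bx.mk (St.mk (I.mix (nat_lit 27656192) (nat_lit 45973504)) (I.mix (nat_lit 35946496) (nat_lit 3751936)) (I.mix (nat_lit 2310144) (nat_lit 11763712)) (I.pos (nat_lit 82362368) (nat_lit 99336192)) (I.mix (nat_lit 19611648) (nat_lit 26148864)) (I.mix (nat_lit 19202048) (nat_lit 27590656)) (I.mix (nat_lit 7077888) (nat_lit 9879552)))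
  false (nat_lit 0)
def b5_3 : Bx := Bx.mk (St.mk (I.pos (nat_lit 145702912) (nat_lit 211337216)) (I.mix (nat_lit 34635776) (nat_lit 73646080)) (I.mix (nat_lit 7176192) (nat_lit 125222912)) (I.pos (nat_lit 168820736) (nat_lit 249167872)) (I.mix (nat_lit 144834560) (nat_lit 55869440)) (I.mix (nat_lit 154042368) (nat_lit 84869120)) (I.mix (nat_lit 164560896) (nat_lit 80265216)))
  false (nat_lit 60171754)
def b5_4 : Bx := Bx.mk (St.mk (I.mix (nat_lit 51150848) (nat_lit 73646080)) (I.mix (nat_lit 7274496) (nat_lit 38502400)) (I.mix (nat_lit 3309568) (nat_lit 25395200)) (I.pos (nat_lit 82558976) (nat_lit 108445696)) (I.mix (nat_lit 36798464) (nat_lit 19628032)) (I.mix (nat_lit 33521664) (nat_lit 19791872)) (I.mix (nat_lit 12500992) (nat_lit 9945088)))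
  false (nat_lit 0)
def b5_5 : Bx := Bx.mk (St.mk (I.mix (nat_lit 54738944) (nat_lit 58490880)) (I.mix (nat_lit 11223040) (nat_lit 6602752)) (I.pos (nat_lit 4866048) (nat_lit 14827520)) (I.pos (nat_lit 87572480) (nat_lit 99549184)) (I.mix (nat_lit 6553600) (nat_lit 11075584)) (I.mix (nat_lit 5865472) (nat_lit 6111232)) (I.mix (nat_lit 2752512) (nat_lit 2408448)))
  false (nat_lit 0)
def b5_6 : Bx := Bx.mk (St.mk (I.mix (nat_lit 33062912) (nat_lit 100794368)) (I.mix (nat_lit 9912320) (nat_lit 39895040)) (I.mix (nat_lit 4046848) (nat_lit 30539776)) (I.pos (nat_lit 79970304) (nat_lit 124862464)) (I.mix (nat_lit 44597248) (nat_lit 33636352)) (I.mix (nat_lit 44859392) (nat_lit 28409856)) (I.mix (nat_lit 28770304) (nat_lit 21037056)))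
  false (nat_lit 0)
def b5_7 : Bx := Bx.mk (St.mk (I.pos (nat_lit 80396288) (nat_lit 133955584)) (I.mix (nat_lit 66453504) (nat_lit 13172736)) (I.mix (nat_lit 42156032) (nat_lit 13303808)) (I.pos (nat_lit 112836608) (nat_lit 155041792)) (I.mix (nat_lit 66977792) (nat_lit 32342016)) (I.mix (nat_lit 51167232) (nat_lit 71680000)) (I.mix (nat_lit 34848768) (nat_lit 47333376)))
  false (nat_lit 0)
def b5_8 : Bx := Bx.mk (St.mk (I.mix (nat_lit 50135040) (nat_lit 32620544)) (I.mix (nat_lit 34308096) (nat_lit 8011776)) (I.mix (nat_lit 917504) (nat_lit 14614528)) (I.pos (nat_lit 81838080) (nat_lit 100139008)) (I.mix (nat_lit 26624000) (nat_lit 29327360)) (I.mix (nat_lit 22921216) (nat_lit 35209216)) (I.mix (nat_lit 12730368) (nat_lit 10436608)))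
  false (nat_lit 0)
def b5_9 : Bx := Bx.mk (St.mk (I.pos (nat_lit 145620992) (nat_lit 160038912)) (I.neg (nat_lit 17121280) (nat_lit 36798464)) (I.mix (nat_lit 12419072) (nat_lit 10846208)) (I.pos (nat_lit 170721280) (nat_lit 184287232)) (I.mix (nat_lit 17334272) (nat_lit 17924096)) (I.mix (nat_lit 12353536) (nat_lit 15777792)) (I.mix (nat_lit 11632640) (nat_lit 17219584)))
  false (nat_lit 0)
def t5 : BTr := (BTr.n (BTr.n (BTr.n (BTr.b b5_0) (BTr.b b5_1)) (BTr.n (BTr.b b5_2) (BTr.n (BTr.b b5_3) (BTr.b b5_4)))) (BTr.n (BTr.n (BTr.b b5_5) (BTr.b b5_6)) (BTr.n (BTr.b b5_7) (BTr.n (BTr.b b5_8) (BTr.b b5_9)))))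
namespace T5
def l0 : Tr := Tr.L (Pth.l (Pth.l (Pth.l Pth.z)))
def l1 : Tr := Tr.L (Pth.l (Pth.l (Pth.r Pth.z)))
def l2 : Tr := Tr.L (Pth.l (Pth.r (Pth.l Pth.z)))
def l3 : Tr := Tr.L (Pth.l (Pth.r (Pth.r (Pth.l Pth.z))))
def l4 : Tr := Tr.L (Pth.l (Pth.r (Pth.r (Pth.r Pth.z))))
def l5 : Tr := Tr.L (Pth.r (Pth.l (Pth.l Pth.z)))
def l6 : Tr := Tr.L (Pth.r (Pth.l (Pth.r Pth.z)))
def l7 : Tr := Tr.L (Pth.r (Pth.r (Pth.l Pth.z)))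
def l8 : Tr := Tr.L (Pth.r (Pth.r (Pth.r (Pth.l Pth.z))))
def l9 : Tr := Tr.L (Pth.r (Pth.r (Pth.r (Pth.r Pth.z))))
end T5
theorem bx0_0 : BoxOK sI cl5 cl6 cl13 t2 t4 b0_0 :=
  box_mk (TrL.c (I.pos (nat_lit 0) (nat_lit 0)) (xa (xb T2.l0 T2.l0) (xa T2.l0 T2.l0))
  (TrL.c (I.pos (nat_lit 0) (nat_lit 0)) T4.l1
  (TrL.c (I.pos (nat_lit 0) (nat_lit 0)) T2.l1
  (TrL.c (I.pos (nat_lit 0) (nat_lit 0)) T4.l2
  (TrL.c (I.pos (nat_lit 0) (nat_lit 0)) (xa T4.l3 (xb T4.l0 T4.l3))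
  (TrL.c (I.pos (nat_lit 0) (nat_lit 0)) T2.l2
  (TrL.c (I.pos (nat_lit 0) (nat_lit 0)) T4.l4
  (TrL.c (I.pos (nat_lit 0) (nat_lit 0)) T2.l3
  TrL.n)))))))) (by decide +kernel)
theorem bx0_1 : BoxOK sI cl5 cl6 cl13 t2 t4 b0_1 :=
  box_mk (TrL.c (I.pos (nat_lit 0) (nat_lit 0)) T2.l0
  (TrL.c (I.pos (nat_lit 0) (nat_lit 0)) T4.l1
  (TrL.c (I.pos (nat_lit 0) (nat_lit 0)) T2.l1
  (TrL.c (I.pos (nat_lit 0) (nat_lit 0)) T4.l2
  (TrL.c (I.pos (nat_lit 0) (nat_lit 0)) T4.l3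
  (TrL.c (I.pos (nat_lit 0) (nat_lit 0)) T2.l2
  (TrL.c (I.pos (nat_lit 0) (nat_lit 0)) T4.l4
  (TrL.c (I.pos (nat_lit 0) (nat_lit 0)) T2.l3
  TrL.n)))))))) (by decide +kernel)
theorem bx0_2 : BoxOK sI cl5 cl6 cl13 t2 t4 b0_2 :=
  box_mk (TrL.c (I.pos (nat_lit 0) (nat_lit 0)) T2.l0
  (TrL.c (I.pos (nat_lit 0) (nat_lit 0)) T4.l1
  (TrL.c (I.pos (nat_lit 0) (nat_lit 0)) T2.l1
  (TrL.c (I.pos (nat_lit 0) (nat_lit 0)) T4.l2
  (TrL.c (I.pos (nat_lit 0) (nat_lit 0)) T4.l3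
  (TrL.c (I.pos (nat_lit 0) (nat_lit 0)) T2.l2
  (TrL.c (I.pos (nat_lit 0) (nat_lit 0)) T4.l4
  (TrL.c (I.pos (nat_lit 0) (nat_lit 0)) T2.l3
  TrL.n)))))))) (by decide +kernel)
theorem bx0_3 : BoxOK sI cl5 cl6 cl13 t2 t4 b0_3 :=
  box_mk (TrL.c (I.pos (nat_lit 0) (nat_lit 0)) T2.l0
  (TrL.c (I.pos (nat_lit 0) (nat_lit 0)) T4.l3
  (TrL.c (I.pos (nat_lit 0) (nat_lit 0)) T2.l1
  (TrL.c (I.pos (nat_lit 0) (nat_lit 0)) T4.l2
  (TrL.c (I.pos (nat_lit 0) (nat_lit 0)) T4.l3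
  (TrL.c (I.pos (nat_lit 0) (nat_lit 0)) T2.l2
  (TrL.c (I.pos (nat_lit 0) (nat_lit 0)) T4.l4
  (TrL.c (I.pos (nat_lit 0) (nat_lit 0)) T2.l3
  TrL.n)))))))) (by decide +kernel)
theorem bx0_4 : BoxOK sI cl5 cl6 cl13 t2 t4 b0_4 :=
  box_mk (TrL.c (I.pos (nat_lit 0) (nat_lit 0)) T2.l0
  (TrL.c (I.pos (nat_lit 0) (nat_lit 0)) T4.l1
  (TrL.c (I.pos (nat_lit 0) (nat_lit 0)) T2.l1
  (TrL.c (I.pos (nat_lit 0) (nat_lit 0)) T4.l2
  (TrL.c (I.pos (nat_lit 0) (nat_lit 0)) T4.l3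
  (TrL.c (I.pos (nat_lit 0) (nat_lit 0)) T2.l2
  (TrL.c (I.pos (nat_lit 0) (nat_lit 0)) T4.l4
  (TrL.c (I.pos (nat_lit 0) (nat_lit 0)) T2.l3
  TrL.n)))))))) (by decide +kernel)
theorem bx0_5 : BoxOK sI cl5 cl6 cl13 t2 t4 b0_5 :=
  box_mk (TrL.c (I.pos (nat_lit 0) (nat_lit 0)) T2.l0
  (TrL.c (I.pos (nat_lit 0) (nat_lit 0)) T4.l1
  (TrL.c (I.pos (nat_lit 0) (nat_lit 0)) T2.l1
  (TrL.c (I.pos (nat_lit 0) (nat_lit 0)) T4.l2
  (TrL.c (I.pos (nat_lit 0) (nat_lit 0)) T4.l3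
  (TrL.c (I.pos (nat_lit 0) (nat_lit 0)) T2.l2
  (TrL.c (I.pos (nat_lit 0) (nat_lit 0)) T4.l4
  (TrL.c (I.pos (nat_lit 0) (nat_lit 0)) T2.l3
  TrL.n)))))))) (by decide +kernel)
theorem bx0_6 : BoxOK sI cl5 cl6 cl13 t2 t4 b0_6 :=
  box_mk (TrL.c (I.pos (nat_lit 0) (nat_lit 0)) T2.l0
  (TrL.c (I.pos (nat_lit 0) (nat_lit 0)) T4.l3
  (TrL.c (I.pos (nat_lit 0) (nat_lit 0)) T2.l1
  (TrL.c (I.pos (nat_lit 0) (nat_lit 0)) T4.l2
  (TrL.c (I.pos (nat_lit 0) (nat_lit 0)) T4.l3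
  (TrL.c (I.pos (nat_lit 0) (nat_lit 0)) T2.l2
  (TrL.c (I.pos (nat_lit 0) (nat_lit 0)) T4.l4
  (TrL.c (I.pos (nat_lit 0) (nat_lit 0)) T2.l3
  TrL.n)))))))) (by decide +kernel)
theorem bx0_7 : BoxOK sI cl5 cl6 cl13 t2 t4 b0_7 :=
  box_mk (TrL.c (I.pos (nat_lit 0) (nat_lit 0)) T2.l0
  (TrL.c (I.pos (nat_lit 0) (nat_lit 0)) T4.l1
  (TrL.c (I.pos (nat_lit 0) (nat_lit 0)) T2.l1
  (TrL.c (I.pos (nat_lit 0) (nat_lit 0)) T4.l2
  (TrL.c (I.pos (nat_lit 0) (nat_lit 0)) T4.l3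
  (TrL.c (I.pos (nat_lit 0) (nat_lit 0)) T2.l2
  (TrL.c (I.pos (nat_lit 0) (nat_lit 0)) T4.l4
  (TrL.c (I.pos (nat_lit 0) (nat_lit 0)) T2.l3
  TrL.n)))))))) (by decide +kernel)
theorem bx0_8 : BoxOK sI cl5 cl6 cl13 t2 t4 b0_8 :=
  box_mk (TrL.c (I.pos (nat_lit 0) (nat_lit 0)) T2.l0
  (TrL.c (I.pos (nat_lit 0) (nat_lit 0)) T4.l1
  (TrL.c (I.pos (nat_lit 0) (nat_lit 0)) T2.l1
  (TrL.c (I.pos (nat_lit 0) (nat_lit 0)) T4.l2
  (TrL.c (I.pos (nat_lit 0) (nat_lit 0)) T4.l3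
  (TrL.c (I.pos (nat_lit 0) (nat_lit 0)) T2.l2
  (TrL.c (I.pos (nat_lit 0) (nat_lit 0)) T4.l4
  (TrL.c (I.pos (nat_lit 0) (nat_lit 0)) T2.l3
  TrL.n)))))))) (by decide +kernel)
theorem bx0_9 : BoxOK sI cl5 cl6 cl13 t2 t4 b0_9 :=
  box_mk (TrL.c (I.pos (nat_lit 0) (nat_lit 0)) (xb (xa T2.l0 T2.l0) (xa T2.l0 T2.l0))
  (TrL.c (I.pos (nat_lit 0) (nat_lit 0)) T4.l1
  (TrL.c (I.pos (nat_lit 0) (nat_lit 0)) T2.l1
  (TrL.c (I.pos (nat_lit 0) (nat_lit 0)) T4.l2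
  (TrL.c (I.pos (nat_lit 0) (nat_lit 0)) (xb T4.l0 T4.l3)
  (TrL.c (I.pos (nat_lit 0) (nat_lit 0)) T2.l2
  (TrL.c (I.pos (nat_lit 0) (nat_lit 0)) T4.l4
  (TrL.c (I.pos (nat_lit 0) (nat_lit 0)) T2.l3
  TrL.n)))))))) (by decide +kernel)
theorem sv0 : StarV sI cl5 cl6 cl13 t2 t4 t0 :=
  (bt_n (bt_n (bt_n (bt_b bx0_0) (bt_b bx0_1)) (bt_n (bt_b bx0_2) (bt_n (bt_b bx0_3) (bt_b bx0_4)))) (bt_n (bt_n (bt_b bx0_5) (bt_b bx0_6)) (bt_n (bt_b bx0_7) (bt_n (bt_b bx0_8) (bt_b bx0_9)))))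
def S0 : StarD := StarD.mk cl5 cl6 cl13 2 4 t0
theorem bx1_0 : BoxOK sI cl5 cl13 cl6 t4 t2 b1_0 :=
  box_mk (TrL.c (I.pos (nat_lit 0) (nat_lit 0)) (xa (xa T4.l0 T4.l0) (xa T4.l0 T4.l0))
  (TrL.c (I.pos (nat_lit 0) (nat_lit 0)) T2.l4
  (TrL.c (I.pos (nat_lit 0) (nat_lit 0)) T4.l5
  (TrL.c (I.pos (nat_lit 0) (nat_lit 0)) T2.l5
  (TrL.c (I.pos (nat_lit 0) (nat_lit 0)) (xa T2.l6 T2.l6)
  (TrL.c (I.pos (nat_lit 0) (nat_lit 0)) T4.l6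
  (TrL.c (I.pos (nat_lit 0) (nat_lit 0)) T2.l7
  (TrL.c (I.pos (nat_lit 0) (nat_lit 0)) T4.l7
  TrL.n)))))))) (by decide +kernel)
theorem bx1_1 : BoxOK sI cl5 cl13 cl6 t4 t2 b1_1 :=
  box_mk (TrL.c (I.pos (nat_lit 0) (nat_lit 0)) (xa T4.l0 T4.l0)
  (TrL.c (I.pos (nat_lit 0) (nat_lit 0)) T2.l4
  (TrL.c (I.pos (nat_lit 0) (nat_lit 0)) T4.l5
  (TrL.c (I.pos (nat_lit 0) (nat_lit 0)) T2.l5
  (TrL.c (I.pos (nat_lit 0) (nat_lit 0)) T2.l6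
  (TrL.c (I.pos (nat_lit 0) (nat_lit 0)) T4.l6
  (TrL.c (I.pos (nat_lit 0) (nat_lit 0)) T2.l7
  (TrL.c (I.pos (nat_lit 0) (nat_lit 0)) T4.l7
  TrL.n)))))))) (by decide +kernel)
theorem bx1_2 : BoxOK sI cl5 cl13 cl6 t4 t2 b1_2 :=
  box_mk (TrL.c (I.pos (nat_lit 0) (nat_lit 0)) T4.l0
  (TrL.c (I.pos (nat_lit 0) (nat_lit 0)) T2.l4
  (TrL.c (I.pos (nat_lit 0) (nat_lit 0)) T4.l5
  (TrL.c (I.pos (nat_lit 0) (nat_lit 0)) T2.l5
  (TrL.c (I.pos (nat_lit 0) (nat_lit 0)) T2.l6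
  (TrL.c (I.pos (nat_lit 0) (nat_lit 0)) T4.l6
  (TrL.c (I.pos (nat_lit 0) (nat_lit 0)) T2.l7
  (TrL.c (I.pos (nat_lit 0) (nat_lit 0)) T4.l7
  TrL.n)))))))) (by decide +kernel)
theorem bx1_3 : BoxOK sI cl5 cl13 cl6 t4 t2 b1_3 :=
  box_mk (TrL.c (I.pos (nat_lit 0) (nat_lit 0)) (xa T4.l0 T4.l0)
  (TrL.c (I.pos (nat_lit 0) (nat_lit 0)) T2.l4
  (TrL.c (I.pos (nat_lit 0) (nat_lit 0)) T4.l5
  (TrL.c (I.pos (nat_lit 0) (nat_lit 0)) T2.l5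
  (TrL.c (I.pos (nat_lit 0) (nat_lit 0)) T2.l6
  (TrL.c (I.pos (nat_lit 0) (nat_lit 0)) T4.l6
  (TrL.c (I.pos (nat_lit 0) (nat_lit 0)) T2.l7
  (TrL.c (I.pos (nat_lit 0) (nat_lit 0)) T4.l7
  TrL.n)))))))) (by decide +kernel)
theorem bx1_4 : BoxOK sI cl5 cl13 cl6 t4 t2 b1_4 :=
  box_mk (TrL.c (I.pos (nat_lit 0) (nat_lit 0)) T4.l0
  (TrL.c (I.pos (nat_lit 0) (nat_lit 0)) T2.l4
  (TrL.c (I.pos (nat_lit 0) (nat_lit 0)) T4.l5
  (TrL.c (I.pos (nat_lit 0) (nat_lit 0)) T2.l5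
  (TrL.c (I.pos (nat_lit 0) (nat_lit 0)) T2.l6
  (TrL.c (I.pos (nat_lit 0) (nat_lit 0)) T4.l6
  (TrL.c (I.pos (nat_lit 0) (nat_lit 0)) T2.l7
  (TrL.c (I.pos (nat_lit 0) (nat_lit 0)) T4.l7
  TrL.n)))))))) (by decide +kernel)
theorem bx1_5 : BoxOK sI cl5 cl13 cl6 t4 t2 b1_5 :=
  box_mk (TrL.c (I.pos (nat_lit 0) (nat_lit 0)) T4.l0
  (TrL.c (I.pos (nat_lit 0) (nat_lit 0)) T2.l4
  (TrL.c (I.pos (nat_lit 0) (nat_lit 0)) T4.l5
  (TrL.c (I.pos (nat_lit 0) (nat_lit 0)) T2.l5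
  (TrL.c (I.pos (nat_lit 0) (nat_lit 0)) T2.l6
  (TrL.c (I.pos (nat_lit 0) (nat_lit 0)) T4.l6
  (TrL.c (I.pos (nat_lit 0) (nat_lit 0)) T2.l7
  (TrL.c (I.pos (nat_lit 0) (nat_lit 0)) T4.l7
  TrL.n)))))))) (by decide +kernel)
theorem bx1_6 : BoxOK sI cl5 cl13 cl6 t4 t2 b1_6 :=
  box_mk (TrL.c (I.pos (nat_lit 0) (nat_lit 0)) T4.l0
  (TrL.c (I.pos (nat_lit 0) (nat_lit 0)) T2.l4
  (TrL.c (I.pos (nat_lit 0) (nat_lit 0)) T4.l5
  (TrL.c (I.pos (nat_lit 0) (nat_lit 0)) T2.l5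
  (TrL.c (I.pos (nat_lit 0) (nat_lit 0)) T2.l6
  (TrL.c (I.pos (nat_lit 0) (nat_lit 0)) T4.l6
  (TrL.c (I.pos (nat_lit 0) (nat_lit 0)) T2.l7
  (TrL.c (I.pos (nat_lit 0) (nat_lit 0)) T4.l7
  TrL.n)))))))) (by decide +kernel)
theorem bx1_7 : BoxOK sI cl5 cl13 cl6 t4 t2 b1_7 :=
  box_mk (TrL.c (I.pos (nat_lit 0) (nat_lit 0)) (xa T4.l0 T4.l0)
  (TrL.c (I.pos (nat_lit 0) (nat_lit 0)) T2.l4
  (TrL.c (I.pos (nat_lit 0) (nat_lit 0)) T4.l5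
  (TrL.c (I.pos (nat_lit 0) (nat_lit 0)) T2.l5
  (TrL.c (I.pos (nat_lit 0) (nat_lit 0)) T2.l6
  (TrL.c (I.pos (nat_lit 0) (nat_lit 0)) T4.l6
  (TrL.c (I.pos (nat_lit 0) (nat_lit 0)) T2.l7
  (TrL.c (I.pos (nat_lit 0) (nat_lit 0)) T4.l7
  TrL.n)))))))) (by decide +kernel)
theorem bx1_8 : BoxOK sI cl5 cl13 cl6 t4 t2 b1_8 :=
  box_mk (TrL.c (I.pos (nat_lit 0) (nat_lit 0)) (xa (xb T4.l0 T4.l0) (xb T4.l0 T4.l0))
  (TrL.c (I.pos (nat_lit 0) (nat_lit 0)) T2.l4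
  (TrL.c (I.pos (nat_lit 0) (nat_lit 0)) T4.l5
  (TrL.c (I.pos (nat_lit 0) (nat_lit 0)) T2.l5
  (TrL.c (I.pos (nat_lit 0) (nat_lit 0)) (xb T2.l6 T2.l6)
  (TrL.c (I.pos (nat_lit 0) (nat_lit 0)) T4.l6
  (TrL.c (I.pos (nat_lit 0) (nat_lit 0)) T2.l7
  (TrL.c (I.pos (nat_lit 0) (nat_lit 0)) T4.l7
  TrL.n)))))))) (by decide +kernel)
theorem bx1_9 : BoxOK sI cl5 cl13 cl6 t4 t2 b1_9 :=
  box_mk (TrL.c (I.pos (nat_lit 0) (nat_lit 0)) (xa T4.l0 T4.l0)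
  (TrL.c (I.pos (nat_lit 0) (nat_lit 0)) T2.l4
  (TrL.c (I.pos (nat_lit 0) (nat_lit 0)) T4.l5
  (TrL.c (I.pos (nat_lit 0) (nat_lit 0)) T2.l5
  (TrL.c (I.pos (nat_lit 0) (nat_lit 0)) T2.l6
  (TrL.c (I.pos (nat_lit 0) (nat_lit 0)) T4.l6
  (TrL.c (I.pos (nat_lit 0) (nat_lit 0)) T2.l7
  (TrL.c (I.pos (nat_lit 0) (nat_lit 0)) T4.l7
  TrL.n)))))))) (by decide +kernel)
theorem sv1 : StarV sI cl5 cl13 cl6 t4 t2 t1 :=
  (bt_n (bt_n (bt_n (bt_b bx1_0) (bt_b bx1_1)) (bt_n (bt_b bx1_2) (bt_n (bt_b bx1_3) (bt_b bx1_4)))) (bt_n (bt_n (bt_b bx1_5) (bt_b bx1_6)) (bt_n (bt_b bx1_7) (bt_n (bt_b bx1_8) (bt_b bx1_9)))))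
def S1 : StarD := StarD.mk cl5 cl13 cl6 4 2 t1
theorem bx2_0 : BoxOK sI cl6 cl5 cl13 t0 t5 b2_0 :=
  box_mk (TrL.c (I.pos (nat_lit 0) (nat_lit 0)) (xa (xb T0.l0 T0.l0) (xb T0.l0 T0.l0))
  (TrL.c (I.pos (nat_lit 0) (nat_lit 0)) T5.l1
  (TrL.c (I.pos (nat_lit 0) (nat_lit 89480386)) (xR T0.l1 T0.l1)
  (TrL.c (I.pos (nat_lit 0) (nat_lit 41530880)) T5.l2
  (TrL.c (I.pos (nat_lit 0) (nat_lit 0)) (xa T5.l3 (xb T5.l3 T5.l3))
  (TrL.c (I.pos (nat_lit 0) (nat_lit 0)) T0.l2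
  (TrL.c (I.mix (nat_lit 41527258) (nat_lit 41530880)) (xR T5.l4 T5.l6)
  (TrL.c (I.mix (nat_lit 41527258) (nat_lit 4274)) T0.l3
  TrL.n)))))))) (by decide +kernel)
theorem bx2_1 : BoxOK sI cl6 cl5 cl13 t0 t5 b2_1 :=
  box_mk (TrL.c (I.pos (nat_lit 0) (nat_lit 0)) T0.l0
  (TrL.c (I.pos (nat_lit 0) (nat_lit 0)) T5.l1
  (TrL.c (I.pos (nat_lit 0) (nat_lit 89480386)) T0.l1
  (TrL.c (I.pos (nat_lit 0) (nat_lit 41530880)) T5.l2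
  (TrL.c (I.pos (nat_lit 0) (nat_lit 0)) T5.l3
  (TrL.c (I.pos (nat_lit 0) (nat_lit 0)) T0.l2
  (TrL.c (I.mix (nat_lit 41527258) (nat_lit 41530880)) T5.l4
  (TrL.c (I.mix (nat_lit 41527258) (nat_lit 4274)) T0.l3
  TrL.n)))))))) (by decide +kernel)
theorem bx2_2 : BoxOK sI cl6 cl5 cl13 t0 t5 b2_2 :=
  box_mk (TrL.c (I.pos (nat_lit 0) (nat_lit 0)) T0.l0
  (TrL.c (I.pos (nat_lit 0) (nat_lit 0)) T5.l1
  (TrL.c (I.pos (nat_lit 0) (nat_lit 89480386)) T0.l1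
  (TrL.c (I.pos (nat_lit 0) (nat_lit 41530880)) T5.l2
  (TrL.c (I.pos (nat_lit 0) (nat_lit 0)) T5.l3
  (TrL.c (I.pos (nat_lit 0) (nat_lit 0)) T0.l2
  (TrL.c (I.mix (nat_lit 41527258) (nat_lit 41530880)) T5.l4
  (TrL.c (I.mix (nat_lit 41527258) (nat_lit 4274)) T0.l3
  TrL.n)))))))) (by decide +kernel)
theorem bx2_3 : BoxOK sI cl6 cl5 cl13 t0 t5 b2_3 :=
  box_mk (TrL.c (I.pos (nat_lit 0) (nat_lit 0)) T5.l1
  (TrL.c (I.pos (nat_lit 0) (nat_lit 0)) T0.l1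
  (TrL.c (I.mix (nat_lit 41527258) (nat_lit 41530880)) (xR T5.l8 T5.l2)
  (TrL.c (I.mix (nat_lit 41527258) (nat_lit 4274)) T0.l7
  TrL.n)))) (by decide +kernel)
theorem bx2_4 : BoxOK sI cl6 cl5 cl13 t0 t5 b2_4 :=
  box_mk (TrL.c (I.pos (nat_lit 0) (nat_lit 0)) (xa T0.l0 T0.l0)
  (TrL.c (I.pos (nat_lit 0) (nat_lit 0)) T5.l1
  (TrL.c (I.pos (nat_lit 0) (nat_lit 89480386)) (xR T0.l1 T0.l1)
  (TrL.c (I.pos (nat_lit 0) (nat_lit 41530880)) T5.l2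
  (TrL.c (I.pos (nat_lit 0) (nat_lit 0)) T5.l3
  (TrL.c (I.pos (nat_lit 0) (nat_lit 0)) T0.l2
  (TrL.c (I.mix (nat_lit 41527258) (nat_lit 41530880)) T5.l4
  (TrL.c (I.mix (nat_lit 41527258) (nat_lit 4274)) T0.l3
  TrL.n)))))))) (by decide +kernel)
theorem bx2_5 : BoxOK sI cl6 cl5 cl13 t0 t5 b2_5 :=
  box_mk (TrL.c (I.pos (nat_lit 0) (nat_lit 0)) T5.l9
  (TrL.c (I.pos (nat_lit 0) (nat_lit 0)) T0.l1
  (TrL.c (I.mix (nat_lit 41527258) (nat_lit 41530880)) (xR T5.l8 T5.l2)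
  (TrL.c (I.mix (nat_lit 41527258) (nat_lit 4274)) T0.l7
  TrL.n)))) (by decide +kernel)
theorem bx2_6 : BoxOK sI cl6 cl5 cl13 t0 t5 b2_6 :=
  box_mk (TrL.c (I.pos (nat_lit 0) (nat_lit 0)) (xb T0.l0 (xa T0.l0 T0.l0))
  (TrL.c (I.pos (nat_lit 0) (nat_lit 0)) T5.l1
  (TrL.c (I.pos (nat_lit 0) (nat_lit 89480386)) (xR T0.l1 T0.l1)
  (TrL.c (I.pos (nat_lit 0) (nat_lit 41530880)) T5.l2
  (TrL.c (I.pos (nat_lit 0) (nat_lit 0)) T5.l3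
  (TrL.c (I.pos (nat_lit 0) (nat_lit 0)) T0.l2
  (TrL.c (I.mix (nat_lit 41527258) (nat_lit 41530880)) (xR T5.l4 T5.l6)
  (TrL.c (I.mix (nat_lit 41527258) (nat_lit 4274)) T0.l6
  TrL.n)))))))) (by decide +kernel)
theorem bx2_7 : BoxOK sI cl6 cl5 cl13 t0 t5 b2_7 :=
  box_mk (TrL.c (I.pos (nat_lit 0) (nat_lit 0)) T0.l0
  (TrL.c (I.pos (nat_lit 0) (nat_lit 0)) T5.l9
  (TrL.c (I.pos (nat_lit 0) (nat_lit 89480386)) T0.l1
  (TrL.c (I.pos (nat_lit 0) (nat_lit 41530880)) T5.l2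
  (TrL.c (I.pos (nat_lit 0) (nat_lit 0)) T5.l3
  (TrL.c (I.pos (nat_lit 0) (nat_lit 0)) T0.l2
  (TrL.c (I.mix (nat_lit 41527258) (nat_lit 41530880)) T5.l4
  (TrL.c (I.mix (nat_lit 41527258) (nat_lit 4274)) T0.l3
  TrL.n)))))))) (by decide +kernel)
theorem sv2 : StarV sI cl6 cl5 cl13 t0 t5 t2 :=
  (bt_n (bt_n (bt_n (bt_b bx2_0) (bt_b bx2_1)) (bt_n (bt_b bx2_2) (bt_b bx2_3))) (bt_n (bt_n (bt_b bx2_4) (bt_b bx2_5)) (bt_n (bt_b bx2_6) (bt_b bx2_7))))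
def S2 : StarD := StarD.mk cl6 cl5 cl13 0 5 t2
theorem bx3_0 : BoxOK sI cl6 cl13 cl5 t5 t0 b3_0 :=
  box_mk (TrL.c (I.pos (nat_lit 0) (nat_lit 0)) (xa (xa T5.l0 T5.l0) (xa T5.l0 T5.l3))
  (TrL.c (I.pos (nat_lit 0) (nat_lit 0)) T0.l5
  (TrL.c (I.pos (nat_lit 0) (nat_lit 89480386)) (xR T5.l6 T5.l6)
  (TrL.c (I.pos (nat_lit 0) (nat_lit 41530880)) T0.l6
  (TrL.c (I.pos (nat_lit 0) (nat_lit 0)) (xa T0.l9 (xb T0.l9 T0.l9))
  (TrL.c (I.pos (nat_lit 0) (nat_lit 0)) T5.l7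
  (TrL.c (I.mix (nat_lit 41527258) (nat_lit 41530880)) (xR T0.l7 T0.l1)
  (TrL.c (I.mix (nat_lit 41527258) (nat_lit 4274)) T5.l8
  TrL.n)))))))) (by decide +kernel)
theorem bx3_1 : BoxOK sI cl6 cl13 cl5 t5 t0 b3_1 :=
  box_mk (TrL.c (I.pos (nat_lit 0) (nat_lit 0)) T5.l0
  (TrL.c (I.pos (nat_lit 0) (nat_lit 0)) T0.l5
  (TrL.c (I.pos (nat_lit 0) (nat_lit 89480386)) (xR T5.l6 T5.l6)
  (TrL.c (I.pos (nat_lit 0) (nat_lit 41530880)) T0.l6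
  (TrL.c (I.pos (nat_lit 0) (nat_lit 0)) T0.l9
  (TrL.c (I.pos (nat_lit 0) (nat_lit 0)) T5.l7
  (TrL.c (I.mix (nat_lit 41527258) (nat_lit 41530880)) T0.l7
  (TrL.c (I.mix (nat_lit 41527258) (nat_lit 4274)) T5.l8
  TrL.n)))))))) (by decide +kernel)
theorem bx3_2 : BoxOK sI cl6 cl13 cl5 t5 t0 b3_2 :=
  box_mk (TrL.c (I.pos (nat_lit 0) (nat_lit 0)) T5.l0
  (TrL.c (I.pos (nat_lit 0) (nat_lit 0)) T0.l5
  (TrL.c (I.pos (nat_lit 0) (nat_lit 89480386)) T5.l6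
  (TrL.c (I.pos (nat_lit 0) (nat_lit 41530880)) T0.l6
  (TrL.c (I.pos (nat_lit 0) (nat_lit 0)) T0.l9
  (TrL.c (I.pos (nat_lit 0) (nat_lit 0)) T5.l7
  (TrL.c (I.mix (nat_lit 41527258) (nat_lit 41530880)) T0.l7
  (TrL.c (I.mix (nat_lit 41527258) (nat_lit 4274)) T5.l8
  TrL.n)))))))) (by decide +kernel)
theorem bx3_3 : BoxOK sI cl6 cl13 cl5 t5 t0 b3_3 :=
  box_mk (TrL.c (I.pos (nat_lit 0) (nat_lit 0)) (xa (xb T5.l0 T5.l0) (xb T5.l0 T5.l0))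
  (TrL.c (I.pos (nat_lit 0) (nat_lit 0)) T0.l5
  (TrL.c (I.pos (nat_lit 0) (nat_lit 89480386)) (xR T5.l6 T5.l6)
  (TrL.c (I.pos (nat_lit 0) (nat_lit 41530880)) T0.l6
  (TrL.c (I.pos (nat_lit 0) (nat_lit 0)) T0.l9
  (TrL.c (I.pos (nat_lit 0) (nat_lit 0)) T5.l7
  (TrL.c (I.mix (nat_lit 41527258) (nat_lit 41530880)) (xR T0.l7 T0.l7)
  (TrL.c (I.mix (nat_lit 41527258) (nat_lit 4274)) T5.l8
  TrL.n)))))))) (by decide +kernel)
theorem bx3_4 : BoxOK sI cl6 cl13 cl5 t5 t0 b3_4 :=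
  box_mk (TrL.c (I.pos (nat_lit 0) (nat_lit 0)) (xa T5.l0 T5.l0)
  (TrL.c (I.pos (nat_lit 0) (nat_lit 0)) T0.l5
  (TrL.c (I.pos (nat_lit 0) (nat_lit 89480386)) T5.l6
  (TrL.c (I.pos (nat_lit 0) (nat_lit 41530880)) T0.l6
  (TrL.c (I.pos (nat_lit 0) (nat_lit 0)) T0.l9
  (TrL.c (I.pos (nat_lit 0) (nat_lit 0)) T5.l7
  (TrL.c (I.mix (nat_lit 41527258) (nat_lit 41530880)) T0.l7
  (TrL.c (I.mix (nat_lit 41527258) (nat_lit 4274)) T5.l8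
  TrL.n)))))))) (by decide +kernel)
theorem bx3_5 : BoxOK sI cl6 cl13 cl5 t5 t0 b3_5 :=
  box_mk (TrL.c (I.pos (nat_lit 0) (nat_lit 0)) T5.l0
  (TrL.c (I.pos (nat_lit 0) (nat_lit 0)) T0.l5
  (TrL.c (I.pos (nat_lit 0) (nat_lit 89480386)) (xR T5.l6 T5.l6)
  (TrL.c (I.pos (nat_lit 0) (nat_lit 41530880)) T0.l6
  (TrL.c (I.pos (nat_lit 0) (nat_lit 0)) T0.l9
  (TrL.c (I.pos (nat_lit 0) (nat_lit 0)) T5.l7
  (TrL.c (I.mix (nat_lit 41527258) (nat_lit 41530880)) T0.l7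
  (TrL.c (I.mix (nat_lit 41527258) (nat_lit 4274)) T5.l8
  TrL.n)))))))) (by decide +kernel)
theorem bx3_6 : BoxOK sI cl6 cl13 cl5 t5 t0 b3_6 :=
  box_mk (TrL.c (I.pos (nat_lit 0) (nat_lit 0)) (xa T5.l0 T5.l0)
  (TrL.c (I.pos (nat_lit 0) (nat_lit 0)) T0.l5
  (TrL.c (I.pos (nat_lit 0) (nat_lit 89480386)) T5.l6
  (TrL.c (I.pos (nat_lit 0) (nat_lit 41530880)) T0.l6
  (TrL.c (I.pos (nat_lit 0) (nat_lit 0)) T0.l9
  (TrL.c (I.pos (nat_lit 0) (nat_lit 0)) T5.l7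
  (TrL.c (I.mix (nat_lit 41527258) (nat_lit 41530880)) T0.l7
  (TrL.c (I.mix (nat_lit 41527258) (nat_lit 4274)) T5.l8
  TrL.n)))))))) (by decide +kernel)
theorem bx3_7 : BoxOK sI cl6 cl13 cl5 t5 t0 b3_7 :=
  box_mk (TrL.c (I.pos (nat_lit 0) (nat_lit 0)) T5.l0
  (TrL.c (I.pos (nat_lit 0) (nat_lit 0)) T0.l5
  (TrL.c (I.pos (nat_lit 0) (nat_lit 89480386)) T5.l6
  (TrL.c (I.pos (nat_lit 0) (nat_lit 41530880)) T0.l6
  (TrL.c (I.pos (nat_lit 0) (nat_lit 0)) T0.l9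
  (TrL.c (I.pos (nat_lit 0) (nat_lit 0)) T5.l7
  (TrL.c (I.mix (nat_lit 41527258) (nat_lit 41530880)) T0.l7
  (TrL.c (I.mix (nat_lit 41527258) (nat_lit 4274)) T5.l8
  TrL.n)))))))) (by decide +kernel)
theorem bx3_8 : BoxOK sI cl6 cl13 cl5 t5 t0 b3_8 :=
  box_mk (TrL.c (I.pos (nat_lit 0) (nat_lit 0)) T5.l0
  (TrL.c (I.pos (nat_lit 0) (nat_lit 0)) T0.l5
  (TrL.c (I.pos (nat_lit 0) (nat_lit 89480386)) (xR T5.l6 T5.l6)
  (TrL.c (I.pos (nat_lit 0) (nat_lit 41530880)) T0.l6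
  (TrL.c (I.pos (nat_lit 0) (nat_lit 0)) T0.l9
  (TrL.c (I.pos (nat_lit 0) (nat_lit 0)) T5.l7
  (TrL.c (I.mix (nat_lit 41527258) (nat_lit 41530880)) T0.l7
  (TrL.c (I.mix (nat_lit 41527258) (nat_lit 4274)) T5.l8
  TrL.n)))))))) (by decide +kernel)
theorem bx3_9 : BoxOK sI cl6 cl13 cl5 t5 t0 b3_9 :=
  box_mk (TrL.c (I.pos (nat_lit 0) (nat_lit 0)) (xa (xa T5.l0 T5.l0) T5.l0)
  (TrL.c (I.pos (nat_lit 0) (nat_lit 0)) T0.l5
  (TrL.c (I.pos (nat_lit 0) (nat_lit 89480386)) T5.l6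
  (TrL.c (I.pos (nat_lit 0) (nat_lit 41530880)) T0.l6
  (TrL.c (I.pos (nat_lit 0) (nat_lit 0)) T0.l9
  (TrL.c (I.pos (nat_lit 0) (nat_lit 0)) T5.l7
  (TrL.c (I.mix (nat_lit 41527258) (nat_lit 41530880)) T0.l7
  (TrL.c (I.mix (nat_lit 41527258) (nat_lit 4274)) T5.l8
  TrL.n)))))))) (by decide +kernel)
theorem sv3 : StarV sI cl6 cl13 cl5 t5 t0 t3 :=
  (bt_n (bt_n (bt_n (bt_b bx3_0) (bt_b bx3_1)) (bt_n (bt_b bx3_2) (bt_n (bt_b bx3_3) (bt_b bx3_4)))) (bt_n (bt_n (bt_b bx3_5) (bt_b bx3_6)) (bt_n (bt_b bx3_7) (bt_n (bt_b bx3_8) (bt_b bx3_9)))))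
def S3 : StarD := StarD.mk cl6 cl13 cl5 5 0 t3
theorem bx4_0 : BoxOK sI cl13 cl5 cl6 t1 t3 b4_0 :=
  box_mk (TrL.c (I.pos (nat_lit 0) (nat_lit 0)) (xa (xa T1.l0 T1.l0) T1.l0)
  (TrL.c (I.pos (nat_lit 0) (nat_lit 0)) T3.l1
  (TrL.c (I.pos (nat_lit 0) (nat_lit 134217730)) (xR T1.l1 T1.l9)
  (TrL.c (I.pos (nat_lit 0) (nat_lit 110514882)) (xR T3.l2 T3.l2)
  (TrL.c (I.pos (nat_lit 0) (nat_lit 0)) (xa (xa T3.l3 T3.l3) (xa (xk T3.l3 T3.l3) (xk (xb T3.l3 (xs T3.l3 (xa T3.l3 (xk T3.l3 T3.l3)))) (xb T3.l3 (xs T3.l3 (xa T3.l3 (xk (xb T3.l3 T3.l3) (xb T3.l3 (xs T3.l3 T3.l3)))))))))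
  (TrL.c (I.pos (nat_lit 0) (nat_lit 0)) T1.l2
  (TrL.c (I.mix (nat_lit 8088324) (nat_lit 110514882)) (xR T3.l4 T3.l4)
  (TrL.c (I.mix (nat_lit 8088324) (nat_lit 89478486)) (xR T1.l3 T1.l3)
  TrL.n)))))))) (by decide +kernel)
theorem bx4_1 : BoxOK sI cl13 cl5 cl6 t1 t3 b4_1 :=
  box_mk (TrL.c (I.pos (nat_lit 0) (nat_lit 0)) T1.l0
  (TrL.c (I.pos (nat_lit 0) (nat_lit 0)) T3.l1
  (TrL.c (I.pos (nat_lit 0) (nat_lit 134217730)) T1.l9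
  (TrL.c (I.pos (nat_lit 0) (nat_lit 110514882)) (xR T3.l2 T3.l2)
  (TrL.c (I.pos (nat_lit 0) (nat_lit 0)) T3.l3
  (TrL.c (I.pos (nat_lit 0) (nat_lit 0)) T1.l2
  (TrL.c (I.mix (nat_lit 8088324) (nat_lit 110514882)) T3.l4
  (TrL.c (I.mix (nat_lit 8088324) (nat_lit 89478486)) T1.l3
  TrL.n)))))))) (by decide +kernel)
theorem bx4_2 : BoxOK sI cl13 cl5 cl6 t1 t3 b4_2 :=
  box_mk (TrL.c (I.pos (nat_lit 0) (nat_lit 0)) T3.l1
  (TrL.c (I.pos (nat_lit 0) (nat_lit 0)) T1.l1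
  (TrL.c (I.mix (nat_lit 8088324) (nat_lit 110514882)) (xR T3.l6 T3.l2)
  (TrL.c (I.mix (nat_lit 8088324) (nat_lit 89478486)) T1.l1
  TrL.n)))) (by decide +kernel)
theorem bx4_3 : BoxOK sI cl13 cl5 cl6 t1 t3 b4_3 :=
  box_mk (TrL.c (I.pos (nat_lit 0) (nat_lit 0)) (xa (xb T1.l0 T1.l0) T1.l0)
  (TrL.c (I.pos (nat_lit 0) (nat_lit 0)) T3.l1
  (TrL.c (I.pos (nat_lit 0) (nat_lit 134217730)) (xR T1.l1 T1.l9)
  (TrL.c (I.pos (nat_lit 0) (nat_lit 110514882)) (xR T3.l2 T3.l2)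
  (TrL.c (I.pos (nat_lit 0) (nat_lit 0)) (xb T3.l3 T3.l3)
  (TrL.c (I.pos (nat_lit 0) (nat_lit 0)) T1.l2
  (TrL.c (I.mix (nat_lit 8088324) (nat_lit 110514882)) T3.l4
  (TrL.c (I.mix (nat_lit 8088324) (nat_lit 89478486)) T1.l3
  TrL.n)))))))) (by decide +kernel)
theorem bx4_4 : BoxOK sI cl13 cl5 cl6 t1 t3 b4_4 :=
  box_mk (TrL.c (I.pos (nat_lit 0) (nat_lit 0)) T1.l0
  (TrL.c (I.pos (nat_lit 0) (nat_lit 0)) T3.l1
  (TrL.c (I.pos (nat_lit 0) (nat_lit 134217730)) T1.l1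
  (TrL.c (I.pos (nat_lit 0) (nat_lit 110514882)) (xR T3.l2 T3.l2)
  (TrL.c (I.pos (nat_lit 0) (nat_lit 0)) T3.l3
  (TrL.c (I.pos (nat_lit 0) (nat_lit 0)) T1.l2
  (TrL.c (I.mix (nat_lit 8088324) (nat_lit 110514882)) T3.l4
  (TrL.c (I.mix (nat_lit 8088324) (nat_lit 89478486)) T1.l3
  TrL.n)))))))) (by decide +kernel)
theorem bx4_5 : BoxOK sI cl13 cl5 cl6 t1 t3 b4_5 :=
  box_mk (TrL.c (I.pos (nat_lit 0) (nat_lit 0)) T1.l0
  (TrL.c (I.pos (nat_lit 0) (nat_lit 0)) T3.l1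
  (TrL.c (I.pos (nat_lit 0) (nat_lit 134217730)) T1.l1
  (TrL.c (I.pos (nat_lit 0) (nat_lit 110514882)) T3.l2
  (TrL.c (I.pos (nat_lit 0) (nat_lit 0)) T3.l3
  (TrL.c (I.pos (nat_lit 0) (nat_lit 0)) T1.l2
  (TrL.c (I.mix (nat_lit 8088324) (nat_lit 110514882)) T3.l4
  (TrL.c (I.mix (nat_lit 8088324) (nat_lit 89478486)) T1.l3
  TrL.n)))))))) (by decide +kernel)
theorem bx4_6 : BoxOK sI cl13 cl5 cl6 t1 t3 b4_6 :=
  box_mk (TrL.c (I.pos (nat_lit 0) (nat_lit 0)) T1.l0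
  (TrL.c (I.pos (nat_lit 0) (nat_lit 0)) T3.l1
  (TrL.c (I.pos (nat_lit 0) (nat_lit 134217730)) T1.l9
  (TrL.c (I.pos (nat_lit 0) (nat_lit 110514882)) T3.l2
  (TrL.c (I.pos (nat_lit 0) (nat_lit 0)) T3.l3
  (TrL.c (I.pos (nat_lit 0) (nat_lit 0)) T1.l2
  (TrL.c (I.mix (nat_lit 8088324) (nat_lit 110514882)) T3.l4
  (TrL.c (I.mix (nat_lit 8088324) (nat_lit 89478486)) T1.l3
  TrL.n)))))))) (by decide +kernel)
theorem bx4_7 : BoxOK sI cl13 cl5 cl6 t1 t3 b4_7 :=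
  box_mk (TrL.c (I.pos (nat_lit 0) (nat_lit 0)) T3.l1
  (TrL.c (I.pos (nat_lit 0) (nat_lit 0)) T1.l1
  (TrL.c (I.mix (nat_lit 8088324) (nat_lit 110514882)) (xR T3.l6 T3.l2)
  (TrL.c (I.mix (nat_lit 8088324) (nat_lit 89478486)) T1.l1
  TrL.n)))) (by decide +kernel)
theorem sv4 : StarV sI cl13 cl5 cl6 t1 t3 t4 :=
  (bt_n (bt_n (bt_n (bt_b bx4_0) (bt_b bx4_1)) (bt_n (bt_b bx4_2) (bt_b bx4_3))) (bt_n (bt_n (bt_b bx4_4) (bt_b bx4_5)) (bt_n (bt_b bx4_6) (bt_b bx4_7))))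
def S4 : StarD := StarD.mk cl13 cl5 cl6 1 3 t4
theorem bx5_0 : BoxOK sI cl13 cl6 cl5 t3 t1 b5_0 :=
  box_mk (TrL.c (I.pos (nat_lit 0) (nat_lit 0)) (xa (xa T3.l0 T3.l0) (xa T3.l0 T3.l0))
  (TrL.c (I.pos (nat_lit 0) (nat_lit 0)) T1.l6
  (TrL.c (I.pos (nat_lit 0) (nat_lit 134217730)) (xR T3.l4 T3.l4)
  (TrL.c (I.pos (nat_lit 0) (nat_lit 110514882)) (xR T1.l7 T1.l7)
  (TrL.c (I.pos (nat_lit 0) (nat_lit 0)) (xa (xb T1.l8 T1.l8) (xa (xb T1.l8 T1.l8) (xk (xb T1.l8 (xa T1.l8 (xs T1.l8 T1.l8))) (xb T1.l8 (xs T1.l8 (xa T1.l8 T1.l8))))))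
  (TrL.c (I.pos (nat_lit 0) (nat_lit 0)) T3.l8
  (TrL.c (I.mix (nat_lit 8088324) (nat_lit 110514882)) (xR T1.l9 T1.l9)
  (TrL.c (I.mix (nat_lit 8088324) (nat_lit 89478486)) (xR T3.l9 T3.l9)
  TrL.n)))))))) (by decide +kernel)
theorem bx5_1 : BoxOK sI cl13 cl6 cl5 t3 t1 b5_1 :=
  box_mk (TrL.c (I.pos (nat_lit 0) (nat_lit 0)) T3.l0
  (TrL.c (I.pos (nat_lit 0) (nat_lit 0)) T1.l6
  (TrL.c (I.pos (nat_lit 0) (nat_lit 134217730)) (xR T3.l2 T3.l4)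
  (TrL.c (I.pos (nat_lit 0) (nat_lit 110514882)) (xR T1.l7 T1.l7)
  (TrL.c (I.pos (nat_lit 0) (nat_lit 0)) T1.l8
  (TrL.c (I.pos (nat_lit 0) (nat_lit 0)) T3.l8
  (TrL.c (I.mix (nat_lit 8088324) (nat_lit 110514882)) T1.l9
  (TrL.c (I.mix (nat_lit 8088324) (nat_lit 89478486)) T3.l9
  TrL.n)))))))) (by decide +kernel)
theorem bx5_2 : BoxOK sI cl13 cl6 cl5 t3 t1 b5_2 :=
  box_mk (TrL.c (I.pos (nat_lit 0) (nat_lit 0)) T3.l0
  (TrL.c (I.pos (nat_lit 0) (nat_lit 0)) T1.l6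
  (TrL.c (I.pos (nat_lit 0) (nat_lit 134217730)) (xR T3.l2 T3.l7)
  (TrL.c (I.pos (nat_lit 0) (nat_lit 110514882)) T1.l9
  (TrL.c (I.pos (nat_lit 0) (nat_lit 0)) T1.l8
  (TrL.c (I.pos (nat_lit 0) (nat_lit 0)) T3.l8
  (TrL.c (I.mix (nat_lit 8088324) (nat_lit 110514882)) T1.l9
  (TrL.c (I.mix (nat_lit 8088324) (nat_lit 89478486)) T3.l9
  TrL.n)))))))) (by decide +kernel)
theorem bx5_3 : BoxOK sI cl13 cl6 cl5 t3 t1 b5_3 :=
  box_mk (TrL.c (I.pos (nat_lit 0) (nat_lit 0)) (xa (xb T3.l0 T3.l0) T3.l0)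
  (TrL.c (I.pos (nat_lit 0) (nat_lit 0)) T1.l6
  (TrL.c (I.pos (nat_lit 0) (nat_lit 134217730)) (xR T3.l4 (xR T3.l7 T3.l7))
  (TrL.c (I.pos (nat_lit 0) (nat_lit 110514882)) (xR T1.l7 T1.l7)
  (TrL.c (I.pos (nat_lit 0) (nat_lit 0)) (xb T1.l8 T1.l8)
  (TrL.c (I.pos (nat_lit 0) (nat_lit 0)) T3.l8
  (TrL.c (I.mix (nat_lit 8088324) (nat_lit 110514882)) T1.l9
  (TrL.c (I.mix (nat_lit 8088324) (nat_lit 89478486)) T3.l9
  TrL.n)))))))) (by decide +kernel)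
theorem bx5_4 : BoxOK sI cl13 cl6 cl5 t3 t1 b5_4 :=
  box_mk (TrL.c (I.pos (nat_lit 0) (nat_lit 0)) T3.l0
  (TrL.c (I.pos (nat_lit 0) (nat_lit 0)) T1.l6
  (TrL.c (I.pos (nat_lit 0) (nat_lit 134217730)) (xR T3.l2 T3.l7)
  (TrL.c (I.pos (nat_lit 0) (nat_lit 110514882)) (xR T1.l7 T1.l7)
  (TrL.c (I.pos (nat_lit 0) (nat_lit 0)) T1.l8
  (TrL.c (I.pos (nat_lit 0) (nat_lit 0)) T3.l8
  (TrL.c (I.mix (nat_lit 8088324) (nat_lit 110514882)) T1.l9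
  (TrL.c (I.mix (nat_lit 8088324) (nat_lit 89478486)) T3.l9
  TrL.n)))))))) (by decide +kernel)
theorem bx5_5 : BoxOK sI cl13 cl6 cl5 t3 t1 b5_5 :=
  box_mk (TrL.c (I.pos (nat_lit 0) (nat_lit 0)) T3.l0
  (TrL.c (I.pos (nat_lit 0) (nat_lit 0)) T1.l6
  (TrL.c (I.pos (nat_lit 0) (nat_lit 134217730)) (xR T3.l2 T3.l7)
  (TrL.c (I.pos (nat_lit 0) (nat_lit 110514882)) T1.l9
  (TrL.c (I.pos (nat_lit 0) (nat_lit 0)) T1.l8
  (TrL.c (I.pos (nat_lit 0) (nat_lit 0)) T3.l8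
  (TrL.c (I.mix (nat_lit 8088324) (nat_lit 110514882)) T1.l9
  (TrL.c (I.mix (nat_lit 8088324) (nat_lit 89478486)) T3.l9
  TrL.n)))))))) (by decide +kernel)
theorem bx5_6 : BoxOK sI cl13 cl6 cl5 t3 t1 b5_6 :=
  box_mk (TrL.c (I.pos (nat_lit 0) (nat_lit 0)) (xa T3.l0 T3.l0)
  (TrL.c (I.pos (nat_lit 0) (nat_lit 0)) T1.l6
  (TrL.c (I.pos (nat_lit 0) (nat_lit 134217730)) (xR T3.l4 T3.l7)
  (TrL.c (I.pos (nat_lit 0) (nat_lit 110514882)) T1.l7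
  (TrL.c (I.pos (nat_lit 0) (nat_lit 0)) T1.l8
  (TrL.c (I.pos (nat_lit 0) (nat_lit 0)) T3.l8
  (TrL.c (I.mix (nat_lit 8088324) (nat_lit 110514882)) T1.l9
  (TrL.c (I.mix (nat_lit 8088324) (nat_lit 89478486)) T3.l9
  TrL.n)))))))) (by decide +kernel)
theorem bx5_7 : BoxOK sI cl13 cl6 cl5 t3 t1 b5_7 :=
  box_mk (TrL.c (I.pos (nat_lit 0) (nat_lit 0)) T3.l0
  (TrL.c (I.pos (nat_lit 0) (nat_lit 0)) T1.l6
  (TrL.c (I.pos (nat_lit 0) (nat_lit 134217730)) T3.l4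
  (TrL.c (I.pos (nat_lit 0) (nat_lit 110514882)) T1.l7
  (TrL.c (I.pos (nat_lit 0) (nat_lit 0)) T1.l8
  (TrL.c (I.pos (nat_lit 0) (nat_lit 0)) T3.l8
  (TrL.c (I.mix (nat_lit 8088324) (nat_lit 110514882)) T1.l9
  (TrL.c (I.mix (nat_lit 8088324) (nat_lit 89478486)) T3.l9
  TrL.n)))))))) (by decide +kernel)
theorem bx5_8 : BoxOK sI cl13 cl6 cl5 t3 t1 b5_8 :=
  box_mk (TrL.c (I.pos (nat_lit 0) (nat_lit 0)) T3.l0
  (TrL.c (I.pos (nat_lit 0) (nat_lit 0)) T1.l8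
  (TrL.c (I.pos (nat_lit 0) (nat_lit 134217730)) (xR T3.l2 T3.l7)
  (TrL.c (I.pos (nat_lit 0) (nat_lit 110514882)) T1.l9
  (TrL.c (I.pos (nat_lit 0) (nat_lit 0)) T1.l6
  (TrL.c (I.pos (nat_lit 0) (nat_lit 0)) T3.l8
  (TrL.c (I.mix (nat_lit 8088324) (nat_lit 110514882)) T1.l9
  (TrL.c (I.mix (nat_lit 8088324) (nat_lit 89478486)) T3.l9
  TrL.n)))))))) (by decide +kernel)
theorem bx5_9 : BoxOK sI cl13 cl6 cl5 t3 t1 b5_9 :=
  box_mk (TrL.c (I.pos (nat_lit 0) (nat_lit 0)) T3.l0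
  (TrL.c (I.pos (nat_lit 0) (nat_lit 0)) T1.l6
  (TrL.c (I.pos (nat_lit 0) (nat_lit 134217730)) (xR T3.l2 T3.l7)
  (TrL.c (I.pos (nat_lit 0) (nat_lit 110514882)) (xR T1.l7 T1.l7)
  (TrL.c (I.pos (nat_lit 0) (nat_lit 0)) T1.l8
  (TrL.c (I.pos (nat_lit 0) (nat_lit 0)) T3.l8
  (TrL.c (I.mix (nat_lit 8088324) (nat_lit 110514882)) T1.l9
  (TrL.c (I.mix (nat_lit 8088324) (nat_lit 89478486)) T3.l9
  TrL.n)))))))) (by decide +kernel)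
theorem sv5 : StarV sI cl13 cl6 cl5 t3 t1 t5 :=
  (bt_n (bt_n (bt_n (bt_b bx5_0) (bt_b bx5_1)) (bt_n (bt_b bx5_2) (bt_n (bt_b bx5_3) (bt_b bx5_4)))) (bt_n (bt_n (bt_b bx5_5) (bt_b bx5_6)) (bt_n (bt_b bx5_7) (bt_n (bt_b bx5_8) (bt_b bx5_9)))))
def S5 : StarD := StarD.mk cl13 cl6 cl5 3 1 t5
def G : List StarD := [S0, S1, S2, S3, S4, S5]
theorem so0 : StarOK sI G S0 :=
  star_mk (by decide) (by decide) rfl rfl rfl rfl rfl rfl (rfl : _ = t2) (rfl : _ = t4)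
  (st_mk (Pth.l (Pth.l (Pth.l Pth.z))) (nat_lit 189092329) (nat_lit 190311052) (by decide +kernel))
  (st_mk (Pth.l (Pth.l (Pth.l Pth.z))) (nat_lit 225238596) (nat_lit 226979018) (by decide +kernel))
  (st_mk (Pth.l (Pth.l (Pth.l Pth.z))) (nat_lit 267229401) (nat_lit 269700786) (by decide +kernel)) sv0
theorem so1 : StarOK sI G S1 :=
  star_mk (by decide) (by decide) rfl rfl rfl rfl rfl rfl (rfl : _ = t4) (rfl : _ = t2)
  (st_mk (Pth.l (Pth.l (Pth.l Pth.z))) (nat_lit 96926802) (nat_lit 115833983) (by decide +kernel))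
  (st_mk (Pth.l (Pth.l (Pth.l Pth.z))) (nat_lit 132774306) (nat_lit 152173038) (by decide +kernel))
  (st_mk (Pth.l (Pth.l (Pth.l Pth.z))) (nat_lit 174518368) (nat_lit 194621648) (by decide +kernel)) sv1
theorem so2 : StarOK sI G S2 :=
  star_mk (by decide) (by decide) rfl rfl rfl rfl rfl rfl (rfl : _ = t0) (rfl : _ = t5)
  (st_mk (Pth.l (Pth.l (Pth.l Pth.z))) (nat_lit 241398913) (nat_lit 242642817) (by decide +kernel))
  (st_mk (Pth.l (Pth.l (Pth.l Pth.z))) (nat_lit 277276003) (nat_lit 278922703) (by decide +kernel))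
  (st_mk (Pth.l (Pth.l (Pth.l Pth.z))) (nat_lit 318847051) (nat_lit 321035012) (by decide +kernel)) sv2
theorem so3 : StarOK sI G S3 :=
  star_mk (by decide) (by decide) rfl rfl rfl rfl rfl rfl (rfl : _ = t5) (rfl : _ = t0)
  (st_mk (Pth.l (Pth.l (Pth.l Pth.z))) (nat_lit 96619059) (nat_lit 115278152) (by decide +kernel))
  (st_mk (Pth.l (Pth.l (Pth.l Pth.z))) (nat_lit 132195919) (nat_lit 151202778) (by decide +kernel))
  (st_mk (Pth.l (Pth.l (Pth.l Pth.z))) (nat_lit 173514929) (nat_lit 193015786) (by decide +kernel)) sv3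
theorem so4 : StarOK sI G S4 :=
  star_mk (by decide) (by decide) rfl rfl rfl rfl rfl rfl (rfl : _ = t1) (rfl : _ = t3)
  (st_mk (Pth.l (Pth.l (Pth.l Pth.z))) (nat_lit 238062708) (nat_lit 239593631) (by decide +kernel))
  (st_mk (Pth.l (Pth.l (Pth.l Pth.z))) (nat_lit 272959317) (nat_lit 274802640) (by decide +kernel))
  (st_mk (Pth.l (Pth.l (Pth.l Pth.z))) (nat_lit 313224636) (nat_lit 315482201) (by decide +kernel)) sv4
theorem so5 : StarOK sI G S5 :=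
  star_mk (by decide) (by decide) rfl rfl rfl rfl rfl rfl (rfl : _ = t3) (rfl : _ = t1)
  (st_mk (Pth.l (Pth.l (Pth.l Pth.z))) (nat_lit 185843017) (nat_lit 187075891) (by decide +kernel))
  (st_mk (Pth.l (Pth.l (Pth.l Pth.z))) (nat_lit 220739626) (nat_lit 222257643) (by decide +kernel))
  (st_mk (Pth.l (Pth.l (Pth.l Pth.z))) (nat_lit 261004945) (nat_lit 262913600) (by decide +kernel)) sv5
theorem ok : GroupOK (nat_lit 0) (nat_lit 91291648) G := grp_mk (allS_c so0 (allS_c so1 (allS_c so2 (allS_c so3 (allS_c so4 (allS_c so5 allS_n))))))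
theorem cov : GCov G cl5 cl6 cl13 := cov_mk
  ⟨0, by decide, rfl, rfl, rfl⟩ ⟨1, by decide, rfl, rfl, rfl⟩ ⟨2, by decide, rfl, rfl, rfl⟩ ⟨3, by decide, rfl, rfl, rfl⟩ ⟨4, by decide, rfl, rfl, rfl⟩ ⟨5, by decide, rfl, rfl, rfl⟩
end Q236_0

namespace Q236_1
def sI : I := I.pos (nat_lit 91226112) (nat_lit 150339584)
def b0_0 : Bx := Bx.mk (St.mk (I.pos (nat_lit 157351936) (nat_lit 269910016)) (I.mix (nat_lit 5832704) (nat_lit 63569920)) (I.mix (nat_lit 73170944) (nat_lit 76546048)) (I.pos (nat_lit 184074240) (nat_lit 370425856)) (I.mix (nat_lit 92241920) (nat_lit 60194816)) (I.mix (nat_lit 73039872) (nat_lit 49446912)) (I.mix (nat_lit 114851840) (nat_lit 76038144)))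
  false (nat_lit 0)
def b0_1 : Bx := Bx.mk (St.mk (I.mix (nat_lit 29130752) (nat_lit 95977472)) (I.mix (nat_lit 2949120) (nat_lit 40714240)) (I.mix (nat_lit 23674880) (nat_lit 4308992)) (I.pos (nat_lit 81182720) (nat_lit 123338752)) (I.mix (nat_lit 31817728) (nat_lit 38207488)) (I.mix (nat_lit 33210368) (nat_lit 25935872)) (I.mix (nat_lit 21659648) (nat_lit 14221312)))
  false (nat_lit 0)
def b0_2 : Bx := Bx.mk (St.mk (I.pos (nat_lit 83148800) (nat_lit 118620160)) (I.mix (nat_lit 57065472) (nat_lit 3686400)) (I.neg (nat_lit 16269312) (nat_lit 64143360)) (I.pos (nat_lit 114262016) (nat_lit 142540800)) (I.mix (nat_lit 84213760) (nat_lit 25952256)) (I.mix (nat_lit 35913728) (nat_lit 71254016)) (I.mix (nat_lit 25477120) (nat_lit 53870592)))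
  false (nat_lit 0)
def b0_3 : Bx := Bx.mk (St.mk (I.mix (nat_lit 46514176) (nat_lit 27230208)) (I.mix (nat_lit 34422784) (nat_lit 2572288)) (I.neg (nat_lit 4505600) (nat_lit 19726336)) (I.pos (nat_lit 82296832) (nat_lit 100614144)) (I.mix (nat_lit 33341440) (nat_lit 20348928)) (I.mix (nat_lit 18890752) (nat_lit 26951680)) (I.mix (nat_lit 10174464) (nat_lit 7634944)))
  false (nat_lit 0)
def b0_4 : Bx := Bx.mk (St.mk (I.mix (nat_lit 49315840) (nat_lit 5095424)) (I.mix (nat_lit 1966080) (nat_lit 11173888)) (I.neg (nat_lit 13451264) (nat_lit 21266432)) (I.pos (nat_lit 87228416) (nat_lit 98959360)) (I.mix (nat_lit 6914048) (nat_lit 13500416)) (I.mix (nat_lit 8126464) (nat_lit 6897664)) (I.mix (nat_lit 2719744) (nat_lit 4358144)))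
  false (nat_lit 0)
def b0_5 : Bx := Bx.mk (St.mk (I.pos (nat_lit 83591168) (nat_lit 91865088)) (I.mix (nat_lit 1835008) (nat_lit 8814592)) (I.neg (nat_lit 13271040) (nat_lit 22888448)) (I.pos (nat_lit 115064832) (nat_lit 121831424)) (I.mix (nat_lit 6471680) (nat_lit 10158080)) (I.mix (nat_lit 5767168) (nat_lit 4210688)) (I.mix (nat_lit 4358144) (nat_lit 3801088)))
  false (nat_lit 0)
def b0_6 : Bx := Bx.mk (St.mk (I.pos (nat_lit 94044160) (nat_lit 158384128)) (I.neg (nat_lit 3424256) (nat_lit 55164928)) (I.neg (nat_lit 15253504) (nat_lit 62832640)) (I.pos (nat_lit 126812160) (nat_lit 184893440)) (I.mix (nat_lit 69173248) (nat_lit 38076416)) (I.mix (nat_lit 30736384) (nat_lit 59621376)) (I.mix (nat_lit 22462464) (nat_lit 52625408)))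
  false (nat_lit 0)
def b0_7 : Bx := Bx.mk (St.mk (I.mix (nat_lit 35160064) (nat_lit 46448640)) (I.mix (nat_lit 34668544) (nat_lit 6504448)) (I.neg (nat_lit 5537792) (nat_lit 22642688)) (I.pos (nat_lit 81297408) (nat_lit 100925440)) (I.mix (nat_lit 35192832) (nat_lit 27869184)) (I.mix (nat_lit 21200896) (nat_lit 35553280)) (I.mix (nat_lit 10682368) (nat_lit 13910016)))
  false (nat_lit 0)
def b0_8 : Bx := Bx.mk (St.mk (I.mix (nat_lit 47742976) (nat_lit 77545472)) (I.mix (nat_lit 9748480) (nat_lit 35700736)) (I.mix (nat_lit 22642688) (nat_lit 2736128)) (I.pos (nat_lit 81297408) (nat_lit 111968256)) (I.mix (nat_lit 31981568) (nat_lit 35192832)) (I.mix (nat_lit 37699584) (nat_lit 23691264)) (I.mix (nat_lit 14467072) (nat_lit 13910016)))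
  false (nat_lit 0)
def b0_9 : Bx := Bx.mk (St.mk (I.pos (nat_lit 141099008) (nat_lit 214286336)) (I.mix (nat_lit 38617088) (nat_lit 66486272)) (I.mix (nat_lit 52084736) (nat_lit 73924608)) (I.pos (nat_lit 167116800) (nat_lit 265519104)) (I.mix (nat_lit 120864768) (nat_lit 60440576)) (I.mix (nat_lit 121733120) (nat_lit 73711616)) (I.mix (nat_lit 116703232) (nat_lit 70451200)))
  false (nat_lit 0)
def t0 : BTr := (BTr.n (BTr.n (BTr.n (BTr.b b0_0) (BTr.b b0_1)) (BTr.n (BTr.b b0_2) (BTr.n (BTr.b b0_3) (BTr.b b0_4)))) (BTr.n (BTr.n (BTr.b b0_5) (BTr.b b0_6)) (BTr.n (BTr.b b0_7) (BTr.n (BTr.b b0_8) (BTr.b b0_9)))))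
namespace T0
def l0 : Tr := Tr.L (Pth.l (Pth.l (Pth.l Pth.z)))
def l1 : Tr := Tr.L (Pth.l (Pth.l (Pth.r Pth.z)))
def l2 : Tr := Tr.L (Pth.l (Pth.r (Pth.l Pth.z)))
def l3 : Tr := Tr.L (Pth.l (Pth.r (Pth.r (Pth.l Pth.z))))
def l4 : Tr := Tr.L (Pth.l (Pth.r (Pth.r (Pth.r Pth.z))))
def l5 : Tr := Tr.L (Pth.r (Pth.l (Pth.l Pth.z)))
def l6 : Tr := Tr.L (Pth.r (Pth.l (Pth.r Pth.z)))
def l7 : Tr := Tr.L (Pth.r (Pth.r (Pth.l Pth.z)))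
def l8 : Tr := Tr.L (Pth.r (Pth.r (Pth.r (Pth.l Pth.z))))
def l9 : Tr := Tr.L (Pth.r (Pth.r (Pth.r (Pth.r Pth.z))))
end T0
def b1_0 : Bx := Bx.mk (St.mk (I.pos (nat_lit 157384704) (nat_lit 268828672)) (I.mix (nat_lit 6438912) (nat_lit 48414720)) (I.mix (nat_lit 24887296) (nat_lit 81575936)) (I.pos (nat_lit 91504640) (nat_lit 296255488)) (I.mix (nat_lit 97353728) (nat_lit 59555840)) (I.mix (nat_lit 78839808) (nat_lit 52002816)) (I.mix (nat_lit 121651200) (nat_lit 75792384)))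
  false (nat_lit 0)
def b1_1 : Bx := Bx.mk (St.mk (I.mix (nat_lit 9207808) (nat_lit 140017664)) (I.mix (nat_lit 2506752) (nat_lit 25214976)) (I.mix (nat_lit 6701056) (nat_lit 20938752)) (I.mix (nat_lit 3145728) (nat_lit 88784896)) (I.mix (nat_lit 33341440) (nat_lit 24412160)) (I.mix (nat_lit 27312128) (nat_lit 17809408)) (I.mix (nat_lit 23724032) (nat_lit 14417920)))
  false (nat_lit 0)
def b1_2 : Bx := Bx.mk (St.mk (I.pos (nat_lit 119799808) (nat_lit 157548544)) (I.mix (nat_lit 48594944) (nat_lit 3440640)) (I.mix (nat_lit 53690368) (nat_lit 655360)) (I.pos (nat_lit 54738944) (nat_lit 109674496)) (I.mix (nat_lit 88227840) (nat_lit 27574272)) (I.mix (nat_lit 38813696) (nat_lit 89554944)) (I.mix (nat_lit 32260096) (nat_lit 82378752)))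
  false (nat_lit 0)
def b1_3 : Bx := Bx.mk (St.mk (I.mix (nat_lit 12009472) (nat_lit 107085824)) (I.mix (nat_lit 23199744) (nat_lit 1228800)) (I.mix (nat_lit 18317312) (nat_lit 1081344)) (I.mix (nat_lit 2260992) (nat_lit 58507264)) (I.mix (nat_lit 34095104) (nat_lit 13860864)) (I.mix (nat_lit 16482304) (nat_lit 31031296)) (I.mix (nat_lit 9879552) (nat_lit 19316736)))
  false (nat_lit 0)
def b1_4 : Bx := Bx.mk (St.mk (I.pos (nat_lit 120242176) (nat_lit 135888896)) (I.mix (nat_lit 1785856) (nat_lit 6701056)) (I.mix (nat_lit 5996544) (nat_lit 3375104)) (I.pos (nat_lit 55312384) (nat_lit 86786048)) (I.mix (nat_lit 6651904) (nat_lit 8273920)) (I.mix (nat_lit 5570560) (nat_lit 3932160)) (I.mix (nat_lit 5357568) (nat_lit 3276800)))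
  false (nat_lit 0)
def b1_5 : Bx := Bx.mk (St.mk (I.mix (nat_lit 12288000) (nat_lit 92733440)) (I.mix (nat_lit 638976) (nat_lit 2736128)) (I.mix (nat_lit 2244608) (nat_lit 622592)) (I.mix (nat_lit 1966080) (nat_lit 48316416)) (I.mix (nat_lit 1097728) (nat_lit 2473984)) (I.mix (nat_lit 753664) (nat_lit 688128)) (I.mix (nat_lit 638976) (nat_lit 606208)))
  false (nat_lit 0)
def b1_6 : Bx := Bx.mk (St.mk (I.pos (nat_lit 124764160) (nat_lit 184778752)) (I.neg (nat_lit 3915776) (nat_lit 49725440)) (I.neg (nat_lit 2211840) (nat_lit 51822592)) (I.pos (nat_lit 71778304) (nat_lit 146079744)) (I.mix (nat_lit 63799296) (nat_lit 35864576)) (I.mix (nat_lit 34684928) (nat_lit 51396608)) (I.mix (nat_lit 30638080) (nat_lit 53903360)))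
  false (nat_lit 0)
def b1_7 : Bx := Bx.mk (St.mk (I.mix (nat_lit 13828096) (nat_lit 118030336)) (I.mix (nat_lit 26656768) (nat_lit 5832704)) (I.mix (nat_lit 21037056) (nat_lit 1376256)) (I.mix (nat_lit 2523136) (nat_lit 67747840)) (I.mix (nat_lit 32636928) (nat_lit 22118400)) (I.mix (nat_lit 18432000) (nat_lit 25870336)) (I.mix (nat_lit 10977280) (nat_lit 18104320)))
  false (nat_lit 0)
def b1_8 : Bx := Bx.mk (St.mk (I.pos (nat_lit 154058752) (nat_lit 217792512)) (I.mix (nat_lit 38060032) (nat_lit 49643520)) (I.mix (nat_lit 41680896) (nat_lit 80461824)) (I.pos (nat_lit 97828864) (nat_lit 195624960)) (I.mix (nat_lit 120750080) (nat_lit 47087616)) (I.mix (nat_lit 131432448) (nat_lit 68304896)) (I.mix (nat_lit 159842304) (nat_lit 75825152)))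
  false (nat_lit 0)
def b1_9 : Bx := Bx.mk (St.mk (I.mix (nat_lit 14712832) (nat_lit 135184384)) (I.mix (nat_lit 12697600) (nat_lit 30523392)) (I.mix (nat_lit 10944512) (nat_lit 23937024)) (I.mix (nat_lit 2949120) (nat_lit 82345984)) (I.mix (nat_lit 48906240) (nat_lit 23838720)) (I.mix (nat_lit 46546944) (nat_lit 26935296)) (I.mix (nat_lit 33488896) (nat_lit 18415616)))
  false (nat_lit 0)
def t1 : BTr := (BTr.n (BTr.n (BTr.n (BTr.b b1_0) (BTr.b b1_1)) (BTr.n (BTr.b b1_2) (BTr.n (BTr.b b1_3) (BTr.b b1_4)))) (BTr.n (BTr.n (BTr.b b1_5) (BTr.b b1_6)) (BTr.n (BTr.b b1_7) (BTr.n (BTr.b b1_8) (BTr.b b1_9)))))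
namespace T1
def l0 : Tr := Tr.L (Pth.l (Pth.l (Pth.l Pth.z)))
def l1 : Tr := Tr.L (Pth.l (Pth.l (Pth.r Pth.z)))
def l2 : Tr := Tr.L (Pth.l (Pth.r (Pth.l Pth.z)))
def l3 : Tr := Tr.L (Pth.l (Pth.r (Pth.r (Pth.l Pth.z))))
def l4 : Tr := Tr.L (Pth.l (Pth.r (Pth.r (Pth.r Pth.z))))
def l5 : Tr := Tr.L (Pth.r (Pth.l (Pth.l Pth.z)))
def l6 : Tr := Tr.L (Pth.r (Pth.l (Pth.r Pth.z)))
def l7 : Tr := Tr.L (Pth.r (Pth.r (Pth.l Pth.z)))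
def l8 : Tr := Tr.L (Pth.r (Pth.r (Pth.r (Pth.l Pth.z))))
def l9 : Tr := Tr.L (Pth.r (Pth.r (Pth.r (Pth.r Pth.z))))
end T1
def b2_0 : Bx := Bx.mk (St.mk (I.pos (nat_lit 156893184) (nat_lit 285360128)) (I.mix (nat_lit 31834112) (nat_lit 72564736)) (I.mix (nat_lit 138362880) (nat_lit 82591744)) (I.pos (nat_lit 235552768) (nat_lit 451887104)) (I.mix (nat_lit 95240192) (nat_lit 73039872)) (I.mix (nat_lit 82149376) (nat_lit 58343424)) (I.mix (nat_lit 125812736) (nat_lit 93388800)))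
  false (nat_lit 17235001)
def b2_1 : Bx := Bx.mk (St.mk (I.pos (nat_lit 26132480) (nat_lit 73695232)) (I.mix (nat_lit 10764288) (nat_lit 48414720)) (I.neg (nat_lit 3424256) (nat_lit 34029568)) (I.pos (nat_lit 143343616) (nat_lit 162627584)) (I.mix (nat_lit 31506432) (nat_lit 46170112)) (I.mix (nat_lit 40566784) (nat_lit 25198592)) (I.mix (nat_lit 21938176) (nat_lit 13074432)))
  false (nat_lit 0)
def b2_2 : Bx := Bx.mk (St.mk (I.pos (nat_lit 50987008) (nat_lit 97943552)) (I.mix (nat_lit 62832640) (nat_lit 11452416)) (I.neg (nat_lit 19152896) (nat_lit 65175552)) (I.pos (nat_lit 149307392) (nat_lit 180289536)) (I.mix (nat_lit 78823424) (nat_lit 32538624)) (I.mix (nat_lit 35454976) (nat_lit 69386240)) (I.mix (nat_lit 24150016) (nat_lit 43253760)))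
  false (nat_lit 0)
def b2_3 : Bx := Bx.mk (St.mk (I.neg (nat_lit 26116096) (nat_lit 73695232)) (I.mix (nat_lit 48414720) (nat_lit 13090816)) (I.neg (nat_lit 3407872) (nat_lit 34816000)) (I.pos (nat_lit 143343616) (nat_lit 162627584)) (I.mix (nat_lit 46170112) (nat_lit 31473664)) (I.mix (nat_lit 25198592) (nat_lit 40566784)) (I.mix (nat_lit 21938176) (nat_lit 13074432)))
  true (nat_lit 0)
def b2_4 : Bx := Bx.mk (St.mk (I.pos (nat_lit 71663616) (nat_lit 147259392)) (I.neg (nat_lit 6635520) (nat_lit 63733760)) (I.neg (nat_lit 12992512) (nat_lit 66486272)) (I.pos (nat_lit 163004416) (nat_lit 224935936)) (I.mix (nat_lit 74170368) (nat_lit 40452096)) (I.mix (nat_lit 32948224) (nat_lit 67698688)) (I.mix (nat_lit 30818304) (nat_lit 58720256)))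
  false (nat_lit 0)
def b2_5 : Bx := Bx.mk (St.mk (I.mix (nat_lit 39305216) (nat_lit 4915200)) (I.mix (nat_lit 42270720) (nat_lit 7421952)) (I.neg (nat_lit 5750784) (nat_lit 12664832)) (I.pos (nat_lit 141279232) (nat_lit 151601152)) (I.mix (nat_lit 32391168) (nat_lit 34471936)) (I.mix (nat_lit 22740992) (nat_lit 39796736)) (I.mix (nat_lit 7143424) (nat_lit 5586944)))
  true (nat_lit 0)
def b2_6 : Bx := Bx.mk (St.mk (I.pos (nat_lit 128385024) (nat_lit 201932800)) (I.mix (nat_lit 38453248) (nat_lit 69271552)) (I.mix (nat_lit 45727744) (nat_lit 79282176)) (I.pos (nat_lit 205815808) (nat_lit 302546944)) (I.mix (nat_lit 117440512) (nat_lit 62078976)) (I.mix (nat_lit 118276096) (nat_lit 62652416)) (I.mix (nat_lit 119586816) (nat_lit 68173824)))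
  false (nat_lit 0)
def b2_7 : Bx := Bx.mk (St.mk (I.mix (nat_lit 4915200) (nat_lit 39305216)) (I.mix (nat_lit 7421952) (nat_lit 42270720)) (I.neg (nat_lit 5750784) (nat_lit 12664832)) (I.pos (nat_lit 141279232) (nat_lit 151601152)) (I.mix (nat_lit 34471936) (nat_lit 32391168)) (I.mix (nat_lit 39796736) (nat_lit 22740992)) (I.mix (nat_lit 7143424) (nat_lit 5586944)))
  false (nat_lit 0)
def t2 : BTr := (BTr.n (BTr.n (BTr.n (BTr.b b2_0) (BTr.b b2_1)) (BTr.n (BTr.b b2_2) (BTr.b b2_3))) (BTr.n (BTr.n (BTr.b b2_4) (BTr.b b2_5)) (BTr.n (BTr.b b2_6) (BTr.b b2_7))))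
namespace T2
def l0 : Tr := Tr.L (Pth.l (Pth.l (Pth.l Pth.z)))
def l1 : Tr := Tr.L (Pth.l (Pth.l (Pth.r Pth.z)))
def l2 : Tr := Tr.L (Pth.l (Pth.r (Pth.l Pth.z)))
def l3 : Tr := Tr.L (Pth.l (Pth.r (Pth.r Pth.z)))
def l4 : Tr := Tr.L (Pth.r (Pth.l (Pth.l Pth.z)))
def l5 : Tr := Tr.L (Pth.r (Pth.l (Pth.r Pth.z)))
def l6 : Tr := Tr.L (Pth.r (Pth.r (Pth.l Pth.z)))
def l7 : Tr := Tr.L (Pth.r (Pth.r (Pth.r Pth.z)))
end T2
def b3_0 : Bx := Bx.mk (St.mk (I.pos (nat_lit 156991488) (nat_lit 282230784)) (I.mix (nat_lit 25411584) (nat_lit 46186496)) (I.mix (nat_lit 44335104) (nat_lit 92618752)) (I.pos (nat_lit 90357760) (nat_lit 321585152)) (I.mix (nat_lit 96272384) (nat_lit 61931520)) (I.mix (nat_lit 80609280) (nat_lit 57409536)) (I.mix (nat_lit 127172608) (nat_lit 77463552)))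
  false (nat_lit 4264647)
def b3_1 : Bx := Bx.mk (St.mk (I.pos (nat_lit 124076032) (nat_lit 181960704)) (I.neg (nat_lit 6012928) (nat_lit 51019776)) (I.neg (nat_lit 1474560) (nat_lit 46317568)) (I.pos (nat_lit 75235328) (nat_lit 142098432)) (I.mix (nat_lit 63881216) (nat_lit 35586048)) (I.mix (nat_lit 32587776) (nat_lit 47611904)) (I.mix (nat_lit 29343744) (nat_lit 49283072)))
  false (nat_lit 0)
def b3_2 : Bx := Bx.mk (St.mk (I.mix (nat_lit 12795904) (nat_lit 116359168)) (I.mix (nat_lit 26247168) (nat_lit 4161536)) (I.mix (nat_lit 16924672) (nat_lit 4276224)) (I.mix (nat_lit 2473984) (nat_lit 66109440)) (I.mix (nat_lit 29130752) (nat_lit 20840448)) (I.mix (nat_lit 16416768) (nat_lit 23068672)) (I.mix (nat_lit 10420224) (nat_lit 15450112)))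
  false (nat_lit 0)
def b3_3 : Bx := Bx.mk (St.mk (I.pos (nat_lit 162512896) (nat_lit 215662592)) (I.mix (nat_lit 33095680) (nat_lit 48480256)) (I.mix (nat_lit 23117824) (nat_lit 90079232)) (I.pos (nat_lit 103563264) (nat_lit 189677568)) (I.mix (nat_lit 126631936) (nat_lit 51347456)) (I.mix (nat_lit 139051008) (nat_lit 66748416)) (I.mix (nat_lit 174424064) (nat_lit 70680576)))
  false (nat_lit 5332846)
def b3_4 : Bx := Bx.mk (St.mk (I.mix (nat_lit 13123584) (nat_lit 133988352)) (I.mix (nat_lit 9601024) (nat_lit 33030144)) (I.mix (nat_lit 3801088) (nat_lit 31047680)) (I.mix (nat_lit 2916352) (nat_lit 80986112)) (I.mix (nat_lit 53690368) (nat_lit 24592384)) (I.mix (nat_lit 51675136) (nat_lit 27820032)) (I.mix (nat_lit 38371328) (nat_lit 18169856)))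
  false (nat_lit 0)
def b3_5 : Bx := Bx.mk (St.mk (I.pos (nat_lit 161120256) (nat_lit 180977664)) (I.neg (nat_lit 11714560) (nat_lit 34881536)) (I.neg (nat_lit 2179072) (nat_lit 27770880)) (I.pos (nat_lit 103120896) (nat_lit 141279232)) (I.mix (nat_lit 22265856) (nat_lit 12107776)) (I.mix (nat_lit 9535488) (nat_lit 12648448)) (I.mix (nat_lit 9814016) (nat_lit 13451264)))
  false (nat_lit 0)
def b3_6 : Bx := Bx.mk (St.mk (I.mix (nat_lit 14139392) (nat_lit 116424704)) (I.mix (nat_lit 11943936) (nat_lit 1359872)) (I.mix (nat_lit 5865472) (nat_lit 3981312)) (I.mix (nat_lit 2473984) (nat_lit 66125824)) (I.mix (nat_lit 6127616) (nat_lit 7716864)) (I.mix (nat_lit 3702784) (nat_lit 4669440)) (I.mix (nat_lit 2490368) (nat_lit 3522560)))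
  false (nat_lit 0)
def b3_7 : Bx := Bx.mk (St.mk (I.pos (nat_lit 42827776) (nat_lit 141901824)) (I.mix (nat_lit 8224768) (nat_lit 24264704)) (I.mix (nat_lit 6209536) (nat_lit 26083328)) (I.pos (nat_lit 11157504) (nat_lit 91570176)) (I.mix (nat_lit 30949376) (nat_lit 26460160)) (I.mix (nat_lit 31588352) (nat_lit 19939328)) (I.mix (nat_lit 27820032) (nat_lit 15138816)))
  false (nat_lit 0)
def b3_8 : Bx := Bx.mk (St.mk (I.pos (nat_lit 116768768) (nat_lit 160530432)) (I.mix (nat_lit 50331648) (nat_lit 7438336)) (I.mix (nat_lit 47480832) (nat_lit 10289152)) (I.pos (nat_lit 53133312) (nat_lit 113164288)) (I.mix (nat_lit 83542016) (nat_lit 27967488)) (I.mix (nat_lit 38797312) (nat_lit 83132416)) (I.mix (nat_lit 33357824) (nat_lit 73744384)))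
  false (nat_lit 0)
def b3_9 : Bx := Bx.mk (St.mk (I.mix (nat_lit 13467648) (nat_lit 108478464)) (I.mix (nat_lit 23461888) (nat_lit 3407872)) (I.mix (nat_lit 14467072) (nat_lit 3997696)) (I.mix (nat_lit 2277376) (nat_lit 59392000)) (I.mix (nat_lit 30752768) (nat_lit 13664256)) (I.mix (nat_lit 15761408) (nat_lit 27688960)) (I.mix (nat_lit 9601024) (nat_lit 16596992)))
  false (nat_lit 0)
def t3 : BTr := (BTr.n (BTr.n (BTr.n (BTr.b b3_0) (BTr.b b3_1)) (BTr.n (BTr.b b3_2) (BTr.n (BTr.b b3_3) (BTr.b b3_4)))) (BTr.n (BTr.n (BTr.b b3_5) (BTr.b b3_6)) (BTr.n (BTr.b b3_7) (BTr.n (BTr.b b3_8) (BTr.b b3_9)))))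
namespace T3
def l0 : Tr := Tr.L (Pth.l (Pth.l (Pth.l Pth.z)))
def l1 : Tr := Tr.L (Pth.l (Pth.l (Pth.r Pth.z)))
def l2 : Tr := Tr.L (Pth.l (Pth.r (Pth.l Pth.z)))
def l3 : Tr := Tr.L (Pth.l (Pth.r (Pth.r (Pth.l Pth.z))))
def l4 : Tr := Tr.L (Pth.l (Pth.r (Pth.r (Pth.r Pth.z))))
def l5 : Tr := Tr.L (Pth.r (Pth.l (Pth.l Pth.z)))
def l6 : Tr := Tr.L (Pth.r (Pth.l (Pth.r Pth.z)))
def l7 : Tr := Tr.L (Pth.r (Pth.r (Pth.l Pth.z)))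
def l8 : Tr := Tr.L (Pth.r (Pth.r (Pth.r (Pth.l Pth.z))))
def l9 : Tr := Tr.L (Pth.r (Pth.r (Pth.r (Pth.r Pth.z))))
end T3
def b4_0 : Bx := Bx.mk (St.mk (I.pos (nat_lit 148865024) (nat_lit 282427392)) (I.mix (nat_lit 18939904) (nat_lit 66289664)) (I.mix (nat_lit 53264384) (nat_lit 111427584)) (I.pos (nat_lit 231751680) (nat_lit 435601408)) (I.mix (nat_lit 116391936) (nat_lit 80429056)) (I.mix (nat_lit 105201664) (nat_lit 64536576)) (I.mix (nat_lit 152092672) (nat_lit 83132416)))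
  false (nat_lit 78594951)
def b4_1 : Bx := Bx.mk (St.mk (I.pos (nat_lit 80560128) (nat_lit 155336704)) (I.neg (nat_lit 8273920) (nat_lit 69828608)) (I.mix (nat_lit 48496640) (nat_lit 18284544)) (I.pos (nat_lit 171212800) (nat_lit 231260160)) (I.mix (nat_lit 65454080) (nat_lit 46071808)) (I.mix (nat_lit 37847040) (nat_lit 53035008)) (I.mix (nat_lit 34144256) (nat_lit 45613056)))
  false (nat_lit 0)
def b4_2 : Bx := Bx.mk (St.mk (I.mix (nat_lit 32800768) (nat_lit 9043968)) (I.mix (nat_lit 42663936) (nat_lit 9043968)) (I.pos (nat_lit 6340608) (nat_lit 13369344)) (I.pos (nat_lit 140820480) (nat_lit 149340160)) (I.mix (nat_lit 25133056) (nat_lit 38207488)) (I.mix (nat_lit 20922368) (nat_lit 34553856)) (I.mix (nat_lit 4849664) (nat_lit 5636096)))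
  true (nat_lit 0)
def b4_3 : Bx := Bx.mk (St.mk (I.pos (nat_lit 125714432) (nat_lit 194478080)) (I.mix (nat_lit 39747584) (nat_lit 66420736)) (I.mix (nat_lit 16973824) (nat_lit 110379008)) (I.pos (nat_lit 203112448) (nat_lit 284737536)) (I.mix (nat_lit 125681664) (nat_lit 54083584)) (I.mix (nat_lit 116588544) (nat_lit 58572800)) (I.mix (nat_lit 122060800) (nat_lit 60964864)))
  false (nat_lit 39011392)
def b4_4 : Bx := Bx.mk (St.mk (I.mix (nat_lit 9043968) (nat_lit 32800768)) (I.mix (nat_lit 10928128) (nat_lit 42729472)) (I.pos (nat_lit 6340608) (nat_lit 13369344)) (I.pos (nat_lit 140820480) (nat_lit 149340160)) (I.mix (nat_lit 38207488) (nat_lit 25133056)) (I.mix (nat_lit 34553856) (nat_lit 20922368)) (I.mix (nat_lit 4849664) (nat_lit 5636096)))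
  false (nat_lit 0)
def b4_5 : Bx := Bx.mk (St.mk (I.pos (nat_lit 18563072) (nat_lit 69156864)) (I.mix (nat_lit 7487488) (nat_lit 47693824)) (I.mix (nat_lit 11386880) (nat_lit 16285696)) (I.pos (nat_lit 141164544) (nat_lit 161185792)) (I.mix (nat_lit 37634048) (nat_lit 38600704)) (I.mix (nat_lit 44417024) (nat_lit 26591232)) (I.mix (nat_lit 22183936) (nat_lit 14843904)))
  false (nat_lit 0)
def b4_6 : Bx := Bx.mk (St.mk (I.pos (nat_lit 55377920) (nat_lit 105627648)) (I.mix (nat_lit 66535424) (nat_lit 8470528)) (I.neg (nat_lit 966656) (nat_lit 44023808)) (I.pos (nat_lit 153026560) (nat_lit 186826752)) (I.mix (nat_lit 71139328) (nat_lit 37978112)) (I.mix (nat_lit 35045376) (nat_lit 69140480)) (I.mix (nat_lit 26755072) (nat_lit 40583168)))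
  false (nat_lit 0)
def b4_7 : Bx := Bx.mk (St.mk (I.neg (nat_lit 18563072) (nat_lit 69156864)) (I.mix (nat_lit 47693824) (nat_lit 7487488)) (I.mix (nat_lit 11386880) (nat_lit 16285696)) (I.pos (nat_lit 141164544) (nat_lit 161185792)) (I.mix (nat_lit 38600704) (nat_lit 37634048)) (I.mix (nat_lit 26591232) (nat_lit 44417024)) (I.mix (nat_lit 22183936) (nat_lit 14843904)))
  true (nat_lit 0)
def t4 : BTr := (BTr.n (BTr.n (BTr.n (BTr.b b4_0) (BTr.b b4_1)) (BTr.n (BTr.b b4_2) (BTr.b b4_3))) (BTr.n (BTr.n (BTr.b b4_4) (BTr.b b4_5)) (BTr.n (BTr.b b4_6) (BTr.b b4_7))))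
namespace T4
def l0 : Tr := Tr.L (Pth.l (Pth.l (Pth.l Pth.z)))
def l1 : Tr := Tr.L (Pth.l (Pth.l (Pth.r Pth.z)))
def l2 : Tr := Tr.L (Pth.l (Pth.r (Pth.l Pth.z)))
def l3 : Tr := Tr.L (Pth.l (Pth.r (Pth.r Pth.z)))
def l4 : Tr := Tr.L (Pth.r (Pth.l (Pth.l Pth.z)))
def l5 : Tr := Tr.L (Pth.r (Pth.l (Pth.r Pth.z)))
def l6 : Tr := Tr.L (Pth.r (Pth.r (Pth.l Pth.z)))
def l7 : Tr := Tr.L (Pth.r (Pth.r (Pth.r Pth.z)))
end T4
def b5_0 : Bx := Bx.mk (St.mk (I.pos (nat_lit 153878528) (nat_lit 280887296)) (I.mix (nat_lit 17563648) (nat_lit 56066048)) (I.mix (nat_lit 22986752) (nat_lit 111329280)) (I.pos (nat_lit 179601408) (nat_lit 381206528)) (I.mix (nat_lit 106741760) (nat_lit 74235904)) (I.mix (nat_lit 100859904) (nat_lit 64176128)) (I.mix (nat_lit 149667840) (nat_lit 74760192)))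
  false (nat_lit 52471131)
def b5_1 : Bx := Bx.mk (St.mk (I.pos (nat_lit 102236160) (nat_lit 156106752)) (I.neg (nat_lit 14385152) (nat_lit 61227008)) (I.mix (nat_lit 40779776) (nat_lit 8437760)) (I.pos (nat_lit 135528448) (nat_lit 180469760)) (I.mix (nat_lit 59719680) (nat_lit 38813696)) (I.mix (nat_lit 30752768) (nat_lit 49266688)) (I.mix (nat_lit 25509888) (nat_lit 42123264)))
  false (nat_lit 0)
def b5_2 : Bx := Bx.mk (St.mk (I.mix (nat_lit 27820032) (nat_lit 44777472)) (I.mix (nat_lit 35258368) (nat_lit 1966080)) (I.mix (nat_lit 1785856) (nat_lit 12337152)) (I.pos (nat_lit 82493440) (nat_lit 100286464)) (I.mix (nat_lit 21561344) (nat_lit 29507584)) (I.mix (nat_lit 18743296) (nat_lit 24920064)) (I.mix (nat_lit 6799360) (nat_lit 9142272)))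
  false (nat_lit 0)
def b5_3 : Bx := Bx.mk (St.mk (I.pos (nat_lit 147161088) (nat_lit 203948032)) (I.mix (nat_lit 28999680) (nat_lit 60473344)) (I.mix (nat_lit 1785856) (nat_lit 109592576)) (I.pos (nat_lit 170999808) (nat_lit 241336320)) (I.mix (nat_lit 129630208) (nat_lit 53084160)) (I.mix (nat_lit 123404288) (nat_lit 65011712)) (I.mix (nat_lit 131792896) (nat_lit 58769408)))
  false (nat_lit 38783421)
def b5_4 : Bx := Bx.mk (St.mk (I.mix (nat_lit 48119808) (nat_lit 70156288)) (I.mix (nat_lit 5816320) (nat_lit 36978688)) (I.mix (nat_lit 2146304) (nat_lit 24674304)) (I.pos (nat_lit 82264064) (nat_lit 108199936)) (I.mix (nat_lit 40009728) (nat_lit 21544960)) (I.mix (nat_lit 28639232) (nat_lit 19431424)) (I.mix (nat_lit 12435456) (nat_lit 9748480)))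
  false (nat_lit 0)
def b5_5 : Bx := Bx.mk (St.mk (I.mix (nat_lit 51249152) (nat_lit 47579136)) (I.mix (nat_lit 14057472) (nat_lit 5111808)) (I.pos (nat_lit 4472832) (nat_lit 14254080)) (I.pos (nat_lit 86818816) (nat_lit 99139584)) (I.mix (nat_lit 9551872) (nat_lit 14286848)) (I.mix (nat_lit 8175616) (nat_lit 9093120)) (I.mix (nat_lit 3964928) (nat_lit 3801088)))
  false (nat_lit 0)
def b5_6 : Bx := Bx.mk (St.mk (I.pos (nat_lit 138625024) (nat_lit 159678464)) (I.neg (nat_lit 18464768) (nat_lit 40157184)) (I.mix (nat_lit 16875520) (nat_lit 9224192)) (I.pos (nat_lit 165085184) (nat_lit 184614912)) (I.mix (nat_lit 23904256) (nat_lit 18120704)) (I.mix (nat_lit 13238272) (nat_lit 14123008)) (I.mix (nat_lit 12468224) (nat_lit 15056896)))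
  false (nat_lit 0)
def b5_7 : Bx := Bx.mk (St.mk (I.mix (nat_lit 33914880) (nat_lit 96419840)) (I.mix (nat_lit 6488064) (nat_lit 39092224)) (I.mix (nat_lit 1490944) (nat_lit 29769728)) (I.pos (nat_lit 79495168) (nat_lit 123699200)) (I.mix (nat_lit 47022080) (nat_lit 34177024)) (I.mix (nat_lit 43565056) (nat_lit 26886144)) (I.mix (nat_lit 27574272) (nat_lit 18694144)))
  false (nat_lit 0)
def b5_8 : Bx := Bx.mk (St.mk (I.pos (nat_lit 82477056) (nat_lit 129187840)) (I.mix (nat_lit 62210048) (nat_lit 7716864)) (I.mix (nat_lit 38977536) (nat_lit 9814016)) (I.pos (nat_lit 115654656) (nat_lit 152371200)) (I.mix (nat_lit 71155712) (nat_lit 33521664)) (I.mix (nat_lit 39043072) (nat_lit 64765952)) (I.mix (nat_lit 28065792) (nat_lit 42909696)))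
  false (nat_lit 0)
def b5_9 : Bx := Bx.mk (St.mk (I.mix (nat_lit 46465024) (nat_lit 35094528)) (I.mix (nat_lit 34111488) (nat_lit 5242880)) (I.mix (nat_lit 65536) (nat_lit 14778368)) (I.pos (nat_lit 81379328) (nat_lit 100974592)) (I.mix (nat_lit 27295744) (nat_lit 29802496)) (I.mix (nat_lit 19578880) (nat_lit 32636928)) (I.mix (nat_lit 12009472) (nat_lit 9076736)))
  false (nat_lit 0)
def t5 : BTr := (BTr.n (BTr.n (BTr.n (BTr.b b5_0) (BTr.b b5_1)) (BTr.n (BTr.b b5_2) (BTr.n (BTr.b b5_3) (BTr.b b5_4)))) (BTr.n (BTr.n (BTr.b b5_5) (BTr.b b5_6)) (BTr.n (BTr.b b5_7) (BTr.n (BTr.b b5_8) (BTr.b b5_9)))))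
namespace T5
def l0 : Tr := Tr.L (Pth.l (Pth.l (Pth.l Pth.z)))
def l1 : Tr := Tr.L (Pth.l (Pth.l (Pth.r Pth.z)))
def l2 : Tr := Tr.L (Pth.l (Pth.r (Pth.l Pth.z)))
def l3 : Tr := Tr.L (Pth.l (Pth.r (Pth.r (Pth.l Pth.z))))
def l4 : Tr := Tr.L (Pth.l (Pth.r (Pth.r (Pth.r Pth.z))))
def l5 : Tr := Tr.L (Pth.r (Pth.l (Pth.l Pth.z)))
def l6 : Tr := Tr.L (Pth.r (Pth.l (Pth.r Pth.z)))
def l7 : Tr := Tr.L (Pth.r (Pth.r (Pth.l Pth.z)))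
def l8 : Tr := Tr.L (Pth.r (Pth.r (Pth.r (Pth.l Pth.z))))
def l9 : Tr := Tr.L (Pth.r (Pth.r (Pth.r (Pth.r Pth.z))))
end T5
theorem bx0_0 : BoxOK sI cl5 cl6 cl13 t2 t4 b0_0 :=
  box_mk (TrL.c (I.pos (nat_lit 0) (nat_lit 0)) (xa (xa T2.l0 T2.l0) (xa (xb T2.l0 T2.l0) (xb T2.l0 T2.l0)))
  (TrL.c (I.pos (nat_lit 0) (nat_lit 0)) (xa T4.l1 T4.l1)
  (TrL.c (I.pos (nat_lit 0) (nat_lit 0)) T2.l1
  (TrL.c (I.pos (nat_lit 0) (nat_lit 0)) T4.l2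
  (TrL.c (I.pos (nat_lit 0) (nat_lit 0)) (xa T4.l3 (xb (xa T4.l3 T4.l3) (xa T4.l3 T4.l3)))
  (TrL.c (I.pos (nat_lit 0) (nat_lit 0)) (xa T2.l2 T2.l2)
  (TrL.c (I.pos (nat_lit 0) (nat_lit 0)) T4.l4
  (TrL.c (I.pos (nat_lit 0) (nat_lit 0)) T2.l3
  TrL.n)))))))) (by decide +kernel)
theorem bx0_1 : BoxOK sI cl5 cl6 cl13 t2 t4 b0_1 :=
  box_mk (TrL.c (I.pos (nat_lit 0) (nat_lit 0)) T2.l0
  (TrL.c (I.pos (nat_lit 0) (nat_lit 0)) T4.l1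
  (TrL.c (I.pos (nat_lit 0) (nat_lit 0)) T2.l1
  (TrL.c (I.pos (nat_lit 0) (nat_lit 0)) T4.l2
  (TrL.c (I.pos (nat_lit 0) (nat_lit 0)) T4.l3
  (TrL.c (I.pos (nat_lit 0) (nat_lit 0)) T2.l2
  (TrL.c (I.pos (nat_lit 0) (nat_lit 0)) T4.l4
  (TrL.c (I.pos (nat_lit 0) (nat_lit 0)) T2.l3
  TrL.n)))))))) (by decide +kernel)
theorem bx0_2 : BoxOK sI cl5 cl6 cl13 t2 t4 b0_2 :=
  box_mk (TrL.c (I.pos (nat_lit 0) (nat_lit 0)) T2.l0
  (TrL.c (I.pos (nat_lit 0) (nat_lit 0)) T4.l1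
  (TrL.c (I.pos (nat_lit 0) (nat_lit 0)) T2.l1
  (TrL.c (I.pos (nat_lit 0) (nat_lit 0)) T4.l2
  (TrL.c (I.pos (nat_lit 0) (nat_lit 0)) T4.l3
  (TrL.c (I.pos (nat_lit 0) (nat_lit 0)) T2.l2
  (TrL.c (I.pos (nat_lit 0) (nat_lit 0)) T4.l4
  (TrL.c (I.pos (nat_lit 0) (nat_lit 0)) T2.l3
  TrL.n)))))))) (by decide +kernel)
theorem bx0_3 : BoxOK sI cl5 cl6 cl13 t2 t4 b0_3 :=
  box_mk (TrL.c (I.pos (nat_lit 0) (nat_lit 0)) (xa (xb T2.l0 T2.l0) T2.l0)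
  (TrL.c (I.pos (nat_lit 0) (nat_lit 0)) T4.l3
  (TrL.c (I.pos (nat_lit 0) (nat_lit 0)) T2.l2
  (TrL.c (I.pos (nat_lit 0) (nat_lit 0)) T4.l4
  (TrL.c (I.pos (nat_lit 0) (nat_lit 0)) T4.l3
  (TrL.c (I.pos (nat_lit 0) (nat_lit 0)) T2.l1
  (TrL.c (I.pos (nat_lit 0) (nat_lit 0)) T4.l4
  (TrL.c (I.pos (nat_lit 0) (nat_lit 0)) T2.l3
  TrL.n)))))))) (by decide +kernel)
theorem bx0_4 : BoxOK sI cl5 cl6 cl13 t2 t4 b0_4 :=
  box_mk (TrL.c (I.pos (nat_lit 0) (nat_lit 0)) T2.l0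
  (TrL.c (I.pos (nat_lit 0) (nat_lit 0)) T4.l1
  (TrL.c (I.pos (nat_lit 0) (nat_lit 0)) T2.l1
  (TrL.c (I.pos (nat_lit 0) (nat_lit 0)) T4.l2
  (TrL.c (I.pos (nat_lit 0) (nat_lit 0)) T4.l3
  (TrL.c (I.pos (nat_lit 0) (nat_lit 0)) T2.l2
  (TrL.c (I.pos (nat_lit 0) (nat_lit 0)) T4.l4
  (TrL.c (I.pos (nat_lit 0) (nat_lit 0)) T2.l3
  TrL.n)))))))) (by decide +kernel)
theorem bx0_5 : BoxOK sI cl5 cl6 cl13 t2 t4 b0_5 :=
  box_mk (TrL.c (I.pos (nat_lit 0) (nat_lit 0)) T2.l0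
  (TrL.c (I.pos (nat_lit 0) (nat_lit 0)) T4.l1
  (TrL.c (I.pos (nat_lit 0) (nat_lit 0)) T2.l1
  (TrL.c (I.pos (nat_lit 0) (nat_lit 0)) T4.l2
  (TrL.c (I.pos (nat_lit 0) (nat_lit 0)) T4.l3
  (TrL.c (I.pos (nat_lit 0) (nat_lit 0)) T2.l2
  (TrL.c (I.pos (nat_lit 0) (nat_lit 0)) T4.l4
  (TrL.c (I.pos (nat_lit 0) (nat_lit 0)) T2.l3
  TrL.n)))))))) (by decide +kernel)
theorem bx0_6 : BoxOK sI cl5 cl6 cl13 t2 t4 b0_6 :=
  box_mk (TrL.c (I.pos (nat_lit 0) (nat_lit 0)) T2.l0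
  (TrL.c (I.pos (nat_lit 0) (nat_lit 0)) T4.l1
  (TrL.c (I.pos (nat_lit 0) (nat_lit 0)) T2.l1
  (TrL.c (I.pos (nat_lit 0) (nat_lit 0)) T4.l2
  (TrL.c (I.pos (nat_lit 0) (nat_lit 0)) T4.l3
  (TrL.c (I.pos (nat_lit 0) (nat_lit 0)) T2.l2
  (TrL.c (I.pos (nat_lit 0) (nat_lit 0)) T4.l4
  (TrL.c (I.pos (nat_lit 0) (nat_lit 0)) T2.l3
  TrL.n)))))))) (by decide +kernel)
theorem bx0_7 : BoxOK sI cl5 cl6 cl13 t2 t4 b0_7 :=
  box_mk (TrL.c (I.pos (nat_lit 0) (nat_lit 0)) (xa (xb (xa T2.l0 T2.l0) T2.l0) T2.l0)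
  (TrL.c (I.pos (nat_lit 0) (nat_lit 0)) T4.l1
  (TrL.c (I.pos (nat_lit 0) (nat_lit 0)) T2.l1
  (TrL.c (I.pos (nat_lit 0) (nat_lit 0)) T4.l2
  (TrL.c (I.pos (nat_lit 0) (nat_lit 0)) T4.l3
  (TrL.c (I.pos (nat_lit 0) (nat_lit 0)) T2.l2
  (TrL.c (I.pos (nat_lit 0) (nat_lit 0)) T4.l4
  (TrL.c (I.pos (nat_lit 0) (nat_lit 0)) T2.l3
  TrL.n)))))))) (by decide +kernel)
theorem bx0_8 : BoxOK sI cl5 cl6 cl13 t2 t4 b0_8 :=
  box_mk (TrL.c (I.pos (nat_lit 0) (nat_lit 0)) (xa (xa T2.l0 T2.l0) T2.l0)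
  (TrL.c (I.pos (nat_lit 0) (nat_lit 0)) T4.l1
  (TrL.c (I.pos (nat_lit 0) (nat_lit 0)) T2.l1
  (TrL.c (I.pos (nat_lit 0) (nat_lit 0)) T4.l2
  (TrL.c (I.pos (nat_lit 0) (nat_lit 0)) T4.l3
  (TrL.c (I.pos (nat_lit 0) (nat_lit 0)) T2.l2
  (TrL.c (I.pos (nat_lit 0) (nat_lit 0)) T4.l4
  (TrL.c (I.pos (nat_lit 0) (nat_lit 0)) T2.l3
  TrL.n)))))))) (by decide +kernel)
theorem bx0_9 : BoxOK sI cl5 cl6 cl13 t2 t4 b0_9 :=
  box_mk (TrL.c (I.pos (nat_lit 0) (nat_lit 0)) (xb (xa (xb T2.l0 T2.l0) T2.l0) (xa (xb T2.l0 T2.l0) (xb T2.l0 T2.l0)))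
  (TrL.c (I.pos (nat_lit 0) (nat_lit 0)) (xb T4.l1 T4.l1)
  (TrL.c (I.pos (nat_lit 0) (nat_lit 0)) T2.l1
  (TrL.c (I.pos (nat_lit 0) (nat_lit 0)) T4.l2
  (TrL.c (I.pos (nat_lit 0) (nat_lit 0)) (xb (xa T4.l0 T4.l0) (xa T4.l3 T4.l3))
  (TrL.c (I.pos (nat_lit 0) (nat_lit 0)) T2.l2
  (TrL.c (I.pos (nat_lit 0) (nat_lit 0)) T4.l4
  (TrL.c (I.pos (nat_lit 0) (nat_lit 0)) T2.l3
  TrL.n)))))))) (by decide +kernel)
theorem sv0 : StarV sI cl5 cl6 cl13 t2 t4 t0 :=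
  (bt_n (bt_n (bt_n (bt_b bx0_0) (bt_b bx0_1)) (bt_n (bt_b bx0_2) (bt_n (bt_b bx0_3) (bt_b bx0_4)))) (bt_n (bt_n (bt_b bx0_5) (bt_b bx0_6)) (bt_n (bt_b bx0_7) (bt_n (bt_b bx0_8) (bt_b bx0_9)))))
def S0 : StarD := StarD.mk cl5 cl6 cl13 2 4 t0
theorem bx1_0 : BoxOK sI cl5 cl13 cl6 t4 t2 b1_0 :=
  box_mk (TrL.c (I.pos (nat_lit 0) (nat_lit 0)) (xa (xa T4.l0 T4.l0) (xa T4.l0 T4.l0))
  (TrL.c (I.pos (nat_lit 0) (nat_lit 0)) (xa T2.l4 (xa T2.l4 T2.l4))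
  (TrL.c (I.pos (nat_lit 0) (nat_lit 0)) T4.l5
  (TrL.c (I.pos (nat_lit 0) (nat_lit 0)) T2.l5
  (TrL.c (I.pos (nat_lit 0) (nat_lit 0)) (xa T2.l6 (xa T2.l6 (xb T2.l6 T2.l6)))
  (TrL.c (I.pos (nat_lit 0) (nat_lit 0)) (xa T4.l6 T4.l6)
  (TrL.c (I.pos (nat_lit 0) (nat_lit 0)) T2.l7
  (TrL.c (I.pos (nat_lit 0) (nat_lit 0)) T4.l7
  TrL.n)))))))) (by decide +kernel)
theorem bx1_1 : BoxOK sI cl5 cl13 cl6 t4 t2 b1_1 :=
  box_mk (TrL.c (I.pos (nat_lit 0) (nat_lit 0)) (xa T4.l0 T4.l0)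
  (TrL.c (I.pos (nat_lit 0) (nat_lit 0)) T2.l4
  (TrL.c (I.pos (nat_lit 0) (nat_lit 0)) T4.l5
  (TrL.c (I.pos (nat_lit 0) (nat_lit 0)) T2.l5
  (TrL.c (I.pos (nat_lit 0) (nat_lit 0)) (xa T2.l6 T2.l6)
  (TrL.c (I.pos (nat_lit 0) (nat_lit 0)) T4.l6
  (TrL.c (I.pos (nat_lit 0) (nat_lit 0)) T2.l7
  (TrL.c (I.pos (nat_lit 0) (nat_lit 0)) T4.l7
  TrL.n)))))))) (by decide +kernel)
theorem bx1_2 : BoxOK sI cl5 cl13 cl6 t4 t2 b1_2 :=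
  box_mk (TrL.c (I.pos (nat_lit 0) (nat_lit 0)) T4.l0
  (TrL.c (I.pos (nat_lit 0) (nat_lit 0)) T2.l4
  (TrL.c (I.pos (nat_lit 0) (nat_lit 0)) T4.l5
  (TrL.c (I.pos (nat_lit 0) (nat_lit 0)) T2.l5
  (TrL.c (I.pos (nat_lit 0) (nat_lit 0)) T2.l6
  (TrL.c (I.pos (nat_lit 0) (nat_lit 0)) T4.l6
  (TrL.c (I.pos (nat_lit 0) (nat_lit 0)) T2.l7
  (TrL.c (I.pos (nat_lit 0) (nat_lit 0)) T4.l7
  TrL.n)))))))) (by decide +kernel)
theorem bx1_3 : BoxOK sI cl5 cl13 cl6 t4 t2 b1_3 :=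
  box_mk (TrL.c (I.pos (nat_lit 0) (nat_lit 0)) T4.l0
  (TrL.c (I.pos (nat_lit 0) (nat_lit 0)) T2.l4
  (TrL.c (I.pos (nat_lit 0) (nat_lit 0)) T4.l5
  (TrL.c (I.pos (nat_lit 0) (nat_lit 0)) T2.l5
  (TrL.c (I.pos (nat_lit 0) (nat_lit 0)) T2.l6
  (TrL.c (I.pos (nat_lit 0) (nat_lit 0)) T4.l6
  (TrL.c (I.pos (nat_lit 0) (nat_lit 0)) T2.l7
  (TrL.c (I.pos (nat_lit 0) (nat_lit 0)) T4.l7
  TrL.n)))))))) (by decide +kernel)
theorem bx1_4 : BoxOK sI cl5 cl13 cl6 t4 t2 b1_4 :=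
  box_mk (TrL.c (I.pos (nat_lit 0) (nat_lit 0)) T4.l0
  (TrL.c (I.pos (nat_lit 0) (nat_lit 0)) T2.l4
  (TrL.c (I.pos (nat_lit 0) (nat_lit 0)) T4.l5
  (TrL.c (I.pos (nat_lit 0) (nat_lit 0)) T2.l5
  (TrL.c (I.pos (nat_lit 0) (nat_lit 0)) T2.l6
  (TrL.c (I.pos (nat_lit 0) (nat_lit 0)) T4.l6
  (TrL.c (I.pos (nat_lit 0) (nat_lit 0)) T2.l7
  (TrL.c (I.pos (nat_lit 0) (nat_lit 0)) T4.l7
  TrL.n)))))))) (by decide +kernel)
theorem bx1_5 : BoxOK sI cl5 cl13 cl6 t4 t2 b1_5 :=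
  box_mk (TrL.c (I.pos (nat_lit 0) (nat_lit 0)) T4.l0
  (TrL.c (I.pos (nat_lit 0) (nat_lit 0)) T2.l4
  (TrL.c (I.pos (nat_lit 0) (nat_lit 0)) T4.l5
  (TrL.c (I.pos (nat_lit 0) (nat_lit 0)) T2.l5
  (TrL.c (I.pos (nat_lit 0) (nat_lit 0)) T2.l6
  (TrL.c (I.pos (nat_lit 0) (nat_lit 0)) T4.l6
  (TrL.c (I.pos (nat_lit 0) (nat_lit 0)) T2.l7
  (TrL.c (I.pos (nat_lit 0) (nat_lit 0)) T4.l7
  TrL.n)))))))) (by decide +kernel)
theorem bx1_6 : BoxOK sI cl5 cl13 cl6 t4 t2 b1_6 :=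
  box_mk (TrL.c (I.pos (nat_lit 0) (nat_lit 0)) T4.l0
  (TrL.c (I.pos (nat_lit 0) (nat_lit 0)) T2.l4
  (TrL.c (I.pos (nat_lit 0) (nat_lit 0)) T4.l5
  (TrL.c (I.pos (nat_lit 0) (nat_lit 0)) T2.l5
  (TrL.c (I.pos (nat_lit 0) (nat_lit 0)) T2.l6
  (TrL.c (I.pos (nat_lit 0) (nat_lit 0)) T4.l6
  (TrL.c (I.pos (nat_lit 0) (nat_lit 0)) T2.l7
  (TrL.c (I.pos (nat_lit 0) (nat_lit 0)) T4.l7
  TrL.n)))))))) (by decide +kernel)
theorem bx1_7 : BoxOK sI cl5 cl13 cl6 t4 t2 b1_7 :=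
  box_mk (TrL.c (I.pos (nat_lit 0) (nat_lit 0)) (xa (xa (xb T4.l0 T4.l0) T4.l0) T4.l0)
  (TrL.c (I.pos (nat_lit 0) (nat_lit 0)) (xa T2.l4 T2.l4)
  (TrL.c (I.pos (nat_lit 0) (nat_lit 0)) T4.l5
  (TrL.c (I.pos (nat_lit 0) (nat_lit 0)) T2.l5
  (TrL.c (I.pos (nat_lit 0) (nat_lit 0)) (xa T2.l6 T2.l6)
  (TrL.c (I.pos (nat_lit 0) (nat_lit 0)) T4.l6
  (TrL.c (I.pos (nat_lit 0) (nat_lit 0)) T2.l7
  (TrL.c (I.pos (nat_lit 0) (nat_lit 0)) T4.l7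
  TrL.n)))))))) (by decide +kernel)
theorem bx1_8 : BoxOK sI cl5 cl13 cl6 t4 t2 b1_8 :=
  box_mk (TrL.c (I.pos (nat_lit 0) (nat_lit 0)) (xb (xa T4.l0 T4.l0) (xa (xb T4.l0 T4.l0) (xb T4.l0 T4.l0)))
  (TrL.c (I.pos (nat_lit 0) (nat_lit 0)) (xb T2.l4 (xa T2.l4 T2.l4))
  (TrL.c (I.pos (nat_lit 0) (nat_lit 0)) T4.l5
  (TrL.c (I.pos (nat_lit 0) (nat_lit 0)) T2.l5
  (TrL.c (I.pos (nat_lit 0) (nat_lit 0)) (xb (xa T2.l6 T2.l6) (xa T2.l6 T2.l6))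
  (TrL.c (I.pos (nat_lit 0) (nat_lit 0)) T4.l6
  (TrL.c (I.pos (nat_lit 0) (nat_lit 0)) T2.l7
  (TrL.c (I.pos (nat_lit 0) (nat_lit 0)) T4.l7
  TrL.n)))))))) (by decide +kernel)
theorem bx1_9 : BoxOK sI cl5 cl13 cl6 t4 t2 b1_9 :=
  box_mk (TrL.c (I.pos (nat_lit 0) (nat_lit 0)) (xa (xa T4.l0 T4.l0) T4.l0)
  (TrL.c (I.pos (nat_lit 0) (nat_lit 0)) (xa T2.l4 T2.l4)
  (TrL.c (I.pos (nat_lit 0) (nat_lit 0)) T4.l5
  (TrL.c (I.pos (nat_lit 0) (nat_lit 0)) T2.l5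
  (TrL.c (I.pos (nat_lit 0) (nat_lit 0)) (xa T2.l6 T2.l6)
  (TrL.c (I.pos (nat_lit 0) (nat_lit 0)) T4.l6
  (TrL.c (I.pos (nat_lit 0) (nat_lit 0)) T2.l7
  (TrL.c (I.pos (nat_lit 0) (nat_lit 0)) T4.l7
  TrL.n)))))))) (by decide +kernel)
theorem sv1 : StarV sI cl5 cl13 cl6 t4 t2 t1 :=
  (bt_n (bt_n (bt_n (bt_b bx1_0) (bt_b bx1_1)) (bt_n (bt_b bx1_2) (bt_n (bt_b bx1_3) (bt_b bx1_4)))) (bt_n (bt_n (bt_b bx1_5) (bt_b bx1_6)) (bt_n (bt_b bx1_7) (bt_n (bt_b bx1_8) (bt_b bx1_9)))))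
def S1 : StarD := StarD.mk cl5 cl13 cl6 4 2 t1
theorem bx2_0 : BoxOK sI cl6 cl5 cl13 t0 t5 b2_0 :=
  box_mk (TrL.c (I.pos (nat_lit 0) (nat_lit 0)) (xa (xb (xa T0.l0 T0.l0) (xa (xb T0.l0 T0.l0) (xb T0.l0 T0.l0))) (xb (xa T0.l0 T0.l0) (xa (xb T0.l0 T0.l0) (xb T0.l0 T0.l0))))
  (TrL.c (I.pos (nat_lit 0) (nat_lit 0)) (xa T5.l1 (xb T5.l1 T5.l1))
  (TrL.c (I.pos (nat_lit 0) (nat_lit 89480386)) (xR T0.l1 T0.l1)
  (TrL.c (I.pos (nat_lit 0) (nat_lit 41530880)) T5.l2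
  (TrL.c (I.pos (nat_lit 0) (nat_lit 0)) (xa (xb T5.l3 T5.l3) (xb (xa T5.l3 (xb T5.l3 T5.l3)) (xa T5.l3 (xb T5.l3 T5.l3))))
  (TrL.c (I.pos (nat_lit 0) (nat_lit 0)) (xa T0.l2 T0.l2)
  (TrL.c (I.mix (nat_lit 41527258) (nat_lit 41530880)) (xR T5.l4 T5.l7)
  (TrL.c (I.mix (nat_lit 41527258) (nat_lit 4274)) T0.l3
  TrL.n)))))))) (by decide +kernel)
theorem bx2_1 : BoxOK sI cl6 cl5 cl13 t0 t5 b2_1 :=
  box_mk (TrL.c (I.pos (nat_lit 0) (nat_lit 0)) T0.l0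
  (TrL.c (I.pos (nat_lit 0) (nat_lit 0)) T5.l1
  (TrL.c (I.pos (nat_lit 0) (nat_lit 89480386)) T0.l1
  (TrL.c (I.pos (nat_lit 0) (nat_lit 41530880)) T5.l2
  (TrL.c (I.pos (nat_lit 0) (nat_lit 0)) T5.l3
  (TrL.c (I.pos (nat_lit 0) (nat_lit 0)) T0.l2
  (TrL.c (I.mix (nat_lit 41527258) (nat_lit 41530880)) T5.l4
  (TrL.c (I.mix (nat_lit 41527258) (nat_lit 4274)) T0.l3
  TrL.n)))))))) (by decide +kernel)
theorem bx2_2 : BoxOK sI cl6 cl5 cl13 t0 t5 b2_2 :=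
  box_mk (TrL.c (I.pos (nat_lit 0) (nat_lit 0)) (xb T0.l0 T0.l0)
  (TrL.c (I.pos (nat_lit 0) (nat_lit 0)) T5.l1
  (TrL.c (I.pos (nat_lit 0) (nat_lit 89480386)) T0.l1
  (TrL.c (I.pos (nat_lit 0) (nat_lit 41530880)) T5.l2
  (TrL.c (I.pos (nat_lit 0) (nat_lit 0)) T5.l3
  (TrL.c (I.pos (nat_lit 0) (nat_lit 0)) T0.l2
  (TrL.c (I.mix (nat_lit 41527258) (nat_lit 41530880)) T5.l4
  (TrL.c (I.mix (nat_lit 41527258) (nat_lit 4274)) T0.l3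
  TrL.n)))))))) (by decide +kernel)
theorem bx2_3 : BoxOK sI cl6 cl5 cl13 t0 t5 b2_3 :=
  box_mk (TrL.c (I.pos (nat_lit 0) (nat_lit 0)) T5.l1
  (TrL.c (I.pos (nat_lit 0) (nat_lit 0)) T0.l1
  (TrL.c (I.mix (nat_lit 41527258) (nat_lit 41530880)) T5.l5
  (TrL.c (I.mix (nat_lit 41527258) (nat_lit 4274)) T0.l8
  TrL.n)))) (by decide +kernel)
theorem bx2_4 : BoxOK sI cl6 cl5 cl13 t0 t5 b2_4 :=
  box_mk (TrL.c (I.pos (nat_lit 0) (nat_lit 0)) (xa T0.l0 T0.l0)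
  (TrL.c (I.pos (nat_lit 0) (nat_lit 0)) T5.l1
  (TrL.c (I.pos (nat_lit 0) (nat_lit 89480386)) (xR T0.l1 T0.l1)
  (TrL.c (I.pos (nat_lit 0) (nat_lit 41530880)) T5.l2
  (TrL.c (I.pos (nat_lit 0) (nat_lit 0)) T5.l3
  (TrL.c (I.pos (nat_lit 0) (nat_lit 0)) T0.l2
  (TrL.c (I.mix (nat_lit 41527258) (nat_lit 41530880)) T5.l4
  (TrL.c (I.mix (nat_lit 41527258) (nat_lit 4274)) T0.l3
  TrL.n)))))))) (by decide +kernel)
theorem bx2_5 : BoxOK sI cl6 cl5 cl13 t0 t5 b2_5 :=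
  box_mk (TrL.c (I.pos (nat_lit 0) (nat_lit 0)) T5.l6
  (TrL.c (I.pos (nat_lit 0) (nat_lit 0)) T0.l1
  (TrL.c (I.mix (nat_lit 41527258) (nat_lit 41530880)) T5.l5
  (TrL.c (I.mix (nat_lit 41527258) (nat_lit 4274)) T0.l8
  TrL.n)))) (by decide +kernel)
theorem bx2_6 : BoxOK sI cl6 cl5 cl13 t0 t5 b2_6 :=
  box_mk (TrL.c (I.pos (nat_lit 0) (nat_lit 0)) (xb (xa T0.l0 T0.l0) (xa (xb T0.l0 T0.l0) T0.l0))
  (TrL.c (I.pos (nat_lit 0) (nat_lit 0)) T5.l1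
  (TrL.c (I.pos (nat_lit 0) (nat_lit 89480386)) (xR T0.l1 T0.l1)
  (TrL.c (I.pos (nat_lit 0) (nat_lit 41530880)) T5.l2
  (TrL.c (I.pos (nat_lit 0) (nat_lit 0)) (xb T5.l0 T5.l3)
  (TrL.c (I.pos (nat_lit 0) (nat_lit 0)) T0.l2
  (TrL.c (I.mix (nat_lit 41527258) (nat_lit 41530880)) (xR T5.l4 T5.l7)
  (TrL.c (I.mix (nat_lit 41527258) (nat_lit 4274)) T0.l3
  TrL.n)))))))) (by decide +kernel)
theorem bx2_7 : BoxOK sI cl6 cl5 cl13 t0 t5 b2_7 :=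
  box_mk (TrL.c (I.pos (nat_lit 0) (nat_lit 0)) (xb T0.l0 T0.l0)
  (TrL.c (I.pos (nat_lit 0) (nat_lit 0)) T5.l6
  (TrL.c (I.pos (nat_lit 0) (nat_lit 89480386)) T0.l1
  (TrL.c (I.pos (nat_lit 0) (nat_lit 41530880)) T5.l2
  (TrL.c (I.pos (nat_lit 0) (nat_lit 0)) T5.l3
  (TrL.c (I.pos (nat_lit 0) (nat_lit 0)) T0.l2
  (TrL.c (I.mix (nat_lit 41527258) (nat_lit 41530880)) T5.l4
  (TrL.c (I.mix (nat_lit 41527258) (nat_lit 4274)) T0.l3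
  TrL.n)))))))) (by decide +kernel)
theorem sv2 : StarV sI cl6 cl5 cl13 t0 t5 t2 :=
  (bt_n (bt_n (bt_n (bt_b bx2_0) (bt_b bx2_1)) (bt_n (bt_b bx2_2) (bt_b bx2_3))) (bt_n (bt_n (bt_b bx2_4) (bt_b bx2_5)) (bt_n (bt_b bx2_6) (bt_b bx2_7))))
def S2 : StarD := StarD.mk cl6 cl5 cl13 0 5 t2
theorem bx3_0 : BoxOK sI cl6 cl13 cl5 t5 t0 b3_0 :=
  box_mk (TrL.c (I.pos (nat_lit 0) (nat_lit 0)) (xa (xa (xb T5.l0 (xa T5.l0 T5.l0)) (xb T5.l0 T5.l0)) (xa (xb T5.l0 T5.l0) (xb T5.l0 T5.l0)))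
  (TrL.c (I.pos (nat_lit 0) (nat_lit 0)) (xa (xb T0.l6 T0.l6) (xa T0.l6 T0.l2))
  (TrL.c (I.pos (nat_lit 0) (nat_lit 89480386)) (xR T5.l7 T5.l7)
  (TrL.c (I.pos (nat_lit 0) (nat_lit 41530880)) T0.l7
  (TrL.c (I.pos (nat_lit 0) (nat_lit 0)) (xa T0.l9 (xb (xa T0.l9 T0.l9) (xa T0.l9 T0.l9)))
  (TrL.c (I.pos (nat_lit 0) (nat_lit 0)) (xa T5.l8 T5.l8)
  (TrL.c (I.mix (nat_lit 41527258) (nat_lit 41530880)) (xR T0.l8 T0.l8)
  (TrL.c (I.mix (nat_lit 41527258) (nat_lit 4274)) T5.l9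
  TrL.n)))))))) (by decide +kernel)
theorem bx3_1 : BoxOK sI cl6 cl13 cl5 t5 t0 b3_1 :=
  box_mk (TrL.c (I.pos (nat_lit 0) (nat_lit 0)) T5.l0
  (TrL.c (I.pos (nat_lit 0) (nat_lit 0)) T0.l6
  (TrL.c (I.pos (nat_lit 0) (nat_lit 89480386)) (xR T5.l7 T5.l7)
  (TrL.c (I.pos (nat_lit 0) (nat_lit 41530880)) T0.l7
  (TrL.c (I.pos (nat_lit 0) (nat_lit 0)) T0.l9
  (TrL.c (I.pos (nat_lit 0) (nat_lit 0)) T5.l8
  (TrL.c (I.mix (nat_lit 41527258) (nat_lit 41530880)) T0.l8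
  (TrL.c (I.mix (nat_lit 41527258) (nat_lit 4274)) T5.l9
  TrL.n)))))))) (by decide +kernel)
theorem bx3_2 : BoxOK sI cl6 cl13 cl5 t5 t0 b3_2 :=
  box_mk (TrL.c (I.pos (nat_lit 0) (nat_lit 0)) (xa (xa T5.l0 T5.l0) T5.l0)
  (TrL.c (I.pos (nat_lit 0) (nat_lit 0)) T0.l6
  (TrL.c (I.pos (nat_lit 0) (nat_lit 89480386)) T5.l7
  (TrL.c (I.pos (nat_lit 0) (nat_lit 41530880)) T0.l7
  (TrL.c (I.pos (nat_lit 0) (nat_lit 0)) (xa T0.l9 T0.l9)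
  (TrL.c (I.pos (nat_lit 0) (nat_lit 0)) T5.l8
  (TrL.c (I.mix (nat_lit 41527258) (nat_lit 41530880)) T0.l8
  (TrL.c (I.mix (nat_lit 41527258) (nat_lit 4274)) T5.l9
  TrL.n)))))))) (by decide +kernel)
theorem bx3_3 : BoxOK sI cl6 cl13 cl5 t5 t0 b3_3 :=
  box_mk (TrL.c (I.pos (nat_lit 0) (nat_lit 0)) (xb (xa T5.l0 T5.l0) (xa (xb T5.l0 T5.l0) T5.l0))
  (TrL.c (I.pos (nat_lit 0) (nat_lit 0)) (xb T0.l6 T0.l6)
  (TrL.c (I.pos (nat_lit 0) (nat_lit 89480386)) (xR T5.l7 T5.l7)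
  (TrL.c (I.pos (nat_lit 0) (nat_lit 41530880)) T0.l7
  (TrL.c (I.pos (nat_lit 0) (nat_lit 0)) (xb T0.l9 T0.l9)
  (TrL.c (I.pos (nat_lit 0) (nat_lit 0)) T5.l8
  (TrL.c (I.mix (nat_lit 41527258) (nat_lit 41530880)) (xR T0.l8 T0.l8)
  (TrL.c (I.mix (nat_lit 41527258) (nat_lit 4274)) T5.l9
  TrL.n)))))))) (by decide +kernel)
theorem bx3_4 : BoxOK sI cl6 cl13 cl5 t5 t0 b3_4 :=
  box_mk (TrL.c (I.pos (nat_lit 0) (nat_lit 0)) (xa (xa (xb T5.l0 T5.l0) T5.l0) T5.l0)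
  (TrL.c (I.pos (nat_lit 0) (nat_lit 0)) (xa T0.l6 T0.l6)
  (TrL.c (I.pos (nat_lit 0) (nat_lit 89480386)) T5.l7
  (TrL.c (I.pos (nat_lit 0) (nat_lit 41530880)) T0.l7
  (TrL.c (I.pos (nat_lit 0) (nat_lit 0)) (xa T0.l9 T0.l9)
  (TrL.c (I.pos (nat_lit 0) (nat_lit 0)) T5.l8
  (TrL.c (I.mix (nat_lit 41527258) (nat_lit 41530880)) T0.l8
  (TrL.c (I.mix (nat_lit 41527258) (nat_lit 4274)) T5.l9
  TrL.n)))))))) (by decide +kernel)
theorem bx3_5 : BoxOK sI cl6 cl13 cl5 t5 t0 b3_5 :=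
  box_mk (TrL.c (I.pos (nat_lit 0) (nat_lit 0)) T5.l0
  (TrL.c (I.pos (nat_lit 0) (nat_lit 0)) T0.l6
  (TrL.c (I.pos (nat_lit 0) (nat_lit 89480386)) (xR T5.l7 T5.l7)
  (TrL.c (I.pos (nat_lit 0) (nat_lit 41530880)) T0.l7
  (TrL.c (I.pos (nat_lit 0) (nat_lit 0)) T0.l9
  (TrL.c (I.pos (nat_lit 0) (nat_lit 0)) T5.l8
  (TrL.c (I.mix (nat_lit 41527258) (nat_lit 41530880)) T0.l8
  (TrL.c (I.mix (nat_lit 41527258) (nat_lit 4274)) T5.l9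
  TrL.n)))))))) (by decide +kernel)
theorem bx3_6 : BoxOK sI cl6 cl13 cl5 t5 t0 b3_6 :=
  box_mk (TrL.c (I.pos (nat_lit 0) (nat_lit 0)) T5.l0
  (TrL.c (I.pos (nat_lit 0) (nat_lit 0)) T0.l6
  (TrL.c (I.pos (nat_lit 0) (nat_lit 89480386)) T5.l7
  (TrL.c (I.pos (nat_lit 0) (nat_lit 41530880)) T0.l7
  (TrL.c (I.pos (nat_lit 0) (nat_lit 0)) T0.l9
  (TrL.c (I.pos (nat_lit 0) (nat_lit 0)) T5.l8
  (TrL.c (I.mix (nat_lit 41527258) (nat_lit 41530880)) T0.l8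
  (TrL.c (I.mix (nat_lit 41527258) (nat_lit 4274)) T5.l9
  TrL.n)))))))) (by decide +kernel)
theorem bx3_7 : BoxOK sI cl6 cl13 cl5 t5 t0 b3_7 :=
  box_mk (TrL.c (I.pos (nat_lit 0) (nat_lit 0)) (xa T5.l0 T5.l0)
  (TrL.c (I.pos (nat_lit 0) (nat_lit 0)) T0.l6
  (TrL.c (I.pos (nat_lit 0) (nat_lit 89480386)) T5.l7
  (TrL.c (I.pos (nat_lit 0) (nat_lit 41530880)) T0.l7
  (TrL.c (I.pos (nat_lit 0) (nat_lit 0)) T0.l9
  (TrL.c (I.pos (nat_lit 0) (nat_lit 0)) T5.l8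
  (TrL.c (I.mix (nat_lit 41527258) (nat_lit 41530880)) T0.l8
  (TrL.c (I.mix (nat_lit 41527258) (nat_lit 4274)) T5.l9
  TrL.n)))))))) (by decide +kernel)
theorem bx3_8 : BoxOK sI cl6 cl13 cl5 t5 t0 b3_8 :=
  box_mk (TrL.c (I.pos (nat_lit 0) (nat_lit 0)) T5.l0
  (TrL.c (I.pos (nat_lit 0) (nat_lit 0)) T0.l6
  (TrL.c (I.pos (nat_lit 0) (nat_lit 89480386)) (xR T5.l7 T5.l7)
  (TrL.c (I.pos (nat_lit 0) (nat_lit 41530880)) T0.l7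
  (TrL.c (I.pos (nat_lit 0) (nat_lit 0)) T0.l9
  (TrL.c (I.pos (nat_lit 0) (nat_lit 0)) T5.l8
  (TrL.c (I.mix (nat_lit 41527258) (nat_lit 41530880)) T0.l8
  (TrL.c (I.mix (nat_lit 41527258) (nat_lit 4274)) T5.l9
  TrL.n)))))))) (by decide +kernel)
theorem bx3_9 : BoxOK sI cl6 cl13 cl5 t5 t0 b3_9 :=
  box_mk (TrL.c (I.pos (nat_lit 0) (nat_lit 0)) (xa T5.l0 T5.l0)
  (TrL.c (I.pos (nat_lit 0) (nat_lit 0)) T0.l6
  (TrL.c (I.pos (nat_lit 0) (nat_lit 89480386)) T5.l7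
  (TrL.c (I.pos (nat_lit 0) (nat_lit 41530880)) T0.l7
  (TrL.c (I.pos (nat_lit 0) (nat_lit 0)) T0.l9
  (TrL.c (I.pos (nat_lit 0) (nat_lit 0)) T5.l8
  (TrL.c (I.mix (nat_lit 41527258) (nat_lit 41530880)) T0.l8
  (TrL.c (I.mix (nat_lit 41527258) (nat_lit 4274)) T5.l9
  TrL.n)))))))) (by decide +kernel)
theorem sv3 : StarV sI cl6 cl13 cl5 t5 t0 t3 :=
  (bt_n (bt_n (bt_n (bt_b bx3_0) (bt_b bx3_1)) (bt_n (bt_b bx3_2) (bt_n (bt_b bx3_3) (bt_b bx3_4)))) (bt_n (bt_n (bt_b bx3_5) (bt_b bx3_6)) (bt_n (bt_b bx3_7) (bt_n (bt_b bx3_8) (bt_b bx3_9)))))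
def S3 : StarD := StarD.mk cl6 cl13 cl5 5 0 t3
theorem bx4_0 : BoxOK sI cl13 cl5 cl6 t1 t3 b4_0 :=
  box_mk (TrL.c (I.pos (nat_lit 0) (nat_lit 0)) (xa (xa (xb T1.l0 T1.l0) (xb T1.l0 T1.l0)) (xa (xb T1.l0 T1.l0) T1.l0))
  (TrL.c (I.pos (nat_lit 0) (nat_lit 0)) (xa (xb T3.l1 T3.l1) (xk T3.l8 T3.l1))
  (TrL.c (I.pos (nat_lit 0) (nat_lit 134217730)) (xR T1.l9 (xR T1.l1 T1.l9))
  (TrL.c (I.pos (nat_lit 0) (nat_lit 110514882)) (xR T3.l2 T3.l2)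
  (TrL.c (I.pos (nat_lit 0) (nat_lit 0)) (xa (xb (xa T3.l3 T3.l3) T3.l3) (xb (xk (xa T3.l3 (xb T3.l3 T3.l3)) (xa T3.l3 (xb T3.l3 T3.l3))) (xk (xa T3.l3 (xb T3.l3 (xs T3.l3 (xa T3.l3 (xk T3.l3 T3.l3))))) (xa (xb T3.l3 T3.l3) (xa (xb T3.l3 (xs T3.l3 T3.l3)) (xb T3.l3 (xs T3.l3 (xk T3.l3 (xb T3.l3 T3.l3)))))))))
  (TrL.c (I.pos (nat_lit 0) (nat_lit 0)) (xa T1.l2 T1.l2)
  (TrL.c (I.mix (nat_lit 8088324) (nat_lit 110514882)) (xR T3.l4 (xR T3.l4 T3.l4))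
  (TrL.c (I.mix (nat_lit 8088324) (nat_lit 89478486)) (xR T1.l3 T1.l3)
  TrL.n)))))))) (by decide +kernel)
theorem bx4_1 : BoxOK sI cl13 cl5 cl6 t1 t3 b4_1 :=
  box_mk (TrL.c (I.pos (nat_lit 0) (nat_lit 0)) T1.l0
  (TrL.c (I.pos (nat_lit 0) (nat_lit 0)) T3.l1
  (TrL.c (I.pos (nat_lit 0) (nat_lit 134217730)) (xR T1.l1 T1.l1)
  (TrL.c (I.pos (nat_lit 0) (nat_lit 110514882)) (xR T3.l2 T3.l2)
  (TrL.c (I.pos (nat_lit 0) (nat_lit 0)) T3.l3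
  (TrL.c (I.pos (nat_lit 0) (nat_lit 0)) T1.l2
  (TrL.c (I.mix (nat_lit 8088324) (nat_lit 110514882)) T3.l4
  (TrL.c (I.mix (nat_lit 8088324) (nat_lit 89478486)) T1.l3
  TrL.n)))))))) (by decide +kernel)
theorem bx4_2 : BoxOK sI cl13 cl5 cl6 t1 t3 b4_2 :=
  box_mk (TrL.c (I.pos (nat_lit 0) (nat_lit 0)) T3.l1
  (TrL.c (I.pos (nat_lit 0) (nat_lit 0)) T1.l1
  (TrL.c (I.mix (nat_lit 8088324) (nat_lit 110514882)) T3.l2
  (TrL.c (I.mix (nat_lit 8088324) (nat_lit 89478486)) T1.l7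
  TrL.n)))) (by decide +kernel)
theorem bx4_3 : BoxOK sI cl13 cl5 cl6 t1 t3 b4_3 :=
  box_mk (TrL.c (I.pos (nat_lit 0) (nat_lit 0)) (xb (xa T1.l0 T1.l0) (xa T1.l0 T1.l0))
  (TrL.c (I.pos (nat_lit 0) (nat_lit 0)) (xb T3.l1 T3.l1)
  (TrL.c (I.pos (nat_lit 0) (nat_lit 134217730)) (xR T1.l1 T1.l1)
  (TrL.c (I.pos (nat_lit 0) (nat_lit 110514882)) (xR T3.l2 T3.l2)
  (TrL.c (I.pos (nat_lit 0) (nat_lit 0)) (xb (xa T3.l3 T3.l3) T3.l3)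
  (TrL.c (I.pos (nat_lit 0) (nat_lit 0)) T1.l2
  (TrL.c (I.mix (nat_lit 8088324) (nat_lit 110514882)) (xR T3.l4 T3.l4)
  (TrL.c (I.mix (nat_lit 8088324) (nat_lit 89478486)) T1.l3
  TrL.n)))))))) (by decide +kernel)
theorem bx4_4 : BoxOK sI cl13 cl5 cl6 t1 t3 b4_4 :=
  box_mk (TrL.c (I.pos (nat_lit 0) (nat_lit 0)) T1.l0
  (TrL.c (I.pos (nat_lit 0) (nat_lit 0)) T3.l1
  (TrL.c (I.pos (nat_lit 0) (nat_lit 134217730)) T1.l1
  (TrL.c (I.pos (nat_lit 0) (nat_lit 110514882)) T3.l2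
  (TrL.c (I.pos (nat_lit 0) (nat_lit 0)) T3.l3
  (TrL.c (I.pos (nat_lit 0) (nat_lit 0)) T1.l2
  (TrL.c (I.mix (nat_lit 8088324) (nat_lit 110514882)) T3.l4
  (TrL.c (I.mix (nat_lit 8088324) (nat_lit 89478486)) T1.l3
  TrL.n)))))))) (by decide +kernel)
theorem bx4_5 : BoxOK sI cl13 cl5 cl6 t1 t3 b4_5 :=
  box_mk (TrL.c (I.pos (nat_lit 0) (nat_lit 0)) T1.l0
  (TrL.c (I.pos (nat_lit 0) (nat_lit 0)) T3.l1
  (TrL.c (I.pos (nat_lit 0) (nat_lit 134217730)) T1.l1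
  (TrL.c (I.pos (nat_lit 0) (nat_lit 110514882)) T3.l2
  (TrL.c (I.pos (nat_lit 0) (nat_lit 0)) T3.l3
  (TrL.c (I.pos (nat_lit 0) (nat_lit 0)) T1.l2
  (TrL.c (I.mix (nat_lit 8088324) (nat_lit 110514882)) T3.l4
  (TrL.c (I.mix (nat_lit 8088324) (nat_lit 89478486)) T1.l3
  TrL.n)))))))) (by decide +kernel)
theorem bx4_6 : BoxOK sI cl13 cl5 cl6 t1 t3 b4_6 :=
  box_mk (TrL.c (I.pos (nat_lit 0) (nat_lit 0)) (xb T1.l0 T1.l0)
  (TrL.c (I.pos (nat_lit 0) (nat_lit 0)) T3.l1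
  (TrL.c (I.pos (nat_lit 0) (nat_lit 134217730)) (xR T1.l1 T1.l1)
  (TrL.c (I.pos (nat_lit 0) (nat_lit 110514882)) T3.l2
  (TrL.c (I.pos (nat_lit 0) (nat_lit 0)) T3.l3
  (TrL.c (I.pos (nat_lit 0) (nat_lit 0)) T1.l2
  (TrL.c (I.mix (nat_lit 8088324) (nat_lit 110514882)) T3.l4
  (TrL.c (I.mix (nat_lit 8088324) (nat_lit 89478486)) T1.l3
  TrL.n)))))))) (by decide +kernel)
theorem bx4_7 : BoxOK sI cl13 cl5 cl6 t1 t3 b4_7 :=
  box_mk (TrL.c (I.pos (nat_lit 0) (nat_lit 0)) T3.l1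
  (TrL.c (I.pos (nat_lit 0) (nat_lit 0)) T1.l1
  (TrL.c (I.mix (nat_lit 8088324) (nat_lit 110514882)) (xR T3.l6 T3.l2)
  (TrL.c (I.mix (nat_lit 8088324) (nat_lit 89478486)) T1.l9
  TrL.n)))) (by decide +kernel)
theorem sv4 : StarV sI cl13 cl5 cl6 t1 t3 t4 :=
  (bt_n (bt_n (bt_n (bt_b bx4_0) (bt_b bx4_1)) (bt_n (bt_b bx4_2) (bt_b bx4_3))) (bt_n (bt_n (bt_b bx4_4) (bt_b bx4_5)) (bt_n (bt_b bx4_6) (bt_b bx4_7))))
def S4 : StarD := StarD.mk cl13 cl5 cl6 1 3 t4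
theorem bx5_0 : BoxOK sI cl13 cl6 cl5 t3 t1 b5_0 :=
  box_mk (TrL.c (I.pos (nat_lit 0) (nat_lit 0)) (xa (xa (xb T3.l0 T3.l0) (xb T3.l0 T3.l0)) (xa (xb T3.l0 T3.l0) T3.l0))
  (TrL.c (I.pos (nat_lit 0) (nat_lit 0)) (xa (xb T1.l6 T1.l6) (xk T1.l2 T1.l6))
  (TrL.c (I.pos (nat_lit 0) (nat_lit 134217730)) (xR T3.l4 (xR T3.l7 T3.l4))
  (TrL.c (I.pos (nat_lit 0) (nat_lit 110514882)) (xR T1.l7 T1.l7)
  (TrL.c (I.pos (nat_lit 0) (nat_lit 0)) (xa (xb (xa T1.l8 T1.l8) T1.l8) (xa (xb (xk T1.l8 T1.l8) (xk T1.l8 T1.l8)) (xb (xk (xb T1.l8 T1.l8) T1.l8) (xk (xa T1.l8 (xb T1.l8 (xs T1.l8 (xk T1.l8 T1.l8)))) (xa (xb T1.l8 (xs T1.l8 T1.l8)) (xb T1.l8 (xs T1.l8 (xk T1.l8 (xb T1.l8 T1.l8)))))))))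
  (TrL.c (I.pos (nat_lit 0) (nat_lit 0)) (xa T3.l8 T3.l8)
  (TrL.c (I.mix (nat_lit 8088324) (nat_lit 110514882)) (xR T1.l9 (xR T1.l9 T1.l9))
  (TrL.c (I.mix (nat_lit 8088324) (nat_lit 89478486)) (xR T3.l9 T3.l9)
  TrL.n)))))))) (by decide +kernel)
theorem bx5_1 : BoxOK sI cl13 cl6 cl5 t3 t1 b5_1 :=
  box_mk (TrL.c (I.pos (nat_lit 0) (nat_lit 0)) T3.l0
  (TrL.c (I.pos (nat_lit 0) (nat_lit 0)) T1.l6
  (TrL.c (I.pos (nat_lit 0) (nat_lit 134217730)) (xR T3.l4 T3.l7)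
  (TrL.c (I.pos (nat_lit 0) (nat_lit 110514882)) (xR T1.l7 T1.l7)
  (TrL.c (I.pos (nat_lit 0) (nat_lit 0)) T1.l8
  (TrL.c (I.pos (nat_lit 0) (nat_lit 0)) T3.l8
  (TrL.c (I.mix (nat_lit 8088324) (nat_lit 110514882)) T1.l9
  (TrL.c (I.mix (nat_lit 8088324) (nat_lit 89478486)) T3.l9
  TrL.n)))))))) (by decide +kernel)
theorem bx5_2 : BoxOK sI cl13 cl6 cl5 t3 t1 b5_2 :=
  box_mk (TrL.c (I.pos (nat_lit 0) (nat_lit 0)) T3.l0
  (TrL.c (I.pos (nat_lit 0) (nat_lit 0)) T1.l6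
  (TrL.c (I.pos (nat_lit 0) (nat_lit 134217730)) (xR T3.l2 T3.l7)
  (TrL.c (I.pos (nat_lit 0) (nat_lit 110514882)) T1.l9
  (TrL.c (I.pos (nat_lit 0) (nat_lit 0)) T1.l8
  (TrL.c (I.pos (nat_lit 0) (nat_lit 0)) T3.l8
  (TrL.c (I.mix (nat_lit 8088324) (nat_lit 110514882)) T1.l9
  (TrL.c (I.mix (nat_lit 8088324) (nat_lit 89478486)) T3.l9
  TrL.n)))))))) (by decide +kernel)
theorem bx5_3 : BoxOK sI cl13 cl6 cl5 t3 t1 b5_3 :=
  box_mk (TrL.c (I.pos (nat_lit 0) (nat_lit 0)) (xb (xa T3.l0 T3.l0) (xa T3.l0 T3.l0))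
  (TrL.c (I.pos (nat_lit 0) (nat_lit 0)) (xb T1.l6 T1.l6)
  (TrL.c (I.pos (nat_lit 0) (nat_lit 134217730)) (xR T3.l4 T3.l7)
  (TrL.c (I.pos (nat_lit 0) (nat_lit 110514882)) (xR T1.l7 T1.l7)
  (TrL.c (I.pos (nat_lit 0) (nat_lit 0)) (xb (xk T1.l8 T1.l8) T1.l8)
  (TrL.c (I.pos (nat_lit 0) (nat_lit 0)) T3.l8
  (TrL.c (I.mix (nat_lit 8088324) (nat_lit 110514882)) (xR T1.l9 T1.l9)
  (TrL.c (I.mix (nat_lit 8088324) (nat_lit 89478486)) (xR T3.l9 T3.l9)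
  TrL.n)))))))) (by decide +kernel)
theorem bx5_4 : BoxOK sI cl13 cl6 cl5 t3 t1 b5_4 :=
  box_mk (TrL.c (I.pos (nat_lit 0) (nat_lit 0)) (xa T3.l0 T3.l0)
  (TrL.c (I.pos (nat_lit 0) (nat_lit 0)) (xa T1.l8 T1.l6)
  (TrL.c (I.pos (nat_lit 0) (nat_lit 134217730)) (xR T3.l2 T3.l7)
  (TrL.c (I.pos (nat_lit 0) (nat_lit 110514882)) (xR T1.l7 T1.l7)
  (TrL.c (I.pos (nat_lit 0) (nat_lit 0)) T1.l8
  (TrL.c (I.pos (nat_lit 0) (nat_lit 0)) T3.l8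
  (TrL.c (I.mix (nat_lit 8088324) (nat_lit 110514882)) (xR T1.l9 T1.l9)
  (TrL.c (I.mix (nat_lit 8088324) (nat_lit 89478486)) T3.l9
  TrL.n)))))))) (by decide +kernel)
theorem bx5_5 : BoxOK sI cl13 cl6 cl5 t3 t1 b5_5 :=
  box_mk (TrL.c (I.pos (nat_lit 0) (nat_lit 0)) T3.l0
  (TrL.c (I.pos (nat_lit 0) (nat_lit 0)) T1.l6
  (TrL.c (I.pos (nat_lit 0) (nat_lit 134217730)) (xR T3.l2 T3.l7)
  (TrL.c (I.pos (nat_lit 0) (nat_lit 110514882)) T1.l9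
  (TrL.c (I.pos (nat_lit 0) (nat_lit 0)) T1.l8
  (TrL.c (I.pos (nat_lit 0) (nat_lit 0)) T3.l8
  (TrL.c (I.mix (nat_lit 8088324) (nat_lit 110514882)) T1.l9
  (TrL.c (I.mix (nat_lit 8088324) (nat_lit 89478486)) T3.l9
  TrL.n)))))))) (by decide +kernel)
theorem bx5_6 : BoxOK sI cl13 cl6 cl5 t3 t1 b5_6 :=
  box_mk (TrL.c (I.pos (nat_lit 0) (nat_lit 0)) T3.l0
  (TrL.c (I.pos (nat_lit 0) (nat_lit 0)) T1.l6
  (TrL.c (I.pos (nat_lit 0) (nat_lit 134217730)) (xR T3.l4 T3.l7)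
  (TrL.c (I.pos (nat_lit 0) (nat_lit 110514882)) (xR T1.l7 T1.l7)
  (TrL.c (I.pos (nat_lit 0) (nat_lit 0)) T1.l8
  (TrL.c (I.pos (nat_lit 0) (nat_lit 0)) T3.l8
  (TrL.c (I.mix (nat_lit 8088324) (nat_lit 110514882)) T1.l9
  (TrL.c (I.mix (nat_lit 8088324) (nat_lit 89478486)) T3.l9
  TrL.n)))))))) (by decide +kernel)
theorem bx5_7 : BoxOK sI cl13 cl6 cl5 t3 t1 b5_7 :=
  box_mk (TrL.c (I.pos (nat_lit 0) (nat_lit 0)) (xa T3.l0 T3.l0)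
  (TrL.c (I.pos (nat_lit 0) (nat_lit 0)) (xa T1.l6 T1.l6)
  (TrL.c (I.pos (nat_lit 0) (nat_lit 134217730)) (xR T3.l4 T3.l7)
  (TrL.c (I.pos (nat_lit 0) (nat_lit 110514882)) T1.l7
  (TrL.c (I.pos (nat_lit 0) (nat_lit 0)) T1.l8
  (TrL.c (I.pos (nat_lit 0) (nat_lit 0)) T3.l8
  (TrL.c (I.mix (nat_lit 8088324) (nat_lit 110514882)) T1.l9
  (TrL.c (I.mix (nat_lit 8088324) (nat_lit 89478486)) T3.l9
  TrL.n)))))))) (by decide +kernel)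
theorem bx5_8 : BoxOK sI cl13 cl6 cl5 t3 t1 b5_8 :=
  box_mk (TrL.c (I.pos (nat_lit 0) (nat_lit 0)) T3.l0
  (TrL.c (I.pos (nat_lit 0) (nat_lit 0)) T1.l6
  (TrL.c (I.pos (nat_lit 0) (nat_lit 134217730)) (xR T3.l4 T3.l7)
  (TrL.c (I.pos (nat_lit 0) (nat_lit 110514882)) T1.l7
  (TrL.c (I.pos (nat_lit 0) (nat_lit 0)) T1.l8
  (TrL.c (I.pos (nat_lit 0) (nat_lit 0)) T3.l8
  (TrL.c (I.mix (nat_lit 8088324) (nat_lit 110514882)) T1.l9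
  (TrL.c (I.mix (nat_lit 8088324) (nat_lit 89478486)) T3.l9
  TrL.n)))))))) (by decide +kernel)
theorem bx5_9 : BoxOK sI cl13 cl6 cl5 t3 t1 b5_9 :=
  box_mk (TrL.c (I.pos (nat_lit 0) (nat_lit 0)) (xa (xb T3.l0 T3.l0) T3.l0)
  (TrL.c (I.pos (nat_lit 0) (nat_lit 0)) T1.l8
  (TrL.c (I.pos (nat_lit 0) (nat_lit 134217730)) (xR T3.l2 T3.l7)
  (TrL.c (I.pos (nat_lit 0) (nat_lit 110514882)) T1.l9
  (TrL.c (I.pos (nat_lit 0) (nat_lit 0)) T1.l8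
  (TrL.c (I.pos (nat_lit 0) (nat_lit 0)) T3.l7
  (TrL.c (I.mix (nat_lit 8088324) (nat_lit 110514882)) T1.l7
  (TrL.c (I.mix (nat_lit 8088324) (nat_lit 89478486)) T3.l4
  TrL.n)))))))) (by decide +kernel)
theorem sv5 : StarV sI cl13 cl6 cl5 t3 t1 t5 :=
  (bt_n (bt_n (bt_n (bt_b bx5_0) (bt_b bx5_1)) (bt_n (bt_b bx5_2) (bt_n (bt_b bx5_3) (bt_b bx5_4)))) (bt_n (bt_n (bt_b bx5_5) (bt_b bx5_6)) (bt_n (bt_b bx5_7) (bt_n (bt_b bx5_8) (bt_b bx5_9)))))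
def S5 : StarD := StarD.mk cl13 cl6 cl5 3 1 t5
def G : List StarD := [S0, S1, S2, S3, S4, S5]
theorem so0 : StarOK sI G S0 :=
  star_mk (by decide) (by decide) rfl rfl rfl rfl rfl rfl (rfl : _ = t2) (rfl : _ = t4)
  (st_mk (Pth.l (Pth.l (Pth.l Pth.z))) (nat_lit 190151167) (nat_lit 191036570) (by decide +kernel))
  (st_mk (Pth.l (Pth.l (Pth.l Pth.z))) (nat_lit 226753795) (nat_lit 228021964) (by decide +kernel))
  (st_mk (Pth.l (Pth.l (Pth.l Pth.z))) (nat_lit 269383669) (nat_lit 271191675) (by decide +kernel)) sv0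
theorem so1 : StarOK sI G S1 :=
  star_mk (by decide) (by decide) rfl rfl rfl rfl rfl rfl (rfl : _ = t4) (rfl : _ = t2)
  (st_mk (Pth.l (Pth.l (Pth.l Pth.z))) (nat_lit 97310597) (nat_lit 116171079) (by decide +kernel))
  (st_mk (Pth.l (Pth.l (Pth.l Pth.z))) (nat_lit 133499559) (nat_lit 152764558) (by decide +kernel))
  (st_mk (Pth.l (Pth.l (Pth.l Pth.z))) (nat_lit 175784789) (nat_lit 195606837) (by decide +kernel)) sv1
theorem so2 : StarOK sI G S2 :=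
  star_mk (by decide) (by decide) rfl rfl rfl rfl rfl rfl (rfl : _ = t0) (rfl : _ = t5)
  (st_mk (Pth.l (Pth.l (Pth.l Pth.z))) (nat_lit 242479293) (nat_lit 243379771) (by decide +kernel))
  (st_mk (Pth.l (Pth.l (Pth.l Pth.z))) (nat_lit 278708931) (nat_lit 279902849) (by decide +kernel))
  (st_mk (Pth.l (Pth.l (Pth.l Pth.z))) (nat_lit 320753565) (nat_lit 322343358) (by decide +kernel)) sv2
theorem so3 : StarOK sI G S3 :=
  star_mk (by decide) (by decide) rfl rfl rfl rfl rfl rfl (rfl : _ = t5) (rfl : _ = t0)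
  (st_mk (Pth.l (Pth.l (Pth.l Pth.z))) (nat_lit 96892655) (nat_lit 115517436) (by decide +kernel))
  (st_mk (Pth.l (Pth.l (Pth.l Pth.z))) (nat_lit 132709991) (nat_lit 151619705) (by decide +kernel))
  (st_mk (Pth.l (Pth.l (Pth.l Pth.z))) (nat_lit 174406507) (nat_lit 193704315) (by decide +kernel)) sv3
theorem so4 : StarOK sI G S4 :=
  star_mk (by decide) (by decide) rfl rfl rfl rfl rfl rfl (rfl : _ = t1) (rfl : _ = t3)
  (st_mk (Pth.l (Pth.l (Pth.l Pth.z))) (nat_lit 238062708) (nat_lit 239757547) (by decide +kernel))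
  (st_mk (Pth.l (Pth.l (Pth.l Pth.z))) (nat_lit 272959317) (nat_lit 275018642) (by decide +kernel))
  (st_mk (Pth.l (Pth.l (Pth.l Pth.z))) (nat_lit 313224636) (nat_lit 315767431) (by decide +kernel)) sv4
theorem so5 : StarOK sI G S5 :=
  star_mk (by decide) (by decide) rfl rfl rfl rfl rfl rfl (rfl : _ = t3) (rfl : _ = t1)
  (st_mk (Pth.l (Pth.l (Pth.l Pth.z))) (nat_lit 185843017) (nat_lit 187190447) (by decide +kernel))
  (st_mk (Pth.l (Pth.l (Pth.l Pth.z))) (nat_lit 220739626) (nat_lit 222419677) (by decide +kernel))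
  (st_mk (Pth.l (Pth.l (Pth.l Pth.z))) (nat_lit 261004945) (nat_lit 263140852) (by decide +kernel)) sv5
theorem ok : GroupOK (nat_lit 91226112) (nat_lit 150339584) G := grp_mk (allS_c so0 (allS_c so1 (allS_c so2 (allS_c so3 (allS_c so4 (allS_c so5 allS_n))))))
theorem cov : GCov G cl5 cl6 cl13 := cov_mk
  ⟨0, by decide, rfl, rfl, rfl⟩ ⟨1, by decide, rfl, rfl, rfl⟩ ⟨2, by decide, rfl, rfl, rfl⟩ ⟨3, by decide, rfl, rfl, rfl⟩ ⟨4, by decide, rfl, rfl, rfl⟩ ⟨5, by decide, rfl, rfl, rfl⟩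
end Q236_1

namespace Q236_2
def sI : I := I.pos (nat_lit 150274048) (nat_lit 209387520)
def b0_0 : Bx := Bx.mk (St.mk (I.pos (nat_lit 158613504) (nat_lit 229965824)) (I.mix (nat_lit 1933312) (nat_lit 64454656)) (I.mix (nat_lit 2097152) (nat_lit 70270976)) (I.pos (nat_lit 186990592) (nat_lit 297205760)) (I.mix (nat_lit 92962816) (nat_lit 48005120)) (I.mix (nat_lit 54493184) (nat_lit 44728320)) (I.mix (nat_lit 73760768) (nat_lit 68632576)))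
  false (nat_lit 0)
def b0_1 : Bx := Bx.mk (St.mk (I.mix (nat_lit 36814848) (nat_lit 96878592)) (I.mix (nat_lit 2932736) (nat_lit 40747008)) (I.mix (nat_lit 23773184) (nat_lit 3276800)) (I.pos (nat_lit 76300288) (nat_lit 125140992)) (I.mix (nat_lit 34242560) (nat_lit 46596096)) (I.mix (nat_lit 37715968) (nat_lit 26148864)) (I.mix (nat_lit 24494080) (nat_lit 14811136)))
  false (nat_lit 0)
def b0_2 : Bx := Bx.mk (St.mk (I.pos (nat_lit 81952768) (nat_lit 118341632)) (I.mix (nat_lit 51052544) (nat_lit 3670016)) (I.neg (nat_lit 16138240) (nat_lit 58966016)) (I.pos (nat_lit 112852992) (nat_lit 141557760)) (I.mix (nat_lit 76464128) (nat_lit 22659072)) (I.mix (nat_lit 29540352) (nat_lit 54362112)) (I.mix (nat_lit 20070400) (nat_lit 41713664)))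
  false (nat_lit 0)
def b0_3 : Bx := Bx.mk (St.mk (I.mix (nat_lit 47300608) (nat_lit 26918912)) (I.mix (nat_lit 32112640) (nat_lit 2555904)) (I.neg (nat_lit 5095424) (nat_lit 19415040)) (I.pos (nat_lit 82477056) (nat_lit 100810752)) (I.mix (nat_lit 33374208) (nat_lit 19382272)) (I.mix (nat_lit 16433152) (nat_lit 26492928)) (I.mix (nat_lit 10092544) (nat_lit 6930432)))
  false (nat_lit 0)
def b0_4 : Bx := Bx.mk (St.mk (I.pos (nat_lit 200818688) (nat_lit 269320192)) (I.mix (nat_lit 5013504) (nat_lit 37322752)) (I.mix (nat_lit 71368704) (nat_lit 12648448)) (I.pos (nat_lit 262389760) (nat_lit 370851840)) (I.mix (nat_lit 72679424) (nat_lit 47661056)) (I.mix (nat_lit 49905664) (nat_lit 42188800)) (I.mix (nat_lit 68124672) (nat_lit 74252288)))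
  false (nat_lit 0)
def b0_5 : Bx := Bx.mk (St.mk (I.mix (nat_lit 49430528) (nat_lit 6012928)) (I.mix (nat_lit 2031616) (nat_lit 10780672)) (I.neg (nat_lit 13336576) (nat_lit 21118976)) (I.pos (nat_lit 86425600) (nat_lit 98664448)) (I.mix (nat_lit 8536064) (nat_lit 14991360)) (I.mix (nat_lit 8437760) (nat_lit 7815168)) (I.mix (nat_lit 2850816) (nat_lit 4489216)))
  false (nat_lit 0)
def b0_6 : Bx := Bx.mk (St.mk (I.pos (nat_lit 90636288) (nat_lit 158498816)) (I.neg (nat_lit 9142272) (nat_lit 54951936)) (I.neg (nat_lit 17432576) (nat_lit 62128128)) (I.pos (nat_lit 122748928) (nat_lit 185139200)) (I.mix (nat_lit 81526784) (nat_lit 39567360)) (I.mix (nat_lit 39108608) (nat_lit 56950784)) (I.mix (nat_lit 30326784) (nat_lit 51134464)))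
  false (nat_lit 0)
def b0_7 : Bx := Bx.mk (St.mk (I.mix (nat_lit 37830656) (nat_lit 46497792)) (I.mix (nat_lit 33374208) (nat_lit 6029312)) (I.neg (nat_lit 5472256) (nat_lit 22593536)) (I.pos (nat_lit 81002496) (nat_lit 101466112)) (I.mix (nat_lit 37257216) (nat_lit 32751616)) (I.mix (nat_lit 26296320) (nat_lit 30736384)) (I.mix (nat_lit 11616256) (nat_lit 13254656)))
  false (nat_lit 0)
def b0_8 : Bx := Bx.mk (St.mk (I.pos (nat_lit 163037184) (nat_lit 212582400)) (I.mix (nat_lit 1245184) (nat_lit 62062592)) (I.mix (nat_lit 3489792) (nat_lit 69156864)) (I.pos (nat_lit 201867264) (nat_lit 267141120)) (I.mix (nat_lit 115671040) (nat_lit 45907968)) (I.mix (nat_lit 108183552) (nat_lit 67895296)) (I.mix (nat_lit 100646912) (nat_lit 66191360)))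
  false (nat_lit 0)
def b0_9 : Bx := Bx.mk (St.mk (I.mix (nat_lit 47742976) (nat_lit 77316096)) (I.mix (nat_lit 9453568) (nat_lit 34308096)) (I.mix (nat_lit 24002560) (nat_lit 1638400)) (I.pos (nat_lit 82083840) (nat_lit 112656384)) (I.mix (nat_lit 43991040) (nat_lit 42942464)) (I.mix (nat_lit 39616512) (nat_lit 34357248)) (I.mix (nat_lit 16433152) (nat_lit 19496960)))
  false (nat_lit 0)
def b0_10 : Bx := Bx.mk (St.mk (I.pos (nat_lit 82952192) (nat_lit 92766208)) (I.mix (nat_lit 2129920) (nat_lit 8847360)) (I.neg (nat_lit 13139968) (nat_lit 23199744)) (I.pos (nat_lit 114065408) (nat_lit 122208256)) (I.mix (nat_lit 7159808) (nat_lit 11141120)) (I.mix (nat_lit 6062080) (nat_lit 4407296)) (I.mix (nat_lit 4571136) (nat_lit 4046848)))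
  false (nat_lit 0)
def b0_11 : Bx := Bx.mk (St.mk (I.pos (nat_lit 188399616) (nat_lit 234586112)) (I.pos (nat_lit 12550144) (nat_lit 59850752)) (I.mix (nat_lit 11026432) (nat_lit 61374464)) (I.pos (nat_lit 255164416) (nat_lit 298369024)) (I.mix (nat_lit 84508672) (nat_lit 59392000)) (I.mix (nat_lit 66240512) (nat_lit 43548672)) (I.mix (nat_lit 103923712) (nat_lit 63946752)))
  false (nat_lit 0)
def b0_12 : Bx := Bx.mk (St.mk (I.pos (nat_lit 139001856) (nat_lit 200163328)) (I.mix (nat_lit 33947648) (nat_lit 15269888)) (I.mix (nat_lit 46120960) (nat_lit 10420224)) (I.pos (nat_lit 166084608) (nat_lit 236421120)) (I.mix (nat_lit 54755328) (nat_lit 46415872)) (I.mix (nat_lit 45531136) (nat_lit 40337408)) (I.mix (nat_lit 44482560) (nat_lit 37306368)))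
  false (nat_lit 0)
def b0_13 : Bx := Bx.mk (St.mk (I.pos (nat_lit 165134336) (nat_lit 201654272)) (I.mix (nat_lit 5013504) (nat_lit 35274752)) (I.mix (nat_lit 12304384) (nat_lit 38338560)) (I.pos (nat_lit 206028800) (nat_lit 241418240)) (I.mix (nat_lit 97255424) (nat_lit 49725440)) (I.mix (nat_lit 104054784) (nat_lit 45383680)) (I.mix (nat_lit 102334464) (nat_lit 42549248)))
  false (nat_lit 0)
def t0 : BTr := (BTr.n (BTr.n (BTr.n (BTr.b b0_0) (BTr.n (BTr.b b0_1) (BTr.b b0_2))) (BTr.n (BTr.n (BTr.b b0_3) (BTr.b b0_4)) (BTr.n (BTr.b b0_5) (BTr.b b0_6)))) (BTr.n (BTr.n (BTr.b b0_7) (BTr.n (BTr.b b0_8) (BTr.b b0_9))) (BTr.n (BTr.n (BTr.b b0_10) (BTr.b b0_11)) (BTr.n (BTr.b b0_12) (BTr.b b0_13)))))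
namespace T0
def l0 : Tr := Tr.L (Pth.l (Pth.l (Pth.l Pth.z)))
def l1 : Tr := Tr.L (Pth.l (Pth.l (Pth.r (Pth.l Pth.z))))
def l2 : Tr := Tr.L (Pth.l (Pth.l (Pth.r (Pth.r Pth.z))))
def l3 : Tr := Tr.L (Pth.l (Pth.r (Pth.l (Pth.l Pth.z))))
def l4 : Tr := Tr.L (Pth.l (Pth.r (Pth.l (Pth.r Pth.z))))
def l5 : Tr := Tr.L (Pth.l (Pth.r (Pth.r (Pth.l Pth.z))))
def l6 : Tr := Tr.L (Pth.l (Pth.r (Pth.r (Pth.r Pth.z))))
def l7 : Tr := Tr.L (Pth.r (Pth.l (Pth.l Pth.z)))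
def l8 : Tr := Tr.L (Pth.r (Pth.l (Pth.r (Pth.l Pth.z))))
def l9 : Tr := Tr.L (Pth.r (Pth.l (Pth.r (Pth.r Pth.z))))
def l10 : Tr := Tr.L (Pth.r (Pth.r (Pth.l (Pth.l Pth.z))))
def l11 : Tr := Tr.L (Pth.r (Pth.r (Pth.l (Pth.r Pth.z))))
def l12 : Tr := Tr.L (Pth.r (Pth.r (Pth.r (Pth.l Pth.z))))
def l13 : Tr := Tr.L (Pth.r (Pth.r (Pth.r (Pth.r Pth.z))))
end T0
def b1_0 : Bx := Bx.mk (St.mk (I.pos (nat_lit 158416896) (nat_lit 238796800)) (I.mix (nat_lit 1523712) (nat_lit 51232768)) (I.mix (nat_lit 2424832) (nat_lit 86769664)) (I.pos (nat_lit 94011392) (nat_lit 226443264)) (I.mix (nat_lit 104759296) (nat_lit 62996480)) (I.mix (nat_lit 72974336) (nat_lit 66453504)) (I.mix (nat_lit 103235584) (nat_lit 87244800)))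
  false (nat_lit 0)
def b1_1 : Bx := Bx.mk (St.mk (I.mix (nat_lit 9273344) (nat_lit 140460032)) (I.mix (nat_lit 2490368) (nat_lit 24805376)) (I.mix (nat_lit 6733824) (nat_lit 20447232)) (I.mix (nat_lit 3162112) (nat_lit 89309184)) (I.mix (nat_lit 33521664) (nat_lit 28524544)) (I.mix (nat_lit 23756800) (nat_lit 21102592)) (I.mix (nat_lit 19726336) (nat_lit 17186816)))
  false (nat_lit 0)
def b1_2 : Bx := Bx.mk (St.mk (I.pos (nat_lit 118898688) (nat_lit 155271168)) (I.mix (nat_lit 42582016) (nat_lit 3407872)) (I.mix (nat_lit 46022656) (nat_lit 557056)) (I.pos (nat_lit 54214656) (nat_lit 102481920)) (I.mix (nat_lit 74891264) (nat_lit 22200320)) (I.mix (nat_lit 26771456) (nat_lit 63995904)) (I.mix (nat_lit 22429696) (nat_lit 57819136)))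
  false (nat_lit 0)
def b1_3 : Bx := Bx.mk (St.mk (I.mix (nat_lit 12107776) (nat_lit 106037248)) (I.mix (nat_lit 22970368) (nat_lit 1196032)) (I.mix (nat_lit 18006016) (nat_lit 1064960)) (I.mix (nat_lit 2244608) (nat_lit 57917440)) (I.mix (nat_lit 33538048) (nat_lit 13647872)) (I.mix (nat_lit 14450688) (nat_lit 25280512)) (I.mix (nat_lit 8323072) (nat_lit 15679488)))
  false (nat_lit 0)
def b1_4 : Bx := Bx.mk (St.mk (I.pos (nat_lit 197296128) (nat_lit 267485184)) (I.mix (nat_lit 7045120) (nat_lit 31866880)) (I.mix (nat_lit 25165824) (nat_lit 49119232)) (I.pos (nat_lit 179355648) (nat_lit 295682048)) (I.mix (nat_lit 81969152) (nat_lit 38830080)) (I.mix (nat_lit 51150848) (nat_lit 34701312)) (I.mix (nat_lit 80297984) (nat_lit 59080704)))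
  false (nat_lit 0)
def b1_5 : Bx := Bx.mk (St.mk (I.pos (nat_lit 119767040) (nat_lit 136265728)) (I.mix (nat_lit 1785856) (nat_lit 6553600)) (I.mix (nat_lit 6045696) (nat_lit 3178496)) (I.pos (nat_lit 55066624) (nat_lit 87277568)) (I.mix (nat_lit 7241728) (nat_lit 8683520)) (I.mix (nat_lit 5472256) (nat_lit 3653632)) (I.mix (nat_lit 5210112) (nat_lit 2916352)))
  false (nat_lit 0)
def b1_6 : Bx := Bx.mk (St.mk (I.mix (nat_lit 12222464) (nat_lit 92766208)) (I.mix (nat_lit 638976) (nat_lit 2752512)) (I.mix (nat_lit 2260992) (nat_lit 622592)) (I.mix (nat_lit 1966080) (nat_lit 48480256)) (I.mix (nat_lit 1228800) (nat_lit 2818048)) (I.mix (nat_lit 802816) (nat_lit 720896)) (I.mix (nat_lit 638976) (nat_lit 606208)))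
  false (nat_lit 0)
def b1_7 : Bx := Bx.mk (St.mk (I.pos (nat_lit 119095296) (nat_lit 185171968)) (I.neg (nat_lit 4194304) (nat_lit 47153152)) (I.neg (nat_lit 3063808) (nat_lit 49463296)) (I.pos (nat_lit 70385664) (nat_lit 146866176)) (I.mix (nat_lit 67420160) (nat_lit 36339712)) (I.mix (nat_lit 37273600) (nat_lit 46153728)) (I.mix (nat_lit 33013760) (nat_lit 47890432)))
  false (nat_lit 0)
def b1_8 : Bx := Bx.mk (St.mk (I.mix (nat_lit 12042240) (nat_lit 118325248)) (I.mix (nat_lit 25821184) (nat_lit 5734400)) (I.mix (nat_lit 20267008) (nat_lit 1245184)) (I.mix (nat_lit 2539520) (nat_lit 68026368)) (I.mix (nat_lit 33439744) (nat_lit 26689536)) (I.mix (nat_lit 21168128) (nat_lit 24870912)) (I.mix (nat_lit 13074432) (nat_lit 17465344)))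
  false (nat_lit 0)
def b1_9 : Bx := Bx.mk (St.mk (I.pos (nat_lit 174030848) (nat_lit 215515136)) (I.mix (nat_lit 12369920) (nat_lit 46383104)) (I.pos (nat_lit 98304) (nat_lit 76169216)) (I.pos (nat_lit 121339904) (nat_lit 193806336)) (I.mix (nat_lit 117866496) (nat_lit 43859968)) (I.mix (nat_lit 112459776) (nat_lit 57114624)) (I.mix (nat_lit 132268032) (nat_lit 62603264)))
  false (nat_lit 0)
def b1_10 : Bx := Bx.mk (St.mk (I.mix (nat_lit 14876672) (nat_lit 133185536)) (I.mix (nat_lit 12271616) (nat_lit 29818880)) (I.mix (nat_lit 10616832) (nat_lit 23363584)) (I.mix (nat_lit 2932736) (nat_lit 81674240)) (I.mix (nat_lit 50528256) (nat_lit 24510464)) (I.mix (nat_lit 44040192) (nat_lit 26296320)) (I.mix (nat_lit 31195136) (nat_lit 18251776)))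
  false (nat_lit 0)
def b1_11 : Bx := Bx.mk (St.mk (I.pos (nat_lit 153862144) (nat_lit 208486400)) (I.mix (nat_lit 36208640) (nat_lit 6569984)) (I.mix (nat_lit 39108608) (nat_lit 17072128)) (I.pos (nat_lit 97927168) (nat_lit 178896896)) (I.mix (nat_lit 47742976) (nat_lit 40124416)) (I.mix (nat_lit 42926080) (nat_lit 35241984)) (I.mix (nat_lit 48676864) (nat_lit 37847040)))
  false (nat_lit 0)
def b1_12 : Bx := Bx.mk (St.mk (I.pos (nat_lit 174784512) (nat_lit 210190336)) (I.mix (nat_lit 17170432) (nat_lit 22429696)) (I.mix (nat_lit 6569984) (nat_lit 42336256)) (I.pos (nat_lit 122437632) (nat_lit 181026816)) (I.mix (nat_lit 83181568) (nat_lit 41271296)) (I.mix (nat_lit 82673664) (nat_lit 37994496)) (I.mix (nat_lit 97255424) (nat_lit 41828352)))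
  false (nat_lit 0)
def b1_13 : Bx := Bx.mk (St.mk (I.pos (nat_lit 187711488) (nat_lit 239009792)) (I.pos (nat_lit 6406144) (nat_lit 49299456)) (I.pos (nat_lit 11386880) (nat_lit 81674240)) (I.pos (nat_lit 169426944) (nat_lit 224739328)) (I.mix (nat_lit 82755584) (nat_lit 55099392)) (I.mix (nat_lit 69042176) (nat_lit 47218688)) (I.mix (nat_lit 109264896) (nat_lit 55574528)))
  false (nat_lit 0)
def t1 : BTr := (BTr.n (BTr.n (BTr.n (BTr.b b1_0) (BTr.n (BTr.b b1_1) (BTr.b b1_2))) (BTr.n (BTr.n (BTr.b b1_3) (BTr.b b1_4)) (BTr.n (BTr.b b1_5) (BTr.b b1_6)))) (BTr.n (BTr.n (BTr.b b1_7) (BTr.n (BTr.b b1_8) (BTr.b b1_9))) (BTr.n (BTr.n (BTr.b b1_10) (BTr.b b1_11)) (BTr.n (BTr.b b1_12) (BTr.b b1_13)))))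
namespace T1
def l0 : Tr := Tr.L (Pth.l (Pth.l (Pth.l Pth.z)))
def l1 : Tr := Tr.L (Pth.l (Pth.l (Pth.r (Pth.l Pth.z))))
def l2 : Tr := Tr.L (Pth.l (Pth.l (Pth.r (Pth.r Pth.z))))
def l3 : Tr := Tr.L (Pth.l (Pth.r (Pth.l (Pth.l Pth.z))))
def l4 : Tr := Tr.L (Pth.l (Pth.r (Pth.l (Pth.r Pth.z))))
def l5 : Tr := Tr.L (Pth.l (Pth.r (Pth.r (Pth.l Pth.z))))
def l6 : Tr := Tr.L (Pth.l (Pth.r (Pth.r (Pth.r Pth.z))))
def l7 : Tr := Tr.L (Pth.r (Pth.l (Pth.l Pth.z)))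
def l8 : Tr := Tr.L (Pth.r (Pth.l (Pth.r (Pth.l Pth.z))))
def l9 : Tr := Tr.L (Pth.r (Pth.l (Pth.r (Pth.r Pth.z))))
def l10 : Tr := Tr.L (Pth.r (Pth.r (Pth.l (Pth.l Pth.z))))
def l11 : Tr := Tr.L (Pth.r (Pth.r (Pth.l (Pth.r Pth.z))))
def l12 : Tr := Tr.L (Pth.r (Pth.r (Pth.r (Pth.l Pth.z))))
def l13 : Tr := Tr.L (Pth.r (Pth.r (Pth.r (Pth.r Pth.z))))
end T1
def b2_0 : Bx := Bx.mk (St.mk (I.pos (nat_lit 157974528) (nat_lit 225673216)) (I.mix (nat_lit 2146304) (nat_lit 69844992)) (I.mix (nat_lit 2326528) (nat_lit 76234752)) (I.pos (nat_lit 239517696) (nat_lit 343523328)) (I.mix (nat_lit 95928320) (nat_lit 56082432)) (I.mix (nat_lit 53559296) (nat_lit 48054272)) (I.mix (nat_lit 73023488) (nat_lit 66551808)))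
  false (nat_lit 0)
def b2_1 : Bx := Bx.mk (St.mk (I.pos (nat_lit 26148864) (nat_lit 74317824)) (I.mix (nat_lit 12615680) (nat_lit 42778624)) (I.neg (nat_lit 4603904) (nat_lit 34570240)) (I.pos (nat_lit 144736256) (nat_lit 162725888)) (I.mix (nat_lit 25313280) (nat_lit 46759936)) (I.mix (nat_lit 35684352) (nat_lit 22134784)) (I.mix (nat_lit 20217856) (nat_lit 10272768)))
  false (nat_lit 0)
def b2_2 : Bx := Bx.mk (St.mk (I.pos (nat_lit 49725440) (nat_lit 95748096)) (I.mix (nat_lit 58097664) (nat_lit 13189120)) (I.neg (nat_lit 18268160) (nat_lit 61538304)) (I.pos (nat_lit 148094976) (nat_lit 178798592)) (I.mix (nat_lit 77381632) (nat_lit 25116672)) (I.mix (nat_lit 23887872) (nat_lit 63193088)) (I.mix (nat_lit 18857984) (nat_lit 38846464)))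
  false (nat_lit 0)
def b2_3 : Bx := Bx.mk (St.mk (I.neg (nat_lit 26083328) (nat_lit 74317824)) (I.mix (nat_lit 42778624) (nat_lit 12615680)) (I.neg (nat_lit 4603904) (nat_lit 34570240)) (I.pos (nat_lit 144687104) (nat_lit 162725888)) (I.mix (nat_lit 46825472) (nat_lit 25313280)) (I.mix (nat_lit 22134784) (nat_lit 35684352)) (I.mix (nat_lit 20217856) (nat_lit 10272768)))
  true (nat_lit 0)
def b2_4 : Bx := Bx.mk (St.mk (I.pos (nat_lit 66535424) (nat_lit 147390464)) (I.neg (nat_lit 9830400) (nat_lit 63635456)) (I.neg (nat_lit 13893632) (nat_lit 66764800)) (I.pos (nat_lit 159989760) (nat_lit 225853440)) (I.mix (nat_lit 79101952) (nat_lit 41304064)) (I.mix (nat_lit 37683200) (nat_lit 58327040)) (I.mix (nat_lit 33800192) (nat_lit 51675136)))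
  false (nat_lit 0)
def b2_5 : Bx := Bx.mk (St.mk (I.mix (nat_lit 40353792) (nat_lit 5341184)) (I.mix (nat_lit 39780352) (nat_lit 6520832)) (I.neg (nat_lit 5603328) (nat_lit 13008896)) (I.pos (nat_lit 141017088) (nat_lit 152748032)) (I.mix (nat_lit 29130752) (nat_lit 37453824)) (I.mix (nat_lit 25493504) (nat_lit 35848192)) (I.mix (nat_lit 5881856) (nat_lit 6717440)))
  true (nat_lit 0)
def b2_6 : Bx := Bx.mk (St.mk (I.pos (nat_lit 152010752) (nat_lit 201129984)) (I.pos (nat_lit 3817472) (nat_lit 63094784)) (I.pos (nat_lit 3883008) (nat_lit 71827456)) (I.pos (nat_lit 240730112) (nat_lit 303235072)) (I.mix (nat_lit 122437632) (nat_lit 40140800)) (I.mix (nat_lit 107413504) (nat_lit 61440000)) (I.mix (nat_lit 101089280) (nat_lit 66666496)))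
  false (nat_lit 0)
def b2_7 : Bx := Bx.mk (St.mk (I.mix (nat_lit 5324800) (nat_lit 40353792)) (I.mix (nat_lit 6520832) (nat_lit 39780352)) (I.neg (nat_lit 5603328) (nat_lit 13008896)) (I.pos (nat_lit 141017088) (nat_lit 152748032)) (I.mix (nat_lit 37453824) (nat_lit 29130752)) (I.mix (nat_lit 35848192) (nat_lit 25493504)) (I.mix (nat_lit 5881856) (nat_lit 6717440)))
  false (nat_lit 0)
def b2_8 : Bx := Bx.mk (St.mk (I.pos (nat_lit 194314240) (nat_lit 286097408)) (I.mix (nat_lit 30523392) (nat_lit 46415872)) (I.mix (nat_lit 134676480) (nat_lit 20725760)) (I.pos (nat_lit 304250880) (nat_lit 453672960)) (I.mix (nat_lit 74055680) (nat_lit 54902784)) (I.mix (nat_lit 58638336) (nat_lit 52789248)) (I.mix (nat_lit 103792640) (nat_lit 101580800)))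
  false (nat_lit 0)
def b2_9 : Bx := Bx.mk (St.mk (I.pos (nat_lit 126402560) (nat_lit 191758336)) (I.mix (nat_lit 35127296) (nat_lit 22429696)) (I.mix (nat_lit 41893888) (nat_lit 21299200)) (I.pos (nat_lit 204980224) (nat_lit 280641536)) (I.mix (nat_lit 50479104) (nat_lit 47579136)) (I.mix (nat_lit 46333952) (nat_lit 41762816)) (I.mix (nat_lit 46989312) (nat_lit 38486016)))
  false (nat_lit 0)
def b2_10 : Bx := Bx.mk (St.mk (I.pos (nat_lit 154206208) (nat_lit 193839104)) (I.mix (nat_lit 3063808) (nat_lit 43319296)) (I.mix (nat_lit 8126464) (nat_lit 50151424)) (I.pos (nat_lit 245137408) (nat_lit 284704768)) (I.mix (nat_lit 104808448) (nat_lit 54165504)) (I.mix (nat_lit 108937216) (nat_lit 49659904)) (I.mix (nat_lit 107495424) (nat_lit 49479680)))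
  false (nat_lit 0)
def b2_11 : Bx := Bx.mk (St.mk (I.pos (nat_lit 177045504) (nat_lit 227524608)) (I.pos (nat_lit 16711680) (nat_lit 70418432)) (I.mix (nat_lit 5947392) (nat_lit 73203712)) (I.pos (nat_lit 292077568) (nat_lit 340459520)) (I.mix (nat_lit 94191616) (nat_lit 69828608)) (I.mix (nat_lit 73138176) (nat_lit 53805056)) (I.mix (nat_lit 113115136) (nat_lit 78069760)))
  false (nat_lit 0)
def t2 : BTr := (BTr.n (BTr.n (BTr.n (BTr.b b2_0) (BTr.n (BTr.b b2_1) (BTr.b b2_2))) (BTr.n (BTr.b b2_3) (BTr.n (BTr.b b2_4) (BTr.b b2_5)))) (BTr.n (BTr.n (BTr.b b2_6) (BTr.n (BTr.b b2_7) (BTr.b b2_8))) (BTr.n (BTr.b b2_9) (BTr.n (BTr.b b2_10) (BTr.b b2_11)))))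
namespace T2
def l0 : Tr := Tr.L (Pth.l (Pth.l (Pth.l Pth.z)))
def l1 : Tr := Tr.L (Pth.l (Pth.l (Pth.r (Pth.l Pth.z))))
def l2 : Tr := Tr.L (Pth.l (Pth.l (Pth.r (Pth.r Pth.z))))
def l3 : Tr := Tr.L (Pth.l (Pth.r (Pth.l Pth.z)))
def l4 : Tr := Tr.L (Pth.l (Pth.r (Pth.r (Pth.l Pth.z))))
def l5 : Tr := Tr.L (Pth.l (Pth.r (Pth.r (Pth.r Pth.z))))
def l6 : Tr := Tr.L (Pth.r (Pth.l (Pth.l Pth.z)))
def l7 : Tr := Tr.L (Pth.r (Pth.l (Pth.r (Pth.l Pth.z))))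
def l8 : Tr := Tr.L (Pth.r (Pth.l (Pth.r (Pth.r Pth.z))))
def l9 : Tr := Tr.L (Pth.r (Pth.r (Pth.l Pth.z)))
def l10 : Tr := Tr.L (Pth.r (Pth.r (Pth.r (Pth.l Pth.z))))
def l11 : Tr := Tr.L (Pth.r (Pth.r (Pth.r (Pth.r Pth.z))))
end T2
def b3_0 : Bx := Bx.mk (St.mk (I.pos (nat_lit 156975104) (nat_lit 239206400)) (I.mix (nat_lit 1458176) (nat_lit 49364992)) (I.mix (nat_lit 2703360) (nat_lit 98271232)) (I.pos (nat_lit 93716480) (nat_lit 221036544)) (I.mix (nat_lit 114704384) (nat_lit 77463552)) (I.mix (nat_lit 88719360) (nat_lit 80871424)) (I.mix (nat_lit 130170880) (nat_lit 107397120)))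
  false (nat_lit 42768505)
def b3_1 : Bx := Bx.mk (St.mk (I.pos (nat_lit 121438208) (nat_lit 181714944)) (I.neg (nat_lit 5079040) (nat_lit 48840704)) (I.neg (nat_lit 2310144) (nat_lit 44171264)) (I.pos (nat_lit 73039872) (nat_lit 141344768)) (I.mix (nat_lit 61587456) (nat_lit 31752192)) (I.mix (nat_lit 32423936) (nat_lit 41385984)) (I.mix (nat_lit 30195712) (nat_lit 42418176)))
  false (nat_lit 8950940)
def b3_2 : Bx := Bx.mk (St.mk (I.mix (nat_lit 13238272) (nat_lit 116850688)) (I.mix (nat_lit 25100288) (nat_lit 3850240)) (I.mix (nat_lit 15941632) (nat_lit 4341760)) (I.mix (nat_lit 2490368) (nat_lit 66486272)) (I.mix (nat_lit 28655616) (nat_lit 22446080)) (I.mix (nat_lit 16777216) (nat_lit 18563072)) (I.mix (nat_lit 10928128) (nat_lit 12763136)))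
  false (nat_lit 0)
def b3_3 : Bx := Bx.mk (St.mk (I.pos (nat_lit 172605440) (nat_lit 212697088)) (I.mix (nat_lit 12484608) (nat_lit 44793856)) (I.pos (nat_lit 7667712) (nat_lit 84983808)) (I.pos (nat_lit 117096448) (nat_lit 186253312)) (I.mix (nat_lit 118194176) (nat_lit 38879232)) (I.mix (nat_lit 108658688) (nat_lit 53166080)) (I.mix (nat_lit 131809280) (nat_lit 50610176)))
  false (nat_lit 10936127)
def b3_4 : Bx := Bx.mk (St.mk (I.mix (nat_lit 13729792) (nat_lit 131629056)) (I.mix (nat_lit 9502720) (nat_lit 29736960)) (I.mix (nat_lit 3735552) (nat_lit 28770304)) (I.mix (nat_lit 2883584) (nat_lit 79724544)) (I.mix (nat_lit 51036160) (nat_lit 21463040)) (I.mix (nat_lit 41533440) (nat_lit 22429696)) (I.mix (nat_lit 30310400) (nat_lit 14106624)))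
  false (nat_lit 0)
def b3_5 : Bx := Bx.mk (St.mk (I.pos (nat_lit 161300480) (nat_lit 209010688)) (I.mix (nat_lit 32161792) (nat_lit 6914048)) (I.mix (nat_lit 21479424) (nat_lit 29589504)) (I.pos (nat_lit 104251392) (nat_lit 176472064)) (I.mix (nat_lit 50790400) (nat_lit 49414144)) (I.mix (nat_lit 44154880) (nat_lit 43401216)) (I.mix (nat_lit 44269568) (nat_lit 47235072)))
  false (nat_lit 17313113)
def b3_6 : Bx := Bx.mk (St.mk (I.pos (nat_lit 159055872) (nat_lit 180764672)) (I.neg (nat_lit 11812864) (nat_lit 34537472)) (I.neg (nat_lit 2752512) (nat_lit 27426816)) (I.pos (nat_lit 102891520) (nat_lit 141328384)) (I.mix (nat_lit 25460736) (nat_lit 13418496)) (I.mix (nat_lit 9748480) (nat_lit 13910016)) (I.mix (nat_lit 9879552) (nat_lit 14630912)))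
  false (nat_lit 0)
def b3_7 : Bx := Bx.mk (St.mk (I.mix (nat_lit 14221312) (nat_lit 116588544)) (I.mix (nat_lit 11534336) (nat_lit 1114112)) (I.mix (nat_lit 5521408) (nat_lit 3620864)) (I.mix (nat_lit 2490368) (nat_lit 66289664)) (I.mix (nat_lit 5177344) (nat_lit 7192576)) (I.mix (nat_lit 2752512) (nat_lit 3473408)) (I.mix (nat_lit 1720320) (nat_lit 2555904)))
  false (nat_lit 0)
def b3_8 : Bx := Bx.mk (St.mk (I.pos (nat_lit 30965760) (nat_lit 142458880)) (I.mix (nat_lit 8044544) (nat_lit 24444928)) (I.mix (nat_lit 5947392) (nat_lit 26394624)) (I.pos (nat_lit 11026432) (nat_lit 92094464)) (I.mix (nat_lit 39960576) (nat_lit 32751616)) (I.mix (nat_lit 31571968) (nat_lit 26673152)) (I.mix (nat_lit 26738688) (nat_lit 20725760)))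
  false (nat_lit 0)
def b3_9 : Bx := Bx.mk (St.mk (I.pos (nat_lit 116015104) (nat_lit 156024832)) (I.mix (nat_lit 44498944) (nat_lit 6897664)) (I.mix (nat_lit 40714240) (nat_lit 9584640)) (I.pos (nat_lit 52789248) (nat_lit 105725952)) (I.mix (nat_lit 75497472) (nat_lit 28540928)) (I.mix (nat_lit 31735808) (nat_lit 68501504)) (I.mix (nat_lit 27770880) (nat_lit 60194816)))
  false (nat_lit 0)
def b3_10 : Bx := Bx.mk (St.mk (I.mix (nat_lit 13582336) (nat_lit 107479040)) (I.mix (nat_lit 23134208) (nat_lit 3424256)) (I.mix (nat_lit 14155776) (nat_lit 4243456)) (I.mix (nat_lit 2277376) (nat_lit 58933248)) (I.mix (nat_lit 32620544) (nat_lit 17711104)) (I.mix (nat_lit 16809984) (nat_lit 26886144)) (I.mix (nat_lit 10125312) (nat_lit 16007168)))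
  false (nat_lit 0)
def b3_11 : Bx := Bx.mk (St.mk (I.pos (nat_lit 197656576) (nat_lit 283426816)) (I.mix (nat_lit 25870336) (nat_lit 32768000)) (I.mix (nat_lit 43794432) (nat_lit 71581696)) (I.pos (nat_lit 172392448) (nat_lit 324501504)) (I.mix (nat_lit 73334784) (nat_lit 52150272)) (I.mix (nat_lit 56082432) (nat_lit 51920896)) (I.mix (nat_lit 91406336) (nat_lit 87474176)))
  false (nat_lit 54551143)
def b3_12 : Bx := Bx.mk (St.mk (I.pos (nat_lit 184352768) (nat_lit 236486656)) (I.pos (nat_lit 10010624) (nat_lit 47874048)) (I.pos (nat_lit 28524544) (nat_lit 96124928)) (I.pos (nat_lit 160858112) (nat_lit 214745088)) (I.mix (nat_lit 86884352) (nat_lit 60342272)) (I.mix (nat_lit 74465280) (nat_lit 55263232)) (I.mix (nat_lit 111820800) (nat_lit 70254592)))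
  false (nat_lit 29288837)
def b3_13 : Bx := Bx.mk (St.mk (I.pos (nat_lit 175620096) (nat_lit 208306176)) (I.mix (nat_lit 18202624) (nat_lit 18759680)) (I.pos (nat_lit 1064960) (nat_lit 47628288)) (I.pos (nat_lit 117637120) (nat_lit 173522944)) (I.mix (nat_lit 77447168) (nat_lit 41762816)) (I.mix (nat_lit 84246528) (nat_lit 38371328)) (I.mix (nat_lit 99663872) (nat_lit 40550400)))
  false (nat_lit 11215791)
def t3 : BTr := (BTr.n (BTr.n (BTr.n (BTr.b b3_0) (BTr.n (BTr.b b3_1) (BTr.b b3_2))) (BTr.n (BTr.n (BTr.b b3_3) (BTr.b b3_4)) (BTr.n (BTr.b b3_5) (BTr.b b3_6)))) (BTr.n (BTr.n (BTr.b b3_7) (BTr.n (BTr.b b3_8) (BTr.b b3_9))) (BTr.n (BTr.n (BTr.b b3_10) (BTr.b b3_11)) (BTr.n (BTr.b b3_12) (BTr.b b3_13)))))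
namespace T3
def l0 : Tr := Tr.L (Pth.l (Pth.l (Pth.l Pth.z)))
def l1 : Tr := Tr.L (Pth.l (Pth.l (Pth.r (Pth.l Pth.z))))
def l2 : Tr := Tr.L (Pth.l (Pth.l (Pth.r (Pth.r Pth.z))))
def l3 : Tr := Tr.L (Pth.l (Pth.r (Pth.l (Pth.l Pth.z))))
def l4 : Tr := Tr.L (Pth.l (Pth.r (Pth.l (Pth.r Pth.z))))
def l5 : Tr := Tr.L (Pth.l (Pth.r (Pth.r (Pth.l Pth.z))))
def l6 : Tr := Tr.L (Pth.l (Pth.r (Pth.r (Pth.r Pth.z))))
def l7 : Tr := Tr.L (Pth.r (Pth.l (Pth.l Pth.z)))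
def l8 : Tr := Tr.L (Pth.r (Pth.l (Pth.r (Pth.l Pth.z))))
def l9 : Tr := Tr.L (Pth.r (Pth.l (Pth.r (Pth.r Pth.z))))
def l10 : Tr := Tr.L (Pth.r (Pth.r (Pth.l (Pth.l Pth.z))))
def l11 : Tr := Tr.L (Pth.r (Pth.r (Pth.l (Pth.r Pth.z))))
def l12 : Tr := Tr.L (Pth.r (Pth.r (Pth.r (Pth.l Pth.z))))
def l13 : Tr := Tr.L (Pth.r (Pth.r (Pth.r (Pth.r Pth.z))))
end T3
def b4_0 : Bx := Bx.mk (St.mk (I.pos (nat_lit 144343040) (nat_lit 223739904)) (I.mix (nat_lit 1982464) (nat_lit 66600960)) (I.mix (nat_lit 3211264) (nat_lit 110018560)) (I.pos (nat_lit 235094016) (nat_lit 326385664)) (I.mix (nat_lit 122830848) (nat_lit 73564160)) (I.mix (nat_lit 76644352) (nat_lit 72040448)) (I.mix (nat_lit 102105088) (nat_lit 93356032)))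
  false (nat_lit 84787050)
def b4_1 : Bx := Bx.mk (St.mk (I.pos (nat_lit 77070336) (nat_lit 151191552)) (I.neg (nat_lit 8519680) (nat_lit 68370432)) (I.mix (nat_lit 46284800) (nat_lit 18055168)) (I.pos (nat_lit 170770432) (nat_lit 227573760)) (I.mix (nat_lit 64012288) (nat_lit 46563328)) (I.mix (nat_lit 35962880) (nat_lit 49856512)) (I.mix (nat_lit 31080448) (nat_lit 43450368)))
  false (nat_lit 0)
def b4_2 : Bx := Bx.mk (St.mk (I.mix (nat_lit 32833536) (nat_lit 9519104)) (I.mix (nat_lit 39550976) (nat_lit 8323072)) (I.pos (nat_lit 6356992) (nat_lit 13221888)) (I.pos (nat_lit 140853248) (nat_lit 150306816)) (I.mix (nat_lit 21004288) (nat_lit 40714240)) (I.mix (nat_lit 17547264) (nat_lit 31981568)) (I.mix (nat_lit 3964928) (nat_lit 5570560)))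
  true (nat_lit 0)
def b4_3 : Bx := Bx.mk (St.mk (I.pos (nat_lit 147030016) (nat_lit 191348736)) (I.pos (nat_lit 2457600) (nat_lit 58441728)) (I.pos (nat_lit 32079872) (nat_lit 100483072)) (I.pos (nat_lit 225558528) (nat_lit 282050560)) (I.mix (nat_lit 111312896) (nat_lit 24821760)) (I.mix (nat_lit 92405760) (nat_lit 42516480)) (I.mix (nat_lit 92864512) (nat_lit 44253184)))
  false (nat_lit 19922366)
def b4_4 : Bx := Bx.mk (St.mk (I.mix (nat_lit 9519104) (nat_lit 32833536)) (I.mix (nat_lit 10551296) (nat_lit 39616512)) (I.pos (nat_lit 6356992) (nat_lit 13221888)) (I.pos (nat_lit 140853248) (nat_lit 150306816)) (I.mix (nat_lit 40665088) (nat_lit 21004288)) (I.mix (nat_lit 31981568) (nat_lit 17547264)) (I.mix (nat_lit 3964928) (nat_lit 5570560)))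
  false (nat_lit 0)
def b4_5 : Bx := Bx.mk (St.mk (I.pos (nat_lit 17956864) (nat_lit 70205440)) (I.mix (nat_lit 6406144) (nat_lit 43958272)) (I.mix (nat_lit 11010048) (nat_lit 14876672)) (I.pos (nat_lit 142360576) (nat_lit 161923072)) (I.mix (nat_lit 35913728) (nat_lit 41467904)) (I.mix (nat_lit 38174720) (nat_lit 30375936)) (I.mix (nat_lit 20185088) (nat_lit 15269888)))
  false (nat_lit 0)
def b4_6 : Bx := Bx.mk (St.mk (I.pos (nat_lit 53592064) (nat_lit 104726528)) (I.mix (nat_lit 62504960) (nat_lit 6881280)) (I.neg (nat_lit 1441792) (nat_lit 41697280)) (I.pos (nat_lit 152207360) (nat_lit 187301888)) (I.mix (nat_lit 77725696) (nat_lit 30408704)) (I.mix (nat_lit 34734080) (nat_lit 63045632)) (I.mix (nat_lit 27262976) (nat_lit 36126720)))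
  false (nat_lit 0)
def b4_7 : Bx := Bx.mk (St.mk (I.neg (nat_lit 17956864) (nat_lit 70205440)) (I.mix (nat_lit 43958272) (nat_lit 6406144)) (I.mix (nat_lit 11010048) (nat_lit 14876672)) (I.pos (nat_lit 142360576) (nat_lit 161923072)) (I.mix (nat_lit 41467904) (nat_lit 35913728)) (I.mix (nat_lit 30375936) (nat_lit 38174720)) (I.mix (nat_lit 20185088) (nat_lit 15269888)))
  true (nat_lit 0)
def b4_8 : Bx := Bx.mk (St.mk (I.pos (nat_lit 126566400) (nat_lit 184582144)) (I.mix (nat_lit 39157760) (nat_lit 12861440)) (I.mix (nat_lit 16236544) (nat_lit 45563904)) (I.pos (nat_lit 203767808) (nat_lit 264601600)) (I.mix (nat_lit 48922624) (nat_lit 50561024)) (I.mix (nat_lit 47087616) (nat_lit 43008000)) (I.mix (nat_lit 45056000) (nat_lit 41582592)))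
  false (nat_lit 0)
def b4_9 : Bx := Bx.mk (St.mk (I.pos (nat_lit 188448768) (nat_lit 284884992)) (I.mix (nat_lit 18956288) (nat_lit 51560448)) (I.mix (nat_lit 52658176) (nat_lit 83427328)) (I.pos (nat_lit 291717120) (nat_lit 440385536)) (I.mix (nat_lit 79200256) (nat_lit 64241664)) (I.mix (nat_lit 58277888) (nat_lit 38649856)) (I.mix (nat_lit 100712448) (nat_lit 58884096)))
  false (nat_lit 83322211)
def b4_10 : Bx := Bx.mk (St.mk (I.pos (nat_lit 165527552) (nat_lit 218234880)) (I.pos (nat_lit 22151168) (nat_lit 63995904)) (I.pos (nat_lit 42696704) (nat_lit 105512960)) (I.pos (nat_lit 267321344) (nat_lit 316391424)) (I.mix (nat_lit 107167744) (nat_lit 78807040)) (I.mix (nat_lit 91340800) (nat_lit 62062592)) (I.mix (nat_lit 129499136) (nat_lit 72318976)))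
  false (nat_lit 67706852)
def b4_11 : Bx := Bx.mk (St.mk (I.pos (nat_lit 146014208) (nat_lit 186548224)) (I.mix (nat_lit 5455872) (nat_lit 40189952)) (I.pos (nat_lit 21970944) (nat_lit 80297984)) (I.pos (nat_lit 225411072) (nat_lit 270057472)) (I.mix (nat_lit 115032064) (nat_lit 41271296)) (I.mix (nat_lit 106823680) (nat_lit 42696704)) (I.mix (nat_lit 106971136) (nat_lit 43417600)))
  false (nat_lit 0)
def t4 : BTr := (BTr.n (BTr.n (BTr.n (BTr.b b4_0) (BTr.n (BTr.b b4_1) (BTr.b b4_2))) (BTr.n (BTr.b b4_3) (BTr.n (BTr.b b4_4) (BTr.b b4_5)))) (BTr.n (BTr.n (BTr.b b4_6) (BTr.n (BTr.b b4_7) (BTr.b b4_8))) (BTr.n (BTr.b b4_9) (BTr.n (BTr.b b4_10) (BTr.b b4_11)))))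
namespace T4
def l0 : Tr := Tr.L (Pth.l (Pth.l (Pth.l Pth.z)))
def l1 : Tr := Tr.L (Pth.l (Pth.l (Pth.r (Pth.l Pth.z))))
def l2 : Tr := Tr.L (Pth.l (Pth.l (Pth.r (Pth.r Pth.z))))
def l3 : Tr := Tr.L (Pth.l (Pth.r (Pth.l Pth.z)))
def l4 : Tr := Tr.L (Pth.l (Pth.r (Pth.r (Pth.l Pth.z))))
def l5 : Tr := Tr.L (Pth.l (Pth.r (Pth.r (Pth.r Pth.z))))
def l6 : Tr := Tr.L (Pth.r (Pth.l (Pth.l Pth.z)))
def l7 : Tr := Tr.L (Pth.r (Pth.l (Pth.r (Pth.l Pth.z))))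
def l8 : Tr := Tr.L (Pth.r (Pth.l (Pth.r (Pth.r Pth.z))))
def l9 : Tr := Tr.L (Pth.r (Pth.r (Pth.l Pth.z)))
def l10 : Tr := Tr.L (Pth.r (Pth.r (Pth.r (Pth.l Pth.z))))
def l11 : Tr := Tr.L (Pth.r (Pth.r (Pth.r (Pth.r Pth.z))))
end T4
def b5_0 : Bx := Bx.mk (St.mk (I.pos (nat_lit 142852096) (nat_lit 227786752)) (I.mix (nat_lit 1736704) (nat_lit 57376768)) (I.mix (nat_lit 3227648) (nat_lit 111558656)) (I.pos (nat_lit 182812672) (nat_lit 274989056)) (I.mix (nat_lit 132481024) (nat_lit 76890112)) (I.mix (nat_lit 95371264) (nat_lit 82149376)) (I.mix (nat_lit 122044416) (nat_lit 99368960)))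
  false (nat_lit 76060330)
def b5_1 : Bx := Bx.mk (St.mk (I.pos (nat_lit 96616448) (nat_lit 156663808)) (I.neg (nat_lit 14123008) (nat_lit 59670528)) (I.mix (nat_lit 37748736) (nat_lit 7176192)) (I.pos (nat_lit 133611520) (nat_lit 181501952)) (I.mix (nat_lit 58900480) (nat_lit 36880384)) (I.mix (nat_lit 28491776) (nat_lit 39649280)) (I.mix (nat_lit 24051712) (nat_lit 35717120)))
  false (nat_lit 12962666)
def b5_2 : Bx := Bx.mk (St.mk (I.mix (nat_lit 27017216) (nat_lit 45432832)) (I.mix (nat_lit 32899072) (nat_lit 1343488)) (I.mix (nat_lit 1163264) (nat_lit 12222464)) (I.pos (nat_lit 83329024) (nat_lit 100155392)) (I.mix (nat_lit 20692992) (nat_lit 31457280)) (I.mix (nat_lit 16465920) (nat_lit 24690688)) (I.mix (nat_lit 6094848) (nat_lit 9224192)))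
  false (nat_lit 0)
def b5_3 : Bx := Bx.mk (St.mk (I.pos (nat_lit 153337856) (nat_lit 200851456)) (I.mix (nat_lit 2146304) (nat_lit 55246848)) (I.pos (nat_lit 33488896) (nat_lit 103809024)) (I.pos (nat_lit 179109888) (nat_lit 237731840)) (I.mix (nat_lit 122716160) (nat_lit 32391168)) (I.mix (nat_lit 98369536) (nat_lit 49004544)) (I.mix (nat_lit 102334464) (nat_lit 39141376)))
  false (nat_lit 31296507)
def b5_4 : Bx := Bx.mk (St.mk (I.mix (nat_lit 48922624) (nat_lit 71270400)) (I.mix (nat_lit 5767168) (nat_lit 39337984)) (I.mix (nat_lit 1474560) (nat_lit 23445504)) (I.pos (nat_lit 81592320) (nat_lit 108806144)) (I.mix (nat_lit 43270144) (nat_lit 26443776)) (I.mix (nat_lit 34062336) (nat_lit 23724032)) (I.mix (nat_lit 13025280) (nat_lit 12926976)))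
  false (nat_lit 0)
def b5_5 : Bx := Bx.mk (St.mk (I.pos (nat_lit 145850368) (nat_lit 191234048)) (I.mix (nat_lit 26771456) (nat_lit 5586944)) (I.pos (nat_lit 262144) (nat_lit 42958848)) (I.pos (nat_lit 170131456) (nat_lit 218775552)) (I.mix (nat_lit 44564480) (nat_lit 50118656)) (I.mix (nat_lit 42663936) (nat_lit 41533440)) (I.mix (nat_lit 38780928) (nat_lit 38912000)))
  false (nat_lit 0)
def b5_6 : Bx := Bx.mk (St.mk (I.mix (nat_lit 51478528) (nat_lit 48381952)) (I.mix (nat_lit 13778944) (nat_lit 5144576)) (I.pos (nat_lit 4538368) (nat_lit 14155776)) (I.pos (nat_lit 86556672) (nat_lit 99270656)) (I.mix (nat_lit 10780672) (nat_lit 14778368)) (I.mix (nat_lit 8224768) (nat_lit 8437760)) (I.mix (nat_lit 4030464) (nat_lit 3833856)))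
  false (nat_lit 0)
def b5_7 : Bx := Bx.mk (St.mk (I.pos (nat_lit 137756672) (nat_lit 160612352)) (I.neg (nat_lit 18415616) (nat_lit 38764544)) (I.mix (nat_lit 15351808) (nat_lit 9224192)) (I.pos (nat_lit 165183488) (nat_lit 185909248)) (I.mix (nat_lit 21184512) (nat_lit 21200896)) (I.mix (nat_lit 13402112) (nat_lit 14630912)) (I.mix (nat_lit 11976704) (nat_lit 15351808)))
  false (nat_lit 0)
def b5_8 : Bx := Bx.mk (St.mk (I.mix (nat_lit 39649280) (nat_lit 96698368)) (I.mix (nat_lit 6127616) (nat_lit 37601280)) (I.mix (nat_lit 1228800) (nat_lit 28491776)) (I.pos (nat_lit 75448320) (nat_lit 123863040)) (I.mix (nat_lit 50872320) (nat_lit 45809664)) (I.mix (nat_lit 42582016) (nat_lit 37535744)) (I.mix (nat_lit 28131328) (nat_lit 25329664)))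
  false (nat_lit 0)
def b5_9 : Bx := Bx.mk (St.mk (I.pos (nat_lit 81494016) (nat_lit 128303104)) (I.mix (nat_lit 60506112) (nat_lit 6455296)) (I.mix (nat_lit 37961728) (nat_lit 8863744)) (I.pos (nat_lit 115703808) (nat_lit 153337856)) (I.mix (nat_lit 74072064) (nat_lit 27820032)) (I.mix (nat_lit 38305792) (nat_lit 61489152)) (I.mix (nat_lit 27885568) (nat_lit 38387712)))
  false (nat_lit 12878424)
def b5_10 : Bx := Bx.mk (St.mk (I.mix (nat_lit 46825472) (nat_lit 36028416)) (I.mix (nat_lit 32571392) (nat_lit 4997120)) (I.mix (nat_lit 147456) (nat_lit 14336000)) (I.pos (nat_lit 81870848) (nat_lit 101548032)) (I.mix (nat_lit 31916032) (nat_lit 31195136)) (I.mix (nat_lit 24199168) (nat_lit 27836416)) (I.mix (nat_lit 11304960) (nat_lit 9846784)))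
  false (nat_lit 0)
def b5_11 : Bx := Bx.mk (St.mk (I.pos (nat_lit 156876800) (nat_lit 193019904)) (I.mix (nat_lit 12140544) (nat_lit 28147712)) (I.pos (nat_lit 20709376) (nat_lit 72925184)) (I.pos (nat_lit 182026240) (nat_lit 222674944)) (I.mix (nat_lit 101072896) (nat_lit 40386560)) (I.mix (nat_lit 98467840) (nat_lit 40665088)) (I.mix (nat_lit 101662720) (nat_lit 37109760)))
  false (nat_lit 0)
def b5_12 : Bx := Bx.mk (St.mk (I.pos (nat_lit 177815552) (nat_lit 282525696)) (I.mix (nat_lit 17678336) (nat_lit 45187072)) (I.mix (nat_lit 22708224) (nat_lit 95305728)) (I.pos (nat_lit 230064128) (nat_lit 385417216)) (I.mix (nat_lit 88850432) (nat_lit 58408960)) (I.mix (nat_lit 64110592) (nat_lit 42516480)) (I.mix (nat_lit 92504064) (nat_lit 63127552)))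
  false (nat_lit 81495657)
def b5_13 : Bx := Bx.mk (St.mk (I.pos (nat_lit 169132032) (nat_lit 223772672)) (I.pos (nat_lit 17793024) (nat_lit 53919744)) (I.pos (nat_lit 47988736) (nat_lit 106594304)) (I.pos (nat_lit 218644480) (nat_lit 265830400)) (I.mix (nat_lit 100614144) (nat_lit 72974336)) (I.mix (nat_lit 91209728) (nat_lit 59572224)) (I.mix (nat_lit 133742592) (nat_lit 68468736)))
  false (nat_lit 67162918)
def t5 : BTr := (BTr.n (BTr.n (BTr.n (BTr.b b5_0) (BTr.n (BTr.b b5_1) (BTr.b b5_2))) (BTr.n (BTr.n (BTr.b b5_3) (BTr.b b5_4)) (BTr.n (BTr.b b5_5) (BTr.b b5_6)))) (BTr.n (BTr.n (BTr.b b5_7) (BTr.n (BTr.b b5_8) (BTr.b b5_9))) (BTr.n (BTr.n (BTr.b b5_10) (BTr.b b5_11)) (BTr.n (BTr.b b5_12) (BTr.b b5_13)))))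
namespace T5
def l0 : Tr := Tr.L (Pth.l (Pth.l (Pth.l Pth.z)))
def l1 : Tr := Tr.L (Pth.l (Pth.l (Pth.r (Pth.l Pth.z))))
def l2 : Tr := Tr.L (Pth.l (Pth.l (Pth.r (Pth.r Pth.z))))
def l3 : Tr := Tr.L (Pth.l (Pth.r (Pth.l (Pth.l Pth.z))))
def l4 : Tr := Tr.L (Pth.l (Pth.r (Pth.l (Pth.r Pth.z))))
def l5 : Tr := Tr.L (Pth.l (Pth.r (Pth.r (Pth.l Pth.z))))
def l6 : Tr := Tr.L (Pth.l (Pth.r (Pth.r (Pth.r Pth.z))))
def l7 : Tr := Tr.L (Pth.r (Pth.l (Pth.l Pth.z)))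
def l8 : Tr := Tr.L (Pth.r (Pth.l (Pth.r (Pth.l Pth.z))))
def l9 : Tr := Tr.L (Pth.r (Pth.l (Pth.r (Pth.r Pth.z))))
def l10 : Tr := Tr.L (Pth.r (Pth.r (Pth.l (Pth.l Pth.z))))
def l11 : Tr := Tr.L (Pth.r (Pth.r (Pth.l (Pth.r Pth.z))))
def l12 : Tr := Tr.L (Pth.r (Pth.r (Pth.r (Pth.l Pth.z))))
def l13 : Tr := Tr.L (Pth.r (Pth.r (Pth.r (Pth.r Pth.z))))
end T5
theorem bx0_0 : BoxOK sI cl5 cl6 cl13 t2 t4 b0_0 :=
  box_mk (TrL.c (I.pos (nat_lit 0) (nat_lit 0)) (xa (xb T2.l11 (xa T2.l0 T2.l0)) (xb T2.l0 (xa T2.l0 T2.l0)))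
  (TrL.c (I.pos (nat_lit 0) (nat_lit 0)) (xa T4.l1 T4.l1)
  (TrL.c (I.pos (nat_lit 0) (nat_lit 0)) T2.l1
  (TrL.c (I.pos (nat_lit 0) (nat_lit 0)) T4.l2
  (TrL.c (I.pos (nat_lit 0) (nat_lit 0)) (xa T4.l11 (xb T4.l3 T4.l3))
  (TrL.c (I.pos (nat_lit 0) (nat_lit 0)) T2.l2
  (TrL.c (I.pos (nat_lit 0) (nat_lit 0)) T4.l4
  (TrL.c (I.pos (nat_lit 0) (nat_lit 0)) T2.l3
  TrL.n)))))))) (by decide +kernel)
theorem bx0_1 : BoxOK sI cl5 cl6 cl13 t2 t4 b0_1 :=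
  box_mk (TrL.c (I.pos (nat_lit 0) (nat_lit 0)) (xa (xa (xb T2.l8 T2.l8) T2.l8) (xa T2.l8 T2.l8))
  (TrL.c (I.pos (nat_lit 0) (nat_lit 0)) (xa T4.l8 T4.l1)
  (TrL.c (I.pos (nat_lit 0) (nat_lit 0)) T2.l1
  (TrL.c (I.pos (nat_lit 0) (nat_lit 0)) T4.l2
  (TrL.c (I.pos (nat_lit 0) (nat_lit 0)) (xa T4.l1 T4.l8)
  (TrL.c (I.pos (nat_lit 0) (nat_lit 0)) T2.l2
  (TrL.c (I.pos (nat_lit 0) (nat_lit 0)) T4.l4
  (TrL.c (I.pos (nat_lit 0) (nat_lit 0)) T2.l3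
  TrL.n)))))))) (by decide +kernel)
theorem bx0_2 : BoxOK sI cl5 cl6 cl13 t2 t4 b0_2 :=
  box_mk (TrL.c (I.pos (nat_lit 0) (nat_lit 0)) T2.l8
  (TrL.c (I.pos (nat_lit 0) (nat_lit 0)) T4.l1
  (TrL.c (I.pos (nat_lit 0) (nat_lit 0)) T2.l1
  (TrL.c (I.pos (nat_lit 0) (nat_lit 0)) T4.l2
  (TrL.c (I.pos (nat_lit 0) (nat_lit 0)) T4.l8
  (TrL.c (I.pos (nat_lit 0) (nat_lit 0)) T2.l2
  (TrL.c (I.pos (nat_lit 0) (nat_lit 0)) T4.l4
  (TrL.c (I.pos (nat_lit 0) (nat_lit 0)) T2.l3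
  TrL.n)))))))) (by decide +kernel)
theorem bx0_3 : BoxOK sI cl5 cl6 cl13 t2 t4 b0_3 :=
  box_mk (TrL.c (I.pos (nat_lit 0) (nat_lit 0)) (xa (xb T2.l8 T2.l8) T2.l8)
  (TrL.c (I.pos (nat_lit 0) (nat_lit 0)) T4.l8
  (TrL.c (I.pos (nat_lit 0) (nat_lit 0)) T2.l1
  (TrL.c (I.pos (nat_lit 0) (nat_lit 0)) T4.l4
  (TrL.c (I.pos (nat_lit 0) (nat_lit 0)) T4.l8
  (TrL.c (I.pos (nat_lit 0) (nat_lit 0)) T2.l2
  (TrL.c (I.pos (nat_lit 0) (nat_lit 0)) T4.l4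
  (TrL.c (I.pos (nat_lit 0) (nat_lit 0)) T2.l3
  TrL.n)))))))) (by decide +kernel)
theorem bx0_4 : BoxOK sI cl5 cl6 cl13 t2 t4 b0_4 :=
  box_mk (TrL.c (I.pos (nat_lit 0) (nat_lit 0)) (xa (xb T2.l0 T2.l0) (xb T2.l0 T2.l0))
  (TrL.c (I.pos (nat_lit 0) (nat_lit 0)) T4.l1
  (TrL.c (I.pos (nat_lit 0) (nat_lit 0)) T2.l1
  (TrL.c (I.pos (nat_lit 0) (nat_lit 0)) T4.l2
  (TrL.c (I.pos (nat_lit 0) (nat_lit 0)) (xa T4.l3 (xb T4.l3 T4.l3))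
  (TrL.c (I.pos (nat_lit 0) (nat_lit 0)) T2.l2
  (TrL.c (I.pos (nat_lit 0) (nat_lit 0)) T4.l4
  (TrL.c (I.pos (nat_lit 0) (nat_lit 0)) T2.l3
  TrL.n)))))))) (by decide +kernel)
theorem bx0_5 : BoxOK sI cl5 cl6 cl13 t2 t4 b0_5 :=
  box_mk (TrL.c (I.pos (nat_lit 0) (nat_lit 0)) T2.l8
  (TrL.c (I.pos (nat_lit 0) (nat_lit 0)) T4.l8
  (TrL.c (I.pos (nat_lit 0) (nat_lit 0)) T2.l1
  (TrL.c (I.pos (nat_lit 0) (nat_lit 0)) T4.l2
  (TrL.c (I.pos (nat_lit 0) (nat_lit 0)) T4.l8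
  (TrL.c (I.pos (nat_lit 0) (nat_lit 0)) T2.l2
  (TrL.c (I.pos (nat_lit 0) (nat_lit 0)) T4.l4
  (TrL.c (I.pos (nat_lit 0) (nat_lit 0)) T2.l3
  TrL.n)))))))) (by decide +kernel)
theorem bx0_6 : BoxOK sI cl5 cl6 cl13 t2 t4 b0_6 :=
  box_mk (TrL.c (I.pos (nat_lit 0) (nat_lit 0)) (xa T2.l8 T2.l8)
  (TrL.c (I.pos (nat_lit 0) (nat_lit 0)) T4.l1
  (TrL.c (I.pos (nat_lit 0) (nat_lit 0)) T2.l1
  (TrL.c (I.pos (nat_lit 0) (nat_lit 0)) T4.l2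
  (TrL.c (I.pos (nat_lit 0) (nat_lit 0)) T4.l8
  (TrL.c (I.pos (nat_lit 0) (nat_lit 0)) T2.l2
  (TrL.c (I.pos (nat_lit 0) (nat_lit 0)) T4.l4
  (TrL.c (I.pos (nat_lit 0) (nat_lit 0)) T2.l3
  TrL.n)))))))) (by decide +kernel)
theorem bx0_7 : BoxOK sI cl5 cl6 cl13 t2 t4 b0_7 :=
  box_mk (TrL.c (I.pos (nat_lit 0) (nat_lit 0)) (xa (xb T2.l8 T2.l8) T2.l8)
  (TrL.c (I.pos (nat_lit 0) (nat_lit 0)) T4.l1
  (TrL.c (I.pos (nat_lit 0) (nat_lit 0)) T2.l1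
  (TrL.c (I.pos (nat_lit 0) (nat_lit 0)) T4.l4
  (TrL.c (I.pos (nat_lit 0) (nat_lit 0)) T4.l8
  (TrL.c (I.pos (nat_lit 0) (nat_lit 0)) T2.l2
  (TrL.c (I.pos (nat_lit 0) (nat_lit 0)) T4.l4
  (TrL.c (I.pos (nat_lit 0) (nat_lit 0)) T2.l3
  TrL.n)))))))) (by decide +kernel)
theorem bx0_8 : BoxOK sI cl5 cl6 cl13 t2 t4 b0_8 :=
  box_mk (TrL.c (I.pos (nat_lit 0) (nat_lit 0)) (xb (xa T2.l11 T2.l11) (xa T2.l11 T2.l11))
  (TrL.c (I.pos (nat_lit 0) (nat_lit 0)) T4.l1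
  (TrL.c (I.pos (nat_lit 0) (nat_lit 0)) T2.l1
  (TrL.c (I.pos (nat_lit 0) (nat_lit 0)) T4.l2
  (TrL.c (I.pos (nat_lit 0) (nat_lit 0)) (xb T4.l11 T4.l11)
  (TrL.c (I.pos (nat_lit 0) (nat_lit 0)) T2.l2
  (TrL.c (I.pos (nat_lit 0) (nat_lit 0)) T4.l4
  (TrL.c (I.pos (nat_lit 0) (nat_lit 0)) T2.l3
  TrL.n)))))))) (by decide +kernel)
theorem bx0_9 : BoxOK sI cl5 cl6 cl13 t2 t4 b0_9 :=
  box_mk (TrL.c (I.pos (nat_lit 0) (nat_lit 0)) (xa (xa (xb T2.l8 T2.l8) (xb T2.l8 T2.l8)) (xa T2.l8 T2.l8))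
  (TrL.c (I.pos (nat_lit 0) (nat_lit 0)) (xa T4.l8 T4.l1)
  (TrL.c (I.pos (nat_lit 0) (nat_lit 0)) T2.l1
  (TrL.c (I.pos (nat_lit 0) (nat_lit 0)) T4.l2
  (TrL.c (I.pos (nat_lit 0) (nat_lit 0)) (xa T4.l1 T4.l8)
  (TrL.c (I.pos (nat_lit 0) (nat_lit 0)) T2.l2
  (TrL.c (I.pos (nat_lit 0) (nat_lit 0)) T4.l4
  (TrL.c (I.pos (nat_lit 0) (nat_lit 0)) T2.l3
  TrL.n)))))))) (by decide +kernel)
theorem bx0_10 : BoxOK sI cl5 cl6 cl13 t2 t4 b0_10 :=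
  box_mk (TrL.c (I.pos (nat_lit 0) (nat_lit 0)) T2.l8
  (TrL.c (I.pos (nat_lit 0) (nat_lit 0)) T4.l1
  (TrL.c (I.pos (nat_lit 0) (nat_lit 0)) T2.l1
  (TrL.c (I.pos (nat_lit 0) (nat_lit 0)) T4.l2
  (TrL.c (I.pos (nat_lit 0) (nat_lit 0)) T4.l8
  (TrL.c (I.pos (nat_lit 0) (nat_lit 0)) T2.l2
  (TrL.c (I.pos (nat_lit 0) (nat_lit 0)) T4.l4
  (TrL.c (I.pos (nat_lit 0) (nat_lit 0)) T2.l3
  TrL.n)))))))) (by decide +kernel)
theorem bx0_11 : BoxOK sI cl5 cl6 cl13 t2 t4 b0_11 :=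
  box_mk (TrL.c (I.pos (nat_lit 0) (nat_lit 0)) (xa (xb T2.l0 T2.l0) (xb T2.l0 T2.l0))
  (TrL.c (I.pos (nat_lit 0) (nat_lit 0)) T4.l1
  (TrL.c (I.pos (nat_lit 0) (nat_lit 0)) T2.l1
  (TrL.c (I.pos (nat_lit 0) (nat_lit 0)) T4.l2
  (TrL.c (I.pos (nat_lit 0) (nat_lit 0)) (xb T4.l3 T4.l3)
  (TrL.c (I.pos (nat_lit 0) (nat_lit 0)) T2.l2
  (TrL.c (I.pos (nat_lit 0) (nat_lit 0)) T4.l4
  (TrL.c (I.pos (nat_lit 0) (nat_lit 0)) T2.l3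
  TrL.n)))))))) (by decide +kernel)
theorem bx0_12 : BoxOK sI cl5 cl6 cl13 t2 t4 b0_12 :=
  box_mk (TrL.c (I.pos (nat_lit 0) (nat_lit 0)) (xa T2.l11 T2.l0)
  (TrL.c (I.pos (nat_lit 0) (nat_lit 0)) T4.l1
  (TrL.c (I.pos (nat_lit 0) (nat_lit 0)) T2.l1
  (TrL.c (I.pos (nat_lit 0) (nat_lit 0)) T4.l2
  (TrL.c (I.pos (nat_lit 0) (nat_lit 0)) (xa T4.l11 T4.l0)
  (TrL.c (I.pos (nat_lit 0) (nat_lit 0)) T2.l2
  (TrL.c (I.pos (nat_lit 0) (nat_lit 0)) T4.l4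
  (TrL.c (I.pos (nat_lit 0) (nat_lit 0)) T2.l3
  TrL.n)))))))) (by decide +kernel)
theorem bx0_13 : BoxOK sI cl5 cl6 cl13 t2 t4 b0_13 :=
  box_mk (TrL.c (I.pos (nat_lit 0) (nat_lit 0)) T2.l11
  (TrL.c (I.pos (nat_lit 0) (nat_lit 0)) T4.l1
  (TrL.c (I.pos (nat_lit 0) (nat_lit 0)) T2.l1
  (TrL.c (I.pos (nat_lit 0) (nat_lit 0)) T4.l2
  (TrL.c (I.pos (nat_lit 0) (nat_lit 0)) T4.l11
  (TrL.c (I.pos (nat_lit 0) (nat_lit 0)) T2.l2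
  (TrL.c (I.pos (nat_lit 0) (nat_lit 0)) T4.l4
  (TrL.c (I.pos (nat_lit 0) (nat_lit 0)) T2.l3
  TrL.n)))))))) (by decide +kernel)
theorem sv0 : StarV sI cl5 cl6 cl13 t2 t4 t0 :=
  (bt_n (bt_n (bt_n (bt_b bx0_0) (bt_n (bt_b bx0_1) (bt_b bx0_2))) (bt_n (bt_n (bt_b bx0_3) (bt_b bx0_4)) (bt_n (bt_b bx0_5) (bt_b bx0_6)))) (bt_n (bt_n (bt_b bx0_7) (bt_n (bt_b bx0_8) (bt_b bx0_9))) (bt_n (bt_n (bt_b bx0_10) (bt_b bx0_11)) (bt_n (bt_b bx0_12) (bt_b bx0_13)))))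
def S0 : StarD := StarD.mk cl5 cl6 cl13 2 4 t0
theorem bx1_0 : BoxOK sI cl5 cl13 cl6 t4 t2 b1_0 :=
  box_mk (TrL.c (I.pos (nat_lit 0) (nat_lit 0)) (xa (xb (xa T4.l0 T4.l0) (xa T4.l0 T4.l0)) (xb (xa T4.l0 T4.l0) (xa T4.l0 T4.l0)))
  (TrL.c (I.pos (nat_lit 0) (nat_lit 0)) (xa (xb T2.l4 T2.l4) (xb T2.l4 T2.l4))
  (TrL.c (I.pos (nat_lit 0) (nat_lit 0)) T4.l5
  (TrL.c (I.pos (nat_lit 0) (nat_lit 0)) T2.l5
  (TrL.c (I.pos (nat_lit 0) (nat_lit 0)) (xa (xb T2.l6 T2.l6) (xb T2.l6 T2.l6))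
  (TrL.c (I.pos (nat_lit 0) (nat_lit 0)) (xa T4.l6 T4.l6)
  (TrL.c (I.pos (nat_lit 0) (nat_lit 0)) T2.l7
  (TrL.c (I.pos (nat_lit 0) (nat_lit 0)) T4.l7
  TrL.n)))))))) (by decide +kernel)
theorem bx1_1 : BoxOK sI cl5 cl13 cl6 t4 t2 b1_1 :=
  box_mk (TrL.c (I.pos (nat_lit 0) (nat_lit 0)) (xa (xa T4.l9 T4.l9) (xa T4.l9 T4.l9))
  (TrL.c (I.pos (nat_lit 0) (nat_lit 0)) (xa T2.l4 T2.l4)
  (TrL.c (I.pos (nat_lit 0) (nat_lit 0)) T4.l5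
  (TrL.c (I.pos (nat_lit 0) (nat_lit 0)) T2.l5
  (TrL.c (I.pos (nat_lit 0) (nat_lit 0)) (xa T2.l9 T2.l9)
  (TrL.c (I.pos (nat_lit 0) (nat_lit 0)) T4.l6
  (TrL.c (I.pos (nat_lit 0) (nat_lit 0)) T2.l7
  (TrL.c (I.pos (nat_lit 0) (nat_lit 0)) T4.l7
  TrL.n)))))))) (by decide +kernel)
theorem bx1_2 : BoxOK sI cl5 cl13 cl6 t4 t2 b1_2 :=
  box_mk (TrL.c (I.pos (nat_lit 0) (nat_lit 0)) T4.l9
  (TrL.c (I.pos (nat_lit 0) (nat_lit 0)) T2.l4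
  (TrL.c (I.pos (nat_lit 0) (nat_lit 0)) T4.l5
  (TrL.c (I.pos (nat_lit 0) (nat_lit 0)) T2.l5
  (TrL.c (I.pos (nat_lit 0) (nat_lit 0)) T2.l9
  (TrL.c (I.pos (nat_lit 0) (nat_lit 0)) T4.l6
  (TrL.c (I.pos (nat_lit 0) (nat_lit 0)) T2.l7
  (TrL.c (I.pos (nat_lit 0) (nat_lit 0)) T4.l7
  TrL.n)))))))) (by decide +kernel)
theorem bx1_3 : BoxOK sI cl5 cl13 cl6 t4 t2 b1_3 :=
  box_mk (TrL.c (I.pos (nat_lit 0) (nat_lit 0)) T4.l9
  (TrL.c (I.pos (nat_lit 0) (nat_lit 0)) (xa T2.l4 T2.l4)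
  (TrL.c (I.pos (nat_lit 0) (nat_lit 0)) T4.l5
  (TrL.c (I.pos (nat_lit 0) (nat_lit 0)) T2.l5
  (TrL.c (I.pos (nat_lit 0) (nat_lit 0)) (xa T2.l9 T2.l9)
  (TrL.c (I.pos (nat_lit 0) (nat_lit 0)) T4.l6
  (TrL.c (I.pos (nat_lit 0) (nat_lit 0)) T2.l7
  (TrL.c (I.pos (nat_lit 0) (nat_lit 0)) T4.l7
  TrL.n)))))))) (by decide +kernel)
theorem bx1_4 : BoxOK sI cl5 cl13 cl6 t4 t2 b1_4 :=
  box_mk (TrL.c (I.pos (nat_lit 0) (nat_lit 0)) (xa T4.l0 (xa T4.l0 T4.l0))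
  (TrL.c (I.pos (nat_lit 0) (nat_lit 0)) (xa T2.l4 T2.l4)
  (TrL.c (I.pos (nat_lit 0) (nat_lit 0)) T4.l5
  (TrL.c (I.pos (nat_lit 0) (nat_lit 0)) T2.l5
  (TrL.c (I.pos (nat_lit 0) (nat_lit 0)) (xa T2.l6 (xb T2.l6 T2.l6))
  (TrL.c (I.pos (nat_lit 0) (nat_lit 0)) (xa T4.l6 T4.l1)
  (TrL.c (I.pos (nat_lit 0) (nat_lit 0)) T2.l7
  (TrL.c (I.pos (nat_lit 0) (nat_lit 0)) T4.l7
  TrL.n)))))))) (by decide +kernel)
theorem bx1_5 : BoxOK sI cl5 cl13 cl6 t4 t2 b1_5 :=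
  box_mk (TrL.c (I.pos (nat_lit 0) (nat_lit 0)) T4.l9
  (TrL.c (I.pos (nat_lit 0) (nat_lit 0)) T2.l4
  (TrL.c (I.pos (nat_lit 0) (nat_lit 0)) T4.l5
  (TrL.c (I.pos (nat_lit 0) (nat_lit 0)) T2.l5
  (TrL.c (I.pos (nat_lit 0) (nat_lit 0)) T2.l9
  (TrL.c (I.pos (nat_lit 0) (nat_lit 0)) T4.l6
  (TrL.c (I.pos (nat_lit 0) (nat_lit 0)) T2.l7
  (TrL.c (I.pos (nat_lit 0) (nat_lit 0)) T4.l7
  TrL.n)))))))) (by decide +kernel)
theorem bx1_6 : BoxOK sI cl5 cl13 cl6 t4 t2 b1_6 :=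
  box_mk (TrL.c (I.pos (nat_lit 0) (nat_lit 0)) T4.l9
  (TrL.c (I.pos (nat_lit 0) (nat_lit 0)) T2.l4
  (TrL.c (I.pos (nat_lit 0) (nat_lit 0)) T4.l5
  (TrL.c (I.pos (nat_lit 0) (nat_lit 0)) T2.l5
  (TrL.c (I.pos (nat_lit 0) (nat_lit 0)) T2.l9
  (TrL.c (I.pos (nat_lit 0) (nat_lit 0)) T4.l6
  (TrL.c (I.pos (nat_lit 0) (nat_lit 0)) T2.l7
  (TrL.c (I.pos (nat_lit 0) (nat_lit 0)) T4.l7
  TrL.n)))))))) (by decide +kernel)
theorem bx1_7 : BoxOK sI cl5 cl13 cl6 t4 t2 b1_7 :=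
  box_mk (TrL.c (I.pos (nat_lit 0) (nat_lit 0)) (xa T4.l9 T4.l0)
  (TrL.c (I.pos (nat_lit 0) (nat_lit 0)) T2.l4
  (TrL.c (I.pos (nat_lit 0) (nat_lit 0)) T4.l5
  (TrL.c (I.pos (nat_lit 0) (nat_lit 0)) T2.l5
  (TrL.c (I.pos (nat_lit 0) (nat_lit 0)) (xa T2.l9 T2.l9)
  (TrL.c (I.pos (nat_lit 0) (nat_lit 0)) T4.l6
  (TrL.c (I.pos (nat_lit 0) (nat_lit 0)) T2.l7
  (TrL.c (I.pos (nat_lit 0) (nat_lit 0)) T4.l7
  TrL.n)))))))) (by decide +kernel)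
theorem bx1_8 : BoxOK sI cl5 cl13 cl6 t4 t2 b1_8 :=
  box_mk (TrL.c (I.pos (nat_lit 0) (nat_lit 0)) (xa (xa T4.l9 T4.l9) T4.l9)
  (TrL.c (I.pos (nat_lit 0) (nat_lit 0)) (xa T2.l4 T2.l4)
  (TrL.c (I.pos (nat_lit 0) (nat_lit 0)) T4.l5
  (TrL.c (I.pos (nat_lit 0) (nat_lit 0)) T2.l5
  (TrL.c (I.pos (nat_lit 0) (nat_lit 0)) (xa T2.l9 T2.l9)
  (TrL.c (I.pos (nat_lit 0) (nat_lit 0)) T4.l6
  (TrL.c (I.pos (nat_lit 0) (nat_lit 0)) T2.l7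
  (TrL.c (I.pos (nat_lit 0) (nat_lit 0)) T4.l7
  TrL.n)))))))) (by decide +kernel)
theorem bx1_9 : BoxOK sI cl5 cl13 cl6 t4 t2 b1_9 :=
  box_mk (TrL.c (I.pos (nat_lit 0) (nat_lit 0)) (xb (xa T4.l10 T4.l10) (xa T4.l10 T4.l10))
  (TrL.c (I.pos (nat_lit 0) (nat_lit 0)) (xb T2.l4 T2.l4)
  (TrL.c (I.pos (nat_lit 0) (nat_lit 0)) T4.l5
  (TrL.c (I.pos (nat_lit 0) (nat_lit 0)) T2.l5
  (TrL.c (I.pos (nat_lit 0) (nat_lit 0)) (xb T2.l10 T2.l10)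
  (TrL.c (I.pos (nat_lit 0) (nat_lit 0)) T4.l6
  (TrL.c (I.pos (nat_lit 0) (nat_lit 0)) T2.l7
  (TrL.c (I.pos (nat_lit 0) (nat_lit 0)) T4.l7
  TrL.n)))))))) (by decide +kernel)
theorem bx1_10 : BoxOK sI cl5 cl13 cl6 t4 t2 b1_10 :=
  box_mk (TrL.c (I.pos (nat_lit 0) (nat_lit 0)) (xa (xa (xb T4.l9 T4.l9) T4.l9) (xa T4.l9 (xb T4.l9 T4.l9)))
  (TrL.c (I.pos (nat_lit 0) (nat_lit 0)) (xa T2.l4 T2.l4)
  (TrL.c (I.pos (nat_lit 0) (nat_lit 0)) T4.l5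
  (TrL.c (I.pos (nat_lit 0) (nat_lit 0)) T2.l5
  (TrL.c (I.pos (nat_lit 0) (nat_lit 0)) (xa T2.l9 T2.l9)
  (TrL.c (I.pos (nat_lit 0) (nat_lit 0)) T4.l6
  (TrL.c (I.pos (nat_lit 0) (nat_lit 0)) T2.l7
  (TrL.c (I.pos (nat_lit 0) (nat_lit 0)) T4.l7
  TrL.n)))))))) (by decide +kernel)
theorem bx1_11 : BoxOK sI cl5 cl13 cl6 t4 t2 b1_11 :=
  box_mk (TrL.c (I.pos (nat_lit 0) (nat_lit 0)) (xa T4.l0 T4.l0)
  (TrL.c (I.pos (nat_lit 0) (nat_lit 0)) T2.l4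
  (TrL.c (I.pos (nat_lit 0) (nat_lit 0)) T4.l5
  (TrL.c (I.pos (nat_lit 0) (nat_lit 0)) T2.l5
  (TrL.c (I.pos (nat_lit 0) (nat_lit 0)) (xa T2.l10 T2.l0)
  (TrL.c (I.pos (nat_lit 0) (nat_lit 0)) T4.l6
  (TrL.c (I.pos (nat_lit 0) (nat_lit 0)) T2.l7
  (TrL.c (I.pos (nat_lit 0) (nat_lit 0)) T4.l7
  TrL.n)))))))) (by decide +kernel)
theorem bx1_12 : BoxOK sI cl5 cl13 cl6 t4 t2 b1_12 :=
  box_mk (TrL.c (I.pos (nat_lit 0) (nat_lit 0)) T4.l10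
  (TrL.c (I.pos (nat_lit 0) (nat_lit 0)) T2.l4
  (TrL.c (I.pos (nat_lit 0) (nat_lit 0)) T4.l5
  (TrL.c (I.pos (nat_lit 0) (nat_lit 0)) T2.l5
  (TrL.c (I.pos (nat_lit 0) (nat_lit 0)) T2.l10
  (TrL.c (I.pos (nat_lit 0) (nat_lit 0)) T4.l6
  (TrL.c (I.pos (nat_lit 0) (nat_lit 0)) T2.l7
  (TrL.c (I.pos (nat_lit 0) (nat_lit 0)) T4.l7
  TrL.n)))))))) (by decide +kernel)
theorem bx1_13 : BoxOK sI cl5 cl13 cl6 t4 t2 b1_13 :=
  box_mk (TrL.c (I.pos (nat_lit 0) (nat_lit 0)) (xa (xb T4.l0 T4.l0) (xb T4.l0 T4.l0))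
  (TrL.c (I.pos (nat_lit 0) (nat_lit 0)) (xa T2.l4 T2.l4)
  (TrL.c (I.pos (nat_lit 0) (nat_lit 0)) T4.l5
  (TrL.c (I.pos (nat_lit 0) (nat_lit 0)) T2.l5
  (TrL.c (I.pos (nat_lit 0) (nat_lit 0)) T2.l6
  (TrL.c (I.pos (nat_lit 0) (nat_lit 0)) T4.l6
  (TrL.c (I.pos (nat_lit 0) (nat_lit 0)) T2.l7
  (TrL.c (I.pos (nat_lit 0) (nat_lit 0)) T4.l7
  TrL.n)))))))) (by decide +kernel)
theorem sv1 : StarV sI cl5 cl13 cl6 t4 t2 t1 :=
  (bt_n (bt_n (bt_n (bt_b bx1_0) (bt_n (bt_b bx1_1) (bt_b bx1_2))) (bt_n (bt_n (bt_b bx1_3) (bt_b bx1_4)) (bt_n (bt_b bx1_5) (bt_b bx1_6)))) (bt_n (bt_n (bt_b bx1_7) (bt_n (bt_b bx1_8) (bt_b bx1_9))) (bt_n (bt_n (bt_b bx1_10) (bt_b bx1_11)) (bt_n (bt_b bx1_12) (bt_b bx1_13)))))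
def S1 : StarD := StarD.mk cl5 cl13 cl6 4 2 t1
theorem bx2_0 : BoxOK sI cl6 cl5 cl13 t0 t5 b2_0 :=
  box_mk (TrL.c (I.pos (nat_lit 0) (nat_lit 0)) (xa (xb T0.l0 (xb T0.l0 T0.l0)) (xb T0.l0 (xa T0.l0 T0.l0)))
  (TrL.c (I.pos (nat_lit 0) (nat_lit 0)) T5.l1
  (TrL.c (I.pos (nat_lit 0) (nat_lit 89480386)) T0.l1
  (TrL.c (I.pos (nat_lit 0) (nat_lit 41530880)) T5.l2
  (TrL.c (I.pos (nat_lit 0) (nat_lit 0)) (xb T5.l3 T5.l3)
  (TrL.c (I.pos (nat_lit 0) (nat_lit 0)) T0.l2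
  (TrL.c (I.mix (nat_lit 41527258) (nat_lit 41530880)) T5.l4
  (TrL.c (I.mix (nat_lit 41527258) (nat_lit 4274)) T0.l3
  TrL.n)))))))) (by decide +kernel)
theorem bx2_1 : BoxOK sI cl6 cl5 cl13 t0 t5 b2_1 :=
  box_mk (TrL.c (I.pos (nat_lit 0) (nat_lit 0)) (xb T0.l4 T0.l4)
  (TrL.c (I.pos (nat_lit 0) (nat_lit 0)) T5.l1
  (TrL.c (I.pos (nat_lit 0) (nat_lit 89480386)) T0.l1
  (TrL.c (I.pos (nat_lit 0) (nat_lit 41530880)) T5.l2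
  (TrL.c (I.pos (nat_lit 0) (nat_lit 0)) T5.l5
  (TrL.c (I.pos (nat_lit 0) (nat_lit 0)) T0.l2
  (TrL.c (I.mix (nat_lit 41527258) (nat_lit 41530880)) T5.l4
  (TrL.c (I.mix (nat_lit 41527258) (nat_lit 4274)) T0.l3
  TrL.n)))))))) (by decide +kernel)
theorem bx2_2 : BoxOK sI cl6 cl5 cl13 t0 t5 b2_2 :=
  box_mk (TrL.c (I.pos (nat_lit 0) (nat_lit 0)) (xb T0.l4 T0.l4)
  (TrL.c (I.pos (nat_lit 0) (nat_lit 0)) T5.l1
  (TrL.c (I.pos (nat_lit 0) (nat_lit 89480386)) T0.l1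
  (TrL.c (I.pos (nat_lit 0) (nat_lit 41530880)) T5.l2
  (TrL.c (I.pos (nat_lit 0) (nat_lit 0)) T5.l5
  (TrL.c (I.pos (nat_lit 0) (nat_lit 0)) T0.l2
  (TrL.c (I.mix (nat_lit 41527258) (nat_lit 41530880)) T5.l4
  (TrL.c (I.mix (nat_lit 41527258) (nat_lit 4274)) T0.l3
  TrL.n)))))))) (by decide +kernel)
theorem bx2_3 : BoxOK sI cl6 cl5 cl13 t0 t5 b2_3 :=
  box_mk (TrL.c (I.pos (nat_lit 0) (nat_lit 0)) T5.l1
  (TrL.c (I.pos (nat_lit 0) (nat_lit 0)) T0.l1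
  (TrL.c (I.mix (nat_lit 41527258) (nat_lit 41530880)) T5.l6
  (TrL.c (I.mix (nat_lit 41527258) (nat_lit 4274)) T0.l5
  TrL.n)))) (by decide +kernel)
theorem bx2_4 : BoxOK sI cl6 cl5 cl13 t0 t5 b2_4 :=
  box_mk (TrL.c (I.pos (nat_lit 0) (nat_lit 0)) (xa T0.l4 T0.l4)
  (TrL.c (I.pos (nat_lit 0) (nat_lit 0)) T5.l1
  (TrL.c (I.pos (nat_lit 0) (nat_lit 89480386)) T0.l1
  (TrL.c (I.pos (nat_lit 0) (nat_lit 41530880)) T5.l2
  (TrL.c (I.pos (nat_lit 0) (nat_lit 0)) T5.l5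
  (TrL.c (I.pos (nat_lit 0) (nat_lit 0)) T0.l2
  (TrL.c (I.mix (nat_lit 41527258) (nat_lit 41530880)) T5.l4
  (TrL.c (I.mix (nat_lit 41527258) (nat_lit 4274)) T0.l3
  TrL.n)))))))) (by decide +kernel)
theorem bx2_5 : BoxOK sI cl6 cl5 cl13 t0 t5 b2_5 :=
  box_mk (TrL.c (I.pos (nat_lit 0) (nat_lit 0)) T5.l7
  (TrL.c (I.pos (nat_lit 0) (nat_lit 0)) T0.l1
  (TrL.c (I.mix (nat_lit 41527258) (nat_lit 41530880)) T5.l6
  (TrL.c (I.mix (nat_lit 41527258) (nat_lit 4274)) T0.l9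
  TrL.n)))) (by decide +kernel)
theorem bx2_6 : BoxOK sI cl6 cl5 cl13 t0 t5 b2_6 :=
  box_mk (TrL.c (I.pos (nat_lit 0) (nat_lit 0)) (xa (xb T0.l11 T0.l11) (xb T0.l11 T0.l11))
  (TrL.c (I.pos (nat_lit 0) (nat_lit 0)) T5.l1
  (TrL.c (I.pos (nat_lit 0) (nat_lit 89480386)) T0.l1
  (TrL.c (I.pos (nat_lit 0) (nat_lit 41530880)) T5.l2
  (TrL.c (I.pos (nat_lit 0) (nat_lit 0)) T5.l11
  (TrL.c (I.pos (nat_lit 0) (nat_lit 0)) T0.l2
  (TrL.c (I.mix (nat_lit 41527258) (nat_lit 41530880)) T5.l4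
  (TrL.c (I.mix (nat_lit 41527258) (nat_lit 4274)) T0.l7
  TrL.n)))))))) (by decide +kernel)
theorem bx2_7 : BoxOK sI cl6 cl5 cl13 t0 t5 b2_7 :=
  box_mk (TrL.c (I.pos (nat_lit 0) (nat_lit 0)) (xb T0.l4 T0.l4)
  (TrL.c (I.pos (nat_lit 0) (nat_lit 0)) T5.l7
  (TrL.c (I.pos (nat_lit 0) (nat_lit 89480386)) T0.l1
  (TrL.c (I.pos (nat_lit 0) (nat_lit 41530880)) T5.l6
  (TrL.c (I.pos (nat_lit 0) (nat_lit 0)) T5.l5
  (TrL.c (I.pos (nat_lit 0) (nat_lit 0)) T0.l2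
  (TrL.c (I.mix (nat_lit 41527258) (nat_lit 41530880)) T5.l4
  (TrL.c (I.mix (nat_lit 41527258) (nat_lit 4274)) T0.l3
  TrL.n)))))))) (by decide +kernel)
theorem bx2_8 : BoxOK sI cl6 cl5 cl13 t0 t5 b2_8 :=
  box_mk (TrL.c (I.pos (nat_lit 0) (nat_lit 0)) (xa (xb (xa T0.l0 T0.l0) (xa T0.l0 T0.l0)) (xb (xa T0.l0 T0.l0) (xa T0.l0 T0.l0)))
  (TrL.c (I.pos (nat_lit 0) (nat_lit 0)) (xa T5.l1 T5.l9)
  (TrL.c (I.pos (nat_lit 0) (nat_lit 89480386)) T0.l1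
  (TrL.c (I.pos (nat_lit 0) (nat_lit 41530880)) T5.l2
  (TrL.c (I.pos (nat_lit 0) (nat_lit 0)) (xb (xa T5.l0 T5.l0) (xa T5.l3 (xa T5.l3 T5.l3)))
  (TrL.c (I.pos (nat_lit 0) (nat_lit 0)) (xb T0.l2 T0.l2)
  (TrL.c (I.mix (nat_lit 41527258) (nat_lit 41530880)) T5.l4
  (TrL.c (I.mix (nat_lit 41527258) (nat_lit 4274)) T0.l3
  TrL.n)))))))) (by decide +kernel)
theorem bx2_9 : BoxOK sI cl6 cl5 cl13 t0 t5 b2_9 :=
  box_mk (TrL.c (I.pos (nat_lit 0) (nat_lit 0)) (xa T0.l11 T0.l0)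
  (TrL.c (I.pos (nat_lit 0) (nat_lit 0)) T5.l1
  (TrL.c (I.pos (nat_lit 0) (nat_lit 89480386)) T0.l1
  (TrL.c (I.pos (nat_lit 0) (nat_lit 41530880)) T5.l2
  (TrL.c (I.pos (nat_lit 0) (nat_lit 0)) T5.l11
  (TrL.c (I.pos (nat_lit 0) (nat_lit 0)) T0.l2
  (TrL.c (I.mix (nat_lit 41527258) (nat_lit 41530880)) T5.l4
  (TrL.c (I.mix (nat_lit 41527258) (nat_lit 4274)) T0.l3
  TrL.n)))))))) (by decide +kernel)
theorem bx2_10 : BoxOK sI cl6 cl5 cl13 t0 t5 b2_10 :=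
  box_mk (TrL.c (I.pos (nat_lit 0) (nat_lit 0)) T0.l11
  (TrL.c (I.pos (nat_lit 0) (nat_lit 0)) T5.l1
  (TrL.c (I.pos (nat_lit 0) (nat_lit 89480386)) T0.l1
  (TrL.c (I.pos (nat_lit 0) (nat_lit 41530880)) T5.l2
  (TrL.c (I.pos (nat_lit 0) (nat_lit 0)) T5.l11
  (TrL.c (I.pos (nat_lit 0) (nat_lit 0)) T0.l2
  (TrL.c (I.mix (nat_lit 41527258) (nat_lit 41530880)) T5.l4
  (TrL.c (I.mix (nat_lit 41527258) (nat_lit 4274)) T0.l3
  TrL.n)))))))) (by decide +kernel)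
theorem bx2_11 : BoxOK sI cl6 cl5 cl13 t0 t5 b2_11 :=
  box_mk (TrL.c (I.pos (nat_lit 0) (nat_lit 0)) (xa (xb T0.l0 T0.l0) (xb T0.l0 T0.l0))
  (TrL.c (I.pos (nat_lit 0) (nat_lit 0)) T5.l1
  (TrL.c (I.pos (nat_lit 0) (nat_lit 89480386)) T0.l1
  (TrL.c (I.pos (nat_lit 0) (nat_lit 41530880)) T5.l2
  (TrL.c (I.pos (nat_lit 0) (nat_lit 0)) T5.l3
  (TrL.c (I.pos (nat_lit 0) (nat_lit 0)) T0.l2
  (TrL.c (I.mix (nat_lit 41527258) (nat_lit 41530880)) T5.l4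
  (TrL.c (I.mix (nat_lit 41527258) (nat_lit 4274)) T0.l7
  TrL.n)))))))) (by decide +kernel)
theorem sv2 : StarV sI cl6 cl5 cl13 t0 t5 t2 :=
  (bt_n (bt_n (bt_n (bt_b bx2_0) (bt_n (bt_b bx2_1) (bt_b bx2_2))) (bt_n (bt_b bx2_3) (bt_n (bt_b bx2_4) (bt_b bx2_5)))) (bt_n (bt_n (bt_b bx2_6) (bt_n (bt_b bx2_7) (bt_b bx2_8))) (bt_n (bt_b bx2_9) (bt_n (bt_b bx2_10) (bt_b bx2_11)))))
def S2 : StarD := StarD.mk cl6 cl5 cl13 0 5 t2
theorem bx3_0 : BoxOK sI cl6 cl13 cl5 t5 t0 b3_0 :=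
  box_mk (TrL.c (I.pos (nat_lit 0) (nat_lit 0)) (xa (xa (xb T5.l0 T5.l0) (xb T5.l0 T5.l0)) (xa (xb T5.l0 T5.l0) (xb T5.l0 T5.l0)))
  (TrL.c (I.pos (nat_lit 0) (nat_lit 0)) (xa T0.l6 T0.l6)
  (TrL.c (I.pos (nat_lit 0) (nat_lit 89480386)) T5.l8
  (TrL.c (I.pos (nat_lit 0) (nat_lit 41530880)) T0.l7
  (TrL.c (I.pos (nat_lit 0) (nat_lit 0)) (xa T0.l8 (xb T0.l8 T0.l8))
  (TrL.c (I.pos (nat_lit 0) (nat_lit 0)) T5.l9
  (TrL.c (I.mix (nat_lit 41527258) (nat_lit 41530880)) T0.l9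
  (TrL.c (I.mix (nat_lit 41527258) (nat_lit 4274)) T5.l10
  TrL.n)))))))) (by decide +kernel)
theorem bx3_1 : BoxOK sI cl6 cl13 cl5 t5 t0 b3_1 :=
  box_mk (TrL.c (I.pos (nat_lit 0) (nat_lit 0)) T5.l12
  (TrL.c (I.pos (nat_lit 0) (nat_lit 0)) T0.l6
  (TrL.c (I.pos (nat_lit 0) (nat_lit 89480386)) T5.l8
  (TrL.c (I.pos (nat_lit 0) (nat_lit 41530880)) T0.l7
  (TrL.c (I.pos (nat_lit 0) (nat_lit 0)) T0.l12
  (TrL.c (I.pos (nat_lit 0) (nat_lit 0)) T5.l9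
  (TrL.c (I.mix (nat_lit 41527258) (nat_lit 41530880)) T0.l9
  (TrL.c (I.mix (nat_lit 41527258) (nat_lit 4274)) T5.l10
  TrL.n)))))))) (by decide +kernel)
theorem bx3_2 : BoxOK sI cl6 cl13 cl5 t5 t0 b3_2 :=
  box_mk (TrL.c (I.pos (nat_lit 0) (nat_lit 0)) (xa (xa T5.l12 T5.l12) T5.l12)
  (TrL.c (I.pos (nat_lit 0) (nat_lit 0)) (xa T0.l6 T0.l6)
  (TrL.c (I.pos (nat_lit 0) (nat_lit 89480386)) T5.l8
  (TrL.c (I.pos (nat_lit 0) (nat_lit 41530880)) T0.l7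
  (TrL.c (I.pos (nat_lit 0) (nat_lit 0)) (xa T0.l12 T0.l12)
  (TrL.c (I.pos (nat_lit 0) (nat_lit 0)) T5.l9
  (TrL.c (I.mix (nat_lit 41527258) (nat_lit 41530880)) T0.l9
  (TrL.c (I.mix (nat_lit 41527258) (nat_lit 4274)) T5.l10
  TrL.n)))))))) (by decide +kernel)
theorem bx3_3 : BoxOK sI cl6 cl13 cl5 t5 t0 b3_3 :=
  box_mk (TrL.c (I.pos (nat_lit 0) (nat_lit 0)) (xb T5.l13 (xa T5.l13 T5.l13))
  (TrL.c (I.pos (nat_lit 0) (nat_lit 0)) T0.l6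
  (TrL.c (I.pos (nat_lit 0) (nat_lit 89480386)) T5.l8
  (TrL.c (I.pos (nat_lit 0) (nat_lit 41530880)) T0.l7
  (TrL.c (I.pos (nat_lit 0) (nat_lit 0)) T0.l13
  (TrL.c (I.pos (nat_lit 0) (nat_lit 0)) T5.l9
  (TrL.c (I.mix (nat_lit 41527258) (nat_lit 41530880)) T0.l9
  (TrL.c (I.mix (nat_lit 41527258) (nat_lit 4274)) T5.l10
  TrL.n)))))))) (by decide +kernel)
theorem bx3_4 : BoxOK sI cl6 cl13 cl5 t5 t0 b3_4 :=
  box_mk (TrL.c (I.pos (nat_lit 0) (nat_lit 0)) (xa (xa (xb T5.l12 T5.l12) T5.l12) (xa T5.l12 T5.l12))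
  (TrL.c (I.pos (nat_lit 0) (nat_lit 0)) (xa T0.l6 T0.l6)
  (TrL.c (I.pos (nat_lit 0) (nat_lit 89480386)) T5.l8
  (TrL.c (I.pos (nat_lit 0) (nat_lit 41530880)) T0.l7
  (TrL.c (I.pos (nat_lit 0) (nat_lit 0)) (xa T0.l12 T0.l12)
  (TrL.c (I.pos (nat_lit 0) (nat_lit 0)) T5.l9
  (TrL.c (I.mix (nat_lit 41527258) (nat_lit 41530880)) T0.l9
  (TrL.c (I.mix (nat_lit 41527258) (nat_lit 4274)) T5.l10
  TrL.n)))))))) (by decide +kernel)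
theorem bx3_5 : BoxOK sI cl6 cl13 cl5 t5 t0 b3_5 :=
  box_mk (TrL.c (I.pos (nat_lit 0) (nat_lit 0)) T5.l0
  (TrL.c (I.pos (nat_lit 0) (nat_lit 0)) T0.l6
  (TrL.c (I.pos (nat_lit 0) (nat_lit 89480386)) T5.l8
  (TrL.c (I.pos (nat_lit 0) (nat_lit 41530880)) T0.l7
  (TrL.c (I.pos (nat_lit 0) (nat_lit 0)) T0.l13
  (TrL.c (I.pos (nat_lit 0) (nat_lit 0)) T5.l9
  (TrL.c (I.mix (nat_lit 41527258) (nat_lit 41530880)) T0.l9
  (TrL.c (I.mix (nat_lit 41527258) (nat_lit 4274)) T5.l10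
  TrL.n)))))))) (by decide +kernel)
theorem bx3_6 : BoxOK sI cl6 cl13 cl5 t5 t0 b3_6 :=
  box_mk (TrL.c (I.pos (nat_lit 0) (nat_lit 0)) T5.l12
  (TrL.c (I.pos (nat_lit 0) (nat_lit 0)) T0.l6
  (TrL.c (I.pos (nat_lit 0) (nat_lit 89480386)) T5.l8
  (TrL.c (I.pos (nat_lit 0) (nat_lit 41530880)) T0.l7
  (TrL.c (I.pos (nat_lit 0) (nat_lit 0)) T0.l12
  (TrL.c (I.pos (nat_lit 0) (nat_lit 0)) T5.l9
  (TrL.c (I.mix (nat_lit 41527258) (nat_lit 41530880)) T0.l9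
  (TrL.c (I.mix (nat_lit 41527258) (nat_lit 4274)) T5.l10
  TrL.n)))))))) (by decide +kernel)
theorem bx3_7 : BoxOK sI cl6 cl13 cl5 t5 t0 b3_7 :=
  box_mk (TrL.c (I.pos (nat_lit 0) (nat_lit 0)) (xa T5.l12 T5.l12)
  (TrL.c (I.pos (nat_lit 0) (nat_lit 0)) (xa T0.l6 T0.l6)
  (TrL.c (I.pos (nat_lit 0) (nat_lit 89480386)) T5.l8
  (TrL.c (I.pos (nat_lit 0) (nat_lit 41530880)) T0.l7
  (TrL.c (I.pos (nat_lit 0) (nat_lit 0)) (xa T0.l12 T0.l12)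
  (TrL.c (I.pos (nat_lit 0) (nat_lit 0)) T5.l9
  (TrL.c (I.mix (nat_lit 41527258) (nat_lit 41530880)) T0.l9
  (TrL.c (I.mix (nat_lit 41527258) (nat_lit 4274)) T5.l10
  TrL.n)))))))) (by decide +kernel)
theorem bx3_8 : BoxOK sI cl6 cl13 cl5 t5 t0 b3_8 :=
  box_mk (TrL.c (I.pos (nat_lit 0) (nat_lit 0)) (xa T5.l12 (xa T5.l12 T5.l12))
  (TrL.c (I.pos (nat_lit 0) (nat_lit 0)) (xa T0.l6 T0.l6)
  (TrL.c (I.pos (nat_lit 0) (nat_lit 89480386)) T5.l8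
  (TrL.c (I.pos (nat_lit 0) (nat_lit 41530880)) T0.l7
  (TrL.c (I.pos (nat_lit 0) (nat_lit 0)) T0.l12
  (TrL.c (I.pos (nat_lit 0) (nat_lit 0)) T5.l9
  (TrL.c (I.mix (nat_lit 41527258) (nat_lit 41530880)) T0.l9
  (TrL.c (I.mix (nat_lit 41527258) (nat_lit 4274)) T5.l10
  TrL.n)))))))) (by decide +kernel)
theorem bx3_9 : BoxOK sI cl6 cl13 cl5 t5 t0 b3_9 :=
  box_mk (TrL.c (I.pos (nat_lit 0) (nat_lit 0)) T5.l12
  (TrL.c (I.pos (nat_lit 0) (nat_lit 0)) T0.l6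
  (TrL.c (I.pos (nat_lit 0) (nat_lit 89480386)) T5.l8
  (TrL.c (I.pos (nat_lit 0) (nat_lit 41530880)) T0.l7
  (TrL.c (I.pos (nat_lit 0) (nat_lit 0)) T0.l12
  (TrL.c (I.pos (nat_lit 0) (nat_lit 0)) T5.l9
  (TrL.c (I.mix (nat_lit 41527258) (nat_lit 41530880)) T0.l9
  (TrL.c (I.mix (nat_lit 41527258) (nat_lit 4274)) T5.l10
  TrL.n)))))))) (by decide +kernel)
theorem bx3_10 : BoxOK sI cl6 cl13 cl5 t5 t0 b3_10 :=
  box_mk (TrL.c (I.pos (nat_lit 0) (nat_lit 0)) (xa T5.l12 T5.l12)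
  (TrL.c (I.pos (nat_lit 0) (nat_lit 0)) (xa T0.l6 T0.l6)
  (TrL.c (I.pos (nat_lit 0) (nat_lit 89480386)) T5.l8
  (TrL.c (I.pos (nat_lit 0) (nat_lit 41530880)) T0.l7
  (TrL.c (I.pos (nat_lit 0) (nat_lit 0)) (xa T0.l12 T0.l12)
  (TrL.c (I.pos (nat_lit 0) (nat_lit 0)) T5.l9
  (TrL.c (I.mix (nat_lit 41527258) (nat_lit 41530880)) T0.l9
  (TrL.c (I.mix (nat_lit 41527258) (nat_lit 4274)) T5.l10
  TrL.n)))))))) (by decide +kernel)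
theorem bx3_11 : BoxOK sI cl6 cl13 cl5 t5 t0 b3_11 :=
  box_mk (TrL.c (I.pos (nat_lit 0) (nat_lit 0)) (xa T5.l0 (xb T5.l0 T5.l0))
  (TrL.c (I.pos (nat_lit 0) (nat_lit 0)) (xa (xb T0.l6 T0.l6) (xb T0.l2 T0.l2))
  (TrL.c (I.pos (nat_lit 0) (nat_lit 89480386)) (xR T5.l8 T5.l8)
  (TrL.c (I.pos (nat_lit 0) (nat_lit 41530880)) T0.l7
  (TrL.c (I.pos (nat_lit 0) (nat_lit 0)) (xa (xb T0.l8 T0.l8) (xb (xa T0.l8 T0.l8) (xa T0.l8 T0.l8)))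
  (TrL.c (I.pos (nat_lit 0) (nat_lit 0)) (xa T5.l9 T5.l9)
  (TrL.c (I.mix (nat_lit 41527258) (nat_lit 41530880)) (xR T0.l1 T0.l1)
  (TrL.c (I.mix (nat_lit 41527258) (nat_lit 4274)) T5.l10
  TrL.n)))))))) (by decide +kernel)
theorem bx3_12 : BoxOK sI cl6 cl13 cl5 t5 t0 b3_12 :=
  box_mk (TrL.c (I.pos (nat_lit 0) (nat_lit 0)) (xa T5.l0 T5.l0)
  (TrL.c (I.pos (nat_lit 0) (nat_lit 0)) T0.l6
  (TrL.c (I.pos (nat_lit 0) (nat_lit 89480386)) T5.l8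
  (TrL.c (I.pos (nat_lit 0) (nat_lit 41530880)) T0.l7
  (TrL.c (I.pos (nat_lit 0) (nat_lit 0)) (xa T0.l8 T0.l8)
  (TrL.c (I.pos (nat_lit 0) (nat_lit 0)) T5.l9
  (TrL.c (I.mix (nat_lit 41527258) (nat_lit 41530880)) T0.l9
  (TrL.c (I.mix (nat_lit 41527258) (nat_lit 4274)) T5.l10
  TrL.n)))))))) (by decide +kernel)
theorem bx3_13 : BoxOK sI cl6 cl13 cl5 t5 t0 b3_13 :=
  box_mk (TrL.c (I.pos (nat_lit 0) (nat_lit 0)) T5.l0
  (TrL.c (I.pos (nat_lit 0) (nat_lit 0)) T0.l6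
  (TrL.c (I.pos (nat_lit 0) (nat_lit 89480386)) T5.l8
  (TrL.c (I.pos (nat_lit 0) (nat_lit 41530880)) T0.l7
  (TrL.c (I.pos (nat_lit 0) (nat_lit 0)) T0.l13
  (TrL.c (I.pos (nat_lit 0) (nat_lit 0)) T5.l9
  (TrL.c (I.mix (nat_lit 41527258) (nat_lit 41530880)) T0.l9
  (TrL.c (I.mix (nat_lit 41527258) (nat_lit 4274)) T5.l10
  TrL.n)))))))) (by decide +kernel)
theorem sv3 : StarV sI cl6 cl13 cl5 t5 t0 t3 :=
  (bt_n (bt_n (bt_n (bt_b bx3_0) (bt_n (bt_b bx3_1) (bt_b bx3_2))) (bt_n (bt_n (bt_b bx3_3) (bt_b bx3_4)) (bt_n (bt_b bx3_5) (bt_b bx3_6)))) (bt_n (bt_n (bt_b bx3_7) (bt_n (bt_b bx3_8) (bt_b bx3_9))) (bt_n (bt_n (bt_b bx3_10) (bt_b bx3_11)) (bt_n (bt_b bx3_12) (bt_b bx3_13)))))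
def S3 : StarD := StarD.mk cl6 cl13 cl5 5 0 t3
theorem bx4_0 : BoxOK sI cl13 cl5 cl6 t1 t3 b4_0 :=
  box_mk (TrL.c (I.pos (nat_lit 0) (nat_lit 0)) (xa (xb T1.l0 T1.l0) (xb T1.l0 T1.l0))
  (TrL.c (I.pos (nat_lit 0) (nat_lit 0)) (xa (xk T3.l1 T3.l1) (xk T3.l1 T3.l1))
  (TrL.c (I.pos (nat_lit 0) (nat_lit 134217730)) (xR T1.l1 T1.l1)
  (TrL.c (I.pos (nat_lit 0) (nat_lit 110514882)) (xR T3.l2 T3.l2)
  (TrL.c (I.pos (nat_lit 0) (nat_lit 0)) (xa (xk T3.l3 T3.l3) (xb (xk T3.l3 T3.l3) (xk T3.l3 (xa T3.l3 T3.l3))))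
  (TrL.c (I.pos (nat_lit 0) (nat_lit 0)) T1.l2
  (TrL.c (I.mix (nat_lit 8088324) (nat_lit 110514882)) (xR T3.l4 T3.l4)
  (TrL.c (I.mix (nat_lit 8088324) (nat_lit 89478486)) T1.l3
  TrL.n)))))))) (by decide +kernel)
theorem bx4_1 : BoxOK sI cl13 cl5 cl6 t1 t3 b4_1 :=
  box_mk (TrL.c (I.pos (nat_lit 0) (nat_lit 0)) T1.l4
  (TrL.c (I.pos (nat_lit 0) (nat_lit 0)) T3.l1
  (TrL.c (I.pos (nat_lit 0) (nat_lit 134217730)) (xR T1.l1 T1.l1)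
  (TrL.c (I.pos (nat_lit 0) (nat_lit 110514882)) (xR T3.l2 T3.l2)
  (TrL.c (I.pos (nat_lit 0) (nat_lit 0)) (xa T3.l5 T3.l5)
  (TrL.c (I.pos (nat_lit 0) (nat_lit 0)) T1.l2
  (TrL.c (I.mix (nat_lit 8088324) (nat_lit 110514882)) (xR T3.l4 T3.l4)
  (TrL.c (I.mix (nat_lit 8088324) (nat_lit 89478486)) T1.l3
  TrL.n)))))))) (by decide +kernel)
theorem bx4_2 : BoxOK sI cl13 cl5 cl6 t1 t3 b4_2 :=
  box_mk (TrL.c (I.pos (nat_lit 0) (nat_lit 0)) T3.l1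
  (TrL.c (I.pos (nat_lit 0) (nat_lit 0)) T1.l1
  (TrL.c (I.mix (nat_lit 8088324) (nat_lit 110514882)) T3.l2
  (TrL.c (I.mix (nat_lit 8088324) (nat_lit 89478486)) T1.l8
  TrL.n)))) (by decide +kernel)
theorem bx4_3 : BoxOK sI cl13 cl5 cl6 t1 t3 b4_3 :=
  box_mk (TrL.c (I.pos (nat_lit 0) (nat_lit 0)) (xb T1.l13 T1.l0)
  (TrL.c (I.pos (nat_lit 0) (nat_lit 0)) T3.l1
  (TrL.c (I.pos (nat_lit 0) (nat_lit 134217730)) (xR T1.l1 T1.l1)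
  (TrL.c (I.pos (nat_lit 0) (nat_lit 110514882)) (xR T3.l2 T3.l2)
  (TrL.c (I.pos (nat_lit 0) (nat_lit 0)) (xk T3.l3 T3.l13)
  (TrL.c (I.pos (nat_lit 0) (nat_lit 0)) T1.l2
  (TrL.c (I.mix (nat_lit 8088324) (nat_lit 110514882)) (xR T3.l4 T3.l4)
  (TrL.c (I.mix (nat_lit 8088324) (nat_lit 89478486)) T1.l3
  TrL.n)))))))) (by decide +kernel)
theorem bx4_4 : BoxOK sI cl13 cl5 cl6 t1 t3 b4_4 :=
  box_mk (TrL.c (I.pos (nat_lit 0) (nat_lit 0)) T1.l4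
  (TrL.c (I.pos (nat_lit 0) (nat_lit 0)) T3.l1
  (TrL.c (I.pos (nat_lit 0) (nat_lit 134217730)) T1.l1
  (TrL.c (I.pos (nat_lit 0) (nat_lit 110514882)) T3.l2
  (TrL.c (I.pos (nat_lit 0) (nat_lit 0)) T3.l5
  (TrL.c (I.pos (nat_lit 0) (nat_lit 0)) T1.l2
  (TrL.c (I.mix (nat_lit 8088324) (nat_lit 110514882)) T3.l4
  (TrL.c (I.mix (nat_lit 8088324) (nat_lit 89478486)) T1.l3
  TrL.n)))))))) (by decide +kernel)
theorem bx4_5 : BoxOK sI cl13 cl5 cl6 t1 t3 b4_5 :=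
  box_mk (TrL.c (I.pos (nat_lit 0) (nat_lit 0)) T1.l4
  (TrL.c (I.pos (nat_lit 0) (nat_lit 0)) T3.l1
  (TrL.c (I.pos (nat_lit 0) (nat_lit 134217730)) T1.l1
  (TrL.c (I.pos (nat_lit 0) (nat_lit 110514882)) T3.l2
  (TrL.c (I.pos (nat_lit 0) (nat_lit 0)) T3.l5
  (TrL.c (I.pos (nat_lit 0) (nat_lit 0)) T1.l2
  (TrL.c (I.mix (nat_lit 8088324) (nat_lit 110514882)) T3.l4
  (TrL.c (I.mix (nat_lit 8088324) (nat_lit 89478486)) T1.l3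
  TrL.n)))))))) (by decide +kernel)
theorem bx4_6 : BoxOK sI cl13 cl5 cl6 t1 t3 b4_6 :=
  box_mk (TrL.c (I.pos (nat_lit 0) (nat_lit 0)) T1.l4
  (TrL.c (I.pos (nat_lit 0) (nat_lit 0)) T3.l1
  (TrL.c (I.pos (nat_lit 0) (nat_lit 134217730)) (xR T1.l1 T1.l1)
  (TrL.c (I.pos (nat_lit 0) (nat_lit 110514882)) T3.l2
  (TrL.c (I.pos (nat_lit 0) (nat_lit 0)) T3.l5
  (TrL.c (I.pos (nat_lit 0) (nat_lit 0)) T1.l2
  (TrL.c (I.mix (nat_lit 8088324) (nat_lit 110514882)) T3.l4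
  (TrL.c (I.mix (nat_lit 8088324) (nat_lit 89478486)) T1.l3
  TrL.n)))))))) (by decide +kernel)
theorem bx4_7 : BoxOK sI cl13 cl5 cl6 t1 t3 b4_7 :=
  box_mk (TrL.c (I.pos (nat_lit 0) (nat_lit 0)) T3.l1
  (TrL.c (I.pos (nat_lit 0) (nat_lit 0)) T1.l1
  (TrL.c (I.mix (nat_lit 8088324) (nat_lit 110514882)) (xR T3.l7 T3.l2)
  (TrL.c (I.mix (nat_lit 8088324) (nat_lit 89478486)) T1.l10
  TrL.n)))) (by decide +kernel)
theorem bx4_8 : BoxOK sI cl13 cl5 cl6 t1 t3 b4_8 :=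
  box_mk (TrL.c (I.pos (nat_lit 0) (nat_lit 0)) T1.l13
  (TrL.c (I.pos (nat_lit 0) (nat_lit 0)) T3.l1
  (TrL.c (I.pos (nat_lit 0) (nat_lit 134217730)) (xR T1.l1 T1.l1)
  (TrL.c (I.pos (nat_lit 0) (nat_lit 110514882)) (xR T3.l2 T3.l2)
  (TrL.c (I.pos (nat_lit 0) (nat_lit 0)) (xk T3.l13 T3.l13)
  (TrL.c (I.pos (nat_lit 0) (nat_lit 0)) T1.l2
  (TrL.c (I.mix (nat_lit 8088324) (nat_lit 110514882)) T3.l4
  (TrL.c (I.mix (nat_lit 8088324) (nat_lit 89478486)) T1.l3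
  TrL.n)))))))) (by decide +kernel)
theorem bx4_9 : BoxOK sI cl13 cl5 cl6 t1 t3 b4_9 :=
  box_mk (TrL.c (I.pos (nat_lit 0) (nat_lit 0)) (xa T1.l0 (xb T1.l0 T1.l0))
  (TrL.c (I.pos (nat_lit 0) (nat_lit 0)) (xa (xb T3.l1 T3.l1) (xk (xb T3.l1 T3.l1) T3.l1))
  (TrL.c (I.pos (nat_lit 0) (nat_lit 134217730)) (xR T1.l10 T1.l10)
  (TrL.c (I.pos (nat_lit 0) (nat_lit 110514882)) (xR T3.l2 T3.l2)
  (TrL.c (I.pos (nat_lit 0) (nat_lit 0)) (xa (xb (xk (xa T3.l3 T3.l3) T3.l3) (xk T3.l3 T3.l3)) (xb (xk (xa T3.l3 T3.l3) (xa T3.l3 T3.l3)) (xk (xa T3.l3 T3.l3) (xa T3.l3 T3.l3))))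
  (TrL.c (I.pos (nat_lit 0) (nat_lit 0)) (xk (xa T1.l2 T1.l2) T1.l2)
  (TrL.c (I.mix (nat_lit 8088324) (nat_lit 110514882)) (xR T3.l4 (xR T3.l4 T3.l4))
  (TrL.c (I.mix (nat_lit 8088324) (nat_lit 89478486)) T1.l3
  TrL.n)))))))) (by decide +kernel)
theorem bx4_10 : BoxOK sI cl13 cl5 cl6 t1 t3 b4_10 :=
  box_mk (TrL.c (I.pos (nat_lit 0) (nat_lit 0)) (xa T1.l0 T1.l0)
  (TrL.c (I.pos (nat_lit 0) (nat_lit 0)) (xk T3.l1 T3.l1)
  (TrL.c (I.pos (nat_lit 0) (nat_lit 134217730)) (xR T1.l1 T1.l1)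
  (TrL.c (I.pos (nat_lit 0) (nat_lit 110514882)) (xR T3.l2 T3.l2)
  (TrL.c (I.pos (nat_lit 0) (nat_lit 0)) (xk T3.l3 T3.l3)
  (TrL.c (I.pos (nat_lit 0) (nat_lit 0)) T1.l2
  (TrL.c (I.mix (nat_lit 8088324) (nat_lit 110514882)) (xR T3.l4 T3.l4)
  (TrL.c (I.mix (nat_lit 8088324) (nat_lit 89478486)) T1.l3
  TrL.n)))))))) (by decide +kernel)
theorem bx4_11 : BoxOK sI cl13 cl5 cl6 t1 t3 b4_11 :=
  box_mk (TrL.c (I.pos (nat_lit 0) (nat_lit 0)) T1.l13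
  (TrL.c (I.pos (nat_lit 0) (nat_lit 0)) T3.l1
  (TrL.c (I.pos (nat_lit 0) (nat_lit 134217730)) (xR T1.l1 T1.l1)
  (TrL.c (I.pos (nat_lit 0) (nat_lit 110514882)) (xR T3.l2 T3.l2)
  (TrL.c (I.pos (nat_lit 0) (nat_lit 0)) T3.l13
  (TrL.c (I.pos (nat_lit 0) (nat_lit 0)) T1.l2
  (TrL.c (I.mix (nat_lit 8088324) (nat_lit 110514882)) (xR T3.l4 T3.l4)
  (TrL.c (I.mix (nat_lit 8088324) (nat_lit 89478486)) T1.l3
  TrL.n)))))))) (by decide +kernel)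
theorem sv4 : StarV sI cl13 cl5 cl6 t1 t3 t4 :=
  (bt_n (bt_n (bt_n (bt_b bx4_0) (bt_n (bt_b bx4_1) (bt_b bx4_2))) (bt_n (bt_b bx4_3) (bt_n (bt_b bx4_4) (bt_b bx4_5)))) (bt_n (bt_n (bt_b bx4_6) (bt_n (bt_b bx4_7) (bt_b bx4_8))) (bt_n (bt_b bx4_9) (bt_n (bt_b bx4_10) (bt_b bx4_11)))))
def S4 : StarD := StarD.mk cl13 cl5 cl6 1 3 t4
theorem bx5_0 : BoxOK sI cl13 cl6 cl5 t3 t1 b5_0 :=
  box_mk (TrL.c (I.pos (nat_lit 0) (nat_lit 0)) (xa (xb T3.l0 T3.l0) (xb T3.l0 (xa T3.l0 T3.l0)))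
  (TrL.c (I.pos (nat_lit 0) (nat_lit 0)) (xa (xk T1.l7 T1.l7) (xk T1.l7 T1.l7))
  (TrL.c (I.pos (nat_lit 0) (nat_lit 134217730)) (xR T3.l4 T3.l8)
  (TrL.c (I.pos (nat_lit 0) (nat_lit 110514882)) (xR T1.l8 T1.l8)
  (TrL.c (I.pos (nat_lit 0) (nat_lit 0)) (xa (xk T1.l9 T1.l9) (xk (xb T1.l9 (xa T1.l9 T1.l9)) (xb T1.l9 (xa T1.l9 (xk T1.l9 T1.l9)))))
  (TrL.c (I.pos (nat_lit 0) (nat_lit 0)) T3.l9
  (TrL.c (I.mix (nat_lit 8088324) (nat_lit 110514882)) (xR T1.l10 T1.l10)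
  (TrL.c (I.mix (nat_lit 8088324) (nat_lit 89478486)) T3.l10
  TrL.n)))))))) (by decide +kernel)
theorem bx5_1 : BoxOK sI cl13 cl6 cl5 t3 t1 b5_1 :=
  box_mk (TrL.c (I.pos (nat_lit 0) (nat_lit 0)) T3.l11
  (TrL.c (I.pos (nat_lit 0) (nat_lit 0)) T1.l7
  (TrL.c (I.pos (nat_lit 0) (nat_lit 134217730)) (xR T3.l4 T3.l8)
  (TrL.c (I.pos (nat_lit 0) (nat_lit 110514882)) (xR T1.l8 T1.l8)
  (TrL.c (I.pos (nat_lit 0) (nat_lit 0)) (xa T1.l11 T1.l11)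
  (TrL.c (I.pos (nat_lit 0) (nat_lit 0)) T3.l9
  (TrL.c (I.mix (nat_lit 8088324) (nat_lit 110514882)) T1.l10
  (TrL.c (I.mix (nat_lit 8088324) (nat_lit 89478486)) T3.l10
  TrL.n)))))))) (by decide +kernel)
theorem bx5_2 : BoxOK sI cl13 cl6 cl5 t3 t1 b5_2 :=
  box_mk (TrL.c (I.pos (nat_lit 0) (nat_lit 0)) T3.l11
  (TrL.c (I.pos (nat_lit 0) (nat_lit 0)) T1.l7
  (TrL.c (I.pos (nat_lit 0) (nat_lit 134217730)) (xR T3.l2 T3.l8)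
  (TrL.c (I.pos (nat_lit 0) (nat_lit 110514882)) T1.l10
  (TrL.c (I.pos (nat_lit 0) (nat_lit 0)) T1.l11
  (TrL.c (I.pos (nat_lit 0) (nat_lit 0)) T3.l9
  (TrL.c (I.mix (nat_lit 8088324) (nat_lit 110514882)) T1.l10
  (TrL.c (I.mix (nat_lit 8088324) (nat_lit 89478486)) T3.l10
  TrL.n)))))))) (by decide +kernel)
theorem bx5_3 : BoxOK sI cl13 cl6 cl5 t3 t1 b5_3 :=
  box_mk (TrL.c (I.pos (nat_lit 0) (nat_lit 0)) (xa T3.l0 T3.l0)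
  (TrL.c (I.pos (nat_lit 0) (nat_lit 0)) (xk T1.l7 T1.l7)
  (TrL.c (I.pos (nat_lit 0) (nat_lit 134217730)) (xR T3.l4 T3.l8)
  (TrL.c (I.pos (nat_lit 0) (nat_lit 110514882)) (xR T1.l8 T1.l8)
  (TrL.c (I.pos (nat_lit 0) (nat_lit 0)) (xk T1.l9 T1.l9)
  (TrL.c (I.pos (nat_lit 0) (nat_lit 0)) T3.l9
  (TrL.c (I.mix (nat_lit 8088324) (nat_lit 110514882)) (xR T1.l10 T1.l10)
  (TrL.c (I.mix (nat_lit 8088324) (nat_lit 89478486)) T3.l10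
  TrL.n)))))))) (by decide +kernel)
theorem bx5_4 : BoxOK sI cl13 cl6 cl5 t3 t1 b5_4 :=
  box_mk (TrL.c (I.pos (nat_lit 0) (nat_lit 0)) (xa (xa T3.l11 T3.l11) (xa T3.l11 T3.l11))
  (TrL.c (I.pos (nat_lit 0) (nat_lit 0)) (xa T1.l11 T1.l7)
  (TrL.c (I.pos (nat_lit 0) (nat_lit 134217730)) (xR T3.l4 T3.l8)
  (TrL.c (I.pos (nat_lit 0) (nat_lit 110514882)) (xR T1.l8 T1.l8)
  (TrL.c (I.pos (nat_lit 0) (nat_lit 0)) (xa T1.l7 T1.l11)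
  (TrL.c (I.pos (nat_lit 0) (nat_lit 0)) T3.l9
  (TrL.c (I.mix (nat_lit 8088324) (nat_lit 110514882)) (xR T1.l10 T1.l10)
  (TrL.c (I.mix (nat_lit 8088324) (nat_lit 89478486)) T3.l10
  TrL.n)))))))) (by decide +kernel)
theorem bx5_5 : BoxOK sI cl13 cl6 cl5 t3 t1 b5_5 :=
  box_mk (TrL.c (I.pos (nat_lit 0) (nat_lit 0)) T3.l0
  (TrL.c (I.pos (nat_lit 0) (nat_lit 0)) T1.l7
  (TrL.c (I.pos (nat_lit 0) (nat_lit 134217730)) (xR T3.l4 T3.l8)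
  (TrL.c (I.pos (nat_lit 0) (nat_lit 110514882)) (xR T1.l8 T1.l8)
  (TrL.c (I.pos (nat_lit 0) (nat_lit 0)) T1.l12
  (TrL.c (I.pos (nat_lit 0) (nat_lit 0)) T3.l9
  (TrL.c (I.mix (nat_lit 8088324) (nat_lit 110514882)) T1.l10
  (TrL.c (I.mix (nat_lit 8088324) (nat_lit 89478486)) T3.l10
  TrL.n)))))))) (by decide +kernel)
theorem bx5_6 : BoxOK sI cl13 cl6 cl5 t3 t1 b5_6 :=
  box_mk (TrL.c (I.pos (nat_lit 0) (nat_lit 0)) T3.l11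
  (TrL.c (I.pos (nat_lit 0) (nat_lit 0)) T1.l7
  (TrL.c (I.pos (nat_lit 0) (nat_lit 134217730)) (xR T3.l2 T3.l8)
  (TrL.c (I.pos (nat_lit 0) (nat_lit 110514882)) T1.l10
  (TrL.c (I.pos (nat_lit 0) (nat_lit 0)) T1.l11
  (TrL.c (I.pos (nat_lit 0) (nat_lit 0)) T3.l9
  (TrL.c (I.mix (nat_lit 8088324) (nat_lit 110514882)) T1.l10
  (TrL.c (I.mix (nat_lit 8088324) (nat_lit 89478486)) T3.l10
  TrL.n)))))))) (by decide +kernel)
theorem bx5_7 : BoxOK sI cl13 cl6 cl5 t3 t1 b5_7 :=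
  box_mk (TrL.c (I.pos (nat_lit 0) (nat_lit 0)) T3.l11
  (TrL.c (I.pos (nat_lit 0) (nat_lit 0)) T1.l7
  (TrL.c (I.pos (nat_lit 0) (nat_lit 134217730)) (xR T3.l4 T3.l8)
  (TrL.c (I.pos (nat_lit 0) (nat_lit 110514882)) (xR T1.l8 T1.l8)
  (TrL.c (I.pos (nat_lit 0) (nat_lit 0)) T1.l11
  (TrL.c (I.pos (nat_lit 0) (nat_lit 0)) T3.l9
  (TrL.c (I.mix (nat_lit 8088324) (nat_lit 110514882)) T1.l10
  (TrL.c (I.mix (nat_lit 8088324) (nat_lit 89478486)) T3.l10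
  TrL.n)))))))) (by decide +kernel)
theorem bx5_8 : BoxOK sI cl13 cl6 cl5 t3 t1 b5_8 :=
  box_mk (TrL.c (I.pos (nat_lit 0) (nat_lit 0)) (xa (xa T3.l11 T3.l11) (xa T3.l11 T3.l11))
  (TrL.c (I.pos (nat_lit 0) (nat_lit 0)) (xa T1.l7 T1.l7)
  (TrL.c (I.pos (nat_lit 0) (nat_lit 134217730)) (xR T3.l4 T3.l8)
  (TrL.c (I.pos (nat_lit 0) (nat_lit 110514882)) (xR T1.l8 T1.l8)
  (TrL.c (I.pos (nat_lit 0) (nat_lit 0)) (xa T1.l11 T1.l11)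
  (TrL.c (I.pos (nat_lit 0) (nat_lit 0)) T3.l9
  (TrL.c (I.mix (nat_lit 8088324) (nat_lit 110514882)) (xR T1.l10 T1.l10)
  (TrL.c (I.mix (nat_lit 8088324) (nat_lit 89478486)) T3.l10
  TrL.n)))))))) (by decide +kernel)
theorem bx5_9 : BoxOK sI cl13 cl6 cl5 t3 t1 b5_9 :=
  box_mk (TrL.c (I.pos (nat_lit 0) (nat_lit 0)) T3.l11
  (TrL.c (I.pos (nat_lit 0) (nat_lit 0)) T1.l7
  (TrL.c (I.pos (nat_lit 0) (nat_lit 134217730)) (xR T3.l4 T3.l8)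
  (TrL.c (I.pos (nat_lit 0) (nat_lit 110514882)) (xR T1.l8 T1.l8)
  (TrL.c (I.pos (nat_lit 0) (nat_lit 0)) (xb T1.l11 T1.l11)
  (TrL.c (I.pos (nat_lit 0) (nat_lit 0)) T3.l9
  (TrL.c (I.mix (nat_lit 8088324) (nat_lit 110514882)) T1.l10
  (TrL.c (I.mix (nat_lit 8088324) (nat_lit 89478486)) T3.l10
  TrL.n)))))))) (by decide +kernel)
theorem bx5_10 : BoxOK sI cl13 cl6 cl5 t3 t1 b5_10 :=
  box_mk (TrL.c (I.pos (nat_lit 0) (nat_lit 0)) (xa T3.l11 T3.l11)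
  (TrL.c (I.pos (nat_lit 0) (nat_lit 0)) T1.l11
  (TrL.c (I.pos (nat_lit 0) (nat_lit 134217730)) (xR T3.l2 T3.l8)
  (TrL.c (I.pos (nat_lit 0) (nat_lit 110514882)) T1.l10
  (TrL.c (I.pos (nat_lit 0) (nat_lit 0)) T1.l7
  (TrL.c (I.pos (nat_lit 0) (nat_lit 0)) T3.l8
  (TrL.c (I.mix (nat_lit 8088324) (nat_lit 110514882)) (xR T1.l10 T1.l8)
  (TrL.c (I.mix (nat_lit 8088324) (nat_lit 89478486)) T3.l4
  TrL.n)))))))) (by decide +kernel)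
theorem bx5_11 : BoxOK sI cl13 cl6 cl5 t3 t1 b5_11 :=
  box_mk (TrL.c (I.pos (nat_lit 0) (nat_lit 0)) T3.l12
  (TrL.c (I.pos (nat_lit 0) (nat_lit 0)) T1.l7
  (TrL.c (I.pos (nat_lit 0) (nat_lit 134217730)) (xR T3.l4 T3.l8)
  (TrL.c (I.pos (nat_lit 0) (nat_lit 110514882)) (xR T1.l8 T1.l8)
  (TrL.c (I.pos (nat_lit 0) (nat_lit 0)) T1.l12
  (TrL.c (I.pos (nat_lit 0) (nat_lit 0)) T3.l9
  (TrL.c (I.mix (nat_lit 8088324) (nat_lit 110514882)) T1.l10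
  (TrL.c (I.mix (nat_lit 8088324) (nat_lit 89478486)) T3.l10
  TrL.n)))))))) (by decide +kernel)
theorem bx5_12 : BoxOK sI cl13 cl6 cl5 t3 t1 b5_12 :=
  box_mk (TrL.c (I.pos (nat_lit 0) (nat_lit 0)) (xa T3.l0 T3.l0)
  (TrL.c (I.pos (nat_lit 0) (nat_lit 0)) (xa (xb T1.l7 T1.l7) (xk (xb T1.l7 T1.l7) (xb T1.l7 T1.l7)))
  (TrL.c (I.pos (nat_lit 0) (nat_lit 134217730)) (xR T3.l4 T3.l8)
  (TrL.c (I.pos (nat_lit 0) (nat_lit 110514882)) (xR T1.l8 T1.l8)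
  (TrL.c (I.pos (nat_lit 0) (nat_lit 0)) (xa (xb (xk T1.l9 T1.l9) (xk T1.l9 T1.l9)) (xb (xk (xa T1.l9 T1.l9) (xa T1.l9 T1.l9)) (xk (xa T1.l9 T1.l9) (xa T1.l9 T1.l9))))
  (TrL.c (I.pos (nat_lit 0) (nat_lit 0)) (xk (xa T3.l9 T3.l9) (xa T3.l9 T3.l9))
  (TrL.c (I.mix (nat_lit 8088324) (nat_lit 110514882)) (xR T1.l10 (xR T1.l10 T1.l10))
  (TrL.c (I.mix (nat_lit 8088324) (nat_lit 89478486)) T3.l10
  TrL.n)))))))) (by decide +kernel)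
theorem bx5_13 : BoxOK sI cl13 cl6 cl5 t3 t1 b5_13 :=
  box_mk (TrL.c (I.pos (nat_lit 0) (nat_lit 0)) T3.l0
  (TrL.c (I.pos (nat_lit 0) (nat_lit 0)) (xk T1.l7 T1.l7)
  (TrL.c (I.pos (nat_lit 0) (nat_lit 134217730)) (xR T3.l4 T3.l8)
  (TrL.c (I.pos (nat_lit 0) (nat_lit 110514882)) (xR T1.l8 T1.l8)
  (TrL.c (I.pos (nat_lit 0) (nat_lit 0)) (xk T1.l9 T1.l9)
  (TrL.c (I.pos (nat_lit 0) (nat_lit 0)) T3.l9
  (TrL.c (I.mix (nat_lit 8088324) (nat_lit 110514882)) (xR T1.l10 T1.l10)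
  (TrL.c (I.mix (nat_lit 8088324) (nat_lit 89478486)) T3.l10
  TrL.n)))))))) (by decide +kernel)
theorem sv5 : StarV sI cl13 cl6 cl5 t3 t1 t5 :=
  (bt_n (bt_n (bt_n (bt_b bx5_0) (bt_n (bt_b bx5_1) (bt_b bx5_2))) (bt_n (bt_n (bt_b bx5_3) (bt_b bx5_4)) (bt_n (bt_b bx5_5) (bt_b bx5_6)))) (bt_n (bt_n (bt_b bx5_7) (bt_n (bt_b bx5_8) (bt_b bx5_9))) (bt_n (bt_n (bt_b bx5_10) (bt_b bx5_11)) (bt_n (bt_b bx5_12) (bt_b bx5_13)))))
def S5 : StarD := StarD.mk cl13 cl6 cl5 3 1 t5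
def G : List StarD := [S0, S1, S2, S3, S4, S5]
theorem so0 : StarOK sI G S0 :=
  star_mk (by decide) (by decide) rfl rfl rfl rfl rfl rfl (rfl : _ = t2) (rfl : _ = t4)
  (st_mk (Pth.l (Pth.l (Pth.l Pth.z))) (nat_lit 190849460) (nat_lit 191773434) (by decide +kernel))
  (st_mk (Pth.l (Pth.l (Pth.l Pth.z))) (nat_lit 227756888) (nat_lit 229084672) (by decide +kernel))
  (st_mk (Pth.l (Pth.l (Pth.l Pth.z))) (nat_lit 270816358) (nat_lit 272716764) (by decide +kernel)) sv0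
theorem so1 : StarOK sI G S1 :=
  star_mk (by decide) (by decide) rfl rfl rfl rfl rfl rfl (rfl : _ = t4) (rfl : _ = t2)
  (st_mk (Pth.l (Pth.l (Pth.l Pth.z))) (nat_lit 97562282) (nat_lit 116512204) (by decide +kernel))
  (st_mk (Pth.l (Pth.l (Pth.l Pth.z))) (nat_lit 133977581) (nat_lit 153365567) (by decide +kernel))
  (st_mk (Pth.l (Pth.l (Pth.l Pth.z))) (nat_lit 176624605) (nat_lit 196612744) (by decide +kernel)) sv1
theorem so2 : StarOK sI G S2 :=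
  star_mk (by decide) (by decide) rfl rfl rfl rfl rfl rfl (rfl : _ = t0) (rfl : _ = t5)
  (st_mk (Pth.l (Pth.l (Pth.l Pth.z))) (nat_lit 243189094) (nat_lit 244125861) (by decide +kernel))
  (st_mk (Pth.l (Pth.l (Pth.l Pth.z))) (nat_lit 279652555) (nat_lit 280897097) (by decide +kernel))
  (st_mk (Pth.l (Pth.l (Pth.l Pth.z))) (nat_lit 322012513) (nat_lit 323673615) (by decide +kernel)) sv2
theorem so3 : StarOK sI G S3 :=
  star_mk (by decide) (by decide) rfl rfl rfl rfl rfl rfl (rfl : _ = t5) (rfl : _ = t0)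
  (st_mk (Pth.l (Pth.l (Pth.l Pth.z))) (nat_lit 97071403) (nat_lit 115758749) (by decide +kernel))
  (st_mk (Pth.l (Pth.l (Pth.l Pth.z))) (nat_lit 133047041) (nat_lit 152041341) (by decide +kernel))
  (st_mk (Pth.l (Pth.l (Pth.l Pth.z))) (nat_lit 174993531) (nat_lit 194402947) (by decide +kernel)) sv3
theorem so4 : StarOK sI G S4 :=
  star_mk (by decide) (by decide) rfl rfl rfl rfl rfl rfl (rfl : _ = t1) (rfl : _ = t3)
  (st_mk (Pth.l (Pth.l (Pth.l Pth.z))) (nat_lit 238062708) (nat_lit 239921914) (by decide +kernel))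
  (st_mk (Pth.l (Pth.l (Pth.l Pth.z))) (nat_lit 272959317) (nat_lit 275235328) (by decide +kernel))
  (st_mk (Pth.l (Pth.l (Pth.l Pth.z))) (nat_lit 313224636) (nat_lit 316053699) (by decide +kernel)) sv4
theorem so5 : StarOK sI G S5 :=
  star_mk (by decide) (by decide) rfl rfl rfl rfl rfl rfl (rfl : _ = t3) (rfl : _ = t1)
  (st_mk (Pth.l (Pth.l (Pth.l Pth.z))) (nat_lit 185843017) (nat_lit 187305286) (by decide +kernel))
  (st_mk (Pth.l (Pth.l (Pth.l Pth.z))) (nat_lit 220739626) (nat_lit 222582187) (by decide +kernel))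
  (st_mk (Pth.l (Pth.l (Pth.l Pth.z))) (nat_lit 261004945) (nat_lit 263368894) (by decide +kernel)) sv5
theorem ok : GroupOK (nat_lit 150274048) (nat_lit 209387520) G := grp_mk (allS_c so0 (allS_c so1 (allS_c so2 (allS_c so3 (allS_c so4 (allS_c so5 allS_n))))))
theorem cov : GCov G cl5 cl6 cl13 := cov_mk
  ⟨0, by decide, rfl, rfl, rfl⟩ ⟨1, by decide, rfl, rfl, rfl⟩ ⟨2, by decide, rfl, rfl, rfl⟩ ⟨3, by decide, rfl, rfl, rfl⟩ ⟨4, by decide, rfl, rfl, rfl⟩ ⟨5, by decide, rfl, rfl, rfl⟩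
end Q236_2


end Pool.Agent.Helper6.MONO
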