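import Pool.Agent.Helper6.MONO.Cert.C21

/-!
Certificate data (generated).
-/

set_option autoImplicit false
set_option linter.all false
noncomputable section
namespace Pool.Agent.Helper6.MONO


namespace Q236_3
def sI : I := I.pos (nat_lit 209321984) (nat_lit 268435456)
def b0_0 : Bx := Bx.mk (St.mk (I.pos (nat_lit 151535616) (nat_lit 231391232)) (I.mix (nat_lit 8175616) (nat_lit 65519616)) (I.mix (nat_lit 9011200) (nat_lit 72876032)) (I.pos (nat_lit 175521792) (nat_lit 308002816)) (I.mix (nat_lit 123584512) (nat_lit 75169792)) (I.mix (nat_lit 65224704) (nat_lit 62554112)) (I.mix (nat_lit 92323840) (nat_lit 95223808)))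
  false (nat_lit 49696409)
def b0_1 : Bx := Bx.mk (St.mk (I.mix (nat_lit 37814272) (nat_lit 110198784)) (I.mix (nat_lit 6012928) (nat_lit 37355520)) (I.mix (nat_lit 25935872) (nat_lit 4980736)) (I.pos (nat_lit 81281024) (nat_lit 127401984)) (I.mix (nat_lit 36339712) (nat_lit 49037312)) (I.mix (nat_lit 31031296) (nat_lit 27164672)) (I.mix (nat_lit 20758528) (nat_lit 14008320)))
  false (nat_lit 0)
def b0_2 : Bx := Bx.mk (St.mk (I.pos (nat_lit 77201408) (nat_lit 119341056)) (I.mix (nat_lit 56410112) (nat_lit 9175040)) (I.neg (nat_lit 11599872) (nat_lit 63176704)) (I.pos (nat_lit 108658688) (nat_lit 141934592)) (I.mix (nat_lit 100663296) (nat_lit 32129024)) (I.mix (nat_lit 38895616) (nat_lit 72417280)) (I.mix (nat_lit 26214400) (nat_lit 53231616)))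
  false (nat_lit 0)
def b0_3 : Bx := Bx.mk (St.mk (I.mix (nat_lit 55164928) (nat_lit 30605312)) (I.mix (nat_lit 32194560) (nat_lit 5521408)) (I.neg (nat_lit 4358144) (nat_lit 19431424)) (I.pos (nat_lit 84049920) (nat_lit 99303424)) (I.mix (nat_lit 41910272) (nat_lit 23805952)) (I.mix (nat_lit 19464192) (nat_lit 26378240)) (I.mix (nat_lit 10518528) (nat_lit 6881280)))
  false (nat_lit 0)
def b0_4 : Bx := Bx.mk (St.mk (I.pos (nat_lit 194134016) (nat_lit 275349504)) (I.mix (nat_lit 6635520) (nat_lit 38207488)) (I.mix (nat_lit 75448320) (nat_lit 18956288)) (I.pos (nat_lit 246333440) (nat_lit 383959040)) (I.mix (nat_lit 85835776) (nat_lit 60522496)) (I.mix (nat_lit 55279616) (nat_lit 50429952)) (I.mix (nat_lit 87097344) (nat_lit 89456640)))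
  false (nat_lit 10701011)
def b0_5 : Bx := Bx.mk (St.mk (I.mix (nat_lit 54902784) (nat_lit 11829248)) (I.mix (nat_lit 2867200) (nat_lit 11304960)) (I.neg (nat_lit 12779520) (nat_lit 21430272)) (I.pos (nat_lit 85737472) (nat_lit 99205120)) (I.mix (nat_lit 8388608) (nat_lit 16613376)) (I.mix (nat_lit 7553024) (nat_lit 6651904)) (I.mix (nat_lit 2670592) (nat_lit 4554752)))
  false (nat_lit 0)
def b0_6 : Bx := Bx.mk (St.mk (I.pos (nat_lit 77725696) (nat_lit 95502336)) (I.mix (nat_lit 3932160) (nat_lit 14139392)) (I.neg (nat_lit 9256960) (nat_lit 24756224)) (I.pos (nat_lit 110821376) (nat_lit 123731968)) (I.mix (nat_lit 11681792) (nat_lit 16187392)) (I.mix (nat_lit 8650752) (nat_lit 6684672)) (I.mix (nat_lit 6275072) (nat_lit 5668864)))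
  false (nat_lit 0)
def b0_7 : Bx := Bx.mk (St.mk (I.pos (nat_lit 73351168) (nat_lit 164413440)) (I.neg (nat_lit 5865472) (nat_lit 58654720)) (I.neg (nat_lit 15351808) (nat_lit 65601536)) (I.pos (nat_lit 113803264) (nat_lit 189874176)) (I.mix (nat_lit 99958784) (nat_lit 50659328)) (I.mix (nat_lit 45350912) (nat_lit 64978944)) (I.mix (nat_lit 28377088) (nat_lit 56131584)))
  false (nat_lit 0)
def b0_8 : Bx := Bx.mk (St.mk (I.mix (nat_lit 33177600) (nat_lit 54149120)) (I.mix (nat_lit 32473088) (nat_lit 7127040)) (I.neg (nat_lit 4882432) (nat_lit 21905408)) (I.pos (nat_lit 81657856) (nat_lit 99729408)) (I.mix (nat_lit 38862848) (nat_lit 30261248)) (I.mix (nat_lit 21118976) (nat_lit 30490624)) (I.mix (nat_lit 9601024) (nat_lit 12222464)))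
  false (nat_lit 0)
def b0_9 : Bx := Bx.mk (St.mk (I.pos (nat_lit 160251904) (nat_lit 212762624)) (I.mix (nat_lit 6569984) (nat_lit 62996480)) (I.mix (nat_lit 10207232) (nat_lit 70418432)) (I.pos (nat_lit 196886528) (nat_lit 270614528)) (I.mix (nat_lit 124911616) (nat_lit 47890432)) (I.mix (nat_lit 98516992) (nat_lit 58818560)) (I.mix (nat_lit 87752704) (nat_lit 53133312)))
  false (nat_lit 36829770)
def b0_10 : Bx := Bx.mk (St.mk (I.mix (nat_lit 60391424) (nat_lit 81412096)) (I.mix (nat_lit 11485184) (nat_lit 30425088)) (I.mix (nat_lit 21282816) (nat_lit 2277376)) (I.pos (nat_lit 83197952) (nat_lit 110870528)) (I.mix (nat_lit 34848768) (nat_lit 30162944)) (I.mix (nat_lit 32866304) (nat_lit 18333696)) (I.mix (nat_lit 12337152) (nat_lit 7553024)))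
  false (nat_lit 0)
def b0_11 : Bx := Bx.mk (St.mk (I.pos (nat_lit 182681600) (nat_lit 234684416)) (I.pos (nat_lit 10862592) (nat_lit 62767104)) (I.mix (nat_lit 14581760) (nat_lit 63750144)) (I.pos (nat_lit 252444672) (nat_lit 304332800)) (I.mix (nat_lit 100450304) (nat_lit 75300864)) (I.mix (nat_lit 74219520) (nat_lit 53772288)) (I.mix (nat_lit 115589120) (nat_lit 77103104)))
  false (nat_lit 28905013)
def b0_12 : Bx := Bx.mk (St.mk (I.pos (nat_lit 131710976) (nat_lit 203702272)) (I.mix (nat_lit 36061184) (nat_lit 18989056)) (I.mix (nat_lit 48660480) (nat_lit 14254080)) (I.pos (nat_lit 157401088) (nat_lit 246333440)) (I.mix (nat_lit 66174976) (nat_lit 64880640)) (I.mix (nat_lit 62652416) (nat_lit 55033856)) (I.mix (nat_lit 61472768) (nat_lit 48480256)))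
  false (nat_lit 0)
def b0_13 : Bx := Bx.mk (St.mk (I.pos (nat_lit 161546240) (nat_lit 203374592)) (I.mix (nat_lit 7520256) (nat_lit 31670272)) (I.mix (nat_lit 14778368) (nat_lit 33980416)) (I.pos (nat_lit 203063296) (nat_lit 247054336)) (I.mix (nat_lit 98844672) (nat_lit 63225856)) (I.mix (nat_lit 97665024) (nat_lit 63930368)) (I.mix (nat_lit 95240192) (nat_lit 61112320)))
  false (nat_lit 0)
def t0 : BTr := (BTr.n (BTr.n (BTr.n (BTr.b b0_0) (BTr.n (BTr.b b0_1) (BTr.b b0_2))) (BTr.n (BTr.n (BTr.b b0_3) (BTr.b b0_4)) (BTr.n (BTr.b b0_5) (BTr.b b0_6)))) (BTr.n (BTr.n (BTr.b b0_7) (BTr.n (BTr.b b0_8) (BTr.b b0_9))) (BTr.n (BTr.n (BTr.b b0_10) (BTr.b b0_11)) (BTr.n (BTr.b b0_12) (BTr.b b0_13)))))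
namespace T0
def l0 : Tr := Tr.L (Pth.l (Pth.l (Pth.l Pth.z)))
def l1 : Tr := Tr.L (Pth.l (Pth.l (Pth.r (Pth.l Pth.z))))
def l2 : Tr := Tr.L (Pth.l (Pth.l (Pth.r (Pth.r Pth.z))))
def l3 : Tr := Tr.L (Pth.l (Pth.r (Pth.l (Pth.l Pth.z))))
def l4 : Tr := Tr.L (Pth.l (Pth.r (Pth.l (Pth.r Pth.z))))
def l5 : Tr := Tr.L (Pth.l (Pth.r (Pth.r (Pth.l Pth.z))))
def l6 : Tr := Tr.L (Pth.l (Pth.r (Pth.r (Pth.r Pth.z))))
def l7 : Tr := Tr.L (Pth.r (Pth.l (Pth.l Pth.z)))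
def l8 : Tr := Tr.L (Pth.r (Pth.l (Pth.r (Pth.l Pth.z))))
def l9 : Tr := Tr.L (Pth.r (Pth.l (Pth.r (Pth.r Pth.z))))
def l10 : Tr := Tr.L (Pth.r (Pth.r (Pth.l (Pth.l Pth.z))))
def l11 : Tr := Tr.L (Pth.r (Pth.r (Pth.l (Pth.r Pth.z))))
def l12 : Tr := Tr.L (Pth.r (Pth.r (Pth.r (Pth.l Pth.z))))
def l13 : Tr := Tr.L (Pth.r (Pth.r (Pth.r (Pth.r Pth.z))))
end T0
def b1_0 : Bx := Bx.mk (St.mk (I.pos (nat_lit 150913024) (nat_lit 236355584)) (I.mix (nat_lit 5849088) (nat_lit 46956544)) (I.mix (nat_lit 9781248) (nat_lit 79511552)) (I.pos (nat_lit 80904192) (nat_lit 228048896)) (I.mix (nat_lit 109379584) (nat_lit 67715072)) (I.mix (nat_lit 71139328) (nat_lit 63127552)) (I.mix (nat_lit 104857600) (nat_lit 88408064)))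
  false (nat_lit 60865505)
def b1_1 : Bx := Bx.mk (St.mk (I.mix (nat_lit 24821760) (nat_lit 157089792)) (I.mix (nat_lit 4358144) (nat_lit 22822912)) (I.mix (nat_lit 8683520) (nat_lit 18776064)) (I.mix (nat_lit 13598720) (nat_lit 99991552)) (I.mix (nat_lit 35651584) (nat_lit 31195136)) (I.mix (nat_lit 25362432) (nat_lit 21266432)) (I.mix (nat_lit 21807104) (nat_lit 17350656)))
  false (nat_lit 0)
def b1_2 : Bx := Bx.mk (St.mk (I.pos (nat_lit 111771648) (nat_lit 156172288)) (I.mix (nat_lit 46333952) (nat_lit 7356416)) (I.mix (nat_lit 49446912) (nat_lit 4587520)) (I.pos (nat_lit 49070080) (nat_lit 104660992)) (I.mix (nat_lit 99827712) (nat_lit 36290560)) (I.mix (nat_lit 35782656) (nat_lit 78036992)) (I.mix (nat_lit 27181056) (nat_lit 68485120)))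
  false (nat_lit 21407120)
def b1_3 : Bx := Bx.mk (St.mk (I.mix (nat_lit 24920064) (nat_lit 116654080)) (I.mix (nat_lit 23281664) (nat_lit 3489792)) (I.mix (nat_lit 18186240) (nat_lit 2932736)) (I.mix (nat_lit 8749056) (nat_lit 62832640)) (I.mix (nat_lit 38928384) (nat_lit 14876672)) (I.mix (nat_lit 15859712) (nat_lit 27262976)) (I.mix (nat_lit 8765440) (nat_lit 16465920)))
  false (nat_lit 0)
def b1_4 : Bx := Bx.mk (St.mk (I.pos (nat_lit 198213632) (nat_lit 273301504)) (I.mix (nat_lit 8372224) (nat_lit 29704192)) (I.mix (nat_lit 29179904) (nat_lit 47775744)) (I.pos (nat_lit 163954688) (nat_lit 311394304)) (I.mix (nat_lit 83148800) (nat_lit 43761664)) (I.mix (nat_lit 51396608) (nat_lit 37568512)) (I.mix (nat_lit 83525632) (nat_lit 63062016)))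
  false (nat_lit 39611786)
def b1_5 : Bx := Bx.mk (St.mk (I.pos (nat_lit 117440512) (nat_lit 138461184)) (I.mix (nat_lit 2441216) (nat_lit 7487488)) (I.mix (nat_lit 6815744) (nat_lit 4128768)) (I.pos (nat_lit 51265536) (nat_lit 91340800)) (I.mix (nat_lit 9961472) (nat_lit 11583488)) (I.mix (nat_lit 6537216) (nat_lit 4816896)) (I.mix (nat_lit 6094848) (nat_lit 3850240)))
  false (nat_lit 0)
def b1_6 : Bx := Bx.mk (St.mk (I.mix (nat_lit 23494656) (nat_lit 104431616)) (I.mix (nat_lit 950272) (nat_lit 3063808)) (I.mix (nat_lit 2064384) (nat_lit 819200)) (I.mix (nat_lit 7618560) (nat_lit 54165504)) (I.mix (nat_lit 1212416) (nat_lit 3162112)) (I.mix (nat_lit 835584) (nat_lit 753664)) (I.mix (nat_lit 655360) (nat_lit 655360)))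
  false (nat_lit 0)
def b1_7 : Bx := Bx.mk (St.mk (I.pos (nat_lit 104693760) (nat_lit 189677568)) (I.neg (nat_lit 622592) (nat_lit 48758784)) (I.neg (nat_lit 573440) (nat_lit 50823168)) (I.pos (nat_lit 61816832) (nat_lit 150323200)) (I.mix (nat_lit 85311488) (nat_lit 50053120)) (I.mix (nat_lit 42450944) (nat_lit 60604416)) (I.mix (nat_lit 37027840) (nat_lit 63275008)))
  false (nat_lit 52589780)
def b1_8 : Bx := Bx.mk (St.mk (I.pos (nat_lit 40517632) (nat_lit 123781120)) (I.mix (nat_lit 24363008) (nat_lit 4358144)) (I.mix (nat_lit 18497536) (nat_lit 1753088)) (I.pos (nat_lit 3899392) (nat_lit 74170368)) (I.mix (nat_lit 35979264) (nat_lit 24330240)) (I.mix (nat_lit 17514496) (nat_lit 23478272)) (I.mix (nat_lit 11059200) (nat_lit 16711680)))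
  false (nat_lit 0)
def b1_9 : Bx := Bx.mk (St.mk (I.pos (nat_lit 170196992) (nat_lit 213467136)) (I.mix (nat_lit 17465344) (nat_lit 41828352)) (I.mix (nat_lit 5406720) (nat_lit 69943296)) (I.pos (nat_lit 114245632) (nat_lit 191184896)) (I.mix (nat_lit 121208832) (nat_lit 50872320)) (I.mix (nat_lit 99188736) (nat_lit 58458112)) (I.mix (nat_lit 114769920) (nat_lit 61423616)))
  false (nat_lit 0)
def b1_10 : Bx := Bx.mk (St.mk (I.mix (nat_lit 30146560) (nat_lit 147881984)) (I.mix (nat_lit 14761984) (nat_lit 29556736)) (I.mix (nat_lit 12697600) (nat_lit 23756800)) (I.mix (nat_lit 12320768) (nat_lit 90243072)) (I.mix (nat_lit 55099392) (nat_lit 26214400)) (I.mix (nat_lit 41549824) (nat_lit 25329664)) (I.mix (nat_lit 28803072) (nat_lit 16695296)))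
  false (nat_lit 0)
def b1_11 : Bx := Bx.mk (St.mk (I.pos (nat_lit 152551424) (nat_lit 210534400)) (I.mix (nat_lit 38584320) (nat_lit 6258688)) (I.mix (nat_lit 42123264) (nat_lit 17678336)) (I.pos (nat_lit 95928320) (nat_lit 180436992)) (I.mix (nat_lit 62996480) (nat_lit 56328192)) (I.mix (nat_lit 55377920) (nat_lit 47611904)) (I.mix (nat_lit 61472768) (nat_lit 51871744)))
  false (nat_lit 70651848)
def b1_12 : Bx := Bx.mk (St.mk (I.pos (nat_lit 171261952) (nat_lit 209928192)) (I.mix (nat_lit 15958016) (nat_lit 20217856)) (I.mix (nat_lit 5963776) (nat_lit 39043072)) (I.pos (nat_lit 118358016) (nat_lit 179388416)) (I.mix (nat_lit 88784896) (nat_lit 47726592)) (I.mix (nat_lit 82984960) (nat_lit 47349760)) (I.mix (nat_lit 96206848) (nat_lit 51904512)))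
  false (nat_lit 0)
def b1_13 : Bx := Bx.mk (St.mk (I.pos (nat_lit 191021056) (nat_lit 236486656)) (I.pos (nat_lit 10502144) (nat_lit 45678592)) (I.pos (nat_lit 18497536) (nat_lit 76529664)) (I.pos (nat_lit 169246720) (nat_lit 224641024)) (I.mix (nat_lit 88276992) (nat_lit 66568192)) (I.mix (nat_lit 70893568) (nat_lit 54312960)) (I.mix (nat_lit 109428736) (nat_lit 67010560)))
  false (nat_lit 43840473)
def t1 : BTr := (BTr.n (BTr.n (BTr.n (BTr.b b1_0) (BTr.n (BTr.b b1_1) (BTr.b b1_2))) (BTr.n (BTr.n (BTr.b b1_3) (BTr.b b1_4)) (BTr.n (BTr.b b1_5) (BTr.b b1_6)))) (BTr.n (BTr.n (BTr.b b1_7) (BTr.n (BTr.b b1_8) (BTr.b b1_9))) (BTr.n (BTr.n (BTr.b b1_10) (BTr.b b1_11)) (BTr.n (BTr.b b1_12) (BTr.b b1_13)))))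
namespace T1
def l0 : Tr := Tr.L (Pth.l (Pth.l (Pth.l Pth.z)))
def l1 : Tr := Tr.L (Pth.l (Pth.l (Pth.r (Pth.l Pth.z))))
def l2 : Tr := Tr.L (Pth.l (Pth.l (Pth.r (Pth.r Pth.z))))
def l3 : Tr := Tr.L (Pth.l (Pth.r (Pth.l (Pth.l Pth.z))))
def l4 : Tr := Tr.L (Pth.l (Pth.r (Pth.l (Pth.r Pth.z))))
def l5 : Tr := Tr.L (Pth.l (Pth.r (Pth.r (Pth.l Pth.z))))
def l6 : Tr := Tr.L (Pth.l (Pth.r (Pth.r (Pth.r Pth.z))))
def l7 : Tr := Tr.L (Pth.r (Pth.l (Pth.l Pth.z)))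
def l8 : Tr := Tr.L (Pth.r (Pth.l (Pth.r (Pth.l Pth.z))))
def l9 : Tr := Tr.L (Pth.r (Pth.l (Pth.r (Pth.r Pth.z))))
def l10 : Tr := Tr.L (Pth.r (Pth.r (Pth.l (Pth.l Pth.z))))
def l11 : Tr := Tr.L (Pth.r (Pth.r (Pth.l (Pth.r Pth.z))))
def l12 : Tr := Tr.L (Pth.r (Pth.r (Pth.r (Pth.l Pth.z))))
def l13 : Tr := Tr.L (Pth.r (Pth.r (Pth.r (Pth.r Pth.z))))
end T1
def b2_0 : Bx := Bx.mk (St.mk (I.pos (nat_lit 147914752) (nat_lit 228360192)) (I.mix (nat_lit 9207808) (nat_lit 72744960)) (I.mix (nat_lit 10059776) (nat_lit 79577088)) (I.pos (nat_lit 228737024) (nat_lit 353681408)) (I.mix (nat_lit 129466368) (nat_lit 83918848)) (I.mix (nat_lit 69926912) (nat_lit 67452928)) (I.mix (nat_lit 95272960) (nat_lit 96894976)))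
  false (nat_lit 67722871)
def b2_1 : Bx := Bx.mk (St.mk (I.pos (nat_lit 20692992) (nat_lit 77119488)) (I.mix (nat_lit 14598144) (nat_lit 47562752)) (I.neg (nat_lit 1769472) (nat_lit 35586048)) (I.pos (nat_lit 142262272) (nat_lit 163528704)) (I.mix (nat_lit 34734080) (nat_lit 61095936)) (I.mix (nat_lit 38928384) (nat_lit 31670272)) (I.mix (nat_lit 22151168) (nat_lit 12926976)))
  false (nat_lit 0)
def b2_2 : Bx := Bx.mk (St.mk (I.pos (nat_lit 46891008) (nat_lit 96059392)) (I.mix (nat_lit 61243392) (nat_lit 16744448)) (I.neg (nat_lit 15335424) (nat_lit 64094208)) (I.pos (nat_lit 145358848) (nat_lit 179470336)) (I.mix (nat_lit 101203968) (nat_lit 35454976)) (I.mix (nat_lit 35651584) (nat_lit 72269824)) (I.mix (nat_lit 28065792) (nat_lit 45121536)))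
  false (nat_lit 0)
def b2_3 : Bx := Bx.mk (St.mk (I.neg (nat_lit 20430848) (nat_lit 79036416)) (I.mix (nat_lit 48054272) (nat_lit 18366464)) (I.neg (nat_lit 1507328) (nat_lit 37552128)) (I.pos (nat_lit 142131200) (nat_lit 163528704)) (I.mix (nat_lit 61095936) (nat_lit 34734080)) (I.mix (nat_lit 31670272) (nat_lit 38928384)) (I.mix (nat_lit 22151168) (nat_lit 12926976)))
  true (nat_lit 0)
def b2_4 : Bx := Bx.mk (St.mk (I.pos (nat_lit 53608448) (nat_lit 155205632)) (I.neg (nat_lit 7651328) (nat_lit 65257472)) (I.neg (nat_lit 11976704) (nat_lit 69156864)) (I.pos (nat_lit 153665536) (nat_lit 231456768)) (I.mix (nat_lit 101564416) (nat_lit 55902208)) (I.mix (nat_lit 44498944) (nat_lit 69681152)) (I.mix (nat_lit 38600704) (nat_lit 60325888)))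
  false (nat_lit 0)
def b2_5 : Bx := Bx.mk (St.mk (I.mix (nat_lit 46514176) (nat_lit 10747904)) (I.mix (nat_lit 44728320) (nat_lit 10829824)) (I.neg (nat_lit 4833280) (nat_lit 14057472)) (I.pos (nat_lit 139345920) (nat_lit 155435008)) (I.mix (nat_lit 35422208) (nat_lit 42041344)) (I.mix (nat_lit 27148288) (nat_lit 35717120)) (I.mix (nat_lit 6930432) (nat_lit 7585792)))
  true (nat_lit 0)
def b2_6 : Bx := Bx.mk (St.mk (I.pos (nat_lit 147537920) (nat_lit 198475776)) (I.mix (nat_lit 1572864) (nat_lit 64552960)) (I.mix (nat_lit 2736128) (nat_lit 74743808)) (I.pos (nat_lit 236797952) (nat_lit 306790400)) (I.mix (nat_lit 127254528) (nat_lit 48414720)) (I.mix (nat_lit 105873408) (nat_lit 63488000)) (I.mix (nat_lit 100073472) (nat_lit 69173248)))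
  false (nat_lit 32671056)
def b2_7 : Bx := Bx.mk (St.mk (I.mix (nat_lit 10747904) (nat_lit 46514176)) (I.mix (nat_lit 10829824) (nat_lit 44728320)) (I.neg (nat_lit 4833280) (nat_lit 14057472)) (I.pos (nat_lit 139345920) (nat_lit 155435008)) (I.mix (nat_lit 42057728) (nat_lit 35422208)) (I.mix (nat_lit 35717120) (nat_lit 27148288)) (I.mix (nat_lit 6930432) (nat_lit 7585792)))
  false (nat_lit 0)
def b2_8 : Bx := Bx.mk (St.mk (I.pos (nat_lit 186826752) (nat_lit 289898496)) (I.mix (nat_lit 33112064) (nat_lit 47546368)) (I.mix (nat_lit 138280960) (nat_lit 30982144)) (I.pos (nat_lit 286113792) (nat_lit 455966720)) (I.mix (nat_lit 88932352) (nat_lit 67092480)) (I.mix (nat_lit 57950208) (nat_lit 46710784)) (I.mix (nat_lit 88145920) (nat_lit 93175808)))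
  false (nat_lit 31436714)
def b2_9 : Bx := Bx.mk (St.mk (I.pos (nat_lit 119062528) (nat_lit 197017600)) (I.mix (nat_lit 38010880) (nat_lit 23101440)) (I.mix (nat_lit 43958272) (nat_lit 22183936)) (I.pos (nat_lit 196608000) (nat_lit 289587200)) (I.mix (nat_lit 79396864) (nat_lit 64094208)) (I.mix (nat_lit 62111744) (nat_lit 56000512)) (I.mix (nat_lit 60194816) (nat_lit 52314112)))
  false (nat_lit 0)
def b2_10 : Bx := Bx.mk (St.mk (I.pos (nat_lit 149913600) (nat_lit 194068480)) (I.pos (nat_lit 1015808) (nat_lit 41533440)) (I.mix (nat_lit 4128768) (nat_lit 48037888)) (I.pos (nat_lit 242024448) (nat_lit 289259520)) (I.mix (nat_lit 114950144) (nat_lit 66486272)) (I.mix (nat_lit 107626496) (nat_lit 56295424)) (I.mix (nat_lit 104284160) (nat_lit 55984128)))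
  false (nat_lit 0)
def b2_11 : Bx := Bx.mk (St.mk (I.pos (nat_lit 171098112) (nat_lit 228524032)) (I.pos (nat_lit 19316736) (nat_lit 72433664)) (I.mix (nat_lit 4800512) (nat_lit 75988992)) (I.pos (nat_lit 287326208) (nat_lit 345620480)) (I.mix (nat_lit 108625920) (nat_lit 83247104)) (I.mix (nat_lit 75890688) (nat_lit 57606144)) (I.mix (nat_lit 114999296) (nat_lit 80166912)))
  false (nat_lit 46135874)
def t2 : BTr := (BTr.n (BTr.n (BTr.n (BTr.b b2_0) (BTr.n (BTr.b b2_1) (BTr.b b2_2))) (BTr.n (BTr.b b2_3) (BTr.n (BTr.b b2_4) (BTr.b b2_5)))) (BTr.n (BTr.n (BTr.b b2_6) (BTr.n (BTr.b b2_7) (BTr.b b2_8))) (BTr.n (BTr.b b2_9) (BTr.n (BTr.b b2_10) (BTr.b b2_11)))))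
namespace T2
def l0 : Tr := Tr.L (Pth.l (Pth.l (Pth.l Pth.z)))
def l1 : Tr := Tr.L (Pth.l (Pth.l (Pth.r (Pth.l Pth.z))))
def l2 : Tr := Tr.L (Pth.l (Pth.l (Pth.r (Pth.r Pth.z))))
def l3 : Tr := Tr.L (Pth.l (Pth.r (Pth.l Pth.z)))
def l4 : Tr := Tr.L (Pth.l (Pth.r (Pth.r (Pth.l Pth.z))))
def l5 : Tr := Tr.L (Pth.l (Pth.r (Pth.r (Pth.r Pth.z))))
def l6 : Tr := Tr.L (Pth.r (Pth.l (Pth.l Pth.z)))
def l7 : Tr := Tr.L (Pth.r (Pth.l (Pth.r (Pth.l Pth.z))))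
def l8 : Tr := Tr.L (Pth.r (Pth.l (Pth.r (Pth.r Pth.z))))
def l9 : Tr := Tr.L (Pth.r (Pth.r (Pth.l Pth.z)))
def l10 : Tr := Tr.L (Pth.r (Pth.r (Pth.r (Pth.l Pth.z))))
def l11 : Tr := Tr.L (Pth.r (Pth.r (Pth.r (Pth.r Pth.z))))
end T2
def b3_0 : Bx := Bx.mk (St.mk (I.pos (nat_lit 151060480) (nat_lit 235290624)) (I.mix (nat_lit 5521408) (nat_lit 42450944)) (I.mix (nat_lit 10977280) (nat_lit 86802432)) (I.pos (nat_lit 81444864) (nat_lit 218939392)) (I.mix (nat_lit 107036672) (nat_lit 63881216)) (I.mix (nat_lit 74547200) (nat_lit 60620800)) (I.mix (nat_lit 101974016) (nat_lit 80576512)))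
  false (nat_lit 22347579)
def b3_1 : Bx := Bx.mk (St.mk (I.pos (nat_lit 108281856) (nat_lit 187351040)) (I.neg (nat_lit 1622016) (nat_lit 50610176)) (I.mix (nat_lit 45727744) (nat_lit 409600)) (I.pos (nat_lit 66076672) (nat_lit 145358848)) (I.mix (nat_lit 83918848) (nat_lit 49872896)) (I.mix (nat_lit 46219264) (nat_lit 54312960)) (I.mix (nat_lit 39124992) (nat_lit 55164928)))
  false (nat_lit 26718894)
def b3_2 : Bx := Bx.mk (St.mk (I.mix (nat_lit 21299200) (nat_lit 130023424)) (I.mix (nat_lit 24805376) (nat_lit 3473408)) (I.mix (nat_lit 15450112) (nat_lit 3653632)) (I.mix (nat_lit 10207232) (nat_lit 74006528)) (I.mix (nat_lit 33423360) (nat_lit 25116672)) (I.mix (nat_lit 17137664) (nat_lit 20840448)) (I.mix (nat_lit 11436032) (nat_lit 14237696)))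
  false (nat_lit 0)
def b3_3 : Bx := Bx.mk (St.mk (I.pos (nat_lit 167116800) (nat_lit 210993152)) (I.mix (nat_lit 17432576) (nat_lit 39731200)) (I.pos (nat_lit 3915776) (nat_lit 77103104)) (I.pos (nat_lit 108396544) (nat_lit 182272000)) (I.mix (nat_lit 125403136) (nat_lit 55066624)) (I.mix (nat_lit 105316352) (nat_lit 56934400)) (I.mix (nat_lit 122683392) (nat_lit 54427648)))
  false (nat_lit 21051551)
def b3_4 : Bx := Bx.mk (St.mk (I.mix (nat_lit 29032448) (nat_lit 146472960)) (I.mix (nat_lit 12730368) (nat_lit 29491200)) (I.mix (nat_lit 6553600) (nat_lit 29147136)) (I.mix (nat_lit 11993088) (nat_lit 87736320)) (I.mix (nat_lit 61702144) (nat_lit 27443200)) (I.mix (nat_lit 46366720) (nat_lit 27181056)) (I.mix (nat_lit 33456128) (nat_lit 16957440)))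
  false (nat_lit 0)
def b3_5 : Bx := Bx.mk (St.mk (I.pos (nat_lit 156090368) (nat_lit 214007808)) (I.mix (nat_lit 35667968) (nat_lit 8830976)) (I.mix (nat_lit 25575424) (nat_lit 31916032)) (I.pos (nat_lit 97435648) (nat_lit 183648256)) (I.mix (nat_lit 61161472) (nat_lit 70025216)) (I.mix (nat_lit 65257472) (nat_lit 57524224)) (I.mix (nat_lit 66748416) (nat_lit 62291968)))
  false (nat_lit 35754176)
def b3_6 : Bx := Bx.mk (St.mk (I.pos (nat_lit 159203328) (nat_lit 181731328)) (I.neg (nat_lit 12926976) (nat_lit 32784384)) (I.neg (nat_lit 2031616) (nat_lit 25509888)) (I.pos (nat_lit 102547456) (nat_lit 142032896)) (I.mix (nat_lit 22675456) (nat_lit 13090816)) (I.mix (nat_lit 9240576) (nat_lit 10829824)) (I.mix (nat_lit 9682944) (nat_lit 11747328)))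
  false (nat_lit 0)
def b3_7 : Bx := Bx.mk (St.mk (I.pos (nat_lit 80445440) (nat_lit 116359168)) (I.mix (nat_lit 12517376) (nat_lit 262144)) (I.mix (nat_lit 5734400) (nat_lit 2949120)) (I.pos (nat_lit 22265856) (nat_lit 69681152)) (I.mix (nat_lit 6668288) (nat_lit 7979008)) (I.mix (nat_lit 3670016) (nat_lit 4276224)) (I.mix (nat_lit 2523136) (nat_lit 3276800)))
  false (nat_lit 0)
def b3_8 : Bx := Bx.mk (St.mk (I.pos (nat_lit 53116928) (nat_lit 150126592)) (I.mix (nat_lit 9109504) (nat_lit 20824064)) (I.mix (nat_lit 6979584) (nat_lit 22413312)) (I.pos (nat_lit 4931584) (nat_lit 100319232)) (I.mix (nat_lit 37470208) (nat_lit 29245440)) (I.mix (nat_lit 27410432) (nat_lit 20709376)) (I.mix (nat_lit 23904256) (nat_lit 16662528)))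
  false (nat_lit 0)
def b3_9 : Bx := Bx.mk (St.mk (I.pos (nat_lit 113065984) (nat_lit 159694848)) (I.mix (nat_lit 50741248) (nat_lit 10928128)) (I.mix (nat_lit 47874048) (nat_lit 12746752)) (I.pos (nat_lit 50135040) (nat_lit 113311744)) (I.mix (nat_lit 94961664) (nat_lit 38436864)) (I.mix (nat_lit 35799040) (nat_lit 73793536)) (I.mix (nat_lit 29048832) (nat_lit 62095360)))
  false (nat_lit 15477139)
def b3_10 : Bx := Bx.mk (St.mk (I.mix (nat_lit 26345472) (nat_lit 118816768)) (I.mix (nat_lit 23805952) (nat_lit 5160960)) (I.mix (nat_lit 14565376) (nat_lit 4603904)) (I.mix (nat_lit 8749056) (nat_lit 64700416)) (I.mix (nat_lit 34897920) (nat_lit 15384576)) (I.mix (nat_lit 15056896) (nat_lit 24444928)) (I.mix (nat_lit 8601600) (nat_lit 14057472)))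
  false (nat_lit 0)
def b3_11 : Bx := Bx.mk (St.mk (I.pos (nat_lit 197935104) (nat_lit 287244288)) (I.mix (nat_lit 26361856) (nat_lit 30883840)) (I.mix (nat_lit 47349760) (nat_lit 67665920)) (I.pos (nat_lit 154435584) (nat_lit 337903616)) (I.mix (nat_lit 76234752) (nat_lit 42516480)) (I.mix (nat_lit 49725440) (nat_lit 38043648)) (I.mix (nat_lit 80396288) (nat_lit 64225280)))
  false (nat_lit 15182890)
def b3_12 : Bx := Bx.mk (St.mk (I.pos (nat_lit 184320000) (nat_lit 232636416)) (I.pos (nat_lit 10993664) (nat_lit 41713664)) (I.pos (nat_lit 31539200) (nat_lit 84492288)) (I.pos (nat_lit 156008448) (nat_lit 213204992)) (I.mix (nat_lit 90587136) (nat_lit 64536576)) (I.mix (nat_lit 71843840) (nat_lit 55083008)) (I.mix (nat_lit 112902144) (nat_lit 72187904)))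
  false (nat_lit 6487000)
def b3_13 : Bx := Bx.mk (St.mk (I.pos (nat_lit 174063616) (nat_lit 210272256)) (I.mix (nat_lit 19234816) (nat_lit 16089088)) (I.pos (nat_lit 442368) (nat_lit 44351488)) (I.pos (nat_lit 115654656) (nat_lit 176095232)) (I.mix (nat_lit 81920000) (nat_lit 52723712)) (I.mix (nat_lit 85393408) (nat_lit 47939584)) (I.mix (nat_lit 96796672) (nat_lit 50593792)))
  false (nat_lit 5909054)
def t3 : BTr := (BTr.n (BTr.n (BTr.n (BTr.b b3_0) (BTr.n (BTr.b b3_1) (BTr.b b3_2))) (BTr.n (BTr.n (BTr.b b3_3) (BTr.b b3_4)) (BTr.n (BTr.b b3_5) (BTr.b b3_6)))) (BTr.n (BTr.n (BTr.b b3_7) (BTr.n (BTr.b b3_8) (BTr.b b3_9))) (BTr.n (BTr.n (BTr.b b3_10) (BTr.b b3_11)) (BTr.n (BTr.b b3_12) (BTr.b b3_13)))))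
namespace T3
def l0 : Tr := Tr.L (Pth.l (Pth.l (Pth.l Pth.z)))
def l1 : Tr := Tr.L (Pth.l (Pth.l (Pth.r (Pth.l Pth.z))))
def l2 : Tr := Tr.L (Pth.l (Pth.l (Pth.r (Pth.r Pth.z))))
def l3 : Tr := Tr.L (Pth.l (Pth.r (Pth.l (Pth.l Pth.z))))
def l4 : Tr := Tr.L (Pth.l (Pth.r (Pth.l (Pth.r Pth.z))))
def l5 : Tr := Tr.L (Pth.l (Pth.r (Pth.r (Pth.l Pth.z))))
def l6 : Tr := Tr.L (Pth.l (Pth.r (Pth.r (Pth.r Pth.z))))
def l7 : Tr := Tr.L (Pth.r (Pth.l (Pth.l Pth.z)))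
def l8 : Tr := Tr.L (Pth.r (Pth.l (Pth.r (Pth.l Pth.z))))
def l9 : Tr := Tr.L (Pth.r (Pth.l (Pth.r (Pth.r Pth.z))))
def l10 : Tr := Tr.L (Pth.r (Pth.r (Pth.l (Pth.l Pth.z))))
def l11 : Tr := Tr.L (Pth.r (Pth.r (Pth.l (Pth.r Pth.z))))
def l12 : Tr := Tr.L (Pth.r (Pth.r (Pth.r (Pth.l Pth.z))))
def l13 : Tr := Tr.L (Pth.r (Pth.r (Pth.r (Pth.r Pth.z))))
end T3
def b4_0 : Bx := Bx.mk (St.mk (I.pos (nat_lit 138264576) (nat_lit 223510528)) (I.mix (nat_lit 8192000) (nat_lit 65421312)) (I.mix (nat_lit 13975552) (nat_lit 107479040)) (I.pos (nat_lit 225673216) (nat_lit 329007104)) (I.mix (nat_lit 138674176) (nat_lit 78725120)) (I.mix (nat_lit 82870272) (nat_lit 74366976)) (I.mix (nat_lit 102039552) (nat_lit 92553216)))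
  false (nat_lit 128935031)
def b4_1 : Bx := Bx.mk (St.mk (I.pos (nat_lit 68042752) (nat_lit 160858112)) (I.neg (nat_lit 8929280) (nat_lit 72007680)) (I.mix (nat_lit 49184768) (nat_lit 16957440)) (I.pos (nat_lit 164200448) (nat_lit 236306432)) (I.mix (nat_lit 96632832) (nat_lit 66093056)) (I.mix (nat_lit 51429376) (nat_lit 56754176)) (I.mix (nat_lit 41943040) (nat_lit 47398912)))
  false (nat_lit 75091015)
def b4_2 : Bx := Bx.mk (St.mk (I.mix (nat_lit 36962304) (nat_lit 12009472)) (I.mix (nat_lit 44613632) (nat_lit 12795904)) (I.pos (nat_lit 5537792) (nat_lit 14221312)) (I.pos (nat_lit 139722752) (nat_lit 152649728)) (I.mix (nat_lit 27688960) (nat_lit 49364992)) (I.mix (nat_lit 23920640) (nat_lit 33505280)) (I.mix (nat_lit 4718592) (nat_lit 7798784)))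
  true (nat_lit 0)
def b4_3 : Bx := Bx.mk (St.mk (I.pos (nat_lit 140361728) (nat_lit 188088320)) (I.mix (nat_lit 1196032) (nat_lit 59408384)) (I.pos (nat_lit 29147136) (nat_lit 102563840)) (I.pos (nat_lit 218611712) (nat_lit 280969216)) (I.mix (nat_lit 134955008) (nat_lit 44056576)) (I.mix (nat_lit 109936640) (nat_lit 56639488)) (I.mix (nat_lit 107888640) (nat_lit 60866560)))
  false (nat_lit 86437961)
def b4_4 : Bx := Bx.mk (St.mk (I.mix (nat_lit 14368768) (nat_lit 37273600)) (I.mix (nat_lit 15859712) (nat_lit 45023232)) (I.pos (nat_lit 5537792) (nat_lit 14221312)) (I.pos (nat_lit 139722752) (nat_lit 152649728)) (I.mix (nat_lit 49364992) (nat_lit 27688960)) (I.mix (nat_lit 33505280) (nat_lit 23920640)) (I.mix (nat_lit 4718592) (nat_lit 7798784)))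
  false (nat_lit 0)
def b4_5 : Bx := Bx.mk (St.mk (I.pos (nat_lit 10452992) (nat_lit 76169216)) (I.mix (nat_lit 11354112) (nat_lit 46891008)) (I.mix (nat_lit 13746176) (nat_lit 17645568)) (I.pos (nat_lit 141852672) (nat_lit 164413440)) (I.mix (nat_lit 44253184) (nat_lit 48037888)) (I.mix (nat_lit 38666240) (nat_lit 33013760)) (I.mix (nat_lit 20414464) (nat_lit 16941056)))
  false (nat_lit 0)
def b4_6 : Bx := Bx.mk (St.mk (I.pos (nat_lit 48267264) (nat_lit 105988096)) (I.mix (nat_lit 68141056) (nat_lit 14090240)) (I.mix (nat_lit 45924352) (nat_lit 2949120)) (I.pos (nat_lit 148750336) (nat_lit 191528960)) (I.mix (nat_lit 90521600) (nat_lit 37781504)) (I.mix (nat_lit 39878656) (nat_lit 64176128)) (I.mix (nat_lit 30490624) (nat_lit 36716544)))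
  false (nat_lit 8936878)
def b4_7 : Bx := Bx.mk (St.mk (I.neg (nat_lit 10452992) (nat_lit 76169216)) (I.mix (nat_lit 46891008) (nat_lit 11354112)) (I.mix (nat_lit 13746176) (nat_lit 17645568)) (I.pos (nat_lit 141852672) (nat_lit 164413440)) (I.mix (nat_lit 48037888) (nat_lit 44253184)) (I.mix (nat_lit 33013760) (nat_lit 38666240)) (I.mix (nat_lit 20414464) (nat_lit 16941056)))
  true (nat_lit 0)
def b4_8 : Bx := Bx.mk (St.mk (I.pos (nat_lit 123174912) (nat_lit 188973056)) (I.mix (nat_lit 38174720) (nat_lit 16826368)) (I.mix (nat_lit 14499840) (nat_lit 50528256)) (I.pos (nat_lit 199049216) (nat_lit 271073280)) (I.mix (nat_lit 69058560) (nat_lit 65568768)) (I.mix (nat_lit 60030976) (nat_lit 55017472)) (I.mix (nat_lit 57819136) (nat_lit 53821440)))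
  false (nat_lit 64224881)
def b4_9 : Bx := Bx.mk (St.mk (I.pos (nat_lit 188596224) (nat_lit 293601280)) (I.mix (nat_lit 22806528) (nat_lit 51052544)) (I.mix (nat_lit 60719104) (nat_lit 83951616)) (I.pos (nat_lit 280559616) (nat_lit 459358208)) (I.mix (nat_lit 86654976) (nat_lit 73203712)) (I.mix (nat_lit 63406080) (nat_lit 49332224)) (I.mix (nat_lit 110460928) (nat_lit 76939264)))
  false (nat_lit 125817527)
def b4_10 : Bx := Bx.mk (St.mk (I.pos (nat_lit 160612352) (nat_lit 216694784)) (I.pos (nat_lit 22872064) (nat_lit 62586880)) (I.pos (nat_lit 42614784) (nat_lit 103071744)) (I.pos (nat_lit 261570560) (nat_lit 315686912)) (I.mix (nat_lit 118915072) (nat_lit 85999616)) (I.mix (nat_lit 88965120) (nat_lit 65486848)) (I.mix (nat_lit 128532480) (nat_lit 75431936)))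
  false (nat_lit 61594965)
def b4_11 : Bx := Bx.mk (St.mk (I.pos (nat_lit 141230080) (nat_lit 187269120)) (I.mix (nat_lit 7061504) (nat_lit 39256064)) (I.pos (nat_lit 20283392) (nat_lit 79626240)) (I.pos (nat_lit 220512256) (nat_lit 273514496)) (I.mix (nat_lit 122568704) (nat_lit 52953088)) (I.mix (nat_lit 106283008) (nat_lit 50675712)) (I.mix (nat_lit 106102784) (nat_lit 49872896)))
  false (nat_lit 24173621)
def t4 : BTr := (BTr.n (BTr.n (BTr.n (BTr.b b4_0) (BTr.n (BTr.b b4_1) (BTr.b b4_2))) (BTr.n (BTr.b b4_3) (BTr.n (BTr.b b4_4) (BTr.b b4_5)))) (BTr.n (BTr.n (BTr.b b4_6) (BTr.n (BTr.b b4_7) (BTr.b b4_8))) (BTr.n (BTr.b b4_9) (BTr.n (BTr.b b4_10) (BTr.b b4_11)))))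
namespace T4
def l0 : Tr := Tr.L (Pth.l (Pth.l (Pth.l Pth.z)))
def l1 : Tr := Tr.L (Pth.l (Pth.l (Pth.r (Pth.l Pth.z))))
def l2 : Tr := Tr.L (Pth.l (Pth.l (Pth.r (Pth.r Pth.z))))
def l3 : Tr := Tr.L (Pth.l (Pth.r (Pth.l Pth.z)))
def l4 : Tr := Tr.L (Pth.l (Pth.r (Pth.r (Pth.l Pth.z))))
def l5 : Tr := Tr.L (Pth.l (Pth.r (Pth.r (Pth.r Pth.z))))
def l6 : Tr := Tr.L (Pth.r (Pth.l (Pth.l Pth.z)))
def l7 : Tr := Tr.L (Pth.r (Pth.l (Pth.r (Pth.l Pth.z))))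
def l8 : Tr := Tr.L (Pth.r (Pth.l (Pth.r (Pth.r Pth.z))))
def l9 : Tr := Tr.L (Pth.r (Pth.r (Pth.l Pth.z)))
def l10 : Tr := Tr.L (Pth.r (Pth.r (Pth.r (Pth.l Pth.z))))
def l11 : Tr := Tr.L (Pth.r (Pth.r (Pth.r (Pth.r Pth.z))))
end T4
def b5_0 : Bx := Bx.mk (St.mk (I.pos (nat_lit 140361728) (nat_lit 225804288)) (I.mix (nat_lit 6864896) (nat_lit 52625408)) (I.mix (nat_lit 13762560) (nat_lit 105021440)) (I.pos (nat_lit 173539328) (nat_lit 275906560)) (I.mix (nat_lit 121503744) (nat_lit 69566464)) (I.mix (nat_lit 81117184) (nat_lit 65798144)) (I.mix (nat_lit 103071744) (nat_lit 77266944)))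
  false (nat_lit 51517932)
def b5_1 : Bx := Bx.mk (St.mk (I.pos (nat_lit 84819968) (nat_lit 163053568)) (I.neg (nat_lit 10944512) (nat_lit 62636032)) (I.mix (nat_lit 40992768) (nat_lit 11288576)) (I.pos (nat_lit 129384448) (nat_lit 188563456)) (I.mix (nat_lit 87883776) (nat_lit 55427072)) (I.mix (nat_lit 43270144) (nat_lit 50757632)) (I.mix (nat_lit 34701312) (nat_lit 39452672)))
  false (nat_lit 21944651)
def b5_2 : Bx := Bx.mk (St.mk (I.mix (nat_lit 32145408) (nat_lit 55705600)) (I.mix (nat_lit 32784384) (nat_lit 3735552)) (I.mix (nat_lit 2359296) (nat_lit 12861440)) (I.pos (nat_lit 84754432) (nat_lit 99401728)) (I.mix (nat_lit 25296896) (nat_lit 37765120)) (I.mix (nat_lit 19628032) (nat_lit 24133632)) (I.mix (nat_lit 6258688) (nat_lit 9289728)))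
  false (nat_lit 0)
def b5_3 : Bx := Bx.mk (St.mk (I.pos (nat_lit 148619264) (nat_lit 200884224)) (I.mix (nat_lit 6471680) (nat_lit 52363264)) (I.pos (nat_lit 29229056) (nat_lit 98566144)) (I.pos (nat_lit 173604864) (nat_lit 236945408)) (I.mix (nat_lit 131268608) (nat_lit 46120960)) (I.mix (nat_lit 107970560) (nat_lit 60997632)) (I.mix (nat_lit 107708416) (nat_lit 48267264)))
  false (nat_lit 61321146)
def b5_4 : Bx := Bx.mk (St.mk (I.mix (nat_lit 62324736) (nat_lit 81117184)) (I.mix (nat_lit 9388032) (nat_lit 34324480)) (I.mix (nat_lit 3964928) (nat_lit 25182208)) (I.pos (nat_lit 84623360) (nat_lit 110231552)) (I.mix (nat_lit 49676288) (nat_lit 24150016)) (I.mix (nat_lit 32653312) (nat_lit 21741568)) (I.mix (nat_lit 13041664) (nat_lit 11304960)))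
  false (nat_lit 0)
def b5_5 : Bx := Bx.mk (St.mk (I.pos (nat_lit 139837440) (nat_lit 195035136)) (I.mix (nat_lit 28786688) (nat_lit 8929280)) (I.mix (nat_lit 3883008) (nat_lit 47792128)) (I.pos (nat_lit 163512320) (nat_lit 224313344)) (I.mix (nat_lit 64225280) (nat_lit 63307776)) (I.mix (nat_lit 55574528) (nat_lit 54362112)) (I.mix (nat_lit 51527680) (nat_lit 51019776)))
  false (nat_lit 20734621)
def b5_6 : Bx := Bx.mk (St.mk (I.mix (nat_lit 62406656) (nat_lit 59883520)) (I.mix (nat_lit 11894784) (nat_lit 6373376)) (I.pos (nat_lit 4718592) (nat_lit 14467072)) (I.pos (nat_lit 86851584) (nat_lit 100319232)) (I.mix (nat_lit 11894784) (nat_lit 16875520)) (I.mix (nat_lit 9027584) (nat_lit 8093696)) (I.mix (nat_lit 3457024) (nat_lit 3424256)))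
  false (nat_lit 0)
def b5_7 : Bx := Bx.mk (St.mk (I.pos (nat_lit 140165120) (nat_lit 163512320)) (I.neg (nat_lit 16777216) (nat_lit 38273024)) (I.mix (nat_lit 15056896) (nat_lit 11223040)) (I.pos (nat_lit 168902656) (nat_lit 189022208)) (I.mix (nat_lit 29769728) (nat_lit 29278208)) (I.mix (nat_lit 17661952) (nat_lit 18006016)) (I.mix (nat_lit 15253504) (nat_lit 18055168)))
  false (nat_lit 0)
def b5_8 : Bx := Bx.mk (St.mk (I.mix (nat_lit 38764544) (nat_lit 110215168)) (I.mix (nat_lit 8798208) (nat_lit 33079296)) (I.mix (nat_lit 3653632) (nat_lit 26165248)) (I.pos (nat_lit 82329600) (nat_lit 127188992)) (I.mix (nat_lit 46612480) (nat_lit 37781504)) (I.mix (nat_lit 36995072) (nat_lit 27033600)) (I.mix (nat_lit 23543808) (nat_lit 17350656)))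
  false (nat_lit 0)
def b5_9 : Bx := Bx.mk (St.mk (I.pos (nat_lit 77103104) (nat_lit 132136960)) (I.mix (nat_lit 64126976) (nat_lit 12894208)) (I.mix (nat_lit 39829504) (nat_lit 13533184)) (I.pos (nat_lit 111427584) (nat_lit 157155328)) (I.mix (nat_lit 82345984) (nat_lit 35471360)) (I.mix (nat_lit 34521088) (nat_lit 57884672)) (I.mix (nat_lit 25018368) (nat_lit 37634048)))
  false (nat_lit 0)
def b5_10 : Bx := Bx.mk (St.mk (I.mix (nat_lit 54362112) (nat_lit 31424512)) (I.mix (nat_lit 31588352) (nat_lit 6340608)) (I.mix (nat_lit 1409024) (nat_lit 14204928)) (I.pos (nat_lit 83263488) (nat_lit 99336192)) (I.mix (nat_lit 29671424) (nat_lit 32522240)) (I.mix (nat_lit 19529728) (nat_lit 27688960)) (I.mix (nat_lit 10534912) (nat_lit 8192000)))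
  false (nat_lit 0)
def b5_11 : Bx := Bx.mk (St.mk (I.pos (nat_lit 156549120) (nat_lit 196526080)) (I.mix (nat_lit 14008320) (nat_lit 21774336)) (I.pos (nat_lit 19628032) (nat_lit 63291392)) (I.pos (nat_lit 181714944) (nat_lit 226066432)) (I.mix (nat_lit 77512704) (nat_lit 45793280)) (I.mix (nat_lit 60620800) (nat_lit 45842432)) (I.mix (nat_lit 59506688) (nat_lit 43483136)))
  false (nat_lit 815614)
def b5_12 : Bx := Bx.mk (St.mk (I.pos (nat_lit 187662336) (nat_lit 291389440)) (I.mix (nat_lit 21872640) (nat_lit 43286528)) (I.mix (nat_lit 31768576) (nat_lit 91996160)) (I.pos (nat_lit 226017280) (nat_lit 403275776)) (I.mix (nat_lit 83542016) (nat_lit 69812224)) (I.mix (nat_lit 63258624) (nat_lit 45400064)) (I.mix (nat_lit 108052480) (nat_lit 70729728)))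
  false (nat_lit 81147071)
def b5_13 : Bx := Bx.mk (St.mk (I.pos (nat_lit 167788544) (nat_lit 221609984)) (I.pos (nat_lit 17711104) (nat_lit 52396032)) (I.pos (nat_lit 47169536) (nat_lit 103809024)) (I.pos (nat_lit 213516288) (nat_lit 263929856)) (I.mix (nat_lit 112230400) (nat_lit 77889536)) (I.mix (nat_lit 86228992) (nat_lit 61964288)) (I.mix (nat_lit 125861888) (nat_lit 68567040)))
  false (nat_lit 37915510)
def t5 : BTr := (BTr.n (BTr.n (BTr.n (BTr.b b5_0) (BTr.n (BTr.b b5_1) (BTr.b b5_2))) (BTr.n (BTr.n (BTr.b b5_3) (BTr.b b5_4)) (BTr.n (BTr.b b5_5) (BTr.b b5_6)))) (BTr.n (BTr.n (BTr.b b5_7) (BTr.n (BTr.b b5_8) (BTr.b b5_9))) (BTr.n (BTr.n (BTr.b b5_10) (BTr.b b5_11)) (BTr.n (BTr.b b5_12) (BTr.b b5_13)))))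
namespace T5
def l0 : Tr := Tr.L (Pth.l (Pth.l (Pth.l Pth.z)))
def l1 : Tr := Tr.L (Pth.l (Pth.l (Pth.r (Pth.l Pth.z))))
def l2 : Tr := Tr.L (Pth.l (Pth.l (Pth.r (Pth.r Pth.z))))
def l3 : Tr := Tr.L (Pth.l (Pth.r (Pth.l (Pth.l Pth.z))))
def l4 : Tr := Tr.L (Pth.l (Pth.r (Pth.l (Pth.r Pth.z))))
def l5 : Tr := Tr.L (Pth.l (Pth.r (Pth.r (Pth.l Pth.z))))
def l6 : Tr := Tr.L (Pth.l (Pth.r (Pth.r (Pth.r Pth.z))))
def l7 : Tr := Tr.L (Pth.r (Pth.l (Pth.l Pth.z)))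
def l8 : Tr := Tr.L (Pth.r (Pth.l (Pth.r (Pth.l Pth.z))))
def l9 : Tr := Tr.L (Pth.r (Pth.l (Pth.r (Pth.r Pth.z))))
def l10 : Tr := Tr.L (Pth.r (Pth.r (Pth.l (Pth.l Pth.z))))
def l11 : Tr := Tr.L (Pth.r (Pth.r (Pth.l (Pth.r Pth.z))))
def l12 : Tr := Tr.L (Pth.r (Pth.r (Pth.r (Pth.l Pth.z))))
def l13 : Tr := Tr.L (Pth.r (Pth.r (Pth.r (Pth.r Pth.z))))
end T5
theorem bx0_0 : BoxOK sI cl5 cl6 cl13 t2 t4 b0_0 :=
  box_mk (TrL.c (I.pos (nat_lit 0) (nat_lit 0)) (xa (xb (xa T2.l11 T2.l0) (xa (xb T2.l0 T2.l0) (xb T2.l0 T2.l0))) (xb T2.l0 (xa (xb T2.l0 T2.l0) (xb T2.l0 T2.l0))))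
  (TrL.c (I.pos (nat_lit 0) (nat_lit 0)) T4.l1
  (TrL.c (I.pos (nat_lit 0) (nat_lit 0)) T2.l1
  (TrL.c (I.pos (nat_lit 0) (nat_lit 0)) T4.l2
  (TrL.c (I.pos (nat_lit 0) (nat_lit 0)) (xb (xa T4.l3 (xb T4.l3 T4.l3)) (xa T4.l3 (xb T4.l3 T4.l3)))
  (TrL.c (I.pos (nat_lit 0) (nat_lit 0)) T2.l2
  (TrL.c (I.pos (nat_lit 0) (nat_lit 0)) T4.l4
  (TrL.c (I.pos (nat_lit 0) (nat_lit 0)) T2.l3
  TrL.n)))))))) (by decide +kernel)
theorem bx0_1 : BoxOK sI cl5 cl6 cl13 t2 t4 b0_1 :=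
  box_mk (TrL.c (I.pos (nat_lit 0) (nat_lit 0)) (xa (xa (xb (xa (xb T2.l8 T2.l8) T2.l8) (xa (xb T2.l8 T2.l8) T2.l8)) (xb T2.l8 T2.l8)) (xa T2.l8 (xb T2.l8 (xa T2.l8 T2.l8))))
  (TrL.c (I.pos (nat_lit 0) (nat_lit 0)) T4.l1
  (TrL.c (I.pos (nat_lit 0) (nat_lit 0)) T2.l1
  (TrL.c (I.pos (nat_lit 0) (nat_lit 0)) T4.l2
  (TrL.c (I.pos (nat_lit 0) (nat_lit 0)) (xa T4.l8 T4.l8)
  (TrL.c (I.pos (nat_lit 0) (nat_lit 0)) T2.l2
  (TrL.c (I.pos (nat_lit 0) (nat_lit 0)) T4.l4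
  (TrL.c (I.pos (nat_lit 0) (nat_lit 0)) T2.l3
  TrL.n)))))))) (by decide +kernel)
theorem bx0_2 : BoxOK sI cl5 cl6 cl13 t2 t4 b0_2 :=
  box_mk (TrL.c (I.pos (nat_lit 0) (nat_lit 0)) (xb (xa T2.l8 T2.l8) (xa T2.l8 T2.l8))
  (TrL.c (I.pos (nat_lit 0) (nat_lit 0)) T4.l1
  (TrL.c (I.pos (nat_lit 0) (nat_lit 0)) T2.l1
  (TrL.c (I.pos (nat_lit 0) (nat_lit 0)) T4.l2
  (TrL.c (I.pos (nat_lit 0) (nat_lit 0)) T4.l8
  (TrL.c (I.pos (nat_lit 0) (nat_lit 0)) T2.l2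
  (TrL.c (I.pos (nat_lit 0) (nat_lit 0)) T4.l4
  (TrL.c (I.pos (nat_lit 0) (nat_lit 0)) T2.l3
  TrL.n)))))))) (by decide +kernel)
theorem bx0_3 : BoxOK sI cl5 cl6 cl13 t2 t4 b0_3 :=
  box_mk (TrL.c (I.pos (nat_lit 0) (nat_lit 0)) (xa (xb (xa (xb (xa T2.l8 T2.l8) T2.l8) T2.l8) T2.l8) T2.l8)
  (TrL.c (I.pos (nat_lit 0) (nat_lit 0)) T4.l8
  (TrL.c (I.pos (nat_lit 0) (nat_lit 0)) T2.l1
  (TrL.c (I.pos (nat_lit 0) (nat_lit 0)) T4.l2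
  (TrL.c (I.pos (nat_lit 0) (nat_lit 0)) T4.l1
  (TrL.c (I.pos (nat_lit 0) (nat_lit 0)) T2.l2
  (TrL.c (I.pos (nat_lit 0) (nat_lit 0)) T4.l4
  (TrL.c (I.pos (nat_lit 0) (nat_lit 0)) T2.l3
  TrL.n)))))))) (by decide +kernel)
theorem bx0_4 : BoxOK sI cl5 cl6 cl13 t2 t4 b0_4 :=
  box_mk (TrL.c (I.pos (nat_lit 0) (nat_lit 0)) (xa (xb T2.l0 T2.l0) (xb T2.l0 (xa T2.l0 T2.l0)))
  (TrL.c (I.pos (nat_lit 0) (nat_lit 0)) T4.l1
  (TrL.c (I.pos (nat_lit 0) (nat_lit 0)) T2.l1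
  (TrL.c (I.pos (nat_lit 0) (nat_lit 0)) T4.l7
  (TrL.c (I.pos (nat_lit 0) (nat_lit 0)) (xa T4.l3 (xb (xa T4.l3 T4.l3) (xa T4.l3 T4.l3)))
  (TrL.c (I.pos (nat_lit 0) (nat_lit 0)) T2.l2
  (TrL.c (I.pos (nat_lit 0) (nat_lit 0)) T4.l5
  (TrL.c (I.pos (nat_lit 0) (nat_lit 0)) T2.l3
  TrL.n)))))))) (by decide +kernel)
theorem bx0_5 : BoxOK sI cl5 cl6 cl13 t2 t4 b0_5 :=
  box_mk (TrL.c (I.pos (nat_lit 0) (nat_lit 0)) T2.l8
  (TrL.c (I.pos (nat_lit 0) (nat_lit 0)) T4.l1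
  (TrL.c (I.pos (nat_lit 0) (nat_lit 0)) T2.l1
  (TrL.c (I.pos (nat_lit 0) (nat_lit 0)) T4.l2
  (TrL.c (I.pos (nat_lit 0) (nat_lit 0)) T4.l8
  (TrL.c (I.pos (nat_lit 0) (nat_lit 0)) T2.l2
  (TrL.c (I.pos (nat_lit 0) (nat_lit 0)) T4.l4
  (TrL.c (I.pos (nat_lit 0) (nat_lit 0)) T2.l3
  TrL.n)))))))) (by decide +kernel)
theorem bx0_6 : BoxOK sI cl5 cl6 cl13 t2 t4 b0_6 :=
  box_mk (TrL.c (I.pos (nat_lit 0) (nat_lit 0)) T2.l8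
  (TrL.c (I.pos (nat_lit 0) (nat_lit 0)) T4.l1
  (TrL.c (I.pos (nat_lit 0) (nat_lit 0)) T2.l1
  (TrL.c (I.pos (nat_lit 0) (nat_lit 0)) T4.l2
  (TrL.c (I.pos (nat_lit 0) (nat_lit 0)) T4.l8
  (TrL.c (I.pos (nat_lit 0) (nat_lit 0)) T2.l2
  (TrL.c (I.pos (nat_lit 0) (nat_lit 0)) T4.l4
  (TrL.c (I.pos (nat_lit 0) (nat_lit 0)) T2.l3
  TrL.n)))))))) (by decide +kernel)
theorem bx0_7 : BoxOK sI cl5 cl6 cl13 t2 t4 b0_7 :=
  box_mk (TrL.c (I.pos (nat_lit 0) (nat_lit 0)) (xa (xb (xa T2.l8 T2.l8) (xa T2.l8 T2.l8)) (xb T2.l8 T2.l8))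
  (TrL.c (I.pos (nat_lit 0) (nat_lit 0)) T4.l1
  (TrL.c (I.pos (nat_lit 0) (nat_lit 0)) T2.l1
  (TrL.c (I.pos (nat_lit 0) (nat_lit 0)) T4.l2
  (TrL.c (I.pos (nat_lit 0) (nat_lit 0)) (xa T4.l8 T4.l8)
  (TrL.c (I.pos (nat_lit 0) (nat_lit 0)) T2.l2
  (TrL.c (I.pos (nat_lit 0) (nat_lit 0)) T4.l4
  (TrL.c (I.pos (nat_lit 0) (nat_lit 0)) T2.l3
  TrL.n)))))))) (by decide +kernel)
theorem bx0_8 : BoxOK sI cl5 cl6 cl13 t2 t4 b0_8 :=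
  box_mk (TrL.c (I.pos (nat_lit 0) (nat_lit 0)) (xa (xb (xa T2.l8 T2.l8) T2.l8) T2.l8)
  (TrL.c (I.pos (nat_lit 0) (nat_lit 0)) T4.l1
  (TrL.c (I.pos (nat_lit 0) (nat_lit 0)) T2.l1
  (TrL.c (I.pos (nat_lit 0) (nat_lit 0)) T4.l2
  (TrL.c (I.pos (nat_lit 0) (nat_lit 0)) T4.l8
  (TrL.c (I.pos (nat_lit 0) (nat_lit 0)) T2.l2
  (TrL.c (I.pos (nat_lit 0) (nat_lit 0)) T4.l4
  (TrL.c (I.pos (nat_lit 0) (nat_lit 0)) T2.l3
  TrL.n)))))))) (by decide +kernel)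
theorem bx0_9 : BoxOK sI cl5 cl6 cl13 t2 t4 b0_9 :=
  box_mk (TrL.c (I.pos (nat_lit 0) (nat_lit 0)) (xb (xa T2.l11 T2.l11) (xa (xb T2.l11 T2.l11) (xb T2.l11 T2.l11)))
  (TrL.c (I.pos (nat_lit 0) (nat_lit 0)) T4.l1
  (TrL.c (I.pos (nat_lit 0) (nat_lit 0)) T2.l1
  (TrL.c (I.pos (nat_lit 0) (nat_lit 0)) T4.l2
  (TrL.c (I.pos (nat_lit 0) (nat_lit 0)) (xb (xa T4.l11 T4.l11) (xa T4.l11 T4.l3))
  (TrL.c (I.pos (nat_lit 0) (nat_lit 0)) T2.l2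
  (TrL.c (I.pos (nat_lit 0) (nat_lit 0)) T4.l4
  (TrL.c (I.pos (nat_lit 0) (nat_lit 0)) T2.l3
  TrL.n)))))))) (by decide +kernel)
theorem bx0_10 : BoxOK sI cl5 cl6 cl13 t2 t4 b0_10 :=
  box_mk (TrL.c (I.pos (nat_lit 0) (nat_lit 0)) (xa (xa (xb (xa (xb T2.l8 T2.l8) T2.l8) (xa (xb T2.l8 (xa T2.l8 T2.l8)) T2.l8)) T2.l8) T2.l8)
  (TrL.c (I.pos (nat_lit 0) (nat_lit 0)) (xa T4.l8 T4.l1)
  (TrL.c (I.pos (nat_lit 0) (nat_lit 0)) T2.l1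
  (TrL.c (I.pos (nat_lit 0) (nat_lit 0)) T4.l2
  (TrL.c (I.pos (nat_lit 0) (nat_lit 0)) (xa T4.l1 T4.l8)
  (TrL.c (I.pos (nat_lit 0) (nat_lit 0)) T2.l2
  (TrL.c (I.pos (nat_lit 0) (nat_lit 0)) T4.l4
  (TrL.c (I.pos (nat_lit 0) (nat_lit 0)) T2.l3
  TrL.n)))))))) (by decide +kernel)
theorem bx0_11 : BoxOK sI cl5 cl6 cl13 t2 t4 b0_11 :=
  box_mk (TrL.c (I.pos (nat_lit 0) (nat_lit 0)) (xa (xb T2.l0 T2.l0) (xb T2.l0 T2.l0))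
  (TrL.c (I.pos (nat_lit 0) (nat_lit 0)) T4.l1
  (TrL.c (I.pos (nat_lit 0) (nat_lit 0)) T2.l1
  (TrL.c (I.pos (nat_lit 0) (nat_lit 0)) T4.l2
  (TrL.c (I.pos (nat_lit 0) (nat_lit 0)) (xb T4.l3 (xa T4.l3 T4.l3))
  (TrL.c (I.pos (nat_lit 0) (nat_lit 0)) T2.l2
  (TrL.c (I.pos (nat_lit 0) (nat_lit 0)) T4.l4
  (TrL.c (I.pos (nat_lit 0) (nat_lit 0)) T2.l3
  TrL.n)))))))) (by decide +kernel)
theorem bx0_12 : BoxOK sI cl5 cl6 cl13 t2 t4 b0_12 :=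
  box_mk (TrL.c (I.pos (nat_lit 0) (nat_lit 0)) (xa (xb T2.l0 T2.l11) T2.l0)
  (TrL.c (I.pos (nat_lit 0) (nat_lit 0)) T4.l1
  (TrL.c (I.pos (nat_lit 0) (nat_lit 0)) T2.l1
  (TrL.c (I.pos (nat_lit 0) (nat_lit 0)) T4.l2
  (TrL.c (I.pos (nat_lit 0) (nat_lit 0)) (xa T4.l0 T4.l0)
  (TrL.c (I.pos (nat_lit 0) (nat_lit 0)) T2.l2
  (TrL.c (I.pos (nat_lit 0) (nat_lit 0)) T4.l4
  (TrL.c (I.pos (nat_lit 0) (nat_lit 0)) T2.l3
  TrL.n)))))))) (by decide +kernel)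
theorem bx0_13 : BoxOK sI cl5 cl6 cl13 t2 t4 b0_13 :=
  box_mk (TrL.c (I.pos (nat_lit 0) (nat_lit 0)) (xa T2.l11 T2.l11)
  (TrL.c (I.pos (nat_lit 0) (nat_lit 0)) T4.l1
  (TrL.c (I.pos (nat_lit 0) (nat_lit 0)) T2.l1
  (TrL.c (I.pos (nat_lit 0) (nat_lit 0)) T4.l2
  (TrL.c (I.pos (nat_lit 0) (nat_lit 0)) T4.l11
  (TrL.c (I.pos (nat_lit 0) (nat_lit 0)) T2.l2
  (TrL.c (I.pos (nat_lit 0) (nat_lit 0)) T4.l4
  (TrL.c (I.pos (nat_lit 0) (nat_lit 0)) T2.l3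
  TrL.n)))))))) (by decide +kernel)
theorem sv0 : StarV sI cl5 cl6 cl13 t2 t4 t0 :=
  (bt_n (bt_n (bt_n (bt_b bx0_0) (bt_n (bt_b bx0_1) (bt_b bx0_2))) (bt_n (bt_n (bt_b bx0_3) (bt_b bx0_4)) (bt_n (bt_b bx0_5) (bt_b bx0_6)))) (bt_n (bt_n (bt_b bx0_7) (bt_n (bt_b bx0_8) (bt_b bx0_9))) (bt_n (bt_n (bt_b bx0_10) (bt_b bx0_11)) (bt_n (bt_b bx0_12) (bt_b bx0_13)))))
def S0 : StarD := StarD.mk cl5 cl6 cl13 2 4 t0
theorem bx1_0 : BoxOK sI cl5 cl13 cl6 t4 t2 b1_0 :=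
  box_mk (TrL.c (I.pos (nat_lit 0) (nat_lit 0)) (xa (xb (xa (xb T4.l0 T4.l0) (xb T4.l0 T4.l0)) (xa (xb T4.l0 (xa T4.l0 T4.l0)) (xb T4.l0 T4.l0))) (xb (xa T4.l0 T4.l0) (xa (xb T4.l0 T4.l0) (xb T4.l0 T4.l0))))
  (TrL.c (I.pos (nat_lit 0) (nat_lit 0)) (xa T2.l4 T2.l4)
  (TrL.c (I.pos (nat_lit 0) (nat_lit 0)) T4.l5
  (TrL.c (I.pos (nat_lit 0) (nat_lit 0)) T2.l5
  (TrL.c (I.pos (nat_lit 0) (nat_lit 0)) (xa (xb T2.l6 T2.l6) (xb (xa T2.l6 T2.l6) (xa T2.l6 T2.l6)))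
  (TrL.c (I.pos (nat_lit 0) (nat_lit 0)) T4.l6
  (TrL.c (I.pos (nat_lit 0) (nat_lit 0)) T2.l7
  (TrL.c (I.pos (nat_lit 0) (nat_lit 0)) T4.l7
  TrL.n)))))))) (by decide +kernel)
theorem bx1_1 : BoxOK sI cl5 cl13 cl6 t4 t2 b1_1 :=
  box_mk (TrL.c (I.pos (nat_lit 0) (nat_lit 0)) (xa (xa T4.l9 T4.l9) (xa T4.l9 (xa T4.l9 T4.l9)))
  (TrL.c (I.pos (nat_lit 0) (nat_lit 0)) (xa T2.l4 T2.l4)
  (TrL.c (I.pos (nat_lit 0) (nat_lit 0)) T4.l5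
  (TrL.c (I.pos (nat_lit 0) (nat_lit 0)) T2.l5
  (TrL.c (I.pos (nat_lit 0) (nat_lit 0)) (xa T2.l9 T2.l9)
  (TrL.c (I.pos (nat_lit 0) (nat_lit 0)) T4.l6
  (TrL.c (I.pos (nat_lit 0) (nat_lit 0)) T2.l7
  (TrL.c (I.pos (nat_lit 0) (nat_lit 0)) T4.l7
  TrL.n)))))))) (by decide +kernel)
theorem bx1_2 : BoxOK sI cl5 cl13 cl6 t4 t2 b1_2 :=
  box_mk (TrL.c (I.pos (nat_lit 0) (nat_lit 0)) (xb (xa T4.l9 T4.l0) (xa T4.l9 T4.l9))
  (TrL.c (I.pos (nat_lit 0) (nat_lit 0)) T2.l4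
  (TrL.c (I.pos (nat_lit 0) (nat_lit 0)) T4.l5
  (TrL.c (I.pos (nat_lit 0) (nat_lit 0)) T2.l5
  (TrL.c (I.pos (nat_lit 0) (nat_lit 0)) T2.l9
  (TrL.c (I.pos (nat_lit 0) (nat_lit 0)) T4.l6
  (TrL.c (I.pos (nat_lit 0) (nat_lit 0)) T2.l7
  (TrL.c (I.pos (nat_lit 0) (nat_lit 0)) T4.l7
  TrL.n)))))))) (by decide +kernel)
theorem bx1_3 : BoxOK sI cl5 cl13 cl6 t4 t2 b1_3 :=
  box_mk (TrL.c (I.pos (nat_lit 0) (nat_lit 0)) (xa (xa (xb (xa T4.l9 T4.l9) T4.l9) T4.l9) T4.l9)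
  (TrL.c (I.pos (nat_lit 0) (nat_lit 0)) (xa T2.l4 T2.l4)
  (TrL.c (I.pos (nat_lit 0) (nat_lit 0)) T4.l5
  (TrL.c (I.pos (nat_lit 0) (nat_lit 0)) T2.l5
  (TrL.c (I.pos (nat_lit 0) (nat_lit 0)) (xa T2.l9 T2.l9)
  (TrL.c (I.pos (nat_lit 0) (nat_lit 0)) T4.l6
  (TrL.c (I.pos (nat_lit 0) (nat_lit 0)) T2.l7
  (TrL.c (I.pos (nat_lit 0) (nat_lit 0)) T4.l7
  TrL.n)))))))) (by decide +kernel)
theorem bx1_4 : BoxOK sI cl5 cl13 cl6 t4 t2 b1_4 :=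
  box_mk (TrL.c (I.pos (nat_lit 0) (nat_lit 0)) (xa T4.l0 (xa T4.l0 (xb T4.l0 T4.l0)))
  (TrL.c (I.pos (nat_lit 0) (nat_lit 0)) T2.l4
  (TrL.c (I.pos (nat_lit 0) (nat_lit 0)) T4.l5
  (TrL.c (I.pos (nat_lit 0) (nat_lit 0)) T2.l3
  (TrL.c (I.pos (nat_lit 0) (nat_lit 0)) (xa T2.l6 (xb (xa T2.l6 T2.l6) (xa T2.l6 T2.l6)))
  (TrL.c (I.pos (nat_lit 0) (nat_lit 0)) T4.l1
  (TrL.c (I.pos (nat_lit 0) (nat_lit 0)) T2.l1
  (TrL.c (I.pos (nat_lit 0) (nat_lit 0)) T4.l7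
  TrL.n)))))))) (by decide +kernel)
theorem bx1_5 : BoxOK sI cl5 cl13 cl6 t4 t2 b1_5 :=
  box_mk (TrL.c (I.pos (nat_lit 0) (nat_lit 0)) T4.l9
  (TrL.c (I.pos (nat_lit 0) (nat_lit 0)) T2.l4
  (TrL.c (I.pos (nat_lit 0) (nat_lit 0)) T4.l5
  (TrL.c (I.pos (nat_lit 0) (nat_lit 0)) T2.l5
  (TrL.c (I.pos (nat_lit 0) (nat_lit 0)) T2.l9
  (TrL.c (I.pos (nat_lit 0) (nat_lit 0)) T4.l6
  (TrL.c (I.pos (nat_lit 0) (nat_lit 0)) T2.l7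
  (TrL.c (I.pos (nat_lit 0) (nat_lit 0)) T4.l7
  TrL.n)))))))) (by decide +kernel)
theorem bx1_6 : BoxOK sI cl5 cl13 cl6 t4 t2 b1_6 :=
  box_mk (TrL.c (I.pos (nat_lit 0) (nat_lit 0)) T4.l9
  (TrL.c (I.pos (nat_lit 0) (nat_lit 0)) T2.l4
  (TrL.c (I.pos (nat_lit 0) (nat_lit 0)) T4.l5
  (TrL.c (I.pos (nat_lit 0) (nat_lit 0)) T2.l5
  (TrL.c (I.pos (nat_lit 0) (nat_lit 0)) T2.l9
  (TrL.c (I.pos (nat_lit 0) (nat_lit 0)) T4.l6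
  (TrL.c (I.pos (nat_lit 0) (nat_lit 0)) T2.l7
  (TrL.c (I.pos (nat_lit 0) (nat_lit 0)) T4.l7
  TrL.n)))))))) (by decide +kernel)
theorem bx1_7 : BoxOK sI cl5 cl13 cl6 t4 t2 b1_7 :=
  box_mk (TrL.c (I.pos (nat_lit 0) (nat_lit 0)) (xa (xb (xa T4.l9 T4.l9) (xa T4.l9 T4.l9)) (xb T4.l0 T4.l0))
  (TrL.c (I.pos (nat_lit 0) (nat_lit 0)) T2.l4
  (TrL.c (I.pos (nat_lit 0) (nat_lit 0)) T4.l5
  (TrL.c (I.pos (nat_lit 0) (nat_lit 0)) T2.l5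
  (TrL.c (I.pos (nat_lit 0) (nat_lit 0)) (xa T2.l9 (xb T2.l9 T2.l0))
  (TrL.c (I.pos (nat_lit 0) (nat_lit 0)) T4.l6
  (TrL.c (I.pos (nat_lit 0) (nat_lit 0)) T2.l7
  (TrL.c (I.pos (nat_lit 0) (nat_lit 0)) T4.l7
  TrL.n)))))))) (by decide +kernel)
theorem bx1_8 : BoxOK sI cl5 cl13 cl6 t4 t2 b1_8 :=
  box_mk (TrL.c (I.pos (nat_lit 0) (nat_lit 0)) T4.l9
  (TrL.c (I.pos (nat_lit 0) (nat_lit 0)) T2.l4
  (TrL.c (I.pos (nat_lit 0) (nat_lit 0)) T4.l5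
  (TrL.c (I.pos (nat_lit 0) (nat_lit 0)) T2.l5
  (TrL.c (I.pos (nat_lit 0) (nat_lit 0)) T2.l9
  (TrL.c (I.pos (nat_lit 0) (nat_lit 0)) T4.l6
  (TrL.c (I.pos (nat_lit 0) (nat_lit 0)) T2.l7
  (TrL.c (I.pos (nat_lit 0) (nat_lit 0)) T4.l7
  TrL.n)))))))) (by decide +kernel)
theorem bx1_9 : BoxOK sI cl5 cl13 cl6 t4 t2 b1_9 :=
  box_mk (TrL.c (I.pos (nat_lit 0) (nat_lit 0)) (xb (xa T4.l10 T4.l10) (xa (xb T4.l10 T4.l10) (xb T4.l10 T4.l10)))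
  (TrL.c (I.pos (nat_lit 0) (nat_lit 0)) T2.l4
  (TrL.c (I.pos (nat_lit 0) (nat_lit 0)) T4.l5
  (TrL.c (I.pos (nat_lit 0) (nat_lit 0)) T2.l5
  (TrL.c (I.pos (nat_lit 0) (nat_lit 0)) (xb T2.l10 T2.l10)
  (TrL.c (I.pos (nat_lit 0) (nat_lit 0)) T4.l6
  (TrL.c (I.pos (nat_lit 0) (nat_lit 0)) T2.l7
  (TrL.c (I.pos (nat_lit 0) (nat_lit 0)) T4.l7
  TrL.n)))))))) (by decide +kernel)
theorem bx1_10 : BoxOK sI cl5 cl13 cl6 t4 t2 b1_10 :=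
  box_mk (TrL.c (I.pos (nat_lit 0) (nat_lit 0)) (xa (xa (xb (xa (xb T4.l9 T4.l9) T4.l9) (xa (xb T4.l9 (xa T4.l9 T4.l9)) T4.l9)) (xb T4.l9 T4.l9)) (xa T4.l9 (xb T4.l9 (xa T4.l9 T4.l9))))
  (TrL.c (I.pos (nat_lit 0) (nat_lit 0)) (xa T2.l4 T2.l4)
  (TrL.c (I.pos (nat_lit 0) (nat_lit 0)) T4.l5
  (TrL.c (I.pos (nat_lit 0) (nat_lit 0)) T2.l5
  (TrL.c (I.pos (nat_lit 0) (nat_lit 0)) (xa T2.l9 T2.l9)
  (TrL.c (I.pos (nat_lit 0) (nat_lit 0)) T4.l6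
  (TrL.c (I.pos (nat_lit 0) (nat_lit 0)) T2.l7
  (TrL.c (I.pos (nat_lit 0) (nat_lit 0)) T4.l7
  TrL.n)))))))) (by decide +kernel)
theorem bx1_11 : BoxOK sI cl5 cl13 cl6 t4 t2 b1_11 :=
  box_mk (TrL.c (I.pos (nat_lit 0) (nat_lit 0)) (xa T4.l0 T4.l0)
  (TrL.c (I.pos (nat_lit 0) (nat_lit 0)) T2.l4
  (TrL.c (I.pos (nat_lit 0) (nat_lit 0)) T4.l5
  (TrL.c (I.pos (nat_lit 0) (nat_lit 0)) T2.l5
  (TrL.c (I.pos (nat_lit 0) (nat_lit 0)) (xa T2.l0 T2.l0)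
  (TrL.c (I.pos (nat_lit 0) (nat_lit 0)) T4.l6
  (TrL.c (I.pos (nat_lit 0) (nat_lit 0)) T2.l7
  (TrL.c (I.pos (nat_lit 0) (nat_lit 0)) T4.l7
  TrL.n)))))))) (by decide +kernel)
theorem bx1_12 : BoxOK sI cl5 cl13 cl6 t4 t2 b1_12 :=
  box_mk (TrL.c (I.pos (nat_lit 0) (nat_lit 0)) (xa T4.l10 T4.l10)
  (TrL.c (I.pos (nat_lit 0) (nat_lit 0)) T2.l4
  (TrL.c (I.pos (nat_lit 0) (nat_lit 0)) T4.l5
  (TrL.c (I.pos (nat_lit 0) (nat_lit 0)) T2.l5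
  (TrL.c (I.pos (nat_lit 0) (nat_lit 0)) T2.l10
  (TrL.c (I.pos (nat_lit 0) (nat_lit 0)) T4.l6
  (TrL.c (I.pos (nat_lit 0) (nat_lit 0)) T2.l7
  (TrL.c (I.pos (nat_lit 0) (nat_lit 0)) T4.l7
  TrL.n)))))))) (by decide +kernel)
theorem bx1_13 : BoxOK sI cl5 cl13 cl6 t4 t2 b1_13 :=
  box_mk (TrL.c (I.pos (nat_lit 0) (nat_lit 0)) (xa (xb T4.l0 T4.l0) (xb T4.l0 T4.l0))
  (TrL.c (I.pos (nat_lit 0) (nat_lit 0)) T2.l4
  (TrL.c (I.pos (nat_lit 0) (nat_lit 0)) T4.l5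
  (TrL.c (I.pos (nat_lit 0) (nat_lit 0)) T2.l5
  (TrL.c (I.pos (nat_lit 0) (nat_lit 0)) T2.l6
  (TrL.c (I.pos (nat_lit 0) (nat_lit 0)) T4.l6
  (TrL.c (I.pos (nat_lit 0) (nat_lit 0)) T2.l7
  (TrL.c (I.pos (nat_lit 0) (nat_lit 0)) T4.l7
  TrL.n)))))))) (by decide +kernel)
theorem sv1 : StarV sI cl5 cl13 cl6 t4 t2 t1 :=
  (bt_n (bt_n (bt_n (bt_b bx1_0) (bt_n (bt_b bx1_1) (bt_b bx1_2))) (bt_n (bt_n (bt_b bx1_3) (bt_b bx1_4)) (bt_n (bt_b bx1_5) (bt_b bx1_6)))) (bt_n (bt_n (bt_b bx1_7) (bt_n (bt_b bx1_8) (bt_b bx1_9))) (bt_n (bt_n (bt_b bx1_10) (bt_b bx1_11)) (bt_n (bt_b bx1_12) (bt_b bx1_13)))))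
def S1 : StarD := StarD.mk cl5 cl13 cl6 4 2 t1
theorem bx2_0 : BoxOK sI cl6 cl5 cl13 t0 t5 b2_0 :=
  box_mk (TrL.c (I.pos (nat_lit 0) (nat_lit 0)) (xa (xb (xb T0.l0 T0.l0) (xa (xb T0.l0 T0.l0) (xb T0.l0 T0.l0))) (xb T0.l0 (xa T0.l0 T0.l0)))
  (TrL.c (I.pos (nat_lit 0) (nat_lit 0)) T5.l1
  (TrL.c (I.pos (nat_lit 0) (nat_lit 89480386)) (xR T0.l1 (xR T0.l1 T0.l1))
  (TrL.c (I.pos (nat_lit 0) (nat_lit 41530880)) (xR T5.l2 T5.l2)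
  (TrL.c (I.pos (nat_lit 0) (nat_lit 0)) (xb (xa T5.l3 T5.l3) (xa T5.l3 T5.l3))
  (TrL.c (I.pos (nat_lit 0) (nat_lit 0)) T0.l2
  (TrL.c (I.mix (nat_lit 41527258) (nat_lit 41530880)) (xR (xR T5.l4 T5.l4) (xR T5.l4 T5.l4))
  (TrL.c (I.mix (nat_lit 41527258) (nat_lit 4274)) (xR T0.l3 T0.l3)
  TrL.n)))))))) (by decide +kernel)
theorem bx2_1 : BoxOK sI cl6 cl5 cl13 t0 t5 b2_1 :=
  box_mk (TrL.c (I.pos (nat_lit 0) (nat_lit 0)) (xb T0.l4 (xa T0.l4 T0.l4))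
  (TrL.c (I.pos (nat_lit 0) (nat_lit 0)) T5.l1
  (TrL.c (I.pos (nat_lit 0) (nat_lit 89480386)) T0.l1
  (TrL.c (I.pos (nat_lit 0) (nat_lit 41530880)) T5.l2
  (TrL.c (I.pos (nat_lit 0) (nat_lit 0)) T5.l5
  (TrL.c (I.pos (nat_lit 0) (nat_lit 0)) T0.l2
  (TrL.c (I.mix (nat_lit 41527258) (nat_lit 41530880)) T5.l4
  (TrL.c (I.mix (nat_lit 41527258) (nat_lit 4274)) T0.l3
  TrL.n)))))))) (by decide +kernel)
theorem bx2_2 : BoxOK sI cl6 cl5 cl13 t0 t5 b2_2 :=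
  box_mk (TrL.c (I.pos (nat_lit 0) (nat_lit 0)) (xb (xa T0.l4 T0.l4) (xa (xb T0.l4 T0.l4) T0.l4))
  (TrL.c (I.pos (nat_lit 0) (nat_lit 0)) T5.l1
  (TrL.c (I.pos (nat_lit 0) (nat_lit 89480386)) (xR T0.l1 T0.l1)
  (TrL.c (I.pos (nat_lit 0) (nat_lit 41530880)) T5.l2
  (TrL.c (I.pos (nat_lit 0) (nat_lit 0)) T5.l5
  (TrL.c (I.pos (nat_lit 0) (nat_lit 0)) T0.l2
  (TrL.c (I.mix (nat_lit 41527258) (nat_lit 41530880)) T5.l4
  (TrL.c (I.mix (nat_lit 41527258) (nat_lit 4274)) T0.l3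
  TrL.n)))))))) (by decide +kernel)
theorem bx2_3 : BoxOK sI cl6 cl5 cl13 t0 t5 b2_3 :=
  box_mk (TrL.c (I.pos (nat_lit 0) (nat_lit 0)) T5.l1
  (TrL.c (I.pos (nat_lit 0) (nat_lit 0)) T0.l1
  (TrL.c (I.mix (nat_lit 41527258) (nat_lit 41530880)) (xR T5.l10 T5.l2)
  (TrL.c (I.mix (nat_lit 41527258) (nat_lit 4274)) T0.l10
  TrL.n)))) (by decide +kernel)
theorem bx2_4 : BoxOK sI cl6 cl5 cl13 t0 t5 b2_4 :=
  box_mk (TrL.c (I.pos (nat_lit 0) (nat_lit 0)) (xa (xb (xa T0.l4 T0.l4) (xa T0.l4 T0.l4)) (xb T0.l4 T0.l4))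
  (TrL.c (I.pos (nat_lit 0) (nat_lit 0)) T5.l1
  (TrL.c (I.pos (nat_lit 0) (nat_lit 89480386)) (xR T0.l1 (xR T0.l1 T0.l1))
  (TrL.c (I.pos (nat_lit 0) (nat_lit 41530880)) (xR T5.l2 T5.l2)
  (TrL.c (I.pos (nat_lit 0) (nat_lit 0)) (xa T5.l5 T5.l5)
  (TrL.c (I.pos (nat_lit 0) (nat_lit 0)) T0.l2
  (TrL.c (I.mix (nat_lit 41527258) (nat_lit 41530880)) (xR (xR T5.l4 T5.l4) T5.l8)
  (TrL.c (I.mix (nat_lit 41527258) (nat_lit 4274)) (xR T0.l3 T0.l3)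
  TrL.n)))))))) (by decide +kernel)
theorem bx2_5 : BoxOK sI cl6 cl5 cl13 t0 t5 b2_5 :=
  box_mk (TrL.c (I.pos (nat_lit 0) (nat_lit 0)) T5.l7
  (TrL.c (I.pos (nat_lit 0) (nat_lit 0)) T0.l1
  (TrL.c (I.mix (nat_lit 41527258) (nat_lit 41530880)) (xR T5.l4 T5.l2)
  (TrL.c (I.mix (nat_lit 41527258) (nat_lit 4274)) T0.l10
  TrL.n)))) (by decide +kernel)
theorem bx2_6 : BoxOK sI cl6 cl5 cl13 t0 t5 b2_6 :=
  box_mk (TrL.c (I.pos (nat_lit 0) (nat_lit 0)) (xb (xa T0.l11 T0.l11) (xa T0.l11 T0.l11))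
  (TrL.c (I.pos (nat_lit 0) (nat_lit 0)) T5.l1
  (TrL.c (I.pos (nat_lit 0) (nat_lit 89480386)) (xR T0.l1 (xR T0.l1 T0.l1))
  (TrL.c (I.pos (nat_lit 0) (nat_lit 41530880)) (xR T5.l2 T5.l2)
  (TrL.c (I.pos (nat_lit 0) (nat_lit 0)) (xb T5.l3 T5.l3)
  (TrL.c (I.pos (nat_lit 0) (nat_lit 0)) T0.l2
  (TrL.c (I.mix (nat_lit 41527258) (nat_lit 41530880)) (xR T5.l4 T5.l8)
  (TrL.c (I.mix (nat_lit 41527258) (nat_lit 4274)) (xR T0.l3 T0.l3)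
  TrL.n)))))))) (by decide +kernel)
theorem bx2_7 : BoxOK sI cl6 cl5 cl13 t0 t5 b2_7 :=
  box_mk (TrL.c (I.pos (nat_lit 0) (nat_lit 0)) (xb (xa (xb T0.l4 T0.l4) T0.l4) T0.l4)
  (TrL.c (I.pos (nat_lit 0) (nat_lit 0)) T5.l7
  (TrL.c (I.pos (nat_lit 0) (nat_lit 89480386)) T0.l1
  (TrL.c (I.pos (nat_lit 0) (nat_lit 41530880)) T5.l2
  (TrL.c (I.pos (nat_lit 0) (nat_lit 0)) T5.l5
  (TrL.c (I.pos (nat_lit 0) (nat_lit 0)) T0.l2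
  (TrL.c (I.mix (nat_lit 41527258) (nat_lit 41530880)) T5.l4
  (TrL.c (I.mix (nat_lit 41527258) (nat_lit 4274)) T0.l3
  TrL.n)))))))) (by decide +kernel)
theorem bx2_8 : BoxOK sI cl6 cl5 cl13 t0 t5 b2_8 :=
  box_mk (TrL.c (I.pos (nat_lit 0) (nat_lit 0)) (xa (xb (xa T0.l0 T0.l0) (xa T0.l0 T0.l0)) (xb (xa T0.l0 T0.l0) (xa T0.l0 T0.l0)))
  (TrL.c (I.pos (nat_lit 0) (nat_lit 0)) T5.l1
  (TrL.c (I.pos (nat_lit 0) (nat_lit 89480386)) (xR T0.l1 (xR T0.l1 T0.l1))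
  (TrL.c (I.pos (nat_lit 0) (nat_lit 41530880)) (xR T5.l2 T5.l2)
  (TrL.c (I.pos (nat_lit 0) (nat_lit 0)) (xa (xb T5.l0 T5.l3) (xb (xa (xb T5.l3 T5.l3) (xb T5.l3 T5.l3)) (xb (xa T5.l3 T5.l3) (xa T5.l3 T5.l3))))
  (TrL.c (I.pos (nat_lit 0) (nat_lit 0)) T0.l2
  (TrL.c (I.mix (nat_lit 41527258) (nat_lit 41530880)) (xR (xR T5.l8 T5.l4) (xR T5.l4 T5.l4))
  (TrL.c (I.mix (nat_lit 41527258) (nat_lit 4274)) (xR T0.l3 T0.l3)
  TrL.n)))))))) (by decide +kernel)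
theorem bx2_9 : BoxOK sI cl6 cl5 cl13 t0 t5 b2_9 :=
  box_mk (TrL.c (I.pos (nat_lit 0) (nat_lit 0)) (xa (xb T0.l11 T0.l11) T0.l0)
  (TrL.c (I.pos (nat_lit 0) (nat_lit 0)) T5.l1
  (TrL.c (I.pos (nat_lit 0) (nat_lit 89480386)) (xR T0.l1 T0.l1)
  (TrL.c (I.pos (nat_lit 0) (nat_lit 41530880)) (xR T5.l2 T5.l2)
  (TrL.c (I.pos (nat_lit 0) (nat_lit 0)) (xb (xa T5.l5 T5.l0) T5.l11)
  (TrL.c (I.pos (nat_lit 0) (nat_lit 0)) T0.l2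
  (TrL.c (I.mix (nat_lit 41527258) (nat_lit 41530880)) (xR T5.l8 T5.l4)
  (TrL.c (I.mix (nat_lit 41527258) (nat_lit 4274)) (xR T0.l3 T0.l3)
  TrL.n)))))))) (by decide +kernel)
theorem bx2_10 : BoxOK sI cl6 cl5 cl13 t0 t5 b2_10 :=
  box_mk (TrL.c (I.pos (nat_lit 0) (nat_lit 0)) (xa T0.l11 T0.l11)
  (TrL.c (I.pos (nat_lit 0) (nat_lit 0)) T5.l1
  (TrL.c (I.pos (nat_lit 0) (nat_lit 89480386)) (xR T0.l1 T0.l1)
  (TrL.c (I.pos (nat_lit 0) (nat_lit 41530880)) T5.l2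
  (TrL.c (I.pos (nat_lit 0) (nat_lit 0)) T5.l3
  (TrL.c (I.pos (nat_lit 0) (nat_lit 0)) T0.l2
  (TrL.c (I.mix (nat_lit 41527258) (nat_lit 41530880)) (xR T5.l4 T5.l4)
  (TrL.c (I.mix (nat_lit 41527258) (nat_lit 4274)) T0.l3
  TrL.n)))))))) (by decide +kernel)
theorem bx2_11 : BoxOK sI cl6 cl5 cl13 t0 t5 b2_11 :=
  box_mk (TrL.c (I.pos (nat_lit 0) (nat_lit 0)) (xa (xb T0.l0 T0.l0) (xb T0.l0 T0.l0))
  (TrL.c (I.pos (nat_lit 0) (nat_lit 0)) T5.l1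
  (TrL.c (I.pos (nat_lit 0) (nat_lit 89480386)) (xR T0.l1 T0.l1)
  (TrL.c (I.pos (nat_lit 0) (nat_lit 41530880)) (xR T5.l2 T5.l2)
  (TrL.c (I.pos (nat_lit 0) (nat_lit 0)) (xb T5.l3 T5.l3)
  (TrL.c (I.pos (nat_lit 0) (nat_lit 0)) T0.l2
  (TrL.c (I.mix (nat_lit 41527258) (nat_lit 41530880)) (xR T5.l4 T5.l4)
  (TrL.c (I.mix (nat_lit 41527258) (nat_lit 4274)) (xR T0.l3 T0.l3)
  TrL.n)))))))) (by decide +kernel)
theorem sv2 : StarV sI cl6 cl5 cl13 t0 t5 t2 :=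
  (bt_n (bt_n (bt_n (bt_b bx2_0) (bt_n (bt_b bx2_1) (bt_b bx2_2))) (bt_n (bt_b bx2_3) (bt_n (bt_b bx2_4) (bt_b bx2_5)))) (bt_n (bt_n (bt_b bx2_6) (bt_n (bt_b bx2_7) (bt_b bx2_8))) (bt_n (bt_b bx2_9) (bt_n (bt_b bx2_10) (bt_b bx2_11)))))
def S2 : StarD := StarD.mk cl6 cl5 cl13 0 5 t2
theorem bx3_0 : BoxOK sI cl6 cl13 cl5 t5 t0 b3_0 :=
  box_mk (TrL.c (I.pos (nat_lit 0) (nat_lit 0)) (xa (xb (xa (xb T5.l0 T5.l0) T5.l13) (xa (xb T5.l0 (xa T5.l0 T5.l0)) (xb T5.l0 (xa T5.l0 T5.l0)))) (xb (xa T5.l0 T5.l0) (xa (xb T5.l0 T5.l0) (xb T5.l0 T5.l0))))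
  (TrL.c (I.pos (nat_lit 0) (nat_lit 0)) T0.l7
  (TrL.c (I.pos (nat_lit 0) (nat_lit 89480386)) (xR T5.l8 (xR T5.l8 T5.l8))
  (TrL.c (I.pos (nat_lit 0) (nat_lit 41530880)) (xR T0.l8 T0.l8)
  (TrL.c (I.pos (nat_lit 0) (nat_lit 0)) (xa T0.l9 (xb T0.l9 T0.l9))
  (TrL.c (I.pos (nat_lit 0) (nat_lit 0)) T5.l9
  (TrL.c (I.mix (nat_lit 41527258) (nat_lit 41530880)) (xR T0.l1 (xR T0.l1 T0.l1))
  (TrL.c (I.mix (nat_lit 41527258) (nat_lit 4274)) (xR T5.l10 T5.l10)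
  TrL.n)))))))) (by decide +kernel)
theorem bx3_1 : BoxOK sI cl6 cl13 cl5 t5 t0 b3_1 :=
  box_mk (TrL.c (I.pos (nat_lit 0) (nat_lit 0)) (xa (xb (xa T5.l12 T5.l12) (xa T5.l12 T5.l12)) (xb T5.l0 T5.l0))
  (TrL.c (I.pos (nat_lit 0) (nat_lit 0)) T0.l7
  (TrL.c (I.pos (nat_lit 0) (nat_lit 89480386)) (xR T5.l8 T5.l8)
  (TrL.c (I.pos (nat_lit 0) (nat_lit 41530880)) T0.l8
  (TrL.c (I.pos (nat_lit 0) (nat_lit 0)) (xa T0.l12 T0.l12)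
  (TrL.c (I.pos (nat_lit 0) (nat_lit 0)) T5.l9
  (TrL.c (I.mix (nat_lit 41527258) (nat_lit 41530880)) T0.l1
  (TrL.c (I.mix (nat_lit 41527258) (nat_lit 4274)) (xR T5.l10 T5.l10)
  TrL.n)))))))) (by decide +kernel)
theorem bx3_2 : BoxOK sI cl6 cl13 cl5 t5 t0 b3_2 :=
  box_mk (TrL.c (I.pos (nat_lit 0) (nat_lit 0)) (xa (xa T5.l12 T5.l12) T5.l12)
  (TrL.c (I.pos (nat_lit 0) (nat_lit 0)) (xa T0.l7 T0.l7)
  (TrL.c (I.pos (nat_lit 0) (nat_lit 89480386)) (xR T5.l8 T5.l8)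
  (TrL.c (I.pos (nat_lit 0) (nat_lit 41530880)) T0.l8
  (TrL.c (I.pos (nat_lit 0) (nat_lit 0)) (xa T0.l12 T0.l12)
  (TrL.c (I.pos (nat_lit 0) (nat_lit 0)) T5.l9
  (TrL.c (I.mix (nat_lit 41527258) (nat_lit 41530880)) T0.l10
  (TrL.c (I.mix (nat_lit 41527258) (nat_lit 4274)) T5.l10
  TrL.n)))))))) (by decide +kernel)
theorem bx3_3 : BoxOK sI cl6 cl13 cl5 t5 t0 b3_3 :=
  box_mk (TrL.c (I.pos (nat_lit 0) (nat_lit 0)) (xb (xa (xb T5.l13 T5.l13) T5.l13) (xa (xb T5.l13 (xa T5.l13 T5.l13)) (xb T5.l13 T5.l13)))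
  (TrL.c (I.pos (nat_lit 0) (nat_lit 0)) T0.l7
  (TrL.c (I.pos (nat_lit 0) (nat_lit 89480386)) (xR T5.l8 (xR T5.l8 T5.l8))
  (TrL.c (I.pos (nat_lit 0) (nat_lit 41530880)) (xR T0.l8 T0.l8)
  (TrL.c (I.pos (nat_lit 0) (nat_lit 0)) (xb T0.l13 T0.l13)
  (TrL.c (I.pos (nat_lit 0) (nat_lit 0)) T5.l9
  (TrL.c (I.mix (nat_lit 41527258) (nat_lit 41530880)) (xR (xR T0.l1 T0.l1) (xR T0.l10 T0.l10))
  (TrL.c (I.mix (nat_lit 41527258) (nat_lit 4274)) (xR T5.l10 T5.l10)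
  TrL.n)))))))) (by decide +kernel)
theorem bx3_4 : BoxOK sI cl6 cl13 cl5 t5 t0 b3_4 :=
  box_mk (TrL.c (I.pos (nat_lit 0) (nat_lit 0)) (xa (xa (xb (xa T5.l12 T5.l12) (xa (xb T5.l12 (xa T5.l12 T5.l12)) (xb T5.l12 T5.l12))) (xb T5.l12 (xa T5.l12 T5.l12))) (xa (xb T5.l12 (xa T5.l12 T5.l12)) (xa T5.l12 (xb T5.l12 (xb T5.l12 T5.l12)))))
  (TrL.c (I.pos (nat_lit 0) (nat_lit 0)) (xa T0.l7 T0.l7)
  (TrL.c (I.pos (nat_lit 0) (nat_lit 89480386)) (xR T5.l8 T5.l8)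
  (TrL.c (I.pos (nat_lit 0) (nat_lit 41530880)) (xR T0.l8 T0.l8)
  (TrL.c (I.pos (nat_lit 0) (nat_lit 0)) (xa T0.l12 T0.l12)
  (TrL.c (I.pos (nat_lit 0) (nat_lit 0)) T5.l9
  (TrL.c (I.mix (nat_lit 41527258) (nat_lit 41530880)) (xR T0.l10 T0.l10)
  (TrL.c (I.mix (nat_lit 41527258) (nat_lit 4274)) T5.l10
  TrL.n)))))))) (by decide +kernel)
theorem bx3_5 : BoxOK sI cl6 cl13 cl5 t5 t0 b3_5 :=
  box_mk (TrL.c (I.pos (nat_lit 0) (nat_lit 0)) (xa (xb T5.l0 T5.l0) (xb T5.l0 T5.l0))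
  (TrL.c (I.pos (nat_lit 0) (nat_lit 0)) T0.l7
  (TrL.c (I.pos (nat_lit 0) (nat_lit 89480386)) (xR T5.l8 (xR T5.l8 T5.l8))
  (TrL.c (I.pos (nat_lit 0) (nat_lit 41530880)) T0.l8
  (TrL.c (I.pos (nat_lit 0) (nat_lit 0)) (xa T0.l13 T0.l13)
  (TrL.c (I.pos (nat_lit 0) (nat_lit 0)) T5.l9
  (TrL.c (I.mix (nat_lit 41527258) (nat_lit 41530880)) T0.l1
  (TrL.c (I.mix (nat_lit 41527258) (nat_lit 4274)) T5.l10
  TrL.n)))))))) (by decide +kernel)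
theorem bx3_6 : BoxOK sI cl6 cl13 cl5 t5 t0 b3_6 :=
  box_mk (TrL.c (I.pos (nat_lit 0) (nat_lit 0)) T5.l0
  (TrL.c (I.pos (nat_lit 0) (nat_lit 0)) T0.l7
  (TrL.c (I.pos (nat_lit 0) (nat_lit 89480386)) (xR T5.l8 T5.l8)
  (TrL.c (I.pos (nat_lit 0) (nat_lit 41530880)) T0.l8
  (TrL.c (I.pos (nat_lit 0) (nat_lit 0)) T0.l12
  (TrL.c (I.pos (nat_lit 0) (nat_lit 0)) T5.l9
  (TrL.c (I.mix (nat_lit 41527258) (nat_lit 41530880)) T0.l10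
  (TrL.c (I.mix (nat_lit 41527258) (nat_lit 4274)) T5.l10
  TrL.n)))))))) (by decide +kernel)
theorem bx3_7 : BoxOK sI cl6 cl13 cl5 t5 t0 b3_7 :=
  box_mk (TrL.c (I.pos (nat_lit 0) (nat_lit 0)) T5.l12
  (TrL.c (I.pos (nat_lit 0) (nat_lit 0)) T0.l7
  (TrL.c (I.pos (nat_lit 0) (nat_lit 89480386)) (xR T5.l8 T5.l8)
  (TrL.c (I.pos (nat_lit 0) (nat_lit 41530880)) T0.l8
  (TrL.c (I.pos (nat_lit 0) (nat_lit 0)) T0.l12
  (TrL.c (I.pos (nat_lit 0) (nat_lit 0)) T5.l9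
  (TrL.c (I.mix (nat_lit 41527258) (nat_lit 41530880)) T0.l10
  (TrL.c (I.mix (nat_lit 41527258) (nat_lit 4274)) T5.l10
  TrL.n)))))))) (by decide +kernel)
theorem bx3_8 : BoxOK sI cl6 cl13 cl5 t5 t0 b3_8 :=
  box_mk (TrL.c (I.pos (nat_lit 0) (nat_lit 0)) (xa T5.l12 (xa T5.l12 T5.l12))
  (TrL.c (I.pos (nat_lit 0) (nat_lit 0)) T0.l7
  (TrL.c (I.pos (nat_lit 0) (nat_lit 89480386)) (xR T5.l8 T5.l8)
  (TrL.c (I.pos (nat_lit 0) (nat_lit 41530880)) T0.l8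
  (TrL.c (I.pos (nat_lit 0) (nat_lit 0)) T0.l12
  (TrL.c (I.pos (nat_lit 0) (nat_lit 0)) T5.l9
  (TrL.c (I.mix (nat_lit 41527258) (nat_lit 41530880)) T0.l10
  (TrL.c (I.mix (nat_lit 41527258) (nat_lit 4274)) T5.l10
  TrL.n)))))))) (by decide +kernel)
theorem bx3_9 : BoxOK sI cl6 cl13 cl5 t5 t0 b3_9 :=
  box_mk (TrL.c (I.pos (nat_lit 0) (nat_lit 0)) (xb (xa T5.l12 T5.l12) (xa (xb T5.l12 T5.l12) T5.l12))
  (TrL.c (I.pos (nat_lit 0) (nat_lit 0)) T0.l7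
  (TrL.c (I.pos (nat_lit 0) (nat_lit 89480386)) (xR T5.l8 T5.l8)
  (TrL.c (I.pos (nat_lit 0) (nat_lit 41530880)) T0.l8
  (TrL.c (I.pos (nat_lit 0) (nat_lit 0)) (xb T0.l12 T0.l12)
  (TrL.c (I.pos (nat_lit 0) (nat_lit 0)) T5.l9
  (TrL.c (I.mix (nat_lit 41527258) (nat_lit 41530880)) T0.l1
  (TrL.c (I.mix (nat_lit 41527258) (nat_lit 4274)) T5.l10
  TrL.n)))))))) (by decide +kernel)
theorem bx3_10 : BoxOK sI cl6 cl13 cl5 t5 t0 b3_10 :=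
  box_mk (TrL.c (I.pos (nat_lit 0) (nat_lit 0)) (xa (xa (xb (xa T5.l12 T5.l12) T5.l12) T5.l12) T5.l12)
  (TrL.c (I.pos (nat_lit 0) (nat_lit 0)) (xa T0.l7 T0.l7)
  (TrL.c (I.pos (nat_lit 0) (nat_lit 89480386)) (xR T5.l8 T5.l8)
  (TrL.c (I.pos (nat_lit 0) (nat_lit 41530880)) T0.l8
  (TrL.c (I.pos (nat_lit 0) (nat_lit 0)) (xa T0.l12 T0.l12)
  (TrL.c (I.pos (nat_lit 0) (nat_lit 0)) T5.l9
  (TrL.c (I.mix (nat_lit 41527258) (nat_lit 41530880)) T0.l10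
  (TrL.c (I.mix (nat_lit 41527258) (nat_lit 4274)) T5.l10
  TrL.n)))))))) (by decide +kernel)
theorem bx3_11 : BoxOK sI cl6 cl13 cl5 t5 t0 b3_11 :=
  box_mk (TrL.c (I.pos (nat_lit 0) (nat_lit 0)) (xa (xb T5.l0 (xa T5.l0 T5.l0)) (xb (xa T5.l0 T5.l0) (xa T5.l0 (xb T5.l0 T5.l0))))
  (TrL.c (I.pos (nat_lit 0) (nat_lit 0)) (xa T0.l7 T0.l7)
  (TrL.c (I.pos (nat_lit 0) (nat_lit 89480386)) (xR (xR T5.l8 T5.l8) (xR T5.l8 (xa T5.l8 T5.l8)))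
  (TrL.c (I.pos (nat_lit 0) (nat_lit 41530880)) (xR T0.l3 T0.l8)
  (TrL.c (I.pos (nat_lit 0) (nat_lit 0)) (xa (xb T0.l9 T0.l9) (xb (xa T0.l9 T0.l9) (xa T0.l9 T0.l9)))
  (TrL.c (I.pos (nat_lit 0) (nat_lit 0)) T5.l9
  (TrL.c (I.mix (nat_lit 41527258) (nat_lit 41530880)) (xR (xR T0.l1 T0.l1) T0.l1)
  (TrL.c (I.mix (nat_lit 41527258) (nat_lit 4274)) (xR T5.l10 T5.l2)
  TrL.n)))))))) (by decide +kernel)
theorem bx3_12 : BoxOK sI cl6 cl13 cl5 t5 t0 b3_12 :=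
  box_mk (TrL.c (I.pos (nat_lit 0) (nat_lit 0)) (xa (xb T5.l0 (xa T5.l0 T5.l0)) (xb T5.l0 T5.l0))
  (TrL.c (I.pos (nat_lit 0) (nat_lit 0)) T0.l7
  (TrL.c (I.pos (nat_lit 0) (nat_lit 89480386)) (xR T5.l8 T5.l8)
  (TrL.c (I.pos (nat_lit 0) (nat_lit 41530880)) (xR T0.l8 T0.l8)
  (TrL.c (I.pos (nat_lit 0) (nat_lit 0)) T0.l9
  (TrL.c (I.pos (nat_lit 0) (nat_lit 0)) T5.l9
  (TrL.c (I.mix (nat_lit 41527258) (nat_lit 41530880)) (xR T0.l1 T0.l1)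
  (TrL.c (I.mix (nat_lit 41527258) (nat_lit 4274)) (xR T5.l10 T5.l10)
  TrL.n)))))))) (by decide +kernel)
theorem bx3_13 : BoxOK sI cl6 cl13 cl5 t5 t0 b3_13 :=
  box_mk (TrL.c (I.pos (nat_lit 0) (nat_lit 0)) (xa T5.l13 T5.l13)
  (TrL.c (I.pos (nat_lit 0) (nat_lit 0)) T0.l7
  (TrL.c (I.pos (nat_lit 0) (nat_lit 89480386)) (xR T5.l8 T5.l8)
  (TrL.c (I.pos (nat_lit 0) (nat_lit 41530880)) T0.l8
  (TrL.c (I.pos (nat_lit 0) (nat_lit 0)) T0.l13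
  (TrL.c (I.pos (nat_lit 0) (nat_lit 0)) T5.l9
  (TrL.c (I.mix (nat_lit 41527258) (nat_lit 41530880)) (xR T0.l1 T0.l10)
  (TrL.c (I.mix (nat_lit 41527258) (nat_lit 4274)) T5.l10
  TrL.n)))))))) (by decide +kernel)
theorem sv3 : StarV sI cl6 cl13 cl5 t5 t0 t3 :=
  (bt_n (bt_n (bt_n (bt_b bx3_0) (bt_n (bt_b bx3_1) (bt_b bx3_2))) (bt_n (bt_n (bt_b bx3_3) (bt_b bx3_4)) (bt_n (bt_b bx3_5) (bt_b bx3_6)))) (bt_n (bt_n (bt_b bx3_7) (bt_n (bt_b bx3_8) (bt_b bx3_9))) (bt_n (bt_n (bt_b bx3_10) (bt_b bx3_11)) (bt_n (bt_b bx3_12) (bt_b bx3_13)))))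
def S3 : StarD := StarD.mk cl6 cl13 cl5 5 0 t3
theorem bx4_0 : BoxOK sI cl13 cl5 cl6 t1 t3 b4_0 :=
  box_mk (TrL.c (I.pos (nat_lit 0) (nat_lit 0)) (xa (xb (xa T1.l0 T1.l0) (xa (xb T1.l0 (xa T1.l0 T1.l0)) (xb T1.l0 (xa T1.l0 T1.l0)))) (xb (xa T1.l0 T1.l0) (xa (xb T1.l0 T1.l0) (xb T1.l0 T1.l0))))
  (TrL.c (I.pos (nat_lit 0) (nat_lit 0)) (xa T3.l1 T3.l1)
  (TrL.c (I.pos (nat_lit 0) (nat_lit 134217730)) (xR T1.l1 (xR T1.l1 (xR T1.l1 T1.l1)))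
  (TrL.c (I.pos (nat_lit 0) (nat_lit 110514882)) (xR T3.l2 (xR T3.l2 T3.l2))
  (TrL.c (I.pos (nat_lit 0) (nat_lit 0)) (xa (xb T3.l3 T3.l3) (xb (xk (xa T3.l3 T3.l3) T3.l3) (xk (xa T3.l3 T3.l3) (xb T3.l3 (xa T3.l3 T3.l3)))))
  (TrL.c (I.pos (nat_lit 0) (nat_lit 0)) T1.l2
  (TrL.c (I.mix (nat_lit 8088324) (nat_lit 110514882)) (xR T3.l4 (xR T3.l4 T3.l4))
  (TrL.c (I.mix (nat_lit 8088324) (nat_lit 89478486)) (xR T1.l3 (xR T1.l3 T1.l3))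
  TrL.n)))))))) (by decide +kernel)
theorem bx4_1 : BoxOK sI cl13 cl5 cl6 t1 t3 b4_1 :=
  box_mk (TrL.c (I.pos (nat_lit 0) (nat_lit 0)) (xa (xb T1.l4 T1.l4) (xb T1.l0 T1.l4))
  (TrL.c (I.pos (nat_lit 0) (nat_lit 0)) T3.l1
  (TrL.c (I.pos (nat_lit 0) (nat_lit 134217730)) T1.l1
  (TrL.c (I.pos (nat_lit 0) (nat_lit 110514882)) T3.l2
  (TrL.c (I.pos (nat_lit 0) (nat_lit 0)) (xa (xb T3.l5 T3.l5) (xb T3.l5 T3.l5))
  (TrL.c (I.pos (nat_lit 0) (nat_lit 0)) T1.l2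
  (TrL.c (I.mix (nat_lit 8088324) (nat_lit 110514882)) (xR T3.l4 (xR T3.l4 T3.l8))
  (TrL.c (I.mix (nat_lit 8088324) (nat_lit 89478486)) T1.l10
  TrL.n)))))))) (by decide +kernel)
theorem bx4_2 : BoxOK sI cl13 cl5 cl6 t1 t3 b4_2 :=
  box_mk (TrL.c (I.pos (nat_lit 0) (nat_lit 0)) T3.l1
  (TrL.c (I.pos (nat_lit 0) (nat_lit 0)) T1.l1
  (TrL.c (I.mix (nat_lit 8088324) (nat_lit 110514882)) T3.l4
  (TrL.c (I.mix (nat_lit 8088324) (nat_lit 89478486)) T1.l1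
  TrL.n)))) (by decide +kernel)
theorem bx4_3 : BoxOK sI cl13 cl5 cl6 t1 t3 b4_3 :=
  box_mk (TrL.c (I.pos (nat_lit 0) (nat_lit 0)) (xb (xa T1.l13 T1.l13) (xa (xb T1.l13 T1.l13) (xb T1.l13 T1.l0)))
  (TrL.c (I.pos (nat_lit 0) (nat_lit 0)) T3.l1
  (TrL.c (I.pos (nat_lit 0) (nat_lit 134217730)) (xR T1.l1 (xR T1.l1 T1.l1))
  (TrL.c (I.pos (nat_lit 0) (nat_lit 110514882)) (xR T3.l2 (xR T3.l2 T3.l2))
  (TrL.c (I.pos (nat_lit 0) (nat_lit 0)) (xb T3.l3 T3.l3)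
  (TrL.c (I.pos (nat_lit 0) (nat_lit 0)) T1.l2
  (TrL.c (I.mix (nat_lit 8088324) (nat_lit 110514882)) (xR T3.l4 T3.l4)
  (TrL.c (I.mix (nat_lit 8088324) (nat_lit 89478486)) T1.l10
  TrL.n)))))))) (by decide +kernel)
theorem bx4_4 : BoxOK sI cl13 cl5 cl6 t1 t3 b4_4 :=
  box_mk (TrL.c (I.pos (nat_lit 0) (nat_lit 0)) (xb T1.l4 (xa T1.l4 T1.l4))
  (TrL.c (I.pos (nat_lit 0) (nat_lit 0)) T3.l1
  (TrL.c (I.pos (nat_lit 0) (nat_lit 134217730)) T1.l1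
  (TrL.c (I.pos (nat_lit 0) (nat_lit 110514882)) T3.l4
  (TrL.c (I.pos (nat_lit 0) (nat_lit 0)) T3.l5
  (TrL.c (I.pos (nat_lit 0) (nat_lit 0)) T1.l2
  (TrL.c (I.mix (nat_lit 8088324) (nat_lit 110514882)) T3.l4
  (TrL.c (I.mix (nat_lit 8088324) (nat_lit 89478486)) T1.l3
  TrL.n)))))))) (by decide +kernel)
theorem bx4_5 : BoxOK sI cl13 cl5 cl6 t1 t3 b4_5 :=
  box_mk (TrL.c (I.pos (nat_lit 0) (nat_lit 0)) (xa (xb T1.l4 (xb T1.l4 T1.l4)) (xb T1.l4 (xa T1.l4 T1.l4)))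
  (TrL.c (I.pos (nat_lit 0) (nat_lit 0)) T3.l1
  (TrL.c (I.pos (nat_lit 0) (nat_lit 134217730)) T1.l1
  (TrL.c (I.pos (nat_lit 0) (nat_lit 110514882)) T3.l2
  (TrL.c (I.pos (nat_lit 0) (nat_lit 0)) T3.l5
  (TrL.c (I.pos (nat_lit 0) (nat_lit 0)) T1.l2
  (TrL.c (I.mix (nat_lit 8088324) (nat_lit 110514882)) T3.l4
  (TrL.c (I.mix (nat_lit 8088324) (nat_lit 89478486)) T1.l3
  TrL.n)))))))) (by decide +kernel)
theorem bx4_6 : BoxOK sI cl13 cl5 cl6 t1 t3 b4_6 :=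
  box_mk (TrL.c (I.pos (nat_lit 0) (nat_lit 0)) (xb (xa T1.l4 T1.l4) (xa T1.l4 T1.l4))
  (TrL.c (I.pos (nat_lit 0) (nat_lit 0)) T3.l1
  (TrL.c (I.pos (nat_lit 0) (nat_lit 134217730)) T1.l1
  (TrL.c (I.pos (nat_lit 0) (nat_lit 110514882)) (xR T3.l2 T3.l2)
  (TrL.c (I.pos (nat_lit 0) (nat_lit 0)) (xb T3.l5 T3.l5)
  (TrL.c (I.pos (nat_lit 0) (nat_lit 0)) T1.l2
  (TrL.c (I.mix (nat_lit 8088324) (nat_lit 110514882)) T3.l4
  (TrL.c (I.mix (nat_lit 8088324) (nat_lit 89478486)) T1.l3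
  TrL.n)))))))) (by decide +kernel)
theorem bx4_7 : BoxOK sI cl13 cl5 cl6 t1 t3 b4_7 :=
  box_mk (TrL.c (I.pos (nat_lit 0) (nat_lit 0)) T3.l1
  (TrL.c (I.pos (nat_lit 0) (nat_lit 0)) T1.l1
  (TrL.c (I.mix (nat_lit 8088324) (nat_lit 110514882)) T3.l10
  (TrL.c (I.mix (nat_lit 8088324) (nat_lit 89478486)) T1.l1
  TrL.n)))) (by decide +kernel)
theorem bx4_8 : BoxOK sI cl13 cl5 cl6 t1 t3 b4_8 :=
  box_mk (TrL.c (I.pos (nat_lit 0) (nat_lit 0)) (xa (xb T1.l0 T1.l13) T1.l0)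
  (TrL.c (I.pos (nat_lit 0) (nat_lit 0)) T3.l1
  (TrL.c (I.pos (nat_lit 0) (nat_lit 134217730)) T1.l10
  (TrL.c (I.pos (nat_lit 0) (nat_lit 110514882)) T3.l2
  (TrL.c (I.pos (nat_lit 0) (nat_lit 0)) (xk (xb T3.l13 T3.l13) (xb T3.l13 T3.l13))
  (TrL.c (I.pos (nat_lit 0) (nat_lit 0)) T1.l2
  (TrL.c (I.mix (nat_lit 8088324) (nat_lit 110514882)) (xR T3.l4 T3.l4)
  (TrL.c (I.mix (nat_lit 8088324) (nat_lit 89478486)) T1.l3
  TrL.n)))))))) (by decide +kernel)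
theorem bx4_9 : BoxOK sI cl13 cl5 cl6 t1 t3 b4_9 :=
  box_mk (TrL.c (I.pos (nat_lit 0) (nat_lit 0)) (xa (xb T1.l0 (xa T1.l0 T1.l0)) (xb T1.l0 (xa T1.l0 T1.l0)))
  (TrL.c (I.pos (nat_lit 0) (nat_lit 0)) (xa T3.l1 T3.l1)
  (TrL.c (I.pos (nat_lit 0) (nat_lit 134217730)) (xR T1.l1 T1.l10)
  (TrL.c (I.pos (nat_lit 0) (nat_lit 110514882)) (xR T3.l2 (xR T3.l2 T3.l2))
  (TrL.c (I.pos (nat_lit 0) (nat_lit 0)) (xa (xb (xk (xa T3.l3 (xb T3.l3 T3.l3)) (xa T3.l3 (xb T3.l3 T3.l3))) (xk T3.l3 T3.l3)) (xb (xk (xa (xb (xk T3.l3 T3.l3) T3.l3) (xb (xk T3.l3 T3.l3) (xk T3.l3 T3.l3))) (xa (xb (xk T3.l3 T3.l3) T3.l3) (xb (xk T3.l3 T3.l3) (xk T3.l3 T3.l3)))) (xk (xa (xb T3.l3 T3.l3) (xb (xk T3.l3 T3.l3) (xk T3.l3 T3.l3))) (xa (xb T3.l3 T3.l3) (xb (xk T3.l3 T3.l3) (xk T3.l3 T3.l3))))))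
  (TrL.c (I.pos (nat_lit 0) (nat_lit 0)) (xk T1.l2 T1.l2)
  (TrL.c (I.mix (nat_lit 8088324) (nat_lit 110514882)) (xR T3.l4 (xR T3.l4 (xR T3.l4 T3.l4)))
  (TrL.c (I.mix (nat_lit 8088324) (nat_lit 89478486)) (xR T1.l3 (xR T1.l3 T1.l3))
  TrL.n)))))))) (by decide +kernel)
theorem bx4_10 : BoxOK sI cl13 cl5 cl6 t1 t3 b4_10 :=
  box_mk (TrL.c (I.pos (nat_lit 0) (nat_lit 0)) (xa (xb T1.l0 T1.l0) (xb T1.l0 T1.l0))
  (TrL.c (I.pos (nat_lit 0) (nat_lit 0)) T3.l1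
  (TrL.c (I.pos (nat_lit 0) (nat_lit 134217730)) (xR T1.l1 (xR T1.l1 T1.l1))
  (TrL.c (I.pos (nat_lit 0) (nat_lit 110514882)) (xR T3.l2 T3.l2)
  (TrL.c (I.pos (nat_lit 0) (nat_lit 0)) (xk (xb T3.l3 (xa T3.l3 (xs T3.l3 (xb T3.l3 (xk T3.l0 T3.l0))))) (xb (xa T3.l13 T3.l3) (xa T3.l13 (xs (xb T3.l3 (xa T3.l13 T3.l3)) (xb T3.l3 (xa T3.l13 (xk T3.l13 T3.l13)))))))
  (TrL.c (I.pos (nat_lit 0) (nat_lit 0)) T1.l2
  (TrL.c (I.mix (nat_lit 8088324) (nat_lit 110514882)) (xR T3.l4 T3.l4)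
  (TrL.c (I.mix (nat_lit 8088324) (nat_lit 89478486)) T1.l3
  TrL.n)))))))) (by decide +kernel)
theorem bx4_11 : BoxOK sI cl13 cl5 cl6 t1 t3 b4_11 :=
  box_mk (TrL.c (I.pos (nat_lit 0) (nat_lit 0)) (xb T1.l13 (xa T1.l13 T1.l13))
  (TrL.c (I.pos (nat_lit 0) (nat_lit 0)) T3.l1
  (TrL.c (I.pos (nat_lit 0) (nat_lit 134217730)) (xR T1.l1 T1.l1)
  (TrL.c (I.pos (nat_lit 0) (nat_lit 110514882)) (xR T3.l2 T3.l2)
  (TrL.c (I.pos (nat_lit 0) (nat_lit 0)) (xk T3.l3 T3.l13)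
  (TrL.c (I.pos (nat_lit 0) (nat_lit 0)) T1.l2
  (TrL.c (I.mix (nat_lit 8088324) (nat_lit 110514882)) (xR T3.l4 T3.l4)
  (TrL.c (I.mix (nat_lit 8088324) (nat_lit 89478486)) T1.l10
  TrL.n)))))))) (by decide +kernel)
theorem sv4 : StarV sI cl13 cl5 cl6 t1 t3 t4 :=
  (bt_n (bt_n (bt_n (bt_b bx4_0) (bt_n (bt_b bx4_1) (bt_b bx4_2))) (bt_n (bt_b bx4_3) (bt_n (bt_b bx4_4) (bt_b bx4_5)))) (bt_n (bt_n (bt_b bx4_6) (bt_n (bt_b bx4_7) (bt_b bx4_8))) (bt_n (bt_b bx4_9) (bt_n (bt_b bx4_10) (bt_b bx4_11)))))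
def S4 : StarD := StarD.mk cl13 cl5 cl6 1 3 t4
theorem bx5_0 : BoxOK sI cl13 cl6 cl5 t3 t1 b5_0 :=
  box_mk (TrL.c (I.pos (nat_lit 0) (nat_lit 0)) (xa (xb (xa (xb T3.l0 T3.l0) (xb T3.l0 T3.l0)) (xa (xb T3.l0 (xa T3.l0 T3.l0)) (xb T3.l0 (xa T3.l0 T3.l0)))) (xb (xa T3.l0 T3.l0) (xa (xb T3.l0 T3.l0) (xb T3.l0 T3.l0))))
  (TrL.c (I.pos (nat_lit 0) (nat_lit 0)) (xa T1.l7 T1.l7)
  (TrL.c (I.pos (nat_lit 0) (nat_lit 134217730)) (xR T3.l4 (xR T3.l4 (xR T3.l8 T3.l8)))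
  (TrL.c (I.pos (nat_lit 0) (nat_lit 110514882)) (xR T1.l3 (xR T1.l8 T1.l8))
  (TrL.c (I.pos (nat_lit 0) (nat_lit 0)) (xa (xb T1.l9 (xb T1.l9 T1.l9)) (xb (xk T1.l9 T1.l9) (xk (xb T1.l9 (xa T1.l9 (xs T1.l9 T1.l9))) (xb T1.l9 (xa T1.l9 (xs T1.l9 (xb T1.l9 (xk T1.l9 T1.l9))))))))
  (TrL.c (I.pos (nat_lit 0) (nat_lit 0)) T3.l9
  (TrL.c (I.mix (nat_lit 8088324) (nat_lit 110514882)) (xR T1.l10 (xR T1.l10 T1.l10))
  (TrL.c (I.mix (nat_lit 8088324) (nat_lit 89478486)) (xR T3.l10 (xR T3.l10 T3.l10))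
  TrL.n)))))))) (by decide +kernel)
theorem bx5_1 : BoxOK sI cl13 cl6 cl5 t3 t1 b5_1 :=
  box_mk (TrL.c (I.pos (nat_lit 0) (nat_lit 0)) (xa (xb T3.l11 T3.l11) (xb T3.l0 T3.l0))
  (TrL.c (I.pos (nat_lit 0) (nat_lit 0)) T1.l7
  (TrL.c (I.pos (nat_lit 0) (nat_lit 134217730)) T3.l4
  (TrL.c (I.pos (nat_lit 0) (nat_lit 110514882)) (xR T1.l3 T1.l3)
  (TrL.c (I.pos (nat_lit 0) (nat_lit 0)) (xa T1.l11 (xk T1.l11 T1.l11))
  (TrL.c (I.pos (nat_lit 0) (nat_lit 0)) T3.l9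
  (TrL.c (I.mix (nat_lit 8088324) (nat_lit 110514882)) (xR T1.l10 T1.l10)
  (TrL.c (I.mix (nat_lit 8088324) (nat_lit 89478486)) T3.l2
  TrL.n)))))))) (by decide +kernel)
theorem bx5_2 : BoxOK sI cl13 cl6 cl5 t3 t1 b5_2 :=
  box_mk (TrL.c (I.pos (nat_lit 0) (nat_lit 0)) (xa T3.l11 T3.l11)
  (TrL.c (I.pos (nat_lit 0) (nat_lit 0)) T1.l7
  (TrL.c (I.pos (nat_lit 0) (nat_lit 134217730)) T3.l4
  (TrL.c (I.pos (nat_lit 0) (nat_lit 110514882)) T1.l10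
  (TrL.c (I.pos (nat_lit 0) (nat_lit 0)) T1.l11
  (TrL.c (I.pos (nat_lit 0) (nat_lit 0)) T3.l9
  (TrL.c (I.mix (nat_lit 8088324) (nat_lit 110514882)) T1.l10
  (TrL.c (I.mix (nat_lit 8088324) (nat_lit 89478486)) T3.l10
  TrL.n)))))))) (by decide +kernel)
theorem bx5_3 : BoxOK sI cl13 cl6 cl5 t3 t1 b5_3 :=
  box_mk (TrL.c (I.pos (nat_lit 0) (nat_lit 0)) (xb (xa (xb T3.l12 T3.l12) T3.l12) (xa (xb T3.l12 (xa T3.l12 T3.l12)) (xa T3.l12 T3.l12)))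
  (TrL.c (I.pos (nat_lit 0) (nat_lit 0)) T1.l7
  (TrL.c (I.pos (nat_lit 0) (nat_lit 134217730)) (xR T3.l4 (xR T3.l4 (xR T3.l8 T3.l8)))
  (TrL.c (I.pos (nat_lit 0) (nat_lit 110514882)) (xR T1.l3 (xR T1.l8 T1.l8))
  (TrL.c (I.pos (nat_lit 0) (nat_lit 0)) (xb (xk T1.l9 T1.l9) (xk T1.l9 T1.l9))
  (TrL.c (I.pos (nat_lit 0) (nat_lit 0)) T3.l9
  (TrL.c (I.mix (nat_lit 8088324) (nat_lit 110514882)) (xR T1.l10 (xR T1.l10 T1.l10))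
  (TrL.c (I.mix (nat_lit 8088324) (nat_lit 89478486)) (xR T3.l10 (xR T3.l10 T3.l10))
  TrL.n)))))))) (by decide +kernel)
theorem bx5_4 : BoxOK sI cl13 cl6 cl5 t3 t1 b5_4 :=
  box_mk (TrL.c (I.pos (nat_lit 0) (nat_lit 0)) (xa (xa (xb T3.l11 (xa (xb T3.l11 T3.l11) T3.l11)) (xb T3.l11 (xa T3.l11 T3.l11))) (xa (xb T3.l11 T3.l11) (xb T3.l11 T3.l11)))
  (TrL.c (I.pos (nat_lit 0) (nat_lit 0)) (xa T1.l11 T1.l7)
  (TrL.c (I.pos (nat_lit 0) (nat_lit 134217730)) (xR T3.l4 T3.l8)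
  (TrL.c (I.pos (nat_lit 0) (nat_lit 110514882)) (xR T1.l3 (xR T1.l8 T1.l8))
  (TrL.c (I.pos (nat_lit 0) (nat_lit 0)) (xa T1.l7 T1.l11)
  (TrL.c (I.pos (nat_lit 0) (nat_lit 0)) T3.l9
  (TrL.c (I.mix (nat_lit 8088324) (nat_lit 110514882)) T1.l10
  (TrL.c (I.mix (nat_lit 8088324) (nat_lit 89478486)) T3.l10
  TrL.n)))))))) (by decide +kernel)
theorem bx5_5 : BoxOK sI cl13 cl6 cl5 t3 t1 b5_5 :=
  box_mk (TrL.c (I.pos (nat_lit 0) (nat_lit 0)) (xa T3.l0 T3.l0)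
  (TrL.c (I.pos (nat_lit 0) (nat_lit 0)) T1.l7
  (TrL.c (I.pos (nat_lit 0) (nat_lit 134217730)) T3.l4
  (TrL.c (I.pos (nat_lit 0) (nat_lit 110514882)) (xR T1.l3 T1.l3)
  (TrL.c (I.pos (nat_lit 0) (nat_lit 0)) (xk T1.l12 T1.l12)
  (TrL.c (I.pos (nat_lit 0) (nat_lit 0)) T3.l9
  (TrL.c (I.mix (nat_lit 8088324) (nat_lit 110514882)) (xR T1.l10 T1.l10)
  (TrL.c (I.mix (nat_lit 8088324) (nat_lit 89478486)) T3.l10
  TrL.n)))))))) (by decide +kernel)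
theorem bx5_6 : BoxOK sI cl13 cl6 cl5 t3 t1 b5_6 :=
  box_mk (TrL.c (I.pos (nat_lit 0) (nat_lit 0)) (xa T3.l11 T3.l11)
  (TrL.c (I.pos (nat_lit 0) (nat_lit 0)) T1.l7
  (TrL.c (I.pos (nat_lit 0) (nat_lit 134217730)) (xR T3.l2 T3.l8)
  (TrL.c (I.pos (nat_lit 0) (nat_lit 110514882)) T1.l10
  (TrL.c (I.pos (nat_lit 0) (nat_lit 0)) T1.l7
  (TrL.c (I.pos (nat_lit 0) (nat_lit 0)) T3.l9
  (TrL.c (I.mix (nat_lit 8088324) (nat_lit 110514882)) T1.l10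
  (TrL.c (I.mix (nat_lit 8088324) (nat_lit 89478486)) T3.l10
  TrL.n)))))))) (by decide +kernel)
theorem bx5_7 : BoxOK sI cl13 cl6 cl5 t3 t1 b5_7 :=
  box_mk (TrL.c (I.pos (nat_lit 0) (nat_lit 0)) T3.l11
  (TrL.c (I.pos (nat_lit 0) (nat_lit 0)) T1.l7
  (TrL.c (I.pos (nat_lit 0) (nat_lit 134217730)) T3.l4
  (TrL.c (I.pos (nat_lit 0) (nat_lit 110514882)) T1.l3
  (TrL.c (I.pos (nat_lit 0) (nat_lit 0)) T1.l11
  (TrL.c (I.pos (nat_lit 0) (nat_lit 0)) T3.l9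
  (TrL.c (I.mix (nat_lit 8088324) (nat_lit 110514882)) T1.l10
  (TrL.c (I.mix (nat_lit 8088324) (nat_lit 89478486)) T3.l10
  TrL.n)))))))) (by decide +kernel)
theorem bx5_8 : BoxOK sI cl13 cl6 cl5 t3 t1 b5_8 :=
  box_mk (TrL.c (I.pos (nat_lit 0) (nat_lit 0)) (xa (xa (xb T3.l11 (xa T3.l11 T3.l11)) (xb T3.l11 T3.l11)) (xa T3.l11 (xb T3.l11 (xa T3.l11 T3.l11))))
  (TrL.c (I.pos (nat_lit 0) (nat_lit 0)) (xa T1.l7 T1.l7)
  (TrL.c (I.pos (nat_lit 0) (nat_lit 134217730)) (xR T3.l4 (xR T3.l8 T3.l8))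
  (TrL.c (I.pos (nat_lit 0) (nat_lit 110514882)) (xR T1.l3 (xR T1.l8 T1.l8))
  (TrL.c (I.pos (nat_lit 0) (nat_lit 0)) (xa T1.l7 T1.l11)
  (TrL.c (I.pos (nat_lit 0) (nat_lit 0)) T3.l9
  (TrL.c (I.mix (nat_lit 8088324) (nat_lit 110514882)) T1.l10
  (TrL.c (I.mix (nat_lit 8088324) (nat_lit 89478486)) T3.l10
  TrL.n)))))))) (by decide +kernel)
theorem bx5_9 : BoxOK sI cl13 cl6 cl5 t3 t1 b5_9 :=
  box_mk (TrL.c (I.pos (nat_lit 0) (nat_lit 0)) (xb (xa T3.l11 T3.l11) (xa (xb T3.l11 T3.l11) T3.l11))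
  (TrL.c (I.pos (nat_lit 0) (nat_lit 0)) T1.l7
  (TrL.c (I.pos (nat_lit 0) (nat_lit 134217730)) T3.l4
  (TrL.c (I.pos (nat_lit 0) (nat_lit 110514882)) (xR T1.l3 T1.l3)
  (TrL.c (I.pos (nat_lit 0) (nat_lit 0)) (xb (xa T1.l11 T1.l11) T1.l11)
  (TrL.c (I.pos (nat_lit 0) (nat_lit 0)) T3.l9
  (TrL.c (I.mix (nat_lit 8088324) (nat_lit 110514882)) T1.l10
  (TrL.c (I.mix (nat_lit 8088324) (nat_lit 89478486)) T3.l10
  TrL.n)))))))) (by decide +kernel)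
theorem bx5_10 : BoxOK sI cl13 cl6 cl5 t3 t1 b5_10 :=
  box_mk (TrL.c (I.pos (nat_lit 0) (nat_lit 0)) (xa (xb (xa T3.l11 T3.l11) T3.l11) T3.l11)
  (TrL.c (I.pos (nat_lit 0) (nat_lit 0)) T1.l7
  (TrL.c (I.pos (nat_lit 0) (nat_lit 134217730)) (xR T3.l2 T3.l8)
  (TrL.c (I.pos (nat_lit 0) (nat_lit 110514882)) T1.l10
  (TrL.c (I.pos (nat_lit 0) (nat_lit 0)) T1.l7
  (TrL.c (I.pos (nat_lit 0) (nat_lit 0)) T3.l9
  (TrL.c (I.mix (nat_lit 8088324) (nat_lit 110514882)) T1.l10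
  (TrL.c (I.mix (nat_lit 8088324) (nat_lit 89478486)) T3.l10
  TrL.n)))))))) (by decide +kernel)
theorem bx5_11 : BoxOK sI cl13 cl6 cl5 t3 t1 b5_11 :=
  box_mk (TrL.c (I.pos (nat_lit 0) (nat_lit 0)) T3.l0
  (TrL.c (I.pos (nat_lit 0) (nat_lit 0)) T1.l7
  (TrL.c (I.pos (nat_lit 0) (nat_lit 134217730)) T3.l4
  (TrL.c (I.pos (nat_lit 0) (nat_lit 110514882)) (xR T1.l3 T1.l3)
  (TrL.c (I.pos (nat_lit 0) (nat_lit 0)) T1.l12
  (TrL.c (I.pos (nat_lit 0) (nat_lit 0)) T3.l9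
  (TrL.c (I.mix (nat_lit 8088324) (nat_lit 110514882)) T1.l10
  (TrL.c (I.mix (nat_lit 8088324) (nat_lit 89478486)) T3.l10
  TrL.n)))))))) (by decide +kernel)
theorem bx5_12 : BoxOK sI cl13 cl6 cl5 t3 t1 b5_12 :=
  box_mk (TrL.c (I.pos (nat_lit 0) (nat_lit 0)) (xa (xb (xa T3.l0 T3.l0) (xa T3.l0 T3.l0)) (xb (xa T3.l0 T3.l0) (xa T3.l0 T3.l0)))
  (TrL.c (I.pos (nat_lit 0) (nat_lit 0)) (xa T1.l7 T1.l7)
  (TrL.c (I.pos (nat_lit 0) (nat_lit 134217730)) (xR T3.l4 T3.l4)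
  (TrL.c (I.pos (nat_lit 0) (nat_lit 110514882)) (xR T1.l3 (xR T1.l3 (xR T1.l8 T1.l8)))
  (TrL.c (I.pos (nat_lit 0) (nat_lit 0)) (xa (xb (xk (xa T1.l9 T1.l9) (xa T1.l9 T1.l9)) (xk T1.l9 T1.l9)) (xb (xk (xa (xb T1.l9 T1.l9) (xb (xk T1.l9 T1.l9) (xk T1.l9 T1.l9))) (xa (xb T1.l9 T1.l9) (xb (xk T1.l9 T1.l9) T1.l9))) (xk (xa (xb T1.l9 T1.l9) (xb (xk T1.l9 T1.l9) (xk T1.l9 T1.l9))) (xa T1.l9 (xb (xk T1.l9 T1.l9) (xk T1.l9 T1.l9))))))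
  (TrL.c (I.pos (nat_lit 0) (nat_lit 0)) (xk T3.l9 T3.l9)
  (TrL.c (I.mix (nat_lit 8088324) (nat_lit 110514882)) (xR T1.l10 (xR T1.l10 (xR T1.l10 T1.l10)))
  (TrL.c (I.mix (nat_lit 8088324) (nat_lit 89478486)) (xR T3.l10 (xR T3.l10 T3.l10))
  TrL.n)))))))) (by decide +kernel)
theorem bx5_13 : BoxOK sI cl13 cl6 cl5 t3 t1 b5_13 :=
  box_mk (TrL.c (I.pos (nat_lit 0) (nat_lit 0)) (xa (xb T3.l0 (xa T3.l0 T3.l0)) (xb T3.l0 T3.l0))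
  (TrL.c (I.pos (nat_lit 0) (nat_lit 0)) T1.l7
  (TrL.c (I.pos (nat_lit 0) (nat_lit 134217730)) (xR T3.l4 (xR T3.l4 T3.l8))
  (TrL.c (I.pos (nat_lit 0) (nat_lit 110514882)) (xR T1.l3 (xR T1.l8 T1.l8))
  (TrL.c (I.pos (nat_lit 0) (nat_lit 0)) (xk (xb T1.l9 (xa T1.l12 (xb T1.l9 T1.l9))) (xb T1.l9 (xa T1.l12 (xb T1.l9 (xs T1.l9 T1.l9)))))
  (TrL.c (I.pos (nat_lit 0) (nat_lit 0)) T3.l9
  (TrL.c (I.mix (nat_lit 8088324) (nat_lit 110514882)) (xR T1.l10 T1.l10)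
  (TrL.c (I.mix (nat_lit 8088324) (nat_lit 89478486)) (xR T3.l10 T3.l10)
  TrL.n)))))))) (by decide +kernel)
theorem sv5 : StarV sI cl13 cl6 cl5 t3 t1 t5 :=
  (bt_n (bt_n (bt_n (bt_b bx5_0) (bt_n (bt_b bx5_1) (bt_b bx5_2))) (bt_n (bt_n (bt_b bx5_3) (bt_b bx5_4)) (bt_n (bt_b bx5_5) (bt_b bx5_6)))) (bt_n (bt_n (bt_b bx5_7) (bt_n (bt_b bx5_8) (bt_b bx5_9))) (bt_n (bt_n (bt_b bx5_10) (bt_b bx5_11)) (bt_n (bt_b bx5_12) (bt_b bx5_13)))))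
def S5 : StarD := StarD.mk cl13 cl6 cl5 3 1 t5
def G : List StarD := [S0, S1, S2, S3, S4, S5]
theorem so0 : StarOK sI G S0 :=
  star_mk (by decide) (by decide) rfl rfl rfl rfl rfl rfl (rfl : _ = t2) (rfl : _ = t4)
  (st_mk (Pth.l (Pth.l (Pth.l Pth.z))) (nat_lit 191558263) (nat_lit 192521983) (by decide +kernel))
  (st_mk (Pth.l (Pth.l (Pth.l Pth.z))) (nat_lit 228778258) (nat_lit 230167861) (by decide +kernel))
  (st_mk (Pth.l (Pth.l (Pth.l Pth.z))) (nat_lit 272280620) (nat_lit 274277567) (by decide +kernel)) sv0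
theorem so1 : StarOK sI G S1 :=
  star_mk (by decide) (by decide) rfl rfl rfl rfl rfl rfl (rfl : _ = t4) (rfl : _ = t2)
  (st_mk (Pth.l (Pth.l (Pth.l Pth.z))) (nat_lit 97816594) (nat_lit 116857450) (by decide +kernel))
  (st_mk (Pth.l (Pth.l (Pth.l Pth.z))) (nat_lit 134462570) (nat_lit 153976355) (by decide +kernel))
  (st_mk (Pth.l (Pth.l (Pth.l Pth.z))) (nat_lit 177480910) (nat_lit 197640208) (by decide +kernel)) sv1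
theorem so2 : StarOK sI G S2 :=
  star_mk (by decide) (by decide) rfl rfl rfl rfl rfl rfl (rfl : _ = t0) (rfl : _ = t5)
  (st_mk (Pth.l (Pth.l (Pth.l Pth.z))) (nat_lit 243907368) (nat_lit 244881300) (by decide +kernel))
  (st_mk (Pth.l (Pth.l (Pth.l Pth.z))) (nat_lit 280609246) (nat_lit 281905832) (by decide +kernel))
  (st_mk (Pth.l (Pth.l (Pth.l Pth.z))) (nat_lit 323291746) (nat_lit 325026487) (by decide +kernel)) sv2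
theorem so3 : StarOK sI G S3 :=
  star_mk (by decide) (by decide) rfl rfl rfl rfl rfl rfl (rfl : _ = t5) (rfl : _ = t0)
  (st_mk (Pth.l (Pth.l (Pth.l Pth.z))) (nat_lit 97251476) (nat_lit 116002122) (by decide +kernel))
  (st_mk (Pth.l (Pth.l (Pth.l Pth.z))) (nat_lit 133387550) (nat_lit 152467786) (by decide +kernel))
  (st_mk (Pth.l (Pth.l (Pth.l Pth.z))) (nat_lit 175588597) (nat_lit 195111963) (by decide +kernel)) sv3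
theorem so4 : StarOK sI G S4 :=
  star_mk (by decide) (by decide) rfl rfl rfl rfl rfl rfl (rfl : _ = t1) (rfl : _ = t3)
  (st_mk (Pth.l (Pth.l (Pth.l Pth.z))) (nat_lit 238062708) (nat_lit 240086734) (by decide +kernel))
  (st_mk (Pth.l (Pth.l (Pth.l Pth.z))) (nat_lit 272959317) (nat_lit 275452700) (by decide +kernel))
  (st_mk (Pth.l (Pth.l (Pth.l Pth.z))) (nat_lit 313224636) (nat_lit 316341013) (by decide +kernel)) sv4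
theorem so5 : StarOK sI G S5 :=
  star_mk (by decide) (by decide) rfl rfl rfl rfl rfl rfl (rfl : _ = t3) (rfl : _ = t1)
  (st_mk (Pth.l (Pth.l (Pth.l Pth.z))) (nat_lit 185843017) (nat_lit 187420408) (by decide +kernel))
  (st_mk (Pth.l (Pth.l (Pth.l Pth.z))) (nat_lit 220739626) (nat_lit 222745175) (by decide +kernel))
  (st_mk (Pth.l (Pth.l (Pth.l Pth.z))) (nat_lit 261004945) (nat_lit 263597733) (by decide +kernel)) sv5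
theorem ok : GroupOK (nat_lit 209321984) (nat_lit 268435456) G := grp_mk (allS_c so0 (allS_c so1 (allS_c so2 (allS_c so3 (allS_c so4 (allS_c so5 allS_n))))))
theorem cov : GCov G cl5 cl6 cl13 := cov_mk
  ⟨0, by decide, rfl, rfl, rfl⟩ ⟨1, by decide, rfl, rfl, rfl⟩ ⟨2, by decide, rfl, rfl, rfl⟩ ⟨3, by decide, rfl, rfl, rfl⟩ ⟨4, by decide, rfl, rfl, rfl⟩ ⟨5, by decide, rfl, rfl, rfl⟩
end Q236_3

namespace Q244_0
def sI : I := I.pos (nat_lit 0) (nat_lit 91291648)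
def b0_0 : Bx := Bx.mk (St.mk (I.pos (nat_lit 154140672) (nat_lit 273711104)) (I.mix (nat_lit 11075584) (nat_lit 59539456)) (I.mix (nat_lit 56786944) (nat_lit 87736320)) (I.pos (nat_lit 132251648) (nat_lit 350617600)) (I.mix (nat_lit 85213184) (nat_lit 59342848)) (I.mix (nat_lit 78479360) (nat_lit 50315264)) (I.mix (nat_lit 126205952) (nat_lit 78053376)))
  false (nat_lit 0)
def b0_1 : Bx := Bx.mk (St.mk (I.mix (nat_lit 26066944) (nat_lit 121405440)) (I.mix (nat_lit 4096000) (nat_lit 36208640)) (I.mix (nat_lit 17088512) (nat_lit 16531456)) (I.pos (nat_lit 39534592) (nat_lit 116211712)) (I.mix (nat_lit 31981568) (nat_lit 26886144)) (I.mix (nat_lit 30294016) (nat_lit 23134208)) (I.mix (nat_lit 21938176) (nat_lit 15253504)))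
  false (nat_lit 0)
def b0_2 : Bx := Bx.mk (St.mk (I.pos (nat_lit 95240192) (nat_lit 145768448)) (I.mix (nat_lit 64798720) (nat_lit 6062080)) (I.neg (nat_lit 3145728) (nat_lit 69632000)) (I.pos (nat_lit 79085568) (nat_lit 141475840)) (I.mix (nat_lit 90701824) (nat_lit 27525120)) (I.mix (nat_lit 49266688) (nat_lit 89735168)) (I.mix (nat_lit 36454400) (nat_lit 70189056)))
  false (nat_lit 0)
def b0_3 : Bx := Bx.mk (St.mk (I.mix (nat_lit 35438592) (nat_lit 71548928)) (I.mix (nat_lit 31916032) (nat_lit 1458176)) (I.neg (nat_lit 49152) (nat_lit 22069248)) (I.pos (nat_lit 41484288) (nat_lit 82362368)) (I.mix (nat_lit 30359552) (nat_lit 12730368)) (I.mix (nat_lit 15220736) (nat_lit 27459584)) (I.mix (nat_lit 7356416) (nat_lit 11649024)))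
  false (nat_lit 0)
def b0_4 : Bx := Bx.mk (St.mk (I.pos (nat_lit 96190464) (nat_lit 114606080)) (I.mix (nat_lit 4112384) (nat_lit 10027008)) (I.neg (nat_lit 1589248) (nat_lit 17055744)) (I.pos (nat_lit 80166912) (nat_lit 114049024)) (I.mix (nat_lit 7733248) (nat_lit 11616256)) (I.mix (nat_lit 7356416) (nat_lit 4816896)) (I.mix (nat_lit 6275072) (nat_lit 3833856)))
  false (nat_lit 0)
def b0_5 : Bx := Bx.mk (St.mk (I.mix (nat_lit 37191680) (nat_lit 16187392)) (I.mix (nat_lit 409600) (nat_lit 9355264)) (I.neg (nat_lit 3309568) (nat_lit 10715136)) (I.pos (nat_lit 43581440) (nat_lit 69664768)) (I.mix (nat_lit 3948544) (nat_lit 8847360)) (I.mix (nat_lit 5095424) (nat_lit 4030464)) (I.mix (nat_lit 1425408) (nat_lit 1802240)))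
  false (nat_lit 0)
def b0_6 : Bx := Bx.mk (St.mk (I.pos (nat_lit 99532800) (nat_lit 171917312)) (I.mix (nat_lit 63635456) (nat_lit 376832)) (I.neg (nat_lit 3096576) (nat_lit 68042752)) (I.pos (nat_lit 95158272) (nat_lit 176914432)) (I.mix (nat_lit 74563584) (nat_lit 50905088)) (I.mix (nat_lit 48349184) (nat_lit 80609280)) (I.mix (nat_lit 37814272) (nat_lit 79839232)))
  false (nat_lit 0)
def b0_7 : Bx := Bx.mk (St.mk (I.mix (nat_lit 33816576) (nat_lit 87392256)) (I.mix (nat_lit 34242560) (nat_lit 6373376)) (I.mix (nat_lit 25362432) (nat_lit 901120)) (I.pos (nat_lit 39223296) (nat_lit 91406336)) (I.mix (nat_lit 33177600) (nat_lit 26083328)) (I.mix (nat_lit 19972096) (nat_lit 34439168)) (I.mix (nat_lit 11649024) (nat_lit 19480576)))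
  false (nat_lit 0)
def b0_8 : Bx := Bx.mk (St.mk (I.pos (nat_lit 143572992) (nat_lit 222412800)) (I.mix (nat_lit 44253184) (nat_lit 68747264)) (I.mix (nat_lit 53690368) (nat_lit 92422144)) (I.pos (nat_lit 125026304) (nat_lit 246611968)) (I.mix (nat_lit 122748928) (nat_lit 44711936)) (I.mix (nat_lit 135200768) (nat_lit 79708160)) (I.mix (nat_lit 150913024) (nat_lit 84459520)))
  false (nat_lit 0)
def b0_9 : Bx := Bx.mk (St.mk (I.mix (nat_lit 40812544) (nat_lit 114802688)) (I.mix (nat_lit 15941632) (nat_lit 37634048)) (I.mix (nat_lit 15450112) (nat_lit 20529152)) (I.pos (nat_lit 39485440) (nat_lit 109985792)) (I.mix (nat_lit 39436288) (nat_lit 23445504)) (I.mix (nat_lit 48398336) (nat_lit 29933568)) (I.mix (nat_lit 26411008) (nat_lit 16695296)))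
  false (nat_lit 0)
def t0 : BTr := (BTr.n (BTr.n (BTr.n (BTr.b b0_0) (BTr.b b0_1)) (BTr.n (BTr.b b0_2) (BTr.n (BTr.b b0_3) (BTr.b b0_4)))) (BTr.n (BTr.n (BTr.b b0_5) (BTr.b b0_6)) (BTr.n (BTr.b b0_7) (BTr.n (BTr.b b0_8) (BTr.b b0_9)))))
namespace T0
def l0 : Tr := Tr.L (Pth.l (Pth.l (Pth.l Pth.z)))
def l1 : Tr := Tr.L (Pth.l (Pth.l (Pth.r Pth.z)))
def l2 : Tr := Tr.L (Pth.l (Pth.r (Pth.l Pth.z)))
def l3 : Tr := Tr.L (Pth.l (Pth.r (Pth.r (Pth.l Pth.z))))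
def l4 : Tr := Tr.L (Pth.l (Pth.r (Pth.r (Pth.r Pth.z))))
def l5 : Tr := Tr.L (Pth.r (Pth.l (Pth.l Pth.z)))
def l6 : Tr := Tr.L (Pth.r (Pth.l (Pth.r Pth.z)))
def l7 : Tr := Tr.L (Pth.r (Pth.r (Pth.l Pth.z)))
def l8 : Tr := Tr.L (Pth.r (Pth.r (Pth.r (Pth.l Pth.z))))
def l9 : Tr := Tr.L (Pth.r (Pth.r (Pth.r (Pth.r Pth.z))))
end T0
def b1_0 : Bx := Bx.mk (St.mk (I.pos (nat_lit 153075712) (nat_lit 292536320)) (I.mix (nat_lit 32735232) (nat_lit 72171520)) (I.mix (nat_lit 111198208) (nat_lit 103104512)) (I.pos (nat_lit 226902016) (nat_lit 460029952)) (I.mix (nat_lit 93880320) (nat_lit 75726848)) (I.mix (nat_lit 91045888) (nat_lit 61014016)) (I.mix (nat_lit 138756096) (nat_lit 88948736)))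
  false (nat_lit 23089235)
def b1_1 : Bx := Bx.mk (St.mk (I.pos (nat_lit 75350016) (nat_lit 157499392)) (I.neg (nat_lit 4423680) (nat_lit 78364672)) (I.mix (nat_lit 68943872) (nat_lit 4784128)) (I.pos (nat_lit 166150144) (nat_lit 234766336)) (I.mix (nat_lit 74694656) (nat_lit 49676288)) (I.mix (nat_lit 40927232) (nat_lit 71663616)) (I.mix (nat_lit 37289984) (nat_lit 60669952)))
  false (nat_lit 0)
def b1_2 : Bx := Bx.mk (St.mk (I.pos (nat_lit 20480000) (nat_lit 75890688)) (I.mix (nat_lit 13090816) (nat_lit 53362688)) (I.mix (nat_lit 25542656) (nat_lit 8978432)) (I.pos (nat_lit 141246464) (nat_lit 163217408)) (I.mix (nat_lit 28229632) (nat_lit 41254912)) (I.mix (nat_lit 42565632) (nat_lit 25165824)) (I.mix (nat_lit 22659072) (nat_lit 13107200)))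
  false (nat_lit 0)
def b1_3 : Bx := Bx.mk (St.mk (I.mix (nat_lit 37421056) (nat_lit 11206656)) (I.mix (nat_lit 47153152) (nat_lit 11141120)) (I.mix (nat_lit 3997696) (nat_lit 4816896)) (I.pos (nat_lit 140574720) (nat_lit 150372352)) (I.mix (nat_lit 23068672) (nat_lit 35012608)) (I.mix (nat_lit 20512768) (nat_lit 37814272)) (I.mix (nat_lit 4898816) (nat_lit 4390912)))
  true (nat_lit 0)
def b1_4 : Bx := Bx.mk (St.mk (I.pos (nat_lit 120930304) (nat_lit 204013568)) (I.mix (nat_lit 45400064) (nat_lit 75972608)) (I.mix (nat_lit 39682048) (nat_lit 105168896)) (I.pos (nat_lit 195526656) (nat_lit 298778624)) (I.mix (nat_lit 113803264) (nat_lit 49807360)) (I.mix (nat_lit 134168576) (nat_lit 63930368)) (I.mix (nat_lit 137904128) (nat_lit 69746688)))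
  false (nat_lit 0)
def b1_5 : Bx := Bx.mk (St.mk (I.pos (nat_lit 50102272) (nat_lit 108003328)) (I.mix (nat_lit 73433088) (nat_lit 14974976)) (I.neg (nat_lit 6127616) (nat_lit 60637184)) (I.pos (nat_lit 149340160) (nat_lit 187056128)) (I.mix (nat_lit 70123520) (nat_lit 29097984)) (I.mix (nat_lit 36110336) (nat_lit 74956800)) (I.mix (nat_lit 27082752) (nat_lit 44793856)))
  false (nat_lit 0)
def b1_6 : Bx := Bx.mk (St.mk (I.mix (nat_lit 11206656) (nat_lit 37421056)) (I.mix (nat_lit 11141120) (nat_lit 47153152)) (I.mix (nat_lit 3997696) (nat_lit 4816896)) (I.pos (nat_lit 140574720) (nat_lit 150372352)) (I.mix (nat_lit 35012608) (nat_lit 23068672)) (I.mix (nat_lit 37814272) (nat_lit 20512768)) (I.mix (nat_lit 4898816) (nat_lit 4390912)))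
  false (nat_lit 0)
def b1_7 : Bx := Bx.mk (St.mk (I.neg (nat_lit 20480000) (nat_lit 75890688)) (I.mix (nat_lit 53362688) (nat_lit 13090816)) (I.mix (nat_lit 25542656) (nat_lit 8978432)) (I.pos (nat_lit 141246464) (nat_lit 163217408)) (I.mix (nat_lit 41254912) (nat_lit 28229632)) (I.mix (nat_lit 25165824) (nat_lit 42565632)) (I.mix (nat_lit 22659072) (nat_lit 13107200)))
  true (nat_lit 0)
def t1 : BTr := (BTr.n (BTr.n (BTr.n (BTr.b b1_0) (BTr.b b1_1)) (BTr.n (BTr.b b1_2) (BTr.b b1_3))) (BTr.n (BTr.n (BTr.b b1_4) (BTr.b b1_5)) (BTr.n (BTr.b b1_6) (BTr.b b1_7))))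
namespace T1
def l0 : Tr := Tr.L (Pth.l (Pth.l (Pth.l Pth.z)))
def l1 : Tr := Tr.L (Pth.l (Pth.l (Pth.r Pth.z)))
def l2 : Tr := Tr.L (Pth.l (Pth.r (Pth.l Pth.z)))
def l3 : Tr := Tr.L (Pth.l (Pth.r (Pth.r Pth.z)))
def l4 : Tr := Tr.L (Pth.r (Pth.l (Pth.l Pth.z)))
def l5 : Tr := Tr.L (Pth.r (Pth.l (Pth.r Pth.z)))
def l6 : Tr := Tr.L (Pth.r (Pth.r (Pth.l Pth.z)))
def l7 : Tr := Tr.L (Pth.r (Pth.r (Pth.r Pth.z)))
end T1
def b2_0 : Bx := Bx.mk (St.mk (I.pos (nat_lit 153436160) (nat_lit 286277632)) (I.mix (nat_lit 29278208) (nat_lit 56115200)) (I.mix (nat_lit 55803904) (nat_lit 107970560)) (I.pos (nat_lit 129859584) (nat_lit 370655232)) (I.mix (nat_lit 83165184) (nat_lit 63275008)) (I.mix (nat_lit 91193344) (nat_lit 66322432)) (I.mix (nat_lit 149143552) (nat_lit 87130112)))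
  false (nat_lit 0)
def b2_1 : Bx := Bx.mk (St.mk (I.pos (nat_lit 102285312) (nat_lit 172900352)) (I.neg (nat_lit 1261568) (nat_lit 71499776)) (I.mix (nat_lit 60866560) (nat_lit 7798784)) (I.pos (nat_lit 100728832) (nat_lit 172244992)) (I.mix (nat_lit 79626240) (nat_lit 38076416)) (I.mix (nat_lit 37896192) (nat_lit 60932096)) (I.mix (nat_lit 32636928) (nat_lit 55836672)))
  false (nat_lit 0)
def b2_2 : Bx := Bx.mk (St.mk (I.mix (nat_lit 24559616) (nat_lit 83886080)) (I.mix (nat_lit 34553856) (nat_lit 3538944)) (I.mix (nat_lit 14336000) (nat_lit 8224768)) (I.pos (nat_lit 40878080) (nat_lit 89047040)) (I.mix (nat_lit 26574848) (nat_lit 22364160)) (I.mix (nat_lit 19578880) (nat_lit 25280512)) (I.mix (nat_lit 10485760) (nat_lit 13434880)))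
  false (nat_lit 0)
def b2_3 : Bx := Bx.mk (St.mk (I.pos (nat_lit 150274048) (nat_lit 216973312)) (I.mix (nat_lit 35012608) (nat_lit 73777152)) (I.mix (nat_lit 19660800) (nat_lit 126205952)) (I.pos (nat_lit 135544832) (nat_lit 237043712)) (I.mix (nat_lit 133103616) (nat_lit 40140800)) (I.mix (nat_lit 151371776) (nat_lit 78888960)) (I.mix (nat_lit 181338112) (nat_lit 83394560)))
  false (nat_lit 0)
def b2_4 : Bx := Bx.mk (St.mk (I.mix (nat_lit 37863424) (nat_lit 110755840)) (I.mix (nat_lit 10797056) (nat_lit 39075840)) (I.mix (nat_lit 5046272) (nat_lit 32522240)) (I.pos (nat_lit 39960576) (nat_lit 106053632)) (I.mix (nat_lit 46317568) (nat_lit 19611648)) (I.mix (nat_lit 44384256) (nat_lit 29507584)) (I.mix (nat_lit 25837568) (nat_lit 17956864)))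
  false (nat_lit 0)
def b2_5 : Bx := Bx.mk (St.mk (I.mix (nat_lit 43008000) (nat_lit 109903872)) (I.mix (nat_lit 13402112) (nat_lit 4341760)) (I.mix (nat_lit 2916352) (nat_lit 8437760)) (I.pos (nat_lit 41943040) (nat_lit 94617600)) (I.mix (nat_lit 5292032) (nat_lit 8847360)) (I.mix (nat_lit 4194304) (nat_lit 5980160)) (I.mix (nat_lit 2129920) (nat_lit 3473408)))
  false (nat_lit 0)
def b2_6 : Bx := Bx.mk (St.mk (I.mix (nat_lit 40648704) (nat_lit 124502016)) (I.mix (nat_lit 9781248) (nat_lit 34816000)) (I.mix (nat_lit 7897088) (nat_lit 30343168)) (I.pos (nat_lit 37470208) (nat_lit 117768192)) (I.mix (nat_lit 38518784) (nat_lit 30638080)) (I.mix (nat_lit 39305216) (nat_lit 23183360)) (I.mix (nat_lit 29048832) (nat_lit 16351232)))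
  false (nat_lit 0)
def b2_7 : Bx := Bx.mk (St.mk (I.pos (nat_lit 92569600) (nat_lit 151289856)) (I.mix (nat_lit 65110016) (nat_lit 12173312)) (I.mix (nat_lit 52723712) (nat_lit 13303808)) (I.pos (nat_lit 78036992) (nat_lit 145866752)) (I.mix (nat_lit 79691776) (nat_lit 28639232)) (I.mix (nat_lit 49807360) (nat_lit 81707008)) (I.mix (nat_lit 36093952) (nat_lit 62865408)))
  false (nat_lit 0)
def b2_8 : Bx := Bx.mk (St.mk (I.mix (nat_lit 38617088) (nat_lit 75530240)) (I.mix (nat_lit 32669696) (nat_lit 6750208)) (I.mix (nat_lit 12337152) (nat_lit 8536064)) (I.pos (nat_lit 40632320) (nat_lit 84049920)) (I.mix (nat_lit 28131328) (nat_lit 14008320)) (I.mix (nat_lit 13975552) (nat_lit 31162368)) (I.mix (nat_lit 6225920) (nat_lit 11681792)))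
  false (nat_lit 0)
def b2_9 : Bx := Bx.mk (St.mk (I.pos (nat_lit 150421504) (nat_lit 170590208)) (I.neg (nat_lit 12058624) (nat_lit 39206912)) (I.mix (nat_lit 26509312) (nat_lit 6717440)) (I.pos (nat_lit 133234688) (nat_lit 173867008)) (I.mix (nat_lit 16809984) (nat_lit 13451264)) (I.mix (nat_lit 10125312) (nat_lit 11567104)) (I.mix (nat_lit 9781248) (nat_lit 11911168)))
  false (nat_lit 0)
def t2 : BTr := (BTr.n (BTr.n (BTr.n (BTr.b b2_0) (BTr.b b2_1)) (BTr.n (BTr.b b2_2) (BTr.n (BTr.b b2_3) (BTr.b b2_4)))) (BTr.n (BTr.n (BTr.b b2_5) (BTr.b b2_6)) (BTr.n (BTr.b b2_7) (BTr.n (BTr.b b2_8) (BTr.b b2_9)))))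
namespace T2
def l0 : Tr := Tr.L (Pth.l (Pth.l (Pth.l Pth.z)))
def l1 : Tr := Tr.L (Pth.l (Pth.l (Pth.r Pth.z)))
def l2 : Tr := Tr.L (Pth.l (Pth.r (Pth.l Pth.z)))
def l3 : Tr := Tr.L (Pth.l (Pth.r (Pth.r (Pth.l Pth.z))))
def l4 : Tr := Tr.L (Pth.l (Pth.r (Pth.r (Pth.r Pth.z))))
def l5 : Tr := Tr.L (Pth.r (Pth.l (Pth.l Pth.z)))
def l6 : Tr := Tr.L (Pth.r (Pth.l (Pth.r Pth.z)))
def l7 : Tr := Tr.L (Pth.r (Pth.r (Pth.l Pth.z)))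
def l8 : Tr := Tr.L (Pth.r (Pth.r (Pth.r (Pth.l Pth.z))))
def l9 : Tr := Tr.L (Pth.r (Pth.r (Pth.r (Pth.r Pth.z))))
end T2
theorem bx0_0 : BoxOK sI cl5 cl7 cl7 t1 t1 b0_0 :=
  box_mk (TrL.c (I.pos (nat_lit 0) (nat_lit 0)) (xa (xa T1.l0 T1.l0) (xa T1.l0 (xb T1.l0 T1.l0)))
  (TrL.c (I.pos (nat_lit 0) (nat_lit 0)) T1.l1
  (TrL.c (I.pos (nat_lit 0) (nat_lit 0)) T1.l2
  (TrL.c (I.pos (nat_lit 0) (nat_lit 0)) T1.l3
  (TrL.c (I.pos (nat_lit 0) (nat_lit 0)) (xa T1.l4 (xa T1.l4 (xb T1.l4 (xs T1.l4 T1.l4))))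
  (TrL.c (I.pos (nat_lit 0) (nat_lit 0)) T1.l5
  (TrL.c (I.pos (nat_lit 0) (nat_lit 0)) T1.l6
  (TrL.c (I.pos (nat_lit 0) (nat_lit 0)) T1.l7
  TrL.n)))))))) (by decide +kernel)
theorem bx0_1 : BoxOK sI cl5 cl7 cl7 t1 t1 b0_1 :=
  box_mk (TrL.c (I.pos (nat_lit 0) (nat_lit 0)) (xa T1.l0 T1.l0)
  (TrL.c (I.pos (nat_lit 0) (nat_lit 0)) T1.l1
  (TrL.c (I.pos (nat_lit 0) (nat_lit 0)) T1.l2
  (TrL.c (I.pos (nat_lit 0) (nat_lit 0)) T1.l3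
  (TrL.c (I.pos (nat_lit 0) (nat_lit 0)) T1.l4
  (TrL.c (I.pos (nat_lit 0) (nat_lit 0)) T1.l5
  (TrL.c (I.pos (nat_lit 0) (nat_lit 0)) T1.l6
  (TrL.c (I.pos (nat_lit 0) (nat_lit 0)) T1.l7
  TrL.n)))))))) (by decide +kernel)
theorem bx0_2 : BoxOK sI cl5 cl7 cl7 t1 t1 b0_2 :=
  box_mk (TrL.c (I.pos (nat_lit 0) (nat_lit 0)) T1.l0
  (TrL.c (I.pos (nat_lit 0) (nat_lit 0)) T1.l1
  (TrL.c (I.pos (nat_lit 0) (nat_lit 0)) T1.l2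
  (TrL.c (I.pos (nat_lit 0) (nat_lit 0)) T1.l3
  (TrL.c (I.pos (nat_lit 0) (nat_lit 0)) T1.l4
  (TrL.c (I.pos (nat_lit 0) (nat_lit 0)) T1.l5
  (TrL.c (I.pos (nat_lit 0) (nat_lit 0)) T1.l6
  (TrL.c (I.pos (nat_lit 0) (nat_lit 0)) T1.l7
  TrL.n)))))))) (by decide +kernel)
theorem bx0_3 : BoxOK sI cl5 cl7 cl7 t1 t1 b0_3 :=
  box_mk (TrL.c (I.pos (nat_lit 0) (nat_lit 0)) T1.l0
  (TrL.c (I.pos (nat_lit 0) (nat_lit 0)) T1.l1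
  (TrL.c (I.pos (nat_lit 0) (nat_lit 0)) T1.l2
  (TrL.c (I.pos (nat_lit 0) (nat_lit 0)) T1.l3
  (TrL.c (I.pos (nat_lit 0) (nat_lit 0)) T1.l4
  (TrL.c (I.pos (nat_lit 0) (nat_lit 0)) T1.l5
  (TrL.c (I.pos (nat_lit 0) (nat_lit 0)) T1.l6
  (TrL.c (I.pos (nat_lit 0) (nat_lit 0)) T1.l7
  TrL.n)))))))) (by decide +kernel)
theorem bx0_4 : BoxOK sI cl5 cl7 cl7 t1 t1 b0_4 :=
  box_mk (TrL.c (I.pos (nat_lit 0) (nat_lit 0)) T1.l0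
  (TrL.c (I.pos (nat_lit 0) (nat_lit 0)) T1.l1
  (TrL.c (I.pos (nat_lit 0) (nat_lit 0)) T1.l2
  (TrL.c (I.pos (nat_lit 0) (nat_lit 0)) T1.l3
  (TrL.c (I.pos (nat_lit 0) (nat_lit 0)) T1.l4
  (TrL.c (I.pos (nat_lit 0) (nat_lit 0)) T1.l5
  (TrL.c (I.pos (nat_lit 0) (nat_lit 0)) T1.l6
  (TrL.c (I.pos (nat_lit 0) (nat_lit 0)) T1.l7
  TrL.n)))))))) (by decide +kernel)
theorem bx0_5 : BoxOK sI cl5 cl7 cl7 t1 t1 b0_5 :=
  box_mk (TrL.c (I.pos (nat_lit 0) (nat_lit 0)) T1.l0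
  (TrL.c (I.pos (nat_lit 0) (nat_lit 0)) T1.l1
  (TrL.c (I.pos (nat_lit 0) (nat_lit 0)) T1.l2
  (TrL.c (I.pos (nat_lit 0) (nat_lit 0)) T1.l3
  (TrL.c (I.pos (nat_lit 0) (nat_lit 0)) T1.l4
  (TrL.c (I.pos (nat_lit 0) (nat_lit 0)) T1.l5
  (TrL.c (I.pos (nat_lit 0) (nat_lit 0)) T1.l6
  (TrL.c (I.pos (nat_lit 0) (nat_lit 0)) T1.l7
  TrL.n)))))))) (by decide +kernel)
theorem bx0_6 : BoxOK sI cl5 cl7 cl7 t1 t1 b0_6 :=
  box_mk (TrL.c (I.pos (nat_lit 0) (nat_lit 0)) T1.l0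
  (TrL.c (I.pos (nat_lit 0) (nat_lit 0)) T1.l1
  (TrL.c (I.pos (nat_lit 0) (nat_lit 0)) T1.l2
  (TrL.c (I.pos (nat_lit 0) (nat_lit 0)) T1.l3
  (TrL.c (I.pos (nat_lit 0) (nat_lit 0)) T1.l4
  (TrL.c (I.pos (nat_lit 0) (nat_lit 0)) T1.l5
  (TrL.c (I.pos (nat_lit 0) (nat_lit 0)) T1.l6
  (TrL.c (I.pos (nat_lit 0) (nat_lit 0)) T1.l7
  TrL.n)))))))) (by decide +kernel)
theorem bx0_7 : BoxOK sI cl5 cl7 cl7 t1 t1 b0_7 :=
  box_mk (TrL.c (I.pos (nat_lit 0) (nat_lit 0)) (xa T1.l0 T1.l0)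
  (TrL.c (I.pos (nat_lit 0) (nat_lit 0)) T1.l1
  (TrL.c (I.pos (nat_lit 0) (nat_lit 0)) T1.l2
  (TrL.c (I.pos (nat_lit 0) (nat_lit 0)) T1.l3
  (TrL.c (I.pos (nat_lit 0) (nat_lit 0)) T1.l4
  (TrL.c (I.pos (nat_lit 0) (nat_lit 0)) T1.l5
  (TrL.c (I.pos (nat_lit 0) (nat_lit 0)) T1.l6
  (TrL.c (I.pos (nat_lit 0) (nat_lit 0)) T1.l7
  TrL.n)))))))) (by decide +kernel)
theorem bx0_8 : BoxOK sI cl5 cl7 cl7 t1 t1 b0_8 :=
  box_mk (TrL.c (I.pos (nat_lit 0) (nat_lit 0)) (xb (xa (xb T1.l0 T1.l0) (xa T1.l0 T1.l0)) (xa (xa (xb T1.l0 T1.l0) T1.l0) (xa T1.l0 T1.l0)))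
  (TrL.c (I.pos (nat_lit 0) (nat_lit 0)) T1.l1
  (TrL.c (I.pos (nat_lit 0) (nat_lit 0)) T1.l2
  (TrL.c (I.pos (nat_lit 0) (nat_lit 0)) T1.l3
  (TrL.c (I.pos (nat_lit 0) (nat_lit 0)) (xb (xa T1.l4 T1.l4) (xa T1.l4 T1.l4))
  (TrL.c (I.pos (nat_lit 0) (nat_lit 0)) T1.l5
  (TrL.c (I.pos (nat_lit 0) (nat_lit 0)) T1.l6
  (TrL.c (I.pos (nat_lit 0) (nat_lit 0)) T1.l7
  TrL.n)))))))) (by decide +kernel)
theorem bx0_9 : BoxOK sI cl5 cl7 cl7 t1 t1 b0_9 :=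
  box_mk (TrL.c (I.pos (nat_lit 0) (nat_lit 0)) (xa T1.l0 T1.l0)
  (TrL.c (I.pos (nat_lit 0) (nat_lit 0)) T1.l1
  (TrL.c (I.pos (nat_lit 0) (nat_lit 0)) T1.l2
  (TrL.c (I.pos (nat_lit 0) (nat_lit 0)) T1.l3
  (TrL.c (I.pos (nat_lit 0) (nat_lit 0)) T1.l4
  (TrL.c (I.pos (nat_lit 0) (nat_lit 0)) T1.l5
  (TrL.c (I.pos (nat_lit 0) (nat_lit 0)) T1.l6
  (TrL.c (I.pos (nat_lit 0) (nat_lit 0)) T1.l7
  TrL.n)))))))) (by decide +kernel)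
theorem sv0 : StarV sI cl5 cl7 cl7 t1 t1 t0 :=
  (bt_n (bt_n (bt_n (bt_b bx0_0) (bt_b bx0_1)) (bt_n (bt_b bx0_2) (bt_n (bt_b bx0_3) (bt_b bx0_4)))) (bt_n (bt_n (bt_b bx0_5) (bt_b bx0_6)) (bt_n (bt_b bx0_7) (bt_n (bt_b bx0_8) (bt_b bx0_9)))))
def S0 : StarD := StarD.mk cl5 cl7 cl7 1 1 t0
theorem bx1_0 : BoxOK sI cl7 cl5 cl7 t0 t2 b1_0 :=
  box_mk (TrL.c (I.pos (nat_lit 0) (nat_lit 0)) (xa (xa (xb T0.l0 T0.l0) (xb T0.l0 T0.l0)) (xa (xb T0.l0 T0.l0) T0.l8))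
  (TrL.c (I.pos (nat_lit 0) (nat_lit 0)) T2.l1
  (TrL.c (I.pos (nat_lit 0) (nat_lit 111196574)) (xR T0.l1 (xR T0.l1 T0.l1))
  (TrL.c (I.pos (nat_lit 0) (nat_lit 77433728)) (xR T2.l2 T2.l2)
  (TrL.c (I.pos (nat_lit 0) (nat_lit 0)) (xa (xb (xa T2.l0 (xk T2.l3 T2.l3)) T2.l3) (xb (xa (xk (xb T2.l3 T2.l3) T2.l3) (xk (xb (xa T2.l3 T2.l3) T2.l3) (xb (xa T2.l3 T2.l3) T2.l3))) (xk (xa T2.l3 (xs T2.l3 (xb T2.l3 T2.l3))) (xa T2.l3 (xs T2.l3 (xb T2.l3 T2.l3))))))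
  (TrL.c (I.pos (nat_lit 0) (nat_lit 0)) T0.l2
  (TrL.c (I.mix (nat_lit 29511666) (nat_lit 77433728)) (xR T2.l4 (xR T2.l4 T2.l4))
  (TrL.c (I.mix (nat_lit 29511666) (nat_lit 46070178)) T0.l7
  TrL.n)))))))) (by decide +kernel)
theorem bx1_1 : BoxOK sI cl7 cl5 cl7 t0 t2 b1_1 :=
  box_mk (TrL.c (I.pos (nat_lit 0) (nat_lit 0)) (xa T0.l0 T0.l0)
  (TrL.c (I.pos (nat_lit 0) (nat_lit 0)) T2.l1
  (TrL.c (I.pos (nat_lit 0) (nat_lit 111196574)) T0.l1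
  (TrL.c (I.pos (nat_lit 0) (nat_lit 77433728)) T2.l2
  (TrL.c (I.pos (nat_lit 0) (nat_lit 0)) (xa T2.l3 T2.l0)
  (TrL.c (I.pos (nat_lit 0) (nat_lit 0)) T0.l2
  (TrL.c (I.mix (nat_lit 29511666) (nat_lit 77433728)) T2.l6
  (TrL.c (I.mix (nat_lit 29511666) (nat_lit 46070178)) T0.l7
  TrL.n)))))))) (by decide +kernel)
theorem bx1_2 : BoxOK sI cl7 cl5 cl7 t0 t2 b1_2 :=
  box_mk (TrL.c (I.pos (nat_lit 0) (nat_lit 0)) T0.l0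
  (TrL.c (I.pos (nat_lit 0) (nat_lit 0)) T2.l1
  (TrL.c (I.pos (nat_lit 0) (nat_lit 111196574)) T0.l1
  (TrL.c (I.pos (nat_lit 0) (nat_lit 77433728)) T2.l2
  (TrL.c (I.pos (nat_lit 0) (nat_lit 0)) T2.l3
  (TrL.c (I.pos (nat_lit 0) (nat_lit 0)) T0.l2
  (TrL.c (I.mix (nat_lit 29511666) (nat_lit 77433728)) T2.l4
  (TrL.c (I.mix (nat_lit 29511666) (nat_lit 46070178)) T0.l3
  TrL.n)))))))) (by decide +kernel)
theorem bx1_3 : BoxOK sI cl7 cl5 cl7 t0 t2 b1_3 :=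
  box_mk (TrL.c (I.pos (nat_lit 0) (nat_lit 0)) T2.l1
  (TrL.c (I.pos (nat_lit 0) (nat_lit 0)) T0.l1
  (TrL.c (I.mix (nat_lit 29511666) (nat_lit 77433728)) (xR T2.l5 T2.l2)
  (TrL.c (I.mix (nat_lit 29511666) (nat_lit 46070178)) T0.l7
  TrL.n)))) (by decide +kernel)
theorem bx1_4 : BoxOK sI cl7 cl5 cl7 t0 t2 b1_4 :=
  box_mk (TrL.c (I.pos (nat_lit 0) (nat_lit 0)) (xa (xb T0.l0 (xb T0.l0 T0.l0)) (xb T0.l0 (xa T0.l0 T0.l0)))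
  (TrL.c (I.pos (nat_lit 0) (nat_lit 0)) T2.l1
  (TrL.c (I.pos (nat_lit 0) (nat_lit 111196574)) (xR T0.l1 (xR T0.l1 T0.l1))
  (TrL.c (I.pos (nat_lit 0) (nat_lit 77433728)) (xR T2.l2 T2.l2)
  (TrL.c (I.pos (nat_lit 0) (nat_lit 0)) (xb (xa T2.l0 (xk T2.l0 T2.l0)) T2.l3)
  (TrL.c (I.pos (nat_lit 0) (nat_lit 0)) T0.l2
  (TrL.c (I.mix (nat_lit 29511666) (nat_lit 77433728)) (xR T2.l4 T2.l4)
  (TrL.c (I.mix (nat_lit 29511666) (nat_lit 46070178)) T0.l7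
  TrL.n)))))))) (by decide +kernel)
theorem bx1_5 : BoxOK sI cl7 cl5 cl7 t0 t2 b1_5 :=
  box_mk (TrL.c (I.pos (nat_lit 0) (nat_lit 0)) (xb T0.l0 T0.l0)
  (TrL.c (I.pos (nat_lit 0) (nat_lit 0)) T2.l1
  (TrL.c (I.pos (nat_lit 0) (nat_lit 111196574)) T0.l1
  (TrL.c (I.pos (nat_lit 0) (nat_lit 77433728)) T2.l2
  (TrL.c (I.pos (nat_lit 0) (nat_lit 0)) T2.l3
  (TrL.c (I.pos (nat_lit 0) (nat_lit 0)) T0.l2
  (TrL.c (I.mix (nat_lit 29511666) (nat_lit 77433728)) T2.l4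
  (TrL.c (I.mix (nat_lit 29511666) (nat_lit 46070178)) T0.l7
  TrL.n)))))))) (by decide +kernel)
theorem bx1_6 : BoxOK sI cl7 cl5 cl7 t0 t2 b1_6 :=
  box_mk (TrL.c (I.pos (nat_lit 0) (nat_lit 0)) T0.l0
  (TrL.c (I.pos (nat_lit 0) (nat_lit 0)) T2.l1
  (TrL.c (I.pos (nat_lit 0) (nat_lit 111196574)) T0.l1
  (TrL.c (I.pos (nat_lit 0) (nat_lit 77433728)) (xR T2.l2 T2.l2)
  (TrL.c (I.pos (nat_lit 0) (nat_lit 0)) T2.l3
  (TrL.c (I.pos (nat_lit 0) (nat_lit 0)) T0.l2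
  (TrL.c (I.mix (nat_lit 29511666) (nat_lit 77433728)) T2.l4
  (TrL.c (I.mix (nat_lit 29511666) (nat_lit 46070178)) T0.l7
  TrL.n)))))))) (by decide +kernel)
theorem bx1_7 : BoxOK sI cl7 cl5 cl7 t0 t2 b1_7 :=
  box_mk (TrL.c (I.pos (nat_lit 0) (nat_lit 0)) T2.l1
  (TrL.c (I.pos (nat_lit 0) (nat_lit 0)) T0.l1
  (TrL.c (I.mix (nat_lit 29511666) (nat_lit 77433728)) (xR T2.l4 T2.l2)
  (TrL.c (I.mix (nat_lit 29511666) (nat_lit 46070178)) T0.l9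
  TrL.n)))) (by decide +kernel)
theorem sv1 : StarV sI cl7 cl5 cl7 t0 t2 t1 :=
  (bt_n (bt_n (bt_n (bt_b bx1_0) (bt_b bx1_1)) (bt_n (bt_b bx1_2) (bt_b bx1_3))) (bt_n (bt_n (bt_b bx1_4) (bt_b bx1_5)) (bt_n (bt_b bx1_6) (bt_b bx1_7))))
def S1 : StarD := StarD.mk cl7 cl5 cl7 0 2 t1
theorem bx2_0 : BoxOK sI cl7 cl7 cl5 t2 t0 b2_0 :=
  box_mk (TrL.c (I.pos (nat_lit 0) (nat_lit 0)) (xa (xa (xb T2.l0 T2.l0) (xb T2.l0 (xs T2.l0 T2.l0))) (xa (xb T2.l0 (xs T2.l0 (xa T2.l0 T2.l0))) (xb T2.l3 (xs T2.l0 T2.l3))))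
  (TrL.c (I.pos (nat_lit 0) (nat_lit 0)) (xa T0.l6 T0.l2)
  (TrL.c (I.pos (nat_lit 0) (nat_lit 111196574)) (xR T2.l6 (xR T2.l6 T2.l6))
  (TrL.c (I.pos (nat_lit 0) (nat_lit 77433728)) (xR T0.l7 T0.l7)
  (TrL.c (I.pos (nat_lit 0) (nat_lit 0)) (xa (xb (xa T0.l8 T0.l8) T0.l8) (xb (xa (xk T0.l8 T0.l8) (xk (xb T0.l8 T0.l8) (xb T0.l8 T0.l8))) (xa T0.l8 (xk (xk (xa T0.l8 T0.l8) (xa T0.l8 T0.l8)) (xk (xa T0.l8 T0.l8) (xa T0.l8 T0.l8))))))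
  (TrL.c (I.pos (nat_lit 0) (nat_lit 0)) T2.l7
  (TrL.c (I.mix (nat_lit 29511666) (nat_lit 77433728)) (xR T0.l9 (xR T0.l9 T0.l9))
  (TrL.c (I.mix (nat_lit 29511666) (nat_lit 46070178)) (xR T2.l2 T2.l2)
  TrL.n)))))))) (by decide +kernel)
theorem bx2_1 : BoxOK sI cl7 cl7 cl5 t2 t0 b2_1 :=
  box_mk (TrL.c (I.pos (nat_lit 0) (nat_lit 0)) T2.l0
  (TrL.c (I.pos (nat_lit 0) (nat_lit 0)) T0.l6
  (TrL.c (I.pos (nat_lit 0) (nat_lit 111196574)) T2.l6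
  (TrL.c (I.pos (nat_lit 0) (nat_lit 77433728)) T0.l7
  (TrL.c (I.pos (nat_lit 0) (nat_lit 0)) (xa T0.l8 T0.l8)
  (TrL.c (I.pos (nat_lit 0) (nat_lit 0)) T2.l7
  (TrL.c (I.mix (nat_lit 29511666) (nat_lit 77433728)) (xR T0.l9 T0.l9)
  (TrL.c (I.mix (nat_lit 29511666) (nat_lit 46070178)) (xR T2.l8 T2.l8)
  TrL.n)))))))) (by decide +kernel)
theorem bx2_2 : BoxOK sI cl7 cl7 cl5 t2 t0 b2_2 :=
  box_mk (TrL.c (I.pos (nat_lit 0) (nat_lit 0)) T2.l0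
  (TrL.c (I.pos (nat_lit 0) (nat_lit 0)) T0.l6
  (TrL.c (I.pos (nat_lit 0) (nat_lit 111196574)) T2.l6
  (TrL.c (I.pos (nat_lit 0) (nat_lit 77433728)) T0.l9
  (TrL.c (I.pos (nat_lit 0) (nat_lit 0)) T0.l8
  (TrL.c (I.pos (nat_lit 0) (nat_lit 0)) T2.l7
  (TrL.c (I.mix (nat_lit 29511666) (nat_lit 77433728)) T0.l9
  (TrL.c (I.mix (nat_lit 29511666) (nat_lit 46070178)) T2.l8
  TrL.n)))))))) (by decide +kernel)
theorem bx2_3 : BoxOK sI cl7 cl7 cl5 t2 t0 b2_3 :=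
  box_mk (TrL.c (I.pos (nat_lit 0) (nat_lit 0)) (xb (xa (xb T2.l0 T2.l0) (xb T2.l0 T2.l0)) (xa (xs (xa T2.l0 T2.l0) (xa (xb T2.l0 T2.l0) (xb T2.l0 T2.l0))) (xs (xa T2.l0 T2.l0) (xa (xb T2.l0 T2.l0) T2.l0))))
  (TrL.c (I.pos (nat_lit 0) (nat_lit 0)) T0.l6
  (TrL.c (I.pos (nat_lit 0) (nat_lit 111196574)) (xR T2.l6 (xR T2.l6 T2.l6))
  (TrL.c (I.pos (nat_lit 0) (nat_lit 77433728)) (xR T0.l7 T0.l7)
  (TrL.c (I.pos (nat_lit 0) (nat_lit 0)) (xb (xa T0.l8 (xk T0.l8 T0.l8)) (xa T0.l8 (xk T0.l8 T0.l8)))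
  (TrL.c (I.pos (nat_lit 0) (nat_lit 0)) T2.l7
  (TrL.c (I.mix (nat_lit 29511666) (nat_lit 77433728)) (xR T0.l9 (xR T0.l9 T0.l9))
  (TrL.c (I.mix (nat_lit 29511666) (nat_lit 46070178)) (xR T2.l8 T2.l8)
  TrL.n)))))))) (by decide +kernel)
theorem bx2_4 : BoxOK sI cl7 cl7 cl5 t2 t0 b2_4 :=
  box_mk (TrL.c (I.pos (nat_lit 0) (nat_lit 0)) (xa T2.l0 T2.l0)
  (TrL.c (I.pos (nat_lit 0) (nat_lit 0)) (xa T0.l8 T0.l6)
  (TrL.c (I.pos (nat_lit 0) (nat_lit 111196574)) T2.l6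
  (TrL.c (I.pos (nat_lit 0) (nat_lit 77433728)) T0.l7
  (TrL.c (I.pos (nat_lit 0) (nat_lit 0)) (xa T0.l8 T0.l8)
  (TrL.c (I.pos (nat_lit 0) (nat_lit 0)) T2.l7
  (TrL.c (I.mix (nat_lit 29511666) (nat_lit 77433728)) T0.l9
  (TrL.c (I.mix (nat_lit 29511666) (nat_lit 46070178)) T2.l8
  TrL.n)))))))) (by decide +kernel)
theorem bx2_5 : BoxOK sI cl7 cl7 cl5 t2 t0 b2_5 :=
  box_mk (TrL.c (I.pos (nat_lit 0) (nat_lit 0)) T2.l0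
  (TrL.c (I.pos (nat_lit 0) (nat_lit 0)) T0.l6
  (TrL.c (I.pos (nat_lit 0) (nat_lit 111196574)) T2.l6
  (TrL.c (I.pos (nat_lit 0) (nat_lit 77433728)) (xR T0.l7 T0.l7)
  (TrL.c (I.pos (nat_lit 0) (nat_lit 0)) (xa T0.l8 T0.l8)
  (TrL.c (I.pos (nat_lit 0) (nat_lit 0)) T2.l7
  (TrL.c (I.mix (nat_lit 29511666) (nat_lit 77433728)) T0.l9
  (TrL.c (I.mix (nat_lit 29511666) (nat_lit 46070178)) T2.l8
  TrL.n)))))))) (by decide +kernel)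
theorem bx2_6 : BoxOK sI cl7 cl7 cl5 t2 t0 b2_6 :=
  box_mk (TrL.c (I.pos (nat_lit 0) (nat_lit 0)) (xa T2.l0 T2.l0)
  (TrL.c (I.pos (nat_lit 0) (nat_lit 0)) (xa T0.l8 T0.l6)
  (TrL.c (I.pos (nat_lit 0) (nat_lit 111196574)) T2.l6
  (TrL.c (I.pos (nat_lit 0) (nat_lit 77433728)) (xR T0.l7 T0.l7)
  (TrL.c (I.pos (nat_lit 0) (nat_lit 0)) (xa T0.l8 T0.l8)
  (TrL.c (I.pos (nat_lit 0) (nat_lit 0)) T2.l7
  (TrL.c (I.mix (nat_lit 29511666) (nat_lit 77433728)) T0.l9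
  (TrL.c (I.mix (nat_lit 29511666) (nat_lit 46070178)) T2.l8
  TrL.n)))))))) (by decide +kernel)
theorem bx2_7 : BoxOK sI cl7 cl7 cl5 t2 t0 b2_7 :=
  box_mk (TrL.c (I.pos (nat_lit 0) (nat_lit 0)) T2.l0
  (TrL.c (I.pos (nat_lit 0) (nat_lit 0)) T0.l6
  (TrL.c (I.pos (nat_lit 0) (nat_lit 111196574)) T2.l6
  (TrL.c (I.pos (nat_lit 0) (nat_lit 77433728)) T0.l7
  (TrL.c (I.pos (nat_lit 0) (nat_lit 0)) T0.l8
  (TrL.c (I.pos (nat_lit 0) (nat_lit 0)) T2.l7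
  (TrL.c (I.mix (nat_lit 29511666) (nat_lit 77433728)) T0.l9
  (TrL.c (I.mix (nat_lit 29511666) (nat_lit 46070178)) T2.l8
  TrL.n)))))))) (by decide +kernel)
theorem bx2_8 : BoxOK sI cl7 cl7 cl5 t2 t0 b2_8 :=
  box_mk (TrL.c (I.pos (nat_lit 0) (nat_lit 0)) (xa T2.l0 T2.l0)
  (TrL.c (I.pos (nat_lit 0) (nat_lit 0)) T0.l6
  (TrL.c (I.pos (nat_lit 0) (nat_lit 111196574)) T2.l6
  (TrL.c (I.pos (nat_lit 0) (nat_lit 77433728)) T0.l9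
  (TrL.c (I.pos (nat_lit 0) (nat_lit 0)) T0.l8
  (TrL.c (I.pos (nat_lit 0) (nat_lit 0)) T2.l7
  (TrL.c (I.mix (nat_lit 29511666) (nat_lit 77433728)) T0.l9
  (TrL.c (I.mix (nat_lit 29511666) (nat_lit 46070178)) T2.l8
  TrL.n)))))))) (by decide +kernel)
theorem bx2_9 : BoxOK sI cl7 cl7 cl5 t2 t0 b2_9 :=
  box_mk (TrL.c (I.pos (nat_lit 0) (nat_lit 0)) T2.l0
  (TrL.c (I.pos (nat_lit 0) (nat_lit 0)) T0.l6
  (TrL.c (I.pos (nat_lit 0) (nat_lit 111196574)) T2.l6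
  (TrL.c (I.pos (nat_lit 0) (nat_lit 77433728)) T0.l7
  (TrL.c (I.pos (nat_lit 0) (nat_lit 0)) T0.l8
  (TrL.c (I.pos (nat_lit 0) (nat_lit 0)) T2.l7
  (TrL.c (I.mix (nat_lit 29511666) (nat_lit 77433728)) T0.l9
  (TrL.c (I.mix (nat_lit 29511666) (nat_lit 46070178)) T2.l8
  TrL.n)))))))) (by decide +kernel)
theorem sv2 : StarV sI cl7 cl7 cl5 t2 t0 t2 :=
  (bt_n (bt_n (bt_n (bt_b bx2_0) (bt_b bx2_1)) (bt_n (bt_b bx2_2) (bt_n (bt_b bx2_3) (bt_b bx2_4)))) (bt_n (bt_n (bt_b bx2_5) (bt_b bx2_6)) (bt_n (bt_b bx2_7) (bt_n (bt_b bx2_8) (bt_b bx2_9)))))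
def S2 : StarD := StarD.mk cl7 cl7 cl5 2 0 t2
def G : List StarD := [S0, S1, S2]
theorem so0 : StarOK sI G S0 :=
  star_mk (by decide) (by decide) rfl rfl rfl rfl rfl rfl (rfl : _ = t1) (rfl : _ = t1)
  (st_mk (Pth.l (Pth.l (Pth.l Pth.z))) (nat_lit 142054471) (nat_lit 165063092) (by decide +kernel))
  (st_mk (Pth.l (Pth.l (Pth.l Pth.z))) (nat_lit 178104915) (nat_lit 201704518) (by decide +kernel))
  (st_mk (Pth.l (Pth.l (Pth.l Pth.z))) (nat_lit 220033677) (nat_lit 244452612) (by decide +kernel)) sv0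
theorem so1 : StarOK sI G S1 :=
  star_mk (by decide) (by decide) rfl rfl rfl rfl rfl rfl (rfl : _ = t0) (rfl : _ = t2)
  (st_mk (Pth.l (Pth.l (Pth.l Pth.z))) (nat_lit 239905606) (nat_lit 241987700) (by decide +kernel))
  (st_mk (Pth.l (Pth.l (Pth.l Pth.z))) (nat_lit 275386945) (nat_lit 277966359) (by decide +kernel))
  (st_mk (Pth.l (Pth.l (Pth.l Pth.z))) (nat_lit 316428972) (nat_lit 319673616) (by decide +kernel)) sv1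
theorem so2 : StarOK sI G S2 :=
  star_mk (by decide) (by decide) rfl rfl rfl rfl rfl rfl (rfl : _ = t2) (rfl : _ = t0)
  (st_mk (Pth.l (Pth.l (Pth.l Pth.z))) (nat_lit 140862325) (nat_lit 163466158) (by decide +kernel))
  (st_mk (Pth.l (Pth.l (Pth.l Pth.z))) (nat_lit 176239271) (nat_lit 199292560) (by decide +kernel))
  (st_mk (Pth.l (Pth.l (Pth.l Pth.z))) (nat_lit 217192254) (nat_lit 240870651) (by decide +kernel)) sv2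
theorem ok : GroupOK (nat_lit 0) (nat_lit 91291648) G := grp_mk (allS_c so0 (allS_c so1 (allS_c so2 allS_n)))
theorem cov : GCov G cl5 cl7 cl7 := cov_mk
  ⟨0, by decide, rfl, rfl, rfl⟩ ⟨0, by decide, rfl, rfl, rfl⟩ ⟨1, by decide, rfl, rfl, rfl⟩ ⟨2, by decide, rfl, rfl, rfl⟩ ⟨1, by decide, rfl, rfl, rfl⟩ ⟨2, by decide, rfl, rfl, rfl⟩
end Q244_0

namespace Q244_1
def sI : I := I.pos (nat_lit 91226112) (nat_lit 150339584)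
def b0_0 : Bx := Bx.mk (St.mk (I.pos (nat_lit 154140672) (nat_lit 273825792)) (I.mix (nat_lit 9355264) (nat_lit 59867136)) (I.mix (nat_lit 58097664) (nat_lit 81723392)) (I.pos (nat_lit 132792320) (nat_lit 354631680)) (I.mix (nat_lit 101089280) (nat_lit 74366976)) (I.mix (nat_lit 98041856) (nat_lit 66535424)) (I.mix (nat_lit 157270016) (nat_lit 105922560)))
  false (nat_lit 0)
def b0_1 : Bx := Bx.mk (St.mk (I.mix (nat_lit 25772032) (nat_lit 121962496)) (I.mix (nat_lit 4177920) (nat_lit 32931840)) (I.mix (nat_lit 16941056) (nat_lit 15122432)) (I.pos (nat_lit 40075264) (nat_lit 116867072)) (I.mix (nat_lit 36438016) (nat_lit 35782656)) (I.mix (nat_lit 37388288) (nat_lit 25935872)) (I.mix (nat_lit 26509312) (nat_lit 16695296)))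
  false (nat_lit 0)
def b0_2 : Bx := Bx.mk (St.mk (I.pos (nat_lit 93913088) (nat_lit 142589952)) (I.mix (nat_lit 64602112) (nat_lit 6225920)) (I.neg (nat_lit 3096576) (nat_lit 70254592)) (I.pos (nat_lit 78299136) (nat_lit 140771328)) (I.mix (nat_lit 109281280) (nat_lit 40452096)) (I.mix (nat_lit 59195392) (nat_lit 104120320)) (I.mix (nat_lit 42745856) (nat_lit 79839232)))
  false (nat_lit 0)
def b0_3 : Bx := Bx.mk (St.mk (I.mix (nat_lit 36077568) (nat_lit 71499776)) (I.mix (nat_lit 31637504) (nat_lit 1048576)) (I.mix (nat_lit 21250048) (nat_lit 573440)) (I.pos (nat_lit 42172416) (nat_lit 82100224)) (I.mix (nat_lit 39452672) (nat_lit 19234816)) (I.mix (nat_lit 23937024) (nat_lit 32735232)) (I.mix (nat_lit 11010048) (nat_lit 13811712)))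
  false (nat_lit 0)
def b0_4 : Bx := Bx.mk (St.mk (I.pos (nat_lit 95191040) (nat_lit 115687424)) (I.mix (nat_lit 4325376) (nat_lit 10387456)) (I.neg (nat_lit 1490944) (nat_lit 17367040)) (I.pos (nat_lit 79462400) (nat_lit 115097600)) (I.mix (nat_lit 10027008) (nat_lit 14221312)) (I.mix (nat_lit 8880128) (nat_lit 5947392)) (I.mix (nat_lit 7454720) (nat_lit 4636672)))
  false (nat_lit 0)
def b0_5 : Bx := Bx.mk (St.mk (I.mix (nat_lit 36978688) (nat_lit 16515072)) (I.mix (nat_lit 393216) (nat_lit 8863744)) (I.neg (nat_lit 3309568) (nat_lit 10534912)) (I.pos (nat_lit 43515904) (nat_lit 69664768)) (I.mix (nat_lit 4947968) (nat_lit 9617408)) (I.mix (nat_lit 5685248) (nat_lit 4685824)) (I.mix (nat_lit 1605632) (nat_lit 1949696)))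
  false (nat_lit 0)
def b0_6 : Bx := Bx.mk (St.mk (I.pos (nat_lit 106692608) (nat_lit 171524096)) (I.mix (nat_lit 59441152) (nat_lit 1064960)) (I.neg (nat_lit 2965504) (nat_lit 65060864)) (I.pos (nat_lit 97353728) (nat_lit 176242688)) (I.mix (nat_lit 82739200) (nat_lit 52396032)) (I.mix (nat_lit 49283072) (nat_lit 74760192)) (I.mix (nat_lit 40828928) (nat_lit 74629120)))
  false (nat_lit 0)
def b0_7 : Bx := Bx.mk (St.mk (I.mix (nat_lit 22216704) (nat_lit 89210880)) (I.mix (nat_lit 33013760) (nat_lit 6242304)) (I.mix (nat_lit 23412736) (nat_lit 212992)) (I.pos (nat_lit 41254912) (nat_lit 91766784)) (I.mix (nat_lit 40484864) (nat_lit 31588352)) (I.mix (nat_lit 23871488) (nat_lit 38141952)) (I.mix (nat_lit 13565952) (nat_lit 20774912)))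
  false (nat_lit 0)
def b0_8 : Bx := Bx.mk (St.mk (I.pos (nat_lit 141033472) (nat_lit 220266496)) (I.mix (nat_lit 44122112) (nat_lit 67420160)) (I.mix (nat_lit 53723136) (nat_lit 92307456)) (I.pos (nat_lit 122765312) (nat_lit 246743040)) (I.mix (nat_lit 150437888) (nat_lit 69468160)) (I.mix (nat_lit 156352512) (nat_lit 107151360)) (I.mix (nat_lit 169787392) (nat_lit 112295936)))
  false (nat_lit 0)
def b0_9 : Bx := Bx.mk (St.mk (I.mix (nat_lit 41484288) (nat_lit 113360896)) (I.mix (nat_lit 13926400) (nat_lit 36782080)) (I.mix (nat_lit 14057472) (nat_lit 19398656)) (I.pos (nat_lit 40337408) (nat_lit 108871680)) (I.mix (nat_lit 50135040) (nat_lit 31162368)) (I.mix (nat_lit 52477952) (nat_lit 36667392)) (I.mix (nat_lit 28639232) (nat_lit 21086208)))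
  false (nat_lit 0)
def t0 : BTr := (BTr.n (BTr.n (BTr.n (BTr.b b0_0) (BTr.b b0_1)) (BTr.n (BTr.b b0_2) (BTr.n (BTr.b b0_3) (BTr.b b0_4)))) (BTr.n (BTr.n (BTr.b b0_5) (BTr.b b0_6)) (BTr.n (BTr.b b0_7) (BTr.n (BTr.b b0_8) (BTr.b b0_9)))))
namespace T0
def l0 : Tr := Tr.L (Pth.l (Pth.l (Pth.l Pth.z)))
def l1 : Tr := Tr.L (Pth.l (Pth.l (Pth.r Pth.z)))
def l2 : Tr := Tr.L (Pth.l (Pth.r (Pth.l Pth.z)))
def l3 : Tr := Tr.L (Pth.l (Pth.r (Pth.r (Pth.l Pth.z))))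
def l4 : Tr := Tr.L (Pth.l (Pth.r (Pth.r (Pth.r Pth.z))))
def l5 : Tr := Tr.L (Pth.r (Pth.l (Pth.l Pth.z)))
def l6 : Tr := Tr.L (Pth.r (Pth.l (Pth.r Pth.z)))
def l7 : Tr := Tr.L (Pth.r (Pth.r (Pth.l Pth.z)))
def l8 : Tr := Tr.L (Pth.r (Pth.r (Pth.r (Pth.l Pth.z))))
def l9 : Tr := Tr.L (Pth.r (Pth.r (Pth.r (Pth.r Pth.z))))
end T0
def b1_0 : Bx := Bx.mk (St.mk (I.pos (nat_lit 153092096) (nat_lit 292110336)) (I.mix (nat_lit 30982144) (nat_lit 71204864)) (I.mix (nat_lit 106807296) (nat_lit 100483072)) (I.pos (nat_lit 227704832) (nat_lit 457555968)) (I.mix (nat_lit 110936064) (nat_lit 98697216)) (I.mix (nat_lit 115785728) (nat_lit 83951616)) (I.mix (nat_lit 170721280) (nat_lit 125108224)))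
  false (nat_lit 64471898)
def b1_1 : Bx := Bx.mk (St.mk (I.pos (nat_lit 71057408) (nat_lit 158875648)) (I.neg (nat_lit 5390336) (nat_lit 71548928)) (I.mix (nat_lit 63176704) (nat_lit 4603904)) (I.pos (nat_lit 164921344) (nat_lit 236290048)) (I.mix (nat_lit 87162880) (nat_lit 65208320)) (I.mix (nat_lit 56868864) (nat_lit 80150528)) (I.mix (nat_lit 51806208) (nat_lit 67895296)))
  false (nat_lit 0)
def b1_2 : Bx := Bx.mk (St.mk (I.pos (nat_lit 19791872) (nat_lit 76922880)) (I.mix (nat_lit 12632064) (nat_lit 50921472)) (I.mix (nat_lit 25640960) (nat_lit 8404992)) (I.pos (nat_lit 142311424) (nat_lit 164102144)) (I.mix (nat_lit 43499520) (nat_lit 56623104)) (I.mix (nat_lit 54034432) (nat_lit 36929536)) (I.mix (nat_lit 28524544) (nat_lit 18448384)))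
  false (nat_lit 0)
def b1_3 : Bx := Bx.mk (St.mk (I.mix (nat_lit 37961728) (nat_lit 11468800)) (I.mix (nat_lit 47333376) (nat_lit 11059200)) (I.mix (nat_lit 4358144) (nat_lit 5095424)) (I.pos (nat_lit 140541952) (nat_lit 151928832)) (I.mix (nat_lit 35323904) (nat_lit 46874624)) (I.mix (nat_lit 29868032) (nat_lit 46596096)) (I.mix (nat_lit 6586368) (nat_lit 5980160)))
  true (nat_lit 0)
def b1_4 : Bx := Bx.mk (St.mk (I.pos (nat_lit 120406016) (nat_lit 200704000)) (I.mix (nat_lit 43859968) (nat_lit 73564160)) (I.mix (nat_lit 39010304) (nat_lit 104251392)) (I.pos (nat_lit 195772416) (nat_lit 298303488)) (I.mix (nat_lit 141377536) (nat_lit 80035840)) (I.mix (nat_lit 156581888) (nat_lit 91504640)) (I.mix (nat_lit 156844032) (nat_lit 90849280)))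
  false (nat_lit 24255348)
def b1_5 : Bx := Bx.mk (St.mk (I.pos (nat_lit 50790400) (nat_lit 104955904)) (I.mix (nat_lit 70057984) (nat_lit 14204928)) (I.neg (nat_lit 6373376) (nat_lit 58589184)) (I.pos (nat_lit 149405696) (nat_lit 186318848)) (I.mix (nat_lit 92405760) (nat_lit 47366144)) (I.mix (nat_lit 51970048) (nat_lit 91160576)) (I.mix (nat_lit 34783232) (nat_lit 53690368)))
  false (nat_lit 0)
def b1_6 : Bx := Bx.mk (St.mk (I.mix (nat_lit 11452416) (nat_lit 37961728)) (I.mix (nat_lit 11059200) (nat_lit 47333376)) (I.mix (nat_lit 4341760) (nat_lit 5111808)) (I.pos (nat_lit 140541952) (nat_lit 151928832)) (I.mix (nat_lit 46874624) (nat_lit 35323904)) (I.mix (nat_lit 46596096) (nat_lit 29868032)) (I.mix (nat_lit 6586368) (nat_lit 5980160)))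
  false (nat_lit 0)
def b1_7 : Bx := Bx.mk (St.mk (I.neg (nat_lit 19791872) (nat_lit 76922880)) (I.mix (nat_lit 50921472) (nat_lit 12632064)) (I.mix (nat_lit 25640960) (nat_lit 8404992)) (I.pos (nat_lit 142311424) (nat_lit 164102144)) (I.mix (nat_lit 56623104) (nat_lit 43499520)) (I.mix (nat_lit 36929536) (nat_lit 54034432)) (I.mix (nat_lit 28524544) (nat_lit 18448384)))
  true (nat_lit 0)
def t1 : BTr := (BTr.n (BTr.n (BTr.n (BTr.b b1_0) (BTr.b b1_1)) (BTr.n (BTr.b b1_2) (BTr.b b1_3))) (BTr.n (BTr.n (BTr.b b1_4) (BTr.b b1_5)) (BTr.n (BTr.b b1_6) (BTr.b b1_7))))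
namespace T1
def l0 : Tr := Tr.L (Pth.l (Pth.l (Pth.l Pth.z)))
def l1 : Tr := Tr.L (Pth.l (Pth.l (Pth.r Pth.z)))
def l2 : Tr := Tr.L (Pth.l (Pth.r (Pth.l Pth.z)))
def l3 : Tr := Tr.L (Pth.l (Pth.r (Pth.r Pth.z)))
def l4 : Tr := Tr.L (Pth.r (Pth.l (Pth.l Pth.z)))
def l5 : Tr := Tr.L (Pth.r (Pth.l (Pth.r Pth.z)))
def l6 : Tr := Tr.L (Pth.r (Pth.r (Pth.l Pth.z)))
def l7 : Tr := Tr.L (Pth.r (Pth.r (Pth.r Pth.z)))
end T1
def b2_0 : Bx := Bx.mk (St.mk (I.pos (nat_lit 153337856) (nat_lit 287866880)) (I.mix (nat_lit 27607040) (nat_lit 56442880)) (I.mix (nat_lit 52281344) (nat_lit 107741184)) (I.pos (nat_lit 129875968) (nat_lit 375685120)) (I.mix (nat_lit 108019712) (nat_lit 91242496)) (I.mix (nat_lit 109723648) (nat_lit 85360640)) (I.mix (nat_lit 164397056) (nat_lit 111804416)))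
  false (nat_lit 32422184)
def b2_1 : Bx := Bx.mk (St.mk (I.pos (nat_lit 102825984) (nat_lit 173424640)) (I.neg (nat_lit 5914624) (nat_lit 62734336)) (I.mix (nat_lit 50921472) (nat_lit 5160960)) (I.pos (nat_lit 99860480) (nat_lit 173981696)) (I.mix (nat_lit 82329600) (nat_lit 51462144)) (I.mix (nat_lit 46268416) (nat_lit 65585152)) (I.mix (nat_lit 41156608) (nat_lit 60882944)))
  false (nat_lit 0)
def b2_2 : Bx := Bx.mk (St.mk (I.mix (nat_lit 24051712) (nat_lit 86966272)) (I.mix (nat_lit 32178176) (nat_lit 2752512)) (I.mix (nat_lit 13418496) (nat_lit 8519680)) (I.pos (nat_lit 41615360) (nat_lit 90963968)) (I.mix (nat_lit 31965184) (nat_lit 28868608)) (I.mix (nat_lit 21446656) (nat_lit 30621696)) (I.mix (nat_lit 11517952) (nat_lit 16089088)))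
  false (nat_lit 0)
def b2_3 : Bx := Bx.mk (St.mk (I.pos (nat_lit 147767296) (nat_lit 212451328)) (I.mix (nat_lit 34275328) (nat_lit 65257472)) (I.mix (nat_lit 18169856) (nat_lit 114262016)) (I.pos (nat_lit 134184960) (nat_lit 232423424)) (I.mix (nat_lit 157253632) (nat_lit 68812800)) (I.mix (nat_lit 163495936) (nat_lit 96911360)) (I.mix (nat_lit 184516608) (nat_lit 96485376)))
  false (nat_lit 16954342)
def b2_4 : Bx := Bx.mk (St.mk (I.mix (nat_lit 40583168) (nat_lit 110723072)) (I.mix (nat_lit 10567680) (nat_lit 38027264)) (I.mix (nat_lit 4128768) (nat_lit 32423936)) (I.pos (nat_lit 40861696) (nat_lit 106070016)) (I.mix (nat_lit 58982400) (nat_lit 28835840)) (I.mix (nat_lit 52953088) (nat_lit 37339136)) (I.mix (nat_lit 30130176) (nat_lit 22183936)))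
  false (nat_lit 0)
def b2_5 : Bx := Bx.mk (St.mk (I.mix (nat_lit 42188800) (nat_lit 90767360)) (I.mix (nat_lit 14073856) (nat_lit 4947968)) (I.mix (nat_lit 3145728) (nat_lit 8192000)) (I.pos (nat_lit 42303488) (nat_lit 92487680)) (I.mix (nat_lit 6553600) (nat_lit 10272768)) (I.mix (nat_lit 4866048) (nat_lit 5898240)) (I.mix (nat_lit 2490368) (nat_lit 3571712)))
  false (nat_lit 0)
def b2_6 : Bx := Bx.mk (St.mk (I.mix (nat_lit 39895040) (nat_lit 125468672)) (I.mix (nat_lit 9371648) (nat_lit 27934720)) (I.mix (nat_lit 7553024) (nat_lit 24068096)) (I.pos (nat_lit 39632896) (nat_lit 118521856)) (I.mix (nat_lit 40321024) (nat_lit 37978112)) (I.mix (nat_lit 44711936) (nat_lit 27607040)) (I.mix (nat_lit 31703040) (nat_lit 19300352)))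
  false (nat_lit 0)
def b2_7 : Bx := Bx.mk (St.mk (I.pos (nat_lit 92340224) (nat_lit 149504000)) (I.mix (nat_lit 66961408) (nat_lit 10895360)) (I.mix (nat_lit 55066624) (nat_lit 12369920)) (I.pos (nat_lit 76791808) (nat_lit 147816448)) (I.mix (nat_lit 102383616) (nat_lit 42663936)) (I.mix (nat_lit 61800448) (nat_lit 96731136)) (I.mix (nat_lit 46022656) (nat_lit 68468736)))
  false (nat_lit 1279815)
def b2_8 : Bx := Bx.mk (St.mk (I.mix (nat_lit 39780352) (nat_lit 83017728)) (I.mix (nat_lit 31834112) (nat_lit 6242304)) (I.mix (nat_lit 11780096) (nat_lit 7536640)) (I.pos (nat_lit 42139648) (nat_lit 82690048)) (I.mix (nat_lit 33406976) (nat_lit 21676032)) (I.mix (nat_lit 23412736) (nat_lit 34717696)) (I.mix (nat_lit 10190848) (nat_lit 13008896)))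
  false (nat_lit 0)
def b2_9 : Bx := Bx.mk (St.mk (I.pos (nat_lit 148897792) (nat_lit 171196416)) (I.neg (nat_lit 11698176) (nat_lit 39829504)) (I.mix (nat_lit 27148288) (nat_lit 6815744)) (I.pos (nat_lit 132251648) (nat_lit 175669248)) (I.mix (nat_lit 21135360) (nat_lit 16875520)) (I.mix (nat_lit 13041664) (nat_lit 13303808)) (I.mix (nat_lit 12779520) (nat_lit 13484032)))
  false (nat_lit 0)
def t2 : BTr := (BTr.n (BTr.n (BTr.n (BTr.b b2_0) (BTr.b b2_1)) (BTr.n (BTr.b b2_2) (BTr.n (BTr.b b2_3) (BTr.b b2_4)))) (BTr.n (BTr.n (BTr.b b2_5) (BTr.b b2_6)) (BTr.n (BTr.b b2_7) (BTr.n (BTr.b b2_8) (BTr.b b2_9)))))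
namespace T2
def l0 : Tr := Tr.L (Pth.l (Pth.l (Pth.l Pth.z)))
def l1 : Tr := Tr.L (Pth.l (Pth.l (Pth.r Pth.z)))
def l2 : Tr := Tr.L (Pth.l (Pth.r (Pth.l Pth.z)))
def l3 : Tr := Tr.L (Pth.l (Pth.r (Pth.r (Pth.l Pth.z))))
def l4 : Tr := Tr.L (Pth.l (Pth.r (Pth.r (Pth.r Pth.z))))
def l5 : Tr := Tr.L (Pth.r (Pth.l (Pth.l Pth.z)))
def l6 : Tr := Tr.L (Pth.r (Pth.l (Pth.r Pth.z)))
def l7 : Tr := Tr.L (Pth.r (Pth.r (Pth.l Pth.z)))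
def l8 : Tr := Tr.L (Pth.r (Pth.r (Pth.r (Pth.l Pth.z))))
def l9 : Tr := Tr.L (Pth.r (Pth.r (Pth.r (Pth.r Pth.z))))
end T2
theorem bx0_0 : BoxOK sI cl5 cl7 cl7 t1 t1 b0_0 :=
  box_mk (TrL.c (I.pos (nat_lit 0) (nat_lit 0)) (xa (xa (xb T1.l0 T1.l0) (xb T1.l0 T1.l0)) (xa (xb T1.l0 (xa T1.l0 T1.l0)) (xb T1.l4 (xa T1.l0 T1.l4))))
  (TrL.c (I.pos (nat_lit 0) (nat_lit 0)) (xa T1.l1 T1.l1)
  (TrL.c (I.pos (nat_lit 0) (nat_lit 0)) T1.l2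
  (TrL.c (I.pos (nat_lit 0) (nat_lit 0)) T1.l3
  (TrL.c (I.pos (nat_lit 0) (nat_lit 0)) (xa T1.l4 (xb (xa T1.l4 T1.l4) (xa T1.l4 (xa T1.l4 T1.l4))))
  (TrL.c (I.pos (nat_lit 0) (nat_lit 0)) T1.l5
  (TrL.c (I.pos (nat_lit 0) (nat_lit 0)) T1.l6
  (TrL.c (I.pos (nat_lit 0) (nat_lit 0)) T1.l7
  TrL.n)))))))) (by decide +kernel)
theorem bx0_1 : BoxOK sI cl5 cl7 cl7 t1 t1 b0_1 :=
  box_mk (TrL.c (I.pos (nat_lit 0) (nat_lit 0)) (xa T1.l0 T1.l0)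
  (TrL.c (I.pos (nat_lit 0) (nat_lit 0)) T1.l1
  (TrL.c (I.pos (nat_lit 0) (nat_lit 0)) T1.l2
  (TrL.c (I.pos (nat_lit 0) (nat_lit 0)) T1.l3
  (TrL.c (I.pos (nat_lit 0) (nat_lit 0)) T1.l4
  (TrL.c (I.pos (nat_lit 0) (nat_lit 0)) T1.l5
  (TrL.c (I.pos (nat_lit 0) (nat_lit 0)) T1.l6
  (TrL.c (I.pos (nat_lit 0) (nat_lit 0)) T1.l7
  TrL.n)))))))) (by decide +kernel)
theorem bx0_2 : BoxOK sI cl5 cl7 cl7 t1 t1 b0_2 :=
  box_mk (TrL.c (I.pos (nat_lit 0) (nat_lit 0)) T1.l0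
  (TrL.c (I.pos (nat_lit 0) (nat_lit 0)) T1.l1
  (TrL.c (I.pos (nat_lit 0) (nat_lit 0)) T1.l2
  (TrL.c (I.pos (nat_lit 0) (nat_lit 0)) T1.l3
  (TrL.c (I.pos (nat_lit 0) (nat_lit 0)) T1.l4
  (TrL.c (I.pos (nat_lit 0) (nat_lit 0)) T1.l5
  (TrL.c (I.pos (nat_lit 0) (nat_lit 0)) T1.l6
  (TrL.c (I.pos (nat_lit 0) (nat_lit 0)) T1.l7
  TrL.n)))))))) (by decide +kernel)
theorem bx0_3 : BoxOK sI cl5 cl7 cl7 t1 t1 b0_3 :=
  box_mk (TrL.c (I.pos (nat_lit 0) (nat_lit 0)) (xa (xa (xb T1.l0 T1.l0) T1.l0) T1.l0)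
  (TrL.c (I.pos (nat_lit 0) (nat_lit 0)) T1.l1
  (TrL.c (I.pos (nat_lit 0) (nat_lit 0)) T1.l2
  (TrL.c (I.pos (nat_lit 0) (nat_lit 0)) T1.l3
  (TrL.c (I.pos (nat_lit 0) (nat_lit 0)) T1.l4
  (TrL.c (I.pos (nat_lit 0) (nat_lit 0)) T1.l5
  (TrL.c (I.pos (nat_lit 0) (nat_lit 0)) T1.l6
  (TrL.c (I.pos (nat_lit 0) (nat_lit 0)) T1.l7
  TrL.n)))))))) (by decide +kernel)
theorem bx0_4 : BoxOK sI cl5 cl7 cl7 t1 t1 b0_4 :=
  box_mk (TrL.c (I.pos (nat_lit 0) (nat_lit 0)) T1.l0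
  (TrL.c (I.pos (nat_lit 0) (nat_lit 0)) T1.l1
  (TrL.c (I.pos (nat_lit 0) (nat_lit 0)) T1.l2
  (TrL.c (I.pos (nat_lit 0) (nat_lit 0)) T1.l3
  (TrL.c (I.pos (nat_lit 0) (nat_lit 0)) T1.l4
  (TrL.c (I.pos (nat_lit 0) (nat_lit 0)) T1.l5
  (TrL.c (I.pos (nat_lit 0) (nat_lit 0)) T1.l6
  (TrL.c (I.pos (nat_lit 0) (nat_lit 0)) T1.l7
  TrL.n)))))))) (by decide +kernel)
theorem bx0_5 : BoxOK sI cl5 cl7 cl7 t1 t1 b0_5 :=
  box_mk (TrL.c (I.pos (nat_lit 0) (nat_lit 0)) T1.l0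
  (TrL.c (I.pos (nat_lit 0) (nat_lit 0)) T1.l1
  (TrL.c (I.pos (nat_lit 0) (nat_lit 0)) T1.l2
  (TrL.c (I.pos (nat_lit 0) (nat_lit 0)) T1.l3
  (TrL.c (I.pos (nat_lit 0) (nat_lit 0)) T1.l4
  (TrL.c (I.pos (nat_lit 0) (nat_lit 0)) T1.l5
  (TrL.c (I.pos (nat_lit 0) (nat_lit 0)) T1.l6
  (TrL.c (I.pos (nat_lit 0) (nat_lit 0)) T1.l7
  TrL.n)))))))) (by decide +kernel)
theorem bx0_6 : BoxOK sI cl5 cl7 cl7 t1 t1 b0_6 :=
  box_mk (TrL.c (I.pos (nat_lit 0) (nat_lit 0)) T1.l0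
  (TrL.c (I.pos (nat_lit 0) (nat_lit 0)) T1.l1
  (TrL.c (I.pos (nat_lit 0) (nat_lit 0)) T1.l2
  (TrL.c (I.pos (nat_lit 0) (nat_lit 0)) T1.l3
  (TrL.c (I.pos (nat_lit 0) (nat_lit 0)) T1.l4
  (TrL.c (I.pos (nat_lit 0) (nat_lit 0)) T1.l5
  (TrL.c (I.pos (nat_lit 0) (nat_lit 0)) T1.l6
  (TrL.c (I.pos (nat_lit 0) (nat_lit 0)) T1.l7
  TrL.n)))))))) (by decide +kernel)
theorem bx0_7 : BoxOK sI cl5 cl7 cl7 t1 t1 b0_7 :=
  box_mk (TrL.c (I.pos (nat_lit 0) (nat_lit 0)) T1.l0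
  (TrL.c (I.pos (nat_lit 0) (nat_lit 0)) T1.l1
  (TrL.c (I.pos (nat_lit 0) (nat_lit 0)) T1.l2
  (TrL.c (I.pos (nat_lit 0) (nat_lit 0)) T1.l3
  (TrL.c (I.pos (nat_lit 0) (nat_lit 0)) T1.l4
  (TrL.c (I.pos (nat_lit 0) (nat_lit 0)) T1.l5
  (TrL.c (I.pos (nat_lit 0) (nat_lit 0)) T1.l6
  (TrL.c (I.pos (nat_lit 0) (nat_lit 0)) T1.l7
  TrL.n)))))))) (by decide +kernel)
theorem bx0_8 : BoxOK sI cl5 cl7 cl7 t1 t1 b0_8 :=
  box_mk (TrL.c (I.pos (nat_lit 0) (nat_lit 0)) (xb (xa (xb T1.l0 T1.l0) (xb T1.l0 T1.l0)) (xa (xb T1.l0 (xa T1.l0 T1.l0)) (xa (xb T1.l0 T1.l0) (xb T1.l0 T1.l0))))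
  (TrL.c (I.pos (nat_lit 0) (nat_lit 0)) (xb T1.l1 T1.l1)
  (TrL.c (I.pos (nat_lit 0) (nat_lit 0)) T1.l2
  (TrL.c (I.pos (nat_lit 0) (nat_lit 0)) T1.l3
  (TrL.c (I.pos (nat_lit 0) (nat_lit 0)) (xb (xa T1.l4 T1.l4) (xa T1.l4 T1.l4))
  (TrL.c (I.pos (nat_lit 0) (nat_lit 0)) T1.l5
  (TrL.c (I.pos (nat_lit 0) (nat_lit 0)) T1.l6
  (TrL.c (I.pos (nat_lit 0) (nat_lit 0)) T1.l7
  TrL.n)))))))) (by decide +kernel)
theorem bx0_9 : BoxOK sI cl5 cl7 cl7 t1 t1 b0_9 :=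
  box_mk (TrL.c (I.pos (nat_lit 0) (nat_lit 0)) (xa (xa (xb T1.l0 T1.l0) T1.l0) T1.l0)
  (TrL.c (I.pos (nat_lit 0) (nat_lit 0)) (xa T1.l1 T1.l1)
  (TrL.c (I.pos (nat_lit 0) (nat_lit 0)) T1.l2
  (TrL.c (I.pos (nat_lit 0) (nat_lit 0)) T1.l3
  (TrL.c (I.pos (nat_lit 0) (nat_lit 0)) T1.l4
  (TrL.c (I.pos (nat_lit 0) (nat_lit 0)) T1.l5
  (TrL.c (I.pos (nat_lit 0) (nat_lit 0)) T1.l6
  (TrL.c (I.pos (nat_lit 0) (nat_lit 0)) T1.l7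
  TrL.n)))))))) (by decide +kernel)
theorem sv0 : StarV sI cl5 cl7 cl7 t1 t1 t0 :=
  (bt_n (bt_n (bt_n (bt_b bx0_0) (bt_b bx0_1)) (bt_n (bt_b bx0_2) (bt_n (bt_b bx0_3) (bt_b bx0_4)))) (bt_n (bt_n (bt_b bx0_5) (bt_b bx0_6)) (bt_n (bt_b bx0_7) (bt_n (bt_b bx0_8) (bt_b bx0_9)))))
def S0 : StarD := StarD.mk cl5 cl7 cl7 1 1 t0
theorem bx1_0 : BoxOK sI cl7 cl5 cl7 t0 t2 b1_0 :=
  box_mk (TrL.c (I.pos (nat_lit 0) (nat_lit 0)) (xa (xb (xa T0.l0 T0.l0) (xa (xb T0.l0 T0.l0) (xb T0.l0 (xa T0.l0 T0.l0)))) (xa (xb T0.l8 (xb T0.l0 (xa T0.l0 T0.l0))) T0.l8))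
  (TrL.c (I.pos (nat_lit 0) (nat_lit 0)) (xa T2.l1 T2.l7)
  (TrL.c (I.pos (nat_lit 0) (nat_lit 111196574)) (xR T0.l1 (xR T0.l1 (xa T0.l9 T0.l9)))
  (TrL.c (I.pos (nat_lit 0) (nat_lit 77433728)) (xR T2.l2 (xR T2.l2 (xa T2.l2 T2.l2)))
  (TrL.c (I.pos (nat_lit 0) (nat_lit 0)) (xa (xb (xa T2.l3 (xk T2.l3 T2.l3)) T2.l3) (xb (xk (xa T2.l3 (xb (xa T2.l3 T2.l3) T2.l3)) (xa T2.l3 (xb (xa T2.l3 T2.l3) T2.l3))) (xa (xk T2.l3 (xb T2.l3 T2.l3)) (xk (xb T2.l3 (xa T2.l3 (xs T2.l3 (xb T2.l3 (xk T2.l3 T2.l3))))) (xb T2.l3 (xa (xs T2.l3 T2.l3) (xs (xk T2.l3 T2.l3) (xb T2.l3 (xk T2.l3 (xs T2.l3 T2.l3))))))))))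
  (TrL.c (I.pos (nat_lit 0) (nat_lit 0)) (xa T0.l2 T0.l2)
  (TrL.c (I.mix (nat_lit 29511666) (nat_lit 77433728)) (xR T2.l4 (xR T2.l4 (xR T2.l4 T2.l4)))
  (TrL.c (I.mix (nat_lit 29511666) (nat_lit 46070178)) (xR T0.l3 (xR T0.l3 T0.l3))
  TrL.n)))))))) (by decide +kernel)
theorem bx1_1 : BoxOK sI cl7 cl5 cl7 t0 t2 b1_1 :=
  box_mk (TrL.c (I.pos (nat_lit 0) (nat_lit 0)) T0.l0
  (TrL.c (I.pos (nat_lit 0) (nat_lit 0)) T2.l1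
  (TrL.c (I.pos (nat_lit 0) (nat_lit 111196574)) (xR T0.l1 T0.l1)
  (TrL.c (I.pos (nat_lit 0) (nat_lit 77433728)) (xR T2.l2 T2.l2)
  (TrL.c (I.pos (nat_lit 0) (nat_lit 0)) T2.l3
  (TrL.c (I.pos (nat_lit 0) (nat_lit 0)) T0.l2
  (TrL.c (I.mix (nat_lit 29511666) (nat_lit 77433728)) T2.l4
  (TrL.c (I.mix (nat_lit 29511666) (nat_lit 46070178)) T0.l3
  TrL.n)))))))) (by decide +kernel)
theorem bx1_2 : BoxOK sI cl7 cl5 cl7 t0 t2 b1_2 :=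
  box_mk (TrL.c (I.pos (nat_lit 0) (nat_lit 0)) T0.l0
  (TrL.c (I.pos (nat_lit 0) (nat_lit 0)) T2.l1
  (TrL.c (I.pos (nat_lit 0) (nat_lit 111196574)) T0.l1
  (TrL.c (I.pos (nat_lit 0) (nat_lit 77433728)) T2.l2
  (TrL.c (I.pos (nat_lit 0) (nat_lit 0)) T2.l3
  (TrL.c (I.pos (nat_lit 0) (nat_lit 0)) T0.l2
  (TrL.c (I.mix (nat_lit 29511666) (nat_lit 77433728)) T2.l4
  (TrL.c (I.mix (nat_lit 29511666) (nat_lit 46070178)) T0.l3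
  TrL.n)))))))) (by decide +kernel)
theorem bx1_3 : BoxOK sI cl7 cl5 cl7 t0 t2 b1_3 :=
  box_mk (TrL.c (I.pos (nat_lit 0) (nat_lit 0)) T2.l1
  (TrL.c (I.pos (nat_lit 0) (nat_lit 0)) T0.l1
  (TrL.c (I.mix (nat_lit 29511666) (nat_lit 77433728)) (xR T2.l4 T2.l2)
  (TrL.c (I.mix (nat_lit 29511666) (nat_lit 46070178)) T0.l9
  TrL.n)))) (by decide +kernel)
theorem bx1_4 : BoxOK sI cl7 cl5 cl7 t0 t2 b1_4 :=
  box_mk (TrL.c (I.pos (nat_lit 0) (nat_lit 0)) (xb (xa T0.l0 T0.l0) (xa (xb T0.l0 (xa T0.l0 T0.l0)) (xb T0.l0 (xa T0.l0 T0.l0))))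
  (TrL.c (I.pos (nat_lit 0) (nat_lit 0)) (xb T2.l1 T2.l1)
  (TrL.c (I.pos (nat_lit 0) (nat_lit 111196574)) (xR T0.l1 (xR T0.l1 (xR T0.l1 T0.l1)))
  (TrL.c (I.pos (nat_lit 0) (nat_lit 77433728)) (xR T2.l2 (xR T2.l2 T2.l2))
  (TrL.c (I.pos (nat_lit 0) (nat_lit 0)) (xb (xa T2.l3 (xk T2.l3 T2.l3)) (xb T2.l3 (xa T2.l3 (xk T2.l3 (xs T2.l3 (xb T2.l3 T2.l3))))))
  (TrL.c (I.pos (nat_lit 0) (nat_lit 0)) T0.l2
  (TrL.c (I.mix (nat_lit 29511666) (nat_lit 77433728)) (xR T2.l4 (xR T2.l4 (xR T2.l4 T2.l4)))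
  (TrL.c (I.mix (nat_lit 29511666) (nat_lit 46070178)) (xR T0.l3 T0.l7)
  TrL.n)))))))) (by decide +kernel)
theorem bx1_5 : BoxOK sI cl7 cl5 cl7 t0 t2 b1_5 :=
  box_mk (TrL.c (I.pos (nat_lit 0) (nat_lit 0)) (xb T0.l0 T0.l0)
  (TrL.c (I.pos (nat_lit 0) (nat_lit 0)) T2.l1
  (TrL.c (I.pos (nat_lit 0) (nat_lit 111196574)) T0.l1
  (TrL.c (I.pos (nat_lit 0) (nat_lit 77433728)) T2.l2
  (TrL.c (I.pos (nat_lit 0) (nat_lit 0)) T2.l3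
  (TrL.c (I.pos (nat_lit 0) (nat_lit 0)) T0.l2
  (TrL.c (I.mix (nat_lit 29511666) (nat_lit 77433728)) T2.l4
  (TrL.c (I.mix (nat_lit 29511666) (nat_lit 46070178)) T0.l9
  TrL.n)))))))) (by decide +kernel)
theorem bx1_6 : BoxOK sI cl7 cl5 cl7 t0 t2 b1_6 :=
  box_mk (TrL.c (I.pos (nat_lit 0) (nat_lit 0)) T0.l0
  (TrL.c (I.pos (nat_lit 0) (nat_lit 0)) T2.l1
  (TrL.c (I.pos (nat_lit 0) (nat_lit 111196574)) T0.l1
  (TrL.c (I.pos (nat_lit 0) (nat_lit 77433728)) T2.l2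
  (TrL.c (I.pos (nat_lit 0) (nat_lit 0)) T2.l3
  (TrL.c (I.pos (nat_lit 0) (nat_lit 0)) T0.l2
  (TrL.c (I.mix (nat_lit 29511666) (nat_lit 77433728)) T2.l4
  (TrL.c (I.mix (nat_lit 29511666) (nat_lit 46070178)) T0.l9
  TrL.n)))))))) (by decide +kernel)
theorem bx1_7 : BoxOK sI cl7 cl5 cl7 t0 t2 b1_7 :=
  box_mk (TrL.c (I.pos (nat_lit 0) (nat_lit 0)) T2.l1
  (TrL.c (I.pos (nat_lit 0) (nat_lit 0)) T0.l1
  (TrL.c (I.mix (nat_lit 29511666) (nat_lit 77433728)) (xR T2.l4 T2.l2)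
  (TrL.c (I.mix (nat_lit 29511666) (nat_lit 46070178)) T0.l9
  TrL.n)))) (by decide +kernel)
theorem sv1 : StarV sI cl7 cl5 cl7 t0 t2 t1 :=
  (bt_n (bt_n (bt_n (bt_b bx1_0) (bt_b bx1_1)) (bt_n (bt_b bx1_2) (bt_b bx1_3))) (bt_n (bt_n (bt_b bx1_4) (bt_b bx1_5)) (bt_n (bt_b bx1_6) (bt_b bx1_7))))
def S1 : StarD := StarD.mk cl7 cl5 cl7 0 2 t1
theorem bx2_0 : BoxOK sI cl7 cl7 cl5 t2 t0 b2_0 :=
  box_mk (TrL.c (I.pos (nat_lit 0) (nat_lit 0)) (xa (xa (xb T2.l0 (xa T2.l0 T2.l0)) (xb (xa T2.l0 T2.l0) (xa T2.l0 (xb T2.l0 T2.l0)))) (xa (xb (xa T2.l0 T2.l0) (xa (xb T2.l0 T2.l0) (xb T2.l0 T2.l0))) (xb (xb T2.l3 T2.l3) (xa T2.l3 T2.l3))))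
  (TrL.c (I.pos (nat_lit 0) (nat_lit 0)) (xa (xb T0.l6 T0.l6) (xa T0.l2 T0.l2))
  (TrL.c (I.pos (nat_lit 0) (nat_lit 111196574)) (xR T2.l6 (xR T2.l4 (xa (xR T2.l6 T2.l6) T2.l4)))
  (TrL.c (I.pos (nat_lit 0) (nat_lit 77433728)) (xR (xR T0.l7 T0.l7) (xR T0.l7 (xa T0.l7 T0.l7)))
  (TrL.c (I.pos (nat_lit 0) (nat_lit 0)) (xa (xb (xa T0.l8 T0.l8) T0.l8) (xb (xa (xk T0.l8 T0.l8) (xk (xb T0.l8 T0.l8) (xb T0.l8 T0.l8))) (xa (xb T0.l8 T0.l8) (xk (xb T0.l8 (xa T0.l8 (xs T0.l8 T0.l8))) (xb T0.l8 (xa T0.l8 (xs T0.l8 (xk T0.l8 (xb T0.l8 T0.l8)))))))))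
  (TrL.c (I.pos (nat_lit 0) (nat_lit 0)) (xa T2.l7 T2.l7)
  (TrL.c (I.mix (nat_lit 29511666) (nat_lit 77433728)) (xR T0.l9 (xR T0.l9 (xR T0.l9 (xa T0.l9 T0.l9))))
  (TrL.c (I.mix (nat_lit 29511666) (nat_lit 46070178)) (xR (xR T2.l8 T2.l8) (xR T2.l8 T2.l8))
  TrL.n)))))))) (by decide +kernel)
theorem bx2_1 : BoxOK sI cl7 cl7 cl5 t2 t0 b2_1 :=
  box_mk (TrL.c (I.pos (nat_lit 0) (nat_lit 0)) T2.l0
  (TrL.c (I.pos (nat_lit 0) (nat_lit 0)) T0.l6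
  (TrL.c (I.pos (nat_lit 0) (nat_lit 111196574)) (xR T2.l6 T2.l6)
  (TrL.c (I.pos (nat_lit 0) (nat_lit 77433728)) (xR T0.l7 T0.l7)
  (TrL.c (I.pos (nat_lit 0) (nat_lit 0)) T0.l8
  (TrL.c (I.pos (nat_lit 0) (nat_lit 0)) T2.l7
  (TrL.c (I.mix (nat_lit 29511666) (nat_lit 77433728)) (xR T0.l9 T0.l9)
  (TrL.c (I.mix (nat_lit 29511666) (nat_lit 46070178)) T2.l8
  TrL.n)))))))) (by decide +kernel)
theorem bx2_2 : BoxOK sI cl7 cl7 cl5 t2 t0 b2_2 :=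
  box_mk (TrL.c (I.pos (nat_lit 0) (nat_lit 0)) T2.l0
  (TrL.c (I.pos (nat_lit 0) (nat_lit 0)) T0.l6
  (TrL.c (I.pos (nat_lit 0) (nat_lit 111196574)) T2.l6
  (TrL.c (I.pos (nat_lit 0) (nat_lit 77433728)) (xR T0.l7 T0.l7)
  (TrL.c (I.pos (nat_lit 0) (nat_lit 0)) T0.l8
  (TrL.c (I.pos (nat_lit 0) (nat_lit 0)) T2.l7
  (TrL.c (I.mix (nat_lit 29511666) (nat_lit 77433728)) T0.l9
  (TrL.c (I.mix (nat_lit 29511666) (nat_lit 46070178)) T2.l8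
  TrL.n)))))))) (by decide +kernel)
theorem bx2_3 : BoxOK sI cl7 cl7 cl5 t2 t0 b2_3 :=
  box_mk (TrL.c (I.pos (nat_lit 0) (nat_lit 0)) (xb (xa (xb T2.l0 T2.l0) (xb (xa T2.l0 T2.l0) T2.l0)) (xa (xb (xa T2.l0 T2.l0) (xa T2.l0 T2.l0)) (xb T2.l0 (xa T2.l0 T2.l0))))
  (TrL.c (I.pos (nat_lit 0) (nat_lit 0)) (xb T0.l6 (xa T0.l6 T0.l6))
  (TrL.c (I.pos (nat_lit 0) (nat_lit 111196574)) (xR T2.l6 (xR T2.l6 (xR T2.l6 T2.l6)))
  (TrL.c (I.pos (nat_lit 0) (nat_lit 77433728)) (xR T0.l7 (xR T0.l7 T0.l7))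
  (TrL.c (I.pos (nat_lit 0) (nat_lit 0)) (xb (xa T0.l8 (xk T0.l8 T0.l8)) (xa (xb T0.l8 T0.l8) (xk (xb T0.l8 (xs T0.l8 (xb T0.l8 (xa T0.l8 T0.l8)))) (xb T0.l8 (xs T0.l8 (xb T0.l8 (xa T0.l8 (xk T0.l8 T0.l8))))))))
  (TrL.c (I.pos (nat_lit 0) (nat_lit 0)) T2.l7
  (TrL.c (I.mix (nat_lit 29511666) (nat_lit 77433728)) (xR T0.l9 (xR T0.l9 (xR T0.l9 T0.l9)))
  (TrL.c (I.mix (nat_lit 29511666) (nat_lit 46070178)) (xR T2.l8 (xR T2.l8 T2.l8))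
  TrL.n)))))))) (by decide +kernel)
theorem bx2_4 : BoxOK sI cl7 cl7 cl5 t2 t0 b2_4 :=
  box_mk (TrL.c (I.pos (nat_lit 0) (nat_lit 0)) (xa T2.l0 T2.l0)
  (TrL.c (I.pos (nat_lit 0) (nat_lit 0)) (xa T0.l8 T0.l6)
  (TrL.c (I.pos (nat_lit 0) (nat_lit 111196574)) T2.l6
  (TrL.c (I.pos (nat_lit 0) (nat_lit 77433728)) (xR T0.l7 T0.l7)
  (TrL.c (I.pos (nat_lit 0) (nat_lit 0)) (xa T0.l8 T0.l8)
  (TrL.c (I.pos (nat_lit 0) (nat_lit 0)) T2.l7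
  (TrL.c (I.mix (nat_lit 29511666) (nat_lit 77433728)) T0.l9
  (TrL.c (I.mix (nat_lit 29511666) (nat_lit 46070178)) T2.l8
  TrL.n)))))))) (by decide +kernel)
theorem bx2_5 : BoxOK sI cl7 cl7 cl5 t2 t0 b2_5 :=
  box_mk (TrL.c (I.pos (nat_lit 0) (nat_lit 0)) T2.l0
  (TrL.c (I.pos (nat_lit 0) (nat_lit 0)) T0.l6
  (TrL.c (I.pos (nat_lit 0) (nat_lit 111196574)) T2.l6
  (TrL.c (I.pos (nat_lit 0) (nat_lit 77433728)) (xR T0.l7 T0.l7)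
  (TrL.c (I.pos (nat_lit 0) (nat_lit 0)) T0.l8
  (TrL.c (I.pos (nat_lit 0) (nat_lit 0)) T2.l7
  (TrL.c (I.mix (nat_lit 29511666) (nat_lit 77433728)) T0.l9
  (TrL.c (I.mix (nat_lit 29511666) (nat_lit 46070178)) T2.l8
  TrL.n)))))))) (by decide +kernel)
theorem bx2_6 : BoxOK sI cl7 cl7 cl5 t2 t0 b2_6 :=
  box_mk (TrL.c (I.pos (nat_lit 0) (nat_lit 0)) (xa T2.l0 T2.l0)
  (TrL.c (I.pos (nat_lit 0) (nat_lit 0)) (xa T0.l8 T0.l6)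
  (TrL.c (I.pos (nat_lit 0) (nat_lit 111196574)) T2.l6
  (TrL.c (I.pos (nat_lit 0) (nat_lit 77433728)) (xR T0.l7 T0.l7)
  (TrL.c (I.pos (nat_lit 0) (nat_lit 0)) (xa T0.l8 T0.l8)
  (TrL.c (I.pos (nat_lit 0) (nat_lit 0)) T2.l7
  (TrL.c (I.mix (nat_lit 29511666) (nat_lit 77433728)) T0.l9
  (TrL.c (I.mix (nat_lit 29511666) (nat_lit 46070178)) T2.l8
  TrL.n)))))))) (by decide +kernel)
theorem bx2_7 : BoxOK sI cl7 cl7 cl5 t2 t0 b2_7 :=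
  box_mk (TrL.c (I.pos (nat_lit 0) (nat_lit 0)) T2.l0
  (TrL.c (I.pos (nat_lit 0) (nat_lit 0)) T0.l6
  (TrL.c (I.pos (nat_lit 0) (nat_lit 111196574)) (xR T2.l6 T2.l6)
  (TrL.c (I.pos (nat_lit 0) (nat_lit 77433728)) (xR T0.l7 T0.l7)
  (TrL.c (I.pos (nat_lit 0) (nat_lit 0)) T0.l8
  (TrL.c (I.pos (nat_lit 0) (nat_lit 0)) T2.l7
  (TrL.c (I.mix (nat_lit 29511666) (nat_lit 77433728)) (xR T0.l9 T0.l9)
  (TrL.c (I.mix (nat_lit 29511666) (nat_lit 46070178)) T2.l8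
  TrL.n)))))))) (by decide +kernel)
theorem bx2_8 : BoxOK sI cl7 cl7 cl5 t2 t0 b2_8 :=
  box_mk (TrL.c (I.pos (nat_lit 0) (nat_lit 0)) (xa (xa (xb T2.l0 T2.l0) T2.l0) T2.l0)
  (TrL.c (I.pos (nat_lit 0) (nat_lit 0)) T0.l6
  (TrL.c (I.pos (nat_lit 0) (nat_lit 111196574)) T2.l6
  (TrL.c (I.pos (nat_lit 0) (nat_lit 77433728)) (xR T0.l7 T0.l7)
  (TrL.c (I.pos (nat_lit 0) (nat_lit 0)) (xa T0.l8 T0.l8)
  (TrL.c (I.pos (nat_lit 0) (nat_lit 0)) T2.l7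
  (TrL.c (I.mix (nat_lit 29511666) (nat_lit 77433728)) (xR T0.l9 (xR T0.l9 T0.l9))
  (TrL.c (I.mix (nat_lit 29511666) (nat_lit 46070178)) T2.l8
  TrL.n)))))))) (by decide +kernel)
theorem bx2_9 : BoxOK sI cl7 cl7 cl5 t2 t0 b2_9 :=
  box_mk (TrL.c (I.pos (nat_lit 0) (nat_lit 0)) T2.l0
  (TrL.c (I.pos (nat_lit 0) (nat_lit 0)) T0.l6
  (TrL.c (I.pos (nat_lit 0) (nat_lit 111196574)) (xR T2.l6 T2.l6)
  (TrL.c (I.pos (nat_lit 0) (nat_lit 77433728)) (xR T0.l7 T0.l7)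
  (TrL.c (I.pos (nat_lit 0) (nat_lit 0)) T0.l8
  (TrL.c (I.pos (nat_lit 0) (nat_lit 0)) T2.l7
  (TrL.c (I.mix (nat_lit 29511666) (nat_lit 77433728)) (xR T0.l9 T0.l9)
  (TrL.c (I.mix (nat_lit 29511666) (nat_lit 46070178)) T2.l8
  TrL.n)))))))) (by decide +kernel)
theorem sv2 : StarV sI cl7 cl7 cl5 t2 t0 t2 :=
  (bt_n (bt_n (bt_n (bt_b bx2_0) (bt_b bx2_1)) (bt_n (bt_b bx2_2) (bt_n (bt_b bx2_3) (bt_b bx2_4)))) (bt_n (bt_n (bt_b bx2_5) (bt_b bx2_6)) (bt_n (bt_b bx2_7) (bt_n (bt_b bx2_8) (bt_b bx2_9)))))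
def S2 : StarD := StarD.mk cl7 cl7 cl5 2 0 t2
def G : List StarD := [S0, S1, S2]
theorem so0 : StarOK sI G S0 :=
  star_mk (by decide) (by decide) rfl rfl rfl rfl rfl rfl (rfl : _ = t1) (rfl : _ = t1)
  (st_mk (Pth.l (Pth.l (Pth.l Pth.z))) (nat_lit 142782289) (nat_lit 165663317) (by decide +kernel))
  (st_mk (Pth.l (Pth.l (Pth.l Pth.z))) (nat_lit 179251836) (nat_lit 202617035) (by decide +kernel))
  (st_mk (Pth.l (Pth.l (Pth.l Pth.z))) (nat_lit 221794859) (nat_lit 245818413) (by decide +kernel)) sv0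
theorem so1 : StarOK sI G S1 :=
  star_mk (by decide) (by decide) rfl rfl rfl rfl rfl rfl (rfl : _ = t0) (rfl : _ = t2)
  (st_mk (Pth.l (Pth.l (Pth.l Pth.z))) (nat_lit 240545069) (nat_lit 242561744) (by decide +kernel))
  (st_mk (Pth.l (Pth.l (Pth.l Pth.z))) (nat_lit 276231931) (nat_lit 278727836) (by decide +kernel))
  (st_mk (Pth.l (Pth.l (Pth.l Pth.z))) (nat_lit 317011479) (nat_lit 321223809) (by decide +kernel)) sv1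
theorem so2 : StarOK sI G S2 :=
  star_mk (by decide) (by decide) rfl rfl rfl rfl rfl rfl (rfl : _ = t2) (rfl : _ = t0)
  (st_mk (Pth.l (Pth.l (Pth.l Pth.z))) (nat_lit 141162034) (nat_lit 163782916) (by decide +kernel))
  (st_mk (Pth.l (Pth.l (Pth.l Pth.z))) (nat_lit 176706812) (nat_lit 199769184) (by decide +kernel))
  (st_mk (Pth.l (Pth.l (Pth.l Pth.z))) (nat_lit 217901670) (nat_lit 241575319) (by decide +kernel)) sv2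
theorem ok : GroupOK (nat_lit 91226112) (nat_lit 150339584) G := grp_mk (allS_c so0 (allS_c so1 (allS_c so2 allS_n)))
theorem cov : GCov G cl5 cl7 cl7 := cov_mk
  ⟨0, by decide, rfl, rfl, rfl⟩ ⟨0, by decide, rfl, rfl, rfl⟩ ⟨1, by decide, rfl, rfl, rfl⟩ ⟨2, by decide, rfl, rfl, rfl⟩ ⟨1, by decide, rfl, rfl, rfl⟩ ⟨2, by decide, rfl, rfl, rfl⟩
end Q244_1

namespace Q244_2
def sI : I := I.pos (nat_lit 150274048) (nat_lit 209387520)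
def b0_0 : Bx := Bx.mk (St.mk (I.pos (nat_lit 158564352) (nat_lit 233947136)) (I.mix (nat_lit 1769472) (nat_lit 58851328)) (I.mix (nat_lit 2424832) (nat_lit 83509248)) (I.pos (nat_lit 141688832) (nat_lit 271843328)) (I.mix (nat_lit 112574464) (nat_lit 60899328)) (I.mix (nat_lit 72728576) (nat_lit 60719104)) (I.mix (nat_lit 98762752) (nat_lit 86065152)))
  false (nat_lit 0)
def b0_1 : Bx := Bx.mk (St.mk (I.mix (nat_lit 24084480) (nat_lit 118784000)) (I.mix (nat_lit 3211264) (nat_lit 35225600)) (I.mix (nat_lit 16367616) (nat_lit 16039936)) (I.pos (nat_lit 40075264) (nat_lit 115572736)) (I.mix (nat_lit 41517056) (nat_lit 37847040)) (I.mix (nat_lit 32161792) (nat_lit 26771456)) (I.mix (nat_lit 23969792) (nat_lit 16957440)))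
  false (nat_lit 0)
def b0_2 : Bx := Bx.mk (St.mk (I.pos (nat_lit 94683136) (nat_lit 136183808)) (I.mix (nat_lit 50233344) (nat_lit 4210688)) (I.neg (nat_lit 4849664) (nat_lit 55050240)) (I.pos (nat_lit 79396864) (nat_lit 130023424)) (I.mix (nat_lit 81756160) (nat_lit 27000832)) (I.mix (nat_lit 31473664) (nat_lit 68632576)) (I.mix (nat_lit 21266432) (nat_lit 52101120)))
  false (nat_lit 0)
def b0_3 : Bx := Bx.mk (St.mk (I.mix (nat_lit 33259520) (nat_lit 68878336)) (I.neg (nat_lit 147456) (nat_lit 30212096)) (I.neg (nat_lit 65536) (nat_lit 20545536)) (I.pos (nat_lit 41467904) (nat_lit 81444864)) (I.mix (nat_lit 36798464) (nat_lit 16695296)) (I.mix (nat_lit 15089664) (nat_lit 26066944)) (I.mix (nat_lit 7979008) (nat_lit 10616832)))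
  false (nat_lit 0)
def b0_4 : Bx := Bx.mk (St.mk (I.pos (nat_lit 195379200) (nat_lit 269139968)) (I.mix (nat_lit 7421952) (nat_lit 37568512)) (I.mix (nat_lit 51134464) (nat_lit 36126720)) (I.pos (nat_lit 218267648) (nat_lit 346570752)) (I.mix (nat_lit 81068032) (nat_lit 48447488)) (I.mix (nat_lit 52723712) (nat_lit 44826624)) (I.mix (nat_lit 76496896) (nat_lit 75268096)))
  false (nat_lit 0)
def b0_5 : Bx := Bx.mk (St.mk (I.mix (nat_lit 35995648) (nat_lit 11665408)) (I.mix (nat_lit 180224) (nat_lit 7979008)) (I.neg (nat_lit 3358720) (nat_lit 10289152)) (I.pos (nat_lit 43909120) (nat_lit 68976640)) (I.mix (nat_lit 5226496) (nat_lit 9453568)) (I.mix (nat_lit 4767744) (nat_lit 4227072)) (I.mix (nat_lit 1556480) (nat_lit 1802240)))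
  false (nat_lit 0)
def b0_6 : Bx := Bx.mk (St.mk (I.pos (nat_lit 100941824) (nat_lit 172933120)) (I.neg (nat_lit 3178496) (nat_lit 52985856)) (I.neg (nat_lit 3883008) (nat_lit 57049088)) (I.pos (nat_lit 94126080) (nat_lit 176209920)) (I.mix (nat_lit 77430784) (nat_lit 41598976)) (I.mix (nat_lit 43171840) (nat_lit 54919168)) (I.mix (nat_lit 35864576) (nat_lit 51724288)))
  false (nat_lit 0)
def b0_7 : Bx := Bx.mk (St.mk (I.mix (nat_lit 30212096) (nat_lit 85278720)) (I.mix (nat_lit 33193984) (nat_lit 6340608)) (I.mix (nat_lit 24608768) (nat_lit 573440)) (I.pos (nat_lit 38354944) (nat_lit 90849280)) (I.mix (nat_lit 42319872) (nat_lit 36864000)) (I.mix (nat_lit 30031872) (nat_lit 35028992)) (I.mix (nat_lit 17072128) (nat_lit 19857408)))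
  false (nat_lit 0)
def b0_8 : Bx := Bx.mk (St.mk (I.pos (nat_lit 163479552) (nat_lit 215384064)) (I.mix (nat_lit 9764864) (nat_lit 57196544)) (I.mix (nat_lit 2473984) (nat_lit 79233024)) (I.pos (nat_lit 156631040) (nat_lit 240304128)) (I.mix (nat_lit 125681664) (nat_lit 46301184)) (I.mix (nat_lit 118833152) (nat_lit 69599232)) (I.mix (nat_lit 124043264) (nat_lit 72843264)))
  false (nat_lit 0)
def b0_9 : Bx := Bx.mk (St.mk (I.mix (nat_lit 37896192) (nat_lit 108822528)) (I.mix (nat_lit 14434304) (nat_lit 35569664)) (I.mix (nat_lit 14532608) (nat_lit 18595840)) (I.pos (nat_lit 40189952) (nat_lit 107741184)) (I.mix (nat_lit 54886400) (nat_lit 30097408)) (I.mix (nat_lit 45744128) (nat_lit 34095104)) (I.mix (nat_lit 23855104) (nat_lit 19791872)))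
  false (nat_lit 0)
def b0_10 : Bx := Bx.mk (St.mk (I.pos (nat_lit 138772480) (nat_lit 203554816)) (I.mix (nat_lit 40026112) (nat_lit 12763136)) (I.mix (nat_lit 48709632) (nat_lit 20217856)) (I.pos (nat_lit 125796352) (nat_lit 216875008)) (I.mix (nat_lit 57753600) (nat_lit 46628864)) (I.mix (nat_lit 49070080) (nat_lit 43401216)) (I.mix (nat_lit 51396608) (nat_lit 43139072)))
  false (nat_lit 0)
def b0_11 : Bx := Bx.mk (St.mk (I.pos (nat_lit 163184640) (nat_lit 203685888)) (I.mix (nat_lit 12566528) (nat_lit 32882688)) (I.mix (nat_lit 9535488) (nat_lit 48037888)) (I.pos (nat_lit 157696000) (nat_lit 219119616)) (I.mix (nat_lit 99024896) (nat_lit 51200000)) (I.mix (nat_lit 102596608) (nat_lit 47824896)) (I.mix (nat_lit 108576768) (nat_lit 46186496)))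
  false (nat_lit 0)
def b0_12 : Bx := Bx.mk (St.mk (I.pos (nat_lit 95797248) (nat_lit 114524160)) (I.mix (nat_lit 2588672) (nat_lit 8519680)) (I.neg (nat_lit 2588672) (nat_lit 15695872)) (I.pos (nat_lit 80281600) (nat_lit 113737728)) (I.mix (nat_lit 9011200) (nat_lit 11681792)) (I.mix (nat_lit 7847936) (nat_lit 4767744)) (I.mix (nat_lit 6553600) (nat_lit 3702784)))
  false (nat_lit 0)
def b0_13 : Bx := Bx.mk (St.mk (I.pos (nat_lit 184811520) (nat_lit 236716032)) (I.pos (nat_lit 8060928) (nat_lit 56311808)) (I.pos (nat_lit 704512) (nat_lit 77201408)) (I.pos (nat_lit 211550208) (nat_lit 272334848)) (I.mix (nat_lit 89899008) (nat_lit 68386816)) (I.mix (nat_lit 77021184) (nat_lit 53444608)) (I.mix (nat_lit 119144448) (nat_lit 67846144)))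
  false (nat_lit 0)
def t0 : BTr := (BTr.n (BTr.n (BTr.n (BTr.b b0_0) (BTr.n (BTr.b b0_1) (BTr.b b0_2))) (BTr.n (BTr.n (BTr.b b0_3) (BTr.b b0_4)) (BTr.n (BTr.b b0_5) (BTr.b b0_6)))) (BTr.n (BTr.n (BTr.b b0_7) (BTr.n (BTr.b b0_8) (BTr.b b0_9))) (BTr.n (BTr.n (BTr.b b0_10) (BTr.b b0_11)) (BTr.n (BTr.b b0_12) (BTr.b b0_13)))))
namespace T0
def l0 : Tr := Tr.L (Pth.l (Pth.l (Pth.l Pth.z)))
def l1 : Tr := Tr.L (Pth.l (Pth.l (Pth.r (Pth.l Pth.z))))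
def l2 : Tr := Tr.L (Pth.l (Pth.l (Pth.r (Pth.r Pth.z))))
def l3 : Tr := Tr.L (Pth.l (Pth.r (Pth.l (Pth.l Pth.z))))
def l4 : Tr := Tr.L (Pth.l (Pth.r (Pth.l (Pth.r Pth.z))))
def l5 : Tr := Tr.L (Pth.l (Pth.r (Pth.r (Pth.l Pth.z))))
def l6 : Tr := Tr.L (Pth.l (Pth.r (Pth.r (Pth.r Pth.z))))
def l7 : Tr := Tr.L (Pth.r (Pth.l (Pth.l Pth.z)))
def l8 : Tr := Tr.L (Pth.r (Pth.l (Pth.r (Pth.l Pth.z))))
def l9 : Tr := Tr.L (Pth.r (Pth.l (Pth.r (Pth.r Pth.z))))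
def l10 : Tr := Tr.L (Pth.r (Pth.r (Pth.l (Pth.l Pth.z))))
def l11 : Tr := Tr.L (Pth.r (Pth.r (Pth.l (Pth.r Pth.z))))
def l12 : Tr := Tr.L (Pth.r (Pth.r (Pth.r (Pth.l Pth.z))))
def l13 : Tr := Tr.L (Pth.r (Pth.r (Pth.r (Pth.r Pth.z))))
end T0
def b1_0 : Bx := Bx.mk (St.mk (I.pos (nat_lit 149143552) (nat_lit 223936512)) (I.mix (nat_lit 2097152) (nat_lit 69009408)) (I.mix (nat_lit 2867200) (nat_lit 96681984)) (I.pos (nat_lit 237748224) (nat_lit 335069184)) (I.mix (nat_lit 114556928) (nat_lit 70434816)) (I.mix (nat_lit 68042752) (nat_lit 63094784)) (I.mix (nat_lit 93863936) (nat_lit 86917120)))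
  false (nat_lit 22239703)
def b1_1 : Bx := Bx.mk (St.mk (I.pos (nat_lit 69795840) (nat_lit 153960448)) (I.neg (nat_lit 6242304) (nat_lit 65929216)) (I.mix (nat_lit 57950208) (nat_lit 4489216)) (I.pos (nat_lit 164511744) (nat_lit 232964096)) (I.mix (nat_lit 77152256) (nat_lit 50348032)) (I.mix (nat_lit 38862848) (nat_lit 60817408)) (I.mix (nat_lit 35356672) (nat_lit 52396032)))
  false (nat_lit 0)
def b1_2 : Bx := Bx.mk (St.mk (I.pos (nat_lit 21168128) (nat_lit 74399744)) (I.mix (nat_lit 10076160) (nat_lit 44875776)) (I.mix (nat_lit 24477696) (nat_lit 6275072)) (I.pos (nat_lit 144113664) (nat_lit 163954688)) (I.mix (nat_lit 31539200) (nat_lit 48021504)) (I.mix (nat_lit 40632320) (nat_lit 28606464)) (I.mix (nat_lit 22347776) (nat_lit 11943936)))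
  false (nat_lit 0)
def b1_3 : Bx := Bx.mk (St.mk (I.mix (nat_lit 37060608) (nat_lit 8650752)) (I.mix (nat_lit 40665088) (nat_lit 9011200)) (I.mix (nat_lit 4259840) (nat_lit 4784128)) (I.pos (nat_lit 141197312) (nat_lit 152731648)) (I.mix (nat_lit 25395200) (nat_lit 41533440)) (I.mix (nat_lit 22806528) (nat_lit 37027840)) (I.mix (nat_lit 4636672) (nat_lit 5799936)))
  true (nat_lit 0)
def b1_4 : Bx := Bx.mk (St.mk (I.pos (nat_lit 147832832) (nat_lit 197361664)) (I.pos (nat_lit 2686976) (nat_lit 63684608)) (I.pos (nat_lit 17022976) (nat_lit 92536832)) (I.pos (nat_lit 232128512) (nat_lit 295862272)) (I.mix (nat_lit 130154496) (nat_lit 37896192)) (I.mix (nat_lit 115884032) (nat_lit 56033280)) (I.mix (nat_lit 111099904) (nat_lit 60702720)))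
  false (nat_lit 0)
def b1_5 : Bx := Bx.mk (St.mk (I.pos (nat_lit 49381376) (nat_lit 99631104)) (I.mix (nat_lit 62586880) (nat_lit 10649600)) (I.neg (nat_lit 9043968) (nat_lit 54525952)) (I.pos (nat_lit 149553152) (nat_lit 184254464)) (I.mix (nat_lit 84033536) (nat_lit 30113792)) (I.mix (nat_lit 31997952) (nat_lit 72040448)) (I.mix (nat_lit 25853952) (nat_lit 41926656)))
  false (nat_lit 0)
def b1_6 : Bx := Bx.mk (St.mk (I.mix (nat_lit 8650752) (nat_lit 37060608)) (I.mix (nat_lit 9011200) (nat_lit 40665088)) (I.mix (nat_lit 4259840) (nat_lit 4784128)) (I.pos (nat_lit 141197312) (nat_lit 152731648)) (I.mix (nat_lit 41533440) (nat_lit 25395200)) (I.mix (nat_lit 37027840) (nat_lit 22806528)) (I.mix (nat_lit 4636672) (nat_lit 5799936)))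
  false (nat_lit 0)
def b1_7 : Bx := Bx.mk (St.mk (I.neg (nat_lit 21168128) (nat_lit 74399744)) (I.mix (nat_lit 44875776) (nat_lit 10616832)) (I.mix (nat_lit 24477696) (nat_lit 6275072)) (I.pos (nat_lit 144113664) (nat_lit 163954688)) (I.mix (nat_lit 48021504) (nat_lit 31539200)) (I.mix (nat_lit 28606464) (nat_lit 40632320)) (I.mix (nat_lit 22347776) (nat_lit 11943936)))
  true (nat_lit 0)
def b1_8 : Bx := Bx.mk (St.mk (I.pos (nat_lit 183238656) (nat_lit 289177600)) (I.mix (nat_lit 28295168) (nat_lit 50790400)) (I.mix (nat_lit 103350272) (nat_lit 57737216)) (I.pos (nat_lit 291291136) (nat_lit 457277440)) (I.mix (nat_lit 75694080) (nat_lit 66699264)) (I.mix (nat_lit 68747264) (nat_lit 51576832)) (I.mix (nat_lit 124141568) (nat_lit 96501760)))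
  false (nat_lit 16562226)
def b1_9 : Bx := Bx.mk (St.mk (I.pos (nat_lit 122191872) (nat_lit 188186624)) (I.mix (nat_lit 41091072) (nat_lit 20004864)) (I.mix (nat_lit 34193408) (nat_lit 38322176)) (I.pos (nat_lit 201932800) (nat_lit 274530304)) (I.mix (nat_lit 53788672) (nat_lit 51642368)) (I.mix (nat_lit 51511296) (nat_lit 47071232)) (I.mix (nat_lit 49233920) (nat_lit 45449216)))
  false (nat_lit 0)
def b1_10 : Bx := Bx.mk (St.mk (I.pos (nat_lit 168624128) (nat_lit 226213888)) (I.pos (nat_lit 15548416) (nat_lit 69976064)) (I.pos (nat_lit 9388032) (nat_lit 95715328)) (I.pos (nat_lit 276905984) (nat_lit 333873152)) (I.mix (nat_lit 108920832) (nat_lit 83673088)) (I.mix (nat_lit 90587136) (nat_lit 67633152)) (I.mix (nat_lit 132857856) (nat_lit 86753280)))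
  false (nat_lit 31992990)
def b1_11 : Bx := Bx.mk (St.mk (I.pos (nat_lit 146571264) (nat_lit 188514304)) (I.mix (nat_lit 8011776) (nat_lit 44843008)) (I.pos (nat_lit 2752512) (nat_lit 71417856)) (I.pos (nat_lit 232275968) (nat_lit 279789568)) (I.mix (nat_lit 122273792) (nat_lit 52068352)) (I.mix (nat_lit 119832576) (nat_lit 51494912)) (I.mix (nat_lit 118620160) (nat_lit 53297152)))
  false (nat_lit 0)
def t1 : BTr := (BTr.n (BTr.n (BTr.n (BTr.b b1_0) (BTr.n (BTr.b b1_1) (BTr.b b1_2))) (BTr.n (BTr.b b1_3) (BTr.n (BTr.b b1_4) (BTr.b b1_5)))) (BTr.n (BTr.n (BTr.b b1_6) (BTr.n (BTr.b b1_7) (BTr.b b1_8))) (BTr.n (BTr.b b1_9) (BTr.n (BTr.b b1_10) (BTr.b b1_11)))))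
namespace T1
def l0 : Tr := Tr.L (Pth.l (Pth.l (Pth.l Pth.z)))
def l1 : Tr := Tr.L (Pth.l (Pth.l (Pth.r (Pth.l Pth.z))))
def l2 : Tr := Tr.L (Pth.l (Pth.l (Pth.r (Pth.r Pth.z))))
def l3 : Tr := Tr.L (Pth.l (Pth.r (Pth.l Pth.z)))
def l4 : Tr := Tr.L (Pth.l (Pth.r (Pth.r (Pth.l Pth.z))))
def l5 : Tr := Tr.L (Pth.l (Pth.r (Pth.r (Pth.r Pth.z))))
def l6 : Tr := Tr.L (Pth.r (Pth.l (Pth.l Pth.z)))
def l7 : Tr := Tr.L (Pth.r (Pth.l (Pth.r (Pth.l Pth.z))))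
def l8 : Tr := Tr.L (Pth.r (Pth.l (Pth.r (Pth.r Pth.z))))
def l9 : Tr := Tr.L (Pth.r (Pth.r (Pth.l Pth.z)))
def l10 : Tr := Tr.L (Pth.r (Pth.r (Pth.r (Pth.l Pth.z))))
def l11 : Tr := Tr.L (Pth.r (Pth.r (Pth.r (Pth.r Pth.z))))
end T1
def b2_0 : Bx := Bx.mk (St.mk (I.pos (nat_lit 146030592) (nat_lit 234815488)) (I.mix (nat_lit 1654784) (nat_lit 54902784)) (I.mix (nat_lit 3014656) (nat_lit 106037248)) (I.pos (nat_lit 140099584) (nat_lit 261423104)) (I.mix (nat_lit 126435328) (nat_lit 82935808)) (I.mix (nat_lit 92176384) (nat_lit 89178112)) (I.mix (nat_lit 129089536) (nat_lit 113180672)))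
  false (nat_lit 40953420)
def b2_1 : Bx := Bx.mk (St.mk (I.pos (nat_lit 102629376) (nat_lit 171081728)) (I.neg (nat_lit 8273920) (nat_lit 56229888)) (I.mix (nat_lit 45203456) (nat_lit 3194880)) (I.pos (nat_lit 101285888) (nat_lit 171900928)) (I.mix (nat_lit 67010560) (nat_lit 40763392)) (I.mix (nat_lit 35700736) (nat_lit 49364992)) (I.mix (nat_lit 31932416) (nat_lit 47316992)))
  false (nat_lit 0)
def b2_2 : Bx := Bx.mk (St.mk (I.mix (nat_lit 32456704) (nat_lit 82083840)) (I.mix (nat_lit 34881536) (nat_lit 1966080)) (I.mix (nat_lit 14761984) (nat_lit 8208384)) (I.pos (nat_lit 38617088) (nat_lit 89112576)) (I.mix (nat_lit 36798464) (nat_lit 34242560)) (I.mix (nat_lit 24592384) (nat_lit 29409280)) (I.mix (nat_lit 11829248) (nat_lit 15908864)))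
  false (nat_lit 0)
def b2_3 : Bx := Bx.mk (St.mk (I.pos (nat_lit 159940608) (nat_lit 208338944)) (I.mix (nat_lit 12288000) (nat_lit 53329920)) (I.pos (nat_lit 13615104) (nat_lit 97239040)) (I.pos (nat_lit 143114240) (nat_lit 224428032)) (I.mix (nat_lit 128270336) (nat_lit 45318144)) (I.mix (nat_lit 113999872) (nat_lit 61194240)) (I.mix (nat_lit 122748928) (nat_lit 55066624)))
  false (nat_lit 0)
def b2_4 : Bx := Bx.mk (St.mk (I.mix (nat_lit 36880384) (nat_lit 105218048)) (I.mix (nat_lit 9191424) (nat_lit 36552704)) (I.mix (nat_lit 3735552) (nat_lit 31522816)) (I.pos (nat_lit 41025536) (nat_lit 104759296)) (I.mix (nat_lit 52838400) (nat_lit 22888448)) (I.mix (nat_lit 43368448) (nat_lit 26984448)) (I.mix (nat_lit 24035328) (nat_lit 15925248)))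
  false (nat_lit 0)
def b2_5 : Bx := Bx.mk (St.mk (I.pos (nat_lit 149323776) (nat_lit 200015872)) (I.mix (nat_lit 33062912) (nat_lit 8634368)) (I.mix (nat_lit 16089088) (nat_lit 39321600)) (I.pos (nat_lit 134660096) (nat_lit 207028224)) (I.mix (nat_lit 56442880) (nat_lit 51511296)) (I.mix (nat_lit 46317568) (nat_lit 47562752)) (I.mix (nat_lit 44007424) (nat_lit 48398336)))
  false (nat_lit 0)
def b2_6 : Bx := Bx.mk (St.mk (I.pos (nat_lit 146341888) (nat_lit 170803200)) (I.neg (nat_lit 13271040) (nat_lit 38191104)) (I.mix (nat_lit 25264128) (nat_lit 4554752)) (I.pos (nat_lit 133070848) (nat_lit 174391296)) (I.mix (nat_lit 29245440) (nat_lit 21872640)) (I.mix (nat_lit 15269888) (nat_lit 19349504)) (I.mix (nat_lit 14680064) (nat_lit 19660800)))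
  false (nat_lit 0)
def b2_7 : Bx := Bx.mk (St.mk (I.mix (nat_lit 38780928) (nat_lit 87654400)) (I.mix (nat_lit 15925248) (nat_lit 4341760)) (I.mix (nat_lit 4308992) (nat_lit 9584640)) (I.pos (nat_lit 42893312) (nat_lit 90275840)) (I.mix (nat_lit 12550144) (nat_lit 15417344)) (I.mix (nat_lit 9797632) (nat_lit 9453568)) (I.mix (nat_lit 4997120) (nat_lit 5029888)))
  false (nat_lit 0)
def b2_8 : Bx := Bx.mk (St.mk (I.mix (nat_lit 29163520) (nat_lit 121536512)) (I.mix (nat_lit 9011200) (nat_lit 34553856)) (I.mix (nat_lit 6848512) (nat_lit 30556160)) (I.pos (nat_lit 38993920) (nat_lit 117178368)) (I.mix (nat_lit 52871168) (nat_lit 41910272)) (I.mix (nat_lit 38387712) (nat_lit 34488320)) (I.mix (nat_lit 27901952) (nat_lit 24461312)))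
  false (nat_lit 0)
def b2_9 : Bx := Bx.mk (St.mk (I.pos (nat_lit 91324416) (nat_lit 143376384)) (I.mix (nat_lit 55246848) (nat_lit 10256384)) (I.mix (nat_lit 43876352) (nat_lit 11567104)) (I.pos (nat_lit 79331328) (nat_lit 138575872)) (I.mix (nat_lit 80642048) (nat_lit 30244864)) (I.mix (nat_lit 38617088) (nat_lit 68485120)) (I.mix (nat_lit 28442624) (nat_lit 50053120)))
  false (nat_lit 0)
def b2_10 : Bx := Bx.mk (St.mk (I.mix (nat_lit 36749312) (nat_lit 74629120)) (I.mix (nat_lit 30720000) (nat_lit 4833280)) (I.mix (nat_lit 11108352) (nat_lit 9912320)) (I.pos (nat_lit 41435136) (nat_lit 82919424)) (I.mix (nat_lit 38420480) (nat_lit 28786688)) (I.mix (nat_lit 23937024) (nat_lit 28721152)) (I.mix (nat_lit 10027008) (nat_lit 10797056)))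
  false (nat_lit 0)
def b2_11 : Bx := Bx.mk (St.mk (I.pos (nat_lit 186925056) (nat_lit 286490624)) (I.mix (nat_lit 26951680) (nat_lit 42172416)) (I.mix (nat_lit 49922048) (nat_lit 87490560)) (I.pos (nat_lit 202293248) (nat_lit 373735424)) (I.mix (nat_lit 78610432) (nat_lit 59981824)) (I.mix (nat_lit 59817984) (nat_lit 53297152)) (I.mix (nat_lit 100712448) (nat_lit 88358912)))
  false (nat_lit 41756284)
def b2_12 : Bx := Bx.mk (St.mk (I.pos (nat_lit 173948928) (nat_lit 232275968)) (I.pos (nat_lit 8470528) (nat_lit 54067200)) (I.pos (nat_lit 26820608) (nat_lit 104448000)) (I.pos (nat_lit 190038016) (nat_lit 254099456)) (I.mix (nat_lit 105021440) (nat_lit 82034688)) (I.mix (nat_lit 93814784) (nat_lit 71450624)) (I.mix (nat_lit 139608064) (nat_lit 88227840)))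
  false (nat_lit 31400907)
def b2_13 : Bx := Bx.mk (St.mk (I.pos (nat_lit 164773888) (nat_lit 203636736)) (I.mix (nat_lit 20692992) (nat_lit 22806528)) (I.pos (nat_lit 3325952) (nat_lit 59293696)) (I.pos (nat_lit 151109632) (nat_lit 215891968)) (I.mix (nat_lit 88342528) (nat_lit 48627712)) (I.mix (nat_lit 95535104) (nat_lit 46153728)) (I.mix (nat_lit 103415808) (nat_lit 45465600)))
  false (nat_lit 4141445)
def t2 : BTr := (BTr.n (BTr.n (BTr.n (BTr.b b2_0) (BTr.n (BTr.b b2_1) (BTr.b b2_2))) (BTr.n (BTr.n (BTr.b b2_3) (BTr.b b2_4)) (BTr.n (BTr.b b2_5) (BTr.b b2_6)))) (BTr.n (BTr.n (BTr.b b2_7) (BTr.n (BTr.b b2_8) (BTr.b b2_9))) (BTr.n (BTr.n (BTr.b b2_10) (BTr.b b2_11)) (BTr.n (BTr.b b2_12) (BTr.b b2_13)))))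
namespace T2
def l0 : Tr := Tr.L (Pth.l (Pth.l (Pth.l Pth.z)))
def l1 : Tr := Tr.L (Pth.l (Pth.l (Pth.r (Pth.l Pth.z))))
def l2 : Tr := Tr.L (Pth.l (Pth.l (Pth.r (Pth.r Pth.z))))
def l3 : Tr := Tr.L (Pth.l (Pth.r (Pth.l (Pth.l Pth.z))))
def l4 : Tr := Tr.L (Pth.l (Pth.r (Pth.l (Pth.r Pth.z))))
def l5 : Tr := Tr.L (Pth.l (Pth.r (Pth.r (Pth.l Pth.z))))
def l6 : Tr := Tr.L (Pth.l (Pth.r (Pth.r (Pth.r Pth.z))))
def l7 : Tr := Tr.L (Pth.r (Pth.l (Pth.l Pth.z)))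
def l8 : Tr := Tr.L (Pth.r (Pth.l (Pth.r (Pth.l Pth.z))))
def l9 : Tr := Tr.L (Pth.r (Pth.l (Pth.r (Pth.r Pth.z))))
def l10 : Tr := Tr.L (Pth.r (Pth.r (Pth.l (Pth.l Pth.z))))
def l11 : Tr := Tr.L (Pth.r (Pth.r (Pth.l (Pth.r Pth.z))))
def l12 : Tr := Tr.L (Pth.r (Pth.r (Pth.r (Pth.l Pth.z))))
def l13 : Tr := Tr.L (Pth.r (Pth.r (Pth.r (Pth.r Pth.z))))
end T2
theorem bx0_0 : BoxOK sI cl5 cl7 cl7 t1 t1 b0_0 :=
  box_mk (TrL.c (I.pos (nat_lit 0) (nat_lit 0)) (xa (xb T1.l10 (xa (xb T1.l0 T1.l0) (xb T1.l0 T1.l0))) (xb (xa T1.l0 T1.l0) (xa (xb T1.l0 T1.l0) (xb T1.l0 T1.l0))))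
  (TrL.c (I.pos (nat_lit 0) (nat_lit 0)) (xa (xb T1.l1 T1.l1) (xb T1.l1 T1.l1))
  (TrL.c (I.pos (nat_lit 0) (nat_lit 0)) T1.l2
  (TrL.c (I.pos (nat_lit 0) (nat_lit 0)) T1.l3
  (TrL.c (I.pos (nat_lit 0) (nat_lit 0)) (xa (xb T1.l4 T1.l4) (xb T1.l4 T1.l4))
  (TrL.c (I.pos (nat_lit 0) (nat_lit 0)) (xa T1.l5 T1.l5)
  (TrL.c (I.pos (nat_lit 0) (nat_lit 0)) T1.l6
  (TrL.c (I.pos (nat_lit 0) (nat_lit 0)) T1.l7
  TrL.n)))))))) (by decide +kernel)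
theorem bx0_1 : BoxOK sI cl5 cl7 cl7 t1 t1 b0_1 :=
  box_mk (TrL.c (I.pos (nat_lit 0) (nat_lit 0)) (xa (xa T1.l8 T1.l8) (xa T1.l8 (xb T1.l8 T1.l8)))
  (TrL.c (I.pos (nat_lit 0) (nat_lit 0)) T1.l1
  (TrL.c (I.pos (nat_lit 0) (nat_lit 0)) T1.l2
  (TrL.c (I.pos (nat_lit 0) (nat_lit 0)) T1.l3
  (TrL.c (I.pos (nat_lit 0) (nat_lit 0)) T1.l9
  (TrL.c (I.pos (nat_lit 0) (nat_lit 0)) T1.l5
  (TrL.c (I.pos (nat_lit 0) (nat_lit 0)) T1.l6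
  (TrL.c (I.pos (nat_lit 0) (nat_lit 0)) T1.l7
  TrL.n)))))))) (by decide +kernel)
theorem bx0_2 : BoxOK sI cl5 cl7 cl7 t1 t1 b0_2 :=
  box_mk (TrL.c (I.pos (nat_lit 0) (nat_lit 0)) (xb T1.l8 T1.l8)
  (TrL.c (I.pos (nat_lit 0) (nat_lit 0)) T1.l1
  (TrL.c (I.pos (nat_lit 0) (nat_lit 0)) T1.l2
  (TrL.c (I.pos (nat_lit 0) (nat_lit 0)) T1.l3
  (TrL.c (I.pos (nat_lit 0) (nat_lit 0)) T1.l9
  (TrL.c (I.pos (nat_lit 0) (nat_lit 0)) T1.l5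
  (TrL.c (I.pos (nat_lit 0) (nat_lit 0)) T1.l6
  (TrL.c (I.pos (nat_lit 0) (nat_lit 0)) T1.l7
  TrL.n)))))))) (by decide +kernel)
theorem bx0_3 : BoxOK sI cl5 cl7 cl7 t1 t1 b0_3 :=
  box_mk (TrL.c (I.pos (nat_lit 0) (nat_lit 0)) (xa (xa T1.l8 T1.l8) T1.l8)
  (TrL.c (I.pos (nat_lit 0) (nat_lit 0)) T1.l1
  (TrL.c (I.pos (nat_lit 0) (nat_lit 0)) T1.l2
  (TrL.c (I.pos (nat_lit 0) (nat_lit 0)) T1.l3
  (TrL.c (I.pos (nat_lit 0) (nat_lit 0)) T1.l9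
  (TrL.c (I.pos (nat_lit 0) (nat_lit 0)) T1.l5
  (TrL.c (I.pos (nat_lit 0) (nat_lit 0)) T1.l6
  (TrL.c (I.pos (nat_lit 0) (nat_lit 0)) T1.l7
  TrL.n)))))))) (by decide +kernel)
theorem bx0_4 : BoxOK sI cl5 cl7 cl7 t1 t1 b0_4 :=
  box_mk (TrL.c (I.pos (nat_lit 0) (nat_lit 0)) (xa (xb T1.l0 T1.l0) (xb T1.l0 (xa T1.l0 T1.l0)))
  (TrL.c (I.pos (nat_lit 0) (nat_lit 0)) (xa T1.l1 T1.l1)
  (TrL.c (I.pos (nat_lit 0) (nat_lit 0)) T1.l2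
  (TrL.c (I.pos (nat_lit 0) (nat_lit 0)) T1.l3
  (TrL.c (I.pos (nat_lit 0) (nat_lit 0)) (xa T1.l4 (xb (xa T1.l4 T1.l4) (xa T1.l4 T1.l4)))
  (TrL.c (I.pos (nat_lit 0) (nat_lit 0)) (xa T1.l5 T1.l5)
  (TrL.c (I.pos (nat_lit 0) (nat_lit 0)) T1.l6
  (TrL.c (I.pos (nat_lit 0) (nat_lit 0)) T1.l7
  TrL.n)))))))) (by decide +kernel)
theorem bx0_5 : BoxOK sI cl5 cl7 cl7 t1 t1 b0_5 :=
  box_mk (TrL.c (I.pos (nat_lit 0) (nat_lit 0)) T1.l8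
  (TrL.c (I.pos (nat_lit 0) (nat_lit 0)) T1.l1
  (TrL.c (I.pos (nat_lit 0) (nat_lit 0)) T1.l2
  (TrL.c (I.pos (nat_lit 0) (nat_lit 0)) T1.l3
  (TrL.c (I.pos (nat_lit 0) (nat_lit 0)) T1.l9
  (TrL.c (I.pos (nat_lit 0) (nat_lit 0)) T1.l5
  (TrL.c (I.pos (nat_lit 0) (nat_lit 0)) T1.l6
  (TrL.c (I.pos (nat_lit 0) (nat_lit 0)) T1.l7
  TrL.n)))))))) (by decide +kernel)
theorem bx0_6 : BoxOK sI cl5 cl7 cl7 t1 t1 b0_6 :=
  box_mk (TrL.c (I.pos (nat_lit 0) (nat_lit 0)) (xa (xb T1.l8 T1.l8) (xb T1.l0 T1.l8))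
  (TrL.c (I.pos (nat_lit 0) (nat_lit 0)) T1.l1
  (TrL.c (I.pos (nat_lit 0) (nat_lit 0)) T1.l2
  (TrL.c (I.pos (nat_lit 0) (nat_lit 0)) T1.l3
  (TrL.c (I.pos (nat_lit 0) (nat_lit 0)) (xa T1.l9 T1.l9)
  (TrL.c (I.pos (nat_lit 0) (nat_lit 0)) T1.l5
  (TrL.c (I.pos (nat_lit 0) (nat_lit 0)) T1.l6
  (TrL.c (I.pos (nat_lit 0) (nat_lit 0)) T1.l7
  TrL.n)))))))) (by decide +kernel)
theorem bx0_7 : BoxOK sI cl5 cl7 cl7 t1 t1 b0_7 :=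
  box_mk (TrL.c (I.pos (nat_lit 0) (nat_lit 0)) (xa (xa (xb T1.l8 T1.l8) T1.l8) T1.l8)
  (TrL.c (I.pos (nat_lit 0) (nat_lit 0)) (xa T1.l1 T1.l1)
  (TrL.c (I.pos (nat_lit 0) (nat_lit 0)) T1.l2
  (TrL.c (I.pos (nat_lit 0) (nat_lit 0)) T1.l3
  (TrL.c (I.pos (nat_lit 0) (nat_lit 0)) (xa T1.l9 T1.l9)
  (TrL.c (I.pos (nat_lit 0) (nat_lit 0)) T1.l5
  (TrL.c (I.pos (nat_lit 0) (nat_lit 0)) T1.l6
  (TrL.c (I.pos (nat_lit 0) (nat_lit 0)) T1.l7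
  TrL.n)))))))) (by decide +kernel)
theorem bx0_8 : BoxOK sI cl5 cl7 cl7 t1 t1 b0_8 :=
  box_mk (TrL.c (I.pos (nat_lit 0) (nat_lit 0)) (xb (xa T1.l10 T1.l10) (xa (xb T1.l10 T1.l10) (xb T1.l10 T1.l10)))
  (TrL.c (I.pos (nat_lit 0) (nat_lit 0)) (xb T1.l1 T1.l1)
  (TrL.c (I.pos (nat_lit 0) (nat_lit 0)) T1.l2
  (TrL.c (I.pos (nat_lit 0) (nat_lit 0)) T1.l3
  (TrL.c (I.pos (nat_lit 0) (nat_lit 0)) (xb (xa T1.l11 T1.l11) (xa T1.l11 T1.l11))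
  (TrL.c (I.pos (nat_lit 0) (nat_lit 0)) T1.l5
  (TrL.c (I.pos (nat_lit 0) (nat_lit 0)) T1.l6
  (TrL.c (I.pos (nat_lit 0) (nat_lit 0)) T1.l7
  TrL.n)))))))) (by decide +kernel)
theorem bx0_9 : BoxOK sI cl5 cl7 cl7 t1 t1 b0_9 :=
  box_mk (TrL.c (I.pos (nat_lit 0) (nat_lit 0)) (xa (xa (xb T1.l8 (xa T1.l8 T1.l8)) (xb T1.l8 T1.l8)) (xa T1.l8 T1.l8))
  (TrL.c (I.pos (nat_lit 0) (nat_lit 0)) (xa T1.l1 T1.l1)
  (TrL.c (I.pos (nat_lit 0) (nat_lit 0)) T1.l2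
  (TrL.c (I.pos (nat_lit 0) (nat_lit 0)) T1.l3
  (TrL.c (I.pos (nat_lit 0) (nat_lit 0)) (xa T1.l9 T1.l9)
  (TrL.c (I.pos (nat_lit 0) (nat_lit 0)) T1.l5
  (TrL.c (I.pos (nat_lit 0) (nat_lit 0)) T1.l6
  (TrL.c (I.pos (nat_lit 0) (nat_lit 0)) T1.l7
  TrL.n)))))))) (by decide +kernel)
theorem bx0_10 : BoxOK sI cl5 cl7 cl7 t1 t1 b0_10 :=
  box_mk (TrL.c (I.pos (nat_lit 0) (nat_lit 0)) (xa (xb T1.l0 T1.l10) T1.l10)
  (TrL.c (I.pos (nat_lit 0) (nat_lit 0)) T1.l1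
  (TrL.c (I.pos (nat_lit 0) (nat_lit 0)) T1.l2
  (TrL.c (I.pos (nat_lit 0) (nat_lit 0)) T1.l3
  (TrL.c (I.pos (nat_lit 0) (nat_lit 0)) (xa T1.l11 T1.l0)
  (TrL.c (I.pos (nat_lit 0) (nat_lit 0)) T1.l5
  (TrL.c (I.pos (nat_lit 0) (nat_lit 0)) T1.l6
  (TrL.c (I.pos (nat_lit 0) (nat_lit 0)) T1.l7
  TrL.n)))))))) (by decide +kernel)
theorem bx0_11 : BoxOK sI cl5 cl7 cl7 t1 t1 b0_11 :=
  box_mk (TrL.c (I.pos (nat_lit 0) (nat_lit 0)) (xb T1.l10 T1.l10)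
  (TrL.c (I.pos (nat_lit 0) (nat_lit 0)) T1.l1
  (TrL.c (I.pos (nat_lit 0) (nat_lit 0)) T1.l2
  (TrL.c (I.pos (nat_lit 0) (nat_lit 0)) T1.l3
  (TrL.c (I.pos (nat_lit 0) (nat_lit 0)) T1.l11
  (TrL.c (I.pos (nat_lit 0) (nat_lit 0)) T1.l5
  (TrL.c (I.pos (nat_lit 0) (nat_lit 0)) T1.l6
  (TrL.c (I.pos (nat_lit 0) (nat_lit 0)) T1.l7
  TrL.n)))))))) (by decide +kernel)
theorem bx0_12 : BoxOK sI cl5 cl7 cl7 t1 t1 b0_12 :=
  box_mk (TrL.c (I.pos (nat_lit 0) (nat_lit 0)) T1.l8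
  (TrL.c (I.pos (nat_lit 0) (nat_lit 0)) T1.l1
  (TrL.c (I.pos (nat_lit 0) (nat_lit 0)) T1.l2
  (TrL.c (I.pos (nat_lit 0) (nat_lit 0)) T1.l3
  (TrL.c (I.pos (nat_lit 0) (nat_lit 0)) T1.l9
  (TrL.c (I.pos (nat_lit 0) (nat_lit 0)) T1.l5
  (TrL.c (I.pos (nat_lit 0) (nat_lit 0)) T1.l6
  (TrL.c (I.pos (nat_lit 0) (nat_lit 0)) T1.l7
  TrL.n)))))))) (by decide +kernel)
theorem bx0_13 : BoxOK sI cl5 cl7 cl7 t1 t1 b0_13 :=
  box_mk (TrL.c (I.pos (nat_lit 0) (nat_lit 0)) (xa (xb T1.l0 (xa T1.l0 T1.l0)) (xb T1.l0 (xa T1.l0 T1.l0)))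
  (TrL.c (I.pos (nat_lit 0) (nat_lit 0)) (xa T1.l1 T1.l1)
  (TrL.c (I.pos (nat_lit 0) (nat_lit 0)) T1.l2
  (TrL.c (I.pos (nat_lit 0) (nat_lit 0)) T1.l3
  (TrL.c (I.pos (nat_lit 0) (nat_lit 0)) (xa T1.l4 (xb T1.l4 T1.l4))
  (TrL.c (I.pos (nat_lit 0) (nat_lit 0)) T1.l5
  (TrL.c (I.pos (nat_lit 0) (nat_lit 0)) T1.l6
  (TrL.c (I.pos (nat_lit 0) (nat_lit 0)) T1.l7
  TrL.n)))))))) (by decide +kernel)
theorem sv0 : StarV sI cl5 cl7 cl7 t1 t1 t0 :=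
  (bt_n (bt_n (bt_n (bt_b bx0_0) (bt_n (bt_b bx0_1) (bt_b bx0_2))) (bt_n (bt_n (bt_b bx0_3) (bt_b bx0_4)) (bt_n (bt_b bx0_5) (bt_b bx0_6)))) (bt_n (bt_n (bt_b bx0_7) (bt_n (bt_b bx0_8) (bt_b bx0_9))) (bt_n (bt_n (bt_b bx0_10) (bt_b bx0_11)) (bt_n (bt_b bx0_12) (bt_b bx0_13)))))
def S0 : StarD := StarD.mk cl5 cl7 cl7 1 1 t0
theorem bx1_0 : BoxOK sI cl7 cl5 cl7 t0 t2 b1_0 :=
  box_mk (TrL.c (I.pos (nat_lit 0) (nat_lit 0)) (xa (xb T0.l0 (xa T0.l0 T0.l0)) (xb T0.l0 (xa T0.l0 T0.l0)))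
  (TrL.c (I.pos (nat_lit 0) (nat_lit 0)) (xa (xb T2.l1 T2.l1) (xk T2.l1 T2.l1))
  (TrL.c (I.pos (nat_lit 0) (nat_lit 111196574)) (xR T0.l1 T0.l1)
  (TrL.c (I.pos (nat_lit 0) (nat_lit 77433728)) T2.l2
  (TrL.c (I.pos (nat_lit 0) (nat_lit 0)) (xa (xb T2.l3 (xk T2.l3 T2.l3)) (xb T2.l3 (xk T2.l3 T2.l3)))
  (TrL.c (I.pos (nat_lit 0) (nat_lit 0)) T0.l2
  (TrL.c (I.mix (nat_lit 29511666) (nat_lit 77433728)) (xR T2.l4 T2.l4)
  (TrL.c (I.mix (nat_lit 29511666) (nat_lit 46070178)) T0.l7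
  TrL.n)))))))) (by decide +kernel)
theorem bx1_1 : BoxOK sI cl7 cl5 cl7 t0 t2 b1_1 :=
  box_mk (TrL.c (I.pos (nat_lit 0) (nat_lit 0)) (xa T0.l4 T0.l4)
  (TrL.c (I.pos (nat_lit 0) (nat_lit 0)) (xa T2.l1 T2.l1)
  (TrL.c (I.pos (nat_lit 0) (nat_lit 111196574)) (xR T0.l1 T0.l1)
  (TrL.c (I.pos (nat_lit 0) (nat_lit 77433728)) T2.l2
  (TrL.c (I.pos (nat_lit 0) (nat_lit 0)) (xa T2.l5 (xk T2.l5 T2.l5))
  (TrL.c (I.pos (nat_lit 0) (nat_lit 0)) T0.l2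
  (TrL.c (I.mix (nat_lit 29511666) (nat_lit 77433728)) (xR T2.l4 T2.l4)
  (TrL.c (I.mix (nat_lit 29511666) (nat_lit 46070178)) T0.l7
  TrL.n)))))))) (by decide +kernel)
theorem bx1_2 : BoxOK sI cl7 cl5 cl7 t0 t2 b1_2 :=
  box_mk (TrL.c (I.pos (nat_lit 0) (nat_lit 0)) (xb T0.l4 T0.l4)
  (TrL.c (I.pos (nat_lit 0) (nat_lit 0)) T2.l1
  (TrL.c (I.pos (nat_lit 0) (nat_lit 111196574)) T0.l1
  (TrL.c (I.pos (nat_lit 0) (nat_lit 77433728)) T2.l2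
  (TrL.c (I.pos (nat_lit 0) (nat_lit 0)) T2.l5
  (TrL.c (I.pos (nat_lit 0) (nat_lit 0)) T0.l2
  (TrL.c (I.mix (nat_lit 29511666) (nat_lit 77433728)) T2.l4
  (TrL.c (I.mix (nat_lit 29511666) (nat_lit 46070178)) T0.l3
  TrL.n)))))))) (by decide +kernel)
theorem bx1_3 : BoxOK sI cl7 cl5 cl7 t0 t2 b1_3 :=
  box_mk (TrL.c (I.pos (nat_lit 0) (nat_lit 0)) T2.l6
  (TrL.c (I.pos (nat_lit 0) (nat_lit 0)) T0.l1
  (TrL.c (I.mix (nat_lit 29511666) (nat_lit 77433728)) T2.l7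
  (TrL.c (I.mix (nat_lit 29511666) (nat_lit 46070178)) T0.l9
  TrL.n)))) (by decide +kernel)
theorem bx1_4 : BoxOK sI cl7 cl5 cl7 t0 t2 b1_4 :=
  box_mk (TrL.c (I.pos (nat_lit 0) (nat_lit 0)) (xa (xb T0.l13 T0.l13) (xb T0.l13 T0.l13))
  (TrL.c (I.pos (nat_lit 0) (nat_lit 0)) (xk T2.l1 T2.l1)
  (TrL.c (I.pos (nat_lit 0) (nat_lit 111196574)) (xR T0.l1 T0.l1)
  (TrL.c (I.pos (nat_lit 0) (nat_lit 77433728)) T2.l2
  (TrL.c (I.pos (nat_lit 0) (nat_lit 0)) (xk (xb T2.l13 T2.l3) (xb T2.l13 T2.l3))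
  (TrL.c (I.pos (nat_lit 0) (nat_lit 0)) T0.l2
  (TrL.c (I.mix (nat_lit 29511666) (nat_lit 77433728)) (xR T2.l4 T2.l4)
  (TrL.c (I.mix (nat_lit 29511666) (nat_lit 46070178)) T0.l7
  TrL.n)))))))) (by decide +kernel)
theorem bx1_5 : BoxOK sI cl7 cl5 cl7 t0 t2 b1_5 :=
  box_mk (TrL.c (I.pos (nat_lit 0) (nat_lit 0)) (xb T0.l4 T0.l4)
  (TrL.c (I.pos (nat_lit 0) (nat_lit 0)) T2.l1
  (TrL.c (I.pos (nat_lit 0) (nat_lit 111196574)) T0.l1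
  (TrL.c (I.pos (nat_lit 0) (nat_lit 77433728)) T2.l2
  (TrL.c (I.pos (nat_lit 0) (nat_lit 0)) T2.l5
  (TrL.c (I.pos (nat_lit 0) (nat_lit 0)) T0.l2
  (TrL.c (I.mix (nat_lit 29511666) (nat_lit 77433728)) T2.l4
  (TrL.c (I.mix (nat_lit 29511666) (nat_lit 46070178)) T0.l7
  TrL.n)))))))) (by decide +kernel)
theorem bx1_6 : BoxOK sI cl7 cl5 cl7 t0 t2 b1_6 :=
  box_mk (TrL.c (I.pos (nat_lit 0) (nat_lit 0)) (xb T0.l4 T0.l4)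
  (TrL.c (I.pos (nat_lit 0) (nat_lit 0)) T2.l6
  (TrL.c (I.pos (nat_lit 0) (nat_lit 111196574)) T0.l1
  (TrL.c (I.pos (nat_lit 0) (nat_lit 77433728)) T2.l7
  (TrL.c (I.pos (nat_lit 0) (nat_lit 0)) T2.l5
  (TrL.c (I.pos (nat_lit 0) (nat_lit 0)) T0.l2
  (TrL.c (I.mix (nat_lit 29511666) (nat_lit 77433728)) T2.l4
  (TrL.c (I.mix (nat_lit 29511666) (nat_lit 46070178)) T0.l9
  TrL.n)))))))) (by decide +kernel)
theorem bx1_7 : BoxOK sI cl7 cl5 cl7 t0 t2 b1_7 :=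
  box_mk (TrL.c (I.pos (nat_lit 0) (nat_lit 0)) T2.l1
  (TrL.c (I.pos (nat_lit 0) (nat_lit 0)) T0.l1
  (TrL.c (I.mix (nat_lit 29511666) (nat_lit 77433728)) T2.l7
  (TrL.c (I.mix (nat_lit 29511666) (nat_lit 46070178)) T0.l9
  TrL.n)))) (by decide +kernel)
theorem bx1_8 : BoxOK sI cl7 cl5 cl7 t0 t2 b1_8 :=
  box_mk (TrL.c (I.pos (nat_lit 0) (nat_lit 0)) (xa (xb T0.l0 (xa T0.l0 T0.l0)) (xb (xa T0.l0 T0.l0) (xa T0.l0 T0.l0)))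
  (TrL.c (I.pos (nat_lit 0) (nat_lit 0)) (xa (xb T2.l1 T2.l1) (xk (xb T2.l1 T2.l1) T2.l9))
  (TrL.c (I.pos (nat_lit 0) (nat_lit 111196574)) (xR T0.l1 T0.l9)
  (TrL.c (I.pos (nat_lit 0) (nat_lit 77433728)) T2.l2
  (TrL.c (I.pos (nat_lit 0) (nat_lit 0)) (xa (xb (xk (xa T2.l3 T2.l0) (xa T2.l3 T2.l0)) (xk T2.l3 T2.l3)) (xb (xk (xa (xb T2.l0 T2.l3) (xb (xk T2.l0 T2.l0) (xk T2.l3 T2.l3))) (xa (xb T2.l0 T2.l3) (xb (xk T2.l0 T2.l0) T2.l3))) (xk (xa T2.l3 (xb (xk T2.l3 T2.l3) (xk T2.l3 T2.l3))) (xa T2.l3 (xb (xk T2.l3 T2.l3) (xk T2.l3 T2.l3))))))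
  (TrL.c (I.pos (nat_lit 0) (nat_lit 0)) (xk (xb (xa T0.l2 T0.l6) (xa T0.l2 T0.l2)) (xa T0.l2 (xb T0.l2 T0.l2)))
  (TrL.c (I.mix (nat_lit 29511666) (nat_lit 77433728)) (xR T2.l4 (xR T2.l4 (xR T2.l4 T2.l4)))
  (TrL.c (I.mix (nat_lit 29511666) (nat_lit 46070178)) T0.l7
  TrL.n)))))))) (by decide +kernel)
theorem bx1_9 : BoxOK sI cl7 cl5 cl7 t0 t2 b1_9 :=
  box_mk (TrL.c (I.pos (nat_lit 0) (nat_lit 0)) (xa T0.l13 T0.l0)
  (TrL.c (I.pos (nat_lit 0) (nat_lit 0)) T2.l1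
  (TrL.c (I.pos (nat_lit 0) (nat_lit 111196574)) (xR T0.l1 T0.l1)
  (TrL.c (I.pos (nat_lit 0) (nat_lit 77433728)) T2.l2
  (TrL.c (I.pos (nat_lit 0) (nat_lit 0)) (xk (xb T2.l13 T2.l13) (xb T2.l13 T2.l13))
  (TrL.c (I.pos (nat_lit 0) (nat_lit 0)) T0.l2
  (TrL.c (I.mix (nat_lit 29511666) (nat_lit 77433728)) (xR T2.l4 T2.l4)
  (TrL.c (I.mix (nat_lit 29511666) (nat_lit 46070178)) T0.l3
  TrL.n)))))))) (by decide +kernel)
theorem bx1_10 : BoxOK sI cl7 cl5 cl7 t0 t2 b1_10 :=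
  box_mk (TrL.c (I.pos (nat_lit 0) (nat_lit 0)) (xa (xb T0.l0 T0.l0) (xb T0.l0 T0.l0))
  (TrL.c (I.pos (nat_lit 0) (nat_lit 0)) (xk (xa T2.l1 T2.l1) (xa T2.l1 T2.l1))
  (TrL.c (I.pos (nat_lit 0) (nat_lit 111196574)) (xR T0.l1 T0.l1)
  (TrL.c (I.pos (nat_lit 0) (nat_lit 77433728)) T2.l2
  (TrL.c (I.pos (nat_lit 0) (nat_lit 0)) (xk (xa T2.l3 T2.l3) (xa T2.l3 T2.l3))
  (TrL.c (I.pos (nat_lit 0) (nat_lit 0)) T0.l2
  (TrL.c (I.mix (nat_lit 29511666) (nat_lit 77433728)) (xR T2.l4 T2.l4)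
  (TrL.c (I.mix (nat_lit 29511666) (nat_lit 46070178)) T0.l7
  TrL.n)))))))) (by decide +kernel)
theorem bx1_11 : BoxOK sI cl7 cl5 cl7 t0 t2 b1_11 :=
  box_mk (TrL.c (I.pos (nat_lit 0) (nat_lit 0)) (xb T0.l13 T0.l13)
  (TrL.c (I.pos (nat_lit 0) (nat_lit 0)) T2.l1
  (TrL.c (I.pos (nat_lit 0) (nat_lit 111196574)) (xR T0.l1 T0.l1)
  (TrL.c (I.pos (nat_lit 0) (nat_lit 77433728)) T2.l2
  (TrL.c (I.pos (nat_lit 0) (nat_lit 0)) (xk T2.l13 T2.l13)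
  (TrL.c (I.pos (nat_lit 0) (nat_lit 0)) T0.l2
  (TrL.c (I.mix (nat_lit 29511666) (nat_lit 77433728)) (xR T2.l4 T2.l4)
  (TrL.c (I.mix (nat_lit 29511666) (nat_lit 46070178)) T0.l7
  TrL.n)))))))) (by decide +kernel)
theorem sv1 : StarV sI cl7 cl5 cl7 t0 t2 t1 :=
  (bt_n (bt_n (bt_n (bt_b bx1_0) (bt_n (bt_b bx1_1) (bt_b bx1_2))) (bt_n (bt_b bx1_3) (bt_n (bt_b bx1_4) (bt_b bx1_5)))) (bt_n (bt_n (bt_b bx1_6) (bt_n (bt_b bx1_7) (bt_b bx1_8))) (bt_n (bt_b bx1_9) (bt_n (bt_b bx1_10) (bt_b bx1_11)))))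
def S1 : StarD := StarD.mk cl7 cl5 cl7 0 2 t1
theorem bx2_0 : BoxOK sI cl7 cl7 cl5 t2 t0 b2_0 :=
  box_mk (TrL.c (I.pos (nat_lit 0) (nat_lit 0)) (xa (xa (xb T2.l0 T2.l0) (xb T2.l0 T2.l0)) (xa (xb T2.l0 T2.l0) (xb T2.l0 T2.l0)))
  (TrL.c (I.pos (nat_lit 0) (nat_lit 0)) (xa (xk (xb T0.l6 T0.l6) (xb T0.l6 T0.l6)) (xk (xb T0.l6 (xa T0.l6 T0.l6)) (xb T0.l6 T0.l6)))
  (TrL.c (I.pos (nat_lit 0) (nat_lit 111196574)) (xR T2.l8 T2.l8)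
  (TrL.c (I.pos (nat_lit 0) (nat_lit 77433728)) T0.l7
  (TrL.c (I.pos (nat_lit 0) (nat_lit 0)) (xa (xk (xb T0.l8 T0.l8) (xb T0.l8 T0.l8)) (xk (xb (xa T0.l8 T0.l8) (xa T0.l8 T0.l8)) (xb (xa T0.l8 T0.l8) (xa T0.l8 T0.l8))))
  (TrL.c (I.pos (nat_lit 0) (nat_lit 0)) (xk T2.l9 T2.l9)
  (TrL.c (I.mix (nat_lit 29511666) (nat_lit 77433728)) (xR T0.l9 T0.l9)
  (TrL.c (I.mix (nat_lit 29511666) (nat_lit 46070178)) T2.l10
  TrL.n)))))))) (by decide +kernel)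
theorem bx2_1 : BoxOK sI cl7 cl7 cl5 t2 t0 b2_1 :=
  box_mk (TrL.c (I.pos (nat_lit 0) (nat_lit 0)) (xa T2.l11 T2.l0)
  (TrL.c (I.pos (nat_lit 0) (nat_lit 0)) T0.l6
  (TrL.c (I.pos (nat_lit 0) (nat_lit 111196574)) (xR T2.l8 T2.l8)
  (TrL.c (I.pos (nat_lit 0) (nat_lit 77433728)) T0.l7
  (TrL.c (I.pos (nat_lit 0) (nat_lit 0)) (xa T0.l10 (xk T0.l10 T0.l10))
  (TrL.c (I.pos (nat_lit 0) (nat_lit 0)) T2.l9
  (TrL.c (I.mix (nat_lit 29511666) (nat_lit 77433728)) (xR T0.l9 T0.l9)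
  (TrL.c (I.mix (nat_lit 29511666) (nat_lit 46070178)) T2.l10
  TrL.n)))))))) (by decide +kernel)
theorem bx2_2 : BoxOK sI cl7 cl7 cl5 t2 t0 b2_2 :=
  box_mk (TrL.c (I.pos (nat_lit 0) (nat_lit 0)) (xa (xa T2.l11 T2.l11) T2.l11)
  (TrL.c (I.pos (nat_lit 0) (nat_lit 0)) (xa T0.l6 T0.l6)
  (TrL.c (I.pos (nat_lit 0) (nat_lit 111196574)) T2.l8
  (TrL.c (I.pos (nat_lit 0) (nat_lit 77433728)) T0.l9
  (TrL.c (I.pos (nat_lit 0) (nat_lit 0)) (xa T0.l10 T0.l10)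
  (TrL.c (I.pos (nat_lit 0) (nat_lit 0)) T2.l9
  (TrL.c (I.mix (nat_lit 29511666) (nat_lit 77433728)) T0.l9
  (TrL.c (I.mix (nat_lit 29511666) (nat_lit 46070178)) T2.l4
  TrL.n)))))))) (by decide +kernel)
theorem bx2_3 : BoxOK sI cl7 cl7 cl5 t2 t0 b2_3 :=
  box_mk (TrL.c (I.pos (nat_lit 0) (nat_lit 0)) (xb (xa T2.l12 T2.l12) (xa T2.l12 T2.l12))
  (TrL.c (I.pos (nat_lit 0) (nat_lit 0)) (xb (xk T0.l6 T0.l6) (xk T0.l6 T0.l6))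
  (TrL.c (I.pos (nat_lit 0) (nat_lit 111196574)) (xR T2.l8 T2.l8)
  (TrL.c (I.pos (nat_lit 0) (nat_lit 77433728)) T0.l7
  (TrL.c (I.pos (nat_lit 0) (nat_lit 0)) (xb (xk T0.l11 T0.l11) (xk T0.l8 T0.l8))
  (TrL.c (I.pos (nat_lit 0) (nat_lit 0)) T2.l9
  (TrL.c (I.mix (nat_lit 29511666) (nat_lit 77433728)) (xR T0.l9 T0.l9)
  (TrL.c (I.mix (nat_lit 29511666) (nat_lit 46070178)) T2.l2
  TrL.n)))))))) (by decide +kernel)
theorem bx2_4 : BoxOK sI cl7 cl7 cl5 t2 t0 b2_4 :=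
  box_mk (TrL.c (I.pos (nat_lit 0) (nat_lit 0)) (xa (xa (xb T2.l11 T2.l11) T2.l11) (xa T2.l11 T2.l11))
  (TrL.c (I.pos (nat_lit 0) (nat_lit 0)) (xa (xa T0.l10 T0.l6) T0.l6)
  (TrL.c (I.pos (nat_lit 0) (nat_lit 111196574)) T2.l8
  (TrL.c (I.pos (nat_lit 0) (nat_lit 77433728)) T0.l7
  (TrL.c (I.pos (nat_lit 0) (nat_lit 0)) (xa T0.l10 T0.l10)
  (TrL.c (I.pos (nat_lit 0) (nat_lit 0)) T2.l9
  (TrL.c (I.mix (nat_lit 29511666) (nat_lit 77433728)) (xR T0.l9 T0.l9)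
  (TrL.c (I.mix (nat_lit 29511666) (nat_lit 46070178)) T2.l10
  TrL.n)))))))) (by decide +kernel)
theorem bx2_5 : BoxOK sI cl7 cl7 cl5 t2 t0 b2_5 :=
  box_mk (TrL.c (I.pos (nat_lit 0) (nat_lit 0)) T2.l12
  (TrL.c (I.pos (nat_lit 0) (nat_lit 0)) T0.l6
  (TrL.c (I.pos (nat_lit 0) (nat_lit 111196574)) (xR T2.l8 T2.l8)
  (TrL.c (I.pos (nat_lit 0) (nat_lit 77433728)) T0.l7
  (TrL.c (I.pos (nat_lit 0) (nat_lit 0)) (xk (xa T0.l11 T0.l8) (xa T0.l11 T0.l8))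
  (TrL.c (I.pos (nat_lit 0) (nat_lit 0)) T2.l9
  (TrL.c (I.mix (nat_lit 29511666) (nat_lit 77433728)) (xR T0.l9 T0.l9)
  (TrL.c (I.mix (nat_lit 29511666) (nat_lit 46070178)) T2.l10
  TrL.n)))))))) (by decide +kernel)
theorem bx2_6 : BoxOK sI cl7 cl7 cl5 t2 t0 b2_6 :=
  box_mk (TrL.c (I.pos (nat_lit 0) (nat_lit 0)) T2.l11
  (TrL.c (I.pos (nat_lit 0) (nat_lit 0)) T0.l6
  (TrL.c (I.pos (nat_lit 0) (nat_lit 111196574)) (xR T2.l8 T2.l8)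
  (TrL.c (I.pos (nat_lit 0) (nat_lit 77433728)) T0.l7
  (TrL.c (I.pos (nat_lit 0) (nat_lit 0)) T0.l10
  (TrL.c (I.pos (nat_lit 0) (nat_lit 0)) T2.l9
  (TrL.c (I.mix (nat_lit 29511666) (nat_lit 77433728)) (xR T0.l9 T0.l9)
  (TrL.c (I.mix (nat_lit 29511666) (nat_lit 46070178)) T2.l10
  TrL.n)))))))) (by decide +kernel)
theorem bx2_7 : BoxOK sI cl7 cl7 cl5 t2 t0 b2_7 :=
  box_mk (TrL.c (I.pos (nat_lit 0) (nat_lit 0)) T2.l11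
  (TrL.c (I.pos (nat_lit 0) (nat_lit 0)) (xa T0.l6 T0.l6)
  (TrL.c (I.pos (nat_lit 0) (nat_lit 111196574)) T2.l8
  (TrL.c (I.pos (nat_lit 0) (nat_lit 77433728)) T0.l7
  (TrL.c (I.pos (nat_lit 0) (nat_lit 0)) (xa T0.l10 T0.l10)
  (TrL.c (I.pos (nat_lit 0) (nat_lit 0)) T2.l9
  (TrL.c (I.mix (nat_lit 29511666) (nat_lit 77433728)) T0.l9
  (TrL.c (I.mix (nat_lit 29511666) (nat_lit 46070178)) T2.l10
  TrL.n)))))))) (by decide +kernel)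
theorem bx2_8 : BoxOK sI cl7 cl7 cl5 t2 t0 b2_8 :=
  box_mk (TrL.c (I.pos (nat_lit 0) (nat_lit 0)) (xa (xa (xb T2.l11 T2.l11) T2.l11) (xa T2.l11 T2.l11))
  (TrL.c (I.pos (nat_lit 0) (nat_lit 0)) (xa (xa T0.l10 T0.l6) T0.l6)
  (TrL.c (I.pos (nat_lit 0) (nat_lit 111196574)) T2.l8
  (TrL.c (I.pos (nat_lit 0) (nat_lit 77433728)) T0.l7
  (TrL.c (I.pos (nat_lit 0) (nat_lit 0)) (xa T0.l10 T0.l10)
  (TrL.c (I.pos (nat_lit 0) (nat_lit 0)) T2.l9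
  (TrL.c (I.mix (nat_lit 29511666) (nat_lit 77433728)) T0.l9
  (TrL.c (I.mix (nat_lit 29511666) (nat_lit 46070178)) T2.l10
  TrL.n)))))))) (by decide +kernel)
theorem bx2_9 : BoxOK sI cl7 cl7 cl5 t2 t0 b2_9 :=
  box_mk (TrL.c (I.pos (nat_lit 0) (nat_lit 0)) (xb T2.l11 T2.l11)
  (TrL.c (I.pos (nat_lit 0) (nat_lit 0)) T0.l6
  (TrL.c (I.pos (nat_lit 0) (nat_lit 111196574)) T2.l8
  (TrL.c (I.pos (nat_lit 0) (nat_lit 77433728)) T0.l7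
  (TrL.c (I.pos (nat_lit 0) (nat_lit 0)) (xb (xk T0.l10 T0.l10) T0.l10)
  (TrL.c (I.pos (nat_lit 0) (nat_lit 0)) T2.l9
  (TrL.c (I.mix (nat_lit 29511666) (nat_lit 77433728)) (xR T0.l9 T0.l9)
  (TrL.c (I.mix (nat_lit 29511666) (nat_lit 46070178)) T2.l10
  TrL.n)))))))) (by decide +kernel)
theorem bx2_10 : BoxOK sI cl7 cl7 cl5 t2 t0 b2_10 :=
  box_mk (TrL.c (I.pos (nat_lit 0) (nat_lit 0)) (xa (xa T2.l11 T2.l11) T2.l11)
  (TrL.c (I.pos (nat_lit 0) (nat_lit 0)) (xa T0.l6 T0.l6)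
  (TrL.c (I.pos (nat_lit 0) (nat_lit 111196574)) T2.l8
  (TrL.c (I.pos (nat_lit 0) (nat_lit 77433728)) T0.l9
  (TrL.c (I.pos (nat_lit 0) (nat_lit 0)) (xa T0.l10 T0.l10)
  (TrL.c (I.pos (nat_lit 0) (nat_lit 0)) T2.l9
  (TrL.c (I.mix (nat_lit 29511666) (nat_lit 77433728)) T0.l9
  (TrL.c (I.mix (nat_lit 29511666) (nat_lit 46070178)) T2.l4
  TrL.n)))))))) (by decide +kernel)
theorem bx2_11 : BoxOK sI cl7 cl7 cl5 t2 t0 b2_11 :=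
  box_mk (TrL.c (I.pos (nat_lit 0) (nat_lit 0)) (xa (xb T2.l0 (xa T2.l0 T2.l0)) (xb T2.l0 (xa T2.l0 T2.l0)))
  (TrL.c (I.pos (nat_lit 0) (nat_lit 0)) (xa (xb T0.l6 (xk T0.l6 T0.l6)) (xk (xb T0.l2 (xa T0.l6 T0.l2)) (xb T0.l2 (xa T0.l6 T0.l2))))
  (TrL.c (I.pos (nat_lit 0) (nat_lit 111196574)) (xR T2.l8 T2.l8)
  (TrL.c (I.pos (nat_lit 0) (nat_lit 77433728)) (xR T0.l7 T0.l7)
  (TrL.c (I.pos (nat_lit 0) (nat_lit 0)) (xa (xb (xk (xa T0.l8 T0.l8) (xa T0.l8 T0.l8)) (xk T0.l8 T0.l8)) (xb (xk (xa (xb T0.l8 T0.l8) (xb (xk (xa T0.l8 T0.l8) T0.l8) T0.l8)) (xa (xb T0.l8 T0.l8) (xb (xk T0.l8 T0.l8) T0.l8))) (xk (xa T0.l8 (xb (xk T0.l8 T0.l8) (xk (xa T0.l8 T0.l8) T0.l8))) (xa T0.l8 (xb (xk T0.l8 T0.l8) (xk T0.l8 T0.l8))))))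
  (TrL.c (I.pos (nat_lit 0) (nat_lit 0)) (xk (xa T2.l9 (xb T2.l9 T2.l9)) (xa T2.l9 (xb T2.l9 T2.l9)))
  (TrL.c (I.mix (nat_lit 29511666) (nat_lit 77433728)) (xR T0.l9 (xR T0.l9 (xR T0.l9 T0.l9)))
  (TrL.c (I.mix (nat_lit 29511666) (nat_lit 46070178)) T2.l10
  TrL.n)))))))) (by decide +kernel)
theorem bx2_12 : BoxOK sI cl7 cl7 cl5 t2 t0 b2_12 :=
  box_mk (TrL.c (I.pos (nat_lit 0) (nat_lit 0)) (xa (xb T2.l0 T2.l0) (xb T2.l0 T2.l0))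
  (TrL.c (I.pos (nat_lit 0) (nat_lit 0)) (xa (xk T0.l6 T0.l6) (xk T0.l6 T0.l6))
  (TrL.c (I.pos (nat_lit 0) (nat_lit 111196574)) (xR T2.l8 T2.l8)
  (TrL.c (I.pos (nat_lit 0) (nat_lit 77433728)) T0.l7
  (TrL.c (I.pos (nat_lit 0) (nat_lit 0)) (xk (xa T0.l8 (xb T0.l8 T0.l8)) (xa T0.l8 T0.l8))
  (TrL.c (I.pos (nat_lit 0) (nat_lit 0)) T2.l9
  (TrL.c (I.mix (nat_lit 29511666) (nat_lit 77433728)) (xR T0.l9 T0.l9)
  (TrL.c (I.mix (nat_lit 29511666) (nat_lit 46070178)) T2.l10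
  TrL.n)))))))) (by decide +kernel)
theorem bx2_13 : BoxOK sI cl7 cl7 cl5 t2 t0 b2_13 :=
  box_mk (TrL.c (I.pos (nat_lit 0) (nat_lit 0)) T2.l12
  (TrL.c (I.pos (nat_lit 0) (nat_lit 0)) T0.l6
  (TrL.c (I.pos (nat_lit 0) (nat_lit 111196574)) (xR T2.l8 T2.l8)
  (TrL.c (I.pos (nat_lit 0) (nat_lit 77433728)) T0.l7
  (TrL.c (I.pos (nat_lit 0) (nat_lit 0)) (xk T0.l11 T0.l11)
  (TrL.c (I.pos (nat_lit 0) (nat_lit 0)) T2.l9
  (TrL.c (I.mix (nat_lit 29511666) (nat_lit 77433728)) (xR T0.l9 T0.l9)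
  (TrL.c (I.mix (nat_lit 29511666) (nat_lit 46070178)) T2.l10
  TrL.n)))))))) (by decide +kernel)
theorem sv2 : StarV sI cl7 cl7 cl5 t2 t0 t2 :=
  (bt_n (bt_n (bt_n (bt_b bx2_0) (bt_n (bt_b bx2_1) (bt_b bx2_2))) (bt_n (bt_n (bt_b bx2_3) (bt_b bx2_4)) (bt_n (bt_b bx2_5) (bt_b bx2_6)))) (bt_n (bt_n (bt_b bx2_7) (bt_n (bt_b bx2_8) (bt_b bx2_9))) (bt_n (bt_n (bt_b bx2_10) (bt_b bx2_11)) (bt_n (bt_b bx2_12) (bt_b bx2_13)))))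
def S2 : StarD := StarD.mk cl7 cl7 cl5 2 0 t2
def G : List StarD := [S0, S1, S2]
theorem so0 : StarOK sI G S0 :=
  star_mk (by decide) (by decide) rfl rfl rfl rfl rfl rfl (rfl : _ = t1) (rfl : _ = t1)
  (st_mk (Pth.l (Pth.l (Pth.l Pth.z))) (nat_lit 143261352) (nat_lit 166272637) (by decide +kernel))
  (st_mk (Pth.l (Pth.l (Pth.l Pth.z))) (nat_lit 180010133) (nat_lit 203546804) (by decide +kernel))
  (st_mk (Pth.l (Pth.l (Pth.l Pth.z))) (nat_lit 222965510) (nat_lit 247216258) (by decide +kernel)) sv0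
theorem so1 : StarOK sI G S1 :=
  star_mk (by decide) (by decide) rfl rfl rfl rfl rfl rfl (rfl : _ = t0) (rfl : _ = t2)
  (st_mk (Pth.l (Pth.l (Pth.l Pth.z))) (nat_lit 240962645) (nat_lit 243141327) (by decide +kernel))
  (st_mk (Pth.l (Pth.l (Pth.l Pth.z))) (nat_lit 276784458) (nat_lit 279497817) (by decide +kernel))
  (st_mk (Pth.l (Pth.l (Pth.l Pth.z))) (nat_lit 317744579) (nat_lit 322250262) (by decide +kernel)) sv1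
theorem so2 : StarOK sI G S2 :=
  star_mk (by decide) (by decide) rfl rfl rfl rfl rfl rfl (rfl : _ = t2) (rfl : _ = t0)
  (st_mk (Pth.l (Pth.l (Pth.l Pth.z))) (nat_lit 141357373) (nat_lit 164102202) (by decide +kernel))
  (st_mk (Pth.l (Pth.l (Pth.l Pth.z))) (nat_lit 177012070) (nat_lit 200250504) (by decide +kernel))
  (st_mk (Pth.l (Pth.l (Pth.l Pth.z))) (nat_lit 218365800) (nat_lit 242288490) (by decide +kernel)) sv2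
theorem ok : GroupOK (nat_lit 150274048) (nat_lit 209387520) G := grp_mk (allS_c so0 (allS_c so1 (allS_c so2 allS_n)))
theorem cov : GCov G cl5 cl7 cl7 := cov_mk
  ⟨0, by decide, rfl, rfl, rfl⟩ ⟨0, by decide, rfl, rfl, rfl⟩ ⟨1, by decide, rfl, rfl, rfl⟩ ⟨2, by decide, rfl, rfl, rfl⟩ ⟨1, by decide, rfl, rfl, rfl⟩ ⟨2, by decide, rfl, rfl, rfl⟩
end Q244_2

namespace Q244_3
def sI : I := I.pos (nat_lit 209321984) (nat_lit 268435456)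
def b0_0 : Bx := Bx.mk (St.mk (I.pos (nat_lit 150650880) (nat_lit 236666880)) (I.mix (nat_lit 7815168) (nat_lit 58048512)) (I.mix (nat_lit 10944512) (nat_lit 82018304)) (I.pos (nat_lit 127483904) (nat_lit 285097984)) (I.mix (nat_lit 113459200) (nat_lit 62750720)) (I.mix (nat_lit 71565312) (nat_lit 60096512)) (I.mix (nat_lit 95059968) (nat_lit 87982080)))
  false (nat_lit 19162828)
def b0_1 : Bx := Bx.mk (St.mk (I.mix (nat_lit 36585472) (nat_lit 136626176)) (I.mix (nat_lit 8060928) (nat_lit 32571392)) (I.mix (nat_lit 20758528) (nat_lit 14745600)) (I.pos (nat_lit 30588928) (nat_lit 125894656)) (I.mix (nat_lit 43466752) (nat_lit 45449216)) (I.mix (nat_lit 37371904) (nat_lit 32964608)) (I.mix (nat_lit 26836992) (nat_lit 20774912)))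
  false (nat_lit 0)
def b0_2 : Bx := Bx.mk (St.mk (I.pos (nat_lit 88276992) (nat_lit 136544256)) (I.mix (nat_lit 51134464) (nat_lit 11354112)) (I.mix (nat_lit 55640064) (nat_lit 1114112)) (I.pos (nat_lit 72843264) (nat_lit 130596864)) (I.mix (nat_lit 92127232) (nat_lit 40550400)) (I.mix (nat_lit 36962304) (nat_lit 69632000)) (I.mix (nat_lit 27541504) (nat_lit 52854784)))
  false (nat_lit 0)
def b0_3 : Bx := Bx.mk (St.mk (I.mix (nat_lit 46006272) (nat_lit 79806464)) (I.mix (nat_lit 33161216) (nat_lit 4227072)) (I.mix (nat_lit 23625728) (nat_lit 2490368)) (I.pos (nat_lit 36110336) (nat_lit 85852160)) (I.mix (nat_lit 46514176) (nat_lit 24510464)) (I.mix (nat_lit 23216128) (nat_lit 31440896)) (I.mix (nat_lit 11501568) (nat_lit 13320192)))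
  false (nat_lit 0)
def b0_4 : Bx := Bx.mk (St.mk (I.pos (nat_lit 182616064) (nat_lit 279429120)) (I.mix (nat_lit 11010048) (nat_lit 38174720)) (I.mix (nat_lit 66830336) (nat_lit 46743552)) (I.pos (nat_lit 192593920) (nat_lit 369475584)) (I.mix (nat_lit 90636288) (nat_lit 62980096)) (I.mix (nat_lit 53002240) (nat_lit 52723712)) (I.mix (nat_lit 85819392) (nat_lit 87588864)))
  false (nat_lit 0)
def b0_5 : Bx := Bx.mk (St.mk (I.mix (nat_lit 49823744) (nat_lit 62341120)) (I.mix (nat_lit 1802240) (nat_lit 10846208)) (I.neg (nat_lit 638976) (nat_lit 12435456)) (I.pos (nat_lit 38748160) (nat_lit 78118912)) (I.mix (nat_lit 12976128) (nat_lit 16384000)) (I.mix (nat_lit 9093120) (nat_lit 8568832)) (I.mix (nat_lit 3964928) (nat_lit 4259840)))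
  false (nat_lit 0)
def b0_6 : Bx := Bx.mk (St.mk (I.pos (nat_lit 87801856) (nat_lit 181960704)) (I.neg (nat_lit 4538368) (nat_lit 50429952)) (I.neg (nat_lit 2015232) (nat_lit 55459840)) (I.pos (nat_lit 80936960) (nat_lit 186138624)) (I.mix (nat_lit 76759040) (nat_lit 48168960)) (I.mix (nat_lit 39288832) (nat_lit 54968320)) (I.mix (nat_lit 31653888) (nat_lit 52625408)))
  false (nat_lit 10185729)
def b0_7 : Bx := Bx.mk (St.mk (I.mix (nat_lit 40648704) (nat_lit 97681408)) (I.mix (nat_lit 33161216) (nat_lit 11730944)) (I.mix (nat_lit 23478272) (nat_lit 3080192)) (I.pos (nat_lit 32227328) (nat_lit 96714752)) (I.mix (nat_lit 43679744) (nat_lit 39862272)) (I.mix (nat_lit 26787840) (nat_lit 39059456)) (I.mix (nat_lit 15040512) (nat_lit 21266432)))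
  false (nat_lit 0)
def b0_8 : Bx := Bx.mk (St.mk (I.pos (nat_lit 159924224) (nat_lit 215252992)) (I.mix (nat_lit 14090240) (nat_lit 58638336)) (I.mix (nat_lit 8224768) (nat_lit 81297408)) (I.pos (nat_lit 149962752) (nat_lit 247037952)) (I.mix (nat_lit 150716416) (nat_lit 60899328)) (I.mix (nat_lit 112607232) (nat_lit 79380480)) (I.mix (nat_lit 113819648) (nat_lit 79364096)))
  false (nat_lit 2450377)
def b0_9 : Bx := Bx.mk (St.mk (I.mix (nat_lit 55984128) (nat_lit 126042112)) (I.mix (nat_lit 19988480) (nat_lit 36831232)) (I.mix (nat_lit 18317312) (nat_lit 19578880)) (I.pos (nat_lit 32997376) (nat_lit 116391936)) (I.mix (nat_lit 55033856) (nat_lit 35241984)) (I.mix (nat_lit 50036736) (nat_lit 30310400)) (I.mix (nat_lit 26673152) (nat_lit 17514496)))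
  false (nat_lit 0)
def b0_10 : Bx := Bx.mk (St.mk (I.pos (nat_lit 131006464) (nat_lit 210550784)) (I.mix (nat_lit 41811968) (nat_lit 15826944)) (I.mix (nat_lit 50216960) (nat_lit 23658496)) (I.pos (nat_lit 116342784) (nat_lit 229130240)) (I.mix (nat_lit 58327040) (nat_lit 51380224)) (I.mix (nat_lit 51625984) (nat_lit 46120960)) (I.mix (nat_lit 53821440) (nat_lit 46891008)))
  false (nat_lit 7779487)
def b0_11 : Bx := Bx.mk (St.mk (I.pos (nat_lit 162119680) (nat_lit 205946880)) (I.mix (nat_lit 15908864) (nat_lit 30425088)) (I.mix (nat_lit 14139392) (nat_lit 44974080)) (I.pos (nat_lit 155844608) (nat_lit 225378304)) (I.mix (nat_lit 116424704) (nat_lit 64864256)) (I.mix (nat_lit 112377856) (nat_lit 60391424)) (I.mix (nat_lit 119013376) (nat_lit 60735488)))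
  false (nat_lit 0)
def b0_12 : Bx := Bx.mk (St.mk (I.pos (nat_lit 92389376) (nat_lit 118210560)) (I.mix (nat_lit 4653056) (nat_lit 10567680)) (I.neg (nat_lit 802816) (nat_lit 17940480)) (I.pos (nat_lit 75661312) (nat_lit 118816768)) (I.mix (nat_lit 15138816) (nat_lit 18350080)) (I.mix (nat_lit 11780096) (nat_lit 8110080)) (I.mix (nat_lit 9601024) (nat_lit 6258688)))
  false (nat_lit 0)
def b0_13 : Bx := Bx.mk (St.mk (I.pos (nat_lit 185286656) (nat_lit 236240896)) (I.pos (nat_lit 9076736) (nat_lit 54607872)) (I.pos (nat_lit 999424) (nat_lit 75726848)) (I.pos (nat_lit 203571200) (nat_lit 275841024)) (I.mix (nat_lit 98516992) (nat_lit 71319552)) (I.mix (nat_lit 80117760) (nat_lit 58425344)) (I.mix (nat_lit 128040960) (nat_lit 75497472)))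
  false (nat_lit 6169986)
def t0 : BTr := (BTr.n (BTr.n (BTr.n (BTr.b b0_0) (BTr.n (BTr.b b0_1) (BTr.b b0_2))) (BTr.n (BTr.n (BTr.b b0_3) (BTr.b b0_4)) (BTr.n (BTr.b b0_5) (BTr.b b0_6)))) (BTr.n (BTr.n (BTr.b b0_7) (BTr.n (BTr.b b0_8) (BTr.b b0_9))) (BTr.n (BTr.n (BTr.b b0_10) (BTr.b b0_11)) (BTr.n (BTr.b b0_12) (BTr.b b0_13)))))
namespace T0
def l0 : Tr := Tr.L (Pth.l (Pth.l (Pth.l Pth.z)))
def l1 : Tr := Tr.L (Pth.l (Pth.l (Pth.r (Pth.l Pth.z))))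
def l2 : Tr := Tr.L (Pth.l (Pth.l (Pth.r (Pth.r Pth.z))))
def l3 : Tr := Tr.L (Pth.l (Pth.r (Pth.l (Pth.l Pth.z))))
def l4 : Tr := Tr.L (Pth.l (Pth.r (Pth.l (Pth.r Pth.z))))
def l5 : Tr := Tr.L (Pth.l (Pth.r (Pth.r (Pth.l Pth.z))))
def l6 : Tr := Tr.L (Pth.l (Pth.r (Pth.r (Pth.r Pth.z))))
def l7 : Tr := Tr.L (Pth.r (Pth.l (Pth.l Pth.z)))
def l8 : Tr := Tr.L (Pth.r (Pth.l (Pth.r (Pth.l Pth.z))))
def l9 : Tr := Tr.L (Pth.r (Pth.l (Pth.r (Pth.r Pth.z))))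
def l10 : Tr := Tr.L (Pth.r (Pth.r (Pth.l (Pth.l Pth.z))))
def l11 : Tr := Tr.L (Pth.r (Pth.r (Pth.l (Pth.r Pth.z))))
def l12 : Tr := Tr.L (Pth.r (Pth.r (Pth.r (Pth.l Pth.z))))
def l13 : Tr := Tr.L (Pth.r (Pth.r (Pth.r (Pth.r Pth.z))))
end T0
def b1_0 : Bx := Bx.mk (St.mk (I.pos (nat_lit 140263424) (nat_lit 226934784)) (I.mix (nat_lit 9535488) (nat_lit 71270400)) (I.mix (nat_lit 13402112) (nat_lit 100941824)) (I.pos (nat_lit 227377152) (nat_lit 344489984)) (I.mix (nat_lit 125992960) (nat_lit 66846720)) (I.mix (nat_lit 72974336) (nat_lit 60964864)) (I.mix (nat_lit 90636288) (nat_lit 85442560)))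
  false (nat_lit 94442496)
def b1_1 : Bx := Bx.mk (St.mk (I.pos (nat_lit 57278464) (nat_lit 172048384)) (I.neg (nat_lit 966656) (nat_lit 67567616)) (I.mix (nat_lit 62062592) (nat_lit 12009472)) (I.pos (nat_lit 153681920) (nat_lit 248201216)) (I.mix (nat_lit 84967424) (nat_lit 60440576)) (I.mix (nat_lit 44613632) (nat_lit 63799296)) (I.mix (nat_lit 41811968) (nat_lit 57540608)))
  false (nat_lit 0)
def b1_2 : Bx := Bx.mk (St.mk (I.pos (nat_lit 13271040) (nat_lit 83869696)) (I.mix (nat_lit 18087936) (nat_lit 51200000)) (I.mix (nat_lit 28786688) (nat_lit 10649600)) (I.pos (nat_lit 141099008) (nat_lit 165576704)) (I.mix (nat_lit 43909120) (nat_lit 67043328)) (I.mix (nat_lit 50757632) (nat_lit 33685504)) (I.mix (nat_lit 27590656) (nat_lit 14581760)))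
  false (nat_lit 0)
def b1_3 : Bx := Bx.mk (St.mk (I.mix (nat_lit 44023808) (nat_lit 17596416)) (I.mix (nat_lit 47644672) (nat_lit 15826944)) (I.mix (nat_lit 5980160) (nat_lit 6815744)) (I.pos (nat_lit 139296768) (nat_lit 155877376)) (I.mix (nat_lit 34340864) (nat_lit 55164928)) (I.mix (nat_lit 26329088) (nat_lit 44990464)) (I.mix (nat_lit 6782976) (nat_lit 6897664)))
  true (nat_lit 0)
def b1_4 : Bx := Bx.mk (St.mk (I.pos (nat_lit 141983744) (nat_lit 195198976)) (I.mix (nat_lit 4964352) (nat_lit 65454080)) (I.pos (nat_lit 9551872) (nat_lit 94765056)) (I.pos (nat_lit 223363072) (nat_lit 300171264)) (I.mix (nat_lit 137478144) (nat_lit 42647552)) (I.mix (nat_lit 113754112) (nat_lit 63553536)) (I.mix (nat_lit 108199936) (nat_lit 70303744)))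
  false (nat_lit 63996329)
def b1_5 : Bx := Bx.mk (St.mk (I.pos (nat_lit 44728320) (nat_lit 102432768)) (I.mix (nat_lit 69500928) (nat_lit 21708800)) (I.neg (nat_lit 1425408) (nat_lit 59899904)) (I.pos (nat_lit 144359424) (nat_lit 188858368)) (I.mix (nat_lit 96616448) (nat_lit 35012608)) (I.mix (nat_lit 34439168) (nat_lit 77840384)) (I.mix (nat_lit 29458432) (nat_lit 45809664)))
  false (nat_lit 0)
def b1_6 : Bx := Bx.mk (St.mk (I.mix (nat_lit 17596416) (nat_lit 44023808)) (I.mix (nat_lit 15826944) (nat_lit 47644672)) (I.mix (nat_lit 5980160) (nat_lit 6815744)) (I.pos (nat_lit 139296768) (nat_lit 155877376)) (I.mix (nat_lit 55164928) (nat_lit 34340864)) (I.mix (nat_lit 44990464) (nat_lit 26329088)) (I.mix (nat_lit 6782976) (nat_lit 6897664)))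
  false (nat_lit 0)
def b1_7 : Bx := Bx.mk (St.mk (I.neg (nat_lit 13271040) (nat_lit 83869696)) (I.mix (nat_lit 51216384) (nat_lit 18087936)) (I.mix (nat_lit 28786688) (nat_lit 10649600)) (I.pos (nat_lit 141099008) (nat_lit 165576704)) (I.mix (nat_lit 67043328) (nat_lit 43909120)) (I.mix (nat_lit 33685504) (nat_lit 50757632)) (I.mix (nat_lit 27590656) (nat_lit 14581760)))
  true (nat_lit 0)
def b1_8 : Bx := Bx.mk (St.mk (I.pos (nat_lit 176603136) (nat_lit 301154304)) (I.mix (nat_lit 36061184) (nat_lit 53559296)) (I.mix (nat_lit 118505472) (nat_lit 69550080)) (I.pos (nat_lit 273088512) (nat_lit 477741056)) (I.mix (nat_lit 91439104) (nat_lit 70549504)) (I.mix (nat_lit 76840960) (nat_lit 59162624)) (I.mix (nat_lit 137707520) (nat_lit 108937216)))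
  false (nat_lit 93518020)
def b1_9 : Bx := Bx.mk (St.mk (I.pos (nat_lit 118292480) (nat_lit 196427776)) (I.mix (nat_lit 34635776) (nat_lit 20135936)) (I.mix (nat_lit 28540928) (nat_lit 39616512)) (I.pos (nat_lit 195559424) (nat_lit 287588352)) (I.mix (nat_lit 51609600) (nat_lit 56164352)) (I.mix (nat_lit 46891008) (nat_lit 42909696)) (I.mix (nat_lit 45465600) (nat_lit 40173568)))
  false (nat_lit 0)
def b1_10 : Bx := Bx.mk (St.mk (I.pos (nat_lit 166658048) (nat_lit 228917248)) (I.pos (nat_lit 4308992) (nat_lit 67190784)) (I.mix (nat_lit 8847360) (nat_lit 95223808)) (I.pos (nat_lit 273203200) (nat_lit 340541440)) (I.mix (nat_lit 115949568) (nat_lit 91996160)) (I.mix (nat_lit 89931776) (nat_lit 72138752)) (I.mix (nat_lit 141099008) (nat_lit 99991552)))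
  false (nat_lit 67409547)
def b1_11 : Bx := Bx.mk (St.mk (I.pos (nat_lit 142540800) (nat_lit 196411392)) (I.mix (nat_lit 16384000) (nat_lit 43565056)) (I.mix (nat_lit 9633792) (nat_lit 71876608)) (I.pos (nat_lit 226148352) (nat_lit 291291136)) (I.mix (nat_lit 144277504) (nat_lit 66666496)) (I.mix (nat_lit 128516096) (nat_lit 62832640)) (I.mix (nat_lit 125091840) (nat_lit 65896448)))
  false (nat_lit 20268695)
def t1 : BTr := (BTr.n (BTr.n (BTr.n (BTr.b b1_0) (BTr.n (BTr.b b1_1) (BTr.b b1_2))) (BTr.n (BTr.b b1_3) (BTr.n (BTr.b b1_4) (BTr.b b1_5)))) (BTr.n (BTr.n (BTr.b b1_6) (BTr.n (BTr.b b1_7) (BTr.b b1_8))) (BTr.n (BTr.b b1_9) (BTr.n (BTr.b b1_10) (BTr.b b1_11)))))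
namespace T1
def l0 : Tr := Tr.L (Pth.l (Pth.l (Pth.l Pth.z)))
def l1 : Tr := Tr.L (Pth.l (Pth.l (Pth.r (Pth.l Pth.z))))
def l2 : Tr := Tr.L (Pth.l (Pth.l (Pth.r (Pth.r Pth.z))))
def l3 : Tr := Tr.L (Pth.l (Pth.r (Pth.l Pth.z)))
def l4 : Tr := Tr.L (Pth.l (Pth.r (Pth.r (Pth.l Pth.z))))
def l5 : Tr := Tr.L (Pth.l (Pth.r (Pth.r (Pth.r Pth.z))))
def l6 : Tr := Tr.L (Pth.r (Pth.l (Pth.l Pth.z)))
def l7 : Tr := Tr.L (Pth.r (Pth.l (Pth.r (Pth.l Pth.z))))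
def l8 : Tr := Tr.L (Pth.r (Pth.l (Pth.r (Pth.r Pth.z))))
def l9 : Tr := Tr.L (Pth.r (Pth.r (Pth.l Pth.z)))
def l10 : Tr := Tr.L (Pth.r (Pth.r (Pth.r (Pth.l Pth.z))))
def l11 : Tr := Tr.L (Pth.r (Pth.r (Pth.r (Pth.r Pth.z))))
end T1
def b2_0 : Bx := Bx.mk (St.mk (I.pos (nat_lit 143572992) (nat_lit 235536384)) (I.mix (nat_lit 7192576) (nat_lit 53329920)) (I.mix (nat_lit 13729792) (nat_lit 103448576)) (I.pos (nat_lit 127680512) (nat_lit 264585216)) (I.mix (nat_lit 129236992) (nat_lit 78086144)) (I.mix (nat_lit 87506944) (nat_lit 76038144)) (I.mix (nat_lit 113950720) (nat_lit 94355456)))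
  false (nat_lit 27979213)
def b2_1 : Bx := Bx.mk (St.mk (I.pos (nat_lit 107397120) (nat_lit 173965312)) (I.neg (nat_lit 5357568) (nat_lit 55656448)) (I.mix (nat_lit 45203456) (nat_lit 7340032)) (I.pos (nat_lit 96698368) (nat_lit 180158464)) (I.mix (nat_lit 74727424) (nat_lit 43630592)) (I.mix (nat_lit 34619392) (nat_lit 49119232)) (I.mix (nat_lit 32784384) (nat_lit 47464448)))
  false (nat_lit 5430739)
def b2_2 : Bx := Bx.mk (St.mk (I.mix (nat_lit 30277632) (nat_lit 98336768)) (I.mix (nat_lit 33374208) (nat_lit 7045120)) (I.mix (nat_lit 14336000) (nat_lit 12058624)) (I.pos (nat_lit 34111488) (nat_lit 96747520)) (I.mix (nat_lit 39895040) (nat_lit 40550400)) (I.mix (nat_lit 24969216) (nat_lit 33406976)) (I.mix (nat_lit 12468224) (nat_lit 17514496)))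
  false (nat_lit 0)
def b2_3 : Bx := Bx.mk (St.mk (I.pos (nat_lit 154812416) (nat_lit 208519168)) (I.mix (nat_lit 16236544) (nat_lit 52559872)) (I.pos (nat_lit 7733248) (nat_lit 95453184)) (I.pos (nat_lit 136675328) (nat_lit 225902592)) (I.mix (nat_lit 153157632) (nat_lit 63438848)) (I.mix (nat_lit 120668160) (nat_lit 75104256)) (I.mix (nat_lit 128548864) (nat_lit 64372736)))
  false (nat_lit 29512527)
def b2_4 : Bx := Bx.mk (St.mk (I.mix (nat_lit 54280192) (nat_lit 122273792)) (I.mix (nat_lit 14827520) (nat_lit 35012608)) (I.mix (nat_lit 7618560) (nat_lit 30818304)) (I.pos (nat_lit 33701888) (nat_lit 111968256)) (I.mix (nat_lit 60620800) (nat_lit 29196288)) (I.mix (nat_lit 48267264) (nat_lit 26574848)) (I.mix (nat_lit 26345472) (nat_lit 16285696)))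
  false (nat_lit 0)
def b2_5 : Bx := Bx.mk (St.mk (I.pos (nat_lit 140673024) (nat_lit 208224256)) (I.mix (nat_lit 35209216) (nat_lit 13336576)) (I.mix (nat_lit 19316736) (nat_lit 44744704)) (I.pos (nat_lit 123355136) (nat_lit 219086848)) (I.mix (nat_lit 60391424) (nat_lit 64700416)) (I.mix (nat_lit 56655872) (nat_lit 59408384)) (I.mix (nat_lit 52084736) (nat_lit 60375040)))
  false (nat_lit 42947195)
def b2_6 : Bx := Bx.mk (St.mk (I.mix (nat_lit 56786944) (nat_lit 120012800)) (I.mix (nat_lit 17776640) (nat_lit 4390912)) (I.mix (nat_lit 4849664) (nat_lit 10747904)) (I.pos (nat_lit 36421632) (nat_lit 103137280)) (I.mix (nat_lit 20496384) (nat_lit 21823488)) (I.mix (nat_lit 14106624) (nat_lit 13729792)) (I.mix (nat_lit 7159808) (nat_lit 6963200)))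
  false (nat_lit 0)
def b2_7 : Bx := Bx.mk (St.mk (I.mix (nat_lit 46120960) (nat_lit 141213696)) (I.mix (nat_lit 13910016) (nat_lit 32636928)) (I.mix (nat_lit 11075584) (nat_lit 28966912)) (I.pos (nat_lit 29884416) (nat_lit 127008768)) (I.mix (nat_lit 60604416) (nat_lit 49790976)) (I.mix (nat_lit 47333376) (nat_lit 33767424)) (I.mix (nat_lit 34209792) (nat_lit 24215552)))
  false (nat_lit 0)
def b2_8 : Bx := Bx.mk (St.mk (I.pos (nat_lit 87113728) (nat_lit 143769600)) (I.mix (nat_lit 57098240) (nat_lit 17629184)) (I.mix (nat_lit 46039040) (nat_lit 18251776)) (I.pos (nat_lit 72482816) (nat_lit 141017088)) (I.mix (nat_lit 82149376) (nat_lit 38305792)) (I.mix (nat_lit 37126144) (nat_lit 70025216)) (I.mix (nat_lit 27295744) (nat_lit 50479104)))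
  false (nat_lit 0)
def b2_9 : Bx := Bx.mk (St.mk (I.mix (nat_lit 51167232) (nat_lit 84738048)) (I.mix (nat_lit 34291712) (nat_lit 10190848)) (I.mix (nat_lit 13795328) (nat_lit 10616832)) (I.pos (nat_lit 36405248) (nat_lit 88621056)) (I.mix (nat_lit 43220992) (nat_lit 30490624)) (I.mix (nat_lit 24068096) (nat_lit 34193408)) (I.mix (nat_lit 10256384) (nat_lit 12713984)))
  false (nat_lit 0)
def b2_10 : Bx := Bx.mk (St.mk (I.pos (nat_lit 176783360) (nat_lit 297713664)) (I.mix (nat_lit 32505856) (nat_lit 42860544)) (I.mix (nat_lit 61997056) (nat_lit 90898432)) (I.pos (nat_lit 176308224) (nat_lit 396640256)) (I.mix (nat_lit 75890688) (nat_lit 66060288)) (I.mix (nat_lit 69271552) (nat_lit 57131008)) (I.mix (nat_lit 123289600) (nat_lit 95092736)))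
  false (nat_lit 49639463)
def b2_11 : Bx := Bx.mk (St.mk (I.pos (nat_lit 173473792) (nat_lit 232603648)) (I.pos (nat_lit 8388608) (nat_lit 50380800)) (I.pos (nat_lit 27377664) (nat_lit 98238464)) (I.pos (nat_lit 182140928) (nat_lit 255557632)) (I.mix (nat_lit 110002176) (nat_lit 90669056)) (I.mix (nat_lit 92045312) (nat_lit 74973184)) (I.mix (nat_lit 142737408) (nat_lit 94552064)))
  false (nat_lit 28640005)
def b2_12 : Bx := Bx.mk (St.mk (I.pos (nat_lit 144015360) (nat_lit 174080000)) (I.neg (nat_lit 10813440) (nat_lit 40157184)) (I.mix (nat_lit 26345472) (nat_lit 7569408)) (I.pos (nat_lit 130924544) (nat_lit 177766400)) (I.mix (nat_lit 29999104) (nat_lit 24674304)) (I.mix (nat_lit 16482304) (nat_lit 17334272)) (I.mix (nat_lit 15695872) (nat_lit 17121280)))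
  false (nat_lit 0)
def b2_13 : Bx := Bx.mk (St.mk (I.pos (nat_lit 156123136) (nat_lit 200867840)) (I.mix (nat_lit 16613376) (nat_lit 25149440)) (I.pos (nat_lit 6832128) (nat_lit 61456384)) (I.pos (nat_lit 153042944) (nat_lit 206471168)) (I.mix (nat_lit 99778560) (nat_lit 45924352)) (I.mix (nat_lit 94584832) (nat_lit 39600128)) (I.mix (nat_lit 97189888) (nat_lit 40910848)))
  false (nat_lit 11278426)
def t2 : BTr := (BTr.n (BTr.n (BTr.n (BTr.b b2_0) (BTr.n (BTr.b b2_1) (BTr.b b2_2))) (BTr.n (BTr.n (BTr.b b2_3) (BTr.b b2_4)) (BTr.n (BTr.b b2_5) (BTr.b b2_6)))) (BTr.n (BTr.n (BTr.b b2_7) (BTr.n (BTr.b b2_8) (BTr.b b2_9))) (BTr.n (BTr.n (BTr.b b2_10) (BTr.b b2_11)) (BTr.n (BTr.b b2_12) (BTr.b b2_13)))))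
namespace T2
def l0 : Tr := Tr.L (Pth.l (Pth.l (Pth.l Pth.z)))
def l1 : Tr := Tr.L (Pth.l (Pth.l (Pth.r (Pth.l Pth.z))))
def l2 : Tr := Tr.L (Pth.l (Pth.l (Pth.r (Pth.r Pth.z))))
def l3 : Tr := Tr.L (Pth.l (Pth.r (Pth.l (Pth.l Pth.z))))
def l4 : Tr := Tr.L (Pth.l (Pth.r (Pth.l (Pth.r Pth.z))))
def l5 : Tr := Tr.L (Pth.l (Pth.r (Pth.r (Pth.l Pth.z))))
def l6 : Tr := Tr.L (Pth.l (Pth.r (Pth.r (Pth.r Pth.z))))
def l7 : Tr := Tr.L (Pth.r (Pth.l (Pth.l Pth.z)))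
def l8 : Tr := Tr.L (Pth.r (Pth.l (Pth.r (Pth.l Pth.z))))
def l9 : Tr := Tr.L (Pth.r (Pth.l (Pth.r (Pth.r Pth.z))))
def l10 : Tr := Tr.L (Pth.r (Pth.r (Pth.l (Pth.l Pth.z))))
def l11 : Tr := Tr.L (Pth.r (Pth.r (Pth.l (Pth.r Pth.z))))
def l12 : Tr := Tr.L (Pth.r (Pth.r (Pth.r (Pth.l Pth.z))))
def l13 : Tr := Tr.L (Pth.r (Pth.r (Pth.r (Pth.r Pth.z))))
end T2
theorem bx0_0 : BoxOK sI cl5 cl7 cl7 t1 t1 b0_0 :=
  box_mk (TrL.c (I.pos (nat_lit 0) (nat_lit 0)) (xa (xb (xa T1.l10 (xb T1.l10 T1.l10)) (xa (xb T1.l10 (xa (xb T1.l10 (xs T1.l10 T1.l10)) (xb T1.l10 (xs T1.l0 T1.l10)))) (xb (xa T1.l10 T1.l0) (xa (xb T1.l10 (xs T1.l0 T1.l10)) (xs T1.l0 (xb T1.l0 T1.l10)))))) (xb (xa (xb T1.l0 (xa T1.l0 T1.l0)) (xb T1.l0 T1.l0)) (xa (xb (xa T1.l0 T1.l0) (xa (xs T1.l0 (xb T1.l0 T1.l10)) (xs T1.l0 (xb T1.l0 T1.l0)))) (xb (xa T1.l0 T1.l0) (xa (xs T1.l0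 (xb T1.l0 T1.l0)) (xs T1.l0 (xb T1.l0 T1.l0)))))))
  (TrL.c (I.pos (nat_lit 0) (nat_lit 0)) (xa (xb T1.l1 T1.l1) (xb T1.l1 (xa T1.l1 (xb T1.l1 T1.l1))))
  (TrL.c (I.pos (nat_lit 0) (nat_lit 0)) T1.l2
  (TrL.c (I.pos (nat_lit 0) (nat_lit 0)) T1.l3
  (TrL.c (I.pos (nat_lit 0) (nat_lit 0)) (xa (xb T1.l11 (xa T1.l4 T1.l4)) (xb (xa T1.l11 (xb T1.l11 T1.l4)) (xa T1.l4 (xb T1.l4 T1.l4))))
  (TrL.c (I.pos (nat_lit 0) (nat_lit 0)) (xa T1.l5 (xb T1.l5 T1.l5))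
  (TrL.c (I.pos (nat_lit 0) (nat_lit 0)) T1.l6
  (TrL.c (I.pos (nat_lit 0) (nat_lit 0)) T1.l7
  TrL.n)))))))) (by decide +kernel)
theorem bx0_1 : BoxOK sI cl5 cl7 cl7 t1 t1 b0_1 :=
  box_mk (TrL.c (I.pos (nat_lit 0) (nat_lit 0)) (xa (xa (xb T1.l8 (xa T1.l8 T1.l8)) (xb T1.l8 T1.l8)) (xa T1.l8 (xb T1.l8 (xa T1.l8 T1.l8))))
  (TrL.c (I.pos (nat_lit 0) (nat_lit 0)) T1.l1
  (TrL.c (I.pos (nat_lit 0) (nat_lit 0)) T1.l2
  (TrL.c (I.pos (nat_lit 0) (nat_lit 0)) T1.l3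
  (TrL.c (I.pos (nat_lit 0) (nat_lit 0)) (xa T1.l1 (xa T1.l9 T1.l9))
  (TrL.c (I.pos (nat_lit 0) (nat_lit 0)) T1.l5
  (TrL.c (I.pos (nat_lit 0) (nat_lit 0)) T1.l6
  (TrL.c (I.pos (nat_lit 0) (nat_lit 0)) T1.l7
  TrL.n)))))))) (by decide +kernel)
theorem bx0_2 : BoxOK sI cl5 cl7 cl7 t1 t1 b0_2 :=
  box_mk (TrL.c (I.pos (nat_lit 0) (nat_lit 0)) (xb T1.l8 (xa T1.l8 T1.l8))
  (TrL.c (I.pos (nat_lit 0) (nat_lit 0)) T1.l1
  (TrL.c (I.pos (nat_lit 0) (nat_lit 0)) T1.l2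
  (TrL.c (I.pos (nat_lit 0) (nat_lit 0)) T1.l3
  (TrL.c (I.pos (nat_lit 0) (nat_lit 0)) (xb (xa T1.l9 T1.l11) T1.l11)
  (TrL.c (I.pos (nat_lit 0) (nat_lit 0)) T1.l5
  (TrL.c (I.pos (nat_lit 0) (nat_lit 0)) T1.l6
  (TrL.c (I.pos (nat_lit 0) (nat_lit 0)) T1.l7
  TrL.n)))))))) (by decide +kernel)
theorem bx0_3 : BoxOK sI cl5 cl7 cl7 t1 t1 b0_3 :=
  box_mk (TrL.c (I.pos (nat_lit 0) (nat_lit 0)) (xa (xa (xb T1.l8 T1.l8) T1.l8) T1.l8)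
  (TrL.c (I.pos (nat_lit 0) (nat_lit 0)) T1.l1
  (TrL.c (I.pos (nat_lit 0) (nat_lit 0)) T1.l2
  (TrL.c (I.pos (nat_lit 0) (nat_lit 0)) T1.l3
  (TrL.c (I.pos (nat_lit 0) (nat_lit 0)) T1.l1
  (TrL.c (I.pos (nat_lit 0) (nat_lit 0)) T1.l5
  (TrL.c (I.pos (nat_lit 0) (nat_lit 0)) T1.l6
  (TrL.c (I.pos (nat_lit 0) (nat_lit 0)) T1.l7
  TrL.n)))))))) (by decide +kernel)
theorem bx0_4 : BoxOK sI cl5 cl7 cl7 t1 t1 b0_4 :=
  box_mk (TrL.c (I.pos (nat_lit 0) (nat_lit 0)) (xa (xa (xb T1.l0 T1.l0) (xb T1.l0 T1.l0)) (xa (xb T1.l0 (xa T1.l0 T1.l0)) (xb (xa T1.l0 T1.l0) (xa T1.l0 (xb T1.l0 T1.l0)))))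
  (TrL.c (I.pos (nat_lit 0) (nat_lit 0)) (xa (xb T1.l1 T1.l1) (xb T1.l5 (xa T1.l1 T1.l5)))
  (TrL.c (I.pos (nat_lit 0) (nat_lit 0)) (xa T1.l2 T1.l2)
  (TrL.c (I.pos (nat_lit 0) (nat_lit 0)) T1.l3
  (TrL.c (I.pos (nat_lit 0) (nat_lit 0)) (xa (xb (xa T1.l4 T1.l4) T1.l4) (xb (xa (xb T1.l4 T1.l4) (xb (xa T1.l4 (xd T1.l4 T1.l4)) T1.l4)) (xa T1.l4 (xb (xa T1.l4 T1.l4) (xa T1.l4 (xs (xd T1.l4 T1.l4) (xd T1.l4 T1.l4)))))))
  (TrL.c (I.pos (nat_lit 0) (nat_lit 0)) (xa T1.l5 (xb T1.l1 (xa T1.l5 T1.l5)))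
  (TrL.c (I.pos (nat_lit 0) (nat_lit 0)) T1.l6
  (TrL.c (I.pos (nat_lit 0) (nat_lit 0)) (xa T1.l7 T1.l7)
  TrL.n)))))))) (by decide +kernel)
theorem bx0_5 : BoxOK sI cl5 cl7 cl7 t1 t1 b0_5 :=
  box_mk (TrL.c (I.pos (nat_lit 0) (nat_lit 0)) T1.l8
  (TrL.c (I.pos (nat_lit 0) (nat_lit 0)) T1.l1
  (TrL.c (I.pos (nat_lit 0) (nat_lit 0)) T1.l2
  (TrL.c (I.pos (nat_lit 0) (nat_lit 0)) T1.l3
  (TrL.c (I.pos (nat_lit 0) (nat_lit 0)) T1.l1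
  (TrL.c (I.pos (nat_lit 0) (nat_lit 0)) T1.l5
  (TrL.c (I.pos (nat_lit 0) (nat_lit 0)) T1.l6
  (TrL.c (I.pos (nat_lit 0) (nat_lit 0)) T1.l7
  TrL.n)))))))) (by decide +kernel)
theorem bx0_6 : BoxOK sI cl5 cl7 cl7 t1 t1 b0_6 :=
  box_mk (TrL.c (I.pos (nat_lit 0) (nat_lit 0)) (xa (xb T1.l8 T1.l8) T1.l0)
  (TrL.c (I.pos (nat_lit 0) (nat_lit 0)) T1.l1
  (TrL.c (I.pos (nat_lit 0) (nat_lit 0)) T1.l2
  (TrL.c (I.pos (nat_lit 0) (nat_lit 0)) T1.l3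
  (TrL.c (I.pos (nat_lit 0) (nat_lit 0)) (xa (xb T1.l9 T1.l9) T1.l11)
  (TrL.c (I.pos (nat_lit 0) (nat_lit 0)) T1.l1
  (TrL.c (I.pos (nat_lit 0) (nat_lit 0)) T1.l6
  (TrL.c (I.pos (nat_lit 0) (nat_lit 0)) T1.l7
  TrL.n)))))))) (by decide +kernel)
theorem bx0_7 : BoxOK sI cl5 cl7 cl7 t1 t1 b0_7 :=
  box_mk (TrL.c (I.pos (nat_lit 0) (nat_lit 0)) (xa (xa (xb (xa (xb T1.l8 T1.l8) T1.l8) T1.l8) T1.l8) T1.l8)
  (TrL.c (I.pos (nat_lit 0) (nat_lit 0)) T1.l1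
  (TrL.c (I.pos (nat_lit 0) (nat_lit 0)) T1.l2
  (TrL.c (I.pos (nat_lit 0) (nat_lit 0)) T1.l3
  (TrL.c (I.pos (nat_lit 0) (nat_lit 0)) (xa T1.l1 T1.l9)
  (TrL.c (I.pos (nat_lit 0) (nat_lit 0)) T1.l5
  (TrL.c (I.pos (nat_lit 0) (nat_lit 0)) T1.l6
  (TrL.c (I.pos (nat_lit 0) (nat_lit 0)) T1.l7
  TrL.n)))))))) (by decide +kernel)
theorem bx0_8 : BoxOK sI cl5 cl7 cl7 t1 t1 b0_8 :=
  box_mk (TrL.c (I.pos (nat_lit 0) (nat_lit 0)) (xb (xa (xb (xa T1.l10 T1.l10) (xa T1.l10 T1.l10)) (xb (xa T1.l10 T1.l10) (xa T1.l10 (xb T1.l10 T1.l10)))) (xa (xb (xa (xb T1.l10 T1.l10) (xb T1.l10 T1.l10)) (xa (xb (xs T1.l10 T1.l10) (xs T1.l10 (xa T1.l10 T1.l10))) (xb (xs T1.l10 T1.l10) (xs T1.l10 (xa T1.l10 T1.l10))))) (xb (xa (xb T1.l10 T1.l10) (xb T1.l10 (xs T1.l10 T1.l10))) (xa (xs (xb T1.l10 T1.l10) (xb T1.l10 (xa T1.l10 T1.l10))) (xs T1.l10 (xb (xa T1.l10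 T1.l10) (xa T1.l10 T1.l10)))))))
  (TrL.c (I.pos (nat_lit 0) (nat_lit 0)) (xb (xa T1.l1 T1.l1) (xa (xb T1.l1 T1.l1) (xb T1.l1 T1.l1)))
  (TrL.c (I.pos (nat_lit 0) (nat_lit 0)) T1.l2
  (TrL.c (I.pos (nat_lit 0) (nat_lit 0)) T1.l3
  (TrL.c (I.pos (nat_lit 0) (nat_lit 0)) (xb (xa T1.l11 (xb T1.l11 T1.l11)) (xa T1.l11 (xb T1.l11 T1.l11)))
  (TrL.c (I.pos (nat_lit 0) (nat_lit 0)) (xb (xa T1.l5 T1.l5) (xa T1.l5 T1.l5))
  (TrL.c (I.pos (nat_lit 0) (nat_lit 0)) T1.l6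
  (TrL.c (I.pos (nat_lit 0) (nat_lit 0)) T1.l7
  TrL.n)))))))) (by decide +kernel)
theorem bx0_9 : BoxOK sI cl5 cl7 cl7 t1 t1 b0_9 :=
  box_mk (TrL.c (I.pos (nat_lit 0) (nat_lit 0)) (xa (xa (xb (xa (xb (xa (xb (xa T1.l8 T1.l8) T1.l8) T1.l8) T1.l8) T1.l8) (xa (xb T1.l8 (xa (xb T1.l8 (xa T1.l8 T1.l8)) (xb T1.l8 T1.l8))) (xb T1.l8 (xa (xb T1.l8 T1.l8) T1.l8)))) (xb T1.l8 (xa (xb T1.l8 (xa T1.l8 T1.l8)) T1.l8))) (xa (xb T1.l8 T1.l8) (xb T1.l8 (xa T1.l8 T1.l8))))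
  (TrL.c (I.pos (nat_lit 0) (nat_lit 0)) (xa T1.l1 T1.l1)
  (TrL.c (I.pos (nat_lit 0) (nat_lit 0)) (xa T1.l2 T1.l2)
  (TrL.c (I.pos (nat_lit 0) (nat_lit 0)) T1.l3
  (TrL.c (I.pos (nat_lit 0) (nat_lit 0)) (xa T1.l1 (xa T1.l9 (xb T1.l9 T1.l9)))
  (TrL.c (I.pos (nat_lit 0) (nat_lit 0)) (xa T1.l5 T1.l5)
  (TrL.c (I.pos (nat_lit 0) (nat_lit 0)) T1.l6
  (TrL.c (I.pos (nat_lit 0) (nat_lit 0)) (xa T1.l7 T1.l7)
  TrL.n)))))))) (by decide +kernel)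
theorem bx0_10 : BoxOK sI cl5 cl7 cl7 t1 t1 b0_10 :=
  box_mk (TrL.c (I.pos (nat_lit 0) (nat_lit 0)) (xa (xb T1.l10 (xa T1.l10 T1.l10)) (xb T1.l0 T1.l0))
  (TrL.c (I.pos (nat_lit 0) (nat_lit 0)) (xa T1.l1 T1.l1)
  (TrL.c (I.pos (nat_lit 0) (nat_lit 0)) T1.l2
  (TrL.c (I.pos (nat_lit 0) (nat_lit 0)) T1.l3
  (TrL.c (I.pos (nat_lit 0) (nat_lit 0)) (xa T1.l11 T1.l11)
  (TrL.c (I.pos (nat_lit 0) (nat_lit 0)) T1.l1
  (TrL.c (I.pos (nat_lit 0) (nat_lit 0)) T1.l6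
  (TrL.c (I.pos (nat_lit 0) (nat_lit 0)) T1.l7
  TrL.n)))))))) (by decide +kernel)
theorem bx0_11 : BoxOK sI cl5 cl7 cl7 t1 t1 b0_11 :=
  box_mk (TrL.c (I.pos (nat_lit 0) (nat_lit 0)) (xb (xa T1.l10 T1.l10) (xa T1.l10 (xb T1.l10 T1.l10)))
  (TrL.c (I.pos (nat_lit 0) (nat_lit 0)) (xb T1.l1 T1.l1)
  (TrL.c (I.pos (nat_lit 0) (nat_lit 0)) T1.l2
  (TrL.c (I.pos (nat_lit 0) (nat_lit 0)) T1.l3
  (TrL.c (I.pos (nat_lit 0) (nat_lit 0)) (xb (xa T1.l11 T1.l11) T1.l11)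
  (TrL.c (I.pos (nat_lit 0) (nat_lit 0)) T1.l1
  (TrL.c (I.pos (nat_lit 0) (nat_lit 0)) T1.l6
  (TrL.c (I.pos (nat_lit 0) (nat_lit 0)) T1.l7
  TrL.n)))))))) (by decide +kernel)
theorem bx0_12 : BoxOK sI cl5 cl7 cl7 t1 t1 b0_12 :=
  box_mk (TrL.c (I.pos (nat_lit 0) (nat_lit 0)) T1.l8
  (TrL.c (I.pos (nat_lit 0) (nat_lit 0)) T1.l1
  (TrL.c (I.pos (nat_lit 0) (nat_lit 0)) T1.l2
  (TrL.c (I.pos (nat_lit 0) (nat_lit 0)) T1.l3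
  (TrL.c (I.pos (nat_lit 0) (nat_lit 0)) T1.l9
  (TrL.c (I.pos (nat_lit 0) (nat_lit 0)) T1.l5
  (TrL.c (I.pos (nat_lit 0) (nat_lit 0)) T1.l6
  (TrL.c (I.pos (nat_lit 0) (nat_lit 0)) T1.l7
  TrL.n)))))))) (by decide +kernel)
theorem bx0_13 : BoxOK sI cl5 cl7 cl7 t1 t1 b0_13 :=
  box_mk (TrL.c (I.pos (nat_lit 0) (nat_lit 0)) (xa (xb (xa (xb T1.l0 T1.l0) (xb T1.l0 T1.l0)) (xa (xb T1.l0 (xs T1.l0 T1.l0)) (xb T1.l0 T1.l0))) (xb (xa T1.l0 T1.l0) (xa (xb T1.l0 (xs T1.l0 T1.l0)) (xb T1.l0 (xs T1.l0 T1.l0)))))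
  (TrL.c (I.pos (nat_lit 0) (nat_lit 0)) (xa (xb T1.l1 T1.l1) (xb T1.l1 T1.l1))
  (TrL.c (I.pos (nat_lit 0) (nat_lit 0)) T1.l2
  (TrL.c (I.pos (nat_lit 0) (nat_lit 0)) T1.l3
  (TrL.c (I.pos (nat_lit 0) (nat_lit 0)) (xb (xa T1.l4 T1.l4) (xa T1.l4 T1.l4))
  (TrL.c (I.pos (nat_lit 0) (nat_lit 0)) (xa T1.l5 T1.l5)
  (TrL.c (I.pos (nat_lit 0) (nat_lit 0)) T1.l6
  (TrL.c (I.pos (nat_lit 0) (nat_lit 0)) T1.l7
  TrL.n)))))))) (by decide +kernel)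
theorem sv0 : StarV sI cl5 cl7 cl7 t1 t1 t0 :=
  (bt_n (bt_n (bt_n (bt_b bx0_0) (bt_n (bt_b bx0_1) (bt_b bx0_2))) (bt_n (bt_n (bt_b bx0_3) (bt_b bx0_4)) (bt_n (bt_b bx0_5) (bt_b bx0_6)))) (bt_n (bt_n (bt_b bx0_7) (bt_n (bt_b bx0_8) (bt_b bx0_9))) (bt_n (bt_n (bt_b bx0_10) (bt_b bx0_11)) (bt_n (bt_b bx0_12) (bt_b bx0_13)))))
def S0 : StarD := StarD.mk cl5 cl7 cl7 1 1 t0
theorem bx1_0 : BoxOK sI cl7 cl5 cl7 t0 t2 b1_0 :=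
  box_mk (TrL.c (I.pos (nat_lit 0) (nat_lit 0)) (xa (xb (xa (xb T0.l0 T0.l0) (xb T0.l0 T0.l0)) (xa (xb (xa (xb T0.l0 T0.l0) T0.l0) (xa (xb (xc T0.l0 T0.l0) (xs T0.l0 (xc T0.l0 T0.l0))) (xb T0.l0 (xs T0.l0 T0.l0)))) (xb (xa T0.l0 T0.l0) (xa (xb T0.l0 (xs T0.l0 T0.l0)) (xb T0.l0 (xs T0.l0 T0.l0)))))) (xb (xa (xb T0.l0 T0.l0) T0.l0) (xa (xb T0.l0 (xa (xs T0.l0 T0.l0) (xs T0.l0 T0.l0))) (xb T0.l0 (xa (xs T0.l0 T0.l0) (xs T0.l0 T0.l0))))))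
  (TrL.c (I.pos (nat_lit 0) (nat_lit 0)) (xa (xb T2.l1 (xk (xa T2.l1 T2.l1) (xa T2.l1 T2.l1))) (xb (xk T2.l1 T2.l1) (xk (xa T2.l1 T2.l1) (xa T2.l1 T2.l1))))
  (TrL.c (I.pos (nat_lit 0) (nat_lit 111196574)) (xR T0.l1 (xR T0.l1 T0.l1))
  (TrL.c (I.pos (nat_lit 0) (nat_lit 77433728)) (xR T2.l2 T2.l2)
  (TrL.c (I.pos (nat_lit 0) (nat_lit 0)) (xb (xa T2.l3 (xk T2.l3 T2.l3)) (xa (xk T2.l3 T2.l3) (xk (xa T2.l3 T2.l3) T2.l3)))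
  (TrL.c (I.pos (nat_lit 0) (nat_lit 0)) (xb T0.l2 (xa T0.l2 T0.l2))
  (TrL.c (I.mix (nat_lit 29511666) (nat_lit 77433728)) (xR T2.l4 (xR T2.l4 (xR T2.l4 T2.l4)))
  (TrL.c (I.mix (nat_lit 29511666) (nat_lit 46070178)) T0.l3
  TrL.n)))))))) (by decide +kernel)
theorem bx1_1 : BoxOK sI cl7 cl5 cl7 t0 t2 b1_1 :=
  box_mk (TrL.c (I.pos (nat_lit 0) (nat_lit 0)) (xa (xb (xa T0.l4 T0.l4) (xa T0.l4 T0.l4)) (xb (xa T0.l4 T0.l4) T0.l0))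
  (TrL.c (I.pos (nat_lit 0) (nat_lit 0)) (xa T2.l1 T2.l1)
  (TrL.c (I.pos (nat_lit 0) (nat_lit 111196574)) T0.l1
  (TrL.c (I.pos (nat_lit 0) (nat_lit 77433728)) T2.l2
  (TrL.c (I.pos (nat_lit 0) (nat_lit 0)) (xa (xb (xa T2.l5 T2.l5) T2.l5) (xb (xk (xa T2.l5 T2.l5) (xa T2.l5 T2.l5)) (xk (xa T2.l5 T2.l3) (xa T2.l5 T2.l5))))
  (TrL.c (I.pos (nat_lit 0) (nat_lit 0)) (xa T0.l2 T0.l2)
  (TrL.c (I.mix (nat_lit 29511666) (nat_lit 77433728)) T2.l7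
  (TrL.c (I.mix (nat_lit 29511666) (nat_lit 46070178)) T0.l3
  TrL.n)))))))) (by decide +kernel)
theorem bx1_2 : BoxOK sI cl7 cl5 cl7 t0 t2 b1_2 :=
  box_mk (TrL.c (I.pos (nat_lit 0) (nat_lit 0)) (xb T0.l4 (xa T0.l4 (xb T0.l4 (xa T0.l4 T0.l4))))
  (TrL.c (I.pos (nat_lit 0) (nat_lit 0)) T2.l1
  (TrL.c (I.pos (nat_lit 0) (nat_lit 111196574)) T0.l1
  (TrL.c (I.pos (nat_lit 0) (nat_lit 77433728)) T2.l2
  (TrL.c (I.pos (nat_lit 0) (nat_lit 0)) T2.l5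
  (TrL.c (I.pos (nat_lit 0) (nat_lit 0)) T0.l2
  (TrL.c (I.mix (nat_lit 29511666) (nat_lit 77433728)) T2.l4
  (TrL.c (I.mix (nat_lit 29511666) (nat_lit 46070178)) T0.l3
  TrL.n)))))))) (by decide +kernel)
theorem bx1_3 : BoxOK sI cl7 cl5 cl7 t0 t2 b1_3 :=
  box_mk (TrL.c (I.pos (nat_lit 0) (nat_lit 0)) (xb T2.l1 T2.l1)
  (TrL.c (I.pos (nat_lit 0) (nat_lit 0)) T0.l1
  (TrL.c (I.mix (nat_lit 29511666) (nat_lit 77433728)) T2.l4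
  (TrL.c (I.mix (nat_lit 29511666) (nat_lit 46070178)) T0.l1
  TrL.n)))) (by decide +kernel)
theorem bx1_4 : BoxOK sI cl7 cl5 cl7 t0 t2 b1_4 :=
  box_mk (TrL.c (I.pos (nat_lit 0) (nat_lit 0)) (xb (xa T0.l13 (xb T0.l13 (xa T0.l13 T0.l13))) (xa (xb (xa T0.l13 T0.l13) (xa (xs T0.l13 (xb T0.l13 T0.l13)) (xs T0.l13 T0.l13))) (xb (xa T0.l13 T0.l13) (xa (xs T0.l13 T0.l13) (xs T0.l13 T0.l13)))))
  (TrL.c (I.pos (nat_lit 0) (nat_lit 0)) (xb (xk T2.l1 T2.l1) (xk (xa T2.l1 T2.l1) (xa T2.l1 T2.l1)))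
  (TrL.c (I.pos (nat_lit 0) (nat_lit 111196574)) (xR T0.l1 T0.l1)
  (TrL.c (I.pos (nat_lit 0) (nat_lit 77433728)) T2.l2
  (TrL.c (I.pos (nat_lit 0) (nat_lit 0)) (xb (xk T2.l3 T2.l3) (xk T2.l3 T2.l3))
  (TrL.c (I.pos (nat_lit 0) (nat_lit 0)) (xb T0.l2 T0.l2)
  (TrL.c (I.mix (nat_lit 29511666) (nat_lit 77433728)) (xR T2.l4 T2.l4)
  (TrL.c (I.mix (nat_lit 29511666) (nat_lit 46070178)) T0.l7
  TrL.n)))))))) (by decide +kernel)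
theorem bx1_5 : BoxOK sI cl7 cl5 cl7 t0 t2 b1_5 :=
  box_mk (TrL.c (I.pos (nat_lit 0) (nat_lit 0)) (xb (xa (xb T0.l4 T0.l4) T0.l4) (xa (xb T0.l4 T0.l4) T0.l4))
  (TrL.c (I.pos (nat_lit 0) (nat_lit 0)) (xb T2.l1 T2.l1)
  (TrL.c (I.pos (nat_lit 0) (nat_lit 111196574)) T0.l1
  (TrL.c (I.pos (nat_lit 0) (nat_lit 77433728)) T2.l2
  (TrL.c (I.pos (nat_lit 0) (nat_lit 0)) (xb (xa T2.l5 T2.l5) (xb T2.l5 T2.l5))
  (TrL.c (I.pos (nat_lit 0) (nat_lit 0)) T0.l2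
  (TrL.c (I.mix (nat_lit 29511666) (nat_lit 77433728)) T2.l4
  (TrL.c (I.mix (nat_lit 29511666) (nat_lit 46070178)) T0.l3
  TrL.n)))))))) (by decide +kernel)
theorem bx1_6 : BoxOK sI cl7 cl5 cl7 t0 t2 b1_6 :=
  box_mk (TrL.c (I.pos (nat_lit 0) (nat_lit 0)) (xb (xa T0.l4 T0.l4) (xa (xb T0.l4 (xa T0.l4 T0.l4)) T0.l4))
  (TrL.c (I.pos (nat_lit 0) (nat_lit 0)) (xb T2.l1 T2.l1)
  (TrL.c (I.pos (nat_lit 0) (nat_lit 111196574)) T0.l1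
  (TrL.c (I.pos (nat_lit 0) (nat_lit 77433728)) T2.l2
  (TrL.c (I.pos (nat_lit 0) (nat_lit 0)) T2.l5
  (TrL.c (I.pos (nat_lit 0) (nat_lit 0)) T0.l2
  (TrL.c (I.mix (nat_lit 29511666) (nat_lit 77433728)) T2.l4
  (TrL.c (I.mix (nat_lit 29511666) (nat_lit 46070178)) T0.l3
  TrL.n)))))))) (by decide +kernel)
theorem bx1_7 : BoxOK sI cl7 cl5 cl7 t0 t2 b1_7 :=
  box_mk (TrL.c (I.pos (nat_lit 0) (nat_lit 0)) T2.l1
  (TrL.c (I.pos (nat_lit 0) (nat_lit 0)) T0.l1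
  (TrL.c (I.mix (nat_lit 29511666) (nat_lit 77433728)) T2.l6
  (TrL.c (I.mix (nat_lit 29511666) (nat_lit 46070178)) T0.l7
  TrL.n)))) (by decide +kernel)
theorem c1_8_0 : chkTag sI cl7 cl5 cl7 t0 b1_8 (tg true true false RT.r2) (I.pos (nat_lit 0) (nat_lit 0))
  (xa (xb (xa (xb T0.l0 (xc T0.l0 T0.l0)) (xb T0.l0 T0.l0)) (xa (xb (xc T0.l0 T0.l0) (xc (xa T0.l0 T0.l0) T0.l0)) (xb (xc T0.l0 T0.l0) (xc (xa T0.l0 T0.l0) (xa T0.l0 T0.l0))))) (xb (xa (xb T0.l0 T0.l0) (xb T0.l0 (xa T0.l0 T0.l0))) (xa (xb (xa T0.l0 T0.l0) (xa T0.l8 T0.l8)) (xb (xa T0.l0 T0.l0) (xa (xc T0.l0 T0.l0) (xc T0.l0 T0.l0)))))) = true := by decide +kernel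
theorem c1_8_1 : chkTag sI cl7 cl5 cl7 t2 b1_8 (tg true false false RT.r3) (I.pos (nat_lit 0) (nat_lit 0))
  (xa (xb (xk T2.l8 T2.l1) (xk (xa T2.l1 T2.l8) (xa T2.l1 T2.l1))) (xb (xk T2.l8 T2.l8) (xk (xa T2.l8 T2.l8) (xa T2.l8 T2.l8)))) = true := by decide +kernel
theorem c1_8_2 : chkTag sI cl7 cl5 cl7 t0 b1_8 (Tag.mk true true false RT.tl RT.r4) (I.pos (nat_lit 0) (nat_lit 111196574))
  (xR T0.l1 (xR T0.l1 (xa T0.l1 T0.l9))) = true := by decide +kernel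
theorem c1_8_3 : chkTag sI cl7 cl5 cl7 t2 b1_8 (Tag.mk true false false RT.tl RT.r5) (I.pos (nat_lit 0) (nat_lit 77433728))
  (xR T2.l2 (xR T2.l2 (xR T2.l2 T2.l2))) = true := by decide +kernel
theorem c1_8_4 : chkTag sI cl7 cl5 cl7 t2 b1_8 (tg false false false RT.r3) (I.pos (nat_lit 0) (nat_lit 0))
  (xa (xb (xa (xk (xb (xa T2.l3 T2.l3) T2.l3) (xb T2.l3 T2.l3)) (xk (xb (xa T2.l3 (xk T2.l3 T2.l3)) T2.l3) (xb (xa T2.l3 (xk T2.l3 T2.l3)) T2.l3))) (xk (xa T2.l3 T2.l3) T2.l3)) (xb (xk (xa (xb (xk (xa T2.l3 T2.l3) (xa T2.l3 T2.l3)) T2.l3) (xb (xk (xa (xb T2.l3 T2.l3) (xb T2.l3 T2.l3)) (xa (xb T2.l3 T2.l3) (xb T2.l3 T2.l3))) (xk (xa T2.l3 (xb T2.l3 T2.l3)) (xa T2.l3 (xb T2.l3 T2.l3))))) (xa (xb (xa (xk T2.l3 T2.l3) (xk T2.l3 T2.l3)) T2.l3) (xb (xa (xk (xb T2.l3 T2.l3) (xb T2.l3 T2.l3)) (xk (xb T2.l3 T2.l3) (xb T2.l3 T2.l3))) (xk (xa T2.l3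 (xb T2.l3 T2.l3)) (xa T2.l3 T2.l3))))) (xa (xk (xb T2.l3 (xk T2.l3 T2.l3)) (xb T2.l3 (xa T2.l3 T2.l3))) (xk (xb (xk (xa T2.l3 (xb T2.l3 T2.l3)) (xa T2.l3 (xb T2.l3 T2.l3))) (xa (xk T2.l3 T2.l3) (xk (xb T2.l3 T2.l3) (xb T2.l3 T2.l3)))) (xb (xk (xa T2.l3 (xb T2.l3 T2.l3)) (xa T2.l3 T2.l3)) (xa (xk T2.l3 T2.l3) (xk (xb T2.l3 T2.l3) (xb T2.l3 T2.l3)))))))) = true := by decide +kernel
theorem c1_8_5 : chkTag sI cl7 cl5 cl7 t0 b1_8 (tg false true false RT.r4) (I.pos (nat_lit 0) (nat_lit 0))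
  (xa (xb (xk T0.l2 T0.l2) T0.l2) (xb (xk (xa T0.l2 (xb T0.l2 T0.l2)) (xa T0.l2 T0.l2)) (xk (xa T0.l2 (xb T0.l2 T0.l2)) (xa T0.l2 (xb T0.l2 T0.l2))))) = true := by decide +kernel
theorem c1_8_6 : chkTag sI cl7 cl5 cl7 t2 b1_8 (Tag.mk false false false RT.tl RT.r5) (I.mix (nat_lit 29511666) (nat_lit 77433728))
  (xR T2.l4 (xR T2.l4 (xR (xb T2.l4 T2.l4) (xb (xa T2.l4 (xk T2.l7 T2.l4)) (xa T2.l4 (xk T2.l4 T2.l4)))))) = true := by decide +kernel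
theorem c1_8_7 : chkTag sI cl7 cl5 cl7 t0 b1_8 (Tag.mk false true false RT.tl RT.r6) (I.mix (nat_lit 29511666) (nat_lit 46070178))
  (xR T0.l3 (xR T0.l3 T0.l3)) = true := by decide +kernel
theorem bx1_8 : BoxOK sI cl7 cl5 cl7 t0 t2 b1_8 :=
  box_mk' [(tg true true false RT.r2), (tg true false false RT.r3), (Tag.mk true true false RT.tl RT.r4), (Tag.mk true false false RT.tl RT.r5), (tg false false false RT.r3), (tg false true false RT.r4), (Tag.mk false false false RT.tl RT.r5), (Tag.mk false true false RT.tl RT.r6)] rfl (allL_c (ex_mk c1_8_0) (allL_c (ex_mk c1_8_1) (allL_c (ex_mk c1_8_2) (allL_c (ex_mk c1_8_3) (allL_c (ex_mk c1_8_4) (allL_c (ex_mk c1_8_5) (allL_c (ex_mk c1_8_6) (allL_c (ex_mk c1_8_7) allL_n))))))))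
theorem bx1_9 : BoxOK sI cl7 cl5 cl7 t0 t2 b1_9 :=
  box_mk (TrL.c (I.pos (nat_lit 0) (nat_lit 0)) (xa (xb T0.l0 T0.l13) T0.l0)
  (TrL.c (I.pos (nat_lit 0) (nat_lit 0)) T2.l1
  (TrL.c (I.pos (nat_lit 0) (nat_lit 111196574)) T0.l1
  (TrL.c (I.pos (nat_lit 0) (nat_lit 77433728)) T2.l2
  (TrL.c (I.pos (nat_lit 0) (nat_lit 0)) (xk (xa (xb T2.l5 T2.l13) T2.l3) (xa T2.l5 T2.l3))
  (TrL.c (I.pos (nat_lit 0) (nat_lit 0)) T0.l2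
  (TrL.c (I.mix (nat_lit 29511666) (nat_lit 77433728)) T2.l4
  (TrL.c (I.mix (nat_lit 29511666) (nat_lit 46070178)) T0.l3
  TrL.n)))))))) (by decide +kernel)
theorem bx1_10 : BoxOK sI cl7 cl5 cl7 t0 t2 b1_10 :=
  box_mk (TrL.c (I.pos (nat_lit 0) (nat_lit 0)) (xa (xb (xa (xb T0.l0 T0.l0) (xb T0.l0 T0.l0)) (xb (xa (xs T0.l0 T0.l0) T0.l0) (xa (xs T0.l0 (xb T0.l0 T0.l0)) (xs T0.l0 (xk T0.l0 T0.l0))))) (xb (xa T0.l0 (xb T0.l0 T0.l0)) (xa (xb (xs T0.l0 T0.l0) (xs T0.l0 (xk T0.l0 T0.l0))) (xb (xs T0.l0 T0.l0) (xs T0.l0 T0.l8)))))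
  (TrL.c (I.pos (nat_lit 0) (nat_lit 0)) (xk (xa (xb T2.l1 (xb T2.l1 T2.l1)) (xb T2.l1 (xb T2.l1 T2.l1))) (xb (xa T2.l1 T2.l1) (xa (xb T2.l1 T2.l1) (xb T2.l1 T2.l1))))
  (TrL.c (I.pos (nat_lit 0) (nat_lit 111196574)) (xR T0.l1 T0.l1)
  (TrL.c (I.pos (nat_lit 0) (nat_lit 77433728)) (xR T2.l2 T2.l2)
  (TrL.c (I.pos (nat_lit 0) (nat_lit 0)) (xb (xa T2.l3 (xk T2.l3 T2.l3)) (xk (xa T2.l3 (xb T2.l3 T2.l3)) (xa T2.l3 (xb T2.l3 (xs T2.l3 (xk T2.l3 T2.l3))))))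
  (TrL.c (I.pos (nat_lit 0) (nat_lit 0)) (xk T0.l2 T0.l2)
  (TrL.c (I.mix (nat_lit 29511666) (nat_lit 77433728)) (xR T2.l4 (xR T2.l4 T2.l7))
  (TrL.c (I.mix (nat_lit 29511666) (nat_lit 46070178)) T0.l3
  TrL.n)))))))) (by decide +kernel)
theorem bx1_11 : BoxOK sI cl7 cl5 cl7 t0 t2 b1_11 :=
  box_mk (TrL.c (I.pos (nat_lit 0) (nat_lit 0)) (xb (xa (xb T0.l13 T0.l13) (xb T0.l13 T0.l13)) (xa (xb T0.l13 (xa T0.l13 T0.l13)) (xb T0.l13 (xa T0.l13 T0.l13))))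
  (TrL.c (I.pos (nat_lit 0) (nat_lit 0)) (xb (xk (xa T2.l1 T2.l1) T2.l1) (xk (xa T2.l1 T2.l1) (xa T2.l1 T2.l1)))
  (TrL.c (I.pos (nat_lit 0) (nat_lit 111196574)) (xR T0.l1 T0.l1)
  (TrL.c (I.pos (nat_lit 0) (nat_lit 77433728)) T2.l2
  (TrL.c (I.pos (nat_lit 0) (nat_lit 0)) (xb (xk (xa T2.l3 T2.l3) (xa T2.l3 T2.l3)) (xk (xb T2.l3 T2.l3) (xb T2.l3 (xa T2.l0 T2.l3))))
  (TrL.c (I.pos (nat_lit 0) (nat_lit 0)) T0.l2
  (TrL.c (I.mix (nat_lit 29511666) (nat_lit 77433728)) (xR T2.l4 T2.l7)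
  (TrL.c (I.mix (nat_lit 29511666) (nat_lit 46070178)) T0.l7
  TrL.n)))))))) (by decide +kernel)
theorem sv1 : StarV sI cl7 cl5 cl7 t0 t2 t1 :=
  (bt_n (bt_n (bt_n (bt_b bx1_0) (bt_n (bt_b bx1_1) (bt_b bx1_2))) (bt_n (bt_b bx1_3) (bt_n (bt_b bx1_4) (bt_b bx1_5)))) (bt_n (bt_n (bt_b bx1_6) (bt_n (bt_b bx1_7) (bt_b bx1_8))) (bt_n (bt_b bx1_9) (bt_n (bt_b bx1_10) (bt_b bx1_11)))))
def S1 : StarD := StarD.mk cl7 cl5 cl7 0 2 t1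
theorem c2_0_0 : chkTag sI cl7 cl7 cl5 t2 b2_0 (tg true true false RT.r2) (I.pos (nat_lit 0) (nat_lit 0))
  (xa (xb (xa (xb (xa T2.l0 T2.l0) (xa T2.l11 T2.l0)) (xb T2.l0 (xa T2.l0 T2.l0))) (xa (xb (xa (xc T2.l0 T2.l0) (xc T2.l0 T2.l0)) (xa (xs (xc T2.l0 T2.l0) (xc T2.l0 (xb T2.l0 T2.l0))) (xs T2.l0 (xc T2.l0 T2.l0)))) (xb (xa T2.l0 T2.l0) (xa (xs T2.l0 (xc T2.l0 T2.l0)) (xs T2.l0 T2.l0))))) (xb (xa (xb (xa T2.l0 T2.l0) T2.l0) (xb (xa T2.l0 T2.l0) (xa T2.l0 T2.l0))) (xa (xb (xa T2.l0 T2.l0) (xa (xs T2.l0 T2.l0) T2.l0)) (xb (xs T2.l0 T2.l0) (xa T2.l0 T2.l0))))) = true := by decide +kernel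
theorem c2_0_1 : chkTag sI cl7 cl7 cl5 t0 b2_0 (tg true false false RT.r3) (I.pos (nat_lit 0) (nat_lit 0))
  (xa (xb (xk (xa T0.l6 T0.l6) T0.l6) (xk (xa (xb T0.l6 T0.l6) (xb T0.l6 T0.l6)) (xa (xb T0.l6 T0.l6) (xb T0.l6 T0.l6)))) (xb (xk (xa T0.l6 T0.l6) (xa T0.l6 T0.l6)) (xk (xa (xb T0.l6 T0.l6) (xb T0.l6 T0.l2)) (xa (xb T0.l6 T0.l6) (xb T0.l6 T0.l6))))) = true := by decide +kernel
theorem c2_0_2 : chkTag sI cl7 cl7 cl5 t2 b2_0 (Tag.mk true true false RT.tl RT.r4) (I.pos (nat_lit 0) (nat_lit 111196574))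
  (xR T2.l7 (xR T2.l7 T2.l7)) = true := by decide +kernel
theorem c2_0_3 : chkTag sI cl7 cl7 cl5 t0 b2_0 (Tag.mk true false false RT.tl RT.r5) (I.pos (nat_lit 0) (nat_lit 77433728))
  (xR T0.l7 (xR T0.l7 T0.l7)) = true := by decide +kernel
theorem c2_0_4 : chkTag sI cl7 cl7 cl5 t0 b2_0 (tg false false false RT.r3) (I.pos (nat_lit 0) (nat_lit 0))
  (xa (xb (xk T0.l8 T0.l8) (xk (xa T0.l8 T0.l8) T0.l8)) (xb (xk (xa T0.l8 (xb T0.l8 T0.l8)) (xa T0.l8 (xb T0.l8 T0.l8))) (xk (xa (xb T0.l11 T0.l8) (xb T0.l8 (xk (xs T0.l8 T0.l8) (xs T0.l8 (xb T0.l8 T0.l8))))) (xa (xb T0.l8 (xs T0.l8 T0.l8)) (xb T0.l8 (xk (xs T0.l8 (xb T0.l8 (xa T0.l8 T0.l8))) (xs T0.l8 (xb T0.l8 (xa T0.l11 (xd T0.l8 T0.l8)))))))))) = true := by decide +kernel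
theorem c2_0_5 : chkTag sI cl7 cl7 cl5 t2 b2_0 (tg false true false RT.r4) (I.pos (nat_lit 0) (nat_lit 0))
  (xk (xa T2.l8 (xb T2.l8 T2.l8)) (xa T2.l8 (xb T2.l8 T2.l8))) = true := by decide +kernel
theorem c2_0_6 : chkTag sI cl7 cl7 cl5 t0 b2_0 (Tag.mk false false false RT.tl RT.r5) (I.mix (nat_lit 29511666) (nat_lit 77433728))
  (xR T0.l9 (xR T0.l9 (xR T0.l9 (xa T0.l9 T0.l9)))) = true := by decide +kernel
theorem c2_0_7 : chkTag sI cl7 cl7 cl5 t2 b2_0 (Tag.mk false true false RT.tl RT.r6) (I.mix (nat_lit 29511666) (nat_lit 46070178))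
  T2.l9 = true := by decide +kernel
theorem bx2_0 : BoxOK sI cl7 cl7 cl5 t2 t0 b2_0 :=
  box_mk' [(tg true true false RT.r2), (tg true false false RT.r3), (Tag.mk true true false RT.tl RT.r4), (Tag.mk true false false RT.tl RT.r5), (tg false false false RT.r3), (tg false true false RT.r4), (Tag.mk false false false RT.tl RT.r5), (Tag.mk false true false RT.tl RT.r6)] rfl (allL_c (ex_mk c2_0_0) (allL_c (ex_mk c2_0_1) (allL_c (ex_mk c2_0_2) (allL_c (ex_mk c2_0_3) (allL_c (ex_mk c2_0_4) (allL_c (ex_mk c2_0_5) (allL_c (ex_mk c2_0_6) (allL_c (ex_mk c2_0_7) allL_n))))))))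
theorem bx2_1 : BoxOK sI cl7 cl7 cl5 t2 t0 b2_1 :=
  box_mk (TrL.c (I.pos (nat_lit 0) (nat_lit 0)) (xa (xb T2.l0 (xa T2.l10 T2.l10)) T2.l0)
  (TrL.c (I.pos (nat_lit 0) (nat_lit 0)) (xa T0.l6 T0.l6)
  (TrL.c (I.pos (nat_lit 0) (nat_lit 111196574)) T2.l7
  (TrL.c (I.pos (nat_lit 0) (nat_lit 77433728)) T0.l7
  (TrL.c (I.pos (nat_lit 0) (nat_lit 0)) (xa (xb (xk T0.l10 T0.l10) T0.l10) (xb (xk (xa T0.l10 T0.l10) T0.l10) (xk T0.l10 T0.l10)))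
  (TrL.c (I.pos (nat_lit 0) (nat_lit 0)) T2.l8
  (TrL.c (I.mix (nat_lit 29511666) (nat_lit 77433728)) (xR T0.l9 T0.l9)
  (TrL.c (I.mix (nat_lit 29511666) (nat_lit 46070178)) T2.l9
  TrL.n)))))))) (by decide +kernel)
theorem bx2_2 : BoxOK sI cl7 cl7 cl5 t2 t0 b2_2 :=
  box_mk (TrL.c (I.pos (nat_lit 0) (nat_lit 0)) (xa (xa (xb T2.l10 T2.l10) T2.l10) (xa T2.l10 T2.l10))
  (TrL.c (I.pos (nat_lit 0) (nat_lit 0)) (xa T0.l10 T0.l6)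
  (TrL.c (I.pos (nat_lit 0) (nat_lit 111196574)) T2.l7
  (TrL.c (I.pos (nat_lit 0) (nat_lit 77433728)) T0.l7
  (TrL.c (I.pos (nat_lit 0) (nat_lit 0)) (xa T0.l10 T0.l10)
  (TrL.c (I.pos (nat_lit 0) (nat_lit 0)) T2.l8
  (TrL.c (I.mix (nat_lit 29511666) (nat_lit 77433728)) T0.l9
  (TrL.c (I.mix (nat_lit 29511666) (nat_lit 46070178)) T2.l9
  TrL.n)))))))) (by decide +kernel)
theorem bx2_3 : BoxOK sI cl7 cl7 cl5 t2 t0 b2_3 :=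
  box_mk (TrL.c (I.pos (nat_lit 0) (nat_lit 0)) (xb (xa (xb (xa T2.l11 T2.l11) (xa T2.l11 T2.l11)) (xb (xa (xb T2.l11 T2.l11) (xb T2.l0 T2.l0)) (xa T2.l11 T2.l11))) (xa (xb (xa T2.l11 T2.l11) (xa (xs T2.l11 (xb T2.l11 T2.l11)) (xs T2.l11 (xb T2.l11 T2.l11)))) (xb (xa T2.l11 T2.l11) (xa (xs T2.l11 (xb T2.l11 T2.l11)) (xs T2.l11 (xb T2.l11 T2.l11))))))
  (TrL.c (I.pos (nat_lit 0) (nat_lit 0)) (xb (xk (xa (xb T0.l6 T0.l6) T0.l6) (xa (xb T0.l6 T0.l6) T0.l6)) (xk (xa (xb T0.l6 T0.l6) (xb T0.l6 T0.l6)) (xa (xb T0.l6 T0.l6) (xb T0.l6 T0.l6))))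
  (TrL.c (I.pos (nat_lit 0) (nat_lit 111196574)) (xR T2.l7 T2.l7)
  (TrL.c (I.pos (nat_lit 0) (nat_lit 77433728)) (xR T0.l7 T0.l7)
  (TrL.c (I.pos (nat_lit 0) (nat_lit 0)) (xb (xk (xa T0.l11 (xb T0.l11 T0.l11)) (xa T0.l11 (xb T0.l11 T0.l11))) (xk (xa T0.l11 (xb T0.l11 (xb T0.l8 T0.l11))) (xa T0.l11 (xb T0.l11 (xb (xs T0.l11 T0.l11) (xs T0.l8 (xk T0.l11 T0.l11)))))))
  (TrL.c (I.pos (nat_lit 0) (nat_lit 0)) (xk (xb T2.l8 T2.l8) T2.l8)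
  (TrL.c (I.mix (nat_lit 29511666) (nat_lit 77433728)) (xR T0.l9 (xR T0.l9 T0.l9))
  (TrL.c (I.mix (nat_lit 29511666) (nat_lit 46070178)) T2.l9
  TrL.n)))))))) (by decide +kernel)
theorem bx2_4 : BoxOK sI cl7 cl7 cl5 t2 t0 b2_4 :=
  box_mk (TrL.c (I.pos (nat_lit 0) (nat_lit 0)) (xa (xa (xb (xa T2.l10 T2.l10) (xa (xb T2.l10 (xa T2.l10 T2.l10)) (xb T2.l10 T2.l10))) (xb T2.l10 (xa T2.l10 T2.l10))) (xa (xb T2.l10 T2.l10) (xb T2.l10 (xa T2.l10 T2.l10))))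
  (TrL.c (I.pos (nat_lit 0) (nat_lit 0)) (xa (xa T0.l6 T0.l6) (xa T0.l6 T0.l6))
  (TrL.c (I.pos (nat_lit 0) (nat_lit 111196574)) T2.l7
  (TrL.c (I.pos (nat_lit 0) (nat_lit 77433728)) T0.l7
  (TrL.c (I.pos (nat_lit 0) (nat_lit 0)) (xa (xa T0.l10 T0.l10) (xa T0.l10 T0.l10))
  (TrL.c (I.pos (nat_lit 0) (nat_lit 0)) (xa T2.l8 T2.l8)
  (TrL.c (I.mix (nat_lit 29511666) (nat_lit 77433728)) T0.l9
  (TrL.c (I.mix (nat_lit 29511666) (nat_lit 46070178)) T2.l9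
  TrL.n)))))))) (by decide +kernel)
theorem bx2_5 : BoxOK sI cl7 cl7 cl5 t2 t0 b2_5 :=
  box_mk (TrL.c (I.pos (nat_lit 0) (nat_lit 0)) (xa T2.l0 T2.l0)
  (TrL.c (I.pos (nat_lit 0) (nat_lit 0)) (xa T0.l6 (xk T0.l6 T0.l6))
  (TrL.c (I.pos (nat_lit 0) (nat_lit 111196574)) T2.l7
  (TrL.c (I.pos (nat_lit 0) (nat_lit 77433728)) T0.l7
  (TrL.c (I.pos (nat_lit 0) (nat_lit 0)) (xa (xk T0.l11 T0.l11) (xk T0.l8 T0.l8))
  (TrL.c (I.pos (nat_lit 0) (nat_lit 0)) T2.l8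
  (TrL.c (I.mix (nat_lit 29511666) (nat_lit 77433728)) T0.l1
  (TrL.c (I.mix (nat_lit 29511666) (nat_lit 46070178)) T2.l9
  TrL.n)))))))) (by decide +kernel)
theorem bx2_6 : BoxOK sI cl7 cl7 cl5 t2 t0 b2_6 :=
  box_mk (TrL.c (I.pos (nat_lit 0) (nat_lit 0)) (xa T2.l10 T2.l10)
  (TrL.c (I.pos (nat_lit 0) (nat_lit 0)) (xa T0.l10 T0.l6)
  (TrL.c (I.pos (nat_lit 0) (nat_lit 111196574)) T2.l7
  (TrL.c (I.pos (nat_lit 0) (nat_lit 77433728)) T0.l7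
  (TrL.c (I.pos (nat_lit 0) (nat_lit 0)) (xa T0.l10 T0.l10)
  (TrL.c (I.pos (nat_lit 0) (nat_lit 0)) T2.l8
  (TrL.c (I.mix (nat_lit 29511666) (nat_lit 77433728)) T0.l9
  (TrL.c (I.mix (nat_lit 29511666) (nat_lit 46070178)) T2.l9
  TrL.n)))))))) (by decide +kernel)
theorem bx2_7 : BoxOK sI cl7 cl7 cl5 t2 t0 b2_7 :=
  box_mk (TrL.c (I.pos (nat_lit 0) (nat_lit 0)) (xa (xa (xb (xa (xb T2.l10 T2.l10) T2.l10) (xa (xb T2.l10 (xa T2.l10 T2.l10)) (xb T2.l10 T2.l10))) (xb T2.l10 (xa T2.l10 T2.l10))) (xa (xb (xa T2.l10 T2.l10) (xa T2.l10 T2.l10)) (xb (xa T2.l10 T2.l10) (xa (xb T2.l10 T2.l10) (xb T2.l10 T2.l10)))))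
  (TrL.c (I.pos (nat_lit 0) (nat_lit 0)) (xa (xa T0.l6 T0.l6) (xa T0.l6 T0.l6))
  (TrL.c (I.pos (nat_lit 0) (nat_lit 111196574)) T2.l7
  (TrL.c (I.pos (nat_lit 0) (nat_lit 77433728)) T0.l7
  (TrL.c (I.pos (nat_lit 0) (nat_lit 0)) (xa (xa T0.l10 T0.l10) (xa T0.l10 (xb T0.l10 T0.l10)))
  (TrL.c (I.pos (nat_lit 0) (nat_lit 0)) (xa T2.l8 T2.l8)
  (TrL.c (I.mix (nat_lit 29511666) (nat_lit 77433728)) T0.l9
  (TrL.c (I.mix (nat_lit 29511666) (nat_lit 46070178)) T2.l9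
  TrL.n)))))))) (by decide +kernel)
theorem bx2_8 : BoxOK sI cl7 cl7 cl5 t2 t0 b2_8 :=
  box_mk (TrL.c (I.pos (nat_lit 0) (nat_lit 0)) (xb (xa (xb T2.l10 T2.l10) T2.l0) (xa (xb T2.l10 T2.l10) (xb T2.l10 T2.l10)))
  (TrL.c (I.pos (nat_lit 0) (nat_lit 0)) (xb T0.l6 T0.l6)
  (TrL.c (I.pos (nat_lit 0) (nat_lit 111196574)) T2.l7
  (TrL.c (I.pos (nat_lit 0) (nat_lit 77433728)) T0.l7
  (TrL.c (I.pos (nat_lit 0) (nat_lit 0)) (xb (xa (xk T0.l10 T0.l10) (xk (xb T0.l10 T0.l10) T0.l10)) (xa (xk T0.l10 T0.l10) (xk T0.l11 T0.l11)))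
  (TrL.c (I.pos (nat_lit 0) (nat_lit 0)) T2.l8
  (TrL.c (I.mix (nat_lit 29511666) (nat_lit 77433728)) T0.l9
  (TrL.c (I.mix (nat_lit 29511666) (nat_lit 46070178)) T2.l9
  TrL.n)))))))) (by decide +kernel)
theorem bx2_9 : BoxOK sI cl7 cl7 cl5 t2 t0 b2_9 :=
  box_mk (TrL.c (I.pos (nat_lit 0) (nat_lit 0)) (xa (xa (xb (xa (xb T2.l10 T2.l10) T2.l10) T2.l10) T2.l10) (xa T2.l10 T2.l10))
  (TrL.c (I.pos (nat_lit 0) (nat_lit 0)) (xa T0.l10 T0.l6)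
  (TrL.c (I.pos (nat_lit 0) (nat_lit 111196574)) T2.l7
  (TrL.c (I.pos (nat_lit 0) (nat_lit 77433728)) T0.l7
  (TrL.c (I.pos (nat_lit 0) (nat_lit 0)) (xa T0.l6 T0.l10)
  (TrL.c (I.pos (nat_lit 0) (nat_lit 0)) T2.l8
  (TrL.c (I.mix (nat_lit 29511666) (nat_lit 77433728)) T0.l9
  (TrL.c (I.mix (nat_lit 29511666) (nat_lit 46070178)) T2.l9
  TrL.n)))))))) (by decide +kernel)
theorem c2_10_0 : chkTag sI cl7 cl7 cl5 t2 b2_10 (tg true true false RT.r2) (I.pos (nat_lit 0) (nat_lit 0))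
  (xa (xb (xa T2.l0 (xb T2.l0 T2.l0)) (xa (xb T2.l0 (xa T2.l0 T2.l0)) (xb T2.l0 (xa T2.l0 T2.l0)))) (xb (xa (xb T2.l0 T2.l0) (xb (xa T2.l0 T2.l0) (xa T2.l0 T2.l0))) (xa (xb T2.l0 (xa T2.l0 T2.l0)) (xa (xb T2.l0 T2.l0) (xb T2.l0 (xc T2.l0 T2.l0)))))) = true := by decide +kernel
theorem c2_10_1 : chkTag sI cl7 cl7 cl5 t0 b2_10 (tg true false false RT.r3) (I.pos (nat_lit 0) (nat_lit 0))
  (xa (xb (xa (xk T0.l6 T0.l6) (xk T0.l6 T0.l6)) (xa (xk T0.l6 T0.l6) (xk T0.l2 T0.l6))) (xb (xa T0.l2 (xk T0.l2 T0.l2)) (xa (xk T0.l2 T0.l2) (xk (xb T0.l6 T0.l2) T0.l2)))) = true := by decide +kernel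
theorem c2_10_2 : chkTag sI cl7 cl7 cl5 t2 b2_10 (Tag.mk true true false RT.tl RT.r4) (I.pos (nat_lit 0) (nat_lit 111196574))
  (xR T2.l7 (xR T2.l7 (xR T2.l7 (xa T2.l7 T2.l7)))) = true := by decide +kernel
theorem c2_10_3 : chkTag sI cl7 cl7 cl5 t0 b2_10 (Tag.mk true false false RT.tl RT.r5) (I.pos (nat_lit 0) (nat_lit 77433728))
  (xR T0.l7 (xR T0.l7 (xa T0.l7 (xR T0.l7 (xb T0.l7 T0.l7))))) = true := by decide +kernel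
theorem c2_10_4 : chkTag sI cl7 cl7 cl5 t0 b2_10 (tg false false false RT.r3) (I.pos (nat_lit 0) (nat_lit 0))
  (xa (xb (xa (xk (xb T0.l8 T0.l8) (xb T0.l8 T0.l8)) (xk (xb (xa T0.l8 T0.l8) T0.l8) (xb (xa T0.l8 T0.l8) T0.l8))) (xa T0.l8 (xk T0.l8 T0.l8))) (xb (xa (xk (xb (xa (xk T0.l8 T0.l8) (xk T0.l8 T0.l8)) T0.l8) (xb (xa (xk T0.l8 T0.l8) (xk T0.l8 T0.l8)) T0.l8)) (xk (xb (xa (xk T0.l8 T0.l8) (xk (xb T0.l8 T0.l8) (xb T0.l8 T0.l8))) (xk (xa T0.l8 T0.l8) (xa T0.l8 T0.l8))) (xb (xa (xk T0.l8 T0.l8) (xk (xb T0.l8 T0.l8) (xb T0.l8 T0.l8))) (xa T0.l8 (xk T0.l8 T0.l8))))) (xa (xk (xb T0.l8 (xa T0.l8 T0.l8)) (xb T0.l8 T0.l8)) (xk (xb (xk (xa T0.l8 T0.l8) (xa T0.l8 T0.l8)) (xa (xk T0.l8 T0.l8) (xk (xb T0.l8 T0.l8) (xb T0.l8 T0.l8)))) (xb (xk (xa T0.l8 T0.l8) (xa T0.l8 T0.l8)) (xa (xk T0.l8 T0.l8) (xk (xb T0.l8 T0.l8) (xb T0.l8 T0.l8))))))))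 = true := by decide +kernel
theorem c2_10_5 : chkTag sI cl7 cl7 cl5 t2 b2_10 (tg false true false RT.r4) (I.pos (nat_lit 0) (nat_lit 0))
  (xa (xb (xk (xa T2.l8 T2.l8) T2.l8) T2.l8) (xb (xk (xa (xb T2.l8 T2.l8) (xb (xk T2.l8 T2.l8) T2.l8)) (xa T2.l8 (xb (xk T2.l8 T2.l8) T2.l8))) (xk (xa T2.l8 (xb T2.l8 (xk T2.l8 T2.l8))) (xa T2.l8 (xb T2.l8 (xk T2.l8 T2.l8)))))) = true := by decide +kernel
theorem c2_10_6 : chkTag sI cl7 cl7 cl5 t0 b2_10 (Tag.mk false false false RT.tl RT.r5) (I.mix (nat_lit 29511666) (nat_lit 77433728))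
  (xR T0.l1 (xR T0.l9 (xR T0.l9 (xa T0.l9 (xb (xk T0.l9 T0.l9) T0.l9))))) = true := by decide +kernel
theorem c2_10_7 : chkTag sI cl7 cl7 cl5 t2 b2_10 (Tag.mk false true false RT.tl RT.r6) (I.mix (nat_lit 29511666) (nat_lit 46070178))
  (xR T2.l9 T2.l9) = true := by decide +kernel
theorem bx2_10 : BoxOK sI cl7 cl7 cl5 t2 t0 b2_10 :=
  box_mk' [(tg true true false RT.r2), (tg true false false RT.r3), (Tag.mk true true false RT.tl RT.r4), (Tag.mk true false false RT.tl RT.r5), (tg false false false RT.r3), (tg false true false RT.r4), (Tag.mk false false false RT.tl RT.r5), (Tag.mk false true false RT.tl RT.r6)] rfl (allL_c (ex_mk c2_10_0) (allL_c (ex_mk c2_10_1) (allL_c (ex_mk c2_10_2) (allL_c (ex_mk c2_10_3) (allL_c (ex_mk c2_10_4) (allL_c (ex_mk c2_10_5) (allL_c (ex_mk c2_10_6) (allL_c (ex_mk c2_10_7) allL_n))))))))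
theorem bx2_11 : BoxOK sI cl7 cl7 cl5 t2 t0 b2_11 :=
  box_mk (TrL.c (I.pos (nat_lit 0) (nat_lit 0)) (xa (xb (xa (xb T2.l0 T2.l0) (xb T2.l0 T2.l0)) (xa (xb T2.l0 T2.l0) (xb T2.l0 T2.l0))) (xb (xa (xb (xs T2.l11 T2.l11) T2.l0) (xb (xs T2.l0 T2.l0) (xs T2.l0 T2.l3))) (xa (xb T2.l0 T2.l0) (xs T2.l0 (xb T2.l0 T2.l0)))))
  (TrL.c (I.pos (nat_lit 0) (nat_lit 0)) (xa (xk (xb T0.l6 (xa T0.l6 T0.l6)) (xb T0.l6 (xa T0.l6 T0.l6))) (xk (xb T0.l2 T0.l2) (xb T0.l6 (xa T0.l6 T0.l6))))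
  (TrL.c (I.pos (nat_lit 0) (nat_lit 111196574)) (xR T2.l7 T2.l7)
  (TrL.c (I.pos (nat_lit 0) (nat_lit 77433728)) (xR T0.l7 T0.l7)
  (TrL.c (I.pos (nat_lit 0) (nat_lit 0)) (xa (xk T0.l8 T0.l8) (xk (xb T0.l8 T0.l8) (xb T0.l8 (xb T0.l8 (xs T0.l8 T0.l8)))))
  (TrL.c (I.pos (nat_lit 0) (nat_lit 0)) (xk T2.l8 T2.l8)
  (TrL.c (I.mix (nat_lit 29511666) (nat_lit 77433728)) (xR T0.l9 (xR T0.l9 T0.l9))
  (TrL.c (I.mix (nat_lit 29511666) (nat_lit 46070178)) T2.l9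
  TrL.n)))))))) (by decide +kernel)
theorem bx2_12 : BoxOK sI cl7 cl7 cl5 t2 t0 b2_12 :=
  box_mk (TrL.c (I.pos (nat_lit 0) (nat_lit 0)) T2.l10
  (TrL.c (I.pos (nat_lit 0) (nat_lit 0)) T0.l6
  (TrL.c (I.pos (nat_lit 0) (nat_lit 111196574)) T2.l7
  (TrL.c (I.pos (nat_lit 0) (nat_lit 77433728)) T0.l7
  (TrL.c (I.pos (nat_lit 0) (nat_lit 0)) T0.l10
  (TrL.c (I.pos (nat_lit 0) (nat_lit 0)) T2.l8
  (TrL.c (I.mix (nat_lit 29511666) (nat_lit 77433728)) T0.l9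
  (TrL.c (I.mix (nat_lit 29511666) (nat_lit 46070178)) T2.l9
  TrL.n)))))))) (by decide +kernel)
theorem bx2_13 : BoxOK sI cl7 cl7 cl5 t2 t0 b2_13 :=
  box_mk (TrL.c (I.pos (nat_lit 0) (nat_lit 0)) (xa T2.l11 (xb T2.l11 T2.l11))
  (TrL.c (I.pos (nat_lit 0) (nat_lit 0)) (xk T0.l6 T0.l6)
  (TrL.c (I.pos (nat_lit 0) (nat_lit 111196574)) T2.l7
  (TrL.c (I.pos (nat_lit 0) (nat_lit 77433728)) T0.l7
  (TrL.c (I.pos (nat_lit 0) (nat_lit 0)) (xk T0.l11 T0.l11)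
  (TrL.c (I.pos (nat_lit 0) (nat_lit 0)) T2.l8
  (TrL.c (I.mix (nat_lit 29511666) (nat_lit 77433728)) (xR T0.l9 T0.l9)
  (TrL.c (I.mix (nat_lit 29511666) (nat_lit 46070178)) T2.l9
  TrL.n)))))))) (by decide +kernel)
theorem sv2 : StarV sI cl7 cl7 cl5 t2 t0 t2 :=
  (bt_n (bt_n (bt_n (bt_b bx2_0) (bt_n (bt_b bx2_1) (bt_b bx2_2))) (bt_n (bt_n (bt_b bx2_3) (bt_b bx2_4)) (bt_n (bt_b bx2_5) (bt_b bx2_6)))) (bt_n (bt_n (bt_b bx2_7) (bt_n (bt_b bx2_8) (bt_b bx2_9))) (bt_n (bt_n (bt_b bx2_10) (bt_b bx2_11)) (bt_n (bt_b bx2_12) (bt_b bx2_13)))))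
def S2 : StarD := StarD.mk cl7 cl7 cl5 2 0 t2
def G : List StarD := [S0, S1, S2]
theorem so0 : StarOK sI G S0 :=
  star_mk (by decide) (by decide) rfl rfl rfl rfl rfl rfl (rfl : _ = t1) (rfl : _ = t1)
  (st_mk (Pth.l (Pth.l (Pth.l Pth.z))) (nat_lit 143746865) (nat_lit 166891314) (by decide +kernel))
  (st_mk (Pth.l (Pth.l (Pth.l Pth.z))) (nat_lit 180781425) (nat_lit 204494452) (by decide +kernel))
  (st_mk (Pth.l (Pth.l (Pth.l Pth.z))) (nat_lit 224161440) (nat_lit 248647599) (by decide +kernel)) sv0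
theorem so1 : StarOK sI G S1 :=
  star_mk (by decide) (by decide) rfl rfl rfl rfl rfl rfl (rfl : _ = t0) (rfl : _ = t2)
  (st_mk (Pth.l (Pth.l (Pth.l Pth.z))) (nat_lit 241383151) (nat_lit 243726550) (by decide +kernel))
  (st_mk (Pth.l (Pth.l (Pth.l Pth.z))) (nat_lit 276804590) (nat_lit 280813354) (by decide +kernel))
  (st_mk (Pth.l (Pth.l (Pth.l Pth.z))) (nat_lit 318484546) (nat_lit 323290171) (by decide +kernel)) sv1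
theorem so2 : StarOK sI G S2 :=
  star_mk (by decide) (by decide) rfl rfl rfl rfl rfl rfl (rfl : _ = t2) (rfl : _ = t0)
  (st_mk (Pth.l (Pth.l (Pth.l Pth.z))) (nat_lit 141553783) (nat_lit 164424056) (by decide +kernel))
  (st_mk (Pth.l (Pth.l (Pth.l Pth.z))) (nat_lit 177319430) (nat_lit 200736608) (by decide +kernel))
  (st_mk (Pth.l (Pth.l (Pth.l Pth.z))) (nat_lit 218833891) (nat_lit 243010360) (by decide +kernel)) sv2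
theorem ok : GroupOK (nat_lit 209321984) (nat_lit 268435456) G := grp_mk (allS_c so0 (allS_c so1 (allS_c so2 allS_n)))
theorem cov : GCov G cl5 cl7 cl7 := cov_mk
  ⟨0, by decide, rfl, rfl, rfl⟩ ⟨0, by decide, rfl, rfl, rfl⟩ ⟨1, by decide, rfl, rfl, rfl⟩ ⟨2, by decide, rfl, rfl, rfl⟩ ⟨1, by decide, rfl, rfl, rfl⟩ ⟨2, by decide, rfl, rfl, rfl⟩
end Q244_3


end Pool.Agent.Helper6.MONO
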