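import Pool.Agent.Helper6.MONO.Cert.C51

/-!
Certificate data (generated).
-/

set_option autoImplicit false
set_option linter.all false
noncomputable section
namespace Pool.Agent.Helper6.MONO


namespace Q245_0
def sI : I := I.pos (nat_lit 0) (nat_lit 91291648)
def b0_0 : Bx := Bx.mk (St.mk (I.pos (nat_lit 150028288) (nat_lit 276414464)) (I.mix (nat_lit 8175616) (nat_lit 66813952)) (I.mix (nat_lit 62930944) (nat_lit 86228992)) (I.pos (nat_lit 124764160) (nat_lit 353992704)) (I.mix (nat_lit 99827712) (nat_lit 70172672)) (I.mix (nat_lit 96616448) (nat_lit 59031552)) (I.mix (nat_lit 152010752) (nat_lit 92618752)))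
  false (nat_lit 0)
def b0_1 : Bx := Bx.mk (St.mk (I.mix (nat_lit 28688384) (nat_lit 125206528)) (I.mix (nat_lit 4276224) (nat_lit 35815424)) (I.mix (nat_lit 19431424) (nat_lit 14319616)) (I.pos (nat_lit 37453824) (nat_lit 117719040)) (I.mix (nat_lit 32587776) (nat_lit 33406976)) (I.mix (nat_lit 37339136) (nat_lit 25149440)) (I.mix (nat_lit 28098560) (nat_lit 16351232)))
  false (nat_lit 0)
def b0_2 : Bx := Bx.mk (St.mk (I.pos (nat_lit 95322112) (nat_lit 143015936)) (I.mix (nat_lit 62062592) (nat_lit 6733824)) (I.neg (nat_lit 3833856) (nat_lit 70254592)) (I.pos (nat_lit 78266368) (nat_lit 139395072)) (I.mix (nat_lit 92585984) (nat_lit 29736960)) (I.mix (nat_lit 54476800) (nat_lit 97566720)) (I.mix (nat_lit 40697856) (nat_lit 79216640)))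
  false (nat_lit 0)
def b0_3 : Bx := Bx.mk (St.mk (I.mix (nat_lit 40353792) (nat_lit 73809920)) (I.mix (nat_lit 31129600) (nat_lit 3883008)) (I.mix (nat_lit 23216128) (nat_lit 163840)) (I.pos (nat_lit 40583168) (nat_lit 82526208)) (I.mix (nat_lit 31293440) (nat_lit 12943360)) (I.mix (nat_lit 16367616) (nat_lit 29704192)) (I.mix (nat_lit 7684096) (nat_lit 12124160)))
  false (nat_lit 0)
def b0_4 : Bx := Bx.mk (St.mk (I.mix (nat_lit 41861120) (nat_lit 55459840)) (I.mix (nat_lit 1818624) (nat_lit 8077312)) (I.neg (nat_lit 3391488) (nat_lit 12107776)) (I.pos (nat_lit 42237952) (nat_lit 74858496)) (I.mix (nat_lit 3522560) (nat_lit 7323648)) (I.mix (nat_lit 4227072) (nat_lit 3473408)) (I.mix (nat_lit 1572864) (nat_lit 1687552)))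
  false (nat_lit 0)
def b0_5 : Bx := Bx.mk (St.mk (I.pos (nat_lit 96272384) (nat_lit 113770496)) (I.mix (nat_lit 2277376) (nat_lit 8880128)) (I.neg (nat_lit 3555328) (nat_lit 17874944)) (I.pos (nat_lit 79233024) (nat_lit 113852416)) (I.mix (nat_lit 6275072) (nat_lit 9420800)) (I.mix (nat_lit 6340608) (nat_lit 4194304)) (I.mix (nat_lit 5423104) (nat_lit 3555328)))
  false (nat_lit 0)
def b0_6 : Bx := Bx.mk (St.mk (I.pos (nat_lit 101498880) (nat_lit 173801472)) (I.mix (nat_lit 60440576) (nat_lit 458752)) (I.neg (nat_lit 7077888) (nat_lit 68173824)) (I.pos (nat_lit 95584256) (nat_lit 177455104)) (I.mix (nat_lit 76611584) (nat_lit 48545792)) (I.mix (nat_lit 48758784) (nat_lit 74153984)) (I.mix (nat_lit 40091648) (nat_lit 71696384)))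
  false (nat_lit 0)
def b0_7 : Bx := Bx.mk (St.mk (I.mix (nat_lit 29163520) (nat_lit 89538560)) (I.mix (nat_lit 34979840) (nat_lit 5881856)) (I.neg (nat_lit 65536) (nat_lit 27344896)) (I.pos (nat_lit 39485440) (nat_lit 92209152)) (I.mix (nat_lit 37355520) (nat_lit 27164672)) (I.mix (nat_lit 25116672) (nat_lit 39059456)) (I.mix (nat_lit 14336000) (nat_lit 21708800)))
  false (nat_lit 0)
def b0_8 : Bx := Bx.mk (St.mk (I.pos (nat_lit 146063360) (nat_lit 224559104)) (I.mix (nat_lit 44892160) (nat_lit 75415552)) (I.mix (nat_lit 58802176) (nat_lit 96616448)) (I.pos (nat_lit 128614400) (nat_lit 248922112)) (I.mix (nat_lit 147357696) (nat_lit 56885248)) (I.mix (nat_lit 183549952) (nat_lit 104284160)) (I.mix (nat_lit 204587008) (nat_lit 112017408)))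
  false (nat_lit 6140828)
def b0_9 : Bx := Bx.mk (St.mk (I.mix (nat_lit 45072384) (nat_lit 117358592)) (I.mix (nat_lit 14565376) (nat_lit 38387712)) (I.mix (nat_lit 16515072) (nat_lit 17907712)) (I.pos (nat_lit 37715968) (nat_lit 109920256)) (I.mix (nat_lit 46006272) (nat_lit 29425664)) (I.mix (nat_lit 54116352) (nat_lit 36306944)) (I.mix (nat_lit 29769728) (nat_lit 20103168)))
  false (nat_lit 0)
def t0 : BTr := (BTr.n (BTr.n (BTr.n (BTr.b b0_0) (BTr.b b0_1)) (BTr.n (BTr.b b0_2) (BTr.n (BTr.b b0_3) (BTr.b b0_4)))) (BTr.n (BTr.n (BTr.b b0_5) (BTr.b b0_6)) (BTr.n (BTr.b b0_7) (BTr.n (BTr.b b0_8) (BTr.b b0_9)))))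
namespace T0
def l0 : Tr := Tr.L (Pth.l (Pth.l (Pth.l Pth.z)))
def l1 : Tr := Tr.L (Pth.l (Pth.l (Pth.r Pth.z)))
def l2 : Tr := Tr.L (Pth.l (Pth.r (Pth.l Pth.z)))
def l3 : Tr := Tr.L (Pth.l (Pth.r (Pth.r (Pth.l Pth.z))))
def l4 : Tr := Tr.L (Pth.l (Pth.r (Pth.r (Pth.r Pth.z))))
def l5 : Tr := Tr.L (Pth.r (Pth.l (Pth.l Pth.z)))
def l6 : Tr := Tr.L (Pth.r (Pth.l (Pth.r Pth.z)))
def l7 : Tr := Tr.L (Pth.r (Pth.r (Pth.l Pth.z)))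
def l8 : Tr := Tr.L (Pth.r (Pth.r (Pth.r (Pth.l Pth.z))))
def l9 : Tr := Tr.L (Pth.r (Pth.r (Pth.r (Pth.r Pth.z))))
end T0
def b1_0 : Bx := Bx.mk (St.mk (I.pos (nat_lit 150028288) (nat_lit 276414464)) (I.mix (nat_lit 8110080) (nat_lit 64307200)) (I.mix (nat_lit 45957120) (nat_lit 95371264)) (I.pos (nat_lit 97435648) (nat_lit 326696960)) (I.mix (nat_lit 109379584) (nat_lit 73662464)) (I.mix (nat_lit 104448000) (nat_lit 71450624)) (I.mix (nat_lit 160399360) (nat_lit 95846400)))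
  false (nat_lit 0)
def b1_1 : Bx := Bx.mk (St.mk (I.mix (nat_lit 21168128) (nat_lit 138919936)) (I.mix (nat_lit 3932160) (nat_lit 29687808)) (I.mix (nat_lit 13139968) (nat_lit 18595840)) (I.pos (nat_lit 10321920) (nat_lit 103284736)) (I.mix (nat_lit 30064640) (nat_lit 24526848)) (I.mix (nat_lit 30064640) (nat_lit 19906560)) (I.mix (nat_lit 24068096) (nat_lit 14483456)))
  false (nat_lit 0)
def b1_2 : Bx := Bx.mk (St.mk (I.pos (nat_lit 109035520) (nat_lit 154042368)) (I.mix (nat_lit 56672256) (nat_lit 6324224)) (I.mix (nat_lit 63520768) (nat_lit 770048)) (I.pos (nat_lit 62799872) (nat_lit 123109376)) (I.mix (nat_lit 90341376) (nat_lit 30277632)) (I.mix (nat_lit 52297728) (nat_lit 100024320)) (I.mix (nat_lit 41107456) (nat_lit 86786048)))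
  false (nat_lit 0)
def b1_3 : Bx := Bx.mk (St.mk (I.mix (nat_lit 27885568) (nat_lit 97583104)) (I.mix (nat_lit 26902528) (nat_lit 2637824)) (I.mix (nat_lit 21118976) (nat_lit 1654784)) (I.pos (nat_lit 13549568) (nat_lit 68976640)) (I.mix (nat_lit 32260096) (nat_lit 13516800)) (I.mix (nat_lit 19759104) (nat_lit 31866880)) (I.mix (nat_lit 10747904) (nat_lit 17154048)))
  false (nat_lit 0)
def b1_4 : Bx := Bx.mk (St.mk (I.pos (nat_lit 110018560) (nat_lit 126910464)) (I.mix (nat_lit 2260992) (nat_lit 7782400)) (I.mix (nat_lit 11616256) (nat_lit 524288)) (I.pos (nat_lit 63782912) (nat_lit 98369536)) (I.mix (nat_lit 5816320) (nat_lit 8208384)) (I.mix (nat_lit 5423104) (nat_lit 3588096)) (I.mix (nat_lit 4947968) (nat_lit 2965504)))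
  false (nat_lit 0)
def b1_5 : Bx := Bx.mk (St.mk (I.mix (nat_lit 26722304) (nat_lit 56705024)) (I.mix (nat_lit 344064) (nat_lit 4489216)) (I.neg (nat_lit 442368) (nat_lit 4833280)) (I.pos (nat_lit 15728640) (nat_lit 48414720)) (I.mix (nat_lit 1949696) (nat_lit 3964928)) (I.mix (nat_lit 2293760) (nat_lit 1802240)) (I.mix (nat_lit 688128) (nat_lit 704512)))
  false (nat_lit 0)
def b1_6 : Bx := Bx.mk (St.mk (I.pos (nat_lit 114933760) (nat_lit 178978816)) (I.mix (nat_lit 57688064) (nat_lit 835584)) (I.neg (nat_lit 3211264) (nat_lit 64634880)) (I.pos (nat_lit 81772544) (nat_lit 157368320)) (I.mix (nat_lit 71385088) (nat_lit 44597248)) (I.mix (nat_lit 48480256) (nat_lit 68157440)) (I.mix (nat_lit 43139072) (nat_lit 70238208)))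
  false (nat_lit 0)
def b1_7 : Bx := Bx.mk (St.mk (I.mix (nat_lit 19464192) (nat_lit 110510080)) (I.mix (nat_lit 30588928) (nat_lit 5275648)) (I.mix (nat_lit 24461312) (nat_lit 1425408)) (I.pos (nat_lit 12779520) (nat_lit 79265792)) (I.mix (nat_lit 33718272) (nat_lit 24330240)) (I.mix (nat_lit 22020096) (nat_lit 33390592)) (I.mix (nat_lit 13271040) (nat_lit 21479424)))
  false (nat_lit 0)
def b1_8 : Bx := Bx.mk (St.mk (I.pos (nat_lit 151535616) (nat_lit 224280576)) (I.mix (nat_lit 43171840) (nat_lit 67715072)) (I.mix (nat_lit 52543488) (nat_lit 97239040)) (I.pos (nat_lit 106594304) (nat_lit 222101504)) (I.mix (nat_lit 142868480) (nat_lit 55574528)) (I.mix (nat_lit 179273728) (nat_lit 100499456)) (I.mix (nat_lit 212287488) (nat_lit 113098752)))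
  false (nat_lit 0)
def b1_9 : Bx := Bx.mk (St.mk (I.mix (nat_lit 32866304) (nat_lit 132792320)) (I.mix (nat_lit 16089088) (nat_lit 34914304)) (I.mix (nat_lit 15712256) (nat_lit 22740992)) (I.pos (nat_lit 10829824) (nat_lit 95977472)) (I.mix (nat_lit 46448640) (nat_lit 25624576)) (I.mix (nat_lit 52576256) (nat_lit 34963456)) (I.mix (nat_lit 33800192) (nat_lit 21561344)))
  false (nat_lit 0)
def t1 : BTr := (BTr.n (BTr.n (BTr.n (BTr.b b1_0) (BTr.b b1_1)) (BTr.n (BTr.b b1_2) (BTr.n (BTr.b b1_3) (BTr.b b1_4)))) (BTr.n (BTr.n (BTr.b b1_5) (BTr.b b1_6)) (BTr.n (BTr.b b1_7) (BTr.n (BTr.b b1_8) (BTr.b b1_9)))))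
namespace T1
def l0 : Tr := Tr.L (Pth.l (Pth.l (Pth.l Pth.z)))
def l1 : Tr := Tr.L (Pth.l (Pth.l (Pth.r Pth.z)))
def l2 : Tr := Tr.L (Pth.l (Pth.r (Pth.l Pth.z)))
def l3 : Tr := Tr.L (Pth.l (Pth.r (Pth.r (Pth.l Pth.z))))
def l4 : Tr := Tr.L (Pth.l (Pth.r (Pth.r (Pth.r Pth.z))))
def l5 : Tr := Tr.L (Pth.r (Pth.l (Pth.l Pth.z)))
def l6 : Tr := Tr.L (Pth.r (Pth.l (Pth.r Pth.z)))
def l7 : Tr := Tr.L (Pth.r (Pth.r (Pth.l Pth.z)))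
def l8 : Tr := Tr.L (Pth.r (Pth.r (Pth.r (Pth.l Pth.z))))
def l9 : Tr := Tr.L (Pth.r (Pth.r (Pth.r (Pth.r Pth.z))))
end T1
def b2_0 : Bx := Bx.mk (St.mk (I.pos (nat_lit 148684800) (nat_lit 291241984)) (I.mix (nat_lit 33144832) (nat_lit 77692928)) (I.mix (nat_lit 126550016) (nat_lit 102334464)) (I.pos (nat_lit 219496448) (nat_lit 457113600)) (I.mix (nat_lit 103972864) (nat_lit 95158272)) (I.mix (nat_lit 121995264) (nat_lit 77660160)) (I.mix (nat_lit 181354496) (nat_lit 112279552)))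
  false (nat_lit 101626677)
def b2_1 : Bx := Bx.mk (St.mk (I.pos (nat_lit 22855680) (nat_lit 72613888)) (I.mix (nat_lit 12713984) (nat_lit 50462720)) (I.mix (nat_lit 29048832) (nat_lit 5210112)) (I.pos (nat_lit 142163968) (nat_lit 162611200)) (I.mix (nat_lit 31277056) (nat_lit 47267840)) (I.mix (nat_lit 53575680) (nat_lit 30425088)) (I.mix (nat_lit 27951104) (nat_lit 16039936)))
  false (nat_lit 0)
def b2_2 : Bx := Bx.mk (St.mk (I.pos (nat_lit 52625408) (nat_lit 105742336)) (I.mix (nat_lit 69713920) (nat_lit 13877248)) (I.neg (nat_lit 9830400) (nat_lit 61865984)) (I.pos (nat_lit 150536192) (nat_lit 184893440)) (I.mix (nat_lit 79478784) (nat_lit 35241984)) (I.mix (nat_lit 44220416) (nat_lit 91734016)) (I.mix (nat_lit 29802496) (nat_lit 55541760)))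
  false (nat_lit 0)
def b2_3 : Bx := Bx.mk (St.mk (I.neg (nat_lit 22790144) (nat_lit 73252864)) (I.mix (nat_lit 50462720) (nat_lit 13942784)) (I.mix (nat_lit 29655040) (nat_lit 5292032)) (I.pos (nat_lit 142163968) (nat_lit 162611200)) (I.mix (nat_lit 47267840) (nat_lit 31277056)) (I.mix (nat_lit 30425088) (nat_lit 53575680)) (I.mix (nat_lit 27951104) (nat_lit 16039936)))
  true (nat_lit 0)
def b2_4 : Bx := Bx.mk (St.mk (I.pos (nat_lit 76644352) (nat_lit 152731648)) (I.neg (nat_lit 5521408) (nat_lit 72712192)) (I.neg (nat_lit 1654784) (nat_lit 67436544)) (I.pos (nat_lit 165756928) (nat_lit 229572608)) (I.mix (nat_lit 75481088) (nat_lit 54607872)) (I.mix (nat_lit 45268992) (nat_lit 76611584)) (I.mix (nat_lit 42450944) (nat_lit 66650112)))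
  false (nat_lit 0)
def b2_5 : Bx := Bx.mk (St.mk (I.mix (nat_lit 38961152) (nat_lit 7602176)) (I.mix (nat_lit 44711936) (nat_lit 10059776)) (I.mix (nat_lit 7454720) (nat_lit 1540096)) (I.pos (nat_lit 140492800) (nat_lit 150487040)) (I.mix (nat_lit 28196864) (nat_lit 37732352)) (I.mix (nat_lit 26607616) (nat_lit 47611904)) (I.mix (nat_lit 6619136) (nat_lit 5308416)))
  true (nat_lit 0)
def b2_6 : Bx := Bx.mk (St.mk (I.pos (nat_lit 126533632) (nat_lit 206716928)) (I.mix (nat_lit 40812544) (nat_lit 81149952)) (I.mix (nat_lit 39714816) (nat_lit 105807872)) (I.pos (nat_lit 201113600) (nat_lit 302399488)) (I.mix (nat_lit 137969664) (nat_lit 65060864)) (I.mix (nat_lit 161677312) (nat_lit 82837504)) (I.mix (nat_lit 164003840) (nat_lit 89243648)))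
  false (nat_lit 56478795)
def b2_7 : Bx := Bx.mk (St.mk (I.mix (nat_lit 7602176) (nat_lit 38961152)) (I.mix (nat_lit 10059776) (nat_lit 44711936)) (I.mix (nat_lit 7454720) (nat_lit 1540096)) (I.pos (nat_lit 140492800) (nat_lit 150487040)) (I.mix (nat_lit 37732352) (nat_lit 28196864)) (I.mix (nat_lit 47611904) (nat_lit 26607616)) (I.mix (nat_lit 6619136) (nat_lit 5308416)))
  false (nat_lit 0)
def t2 : BTr := (BTr.n (BTr.n (BTr.n (BTr.b b2_0) (BTr.b b2_1)) (BTr.n (BTr.b b2_2) (BTr.b b2_3))) (BTr.n (BTr.n (BTr.b b2_4) (BTr.b b2_5)) (BTr.n (BTr.b b2_6) (BTr.b b2_7))))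
namespace T2
def l0 : Tr := Tr.L (Pth.l (Pth.l (Pth.l Pth.z)))
def l1 : Tr := Tr.L (Pth.l (Pth.l (Pth.r Pth.z)))
def l2 : Tr := Tr.L (Pth.l (Pth.r (Pth.l Pth.z)))
def l3 : Tr := Tr.L (Pth.l (Pth.r (Pth.r Pth.z)))
def l4 : Tr := Tr.L (Pth.r (Pth.l (Pth.l Pth.z)))
def l5 : Tr := Tr.L (Pth.r (Pth.l (Pth.r Pth.z)))
def l6 : Tr := Tr.L (Pth.r (Pth.r (Pth.l Pth.z)))
def l7 : Tr := Tr.L (Pth.r (Pth.r (Pth.r Pth.z)))
end T2
def b3_0 : Bx := Bx.mk (St.mk (I.pos (nat_lit 148897792) (nat_lit 288899072)) (I.mix (nat_lit 28082176) (nat_lit 56967168)) (I.mix (nat_lit 44728320) (nat_lit 115671040)) (I.pos (nat_lit 94584832) (nat_lit 348176384)) (I.mix (nat_lit 120700928) (nat_lit 79462400)) (I.mix (nat_lit 120258560) (nat_lit 85147648)) (I.mix (nat_lit 187072512) (nat_lit 116015104)))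
  false (nat_lit 32469430)
def b3_1 : Bx := Bx.mk (St.mk (I.pos (nat_lit 119734272) (nat_lit 179732480)) (I.neg (nat_lit 8126464) (nat_lit 58654720)) (I.mix (nat_lit 49283072) (nat_lit 3211264)) (I.pos (nat_lit 86802432) (nat_lit 154025984)) (I.mix (nat_lit 65142784) (nat_lit 40419328)) (I.mix (nat_lit 37748736) (nat_lit 62783488)) (I.mix (nat_lit 34832384) (nat_lit 64110592)))
  false (nat_lit 0)
def b3_2 : Bx := Bx.mk (St.mk (I.mix (nat_lit 20299776) (nat_lit 107757568)) (I.mix (nat_lit 29949952) (nat_lit 2129920)) (I.mix (nat_lit 15466496) (nat_lit 6045696)) (I.pos (nat_lit 12795904) (nat_lit 76546048)) (I.mix (nat_lit 26722304) (nat_lit 21069824)) (I.mix (nat_lit 19087360) (nat_lit 26230784)) (I.mix (nat_lit 11436032) (nat_lit 16367616)))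
  false (nat_lit 0)
def b3_3 : Bx := Bx.mk (St.mk (I.pos (nat_lit 158416896) (nat_lit 219201536)) (I.mix (nat_lit 34340864) (nat_lit 66338816)) (I.mix (nat_lit 21790720) (nat_lit 118194176)) (I.pos (nat_lit 116342784) (nat_lit 212467712)) (I.mix (nat_lit 145047552) (nat_lit 54460416)) (I.mix (nat_lit 174620672) (nat_lit 94994432)) (I.mix (nat_lit 214335488) (nat_lit 103104512)))
  false (nat_lit 33523752)
def b3_4 : Bx := Bx.mk (St.mk (I.mix (nat_lit 31703040) (nat_lit 130170880)) (I.mix (nat_lit 11288576) (nat_lit 34586624)) (I.mix (nat_lit 3227648) (nat_lit 32931840)) (I.pos (nat_lit 11141120) (nat_lit 93552640)) (I.mix (nat_lit 49840128) (nat_lit 22429696)) (I.mix (nat_lit 52707328) (nat_lit 32686080)) (I.mix (nat_lit 35176448) (nat_lit 20480000)))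
  false (nat_lit 0)
def b3_5 : Bx := Bx.mk (St.mk (I.pos (nat_lit 158908416) (nat_lit 176865280)) (I.neg (nat_lit 14204928) (nat_lit 34848768)) (I.mix (nat_lit 22806528) (nat_lit 1916928)) (I.pos (nat_lit 116293632) (nat_lit 151683072)) (I.mix (nat_lit 14254080) (nat_lit 10551296)) (I.mix (nat_lit 7520256) (nat_lit 8847360)) (I.mix (nat_lit 7372800) (nat_lit 9404416)))
  false (nat_lit 0)
def b3_6 : Bx := Bx.mk (St.mk (I.mix (nat_lit 31653888) (nat_lit 110329856)) (I.mix (nat_lit 15220736) (nat_lit 2031616)) (I.mix (nat_lit 5832704) (nat_lit 6766592)) (I.pos (nat_lit 13025280) (nat_lit 77971456)) (I.mix (nat_lit 6242304) (nat_lit 8994816)) (I.mix (nat_lit 5144576) (nat_lit 7700480)) (I.mix (nat_lit 3112960) (nat_lit 5242880)))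
  false (nat_lit 0)
def b3_7 : Bx := Bx.mk (St.mk (I.pos (nat_lit 33505280) (nat_lit 137068544)) (I.mix (nat_lit 9109504) (nat_lit 28835840)) (I.mix (nat_lit 5963776) (nat_lit 29736960)) (I.pos (nat_lit 18677760) (nat_lit 104939520)) (I.mix (nat_lit 38223872) (nat_lit 28196864)) (I.mix (nat_lit 38797312) (nat_lit 25378816)) (I.mix (nat_lit 31129600) (nat_lit 18694144)))
  false (nat_lit 0)
def b3_8 : Bx := Bx.mk (St.mk (I.pos (nat_lit 107134976) (nat_lit 158400512)) (I.mix (nat_lit 59670528) (nat_lit 12353536)) (I.mix (nat_lit 51265536) (nat_lit 16334848)) (I.pos (nat_lit 61440000) (nat_lit 127762432)) (I.mix (nat_lit 85557248) (nat_lit 31506432)) (I.mix (nat_lit 54083584) (nat_lit 96583680)) (I.mix (nat_lit 43450368) (nat_lit 78462976)))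
  false (nat_lit 0)
def b3_9 : Bx := Bx.mk (St.mk (I.mix (nat_lit 29868032) (nat_lit 100057088)) (I.mix (nat_lit 27672576) (nat_lit 5373952)) (I.mix (nat_lit 13336576) (nat_lit 5619712)) (I.pos (nat_lit 13352960) (nat_lit 70352896)) (I.mix (nat_lit 29720576) (nat_lit 15892480)) (I.mix (nat_lit 21217280) (nat_lit 32292864)) (I.mix (nat_lit 11108352) (nat_lit 16416768)))
  false (nat_lit 0)
def t3 : BTr := (BTr.n (BTr.n (BTr.n (BTr.b b3_0) (BTr.b b3_1)) (BTr.n (BTr.b b3_2) (BTr.n (BTr.b b3_3) (BTr.b b3_4)))) (BTr.n (BTr.n (BTr.b b3_5) (BTr.b b3_6)) (BTr.n (BTr.b b3_7) (BTr.n (BTr.b b3_8) (BTr.b b3_9)))))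
namespace T3
def l0 : Tr := Tr.L (Pth.l (Pth.l (Pth.l Pth.z)))
def l1 : Tr := Tr.L (Pth.l (Pth.l (Pth.r Pth.z)))
def l2 : Tr := Tr.L (Pth.l (Pth.r (Pth.l Pth.z)))
def l3 : Tr := Tr.L (Pth.l (Pth.r (Pth.r (Pth.l Pth.z))))
def l4 : Tr := Tr.L (Pth.l (Pth.r (Pth.r (Pth.r Pth.z))))
def l5 : Tr := Tr.L (Pth.r (Pth.l (Pth.l Pth.z)))
def l6 : Tr := Tr.L (Pth.r (Pth.l (Pth.r Pth.z)))
def l7 : Tr := Tr.L (Pth.r (Pth.r (Pth.l Pth.z)))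
def l8 : Tr := Tr.L (Pth.r (Pth.r (Pth.r (Pth.l Pth.z))))
def l9 : Tr := Tr.L (Pth.r (Pth.r (Pth.r (Pth.r Pth.z))))
end T3
def b4_0 : Bx := Bx.mk (St.mk (I.pos (nat_lit 148881408) (nat_lit 289128448)) (I.mix (nat_lit 25673728) (nat_lit 75415552)) (I.mix (nat_lit 90537984) (nat_lit 113606656)) (I.pos (nat_lit 219185152) (nat_lit 449167360)) (I.mix (nat_lit 112738304) (nat_lit 94240768)) (I.mix (nat_lit 124469248) (nat_lit 80166912)) (I.mix (nat_lit 181452800) (nat_lit 110903296)))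
  false (nat_lit 91793691)
def b4_1 : Bx := Bx.mk (St.mk (I.pos (nat_lit 80379904) (nat_lit 155713536)) (I.neg (nat_lit 4882432) (nat_lit 72368128)) (I.mix (nat_lit 59375616) (nat_lit 11632640)) (I.pos (nat_lit 167575552) (nat_lit 232095744)) (I.mix (nat_lit 68141056) (nat_lit 55869440)) (I.mix (nat_lit 46186496) (nat_lit 74301440)) (I.mix (nat_lit 42549248) (nat_lit 64421888)))
  false (nat_lit 0)
def b4_2 : Bx := Bx.mk (St.mk (I.mix (nat_lit 36831232) (nat_lit 9093120)) (I.mix (nat_lit 45350912) (nat_lit 12042240)) (I.mix (nat_lit 1048576) (nat_lit 8044544)) (I.pos (nat_lit 140197888) (nat_lit 149766144)) (I.mix (nat_lit 25739264) (nat_lit 40271872)) (I.mix (nat_lit 25247744) (nat_lit 47890432)) (I.mix (nat_lit 5914624) (nat_lit 5095424)))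
  true (nat_lit 0)
def b4_3 : Bx := Bx.mk (St.mk (I.pos (nat_lit 124747776) (nat_lit 204111872)) (I.mix (nat_lit 41828352) (nat_lit 79478784)) (I.mix (nat_lit 29147136) (nat_lit 115589120)) (I.pos (nat_lit 203472896) (nat_lit 297402368)) (I.mix (nat_lit 133824512) (nat_lit 66076672)) (I.mix (nat_lit 167477248) (nat_lit 82182144)) (I.mix (nat_lit 171769856) (nat_lit 79822848)))
  false (nat_lit 52623132)
def b4_4 : Bx := Bx.mk (St.mk (I.mix (nat_lit 9093120) (nat_lit 36831232)) (I.mix (nat_lit 12042240) (nat_lit 45350912)) (I.mix (nat_lit 1048576) (nat_lit 8044544)) (I.pos (nat_lit 140197888) (nat_lit 149766144)) (I.mix (nat_lit 40271872) (nat_lit 25739264)) (I.mix (nat_lit 47890432) (nat_lit 25247744)) (I.mix (nat_lit 5914624) (nat_lit 5095424)))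
  false (nat_lit 0)
def b4_5 : Bx := Bx.mk (St.mk (I.pos (nat_lit 20529152) (nat_lit 71794688)) (I.mix (nat_lit 11223040) (nat_lit 50839552)) (I.mix (nat_lit 21282816) (nat_lit 11534336)) (I.pos (nat_lit 141524992) (nat_lit 161857536)) (I.mix (nat_lit 33472512) (nat_lit 43892736)) (I.mix (nat_lit 52985856) (nat_lit 31735808)) (I.mix (nat_lit 27164672) (nat_lit 16777216)))
  false (nat_lit 0)
def b4_6 : Bx := Bx.mk (St.mk (I.pos (nat_lit 54132736) (nat_lit 107954176)) (I.mix (nat_lit 71188480) (nat_lit 13139968)) (I.neg (nat_lit 3538944) (nat_lit 54984704)) (I.pos (nat_lit 151289856) (nat_lit 186155008)) (I.mix (nat_lit 77201408) (nat_lit 35618816)) (I.mix (nat_lit 43876352) (nat_lit 88260608)) (I.mix (nat_lit 32129024) (nat_lit 52346880)))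
  false (nat_lit 0)
def b4_7 : Bx := Bx.mk (St.mk (I.neg (nat_lit 20512768) (nat_lit 71794688)) (I.mix (nat_lit 50839552) (nat_lit 11223040)) (I.mix (nat_lit 21282816) (nat_lit 11534336)) (I.pos (nat_lit 141524992) (nat_lit 161857536)) (I.mix (nat_lit 43892736) (nat_lit 33472512)) (I.mix (nat_lit 31801344) (nat_lit 52985856)) (I.mix (nat_lit 27164672) (nat_lit 16777216)))
  true (nat_lit 0)
def t4 : BTr := (BTr.n (BTr.n (BTr.n (BTr.b b4_0) (BTr.b b4_1)) (BTr.n (BTr.b b4_2) (BTr.b b4_3))) (BTr.n (BTr.n (BTr.b b4_4) (BTr.b b4_5)) (BTr.n (BTr.b b4_6) (BTr.b b4_7))))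
namespace T4
def l0 : Tr := Tr.L (Pth.l (Pth.l (Pth.l Pth.z)))
def l1 : Tr := Tr.L (Pth.l (Pth.l (Pth.r Pth.z)))
def l2 : Tr := Tr.L (Pth.l (Pth.r (Pth.l Pth.z)))
def l3 : Tr := Tr.L (Pth.l (Pth.r (Pth.r Pth.z)))
def l4 : Tr := Tr.L (Pth.r (Pth.l (Pth.l Pth.z)))
def l5 : Tr := Tr.L (Pth.r (Pth.l (Pth.r Pth.z)))
def l6 : Tr := Tr.L (Pth.r (Pth.r (Pth.l Pth.z)))
def l7 : Tr := Tr.L (Pth.r (Pth.r (Pth.r Pth.z)))
end T4
def b5_0 : Bx := Bx.mk (St.mk (I.pos (nat_lit 149045248) (nat_lit 287309824)) (I.mix (nat_lit 23347200) (nat_lit 60899328)) (I.mix (nat_lit 35028992) (nat_lit 123060224)) (I.pos (nat_lit 121683968) (nat_lit 368869376)) (I.mix (nat_lit 112967680) (nat_lit 85131264)) (I.mix (nat_lit 128417792) (nat_lit 86884352)) (I.mix (nat_lit 195231744) (nat_lit 111820800)))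
  false (nat_lit 43189677)
def b5_1 : Bx := Bx.mk (St.mk (I.pos (nat_lit 109674496) (nat_lit 173637632)) (I.neg (nat_lit 9748480) (nat_lit 63946752)) (I.mix (nat_lit 49545216) (nat_lit 7864320)) (I.pos (nat_lit 102957056) (nat_lit 170672128)) (I.mix (nat_lit 69091328) (nat_lit 43778048)) (I.mix (nat_lit 37601280) (nat_lit 63062016)) (I.mix (nat_lit 35061760) (nat_lit 60702720)))
  false (nat_lit 0)
def b5_2 : Bx := Bx.mk (St.mk (I.mix (nat_lit 25608192) (nat_lit 88834048)) (I.mix (nat_lit 34570240) (nat_lit 3112960)) (I.mix (nat_lit 12369920) (nat_lit 10354688)) (I.pos (nat_lit 39878656) (nat_lit 91373568)) (I.mix (nat_lit 27672576) (nat_lit 25935872)) (I.mix (nat_lit 22413312) (nat_lit 28901376)) (I.mix (nat_lit 11698176) (nat_lit 15794176)))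
  false (nat_lit 0)
def b5_3 : Bx := Bx.mk (St.mk (I.pos (nat_lit 151928832) (nat_lit 217022464)) (I.mix (nat_lit 35094528) (nat_lit 72679424)) (I.mix (nat_lit 17104896) (nat_lit 128188416)) (I.pos (nat_lit 133971968) (nat_lit 234373120)) (I.mix (nat_lit 144031744) (nat_lit 58589184)) (I.mix (nat_lit 170835968) (nat_lit 101400576)) (I.mix (nat_lit 203325440) (nat_lit 104759296)))
  false (nat_lit 51913839)
def b5_4 : Bx := Bx.mk (St.mk (I.mix (nat_lit 44122112) (nat_lit 113377280)) (I.mix (nat_lit 10960896) (nat_lit 40140800)) (I.mix (nat_lit 3457024) (nat_lit 35405824)) (I.pos (nat_lit 38305792) (nat_lit 106102784)) (I.mix (nat_lit 49790976) (nat_lit 23281664)) (I.mix (nat_lit 50266112) (nat_lit 33947648)) (I.mix (nat_lit 29802496) (nat_lit 20430848)))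
  false (nat_lit 0)
def b5_5 : Bx := Bx.mk (St.mk (I.mix (nat_lit 45301760) (nat_lit 90734592)) (I.mix (nat_lit 13467648) (nat_lit 4096000)) (I.mix (nat_lit 1064960) (nat_lit 9764864)) (I.pos (nat_lit 40648704) (nat_lit 91373568)) (I.mix (nat_lit 4489216) (nat_lit 8224768)) (I.mix (nat_lit 3620864) (nat_lit 4947968)) (I.mix (nat_lit 1900544) (nat_lit 2981888)))
  false (nat_lit 0)
def b5_6 : Bx := Bx.mk (St.mk (I.pos (nat_lit 151715840) (nat_lit 170164224)) (I.neg (nat_lit 14172160) (nat_lit 37814272)) (I.mix (nat_lit 21233664) (nat_lit 7716864)) (I.pos (nat_lit 134053888) (nat_lit 171360256)) (I.mix (nat_lit 20316160) (nat_lit 17416192)) (I.mix (nat_lit 13795328) (nat_lit 17219584)) (I.mix (nat_lit 13811712) (nat_lit 18661376)))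
  false (nat_lit 0)
def b5_7 : Bx := Bx.mk (St.mk (I.mix (nat_lit 27852800) (nat_lit 127221760)) (I.mix (nat_lit 8404992) (nat_lit 34537472)) (I.mix (nat_lit 4161536) (nat_lit 32243712)) (I.pos (nat_lit 37011456) (nat_lit 118767616)) (I.mix (nat_lit 43089920) (nat_lit 34537472)) (I.mix (nat_lit 48398336) (nat_lit 28999680)) (I.mix (nat_lit 35405824) (nat_lit 20316160)))
  false (nat_lit 0)
def b5_8 : Bx := Bx.mk (St.mk (I.pos (nat_lit 94601216) (nat_lit 151044096)) (I.mix (nat_lit 66781184) (nat_lit 11206656)) (I.mix (nat_lit 50937856) (nat_lit 14925824)) (I.pos (nat_lit 77742080) (nat_lit 145981440)) (I.mix (nat_lit 88342528) (nat_lit 33603584)) (I.mix (nat_lit 57311232) (nat_lit 98107392)) (I.mix (nat_lit 42631168) (nat_lit 70762496)))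
  false (nat_lit 0)
def b5_9 : Bx := Bx.mk (St.mk (I.mix (nat_lit 41500672) (nat_lit 77594624)) (I.mix (nat_lit 31899648) (nat_lit 6668288)) (I.mix (nat_lit 10059776) (nat_lit 9453568)) (I.pos (nat_lit 40206336) (nat_lit 83902464)) (I.mix (nat_lit 29655040) (nat_lit 19283968)) (I.mix (nat_lit 21872640) (nat_lit 34340864)) (I.mix (nat_lit 9011200) (nat_lit 12910592)))
  false (nat_lit 0)
def t5 : BTr := (BTr.n (BTr.n (BTr.n (BTr.b b5_0) (BTr.b b5_1)) (BTr.n (BTr.b b5_2) (BTr.n (BTr.b b5_3) (BTr.b b5_4)))) (BTr.n (BTr.n (BTr.b b5_5) (BTr.b b5_6)) (BTr.n (BTr.b b5_7) (BTr.n (BTr.b b5_8) (BTr.b b5_9)))))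
namespace T5
def l0 : Tr := Tr.L (Pth.l (Pth.l (Pth.l Pth.z)))
def l1 : Tr := Tr.L (Pth.l (Pth.l (Pth.r Pth.z)))
def l2 : Tr := Tr.L (Pth.l (Pth.r (Pth.l Pth.z)))
def l3 : Tr := Tr.L (Pth.l (Pth.r (Pth.r (Pth.l Pth.z))))
def l4 : Tr := Tr.L (Pth.l (Pth.r (Pth.r (Pth.r Pth.z))))
def l5 : Tr := Tr.L (Pth.r (Pth.l (Pth.l Pth.z)))
def l6 : Tr := Tr.L (Pth.r (Pth.l (Pth.r Pth.z)))
def l7 : Tr := Tr.L (Pth.r (Pth.r (Pth.l Pth.z)))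
def l8 : Tr := Tr.L (Pth.r (Pth.r (Pth.r (Pth.l Pth.z))))
def l9 : Tr := Tr.L (Pth.r (Pth.r (Pth.r (Pth.r Pth.z))))
end T5
theorem bx0_0 : BoxOK sI cl5 cl7 cl9 t2 t4 b0_0 :=
  box_mk (TrL.c (I.pos (nat_lit 0) (nat_lit 0)) (xa (xa T2.l0 T2.l0) (xa T2.l0 T2.l0))
  (TrL.c (I.pos (nat_lit 0) (nat_lit 0)) (xa T4.l1 T4.l1)
  (TrL.c (I.pos (nat_lit 0) (nat_lit 0)) T2.l1
  (TrL.c (I.pos (nat_lit 0) (nat_lit 0)) T4.l2
  (TrL.c (I.pos (nat_lit 0) (nat_lit 0)) (xa T4.l3 (xa T4.l3 (xb T4.l3 T4.l3)))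
  (TrL.c (I.pos (nat_lit 0) (nat_lit 0)) T2.l2
  (TrL.c (I.pos (nat_lit 0) (nat_lit 0)) T4.l4
  (TrL.c (I.pos (nat_lit 0) (nat_lit 0)) T2.l3
  TrL.n)))))))) (by decide +kernel)
theorem bx0_1 : BoxOK sI cl5 cl7 cl9 t2 t4 b0_1 :=
  box_mk (TrL.c (I.pos (nat_lit 0) (nat_lit 0)) T2.l0
  (TrL.c (I.pos (nat_lit 0) (nat_lit 0)) T4.l1
  (TrL.c (I.pos (nat_lit 0) (nat_lit 0)) T2.l1
  (TrL.c (I.pos (nat_lit 0) (nat_lit 0)) T4.l2
  (TrL.c (I.pos (nat_lit 0) (nat_lit 0)) T4.l3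
  (TrL.c (I.pos (nat_lit 0) (nat_lit 0)) T2.l2
  (TrL.c (I.pos (nat_lit 0) (nat_lit 0)) T4.l4
  (TrL.c (I.pos (nat_lit 0) (nat_lit 0)) T2.l3
  TrL.n)))))))) (by decide +kernel)
theorem bx0_2 : BoxOK sI cl5 cl7 cl9 t2 t4 b0_2 :=
  box_mk (TrL.c (I.pos (nat_lit 0) (nat_lit 0)) T2.l0
  (TrL.c (I.pos (nat_lit 0) (nat_lit 0)) T4.l1
  (TrL.c (I.pos (nat_lit 0) (nat_lit 0)) T2.l1
  (TrL.c (I.pos (nat_lit 0) (nat_lit 0)) T4.l2
  (TrL.c (I.pos (nat_lit 0) (nat_lit 0)) T4.l3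
  (TrL.c (I.pos (nat_lit 0) (nat_lit 0)) T2.l2
  (TrL.c (I.pos (nat_lit 0) (nat_lit 0)) T4.l4
  (TrL.c (I.pos (nat_lit 0) (nat_lit 0)) T2.l3
  TrL.n)))))))) (by decide +kernel)
theorem bx0_3 : BoxOK sI cl5 cl7 cl9 t2 t4 b0_3 :=
  box_mk (TrL.c (I.pos (nat_lit 0) (nat_lit 0)) (xa T2.l0 T2.l0)
  (TrL.c (I.pos (nat_lit 0) (nat_lit 0)) T4.l1
  (TrL.c (I.pos (nat_lit 0) (nat_lit 0)) T2.l1
  (TrL.c (I.pos (nat_lit 0) (nat_lit 0)) T4.l2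
  (TrL.c (I.pos (nat_lit 0) (nat_lit 0)) T4.l3
  (TrL.c (I.pos (nat_lit 0) (nat_lit 0)) T2.l2
  (TrL.c (I.pos (nat_lit 0) (nat_lit 0)) T4.l4
  (TrL.c (I.pos (nat_lit 0) (nat_lit 0)) T2.l3
  TrL.n)))))))) (by decide +kernel)
theorem bx0_4 : BoxOK sI cl5 cl7 cl9 t2 t4 b0_4 :=
  box_mk (TrL.c (I.pos (nat_lit 0) (nat_lit 0)) T2.l0
  (TrL.c (I.pos (nat_lit 0) (nat_lit 0)) T4.l1
  (TrL.c (I.pos (nat_lit 0) (nat_lit 0)) T2.l1
  (TrL.c (I.pos (nat_lit 0) (nat_lit 0)) T4.l2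
  (TrL.c (I.pos (nat_lit 0) (nat_lit 0)) T4.l3
  (TrL.c (I.pos (nat_lit 0) (nat_lit 0)) T2.l2
  (TrL.c (I.pos (nat_lit 0) (nat_lit 0)) T4.l4
  (TrL.c (I.pos (nat_lit 0) (nat_lit 0)) T2.l3
  TrL.n)))))))) (by decide +kernel)
theorem bx0_5 : BoxOK sI cl5 cl7 cl9 t2 t4 b0_5 :=
  box_mk (TrL.c (I.pos (nat_lit 0) (nat_lit 0)) T2.l0
  (TrL.c (I.pos (nat_lit 0) (nat_lit 0)) T4.l1
  (TrL.c (I.pos (nat_lit 0) (nat_lit 0)) T2.l1
  (TrL.c (I.pos (nat_lit 0) (nat_lit 0)) T4.l2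
  (TrL.c (I.pos (nat_lit 0) (nat_lit 0)) T4.l3
  (TrL.c (I.pos (nat_lit 0) (nat_lit 0)) T2.l2
  (TrL.c (I.pos (nat_lit 0) (nat_lit 0)) T4.l4
  (TrL.c (I.pos (nat_lit 0) (nat_lit 0)) T2.l3
  TrL.n)))))))) (by decide +kernel)
theorem bx0_6 : BoxOK sI cl5 cl7 cl9 t2 t4 b0_6 :=
  box_mk (TrL.c (I.pos (nat_lit 0) (nat_lit 0)) T2.l0
  (TrL.c (I.pos (nat_lit 0) (nat_lit 0)) T4.l1
  (TrL.c (I.pos (nat_lit 0) (nat_lit 0)) T2.l1
  (TrL.c (I.pos (nat_lit 0) (nat_lit 0)) T4.l2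
  (TrL.c (I.pos (nat_lit 0) (nat_lit 0)) T4.l3
  (TrL.c (I.pos (nat_lit 0) (nat_lit 0)) T2.l2
  (TrL.c (I.pos (nat_lit 0) (nat_lit 0)) T4.l4
  (TrL.c (I.pos (nat_lit 0) (nat_lit 0)) T2.l3
  TrL.n)))))))) (by decide +kernel)
theorem bx0_7 : BoxOK sI cl5 cl7 cl9 t2 t4 b0_7 :=
  box_mk (TrL.c (I.pos (nat_lit 0) (nat_lit 0)) T2.l0
  (TrL.c (I.pos (nat_lit 0) (nat_lit 0)) T4.l1
  (TrL.c (I.pos (nat_lit 0) (nat_lit 0)) T2.l1
  (TrL.c (I.pos (nat_lit 0) (nat_lit 0)) T4.l2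
  (TrL.c (I.pos (nat_lit 0) (nat_lit 0)) T4.l3
  (TrL.c (I.pos (nat_lit 0) (nat_lit 0)) T2.l2
  (TrL.c (I.pos (nat_lit 0) (nat_lit 0)) T4.l4
  (TrL.c (I.pos (nat_lit 0) (nat_lit 0)) T2.l3
  TrL.n)))))))) (by decide +kernel)
theorem bx0_8 : BoxOK sI cl5 cl7 cl9 t2 t4 b0_8 :=
  box_mk (TrL.c (I.pos (nat_lit 0) (nat_lit 0)) (xb (xa T2.l0 T2.l0) (xa T2.l0 T2.l0))
  (TrL.c (I.pos (nat_lit 0) (nat_lit 0)) (xb T4.l1 T4.l1)
  (TrL.c (I.pos (nat_lit 0) (nat_lit 0)) T2.l1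
  (TrL.c (I.pos (nat_lit 0) (nat_lit 0)) T4.l2
  (TrL.c (I.pos (nat_lit 0) (nat_lit 0)) (xb T4.l3 T4.l3)
  (TrL.c (I.pos (nat_lit 0) (nat_lit 0)) T2.l2
  (TrL.c (I.pos (nat_lit 0) (nat_lit 0)) T4.l4
  (TrL.c (I.pos (nat_lit 0) (nat_lit 0)) T2.l3
  TrL.n)))))))) (by decide +kernel)
theorem bx0_9 : BoxOK sI cl5 cl7 cl9 t2 t4 b0_9 :=
  box_mk (TrL.c (I.pos (nat_lit 0) (nat_lit 0)) (xa T2.l0 T2.l0)
  (TrL.c (I.pos (nat_lit 0) (nat_lit 0)) T4.l1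
  (TrL.c (I.pos (nat_lit 0) (nat_lit 0)) T2.l1
  (TrL.c (I.pos (nat_lit 0) (nat_lit 0)) T4.l2
  (TrL.c (I.pos (nat_lit 0) (nat_lit 0)) T4.l3
  (TrL.c (I.pos (nat_lit 0) (nat_lit 0)) T2.l2
  (TrL.c (I.pos (nat_lit 0) (nat_lit 0)) T4.l4
  (TrL.c (I.pos (nat_lit 0) (nat_lit 0)) T2.l3
  TrL.n)))))))) (by decide +kernel)
theorem sv0 : StarV sI cl5 cl7 cl9 t2 t4 t0 :=
  (bt_n (bt_n (bt_n (bt_b bx0_0) (bt_b bx0_1)) (bt_n (bt_b bx0_2) (bt_n (bt_b bx0_3) (bt_b bx0_4)))) (bt_n (bt_n (bt_b bx0_5) (bt_b bx0_6)) (bt_n (bt_b bx0_7) (bt_n (bt_b bx0_8) (bt_b bx0_9)))))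
def S0 : StarD := StarD.mk cl5 cl7 cl9 2 4 t0
theorem bx1_0 : BoxOK sI cl5 cl9 cl7 t4 t2 b1_0 :=
  box_mk (TrL.c (I.pos (nat_lit 0) (nat_lit 0)) (xa (xa T4.l0 T4.l0) (xa T4.l0 T4.l0))
  (TrL.c (I.pos (nat_lit 0) (nat_lit 0)) (xa T2.l4 T2.l4)
  (TrL.c (I.pos (nat_lit 0) (nat_lit 0)) T4.l5
  (TrL.c (I.pos (nat_lit 0) (nat_lit 0)) T2.l5
  (TrL.c (I.pos (nat_lit 0) (nat_lit 0)) (xa T2.l6 (xa T2.l6 (xb T2.l6 T2.l6)))
  (TrL.c (I.pos (nat_lit 0) (nat_lit 0)) (xa T4.l6 T4.l6)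
  (TrL.c (I.pos (nat_lit 0) (nat_lit 0)) T2.l7
  (TrL.c (I.pos (nat_lit 0) (nat_lit 0)) T4.l7
  TrL.n)))))))) (by decide +kernel)
theorem bx1_1 : BoxOK sI cl5 cl9 cl7 t4 t2 b1_1 :=
  box_mk (TrL.c (I.pos (nat_lit 0) (nat_lit 0)) (xa T4.l0 T4.l0)
  (TrL.c (I.pos (nat_lit 0) (nat_lit 0)) T2.l4
  (TrL.c (I.pos (nat_lit 0) (nat_lit 0)) T4.l5
  (TrL.c (I.pos (nat_lit 0) (nat_lit 0)) T2.l5
  (TrL.c (I.pos (nat_lit 0) (nat_lit 0)) T2.l6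
  (TrL.c (I.pos (nat_lit 0) (nat_lit 0)) T4.l6
  (TrL.c (I.pos (nat_lit 0) (nat_lit 0)) T2.l7
  (TrL.c (I.pos (nat_lit 0) (nat_lit 0)) T4.l7
  TrL.n)))))))) (by decide +kernel)
theorem bx1_2 : BoxOK sI cl5 cl9 cl7 t4 t2 b1_2 :=
  box_mk (TrL.c (I.pos (nat_lit 0) (nat_lit 0)) T4.l0
  (TrL.c (I.pos (nat_lit 0) (nat_lit 0)) T2.l4
  (TrL.c (I.pos (nat_lit 0) (nat_lit 0)) T4.l5
  (TrL.c (I.pos (nat_lit 0) (nat_lit 0)) T2.l5
  (TrL.c (I.pos (nat_lit 0) (nat_lit 0)) T2.l6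
  (TrL.c (I.pos (nat_lit 0) (nat_lit 0)) T4.l6
  (TrL.c (I.pos (nat_lit 0) (nat_lit 0)) T2.l7
  (TrL.c (I.pos (nat_lit 0) (nat_lit 0)) T4.l7
  TrL.n)))))))) (by decide +kernel)
theorem bx1_3 : BoxOK sI cl5 cl9 cl7 t4 t2 b1_3 :=
  box_mk (TrL.c (I.pos (nat_lit 0) (nat_lit 0)) (xa T4.l0 T4.l0)
  (TrL.c (I.pos (nat_lit 0) (nat_lit 0)) T2.l4
  (TrL.c (I.pos (nat_lit 0) (nat_lit 0)) T4.l5
  (TrL.c (I.pos (nat_lit 0) (nat_lit 0)) T2.l5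
  (TrL.c (I.pos (nat_lit 0) (nat_lit 0)) T2.l6
  (TrL.c (I.pos (nat_lit 0) (nat_lit 0)) T4.l6
  (TrL.c (I.pos (nat_lit 0) (nat_lit 0)) T2.l7
  (TrL.c (I.pos (nat_lit 0) (nat_lit 0)) T4.l7
  TrL.n)))))))) (by decide +kernel)
theorem bx1_4 : BoxOK sI cl5 cl9 cl7 t4 t2 b1_4 :=
  box_mk (TrL.c (I.pos (nat_lit 0) (nat_lit 0)) T4.l0
  (TrL.c (I.pos (nat_lit 0) (nat_lit 0)) T2.l4
  (TrL.c (I.pos (nat_lit 0) (nat_lit 0)) T4.l5
  (TrL.c (I.pos (nat_lit 0) (nat_lit 0)) T2.l5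
  (TrL.c (I.pos (nat_lit 0) (nat_lit 0)) T2.l6
  (TrL.c (I.pos (nat_lit 0) (nat_lit 0)) T4.l6
  (TrL.c (I.pos (nat_lit 0) (nat_lit 0)) T2.l7
  (TrL.c (I.pos (nat_lit 0) (nat_lit 0)) T4.l7
  TrL.n)))))))) (by decide +kernel)
theorem bx1_5 : BoxOK sI cl5 cl9 cl7 t4 t2 b1_5 :=
  box_mk (TrL.c (I.pos (nat_lit 0) (nat_lit 0)) T4.l0
  (TrL.c (I.pos (nat_lit 0) (nat_lit 0)) T2.l4
  (TrL.c (I.pos (nat_lit 0) (nat_lit 0)) T4.l5
  (TrL.c (I.pos (nat_lit 0) (nat_lit 0)) T2.l5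
  (TrL.c (I.pos (nat_lit 0) (nat_lit 0)) T2.l6
  (TrL.c (I.pos (nat_lit 0) (nat_lit 0)) T4.l6
  (TrL.c (I.pos (nat_lit 0) (nat_lit 0)) T2.l7
  (TrL.c (I.pos (nat_lit 0) (nat_lit 0)) T4.l7
  TrL.n)))))))) (by decide +kernel)
theorem bx1_6 : BoxOK sI cl5 cl9 cl7 t4 t2 b1_6 :=
  box_mk (TrL.c (I.pos (nat_lit 0) (nat_lit 0)) T4.l0
  (TrL.c (I.pos (nat_lit 0) (nat_lit 0)) T2.l4
  (TrL.c (I.pos (nat_lit 0) (nat_lit 0)) T4.l5
  (TrL.c (I.pos (nat_lit 0) (nat_lit 0)) T2.l5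
  (TrL.c (I.pos (nat_lit 0) (nat_lit 0)) T2.l6
  (TrL.c (I.pos (nat_lit 0) (nat_lit 0)) T4.l6
  (TrL.c (I.pos (nat_lit 0) (nat_lit 0)) T2.l7
  (TrL.c (I.pos (nat_lit 0) (nat_lit 0)) T4.l7
  TrL.n)))))))) (by decide +kernel)
theorem bx1_7 : BoxOK sI cl5 cl9 cl7 t4 t2 b1_7 :=
  box_mk (TrL.c (I.pos (nat_lit 0) (nat_lit 0)) T4.l0
  (TrL.c (I.pos (nat_lit 0) (nat_lit 0)) T2.l4
  (TrL.c (I.pos (nat_lit 0) (nat_lit 0)) T4.l5
  (TrL.c (I.pos (nat_lit 0) (nat_lit 0)) T2.l5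
  (TrL.c (I.pos (nat_lit 0) (nat_lit 0)) T2.l6
  (TrL.c (I.pos (nat_lit 0) (nat_lit 0)) T4.l6
  (TrL.c (I.pos (nat_lit 0) (nat_lit 0)) T2.l7
  (TrL.c (I.pos (nat_lit 0) (nat_lit 0)) T4.l7
  TrL.n)))))))) (by decide +kernel)
theorem bx1_8 : BoxOK sI cl5 cl9 cl7 t4 t2 b1_8 :=
  box_mk (TrL.c (I.pos (nat_lit 0) (nat_lit 0)) (xa (xb T4.l0 T4.l0) (xb T4.l0 T4.l0))
  (TrL.c (I.pos (nat_lit 0) (nat_lit 0)) (xb T2.l4 T2.l4)
  (TrL.c (I.pos (nat_lit 0) (nat_lit 0)) T4.l5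
  (TrL.c (I.pos (nat_lit 0) (nat_lit 0)) T2.l5
  (TrL.c (I.pos (nat_lit 0) (nat_lit 0)) (xb T2.l6 T2.l6)
  (TrL.c (I.pos (nat_lit 0) (nat_lit 0)) T4.l6
  (TrL.c (I.pos (nat_lit 0) (nat_lit 0)) T2.l7
  (TrL.c (I.pos (nat_lit 0) (nat_lit 0)) T4.l7
  TrL.n)))))))) (by decide +kernel)
theorem bx1_9 : BoxOK sI cl5 cl9 cl7 t4 t2 b1_9 :=
  box_mk (TrL.c (I.pos (nat_lit 0) (nat_lit 0)) (xa T4.l0 T4.l0)
  (TrL.c (I.pos (nat_lit 0) (nat_lit 0)) (xa T2.l4 T2.l4)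
  (TrL.c (I.pos (nat_lit 0) (nat_lit 0)) T4.l5
  (TrL.c (I.pos (nat_lit 0) (nat_lit 0)) T2.l5
  (TrL.c (I.pos (nat_lit 0) (nat_lit 0)) (xa T2.l6 T2.l6)
  (TrL.c (I.pos (nat_lit 0) (nat_lit 0)) T4.l6
  (TrL.c (I.pos (nat_lit 0) (nat_lit 0)) T2.l7
  (TrL.c (I.pos (nat_lit 0) (nat_lit 0)) T4.l7
  TrL.n)))))))) (by decide +kernel)
theorem sv1 : StarV sI cl5 cl9 cl7 t4 t2 t1 :=
  (bt_n (bt_n (bt_n (bt_b bx1_0) (bt_b bx1_1)) (bt_n (bt_b bx1_2) (bt_n (bt_b bx1_3) (bt_b bx1_4)))) (bt_n (bt_n (bt_b bx1_5) (bt_b bx1_6)) (bt_n (bt_b bx1_7) (bt_n (bt_b bx1_8) (bt_b bx1_9)))))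
def S1 : StarD := StarD.mk cl5 cl9 cl7 4 2 t1
theorem bx2_0 : BoxOK sI cl7 cl5 cl9 t0 t5 b2_0 :=
  box_mk (TrL.c (I.pos (nat_lit 0) (nat_lit 0)) (xa (xb T0.l0 (xa T0.l0 T0.l0)) (xa T0.l0 T0.l8))
  (TrL.c (I.pos (nat_lit 0) (nat_lit 0)) (xa T5.l1 T5.l8)
  (TrL.c (I.pos (nat_lit 0) (nat_lit 111196574)) (xR T0.l1 (xR T0.l1 T0.l9))
  (TrL.c (I.pos (nat_lit 0) (nat_lit 77433728)) (xR T5.l2 T5.l2)
  (TrL.c (I.pos (nat_lit 0) (nat_lit 0)) (xa (xb (xa T5.l3 T5.l3) T5.l3) (xb (xk (xa T5.l3 T5.l3) (xa T5.l3 T5.l3)) (xk (xa T5.l3 (xs T5.l3 T5.l3)) (xa T5.l3 (xs T5.l3 T5.l3)))))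
  (TrL.c (I.pos (nat_lit 0) (nat_lit 0)) (xa T0.l2 T0.l2)
  (TrL.c (I.mix (nat_lit 29511666) (nat_lit 77433728)) (xR T5.l4 (xR T5.l4 T5.l4))
  (TrL.c (I.mix (nat_lit 29511666) (nat_lit 46070178)) T0.l7
  TrL.n)))))))) (by decide +kernel)
theorem bx2_1 : BoxOK sI cl7 cl5 cl9 t0 t5 b2_1 :=
  box_mk (TrL.c (I.pos (nat_lit 0) (nat_lit 0)) T0.l0
  (TrL.c (I.pos (nat_lit 0) (nat_lit 0)) T5.l1
  (TrL.c (I.pos (nat_lit 0) (nat_lit 111196574)) T0.l1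
  (TrL.c (I.pos (nat_lit 0) (nat_lit 77433728)) T5.l2
  (TrL.c (I.pos (nat_lit 0) (nat_lit 0)) T5.l3
  (TrL.c (I.pos (nat_lit 0) (nat_lit 0)) T0.l2
  (TrL.c (I.mix (nat_lit 29511666) (nat_lit 77433728)) T5.l4
  (TrL.c (I.mix (nat_lit 29511666) (nat_lit 46070178)) T0.l3
  TrL.n)))))))) (by decide +kernel)
theorem bx2_2 : BoxOK sI cl7 cl5 cl9 t0 t5 b2_2 :=
  box_mk (TrL.c (I.pos (nat_lit 0) (nat_lit 0)) T0.l0
  (TrL.c (I.pos (nat_lit 0) (nat_lit 0)) T5.l1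
  (TrL.c (I.pos (nat_lit 0) (nat_lit 111196574)) T0.l1
  (TrL.c (I.pos (nat_lit 0) (nat_lit 77433728)) T5.l2
  (TrL.c (I.pos (nat_lit 0) (nat_lit 0)) T5.l3
  (TrL.c (I.pos (nat_lit 0) (nat_lit 0)) T0.l2
  (TrL.c (I.mix (nat_lit 29511666) (nat_lit 77433728)) T5.l4
  (TrL.c (I.mix (nat_lit 29511666) (nat_lit 46070178)) T0.l3
  TrL.n)))))))) (by decide +kernel)
theorem bx2_3 : BoxOK sI cl7 cl5 cl9 t0 t5 b2_3 :=
  box_mk (TrL.c (I.pos (nat_lit 0) (nat_lit 0)) T5.l1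
  (TrL.c (I.pos (nat_lit 0) (nat_lit 0)) T0.l1
  (TrL.c (I.mix (nat_lit 29511666) (nat_lit 77433728)) (xR T5.l4 T5.l2)
  (TrL.c (I.mix (nat_lit 29511666) (nat_lit 46070178)) T0.l9
  TrL.n)))) (by decide +kernel)
theorem bx2_4 : BoxOK sI cl7 cl5 cl9 t0 t5 b2_4 :=
  box_mk (TrL.c (I.pos (nat_lit 0) (nat_lit 0)) T0.l0
  (TrL.c (I.pos (nat_lit 0) (nat_lit 0)) T5.l1
  (TrL.c (I.pos (nat_lit 0) (nat_lit 111196574)) T0.l1
  (TrL.c (I.pos (nat_lit 0) (nat_lit 77433728)) T5.l2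
  (TrL.c (I.pos (nat_lit 0) (nat_lit 0)) T5.l3
  (TrL.c (I.pos (nat_lit 0) (nat_lit 0)) T0.l2
  (TrL.c (I.mix (nat_lit 29511666) (nat_lit 77433728)) T5.l4
  (TrL.c (I.mix (nat_lit 29511666) (nat_lit 46070178)) T0.l3
  TrL.n)))))))) (by decide +kernel)
theorem bx2_5 : BoxOK sI cl7 cl5 cl9 t0 t5 b2_5 :=
  box_mk (TrL.c (I.pos (nat_lit 0) (nat_lit 0)) T5.l6
  (TrL.c (I.pos (nat_lit 0) (nat_lit 0)) T0.l1
  (TrL.c (I.mix (nat_lit 29511666) (nat_lit 77433728)) (xR T5.l4 T5.l2)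
  (TrL.c (I.mix (nat_lit 29511666) (nat_lit 46070178)) T0.l9
  TrL.n)))) (by decide +kernel)
theorem bx2_6 : BoxOK sI cl7 cl5 cl9 t0 t5 b2_6 :=
  box_mk (TrL.c (I.pos (nat_lit 0) (nat_lit 0)) (xb T0.l0 (xa T0.l0 T0.l0))
  (TrL.c (I.pos (nat_lit 0) (nat_lit 0)) T5.l1
  (TrL.c (I.pos (nat_lit 0) (nat_lit 111196574)) (xR T0.l1 T0.l1)
  (TrL.c (I.pos (nat_lit 0) (nat_lit 77433728)) (xR T5.l2 T5.l2)
  (TrL.c (I.pos (nat_lit 0) (nat_lit 0)) (xb T5.l0 (xs T5.l3 T5.l3))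
  (TrL.c (I.pos (nat_lit 0) (nat_lit 0)) T0.l2
  (TrL.c (I.mix (nat_lit 29511666) (nat_lit 77433728)) (xR T5.l4 T5.l4)
  (TrL.c (I.mix (nat_lit 29511666) (nat_lit 46070178)) T0.l7
  TrL.n)))))))) (by decide +kernel)
theorem bx2_7 : BoxOK sI cl7 cl5 cl9 t0 t5 b2_7 :=
  box_mk (TrL.c (I.pos (nat_lit 0) (nat_lit 0)) T0.l0
  (TrL.c (I.pos (nat_lit 0) (nat_lit 0)) T5.l6
  (TrL.c (I.pos (nat_lit 0) (nat_lit 111196574)) T0.l1
  (TrL.c (I.pos (nat_lit 0) (nat_lit 77433728)) T5.l2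
  (TrL.c (I.pos (nat_lit 0) (nat_lit 0)) T5.l3
  (TrL.c (I.pos (nat_lit 0) (nat_lit 0)) T0.l2
  (TrL.c (I.mix (nat_lit 29511666) (nat_lit 77433728)) T5.l4
  (TrL.c (I.mix (nat_lit 29511666) (nat_lit 46070178)) T0.l3
  TrL.n)))))))) (by decide +kernel)
theorem sv2 : StarV sI cl7 cl5 cl9 t0 t5 t2 :=
  (bt_n (bt_n (bt_n (bt_b bx2_0) (bt_b bx2_1)) (bt_n (bt_b bx2_2) (bt_b bx2_3))) (bt_n (bt_n (bt_b bx2_4) (bt_b bx2_5)) (bt_n (bt_b bx2_6) (bt_b bx2_7))))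
def S2 : StarD := StarD.mk cl7 cl5 cl9 0 5 t2
theorem bx3_0 : BoxOK sI cl7 cl9 cl5 t5 t0 b3_0 :=
  box_mk (TrL.c (I.pos (nat_lit 0) (nat_lit 0)) (xa (xa T5.l0 (xb T5.l0 T5.l0)) (xa (xb T5.l0 T5.l0) (xb T5.l3 T5.l0)))
  (TrL.c (I.pos (nat_lit 0) (nat_lit 0)) (xa T0.l6 (xa T0.l6 T0.l6))
  (TrL.c (I.pos (nat_lit 0) (nat_lit 111196574)) (xR T5.l7 (xR T5.l7 T5.l7))
  (TrL.c (I.pos (nat_lit 0) (nat_lit 77433728)) (xR T0.l7 T0.l7)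
  (TrL.c (I.pos (nat_lit 0) (nat_lit 0)) (xa (xa T0.l8 (xb T0.l8 T0.l8)) (xa (xb (xk T0.l8 T0.l8) T0.l8) (xk (xb (xa T0.l8 T0.l8) (xa T0.l8 (xs T0.l8 T0.l8))) (xb T0.l8 (xa T0.l8 (xs T0.l8 (xb T0.l8 T0.l8)))))))
  (TrL.c (I.pos (nat_lit 0) (nat_lit 0)) (xa T5.l8 T5.l8)
  (TrL.c (I.mix (nat_lit 29511666) (nat_lit 77433728)) (xR T0.l9 (xR T0.l9 T0.l9))
  (TrL.c (I.mix (nat_lit 29511666) (nat_lit 46070178)) (xR T5.l2 T5.l9)
  TrL.n)))))))) (by decide +kernel)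
theorem bx3_1 : BoxOK sI cl7 cl9 cl5 t5 t0 b3_1 :=
  box_mk (TrL.c (I.pos (nat_lit 0) (nat_lit 0)) T5.l0
  (TrL.c (I.pos (nat_lit 0) (nat_lit 0)) T0.l6
  (TrL.c (I.pos (nat_lit 0) (nat_lit 111196574)) T5.l7
  (TrL.c (I.pos (nat_lit 0) (nat_lit 77433728)) T0.l7
  (TrL.c (I.pos (nat_lit 0) (nat_lit 0)) T0.l8
  (TrL.c (I.pos (nat_lit 0) (nat_lit 0)) T5.l8
  (TrL.c (I.mix (nat_lit 29511666) (nat_lit 77433728)) (xR T0.l9 T0.l9)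
  (TrL.c (I.mix (nat_lit 29511666) (nat_lit 46070178)) T5.l9
  TrL.n)))))))) (by decide +kernel)
theorem bx3_2 : BoxOK sI cl7 cl9 cl5 t5 t0 b3_2 :=
  box_mk (TrL.c (I.pos (nat_lit 0) (nat_lit 0)) (xa T5.l0 T5.l0)
  (TrL.c (I.pos (nat_lit 0) (nat_lit 0)) T0.l6
  (TrL.c (I.pos (nat_lit 0) (nat_lit 111196574)) T5.l7
  (TrL.c (I.pos (nat_lit 0) (nat_lit 77433728)) (xR T0.l7 T0.l7)
  (TrL.c (I.pos (nat_lit 0) (nat_lit 0)) T0.l8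
  (TrL.c (I.pos (nat_lit 0) (nat_lit 0)) T5.l8
  (TrL.c (I.mix (nat_lit 29511666) (nat_lit 77433728)) T0.l9
  (TrL.c (I.mix (nat_lit 29511666) (nat_lit 46070178)) T5.l9
  TrL.n)))))))) (by decide +kernel)
theorem bx3_3 : BoxOK sI cl7 cl9 cl5 t5 t0 b3_3 :=
  box_mk (TrL.c (I.pos (nat_lit 0) (nat_lit 0)) (xa (xb T5.l0 T5.l0) T5.l0)
  (TrL.c (I.pos (nat_lit 0) (nat_lit 0)) (xb T0.l6 T0.l6)
  (TrL.c (I.pos (nat_lit 0) (nat_lit 111196574)) (xR T5.l7 T5.l7)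
  (TrL.c (I.pos (nat_lit 0) (nat_lit 77433728)) (xR T0.l7 T0.l7)
  (TrL.c (I.pos (nat_lit 0) (nat_lit 0)) (xb (xa T0.l8 T0.l8) T0.l8)
  (TrL.c (I.pos (nat_lit 0) (nat_lit 0)) T5.l8
  (TrL.c (I.mix (nat_lit 29511666) (nat_lit 77433728)) (xR T0.l9 T0.l9)
  (TrL.c (I.mix (nat_lit 29511666) (nat_lit 46070178)) (xR T5.l9 T5.l9)
  TrL.n)))))))) (by decide +kernel)
theorem bx3_4 : BoxOK sI cl7 cl9 cl5 t5 t0 b3_4 :=
  box_mk (TrL.c (I.pos (nat_lit 0) (nat_lit 0)) (xa T5.l0 T5.l0)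
  (TrL.c (I.pos (nat_lit 0) (nat_lit 0)) (xa T0.l6 T0.l6)
  (TrL.c (I.pos (nat_lit 0) (nat_lit 111196574)) T5.l7
  (TrL.c (I.pos (nat_lit 0) (nat_lit 77433728)) (xR T0.l7 T0.l7)
  (TrL.c (I.pos (nat_lit 0) (nat_lit 0)) (xa T0.l8 T0.l8)
  (TrL.c (I.pos (nat_lit 0) (nat_lit 0)) T5.l8
  (TrL.c (I.mix (nat_lit 29511666) (nat_lit 77433728)) T0.l9
  (TrL.c (I.mix (nat_lit 29511666) (nat_lit 46070178)) T5.l9
  TrL.n)))))))) (by decide +kernel)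
theorem bx3_5 : BoxOK sI cl7 cl9 cl5 t5 t0 b3_5 :=
  box_mk (TrL.c (I.pos (nat_lit 0) (nat_lit 0)) T5.l0
  (TrL.c (I.pos (nat_lit 0) (nat_lit 0)) T0.l6
  (TrL.c (I.pos (nat_lit 0) (nat_lit 111196574)) T5.l7
  (TrL.c (I.pos (nat_lit 0) (nat_lit 77433728)) T0.l7
  (TrL.c (I.pos (nat_lit 0) (nat_lit 0)) T0.l8
  (TrL.c (I.pos (nat_lit 0) (nat_lit 0)) T5.l8
  (TrL.c (I.mix (nat_lit 29511666) (nat_lit 77433728)) T0.l1
  (TrL.c (I.mix (nat_lit 29511666) (nat_lit 46070178)) T5.l9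
  TrL.n)))))))) (by decide +kernel)
theorem bx3_6 : BoxOK sI cl7 cl9 cl5 t5 t0 b3_6 :=
  box_mk (TrL.c (I.pos (nat_lit 0) (nat_lit 0)) T5.l0
  (TrL.c (I.pos (nat_lit 0) (nat_lit 0)) T0.l6
  (TrL.c (I.pos (nat_lit 0) (nat_lit 111196574)) T5.l7
  (TrL.c (I.pos (nat_lit 0) (nat_lit 77433728)) (xR T0.l7 T0.l7)
  (TrL.c (I.pos (nat_lit 0) (nat_lit 0)) T0.l8
  (TrL.c (I.pos (nat_lit 0) (nat_lit 0)) T5.l8
  (TrL.c (I.mix (nat_lit 29511666) (nat_lit 77433728)) T0.l9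
  (TrL.c (I.mix (nat_lit 29511666) (nat_lit 46070178)) T5.l9
  TrL.n)))))))) (by decide +kernel)
theorem bx3_7 : BoxOK sI cl7 cl9 cl5 t5 t0 b3_7 :=
  box_mk (TrL.c (I.pos (nat_lit 0) (nat_lit 0)) T5.l0
  (TrL.c (I.pos (nat_lit 0) (nat_lit 0)) T0.l6
  (TrL.c (I.pos (nat_lit 0) (nat_lit 111196574)) T5.l7
  (TrL.c (I.pos (nat_lit 0) (nat_lit 77433728)) T0.l7
  (TrL.c (I.pos (nat_lit 0) (nat_lit 0)) T0.l8
  (TrL.c (I.pos (nat_lit 0) (nat_lit 0)) T5.l8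
  (TrL.c (I.mix (nat_lit 29511666) (nat_lit 77433728)) (xR T0.l9 T0.l9)
  (TrL.c (I.mix (nat_lit 29511666) (nat_lit 46070178)) T5.l9
  TrL.n)))))))) (by decide +kernel)
theorem bx3_8 : BoxOK sI cl7 cl9 cl5 t5 t0 b3_8 :=
  box_mk (TrL.c (I.pos (nat_lit 0) (nat_lit 0)) T5.l0
  (TrL.c (I.pos (nat_lit 0) (nat_lit 0)) T0.l6
  (TrL.c (I.pos (nat_lit 0) (nat_lit 111196574)) T5.l7
  (TrL.c (I.pos (nat_lit 0) (nat_lit 77433728)) T0.l7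
  (TrL.c (I.pos (nat_lit 0) (nat_lit 0)) T0.l8
  (TrL.c (I.pos (nat_lit 0) (nat_lit 0)) T5.l8
  (TrL.c (I.mix (nat_lit 29511666) (nat_lit 77433728)) (xR T0.l9 T0.l9)
  (TrL.c (I.mix (nat_lit 29511666) (nat_lit 46070178)) T5.l9
  TrL.n)))))))) (by decide +kernel)
theorem bx3_9 : BoxOK sI cl7 cl9 cl5 t5 t0 b3_9 :=
  box_mk (TrL.c (I.pos (nat_lit 0) (nat_lit 0)) (xa (xa T5.l0 T5.l0) T5.l0)
  (TrL.c (I.pos (nat_lit 0) (nat_lit 0)) T0.l6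
  (TrL.c (I.pos (nat_lit 0) (nat_lit 111196574)) T5.l7
  (TrL.c (I.pos (nat_lit 0) (nat_lit 77433728)) (xR T0.l7 T0.l7)
  (TrL.c (I.pos (nat_lit 0) (nat_lit 0)) T0.l8
  (TrL.c (I.pos (nat_lit 0) (nat_lit 0)) T5.l8
  (TrL.c (I.mix (nat_lit 29511666) (nat_lit 77433728)) T0.l9
  (TrL.c (I.mix (nat_lit 29511666) (nat_lit 46070178)) T5.l9
  TrL.n)))))))) (by decide +kernel)
theorem sv3 : StarV sI cl7 cl9 cl5 t5 t0 t3 :=
  (bt_n (bt_n (bt_n (bt_b bx3_0) (bt_b bx3_1)) (bt_n (bt_b bx3_2) (bt_n (bt_b bx3_3) (bt_b bx3_4)))) (bt_n (bt_n (bt_b bx3_5) (bt_b bx3_6)) (bt_n (bt_b bx3_7) (bt_n (bt_b bx3_8) (bt_b bx3_9)))))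
def S3 : StarD := StarD.mk cl7 cl9 cl5 5 0 t3
theorem bx4_0 : BoxOK sI cl9 cl5 cl7 t1 t3 b4_0 :=
  box_mk (TrL.c (I.pos (nat_lit 0) (nat_lit 0)) (xa (xb T1.l0 T1.l0) T1.l0)
  (TrL.c (I.pos (nat_lit 0) (nat_lit 0)) (xa T3.l1 T3.l8)
  (TrL.c (I.pos (nat_lit 0) (nat_lit 124588530)) (xR T1.l1 (xR T1.l1 T1.l9))
  (TrL.c (I.pos (nat_lit 0) (nat_lit 96881482)) (xR T3.l2 T3.l2)
  (TrL.c (I.pos (nat_lit 0) (nat_lit 0)) (xa (xb T3.l0 T3.l3) (xa (xb T3.l3 (xs T3.l3 T3.l3)) (xk (xb T3.l3 (xs T3.l3 (xb T3.l3 (xs T3.l3 (xa T3.l3 T3.l3))))) (xb T3.l3 (xs T3.l3 (xa (xb T3.l3 T3.l3) (xb T3.l3 (xk (xs T3.l3 T3.l3) (xs T3.l3 (xb T3.l3 T3.l3))))))))))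
  (TrL.c (I.pos (nat_lit 0) (nat_lit 0)) T1.l2
  (TrL.c (I.mix (nat_lit 17240550) (nat_lit 96881482)) (xR T3.l4 (xR T3.l4 T3.l4))
  (TrL.c (I.mix (nat_lit 17240550) (nat_lit 71940500)) T1.l7
  TrL.n)))))))) (by decide +kernel)
theorem bx4_1 : BoxOK sI cl9 cl5 cl7 t1 t3 b4_1 :=
  box_mk (TrL.c (I.pos (nat_lit 0) (nat_lit 0)) T1.l0
  (TrL.c (I.pos (nat_lit 0) (nat_lit 0)) T3.l1
  (TrL.c (I.pos (nat_lit 0) (nat_lit 124588530)) T1.l1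
  (TrL.c (I.pos (nat_lit 0) (nat_lit 96881482)) T3.l2
  (TrL.c (I.pos (nat_lit 0) (nat_lit 0)) T3.l3
  (TrL.c (I.pos (nat_lit 0) (nat_lit 0)) T1.l2
  (TrL.c (I.mix (nat_lit 17240550) (nat_lit 96881482)) T3.l4
  (TrL.c (I.mix (nat_lit 17240550) (nat_lit 71940500)) T1.l3
  TrL.n)))))))) (by decide +kernel)
theorem bx4_2 : BoxOK sI cl9 cl5 cl7 t1 t3 b4_2 :=
  box_mk (TrL.c (I.pos (nat_lit 0) (nat_lit 0)) T3.l1
  (TrL.c (I.pos (nat_lit 0) (nat_lit 0)) T1.l1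
  (TrL.c (I.mix (nat_lit 17240550) (nat_lit 96881482)) (xR T3.l6 T3.l6)
  (TrL.c (I.mix (nat_lit 17240550) (nat_lit 71940500)) T1.l1
  TrL.n)))) (by decide +kernel)
theorem bx4_3 : BoxOK sI cl9 cl5 cl7 t1 t3 b4_3 :=
  box_mk (TrL.c (I.pos (nat_lit 0) (nat_lit 0)) (xb T1.l0 T1.l0)
  (TrL.c (I.pos (nat_lit 0) (nat_lit 0)) T3.l1
  (TrL.c (I.pos (nat_lit 0) (nat_lit 124588530)) (xR T1.l1 (xR T1.l1 T1.l9))
  (TrL.c (I.pos (nat_lit 0) (nat_lit 96881482)) (xR T3.l2 T3.l2)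
  (TrL.c (I.pos (nat_lit 0) (nat_lit 0)) (xb T3.l0 (xs T3.l3 (xb T3.l3 (xa T3.l3 T3.l3))))
  (TrL.c (I.pos (nat_lit 0) (nat_lit 0)) T1.l2
  (TrL.c (I.mix (nat_lit 17240550) (nat_lit 96881482)) (xR T3.l4 T3.l4)
  (TrL.c (I.mix (nat_lit 17240550) (nat_lit 71940500)) T1.l7
  TrL.n)))))))) (by decide +kernel)
theorem bx4_4 : BoxOK sI cl9 cl5 cl7 t1 t3 b4_4 :=
  box_mk (TrL.c (I.pos (nat_lit 0) (nat_lit 0)) T1.l0
  (TrL.c (I.pos (nat_lit 0) (nat_lit 0)) T3.l1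
  (TrL.c (I.pos (nat_lit 0) (nat_lit 124588530)) T1.l1
  (TrL.c (I.pos (nat_lit 0) (nat_lit 96881482)) (xR T3.l2 T3.l6)
  (TrL.c (I.pos (nat_lit 0) (nat_lit 0)) T3.l3
  (TrL.c (I.pos (nat_lit 0) (nat_lit 0)) T1.l2
  (TrL.c (I.mix (nat_lit 17240550) (nat_lit 96881482)) T3.l4
  (TrL.c (I.mix (nat_lit 17240550) (nat_lit 71940500)) T1.l3
  TrL.n)))))))) (by decide +kernel)
theorem bx4_5 : BoxOK sI cl9 cl5 cl7 t1 t3 b4_5 :=
  box_mk (TrL.c (I.pos (nat_lit 0) (nat_lit 0)) T1.l0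
  (TrL.c (I.pos (nat_lit 0) (nat_lit 0)) T3.l1
  (TrL.c (I.pos (nat_lit 0) (nat_lit 124588530)) T1.l1
  (TrL.c (I.pos (nat_lit 0) (nat_lit 96881482)) T3.l2
  (TrL.c (I.pos (nat_lit 0) (nat_lit 0)) T3.l3
  (TrL.c (I.pos (nat_lit 0) (nat_lit 0)) T1.l2
  (TrL.c (I.mix (nat_lit 17240550) (nat_lit 96881482)) T3.l4
  (TrL.c (I.mix (nat_lit 17240550) (nat_lit 71940500)) T1.l3
  TrL.n)))))))) (by decide +kernel)
theorem bx4_6 : BoxOK sI cl9 cl5 cl7 t1 t3 b4_6 :=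
  box_mk (TrL.c (I.pos (nat_lit 0) (nat_lit 0)) T1.l0
  (TrL.c (I.pos (nat_lit 0) (nat_lit 0)) T3.l1
  (TrL.c (I.pos (nat_lit 0) (nat_lit 124588530)) T1.l1
  (TrL.c (I.pos (nat_lit 0) (nat_lit 96881482)) (xR T3.l2 T3.l2)
  (TrL.c (I.pos (nat_lit 0) (nat_lit 0)) T3.l3
  (TrL.c (I.pos (nat_lit 0) (nat_lit 0)) T1.l2
  (TrL.c (I.mix (nat_lit 17240550) (nat_lit 96881482)) T3.l4
  (TrL.c (I.mix (nat_lit 17240550) (nat_lit 71940500)) T1.l3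
  TrL.n)))))))) (by decide +kernel)
theorem bx4_7 : BoxOK sI cl9 cl5 cl7 t1 t3 b4_7 :=
  box_mk (TrL.c (I.pos (nat_lit 0) (nat_lit 0)) T3.l1
  (TrL.c (I.pos (nat_lit 0) (nat_lit 0)) T1.l1
  (TrL.c (I.mix (nat_lit 17240550) (nat_lit 96881482)) (xR T3.l6 T3.l2)
  (TrL.c (I.mix (nat_lit 17240550) (nat_lit 71940500)) T1.l9
  TrL.n)))) (by decide +kernel)
theorem sv4 : StarV sI cl9 cl5 cl7 t1 t3 t4 :=
  (bt_n (bt_n (bt_n (bt_b bx4_0) (bt_b bx4_1)) (bt_n (bt_b bx4_2) (bt_b bx4_3))) (bt_n (bt_n (bt_b bx4_4) (bt_b bx4_5)) (bt_n (bt_b bx4_6) (bt_b bx4_7))))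
def S4 : StarD := StarD.mk cl9 cl5 cl7 1 3 t4
theorem bx5_0 : BoxOK sI cl9 cl7 cl5 t3 t1 b5_0 :=
  box_mk (TrL.c (I.pos (nat_lit 0) (nat_lit 0)) (xa (xa T3.l0 T3.l0) (xb (xa T3.l0 T3.l0) (xa T3.l0 T3.l0)))
  (TrL.c (I.pos (nat_lit 0) (nat_lit 0)) (xa T1.l6 (xa T1.l6 T1.l6))
  (TrL.c (I.pos (nat_lit 0) (nat_lit 124588530)) (xR T3.l4 (xR T3.l7 T3.l7))
  (TrL.c (I.pos (nat_lit 0) (nat_lit 96881482)) (xR T1.l7 T1.l7)
  (TrL.c (I.pos (nat_lit 0) (nat_lit 0)) (xa (xa T1.l8 (xb T1.l8 T1.l8)) (xa (xb T1.l8 T1.l8) (xk (xb T1.l8 (xa T1.l8 (xs T1.l8 (xb T1.l8 (xs T1.l8 T1.l8))))) (xb T1.l8 (xa (xs T1.l8 T1.l8) (xs T1.l8 (xb T1.l8 (xs T1.l8 (xk T1.l8 (xb T1.l8 T1.l8))))))))))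
  (TrL.c (I.pos (nat_lit 0) (nat_lit 0)) (xa T3.l8 T3.l8)
  (TrL.c (I.mix (nat_lit 17240550) (nat_lit 96881482)) (xR T1.l9 (xR T1.l9 T1.l9))
  (TrL.c (I.mix (nat_lit 17240550) (nat_lit 71940500)) (xR T3.l9 T3.l9)
  TrL.n)))))))) (by decide +kernel)
theorem bx5_1 : BoxOK sI cl9 cl7 cl5 t3 t1 b5_1 :=
  box_mk (TrL.c (I.pos (nat_lit 0) (nat_lit 0)) T3.l0
  (TrL.c (I.pos (nat_lit 0) (nat_lit 0)) T1.l6
  (TrL.c (I.pos (nat_lit 0) (nat_lit 124588530)) (xR T3.l4 T3.l7)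
  (TrL.c (I.pos (nat_lit 0) (nat_lit 96881482)) T1.l7
  (TrL.c (I.pos (nat_lit 0) (nat_lit 0)) T1.l8
  (TrL.c (I.pos (nat_lit 0) (nat_lit 0)) T3.l8
  (TrL.c (I.mix (nat_lit 17240550) (nat_lit 96881482)) T1.l9
  (TrL.c (I.mix (nat_lit 17240550) (nat_lit 71940500)) T3.l9
  TrL.n)))))))) (by decide +kernel)
theorem bx5_2 : BoxOK sI cl9 cl7 cl5 t3 t1 b5_2 :=
  box_mk (TrL.c (I.pos (nat_lit 0) (nat_lit 0)) T3.l0
  (TrL.c (I.pos (nat_lit 0) (nat_lit 0)) T1.l6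
  (TrL.c (I.pos (nat_lit 0) (nat_lit 124588530)) (xR T3.l4 T3.l7)
  (TrL.c (I.pos (nat_lit 0) (nat_lit 96881482)) T1.l9
  (TrL.c (I.pos (nat_lit 0) (nat_lit 0)) T1.l8
  (TrL.c (I.pos (nat_lit 0) (nat_lit 0)) T3.l8
  (TrL.c (I.mix (nat_lit 17240550) (nat_lit 96881482)) T1.l9
  (TrL.c (I.mix (nat_lit 17240550) (nat_lit 71940500)) T3.l9
  TrL.n)))))))) (by decide +kernel)
theorem bx5_3 : BoxOK sI cl9 cl7 cl5 t3 t1 b5_3 :=
  box_mk (TrL.c (I.pos (nat_lit 0) (nat_lit 0)) (xa (xb T3.l0 T3.l0) T3.l0)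
  (TrL.c (I.pos (nat_lit 0) (nat_lit 0)) (xb T1.l6 T1.l6)
  (TrL.c (I.pos (nat_lit 0) (nat_lit 124588530)) (xR T3.l4 (xR T3.l7 T3.l7))
  (TrL.c (I.pos (nat_lit 0) (nat_lit 96881482)) (xR T1.l7 T1.l7)
  (TrL.c (I.pos (nat_lit 0) (nat_lit 0)) (xb (xa T1.l8 T1.l8) (xs T1.l8 T1.l8))
  (TrL.c (I.pos (nat_lit 0) (nat_lit 0)) T3.l8
  (TrL.c (I.mix (nat_lit 17240550) (nat_lit 96881482)) (xR T1.l9 T1.l9)
  (TrL.c (I.mix (nat_lit 17240550) (nat_lit 71940500)) (xR T3.l9 T3.l9)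
  TrL.n)))))))) (by decide +kernel)
theorem bx5_4 : BoxOK sI cl9 cl7 cl5 t3 t1 b5_4 :=
  box_mk (TrL.c (I.pos (nat_lit 0) (nat_lit 0)) (xa T3.l0 T3.l0)
  (TrL.c (I.pos (nat_lit 0) (nat_lit 0)) (xa T1.l8 T1.l6)
  (TrL.c (I.pos (nat_lit 0) (nat_lit 124588530)) (xR T3.l4 T3.l7)
  (TrL.c (I.pos (nat_lit 0) (nat_lit 96881482)) (xR T1.l7 T1.l7)
  (TrL.c (I.pos (nat_lit 0) (nat_lit 0)) (xa T1.l8 T1.l8)
  (TrL.c (I.pos (nat_lit 0) (nat_lit 0)) T3.l8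
  (TrL.c (I.mix (nat_lit 17240550) (nat_lit 96881482)) T1.l9
  (TrL.c (I.mix (nat_lit 17240550) (nat_lit 71940500)) T3.l9
  TrL.n)))))))) (by decide +kernel)
theorem bx5_5 : BoxOK sI cl9 cl7 cl5 t3 t1 b5_5 :=
  box_mk (TrL.c (I.pos (nat_lit 0) (nat_lit 0)) T3.l0
  (TrL.c (I.pos (nat_lit 0) (nat_lit 0)) T1.l6
  (TrL.c (I.pos (nat_lit 0) (nat_lit 124588530)) (xR T3.l4 T3.l7)
  (TrL.c (I.pos (nat_lit 0) (nat_lit 96881482)) T1.l9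
  (TrL.c (I.pos (nat_lit 0) (nat_lit 0)) T1.l8
  (TrL.c (I.pos (nat_lit 0) (nat_lit 0)) T3.l8
  (TrL.c (I.mix (nat_lit 17240550) (nat_lit 96881482)) T1.l9
  (TrL.c (I.mix (nat_lit 17240550) (nat_lit 71940500)) T3.l9
  TrL.n)))))))) (by decide +kernel)
theorem bx5_6 : BoxOK sI cl9 cl7 cl5 t3 t1 b5_6 :=
  box_mk (TrL.c (I.pos (nat_lit 0) (nat_lit 0)) T3.l0
  (TrL.c (I.pos (nat_lit 0) (nat_lit 0)) T1.l6
  (TrL.c (I.pos (nat_lit 0) (nat_lit 124588530)) (xR T3.l4 T3.l7)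
  (TrL.c (I.pos (nat_lit 0) (nat_lit 96881482)) T1.l7
  (TrL.c (I.pos (nat_lit 0) (nat_lit 0)) T1.l8
  (TrL.c (I.pos (nat_lit 0) (nat_lit 0)) T3.l8
  (TrL.c (I.mix (nat_lit 17240550) (nat_lit 96881482)) T1.l9
  (TrL.c (I.mix (nat_lit 17240550) (nat_lit 71940500)) T3.l9
  TrL.n)))))))) (by decide +kernel)
theorem bx5_7 : BoxOK sI cl9 cl7 cl5 t3 t1 b5_7 :=
  box_mk (TrL.c (I.pos (nat_lit 0) (nat_lit 0)) (xa T3.l0 T3.l0)
  (TrL.c (I.pos (nat_lit 0) (nat_lit 0)) T1.l6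
  (TrL.c (I.pos (nat_lit 0) (nat_lit 124588530)) (xR T3.l4 T3.l7)
  (TrL.c (I.pos (nat_lit 0) (nat_lit 96881482)) T1.l7
  (TrL.c (I.pos (nat_lit 0) (nat_lit 0)) T1.l8
  (TrL.c (I.pos (nat_lit 0) (nat_lit 0)) T3.l8
  (TrL.c (I.mix (nat_lit 17240550) (nat_lit 96881482)) T1.l9
  (TrL.c (I.mix (nat_lit 17240550) (nat_lit 71940500)) T3.l9
  TrL.n)))))))) (by decide +kernel)
theorem bx5_8 : BoxOK sI cl9 cl7 cl5 t3 t1 b5_8 :=
  box_mk (TrL.c (I.pos (nat_lit 0) (nat_lit 0)) T3.l0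
  (TrL.c (I.pos (nat_lit 0) (nat_lit 0)) T1.l6
  (TrL.c (I.pos (nat_lit 0) (nat_lit 124588530)) (xR T3.l4 T3.l7)
  (TrL.c (I.pos (nat_lit 0) (nat_lit 96881482)) T1.l7
  (TrL.c (I.pos (nat_lit 0) (nat_lit 0)) T1.l8
  (TrL.c (I.pos (nat_lit 0) (nat_lit 0)) T3.l8
  (TrL.c (I.mix (nat_lit 17240550) (nat_lit 96881482)) T1.l9
  (TrL.c (I.mix (nat_lit 17240550) (nat_lit 71940500)) T3.l9
  TrL.n)))))))) (by decide +kernel)
theorem bx5_9 : BoxOK sI cl9 cl7 cl5 t3 t1 b5_9 :=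
  box_mk (TrL.c (I.pos (nat_lit 0) (nat_lit 0)) (xa T3.l0 T3.l0)
  (TrL.c (I.pos (nat_lit 0) (nat_lit 0)) T1.l6
  (TrL.c (I.pos (nat_lit 0) (nat_lit 124588530)) (xR T3.l4 T3.l7)
  (TrL.c (I.pos (nat_lit 0) (nat_lit 96881482)) T1.l9
  (TrL.c (I.pos (nat_lit 0) (nat_lit 0)) T1.l8
  (TrL.c (I.pos (nat_lit 0) (nat_lit 0)) T3.l8
  (TrL.c (I.mix (nat_lit 17240550) (nat_lit 96881482)) T1.l9
  (TrL.c (I.mix (nat_lit 17240550) (nat_lit 71940500)) T3.l9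
  TrL.n)))))))) (by decide +kernel)
theorem sv5 : StarV sI cl9 cl7 cl5 t3 t1 t5 :=
  (bt_n (bt_n (bt_n (bt_b bx5_0) (bt_b bx5_1)) (bt_n (bt_b bx5_2) (bt_n (bt_b bx5_3) (bt_b bx5_4)))) (bt_n (bt_n (bt_b bx5_5) (bt_b bx5_6)) (bt_n (bt_b bx5_7) (bt_n (bt_b bx5_8) (bt_b bx5_9)))))
def S5 : StarD := StarD.mk cl9 cl7 cl5 3 1 t5
def G : List StarD := [S0, S1, S2, S3, S4, S5]
theorem so0 : StarOK sI G S0 :=
  star_mk (by decide) (by decide) rfl rfl rfl rfl rfl rfl (rfl : _ = t2) (rfl : _ = t4)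
  (st_mk (Pth.l (Pth.l (Pth.l Pth.z))) (nat_lit 141951833) (nat_lit 164897025) (by decide +kernel))
  (st_mk (Pth.l (Pth.l (Pth.l Pth.z))) (nat_lit 177943664) (nat_lit 201452631) (by decide +kernel))
  (st_mk (Pth.l (Pth.l (Pth.l Pth.z))) (nat_lit 219786957) (nat_lit 244076649) (by decide +kernel)) sv0
theorem so1 : StarOK sI G S1 :=
  star_mk (by decide) (by decide) rfl rfl rfl rfl rfl rfl (rfl : _ = t4) (rfl : _ = t2)
  (st_mk (Pth.l (Pth.l (Pth.l Pth.z))) (nat_lit 116510601) (nat_lit 135534953) (by decide +kernel))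
  (st_mk (Pth.l (Pth.l (Pth.l Pth.z))) (nat_lit 152409754) (nat_lit 171969275) (by decide +kernel))
  (st_mk (Pth.l (Pth.l (Pth.l Pth.z))) (nat_lit 194176331) (nat_lit 214492539) (by decide +kernel)) sv1
theorem so2 : StarOK sI G S2 :=
  star_mk (by decide) (by decide) rfl rfl rfl rfl rfl rfl (rfl : _ = t0) (rfl : _ = t5)
  (st_mk (Pth.l (Pth.l (Pth.l Pth.z))) (nat_lit 239814936) (nat_lit 241828331) (by decide +kernel))
  (st_mk (Pth.l (Pth.l (Pth.l Pth.z))) (nat_lit 275267245) (nat_lit 277755155) (by decide +kernel))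
  (st_mk (Pth.l (Pth.l (Pth.l Pth.z))) (nat_lit 316270573) (nat_lit 319392874) (by decide +kernel)) sv2
theorem so3 : StarOK sI G S3 :=
  star_mk (by decide) (by decide) rfl rfl rfl rfl rfl rfl (rfl : _ = t5) (rfl : _ = t0)
  (st_mk (Pth.l (Pth.l (Pth.l Pth.z))) (nat_lit 115686235) (nat_lit 134381095) (by decide +kernel))
  (st_mk (Pth.l (Pth.l (Pth.l Pth.z))) (nat_lit 150999216) (nat_lit 170096531) (by decide +kernel))
  (st_mk (Pth.l (Pth.l (Pth.l Pth.z))) (nat_lit 191883504) (nat_lit 211554524) (by decide +kernel)) sv3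
theorem so4 : StarOK sI G S4 :=
  star_mk (by decide) (by decide) rfl rfl rfl rfl rfl rfl (rfl : _ = t1) (rfl : _ = t3)
  (st_mk (Pth.l (Pth.l (Pth.l Pth.z))) (nat_lit 238865033) (nat_lit 240606254) (by decide +kernel))
  (st_mk (Pth.l (Pth.l (Pth.l Pth.z))) (nat_lit 274014841) (nat_lit 276138459) (by decide +kernel))
  (st_mk (Pth.l (Pth.l (Pth.l Pth.z))) (nat_lit 314615777) (nat_lit 317248327) (by decide +kernel)) sv4
theorem so5 : StarOK sI G S5 :=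
  star_mk (by decide) (by decide) rfl rfl rfl rfl rfl rfl (rfl : _ = t3) (rfl : _ = t1)
  (st_mk (Pth.l (Pth.l (Pth.l Pth.z))) (nat_lit 140370906) (nat_lit 162696674) (by decide +kernel))
  (st_mk (Pth.l (Pth.l (Pth.l Pth.z))) (nat_lit 175474790) (nat_lit 198138339) (by decide +kernel))
  (st_mk (Pth.l (Pth.l (Pth.l Pth.z))) (nat_lit 216036022) (nat_lit 239170446) (by decide +kernel)) sv5
theorem ok : GroupOK (nat_lit 0) (nat_lit 91291648) G := grp_mk (allS_c so0 (allS_c so1 (allS_c so2 (allS_c so3 (allS_c so4 (allS_c so5 allS_n))))))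
theorem cov : GCov G cl5 cl7 cl9 := cov_mk
  ⟨0, by decide, rfl, rfl, rfl⟩ ⟨1, by decide, rfl, rfl, rfl⟩ ⟨2, by decide, rfl, rfl, rfl⟩ ⟨3, by decide, rfl, rfl, rfl⟩ ⟨4, by decide, rfl, rfl, rfl⟩ ⟨5, by decide, rfl, rfl, rfl⟩
end Q245_0

namespace Q245_1
def sI : I := I.pos (nat_lit 91226112) (nat_lit 150339584)
def b0_0 : Bx := Bx.mk (St.mk (I.pos (nat_lit 156090368) (nat_lit 239271936)) (I.mix (nat_lit 3850240) (nat_lit 63946752)) (I.mix (nat_lit 5013504) (nat_lit 83869696)) (I.pos (nat_lit 137183232) (nat_lit 274497536)) (I.mix (nat_lit 110575616) (nat_lit 65634304)) (I.mix (nat_lit 81199104) (nat_lit 66863104)) (I.mix (nat_lit 119930880) (nat_lit 103448576)))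
  false (nat_lit 0)
def b0_1 : Bx := Bx.mk (St.mk (I.mix (nat_lit 29638656) (nat_lit 122060800)) (I.mix (nat_lit 3932160) (nat_lit 35667968)) (I.mix (nat_lit 19185664) (nat_lit 14516224)) (I.pos (nat_lit 36536320) (nat_lit 116670464)) (I.mix (nat_lit 30834688) (nat_lit 36110336)) (I.mix (nat_lit 33832960) (nat_lit 29294592)) (I.mix (nat_lit 25591808) (nat_lit 18743296)))
  false (nat_lit 0)
def b0_2 : Bx := Bx.mk (St.mk (I.pos (nat_lit 94830592) (nat_lit 143261696)) (I.mix (nat_lit 58966016) (nat_lit 5718016)) (I.neg (nat_lit 4767744) (nat_lit 67862528)) (I.pos (nat_lit 78184448) (nat_lit 139853824)) (I.mix (nat_lit 90947584) (nat_lit 26525696)) (I.mix (nat_lit 39911424) (nat_lit 80396288)) (I.mix (nat_lit 27590656) (nat_lit 63062016)))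
  false (nat_lit 0)
def b0_3 : Bx := Bx.mk (St.mk (I.mix (nat_lit 38453248) (nat_lit 73187328)) (I.mix (nat_lit 30818304) (nat_lit 3211264)) (I.neg (nat_lit 393216) (nat_lit 23052288)) (I.pos (nat_lit 39436288) (nat_lit 82804736)) (I.mix (nat_lit 33210368) (nat_lit 15319040)) (I.mix (nat_lit 16187392) (nat_lit 26230784)) (I.mix (nat_lit 8454144) (nat_lit 11091968)))
  false (nat_lit 0)
def b0_4 : Bx := Bx.mk (St.mk (I.pos (nat_lit 201129984) (nat_lit 270729216)) (I.mix (nat_lit 7782400) (nat_lit 37044224)) (I.mix (nat_lit 59408384) (nat_lit 32161792)) (I.pos (nat_lit 220594176) (nat_lit 345374720)) (I.mix (nat_lit 74498048) (nat_lit 44843008)) (I.mix (nat_lit 56918016) (nat_lit 48726016)) (I.mix (nat_lit 84492288) (nat_lit 85442560)))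
  false (nat_lit 0)
def b0_5 : Bx := Bx.mk (St.mk (I.mix (nat_lit 40124416) (nat_lit 53837824)) (I.mix (nat_lit 2031616) (nat_lit 8978432)) (I.neg (nat_lit 2555904) (nat_lit 12877824)) (I.pos (nat_lit 42024960) (nat_lit 74661888)) (I.mix (nat_lit 6717440) (nat_lit 10452992)) (I.mix (nat_lit 6717440) (nat_lit 5931008)) (I.mix (nat_lit 2883584) (nat_lit 3194880)))
  false (nat_lit 0)
def b0_6 : Bx := Bx.mk (St.mk (I.pos (nat_lit 88326144) (nat_lit 175538176)) (I.mix (nat_lit 63373312) (nat_lit 3850240)) (I.neg (nat_lit 4849664) (nat_lit 74825728)) (I.pos (nat_lit 87162880) (nat_lit 179224576)) (I.mix (nat_lit 88031232) (nat_lit 47742976)) (I.mix (nat_lit 51462144) (nat_lit 70647808)) (I.mix (nat_lit 39763968) (nat_lit 68780032)))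
  false (nat_lit 0)
def b0_7 : Bx := Bx.mk (St.mk (I.mix (nat_lit 37044224) (nat_lit 87277568)) (I.mix (nat_lit 34914304) (nat_lit 8388608)) (I.mix (nat_lit 29016064) (nat_lit 442368)) (I.pos (nat_lit 36421632) (nat_lit 91848704)) (I.mix (nat_lit 40714240) (nat_lit 31342592)) (I.mix (nat_lit 28049408) (nat_lit 38354944)) (I.mix (nat_lit 16318464) (nat_lit 21970944)))
  false (nat_lit 0)
def b0_8 : Bx := Bx.mk (St.mk (I.pos (nat_lit 165380096) (nat_lit 223100928)) (I.mix (nat_lit 13893632) (nat_lit 67272704)) (I.mix (nat_lit 11616256) (nat_lit 86065152)) (I.pos (nat_lit 155320320) (nat_lit 249888768)) (I.mix (nat_lit 133742592) (nat_lit 56721408)) (I.mix (nat_lit 144850944) (nat_lit 86294528)) (I.mix (nat_lit 150814720) (nat_lit 86065152)))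
  false (nat_lit 0)
def b0_9 : Bx := Bx.mk (St.mk (I.mix (nat_lit 41566208) (nat_lit 118341632)) (I.mix (nat_lit 15106048) (nat_lit 40009728)) (I.mix (nat_lit 17154048) (nat_lit 18857984)) (I.pos (nat_lit 38125568) (nat_lit 111296512)) (I.mix (nat_lit 45072384) (nat_lit 29720576)) (I.mix (nat_lit 47022080) (nat_lit 32800768)) (I.mix (nat_lit 25362432) (nat_lit 18644992)))
  false (nat_lit 0)
def b0_10 : Bx := Bx.mk (St.mk (I.pos (nat_lit 96043008) (nat_lit 114262016)) (I.mix (nat_lit 2490368) (nat_lit 8798208)) (I.neg (nat_lit 3817472) (nat_lit 18055168)) (I.pos (nat_lit 79593472) (nat_lit 113737728)) (I.mix (nat_lit 7864320) (nat_lit 11124736)) (I.mix (nat_lit 7372800) (nat_lit 5373952)) (I.mix (nat_lit 6209536) (nat_lit 4505600)))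
  false (nat_lit 0)
def b0_11 : Bx := Bx.mk (St.mk (I.pos (nat_lit 186580992) (nat_lit 241025024)) (I.pos (nat_lit 6684672) (nat_lit 63258624)) (I.mix (nat_lit 7372800) (nat_lit 79806464)) (I.pos (nat_lit 213057536) (nat_lit 275136512)) (I.mix (nat_lit 93339648) (nat_lit 73383936)) (I.mix (nat_lit 90669056) (nat_lit 63258624)) (I.mix (nat_lit 140640256) (nat_lit 79806464)))
  false (nat_lit 0)
def b0_12 : Bx := Bx.mk (St.mk (I.pos (nat_lit 142131200) (nat_lit 208961536)) (I.mix (nat_lit 45940736) (nat_lit 20529152)) (I.mix (nat_lit 60309504) (nat_lit 24084480)) (I.pos (nat_lit 125632512) (nat_lit 225591296)) (I.mix (nat_lit 64438272) (nat_lit 54329344)) (I.mix (nat_lit 64192512) (nat_lit 54444032)) (I.mix (nat_lit 66125824) (nat_lit 52068352)))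
  false (nat_lit 0)
def b0_13 : Bx := Bx.mk (St.mk (I.pos (nat_lit 166133760) (nat_lit 211828736)) (I.mix (nat_lit 17039360) (nat_lit 45465600)) (I.mix (nat_lit 19464192) (nat_lit 59277312)) (I.pos (nat_lit 158924800) (nat_lit 228802560)) (I.mix (nat_lit 125517824) (nat_lit 64454656)) (I.mix (nat_lit 149045248) (nat_lit 70238208)) (I.mix (nat_lit 158531584) (nat_lit 67485696)))
  false (nat_lit 8045769)
def t0 : BTr := (BTr.n (BTr.n (BTr.n (BTr.b b0_0) (BTr.n (BTr.b b0_1) (BTr.b b0_2))) (BTr.n (BTr.n (BTr.b b0_3) (BTr.b b0_4)) (BTr.n (BTr.b b0_5) (BTr.b b0_6)))) (BTr.n (BTr.n (BTr.b b0_7) (BTr.n (BTr.b b0_8) (BTr.b b0_9))) (BTr.n (BTr.n (BTr.b b0_10) (BTr.b b0_11)) (BTr.n (BTr.b b0_12) (BTr.b b0_13)))))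
namespace T0
def l0 : Tr := Tr.L (Pth.l (Pth.l (Pth.l Pth.z)))
def l1 : Tr := Tr.L (Pth.l (Pth.l (Pth.r (Pth.l Pth.z))))
def l2 : Tr := Tr.L (Pth.l (Pth.l (Pth.r (Pth.r Pth.z))))
def l3 : Tr := Tr.L (Pth.l (Pth.r (Pth.l (Pth.l Pth.z))))
def l4 : Tr := Tr.L (Pth.l (Pth.r (Pth.l (Pth.r Pth.z))))
def l5 : Tr := Tr.L (Pth.l (Pth.r (Pth.r (Pth.l Pth.z))))
def l6 : Tr := Tr.L (Pth.l (Pth.r (Pth.r (Pth.r Pth.z))))
def l7 : Tr := Tr.L (Pth.r (Pth.l (Pth.l Pth.z)))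
def l8 : Tr := Tr.L (Pth.r (Pth.l (Pth.r (Pth.l Pth.z))))
def l9 : Tr := Tr.L (Pth.r (Pth.l (Pth.r (Pth.r Pth.z))))
def l10 : Tr := Tr.L (Pth.r (Pth.r (Pth.l (Pth.l Pth.z))))
def l11 : Tr := Tr.L (Pth.r (Pth.r (Pth.l (Pth.r Pth.z))))
def l12 : Tr := Tr.L (Pth.r (Pth.r (Pth.r (Pth.l Pth.z))))
def l13 : Tr := Tr.L (Pth.r (Pth.r (Pth.r (Pth.r Pth.z))))
end T0
def b1_0 : Bx := Bx.mk (St.mk (I.pos (nat_lit 155992064) (nat_lit 241123328)) (I.mix (nat_lit 3522560) (nat_lit 62423040)) (I.mix (nat_lit 5177344) (nat_lit 93847552)) (I.pos (nat_lit 109576192) (nat_lit 248791040)) (I.mix (nat_lit 120586240) (nat_lit 68960256)) (I.mix (nat_lit 94666752) (nat_lit 75956224)) (I.mix (nat_lit 132857856) (nat_lit 101728256)))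
  false (nat_lit 12704468)
def b1_1 : Bx := Bx.mk (St.mk (I.mix (nat_lit 24461312) (nat_lit 136282112)) (I.mix (nat_lit 3571712) (nat_lit 30097408)) (I.mix (nat_lit 12845056) (nat_lit 19021824)) (I.pos (nat_lit 11812864) (nat_lit 101728256)) (I.mix (nat_lit 30670848) (nat_lit 30375936)) (I.mix (nat_lit 30769152) (nat_lit 24920064)) (I.mix (nat_lit 25034752) (nat_lit 18595840)))
  false (nat_lit 0)
def b1_2 : Bx := Bx.mk (St.mk (I.pos (nat_lit 108544000) (nat_lit 153567232)) (I.mix (nat_lit 53559296) (nat_lit 5406720)) (I.neg (nat_lit 147456) (nat_lit 61259776)) (I.pos (nat_lit 62930944) (nat_lit 124059648)) (I.mix (nat_lit 85639168) (nat_lit 25018368)) (I.mix (nat_lit 34439168) (nat_lit 78102528)) (I.mix (nat_lit 26755072) (nat_lit 66600960)))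
  false (nat_lit 0)
def b1_3 : Bx := Bx.mk (St.mk (I.mix (nat_lit 24903680) (nat_lit 94650368)) (I.mix (nat_lit 26296320) (nat_lit 1212416)) (I.mix (nat_lit 21037056) (nat_lit 983040)) (I.pos (nat_lit 15007744) (nat_lit 68321280)) (I.mix (nat_lit 32538624) (nat_lit 14532608)) (I.mix (nat_lit 18546688) (nat_lit 29032448)) (I.mix (nat_lit 10043392) (nat_lit 15581184)))
  false (nat_lit 0)
def b1_4 : Bx := Bx.mk (St.mk (I.pos (nat_lit 202588160) (nat_lit 269975552)) (I.mix (nat_lit 8159232) (nat_lit 35241984)) (I.mix (nat_lit 42500096) (nat_lit 41238528)) (I.pos (nat_lit 195788800) (nat_lit 316964864)) (I.mix (nat_lit 71532544) (nat_lit 44515328)) (I.mix (nat_lit 54607872) (nat_lit 43761664)) (I.mix (nat_lit 86065152) (nat_lit 75186176)))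
  false (nat_lit 0)
def b1_5 : Bx := Bx.mk (St.mk (I.mix (nat_lit 25837568) (nat_lit 78233600)) (I.mix (nat_lit 327680) (nat_lit 4833280)) (I.mix (nat_lit 6701056) (nat_lit 32768)) (I.pos (nat_lit 15892480) (nat_lit 58605568)) (I.mix (nat_lit 2834432) (nat_lit 5177344)) (I.mix (nat_lit 2818048) (nat_lit 2572288)) (I.mix (nat_lit 999424) (nat_lit 933888)))
  false (nat_lit 0)
def b1_6 : Bx := Bx.mk (St.mk (I.pos (nat_lit 102055936) (nat_lit 183009280)) (I.mix (nat_lit 58408960) (nat_lit 2637824)) (I.neg (nat_lit 933888) (nat_lit 66797568)) (I.pos (nat_lit 73678848) (nat_lit 161906688)) (I.mix (nat_lit 82837504) (nat_lit 45318144)) (I.mix (nat_lit 49397760) (nat_lit 66322432)) (I.mix (nat_lit 41664512) (nat_lit 68403200)))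
  false (nat_lit 0)
def b1_7 : Bx := Bx.mk (St.mk (I.mix (nat_lit 25657344) (nat_lit 108003328)) (I.mix (nat_lit 30064640) (nat_lit 6946816)) (I.mix (nat_lit 23986176) (nat_lit 1638400)) (I.pos (nat_lit 13090816) (nat_lit 78184448)) (I.mix (nat_lit 34324480) (nat_lit 29687808)) (I.mix (nat_lit 24248320) (nat_lit 34619392)) (I.mix (nat_lit 15400960) (nat_lit 22724608)))
  false (nat_lit 0)
def b1_8 : Bx := Bx.mk (St.mk (I.pos (nat_lit 170590208) (nat_lit 222543872)) (I.mix (nat_lit 15613952) (nat_lit 59916288)) (I.mix (nat_lit 8142848) (nat_lit 86786048)) (I.pos (nat_lit 133595136) (nat_lit 221069312)) (I.mix (nat_lit 131547136) (nat_lit 53985280)) (I.mix (nat_lit 141082624) (nat_lit 79036416)) (I.mix (nat_lit 157188096) (nat_lit 81248256)))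
  false (nat_lit 0)
def b1_9 : Bx := Bx.mk (St.mk (I.mix (nat_lit 29016064) (nat_lit 132104192)) (I.mix (nat_lit 15777792) (nat_lit 36831232)) (I.mix (nat_lit 15450112) (nat_lit 24248320)) (I.pos (nat_lit 13352960) (nat_lit 96305152)) (I.mix (nat_lit 45662208) (nat_lit 24444928)) (I.mix (nat_lit 47153152) (nat_lit 29229056)) (I.mix (nat_lit 29966336) (nat_lit 18677760)))
  false (nat_lit 0)
def b1_10 : Bx := Bx.mk (St.mk (I.pos (nat_lit 144801792) (nat_lit 211124224)) (I.mix (nat_lit 44154880) (nat_lit 15630336)) (I.mix (nat_lit 53837824) (nat_lit 24313856)) (I.pos (nat_lit 106807296) (nat_lit 201342976)) (I.mix (nat_lit 65224704) (nat_lit 51822592)) (I.mix (nat_lit 61505536) (nat_lit 52789248)) (I.mix (nat_lit 65519616) (nat_lit 54738944)))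
  false (nat_lit 0)
def b1_11 : Bx := Bx.mk (St.mk (I.pos (nat_lit 170246144) (nat_lit 214712320)) (I.mix (nat_lit 20889600) (nat_lit 40681472)) (I.mix (nat_lit 17530880) (nat_lit 60686336)) (I.pos (nat_lit 135282688) (nat_lit 206356480)) (I.mix (nat_lit 124010496) (nat_lit 63275008)) (I.mix (nat_lit 146964480) (nat_lit 67305472)) (I.mix (nat_lit 166346752) (nat_lit 66650112)))
  false (nat_lit 17929839)
def b1_12 : Bx := Bx.mk (St.mk (I.pos (nat_lit 109838336) (nat_lit 127139840)) (I.mix (nat_lit 2310144) (nat_lit 7667712)) (I.mix (nat_lit 11649024) (nat_lit 262144)) (I.pos (nat_lit 64339968) (nat_lit 98156544)) (I.mix (nat_lit 6504448) (nat_lit 9551872)) (I.mix (nat_lit 6127616) (nat_lit 3899392)) (I.mix (nat_lit 5586944) (nat_lit 3178496)))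
  false (nat_lit 0)
def b1_13 : Bx := Bx.mk (St.mk (I.pos (nat_lit 188628992) (nat_lit 242663424)) (I.pos (nat_lit 4587520) (nat_lit 57475072)) (I.pos (nat_lit 671744) (nat_lit 84688896)) (I.pos (nat_lit 188497920) (nat_lit 249184256)) (I.mix (nat_lit 90898432) (nat_lit 64815104)) (I.mix (nat_lit 89276416) (nat_lit 59670528)) (I.mix (nat_lit 143933440) (nat_lit 72237056)))
  false (nat_lit 0)
def t1 : BTr := (BTr.n (BTr.n (BTr.n (BTr.b b1_0) (BTr.n (BTr.b b1_1) (BTr.b b1_2))) (BTr.n (BTr.n (BTr.b b1_3) (BTr.b b1_4)) (BTr.n (BTr.b b1_5) (BTr.b b1_6)))) (BTr.n (BTr.n (BTr.b b1_7) (BTr.n (BTr.b b1_8) (BTr.b b1_9))) (BTr.n (BTr.n (BTr.b b1_10) (BTr.b b1_11)) (BTr.n (BTr.b b1_12) (BTr.b b1_13)))))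
namespace T1
def l0 : Tr := Tr.L (Pth.l (Pth.l (Pth.l Pth.z)))
def l1 : Tr := Tr.L (Pth.l (Pth.l (Pth.r (Pth.l Pth.z))))
def l2 : Tr := Tr.L (Pth.l (Pth.l (Pth.r (Pth.r Pth.z))))
def l3 : Tr := Tr.L (Pth.l (Pth.r (Pth.l (Pth.l Pth.z))))
def l4 : Tr := Tr.L (Pth.l (Pth.r (Pth.l (Pth.r Pth.z))))
def l5 : Tr := Tr.L (Pth.l (Pth.r (Pth.r (Pth.l Pth.z))))
def l6 : Tr := Tr.L (Pth.l (Pth.r (Pth.r (Pth.r Pth.z))))
def l7 : Tr := Tr.L (Pth.r (Pth.l (Pth.l Pth.z)))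
def l8 : Tr := Tr.L (Pth.r (Pth.l (Pth.r (Pth.l Pth.z))))
def l9 : Tr := Tr.L (Pth.r (Pth.l (Pth.r (Pth.r Pth.z))))
def l10 : Tr := Tr.L (Pth.r (Pth.r (Pth.l (Pth.l Pth.z))))
def l11 : Tr := Tr.L (Pth.r (Pth.r (Pth.l (Pth.r Pth.z))))
def l12 : Tr := Tr.L (Pth.r (Pth.r (Pth.r (Pth.l Pth.z))))
def l13 : Tr := Tr.L (Pth.r (Pth.r (Pth.r (Pth.r Pth.z))))
end T1
def b2_0 : Bx := Bx.mk (St.mk (I.pos (nat_lit 151093248) (nat_lit 230916096)) (I.mix (nat_lit 4653056) (nat_lit 78118912)) (I.mix (nat_lit 5914624) (nat_lit 100368384)) (I.pos (nat_lit 234192896) (nat_lit 340656128)) (I.mix (nat_lit 119521280) (nat_lit 72433664)) (I.mix (nat_lit 84197376) (nat_lit 71139328)) (I.mix (nat_lit 109101056) (nat_lit 93618176)))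
  false (nat_lit 81050073)
def b2_1 : Bx := Bx.mk (St.mk (I.pos (nat_lit 22167552) (nat_lit 75104256)) (I.mix (nat_lit 12713984) (nat_lit 47316992)) (I.mix (nat_lit 28934144) (nat_lit 3751936)) (I.pos (nat_lit 142868480) (nat_lit 163823616)) (I.mix (nat_lit 29442048) (nat_lit 47595520)) (I.mix (nat_lit 44941312) (nat_lit 28065792)) (I.mix (nat_lit 24182784) (nat_lit 12894208)))
  false (nat_lit 0)
def b2_2 : Bx := Bx.mk (St.mk (I.pos (nat_lit 49086464) (nat_lit 103383040)) (I.mix (nat_lit 64520192) (nat_lit 14024704)) (I.neg (nat_lit 10338304) (nat_lit 59015168)) (I.pos (nat_lit 148439040) (nat_lit 184500224)) (I.mix (nat_lit 82214912) (nat_lit 30195712)) (I.mix (nat_lit 35454976) (nat_lit 79855616)) (I.mix (nat_lit 26361856) (nat_lit 47398912)))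
  false (nat_lit 0)
def b2_3 : Bx := Bx.mk (St.mk (I.neg (nat_lit 22167552) (nat_lit 75104256)) (I.mix (nat_lit 47316992) (nat_lit 12713984)) (I.mix (nat_lit 28934144) (nat_lit 3751936)) (I.pos (nat_lit 142852096) (nat_lit 163823616)) (I.mix (nat_lit 47595520) (nat_lit 29442048)) (I.mix (nat_lit 28065792) (nat_lit 44941312)) (I.mix (nat_lit 24182784) (nat_lit 12894208)))
  true (nat_lit 0)
def b2_4 : Bx := Bx.mk (St.mk (I.pos (nat_lit 70500352) (nat_lit 153174016)) (I.neg (nat_lit 2162688) (nat_lit 74940416)) (I.mix (nat_lit 69713920) (nat_lit 311296)) (I.pos (nat_lit 161955840) (nat_lit 231636992)) (I.mix (nat_lit 85524480) (nat_lit 53624832)) (I.mix (nat_lit 48496640) (nat_lit 70860800)) (I.mix (nat_lit 42483712) (nat_lit 61767680)))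
  false (nat_lit 0)
def b2_5 : Bx := Bx.mk (St.mk (I.mix (nat_lit 38600704) (nat_lit 7847936)) (I.mix (nat_lit 41320448) (nat_lit 9109504)) (I.mix (nat_lit 7782400) (nat_lit 1900544)) (I.pos (nat_lit 140607488) (nat_lit 151519232)) (I.mix (nat_lit 28819456) (nat_lit 38551552)) (I.mix (nat_lit 26148864) (nat_lit 40894464)) (I.mix (nat_lit 5472256) (nat_lit 5783552)))
  true (nat_lit 0)
def b2_6 : Bx := Bx.mk (St.mk (I.pos (nat_lit 151945216) (nat_lit 204668928)) (I.pos (nat_lit 442368) (nat_lit 68993024)) (I.pos (nat_lit 8847360) (nat_lit 91013120)) (I.pos (nat_lit 235356160) (nat_lit 301154304)) (I.mix (nat_lit 136347648) (nat_lit 46546944)) (I.mix (nat_lit 139558912) (nat_lit 73793536)) (I.mix (nat_lit 135839744) (nat_lit 77660160)))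
  false (nat_lit 62847470)
def b2_7 : Bx := Bx.mk (St.mk (I.mix (nat_lit 7831552) (nat_lit 38600704)) (I.mix (nat_lit 9109504) (nat_lit 41320448)) (I.mix (nat_lit 7782400) (nat_lit 1900544)) (I.pos (nat_lit 140607488) (nat_lit 151519232)) (I.mix (nat_lit 38551552) (nat_lit 28819456)) (I.mix (nat_lit 40894464) (nat_lit 26148864)) (I.mix (nat_lit 5472256) (nat_lit 5783552)))
  false (nat_lit 0)
def b2_8 : Bx := Bx.mk (St.mk (I.pos (nat_lit 184205312) (nat_lit 290603008)) (I.mix (nat_lit 31604736) (nat_lit 53313536)) (I.mix (nat_lit 118358016) (nat_lit 54493184)) (I.pos (nat_lit 288243712) (nat_lit 456163328)) (I.mix (nat_lit 86097920) (nat_lit 59654144)) (I.mix (nat_lit 70598656) (nat_lit 52887552)) (I.mix (nat_lit 115081216) (nat_lit 101842944)))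
  false (nat_lit 65776956)
def b2_9 : Bx := Bx.mk (St.mk (I.pos (nat_lit 121995264) (nat_lit 193855488)) (I.mix (nat_lit 43188224) (nat_lit 26558464)) (I.mix (nat_lit 42024960) (nat_lit 39436288)) (I.pos (nat_lit 202227712) (nat_lit 278839296)) (I.mix (nat_lit 58900480) (nat_lit 57425920)) (I.mix (nat_lit 63832064) (nat_lit 57737216)) (I.mix (nat_lit 61243392) (nat_lit 54001664)))
  false (nat_lit 0)
def b2_10 : Bx := Bx.mk (St.mk (I.pos (nat_lit 153157632) (nat_lit 196755456)) (I.mix (nat_lit 9568256) (nat_lit 53166080)) (I.mix (nat_lit 5636096) (nat_lit 74383360)) (I.pos (nat_lit 239353856) (nat_lit 284475392)) (I.mix (nat_lit 129138688) (nat_lit 64225280)) (I.mix (nat_lit 146964480) (nat_lit 69189632)) (I.mix (nat_lit 145391616) (nat_lit 68829184)))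
  false (nat_lit 34925439)
def b2_11 : Bx := Bx.mk (St.mk (I.pos (nat_lit 167804928) (nat_lit 230703104)) (I.pos (nat_lit 10125312) (nat_lit 81543168)) (I.mix (nat_lit 3309568) (nat_lit 103186432)) (I.pos (nat_lit 280821760) (nat_lit 336134144)) (I.mix (nat_lit 119930880) (nat_lit 96878592)) (I.mix (nat_lit 115064832) (nat_lit 85901312)) (I.mix (nat_lit 158679040) (nat_lit 106070016)))
  false (nat_lit 94943992)
def t2 : BTr := (BTr.n (BTr.n (BTr.n (BTr.b b2_0) (BTr.n (BTr.b b2_1) (BTr.b b2_2))) (BTr.n (BTr.b b2_3) (BTr.n (BTr.b b2_4) (BTr.b b2_5)))) (BTr.n (BTr.n (BTr.b b2_6) (BTr.n (BTr.b b2_7) (BTr.b b2_8))) (BTr.n (BTr.b b2_9) (BTr.n (BTr.b b2_10) (BTr.b b2_11)))))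
namespace T2
def l0 : Tr := Tr.L (Pth.l (Pth.l (Pth.l Pth.z)))
def l1 : Tr := Tr.L (Pth.l (Pth.l (Pth.r (Pth.l Pth.z))))
def l2 : Tr := Tr.L (Pth.l (Pth.l (Pth.r (Pth.r Pth.z))))
def l3 : Tr := Tr.L (Pth.l (Pth.r (Pth.l Pth.z)))
def l4 : Tr := Tr.L (Pth.l (Pth.r (Pth.r (Pth.l Pth.z))))
def l5 : Tr := Tr.L (Pth.l (Pth.r (Pth.r (Pth.r Pth.z))))
def l6 : Tr := Tr.L (Pth.r (Pth.l (Pth.l Pth.z)))
def l7 : Tr := Tr.L (Pth.r (Pth.l (Pth.r (Pth.l Pth.z))))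
def l8 : Tr := Tr.L (Pth.r (Pth.l (Pth.r (Pth.r Pth.z))))
def l9 : Tr := Tr.L (Pth.r (Pth.r (Pth.l Pth.z)))
def l10 : Tr := Tr.L (Pth.r (Pth.r (Pth.r (Pth.l Pth.z))))
def l11 : Tr := Tr.L (Pth.r (Pth.r (Pth.r (Pth.r Pth.z))))
end T2
def b3_0 : Bx := Bx.mk (St.mk (I.pos (nat_lit 156090368) (nat_lit 239157248)) (I.mix (nat_lit 3227648) (nat_lit 54804480)) (I.mix (nat_lit 6340608) (nat_lit 111493120)) (I.pos (nat_lit 109019136) (nat_lit 237436928)) (I.mix (nat_lit 114606080) (nat_lit 68698112)) (I.mix (nat_lit 96370688) (nat_lit 81248256)) (I.mix (nat_lit 134938624) (nat_lit 106577920)))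
  false (nat_lit 30855356)
def b3_1 : Bx := Bx.mk (St.mk (I.pos (nat_lit 110034944) (nat_lit 176668672)) (I.neg (nat_lit 3162112) (nat_lit 59834368)) (I.mix (nat_lit 51052544) (nat_lit 3899392)) (I.pos (nat_lit 80723968) (nat_lit 152829952)) (I.mix (nat_lit 72433664) (nat_lit 40222720)) (I.mix (nat_lit 43253760) (nat_lit 51167232)) (I.mix (nat_lit 38223872) (nat_lit 53444608)))
  false (nat_lit 307586)
def b3_2 : Bx := Bx.mk (St.mk (I.mix (nat_lit 20807680) (nat_lit 106659840)) (I.mix (nat_lit 29229056) (nat_lit 2293760)) (I.mix (nat_lit 15319040) (nat_lit 7077888)) (I.pos (nat_lit 13697024) (nat_lit 75382784)) (I.mix (nat_lit 28082176) (nat_lit 28426240)) (I.mix (nat_lit 23789568) (nat_lit 28622848)) (I.mix (nat_lit 13959168) (nat_lit 17924096)))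
  false (nat_lit 0)
def b3_3 : Bx := Bx.mk (St.mk (I.pos (nat_lit 166592512) (nat_lit 217874432)) (I.mix (nat_lit 14909440) (nat_lit 55541760)) (I.pos (nat_lit 8470528) (nat_lit 103874560)) (I.pos (nat_lit 128106496) (nat_lit 209469440)) (I.mix (nat_lit 131186688) (nat_lit 50413568)) (I.mix (nat_lit 133644288) (nat_lit 72974336)) (I.mix (nat_lit 160153600) (nat_lit 70385664)))
  false (nat_lit 22527680)
def b3_4 : Bx := Bx.mk (St.mk (I.mix (nat_lit 27574272) (nat_lit 128729088)) (I.mix (nat_lit 10846208) (nat_lit 36356096)) (I.mix (nat_lit 2703360) (nat_lit 34373632)) (I.pos (nat_lit 13434880) (nat_lit 93732864)) (I.mix (nat_lit 51183616) (nat_lit 21413888)) (I.mix (nat_lit 46268416) (nat_lit 27721728)) (I.mix (nat_lit 30703616) (nat_lit 17170432)))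
  false (nat_lit 0)
def b3_5 : Bx := Bx.mk (St.mk (I.pos (nat_lit 156762112) (nat_lit 209223680)) (I.mix (nat_lit 34963456) (nat_lit 11976704)) (I.mix (nat_lit 19136512) (nat_lit 42385408)) (I.pos (nat_lit 114622464) (nat_lit 193757184)) (I.mix (nat_lit 51363840) (nat_lit 57851904)) (I.mix (nat_lit 56426496) (nat_lit 58638336)) (I.mix (nat_lit 56147968) (nat_lit 61505536)))
  false (nat_lit 21830054)
def b3_6 : Bx := Bx.mk (St.mk (I.pos (nat_lit 155860992) (nat_lit 177569792)) (I.neg (nat_lit 11681792) (nat_lit 36782080)) (I.mix (nat_lit 25608192) (nat_lit 3407872)) (I.pos (nat_lit 114638848) (nat_lit 156139520)) (I.mix (nat_lit 25034752) (nat_lit 17301504)) (I.mix (nat_lit 13189120) (nat_lit 18137088)) (I.mix (nat_lit 13615104) (nat_lit 19759104)))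
  false (nat_lit 0)
def b3_7 : Bx := Bx.mk (St.mk (I.mix (nat_lit 28278784) (nat_lit 111067136)) (I.mix (nat_lit 12648448) (nat_lit 2932736)) (I.mix (nat_lit 3964928) (nat_lit 7372800)) (I.pos (nat_lit 14860288) (nat_lit 78233600)) (I.mix (nat_lit 7307264) (nat_lit 10829824)) (I.mix (nat_lit 5390336) (nat_lit 8028160)) (I.mix (nat_lit 3096576) (nat_lit 5324800)))
  false (nat_lit 0)
def b3_8 : Bx := Bx.mk (St.mk (I.mix (nat_lit 27541504) (nat_lit 138936320)) (I.mix (nat_lit 9240576) (nat_lit 29032448)) (I.mix (nat_lit 5734400) (nat_lit 30539776)) (I.pos (nat_lit 11206656) (nat_lit 104218624)) (I.mix (nat_lit 36929536) (nat_lit 31883264)) (I.mix (nat_lit 38092800) (nat_lit 27246592)) (I.mix (nat_lit 30867456) (nat_lit 20856832)))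
  false (nat_lit 0)
def b3_9 : Bx := Bx.mk (St.mk (I.pos (nat_lit 104906752) (nat_lit 159875072)) (I.mix (nat_lit 57704448) (nat_lit 11419648)) (I.mix (nat_lit 49741824) (nat_lit 15450112)) (I.pos (nat_lit 61538304) (nat_lit 130547712)) (I.mix (nat_lit 77938688) (nat_lit 27688960)) (I.mix (nat_lit 36421632) (nat_lit 72384512)) (I.mix (nat_lit 29310976) (nat_lit 59719680)))
  false (nat_lit 0)
def b3_10 : Bx := Bx.mk (St.mk (I.mix (nat_lit 26492928) (nat_lit 97976320)) (I.mix (nat_lit 27131904) (nat_lit 5079040)) (I.mix (nat_lit 13287424) (nat_lit 7667712)) (I.pos (nat_lit 14974976) (nat_lit 69959680)) (I.mix (nat_lit 30441472) (nat_lit 19005440)) (I.mix (nat_lit 19513344) (nat_lit 30064640)) (I.mix (nat_lit 9945088) (nat_lit 15106048)))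
  false (nat_lit 0)
def b3_11 : Bx := Bx.mk (St.mk (I.pos (nat_lit 192593920) (nat_lit 286048256)) (I.mix (nat_lit 26558464) (nat_lit 40140800)) (I.mix (nat_lit 42500096) (nat_lit 89423872)) (I.pos (nat_lit 181125120) (nat_lit 343572480)) (I.mix (nat_lit 83230720) (nat_lit 53002240)) (I.mix (nat_lit 66846720) (nat_lit 43778048)) (I.mix (nat_lit 102760448) (nat_lit 73023488)))
  false (nat_lit 57377257)
def b3_12 : Bx := Bx.mk (St.mk (I.pos (nat_lit 178978816) (nat_lit 236847104)) (I.pos (nat_lit 11075584) (nat_lit 56623104)) (I.pos (nat_lit 33538048) (nat_lit 114475008)) (I.pos (nat_lit 171687936) (nat_lit 232292352)) (I.mix (nat_lit 106872832) (nat_lit 83443712)) (I.mix (nat_lit 109084672) (nat_lit 83902464)) (I.mix (nat_lit 162365440) (nat_lit 108511232)))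
  false (nat_lit 58132650)
def b3_13 : Bx := Bx.mk (St.mk (I.pos (nat_lit 169623552) (nat_lit 210386944)) (I.mix (nat_lit 23560192) (nat_lit 32096256)) (I.mix (nat_lit 753664) (nat_lit 71958528)) (I.pos (nat_lit 127516672) (nat_lit 197345280)) (I.mix (nat_lit 102875136) (nat_lit 56557568)) (I.mix (nat_lit 121749504) (nat_lit 58245120)) (I.mix (nat_lit 141885440) (nat_lit 58834944)))
  false (nat_lit 18223056)
def t3 : BTr := (BTr.n (BTr.n (BTr.n (BTr.b b3_0) (BTr.n (BTr.b b3_1) (BTr.b b3_2))) (BTr.n (BTr.n (BTr.b b3_3) (BTr.b b3_4)) (BTr.n (BTr.b b3_5) (BTr.b b3_6)))) (BTr.n (BTr.n (BTr.b b3_7) (BTr.n (BTr.b b3_8) (BTr.b b3_9))) (BTr.n (BTr.n (BTr.b b3_10) (BTr.b b3_11)) (BTr.n (BTr.b b3_12) (BTr.b b3_13)))))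
namespace T3
def l0 : Tr := Tr.L (Pth.l (Pth.l (Pth.l Pth.z)))
def l1 : Tr := Tr.L (Pth.l (Pth.l (Pth.r (Pth.l Pth.z))))
def l2 : Tr := Tr.L (Pth.l (Pth.l (Pth.r (Pth.r Pth.z))))
def l3 : Tr := Tr.L (Pth.l (Pth.r (Pth.l (Pth.l Pth.z))))
def l4 : Tr := Tr.L (Pth.l (Pth.r (Pth.l (Pth.r Pth.z))))
def l5 : Tr := Tr.L (Pth.l (Pth.r (Pth.r (Pth.l Pth.z))))
def l6 : Tr := Tr.L (Pth.l (Pth.r (Pth.r (Pth.r Pth.z))))
def l7 : Tr := Tr.L (Pth.r (Pth.l (Pth.l Pth.z)))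
def l8 : Tr := Tr.L (Pth.r (Pth.l (Pth.r (Pth.l Pth.z))))
def l9 : Tr := Tr.L (Pth.r (Pth.l (Pth.r (Pth.r Pth.z))))
def l10 : Tr := Tr.L (Pth.r (Pth.r (Pth.l (Pth.l Pth.z))))
def l11 : Tr := Tr.L (Pth.r (Pth.r (Pth.l (Pth.r Pth.z))))
def l12 : Tr := Tr.L (Pth.r (Pth.r (Pth.r (Pth.l Pth.z))))
def l13 : Tr := Tr.L (Pth.r (Pth.r (Pth.r (Pth.r Pth.z))))
end T3
def b4_0 : Bx := Bx.mk (St.mk (I.pos (nat_lit 147324928) (nat_lit 228704256)) (I.mix (nat_lit 4538368) (nat_lit 76120064)) (I.mix (nat_lit 6651904) (nat_lit 112820224)) (I.pos (nat_lit 233144320) (nat_lit 335282176)) (I.mix (nat_lit 123305984) (nat_lit 84738048)) (I.mix (nat_lit 92700672) (nat_lit 81690624)) (I.mix (nat_lit 125714432) (nat_lit 106332160)))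
  false (nat_lit 96580009)
def b4_1 : Bx := Bx.mk (St.mk (I.pos (nat_lit 73662464) (nat_lit 156893184)) (I.neg (nat_lit 3555328) (nat_lit 74907648)) (I.mix (nat_lit 61718528) (nat_lit 12206080)) (I.pos (nat_lit 164855808) (nat_lit 233996288)) (I.mix (nat_lit 75464704) (nat_lit 53542912)) (I.mix (nat_lit 44072960) (nat_lit 69238784)) (I.mix (nat_lit 39452672) (nat_lit 59604992)))
  false (nat_lit 0)
def b4_2 : Bx := Bx.mk (St.mk (I.mix (nat_lit 36274176) (nat_lit 9519104)) (I.mix (nat_lit 41844736) (nat_lit 10469376)) (I.mix (nat_lit 1245184) (nat_lit 8273920)) (I.pos (nat_lit 140427264) (nat_lit 150831104)) (I.mix (nat_lit 25149440) (nat_lit 41795584)) (I.mix (nat_lit 23330816) (nat_lit 41353216)) (I.mix (nat_lit 4734976) (nat_lit 5767168)))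
  true (nat_lit 0)
def b4_3 : Bx := Bx.mk (St.mk (I.pos (nat_lit 150208512) (nat_lit 202244096)) (I.pos (nat_lit 81920) (nat_lit 68075520)) (I.pos (nat_lit 18169856) (nat_lit 102842368)) (I.pos (nat_lit 230703104) (nat_lit 294682624)) (I.mix (nat_lit 129335296) (nat_lit 41058304)) (I.mix (nat_lit 127418368) (nat_lit 67862528)) (I.mix (nat_lit 125239296) (nat_lit 68747264)))
  false (nat_lit 57900388)
def b4_4 : Bx := Bx.mk (St.mk (I.mix (nat_lit 9519104) (nat_lit 36274176)) (I.mix (nat_lit 10469376) (nat_lit 41844736)) (I.mix (nat_lit 1245184) (nat_lit 8273920)) (I.pos (nat_lit 140427264) (nat_lit 150831104)) (I.mix (nat_lit 41795584) (nat_lit 25149440)) (I.mix (nat_lit 41353216) (nat_lit 23330816)) (I.mix (nat_lit 4734976) (nat_lit 5767168)))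
  false (nat_lit 0)
def b4_5 : Bx := Bx.mk (St.mk (I.pos (nat_lit 19808256) (nat_lit 73285632)) (I.mix (nat_lit 10452992) (nat_lit 47235072)) (I.mix (nat_lit 20971520) (nat_lit 10223616)) (I.pos (nat_lit 142278656) (nat_lit 163020800)) (I.mix (nat_lit 32817152) (nat_lit 44482560)) (I.mix (nat_lit 43630592) (nat_lit 31670272)) (I.mix (nat_lit 23216128) (nat_lit 14745600)))
  false (nat_lit 0)
def b4_6 : Bx := Bx.mk (St.mk (I.pos (nat_lit 50905088) (nat_lit 105988096)) (I.mix (nat_lit 65142784) (nat_lit 11911168)) (I.neg (nat_lit 4784128) (nat_lit 51609600)) (I.pos (nat_lit 149815296) (nat_lit 186531840)) (I.mix (nat_lit 82198528) (nat_lit 33374208)) (I.mix (nat_lit 39321600) (nat_lit 76627968)) (I.mix (nat_lit 29229056) (nat_lit 44482560)))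
  false (nat_lit 0)
def b4_7 : Bx := Bx.mk (St.mk (I.neg (nat_lit 19808256) (nat_lit 73285632)) (I.mix (nat_lit 47235072) (nat_lit 10452992)) (I.mix (nat_lit 20971520) (nat_lit 10223616)) (I.pos (nat_lit 142278656) (nat_lit 163020800)) (I.mix (nat_lit 44482560) (nat_lit 32817152)) (I.mix (nat_lit 31670272) (nat_lit 43630592)) (I.mix (nat_lit 23216128) (nat_lit 14745600)))
  true (nat_lit 0)
def b4_8 : Bx := Bx.mk (St.mk (I.pos (nat_lit 121602048) (nat_lit 192053248)) (I.mix (nat_lit 42942464) (nat_lit 23494656)) (I.mix (nat_lit 31277056) (nat_lit 47792128)) (I.pos (nat_lit 200949760) (nat_lit 273776640)) (I.mix (nat_lit 61014016) (nat_lit 59981824)) (I.mix (nat_lit 64126976) (nat_lit 59146240)) (I.mix (nat_lit 60194816) (nat_lit 56000512)))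
  false (nat_lit 0)
def b4_9 : Bx := Bx.mk (St.mk (I.pos (nat_lit 180797440) (nat_lit 288407552)) (I.mix (nat_lit 25378816) (nat_lit 55361536)) (I.mix (nat_lit 87015424) (nat_lit 75612160)) (I.pos (nat_lit 280576000) (nat_lit 448380928)) (I.mix (nat_lit 81477632) (nat_lit 56262656)) (I.mix (nat_lit 68386816) (nat_lit 45563904)) (I.mix (nat_lit 106299392) (nat_lit 80084992)))
  false (nat_lit 79082278)
def b4_10 : Bx := Bx.mk (St.mk (I.pos (nat_lit 165691392) (nat_lit 229015552)) (I.pos (nat_lit 10797056) (nat_lit 77479936)) (I.pos (nat_lit 9961472) (nat_lit 112738304)) (I.pos (nat_lit 274481152) (nat_lit 330727424)) (I.mix (nat_lit 119586816) (nat_lit 95338496)) (I.mix (nat_lit 116342784) (nat_lit 84803584)) (I.mix (nat_lit 166330368) (nat_lit 98893824)))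
  false (nat_lit 88388664)
def b4_11 : Bx := Bx.mk (St.mk (I.pos (nat_lit 149667840) (nat_lit 194904064)) (I.mix (nat_lit 11173888) (nat_lit 53641216)) (I.pos (nat_lit 3489792) (nat_lit 86573056)) (I.pos (nat_lit 232325120) (nat_lit 280526848)) (I.mix (nat_lit 138330112) (nat_lit 62701568)) (I.mix (nat_lit 153665536) (nat_lit 70893568)) (I.mix (nat_lit 152453120) (nat_lit 70664192)))
  false (nat_lit 32062789)
def t4 : BTr := (BTr.n (BTr.n (BTr.n (BTr.b b4_0) (BTr.n (BTr.b b4_1) (BTr.b b4_2))) (BTr.n (BTr.b b4_3) (BTr.n (BTr.b b4_4) (BTr.b b4_5)))) (BTr.n (BTr.n (BTr.b b4_6) (BTr.n (BTr.b b4_7) (BTr.b b4_8))) (BTr.n (BTr.b b4_9) (BTr.n (BTr.b b4_10) (BTr.b b4_11)))))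
namespace T4
def l0 : Tr := Tr.L (Pth.l (Pth.l (Pth.l Pth.z)))
def l1 : Tr := Tr.L (Pth.l (Pth.l (Pth.r (Pth.l Pth.z))))
def l2 : Tr := Tr.L (Pth.l (Pth.l (Pth.r (Pth.r Pth.z))))
def l3 : Tr := Tr.L (Pth.l (Pth.r (Pth.l Pth.z)))
def l4 : Tr := Tr.L (Pth.l (Pth.r (Pth.r (Pth.l Pth.z))))
def l5 : Tr := Tr.L (Pth.l (Pth.r (Pth.r (Pth.r Pth.z))))
def l6 : Tr := Tr.L (Pth.r (Pth.l (Pth.l Pth.z)))
def l7 : Tr := Tr.L (Pth.r (Pth.l (Pth.r (Pth.l Pth.z))))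
def l8 : Tr := Tr.L (Pth.r (Pth.l (Pth.r (Pth.r Pth.z))))
def l9 : Tr := Tr.L (Pth.r (Pth.r (Pth.l Pth.z)))
def l10 : Tr := Tr.L (Pth.r (Pth.r (Pth.r (Pth.l Pth.z))))
def l11 : Tr := Tr.L (Pth.r (Pth.r (Pth.r (Pth.r Pth.z))))
end T4
def b5_0 : Bx := Bx.mk (St.mk (I.pos (nat_lit 150765568) (nat_lit 235618304)) (I.mix (nat_lit 3358720) (nat_lit 58523648)) (I.mix (nat_lit 6602752) (nat_lit 117751808)) (I.pos (nat_lit 135806976) (nat_lit 258621440)) (I.mix (nat_lit 116473856) (nat_lit 73908224)) (I.mix (nat_lit 96321536) (nat_lit 84770816)) (I.mix (nat_lit 132775936) (nat_lit 106463232)))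
  false (nat_lit 63636960)
def b5_1 : Bx := Bx.mk (St.mk (I.pos (nat_lit 100155392) (nat_lit 170278912)) (I.neg (nat_lit 5832704) (nat_lit 63881216)) (I.mix (nat_lit 50397184) (nat_lit 9125888)) (I.pos (nat_lit 97304576) (nat_lit 171261952)) (I.mix (nat_lit 73449472) (nat_lit 41320448)) (I.mix (nat_lit 41697280) (nat_lit 51937280)) (I.mix (nat_lit 39239680) (nat_lit 50135040)))
  false (nat_lit 22452867)
def b5_2 : Bx := Bx.mk (St.mk (I.mix (nat_lit 28901376) (nat_lit 87228416)) (I.mix (nat_lit 34816000) (nat_lit 3407872)) (I.mix (nat_lit 12369920) (nat_lit 11354112)) (I.pos (nat_lit 37732352) (nat_lit 90734592)) (I.mix (nat_lit 28557312) (nat_lit 33898496)) (I.mix (nat_lit 26673152) (nat_lit 30883840)) (I.mix (nat_lit 12795904) (nat_lit 16842752)))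
  false (nat_lit 0)
def b5_3 : Bx := Bx.mk (St.mk (I.pos (nat_lit 162185216) (nat_lit 213663744)) (I.mix (nat_lit 13369344) (nat_lit 61718528)) (I.pos (nat_lit 14303232) (nat_lit 113786880)) (I.pos (nat_lit 143179776) (nat_lit 231161856)) (I.mix (nat_lit 135135232) (nat_lit 50970624)) (I.mix (nat_lit 138461184) (nat_lit 75874304)) (I.mix (nat_lit 152240128) (nat_lit 70402048)))
  false (nat_lit 45791575)
def b5_4 : Bx := Bx.mk (St.mk (I.mix (nat_lit 40402944) (nat_lit 111706112)) (I.mix (nat_lit 10338304) (nat_lit 39714816)) (I.mix (nat_lit 3276800) (nat_lit 35635200)) (I.pos (nat_lit 38699008) (nat_lit 107479040)) (I.mix (nat_lit 51888128) (nat_lit 21807104)) (I.mix (nat_lit 47448064) (nat_lit 29425664)) (I.mix (nat_lit 27164672) (nat_lit 17563648)))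
  false (nat_lit 0)
def b5_5 : Bx := Bx.mk (St.mk (I.pos (nat_lit 150519808) (nat_lit 204881920)) (I.mix (nat_lit 34111488) (nat_lit 13795328)) (I.mix (nat_lit 13156352) (nat_lit 50184192)) (I.pos (nat_lit 132186112) (nat_lit 212975616)) (I.mix (nat_lit 53624832) (nat_lit 60047360)) (I.mix (nat_lit 59146240) (nat_lit 59146240)) (I.mix (nat_lit 57344000) (nat_lit 59310080)))
  false (nat_lit 677972)
def b5_6 : Bx := Bx.mk (St.mk (I.mix (nat_lit 41926656) (nat_lit 91078656)) (I.mix (nat_lit 16400384) (nat_lit 4063232)) (I.mix (nat_lit 2195456) (nat_lit 11583488)) (I.pos (nat_lit 41484288) (nat_lit 91193344)) (I.mix (nat_lit 10551296) (nat_lit 13762560)) (I.mix (nat_lit 9191424) (nat_lit 9502720)) (I.mix (nat_lit 4915200) (nat_lit 5013504)))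
  false (nat_lit 0)
def b5_7 : Bx := Bx.mk (St.mk (I.pos (nat_lit 149307392) (nat_lit 171884544)) (I.neg (nat_lit 12992512) (nat_lit 38289408)) (I.mix (nat_lit 21692416) (nat_lit 9142272)) (I.pos (nat_lit 132710400) (nat_lit 174866432)) (I.mix (nat_lit 23969792) (nat_lit 19775488)) (I.mix (nat_lit 14843904) (nat_lit 17448960)) (I.mix (nat_lit 14483456) (nat_lit 18317312)))
  false (nat_lit 0)
def b5_8 : Bx := Bx.mk (St.mk (I.mix (nat_lit 35733504) (nat_lit 124485632)) (I.mix (nat_lit 8650752) (nat_lit 34488320)) (I.mix (nat_lit 3899392) (nat_lit 33095680)) (I.pos (nat_lit 35520512) (nat_lit 118112256)) (I.mix (nat_lit 43941888) (nat_lit 34947072)) (I.mix (nat_lit 41762816) (nat_lit 31064064)) (I.mix (nat_lit 30457856) (nat_lit 22462464)))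
  false (nat_lit 0)
def b5_9 : Bx := Bx.mk (St.mk (I.pos (nat_lit 91930624) (nat_lit 152649728)) (I.mix (nat_lit 64847872) (nat_lit 11026432)) (I.mix (nat_lit 49545216) (nat_lit 15155200)) (I.pos (nat_lit 77873152) (nat_lit 148979712)) (I.mix (nat_lit 80691200) (nat_lit 29622272)) (I.mix (nat_lit 40566784) (nat_lit 74121216)) (I.mix (nat_lit 30490624) (nat_lit 54607872)))
  false (nat_lit 0)
def b5_10 : Bx := Bx.mk (St.mk (I.mix (nat_lit 39501824) (nat_lit 76333056)) (I.mix (nat_lit 30900224) (nat_lit 6029312)) (I.mix (nat_lit 9846784) (nat_lit 11763712)) (I.pos (nat_lit 40157184) (nat_lit 84279296)) (I.mix (nat_lit 31391744) (nat_lit 25198592)) (I.mix (nat_lit 23085056) (nat_lit 31604736)) (I.mix (nat_lit 9404416) (nat_lit 11698176)))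
  false (nat_lit 0)
def b5_11 : Bx := Bx.mk (St.mk (I.pos (nat_lit 163299328) (nat_lit 206749696)) (I.mix (nat_lit 22839296) (nat_lit 36405248)) (I.pos (nat_lit 3997696) (nat_lit 82165760)) (I.pos (nat_lit 145506304) (nat_lit 217743360)) (I.mix (nat_lit 116916224) (nat_lit 55033856)) (I.mix (nat_lit 135282688) (nat_lit 60014592)) (I.mix (nat_lit 150683648) (nat_lit 57491456)))
  false (nat_lit 55029592)
def b5_12 : Bx := Bx.mk (St.mk (I.pos (nat_lit 189382656) (nat_lit 285163520)) (I.mix (nat_lit 22134784) (nat_lit 43925504)) (I.mix (nat_lit 32014336) (nat_lit 96649216)) (I.pos (nat_lit 198279168) (nat_lit 365756416)) (I.mix (nat_lit 73039872) (nat_lit 54902784)) (I.mix (nat_lit 59490304) (nat_lit 42270720)) (I.mix (nat_lit 92913664) (nat_lit 66142208)))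
  false (nat_lit 30641183)
def b5_13 : Bx := Bx.mk (St.mk (I.pos (nat_lit 174325760) (nat_lit 233209856)) (I.pos (nat_lit 12845056) (nat_lit 55476224)) (I.pos (nat_lit 38338560) (nat_lit 111525888)) (I.pos (nat_lit 187285504) (nat_lit 252870656)) (I.mix (nat_lit 107266048) (nat_lit 83148800)) (I.mix (nat_lit 110493696) (nat_lit 78299136)) (I.mix (nat_lit 169017344) (nat_lit 98254848)))
  false (nat_lit 37389124)
def t5 : BTr := (BTr.n (BTr.n (BTr.n (BTr.b b5_0) (BTr.n (BTr.b b5_1) (BTr.b b5_2))) (BTr.n (BTr.n (BTr.b b5_3) (BTr.b b5_4)) (BTr.n (BTr.b b5_5) (BTr.b b5_6)))) (BTr.n (BTr.n (BTr.b b5_7) (BTr.n (BTr.b b5_8) (BTr.b b5_9))) (BTr.n (BTr.n (BTr.b b5_10) (BTr.b b5_11)) (BTr.n (BTr.b b5_12) (BTr.b b5_13)))))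
namespace T5
def l0 : Tr := Tr.L (Pth.l (Pth.l (Pth.l Pth.z)))
def l1 : Tr := Tr.L (Pth.l (Pth.l (Pth.r (Pth.l Pth.z))))
def l2 : Tr := Tr.L (Pth.l (Pth.l (Pth.r (Pth.r Pth.z))))
def l3 : Tr := Tr.L (Pth.l (Pth.r (Pth.l (Pth.l Pth.z))))
def l4 : Tr := Tr.L (Pth.l (Pth.r (Pth.l (Pth.r Pth.z))))
def l5 : Tr := Tr.L (Pth.l (Pth.r (Pth.r (Pth.l Pth.z))))
def l6 : Tr := Tr.L (Pth.l (Pth.r (Pth.r (Pth.r Pth.z))))
def l7 : Tr := Tr.L (Pth.r (Pth.l (Pth.l Pth.z)))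
def l8 : Tr := Tr.L (Pth.r (Pth.l (Pth.r (Pth.l Pth.z))))
def l9 : Tr := Tr.L (Pth.r (Pth.l (Pth.r (Pth.r Pth.z))))
def l10 : Tr := Tr.L (Pth.r (Pth.r (Pth.l (Pth.l Pth.z))))
def l11 : Tr := Tr.L (Pth.r (Pth.r (Pth.l (Pth.r Pth.z))))
def l12 : Tr := Tr.L (Pth.r (Pth.r (Pth.r (Pth.l Pth.z))))
def l13 : Tr := Tr.L (Pth.r (Pth.r (Pth.r (Pth.r Pth.z))))
end T5
theorem bx0_0 : BoxOK sI cl5 cl7 cl9 t2 t4 b0_0 :=
  box_mk (TrL.c (I.pos (nat_lit 0) (nat_lit 0)) (xa (xb T2.l0 T2.l0) T2.l0)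
  (TrL.c (I.pos (nat_lit 0) (nat_lit 0)) T4.l1
  (TrL.c (I.pos (nat_lit 0) (nat_lit 0)) T2.l1
  (TrL.c (I.pos (nat_lit 0) (nat_lit 0)) T4.l2
  (TrL.c (I.pos (nat_lit 0) (nat_lit 0)) (xa T4.l3 T4.l3)
  (TrL.c (I.pos (nat_lit 0) (nat_lit 0)) T2.l2
  (TrL.c (I.pos (nat_lit 0) (nat_lit 0)) T4.l4
  (TrL.c (I.pos (nat_lit 0) (nat_lit 0)) T2.l3
  TrL.n)))))))) (by decide +kernel)
theorem bx0_1 : BoxOK sI cl5 cl7 cl9 t2 t4 b0_1 :=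
  box_mk (TrL.c (I.pos (nat_lit 0) (nat_lit 0)) (xa T2.l8 (xa T2.l8 T2.l8))
  (TrL.c (I.pos (nat_lit 0) (nat_lit 0)) T4.l1
  (TrL.c (I.pos (nat_lit 0) (nat_lit 0)) T2.l1
  (TrL.c (I.pos (nat_lit 0) (nat_lit 0)) T4.l2
  (TrL.c (I.pos (nat_lit 0) (nat_lit 0)) T4.l8
  (TrL.c (I.pos (nat_lit 0) (nat_lit 0)) T2.l2
  (TrL.c (I.pos (nat_lit 0) (nat_lit 0)) T4.l4
  (TrL.c (I.pos (nat_lit 0) (nat_lit 0)) T2.l3
  TrL.n)))))))) (by decide +kernel)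
theorem bx0_2 : BoxOK sI cl5 cl7 cl9 t2 t4 b0_2 :=
  box_mk (TrL.c (I.pos (nat_lit 0) (nat_lit 0)) T2.l8
  (TrL.c (I.pos (nat_lit 0) (nat_lit 0)) T4.l1
  (TrL.c (I.pos (nat_lit 0) (nat_lit 0)) T2.l1
  (TrL.c (I.pos (nat_lit 0) (nat_lit 0)) T4.l2
  (TrL.c (I.pos (nat_lit 0) (nat_lit 0)) T4.l8
  (TrL.c (I.pos (nat_lit 0) (nat_lit 0)) T2.l2
  (TrL.c (I.pos (nat_lit 0) (nat_lit 0)) T4.l4
  (TrL.c (I.pos (nat_lit 0) (nat_lit 0)) T2.l3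
  TrL.n)))))))) (by decide +kernel)
theorem bx0_3 : BoxOK sI cl5 cl7 cl9 t2 t4 b0_3 :=
  box_mk (TrL.c (I.pos (nat_lit 0) (nat_lit 0)) (xa (xa (xb T2.l8 T2.l8) T2.l8) T2.l8)
  (TrL.c (I.pos (nat_lit 0) (nat_lit 0)) T4.l1
  (TrL.c (I.pos (nat_lit 0) (nat_lit 0)) T2.l1
  (TrL.c (I.pos (nat_lit 0) (nat_lit 0)) T4.l2
  (TrL.c (I.pos (nat_lit 0) (nat_lit 0)) T4.l8
  (TrL.c (I.pos (nat_lit 0) (nat_lit 0)) T2.l2
  (TrL.c (I.pos (nat_lit 0) (nat_lit 0)) T4.l4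
  (TrL.c (I.pos (nat_lit 0) (nat_lit 0)) T2.l3
  TrL.n)))))))) (by decide +kernel)
theorem bx0_4 : BoxOK sI cl5 cl7 cl9 t2 t4 b0_4 :=
  box_mk (TrL.c (I.pos (nat_lit 0) (nat_lit 0)) T2.l0
  (TrL.c (I.pos (nat_lit 0) (nat_lit 0)) T4.l1
  (TrL.c (I.pos (nat_lit 0) (nat_lit 0)) T2.l1
  (TrL.c (I.pos (nat_lit 0) (nat_lit 0)) T4.l2
  (TrL.c (I.pos (nat_lit 0) (nat_lit 0)) T4.l3
  (TrL.c (I.pos (nat_lit 0) (nat_lit 0)) T2.l2
  (TrL.c (I.pos (nat_lit 0) (nat_lit 0)) T4.l4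
  (TrL.c (I.pos (nat_lit 0) (nat_lit 0)) T2.l3
  TrL.n)))))))) (by decide +kernel)
theorem bx0_5 : BoxOK sI cl5 cl7 cl9 t2 t4 b0_5 :=
  box_mk (TrL.c (I.pos (nat_lit 0) (nat_lit 0)) T2.l8
  (TrL.c (I.pos (nat_lit 0) (nat_lit 0)) T4.l1
  (TrL.c (I.pos (nat_lit 0) (nat_lit 0)) T2.l1
  (TrL.c (I.pos (nat_lit 0) (nat_lit 0)) T4.l2
  (TrL.c (I.pos (nat_lit 0) (nat_lit 0)) T4.l8
  (TrL.c (I.pos (nat_lit 0) (nat_lit 0)) T2.l2
  (TrL.c (I.pos (nat_lit 0) (nat_lit 0)) T4.l4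
  (TrL.c (I.pos (nat_lit 0) (nat_lit 0)) T2.l3
  TrL.n)))))))) (by decide +kernel)
theorem bx0_6 : BoxOK sI cl5 cl7 cl9 t2 t4 b0_6 :=
  box_mk (TrL.c (I.pos (nat_lit 0) (nat_lit 0)) (xa T2.l8 T2.l8)
  (TrL.c (I.pos (nat_lit 0) (nat_lit 0)) T4.l1
  (TrL.c (I.pos (nat_lit 0) (nat_lit 0)) T2.l1
  (TrL.c (I.pos (nat_lit 0) (nat_lit 0)) T4.l2
  (TrL.c (I.pos (nat_lit 0) (nat_lit 0)) T4.l8
  (TrL.c (I.pos (nat_lit 0) (nat_lit 0)) T2.l2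
  (TrL.c (I.pos (nat_lit 0) (nat_lit 0)) T4.l4
  (TrL.c (I.pos (nat_lit 0) (nat_lit 0)) T2.l3
  TrL.n)))))))) (by decide +kernel)
theorem bx0_7 : BoxOK sI cl5 cl7 cl9 t2 t4 b0_7 :=
  box_mk (TrL.c (I.pos (nat_lit 0) (nat_lit 0)) (xa (xa (xb T2.l8 T2.l8) T2.l8) T2.l8)
  (TrL.c (I.pos (nat_lit 0) (nat_lit 0)) T4.l1
  (TrL.c (I.pos (nat_lit 0) (nat_lit 0)) T2.l1
  (TrL.c (I.pos (nat_lit 0) (nat_lit 0)) T4.l2
  (TrL.c (I.pos (nat_lit 0) (nat_lit 0)) T4.l8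
  (TrL.c (I.pos (nat_lit 0) (nat_lit 0)) T2.l2
  (TrL.c (I.pos (nat_lit 0) (nat_lit 0)) T4.l4
  (TrL.c (I.pos (nat_lit 0) (nat_lit 0)) T2.l3
  TrL.n)))))))) (by decide +kernel)
theorem bx0_8 : BoxOK sI cl5 cl7 cl9 t2 t4 b0_8 :=
  box_mk (TrL.c (I.pos (nat_lit 0) (nat_lit 0)) (xb T2.l11 T2.l11)
  (TrL.c (I.pos (nat_lit 0) (nat_lit 0)) T4.l1
  (TrL.c (I.pos (nat_lit 0) (nat_lit 0)) T2.l1
  (TrL.c (I.pos (nat_lit 0) (nat_lit 0)) T4.l2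
  (TrL.c (I.pos (nat_lit 0) (nat_lit 0)) T4.l11
  (TrL.c (I.pos (nat_lit 0) (nat_lit 0)) T2.l2
  (TrL.c (I.pos (nat_lit 0) (nat_lit 0)) T4.l4
  (TrL.c (I.pos (nat_lit 0) (nat_lit 0)) T2.l3
  TrL.n)))))))) (by decide +kernel)
theorem bx0_9 : BoxOK sI cl5 cl7 cl9 t2 t4 b0_9 :=
  box_mk (TrL.c (I.pos (nat_lit 0) (nat_lit 0)) (xa (xa (xb T2.l8 (xa T2.l8 T2.l8)) (xb T2.l8 T2.l8)) (xa T2.l8 T2.l8))
  (TrL.c (I.pos (nat_lit 0) (nat_lit 0)) T4.l1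
  (TrL.c (I.pos (nat_lit 0) (nat_lit 0)) T2.l1
  (TrL.c (I.pos (nat_lit 0) (nat_lit 0)) T4.l2
  (TrL.c (I.pos (nat_lit 0) (nat_lit 0)) T4.l8
  (TrL.c (I.pos (nat_lit 0) (nat_lit 0)) T2.l2
  (TrL.c (I.pos (nat_lit 0) (nat_lit 0)) T4.l4
  (TrL.c (I.pos (nat_lit 0) (nat_lit 0)) T2.l3
  TrL.n)))))))) (by decide +kernel)
theorem bx0_10 : BoxOK sI cl5 cl7 cl9 t2 t4 b0_10 :=
  box_mk (TrL.c (I.pos (nat_lit 0) (nat_lit 0)) T2.l8
  (TrL.c (I.pos (nat_lit 0) (nat_lit 0)) T4.l1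
  (TrL.c (I.pos (nat_lit 0) (nat_lit 0)) T2.l1
  (TrL.c (I.pos (nat_lit 0) (nat_lit 0)) T4.l2
  (TrL.c (I.pos (nat_lit 0) (nat_lit 0)) T4.l8
  (TrL.c (I.pos (nat_lit 0) (nat_lit 0)) T2.l2
  (TrL.c (I.pos (nat_lit 0) (nat_lit 0)) T4.l4
  (TrL.c (I.pos (nat_lit 0) (nat_lit 0)) T2.l3
  TrL.n)))))))) (by decide +kernel)
theorem bx0_11 : BoxOK sI cl5 cl7 cl9 t2 t4 b0_11 :=
  box_mk (TrL.c (I.pos (nat_lit 0) (nat_lit 0)) (xa T2.l0 T2.l0)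
  (TrL.c (I.pos (nat_lit 0) (nat_lit 0)) T4.l1
  (TrL.c (I.pos (nat_lit 0) (nat_lit 0)) T2.l1
  (TrL.c (I.pos (nat_lit 0) (nat_lit 0)) T4.l2
  (TrL.c (I.pos (nat_lit 0) (nat_lit 0)) T4.l3
  (TrL.c (I.pos (nat_lit 0) (nat_lit 0)) T2.l2
  (TrL.c (I.pos (nat_lit 0) (nat_lit 0)) T4.l4
  (TrL.c (I.pos (nat_lit 0) (nat_lit 0)) T2.l3
  TrL.n)))))))) (by decide +kernel)
theorem bx0_12 : BoxOK sI cl5 cl7 cl9 t2 t4 b0_12 :=
  box_mk (TrL.c (I.pos (nat_lit 0) (nat_lit 0)) (xa T2.l11 T2.l11)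
  (TrL.c (I.pos (nat_lit 0) (nat_lit 0)) T4.l1
  (TrL.c (I.pos (nat_lit 0) (nat_lit 0)) T2.l1
  (TrL.c (I.pos (nat_lit 0) (nat_lit 0)) T4.l2
  (TrL.c (I.pos (nat_lit 0) (nat_lit 0)) T4.l11
  (TrL.c (I.pos (nat_lit 0) (nat_lit 0)) T2.l2
  (TrL.c (I.pos (nat_lit 0) (nat_lit 0)) T4.l4
  (TrL.c (I.pos (nat_lit 0) (nat_lit 0)) T2.l3
  TrL.n)))))))) (by decide +kernel)
theorem bx0_13 : BoxOK sI cl5 cl7 cl9 t2 t4 b0_13 :=
  box_mk (TrL.c (I.pos (nat_lit 0) (nat_lit 0)) T2.l11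
  (TrL.c (I.pos (nat_lit 0) (nat_lit 0)) T4.l1
  (TrL.c (I.pos (nat_lit 0) (nat_lit 0)) T2.l1
  (TrL.c (I.pos (nat_lit 0) (nat_lit 0)) T4.l2
  (TrL.c (I.pos (nat_lit 0) (nat_lit 0)) T4.l11
  (TrL.c (I.pos (nat_lit 0) (nat_lit 0)) T2.l2
  (TrL.c (I.pos (nat_lit 0) (nat_lit 0)) T4.l4
  (TrL.c (I.pos (nat_lit 0) (nat_lit 0)) T2.l3
  TrL.n)))))))) (by decide +kernel)
theorem sv0 : StarV sI cl5 cl7 cl9 t2 t4 t0 :=
  (bt_n (bt_n (bt_n (bt_b bx0_0) (bt_n (bt_b bx0_1) (bt_b bx0_2))) (bt_n (bt_n (bt_b bx0_3) (bt_b bx0_4)) (bt_n (bt_b bx0_5) (bt_b bx0_6)))) (bt_n (bt_n (bt_b bx0_7) (bt_n (bt_b bx0_8) (bt_b bx0_9))) (bt_n (bt_n (bt_b bx0_10) (bt_b bx0_11)) (bt_n (bt_b bx0_12) (bt_b bx0_13)))))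
def S0 : StarD := StarD.mk cl5 cl7 cl9 2 4 t0
theorem bx1_0 : BoxOK sI cl5 cl9 cl7 t4 t2 b1_0 :=
  box_mk (TrL.c (I.pos (nat_lit 0) (nat_lit 0)) (xa (xb T4.l0 T4.l0) (xb T4.l0 T4.l0))
  (TrL.c (I.pos (nat_lit 0) (nat_lit 0)) T2.l4
  (TrL.c (I.pos (nat_lit 0) (nat_lit 0)) T4.l5
  (TrL.c (I.pos (nat_lit 0) (nat_lit 0)) T2.l5
  (TrL.c (I.pos (nat_lit 0) (nat_lit 0)) (xa T2.l6 T2.l6)
  (TrL.c (I.pos (nat_lit 0) (nat_lit 0)) T4.l6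
  (TrL.c (I.pos (nat_lit 0) (nat_lit 0)) T2.l7
  (TrL.c (I.pos (nat_lit 0) (nat_lit 0)) T4.l7
  TrL.n)))))))) (by decide +kernel)
theorem bx1_1 : BoxOK sI cl5 cl9 cl7 t4 t2 b1_1 :=
  box_mk (TrL.c (I.pos (nat_lit 0) (nat_lit 0)) (xa T4.l9 (xa T4.l9 T4.l9))
  (TrL.c (I.pos (nat_lit 0) (nat_lit 0)) T2.l4
  (TrL.c (I.pos (nat_lit 0) (nat_lit 0)) T4.l5
  (TrL.c (I.pos (nat_lit 0) (nat_lit 0)) T2.l5
  (TrL.c (I.pos (nat_lit 0) (nat_lit 0)) T2.l9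
  (TrL.c (I.pos (nat_lit 0) (nat_lit 0)) T4.l6
  (TrL.c (I.pos (nat_lit 0) (nat_lit 0)) T2.l7
  (TrL.c (I.pos (nat_lit 0) (nat_lit 0)) T4.l7
  TrL.n)))))))) (by decide +kernel)
theorem bx1_2 : BoxOK sI cl5 cl9 cl7 t4 t2 b1_2 :=
  box_mk (TrL.c (I.pos (nat_lit 0) (nat_lit 0)) T4.l9
  (TrL.c (I.pos (nat_lit 0) (nat_lit 0)) T2.l4
  (TrL.c (I.pos (nat_lit 0) (nat_lit 0)) T4.l5
  (TrL.c (I.pos (nat_lit 0) (nat_lit 0)) T2.l5
  (TrL.c (I.pos (nat_lit 0) (nat_lit 0)) T2.l9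
  (TrL.c (I.pos (nat_lit 0) (nat_lit 0)) T4.l6
  (TrL.c (I.pos (nat_lit 0) (nat_lit 0)) T2.l7
  (TrL.c (I.pos (nat_lit 0) (nat_lit 0)) T4.l7
  TrL.n)))))))) (by decide +kernel)
theorem bx1_3 : BoxOK sI cl5 cl9 cl7 t4 t2 b1_3 :=
  box_mk (TrL.c (I.pos (nat_lit 0) (nat_lit 0)) T4.l9
  (TrL.c (I.pos (nat_lit 0) (nat_lit 0)) T2.l4
  (TrL.c (I.pos (nat_lit 0) (nat_lit 0)) T4.l5
  (TrL.c (I.pos (nat_lit 0) (nat_lit 0)) T2.l5
  (TrL.c (I.pos (nat_lit 0) (nat_lit 0)) T2.l9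
  (TrL.c (I.pos (nat_lit 0) (nat_lit 0)) T4.l6
  (TrL.c (I.pos (nat_lit 0) (nat_lit 0)) T2.l7
  (TrL.c (I.pos (nat_lit 0) (nat_lit 0)) T4.l7
  TrL.n)))))))) (by decide +kernel)
theorem bx1_4 : BoxOK sI cl5 cl9 cl7 t4 t2 b1_4 :=
  box_mk (TrL.c (I.pos (nat_lit 0) (nat_lit 0)) T4.l0
  (TrL.c (I.pos (nat_lit 0) (nat_lit 0)) T2.l4
  (TrL.c (I.pos (nat_lit 0) (nat_lit 0)) T4.l5
  (TrL.c (I.pos (nat_lit 0) (nat_lit 0)) T2.l5
  (TrL.c (I.pos (nat_lit 0) (nat_lit 0)) T2.l6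
  (TrL.c (I.pos (nat_lit 0) (nat_lit 0)) T4.l6
  (TrL.c (I.pos (nat_lit 0) (nat_lit 0)) T2.l7
  (TrL.c (I.pos (nat_lit 0) (nat_lit 0)) T4.l7
  TrL.n)))))))) (by decide +kernel)
theorem bx1_5 : BoxOK sI cl5 cl9 cl7 t4 t2 b1_5 :=
  box_mk (TrL.c (I.pos (nat_lit 0) (nat_lit 0)) T4.l9
  (TrL.c (I.pos (nat_lit 0) (nat_lit 0)) T2.l4
  (TrL.c (I.pos (nat_lit 0) (nat_lit 0)) T4.l5
  (TrL.c (I.pos (nat_lit 0) (nat_lit 0)) T2.l5
  (TrL.c (I.pos (nat_lit 0) (nat_lit 0)) T2.l9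
  (TrL.c (I.pos (nat_lit 0) (nat_lit 0)) T4.l6
  (TrL.c (I.pos (nat_lit 0) (nat_lit 0)) T2.l7
  (TrL.c (I.pos (nat_lit 0) (nat_lit 0)) T4.l7
  TrL.n)))))))) (by decide +kernel)
theorem bx1_6 : BoxOK sI cl5 cl9 cl7 t4 t2 b1_6 :=
  box_mk (TrL.c (I.pos (nat_lit 0) (nat_lit 0)) (xa T4.l9 T4.l0)
  (TrL.c (I.pos (nat_lit 0) (nat_lit 0)) T2.l4
  (TrL.c (I.pos (nat_lit 0) (nat_lit 0)) T4.l5
  (TrL.c (I.pos (nat_lit 0) (nat_lit 0)) T2.l5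
  (TrL.c (I.pos (nat_lit 0) (nat_lit 0)) T2.l9
  (TrL.c (I.pos (nat_lit 0) (nat_lit 0)) T4.l6
  (TrL.c (I.pos (nat_lit 0) (nat_lit 0)) T2.l7
  (TrL.c (I.pos (nat_lit 0) (nat_lit 0)) T4.l7
  TrL.n)))))))) (by decide +kernel)
theorem bx1_7 : BoxOK sI cl5 cl9 cl7 t4 t2 b1_7 :=
  box_mk (TrL.c (I.pos (nat_lit 0) (nat_lit 0)) (xa (xa (xb T4.l9 T4.l9) T4.l9) T4.l9)
  (TrL.c (I.pos (nat_lit 0) (nat_lit 0)) T2.l4
  (TrL.c (I.pos (nat_lit 0) (nat_lit 0)) T4.l5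
  (TrL.c (I.pos (nat_lit 0) (nat_lit 0)) T2.l5
  (TrL.c (I.pos (nat_lit 0) (nat_lit 0)) T2.l9
  (TrL.c (I.pos (nat_lit 0) (nat_lit 0)) T4.l6
  (TrL.c (I.pos (nat_lit 0) (nat_lit 0)) T2.l7
  (TrL.c (I.pos (nat_lit 0) (nat_lit 0)) T4.l7
  TrL.n)))))))) (by decide +kernel)
theorem bx1_8 : BoxOK sI cl5 cl9 cl7 t4 t2 b1_8 :=
  box_mk (TrL.c (I.pos (nat_lit 0) (nat_lit 0)) (xb T4.l10 T4.l10)
  (TrL.c (I.pos (nat_lit 0) (nat_lit 0)) T2.l4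
  (TrL.c (I.pos (nat_lit 0) (nat_lit 0)) T4.l5
  (TrL.c (I.pos (nat_lit 0) (nat_lit 0)) T2.l5
  (TrL.c (I.pos (nat_lit 0) (nat_lit 0)) T2.l10
  (TrL.c (I.pos (nat_lit 0) (nat_lit 0)) T4.l6
  (TrL.c (I.pos (nat_lit 0) (nat_lit 0)) T2.l7
  (TrL.c (I.pos (nat_lit 0) (nat_lit 0)) T4.l7
  TrL.n)))))))) (by decide +kernel)
theorem bx1_9 : BoxOK sI cl5 cl9 cl7 t4 t2 b1_9 :=
  box_mk (TrL.c (I.pos (nat_lit 0) (nat_lit 0)) (xa (xa (xb T4.l9 (xa T4.l9 T4.l9)) (xb T4.l9 T4.l9)) (xa T4.l9 T4.l9))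
  (TrL.c (I.pos (nat_lit 0) (nat_lit 0)) T2.l4
  (TrL.c (I.pos (nat_lit 0) (nat_lit 0)) T4.l5
  (TrL.c (I.pos (nat_lit 0) (nat_lit 0)) T2.l5
  (TrL.c (I.pos (nat_lit 0) (nat_lit 0)) T2.l9
  (TrL.c (I.pos (nat_lit 0) (nat_lit 0)) T4.l6
  (TrL.c (I.pos (nat_lit 0) (nat_lit 0)) T2.l7
  (TrL.c (I.pos (nat_lit 0) (nat_lit 0)) T4.l7
  TrL.n)))))))) (by decide +kernel)
theorem bx1_10 : BoxOK sI cl5 cl9 cl7 t4 t2 b1_10 :=
  box_mk (TrL.c (I.pos (nat_lit 0) (nat_lit 0)) (xa T4.l10 T4.l10)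
  (TrL.c (I.pos (nat_lit 0) (nat_lit 0)) T2.l4
  (TrL.c (I.pos (nat_lit 0) (nat_lit 0)) T4.l5
  (TrL.c (I.pos (nat_lit 0) (nat_lit 0)) T2.l5
  (TrL.c (I.pos (nat_lit 0) (nat_lit 0)) T2.l10
  (TrL.c (I.pos (nat_lit 0) (nat_lit 0)) T4.l6
  (TrL.c (I.pos (nat_lit 0) (nat_lit 0)) T2.l7
  (TrL.c (I.pos (nat_lit 0) (nat_lit 0)) T4.l7
  TrL.n)))))))) (by decide +kernel)
theorem bx1_11 : BoxOK sI cl5 cl9 cl7 t4 t2 b1_11 :=
  box_mk (TrL.c (I.pos (nat_lit 0) (nat_lit 0)) T4.l10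
  (TrL.c (I.pos (nat_lit 0) (nat_lit 0)) T2.l4
  (TrL.c (I.pos (nat_lit 0) (nat_lit 0)) T4.l5
  (TrL.c (I.pos (nat_lit 0) (nat_lit 0)) T2.l5
  (TrL.c (I.pos (nat_lit 0) (nat_lit 0)) T2.l10
  (TrL.c (I.pos (nat_lit 0) (nat_lit 0)) T4.l6
  (TrL.c (I.pos (nat_lit 0) (nat_lit 0)) T2.l7
  (TrL.c (I.pos (nat_lit 0) (nat_lit 0)) T4.l7
  TrL.n)))))))) (by decide +kernel)
theorem bx1_12 : BoxOK sI cl5 cl9 cl7 t4 t2 b1_12 :=
  box_mk (TrL.c (I.pos (nat_lit 0) (nat_lit 0)) T4.l9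
  (TrL.c (I.pos (nat_lit 0) (nat_lit 0)) T2.l4
  (TrL.c (I.pos (nat_lit 0) (nat_lit 0)) T4.l5
  (TrL.c (I.pos (nat_lit 0) (nat_lit 0)) T2.l5
  (TrL.c (I.pos (nat_lit 0) (nat_lit 0)) T2.l9
  (TrL.c (I.pos (nat_lit 0) (nat_lit 0)) T4.l6
  (TrL.c (I.pos (nat_lit 0) (nat_lit 0)) T2.l7
  (TrL.c (I.pos (nat_lit 0) (nat_lit 0)) T4.l7
  TrL.n)))))))) (by decide +kernel)
theorem bx1_13 : BoxOK sI cl5 cl9 cl7 t4 t2 b1_13 :=
  box_mk (TrL.c (I.pos (nat_lit 0) (nat_lit 0)) (xa T4.l0 T4.l0)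
  (TrL.c (I.pos (nat_lit 0) (nat_lit 0)) T2.l4
  (TrL.c (I.pos (nat_lit 0) (nat_lit 0)) T4.l5
  (TrL.c (I.pos (nat_lit 0) (nat_lit 0)) T2.l5
  (TrL.c (I.pos (nat_lit 0) (nat_lit 0)) T2.l6
  (TrL.c (I.pos (nat_lit 0) (nat_lit 0)) T4.l6
  (TrL.c (I.pos (nat_lit 0) (nat_lit 0)) T2.l7
  (TrL.c (I.pos (nat_lit 0) (nat_lit 0)) T4.l7
  TrL.n)))))))) (by decide +kernel)
theorem sv1 : StarV sI cl5 cl9 cl7 t4 t2 t1 :=
  (bt_n (bt_n (bt_n (bt_b bx1_0) (bt_n (bt_b bx1_1) (bt_b bx1_2))) (bt_n (bt_n (bt_b bx1_3) (bt_b bx1_4)) (bt_n (bt_b bx1_5) (bt_b bx1_6)))) (bt_n (bt_n (bt_b bx1_7) (bt_n (bt_b bx1_8) (bt_b bx1_9))) (bt_n (bt_n (bt_b bx1_10) (bt_b bx1_11)) (bt_n (bt_b bx1_12) (bt_b bx1_13)))))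
def S1 : StarD := StarD.mk cl5 cl9 cl7 4 2 t1
theorem bx2_0 : BoxOK sI cl7 cl5 cl9 t0 t5 b2_0 :=
  box_mk (TrL.c (I.pos (nat_lit 0) (nat_lit 0)) (xa T0.l0 T0.l0)
  (TrL.c (I.pos (nat_lit 0) (nat_lit 0)) T5.l1
  (TrL.c (I.pos (nat_lit 0) (nat_lit 111196574)) (xR T0.l1 T0.l1)
  (TrL.c (I.pos (nat_lit 0) (nat_lit 77433728)) T5.l2
  (TrL.c (I.pos (nat_lit 0) (nat_lit 0)) (xa T5.l3 (xb T5.l3 T5.l3))
  (TrL.c (I.pos (nat_lit 0) (nat_lit 0)) T0.l2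
  (TrL.c (I.mix (nat_lit 29511666) (nat_lit 77433728)) (xR T5.l4 T5.l4)
  (TrL.c (I.mix (nat_lit 29511666) (nat_lit 46070178)) T0.l7
  TrL.n)))))))) (by decide +kernel)
theorem bx2_1 : BoxOK sI cl7 cl5 cl9 t0 t5 b2_1 :=
  box_mk (TrL.c (I.pos (nat_lit 0) (nat_lit 0)) (xb T0.l4 T0.l4)
  (TrL.c (I.pos (nat_lit 0) (nat_lit 0)) T5.l1
  (TrL.c (I.pos (nat_lit 0) (nat_lit 111196574)) T0.l1
  (TrL.c (I.pos (nat_lit 0) (nat_lit 77433728)) T5.l2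
  (TrL.c (I.pos (nat_lit 0) (nat_lit 0)) T5.l5
  (TrL.c (I.pos (nat_lit 0) (nat_lit 0)) T0.l2
  (TrL.c (I.mix (nat_lit 29511666) (nat_lit 77433728)) T5.l4
  (TrL.c (I.mix (nat_lit 29511666) (nat_lit 46070178)) T0.l3
  TrL.n)))))))) (by decide +kernel)
theorem bx2_2 : BoxOK sI cl7 cl5 cl9 t0 t5 b2_2 :=
  box_mk (TrL.c (I.pos (nat_lit 0) (nat_lit 0)) (xb T0.l4 T0.l4)
  (TrL.c (I.pos (nat_lit 0) (nat_lit 0)) T5.l1
  (TrL.c (I.pos (nat_lit 0) (nat_lit 111196574)) T0.l1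
  (TrL.c (I.pos (nat_lit 0) (nat_lit 77433728)) T5.l2
  (TrL.c (I.pos (nat_lit 0) (nat_lit 0)) T5.l5
  (TrL.c (I.pos (nat_lit 0) (nat_lit 0)) T0.l2
  (TrL.c (I.mix (nat_lit 29511666) (nat_lit 77433728)) T5.l4
  (TrL.c (I.mix (nat_lit 29511666) (nat_lit 46070178)) T0.l3
  TrL.n)))))))) (by decide +kernel)
theorem bx2_3 : BoxOK sI cl7 cl5 cl9 t0 t5 b2_3 :=
  box_mk (TrL.c (I.pos (nat_lit 0) (nat_lit 0)) T5.l1
  (TrL.c (I.pos (nat_lit 0) (nat_lit 0)) T0.l1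
  (TrL.c (I.mix (nat_lit 29511666) (nat_lit 77433728)) T5.l6
  (TrL.c (I.mix (nat_lit 29511666) (nat_lit 46070178)) T0.l9
  TrL.n)))) (by decide +kernel)
theorem bx2_4 : BoxOK sI cl7 cl5 cl9 t0 t5 b2_4 :=
  box_mk (TrL.c (I.pos (nat_lit 0) (nat_lit 0)) (xa T0.l4 T0.l4)
  (TrL.c (I.pos (nat_lit 0) (nat_lit 0)) T5.l1
  (TrL.c (I.pos (nat_lit 0) (nat_lit 111196574)) T0.l1
  (TrL.c (I.pos (nat_lit 0) (nat_lit 77433728)) T5.l2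
  (TrL.c (I.pos (nat_lit 0) (nat_lit 0)) T5.l5
  (TrL.c (I.pos (nat_lit 0) (nat_lit 0)) T0.l2
  (TrL.c (I.mix (nat_lit 29511666) (nat_lit 77433728)) T5.l8
  (TrL.c (I.mix (nat_lit 29511666) (nat_lit 46070178)) T0.l7
  TrL.n)))))))) (by decide +kernel)
theorem bx2_5 : BoxOK sI cl7 cl5 cl9 t0 t5 b2_5 :=
  box_mk (TrL.c (I.pos (nat_lit 0) (nat_lit 0)) T5.l7
  (TrL.c (I.pos (nat_lit 0) (nat_lit 0)) T0.l1
  (TrL.c (I.mix (nat_lit 29511666) (nat_lit 77433728)) T5.l6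
  (TrL.c (I.mix (nat_lit 29511666) (nat_lit 46070178)) T0.l7
  TrL.n)))) (by decide +kernel)
theorem bx2_6 : BoxOK sI cl7 cl5 cl9 t0 t5 b2_6 :=
  box_mk (TrL.c (I.pos (nat_lit 0) (nat_lit 0)) T0.l11
  (TrL.c (I.pos (nat_lit 0) (nat_lit 0)) T5.l1
  (TrL.c (I.pos (nat_lit 0) (nat_lit 111196574)) (xR T0.l1 T0.l1)
  (TrL.c (I.pos (nat_lit 0) (nat_lit 77433728)) T5.l2
  (TrL.c (I.pos (nat_lit 0) (nat_lit 0)) T5.l3
  (TrL.c (I.pos (nat_lit 0) (nat_lit 0)) T0.l2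
  (TrL.c (I.mix (nat_lit 29511666) (nat_lit 77433728)) (xR T5.l4 T5.l4)
  (TrL.c (I.mix (nat_lit 29511666) (nat_lit 46070178)) T0.l7
  TrL.n)))))))) (by decide +kernel)
theorem bx2_7 : BoxOK sI cl7 cl5 cl9 t0 t5 b2_7 :=
  box_mk (TrL.c (I.pos (nat_lit 0) (nat_lit 0)) T0.l4
  (TrL.c (I.pos (nat_lit 0) (nat_lit 0)) T5.l7
  (TrL.c (I.pos (nat_lit 0) (nat_lit 111196574)) T0.l1
  (TrL.c (I.pos (nat_lit 0) (nat_lit 77433728)) T5.l2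
  (TrL.c (I.pos (nat_lit 0) (nat_lit 0)) T5.l5
  (TrL.c (I.pos (nat_lit 0) (nat_lit 0)) T0.l2
  (TrL.c (I.mix (nat_lit 29511666) (nat_lit 77433728)) T5.l4
  (TrL.c (I.mix (nat_lit 29511666) (nat_lit 46070178)) T0.l3
  TrL.n)))))))) (by decide +kernel)
theorem bx2_8 : BoxOK sI cl7 cl5 cl9 t0 t5 b2_8 :=
  box_mk (TrL.c (I.pos (nat_lit 0) (nat_lit 0)) (xa T0.l0 T0.l0)
  (TrL.c (I.pos (nat_lit 0) (nat_lit 0)) T5.l1
  (TrL.c (I.pos (nat_lit 0) (nat_lit 111196574)) (xR T0.l1 T0.l9)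
  (TrL.c (I.pos (nat_lit 0) (nat_lit 77433728)) T5.l2
  (TrL.c (I.pos (nat_lit 0) (nat_lit 0)) (xa (xb T5.l3 T5.l3) (xb (xk (xa T5.l3 T5.l3) (xa T5.l3 T5.l3)) (xk (xa T5.l3 T5.l3) (xa T5.l3 T5.l3))))
  (TrL.c (I.pos (nat_lit 0) (nat_lit 0)) T0.l2
  (TrL.c (I.mix (nat_lit 29511666) (nat_lit 77433728)) (xR T5.l4 T5.l4)
  (TrL.c (I.mix (nat_lit 29511666) (nat_lit 46070178)) T0.l7
  TrL.n)))))))) (by decide +kernel)
theorem bx2_9 : BoxOK sI cl7 cl5 cl9 t0 t5 b2_9 :=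
  box_mk (TrL.c (I.pos (nat_lit 0) (nat_lit 0)) T0.l11
  (TrL.c (I.pos (nat_lit 0) (nat_lit 0)) T5.l1
  (TrL.c (I.pos (nat_lit 0) (nat_lit 111196574)) T0.l1
  (TrL.c (I.pos (nat_lit 0) (nat_lit 77433728)) T5.l2
  (TrL.c (I.pos (nat_lit 0) (nat_lit 0)) T5.l11
  (TrL.c (I.pos (nat_lit 0) (nat_lit 0)) T0.l2
  (TrL.c (I.mix (nat_lit 29511666) (nat_lit 77433728)) T5.l4
  (TrL.c (I.mix (nat_lit 29511666) (nat_lit 46070178)) T0.l3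
  TrL.n)))))))) (by decide +kernel)
theorem bx2_10 : BoxOK sI cl7 cl5 cl9 t0 t5 b2_10 :=
  box_mk (TrL.c (I.pos (nat_lit 0) (nat_lit 0)) T0.l11
  (TrL.c (I.pos (nat_lit 0) (nat_lit 0)) T5.l1
  (TrL.c (I.pos (nat_lit 0) (nat_lit 111196574)) (xR T0.l1 T0.l1)
  (TrL.c (I.pos (nat_lit 0) (nat_lit 77433728)) T5.l2
  (TrL.c (I.pos (nat_lit 0) (nat_lit 0)) T5.l11
  (TrL.c (I.pos (nat_lit 0) (nat_lit 0)) T0.l2
  (TrL.c (I.mix (nat_lit 29511666) (nat_lit 77433728)) (xR T5.l4 T5.l4)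
  (TrL.c (I.mix (nat_lit 29511666) (nat_lit 46070178)) T0.l7
  TrL.n)))))))) (by decide +kernel)
theorem bx2_11 : BoxOK sI cl7 cl5 cl9 t0 t5 b2_11 :=
  box_mk (TrL.c (I.pos (nat_lit 0) (nat_lit 0)) (xa T0.l0 T0.l0)
  (TrL.c (I.pos (nat_lit 0) (nat_lit 0)) T5.l1
  (TrL.c (I.pos (nat_lit 0) (nat_lit 111196574)) (xR T0.l1 T0.l1)
  (TrL.c (I.pos (nat_lit 0) (nat_lit 77433728)) T5.l2
  (TrL.c (I.pos (nat_lit 0) (nat_lit 0)) (xk T5.l3 T5.l3)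
  (TrL.c (I.pos (nat_lit 0) (nat_lit 0)) T0.l2
  (TrL.c (I.mix (nat_lit 29511666) (nat_lit 77433728)) (xR T5.l4 T5.l4)
  (TrL.c (I.mix (nat_lit 29511666) (nat_lit 46070178)) T0.l7
  TrL.n)))))))) (by decide +kernel)
theorem sv2 : StarV sI cl7 cl5 cl9 t0 t5 t2 :=
  (bt_n (bt_n (bt_n (bt_b bx2_0) (bt_n (bt_b bx2_1) (bt_b bx2_2))) (bt_n (bt_b bx2_3) (bt_n (bt_b bx2_4) (bt_b bx2_5)))) (bt_n (bt_n (bt_b bx2_6) (bt_n (bt_b bx2_7) (bt_b bx2_8))) (bt_n (bt_b bx2_9) (bt_n (bt_b bx2_10) (bt_b bx2_11)))))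
def S2 : StarD := StarD.mk cl7 cl5 cl9 0 5 t2
theorem bx3_0 : BoxOK sI cl7 cl9 cl5 t5 t0 b3_0 :=
  box_mk (TrL.c (I.pos (nat_lit 0) (nat_lit 0)) (xa (xb T5.l0 T5.l0) (xb T5.l0 T5.l0))
  (TrL.c (I.pos (nat_lit 0) (nat_lit 0)) T0.l6
  (TrL.c (I.pos (nat_lit 0) (nat_lit 111196574)) (xR T5.l8 T5.l8)
  (TrL.c (I.pos (nat_lit 0) (nat_lit 77433728)) T0.l7
  (TrL.c (I.pos (nat_lit 0) (nat_lit 0)) (xa T0.l8 T0.l8)
  (TrL.c (I.pos (nat_lit 0) (nat_lit 0)) T5.l9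
  (TrL.c (I.mix (nat_lit 29511666) (nat_lit 77433728)) (xR T0.l9 T0.l9)
  (TrL.c (I.mix (nat_lit 29511666) (nat_lit 46070178)) T5.l10
  TrL.n)))))))) (by decide +kernel)
theorem bx3_1 : BoxOK sI cl7 cl9 cl5 t5 t0 b3_1 :=
  box_mk (TrL.c (I.pos (nat_lit 0) (nat_lit 0)) (xa T5.l12 T5.l0)
  (TrL.c (I.pos (nat_lit 0) (nat_lit 0)) T0.l6
  (TrL.c (I.pos (nat_lit 0) (nat_lit 111196574)) T5.l8
  (TrL.c (I.pos (nat_lit 0) (nat_lit 77433728)) T0.l7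
  (TrL.c (I.pos (nat_lit 0) (nat_lit 0)) T0.l12
  (TrL.c (I.pos (nat_lit 0) (nat_lit 0)) T5.l9
  (TrL.c (I.mix (nat_lit 29511666) (nat_lit 77433728)) (xR T0.l9 T0.l9)
  (TrL.c (I.mix (nat_lit 29511666) (nat_lit 46070178)) T5.l10
  TrL.n)))))))) (by decide +kernel)
theorem bx3_2 : BoxOK sI cl7 cl9 cl5 t5 t0 b3_2 :=
  box_mk (TrL.c (I.pos (nat_lit 0) (nat_lit 0)) (xa T5.l12 T5.l12)
  (TrL.c (I.pos (nat_lit 0) (nat_lit 0)) T0.l6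
  (TrL.c (I.pos (nat_lit 0) (nat_lit 111196574)) T5.l8
  (TrL.c (I.pos (nat_lit 0) (nat_lit 77433728)) T0.l7
  (TrL.c (I.pos (nat_lit 0) (nat_lit 0)) T0.l12
  (TrL.c (I.pos (nat_lit 0) (nat_lit 0)) T5.l9
  (TrL.c (I.mix (nat_lit 29511666) (nat_lit 77433728)) T0.l9
  (TrL.c (I.mix (nat_lit 29511666) (nat_lit 46070178)) T5.l10
  TrL.n)))))))) (by decide +kernel)
theorem bx3_3 : BoxOK sI cl7 cl9 cl5 t5 t0 b3_3 :=
  box_mk (TrL.c (I.pos (nat_lit 0) (nat_lit 0)) (xa T5.l13 T5.l13)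
  (TrL.c (I.pos (nat_lit 0) (nat_lit 0)) T0.l6
  (TrL.c (I.pos (nat_lit 0) (nat_lit 111196574)) (xR T5.l8 T5.l8)
  (TrL.c (I.pos (nat_lit 0) (nat_lit 77433728)) T0.l7
  (TrL.c (I.pos (nat_lit 0) (nat_lit 0)) T0.l13
  (TrL.c (I.pos (nat_lit 0) (nat_lit 0)) T5.l9
  (TrL.c (I.mix (nat_lit 29511666) (nat_lit 77433728)) (xR T0.l9 T0.l9)
  (TrL.c (I.mix (nat_lit 29511666) (nat_lit 46070178)) T5.l10
  TrL.n)))))))) (by decide +kernel)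
theorem bx3_4 : BoxOK sI cl7 cl9 cl5 t5 t0 b3_4 :=
  box_mk (TrL.c (I.pos (nat_lit 0) (nat_lit 0)) (xa (xa (xb T5.l12 T5.l12) T5.l12) (xa T5.l12 T5.l12))
  (TrL.c (I.pos (nat_lit 0) (nat_lit 0)) T0.l6
  (TrL.c (I.pos (nat_lit 0) (nat_lit 111196574)) T5.l8
  (TrL.c (I.pos (nat_lit 0) (nat_lit 77433728)) T0.l7
  (TrL.c (I.pos (nat_lit 0) (nat_lit 0)) (xa T0.l12 T0.l12)
  (TrL.c (I.pos (nat_lit 0) (nat_lit 0)) T5.l9
  (TrL.c (I.mix (nat_lit 29511666) (nat_lit 77433728)) T0.l9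
  (TrL.c (I.mix (nat_lit 29511666) (nat_lit 46070178)) T5.l10
  TrL.n)))))))) (by decide +kernel)
theorem bx3_5 : BoxOK sI cl7 cl9 cl5 t5 t0 b3_5 :=
  box_mk (TrL.c (I.pos (nat_lit 0) (nat_lit 0)) T5.l0
  (TrL.c (I.pos (nat_lit 0) (nat_lit 0)) T0.l6
  (TrL.c (I.pos (nat_lit 0) (nat_lit 111196574)) T5.l8
  (TrL.c (I.pos (nat_lit 0) (nat_lit 77433728)) T0.l7
  (TrL.c (I.pos (nat_lit 0) (nat_lit 0)) T0.l13
  (TrL.c (I.pos (nat_lit 0) (nat_lit 0)) T5.l9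
  (TrL.c (I.mix (nat_lit 29511666) (nat_lit 77433728)) (xR T0.l9 T0.l9)
  (TrL.c (I.mix (nat_lit 29511666) (nat_lit 46070178)) T5.l10
  TrL.n)))))))) (by decide +kernel)
theorem bx3_6 : BoxOK sI cl7 cl9 cl5 t5 t0 b3_6 :=
  box_mk (TrL.c (I.pos (nat_lit 0) (nat_lit 0)) T5.l12
  (TrL.c (I.pos (nat_lit 0) (nat_lit 0)) T0.l6
  (TrL.c (I.pos (nat_lit 0) (nat_lit 111196574)) T5.l8
  (TrL.c (I.pos (nat_lit 0) (nat_lit 77433728)) T0.l7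
  (TrL.c (I.pos (nat_lit 0) (nat_lit 0)) T0.l12
  (TrL.c (I.pos (nat_lit 0) (nat_lit 0)) T5.l9
  (TrL.c (I.mix (nat_lit 29511666) (nat_lit 77433728)) (xR T0.l9 T0.l9)
  (TrL.c (I.mix (nat_lit 29511666) (nat_lit 46070178)) T5.l10
  TrL.n)))))))) (by decide +kernel)
theorem bx3_7 : BoxOK sI cl7 cl9 cl5 t5 t0 b3_7 :=
  box_mk (TrL.c (I.pos (nat_lit 0) (nat_lit 0)) (xa T5.l12 T5.l12)
  (TrL.c (I.pos (nat_lit 0) (nat_lit 0)) T0.l6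
  (TrL.c (I.pos (nat_lit 0) (nat_lit 111196574)) T5.l8
  (TrL.c (I.pos (nat_lit 0) (nat_lit 77433728)) T0.l7
  (TrL.c (I.pos (nat_lit 0) (nat_lit 0)) T0.l12
  (TrL.c (I.pos (nat_lit 0) (nat_lit 0)) T5.l9
  (TrL.c (I.mix (nat_lit 29511666) (nat_lit 77433728)) T0.l9
  (TrL.c (I.mix (nat_lit 29511666) (nat_lit 46070178)) T5.l10
  TrL.n)))))))) (by decide +kernel)
theorem bx3_8 : BoxOK sI cl7 cl9 cl5 t5 t0 b3_8 :=
  box_mk (TrL.c (I.pos (nat_lit 0) (nat_lit 0)) (xa (xa (xa T5.l12 T5.l12) T5.l12) (xa T5.l12 T5.l12))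
  (TrL.c (I.pos (nat_lit 0) (nat_lit 0)) T0.l6
  (TrL.c (I.pos (nat_lit 0) (nat_lit 111196574)) T5.l8
  (TrL.c (I.pos (nat_lit 0) (nat_lit 77433728)) T0.l7
  (TrL.c (I.pos (nat_lit 0) (nat_lit 0)) (xa T0.l12 T0.l12)
  (TrL.c (I.pos (nat_lit 0) (nat_lit 0)) T5.l9
  (TrL.c (I.mix (nat_lit 29511666) (nat_lit 77433728)) T0.l9
  (TrL.c (I.mix (nat_lit 29511666) (nat_lit 46070178)) T5.l10
  TrL.n)))))))) (by decide +kernel)
theorem bx3_9 : BoxOK sI cl7 cl9 cl5 t5 t0 b3_9 :=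
  box_mk (TrL.c (I.pos (nat_lit 0) (nat_lit 0)) (xb T5.l12 T5.l12)
  (TrL.c (I.pos (nat_lit 0) (nat_lit 0)) T0.l6
  (TrL.c (I.pos (nat_lit 0) (nat_lit 111196574)) T5.l8
  (TrL.c (I.pos (nat_lit 0) (nat_lit 77433728)) T0.l7
  (TrL.c (I.pos (nat_lit 0) (nat_lit 0)) T0.l12
  (TrL.c (I.pos (nat_lit 0) (nat_lit 0)) T5.l9
  (TrL.c (I.mix (nat_lit 29511666) (nat_lit 77433728)) (xR T0.l9 T0.l9)
  (TrL.c (I.mix (nat_lit 29511666) (nat_lit 46070178)) T5.l10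
  TrL.n)))))))) (by decide +kernel)
theorem bx3_10 : BoxOK sI cl7 cl9 cl5 t5 t0 b3_10 :=
  box_mk (TrL.c (I.pos (nat_lit 0) (nat_lit 0)) (xa (xa T5.l12 T5.l12) T5.l12)
  (TrL.c (I.pos (nat_lit 0) (nat_lit 0)) T0.l6
  (TrL.c (I.pos (nat_lit 0) (nat_lit 111196574)) T5.l8
  (TrL.c (I.pos (nat_lit 0) (nat_lit 77433728)) T0.l7
  (TrL.c (I.pos (nat_lit 0) (nat_lit 0)) T0.l12
  (TrL.c (I.pos (nat_lit 0) (nat_lit 0)) T5.l9
  (TrL.c (I.mix (nat_lit 29511666) (nat_lit 77433728)) T0.l9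
  (TrL.c (I.mix (nat_lit 29511666) (nat_lit 46070178)) T5.l10
  TrL.n)))))))) (by decide +kernel)
theorem bx3_11 : BoxOK sI cl7 cl9 cl5 t5 t0 b3_11 :=
  box_mk (TrL.c (I.pos (nat_lit 0) (nat_lit 0)) (xa T5.l0 T5.l0)
  (TrL.c (I.pos (nat_lit 0) (nat_lit 0)) T0.l6
  (TrL.c (I.pos (nat_lit 0) (nat_lit 111196574)) (xR T5.l8 T5.l8)
  (TrL.c (I.pos (nat_lit 0) (nat_lit 77433728)) T0.l7
  (TrL.c (I.pos (nat_lit 0) (nat_lit 0)) (xa T0.l8 (xb (xk T0.l8 T0.l8) (xk T0.l8 T0.l8)))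
  (TrL.c (I.pos (nat_lit 0) (nat_lit 0)) T5.l9
  (TrL.c (I.mix (nat_lit 29511666) (nat_lit 77433728)) (xR T0.l9 T0.l9)
  (TrL.c (I.mix (nat_lit 29511666) (nat_lit 46070178)) T5.l10
  TrL.n)))))))) (by decide +kernel)
theorem bx3_12 : BoxOK sI cl7 cl9 cl5 t5 t0 b3_12 :=
  box_mk (TrL.c (I.pos (nat_lit 0) (nat_lit 0)) (xa T5.l0 T5.l0)
  (TrL.c (I.pos (nat_lit 0) (nat_lit 0)) T0.l6
  (TrL.c (I.pos (nat_lit 0) (nat_lit 111196574)) (xR T5.l8 T5.l8)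
  (TrL.c (I.pos (nat_lit 0) (nat_lit 77433728)) T0.l7
  (TrL.c (I.pos (nat_lit 0) (nat_lit 0)) T0.l8
  (TrL.c (I.pos (nat_lit 0) (nat_lit 0)) T5.l9
  (TrL.c (I.mix (nat_lit 29511666) (nat_lit 77433728)) (xR T0.l9 T0.l9)
  (TrL.c (I.mix (nat_lit 29511666) (nat_lit 46070178)) T5.l10
  TrL.n)))))))) (by decide +kernel)
theorem bx3_13 : BoxOK sI cl7 cl9 cl5 t5 t0 b3_13 :=
  box_mk (TrL.c (I.pos (nat_lit 0) (nat_lit 0)) T5.l13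
  (TrL.c (I.pos (nat_lit 0) (nat_lit 0)) T0.l6
  (TrL.c (I.pos (nat_lit 0) (nat_lit 111196574)) (xR T5.l8 T5.l8)
  (TrL.c (I.pos (nat_lit 0) (nat_lit 77433728)) T0.l7
  (TrL.c (I.pos (nat_lit 0) (nat_lit 0)) T0.l13
  (TrL.c (I.pos (nat_lit 0) (nat_lit 0)) T5.l9
  (TrL.c (I.mix (nat_lit 29511666) (nat_lit 77433728)) (xR T0.l9 T0.l9)
  (TrL.c (I.mix (nat_lit 29511666) (nat_lit 46070178)) T5.l10
  TrL.n)))))))) (by decide +kernel)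
theorem sv3 : StarV sI cl7 cl9 cl5 t5 t0 t3 :=
  (bt_n (bt_n (bt_n (bt_b bx3_0) (bt_n (bt_b bx3_1) (bt_b bx3_2))) (bt_n (bt_n (bt_b bx3_3) (bt_b bx3_4)) (bt_n (bt_b bx3_5) (bt_b bx3_6)))) (bt_n (bt_n (bt_b bx3_7) (bt_n (bt_b bx3_8) (bt_b bx3_9))) (bt_n (bt_n (bt_b bx3_10) (bt_b bx3_11)) (bt_n (bt_b bx3_12) (bt_b bx3_13)))))
def S3 : StarD := StarD.mk cl7 cl9 cl5 5 0 t3
theorem bx4_0 : BoxOK sI cl9 cl5 cl7 t1 t3 b4_0 :=
  box_mk (TrL.c (I.pos (nat_lit 0) (nat_lit 0)) (xa T1.l0 T1.l0)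
  (TrL.c (I.pos (nat_lit 0) (nat_lit 0)) T3.l1
  (TrL.c (I.pos (nat_lit 0) (nat_lit 124588530)) (xR T1.l1 T1.l1)
  (TrL.c (I.pos (nat_lit 0) (nat_lit 96881482)) T3.l2
  (TrL.c (I.pos (nat_lit 0) (nat_lit 0)) (xa T3.l3 (xb T3.l3 T3.l3))
  (TrL.c (I.pos (nat_lit 0) (nat_lit 0)) T1.l2
  (TrL.c (I.mix (nat_lit 17240550) (nat_lit 96881482)) (xR T3.l4 T3.l4)
  (TrL.c (I.mix (nat_lit 17240550) (nat_lit 71940500)) T1.l7
  TrL.n)))))))) (by decide +kernel)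
theorem bx4_1 : BoxOK sI cl9 cl5 cl7 t1 t3 b4_1 :=
  box_mk (TrL.c (I.pos (nat_lit 0) (nat_lit 0)) (xa T1.l4 T1.l4)
  (TrL.c (I.pos (nat_lit 0) (nat_lit 0)) T3.l1
  (TrL.c (I.pos (nat_lit 0) (nat_lit 124588530)) T1.l1
  (TrL.c (I.pos (nat_lit 0) (nat_lit 96881482)) T3.l2
  (TrL.c (I.pos (nat_lit 0) (nat_lit 0)) T3.l5
  (TrL.c (I.pos (nat_lit 0) (nat_lit 0)) T1.l2
  (TrL.c (I.mix (nat_lit 17240550) (nat_lit 96881482)) T3.l8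
  (TrL.c (I.mix (nat_lit 17240550) (nat_lit 71940500)) T1.l3
  TrL.n)))))))) (by decide +kernel)
theorem bx4_2 : BoxOK sI cl9 cl5 cl7 t1 t3 b4_2 :=
  box_mk (TrL.c (I.pos (nat_lit 0) (nat_lit 0)) T3.l6
  (TrL.c (I.pos (nat_lit 0) (nat_lit 0)) T1.l1
  (TrL.c (I.mix (nat_lit 17240550) (nat_lit 96881482)) T3.l7
  (TrL.c (I.mix (nat_lit 17240550) (nat_lit 71940500)) T1.l1
  TrL.n)))) (by decide +kernel)
theorem bx4_3 : BoxOK sI cl9 cl5 cl7 t1 t3 b4_3 :=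
  box_mk (TrL.c (I.pos (nat_lit 0) (nat_lit 0)) T1.l0
  (TrL.c (I.pos (nat_lit 0) (nat_lit 0)) T3.l1
  (TrL.c (I.pos (nat_lit 0) (nat_lit 124588530)) (xR T1.l1 T1.l1)
  (TrL.c (I.pos (nat_lit 0) (nat_lit 96881482)) T3.l2
  (TrL.c (I.pos (nat_lit 0) (nat_lit 0)) T3.l3
  (TrL.c (I.pos (nat_lit 0) (nat_lit 0)) T1.l2
  (TrL.c (I.mix (nat_lit 17240550) (nat_lit 96881482)) T3.l4
  (TrL.c (I.mix (nat_lit 17240550) (nat_lit 71940500)) T1.l3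
  TrL.n)))))))) (by decide +kernel)
theorem bx4_4 : BoxOK sI cl9 cl5 cl7 t1 t3 b4_4 :=
  box_mk (TrL.c (I.pos (nat_lit 0) (nat_lit 0)) T1.l4
  (TrL.c (I.pos (nat_lit 0) (nat_lit 0)) T3.l6
  (TrL.c (I.pos (nat_lit 0) (nat_lit 124588530)) T1.l1
  (TrL.c (I.pos (nat_lit 0) (nat_lit 96881482)) T3.l7
  (TrL.c (I.pos (nat_lit 0) (nat_lit 0)) T3.l5
  (TrL.c (I.pos (nat_lit 0) (nat_lit 0)) T1.l2
  (TrL.c (I.mix (nat_lit 17240550) (nat_lit 96881482)) T3.l4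
  (TrL.c (I.mix (nat_lit 17240550) (nat_lit 71940500)) T1.l7
  TrL.n)))))))) (by decide +kernel)
theorem bx4_5 : BoxOK sI cl9 cl5 cl7 t1 t3 b4_5 :=
  box_mk (TrL.c (I.pos (nat_lit 0) (nat_lit 0)) T1.l4
  (TrL.c (I.pos (nat_lit 0) (nat_lit 0)) T3.l1
  (TrL.c (I.pos (nat_lit 0) (nat_lit 124588530)) T1.l1
  (TrL.c (I.pos (nat_lit 0) (nat_lit 96881482)) T3.l2
  (TrL.c (I.pos (nat_lit 0) (nat_lit 0)) T3.l5
  (TrL.c (I.pos (nat_lit 0) (nat_lit 0)) T1.l2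
  (TrL.c (I.mix (nat_lit 17240550) (nat_lit 96881482)) T3.l4
  (TrL.c (I.mix (nat_lit 17240550) (nat_lit 71940500)) T1.l3
  TrL.n)))))))) (by decide +kernel)
theorem bx4_6 : BoxOK sI cl9 cl5 cl7 t1 t3 b4_6 :=
  box_mk (TrL.c (I.pos (nat_lit 0) (nat_lit 0)) T1.l4
  (TrL.c (I.pos (nat_lit 0) (nat_lit 0)) T3.l1
  (TrL.c (I.pos (nat_lit 0) (nat_lit 124588530)) T1.l1
  (TrL.c (I.pos (nat_lit 0) (nat_lit 96881482)) T3.l2
  (TrL.c (I.pos (nat_lit 0) (nat_lit 0)) T3.l5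
  (TrL.c (I.pos (nat_lit 0) (nat_lit 0)) T1.l2
  (TrL.c (I.mix (nat_lit 17240550) (nat_lit 96881482)) T3.l4
  (TrL.c (I.mix (nat_lit 17240550) (nat_lit 71940500)) T1.l3
  TrL.n)))))))) (by decide +kernel)
theorem bx4_7 : BoxOK sI cl9 cl5 cl7 t1 t3 b4_7 :=
  box_mk (TrL.c (I.pos (nat_lit 0) (nat_lit 0)) T3.l1
  (TrL.c (I.pos (nat_lit 0) (nat_lit 0)) T1.l1
  (TrL.c (I.mix (nat_lit 17240550) (nat_lit 96881482)) (xR T3.l7 T3.l2)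
  (TrL.c (I.mix (nat_lit 17240550) (nat_lit 71940500)) T1.l1
  TrL.n)))) (by decide +kernel)
theorem bx4_8 : BoxOK sI cl9 cl5 cl7 t1 t3 b4_8 :=
  box_mk (TrL.c (I.pos (nat_lit 0) (nat_lit 0)) T1.l13
  (TrL.c (I.pos (nat_lit 0) (nat_lit 0)) T3.l1
  (TrL.c (I.pos (nat_lit 0) (nat_lit 124588530)) T1.l1
  (TrL.c (I.pos (nat_lit 0) (nat_lit 96881482)) T3.l2
  (TrL.c (I.pos (nat_lit 0) (nat_lit 0)) T3.l13
  (TrL.c (I.pos (nat_lit 0) (nat_lit 0)) T1.l2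
  (TrL.c (I.mix (nat_lit 17240550) (nat_lit 96881482)) T3.l4
  (TrL.c (I.mix (nat_lit 17240550) (nat_lit 71940500)) T1.l3
  TrL.n)))))))) (by decide +kernel)
theorem bx4_9 : BoxOK sI cl9 cl5 cl7 t1 t3 b4_9 :=
  box_mk (TrL.c (I.pos (nat_lit 0) (nat_lit 0)) (xa T1.l0 T1.l0)
  (TrL.c (I.pos (nat_lit 0) (nat_lit 0)) T3.l1
  (TrL.c (I.pos (nat_lit 0) (nat_lit 124588530)) (xR T1.l1 T1.l9)
  (TrL.c (I.pos (nat_lit 0) (nat_lit 96881482)) (xR T3.l2 T3.l2)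
  (TrL.c (I.pos (nat_lit 0) (nat_lit 0)) (xa (xb T3.l3 T3.l3) (xb (xk T3.l3 T3.l3) (xk (xa T3.l3 T3.l3) T3.l3)))
  (TrL.c (I.pos (nat_lit 0) (nat_lit 0)) T1.l2
  (TrL.c (I.mix (nat_lit 17240550) (nat_lit 96881482)) (xR T3.l4 T3.l4)
  (TrL.c (I.mix (nat_lit 17240550) (nat_lit 71940500)) T1.l3
  TrL.n)))))))) (by decide +kernel)
theorem bx4_10 : BoxOK sI cl9 cl5 cl7 t1 t3 b4_10 :=
  box_mk (TrL.c (I.pos (nat_lit 0) (nat_lit 0)) T1.l0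
  (TrL.c (I.pos (nat_lit 0) (nat_lit 0)) T3.l1
  (TrL.c (I.pos (nat_lit 0) (nat_lit 124588530)) (xR T1.l1 T1.l1)
  (TrL.c (I.pos (nat_lit 0) (nat_lit 96881482)) T3.l2
  (TrL.c (I.pos (nat_lit 0) (nat_lit 0)) (xk T3.l3 (xb T3.l3 T3.l3))
  (TrL.c (I.pos (nat_lit 0) (nat_lit 0)) T1.l2
  (TrL.c (I.mix (nat_lit 17240550) (nat_lit 96881482)) (xR T3.l4 T3.l4)
  (TrL.c (I.mix (nat_lit 17240550) (nat_lit 71940500)) T1.l7
  TrL.n)))))))) (by decide +kernel)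
theorem bx4_11 : BoxOK sI cl9 cl5 cl7 t1 t3 b4_11 :=
  box_mk (TrL.c (I.pos (nat_lit 0) (nat_lit 0)) T1.l13
  (TrL.c (I.pos (nat_lit 0) (nat_lit 0)) T3.l1
  (TrL.c (I.pos (nat_lit 0) (nat_lit 124588530)) (xR T1.l1 T1.l1)
  (TrL.c (I.pos (nat_lit 0) (nat_lit 96881482)) T3.l2
  (TrL.c (I.pos (nat_lit 0) (nat_lit 0)) T3.l13
  (TrL.c (I.pos (nat_lit 0) (nat_lit 0)) T1.l2
  (TrL.c (I.mix (nat_lit 17240550) (nat_lit 96881482)) (xR T3.l4 T3.l4)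
  (TrL.c (I.mix (nat_lit 17240550) (nat_lit 71940500)) T1.l3
  TrL.n)))))))) (by decide +kernel)
theorem sv4 : StarV sI cl9 cl5 cl7 t1 t3 t4 :=
  (bt_n (bt_n (bt_n (bt_b bx4_0) (bt_n (bt_b bx4_1) (bt_b bx4_2))) (bt_n (bt_b bx4_3) (bt_n (bt_b bx4_4) (bt_b bx4_5)))) (bt_n (bt_n (bt_b bx4_6) (bt_n (bt_b bx4_7) (bt_b bx4_8))) (bt_n (bt_b bx4_9) (bt_n (bt_b bx4_10) (bt_b bx4_11)))))
def S4 : StarD := StarD.mk cl9 cl5 cl7 1 3 t4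
theorem bx5_0 : BoxOK sI cl9 cl7 cl5 t3 t1 b5_0 :=
  box_mk (TrL.c (I.pos (nat_lit 0) (nat_lit 0)) (xa (xb T3.l0 T3.l0) T3.l0)
  (TrL.c (I.pos (nat_lit 0) (nat_lit 0)) T1.l6
  (TrL.c (I.pos (nat_lit 0) (nat_lit 124588530)) (xR T3.l8 T3.l8)
  (TrL.c (I.pos (nat_lit 0) (nat_lit 96881482)) T1.l7
  (TrL.c (I.pos (nat_lit 0) (nat_lit 0)) (xa T1.l8 T1.l8)
  (TrL.c (I.pos (nat_lit 0) (nat_lit 0)) T3.l9
  (TrL.c (I.mix (nat_lit 17240550) (nat_lit 96881482)) (xR T1.l9 T1.l9)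
  (TrL.c (I.mix (nat_lit 17240550) (nat_lit 71940500)) T3.l10
  TrL.n)))))))) (by decide +kernel)
theorem bx5_1 : BoxOK sI cl9 cl7 cl5 t3 t1 b5_1 :=
  box_mk (TrL.c (I.pos (nat_lit 0) (nat_lit 0)) T3.l11
  (TrL.c (I.pos (nat_lit 0) (nat_lit 0)) T1.l6
  (TrL.c (I.pos (nat_lit 0) (nat_lit 124588530)) T3.l8
  (TrL.c (I.pos (nat_lit 0) (nat_lit 96881482)) T1.l7
  (TrL.c (I.pos (nat_lit 0) (nat_lit 0)) T1.l10
  (TrL.c (I.pos (nat_lit 0) (nat_lit 0)) T3.l9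
  (TrL.c (I.mix (nat_lit 17240550) (nat_lit 96881482)) T1.l9
  (TrL.c (I.mix (nat_lit 17240550) (nat_lit 71940500)) T3.l10
  TrL.n)))))))) (by decide +kernel)
theorem bx5_2 : BoxOK sI cl9 cl7 cl5 t3 t1 b5_2 :=
  box_mk (TrL.c (I.pos (nat_lit 0) (nat_lit 0)) (xa T3.l11 T3.l11)
  (TrL.c (I.pos (nat_lit 0) (nat_lit 0)) T1.l6
  (TrL.c (I.pos (nat_lit 0) (nat_lit 124588530)) T3.l8
  (TrL.c (I.pos (nat_lit 0) (nat_lit 96881482)) T1.l7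
  (TrL.c (I.pos (nat_lit 0) (nat_lit 0)) T1.l10
  (TrL.c (I.pos (nat_lit 0) (nat_lit 0)) T3.l9
  (TrL.c (I.mix (nat_lit 17240550) (nat_lit 96881482)) T1.l9
  (TrL.c (I.mix (nat_lit 17240550) (nat_lit 71940500)) T3.l10
  TrL.n)))))))) (by decide +kernel)
theorem bx5_3 : BoxOK sI cl9 cl7 cl5 t3 t1 b5_3 :=
  box_mk (TrL.c (I.pos (nat_lit 0) (nat_lit 0)) (xb T3.l12 T3.l12)
  (TrL.c (I.pos (nat_lit 0) (nat_lit 0)) T1.l6
  (TrL.c (I.pos (nat_lit 0) (nat_lit 124588530)) (xR T3.l8 T3.l8)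
  (TrL.c (I.pos (nat_lit 0) (nat_lit 96881482)) T1.l7
  (TrL.c (I.pos (nat_lit 0) (nat_lit 0)) (xb T1.l11 T1.l8)
  (TrL.c (I.pos (nat_lit 0) (nat_lit 0)) T3.l9
  (TrL.c (I.mix (nat_lit 17240550) (nat_lit 96881482)) (xR T1.l9 T1.l9)
  (TrL.c (I.mix (nat_lit 17240550) (nat_lit 71940500)) T3.l10
  TrL.n)))))))) (by decide +kernel)
theorem bx5_4 : BoxOK sI cl9 cl7 cl5 t3 t1 b5_4 :=
  box_mk (TrL.c (I.pos (nat_lit 0) (nat_lit 0)) (xa (xa (xb T3.l11 T3.l11) T3.l11) (xa T3.l11 T3.l11))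
  (TrL.c (I.pos (nat_lit 0) (nat_lit 0)) T1.l6
  (TrL.c (I.pos (nat_lit 0) (nat_lit 124588530)) T3.l8
  (TrL.c (I.pos (nat_lit 0) (nat_lit 96881482)) T1.l7
  (TrL.c (I.pos (nat_lit 0) (nat_lit 0)) T1.l10
  (TrL.c (I.pos (nat_lit 0) (nat_lit 0)) T3.l9
  (TrL.c (I.mix (nat_lit 17240550) (nat_lit 96881482)) T1.l9
  (TrL.c (I.mix (nat_lit 17240550) (nat_lit 71940500)) T3.l10
  TrL.n)))))))) (by decide +kernel)
theorem bx5_5 : BoxOK sI cl9 cl7 cl5 t3 t1 b5_5 :=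
  box_mk (TrL.c (I.pos (nat_lit 0) (nat_lit 0)) T3.l0
  (TrL.c (I.pos (nat_lit 0) (nat_lit 0)) T1.l6
  (TrL.c (I.pos (nat_lit 0) (nat_lit 124588530)) (xR T3.l8 T3.l8)
  (TrL.c (I.pos (nat_lit 0) (nat_lit 96881482)) T1.l7
  (TrL.c (I.pos (nat_lit 0) (nat_lit 0)) T1.l11
  (TrL.c (I.pos (nat_lit 0) (nat_lit 0)) T3.l9
  (TrL.c (I.mix (nat_lit 17240550) (nat_lit 96881482)) (xR T1.l9 T1.l9)
  (TrL.c (I.mix (nat_lit 17240550) (nat_lit 71940500)) T3.l10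
  TrL.n)))))))) (by decide +kernel)
theorem bx5_6 : BoxOK sI cl9 cl7 cl5 t3 t1 b5_6 :=
  box_mk (TrL.c (I.pos (nat_lit 0) (nat_lit 0)) T3.l11
  (TrL.c (I.pos (nat_lit 0) (nat_lit 0)) T1.l6
  (TrL.c (I.pos (nat_lit 0) (nat_lit 124588530)) T3.l8
  (TrL.c (I.pos (nat_lit 0) (nat_lit 96881482)) T1.l7
  (TrL.c (I.pos (nat_lit 0) (nat_lit 0)) T1.l10
  (TrL.c (I.pos (nat_lit 0) (nat_lit 0)) T3.l9
  (TrL.c (I.mix (nat_lit 17240550) (nat_lit 96881482)) T1.l9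
  (TrL.c (I.mix (nat_lit 17240550) (nat_lit 71940500)) T3.l10
  TrL.n)))))))) (by decide +kernel)
theorem bx5_7 : BoxOK sI cl9 cl7 cl5 t3 t1 b5_7 :=
  box_mk (TrL.c (I.pos (nat_lit 0) (nat_lit 0)) T3.l11
  (TrL.c (I.pos (nat_lit 0) (nat_lit 0)) T1.l6
  (TrL.c (I.pos (nat_lit 0) (nat_lit 124588530)) T3.l8
  (TrL.c (I.pos (nat_lit 0) (nat_lit 96881482)) T1.l7
  (TrL.c (I.pos (nat_lit 0) (nat_lit 0)) T1.l10
  (TrL.c (I.pos (nat_lit 0) (nat_lit 0)) T3.l9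
  (TrL.c (I.mix (nat_lit 17240550) (nat_lit 96881482)) T1.l9
  (TrL.c (I.mix (nat_lit 17240550) (nat_lit 71940500)) T3.l10
  TrL.n)))))))) (by decide +kernel)
theorem bx5_8 : BoxOK sI cl9 cl7 cl5 t3 t1 b5_8 :=
  box_mk (TrL.c (I.pos (nat_lit 0) (nat_lit 0)) (xa (xa (xb T3.l11 T3.l11) T3.l11) (xa T3.l11 T3.l11))
  (TrL.c (I.pos (nat_lit 0) (nat_lit 0)) T1.l6
  (TrL.c (I.pos (nat_lit 0) (nat_lit 124588530)) T3.l8
  (TrL.c (I.pos (nat_lit 0) (nat_lit 96881482)) T1.l7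
  (TrL.c (I.pos (nat_lit 0) (nat_lit 0)) T1.l10
  (TrL.c (I.pos (nat_lit 0) (nat_lit 0)) T3.l9
  (TrL.c (I.mix (nat_lit 17240550) (nat_lit 96881482)) T1.l9
  (TrL.c (I.mix (nat_lit 17240550) (nat_lit 71940500)) T3.l10
  TrL.n)))))))) (by decide +kernel)
theorem bx5_9 : BoxOK sI cl9 cl7 cl5 t3 t1 b5_9 :=
  box_mk (TrL.c (I.pos (nat_lit 0) (nat_lit 0)) (xb T3.l11 T3.l11)
  (TrL.c (I.pos (nat_lit 0) (nat_lit 0)) T1.l6
  (TrL.c (I.pos (nat_lit 0) (nat_lit 124588530)) T3.l8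
  (TrL.c (I.pos (nat_lit 0) (nat_lit 96881482)) T1.l7
  (TrL.c (I.pos (nat_lit 0) (nat_lit 0)) T1.l10
  (TrL.c (I.pos (nat_lit 0) (nat_lit 0)) T3.l9
  (TrL.c (I.mix (nat_lit 17240550) (nat_lit 96881482)) T1.l9
  (TrL.c (I.mix (nat_lit 17240550) (nat_lit 71940500)) T3.l10
  TrL.n)))))))) (by decide +kernel)
theorem bx5_10 : BoxOK sI cl9 cl7 cl5 t3 t1 b5_10 :=
  box_mk (TrL.c (I.pos (nat_lit 0) (nat_lit 0)) (xa (xa T3.l11 T3.l11) T3.l11)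
  (TrL.c (I.pos (nat_lit 0) (nat_lit 0)) T1.l6
  (TrL.c (I.pos (nat_lit 0) (nat_lit 124588530)) T3.l8
  (TrL.c (I.pos (nat_lit 0) (nat_lit 96881482)) T1.l7
  (TrL.c (I.pos (nat_lit 0) (nat_lit 0)) T1.l10
  (TrL.c (I.pos (nat_lit 0) (nat_lit 0)) T3.l9
  (TrL.c (I.mix (nat_lit 17240550) (nat_lit 96881482)) T1.l9
  (TrL.c (I.mix (nat_lit 17240550) (nat_lit 71940500)) T3.l10
  TrL.n)))))))) (by decide +kernel)
theorem bx5_11 : BoxOK sI cl9 cl7 cl5 t3 t1 b5_11 :=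
  box_mk (TrL.c (I.pos (nat_lit 0) (nat_lit 0)) T3.l12
  (TrL.c (I.pos (nat_lit 0) (nat_lit 0)) T1.l6
  (TrL.c (I.pos (nat_lit 0) (nat_lit 124588530)) (xR T3.l8 T3.l8)
  (TrL.c (I.pos (nat_lit 0) (nat_lit 96881482)) T1.l7
  (TrL.c (I.pos (nat_lit 0) (nat_lit 0)) T1.l11
  (TrL.c (I.pos (nat_lit 0) (nat_lit 0)) T3.l9
  (TrL.c (I.mix (nat_lit 17240550) (nat_lit 96881482)) (xR T1.l9 T1.l9)
  (TrL.c (I.mix (nat_lit 17240550) (nat_lit 71940500)) T3.l10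
  TrL.n)))))))) (by decide +kernel)
theorem bx5_12 : BoxOK sI cl9 cl7 cl5 t3 t1 b5_12 :=
  box_mk (TrL.c (I.pos (nat_lit 0) (nat_lit 0)) (xa T3.l0 T3.l0)
  (TrL.c (I.pos (nat_lit 0) (nat_lit 0)) T1.l6
  (TrL.c (I.pos (nat_lit 0) (nat_lit 124588530)) (xR T3.l8 T3.l4)
  (TrL.c (I.pos (nat_lit 0) (nat_lit 96881482)) (xR T1.l7 T1.l7)
  (TrL.c (I.pos (nat_lit 0) (nat_lit 0)) (xa T1.l8 (xk (xb T1.l8 T1.l8) (xb T1.l8 T1.l8)))
  (TrL.c (I.pos (nat_lit 0) (nat_lit 0)) T3.l9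
  (TrL.c (I.mix (nat_lit 17240550) (nat_lit 96881482)) (xR T1.l9 T1.l9)
  (TrL.c (I.mix (nat_lit 17240550) (nat_lit 71940500)) T3.l10
  TrL.n)))))))) (by decide +kernel)
theorem bx5_13 : BoxOK sI cl9 cl7 cl5 t3 t1 b5_13 :=
  box_mk (TrL.c (I.pos (nat_lit 0) (nat_lit 0)) (xa T3.l0 T3.l0)
  (TrL.c (I.pos (nat_lit 0) (nat_lit 0)) T1.l6
  (TrL.c (I.pos (nat_lit 0) (nat_lit 124588530)) (xR T3.l8 T3.l8)
  (TrL.c (I.pos (nat_lit 0) (nat_lit 96881482)) T1.l7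
  (TrL.c (I.pos (nat_lit 0) (nat_lit 0)) T1.l8
  (TrL.c (I.pos (nat_lit 0) (nat_lit 0)) T3.l9
  (TrL.c (I.mix (nat_lit 17240550) (nat_lit 96881482)) (xR T1.l9 T1.l9)
  (TrL.c (I.mix (nat_lit 17240550) (nat_lit 71940500)) T3.l2
  TrL.n)))))))) (by decide +kernel)
theorem sv5 : StarV sI cl9 cl7 cl5 t3 t1 t5 :=
  (bt_n (bt_n (bt_n (bt_b bx5_0) (bt_n (bt_b bx5_1) (bt_b bx5_2))) (bt_n (bt_n (bt_b bx5_3) (bt_b bx5_4)) (bt_n (bt_b bx5_5) (bt_b bx5_6)))) (bt_n (bt_n (bt_b bx5_7) (bt_n (bt_b bx5_8) (bt_b bx5_9))) (bt_n (bt_n (bt_b bx5_10) (bt_b bx5_11)) (bt_n (bt_b bx5_12) (bt_b bx5_13)))))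
def S5 : StarD := StarD.mk cl9 cl7 cl5 3 1 t5
def G : List StarD := [S0, S1, S2, S3, S4, S5]
theorem so0 : StarOK sI G S0 :=
  star_mk (by decide) (by decide) rfl rfl rfl rfl rfl rfl (rfl : _ = t2) (rfl : _ = t4)
  (st_mk (Pth.l (Pth.l (Pth.l Pth.z))) (nat_lit 142642032) (nat_lit 165467154) (by decide +kernel))
  (st_mk (Pth.l (Pth.l (Pth.l Pth.z))) (nat_lit 179030337) (nat_lit 202318444) (by decide +kernel))
  (st_mk (Pth.l (Pth.l (Pth.l Pth.z))) (nat_lit 221453854) (nat_lit 245370841) (by decide +kernel)) sv0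
theorem so1 : StarOK sI G S1 :=
  star_mk (by decide) (by decide) rfl rfl rfl rfl rfl rfl (rfl : _ = t4) (rfl : _ = t2)
  (st_mk (Pth.l (Pth.l (Pth.l Pth.z))) (nat_lit 117009662) (nat_lit 135964686) (by decide +kernel))
  (st_mk (Pth.l (Pth.l (Pth.l Pth.z))) (nat_lit 153269848) (nat_lit 172671479) (by decide +kernel))
  (st_mk (Pth.l (Pth.l (Pth.l Pth.z))) (nat_lit 195586391) (nat_lit 215603122) (by decide +kernel)) sv1
theorem so2 : StarOK sI G S2 :=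
  star_mk (by decide) (by decide) rfl rfl rfl rfl rfl rfl (rfl : _ = t0) (rfl : _ = t5)
  (st_mk (Pth.l (Pth.l (Pth.l Pth.z))) (nat_lit 240422313) (nat_lit 242374476) (by decide +kernel))
  (st_mk (Pth.l (Pth.l (Pth.l Pth.z))) (nat_lit 276069615) (nat_lit 278479298) (by decide +kernel))
  (st_mk (Pth.l (Pth.l (Pth.l Pth.z))) (nat_lit 316796290) (nat_lit 320892877) (by decide +kernel)) sv2
theorem so3 : StarOK sI G S3 :=
  star_mk (by decide) (by decide) rfl rfl rfl rfl rfl rfl (rfl : _ = t5) (rfl : _ = t0)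
  (st_mk (Pth.l (Pth.l (Pth.l Pth.z))) (nat_lit 115891732) (nat_lit 134608148) (by decide +kernel))
  (st_mk (Pth.l (Pth.l (Pth.l Pth.z))) (nat_lit 151349665) (nat_lit 170463605) (by decide +kernel))
  (st_mk (Pth.l (Pth.l (Pth.l Pth.z))) (nat_lit 192450929) (nat_lit 212127727) (by decide +kernel)) sv3
theorem so4 : StarOK sI G S4 :=
  star_mk (by decide) (by decide) rfl rfl rfl rfl rfl rfl (rfl : _ = t1) (rfl : _ = t3)
  (st_mk (Pth.l (Pth.l (Pth.l Pth.z))) (nat_lit 239140173) (nat_lit 240941312) (by decide +kernel))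
  (st_mk (Pth.l (Pth.l (Pth.l Pth.z))) (nat_lit 274377295) (nat_lit 276581209) (by decide +kernel))
  (st_mk (Pth.l (Pth.l (Pth.l Pth.z))) (nat_lit 315094216) (nat_lit 317834858) (by decide +kernel)) sv4
theorem so5 : StarOK sI G S5 :=
  star_mk (by decide) (by decide) rfl rfl rfl rfl rfl rfl (rfl : _ = t3) (rfl : _ = t1)
  (st_mk (Pth.l (Pth.l (Pth.l Pth.z))) (nat_lit 140499659) (nat_lit 162881485) (by decide +kernel))
  (st_mk (Pth.l (Pth.l (Pth.l Pth.z))) (nat_lit 175674832) (nat_lit 198415091) (by decide +kernel))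
  (st_mk (Pth.l (Pth.l (Pth.l Pth.z))) (nat_lit 216338130) (nat_lit 239577312) (by decide +kernel)) sv5
theorem ok : GroupOK (nat_lit 91226112) (nat_lit 150339584) G := grp_mk (allS_c so0 (allS_c so1 (allS_c so2 (allS_c so3 (allS_c so4 (allS_c so5 allS_n))))))
theorem cov : GCov G cl5 cl7 cl9 := cov_mk
  ⟨0, by decide, rfl, rfl, rfl⟩ ⟨1, by decide, rfl, rfl, rfl⟩ ⟨2, by decide, rfl, rfl, rfl⟩ ⟨3, by decide, rfl, rfl, rfl⟩ ⟨4, by decide, rfl, rfl, rfl⟩ ⟨5, by decide, rfl, rfl, rfl⟩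
end Q245_1

namespace Q245_2
def sI : I := I.pos (nat_lit 150274048) (nat_lit 209387520)
def b0_0 : Bx := Bx.mk (St.mk (I.pos (nat_lit 158515200) (nat_lit 234078208)) (I.mix (nat_lit 1785856) (nat_lit 58720256)) (I.mix (nat_lit 2244608) (nat_lit 77938688)) (I.pos (nat_lit 141410304) (nat_lit 272171008)) (I.mix (nat_lit 104431616) (nat_lit 57737216)) (I.mix (nat_lit 65339392) (nat_lit 54165504)) (I.mix (nat_lit 89718784) (nat_lit 78905344)))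
  false (nat_lit 5201136)
def b0_1 : Bx := Bx.mk (St.mk (I.mix (nat_lit 22593536) (nat_lit 118652928)) (I.mix (nat_lit 2850816) (nat_lit 34717696)) (I.mix (nat_lit 18317312) (nat_lit 13172736)) (I.pos (nat_lit 39944192) (nat_lit 115064832)) (I.mix (nat_lit 38453248) (nat_lit 37470208)) (I.mix (nat_lit 30425088) (nat_lit 24821760)) (I.mix (nat_lit 22724608) (nat_lit 14974976)))
  false (nat_lit 0)
def b0_2 : Bx := Bx.mk (St.mk (I.pos (nat_lit 95092736) (nat_lit 135331840)) (I.mix (nat_lit 50200576) (nat_lit 3686400)) (I.neg (nat_lit 6766592) (nat_lit 57409536)) (I.pos (nat_lit 79085568) (nat_lit 128237568)) (I.mix (nat_lit 84541440) (nat_lit 24805376)) (I.mix (nat_lit 32686080) (nat_lit 67895296)) (I.mix (nat_lit 20512768) (nat_lit 52953088)))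
  false (nat_lit 0)
def b0_3 : Bx := Bx.mk (St.mk (I.mix (nat_lit 35078144) (nat_lit 68091904)) (I.mix (nat_lit 29949952) (nat_lit 2195456)) (I.neg (nat_lit 1015808) (nat_lit 22200320)) (I.pos (nat_lit 41353216) (nat_lit 81002496)) (I.mix (nat_lit 36028416) (nat_lit 17121280)) (I.mix (nat_lit 16416768) (nat_lit 26820608)) (I.mix (nat_lit 7864320) (nat_lit 11223040)))
  false (nat_lit 0)
def b0_4 : Bx := Bx.mk (St.mk (I.pos (nat_lit 199229440) (nat_lit 269123584)) (I.mix (nat_lit 6422528) (nat_lit 36470784)) (I.mix (nat_lit 58703872) (nat_lit 27361280)) (I.pos (nat_lit 222445568) (nat_lit 344899584)) (I.mix (nat_lit 74334208) (nat_lit 47710208)) (I.mix (nat_lit 49545216) (nat_lit 41811968)) (I.mix (nat_lit 70926336) (nat_lit 71680000)))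
  false (nat_lit 0)
def b0_5 : Bx := Bx.mk (St.mk (I.mix (nat_lit 36749312) (nat_lit 51216384)) (I.mix (nat_lit 1490944) (nat_lit 7733248)) (I.neg (nat_lit 3604480) (nat_lit 11698176)) (I.pos (nat_lit 43483136) (nat_lit 73236480)) (I.mix (nat_lit 4915200) (nat_lit 9388032)) (I.mix (nat_lit 4734976) (nat_lit 4161536)) (I.mix (nat_lit 1785856) (nat_lit 1982464)))
  false (nat_lit 0)
def b0_6 : Bx := Bx.mk (St.mk (I.pos (nat_lit 102793216) (nat_lit 171343872)) (I.neg (nat_lit 4980736) (nat_lit 51937280)) (I.neg (nat_lit 8847360) (nat_lit 58195968)) (I.pos (nat_lit 95125504) (nat_lit 174997504)) (I.mix (nat_lit 77201408) (nat_lit 38649856)) (I.mix (nat_lit 40894464) (nat_lit 52592640)) (I.mix (nat_lit 32063488) (nat_lit 49577984)))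
  false (nat_lit 0)
def b0_7 : Bx := Bx.mk (St.mk (I.mix (nat_lit 31391744) (nat_lit 83787776)) (I.mix (nat_lit 32866304) (nat_lit 6635520)) (I.neg (nat_lit 786432) (nat_lit 26214400)) (I.pos (nat_lit 37928960) (nat_lit 89849856)) (I.mix (nat_lit 43745280) (nat_lit 36945920)) (I.mix (nat_lit 29671424) (nat_lit 36028416)) (I.mix (nat_lit 16859136) (nat_lit 20840448)))
  false (nat_lit 0)
def b0_8 : Bx := Bx.mk (St.mk (I.pos (nat_lit 165806080) (nat_lit 216760320)) (I.mix (nat_lit 8355840) (nat_lit 57229312)) (I.mix (nat_lit 5046272) (nat_lit 74645504)) (I.pos (nat_lit 160137216) (nat_lit 243351552)) (I.mix (nat_lit 121896960) (nat_lit 46481408)) (I.mix (nat_lit 117817344) (nat_lit 67846144)) (I.mix (nat_lit 122519552) (nat_lit 71008256)))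
  false (nat_lit 0)
def b0_9 : Bx := Bx.mk (St.mk (I.mix (nat_lit 36814848) (nat_lit 109477888)) (I.mix (nat_lit 13336576) (nat_lit 35127296)) (I.mix (nat_lit 16023552) (nat_lit 15958016)) (I.pos (nat_lit 39993344) (nat_lit 107888640)) (I.mix (nat_lit 52805632) (nat_lit 31653888)) (I.mix (nat_lit 45383680) (nat_lit 33816576)) (I.mix (nat_lit 23396352) (nat_lit 19202048)))
  false (nat_lit 0)
def b0_10 : Bx := Bx.mk (St.mk (I.pos (nat_lit 96092160) (nat_lit 114327552)) (I.mix (nat_lit 2162688) (nat_lit 8404992)) (I.neg (nat_lit 4276224) (nat_lit 17727488)) (I.pos (nat_lit 80052224) (nat_lit 113262592)) (I.mix (nat_lit 7684096) (nat_lit 10780672)) (I.mix (nat_lit 6291456) (nat_lit 4489216)) (I.mix (nat_lit 5242880) (nat_lit 3751936)))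
  false (nat_lit 0)
def b0_11 : Bx := Bx.mk (St.mk (I.pos (nat_lit 188399616) (nat_lit 237240320)) (I.pos (nat_lit 9535488) (nat_lit 56393728)) (I.mix (nat_lit 1982464) (nat_lit 71368704)) (I.pos (nat_lit 214761472) (nat_lit 272908288)) (I.mix (nat_lit 85229568) (nat_lit 62947328)) (I.mix (nat_lit 70090752) (nat_lit 48791552)) (I.mix (nat_lit 108986368) (nat_lit 64454656)))
  false (nat_lit 0)
def b0_12 : Bx := Bx.mk (St.mk (I.pos (nat_lit 141852672) (nat_lit 205193216)) (I.mix (nat_lit 37765120) (nat_lit 15122432)) (I.mix (nat_lit 49627136) (nat_lit 18186240)) (I.pos (nat_lit 127778816) (nat_lit 219906048)) (I.mix (nat_lit 54837248) (nat_lit 43892736)) (I.mix (nat_lit 46415872) (nat_lit 41025536)) (I.mix (nat_lit 48185344) (nat_lit 40108032)))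
  false (nat_lit 0)
def b0_13 : Bx := Bx.mk (St.mk (I.pos (nat_lit 172032000) (nat_lit 206241792)) (I.mix (nat_lit 11255808) (nat_lit 28033024)) (I.mix (nat_lit 12337152) (nat_lit 36929536)) (I.pos (nat_lit 168296448) (nat_lit 221839360)) (I.mix (nat_lit 82034688) (nat_lit 51134464)) (I.mix (nat_lit 97681408) (nat_lit 47005696)) (I.mix (nat_lit 103170048) (nat_lit 45367296)))
  false (nat_lit 0)
def t0 : BTr := (BTr.n (BTr.n (BTr.n (BTr.b b0_0) (BTr.n (BTr.b b0_1) (BTr.b b0_2))) (BTr.n (BTr.n (BTr.b b0_3) (BTr.b b0_4)) (BTr.n (BTr.b b0_5) (BTr.b b0_6)))) (BTr.n (BTr.n (BTr.b b0_7) (BTr.n (BTr.b b0_8) (BTr.b b0_9))) (BTr.n (BTr.n (BTr.b b0_10) (BTr.b b0_11)) (BTr.n (BTr.b b0_12) (BTr.b b0_13)))))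
namespace T0
def l0 : Tr := Tr.L (Pth.l (Pth.l (Pth.l Pth.z)))
def l1 : Tr := Tr.L (Pth.l (Pth.l (Pth.r (Pth.l Pth.z))))
def l2 : Tr := Tr.L (Pth.l (Pth.l (Pth.r (Pth.r Pth.z))))
def l3 : Tr := Tr.L (Pth.l (Pth.r (Pth.l (Pth.l Pth.z))))
def l4 : Tr := Tr.L (Pth.l (Pth.r (Pth.l (Pth.r Pth.z))))
def l5 : Tr := Tr.L (Pth.l (Pth.r (Pth.r (Pth.l Pth.z))))
def l6 : Tr := Tr.L (Pth.l (Pth.r (Pth.r (Pth.r Pth.z))))
def l7 : Tr := Tr.L (Pth.r (Pth.l (Pth.l Pth.z)))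
def l8 : Tr := Tr.L (Pth.r (Pth.l (Pth.r (Pth.l Pth.z))))
def l9 : Tr := Tr.L (Pth.r (Pth.l (Pth.r (Pth.r Pth.z))))
def l10 : Tr := Tr.L (Pth.r (Pth.r (Pth.l (Pth.l Pth.z))))
def l11 : Tr := Tr.L (Pth.r (Pth.r (Pth.l (Pth.r Pth.z))))
def l12 : Tr := Tr.L (Pth.r (Pth.r (Pth.r (Pth.l Pth.z))))
def l13 : Tr := Tr.L (Pth.r (Pth.r (Pth.r (Pth.r Pth.z))))
end T0
def b1_0 : Bx := Bx.mk (St.mk (I.pos (nat_lit 158466048) (nat_lit 236503040)) (I.mix (nat_lit 1638400) (nat_lit 53510144)) (I.mix (nat_lit 2359296) (nat_lit 80527360)) (I.pos (nat_lit 113786880) (nat_lit 246579200)) (I.mix (nat_lit 104382464) (nat_lit 58818560)) (I.mix (nat_lit 69074944) (nat_lit 56721408)) (I.mix (nat_lit 98926592) (nat_lit 80232448)))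
  false (nat_lit 0)
def b1_1 : Bx := Bx.mk (St.mk (I.mix (nat_lit 15630336) (nat_lit 131235840)) (I.mix (nat_lit 2605056) (nat_lit 28934144)) (I.mix (nat_lit 11927552) (nat_lit 17563648)) (I.pos (nat_lit 15220736) (nat_lit 99532800)) (I.mix (nat_lit 35225600) (nat_lit 32161792)) (I.mix (nat_lit 26787840) (nat_lit 21905408)) (I.mix (nat_lit 21168128) (nat_lit 15335424)))
  false (nat_lit 0)
def b1_2 : Bx := Bx.mk (St.mk (I.pos (nat_lit 108871680) (nat_lit 145948672)) (I.mix (nat_lit 47038464) (nat_lit 3571712)) (I.neg (nat_lit 2195456) (nat_lit 52789248)) (I.pos (nat_lit 64077824) (nat_lit 113623040)) (I.mix (nat_lit 80756736) (nat_lit 24199168)) (I.mix (nat_lit 30523392) (nat_lit 67092480)) (I.mix (nat_lit 21135360) (nat_lit 56672256)))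
  false (nat_lit 0)
def b1_3 : Bx := Bx.mk (St.mk (I.mix (nat_lit 21217280) (nat_lit 90177536)) (I.mix (nat_lit 26001408) (nat_lit 999424)) (I.mix (nat_lit 20447232) (nat_lit 360448)) (I.pos (nat_lit 16367616) (nat_lit 66289664)) (I.mix (nat_lit 35487744) (nat_lit 15286272)) (I.mix (nat_lit 15908864) (nat_lit 24805376)) (I.mix (nat_lit 8273920) (nat_lit 13287424)))
  false (nat_lit 0)
def b1_4 : Bx := Bx.mk (St.mk (I.pos (nat_lit 199360512) (nat_lit 268517376)) (I.mix (nat_lit 6373376) (nat_lit 34029568)) (I.mix (nat_lit 41517056) (nat_lit 39550976)) (I.pos (nat_lit 196657152) (nat_lit 316801024)) (I.mix (nat_lit 74661888) (nat_lit 40189952)) (I.mix (nat_lit 46923776) (nat_lit 38649856)) (I.mix (nat_lit 69713920) (nat_lit 64798720)))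
  false (nat_lit 0)
def b1_5 : Bx := Bx.mk (St.mk (I.pos (nat_lit 109789184) (nat_lit 127205376)) (I.mix (nat_lit 2031616) (nat_lit 7503872)) (I.neg (nat_lit 180224) (nat_lit 11403264)) (I.pos (nat_lit 64995328) (nat_lit 97779712)) (I.mix (nat_lit 7847936) (nat_lit 10240000)) (I.mix (nat_lit 6504448) (nat_lit 4112384)) (I.mix (nat_lit 5799936) (nat_lit 3309568)))
  false (nat_lit 0)
def b1_6 : Bx := Bx.mk (St.mk (I.mix (nat_lit 21594112) (nat_lit 75137024)) (I.mix (nat_lit 81920) (nat_lit 3244032)) (I.neg (nat_lit 475136) (nat_lit 5603328)) (I.pos (nat_lit 17170432) (nat_lit 57212928)) (I.mix (nat_lit 802816) (nat_lit 3391488)) (I.mix (nat_lit 1048576) (nat_lit 851968)) (I.mix (nat_lit 737280) (nat_lit 704512)))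
  false (nat_lit 0)
def b1_7 : Bx := Bx.mk (St.mk (I.pos (nat_lit 108593152) (nat_lit 180895744)) (I.neg (nat_lit 6078464) (nat_lit 48513024)) (I.neg (nat_lit 7159808) (nat_lit 52707328)) (I.pos (nat_lit 78643200) (nat_lit 160563200)) (I.mix (nat_lit 73154560) (nat_lit 37224448)) (I.mix (nat_lit 40009728) (nat_lit 50446336)) (I.mix (nat_lit 34111488) (nat_lit 49922048)))
  false (nat_lit 0)
def b1_8 : Bx := Bx.mk (St.mk (I.mix (nat_lit 26411008) (nat_lit 104153088)) (I.mix (nat_lit 28819456) (nat_lit 5734400)) (I.mix (nat_lit 23396352) (nat_lit 802816)) (I.pos (nat_lit 14696448) (nat_lit 76234752)) (I.mix (nat_lit 38797312) (nat_lit 30670848)) (I.mix (nat_lit 23576576) (nat_lit 32161792)) (I.mix (nat_lit 14204928) (nat_lit 20971520)))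
  false (nat_lit 0)
def b1_9 : Bx := Bx.mk (St.mk (I.pos (nat_lit 170016768) (nat_lit 215990272)) (I.mix (nat_lit 11894784) (nat_lit 49938432)) (I.mix (nat_lit 4505600) (nat_lit 74285056)) (I.pos (nat_lit 136626176) (nat_lit 213909504)) (I.mix (nat_lit 116932608) (nat_lit 45252608)) (I.mix (nat_lit 112951296) (nat_lit 64192512)) (I.mix (nat_lit 125140992) (nat_lit 70238208)))
  false (nat_lit 0)
def b1_10 : Bx := Bx.mk (St.mk (I.mix (nat_lit 24772608) (nat_lit 123404288)) (I.mix (nat_lit 13959168) (nat_lit 30867456)) (I.mix (nat_lit 14123008) (nat_lit 20004864)) (I.pos (nat_lit 15630336) (nat_lit 91996160)) (I.mix (nat_lit 52756480) (nat_lit 28065792)) (I.mix (nat_lit 45531136) (nat_lit 31473664)) (I.mix (nat_lit 27394048) (nat_lit 19906560)))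
  false (nat_lit 0)
def b1_11 : Bx := Bx.mk (St.mk (I.pos (nat_lit 147161088) (nat_lit 208011264)) (I.mix (nat_lit 37535744) (nat_lit 10846208)) (I.mix (nat_lit 45416448) (nat_lit 18939904)) (I.pos (nat_lit 108871680) (nat_lit 195510272)) (I.mix (nat_lit 56852480) (nat_lit 44007424)) (I.mix (nat_lit 52068352) (nat_lit 44531712)) (I.mix (nat_lit 56492032) (nat_lit 46022656)))
  false (nat_lit 0)
def b1_12 : Bx := Bx.mk (St.mk (I.pos (nat_lit 170508288) (nat_lit 209567744)) (I.mix (nat_lit 14319616) (nat_lit 28016640)) (I.mix (nat_lit 9977856) (nat_lit 44285952)) (I.pos (nat_lit 144031744) (nat_lit 197394432)) (I.mix (nat_lit 89554944) (nat_lit 47824896)) (I.mix (nat_lit 96632832) (nat_lit 45596672)) (I.mix (nat_lit 107692032) (nat_lit 46120960)))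
  false (nat_lit 0)
def b1_13 : Bx := Bx.mk (St.mk (I.pos (nat_lit 187432960) (nat_lit 238288896)) (I.pos (nat_lit 7782400) (nat_lit 51724288)) (I.pos (nat_lit 4849664) (nat_lit 75759616)) (I.pos (nat_lit 186597376) (nat_lit 246579200)) (I.mix (nat_lit 91701248) (nat_lit 64978944)) (I.mix (nat_lit 76349440) (nat_lit 51888128)) (I.mix (nat_lit 120438784) (nat_lit 63012864)))
  false (nat_lit 0)
def t1 : BTr := (BTr.n (BTr.n (BTr.n (BTr.b b1_0) (BTr.n (BTr.b b1_1) (BTr.b b1_2))) (BTr.n (BTr.n (BTr.b b1_3) (BTr.b b1_4)) (BTr.n (BTr.b b1_5) (BTr.b b1_6)))) (BTr.n (BTr.n (BTr.b b1_7) (BTr.n (BTr.b b1_8) (BTr.b b1_9))) (BTr.n (BTr.n (BTr.b b1_10) (BTr.b b1_11)) (BTr.n (BTr.b b1_12) (BTr.b b1_13)))))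
namespace T1
def l0 : Tr := Tr.L (Pth.l (Pth.l (Pth.l Pth.z)))
def l1 : Tr := Tr.L (Pth.l (Pth.l (Pth.r (Pth.l Pth.z))))
def l2 : Tr := Tr.L (Pth.l (Pth.l (Pth.r (Pth.r Pth.z))))
def l3 : Tr := Tr.L (Pth.l (Pth.r (Pth.l (Pth.l Pth.z))))
def l4 : Tr := Tr.L (Pth.l (Pth.r (Pth.l (Pth.r Pth.z))))
def l5 : Tr := Tr.L (Pth.l (Pth.r (Pth.r (Pth.l Pth.z))))
def l6 : Tr := Tr.L (Pth.l (Pth.r (Pth.r (Pth.r Pth.z))))
def l7 : Tr := Tr.L (Pth.r (Pth.l (Pth.l Pth.z)))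
def l8 : Tr := Tr.L (Pth.r (Pth.l (Pth.r (Pth.l Pth.z))))
def l9 : Tr := Tr.L (Pth.r (Pth.l (Pth.r (Pth.r Pth.z))))
def l10 : Tr := Tr.L (Pth.r (Pth.r (Pth.l (Pth.l Pth.z))))
def l11 : Tr := Tr.L (Pth.r (Pth.r (Pth.l (Pth.r Pth.z))))
def l12 : Tr := Tr.L (Pth.r (Pth.r (Pth.r (Pth.l Pth.z))))
def l13 : Tr := Tr.L (Pth.r (Pth.r (Pth.r (Pth.r Pth.z))))
end T1
def b2_0 : Bx := Bx.mk (St.mk (I.pos (nat_lit 153747456) (nat_lit 226050048)) (I.mix (nat_lit 2113536) (nat_lit 69992448)) (I.mix (nat_lit 2703360) (nat_lit 91062272)) (I.pos (nat_lit 237535232) (nat_lit 338624512)) (I.mix (nat_lit 112263168) (nat_lit 64749568)) (I.mix (nat_lit 65011712) (nat_lit 57360384)) (I.mix (nat_lit 84492288) (nat_lit 79413248)))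
  false (nat_lit 81890044)
def b2_1 : Bx := Bx.mk (St.mk (I.pos (nat_lit 23199744) (nat_lit 74219520)) (I.mix (nat_lit 10059776) (nat_lit 44105728)) (I.mix (nat_lit 27688960) (nat_lit 2654208)) (I.pos (nat_lit 144162816) (nat_lit 163430400)) (I.mix (nat_lit 29114368) (nat_lit 47513600)) (I.mix (nat_lit 39714816) (nat_lit 25788416)) (I.mix (nat_lit 21643264) (nat_lit 10715136)))
  false (nat_lit 0)
def b2_2 : Bx := Bx.mk (St.mk (I.pos (nat_lit 49676288) (nat_lit 99221504)) (I.mix (nat_lit 60866560) (nat_lit 10534912)) (I.neg (nat_lit 12271616) (nat_lit 57212928)) (I.pos (nat_lit 148799488) (nat_lit 182566912)) (I.mix (nat_lit 81739776) (nat_lit 28131328)) (I.mix (nat_lit 28278784) (nat_lit 70418432)) (I.mix (nat_lit 23216128) (nat_lit 41893888)))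
  false (nat_lit 0)
def b2_3 : Bx := Bx.mk (St.mk (I.neg (nat_lit 23183360) (nat_lit 74219520)) (I.mix (nat_lit 44105728) (nat_lit 10649600)) (I.mix (nat_lit 27688960) (nat_lit 2654208)) (I.pos (nat_lit 144162816) (nat_lit 163430400)) (I.mix (nat_lit 47513600) (nat_lit 29114368)) (I.mix (nat_lit 25788416) (nat_lit 39714816)) (I.mix (nat_lit 21643264) (nat_lit 10715136)))
  true (nat_lit 0)
def b2_4 : Bx := Bx.mk (St.mk (I.pos (nat_lit 69074944) (nat_lit 150700032)) (I.neg (nat_lit 7127040) (nat_lit 64978944)) (I.neg (nat_lit 2244608) (nat_lit 61161472)) (I.pos (nat_lit 162725888) (nat_lit 228999168)) (I.mix (nat_lit 76578816) (nat_lit 44597248)) (I.mix (nat_lit 35733504) (nat_lit 58310656)) (I.mix (nat_lit 32096256) (nat_lit 50446336)))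
  false (nat_lit 0)
def b2_5 : Bx := Bx.mk (St.mk (I.mix (nat_lit 38125568) (nat_lit 6635520)) (I.mix (nat_lit 40042496) (nat_lit 7536640)) (I.mix (nat_lit 7569408) (nat_lit 1474560)) (I.pos (nat_lit 141017088) (nat_lit 152584192)) (I.mix (nat_lit 26787840) (nat_lit 37404672)) (I.mix (nat_lit 22331392) (nat_lit 35176448)) (I.mix (nat_lit 4816896) (nat_lit 5570560)))
  true (nat_lit 0)
def b2_6 : Bx := Bx.mk (St.mk (I.pos (nat_lit 149995520) (nat_lit 198606848)) (I.pos (nat_lit 3047424) (nat_lit 63586304)) (I.pos (nat_lit 11780096) (nat_lit 86556672)) (I.pos (nat_lit 235094016) (nat_lit 298188800)) (I.mix (nat_lit 123633664) (nat_lit 37601280)) (I.mix (nat_lit 109658112) (nat_lit 55558144)) (I.mix (nat_lit 104333312) (nat_lit 59670528)))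
  false (nat_lit 65122111)
def b2_7 : Bx := Bx.mk (St.mk (I.mix (nat_lit 6635520) (nat_lit 38125568)) (I.mix (nat_lit 7536640) (nat_lit 40042496)) (I.mix (nat_lit 7569408) (nat_lit 1474560)) (I.pos (nat_lit 141017088) (nat_lit 152584192)) (I.mix (nat_lit 37404672) (nat_lit 26787840)) (I.mix (nat_lit 35176448) (nat_lit 22331392)) (I.mix (nat_lit 4816896) (nat_lit 5570560)))
  false (nat_lit 0)
def b2_8 : Bx := Bx.mk (St.mk (I.pos (nat_lit 185942016) (nat_lit 288194560)) (I.mix (nat_lit 28950528) (nat_lit 50429952)) (I.mix (nat_lit 114180096) (nat_lit 48005120)) (I.pos (nat_lit 294092800) (nat_lit 453820416)) (I.mix (nat_lit 80297984) (nat_lit 64176128)) (I.mix (nat_lit 66306048) (nat_lit 52625408)) (I.mix (nat_lit 119308288) (nat_lit 100270080)))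
  false (nat_lit 81636098)
def b2_9 : Bx := Bx.mk (St.mk (I.pos (nat_lit 125353984) (nat_lit 190300160)) (I.mix (nat_lit 37486592) (nat_lit 21561344)) (I.mix (nat_lit 35815424) (nat_lit 34160640)) (I.pos (nat_lit 203505664) (nat_lit 277381120)) (I.mix (nat_lit 52822016) (nat_lit 48087040)) (I.mix (nat_lit 49430528) (nat_lit 44056576)) (I.mix (nat_lit 48168960) (nat_lit 42041344)))
  false (nat_lit 0)
def b2_10 : Bx := Bx.mk (St.mk (I.pos (nat_lit 150372352) (nat_lit 190562304)) (I.mix (nat_lit 5062656) (nat_lit 44449792)) (I.pos (nat_lit 81920) (nat_lit 64700416)) (I.pos (nat_lit 237174784) (nat_lit 282394624)) (I.mix (nat_lit 115654656) (nat_lit 55951360)) (I.mix (nat_lit 115572736) (nat_lit 53182464)) (I.mix (nat_lit 112640000) (nat_lit 53231616)))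
  false (nat_lit 16603487)
def b2_11 : Bx := Bx.mk (St.mk (I.pos (nat_lit 171687936) (nat_lit 226689024)) (I.pos (nat_lit 16924672) (nat_lit 70156288)) (I.pos (nat_lit 8028160) (nat_lit 88997888)) (I.pos (nat_lit 280674304) (nat_lit 334921728)) (I.mix (nat_lit 103333888) (nat_lit 78938112)) (I.mix (nat_lit 85655552) (nat_lit 61964288)) (I.mix (nat_lit 126451712) (nat_lit 82657280)))
  false (nat_lit 86372670)
def t2 : BTr := (BTr.n (BTr.n (BTr.n (BTr.b b2_0) (BTr.n (BTr.b b2_1) (BTr.b b2_2))) (BTr.n (BTr.b b2_3) (BTr.n (BTr.b b2_4) (BTr.b b2_5)))) (BTr.n (BTr.n (BTr.b b2_6) (BTr.n (BTr.b b2_7) (BTr.b b2_8))) (BTr.n (BTr.b b2_9) (BTr.n (BTr.b b2_10) (BTr.b b2_11)))))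
namespace T2
def l0 : Tr := Tr.L (Pth.l (Pth.l (Pth.l Pth.z)))
def l1 : Tr := Tr.L (Pth.l (Pth.l (Pth.r (Pth.l Pth.z))))
def l2 : Tr := Tr.L (Pth.l (Pth.l (Pth.r (Pth.r Pth.z))))
def l3 : Tr := Tr.L (Pth.l (Pth.r (Pth.l Pth.z)))
def l4 : Tr := Tr.L (Pth.l (Pth.r (Pth.r (Pth.l Pth.z))))
def l5 : Tr := Tr.L (Pth.l (Pth.r (Pth.r (Pth.r Pth.z))))
def l6 : Tr := Tr.L (Pth.r (Pth.l (Pth.l Pth.z)))
def l7 : Tr := Tr.L (Pth.r (Pth.l (Pth.r (Pth.l Pth.z))))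
def l8 : Tr := Tr.L (Pth.r (Pth.l (Pth.r (Pth.r Pth.z))))
def l9 : Tr := Tr.L (Pth.r (Pth.r (Pth.l Pth.z)))
def l10 : Tr := Tr.L (Pth.r (Pth.r (Pth.r (Pth.l Pth.z))))
def l11 : Tr := Tr.L (Pth.r (Pth.r (Pth.r (Pth.r Pth.z))))
end T2
def b3_0 : Bx := Bx.mk (St.mk (I.pos (nat_lit 153747456) (nat_lit 237436928)) (I.mix (nat_lit 1540096) (nat_lit 50118656)) (I.mix (nat_lit 2916352) (nat_lit 100941824)) (I.pos (nat_lit 112787456) (nat_lit 236896256)) (I.mix (nat_lit 122863616) (nat_lit 77414400)) (I.mix (nat_lit 92094464) (nat_lit 83017728)) (I.mix (nat_lit 127582208) (nat_lit 109035520)))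
  false (nat_lit 55082788)
def b3_1 : Bx := Bx.mk (St.mk (I.pos (nat_lit 115900416) (nat_lit 177831936)) (I.neg (nat_lit 6045696) (nat_lit 51789824)) (I.mix (nat_lit 43548672) (nat_lit 1359872)) (I.pos (nat_lit 85917696) (nat_lit 153092096)) (I.mix (nat_lit 64716800) (nat_lit 35176448)) (I.mix (nat_lit 32047104) (nat_lit 44957696)) (I.mix (nat_lit 28934144) (nat_lit 45465600)))
  false (nat_lit 38035675)
def b3_2 : Bx := Bx.mk (St.mk (I.mix (nat_lit 21299200) (nat_lit 101875712)) (I.mix (nat_lit 28000256) (nat_lit 1900544)) (I.mix (nat_lit 14352384) (nat_lit 7143424)) (I.pos (nat_lit 15302656) (nat_lit 74170368)) (I.mix (nat_lit 29966336) (nat_lit 30441472)) (I.mix (nat_lit 20643840) (nat_lit 25460736)) (I.mix (nat_lit 11681792) (nat_lit 15581184)))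
  false (nat_lit 0)
def b3_3 : Bx := Bx.mk (St.mk (I.pos (nat_lit 167821312) (nat_lit 211615744)) (I.mix (nat_lit 11386880) (nat_lit 46383104)) (I.pos (nat_lit 12156928) (nat_lit 91258880)) (I.pos (nat_lit 128663552) (nat_lit 200097792)) (I.mix (nat_lit 118095872) (nat_lit 42811392)) (I.mix (nat_lit 107151360) (nat_lit 56967168)) (I.mix (nat_lit 126681088) (nat_lit 54116352)))
  false (nat_lit 41650797)
def b3_4 : Bx := Bx.mk (St.mk (I.mix (nat_lit 23674880) (nat_lit 120324096)) (I.mix (nat_lit 9420800) (nat_lit 32571392)) (I.mix (nat_lit 1458176) (nat_lit 31571968)) (I.pos (nat_lit 15826944) (nat_lit 89358336)) (I.mix (nat_lit 54673408) (nat_lit 23019520)) (I.mix (nat_lit 43270144) (nat_lit 25903104)) (I.mix (nat_lit 28065792) (nat_lit 15171584)))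
  false (nat_lit 0)
def b3_5 : Bx := Bx.mk (St.mk (I.pos (nat_lit 157040640) (nat_lit 204718080)) (I.mix (nat_lit 32325632) (nat_lit 6701056)) (I.mix (nat_lit 16941056) (nat_lit 36110336)) (I.pos (nat_lit 117293056) (nat_lit 186335232)) (I.mix (nat_lit 52363264) (nat_lit 48611328)) (I.mix (nat_lit 42745856) (nat_lit 44269568)) (I.mix (nat_lit 42221568) (nat_lit 46759936)))
  false (nat_lit 26029293)
def b3_6 : Bx := Bx.mk (St.mk (I.pos (nat_lit 154288128) (nat_lit 177127424)) (I.neg (nat_lit 12697600) (nat_lit 36225024)) (I.mix (nat_lit 24969216) (nat_lit 2228224)) (I.pos (nat_lit 115392512) (nat_lit 155320320)) (I.mix (nat_lit 27918336) (nat_lit 18939904)) (I.mix (nat_lit 13385728) (nat_lit 18087936)) (I.mix (nat_lit 13385728) (nat_lit 19202048)))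
  false (nat_lit 0)
def b3_7 : Bx := Bx.mk (St.mk (I.mix (nat_lit 24379392) (nat_lit 104005632)) (I.mix (nat_lit 14761984) (nat_lit 1294336)) (I.mix (nat_lit 5472256) (nat_lit 7176192)) (I.pos (nat_lit 16482304) (nat_lit 75448320)) (I.mix (nat_lit 8552448) (nat_lit 10108928)) (I.mix (nat_lit 5619712) (nat_lit 5783552)) (I.mix (nat_lit 3276800) (nat_lit 3833856)))
  false (nat_lit 0)
def b3_8 : Bx := Bx.mk (St.mk (I.mix (nat_lit 18268160) (nat_lit 134381568)) (I.mix (nat_lit 7929856) (nat_lit 28393472)) (I.mix (nat_lit 4423680) (nat_lit 29720576)) (I.pos (nat_lit 14909440) (nat_lit 101646336)) (I.mix (nat_lit 47284224) (nat_lit 36569088)) (I.mix (nat_lit 35815424) (nat_lit 30375936)) (I.mix (nat_lit 28098560) (nat_lit 22921216)))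
  false (nat_lit 0)
def b3_9 : Bx := Bx.mk (St.mk (I.pos (nat_lit 106119168) (nat_lit 151568384)) (I.mix (nat_lit 50233344) (nat_lit 9125888)) (I.mix (nat_lit 41631744) (nat_lit 13320192)) (I.pos (nat_lit 63750144) (nat_lit 119308288)) (I.mix (nat_lit 73236480) (nat_lit 28360704)) (I.mix (nat_lit 33996800) (nat_lit 64028672)) (I.mix (nat_lit 26624000) (nat_lit 51331072)))
  false (nat_lit 5766534)
def b3_10 : Bx := Bx.mk (St.mk (I.mix (nat_lit 23232512) (nat_lit 94420992)) (I.mix (nat_lit 26411008) (nat_lit 4194304)) (I.mix (nat_lit 12713984) (nat_lit 7569408)) (I.pos (nat_lit 16449536) (nat_lit 67780608)) (I.mix (nat_lit 35160064) (nat_lit 23756800)) (I.mix (nat_lit 21020672) (nat_lit 27983872)) (I.mix (nat_lit 10616832) (nat_lit 13484032)))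
  false (nat_lit 0)
def b3_11 : Bx := Bx.mk (St.mk (I.pos (nat_lit 186155008) (nat_lit 285179904)) (I.mix (nat_lit 24723456) (nat_lit 38420480)) (I.mix (nat_lit 38305792) (nat_lit 85737472)) (I.pos (nat_lit 180699136) (nat_lit 342982656)) (I.mix (nat_lit 88047616) (nat_lit 58556416)) (I.mix (nat_lit 66863104) (nat_lit 50003968)) (I.mix (nat_lit 104644608) (nat_lit 83460096)))
  false (nat_lit 74909374)
def b3_12 : Bx := Bx.mk (St.mk (I.pos (nat_lit 178126848) (nat_lit 234012672)) (I.pos (nat_lit 10092544) (nat_lit 48644096)) (I.pos (nat_lit 31178752) (nat_lit 99532800)) (I.pos (nat_lit 169754624) (nat_lit 229244928)) (I.mix (nat_lit 99794944) (nat_lit 74989568)) (I.mix (nat_lit 89849856) (nat_lit 66387968)) (I.mix (nat_lit 137297920) (nat_lit 85344256)))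
  false (nat_lit 73913171)
def b3_13 : Bx := Bx.mk (St.mk (I.pos (nat_lit 168230912) (nat_lit 206782464)) (I.mix (nat_lit 18661376) (nat_lit 23543808)) (I.pos (nat_lit 4341760) (nat_lit 60276736)) (I.pos (nat_lit 128892928) (nat_lit 189284352)) (I.mix (nat_lit 97239040) (nat_lit 45613056)) (I.mix (nat_lit 100958208) (nat_lit 40828928)) (I.mix (nat_lit 114540544) (nat_lit 41287680)))
  false (nat_lit 49118216)
def t3 : BTr := (BTr.n (BTr.n (BTr.n (BTr.b b3_0) (BTr.n (BTr.b b3_1) (BTr.b b3_2))) (BTr.n (BTr.n (BTr.b b3_3) (BTr.b b3_4)) (BTr.n (BTr.b b3_5) (BTr.b b3_6)))) (BTr.n (BTr.n (BTr.b b3_7) (BTr.n (BTr.b b3_8) (BTr.b b3_9))) (BTr.n (BTr.n (BTr.b b3_10) (BTr.b b3_11)) (BTr.n (BTr.b b3_12) (BTr.b b3_13)))))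
namespace T3
def l0 : Tr := Tr.L (Pth.l (Pth.l (Pth.l Pth.z)))
def l1 : Tr := Tr.L (Pth.l (Pth.l (Pth.r (Pth.l Pth.z))))
def l2 : Tr := Tr.L (Pth.l (Pth.l (Pth.r (Pth.r Pth.z))))
def l3 : Tr := Tr.L (Pth.l (Pth.r (Pth.l (Pth.l Pth.z))))
def l4 : Tr := Tr.L (Pth.l (Pth.r (Pth.l (Pth.r Pth.z))))
def l5 : Tr := Tr.L (Pth.l (Pth.r (Pth.r (Pth.l Pth.z))))
def l6 : Tr := Tr.L (Pth.l (Pth.r (Pth.r (Pth.r Pth.z))))
def l7 : Tr := Tr.L (Pth.r (Pth.l (Pth.l Pth.z)))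
def l8 : Tr := Tr.L (Pth.r (Pth.l (Pth.r (Pth.l Pth.z))))
def l9 : Tr := Tr.L (Pth.r (Pth.l (Pth.r (Pth.r Pth.z))))
def l10 : Tr := Tr.L (Pth.r (Pth.r (Pth.l (Pth.l Pth.z))))
def l11 : Tr := Tr.L (Pth.r (Pth.r (Pth.l (Pth.r Pth.z))))
def l12 : Tr := Tr.L (Pth.r (Pth.r (Pth.r (Pth.l Pth.z))))
def l13 : Tr := Tr.L (Pth.r (Pth.r (Pth.r (Pth.r Pth.z))))
end T3
def b4_0 : Bx := Bx.mk (St.mk (I.pos (nat_lit 147980288) (nat_lit 223969280)) (I.mix (nat_lit 2048000) (nat_lit 68222976)) (I.mix (nat_lit 2998272) (nat_lit 101941248)) (I.pos (nat_lit 236175360) (nat_lit 331694080)) (I.mix (nat_lit 119914496) (nat_lit 67272704)) (I.mix (nat_lit 75546624) (nat_lit 63242240)) (I.mix (nat_lit 93208576) (nat_lit 82591744)))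
  false (nat_lit 98566248)
def b4_1 : Bx := Bx.mk (St.mk (I.pos (nat_lit 73023488) (nat_lit 154271744)) (I.neg (nat_lit 6832128) (nat_lit 66863104)) (I.mix (nat_lit 54411264) (nat_lit 8978432)) (I.pos (nat_lit 166477824) (nat_lit 231833600)) (I.mix (nat_lit 70533120) (nat_lit 48136192)) (I.mix (nat_lit 37273600) (nat_lit 57245696)) (I.mix (nat_lit 33636352) (nat_lit 49168384)))
  false (nat_lit 0)
def b4_2 : Bx := Bx.mk (St.mk (I.mix (nat_lit 35340288) (nat_lit 8388608)) (I.mix (nat_lit 40402944) (nat_lit 8880128)) (I.mix (nat_lit 851968) (nat_lit 7995392)) (I.pos (nat_lit 140886016) (nat_lit 151830528)) (I.mix (nat_lit 23379968) (nat_lit 41172992)) (I.mix (nat_lit 20480000) (nat_lit 36077568)) (I.mix (nat_lit 4243456) (nat_lit 5734400)))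
  true (nat_lit 0)
def b4_3 : Bx := Bx.mk (St.mk (I.pos (nat_lit 148062208) (nat_lit 195674112)) (I.pos (nat_lit 2785280) (nat_lit 62308352)) (I.pos (nat_lit 21594112) (nat_lit 96387072)) (I.pos (nat_lit 229654528) (nat_lit 291340288)) (I.mix (nat_lit 124256256) (nat_lit 33734656)) (I.mix (nat_lit 108740608) (nat_lit 50724864)) (I.mix (nat_lit 105218048) (nat_lit 54853632)))
  false (nat_lit 72288019)
def b4_4 : Bx := Bx.mk (St.mk (I.mix (nat_lit 8388608) (nat_lit 35340288)) (I.mix (nat_lit 8880128) (nat_lit 40402944)) (I.mix (nat_lit 851968) (nat_lit 7995392)) (I.pos (nat_lit 140886016) (nat_lit 151830528)) (I.mix (nat_lit 41172992) (nat_lit 23379968)) (I.mix (nat_lit 36077568) (nat_lit 20480000)) (I.mix (nat_lit 4210688) (nat_lit 5734400)))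
  false (nat_lit 0)
def b4_5 : Bx := Bx.mk (St.mk (I.pos (nat_lit 20348928) (nat_lit 72105984)) (I.mix (nat_lit 8994816) (nat_lit 44040192)) (I.mix (nat_lit 19857408) (nat_lit 9322496)) (I.pos (nat_lit 143572992) (nat_lit 162660352)) (I.mix (nat_lit 32047104) (nat_lit 43139072)) (I.mix (nat_lit 37863424) (nat_lit 27623424)) (I.mix (nat_lit 20561920) (nat_lit 12337152)))
  false (nat_lit 0)
def b4_6 : Bx := Bx.mk (St.mk (I.pos (nat_lit 51658752) (nat_lit 102301696)) (I.mix (nat_lit 62111744) (nat_lit 9535488)) (I.neg (nat_lit 6275072) (nat_lit 50085888)) (I.pos (nat_lit 150601728) (nat_lit 185335808)) (I.mix (nat_lit 79069184) (nat_lit 29884416)) (I.mix (nat_lit 31408128) (nat_lit 66289664)) (I.mix (nat_lit 25034752) (nat_lit 38567936)))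
  false (nat_lit 0)
def b4_7 : Bx := Bx.mk (St.mk (I.neg (nat_lit 20332544) (nat_lit 72171520)) (I.mix (nat_lit 44040192) (nat_lit 8994816)) (I.mix (nat_lit 19857408) (nat_lit 9322496)) (I.pos (nat_lit 143572992) (nat_lit 162660352)) (I.mix (nat_lit 43139072) (nat_lit 32047104)) (I.mix (nat_lit 27623424) (nat_lit 37863424)) (I.mix (nat_lit 20561920) (nat_lit 12337152)))
  true (nat_lit 0)
def b4_8 : Bx := Bx.mk (St.mk (I.pos (nat_lit 124141568) (nat_lit 187465728)) (I.mix (nat_lit 40321024) (nat_lit 18841600)) (I.mix (nat_lit 28262400) (nat_lit 42909696)) (I.pos (nat_lit 202883072) (nat_lit 271908864)) (I.mix (nat_lit 52264960) (nat_lit 48742400)) (I.mix (nat_lit 48922624) (nat_lit 43925504)) (I.mix (nat_lit 47431680) (nat_lit 42778624)))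
  false (nat_lit 0)
def b4_9 : Bx := Bx.mk (St.mk (I.pos (nat_lit 180322304) (nat_lit 287047680)) (I.mix (nat_lit 25182208) (nat_lit 51216384)) (I.mix (nat_lit 85884928) (nat_lit 67354624)) (I.pos (nat_lit 284770304) (nat_lit 446791680)) (I.mix (nat_lit 83689472) (nat_lit 67551232)) (I.mix (nat_lit 64585728) (nat_lit 43646976)) (I.mix (nat_lit 112328704) (nat_lit 79921152)))
  false (nat_lit 91182594)
def b4_10 : Bx := Bx.mk (St.mk (I.pos (nat_lit 167526400) (nat_lit 224215040)) (I.pos (nat_lit 19349504) (nat_lit 66732032)) (I.pos (nat_lit 26066944) (nat_lit 97779712)) (I.pos (nat_lit 273465344) (nat_lit 327417856)) (I.mix (nat_lit 103841792) (nat_lit 75956224)) (I.mix (nat_lit 86441984) (nat_lit 62177280)) (I.mix (nat_lit 126222336) (nat_lit 78168064)))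
  false (nat_lit 87532107)
def b4_11 : Bx := Bx.mk (St.mk (I.pos (nat_lit 147603456) (nat_lit 187678720)) (I.mix (nat_lit 6438912) (nat_lit 44007424)) (I.pos (nat_lit 9420800) (nat_lit 76054528)) (I.pos (nat_lit 230539264) (nat_lit 276758528)) (I.mix (nat_lit 119357440) (nat_lit 55083008)) (I.mix (nat_lit 117325824) (nat_lit 52330496)) (I.mix (nat_lit 116817920) (nat_lit 52264960)))
  false (nat_lit 30143171)
def t4 : BTr := (BTr.n (BTr.n (BTr.n (BTr.b b4_0) (BTr.n (BTr.b b4_1) (BTr.b b4_2))) (BTr.n (BTr.b b4_3) (BTr.n (BTr.b b4_4) (BTr.b b4_5)))) (BTr.n (BTr.n (BTr.b b4_6) (BTr.n (BTr.b b4_7) (BTr.b b4_8))) (BTr.n (BTr.b b4_9) (BTr.n (BTr.b b4_10) (BTr.b b4_11)))))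
namespace T4
def l0 : Tr := Tr.L (Pth.l (Pth.l (Pth.l Pth.z)))
def l1 : Tr := Tr.L (Pth.l (Pth.l (Pth.r (Pth.l Pth.z))))
def l2 : Tr := Tr.L (Pth.l (Pth.l (Pth.r (Pth.r Pth.z))))
def l3 : Tr := Tr.L (Pth.l (Pth.r (Pth.l Pth.z)))
def l4 : Tr := Tr.L (Pth.l (Pth.r (Pth.r (Pth.l Pth.z))))
def l5 : Tr := Tr.L (Pth.l (Pth.r (Pth.r (Pth.r Pth.z))))
def l6 : Tr := Tr.L (Pth.r (Pth.l (Pth.l Pth.z)))
def l7 : Tr := Tr.L (Pth.r (Pth.l (Pth.r (Pth.l Pth.z))))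
def l8 : Tr := Tr.L (Pth.r (Pth.l (Pth.r (Pth.r Pth.z))))
def l9 : Tr := Tr.L (Pth.r (Pth.r (Pth.l Pth.z)))
def l10 : Tr := Tr.L (Pth.r (Pth.r (Pth.r (Pth.l Pth.z))))
def l11 : Tr := Tr.L (Pth.r (Pth.r (Pth.r (Pth.r Pth.z))))
end T4
def b5_0 : Bx := Bx.mk (St.mk (I.pos (nat_lit 145129472) (nat_lit 233259008)) (I.mix (nat_lit 1638400) (nat_lit 53788672)) (I.mix (nat_lit 3096576) (nat_lit 108773376)) (I.pos (nat_lit 139362304) (nat_lit 254656512)) (I.mix (nat_lit 124223488) (nat_lit 80871424)) (I.mix (nat_lit 94191616) (nat_lit 85671936)) (I.mix (nat_lit 127451136) (nat_lit 107479040)))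
  false (nat_lit 67768397)
def b5_1 : Bx := Bx.mk (St.mk (I.pos (nat_lit 105529344) (nat_lit 172179456)) (I.neg (nat_lit 8290304) (nat_lit 57360384)) (I.mix (nat_lit 44105728) (nat_lit 6422528)) (I.pos (nat_lit 103219200) (nat_lit 171753472)) (I.mix (nat_lit 67125248) (nat_lit 37863424)) (I.mix (nat_lit 32751616) (nat_lit 44875776)) (I.mix (nat_lit 29310976) (nat_lit 42942464)))
  false (nat_lit 48748395)
def b5_2 : Bx := Bx.mk (St.mk (I.mix (nat_lit 30392320) (nat_lit 82378752)) (I.mix (nat_lit 34570240) (nat_lit 1507328)) (I.mix (nat_lit 12320768) (nat_lit 10092544)) (I.pos (nat_lit 39010304) (nat_lit 88899584)) (I.mix (nat_lit 33832960) (nat_lit 34422784)) (I.mix (nat_lit 22970368) (nat_lit 27901952)) (I.mix (nat_lit 10731520) (nat_lit 15106048)))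
  false (nat_lit 0)
def b5_3 : Bx := Bx.mk (St.mk (I.pos (nat_lit 160284672) (nat_lit 208322560)) (I.mix (nat_lit 11157504) (nat_lit 52019200)) (I.pos (nat_lit 17793024) (nat_lit 99123200)) (I.pos (nat_lit 142049280) (nat_lit 221364224)) (I.mix (nat_lit 126500864) (nat_lit 44367872)) (I.mix (nat_lit 109346816) (nat_lit 61046784)) (I.mix (nat_lit 122634240) (nat_lit 53477376)))
  false (nat_lit 62543964)
def b5_4 : Bx := Bx.mk (St.mk (I.mix (nat_lit 36814848) (nat_lit 104267776)) (I.mix (nat_lit 8847360) (nat_lit 35946496)) (I.mix (nat_lit 2048000) (nat_lit 33275904)) (I.pos (nat_lit 40812544) (nat_lit 104005632)) (I.mix (nat_lit 55492608) (nat_lit 23117824)) (I.mix (nat_lit 42139648) (nat_lit 27394048)) (I.mix (nat_lit 24150016) (nat_lit 16384000)))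
  false (nat_lit 0)
def b5_5 : Bx := Bx.mk (St.mk (I.pos (nat_lit 151191552) (nat_lit 199688192)) (I.mix (nat_lit 31850496) (nat_lit 7798784)) (I.mix (nat_lit 10485760) (nat_lit 42434560)) (I.pos (nat_lit 134905856) (nat_lit 204898304)) (I.mix (nat_lit 52346880) (nat_lit 48939008)) (I.mix (nat_lit 43696128) (nat_lit 44384256)) (I.mix (nat_lit 42237952) (nat_lit 44711936)))
  false (nat_lit 21568696)
def b5_6 : Bx := Bx.mk (St.mk (I.mix (nat_lit 38371328) (nat_lit 85082112)) (I.mix (nat_lit 15859712) (nat_lit 3932160)) (I.mix (nat_lit 2211840) (nat_lit 11452416)) (I.pos (nat_lit 42713088) (nat_lit 89702400)) (I.mix (nat_lit 11534336) (nat_lit 15319040)) (I.mix (nat_lit 9289728) (nat_lit 9388032)) (I.mix (nat_lit 4866048) (nat_lit 4849664)))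
  false (nat_lit 0)
def b5_7 : Bx := Bx.mk (St.mk (I.pos (nat_lit 148094976) (nat_lit 171524096)) (I.neg (nat_lit 14303232) (nat_lit 37650432)) (I.mix (nat_lit 20824064) (nat_lit 7438336)) (I.pos (nat_lit 133545984) (nat_lit 174243840)) (I.mix (nat_lit 26591232) (nat_lit 21741568)) (I.mix (nat_lit 14860288) (nat_lit 17268736)) (I.mix (nat_lit 13893632) (nat_lit 17514496)))
  false (nat_lit 0)
def b5_8 : Bx := Bx.mk (St.mk (I.mix (nat_lit 29442048) (nat_lit 119717888)) (I.mix (nat_lit 7192576) (nat_lit 33849344)) (I.mix (nat_lit 2588672) (nat_lit 32276480)) (I.pos (nat_lit 39485440) (nat_lit 115359744)) (I.mix (nat_lit 53870592) (nat_lit 41041920)) (I.mix (nat_lit 39354368) (nat_lit 33488896)) (I.mix (nat_lit 27852800) (nat_lit 23642112)))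
  false (nat_lit 0)
def b5_9 : Bx := Bx.mk (St.mk (I.pos (nat_lit 93372416) (nat_lit 144441344)) (I.mix (nat_lit 55492608) (nat_lit 7798784)) (I.mix (nat_lit 40878080) (nat_lit 12173312)) (I.pos (nat_lit 80297984) (nat_lit 139165696)) (I.mix (nat_lit 77234176) (nat_lit 28999680)) (I.mix (nat_lit 37208064) (nat_lit 66813952)) (I.mix (nat_lit 27246592) (nat_lit 46006272)))
  false (nat_lit 35810374)
def b5_10 : Bx := Bx.mk (St.mk (I.mix (nat_lit 35586048) (nat_lit 75055104)) (I.mix (nat_lit 30621696) (nat_lit 4734976)) (I.mix (nat_lit 9142272) (nat_lit 11812864)) (I.pos (nat_lit 41189376) (nat_lit 82673664)) (I.mix (nat_lit 36814848) (nat_lit 30687232)) (I.mix (nat_lit 23461888) (nat_lit 28934144)) (I.mix (nat_lit 10223616) (nat_lit 10829824)))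
  false (nat_lit 0)
def b5_11 : Bx := Bx.mk (St.mk (I.pos (nat_lit 164020224) (nat_lit 202735616)) (I.mix (nat_lit 18415616) (nat_lit 26525696)) (I.pos (nat_lit 8503296) (nat_lit 68272128)) (I.pos (nat_lit 146702336) (nat_lit 208977920)) (I.mix (nat_lit 89358336) (nat_lit 46252032)) (I.mix (nat_lit 91340800) (nat_lit 42631168)) (I.mix (nat_lit 99680256) (nat_lit 40878080)))
  false (nat_lit 58759285)
def b5_12 : Bx := Bx.mk (St.mk (I.pos (nat_lit 181190656) (nat_lit 283951104)) (I.mix (nat_lit 20807680) (nat_lit 42172416)) (I.mix (nat_lit 28901376) (nat_lit 93274112)) (I.pos (nat_lit 198344704) (nat_lit 364494848)) (I.mix (nat_lit 90013696) (nat_lit 60850176)) (I.mix (nat_lit 65077248) (nat_lit 46399488)) (I.mix (nat_lit 95617024) (nat_lit 76660736)))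
  false (nat_lit 85076567)
def b5_13 : Bx := Bx.mk (St.mk (I.pos (nat_lit 173015040) (nat_lit 229736448)) (I.pos (nat_lit 13008896) (nat_lit 51527680)) (I.pos (nat_lit 38436864) (nat_lit 106217472)) (I.pos (nat_lit 187203584) (nat_lit 246874112)) (I.mix (nat_lit 103006208) (nat_lit 74170368)) (I.mix (nat_lit 92438528) (nat_lit 64684032)) (I.mix (nat_lit 137592832) (nat_lit 79036416)))
  false (nat_lit 70316696)
def t5 : BTr := (BTr.n (BTr.n (BTr.n (BTr.b b5_0) (BTr.n (BTr.b b5_1) (BTr.b b5_2))) (BTr.n (BTr.n (BTr.b b5_3) (BTr.b b5_4)) (BTr.n (BTr.b b5_5) (BTr.b b5_6)))) (BTr.n (BTr.n (BTr.b b5_7) (BTr.n (BTr.b b5_8) (BTr.b b5_9))) (BTr.n (BTr.n (BTr.b b5_10) (BTr.b b5_11)) (BTr.n (BTr.b b5_12) (BTr.b b5_13)))))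
namespace T5
def l0 : Tr := Tr.L (Pth.l (Pth.l (Pth.l Pth.z)))
def l1 : Tr := Tr.L (Pth.l (Pth.l (Pth.r (Pth.l Pth.z))))
def l2 : Tr := Tr.L (Pth.l (Pth.l (Pth.r (Pth.r Pth.z))))
def l3 : Tr := Tr.L (Pth.l (Pth.r (Pth.l (Pth.l Pth.z))))
def l4 : Tr := Tr.L (Pth.l (Pth.r (Pth.l (Pth.r Pth.z))))
def l5 : Tr := Tr.L (Pth.l (Pth.r (Pth.r (Pth.l Pth.z))))
def l6 : Tr := Tr.L (Pth.l (Pth.r (Pth.r (Pth.r Pth.z))))
def l7 : Tr := Tr.L (Pth.r (Pth.l (Pth.l Pth.z)))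
def l8 : Tr := Tr.L (Pth.r (Pth.l (Pth.r (Pth.l Pth.z))))
def l9 : Tr := Tr.L (Pth.r (Pth.l (Pth.r (Pth.r Pth.z))))
def l10 : Tr := Tr.L (Pth.r (Pth.r (Pth.l (Pth.l Pth.z))))
def l11 : Tr := Tr.L (Pth.r (Pth.r (Pth.l (Pth.r Pth.z))))
def l12 : Tr := Tr.L (Pth.r (Pth.r (Pth.r (Pth.l Pth.z))))
def l13 : Tr := Tr.L (Pth.r (Pth.r (Pth.r (Pth.r Pth.z))))
end T5
theorem bx0_0 : BoxOK sI cl5 cl7 cl9 t2 t4 b0_0 :=
  box_mk (TrL.c (I.pos (nat_lit 0) (nat_lit 0)) (xa (xb T2.l11 (xa (xb T2.l0 T2.l0) T2.l11)) (xb (xa T2.l0 T2.l0) (xa T2.l0 T2.l0)))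
  (TrL.c (I.pos (nat_lit 0) (nat_lit 0)) (xa T4.l1 (xb T4.l1 T4.l1))
  (TrL.c (I.pos (nat_lit 0) (nat_lit 0)) T2.l1
  (TrL.c (I.pos (nat_lit 0) (nat_lit 0)) T4.l2
  (TrL.c (I.pos (nat_lit 0) (nat_lit 0)) (xa (xb T4.l3 T4.l3) (xb T4.l3 T4.l3))
  (TrL.c (I.pos (nat_lit 0) (nat_lit 0)) (xa T2.l2 T2.l2)
  (TrL.c (I.pos (nat_lit 0) (nat_lit 0)) T4.l4
  (TrL.c (I.pos (nat_lit 0) (nat_lit 0)) T2.l3
  TrL.n)))))))) (by decide +kernel)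
theorem bx0_1 : BoxOK sI cl5 cl7 cl9 t2 t4 b0_1 :=
  box_mk (TrL.c (I.pos (nat_lit 0) (nat_lit 0)) (xa (xa T2.l8 T2.l8) (xa T2.l8 (xb T2.l8 T2.l8)))
  (TrL.c (I.pos (nat_lit 0) (nat_lit 0)) T4.l1
  (TrL.c (I.pos (nat_lit 0) (nat_lit 0)) T2.l1
  (TrL.c (I.pos (nat_lit 0) (nat_lit 0)) T4.l2
  (TrL.c (I.pos (nat_lit 0) (nat_lit 0)) T4.l8
  (TrL.c (I.pos (nat_lit 0) (nat_lit 0)) T2.l2
  (TrL.c (I.pos (nat_lit 0) (nat_lit 0)) T4.l4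
  (TrL.c (I.pos (nat_lit 0) (nat_lit 0)) T2.l3
  TrL.n)))))))) (by decide +kernel)
theorem bx0_2 : BoxOK sI cl5 cl7 cl9 t2 t4 b0_2 :=
  box_mk (TrL.c (I.pos (nat_lit 0) (nat_lit 0)) T2.l8
  (TrL.c (I.pos (nat_lit 0) (nat_lit 0)) T4.l1
  (TrL.c (I.pos (nat_lit 0) (nat_lit 0)) T2.l1
  (TrL.c (I.pos (nat_lit 0) (nat_lit 0)) T4.l2
  (TrL.c (I.pos (nat_lit 0) (nat_lit 0)) T4.l8
  (TrL.c (I.pos (nat_lit 0) (nat_lit 0)) T2.l2
  (TrL.c (I.pos (nat_lit 0) (nat_lit 0)) T4.l4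
  (TrL.c (I.pos (nat_lit 0) (nat_lit 0)) T2.l3
  TrL.n)))))))) (by decide +kernel)
theorem bx0_3 : BoxOK sI cl5 cl7 cl9 t2 t4 b0_3 :=
  box_mk (TrL.c (I.pos (nat_lit 0) (nat_lit 0)) (xa (xa T2.l8 T2.l8) T2.l8)
  (TrL.c (I.pos (nat_lit 0) (nat_lit 0)) T4.l1
  (TrL.c (I.pos (nat_lit 0) (nat_lit 0)) T2.l1
  (TrL.c (I.pos (nat_lit 0) (nat_lit 0)) T4.l2
  (TrL.c (I.pos (nat_lit 0) (nat_lit 0)) T4.l8
  (TrL.c (I.pos (nat_lit 0) (nat_lit 0)) T2.l2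
  (TrL.c (I.pos (nat_lit 0) (nat_lit 0)) T4.l4
  (TrL.c (I.pos (nat_lit 0) (nat_lit 0)) T2.l3
  TrL.n)))))))) (by decide +kernel)
theorem bx0_4 : BoxOK sI cl5 cl7 cl9 t2 t4 b0_4 :=
  box_mk (TrL.c (I.pos (nat_lit 0) (nat_lit 0)) (xa T2.l0 (xb T2.l0 (xa T2.l0 T2.l0)))
  (TrL.c (I.pos (nat_lit 0) (nat_lit 0)) (xa T4.l1 T4.l1)
  (TrL.c (I.pos (nat_lit 0) (nat_lit 0)) T2.l1
  (TrL.c (I.pos (nat_lit 0) (nat_lit 0)) T4.l2
  (TrL.c (I.pos (nat_lit 0) (nat_lit 0)) (xa T4.l3 (xb (xa T4.l3 T4.l3) (xa T4.l3 T4.l3)))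
  (TrL.c (I.pos (nat_lit 0) (nat_lit 0)) (xa T2.l2 T2.l2)
  (TrL.c (I.pos (nat_lit 0) (nat_lit 0)) T4.l4
  (TrL.c (I.pos (nat_lit 0) (nat_lit 0)) T2.l3
  TrL.n)))))))) (by decide +kernel)
theorem bx0_5 : BoxOK sI cl5 cl7 cl9 t2 t4 b0_5 :=
  box_mk (TrL.c (I.pos (nat_lit 0) (nat_lit 0)) T2.l8
  (TrL.c (I.pos (nat_lit 0) (nat_lit 0)) T4.l1
  (TrL.c (I.pos (nat_lit 0) (nat_lit 0)) T2.l1
  (TrL.c (I.pos (nat_lit 0) (nat_lit 0)) T4.l2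
  (TrL.c (I.pos (nat_lit 0) (nat_lit 0)) T4.l8
  (TrL.c (I.pos (nat_lit 0) (nat_lit 0)) T2.l2
  (TrL.c (I.pos (nat_lit 0) (nat_lit 0)) T4.l4
  (TrL.c (I.pos (nat_lit 0) (nat_lit 0)) T2.l3
  TrL.n)))))))) (by decide +kernel)
theorem bx0_6 : BoxOK sI cl5 cl7 cl9 t2 t4 b0_6 :=
  box_mk (TrL.c (I.pos (nat_lit 0) (nat_lit 0)) (xa T2.l8 T2.l8)
  (TrL.c (I.pos (nat_lit 0) (nat_lit 0)) T4.l1
  (TrL.c (I.pos (nat_lit 0) (nat_lit 0)) T2.l1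
  (TrL.c (I.pos (nat_lit 0) (nat_lit 0)) T4.l2
  (TrL.c (I.pos (nat_lit 0) (nat_lit 0)) (xa T4.l8 T4.l8)
  (TrL.c (I.pos (nat_lit 0) (nat_lit 0)) T2.l2
  (TrL.c (I.pos (nat_lit 0) (nat_lit 0)) T4.l4
  (TrL.c (I.pos (nat_lit 0) (nat_lit 0)) T2.l3
  TrL.n)))))))) (by decide +kernel)
theorem bx0_7 : BoxOK sI cl5 cl7 cl9 t2 t4 b0_7 :=
  box_mk (TrL.c (I.pos (nat_lit 0) (nat_lit 0)) (xa (xa (xb T2.l8 T2.l8) T2.l8) T2.l8)
  (TrL.c (I.pos (nat_lit 0) (nat_lit 0)) (xa T4.l1 T4.l1)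
  (TrL.c (I.pos (nat_lit 0) (nat_lit 0)) T2.l1
  (TrL.c (I.pos (nat_lit 0) (nat_lit 0)) T4.l2
  (TrL.c (I.pos (nat_lit 0) (nat_lit 0)) (xa T4.l8 T4.l8)
  (TrL.c (I.pos (nat_lit 0) (nat_lit 0)) T2.l2
  (TrL.c (I.pos (nat_lit 0) (nat_lit 0)) T4.l4
  (TrL.c (I.pos (nat_lit 0) (nat_lit 0)) T2.l3
  TrL.n)))))))) (by decide +kernel)
theorem bx0_8 : BoxOK sI cl5 cl7 cl9 t2 t4 b0_8 :=
  box_mk (TrL.c (I.pos (nat_lit 0) (nat_lit 0)) (xb (xa T2.l11 T2.l11) (xa (xb T2.l11 T2.l11) (xb T2.l11 T2.l11)))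
  (TrL.c (I.pos (nat_lit 0) (nat_lit 0)) (xb T4.l1 T4.l1)
  (TrL.c (I.pos (nat_lit 0) (nat_lit 0)) T2.l1
  (TrL.c (I.pos (nat_lit 0) (nat_lit 0)) T4.l2
  (TrL.c (I.pos (nat_lit 0) (nat_lit 0)) (xb T4.l11 (xa T4.l11 T4.l11))
  (TrL.c (I.pos (nat_lit 0) (nat_lit 0)) T2.l2
  (TrL.c (I.pos (nat_lit 0) (nat_lit 0)) T4.l4
  (TrL.c (I.pos (nat_lit 0) (nat_lit 0)) T2.l3
  TrL.n)))))))) (by decide +kernel)
theorem bx0_9 : BoxOK sI cl5 cl7 cl9 t2 t4 b0_9 :=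
  box_mk (TrL.c (I.pos (nat_lit 0) (nat_lit 0)) (xa (xa (xb T2.l8 (xa T2.l8 T2.l8)) (xb T2.l8 T2.l8)) (xa T2.l8 T2.l8))
  (TrL.c (I.pos (nat_lit 0) (nat_lit 0)) (xa T4.l1 T4.l1)
  (TrL.c (I.pos (nat_lit 0) (nat_lit 0)) T2.l1
  (TrL.c (I.pos (nat_lit 0) (nat_lit 0)) T4.l2
  (TrL.c (I.pos (nat_lit 0) (nat_lit 0)) (xa T4.l8 T4.l8)
  (TrL.c (I.pos (nat_lit 0) (nat_lit 0)) T2.l2
  (TrL.c (I.pos (nat_lit 0) (nat_lit 0)) T4.l4
  (TrL.c (I.pos (nat_lit 0) (nat_lit 0)) T2.l3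
  TrL.n)))))))) (by decide +kernel)
theorem bx0_10 : BoxOK sI cl5 cl7 cl9 t2 t4 b0_10 :=
  box_mk (TrL.c (I.pos (nat_lit 0) (nat_lit 0)) T2.l8
  (TrL.c (I.pos (nat_lit 0) (nat_lit 0)) T4.l1
  (TrL.c (I.pos (nat_lit 0) (nat_lit 0)) T2.l1
  (TrL.c (I.pos (nat_lit 0) (nat_lit 0)) T4.l2
  (TrL.c (I.pos (nat_lit 0) (nat_lit 0)) T4.l8
  (TrL.c (I.pos (nat_lit 0) (nat_lit 0)) T2.l2
  (TrL.c (I.pos (nat_lit 0) (nat_lit 0)) T4.l4
  (TrL.c (I.pos (nat_lit 0) (nat_lit 0)) T2.l3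
  TrL.n)))))))) (by decide +kernel)
theorem bx0_11 : BoxOK sI cl5 cl7 cl9 t2 t4 b0_11 :=
  box_mk (TrL.c (I.pos (nat_lit 0) (nat_lit 0)) (xa (xb T2.l0 T2.l0) (xb T2.l0 T2.l0))
  (TrL.c (I.pos (nat_lit 0) (nat_lit 0)) (xa T4.l1 T4.l1)
  (TrL.c (I.pos (nat_lit 0) (nat_lit 0)) T2.l1
  (TrL.c (I.pos (nat_lit 0) (nat_lit 0)) T4.l2
  (TrL.c (I.pos (nat_lit 0) (nat_lit 0)) (xa T4.l3 (xb T4.l3 T4.l3))
  (TrL.c (I.pos (nat_lit 0) (nat_lit 0)) T2.l2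
  (TrL.c (I.pos (nat_lit 0) (nat_lit 0)) T4.l4
  (TrL.c (I.pos (nat_lit 0) (nat_lit 0)) T2.l3
  TrL.n)))))))) (by decide +kernel)
theorem bx0_12 : BoxOK sI cl5 cl7 cl9 t2 t4 b0_12 :=
  box_mk (TrL.c (I.pos (nat_lit 0) (nat_lit 0)) (xa (xb T2.l0 T2.l11) T2.l0)
  (TrL.c (I.pos (nat_lit 0) (nat_lit 0)) T4.l1
  (TrL.c (I.pos (nat_lit 0) (nat_lit 0)) T2.l1
  (TrL.c (I.pos (nat_lit 0) (nat_lit 0)) T4.l2
  (TrL.c (I.pos (nat_lit 0) (nat_lit 0)) (xa T4.l11 T4.l0)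
  (TrL.c (I.pos (nat_lit 0) (nat_lit 0)) T2.l2
  (TrL.c (I.pos (nat_lit 0) (nat_lit 0)) T4.l4
  (TrL.c (I.pos (nat_lit 0) (nat_lit 0)) T2.l3
  TrL.n)))))))) (by decide +kernel)
theorem bx0_13 : BoxOK sI cl5 cl7 cl9 t2 t4 b0_13 :=
  box_mk (TrL.c (I.pos (nat_lit 0) (nat_lit 0)) T2.l11
  (TrL.c (I.pos (nat_lit 0) (nat_lit 0)) T4.l1
  (TrL.c (I.pos (nat_lit 0) (nat_lit 0)) T2.l1
  (TrL.c (I.pos (nat_lit 0) (nat_lit 0)) T4.l2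
  (TrL.c (I.pos (nat_lit 0) (nat_lit 0)) T4.l11
  (TrL.c (I.pos (nat_lit 0) (nat_lit 0)) T2.l2
  (TrL.c (I.pos (nat_lit 0) (nat_lit 0)) T4.l4
  (TrL.c (I.pos (nat_lit 0) (nat_lit 0)) T2.l3
  TrL.n)))))))) (by decide +kernel)
theorem sv0 : StarV sI cl5 cl7 cl9 t2 t4 t0 :=
  (bt_n (bt_n (bt_n (bt_b bx0_0) (bt_n (bt_b bx0_1) (bt_b bx0_2))) (bt_n (bt_n (bt_b bx0_3) (bt_b bx0_4)) (bt_n (bt_b bx0_5) (bt_b bx0_6)))) (bt_n (bt_n (bt_b bx0_7) (bt_n (bt_b bx0_8) (bt_b bx0_9))) (bt_n (bt_n (bt_b bx0_10) (bt_b bx0_11)) (bt_n (bt_b bx0_12) (bt_b bx0_13)))))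
def S0 : StarD := StarD.mk cl5 cl7 cl9 2 4 t0
theorem bx1_0 : BoxOK sI cl5 cl9 cl7 t4 t2 b1_0 :=
  box_mk (TrL.c (I.pos (nat_lit 0) (nat_lit 0)) (xa (xb (xa T4.l10 T4.l0) (xa (xb T4.l0 T4.l0) T4.l0)) (xb (xa T4.l0 T4.l0) (xa T4.l0 T4.l0)))
  (TrL.c (I.pos (nat_lit 0) (nat_lit 0)) (xa (xb T2.l4 T2.l4) (xb T2.l4 T2.l4))
  (TrL.c (I.pos (nat_lit 0) (nat_lit 0)) T4.l5
  (TrL.c (I.pos (nat_lit 0) (nat_lit 0)) T2.l5
  (TrL.c (I.pos (nat_lit 0) (nat_lit 0)) (xa (xb T2.l6 T2.l6) (xb T2.l6 T2.l6))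
  (TrL.c (I.pos (nat_lit 0) (nat_lit 0)) (xa T4.l6 T4.l6)
  (TrL.c (I.pos (nat_lit 0) (nat_lit 0)) T2.l7
  (TrL.c (I.pos (nat_lit 0) (nat_lit 0)) T4.l7
  TrL.n)))))))) (by decide +kernel)
theorem bx1_1 : BoxOK sI cl5 cl9 cl7 t4 t2 b1_1 :=
  box_mk (TrL.c (I.pos (nat_lit 0) (nat_lit 0)) (xa (xa T4.l9 T4.l9) (xa T4.l9 T4.l9))
  (TrL.c (I.pos (nat_lit 0) (nat_lit 0)) T2.l4
  (TrL.c (I.pos (nat_lit 0) (nat_lit 0)) T4.l5
  (TrL.c (I.pos (nat_lit 0) (nat_lit 0)) T2.l5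
  (TrL.c (I.pos (nat_lit 0) (nat_lit 0)) (xa T2.l9 T2.l9)
  (TrL.c (I.pos (nat_lit 0) (nat_lit 0)) T4.l6
  (TrL.c (I.pos (nat_lit 0) (nat_lit 0)) T2.l7
  (TrL.c (I.pos (nat_lit 0) (nat_lit 0)) T4.l7
  TrL.n)))))))) (by decide +kernel)
theorem bx1_2 : BoxOK sI cl5 cl9 cl7 t4 t2 b1_2 :=
  box_mk (TrL.c (I.pos (nat_lit 0) (nat_lit 0)) T4.l9
  (TrL.c (I.pos (nat_lit 0) (nat_lit 0)) T2.l4
  (TrL.c (I.pos (nat_lit 0) (nat_lit 0)) T4.l5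
  (TrL.c (I.pos (nat_lit 0) (nat_lit 0)) T2.l5
  (TrL.c (I.pos (nat_lit 0) (nat_lit 0)) T2.l9
  (TrL.c (I.pos (nat_lit 0) (nat_lit 0)) T4.l6
  (TrL.c (I.pos (nat_lit 0) (nat_lit 0)) T2.l7
  (TrL.c (I.pos (nat_lit 0) (nat_lit 0)) T4.l7
  TrL.n)))))))) (by decide +kernel)
theorem bx1_3 : BoxOK sI cl5 cl9 cl7 t4 t2 b1_3 :=
  box_mk (TrL.c (I.pos (nat_lit 0) (nat_lit 0)) T4.l9
  (TrL.c (I.pos (nat_lit 0) (nat_lit 0)) (xa T2.l4 T2.l4)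
  (TrL.c (I.pos (nat_lit 0) (nat_lit 0)) T4.l5
  (TrL.c (I.pos (nat_lit 0) (nat_lit 0)) T2.l5
  (TrL.c (I.pos (nat_lit 0) (nat_lit 0)) (xa T2.l9 T2.l9)
  (TrL.c (I.pos (nat_lit 0) (nat_lit 0)) T4.l6
  (TrL.c (I.pos (nat_lit 0) (nat_lit 0)) T2.l7
  (TrL.c (I.pos (nat_lit 0) (nat_lit 0)) T4.l7
  TrL.n)))))))) (by decide +kernel)
theorem bx1_4 : BoxOK sI cl5 cl9 cl7 t4 t2 b1_4 :=
  box_mk (TrL.c (I.pos (nat_lit 0) (nat_lit 0)) (xa T4.l0 (xb T4.l0 T4.l0))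
  (TrL.c (I.pos (nat_lit 0) (nat_lit 0)) (xa T2.l4 T2.l4)
  (TrL.c (I.pos (nat_lit 0) (nat_lit 0)) T4.l5
  (TrL.c (I.pos (nat_lit 0) (nat_lit 0)) T2.l5
  (TrL.c (I.pos (nat_lit 0) (nat_lit 0)) (xa T2.l6 (xb (xa T2.l6 T2.l6) (xa T2.l6 T2.l6)))
  (TrL.c (I.pos (nat_lit 0) (nat_lit 0)) (xa T4.l6 T4.l1)
  (TrL.c (I.pos (nat_lit 0) (nat_lit 0)) T2.l7
  (TrL.c (I.pos (nat_lit 0) (nat_lit 0)) T4.l7
  TrL.n)))))))) (by decide +kernel)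
theorem bx1_5 : BoxOK sI cl5 cl9 cl7 t4 t2 b1_5 :=
  box_mk (TrL.c (I.pos (nat_lit 0) (nat_lit 0)) T4.l9
  (TrL.c (I.pos (nat_lit 0) (nat_lit 0)) T2.l4
  (TrL.c (I.pos (nat_lit 0) (nat_lit 0)) T4.l5
  (TrL.c (I.pos (nat_lit 0) (nat_lit 0)) T2.l5
  (TrL.c (I.pos (nat_lit 0) (nat_lit 0)) T2.l9
  (TrL.c (I.pos (nat_lit 0) (nat_lit 0)) T4.l6
  (TrL.c (I.pos (nat_lit 0) (nat_lit 0)) T2.l7
  (TrL.c (I.pos (nat_lit 0) (nat_lit 0)) T4.l7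
  TrL.n)))))))) (by decide +kernel)
theorem bx1_6 : BoxOK sI cl5 cl9 cl7 t4 t2 b1_6 :=
  box_mk (TrL.c (I.pos (nat_lit 0) (nat_lit 0)) T4.l9
  (TrL.c (I.pos (nat_lit 0) (nat_lit 0)) T2.l4
  (TrL.c (I.pos (nat_lit 0) (nat_lit 0)) T4.l5
  (TrL.c (I.pos (nat_lit 0) (nat_lit 0)) T2.l5
  (TrL.c (I.pos (nat_lit 0) (nat_lit 0)) T2.l9
  (TrL.c (I.pos (nat_lit 0) (nat_lit 0)) T4.l6
  (TrL.c (I.pos (nat_lit 0) (nat_lit 0)) T2.l7
  (TrL.c (I.pos (nat_lit 0) (nat_lit 0)) T4.l7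
  TrL.n)))))))) (by decide +kernel)
theorem bx1_7 : BoxOK sI cl5 cl9 cl7 t4 t2 b1_7 :=
  box_mk (TrL.c (I.pos (nat_lit 0) (nat_lit 0)) (xa T4.l9 T4.l9)
  (TrL.c (I.pos (nat_lit 0) (nat_lit 0)) T2.l4
  (TrL.c (I.pos (nat_lit 0) (nat_lit 0)) T4.l5
  (TrL.c (I.pos (nat_lit 0) (nat_lit 0)) T2.l5
  (TrL.c (I.pos (nat_lit 0) (nat_lit 0)) (xa T2.l9 T2.l9)
  (TrL.c (I.pos (nat_lit 0) (nat_lit 0)) T4.l6
  (TrL.c (I.pos (nat_lit 0) (nat_lit 0)) T2.l7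
  (TrL.c (I.pos (nat_lit 0) (nat_lit 0)) T4.l7
  TrL.n)))))))) (by decide +kernel)
theorem bx1_8 : BoxOK sI cl5 cl9 cl7 t4 t2 b1_8 :=
  box_mk (TrL.c (I.pos (nat_lit 0) (nat_lit 0)) (xa (xa (xb T4.l9 T4.l9) T4.l9) T4.l9)
  (TrL.c (I.pos (nat_lit 0) (nat_lit 0)) (xa T2.l4 T2.l4)
  (TrL.c (I.pos (nat_lit 0) (nat_lit 0)) T4.l5
  (TrL.c (I.pos (nat_lit 0) (nat_lit 0)) T2.l5
  (TrL.c (I.pos (nat_lit 0) (nat_lit 0)) (xa T2.l9 T2.l9)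
  (TrL.c (I.pos (nat_lit 0) (nat_lit 0)) T4.l6
  (TrL.c (I.pos (nat_lit 0) (nat_lit 0)) T2.l7
  (TrL.c (I.pos (nat_lit 0) (nat_lit 0)) T4.l7
  TrL.n)))))))) (by decide +kernel)
theorem bx1_9 : BoxOK sI cl5 cl9 cl7 t4 t2 b1_9 :=
  box_mk (TrL.c (I.pos (nat_lit 0) (nat_lit 0)) (xb (xa T4.l10 T4.l10) (xa (xb T4.l10 T4.l10) (xb T4.l10 T4.l10)))
  (TrL.c (I.pos (nat_lit 0) (nat_lit 0)) (xb T2.l4 T2.l4)
  (TrL.c (I.pos (nat_lit 0) (nat_lit 0)) T4.l5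
  (TrL.c (I.pos (nat_lit 0) (nat_lit 0)) T2.l5
  (TrL.c (I.pos (nat_lit 0) (nat_lit 0)) (xb T2.l10 T2.l10)
  (TrL.c (I.pos (nat_lit 0) (nat_lit 0)) T4.l6
  (TrL.c (I.pos (nat_lit 0) (nat_lit 0)) T2.l7
  (TrL.c (I.pos (nat_lit 0) (nat_lit 0)) T4.l7
  TrL.n)))))))) (by decide +kernel)
theorem bx1_10 : BoxOK sI cl5 cl9 cl7 t4 t2 b1_10 :=
  box_mk (TrL.c (I.pos (nat_lit 0) (nat_lit 0)) (xa (xa (xb T4.l9 T4.l9) T4.l9) (xa T4.l9 (xb T4.l9 T4.l9)))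
  (TrL.c (I.pos (nat_lit 0) (nat_lit 0)) (xa T2.l4 T2.l4)
  (TrL.c (I.pos (nat_lit 0) (nat_lit 0)) T4.l5
  (TrL.c (I.pos (nat_lit 0) (nat_lit 0)) T2.l5
  (TrL.c (I.pos (nat_lit 0) (nat_lit 0)) (xa T2.l9 T2.l9)
  (TrL.c (I.pos (nat_lit 0) (nat_lit 0)) T4.l6
  (TrL.c (I.pos (nat_lit 0) (nat_lit 0)) T2.l7
  (TrL.c (I.pos (nat_lit 0) (nat_lit 0)) T4.l7
  TrL.n)))))))) (by decide +kernel)
theorem bx1_11 : BoxOK sI cl5 cl9 cl7 t4 t2 b1_11 :=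
  box_mk (TrL.c (I.pos (nat_lit 0) (nat_lit 0)) (xa (xb T4.l0 T4.l10) T4.l0)
  (TrL.c (I.pos (nat_lit 0) (nat_lit 0)) T2.l4
  (TrL.c (I.pos (nat_lit 0) (nat_lit 0)) T4.l5
  (TrL.c (I.pos (nat_lit 0) (nat_lit 0)) T2.l5
  (TrL.c (I.pos (nat_lit 0) (nat_lit 0)) (xa T2.l10 T2.l0)
  (TrL.c (I.pos (nat_lit 0) (nat_lit 0)) T4.l6
  (TrL.c (I.pos (nat_lit 0) (nat_lit 0)) T2.l7
  (TrL.c (I.pos (nat_lit 0) (nat_lit 0)) T4.l7
  TrL.n)))))))) (by decide +kernel)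
theorem bx1_12 : BoxOK sI cl5 cl9 cl7 t4 t2 b1_12 :=
  box_mk (TrL.c (I.pos (nat_lit 0) (nat_lit 0)) (xb T4.l10 T4.l10)
  (TrL.c (I.pos (nat_lit 0) (nat_lit 0)) T2.l4
  (TrL.c (I.pos (nat_lit 0) (nat_lit 0)) T4.l5
  (TrL.c (I.pos (nat_lit 0) (nat_lit 0)) T2.l5
  (TrL.c (I.pos (nat_lit 0) (nat_lit 0)) T2.l10
  (TrL.c (I.pos (nat_lit 0) (nat_lit 0)) T4.l6
  (TrL.c (I.pos (nat_lit 0) (nat_lit 0)) T2.l7
  (TrL.c (I.pos (nat_lit 0) (nat_lit 0)) T4.l7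
  TrL.n)))))))) (by decide +kernel)
theorem bx1_13 : BoxOK sI cl5 cl9 cl7 t4 t2 b1_13 :=
  box_mk (TrL.c (I.pos (nat_lit 0) (nat_lit 0)) (xa (xb T4.l0 T4.l0) (xb T4.l0 T4.l0))
  (TrL.c (I.pos (nat_lit 0) (nat_lit 0)) (xa T2.l4 T2.l4)
  (TrL.c (I.pos (nat_lit 0) (nat_lit 0)) T4.l5
  (TrL.c (I.pos (nat_lit 0) (nat_lit 0)) T2.l5
  (TrL.c (I.pos (nat_lit 0) (nat_lit 0)) (xa T2.l6 (xb T2.l6 T2.l6))
  (TrL.c (I.pos (nat_lit 0) (nat_lit 0)) T4.l6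
  (TrL.c (I.pos (nat_lit 0) (nat_lit 0)) T2.l7
  (TrL.c (I.pos (nat_lit 0) (nat_lit 0)) T4.l7
  TrL.n)))))))) (by decide +kernel)
theorem sv1 : StarV sI cl5 cl9 cl7 t4 t2 t1 :=
  (bt_n (bt_n (bt_n (bt_b bx1_0) (bt_n (bt_b bx1_1) (bt_b bx1_2))) (bt_n (bt_n (bt_b bx1_3) (bt_b bx1_4)) (bt_n (bt_b bx1_5) (bt_b bx1_6)))) (bt_n (bt_n (bt_b bx1_7) (bt_n (bt_b bx1_8) (bt_b bx1_9))) (bt_n (bt_n (bt_b bx1_10) (bt_b bx1_11)) (bt_n (bt_b bx1_12) (bt_b bx1_13)))))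
def S1 : StarD := StarD.mk cl5 cl9 cl7 4 2 t1
theorem bx2_0 : BoxOK sI cl7 cl5 cl9 t0 t5 b2_0 :=
  box_mk (TrL.c (I.pos (nat_lit 0) (nat_lit 0)) (xa (xb T0.l0 (xa T0.l0 T0.l0)) (xb T0.l0 (xa T0.l0 T0.l0)))
  (TrL.c (I.pos (nat_lit 0) (nat_lit 0)) (xa (xb T5.l1 T5.l1) (xb T5.l1 T5.l1))
  (TrL.c (I.pos (nat_lit 0) (nat_lit 111196574)) (xR T0.l1 T0.l1)
  (TrL.c (I.pos (nat_lit 0) (nat_lit 77433728)) T5.l2
  (TrL.c (I.pos (nat_lit 0) (nat_lit 0)) (xb (xa T5.l3 T5.l3) (xa T5.l3 (xk T5.l3 T5.l3)))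
  (TrL.c (I.pos (nat_lit 0) (nat_lit 0)) T0.l2
  (TrL.c (I.mix (nat_lit 29511666) (nat_lit 77433728)) (xR T5.l4 T5.l4)
  (TrL.c (I.mix (nat_lit 29511666) (nat_lit 46070178)) T0.l7
  TrL.n)))))))) (by decide +kernel)
theorem bx2_1 : BoxOK sI cl7 cl5 cl9 t0 t5 b2_1 :=
  box_mk (TrL.c (I.pos (nat_lit 0) (nat_lit 0)) (xb T0.l4 T0.l4)
  (TrL.c (I.pos (nat_lit 0) (nat_lit 0)) T5.l1
  (TrL.c (I.pos (nat_lit 0) (nat_lit 111196574)) T0.l1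
  (TrL.c (I.pos (nat_lit 0) (nat_lit 77433728)) T5.l2
  (TrL.c (I.pos (nat_lit 0) (nat_lit 0)) T5.l5
  (TrL.c (I.pos (nat_lit 0) (nat_lit 0)) T0.l2
  (TrL.c (I.mix (nat_lit 29511666) (nat_lit 77433728)) T5.l4
  (TrL.c (I.mix (nat_lit 29511666) (nat_lit 46070178)) T0.l3
  TrL.n)))))))) (by decide +kernel)
theorem bx2_2 : BoxOK sI cl7 cl5 cl9 t0 t5 b2_2 :=
  box_mk (TrL.c (I.pos (nat_lit 0) (nat_lit 0)) (xb T0.l4 T0.l4)
  (TrL.c (I.pos (nat_lit 0) (nat_lit 0)) T5.l1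
  (TrL.c (I.pos (nat_lit 0) (nat_lit 111196574)) T0.l1
  (TrL.c (I.pos (nat_lit 0) (nat_lit 77433728)) T5.l2
  (TrL.c (I.pos (nat_lit 0) (nat_lit 0)) T5.l5
  (TrL.c (I.pos (nat_lit 0) (nat_lit 0)) T0.l2
  (TrL.c (I.mix (nat_lit 29511666) (nat_lit 77433728)) T5.l4
  (TrL.c (I.mix (nat_lit 29511666) (nat_lit 46070178)) T0.l3
  TrL.n)))))))) (by decide +kernel)
theorem bx2_3 : BoxOK sI cl7 cl5 cl9 t0 t5 b2_3 :=
  box_mk (TrL.c (I.pos (nat_lit 0) (nat_lit 0)) T5.l1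
  (TrL.c (I.pos (nat_lit 0) (nat_lit 0)) T0.l1
  (TrL.c (I.mix (nat_lit 29511666) (nat_lit 77433728)) T5.l6
  (TrL.c (I.mix (nat_lit 29511666) (nat_lit 46070178)) T0.l9
  TrL.n)))) (by decide +kernel)
theorem bx2_4 : BoxOK sI cl7 cl5 cl9 t0 t5 b2_4 :=
  box_mk (TrL.c (I.pos (nat_lit 0) (nat_lit 0)) (xa T0.l4 T0.l4)
  (TrL.c (I.pos (nat_lit 0) (nat_lit 0)) T5.l1
  (TrL.c (I.pos (nat_lit 0) (nat_lit 111196574)) (xR T0.l1 T0.l1)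
  (TrL.c (I.pos (nat_lit 0) (nat_lit 77433728)) T5.l2
  (TrL.c (I.pos (nat_lit 0) (nat_lit 0)) (xk (xa T5.l5 T5.l5) (xa T5.l5 T5.l5))
  (TrL.c (I.pos (nat_lit 0) (nat_lit 0)) T0.l2
  (TrL.c (I.mix (nat_lit 29511666) (nat_lit 77433728)) (xR T5.l4 T5.l4)
  (TrL.c (I.mix (nat_lit 29511666) (nat_lit 46070178)) T0.l3
  TrL.n)))))))) (by decide +kernel)
theorem bx2_5 : BoxOK sI cl7 cl5 cl9 t0 t5 b2_5 :=
  box_mk (TrL.c (I.pos (nat_lit 0) (nat_lit 0)) T5.l7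
  (TrL.c (I.pos (nat_lit 0) (nat_lit 0)) T0.l1
  (TrL.c (I.mix (nat_lit 29511666) (nat_lit 77433728)) T5.l6
  (TrL.c (I.mix (nat_lit 29511666) (nat_lit 46070178)) T0.l9
  TrL.n)))) (by decide +kernel)
theorem bx2_6 : BoxOK sI cl7 cl5 cl9 t0 t5 b2_6 :=
  box_mk (TrL.c (I.pos (nat_lit 0) (nat_lit 0)) (xb (xa T0.l11 T0.l11) (xa T0.l11 T0.l11))
  (TrL.c (I.pos (nat_lit 0) (nat_lit 0)) (xk T5.l1 T5.l1)
  (TrL.c (I.pos (nat_lit 0) (nat_lit 111196574)) (xR T0.l1 T0.l1)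
  (TrL.c (I.pos (nat_lit 0) (nat_lit 77433728)) T5.l2
  (TrL.c (I.pos (nat_lit 0) (nat_lit 0)) (xk T5.l3 T5.l3)
  (TrL.c (I.pos (nat_lit 0) (nat_lit 0)) T0.l2
  (TrL.c (I.mix (nat_lit 29511666) (nat_lit 77433728)) (xR T5.l4 T5.l4)
  (TrL.c (I.mix (nat_lit 29511666) (nat_lit 46070178)) T0.l7
  TrL.n)))))))) (by decide +kernel)
theorem bx2_7 : BoxOK sI cl7 cl5 cl9 t0 t5 b2_7 :=
  box_mk (TrL.c (I.pos (nat_lit 0) (nat_lit 0)) T0.l4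
  (TrL.c (I.pos (nat_lit 0) (nat_lit 0)) T5.l7
  (TrL.c (I.pos (nat_lit 0) (nat_lit 111196574)) T0.l1
  (TrL.c (I.pos (nat_lit 0) (nat_lit 77433728)) T5.l6
  (TrL.c (I.pos (nat_lit 0) (nat_lit 0)) T5.l5
  (TrL.c (I.pos (nat_lit 0) (nat_lit 0)) T0.l2
  (TrL.c (I.mix (nat_lit 29511666) (nat_lit 77433728)) T5.l4
  (TrL.c (I.mix (nat_lit 29511666) (nat_lit 46070178)) T0.l3
  TrL.n)))))))) (by decide +kernel)
theorem bx2_8 : BoxOK sI cl7 cl5 cl9 t0 t5 b2_8 :=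
  box_mk (TrL.c (I.pos (nat_lit 0) (nat_lit 0)) (xa (xb (xa T0.l0 T0.l0) (xa T0.l0 T0.l0)) (xb (xa T0.l0 T0.l0) (xa T0.l0 T0.l0)))
  (TrL.c (I.pos (nat_lit 0) (nat_lit 0)) (xa (xb T5.l1 T5.l1) (xb T5.l9 (xk T5.l1 T5.l1)))
  (TrL.c (I.pos (nat_lit 0) (nat_lit 111196574)) (xR T0.l1 T0.l9)
  (TrL.c (I.pos (nat_lit 0) (nat_lit 77433728)) T5.l2
  (TrL.c (I.pos (nat_lit 0) (nat_lit 0)) (xa (xb (xk (xa T5.l3 T5.l0) (xa T5.l3 T5.l0)) (xk T5.l3 T5.l3)) (xb (xk (xa (xb T5.l0 T5.l3) (xb (xk T5.l0 T5.l0) (xk T5.l3 T5.l3))) (xa (xb T5.l0 T5.l3) (xb (xk T5.l0 T5.l0) T5.l3))) (xk (xa T5.l3 (xb (xk T5.l3 T5.l3) (xk T5.l3 T5.l3))) (xa T5.l3 (xb (xk T5.l3 T5.l3) (xk T5.l3 T5.l3))))))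
  (TrL.c (I.pos (nat_lit 0) (nat_lit 0)) (xk (xb (xa T0.l2 T0.l2) T0.l2) (xa T0.l2 T0.l2))
  (TrL.c (I.mix (nat_lit 29511666) (nat_lit 77433728)) (xR T5.l4 (xR T5.l4 T5.l4))
  (TrL.c (I.mix (nat_lit 29511666) (nat_lit 46070178)) T0.l7
  TrL.n)))))))) (by decide +kernel)
theorem bx2_9 : BoxOK sI cl7 cl5 cl9 t0 t5 b2_9 :=
  box_mk (TrL.c (I.pos (nat_lit 0) (nat_lit 0)) (xa T0.l11 T0.l0)
  (TrL.c (I.pos (nat_lit 0) (nat_lit 0)) T5.l1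
  (TrL.c (I.pos (nat_lit 0) (nat_lit 111196574)) (xR T0.l1 T0.l1)
  (TrL.c (I.pos (nat_lit 0) (nat_lit 77433728)) T5.l2
  (TrL.c (I.pos (nat_lit 0) (nat_lit 0)) (xk (xb T5.l11 T5.l11) (xb T5.l11 T5.l11))
  (TrL.c (I.pos (nat_lit 0) (nat_lit 0)) T0.l2
  (TrL.c (I.mix (nat_lit 29511666) (nat_lit 77433728)) T5.l4
  (TrL.c (I.mix (nat_lit 29511666) (nat_lit 46070178)) T0.l3
  TrL.n)))))))) (by decide +kernel)
theorem bx2_10 : BoxOK sI cl7 cl5 cl9 t0 t5 b2_10 :=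
  box_mk (TrL.c (I.pos (nat_lit 0) (nat_lit 0)) (xb T0.l11 T0.l11)
  (TrL.c (I.pos (nat_lit 0) (nat_lit 0)) T5.l1
  (TrL.c (I.pos (nat_lit 0) (nat_lit 111196574)) (xR T0.l1 T0.l1)
  (TrL.c (I.pos (nat_lit 0) (nat_lit 77433728)) T5.l2
  (TrL.c (I.pos (nat_lit 0) (nat_lit 0)) (xk T5.l11 T5.l11)
  (TrL.c (I.pos (nat_lit 0) (nat_lit 0)) T0.l2
  (TrL.c (I.mix (nat_lit 29511666) (nat_lit 77433728)) (xR T5.l4 T5.l4)
  (TrL.c (I.mix (nat_lit 29511666) (nat_lit 46070178)) T0.l3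
  TrL.n)))))))) (by decide +kernel)
theorem bx2_11 : BoxOK sI cl7 cl5 cl9 t0 t5 b2_11 :=
  box_mk (TrL.c (I.pos (nat_lit 0) (nat_lit 0)) (xa (xb T0.l0 T0.l0) (xb T0.l0 T0.l0))
  (TrL.c (I.pos (nat_lit 0) (nat_lit 0)) (xk T5.l1 T5.l1)
  (TrL.c (I.pos (nat_lit 0) (nat_lit 111196574)) (xR T0.l1 T0.l1)
  (TrL.c (I.pos (nat_lit 0) (nat_lit 77433728)) T5.l2
  (TrL.c (I.pos (nat_lit 0) (nat_lit 0)) (xk (xa T5.l3 T5.l3) (xa T5.l3 T5.l3))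
  (TrL.c (I.pos (nat_lit 0) (nat_lit 0)) T0.l2
  (TrL.c (I.mix (nat_lit 29511666) (nat_lit 77433728)) (xR T5.l4 T5.l4)
  (TrL.c (I.mix (nat_lit 29511666) (nat_lit 46070178)) T0.l7
  TrL.n)))))))) (by decide +kernel)
theorem sv2 : StarV sI cl7 cl5 cl9 t0 t5 t2 :=
  (bt_n (bt_n (bt_n (bt_b bx2_0) (bt_n (bt_b bx2_1) (bt_b bx2_2))) (bt_n (bt_b bx2_3) (bt_n (bt_b bx2_4) (bt_b bx2_5)))) (bt_n (bt_n (bt_b bx2_6) (bt_n (bt_b bx2_7) (bt_b bx2_8))) (bt_n (bt_b bx2_9) (bt_n (bt_b bx2_10) (bt_b bx2_11)))))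
def S2 : StarD := StarD.mk cl7 cl5 cl9 0 5 t2
theorem bx3_0 : BoxOK sI cl7 cl9 cl5 t5 t0 b3_0 :=
  box_mk (TrL.c (I.pos (nat_lit 0) (nat_lit 0)) (xa (xa (xb T5.l0 T5.l0) (xb T5.l0 T5.l0)) (xa (xb T5.l0 T5.l0) (xb (xb T5.l0 T5.l0) (xb T5.l0 T5.l0))))
  (TrL.c (I.pos (nat_lit 0) (nat_lit 0)) (xa (xk (xb T0.l6 T0.l6) (xb T0.l6 T0.l6)) (xk (xb T0.l6 T0.l6) (xb T0.l6 T0.l6)))
  (TrL.c (I.pos (nat_lit 0) (nat_lit 111196574)) (xR T5.l8 T5.l8)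
  (TrL.c (I.pos (nat_lit 0) (nat_lit 77433728)) T0.l7
  (TrL.c (I.pos (nat_lit 0) (nat_lit 0)) (xa (xk (xb T0.l8 T0.l8) (xb T0.l8 T0.l8)) (xk (xb (xa T0.l8 T0.l8) (xa T0.l8 T0.l8)) (xb (xa T0.l8 T0.l8) (xa T0.l8 T0.l8))))
  (TrL.c (I.pos (nat_lit 0) (nat_lit 0)) (xk T5.l9 T5.l9)
  (TrL.c (I.mix (nat_lit 29511666) (nat_lit 77433728)) (xR T0.l9 T0.l9)
  (TrL.c (I.mix (nat_lit 29511666) (nat_lit 46070178)) T5.l10
  TrL.n)))))))) (by decide +kernel)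
theorem bx3_1 : BoxOK sI cl7 cl9 cl5 t5 t0 b3_1 :=
  box_mk (TrL.c (I.pos (nat_lit 0) (nat_lit 0)) T5.l12
  (TrL.c (I.pos (nat_lit 0) (nat_lit 0)) (xa T0.l6 T0.l6)
  (TrL.c (I.pos (nat_lit 0) (nat_lit 111196574)) (xR T5.l8 T5.l8)
  (TrL.c (I.pos (nat_lit 0) (nat_lit 77433728)) T0.l7
  (TrL.c (I.pos (nat_lit 0) (nat_lit 0)) (xa (xb T0.l12 T0.l12) (xk T0.l12 T0.l12))
  (TrL.c (I.pos (nat_lit 0) (nat_lit 0)) T5.l9
  (TrL.c (I.mix (nat_lit 29511666) (nat_lit 77433728)) (xR T0.l9 T0.l9)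
  (TrL.c (I.mix (nat_lit 29511666) (nat_lit 46070178)) T5.l10
  TrL.n)))))))) (by decide +kernel)
theorem bx3_2 : BoxOK sI cl7 cl9 cl5 t5 t0 b3_2 :=
  box_mk (TrL.c (I.pos (nat_lit 0) (nat_lit 0)) (xa (xa T5.l12 T5.l12) T5.l12)
  (TrL.c (I.pos (nat_lit 0) (nat_lit 0)) (xa T0.l6 T0.l6)
  (TrL.c (I.pos (nat_lit 0) (nat_lit 111196574)) T5.l8
  (TrL.c (I.pos (nat_lit 0) (nat_lit 77433728)) T0.l7
  (TrL.c (I.pos (nat_lit 0) (nat_lit 0)) (xa T0.l12 T0.l12)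
  (TrL.c (I.pos (nat_lit 0) (nat_lit 0)) T5.l9
  (TrL.c (I.mix (nat_lit 29511666) (nat_lit 77433728)) T0.l9
  (TrL.c (I.mix (nat_lit 29511666) (nat_lit 46070178)) T5.l10
  TrL.n)))))))) (by decide +kernel)
theorem bx3_3 : BoxOK sI cl7 cl9 cl5 t5 t0 b3_3 :=
  box_mk (TrL.c (I.pos (nat_lit 0) (nat_lit 0)) (xb T5.l13 (xa T5.l13 T5.l0))
  (TrL.c (I.pos (nat_lit 0) (nat_lit 0)) (xk (xb T0.l6 T0.l6) (xb T0.l6 T0.l6))
  (TrL.c (I.pos (nat_lit 0) (nat_lit 111196574)) (xR T5.l8 T5.l8)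
  (TrL.c (I.pos (nat_lit 0) (nat_lit 77433728)) T0.l7
  (TrL.c (I.pos (nat_lit 0) (nat_lit 0)) (xk (xb T0.l13 T0.l8) (xb T0.l13 T0.l8))
  (TrL.c (I.pos (nat_lit 0) (nat_lit 0)) T5.l9
  (TrL.c (I.mix (nat_lit 29511666) (nat_lit 77433728)) (xR T0.l9 T0.l9)
  (TrL.c (I.mix (nat_lit 29511666) (nat_lit 46070178)) T5.l10
  TrL.n)))))))) (by decide +kernel)
theorem bx3_4 : BoxOK sI cl7 cl9 cl5 t5 t0 b3_4 :=
  box_mk (TrL.c (I.pos (nat_lit 0) (nat_lit 0)) (xa (xa (xb T5.l12 T5.l12) T5.l12) (xa T5.l12 T5.l12))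
  (TrL.c (I.pos (nat_lit 0) (nat_lit 0)) (xa (xa T0.l12 T0.l6) (xa T0.l6 T0.l6))
  (TrL.c (I.pos (nat_lit 0) (nat_lit 111196574)) T5.l8
  (TrL.c (I.pos (nat_lit 0) (nat_lit 77433728)) T0.l7
  (TrL.c (I.pos (nat_lit 0) (nat_lit 0)) (xa T0.l12 T0.l12)
  (TrL.c (I.pos (nat_lit 0) (nat_lit 0)) T5.l9
  (TrL.c (I.mix (nat_lit 29511666) (nat_lit 77433728)) (xR T0.l9 T0.l9)
  (TrL.c (I.mix (nat_lit 29511666) (nat_lit 46070178)) T5.l10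
  TrL.n)))))))) (by decide +kernel)
theorem bx3_5 : BoxOK sI cl7 cl9 cl5 t5 t0 b3_5 :=
  box_mk (TrL.c (I.pos (nat_lit 0) (nat_lit 0)) T5.l0
  (TrL.c (I.pos (nat_lit 0) (nat_lit 0)) T0.l6
  (TrL.c (I.pos (nat_lit 0) (nat_lit 111196574)) (xR T5.l8 T5.l8)
  (TrL.c (I.pos (nat_lit 0) (nat_lit 77433728)) T0.l7
  (TrL.c (I.pos (nat_lit 0) (nat_lit 0)) (xk (xa T0.l13 T0.l8) (xa T0.l13 T0.l8))
  (TrL.c (I.pos (nat_lit 0) (nat_lit 0)) T5.l9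
  (TrL.c (I.mix (nat_lit 29511666) (nat_lit 77433728)) (xR T0.l9 T0.l9)
  (TrL.c (I.mix (nat_lit 29511666) (nat_lit 46070178)) T5.l10
  TrL.n)))))))) (by decide +kernel)
theorem bx3_6 : BoxOK sI cl7 cl9 cl5 t5 t0 b3_6 :=
  box_mk (TrL.c (I.pos (nat_lit 0) (nat_lit 0)) T5.l12
  (TrL.c (I.pos (nat_lit 0) (nat_lit 0)) T0.l6
  (TrL.c (I.pos (nat_lit 0) (nat_lit 111196574)) (xR T5.l8 T5.l8)
  (TrL.c (I.pos (nat_lit 0) (nat_lit 77433728)) T0.l7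
  (TrL.c (I.pos (nat_lit 0) (nat_lit 0)) T0.l12
  (TrL.c (I.pos (nat_lit 0) (nat_lit 0)) T5.l9
  (TrL.c (I.mix (nat_lit 29511666) (nat_lit 77433728)) (xR T0.l9 T0.l9)
  (TrL.c (I.mix (nat_lit 29511666) (nat_lit 46070178)) T5.l10
  TrL.n)))))))) (by decide +kernel)
theorem bx3_7 : BoxOK sI cl7 cl9 cl5 t5 t0 b3_7 :=
  box_mk (TrL.c (I.pos (nat_lit 0) (nat_lit 0)) (xa T5.l12 T5.l12)
  (TrL.c (I.pos (nat_lit 0) (nat_lit 0)) (xa T0.l6 T0.l6)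
  (TrL.c (I.pos (nat_lit 0) (nat_lit 111196574)) T5.l8
  (TrL.c (I.pos (nat_lit 0) (nat_lit 77433728)) T0.l7
  (TrL.c (I.pos (nat_lit 0) (nat_lit 0)) (xa T0.l12 T0.l12)
  (TrL.c (I.pos (nat_lit 0) (nat_lit 0)) T5.l9
  (TrL.c (I.mix (nat_lit 29511666) (nat_lit 77433728)) T0.l9
  (TrL.c (I.mix (nat_lit 29511666) (nat_lit 46070178)) T5.l10
  TrL.n)))))))) (by decide +kernel)
theorem bx3_8 : BoxOK sI cl7 cl9 cl5 t5 t0 b3_8 :=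
  box_mk (TrL.c (I.pos (nat_lit 0) (nat_lit 0)) (xa (xa (xb T5.l12 T5.l12) T5.l12) (xa T5.l12 T5.l12))
  (TrL.c (I.pos (nat_lit 0) (nat_lit 0)) (xa T0.l6 (xa T0.l6 T0.l6))
  (TrL.c (I.pos (nat_lit 0) (nat_lit 111196574)) T5.l8
  (TrL.c (I.pos (nat_lit 0) (nat_lit 77433728)) T0.l7
  (TrL.c (I.pos (nat_lit 0) (nat_lit 0)) (xa T0.l12 T0.l12)
  (TrL.c (I.pos (nat_lit 0) (nat_lit 0)) T5.l9
  (TrL.c (I.mix (nat_lit 29511666) (nat_lit 77433728)) (xR T0.l9 T0.l9)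
  (TrL.c (I.mix (nat_lit 29511666) (nat_lit 46070178)) T5.l10
  TrL.n)))))))) (by decide +kernel)
theorem bx3_9 : BoxOK sI cl7 cl9 cl5 t5 t0 b3_9 :=
  box_mk (TrL.c (I.pos (nat_lit 0) (nat_lit 0)) (xb T5.l12 T5.l12)
  (TrL.c (I.pos (nat_lit 0) (nat_lit 0)) T0.l6
  (TrL.c (I.pos (nat_lit 0) (nat_lit 111196574)) (xR T5.l8 T5.l8)
  (TrL.c (I.pos (nat_lit 0) (nat_lit 77433728)) T0.l7
  (TrL.c (I.pos (nat_lit 0) (nat_lit 0)) (xb (xk T0.l12 T0.l12) T0.l12)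
  (TrL.c (I.pos (nat_lit 0) (nat_lit 0)) T5.l9
  (TrL.c (I.mix (nat_lit 29511666) (nat_lit 77433728)) (xR T0.l9 T0.l9)
  (TrL.c (I.mix (nat_lit 29511666) (nat_lit 46070178)) T5.l10
  TrL.n)))))))) (by decide +kernel)
theorem bx3_10 : BoxOK sI cl7 cl9 cl5 t5 t0 b3_10 :=
  box_mk (TrL.c (I.pos (nat_lit 0) (nat_lit 0)) (xa (xa T5.l12 T5.l12) T5.l12)
  (TrL.c (I.pos (nat_lit 0) (nat_lit 0)) (xa T0.l6 T0.l6)
  (TrL.c (I.pos (nat_lit 0) (nat_lit 111196574)) T5.l8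
  (TrL.c (I.pos (nat_lit 0) (nat_lit 77433728)) T0.l7
  (TrL.c (I.pos (nat_lit 0) (nat_lit 0)) (xa T0.l12 T0.l12)
  (TrL.c (I.pos (nat_lit 0) (nat_lit 0)) T5.l9
  (TrL.c (I.mix (nat_lit 29511666) (nat_lit 77433728)) T0.l9
  (TrL.c (I.mix (nat_lit 29511666) (nat_lit 46070178)) T5.l10
  TrL.n)))))))) (by decide +kernel)
theorem bx3_11 : BoxOK sI cl7 cl9 cl5 t5 t0 b3_11 :=
  box_mk (TrL.c (I.pos (nat_lit 0) (nat_lit 0)) (xa (xb T5.l0 (xa T5.l0 T5.l0)) (xb T5.l0 (xa T5.l0 T5.l0)))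
  (TrL.c (I.pos (nat_lit 0) (nat_lit 0)) (xa (xk (xb T0.l6 (xa T0.l6 T0.l6)) T0.l6) (xk (xb (xa T0.l2 T0.l2) (xa T0.l2 T0.l2)) (xb (xa T0.l6 T0.l2) (xa T0.l6 T0.l2))))
  (TrL.c (I.pos (nat_lit 0) (nat_lit 111196574)) (xR T5.l8 T5.l8)
  (TrL.c (I.pos (nat_lit 0) (nat_lit 77433728)) (xR T0.l7 T0.l7)
  (TrL.c (I.pos (nat_lit 0) (nat_lit 0)) (xa (xb (xk (xa T0.l8 (xb T0.l8 T0.l8)) (xa T0.l8 (xb T0.l8 T0.l8))) (xk T0.l8 T0.l8)) (xb (xk (xa (xb (xk T0.l8 T0.l8) T0.l8) (xk (xb (xa T0.l8 T0.l8) T0.l8) (xb T0.l8 T0.l8))) (xa (xb (xk T0.l8 T0.l8) T0.l8) (xb (xk T0.l8 T0.l8) T0.l8))) (xk (xa T0.l8 (xb (xk T0.l8 T0.l8) (xk (xa T0.l8 T0.l8) (xa T0.l8 T0.l8)))) (xa T0.l8 (xb (xk T0.l8 T0.l8) (xk T0.l8 T0.l8))))))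
  (TrL.c (I.pos (nat_lit 0) (nat_lit 0)) (xk (xa T5.l9 (xb T5.l9 T5.l9)) (xa T5.l9 (xb T5.l9 T5.l9)))
  (TrL.c (I.mix (nat_lit 29511666) (nat_lit 77433728)) (xR T0.l9 (xR T0.l9 (xR T0.l9 T0.l9)))
  (TrL.c (I.mix (nat_lit 29511666) (nat_lit 46070178)) T5.l10
  TrL.n)))))))) (by decide +kernel)
theorem bx3_12 : BoxOK sI cl7 cl9 cl5 t5 t0 b3_12 :=
  box_mk (TrL.c (I.pos (nat_lit 0) (nat_lit 0)) (xa T5.l0 T5.l0)
  (TrL.c (I.pos (nat_lit 0) (nat_lit 0)) (xa (xk T0.l6 T0.l6) (xk T0.l6 T0.l6))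
  (TrL.c (I.pos (nat_lit 0) (nat_lit 111196574)) (xR T5.l8 T5.l8)
  (TrL.c (I.pos (nat_lit 0) (nat_lit 77433728)) T0.l7
  (TrL.c (I.pos (nat_lit 0) (nat_lit 0)) (xk (xa T0.l8 T0.l8) (xa T0.l8 T0.l8))
  (TrL.c (I.pos (nat_lit 0) (nat_lit 0)) T5.l9
  (TrL.c (I.mix (nat_lit 29511666) (nat_lit 77433728)) (xR T0.l9 T0.l9)
  (TrL.c (I.mix (nat_lit 29511666) (nat_lit 46070178)) T5.l10
  TrL.n)))))))) (by decide +kernel)
theorem bx3_13 : BoxOK sI cl7 cl9 cl5 t5 t0 b3_13 :=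
  box_mk (TrL.c (I.pos (nat_lit 0) (nat_lit 0)) T5.l13
  (TrL.c (I.pos (nat_lit 0) (nat_lit 0)) (xk T0.l6 T0.l6)
  (TrL.c (I.pos (nat_lit 0) (nat_lit 111196574)) (xR T5.l8 T5.l8)
  (TrL.c (I.pos (nat_lit 0) (nat_lit 77433728)) T0.l7
  (TrL.c (I.pos (nat_lit 0) (nat_lit 0)) (xk T0.l13 T0.l13)
  (TrL.c (I.pos (nat_lit 0) (nat_lit 0)) T5.l9
  (TrL.c (I.mix (nat_lit 29511666) (nat_lit 77433728)) (xR T0.l9 T0.l9)
  (TrL.c (I.mix (nat_lit 29511666) (nat_lit 46070178)) T5.l10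
  TrL.n)))))))) (by decide +kernel)
theorem sv3 : StarV sI cl7 cl9 cl5 t5 t0 t3 :=
  (bt_n (bt_n (bt_n (bt_b bx3_0) (bt_n (bt_b bx3_1) (bt_b bx3_2))) (bt_n (bt_n (bt_b bx3_3) (bt_b bx3_4)) (bt_n (bt_b bx3_5) (bt_b bx3_6)))) (bt_n (bt_n (bt_b bx3_7) (bt_n (bt_b bx3_8) (bt_b bx3_9))) (bt_n (bt_n (bt_b bx3_10) (bt_b bx3_11)) (bt_n (bt_b bx3_12) (bt_b bx3_13)))))
def S3 : StarD := StarD.mk cl7 cl9 cl5 5 0 t3
theorem bx4_0 : BoxOK sI cl9 cl5 cl7 t1 t3 b4_0 :=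
  box_mk (TrL.c (I.pos (nat_lit 0) (nat_lit 0)) (xa (xb T1.l0 (xa T1.l0 T1.l0)) (xb T1.l0 (xa T1.l0 T1.l0)))
  (TrL.c (I.pos (nat_lit 0) (nat_lit 0)) (xa (xk T3.l1 T3.l1) (xk T3.l1 T3.l1))
  (TrL.c (I.pos (nat_lit 0) (nat_lit 124588530)) (xR T1.l1 T1.l1)
  (TrL.c (I.pos (nat_lit 0) (nat_lit 96881482)) T3.l2
  (TrL.c (I.pos (nat_lit 0) (nat_lit 0)) (xa (xk T3.l3 T3.l3) (xb (xk T3.l3 T3.l3) (xk T3.l3 T3.l3)))
  (TrL.c (I.pos (nat_lit 0) (nat_lit 0)) T1.l2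
  (TrL.c (I.mix (nat_lit 17240550) (nat_lit 96881482)) (xR T3.l4 T3.l4)
  (TrL.c (I.mix (nat_lit 17240550) (nat_lit 71940500)) T1.l8
  TrL.n)))))))) (by decide +kernel)
theorem bx4_1 : BoxOK sI cl9 cl5 cl7 t1 t3 b4_1 :=
  box_mk (TrL.c (I.pos (nat_lit 0) (nat_lit 0)) (xa T1.l4 T1.l4)
  (TrL.c (I.pos (nat_lit 0) (nat_lit 0)) T3.l1
  (TrL.c (I.pos (nat_lit 0) (nat_lit 124588530)) (xR T1.l1 T1.l1)
  (TrL.c (I.pos (nat_lit 0) (nat_lit 96881482)) T3.l2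
  (TrL.c (I.pos (nat_lit 0) (nat_lit 0)) (xa T3.l5 (xk T3.l5 T3.l5))
  (TrL.c (I.pos (nat_lit 0) (nat_lit 0)) T1.l2
  (TrL.c (I.mix (nat_lit 17240550) (nat_lit 96881482)) (xR T3.l4 T3.l4)
  (TrL.c (I.mix (nat_lit 17240550) (nat_lit 71940500)) T1.l3
  TrL.n)))))))) (by decide +kernel)
theorem bx4_2 : BoxOK sI cl9 cl5 cl7 t1 t3 b4_2 :=
  box_mk (TrL.c (I.pos (nat_lit 0) (nat_lit 0)) T3.l6
  (TrL.c (I.pos (nat_lit 0) (nat_lit 0)) T1.l1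
  (TrL.c (I.mix (nat_lit 17240550) (nat_lit 96881482)) (xR T3.l2 T3.l2)
  (TrL.c (I.mix (nat_lit 17240550) (nat_lit 71940500)) T1.l8
  TrL.n)))) (by decide +kernel)
theorem bx4_3 : BoxOK sI cl9 cl5 cl7 t1 t3 b4_3 :=
  box_mk (TrL.c (I.pos (nat_lit 0) (nat_lit 0)) (xa T1.l13 T1.l13)
  (TrL.c (I.pos (nat_lit 0) (nat_lit 0)) (xk T3.l1 T3.l1)
  (TrL.c (I.pos (nat_lit 0) (nat_lit 124588530)) (xR T1.l1 T1.l1)
  (TrL.c (I.pos (nat_lit 0) (nat_lit 96881482)) T3.l2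
  (TrL.c (I.pos (nat_lit 0) (nat_lit 0)) (xk T3.l13 T3.l13)
  (TrL.c (I.pos (nat_lit 0) (nat_lit 0)) T1.l2
  (TrL.c (I.mix (nat_lit 17240550) (nat_lit 96881482)) (xR T3.l4 T3.l4)
  (TrL.c (I.mix (nat_lit 17240550) (nat_lit 71940500)) T1.l8
  TrL.n)))))))) (by decide +kernel)
theorem bx4_4 : BoxOK sI cl9 cl5 cl7 t1 t3 b4_4 :=
  box_mk (TrL.c (I.pos (nat_lit 0) (nat_lit 0)) T1.l4
  (TrL.c (I.pos (nat_lit 0) (nat_lit 0)) T3.l6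
  (TrL.c (I.pos (nat_lit 0) (nat_lit 124588530)) T1.l1
  (TrL.c (I.pos (nat_lit 0) (nat_lit 96881482)) T3.l2
  (TrL.c (I.pos (nat_lit 0) (nat_lit 0)) T3.l5
  (TrL.c (I.pos (nat_lit 0) (nat_lit 0)) T1.l2
  (TrL.c (I.mix (nat_lit 17240550) (nat_lit 96881482)) T3.l4
  (TrL.c (I.mix (nat_lit 17240550) (nat_lit 71940500)) T1.l8
  TrL.n)))))))) (by decide +kernel)
theorem bx4_5 : BoxOK sI cl9 cl5 cl7 t1 t3 b4_5 :=
  box_mk (TrL.c (I.pos (nat_lit 0) (nat_lit 0)) (xb T1.l4 T1.l4)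
  (TrL.c (I.pos (nat_lit 0) (nat_lit 0)) T3.l1
  (TrL.c (I.pos (nat_lit 0) (nat_lit 124588530)) T1.l1
  (TrL.c (I.pos (nat_lit 0) (nat_lit 96881482)) T3.l2
  (TrL.c (I.pos (nat_lit 0) (nat_lit 0)) T3.l5
  (TrL.c (I.pos (nat_lit 0) (nat_lit 0)) T1.l2
  (TrL.c (I.mix (nat_lit 17240550) (nat_lit 96881482)) T3.l4
  (TrL.c (I.mix (nat_lit 17240550) (nat_lit 71940500)) T1.l3
  TrL.n)))))))) (by decide +kernel)
theorem bx4_6 : BoxOK sI cl9 cl5 cl7 t1 t3 b4_6 :=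
  box_mk (TrL.c (I.pos (nat_lit 0) (nat_lit 0)) (xb T1.l4 T1.l4)
  (TrL.c (I.pos (nat_lit 0) (nat_lit 0)) T3.l1
  (TrL.c (I.pos (nat_lit 0) (nat_lit 124588530)) T1.l1
  (TrL.c (I.pos (nat_lit 0) (nat_lit 96881482)) T3.l2
  (TrL.c (I.pos (nat_lit 0) (nat_lit 0)) T3.l5
  (TrL.c (I.pos (nat_lit 0) (nat_lit 0)) T1.l2
  (TrL.c (I.mix (nat_lit 17240550) (nat_lit 96881482)) T3.l4
  (TrL.c (I.mix (nat_lit 17240550) (nat_lit 71940500)) T1.l3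
  TrL.n)))))))) (by decide +kernel)
theorem bx4_7 : BoxOK sI cl9 cl5 cl7 t1 t3 b4_7 :=
  box_mk (TrL.c (I.pos (nat_lit 0) (nat_lit 0)) T3.l1
  (TrL.c (I.pos (nat_lit 0) (nat_lit 0)) T1.l1
  (TrL.c (I.mix (nat_lit 17240550) (nat_lit 96881482)) (xR T3.l7 T3.l2)
  (TrL.c (I.mix (nat_lit 17240550) (nat_lit 71940500)) T1.l10
  TrL.n)))) (by decide +kernel)
theorem bx4_8 : BoxOK sI cl9 cl5 cl7 t1 t3 b4_8 :=
  box_mk (TrL.c (I.pos (nat_lit 0) (nat_lit 0)) (xa T1.l13 T1.l13)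
  (TrL.c (I.pos (nat_lit 0) (nat_lit 0)) T3.l1
  (TrL.c (I.pos (nat_lit 0) (nat_lit 124588530)) (xR T1.l1 T1.l1)
  (TrL.c (I.pos (nat_lit 0) (nat_lit 96881482)) T3.l2
  (TrL.c (I.pos (nat_lit 0) (nat_lit 0)) (xk (xb T3.l13 T3.l13) (xb T3.l13 T3.l13))
  (TrL.c (I.pos (nat_lit 0) (nat_lit 0)) T1.l2
  (TrL.c (I.mix (nat_lit 17240550) (nat_lit 96881482)) (xR T3.l4 T3.l4)
  (TrL.c (I.mix (nat_lit 17240550) (nat_lit 71940500)) T1.l3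
  TrL.n)))))))) (by decide +kernel)
theorem bx4_9 : BoxOK sI cl9 cl5 cl7 t1 t3 b4_9 :=
  box_mk (TrL.c (I.pos (nat_lit 0) (nat_lit 0)) (xa (xb T1.l0 (xa T1.l0 T1.l0)) (xb T1.l0 (xa T1.l0 T1.l0)))
  (TrL.c (I.pos (nat_lit 0) (nat_lit 0)) (xa (xb T3.l1 T3.l1) (xk (xb T3.l1 T3.l9) (xb T3.l9 T3.l1)))
  (TrL.c (I.pos (nat_lit 0) (nat_lit 124588530)) (xR T1.l10 T1.l10)
  (TrL.c (I.pos (nat_lit 0) (nat_lit 96881482)) (xR T3.l2 T3.l2)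
  (TrL.c (I.pos (nat_lit 0) (nat_lit 0)) (xa (xb (xk (xa T3.l3 T3.l3) (xa T3.l3 T3.l3)) (xk (xa T3.l3 T3.l3) T3.l3)) (xb (xk (xa (xb T3.l0 T3.l3) (xb (xk T3.l0 T3.l0) T3.l3)) (xa (xb T3.l0 T3.l3) (xb (xk T3.l0 T3.l3) T3.l3))) (xk (xa T3.l3 (xb (xk T3.l3 T3.l3) (xk T3.l3 T3.l3))) (xa T3.l3 (xb (xk T3.l3 T3.l3) (xk T3.l3 T3.l3))))))
  (TrL.c (I.pos (nat_lit 0) (nat_lit 0)) (xk (xa T1.l2 T1.l2) (xa T1.l2 T1.l2))
  (TrL.c (I.mix (nat_lit 17240550) (nat_lit 96881482)) (xR T3.l4 (xR T3.l4 T3.l4))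
  (TrL.c (I.mix (nat_lit 17240550) (nat_lit 71940500)) T1.l8
  TrL.n)))))))) (by decide +kernel)
theorem bx4_10 : BoxOK sI cl9 cl5 cl7 t1 t3 b4_10 :=
  box_mk (TrL.c (I.pos (nat_lit 0) (nat_lit 0)) (xa T1.l0 T1.l0)
  (TrL.c (I.pos (nat_lit 0) (nat_lit 0)) (xk T3.l1 T3.l1)
  (TrL.c (I.pos (nat_lit 0) (nat_lit 124588530)) (xR T1.l1 T1.l1)
  (TrL.c (I.pos (nat_lit 0) (nat_lit 96881482)) T3.l2
  (TrL.c (I.pos (nat_lit 0) (nat_lit 0)) (xk (xa T3.l3 T3.l3) (xa T3.l3 T3.l3))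
  (TrL.c (I.pos (nat_lit 0) (nat_lit 0)) T1.l2
  (TrL.c (I.mix (nat_lit 17240550) (nat_lit 96881482)) (xR T3.l4 T3.l4)
  (TrL.c (I.mix (nat_lit 17240550) (nat_lit 71940500)) T1.l8
  TrL.n)))))))) (by decide +kernel)
theorem bx4_11 : BoxOK sI cl9 cl5 cl7 t1 t3 b4_11 :=
  box_mk (TrL.c (I.pos (nat_lit 0) (nat_lit 0)) T1.l13
  (TrL.c (I.pos (nat_lit 0) (nat_lit 0)) T3.l1
  (TrL.c (I.pos (nat_lit 0) (nat_lit 124588530)) (xR T1.l1 T1.l1)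
  (TrL.c (I.pos (nat_lit 0) (nat_lit 96881482)) T3.l2
  (TrL.c (I.pos (nat_lit 0) (nat_lit 0)) (xk T3.l13 T3.l13)
  (TrL.c (I.pos (nat_lit 0) (nat_lit 0)) T1.l2
  (TrL.c (I.mix (nat_lit 17240550) (nat_lit 96881482)) (xR T3.l4 T3.l4)
  (TrL.c (I.mix (nat_lit 17240550) (nat_lit 71940500)) T1.l3
  TrL.n)))))))) (by decide +kernel)
theorem sv4 : StarV sI cl9 cl5 cl7 t1 t3 t4 :=
  (bt_n (bt_n (bt_n (bt_b bx4_0) (bt_n (bt_b bx4_1) (bt_b bx4_2))) (bt_n (bt_b bx4_3) (bt_n (bt_b bx4_4) (bt_b bx4_5)))) (bt_n (bt_n (bt_b bx4_6) (bt_n (bt_b bx4_7) (bt_b bx4_8))) (bt_n (bt_b bx4_9) (bt_n (bt_b bx4_10) (bt_b bx4_11)))))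
def S4 : StarD := StarD.mk cl9 cl5 cl7 1 3 t4
theorem bx5_0 : BoxOK sI cl9 cl7 cl5 t3 t1 b5_0 :=
  box_mk (TrL.c (I.pos (nat_lit 0) (nat_lit 0)) (xa (xa (xb T3.l0 T3.l0) (xb T3.l0 T3.l0)) (xa (xb T3.l0 T3.l0) (xb T3.l0 (xb T3.l0 T3.l0))))
  (TrL.c (I.pos (nat_lit 0) (nat_lit 0)) (xa (xk (xb T1.l7 T1.l7) (xb T1.l7 T1.l7)) (xk (xb T1.l7 T1.l7) (xb T1.l7 T1.l7)))
  (TrL.c (I.pos (nat_lit 0) (nat_lit 124588530)) (xR T3.l8 T3.l8)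
  (TrL.c (I.pos (nat_lit 0) (nat_lit 96881482)) (xR T1.l8 T1.l8)
  (TrL.c (I.pos (nat_lit 0) (nat_lit 0)) (xa (xk (xb T1.l9 T1.l9) (xb T1.l9 T1.l9)) (xk (xb (xa T1.l9 T1.l9) (xa T1.l9 T1.l9)) (xb (xa T1.l9 T1.l9) (xa T1.l9 T1.l9))))
  (TrL.c (I.pos (nat_lit 0) (nat_lit 0)) (xk T3.l9 T3.l9)
  (TrL.c (I.mix (nat_lit 17240550) (nat_lit 96881482)) (xR T1.l10 T1.l10)
  (TrL.c (I.mix (nat_lit 17240550) (nat_lit 71940500)) T3.l10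
  TrL.n)))))))) (by decide +kernel)
theorem bx5_1 : BoxOK sI cl9 cl7 cl5 t3 t1 b5_1 :=
  box_mk (TrL.c (I.pos (nat_lit 0) (nat_lit 0)) T3.l11
  (TrL.c (I.pos (nat_lit 0) (nat_lit 0)) (xa T1.l7 T1.l7)
  (TrL.c (I.pos (nat_lit 0) (nat_lit 124588530)) (xR T3.l8 T3.l8)
  (TrL.c (I.pos (nat_lit 0) (nat_lit 96881482)) T1.l8
  (TrL.c (I.pos (nat_lit 0) (nat_lit 0)) (xk (xa T1.l11 T1.l11) (xa T1.l11 T1.l11))
  (TrL.c (I.pos (nat_lit 0) (nat_lit 0)) T3.l9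
  (TrL.c (I.mix (nat_lit 17240550) (nat_lit 96881482)) (xR T1.l10 T1.l10)
  (TrL.c (I.mix (nat_lit 17240550) (nat_lit 71940500)) T3.l10
  TrL.n)))))))) (by decide +kernel)
theorem bx5_2 : BoxOK sI cl9 cl7 cl5 t3 t1 b5_2 :=
  box_mk (TrL.c (I.pos (nat_lit 0) (nat_lit 0)) (xa (xa T3.l11 T3.l11) T3.l11)
  (TrL.c (I.pos (nat_lit 0) (nat_lit 0)) (xa T1.l11 T1.l7)
  (TrL.c (I.pos (nat_lit 0) (nat_lit 124588530)) T3.l8
  (TrL.c (I.pos (nat_lit 0) (nat_lit 96881482)) T1.l10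
  (TrL.c (I.pos (nat_lit 0) (nat_lit 0)) (xa T1.l7 T1.l11)
  (TrL.c (I.pos (nat_lit 0) (nat_lit 0)) T3.l9
  (TrL.c (I.mix (nat_lit 17240550) (nat_lit 96881482)) T1.l10
  (TrL.c (I.mix (nat_lit 17240550) (nat_lit 71940500)) T3.l4
  TrL.n)))))))) (by decide +kernel)
theorem bx5_3 : BoxOK sI cl9 cl7 cl5 t3 t1 b5_3 :=
  box_mk (TrL.c (I.pos (nat_lit 0) (nat_lit 0)) (xb T3.l12 (xa T3.l12 T3.l0))
  (TrL.c (I.pos (nat_lit 0) (nat_lit 0)) (xk (xb T1.l7 T1.l7) (xb T1.l7 T1.l7))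
  (TrL.c (I.pos (nat_lit 0) (nat_lit 124588530)) (xR T3.l8 T3.l8)
  (TrL.c (I.pos (nat_lit 0) (nat_lit 96881482)) T1.l8
  (TrL.c (I.pos (nat_lit 0) (nat_lit 0)) (xk (xb T1.l12 T1.l9) (xb T1.l12 T1.l9))
  (TrL.c (I.pos (nat_lit 0) (nat_lit 0)) T3.l9
  (TrL.c (I.mix (nat_lit 17240550) (nat_lit 96881482)) (xR T1.l10 T1.l10)
  (TrL.c (I.mix (nat_lit 17240550) (nat_lit 71940500)) T3.l10
  TrL.n)))))))) (by decide +kernel)
theorem bx5_4 : BoxOK sI cl9 cl7 cl5 t3 t1 b5_4 :=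
  box_mk (TrL.c (I.pos (nat_lit 0) (nat_lit 0)) (xa (xa (xb T3.l11 T3.l11) T3.l11) (xa T3.l11 T3.l11))
  (TrL.c (I.pos (nat_lit 0) (nat_lit 0)) (xa T1.l7 (xa T1.l7 T1.l7))
  (TrL.c (I.pos (nat_lit 0) (nat_lit 124588530)) T3.l8
  (TrL.c (I.pos (nat_lit 0) (nat_lit 96881482)) T1.l8
  (TrL.c (I.pos (nat_lit 0) (nat_lit 0)) (xa T1.l11 T1.l11)
  (TrL.c (I.pos (nat_lit 0) (nat_lit 0)) T3.l9
  (TrL.c (I.mix (nat_lit 17240550) (nat_lit 96881482)) (xR T1.l10 T1.l10)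
  (TrL.c (I.mix (nat_lit 17240550) (nat_lit 71940500)) T3.l10
  TrL.n)))))))) (by decide +kernel)
theorem bx5_5 : BoxOK sI cl9 cl7 cl5 t3 t1 b5_5 :=
  box_mk (TrL.c (I.pos (nat_lit 0) (nat_lit 0)) T3.l0
  (TrL.c (I.pos (nat_lit 0) (nat_lit 0)) T1.l7
  (TrL.c (I.pos (nat_lit 0) (nat_lit 124588530)) (xR T3.l8 T3.l8)
  (TrL.c (I.pos (nat_lit 0) (nat_lit 96881482)) T1.l8
  (TrL.c (I.pos (nat_lit 0) (nat_lit 0)) (xk T1.l12 T1.l12)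
  (TrL.c (I.pos (nat_lit 0) (nat_lit 0)) T3.l9
  (TrL.c (I.mix (nat_lit 17240550) (nat_lit 96881482)) (xR T1.l10 T1.l10)
  (TrL.c (I.mix (nat_lit 17240550) (nat_lit 71940500)) T3.l10
  TrL.n)))))))) (by decide +kernel)
theorem bx5_6 : BoxOK sI cl9 cl7 cl5 t3 t1 b5_6 :=
  box_mk (TrL.c (I.pos (nat_lit 0) (nat_lit 0)) T3.l11
  (TrL.c (I.pos (nat_lit 0) (nat_lit 0)) (xa T1.l11 T1.l7)
  (TrL.c (I.pos (nat_lit 0) (nat_lit 124588530)) T3.l8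
  (TrL.c (I.pos (nat_lit 0) (nat_lit 96881482)) T1.l8
  (TrL.c (I.pos (nat_lit 0) (nat_lit 0)) (xa T1.l11 T1.l11)
  (TrL.c (I.pos (nat_lit 0) (nat_lit 0)) T3.l9
  (TrL.c (I.mix (nat_lit 17240550) (nat_lit 96881482)) T1.l10
  (TrL.c (I.mix (nat_lit 17240550) (nat_lit 71940500)) T3.l10
  TrL.n)))))))) (by decide +kernel)
theorem bx5_7 : BoxOK sI cl9 cl7 cl5 t3 t1 b5_7 :=
  box_mk (TrL.c (I.pos (nat_lit 0) (nat_lit 0)) T3.l11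
  (TrL.c (I.pos (nat_lit 0) (nat_lit 0)) T1.l7
  (TrL.c (I.pos (nat_lit 0) (nat_lit 124588530)) (xR T3.l8 T3.l8)
  (TrL.c (I.pos (nat_lit 0) (nat_lit 96881482)) T1.l8
  (TrL.c (I.pos (nat_lit 0) (nat_lit 0)) T1.l11
  (TrL.c (I.pos (nat_lit 0) (nat_lit 0)) T3.l9
  (TrL.c (I.mix (nat_lit 17240550) (nat_lit 96881482)) T1.l10
  (TrL.c (I.mix (nat_lit 17240550) (nat_lit 71940500)) T3.l10
  TrL.n)))))))) (by decide +kernel)
theorem bx5_8 : BoxOK sI cl9 cl7 cl5 t3 t1 b5_8 :=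
  box_mk (TrL.c (I.pos (nat_lit 0) (nat_lit 0)) (xa (xa (xb T3.l11 T3.l11) T3.l11) (xa T3.l11 T3.l11))
  (TrL.c (I.pos (nat_lit 0) (nat_lit 0)) (xa T1.l7 (xa T1.l7 T1.l7))
  (TrL.c (I.pos (nat_lit 0) (nat_lit 124588530)) T3.l8
  (TrL.c (I.pos (nat_lit 0) (nat_lit 96881482)) T1.l8
  (TrL.c (I.pos (nat_lit 0) (nat_lit 0)) (xa T1.l11 T1.l11)
  (TrL.c (I.pos (nat_lit 0) (nat_lit 0)) T3.l9
  (TrL.c (I.mix (nat_lit 17240550) (nat_lit 96881482)) (xR T1.l10 T1.l10)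
  (TrL.c (I.mix (nat_lit 17240550) (nat_lit 71940500)) T3.l10
  TrL.n)))))))) (by decide +kernel)
theorem bx5_9 : BoxOK sI cl9 cl7 cl5 t3 t1 b5_9 :=
  box_mk (TrL.c (I.pos (nat_lit 0) (nat_lit 0)) T3.l11
  (TrL.c (I.pos (nat_lit 0) (nat_lit 0)) (xb T1.l7 T1.l7)
  (TrL.c (I.pos (nat_lit 0) (nat_lit 124588530)) (xR T3.l8 T3.l8)
  (TrL.c (I.pos (nat_lit 0) (nat_lit 96881482)) T1.l8
  (TrL.c (I.pos (nat_lit 0) (nat_lit 0)) (xb T1.l11 T1.l11)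
  (TrL.c (I.pos (nat_lit 0) (nat_lit 0)) T3.l9
  (TrL.c (I.mix (nat_lit 17240550) (nat_lit 96881482)) T1.l10
  (TrL.c (I.mix (nat_lit 17240550) (nat_lit 71940500)) T3.l10
  TrL.n)))))))) (by decide +kernel)
theorem bx5_10 : BoxOK sI cl9 cl7 cl5 t3 t1 b5_10 :=
  box_mk (TrL.c (I.pos (nat_lit 0) (nat_lit 0)) (xa (xa T3.l11 T3.l11) T3.l11)
  (TrL.c (I.pos (nat_lit 0) (nat_lit 0)) (xa T1.l11 T1.l7)
  (TrL.c (I.pos (nat_lit 0) (nat_lit 124588530)) T3.l8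
  (TrL.c (I.pos (nat_lit 0) (nat_lit 96881482)) T1.l10
  (TrL.c (I.pos (nat_lit 0) (nat_lit 0)) (xa T1.l11 T1.l11)
  (TrL.c (I.pos (nat_lit 0) (nat_lit 0)) T3.l9
  (TrL.c (I.mix (nat_lit 17240550) (nat_lit 96881482)) T1.l10
  (TrL.c (I.mix (nat_lit 17240550) (nat_lit 71940500)) T3.l4
  TrL.n)))))))) (by decide +kernel)
theorem bx5_11 : BoxOK sI cl9 cl7 cl5 t3 t1 b5_11 :=
  box_mk (TrL.c (I.pos (nat_lit 0) (nat_lit 0)) T3.l12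
  (TrL.c (I.pos (nat_lit 0) (nat_lit 0)) T1.l7
  (TrL.c (I.pos (nat_lit 0) (nat_lit 124588530)) (xR T3.l8 T3.l8)
  (TrL.c (I.pos (nat_lit 0) (nat_lit 96881482)) T1.l8
  (TrL.c (I.pos (nat_lit 0) (nat_lit 0)) (xk T1.l12 T1.l12)
  (TrL.c (I.pos (nat_lit 0) (nat_lit 0)) T3.l9
  (TrL.c (I.mix (nat_lit 17240550) (nat_lit 96881482)) (xR T1.l10 T1.l10)
  (TrL.c (I.mix (nat_lit 17240550) (nat_lit 71940500)) T3.l10
  TrL.n)))))))) (by decide +kernel)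
theorem bx5_12 : BoxOK sI cl9 cl7 cl5 t3 t1 b5_12 :=
  box_mk (TrL.c (I.pos (nat_lit 0) (nat_lit 0)) (xa (xb T3.l0 (xa T3.l0 T3.l0)) (xa T3.l0 T3.l0))
  (TrL.c (I.pos (nat_lit 0) (nat_lit 0)) (xa (xk (xb T1.l7 T1.l7) T1.l7) (xk (xb T1.l7 (xa T1.l7 T1.l7)) (xb T1.l7 (xa T1.l7 T1.l7))))
  (TrL.c (I.pos (nat_lit 0) (nat_lit 124588530)) (xR T3.l4 T3.l8)
  (TrL.c (I.pos (nat_lit 0) (nat_lit 96881482)) (xR T1.l8 T1.l8)
  (TrL.c (I.pos (nat_lit 0) (nat_lit 0)) (xa (xb (xk (xa T1.l9 T1.l9) (xa T1.l9 T1.l9)) (xk T1.l9 T1.l9)) (xb (xk (xa T1.l9 (xk (xb T1.l9 T1.l9) (xb T1.l9 T1.l9))) (xa T1.l9 (xb (xk T1.l9 T1.l9) T1.l9))) (xk (xa T1.l9 (xb (xk T1.l9 T1.l9) (xk T1.l9 T1.l9))) (xa T1.l9 (xb T1.l9 (xk T1.l9 T1.l9))))))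
  (TrL.c (I.pos (nat_lit 0) (nat_lit 0)) (xk (xa T3.l9 (xb T3.l9 T3.l9)) (xa T3.l9 (xb T3.l9 T3.l9)))
  (TrL.c (I.mix (nat_lit 17240550) (nat_lit 96881482)) (xR T1.l10 (xR T1.l10 (xR T1.l10 T1.l10)))
  (TrL.c (I.mix (nat_lit 17240550) (nat_lit 71940500)) T3.l10
  TrL.n)))))))) (by decide +kernel)
theorem bx5_13 : BoxOK sI cl9 cl7 cl5 t3 t1 b5_13 :=
  box_mk (TrL.c (I.pos (nat_lit 0) (nat_lit 0)) (xa T3.l0 T3.l0)
  (TrL.c (I.pos (nat_lit 0) (nat_lit 0)) (xk (xa T1.l7 T1.l7) (xa T1.l7 T1.l7))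
  (TrL.c (I.pos (nat_lit 0) (nat_lit 124588530)) (xR T3.l8 T3.l8)
  (TrL.c (I.pos (nat_lit 0) (nat_lit 96881482)) T1.l8
  (TrL.c (I.pos (nat_lit 0) (nat_lit 0)) (xk (xa T1.l9 T1.l9) (xa T1.l9 T1.l9))
  (TrL.c (I.pos (nat_lit 0) (nat_lit 0)) T3.l9
  (TrL.c (I.mix (nat_lit 17240550) (nat_lit 96881482)) (xR T1.l10 T1.l10)
  (TrL.c (I.mix (nat_lit 17240550) (nat_lit 71940500)) T3.l10
  TrL.n)))))))) (by decide +kernel)
theorem sv5 : StarV sI cl9 cl7 cl5 t3 t1 t5 :=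
  (bt_n (bt_n (bt_n (bt_b bx5_0) (bt_n (bt_b bx5_1) (bt_b bx5_2))) (bt_n (bt_n (bt_b bx5_3) (bt_b bx5_4)) (bt_n (bt_b bx5_5) (bt_b bx5_6)))) (bt_n (bt_n (bt_b bx5_7) (bt_n (bt_b bx5_8) (bt_b bx5_9))) (bt_n (bt_n (bt_b bx5_10) (bt_b bx5_11)) (bt_n (bt_b bx5_12) (bt_b bx5_13)))))
def S5 : StarD := StarD.mk cl9 cl7 cl5 3 1 t5
def G : List StarD := [S0, S1, S2, S3, S4, S5]
theorem so0 : StarOK sI G S0 :=
  star_mk (by decide) (by decide) rfl rfl rfl rfl rfl rfl (rfl : _ = t2) (rfl : _ = t4)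
  (st_mk (Pth.l (Pth.l (Pth.l Pth.z))) (nat_lit 143095940) (nat_lit 166045487) (by decide +kernel))
  (st_mk (Pth.l (Pth.l (Pth.l Pth.z))) (nat_lit 179748000) (nat_lit 203199785) (by decide +kernel))
  (st_mk (Pth.l (Pth.l (Pth.l Pth.z))) (nat_lit 222560261) (nat_lit 246693794) (by decide +kernel)) sv0
theorem so1 : StarOK sI G S1 :=
  star_mk (by decide) (by decide) rfl rfl rfl rfl rfl rfl (rfl : _ = t4) (rfl : _ = t2)
  (st_mk (Pth.l (Pth.l (Pth.l Pth.z))) (nat_lit 117337297) (nat_lit 136400018) (by decide +kernel))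
  (st_mk (Pth.l (Pth.l (Pth.l Pth.z))) (nat_lit 153837099) (nat_lit 173385524) (by decide +kernel))
  (st_mk (Pth.l (Pth.l (Pth.l Pth.z))) (nat_lit 194642441) (nat_lit 218616651) (by decide +kernel)) sv1
theorem so2 : StarOK sI G S2 :=
  star_mk (by decide) (by decide) rfl rfl rfl rfl rfl rfl (rfl : _ = t0) (rfl : _ = t5)
  (st_mk (Pth.l (Pth.l (Pth.l Pth.z))) (nat_lit 240818762) (nat_lit 242925634) (by decide +kernel))
  (st_mk (Pth.l (Pth.l (Pth.l Pth.z))) (nat_lit 276594008) (nat_lit 279211131) (by decide +kernel))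
  (st_mk (Pth.l (Pth.l (Pth.l Pth.z))) (nat_lit 317491784) (nat_lit 321867871) (by decide +kernel)) sv2
theorem so3 : StarOK sI G S3 :=
  star_mk (by decide) (by decide) rfl rfl rfl rfl rfl rfl (rfl : _ = t5) (rfl : _ = t0)
  (st_mk (Pth.l (Pth.l (Pth.l Pth.z))) (nat_lit 116025522) (nat_lit 134836762) (by decide +kernel))
  (st_mk (Pth.l (Pth.l (Pth.l Pth.z))) (nat_lit 151578241) (nat_lit 170833909) (by decide +kernel))
  (st_mk (Pth.l (Pth.l (Pth.l Pth.z))) (nat_lit 190942764) (nat_lit 214586328) (by decide +kernel)) sv3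
theorem so4 : StarOK sI G S4 :=
  star_mk (by decide) (by decide) rfl rfl rfl rfl rfl rfl (rfl : _ = t1) (rfl : _ = t3)
  (st_mk (Pth.l (Pth.l (Pth.l Pth.z))) (nat_lit 239318941) (nat_lit 241278256) (by decide +kernel))
  (st_mk (Pth.l (Pth.l (Pth.l Pth.z))) (nat_lit 274612927) (nat_lit 277026831) (by decide +kernel))
  (st_mk (Pth.l (Pth.l (Pth.l Pth.z))) (nat_lit 315405455) (nat_lit 318425783) (by decide +kernel)) sv4
theorem so5 : StarOK sI G S5 :=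
  star_mk (by decide) (by decide) rfl rfl rfl rfl rfl rfl (rfl : _ = t3) (rfl : _ = t1)
  (st_mk (Pth.l (Pth.l (Pth.l Pth.z))) (nat_lit 140583244) (nat_lit 163067156) (by decide +kernel))
  (st_mk (Pth.l (Pth.l (Pth.l Pth.z))) (nat_lit 175804795) (nat_lit 198693425) (by decide +kernel))
  (st_mk (Pth.l (Pth.l (Pth.l Pth.z))) (nat_lit 216534569) (nat_lit 239987009) (by decide +kernel)) sv5
theorem ok : GroupOK (nat_lit 150274048) (nat_lit 209387520) G := grp_mk (allS_c so0 (allS_c so1 (allS_c so2 (allS_c so3 (allS_c so4 (allS_c so5 allS_n))))))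
theorem cov : GCov G cl5 cl7 cl9 := cov_mk
  ⟨0, by decide, rfl, rfl, rfl⟩ ⟨1, by decide, rfl, rfl, rfl⟩ ⟨2, by decide, rfl, rfl, rfl⟩ ⟨3, by decide, rfl, rfl, rfl⟩ ⟨4, by decide, rfl, rfl, rfl⟩ ⟨5, by decide, rfl, rfl, rfl⟩
end Q245_2


end Pool.Agent.Helper6.MONO
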