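import Pool.Agent.Helper6.MONO.Cert.C35

/-!
Certificate data (generated).
-/

set_option autoImplicit false
set_option linter.all false
noncomputable section
namespace Pool.Agent.Helper6.MONO


namespace Q245_3
def sI : I := I.pos (nat_lit 209321984) (nat_lit 268435456)
def b0_0 : Bx := Bx.mk (St.mk (I.pos (nat_lit 156532736) (nat_lit 231473152)) (I.mix (nat_lit 3325952) (nat_lit 55115776)) (I.mix (nat_lit 4308992) (nat_lit 73515008)) (I.pos (nat_lit 138051584) (nat_lit 276135936)) (I.mix (nat_lit 107085824) (nat_lit 56885248)) (I.mix (nat_lit 60588032) (nat_lit 52428800)) (I.mix (nat_lit 79560704) (nat_lit 76791808)))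
  false (nat_lit 11087520)
def b0_1 : Bx := Bx.mk (St.mk (I.mix (nat_lit 27492352) (nat_lit 124977152)) (I.mix (nat_lit 4931584) (nat_lit 31162368)) (I.mix (nat_lit 20840448) (nat_lit 12812288)) (I.pos (nat_lit 36978688) (nat_lit 119013376)) (I.mix (nat_lit 34488320) (nat_lit 42909696)) (I.mix (nat_lit 36634624) (nat_lit 26427392)) (I.mix (nat_lit 25952256) (nat_lit 15663104)))
  false (nat_lit 0)
def b0_2 : Bx := Bx.mk (St.mk (I.pos (nat_lit 91914240) (nat_lit 132726784)) (I.mix (nat_lit 48431104) (nat_lit 6635520)) (I.neg (nat_lit 4472832) (nat_lit 56197120)) (I.pos (nat_lit 76464128) (nat_lit 129417216)) (I.mix (nat_lit 85590016) (nat_lit 29949952)) (I.mix (nat_lit 29786112) (nat_lit 64634880)) (I.mix (nat_lit 21200896) (nat_lit 49676288)))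
  false (nat_lit 0)
def b0_3 : Bx := Bx.mk (St.mk (I.mix (nat_lit 40370176) (nat_lit 70877184)) (I.mix (nat_lit 31670272) (nat_lit 4096000)) (I.neg (nat_lit 229376) (nat_lit 22970368)) (I.pos (nat_lit 39206912) (nat_lit 81985536)) (I.mix (nat_lit 45285376) (nat_lit 26329088)) (I.mix (nat_lit 22478848) (nat_lit 29753344)) (I.mix (nat_lit 10993664) (nat_lit 13828096)))
  false (nat_lit 0)
def b0_4 : Bx := Bx.mk (St.mk (I.pos (nat_lit 192512000) (nat_lit 273776640)) (I.mix (nat_lit 7979008) (nat_lit 36323328)) (I.mix (nat_lit 68206592) (nat_lit 30949376)) (I.pos (nat_lit 208338944) (nat_lit 356990976)) (I.mix (nat_lit 77987840) (nat_lit 53116928)) (I.mix (nat_lit 47185920) (nat_lit 40484864)) (I.mix (nat_lit 72777728) (nat_lit 70189056)))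
  false (nat_lit 0)
def b0_5 : Bx := Bx.mk (St.mk (I.mix (nat_lit 41861120) (nat_lit 55984128)) (I.mix (nat_lit 3129344) (nat_lit 9961472)) (I.neg (nat_lit 2375680) (nat_lit 13123584)) (I.pos (nat_lit 41271296) (nat_lit 75104256)) (I.mix (nat_lit 9912320) (nat_lit 13549568)) (I.mix (nat_lit 7176192) (nat_lit 7127040)) (I.mix (nat_lit 3194880) (nat_lit 3768320)))
  false (nat_lit 0)
def b0_6 : Bx := Bx.mk (St.mk (I.pos (nat_lit 101924864) (nat_lit 172605440)) (I.neg (nat_lit 7995392) (nat_lit 48578560)) (I.neg (nat_lit 9289728) (nat_lit 55296000)) (I.pos (nat_lit 90980352) (nat_lit 177143808)) (I.mix (nat_lit 75038720) (nat_lit 36651008)) (I.mix (nat_lit 36945920) (nat_lit 48316416)) (I.mix (nat_lit 29704192) (nat_lit 46628864)))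
  false (nat_lit 0)
def b0_7 : Bx := Bx.mk (St.mk (I.mix (nat_lit 30490624) (nat_lit 87588864)) (I.mix (nat_lit 30015488) (nat_lit 8142848)) (I.neg (nat_lit 294912) (nat_lit 23592960)) (I.pos (nat_lit 37847040) (nat_lit 91652096)) (I.mix (nat_lit 44056576) (nat_lit 32489472)) (I.mix (nat_lit 25149440) (nat_lit 32948224)) (I.mix (nat_lit 13713408) (nat_lit 18153472)))
  false (nat_lit 0)
def b0_8 : Bx := Bx.mk (St.mk (I.pos (nat_lit 165347328) (nat_lit 213417984)) (I.mix (nat_lit 9437184) (nat_lit 54149120)) (I.mix (nat_lit 6275072) (nat_lit 70680576)) (I.pos (nat_lit 159055872) (nat_lit 241991680)) (I.mix (nat_lit 123846656) (nat_lit 48414720)) (I.mix (nat_lit 96829440) (nat_lit 63963136)) (I.mix (nat_lit 98779136) (nat_lit 66682880)))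
  false (nat_lit 0)
def b0_9 : Bx := Bx.mk (St.mk (I.mix (nat_lit 42336256) (nat_lit 115785728)) (I.mix (nat_lit 15089664) (nat_lit 33243136)) (I.mix (nat_lit 19660800) (nat_lit 15040512)) (I.pos (nat_lit 38256640) (nat_lit 112214016)) (I.mix (nat_lit 50151424) (nat_lit 29114368)) (I.mix (nat_lit 39944192) (nat_lit 29016064)) (I.mix (nat_lit 21151744) (nat_lit 16171008)))
  false (nat_lit 0)
def b0_10 : Bx := Bx.mk (St.mk (I.pos (nat_lit 94224384) (nat_lit 116588544)) (I.mix (nat_lit 3588096) (nat_lit 9715712)) (I.neg (nat_lit 3440640) (nat_lit 19202048)) (I.pos (nat_lit 78102528) (nat_lit 115572736)) (I.mix (nat_lit 12206080) (nat_lit 16318464)) (I.mix (nat_lit 10240000) (nat_lit 6815744)) (I.mix (nat_lit 8290304) (nat_lit 5570560)))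
  false (nat_lit 0)
def b0_11 : Bx := Bx.mk (St.mk (I.pos (nat_lit 187695104) (nat_lit 234471424)) (I.pos (nat_lit 8060928) (nat_lit 54411264)) (I.mix (nat_lit 6356992) (nat_lit 69697536)) (I.pos (nat_lit 212172800) (nat_lit 275038208)) (I.mix (nat_lit 88178688) (nat_lit 65634304)) (I.mix (nat_lit 66453504) (nat_lit 49971200)) (I.mix (nat_lit 103677952) (nat_lit 66994176)))
  false (nat_lit 2476878)
def b0_12 : Bx := Bx.mk (St.mk (I.pos (nat_lit 139067392) (nat_lit 206323712)) (I.mix (nat_lit 37371904) (nat_lit 13942784)) (I.mix (nat_lit 47710208) (nat_lit 17170432)) (I.pos (nat_lit 119341056) (nat_lit 223100928)) (I.mix (nat_lit 53297152) (nat_lit 46170112)) (I.mix (nat_lit 45154304) (nat_lit 38502400)) (I.mix (nat_lit 46383104) (nat_lit 37896192)))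
  false (nat_lit 0)
def b0_13 : Bx := Bx.mk (St.mk (I.pos (nat_lit 173309952) (nat_lit 208224256)) (I.mix (nat_lit 12845056) (nat_lit 21381120)) (I.mix (nat_lit 14368768) (nat_lit 29458432)) (I.pos (nat_lit 168837120) (nat_lit 219578368)) (I.mix (nat_lit 74760192) (nat_lit 51527680)) (I.mix (nat_lit 88539136) (nat_lit 43810816)) (I.mix (nat_lit 93552640) (nat_lit 44138496)))
  false (nat_lit 0)
def t0 : BTr := (BTr.n (BTr.n (BTr.n (BTr.b b0_0) (BTr.n (BTr.b b0_1) (BTr.b b0_2))) (BTr.n (BTr.n (BTr.b b0_3) (BTr.b b0_4)) (BTr.n (BTr.b b0_5) (BTr.b b0_6)))) (BTr.n (BTr.n (BTr.b b0_7) (BTr.n (BTr.b b0_8) (BTr.b b0_9))) (BTr.n (BTr.n (BTr.b b0_10) (BTr.b b0_11)) (BTr.n (BTr.b b0_12) (BTr.b b0_13)))))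
namespace T0
def l0 : Tr := Tr.L (Pth.l (Pth.l (Pth.l Pth.z)))
def l1 : Tr := Tr.L (Pth.l (Pth.l (Pth.r (Pth.l Pth.z))))
def l2 : Tr := Tr.L (Pth.l (Pth.l (Pth.r (Pth.r Pth.z))))
def l3 : Tr := Tr.L (Pth.l (Pth.r (Pth.l (Pth.l Pth.z))))
def l4 : Tr := Tr.L (Pth.l (Pth.r (Pth.l (Pth.r Pth.z))))
def l5 : Tr := Tr.L (Pth.l (Pth.r (Pth.r (Pth.l Pth.z))))
def l6 : Tr := Tr.L (Pth.l (Pth.r (Pth.r (Pth.r Pth.z))))
def l7 : Tr := Tr.L (Pth.r (Pth.l (Pth.l Pth.z)))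
def l8 : Tr := Tr.L (Pth.r (Pth.l (Pth.r (Pth.l Pth.z))))
def l9 : Tr := Tr.L (Pth.r (Pth.l (Pth.r (Pth.r Pth.z))))
def l10 : Tr := Tr.L (Pth.r (Pth.r (Pth.l (Pth.l Pth.z))))
def l11 : Tr := Tr.L (Pth.r (Pth.r (Pth.l (Pth.r Pth.z))))
def l12 : Tr := Tr.L (Pth.r (Pth.r (Pth.r (Pth.l Pth.z))))
def l13 : Tr := Tr.L (Pth.r (Pth.r (Pth.r (Pth.r Pth.z))))
end T0
def b1_0 : Bx := Bx.mk (St.mk (I.pos (nat_lit 156319744) (nat_lit 235094016)) (I.mix (nat_lit 3162112) (nat_lit 51314688)) (I.mix (nat_lit 4456448) (nat_lit 75005952)) (I.pos (nat_lit 110215168) (nat_lit 249561088)) (I.mix (nat_lit 103956480) (nat_lit 60588032)) (I.mix (nat_lit 63455232) (nat_lit 56852480)) (I.mix (nat_lit 88391680) (nat_lit 80494592)))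
  false (nat_lit 10010488)
def b1_1 : Bx := Bx.mk (St.mk (I.mix (nat_lit 27508736) (nat_lit 138215424)) (I.mix (nat_lit 4636672) (nat_lit 28082176)) (I.mix (nat_lit 14286848) (nat_lit 16891904)) (I.pos (nat_lit 11436032) (nat_lit 104267776)) (I.mix (nat_lit 38928384) (nat_lit 36503552)) (I.mix (nat_lit 27934720) (nat_lit 23396352)) (I.mix (nat_lit 21708800) (nat_lit 15892480)))
  false (nat_lit 0)
def b1_2 : Bx := Bx.mk (St.mk (I.pos (nat_lit 106020864) (nat_lit 144654336)) (I.mix (nat_lit 42385408) (nat_lit 6307840)) (I.neg (nat_lit 0) (nat_lit 48398336)) (I.pos (nat_lit 61194240) (nat_lit 114147328)) (I.mix (nat_lit 78184448) (nat_lit 29638656)) (I.mix (nat_lit 28688384) (nat_lit 60833792)) (I.mix (nat_lit 22757376) (nat_lit 50872320)))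
  false (nat_lit 0)
def b1_3 : Bx := Bx.mk (St.mk (I.mix (nat_lit 26918912) (nat_lit 103841792)) (I.mix (nat_lit 27410432) (nat_lit 1507328)) (I.mix (nat_lit 21184512) (nat_lit 917504)) (I.pos (nat_lit 14630912) (nat_lit 71712768)) (I.mix (nat_lit 43401216) (nat_lit 20496384)) (I.mix (nat_lit 19283968) (nat_lit 29376512)) (I.mix (nat_lit 10223616) (nat_lit 15761408)))
  false (nat_lit 0)
def b1_4 : Bx := Bx.mk (St.mk (I.pos (nat_lit 192086016) (nat_lit 272728064)) (I.mix (nat_lit 7880704) (nat_lit 34521088)) (I.mix (nat_lit 49840128) (nat_lit 41598976)) (I.pos (nat_lit 189693952) (nat_lit 326844416)) (I.mix (nat_lit 77709312) (nat_lit 46563328)) (I.mix (nat_lit 46022656) (nat_lit 37142528)) (I.mix (nat_lit 72286208) (nat_lit 62308352)))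
  false (nat_lit 0)
def b1_5 : Bx := Bx.mk (St.mk (I.pos (nat_lit 107659264) (nat_lit 129679360)) (I.mix (nat_lit 4030464) (nat_lit 8699904)) (I.mix (nat_lit 13631488) (nat_lit 475136)) (I.pos (nat_lit 62996480) (nat_lit 100548608)) (I.mix (nat_lit 11911168) (nat_lit 15712256)) (I.mix (nat_lit 10010624) (nat_lit 5521408)) (I.mix (nat_lit 8814592) (nat_lit 4440064)))
  false (nat_lit 0)
def b1_6 : Bx := Bx.mk (St.mk (I.mix (nat_lit 25591808) (nat_lit 79069184)) (I.mix (nat_lit 262144) (nat_lit 4653056)) (I.mix (nat_lit 6750208) (nat_lit 32768)) (I.pos (nat_lit 15876096) (nat_lit 58802176)) (I.mix (nat_lit 1409024) (nat_lit 5390336)) (I.mix (nat_lit 1703936) (nat_lit 1359872)) (I.mix (nat_lit 1146880) (nat_lit 933888)))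
  false (nat_lit 0)
def b1_7 : Bx := Bx.mk (St.mk (I.pos (nat_lit 114475008) (nat_lit 181813248)) (I.neg (nat_lit 5701632) (nat_lit 44744704)) (I.neg (nat_lit 5718016) (nat_lit 49037312)) (I.pos (nat_lit 77463552) (nat_lit 158220288)) (I.mix (nat_lit 69976064) (nat_lit 37797888)) (I.mix (nat_lit 35979264) (nat_lit 46481408)) (I.mix (nat_lit 30228480) (nat_lit 46645248)))
  false (nat_lit 0)
def b1_8 : Bx := Bx.mk (St.mk (I.mix (nat_lit 27688960) (nat_lit 108183552)) (I.mix (nat_lit 25755648) (nat_lit 6717440)) (I.mix (nat_lit 20971520) (nat_lit 1146880)) (I.pos (nat_lit 12648448) (nat_lit 78348288)) (I.mix (nat_lit 37371904) (nat_lit 29999104)) (I.mix (nat_lit 20299776) (nat_lit 29589504)) (I.mix (nat_lit 12124160) (nat_lit 18825216)))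
  false (nat_lit 0)
def b1_9 : Bx := Bx.mk (St.mk (I.pos (nat_lit 169656320) (nat_lit 214056960)) (I.mix (nat_lit 11632640) (nat_lit 46022656)) (I.mix (nat_lit 4243456) (nat_lit 69926912)) (I.pos (nat_lit 135872512) (nat_lit 212238336)) (I.mix (nat_lit 121372672) (nat_lit 43728896)) (I.mix (nat_lit 99549184) (nat_lit 58195968)) (I.mix (nat_lit 109330432) (nat_lit 61784064)))
  false (nat_lit 0)
def b1_10 : Bx := Bx.mk (St.mk (I.mix (nat_lit 29589504) (nat_lit 128614400)) (I.mix (nat_lit 16039936) (nat_lit 30474240)) (I.mix (nat_lit 15679488) (nat_lit 19546112)) (I.pos (nat_lit 13287424) (nat_lit 95649792)) (I.mix (nat_lit 49004544) (nat_lit 26083328)) (I.mix (nat_lit 39370752) (nat_lit 23855104)) (I.mix (nat_lit 24510464) (nat_lit 14614528)))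
  false (nat_lit 0)
def b1_11 : Bx := Bx.mk (St.mk (I.pos (nat_lit 145031168) (nat_lit 209944576)) (I.mix (nat_lit 35831808) (nat_lit 11157504)) (I.mix (nat_lit 42827776) (nat_lit 19185664)) (I.pos (nat_lit 106774528) (nat_lit 198541312)) (I.mix (nat_lit 54738944) (nat_lit 45039616)) (I.mix (nat_lit 44417024) (nat_lit 37879808)) (I.mix (nat_lit 47792128) (nat_lit 38518784)))
  false (nat_lit 20584427)
def b1_12 : Bx := Bx.mk (St.mk (I.pos (nat_lit 170180608) (nat_lit 209600512)) (I.mix (nat_lit 15138816) (nat_lit 26050560)) (I.mix (nat_lit 11272192) (nat_lit 42188800)) (I.pos (nat_lit 137805824) (nat_lit 200523776)) (I.mix (nat_lit 99287040) (nat_lit 49348608)) (I.mix (nat_lit 92602368) (nat_lit 44056576)) (I.mix (nat_lit 103448576) (nat_lit 44941312)))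
  false (nat_lit 0)
def b1_13 : Bx := Bx.mk (St.mk (I.pos (nat_lit 187449344) (nat_lit 235651072)) (I.pos (nat_lit 10452992) (nat_lit 49053696)) (I.pos (nat_lit 8552448) (nat_lit 72794112)) (I.pos (nat_lit 186990592) (nat_lit 246071296)) (I.mix (nat_lit 87900160) (nat_lit 62128128)) (I.mix (nat_lit 67895296) (nat_lit 48971776)) (I.mix (nat_lit 108085248) (nat_lit 61128704)))
  false (nat_lit 2850417)
def t1 : BTr := (BTr.n (BTr.n (BTr.n (BTr.b b1_0) (BTr.n (BTr.b b1_1) (BTr.b b1_2))) (BTr.n (BTr.n (BTr.b b1_3) (BTr.b b1_4)) (BTr.n (BTr.b b1_5) (BTr.b b1_6)))) (BTr.n (BTr.n (BTr.b b1_7) (BTr.n (BTr.b b1_8) (BTr.b b1_9))) (BTr.n (BTr.n (BTr.b b1_10) (BTr.b b1_11)) (BTr.n (BTr.b b1_12) (BTr.b b1_13)))))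
namespace T1
def l0 : Tr := Tr.L (Pth.l (Pth.l (Pth.l Pth.z)))
def l1 : Tr := Tr.L (Pth.l (Pth.l (Pth.r (Pth.l Pth.z))))
def l2 : Tr := Tr.L (Pth.l (Pth.l (Pth.r (Pth.r Pth.z))))
def l3 : Tr := Tr.L (Pth.l (Pth.r (Pth.l (Pth.l Pth.z))))
def l4 : Tr := Tr.L (Pth.l (Pth.r (Pth.l (Pth.r Pth.z))))
def l5 : Tr := Tr.L (Pth.l (Pth.r (Pth.r (Pth.l Pth.z))))
def l6 : Tr := Tr.L (Pth.l (Pth.r (Pth.r (Pth.r Pth.z))))
def l7 : Tr := Tr.L (Pth.r (Pth.l (Pth.l Pth.z)))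
def l8 : Tr := Tr.L (Pth.r (Pth.l (Pth.r (Pth.l Pth.z))))
def l9 : Tr := Tr.L (Pth.r (Pth.l (Pth.r (Pth.r Pth.z))))
def l10 : Tr := Tr.L (Pth.r (Pth.r (Pth.l (Pth.l Pth.z))))
def l11 : Tr := Tr.L (Pth.r (Pth.r (Pth.l (Pth.r Pth.z))))
def l12 : Tr := Tr.L (Pth.r (Pth.r (Pth.r (Pth.l Pth.z))))
def l13 : Tr := Tr.L (Pth.r (Pth.r (Pth.r (Pth.r Pth.z))))
end T1
def b2_0 : Bx := Bx.mk (St.mk (I.pos (nat_lit 149602304) (nat_lit 222855168)) (I.mix (nat_lit 4030464) (nat_lit 66519040)) (I.mix (nat_lit 5177344) (nat_lit 86949888)) (I.pos (nat_lit 235028480) (nat_lit 340738048)) (I.mix (nat_lit 114606080) (nat_lit 67715072)) (I.mix (nat_lit 61014016) (nat_lit 56115200)) (I.mix (nat_lit 80642048) (nat_lit 79069184)))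
  false (nat_lit 89235957)
def b2_1 : Bx := Bx.mk (St.mk (I.pos (nat_lit 18890752) (nat_lit 78495744)) (I.mix (nat_lit 13074432) (nat_lit 46645248)) (I.mix (nat_lit 29392896) (nat_lit 4833280)) (I.pos (nat_lit 142819328) (nat_lit 163250176)) (I.mix (nat_lit 33177600) (nat_lit 54067200)) (I.mix (nat_lit 39075840) (nat_lit 26673152)) (I.mix (nat_lit 21692416) (nat_lit 10895360)))
  false (nat_lit 0)
def b2_2 : Bx := Bx.mk (St.mk (I.pos (nat_lit 49283072) (nat_lit 97157120)) (I.mix (nat_lit 61997056) (nat_lit 15007744)) (I.neg (nat_lit 8585216) (nat_lit 58802176)) (I.pos (nat_lit 146849792) (nat_lit 183435264)) (I.mix (nat_lit 85393408) (nat_lit 29179904)) (I.mix (nat_lit 28262400) (nat_lit 66600960)) (I.mix (nat_lit 22937600) (nat_lit 39927808)))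
  false (nat_lit 0)
def b2_3 : Bx := Bx.mk (St.mk (I.neg (nat_lit 18890752) (nat_lit 78495744)) (I.mix (nat_lit 46645248) (nat_lit 13074432)) (I.mix (nat_lit 29392896) (nat_lit 4833280)) (I.pos (nat_lit 142819328) (nat_lit 163250176)) (I.mix (nat_lit 54067200) (nat_lit 33177600)) (I.mix (nat_lit 26673152) (nat_lit 39075840)) (I.mix (nat_lit 21692416) (nat_lit 10895360)))
  true (nat_lit 0)
def b2_4 : Bx := Bx.mk (St.mk (I.pos (nat_lit 66764800) (nat_lit 162545664)) (I.neg (nat_lit 8388608) (nat_lit 62390272)) (I.neg (nat_lit 606208) (nat_lit 60227584)) (I.pos (nat_lit 159924224) (nat_lit 239550464)) (I.mix (nat_lit 81575936) (nat_lit 46071808)) (I.mix (nat_lit 37044224) (nat_lit 54050816)) (I.mix (nat_lit 32964608) (nat_lit 47529984)))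
  false (nat_lit 0)
def b2_5 : Bx := Bx.mk (St.mk (I.mix (nat_lit 41451520) (nat_lit 12566528)) (I.mix (nat_lit 42713088) (nat_lit 10878976)) (I.mix (nat_lit 8601600) (nat_lit 2621440)) (I.pos (nat_lit 139902976) (nat_lit 154681344)) (I.mix (nat_lit 29704192) (nat_lit 41091072)) (I.mix (nat_lit 24215552) (nat_lit 34963456)) (I.mix (nat_lit 6160384) (nat_lit 6291456)))
  true (nat_lit 0)
def b2_6 : Bx := Bx.mk (St.mk (I.pos (nat_lit 146735104) (nat_lit 194658304)) (I.pos (nat_lit 32768) (nat_lit 63520768)) (I.pos (nat_lit 9912320) (nat_lit 87064576)) (I.pos (nat_lit 230342656) (nat_lit 299728896)) (I.mix (nat_lit 124649472) (nat_lit 38666240)) (I.mix (nat_lit 100892672) (nat_lit 53116928)) (I.mix (nat_lit 95633408) (nat_lit 59686912)))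
  false (nat_lit 73842477)
def b2_7 : Bx := Bx.mk (St.mk (I.mix (nat_lit 12566528) (nat_lit 41451520)) (I.mix (nat_lit 10878976) (nat_lit 42713088)) (I.mix (nat_lit 8601600) (nat_lit 2621440)) (I.pos (nat_lit 139902976) (nat_lit 154681344)) (I.mix (nat_lit 41091072) (nat_lit 29704192)) (I.mix (nat_lit 34963456) (nat_lit 24215552)) (I.mix (nat_lit 6160384) (nat_lit 6291456)))
  false (nat_lit 0)
def b2_8 : Bx := Bx.mk (St.mk (I.pos (nat_lit 187400192) (nat_lit 293453824)) (I.mix (nat_lit 30539776) (nat_lit 48447488)) (I.mix (nat_lit 115802112) (nat_lit 49659904)) (I.pos (nat_lit 290652160) (nat_lit 462585856)) (I.mix (nat_lit 80052224) (nat_lit 67731456)) (I.mix (nat_lit 67092480) (nat_lit 49250304)) (I.mix (nat_lit 117850112) (nat_lit 92012544)))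
  false (nat_lit 90376003)
def b2_9 : Bx := Bx.mk (St.mk (I.pos (nat_lit 123060224) (nat_lit 192462848)) (I.mix (nat_lit 32325632) (nat_lit 19316736)) (I.mix (nat_lit 29982720) (nat_lit 32030720)) (I.pos (nat_lit 200097792) (nat_lit 283688960)) (I.mix (nat_lit 53788672) (nat_lit 50954240)) (I.mix (nat_lit 44318720) (nat_lit 42319872)) (I.mix (nat_lit 43122688) (nat_lit 40763392)))
  false (nat_lit 0)
def b2_10 : Bx := Bx.mk (St.mk (I.pos (nat_lit 150437888) (nat_lit 194723840)) (I.mix (nat_lit 6619136) (nat_lit 41680896)) (I.mix (nat_lit 2162688) (nat_lit 62423040)) (I.pos (nat_lit 235995136) (nat_lit 289374208)) (I.mix (nat_lit 114720768) (nat_lit 57655296)) (I.mix (nat_lit 104857600) (nat_lit 50102272)) (I.mix (nat_lit 102187008) (nat_lit 51101696)))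
  false (nat_lit 29468869)
def b2_11 : Bx := Bx.mk (St.mk (I.pos (nat_lit 171081728) (nat_lit 226426880)) (I.pos (nat_lit 21086208) (nat_lit 66060288)) (I.pos (nat_lit 14663680) (nat_lit 83869696)) (I.pos (nat_lit 280231936) (nat_lit 336150528)) (I.mix (nat_lit 101662720) (nat_lit 78708736)) (I.mix (nat_lit 73990144) (nat_lit 59932672)) (I.mix (nat_lit 109428736) (nat_lit 81723392)))
  false (nat_lit 88280502)
def t2 : BTr := (BTr.n (BTr.n (BTr.n (BTr.b b2_0) (BTr.n (BTr.b b2_1) (BTr.b b2_2))) (BTr.n (BTr.b b2_3) (BTr.n (BTr.b b2_4) (BTr.b b2_5)))) (BTr.n (BTr.n (BTr.b b2_6) (BTr.n (BTr.b b2_7) (BTr.b b2_8))) (BTr.n (BTr.b b2_9) (BTr.n (BTr.b b2_10) (BTr.b b2_11)))))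
namespace T2
def l0 : Tr := Tr.L (Pth.l (Pth.l (Pth.l Pth.z)))
def l1 : Tr := Tr.L (Pth.l (Pth.l (Pth.r (Pth.l Pth.z))))
def l2 : Tr := Tr.L (Pth.l (Pth.l (Pth.r (Pth.r Pth.z))))
def l3 : Tr := Tr.L (Pth.l (Pth.r (Pth.l Pth.z)))
def l4 : Tr := Tr.L (Pth.l (Pth.r (Pth.r (Pth.l Pth.z))))
def l5 : Tr := Tr.L (Pth.l (Pth.r (Pth.r (Pth.r Pth.z))))
def l6 : Tr := Tr.L (Pth.r (Pth.l (Pth.l Pth.z)))
def l7 : Tr := Tr.L (Pth.r (Pth.l (Pth.r (Pth.l Pth.z))))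
def l8 : Tr := Tr.L (Pth.r (Pth.l (Pth.r (Pth.r Pth.z))))
def l9 : Tr := Tr.L (Pth.r (Pth.r (Pth.l Pth.z)))
def l10 : Tr := Tr.L (Pth.r (Pth.r (Pth.r (Pth.l Pth.z))))
def l11 : Tr := Tr.L (Pth.r (Pth.r (Pth.r (Pth.r Pth.z))))
end T2
def b3_0 : Bx := Bx.mk (St.mk (I.pos (nat_lit 150765568) (nat_lit 234258432)) (I.mix (nat_lit 2850816) (nat_lit 46825472)) (I.mix (nat_lit 5799936) (nat_lit 97861632)) (I.pos (nat_lit 109592576) (nat_lit 232521728)) (I.mix (nat_lit 111558656) (nat_lit 76251136)) (I.mix (nat_lit 78135296) (nat_lit 74465280)) (I.mix (nat_lit 112230400) (nat_lit 96256000)))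
  false (nat_lit 56851568)
def b3_1 : Bx := Bx.mk (St.mk (I.pos (nat_lit 112787456) (nat_lit 176799744)) (I.neg (nat_lit 7503872) (nat_lit 49217536)) (I.mix (nat_lit 40042496) (nat_lit 2424832)) (I.pos (nat_lit 81510400) (nat_lit 155762688)) (I.mix (nat_lit 63619072) (nat_lit 34111488)) (I.mix (nat_lit 30179328) (nat_lit 40271872)) (I.mix (nat_lit 28098560) (nat_lit 39469056)))
  false (nat_lit 43476886)
def b3_2 : Bx := Bx.mk (St.mk (I.mix (nat_lit 23429120) (nat_lit 106577920)) (I.mix (nat_lit 27131904) (nat_lit 2424832)) (I.mix (nat_lit 13942784) (nat_lit 6995968)) (I.pos (nat_lit 13484032) (nat_lit 76578816)) (I.mix (nat_lit 32227328) (nat_lit 32129024)) (I.mix (nat_lit 17891328) (nat_lit 26411008)) (I.mix (nat_lit 9895936) (nat_lit 15859712)))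
  false (nat_lit 0)
def b3_3 : Bx := Bx.mk (St.mk (I.pos (nat_lit 164134912) (nat_lit 208060416)) (I.mix (nat_lit 13582336) (nat_lit 42172416)) (I.pos (nat_lit 10403840) (nat_lit 84541440)) (I.pos (nat_lit 124174336) (nat_lit 196296704)) (I.mix (nat_lit 122847232) (nat_lit 42926080)) (I.mix (nat_lit 99352576) (nat_lit 54214656)) (I.mix (nat_lit 119209984) (nat_lit 47972352)))
  false (nat_lit 42108970)
def b3_4 : Bx := Bx.mk (St.mk (I.mix (nat_lit 28819456) (nat_lit 125173760)) (I.mix (nat_lit 11059200) (nat_lit 28065792)) (I.mix (nat_lit 2555904) (nat_lit 28016640)) (I.pos (nat_lit 13385728) (nat_lit 91242496)) (I.mix (nat_lit 53706752) (nat_lit 26083328)) (I.mix (nat_lit 41582592) (nat_lit 20742144)) (I.mix (nat_lit 26902528) (nat_lit 11845632)))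
  false (nat_lit 0)
def b3_5 : Bx := Bx.mk (St.mk (I.pos (nat_lit 152158208) (nat_lit 208650240)) (I.mix (nat_lit 31342592) (nat_lit 8847360)) (I.mix (nat_lit 19398656) (nat_lit 38617088)) (I.pos (nat_lit 111067136) (nat_lit 191610880)) (I.mix (nat_lit 52609024) (nat_lit 54525952)) (I.mix (nat_lit 46776320) (nat_lit 45613056)) (I.mix (nat_lit 44810240) (nat_lit 47579136)))
  false (nat_lit 48826003)
def b3_6 : Bx := Bx.mk (St.mk (I.pos (nat_lit 149798912) (nat_lit 179388416)) (I.neg (nat_lit 10076160) (nat_lit 38486016)) (I.mix (nat_lit 27803648) (nat_lit 4898816)) (I.pos (nat_lit 112295936) (nat_lit 158351360)) (I.mix (nat_lit 36667392) (nat_lit 25722880)) (I.mix (nat_lit 17072128) (nat_lit 22233088)) (I.mix (nat_lit 16744448) (nat_lit 22822912)))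
  false (nat_lit 0)
def b3_7 : Bx := Bx.mk (St.mk (I.mix (nat_lit 44040192) (nat_lit 110346240)) (I.mix (nat_lit 16744448) (nat_lit 3686400)) (I.mix (nat_lit 6914048) (nat_lit 8388608)) (I.pos (nat_lit 13238272) (nat_lit 78315520)) (I.mix (nat_lit 13615104) (nat_lit 15106048)) (I.mix (nat_lit 8404992) (nat_lit 9175040)) (I.mix (nat_lit 4997120) (nat_lit 5898240)))
  false (nat_lit 0)
def b3_8 : Bx := Bx.mk (St.mk (I.pos (nat_lit 166887424) (nat_lit 203751424)) (I.mix (nat_lit 17547264) (nat_lit 19431424)) (I.pos (nat_lit 5439488) (nat_lit 53100544)) (I.pos (nat_lit 123584512) (nat_lit 188088320)) (I.mix (nat_lit 94175232) (nat_lit 51019776)) (I.mix (nat_lit 88555520) (nat_lit 39305216)) (I.mix (nat_lit 99663872) (nat_lit 35749888)))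
  false (nat_lit 62422117)
def b3_9 : Bx := Bx.mk (St.mk (I.mix (nat_lit 31981568) (nat_lit 140443648)) (I.mix (nat_lit 9912320) (nat_lit 26476544)) (I.mix (nat_lit 6340608) (nat_lit 27901952)) (I.pos (nat_lit 10698752) (nat_lit 105103360)) (I.mix (nat_lit 50626560) (nat_lit 40255488)) (I.mix (nat_lit 36847616) (nat_lit 30146560)) (I.mix (nat_lit 29261824) (nat_lit 21577728)))
  false (nat_lit 0)
def b3_10 : Bx := Bx.mk (St.mk (I.pos (nat_lit 103710720) (nat_lit 149143552)) (I.mix (nat_lit 45907968) (nat_lit 11632640)) (I.mix (nat_lit 39108608) (nat_lit 16121856)) (I.pos (nat_lit 61456384) (nat_lit 119881728)) (I.mix (nat_lit 77676544) (nat_lit 28999680)) (I.mix (nat_lit 29032448) (nat_lit 60129280)) (I.mix (nat_lit 22495232) (nat_lit 46284800)))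
  false (nat_lit 13439832)
def b3_11 : Bx := Bx.mk (St.mk (I.mix (nat_lit 28344320) (nat_lit 107855872)) (I.mix (nat_lit 27607040) (nat_lit 5668864)) (I.mix (nat_lit 13107200) (nat_lit 8323072)) (I.pos (nat_lit 14712832) (nat_lit 74072064)) (I.mix (nat_lit 40337408) (nat_lit 28606464)) (I.mix (nat_lit 21118976) (nat_lit 27820032)) (I.mix (nat_lit 10567680) (nat_lit 13516800)))
  false (nat_lit 0)
def b3_12 : Bx := Bx.mk (St.mk (I.pos (nat_lit 186728448) (nat_lit 289046528)) (I.mix (nat_lit 27312128) (nat_lit 36061184)) (I.mix (nat_lit 44285952) (nat_lit 81608704)) (I.pos (nat_lit 170508288) (nat_lit 351453184)) (I.mix (nat_lit 81100800) (nat_lit 62439424)) (I.mix (nat_lit 59817984) (nat_lit 48398336)) (I.mix (nat_lit 103251968) (nat_lit 80478208)))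
  false (nat_lit 80456810)
def b3_13 : Bx := Bx.mk (St.mk (I.pos (nat_lit 176193536) (nat_lit 230883328)) (I.pos (nat_lit 13074432) (nat_lit 46235648)) (I.pos (nat_lit 36601856) (nat_lit 96403456)) (I.pos (nat_lit 165478400) (nat_lit 225853440)) (I.mix (nat_lit 105578496) (nat_lit 76939264)) (I.mix (nat_lit 84852736) (nat_lit 65306624)) (I.mix (nat_lit 132202496) (nat_lit 80134144)))
  false (nat_lit 61174170)
def t3 : BTr := (BTr.n (BTr.n (BTr.n (BTr.b b3_0) (BTr.n (BTr.b b3_1) (BTr.b b3_2))) (BTr.n (BTr.n (BTr.b b3_3) (BTr.b b3_4)) (BTr.n (BTr.b b3_5) (BTr.b b3_6)))) (BTr.n (BTr.n (BTr.b b3_7) (BTr.n (BTr.b b3_8) (BTr.b b3_9))) (BTr.n (BTr.n (BTr.b b3_10) (BTr.b b3_11)) (BTr.n (BTr.b b3_12) (BTr.b b3_13)))))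
namespace T3
def l0 : Tr := Tr.L (Pth.l (Pth.l (Pth.l Pth.z)))
def l1 : Tr := Tr.L (Pth.l (Pth.l (Pth.r (Pth.l Pth.z))))
def l2 : Tr := Tr.L (Pth.l (Pth.l (Pth.r (Pth.r Pth.z))))
def l3 : Tr := Tr.L (Pth.l (Pth.r (Pth.l (Pth.l Pth.z))))
def l4 : Tr := Tr.L (Pth.l (Pth.r (Pth.l (Pth.r Pth.z))))
def l5 : Tr := Tr.L (Pth.l (Pth.r (Pth.r (Pth.l Pth.z))))
def l6 : Tr := Tr.L (Pth.l (Pth.r (Pth.r (Pth.r Pth.z))))
def l7 : Tr := Tr.L (Pth.r (Pth.l (Pth.l Pth.z)))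
def l8 : Tr := Tr.L (Pth.r (Pth.l (Pth.r (Pth.l Pth.z))))
def l9 : Tr := Tr.L (Pth.r (Pth.l (Pth.r (Pth.r Pth.z))))
def l10 : Tr := Tr.L (Pth.r (Pth.r (Pth.l (Pth.l Pth.z))))
def l11 : Tr := Tr.L (Pth.r (Pth.r (Pth.l (Pth.r Pth.z))))
def l12 : Tr := Tr.L (Pth.r (Pth.r (Pth.r (Pth.l Pth.z))))
def l13 : Tr := Tr.L (Pth.r (Pth.r (Pth.r (Pth.r Pth.z))))
end T3
def b4_0 : Bx := Bx.mk (St.mk (I.pos (nat_lit 143785984) (nat_lit 221806592)) (I.mix (nat_lit 3948544) (nat_lit 65224704)) (I.mix (nat_lit 5816320) (nat_lit 98189312)) (I.pos (nat_lit 233652224) (nat_lit 333266944)) (I.mix (nat_lit 120471552) (nat_lit 66633728)) (I.mix (nat_lit 68714496) (nat_lit 59752448)) (I.mix (nat_lit 87916544) (nat_lit 82722816)))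
  false (nat_lit 110191211)
def b4_1 : Bx := Bx.mk (St.mk (I.pos (nat_lit 67518464) (nat_lit 164249600)) (I.neg (nat_lit 5750784) (nat_lit 64684032)) (I.mix (nat_lit 54607872) (nat_lit 12517376)) (I.pos (nat_lit 162332672) (nat_lit 240467968)) (I.mix (nat_lit 76611584) (nat_lit 49905664)) (I.mix (nat_lit 36683776) (nat_lit 51052544)) (I.mix (nat_lit 33308672) (nat_lit 44515328)))
  false (nat_lit 0)
def b4_2 : Bx := Bx.mk (St.mk (I.mix (nat_lit 38338560) (nat_lit 12845056)) (I.mix (nat_lit 43040768) (nat_lit 11370496)) (I.mix (nat_lit 1818624) (nat_lit 9175040)) (I.pos (nat_lit 139886592) (nat_lit 154025984)) (I.mix (nat_lit 26099712) (nat_lit 46022656)) (I.mix (nat_lit 22085632) (nat_lit 34783232)) (I.mix (nat_lit 5570560) (nat_lit 6455296)))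
  true (nat_lit 0)
def b4_3 : Bx := Bx.mk (St.mk (I.pos (nat_lit 145195008) (nat_lit 191840256)) (I.pos (nat_lit 32768) (nat_lit 61898752)) (I.pos (nat_lit 20021248) (nat_lit 96108544)) (I.pos (nat_lit 225411072) (nat_lit 291946496)) (I.mix (nat_lit 125583360) (nat_lit 32964608)) (I.mix (nat_lit 100270080) (nat_lit 50003968)) (I.mix (nat_lit 96813056) (nat_lit 54493184)))
  false (nat_lit 74199932)
def b4_4 : Bx := Bx.mk (St.mk (I.mix (nat_lit 12845056) (nat_lit 38338560)) (I.mix (nat_lit 11370496) (nat_lit 43040768)) (I.mix (nat_lit 1818624) (nat_lit 9175040)) (I.pos (nat_lit 139886592) (nat_lit 154025984)) (I.mix (nat_lit 46022656) (nat_lit 26099712)) (I.mix (nat_lit 34783232) (nat_lit 22085632)) (I.mix (nat_lit 5570560) (nat_lit 6455296)))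
  false (nat_lit 0)
def b4_5 : Bx := Bx.mk (St.mk (I.pos (nat_lit 15859712) (nat_lit 78430208)) (I.mix (nat_lit 12140544) (nat_lit 46137344)) (I.mix (nat_lit 22183936) (nat_lit 11534336)) (I.pos (nat_lit 143065088) (nat_lit 163053568)) (I.mix (nat_lit 36061184) (nat_lit 48168960)) (I.mix (nat_lit 38092800) (nat_lit 28737536)) (I.mix (nat_lit 20807680) (nat_lit 12648448)))
  false (nat_lit 0)
def b4_6 : Bx := Bx.mk (St.mk (I.pos (nat_lit 49872896) (nat_lit 100614144)) (I.mix (nat_lit 63995904) (nat_lit 14516224)) (I.neg (nat_lit 2670592) (nat_lit 52494336)) (I.pos (nat_lit 147718144) (nat_lit 187236352)) (I.mix (nat_lit 85278720) (nat_lit 31227904)) (I.mix (nat_lit 30752768) (nat_lit 64110592)) (I.mix (nat_lit 25935872) (nat_lit 37535744)))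
  false (nat_lit 0)
def b4_7 : Bx := Bx.mk (St.mk (I.neg (nat_lit 15859712) (nat_lit 78430208)) (I.mix (nat_lit 46137344) (nat_lit 12140544)) (I.mix (nat_lit 22183936) (nat_lit 11534336)) (I.pos (nat_lit 143065088) (nat_lit 163053568)) (I.mix (nat_lit 48168960) (nat_lit 36061184)) (I.mix (nat_lit 28737536) (nat_lit 38092800)) (I.mix (nat_lit 20807680) (nat_lit 12648448)))
  true (nat_lit 0)
def b4_8 : Bx := Bx.mk (St.mk (I.pos (nat_lit 124338176) (nat_lit 189480960)) (I.mix (nat_lit 32178176) (nat_lit 15925248)) (I.mix (nat_lit 20496384) (nat_lit 40648704)) (I.pos (nat_lit 202768384) (nat_lit 277266432)) (I.mix (nat_lit 55869440) (nat_lit 51003392)) (I.mix (nat_lit 46563328) (nat_lit 41779200)) (I.mix (nat_lit 44400640) (nat_lit 40435712)))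
  false (nat_lit 0)
def b4_9 : Bx := Bx.mk (St.mk (I.pos (nat_lit 182140928) (nat_lit 290897920)) (I.mix (nat_lit 26312704) (nat_lit 49512448)) (I.mix (nat_lit 88031232) (nat_lit 67059712)) (I.pos (nat_lit 281427968) (nat_lit 456261632)) (I.mix (nat_lit 79134720) (nat_lit 65798144)) (I.mix (nat_lit 61161472) (nat_lit 43008000)) (I.mix (nat_lit 105791488) (nat_lit 79314944)))
  false (nat_lit 107440384)
def b4_10 : Bx := Bx.mk (St.mk (I.pos (nat_lit 166838272) (nat_lit 223821824)) (I.pos (nat_lit 13697024) (nat_lit 62472192)) (I.pos (nat_lit 14745600) (nat_lit 92356608)) (I.pos (nat_lit 271712256) (nat_lit 329973760)) (I.mix (nat_lit 104513536) (nat_lit 74973184)) (I.mix (nat_lit 78577664) (nat_lit 58638336)) (I.mix (nat_lit 113819648) (nat_lit 73154560)))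
  false (nat_lit 85070356)
def b4_11 : Bx := Bx.mk (St.mk (I.pos (nat_lit 146292736) (nat_lit 192249856)) (I.mix (nat_lit 8093696) (nat_lit 40435712)) (I.pos (nat_lit 7569408) (nat_lit 72089600)) (I.pos (nat_lit 227901440) (nat_lit 283836416)) (I.mix (nat_lit 122617856) (nat_lit 53690368)) (I.mix (nat_lit 107364352) (nat_lit 48037888)) (I.mix (nat_lit 105037824) (nat_lit 49545216)))
  false (nat_lit 52787918)
def t4 : BTr := (BTr.n (BTr.n (BTr.n (BTr.b b4_0) (BTr.n (BTr.b b4_1) (BTr.b b4_2))) (BTr.n (BTr.b b4_3) (BTr.n (BTr.b b4_4) (BTr.b b4_5)))) (BTr.n (BTr.n (BTr.b b4_6) (BTr.n (BTr.b b4_7) (BTr.b b4_8))) (BTr.n (BTr.b b4_9) (BTr.n (BTr.b b4_10) (BTr.b b4_11)))))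
namespace T4
def l0 : Tr := Tr.L (Pth.l (Pth.l (Pth.l Pth.z)))
def l1 : Tr := Tr.L (Pth.l (Pth.l (Pth.r (Pth.l Pth.z))))
def l2 : Tr := Tr.L (Pth.l (Pth.l (Pth.r (Pth.r Pth.z))))
def l3 : Tr := Tr.L (Pth.l (Pth.r (Pth.l Pth.z)))
def l4 : Tr := Tr.L (Pth.l (Pth.r (Pth.r (Pth.l Pth.z))))
def l5 : Tr := Tr.L (Pth.l (Pth.r (Pth.r (Pth.r Pth.z))))
def l6 : Tr := Tr.L (Pth.r (Pth.l (Pth.l Pth.z)))
def l7 : Tr := Tr.L (Pth.r (Pth.l (Pth.r (Pth.l Pth.z))))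
def l8 : Tr := Tr.L (Pth.r (Pth.l (Pth.r (Pth.r Pth.z))))
def l9 : Tr := Tr.L (Pth.r (Pth.r (Pth.l Pth.z)))
def l10 : Tr := Tr.L (Pth.r (Pth.r (Pth.r (Pth.l Pth.z))))
def l11 : Tr := Tr.L (Pth.r (Pth.r (Pth.r (Pth.r Pth.z))))
end T4
def b5_0 : Bx := Bx.mk (St.mk (I.pos (nat_lit 147177472) (nat_lit 230260736)) (I.mix (nat_lit 3063808) (nat_lit 50003968)) (I.mix (nat_lit 5996544) (nat_lit 101695488)) (I.pos (nat_lit 136462336) (nat_lit 250380288)) (I.mix (nat_lit 122978304) (nat_lit 69042176)) (I.mix (nat_lit 85360640) (nat_lit 73465856)) (I.mix (nat_lit 109985792) (nat_lit 90308608)))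
  false (nat_lit 62051470)
def b5_1 : Bx := Bx.mk (St.mk (I.pos (nat_lit 103874560) (nat_lit 173326336)) (I.neg (nat_lit 9617408) (nat_lit 53313536)) (I.mix (nat_lit 39862272) (nat_lit 6832128)) (I.pos (nat_lit 98811904) (nat_lit 177766400)) (I.mix (nat_lit 66142208) (nat_lit 37060608)) (I.mix (nat_lit 30982144) (nat_lit 39960576)) (I.mix (nat_lit 28590080) (nat_lit 37978112)))
  false (nat_lit 45868917)
def b5_2 : Bx := Bx.mk (St.mk (I.mix (nat_lit 25444352) (nat_lit 90013696)) (I.mix (nat_lit 30883840) (nat_lit 4128768)) (I.mix (nat_lit 10944512) (nat_lit 12173312)) (I.pos (nat_lit 38453248) (nat_lit 92323840)) (I.mix (nat_lit 33275904) (nat_lit 37699584)) (I.mix (nat_lit 24690688) (nat_lit 28917760)) (I.mix (nat_lit 10977280) (nat_lit 15515648)))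
  false (nat_lit 2532560)
def b5_3 : Bx := Bx.mk (St.mk (I.pos (nat_lit 158285824) (nat_lit 204767232)) (I.mix (nat_lit 9568256) (nat_lit 48283648)) (I.pos (nat_lit 19316736) (nat_lit 93503488)) (I.pos (nat_lit 141164544) (nat_lit 216858624)) (I.mix (nat_lit 132726784) (nat_lit 49184768)) (I.mix (nat_lit 101924864) (nat_lit 58277888)) (I.mix (nat_lit 111476736) (nat_lit 49594368)))
  false (nat_lit 63316552)
def b5_4 : Bx := Bx.mk (St.mk (I.mix (nat_lit 42205184) (nat_lit 109215744)) (I.mix (nat_lit 11075584) (nat_lit 32473088)) (I.mix (nat_lit 3276800) (nat_lit 30507008)) (I.pos (nat_lit 38830080) (nat_lit 105611264)) (I.mix (nat_lit 57671680) (nat_lit 24166400)) (I.mix (nat_lit 43794432) (nat_lit 24428544)) (I.mix (nat_lit 24297472) (nat_lit 14696448)))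
  false (nat_lit 0)
def b5_5 : Bx := Bx.mk (St.mk (I.pos (nat_lit 146833408) (nat_lit 204570624)) (I.mix (nat_lit 31686656) (nat_lit 10125312)) (I.mix (nat_lit 11075584) (nat_lit 45236224)) (I.pos (nat_lit 131448832) (nat_lit 210337792)) (I.mix (nat_lit 52822016) (nat_lit 55148544)) (I.mix (nat_lit 47988736) (nat_lit 46481408)) (I.mix (nat_lit 45088768) (nat_lit 46219264)))
  false (nat_lit 55111476)
def b5_6 : Bx := Bx.mk (St.mk (I.mix (nat_lit 44367872) (nat_lit 107298816)) (I.mix (nat_lit 17203200) (nat_lit 4866048)) (I.mix (nat_lit 2523136) (nat_lit 11714560)) (I.pos (nat_lit 40730624) (nat_lit 98222080)) (I.mix (nat_lit 14860288) (nat_lit 18857984)) (I.mix (nat_lit 10878976) (nat_lit 10797056)) (I.mix (nat_lit 5636096) (nat_lit 5521408)))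
  false (nat_lit 0)
def b5_7 : Bx := Bx.mk (St.mk (I.mix (nat_lit 32309248) (nat_lit 128188416)) (I.mix (nat_lit 9256960) (nat_lit 31440896)) (I.mix (nat_lit 4259840) (nat_lit 29409280)) (I.pos (nat_lit 36110336) (nat_lit 118423552)) (I.mix (nat_lit 56131584) (nat_lit 39698432)) (I.mix (nat_lit 39960576) (nat_lit 31539200)) (I.mix (nat_lit 28426240) (nat_lit 22036480)))
  false (nat_lit 0)
def b5_8 : Bx := Bx.mk (St.mk (I.pos (nat_lit 93421568) (nat_lit 141459456)) (I.mix (nat_lit 53641216) (nat_lit 11485184)) (I.mix (nat_lit 39469056) (nat_lit 15515648)) (I.pos (nat_lit 76480512) (nat_lit 138788864)) (I.mix (nat_lit 76169216) (nat_lit 31244288)) (I.mix (nat_lit 32980992) (nat_lit 57409536)) (I.mix (nat_lit 24281088) (nat_lit 40632320)))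
  false (nat_lit 41109640)
def b5_9 : Bx := Bx.mk (St.mk (I.mix (nat_lit 42156032) (nat_lit 77086720)) (I.mix (nat_lit 32129024) (nat_lit 6471680)) (I.mix (nat_lit 10158080) (nat_lit 10600448)) (I.pos (nat_lit 39632896) (nat_lit 85491712)) (I.mix (nat_lit 39452672) (nat_lit 28573696)) (I.mix (nat_lit 23461888) (nat_lit 28393472)) (I.mix (nat_lit 10125312) (nat_lit 10551296)))
  false (nat_lit 0)
def b5_10 : Bx := Bx.mk (St.mk (I.pos (nat_lit 146423808) (nat_lit 173080576)) (I.neg (nat_lit 12861440) (nat_lit 37666816)) (I.mix (nat_lit 20135936) (nat_lit 8847360)) (I.pos (nat_lit 132366336) (nat_lit 174374912)) (I.mix (nat_lit 28737536) (nat_lit 20578304)) (I.mix (nat_lit 13189120) (nat_lit 18022400)) (I.mix (nat_lit 12926976) (nat_lit 17842176)))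
  false (nat_lit 0)
def b5_11 : Bx := Bx.mk (St.mk (I.pos (nat_lit 166035456) (nat_lit 200900608)) (I.mix (nat_lit 15941632) (nat_lit 19922944)) (I.pos (nat_lit 11272192) (nat_lit 60424192)) (I.pos (nat_lit 151388160) (nat_lit 209829888)) (I.mix (nat_lit 85098496) (nat_lit 50642944)) (I.mix (nat_lit 86409216) (nat_lit 42352640)) (I.mix (nat_lit 90619904) (nat_lit 41025536)))
  false (nat_lit 53757823)
def b5_12 : Bx := Bx.mk (St.mk (I.pos (nat_lit 180322304) (nat_lit 288227328)) (I.mix (nat_lit 25444352) (nat_lit 39026688)) (I.mix (nat_lit 39567360) (nat_lit 87556096)) (I.pos (nat_lit 187564032) (nat_lit 372015104)) (I.mix (nat_lit 85524480) (nat_lit 62095360)) (I.mix (nat_lit 56279040) (nat_lit 50380800)) (I.mix (nat_lit 95502336) (nat_lit 82952192)))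
  false (nat_lit 89175276)
def b5_13 : Bx := Bx.mk (St.mk (I.pos (nat_lit 170983424) (nat_lit 227000320)) (I.pos (nat_lit 14368768) (nat_lit 47546368)) (I.pos (nat_lit 40271872) (nat_lit 97779712)) (I.pos (nat_lit 182517760) (nat_lit 244088832)) (I.mix (nat_lit 104202240) (nat_lit 75776000)) (I.mix (nat_lit 83509248) (nat_lit 60637184)) (I.mix (nat_lit 122339328) (nat_lit 72826880)))
  false (nat_lit 73319222)
def t5 : BTr := (BTr.n (BTr.n (BTr.n (BTr.b b5_0) (BTr.n (BTr.b b5_1) (BTr.b b5_2))) (BTr.n (BTr.n (BTr.b b5_3) (BTr.b b5_4)) (BTr.n (BTr.b b5_5) (BTr.b b5_6)))) (BTr.n (BTr.n (BTr.b b5_7) (BTr.n (BTr.b b5_8) (BTr.b b5_9))) (BTr.n (BTr.n (BTr.b b5_10) (BTr.b b5_11)) (BTr.n (BTr.b b5_12) (BTr.b b5_13)))))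
namespace T5
def l0 : Tr := Tr.L (Pth.l (Pth.l (Pth.l Pth.z)))
def l1 : Tr := Tr.L (Pth.l (Pth.l (Pth.r (Pth.l Pth.z))))
def l2 : Tr := Tr.L (Pth.l (Pth.l (Pth.r (Pth.r Pth.z))))
def l3 : Tr := Tr.L (Pth.l (Pth.r (Pth.l (Pth.l Pth.z))))
def l4 : Tr := Tr.L (Pth.l (Pth.r (Pth.l (Pth.r Pth.z))))
def l5 : Tr := Tr.L (Pth.l (Pth.r (Pth.r (Pth.l Pth.z))))
def l6 : Tr := Tr.L (Pth.l (Pth.r (Pth.r (Pth.r Pth.z))))
def l7 : Tr := Tr.L (Pth.r (Pth.l (Pth.l Pth.z)))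
def l8 : Tr := Tr.L (Pth.r (Pth.l (Pth.r (Pth.l Pth.z))))
def l9 : Tr := Tr.L (Pth.r (Pth.l (Pth.r (Pth.r Pth.z))))
def l10 : Tr := Tr.L (Pth.r (Pth.r (Pth.l (Pth.l Pth.z))))
def l11 : Tr := Tr.L (Pth.r (Pth.r (Pth.l (Pth.r Pth.z))))
def l12 : Tr := Tr.L (Pth.r (Pth.r (Pth.r (Pth.l Pth.z))))
def l13 : Tr := Tr.L (Pth.r (Pth.r (Pth.r (Pth.r Pth.z))))
end T5
theorem bx0_0 : BoxOK sI cl5 cl7 cl9 t2 t4 b0_0 :=
  box_mk (TrL.c (I.pos (nat_lit 0) (nat_lit 0)) (xa (xb (xa T2.l11 (xb T2.l0 T2.l11)) (xa (xb T2.l11 (xa (xb T2.l0 T2.l0) (xb T2.l0 T2.l0))) (xb (xa T2.l0 T2.l0) (xa (xs T2.l0 T2.l0) (xs T2.l0 T2.l0))))) (xb (xa (xb T2.l0 T2.l0) (xb T2.l0 T2.l0)) (xa (xb T2.l0 (xa (xs T2.l0 T2.l0) (xs T2.l0 T2.l0))) (xb T2.l0 (xa T2.l0 (xs T2.l0 T2.l0))))))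
  (TrL.c (I.pos (nat_lit 0) (nat_lit 0)) (xa (xb T4.l1 (xa T4.l1 T4.l1)) (xb T4.l1 (xa T4.l1 T4.l1)))
  (TrL.c (I.pos (nat_lit 0) (nat_lit 0)) (xa T2.l1 T2.l1)
  (TrL.c (I.pos (nat_lit 0) (nat_lit 0)) T4.l2
  (TrL.c (I.pos (nat_lit 0) (nat_lit 0)) (xa (xb T4.l11 (xa T4.l3 T4.l3)) (xb (xa T4.l11 (xb T4.l3 T4.l3)) (xa T4.l3 (xb T4.l3 T4.l3))))
  (TrL.c (I.pos (nat_lit 0) (nat_lit 0)) (xa T2.l2 (xb T2.l2 T2.l2))
  (TrL.c (I.pos (nat_lit 0) (nat_lit 0)) T4.l4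
  (TrL.c (I.pos (nat_lit 0) (nat_lit 0)) (xa T2.l3 T2.l3)
  TrL.n)))))))) (by decide +kernel)
theorem bx0_1 : BoxOK sI cl5 cl7 cl9 t2 t4 b0_1 :=
  box_mk (TrL.c (I.pos (nat_lit 0) (nat_lit 0)) (xa (xa (xb T2.l8 (xa T2.l8 T2.l8)) T2.l8) (xa T2.l8 (xb T2.l8 (xa T2.l8 T2.l8))))
  (TrL.c (I.pos (nat_lit 0) (nat_lit 0)) T4.l1
  (TrL.c (I.pos (nat_lit 0) (nat_lit 0)) (xa T2.l1 T2.l1)
  (TrL.c (I.pos (nat_lit 0) (nat_lit 0)) T4.l2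
  (TrL.c (I.pos (nat_lit 0) (nat_lit 0)) (xa T4.l8 T4.l8)
  (TrL.c (I.pos (nat_lit 0) (nat_lit 0)) (xa T2.l2 T2.l2)
  (TrL.c (I.pos (nat_lit 0) (nat_lit 0)) T4.l4
  (TrL.c (I.pos (nat_lit 0) (nat_lit 0)) (xa T2.l3 T2.l3)
  TrL.n)))))))) (by decide +kernel)
theorem bx0_2 : BoxOK sI cl5 cl7 cl9 t2 t4 b0_2 :=
  box_mk (TrL.c (I.pos (nat_lit 0) (nat_lit 0)) (xb T2.l8 T2.l8)
  (TrL.c (I.pos (nat_lit 0) (nat_lit 0)) T4.l1
  (TrL.c (I.pos (nat_lit 0) (nat_lit 0)) T2.l1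
  (TrL.c (I.pos (nat_lit 0) (nat_lit 0)) T4.l2
  (TrL.c (I.pos (nat_lit 0) (nat_lit 0)) (xb T4.l8 T4.l8)
  (TrL.c (I.pos (nat_lit 0) (nat_lit 0)) T2.l2
  (TrL.c (I.pos (nat_lit 0) (nat_lit 0)) T4.l4
  (TrL.c (I.pos (nat_lit 0) (nat_lit 0)) T2.l3
  TrL.n)))))))) (by decide +kernel)
theorem bx0_3 : BoxOK sI cl5 cl7 cl9 t2 t4 b0_3 :=
  box_mk (TrL.c (I.pos (nat_lit 0) (nat_lit 0)) (xa (xa (xb T2.l8 T2.l8) T2.l8) T2.l8)
  (TrL.c (I.pos (nat_lit 0) (nat_lit 0)) (xa T4.l1 T4.l1)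
  (TrL.c (I.pos (nat_lit 0) (nat_lit 0)) T2.l1
  (TrL.c (I.pos (nat_lit 0) (nat_lit 0)) T4.l2
  (TrL.c (I.pos (nat_lit 0) (nat_lit 0)) (xa T4.l1 T4.l8)
  (TrL.c (I.pos (nat_lit 0) (nat_lit 0)) T2.l2
  (TrL.c (I.pos (nat_lit 0) (nat_lit 0)) T4.l4
  (TrL.c (I.pos (nat_lit 0) (nat_lit 0)) T2.l3
  TrL.n)))))))) (by decide +kernel)
theorem bx0_4 : BoxOK sI cl5 cl7 cl9 t2 t4 b0_4 :=
  box_mk (TrL.c (I.pos (nat_lit 0) (nat_lit 0)) (xa (xb (xa T2.l0 T2.l0) (xa T2.l0 T2.l0)) (xa (xb T2.l0 (xb T2.l0 T2.l0)) (xb (xb T2.l6 T2.l6) (xa T2.l0 (xb T2.l0 T2.l6)))))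
  (TrL.c (I.pos (nat_lit 0) (nat_lit 0)) (xa T4.l1 (xb T4.l1 (xa T4.l1 T4.l1)))
  (TrL.c (I.pos (nat_lit 0) (nat_lit 0)) (xa T2.l1 T2.l1)
  (TrL.c (I.pos (nat_lit 0) (nat_lit 0)) T4.l2
  (TrL.c (I.pos (nat_lit 0) (nat_lit 0)) (xa (xb (xa T4.l3 T4.l3) T4.l3) (xb (xa (xb T4.l3 T4.l3) (xb (xa T4.l3 T4.l3) T4.l3)) (xa T4.l3 (xb T4.l3 (xa T4.l3 T4.l3)))))
  (TrL.c (I.pos (nat_lit 0) (nat_lit 0)) (xa T2.l2 (xb T2.l4 T2.l2))
  (TrL.c (I.pos (nat_lit 0) (nat_lit 0)) T4.l4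
  (TrL.c (I.pos (nat_lit 0) (nat_lit 0)) (xa T2.l3 T2.l3)
  TrL.n)))))))) (by decide +kernel)
theorem bx0_5 : BoxOK sI cl5 cl7 cl9 t2 t4 b0_5 :=
  box_mk (TrL.c (I.pos (nat_lit 0) (nat_lit 0)) T2.l8
  (TrL.c (I.pos (nat_lit 0) (nat_lit 0)) T4.l1
  (TrL.c (I.pos (nat_lit 0) (nat_lit 0)) T2.l1
  (TrL.c (I.pos (nat_lit 0) (nat_lit 0)) T4.l2
  (TrL.c (I.pos (nat_lit 0) (nat_lit 0)) T4.l1
  (TrL.c (I.pos (nat_lit 0) (nat_lit 0)) T2.l2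
  (TrL.c (I.pos (nat_lit 0) (nat_lit 0)) T4.l4
  (TrL.c (I.pos (nat_lit 0) (nat_lit 0)) T2.l3
  TrL.n)))))))) (by decide +kernel)
theorem bx0_6 : BoxOK sI cl5 cl7 cl9 t2 t4 b0_6 :=
  box_mk (TrL.c (I.pos (nat_lit 0) (nat_lit 0)) (xa (xb T2.l8 T2.l8) (xb T2.l0 (xa T2.l8 T2.l8)))
  (TrL.c (I.pos (nat_lit 0) (nat_lit 0)) T4.l1
  (TrL.c (I.pos (nat_lit 0) (nat_lit 0)) T2.l1
  (TrL.c (I.pos (nat_lit 0) (nat_lit 0)) T4.l2
  (TrL.c (I.pos (nat_lit 0) (nat_lit 0)) (xa T4.l8 (xb T4.l8 T4.l11))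
  (TrL.c (I.pos (nat_lit 0) (nat_lit 0)) T2.l2
  (TrL.c (I.pos (nat_lit 0) (nat_lit 0)) T4.l4
  (TrL.c (I.pos (nat_lit 0) (nat_lit 0)) T2.l3
  TrL.n)))))))) (by decide +kernel)
theorem bx0_7 : BoxOK sI cl5 cl7 cl9 t2 t4 b0_7 :=
  box_mk (TrL.c (I.pos (nat_lit 0) (nat_lit 0)) (xa (xa (xb T2.l8 T2.l8) T2.l8) T2.l8)
  (TrL.c (I.pos (nat_lit 0) (nat_lit 0)) T4.l1
  (TrL.c (I.pos (nat_lit 0) (nat_lit 0)) T2.l1
  (TrL.c (I.pos (nat_lit 0) (nat_lit 0)) T4.l2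
  (TrL.c (I.pos (nat_lit 0) (nat_lit 0)) (xa T4.l1 T4.l8)
  (TrL.c (I.pos (nat_lit 0) (nat_lit 0)) T2.l2
  (TrL.c (I.pos (nat_lit 0) (nat_lit 0)) T4.l4
  (TrL.c (I.pos (nat_lit 0) (nat_lit 0)) T2.l3
  TrL.n)))))))) (by decide +kernel)
theorem bx0_8 : BoxOK sI cl5 cl7 cl9 t2 t4 b0_8 :=
  box_mk (TrL.c (I.pos (nat_lit 0) (nat_lit 0)) (xb (xa (xb (xa T2.l11 T2.l11) (xa T2.l11 T2.l11)) (xb (xa T2.l11 T2.l11) (xa T2.l11 T2.l11))) (xa (xb (xa (xb T2.l11 T2.l11) T2.l11) (xa (xb T2.l11 T2.l11) (xb T2.l11 T2.l11))) (xb (xa T2.l11 (xb T2.l11 T2.l11)) (xa (xs T2.l11 (xb T2.l11 T2.l11)) (xs T2.l11 (xb T2.l11 T2.l11))))))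
  (TrL.c (I.pos (nat_lit 0) (nat_lit 0)) (xb (xa T4.l1 T4.l1) (xa T4.l1 T4.l1))
  (TrL.c (I.pos (nat_lit 0) (nat_lit 0)) T2.l1
  (TrL.c (I.pos (nat_lit 0) (nat_lit 0)) T4.l2
  (TrL.c (I.pos (nat_lit 0) (nat_lit 0)) (xb (xa T4.l11 (xb T4.l11 T4.l11)) (xa T4.l11 (xb T4.l11 T4.l11)))
  (TrL.c (I.pos (nat_lit 0) (nat_lit 0)) (xb T2.l2 T2.l2)
  (TrL.c (I.pos (nat_lit 0) (nat_lit 0)) T4.l4
  (TrL.c (I.pos (nat_lit 0) (nat_lit 0)) T2.l3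
  TrL.n)))))))) (by decide +kernel)
theorem bx0_9 : BoxOK sI cl5 cl7 cl9 t2 t4 b0_9 :=
  box_mk (TrL.c (I.pos (nat_lit 0) (nat_lit 0)) (xa (xa (xb (xa T2.l8 T2.l8) (xa (xb T2.l8 T2.l8) (xb T2.l8 T2.l8))) (xb T2.l8 (xa T2.l8 T2.l8))) (xa (xb T2.l8 T2.l8) (xb T2.l8 (xa T2.l8 T2.l8))))
  (TrL.c (I.pos (nat_lit 0) (nat_lit 0)) (xa T4.l1 T4.l1)
  (TrL.c (I.pos (nat_lit 0) (nat_lit 0)) (xa T2.l1 T2.l1)
  (TrL.c (I.pos (nat_lit 0) (nat_lit 0)) T4.l2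
  (TrL.c (I.pos (nat_lit 0) (nat_lit 0)) (xa T4.l1 T4.l8)
  (TrL.c (I.pos (nat_lit 0) (nat_lit 0)) (xa T2.l2 T2.l2)
  (TrL.c (I.pos (nat_lit 0) (nat_lit 0)) T4.l4
  (TrL.c (I.pos (nat_lit 0) (nat_lit 0)) (xa T2.l3 T2.l3)
  TrL.n)))))))) (by decide +kernel)
theorem bx0_10 : BoxOK sI cl5 cl7 cl9 t2 t4 b0_10 :=
  box_mk (TrL.c (I.pos (nat_lit 0) (nat_lit 0)) T2.l8
  (TrL.c (I.pos (nat_lit 0) (nat_lit 0)) T4.l1
  (TrL.c (I.pos (nat_lit 0) (nat_lit 0)) T2.l1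
  (TrL.c (I.pos (nat_lit 0) (nat_lit 0)) T4.l2
  (TrL.c (I.pos (nat_lit 0) (nat_lit 0)) T4.l8
  (TrL.c (I.pos (nat_lit 0) (nat_lit 0)) T2.l2
  (TrL.c (I.pos (nat_lit 0) (nat_lit 0)) T4.l4
  (TrL.c (I.pos (nat_lit 0) (nat_lit 0)) T2.l3
  TrL.n)))))))) (by decide +kernel)
theorem bx0_11 : BoxOK sI cl5 cl7 cl9 t2 t4 b0_11 :=
  box_mk (TrL.c (I.pos (nat_lit 0) (nat_lit 0)) (xa (xb (xa T2.l0 T2.l0) (xa (xb T2.l0 T2.l0) (xb T2.l0 T2.l0))) (xb (xa T2.l0 T2.l0) (xa (xb T2.l0 (xs T2.l0 T2.l0)) (xb T2.l0 (xs T2.l0 T2.l0)))))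
  (TrL.c (I.pos (nat_lit 0) (nat_lit 0)) (xa (xb T4.l1 T4.l1) (xb T4.l1 T4.l1))
  (TrL.c (I.pos (nat_lit 0) (nat_lit 0)) T2.l1
  (TrL.c (I.pos (nat_lit 0) (nat_lit 0)) T4.l2
  (TrL.c (I.pos (nat_lit 0) (nat_lit 0)) (xb (xa T4.l11 (xb T4.l3 T4.l3)) (xa T4.l3 T4.l3))
  (TrL.c (I.pos (nat_lit 0) (nat_lit 0)) (xb T2.l2 T2.l2)
  (TrL.c (I.pos (nat_lit 0) (nat_lit 0)) T4.l4
  (TrL.c (I.pos (nat_lit 0) (nat_lit 0)) T2.l3
  TrL.n)))))))) (by decide +kernel)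
theorem bx0_12 : BoxOK sI cl5 cl7 cl9 t2 t4 b0_12 :=
  box_mk (TrL.c (I.pos (nat_lit 0) (nat_lit 0)) (xa (xb (xa T2.l0 T2.l0) (xa T2.l8 T2.l11)) T2.l0)
  (TrL.c (I.pos (nat_lit 0) (nat_lit 0)) T4.l1
  (TrL.c (I.pos (nat_lit 0) (nat_lit 0)) T2.l1
  (TrL.c (I.pos (nat_lit 0) (nat_lit 0)) T4.l2
  (TrL.c (I.pos (nat_lit 0) (nat_lit 0)) (xa T4.l11 T4.l0)
  (TrL.c (I.pos (nat_lit 0) (nat_lit 0)) T2.l2
  (TrL.c (I.pos (nat_lit 0) (nat_lit 0)) T4.l4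
  (TrL.c (I.pos (nat_lit 0) (nat_lit 0)) T2.l3
  TrL.n)))))))) (by decide +kernel)
theorem bx0_13 : BoxOK sI cl5 cl7 cl9 t2 t4 b0_13 :=
  box_mk (TrL.c (I.pos (nat_lit 0) (nat_lit 0)) (xb T2.l11 T2.l11)
  (TrL.c (I.pos (nat_lit 0) (nat_lit 0)) T4.l1
  (TrL.c (I.pos (nat_lit 0) (nat_lit 0)) T2.l1
  (TrL.c (I.pos (nat_lit 0) (nat_lit 0)) T4.l2
  (TrL.c (I.pos (nat_lit 0) (nat_lit 0)) (xb T4.l11 T4.l11)
  (TrL.c (I.pos (nat_lit 0) (nat_lit 0)) T2.l2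
  (TrL.c (I.pos (nat_lit 0) (nat_lit 0)) T4.l4
  (TrL.c (I.pos (nat_lit 0) (nat_lit 0)) T2.l3
  TrL.n)))))))) (by decide +kernel)
theorem sv0 : StarV sI cl5 cl7 cl9 t2 t4 t0 :=
  (bt_n (bt_n (bt_n (bt_b bx0_0) (bt_n (bt_b bx0_1) (bt_b bx0_2))) (bt_n (bt_n (bt_b bx0_3) (bt_b bx0_4)) (bt_n (bt_b bx0_5) (bt_b bx0_6)))) (bt_n (bt_n (bt_b bx0_7) (bt_n (bt_b bx0_8) (bt_b bx0_9))) (bt_n (bt_n (bt_b bx0_10) (bt_b bx0_11)) (bt_n (bt_b bx0_12) (bt_b bx0_13)))))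
def S0 : StarD := StarD.mk cl5 cl7 cl9 2 4 t0
theorem bx1_0 : BoxOK sI cl5 cl9 cl7 t4 t2 b1_0 :=
  box_mk (TrL.c (I.pos (nat_lit 0) (nat_lit 0)) (xa (xb (xa (xb T4.l10 T4.l10) (xb T4.l0 T4.l0)) (xa (xb (xa T4.l0 T4.l0) (xa (xs T4.l0 (xb T4.l0 T4.l0)) (xs T4.l0 (xb T4.l0 T4.l0)))) (xb T4.l0 (xa (xs T4.l0 (xb T4.l0 T4.l0)) (xs T4.l0 T4.l0))))) (xb (xa (xb T4.l0 T4.l0) (xb T4.l0 T4.l0)) (xa (xb T4.l0 (xa (xs T4.l0 T4.l0) (xs T4.l0 T4.l0))) (xb (xa T4.l0 T4.l0) (xa (xs T4.l0 T4.l0) (xs T4.l0 T4.l0))))))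
  (TrL.c (I.pos (nat_lit 0) (nat_lit 0)) (xa (xb T2.l4 (xa T2.l4 T2.l4)) (xb T2.l4 (xa T2.l4 T2.l4)))
  (TrL.c (I.pos (nat_lit 0) (nat_lit 0)) (xa T4.l5 T4.l5)
  (TrL.c (I.pos (nat_lit 0) (nat_lit 0)) T2.l5
  (TrL.c (I.pos (nat_lit 0) (nat_lit 0)) (xa (xb (xa T2.l6 T2.l6) (xa T2.l6 T2.l6)) (xb (xa T2.l6 (xb T2.l6 T2.l6)) (xa T2.l6 (xb T2.l6 T2.l6))))
  (TrL.c (I.pos (nat_lit 0) (nat_lit 0)) (xa T4.l6 (xb T4.l6 T4.l6))
  (TrL.c (I.pos (nat_lit 0) (nat_lit 0)) T2.l7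
  (TrL.c (I.pos (nat_lit 0) (nat_lit 0)) (xa T4.l7 T4.l7)
  TrL.n)))))))) (by decide +kernel)
theorem bx1_1 : BoxOK sI cl5 cl9 cl7 t4 t2 b1_1 :=
  box_mk (TrL.c (I.pos (nat_lit 0) (nat_lit 0)) (xa (xa (xb T4.l9 (xa T4.l9 T4.l9)) T4.l9) (xa T4.l9 (xa T4.l9 (xb T4.l9 T4.l9))))
  (TrL.c (I.pos (nat_lit 0) (nat_lit 0)) (xa T2.l4 T2.l4)
  (TrL.c (I.pos (nat_lit 0) (nat_lit 0)) (xa T4.l5 T4.l5)
  (TrL.c (I.pos (nat_lit 0) (nat_lit 0)) T2.l5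
  (TrL.c (I.pos (nat_lit 0) (nat_lit 0)) (xa (xa T2.l9 T2.l9) T2.l9)
  (TrL.c (I.pos (nat_lit 0) (nat_lit 0)) (xa T4.l6 T4.l6)
  (TrL.c (I.pos (nat_lit 0) (nat_lit 0)) T2.l7
  (TrL.c (I.pos (nat_lit 0) (nat_lit 0)) (xa T4.l7 T4.l7)
  TrL.n)))))))) (by decide +kernel)
theorem bx1_2 : BoxOK sI cl5 cl9 cl7 t4 t2 b1_2 :=
  box_mk (TrL.c (I.pos (nat_lit 0) (nat_lit 0)) (xb T4.l9 T4.l9)
  (TrL.c (I.pos (nat_lit 0) (nat_lit 0)) T2.l4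
  (TrL.c (I.pos (nat_lit 0) (nat_lit 0)) T4.l5
  (TrL.c (I.pos (nat_lit 0) (nat_lit 0)) T2.l5
  (TrL.c (I.pos (nat_lit 0) (nat_lit 0)) (xb T2.l9 T2.l9)
  (TrL.c (I.pos (nat_lit 0) (nat_lit 0)) T4.l6
  (TrL.c (I.pos (nat_lit 0) (nat_lit 0)) T2.l7
  (TrL.c (I.pos (nat_lit 0) (nat_lit 0)) T4.l7
  TrL.n)))))))) (by decide +kernel)
theorem bx1_3 : BoxOK sI cl5 cl9 cl7 t4 t2 b1_3 :=
  box_mk (TrL.c (I.pos (nat_lit 0) (nat_lit 0)) (xa (xa T4.l9 T4.l9) T4.l9)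
  (TrL.c (I.pos (nat_lit 0) (nat_lit 0)) (xa T2.l4 T2.l4)
  (TrL.c (I.pos (nat_lit 0) (nat_lit 0)) T4.l5
  (TrL.c (I.pos (nat_lit 0) (nat_lit 0)) T2.l5
  (TrL.c (I.pos (nat_lit 0) (nat_lit 0)) (xa T2.l4 T2.l9)
  (TrL.c (I.pos (nat_lit 0) (nat_lit 0)) T4.l6
  (TrL.c (I.pos (nat_lit 0) (nat_lit 0)) T2.l7
  (TrL.c (I.pos (nat_lit 0) (nat_lit 0)) T4.l7
  TrL.n)))))))) (by decide +kernel)
theorem bx1_4 : BoxOK sI cl5 cl9 cl7 t4 t2 b1_4 :=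
  box_mk (TrL.c (I.pos (nat_lit 0) (nat_lit 0)) (xa (xb T4.l0 (xa T4.l0 T4.l0)) (xa (xb T4.l0 T4.l0) (xb (xa T4.l0 T4.l0) (xa T4.l0 (xb T4.l0 T4.l0)))))
  (TrL.c (I.pos (nat_lit 0) (nat_lit 0)) (xa T2.l4 (xb (xa T2.l4 T2.l2) (xa T2.l4 T2.l2)))
  (TrL.c (I.pos (nat_lit 0) (nat_lit 0)) (xa T4.l5 T4.l5)
  (TrL.c (I.pos (nat_lit 0) (nat_lit 0)) T2.l3
  (TrL.c (I.pos (nat_lit 0) (nat_lit 0)) (xa T2.l6 (xb (xa T2.l6 (xb (xa T2.l6 T2.l6) T2.l6)) (xa T2.l6 (xb T2.l6 (xa T2.l6 T2.l6)))))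
  (TrL.c (I.pos (nat_lit 0) (nat_lit 0)) (xa T4.l6 (xb T4.l1 T4.l6))
  (TrL.c (I.pos (nat_lit 0) (nat_lit 0)) T2.l1
  (TrL.c (I.pos (nat_lit 0) (nat_lit 0)) (xa T4.l7 T4.l7)
  TrL.n)))))))) (by decide +kernel)
theorem bx1_5 : BoxOK sI cl5 cl9 cl7 t4 t2 b1_5 :=
  box_mk (TrL.c (I.pos (nat_lit 0) (nat_lit 0)) T4.l9
  (TrL.c (I.pos (nat_lit 0) (nat_lit 0)) T2.l4
  (TrL.c (I.pos (nat_lit 0) (nat_lit 0)) T4.l5
  (TrL.c (I.pos (nat_lit 0) (nat_lit 0)) T2.l5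
  (TrL.c (I.pos (nat_lit 0) (nat_lit 0)) T2.l9
  (TrL.c (I.pos (nat_lit 0) (nat_lit 0)) T4.l6
  (TrL.c (I.pos (nat_lit 0) (nat_lit 0)) T2.l7
  (TrL.c (I.pos (nat_lit 0) (nat_lit 0)) T4.l7
  TrL.n)))))))) (by decide +kernel)
theorem bx1_6 : BoxOK sI cl5 cl9 cl7 t4 t2 b1_6 :=
  box_mk (TrL.c (I.pos (nat_lit 0) (nat_lit 0)) T4.l9
  (TrL.c (I.pos (nat_lit 0) (nat_lit 0)) T2.l4
  (TrL.c (I.pos (nat_lit 0) (nat_lit 0)) T4.l5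
  (TrL.c (I.pos (nat_lit 0) (nat_lit 0)) T2.l5
  (TrL.c (I.pos (nat_lit 0) (nat_lit 0)) (xa T2.l9 T2.l9)
  (TrL.c (I.pos (nat_lit 0) (nat_lit 0)) T4.l6
  (TrL.c (I.pos (nat_lit 0) (nat_lit 0)) T2.l7
  (TrL.c (I.pos (nat_lit 0) (nat_lit 0)) T4.l7
  TrL.n)))))))) (by decide +kernel)
theorem bx1_7 : BoxOK sI cl5 cl9 cl7 t4 t2 b1_7 :=
  box_mk (TrL.c (I.pos (nat_lit 0) (nat_lit 0)) (xa (xb T4.l9 T4.l9) (xb T4.l0 T4.l0))
  (TrL.c (I.pos (nat_lit 0) (nat_lit 0)) T2.l4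
  (TrL.c (I.pos (nat_lit 0) (nat_lit 0)) T4.l5
  (TrL.c (I.pos (nat_lit 0) (nat_lit 0)) T2.l5
  (TrL.c (I.pos (nat_lit 0) (nat_lit 0)) (xa T2.l9 T2.l10)
  (TrL.c (I.pos (nat_lit 0) (nat_lit 0)) T4.l6
  (TrL.c (I.pos (nat_lit 0) (nat_lit 0)) T2.l7
  (TrL.c (I.pos (nat_lit 0) (nat_lit 0)) T4.l7
  TrL.n)))))))) (by decide +kernel)
theorem bx1_8 : BoxOK sI cl5 cl9 cl7 t4 t2 b1_8 :=
  box_mk (TrL.c (I.pos (nat_lit 0) (nat_lit 0)) (xa (xa (xb T4.l9 T4.l9) T4.l9) T4.l9)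
  (TrL.c (I.pos (nat_lit 0) (nat_lit 0)) (xa T2.l4 T2.l4)
  (TrL.c (I.pos (nat_lit 0) (nat_lit 0)) T4.l5
  (TrL.c (I.pos (nat_lit 0) (nat_lit 0)) T2.l5
  (TrL.c (I.pos (nat_lit 0) (nat_lit 0)) (xa T2.l4 T2.l9)
  (TrL.c (I.pos (nat_lit 0) (nat_lit 0)) T4.l6
  (TrL.c (I.pos (nat_lit 0) (nat_lit 0)) T2.l7
  (TrL.c (I.pos (nat_lit 0) (nat_lit 0)) T4.l7
  TrL.n)))))))) (by decide +kernel)
theorem bx1_9 : BoxOK sI cl5 cl9 cl7 t4 t2 b1_9 :=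
  box_mk (TrL.c (I.pos (nat_lit 0) (nat_lit 0)) (xb (xa (xb (xa T4.l10 T4.l10) (xa T4.l10 T4.l10)) (xb T4.l10 T4.l10)) (xa (xb (xa T4.l10 T4.l10) (xa (xs T4.l10 T4.l10) (xs T4.l10 T4.l10))) (xb (xa T4.l10 T4.l10) (xa (xs T4.l10 T4.l10) (xs T4.l10 T4.l10)))))
  (TrL.c (I.pos (nat_lit 0) (nat_lit 0)) (xb (xa T2.l4 T2.l4) (xa T2.l4 T2.l4))
  (TrL.c (I.pos (nat_lit 0) (nat_lit 0)) T4.l5
  (TrL.c (I.pos (nat_lit 0) (nat_lit 0)) T2.l5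
  (TrL.c (I.pos (nat_lit 0) (nat_lit 0)) (xb (xa T2.l10 T2.l10) (xa T2.l10 (xb T2.l10 T2.l10)))
  (TrL.c (I.pos (nat_lit 0) (nat_lit 0)) (xb T4.l6 T4.l6)
  (TrL.c (I.pos (nat_lit 0) (nat_lit 0)) T2.l7
  (TrL.c (I.pos (nat_lit 0) (nat_lit 0)) T4.l7
  TrL.n)))))))) (by decide +kernel)
theorem bx1_10 : BoxOK sI cl5 cl9 cl7 t4 t2 b1_10 :=
  box_mk (TrL.c (I.pos (nat_lit 0) (nat_lit 0)) (xa (xa (xb T4.l9 (xa (xb T4.l9 T4.l9) T4.l9)) (xb T4.l9 (xa T4.l9 T4.l9))) (xa T4.l9 (xb T4.l9 (xa T4.l9 T4.l9))))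
  (TrL.c (I.pos (nat_lit 0) (nat_lit 0)) (xa T2.l4 T2.l4)
  (TrL.c (I.pos (nat_lit 0) (nat_lit 0)) (xa T4.l5 T4.l5)
  (TrL.c (I.pos (nat_lit 0) (nat_lit 0)) T2.l5
  (TrL.c (I.pos (nat_lit 0) (nat_lit 0)) (xa (xa T2.l4 T2.l9) T2.l9)
  (TrL.c (I.pos (nat_lit 0) (nat_lit 0)) (xa T4.l6 T4.l6)
  (TrL.c (I.pos (nat_lit 0) (nat_lit 0)) T2.l7
  (TrL.c (I.pos (nat_lit 0) (nat_lit 0)) (xa T4.l7 T4.l7)
  TrL.n)))))))) (by decide +kernel)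
theorem bx1_11 : BoxOK sI cl5 cl9 cl7 t4 t2 b1_11 :=
  box_mk (TrL.c (I.pos (nat_lit 0) (nat_lit 0)) (xa (xb T4.l10 (xa T4.l10 T4.l10)) T4.l0)
  (TrL.c (I.pos (nat_lit 0) (nat_lit 0)) T2.l4
  (TrL.c (I.pos (nat_lit 0) (nat_lit 0)) T4.l5
  (TrL.c (I.pos (nat_lit 0) (nat_lit 0)) T2.l5
  (TrL.c (I.pos (nat_lit 0) (nat_lit 0)) (xa T2.l10 T2.l0)
  (TrL.c (I.pos (nat_lit 0) (nat_lit 0)) T4.l6
  (TrL.c (I.pos (nat_lit 0) (nat_lit 0)) T2.l7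
  (TrL.c (I.pos (nat_lit 0) (nat_lit 0)) T4.l7
  TrL.n)))))))) (by decide +kernel)
theorem bx1_12 : BoxOK sI cl5 cl9 cl7 t4 t2 b1_12 :=
  box_mk (TrL.c (I.pos (nat_lit 0) (nat_lit 0)) (xb (xa T4.l10 T4.l10) (xa T4.l10 T4.l10))
  (TrL.c (I.pos (nat_lit 0) (nat_lit 0)) (xb T2.l4 T2.l4)
  (TrL.c (I.pos (nat_lit 0) (nat_lit 0)) T4.l5
  (TrL.c (I.pos (nat_lit 0) (nat_lit 0)) T2.l5
  (TrL.c (I.pos (nat_lit 0) (nat_lit 0)) (xb (xa T2.l10 T2.l10) T2.l10)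
  (TrL.c (I.pos (nat_lit 0) (nat_lit 0)) T4.l6
  (TrL.c (I.pos (nat_lit 0) (nat_lit 0)) T2.l7
  (TrL.c (I.pos (nat_lit 0) (nat_lit 0)) T4.l7
  TrL.n)))))))) (by decide +kernel)
theorem bx1_13 : BoxOK sI cl5 cl9 cl7 t4 t2 b1_13 :=
  box_mk (TrL.c (I.pos (nat_lit 0) (nat_lit 0)) (xa (xb T4.l0 (xa T4.l0 T4.l0)) (xb (xa T4.l0 T4.l0) (xa (xb T4.l0 T4.l0) (xb T4.l0 T4.l0))))
  (TrL.c (I.pos (nat_lit 0) (nat_lit 0)) (xa T2.l4 (xb T2.l4 T2.l4))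
  (TrL.c (I.pos (nat_lit 0) (nat_lit 0)) T4.l5
  (TrL.c (I.pos (nat_lit 0) (nat_lit 0)) T2.l5
  (TrL.c (I.pos (nat_lit 0) (nat_lit 0)) (xa T2.l6 (xb T2.l6 T2.l6))
  (TrL.c (I.pos (nat_lit 0) (nat_lit 0)) T4.l6
  (TrL.c (I.pos (nat_lit 0) (nat_lit 0)) T2.l7
  (TrL.c (I.pos (nat_lit 0) (nat_lit 0)) T4.l7
  TrL.n)))))))) (by decide +kernel)
theorem sv1 : StarV sI cl5 cl9 cl7 t4 t2 t1 :=
  (bt_n (bt_n (bt_n (bt_b bx1_0) (bt_n (bt_b bx1_1) (bt_b bx1_2))) (bt_n (bt_n (bt_b bx1_3) (bt_b bx1_4)) (bt_n (bt_b bx1_5) (bt_b bx1_6)))) (bt_n (bt_n (bt_b bx1_7) (bt_n (bt_b bx1_8) (bt_b bx1_9))) (bt_n (bt_n (bt_b bx1_10) (bt_b bx1_11)) (bt_n (bt_b bx1_12) (bt_b bx1_13)))))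
def S1 : StarD := StarD.mk cl5 cl9 cl7 4 2 t1
theorem bx2_0 : BoxOK sI cl7 cl5 cl9 t0 t5 b2_0 :=
  box_mk (TrL.c (I.pos (nat_lit 0) (nat_lit 0)) (xa (xb (xb (xa T0.l0 T0.l0) (xa T0.l0 T0.l0)) (xa (xb (xa T0.l0 T0.l0) (xa (xb T0.l0 T0.l0) (xb T0.l0 T0.l0))) (xb T0.l0 (xa T0.l0 T0.l0)))) (xb (xa T0.l0 T0.l0) (xa (xb T0.l0 (xs T0.l0 (xa T0.l0 T0.l0))) (xb T0.l0 (xs T0.l0 (xa T0.l0 T0.l0))))))
  (TrL.c (I.pos (nat_lit 0) (nat_lit 0)) (xb (xa T5.l1 T5.l1) (xa (xk (xb T5.l1 T5.l1) T5.l1) (xk (xa T5.l1 T5.l1) T5.l1)))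
  (TrL.c (I.pos (nat_lit 0) (nat_lit 111196574)) (xR T0.l1 T0.l1)
  (TrL.c (I.pos (nat_lit 0) (nat_lit 77433728)) (xR T5.l2 T5.l2)
  (TrL.c (I.pos (nat_lit 0) (nat_lit 0)) (xb (xa (xk T5.l3 (xb T5.l3 T5.l3)) (xk T5.l3 T5.l3)) (xa (xk (xb T5.l3 T5.l3) T5.l3) (xk (xb T5.l3 (xa T5.l3 T5.l3)) (xb T5.l3 T5.l3))))
  (TrL.c (I.pos (nat_lit 0) (nat_lit 0)) (xb T0.l2 T0.l2)
  (TrL.c (I.mix (nat_lit 29511666) (nat_lit 77433728)) (xR T5.l4 (xR T5.l4 T5.l4))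
  (TrL.c (I.mix (nat_lit 29511666) (nat_lit 46070178)) T0.l3
  TrL.n)))))))) (by decide +kernel)
theorem bx2_1 : BoxOK sI cl7 cl5 cl9 t0 t5 b2_1 :=
  box_mk (TrL.c (I.pos (nat_lit 0) (nat_lit 0)) (xb T0.l4 (xa T0.l4 (xb T0.l4 T0.l4)))
  (TrL.c (I.pos (nat_lit 0) (nat_lit 0)) T5.l1
  (TrL.c (I.pos (nat_lit 0) (nat_lit 111196574)) T0.l1
  (TrL.c (I.pos (nat_lit 0) (nat_lit 77433728)) T5.l2
  (TrL.c (I.pos (nat_lit 0) (nat_lit 0)) T5.l5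
  (TrL.c (I.pos (nat_lit 0) (nat_lit 0)) T0.l2
  (TrL.c (I.mix (nat_lit 29511666) (nat_lit 77433728)) T5.l4
  (TrL.c (I.mix (nat_lit 29511666) (nat_lit 46070178)) T0.l3
  TrL.n)))))))) (by decide +kernel)
theorem bx2_2 : BoxOK sI cl7 cl5 cl9 t0 t5 b2_2 :=
  box_mk (TrL.c (I.pos (nat_lit 0) (nat_lit 0)) (xb (xa T0.l4 T0.l4) (xa T0.l4 T0.l4))
  (TrL.c (I.pos (nat_lit 0) (nat_lit 0)) (xb T5.l1 T5.l1)
  (TrL.c (I.pos (nat_lit 0) (nat_lit 111196574)) T0.l1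
  (TrL.c (I.pos (nat_lit 0) (nat_lit 77433728)) T5.l2
  (TrL.c (I.pos (nat_lit 0) (nat_lit 0)) (xb (xk T5.l5 T5.l5) T5.l5)
  (TrL.c (I.pos (nat_lit 0) (nat_lit 0)) T0.l2
  (TrL.c (I.mix (nat_lit 29511666) (nat_lit 77433728)) T5.l4
  (TrL.c (I.mix (nat_lit 29511666) (nat_lit 46070178)) T0.l3
  TrL.n)))))))) (by decide +kernel)
theorem bx2_3 : BoxOK sI cl7 cl5 cl9 t0 t5 b2_3 :=
  box_mk (TrL.c (I.pos (nat_lit 0) (nat_lit 0)) T5.l1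
  (TrL.c (I.pos (nat_lit 0) (nat_lit 0)) T0.l1
  (TrL.c (I.mix (nat_lit 29511666) (nat_lit 77433728)) T5.l6
  (TrL.c (I.mix (nat_lit 29511666) (nat_lit 46070178)) T0.l9
  TrL.n)))) (by decide +kernel)
theorem bx2_4 : BoxOK sI cl7 cl5 cl9 t0 t5 b2_4 :=
  box_mk (TrL.c (I.pos (nat_lit 0) (nat_lit 0)) (xa (xb T0.l4 (xa T0.l4 T0.l4)) (xb T0.l4 T0.l4))
  (TrL.c (I.pos (nat_lit 0) (nat_lit 0)) (xa T5.l1 T5.l1)
  (TrL.c (I.pos (nat_lit 0) (nat_lit 111196574)) T0.l1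
  (TrL.c (I.pos (nat_lit 0) (nat_lit 77433728)) T5.l2
  (TrL.c (I.pos (nat_lit 0) (nat_lit 0)) (xa (xb T5.l5 T5.l5) (xb (xk (xa T5.l5 T5.l5) T5.l5) (xk T5.l5 T5.l5)))
  (TrL.c (I.pos (nat_lit 0) (nat_lit 0)) T0.l2
  (TrL.c (I.mix (nat_lit 29511666) (nat_lit 77433728)) T5.l7
  (TrL.c (I.mix (nat_lit 29511666) (nat_lit 46070178)) T0.l3
  TrL.n)))))))) (by decide +kernel)
theorem bx2_5 : BoxOK sI cl7 cl5 cl9 t0 t5 b2_5 :=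
  box_mk (TrL.c (I.pos (nat_lit 0) (nat_lit 0)) (xb T5.l1 T5.l10)
  (TrL.c (I.pos (nat_lit 0) (nat_lit 0)) T0.l1
  (TrL.c (I.mix (nat_lit 29511666) (nat_lit 77433728)) T5.l6
  (TrL.c (I.mix (nat_lit 29511666) (nat_lit 46070178)) T0.l9
  TrL.n)))) (by decide +kernel)
theorem bx2_6 : BoxOK sI cl7 cl5 cl9 t0 t5 b2_6 :=
  box_mk (TrL.c (I.pos (nat_lit 0) (nat_lit 0)) (xb (xa (xb T0.l11 T0.l11) (xb T0.l11 T0.l11)) (xa (xb (xa T0.l11 T0.l11) (xa T0.l11 T0.l11)) (xb (xa T0.l11 T0.l11) (xa T0.l11 T0.l11))))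
  (TrL.c (I.pos (nat_lit 0) (nat_lit 0)) (xk (xb T5.l1 (xa T5.l1 T5.l1)) (xb T5.l1 (xa T5.l1 T5.l1)))
  (TrL.c (I.pos (nat_lit 0) (nat_lit 111196574)) (xR T0.l1 T0.l1)
  (TrL.c (I.pos (nat_lit 0) (nat_lit 77433728)) T5.l2
  (TrL.c (I.pos (nat_lit 0) (nat_lit 0)) (xb (xk T5.l3 (xa T5.l11 T5.l3)) (xk (xa T5.l3 T5.l3) T5.l3))
  (TrL.c (I.pos (nat_lit 0) (nat_lit 0)) T0.l2
  (TrL.c (I.mix (nat_lit 29511666) (nat_lit 77433728)) (xR T5.l4 T5.l4)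
  (TrL.c (I.mix (nat_lit 29511666) (nat_lit 46070178)) T0.l7
  TrL.n)))))))) (by decide +kernel)
theorem bx2_7 : BoxOK sI cl7 cl5 cl9 t0 t5 b2_7 :=
  box_mk (TrL.c (I.pos (nat_lit 0) (nat_lit 0)) (xb (xa T0.l4 T0.l4) T0.l4)
  (TrL.c (I.pos (nat_lit 0) (nat_lit 0)) (xb T5.l10 T5.l1)
  (TrL.c (I.pos (nat_lit 0) (nat_lit 111196574)) T0.l1
  (TrL.c (I.pos (nat_lit 0) (nat_lit 77433728)) T5.l2
  (TrL.c (I.pos (nat_lit 0) (nat_lit 0)) T5.l5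
  (TrL.c (I.pos (nat_lit 0) (nat_lit 0)) T0.l2
  (TrL.c (I.mix (nat_lit 29511666) (nat_lit 77433728)) T5.l4
  (TrL.c (I.mix (nat_lit 29511666) (nat_lit 46070178)) T0.l3
  TrL.n)))))))) (by decide +kernel)
theorem c2_8_0 : chkTag sI cl7 cl5 cl9 t0 b2_8 (tg true true false RT.r2) (I.pos (nat_lit 0) (nat_lit 0))
  (xa (xb (xa (xb T0.l0 T0.l0) (xb T0.l0 T0.l0)) (xa (xb (xc T0.l0 T0.l0) (xc (xa T0.l0 T0.l0) T0.l0)) (xb (xc T0.l0 T0.l0) (xc (xa T0.l0 T0.l0) T0.l0)))) (xb (xa (xb T0.l0 T0.l0) (xb T0.l0 T0.l0)) (xa (xb T0.l8 (xc (xa T0.l0 T0.l0) (xa T0.l0 T0.l0))) (xb (xa T0.l0 T0.l0) (xc (xa T0.l0 T0.l0) (xa T0.l0 T0.l0)))))) = true := by decide +kernel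
theorem c2_8_1 : chkTag sI cl7 cl5 cl9 t5 b2_8 (tg true false false RT.r3) (I.pos (nat_lit 0) (nat_lit 0))
  (xa (xb (xk T5.l1 T5.l1) (xk (xa T5.l1 T5.l1) T5.l1)) (xb (xk T5.l8 T5.l8) (xk (xa T5.l1 T5.l8) (xa T5.l1 T5.l8)))) = true := by decide +kernel
theorem c2_8_2 : chkTag sI cl7 cl5 cl9 t0 b2_8 (Tag.mk true true false RT.tl RT.r4) (I.pos (nat_lit 0) (nat_lit 111196574))
  (xR T0.l1 (xR T0.l1 (xR T0.l9 T0.l9))) = true := by decide +kernel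
theorem c2_8_3 : chkTag sI cl7 cl5 cl9 t5 b2_8 (Tag.mk true false false RT.tl RT.r5) (I.pos (nat_lit 0) (nat_lit 77433728))
  (xR T5.l2 (xR T5.l2 (xR T5.l2 T5.l2))) = true := by decide +kernel
theorem c2_8_4 : chkTag sI cl7 cl5 cl9 t5 b2_8 (tg false false false RT.r3) (I.pos (nat_lit 0) (nat_lit 0))
  (xa (xb (xk (xa (xb (xk T5.l3 T5.l3) T5.l3) (xb T5.l0 T5.l3)) (xa (xb (xk T5.l3 T5.l3) T5.l3) (xb T5.l0 T5.l3))) (xk (xa T5.l3 T5.l3) (xa T5.l3 T5.l3))) (xb (xk (xa (xb (xk (xa T5.l0 T5.l0) T5.l0) (xk T5.l3 T5.l3)) (xb (xk (xa (xb T5.l0 T5.l3) (xb (xs T5.l3 T5.l3) T5.l3)) (xa (xb T5.l0 T5.l3) (xb (xs T5.l3 T5.l3) T5.l3))) (xk (xa T5.l3 (xb T5.l3 T5.l3)) (xa T5.l3 (xb T5.l3 T5.l3))))) (xa (xb (xk T5.l0 T5.l0) (xk T5.l3 T5.l3)) (xb (xk (xa (xb T5.l0 T5.l3) (xb (xs T5.l3 T5.l3) T5.l3)) (xa (xb T5.l0 T5.l3) (xb (xs T5.l3 T5.l3) T5.l3))) (xk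 (xa T5.l3 T5.l3) (xa T5.l3 T5.l3))))) (xk (xa (xb T5.l3 (xk T5.l3 T5.l3)) (xb (xk (xa T5.l3 (xb T5.l3 T5.l3)) (xa T5.l3 (xb T5.l3 T5.l3))) (xk (xa T5.l3 (xb T5.l3 T5.l3)) (xa T5.l3 (xb T5.l3 T5.l3))))) (xa (xb T5.l3 (xk T5.l3 T5.l3)) (xb (xk (xa T5.l3 T5.l3) (xa T5.l3 T5.l3)) (xk (xa T5.l3 (xs (xb T5.l3 T5.l3) T5.l3)) (xa T5.l3 (xs (xb T5.l3 T5.l3) T5.l3)))))))) = true := by decide +kernel
theorem c2_8_5 : chkTag sI cl7 cl5 cl9 t0 b2_8 (tg false true false RT.r4) (I.pos (nat_lit 0) (nat_lit 0))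
  (xa (xb (xk T0.l6 T0.l2) T0.l2) (xb (xk (xa T0.l2 (xb T0.l2 T0.l2)) (xa T0.l2 T0.l2)) (xk (xa T0.l2 T0.l2) (xa T0.l2 T0.l2)))) = true := by decide +kernel
theorem c2_8_6 : chkTag sI cl7 cl5 cl9 t5 b2_8 (Tag.mk false false false RT.tl RT.r5) (I.mix (nat_lit 29511666) (nat_lit 77433728))
  (xR T5.l4 (xR T5.l4 (xR T5.l4 (xb (xk T5.l7 T5.l4) (xk T5.l4 T5.l4))))) = true := by decide +kernel
theorem c2_8_7 : chkTag sI cl7 cl5 cl9 t0 b2_8 (Tag.mk false true false RT.tl RT.r6) (I.mix (nat_lit 29511666) (nat_lit 46070178))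
  T0.l3 = true := by decide +kernel
theorem bx2_8 : BoxOK sI cl7 cl5 cl9 t0 t5 b2_8 :=
  box_mk' [(tg true true false RT.r2), (tg true false false RT.r3), (Tag.mk true true false RT.tl RT.r4), (Tag.mk true false false RT.tl RT.r5), (tg false false false RT.r3), (tg false true false RT.r4), (Tag.mk false false false RT.tl RT.r5), (Tag.mk false true false RT.tl RT.r6)] rfl (allL_c (ex_mk c2_8_0) (allL_c (ex_mk c2_8_1) (allL_c (ex_mk c2_8_2) (allL_c (ex_mk c2_8_3) (allL_c (ex_mk c2_8_4) (allL_c (ex_mk c2_8_5) (allL_c (ex_mk c2_8_6) (allL_c (ex_mk c2_8_7) allL_n))))))))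
theorem bx2_9 : BoxOK sI cl7 cl5 cl9 t0 t5 b2_9 :=
  box_mk (TrL.c (I.pos (nat_lit 0) (nat_lit 0)) (xa (xb T0.l11 (xa T0.l11 T0.l11)) T0.l0)
  (TrL.c (I.pos (nat_lit 0) (nat_lit 0)) T5.l1
  (TrL.c (I.pos (nat_lit 0) (nat_lit 111196574)) T0.l1
  (TrL.c (I.pos (nat_lit 0) (nat_lit 77433728)) T5.l2
  (TrL.c (I.pos (nat_lit 0) (nat_lit 0)) (xk (xa (xb T5.l11 T5.l11) (xb T5.l11 T5.l11)) (xa (xb T5.l5 T5.l11) (xb T5.l11 T5.l11)))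
  (TrL.c (I.pos (nat_lit 0) (nat_lit 0)) T0.l2
  (TrL.c (I.mix (nat_lit 29511666) (nat_lit 77433728)) (xR T5.l4 T5.l4)
  (TrL.c (I.mix (nat_lit 29511666) (nat_lit 46070178)) T0.l3
  TrL.n)))))))) (by decide +kernel)
theorem bx2_10 : BoxOK sI cl7 cl5 cl9 t0 t5 b2_10 :=
  box_mk (TrL.c (I.pos (nat_lit 0) (nat_lit 0)) (xb (xa T0.l11 T0.l11) (xa (xb T0.l11 T0.l11) (xb T0.l11 T0.l11)))
  (TrL.c (I.pos (nat_lit 0) (nat_lit 0)) (xk (xb T5.l1 T5.l1) (xb T5.l1 T5.l1))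
  (TrL.c (I.pos (nat_lit 0) (nat_lit 111196574)) T0.l1
  (TrL.c (I.pos (nat_lit 0) (nat_lit 77433728)) T5.l2
  (TrL.c (I.pos (nat_lit 0) (nat_lit 0)) (xk (xb (xa T5.l11 T5.l11) T5.l3) (xb T5.l11 T5.l3))
  (TrL.c (I.pos (nat_lit 0) (nat_lit 0)) T0.l2
  (TrL.c (I.mix (nat_lit 29511666) (nat_lit 77433728)) (xR T5.l4 T5.l4)
  (TrL.c (I.mix (nat_lit 29511666) (nat_lit 46070178)) T0.l3
  TrL.n)))))))) (by decide +kernel)
theorem bx2_11 : BoxOK sI cl7 cl5 cl9 t0 t5 b2_11 :=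
  box_mk (TrL.c (I.pos (nat_lit 0) (nat_lit 0)) (xa (xb (xa T0.l0 T0.l0) (xa (xb T0.l0 T0.l0) (xb T0.l0 T0.l0))) (xb (xa T0.l0 T0.l0) (xa (xb T0.l0 T0.l0) (xb T0.l0 T0.l0))))
  (TrL.c (I.pos (nat_lit 0) (nat_lit 0)) (xk (xa (xb T5.l1 T5.l1) (xb T5.l1 T5.l1)) (xa T5.l1 (xb T5.l1 T5.l1)))
  (TrL.c (I.pos (nat_lit 0) (nat_lit 111196574)) (xR T0.l1 T0.l1)
  (TrL.c (I.pos (nat_lit 0) (nat_lit 77433728)) T5.l2
  (TrL.c (I.pos (nat_lit 0) (nat_lit 0)) (xk (xa T5.l3 (xb T5.l3 T5.l3)) (xa T5.l3 (xb T5.l3 T5.l3)))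
  (TrL.c (I.pos (nat_lit 0) (nat_lit 0)) T0.l2
  (TrL.c (I.mix (nat_lit 29511666) (nat_lit 77433728)) (xR T5.l4 T5.l4)
  (TrL.c (I.mix (nat_lit 29511666) (nat_lit 46070178)) T0.l3
  TrL.n)))))))) (by decide +kernel)
theorem sv2 : StarV sI cl7 cl5 cl9 t0 t5 t2 :=
  (bt_n (bt_n (bt_n (bt_b bx2_0) (bt_n (bt_b bx2_1) (bt_b bx2_2))) (bt_n (bt_b bx2_3) (bt_n (bt_b bx2_4) (bt_b bx2_5)))) (bt_n (bt_n (bt_b bx2_6) (bt_n (bt_b bx2_7) (bt_b bx2_8))) (bt_n (bt_b bx2_9) (bt_n (bt_b bx2_10) (bt_b bx2_11)))))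
def S2 : StarD := StarD.mk cl7 cl5 cl9 0 5 t2
theorem bx3_0 : BoxOK sI cl7 cl9 cl5 t5 t0 b3_0 :=
  box_mk (TrL.c (I.pos (nat_lit 0) (nat_lit 0)) (xa (xb (xa (xb T5.l0 T5.l0) (xb T5.l0 T5.l0)) (xa (xb (xa T5.l0 T5.l0) (xa (xs T5.l0 (xc T5.l0 T5.l0)) (xs T5.l0 T5.l0))) (xb T5.l0 (xa (xs T5.l0 T5.l0) T5.l0)))) (xb (xa (xb T5.l0 T5.l0) (xb (xa T5.l0 T5.l0) (xa T5.l0 T5.l0))) (xa (xa (xb T5.l0 T5.l0) (xb T5.l0 T5.l0)) (xb (xa T5.l0 T5.l0) (xa T5.l0 T5.l0)))))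
  (TrL.c (I.pos (nat_lit 0) (nat_lit 0)) (xa (xk (xb T0.l6 (xa (xk T0.l6 T0.l6) T0.l6)) (xb T0.l6 (xa T0.l6 T0.l6))) (xk (xb (xa T0.l6 T0.l2) (xa (xk T0.l6 T0.l6) (xk T0.l6 T0.l6))) (xb (xa T0.l6 T0.l6) (xa T0.l6 (xk T0.l6 T0.l6)))))
  (TrL.c (I.pos (nat_lit 0) (nat_lit 111196574)) (xR T5.l7 (xR T5.l7 T5.l7))
  (TrL.c (I.pos (nat_lit 0) (nat_lit 77433728)) (xR T0.l7 (xR T0.l7 T0.l7))
  (TrL.c (I.pos (nat_lit 0) (nat_lit 0)) (xa (xk (xb (xa T0.l8 T0.l8) (xa T0.l8 T0.l8)) (xb (xa T0.l8 T0.l8) (xa T0.l8 T0.l8))) (xk (xb (xa T0.l8 (xk T0.l8 T0.l8)) (xa T0.l8 (xk (xb T0.l8 T0.l8) (xb T0.l8 T0.l8)))) (xb (xa T0.l8 (xk T0.l8 T0.l8)) (xa T0.l8 (xk (xb T0.l8 T0.l8) (xb T0.l8 T0.l8))))))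
  (TrL.c (I.pos (nat_lit 0) (nat_lit 0)) (xk (xa T5.l8 (xb T5.l8 T5.l8)) (xa T5.l8 (xb T5.l8 T5.l8)))
  (TrL.c (I.mix (nat_lit 29511666) (nat_lit 77433728)) (xR T0.l9 (xR T0.l9 (xR T0.l9 T0.l9)))
  (TrL.c (I.mix (nat_lit 29511666) (nat_lit 46070178)) T5.l9
  TrL.n)))))))) (by decide +kernel)
theorem bx3_1 : BoxOK sI cl7 cl9 cl5 t5 t0 b3_1 :=
  box_mk (TrL.c (I.pos (nat_lit 0) (nat_lit 0)) (xa T5.l12 T5.l12)
  (TrL.c (I.pos (nat_lit 0) (nat_lit 0)) (xa (xk T0.l6 T0.l6) (xk T0.l6 T0.l6))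
  (TrL.c (I.pos (nat_lit 0) (nat_lit 111196574)) T5.l7
  (TrL.c (I.pos (nat_lit 0) (nat_lit 77433728)) T0.l7
  (TrL.c (I.pos (nat_lit 0) (nat_lit 0)) (xa (xk T0.l12 T0.l12) (xk (xb T0.l12 T0.l12) (xb T0.l12 T0.l12)))
  (TrL.c (I.pos (nat_lit 0) (nat_lit 0)) T5.l8
  (TrL.c (I.mix (nat_lit 29511666) (nat_lit 77433728)) (xR T0.l9 T0.l9)
  (TrL.c (I.mix (nat_lit 29511666) (nat_lit 46070178)) T5.l9
  TrL.n)))))))) (by decide +kernel)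
theorem bx3_2 : BoxOK sI cl7 cl9 cl5 t5 t0 b3_2 :=
  box_mk (TrL.c (I.pos (nat_lit 0) (nat_lit 0)) (xa T5.l12 T5.l12)
  (TrL.c (I.pos (nat_lit 0) (nat_lit 0)) (xa (xa T0.l12 T0.l6) (xa T0.l6 T0.l6))
  (TrL.c (I.pos (nat_lit 0) (nat_lit 111196574)) T5.l7
  (TrL.c (I.pos (nat_lit 0) (nat_lit 77433728)) T0.l7
  (TrL.c (I.pos (nat_lit 0) (nat_lit 0)) (xa (xa T0.l12 T0.l12) T0.l12)
  (TrL.c (I.pos (nat_lit 0) (nat_lit 0)) T5.l8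
  (TrL.c (I.mix (nat_lit 29511666) (nat_lit 77433728)) T0.l9
  (TrL.c (I.mix (nat_lit 29511666) (nat_lit 46070178)) T5.l9
  TrL.n)))))))) (by decide +kernel)
theorem bx3_3 : BoxOK sI cl7 cl9 cl5 t5 t0 b3_3 :=
  box_mk (TrL.c (I.pos (nat_lit 0) (nat_lit 0)) (xb (xa (xb T5.l13 T5.l13) (xb T5.l13 T5.l13)) (xa (xb T5.l13 (xa T5.l13 T5.l13)) (xa (xb T5.l13 T5.l13) T5.l13)))
  (TrL.c (I.pos (nat_lit 0) (nat_lit 0)) (xb (xk (xa T0.l6 T0.l6) (xa T0.l6 T0.l6)) (xk (xa (xb T0.l6 T0.l6) (xb T0.l6 T0.l6)) (xa T0.l6 T0.l6)))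
  (TrL.c (I.pos (nat_lit 0) (nat_lit 111196574)) (xR T5.l7 T5.l7)
  (TrL.c (I.pos (nat_lit 0) (nat_lit 77433728)) (xR T0.l7 T0.l7)
  (TrL.c (I.pos (nat_lit 0) (nat_lit 0)) (xb (xk (xa T0.l13 (xb T0.l13 T0.l8)) (xa T0.l13 (xb T0.l13 T0.l8))) (xk (xa T0.l8 (xb T0.l8 T0.l8)) (xa T0.l8 (xb T0.l8 T0.l8))))
  (TrL.c (I.pos (nat_lit 0) (nat_lit 0)) (xk T5.l8 T5.l8)
  (TrL.c (I.mix (nat_lit 29511666) (nat_lit 77433728)) (xR T0.l9 (xR T0.l9 T0.l9))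
  (TrL.c (I.mix (nat_lit 29511666) (nat_lit 46070178)) T5.l9
  TrL.n)))))))) (by decide +kernel)
theorem bx3_4 : BoxOK sI cl7 cl9 cl5 t5 t0 b3_4 :=
  box_mk (TrL.c (I.pos (nat_lit 0) (nat_lit 0)) (xa (xa (xb T5.l12 (xa T5.l12 T5.l12)) (xb T5.l12 T5.l12)) (xa T5.l12 (xb T5.l12 (xa T5.l12 T5.l12))))
  (TrL.c (I.pos (nat_lit 0) (nat_lit 0)) (xa (xa T0.l12 T0.l6) (xa T0.l6 T0.l6))
  (TrL.c (I.pos (nat_lit 0) (nat_lit 111196574)) T5.l7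
  (TrL.c (I.pos (nat_lit 0) (nat_lit 77433728)) T0.l7
  (TrL.c (I.pos (nat_lit 0) (nat_lit 0)) (xa (xa T0.l12 T0.l12) (xa T0.l12 T0.l12))
  (TrL.c (I.pos (nat_lit 0) (nat_lit 0)) (xa T5.l8 T5.l8)
  (TrL.c (I.mix (nat_lit 29511666) (nat_lit 77433728)) T0.l9
  (TrL.c (I.mix (nat_lit 29511666) (nat_lit 46070178)) T5.l9
  TrL.n)))))))) (by decide +kernel)
theorem bx3_5 : BoxOK sI cl7 cl9 cl5 t5 t0 b3_5 :=
  box_mk (TrL.c (I.pos (nat_lit 0) (nat_lit 0)) (xa (xb T5.l0 T5.l0) T5.l0)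
  (TrL.c (I.pos (nat_lit 0) (nat_lit 0)) (xa T0.l6 T0.l6)
  (TrL.c (I.pos (nat_lit 0) (nat_lit 111196574)) (xR T5.l7 T5.l7)
  (TrL.c (I.pos (nat_lit 0) (nat_lit 77433728)) T0.l7
  (TrL.c (I.pos (nat_lit 0) (nat_lit 0)) (xk (xa (xb T0.l13 T0.l13) (xb T0.l8 T0.l0)) (xa (xb T0.l13 T0.l13) (xb T0.l8 T0.l0)))
  (TrL.c (I.pos (nat_lit 0) (nat_lit 0)) T5.l8
  (TrL.c (I.mix (nat_lit 29511666) (nat_lit 77433728)) (xR T0.l9 T0.l1)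
  (TrL.c (I.mix (nat_lit 29511666) (nat_lit 46070178)) T5.l9
  TrL.n)))))))) (by decide +kernel)
theorem bx3_6 : BoxOK sI cl7 cl9 cl5 t5 t0 b3_6 :=
  box_mk (TrL.c (I.pos (nat_lit 0) (nat_lit 0)) T5.l12
  (TrL.c (I.pos (nat_lit 0) (nat_lit 0)) T0.l6
  (TrL.c (I.pos (nat_lit 0) (nat_lit 111196574)) T5.l7
  (TrL.c (I.pos (nat_lit 0) (nat_lit 77433728)) T0.l7
  (TrL.c (I.pos (nat_lit 0) (nat_lit 0)) (xk T0.l12 T0.l12)
  (TrL.c (I.pos (nat_lit 0) (nat_lit 0)) T5.l8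
  (TrL.c (I.mix (nat_lit 29511666) (nat_lit 77433728)) T0.l9
  (TrL.c (I.mix (nat_lit 29511666) (nat_lit 46070178)) T5.l9
  TrL.n)))))))) (by decide +kernel)
theorem bx3_7 : BoxOK sI cl7 cl9 cl5 t5 t0 b3_7 :=
  box_mk (TrL.c (I.pos (nat_lit 0) (nat_lit 0)) (xa (xa (xa T5.l12 T5.l12) T5.l12) T5.l12)
  (TrL.c (I.pos (nat_lit 0) (nat_lit 0)) (xa T0.l12 (xa T0.l6 T0.l6))
  (TrL.c (I.pos (nat_lit 0) (nat_lit 111196574)) T5.l7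
  (TrL.c (I.pos (nat_lit 0) (nat_lit 77433728)) T0.l7
  (TrL.c (I.pos (nat_lit 0) (nat_lit 0)) (xa (xa T0.l12 T0.l12) T0.l12)
  (TrL.c (I.pos (nat_lit 0) (nat_lit 0)) T5.l8
  (TrL.c (I.mix (nat_lit 29511666) (nat_lit 77433728)) T0.l9
  (TrL.c (I.mix (nat_lit 29511666) (nat_lit 46070178)) T5.l9
  TrL.n)))))))) (by decide +kernel)
theorem bx3_8 : BoxOK sI cl7 cl9 cl5 t5 t0 b3_8 :=
  box_mk (TrL.c (I.pos (nat_lit 0) (nat_lit 0)) (xa T5.l13 T5.l13)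
  (TrL.c (I.pos (nat_lit 0) (nat_lit 0)) (xk T0.l6 T0.l6)
  (TrL.c (I.pos (nat_lit 0) (nat_lit 111196574)) (xR T5.l7 T5.l7)
  (TrL.c (I.pos (nat_lit 0) (nat_lit 77433728)) T0.l7
  (TrL.c (I.pos (nat_lit 0) (nat_lit 0)) (xk (xb (xa T0.l13 T0.l13) T0.l8) (xb T0.l13 T0.l8))
  (TrL.c (I.pos (nat_lit 0) (nat_lit 0)) T5.l8
  (TrL.c (I.mix (nat_lit 29511666) (nat_lit 77433728)) (xR T0.l9 T0.l1)
  (TrL.c (I.mix (nat_lit 29511666) (nat_lit 46070178)) T5.l9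
  TrL.n)))))))) (by decide +kernel)
theorem bx3_9 : BoxOK sI cl7 cl9 cl5 t5 t0 b3_9 :=
  box_mk (TrL.c (I.pos (nat_lit 0) (nat_lit 0)) (xa (xa (xb T5.l12 (xa T5.l12 T5.l12)) T5.l12) (xa (xb T5.l12 (xa T5.l12 T5.l12)) (xa T5.l12 T5.l12)))
  (TrL.c (I.pos (nat_lit 0) (nat_lit 0)) (xa (xa T0.l12 T0.l6) (xa T0.l6 T0.l6))
  (TrL.c (I.pos (nat_lit 0) (nat_lit 111196574)) T5.l7
  (TrL.c (I.pos (nat_lit 0) (nat_lit 77433728)) T0.l7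
  (TrL.c (I.pos (nat_lit 0) (nat_lit 0)) (xa (xa T0.l12 T0.l12) (xa T0.l12 T0.l12))
  (TrL.c (I.pos (nat_lit 0) (nat_lit 0)) (xa T5.l8 T5.l8)
  (TrL.c (I.mix (nat_lit 29511666) (nat_lit 77433728)) T0.l9
  (TrL.c (I.mix (nat_lit 29511666) (nat_lit 46070178)) T5.l9
  TrL.n)))))))) (by decide +kernel)
theorem bx3_10 : BoxOK sI cl7 cl9 cl5 t5 t0 b3_10 :=
  box_mk (TrL.c (I.pos (nat_lit 0) (nat_lit 0)) (xb (xa T5.l12 T5.l12) (xa T5.l12 T5.l12))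
  (TrL.c (I.pos (nat_lit 0) (nat_lit 0)) (xb (xk T0.l6 T0.l6) T0.l6)
  (TrL.c (I.pos (nat_lit 0) (nat_lit 111196574)) T5.l7
  (TrL.c (I.pos (nat_lit 0) (nat_lit 77433728)) T0.l7
  (TrL.c (I.pos (nat_lit 0) (nat_lit 0)) (xb (xk (xa T0.l12 T0.l12) (xa T0.l12 T0.l12)) (xk (xa T0.l12 T0.l12) (xa T0.l12 T0.l12)))
  (TrL.c (I.pos (nat_lit 0) (nat_lit 0)) T5.l8
  (TrL.c (I.mix (nat_lit 29511666) (nat_lit 77433728)) T0.l9
  (TrL.c (I.mix (nat_lit 29511666) (nat_lit 46070178)) T5.l9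
  TrL.n)))))))) (by decide +kernel)
theorem bx3_11 : BoxOK sI cl7 cl9 cl5 t5 t0 b3_11 :=
  box_mk (TrL.c (I.pos (nat_lit 0) (nat_lit 0)) (xa T5.l12 T5.l12)
  (TrL.c (I.pos (nat_lit 0) (nat_lit 0)) (xa (xa T0.l12 T0.l6) (xa T0.l6 T0.l6))
  (TrL.c (I.pos (nat_lit 0) (nat_lit 111196574)) T5.l7
  (TrL.c (I.pos (nat_lit 0) (nat_lit 77433728)) T0.l7
  (TrL.c (I.pos (nat_lit 0) (nat_lit 0)) (xa (xa T0.l12 T0.l12) T0.l12)
  (TrL.c (I.pos (nat_lit 0) (nat_lit 0)) T5.l8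
  (TrL.c (I.mix (nat_lit 29511666) (nat_lit 77433728)) T0.l9
  (TrL.c (I.mix (nat_lit 29511666) (nat_lit 46070178)) T5.l9
  TrL.n)))))))) (by decide +kernel)
theorem c3_12_0 : chkTag sI cl7 cl9 cl5 t5 b3_12 (tg true true false RT.r2) (I.pos (nat_lit 0) (nat_lit 0))
  (xa (xb (xa T5.l0 T5.l0) (xa (xb T5.l0 T5.l0) (xb T5.l0 T5.l0))) (xb (xa T5.l0 (xb T5.l0 T5.l0)) (xa (xb T5.l0 T5.l0) (xb (xa T5.l0 T5.l0) (xa T5.l0 T5.l0))))) = true := by decide +kernel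
theorem c3_12_1 : chkTag sI cl7 cl9 cl5 t0 b3_12 (tg true false false RT.r3) (I.pos (nat_lit 0) (nat_lit 0))
  (xa (xb (xk (xa T0.l6 (xb T0.l6 T0.l6)) (xa T0.l6 T0.l6)) (xk (xa T0.l6 (xb T0.l6 (xk T0.l6 T0.l6))) (xa T0.l6 T0.l6))) (xb (xk (xa T0.l2 (xk T0.l2 T0.l2)) (xa (xb T0.l2 T0.l2) T0.l2)) (xk (xa T0.l2 (xk (xb T0.l2 T0.l2) T0.l2)) (xa (xb T0.l2 (xk T0.l6 T0.l6)) T0.l2)))) = true := by decide +kernel
theorem c3_12_2 : chkTag sI cl7 cl9 cl5 t5 b3_12 (Tag.mk true true false RT.tl RT.r4) (I.pos (nat_lit 0) (nat_lit 111196574))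
  (xR T5.l7 (xR T5.l7 (xR T5.l7 T5.l7))) = true := by decide +kernel
theorem c3_12_3 : chkTag sI cl7 cl9 cl5 t0 b3_12 (Tag.mk true false false RT.tl RT.r5) (I.pos (nat_lit 0) (nat_lit 77433728))
  (xR T0.l7 (xR T0.l7 (xa T0.l7 (xR T0.l7 T0.l7)))) = true := by decide +kernel
def rc3_12_4_l : Tr := (xb (xk (xa (xb (xk T0.l8 T0.l8) T0.l8) (xb (xk (xa T0.l8 T0.l8) (xa T0.l8 T0.l8)) T0.l8)) (xa (xb (xk T0.l8 T0.l8) T0.l8) (xb (xk (xa T0.l8 T0.l8) (xa T0.l8 T0.l8)) T0.l8))) (xk (xa T0.l8 T0.l8) (xa T0.l8 T0.l8)))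
theorem qc3_12_4_l : chkTr (tg false false false RT.r3) b3_12 t0 rc3_12_4_l
  (upd lo Co.a (rc sI cl7 cl9 cl5 b3_12 (I.pos (nat_lit 0) (nat_lit 0)))) = true := by decide +kernel
def rc3_12_4_r : Tr := (xb (xk (xa (xb (xk (xa T0.l8 (xb T0.l8 T0.l8)) (xa T0.l8 T0.l8)) (xk T0.l8 T0.l8)) (xb (xk (xa (xb (xk T0.l8 T0.l8) T0.l8) (xb (xk (xa T0.l8 T0.l8) (xa T0.l8 T0.l8)) T0.l8)) (xa (xb (xk T0.l8 T0.l8) T0.l8) (xb (xk (xa T0.l8 T0.l8) T0.l8) T0.l8))) (xk (xa T0.l8 T0.l8) (xa T0.l8 T0.l8)))) (xa (xb (xk (xa T0.l8 T0.l8) (xa T0.l8 T0.l8)) T0.l8) (xb (xk (xa (xb (xk T0.l8 T0.l8) T0.l8) (xb (xk T0.l8 T0.l8) T0.l8)) (xa (xb T0.l8 T0.l8) (xb (xk T0.l8 T0.l8) T0.l8))) (xk (xa T0.l8 T0.l8) (xa T0.l8 T0.l8))))) (xk (xa (xb T0.l8 (xk T0.l8 T0.l8)) (xb (xk (xa T0.l8 (xb T0.l8 T0.l8)) (xa T0.l8 (xb T0.l8 T0.l8))) (xk (xa (xb T0.l8 T0.l8) (xb (xk T0.l8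 T0.l8) (xk T0.l8 T0.l8))) (xa (xb T0.l8 T0.l8) (xb (xk T0.l8 T0.l8) (xk T0.l8 T0.l8)))))) (xa (xb T0.l8 (xk T0.l8 T0.l8)) (xb (xk (xa T0.l8 (xb T0.l8 T0.l8)) (xa T0.l8 (xb T0.l8 T0.l8))) (xk (xa (xb T0.l8 T0.l8) (xb (xk T0.l8 T0.l8) (xk T0.l8 T0.l8))) (xa (xb T0.l8 T0.l8) (xb (xk T0.l8 T0.l8) (xs (xk T0.l8 T0.l8) T0.l8))))))))
theorem qc3_12_4_r : chkTr (tg false false false RT.r3) b3_12 t0 rc3_12_4_r
  (upd hi Co.a (rc sI cl7 cl9 cl5 b3_12 (I.pos (nat_lit 0) (nat_lit 0)))) = true := by decide +kernel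
theorem qc3_12_4_ : chkTr (tg false false false RT.r3) b3_12 t0 (Tr.N Co.a rc3_12_4_l rc3_12_4_r)
  (rc sI cl7 cl9 cl5 b3_12 (I.pos (nat_lit 0) (nat_lit 0))) = true := tr_split qc3_12_4_l qc3_12_4_r
theorem c3_12_4 : chkTag sI cl7 cl9 cl5 t0 b3_12 (tg false false false RT.r3) (I.pos (nat_lit 0) (nat_lit 0))
  (Tr.N Co.a rc3_12_4_l rc3_12_4_r) = true := tag_mk (by decide +kernel) qc3_12_4_
theorem c3_12_5 : chkTag sI cl7 cl9 cl5 t5 b3_12 (tg false true false RT.r4) (I.pos (nat_lit 0) (nat_lit 0))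
  (xa (xk (xb T5.l8 T5.l8) (xb T5.l8 T5.l8)) (xk (xb (xa (xb T5.l8 T5.l8) (xk (xb T5.l8 T5.l8) T5.l8)) (xa T5.l8 (xk T5.l8 T5.l8))) (xb (xa T5.l8 (xk T5.l8 T5.l8)) (xa T5.l8 (xk T5.l8 T5.l8))))) = true := by decide +kernel
theorem c3_12_6 : chkTag sI cl7 cl9 cl5 t0 b3_12 (Tag.mk false false false RT.tl RT.r5) (I.mix (nat_lit 29511666) (nat_lit 77433728))
  (xR T0.l1 (xR T0.l9 (xR (xa T0.l9 T0.l9) (xa T0.l9 (xk (xb T0.l9 T0.l9) T0.l9))))) = true := by decide +kernel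
theorem c3_12_7 : chkTag sI cl7 cl9 cl5 t5 b3_12 (Tag.mk false true false RT.tl RT.r6) (I.mix (nat_lit 29511666) (nat_lit 46070178))
  (xR T5.l9 T5.l9) = true := by decide +kernel
theorem bx3_12 : BoxOK sI cl7 cl9 cl5 t5 t0 b3_12 :=
  box_mk' [(tg true true false RT.r2), (tg true false false RT.r3), (Tag.mk true true false RT.tl RT.r4), (Tag.mk true false false RT.tl RT.r5), (tg false false false RT.r3), (tg false true false RT.r4), (Tag.mk false false false RT.tl RT.r5), (Tag.mk false true false RT.tl RT.r6)] rfl (allL_c (ex_mk c3_12_0) (allL_c (ex_mk c3_12_1) (allL_c (ex_mk c3_12_2) (allL_c (ex_mk c3_12_3) (allL_c (ex_mk c3_12_4) (allL_c (ex_mk c3_12_5) (allL_c (ex_mk c3_12_6) (allL_c (ex_mk c3_12_7) allL_n))))))))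
theorem bx3_13 : BoxOK sI cl7 cl9 cl5 t5 t0 b3_13 :=
  box_mk (TrL.c (I.pos (nat_lit 0) (nat_lit 0)) (xa (xb (xa T5.l0 T5.l0) (xa T5.l0 T5.l0)) (xb (xa T5.l0 T5.l0) (xa T5.l0 T5.l0)))
  (TrL.c (I.pos (nat_lit 0) (nat_lit 0)) (xk (xa (xb T0.l6 T0.l6) (xb T0.l6 (xk T0.l6 T0.l6))) (xa (xb T0.l6 T0.l6) (xb T0.l6 (xa T0.l6 T0.l6))))
  (TrL.c (I.pos (nat_lit 0) (nat_lit 111196574)) (xR T5.l7 T5.l7)
  (TrL.c (I.pos (nat_lit 0) (nat_lit 77433728)) (xR T0.l7 T0.l7)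
  (TrL.c (I.pos (nat_lit 0) (nat_lit 0)) (xk (xa T0.l8 (xb T0.l8 (xk T0.l8 T0.l8))) (xa T0.l8 (xb T0.l8 (xa T0.l8 T0.l8))))
  (TrL.c (I.pos (nat_lit 0) (nat_lit 0)) (xk T5.l8 T5.l8)
  (TrL.c (I.mix (nat_lit 29511666) (nat_lit 77433728)) (xR T0.l9 (xR T0.l9 T0.l9))
  (TrL.c (I.mix (nat_lit 29511666) (nat_lit 46070178)) T5.l9
  TrL.n)))))))) (by decide +kernel)
theorem sv3 : StarV sI cl7 cl9 cl5 t5 t0 t3 :=
  (bt_n (bt_n (bt_n (bt_b bx3_0) (bt_n (bt_b bx3_1) (bt_b bx3_2))) (bt_n (bt_n (bt_b bx3_3) (bt_b bx3_4)) (bt_n (bt_b bx3_5) (bt_b bx3_6)))) (bt_n (bt_n (bt_b bx3_7) (bt_n (bt_b bx3_8) (bt_b bx3_9))) (bt_n (bt_n (bt_b bx3_10) (bt_b bx3_11)) (bt_n (bt_b bx3_12) (bt_b bx3_13)))))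
def S3 : StarD := StarD.mk cl7 cl9 cl5 5 0 t3
theorem bx4_0 : BoxOK sI cl9 cl5 cl7 t1 t3 b4_0 :=
  box_mk (TrL.c (I.pos (nat_lit 0) (nat_lit 0)) (xa (xb (xa (xb T1.l0 T1.l0) T1.l0) (xa (xb T1.l0 (xa T1.l0 T1.l0)) (xb T1.l0 (xa T1.l0 T1.l0)))) (xb (xa T1.l0 T1.l0) (xa (xb T1.l0 (xa T1.l0 T1.l0)) (xb T1.l0 (xa T1.l0 T1.l0)))))
  (TrL.c (I.pos (nat_lit 0) (nat_lit 0)) (xa (xb T3.l1 (xk (xa T3.l1 T3.l1) (xa T3.l1 T3.l1))) (xk (xb T3.l1 (xa T3.l1 T3.l1)) (xb T3.l1 (xa T3.l1 T3.l1))))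
  (TrL.c (I.pos (nat_lit 0) (nat_lit 124588530)) (xR T1.l1 T1.l1)
  (TrL.c (I.pos (nat_lit 0) (nat_lit 96881482)) (xR T3.l2 T3.l2)
  (TrL.c (I.pos (nat_lit 0) (nat_lit 0)) (xa (xb (xk T3.l3 T3.l3) (xk T3.l3 T3.l3)) (xb (xk (xa T3.l3 T3.l3) (xa T3.l3 T3.l3)) (xk (xa T3.l3 T3.l3) (xa T3.l3 T3.l3))))
  (TrL.c (I.pos (nat_lit 0) (nat_lit 0)) (xk T1.l2 T1.l2)
  (TrL.c (I.mix (nat_lit 17240550) (nat_lit 96881482)) (xR T3.l4 (xR T3.l4 T3.l4))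
  (TrL.c (I.mix (nat_lit 17240550) (nat_lit 71940500)) T1.l3
  TrL.n)))))))) (by decide +kernel)
theorem bx4_1 : BoxOK sI cl9 cl5 cl7 t1 t3 b4_1 :=
  box_mk (TrL.c (I.pos (nat_lit 0) (nat_lit 0)) (xa (xb T1.l4 T1.l4) (xb T1.l4 T1.l4))
  (TrL.c (I.pos (nat_lit 0) (nat_lit 0)) (xa T3.l1 T3.l1)
  (TrL.c (I.pos (nat_lit 0) (nat_lit 124588530)) T1.l1
  (TrL.c (I.pos (nat_lit 0) (nat_lit 96881482)) T3.l2
  (TrL.c (I.pos (nat_lit 0) (nat_lit 0)) (xa (xb (xk T3.l5 T3.l5) T3.l5) (xb (xk (xa T3.l5 T3.l5) T3.l5) (xk T3.l5 T3.l5)))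
  (TrL.c (I.pos (nat_lit 0) (nat_lit 0)) T1.l2
  (TrL.c (I.mix (nat_lit 17240550) (nat_lit 96881482)) T3.l9
  (TrL.c (I.mix (nat_lit 17240550) (nat_lit 71940500)) T1.l3
  TrL.n)))))))) (by decide +kernel)
theorem bx4_2 : BoxOK sI cl9 cl5 cl7 t1 t3 b4_2 :=
  box_mk (TrL.c (I.pos (nat_lit 0) (nat_lit 0)) T3.l6
  (TrL.c (I.pos (nat_lit 0) (nat_lit 0)) T1.l1
  (TrL.c (I.mix (nat_lit 17240550) (nat_lit 96881482)) T3.l7
  (TrL.c (I.mix (nat_lit 17240550) (nat_lit 71940500)) T1.l1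
  TrL.n)))) (by decide +kernel)
theorem bx4_3 : BoxOK sI cl9 cl5 cl7 t1 t3 b4_3 :=
  box_mk (TrL.c (I.pos (nat_lit 0) (nat_lit 0)) (xb (xa T1.l13 T1.l13) (xa (xb T1.l13 (xa T1.l13 T1.l13)) (xb T1.l13 (xa T1.l13 T1.l13))))
  (TrL.c (I.pos (nat_lit 0) (nat_lit 0)) (xk (xb T3.l1 (xa T3.l1 T3.l1)) (xb T3.l1 (xa T3.l1 T3.l1)))
  (TrL.c (I.pos (nat_lit 0) (nat_lit 124588530)) (xR T1.l1 T1.l1)
  (TrL.c (I.pos (nat_lit 0) (nat_lit 96881482)) T3.l2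
  (TrL.c (I.pos (nat_lit 0) (nat_lit 0)) (xb (xk T3.l8 T3.l8) (xk T3.l3 T3.l3))
  (TrL.c (I.pos (nat_lit 0) (nat_lit 0)) T1.l2
  (TrL.c (I.mix (nat_lit 17240550) (nat_lit 96881482)) (xR T3.l4 T3.l4)
  (TrL.c (I.mix (nat_lit 17240550) (nat_lit 71940500)) T1.l3
  TrL.n)))))))) (by decide +kernel)
theorem bx4_4 : BoxOK sI cl9 cl5 cl7 t1 t3 b4_4 :=
  box_mk (TrL.c (I.pos (nat_lit 0) (nat_lit 0)) (xb T1.l4 T1.l4)
  (TrL.c (I.pos (nat_lit 0) (nat_lit 0)) T3.l6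
  (TrL.c (I.pos (nat_lit 0) (nat_lit 124588530)) T1.l1
  (TrL.c (I.pos (nat_lit 0) (nat_lit 96881482)) T3.l7
  (TrL.c (I.pos (nat_lit 0) (nat_lit 0)) T3.l5
  (TrL.c (I.pos (nat_lit 0) (nat_lit 0)) T1.l2
  (TrL.c (I.mix (nat_lit 17240550) (nat_lit 96881482)) T3.l4
  (TrL.c (I.mix (nat_lit 17240550) (nat_lit 71940500)) T1.l1
  TrL.n)))))))) (by decide +kernel)
theorem bx4_5 : BoxOK sI cl9 cl5 cl7 t1 t3 b4_5 :=
  box_mk (TrL.c (I.pos (nat_lit 0) (nat_lit 0)) (xa (xb T1.l4 T1.l4) (xb T1.l4 T1.l4))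
  (TrL.c (I.pos (nat_lit 0) (nat_lit 0)) T3.l1
  (TrL.c (I.pos (nat_lit 0) (nat_lit 124588530)) T1.l1
  (TrL.c (I.pos (nat_lit 0) (nat_lit 96881482)) T3.l2
  (TrL.c (I.pos (nat_lit 0) (nat_lit 0)) T3.l5
  (TrL.c (I.pos (nat_lit 0) (nat_lit 0)) T1.l2
  (TrL.c (I.mix (nat_lit 17240550) (nat_lit 96881482)) T3.l4
  (TrL.c (I.mix (nat_lit 17240550) (nat_lit 71940500)) T1.l3
  TrL.n)))))))) (by decide +kernel)
theorem bx4_6 : BoxOK sI cl9 cl5 cl7 t1 t3 b4_6 :=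
  box_mk (TrL.c (I.pos (nat_lit 0) (nat_lit 0)) (xb (xa T1.l4 T1.l4) (xa T1.l4 T1.l4))
  (TrL.c (I.pos (nat_lit 0) (nat_lit 0)) (xb T3.l1 T3.l1)
  (TrL.c (I.pos (nat_lit 0) (nat_lit 124588530)) T1.l1
  (TrL.c (I.pos (nat_lit 0) (nat_lit 96881482)) T3.l2
  (TrL.c (I.pos (nat_lit 0) (nat_lit 0)) (xb (xk T3.l5 T3.l5) T3.l5)
  (TrL.c (I.pos (nat_lit 0) (nat_lit 0)) T1.l2
  (TrL.c (I.mix (nat_lit 17240550) (nat_lit 96881482)) T3.l4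
  (TrL.c (I.mix (nat_lit 17240550) (nat_lit 71940500)) T1.l3
  TrL.n)))))))) (by decide +kernel)
theorem bx4_7 : BoxOK sI cl9 cl5 cl7 t1 t3 b4_7 :=
  box_mk (TrL.c (I.pos (nat_lit 0) (nat_lit 0)) T3.l1
  (TrL.c (I.pos (nat_lit 0) (nat_lit 0)) T1.l1
  (TrL.c (I.mix (nat_lit 17240550) (nat_lit 96881482)) T3.l11
  (TrL.c (I.mix (nat_lit 17240550) (nat_lit 71940500)) T1.l1
  TrL.n)))) (by decide +kernel)
theorem bx4_8 : BoxOK sI cl9 cl5 cl7 t1 t3 b4_8 :=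
  box_mk (TrL.c (I.pos (nat_lit 0) (nat_lit 0)) (xa (xb T1.l0 T1.l13) T1.l0)
  (TrL.c (I.pos (nat_lit 0) (nat_lit 0)) T3.l1
  (TrL.c (I.pos (nat_lit 0) (nat_lit 124588530)) T1.l1
  (TrL.c (I.pos (nat_lit 0) (nat_lit 96881482)) T3.l2
  (TrL.c (I.pos (nat_lit 0) (nat_lit 0)) (xk (xa T3.l8 (xb T3.l3 T3.l8)) (xa T3.l5 T3.l3))
  (TrL.c (I.pos (nat_lit 0) (nat_lit 0)) T1.l2
  (TrL.c (I.mix (nat_lit 17240550) (nat_lit 96881482)) T3.l4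
  (TrL.c (I.mix (nat_lit 17240550) (nat_lit 71940500)) T1.l3
  TrL.n)))))))) (by decide +kernel)
theorem c4_9_0 : chkTag sI cl9 cl5 cl7 t1 b4_9 (tg true true false RT.r2) (I.pos (nat_lit 0) (nat_lit 0))
  (xa (xb (xa T1.l0 T1.l0) (xa (xb T1.l0 (xc T1.l0 T1.l0)) (xb T1.l0 (xc T1.l0 T1.l0)))) (xb (xa T1.l0 T1.l0) (xa (xb T1.l0 (xa T1.l0 T1.l0)) (xb T1.l0 (xa T1.l0 T1.l0))))) = true := by decide +kernel
theorem c4_9_1 : chkTag sI cl9 cl5 cl7 t3 b4_9 (tg true false false RT.r3) (I.pos (nat_lit 0) (nat_lit 0))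
  (xa (xb (xk T3.l1 T3.l1) (xk (xa T3.l1 T3.l1) (xa T3.l1 T3.l1))) (xb (xk T3.l10 T3.l1) (xk (xa T3.l1 (xb T3.l1 T3.l1)) (xa T3.l1 T3.l1)))) = true := by decide +kernel
theorem c4_9_2 : chkTag sI cl9 cl5 cl7 t1 b4_9 (Tag.mk true true false RT.tl RT.r4) (I.pos (nat_lit 0) (nat_lit 124588530))
  (xR T1.l1 (xR T1.l1 T1.l10)) = true := by decide +kernel
theorem c4_9_3 : chkTag sI cl9 cl5 cl7 t3 b4_9 (Tag.mk true false false RT.tl RT.r5) (I.pos (nat_lit 0) (nat_lit 96881482))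
  (xR T3.l2 (xR T3.l2 T3.l2)) = true := by decide +kernel
theorem c4_9_4 : chkTag sI cl9 cl5 cl7 t3 b4_9 (tg false false false RT.r3) (I.pos (nat_lit 0) (nat_lit 0))
  (xa (xb (xk (xa (xb (xk T3.l3 T3.l3) T3.l3) (xb (xk T3.l0 T3.l0) T3.l3)) (xa (xb (xk T3.l3 T3.l3) T3.l3) (xb (xk T3.l0 T3.l0) T3.l3))) (xk (xa T3.l3 T3.l3) (xa T3.l3 T3.l3))) (xb (xk (xa (xb (xk (xa T3.l3 T3.l3) (xa T3.l3 T3.l3)) T3.l3) (xb (xk (xa (xb T3.l3 T3.l3) (xb T3.l3 T3.l3)) (xa (xb T3.l3 T3.l3) (xb T3.l3 T3.l3))) (xk (xa T3.l3 (xb T3.l3 T3.l3)) (xa T3.l3 T3.l3)))) (xa (xb (xk (xa T3.l3 T3.l3) (xa T3.l3 T3.l3)) T3.l3) (xb (xk (xa T3.l3 (xb T3.l3 T3.l3)) (xa T3.l3 (xb T3.l3 T3.l3))) (xk T3.l3 T3.l3)))) (xk (xa (xb T3.l3 (xk T3.l3 T3.l3)) (xb (xk (xa T3.l3 (xb T3.l3 T3.l3)) (xa T3.l3 T3.l3)) (xk (xa T3.l3 (xb T3.l3 T3.l3)) (xa T3.l3 (xs T3.l3 T3.l3))))) (xa (xb T3.l3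 T3.l3) (xb (xk (xa T3.l3 T3.l3) (xa T3.l3 T3.l3)) (xk (xa T3.l3 (xs T3.l3 T3.l3)) (xa T3.l3 T3.l3))))))) = true := by decide +kernel
theorem c4_9_5 : chkTag sI cl9 cl5 cl7 t1 b4_9 (tg false true false RT.r4) (I.pos (nat_lit 0) (nat_lit 0))
  (xa (xb (xk T1.l2 T1.l2) T1.l2) (xb (xk (xa T1.l2 T1.l2) (xa T1.l2 T1.l2)) (xk (xa T1.l2 T1.l2) (xa T1.l2 T1.l2)))) = true := by decide +kernel
theorem c4_9_6 : chkTag sI cl9 cl5 cl7 t3 b4_9 (Tag.mk false false false RT.tl RT.r5) (I.mix (nat_lit 17240550) (nat_lit 96881482))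
  (xR T3.l4 (xR T3.l4 (xR T3.l4 (xb (xk T3.l9 T3.l4) (xk T3.l4 T3.l4))))) = true := by decide +kernel
theorem c4_9_7 : chkTag sI cl9 cl5 cl7 t1 b4_9 (Tag.mk false true false RT.tl RT.r6) (I.mix (nat_lit 17240550) (nat_lit 71940500))
  T1.l3 = true := by decide +kernel
theorem bx4_9 : BoxOK sI cl9 cl5 cl7 t1 t3 b4_9 :=
  box_mk' [(tg true true false RT.r2), (tg true false false RT.r3), (Tag.mk true true false RT.tl RT.r4), (Tag.mk true false false RT.tl RT.r5), (tg false false false RT.r3), (tg false true false RT.r4), (Tag.mk false false false RT.tl RT.r5), (Tag.mk false true false RT.tl RT.r6)] rfl (allL_c (ex_mk c4_9_0) (allL_c (ex_mk c4_9_1) (allL_c (ex_mk c4_9_2) (allL_c (ex_mk c4_9_3) (allL_c (ex_mk c4_9_4) (allL_c (ex_mk c4_9_5) (allL_c (ex_mk c4_9_6) (allL_c (ex_mk c4_9_7) allL_n))))))))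
theorem bx4_10 : BoxOK sI cl9 cl5 cl7 t1 t3 b4_10 :=
  box_mk (TrL.c (I.pos (nat_lit 0) (nat_lit 0)) (xa (xb T1.l0 (xa T1.l0 T1.l0)) (xb T1.l0 (xa T1.l0 T1.l0)))
  (TrL.c (I.pos (nat_lit 0) (nat_lit 0)) (xk (xa (xb T3.l1 T3.l1) (xb T3.l1 T3.l1)) (xa T3.l1 (xb T3.l1 T3.l1)))
  (TrL.c (I.pos (nat_lit 0) (nat_lit 124588530)) (xR T1.l1 T1.l1)
  (TrL.c (I.pos (nat_lit 0) (nat_lit 96881482)) (xR T3.l2 T3.l2)
  (TrL.c (I.pos (nat_lit 0) (nat_lit 0)) (xk (xa T3.l3 (xb T3.l3 T3.l3)) (xa T3.l3 (xb T3.l3 (xb T3.l3 T3.l3))))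
  (TrL.c (I.pos (nat_lit 0) (nat_lit 0)) T1.l2
  (TrL.c (I.mix (nat_lit 17240550) (nat_lit 96881482)) (xR T3.l4 (xR T3.l4 T3.l4))
  (TrL.c (I.mix (nat_lit 17240550) (nat_lit 71940500)) T1.l3
  TrL.n)))))))) (by decide +kernel)
theorem bx4_11 : BoxOK sI cl9 cl5 cl7 t1 t3 b4_11 :=
  box_mk (TrL.c (I.pos (nat_lit 0) (nat_lit 0)) (xb (xa T1.l13 T1.l13) (xa T1.l13 T1.l13))
  (TrL.c (I.pos (nat_lit 0) (nat_lit 0)) (xk (xb T3.l1 T3.l1) (xb T3.l1 T3.l1))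
  (TrL.c (I.pos (nat_lit 0) (nat_lit 124588530)) (xR T1.l1 T1.l1)
  (TrL.c (I.pos (nat_lit 0) (nat_lit 96881482)) T3.l2
  (TrL.c (I.pos (nat_lit 0) (nat_lit 0)) (xk (xb T3.l8 T3.l8) (xb T3.l8 T3.l8))
  (TrL.c (I.pos (nat_lit 0) (nat_lit 0)) T1.l2
  (TrL.c (I.mix (nat_lit 17240550) (nat_lit 96881482)) (xR T3.l4 T3.l4)
  (TrL.c (I.mix (nat_lit 17240550) (nat_lit 71940500)) T1.l3
  TrL.n)))))))) (by decide +kernel)
theorem sv4 : StarV sI cl9 cl5 cl7 t1 t3 t4 :=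
  (bt_n (bt_n (bt_n (bt_b bx4_0) (bt_n (bt_b bx4_1) (bt_b bx4_2))) (bt_n (bt_b bx4_3) (bt_n (bt_b bx4_4) (bt_b bx4_5)))) (bt_n (bt_n (bt_b bx4_6) (bt_n (bt_b bx4_7) (bt_b bx4_8))) (bt_n (bt_b bx4_9) (bt_n (bt_b bx4_10) (bt_b bx4_11)))))
def S4 : StarD := StarD.mk cl9 cl5 cl7 1 3 t4
theorem bx5_0 : BoxOK sI cl9 cl7 cl5 t3 t1 b5_0 :=
  box_mk (TrL.c (I.pos (nat_lit 0) (nat_lit 0)) (xa (xb (xa (xb T3.l0 T3.l0) (xb T3.l0 T3.l0)) (xa (xb (xa T3.l0 T3.l0) (xa T3.l0 T3.l0)) (xb T3.l0 (xa T3.l0 T3.l0)))) (xb (xa (xb T3.l13 T3.l13) (xb (xa T3.l0 T3.l0) T3.l0)) (xa (xb T3.l0 (xa T3.l0 T3.l0)) (xb (xs T3.l0 T3.l0) (xa T3.l0 T3.l0)))))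
  (TrL.c (I.pos (nat_lit 0) (nat_lit 0)) (xa (xb (xk T1.l7 T1.l7) (xk (xa T1.l7 T1.l7) (xa T1.l7 T1.l7))) (xk (xb (xa T1.l7 T1.l7) (xa (xk T1.l7 T1.l7) (xk T1.l7 T1.l7))) (xb T1.l7 (xa T1.l7 T1.l7))))
  (TrL.c (I.pos (nat_lit 0) (nat_lit 124588530)) (xR T3.l9 T3.l9)
  (TrL.c (I.pos (nat_lit 0) (nat_lit 96881482)) (xR T1.l8 (xR T1.l8 T1.l8))
  (TrL.c (I.pos (nat_lit 0) (nat_lit 0)) (xa (xk (xb (xa T1.l9 T1.l9) (xa T1.l9 T1.l9)) (xb (xa T1.l9 T1.l9) (xa T1.l9 T1.l9))) (xk (xb (xa (xk T1.l9 T1.l9) (xk T1.l9 T1.l9)) (xa T1.l9 (xk T1.l9 T1.l9))) (xb (xa (xb T1.l9 T1.l9) (xk T1.l9 T1.l9)) (xa T1.l9 (xk T1.l9 (xb T1.l9 T1.l9))))))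
  (TrL.c (I.pos (nat_lit 0) (nat_lit 0)) (xk (xa T3.l10 T3.l10) (xa T3.l10 T3.l10))
  (TrL.c (I.mix (nat_lit 17240550) (nat_lit 96881482)) (xR T1.l10 (xR T1.l10 (xR T1.l10 T1.l10)))
  (TrL.c (I.mix (nat_lit 17240550) (nat_lit 71940500)) T3.l11
  TrL.n)))))))) (by decide +kernel)
theorem bx5_1 : BoxOK sI cl9 cl7 cl5 t3 t1 b5_1 :=
  box_mk (TrL.c (I.pos (nat_lit 0) (nat_lit 0)) (xa T3.l12 T3.l0)
  (TrL.c (I.pos (nat_lit 0) (nat_lit 0)) (xa T1.l7 T1.l7)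
  (TrL.c (I.pos (nat_lit 0) (nat_lit 124588530)) T3.l9
  (TrL.c (I.pos (nat_lit 0) (nat_lit 96881482)) T1.l8
  (TrL.c (I.pos (nat_lit 0) (nat_lit 0)) (xa (xb (xk T1.l11 T1.l11) T1.l11) (xk (xb T1.l11 T1.l11) (xb T1.l11 T1.l11)))
  (TrL.c (I.pos (nat_lit 0) (nat_lit 0)) T3.l10
  (TrL.c (I.mix (nat_lit 17240550) (nat_lit 96881482)) (xR T1.l10 T1.l10)
  (TrL.c (I.mix (nat_lit 17240550) (nat_lit 71940500)) T3.l11
  TrL.n)))))))) (by decide +kernel)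
theorem bx5_2 : BoxOK sI cl9 cl7 cl5 t3 t1 b5_2 :=
  box_mk (TrL.c (I.pos (nat_lit 0) (nat_lit 0)) (xa T3.l12 T3.l12)
  (TrL.c (I.pos (nat_lit 0) (nat_lit 0)) (xa T1.l11 T1.l7)
  (TrL.c (I.pos (nat_lit 0) (nat_lit 124588530)) T3.l9
  (TrL.c (I.pos (nat_lit 0) (nat_lit 96881482)) T1.l8
  (TrL.c (I.pos (nat_lit 0) (nat_lit 0)) (xa (xa T1.l11 T1.l11) T1.l11)
  (TrL.c (I.pos (nat_lit 0) (nat_lit 0)) T3.l10
  (TrL.c (I.mix (nat_lit 17240550) (nat_lit 96881482)) T1.l10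
  (TrL.c (I.mix (nat_lit 17240550) (nat_lit 71940500)) T3.l11
  TrL.n)))))))) (by decide +kernel)
theorem bx5_3 : BoxOK sI cl9 cl7 cl5 t3 t1 b5_3 :=
  box_mk (TrL.c (I.pos (nat_lit 0) (nat_lit 0)) (xb (xa T3.l13 T3.l13) (xa (xb T3.l13 (xa T3.l13 T3.l13)) (xb T3.l13 T3.l13)))
  (TrL.c (I.pos (nat_lit 0) (nat_lit 0)) (xb (xk (xa T1.l7 T1.l7) (xa T1.l7 T1.l7)) (xk (xa T1.l7 T1.l7) (xa T1.l7 T1.l7)))
  (TrL.c (I.pos (nat_lit 0) (nat_lit 124588530)) (xR T3.l9 T3.l9)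
  (TrL.c (I.pos (nat_lit 0) (nat_lit 96881482)) (xR T1.l8 T1.l8)
  (TrL.c (I.pos (nat_lit 0) (nat_lit 0)) (xb (xk (xa T1.l12 T1.l12) (xa T1.l12 T1.l12)) (xk (xa T1.l12 T1.l9) (xa T1.l9 T1.l9)))
  (TrL.c (I.pos (nat_lit 0) (nat_lit 0)) (xk T3.l10 T3.l10)
  (TrL.c (I.mix (nat_lit 17240550) (nat_lit 96881482)) (xR T1.l10 (xR T1.l10 T1.l10))
  (TrL.c (I.mix (nat_lit 17240550) (nat_lit 71940500)) T3.l11
  TrL.n)))))))) (by decide +kernel)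
theorem bx5_4 : BoxOK sI cl9 cl7 cl5 t3 t1 b5_4 :=
  box_mk (TrL.c (I.pos (nat_lit 0) (nat_lit 0)) (xa (xa (xb T3.l12 (xa T3.l12 T3.l12)) (xb T3.l12 T3.l12)) (xa T3.l12 (xb T3.l12 (xa T3.l12 T3.l12))))
  (TrL.c (I.pos (nat_lit 0) (nat_lit 0)) (xa (xa T1.l11 T1.l7) (xa T1.l7 T1.l7))
  (TrL.c (I.pos (nat_lit 0) (nat_lit 124588530)) T3.l9
  (TrL.c (I.pos (nat_lit 0) (nat_lit 96881482)) T1.l8
  (TrL.c (I.pos (nat_lit 0) (nat_lit 0)) (xa (xa T1.l7 T1.l11) (xa T1.l11 T1.l11))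
  (TrL.c (I.pos (nat_lit 0) (nat_lit 0)) T3.l10
  (TrL.c (I.mix (nat_lit 17240550) (nat_lit 96881482)) T1.l10
  (TrL.c (I.mix (nat_lit 17240550) (nat_lit 71940500)) T3.l11
  TrL.n)))))))) (by decide +kernel)
theorem bx5_5 : BoxOK sI cl9 cl7 cl5 t3 t1 b5_5 :=
  box_mk (TrL.c (I.pos (nat_lit 0) (nat_lit 0)) (xa T3.l0 T3.l0)
  (TrL.c (I.pos (nat_lit 0) (nat_lit 0)) (xa T1.l7 T1.l7)
  (TrL.c (I.pos (nat_lit 0) (nat_lit 124588530)) (xR T3.l9 T3.l9)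
  (TrL.c (I.pos (nat_lit 0) (nat_lit 96881482)) T1.l8
  (TrL.c (I.pos (nat_lit 0) (nat_lit 0)) (xk (xa (xb T1.l12 T1.l12) (xb T1.l9 T1.l12)) (xa (xb T1.l12 T1.l12) (xb T1.l9 T1.l12)))
  (TrL.c (I.pos (nat_lit 0) (nat_lit 0)) T3.l10
  (TrL.c (I.mix (nat_lit 17240550) (nat_lit 96881482)) (xR T1.l10 T1.l10)
  (TrL.c (I.mix (nat_lit 17240550) (nat_lit 71940500)) T3.l11
  TrL.n)))))))) (by decide +kernel)
theorem bx5_6 : BoxOK sI cl9 cl7 cl5 t3 t1 b5_6 :=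
  box_mk (TrL.c (I.pos (nat_lit 0) (nat_lit 0)) (xa T3.l12 T3.l12)
  (TrL.c (I.pos (nat_lit 0) (nat_lit 0)) (xa T1.l11 T1.l7)
  (TrL.c (I.pos (nat_lit 0) (nat_lit 124588530)) T3.l9
  (TrL.c (I.pos (nat_lit 0) (nat_lit 96881482)) T1.l10
  (TrL.c (I.pos (nat_lit 0) (nat_lit 0)) (xa T1.l7 T1.l11)
  (TrL.c (I.pos (nat_lit 0) (nat_lit 0)) T3.l10
  (TrL.c (I.mix (nat_lit 17240550) (nat_lit 96881482)) T1.l10
  (TrL.c (I.mix (nat_lit 17240550) (nat_lit 71940500)) T3.l11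
  TrL.n)))))))) (by decide +kernel)
theorem bx5_7 : BoxOK sI cl9 cl7 cl5 t3 t1 b5_7 :=
  box_mk (TrL.c (I.pos (nat_lit 0) (nat_lit 0)) (xa (xa (xb T3.l12 (xa T3.l12 T3.l12)) T3.l12) (xa T3.l12 (xb T3.l12 (xa T3.l12 T3.l12))))
  (TrL.c (I.pos (nat_lit 0) (nat_lit 0)) (xa (xa T1.l11 T1.l7) (xa T1.l7 (xk T1.l7 T1.l7)))
  (TrL.c (I.pos (nat_lit 0) (nat_lit 124588530)) T3.l9
  (TrL.c (I.pos (nat_lit 0) (nat_lit 96881482)) T1.l8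
  (TrL.c (I.pos (nat_lit 0) (nat_lit 0)) (xa (xa T1.l11 T1.l11) (xa T1.l11 T1.l11))
  (TrL.c (I.pos (nat_lit 0) (nat_lit 0)) T3.l10
  (TrL.c (I.mix (nat_lit 17240550) (nat_lit 96881482)) T1.l10
  (TrL.c (I.mix (nat_lit 17240550) (nat_lit 71940500)) T3.l11
  TrL.n)))))))) (by decide +kernel)
theorem bx5_8 : BoxOK sI cl9 cl7 cl5 t3 t1 b5_8 :=
  box_mk (TrL.c (I.pos (nat_lit 0) (nat_lit 0)) (xb T3.l12 T3.l12)
  (TrL.c (I.pos (nat_lit 0) (nat_lit 0)) (xb (xk T1.l7 T1.l7) T1.l7)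
  (TrL.c (I.pos (nat_lit 0) (nat_lit 124588530)) T3.l9
  (TrL.c (I.pos (nat_lit 0) (nat_lit 96881482)) T1.l8
  (TrL.c (I.pos (nat_lit 0) (nat_lit 0)) (xb (xk (xa T1.l11 T1.l11) (xa T1.l11 T1.l11)) (xk T1.l11 T1.l11))
  (TrL.c (I.pos (nat_lit 0) (nat_lit 0)) T3.l10
  (TrL.c (I.mix (nat_lit 17240550) (nat_lit 96881482)) T1.l10
  (TrL.c (I.mix (nat_lit 17240550) (nat_lit 71940500)) T3.l11
  TrL.n)))))))) (by decide +kernel)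
theorem bx5_9 : BoxOK sI cl9 cl7 cl5 t3 t1 b5_9 :=
  box_mk (TrL.c (I.pos (nat_lit 0) (nat_lit 0)) (xa (xa (xb T3.l12 T3.l12) T3.l12) T3.l12)
  (TrL.c (I.pos (nat_lit 0) (nat_lit 0)) (xa T1.l11 T1.l7)
  (TrL.c (I.pos (nat_lit 0) (nat_lit 124588530)) T3.l9
  (TrL.c (I.pos (nat_lit 0) (nat_lit 96881482)) T1.l10
  (TrL.c (I.pos (nat_lit 0) (nat_lit 0)) (xa T1.l7 T1.l11)
  (TrL.c (I.pos (nat_lit 0) (nat_lit 0)) T3.l10
  (TrL.c (I.mix (nat_lit 17240550) (nat_lit 96881482)) T1.l10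
  (TrL.c (I.mix (nat_lit 17240550) (nat_lit 71940500)) T3.l11
  TrL.n)))))))) (by decide +kernel)
theorem bx5_10 : BoxOK sI cl9 cl7 cl5 t3 t1 b5_10 :=
  box_mk (TrL.c (I.pos (nat_lit 0) (nat_lit 0)) T3.l12
  (TrL.c (I.pos (nat_lit 0) (nat_lit 0)) T1.l7
  (TrL.c (I.pos (nat_lit 0) (nat_lit 124588530)) T3.l9
  (TrL.c (I.pos (nat_lit 0) (nat_lit 96881482)) T1.l8
  (TrL.c (I.pos (nat_lit 0) (nat_lit 0)) (xk T1.l11 T1.l11)
  (TrL.c (I.pos (nat_lit 0) (nat_lit 0)) T3.l10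
  (TrL.c (I.mix (nat_lit 17240550) (nat_lit 96881482)) T1.l10
  (TrL.c (I.mix (nat_lit 17240550) (nat_lit 71940500)) T3.l11
  TrL.n)))))))) (by decide +kernel)
theorem bx5_11 : BoxOK sI cl9 cl7 cl5 t3 t1 b5_11 :=
  box_mk (TrL.c (I.pos (nat_lit 0) (nat_lit 0)) (xa T3.l13 T3.l13)
  (TrL.c (I.pos (nat_lit 0) (nat_lit 0)) (xk T1.l7 T1.l7)
  (TrL.c (I.pos (nat_lit 0) (nat_lit 124588530)) T3.l9
  (TrL.c (I.pos (nat_lit 0) (nat_lit 96881482)) T1.l8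
  (TrL.c (I.pos (nat_lit 0) (nat_lit 0)) (xk (xb T1.l12 T1.l12) T1.l12)
  (TrL.c (I.pos (nat_lit 0) (nat_lit 0)) T3.l10
  (TrL.c (I.mix (nat_lit 17240550) (nat_lit 96881482)) (xR T1.l10 T1.l10)
  (TrL.c (I.mix (nat_lit 17240550) (nat_lit 71940500)) T3.l11
  TrL.n)))))))) (by decide +kernel)
theorem c5_12_0 : chkTag sI cl9 cl7 cl5 t3 b5_12 (tg true true false RT.r2) (I.pos (nat_lit 0) (nat_lit 0))
  (xa (xb (xa T3.l0 T3.l0) (xa (xb T3.l0 T3.l0) (xb T3.l0 T3.l0))) (xb (xa T3.l0 T3.l0) (xa (xb T3.l0 T3.l0) (xb T3.l0 T3.l0)))) = true := by decide +kernel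
theorem c5_12_1 : chkTag sI cl9 cl7 cl5 t1 b5_12 (tg true false false RT.r3) (I.pos (nat_lit 0) (nat_lit 0))
  (xa (xb (xk (xa T1.l7 T1.l2) T1.l7) (xk (xa T1.l7 (xb T1.l7 (xk T1.l7 T1.l7))) (xa T1.l7 T1.l7))) (xk (xb (xa T1.l2 (xk T1.l2 T1.l2)) (xa (xk (xb T1.l2 T1.l2) T1.l2) (xk (xb T1.l2 T1.l2) T1.l2))) (xb (xa (xb T1.l7 T1.l7) T1.l2) (xa (xb T1.l7 (xk T1.l7 T1.l7)) T1.l2)))) = true := by decide +kernel
theorem c5_12_2 : chkTag sI cl9 cl7 cl5 t3 b5_12 (Tag.mk true true false RT.tl RT.r4) (I.pos (nat_lit 0) (nat_lit 124588530))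
  (xR T3.l9 (xR T3.l9 T3.l9)) = true := by decide +kernel
theorem c5_12_3 : chkTag sI cl9 cl7 cl5 t1 b5_12 (Tag.mk true false false RT.tl RT.r5) (I.pos (nat_lit 0) (nat_lit 96881482))
  (xR T1.l8 (xR T1.l8 (xR T1.l8 T1.l3))) = true := by decide +kernel
theorem c5_12_4 : chkTag sI cl9 cl7 cl5 t1 b5_12 (tg false false false RT.r3) (I.pos (nat_lit 0) (nat_lit 0))
  (xa (xb (xk (xa (xb (xk T1.l9 T1.l9) T1.l9) (xb (xk (xa T1.l9 T1.l9) (xa T1.l9 T1.l9)) T1.l9)) (xa (xb (xk T1.l9 T1.l9) T1.l9) (xb (xa T1.l9 (xk T1.l9 T1.l9)) T1.l9))) (xk (xa T1.l9 T1.l9) (xa T1.l9 T1.l9))) (xb (xk (xa (xb (xk (xa T1.l9 T1.l9) (xa T1.l9 T1.l9)) (xk T1.l9 T1.l9)) (xb (xk (xa (xb T1.l9 T1.l9) (xb (xk T1.l9 T1.l9) T1.l9)) (xa (xb T1.l9 T1.l9) (xb (xk T1.l9 T1.l9) T1.l9))) (xk (xa T1.l9 T1.l9) (xa T1.l9 T1.l9)))) (xa (xb (xk (xa T1.l9 T1.l9) (xa T1.l9 T1.l9)) (xa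 T1.l9 T1.l9)) (xb (xa (xk (xb T1.l9 T1.l9) (xb T1.l9 T1.l9)) (xk (xb (xc T1.l9 T1.l9) T1.l9) (xb (xc T1.l9 T1.l9) T1.l9))) (xk (xa T1.l9 T1.l9) (xa T1.l9 T1.l9))))) (xk (xa (xb T1.l9 (xk T1.l9 T1.l9)) (xb (xk (xa T1.l9 (xb T1.l9 T1.l9)) (xa T1.l9 (xb T1.l9 T1.l9))) (xk (xa T1.l9 (xb (xk T1.l9 T1.l9) (xk T1.l9 T1.l9))) (xa T1.l9 (xb T1.l9 (xs T1.l9 T1.l9)))))) (xa (xb T1.l9 T1.l9) (xb (xk (xa T1.l9 T1.l9) (xa T1.l9 T1.l9)) (xk (xa T1.l9 (xb T1.l9 T1.l9)) (xa T1.l9 (xb T1.l9 T1.l9)))))))) = true := by decide +kernel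
theorem c5_12_5 : chkTag sI cl9 cl7 cl5 t3 b5_12 (tg false true false RT.r4) (I.pos (nat_lit 0) (nat_lit 0))
  (xa (xk (xb T3.l10 T3.l10) (xb T3.l10 T3.l10)) (xk (xb (xa T3.l10 (xk T3.l10 T3.l10)) (xa T3.l10 (xk T3.l10 T3.l10))) (xb (xa T3.l10 (xk T3.l10 T3.l10)) (xa T3.l10 T3.l10)))) = true := by decide +kernel
theorem c5_12_6 : chkTag sI cl9 cl7 cl5 t1 b5_12 (Tag.mk false false false RT.tl RT.r5) (I.mix (nat_lit 17240550) (nat_lit 96881482))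
  (xR T1.l10 (xR T1.l10 (xR T1.l10 (xk (xa T1.l10 T1.l10) T1.l10)))) = true := by decide +kernel
theorem c5_12_7 : chkTag sI cl9 cl7 cl5 t3 b5_12 (Tag.mk false true false RT.tl RT.r6) (I.mix (nat_lit 17240550) (nat_lit 71940500))
  T3.l11 = true := by decide +kernel
theorem bx5_12 : BoxOK sI cl9 cl7 cl5 t3 t1 b5_12 :=
  box_mk' [(tg true true false RT.r2), (tg true false false RT.r3), (Tag.mk true true false RT.tl RT.r4), (Tag.mk true false false RT.tl RT.r5), (tg false false false RT.r3), (tg false true false RT.r4), (Tag.mk false false false RT.tl RT.r5), (Tag.mk false true false RT.tl RT.r6)] rfl (allL_c (ex_mk c5_12_0) (allL_c (ex_mk c5_12_1) (allL_c (ex_mk c5_12_2) (allL_c (ex_mk c5_12_3) (allL_c (ex_mk c5_12_4) (allL_c (ex_mk c5_12_5) (allL_c (ex_mk c5_12_6) (allL_c (ex_mk c5_12_7) allL_n))))))))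
theorem bx5_13 : BoxOK sI cl9 cl7 cl5 t3 t1 b5_13 :=
  box_mk (TrL.c (I.pos (nat_lit 0) (nat_lit 0)) (xa (xb T3.l0 (xa T3.l0 T3.l0)) (xb T3.l0 (xa T3.l0 T3.l0)))
  (TrL.c (I.pos (nat_lit 0) (nat_lit 0)) (xk (xa (xb T1.l7 T1.l7) (xb T1.l7 T1.l7)) (xa T1.l7 (xb T1.l7 T1.l7)))
  (TrL.c (I.pos (nat_lit 0) (nat_lit 124588530)) (xR T3.l9 T3.l9)
  (TrL.c (I.pos (nat_lit 0) (nat_lit 96881482)) (xR T1.l8 T1.l8)
  (TrL.c (I.pos (nat_lit 0) (nat_lit 0)) (xk (xa T1.l9 (xb T1.l9 T1.l9)) (xa T1.l9 T1.l9))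
  (TrL.c (I.pos (nat_lit 0) (nat_lit 0)) T3.l10
  (TrL.c (I.mix (nat_lit 17240550) (nat_lit 96881482)) (xR T1.l10 (xR T1.l10 T1.l10))
  (TrL.c (I.mix (nat_lit 17240550) (nat_lit 71940500)) T3.l11
  TrL.n)))))))) (by decide +kernel)
theorem sv5 : StarV sI cl9 cl7 cl5 t3 t1 t5 :=
  (bt_n (bt_n (bt_n (bt_b bx5_0) (bt_n (bt_b bx5_1) (bt_b bx5_2))) (bt_n (bt_n (bt_b bx5_3) (bt_b bx5_4)) (bt_n (bt_b bx5_5) (bt_b bx5_6)))) (bt_n (bt_n (bt_b bx5_7) (bt_n (bt_b bx5_8) (bt_b bx5_9))) (bt_n (bt_n (bt_b bx5_10) (bt_b bx5_11)) (bt_n (bt_b bx5_12) (bt_b bx5_13)))))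
def S5 : StarD := StarD.mk cl9 cl7 cl5 3 1 t5
def G : List StarD := [S0, S1, S2, S3, S4, S5]
theorem so0 : StarOK sI G S0 :=
  star_mk (by decide) (by decide) rfl rfl rfl rfl rfl rfl (rfl : _ = t2) (rfl : _ = t4)
  (st_mk (Pth.l (Pth.l (Pth.l Pth.z))) (nat_lit 143555637) (nat_lit 166632248) (by decide +kernel))
  (st_mk (Pth.l (Pth.l (Pth.l Pth.z))) (nat_lit 180477300) (nat_lit 204097187) (by decide +kernel))
  (st_mk (Pth.l (Pth.l (Pth.l Pth.z))) (nat_lit 223689242) (nat_lit 248046741) (by decide +kernel)) sv0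
theorem so1 : StarOK sI G S1 :=
  star_mk (by decide) (by decide) rfl rfl rfl rfl rfl rfl (rfl : _ = t4) (rfl : _ = t2)
  (st_mk (Pth.l (Pth.l (Pth.l Pth.z))) (nat_lit 117668643) (nat_lit 136841089) (by decide +kernel))
  (st_mk (Pth.l (Pth.l (Pth.l Pth.z))) (nat_lit 154412910) (nat_lit 174111791) (by decide +kernel))
  (st_mk (Pth.l (Pth.l (Pth.l Pth.z))) (nat_lit 195595919) (nat_lit 219776021) (by decide +kernel)) sv1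
theorem so2 : StarOK sI G S2 :=
  star_mk (by decide) (by decide) rfl rfl rfl rfl rfl rfl (rfl : _ = t0) (rfl : _ = t5)
  (st_mk (Pth.l (Pth.l (Pth.l Pth.z))) (nat_lit 241217850) (nat_lit 243481893) (by decide +kernel))
  (st_mk (Pth.l (Pth.l (Pth.l Pth.z))) (nat_lit 276585561) (nat_lit 280487680) (by decide +kernel))
  (st_mk (Pth.l (Pth.l (Pth.l Pth.z))) (nat_lit 318193458) (nat_lit 322855003) (by decide +kernel)) sv2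
theorem so3 : StarOK sI G S3 :=
  star_mk (by decide) (by decide) rfl rfl rfl rfl rfl rfl (rfl : _ = t5) (rfl : _ = t0)
  (st_mk (Pth.l (Pth.l (Pth.l Pth.z))) (nat_lit 116159931) (nat_lit 135066957) (by decide +kernel))
  (st_mk (Pth.l (Pth.l (Pth.l Pth.z))) (nat_lit 151808205) (nat_lit 171207496) (by decide +kernel))
  (st_mk (Pth.l (Pth.l (Pth.l Pth.z))) (nat_lit 191316531) (nat_lit 215172363) (by decide +kernel)) sv3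
theorem so4 : StarOK sI G S4 :=
  star_mk (by decide) (by decide) rfl rfl rfl rfl rfl rfl (rfl : _ = t1) (rfl : _ = t3)
  (st_mk (Pth.l (Pth.l (Pth.l Pth.z))) (nat_lit 239498246) (nat_lit 241617105) (by decide +kernel))
  (st_mk (Pth.l (Pth.l (Pth.l Pth.z))) (nat_lit 274849373) (nat_lit 277475361) (by decide +kernel))
  (st_mk (Pth.l (Pth.l (Pth.l Pth.z))) (nat_lit 315717931) (nat_lit 319021166) (by decide +kernel)) sv4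
theorem so5 : StarOK sI G S5 :=
  star_mk (by decide) (by decide) rfl rfl rfl rfl rfl rfl (rfl : _ = t3) (rfl : _ = t1)
  (st_mk (Pth.l (Pth.l (Pth.l Pth.z))) (nat_lit 140667026) (nat_lit 163253696) (by decide +kernel))
  (st_mk (Pth.l (Pth.l (Pth.l Pth.z))) (nat_lit 175935138) (nat_lit 198973359) (by decide +kernel))
  (st_mk (Pth.l (Pth.l (Pth.l Pth.z))) (nat_lit 216731718) (nat_lit 240399576) (by decide +kernel)) sv5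
theorem ok : GroupOK (nat_lit 209321984) (nat_lit 268435456) G := grp_mk (allS_c so0 (allS_c so1 (allS_c so2 (allS_c so3 (allS_c so4 (allS_c so5 allS_n))))))
theorem cov : GCov G cl5 cl7 cl9 := cov_mk
  ⟨0, by decide, rfl, rfl, rfl⟩ ⟨1, by decide, rfl, rfl, rfl⟩ ⟨2, by decide, rfl, rfl, rfl⟩ ⟨3, by decide, rfl, rfl, rfl⟩ ⟨4, by decide, rfl, rfl, rfl⟩ ⟨5, by decide, rfl, rfl, rfl⟩
end Q245_3

namespace Q246_0
def sI : I := I.pos (nat_lit 0) (nat_lit 91291648)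
def b0_0 : Bx := Bx.mk (St.mk (I.pos (nat_lit 154124288) (nat_lit 274055168)) (I.mix (nat_lit 8847360) (nat_lit 60080128)) (I.mix (nat_lit 69746688) (nat_lit 79577088)) (I.pos (nat_lit 132104192) (nat_lit 349962240)) (I.mix (nat_lit 76972032) (nat_lit 52330496)) (I.mix (nat_lit 72957952) (nat_lit 46383104)) (I.mix (nat_lit 116195328) (nat_lit 84770816)))
  false (nat_lit 0)
def b0_1 : Bx := Bx.mk (St.mk (I.mix (nat_lit 26198016) (nat_lit 121602048)) (I.mix (nat_lit 4194304) (nat_lit 37339136)) (I.mix (nat_lit 21463040) (nat_lit 13189120)) (I.pos (nat_lit 38699008) (nat_lit 116359168)) (I.mix (nat_lit 27213824) (nat_lit 28327936)) (I.mix (nat_lit 31064064) (nat_lit 20119552)) (I.mix (nat_lit 22888448) (nat_lit 13434880)))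
  false (nat_lit 0)
def b0_2 : Bx := Bx.mk (St.mk (I.pos (nat_lit 95567872) (nat_lit 143900672)) (I.mix (nat_lit 62144512) (nat_lit 5799936)) (I.neg (nat_lit 6012928) (nat_lit 72630272)) (I.pos (nat_lit 79036416) (nat_lit 139640832)) (I.mix (nat_lit 87638016) (nat_lit 25001984)) (I.mix (nat_lit 45088768) (nat_lit 86982656)) (I.mix (nat_lit 32817152) (nat_lit 70631424)))
  false (nat_lit 0)
def b0_3 : Bx := Bx.mk (St.mk (I.mix (nat_lit 37486592) (nat_lit 70844416)) (I.mix (nat_lit 31850496) (nat_lit 3325952)) (I.neg (nat_lit 819200) (nat_lit 24985600)) (I.pos (nat_lit 40845312) (nat_lit 81870848)) (I.mix (nat_lit 29655040) (nat_lit 13713408)) (I.mix (nat_lit 14598144) (nat_lit 27508736)) (I.mix (nat_lit 7372800) (nat_lit 11485184)))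
  false (nat_lit 0)
def b0_4 : Bx := Bx.mk (St.mk (I.mix (nat_lit 37175296) (nat_lit 13434880)) (I.mix (nat_lit 2441216) (nat_lit 9355264)) (I.neg (nat_lit 4685824) (nat_lit 13287424)) (I.pos (nat_lit 43188224) (nat_lit 69566464)) (I.mix (nat_lit 4243456) (nat_lit 8519680)) (I.mix (nat_lit 4833280) (nat_lit 4227072)) (I.mix (nat_lit 1425408) (nat_lit 1998848)))
  false (nat_lit 0)
def b0_5 : Bx := Bx.mk (St.mk (I.pos (nat_lit 96206848) (nat_lit 114556928)) (I.mix (nat_lit 3899392) (nat_lit 10108928)) (I.neg (nat_lit 4440064) (nat_lit 21233664)) (I.pos (nat_lit 79773696) (nat_lit 113803264)) (I.mix (nat_lit 7667712) (nat_lit 11517952)) (I.mix (nat_lit 7520256) (nat_lit 4915200)) (I.mix (nat_lit 6356992) (nat_lit 4521984)))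
  false (nat_lit 0)
def b0_6 : Bx := Bx.mk (St.mk (I.pos (nat_lit 98123776) (nat_lit 174735360)) (I.mix (nat_lit 61554688) (nat_lit 1687552)) (I.neg (nat_lit 8634368) (nat_lit 69517312)) (I.pos (nat_lit 93536256) (nat_lit 180748288)) (I.mix (nat_lit 77594624) (nat_lit 44924928)) (I.mix (nat_lit 40861696) (nat_lit 74842112)) (I.mix (nat_lit 32800768) (nat_lit 74678272)))
  false (nat_lit 0)
def b0_7 : Bx := Bx.mk (St.mk (I.mix (nat_lit 28688384) (nat_lit 86622208)) (I.mix (nat_lit 34979840) (nat_lit 7110656)) (I.neg (nat_lit 770048) (nat_lit 29147136)) (I.pos (nat_lit 37388288) (nat_lit 91258880)) (I.mix (nat_lit 34701312) (nat_lit 24297472)) (I.mix (nat_lit 21217280) (nat_lit 34668544)) (I.mix (nat_lit 12402688) (nat_lit 19316736)))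
  false (nat_lit 0)
def b0_8 : Bx := Bx.mk (St.mk (I.pos (nat_lit 149323776) (nat_lit 224657408)) (I.mix (nat_lit 36978688) (nat_lit 68927488)) (I.mix (nat_lit 52215808) (nat_lit 84148224)) (I.pos (nat_lit 131842048) (nat_lit 249774080)) (I.mix (nat_lit 113917952) (nat_lit 47579136)) (I.mix (nat_lit 128368640) (nat_lit 76857344)) (I.mix (nat_lit 139968512) (nat_lit 80297984)))
  false (nat_lit 0)
def b0_9 : Bx := Bx.mk (St.mk (I.mix (nat_lit 41435136) (nat_lit 133562368)) (I.mix (nat_lit 16646144) (nat_lit 39256064)) (I.mix (nat_lit 19759104) (nat_lit 16449536)) (I.pos (nat_lit 37978112) (nat_lit 113541120)) (I.mix (nat_lit 38797312) (nat_lit 29360128)) (I.mix (nat_lit 46432256) (nat_lit 32751616)) (I.mix (nat_lit 25378816) (nat_lit 17629184)))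
  false (nat_lit 0)
def t0 : BTr := (BTr.n (BTr.n (BTr.n (BTr.b b0_0) (BTr.b b0_1)) (BTr.n (BTr.b b0_2) (BTr.n (BTr.b b0_3) (BTr.b b0_4)))) (BTr.n (BTr.n (BTr.b b0_5) (BTr.b b0_6)) (BTr.n (BTr.b b0_7) (BTr.n (BTr.b b0_8) (BTr.b b0_9)))))
namespace T0
def l0 : Tr := Tr.L (Pth.l (Pth.l (Pth.l Pth.z)))
def l1 : Tr := Tr.L (Pth.l (Pth.l (Pth.r Pth.z)))
def l2 : Tr := Tr.L (Pth.l (Pth.r (Pth.l Pth.z)))
def l3 : Tr := Tr.L (Pth.l (Pth.r (Pth.r (Pth.l Pth.z))))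
def l4 : Tr := Tr.L (Pth.l (Pth.r (Pth.r (Pth.r Pth.z))))
def l5 : Tr := Tr.L (Pth.r (Pth.l (Pth.l Pth.z)))
def l6 : Tr := Tr.L (Pth.r (Pth.l (Pth.r Pth.z)))
def l7 : Tr := Tr.L (Pth.r (Pth.r (Pth.l Pth.z)))
def l8 : Tr := Tr.L (Pth.r (Pth.r (Pth.r (Pth.l Pth.z))))
def l9 : Tr := Tr.L (Pth.r (Pth.r (Pth.r (Pth.r Pth.z))))
end T0
def b1_0 : Bx := Bx.mk (St.mk (I.pos (nat_lit 154157056) (nat_lit 273498112)) (I.mix (nat_lit 9437184) (nat_lit 50757632)) (I.mix (nat_lit 41320448) (nat_lit 80855040)) (I.pos (nat_lit 85262336) (nat_lit 301760512)) (I.mix (nat_lit 75481088) (nat_lit 48807936)) (I.mix (nat_lit 69058560) (nat_lit 43663360)) (I.mix (nat_lit 113688576) (nat_lit 65601536)))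
  false (nat_lit 0)
def b1_1 : Bx := Bx.mk (St.mk (I.mix (nat_lit 13369344) (nat_lit 144343040)) (I.mix (nat_lit 3571712) (nat_lit 26263552)) (I.mix (nat_lit 10993664) (nat_lit 20234240)) (I.mix (nat_lit 5718016) (nat_lit 91078656)) (I.mix (nat_lit 20250624) (nat_lit 20496384)) (I.mix (nat_lit 22642688) (nat_lit 13287424)) (I.mix (nat_lit 19267584) (nat_lit 9289728)))
  false (nat_lit 0)
def b1_2 : Bx := Bx.mk (St.mk (I.pos (nat_lit 119406592) (nat_lit 163053568)) (I.mix (nat_lit 55296000) (nat_lit 5537792)) (I.mix (nat_lit 64471040) (nat_lit 1572864)) (I.pos (nat_lit 53673984) (nat_lit 115179520)) (I.mix (nat_lit 85147648) (nat_lit 22396928)) (I.mix (nat_lit 38748160) (nat_lit 89931776)) (I.mix (nat_lit 32653312) (nat_lit 84721664)))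
  false (nat_lit 0)
def b1_3 : Bx := Bx.mk (St.mk (I.mix (nat_lit 15515648) (nat_lit 113131520)) (I.mix (nat_lit 25444352) (nat_lit 1998848)) (I.mix (nat_lit 21561344) (nat_lit 1769472)) (I.mix (nat_lit 4046848) (nat_lit 61734912)) (I.mix (nat_lit 29130752) (nat_lit 10010624)) (I.mix (nat_lit 14745600) (nat_lit 27967488)) (I.mix (nat_lit 8880128) (nat_lit 17891328)))
  false (nat_lit 0)
def b1_4 : Bx := Bx.mk (St.mk (I.pos (nat_lit 120094720) (nat_lit 136675328)) (I.mix (nat_lit 3047424) (nat_lit 7897088)) (I.mix (nat_lit 10321920) (nat_lit 2736128)) (I.pos (nat_lit 54362112) (nat_lit 87851008)) (I.mix (nat_lit 5832704) (nat_lit 8912896)) (I.mix (nat_lit 5537792) (nat_lit 3522560)) (I.mix (nat_lit 5308416) (nat_lit 2883584)))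
  false (nat_lit 0)
def b1_5 : Bx := Bx.mk (St.mk (I.mix (nat_lit 11337728) (nat_lit 18415616)) (I.mix (nat_lit 704512) (nat_lit 2719744)) (I.mix (nat_lit 2162688) (nat_lit 671744)) (I.mix (nat_lit 1654784) (nat_lit 19382272)) (I.mix (nat_lit 1212416) (nat_lit 2342912)) (I.mix (nat_lit 1458176) (nat_lit 1196032)) (I.mix (nat_lit 622592) (nat_lit 606208)))
  false (nat_lit 0)
def b1_6 : Bx := Bx.mk (St.mk (I.pos (nat_lit 114622464) (nat_lit 186417152)) (I.mix (nat_lit 63340544) (nat_lit 10469376)) (I.neg (nat_lit 3244032) (nat_lit 68599808)) (I.pos (nat_lit 69828608) (nat_lit 147816448)) (I.mix (nat_lit 80183296) (nat_lit 38600704)) (I.mix (nat_lit 40894464) (nat_lit 70598656)) (I.mix (nat_lit 37666816) (nat_lit 71581696)))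
  false (nat_lit 0)
def b1_7 : Bx := Bx.mk (St.mk (I.mix (nat_lit 12746752) (nat_lit 120881152)) (I.mix (nat_lit 27475968) (nat_lit 7389184)) (I.mix (nat_lit 23576576) (nat_lit 1818624)) (I.mix (nat_lit 4456448) (nat_lit 68796416)) (I.mix (nat_lit 28590080) (nat_lit 22036480)) (I.mix (nat_lit 18579456) (nat_lit 27918336)) (I.mix (nat_lit 10764288) (nat_lit 20496384)))
  false (nat_lit 0)
def b1_8 : Bx := Bx.mk (St.mk (I.pos (nat_lit 157433856) (nat_lit 226279424)) (I.mix (nat_lit 41828352) (nat_lit 59047936)) (I.mix (nat_lit 50905088) (nat_lit 88506368)) (I.pos (nat_lit 99827712) (nat_lit 202293248)) (I.mix (nat_lit 114098176) (nat_lit 41418752)) (I.mix (nat_lit 135626752) (nat_lit 65912832)) (I.mix (nat_lit 167460864) (nat_lit 78315520)))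
  false (nat_lit 0)
def b1_9 : Bx := Bx.mk (St.mk (I.mix (nat_lit 18120704) (nat_lit 145244160)) (I.mix (nat_lit 15400960) (nat_lit 36061184)) (I.mix (nat_lit 15253504) (nat_lit 26099712)) (I.mix (nat_lit 5619712) (nat_lit 89456640)) (I.mix (nat_lit 44564480) (nat_lit 23363584)) (I.mix (nat_lit 46252032) (nat_lit 29081600)) (I.mix (nat_lit 33636352) (nat_lit 19496960)))
  false (nat_lit 0)
def t1 : BTr := (BTr.n (BTr.n (BTr.n (BTr.b b1_0) (BTr.b b1_1)) (BTr.n (BTr.b b1_2) (BTr.n (BTr.b b1_3) (BTr.b b1_4)))) (BTr.n (BTr.n (BTr.b b1_5) (BTr.b b1_6)) (BTr.n (BTr.b b1_7) (BTr.n (BTr.b b1_8) (BTr.b b1_9)))))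
namespace T1
def l0 : Tr := Tr.L (Pth.l (Pth.l (Pth.l Pth.z)))
def l1 : Tr := Tr.L (Pth.l (Pth.l (Pth.r Pth.z)))
def l2 : Tr := Tr.L (Pth.l (Pth.r (Pth.l Pth.z)))
def l3 : Tr := Tr.L (Pth.l (Pth.r (Pth.r (Pth.l Pth.z))))
def l4 : Tr := Tr.L (Pth.l (Pth.r (Pth.r (Pth.r Pth.z))))
def l5 : Tr := Tr.L (Pth.r (Pth.l (Pth.l Pth.z)))
def l6 : Tr := Tr.L (Pth.r (Pth.l (Pth.r Pth.z)))
def l7 : Tr := Tr.L (Pth.r (Pth.r (Pth.l Pth.z)))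
def l8 : Tr := Tr.L (Pth.r (Pth.r (Pth.r (Pth.l Pth.z))))
def l9 : Tr := Tr.L (Pth.r (Pth.r (Pth.r (Pth.r Pth.z))))
end T1
def b2_0 : Bx := Bx.mk (St.mk (I.pos (nat_lit 153092096) (nat_lit 292175872)) (I.mix (nat_lit 31801344) (nat_lit 72826880)) (I.mix (nat_lit 130138112) (nat_lit 94388224)) (I.pos (nat_lit 226803712) (nat_lit 458719232)) (I.mix (nat_lit 83951616) (nat_lit 70270976)) (I.mix (nat_lit 86900736) (nat_lit 57442304)) (I.mix (nat_lit 132284416) (nat_lit 88539136)))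
  false (nat_lit 62483596)
def b2_1 : Bx := Bx.mk (St.mk (I.pos (nat_lit 22249472) (nat_lit 75661312)) (I.mix (nat_lit 13221888) (nat_lit 53297152)) (I.mix (nat_lit 31768576) (nat_lit 3047424)) (I.pos (nat_lit 141148160) (nat_lit 163069952)) (I.mix (nat_lit 24133632) (nat_lit 39911424)) (I.mix (nat_lit 40058880) (nat_lit 23494656)) (I.mix (nat_lit 21659648) (nat_lit 12156928)))
  false (nat_lit 0)
def b2_2 : Bx := Bx.mk (St.mk (I.pos (nat_lit 49545216) (nat_lit 106070016)) (I.mix (nat_lit 68698112) (nat_lit 14974976)) (I.neg (nat_lit 11747328) (nat_lit 65175552)) (I.pos (nat_lit 148520960) (nat_lit 185925632)) (I.mix (nat_lit 69222400) (nat_lit 25493504)) (I.mix (nat_lit 34144256) (nat_lit 72499200)) (I.mix (nat_lit 24100864) (nat_lit 44515328)))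
  false (nat_lit 0)
def b2_3 : Bx := Bx.mk (St.mk (I.neg (nat_lit 22233088) (nat_lit 75661312)) (I.mix (nat_lit 53313536) (nat_lit 13221888)) (I.mix (nat_lit 31768576) (nat_lit 3047424)) (I.pos (nat_lit 141148160) (nat_lit 163053568)) (I.mix (nat_lit 39911424) (nat_lit 24133632)) (I.mix (nat_lit 23494656) (nat_lit 40058880)) (I.mix (nat_lit 21676032) (nat_lit 12156928)))
  true (nat_lit 0)
def b2_4 : Bx := Bx.mk (St.mk (I.pos (nat_lit 72990720) (nat_lit 155566080)) (I.neg (nat_lit 5537792) (nat_lit 77938688)) (I.neg (nat_lit 5750784) (nat_lit 76136448)) (I.pos (nat_lit 164085760) (nat_lit 232292352)) (I.mix (nat_lit 73465856) (nat_lit 47235072)) (I.mix (nat_lit 35340288) (nat_lit 73564160)) (I.mix (nat_lit 32440320) (nat_lit 62980096)))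
  false (nat_lit 0)
def b2_5 : Bx := Bx.mk (St.mk (I.mix (nat_lit 40239104) (nat_lit 10027008)) (I.mix (nat_lit 47267840) (nat_lit 10698752)) (I.neg (nat_lit 802816) (nat_lit 9994240)) (I.pos (nat_lit 140279808) (nat_lit 150831104)) (I.mix (nat_lit 24838144) (nat_lit 30900224)) (I.mix (nat_lit 18923520) (nat_lit 38944768)) (I.mix (nat_lit 5963776) (nat_lit 4456448)))
  true (nat_lit 0)
def b2_6 : Bx := Bx.mk (St.mk (I.pos (nat_lit 123355136) (nat_lit 206635008)) (I.mix (nat_lit 41893888) (nat_lit 75956224)) (I.mix (nat_lit 45252608) (nat_lit 94748672)) (I.pos (nat_lit 196263936) (nat_lit 302546944)) (I.mix (nat_lit 106463232) (nat_lit 49643520)) (I.mix (nat_lit 126976000) (nat_lit 59752448)) (I.mix (nat_lit 129892352) (nat_lit 60293120)))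
  false (nat_lit 18234225)
def b2_7 : Bx := Bx.mk (St.mk (I.mix (nat_lit 10027008) (nat_lit 40239104)) (I.mix (nat_lit 10698752) (nat_lit 47267840)) (I.neg (nat_lit 802816) (nat_lit 9977856)) (I.pos (nat_lit 140279808) (nat_lit 150831104)) (I.mix (nat_lit 30900224) (nat_lit 24838144)) (I.mix (nat_lit 38944768) (nat_lit 18923520)) (I.mix (nat_lit 5963776) (nat_lit 4456448)))
  false (nat_lit 0)
def t2 : BTr := (BTr.n (BTr.n (BTr.n (BTr.b b2_0) (BTr.b b2_1)) (BTr.n (BTr.b b2_2) (BTr.b b2_3))) (BTr.n (BTr.n (BTr.b b2_4) (BTr.b b2_5)) (BTr.n (BTr.b b2_6) (BTr.b b2_7))))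
namespace T2
def l0 : Tr := Tr.L (Pth.l (Pth.l (Pth.l Pth.z)))
def l1 : Tr := Tr.L (Pth.l (Pth.l (Pth.r Pth.z)))
def l2 : Tr := Tr.L (Pth.l (Pth.r (Pth.l Pth.z)))
def l3 : Tr := Tr.L (Pth.l (Pth.r (Pth.r Pth.z)))
def l4 : Tr := Tr.L (Pth.r (Pth.l (Pth.l Pth.z)))
def l5 : Tr := Tr.L (Pth.r (Pth.l (Pth.r Pth.z)))
def l6 : Tr := Tr.L (Pth.r (Pth.r (Pth.l Pth.z)))
def l7 : Tr := Tr.L (Pth.r (Pth.r (Pth.r Pth.z)))
end T2
def b3_0 : Bx := Bx.mk (St.mk (I.pos (nat_lit 153518080) (nat_lit 284819456)) (I.mix (nat_lit 25919488) (nat_lit 51183616)) (I.mix (nat_lit 37191680) (nat_lit 106414080)) (I.pos (nat_lit 83542016) (nat_lit 321110016)) (I.mix (nat_lit 79314944) (nat_lit 57360384)) (I.mix (nat_lit 87441408) (nat_lit 62980096)) (I.mix (nat_lit 144474112) (nat_lit 87408640)))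
  false (nat_lit 1583772)
def b3_1 : Bx := Bx.mk (St.mk (I.pos (nat_lit 122961920) (nat_lit 181633024)) (I.mix (nat_lit 61947904) (nat_lit 589824)) (I.mix (nat_lit 56049664) (nat_lit 4636672)) (I.pos (nat_lit 74858496) (nat_lit 138838016)) (I.mix (nat_lit 68272128) (nat_lit 31670272)) (I.mix (nat_lit 32161792) (nat_lit 55377920)) (I.mix (nat_lit 27918336) (nat_lit 54853632)))
  false (nat_lit 0)
def b3_2 : Bx := Bx.mk (St.mk (I.mix (nat_lit 11763712) (nat_lit 121667584)) (I.mix (nat_lit 26869760) (nat_lit 4128768)) (I.mix (nat_lit 15925248) (nat_lit 6094848)) (I.mix (nat_lit 4308992) (nat_lit 66420736)) (I.mix (nat_lit 22872064) (nat_lit 16351232)) (I.mix (nat_lit 13369344) (nat_lit 20430848)) (I.mix (nat_lit 8699904) (nat_lit 14336000)))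
  false (nat_lit 0)
def b3_3 : Bx := Bx.mk (St.mk (I.pos (nat_lit 163397632) (nat_lit 220069888)) (I.mix (nat_lit 34095104) (nat_lit 62652416)) (I.mix (nat_lit 22691840) (nat_lit 115933184)) (I.pos (nat_lit 102563840) (nat_lit 197361664)) (I.mix (nat_lit 119652352) (nat_lit 45072384)) (I.mix (nat_lit 142721024) (nat_lit 61980672)) (I.mix (nat_lit 190922752) (nat_lit 68222976)))
  false (nat_lit 0)
def b3_4 : Bx := Bx.mk (St.mk (I.mix (nat_lit 17399808) (nat_lit 142442496)) (I.mix (nat_lit 11157504) (nat_lit 35864576)) (I.mix (nat_lit 3850240) (nat_lit 35618816)) (I.mix (nat_lit 5455872) (nat_lit 86654976)) (I.mix (nat_lit 49184768) (nat_lit 20512768)) (I.mix (nat_lit 50413568) (nat_lit 26804224)) (I.mix (nat_lit 38453248) (nat_lit 17498112)))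
  false (nat_lit 0)
def b3_5 : Bx := Bx.mk (St.mk (I.pos (nat_lit 162775040) (nat_lit 183418880)) (I.neg (nat_lit 9486336) (nat_lit 37601280)) (I.mix (nat_lit 28147712) (nat_lit 3964928)) (I.pos (nat_lit 103071744) (nat_lit 143753216)) (I.mix (nat_lit 20119552) (nat_lit 13860864)) (I.mix (nat_lit 10764288) (nat_lit 14876672)) (I.mix (nat_lit 11370496) (nat_lit 16646144)))
  false (nat_lit 0)
def b3_6 : Bx := Bx.mk (St.mk (I.mix (nat_lit 16613376) (nat_lit 122109952)) (I.mix (nat_lit 12697600) (nat_lit 1425408)) (I.mix (nat_lit 5193728) (nat_lit 6111232)) (I.mix (nat_lit 4554752) (nat_lit 70778880)) (I.mix (nat_lit 5144576) (nat_lit 7847936)) (I.mix (nat_lit 3407872) (nat_lit 4390912)) (I.mix (nat_lit 2244608) (nat_lit 3407872)))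
  false (nat_lit 0)
def b3_7 : Bx := Bx.mk (St.mk (I.pos (nat_lit 41959424) (nat_lit 143294464)) (I.mix (nat_lit 8601600) (nat_lit 25034752)) (I.mix (nat_lit 4407296) (nat_lit 28917760)) (I.pos (nat_lit 8863744) (nat_lit 92274688)) (I.mix (nat_lit 27901952) (nat_lit 27197440)) (I.mix (nat_lit 37650432) (nat_lit 23314432)) (I.mix (nat_lit 33046528) (nat_lit 16793600)))
  false (nat_lit 0)
def b3_8 : Bx := Bx.mk (St.mk (I.pos (nat_lit 116899840) (nat_lit 168361984)) (I.mix (nat_lit 59146240) (nat_lit 10502144)) (I.mix (nat_lit 51970048) (nat_lit 16891904)) (I.pos (nat_lit 52232192) (nat_lit 119783424)) (I.mix (nat_lit 79216640) (nat_lit 26411008)) (I.mix (nat_lit 41549824) (nat_lit 83656704)) (I.mix (nat_lit 35291136) (nat_lit 71974912)))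
  false (nat_lit 0)
def b3_9 : Bx := Bx.mk (St.mk (I.mix (nat_lit 38977536) (nat_lit 115048448)) (I.mix (nat_lit 26574848) (nat_lit 5799936)) (I.mix (nat_lit 15056896) (nat_lit 7815168)) (I.mix (nat_lit 8683520) (nat_lit 62242816)) (I.mix (nat_lit 25886720) (nat_lit 12402688)) (I.mix (nat_lit 15499264) (nat_lit 27705344)) (I.mix (nat_lit 8962048) (nat_lit 16744448)))
  false (nat_lit 0)
def t3 : BTr := (BTr.n (BTr.n (BTr.n (BTr.b b3_0) (BTr.b b3_1)) (BTr.n (BTr.b b3_2) (BTr.n (BTr.b b3_3) (BTr.b b3_4)))) (BTr.n (BTr.n (BTr.b b3_5) (BTr.b b3_6)) (BTr.n (BTr.b b3_7) (BTr.n (BTr.b b3_8) (BTr.b b3_9)))))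
namespace T3
def l0 : Tr := Tr.L (Pth.l (Pth.l (Pth.l Pth.z)))
def l1 : Tr := Tr.L (Pth.l (Pth.l (Pth.r Pth.z)))
def l2 : Tr := Tr.L (Pth.l (Pth.r (Pth.l Pth.z)))
def l3 : Tr := Tr.L (Pth.l (Pth.r (Pth.r (Pth.l Pth.z))))
def l4 : Tr := Tr.L (Pth.l (Pth.r (Pth.r (Pth.r Pth.z))))
def l5 : Tr := Tr.L (Pth.r (Pth.l (Pth.l Pth.z)))
def l6 : Tr := Tr.L (Pth.r (Pth.l (Pth.r Pth.z)))
def l7 : Tr := Tr.L (Pth.r (Pth.r (Pth.l Pth.z)))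
def l8 : Tr := Tr.L (Pth.r (Pth.r (Pth.r (Pth.l Pth.z))))
def l9 : Tr := Tr.L (Pth.r (Pth.r (Pth.r (Pth.r Pth.z))))
end T3
def b4_0 : Bx := Bx.mk (St.mk (I.pos (nat_lit 153010176) (nat_lit 293781504)) (I.mix (nat_lit 19431424) (nat_lit 69451776)) (I.mix (nat_lit 69795840) (nat_lit 109461504)) (I.pos (nat_lit 225116160) (nat_lit 456867840)) (I.mix (nat_lit 88834048) (nat_lit 71598080)) (I.mix (nat_lit 95010816) (nat_lit 54214656)) (I.mix (nat_lit 137740288) (nat_lit 77709312)))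
  false (nat_lit 79464177)
def b4_1 : Bx := Bx.mk (St.mk (I.pos (nat_lit 79413248) (nat_lit 158334976)) (I.neg (nat_lit 6340608) (nat_lit 76414976)) (I.mix (nat_lit 59785216) (nat_lit 12730368)) (I.pos (nat_lit 166772736) (nat_lit 233897984)) (I.mix (nat_lit 64733184) (nat_lit 44662784)) (I.mix (nat_lit 37601280) (nat_lit 62324736)) (I.mix (nat_lit 33603584) (nat_lit 52789248)))
  false (nat_lit 0)
def b4_2 : Bx := Bx.mk (St.mk (I.mix (nat_lit 36306944) (nat_lit 11026432)) (I.mix (nat_lit 47333376) (nat_lit 10977280)) (I.pos (nat_lit 1441792) (nat_lit 10633216)) (I.pos (nat_lit 139821056) (nat_lit 149389312)) (I.mix (nat_lit 19906560) (nat_lit 34242560)) (I.mix (nat_lit 19742720) (nat_lit 36061184)) (I.mix (nat_lit 4292608) (nat_lit 4833280)))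
  true (nat_lit 0)
def b4_3 : Bx := Bx.mk (St.mk (I.pos (nat_lit 123174912) (nat_lit 203014144)) (I.mix (nat_lit 43696128) (nat_lit 74678272)) (I.mix (nat_lit 30195712) (nat_lit 114114560)) (I.pos (nat_lit 196460544) (nat_lit 294797312)) (I.mix (nat_lit 109608960) (nat_lit 44367872)) (I.mix (nat_lit 127713280) (nat_lit 60456960)) (I.mix (nat_lit 134545408) (nat_lit 62881792)))
  false (nat_lit 18115130)
def b4_4 : Bx := Bx.mk (St.mk (I.mix (nat_lit 11026432) (nat_lit 36306944)) (I.mix (nat_lit 10977280) (nat_lit 47333376)) (I.pos (nat_lit 1441792) (nat_lit 10633216)) (I.pos (nat_lit 139821056) (nat_lit 149389312)) (I.mix (nat_lit 34242560) (nat_lit 19906560)) (I.mix (nat_lit 36061184) (nat_lit 19742720)) (I.mix (nat_lit 4292608) (nat_lit 4833280)))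
  false (nat_lit 0)
def b4_5 : Bx := Bx.mk (St.mk (I.pos (nat_lit 17530880) (nat_lit 74825728)) (I.mix (nat_lit 10207232) (nat_lit 53166080)) (I.mix (nat_lit 18792448) (nat_lit 15335424)) (I.pos (nat_lit 139755520) (nat_lit 162152448)) (I.mix (nat_lit 29589504) (nat_lit 35405824)) (I.mix (nat_lit 43106304) (nat_lit 22593536)) (I.mix (nat_lit 21348352) (nat_lit 12959744)))
  false (nat_lit 0)
def b4_6 : Bx := Bx.mk (St.mk (I.pos (nat_lit 51380224) (nat_lit 111640576)) (I.mix (nat_lit 75022336) (nat_lit 13516800)) (I.neg (nat_lit 835584) (nat_lit 54329344)) (I.pos (nat_lit 149536768) (nat_lit 188448768)) (I.mix (nat_lit 62767104) (nat_lit 28983296)) (I.mix (nat_lit 32964608) (nat_lit 70942720)) (I.mix (nat_lit 23101440) (nat_lit 42041344)))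
  false (nat_lit 0)
def b4_7 : Bx := Bx.mk (St.mk (I.neg (nat_lit 17514496) (nat_lit 74858496)) (I.mix (nat_lit 53166080) (nat_lit 10207232)) (I.mix (nat_lit 18792448) (nat_lit 15335424)) (I.pos (nat_lit 139755520) (nat_lit 162152448)) (I.mix (nat_lit 35405824) (nat_lit 29589504)) (I.mix (nat_lit 22593536) (nat_lit 43106304)) (I.mix (nat_lit 21348352) (nat_lit 12959744)))
  true (nat_lit 0)
def t4 : BTr := (BTr.n (BTr.n (BTr.n (BTr.b b4_0) (BTr.b b4_1)) (BTr.n (BTr.b b4_2) (BTr.b b4_3))) (BTr.n (BTr.n (BTr.b b4_4) (BTr.b b4_5)) (BTr.n (BTr.b b4_6) (BTr.b b4_7))))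
namespace T4
def l0 : Tr := Tr.L (Pth.l (Pth.l (Pth.l Pth.z)))
def l1 : Tr := Tr.L (Pth.l (Pth.l (Pth.r Pth.z)))
def l2 : Tr := Tr.L (Pth.l (Pth.r (Pth.l Pth.z)))
def l3 : Tr := Tr.L (Pth.l (Pth.r (Pth.r Pth.z)))
def l4 : Tr := Tr.L (Pth.r (Pth.l (Pth.l Pth.z)))
def l5 : Tr := Tr.L (Pth.r (Pth.l (Pth.r Pth.z)))
def l6 : Tr := Tr.L (Pth.r (Pth.r (Pth.l Pth.z)))
def l7 : Tr := Tr.L (Pth.r (Pth.r (Pth.r Pth.z)))
end T4
def b5_0 : Bx := Bx.mk (St.mk (I.pos (nat_lit 153305088) (nat_lit 288538624)) (I.mix (nat_lit 27525120) (nat_lit 53346304)) (I.mix (nat_lit 37535744) (nat_lit 112132096)) (I.pos (nat_lit 128974848) (nat_lit 370081792)) (I.mix (nat_lit 86589440) (nat_lit 58195968)) (I.mix (nat_lit 90652672) (nat_lit 58621952)) (I.mix (nat_lit 138919936) (nat_lit 74792960)))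
  false (nat_lit 52134239)
def b5_1 : Bx := Bx.mk (St.mk (I.pos (nat_lit 106528768) (nat_lit 174211072)) (I.neg (nat_lit 5013504) (nat_lit 69992448)) (I.mix (nat_lit 54263808) (nat_lit 13647872)) (I.pos (nat_lit 102776832) (nat_lit 173457408)) (I.mix (nat_lit 70221824) (nat_lit 35553280)) (I.mix (nat_lit 33325056) (nat_lit 53166080)) (I.mix (nat_lit 29999104) (nat_lit 49922048)))
  false (nat_lit 0)
def b5_2 : Bx := Bx.mk (St.mk (I.mix (nat_lit 23674880) (nat_lit 86605824)) (I.mix (nat_lit 34914304) (nat_lit 3424256)) (I.mix (nat_lit 11501568) (nat_lit 12894208)) (I.pos (nat_lit 40042496) (nat_lit 90439680)) (I.mix (nat_lit 22937600) (nat_lit 22315008)) (I.mix (nat_lit 18300928) (nat_lit 23773184)) (I.mix (nat_lit 9191424) (nat_lit 12861440)))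
  false (nat_lit 0)
def b5_3 : Bx := Bx.mk (St.mk (I.pos (nat_lit 152682496) (nat_lit 215580672)) (I.mix (nat_lit 34095104) (nat_lit 71483392)) (I.mix (nat_lit 11452416) (nat_lit 130957312)) (I.pos (nat_lit 133496832) (nat_lit 231800832)) (I.mix (nat_lit 128024576) (nat_lit 42811392)) (I.mix (nat_lit 142458880) (nat_lit 70746112)) (I.mix (nat_lit 176046080) (nat_lit 71892992)))
  false (nat_lit 45745176)
def b5_4 : Bx := Bx.mk (St.mk (I.mix (nat_lit 39878656) (nat_lit 110772224)) (I.mix (nat_lit 10321920) (nat_lit 40222720)) (I.mix (nat_lit 2424832) (nat_lit 36814848)) (I.pos (nat_lit 38912000) (nat_lit 105758720)) (I.mix (nat_lit 47513600) (nat_lit 19169280)) (I.mix (nat_lit 44433408) (nat_lit 28459008)) (I.mix (nat_lit 26869760) (nat_lit 17580032)))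
  false (nat_lit 0)
def b5_5 : Bx := Bx.mk (St.mk (I.mix (nat_lit 42876928) (nat_lit 110444544)) (I.mix (nat_lit 13615104) (nat_lit 4456448)) (I.mix (nat_lit 163840) (nat_lit 11780096)) (I.pos (nat_lit 41664512) (nat_lit 94519296)) (I.mix (nat_lit 4259840) (nat_lit 8945664)) (I.mix (nat_lit 4128768) (nat_lit 5029888)) (I.mix (nat_lit 2064384) (nat_lit 3244032)))
  false (nat_lit 0)
def b5_6 : Bx := Bx.mk (St.mk (I.pos (nat_lit 94633984) (nat_lit 153321472)) (I.mix (nat_lit 66207744) (nat_lit 12943360)) (I.mix (nat_lit 47022080) (nat_lit 19103744)) (I.pos (nat_lit 78036992) (nat_lit 147046400)) (I.mix (nat_lit 75284480) (nat_lit 29884416)) (I.mix (nat_lit 48201728) (nat_lit 76939264)) (I.mix (nat_lit 34373632) (nat_lit 55230464)))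
  false (nat_lit 0)
def b5_7 : Bx := Bx.mk (St.mk (I.mix (nat_lit 38305792) (nat_lit 78200832)) (I.mix (nat_lit 33144832) (nat_lit 7553024)) (I.mix (nat_lit 10223616) (nat_lit 11386880)) (I.pos (nat_lit 40435712) (nat_lit 84803584)) (I.mix (nat_lit 26001408) (nat_lit 20496384)) (I.mix (nat_lit 17055744) (nat_lit 32292864)) (I.mix (nat_lit 9404416) (nat_lit 12042240)))
  false (nat_lit 0)
def b5_8 : Bx := Bx.mk (St.mk (I.pos (nat_lit 151748608) (nat_lit 171917312)) (I.neg (nat_lit 12746752) (nat_lit 39075840)) (I.mix (nat_lit 19906560) (nat_lit 13172736)) (I.pos (nat_lit 133595136) (nat_lit 173998080)) (I.mix (nat_lit 14696448) (nat_lit 14237696)) (I.mix (nat_lit 9650176) (nat_lit 10289152)) (I.mix (nat_lit 8749056) (nat_lit 11141120)))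
  false (nat_lit 0)
def b5_9 : Bx := Bx.mk (St.mk (I.mix (nat_lit 21905408) (nat_lit 122798080)) (I.mix (nat_lit 10764288) (nat_lit 36913152)) (I.mix (nat_lit 3325952) (nat_lit 35569664)) (I.pos (nat_lit 34258944) (nat_lit 117096448)) (I.mix (nat_lit 42729472) (nat_lit 31293440)) (I.mix (nat_lit 42991616) (nat_lit 27115520)) (I.mix (nat_lit 30965760) (nat_lit 19693568)))
  false (nat_lit 0)
def t5 : BTr := (BTr.n (BTr.n (BTr.n (BTr.b b5_0) (BTr.b b5_1)) (BTr.n (BTr.b b5_2) (BTr.n (BTr.b b5_3) (BTr.b b5_4)))) (BTr.n (BTr.n (BTr.b b5_5) (BTr.b b5_6)) (BTr.n (BTr.b b5_7) (BTr.n (BTr.b b5_8) (BTr.b b5_9)))))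
namespace T5
def l0 : Tr := Tr.L (Pth.l (Pth.l (Pth.l Pth.z)))
def l1 : Tr := Tr.L (Pth.l (Pth.l (Pth.r Pth.z)))
def l2 : Tr := Tr.L (Pth.l (Pth.r (Pth.l Pth.z)))
def l3 : Tr := Tr.L (Pth.l (Pth.r (Pth.r (Pth.l Pth.z))))
def l4 : Tr := Tr.L (Pth.l (Pth.r (Pth.r (Pth.r Pth.z))))
def l5 : Tr := Tr.L (Pth.r (Pth.l (Pth.l Pth.z)))
def l6 : Tr := Tr.L (Pth.r (Pth.l (Pth.r Pth.z)))
def l7 : Tr := Tr.L (Pth.r (Pth.r (Pth.l Pth.z)))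
def l8 : Tr := Tr.L (Pth.r (Pth.r (Pth.r (Pth.l Pth.z))))
def l9 : Tr := Tr.L (Pth.r (Pth.r (Pth.r (Pth.r Pth.z))))
end T5
theorem bx0_0 : BoxOK sI cl5 cl7 cl13 t2 t4 b0_0 :=
  box_mk (TrL.c (I.pos (nat_lit 0) (nat_lit 0)) (xa (xa T2.l0 T2.l0) (xa T2.l0 (xb T2.l0 T2.l0)))
  (TrL.c (I.pos (nat_lit 0) (nat_lit 0)) T4.l1
  (TrL.c (I.pos (nat_lit 0) (nat_lit 0)) T2.l1
  (TrL.c (I.pos (nat_lit 0) (nat_lit 0)) T4.l2
  (TrL.c (I.pos (nat_lit 0) (nat_lit 0)) (xa T4.l3 (xa T4.l3 (xb T4.l3 (xs T4.l3 T4.l3))))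
  (TrL.c (I.pos (nat_lit 0) (nat_lit 0)) T2.l2
  (TrL.c (I.pos (nat_lit 0) (nat_lit 0)) T4.l4
  (TrL.c (I.pos (nat_lit 0) (nat_lit 0)) T2.l3
  TrL.n)))))))) (by decide +kernel)
theorem bx0_1 : BoxOK sI cl5 cl7 cl13 t2 t4 b0_1 :=
  box_mk (TrL.c (I.pos (nat_lit 0) (nat_lit 0)) T2.l0
  (TrL.c (I.pos (nat_lit 0) (nat_lit 0)) T4.l1
  (TrL.c (I.pos (nat_lit 0) (nat_lit 0)) T2.l1
  (TrL.c (I.pos (nat_lit 0) (nat_lit 0)) T4.l2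
  (TrL.c (I.pos (nat_lit 0) (nat_lit 0)) T4.l3
  (TrL.c (I.pos (nat_lit 0) (nat_lit 0)) T2.l2
  (TrL.c (I.pos (nat_lit 0) (nat_lit 0)) T4.l4
  (TrL.c (I.pos (nat_lit 0) (nat_lit 0)) T2.l3
  TrL.n)))))))) (by decide +kernel)
theorem bx0_2 : BoxOK sI cl5 cl7 cl13 t2 t4 b0_2 :=
  box_mk (TrL.c (I.pos (nat_lit 0) (nat_lit 0)) T2.l0
  (TrL.c (I.pos (nat_lit 0) (nat_lit 0)) T4.l1
  (TrL.c (I.pos (nat_lit 0) (nat_lit 0)) T2.l1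
  (TrL.c (I.pos (nat_lit 0) (nat_lit 0)) T4.l2
  (TrL.c (I.pos (nat_lit 0) (nat_lit 0)) T4.l3
  (TrL.c (I.pos (nat_lit 0) (nat_lit 0)) T2.l2
  (TrL.c (I.pos (nat_lit 0) (nat_lit 0)) T4.l4
  (TrL.c (I.pos (nat_lit 0) (nat_lit 0)) T2.l3
  TrL.n)))))))) (by decide +kernel)
theorem bx0_3 : BoxOK sI cl5 cl7 cl13 t2 t4 b0_3 :=
  box_mk (TrL.c (I.pos (nat_lit 0) (nat_lit 0)) T2.l0
  (TrL.c (I.pos (nat_lit 0) (nat_lit 0)) T4.l3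
  (TrL.c (I.pos (nat_lit 0) (nat_lit 0)) T2.l1
  (TrL.c (I.pos (nat_lit 0) (nat_lit 0)) T4.l2
  (TrL.c (I.pos (nat_lit 0) (nat_lit 0)) T4.l3
  (TrL.c (I.pos (nat_lit 0) (nat_lit 0)) T2.l2
  (TrL.c (I.pos (nat_lit 0) (nat_lit 0)) T4.l4
  (TrL.c (I.pos (nat_lit 0) (nat_lit 0)) T2.l3
  TrL.n)))))))) (by decide +kernel)
theorem bx0_4 : BoxOK sI cl5 cl7 cl13 t2 t4 b0_4 :=
  box_mk (TrL.c (I.pos (nat_lit 0) (nat_lit 0)) T2.l0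
  (TrL.c (I.pos (nat_lit 0) (nat_lit 0)) T4.l1
  (TrL.c (I.pos (nat_lit 0) (nat_lit 0)) T2.l1
  (TrL.c (I.pos (nat_lit 0) (nat_lit 0)) T4.l2
  (TrL.c (I.pos (nat_lit 0) (nat_lit 0)) T4.l3
  (TrL.c (I.pos (nat_lit 0) (nat_lit 0)) T2.l2
  (TrL.c (I.pos (nat_lit 0) (nat_lit 0)) T4.l4
  (TrL.c (I.pos (nat_lit 0) (nat_lit 0)) T2.l3
  TrL.n)))))))) (by decide +kernel)
theorem bx0_5 : BoxOK sI cl5 cl7 cl13 t2 t4 b0_5 :=
  box_mk (TrL.c (I.pos (nat_lit 0) (nat_lit 0)) T2.l0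
  (TrL.c (I.pos (nat_lit 0) (nat_lit 0)) T4.l1
  (TrL.c (I.pos (nat_lit 0) (nat_lit 0)) T2.l1
  (TrL.c (I.pos (nat_lit 0) (nat_lit 0)) T4.l2
  (TrL.c (I.pos (nat_lit 0) (nat_lit 0)) T4.l3
  (TrL.c (I.pos (nat_lit 0) (nat_lit 0)) T2.l2
  (TrL.c (I.pos (nat_lit 0) (nat_lit 0)) T4.l4
  (TrL.c (I.pos (nat_lit 0) (nat_lit 0)) T2.l3
  TrL.n)))))))) (by decide +kernel)
theorem bx0_6 : BoxOK sI cl5 cl7 cl13 t2 t4 b0_6 :=
  box_mk (TrL.c (I.pos (nat_lit 0) (nat_lit 0)) T2.l0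
  (TrL.c (I.pos (nat_lit 0) (nat_lit 0)) T4.l1
  (TrL.c (I.pos (nat_lit 0) (nat_lit 0)) T2.l1
  (TrL.c (I.pos (nat_lit 0) (nat_lit 0)) T4.l2
  (TrL.c (I.pos (nat_lit 0) (nat_lit 0)) T4.l3
  (TrL.c (I.pos (nat_lit 0) (nat_lit 0)) T2.l2
  (TrL.c (I.pos (nat_lit 0) (nat_lit 0)) T4.l4
  (TrL.c (I.pos (nat_lit 0) (nat_lit 0)) T2.l3
  TrL.n)))))))) (by decide +kernel)
theorem bx0_7 : BoxOK sI cl5 cl7 cl13 t2 t4 b0_7 :=
  box_mk (TrL.c (I.pos (nat_lit 0) (nat_lit 0)) (xa T2.l0 T2.l0)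
  (TrL.c (I.pos (nat_lit 0) (nat_lit 0)) T4.l1
  (TrL.c (I.pos (nat_lit 0) (nat_lit 0)) T2.l1
  (TrL.c (I.pos (nat_lit 0) (nat_lit 0)) T4.l2
  (TrL.c (I.pos (nat_lit 0) (nat_lit 0)) T4.l3
  (TrL.c (I.pos (nat_lit 0) (nat_lit 0)) T2.l2
  (TrL.c (I.pos (nat_lit 0) (nat_lit 0)) T4.l4
  (TrL.c (I.pos (nat_lit 0) (nat_lit 0)) T2.l3
  TrL.n)))))))) (by decide +kernel)
theorem bx0_8 : BoxOK sI cl5 cl7 cl13 t2 t4 b0_8 :=
  box_mk (TrL.c (I.pos (nat_lit 0) (nat_lit 0)) (xa (xb T2.l0 (xa T2.l0 T2.l0)) (xb T2.l0 (xa T2.l0 T2.l0)))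
  (TrL.c (I.pos (nat_lit 0) (nat_lit 0)) T4.l1
  (TrL.c (I.pos (nat_lit 0) (nat_lit 0)) T2.l1
  (TrL.c (I.pos (nat_lit 0) (nat_lit 0)) T4.l2
  (TrL.c (I.pos (nat_lit 0) (nat_lit 0)) (xb (xa T4.l3 T4.l3) (xa T4.l3 T4.l3))
  (TrL.c (I.pos (nat_lit 0) (nat_lit 0)) T2.l2
  (TrL.c (I.pos (nat_lit 0) (nat_lit 0)) T4.l4
  (TrL.c (I.pos (nat_lit 0) (nat_lit 0)) T2.l3
  TrL.n)))))))) (by decide +kernel)
theorem bx0_9 : BoxOK sI cl5 cl7 cl13 t2 t4 b0_9 :=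
  box_mk (TrL.c (I.pos (nat_lit 0) (nat_lit 0)) (xa (xa (xb T2.l0 T2.l0) T2.l0) T2.l0)
  (TrL.c (I.pos (nat_lit 0) (nat_lit 0)) (xa T4.l1 T4.l1)
  (TrL.c (I.pos (nat_lit 0) (nat_lit 0)) T2.l1
  (TrL.c (I.pos (nat_lit 0) (nat_lit 0)) T4.l2
  (TrL.c (I.pos (nat_lit 0) (nat_lit 0)) T4.l3
  (TrL.c (I.pos (nat_lit 0) (nat_lit 0)) T2.l2
  (TrL.c (I.pos (nat_lit 0) (nat_lit 0)) T4.l4
  (TrL.c (I.pos (nat_lit 0) (nat_lit 0)) T2.l3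
  TrL.n)))))))) (by decide +kernel)
theorem sv0 : StarV sI cl5 cl7 cl13 t2 t4 t0 :=
  (bt_n (bt_n (bt_n (bt_b bx0_0) (bt_b bx0_1)) (bt_n (bt_b bx0_2) (bt_n (bt_b bx0_3) (bt_b bx0_4)))) (bt_n (bt_n (bt_b bx0_5) (bt_b bx0_6)) (bt_n (bt_b bx0_7) (bt_n (bt_b bx0_8) (bt_b bx0_9)))))
def S0 : StarD := StarD.mk cl5 cl7 cl13 2 4 t0
theorem bx1_0 : BoxOK sI cl5 cl13 cl7 t4 t2 b1_0 :=
  box_mk (TrL.c (I.pos (nat_lit 0) (nat_lit 0)) (xa (xa T4.l0 T4.l0) (xa T4.l0 (xb T4.l0 T4.l0)))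
  (TrL.c (I.pos (nat_lit 0) (nat_lit 0)) T2.l4
  (TrL.c (I.pos (nat_lit 0) (nat_lit 0)) T4.l5
  (TrL.c (I.pos (nat_lit 0) (nat_lit 0)) T2.l5
  (TrL.c (I.pos (nat_lit 0) (nat_lit 0)) (xa T2.l6 (xa T2.l6 (xb T2.l6 T2.l6)))
  (TrL.c (I.pos (nat_lit 0) (nat_lit 0)) T4.l6
  (TrL.c (I.pos (nat_lit 0) (nat_lit 0)) T2.l7
  (TrL.c (I.pos (nat_lit 0) (nat_lit 0)) T4.l7
  TrL.n)))))))) (by decide +kernel)
theorem bx1_1 : BoxOK sI cl5 cl13 cl7 t4 t2 b1_1 :=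
  box_mk (TrL.c (I.pos (nat_lit 0) (nat_lit 0)) (xa T4.l0 T4.l0)
  (TrL.c (I.pos (nat_lit 0) (nat_lit 0)) T2.l4
  (TrL.c (I.pos (nat_lit 0) (nat_lit 0)) T4.l5
  (TrL.c (I.pos (nat_lit 0) (nat_lit 0)) T2.l5
  (TrL.c (I.pos (nat_lit 0) (nat_lit 0)) T2.l6
  (TrL.c (I.pos (nat_lit 0) (nat_lit 0)) T4.l6
  (TrL.c (I.pos (nat_lit 0) (nat_lit 0)) T2.l7
  (TrL.c (I.pos (nat_lit 0) (nat_lit 0)) T4.l7
  TrL.n)))))))) (by decide +kernel)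
theorem bx1_2 : BoxOK sI cl5 cl13 cl7 t4 t2 b1_2 :=
  box_mk (TrL.c (I.pos (nat_lit 0) (nat_lit 0)) T4.l0
  (TrL.c (I.pos (nat_lit 0) (nat_lit 0)) T2.l4
  (TrL.c (I.pos (nat_lit 0) (nat_lit 0)) T4.l5
  (TrL.c (I.pos (nat_lit 0) (nat_lit 0)) T2.l5
  (TrL.c (I.pos (nat_lit 0) (nat_lit 0)) T2.l6
  (TrL.c (I.pos (nat_lit 0) (nat_lit 0)) T4.l6
  (TrL.c (I.pos (nat_lit 0) (nat_lit 0)) T2.l7
  (TrL.c (I.pos (nat_lit 0) (nat_lit 0)) T4.l7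
  TrL.n)))))))) (by decide +kernel)
theorem bx1_3 : BoxOK sI cl5 cl13 cl7 t4 t2 b1_3 :=
  box_mk (TrL.c (I.pos (nat_lit 0) (nat_lit 0)) (xa T4.l0 T4.l0)
  (TrL.c (I.pos (nat_lit 0) (nat_lit 0)) T2.l4
  (TrL.c (I.pos (nat_lit 0) (nat_lit 0)) T4.l5
  (TrL.c (I.pos (nat_lit 0) (nat_lit 0)) T2.l5
  (TrL.c (I.pos (nat_lit 0) (nat_lit 0)) T2.l6
  (TrL.c (I.pos (nat_lit 0) (nat_lit 0)) T4.l6
  (TrL.c (I.pos (nat_lit 0) (nat_lit 0)) T2.l7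
  (TrL.c (I.pos (nat_lit 0) (nat_lit 0)) T4.l7
  TrL.n)))))))) (by decide +kernel)
theorem bx1_4 : BoxOK sI cl5 cl13 cl7 t4 t2 b1_4 :=
  box_mk (TrL.c (I.pos (nat_lit 0) (nat_lit 0)) T4.l0
  (TrL.c (I.pos (nat_lit 0) (nat_lit 0)) T2.l4
  (TrL.c (I.pos (nat_lit 0) (nat_lit 0)) T4.l5
  (TrL.c (I.pos (nat_lit 0) (nat_lit 0)) T2.l5
  (TrL.c (I.pos (nat_lit 0) (nat_lit 0)) T2.l6
  (TrL.c (I.pos (nat_lit 0) (nat_lit 0)) T4.l6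
  (TrL.c (I.pos (nat_lit 0) (nat_lit 0)) T2.l7
  (TrL.c (I.pos (nat_lit 0) (nat_lit 0)) T4.l7
  TrL.n)))))))) (by decide +kernel)
theorem bx1_5 : BoxOK sI cl5 cl13 cl7 t4 t2 b1_5 :=
  box_mk (TrL.c (I.pos (nat_lit 0) (nat_lit 0)) T4.l0
  (TrL.c (I.pos (nat_lit 0) (nat_lit 0)) T2.l4
  (TrL.c (I.pos (nat_lit 0) (nat_lit 0)) T4.l5
  (TrL.c (I.pos (nat_lit 0) (nat_lit 0)) T2.l5
  (TrL.c (I.pos (nat_lit 0) (nat_lit 0)) T2.l6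
  (TrL.c (I.pos (nat_lit 0) (nat_lit 0)) T4.l6
  (TrL.c (I.pos (nat_lit 0) (nat_lit 0)) T2.l7
  (TrL.c (I.pos (nat_lit 0) (nat_lit 0)) T4.l7
  TrL.n)))))))) (by decide +kernel)
theorem bx1_6 : BoxOK sI cl5 cl13 cl7 t4 t2 b1_6 :=
  box_mk (TrL.c (I.pos (nat_lit 0) (nat_lit 0)) T4.l0
  (TrL.c (I.pos (nat_lit 0) (nat_lit 0)) T2.l4
  (TrL.c (I.pos (nat_lit 0) (nat_lit 0)) T4.l5
  (TrL.c (I.pos (nat_lit 0) (nat_lit 0)) T2.l5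
  (TrL.c (I.pos (nat_lit 0) (nat_lit 0)) T2.l6
  (TrL.c (I.pos (nat_lit 0) (nat_lit 0)) T4.l6
  (TrL.c (I.pos (nat_lit 0) (nat_lit 0)) T2.l7
  (TrL.c (I.pos (nat_lit 0) (nat_lit 0)) T4.l7
  TrL.n)))))))) (by decide +kernel)
theorem bx1_7 : BoxOK sI cl5 cl13 cl7 t4 t2 b1_7 :=
  box_mk (TrL.c (I.pos (nat_lit 0) (nat_lit 0)) (xa T4.l0 T4.l0)
  (TrL.c (I.pos (nat_lit 0) (nat_lit 0)) T2.l4
  (TrL.c (I.pos (nat_lit 0) (nat_lit 0)) T4.l5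
  (TrL.c (I.pos (nat_lit 0) (nat_lit 0)) T2.l5
  (TrL.c (I.pos (nat_lit 0) (nat_lit 0)) T2.l6
  (TrL.c (I.pos (nat_lit 0) (nat_lit 0)) T4.l6
  (TrL.c (I.pos (nat_lit 0) (nat_lit 0)) T2.l7
  (TrL.c (I.pos (nat_lit 0) (nat_lit 0)) T4.l7
  TrL.n)))))))) (by decide +kernel)
theorem bx1_8 : BoxOK sI cl5 cl13 cl7 t4 t2 b1_8 :=
  box_mk (TrL.c (I.pos (nat_lit 0) (nat_lit 0)) (xb (xa (xb T4.l0 T4.l0) T4.l0) (xa (xa T4.l0 T4.l0) (xs T4.l0 (xa T4.l0 T4.l0))))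
  (TrL.c (I.pos (nat_lit 0) (nat_lit 0)) T2.l4
  (TrL.c (I.pos (nat_lit 0) (nat_lit 0)) T4.l5
  (TrL.c (I.pos (nat_lit 0) (nat_lit 0)) T2.l5
  (TrL.c (I.pos (nat_lit 0) (nat_lit 0)) (xb (xa T2.l6 T2.l6) (xa T2.l6 T2.l6))
  (TrL.c (I.pos (nat_lit 0) (nat_lit 0)) T4.l6
  (TrL.c (I.pos (nat_lit 0) (nat_lit 0)) T2.l7
  (TrL.c (I.pos (nat_lit 0) (nat_lit 0)) T4.l7
  TrL.n)))))))) (by decide +kernel)
theorem bx1_9 : BoxOK sI cl5 cl13 cl7 t4 t2 b1_9 :=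
  box_mk (TrL.c (I.pos (nat_lit 0) (nat_lit 0)) (xa T4.l0 T4.l0)
  (TrL.c (I.pos (nat_lit 0) (nat_lit 0)) (xa T2.l4 T2.l4)
  (TrL.c (I.pos (nat_lit 0) (nat_lit 0)) T4.l5
  (TrL.c (I.pos (nat_lit 0) (nat_lit 0)) T2.l5
  (TrL.c (I.pos (nat_lit 0) (nat_lit 0)) T2.l6
  (TrL.c (I.pos (nat_lit 0) (nat_lit 0)) T4.l6
  (TrL.c (I.pos (nat_lit 0) (nat_lit 0)) T2.l7
  (TrL.c (I.pos (nat_lit 0) (nat_lit 0)) T4.l7
  TrL.n)))))))) (by decide +kernel)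
theorem sv1 : StarV sI cl5 cl13 cl7 t4 t2 t1 :=
  (bt_n (bt_n (bt_n (bt_b bx1_0) (bt_b bx1_1)) (bt_n (bt_b bx1_2) (bt_n (bt_b bx1_3) (bt_b bx1_4)))) (bt_n (bt_n (bt_b bx1_5) (bt_b bx1_6)) (bt_n (bt_b bx1_7) (bt_n (bt_b bx1_8) (bt_b bx1_9)))))
def S1 : StarD := StarD.mk cl5 cl13 cl7 4 2 t1
theorem bx2_0 : BoxOK sI cl7 cl5 cl13 t0 t5 b2_0 :=
  box_mk (TrL.c (I.pos (nat_lit 0) (nat_lit 0)) (xa (xb T0.l0 (xa T0.l0 T0.l0)) (xa (xb T0.l0 T0.l0) T0.l8))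
  (TrL.c (I.pos (nat_lit 0) (nat_lit 0)) T5.l1
  (TrL.c (I.pos (nat_lit 0) (nat_lit 111196574)) (xR T0.l1 T0.l9)
  (TrL.c (I.pos (nat_lit 0) (nat_lit 77433728)) (xR T5.l2 T5.l2)
  (TrL.c (I.pos (nat_lit 0) (nat_lit 0)) (xa (xb (xa T5.l3 T5.l3) T5.l3) (xb (xk (xa T5.l3 (xb (xs T5.l3 T5.l3) T5.l3)) (xa T5.l3 (xb (xs T5.l3 T5.l3) T5.l3))) (xk (xa T5.l3 (xs T5.l3 (xb T5.l3 T5.l3))) (xa T5.l3 (xs T5.l3 (xb T5.l3 T5.l3))))))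
  (TrL.c (I.pos (nat_lit 0) (nat_lit 0)) T0.l2
  (TrL.c (I.mix (nat_lit 29511666) (nat_lit 77433728)) (xR T5.l4 T5.l4)
  (TrL.c (I.mix (nat_lit 29511666) (nat_lit 46070178)) T0.l7
  TrL.n)))))))) (by decide +kernel)
theorem bx2_1 : BoxOK sI cl7 cl5 cl13 t0 t5 b2_1 :=
  box_mk (TrL.c (I.pos (nat_lit 0) (nat_lit 0)) T0.l0
  (TrL.c (I.pos (nat_lit 0) (nat_lit 0)) T5.l1
  (TrL.c (I.pos (nat_lit 0) (nat_lit 111196574)) T0.l1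
  (TrL.c (I.pos (nat_lit 0) (nat_lit 77433728)) T5.l2
  (TrL.c (I.pos (nat_lit 0) (nat_lit 0)) T5.l3
  (TrL.c (I.pos (nat_lit 0) (nat_lit 0)) T0.l2
  (TrL.c (I.mix (nat_lit 29511666) (nat_lit 77433728)) T5.l4
  (TrL.c (I.mix (nat_lit 29511666) (nat_lit 46070178)) T0.l3
  TrL.n)))))))) (by decide +kernel)
theorem bx2_2 : BoxOK sI cl7 cl5 cl13 t0 t5 b2_2 :=
  box_mk (TrL.c (I.pos (nat_lit 0) (nat_lit 0)) T0.l0
  (TrL.c (I.pos (nat_lit 0) (nat_lit 0)) T5.l1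
  (TrL.c (I.pos (nat_lit 0) (nat_lit 111196574)) T0.l1
  (TrL.c (I.pos (nat_lit 0) (nat_lit 77433728)) T5.l2
  (TrL.c (I.pos (nat_lit 0) (nat_lit 0)) T5.l3
  (TrL.c (I.pos (nat_lit 0) (nat_lit 0)) T0.l2
  (TrL.c (I.mix (nat_lit 29511666) (nat_lit 77433728)) T5.l4
  (TrL.c (I.mix (nat_lit 29511666) (nat_lit 46070178)) T0.l3
  TrL.n)))))))) (by decide +kernel)
theorem bx2_3 : BoxOK sI cl7 cl5 cl13 t0 t5 b2_3 :=
  box_mk (TrL.c (I.pos (nat_lit 0) (nat_lit 0)) T5.l1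
  (TrL.c (I.pos (nat_lit 0) (nat_lit 0)) T0.l1
  (TrL.c (I.mix (nat_lit 29511666) (nat_lit 77433728)) (xR T5.l4 T5.l2)
  (TrL.c (I.mix (nat_lit 29511666) (nat_lit 46070178)) T0.l9
  TrL.n)))) (by decide +kernel)
theorem bx2_4 : BoxOK sI cl7 cl5 cl13 t0 t5 b2_4 :=
  box_mk (TrL.c (I.pos (nat_lit 0) (nat_lit 0)) (xa T0.l0 T0.l0)
  (TrL.c (I.pos (nat_lit 0) (nat_lit 0)) T5.l1
  (TrL.c (I.pos (nat_lit 0) (nat_lit 111196574)) T0.l9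
  (TrL.c (I.pos (nat_lit 0) (nat_lit 77433728)) T5.l2
  (TrL.c (I.pos (nat_lit 0) (nat_lit 0)) (xa T5.l3 T5.l3)
  (TrL.c (I.pos (nat_lit 0) (nat_lit 0)) T0.l2
  (TrL.c (I.mix (nat_lit 29511666) (nat_lit 77433728)) T5.l4
  (TrL.c (I.mix (nat_lit 29511666) (nat_lit 46070178)) T0.l3
  TrL.n)))))))) (by decide +kernel)
theorem bx2_5 : BoxOK sI cl7 cl5 cl13 t0 t5 b2_5 :=
  box_mk (TrL.c (I.pos (nat_lit 0) (nat_lit 0)) T5.l1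
  (TrL.c (I.pos (nat_lit 0) (nat_lit 0)) T0.l1
  (TrL.c (I.mix (nat_lit 29511666) (nat_lit 77433728)) (xR T5.l4 T5.l2)
  (TrL.c (I.mix (nat_lit 29511666) (nat_lit 46070178)) T0.l9
  TrL.n)))) (by decide +kernel)
theorem bx2_6 : BoxOK sI cl7 cl5 cl13 t0 t5 b2_6 :=
  box_mk (TrL.c (I.pos (nat_lit 0) (nat_lit 0)) (xa (xb T0.l0 (xa T0.l0 T0.l0)) (xb T0.l0 (xa T0.l0 T0.l0)))
  (TrL.c (I.pos (nat_lit 0) (nat_lit 0)) T5.l1
  (TrL.c (I.pos (nat_lit 0) (nat_lit 111196574)) (xR T0.l1 T0.l9)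
  (TrL.c (I.pos (nat_lit 0) (nat_lit 77433728)) (xR T5.l2 T5.l2)
  (TrL.c (I.pos (nat_lit 0) (nat_lit 0)) (xb (xa T5.l3 (xk T5.l3 T5.l3)) T5.l3)
  (TrL.c (I.pos (nat_lit 0) (nat_lit 0)) T0.l2
  (TrL.c (I.mix (nat_lit 29511666) (nat_lit 77433728)) (xR T5.l4 T5.l4)
  (TrL.c (I.mix (nat_lit 29511666) (nat_lit 46070178)) T0.l3
  TrL.n)))))))) (by decide +kernel)
theorem bx2_7 : BoxOK sI cl7 cl5 cl13 t0 t5 b2_7 :=
  box_mk (TrL.c (I.pos (nat_lit 0) (nat_lit 0)) T0.l0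
  (TrL.c (I.pos (nat_lit 0) (nat_lit 0)) T5.l1
  (TrL.c (I.pos (nat_lit 0) (nat_lit 111196574)) T0.l1
  (TrL.c (I.pos (nat_lit 0) (nat_lit 77433728)) T5.l2
  (TrL.c (I.pos (nat_lit 0) (nat_lit 0)) T5.l3
  (TrL.c (I.pos (nat_lit 0) (nat_lit 0)) T0.l2
  (TrL.c (I.mix (nat_lit 29511666) (nat_lit 77433728)) T5.l4
  (TrL.c (I.mix (nat_lit 29511666) (nat_lit 46070178)) T0.l3
  TrL.n)))))))) (by decide +kernel)
theorem sv2 : StarV sI cl7 cl5 cl13 t0 t5 t2 :=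
  (bt_n (bt_n (bt_n (bt_b bx2_0) (bt_b bx2_1)) (bt_n (bt_b bx2_2) (bt_b bx2_3))) (bt_n (bt_n (bt_b bx2_4) (bt_b bx2_5)) (bt_n (bt_b bx2_6) (bt_b bx2_7))))
def S2 : StarD := StarD.mk cl7 cl5 cl13 0 5 t2
theorem bx3_0 : BoxOK sI cl7 cl13 cl5 t5 t0 b3_0 :=
  box_mk (TrL.c (I.pos (nat_lit 0) (nat_lit 0)) (xa (xa (xb T5.l0 (xs T5.l0 (xa T5.l0 T5.l0))) (xb T5.l0 (xs T5.l0 (xa T5.l0 T5.l0)))) (xa (xb T5.l0 (xs T5.l0 T5.l0)) (xb T5.l0 (xs T5.l0 T5.l0))))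
  (TrL.c (I.pos (nat_lit 0) (nat_lit 0)) (xa T0.l6 T0.l6)
  (TrL.c (I.pos (nat_lit 0) (nat_lit 111196574)) (xR T5.l4 T5.l9)
  (TrL.c (I.pos (nat_lit 0) (nat_lit 77433728)) (xR T0.l7 T0.l7)
  (TrL.c (I.pos (nat_lit 0) (nat_lit 0)) (xa (xa T0.l8 T0.l8) (xa (xb T0.l8 T0.l8) (xb (xk (xb T0.l8 T0.l8) (xb T0.l8 T0.l8)) (xk (xk (xa T0.l8 T0.l8) (xa T0.l8 T0.l8)) (xk (xa T0.l8 T0.l8) (xa T0.l8 T0.l8))))))
  (TrL.c (I.pos (nat_lit 0) (nat_lit 0)) T5.l6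
  (TrL.c (I.mix (nat_lit 29511666) (nat_lit 77433728)) (xR T0.l9 T0.l9)
  (TrL.c (I.mix (nat_lit 29511666) (nat_lit 46070178)) (xR T5.l7 T5.l7)
  TrL.n)))))))) (by decide +kernel)
theorem bx3_1 : BoxOK sI cl7 cl13 cl5 t5 t0 b3_1 :=
  box_mk (TrL.c (I.pos (nat_lit 0) (nat_lit 0)) T5.l0
  (TrL.c (I.pos (nat_lit 0) (nat_lit 0)) T0.l6
  (TrL.c (I.pos (nat_lit 0) (nat_lit 111196574)) (xR T5.l9 T5.l9)
  (TrL.c (I.pos (nat_lit 0) (nat_lit 77433728)) T0.l7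
  (TrL.c (I.pos (nat_lit 0) (nat_lit 0)) T0.l8
  (TrL.c (I.pos (nat_lit 0) (nat_lit 0)) T5.l6
  (TrL.c (I.mix (nat_lit 29511666) (nat_lit 77433728)) (xR T0.l9 T0.l9)
  (TrL.c (I.mix (nat_lit 29511666) (nat_lit 46070178)) T5.l7
  TrL.n)))))))) (by decide +kernel)
theorem bx3_2 : BoxOK sI cl7 cl13 cl5 t5 t0 b3_2 :=
  box_mk (TrL.c (I.pos (nat_lit 0) (nat_lit 0)) T5.l0
  (TrL.c (I.pos (nat_lit 0) (nat_lit 0)) T0.l6
  (TrL.c (I.pos (nat_lit 0) (nat_lit 111196574)) T5.l9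
  (TrL.c (I.pos (nat_lit 0) (nat_lit 77433728)) T0.l7
  (TrL.c (I.pos (nat_lit 0) (nat_lit 0)) (xa T0.l8 T0.l8)
  (TrL.c (I.pos (nat_lit 0) (nat_lit 0)) T5.l6
  (TrL.c (I.mix (nat_lit 29511666) (nat_lit 77433728)) T0.l9
  (TrL.c (I.mix (nat_lit 29511666) (nat_lit 46070178)) T5.l7
  TrL.n)))))))) (by decide +kernel)
theorem bx3_3 : BoxOK sI cl7 cl13 cl5 t5 t0 b3_3 :=
  box_mk (TrL.c (I.pos (nat_lit 0) (nat_lit 0)) (xb (xa (xb T5.l0 T5.l0) (xs T5.l0 T5.l0)) (xa (xs (xa T5.l0 T5.l0) (xa (xb T5.l0 T5.l0) T5.l0)) (xs (xa T5.l0 T5.l0) (xa T5.l0 T5.l0))))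
  (TrL.c (I.pos (nat_lit 0) (nat_lit 0)) T0.l6
  (TrL.c (I.pos (nat_lit 0) (nat_lit 111196574)) (xR T5.l9 T5.l9)
  (TrL.c (I.pos (nat_lit 0) (nat_lit 77433728)) (xR T0.l7 T0.l7)
  (TrL.c (I.pos (nat_lit 0) (nat_lit 0)) (xb (xa T0.l8 (xk T0.l8 T0.l8)) (xk T0.l8 T0.l8))
  (TrL.c (I.pos (nat_lit 0) (nat_lit 0)) T5.l6
  (TrL.c (I.mix (nat_lit 29511666) (nat_lit 77433728)) (xR T0.l9 T0.l9)
  (TrL.c (I.mix (nat_lit 29511666) (nat_lit 46070178)) T5.l7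
  TrL.n)))))))) (by decide +kernel)
theorem bx3_4 : BoxOK sI cl7 cl13 cl5 t5 t0 b3_4 :=
  box_mk (TrL.c (I.pos (nat_lit 0) (nat_lit 0)) (xa T5.l0 (xa T5.l0 T5.l0))
  (TrL.c (I.pos (nat_lit 0) (nat_lit 0)) (xa T0.l6 T0.l6)
  (TrL.c (I.pos (nat_lit 0) (nat_lit 111196574)) T5.l9
  (TrL.c (I.pos (nat_lit 0) (nat_lit 77433728)) T0.l7
  (TrL.c (I.pos (nat_lit 0) (nat_lit 0)) (xa T0.l8 T0.l8)
  (TrL.c (I.pos (nat_lit 0) (nat_lit 0)) T5.l6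
  (TrL.c (I.mix (nat_lit 29511666) (nat_lit 77433728)) T0.l9
  (TrL.c (I.mix (nat_lit 29511666) (nat_lit 46070178)) T5.l7
  TrL.n)))))))) (by decide +kernel)
theorem bx3_5 : BoxOK sI cl7 cl13 cl5 t5 t0 b3_5 :=
  box_mk (TrL.c (I.pos (nat_lit 0) (nat_lit 0)) T5.l0
  (TrL.c (I.pos (nat_lit 0) (nat_lit 0)) T0.l6
  (TrL.c (I.pos (nat_lit 0) (nat_lit 111196574)) (xR T5.l9 T5.l9)
  (TrL.c (I.pos (nat_lit 0) (nat_lit 77433728)) T0.l7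
  (TrL.c (I.pos (nat_lit 0) (nat_lit 0)) T0.l8
  (TrL.c (I.pos (nat_lit 0) (nat_lit 0)) T5.l6
  (TrL.c (I.mix (nat_lit 29511666) (nat_lit 77433728)) (xR T0.l9 T0.l9)
  (TrL.c (I.mix (nat_lit 29511666) (nat_lit 46070178)) T5.l7
  TrL.n)))))))) (by decide +kernel)
theorem bx3_6 : BoxOK sI cl7 cl13 cl5 t5 t0 b3_6 :=
  box_mk (TrL.c (I.pos (nat_lit 0) (nat_lit 0)) T5.l0
  (TrL.c (I.pos (nat_lit 0) (nat_lit 0)) T0.l6
  (TrL.c (I.pos (nat_lit 0) (nat_lit 111196574)) T5.l9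
  (TrL.c (I.pos (nat_lit 0) (nat_lit 77433728)) T0.l7
  (TrL.c (I.pos (nat_lit 0) (nat_lit 0)) (xa T0.l8 T0.l8)
  (TrL.c (I.pos (nat_lit 0) (nat_lit 0)) T5.l6
  (TrL.c (I.mix (nat_lit 29511666) (nat_lit 77433728)) T0.l9
  (TrL.c (I.mix (nat_lit 29511666) (nat_lit 46070178)) T5.l7
  TrL.n)))))))) (by decide +kernel)
theorem bx3_7 : BoxOK sI cl7 cl13 cl5 t5 t0 b3_7 :=
  box_mk (TrL.c (I.pos (nat_lit 0) (nat_lit 0)) (xa T5.l0 T5.l0)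
  (TrL.c (I.pos (nat_lit 0) (nat_lit 0)) T0.l6
  (TrL.c (I.pos (nat_lit 0) (nat_lit 111196574)) T5.l9
  (TrL.c (I.pos (nat_lit 0) (nat_lit 77433728)) T0.l7
  (TrL.c (I.pos (nat_lit 0) (nat_lit 0)) T0.l8
  (TrL.c (I.pos (nat_lit 0) (nat_lit 0)) T5.l6
  (TrL.c (I.mix (nat_lit 29511666) (nat_lit 77433728)) T0.l9
  (TrL.c (I.mix (nat_lit 29511666) (nat_lit 46070178)) T5.l7
  TrL.n)))))))) (by decide +kernel)
theorem bx3_8 : BoxOK sI cl7 cl13 cl5 t5 t0 b3_8 :=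
  box_mk (TrL.c (I.pos (nat_lit 0) (nat_lit 0)) T5.l0
  (TrL.c (I.pos (nat_lit 0) (nat_lit 0)) T0.l6
  (TrL.c (I.pos (nat_lit 0) (nat_lit 111196574)) (xR T5.l9 T5.l9)
  (TrL.c (I.pos (nat_lit 0) (nat_lit 77433728)) T0.l7
  (TrL.c (I.pos (nat_lit 0) (nat_lit 0)) T0.l8
  (TrL.c (I.pos (nat_lit 0) (nat_lit 0)) T5.l6
  (TrL.c (I.mix (nat_lit 29511666) (nat_lit 77433728)) (xR T0.l9 T0.l9)
  (TrL.c (I.mix (nat_lit 29511666) (nat_lit 46070178)) T5.l7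
  TrL.n)))))))) (by decide +kernel)
theorem bx3_9 : BoxOK sI cl7 cl13 cl5 t5 t0 b3_9 :=
  box_mk (TrL.c (I.pos (nat_lit 0) (nat_lit 0)) (xa (xa (xa (xb T5.l0 T5.l0) T5.l0) T5.l0) T5.l0)
  (TrL.c (I.pos (nat_lit 0) (nat_lit 0)) (xa T0.l6 T0.l6)
  (TrL.c (I.pos (nat_lit 0) (nat_lit 111196574)) T5.l9
  (TrL.c (I.pos (nat_lit 0) (nat_lit 77433728)) (xR T0.l7 T0.l7)
  (TrL.c (I.pos (nat_lit 0) (nat_lit 0)) (xa T0.l6 T0.l8)
  (TrL.c (I.pos (nat_lit 0) (nat_lit 0)) T5.l6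
  (TrL.c (I.mix (nat_lit 29511666) (nat_lit 77433728)) T0.l9
  (TrL.c (I.mix (nat_lit 29511666) (nat_lit 46070178)) T5.l7
  TrL.n)))))))) (by decide +kernel)
theorem sv3 : StarV sI cl7 cl13 cl5 t5 t0 t3 :=
  (bt_n (bt_n (bt_n (bt_b bx3_0) (bt_b bx3_1)) (bt_n (bt_b bx3_2) (bt_n (bt_b bx3_3) (bt_b bx3_4)))) (bt_n (bt_n (bt_b bx3_5) (bt_b bx3_6)) (bt_n (bt_b bx3_7) (bt_n (bt_b bx3_8) (bt_b bx3_9)))))
def S3 : StarD := StarD.mk cl7 cl13 cl5 5 0 t3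
theorem bx4_0 : BoxOK sI cl13 cl5 cl7 t1 t3 b4_0 :=
  box_mk (TrL.c (I.pos (nat_lit 0) (nat_lit 0)) (xa (xa (xb T1.l0 T1.l0) (xb T1.l0 T1.l0)) (xa (xb T1.l0 T1.l0) T1.l8))
  (TrL.c (I.pos (nat_lit 0) (nat_lit 0)) T3.l1
  (TrL.c (I.pos (nat_lit 0) (nat_lit 134217730)) (xR T1.l1 T1.l9)
  (TrL.c (I.pos (nat_lit 0) (nat_lit 110514882)) (xR T3.l2 T3.l2)
  (TrL.c (I.pos (nat_lit 0) (nat_lit 0)) (xa (xa T3.l3 (xb T3.l3 T3.l3)) (xa (xk (xb T3.l3 T3.l3) (xb T3.l3 T3.l3)) (xk (xb (xa T3.l3 (xs T3.l3 T3.l3)) (xs (xa T3.l3 T3.l3) (xa T3.l3 T3.l3))) (xb (xa T3.l3 (xs T3.l3 T3.l3)) (xs (xa T3.l3 T3.l3) (xa T3.l3 T3.l3))))))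
  (TrL.c (I.pos (nat_lit 0) (nat_lit 0)) T1.l2
  (TrL.c (I.mix (nat_lit 8088324) (nat_lit 110514882)) (xR T3.l4 T3.l4)
  (TrL.c (I.mix (nat_lit 8088324) (nat_lit 89478486)) (xR T1.l3 T1.l3)
  TrL.n)))))))) (by decide +kernel)
theorem bx4_1 : BoxOK sI cl13 cl5 cl7 t1 t3 b4_1 :=
  box_mk (TrL.c (I.pos (nat_lit 0) (nat_lit 0)) T1.l0
  (TrL.c (I.pos (nat_lit 0) (nat_lit 0)) T3.l1
  (TrL.c (I.pos (nat_lit 0) (nat_lit 134217730)) T1.l9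
  (TrL.c (I.pos (nat_lit 0) (nat_lit 110514882)) (xR T3.l2 T3.l2)
  (TrL.c (I.pos (nat_lit 0) (nat_lit 0)) T3.l3
  (TrL.c (I.pos (nat_lit 0) (nat_lit 0)) T1.l2
  (TrL.c (I.mix (nat_lit 8088324) (nat_lit 110514882)) T3.l4
  (TrL.c (I.mix (nat_lit 8088324) (nat_lit 89478486)) T1.l3
  TrL.n)))))))) (by decide +kernel)
theorem bx4_2 : BoxOK sI cl13 cl5 cl7 t1 t3 b4_2 :=
  box_mk (TrL.c (I.pos (nat_lit 0) (nat_lit 0)) T3.l5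
  (TrL.c (I.pos (nat_lit 0) (nat_lit 0)) T1.l1
  (TrL.c (I.mix (nat_lit 8088324) (nat_lit 110514882)) (xR T3.l6 T3.l2)
  (TrL.c (I.mix (nat_lit 8088324) (nat_lit 89478486)) T1.l1
  TrL.n)))) (by decide +kernel)
theorem bx4_3 : BoxOK sI cl13 cl5 cl7 t1 t3 b4_3 :=
  box_mk (TrL.c (I.pos (nat_lit 0) (nat_lit 0)) (xa (xb T1.l0 (xa T1.l0 T1.l0)) (xb T1.l0 (xs T1.l0 T1.l0)))
  (TrL.c (I.pos (nat_lit 0) (nat_lit 0)) T3.l1
  (TrL.c (I.pos (nat_lit 0) (nat_lit 134217730)) (xR T1.l1 T1.l9)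
  (TrL.c (I.pos (nat_lit 0) (nat_lit 110514882)) (xR T3.l2 T3.l2)
  (TrL.c (I.pos (nat_lit 0) (nat_lit 0)) (xb (xa T3.l3 T3.l3) T3.l3)
  (TrL.c (I.pos (nat_lit 0) (nat_lit 0)) T1.l2
  (TrL.c (I.mix (nat_lit 8088324) (nat_lit 110514882)) T3.l4
  (TrL.c (I.mix (nat_lit 8088324) (nat_lit 89478486)) T1.l7
  TrL.n)))))))) (by decide +kernel)
theorem bx4_4 : BoxOK sI cl13 cl5 cl7 t1 t3 b4_4 :=
  box_mk (TrL.c (I.pos (nat_lit 0) (nat_lit 0)) T1.l0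
  (TrL.c (I.pos (nat_lit 0) (nat_lit 0)) T3.l5
  (TrL.c (I.pos (nat_lit 0) (nat_lit 134217730)) T1.l1
  (TrL.c (I.pos (nat_lit 0) (nat_lit 110514882)) (xR T3.l2 T3.l2)
  (TrL.c (I.pos (nat_lit 0) (nat_lit 0)) T3.l3
  (TrL.c (I.pos (nat_lit 0) (nat_lit 0)) T1.l2
  (TrL.c (I.mix (nat_lit 8088324) (nat_lit 110514882)) T3.l4
  (TrL.c (I.mix (nat_lit 8088324) (nat_lit 89478486)) T1.l3
  TrL.n)))))))) (by decide +kernel)
theorem bx4_5 : BoxOK sI cl13 cl5 cl7 t1 t3 b4_5 :=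
  box_mk (TrL.c (I.pos (nat_lit 0) (nat_lit 0)) T1.l0
  (TrL.c (I.pos (nat_lit 0) (nat_lit 0)) T3.l1
  (TrL.c (I.pos (nat_lit 0) (nat_lit 134217730)) T1.l1
  (TrL.c (I.pos (nat_lit 0) (nat_lit 110514882)) T3.l2
  (TrL.c (I.pos (nat_lit 0) (nat_lit 0)) T3.l3
  (TrL.c (I.pos (nat_lit 0) (nat_lit 0)) T1.l2
  (TrL.c (I.mix (nat_lit 8088324) (nat_lit 110514882)) T3.l4
  (TrL.c (I.mix (nat_lit 8088324) (nat_lit 89478486)) T1.l3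
  TrL.n)))))))) (by decide +kernel)
theorem bx4_6 : BoxOK sI cl13 cl5 cl7 t1 t3 b4_6 :=
  box_mk (TrL.c (I.pos (nat_lit 0) (nat_lit 0)) T1.l0
  (TrL.c (I.pos (nat_lit 0) (nat_lit 0)) T3.l1
  (TrL.c (I.pos (nat_lit 0) (nat_lit 134217730)) T1.l9
  (TrL.c (I.pos (nat_lit 0) (nat_lit 110514882)) (xR T3.l2 T3.l2)
  (TrL.c (I.pos (nat_lit 0) (nat_lit 0)) T3.l3
  (TrL.c (I.pos (nat_lit 0) (nat_lit 0)) T1.l2
  (TrL.c (I.mix (nat_lit 8088324) (nat_lit 110514882)) T3.l4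
  (TrL.c (I.mix (nat_lit 8088324) (nat_lit 89478486)) T1.l3
  TrL.n)))))))) (by decide +kernel)
theorem bx4_7 : BoxOK sI cl13 cl5 cl7 t1 t3 b4_7 :=
  box_mk (TrL.c (I.pos (nat_lit 0) (nat_lit 0)) T3.l1
  (TrL.c (I.pos (nat_lit 0) (nat_lit 0)) T1.l1
  (TrL.c (I.mix (nat_lit 8088324) (nat_lit 110514882)) (xR T3.l6 T3.l2)
  (TrL.c (I.mix (nat_lit 8088324) (nat_lit 89478486)) T1.l1
  TrL.n)))) (by decide +kernel)
theorem sv4 : StarV sI cl13 cl5 cl7 t1 t3 t4 :=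
  (bt_n (bt_n (bt_n (bt_b bx4_0) (bt_b bx4_1)) (bt_n (bt_b bx4_2) (bt_b bx4_3))) (bt_n (bt_n (bt_b bx4_4) (bt_b bx4_5)) (bt_n (bt_b bx4_6) (bt_b bx4_7))))
def S4 : StarD := StarD.mk cl13 cl5 cl7 1 3 t4
theorem bx5_0 : BoxOK sI cl13 cl7 cl5 t3 t1 b5_0 :=
  box_mk (TrL.c (I.pos (nat_lit 0) (nat_lit 0)) (xa (xa (xb T3.l0 T3.l0) (xb T3.l0 T3.l0)) (xa (xb T3.l0 T3.l0) (xb T3.l0 T3.l0)))
  (TrL.c (I.pos (nat_lit 0) (nat_lit 0)) T1.l6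
  (TrL.c (I.pos (nat_lit 0) (nat_lit 134217730)) (xR T3.l4 T3.l4)
  (TrL.c (I.pos (nat_lit 0) (nat_lit 110514882)) (xR T1.l7 T1.l7)
  (TrL.c (I.pos (nat_lit 0) (nat_lit 0)) (xa (xa T1.l8 (xb T1.l8 T1.l8)) (xa (xb (xk T1.l8 T1.l8) T1.l8) (xk (xb (xa T1.l8 (xk T1.l8 T1.l8)) (xk (xa T1.l8 T1.l8) (xa T1.l8 T1.l8))) (xb (xa T1.l8 (xb T1.l8 T1.l8)) (xk (xa T1.l8 T1.l8) (xa T1.l8 T1.l8))))))
  (TrL.c (I.pos (nat_lit 0) (nat_lit 0)) T3.l8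
  (TrL.c (I.mix (nat_lit 8088324) (nat_lit 110514882)) (xR T1.l9 T1.l9)
  (TrL.c (I.mix (nat_lit 8088324) (nat_lit 89478486)) (xR T3.l9 T3.l9)
  TrL.n)))))))) (by decide +kernel)
theorem bx5_1 : BoxOK sI cl13 cl7 cl5 t3 t1 b5_1 :=
  box_mk (TrL.c (I.pos (nat_lit 0) (nat_lit 0)) T3.l0
  (TrL.c (I.pos (nat_lit 0) (nat_lit 0)) T1.l6
  (TrL.c (I.pos (nat_lit 0) (nat_lit 134217730)) (xR T3.l4 T3.l7)
  (TrL.c (I.pos (nat_lit 0) (nat_lit 110514882)) (xR T1.l7 T1.l7)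
  (TrL.c (I.pos (nat_lit 0) (nat_lit 0)) T1.l8
  (TrL.c (I.pos (nat_lit 0) (nat_lit 0)) T3.l8
  (TrL.c (I.mix (nat_lit 8088324) (nat_lit 110514882)) T1.l9
  (TrL.c (I.mix (nat_lit 8088324) (nat_lit 89478486)) T3.l9
  TrL.n)))))))) (by decide +kernel)
theorem bx5_2 : BoxOK sI cl13 cl7 cl5 t3 t1 b5_2 :=
  box_mk (TrL.c (I.pos (nat_lit 0) (nat_lit 0)) T3.l0
  (TrL.c (I.pos (nat_lit 0) (nat_lit 0)) T1.l6
  (TrL.c (I.pos (nat_lit 0) (nat_lit 134217730)) T3.l4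
  (TrL.c (I.pos (nat_lit 0) (nat_lit 110514882)) T1.l7
  (TrL.c (I.pos (nat_lit 0) (nat_lit 0)) T1.l8
  (TrL.c (I.pos (nat_lit 0) (nat_lit 0)) T3.l8
  (TrL.c (I.mix (nat_lit 8088324) (nat_lit 110514882)) T1.l9
  (TrL.c (I.mix (nat_lit 8088324) (nat_lit 89478486)) T3.l9
  TrL.n)))))))) (by decide +kernel)
theorem bx5_3 : BoxOK sI cl13 cl7 cl5 t3 t1 b5_3 :=
  box_mk (TrL.c (I.pos (nat_lit 0) (nat_lit 0)) (xb (xa T3.l0 T3.l0) (xa (xs T3.l0 (xb T3.l0 T3.l0)) (xs T3.l0 T3.l0)))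
  (TrL.c (I.pos (nat_lit 0) (nat_lit 0)) T1.l6
  (TrL.c (I.pos (nat_lit 0) (nat_lit 134217730)) (xR T3.l4 T3.l7)
  (TrL.c (I.pos (nat_lit 0) (nat_lit 110514882)) (xR T1.l7 T1.l7)
  (TrL.c (I.pos (nat_lit 0) (nat_lit 0)) (xb (xa T1.l8 (xk T1.l8 T1.l8)) (xa T1.l8 T1.l8))
  (TrL.c (I.pos (nat_lit 0) (nat_lit 0)) T3.l8
  (TrL.c (I.mix (nat_lit 8088324) (nat_lit 110514882)) (xR T1.l9 T1.l9)
  (TrL.c (I.mix (nat_lit 8088324) (nat_lit 89478486)) (xR T3.l9 T3.l9)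
  TrL.n)))))))) (by decide +kernel)
theorem bx5_4 : BoxOK sI cl13 cl7 cl5 t3 t1 b5_4 :=
  box_mk (TrL.c (I.pos (nat_lit 0) (nat_lit 0)) (xa T3.l0 T3.l0)
  (TrL.c (I.pos (nat_lit 0) (nat_lit 0)) T1.l6
  (TrL.c (I.pos (nat_lit 0) (nat_lit 134217730)) (xR T3.l4 T3.l7)
  (TrL.c (I.pos (nat_lit 0) (nat_lit 110514882)) T1.l7
  (TrL.c (I.pos (nat_lit 0) (nat_lit 0)) (xa T1.l8 T1.l8)
  (TrL.c (I.pos (nat_lit 0) (nat_lit 0)) T3.l8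
  (TrL.c (I.mix (nat_lit 8088324) (nat_lit 110514882)) T1.l9
  (TrL.c (I.mix (nat_lit 8088324) (nat_lit 89478486)) T3.l9
  TrL.n)))))))) (by decide +kernel)
theorem bx5_5 : BoxOK sI cl13 cl7 cl5 t3 t1 b5_5 :=
  box_mk (TrL.c (I.pos (nat_lit 0) (nat_lit 0)) T3.l0
  (TrL.c (I.pos (nat_lit 0) (nat_lit 0)) T1.l6
  (TrL.c (I.pos (nat_lit 0) (nat_lit 134217730)) (xR T3.l4 T3.l7)
  (TrL.c (I.pos (nat_lit 0) (nat_lit 110514882)) T1.l7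
  (TrL.c (I.pos (nat_lit 0) (nat_lit 0)) (xa T1.l8 T1.l8)
  (TrL.c (I.pos (nat_lit 0) (nat_lit 0)) T3.l8
  (TrL.c (I.mix (nat_lit 8088324) (nat_lit 110514882)) T1.l9
  (TrL.c (I.mix (nat_lit 8088324) (nat_lit 89478486)) T3.l9
  TrL.n)))))))) (by decide +kernel)
theorem bx5_6 : BoxOK sI cl13 cl7 cl5 t3 t1 b5_6 :=
  box_mk (TrL.c (I.pos (nat_lit 0) (nat_lit 0)) T3.l0
  (TrL.c (I.pos (nat_lit 0) (nat_lit 0)) T1.l6
  (TrL.c (I.pos (nat_lit 0) (nat_lit 134217730)) (xR T3.l4 T3.l7)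
  (TrL.c (I.pos (nat_lit 0) (nat_lit 110514882)) (xR T1.l7 T1.l7)
  (TrL.c (I.pos (nat_lit 0) (nat_lit 0)) T1.l8
  (TrL.c (I.pos (nat_lit 0) (nat_lit 0)) T3.l8
  (TrL.c (I.mix (nat_lit 8088324) (nat_lit 110514882)) T1.l9
  (TrL.c (I.mix (nat_lit 8088324) (nat_lit 89478486)) T3.l9
  TrL.n)))))))) (by decide +kernel)
theorem bx5_7 : BoxOK sI cl13 cl7 cl5 t3 t1 b5_7 :=
  box_mk (TrL.c (I.pos (nat_lit 0) (nat_lit 0)) (xa (xa T3.l0 T3.l0) T3.l0)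
  (TrL.c (I.pos (nat_lit 0) (nat_lit 0)) T1.l6
  (TrL.c (I.pos (nat_lit 0) (nat_lit 134217730)) (xR T3.l2 T3.l7)
  (TrL.c (I.pos (nat_lit 0) (nat_lit 110514882)) T1.l7
  (TrL.c (I.pos (nat_lit 0) (nat_lit 0)) T1.l8
  (TrL.c (I.pos (nat_lit 0) (nat_lit 0)) T3.l8
  (TrL.c (I.mix (nat_lit 8088324) (nat_lit 110514882)) T1.l9
  (TrL.c (I.mix (nat_lit 8088324) (nat_lit 89478486)) T3.l9
  TrL.n)))))))) (by decide +kernel)
theorem bx5_8 : BoxOK sI cl13 cl7 cl5 t3 t1 b5_8 :=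
  box_mk (TrL.c (I.pos (nat_lit 0) (nat_lit 0)) T3.l0
  (TrL.c (I.pos (nat_lit 0) (nat_lit 0)) T1.l6
  (TrL.c (I.pos (nat_lit 0) (nat_lit 134217730)) (xR T3.l4 T3.l7)
  (TrL.c (I.pos (nat_lit 0) (nat_lit 110514882)) (xR T1.l7 T1.l7)
  (TrL.c (I.pos (nat_lit 0) (nat_lit 0)) T1.l8
  (TrL.c (I.pos (nat_lit 0) (nat_lit 0)) T3.l8
  (TrL.c (I.mix (nat_lit 8088324) (nat_lit 110514882)) T1.l9
  (TrL.c (I.mix (nat_lit 8088324) (nat_lit 89478486)) T3.l9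
  TrL.n)))))))) (by decide +kernel)
theorem bx5_9 : BoxOK sI cl13 cl7 cl5 t3 t1 b5_9 :=
  box_mk (TrL.c (I.pos (nat_lit 0) (nat_lit 0)) (xa T3.l0 T3.l0)
  (TrL.c (I.pos (nat_lit 0) (nat_lit 0)) T1.l6
  (TrL.c (I.pos (nat_lit 0) (nat_lit 134217730)) (xR T3.l4 T3.l7)
  (TrL.c (I.pos (nat_lit 0) (nat_lit 110514882)) T1.l7
  (TrL.c (I.pos (nat_lit 0) (nat_lit 0)) T1.l8
  (TrL.c (I.pos (nat_lit 0) (nat_lit 0)) T3.l8
  (TrL.c (I.mix (nat_lit 8088324) (nat_lit 110514882)) T1.l9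
  (TrL.c (I.mix (nat_lit 8088324) (nat_lit 89478486)) T3.l9
  TrL.n)))))))) (by decide +kernel)
theorem sv5 : StarV sI cl13 cl7 cl5 t3 t1 t5 :=
  (bt_n (bt_n (bt_n (bt_b bx5_0) (bt_b bx5_1)) (bt_n (bt_b bx5_2) (bt_n (bt_b bx5_3) (bt_b bx5_4)))) (bt_n (bt_n (bt_b bx5_5) (bt_b bx5_6)) (bt_n (bt_b bx5_7) (bt_n (bt_b bx5_8) (bt_b bx5_9)))))
def S5 : StarD := StarD.mk cl13 cl7 cl5 3 1 t5
def G : List StarD := [S0, S1, S2, S3, S4, S5]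
theorem so0 : StarOK sI G S0 :=
  star_mk (by decide) (by decide) rfl rfl rfl rfl rfl rfl (rfl : _ = t2) (rfl : _ = t4)
  (st_mk (Pth.l (Pth.l (Pth.l Pth.z))) (nat_lit 141874288) (nat_lit 164772163) (by decide +kernel))
  (st_mk (Pth.l (Pth.l (Pth.l Pth.z))) (nat_lit 177821916) (nat_lit 201263408) (by decide +kernel))
  (st_mk (Pth.l (Pth.l (Pth.l Pth.z))) (nat_lit 219600821) (nat_lit 243794512) (by decide +kernel)) sv0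
theorem so1 : StarOK sI G S1 :=
  star_mk (by decide) (by decide) rfl rfl rfl rfl rfl rfl (rfl : _ = t4) (rfl : _ = t2)
  (st_mk (Pth.l (Pth.l (Pth.l Pth.z))) (nat_lit 96853328) (nat_lit 115750416) (by decide +kernel))
  (st_mk (Pth.l (Pth.l (Pth.l Pth.z))) (nat_lit 132635964) (nat_lit 152026763) (by decide +kernel))
  (st_mk (Pth.l (Pth.l (Pth.l Pth.z))) (nat_lit 174277839) (nat_lit 194378752) (by decide +kernel)) sv1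
theorem so2 : StarOK sI G S2 :=
  star_mk (by decide) (by decide) rfl rfl rfl rfl rfl rfl (rfl : _ = t0) (rfl : _ = t5)
  (st_mk (Pth.l (Pth.l (Pth.l Pth.z))) (nat_lit 239746353) (nat_lit 241708351) (by decide +kernel))
  (st_mk (Pth.l (Pth.l (Pth.l Pth.z))) (nat_lit 275176721) (nat_lit 277596208) (by decide +kernel))
  (st_mk (Pth.l (Pth.l (Pth.l Pth.z))) (nat_lit 316150811) (nat_lit 319181683) (by decide +kernel)) sv2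
theorem so3 : StarOK sI G S3 :=
  star_mk (by decide) (by decide) rfl rfl rfl rfl rfl rfl (rfl : _ = t5) (rfl : _ = t0)
  (st_mk (Pth.l (Pth.l (Pth.l Pth.z))) (nat_lit 96259249) (nat_lit 114879048) (by decide +kernel))
  (st_mk (Pth.l (Pth.l (Pth.l Pth.z))) (nat_lit 131523159) (nat_lit 150509926) (by decide +kernel))
  (st_mk (Pth.l (Pth.l (Pth.l Pth.z))) (nat_lit 172354850) (nat_lit 191876551) (by decide +kernel)) sv3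
theorem so4 : StarOK sI G S4 :=
  star_mk (by decide) (by decide) rfl rfl rfl rfl rfl rfl (rfl : _ = t1) (rfl : _ = t3)
  (st_mk (Pth.l (Pth.l (Pth.l Pth.z))) (nat_lit 238062708) (nat_lit 239552766) (by decide +kernel))
  (st_mk (Pth.l (Pth.l (Pth.l Pth.z))) (nat_lit 272959317) (nat_lit 274748803) (by decide +kernel))
  (st_mk (Pth.l (Pth.l (Pth.l Pth.z))) (nat_lit 313224636) (nat_lit 315411130) (by decide +kernel)) sv4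
theorem so5 : StarOK sI G S5 :=
  star_mk (by decide) (by decide) rfl rfl rfl rfl rfl rfl (rfl : _ = t3) (rfl : _ = t1)
  (st_mk (Pth.l (Pth.l (Pth.l Pth.z))) (nat_lit 141873768) (nat_lit 160233539) (by decide +kernel))
  (st_mk (Pth.l (Pth.l (Pth.l Pth.z))) (nat_lit 174891329) (nat_lit 197265577) (by decide +kernel))
  (st_mk (Pth.l (Pth.l (Pth.l Pth.z))) (nat_lit 215156648) (nat_lit 237890608) (by decide +kernel)) sv5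
theorem ok : GroupOK (nat_lit 0) (nat_lit 91291648) G := grp_mk (allS_c so0 (allS_c so1 (allS_c so2 (allS_c so3 (allS_c so4 (allS_c so5 allS_n))))))
theorem cov : GCov G cl5 cl7 cl13 := cov_mk
  ⟨0, by decide, rfl, rfl, rfl⟩ ⟨1, by decide, rfl, rfl, rfl⟩ ⟨2, by decide, rfl, rfl, rfl⟩ ⟨3, by decide, rfl, rfl, rfl⟩ ⟨4, by decide, rfl, rfl, rfl⟩ ⟨5, by decide, rfl, rfl, rfl⟩
end Q246_0

namespace Q246_1
def sI : I := I.pos (nat_lit 91226112) (nat_lit 150339584)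
def b0_0 : Bx := Bx.mk (St.mk (I.pos (nat_lit 156041216) (nat_lit 240238592)) (I.mix (nat_lit 3932160) (nat_lit 64798720)) (I.mix (nat_lit 4800512) (nat_lit 80068608)) (I.pos (nat_lit 136953856) (nat_lit 276381696)) (I.mix (nat_lit 90275840) (nat_lit 48562176)) (I.mix (nat_lit 64012288) (nat_lit 47693824)) (I.mix (nat_lit 79691776) (nat_lit 68517888)))
  false (nat_lit 0)
def b0_1 : Bx := Bx.mk (St.mk (I.mix (nat_lit 28983296) (nat_lit 121995264)) (I.mix (nat_lit 3850240) (nat_lit 35291136)) (I.mix (nat_lit 20987904) (nat_lit 12337152)) (I.pos (nat_lit 36569088) (nat_lit 116457472)) (I.mix (nat_lit 27869184) (nat_lit 31965184)) (I.mix (nat_lit 26394624) (nat_lit 20758528)) (I.mix (nat_lit 20054016) (nat_lit 12386304)))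
  false (nat_lit 0)
def b0_2 : Bx := Bx.mk (St.mk (I.pos (nat_lit 95010816) (nat_lit 142163968)) (I.mix (nat_lit 57622528) (nat_lit 5570560)) (I.neg (nat_lit 6078464) (nat_lit 68960256)) (I.pos (nat_lit 78004224) (nat_lit 138493952)) (I.mix (nat_lit 82673664) (nat_lit 25559040)) (I.mix (nat_lit 32931840) (nat_lit 68861952)) (I.mix (nat_lit 22708224) (nat_lit 56688640)))
  false (nat_lit 0)
def b0_3 : Bx := Bx.mk (St.mk (I.mix (nat_lit 38371328) (nat_lit 72564736)) (I.mix (nat_lit 30408704) (nat_lit 3178496)) (I.neg (nat_lit 1048576) (nat_lit 24248320)) (I.pos (nat_lit 39321600) (nat_lit 82460672)) (I.mix (nat_lit 32915456) (nat_lit 15138816)) (I.mix (nat_lit 15499264) (nat_lit 26132480)) (I.mix (nat_lit 8224768) (nat_lit 11370496)))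
  false (nat_lit 0)
def b0_4 : Bx := Bx.mk (St.mk (I.pos (nat_lit 202964992) (nat_lit 270925824)) (I.mix (nat_lit 7110656) (nat_lit 36470784)) (I.mix (nat_lit 64143360) (nat_lit 27525120)) (I.pos (nat_lit 222576640) (nat_lit 345014272)) (I.mix (nat_lit 65241088) (nat_lit 38387712)) (I.mix (nat_lit 47202304) (nat_lit 38928384)) (I.mix (nat_lit 67141632) (nat_lit 69730304)))
  false (nat_lit 0)
def b0_5 : Bx := Bx.mk (St.mk (I.mix (nat_lit 39993344) (nat_lit 53805056)) (I.mix (nat_lit 1998848) (nat_lit 8896512)) (I.neg (nat_lit 3227648) (nat_lit 14090240)) (I.pos (nat_lit 41893888) (nat_lit 74547200)) (I.mix (nat_lit 6537216) (nat_lit 10371072)) (I.mix (nat_lit 6750208) (nat_lit 5881856)) (I.mix (nat_lit 2867200) (nat_lit 3358720)))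
  false (nat_lit 0)
def b0_6 : Bx := Bx.mk (St.mk (I.pos (nat_lit 88162304) (nat_lit 173867008)) (I.mix (nat_lit 63471616) (nat_lit 3686400)) (I.neg (nat_lit 6651904) (nat_lit 72761344)) (I.pos (nat_lit 86441984) (nat_lit 176635904)) (I.mix (nat_lit 83591168) (nat_lit 42041344)) (I.mix (nat_lit 41680896) (nat_lit 65863680)) (I.mix (nat_lit 32276480) (nat_lit 64471040)))
  false (nat_lit 0)
def b0_7 : Bx := Bx.mk (St.mk (I.mix (nat_lit 31932416) (nat_lit 86310912)) (I.mix (nat_lit 34209792) (nat_lit 8486912)) (I.neg (nat_lit 376832) (nat_lit 28426240)) (I.pos (nat_lit 36454400) (nat_lit 91275264)) (I.mix (nat_lit 35422208) (nat_lit 24739840)) (I.mix (nat_lit 19546112) (nat_lit 32276480)) (I.mix (nat_lit 11026432) (nat_lit 18022400)))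
  false (nat_lit 0)
def b0_8 : Bx := Bx.mk (St.mk (I.pos (nat_lit 166576128) (nat_lit 223494144)) (I.mix (nat_lit 14303232) (nat_lit 66486272)) (I.mix (nat_lit 15859712) (nat_lit 81920000)) (I.pos (nat_lit 156565504) (nat_lit 251723776)) (I.mix (nat_lit 111820800) (nat_lit 37552128)) (I.mix (nat_lit 105267200) (nat_lit 59654144)) (I.mix (nat_lit 107888640) (nat_lit 60342272)))
  false (nat_lit 0)
def b0_9 : Bx := Bx.mk (St.mk (I.mix (nat_lit 40878080) (nat_lit 119095296)) (I.mix (nat_lit 15056896) (nat_lit 39698432)) (I.mix (nat_lit 18776064) (nat_lit 16924672)) (I.pos (nat_lit 37912576) (nat_lit 111575040)) (I.mix (nat_lit 38174720) (nat_lit 28459008)) (I.mix (nat_lit 43220992) (nat_lit 24887296)) (I.mix (nat_lit 23150592) (nat_lit 14237696)))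
  false (nat_lit 0)
def b0_10 : Bx := Bx.mk (St.mk (I.pos (nat_lit 96124928) (nat_lit 114262016)) (I.mix (nat_lit 2424832) (nat_lit 8798208)) (I.neg (nat_lit 5062656) (nat_lit 19890176)) (I.pos (nat_lit 79364096) (nat_lit 113541120)) (I.mix (nat_lit 8011776) (nat_lit 11141120)) (I.mix (nat_lit 7684096) (nat_lit 5439488)) (I.mix (nat_lit 6406144) (nat_lit 4833280)))
  false (nat_lit 0)
def b0_11 : Bx := Bx.mk (St.mk (I.pos (nat_lit 191397888) (nat_lit 240238592)) (I.pos (nat_lit 7028736) (nat_lit 62603264)) (I.mix (nat_lit 11239424) (nat_lit 75399168)) (I.pos (nat_lit 216334336) (nat_lit 275431424)) (I.mix (nat_lit 75120640) (nat_lit 53264384)) (I.mix (nat_lit 63602688) (nat_lit 44843008)) (I.mix (nat_lit 96714752) (nat_lit 56131584)))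
  false (nat_lit 0)
def b0_12 : Bx := Bx.mk (St.mk (I.pos (nat_lit 143212544) (nat_lit 211189760)) (I.mix (nat_lit 43794432) (nat_lit 22773760)) (I.mix (nat_lit 60751872) (nat_lit 23281664)) (I.pos (nat_lit 126484480) (nat_lit 228179968)) (I.mix (nat_lit 49725440) (nat_lit 44843008)) (I.mix (nat_lit 50757632) (nat_lit 43139072)) (I.mix (nat_lit 52658176) (nat_lit 42156032)))
  false (nat_lit 0)
def b0_13 : Bx := Bx.mk (St.mk (I.pos (nat_lit 170442752) (nat_lit 211156992)) (I.mix (nat_lit 13434880) (nat_lit 39878656)) (I.mix (nat_lit 18776064) (nat_lit 48431104)) (I.pos (nat_lit 164184064) (nat_lit 230424576)) (I.mix (nat_lit 92504064) (nat_lit 48037888)) (I.mix (nat_lit 109985792) (nat_lit 52297728)) (I.mix (nat_lit 118620160) (nat_lit 53133312)))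
  false (nat_lit 0)
def t0 : BTr := (BTr.n (BTr.n (BTr.n (BTr.b b0_0) (BTr.n (BTr.b b0_1) (BTr.b b0_2))) (BTr.n (BTr.n (BTr.b b0_3) (BTr.b b0_4)) (BTr.n (BTr.b b0_5) (BTr.b b0_6)))) (BTr.n (BTr.n (BTr.b b0_7) (BTr.n (BTr.b b0_8) (BTr.b b0_9))) (BTr.n (BTr.n (BTr.b b0_10) (BTr.b b0_11)) (BTr.n (BTr.b b0_12) (BTr.b b0_13)))))
namespace T0
def l0 : Tr := Tr.L (Pth.l (Pth.l (Pth.l Pth.z)))
def l1 : Tr := Tr.L (Pth.l (Pth.l (Pth.r (Pth.l Pth.z))))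
def l2 : Tr := Tr.L (Pth.l (Pth.l (Pth.r (Pth.r Pth.z))))
def l3 : Tr := Tr.L (Pth.l (Pth.r (Pth.l (Pth.l Pth.z))))
def l4 : Tr := Tr.L (Pth.l (Pth.r (Pth.l (Pth.r Pth.z))))
def l5 : Tr := Tr.L (Pth.l (Pth.r (Pth.r (Pth.l Pth.z))))
def l6 : Tr := Tr.L (Pth.l (Pth.r (Pth.r (Pth.r Pth.z))))
def l7 : Tr := Tr.L (Pth.r (Pth.l (Pth.l Pth.z)))
def l8 : Tr := Tr.L (Pth.r (Pth.l (Pth.r (Pth.l Pth.z))))
def l9 : Tr := Tr.L (Pth.r (Pth.l (Pth.r (Pth.r Pth.z))))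
def l10 : Tr := Tr.L (Pth.r (Pth.r (Pth.l (Pth.l Pth.z))))
def l11 : Tr := Tr.L (Pth.r (Pth.r (Pth.l (Pth.r Pth.z))))
def l12 : Tr := Tr.L (Pth.r (Pth.r (Pth.r (Pth.l Pth.z))))
def l13 : Tr := Tr.L (Pth.r (Pth.r (Pth.r (Pth.r Pth.z))))
end T0
def b1_0 : Bx := Bx.mk (St.mk (I.pos (nat_lit 155860992) (nat_lit 243400704)) (I.mix (nat_lit 3276800) (nat_lit 53248000)) (I.mix (nat_lit 5062656) (nat_lit 84918272)) (I.pos (nat_lit 89587712) (nat_lit 232079360)) (I.mix (nat_lit 87080960) (nat_lit 47579136)) (I.mix (nat_lit 63094784) (nat_lit 50069504)) (I.mix (nat_lit 88408064) (nat_lit 66928640)))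
  false (nat_lit 0)
def b1_1 : Bx := Bx.mk (St.mk (I.mix (nat_lit 19824640) (nat_lit 148373504)) (I.mix (nat_lit 3096576) (nat_lit 25804800)) (I.mix (nat_lit 10174464) (nat_lit 19595264)) (I.mix (nat_lit 5734400) (nat_lit 91553792)) (I.mix (nat_lit 25378816) (nat_lit 22429696)) (I.mix (nat_lit 21413888) (nat_lit 16384000)) (I.mix (nat_lit 18350080) (nat_lit 13074432)))
  false (nat_lit 0)
def b1_2 : Bx := Bx.mk (St.mk (I.pos (nat_lit 118652928) (nat_lit 160137216)) (I.mix (nat_lit 49397760) (nat_lit 4964352)) (I.mix (nat_lit 58179584) (nat_lit 1392640)) (I.pos (nat_lit 52772864) (nat_lit 112574464)) (I.mix (nat_lit 78413824) (nat_lit 23166976)) (I.mix (nat_lit 29392896) (nat_lit 72024064)) (I.mix (nat_lit 23592960) (nat_lit 67878912)))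
  false (nat_lit 0)
def b1_3 : Bx := Bx.mk (St.mk (I.mix (nat_lit 15433728) (nat_lit 111656960)) (I.mix (nat_lit 23511040) (nat_lit 1884160)) (I.mix (nat_lit 20496384) (nat_lit 1720320)) (I.mix (nat_lit 3964928) (nat_lit 60145664)) (I.mix (nat_lit 29442048) (nat_lit 10207232)) (I.mix (nat_lit 11960320) (nat_lit 23543808)) (I.mix (nat_lit 7159808) (nat_lit 15024128)))
  false (nat_lit 0)
def b1_4 : Bx := Bx.mk (St.mk (I.pos (nat_lit 205422592) (nat_lit 270450688)) (I.mix (nat_lit 7045120) (nat_lit 29949952)) (I.mix (nat_lit 35897344) (nat_lit 41713664)) (I.pos (nat_lit 180158464) (nat_lit 296550400)) (I.mix (nat_lit 62504960) (nat_lit 29392896)) (I.mix (nat_lit 40828928) (nat_lit 31031296)) (I.mix (nat_lit 62586880) (nat_lit 53395456)))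
  false (nat_lit 0)
def b1_5 : Bx := Bx.mk (St.mk (I.mix (nat_lit 12337152) (nat_lit 44302336)) (I.mix (nat_lit 671744) (nat_lit 2031616)) (I.mix (nat_lit 2637824) (nat_lit 704512)) (I.mix (nat_lit 1966080) (nat_lit 24870912)) (I.mix (nat_lit 868352) (nat_lit 1802240)) (I.mix (nat_lit 851968) (nat_lit 770048)) (I.mix (nat_lit 671744) (nat_lit 638976)))
  false (nat_lit 0)
def b1_6 : Bx := Bx.mk (St.mk (I.pos (nat_lit 111804416) (nat_lit 188481536)) (I.mix (nat_lit 54820864) (nat_lit 3227648)) (I.neg (nat_lit 851968) (nat_lit 63700992)) (I.pos (nat_lit 64143360) (nat_lit 149553152)) (I.mix (nat_lit 73760768) (nat_lit 39550976)) (I.mix (nat_lit 37928960) (nat_lit 59490304)) (I.mix (nat_lit 33357824) (nat_lit 63160320)))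
  false (nat_lit 0)
def b1_7 : Bx := Bx.mk (St.mk (I.mix (nat_lit 18333696) (nat_lit 122372096)) (I.mix (nat_lit 27557888) (nat_lit 7897088)) (I.mix (nat_lit 23134208) (nat_lit 1867776)) (I.mix (nat_lit 4489216) (nat_lit 69386240)) (I.mix (nat_lit 30081024) (nat_lit 23412736)) (I.mix (nat_lit 17711104) (nat_lit 26460160)) (I.mix (nat_lit 10272768) (nat_lit 19038208)))
  false (nat_lit 0)
def b1_8 : Bx := Bx.mk (St.mk (I.pos (nat_lit 174702592) (nat_lit 224264192)) (I.mix (nat_lit 17039360) (nat_lit 52789248)) (I.mix (nat_lit 9158656) (nat_lit 80543744)) (I.pos (nat_lit 119701504) (nat_lit 202784768)) (I.mix (nat_lit 106676224) (nat_lit 41189376)) (I.mix (nat_lit 106807296) (nat_lit 56967168)) (I.mix (nat_lit 126074880) (nat_lit 59260928)))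
  false (nat_lit 0)
def b1_9 : Bx := Bx.mk (St.mk (I.mix (nat_lit 19087360) (nat_lit 144441344)) (I.mix (nat_lit 15433728) (nat_lit 34521088)) (I.mix (nat_lit 15319040) (nat_lit 25313280)) (I.mix (nat_lit 5488640) (nat_lit 87031808)) (I.mix (nat_lit 42598400) (nat_lit 21856256)) (I.mix (nat_lit 39763968) (nat_lit 22020096)) (I.mix (nat_lit 28819456) (nat_lit 15089664)))
  false (nat_lit 0)
def b1_10 : Bx := Bx.mk (St.mk (I.pos (nat_lit 151240704) (nat_lit 215941120)) (I.mix (nat_lit 42876928) (nat_lit 14532608)) (I.mix (nat_lit 52264960) (nat_lit 23756800)) (I.pos (nat_lit 94928896) (nat_lit 187301888)) (I.mix (nat_lit 53592064) (nat_lit 44761088)) (I.mix (nat_lit 48168960) (nat_lit 40812544)) (I.mix (nat_lit 53477376) (nat_lit 43450368)))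
  false (nat_lit 0)
def b1_11 : Bx := Bx.mk (St.mk (I.pos (nat_lit 176340992) (nat_lit 217694208)) (I.mix (nat_lit 21839872) (nat_lit 31948800)) (I.mix (nat_lit 17645568) (nat_lit 50921472)) (I.pos (nat_lit 123961344) (nat_lit 191102976)) (I.mix (nat_lit 89735168) (nat_lit 46825472)) (I.mix (nat_lit 102989824) (nat_lit 51773440)) (I.mix (nat_lit 124092416) (nat_lit 57393152)))
  false (nat_lit 0)
def b1_12 : Bx := Bx.mk (St.mk (I.pos (nat_lit 119848960) (nat_lit 136429568)) (I.mix (nat_lit 2064384) (nat_lit 6897664)) (I.mix (nat_lit 9109504) (nat_lit 1867776)) (I.pos (nat_lit 54116352) (nat_lit 87654400)) (I.mix (nat_lit 5996544) (nat_lit 8470528)) (I.mix (nat_lit 5455872) (nat_lit 3588096)) (I.mix (nat_lit 5226496) (nat_lit 3014656)))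
  false (nat_lit 0)
def b1_13 : Bx := Bx.mk (St.mk (I.pos (nat_lit 195690496) (nat_lit 243924992)) (I.pos (nat_lit 4407296) (nat_lit 52674560)) (I.pos (nat_lit 3211264) (nat_lit 82919424)) (I.pos (nat_lit 174080000) (nat_lit 231276544)) (I.mix (nat_lit 75300864) (nat_lit 49758208)) (I.mix (nat_lit 66895872) (nat_lit 45940736)) (I.mix (nat_lit 105660416) (nat_lit 55361536)))
  false (nat_lit 0)
def t1 : BTr := (BTr.n (BTr.n (BTr.n (BTr.b b1_0) (BTr.n (BTr.b b1_1) (BTr.b b1_2))) (BTr.n (BTr.n (BTr.b b1_3) (BTr.b b1_4)) (BTr.n (BTr.b b1_5) (BTr.b b1_6)))) (BTr.n (BTr.n (BTr.b b1_7) (BTr.n (BTr.b b1_8) (BTr.b b1_9))) (BTr.n (BTr.n (BTr.b b1_10) (BTr.b b1_11)) (BTr.n (BTr.b b1_12) (BTr.b b1_13)))))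
namespace T1
def l0 : Tr := Tr.L (Pth.l (Pth.l (Pth.l Pth.z)))
def l1 : Tr := Tr.L (Pth.l (Pth.l (Pth.r (Pth.l Pth.z))))
def l2 : Tr := Tr.L (Pth.l (Pth.l (Pth.r (Pth.r Pth.z))))
def l3 : Tr := Tr.L (Pth.l (Pth.r (Pth.l (Pth.l Pth.z))))
def l4 : Tr := Tr.L (Pth.l (Pth.r (Pth.l (Pth.r Pth.z))))
def l5 : Tr := Tr.L (Pth.l (Pth.r (Pth.r (Pth.l Pth.z))))
def l6 : Tr := Tr.L (Pth.l (Pth.r (Pth.r (Pth.r Pth.z))))
def l7 : Tr := Tr.L (Pth.r (Pth.l (Pth.l Pth.z)))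
def l8 : Tr := Tr.L (Pth.r (Pth.l (Pth.r (Pth.l Pth.z))))
def l9 : Tr := Tr.L (Pth.r (Pth.l (Pth.r (Pth.r Pth.z))))
def l10 : Tr := Tr.L (Pth.r (Pth.r (Pth.l (Pth.l Pth.z))))
def l11 : Tr := Tr.L (Pth.r (Pth.r (Pth.l (Pth.r Pth.z))))
def l12 : Tr := Tr.L (Pth.r (Pth.r (Pth.r (Pth.l Pth.z))))
def l13 : Tr := Tr.L (Pth.r (Pth.r (Pth.r (Pth.r Pth.z))))
end T1
def b2_0 : Bx := Bx.mk (St.mk (I.pos (nat_lit 156499968) (nat_lit 231931904)) (I.mix (nat_lit 4702208) (nat_lit 78413824)) (I.mix (nat_lit 5668864) (nat_lit 95469568)) (I.pos (nat_lit 233996288) (nat_lit 342605824)) (I.mix (nat_lit 95109120) (nat_lit 59047936)) (I.mix (nat_lit 60735488) (nat_lit 51691520)) (I.mix (nat_lit 81772544) (nat_lit 70631424)))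
  false (nat_lit 42297733)
def b2_1 : Bx := Bx.mk (St.mk (I.pos (nat_lit 23314432) (nat_lit 74956800)) (I.mix (nat_lit 12533760) (nat_lit 47136768)) (I.mix (nat_lit 31539200) (nat_lit 1196032)) (I.pos (nat_lit 142884864) (nat_lit 163479552)) (I.mix (nat_lit 26836992) (nat_lit 42090496)) (I.mix (nat_lit 35356672) (nat_lit 21676032)) (I.mix (nat_lit 19611648) (nat_lit 11681792)))
  false (nat_lit 0)
def b2_2 : Bx := Bx.mk (St.mk (I.pos (nat_lit 49332224) (nat_lit 102236160)) (I.mix (nat_lit 63488000) (nat_lit 13778944)) (I.neg (nat_lit 12812288) (nat_lit 61390848)) (I.pos (nat_lit 147996672) (nat_lit 183238656)) (I.mix (nat_lit 74235904) (nat_lit 29327360)) (I.mix (nat_lit 29474816) (nat_lit 66600960)) (I.mix (nat_lit 20725760) (nat_lit 40468480)))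
  false (nat_lit 0)
def b2_3 : Bx := Bx.mk (St.mk (I.neg (nat_lit 23314432) (nat_lit 74956800)) (I.mix (nat_lit 47136768) (nat_lit 12533760)) (I.mix (nat_lit 31539200) (nat_lit 1196032)) (I.pos (nat_lit 142884864) (nat_lit 163479552)) (I.mix (nat_lit 42090496) (nat_lit 26836992)) (I.mix (nat_lit 21676032) (nat_lit 35356672)) (I.mix (nat_lit 19611648) (nat_lit 11698176)))
  true (nat_lit 0)
def b2_4 : Bx := Bx.mk (St.mk (I.pos (nat_lit 69500928) (nat_lit 152141824)) (I.neg (nat_lit 1900544) (nat_lit 74760192)) (I.neg (nat_lit 3538944) (nat_lit 72712192)) (I.pos (nat_lit 160481280) (nat_lit 230375424)) (I.mix (nat_lit 75661312) (nat_lit 40583168)) (I.mix (nat_lit 36093952) (nat_lit 59752448)) (I.mix (nat_lit 31227904) (nat_lit 51806208)))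
  false (nat_lit 0)
def b2_5 : Bx := Bx.mk (St.mk (I.mix (nat_lit 39682048) (nat_lit 7307264)) (I.mix (nat_lit 41304064) (nat_lit 8437760)) (I.neg (nat_lit 458752) (nat_lit 10420224)) (I.pos (nat_lit 140328960) (nat_lit 151568384)) (I.mix (nat_lit 25264128) (nat_lit 31703040)) (I.mix (nat_lit 19316736) (nat_lit 32653312)) (I.mix (nat_lit 4931584) (nat_lit 4964352)))
  true (nat_lit 0)
def b2_6 : Bx := Bx.mk (St.mk (I.pos (nat_lit 153255936) (nat_lit 204652544)) (I.pos (nat_lit 606208) (nat_lit 68255744)) (I.pos (nat_lit 4833280) (nat_lit 86425600)) (I.pos (nat_lit 237109248) (nat_lit 303562752)) (I.mix (nat_lit 106889216) (nat_lit 31064064)) (I.mix (nat_lit 99549184) (nat_lit 51150848)) (I.mix (nat_lit 94912512) (nat_lit 53886976)))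
  false (nat_lit 16668131)
def b2_7 : Bx := Bx.mk (St.mk (I.mix (nat_lit 7307264) (nat_lit 39682048)) (I.mix (nat_lit 8437760) (nat_lit 41304064)) (I.neg (nat_lit 458752) (nat_lit 10420224)) (I.pos (nat_lit 140328960) (nat_lit 151568384)) (I.mix (nat_lit 31703040) (nat_lit 25264128)) (I.mix (nat_lit 32653312) (nat_lit 19316736)) (I.mix (nat_lit 4931584) (nat_lit 4964352)))
  false (nat_lit 0)
def b2_8 : Bx := Bx.mk (St.mk (I.pos (nat_lit 189415424) (nat_lit 289832960)) (I.mix (nat_lit 29900800) (nat_lit 53035008)) (I.mix (nat_lit 123273216) (nat_lit 48988160)) (I.pos (nat_lit 292667392) (nat_lit 454049792)) (I.mix (nat_lit 69828608) (nat_lit 49971200)) (I.mix (nat_lit 56229888) (nat_lit 42532864)) (I.mix (nat_lit 102449152) (nat_lit 85983232)))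
  false (nat_lit 34701931)
def b2_9 : Bx := Bx.mk (St.mk (I.pos (nat_lit 126992384) (nat_lit 195297280)) (I.mix (nat_lit 42926080) (nat_lit 28278784)) (I.mix (nat_lit 45989888) (nat_lit 36814848)) (I.pos (nat_lit 203767808) (nat_lit 280985600)) (I.mix (nat_lit 51249152) (nat_lit 49266688)) (I.mix (nat_lit 53411840) (nat_lit 47595520)) (I.mix (nat_lit 51609600) (nat_lit 44417024)))
  false (nat_lit 0)
def b2_10 : Bx := Bx.mk (St.mk (I.pos (nat_lit 155680768) (nat_lit 198410240)) (I.mix (nat_lit 8126464) (nat_lit 51101696)) (I.mix (nat_lit 9191424) (nat_lit 67764224)) (I.pos (nat_lit 242466816) (nat_lit 286982144)) (I.mix (nat_lit 100302848) (nat_lit 50790400)) (I.mix (nat_lit 109133824) (nat_lit 54263808)) (I.mix (nat_lit 109608960) (nat_lit 51953664)))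
  false (nat_lit 0)
def b2_11 : Bx := Bx.mk (St.mk (I.pos (nat_lit 173293568) (nat_lit 231391232)) (I.pos (nat_lit 11239424) (nat_lit 74694656)) (I.mix (nat_lit 6373376) (nat_lit 90472448)) (I.pos (nat_lit 282607616) (nat_lit 337444864)) (I.mix (nat_lit 87867392) (nat_lit 65880064)) (I.mix (nat_lit 76464128) (nat_lit 52674560)) (I.mix (nat_lit 109953024) (nat_lit 70025216)))
  false (nat_lit 29658214)
def t2 : BTr := (BTr.n (BTr.n (BTr.n (BTr.b b2_0) (BTr.n (BTr.b b2_1) (BTr.b b2_2))) (BTr.n (BTr.b b2_3) (BTr.n (BTr.b b2_4) (BTr.b b2_5)))) (BTr.n (BTr.n (BTr.b b2_6) (BTr.n (BTr.b b2_7) (BTr.b b2_8))) (BTr.n (BTr.b b2_9) (BTr.n (BTr.b b2_10) (BTr.b b2_11)))))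
namespace T2
def l0 : Tr := Tr.L (Pth.l (Pth.l (Pth.l Pth.z)))
def l1 : Tr := Tr.L (Pth.l (Pth.l (Pth.r (Pth.l Pth.z))))
def l2 : Tr := Tr.L (Pth.l (Pth.l (Pth.r (Pth.r Pth.z))))
def l3 : Tr := Tr.L (Pth.l (Pth.r (Pth.l Pth.z)))
def l4 : Tr := Tr.L (Pth.l (Pth.r (Pth.r (Pth.l Pth.z))))
def l5 : Tr := Tr.L (Pth.l (Pth.r (Pth.r (Pth.r Pth.z))))
def l6 : Tr := Tr.L (Pth.r (Pth.l (Pth.l Pth.z)))
def l7 : Tr := Tr.L (Pth.r (Pth.l (Pth.r (Pth.l Pth.z))))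
def l8 : Tr := Tr.L (Pth.r (Pth.l (Pth.r (Pth.r Pth.z))))
def l9 : Tr := Tr.L (Pth.r (Pth.r (Pth.l Pth.z)))
def l10 : Tr := Tr.L (Pth.r (Pth.r (Pth.r (Pth.l Pth.z))))
def l11 : Tr := Tr.L (Pth.r (Pth.r (Pth.r (Pth.r Pth.z))))
end T2
def b3_0 : Bx := Bx.mk (St.mk (I.pos (nat_lit 155942912) (nat_lit 241745920)) (I.mix (nat_lit 3063808) (nat_lit 49430528)) (I.mix (nat_lit 6209536) (nat_lit 105037824)) (I.pos (nat_lit 89374720) (nat_lit 220971008)) (I.mix (nat_lit 86278144) (nat_lit 50774016)) (I.mix (nat_lit 69779456) (nat_lit 58654720)) (I.mix (nat_lit 102121472) (nat_lit 76808192)))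
  false (nat_lit 0)
def b3_1 : Bx := Bx.mk (St.mk (I.pos (nat_lit 118751232) (nat_lit 181911552)) (I.neg (nat_lit 1753088) (nat_lit 56672256)) (I.mix (nat_lit 49168384) (nat_lit 2818048)) (I.pos (nat_lit 70729728) (nat_lit 139935744)) (I.mix (nat_lit 66781184) (nat_lit 30932992)) (I.mix (nat_lit 32063488) (nat_lit 46645248)) (I.mix (nat_lit 26886144) (nat_lit 41730048)))
  false (nat_lit 0)
def b3_2 : Bx := Bx.mk (St.mk (I.mix (nat_lit 16515072) (nat_lit 123142144)) (I.mix (nat_lit 26689536) (nat_lit 4866048)) (I.mix (nat_lit 15810560) (nat_lit 6209536)) (I.mix (nat_lit 4358144) (nat_lit 67108864)) (I.mix (nat_lit 23248896) (nat_lit 17809408)) (I.mix (nat_lit 13238272) (nat_lit 17580032)) (I.mix (nat_lit 8601600) (nat_lit 12533760)))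
  false (nat_lit 0)
def b3_3 : Bx := Bx.mk (St.mk (I.pos (nat_lit 173965312) (nat_lit 217268224)) (I.mix (nat_lit 16203776) (nat_lit 50479104)) (I.pos (nat_lit 6406144) (nat_lit 97976320)) (I.pos (nat_lit 114868224) (nat_lit 191430656)) (I.mix (nat_lit 117899264) (nat_lit 34897920)) (I.mix (nat_lit 119881728) (nat_lit 50905088)) (I.mix (nat_lit 150487040) (nat_lit 48726016)))
  false (nat_lit 0)
def b3_4 : Bx := Bx.mk (St.mk (I.mix (nat_lit 17956864) (nat_lit 141705216)) (I.mix (nat_lit 10895360) (nat_lit 34291712)) (I.mix (nat_lit 3506176) (nat_lit 34668544)) (I.mix (nat_lit 5341184) (nat_lit 84623360)) (I.mix (nat_lit 50069504) (nat_lit 21512192)) (I.mix (nat_lit 42844160) (nat_lit 22282240)) (I.mix (nat_lit 32309248) (nat_lit 13959168)))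
  false (nat_lit 0)
def b3_5 : Bx := Bx.mk (St.mk (I.pos (nat_lit 162299904) (nat_lit 212647936)) (I.mix (nat_lit 34619392) (nat_lit 10797056)) (I.mix (nat_lit 19808256) (nat_lit 39862272)) (I.pos (nat_lit 102449152) (nat_lit 179421184)) (I.mix (nat_lit 44105728) (nat_lit 50053120)) (I.mix (nat_lit 46956544) (nat_lit 45858816)) (I.mix (nat_lit 47202304) (nat_lit 48627712)))
  false (nat_lit 0)
def b3_6 : Bx := Bx.mk (St.mk (I.pos (nat_lit 161447936) (nat_lit 182517760)) (I.neg (nat_lit 11075584) (nat_lit 35536896)) (I.mix (nat_lit 25542656) (nat_lit 2064384)) (I.pos (nat_lit 102612992) (nat_lit 142999552)) (I.mix (nat_lit 23511040) (nat_lit 14434304)) (I.mix (nat_lit 11206656) (nat_lit 15269888)) (I.mix (nat_lit 11747328) (nat_lit 16678912)))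
  false (nat_lit 0)
def b3_7 : Bx := Bx.mk (St.mk (I.mix (nat_lit 23003136) (nat_lit 120766464)) (I.mix (nat_lit 12304384) (nat_lit 1605632)) (I.mix (nat_lit 4767744) (nat_lit 6389760)) (I.mix (nat_lit 5160960) (nat_lit 68157440)) (I.mix (nat_lit 6717440) (nat_lit 8978432)) (I.mix (nat_lit 4554752) (nat_lit 6045696)) (I.mix (nat_lit 3080192) (nat_lit 4554752)))
  false (nat_lit 0)
def b3_8 : Bx := Bx.mk (St.mk (I.mix (nat_lit 21790720) (nat_lit 148324352)) (I.mix (nat_lit 8355840) (nat_lit 23969792)) (I.mix (nat_lit 4145152) (nat_lit 29212672)) (I.mix (nat_lit 5881856) (nat_lit 94011392)) (I.mix (nat_lit 30310400) (nat_lit 26247168)) (I.mix (nat_lit 29966336) (nat_lit 21905408)) (I.mix (nat_lit 25886720) (nat_lit 15958016)))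
  false (nat_lit 0)
def b3_9 : Bx := Bx.mk (St.mk (I.pos (nat_lit 115310592) (nat_lit 166592512)) (I.mix (nat_lit 53706752) (nat_lit 10665984)) (I.mix (nat_lit 47939584) (nat_lit 16531456)) (I.pos (nat_lit 51314688) (nat_lit 119537664)) (I.mix (nat_lit 73973760) (nat_lit 24346624)) (I.mix (nat_lit 29851648) (nat_lit 66519040)) (I.mix (nat_lit 24936448) (nat_lit 58523648)))
  false (nat_lit 0)
def b3_10 : Bx := Bx.mk (St.mk (I.mix (nat_lit 15597568) (nat_lit 114704384)) (I.mix (nat_lit 24281088) (nat_lit 4849664)) (I.mix (nat_lit 13778944) (nat_lit 6750208)) (I.mix (nat_lit 4063232) (nat_lit 61997056)) (I.mix (nat_lit 25034752) (nat_lit 11845632)) (I.mix (nat_lit 11960320) (nat_lit 25640960)) (I.mix (nat_lit 7290880) (nat_lit 15319040)))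
  false (nat_lit 0)
def b3_11 : Bx := Bx.mk (St.mk (I.pos (nat_lit 198115328) (nat_lit 285442048)) (I.mix (nat_lit 24952832) (nat_lit 37666816)) (I.mix (nat_lit 34455552) (nat_lit 88145920)) (I.pos (nat_lit 166313984) (nat_lit 321945600)) (I.mix (nat_lit 63963136) (nat_lit 46546944)) (I.mix (nat_lit 50397184) (nat_lit 35995648)) (I.mix (nat_lit 80756736) (nat_lit 59162624)))
  false (nat_lit 0)
def b3_12 : Bx := Bx.mk (St.mk (I.pos (nat_lit 187351040) (nat_lit 238108672)) (I.pos (nat_lit 9076736) (nat_lit 46841856)) (I.pos (nat_lit 31408128) (nat_lit 99500032)) (I.pos (nat_lit 157794304) (nat_lit 215056384)) (I.mix (nat_lit 82149376) (nat_lit 56721408)) (I.mix (nat_lit 75464704) (nat_lit 53903360)) (I.mix (nat_lit 117194752) (nat_lit 72073216)))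
  false (nat_lit 0)
def b3_13 : Bx := Bx.mk (St.mk (I.pos (nat_lit 173424640) (nat_lit 214171648)) (I.mix (nat_lit 24117248) (nat_lit 29671424)) (I.mix (nat_lit 2015232) (nat_lit 67682304)) (I.pos (nat_lit 112738304) (nat_lit 182484992)) (I.mix (nat_lit 90423296) (nat_lit 48365568)) (I.mix (nat_lit 99713024) (nat_lit 51691520)) (I.mix (nat_lit 121356288) (nat_lit 53870592)))
  false (nat_lit 0)
def t3 : BTr := (BTr.n (BTr.n (BTr.n (BTr.b b3_0) (BTr.n (BTr.b b3_1) (BTr.b b3_2))) (BTr.n (BTr.n (BTr.b b3_3) (BTr.b b3_4)) (BTr.n (BTr.b b3_5) (BTr.b b3_6)))) (BTr.n (BTr.n (BTr.b b3_7) (BTr.n (BTr.b b3_8) (BTr.b b3_9))) (BTr.n (BTr.n (BTr.b b3_10) (BTr.b b3_11)) (BTr.n (BTr.b b3_12) (BTr.b b3_13)))))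
namespace T3
def l0 : Tr := Tr.L (Pth.l (Pth.l (Pth.l Pth.z)))
def l1 : Tr := Tr.L (Pth.l (Pth.l (Pth.r (Pth.l Pth.z))))
def l2 : Tr := Tr.L (Pth.l (Pth.l (Pth.r (Pth.r Pth.z))))
def l3 : Tr := Tr.L (Pth.l (Pth.r (Pth.l (Pth.l Pth.z))))
def l4 : Tr := Tr.L (Pth.l (Pth.r (Pth.l (Pth.r Pth.z))))
def l5 : Tr := Tr.L (Pth.l (Pth.r (Pth.r (Pth.l Pth.z))))
def l6 : Tr := Tr.L (Pth.l (Pth.r (Pth.r (Pth.r Pth.z))))
def l7 : Tr := Tr.L (Pth.r (Pth.l (Pth.l Pth.z)))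
def l8 : Tr := Tr.L (Pth.r (Pth.l (Pth.r (Pth.l Pth.z))))
def l9 : Tr := Tr.L (Pth.r (Pth.l (Pth.r (Pth.r Pth.z))))
def l10 : Tr := Tr.L (Pth.r (Pth.r (Pth.l (Pth.l Pth.z))))
def l11 : Tr := Tr.L (Pth.r (Pth.r (Pth.l (Pth.r Pth.z))))
def l12 : Tr := Tr.L (Pth.r (Pth.r (Pth.r (Pth.l Pth.z))))
def l13 : Tr := Tr.L (Pth.r (Pth.r (Pth.r (Pth.r Pth.z))))
end T3
def b4_0 : Bx := Bx.mk (St.mk (I.pos (nat_lit 153059328) (nat_lit 228671488)) (I.mix (nat_lit 4243456) (nat_lit 70336512)) (I.mix (nat_lit 6520832) (nat_lit 110690304)) (I.pos (nat_lit 232112128) (nat_lit 333201408)) (I.mix (nat_lit 101089280) (nat_lit 55230464)) (I.mix (nat_lit 66813952) (nat_lit 54312960)) (I.mix (nat_lit 89391104) (nat_lit 70516736)))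
  false (nat_lit 52785519)
def b4_1 : Bx := Bx.mk (St.mk (I.pos (nat_lit 75792384) (nat_lit 157450240)) (I.neg (nat_lit 4374528) (nat_lit 74678272)) (I.mix (nat_lit 58376192) (nat_lit 15974400)) (I.pos (nat_lit 166051840) (nat_lit 233340928)) (I.mix (nat_lit 66191360) (nat_lit 44302336)) (I.mix (nat_lit 35127296) (nat_lit 54181888)) (I.mix (nat_lit 29458432) (nat_lit 45727744)))
  false (nat_lit 0)
def b4_2 : Bx := Bx.mk (St.mk (I.mix (nat_lit 35471360) (nat_lit 9420800)) (I.mix (nat_lit 41664512) (nat_lit 10338304)) (I.pos (nat_lit 1081344) (nat_lit 10764288)) (I.pos (nat_lit 140001280) (nat_lit 150274048)) (I.mix (nat_lit 22724608) (nat_lit 36765696)) (I.mix (nat_lit 17793024) (nat_lit 32473088)) (I.mix (nat_lit 3883008) (nat_lit 5226496)))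
  true (nat_lit 0)
def b4_3 : Bx := Bx.mk (St.mk (I.pos (nat_lit 150208512) (nat_lit 199311360)) (I.pos (nat_lit 65536) (nat_lit 67289088)) (I.pos (nat_lit 21561344) (nat_lit 106364928)) (I.pos (nat_lit 228868096) (nat_lit 292044800)) (I.mix (nat_lit 108937216) (nat_lit 26476544)) (I.mix (nat_lit 99975168) (nat_lit 45940736)) (I.mix (nat_lit 100204544) (nat_lit 47710208)))
  false (nat_lit 13102626)
def b4_4 : Bx := Bx.mk (St.mk (I.mix (nat_lit 9420800) (nat_lit 35471360)) (I.mix (nat_lit 10338304) (nat_lit 41664512)) (I.pos (nat_lit 1081344) (nat_lit 10764288)) (I.pos (nat_lit 140001280) (nat_lit 150290432)) (I.mix (nat_lit 36765696) (nat_lit 22724608)) (I.mix (nat_lit 32473088) (nat_lit 17793024)) (I.mix (nat_lit 3883008) (nat_lit 5226496)))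
  false (nat_lit 0)
def b4_5 : Bx := Bx.mk (St.mk (I.pos (nat_lit 18857984) (nat_lit 72630272)) (I.mix (nat_lit 9158656) (nat_lit 47022080)) (I.mix (nat_lit 17481728) (nat_lit 12763136)) (I.pos (nat_lit 141688832) (nat_lit 162267136)) (I.mix (nat_lit 28246016) (nat_lit 35225600)) (I.mix (nat_lit 34799616) (nat_lit 23101440)) (I.mix (nat_lit 18415616) (nat_lit 11190272)))
  false (nat_lit 0)
def b4_6 : Bx := Bx.mk (St.mk (I.pos (nat_lit 52199424) (nat_lit 107282432)) (I.mix (nat_lit 65437696) (nat_lit 10616832)) (I.neg (nat_lit 2670592) (nat_lit 48709632)) (I.pos (nat_lit 150061056) (nat_lit 187105280)) (I.mix (nat_lit 67715072) (nat_lit 27869184)) (I.mix (nat_lit 28295168) (nat_lit 62078976)) (I.mix (nat_lit 21889024) (nat_lit 35930112)))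
  false (nat_lit 0)
def b4_7 : Bx := Bx.mk (St.mk (I.neg (nat_lit 18857984) (nat_lit 72630272)) (I.mix (nat_lit 47022080) (nat_lit 9158656)) (I.mix (nat_lit 17481728) (nat_lit 12763136)) (I.pos (nat_lit 141688832) (nat_lit 162267136)) (I.mix (nat_lit 35225600) (nat_lit 28246016)) (I.mix (nat_lit 23101440) (nat_lit 34799616)) (I.mix (nat_lit 18415616) (nat_lit 11190272)))
  true (nat_lit 0)
def b4_8 : Bx := Bx.mk (St.mk (I.pos (nat_lit 124911616) (nat_lit 191528960)) (I.mix (nat_lit 42205184) (nat_lit 23592960)) (I.mix (nat_lit 26705920) (nat_lit 52363264)) (I.pos (nat_lit 201523200) (nat_lit 271925248)) (I.mix (nat_lit 54263808) (nat_lit 53723136)) (I.mix (nat_lit 54919168) (nat_lit 50216960)) (I.mix (nat_lit 51412992) (nat_lit 47726592)))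
  false (nat_lit 0)
def b4_9 : Bx := Bx.mk (St.mk (I.pos (nat_lit 178323456) (nat_lit 286195712)) (I.mix (nat_lit 21348352) (nat_lit 56737792)) (I.mix (nat_lit 71630848) (nat_lit 85409792)) (I.pos (nat_lit 276135936) (nat_lit 440664064)) (I.mix (nat_lit 78331904) (nat_lit 52953088)) (I.mix (nat_lit 57442304) (nat_lit 37027840)) (I.mix (nat_lit 89948160) (nat_lit 59621376)))
  false (nat_lit 67558816)
def b4_10 : Bx := Bx.mk (St.mk (I.pos (nat_lit 168230912) (nat_lit 228458496)) (I.pos (nat_lit 11370496) (nat_lit 68648960)) (I.pos (nat_lit 15941632) (nat_lit 106823680)) (I.pos (nat_lit 270286848) (nat_lit 327221248)) (I.mix (nat_lit 95256576) (nat_lit 63062016)) (I.mix (nat_lit 84131840) (nat_lit 55017472)) (I.mix (nat_lit 118325248) (nat_lit 69419008)))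
  false (nat_lit 43973804)
def b4_11 : Bx := Bx.mk (St.mk (I.pos (nat_lit 149684224) (nat_lit 194707456)) (I.mix (nat_lit 10338304) (nat_lit 51200000)) (I.pos (nat_lit 8224768) (nat_lit 87965696)) (I.pos (nat_lit 230277120) (nat_lit 279166976)) (I.mix (nat_lit 111280128) (nat_lit 47792128)) (I.mix (nat_lit 111902720) (nat_lit 50266112)) (I.mix (nat_lit 114130944) (nat_lit 50184192)))
  false (nat_lit 0)
def t4 : BTr := (BTr.n (BTr.n (BTr.n (BTr.b b4_0) (BTr.n (BTr.b b4_1) (BTr.b b4_2))) (BTr.n (BTr.b b4_3) (BTr.n (BTr.b b4_4) (BTr.b b4_5)))) (BTr.n (BTr.n (BTr.b b4_6) (BTr.n (BTr.b b4_7) (BTr.b b4_8))) (BTr.n (BTr.b b4_9) (BTr.n (BTr.b b4_10) (BTr.b b4_11)))))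
namespace T4
def l0 : Tr := Tr.L (Pth.l (Pth.l (Pth.l Pth.z)))
def l1 : Tr := Tr.L (Pth.l (Pth.l (Pth.r (Pth.l Pth.z))))
def l2 : Tr := Tr.L (Pth.l (Pth.l (Pth.r (Pth.r Pth.z))))
def l3 : Tr := Tr.L (Pth.l (Pth.r (Pth.l Pth.z)))
def l4 : Tr := Tr.L (Pth.l (Pth.r (Pth.r (Pth.l Pth.z))))
def l5 : Tr := Tr.L (Pth.l (Pth.r (Pth.r (Pth.r Pth.z))))
def l6 : Tr := Tr.L (Pth.r (Pth.l (Pth.l Pth.z)))
def l7 : Tr := Tr.L (Pth.r (Pth.l (Pth.r (Pth.l Pth.z))))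
def l8 : Tr := Tr.L (Pth.r (Pth.l (Pth.r (Pth.r Pth.z))))
def l9 : Tr := Tr.L (Pth.r (Pth.r (Pth.l Pth.z)))
def l10 : Tr := Tr.L (Pth.r (Pth.r (Pth.r (Pth.l Pth.z))))
def l11 : Tr := Tr.L (Pth.r (Pth.r (Pth.r (Pth.r Pth.z))))
end T4
def b5_0 : Bx := Bx.mk (St.mk (I.pos (nat_lit 155385856) (nat_lit 236093440)) (I.mix (nat_lit 3325952) (nat_lit 54034432)) (I.mix (nat_lit 6701056) (nat_lit 113868800)) (I.pos (nat_lit 135348224) (nat_lit 257294336)) (I.mix (nat_lit 96698368) (nat_lit 50708480)) (I.mix (nat_lit 73138176) (nat_lit 59326464)) (I.mix (nat_lit 103792640) (nat_lit 74366976)))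
  false (nat_lit 33512632)
def b5_1 : Bx := Bx.mk (St.mk (I.pos (nat_lit 102498304) (nat_lit 170917888)) (I.neg (nat_lit 6553600) (nat_lit 63602688)) (I.mix (nat_lit 47628288) (nat_lit 11583488)) (I.pos (nat_lit 98484224) (nat_lit 171229184)) (I.mix (nat_lit 64847872) (nat_lit 34390016)) (I.mix (nat_lit 32800768) (nat_lit 42762240)) (I.mix (nat_lit 27885568) (nat_lit 37486592)))
  false (nat_lit 0)
def b5_2 : Bx := Bx.mk (St.mk (I.mix (nat_lit 25100288) (nat_lit 87326720)) (I.mix (nat_lit 33292288) (nat_lit 3407872)) (I.mix (nat_lit 10715136) (nat_lit 12828672)) (I.pos (nat_lit 37634048) (nat_lit 90652672)) (I.mix (nat_lit 22446080) (nat_lit 28803072)) (I.mix (nat_lit 16547840) (nat_lit 24592384)) (I.mix (nat_lit 7815168) (nat_lit 13533184)))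
  false (nat_lit 0)
def b5_3 : Bx := Bx.mk (St.mk (I.pos (nat_lit 162414592) (nat_lit 213188608)) (I.mix (nat_lit 13189120) (nat_lit 60620800)) (I.pos (nat_lit 16613376) (nat_lit 115490816)) (I.pos (nat_lit 142147584) (nat_lit 228933632)) (I.mix (nat_lit 126533632) (nat_lit 36290560)) (I.mix (nat_lit 118587392) (nat_lit 58982400)) (I.mix (nat_lit 138444800) (nat_lit 51773440)))
  false (nat_lit 32521723)
def b5_4 : Bx := Bx.mk (St.mk (I.mix (nat_lit 40402944) (nat_lit 111181824)) (I.mix (nat_lit 10272768) (nat_lit 39223296)) (I.mix (nat_lit 2179072) (nat_lit 37027840)) (I.pos (nat_lit 38486016) (nat_lit 106872832)) (I.mix (nat_lit 47857664) (nat_lit 21364736)) (I.mix (nat_lit 38109184) (nat_lit 22364160)) (I.mix (nat_lit 22478848) (nat_lit 14123008)))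
  false (nat_lit 0)
def b5_5 : Bx := Bx.mk (St.mk (I.pos (nat_lit 151453696) (nat_lit 205029376)) (I.mix (nat_lit 33406976) (nat_lit 13762560)) (I.mix (nat_lit 9076736) (nat_lit 53510144)) (I.pos (nat_lit 132136960) (nat_lit 212189184)) (I.mix (nat_lit 46383104) (nat_lit 52658176)) (I.mix (nat_lit 48201728) (nat_lit 47677440)) (I.mix (nat_lit 46153728) (nat_lit 46743552)))
  false (nat_lit 0)
def b5_6 : Bx := Bx.mk (St.mk (I.mix (nat_lit 41877504) (nat_lit 91308032)) (I.mix (nat_lit 13123584) (nat_lit 3948544)) (I.mix (nat_lit 114688) (nat_lit 12173312)) (I.pos (nat_lit 41320448) (nat_lit 91144192)) (I.mix (nat_lit 6225920) (nat_lit 10387456)) (I.mix (nat_lit 5488640) (nat_lit 6291456)) (I.mix (nat_lit 2506752) (nat_lit 3670016)))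
  false (nat_lit 0)
def b5_7 : Bx := Bx.mk (St.mk (I.pos (nat_lit 150126592) (nat_lit 172654592)) (I.neg (nat_lit 13336576) (nat_lit 38322176)) (I.mix (nat_lit 18726912) (nat_lit 12075008)) (I.pos (nat_lit 133021696) (nat_lit 174899200)) (I.mix (nat_lit 21086208) (nat_lit 18694144)) (I.mix (nat_lit 12845056) (nat_lit 14467072)) (I.mix (nat_lit 11845632) (nat_lit 15237120)))
  false (nat_lit 0)
def b5_8 : Bx := Bx.mk (St.mk (I.mix (nat_lit 36093952) (nat_lit 123322368)) (I.mix (nat_lit 8044544) (nat_lit 34127872)) (I.mix (nat_lit 1736704) (nat_lit 34668544)) (I.pos (nat_lit 35373056) (nat_lit 117014528)) (I.mix (nat_lit 42221568) (nat_lit 30670848)) (I.mix (nat_lit 37076992) (nat_lit 24772608)) (I.mix (nat_lit 26902528) (nat_lit 17465344)))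
  false (nat_lit 0)
def b5_9 : Bx := Bx.mk (St.mk (I.pos (nat_lit 93143040) (nat_lit 153567232)) (I.mix (nat_lit 65191936) (nat_lit 11124736)) (I.mix (nat_lit 47120384) (nat_lit 17399808)) (I.pos (nat_lit 78610432) (nat_lit 149651456)) (I.mix (nat_lit 73531392) (nat_lit 27869184)) (I.mix (nat_lit 34750464) (nat_lit 67010560)) (I.mix (nat_lit 24985600) (nat_lit 49086464)))
  false (nat_lit 0)
def b5_10 : Bx := Bx.mk (St.mk (I.mix (nat_lit 38633472) (nat_lit 76857344)) (I.mix (nat_lit 30818304) (nat_lit 5980160)) (I.mix (nat_lit 8421376) (nat_lit 12779520)) (I.pos (nat_lit 39976960) (nat_lit 84312064)) (I.mix (nat_lit 26345472) (nat_lit 20987904)) (I.mix (nat_lit 17563648) (nat_lit 27590656)) (I.mix (nat_lit 8830976) (nat_lit 10600448)))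
  false (nat_lit 0)
def b5_11 : Bx := Bx.mk (St.mk (I.pos (nat_lit 164347904) (nat_lit 206848000)) (I.mix (nat_lit 21626880) (nat_lit 32555008)) (I.pos (nat_lit 7749632) (nat_lit 79183872)) (I.pos (nat_lit 145588224) (nat_lit 216907776)) (I.mix (nat_lit 91340800) (nat_lit 47480832)) (I.mix (nat_lit 96092160) (nat_lit 50446336)) (I.mix (nat_lit 109953024) (nat_lit 49692672)))
  false (nat_lit 0)
def b5_12 : Bx := Bx.mk (St.mk (I.pos (nat_lit 188399616) (nat_lit 283426816)) (I.mix (nat_lit 18595840) (nat_lit 42795008)) (I.mix (nat_lit 18677760) (nat_lit 98435072)) (I.pos (nat_lit 195280896) (nat_lit 359432192)) (I.mix (nat_lit 69304320) (nat_lit 51331072)) (I.mix (nat_lit 52477952) (nat_lit 33849344)) (I.mix (nat_lit 83361792) (nat_lit 56377344)))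
  false (nat_lit 18993079)
def b5_13 : Bx := Bx.mk (St.mk (I.pos (nat_lit 178601984) (nat_lit 231063552)) (I.pos (nat_lit 13156352) (nat_lit 52051968)) (I.pos (nat_lit 41811968) (nat_lit 110346240)) (I.pos (nat_lit 188235776) (nat_lit 246759424)) (I.mix (nat_lit 86147072) (nat_lit 61882368)) (I.mix (nat_lit 87212032) (nat_lit 55230464)) (I.mix (nat_lit 130465792) (nat_lit 67780608)))
  false (nat_lit 15113239)
def t5 : BTr := (BTr.n (BTr.n (BTr.n (BTr.b b5_0) (BTr.n (BTr.b b5_1) (BTr.b b5_2))) (BTr.n (BTr.n (BTr.b b5_3) (BTr.b b5_4)) (BTr.n (BTr.b b5_5) (BTr.b b5_6)))) (BTr.n (BTr.n (BTr.b b5_7) (BTr.n (BTr.b b5_8) (BTr.b b5_9))) (BTr.n (BTr.n (BTr.b b5_10) (BTr.b b5_11)) (BTr.n (BTr.b b5_12) (BTr.b b5_13)))))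
namespace T5
def l0 : Tr := Tr.L (Pth.l (Pth.l (Pth.l Pth.z)))
def l1 : Tr := Tr.L (Pth.l (Pth.l (Pth.r (Pth.l Pth.z))))
def l2 : Tr := Tr.L (Pth.l (Pth.l (Pth.r (Pth.r Pth.z))))
def l3 : Tr := Tr.L (Pth.l (Pth.r (Pth.l (Pth.l Pth.z))))
def l4 : Tr := Tr.L (Pth.l (Pth.r (Pth.l (Pth.r Pth.z))))
def l5 : Tr := Tr.L (Pth.l (Pth.r (Pth.r (Pth.l Pth.z))))
def l6 : Tr := Tr.L (Pth.l (Pth.r (Pth.r (Pth.r Pth.z))))
def l7 : Tr := Tr.L (Pth.r (Pth.l (Pth.l Pth.z)))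
def l8 : Tr := Tr.L (Pth.r (Pth.l (Pth.r (Pth.l Pth.z))))
def l9 : Tr := Tr.L (Pth.r (Pth.l (Pth.r (Pth.r Pth.z))))
def l10 : Tr := Tr.L (Pth.r (Pth.r (Pth.l (Pth.l Pth.z))))
def l11 : Tr := Tr.L (Pth.r (Pth.r (Pth.l (Pth.r Pth.z))))
def l12 : Tr := Tr.L (Pth.r (Pth.r (Pth.r (Pth.l Pth.z))))
def l13 : Tr := Tr.L (Pth.r (Pth.r (Pth.r (Pth.r Pth.z))))
end T5
theorem bx0_0 : BoxOK sI cl5 cl7 cl13 t2 t4 b0_0 :=
  box_mk (TrL.c (I.pos (nat_lit 0) (nat_lit 0)) (xa (xb T2.l0 (xa T2.l0 T2.l0)) (xb T2.l0 (xa T2.l0 T2.l0)))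
  (TrL.c (I.pos (nat_lit 0) (nat_lit 0)) T4.l1
  (TrL.c (I.pos (nat_lit 0) (nat_lit 0)) T2.l1
  (TrL.c (I.pos (nat_lit 0) (nat_lit 0)) T4.l2
  (TrL.c (I.pos (nat_lit 0) (nat_lit 0)) (xa T4.l11 (xb (xa T4.l3 T4.l3) (xa T4.l3 (xb T4.l3 T4.l3))))
  (TrL.c (I.pos (nat_lit 0) (nat_lit 0)) T2.l2
  (TrL.c (I.pos (nat_lit 0) (nat_lit 0)) T4.l4
  (TrL.c (I.pos (nat_lit 0) (nat_lit 0)) T2.l3
  TrL.n)))))))) (by decide +kernel)
theorem bx0_1 : BoxOK sI cl5 cl7 cl13 t2 t4 b0_1 :=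
  box_mk (TrL.c (I.pos (nat_lit 0) (nat_lit 0)) (xa (xa T2.l8 T2.l8) (xa T2.l8 T2.l8))
  (TrL.c (I.pos (nat_lit 0) (nat_lit 0)) T4.l1
  (TrL.c (I.pos (nat_lit 0) (nat_lit 0)) T2.l1
  (TrL.c (I.pos (nat_lit 0) (nat_lit 0)) T4.l2
  (TrL.c (I.pos (nat_lit 0) (nat_lit 0)) T4.l8
  (TrL.c (I.pos (nat_lit 0) (nat_lit 0)) T2.l2
  (TrL.c (I.pos (nat_lit 0) (nat_lit 0)) T4.l4
  (TrL.c (I.pos (nat_lit 0) (nat_lit 0)) T2.l3
  TrL.n)))))))) (by decide +kernel)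
theorem bx0_2 : BoxOK sI cl5 cl7 cl13 t2 t4 b0_2 :=
  box_mk (TrL.c (I.pos (nat_lit 0) (nat_lit 0)) (xb T2.l8 T2.l8)
  (TrL.c (I.pos (nat_lit 0) (nat_lit 0)) T4.l1
  (TrL.c (I.pos (nat_lit 0) (nat_lit 0)) T2.l1
  (TrL.c (I.pos (nat_lit 0) (nat_lit 0)) T4.l2
  (TrL.c (I.pos (nat_lit 0) (nat_lit 0)) T4.l8
  (TrL.c (I.pos (nat_lit 0) (nat_lit 0)) T2.l2
  (TrL.c (I.pos (nat_lit 0) (nat_lit 0)) T4.l4
  (TrL.c (I.pos (nat_lit 0) (nat_lit 0)) T2.l3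
  TrL.n)))))))) (by decide +kernel)
theorem bx0_3 : BoxOK sI cl5 cl7 cl13 t2 t4 b0_3 :=
  box_mk (TrL.c (I.pos (nat_lit 0) (nat_lit 0)) (xa (xa (xb T2.l8 T2.l8) T2.l8) T2.l8)
  (TrL.c (I.pos (nat_lit 0) (nat_lit 0)) T4.l1
  (TrL.c (I.pos (nat_lit 0) (nat_lit 0)) T2.l1
  (TrL.c (I.pos (nat_lit 0) (nat_lit 0)) T4.l2
  (TrL.c (I.pos (nat_lit 0) (nat_lit 0)) T4.l8
  (TrL.c (I.pos (nat_lit 0) (nat_lit 0)) T2.l2
  (TrL.c (I.pos (nat_lit 0) (nat_lit 0)) T4.l4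
  (TrL.c (I.pos (nat_lit 0) (nat_lit 0)) T2.l3
  TrL.n)))))))) (by decide +kernel)
theorem bx0_4 : BoxOK sI cl5 cl7 cl13 t2 t4 b0_4 :=
  box_mk (TrL.c (I.pos (nat_lit 0) (nat_lit 0)) (xa T2.l0 T2.l0)
  (TrL.c (I.pos (nat_lit 0) (nat_lit 0)) T4.l1
  (TrL.c (I.pos (nat_lit 0) (nat_lit 0)) T2.l1
  (TrL.c (I.pos (nat_lit 0) (nat_lit 0)) T4.l2
  (TrL.c (I.pos (nat_lit 0) (nat_lit 0)) (xa T4.l3 T4.l3)
  (TrL.c (I.pos (nat_lit 0) (nat_lit 0)) T2.l2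
  (TrL.c (I.pos (nat_lit 0) (nat_lit 0)) T4.l4
  (TrL.c (I.pos (nat_lit 0) (nat_lit 0)) T2.l3
  TrL.n)))))))) (by decide +kernel)
theorem bx0_5 : BoxOK sI cl5 cl7 cl13 t2 t4 b0_5 :=
  box_mk (TrL.c (I.pos (nat_lit 0) (nat_lit 0)) T2.l8
  (TrL.c (I.pos (nat_lit 0) (nat_lit 0)) T4.l1
  (TrL.c (I.pos (nat_lit 0) (nat_lit 0)) T2.l1
  (TrL.c (I.pos (nat_lit 0) (nat_lit 0)) T4.l2
  (TrL.c (I.pos (nat_lit 0) (nat_lit 0)) T4.l8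
  (TrL.c (I.pos (nat_lit 0) (nat_lit 0)) T2.l2
  (TrL.c (I.pos (nat_lit 0) (nat_lit 0)) T4.l4
  (TrL.c (I.pos (nat_lit 0) (nat_lit 0)) T2.l3
  TrL.n)))))))) (by decide +kernel)
theorem bx0_6 : BoxOK sI cl5 cl7 cl13 t2 t4 b0_6 :=
  box_mk (TrL.c (I.pos (nat_lit 0) (nat_lit 0)) (xa (xb (xa T2.l8 T2.l8) T2.l8) (xb (xa T2.l8 T2.l8) T2.l8))
  (TrL.c (I.pos (nat_lit 0) (nat_lit 0)) T4.l1
  (TrL.c (I.pos (nat_lit 0) (nat_lit 0)) T2.l1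
  (TrL.c (I.pos (nat_lit 0) (nat_lit 0)) T4.l2
  (TrL.c (I.pos (nat_lit 0) (nat_lit 0)) (xa T4.l8 (xb T4.l8 T4.l8))
  (TrL.c (I.pos (nat_lit 0) (nat_lit 0)) T2.l2
  (TrL.c (I.pos (nat_lit 0) (nat_lit 0)) T4.l4
  (TrL.c (I.pos (nat_lit 0) (nat_lit 0)) T2.l3
  TrL.n)))))))) (by decide +kernel)
theorem bx0_7 : BoxOK sI cl5 cl7 cl13 t2 t4 b0_7 :=
  box_mk (TrL.c (I.pos (nat_lit 0) (nat_lit 0)) (xa (xa (xb (xa T2.l8 T2.l8) T2.l8) T2.l8) T2.l8)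
  (TrL.c (I.pos (nat_lit 0) (nat_lit 0)) T4.l1
  (TrL.c (I.pos (nat_lit 0) (nat_lit 0)) T2.l1
  (TrL.c (I.pos (nat_lit 0) (nat_lit 0)) T4.l2
  (TrL.c (I.pos (nat_lit 0) (nat_lit 0)) T4.l8
  (TrL.c (I.pos (nat_lit 0) (nat_lit 0)) T2.l2
  (TrL.c (I.pos (nat_lit 0) (nat_lit 0)) T4.l4
  (TrL.c (I.pos (nat_lit 0) (nat_lit 0)) T2.l3
  TrL.n)))))))) (by decide +kernel)
theorem bx0_8 : BoxOK sI cl5 cl7 cl13 t2 t4 b0_8 :=
  box_mk (TrL.c (I.pos (nat_lit 0) (nat_lit 0)) (xb (xa (xb T2.l11 T2.l11) T2.l11) (xa (xb T2.l11 (xa T2.l11 T2.l11)) (xb T2.l11 T2.l11)))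
  (TrL.c (I.pos (nat_lit 0) (nat_lit 0)) T4.l1
  (TrL.c (I.pos (nat_lit 0) (nat_lit 0)) T2.l1
  (TrL.c (I.pos (nat_lit 0) (nat_lit 0)) T4.l2
  (TrL.c (I.pos (nat_lit 0) (nat_lit 0)) (xb T4.l11 (xa T4.l11 (xb T4.l11 T4.l11)))
  (TrL.c (I.pos (nat_lit 0) (nat_lit 0)) T2.l2
  (TrL.c (I.pos (nat_lit 0) (nat_lit 0)) T4.l4
  (TrL.c (I.pos (nat_lit 0) (nat_lit 0)) T2.l3
  TrL.n)))))))) (by decide +kernel)
theorem bx0_9 : BoxOK sI cl5 cl7 cl13 t2 t4 b0_9 :=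
  box_mk (TrL.c (I.pos (nat_lit 0) (nat_lit 0)) (xa (xa (xb T2.l8 (xa T2.l8 T2.l8)) (xb T2.l8 (xa T2.l8 T2.l8))) (xa T2.l8 T2.l8))
  (TrL.c (I.pos (nat_lit 0) (nat_lit 0)) T4.l1
  (TrL.c (I.pos (nat_lit 0) (nat_lit 0)) T2.l1
  (TrL.c (I.pos (nat_lit 0) (nat_lit 0)) T4.l2
  (TrL.c (I.pos (nat_lit 0) (nat_lit 0)) (xa T4.l8 T4.l8)
  (TrL.c (I.pos (nat_lit 0) (nat_lit 0)) T2.l2
  (TrL.c (I.pos (nat_lit 0) (nat_lit 0)) T4.l4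
  (TrL.c (I.pos (nat_lit 0) (nat_lit 0)) T2.l3
  TrL.n)))))))) (by decide +kernel)
theorem bx0_10 : BoxOK sI cl5 cl7 cl13 t2 t4 b0_10 :=
  box_mk (TrL.c (I.pos (nat_lit 0) (nat_lit 0)) T2.l8
  (TrL.c (I.pos (nat_lit 0) (nat_lit 0)) T4.l1
  (TrL.c (I.pos (nat_lit 0) (nat_lit 0)) T2.l1
  (TrL.c (I.pos (nat_lit 0) (nat_lit 0)) T4.l2
  (TrL.c (I.pos (nat_lit 0) (nat_lit 0)) T4.l8
  (TrL.c (I.pos (nat_lit 0) (nat_lit 0)) T2.l2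
  (TrL.c (I.pos (nat_lit 0) (nat_lit 0)) T4.l4
  (TrL.c (I.pos (nat_lit 0) (nat_lit 0)) T2.l3
  TrL.n)))))))) (by decide +kernel)
theorem bx0_11 : BoxOK sI cl5 cl7 cl13 t2 t4 b0_11 :=
  box_mk (TrL.c (I.pos (nat_lit 0) (nat_lit 0)) (xa T2.l0 T2.l0)
  (TrL.c (I.pos (nat_lit 0) (nat_lit 0)) T4.l1
  (TrL.c (I.pos (nat_lit 0) (nat_lit 0)) T2.l1
  (TrL.c (I.pos (nat_lit 0) (nat_lit 0)) T4.l2
  (TrL.c (I.pos (nat_lit 0) (nat_lit 0)) (xb T4.l3 T4.l3)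
  (TrL.c (I.pos (nat_lit 0) (nat_lit 0)) T2.l2
  (TrL.c (I.pos (nat_lit 0) (nat_lit 0)) T4.l4
  (TrL.c (I.pos (nat_lit 0) (nat_lit 0)) T2.l3
  TrL.n)))))))) (by decide +kernel)
theorem bx0_12 : BoxOK sI cl5 cl7 cl13 t2 t4 b0_12 :=
  box_mk (TrL.c (I.pos (nat_lit 0) (nat_lit 0)) (xa T2.l11 T2.l11)
  (TrL.c (I.pos (nat_lit 0) (nat_lit 0)) T4.l1
  (TrL.c (I.pos (nat_lit 0) (nat_lit 0)) T2.l1
  (TrL.c (I.pos (nat_lit 0) (nat_lit 0)) T4.l2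
  (TrL.c (I.pos (nat_lit 0) (nat_lit 0)) (xb T4.l11 T4.l11)
  (TrL.c (I.pos (nat_lit 0) (nat_lit 0)) T2.l2
  (TrL.c (I.pos (nat_lit 0) (nat_lit 0)) T4.l4
  (TrL.c (I.pos (nat_lit 0) (nat_lit 0)) T2.l3
  TrL.n)))))))) (by decide +kernel)
theorem bx0_13 : BoxOK sI cl5 cl7 cl13 t2 t4 b0_13 :=
  box_mk (TrL.c (I.pos (nat_lit 0) (nat_lit 0)) (xb T2.l11 T2.l11)
  (TrL.c (I.pos (nat_lit 0) (nat_lit 0)) T4.l1
  (TrL.c (I.pos (nat_lit 0) (nat_lit 0)) T2.l1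
  (TrL.c (I.pos (nat_lit 0) (nat_lit 0)) T4.l2
  (TrL.c (I.pos (nat_lit 0) (nat_lit 0)) T4.l11
  (TrL.c (I.pos (nat_lit 0) (nat_lit 0)) T2.l2
  (TrL.c (I.pos (nat_lit 0) (nat_lit 0)) T4.l4
  (TrL.c (I.pos (nat_lit 0) (nat_lit 0)) T2.l3
  TrL.n)))))))) (by decide +kernel)
theorem sv0 : StarV sI cl5 cl7 cl13 t2 t4 t0 :=
  (bt_n (bt_n (bt_n (bt_b bx0_0) (bt_n (bt_b bx0_1) (bt_b bx0_2))) (bt_n (bt_n (bt_b bx0_3) (bt_b bx0_4)) (bt_n (bt_b bx0_5) (bt_b bx0_6)))) (bt_n (bt_n (bt_b bx0_7) (bt_n (bt_b bx0_8) (bt_b bx0_9))) (bt_n (bt_n (bt_b bx0_10) (bt_b bx0_11)) (bt_n (bt_b bx0_12) (bt_b bx0_13)))))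
def S0 : StarD := StarD.mk cl5 cl7 cl13 2 4 t0
theorem bx1_0 : BoxOK sI cl5 cl13 cl7 t4 t2 b1_0 :=
  box_mk (TrL.c (I.pos (nat_lit 0) (nat_lit 0)) (xa (xa (xb T4.l0 (xb T4.l0 T4.l0)) (xb T4.l0 T4.l0)) (xa (xb T4.l0 T4.l0) (xb T4.l0 T4.l0)))
  (TrL.c (I.pos (nat_lit 0) (nat_lit 0)) T2.l4
  (TrL.c (I.pos (nat_lit 0) (nat_lit 0)) T4.l5
  (TrL.c (I.pos (nat_lit 0) (nat_lit 0)) T2.l5
  (TrL.c (I.pos (nat_lit 0) (nat_lit 0)) (xa T2.l6 (xb T2.l6 T2.l6))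
  (TrL.c (I.pos (nat_lit 0) (nat_lit 0)) T4.l6
  (TrL.c (I.pos (nat_lit 0) (nat_lit 0)) T2.l7
  (TrL.c (I.pos (nat_lit 0) (nat_lit 0)) T4.l7
  TrL.n)))))))) (by decide +kernel)
theorem bx1_1 : BoxOK sI cl5 cl13 cl7 t4 t2 b1_1 :=
  box_mk (TrL.c (I.pos (nat_lit 0) (nat_lit 0)) (xa T4.l9 (xa T4.l9 T4.l9))
  (TrL.c (I.pos (nat_lit 0) (nat_lit 0)) T2.l4
  (TrL.c (I.pos (nat_lit 0) (nat_lit 0)) T4.l5
  (TrL.c (I.pos (nat_lit 0) (nat_lit 0)) T2.l5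
  (TrL.c (I.pos (nat_lit 0) (nat_lit 0)) (xa T2.l9 T2.l9)
  (TrL.c (I.pos (nat_lit 0) (nat_lit 0)) T4.l6
  (TrL.c (I.pos (nat_lit 0) (nat_lit 0)) T2.l7
  (TrL.c (I.pos (nat_lit 0) (nat_lit 0)) T4.l7
  TrL.n)))))))) (by decide +kernel)
theorem bx1_2 : BoxOK sI cl5 cl13 cl7 t4 t2 b1_2 :=
  box_mk (TrL.c (I.pos (nat_lit 0) (nat_lit 0)) (xb T4.l9 (xa T4.l9 T4.l9))
  (TrL.c (I.pos (nat_lit 0) (nat_lit 0)) T2.l4
  (TrL.c (I.pos (nat_lit 0) (nat_lit 0)) T4.l5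
  (TrL.c (I.pos (nat_lit 0) (nat_lit 0)) T2.l5
  (TrL.c (I.pos (nat_lit 0) (nat_lit 0)) T2.l9
  (TrL.c (I.pos (nat_lit 0) (nat_lit 0)) T4.l6
  (TrL.c (I.pos (nat_lit 0) (nat_lit 0)) T2.l7
  (TrL.c (I.pos (nat_lit 0) (nat_lit 0)) T4.l7
  TrL.n)))))))) (by decide +kernel)
theorem bx1_3 : BoxOK sI cl5 cl13 cl7 t4 t2 b1_3 :=
  box_mk (TrL.c (I.pos (nat_lit 0) (nat_lit 0)) T4.l9
  (TrL.c (I.pos (nat_lit 0) (nat_lit 0)) T2.l4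
  (TrL.c (I.pos (nat_lit 0) (nat_lit 0)) T4.l5
  (TrL.c (I.pos (nat_lit 0) (nat_lit 0)) T2.l5
  (TrL.c (I.pos (nat_lit 0) (nat_lit 0)) T2.l9
  (TrL.c (I.pos (nat_lit 0) (nat_lit 0)) T4.l6
  (TrL.c (I.pos (nat_lit 0) (nat_lit 0)) T2.l7
  (TrL.c (I.pos (nat_lit 0) (nat_lit 0)) T4.l7
  TrL.n)))))))) (by decide +kernel)
theorem bx1_4 : BoxOK sI cl5 cl13 cl7 t4 t2 b1_4 :=
  box_mk (TrL.c (I.pos (nat_lit 0) (nat_lit 0)) (xa T4.l0 T4.l0)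
  (TrL.c (I.pos (nat_lit 0) (nat_lit 0)) T2.l4
  (TrL.c (I.pos (nat_lit 0) (nat_lit 0)) T4.l5
  (TrL.c (I.pos (nat_lit 0) (nat_lit 0)) T2.l5
  (TrL.c (I.pos (nat_lit 0) (nat_lit 0)) (xa T2.l6 T2.l6)
  (TrL.c (I.pos (nat_lit 0) (nat_lit 0)) T4.l6
  (TrL.c (I.pos (nat_lit 0) (nat_lit 0)) T2.l7
  (TrL.c (I.pos (nat_lit 0) (nat_lit 0)) T4.l7
  TrL.n)))))))) (by decide +kernel)
theorem bx1_5 : BoxOK sI cl5 cl13 cl7 t4 t2 b1_5 :=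
  box_mk (TrL.c (I.pos (nat_lit 0) (nat_lit 0)) T4.l9
  (TrL.c (I.pos (nat_lit 0) (nat_lit 0)) T2.l4
  (TrL.c (I.pos (nat_lit 0) (nat_lit 0)) T4.l5
  (TrL.c (I.pos (nat_lit 0) (nat_lit 0)) T2.l5
  (TrL.c (I.pos (nat_lit 0) (nat_lit 0)) T2.l9
  (TrL.c (I.pos (nat_lit 0) (nat_lit 0)) T4.l6
  (TrL.c (I.pos (nat_lit 0) (nat_lit 0)) T2.l7
  (TrL.c (I.pos (nat_lit 0) (nat_lit 0)) T4.l7
  TrL.n)))))))) (by decide +kernel)
theorem bx1_6 : BoxOK sI cl5 cl13 cl7 t4 t2 b1_6 :=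
  box_mk (TrL.c (I.pos (nat_lit 0) (nat_lit 0)) (xa (xb T4.l9 T4.l9) T4.l0)
  (TrL.c (I.pos (nat_lit 0) (nat_lit 0)) T2.l4
  (TrL.c (I.pos (nat_lit 0) (nat_lit 0)) T4.l5
  (TrL.c (I.pos (nat_lit 0) (nat_lit 0)) T2.l5
  (TrL.c (I.pos (nat_lit 0) (nat_lit 0)) (xa T2.l9 (xb T2.l9 T2.l9))
  (TrL.c (I.pos (nat_lit 0) (nat_lit 0)) T4.l6
  (TrL.c (I.pos (nat_lit 0) (nat_lit 0)) T2.l7
  (TrL.c (I.pos (nat_lit 0) (nat_lit 0)) T4.l7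
  TrL.n)))))))) (by decide +kernel)
theorem bx1_7 : BoxOK sI cl5 cl13 cl7 t4 t2 b1_7 :=
  box_mk (TrL.c (I.pos (nat_lit 0) (nat_lit 0)) (xa (xa (xb (xa T4.l9 T4.l9) T4.l9) T4.l9) T4.l9)
  (TrL.c (I.pos (nat_lit 0) (nat_lit 0)) T2.l4
  (TrL.c (I.pos (nat_lit 0) (nat_lit 0)) T4.l5
  (TrL.c (I.pos (nat_lit 0) (nat_lit 0)) T2.l5
  (TrL.c (I.pos (nat_lit 0) (nat_lit 0)) T2.l9
  (TrL.c (I.pos (nat_lit 0) (nat_lit 0)) T4.l6
  (TrL.c (I.pos (nat_lit 0) (nat_lit 0)) T2.l7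
  (TrL.c (I.pos (nat_lit 0) (nat_lit 0)) T4.l7
  TrL.n)))))))) (by decide +kernel)
theorem bx1_8 : BoxOK sI cl5 cl13 cl7 t4 t2 b1_8 :=
  box_mk (TrL.c (I.pos (nat_lit 0) (nat_lit 0)) (xb (xa T4.l10 T4.l10) (xa (xb T4.l10 T4.l10) (xb T4.l10 T4.l10)))
  (TrL.c (I.pos (nat_lit 0) (nat_lit 0)) T2.l4
  (TrL.c (I.pos (nat_lit 0) (nat_lit 0)) T4.l5
  (TrL.c (I.pos (nat_lit 0) (nat_lit 0)) T2.l5
  (TrL.c (I.pos (nat_lit 0) (nat_lit 0)) (xb T2.l10 (xa T2.l10 T2.l10))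
  (TrL.c (I.pos (nat_lit 0) (nat_lit 0)) T4.l6
  (TrL.c (I.pos (nat_lit 0) (nat_lit 0)) T2.l7
  (TrL.c (I.pos (nat_lit 0) (nat_lit 0)) T4.l7
  TrL.n)))))))) (by decide +kernel)
theorem bx1_9 : BoxOK sI cl5 cl13 cl7 t4 t2 b1_9 :=
  box_mk (TrL.c (I.pos (nat_lit 0) (nat_lit 0)) (xa (xa (xb T4.l9 (xa T4.l9 T4.l9)) T4.l9) (xa T4.l9 T4.l9))
  (TrL.c (I.pos (nat_lit 0) (nat_lit 0)) T2.l4
  (TrL.c (I.pos (nat_lit 0) (nat_lit 0)) T4.l5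
  (TrL.c (I.pos (nat_lit 0) (nat_lit 0)) T2.l5
  (TrL.c (I.pos (nat_lit 0) (nat_lit 0)) (xa T2.l9 T2.l9)
  (TrL.c (I.pos (nat_lit 0) (nat_lit 0)) T4.l6
  (TrL.c (I.pos (nat_lit 0) (nat_lit 0)) T2.l7
  (TrL.c (I.pos (nat_lit 0) (nat_lit 0)) T4.l7
  TrL.n)))))))) (by decide +kernel)
theorem bx1_10 : BoxOK sI cl5 cl13 cl7 t4 t2 b1_10 :=
  box_mk (TrL.c (I.pos (nat_lit 0) (nat_lit 0)) (xa T4.l10 T4.l10)
  (TrL.c (I.pos (nat_lit 0) (nat_lit 0)) T2.l4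
  (TrL.c (I.pos (nat_lit 0) (nat_lit 0)) T4.l5
  (TrL.c (I.pos (nat_lit 0) (nat_lit 0)) T2.l5
  (TrL.c (I.pos (nat_lit 0) (nat_lit 0)) T2.l10
  (TrL.c (I.pos (nat_lit 0) (nat_lit 0)) T4.l6
  (TrL.c (I.pos (nat_lit 0) (nat_lit 0)) T2.l7
  (TrL.c (I.pos (nat_lit 0) (nat_lit 0)) T4.l7
  TrL.n)))))))) (by decide +kernel)
theorem bx1_11 : BoxOK sI cl5 cl13 cl7 t4 t2 b1_11 :=
  box_mk (TrL.c (I.pos (nat_lit 0) (nat_lit 0)) (xb T4.l10 T4.l10)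
  (TrL.c (I.pos (nat_lit 0) (nat_lit 0)) T2.l4
  (TrL.c (I.pos (nat_lit 0) (nat_lit 0)) T4.l5
  (TrL.c (I.pos (nat_lit 0) (nat_lit 0)) T2.l5
  (TrL.c (I.pos (nat_lit 0) (nat_lit 0)) T2.l10
  (TrL.c (I.pos (nat_lit 0) (nat_lit 0)) T4.l6
  (TrL.c (I.pos (nat_lit 0) (nat_lit 0)) T2.l7
  (TrL.c (I.pos (nat_lit 0) (nat_lit 0)) T4.l7
  TrL.n)))))))) (by decide +kernel)
theorem bx1_12 : BoxOK sI cl5 cl13 cl7 t4 t2 b1_12 :=
  box_mk (TrL.c (I.pos (nat_lit 0) (nat_lit 0)) T4.l9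
  (TrL.c (I.pos (nat_lit 0) (nat_lit 0)) T2.l4
  (TrL.c (I.pos (nat_lit 0) (nat_lit 0)) T4.l5
  (TrL.c (I.pos (nat_lit 0) (nat_lit 0)) T2.l5
  (TrL.c (I.pos (nat_lit 0) (nat_lit 0)) T2.l9
  (TrL.c (I.pos (nat_lit 0) (nat_lit 0)) T4.l6
  (TrL.c (I.pos (nat_lit 0) (nat_lit 0)) T2.l7
  (TrL.c (I.pos (nat_lit 0) (nat_lit 0)) T4.l7
  TrL.n)))))))) (by decide +kernel)
theorem bx1_13 : BoxOK sI cl5 cl13 cl7 t4 t2 b1_13 :=
  box_mk (TrL.c (I.pos (nat_lit 0) (nat_lit 0)) (xa T4.l0 (xb T4.l0 T4.l0))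
  (TrL.c (I.pos (nat_lit 0) (nat_lit 0)) T2.l4
  (TrL.c (I.pos (nat_lit 0) (nat_lit 0)) T4.l5
  (TrL.c (I.pos (nat_lit 0) (nat_lit 0)) T2.l5
  (TrL.c (I.pos (nat_lit 0) (nat_lit 0)) T2.l6
  (TrL.c (I.pos (nat_lit 0) (nat_lit 0)) T4.l6
  (TrL.c (I.pos (nat_lit 0) (nat_lit 0)) T2.l7
  (TrL.c (I.pos (nat_lit 0) (nat_lit 0)) T4.l7
  TrL.n)))))))) (by decide +kernel)
theorem sv1 : StarV sI cl5 cl13 cl7 t4 t2 t1 :=
  (bt_n (bt_n (bt_n (bt_b bx1_0) (bt_n (bt_b bx1_1) (bt_b bx1_2))) (bt_n (bt_n (bt_b bx1_3) (bt_b bx1_4)) (bt_n (bt_b bx1_5) (bt_b bx1_6)))) (bt_n (bt_n (bt_b bx1_7) (bt_n (bt_b bx1_8) (bt_b bx1_9))) (bt_n (bt_n (bt_b bx1_10) (bt_b bx1_11)) (bt_n (bt_b bx1_12) (bt_b bx1_13)))))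
def S1 : StarD := StarD.mk cl5 cl13 cl7 4 2 t1
theorem bx2_0 : BoxOK sI cl7 cl5 cl13 t0 t5 b2_0 :=
  box_mk (TrL.c (I.pos (nat_lit 0) (nat_lit 0)) (xa (xb T0.l0 (xa T0.l0 T0.l0)) (xb T0.l0 T0.l0))
  (TrL.c (I.pos (nat_lit 0) (nat_lit 0)) T5.l1
  (TrL.c (I.pos (nat_lit 0) (nat_lit 111196574)) (xR T0.l1 T0.l1)
  (TrL.c (I.pos (nat_lit 0) (nat_lit 77433728)) (xR T5.l2 T5.l2)
  (TrL.c (I.pos (nat_lit 0) (nat_lit 0)) (xa T5.l3 (xb T5.l3 T5.l3))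
  (TrL.c (I.pos (nat_lit 0) (nat_lit 0)) T0.l2
  (TrL.c (I.mix (nat_lit 29511666) (nat_lit 77433728)) (xR T5.l4 T5.l4)
  (TrL.c (I.mix (nat_lit 29511666) (nat_lit 46070178)) T0.l3
  TrL.n)))))))) (by decide +kernel)
theorem bx2_1 : BoxOK sI cl7 cl5 cl13 t0 t5 b2_1 :=
  box_mk (TrL.c (I.pos (nat_lit 0) (nat_lit 0)) (xb T0.l4 T0.l4)
  (TrL.c (I.pos (nat_lit 0) (nat_lit 0)) T5.l1
  (TrL.c (I.pos (nat_lit 0) (nat_lit 111196574)) T0.l1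
  (TrL.c (I.pos (nat_lit 0) (nat_lit 77433728)) T5.l2
  (TrL.c (I.pos (nat_lit 0) (nat_lit 0)) T5.l5
  (TrL.c (I.pos (nat_lit 0) (nat_lit 0)) T0.l2
  (TrL.c (I.mix (nat_lit 29511666) (nat_lit 77433728)) T5.l4
  (TrL.c (I.mix (nat_lit 29511666) (nat_lit 46070178)) T0.l3
  TrL.n)))))))) (by decide +kernel)
theorem bx2_2 : BoxOK sI cl7 cl5 cl13 t0 t5 b2_2 :=
  box_mk (TrL.c (I.pos (nat_lit 0) (nat_lit 0)) (xb (xa T0.l4 T0.l4) (xa T0.l4 T0.l4))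
  (TrL.c (I.pos (nat_lit 0) (nat_lit 0)) T5.l1
  (TrL.c (I.pos (nat_lit 0) (nat_lit 111196574)) T0.l1
  (TrL.c (I.pos (nat_lit 0) (nat_lit 77433728)) T5.l2
  (TrL.c (I.pos (nat_lit 0) (nat_lit 0)) T5.l5
  (TrL.c (I.pos (nat_lit 0) (nat_lit 0)) T0.l2
  (TrL.c (I.mix (nat_lit 29511666) (nat_lit 77433728)) T5.l4
  (TrL.c (I.mix (nat_lit 29511666) (nat_lit 46070178)) T0.l3
  TrL.n)))))))) (by decide +kernel)
theorem bx2_3 : BoxOK sI cl7 cl5 cl13 t0 t5 b2_3 :=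
  box_mk (TrL.c (I.pos (nat_lit 0) (nat_lit 0)) T5.l1
  (TrL.c (I.pos (nat_lit 0) (nat_lit 0)) T0.l1
  (TrL.c (I.mix (nat_lit 29511666) (nat_lit 77433728)) (xR T5.l6 T5.l2)
  (TrL.c (I.mix (nat_lit 29511666) (nat_lit 46070178)) T0.l5
  TrL.n)))) (by decide +kernel)
theorem bx2_4 : BoxOK sI cl7 cl5 cl13 t0 t5 b2_4 :=
  box_mk (TrL.c (I.pos (nat_lit 0) (nat_lit 0)) (xa (xb T0.l4 T0.l4) (xb T0.l4 T0.l4))
  (TrL.c (I.pos (nat_lit 0) (nat_lit 0)) T5.l1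
  (TrL.c (I.pos (nat_lit 0) (nat_lit 111196574)) T0.l9
  (TrL.c (I.pos (nat_lit 0) (nat_lit 77433728)) T5.l2
  (TrL.c (I.pos (nat_lit 0) (nat_lit 0)) (xa T5.l5 (xb T5.l5 T5.l5))
  (TrL.c (I.pos (nat_lit 0) (nat_lit 0)) T0.l2
  (TrL.c (I.mix (nat_lit 29511666) (nat_lit 77433728)) T5.l8
  (TrL.c (I.mix (nat_lit 29511666) (nat_lit 46070178)) T0.l3
  TrL.n)))))))) (by decide +kernel)
theorem bx2_5 : BoxOK sI cl7 cl5 cl13 t0 t5 b2_5 :=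
  box_mk (TrL.c (I.pos (nat_lit 0) (nat_lit 0)) T5.l7
  (TrL.c (I.pos (nat_lit 0) (nat_lit 0)) T0.l1
  (TrL.c (I.mix (nat_lit 29511666) (nat_lit 77433728)) (xR T5.l6 T5.l2)
  (TrL.c (I.mix (nat_lit 29511666) (nat_lit 46070178)) T0.l5
  TrL.n)))) (by decide +kernel)
theorem bx2_6 : BoxOK sI cl7 cl5 cl13 t0 t5 b2_6 :=
  box_mk (TrL.c (I.pos (nat_lit 0) (nat_lit 0)) (xb T0.l11 (xa T0.l11 T0.l11))
  (TrL.c (I.pos (nat_lit 0) (nat_lit 0)) T5.l1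
  (TrL.c (I.pos (nat_lit 0) (nat_lit 111196574)) (xR T0.l1 T0.l1)
  (TrL.c (I.pos (nat_lit 0) (nat_lit 77433728)) T5.l2
  (TrL.c (I.pos (nat_lit 0) (nat_lit 0)) T5.l3
  (TrL.c (I.pos (nat_lit 0) (nat_lit 0)) T0.l2
  (TrL.c (I.mix (nat_lit 29511666) (nat_lit 77433728)) (xR T5.l4 T5.l4)
  (TrL.c (I.mix (nat_lit 29511666) (nat_lit 46070178)) T0.l3
  TrL.n)))))))) (by decide +kernel)
theorem bx2_7 : BoxOK sI cl7 cl5 cl13 t0 t5 b2_7 :=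
  box_mk (TrL.c (I.pos (nat_lit 0) (nat_lit 0)) (xb T0.l4 T0.l4)
  (TrL.c (I.pos (nat_lit 0) (nat_lit 0)) T5.l7
  (TrL.c (I.pos (nat_lit 0) (nat_lit 111196574)) T0.l1
  (TrL.c (I.pos (nat_lit 0) (nat_lit 77433728)) T5.l2
  (TrL.c (I.pos (nat_lit 0) (nat_lit 0)) T5.l5
  (TrL.c (I.pos (nat_lit 0) (nat_lit 0)) T0.l2
  (TrL.c (I.mix (nat_lit 29511666) (nat_lit 77433728)) T5.l4
  (TrL.c (I.mix (nat_lit 29511666) (nat_lit 46070178)) T0.l3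
  TrL.n)))))))) (by decide +kernel)
theorem bx2_8 : BoxOK sI cl7 cl5 cl13 t0 t5 b2_8 :=
  box_mk (TrL.c (I.pos (nat_lit 0) (nat_lit 0)) (xa (xb T0.l0 T0.l0) (xb T0.l0 T0.l0))
  (TrL.c (I.pos (nat_lit 0) (nat_lit 0)) T5.l9
  (TrL.c (I.pos (nat_lit 0) (nat_lit 111196574)) (xR T0.l1 T0.l9)
  (TrL.c (I.pos (nat_lit 0) (nat_lit 77433728)) (xR T5.l2 T5.l2)
  (TrL.c (I.pos (nat_lit 0) (nat_lit 0)) (xa (xb (xk T5.l3 T5.l3) T5.l3) (xb (xk (xa T5.l3 T5.l3) (xa T5.l3 T5.l3)) (xk (xa T5.l3 T5.l3) (xa T5.l3 T5.l3))))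
  (TrL.c (I.pos (nat_lit 0) (nat_lit 0)) (xa T0.l2 T0.l2)
  (TrL.c (I.mix (nat_lit 29511666) (nat_lit 77433728)) (xR T5.l4 (xR T5.l4 T5.l4))
  (TrL.c (I.mix (nat_lit 29511666) (nat_lit 46070178)) T0.l3
  TrL.n)))))))) (by decide +kernel)
theorem bx2_9 : BoxOK sI cl7 cl5 cl13 t0 t5 b2_9 :=
  box_mk (TrL.c (I.pos (nat_lit 0) (nat_lit 0)) (xa T0.l11 T0.l11)
  (TrL.c (I.pos (nat_lit 0) (nat_lit 0)) T5.l1
  (TrL.c (I.pos (nat_lit 0) (nat_lit 111196574)) T0.l1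
  (TrL.c (I.pos (nat_lit 0) (nat_lit 77433728)) T5.l2
  (TrL.c (I.pos (nat_lit 0) (nat_lit 0)) (xb T5.l11 T5.l11)
  (TrL.c (I.pos (nat_lit 0) (nat_lit 0)) T0.l2
  (TrL.c (I.mix (nat_lit 29511666) (nat_lit 77433728)) T5.l4
  (TrL.c (I.mix (nat_lit 29511666) (nat_lit 46070178)) T0.l3
  TrL.n)))))))) (by decide +kernel)
theorem bx2_10 : BoxOK sI cl7 cl5 cl13 t0 t5 b2_10 :=
  box_mk (TrL.c (I.pos (nat_lit 0) (nat_lit 0)) (xb T0.l11 T0.l11)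
  (TrL.c (I.pos (nat_lit 0) (nat_lit 0)) T5.l1
  (TrL.c (I.pos (nat_lit 0) (nat_lit 111196574)) (xR T0.l1 T0.l1)
  (TrL.c (I.pos (nat_lit 0) (nat_lit 77433728)) T5.l2
  (TrL.c (I.pos (nat_lit 0) (nat_lit 0)) (xk T5.l11 T5.l11)
  (TrL.c (I.pos (nat_lit 0) (nat_lit 0)) T0.l2
  (TrL.c (I.mix (nat_lit 29511666) (nat_lit 77433728)) T5.l4
  (TrL.c (I.mix (nat_lit 29511666) (nat_lit 46070178)) T0.l3
  TrL.n)))))))) (by decide +kernel)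
theorem bx2_11 : BoxOK sI cl7 cl5 cl13 t0 t5 b2_11 :=
  box_mk (TrL.c (I.pos (nat_lit 0) (nat_lit 0)) (xa (xb T0.l0 T0.l0) T0.l0)
  (TrL.c (I.pos (nat_lit 0) (nat_lit 0)) T5.l1
  (TrL.c (I.pos (nat_lit 0) (nat_lit 111196574)) (xR T0.l1 T0.l1)
  (TrL.c (I.pos (nat_lit 0) (nat_lit 77433728)) (xR T5.l2 T5.l2)
  (TrL.c (I.pos (nat_lit 0) (nat_lit 0)) (xk T5.l3 T5.l3)
  (TrL.c (I.pos (nat_lit 0) (nat_lit 0)) T0.l2
  (TrL.c (I.mix (nat_lit 29511666) (nat_lit 77433728)) (xR T5.l4 T5.l4)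
  (TrL.c (I.mix (nat_lit 29511666) (nat_lit 46070178)) T0.l3
  TrL.n)))))))) (by decide +kernel)
theorem sv2 : StarV sI cl7 cl5 cl13 t0 t5 t2 :=
  (bt_n (bt_n (bt_n (bt_b bx2_0) (bt_n (bt_b bx2_1) (bt_b bx2_2))) (bt_n (bt_b bx2_3) (bt_n (bt_b bx2_4) (bt_b bx2_5)))) (bt_n (bt_n (bt_b bx2_6) (bt_n (bt_b bx2_7) (bt_b bx2_8))) (bt_n (bt_b bx2_9) (bt_n (bt_b bx2_10) (bt_b bx2_11)))))
def S2 : StarD := StarD.mk cl7 cl5 cl13 0 5 t2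
theorem bx3_0 : BoxOK sI cl7 cl13 cl5 t5 t0 b3_0 :=
  box_mk (TrL.c (I.pos (nat_lit 0) (nat_lit 0)) (xa (xa (xb T5.l0 (xa T5.l0 T5.l0)) (xb T5.l0 T5.l0)) (xa (xb T5.l0 T5.l0) (xb T5.l0 T5.l0)))
  (TrL.c (I.pos (nat_lit 0) (nat_lit 0)) (xa T0.l6 T0.l6)
  (TrL.c (I.pos (nat_lit 0) (nat_lit 111196574)) (xR T5.l8 T5.l8)
  (TrL.c (I.pos (nat_lit 0) (nat_lit 77433728)) (xR T0.l7 T0.l7)
  (TrL.c (I.pos (nat_lit 0) (nat_lit 0)) (xa T0.l8 (xk T0.l8 T0.l8))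
  (TrL.c (I.pos (nat_lit 0) (nat_lit 0)) T5.l9
  (TrL.c (I.mix (nat_lit 29511666) (nat_lit 77433728)) (xR T0.l9 T0.l9)
  (TrL.c (I.mix (nat_lit 29511666) (nat_lit 46070178)) T5.l10
  TrL.n)))))))) (by decide +kernel)
theorem bx3_1 : BoxOK sI cl7 cl13 cl5 t5 t0 b3_1 :=
  box_mk (TrL.c (I.pos (nat_lit 0) (nat_lit 0)) (xa (xb T5.l12 T5.l12) T5.l0)
  (TrL.c (I.pos (nat_lit 0) (nat_lit 0)) T0.l6
  (TrL.c (I.pos (nat_lit 0) (nat_lit 111196574)) T5.l8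
  (TrL.c (I.pos (nat_lit 0) (nat_lit 77433728)) T0.l7
  (TrL.c (I.pos (nat_lit 0) (nat_lit 0)) (xa T0.l12 (xb T0.l12 T0.l12))
  (TrL.c (I.pos (nat_lit 0) (nat_lit 0)) T5.l9
  (TrL.c (I.mix (nat_lit 29511666) (nat_lit 77433728)) (xR T0.l9 T0.l9)
  (TrL.c (I.mix (nat_lit 29511666) (nat_lit 46070178)) T5.l10
  TrL.n)))))))) (by decide +kernel)
theorem bx3_2 : BoxOK sI cl7 cl13 cl5 t5 t0 b3_2 :=
  box_mk (TrL.c (I.pos (nat_lit 0) (nat_lit 0)) (xa (xa (xa (xb T5.l12 T5.l12) T5.l12) T5.l12) T5.l12)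
  (TrL.c (I.pos (nat_lit 0) (nat_lit 0)) T0.l6
  (TrL.c (I.pos (nat_lit 0) (nat_lit 111196574)) T5.l8
  (TrL.c (I.pos (nat_lit 0) (nat_lit 77433728)) T0.l7
  (TrL.c (I.pos (nat_lit 0) (nat_lit 0)) (xa T0.l12 T0.l12)
  (TrL.c (I.pos (nat_lit 0) (nat_lit 0)) T5.l9
  (TrL.c (I.mix (nat_lit 29511666) (nat_lit 77433728)) T0.l9
  (TrL.c (I.mix (nat_lit 29511666) (nat_lit 46070178)) T5.l10
  TrL.n)))))))) (by decide +kernel)
theorem bx3_3 : BoxOK sI cl7 cl13 cl5 t5 t0 b3_3 :=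
  box_mk (TrL.c (I.pos (nat_lit 0) (nat_lit 0)) (xb (xa T5.l13 T5.l13) (xa (xb T5.l13 (xs T5.l13 T5.l13)) (xb T5.l13 T5.l13)))
  (TrL.c (I.pos (nat_lit 0) (nat_lit 0)) T0.l6
  (TrL.c (I.pos (nat_lit 0) (nat_lit 111196574)) (xR T5.l8 (xR T5.l8 T5.l8))
  (TrL.c (I.pos (nat_lit 0) (nat_lit 77433728)) (xR T0.l7 T0.l7)
  (TrL.c (I.pos (nat_lit 0) (nat_lit 0)) (xb (xk T0.l13 T0.l13) (xk T0.l13 T0.l13))
  (TrL.c (I.pos (nat_lit 0) (nat_lit 0)) T5.l9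
  (TrL.c (I.mix (nat_lit 29511666) (nat_lit 77433728)) (xR T0.l9 T0.l9)
  (TrL.c (I.mix (nat_lit 29511666) (nat_lit 46070178)) (xR T5.l10 T5.l10)
  TrL.n)))))))) (by decide +kernel)
theorem bx3_4 : BoxOK sI cl7 cl13 cl5 t5 t0 b3_4 :=
  box_mk (TrL.c (I.pos (nat_lit 0) (nat_lit 0)) (xa (xa (xb (xa T5.l12 T5.l12) (xa T5.l12 T5.l12)) (xb T5.l12 T5.l12)) (xa (xb T5.l12 T5.l12) (xa T5.l12 T5.l12)))
  (TrL.c (I.pos (nat_lit 0) (nat_lit 0)) (xa T0.l6 T0.l6)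
  (TrL.c (I.pos (nat_lit 0) (nat_lit 111196574)) T5.l8
  (TrL.c (I.pos (nat_lit 0) (nat_lit 77433728)) T0.l7
  (TrL.c (I.pos (nat_lit 0) (nat_lit 0)) (xa T0.l12 T0.l12)
  (TrL.c (I.pos (nat_lit 0) (nat_lit 0)) T5.l9
  (TrL.c (I.mix (nat_lit 29511666) (nat_lit 77433728)) (xR T0.l9 T0.l9)
  (TrL.c (I.mix (nat_lit 29511666) (nat_lit 46070178)) T5.l10
  TrL.n)))))))) (by decide +kernel)
theorem bx3_5 : BoxOK sI cl7 cl13 cl5 t5 t0 b3_5 :=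
  box_mk (TrL.c (I.pos (nat_lit 0) (nat_lit 0)) T5.l0
  (TrL.c (I.pos (nat_lit 0) (nat_lit 0)) T0.l6
  (TrL.c (I.pos (nat_lit 0) (nat_lit 111196574)) T5.l8
  (TrL.c (I.pos (nat_lit 0) (nat_lit 77433728)) T0.l7
  (TrL.c (I.pos (nat_lit 0) (nat_lit 0)) (xk T0.l13 T0.l13)
  (TrL.c (I.pos (nat_lit 0) (nat_lit 0)) T5.l9
  (TrL.c (I.mix (nat_lit 29511666) (nat_lit 77433728)) (xR T0.l9 T0.l9)
  (TrL.c (I.mix (nat_lit 29511666) (nat_lit 46070178)) T5.l10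
  TrL.n)))))))) (by decide +kernel)
theorem bx3_6 : BoxOK sI cl7 cl13 cl5 t5 t0 b3_6 :=
  box_mk (TrL.c (I.pos (nat_lit 0) (nat_lit 0)) T5.l12
  (TrL.c (I.pos (nat_lit 0) (nat_lit 0)) T0.l6
  (TrL.c (I.pos (nat_lit 0) (nat_lit 111196574)) T5.l8
  (TrL.c (I.pos (nat_lit 0) (nat_lit 77433728)) T0.l7
  (TrL.c (I.pos (nat_lit 0) (nat_lit 0)) T0.l12
  (TrL.c (I.pos (nat_lit 0) (nat_lit 0)) T5.l9
  (TrL.c (I.mix (nat_lit 29511666) (nat_lit 77433728)) (xR T0.l9 T0.l9)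
  (TrL.c (I.mix (nat_lit 29511666) (nat_lit 46070178)) T5.l10
  TrL.n)))))))) (by decide +kernel)
theorem bx3_7 : BoxOK sI cl7 cl13 cl5 t5 t0 b3_7 :=
  box_mk (TrL.c (I.pos (nat_lit 0) (nat_lit 0)) (xa T5.l12 T5.l12)
  (TrL.c (I.pos (nat_lit 0) (nat_lit 0)) T0.l6
  (TrL.c (I.pos (nat_lit 0) (nat_lit 111196574)) T5.l8
  (TrL.c (I.pos (nat_lit 0) (nat_lit 77433728)) T0.l7
  (TrL.c (I.pos (nat_lit 0) (nat_lit 0)) T0.l12
  (TrL.c (I.pos (nat_lit 0) (nat_lit 0)) T5.l9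
  (TrL.c (I.mix (nat_lit 29511666) (nat_lit 77433728)) T0.l9
  (TrL.c (I.mix (nat_lit 29511666) (nat_lit 46070178)) T5.l10
  TrL.n)))))))) (by decide +kernel)
theorem bx3_8 : BoxOK sI cl7 cl13 cl5 t5 t0 b3_8 :=
  box_mk (TrL.c (I.pos (nat_lit 0) (nat_lit 0)) (xa (xa (xa T5.l12 T5.l12) T5.l12) (xa T5.l12 T5.l12))
  (TrL.c (I.pos (nat_lit 0) (nat_lit 0)) (xa T0.l6 T0.l6)
  (TrL.c (I.pos (nat_lit 0) (nat_lit 111196574)) T5.l8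
  (TrL.c (I.pos (nat_lit 0) (nat_lit 77433728)) T0.l7
  (TrL.c (I.pos (nat_lit 0) (nat_lit 0)) (xa T0.l12 T0.l12)
  (TrL.c (I.pos (nat_lit 0) (nat_lit 0)) T5.l9
  (TrL.c (I.mix (nat_lit 29511666) (nat_lit 77433728)) (xR T0.l9 T0.l9)
  (TrL.c (I.mix (nat_lit 29511666) (nat_lit 46070178)) T5.l10
  TrL.n)))))))) (by decide +kernel)
theorem bx3_9 : BoxOK sI cl7 cl13 cl5 t5 t0 b3_9 :=
  box_mk (TrL.c (I.pos (nat_lit 0) (nat_lit 0)) (xb (xa T5.l12 T5.l12) (xa (xb T5.l12 T5.l12) T5.l12))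
  (TrL.c (I.pos (nat_lit 0) (nat_lit 0)) T0.l6
  (TrL.c (I.pos (nat_lit 0) (nat_lit 111196574)) T5.l8
  (TrL.c (I.pos (nat_lit 0) (nat_lit 77433728)) T0.l7
  (TrL.c (I.pos (nat_lit 0) (nat_lit 0)) (xb (xa T0.l12 T0.l12) (xa T0.l12 T0.l12))
  (TrL.c (I.pos (nat_lit 0) (nat_lit 0)) T5.l9
  (TrL.c (I.mix (nat_lit 29511666) (nat_lit 77433728)) (xR T0.l9 T0.l9)
  (TrL.c (I.mix (nat_lit 29511666) (nat_lit 46070178)) T5.l10
  TrL.n)))))))) (by decide +kernel)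
theorem bx3_10 : BoxOK sI cl7 cl13 cl5 t5 t0 b3_10 :=
  box_mk (TrL.c (I.pos (nat_lit 0) (nat_lit 0)) (xa T5.l12 T5.l12)
  (TrL.c (I.pos (nat_lit 0) (nat_lit 0)) T0.l6
  (TrL.c (I.pos (nat_lit 0) (nat_lit 111196574)) T5.l8
  (TrL.c (I.pos (nat_lit 0) (nat_lit 77433728)) T0.l7
  (TrL.c (I.pos (nat_lit 0) (nat_lit 0)) (xa T0.l12 T0.l12)
  (TrL.c (I.pos (nat_lit 0) (nat_lit 0)) T5.l9
  (TrL.c (I.mix (nat_lit 29511666) (nat_lit 77433728)) T0.l9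
  (TrL.c (I.mix (nat_lit 29511666) (nat_lit 46070178)) T5.l10
  TrL.n)))))))) (by decide +kernel)
theorem bx3_11 : BoxOK sI cl7 cl13 cl5 t5 t0 b3_11 :=
  box_mk (TrL.c (I.pos (nat_lit 0) (nat_lit 0)) (xa (xb T5.l0 T5.l0) (xb T5.l0 (xa T5.l0 T5.l0)))
  (TrL.c (I.pos (nat_lit 0) (nat_lit 0)) (xa T0.l6 T0.l6)
  (TrL.c (I.pos (nat_lit 0) (nat_lit 111196574)) (xR T5.l8 T5.l8)
  (TrL.c (I.pos (nat_lit 0) (nat_lit 77433728)) (xR T0.l7 T0.l7)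
  (TrL.c (I.pos (nat_lit 0) (nat_lit 0)) (xa (xb (xk T0.l8 T0.l8) T0.l8) (xb (xk (xa T0.l8 T0.l8) (xa T0.l8 T0.l8)) (xk (xa T0.l8 T0.l8) (xa T0.l8 T0.l8))))
  (TrL.c (I.pos (nat_lit 0) (nat_lit 0)) T5.l9
  (TrL.c (I.mix (nat_lit 29511666) (nat_lit 77433728)) (xR T0.l9 T0.l9)
  (TrL.c (I.mix (nat_lit 29511666) (nat_lit 46070178)) (xR T5.l10 T5.l10)
  TrL.n)))))))) (by decide +kernel)
theorem bx3_12 : BoxOK sI cl7 cl13 cl5 t5 t0 b3_12 :=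
  box_mk (TrL.c (I.pos (nat_lit 0) (nat_lit 0)) (xa T5.l0 T5.l0)
  (TrL.c (I.pos (nat_lit 0) (nat_lit 0)) T0.l6
  (TrL.c (I.pos (nat_lit 0) (nat_lit 111196574)) (xR T5.l8 T5.l8)
  (TrL.c (I.pos (nat_lit 0) (nat_lit 77433728)) (xR T0.l7 T0.l7)
  (TrL.c (I.pos (nat_lit 0) (nat_lit 0)) (xk T0.l8 T0.l8)
  (TrL.c (I.pos (nat_lit 0) (nat_lit 0)) T5.l9
  (TrL.c (I.mix (nat_lit 29511666) (nat_lit 77433728)) (xR T0.l9 T0.l9)
  (TrL.c (I.mix (nat_lit 29511666) (nat_lit 46070178)) T5.l10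
  TrL.n)))))))) (by decide +kernel)
theorem bx3_13 : BoxOK sI cl7 cl13 cl5 t5 t0 b3_13 :=
  box_mk (TrL.c (I.pos (nat_lit 0) (nat_lit 0)) (xb (xa T5.l13 T5.l13) T5.l13)
  (TrL.c (I.pos (nat_lit 0) (nat_lit 0)) T0.l6
  (TrL.c (I.pos (nat_lit 0) (nat_lit 111196574)) (xR T5.l8 T5.l8)
  (TrL.c (I.pos (nat_lit 0) (nat_lit 77433728)) T0.l7
  (TrL.c (I.pos (nat_lit 0) (nat_lit 0)) (xk (xb T0.l13 T0.l13) T0.l13)
  (TrL.c (I.pos (nat_lit 0) (nat_lit 0)) T5.l9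
  (TrL.c (I.mix (nat_lit 29511666) (nat_lit 77433728)) (xR T0.l9 T0.l9)
  (TrL.c (I.mix (nat_lit 29511666) (nat_lit 46070178)) T5.l10
  TrL.n)))))))) (by decide +kernel)
theorem sv3 : StarV sI cl7 cl13 cl5 t5 t0 t3 :=
  (bt_n (bt_n (bt_n (bt_b bx3_0) (bt_n (bt_b bx3_1) (bt_b bx3_2))) (bt_n (bt_n (bt_b bx3_3) (bt_b bx3_4)) (bt_n (bt_b bx3_5) (bt_b bx3_6)))) (bt_n (bt_n (bt_b bx3_7) (bt_n (bt_b bx3_8) (bt_b bx3_9))) (bt_n (bt_n (bt_b bx3_10) (bt_b bx3_11)) (bt_n (bt_b bx3_12) (bt_b bx3_13)))))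
def S3 : StarD := StarD.mk cl7 cl13 cl5 5 0 t3
theorem bx4_0 : BoxOK sI cl13 cl5 cl7 t1 t3 b4_0 :=
  box_mk (TrL.c (I.pos (nat_lit 0) (nat_lit 0)) (xa (xb T1.l0 T1.l0) T1.l0)
  (TrL.c (I.pos (nat_lit 0) (nat_lit 0)) T3.l1
  (TrL.c (I.pos (nat_lit 0) (nat_lit 134217730)) (xR T1.l1 T1.l1)
  (TrL.c (I.pos (nat_lit 0) (nat_lit 110514882)) (xR T3.l2 T3.l2)
  (TrL.c (I.pos (nat_lit 0) (nat_lit 0)) (xa T3.l3 (xk T3.l3 T3.l3))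
  (TrL.c (I.pos (nat_lit 0) (nat_lit 0)) T1.l2
  (TrL.c (I.mix (nat_lit 8088324) (nat_lit 110514882)) T3.l4
  (TrL.c (I.mix (nat_lit 8088324) (nat_lit 89478486)) T1.l3
  TrL.n)))))))) (by decide +kernel)
theorem bx4_1 : BoxOK sI cl13 cl5 cl7 t1 t3 b4_1 :=
  box_mk (TrL.c (I.pos (nat_lit 0) (nat_lit 0)) (xa (xb T1.l4 T1.l4) (xb T1.l4 T1.l4))
  (TrL.c (I.pos (nat_lit 0) (nat_lit 0)) T3.l1
  (TrL.c (I.pos (nat_lit 0) (nat_lit 134217730)) T1.l1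
  (TrL.c (I.pos (nat_lit 0) (nat_lit 110514882)) T3.l2
  (TrL.c (I.pos (nat_lit 0) (nat_lit 0)) (xa T3.l5 (xb T3.l5 T3.l5))
  (TrL.c (I.pos (nat_lit 0) (nat_lit 0)) T1.l2
  (TrL.c (I.mix (nat_lit 8088324) (nat_lit 110514882)) T3.l4
  (TrL.c (I.mix (nat_lit 8088324) (nat_lit 89478486)) T1.l7
  TrL.n)))))))) (by decide +kernel)
theorem bx4_2 : BoxOK sI cl13 cl5 cl7 t1 t3 b4_2 :=
  box_mk (TrL.c (I.pos (nat_lit 0) (nat_lit 0)) T3.l6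
  (TrL.c (I.pos (nat_lit 0) (nat_lit 0)) T1.l1
  (TrL.c (I.mix (nat_lit 8088324) (nat_lit 110514882)) (xR T3.l7 T3.l7)
  (TrL.c (I.mix (nat_lit 8088324) (nat_lit 89478486)) T1.l1
  TrL.n)))) (by decide +kernel)
theorem bx4_3 : BoxOK sI cl13 cl5 cl7 t1 t3 b4_3 :=
  box_mk (TrL.c (I.pos (nat_lit 0) (nat_lit 0)) (xb T1.l13 (xa T1.l13 T1.l13))
  (TrL.c (I.pos (nat_lit 0) (nat_lit 0)) T3.l1
  (TrL.c (I.pos (nat_lit 0) (nat_lit 134217730)) (xR T1.l1 T1.l1)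
  (TrL.c (I.pos (nat_lit 0) (nat_lit 110514882)) (xR T3.l2 T3.l2)
  (TrL.c (I.pos (nat_lit 0) (nat_lit 0)) (xk T3.l13 T3.l13)
  (TrL.c (I.pos (nat_lit 0) (nat_lit 0)) T1.l2
  (TrL.c (I.mix (nat_lit 8088324) (nat_lit 110514882)) T3.l4
  (TrL.c (I.mix (nat_lit 8088324) (nat_lit 89478486)) T1.l3
  TrL.n)))))))) (by decide +kernel)
theorem bx4_4 : BoxOK sI cl13 cl5 cl7 t1 t3 b4_4 :=
  box_mk (TrL.c (I.pos (nat_lit 0) (nat_lit 0)) T1.l4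
  (TrL.c (I.pos (nat_lit 0) (nat_lit 0)) T3.l6
  (TrL.c (I.pos (nat_lit 0) (nat_lit 134217730)) T1.l1
  (TrL.c (I.pos (nat_lit 0) (nat_lit 110514882)) (xR T3.l2 T3.l2)
  (TrL.c (I.pos (nat_lit 0) (nat_lit 0)) T3.l5
  (TrL.c (I.pos (nat_lit 0) (nat_lit 0)) T1.l2
  (TrL.c (I.mix (nat_lit 8088324) (nat_lit 110514882)) T3.l4
  (TrL.c (I.mix (nat_lit 8088324) (nat_lit 89478486)) T1.l3
  TrL.n)))))))) (by decide +kernel)
theorem bx4_5 : BoxOK sI cl13 cl5 cl7 t1 t3 b4_5 :=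
  box_mk (TrL.c (I.pos (nat_lit 0) (nat_lit 0)) (xa T1.l4 T1.l4)
  (TrL.c (I.pos (nat_lit 0) (nat_lit 0)) T3.l1
  (TrL.c (I.pos (nat_lit 0) (nat_lit 134217730)) T1.l1
  (TrL.c (I.pos (nat_lit 0) (nat_lit 110514882)) T3.l2
  (TrL.c (I.pos (nat_lit 0) (nat_lit 0)) T3.l5
  (TrL.c (I.pos (nat_lit 0) (nat_lit 0)) T1.l2
  (TrL.c (I.mix (nat_lit 8088324) (nat_lit 110514882)) T3.l4
  (TrL.c (I.mix (nat_lit 8088324) (nat_lit 89478486)) T1.l3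
  TrL.n)))))))) (by decide +kernel)
theorem bx4_6 : BoxOK sI cl13 cl5 cl7 t1 t3 b4_6 :=
  box_mk (TrL.c (I.pos (nat_lit 0) (nat_lit 0)) (xb (xa T1.l4 T1.l4) T1.l4)
  (TrL.c (I.pos (nat_lit 0) (nat_lit 0)) T3.l1
  (TrL.c (I.pos (nat_lit 0) (nat_lit 134217730)) T1.l1
  (TrL.c (I.pos (nat_lit 0) (nat_lit 110514882)) T3.l2
  (TrL.c (I.pos (nat_lit 0) (nat_lit 0)) T3.l5
  (TrL.c (I.pos (nat_lit 0) (nat_lit 0)) T1.l2
  (TrL.c (I.mix (nat_lit 8088324) (nat_lit 110514882)) T3.l4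
  (TrL.c (I.mix (nat_lit 8088324) (nat_lit 89478486)) T1.l3
  TrL.n)))))))) (by decide +kernel)
theorem bx4_7 : BoxOK sI cl13 cl5 cl7 t1 t3 b4_7 :=
  box_mk (TrL.c (I.pos (nat_lit 0) (nat_lit 0)) T3.l1
  (TrL.c (I.pos (nat_lit 0) (nat_lit 0)) T1.l1
  (TrL.c (I.mix (nat_lit 8088324) (nat_lit 110514882)) T3.l2
  (TrL.c (I.mix (nat_lit 8088324) (nat_lit 89478486)) T1.l1
  TrL.n)))) (by decide +kernel)
theorem bx4_8 : BoxOK sI cl13 cl5 cl7 t1 t3 b4_8 :=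
  box_mk (TrL.c (I.pos (nat_lit 0) (nat_lit 0)) T1.l0
  (TrL.c (I.pos (nat_lit 0) (nat_lit 0)) T3.l1
  (TrL.c (I.pos (nat_lit 0) (nat_lit 134217730)) (xR T1.l1 T1.l1)
  (TrL.c (I.pos (nat_lit 0) (nat_lit 110514882)) T3.l2
  (TrL.c (I.pos (nat_lit 0) (nat_lit 0)) T3.l13
  (TrL.c (I.pos (nat_lit 0) (nat_lit 0)) T1.l2
  (TrL.c (I.mix (nat_lit 8088324) (nat_lit 110514882)) T3.l4
  (TrL.c (I.mix (nat_lit 8088324) (nat_lit 89478486)) T1.l3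
  TrL.n)))))))) (by decide +kernel)
theorem bx4_9 : BoxOK sI cl13 cl5 cl7 t1 t3 b4_9 :=
  box_mk (TrL.c (I.pos (nat_lit 0) (nat_lit 0)) (xa (xb T1.l0 T1.l0) (xb T1.l0 T1.l0))
  (TrL.c (I.pos (nat_lit 0) (nat_lit 0)) T3.l1
  (TrL.c (I.pos (nat_lit 0) (nat_lit 134217730)) (xR T1.l1 T1.l9)
  (TrL.c (I.pos (nat_lit 0) (nat_lit 110514882)) (xR T3.l2 T3.l2)
  (TrL.c (I.pos (nat_lit 0) (nat_lit 0)) (xa (xb (xk T3.l3 T3.l3) T3.l3) (xb (xk (xa T3.l3 T3.l3) (xa T3.l3 T3.l3)) (xk (xa T3.l3 T3.l3) (xa T3.l3 T3.l3))))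
  (TrL.c (I.pos (nat_lit 0) (nat_lit 0)) (xa T1.l2 T1.l2)
  (TrL.c (I.mix (nat_lit 8088324) (nat_lit 110514882)) (xR T3.l4 (xR T3.l4 T3.l4))
  (TrL.c (I.mix (nat_lit 8088324) (nat_lit 89478486)) (xR T1.l3 T1.l7)
  TrL.n)))))))) (by decide +kernel)
theorem bx4_10 : BoxOK sI cl13 cl5 cl7 t1 t3 b4_10 :=
  box_mk (TrL.c (I.pos (nat_lit 0) (nat_lit 0)) (xa T1.l0 T1.l0)
  (TrL.c (I.pos (nat_lit 0) (nat_lit 0)) T3.l1
  (TrL.c (I.pos (nat_lit 0) (nat_lit 134217730)) (xR T1.l1 T1.l1)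
  (TrL.c (I.pos (nat_lit 0) (nat_lit 110514882)) (xR T3.l2 T3.l2)
  (TrL.c (I.pos (nat_lit 0) (nat_lit 0)) (xk T3.l3 T3.l3)
  (TrL.c (I.pos (nat_lit 0) (nat_lit 0)) T1.l2
  (TrL.c (I.mix (nat_lit 8088324) (nat_lit 110514882)) T3.l4
  (TrL.c (I.mix (nat_lit 8088324) (nat_lit 89478486)) T1.l3
  TrL.n)))))))) (by decide +kernel)
theorem bx4_11 : BoxOK sI cl13 cl5 cl7 t1 t3 b4_11 :=
  box_mk (TrL.c (I.pos (nat_lit 0) (nat_lit 0)) (xb T1.l13 T1.l13)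
  (TrL.c (I.pos (nat_lit 0) (nat_lit 0)) T3.l1
  (TrL.c (I.pos (nat_lit 0) (nat_lit 134217730)) (xR T1.l1 T1.l9)
  (TrL.c (I.pos (nat_lit 0) (nat_lit 110514882)) (xR T3.l2 T3.l2)
  (TrL.c (I.pos (nat_lit 0) (nat_lit 0)) T3.l13
  (TrL.c (I.pos (nat_lit 0) (nat_lit 0)) T1.l2
  (TrL.c (I.mix (nat_lit 8088324) (nat_lit 110514882)) T3.l4
  (TrL.c (I.mix (nat_lit 8088324) (nat_lit 89478486)) T1.l3
  TrL.n)))))))) (by decide +kernel)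
theorem sv4 : StarV sI cl13 cl5 cl7 t1 t3 t4 :=
  (bt_n (bt_n (bt_n (bt_b bx4_0) (bt_n (bt_b bx4_1) (bt_b bx4_2))) (bt_n (bt_b bx4_3) (bt_n (bt_b bx4_4) (bt_b bx4_5)))) (bt_n (bt_n (bt_b bx4_6) (bt_n (bt_b bx4_7) (bt_b bx4_8))) (bt_n (bt_b bx4_9) (bt_n (bt_b bx4_10) (bt_b bx4_11)))))
def S4 : StarD := StarD.mk cl13 cl5 cl7 1 3 t4
theorem bx5_0 : BoxOK sI cl13 cl7 cl5 t3 t1 b5_0 :=
  box_mk (TrL.c (I.pos (nat_lit 0) (nat_lit 0)) (xa (xb T3.l0 (xa T3.l0 T3.l0)) (xb T3.l0 (xa T3.l0 T3.l0)))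
  (TrL.c (I.pos (nat_lit 0) (nat_lit 0)) T1.l6
  (TrL.c (I.pos (nat_lit 0) (nat_lit 134217730)) (xR T3.l8 T3.l8)
  (TrL.c (I.pos (nat_lit 0) (nat_lit 110514882)) (xR T1.l7 T1.l7)
  (TrL.c (I.pos (nat_lit 0) (nat_lit 0)) (xa T1.l8 (xk T1.l8 T1.l8))
  (TrL.c (I.pos (nat_lit 0) (nat_lit 0)) T3.l9
  (TrL.c (I.mix (nat_lit 8088324) (nat_lit 110514882)) (xR T1.l9 T1.l9)
  (TrL.c (I.mix (nat_lit 8088324) (nat_lit 89478486)) (xR T3.l10 T3.l10)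
  TrL.n)))))))) (by decide +kernel)
theorem bx5_1 : BoxOK sI cl13 cl7 cl5 t3 t1 b5_1 :=
  box_mk (TrL.c (I.pos (nat_lit 0) (nat_lit 0)) (xa T3.l11 T3.l11)
  (TrL.c (I.pos (nat_lit 0) (nat_lit 0)) T1.l6
  (TrL.c (I.pos (nat_lit 0) (nat_lit 134217730)) (xR T3.l8 T3.l8)
  (TrL.c (I.pos (nat_lit 0) (nat_lit 110514882)) T1.l7
  (TrL.c (I.pos (nat_lit 0) (nat_lit 0)) (xa T1.l10 (xb T1.l10 T1.l10))
  (TrL.c (I.pos (nat_lit 0) (nat_lit 0)) T3.l9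
  (TrL.c (I.mix (nat_lit 8088324) (nat_lit 110514882)) T1.l9
  (TrL.c (I.mix (nat_lit 8088324) (nat_lit 89478486)) T3.l2
  TrL.n)))))))) (by decide +kernel)
theorem bx5_2 : BoxOK sI cl13 cl7 cl5 t3 t1 b5_2 :=
  box_mk (TrL.c (I.pos (nat_lit 0) (nat_lit 0)) (xa T3.l11 T3.l11)
  (TrL.c (I.pos (nat_lit 0) (nat_lit 0)) T1.l6
  (TrL.c (I.pos (nat_lit 0) (nat_lit 134217730)) T3.l8
  (TrL.c (I.pos (nat_lit 0) (nat_lit 110514882)) T1.l7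
  (TrL.c (I.pos (nat_lit 0) (nat_lit 0)) T1.l10
  (TrL.c (I.pos (nat_lit 0) (nat_lit 0)) T3.l9
  (TrL.c (I.mix (nat_lit 8088324) (nat_lit 110514882)) T1.l9
  (TrL.c (I.mix (nat_lit 8088324) (nat_lit 89478486)) T3.l10
  TrL.n)))))))) (by decide +kernel)
theorem bx5_3 : BoxOK sI cl13 cl7 cl5 t3 t1 b5_3 :=
  box_mk (TrL.c (I.pos (nat_lit 0) (nat_lit 0)) (xb (xa (xb T3.l12 T3.l12) T3.l12) (xa (xb T3.l12 (xa T3.l12 T3.l12)) (xb T3.l12 (xs T3.l12 T3.l12))))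
  (TrL.c (I.pos (nat_lit 0) (nat_lit 0)) T1.l6
  (TrL.c (I.pos (nat_lit 0) (nat_lit 134217730)) (xR T3.l8 (xR T3.l8 T3.l8))
  (TrL.c (I.pos (nat_lit 0) (nat_lit 110514882)) (xR T1.l7 T1.l7)
  (TrL.c (I.pos (nat_lit 0) (nat_lit 0)) (xb (xk T1.l11 T1.l11) (xk (xa T1.l11 T1.l11) (xa T1.l11 T1.l11)))
  (TrL.c (I.pos (nat_lit 0) (nat_lit 0)) T3.l9
  (TrL.c (I.mix (nat_lit 8088324) (nat_lit 110514882)) (xR T1.l9 (xR T1.l9 T1.l9))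
  (TrL.c (I.mix (nat_lit 8088324) (nat_lit 89478486)) (xR T3.l10 T3.l10)
  TrL.n)))))))) (by decide +kernel)
theorem bx5_4 : BoxOK sI cl13 cl7 cl5 t3 t1 b5_4 :=
  box_mk (TrL.c (I.pos (nat_lit 0) (nat_lit 0)) (xa (xa (xb T3.l11 (xa T3.l11 T3.l11)) T3.l11) (xa T3.l11 T3.l11))
  (TrL.c (I.pos (nat_lit 0) (nat_lit 0)) (xa T1.l6 T1.l6)
  (TrL.c (I.pos (nat_lit 0) (nat_lit 134217730)) T3.l8
  (TrL.c (I.pos (nat_lit 0) (nat_lit 110514882)) T1.l7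
  (TrL.c (I.pos (nat_lit 0) (nat_lit 0)) (xa T1.l10 T1.l10)
  (TrL.c (I.pos (nat_lit 0) (nat_lit 0)) T3.l9
  (TrL.c (I.mix (nat_lit 8088324) (nat_lit 110514882)) T1.l9
  (TrL.c (I.mix (nat_lit 8088324) (nat_lit 89478486)) T3.l10
  TrL.n)))))))) (by decide +kernel)
theorem bx5_5 : BoxOK sI cl13 cl7 cl5 t3 t1 b5_5 :=
  box_mk (TrL.c (I.pos (nat_lit 0) (nat_lit 0)) T3.l0
  (TrL.c (I.pos (nat_lit 0) (nat_lit 0)) T1.l6
  (TrL.c (I.pos (nat_lit 0) (nat_lit 134217730)) (xR T3.l8 T3.l8)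
  (TrL.c (I.pos (nat_lit 0) (nat_lit 110514882)) (xR T1.l7 T1.l7)
  (TrL.c (I.pos (nat_lit 0) (nat_lit 0)) T1.l11
  (TrL.c (I.pos (nat_lit 0) (nat_lit 0)) T3.l9
  (TrL.c (I.mix (nat_lit 8088324) (nat_lit 110514882)) (xR T1.l9 T1.l9)
  (TrL.c (I.mix (nat_lit 8088324) (nat_lit 89478486)) T3.l2
  TrL.n)))))))) (by decide +kernel)
theorem bx5_6 : BoxOK sI cl13 cl7 cl5 t3 t1 b5_6 :=
  box_mk (TrL.c (I.pos (nat_lit 0) (nat_lit 0)) T3.l11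
  (TrL.c (I.pos (nat_lit 0) (nat_lit 0)) T1.l6
  (TrL.c (I.pos (nat_lit 0) (nat_lit 134217730)) T3.l8
  (TrL.c (I.pos (nat_lit 0) (nat_lit 110514882)) T1.l7
  (TrL.c (I.pos (nat_lit 0) (nat_lit 0)) T1.l10
  (TrL.c (I.pos (nat_lit 0) (nat_lit 0)) T3.l9
  (TrL.c (I.mix (nat_lit 8088324) (nat_lit 110514882)) T1.l9
  (TrL.c (I.mix (nat_lit 8088324) (nat_lit 89478486)) T3.l10
  TrL.n)))))))) (by decide +kernel)
theorem bx5_7 : BoxOK sI cl13 cl7 cl5 t3 t1 b5_7 :=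
  box_mk (TrL.c (I.pos (nat_lit 0) (nat_lit 0)) T3.l11
  (TrL.c (I.pos (nat_lit 0) (nat_lit 0)) T1.l6
  (TrL.c (I.pos (nat_lit 0) (nat_lit 134217730)) T3.l8
  (TrL.c (I.pos (nat_lit 0) (nat_lit 110514882)) T1.l7
  (TrL.c (I.pos (nat_lit 0) (nat_lit 0)) T1.l10
  (TrL.c (I.pos (nat_lit 0) (nat_lit 0)) T3.l9
  (TrL.c (I.mix (nat_lit 8088324) (nat_lit 110514882)) T1.l9
  (TrL.c (I.mix (nat_lit 8088324) (nat_lit 89478486)) T3.l10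
  TrL.n)))))))) (by decide +kernel)
theorem bx5_8 : BoxOK sI cl13 cl7 cl5 t3 t1 b5_8 :=
  box_mk (TrL.c (I.pos (nat_lit 0) (nat_lit 0)) (xa (xa (xb T3.l11 (xa T3.l11 T3.l11)) T3.l11) (xa T3.l11 T3.l11))
  (TrL.c (I.pos (nat_lit 0) (nat_lit 0)) (xa T1.l6 T1.l6)
  (TrL.c (I.pos (nat_lit 0) (nat_lit 134217730)) T3.l8
  (TrL.c (I.pos (nat_lit 0) (nat_lit 110514882)) T1.l7
  (TrL.c (I.pos (nat_lit 0) (nat_lit 0)) (xa T1.l10 T1.l10)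
  (TrL.c (I.pos (nat_lit 0) (nat_lit 0)) T3.l9
  (TrL.c (I.mix (nat_lit 8088324) (nat_lit 110514882)) T1.l9
  (TrL.c (I.mix (nat_lit 8088324) (nat_lit 89478486)) T3.l10
  TrL.n)))))))) (by decide +kernel)
theorem bx5_9 : BoxOK sI cl13 cl7 cl5 t3 t1 b5_9 :=
  box_mk (TrL.c (I.pos (nat_lit 0) (nat_lit 0)) (xb (xa T3.l11 T3.l11) (xa T3.l11 T3.l11))
  (TrL.c (I.pos (nat_lit 0) (nat_lit 0)) T1.l6
  (TrL.c (I.pos (nat_lit 0) (nat_lit 134217730)) T3.l8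
  (TrL.c (I.pos (nat_lit 0) (nat_lit 110514882)) T1.l7
  (TrL.c (I.pos (nat_lit 0) (nat_lit 0)) (xb (xa T1.l10 T1.l10) T1.l10)
  (TrL.c (I.pos (nat_lit 0) (nat_lit 0)) T3.l9
  (TrL.c (I.mix (nat_lit 8088324) (nat_lit 110514882)) T1.l9
  (TrL.c (I.mix (nat_lit 8088324) (nat_lit 89478486)) T3.l10
  TrL.n)))))))) (by decide +kernel)
theorem bx5_10 : BoxOK sI cl13 cl7 cl5 t3 t1 b5_10 :=
  box_mk (TrL.c (I.pos (nat_lit 0) (nat_lit 0)) (xa (xa T3.l11 T3.l11) T3.l11)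
  (TrL.c (I.pos (nat_lit 0) (nat_lit 0)) T1.l6
  (TrL.c (I.pos (nat_lit 0) (nat_lit 134217730)) T3.l8
  (TrL.c (I.pos (nat_lit 0) (nat_lit 110514882)) T1.l7
  (TrL.c (I.pos (nat_lit 0) (nat_lit 0)) T1.l10
  (TrL.c (I.pos (nat_lit 0) (nat_lit 0)) T3.l9
  (TrL.c (I.mix (nat_lit 8088324) (nat_lit 110514882)) T1.l9
  (TrL.c (I.mix (nat_lit 8088324) (nat_lit 89478486)) T3.l10
  TrL.n)))))))) (by decide +kernel)
theorem bx5_11 : BoxOK sI cl13 cl7 cl5 t3 t1 b5_11 :=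
  box_mk (TrL.c (I.pos (nat_lit 0) (nat_lit 0)) (xb T3.l12 T3.l12)
  (TrL.c (I.pos (nat_lit 0) (nat_lit 0)) T1.l6
  (TrL.c (I.pos (nat_lit 0) (nat_lit 134217730)) (xR T3.l8 T3.l8)
  (TrL.c (I.pos (nat_lit 0) (nat_lit 110514882)) (xR T1.l7 T1.l7)
  (TrL.c (I.pos (nat_lit 0) (nat_lit 0)) (xk T1.l11 T1.l11)
  (TrL.c (I.pos (nat_lit 0) (nat_lit 0)) T3.l9
  (TrL.c (I.mix (nat_lit 8088324) (nat_lit 110514882)) (xR T1.l9 T1.l9)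
  (TrL.c (I.mix (nat_lit 8088324) (nat_lit 89478486)) (xR T3.l10 T3.l10)
  TrL.n)))))))) (by decide +kernel)
theorem bx5_12 : BoxOK sI cl13 cl7 cl5 t3 t1 b5_12 :=
  box_mk (TrL.c (I.pos (nat_lit 0) (nat_lit 0)) (xa (xb T3.l0 T3.l0) (xa T3.l0 T3.l0))
  (TrL.c (I.pos (nat_lit 0) (nat_lit 0)) T1.l6
  (TrL.c (I.pos (nat_lit 0) (nat_lit 134217730)) (xR T3.l8 T3.l4)
  (TrL.c (I.pos (nat_lit 0) (nat_lit 110514882)) (xR T1.l7 T1.l7)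
  (TrL.c (I.pos (nat_lit 0) (nat_lit 0)) (xa (xb T1.l8 T1.l8) (xk (xb (xa T1.l8 T1.l8) (xa T1.l8 T1.l8)) (xb T1.l8 (xa T1.l8 T1.l8))))
  (TrL.c (I.pos (nat_lit 0) (nat_lit 0)) T3.l9
  (TrL.c (I.mix (nat_lit 8088324) (nat_lit 110514882)) (xR T1.l9 (xR T1.l9 T1.l9))
  (TrL.c (I.mix (nat_lit 8088324) (nat_lit 89478486)) (xR T3.l10 T3.l10)
  TrL.n)))))))) (by decide +kernel)
theorem bx5_13 : BoxOK sI cl13 cl7 cl5 t3 t1 b5_13 :=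
  box_mk (TrL.c (I.pos (nat_lit 0) (nat_lit 0)) (xa T3.l0 T3.l0)
  (TrL.c (I.pos (nat_lit 0) (nat_lit 0)) T1.l6
  (TrL.c (I.pos (nat_lit 0) (nat_lit 134217730)) (xR T3.l8 T3.l8)
  (TrL.c (I.pos (nat_lit 0) (nat_lit 110514882)) (xR T1.l7 T1.l7)
  (TrL.c (I.pos (nat_lit 0) (nat_lit 0)) T1.l8
  (TrL.c (I.pos (nat_lit 0) (nat_lit 0)) T3.l9
  (TrL.c (I.mix (nat_lit 8088324) (nat_lit 110514882)) (xR T1.l9 T1.l9)
  (TrL.c (I.mix (nat_lit 8088324) (nat_lit 89478486)) (xR T3.l10 T3.l10)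
  TrL.n)))))))) (by decide +kernel)
theorem sv5 : StarV sI cl13 cl7 cl5 t3 t1 t5 :=
  (bt_n (bt_n (bt_n (bt_b bx5_0) (bt_n (bt_b bx5_1) (bt_b bx5_2))) (bt_n (bt_n (bt_b bx5_3) (bt_b bx5_4)) (bt_n (bt_b bx5_5) (bt_b bx5_6)))) (bt_n (bt_n (bt_b bx5_7) (bt_n (bt_b bx5_8) (bt_b bx5_9))) (bt_n (bt_n (bt_b bx5_10) (bt_b bx5_11)) (bt_n (bt_b bx5_12) (bt_b bx5_13)))))
def S5 : StarD := StarD.mk cl13 cl7 cl5 3 1 t5
def G : List StarD := [S0, S1, S2, S3, S4, S5]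
theorem so0 : StarOK sI G S0 :=
  star_mk (by decide) (by decide) rfl rfl rfl rfl rfl rfl (rfl : _ = t2) (rfl : _ = t4)
  (st_mk (Pth.l (Pth.l (Pth.l Pth.z))) (nat_lit 142536161) (nat_lit 165319759) (by decide +kernel))
  (st_mk (Pth.l (Pth.l (Pth.l Pth.z))) (nat_lit 178863294) (nat_lit 202094321) (by decide +kernel))
  (st_mk (Pth.l (Pth.l (Pth.l Pth.z))) (nat_lit 221196967) (nat_lit 245035315) (by decide +kernel)) sv0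
theorem so1 : StarOK sI G S1 :=
  star_mk (by decide) (by decide) rfl rfl rfl rfl rfl rfl (rfl : _ = t4) (rfl : _ = t2)
  (st_mk (Pth.l (Pth.l (Pth.l Pth.z))) (nat_lit 97210642) (nat_lit 116072665) (by decide +kernel))
  (st_mk (Pth.l (Pth.l (Pth.l Pth.z))) (nat_lit 133310249) (nat_lit 152591621) (by decide +kernel))
  (st_mk (Pth.l (Pth.l (Pth.l Pth.z))) (nat_lit 175453329) (nat_lit 195318315) (by decide +kernel)) sv1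
theorem so2 : StarOK sI G S2 :=
  star_mk (by decide) (by decide) rfl rfl rfl rfl rfl rfl (rfl : _ = t0) (rfl : _ = t5)
  (st_mk (Pth.l (Pth.l (Pth.l Pth.z))) (nat_lit 240329504) (nat_lit 242233549) (by decide +kernel))
  (st_mk (Pth.l (Pth.l (Pth.l Pth.z))) (nat_lit 275946930) (nat_lit 278292342) (by decide +kernel))
  (st_mk (Pth.l (Pth.l (Pth.l Pth.z))) (nat_lit 316633693) (nat_lit 320644067) (by decide +kernel)) sv2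
theorem so3 : StarOK sI G S3 :=
  star_mk (by decide) (by decide) rfl rfl rfl rfl rfl rfl (rfl : _ = t5) (rfl : _ = t0)
  (st_mk (Pth.l (Pth.l (Pth.l Pth.z))) (nat_lit 96406370) (nat_lit 115049462) (by decide +kernel))
  (st_mk (Pth.l (Pth.l (Pth.l Pth.z))) (nat_lit 131797792) (nat_lit 150805383) (by decide +kernel))
  (st_mk (Pth.l (Pth.l (Pth.l Pth.z))) (nat_lit 172827507) (nat_lit 192361609) (by decide +kernel)) sv3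
theorem so4 : StarOK sI G S4 :=
  star_mk (by decide) (by decide) rfl rfl rfl rfl rfl rfl (rfl : _ = t1) (rfl : _ = t3)
  (st_mk (Pth.l (Pth.l (Pth.l Pth.z))) (nat_lit 238062708) (nat_lit 239709846) (by decide +kernel))
  (st_mk (Pth.l (Pth.l (Pth.l Pth.z))) (nat_lit 272959317) (nat_lit 274955774) (by decide +kernel))
  (st_mk (Pth.l (Pth.l (Pth.l Pth.z))) (nat_lit 313224636) (nat_lit 315684400) (by decide +kernel)) sv4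
theorem so5 : StarOK sI G S5 :=
  star_mk (by decide) (by decide) rfl rfl rfl rfl rfl rfl (rfl : _ = t3) (rfl : _ = t1)
  (st_mk (Pth.l (Pth.l (Pth.l Pth.z))) (nat_lit 141873768) (nat_lit 160320156) (by decide +kernel))
  (st_mk (Pth.l (Pth.l (Pth.l Pth.z))) (nat_lit 174891329) (nat_lit 197394822) (by decide +kernel))
  (st_mk (Pth.l (Pth.l (Pth.l Pth.z))) (nat_lit 215156648) (nat_lit 238079828) (by decide +kernel)) sv5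
theorem ok : GroupOK (nat_lit 91226112) (nat_lit 150339584) G := grp_mk (allS_c so0 (allS_c so1 (allS_c so2 (allS_c so3 (allS_c so4 (allS_c so5 allS_n))))))
theorem cov : GCov G cl5 cl7 cl13 := cov_mk
  ⟨0, by decide, rfl, rfl, rfl⟩ ⟨1, by decide, rfl, rfl, rfl⟩ ⟨2, by decide, rfl, rfl, rfl⟩ ⟨3, by decide, rfl, rfl, rfl⟩ ⟨4, by decide, rfl, rfl, rfl⟩ ⟨5, by decide, rfl, rfl, rfl⟩
end Q246_1


end Pool.Agent.Helper6.MONO
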